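import Pool.Agent.H74.EGZ.Link
import Pool.Agent.H94.Lift.Glue

/-!
# The final form of a stage
-/

set_option autoImplicit false

namespace Pool.Agent.H21.EGZ

open Pool.Agent.H74.EGZ Pool.Agent.H94.Lift Pool.Agent.H29.EGZ

/-- concatenation of lists of parts -/
lemma parts_append {ext : ℕ → ℕ → ℕ → ℕ} {vio : ℕ → ℕ → Bool} {G : List ℕ} {Uc A : ℕ}
    {L M : List (ℕ × List ℕ)}
    (hL : ∀ p ∈ L, ∀ D2 ∈ p.2, ∃ e, search ext vio G Uc A p.1 D2 e = true)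
    (hM : ∀ p ∈ M, ∀ D2 ∈ p.2, ∃ e, search ext vio G Uc A p.1 D2 e = true) :
    ∀ p ∈ L ++ M, ∀ D2 ∈ p.2, ∃ e, search ext vio G Uc A p.1 D2 e = true := by
  intro p hp
  rcases List.mem_append.mp hp with h | h
  · exact hL p h
  · exact hM p h

/-- the theorem of a stage -/
theorem stage_final {pts : List ℕ} (hp : ptsOK pts) {X A0 v7 a7 : ℕ}
    (hX : X = pr 64 (xv (ptf pts) (kn (dec a7))) 18) (hA : A0 = Nat.add (Nat.mul 4095 P1152) X)
    {Q : List (ℕ × ℕ × ℕ × ℕ × ℕ)} {sb : List (ℕ × ℕ)} (hsb : sbOK pts Q sb = true)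
    {G : List ℕ} {Uc : ℕ} {RU RN : List (List ℕ)} {L : List (ℕ × List ℕ)}
    (hroot : rootOK X sb ((leaves [Uc]).take 12) ((leaves G).take 1810) RU RN = true)
    (hc : cover Uc L = true)
    (hparts : ∀ p ∈ L, ∀ D2 ∈ p.2, ∃ e, search ext94 (Pool.Agent.H74.EGZ.vio sb) G Uc A0 p.1 D2 e = true)
    (h7 : pts.getD 5 0 = v7) (y : W5 → (Fin 5 → ZMod 9)) (hy : Norm y (pts.take 5) v7 a7)
    (hf : Forb y Q) : False := by
  have facts := facts_of_norm hp hy h7 hf hsb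
  obtain ⟨hU, hN⟩ := root_94 facts hX hroot
  exact stage_sound (fb94 facts) hU hN hc hparts (hA ▸ ok_init facts hX)

end Pool.Agent.H21.EGZ
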