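import Pool.Agent.H21.EGZ.D0

/-!
# Stage 0 : search, part 0
-/

set_option autoImplicit false
set_option maxRecDepth 100000

namespace Pool.Agent.H21.EGZ.S0

noncomputable section

open Pool.Agent.H74.EGZ Pool.Agent.H94.Lift

/-- refutations 0 -/
def e0 : EX := (.node (.node (.node (.node .leaf (nat_lit 2680593923349) (.br (nat_lit 2) (.cons (.br (nat_lit 4) (.cons (.rel (nat_lit 1141901376)) .nil)) .nil)) .leaf) (nat_lit 11039373271942) (.br (nat_lit 2) (.cons (.br (nat_lit 3) (.cons (.rel (nat_lit 671367168)) .nil)) .nil)) .leaf) (nat_lit 11044568774911) (.br (nat_lit 0) (.cons (.br (nat_lit 3) (.cons (.rel (nat_lit 272648196)) (.cons (.rel (nat_lit 545259588)) .nil))) .nil)) (.node .leaf (nat_lit 11044568774957) (.br (nat_lit 0) (.cons (.br (nat_lit 2) (.cons (.rel (nat_lit 71308353)) .nil)) .nil)) .leaf)) (nat_lit 11044569685503) (.br (nat_lit 0) (.cons (.br (nat_lit 2) (.cons (.rel (nat_lit 142606341)) .nil)) .nil)) (.node (.node (.node .leaf (nat_lit 11044570013997) (.br (nat_lit 0)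 (.cons (.br (nat_lit 3) (.cons (.rel (nat_lit 272629896)) .nil)) .nil)) .leaf) (nat_lit 11044570015203) (.br (nat_lit 3) (.cons (.br (nat_lit 4) (.cons (.rel (nat_lit 1610612832)) .nil)) .nil)) .leaf) (nat_lit 11044570015221) (.br (nat_lit 0) (.cons (.br (nat_lit 2) (.cons (.rel (nat_lit 142606341)) .nil)) .nil)) (.node .leaf (nat_lit 11044570015231) (.br (nat_lit 2) (.cons (.br (nat_lit 4) (.cons (.rel (nat_lit 2214598722)) .nil)) .nil)) .leaf)))

/-- refutations 1 -/
def e1 : EX := (.node (.node (.node .leaf (nat_lit 123246338977001) (.br (nat_lit 2) (.cons (.br (nat_lit 4) (.cons (.rel (nat_lit 2282029056)) .nil)) .nil)) .leaf) (nat_lit 123417910054176) (.br (nat_lit 0) (.cons (.br (nat_lit 3) (.cons (.rel (nat_lit 272629896)) .nil)) .nil)) .leaf) (nat_lit 130724980140688) (.br (nat_lit 0) (.cons (.br (nat_lit 1) (.cons (.rel (nat_lit 20971800)) .nil)) .nil)) (.node .leaf (nat_lit 130724980652688) (.br (nat_lit 3) (.cons (.br (nat_lit 4) (.cons (.rel (nat_lit 1610760192)) .nil)) .nil))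 .leaf))

/-- refutations 2 -/
def e2 : EX := (.node (.node (.node .leaf (nat_lit 134184672765979) (.br (nat_lit 5) (.cons (.br (nat_lit 0) (.cons (.rel (nat_lit 4303355937)) (.cons (.rel (nat_lit 4303425552)) .nil))) .nil)) .leaf) (nat_lit 134189374582271) (.br (nat_lit 0) (.cons (.br (nat_lit 3) (.cons (.rel (nat_lit 272633877)) .nil)) .nil)) .leaf) (nat_lit 134189898870023) (.br (nat_lit 0) (.cons (.br (nat_lit 3) (.cons (.rel (nat_lit 272646177)) .nil)) .nil)) (.node .leaf (nat_lit 136299663141801) (.br (nat_lit 2) (.cons (.br (nat_lit 3) (.cons (.rel (nat_lit 336594960)) .nil)) .nil)) .leaf))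

/-- refutations 3 -/
def e3 : EX := (.node (.node (.node (.node .leaf (nat_lit 193580723416297) (.br (nat_lit 0) (.cons (.br (nat_lit 2) (.cons (.rel (nat_lit 142606341)) .nil)) .nil)) .leaf) (nat_lit 193771979484691) (.br (nat_lit 0) (.cons (.br (nat_lit 3) (.cons (.rel (nat_lit 272648196)) .nil)) .nil)) .leaf) (nat_lit 193814704200586) (.br (nat_lit 0) (.cons (.br (nat_lit 2) (.cons (.rel (nat_lit 71303178)) .nil)) .nil)) (.node .leaf (nat_lit 193958533737098) (.br (nat_lit 0) (.cons (.br (nat_lit 2) (.cons (.rel (nat_lit 71303178)) .nil)) .nil)) .leaf)) (nat_lit 193958533737733) (.br (nat_lit 0) (.cons (.br (nat_lit 1) (.cons (.rel (nat_lit 21008640)) (.cons (.rel (nat_lit 20980098)) .nil))) .nil)) (.node (.node .leaf (nat_lit 195722311409002) (.br (nat_lit 1) (.cons (.br (nat_lit 2) (.cons (.rel (nat_lit 83886240)) .nil)) .nil)) .leaf) (nat_lit 198946681072268) (.br (nat_lit 2) (.cons (.br (nat_lit 0) (.cons (.rel (nat_lit 71305233)) (.cons (.rel (nat_lit 71319648)) .nil))) .nil)) (.node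 .leaf (nat_lit 199187331851501) (.br (nat_lit 3) (.cons (.br (nat_lit 4) (.cons (.rel (nat_lit 1342177857)) .nil)) .nil)) .leaf)))

/-- refutations 4 -/
def e4 : EX := (.node (.node .leaf (nat_lit 204553416943643) (.br (nat_lit 1) (.cons (.br (nat_lit 3) (.cons (.rel (nat_lit 285221889)) (.cons (.rel (nat_lit 285212769)) .nil))) (.cons (.br (nat_lit 2) (.cons (.rel (nat_lit 83892240)) (.cons (.rel (nat_lit 83892240)) .nil))) .nil))) .leaf) (nat_lit 206407546776489) (.br (nat_lit 1) (.cons (.br (nat_lit 5) (.cons (.rel (nat_lit 4313841744)) .nil)) .nil)) .leaf)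

/-- refutations 5 -/
def e5 : EX := (.node (.node (.node (.node .leaf (nat_lit 90561615493875) (.br (nat_lit 0) (.cons (.br (nat_lit 1) (.cons (.rel (nat_lit 23134212)) .nil)) .nil)) .leaf) (nat_lit 93822621645456) (.br (nat_lit 0) (.cons (.br (nat_lit 2) (.cons (.rel (nat_lit 71304228)) .nil)) .nil)) (.node .leaf (nat_lit 93822621646352) (.br (nat_lit 1) (.cons (.br (nat_lit 2) (.cons (.rel (nat_lit 83890185)) .nil)) .nil)) .leaf)) (nat_lit 93822623620624) (.br (nat_lit 1) (.cons (.br (nat_lit 3) (.cons (.rel (nat_lit 285221889)) .nil)) .nil)) (.node (.node .leaf (nat_lit 93824557193973) (.br (nat_lit 2) (.cons (.br (nat_lit 6) (.cons (.rel (nat_lit 34426912776)) .nil)) .nil)) .leaf) (nat_lit 94666370783367) (.br (nat_lit 0) (.cons (.br (nat_lit 2) (.cons (.rel (nat_lit 71303178)) (.cons (.rel (nat_lit 71304228)) .nil))) (.cons (.br (nat_lit 2) (.cons (.rel (nat_lit 142606341)) (.cons (.rel (nat_lit 72356097)) .nil))) .nil))) (.node .leaf (nat_lit 94666370783989) (.br (nat_lit 2) (.cons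 (.br (nat_lit 4) (.cons (.rel (nat_lit 1142949120)) .nil)) .nil)) .leaf))) (nat_lit 94666370784162) (.br (nat_lit 0) (.cons (.br (nat_lit 1) (.cons (.rel (nat_lit 20972805)) .nil)) .nil)) (.node (.node (.node .leaf (nat_lit 94666370784543) (.br (nat_lit 2) (.cons (.br (nat_lit 0) (.cons (.rel (nat_lit 139723008)) (.cons (.rel (nat_lit 142606341)) .nil))) .nil)) .leaf) (nat_lit 94667601423118) (.br (nat_lit 0) (.cons (.br (nat_lit 1) (.cons (.rel (nat_lit 22560768)) .nil)) .nil)) (.node .leaf (nat_lit 94667602989967) (.br (nat_lit 1) (.cons (.br (nat_lit 4) (.cons (.rel (nat_lit 1108349952)) .nil)) .nil)) .leaf)) (nat_lit 94667604229007) (.br (nat_lit 2) (.cons (.br (nat_lit 0) (.cons (.rel (nat_lit 72630276)) (.cons (.rel (nat_lit 138678432)) .nil))) .nil)) (.node (.node .leaf (nat_lit 94667604229383) (.br (nat_lit 0) (.cons (.br (nat_lit 1) (.cons (.rel (nat_lit 22560768)) (.cons (.rel (nat_lit 20988225)) .nil))) .nil)) .leaf) (nat_lit 94667604441223) (.br (nat_lit 0) (.cons (.br (nat_lit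 2) (.cons (.rel (nat_lit 76612608)) .nil)) .nil)) (.node .leaf (nat_lit 96007634025203) (.br (nat_lit 2) (.cons (.br (nat_lit 3) (.cons (.rel (nat_lit 604000257)) .nil)) .nil)) .leaf))))

/-- refutations 6 -/
def e6 : EX := (.node (.node (.node (.node (.node .leaf (nat_lit 216581900932577) (.br (nat_lit 0) (.cons (.br (nat_lit 1) (.cons (.rel (nat_lit 21233670)) .nil)) .nil)) .leaf) (nat_lit 217773076105366) (.br (nat_lit 0) (.cons (.br (nat_lit 3) (.cons (.rel (nat_lit 541131072)) .nil)) .nil)) (.node .leaf (nat_lit 217773076106122) (.br (nat_lit 0) (.cons (.br (nat_lit 2) (.cons (.rel (nat_lit 71304228)) .nil)) .nil)) .leaf)) (nat_lit 217773076106503) (.br (nat_lit 3) (.cons (.br (nat_lit 0) (.cons (.rel (nat_lit 272629896)) (.cons (.rel (nat_lit 272629896)) .nil))) .nil)) (.node (.node .leaf (nat_lit 217773077622934) (.br (nat_lit 0) (.cons (.br (nat_lit 4) (.cons (.rel (nat_lit 2155872276)) .nil)) .nil)) .leaf) (nat_lit 217774673880295) (.br (nat_lit 0) (.cons (.br (nat_lit 1) (.cons (.rel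 (nat_lit 23134212)) .nil)) .nil)) (.node .leaf (nat_lit 217774674189825) (.br (nat_lit 0) (.cons (.br (nat_lit 2) (.cons (.rel (nat_lit 71305233)) .nil)) .nil)) .leaf))) (nat_lit 217774675652758) (.br (nat_lit 1) (.cons (.br (nat_lit 2) (.cons (.rel (nat_lit 83903490)) .nil)) .nil)) (.node (.node (.node .leaf (nat_lit 217775901839641) (.br (nat_lit 3) (.cons (.br (nat_lit 2) (.cons (.rel (nat_lit 402719808)) (.cons (.rel (nat_lit 604046337)) .nil))) .nil)) .leaf) (nat_lit 217775901840296) (.br (nat_lit 0) (.cons (.br (nat_lit 2) (.cons (.rel (nat_lit 71304228)) .nil)) .nil)) (.node .leaf (nat_lit 217778573355143) (.br (nat_lit 2) (.cons (.br (nat_lit 6) (.cons (.rel (nat_lit 34426912776)) .nil)) .nil)) .leaf)) (nat_lit 217778573612545) (.br (nat_lit 0) (.cons (.br (nat_lit 1) (.cons (.rel (nat_lit 38797572)) .nil)) .nil)) (.node (.node .leaf (nat_lit 217778574582442) (.br (nat_lit 0) (.cons (.br (nat_lit 2) (.cons (.rel (nat_lit 71304228)) .nil)) .nil)) .leaf) (nat_lit 217778574837910) (.br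 (nat_lit 4) (.cons (.br (nat_lit 6) (.cons (.rel (nat_lit 19327369233)) (.cons (.rel (nat_lit 18254200836)) .nil))) .nil)) .leaf))) (nat_lit 217778574891914) (.br (nat_lit 0) (.cons (.br (nat_lit 4) (.cons (.rel (nat_lit 2155872276)) .nil)) .nil)) (.node (.node (.node (.node .leaf (nat_lit 217778574892545) (.br (nat_lit 0) (.cons (.br (nat_lit 1) (.cons (.rel (nat_lit 25183236)) (.cons (.rel (nat_lit 23134212)) .nil))) .nil)) .leaf) (nat_lit 217778576147207) (.br (nat_lit 1) (.cons (.br (nat_lit 4) (.cons (.rel (nat_lit 1090524180)) .nil)) .nil)) (.node .leaf (nat_lit 217778576147332) (.br (nat_lit 2) (.cons (.br (nat_lit 4) (.cons (.rel (nat_lit 2281701696)) .nil)) .nil)) .leaf)) (nat_lit 217778576147338) (.br (nat_lit 4) (.cons (.br (nat_lit 1) (.cons (.rel (nat_lit 1090525185)) (.cons (.rel (nat_lit 1090536480)) .nil))) .nil)) (.node (.node .leaf (nat_lit 217778576147719) (.br (nat_lit 3) (.cons (.br (nat_lit 4) (.cons (.rel (nat_lit 2684371236)) .nil)) .nil)) .leaf) (nat_lit 217778576355353)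 (.br (nat_lit 0) (.cons (.br (nat_lit 4) (.cons (.rel (nat_lit 2155873281)) .nil)) .nil)) (.node .leaf (nat_lit 217778576356615) (.br (nat_lit 4) (.cons (.br (nat_lit 6) (.cons (.rel (nat_lit 18254200836)) .nil)) .nil)) .leaf))) (nat_lit 217778576402559) (.br (nat_lit 0) (.cons (.br (nat_lit 6) (.cons (.rel (nat_lit 17185439745)) .nil)) .nil)) (.node (.node (.node .leaf (nat_lit 217778576402582) (.br (nat_lit 4) (.cons (.br (nat_lit 6) (.cons (.rel (nat_lit 36507226368)) .nil)) .nil)) .leaf) (nat_lit 217778576403719) (.br (nat_lit 0) (.cons (.br (nat_lit 3) (.cons (.br (nat_lit 4) (.cons (.rel (nat_lit 1343227905)) .nil)) .nil)) .nil)) (.node .leaf (nat_lit 217778576455807) (.br (nat_lit 0) (.cons (.br (nat_lit 5) (.cons (.rel (nat_lit 4299161940)) .nil)) .nil)) .leaf)) (nat_lit 223027026182271) (.br (nat_lit 1) (.cons (.br (nat_lit 2) (.cons (.rel (nat_lit 84943104)) .nil)) .nil)) (.node (.node .leaf (nat_lit 223027026183050) (.br (nat_lit 0) (.cons (.br (nat_lit 4) (.cons (.rel (nat_lit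 2151972864)) .nil)) .nil)) .leaf) (nat_lit 224295137650739) (.br (nat_lit 0) (.cons (.br (nat_lit 2) (.cons (.rel (nat_lit 71368848)) .nil)) .nil)) .leaf))))

/-- refutations 7 -/
def e7 : EX := (.node (.node (.node .leaf (nat_lit 528210068581637) (.br (nat_lit 2) (.cons (.br (nat_lit 3) (.cons (.rel (nat_lit 604000257)) .nil)) .nil)) .leaf) (nat_lit 533358683081584) (.br (nat_lit 1) (.cons (.br (nat_lit 2) (.cons (.rel (nat_lit 83903490)) .nil)) .nil)) .leaf) (nat_lit 533358683081615) (.br (nat_lit 2) (.cons (.br (nat_lit 3) (.cons (.rel (nat_lit 402653313)) .nil)) .nil)) (.node .leaf (nat_lit 533358683082261) (.br (nat_lit 0) (.cons (.br (nat_lit 3) (.cons (.rel (nat_lit 272646177)) .nil)) .nil)) .leaf))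

/-- refutations 8 -/
def e8 : EX := (.node (.node (.node .leaf (nat_lit 545424216688827) (.br (nat_lit 0) (.cons (.br (nat_lit 6) (.cons (.rel (nat_lit 34368192513)) .nil)) .nil)) .leaf) (nat_lit 551863538618544) (.br (nat_lit 3) (.cons (.br (nat_lit 0) (.cons (.rel (nat_lit 272646177)) (.cons (.rel (nat_lit 272634882)) .nil))) .nil)) (.node .leaf (nat_lit 551866667100812) (.br (nat_lit 0) (.cons (.br (nat_lit 1) (.cons (.rel (nat_lit 25296912)) .nil)) .nil)) .leaf)) (nat_lit 551866667632827) (.br (nat_lit 0) (.cons (.br (nat_lit 2) (.cons (.rel (nat_lit 71305233)) .nil)) .nil)) (.node (.node .leaf (nat_lit 551866751455408) (.br (nat_lit 0) (.cons (.br (nat_lit 2) (.cons (.rel (nat_lit 71305233)) .nil)) .nil)) .leaf) (nat_lit 556397010626047) (.br (nat_lit 2) (.cons (.br (nat_lit 3) (.cons (.rel (nat_lit 603979842)) .nil)) .nil)) .leaf))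

/-- refutations 9 -/
def e9 : EX := (.node (.node .leaf (nat_lit 615733015617817) (.br (nat_lit 3) (.cons (.br (nat_lit 5) (.cons (.rel (nat_lit 9126806592)) .nil)) .nil)) .leaf) (nat_lit 621204803953546) (.br (nat_lit 0) (.cons (.br (nat_lit 4) (.cons (.rel (nat_lit 2155873281)) .nil)) .nil)) .leaf)

/-- refutations 10 -/
def e10 : EX := (.node (.node (.node .leaf (nat_lit 623243440193567) (.br (nat_lit 0) (.cons (.br (nat_lit 3) (.cons (.rel (nat_lit 272633877)) (.cons (.rel (nat_lit 272630949)) .nil))) .nil)) .leaf) (nat_lit 623243440194172) (.br (nat_lit 0) (.cons (.br (nat_lit 1) (.cons (.rel (nat_lit 21233670)) .nil)) .nil)) (.node .leaf (nat_lit 623243440194817) (.br (nat_lit 0) (.cons (.br (nat_lit 3) (.cons (.rel (nat_lit 545259588)) .nil)) .nil)) .leaf)) (nat_lit 623544087904287) (.br (nat_lit 3) (.cons (.br (nat_lit 4) (.cons (.rel (nat_lit 1343226900)) .nil)) .nil)) (.node (.node .leaf (nat_lit 626770913998975) (.br (nat_lit 1) (.cons (.br (nat_lit 3) (.cons (.rel (nat_lit 570953985))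 .nil)) .nil)) .leaf) (nat_lit 627844823393162) (.br (nat_lit 0) (.cons (.br (nat_lit 2) (.cons (.rel (nat_lit 71374848)) .nil)) .nil)) .leaf))

/-- refutations 11 -/
def e11 : EX := (.node (.node (.node (.node (.node (.node (.node .leaf (nat_lit 562956275797255) (.br (nat_lit 0) (.cons (.br (nat_lit 1) (.cons (.rel (nat_lit 21315585)) (.cons (.rel (nat_lit 21234720)) .nil))) .nil)) .leaf) (nat_lit 562993139524884) (.br (nat_lit 1) (.cons (.br (nat_lit 2) (.cons (.rel (nat_lit 101187588)) .nil)) .nil)) .leaf) (nat_lit 562999244958996) (.br (nat_lit 1) (.cons (.br (nat_lit 2) (.cons (.rel (nat_lit 84018180)) .nil)) .nil)) (.node .leaf (nat_lit 563053267850503) (.br (nat_lit 0) (.cons (.br (nat_lit 4) (.cons (.rel (nat_lit 1077937173)) (.cons (.rel (nat_lit 2155872276)) .nil))) .nil)) .leaf)) (nat_lit 563396864977777) (.br (nat_lit 1) (.cons (.br (nat_lit 3) (.cons (.rel (nat_lit 285221889)) .nil)) .nil)) (.node (.node .leaf (nat_lit 568370437105826) (.br (nat_lit 3) (.cons (.br (nat_lit 0) (.cons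 (.rel (nat_lit 272633877)) (.cons (.rel (nat_lit 272663616)) .nil))) .nil)) .leaf) (nat_lit 569445228019201) (.br (nat_lit 1) (.cons (.br (nat_lit 2) (.cons (.rel (nat_lit 167772240)) .nil)) .nil)) (.node .leaf (nat_lit 569445229030913) (.br (nat_lit 0) (.cons (.br (nat_lit 4) (.cons (.rel (nat_lit 1077938178)) .nil)) .nil)) .leaf))) (nat_lit 569450264845575) (.br (nat_lit 2) (.cons (.br (nat_lit 6) (.cons (.rel (nat_lit 17248026645)) .nil)) .nil)) (.node (.node (.node (.node .leaf (nat_lit 569450264864930) (.br (nat_lit 4) (.cons (.br (nat_lit 6) (.cons (.rel (nat_lit 19327356933)) .nil)) .nil)) .leaf) (nat_lit 569450264864945) (.br (nat_lit 0) (.cons (.br (nat_lit 6) (.cons (.rel (nat_lit 17184069636)) (.cons (.rel (nat_lit 17184063636)) .nil))) (.cons (.br (nat_lit 4) (.cons (.rel (nat_lit 1078199808)) (.cons (.rel (nat_lit 2155872276)) (.cons (.rel (nat_lit 1077937173)) .nil)))) .nil))) .leaf) (nat_lit 569450264865418) (.br (nat_lit 4) (.cons (.br (nat_lit 0) (.cons (.rel (nat_lit 1077937173))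 (.cons (.rel (nat_lit 1077937173)) (.cons (.rel (nat_lit 1077937173)) .nil)))) (.cons (.br (nat_lit 0) (.cons (.rel (nat_lit 2151743760)) (.cons (.rel (nat_lit 1077938178)) (.cons (.rel (nat_lit 2151743760)) .nil)))) .nil))) (.node .leaf (nat_lit 569450264865550) (.br (nat_lit 0) (.cons (.br (nat_lit 6) (.cons (.rel (nat_lit 17184081936)) .nil)) .nil)) .leaf)) (nat_lit 569450264865655) (.br (nat_lit 0) (.cons (.br (nat_lit 4) (.cons (.rel (nat_lit 2151972864)) .nil)) .nil)) (.node (.node .leaf (nat_lit 569450264865704) (.br (nat_lit 0) (.cons (.br (nat_lit 4) (.cons (.rel (nat_lit 1077940293)) .nil)) .nil)) .leaf) (nat_lit 569450264866055) (.br (nat_lit 1) (.cons (.br (nat_lit 0) (.cons (.rel (nat_lit 22560768)) (.cons (.rel (nat_lit 20972805)) (.cons (.rel (nat_lit 20971800)) .nil)))) (.cons (.br (nat_lit 0) (.cons (.rel (nat_lit 21234720)) (.cons (.rel (nat_lit 25169922)) (.cons (.rel (nat_lit 25169922)) .nil)))) .nil))) (.node .leaf (nat_lit 569450264866079) (.br (nat_lit 1) (.cons (.br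 (nat_lit 5) (.cons (.rel (nat_lit 4312006692)) .nil)) .nil)) .leaf)))) (nat_lit 569450264866303) (.br (nat_lit 3) (.cons (.br (nat_lit 0) (.cons (.rel (nat_lit 545259588)) (.cons (.rel (nat_lit 272634882)) .nil))) .nil)) (.node (.node (.node (.node (.node .leaf (nat_lit 569450265376943) (.br (nat_lit 0) (.cons (.br (nat_lit 2) (.cons (.rel (nat_lit 71305233)) .nil)) .nil)) .leaf) (nat_lit 569450265376944) (.br (nat_lit 0) (.cons (.br (nat_lit 1) (.cons (.rel (nat_lit 20971800)) .nil)) .nil)) .leaf) (nat_lit 569450265377029) (.br (nat_lit 0) (.cons (.br (nat_lit 2) (.cons (.rel (nat_lit 142606341)) (.cons (.rel (nat_lit 142606341)) .nil))) .nil)) (.node .leaf (nat_lit 569450265377524) (.br (nat_lit 0) (.cons (.br (nat_lit 5) (.cons (.rel (nat_lit 4299490305)) .nil)) .nil)) .leaf)) (nat_lit 569450265414919) (.br (nat_lit 0) (.cons (.br (nat_lit 2) (.cons (.rel (nat_lit 71827728)) .nil)) .nil)) (.node (.node .leaf (nat_lit 569450265429255) (.br (nat_lit 3) (.cons (.br (nat_lit 5) (.cons (.rel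 (nat_lit 4563534849)) .nil)) .nil)) .leaf) (nat_lit 569450266135815) (.br (nat_lit 3) (.cons (.br (nat_lit 4) (.cons (.rel (nat_lit 2415935493)) .nil)) .nil)) (.node .leaf (nat_lit 569450266348276) (.br (nat_lit 4) (.cons (.br (nat_lit 6) (.cons (.rel (nat_lit 19327369233)) (.cons (.rel (nat_lit 18254659590)) .nil))) .nil)) .leaf))) (nat_lit 569450266348807) (.br (nat_lit 0) (.cons (.br (nat_lit 1) (.cons (.rel (nat_lit 37756929)) (.cons (.rel (nat_lit 21234720)) (.cons (.rel (nat_lit 37756929)) (.cons (.rel (nat_lit 21234720)) .nil))))) (.cons (.br (nat_lit 3) (.cons (.rel (nat_lit 272761872)) (.cons (.rel (nat_lit 545259588)) (.cons (.rel (nat_lit 272633877)) .nil)))) (.cons (.br (nat_lit 4) (.cons (.rel (nat_lit 1077938178)) (.cons (.rel (nat_lit 1077938178)) (.cons (.rel (nat_lit 1077936168)) .nil)))) .nil)))) (.node (.node (.node (.node .leaf (nat_lit 569450266349055) (.br (nat_lit 3) (.cons (.br (nat_lit 4) (.cons (.rel (nat_lit 1343227905)) .nil)) .nil)) .leaf) (nat_lit 569450266433023)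 (.br (nat_lit 0) (.cons (.br (nat_lit 1) (.cons (.rel (nat_lit 20972805)) .nil)) .nil)) .leaf) (nat_lit 569450266647903) (.br (nat_lit 0) (.cons (.br (nat_lit 3) (.cons (.rel (nat_lit 272634882)) .nil)) .nil)) (.node .leaf (nat_lit 569450267463018) (.br (nat_lit 0) (.cons (.br (nat_lit 3) (.cons (.rel (nat_lit 272761872)) .nil)) .nil)) .leaf)) (nat_lit 569450267873455) (.br (nat_lit 0) (.cons (.br (nat_lit 1) (.cons (.rel (nat_lit 22020741)) .nil)) .nil)) (.node (.node .leaf (nat_lit 569450267936930) (.br (nat_lit 3) (.cons (.br (nat_lit 4) (.cons (.rel (nat_lit 1343227905)) .nil)) .nil)) .leaf) (nat_lit 569450340343047) (.br (nat_lit 1) (.cons (.br (nat_lit 2) (.cons (.rel (nat_lit 83890185)) .nil)) .nil)) (.node .leaf (nat_lit 569450492841223) (.br (nat_lit 0) (.cons (.br (nat_lit 1) (.cons (.rel (nat_lit 21234720)) .nil)) .nil)) .leaf))))) (nat_lit 569650337361159) (.br (nat_lit 0) (.cons (.br (nat_lit 5) (.cons (.br (nat_lit 6) (.cons (.rel (nat_lit 17184067617)) (.cons (.rel (nat_lit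 38656803840)) .nil))) .nil)) .nil)) (.node (.node (.node (.node (.node (.node .leaf (nat_lit 569650338843911) (.br (nat_lit 0) (.cons (.br (nat_lit 1) (.cons (.rel (nat_lit 21233670)) .nil)) .nil)) .leaf) (nat_lit 569656423295138) (.br (nat_lit 3) (.cons (.br (nat_lit 4) (.cons (.rel (nat_lit 2415919248)) .nil)) .nil)) .leaf) (nat_lit 569656424779015) (.br (nat_lit 0) (.cons (.br (nat_lit 1) (.cons (.rel (nat_lit 21234720)) .nil)) .nil)) (.node .leaf (nat_lit 569885281299238) (.br (nat_lit 0) (.cons (.br (nat_lit 1) (.cons (.rel (nat_lit 25169922)) .nil)) .nil)) .leaf)) (nat_lit 573988254512659) (.br (nat_lit 2) (.cons (.br (nat_lit 6) (.cons (.rel (nat_lit 17247044097)) .nil)) .nil)) (.node (.node .leaf (nat_lit 573988254586119) (.br (nat_lit 0) (.cons (.br (nat_lit 1) (.cons (.rel (nat_lit 21237840)) .nil)) .nil)) .leaf) (nat_lit 573988254586369) (.br (nat_lit 0) (.cons (.br (nat_lit 4) (.cons (.rel (nat_lit 1077938178)) .nil)) .nil)) (.node .leaf (nat_lit 573988255811885) (.br (nat_lit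 1) (.cons (.br (nat_lit 5) (.cons (.rel (nat_lit 4311744777)) .nil)) .nil)) .leaf))) (nat_lit 573988255812871) (.br (nat_lit 3) (.cons (.br (nat_lit 0) (.cons (.rel (nat_lit 541081872)) (.cons (.rel (nat_lit 272646177)) .nil))) .nil)) (.node (.node (.node (.node .leaf (nat_lit 573988255812959) (.br (nat_lit 0) (.cons (.br (nat_lit 1) (.cons (.rel (nat_lit 20971800)) .nil)) .nil)) .leaf) (nat_lit 573988256109319) (.br (nat_lit 0) (.cons (.br (nat_lit 1) (.cons (.rel (nat_lit 38797572)) .nil)) .nil)) .leaf) (nat_lit 573988797166969) (.br (nat_lit 0) (.cons (.br (nat_lit 2) (.cons (.rel (nat_lit 138477825)) .nil)) .nil)) (.node .leaf (nat_lit 573989076413703) (.br (nat_lit 0) (.cons (.br (nat_lit 1) (.cons (.rel (nat_lit 20972805)) .nil)) .nil)) .leaf)) (nat_lit 573994340253822) (.br (nat_lit 5) (.cons (.br (nat_lit 6) (.cons (.rel (nat_lit 21474967584)) .nil)) .nil)) (.node (.node .leaf (nat_lit 573994340263968) (.br (nat_lit 0) (.cons (.br (nat_lit 6) (.cons (.rel (nat_lit 17184161796)) .nil))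 .nil)) .leaf) (nat_lit 573994340264072) (.br (nat_lit 6) (.cons (.br (nat_lit 3) (.cons (.rel (nat_lit 17448567060)) (.cons (.rel (nat_lit 34628173860)) (.cons (.rel (nat_lit 17448567060)) .nil)))) (.cons (.br (nat_lit 3) (.cons (.rel (nat_lit 17716740120)) (.cons (.rel (nat_lit 34628177985)) (.cons (.rel (nat_lit 17449369608)) .nil)))) .nil))) (.node .leaf (nat_lit 573994340264098) (.br (nat_lit 2) (.cons (.br (nat_lit 0) (.cons (.rel (nat_lit 71304228)) (.cons (.rel (nat_lit 71305233)) .nil))) .nil)) .leaf)))) (nat_lit 573994340264223) (.br (nat_lit 0) (.cons (.br (nat_lit 5) (.cons (.rel (nat_lit 4299161940)) .nil)) .nil)) (.node (.node (.node (.node (.node .leaf (nat_lit 573994340264567) (.br (nat_lit 0) (.cons (.br (nat_lit 2) (.cons (.rel (nat_lit 71827728)) (.cons (.rel (nat_lit 71307348)) .nil))) (.cons (.br (nat_lit 2) (.cons (.rel (nat_lit 71305233)) (.cons (.rel (nat_lit 71307348)) .nil))) .nil))) .leaf) (nat_lit 573994340264586) (.br (nat_lit 0) (.cons (.br (nat_lit 3) (.cons (.rel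 (nat_lit 272646177)) (.cons (.rel (nat_lit 272629896)) (.cons (.rel (nat_lit 272715792)) .nil)))) (.cons (.br (nat_lit 6) (.cons (.rel (nat_lit 17184067617)) (.cons (.rel (nat_lit 34368192513)) (.cons (.rel (nat_lit 17184067617)) .nil)))) (.cons (.br (nat_lit 3) (.cons (.rel (nat_lit 272634882)) (.cons (.rel (nat_lit 272633877)) (.cons (.rel (nat_lit 272715792)) .nil)))) .nil)))) .leaf) (nat_lit 573994340264742) (.br (nat_lit 6) (.cons (.br (nat_lit 3) (.cons (.rel (nat_lit 34896610560)) (.cons (.rel (nat_lit 17449354368)) .nil))) .nil)) (.node .leaf (nat_lit 573994340265223) (.br (nat_lit 0) (.cons (.br (nat_lit 5) (.cons (.rel (nat_lit 4303357956)) .nil)) .nil)) .leaf)) (nat_lit 573994340265311) (.br (nat_lit 0) (.cons (.br (nat_lit 6) (.cons (.rel (nat_lit 17184064641)) .nil)) .nil)) (.node (.node .leaf (nat_lit 573994340776197) (.br (nat_lit 0) (.cons (.br (nat_lit 6) (.cons (.rel (nat_lit 34369437696)) .nil)) .nil)) .leaf) (nat_lit 573994341534983) (.br (nat_lit 0) (.cons (.br (nat_lit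 3) (.cons (.rel (nat_lit 272646177)) .nil)) .nil)) (.node .leaf (nat_lit 573994341747319) (.br (nat_lit 2) (.cons (.br (nat_lit 4) (.cons (.rel (nat_lit 2214592530)) .nil)) .nil)) .leaf))) (nat_lit 573994341747463) (.br (nat_lit 0) (.cons (.br (nat_lit 1) (.cons (.rel (nat_lit 21233670)) .nil)) .nil)) (.node (.node (.node (.node .leaf (nat_lit 573994341747624) (.br (nat_lit 0) (.cons (.br (nat_lit 4) (.cons (.rel (nat_lit 2155872276)) .nil)) .nil)) .leaf) (nat_lit 573994341747975) (.br (nat_lit 3) (.cons (.br (nat_lit 4) (.cons (.rel (nat_lit 1342702656)) (.cons (.rel (nat_lit 1611923460)) (.cons (.rel (nat_lit 1342177857)) (.cons (.rel (nat_lit 1342198272)) .nil))))) (.cons (.br (nat_lit 5) (.cons (.rel (nat_lit 4563407904)) (.cons (.rel (nat_lit 4563411024)) (.cons (.rel (nat_lit 4563407904)) (.cons (.rel (nat_lit 4563407904)) (.cons (.rel (nat_lit 4563407904)) .nil)))))) (.cons (.br (nat_lit 0) (.cons (.rel (nat_lit 272629896)) (.cons (.rel (nat_lit 272646177)) (.cons (.rel (nat_lit 272633877))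 (.cons (.rel (nat_lit 272629896)) .nil))))) .nil)))) .leaf) (nat_lit 573994341831943) (.br (nat_lit 1) (.cons (.br (nat_lit 3) (.cons (.rel (nat_lit 285212769)) .nil)) .nil)) (.node .leaf (nat_lit 573994341832191) (.br (nat_lit 6) (.cons (.br (nat_lit 2) (.cons (.rel (nat_lit 34426848336)) (.cons (.rel (nat_lit 34426848336)) .nil))) .nil)) .leaf)) (nat_lit 573994342851316) (.br (nat_lit 0) (.cons (.br (nat_lit 1) (.cons (.rel (nat_lit 21315585)) .nil)) .nil)) (.node (.node .leaf (nat_lit 576144327912305) (.br (nat_lit 0) (.cons (.br (nat_lit 3) (.cons (.rel (nat_lit 272633877)) .nil)) .nil)) .leaf) (nat_lit 576144327912306) (.br (nat_lit 0) (.cons (.br (nat_lit 2) (.cons (.rel (nat_lit 139461141)) .nil)) .nil)) (.node .leaf (nat_lit 576144327912979) (.br (nat_lit 0) (.cons (.br (nat_lit 3) (.cons (.rel (nat_lit 272633877)) .nil)) .nil)) .leaf))))))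

/-- refutations 13 -/
def e13 : EX := (.node (.node .leaf (nat_lit 904179871186431) (.br (nat_lit 0) (.cons (.br (nat_lit 2) (.cons (.rel (nat_lit 71304228)) .nil)) .nil)) .leaf) (nat_lit 904182833378567) (.br (nat_lit 0) (.cons (.br (nat_lit 2) (.cons (.rel (nat_lit 142606341)) .nil)) .nil)) .leaf)

/-- refutations 14 -/
def e14 : EX := (.node (.node (.node .leaf (nat_lit 907944715692688) (.br (nat_lit 0) (.cons (.br (nat_lit 1) (.cons (.rel (nat_lit 21054720)) .nil)) .nil)) .leaf) (nat_lit 910106761964402) (.br (nat_lit 3) (.cons (.br (nat_lit 4) (.cons (.rel (nat_lit 1342244352)) .nil)) .nil)) (.node .leaf (nat_lit 910106763530417) (.br (nat_lit 0) (.cons (.br (nat_lit 2) (.cons (.rel (nat_lit 71305233)) .nil)) .nil)) .leaf)) (nat_lit 910106764975367) (.br (nat_lit 3) (.cons (.br (nat_lit 4) (.cons (.rel (nat_lit 1343226900)) .nil)) .nil)) (.node (.node .leaf (nat_lit 910570618870642) (.br (nat_lit 0) (.cons (.br (nat_lit 1) (.cons (.rel (nat_lit 25296912)) .nil)) .nil)) .leaf) (nat_lit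 910570782521375) (.br (nat_lit 0) (.cons (.br (nat_lit 4) (.cons (.rel (nat_lit 1077936168)) .nil)) .nil)) .leaf))

/-- refutations 15 -/
def e15 : EX := (.node .leaf (nat_lit 879718933014560) (.br (nat_lit 0) (.cons (.br (nat_lit 2) (.cons (.rel (nat_lit 71374848)) .nil)) .nil)) .leaf)

/-- refutations 16 -/
def e16 : EX := (.node (.node (.node .leaf (nat_lit 926010090531446) (.br (nat_lit 0) (.cons (.br (nat_lit 2) (.cons (.rel (nat_lit 71304228)) .nil)) .nil)) .leaf) (nat_lit 926010090532373) (.br (nat_lit 0) (.cons (.br (nat_lit 1) (.cons (.rel (nat_lit 21234720)) .nil)) .nil)) .leaf) (nat_lit 926010092014469) (.br (nat_lit 0) (.cons (.br (nat_lit 1) (.cons (.rel (nat_lit 25198656)) .nil)) .nil)) (.node .leaf (nat_lit 927690353880540) (.br (nat_lit 0) (.cons (.br (nat_lit 3) (.cons (.rel (nat_lit 272695377)) .nil)) .nil)) .leaf))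

/-- refutations 17 -/
def e17 : EX := (.node (.node (.node (.node (.node (.node .leaf (nat_lit 985211890380012) (.br (nat_lit 0) (.cons (.br (nat_lit 3) (.cons (.rel (nat_lit 545259588)) (.cons (.rel (nat_lit 272648196)) .nil))) .nil)) .leaf) (nat_lit 985211890380038) (.br (nat_lit 0) (.cons (.br (nat_lit 6) (.cons (.rel (nat_lit 17184194562)) .nil)) .nil)) .leaf) (nat_lit 985211891862441) (.br (nat_lit 0) (.cons (.br (nat_lit 2) (.cons (.rel (nat_lit 71467008)) .nil)) .nil)) (.node (.node .leaf (nat_lit 985612980405511) (.br (nat_lit 0) (.cons (.br (nat_lit 1) (.cons (.rel (nat_lit 21237840)) .nil)) .nil)) .leaf) (nat_lit 987762462343350) (.br (nat_lit 0) (.cons (.br (nat_lit 1) (.cons (.rel (nat_lit 37756929)) .nil)) .nil)) .leaf)) (nat_lit 987762462343923) (.br (nat_lit 0) (.cons (.br (nat_lit 3) (.cons (.rel (nat_lit 545259588)) .nil)) .nil)) (.node (.node (.node .leaf (nat_lit 987762462344595) (.br (nat_lit 0) (.cons (.br (nat_lit 2) (.cons (.rel (nat_lit 71328768)) (.cons (.rel (nat_lit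 142606341)) .nil))) .nil)) .leaf) (nat_lit 990763190134919) (.br (nat_lit 0) (.cons (.br (nat_lit 3) (.cons (.rel (nat_lit 545259588)) .nil)) .nil)) .leaf) (nat_lit 991869089688838) (.br (nat_lit 0) (.cons (.br (nat_lit 1) (.cons (.rel (nat_lit 37749828)) .nil)) .nil)) (.node .leaf (nat_lit 992094629996679) (.br (nat_lit 3) (.cons (.br (nat_lit 4) (.cons (.rel (nat_lit 2684747796)) (.cons (.rel (nat_lit 1610612832)) .nil))) (.cons (.br (nat_lit 4) (.cons (.rel (nat_lit 1342244352)) (.cons (.rel (nat_lit 1610612832)) .nil))) .nil))) .leaf))) (nat_lit 992094630284551) (.br (nat_lit 3) (.cons (.br (nat_lit 5) (.cons (.rel (nat_lit 4563411024)) .nil)) .nil)) (.node (.node (.node (.node .leaf (nat_lit 992094631314345) (.br (nat_lit 3) (.cons (.br (nat_lit 0) (.cons (.rel (nat_lit 272648196)) (.cons (.rel (nat_lit 272629896)) (.cons (.rel (nat_lit 272663616)) .nil)))) .nil)) .leaf) (nat_lit 992094631314695) (.br (nat_lit 2) (.cons (.br (nat_lit 5) (.cons (.rel (nat_lit 4362092625)) (.cons (.rel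 (nat_lit 4362339840)) .nil))) (.cons (.br (nat_lit 5) (.cons (.rel (nat_lit 8724153345)) (.cons (.rel (nat_lit 4362339840)) .nil))) .nil))) .leaf) (nat_lit 992094631314835) (.br (nat_lit 0) (.cons (.br (nat_lit 2) (.cons (.rel (nat_lit 142606341)) (.cons (.rel (nat_lit 142606341)) .nil))) .nil)) (.node .leaf (nat_lit 992094631459076) (.br (nat_lit 1) (.cons (.br (nat_lit 2) (.cons (.rel (nat_lit 83892240)) .nil)) .nil)) .leaf)) (nat_lit 992094631459722) (.br (nat_lit 0) (.cons (.br (nat_lit 2) (.cons (.rel (nat_lit 71467008)) .nil)) .nil)) (.node (.node (.node .leaf (nat_lit 992094631480233) (.br (nat_lit 4) (.cons (.br (nat_lit 0) (.cons (.rel (nat_lit 1077936168)) (.cons (.rel (nat_lit 1077952593)) .nil))) .nil)) .leaf) (nat_lit 992094631533299) (.br (nat_lit 2) (.cons (.br (nat_lit 3) (.cons (.rel (nat_lit 336594960)) .nil)) .nil)) .leaf) (nat_lit 992094631533429) (.br (nat_lit 0) (.cons (.br (nat_lit 2) (.cons (.rel (nat_lit 71467008)) (.cons (.rel (nat_lit 71305233)) .nil))) .nil)) (.node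 .leaf (nat_lit 992094631533804) (.br (nat_lit 2) (.cons (.br (nat_lit 5) (.cons (.rel (nat_lit 4362078210)) .nil)) .nil)) .leaf)))) (nat_lit 992094632998151) (.br (nat_lit 1) (.cons (.br (nat_lit 2) (.cons (.rel (nat_lit 83892240)) .nil)) .nil)) (.node (.node (.node (.node (.node .leaf (nat_lit 992097666673900) (.br (nat_lit 2) (.cons (.br (nat_lit 5) (.cons (.rel (nat_lit 4362078210)) .nil)) .nil)) .leaf) (nat_lit 992101017922796) (.br (nat_lit 0) (.cons (.br (nat_lit 3) (.cons (.rel (nat_lit 272663616)) (.cons (.rel (nat_lit 541081872)) .nil))) .nil)) .leaf) (nat_lit 992101017922822) (.br (nat_lit 0) (.cons (.br (nat_lit 3) (.cons (.rel (nat_lit 272764992)) .nil)) .nil)) (.node (.node .leaf (nat_lit 992101018127018) (.br (nat_lit 0) (.cons (.br (nat_lit 1) (.cons (.rel (nat_lit 20971800)) .nil)) .nil)) .leaf) (nat_lit 992101021040827) (.br (nat_lit 0) (.cons (.br (nat_lit 2) (.cons (.rel (nat_lit 71467008)) .nil)) .nil)) .leaf)) (nat_lit 992101021041577) (.br (nat_lit 1) (.cons (.br (nat_lit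 2) (.cons (.rel (nat_lit 83890185)) .nil)) .nil)) (.node (.node (.node .leaf (nat_lit 992764645181495) (.br (nat_lit 0) (.cons (.br (nat_lit 2) (.cons (.rel (nat_lit 71328768)) .nil)) .nil)) .leaf) (nat_lit 992764645448940) (.br (nat_lit 0) (.cons (.br (nat_lit 1) (.cons (.rel (nat_lit 25296912)) .nil)) .nil)) .leaf) (nat_lit 992765287941033) (.br (nat_lit 0) (.cons (.br (nat_lit 3) (.cons (.rel (nat_lit 545259588)) .nil)) .nil)) (.node .leaf (nat_lit 992765288159987) (.br (nat_lit 0) (.cons (.br (nat_lit 2) (.cons (.rel (nat_lit 71304228)) .nil)) .nil)) .leaf))) (nat_lit 998313742642089) (.br (nat_lit 0) (.cons (.br (nat_lit 2) (.cons (.rel (nat_lit 142688256)) .nil)) .nil)) (.node (.node (.node (.node .leaf (nat_lit 998316779307195) (.br (nat_lit 0) (.cons (.br (nat_lit 2) (.cons (.rel (nat_lit 71305233)) .nil)) .nil)) .leaf) (nat_lit 998316779317383) (.br (nat_lit 0) (.cons (.br (nat_lit 3) (.cons (.rel (nat_lit 545259588)) .nil)) .nil)) .leaf) (nat_lit 998316779318185) (.br (nat_lit 3)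 (.cons (.br (nat_lit 2) (.cons (.rel (nat_lit 336598080)) (.cons (.rel (nat_lit 402673728)) (.cons (.rel (nat_lit 402673728)) (.cons (.rel (nat_lit 336592905)) .nil))))) .nil)) (.node .leaf (nat_lit 998316779318508) (.br (nat_lit 0) (.cons (.br (nat_lit 4) (.cons (.rel (nat_lit 2155873281)) .nil)) .nil)) .leaf)) (nat_lit 998316779318534) (.br (nat_lit 0) (.cons (.br (nat_lit 2) (.cons (.rel (nat_lit 71308353)) .nil)) .nil)) (.node (.node (.node .leaf (nat_lit 998316779318659) (.br (nat_lit 0) (.cons (.br (nat_lit 4) (.cons (.rel (nat_lit 1077936168)) .nil)) .nil)) .leaf) (nat_lit 998316782437638) (.br (nat_lit 0) (.cons (.br (nat_lit 2) (.cons (.rel (nat_lit 71307348)) .nil)) .nil)) .leaf) (nat_lit 998320130567081) (.br (nat_lit 2) (.cons (.br (nat_lit 3) (.cons (.rel (nat_lit 402673728)) .nil)) .nil)) (.node .leaf (nat_lit 998571442253078) (.br (nat_lit 1) (.cons (.br (nat_lit 4) (.cons (.rel (nat_lit 1090527300)) .nil)) .nil)) .leaf)))))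

/-- refutations 18 -/
def e18 : EX := (.node (.node (.node .leaf (nat_lit 1091160022001796) (.br (nat_lit 6) (.cons (.br (nat_lit 4) (.cons (.rel (nat_lit 35433481281)) (.cons (.rel (nat_lit 18254659590)) .nil))) .nil)) .leaf) (nat_lit 1091160022002546) (.br (nat_lit 3) (.cons (.br (nat_lit 6) (.cons (.rel (nat_lit 34628198400)) .nil)) .nil)) .leaf) (nat_lit 1091160022002600) (.br (nat_lit 0) (.cons (.br (nat_lit 1) (.cons (.rel (nat_lit 21234720)) .nil)) .nil)) (.node (.node .leaf (nat_lit 1091160022002921) (.br (nat_lit 4) (.cons (.br (nat_lit 5) (.cons (.rel (nat_lit 10737419280)) (.cons (.rel (nat_lit 5368709145)) .nil))) .nil)) .leaf) (nat_lit 1096385982692004) (.br (nat_lit 0) (.cons (.br (nat_lit 2) (.cons (.rel (nat_lit 142688256)) .nil)) .nil)) .leaf))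

/-- refutations 19 -/
def e19 : EX := (.node (.node (.node (.node .leaf (nat_lit 1097596181746921) (.br (nat_lit 2) (.cons (.br (nat_lit 5) (.cons (.rel (nat_lit 4362159120)) .nil)) .nil)) .leaf) (nat_lit 1097596184561796) (.br (nat_lit 2) (.cons (.br (nat_lit 4) (.cons (.rel (nat_lit 1141129488)) .nil)) .nil)) .leaf) (nat_lit 1097596184562546) (.br (nat_lit 3) (.cons (.br (nat_lit 4) (.cons (.rel (nat_lit 1343230020)) .nil)) .nil)) (.node .leaf (nat_lit 1097596184562921) (.br (nat_lit 0) (.cons (.br (nat_lit 2) (.cons (.rel (nat_lit 142606341)) .nil)) .nil)) .leaf)) (nat_lit 1097596184588475) (.br (nat_lit 0) (.cons (.br (nat_lit 1) (.cons (.rel (nat_lit 37749828)) .nil)) .nil)) (.node (.node (.node .leaf (nat_lit 1097602522099864) (.br (nat_lit 5) (.cons (.br (nat_lit 0) (.cons (.rel (nat_lit 4303425552)) (.cons (.rel (nat_lit 4303373376)) .nil))) .nil)) .leaf) (nat_lit 1097602522181819) (.br (nat_lit 4) (.cons (.br (nat_lit 2) (.cons (.rel (nat_lit 2214592530)) (.cons (.rel (nat_lit 1141901376))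 (.cons (.rel (nat_lit 2281701696)) .nil)))) .nil)) .leaf) (nat_lit 1097602606067844) (.br (nat_lit 0) (.cons (.br (nat_lit 1) (.cons (.rel (nat_lit 37756929)) .nil)) .nil)) (.node .leaf (nat_lit 1098295031135468) (.br (nat_lit 0) (.cons (.br (nat_lit 1) (.cons (.rel (nat_lit 37749828)) .nil)) .nil)) .leaf)))

/-- refutations 22 -/
def e22 : EX := (.node (.node .leaf (nat_lit 2236618692936935) (.br (nat_lit 4) (.cons (.br (nat_lit 5) (.cons (.rel (nat_lit 5368710150)) (.cons (.rel (nat_lit 5368717440)) .nil))) .nil)) .leaf) (nat_lit 2245389016155664) (.br (nat_lit 0) (.cons (.br (nat_lit 5) (.cons (.rel (nat_lit 4299423810)) .nil)) .nil)) (.node .leaf (nat_lit 2247115593008656) (.br (nat_lit 1) (.cons (.br (nat_lit 3) (.cons (.br (nat_lit 6) (.cons (.rel (nat_lit 17449354368)) .nil)) .nil)) .nil)) .leaf))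

/-- refutations 23 -/
def e23 : EX := (.node (.node (.node .leaf (nat_lit 2327601276332083) (.br (nat_lit 0) (.cons (.br (nat_lit 1) (.cons (.rel (nat_lit 21008640)) .nil)) .nil)) .leaf) (nat_lit 2327773075281407) (.br (nat_lit 0) (.cons (.br (nat_lit 1) (.cons (.rel (nat_lit 37749828)) .nil)) .nil)) .leaf) (nat_lit 2328674326537622) (.br (nat_lit 2) (.cons (.br (nat_lit 3) (.cons (.rel (nat_lit 671367168)) .nil)) .nil)) (.node .leaf (nat_lit 2329146758830130) (.br (nat_lit 0) (.cons (.br (nat_lit 2) (.cons (.rel (nat_lit 71303178)) .nil)) .nil)) .leaf))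

/-- refutations 24 -/
def e24 : EX := (.node (.node .leaf (nat_lit 2330163093178379) (.br (nat_lit 0) (.cons (.br (nat_lit 1) (.cons (.rel (nat_lit 21234720)) .nil)) .nil)) .leaf) (nat_lit 2335359589492763) (.br (nat_lit 0) (.cons (.br (nat_lit 2) (.cons (.rel (nat_lit 71305233)) .nil)) .nil)) .leaf)

/-- refutations 25 -/
def e25 : EX := (.node (.node .leaf (nat_lit 2312565662719338) (.br (nat_lit 1) (.cons (.br (nat_lit 4) (.cons (.rel (nat_lit 1090617345)) .nil)) .nil)) .leaf) (nat_lit 2316663061519722) (.br (nat_lit 0) (.cons (.br (nat_lit 2) (.cons (.rel (nat_lit 71385093)) .nil)) .nil)) .leaf)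

/-- refutations 26 -/
def e26 : EX := (.node (.node (.node .leaf (nat_lit 2815829321119082) (.br (nat_lit 2) (.cons (.br (nat_lit 3) (.cons (.rel (nat_lit 402653313)) .nil)) .nil)) .leaf) (nat_lit 2821681979933609) (.br (nat_lit 0) (.cons (.br (nat_lit 2) (.cons (.rel (nat_lit 71374848)) .nil)) .nil)) .leaf) (nat_lit 2821681979933959) (.br (nat_lit 1) (.cons (.br (nat_lit 3) (.cons (.rel (nat_lit 285220884)) .nil)) .nil)) (.node (.node .leaf (nat_lit 2821687130757875) (.br (nat_lit 0) (.cons (.br (nat_lit 2) (.cons (.rel (nat_lit 76612608)) .nil)) .nil)) .leaf) (nat_lit 2827638024514442) (.br (nat_lit 2) (.cons (.br (nat_lit 4) (.cons (.rel (nat_lit 2282029056)) .nil)) .nil)) .leaf))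

/-- refutations 27 -/
def e27 : EX := (.node (.node (.node .leaf (nat_lit 4874170710173723) (.br (nat_lit 5) (.cons (.br (nat_lit 4) (.cons (.rel (nat_lit 5368711200)) (.cons (.rel (nat_lit 5368711200)) (.cons (.br (nat_lit 6) (.cons (.rel (nat_lit 19327356933)) (.cons (.rel (nat_lit 36507226368)) .nil))) .nil)))) (.cons (.br (nat_lit 6) (.cons (.rel (nat_lit 38655033408)) (.cons (.rel (nat_lit 21474846786)) .nil))) .nil))) .leaf) (nat_lit 4874170710685848) (.br (nat_lit 0) (.cons (.br (nat_lit 2) (.cons (.rel (nat_lit 71328768)) .nil)) .nil)) .leaf) (nat_lit 4875489147693712) (.br (nat_lit 0) (.cons (.br (nat_lit 1) (.cons (.rel (nat_lit 20972805)) .nil)) .nil)) (.node .leaf (nat_lit 4879541302977942) (.br (nat_lit 0) (.cons (.br (nat_lit 1) (.cons (.rel (nat_lit 37756929)) .nil)) .nil)) .leaf))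

/-- refutations 28 -/
def e28 : EX := (.node (.node (.node (.node .leaf (nat_lit 4880646996568876) (.br (nat_lit 2) (.cons (.br (nat_lit 3) (.cons (.rel (nat_lit 336101376)) (.cons (.rel (nat_lit 336592905)) (.cons (.rel (nat_lit 335544912)) .nil)))) .nil)) .leaf) (nat_lit 4884859101194866) (.br (nat_lit 0) (.cons (.br (nat_lit 1) (.cons (.rel (nat_lit 20971800)) .nil)) .nil)) .leaf) (nat_lit 4884867691129458) (.br (nat_lit 0) (.cons (.br (nat_lit 4) (.cons (.rel (nat_lit 2151743760)) .nil)) .nil)) (.node .leaf (nat_lit 4884867691130119) (.br (nat_lit 0) (.cons (.br (nat_lit 4) (.cons (.rel (nat_lit 1077937173)) (.cons (.rel (nat_lit 1077938178)) .nil))) .nil)) .leaf)) (nat_lit 4884870400649493) (.br (nat_lit 0) (.cons (.br (nat_lit 2) (.cons (.rel (nat_lit 142606341)) .nil)) .nil)) (.node (.node .leaf (nat_lit 4884870400650503) (.br (nat_lit 6) (.cons (.br (nat_lit 0) (.cons (.rel (nat_lit 17184064641)) (.cons (.rel (nat_lit 17184069636)) .nil))) .nil)) .leaf) (nat_lit 4886453792353068)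 (.br (nat_lit 0) (.cons (.br (nat_lit 1) (.cons (.rel (nat_lit 20971800)) .nil)) .nil)) (.node .leaf (nat_lit 4886458365720603) (.br (nat_lit 0) (.cons (.br (nat_lit 3) (.cons (.rel (nat_lit 272634882)) .nil)) .nil)) .leaf)))

/-- refutations 29 -/
def e29 : EX := (.node (.node (.node .leaf (nat_lit 4493781877723812) (.br (nat_lit 0) (.cons (.br (nat_lit 1) (.cons (.rel (nat_lit 20971800)) .nil)) .nil)) .leaf) (nat_lit 4499204944767858) (.br (nat_lit 0) (.cons (.br (nat_lit 1) (.cons (.rel (nat_lit 25198656)) .nil)) .nil)) .leaf) (nat_lit 4611575864878343) (.br (nat_lit 0) (.cons (.br (nat_lit 1) (.cons (.rel (nat_lit 21008640)) .nil)) .nil)) (.node .leaf (nat_lit 4619994295422215) (.br (nat_lit 0) (.cons (.br (nat_lit 2) (.cons (.rel (nat_lit 71368848)) .nil)) .nil)) .leaf))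

/-- refutations 31 -/
def e31 : EX := (.node (.node (.node (.node (.node .leaf (nat_lit 5020688047394055) (.br (nat_lit 0) (.cons (.br (nat_lit 2) (.cons (.rel (nat_lit 71374848)) .nil)) .nil)) .leaf) (nat_lit 5020688655568135) (.br (nat_lit 0) (.cons (.br (nat_lit 1) (.cons (.rel (nat_lit 21234720)) .nil)) .nil)) .leaf) (nat_lit 5021289949493375) (.br (nat_lit 0) (.cons (.br (nat_lit 4) (.cons (.rel (nat_lit 1077938178)) .nil)) .nil)) (.node .leaf (nat_lit 5021289949494535) (.br (nat_lit 1) (.cons (.br (nat_lit 0) (.cons (.rel (nat_lit 20971800)) (.cons (.rel (nat_lit 21233670)) .nil))) .nil)) .leaf)) (nat_lit 5021289950059152) (.br (nat_lit 0) (.cons (.br (nat_lit 1) (.cons (.rel (nat_lit 20988225)) .nil)) .nil)) (.node (.node (.node .leaf (nat_lit 5021289950059783) (.br (nat_lit 0) (.cons (.br (nat_lit 1) (.cons (.rel (nat_lit 22560768)) .nil)) .nil)) .leaf) (nat_lit 5021289951042192) (.br (nat_lit 6) (.cons (.br (nat_lit 0) (.cons (.rel (nat_lit 17184064641)) (.cons (.rel (nat_lit 17184064641))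 .nil))) .nil)) .leaf) (nat_lit 5021289951277957) (.br (nat_lit 2) (.cons (.br (nat_lit 4) (.cons (.rel (nat_lit 1140851328)) .nil)) .nil)) (.node .leaf (nat_lit 5021289951297837) (.br (nat_lit 2) (.cons (.br (nat_lit 4) (.cons (.rel (nat_lit 2281701696)) .nil)) .nil)) .leaf))) (nat_lit 5021289951298437) (.br (nat_lit 2) (.cons (.br (nat_lit 0) (.cons (.rel (nat_lit 71304228)) (.cons (.rel (nat_lit 71305233)) .nil))) .nil)) (.node (.node (.node (.node .leaf (nat_lit 5021289951298463) (.br (nat_lit 2) (.cons (.br (nat_lit 5) (.cons (.rel (nat_lit 4362077205)) .nil)) .nil)) .leaf) (nat_lit 5021289951298817) (.br (nat_lit 5) (.cons (.br (nat_lit 4) (.cons (.br (nat_lit 2) (.cons (.rel (nat_lit 2214593544)) (.cons (.rel (nat_lit 4362339840)) (.cons (.rel (nat_lit 4362078210)) .nil)))) (.cons (.rel (nat_lit 5368710150)) .nil))) .nil)) .leaf) (nat_lit 5021289951298823) (.br (nat_lit 2) (.cons (.br (nat_lit 3) (.cons (.rel (nat_lit 336101376)) .nil)) .nil)) (.node .leaf (nat_lit 5021289951298942)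 (.br (nat_lit 4) (.cons (.br (nat_lit 5) (.cons (.rel (nat_lit 5368710150)) .nil)) .nil)) .leaf)) (nat_lit 5021289951299037) (.br (nat_lit 0) (.cons (.br (nat_lit 2) (.cons (.rel (nat_lit 71304228)) .nil)) .nil)) (.node (.node .leaf (nat_lit 5021289951299093) (.br (nat_lit 0) (.cons (.br (nat_lit 2) (.cons (.rel (nat_lit 71305233)) .nil)) .nil)) .leaf) (nat_lit 5021289952301957) (.br (nat_lit 0) (.cons (.br (nat_lit 4) (.cons (.rel (nat_lit 2155873281)) .nil)) .nil)) (.node .leaf (nat_lit 5021289952506043) (.br (nat_lit 0) (.cons (.br (nat_lit 1) (.cons (.rel (nat_lit 42996756)) .nil)) .nil)) .leaf))))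

/-- refutations 33 -/
def e33 : EX := (.node (.node (.node (.node (.node .leaf (nat_lit 4968564956145801) (.br (nat_lit 0) (.cons (.br (nat_lit 3) (.cons (.rel (nat_lit 272629896)) .nil)) .nil)) .leaf) (nat_lit 4968564956146951) (.br (nat_lit 4) (.cons (.br (nat_lit 5) (.cons (.rel (nat_lit 5368710150)) .nil)) .nil)) .leaf) (nat_lit 4968564956147076) (.br (nat_lit 6) (.cons (.br (nat_lit 2) (.cons (.rel (nat_lit 17314095168)) (.cons (.rel (nat_lit 34426880001)) .nil))) .nil)) (.node .leaf (nat_lit 4968564956700124) (.br (nat_lit 0) (.cons (.br (nat_lit 3) (.cons (.rel (nat_lit 272761872)) .nil)) .nil)) .leaf)) (nat_lit 4968564957416711) (.br (nat_lit 1) (.cons (.br (nat_lit 2) (.cons (.rel (nat_lit 84018180)) .nil)) .nil)) (.node (.node .leaf (nat_lit 4968564957926306) (.br (nat_lit 1) (.cons (.br (nat_lit 4) (.cons (.rel (nat_lit 1090650120)) .nil)) .nil)) .leaf) (nat_lit 4968564957926788) (.br (nat_lit 5) (.cons (.br (nat_lit 0) (.cons (.rel (nat_lit 4301262852)) (.cons (.rel (nat_lit 4299172113))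 .nil))) .nil)) (.node .leaf (nat_lit 4968564957928800) (.br (nat_lit 4) (.cons (.br (nat_lit 6) (.cons (.rel (nat_lit 36507501600)) .nil)) .nil)) .leaf))) (nat_lit 4968564958632866) (.br (nat_lit 2) (.cons (.br (nat_lit 3) (.cons (.rel (nat_lit 671367168)) .nil)) .nil)) (.node (.node (.node .leaf (nat_lit 4968564959193738) (.br (nat_lit 0) (.cons (.br (nat_lit 2) (.cons (.rel (nat_lit 71307348)) .nil)) .nil)) .leaf) (nat_lit 4968567552932740) (.br (nat_lit 2) (.cons (.br (nat_lit 3) (.cons (.rel (nat_lit 336594960)) .nil)) .nil)) (.node .leaf (nat_lit 4968570225972612) (.br (nat_lit 0) (.cons (.br (nat_lit 5) (.cons (.rel (nat_lit 4299490305)) .nil)) .nil)) .leaf)) (nat_lit 4968570227239568) (.br (nat_lit 4) (.cons (.br (nat_lit 2) (.cons (.rel (nat_lit 1141901376)) (.cons (.rel (nat_lit 1143209985)) .nil))) .nil)) (.node (.node .leaf (nat_lit 4968570227240288) (.br (nat_lit 0) (.cons (.br (nat_lit 2) (.cons (.rel (nat_lit 138675264)) .nil)) .nil)) .leaf) (nat_lit 4968616520919315) (.br (nat_lit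 0) (.cons (.br (nat_lit 1) (.cons (.rel (nat_lit 20971800)) .nil)) .nil)) (.node .leaf (nat_lit 4971842992319841) (.br (nat_lit 1) (.cons (.br (nat_lit 2) (.cons (.rel (nat_lit 83895360)) .nil)) .nil)) .leaf))))

/-- refutations 34 -/
def e34 : EX := (.node (.node (.node .leaf (nat_lit 5365623247610137) (.br (nat_lit 5) (.cons (.br (nat_lit 4) (.cons (.rel (nat_lit 5368709145)) (.cons (.rel (nat_lit 5368710150)) .nil))) .nil)) .leaf) (nat_lit 5365623247611157) (.br (nat_lit 6) (.cons (.br (nat_lit 2) (.cons (.rel (nat_lit 17247044097)) (.cons (.rel (nat_lit 17247044097)) .nil))) .nil)) .leaf) (nat_lit 5368300683202571) (.br (nat_lit 0) (.cons (.br (nat_lit 3) (.cons (.rel (nat_lit 272646177)) .nil)) .nil)) (.node (.node .leaf (nat_lit 5371092411944971) (.br (nat_lit 0) (.cons (.br (nat_lit 1) (.cons (.rel (nat_lit 21234720)) .nil)) .nil)) .leaf) (nat_lit 5371092411945636) (.br (nat_lit 0) (.cons (.br (nat_lit 3) (.cons (.rel (nat_lit 272646177)) .nil)) .nil)) .leaf))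

/-- refutations 35 -/
def e35 : EX := (.node (.node (.node (.node (.node .leaf (nat_lit 5373606033166347) (.br (nat_lit 0) (.cons (.br (nat_lit 4) (.cons (.rel (nat_lit 1079116032)) .nil)) .nil)) .leaf) (nat_lit 5373606033167021) (.br (nat_lit 0) (.cons (.br (nat_lit 2) (.cons (.rel (nat_lit 71385093)) (.cons (.rel (nat_lit 71305233)) (.cons (.rel (nat_lit 142688256)) (.cons (.rel (nat_lit 71303178)) (.cons (.rel (nat_lit 71385093)) .nil)))))) .nil)) (.node .leaf (nat_lit 5373606033167623) (.br (nat_lit 0) (.cons (.br (nat_lit 3) (.cons (.rel (nat_lit 272896512)) .nil)) .nil)) .leaf)) (nat_lit 5373606033360922) (.br (nat_lit 0) (.cons (.br (nat_lit 1) (.cons (.rel (nat_lit 23134212)) .nil)) .nil)) (.node (.node .leaf (nat_lit 5373606033451289) (.br (nat_lit 0) (.cons (.br (nat_lit 2) (.cons (.rel (nat_lit 71308353)) .nil)) .nil)) .leaf) (nat_lit 5373606033451693) (.br (nat_lit 0) (.cons (.br (nat_lit 3) (.cons (.rel (nat_lit 272663616)) (.cons (.rel (nat_lit 541081872)) .nil))) .nil)) .leaf))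 (nat_lit 5373606033452309) (.br (nat_lit 1) (.cons (.br (nat_lit 5) (.cons (.rel (nat_lit 8606711940)) .nil)) .nil)) (.node (.node (.node .leaf (nat_lit 5373606033459836) (.br (nat_lit 0) (.cons (.br (nat_lit 1) (.cons (.rel (nat_lit 21234720)) .nil)) .nil)) .leaf) (nat_lit 5373606034137773) (.br (nat_lit 0) (.cons (.br (nat_lit 3) (.cons (.rel (nat_lit 272761872)) .nil)) .nil)) .leaf) (nat_lit 5373606034137868) (.br (nat_lit 1) (.cons (.br (nat_lit 2) (.cons (.rel (nat_lit 83895360)) .nil)) .nil)) (.node (.node .leaf (nat_lit 5373606034138625) (.br (nat_lit 1) (.cons (.br (nat_lit 5) (.cons (.rel (nat_lit 4312007697)) .nil)) .nil)) .leaf) (nat_lit 5373606034446972) (.br (nat_lit 0) (.cons (.br (nat_lit 2) (.cons (.rel (nat_lit 71319648)) (.cons (.rel (nat_lit 71304228)) .nil))) (.cons (.br (nat_lit 6) (.cons (.rel (nat_lit 17184067617)) (.cons (.rel (nat_lit 17184069636)) (.cons (.rel (nat_lit 17184063636)) .nil)))) .nil))) .leaf))) (nat_lit 5373606034447722) (.br (nat_lit 4) (.cons (.br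 (nat_lit 5) (.cons (.rel (nat_lit 5368711200)) (.cons (.rel (nat_lit 5368717440)) .nil))) .nil)) (.node (.node (.node (.node .leaf (nat_lit 5373606034494125) (.br (nat_lit 0) (.cons (.br (nat_lit 4) (.cons (.rel (nat_lit 1077937173)) .nil)) .nil)) .leaf) (nat_lit 5373606034750741) (.br (nat_lit 0) (.cons (.br (nat_lit 3) (.cons (.rel (nat_lit 272646177)) .nil)) .nil)) (.node .leaf (nat_lit 5373606035726347) (.br (nat_lit 2) (.cons (.br (nat_lit 4) (.cons (.rel (nat_lit 1141932036)) .nil)) .nil)) .leaf)) (nat_lit 5373606035927321) (.br (nat_lit 3) (.cons (.br (nat_lit 4) (.cons (.rel (nat_lit 2415919248)) .nil)) .nil)) (.node (.node .leaf (nat_lit 5373606035982597) (.br (nat_lit 2) (.cons (.br (nat_lit 3) (.cons (.rel (nat_lit 336594960)) .nil)) .nil)) .leaf) (nat_lit 5373606035982972) (.br (nat_lit 4) (.cons (.br (nat_lit 1) (.cons (.rel (nat_lit 2164539456)) (.cons (.rel (nat_lit 2181040197)) .nil))) .nil)) .leaf)) (nat_lit 5373608033849355) (.br (nat_lit 1) (.cons (.br (nat_lit 2) (.cons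 (.rel (nat_lit 83886240)) .nil)) .nil)) (.node (.node (.node .leaf (nat_lit 5373608033850631) (.br (nat_lit 0) (.cons (.br (nat_lit 2) (.cons (.rel (nat_lit 71827728)) .nil)) .nil)) .leaf) (nat_lit 5373608035129404) (.br (nat_lit 0) (.cons (.br (nat_lit 4) (.cons (.rel (nat_lit 1077937173)) .nil)) .nil)) .leaf) (nat_lit 5373611909386925) (.br (nat_lit 0) (.cons (.br (nat_lit 4) (.cons (.rel (nat_lit 2155872276)) .nil)) .nil)) (.node (.node .leaf (nat_lit 5377660485110436) (.br (nat_lit 0) (.cons (.br (nat_lit 2) (.cons (.rel (nat_lit 71305233)) .nil)) .nil)) .leaf) (nat_lit 5379040725443361) (.br (nat_lit 0) (.cons (.br (nat_lit 1) (.cons (.rel (nat_lit 25169922)) .nil)) .nil)) .leaf))))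

/-- refutations 36 -/
def e36 : EX := (.node (.node (.node (.node (.node .leaf (nat_lit 5314392255707772) (.br (nat_lit 0) (.cons (.br (nat_lit 1) (.cons (.rel (nat_lit 37756929)) .nil)) .nil)) .leaf) (nat_lit 5318231365983119) (.br (nat_lit 0) (.cons (.br (nat_lit 1) (.cons (.rel (nat_lit 20971800)) .nil)) .nil)) (.node .leaf (nat_lit 5320881039550496) (.br (nat_lit 0) (.cons (.br (nat_lit 3) (.cons (.rel (nat_lit 272629896)) .nil)) .nil)) .leaf)) (nat_lit 5320881039550765) (.br (nat_lit 0) (.cons (.br (nat_lit 6) (.cons (.rel (nat_lit 17184063636)) .nil)) .nil)) (.node (.node .leaf (nat_lit 5320881039551095) (.br (nat_lit 2) (.cons (.br (nat_lit 3) (.cons (.rel (nat_lit 336101376)) .nil)) .nil)) .leaf) (nat_lit 5320881039551140) (.br (nat_lit 6) (.cons (.br (nat_lit 2) (.cons (.rel (nat_lit 34426851456)) (.cons (.rel (nat_lit 17247044097)) .nil))) .nil)) .leaf)) (nat_lit 5320881039551751) (.br (nat_lit 0) (.cons (.br (nat_lit 3) (.cons (.rel (nat_lit 272896512)) .nil)) .nil)) (.node (.node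 (.node .leaf (nat_lit 5320881039551839) (.br (nat_lit 0) (.cons (.br (nat_lit 3) (.cons (.rel (nat_lit 272629896)) .nil)) .nil)) .leaf) (nat_lit 5320881040104335) (.br (nat_lit 0) (.cons (.br (nat_lit 1) (.cons (.rel (nat_lit 21233670)) .nil)) .nil)) .leaf) (nat_lit 5320881041023263) (.br (nat_lit 0) (.cons (.br (nat_lit 2) (.cons (.rel (nat_lit 71827728)) .nil)) .nil)) (.node (.node .leaf (nat_lit 5320881042357511) (.br (nat_lit 0) (.cons (.br (nat_lit 1) (.cons (.rel (nat_lit 20972805)) .nil)) .nil)) .leaf) (nat_lit 5320881042670244) (.br (nat_lit 0) (.cons (.br (nat_lit 3) (.cons (.rel (nat_lit 272629896)) (.cons (.rel (nat_lit 272629896)) (.cons (.rel (nat_lit 272634882)) .nil)))) .nil)) .leaf))) (nat_lit 5320886245122860) (.br (nat_lit 0) (.cons (.br (nat_lit 1) (.cons (.rel (nat_lit 20988225)) .nil)) .nil)) (.node (.node (.node (.node .leaf (nat_lit 5320886246461596) (.br (nat_lit 1) (.cons (.br (nat_lit 3) (.cons (.rel (nat_lit 285221889)) .nil)) .nil)) .leaf) (nat_lit 5320886247800988)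 (.br (nat_lit 2) (.cons (.br (nat_lit 3) (.cons (.rel (nat_lit 336592905)) .nil)) .nil)) .leaf) (nat_lit 5320886247801134) (.br (nat_lit 0) (.cons (.br (nat_lit 4) (.cons (.rel (nat_lit 1078006788)) .nil)) .nil)) (.node (.node .leaf (nat_lit 5320886247801587) (.br (nat_lit 0) (.cons (.br (nat_lit 3) (.cons (.rel (nat_lit 272629896)) (.cons (.rel (nat_lit 272663616)) .nil))) (.cons (.br (nat_lit 3) (.cons (.rel (nat_lit 272629896)) (.cons (.rel (nat_lit 545259588)) .nil))) .nil))) .leaf) (nat_lit 5320886247801767) (.br (nat_lit 0) (.cons (.br (nat_lit 4) (.cons (.rel (nat_lit 1078006788)) .nil)) .nil)) .leaf)) (nat_lit 5323878926723208) (.br (nat_lit 1) (.cons (.br (nat_lit 3) (.cons (.rel (nat_lit 285278214)) .nil)) .nil)) (.node (.node (.node .leaf (nat_lit 5323878926723373) (.br (nat_lit 0) (.cons (.br (nat_lit 1) (.cons (.rel (nat_lit 21054720)) .nil)) .nil)) .leaf) (nat_lit 5323878926724359) (.br (nat_lit 0) (.cons (.br (nat_lit 1) (.cons (.rel (nat_lit 20971800)) .nil)) .nil)) .leaf)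 (nat_lit 5323878929843553) (.br (nat_lit 0) (.cons (.br (nat_lit 3) (.cons (.rel (nat_lit 272695377)) .nil)) .nil)) (.node (.node .leaf (nat_lit 5326254956920984) (.br (nat_lit 0) (.cons (.br (nat_lit 2) (.cons (.rel (nat_lit 142606341)) .nil)) .nil)) .leaf) (nat_lit 5326254956922357) (.br (nat_lit 1) (.cons (.br (nat_lit 2) (.cons (.rel (nat_lit 83895360)) .nil)) .nil)) .leaf))))

/-- refutations 38 -/
def e38 : EX := (.node (.node .leaf (nat_lit 5496579435866913) (.br (nat_lit 0) (.cons (.br (nat_lit 1) (.cons (.rel (nat_lit 20971800)) .nil)) .nil)) .leaf) (nat_lit 5496716874820385) (.br (nat_lit 0) (.cons (.br (nat_lit 1) (.cons (.rel (nat_lit 20971800)) .nil)) .nil)) (.node .leaf (nat_lit 5501650135932959) (.br (nat_lit 0) (.cons (.br (nat_lit 1) (.cons (.rel (nat_lit 37749828)) .nil)) .nil)) .leaf))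

/-- refutations 39 -/
def e39 : EX := (.node (.node (.node (.node (.node (.node .leaf (nat_lit 10995121565475097) (.br (nat_lit 3) (.cons (.br (nat_lit 4) (.cons (.rel (nat_lit 1343226900)) .nil)) .nil)) .leaf) (nat_lit 10995182940715283) (.br (nat_lit 2) (.cons (.br (nat_lit 4) (.cons (.rel (nat_lit 2214592530)) .nil)) .nil)) .leaf) (nat_lit 10995225911345427) (.br (nat_lit 2) (.cons (.br (nat_lit 4) (.cons (.rel (nat_lit 1141933089)) .nil)) .nil)) (.node .leaf (nat_lit 10995597449707577) (.br (nat_lit 1) (.cons (.br (nat_lit 6) (.cons (.rel (nat_lit 17196646473)) .nil)) .nil)) .leaf)) (nat_lit 10995597449708457) (.br (nat_lit 2) (.cons (.br (nat_lit 6) (.cons (.rel (nat_lit 17247502401)) (.cons (.rel (nat_lit 17314103298)) .nil))) .nil)) (.node (.node .leaf (nat_lit 10995603300980922) (.br (nat_lit 0) (.cons (.br (nat_lit 1) (.cons (.rel (nat_lit 20972805)) .nil)) .nil)) .leaf) (nat_lit 10996490802039059) (.br (nat_lit 0) (.cons (.br (nat_lit 1) (.cons (.rel (nat_lit 25183236)) .nil)) .nil))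 (.node .leaf (nat_lit 10996490802905145) (.br (nat_lit 0) (.cons (.br (nat_lit 1) (.cons (.rel (nat_lit 37749828)) .nil)) .nil)) .leaf))) (nat_lit 10996494493027084) (.br (nat_lit 0) (.cons (.br (nat_lit 3) (.cons (.rel (nat_lit 272761872)) .nil)) .nil)) (.node (.node (.node .leaf (nat_lit 10996494493027731) (.br (nat_lit 0) (.cons (.br (nat_lit 1) (.cons (.rel (nat_lit 21233670)) .nil)) .nil)) .leaf) (nat_lit 10996495952644282) (.br (nat_lit 3) (.cons (.br (nat_lit 4) (.cons (.rel (nat_lit 2416017408)) .nil)) .nil)) (.node .leaf (nat_lit 10996495952735594) (.br (nat_lit 3) (.cons (.br (nat_lit 4) (.cons (.rel (nat_lit 1343227905)) .nil)) .nil)) .leaf)) (nat_lit 10996495952746746) (.br (nat_lit 0) (.cons (.br (nat_lit 3) (.cons (.rel (nat_lit 545259588)) .nil)) .nil)) (.node (.node .leaf (nat_lit 10996495952746771) (.br (nat_lit 1) (.cons (.br (nat_lit 2) (.cons (.rel (nat_lit 83903490)) (.cons (.rel (nat_lit 84018180)) .nil))) .nil)) .leaf) (nat_lit 10996495953420915) (.br (nat_lit 0) (.cons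 (.br (nat_lit 3) (.cons (.rel (nat_lit 541069572)) .nil)) .nil)) (.node .leaf (nat_lit 10996495953421674) (.br (nat_lit 1) (.cons (.br (nat_lit 5) (.cons (.rel (nat_lit 4311746832)) .nil)) .nil)) .leaf)))) (nat_lit 10996495953511827) (.br (nat_lit 0) (.cons (.br (nat_lit 1) (.cons (.rel (nat_lit 20972805)) .nil)) .nil)) (.node (.node (.node (.node .leaf (nat_lit 10996495953676563) (.br (nat_lit 4) (.cons (.br (nat_lit 6) (.cons (.rel (nat_lit 36507226368)) .nil)) .nil)) .leaf) (nat_lit 10996495953676915) (.br (nat_lit 0) (.cons (.br (nat_lit 6) (.cons (.rel (nat_lit 17184064641)) .nil)) .nil)) (.node .leaf (nat_lit 10996495953729811) (.br (nat_lit 0) (.cons (.br (nat_lit 3) (.cons (.rel (nat_lit 272646177)) (.cons (.rel (nat_lit 272648196)) (.cons (.rel (nat_lit 277413888)) (.cons (.rel (nat_lit 272663616)) .nil))))) .nil)) .leaf)) (nat_lit 10996495953730212) (.br (nat_lit 0) (.cons (.br (nat_lit 4) (.cons (.rel (nat_lit 1077937173)) .nil)) .nil)) (.node (.node .leaf (nat_lit 10996495953730468)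 (.br (nat_lit 0) (.cons (.br (nat_lit 2) (.cons (.rel (nat_lit 71385093)) .nil)) .nil)) .leaf) (nat_lit 10996495953730846) (.br (nat_lit 3) (.cons (.br (nat_lit 5) (.cons (.rel (nat_lit 4563534849)) .nil)) .nil)) (.node .leaf (nat_lit 10996495953769355) (.br (nat_lit 1) (.cons (.br (nat_lit 2) (.cons (.rel (nat_lit 83892240)) .nil)) .nil)) .leaf))) (nat_lit 10996495953965193) (.br (nat_lit 0) (.cons (.br (nat_lit 4) (.cons (.rel (nat_lit 2155872276)) .nil)) .nil)) (.node (.node (.node .leaf (nat_lit 10996495953966343) (.br (nat_lit 0) (.cons (.br (nat_lit 3) (.cons (.rel (nat_lit 541081872)) .nil)) .nil)) .leaf) (nat_lit 10996495954985235) (.br (nat_lit 0) (.cons (.br (nat_lit 3) (.cons (.rel (nat_lit 272896512)) (.cons (.rel (nat_lit 272634882)) .nil))) .nil)) (.node .leaf (nat_lit 10996495955000583) (.br (nat_lit 0) (.cons (.br (nat_lit 1) (.cons (.rel (nat_lit 21237840)) .nil)) .nil)) .leaf)) (nat_lit 10996495955009547) (.br (nat_lit 0) (.cons (.br (nat_lit 3) (.cons (.rel (nat_lit 272634882))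 .nil)) .nil)) (.node (.node .leaf (nat_lit 10996495955009811) (.br (nat_lit 0) (.cons (.br (nat_lit 2) (.cons (.rel (nat_lit 142606341)) .nil)) .nil)) .leaf) (nat_lit 10996495955294394) (.br (nat_lit 3) (.cons (.br (nat_lit 4) (.cons (.rel (nat_lit 1342177857)) .nil)) .nil)) (.node .leaf (nat_lit 10996497171357977) (.br (nat_lit 0) (.cons (.br (nat_lit 2) (.cons (.rel (nat_lit 71307348)) .nil)) .nil)) .leaf)))))

/-- refutations 40 -/
def e40 : EX := (.node (.node (.node .leaf (nat_lit 10997281076887827) (.br (nat_lit 0) (.cons (.br (nat_lit 2) (.cons (.rel (nat_lit 71304228)) .nil)) .nil)) .leaf) (nat_lit 11000958609340552) (.br (nat_lit 0) (.cons (.br (nat_lit 5) (.cons (.rel (nat_lit 4300210689)) .nil)) .nil)) .leaf) (nat_lit 11000958609341691) (.br (nat_lit 2) (.cons (.br (nat_lit 4) (.cons (.rel (nat_lit 1207961604)) .nil)) .nil)) (.node .leaf (nat_lit 11000958609341717) (.br (nat_lit 0) (.cons (.br (nat_lit 3) (.cons (.rel (nat_lit 272761872)) .nil)) .nil)) .leaf))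

/-- refutations 41 -/
def e41 : EX := (.node (.node (.node (.node .leaf (nat_lit 11002684771160345) (.br (nat_lit 1) (.cons (.br (nat_lit 3) (.cons (.rel (nat_lit 285221889)) .nil)) .nil)) .leaf) (nat_lit 11002727095419155) (.br (nat_lit 2) (.cons (.br (nat_lit 3) (.cons (.rel (nat_lit 402670608)) .nil)) .nil)) .leaf) (nat_lit 11002730127034503) (.br (nat_lit 0) (.cons (.br (nat_lit 1) (.cons (.rel (nat_lit 25183236)) .nil)) .nil)) (.node .leaf (nat_lit 11002730127901298) (.br (nat_lit 0) (.cons (.br (nat_lit 3) (.cons (.rel (nat_lit 272663616)) .nil)) .nil)) .leaf)) (nat_lit 11003105568701717) (.br (nat_lit 0) (.cons (.br (nat_lit 1) (.cons (.rel (nat_lit 20988225)) .nil)) .nil)) (.node (.node .leaf (nat_lit 11006382968391955) (.br (nat_lit 0) (.cons (.br (nat_lit 1) (.cons (.rel (nat_lit 21234720)) .nil)) .nil)) .leaf) (nat_lit 11006391557294860) (.br (nat_lit 0) (.cons (.br (nat_lit 1) (.cons (.rel (nat_lit 23134212)) .nil)) .nil)) (.node .leaf (nat_lit 11007208819794826) (.br (nat_lit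 0) (.cons (.br (nat_lit 2) (.cons (.rel (nat_lit 71304228)) .nil)) .nil)) .leaf)))

/-- refutations 42 -/
def e42 : EX := (.node (.node .leaf (nat_lit 5401245602884869) (.br (nat_lit 0) (.cons (.br (nat_lit 2) (.cons (.rel (nat_lit 71385093)) .nil)) .nil)) .leaf) (nat_lit 5407736862944038) (.br (nat_lit 0) (.cons (.br (nat_lit 1) (.cons (.rel (nat_lit 37749828)) .nil)) .nil)) (.node .leaf (nat_lit 5413142786735335) (.br (nat_lit 1) (.cons (.br (nat_lit 4) (.cons (.rel (nat_lit 1090535430)) .nil)) .nil)) .leaf))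

/-- refutations 43 -/
def e43 : EX := (.node (.node (.node (.node .leaf (nat_lit 11015300563336103) (.br (nat_lit 0) (.cons (.br (nat_lit 1) (.cons (.rel (nat_lit 37814304)) .nil)) .nil)) .leaf) (nat_lit 11015300563336455) (.br (nat_lit 0) (.cons (.br (nat_lit 2) (.cons (.rel (nat_lit 71304228)) .nil)) .nil)) .leaf) (nat_lit 11023747794802965) (.br (nat_lit 0) (.cons (.br (nat_lit 6) (.cons (.rel (nat_lit 17184079881)) .nil)) .nil)) (.node .leaf (nat_lit 11024536932129524) (.br (nat_lit 1) (.cons (.br (nat_lit 6) (.cons (.rel (nat_lit 17196680193)) .nil)) .nil)) .leaf)) (nat_lit 11024536932449543) (.br (nat_lit 1) (.cons (.br (nat_lit 2) (.cons (.rel (nat_lit 101187588)) .nil)) .nil)) (.node (.node (.node .leaf (nat_lit 11024536932715408) (.br (nat_lit 0) (.cons (.br (nat_lit 3) (.cons (.rel (nat_lit 272646177)) .nil)) .nil)) .leaf) (nat_lit 11024536932762512) (.br (nat_lit 2) (.cons (.br (nat_lit 4) (.cons (.rel (nat_lit 1141901376)) .nil)) .nil)) .leaf) (nat_lit 11024538069371532) (.br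 (nat_lit 2) (.cons (.br (nat_lit 3) (.cons (.rel (nat_lit 671367168)) .nil)) .nil)) (.node .leaf (nat_lit 11026075667610535) (.br (nat_lit 1) (.cons (.br (nat_lit 2) (.cons (.rel (nat_lit 83895360)) .nil)) .nil)) .leaf)))

/-- refutations 44 -/
def e44 : EX := (.node (.node (.node (.node (.node .leaf (nat_lit 11030348891421583) (.br (nat_lit 0) (.cons (.br (nat_lit 1) (.cons (.rel (nat_lit 20971800)) .nil)) .nil)) .leaf) (nat_lit 11030348891735327) (.br (nat_lit 0) (.cons (.br (nat_lit 1) (.cons (.rel (nat_lit 37814304)) .nil)) .nil)) .leaf) (nat_lit 11030350121741574) (.br (nat_lit 0) (.cons (.br (nat_lit 2) (.cons (.rel (nat_lit 71303178)) .nil)) .nil)) (.node .leaf (nat_lit 11032891511740551) (.br (nat_lit 0) (.cons (.br (nat_lit 1) (.cons (.rel (nat_lit 20972805)) .nil)) .nil)) .leaf)) (nat_lit 11032891511741702) (.br (nat_lit 0) (.cons (.br (nat_lit 1) (.cons (.rel (nat_lit 20971800)) .nil)) .nil)) (.node (.node .leaf (nat_lit 11032900693705459) (.br (nat_lit 4) (.cons (.br (nat_lit 5)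 (.cons (.rel (nat_lit 10737419280)) .nil)) .nil)) .leaf) (nat_lit 11032900693706256) (.br (nat_lit 0) (.cons (.br (nat_lit 1) (.cons (.rel (nat_lit 20988225)) (.cons (.rel (nat_lit 20988225)) .nil))) .nil)) (.node .leaf (nat_lit 11036142979853575) (.br (nat_lit 0) (.cons (.br (nat_lit 2) (.cons (.rel (nat_lit 71303178)) .nil)) .nil)) .leaf))) (nat_lit 11036164276819978) (.br (nat_lit 1) (.cons (.br (nat_lit 2) (.cons (.rel (nat_lit 84943104)) .nil)) .nil)) (.node (.node (.node .leaf (nat_lit 11036164276821520) (.br (nat_lit 4) (.cons (.br (nat_lit 5) (.cons (.rel (nat_lit 5368710150)) .nil)) .nil)) .leaf) (nat_lit 11037006090410119) (.br (nat_lit 2) (.cons (.br (nat_lit 6) (.cons (.rel (nat_lit 17248027650)) .nil)) .nil)) (.node .leaf (nat_lit 11037903519756563) (.br (nat_lit 0) (.cons (.br (nat_lit 1) (.cons (.rel (nat_lit 37749828)) .nil)) .nil)) .leaf)) (nat_lit 11037903519757069) (.br (nat_lit 0) (.cons (.br (nat_lit 2) (.cons (.rel (nat_lit 71307348)) .nil)) .nil)) (.node (.node .leaf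 (nat_lit 11042346369831223) (.br (nat_lit 0) (.cons (.br (nat_lit 2) (.cons (.rel (nat_lit 71305233)) .nil)) .nil)) .leaf) (nat_lit 11042347665309973) (.br (nat_lit 0) (.cons (.br (nat_lit 1) (.cons (.rel (nat_lit 37756929)) .nil)) .nil)) (.node .leaf (nat_lit 11043208023186960) (.br (nat_lit 0) (.cons (.br (nat_lit 1) (.cons (.rel (nat_lit 25296912)) .nil)) .nil)) .leaf))))

/-- refutations 45 -/
def e45 : EX := (.node .leaf (nat_lit 11100776273651974) (.br (nat_lit 0) (.cons (.br (nat_lit 1) (.cons (.rel (nat_lit 25198656)) .nil)) .nil)) .leaf)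

/-- refutations 46 -/
def e46 : EX := (.node (.node .leaf (nat_lit 11188636828311833) (.br (nat_lit 3) (.cons (.br (nat_lit 4) (.cons (.rel (nat_lit 2415925248)) (.cons (.rel (nat_lit 2415919248)) .nil))) (.cons (.br (nat_lit 4) (.cons (.rel (nat_lit 1610612832)) (.cons (.rel (nat_lit 2415925248)) .nil))) .nil))) .leaf) (nat_lit 11188636828312482) (.br (nat_lit 2) (.cons (.br (nat_lit 5) (.cons (.rel (nat_lit 4362077205)) .nil)) .nil)) (.node .leaf (nat_lit 11188676525147512) (.br (nat_lit 2) (.cons (.br (nat_lit 3) (.cons (.rel (nat_lit 604000257)) (.cons (.rel (nat_lit 335839509)) .nil))) .nil)) .leaf))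

/-- refutations 47 -/
def e47 : EX := (.node (.node (.node .leaf (nat_lit 11199669694704398) (.br (nat_lit 0) (.cons (.br (nat_lit 2) (.cons (.rel (nat_lit 142606341)) .nil)) .nil)) .leaf) (nat_lit 11199669694704872) (.br (nat_lit 1) (.cons (.br (nat_lit 3) (.cons (.rel (nat_lit 286262532)) .nil)) .nil)) .leaf) (nat_lit 11199669695215768) (.br (nat_lit 0) (.cons (.br (nat_lit 2) (.cons (.rel (nat_lit 71304228)) .nil)) .nil)) (.node (.node .leaf (nat_lit 11199669697301111) (.br (nat_lit 5) (.cons (.br (nat_lit 1) (.cons (.rel (nat_lit 4311826692)) (.cons (.rel (nat_lit 4311746832)) (.cons (.rel (nat_lit 4311749952)) .nil)))) (.cons (.br (nat_lit 1) (.cons (.rel (nat_lit 8623821072)) (.cons (.rel (nat_lit 4312007697)) (.cons (.rel (nat_lit 4312006692)) .nil)))) .nil))) .leaf) (nat_lit 11199674920807056) (.br (nat_lit 1) (.cons (.br (nat_lit 3) (.cons (.rel (nat_lit 285212769)) .nil)) .nil)) .leaf))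

/-- refutations 48 -/
def e48 : EX := (.node .leaf (nat_lit 11130379891910014) (.br (nat_lit 0) (.cons (.br (nat_lit 3) (.cons (.rel (nat_lit 545259588)) .nil)) .nil)) .leaf)

/-- refutations 49 -/
def e49 : EX := (.node (.node .leaf (nat_lit 11208894717149814) (.br (nat_lit 0) (.cons (.br (nat_lit 5) (.cons (.rel (nat_lit 4299161940)) .nil)) .nil)) .leaf) (nat_lit 11218340822131594) (.br (nat_lit 2) (.cons (.br (nat_lit 4) (.cons (.rel (nat_lit 1141932036)) .nil)) .nil)) .leaf)

/-- refutations 50 -/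
def e50 : EX := (.node (.node (.node (.node .leaf (nat_lit 11453695439395466) (.br (nat_lit 0) (.cons (.br (nat_lit 2) (.cons (.rel (nat_lit 71303178)) (.cons (.rel (nat_lit 71307348)) .nil))) .nil)) .leaf) (nat_lit 11453695439395716) (.br (nat_lit 0) (.cons (.br (nat_lit 2) (.cons (.rel (nat_lit 71305233)) .nil)) .nil)) (.node .leaf (nat_lit 11453695439468700) (.br (nat_lit 0) (.cons (.br (nat_lit 1) (.cons (.rel (nat_lit 22560768)) (.cons (.rel (nat_lit 25296912)) .nil))) .nil)) .leaf)) (nat_lit 11453695440728224) (.br (nat_lit 0) (.cons (.br (nat_lit 2) (.cons (.rel (nat_lit 71304228)) .nil)) .nil)) (.node (.node .leaf (nat_lit 11453695440729465) (.br (nat_lit 0) (.cons (.br (nat_lit 2) (.cons (.rel (nat_lit 71304228)) .nil)) .nil)) .leaf) (nat_lit 11453695441973550) (.br (nat_lit 1) (.cons (.br (nat_lit 2) (.cons (.rel (nat_lit 83886240)) .nil)) .nil)) (.node .leaf (nat_lit 11453695442004249) (.br (nat_lit 1) (.cons (.br (nat_lit 2) (.cons (.rel (nat_lit 101728257)) .nil)) .nil)) .leaf)))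 (nat_lit 11453696490324868) (.br (nat_lit 0) (.cons (.br (nat_lit 1) (.cons (.rel (nat_lit 25198656)) .nil)) .nil)) (.node (.node (.node .leaf (nat_lit 11460086875094267) (.br (nat_lit 0) (.cons (.br (nat_lit 3) (.cons (.rel (nat_lit 272633877)) .nil)) .nil)) .leaf) (nat_lit 11460115864515861) (.br (nat_lit 0) (.cons (.br (nat_lit 2) (.cons (.rel (nat_lit 71304228)) .nil)) .nil)) (.node .leaf (nat_lit 11460115984822432) (.br (nat_lit 0) (.cons (.br (nat_lit 1) (.cons (.rel (nat_lit 21237840)) .nil)) .nil)) .leaf)) (nat_lit 11460115984823673) (.br (nat_lit 4) (.cons (.br (nat_lit 0) (.cons (.rel (nat_lit 1077938178)) (.cons (.rel (nat_lit 1077936168)) .nil))) .nil)) (.node (.node .leaf (nat_lit 11460115984823674) (.br (nat_lit 1) (.cons (.br (nat_lit 2) (.cons (.rel (nat_lit 83984400)) .nil)) .nil)) .leaf) (nat_lit 11463551958660473) (.br (nat_lit 0) (.cons (.br (nat_lit 2) (.cons (.rel (nat_lit 138477825)) .nil)) .nil)) (.node .leaf (nat_lit 11463554567516320) (.br (nat_lit 0) (.cons (.br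 (nat_lit 2) (.cons (.rel (nat_lit 71303178)) .nil)) .nil)) .leaf))))

/-- refutations 51 -/
def e51 : EX := (.node (.node .leaf (nat_lit 11610943825980704) (.br (nat_lit 1) (.cons (.br (nat_lit 2) (.cons (.rel (nat_lit 167772240)) .nil)) .nil)) .leaf) (nat_lit 11611072426103065) (.br (nat_lit 0) (.cons (.br (nat_lit 4) (.cons (.rel (nat_lit 1077936168)) .nil)) .nil)) .leaf)

/-- refutations 52 -/
def e52 : EX := (.node (.node (.node .leaf (nat_lit 11618359717954817) (.br (nat_lit 0) (.cons (.br (nat_lit 2) (.cons (.rel (nat_lit 71328768)) .nil)) .nil)) .leaf) (nat_lit 11621881946063010) (.br (nat_lit 0) (.cons (.br (nat_lit 2) (.cons (.rel (nat_lit 142606341)) .nil)) .nil)) (.node .leaf (nat_lit 11621881946372107) (.br (nat_lit 0) (.cons (.br (nat_lit 3) (.cons (.rel (nat_lit 272629896)) .nil)) .nil)) .leaf)) (nat_lit 11621881947653522) (.br (nat_lit 0) (.cons (.br (nat_lit 1) (.cons (.rel (nat_lit 20972805)) .nil)) .nil)) (.node (.node .leaf (nat_lit 11621881948933502) (.br (nat_lit 0) (.cons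 (.br (nat_lit 1) (.cons (.rel (nat_lit 20972805)) .nil)) .nil)) .leaf) (nat_lit 11623728427073567) (.br (nat_lit 0) (.cons (.br (nat_lit 2) (.cons (.rel (nat_lit 71307348)) (.cons (.rel (nat_lit 71304228)) .nil))) .nil)) (.node .leaf (nat_lit 11623728427074442) (.br (nat_lit 0) (.cons (.br (nat_lit 2) (.cons (.rel (nat_lit 71304228)) .nil)) .nil)) .leaf)))

/-- refutations 53 -/
def e53 : EX := (.node (.node (.node (.node (.node (.node .leaf (nat_lit 11962739224291964) (.br (nat_lit 0) (.cons (.br (nat_lit 1) (.cons (.rel (nat_lit 23134212)) .nil)) .nil)) .leaf) (nat_lit 11962744576224519) (.br (nat_lit 3) (.cons (.br (nat_lit 1) (.cons (.rel (nat_lit 570441732)) (.cons (.rel (nat_lit 285230208)) .nil))) .nil)) .leaf) (nat_lit 11962744576783623) (.br (nat_lit 3) (.cons (.br (nat_lit 6) (.cons (.rel (nat_lit 17448568065)) .nil)) .nil)) (.node .leaf (nat_lit 11963130997452037) (.br (nat_lit 0) (.cons (.br (nat_lit 2) (.cons (.rel (nat_lit 71305233)) .nil)) .nil)) .leaf)) (nat_lit 11964232957121322)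 (.br (nat_lit 2) (.cons (.br (nat_lit 3) (.cons (.rel (nat_lit 335872272)) .nil)) .nil)) (.node (.node .leaf (nat_lit 11964233231183254) (.br (nat_lit 0) (.cons (.br (nat_lit 6) (.cons (.rel (nat_lit 17184067617)) .nil)) .nil)) .leaf) (nat_lit 11964233872910363) (.br (nat_lit 2) (.cons (.br (nat_lit 3) (.cons (.rel (nat_lit 402670608)) .nil)) .nil)) (.node .leaf (nat_lit 11964233872910387) (.br (nat_lit 0) (.cons (.br (nat_lit 1) (.cons (.rel (nat_lit 37749828)) .nil)) .nil)) .leaf))) (nat_lit 11964233872910972) (.br (nat_lit 0) (.cons (.br (nat_lit 4) (.cons (.rel (nat_lit 1077936168)) .nil)) .nil)) (.node (.node (.node .leaf (nat_lit 11964233872911146) (.br (nat_lit 0) (.cons (.br (nat_lit 2) (.cons (.rel (nat_lit 142606341)) .nil)) .nil)) .leaf) (nat_lit 11964233872911623) (.br (nat_lit 0) (.cons (.br (nat_lit 6) (.cons (.rel (nat_lit 17184063636)) .nil)) .nil)) (.node .leaf (nat_lit 11964233872911722) (.br (nat_lit 4) (.cons (.br (nat_lit 0) (.cons (.rel (nat_lit 1077936168)) (.cons (.rel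 (nat_lit 1077940293)) .nil))) .nil)) .leaf)) (nat_lit 11964233873146666) (.br (nat_lit 1) (.cons (.br (nat_lit 2) (.cons (.rel (nat_lit 83903490)) .nil)) .nil)) (.node (.node .leaf (nat_lit 11964233873349414) (.br (nat_lit 0) (.cons (.br (nat_lit 1) (.cons (.rel (nat_lit 20972805)) .nil)) .nil)) .leaf) (nat_lit 11964233873451039) (.br (nat_lit 1) (.cons (.br (nat_lit 2) (.cons (.rel (nat_lit 101728257)) .nil)) .nil)) (.node .leaf (nat_lit 11964233874129151) (.br (nat_lit 1) (.cons (.br (nat_lit 6) (.cons (.rel (nat_lit 17196646473)) .nil)) .nil)) .leaf)))) (nat_lit 11964233874487932) (.br (nat_lit 2) (.cons (.br (nat_lit 3) (.cons (.rel (nat_lit 402653313)) (.cons (.rel (nat_lit 336101376)) (.cons (.rel (nat_lit 604046337)) .nil)))) (.cons (.br (nat_lit 3) (.cons (.rel (nat_lit 336101376)) (.cons (.rel (nat_lit 402670608)) (.cons (.rel (nat_lit 671367168)) .nil)))) .nil))) (.node (.node (.node (.node .leaf (nat_lit 11964233874488046) (.br (nat_lit 0) (.cons (.br (nat_lit 3) (.cons (.rel (nat_lit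 545259588)) (.cons (.rel (nat_lit 272633877)) .nil))) (.cons (.br (nat_lit 3) (.cons (.rel (nat_lit 272648196)) (.cons (.rel (nat_lit 272633877)) .nil))) .nil))) .leaf) (nat_lit 11964233874488202) (.br (nat_lit 3) (.cons (.br (nat_lit 4) (.cons (.rel (nat_lit 1610612832)) .nil)) .nil)) (.node .leaf (nat_lit 11964233874488208) (.br (nat_lit 3) (.cons (.br (nat_lit 4) (.cons (.rel (nat_lit 1610621952)) (.cons (.rel (nat_lit 2415935493)) .nil))) .nil)) .leaf)) (nat_lit 11964233874488696) (.br (nat_lit 3) (.cons (.br (nat_lit 4) (.cons (.rel (nat_lit 1610612832)) .nil)) .nil)) (.node (.node .leaf (nat_lit 11964233874488803) (.br (nat_lit 4) (.cons (.br (nat_lit 1) (.cons (.rel (nat_lit 1090524180)) (.cons (.rel (nat_lit 1090527300)) .nil))) .nil)) .leaf) (nat_lit 11964233875674000) (.br (nat_lit 0) (.cons (.br (nat_lit 3) (.cons (.rel (nat_lit 541458432)) .nil)) .nil)) (.node .leaf (nat_lit 11964233875726367) (.br (nat_lit 2) (.cons (.br (nat_lit 3) (.cons (.rel (nat_lit 671367168)) .nil)) .nil))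 .leaf))) (nat_lit 11964233875727146) (.br (nat_lit 2) (.cons (.br (nat_lit 4) (.cons (.rel (nat_lit 2281735428)) .nil)) .nil)) (.node (.node (.node .leaf (nat_lit 11964233875912082) (.br (nat_lit 0) (.cons (.br (nat_lit 3) (.cons (.rel (nat_lit 272629896)) .nil)) .nil)) .leaf) (nat_lit 11964233876029695) (.br (nat_lit 0) (.cons (.br (nat_lit 3) (.cons (.rel (nat_lit 545259588)) .nil)) .nil)) (.node .leaf (nat_lit 11964233876030076) (.br (nat_lit 3) (.cons (.br (nat_lit 4) (.cons (.rel (nat_lit 1610621952)) .nil)) .nil)) .leaf)) (nat_lit 11964897920850556) (.br (nat_lit 0) (.cons (.br (nat_lit 2) (.cons (.rel (nat_lit 71368848)) .nil)) .nil)) (.node (.node .leaf (nat_lit 11965110047816490) (.br (nat_lit 2) (.cons (.br (nat_lit 3) (.cons (.rel (nat_lit 336592905)) (.cons (.rel (nat_lit 336101376)) .nil))) .nil)) .leaf) (nat_lit 11965110048725628) (.br (nat_lit 1) (.cons (.br (nat_lit 2) (.cons (.rel (nat_lit 83895360)) .nil)) .nil)) (.node .leaf (nat_lit 11965110049291050) (.br (nat_lit 2) (.cons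 (.br (nat_lit 3) (.cons (.rel (nat_lit 402670608)) .nil)) .nil)) .leaf)))))

/-- refutations 54 -/
def e54 : EX := (.node (.node (.node (.node (.node .leaf (nat_lit 11969353475504310) (.br (nat_lit 0) (.cons (.br (nat_lit 1) (.cons (.rel (nat_lit 20971800)) .nil)) .nil)) .leaf) (nat_lit 11969667940677119) (.br (nat_lit 0) (.cons (.br (nat_lit 1) (.cons (.rel (nat_lit 37756929)) .nil)) .nil)) (.node .leaf (nat_lit 11970504525163132) (.br (nat_lit 0) (.cons (.br (nat_lit 2) (.cons (.rel (nat_lit 142606341)) .nil)) .nil)) .leaf)) (nat_lit 11973485234042935) (.br (nat_lit 0) (.cons (.br (nat_lit 2) (.cons (.rel (nat_lit 71319648)) .nil)) .nil)) (.node (.node .leaf (nat_lit 11973725750634523) (.br (nat_lit 2) (.cons (.br (nat_lit 1) (.cons (.rel (nat_lit 83890185)) (.cons (.rel (nat_lit 83903490)) .nil))) .nil)) .leaf) (nat_lit 11973725750634527) (.br (nat_lit 3) (.cons (.br (nat_lit 5) (.cons (.rel (nat_lit 4563404928)) (.cons (.rel (nat_lit 4563404928)) .nil))) (.cons (.br (nat_lit 5) (.cons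 (.rel (nat_lit 4563411024)) (.cons (.rel (nat_lit 4563406854)) .nil))) .nil))) (.node .leaf (nat_lit 11973725750634546) (.br (nat_lit 2) (.cons (.br (nat_lit 4) (.cons (.rel (nat_lit 1141506048)) .nil)) .nil)) .leaf))) (nat_lit 11973725750634551) (.br (nat_lit 0) (.cons (.br (nat_lit 4) (.cons (.rel (nat_lit 2155873281)) (.cons (.rel (nat_lit 2151960612)) .nil))) .nil)) (.node (.node (.node .leaf (nat_lit 11973725750635132) (.br (nat_lit 0) (.cons (.br (nat_lit 2) (.cons (.rel (nat_lit 142606341)) .nil)) .nil)) .leaf) (nat_lit 11973725750635783) (.br (nat_lit 1) (.cons (.br (nat_lit 2) (.cons (.rel (nat_lit 83886240)) .nil)) .nil)) (.node .leaf (nat_lit 11973725752211483) (.br (nat_lit 0) (.cons (.br (nat_lit 2) (.cons (.rel (nat_lit 72630276)) .nil)) .nil)) .leaf)) (nat_lit 11973725752211638) (.br (nat_lit 0) (.cons (.br (nat_lit 4) (.cons (.rel (nat_lit 1077936168)) .nil)) .nil)) (.node (.node .leaf (nat_lit 11973725752211706) (.br (nat_lit 2) (.cons (.br (nat_lit 3) (.cons (.rel (nat_lit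 603979842)) .nil)) .nil)) .leaf) (nat_lit 11973725752212092) (.br (nat_lit 2) (.cons (.br (nat_lit 3) (.cons (.rel (nat_lit 603979842)) (.cons (.rel (nat_lit 671367168)) .nil))) (.cons (.br (nat_lit 3) (.cons (.rel (nat_lit 335544912)) (.cons (.rel (nat_lit 336674820)) .nil))) .nil))) .leaf))) (nat_lit 11973725752212368) (.br (nat_lit 2) (.cons (.br (nat_lit 3) (.cons (.rel (nat_lit 671367168)) (.cons (.rel (nat_lit 671367168)) .nil))) .nil)) (.node (.node (.node (.node .leaf (nat_lit 11973725752212391) (.br (nat_lit 2) (.cons (.br (nat_lit 3) (.cons (.rel (nat_lit 337645824)) (.cons (.br (nat_lit 0) (.cons (.rel (nat_lit 142606341)) (.cons (.rel (nat_lit 272629896)) (.cons (.rel (nat_lit 272648196)) .nil)))) .nil))) .nil)) .leaf) (nat_lit 11973725752212833) (.br (nat_lit 0) (.cons (.br (nat_lit 3) (.cons (.rel (nat_lit 272629896)) .nil)) .nil)) (.node .leaf (nat_lit 11973725752212842) (.br (nat_lit 3) (.cons (.br (nat_lit 4) (.cons (.rel (nat_lit 2415935493)) (.cons (.rel (nat_lit 1610612832))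 .nil))) .nil)) .leaf)) (nat_lit 11973725752212991) (.br (nat_lit 2) (.cons (.br (nat_lit 4) (.cons (.rel (nat_lit 2214592530)) (.cons (.rel (nat_lit 1141964802)) .nil))) (.cons (.br (nat_lit 4) (.cons (.rel (nat_lit 1141907472)) (.cons (.rel (nat_lit 2281701696)) .nil))) .nil))) (.node (.node .leaf (nat_lit 11973725752416892) (.br (nat_lit 1) (.cons (.br (nat_lit 3) (.cons (.rel (nat_lit 285212769)) .nil)) .nil)) .leaf) (nat_lit 11973725753121404) (.br (nat_lit 2) (.cons (.br (nat_lit 4) (.cons (.rel (nat_lit 1141117188)) .nil)) .nil)) (.node .leaf (nat_lit 11973725753122070) (.br (nat_lit 0) (.cons (.br (nat_lit 1) (.cons (.rel (nat_lit 20972805)) .nil)) .nil)) .leaf))) (nat_lit 11973725753452031) (.br (nat_lit 2) (.cons (.br (nat_lit 4) (.cons (.rel (nat_lit 1141964802)) .nil)) .nil)) (.node (.node (.node .leaf (nat_lit 11973725753654035) (.br (nat_lit 0) (.cons (.br (nat_lit 1) (.cons (.rel (nat_lit 38797572)) .nil)) .nil)) .leaf) (nat_lit 11973725753744737) (.br (nat_lit 0) (.cons (.br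 (nat_lit 2) (.cons (.rel (nat_lit 71304228)) .nil)) .nil)) (.node .leaf (nat_lit 11973725753753855) (.br (nat_lit 0) (.cons (.br (nat_lit 3) (.cons (.rel (nat_lit 272634882)) .nil)) .nil)) .leaf)) (nat_lit 11973725753754977) (.br (nat_lit 0) (.cons (.br (nat_lit 1) (.cons (.rel (nat_lit 23134212)) .nil)) .nil)) (.node (.node .leaf (nat_lit 11973863189587995) (.br (nat_lit 1) (.cons (.br (nat_lit 2) (.cons (.rel (nat_lit 83886240)) .nil)) .nil)) .leaf) (nat_lit 11975875415760947) (.br (nat_lit 3) (.cons (.br (nat_lit 4) (.cons (.rel (nat_lit 1343227905)) .nil)) .nil)) .leaf))))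

/-- refutations 55 -/
def e55 : EX := (.node (.node (.node (.node .leaf (nat_lit 11470543396089065) (.br (nat_lit 0) (.cons (.br (nat_lit 1) (.cons (.rel (nat_lit 25183236)) .nil)) .nil)) .leaf) (nat_lit 11470549788207754) (.br (nat_lit 0) (.cons (.br (nat_lit 4) (.cons (.rel (nat_lit 1077937173)) .nil)) .nil)) (.node .leaf (nat_lit 11470549788207756) (.br (nat_lit 0) (.cons (.br (nat_lit 2) (.cons (.rel (nat_lit 71303178)) .nil)) .nil)) .leaf)) (nat_lit 11475534919838348) (.br (nat_lit 0) (.cons (.br (nat_lit 2) (.cons (.rel (nat_lit 142606341)) .nil)) .nil)) (.node (.node .leaf (nat_lit 11475538068638348) (.br (nat_lit 3) (.cons (.br (nat_lit 4) (.cons (.rel (nat_lit 1343227905)) .nil)) .nil)) .leaf) (nat_lit 11477020327006839) (.br (nat_lit 0) (.cons (.br (nat_lit 2) (.cons (.rel (nat_lit 71328768)) .nil)) .nil)) (.node .leaf (nat_lit 11477716766297466) (.br (nat_lit 2) (.cons (.br (nat_lit 3) (.cons (.rel (nat_lit 336594960)) .nil)) .nil)) .leaf))) (nat_lit 11481143604407028) (.br (nat_lit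 2) (.cons (.br (nat_lit 3) (.cons (.br (nat_lit 4) (.cons (.rel (nat_lit 2416017408)) .nil)) .nil)) .nil)) (.node (.node (.node .leaf (nat_lit 11481144423950347) (.br (nat_lit 0) (.cons (.br (nat_lit 6) (.cons (.rel (nat_lit 17184064641)) (.cons (.rel (nat_lit 17184064641)) .nil))) .nil)) .leaf) (nat_lit 11481144425178375) (.br (nat_lit 0) (.cons (.br (nat_lit 2) (.cons (.rel (nat_lit 71303178)) .nil)) .nil)) (.node .leaf (nat_lit 11481144426436885) (.br (nat_lit 0) (.cons (.br (nat_lit 3) (.cons (.rel (nat_lit 272646177)) .nil)) .nil)) .leaf)) (nat_lit 11481144426437234) (.br (nat_lit 3) (.cons (.br (nat_lit 2) (.cons (.rel (nat_lit 671106306)) (.cons (.rel (nat_lit 604045332)) .nil))) .nil)) (.node (.node .leaf (nat_lit 11481144426757031) (.br (nat_lit 3) (.cons (.br (nat_lit 4) (.cons (.rel (nat_lit 1342505217)) .nil)) .nil)) .leaf) (nat_lit 11481281863453959) (.br (nat_lit 0) (.cons (.br (nat_lit 1) (.cons (.rel (nat_lit 21008640)) .nil)) .nil)) .leaf)))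

/-- refutations 58 -/
def e58 : EX := (.node (.node (.node (.node (.node .leaf (nat_lit 13211781069614343) (.br (nat_lit 0) (.cons (.br (nat_lit 1) (.cons (.rel (nat_lit 23134212)) .nil)) .nil)) .leaf) (nat_lit 13212055888800394) (.br (nat_lit 0) (.cons (.br (nat_lit 2) (.cons (.rel (nat_lit 71303178)) .nil)) .nil)) .leaf) (nat_lit 13212055888800555) (.br (nat_lit 0) (.cons (.br (nat_lit 2) (.cons (.rel (nat_lit 71304228)) .nil)) .nil)) (.node .leaf (nat_lit 13212055888800621) (.br (nat_lit 1) (.cons (.br (nat_lit 6) (.cons (.rel (nat_lit 17196646473)) .nil)) .nil)) .leaf)) (nat_lit 13212055888801044) (.br (nat_lit 3) (.cons (.br (nat_lit 6) (.cons (.rel (nat_lit 34628173860)) .nil)) .nil)) (.node (.node .leaf (nat_lit 13212055890117265) (.br (nat_lit 0) (.cons (.br (nat_lit 1) (.cons (.rel (nat_lit 21054720)) .nil)) .nil)) .leaf) (nat_lit 13212055890272316) (.br (nat_lit 0) (.cons (.br (nat_lit 2) (.cons (.rel (nat_lit 71305233)) .nil)) .nil)) (.node .leaf (nat_lit 13212055890571524) (.br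 (nat_lit 2) (.cons (.br (nat_lit 3) (.cons (.rel (nat_lit 337645824)) .nil)) .nil)) .leaf))) (nat_lit 13212055891798152) (.br (nat_lit 0) (.cons (.br (nat_lit 2) (.cons (.rel (nat_lit 71319648)) .nil)) .nil)) (.node (.node (.node (.node .leaf (nat_lit 13212055891898528) (.br (nat_lit 0) (.cons (.br (nat_lit 1) (.cons (.rel (nat_lit 20972805)) .nil)) .nil)) .leaf) (nat_lit 13214183734717703) (.br (nat_lit 0) (.cons (.br (nat_lit 4) (.cons (.rel (nat_lit 1077952593)) .nil)) .nil)) .leaf) (nat_lit 13222727094681752) (.br (nat_lit 0) (.cons (.br (nat_lit 6) (.cons (.rel (nat_lit 17184064641)) .nil)) .nil)) (.node .leaf (nat_lit 13222728011693567) (.br (nat_lit 0) (.cons (.br (nat_lit 2) (.cons (.rel (nat_lit 71305233)) .nil)) .nil)) .leaf)) (nat_lit 13222729489629810) (.br (nat_lit 0) (.cons (.br (nat_lit 1) (.cons (.rel (nat_lit 25296912)) .nil)) .nil)) (.node (.node .leaf (nat_lit 13224634977171638) (.br (nat_lit 0) (.cons (.br (nat_lit 1) (.cons (.rel (nat_lit 25198656)) .nil)) .nil)) .leaf)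 (nat_lit 13224634977172358) (.br (nat_lit 4) (.cons (.br (nat_lit 5) (.cons (.rel (nat_lit 5368725570)) .nil)) .nil)) (.node .leaf (nat_lit 13224639684723989) (.br (nat_lit 0) (.cons (.br (nat_lit 1) (.cons (.rel (nat_lit 25198656)) .nil)) .nil)) .leaf))))

/-- refutations 59 -/
def e59 : EX := (.node (.node (.node (.node (.node (.node (.node .leaf (nat_lit 13299735837281168) (.br (nat_lit 1) (.cons (.br (nat_lit 4) (.cons (.rel (nat_lit 2181103620)) .nil)) .nil)) .leaf) (nat_lit 13299950582573992) (.br (nat_lit 0) (.cons (.br (nat_lit 2) (.cons (.rel (nat_lit 71303178)) .nil)) .nil)) .leaf) (nat_lit 13299967762442272) (.br (nat_lit 3) (.cons (.br (nat_lit 4) (.cons (.rel (nat_lit 2415935493)) .nil)) .nil)) (.node .leaf (nat_lit 13299967762442291) (.br (nat_lit 2) (.cons (.br (nat_lit 0) (.cons (.rel (nat_lit 142606341)) (.cons (.rel (nat_lit 71304228)) .nil))) .nil)) .leaf)) (nat_lit 13299967762442417) (.br (nat_lit 4) (.cons (.br (nat_lit 0) (.cons (.rel (nat_lit 2155872276)) (.cons (.rel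 (nat_lit 1077952593)) .nil))) .nil)) (.node (.node .leaf (nat_lit 13299967762443022) (.br (nat_lit 1) (.cons (.br (nat_lit 3) (.cons (.rel (nat_lit 285212769)) .nil)) .nil)) .leaf) (nat_lit 13299967762443527) (.br (nat_lit 4) (.cons (.br (nat_lit 3) (.cons (.rel (nat_lit 1343226900)) (.cons (.rel (nat_lit 2415935493)) .nil))) .nil)) (.node .leaf (nat_lit 13299967762443551) (.br (nat_lit 0) (.cons (.br (nat_lit 2) (.cons (.rel (nat_lit 71319648)) .nil)) .nil)) .leaf))) (nat_lit 13299967762443795) (.br (nat_lit 0) (.cons (.br (nat_lit 3) (.cons (.rel (nat_lit 272634882)) .nil)) .nil)) (.node (.node (.node .leaf (nat_lit 13299967762624544) (.br (nat_lit 2) (.cons (.br (nat_lit 3) (.cons (.rel (nat_lit 336594960)) .nil)) .nil)) .leaf) (nat_lit 13299967762626861) (.br (nat_lit 0) (.cons (.br (nat_lit 1) (.cons (.rel (nat_lit 22560768)) .nil)) .nil)) (.node .leaf (nat_lit 13299967762736391) (.br (nat_lit 4) (.cons (.br (nat_lit 5) (.cons (.rel (nat_lit 5368717440)) .nil)) .nil)) .leaf)) (nat_lit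 13299967762878639) (.br (nat_lit 1) (.cons (.br (nat_lit 2) (.cons (.rel (nat_lit 83902485)) .nil)) .nil)) (.node (.node .leaf (nat_lit 13299967762992391) (.br (nat_lit 4) (.cons (.br (nat_lit 6) (.cons (.rel (nat_lit 18254200836)) (.cons (.rel (nat_lit 19327369233)) .nil))) .nil)) .leaf) (nat_lit 13299967763669119) (.br (nat_lit 0) (.cons (.br (nat_lit 1) (.cons (.rel (nat_lit 20972805)) .nil)) .nil)) (.node .leaf (nat_lit 13299967763713287) (.br (nat_lit 0) (.cons (.br (nat_lit 2) (.cons (.rel (nat_lit 71827728)) .nil)) .nil)) .leaf)))) (nat_lit 13299967763926279) (.br (nat_lit 3) (.cons (.br (nat_lit 4) (.cons (.rel (nat_lit 1610678277)) .nil)) .nil)) (.node (.node (.node (.node .leaf (nat_lit 13299967764008991) (.br (nat_lit 0) (.cons (.br (nat_lit 2) (.cons (.rel (nat_lit 71303178)) .nil)) .nil)) .leaf) (nat_lit 13299967764009137) (.br (nat_lit 4) (.cons (.br (nat_lit 6) (.cons (.rel (nat_lit 18253619712)) .nil)) .nil)) (.node .leaf (nat_lit 13299967764009847) (.br (nat_lit 0) (.cons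 (.br (nat_lit 1) (.cons (.rel (nat_lit 20971800)) .nil)) .nil)) .leaf)) (nat_lit 13299967764224051) (.br (nat_lit 0) (.cons (.br (nat_lit 2) (.cons (.rel (nat_lit 71305233)) .nil)) .nil)) (.node (.node .leaf (nat_lit 13299967765451654) (.br (nat_lit 0) (.cons (.br (nat_lit 1) (.cons (.rel (nat_lit 21234720)) .nil)) .nil)) .leaf) (nat_lit 13299967765453682) (.br (nat_lit 3) (.cons (.br (nat_lit 6) (.cons (.rel (nat_lit 17449369608)) .nil)) .nil)) (.node .leaf (nat_lit 13299967765454087) (.br (nat_lit 3) (.cons (.br (nat_lit 4) (.cons (.rel (nat_lit 1342244352)) .nil)) .nil)) .leaf))) (nat_lit 13299968584525959) (.br (nat_lit 0) (.cons (.br (nat_lit 3) (.cons (.rel (nat_lit 272634882)) .nil)) .nil)) (.node (.node (.node .leaf (nat_lit 13299968584527111) (.br (nat_lit 0) (.cons (.br (nat_lit 1) (.cons (.rel (nat_lit 21234720)) (.cons (.rel (nat_lit 21234720)) .nil))) .nil)) .leaf) (nat_lit 13300173920873735) (.br (nat_lit 0) (.cons (.br (nat_lit 4) (.cons (.rel (nat_lit 2155873281)) (.cons (.rel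 (nat_lit 1077936168)) .nil))) .nil)) (.node .leaf (nat_lit 13300173923944634) (.br (nat_lit 0) (.cons (.br (nat_lit 3) (.cons (.rel (nat_lit 272648196)) .nil)) .nil)) .leaf)) (nat_lit 13300173923945360) (.br (nat_lit 3) (.cons (.br (nat_lit 4) (.cons (.rel (nat_lit 1343227905)) .nil)) .nil)) (.node (.node .leaf (nat_lit 13305078773525132) (.br (nat_lit 0) (.cons (.br (nat_lit 1) (.cons (.rel (nat_lit 20988225)) .nil)) .nil)) .leaf) (nat_lit 13306393033518367) (.br (nat_lit 1) (.cons (.br (nat_lit 3) (.cons (.rel (nat_lit 570441732)) .nil)) .nil)) (.node .leaf (nat_lit 13306393035001095) (.br (nat_lit 0) (.cons (.br (nat_lit 1) (.cons (.rel (nat_lit 25296912)) .nil)) .nil)) .leaf))))) (nat_lit 13310730950466823) (.br (nat_lit 0) (.cons (.br (nat_lit 1) (.cons (.rel (nat_lit 23134212)) .nil)) .nil)) (.node (.node (.node (.node (.node (.node .leaf (nat_lit 13310730950668320) (.br (nat_lit 0) (.cons (.br (nat_lit 3) (.cons (.rel (nat_lit 272715792)) .nil)) .nil)) .leaf) (nat_lit 13310730950668590)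 (.br (nat_lit 0) (.cons (.br (nat_lit 3) (.cons (.rel (nat_lit 541069572)) .nil)) .nil)) .leaf) (nat_lit 13310730950670367) (.br (nat_lit 0) (.cons (.br (nat_lit 3) (.cons (.rel (nat_lit 277413888)) (.cons (.rel (nat_lit 543162369)) .nil))) (.cons (.br (nat_lit 3) (.cons (.rel (nat_lit 273711360)) (.cons (.rel (nat_lit 272629896)) .nil))) .nil))) (.node .leaf (nat_lit 13310730950670518) (.br (nat_lit 0) (.cons (.br (nat_lit 3) (.cons (.rel (nat_lit 272633877)) .nil)) .nil)) .leaf)) (nat_lit 13310730950779691) (.br (nat_lit 1) (.cons (.br (nat_lit 0) (.cons (.rel (nat_lit 38797572)) (.cons (.rel (nat_lit 20971800)) .nil))) .nil)) (.node (.node .leaf (nat_lit 13310730950780167) (.br (nat_lit 5) (.cons (.br (nat_lit 1) (.cons (.rel (nat_lit 4312010817)) (.cons (.rel (nat_lit 4311744777)) .nil))) .nil)) .leaf) (nat_lit 13310730950925789) (.br (nat_lit 2) (.cons (.br (nat_lit 6) (.cons (.rel (nat_lit 17248108560)) .nil)) .nil)) (.node .leaf (nat_lit 13310730951970055) (.br (nat_lit 4) (.cons (.br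 (nat_lit 2) (.cons (.rel (nat_lit 1141129488)) (.cons (.rel (nat_lit 1141506048)) (.cons (.rel (nat_lit 1140851328)) .nil)))) (.cons (.br (nat_lit 2) (.cons (.rel (nat_lit 1141506048)) (.cons (.rel (nat_lit 1141506048)) (.cons (.rel (nat_lit 1140851328)) .nil)))) .nil))) .leaf))) (nat_lit 13310730951970143) (.br (nat_lit 0) (.cons (.br (nat_lit 1) (.cons (.rel (nat_lit 20971800)) .nil)) .nil)) (.node (.node (.node .leaf (nat_lit 13310730951970323) (.br (nat_lit 0) (.cons (.br (nat_lit 1) (.cons (.rel (nat_lit 21234720)) .nil)) .nil)) .leaf) (nat_lit 13310730953026823) (.br (nat_lit 1) (.cons (.br (nat_lit 2) (.cons (.rel (nat_lit 83886240)) .nil)) .nil)) (.node .leaf (nat_lit 13310730953293063) (.br (nat_lit 4) (.cons (.br (nat_lit 3) (.cons (.rel (nat_lit 1343227905)) (.cons (.rel (nat_lit 1343230020)) .nil))) .nil)) .leaf)) (nat_lit 13310730953495430) (.br (nat_lit 0) (.cons (.br (nat_lit 5) (.cons (.rel (nat_lit 4303355937)) .nil)) .nil)) (.node (.node .leaf (nat_lit 13310730953584671)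 (.br (nat_lit 0) (.cons (.br (nat_lit 3) (.cons (.rel (nat_lit 545259588)) .nil)) .nil)) .leaf) (nat_lit 13310730953585521) (.br (nat_lit 1) (.cons (.br (nat_lit 5) (.cons (.rel (nat_lit 4328555520)) .nil)) .nil)) (.node .leaf (nat_lit 13310730953586170) (.br (nat_lit 2) (.cons (.br (nat_lit 6) (.cons (.rel (nat_lit 17248027650)) .nil)) .nil)) .leaf)))) (nat_lit 13310730953605151) (.br (nat_lit 0) (.cons (.br (nat_lit 3) (.cons (.rel (nat_lit 272634882)) .nil)) .nil)) (.node (.node (.node (.node .leaf (nat_lit 13310730953605302) (.br (nat_lit 4) (.cons (.br (nat_lit 0) (.cons (.rel (nat_lit 1077937173)) (.cons (.rel (nat_lit 1077936168)) .nil))) .nil)) .leaf) (nat_lit 13310730953605422) (.br (nat_lit 4) (.cons (.br (nat_lit 1) (.cons (.rel (nat_lit 1090525185)) (.cons (.rel (nat_lit 2181103620)) (.cons (.rel (nat_lit 1090519185)) .nil)))) (.cons (.br (nat_lit 0) (.cons (.rel (nat_lit 1077936168)) (.cons (.rel (nat_lit 1077936168)) (.cons (.rel (nat_lit 1077940293)) .nil)))) .nil))) (.node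 .leaf (nat_lit 13310730953606032) (.br (nat_lit 4) (.cons (.br (nat_lit 2) (.cons (.rel (nat_lit 1140851328)) (.cons (.rel (nat_lit 1141117188)) (.cons (.rel (nat_lit 2214592530)) .nil)))) (.cons (.br (nat_lit 0) (.cons (.rel (nat_lit 1077938178)) (.cons (.rel (nat_lit 1077936168)) (.cons (.rel (nat_lit 1077936168)) .nil)))) .nil))) .leaf)) (nat_lit 13310730953606055) (.br (nat_lit 4) (.cons (.br (nat_lit 6) (.cons (.rel (nat_lit 18253873476)) (.cons (.rel (nat_lit 19327369233)) (.cons (.rel (nat_lit 18254659590)) .nil)))) (.cons (.br (nat_lit 6) (.cons (.rel (nat_lit 18254659590)) (.cons (.rel (nat_lit 35433501696)) (.cons (.rel (nat_lit 18253619712)) .nil)))) .nil))) (.node (.node .leaf (nat_lit 13310730953606405) (.br (nat_lit 0) (.cons (.br (nat_lit 3) (.cons (.rel (nat_lit 272629896)) .nil)) .nil)) .leaf) (nat_lit 13310733550954528) (.br (nat_lit 0) (.cons (.br (nat_lit 2) (.cons (.rel (nat_lit 142606341)) .nil)) .nil)) (.node .leaf (nat_lit 13310733550955783) (.br (nat_lit 0) (.cons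 (.br (nat_lit 1) (.cons (.rel (nat_lit 21234720)) .nil)) .nil)) .leaf))) (nat_lit 13310737036421171) (.br (nat_lit 0) (.cons (.br (nat_lit 1) (.cons (.rel (nat_lit 21008640)) .nil)) .nil)) (.node (.node (.node .leaf (nat_lit 13310737036677272) (.br (nat_lit 0) (.cons (.br (nat_lit 1) (.cons (.rel (nat_lit 20972805)) .nil)) .nil)) .leaf) (nat_lit 13310737037905159) (.br (nat_lit 0) (.cons (.br (nat_lit 4) (.cons (.rel (nat_lit 1078068288)) (.cons (.rel (nat_lit 1077937173)) .nil))) .nil)) (.node .leaf (nat_lit 13310737037905249) (.br (nat_lit 0) (.cons (.br (nat_lit 1) (.cons (.rel (nat_lit 25183236)) .nil)) .nil)) .leaf)) (nat_lit 13310737037905427) (.br (nat_lit 0) (.cons (.br (nat_lit 1) (.cons (.rel (nat_lit 21234720)) .nil)) .nil)) (.node (.node .leaf (nat_lit 13310737037988742) (.br (nat_lit 0) (.cons (.br (nat_lit 1) (.cons (.rel (nat_lit 37756929)) .nil)) .nil)) .leaf) (nat_lit 13312580906985523) (.br (nat_lit 0) (.cons (.br (nat_lit 1) (.cons (.rel (nat_lit 20972805)) .nil)) .nil))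 (.node .leaf (nat_lit 13312580907499009) (.br (nat_lit 0) (.cons (.br (nat_lit 1) (.cons (.rel (nat_lit 23134212)) .nil)) .nil)) .leaf))))))

/-- refutations 60 -/
def e60 : EX := (.node (.node (.node .leaf (nat_lit 13387653837212549) (.br (nat_lit 0) (.cons (.br (nat_lit 1) (.cons (.rel (nat_lit 37765248)) .nil)) .nil)) .leaf) (nat_lit 13394156418812660) (.br (nat_lit 0) (.cons (.br (nat_lit 4) (.cons (.rel (nat_lit 1077937173)) .nil)) .nil)) .leaf) (nat_lit 13394156419224482) (.br (nat_lit 3) (.cons (.br (nat_lit 5) (.cons (.rel (nat_lit 4563407904)) .nil)) .nil)) (.node .leaf (nat_lit 13400850970559751) (.br (nat_lit 0) (.cons (.br (nat_lit 1) (.cons (.rel (nat_lit 23134212)) .nil)) .nil)) .leaf))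

/-- refutations 61 -/
def e61 : EX := (.node .leaf (nat_lit 13640484316589282) (.br (nat_lit 0) (.cons (.br (nat_lit 1) (.cons (.rel (nat_lit 20988225)) .nil)) .nil)) .leaf)

/-- refutations 62 -/
def e62 : EX := (.node (.node (.node (.node (.node (.node .leaf (nat_lit 13721948198611881) (.br (nat_lit 1) (.cons (.br (nat_lit 6) (.cons (.rel (nat_lit 17196680193)) .nil)) .nil)) .leaf) (nat_lit 13721948198612231) (.br (nat_lit 0) (.cons (.br (nat_lit 1) (.cons (.rel (nat_lit 25296912)) .nil)) .nil)) .leaf) (nat_lit 13721948200392959) (.br (nat_lit 0) (.cons (.br (nat_lit 3) (.cons (.rel (nat_lit 272634882)) .nil)) .nil)) (.node (.node .leaf (nat_lit 13721951235287175) (.br (nat_lit 0) (.cons (.br (nat_lit 1) (.cons (.rel (nat_lit 20988225)) .nil)) .nil)) .leaf) (nat_lit 13721951235287977) (.br (nat_lit 0) (.cons (.br (nat_lit 4) (.cons (.rel (nat_lit 1077940293)) .nil)) .nil)) .leaf)) (nat_lit 13721951235288295) (.br (nat_lit 4) (.cons (.br (nat_lit 6) (.cons (.rel (nat_lit 36507226368)) .nil))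 .nil)) (.node (.node (.node .leaf (nat_lit 13721951236770729) (.br (nat_lit 0) (.cons (.br (nat_lit 1) (.cons (.rel (nat_lit 20971800)) .nil)) .nil)) .leaf) (nat_lit 13721951237069055) (.br (nat_lit 0) (.cons (.br (nat_lit 1) (.cons (.rel (nat_lit 20971800)) .nil)) .nil)) .leaf) (nat_lit 13721953355897614) (.br (nat_lit 0) (.cons (.br (nat_lit 1) (.cons (.rel (nat_lit 37765248)) .nil)) .nil)) (.node .leaf (nat_lit 13721953355898243) (.br (nat_lit 0) (.cons (.br (nat_lit 1) (.cons (.rel (nat_lit 37765248)) .nil)) .nil)) .leaf))) (nat_lit 13721953947623679) (.br (nat_lit 0) (.cons (.br (nat_lit 1) (.cons (.rel (nat_lit 20990292)) .nil)) .nil)) (.node (.node (.node (.node .leaf (nat_lit 13721954362806527) (.br (nat_lit 1) (.cons (.br (nat_lit 3) (.cons (.rel (nat_lit 285214788)) .nil)) .nil)) .leaf) (nat_lit 13721954406181000) (.br (nat_lit 0) (.cons (.br (nat_lit 3) (.cons (.rel (nat_lit 272703492)) .nil)) .nil)) .leaf) (nat_lit 13721954406182119) (.br (nat_lit 0) (.cons (.br (nat_lit 1) (.cons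 (.rel (nat_lit 37756929)) .nil)) .nil)) (.node (.node .leaf (nat_lit 13721954406182164) (.br (nat_lit 0) (.cons (.br (nat_lit 1) (.cons (.rel (nat_lit 20972805)) .nil)) .nil)) .leaf) (nat_lit 13721954586535991) (.br (nat_lit 0) (.cons (.br (nat_lit 6) (.cons (.rel (nat_lit 17184064641)) .nil)) .nil)) .leaf)) (nat_lit 13721954586536873) (.br (nat_lit 5) (.cons (.br (nat_lit 0) (.cons (.rel (nat_lit 4299162945)) (.cons (.rel (nat_lit 4299171108)) .nil))) .nil)) (.node (.node (.node .leaf (nat_lit 13721954586537191) (.br (nat_lit 4) (.cons (.br (nat_lit 5) (.cons (.rel (nat_lit 5368710150)) (.cons (.rel (nat_lit 5368710150)) .nil))) (.cons (.br (nat_lit 6) (.cons (.rel (nat_lit 36507226368)) (.cons (.rel (nat_lit 18254663760)) .nil))) .nil))) .leaf) (nat_lit 13721954586537196) (.br (nat_lit 5) (.cons (.br (nat_lit 0) (.cons (.rel (nat_lit 4299162945)) (.cons (.rel (nat_lit 4299229440)) .nil))) .nil)) .leaf) (nat_lit 13721954586537222) (.br (nat_lit 6) (.cons (.br (nat_lit 0) (.cons (.rel (nat_lit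 17184063636)) (.cons (.rel (nat_lit 17184063636)) (.cons (.rel (nat_lit 17184063636)) .nil)))) .nil)) (.node .leaf (nat_lit 13721954586537347) (.br (nat_lit 0) (.cons (.br (nat_lit 2) (.cons (.rel (nat_lit 71305233)) (.cons (.rel (nat_lit 71307348)) .nil))) .nil)) .leaf)))) (nat_lit 13721954587084935) (.br (nat_lit 2) (.cons (.br (nat_lit 4) (.cons (.rel (nat_lit 1141932036)) .nil)) .nil)) (.node (.node (.node (.node (.node .leaf (nat_lit 13721954588019625) (.br (nat_lit 0) (.cons (.br (nat_lit 6) (.cons (.rel (nat_lit 17184064641)) .nil)) .nil)) .leaf) (nat_lit 13721954588103567) (.br (nat_lit 1) (.cons (.br (nat_lit 2) (.cons (.rel (nat_lit 83903490)) .nil)) .nil)) .leaf) (nat_lit 13721954588113831) (.br (nat_lit 0) (.cons (.br (nat_lit 4) (.cons (.rel (nat_lit 1077937173)) .nil)) .nil)) (.node (.node .leaf (nat_lit 13721954588308238) (.br (nat_lit 0) (.cons (.br (nat_lit 2) (.cons (.rel (nat_lit 71303178)) .nil)) .nil)) .leaf) (nat_lit 13721954588308742) (.br (nat_lit 3) (.cons (.br (nat_lit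 4) (.cons (.rel (nat_lit 1343227905)) .nil)) .nil)) .leaf)) (nat_lit 13721954588308743) (.br (nat_lit 6) (.cons (.br (nat_lit 0) (.cons (.rel (nat_lit 17184071754)) (.cons (.rel (nat_lit 17184068634)) .nil))) .nil)) (.node (.node (.node .leaf (nat_lit 13721954589342002) (.br (nat_lit 2) (.cons (.br (nat_lit 1) (.cons (.rel (nat_lit 83892240)) (.cons (.rel (nat_lit 83895360)) .nil))) .nil)) .leaf) (nat_lit 13721954589342477) (.br (nat_lit 0) (.cons (.br (nat_lit 3) (.cons (.rel (nat_lit 272663616)) .nil)) .nil)) .leaf) (nat_lit 13721954589342478) (.br (nat_lit 0) (.cons (.br (nat_lit 2) (.cons (.rel (nat_lit 71303178)) .nil)) .nil)) (.node .leaf (nat_lit 13721954589342607) (.br (nat_lit 4) (.cons (.br (nat_lit 0) (.cons (.rel (nat_lit 2155872276)) (.cons (.rel (nat_lit 2155872276)) .nil))) .nil)) .leaf))) (nat_lit 13721954589342633) (.br (nat_lit 3) (.cons (.br (nat_lit 4) (.cons (.rel (nat_lit 1610760192)) (.cons (.rel (nat_lit 1343227905)) (.cons (.rel (nat_lit 1343227905)) .nil)))) .nil))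 (.node (.node (.node (.node .leaf (nat_lit 13721954589342951) (.br (nat_lit 1) (.cons (.br (nat_lit 2) (.cons (.rel (nat_lit 83902485)) .nil)) .nil)) .leaf) (nat_lit 13721954589342983) (.br (nat_lit 0) (.cons (.br (nat_lit 6) (.cons (.rel (nat_lit 17184063636)) (.cons (.rel (nat_lit 17184068634)) (.cons (.rel (nat_lit 17189307396)) .nil)))) .nil)) .leaf) (nat_lit 13721954589536406) (.br (nat_lit 0) (.cons (.br (nat_lit 1) (.cons (.rel (nat_lit 21315585)) .nil)) .nil)) (.node .leaf (nat_lit 13721968415157161) (.br (nat_lit 0) (.cons (.br (nat_lit 3) (.cons (.rel (nat_lit 272629896)) .nil)) .nil)) .leaf)) (nat_lit 13722229284088085) (.br (nat_lit 1) (.cons (.br (nat_lit 6) (.cons (.rel (nat_lit 17196654624)) .nil)) .nil)) (.node (.node (.node .leaf (nat_lit 13722349723528423) (.br (nat_lit 2) (.cons (.br (nat_lit 4) (.cons (.rel (nat_lit 2282029056)) .nil)) .nil)) .leaf) (nat_lit 13722386285276073) (.br (nat_lit 0) (.cons (.br (nat_lit 1) (.cons (.rel (nat_lit 20971800)) .nil)) .nil)) .leaf)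 (nat_lit 13722386285276396) (.br (nat_lit 0) (.cons (.br (nat_lit 2) (.cons (.rel (nat_lit 71304228)) .nil)) .nil)) (.node .leaf (nat_lit 13722386285829356) (.br (nat_lit 0) (.cons (.br (nat_lit 1) (.cons (.rel (nat_lit 25183236)) .nil)) .nil)) .leaf)))))

/-- refutations 63 -/
def e63 : EX := (.node (.node (.node (.node (.node .leaf (nat_lit 13727296295213967) (.br (nat_lit 0) (.cons (.br (nat_lit 2) (.cons (.rel (nat_lit 71308353)) .nil)) .nil)) .leaf) (nat_lit 13727297528658831) (.br (nat_lit 0) (.cons (.br (nat_lit 3) (.cons (.rel (nat_lit 545259588)) .nil)) .nil)) .leaf) (nat_lit 13727498216392979) (.br (nat_lit 0) (.cons (.br (nat_lit 1) (.cons (.rel (nat_lit 20971800)) .nil)) .nil)) (.node .leaf (nat_lit 13727498216393641) (.br (nat_lit 0) (.cons (.br (nat_lit 3) (.cons (.rel (nat_lit 272633877)) .nil)) .nil)) .leaf)) (nat_lit 13727498216393991) (.br (nat_lit 0) (.cons (.br (nat_lit 5) (.cons (.rel (nat_lit 4303355937)) .nil)) .nil)) (.node (.node (.node .leaf (nat_lit 13728837326154665)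 (.br (nat_lit 0) (.cons (.br (nat_lit 1) (.cons (.rel (nat_lit 20971800)) .nil)) .nil)) .leaf) (nat_lit 13728837326154978) (.br (nat_lit 0) (.cons (.br (nat_lit 1) (.cons (.rel (nat_lit 21234720)) .nil)) .nil)) .leaf) (nat_lit 13728837329274087) (.br (nat_lit 0) (.cons (.br (nat_lit 1) (.cons (.rel (nat_lit 20988225)) .nil)) .nil)) (.node .leaf (nat_lit 13728840364313487) (.br (nat_lit 0) (.cons (.br (nat_lit 1) (.cons (.rel (nat_lit 21234720)) .nil)) .nil)) .leaf))) (nat_lit 13728843714079980) (.br (nat_lit 0) (.cons (.br (nat_lit 4) (.cons (.rel (nat_lit 1077973008)) .nil)) .nil)) (.node (.node (.node (.node .leaf (nat_lit 13735056438799596) (.br (nat_lit 0) (.cons (.br (nat_lit 3) (.cons (.rel (nat_lit 272629896)) .nil)) .nil)) .leaf) (nat_lit 13735056441918377) (.br (nat_lit 0) (.cons (.br (nat_lit 1) (.cons (.rel (nat_lit 21008640)) .nil)) .nil)) .leaf) (nat_lit 13735059475474567) (.br (nat_lit 0) (.cons (.br (nat_lit 4) (.cons (.rel (nat_lit 1077936168)) .nil)) .nil)) (.node .leaf (nat_lit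 13735059475475369) (.br (nat_lit 0) (.cons (.br (nat_lit 3) (.cons (.rel (nat_lit 272629896)) .nil)) .nil)) .leaf)) (nat_lit 13735059475475692) (.br (nat_lit 0) (.cons (.br (nat_lit 1) (.cons (.rel (nat_lit 22560768)) .nil)) .nil)) (.node (.node (.node .leaf (nat_lit 13735059475475718) (.br (nat_lit 2) (.cons (.br (nat_lit 4) (.cons (.rel (nat_lit 1142949120)) .nil)) .nil)) .leaf) (nat_lit 13735059476958095) (.br (nat_lit 0) (.cons (.br (nat_lit 1) (.cons (.rel (nat_lit 21234720)) (.cons (.rel (nat_lit 25296912)) .nil))) .nil)) .leaf) (nat_lit 13735062826724583) (.br (nat_lit 0) (.cons (.br (nat_lit 1) (.cons (.rel (nat_lit 20988225)) .nil)) .nil)) (.node .leaf (nat_lit 13735062826724588) (.br (nat_lit 0) (.cons (.br (nat_lit 3) (.cons (.rel (nat_lit 272663616)) .nil)) .nil)) .leaf))))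

/-- refutations 65 -/
def e65 : EX := (.node (.node (.node (.node (.node .leaf (nat_lit 13651542874814591) (.br (nat_lit 1) (.cons (.br (nat_lit 4) (.cons (.rel (nat_lit 1090519185)) .nil)) .nil)) .leaf) (nat_lit 13651640023200370) (.br (nat_lit 0) (.cons (.br (nat_lit 4) (.cons (.rel (nat_lit 1077936168)) .nil)) .nil)) (.node .leaf (nat_lit 13651642101786113) (.br (nat_lit 0) (.cons (.br (nat_lit 5) (.cons (.rel (nat_lit 4300735488)) .nil)) .nil)) .leaf)) (nat_lit 13651643250092294) (.br (nat_lit 1) (.cons (.br (nat_lit 2) (.cons (.rel (nat_lit 83892240)) .nil)) .nil)) (.node (.node .leaf (nat_lit 13651645477229319) (.br (nat_lit 0) (.cons (.br (nat_lit 1) (.cons (.rel (nat_lit 25169922)) .nil)) .nil)) .leaf) (nat_lit 13651645479764868) (.br (nat_lit 0) (.cons (.br (nat_lit 1) (.cons (.rel (nat_lit 25169922)) .nil)) .nil)) .leaf)) (nat_lit 13651645480020118) (.br (nat_lit 2) (.cons (.br (nat_lit 0) (.cons (.rel (nat_lit 71305233)) (.cons (.rel (nat_lit 71305233)) (.cons (.rel (nat_lit 71368848))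 .nil)))) .nil)) (.node (.node (.node .leaf (nat_lit 13651646001249543) (.br (nat_lit 2) (.cons (.br (nat_lit 4) (.cons (.rel (nat_lit 2214593544)) .nil)) .nil)) .leaf) (nat_lit 13651646001261175) (.br (nat_lit 0) (.cons (.br (nat_lit 1) (.cons (.rel (nat_lit 21234720)) .nil)) .nil)) (.node .leaf (nat_lit 13651646001261831) (.br (nat_lit 0) (.cons (.br (nat_lit 2) (.cons (.rel (nat_lit 71304228)) .nil)) .nil)) .leaf)) (nat_lit 13651646002487423) (.br (nat_lit 3) (.cons (.br (nat_lit 5) (.cons (.rel (nat_lit 4563420168)) .nil)) .nil)) (.node (.node .leaf (nat_lit 13651646002487451) (.br (nat_lit 0) (.cons (.br (nat_lit 2) (.cons (.rel (nat_lit 71307348)) .nil)) .nil)) .leaf) (nat_lit 13651646002785156) (.br (nat_lit 2) (.cons (.br (nat_lit 3) (.cons (.rel (nat_lit 603979842)) .nil)) .nil)) .leaf))) (nat_lit 13651646002796671) (.br (nat_lit 0) (.cons (.br (nat_lit 3) (.cons (.rel (nat_lit 272634882)) .nil)) .nil)) (.node (.node (.node (.node .leaf (nat_lit 13651646002797444) (.br (nat_lit 0)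 (.cons (.br (nat_lit 5) (.cons (.rel (nat_lit 4299490305)) .nil)) .nil)) .leaf) (nat_lit 13651646002823295) (.br (nat_lit 1) (.cons (.br (nat_lit 0) (.cons (.rel (nat_lit 25198656)) (.cons (.rel (nat_lit 23134212)) .nil))) .nil)) (.node .leaf (nat_lit 13651646004052868) (.br (nat_lit 0) (.cons (.br (nat_lit 1) (.cons (.rel (nat_lit 25296912)) (.cons (.rel (nat_lit 21234720)) .nil))) (.cons (.br (nat_lit 1) (.cons (.rel (nat_lit 25169922)) (.cons (.rel (nat_lit 20988225)) .nil))) .nil))) .leaf)) (nat_lit 13651646004053505) (.br (nat_lit 1) (.cons (.br (nat_lit 3) (.cons (.rel (nat_lit 285220884)) .nil)) .nil)) (.node (.node .leaf (nat_lit 13651646004076671) (.br (nat_lit 0) (.cons (.br (nat_lit 4) (.cons (.rel (nat_lit 1077938178)) .nil)) .nil)) .leaf) (nat_lit 13651646004361343) (.br (nat_lit 0) (.cons (.br (nat_lit 5) (.cons (.rel (nat_lit 4299162945)) .nil)) .nil)) .leaf)) (nat_lit 13651646004369558) (.br (nat_lit 0) (.cons (.br (nat_lit 1) (.cons (.rel (nat_lit 22020741)) .nil)) .nil))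 (.node (.node (.node .leaf (nat_lit 13651646004379775) (.br (nat_lit 0) (.cons (.br (nat_lit 4) (.cons (.rel (nat_lit 1077938178)) .nil)) .nil)) .leaf) (nat_lit 13652916046127231) (.br (nat_lit 0) (.cons (.br (nat_lit 2) (.cons (.rel (nat_lit 71303178)) .nil)) .nil)) (.node .leaf (nat_lit 13658036681911559) (.br (nat_lit 0) (.cons (.br (nat_lit 1) (.cons (.rel (nat_lit 20972805)) .nil)) .nil)) .leaf)) (nat_lit 13663457164117255) (.br (nat_lit 0) (.cons (.br (nat_lit 3) (.cons (.rel (nat_lit 272761872)) .nil)) .nil)) (.node (.node .leaf (nat_lit 13664725110913930) (.br (nat_lit 4) (.cons (.br (nat_lit 6) (.cons (.rel (nat_lit 36507226368)) .nil)) .nil)) .leaf) (nat_lit 13664725110914311) (.br (nat_lit 1) (.cons (.br (nat_lit 2) (.cons (.rel (nat_lit 83890185)) .nil)) .nil)) .leaf))))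

/-- refutations 66 -/
def e66 : EX := (.node (.node (.node (.node (.node .leaf (nat_lit 14249988535140614) (.br (nat_lit 0) (.cons (.br (nat_lit 1) (.cons (.rel (nat_lit 21054720)) .nil)) .nil)) .leaf) (nat_lit 14249988535141259) (.br (nat_lit 0) (.cons (.br (nat_lit 4) (.cons (.rel (nat_lit 2155872276)) (.cons (.rel (nat_lit 1077936168)) .nil))) .nil)) .leaf) (nat_lit 14250100725716231) (.br (nat_lit 1) (.cons (.br (nat_lit 2) (.cons (.rel (nat_lit 83890185)) .nil)) .nil)) (.node (.node .leaf (nat_lit 14250100727999751) (.br (nat_lit 2) (.cons (.br (nat_lit 4) (.cons (.rel (nat_lit 1141932036)) .nil)) .nil)) .leaf) (nat_lit 14250101247036328) (.br (nat_lit 2) (.cons (.br (nat_lit 6) (.cons (.rel (nat_lit 34426848336)) .nil)) .nil)) .leaf)) (nat_lit 14250101477764609) (.br (nat_lit 0) (.cons (.br (nat_lit 3) (.cons (.rel (nat_lit 272761872)) .nil)) .nil)) (.node (.node (.node .leaf (nat_lit 14250103029694764) (.br (nat_lit 1) (.cons (.br (nat_lit 2) (.cons (.rel (nat_lit 85196868)) .nil))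 .nil)) .leaf) (nat_lit 14250106514112001) (.br (nat_lit 0) (.cons (.br (nat_lit 1) (.cons (.rel (nat_lit 21234720)) .nil)) .nil)) .leaf) (nat_lit 14250106589096071) (.br (nat_lit 1) (.cons (.br (nat_lit 6) (.cons (.rel (nat_lit 17196712968)) .nil)) .nil)) (.node .leaf (nat_lit 14250106589096747) (.br (nat_lit 1) (.cons (.br (nat_lit 2) (.cons (.rel (nat_lit 83886240)) (.cons (.rel (nat_lit 83895360)) .nil))) (.cons (.br (nat_lit 2) (.cons (.rel (nat_lit 83886240)) (.cons (.rel (nat_lit 83886240)) .nil))) .nil))) .leaf))) (nat_lit 14250106589096748) (.br (nat_lit 0) (.cons (.br (nat_lit 1) (.cons (.rel (nat_lit 20972805)) (.cons (.rel (nat_lit 38797572)) .nil))) .nil)) (.node (.node (.node (.node .leaf (nat_lit 14250106589097192) (.br (nat_lit 2) (.cons (.br (nat_lit 4) (.cons (.rel (nat_lit 2281701696)) .nil)) .nil)) .leaf) (nat_lit 14250106589097471) (.br (nat_lit 2) (.cons (.br (nat_lit 1) (.cons (.rel (nat_lit 83895360)) (.cons (.rel (nat_lit 83895360)) .nil))) .nil)) .leaf) (nat_lit 14250106589537543)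 (.br (nat_lit 1) (.cons (.br (nat_lit 3) (.cons (.rel (nat_lit 285220884)) .nil)) .nil)) (.node (.node .leaf (nat_lit 14250106590323975) (.br (nat_lit 1) (.cons (.br (nat_lit 2) (.cons (.rel (nat_lit 101728257)) .nil)) .nil)) .leaf) (nat_lit 14250115183225644) (.br (nat_lit 0) (.cons (.br (nat_lit 5) (.cons (.rel (nat_lit 4299489300)) .nil)) .nil)) .leaf)) (nat_lit 14250115183226117) (.br (nat_lit 0) (.cons (.br (nat_lit 4) (.cons (.rel (nat_lit 1077973008)) .nil)) .nil)) (.node (.node (.node .leaf (nat_lit 14256179826857223) (.br (nat_lit 0) (.cons (.br (nat_lit 1) (.cons (.rel (nat_lit 20972805)) .nil)) .nil)) .leaf) (nat_lit 14262865070467953) (.br (nat_lit 0) (.cons (.br (nat_lit 2) (.cons (.rel (nat_lit 71305233)) .nil)) .nil)) .leaf) (nat_lit 14262868087708935) (.br (nat_lit 0) (.cons (.br (nat_lit 1) (.cons (.rel (nat_lit 21234720)) .nil)) .nil)) (.node .leaf (nat_lit 14262868199419141) (.br (nat_lit 1) (.cons (.br (nat_lit 4) (.cons (.rel (nat_lit 1090588800)) .nil)) .nil)) .leaf))))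

/-- refutations 67 -/
def e67 : EX := (.node (.node (.node (.node (.node .leaf (nat_lit 14284904418323689) (.br (nat_lit 3) (.cons (.br (nat_lit 6) (.cons (.rel (nat_lit 34628173860)) .nil)) .nil)) .leaf) (nat_lit 14285179296230258) (.br (nat_lit 0) (.cons (.br (nat_lit 4) (.cons (.rel (nat_lit 1077952593)) (.cons (.rel (nat_lit 1077940293)) .nil))) .nil)) (.node .leaf (nat_lit 14285287752984029) (.br (nat_lit 0) (.cons (.br (nat_lit 1) (.cons (.rel (nat_lit 20972805)) .nil)) .nil)) .leaf)) (nat_lit 14285293890601086) (.br (nat_lit 1) (.cons (.br (nat_lit 2) (.cons (.rel (nat_lit 83895360)) .nil)) .nil)) (.node (.node .leaf (nat_lit 14285293930752882) (.br (nat_lit 6) (.cons (.br (nat_lit 0) (.cons (.rel (nat_lit 17184063636)) (.cons (.rel (nat_lit 17184161796)) .nil))) .nil)) .leaf) (nat_lit 14285293932524270) (.br (nat_lit 0) (.cons (.br (nat_lit 2) (.cons (.rel (nat_lit 142606341)) .nil)) .nil)) (.node .leaf (nat_lit 14285299555313801) (.br (nat_lit 1) (.cons (.br (nat_lit 6) (.cons (.rel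 (nat_lit 17214504960)) .nil)) .nil)) .leaf))) (nat_lit 14285299555313841) (.br (nat_lit 0) (.cons (.br (nat_lit 5) (.cons (.rel (nat_lit 4300210689)) .nil)) .nil)) (.node (.node (.node .leaf (nat_lit 14285299555313925) (.br (nat_lit 0) (.cons (.br (nat_lit 3) (.cons (.rel (nat_lit 272648196)) .nil)) .nil)) .leaf) (nat_lit 14285299555313975) (.br (nat_lit 0) (.cons (.br (nat_lit 3) (.cons (.rel (nat_lit 272629896)) .nil)) .nil)) (.node .leaf (nat_lit 14285299555314414) (.br (nat_lit 0) (.cons (.br (nat_lit 5) (.cons (.rel (nat_lit 4301275152)) (.cons (.rel (nat_lit 4299162945)) .nil))) .nil)) .leaf)) (nat_lit 14285299555314921) (.br (nat_lit 0) (.cons (.br (nat_lit 3) (.cons (.rel (nat_lit 272761872)) (.cons (.rel (nat_lit 272648196)) (.cons (.rel (nat_lit 543162369)) .nil)))) .nil)) (.node (.node .leaf (nat_lit 14285299555314949) (.br (nat_lit 0) (.cons (.br (nat_lit 5) (.cons (.rel (nat_lit 4303357956)) .nil)) .nil)) .leaf) (nat_lit 14285299555314951) (.br (nat_lit 0) (.cons (.br (nat_lit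 3) (.cons (.rel (nat_lit 277872642)) (.cons (.rel (nat_lit 545259588)) (.cons (.rel (nat_lit 272633877)) .nil)))) .nil)) .leaf))) (nat_lit 14285299555314965) (.br (nat_lit 0) (.cons (.br (nat_lit 2) (.cons (.rel (nat_lit 71303178)) .nil)) .nil)) (.node (.node (.node (.node .leaf (nat_lit 14285299555519346) (.br (nat_lit 0) (.cons (.br (nat_lit 1) (.cons (.rel (nat_lit 20971800)) .nil)) .nil)) .leaf) (nat_lit 14285299555611504) (.br (nat_lit 0) (.cons (.br (nat_lit 1) (.cons (.rel (nat_lit 21233670)) .nil)) .nil)) (.node .leaf (nat_lit 14285299555754796) (.br (nat_lit 3) (.cons (.br (nat_lit 0) (.cons (.rel (nat_lit 272629896)) (.cons (.rel (nat_lit 272648196)) .nil))) .nil)) .leaf)) (nat_lit 14285299556630678) (.br (nat_lit 1) (.cons (.br (nat_lit 2) (.cons (.rel (nat_lit 83886240)) (.cons (.rel (nat_lit 83890185)) .nil))) .nil)) (.node (.node .leaf (nat_lit 14285299556631214) (.br (nat_lit 3) (.cons (.br (nat_lit 6) (.cons (.rel (nat_lit 17716741125)) .nil)) .nil)) .leaf) (nat_lit 14285299556877170)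 (.br (nat_lit 0) (.cons (.br (nat_lit 3) (.cons (.rel (nat_lit 272648196)) .nil)) .nil)) (.node .leaf (nat_lit 14285299556881266) (.br (nat_lit 3) (.cons (.br (nat_lit 4) (.cons (.rel (nat_lit 1342702656)) .nil)) .nil)) .leaf))) (nat_lit 14285299556887464) (.br (nat_lit 0) (.cons (.br (nat_lit 3) (.cons (.rel (nat_lit 272761872)) .nil)) .nil)) (.node (.node (.node .leaf (nat_lit 14285299557105796) (.br (nat_lit 0) (.cons (.br (nat_lit 2) (.cons (.rel (nat_lit 71305233)) .nil)) .nil)) .leaf) (nat_lit 14285299557801318) (.br (nat_lit 0) (.cons (.br (nat_lit 1) (.cons (.rel (nat_lit 20972805)) .nil)) .nil)) (.node .leaf (nat_lit 14285299676949781) (.br (nat_lit 1) (.cons (.br (nat_lit 2) (.cons (.rel (nat_lit 167772240)) .nil)) .nil)) .leaf)) (nat_lit 14285299702115561) (.br (nat_lit 0) (.cons (.br (nat_lit 1) (.cons (.rel (nat_lit 25296912)) (.cons (.rel (nat_lit 21237840)) .nil))) .nil)) (.node (.node .leaf (nat_lit 14285995340016498) (.br (nat_lit 0) (.cons (.br (nat_lit 3) (.cons (.rel (nat_lit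 545259588)) .nil)) .nil)) .leaf) (nat_lit 14285995340016998) (.br (nat_lit 0) (.cons (.br (nat_lit 4) (.cons (.rel (nat_lit 1077973008)) .nil)) .nil)) .leaf))))

/-- refutations 68 -/
def e68 : EX := (.node (.node (.node (.node .leaf (nat_lit 14286404926590184) (.br (nat_lit 1) (.cons (.br (nat_lit 2) (.cons (.rel (nat_lit 83886240)) .nil)) .nil)) .leaf) (nat_lit 14290461057428142) (.br (nat_lit 3) (.cons (.br (nat_lit 4) (.cons (.rel (nat_lit 1343291520)) .nil)) .nil)) (.node .leaf (nat_lit 14290461057428213) (.br (nat_lit 3) (.cons (.br (nat_lit 4) (.cons (.rel (nat_lit 1343227905)) .nil)) .nil)) .leaf)) (nat_lit 14290461057428338) (.br (nat_lit 3) (.cons (.br (nat_lit 4) (.cons (.rel (nat_lit 1343230020)) .nil)) .nil)) (.node (.node .leaf (nat_lit 14290461057428838) (.br (nat_lit 5) (.cons (.br (nat_lit 6) (.cons (.rel (nat_lit 21475950852)) .nil)) .nil)) .leaf) (nat_lit 14290461057940963) (.br (nat_lit 1) (.cons (.br (nat_lit 6) (.cons (.rel (nat_lit 34393296912)) .nil)) .nil)) .leaf))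 (nat_lit 14290701707391236) (.br (nat_lit 1) (.cons (.br (nat_lit 4) (.cons (.rel (nat_lit 1090519185)) .nil)) .nil)) (.node (.node (.node .leaf (nat_lit 14291392120490866) (.br (nat_lit 0) (.cons (.br (nat_lit 3) (.cons (.rel (nat_lit 272629896)) .nil)) .nil)) .leaf) (nat_lit 14291735717874546) (.br (nat_lit 3) (.cons (.br (nat_lit 4) (.cons (.rel (nat_lit 2684747796)) .nil)) .nil)) .leaf) (nat_lit 14291735717874921) (.br (nat_lit 2) (.cons (.br (nat_lit 4) (.cons (.rel (nat_lit 2214592530)) (.cons (.rel (nat_lit 1141129488)) .nil))) .nil)) (.node (.node .leaf (nat_lit 14291738793862002) (.br (nat_lit 0) (.cons (.br (nat_lit 1) (.cons (.rel (nat_lit 25183236)) .nil)) .nil)) .leaf) (nat_lit 14291738794894194) (.br (nat_lit 0) (.cons (.br (nat_lit 2) (.cons (.rel (nat_lit 71303178)) .nil)) .nil)) .leaf)))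

/-- refutations 69 -/
def e69 : EX := (.node (.node .leaf (nat_lit 14297746370538354) (.br (nat_lit 1) (.cons (.br (nat_lit 2) (.cons (.rel (nat_lit 83886240)) .nil)) .nil)) .leaf) (nat_lit 14297746370538759) (.br (nat_lit 1) (.cons (.br (nat_lit 2) (.cons (.rel (nat_lit 83886240)) .nil)) .nil)) (.node .leaf (nat_lit 14298052571507975) (.br (nat_lit 1) (.cons (.br (nat_lit 3) (.cons (.rel (nat_lit 285212769)) (.cons (.rel (nat_lit 285279264)) .nil))) .nil)) .leaf))

/-- refutations 70 -/
def e70 : EX := (.node (.node (.node (.node .leaf (nat_lit 14267578516057319) (.br (nat_lit 0) (.cons (.br (nat_lit 1) (.cons (.rel (nat_lit 21234720)) .nil)) .nil)) .leaf) (nat_lit 14267710213007542) (.br (nat_lit 0) (.cons (.br (nat_lit 1) (.cons (.rel (nat_lit 25169922)) .nil)) .nil)) .leaf) (nat_lit 14267715879512115) (.br (nat_lit 0) (.cons (.br (nat_lit 6) (.cons (.rel (nat_lit 17184069636)) .nil)) .nil)) (.node .leaf (nat_lit 14267715879513351) (.br (nat_lit 0) (.cons (.br (nat_lit 2) (.cons (.rel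 (nat_lit 71303178)) .nil)) .nil)) .leaf)) (nat_lit 14268812740341212) (.br (nat_lit 0) (.cons (.br (nat_lit 4) (.cons (.rel (nat_lit 2155872276)) .nil)) .nil)) (.node (.node (.node .leaf (nat_lit 14269431215918611) (.br (nat_lit 0) (.cons (.br (nat_lit 1) (.cons (.rel (nat_lit 37756929)) .nil)) .nil)) .leaf) (nat_lit 14273768818027377) (.br (nat_lit 1) (.cons (.br (nat_lit 6) (.cons (.rel (nat_lit 17196651648)) .nil)) .nil)) .leaf) (nat_lit 14278527642303120) (.br (nat_lit 0) (.cons (.br (nat_lit 1) (.cons (.rel (nat_lit 21234720)) .nil)) .nil)) (.node .leaf (nat_lit 14280451787139099) (.br (nat_lit 0) (.cons (.br (nat_lit 2) (.cons (.rel (nat_lit 142606341)) .nil)) .nil)) .leaf)))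

/-- refutations 71 -/
def e71 : EX := (.node (.node (.node (.node .leaf (nat_lit 15498773971354887) (.br (nat_lit 1) (.cons (.br (nat_lit 5) (.cons (.rel (nat_lit 4328555520)) .nil)) .nil)) .leaf) (nat_lit 15501141454873863) (.br (nat_lit 0) (.cons (.br (nat_lit 3) (.cons (.rel (nat_lit 272648196)) .nil)) .nil)) (.node .leaf (nat_lit 15501141454873953) (.br (nat_lit 0) (.cons (.br (nat_lit 3) (.cons (.br (nat_lit 4) (.cons (.rel (nat_lit 1610678277)) (.cons (.rel (nat_lit 1077938178)) .nil))) (.cons (.rel (nat_lit 272648196)) .nil))) .nil)) .leaf)) (nat_lit 15501141456213345) (.br (nat_lit 1) (.cons (.br (nat_lit 3) (.cons (.rel (nat_lit 285221889)) .nil)) .nil)) (.node (.node .leaf (nat_lit 15501141457195263) (.br (nat_lit 0) (.cons (.br (nat_lit 1) (.cons (.rel (nat_lit 37749828)) .nil)) .nil)) .leaf) (nat_lit 15501141457196385) (.br (nat_lit 0) (.cons (.br (nat_lit 1) (.cons (.rel (nat_lit 37814304)) .nil)) .nil)) (.node .leaf (nat_lit 15501141457479856) (.br (nat_lit 0) (.cons (.br (nat_lit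 1) (.cons (.rel (nat_lit 25296912)) .nil)) .nil)) .leaf))) (nat_lit 15501141457532988) (.br (nat_lit 0) (.cons (.br (nat_lit 1) (.cons (.rel (nat_lit 37814304)) .nil)) .nil)) (.node (.node (.node .leaf (nat_lit 15501144150295440) (.br (nat_lit 3) (.cons (.br (nat_lit 5) (.cons (.rel (nat_lit 9126806592)) .nil)) .nil)) .leaf) (nat_lit 15501144294417761) (.br (nat_lit 0) (.cons (.br (nat_lit 1) (.cons (.rel (nat_lit 21233670)) .nil)) .nil)) (.node .leaf (nat_lit 15501144297023769) (.br (nat_lit 1) (.cons (.br (nat_lit 4) (.cons (.rel (nat_lit 1090525185)) .nil)) .nil)) .leaf)) (nat_lit 15501144565174422) (.br (nat_lit 1) (.cons (.br (nat_lit 3) (.cons (.rel (nat_lit 570441732)) .nil)) .nil)) (.node (.node .leaf (nat_lit 15501144565174908) (.br (nat_lit 1) (.cons (.br (nat_lit 2) (.cons (.rel (nat_lit 83903490)) .nil)) .nil)) .leaf) (nat_lit 15509754206295303) (.br (nat_lit 0) (.cons (.br (nat_lit 1) (.cons (.rel (nat_lit 21008640)) .nil)) .nil)) (.node .leaf (nat_lit 15509754207615231) (.br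 (nat_lit 0) (.cons (.br (nat_lit 3) (.cons (.rel (nat_lit 273711360)) .nil)) .nil)) .leaf))))

/-- refutations 72 -/
def e72 : EX := (.node (.node (.node .leaf (nat_lit 15870600476174472) (.br (nat_lit 0) (.cons (.br (nat_lit 2) (.cons (.rel (nat_lit 71307348)) .nil)) .nil)) .leaf) (nat_lit 15875729310431259) (.br (nat_lit 1) (.cons (.br (nat_lit 2) (.cons (.rel (nat_lit 83886240)) .nil)) .nil)) .leaf) (nat_lit 15875730868014563) (.br (nat_lit 0) (.cons (.br (nat_lit 3) (.cons (.rel (nat_lit 545259588)) .nil)) .nil)) (.node .leaf (nat_lit 15875971283983093) (.br (nat_lit 0) (.cons (.br (nat_lit 1) (.cons (.rel (nat_lit 20972805)) .nil)) .nil)) .leaf))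

/-- refutations 73 -/
def e73 : EX := (.node (.node (.node .leaf (nat_lit 15879191052494984) (.br (nat_lit 6) (.cons (.br (nat_lit 4) (.cons (.rel (nat_lit 19327357986)) (.cons (.rel (nat_lit 19327418433)) .nil))) .nil)) .leaf) (nat_lit 15879191054072434) (.br (nat_lit 0) (.cons (.br (nat_lit 2) (.cons (.rel (nat_lit 71308353)) .nil)) .nil)) (.node .leaf (nat_lit 15879191054073343) (.br (nat_lit 4) (.cons (.br (nat_lit 0) (.cons (.rel (nat_lit 2155872276)) (.cons (.rel (nat_lit 1079246976)) (.cons (.rel (nat_lit 1077937173)) .nil)))) .nil)) .leaf)) (nat_lit 15879191055312383) (.br (nat_lit 1) (.cons (.br (nat_lit 4) (.cons (.rel (nat_lit 1090535430)) .nil)) .nil)) (.node (.node .leaf (nat_lit 15879199000701578) (.br (nat_lit 0) (.cons (.br (nat_lit 1) (.cons (.rel (nat_lit 21237840)) .nil)) .nil)) .leaf) (nat_lit 15880026897590908) (.br (nat_lit 2) (.cons (.br (nat_lit 3) (.cons (.rel (nat_lit 402658308)) .nil)) .nil)) (.node .leaf (nat_lit 15881343758051589) (.br (nat_lit 0) (.cons (.br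 (nat_lit 1) (.cons (.rel (nat_lit 21237840)) .nil)) .nil)) .leaf)))

/-- refutations 74 -/
def e74 : EX := (.node (.node (.node .leaf (nat_lit 15844006030288907) (.br (nat_lit 2) (.cons (.br (nat_lit 3) (.cons (.rel (nat_lit 336598080)) .nil)) .nil)) .leaf) (nat_lit 15844006030289031) (.br (nat_lit 0) (.cons (.br (nat_lit 2) (.cons (.rel (nat_lit 71328768)) .nil)) .nil)) (.node .leaf (nat_lit 15844006030290183) (.br (nat_lit 0) (.cons (.br (nat_lit 1) (.cons (.rel (nat_lit 22560768)) .nil)) .nil)) .leaf)) (nat_lit 15844006032776045) (.br (nat_lit 0) (.cons (.br (nat_lit 2) (.cons (.rel (nat_lit 142606341)) .nil)) .nil)) (.node (.node .leaf (nat_lit 15844006810430975) (.br (nat_lit 0) (.cons (.br (nat_lit 1) (.cons (.rel (nat_lit 37756929)) .nil)) .nil)) .leaf) (nat_lit 15844006813538306) (.br (nat_lit 1) (.cons (.br (nat_lit 2) (.cons (.rel (nat_lit 83892240)) .nil)) .nil)) .leaf))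

/-- refutations 75 -/
def e75 : EX := (.node (.node (.node (.node .leaf (nat_lit 15956387855149218) (.br (nat_lit 0) (.cons (.br (nat_lit 1) (.cons (.rel (nat_lit 25183236)) .nil)) .nil)) .leaf) (nat_lit 15957247788132363) (.br (nat_lit 1) (.cons (.br (nat_lit 2) (.cons (.rel (nat_lit 167772240)) .nil)) .nil)) .leaf) (nat_lit 15957247788133162) (.br (nat_lit 1) (.cons (.br (nat_lit 2) (.cons (.rel (nat_lit 83895360)) .nil)) .nil)) (.node .leaf (nat_lit 15958564757646599) (.br (nat_lit 0) (.cons (.br (nat_lit 5) (.cons (.rel (nat_lit 4300735488)) .nil)) .nil)) .leaf)) (nat_lit 15961705844034823) (.br (nat_lit 2) (.cons (.br (nat_lit 3) (.cons (.rel (nat_lit 336592905)) .nil)) .nil)) (.node (.node .leaf (nat_lit 15968451772360715) (.br (nat_lit 0) (.cons (.br (nat_lit 2) (.cons (.rel (nat_lit 71304228)) .nil)) .nil)) .leaf) (nat_lit 15968451772361991) (.br (nat_lit 0) (.cons (.br (nat_lit 1) (.cons (.rel (nat_lit 21237840)) .nil)) .nil)) (.node .leaf (nat_lit 15968451775480743) (.br (nat_lit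 0) (.cons (.br (nat_lit 1) (.cons (.rel (nat_lit 37756929)) .nil)) .nil)) .leaf)))

/-- refutations 76 -/
def e76 : EX := (.node (.node (.node .leaf (nat_lit 16010501430374431) (.br (nat_lit 3) (.cons (.br (nat_lit 4) (.cons (.rel (nat_lit 1342198272)) .nil)) .nil)) .leaf) (nat_lit 16014731632000277) (.br (nat_lit 2) (.cons (.br (nat_lit 4) (.cons (.rel (nat_lit 2281701696)) .nil)) .nil)) .leaf) (nat_lit 16015821511929068) (.br (nat_lit 2) (.cons (.br (nat_lit 3) (.cons (.rel (nat_lit 604119120)) .nil)) .nil)) (.node (.node .leaf (nat_lit 16016502862845459) (.br (nat_lit 0) (.cons (.br (nat_lit 2) (.cons (.rel (nat_lit 71305233)) .nil)) .nil)) .leaf) (nat_lit 16021774210770955) (.br (nat_lit 0) (.cons (.br (nat_lit 1) (.cons (.rel (nat_lit 21054720)) .nil)) .nil)) .leaf))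

/-- refutations 77 -/
def e77 : EX := (.node (.node .leaf (nat_lit 16028090537817595) (.br (nat_lit 1) (.cons (.br (nat_lit 2) (.cons (.rel (nat_lit 167772240)) .nil)) .nil)) .leaf) (nat_lit 16028646720738186) (.br (nat_lit 0) (.cons (.br (nat_lit 1) (.cons (.rel (nat_lit 37749828)) .nil)) .nil)) (.node .leaf (nat_lit 16028646721031520) (.br (nat_lit 0) (.cons (.br (nat_lit 2) (.cons (.rel (nat_lit 71307348)) .nil)) .nil)) .leaf))

/-- refutations 78 -/
def e78 : EX := (.node .leaf (nat_lit 16293047507671227) (.br (nat_lit 0) (.cons (.br (nat_lit 1) (.cons (.rel (nat_lit 21234720)) .nil)) .nil)) .leaf)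

/-- refutations 79 -/
def e79 : EX := (.node .leaf (nat_lit 16298414100172309) (.br (nat_lit 1) (.cons (.br (nat_lit 2) (.cons (.rel (nat_lit 83886240)) .nil)) .nil)) .leaf)

/-- refutations 81 -/
def e81 : EX := (.node (.node (.node (.node .leaf (nat_lit 16308066096759710) (.br (nat_lit 1) (.cons (.br (nat_lit 2) (.cons (.rel (nat_lit 83890185)) .nil)) .nil)) .leaf) (nat_lit 16308405792487475) (.br (nat_lit 0) (.cons (.br (nat_lit 1) (.cons (.rel (nat_lit 25183236)) .nil)) .nil)) .leaf) (nat_lit 16310628572280883) (.br (nat_lit 0) (.cons (.br (nat_lit 2) (.cons (.rel (nat_lit 71374848)) .nil)) .nil)) (.node (.node .leaf (nat_lit 16310628572281014) (.br (nat_lit 0) (.cons (.br (nat_lit 2) (.cons (.rel (nat_lit 71303178)) .nil)) .nil)) .leaf) (nat_lit 16310628572282363) (.br (nat_lit 2) (.cons (.br (nat_lit 5) (.cons (.rel (nat_lit 4362076200)) .nil)) .nil)) .leaf)) (nat_lit 16310628572282369) (.br (nat_lit 0) (.cons (.br (nat_lit 2) (.cons (.rel (nat_lit 71319648)) .nil)) .nil)) (.node (.node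 (.node .leaf (nat_lit 16310628573234538) (.br (nat_lit 1) (.cons (.br (nat_lit 2) (.cons (.rel (nat_lit 83902485)) .nil)) .nil)) .leaf) (nat_lit 16310628573543082) (.br (nat_lit 2) (.cons (.br (nat_lit 0) (.cons (.rel (nat_lit 71305233)) (.cons (.rel (nat_lit 71308353)) .nil))) .nil)) .leaf) (nat_lit 16310634487201919) (.br (nat_lit 0) (.cons (.br (nat_lit 2) (.cons (.rel (nat_lit 71319648)) .nil)) .nil)) (.node (.node .leaf (nat_lit 16310634487203178) (.br (nat_lit 2) (.cons (.br (nat_lit 3) (.cons (.rel (nat_lit 336598080)) .nil)) .nil)) .leaf) (nat_lit 16310634487511091) (.br (nat_lit 0) (.cons (.br (nat_lit 1) (.cons (.rel (nat_lit 20972805)) .nil)) .nil)) .leaf)))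

/-- refutations 82 -/
def e82 : EX := (.node (.node (.node (.node (.node .leaf (nat_lit 16483933030001576) (.br (nat_lit 2) (.cons (.br (nat_lit 3) (.cons (.rel (nat_lit 335872272)) .nil)) .nil)) .leaf) (nat_lit 16483944331228423) (.br (nat_lit 0) (.cons (.br (nat_lit 1) (.cons (.rel (nat_lit 21054720)) .nil)) .nil)) .leaf) (nat_lit 16485391456610331) (.br (nat_lit 3) (.cons (.br (nat_lit 4) (.cons (.rel (nat_lit 2415925248)) .nil)) .nil)) (.node .leaf (nat_lit 16485396028402951) (.br (nat_lit 0) (.cons (.br (nat_lit 1) (.cons (.rel (nat_lit 20972805)) .nil)) .nil)) .leaf)) (nat_lit 16486464426683020) (.br (nat_lit 0) (.cons (.br (nat_lit 1) (.cons (.rel (nat_lit 37749828)) .nil)) .nil)) (.node (.node .leaf (nat_lit 16486466673645051) (.br (nat_lit 1) (.cons (.br (nat_lit 3) (.cons (.rel (nat_lit 285220884)) .nil)) .nil)) .leaf) (nat_lit 16486466733549703) (.br (nat_lit 0) (.cons (.br (nat_lit 1) (.cons (.rel (nat_lit 43061376)) .nil)) .nil)) (.node .leaf (nat_lit 16486466733549869) (.br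 (nat_lit 0) (.cons (.br (nat_lit 2) (.cons (.rel (nat_lit 71308353)) .nil)) .nil)) .leaf))) (nat_lit 16486466733550198) (.br (nat_lit 0) (.cons (.br (nat_lit 3) (.cons (.rel (nat_lit 272634882)) .nil)) .nil)) (.node (.node (.node (.node .leaf (nat_lit 16486466733550978) (.br (nat_lit 1) (.cons (.br (nat_lit 0) (.cons (.rel (nat_lit 25169922)) (.cons (.rel (nat_lit 21054720)) .nil))) .nil)) .leaf) (nat_lit 16486467773736971) (.br (nat_lit 0) (.cons (.br (nat_lit 1) (.cons (.rel (nat_lit 21234720)) .nil)) .nil)) .leaf) (nat_lit 16486469245938421) (.br (nat_lit 0) (.cons (.br (nat_lit 3) (.cons (.rel (nat_lit 272648196)) .nil)) .nil)) (.node .leaf (nat_lit 16486469245939171) (.br (nat_lit 0) (.cons (.br (nat_lit 4) (.cons (.rel (nat_lit 1079116032)) .nil)) .nil)) .leaf)) (nat_lit 16486469246194951) (.br (nat_lit 0) (.cons (.br (nat_lit 1) (.cons (.rel (nat_lit 20972805)) .nil)) .nil)) (.node (.node .leaf (nat_lit 16489720653621998) (.br (nat_lit 0) (.cons (.br (nat_lit 5) (.cons (.rel (nat_lit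 4299161940)) .nil)) .nil)) .leaf) (nat_lit 16490758973426921) (.br (nat_lit 1) (.cons (.br (nat_lit 2) (.cons (.rel (nat_lit 83886240)) .nil)) .nil)) (.node .leaf (nat_lit 16490799753108366) (.br (nat_lit 1) (.cons (.br (nat_lit 3) (.cons (.rel (nat_lit 285221889)) .nil)) .nil)) .leaf))))

/-- refutations 83 -/
def e83 : EX := (.node (.node .leaf (nat_lit 16491868017117965) (.br (nat_lit 0) (.cons (.br (nat_lit 2) (.cons (.rel (nat_lit 71374848)) .nil)) .nil)) .leaf) (nat_lit 16495059704818414) (.br (nat_lit 1) (.cons (.br (nat_lit 2) (.cons (.rel (nat_lit 167772240)) .nil)) .nil)) .leaf)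

/-- refutations 84 -/
def e84 : EX := (.node .leaf (nat_lit 22184927350310151) (.br (nat_lit 2) (.cons (.br (nat_lit 5) (.cons (.rel (nat_lit 4362077205)) (.cons (.rel (nat_lit 4362080325)) .nil))) .nil)) .leaf)

/-- refutations 85 -/
def e85 : EX := (.node (.node (.node (.node (.node .leaf (nat_lit 22194489898081013) (.br (nat_lit 0) (.cons (.br (nat_lit 1) (.cons (.rel (nat_lit 37749828)) .nil)) .nil)) .leaf) (nat_lit 22194788595221767) (.br (nat_lit 0) (.cons (.br (nat_lit 1) (.cons (.rel (nat_lit 21234720)) .nil)) .nil)) .leaf) (nat_lit 22194924738036642) (.br (nat_lit 0) (.cons (.br (nat_lit 1) (.cons (.rel (nat_lit 21233670)) .nil)) .nil)) (.node .leaf (nat_lit 22195790866006071) (.br (nat_lit 0) (.cons (.br (nat_lit 1) (.cons (.rel (nat_lit 21234720)) .nil)) .nil)) .leaf)) (nat_lit 22195790866364471) (.br (nat_lit 0) (.cons (.br (nat_lit 1) (.cons (.rel (nat_lit 22560768)) (.cons (.rel (nat_lit 21237840)) .nil))) .nil)) (.node (.node .leaf (nat_lit 22195790866364552) (.br (nat_lit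 4) (.cons (.br (nat_lit 6) (.cons (.br (nat_lit 2) (.cons (.rel (nat_lit 17314092048)) (.cons (.rel (nat_lit 1142949120)) .nil))) .nil)) .nil)) .leaf) (nat_lit 22195790866364697) (.br (nat_lit 0) (.cons (.br (nat_lit 2) (.cons (.rel (nat_lit 71303178)) .nil)) .nil)) (.node .leaf (nat_lit 22195790867906615) (.br (nat_lit 1) (.cons (.br (nat_lit 4) (.cons (.rel (nat_lit 1090519185)) .nil)) .nil)) .leaf))) (nat_lit 22195792320649271) (.br (nat_lit 3) (.cons (.br (nat_lit 4) (.cons (.rel (nat_lit 1343226900)) .nil)) .nil)) (.node (.node (.node (.node .leaf (nat_lit 22195792320765306) (.br (nat_lit 0) (.cons (.br (nat_lit 1) (.cons (.rel (nat_lit 20971800)) .nil)) .nil)) .leaf) (nat_lit 22195792321674503) (.br (nat_lit 4) (.cons (.br (nat_lit 6) (.cons (.rel (nat_lit 18253619712)) .nil)) .nil)) .leaf) (nat_lit 22195792321746999) (.br (nat_lit 0) (.cons (.br (nat_lit 6) (.cons (.rel (nat_lit 17184081936)) .nil)) .nil)) (.node .leaf (nat_lit 22195792321983751) (.br (nat_lit 0) (.cons (.br (nat_lit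 3) (.cons (.rel (nat_lit 272633877)) (.cons (.rel (nat_lit 545259588)) .nil))) .nil)) .leaf)) (nat_lit 22195792323018081) (.br (nat_lit 0) (.cons (.br (nat_lit 5) (.cons (.rel (nat_lit 4300738656)) .nil)) .nil)) (.node (.node .leaf (nat_lit 22195793617468304) (.br (nat_lit 3) (.cons (.br (nat_lit 4) (.cons (.rel (nat_lit 1611923460)) .nil)) .nil)) .leaf) (nat_lit 22195793619068282) (.br (nat_lit 0) (.cons (.br (nat_lit 2) (.cons (.rel (nat_lit 138675264)) .nil)) .nil)) (.node .leaf (nat_lit 22196634859928309) (.br (nat_lit 0) (.cons (.br (nat_lit 1) (.cons (.rel (nat_lit 37814304)) .nil)) .nil)) .leaf))))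

/-- refutations 87 -/
def e87 : EX := (.node (.node .leaf (nat_lit 16378328399732240) (.br (nat_lit 0) (.cons (.br (nat_lit 3) (.cons (.rel (nat_lit 545259588)) .nil)) .nil)) .leaf) (nat_lit 22038614422662531) (.br (nat_lit 0) (.cons (.br (nat_lit 2) (.cons (.rel (nat_lit 71305233)) .nil)) .nil)) .leaf)

/-- refutations 88 -/
def e88 : EX := (.node .leaf (nat_lit 22441225108574468) (.br (nat_lit 2) (.cons (.br (nat_lit 3) (.cons (.rel (nat_lit 336101376)) .nil)) .nil)) .leaf)

/-- refutations 89 -/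
def e89 : EX := (.node (.node (.node (.node (.node (.node .leaf (nat_lit 22605965568506492) (.br (nat_lit 2) (.cons (.br (nat_lit 3) (.cons (.rel (nat_lit 402670608)) (.cons (.rel (nat_lit 402670608)) .nil))) .nil)) .leaf) (nat_lit 22605965568614457) (.br (nat_lit 0) (.cons (.br (nat_lit 2) (.cons (.rel (nat_lit 142606341)) .nil)) .nil)) .leaf) (nat_lit 22605965569792281) (.br (nat_lit 2) (.cons (.br (nat_lit 3) (.cons (.rel (nat_lit 671367168)) .nil)) .nil)) (.node .leaf (nat_lit 22605965569899426) (.br (nat_lit 2) (.cons (.br (nat_lit 4) (.cons (.rel (nat_lit 1141901376)) (.cons (.rel (nat_lit 2214592530)) .nil))) .nil)) .leaf)) (nat_lit 22605965570809058) (.br (nat_lit 0) (.cons (.br (nat_lit 2) (.cons (.rel (nat_lit 71304228)) .nil)) .nil)) (.node (.node .leaf (nat_lit 22605965571127551) (.br (nat_lit 2) (.cons (.br (nat_lit 5) (.cons (.rel (nat_lit 4362076200)) (.cons (.rel (nat_lit 4362078210)) (.cons (.rel (nat_lit 8724152340)) .nil)))) .nil)) .leaf) (nat_lit 22605965571137791) (.br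 (nat_lit 2) (.cons (.br (nat_lit 0) (.cons (.rel (nat_lit 71328768)) (.cons (.rel (nat_lit 142606341)) (.cons (.rel (nat_lit 71305233)) .nil)))) .nil)) (.node .leaf (nat_lit 22605965571137817) (.br (nat_lit 2) (.cons (.br (nat_lit 4) (.cons (.rel (nat_lit 2281965633)) (.cons (.rel (nat_lit 2214593544)) (.cons (.rel (nat_lit 1142949120)) (.cons (.rel (nat_lit 2214593544)) .nil))))) (.cons (.br (nat_lit 5) (.cons (.rel (nat_lit 4362600705)) (.cons (.rel (nat_lit 8724153345)) (.cons (.rel (nat_lit 4362600705)) .nil)))) (.cons (.br (nat_lit 0) (.cons (.rel (nat_lit 142606341)) (.cons (.rel (nat_lit 76566528)) (.cons (.rel (nat_lit 142606341)) (.cons (.rel (nat_lit 142606341)) (.cons (.rel (nat_lit 71305233)) .nil)))))) .nil)))) .leaf))) (nat_lit 22605965571138317) (.br (nat_lit 4) (.cons (.br (nat_lit 2) (.cons (.rel (nat_lit 1141117188)) (.cons (.rel (nat_lit 2281701696)) .nil))) .nil)) (.node (.node (.node .leaf (nat_lit 22605965571138323) (.br (nat_lit 3) (.cons (.br (nat_lit 4) (.cons (.rel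 (nat_lit 1343242320)) .nil)) .nil)) .leaf) (nat_lit 22605965571138442) (.br (nat_lit 4) (.cons (.br (nat_lit 5) (.cons (.rel (nat_lit 5368971780)) .nil)) .nil)) (.node .leaf (nat_lit 22605965571138466) (.br (nat_lit 2) (.cons (.br (nat_lit 6) (.cons (.rel (nat_lit 17314103298)) (.cons (.rel (nat_lit 17314103298)) .nil))) .nil)) .leaf)) (nat_lit 22605965571138786) (.br (nat_lit 2) (.cons (.br (nat_lit 4) (.cons (.rel (nat_lit 1140851328)) (.cons (.rel (nat_lit 2214592530)) .nil))) .nil)) (.node (.node .leaf (nat_lit 22605965571330954) (.br (nat_lit 1) (.cons (.br (nat_lit 2) (.cons (.rel (nat_lit 83886240)) .nil)) .nil)) .leaf) (nat_lit 22606010740976903) (.br (nat_lit 1) (.cons (.br (nat_lit 3) (.cons (.rel (nat_lit 285220884)) .nil)) .nil)) (.node .leaf (nat_lit 22606025080225929) (.br (nat_lit 0) (.cons (.br (nat_lit 2) (.cons (.rel (nat_lit 71304228)) (.cons (.rel (nat_lit 71303178)) .nil))) .nil)) .leaf)))) (nat_lit 22606025727223865) (.br (nat_lit 0) (.cons (.br (nat_lit 5) (.cons (.rel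 (nat_lit 4303355937)) .nil)) .nil)) (.node (.node (.node (.node .leaf (nat_lit 22606025727223945) (.br (nat_lit 2) (.cons (.br (nat_lit 0) (.cons (.rel (nat_lit 71467008)) (.cons (.rel (nat_lit 71319648)) .nil))) .nil)) .leaf) (nat_lit 22606025727225093) (.br (nat_lit 6) (.cons (.br (nat_lit 3) (.cons (.rel (nat_lit 17449357344)) (.cons (.rel (nat_lit 17449369608)) (.cons (.rel (nat_lit 34896610560)) (.cons (.rel (nat_lit 17449369608)) (.cons (.rel (nat_lit 34896610560)) .nil)))))) (.cons (.br (nat_lit 4) (.cons (.rel (nat_lit 36507226368)) (.cons (.rel (nat_lit 18254659590)) (.cons (.rel (nat_lit 36507226368)) .nil)))) .nil))) (.node .leaf (nat_lit 22606025727225095) (.br (nat_lit 5) (.cons (.br (nat_lit 2) (.cons (.rel (nat_lit 4362076200)) (.cons (.rel (nat_lit 4362076200)) (.cons (.rel (nat_lit 4362076200)) (.cons (.rel (nat_lit 8724152340)) .nil))))) .nil)) .leaf)) (nat_lit 22606025728443278) (.br (nat_lit 2) (.cons (.br (nat_lit 3) (.cons (.rel (nat_lit 335544912)) .nil)) .nil)) (.node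 (.node .leaf (nat_lit 22606062383026207) (.br (nat_lit 0) (.cons (.br (nat_lit 1) (.cons (.rel (nat_lit 20972805)) .nil)) .nil)) .leaf) (nat_lit 22606231671725292) (.br (nat_lit 0) (.cons (.br (nat_lit 2) (.cons (.rel (nat_lit 71328768)) .nil)) .nil)) (.node .leaf (nat_lit 22606231672002012) (.br (nat_lit 4) (.cons (.br (nat_lit 5) (.cons (.rel (nat_lit 5368725570)) .nil)) .nil)) .leaf))) (nat_lit 22606231672040980) (.br (nat_lit 0) (.cons (.br (nat_lit 3) (.cons (.rel (nat_lit 272648196)) .nil)) .nil)) (.node (.node (.node .leaf (nat_lit 22606231672247699) (.br (nat_lit 2) (.cons (.br (nat_lit 3) (.cons (.rel (nat_lit 335544912)) .nil)) .nil)) .leaf) (nat_lit 22606231673308671) (.br (nat_lit 2) (.cons (.br (nat_lit 0) (.cons (.rel (nat_lit 76546113)) (.cons (.rel (nat_lit 71303178)) .nil))) .nil)) (.node .leaf (nat_lit 22606231674284042) (.br (nat_lit 0) (.cons (.br (nat_lit 2) (.cons (.rel (nat_lit 142606341)) .nil)) .nil)) .leaf)) (nat_lit 22606231674816699) (.br (nat_lit 3) (.cons (.br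 (nat_lit 4) (.cons (.rel (nat_lit 2416017408)) (.cons (.rel (nat_lit 1610621952)) .nil))) (.cons (.br (nat_lit 4) (.cons (.br (nat_lit 5) (.cons (.rel (nat_lit 4563420168)) (.cons (.rel (nat_lit 11006115840)) .nil))) (.cons (.rel (nat_lit 1610612832)) .nil))) .nil))) (.node (.node .leaf (nat_lit 22606231674863803) (.br (nat_lit 2) (.cons (.br (nat_lit 3) (.cons (.rel (nat_lit 671220996)) .nil)) .nil)) .leaf) (nat_lit 22606234180122925) (.br (nat_lit 1) (.cons (.br (nat_lit 2) (.cons (.rel (nat_lit 83886240)) .nil)) .nil)) (.node .leaf (nat_lit 22606234180124001) (.br (nat_lit 0) (.cons (.br (nat_lit 6) (.cons (.rel (nat_lit 17184137232)) .nil)) .nil)) .leaf)))))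

/-- refutations 90 -/
def e90 : EX := (.node (.node (.node (.node (.node .leaf (nat_lit 22606260769115018) (.br (nat_lit 0) (.cons (.br (nat_lit 1) (.cons (.rel (nat_lit 25183236)) .nil)) .nil)) .leaf) (nat_lit 22606260769115617) (.br (nat_lit 0) (.cons (.br (nat_lit 1) (.cons (.rel (nat_lit 21234720)) .nil)) .nil)) .leaf) (nat_lit 22606262494490635) (.br (nat_lit 1) (.cons (.br (nat_lit 4) (.cons (.rel (nat_lit 1090519185)) .nil)) .nil)) (.node (.node .leaf (nat_lit 22606266048463010) (.br (nat_lit 0) (.cons (.br (nat_lit 1) (.cons (.rel (nat_lit 21008640)) .nil)) .nil)) .leaf) (nat_lit 22606266048557317) (.br (nat_lit 1) (.cons (.br (nat_lit 2) (.cons (.rel (nat_lit 83984400)) .nil)) .nil)) .leaf)) (nat_lit 22606266048557712) (.br (nat_lit 5) (.cons (.br (nat_lit 6) (.cons (.rel (nat_lit 21474854913)) .nil)) .nil)) (.node (.node (.node .leaf (nat_lit 22606266050053357) (.br (nat_lit 0) (.cons (.br (nat_lit 2) (.cons (.rel (nat_lit 71304228)) .nil)) .nil)) .leaf) (nat_lit 22606266051332732)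 (.br (nat_lit 0) (.cons (.br (nat_lit 1) (.cons (.rel (nat_lit 20972805)) .nil)) .nil)) .leaf) (nat_lit 22606283236518699) (.br (nat_lit 1) (.cons (.br (nat_lit 6) (.cons (.rel (nat_lit 34393296912)) .nil)) .nil)) (.node (.node .leaf (nat_lit 22606453984925831) (.br (nat_lit 0) (.cons (.br (nat_lit 2) (.cons (.rel (nat_lit 71368848)) .nil)) .nil)) .leaf) (nat_lit 22606453984925883) (.br (nat_lit 2) (.cons (.br (nat_lit 3) (.cons (.rel (nat_lit 604046337)) .nil)) .nil)) .leaf))) (nat_lit 22606453985245241) (.br (nat_lit 0) (.cons (.br (nat_lit 2) (.cons (.rel (nat_lit 142606341)) .nil)) .nil)) (.node (.node (.node (.node .leaf (nat_lit 22606455120632693) (.br (nat_lit 2) (.cons (.br (nat_lit 3) (.cons (.rel (nat_lit 604119120)) .nil)) .nil)) .leaf) (nat_lit 22606455121583585) (.br (nat_lit 0) (.cons (.br (nat_lit 2) (.cons (.rel (nat_lit 71305233)) .nil)) .nil)) .leaf) (nat_lit 22606455121583587) (.br (nat_lit 1) (.cons (.br (nat_lit 2) (.cons (.rel (nat_lit 83892240)) .nil)) .nil)) (.node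 (.node .leaf (nat_lit 22606455121682489) (.br (nat_lit 3) (.cons (.br (nat_lit 5) (.cons (.rel (nat_lit 4565500416)) .nil)) .nil)) .leaf) (nat_lit 22606455122215099) (.br (nat_lit 2) (.cons (.br (nat_lit 3) (.cons (.rel (nat_lit 335544912)) .nil)) .nil)) .leaf)) (nat_lit 22607136665908601) (.br (nat_lit 0) (.cons (.br (nat_lit 2) (.cons (.rel (nat_lit 71385093)) .nil)) .nil)) (.node (.node (.node .leaf (nat_lit 22607136942443873) (.br (nat_lit 4) (.cons (.br (nat_lit 0) (.cons (.rel (nat_lit 1077938178)) (.cons (.rel (nat_lit 1077938178)) .nil))) .nil)) .leaf) (nat_lit 22607141391116343) (.br (nat_lit 0) (.cons (.br (nat_lit 3) (.cons (.rel (nat_lit 277872642)) (.cons (.rel (nat_lit 545259588)) .nil))) .nil)) .leaf) (nat_lit 22607141391117575) (.br (nat_lit 3) (.cons (.br (nat_lit 5) (.cons (.rel (nat_lit 4831854849)) (.cons (.rel (nat_lit 4564733952)) .nil))) (.cons (.br (nat_lit 6) (.cons (.rel (nat_lit 17716740120)) (.cons (.rel (nat_lit 34628198400)) (.cons (.rel (nat_lit 34628173860))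 .nil)))) .nil))) (.node (.node .leaf (nat_lit 22607141391117689) (.br (nat_lit 4) (.cons (.br (nat_lit 5) (.cons (.rel (nat_lit 5368710150)) .nil)) .nil)) .leaf) (nat_lit 22607141392683943) (.br (nat_lit 2) (.cons (.br (nat_lit 5) (.cons (.rel (nat_lit 8724152340)) .nil)) .nil)) .leaf))))

/-- refutations 91 -/
def e91 : EX := (.node (.node (.node (.node (.node (.node (.node .leaf (nat_lit 22608411005549304) (.br (nat_lit 1) (.cons (.br (nat_lit 4) (.cons (.rel (nat_lit 1090525185)) .nil)) .nil)) .leaf) (nat_lit 22608413007620897) (.br (nat_lit 0) (.cons (.br (nat_lit 2) (.cons (.rel (nat_lit 76152852)) .nil)) .nil)) .leaf) (nat_lit 22608413007621002) (.br (nat_lit 0) (.cons (.br (nat_lit 6) (.cons (.rel (nat_lit 17184079881)) .nil)) .nil)) (.node .leaf (nat_lit 22608413007621383) (.br (nat_lit 0) (.cons (.br (nat_lit 2) (.cons (.rel (nat_lit 71303178)) .nil)) .nil)) .leaf)) (nat_lit 22608413008173692) (.br (nat_lit 0) (.cons (.br (nat_lit 3) (.cons (.rel (nat_lit 273711360)) .nil)) .nil))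 (.node (.node (.node .leaf (nat_lit 22608413009103103) (.br (nat_lit 0) (.cons (.br (nat_lit 3) (.cons (.rel (nat_lit 273940560)) .nil)) .nil)) .leaf) (nat_lit 22608413009103754) (.br (nat_lit 0) (.cons (.br (nat_lit 3) (.cons (.rel (nat_lit 545259588)) .nil)) .nil)) .leaf) (nat_lit 22608413009412397) (.br (nat_lit 0) (.cons (.br (nat_lit 2) (.cons (.rel (nat_lit 71319648)) .nil)) .nil)) (.node .leaf (nat_lit 22608413009412732) (.br (nat_lit 3) (.cons (.br (nat_lit 5) (.cons (.rel (nat_lit 4563404928)) (.cons (.rel (nat_lit 4563404928)) .nil))) .nil)) .leaf))) (nat_lit 22608558518900923) (.br (nat_lit 3) (.cons (.br (nat_lit 6) (.cons (.rel (nat_lit 17716740120)) .nil)) .nil)) (.node (.node (.node (.node .leaf (nat_lit 22608558519533599) (.br (nat_lit 0) (.cons (.br (nat_lit 3) (.cons (.rel (nat_lit 272648196)) .nil)) .nil)) .leaf) (nat_lit 22608558519533750) (.br (nat_lit 1) (.cons (.br (nat_lit 3) (.cons (.rel (nat_lit 553648464)) (.cons (.rel (nat_lit 285212769)) .nil))) .nil)) .leaf) (nat_lit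 22608559107996560) (.br (nat_lit 0) (.cons (.br (nat_lit 2) (.cons (.rel (nat_lit 71319648)) .nil)) .nil)) (.node .leaf (nat_lit 22608559107997025) (.br (nat_lit 3) (.cons (.br (nat_lit 6) (.cons (.rel (nat_lit 17449484289)) (.cons (.rel (nat_lit 17448567060)) .nil))) (.cons (.br (nat_lit 6) (.cons (.rel (nat_lit 17450402112)) (.cons (.rel (nat_lit 17449354368)) .nil))) .nil))) .leaf)) (nat_lit 22608559109275152) (.br (nat_lit 0) (.cons (.br (nat_lit 4) (.cons (.rel (nat_lit 1079246976)) .nil)) .nil)) (.node (.node (.node .leaf (nat_lit 22608559109388564) (.br (nat_lit 0) (.cons (.br (nat_lit 1) (.cons (.rel (nat_lit 21233670)) .nil)) .nil)) .leaf) (nat_lit 22608559109584098) (.br (nat_lit 1) (.cons (.br (nat_lit 3) (.cons (.rel (nat_lit 285212769)) .nil)) .nil)) .leaf) (nat_lit 22608559109591670) (.br (nat_lit 0) (.cons (.br (nat_lit 4) (.cons (.rel (nat_lit 2151972864)) .nil)) .nil)) (.node .leaf (nat_lit 22608559109591796) (.br (nat_lit 1) (.cons (.br (nat_lit 2) (.cons (.rel (nat_lit 83903490))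 .nil)) .nil)) .leaf)))) (nat_lit 22608559109592540) (.br (nat_lit 1) (.cons (.br (nat_lit 3) (.cons (.rel (nat_lit 285221889)) .nil)) .nil)) (.node (.node (.node (.node (.node .leaf (nat_lit 22608559109604083) (.br (nat_lit 2) (.cons (.br (nat_lit 5) (.cons (.rel (nat_lit 8724153345)) .nil)) .nil)) .leaf) (nat_lit 22608559110297782) (.br (nat_lit 2) (.cons (.br (nat_lit 0) (.cons (.rel (nat_lit 71303178)) (.cons (.rel (nat_lit 72356097)) .nil))) .nil)) .leaf) (nat_lit 22608559110297850) (.br (nat_lit 2) (.cons (.br (nat_lit 5) (.cons (.rel (nat_lit 4362077205)) .nil)) .nil)) (.node .leaf (nat_lit 22608559110299152) (.br (nat_lit 0) (.cons (.br (nat_lit 2) (.cons (.rel (nat_lit 71304228)) .nil)) .nil)) .leaf)) (nat_lit 22608559110351150) (.br (nat_lit 2) (.cons (.br (nat_lit 5) (.cons (.rel (nat_lit 4363387008)) .nil)) .nil)) (.node (.node (.node .leaf (nat_lit 22608559110398254) (.br (nat_lit 0) (.cons (.br (nat_lit 3) (.cons (.rel (nat_lit 272630949)) .nil)) .nil)) .leaf) (nat_lit 22608559110606879)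 (.br (nat_lit 0) (.cons (.br (nat_lit 2) (.cons (.rel (nat_lit 138675264)) .nil)) .nil)) .leaf) (nat_lit 22608559110617338) (.br (nat_lit 2) (.cons (.br (nat_lit 4) (.cons (.rel (nat_lit 1207977024)) .nil)) .nil)) (.node .leaf (nat_lit 22608559110618514) (.br (nat_lit 0) (.cons (.br (nat_lit 2) (.cons (.rel (nat_lit 71303178)) .nil)) .nil)) .leaf))) (nat_lit 22608559110618515) (.br (nat_lit 2) (.cons (.br (nat_lit 3) (.cons (.rel (nat_lit 402653313)) .nil)) .nil)) (.node (.node (.node (.node .leaf (nat_lit 22608559110627510) (.br (nat_lit 2) (.cons (.br (nat_lit 3) (.cons (.rel (nat_lit 336618498)) .nil)) .nil)) .leaf) (nat_lit 22608559110628234) (.br (nat_lit 0) (.cons (.br (nat_lit 1) (.cons (.rel (nat_lit 37749828)) .nil)) .nil)) .leaf) (nat_lit 22608559110656287) (.br (nat_lit 0) (.cons (.br (nat_lit 1) (.cons (.rel (nat_lit 20972805)) .nil)) .nil)) (.node .leaf (nat_lit 22608559110920374) (.br (nat_lit 2) (.cons (.br (nat_lit 3) (.cons (.rel (nat_lit 336592905)) .nil)) .nil)) .leaf))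 (nat_lit 22608559110930442) (.br (nat_lit 0) (.cons (.br (nat_lit 1) (.cons (.rel (nat_lit 20988225)) (.cons (.rel (nat_lit 25183236)) .nil))) .nil)) (.node (.node .leaf (nat_lit 22608559110930463) (.br (nat_lit 0) (.cons (.br (nat_lit 5) (.cons (.rel (nat_lit 4299162945)) (.cons (.rel (nat_lit 4300210689)) (.cons (.rel (nat_lit 4299183360)) (.cons (.rel (nat_lit 8594129928)) (.cons (.rel (nat_lit 4300210689)) .nil)))))) (.cons (.br (nat_lit 4) (.cons (.rel (nat_lit 1077936168)) (.cons (.rel (nat_lit 1077936168)) (.cons (.rel (nat_lit 1077952593)) .nil)))) .nil))) .leaf) (nat_lit 22608559110930489) (.br (nat_lit 4) (.cons (.br (nat_lit 0) (.cons (.rel (nat_lit 1077960708)) (.cons (.rel (nat_lit 1077952593)) (.cons (.rel (nat_lit 1077938178)) (.cons (.rel (nat_lit 1077960708)) (.cons (.rel (nat_lit 1078460673)) .nil)))))) (.cons (.br (nat_lit 2) (.cons (.rel (nat_lit 1141117188)) (.cons (.rel (nat_lit 2214593544)) (.cons (.rel (nat_lit 1140851328)) (.cons (.rel (nat_lit 1141117188)) (.cons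 (.rel (nat_lit 2214593544)) (.cons (.rel (nat_lit 1141117188)) (.cons (.rel (nat_lit 1141907472)) (.cons (.rel (nat_lit 2214593544)) .nil))))))))) (.cons (.br (nat_lit 0) (.cons (.rel (nat_lit 1078460673)) (.cons (.rel (nat_lit 1077936168)) (.cons (.rel (nat_lit 1077936168)) (.cons (.rel (nat_lit 2151743760)) (.cons (.rel (nat_lit 1077952593)) .nil)))))) (.cons (.br (nat_lit 0) (.cons (.rel (nat_lit 2155873281)) (.cons (.rel (nat_lit 1077937173)) (.cons (.rel (nat_lit 1077960708)) (.cons (.rel (nat_lit 2151972864)) (.cons (.rel (nat_lit 1079116032)) .nil)))))) .nil))))) (.node .leaf (nat_lit 22608559110930562) (.br (nat_lit 0) (.cons (.br (nat_lit 3) (.cons (.rel (nat_lit 272715792)) .nil)) .nil)) .leaf))))) (nat_lit 22608559110930569) (.br (nat_lit 0) (.cons (.br (nat_lit 4) (.cons (.rel (nat_lit 1077938178)) (.cons (.rel (nat_lit 1078460673)) .nil))) (.cons (.br (nat_lit 4) (.cons (.rel (nat_lit 1077936168)) (.cons (.rel (nat_lit 2155872276)) .nil))) .nil))) (.node (.node (.node (.node (.node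 (.node .leaf (nat_lit 22608559110930614) (.br (nat_lit 4) (.cons (.br (nat_lit 3) (.cons (.rel (nat_lit 2416017408)) (.cons (.rel (nat_lit 1610612832)) (.cons (.rel (nat_lit 1342198272)) (.cons (.rel (nat_lit 2415925248)) .nil))))) (.cons (.br (nat_lit 0) (.cons (.rel (nat_lit 1077936168)) (.cons (.rel (nat_lit 1077936168)) (.cons (.rel (nat_lit 1079246976)) (.cons (.rel (nat_lit 2155873281)) .nil))))) .nil))) .leaf) (nat_lit 22608559110930734) (.br (nat_lit 0) (.cons (.br (nat_lit 3) (.cons (.rel (nat_lit 272648196)) (.cons (.rel (nat_lit 272629896)) (.cons (.rel (nat_lit 272646177)) .nil)))) .nil)) .leaf) (nat_lit 22608559110931058) (.br (nat_lit 6) (.cons (.br (nat_lit 0) (.cons (.rel (nat_lit 17184063636)) (.cons (.rel (nat_lit 17184063636)) .nil))) .nil)) (.node .leaf (nat_lit 22608559110931068) (.br (nat_lit 3) (.cons (.br (nat_lit 4) (.cons (.rel (nat_lit 2416017408)) .nil)) .nil)) .leaf)) (nat_lit 22608559110931117) (.br (nat_lit 6) (.cons (.br (nat_lit 2) (.cons (.rel (nat_lit 34426880001))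 (.cons (.rel (nat_lit 17248108560)) .nil))) .nil)) (.node (.node (.node .leaf (nat_lit 22608559110931187) (.br (nat_lit 4) (.cons (.br (nat_lit 0) (.cons (.rel (nat_lit 1077973008)) (.cons (.rel (nat_lit 1077938178)) (.cons (.rel (nat_lit 1077952593)) .nil)))) .nil)) .leaf) (nat_lit 22608559110931188) (.br (nat_lit 3) (.cons (.br (nat_lit 0) (.cons (.rel (nat_lit 272634882)) (.cons (.rel (nat_lit 272646177)) (.cons (.rel (nat_lit 272629896)) .nil)))) .nil)) .leaf) (nat_lit 22608559110931717) (.br (nat_lit 1) (.cons (.br (nat_lit 0) (.cons (.rel (nat_lit 20971800)) (.cons (.rel (nat_lit 20972805)) (.cons (.rel (nat_lit 20971800)) .nil)))) (.cons (.br (nat_lit 0) (.cons (.rel (nat_lit 20972805)) (.cons (.rel (nat_lit 42206472)) (.cons (.rel (nat_lit 23134212)) .nil)))) .nil))) (.node .leaf (nat_lit 22608559110931809) (.br (nat_lit 3) (.cons (.br (nat_lit 0) (.cons (.rel (nat_lit 272629896)) (.cons (.rel (nat_lit 272629896)) .nil))) .nil)) .leaf))) (nat_lit 22608559110931833) (.br (nat_lit 4)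 (.cons (.br (nat_lit 0) (.cons (.rel (nat_lit 1079116032)) (.cons (.rel (nat_lit 1077952593)) .nil))) .nil)) (.node (.node (.node (.node .leaf (nat_lit 22608559110931859) (.br (nat_lit 0) (.cons (.br (nat_lit 1) (.cons (.rel (nat_lit 20971800)) (.cons (.rel (nat_lit 20988225)) .nil))) (.cons (.br (nat_lit 1) (.cons (.rel (nat_lit 25183236)) (.cons (.rel (nat_lit 20971800)) .nil))) .nil))) .leaf) (nat_lit 22608559110931957) (.br (nat_lit 3) (.cons (.br (nat_lit 4) (.cons (.rel (nat_lit 1343226900)) (.cons (.rel (nat_lit 1610612832)) .nil))) .nil)) .leaf) (nat_lit 22608559110931984) (.br (nat_lit 4) (.cons (.br (nat_lit 0) (.cons (.rel (nat_lit 1077936168)) (.cons (.rel (nat_lit 1077960708)) .nil))) .nil)) (.node .leaf (nat_lit 22611551891833733) (.br (nat_lit 0) (.cons (.br (nat_lit 2) (.cons (.rel (nat_lit 71305233)) .nil)) .nil)) .leaf)) (nat_lit 22611551893635978) (.br (nat_lit 0) (.cons (.br (nat_lit 1) (.cons (.rel (nat_lit 25296912)) .nil)) .nil)) (.node (.node .leaf (nat_lit 22611552167524654)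 (.br (nat_lit 0) (.cons (.br (nat_lit 3) (.cons (.rel (nat_lit 272629896)) .nil)) .nil)) .leaf) (nat_lit 22611552167525729) (.br (nat_lit 3) (.cons (.br (nat_lit 4) (.cons (.rel (nat_lit 1342177857)) .nil)) .nil)) (.node .leaf (nat_lit 22611552167597319) (.br (nat_lit 0) (.cons (.br (nat_lit 3) (.cons (.rel (nat_lit 272629896)) .nil)) .nil)) .leaf)))) (nat_lit 22611552167779554) (.br (nat_lit 0) (.cons (.br (nat_lit 2) (.cons (.rel (nat_lit 72356097)) .nil)) .nil)) (.node (.node (.node (.node (.node .leaf (nat_lit 22611552167891081) (.br (nat_lit 0) (.cons (.br (nat_lit 3) (.cons (.rel (nat_lit 272646177)) .nil)) .nil)) .leaf) (nat_lit 22611552167892375) (.br (nat_lit 0) (.cons (.br (nat_lit 2) (.cons (.rel (nat_lit 71319648)) .nil)) .nil)) .leaf) (nat_lit 22611552168611079) (.br (nat_lit 0) (.cons (.br (nat_lit 2) (.cons (.rel (nat_lit 71337090)) .nil)) .nil)) (.node .leaf (nat_lit 22611552168657522) (.br (nat_lit 0) (.cons (.br (nat_lit 1) (.cons (.rel (nat_lit 37814304)) (.cons (.rel (nat_lit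 25165989)) .nil))) .nil)) .leaf)) (nat_lit 22611552168822966) (.br (nat_lit 0) (.cons (.br (nat_lit 2) (.cons (.rel (nat_lit 71305233)) (.cons (.rel (nat_lit 71303178)) .nil))) .nil)) (.node (.node (.node .leaf (nat_lit 22611552168823046) (.br (nat_lit 0) (.cons (.br (nat_lit 2) (.cons (.rel (nat_lit 71319648)) .nil)) .nil)) .leaf) (nat_lit 22611552168823060) (.br (nat_lit 0) (.cons (.br (nat_lit 1) (.cons (.rel (nat_lit 25169922)) .nil)) .nil)) .leaf) (nat_lit 22611552168823565) (.br (nat_lit 0) (.cons (.br (nat_lit 6) (.cons (.rel (nat_lit 17184161796)) (.cons (.rel (nat_lit 17184064641)) (.cons (.rel (nat_lit 17184064641)) (.cons (.rel (nat_lit 17185132800)) .nil))))) (.cons (.br (nat_lit 6) (.cons (.rel (nat_lit 17184063636)) (.cons (.rel (nat_lit 17184137232)) (.cons (.rel (nat_lit 17184064641)) (.cons (.rel (nat_lit 17184194562)) .nil))))) (.cons (.br (nat_lit 6) (.cons (.rel (nat_lit 17189322816)) (.cons (.rel (nat_lit 34369437696)) (.cons (.rel (nat_lit 17184063636)) (.cons (.rel (nat_lit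 17184067617)) .nil))))) (.cons (.br (nat_lit 6) (.cons (.rel (nat_lit 17184064641)) (.cons (.rel (nat_lit 17184194562)) (.cons (.rel (nat_lit 34368128085)) (.cons (.rel (nat_lit 17184069636)) .nil))))) .nil))))) (.node .leaf (nat_lit 22611552168823669) (.br (nat_lit 3) (.cons (.br (nat_lit 4) (.cons (.rel (nat_lit 1343242320)) .nil)) .nil)) .leaf))) (nat_lit 22611552168824069) (.br (nat_lit 0) (.cons (.br (nat_lit 2) (.cons (.rel (nat_lit 71319648)) (.cons (.rel (nat_lit 71319648)) .nil))) (.cons (.br (nat_lit 2) (.cons (.rel (nat_lit 71328768)) (.cons (.rel (nat_lit 71305233)) .nil))) .nil))) (.node (.node (.node (.node .leaf (nat_lit 22611552168824161) (.br (nat_lit 0) (.cons (.br (nat_lit 4) (.cons (.rel (nat_lit 1077960708)) .nil)) .nil)) .leaf) (nat_lit 22611552168824196) (.br (nat_lit 2) (.cons (.br (nat_lit 0) (.cons (.rel (nat_lit 76546113)) (.cons (.rel (nat_lit 142606341)) .nil))) .nil)) .leaf) (nat_lit 22611552168824289) (.br (nat_lit 0) (.cons (.br (nat_lit 6) (.cons (.rel (nat_lit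 17184161796)) (.cons (.rel (nat_lit 17184064641)) (.cons (.rel (nat_lit 17189322816)) .nil)))) .nil)) (.node .leaf (nat_lit 22611552168824339) (.br (nat_lit 0) (.cons (.br (nat_lit 4) (.cons (.rel (nat_lit 2155872276)) .nil)) .nil)) .leaf)) (nat_lit 22611552169112178) (.br (nat_lit 0) (.cons (.br (nat_lit 2) (.cons (.rel (nat_lit 72356097)) .nil)) .nil)) (.node (.node .leaf (nat_lit 22611552169826359) (.br (nat_lit 2) (.cons (.br (nat_lit 3) (.cons (.br (nat_lit 6) (.cons (.rel (nat_lit 34896871425)) .nil)) .nil)) .nil)) .leaf) (nat_lit 22611552170340534) (.br (nat_lit 0) (.cons (.br (nat_lit 1) (.cons (.rel (nat_lit 37749828)) .nil)) .nil)) (.node .leaf (nat_lit 22611552170412037) (.br (nat_lit 2) (.cons (.br (nat_lit 3) (.cons (.rel (nat_lit 336101376)) .nil)) .nil)) .leaf))))))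

/-- refutations 92 -/
def e92 : EX := (.node (.node (.node (.node (.node .leaf (nat_lit 22611560237182215) (.br (nat_lit 1) (.cons (.br (nat_lit 5) (.cons (.rel (nat_lit 4311826692)) .nil)) .nil)) .leaf) (nat_lit 22611629516293522) (.br (nat_lit 0) (.cons (.br (nat_lit 1) (.cons (.rel (nat_lit 20971800)) .nil)) .nil)) (.node .leaf (nat_lit 22611632303712912) (.br (nat_lit 0) (.cons (.br (nat_lit 2) (.cons (.rel (nat_lit 71304228)) .nil)) .nil)) .leaf)) (nat_lit 22611632303713537) (.br (nat_lit 0) (.cons (.br (nat_lit 2) (.cons (.rel (nat_lit 71319648)) .nil)) .nil)) (.node (.node .leaf (nat_lit 22611801397078027) (.br (nat_lit 3) (.cons (.br (nat_lit 4) (.cons (.rel (nat_lit 1343226900)) .nil)) .nil)) .leaf) (nat_lit 22611801397078047) (.br (nat_lit 0) (.cons (.br (nat_lit 5) (.cons (.rel (nat_lit 4300210689)) .nil)) .nil)) .leaf)) (nat_lit 22611801397079317) (.br (nat_lit 2) (.cons (.br (nat_lit 0) (.cons (.rel (nat_lit 142606341)) (.cons (.rel (nat_lit 71319648)) (.cons (.rel (nat_lit 71305233))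 .nil)))) .nil)) (.node (.node (.node .leaf (nat_lit 22611801397079428) (.br (nat_lit 0) (.cons (.br (nat_lit 2) (.cons (.rel (nat_lit 71303178)) .nil)) .nil)) .leaf) (nat_lit 22611801397518367) (.br (nat_lit 1) (.cons (.br (nat_lit 0) (.cons (.rel (nat_lit 21315585)) (.cons (.rel (nat_lit 25198656)) .nil))) .nil)) .leaf) (nat_lit 22611801398306055) (.br (nat_lit 0) (.cons (.br (nat_lit 2) (.cons (.rel (nat_lit 71304228)) .nil)) .nil)) (.node (.node .leaf (nat_lit 22611801398655287) (.br (nat_lit 1) (.cons (.br (nat_lit 2) (.cons (.rel (nat_lit 83972100)) .nil)) .nil)) .leaf) (nat_lit 22611801398655603) (.br (nat_lit 2) (.cons (.br (nat_lit 0) (.cons (.rel (nat_lit 71303178)) (.cons (.rel (nat_lit 71304228)) .nil))) .nil)) .leaf))) (nat_lit 22611801398655882) (.br (nat_lit 0) (.cons (.br (nat_lit 2) (.cons (.rel (nat_lit 71303178)) (.cons (.rel (nat_lit 71328768)) .nil))) (.cons (.br (nat_lit 1) (.cons (.rel (nat_lit 37749828)) (.cons (.rel (nat_lit 20971800)) (.cons (.rel (nat_lit 21234720))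 (.cons (.rel (nat_lit 22560768)) .nil))))) .nil))) (.node (.node (.node (.node .leaf (nat_lit 22611801398655911) (.br (nat_lit 0) (.cons (.br (nat_lit 2) (.cons (.rel (nat_lit 71328768)) .nil)) .nil)) .leaf) (nat_lit 22611801398850347) (.br (nat_lit 0) (.cons (.br (nat_lit 3) (.cons (.rel (nat_lit 272634882)) .nil)) .nil)) (.node .leaf (nat_lit 22611801399894922) (.br (nat_lit 1) (.cons (.br (nat_lit 0) (.cons (.rel (nat_lit 20972805)) (.cons (.rel (nat_lit 22560768)) .nil))) .nil)) .leaf)) (nat_lit 22611801399922999) (.br (nat_lit 2) (.cons (.br (nat_lit 3) (.cons (.rel (nat_lit 336594960)) .nil)) .nil)) (.node (.node .leaf (nat_lit 22611801400197151) (.br (nat_lit 0) (.cons (.br (nat_lit 1) (.cons (.rel (nat_lit 22560768)) .nil)) .nil)) .leaf) (nat_lit 22611804047878155) (.br (nat_lit 0) (.cons (.br (nat_lit 1) (.cons (.rel (nat_lit 37756929)) .nil)) .nil)) .leaf)) (nat_lit 22612456413401738) (.br (nat_lit 0) (.cons (.br (nat_lit 1) (.cons (.rel (nat_lit 25165989)) .nil)) .nil)) (.node (.node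 (.node .leaf (nat_lit 22612456413658625) (.br (nat_lit 1) (.cons (.br (nat_lit 3) (.cons (.rel (nat_lit 285221889)) .nil)) .nil)) .leaf) (nat_lit 22612839713799431) (.br (nat_lit 0) (.cons (.br (nat_lit 2) (.cons (.rel (nat_lit 142606341)) .nil)) .nil)) .leaf) (nat_lit 22612839715127448) (.br (nat_lit 1) (.cons (.br (nat_lit 2) (.cons (.rel (nat_lit 83903490)) .nil)) .nil)) (.node (.node .leaf (nat_lit 22612839716911786) (.br (nat_lit 1) (.cons (.br (nat_lit 2) (.cons (.rel (nat_lit 83972100)) .nil)) .nil)) .leaf) (nat_lit 22612840663504284) (.br (nat_lit 0) (.cons (.br (nat_lit 4) (.cons (.rel (nat_lit 1077960708)) .nil)) .nil)) .leaf))))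

/-- refutations 93 -/
def e93 : EX := (.node (.node (.node (.node (.node (.node .leaf (nat_lit 22612891278584714) (.br (nat_lit 2) (.cons (.br (nat_lit 1) (.cons (.rel (nat_lit 167772240)) (.cons (.rel (nat_lit 84152868)) .nil))) .nil)) .leaf) (nat_lit 22612891278585058) (.br (nat_lit 0) (.cons (.br (nat_lit 5) (.cons (.rel (nat_lit 4300735488)) .nil)) .nil)) .leaf) (nat_lit 22612891278585095) (.br (nat_lit 1) (.cons (.br (nat_lit 2) (.cons (.rel (nat_lit 83886240)) (.cons (.rel (nat_lit 83886240)) .nil))) (.cons (.br (nat_lit 2) (.cons (.rel (nat_lit 83886240)) (.cons (.rel (nat_lit 83886240)) .nil))) .nil))) (.node (.node .leaf (nat_lit 22612891278585235) (.br (nat_lit 2) (.cons (.br (nat_lit 6) (.cons (.rel (nat_lit 34493957505)) .nil)) .nil)) .leaf) (nat_lit 22612891278840589) (.br (nat_lit 2) (.cons (.br (nat_lit 3) (.cons (.rel (nat_lit 336592905)) .nil)) .nil)) .leaf)) (nat_lit 22612891278871815) (.br (nat_lit 3) (.cons (.br (nat_lit 5) (.cons (.rel (nat_lit 4563533844)) .nil)) .nil))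 (.node (.node (.node .leaf (nat_lit 22612891279022330) (.br (nat_lit 0) (.cons (.br (nat_lit 1) (.cons (.rel (nat_lit 25169922)) .nil)) .nil)) .leaf) (nat_lit 22612891279900834) (.br (nat_lit 0) (.cons (.br (nat_lit 1) (.cons (.rel (nat_lit 21008640)) .nil)) .nil)) .leaf) (nat_lit 22612891279901584) (.br (nat_lit 2) (.cons (.br (nat_lit 6) (.cons (.rel (nat_lit 17247044097)) .nil)) .nil)) (.node .leaf (nat_lit 22612891279901959) (.br (nat_lit 6) (.cons (.br (nat_lit 0) (.cons (.rel (nat_lit 17184063636)) (.cons (.rel (nat_lit 17184067617)) .nil))) .nil)) .leaf))) (nat_lit 22612891279902099) (.br (nat_lit 2) (.cons (.br (nat_lit 6) (.cons (.rel (nat_lit 17314103298)) (.cons (.rel (nat_lit 17247241536)) .nil))) .nil)) (.node (.node (.node (.node .leaf (nat_lit 22612891280047330) (.br (nat_lit 0) (.cons (.br (nat_lit 1) (.cons (.rel (nat_lit 25169922)) .nil)) .nil)) .leaf) (nat_lit 22612891280116999) (.br (nat_lit 1) (.cons (.br (nat_lit 3) (.cons (.rel (nat_lit 285212769)) .nil)) .nil)) .leaf)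 (nat_lit 22612891281070215) (.br (nat_lit 2) (.cons (.br (nat_lit 3) (.cons (.rel (nat_lit 335544912)) .nil)) .nil)) (.node .leaf (nat_lit 22612891920313607) (.br (nat_lit 0) (.cons (.br (nat_lit 6) (.cons (.rel (nat_lit 17184063636)) .nil)) .nil)) .leaf)) (nat_lit 22613530155481744) (.br (nat_lit 2) (.cons (.br (nat_lit 4) (.cons (.rel (nat_lit 1141901376)) .nil)) .nil)) (.node (.node (.node .leaf (nat_lit 22613530679514375) (.br (nat_lit 0) (.cons (.br (nat_lit 1) (.cons (.rel (nat_lit 25169922)) .nil)) .nil)) .leaf) (nat_lit 22613538562146354) (.br (nat_lit 0) (.cons (.br (nat_lit 1) (.cons (.rel (nat_lit 37749828)) .nil)) .nil)) .leaf) (nat_lit 22613561935210772) (.br (nat_lit 6) (.cons (.br (nat_lit 1) (.cons (.rel (nat_lit 34376515908)) (.cons (.rel (nat_lit 17196646473)) .nil))) .nil)) (.node .leaf (nat_lit 22613561935210773) (.br (nat_lit 0) (.cons (.br (nat_lit 6) (.cons (.rel (nat_lit 17184064641)) .nil)) .nil)) .leaf)))) (nat_lit 22613561935211306) (.br (nat_lit 1) (.cons (.br (nat_lit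 2) (.cons (.rel (nat_lit 167772240)) .nil)) .nil)) (.node (.node (.node (.node (.node .leaf (nat_lit 22613561935211783) (.br (nat_lit 6) (.cons (.br (nat_lit 0) (.cons (.rel (nat_lit 17184064641)) (.cons (.rel (nat_lit 17184064641)) .nil))) .nil)) .leaf) (nat_lit 22613561936481787) (.br (nat_lit 0) (.cons (.br (nat_lit 3) (.cons (.rel (nat_lit 272648196)) .nil)) .nil)) .leaf) (nat_lit 22613561936527986) (.br (nat_lit 0) (.cons (.br (nat_lit 1) (.cons (.rel (nat_lit 20972805)) .nil)) .nil)) (.node (.node .leaf (nat_lit 22613561936748027) (.br (nat_lit 0) (.cons (.br (nat_lit 5) (.cons (.rel (nat_lit 4299444225)) .nil)) .nil)) .leaf) (nat_lit 22613561936788206) (.br (nat_lit 0) (.cons (.br (nat_lit 1) (.cons (.rel (nat_lit 21008640)) .nil)) .nil)) .leaf)) (nat_lit 22613561936982026) (.br (nat_lit 0) (.cons (.br (nat_lit 1) (.cons (.rel (nat_lit 20971800)) .nil)) .nil)) (.node (.node (.node .leaf (nat_lit 22613561936982203) (.br (nat_lit 4) (.cons (.br (nat_lit 5) (.cons (.rel (nat_lit 5368709145))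 .nil)) .nil)) .leaf) (nat_lit 22613561936982293) (.br (nat_lit 0) (.cons (.br (nat_lit 1) (.cons (.rel (nat_lit 20972805)) (.cons (.rel (nat_lit 20988225)) .nil))) (.cons (.br (nat_lit 1) (.cons (.rel (nat_lit 21233670)) (.cons (.rel (nat_lit 21234720)) .nil))) .nil))) .leaf) (nat_lit 22613561936982771) (.br (nat_lit 0) (.cons (.br (nat_lit 4) (.cons (.rel (nat_lit 1077938178)) .nil)) .nil)) (.node .leaf (nat_lit 22613561936982796) (.br (nat_lit 0) (.cons (.br (nat_lit 4) (.cons (.rel (nat_lit 1077938178)) .nil)) .nil)) .leaf))) (nat_lit 22613561936982797) (.br (nat_lit 4) (.cons (.br (nat_lit 5) (.cons (.rel (nat_lit 5368711200)) .nil)) .nil)) (.node (.node (.node (.node .leaf (nat_lit 22613561936982827) (.br (nat_lit 1) (.cons (.br (nat_lit 2) (.cons (.rel (nat_lit 83886240)) .nil)) .nil)) .leaf) (nat_lit 22613561936982922) (.br (nat_lit 2) (.cons (.br (nat_lit 0) (.cons (.rel (nat_lit 142606341)) (.cons (.rel (nat_lit 71303178)) .nil))) .nil)) .leaf) (nat_lit 22613561936983303) (.br (nat_lit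 0) (.cons (.br (nat_lit 2) (.cons (.rel (nat_lit 71304228)) (.cons (.rel (nat_lit 71828745)) .nil))) (.cons (.br (nat_lit 2) (.cons (.rel (nat_lit 142606341)) (.cons (.rel (nat_lit 71385093)) .nil))) .nil))) (.node .leaf (nat_lit 22613561936983417) (.br (nat_lit 4) (.cons (.br (nat_lit 5) (.cons (.rel (nat_lit 5368971780)) (.cons (.rel (nat_lit 5368709145)) .nil))) .nil)) .leaf)) (nat_lit 22613561937797307) (.br (nat_lit 0) (.cons (.br (nat_lit 3) (.cons (.rel (nat_lit 272634882)) .nil)) .nil)) (.node (.node (.node .leaf (nat_lit 22613561937798651) (.br (nat_lit 1) (.cons (.br (nat_lit 3) (.cons (.rel (nat_lit 285230208)) .nil)) .nil)) .leaf) (nat_lit 22613561938016533) (.br (nat_lit 2) (.cons (.br (nat_lit 6) (.cons (.rel (nat_lit 17314092048)) .nil)) .nil)) .leaf) (nat_lit 22613561938281849) (.br (nat_lit 0) (.cons (.br (nat_lit 4) (.cons (.rel (nat_lit 1077973008)) .nil)) .nil)) (.node .leaf (nat_lit 22613561938330506) (.br (nat_lit 0) (.cons (.br (nat_lit 1) (.cons (.rel (nat_lit 20972805))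 .nil)) .nil)) .leaf)))))

/-- refutations 94 -/
def e94 : EX := (.node (.node (.node (.node .leaf (nat_lit 22613581174482976) (.br (nat_lit 0) (.cons (.br (nat_lit 2) (.cons (.rel (nat_lit 142606341)) .nil)) .nil)) .leaf) (nat_lit 22613581174483726) (.br (nat_lit 0) (.cons (.br (nat_lit 1) (.cons (.rel (nat_lit 21008640)) .nil)) .nil)) (.node .leaf (nat_lit 22613691312713215) (.br (nat_lit 1) (.cons (.br (nat_lit 4) (.cons (.rel (nat_lit 2164539456)) .nil)) .nil)) .leaf)) (nat_lit 22614005129148421) (.br (nat_lit 0) (.cons (.br (nat_lit 1) (.cons (.rel (nat_lit 25169922)) .nil)) .nil)) (.node (.node .leaf (nat_lit 22614005129461817) (.br (nat_lit 4) (.cons (.br (nat_lit 0) (.cons (.rel (nat_lit 2151712002)) (.cons (.rel (nat_lit 1077936168)) (.cons (.rel (nat_lit 1077937173)) .nil)))) .nil)) .leaf) (nat_lit 22616696619864845) (.br (nat_lit 3) (.cons (.br (nat_lit 5) (.cons (.rel (nat_lit 4563419154)) .nil)) .nil)) (.node .leaf (nat_lit 22616697542611205) (.br (nat_lit 3) (.cons (.br (nat_lit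 4) (.cons (.rel (nat_lit 1343291520)) .nil)) .nil)) .leaf))) (nat_lit 22616702294502032) (.br (nat_lit 0) (.cons (.br (nat_lit 2) (.cons (.rel (nat_lit 71304228)) .nil)) .nil)) (.node (.node (.node .leaf (nat_lit 22616794901758009) (.br (nat_lit 2) (.cons (.br (nat_lit 3) (.cons (.rel (nat_lit 335578644)) .nil)) .nil)) .leaf) (nat_lit 22616794903345453) (.br (nat_lit 0) (.cons (.br (nat_lit 3) (.cons (.rel (nat_lit 272629896)) .nil)) .nil)) (.node .leaf (nat_lit 22617170106198067) (.br (nat_lit 1) (.cons (.br (nat_lit 5) (.cons (.rel (nat_lit 8606711940)) (.cons (.rel (nat_lit 4328656896)) (.cons (.rel (nat_lit 4311826692)) .nil)))) .nil)) .leaf)) (nat_lit 22617170107776511) (.br (nat_lit 1) (.cons (.br (nat_lit 5) (.cons (.rel (nat_lit 4313841744)) .nil)) .nil)) (.node (.node .leaf (nat_lit 22617174434720556) (.br (nat_lit 2) (.cons (.br (nat_lit 3) (.cons (.rel (nat_lit 671367168)) .nil)) .nil)) .leaf) (nat_lit 22617174740904748) (.br (nat_lit 1) (.cons (.br (nat_lit 4) (.cons (.rel (nat_lit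 1090535430)) .nil)) .nil)) .leaf)))

/-- refutations 95 -/
def e95 : EX := (.node (.node (.node (.node (.node (.node .leaf (nat_lit 22617229839053077) (.br (nat_lit 0) (.cons (.br (nat_lit 3) (.cons (.rel (nat_lit 272634882)) .nil)) .nil)) .leaf) (nat_lit 22617232886540345) (.br (nat_lit 0) (.cons (.br (nat_lit 2) (.cons (.rel (nat_lit 71304228)) .nil)) .nil)) .leaf) (nat_lit 22617232886540423) (.br (nat_lit 2) (.cons (.br (nat_lit 4) (.cons (.rel (nat_lit 1140851328)) .nil)) .nil)) (.node (.node .leaf (nat_lit 22617232886540538) (.br (nat_lit 1) (.cons (.br (nat_lit 2) (.cons (.rel (nat_lit 84165120)) .nil)) .nil)) .leaf) (nat_lit 22617232886540915) (.br (nat_lit 0) (.cons (.br (nat_lit 2) (.cons (.rel (nat_lit 71305233)) .nil)) .nil)) .leaf)) (nat_lit 22617232886541538) (.br (nat_lit 2) (.cons (.br (nat_lit 5) (.cons (.rel (nat_lit 4362076200)) (.cons (.rel (nat_lit 4362076200)) .nil))) .nil)) (.node (.node (.node .leaf (nat_lit 22617232886541548) (.br (nat_lit 0) (.cons (.br (nat_lit 2)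 (.cons (.rel (nat_lit 138675264)) .nil)) .nil)) .leaf) (nat_lit 22617232886541793) (.br (nat_lit 0) (.cons (.br (nat_lit 4) (.cons (.rel (nat_lit 1077936168)) .nil)) .nil)) .leaf) (nat_lit 22617232887857902) (.br (nat_lit 1) (.cons (.br (nat_lit 2) (.cons (.rel (nat_lit 83886240)) .nil)) .nil)) (.node (.node .leaf (nat_lit 22617232888024545) (.br (nat_lit 0) (.cons (.br (nat_lit 1) (.cons (.rel (nat_lit 21041418)) .nil)) .nil)) .leaf) (nat_lit 22617232889346325) (.br (nat_lit 0) (.cons (.br (nat_lit 3) (.cons (.rel (nat_lit 541458432)) .nil)) .nil)) .leaf))) (nat_lit 22617232889347553) (.br (nat_lit 0) (.cons (.br (nat_lit 3) (.cons (.rel (nat_lit 272663616)) (.cons (.rel (nat_lit 545259588)) .nil))) (.cons (.br (nat_lit 3) (.cons (.rel (nat_lit 272633877)) (.cons (.rel (nat_lit 546325824)) .nil))) .nil))) (.node (.node (.node (.node .leaf (nat_lit 22617781652499844) (.br (nat_lit 0) (.cons (.br (nat_lit 2) (.cons (.rel (nat_lit 71827728)) .nil)) .nil)) .leaf) (nat_lit 22617781655617568) (.br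 (nat_lit 3) (.cons (.br (nat_lit 4) (.cons (.rel (nat_lit 1342177857)) .nil)) .nil)) .leaf) (nat_lit 22618047758728455) (.br (nat_lit 0) (.cons (.br (nat_lit 4) (.cons (.rel (nat_lit 2155872276)) .nil)) .nil)) (.node (.node .leaf (nat_lit 22618847324481567) (.br (nat_lit 0) (.cons (.br (nat_lit 4) (.cons (.rel (nat_lit 1077938178)) (.cons (.rel (nat_lit 2155872276)) .nil))) .nil)) .leaf) (nat_lit 22618847324481587) (.br (nat_lit 0) (.cons (.br (nat_lit 2) (.cons (.rel (nat_lit 71304228)) .nil)) .nil)) .leaf)) (nat_lit 22618847324481671) (.br (nat_lit 2) (.cons (.br (nat_lit 4) (.cons (.rel (nat_lit 1141506048)) .nil)) .nil)) (.node (.node (.node .leaf (nat_lit 22618847324481817) (.br (nat_lit 0) (.cons (.br (nat_lit 3) (.cons (.rel (nat_lit 272633877)) (.cons (.rel (nat_lit 272648196)) .nil))) .nil)) .leaf) (nat_lit 22618847324482346) (.br (nat_lit 3) (.cons (.br (nat_lit 0) (.cons (.rel (nat_lit 272629896)) (.cons (.rel (nat_lit 545259588)) .nil))) .nil)) .leaf) (nat_lit 22618847324482347)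 (.br (nat_lit 2) (.cons (.br (nat_lit 1) (.cons (.rel (nat_lit 83886240)) (.cons (.rel (nat_lit 83886240)) .nil))) .nil)) (.node (.node .leaf (nat_lit 22618847324482442) (.br (nat_lit 4) (.cons (.br (nat_lit 2) (.cons (.rel (nat_lit 1140851328)) (.cons (.rel (nat_lit 1141901376)) (.cons (.rel (nat_lit 1141117188)) .nil)))) (.cons (.br (nat_lit 6) (.cons (.rel (nat_lit 35433480276)) (.cons (.rel (nat_lit 18254659590)) (.cons (.rel (nat_lit 35434529025)) (.cons (.rel (nat_lit 36507226368)) .nil))))) .nil))) .leaf) (nat_lit 22618847324685814) (.br (nat_lit 0) (.cons (.br (nat_lit 3) (.cons (.rel (nat_lit 272629896)) .nil)) .nil)) .leaf)))) (nat_lit 22618847324738823) (.br (nat_lit 1) (.cons (.br (nat_lit 2) (.cons (.rel (nat_lit 83890185)) .nil)) .nil)) (.node (.node (.node (.node (.node .leaf (nat_lit 22618847324921867) (.br (nat_lit 0) (.cons (.br (nat_lit 3) (.cons (.rel (nat_lit 272633877)) (.cons (.rel (nat_lit 272663616)) .nil))) .nil)) .leaf) (nat_lit 22618847324921907) (.br (nat_lit 2)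 (.cons (.br (nat_lit 3) (.cons (.rel (nat_lit 336592905)) .nil)) .nil)) .leaf) (nat_lit 22618847324993567) (.br (nat_lit 2) (.cons (.br (nat_lit 5) (.cons (.rel (nat_lit 4362078210)) (.cons (.rel (nat_lit 4362077205)) .nil))) (.cons (.br (nat_lit 5) (.cons (.rel (nat_lit 8724153345)) (.cons (.rel (nat_lit 4362092625)) .nil))) .nil))) (.node (.node .leaf (nat_lit 22618847324993587) (.br (nat_lit 0) (.cons (.br (nat_lit 2) (.cons (.rel (nat_lit 71319648)) .nil)) .nil)) .leaf) (nat_lit 22618847324993718) (.br (nat_lit 3) (.cons (.br (nat_lit 1) (.cons (.rel (nat_lit 555749376)) (.cons (.rel (nat_lit 285214788)) .nil))) .nil)) .leaf)) (nat_lit 22618847324994192) (.br (nat_lit 6) (.cons (.br (nat_lit 0) (.cons (.rel (nat_lit 17184067617)) (.cons (.rel (nat_lit 17184137232)) (.cons (.rel (nat_lit 34364199936)) .nil)))) (.cons (.br (nat_lit 0) (.cons (.rel (nat_lit 17184063636)) (.cons (.rel (nat_lit 17184081936)) (.cons (.br (nat_lit 2) (.cons (.rel (nat_lit 17314095168)) (.cons (.rel (nat_lit 17248108560))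 (.cons (.rel (nat_lit 34426848336)) (.cons (.rel (nat_lit 34426848336)) (.cons (.rel (nat_lit 71303178)) (.cons (.rel (nat_lit 71467008)) .nil))))))) .nil)))) .nil))) (.node (.node (.node .leaf (nat_lit 22618847324994462) (.br (nat_lit 0) (.cons (.br (nat_lit 2) (.cons (.rel (nat_lit 71304228)) .nil)) .nil)) .leaf) (nat_lit 22618847324994797) (.br (nat_lit 0) (.cons (.br (nat_lit 4) (.cons (.rel (nat_lit 1077936168)) .nil)) .nil)) .leaf) (nat_lit 22618847324995073) (.br (nat_lit 2) (.cons (.br (nat_lit 3) (.cons (.rel (nat_lit 336594960)) .nil)) .nil)) (.node (.node .leaf (nat_lit 22618847325034507) (.br (nat_lit 3) (.cons (.br (nat_lit 5) (.cons (.rel (nat_lit 4563404928)) .nil)) .nil)) .leaf) (nat_lit 22618847325954954) (.br (nat_lit 3) (.cons (.br (nat_lit 5) (.cons (.rel (nat_lit 4563406854)) .nil)) .nil)) .leaf))) (nat_lit 22618847326261529) (.br (nat_lit 1) (.cons (.br (nat_lit 2) (.cons (.rel (nat_lit 83984400)) .nil)) .nil)) (.node (.node (.node (.node .leaf (nat_lit 22618847327492146)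 (.br (nat_lit 0) (.cons (.br (nat_lit 2) (.cons (.rel (nat_lit 71304228)) .nil)) .nil)) .leaf) (nat_lit 22618849975538570) (.br (nat_lit 0) (.cons (.br (nat_lit 1) (.cons (.rel (nat_lit 25169922)) .nil)) .nil)) .leaf) (nat_lit 22619113428140308) (.br (nat_lit 2) (.cons (.br (nat_lit 3) (.cons (.rel (nat_lit 335872272)) .nil)) .nil)) (.node (.node .leaf (nat_lit 22619113429676782) (.br (nat_lit 0) (.cons (.br (nat_lit 6) (.cons (.rel (nat_lit 17186684928)) .nil)) .nil)) .leaf) (nat_lit 22619113429676812) (.br (nat_lit 0) (.cons (.br (nat_lit 1) (.cons (.rel (nat_lit 21008640)) .nil)) .nil)) .leaf)) (nat_lit 22619113429677433) (.br (nat_lit 0) (.cons (.br (nat_lit 3) (.cons (.rel (nat_lit 272715792)) .nil)) .nil)) (.node (.node (.node .leaf (nat_lit 22619113430391060) (.br (nat_lit 2) (.cons (.br (nat_lit 3) (.cons (.rel (nat_lit 402670608)) .nil)) .nil)) .leaf) (nat_lit 22619113430392289) (.br (nat_lit 5) (.cons (.br (nat_lit 0) (.cons (.rel (nat_lit 4301275152)) (.cons (.rel (nat_lit 4299162945))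 .nil))) .nil)) .leaf) (nat_lit 22619113431024242) (.br (nat_lit 0) (.cons (.br (nat_lit 1) (.cons (.rel (nat_lit 22560768)) .nil)) .nil)) (.node .leaf (nat_lit 22619115510866072) (.br (nat_lit 0) (.cons (.br (nat_lit 2) (.cons (.rel (nat_lit 71304228)) .nil)) .nil)) .leaf)))))

/-- refutations 96 -/
def e96 : EX := (.node .leaf (nat_lit 22531109569420670) (.br (nat_lit 0) (.cons (.br (nat_lit 3) (.cons (.rel (nat_lit 545260641)) .nil)) .nil)) .leaf)

/-- refutations 97 -/
def e97 : EX := (.node (.node (.node (.node .leaf (nat_lit 22624729128488199) (.br (nat_lit 4) (.cons (.br (nat_lit 6) (.cons (.rel (nat_lit 18254659590)) .nil)) .nil)) .leaf) (nat_lit 22625163447184867) (.br (nat_lit 2) (.cons (.br (nat_lit 3) (.cons (.rel (nat_lit 402653313)) .nil)) .nil)) (.node .leaf (nat_lit 22631156184852511) (.br (nat_lit 0) (.cons (.br (nat_lit 1) (.cons (.rel (nat_lit 20988225)) .nil)) .nil)) .leaf)) (nat_lit 22631156184853767) (.br (nat_lit 0) (.cons (.br (nat_lit 1) (.cons (.rel (nat_lit 25169922))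 .nil)) .nil)) (.node (.node .leaf (nat_lit 22635380117416242) (.br (nat_lit 1) (.cons (.br (nat_lit 2) (.cons (.rel (nat_lit 84165120)) .nil)) .nil)) .leaf) (nat_lit 22635380117416586) (.br (nat_lit 3) (.cons (.br (nat_lit 6) (.cons (.rel (nat_lit 17716756545)) .nil)) .nil)) .leaf)) (nat_lit 22635380117929471) (.br (nat_lit 0) (.cons (.br (nat_lit 1) (.cons (.rel (nat_lit 20971800)) .nil)) .nil)) (.node (.node (.node .leaf (nat_lit 22635382432672394) (.br (nat_lit 2) (.cons (.br (nat_lit 3) (.cons (.rel (nat_lit 603979842)) .nil)) .nil)) .leaf) (nat_lit 22635382432672430) (.br (nat_lit 0) (.cons (.br (nat_lit 5) (.cons (.rel (nat_lit 4299489300)) .nil)) .nil)) (.node .leaf (nat_lit 22635382432672681) (.br (nat_lit 0) (.cons (.br (nat_lit 1) (.cons (.rel (nat_lit 20972805)) .nil)) .nil)) .leaf)) (nat_lit 22635382432673031) (.br (nat_lit 6) (.cons (.br (nat_lit 0) (.cons (.rel (nat_lit 17184069636)) (.cons (.rel (nat_lit 17184067617)) .nil))) .nil)) (.node (.node .leaf (nat_lit 22635385469348597)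 (.br (nat_lit 3) (.cons (.br (nat_lit 6) (.cons (.rel (nat_lit 34628173860)) .nil)) .nil)) .leaf) (nat_lit 22635385469349347) (.br (nat_lit 0) (.cons (.br (nat_lit 3) (.cons (.rel (nat_lit 545259588)) .nil)) .nil)) .leaf)))

/-- refutations 99 -/
def e99 : EX := (.node (.node (.node (.node .leaf (nat_lit 22912629099737999) (.br (nat_lit 0) (.cons (.br (nat_lit 2) (.cons (.rel (nat_lit 71303178)) .nil)) .nil)) .leaf) (nat_lit 22916068079118986) (.br (nat_lit 3) (.cons (.br (nat_lit 5) (.cons (.rel (nat_lit 4563488769)) .nil)) .nil)) (.node .leaf (nat_lit 22916068079119647) (.br (nat_lit 0) (.cons (.br (nat_lit 3) (.cons (.rel (nat_lit 272633877)) .nil)) .nil)) .leaf)) (nat_lit 22916068081605919) (.br (nat_lit 0) (.cons (.br (nat_lit 1) (.cons (.rel (nat_lit 20971800)) .nil)) .nil)) (.node (.node .leaf (nat_lit 22916068081606143) (.br (nat_lit 0) (.cons (.br (nat_lit 1) (.cons (.rel (nat_lit 25169922)) .nil)) .nil)) .leaf) (nat_lit 22916068081882619) (.br (nat_lit 2) (.cons (.br (nat_lit 4)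 (.cons (.rel (nat_lit 1140851328)) .nil)) .nil)) .leaf)) (nat_lit 22916068081964295) (.br (nat_lit 0) (.cons (.br (nat_lit 3) (.cons (.rel (nat_lit 272634882)) .nil)) .nil)) (.node (.node (.node .leaf (nat_lit 22917365159241905) (.br (nat_lit 1) (.cons (.br (nat_lit 4) (.cons (.rel (nat_lit 1090536480)) .nil)) .nil)) .leaf) (nat_lit 22917365159241983) (.br (nat_lit 1) (.cons (.br (nat_lit 3) (.cons (.rel (nat_lit 285278214)) .nil)) .nil)) (.node .leaf (nat_lit 22917365159242983) (.br (nat_lit 0) (.cons (.br (nat_lit 4) (.cons (.rel (nat_lit 2155873281)) .nil)) .nil)) .leaf)) (nat_lit 22917365162087687) (.br (nat_lit 1) (.cons (.br (nat_lit 4) (.cons (.rel (nat_lit 1090536480)) .nil)) .nil)) (.node (.node .leaf (nat_lit 22917365259906311) (.br (nat_lit 1) (.cons (.br (nat_lit 5) (.cons (.rel (nat_lit 4328587281)) .nil)) .nil)) .leaf) (nat_lit 22918223620588807) (.br (nat_lit 4) (.cons (.br (nat_lit 1) (.cons (.rel (nat_lit 2181103620)) (.cons (.rel (nat_lit 1090535430)) .nil))) .nil)) .leaf)))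

/-- refutations 100 -/
def e100 : EX := (.node .leaf (nat_lit 23081048980139241) (.br (nat_lit 0) (.cons (.br (nat_lit 2) (.cons (.rel (nat_lit 71304228)) .nil)) .nil)) .leaf)

/-- refutations 101 -/
def e101 : EX := (.node (.node (.node .leaf (nat_lit 23091903926971655) (.br (nat_lit 0) (.cons (.br (nat_lit 1) (.cons (.rel (nat_lit 20972805)) .nil)) .nil)) .leaf) (nat_lit 23091903926971679) (.br (nat_lit 3) (.cons (.br (nat_lit 4) (.cons (.rel (nat_lit 1342198272)) .nil)) .nil)) (.node .leaf (nat_lit 23091903927175474) (.br (nat_lit 0) (.cons (.br (nat_lit 1) (.cons (.rel (nat_lit 20973858)) .nil)) .nil)) .leaf)) (nat_lit 23091988889792543) (.br (nat_lit 0) (.cons (.br (nat_lit 3) (.cons (.rel (nat_lit 545259588)) .nil)) .nil)) (.node (.node .leaf (nat_lit 23091989981505591) (.br (nat_lit 3) (.cons (.br (nat_lit 4) (.cons (.rel (nat_lit 1342198272)) .nil)) .nil)) .leaf) (nat_lit 23091989981506293) (.br (nat_lit 3) (.cons (.br (nat_lit 4) (.cons (.rel (nat_lit 1343226900)) .nil)) .nil)) (.node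 .leaf (nat_lit 23091989981506823) (.br (nat_lit 2) (.cons (.br (nat_lit 3) (.cons (.rel (nat_lit 335544912)) .nil)) .nil)) .leaf)))

/-- refutations 103 -/
def e103 : EX := (.node .leaf (nat_lit 23056717189294107) (.br (nat_lit 1) (.cons (.br (nat_lit 4) (.cons (.rel (nat_lit 1090619412)) .nil)) .nil)) .leaf)

/-- refutations 104 -/
def e104 : EX := (.node (.node (.node (.node .leaf (nat_lit 24207105930112263) (.br (nat_lit 0) (.cons (.br (nat_lit 2) (.cons (.rel (nat_lit 71304228)) .nil)) .nil)) .leaf) (nat_lit 24208225223613726) (.br (nat_lit 0) (.cons (.br (nat_lit 2) (.cons (.rel (nat_lit 71305233)) .nil)) .nil)) .leaf) (nat_lit 24214667674290338) (.br (nat_lit 0) (.cons (.br (nat_lit 2) (.cons (.rel (nat_lit 71374848)) .nil)) .nil)) (.node .leaf (nat_lit 24217888898493703) (.br (nat_lit 1) (.cons (.br (nat_lit 2) (.cons (.rel (nat_lit 83892240)) .nil)) .nil)) .leaf)) (nat_lit 24217888898493951) (.br (nat_lit 0) (.cons (.br (nat_lit 1) (.cons (.rel (nat_lit 21237840)) .nil)) .nil)) (.node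 (.node (.node .leaf (nat_lit 24217888898493952) (.br (nat_lit 0) (.cons (.br (nat_lit 3) (.cons (.rel (nat_lit 272629896)) .nil)) .nil)) .leaf) (nat_lit 24217888900056577) (.br (nat_lit 0) (.cons (.br (nat_lit 1) (.cons (.rel (nat_lit 21233670)) .nil)) .nil)) .leaf) (nat_lit 24217888900060423) (.br (nat_lit 0) (.cons (.br (nat_lit 1) (.cons (.rel (nat_lit 23134212)) .nil)) .nil)) (.node .leaf (nat_lit 24217888901288111) (.br (nat_lit 4) (.cons (.br (nat_lit 6) (.cons (.rel (nat_lit 18253619712)) .nil)) .nil)) .leaf)))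

/-- refutations 105 -/
def e105 : EX := (.node (.node (.node (.node .leaf (nat_lit 24806361997317482) (.br (nat_lit 0) (.cons (.br (nat_lit 1) (.cons (.rel (nat_lit 20972805)) .nil)) .nil)) .leaf) (nat_lit 24807571773001884) (.br (nat_lit 0) (.cons (.br (nat_lit 3) (.cons (.rel (nat_lit 545259588)) .nil)) .nil)) .leaf) (nat_lit 24807571773002539) (.br (nat_lit 1) (.cons (.br (nat_lit 3) (.cons (.rel (nat_lit 285278214)) (.cons (.rel (nat_lit 285214788)) .nil))) .nil)) (.node .leaf (nat_lit 24810406451161988) (.br (nat_lit 0) (.cons (.br (nat_lit 3) (.cons (.rel (nat_lit 277086528)) .nil)) .nil)) .leaf)) (nat_lit 24810406451417738) (.br (nat_lit 1) (.cons (.br (nat_lit 2) (.cons (.rel (nat_lit 83886240)) .nil)) .nil)) (.node (.node (.node .leaf (nat_lit 24810457990769296) (.br (nat_lit 2) (.cons (.br (nat_lit 0) (.cons (.rel (nat_lit 76566528)) (.cons (.rel (nat_lit 142606341)) .nil))) .nil)) .leaf) (nat_lit 24810457991024921) (.br (nat_lit 0) (.cons (.br (nat_lit 2) (.cons (.rel (nat_lit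 71305233)) .nil)) .nil)) .leaf) (nat_lit 24810457991025326) (.br (nat_lit 0) (.cons (.br (nat_lit 2) (.cons (.rel (nat_lit 71307348)) .nil)) .nil)) (.node .leaf (nat_lit 24810586840044331) (.br (nat_lit 0) (.cons (.br (nat_lit 1) (.cons (.rel (nat_lit 37749828)) .nil)) .nil)) .leaf)))

/-- refutations 106 -/
def e106 : EX := (.node (.node .leaf (nat_lit 24815725222898320) (.br (nat_lit 3) (.cons (.br (nat_lit 5) (.cons (.rel (nat_lit 4563404928)) .nil)) .nil)) .leaf) (nat_lit 24817026146540176) (.br (nat_lit 0) (.cons (.br (nat_lit 3) (.cons (.rel (nat_lit 545259588)) .nil)) .nil)) (.node .leaf (nat_lit 24817026146540926) (.br (nat_lit 0) (.cons (.br (nat_lit 2) (.cons (.rel (nat_lit 142606341)) .nil)) .nil)) .leaf))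

/-- refutations 107 -/
def e107 : EX := (.node (.node .leaf (nat_lit 25086506774034463) (.br (nat_lit 2) (.cons (.br (nat_lit 4) (.cons (.rel (nat_lit 1141117188)) .nil)) .nil)) .leaf) (nat_lit 25087832469540103) (.br (nat_lit 0) (.cons (.br (nat_lit 1) (.cons (.rel (nat_lit 20971800)) .nil)) .nil)) .leaf)

/-- refutations 108 -/
def e108 : EX := (.node (.node (.node .leaf (nat_lit 25089057984608287) (.br (nat_lit 3) (.cons (.br (nat_lit 0) (.cons (.rel (nat_lit 545281056)) (.cons (.rel (nat_lit 545259588)) .nil))) .nil)) .leaf) (nat_lit 25089057984609038) (.br (nat_lit 0) (.cons (.br (nat_lit 3) (.cons (.rel (nat_lit 272629896)) .nil)) .nil)) (.node .leaf (nat_lit 25092049482367913) (.br (nat_lit 0) (.cons (.br (nat_lit 3) (.cons (.rel (nat_lit 545260641)) .nil)) .nil)) .leaf)) (nat_lit 25092994774801919) (.br (nat_lit 0) (.cons (.br (nat_lit 3) (.cons (.rel (nat_lit 272663616)) .nil)) .nil)) (.node (.node .leaf (nat_lit 25093389512164265) (.br (nat_lit 3) (.cons (.br (nat_lit 6) (.cons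 (.rel (nat_lit 34896871425)) .nil)) .nil)) .leaf) (nat_lit 25093390154346522) (.br (nat_lit 0) (.cons (.br (nat_lit 1) (.cons (.rel (nat_lit 20988225)) .nil)) .nil)) .leaf))

/-- refutations 109 -/
def e109 : EX := (.node (.node (.node (.node .leaf (nat_lit 25097498097422972) (.br (nat_lit 1) (.cons (.br (nat_lit 2) (.cons (.rel (nat_lit 101187588)) .nil)) .nil)) .leaf) (nat_lit 25097498098443666) (.br (nat_lit 3) (.cons (.br (nat_lit 4) (.cons (.rel (nat_lit 1342702656)) .nil)) .nil)) (.node .leaf (nat_lit 25097498098661407) (.br (nat_lit 0) (.cons (.br (nat_lit 3) (.cons (.rel (nat_lit 272648196)) .nil)) .nil)) .leaf)) (nat_lit 25097498098662911) (.br (nat_lit 0) (.cons (.br (nat_lit 2) (.cons (.rel (nat_lit 71303178)) .nil)) .nil)) (.node (.node .leaf (nat_lit 25097727552256782) (.br (nat_lit 0) (.cons (.br (nat_lit 2) (.cons (.rel (nat_lit 71305233)) .nil)) .nil)) .leaf) (nat_lit 25097728071316138) (.br (nat_lit 0) (.cons (.br (nat_lit 1) (.cons (.rel (nat_lit 20971800)) .nil)) .nil))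 (.node .leaf (nat_lit 25097728074190087) (.br (nat_lit 0) (.cons (.br (nat_lit 1) (.cons (.rel (nat_lit 20971800)) .nil)) .nil)) .leaf))) (nat_lit 25097728075221268) (.br (nat_lit 0) (.cons (.br (nat_lit 3) (.cons (.rel (nat_lit 272629896)) .nil)) .nil)) (.node (.node (.node .leaf (nat_lit 25097730025573639) (.br (nat_lit 0) (.cons (.br (nat_lit 1) (.cons (.rel (nat_lit 20988225)) .nil)) .nil)) .leaf) (nat_lit 25097730027107835) (.br (nat_lit 0) (.cons (.br (nat_lit 2) (.cons (.rel (nat_lit 71303178)) (.cons (.rel (nat_lit 71304228)) .nil))) .nil)) (.node .leaf (nat_lit 25097731119254284) (.br (nat_lit 0) (.cons (.br (nat_lit 5) (.cons (.rel (nat_lit 4299423810)) .nil)) .nil)) .leaf)) (nat_lit 25097731120029972) (.br (nat_lit 1) (.cons (.br (nat_lit 2) (.cons (.rel (nat_lit 83902485)) .nil)) .nil)) (.node (.node .leaf (nat_lit 25097731120286633) (.br (nat_lit 0) (.cons (.br (nat_lit 1) (.cons (.rel (nat_lit 21233670)) .nil)) .nil)) .leaf) (nat_lit 25097731121821050) (.br (nat_lit 2) (.cons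 (.br (nat_lit 1) (.cons (.rel (nat_lit 83903490)) (.cons (.rel (nat_lit 83903490)) .nil))) .nil)) .leaf)))

/-- refutations 112 -/
def e112 : EX := (.node (.node (.node (.node .leaf (nat_lit 26388388697417855) (.br (nat_lit 0) (.cons (.br (nat_lit 1) (.cons (.rel (nat_lit 21008640)) .nil)) .nil)) .leaf) (nat_lit 26388554179487775) (.br (nat_lit 0) (.cons (.br (nat_lit 1) (.cons (.rel (nat_lit 20988225)) .nil)) .nil)) .leaf) (nat_lit 26388554179489031) (.br (nat_lit 0) (.cons (.br (nat_lit 2) (.cons (.rel (nat_lit 71303178)) .nil)) .nil)) (.node .leaf (nat_lit 26394123578106012) (.br (nat_lit 2) (.cons (.br (nat_lit 3) (.cons (.rel (nat_lit 336592905)) .nil)) .nil)) .leaf)) (nat_lit 26394776249117554) (.br (nat_lit 0) (.cons (.br (nat_lit 1) (.cons (.rel (nat_lit 21054720)) .nil)) .nil)) (.node (.node .leaf (nat_lit 26394776412696085) (.br (nat_lit 0) (.cons (.br (nat_lit 1) (.cons (.rel (nat_lit 20971800)) .nil)) .nil)) .leaf) (nat_lit 26394951407447303) (.br (nat_lit 2) (.cons (.br (nat_lit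 3) (.cons (.rel (nat_lit 402673728)) .nil)) .nil)) (.node .leaf (nat_lit 26395260494097669) (.br (nat_lit 0) (.cons (.br (nat_lit 1) (.cons (.rel (nat_lit 23134212)) .nil)) .nil)) .leaf)))

/-- refutations 113 -/
def e113 : EX := (.node (.node (.node (.node (.node .leaf (nat_lit 26401467803969547) (.br (nat_lit 0) (.cons (.br (nat_lit 2) (.cons (.rel (nat_lit 71303178)) (.cons (.rel (nat_lit 71305233)) .nil))) (.cons (.br (nat_lit 2) (.cons (.rel (nat_lit 142688256)) (.cons (.rel (nat_lit 71305233)) .nil))) .nil))) .leaf) (nat_lit 26401467803969568) (.br (nat_lit 0) (.cons (.br (nat_lit 2) (.cons (.rel (nat_lit 71305233)) .nil)) .nil)) (.node .leaf (nat_lit 26401467803970163) (.br (nat_lit 0) (.cons (.br (nat_lit 4) (.cons (.rel (nat_lit 1077938178)) .nil)) .nil)) .leaf)) (nat_lit 26401467803970346) (.br (nat_lit 1) (.cons (.br (nat_lit 3) (.cons (.rel (nat_lit 285278214)) .nil)) .nil)) (.node (.node .leaf (nat_lit 26401467803970418) (.br (nat_lit 6) (.cons (.br (nat_lit 2) (.cons (.rel (nat_lit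 17248027650)) (.cons (.rel (nat_lit 34426848336)) .nil))) .nil)) .leaf) (nat_lit 26401467803970446) (.br (nat_lit 2) (.cons (.br (nat_lit 4) (.cons (.rel (nat_lit 1141901376)) .nil)) .nil)) .leaf)) (nat_lit 26401467804409867) (.br (nat_lit 3) (.cons (.br (nat_lit 4) (.cons (.rel (nat_lit 1610621952)) (.cons (.rel (nat_lit 1610612832)) .nil))) (.cons (.br (nat_lit 4) (.cons (.rel (nat_lit 2415935493)) (.cons (.rel (nat_lit 1343226900)) .nil))) .nil))) (.node (.node (.node .leaf (nat_lit 26401467804410032) (.br (nat_lit 2) (.cons (.br (nat_lit 4) (.cons (.rel (nat_lit 2214675462)) .nil)) .nil)) .leaf) (nat_lit 26401467804410033) (.br (nat_lit 0) (.cons (.br (nat_lit 5) (.cons (.rel (nat_lit 4299161940)) .nil)) .nil)) .leaf) (nat_lit 26401467804410738) (.br (nat_lit 0) (.cons (.br (nat_lit 2) (.cons (.rel (nat_lit 142606341)) (.cons (.rel (nat_lit 71308353)) .nil))) .nil)) (.node (.node .leaf (nat_lit 26401467804411111) (.br (nat_lit 4) (.cons (.br (nat_lit 2) (.cons (.rel (nat_lit 1141964802))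 (.cons (.rel (nat_lit 2214592530)) .nil))) .nil)) .leaf) (nat_lit 26401467804411242) (.br (nat_lit 0) (.cons (.br (nat_lit 2) (.cons (.rel (nat_lit 71308353)) .nil)) .nil)) .leaf))) (nat_lit 26401467804481547) (.br (nat_lit 0) (.cons (.br (nat_lit 2) (.cons (.rel (nat_lit 71304228)) (.cons (.rel (nat_lit 142606341)) .nil))) .nil)) (.node (.node (.node (.node .leaf (nat_lit 26401467805494503) (.br (nat_lit 1) (.cons (.br (nat_lit 2) (.cons (.rel (nat_lit 167772240)) .nil)) .nil)) .leaf) (nat_lit 26401467971741848) (.br (nat_lit 3) (.cons (.br (nat_lit 4) (.cons (.rel (nat_lit 1342177857)) .nil)) .nil)) .leaf) (nat_lit 26401467971742977) (.br (nat_lit 3) (.cons (.br (nat_lit 4) (.cons (.rel (nat_lit 1343230020)) .nil)) .nil)) (.node (.node .leaf (nat_lit 26401467971742982) (.br (nat_lit 0) (.cons (.br (nat_lit 3) (.cons (.rel (nat_lit 272629896)) .nil)) .nil)) .leaf) (nat_lit 26401467971743102) (.br (nat_lit 4) (.cons (.br (nat_lit 0) (.cons (.rel (nat_lit 1077936168)) (.cons (.rel (nat_lit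 1077940293)) .nil))) .nil)) .leaf)) (nat_lit 26401467971743106) (.br (nat_lit 0) (.cons (.br (nat_lit 5) (.cons (.rel (nat_lit 4300210689)) (.cons (.rel (nat_lit 4299161940)) (.cons (.rel (nat_lit 4300210689)) .nil)))) .nil)) (.node (.node (.node .leaf (nat_lit 26401467973225385) (.br (nat_lit 3) (.cons (.br (nat_lit 1) (.cons (.rel (nat_lit 285230208)) (.cons (.rel (nat_lit 285214788)) .nil))) .nil)) .leaf) (nat_lit 26401467973309703) (.br (nat_lit 0) (.cons (.br (nat_lit 1) (.cons (.br (nat_lit 5) (.cons (.rel (nat_lit 8594128914)) (.cons (.rel (nat_lit 4311746832)) .nil))) .nil)) .nil)) .leaf) (nat_lit 26401467973327000) (.br (nat_lit 0) (.cons (.br (nat_lit 2) (.cons (.rel (nat_lit 71304228)) .nil)) .nil)) (.node (.node .leaf (nat_lit 26401467974789930) (.br (nat_lit 0) (.cons (.br (nat_lit 1) (.cons (.rel (nat_lit 37756929)) (.cons (.rel (nat_lit 21234720)) .nil))) .nil)) .leaf) (nat_lit 26401471146829976) (.br (nat_lit 0) (.cons (.br (nat_lit 3) (.cons (.rel (nat_lit 272896512)) .nil))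 .nil)) .leaf))))

/-- refutations 114 -/
def e114 : EX := (.node (.node (.node .leaf (nat_lit 25291150207822480) (.br (nat_lit 1) (.cons (.br (nat_lit 2) (.cons (.rel (nat_lit 83903490)) .nil)) .nil)) .leaf) (nat_lit 25292017065808007) (.br (nat_lit 0) (.cons (.br (nat_lit 1) (.cons (.rel (nat_lit 37756929)) .nil)) .nil)) (.node .leaf (nat_lit 25292859603744903) (.br (nat_lit 2) (.cons (.br (nat_lit 4) (.cons (.rel (nat_lit 1141907472)) .nil)) .nil)) .leaf)) (nat_lit 25292859603745424) (.br (nat_lit 2) (.cons (.br (nat_lit 3) (.cons (.rel (nat_lit 335544912)) (.cons (.rel (nat_lit 603981909)) .nil))) (.cons (.br (nat_lit 3) (.cons (.rel (nat_lit 603979842)) (.cons (.rel (nat_lit 603979842)) .nil))) .nil))) (.node (.node .leaf (nat_lit 25292859603745525) (.br (nat_lit 0) (.cons (.br (nat_lit 6) (.cons (.rel (nat_lit 17184067617)) .nil)) .nil)) .leaf) (nat_lit 25292859605012791) (.br (nat_lit 1) (.cons (.br (nat_lit 2) (.cons (.rel (nat_lit 83895360)) .nil)) .nil)) .leaf))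

/-- refutations 115 -/
def e115 : EX := (.node .leaf (nat_lit 26405972289333298) (.br (nat_lit 0) (.cons (.br (nat_lit 1) (.cons (.rel (nat_lit 37756929)) .nil)) .nil)) .leaf)

/-- refutations 116 -/
def e116 : EX := (.node (.node (.node (.node (.node .leaf (nat_lit 26511467452901511) (.br (nat_lit 3) (.cons (.br (nat_lit 5) (.cons (.rel (nat_lit 4563406854)) .nil)) .nil)) .leaf) (nat_lit 26511470489577607) (.br (nat_lit 0) (.cons (.br (nat_lit 3) (.cons (.rel (nat_lit 272648196)) .nil)) .nil)) .leaf) (nat_lit 26511470492696763) (.br (nat_lit 1) (.cons (.br (nat_lit 3) (.cons (.rel (nat_lit 285279264)) .nil)) .nil)) (.node (.node .leaf (nat_lit 26511473840826503) (.br (nat_lit 2) (.cons (.br (nat_lit 3) (.cons (.rel (nat_lit 402653313)) .nil)) .nil)) .leaf) (nat_lit 26511473840827654) (.br (nat_lit 2) (.cons (.br (nat_lit 0) (.cons (.rel (nat_lit 71303178)) (.cons (.rel (nat_lit 71307348)) .nil))) .nil)) .leaf)) (nat_lit 26511473842309255) (.br (nat_lit 0) (.cons (.br (nat_lit 1) (.cons (.rel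 (nat_lit 21234720)) (.cons (.rel (nat_lit 21237840)) .nil))) .nil)) (.node (.node (.node .leaf (nat_lit 26511473843312827) (.br (nat_lit 0) (.cons (.br (nat_lit 2) (.cons (.rel (nat_lit 76546113)) .nil)) .nil)) .leaf) (nat_lit 26511473843632378) (.br (nat_lit 2) (.cons (.br (nat_lit 3) (.cons (.rel (nat_lit 337645824)) .nil)) .nil)) .leaf) (nat_lit 26511473843633429) (.br (nat_lit 2) (.cons (.br (nat_lit 4) (.cons (.rel (nat_lit 1141964802)) .nil)) .nil)) (.node .leaf (nat_lit 26511473843845255) (.br (nat_lit 3) (.cons (.br (nat_lit 2) (.cons (.rel (nat_lit 336592905)) (.cons (.rel (nat_lit 671367168)) .nil))) .nil)) .leaf))) (nat_lit 26511473843898555) (.br (nat_lit 3) (.cons (.br (nat_lit 2) (.cons (.rel (nat_lit 402653313)) (.cons (.rel (nat_lit 604000257)) (.cons (.rel (nat_lit 605291520)) .nil)))) .nil)) (.node (.node (.node (.node .leaf (nat_lit 26511473843945659) (.br (nat_lit 4) (.cons (.br (nat_lit 5) (.cons (.rel (nat_lit 6442516737)) (.cons (.rel (nat_lit 5368717440)) .nil))) .nil))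 .leaf) (nat_lit 26511473843946758) (.br (nat_lit 0) (.cons (.br (nat_lit 3) (.cons (.rel (nat_lit 272629896)) .nil)) .nil)) .leaf) (nat_lit 26511525405601001) (.br (nat_lit 2) (.cons (.br (nat_lit 3) (.cons (.rel (nat_lit 671367168)) .nil)) .nil)) (.node .leaf (nat_lit 26512561414088038) (.br (nat_lit 3) (.cons (.br (nat_lit 4) (.cons (.rel (nat_lit 1343227905)) .nil)) .nil)) .leaf)) (nat_lit 26517017194148621) (.br (nat_lit 0) (.cons (.br (nat_lit 2) (.cons (.rel (nat_lit 71303178)) .nil)) .nil)) (.node (.node (.node .leaf (nat_lit 26517017470683411) (.br (nat_lit 0) (.cons (.br (nat_lit 1) (.cons (.rel (nat_lit 21008640)) .nil)) .nil)) .leaf) (nat_lit 26517017470683917) (.br (nat_lit 0) (.cons (.br (nat_lit 2) (.cons (.rel (nat_lit 71304228)) (.cons (.rel (nat_lit 71307348)) .nil))) .nil)) .leaf) (nat_lit 26517017470684693) (.br (nat_lit 0) (.cons (.br (nat_lit 2) (.cons (.rel (nat_lit 71308353)) .nil)) .nil)) (.node .leaf (nat_lit 26517964084770069) (.br (nat_lit 0) (.cons (.br (nat_lit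 1) (.cons (.rel (nat_lit 37749828)) .nil)) .nil)) .leaf))))

/-- refutations 117 -/
def e117 : EX := (.node (.node (.node (.node (.node .leaf (nat_lit 26518131040136454) (.br (nat_lit 0) (.cons (.br (nat_lit 2) (.cons (.rel (nat_lit 71307348)) .nil)) .nil)) .leaf) (nat_lit 26518305018743666) (.br (nat_lit 0) (.cons (.br (nat_lit 1) (.cons (.rel (nat_lit 21054720)) .nil)) .nil)) (.node .leaf (nat_lit 26518356580445447) (.br (nat_lit 1) (.cons (.br (nat_lit 0) (.cons (.rel (nat_lit 21237840)) (.cons (.rel (nat_lit 23091204)) .nil))) .nil)) .leaf)) (nat_lit 26518356581927849) (.br (nat_lit 0) (.cons (.br (nat_lit 1) (.cons (.rel (nat_lit 21234720)) .nil)) .nil)) (.node (.node .leaf (nat_lit 26518362968369287) (.br (nat_lit 0) (.cons (.br (nat_lit 3) (.cons (.rel (nat_lit 272648196)) .nil)) .nil)) .leaf) (nat_lit 26518362969852815) (.br (nat_lit 0) (.cons (.br (nat_lit 2) (.cons (.rel (nat_lit 71467008)) .nil)) .nil)) (.node .leaf (nat_lit 26518362971175849) (.br (nat_lit 0) (.cons (.br (nat_lit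 2) (.cons (.rel (nat_lit 71319648)) .nil)) .nil)) .leaf))) (nat_lit 26519027238843148) (.br (nat_lit 0) (.cons (.br (nat_lit 4) (.cons (.rel (nat_lit 2155873281)) .nil)) .nil)) (.node (.node (.node .leaf (nat_lit 26519027238843769) (.br (nat_lit 0) (.cons (.br (nat_lit 4) (.cons (.rel (nat_lit 1077936168)) .nil)) .nil)) .leaf) (nat_lit 26522462672648223) (.br (nat_lit 0) (.cons (.br (nat_lit 6) (.cons (.rel (nat_lit 17186684928)) .nil)) .nil)) (.node .leaf (nat_lit 26522462672961567) (.br (nat_lit 0) (.cons (.br (nat_lit 1) (.cons (.rel (nat_lit 23134212)) .nil)) .nil)) .leaf)) (nat_lit 26522465607628153) (.br (nat_lit 0) (.cons (.br (nat_lit 1) (.cons (.rel (nat_lit 21234720)) .nil)) .nil)) (.node (.node .leaf (nat_lit 26524312626342763) (.br (nat_lit 1) (.cons (.br (nat_lit 2) (.cons (.rel (nat_lit 83886240)) .nil)) .nil)) .leaf) (nat_lit 26524578729764999) (.br (nat_lit 6) (.cons (.br (nat_lit 3) (.cons (.rel (nat_lit 34628173860)) (.cons (.rel (nat_lit 17449357344)) .nil))) .nil)) .leaf)))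 (nat_lit 26524578729765000) (.br (nat_lit 0) (.cons (.br (nat_lit 2) (.cons (.rel (nat_lit 71308353)) .nil)) .nil)) (.node (.node (.node (.node .leaf (nat_lit 26524578729765614) (.br (nat_lit 1) (.cons (.br (nat_lit 0) (.cons (.rel (nat_lit 37749828)) (.cons (.rel (nat_lit 20988225)) .nil))) .nil)) .leaf) (nat_lit 26524578729765801) (.br (nat_lit 5) (.cons (.br (nat_lit 4) (.cons (.rel (nat_lit 5368725570)) (.cons (.rel (nat_lit 10737422400)) .nil))) .nil)) (.node .leaf (nat_lit 26524578729766150) (.br (nat_lit 0) (.cons (.br (nat_lit 3) (.cons (.rel (nat_lit 272648196)) .nil)) .nil)) .leaf)) (nat_lit 26524578729766239) (.br (nat_lit 0) (.cons (.br (nat_lit 3) (.cons (.rel (nat_lit 272629896)) .nil)) .nil)) (.node (.node .leaf (nat_lit 26524578731248552) (.br (nat_lit 0) (.cons (.br (nat_lit 1) (.cons (.rel (nat_lit 25183236)) .nil)) .nil)) .leaf) (nat_lit 26524578731248553) (.br (nat_lit 0) (.cons (.br (nat_lit 1) (.cons (.rel (nat_lit 20971800)) .nil)) .nil)) (.node .leaf (nat_lit 26524578731342730)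 (.br (nat_lit 0) (.cons (.br (nat_lit 1) (.cons (.rel (nat_lit 20972805)) (.cons (.rel (nat_lit 21233670)) .nil))) (.cons (.br (nat_lit 1) (.cons (.rel (nat_lit 20971800)) (.cons (.rel (nat_lit 21233670)) .nil))) .nil))) .leaf))) (nat_lit 26524578731343111) (.br (nat_lit 0) (.cons (.br (nat_lit 1) (.cons (.rel (nat_lit 25169922)) .nil)) .nil)) (.node (.node (.node .leaf (nat_lit 26524578732884155) (.br (nat_lit 0) (.cons (.br (nat_lit 1) (.cons (.rel (nat_lit 21234720)) (.cons (.rel (nat_lit 20988225)) .nil))) .nil)) .leaf) (nat_lit 26524578732885254) (.br (nat_lit 0) (.cons (.br (nat_lit 3) (.cons (.rel (nat_lit 272648196)) .nil)) .nil)) (.node .leaf (nat_lit 26524582081014510) (.br (nat_lit 0) (.cons (.br (nat_lit 1) (.cons (.rel (nat_lit 37749828)) .nil)) .nil)) .leaf)) (nat_lit 26524582081015046) (.br (nat_lit 0) (.cons (.br (nat_lit 3) (.cons (.rel (nat_lit 272648196)) .nil)) .nil)) (.node (.node .leaf (nat_lit 26524582082497423) (.br (nat_lit 0) (.cons (.br (nat_lit 2) (.cons (.rel (nat_lit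 142688256)) .nil)) .nil)) .leaf) (nat_lit 26524582084133051) (.br (nat_lit 0) (.cons (.br (nat_lit 3) (.cons (.rel (nat_lit 272629896)) .nil)) .nil)) .leaf))))

/-- refutations 118 -/
def e118 : EX := (.node (.node .leaf (nat_lit 26428854618372273) (.br (nat_lit 0) (.cons (.br (nat_lit 1) (.cons (.rel (nat_lit 25198656)) .nil)) .nil)) .leaf) (nat_lit 26435801777167247) (.br (nat_lit 1) (.cons (.br (nat_lit 2) (.cons (.rel (nat_lit 84033600)) .nil)) .nil)) (.node .leaf (nat_lit 26436664082612401) (.br (nat_lit 3) (.cons (.br (nat_lit 4) (.cons (.rel (nat_lit 1343291520)) .nil)) .nil)) .leaf))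

/-- refutations 119 -/
def e119 : EX := (.node (.node (.node .leaf (nat_lit 27009678123197793) (.br (nat_lit 0) (.cons (.br (nat_lit 1) (.cons (.rel (nat_lit 37814304)) .nil)) .nil)) .leaf) (nat_lit 27009850094992016) (.br (nat_lit 0) (.cons (.br (nat_lit 3) (.cons (.rel (nat_lit 543162369)) .nil)) .nil)) .leaf) (nat_lit 27009867269601936) (.br (nat_lit 3) (.cons (.br (nat_lit 4) (.cons (.br (nat_lit 5) (.cons (.rel (nat_lit 5368710150)) .nil)) .nil)) .nil)) (.node .leaf (nat_lit 27010502924762625) (.br (nat_lit 0) (.cons (.br (nat_lit 1) (.cons (.rel (nat_lit 25198656)) .nil)) .nil)) .leaf))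

/-- refutations 120 -/
def e120 : EX := (.node (.node (.node (.node (.node (.node .leaf (nat_lit 27011997405536307) (.br (nat_lit 0) (.cons (.br (nat_lit 2) (.cons (.rel (nat_lit 71305233)) .nil)) .nil)) .leaf) (nat_lit 27016049428770144) (.br (nat_lit 0) (.cons (.br (nat_lit 1) (.cons (.rel (nat_lit 21233670)) .nil)) .nil)) .leaf) (nat_lit 27016051298160775) (.br (nat_lit 1) (.cons (.br (nat_lit 2) (.cons (.rel (nat_lit 84165120)) .nil)) .nil)) (.node (.node .leaf (nat_lit 27016890491650983) (.br (nat_lit 0) (.cons (.br (nat_lit 2) (.cons (.rel (nat_lit 71368848)) .nil)) .nil)) .leaf) (nat_lit 27016891239823391) (.br (nat_lit 0) (.cons (.br (nat_lit 2) (.cons (.rel (nat_lit 71305233)) .nil)) .nil)) .leaf)) (nat_lit 27016891241091207) (.br (nat_lit 5) (.cons (.br (nat_lit 6) (.cons (.rel (nat_lit 21474836613)) .nil)) .nil)) (.node (.node (.node .leaf (nat_lit 27016891241092347) (.br (nat_lit 0) (.cons (.br (nat_lit 5) (.cons (.rel (nat_lit 4300210689)) .nil)) .nil)) .leaf) (nat_lit 27016893667814276)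 (.br (nat_lit 1) (.cons (.br (nat_lit 4) (.cons (.rel (nat_lit 1091862528)) .nil)) .nil)) .leaf) (nat_lit 27016893667814282) (.br (nat_lit 0) (.cons (.br (nat_lit 2) (.cons (.rel (nat_lit 71304228)) .nil)) .nil)) (.node (.node .leaf (nat_lit 27016893667814661) (.br (nat_lit 0) (.cons (.br (nat_lit 3) (.cons (.rel (nat_lit 272634882)) .nil)) .nil)) .leaf) (nat_lit 27016893667814662) (.br (nat_lit 0) (.cons (.br (nat_lit 3) (.cons (.rel (nat_lit 272648196)) .nil)) .nil)) .leaf))) (nat_lit 27016893668253851) (.br (nat_lit 1) (.cons (.br (nat_lit 2) (.cons (.rel (nat_lit 83886240)) .nil)) .nil)) (.node (.node (.node (.node .leaf (nat_lit 27016893668253872) (.br (nat_lit 4) (.cons (.br (nat_lit 0) (.cons (.rel (nat_lit 1077936168)) (.cons (.rel (nat_lit 1077936168)) .nil))) .nil)) .leaf) (nat_lit 27016893668254506) (.br (nat_lit 0) (.cons (.br (nat_lit 4) (.cons (.rel (nat_lit 1077936168)) .nil)) .nil)) .leaf) (nat_lit 27016893669338389) (.br (nat_lit 1) (.cons (.br (nat_lit 3) (.cons (.rel (nat_lit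 285214788)) .nil)) .nil)) (.node (.node .leaf (nat_lit 27016893669381031) (.br (nat_lit 0) (.cons (.br (nat_lit 1) (.cons (.rel (nat_lit 37756929)) .nil)) .nil)) .leaf) (nat_lit 27016893669594363) (.br (nat_lit 1) (.cons (.br (nat_lit 5) (.cons (.rel (nat_lit 4312077312)) .nil)) .nil)) .leaf)) (nat_lit 27016893669594465) (.br (nat_lit 1) (.cons (.br (nat_lit 3) (.cons (.rel (nat_lit 285278214)) .nil)) .nil)) (.node (.node (.node .leaf (nat_lit 27016893835585567) (.br (nat_lit 0) (.cons (.br (nat_lit 3) (.cons (.rel (nat_lit 272648196)) .nil)) .nil)) .leaf) (nat_lit 27016893835585587) (.br (nat_lit 0) (.cons (.br (nat_lit 3) (.cons (.rel (nat_lit 272761872)) .nil)) .nil)) .leaf) (nat_lit 27016893835585791) (.br (nat_lit 0) (.cons (.br (nat_lit 3) (.cons (.rel (nat_lit 272648196)) .nil)) .nil)) (.node (.node .leaf (nat_lit 27016893835586346) (.br (nat_lit 0) (.cons (.br (nat_lit 3) (.cons (.rel (nat_lit 273711360)) (.cons (.rel (nat_lit 273940560)) (.cons (.rel (nat_lit 272629896)) .nil))))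 .nil)) .leaf) (nat_lit 27016893835586411) (.br (nat_lit 0) (.cons (.br (nat_lit 1) (.cons (.rel (nat_lit 21054720)) .nil)) .nil)) .leaf)))) (nat_lit 27016893835586942) (.br (nat_lit 0) (.cons (.br (nat_lit 5) (.cons (.rel (nat_lit 4299161940)) .nil)) .nil)) (.node (.node (.node (.node (.node .leaf (nat_lit 27016893835841692) (.br (nat_lit 0) (.cons (.br (nat_lit 2) (.cons (.rel (nat_lit 71385093)) .nil)) .nil)) .leaf) (nat_lit 27016893835842823) (.br (nat_lit 2) (.cons (.br (nat_lit 5) (.cons (.rel (nat_lit 4362077205)) .nil)) .nil)) .leaf) (nat_lit 27016893835872438) (.br (nat_lit 0) (.cons (.br (nat_lit 1) (.cons (.rel (nat_lit 42472512)) .nil)) .nil)) (.node (.node .leaf (nat_lit 27016893836097567) (.br (nat_lit 0) (.cons (.br (nat_lit 3) (.cons (.rel (nat_lit 545259588)) .nil)) .nil)) .leaf) (nat_lit 27016893836097671) (.br (nat_lit 5) (.cons (.br (nat_lit 2) (.cons (.rel (nat_lit 8724152340)) (.cons (.rel (nat_lit 4362076200)) .nil))) .nil)) .leaf)) (nat_lit 27016893836097692) (.br (nat_lit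 0) (.cons (.br (nat_lit 5) (.cons (.rel (nat_lit 4299229440)) .nil)) .nil)) (.node (.node (.node .leaf (nat_lit 27016893836097718) (.br (nat_lit 0) (.cons (.br (nat_lit 5) (.cons (.rel (nat_lit 4301275152)) .nil)) .nil)) .leaf) (nat_lit 27016893836098192) (.br (nat_lit 3) (.cons (.br (nat_lit 6) (.cons (.rel (nat_lit 17716740120)) (.cons (.rel (nat_lit 17449354368)) (.cons (.rel (nat_lit 17716741125)) .nil)))) (.cons (.br (nat_lit 1) (.cons (.rel (nat_lit 285220884)) (.cons (.rel (nat_lit 285214788)) (.cons (.rel (nat_lit 285220884)) (.cons (.rel (nat_lit 285220884)) (.cons (.rel (nat_lit 285221889)) (.cons (.rel (nat_lit 570441732)) .nil))))))) .nil))) .leaf) (nat_lit 27016893836098436) (.br (nat_lit 0) (.cons (.br (nat_lit 3) (.cons (.rel (nat_lit 545259588)) .nil)) .nil)) (.node (.node .leaf (nat_lit 27016893836098822) (.br (nat_lit 0) (.cons (.br (nat_lit 1) (.cons (.rel (nat_lit 20971800)) .nil)) .nil)) .leaf) (nat_lit 27016893836099073) (.br (nat_lit 6) (.cons (.br (nat_lit 1) (.cons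 (.br (nat_lit 2) (.cons (.rel (nat_lit 34426848336)) (.cons (.rel (nat_lit 150996234)) .nil))) (.cons (.rel (nat_lit 17196680193)) .nil))) .nil)) .leaf))) (nat_lit 27016893836139396) (.br (nat_lit 0) (.cons (.br (nat_lit 1) (.cons (.rel (nat_lit 20971800)) .nil)) .nil)) (.node (.node (.node (.node .leaf (nat_lit 27016893836804752) (.br (nat_lit 0) (.cons (.br (nat_lit 1) (.cons (.rel (nat_lit 21233670)) .nil)) .nil)) .leaf) (nat_lit 27016893837158582) (.br (nat_lit 0) (.cons (.br (nat_lit 1) (.cons (.rel (nat_lit 21315585)) .nil)) .nil)) .leaf) (nat_lit 27016893837365383) (.br (nat_lit 4) (.cons (.br (nat_lit 0) (.cons (.rel (nat_lit 2155872276)) (.cons (.rel (nat_lit 2151972864)) .nil))) .nil)) (.node (.node .leaf (nat_lit 27016893837366535) (.br (nat_lit 0) (.cons (.br (nat_lit 2) (.cons (.rel (nat_lit 71305233)) .nil)) .nil)) .leaf) (nat_lit 27016893838072464) (.br (nat_lit 2) (.cons (.br (nat_lit 4) (.cons (.rel (nat_lit 1207961604)) .nil)) .nil)) .leaf)) (nat_lit 27016896356363526) (.br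 (nat_lit 0) (.cons (.br (nat_lit 2) (.cons (.rel (nat_lit 71303178)) .nil)) .nil)) (.node (.node (.node .leaf (nat_lit 27016896510406145) (.br (nat_lit 0) (.cons (.br (nat_lit 2) (.cons (.rel (nat_lit 72356097)) .nil)) .nil)) .leaf) (nat_lit 27017159939009387) (.br (nat_lit 0) (.cons (.br (nat_lit 5) (.cons (.rel (nat_lit 4299161940)) .nil)) .nil)) .leaf) (nat_lit 27017159939009449) (.br (nat_lit 0) (.cons (.br (nat_lit 6) (.cons (.rel (nat_lit 17184069636)) .nil)) .nil)) (.node .leaf (nat_lit 27017159942006023) (.br (nat_lit 0) (.cons (.br (nat_lit 3) (.cons (.rel (nat_lit 272629896)) .nil)) .nil)) .leaf)))))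

/-- refutations 121 -/
def e121 : EX := (.node .leaf (nat_lit 26592834580719643) (.br (nat_lit 2) (.cons (.br (nat_lit 3) (.cons (.rel (nat_lit 335872272)) .nil)) .nil)) .leaf)

/-- refutations 122 -/
def e122 : EX := (.node (.node (.node (.node .leaf (nat_lit 27022030100573445) (.br (nat_lit 0) (.cons (.br (nat_lit 1) (.cons (.rel (nat_lit 21054720)) .nil)) .nil)) .leaf) (nat_lit 27028579191696242) (.br (nat_lit 3) (.cons (.br (nat_lit 5) (.cons (.rel (nat_lit 4563419154)) .nil)) .nil)) .leaf) (nat_lit 27028579192136562) (.br (nat_lit 0) (.cons (.br (nat_lit 3) (.cons (.rel (nat_lit 545259588)) .nil)) .nil)) (.node .leaf (nat_lit 27028579193262962) (.br (nat_lit 0) (.cons (.br (nat_lit 5) (.cons (.rel (nat_lit 4303355937)) .nil)) .nil)) .leaf)) (nat_lit 27028579193263367) (.br (nat_lit 1) (.cons (.br (nat_lit 5) (.cons (.rel (nat_lit 4312010817)) (.cons (.rel (nat_lit 4312006692)) .nil))) .nil)) (.node (.node .leaf (nat_lit 27034486021629963) (.br (nat_lit 1) (.cons (.br (nat_lit 2) (.cons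 (.rel (nat_lit 83890185)) .nil)) .nil)) .leaf) (nat_lit 27034502499857671) (.br (nat_lit 0) (.cons (.br (nat_lit 1) (.cons (.rel (nat_lit 25169922)) .nil)) .nil)) (.node .leaf (nat_lit 27034506350044042) (.br (nat_lit 2) (.cons (.br (nat_lit 6) (.cons (.rel (nat_lit 34426848336)) .nil)) .nil)) .leaf)))

/-- refutations 123 -/
def e123 : EX := (.node (.node (.node (.node .leaf (nat_lit 27039625843386525) (.br (nat_lit 0) (.cons (.br (nat_lit 1) (.cons (.rel (nat_lit 20971800)) .nil)) .nil)) .leaf) (nat_lit 27052086638201769) (.br (nat_lit 0) (.cons (.br (nat_lit 3) (.cons (.rel (nat_lit 272648196)) .nil)) .nil)) .leaf) (nat_lit 27052086639752544) (.br (nat_lit 0) (.cons (.br (nat_lit 1) (.cons (.rel (nat_lit 21234720)) .nil)) .nil)) (.node .leaf (nat_lit 27052086640008544) (.br (nat_lit 0) (.cons (.br (nat_lit 2) (.cons (.rel (nat_lit 71305233)) .nil)) .nil)) .leaf)) (nat_lit 27052086641022215) (.br (nat_lit 0) (.cons (.br (nat_lit 4) (.cons (.rel (nat_lit 1083244548)) .nil)) .nil)) (.node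 (.node .leaf (nat_lit 27052086801803950) (.br (nat_lit 0) (.cons (.br (nat_lit 2) (.cons (.rel (nat_lit 71307348)) .nil)) .nil)) .leaf) (nat_lit 27052086802241693) (.br (nat_lit 0) (.cons (.br (nat_lit 4) (.cons (.rel (nat_lit 1078019088)) .nil)) .nil)) (.node .leaf (nat_lit 27052086804923178) (.br (nat_lit 0) (.cons (.br (nat_lit 1) (.cons (.rel (nat_lit 37756929)) .nil)) .nil)) .leaf)))

/-- refutations 124 -/
def e124 : EX := (.node (.node (.node .leaf (nat_lit 27268332797353223) (.br (nat_lit 0) (.cons (.br (nat_lit 2) (.cons (.rel (nat_lit 142676004)) .nil)) .nil)) .leaf) (nat_lit 27269028584560700) (.br (nat_lit 0) (.cons (.br (nat_lit 1) (.cons (.rel (nat_lit 20988225)) .nil)) .nil)) (.node .leaf (nat_lit 27269028584561927) (.br (nat_lit 0) (.cons (.br (nat_lit 2) (.cons (.rel (nat_lit 71328768)) .nil)) .nil)) .leaf)) (nat_lit 27279158618958101) (.br (nat_lit 0) (.cons (.br (nat_lit 2) (.cons (.rel (nat_lit 142606341)) .nil)) .nil)) (.node (.node .leaf (nat_lit 27280227402039446) (.br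 (nat_lit 0) (.cons (.br (nat_lit 1) (.cons (.rel (nat_lit 42996756)) .nil)) .nil)) .leaf) (nat_lit 27280227402039922) (.br (nat_lit 0) (.cons (.br (nat_lit 1) (.cons (.rel (nat_lit 21315585)) .nil)) .nil)) (.node .leaf (nat_lit 27280227402040678) (.br (nat_lit 0) (.cons (.br (nat_lit 1) (.cons (.rel (nat_lit 21237840)) .nil)) .nil)) .leaf)))

/-- list of the parts -/
def L0 : List (ℕ × List ℕ) := [(nat_lit 0x10, [cP]),
  (nat_lit 0x800, [Nat.sub (Nat.pow 2 941) (Nat.pow 2 0), Nat.sub (Nat.pow 2 3136) (Nat.pow 2 941)]),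
  (nat_lit 0x8000, [Nat.sub (Nat.pow 2 779) (Nat.pow 2 0), Nat.sub (Nat.pow 2 3136) (Nat.pow 2 779)]),
  (nat_lit 0x200, [cP]),
  (nat_lit 0x10000, [cP]),
  (nat_lit 0x400000000, [cP]),
  (nat_lit 0x800000000, [cP]),
  (nat_lit 0x8000000000, [Nat.sub (Nat.pow 2 879) (Nat.pow 2 0), Nat.sub (Nat.pow 2 3136) (Nat.pow 2 879)]),
  (nat_lit 0x1000000000, [cP]),
  (nat_lit 0x20000000000, [cP]),
  (nat_lit 0x80000000000000, [Nat.sub (Nat.pow 2 890) (Nat.pow 2 0), Nat.sub (Nat.pow 2 3136) (Nat.pow 2 890)]),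
  (nat_lit 0x40000000000000, [cP]),
  (nat_lit 0x100000000000000, [cP]),
  (nat_lit 0x1000000000000000, [cP]),
  (nat_lit 0x40000000000000000, [Nat.sub (Nat.pow 2 805) (Nat.pow 2 0), Nat.sub (Nat.pow 2 1535) (Nat.pow 2 805), Nat.sub (Nat.pow 2 3136) (Nat.pow 2 1535)]),
  (nat_lit 0x12000000000000000, [cP]),
  (nat_lit 0x4800000000000000000000000000000000, [cP]),
  (nat_lit 0x10000000000000000000000000000000000, [Nat.sub (Nat.pow 2 879) (Nat.pow 2 0), Nat.sub (Nat.pow 2 3136) (Nat.pow 2 879)]),
  (nat_lit 0x88000000000000000000000000000000000, [cP]),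
  (nat_lit 0x100000000000000000000000000000000000000000, [cP]),
  (nat_lit 0x20000000000000000000000000000000000000000000000000000000000000000000000, [Nat.sub (Nat.pow 2 816) (Nat.pow 2 0), Nat.sub (Nat.pow 2 3136) (Nat.pow 2 816)]),
  (nat_lit 0x4080000000000000000000000000000000000000000000000000000000000000000, [cP]),
  (nat_lit 0x100000000000000000000000000000000000000000000000000000000000000000000000, [cP]),
  (nat_lit 0x2000000000000000000000000000000000000000000000000000000000000000000000000, [Nat.sub (Nat.pow 2 886) (Nat.pow 2 0), Nat.sub (Nat.pow 2 3136) (Nat.pow 2 886)]),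
  (nat_lit 0x400000000000000000000000000000000000000000000000000000000000000000000000, [cP]),
  (nat_lit 0x200000000000000000000000000000000000000000000000000000000000000000000000000000, [Nat.sub (Nat.pow 2 886) (Nat.pow 2 0), Nat.sub (Nat.pow 2 3136) (Nat.pow 2 886)]),
  (nat_lit 0x40000000000000000000000000000000000000000000000000000000000000000000000000000, [cP]),
  (nat_lit 0x10000000000000000000000000000000000000000000000000000000000000000000000000000000, [Nat.sub (Nat.pow 2 816) (Nat.pow 2 0), Nat.sub (Nat.pow 2 3136) (Nat.pow 2 816)]),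
  (nat_lit 0x20000000000000000000000000000000000000000000000000000000000000000000000000000000000000000000000000000000000000000000000000000000000000000000000000000000000000, [Nat.sub (Nat.pow 2 256) (Nat.pow 2 0), Nat.sub (Nat.pow 2 885) (Nat.pow 2 256), Nat.sub (Nat.pow 2 3136) (Nat.pow 2 885)]),
  (nat_lit 0x800000000000000000000000000000000000000000000000000000000000000000000000000000, [cP]),
  (nat_lit 0x40000000000000000000000000000000000000000000000000000000000000000000000000000000000000000000000000000000000000000000000000000000000000000000000000000000000000, [cP]),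
  (nat_lit 0x80000000000000000000000000000000000000000000000000000000000000000000000000000000000000000000000000000000000000000000000000000000000000000000000000000000000000, [cP]),
  (nat_lit 0x800000000000000000000000000000000000000000000000000000000000000000000000000000000000000000000000000000000000000000000000000000000000000000000000000000000000000, [cP]),
  (nat_lit 0x10000000000000000000000000000000000000000000000000000000000000000000000000000000000000000000000000000000000000000000000000000000000000000000000000000000000000000, [Nat.sub (Nat.pow 2 886) (Nat.pow 2 0), Nat.sub (Nat.pow 2 3136) (Nat.pow 2 886)]),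
  (nat_lit 0x1000000000000000000000000000000000000000000000000000000000000000000000000000000000000000000000000000000000000000000000000000000000000000000000000000000000000000, [cP]),
  (nat_lit 0x20000000000000000000000000000000000000000000000000000000000000000000000000000000000000000000000000000000000000000000000000000000000000000000000000000000000000000, [cP]),
  (nat_lit 0x80000000000000000000000000000000000000000000000000000000000000000000000000000000000000000000000000000000000000000000000000000000000000000000000000000000000000000000, [cP]),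
  (nat_lit 0x10000000000000000000000000000000000000000000000000000000000000000000000000000000000000000000000000000000000000000000000000000000000000000000000000000000000000000000000, [Nat.sub (Nat.pow 2 805) (Nat.pow 2 0), Nat.sub (Nat.pow 2 3136) (Nat.pow 2 805)]),
  (nat_lit 0x1000000000000000000000000000000000000000000000000000000000000000000000000000000000000000000000000000000000000000000000000000000000000000000000000000000000000000000000000000, [Nat.sub (Nat.pow 2 666) (Nat.pow 2 0), Nat.sub (Nat.pow 2 3136) (Nat.pow 2 666)]),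
  (nat_lit 0x100000000000000000000000000000000000000000000000000000000000000000000000000000000000000000000000000000000000000000000000000000000000000000000000000000000000000000000, [cP]),
  (nat_lit 0x2000000000000000000000000000000000000000000000000000000000000000000000000000000000000000000000000000000000000000000000000000000000000000000000000000000000000000000000000000, [cP]),
  (nat_lit 0x4000000000000000000000000000000000000000000000000000000000000000000000000000000000000000000000000000000000000000000000000000000000000000000000000000000000000000000000000000, [cP]),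
  (nat_lit 0x800000000000000000000000000000000000000000000000000000000000000000000000000000000000000000000000000000000000000000000000000000000000000000000000000000000000000000000000000000000000000000000, [cP]),
  (nat_lit 0x10000000000000000000000000000000000000000000000000000000000000000000000000000000000000000000000000000000000000000000000000000000000000000000000000000000000000000000000000000000000000000000000, [cP]),
  (nat_lit 0x200000000000000000000000000000000000000000000000000000000000000000000000000000000000000000000000000000000000000000000000000000000000000000000000000000000000000000000000000000000000000000000000, [cP]),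
  (nat_lit 0x800000000000000000000000000000000000000000000000000000000000000000000000000000000000000000000000000000000000000000000000000000000000000000000000000000000000000000000000000000000000000000000000000, [cP]),
  (nat_lit 0x10000000000000000000000000000000000000000000000000000000000000000000000000000000000000000000000000000000000000000000000000000000000000000000000000000000000000000000000000000000000000000000000000000, [Nat.sub (Nat.pow 2 315) (Nat.pow 2 0), Nat.sub (Nat.pow 2 1566) (Nat.pow 2 315), Nat.sub (Nat.pow 2 3136) (Nat.pow 2 1566)]),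
  (nat_lit 0x1000000000000000000000000000000000000000000000000000000000000000000000000000000000000000000000000000000000000000000000000000000000000000000000000000000000000000000000000000000000000000000000000000, [cP]),
  (nat_lit 0x400000000000000000000000000000000000000000000000000000000000000000000000000000000000000000000000000000000000000000000000000000000000000000000000000000000000000000000000000000000000000000000000000000000000, [cP]),
  (nat_lit 0x1000000000000000000000000000000000000000000000000000000000000000000000000000000000000000000000000000000000000000000000000000000000000000000000000000000000000000000000000000000000000000000000000000000000000, [Nat.sub (Nat.pow 2 184) (Nat.pow 2 0), Nat.sub (Nat.pow 2 886) (Nat.pow 2 184), Nat.sub (Nat.pow 2 3136) (Nat.pow 2 886)]),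
  (nat_lit 0x800000000000000000000000000000000000000000000000000000000000000000000000000000000000000000000000000000000000000000000000000000000000000000000000000000000000000000000000000000000000000000000000000000000000, [cP]),
  (nat_lit 0x200000000000000000000000000000000000000000000000000000000000000000000000000000000000000000000000000000000000000000000000000000000000000000000000000000000000000000000000000000000000000000000000000000000000000000000000000000, [cP]),
  (nat_lit 0x40000000000000000000000000000000000000000000000000000000000000000000000000000000000000000000000000000000000000000000000000000000000000000000000000000000000000000000000000000000000000000000000000000000000000000000000000000000000, [Nat.sub (Nat.pow 2 930) (Nat.pow 2 0), Nat.sub (Nat.pow 2 3136) (Nat.pow 2 930)]),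
  (nat_lit 0x10000000000000000000000000000000000000000000000000000000000000000000000000000000000000000000000000000000000000000000000000000000000000000000000000000000000000000000000000000000000000000000000000000000000000000000000000000000000, [cP]),
  (nat_lit 0x800000000000000000000000000000000000000000000000000000000000000000000000000000000000000000000000000000000000000000000000000000000000000000000000000000000000000000000000000000000000000000000000000000000000000000000000000000000000, [cP]),
  (nat_lit 0x4000000000000000000000000000000000000000000000000000000000000000000000000000000000000000000000000000000000000000000000000000000000000000000000000000000000000000000000000000000000000000000000000000000000000000000000000000000000000, [cP]),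
  (nat_lit 0x8000000000000000000000000000000000000000000000000000000000000000000000000000000000000000000000000000000000000000000000000000000000000000000000000000000000000000000000000000000000000000000000000000000000000000000000000000000000000, [cP]),
  (nat_lit 0x40000000000000000000000000000000000000000000000000000000000000000000000000000000000000000000000000000000000000000000000000000000000000000000000000000000000000000000000000000000000000000000000000000000000000000000000000000000000000000, [Nat.sub (Nat.pow 2 890) (Nat.pow 2 0), Nat.sub (Nat.pow 2 3136) (Nat.pow 2 890)]),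
  (nat_lit 0x20000000000000000000000000000000000000000000000000000000000000000000000000000000000000000000000000000000000000000000000000000000000000000000000000000000000000000000000000000000000000000000000000000000000000000000000000000000000000000, [cP]),
  (nat_lit 0x80000000000000000000000000000000000000000000000000000000000000000000000000000000000000000000000000000000000000000000000000000000000000000000000000000000000000000000000000000000000000000000000000000000000000000000000000000000000000000, [cP]),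
  (nat_lit 0x20000000000000000000000000000000000000000000000000000000000000000000000000000000000000000000000000000000000000000000000000000000000000000000000000000000000000000000000000000000000000000000000000000000000000000000000000000000000000000000, [Nat.sub (Nat.pow 2 885) (Nat.pow 2 0), Nat.sub (Nat.pow 2 3136) (Nat.pow 2 885)]),
  (nat_lit 0x20000000000000000000000000000000000000000000000000000000000000000000000000000000000000000000000000000000000000000000000000000000000000000000000000000000000000000000000000000000000000000000000000000000000000000000000000000000000000000000000000000000000000000000000000000000000000000000000000000000000000000000000000000, [Nat.sub (Nat.pow 2 934) (Nat.pow 2 0), Nat.sub (Nat.pow 2 1566) (Nat.pow 2 934), Nat.sub (Nat.pow 2 3136) (Nat.pow 2 1566)]),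
  (nat_lit 0x100000000000000000000000000000000000000000000000000000000000000000000000000000000800000000000000000000000000000000000000000000000000000000000000000000000000000000000000000000000000000000000000000000000000000000000000000000000000000000000000000000000000000000000000000000000000000000000000000000000000000000000000000, [cP]),
  (nat_lit 0x80000000000000000000000000000000000000000000000000000000000000000000000000000000000000000000000000000000000000000000000000000000000000000000000000000000000000000000000000000000000000000000000000000000000000000000000000000000000000000000000000000000000000000000000000000000000000000000000000000000000000000000000000000000, [cP]),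
  (nat_lit 0x20000000000000000000000000000000000000000000000000000000000000000000000000000000000000000000000000000000000000000000000000000000000000000000000000000000000000000000000000000000000000000000000000000000000000000000000000000000000000000000000000000000000000000000000000000000000000000000000000000000000000000000000000000000000, [Nat.sub (Nat.pow 2 39) (Nat.pow 2 0), Nat.sub (Nat.pow 2 261) (Nat.pow 2 39), Nat.sub (Nat.pow 2 656) (Nat.pow 2 261), Nat.sub (Nat.pow 2 811) (Nat.pow 2 656), Nat.sub (Nat.pow 2 891) (Nat.pow 2 811), Nat.sub (Nat.pow 2 1316) (Nat.pow 2 891), Nat.sub (Nat.pow 2 3136) (Nat.pow 2 1316)]),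
  (nat_lit 0x1000000000000000000000000000000000000000000000000000000000000000000000000000000000000000000000000000000000000000000000000000000000000000000000000000000000000000000000000000000000000000000000000000000000000000000000000000000000000000000000000000000000000000000000000000000000000000000000000000000000000000000000000000000000, [cP]),
  (nat_lit 0x40000000000000000000000000000000000000000000000000000000000000000000000000000000000000000000000000000000000000000000000000000000000000000000000000000000000000000000000000000000000000000000000000000000000000000000000000000000000000000000000000000000000000000000000000000000000000000000000000000000000000000000000000000000000, [cP]),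
  (nat_lit 0x100000000000000000000000000000000000000000000000000000000000000000000000000000000000000000000000000000000000000000000000000000000000000000000000000000000000000000000000000000000000000000000000000000000000000000000000000000000000000000000000000000000000000000000000000000000000000000000000000000000000000000000000000000000000000, [cP]),
  (nat_lit 0x400000000000000000000000000000000000000000000000000000000000000000000000000000000000000000000000000000000000000000000000000000000000000000000000000000000000000000000000000000000000000000000000000000000000000000000000000000000000000000000000000000000000000000000000000000000000000000000000000000000000000000000000000000000000000, [cP]),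
  (nat_lit 0x100000000000000000000000000000000000000000000000000000000000000000000000000000000000000000000000000000000000000000000000000000000000000000000000000000000000000000000000000000000000000000000000000000000000000000000000000000000000000000000000000000000000000000000000000000000000000000000000000000000000000000000000000000000000000000, [Nat.sub (Nat.pow 2 816) (Nat.pow 2 0), Nat.sub (Nat.pow 2 1555) (Nat.pow 2 816), Nat.sub (Nat.pow 2 3136) (Nat.pow 2 1555)]),
  (nat_lit 0x44000000000000000000000000000000000000000000000000000000000000000000000000000000000000000000000000000000000000000000000000000000000000000000000000000000000000000000000000000000000000000000000000000000000000000000000000000000000000000000000000000000000000000000000000000000000000000000000000000000000000000000000000000000000000000, [cP]),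
  (nat_lit 0x1000000000000000000000000000000000000000000000000000000000000000000000000000000000000000000000000000000000000000000000000000000000000000000000000000000000000000000000000000000000000000000000000000000000000000000000000000000000000000000000000000000000000000000000000000000000000000000000000000000000000000000000000000000000000000000000000000000000, [cP]),
  (nat_lit 0x400000000000000000000000000000000000000000000000000000000000000000000000000000000000000000000000000000000000000000000000000000000000000000000000000000000000000000000000000000000000000000000000000000000000000000000000000000000000000000000000000000000000000000000000000000000000000000000000000000000000000000000000000000000000000000000000000000000000000000, [Nat.sub (Nat.pow 2 765) (Nat.pow 2 0), Nat.sub (Nat.pow 2 3136) (Nat.pow 2 765)]),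
  (nat_lit 0x4000000000000000000000000000000000000000000000000000000000000000000000000000000000000000000000000000000000000000000000000000000000000000000000000000000000000000000000000000000000000000000000000000000000000000000000000000000000000000000000000000000000000000000000000000000000000000000000000000000000000000000000000000000000000000000000000000000000000000000000, [Nat.sub (Nat.pow 2 304) (Nat.pow 2 0), Nat.sub (Nat.pow 2 816) (Nat.pow 2 304), Nat.sub (Nat.pow 2 1566) (Nat.pow 2 816), Nat.sub (Nat.pow 2 3136) (Nat.pow 2 1566)]),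
  (nat_lit 0x20000000000000000000000000000000000000000000000000000000000000000000000000000000000000000000000000000000000000000000000000000000000000000000000000000000000000000000000000000000000000000000000000000000000000000000000000000000000000000000000000000000000000000000000000000000000000000000000000000000000000000000000000000000000000000000000000000000000000000, [cP]),
  (nat_lit 0x10000000000000000000000000000000000000000000000000000000000000000000000000000000000000000000000000000000000000000000000000000000000000000000000000000000000000000000000000000000000000000000000000000000000000000000000000000000000000000000000000000000000000000000000000000000000000000000000000000000000000000000000000000000000000000000000000000000000000000000000000000000000000000, [Nat.sub (Nat.pow 2 879) (Nat.pow 2 0), Nat.sub (Nat.pow 2 3136) (Nat.pow 2 879)]),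
  (nat_lit 0x2000000000000000000000000000000000000000000000000000000000000000000000000000000000000000000000000000000000000000000000000000000000000000000000000000000000000000000000000000000000000000000000000000000000000000000000000000000000000000000000000000000000000000000000000000000000000000000000000000000000000000000000000000000000000000000000000000000000000000000000000, [cP]),
  (nat_lit 0x20000000000000000000000000000000000000000000000000000000000000000000000000000000000000000000000000000000000000000000000000000000000000000000000000000000000000000000000000000000000000000000000000000000000000000000000000000000000000000000000000000000000000000000000000000000000000000000000000000000000000000000000000000000000000000000000000000000000000000000000000000000000000000, [cP]),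
  (nat_lit 0x800000000000000000000000000000000000000000000000000000000000000000000000000000000000000000000000000000000000000000000000000000000000000000000000000000000000000000000000000000000000000000000000000000000000000000000000000000000000000000000000000000000000000000000000000000000000000000000000000000000000000000000000000000000000000000000000000000000000000000000000000000000000000000, [Nat.sub (Nat.pow 2 784) (Nat.pow 2 0), Nat.sub (Nat.pow 2 3136) (Nat.pow 2 784)]),
  (nat_lit 0x40000000000000000000000000000000000000000000000000000000000000000000000000000000000000000000000000000000000000000000000000000000000000000000000000000000000000000000000000000000000000000000000000000000000000000000000000000000000000000000000000000000000000000000000000000000000000000000000000000000000000000000000000000000000000000000000000000000000000000000000000000000000000000, [cP]),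
  (nat_lit 0x8000000000000000000000000000000000000000000000000000000000000000000000000000000000000000000000000000000000000000000000000000000000000000000000000000000000000000000000000000000000000000000000000000000000000000000000000000000000000000000000000000000000000000000000000000000000000000000000000000000000000000000000000000000000000000000000000000000000000000000000000000000000000000000000000, [Nat.sub (Nat.pow 2 810) (Nat.pow 2 0), Nat.sub (Nat.pow 2 3136) (Nat.pow 2 810)]),
  (nat_lit 0x8000000000000000000000000000000000000000000000000000000000000000000000000000000000000000000000000000000000000000000000000000000000000000000000000000000000000000000000000000000000000000000000000000000000000000000000000000000000000000000000000000000000000000000000000000000000000000000000000000000000000000000000000000000000000000000000000000000000000000000000000000000000000000000, [cP]),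
  (nat_lit 0x10000000000000000000000000000000000000000000000000000000000000000000000000000000000000000000000000000000000000000000000000000000000000000000000000000000000000000000000000000000000000000000000000000000000000000000000000000000000000000000000000000000000000000000000000000000000000000000000000000000000000000000000000000000000000000000000000000000000000000000000000000000000000000000000000, [cP]),
  (nat_lit 0x20000000000000000000000000000000000000000000000000000000000000000000000000000000000000000000000000000000000000000000000000000000000000000000000000000000000000000000000000000000000000000000000000000000000000000000000000000000000000000000000000000000000000000000000000000000000000000000000000000000000000000000000000000000000000000000000000000000000000000000000000000000000000000000000000, [cP]),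
  (nat_lit 0x40000000000000000000000000000000000000000000000000000000000000000000000000000000000000000000000000000000000000000000000000000000000000000000000000000000000000000000000000000000000000000000000000000000000000000000000000000000000000000000000000000000000000000000000000000000000000000000000000000000000000000000000000000000000000000000000000000000000000000000000000000000000000000000000000000, [cP])]

theorem hp0 : ∀ p ∈ L0, ∀ D2 ∈ p.2, ∃ e,
    search ext94 (Pool.Agent.H74.EGZ.vio sb) G Uc A0 p.1 D2 e = true :=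
  (List.forall_mem_cons.2 ⟨(List.forall_mem_singleton.2 ⟨e0, by decide +kernel⟩),
  (List.forall_mem_cons.2 ⟨(List.forall_mem_cons.2 ⟨⟨e1, by decide +kernel⟩,
  (List.forall_mem_singleton.2 ⟨e2, by decide +kernel⟩)⟩),
  (List.forall_mem_cons.2 ⟨(List.forall_mem_cons.2 ⟨⟨e3, by decide +kernel⟩,
  (List.forall_mem_singleton.2 ⟨e4, by decide +kernel⟩)⟩),
  (List.forall_mem_cons.2 ⟨(List.forall_mem_singleton.2 ⟨e5, by decide +kernel⟩),
  (List.forall_mem_cons.2 ⟨(List.forall_mem_singleton.2 ⟨e6, by decide +kernel⟩),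
  (List.forall_mem_cons.2 ⟨(List.forall_mem_singleton.2 ⟨e7, by decide +kernel⟩),
  (List.forall_mem_cons.2 ⟨(List.forall_mem_singleton.2 ⟨e8, by decide +kernel⟩),
  (List.forall_mem_cons.2 ⟨(List.forall_mem_cons.2 ⟨⟨e9, by decide +kernel⟩,
  (List.forall_mem_singleton.2 ⟨e10, by decide +kernel⟩)⟩),
  (List.forall_mem_cons.2 ⟨(List.forall_mem_singleton.2 ⟨e11, by decide +kernel⟩),
  (List.forall_mem_cons.2 ⟨(List.forall_mem_singleton.2 ⟨.leaf, by decide +kernel⟩),
  (List.forall_mem_cons.2 ⟨(List.forall_mem_cons.2 ⟨⟨e13, by decide +kernel⟩,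
  (List.forall_mem_singleton.2 ⟨e14, by decide +kernel⟩)⟩),
  (List.forall_mem_cons.2 ⟨(List.forall_mem_singleton.2 ⟨e15, by decide +kernel⟩),
  (List.forall_mem_cons.2 ⟨(List.forall_mem_singleton.2 ⟨e16, by decide +kernel⟩),
  (List.forall_mem_cons.2 ⟨(List.forall_mem_singleton.2 ⟨e17, by decide +kernel⟩),
  (List.forall_mem_cons.2 ⟨(List.forall_mem_cons.2 ⟨⟨e18, by decide +kernel⟩,
  (List.forall_mem_cons.2 ⟨⟨e19, by decide +kernel⟩,
  (List.forall_mem_singleton.2 ⟨.leaf, by decide +kernel⟩)⟩)⟩),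
  (List.forall_mem_cons.2 ⟨(List.forall_mem_singleton.2 ⟨.leaf, by decide +kernel⟩),
  (List.forall_mem_cons.2 ⟨(List.forall_mem_singleton.2 ⟨e22, by decide +kernel⟩),
  (List.forall_mem_cons.2 ⟨(List.forall_mem_cons.2 ⟨⟨e23, by decide +kernel⟩,
  (List.forall_mem_singleton.2 ⟨e24, by decide +kernel⟩)⟩),
  (List.forall_mem_cons.2 ⟨(List.forall_mem_singleton.2 ⟨e25, by decide +kernel⟩),
  (List.forall_mem_cons.2 ⟨(List.forall_mem_singleton.2 ⟨e26, by decide +kernel⟩),
  (List.forall_mem_cons.2 ⟨(List.forall_mem_cons.2 ⟨⟨e27, by decide +kernel⟩,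
  (List.forall_mem_singleton.2 ⟨e28, by decide +kernel⟩)⟩),
  (List.forall_mem_cons.2 ⟨(List.forall_mem_singleton.2 ⟨e29, by decide +kernel⟩),
  (List.forall_mem_cons.2 ⟨(List.forall_mem_singleton.2 ⟨.leaf, by decide +kernel⟩),
  (List.forall_mem_cons.2 ⟨(List.forall_mem_cons.2 ⟨⟨e31, by decide +kernel⟩,
  (List.forall_mem_singleton.2 ⟨.leaf, by decide +kernel⟩)⟩),
  (List.forall_mem_cons.2 ⟨(List.forall_mem_singleton.2 ⟨e33, by decide +kernel⟩),
  (List.forall_mem_cons.2 ⟨(List.forall_mem_cons.2 ⟨⟨e34, by decide +kernel⟩,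
  (List.forall_mem_singleton.2 ⟨e35, by decide +kernel⟩)⟩),
  (List.forall_mem_cons.2 ⟨(List.forall_mem_singleton.2 ⟨e36, by decide +kernel⟩),
  (List.forall_mem_cons.2 ⟨(List.forall_mem_cons.2 ⟨⟨.leaf, by decide +kernel⟩,
  (List.forall_mem_singleton.2 ⟨e38, by decide +kernel⟩)⟩),
  (List.forall_mem_cons.2 ⟨(List.forall_mem_cons.2 ⟨⟨e39, by decide +kernel⟩,
  (List.forall_mem_cons.2 ⟨⟨e40, by decide +kernel⟩,
  (List.forall_mem_singleton.2 ⟨e41, by decide +kernel⟩)⟩)⟩),
  (List.forall_mem_cons.2 ⟨(List.forall_mem_singleton.2 ⟨e42, by decide +kernel⟩),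
  (List.forall_mem_cons.2 ⟨(List.forall_mem_singleton.2 ⟨e43, by decide +kernel⟩),
  (List.forall_mem_cons.2 ⟨(List.forall_mem_singleton.2 ⟨e44, by decide +kernel⟩),
  (List.forall_mem_cons.2 ⟨(List.forall_mem_singleton.2 ⟨e45, by decide +kernel⟩),
  (List.forall_mem_cons.2 ⟨(List.forall_mem_cons.2 ⟨⟨e46, by decide +kernel⟩,
  (List.forall_mem_singleton.2 ⟨e47, by decide +kernel⟩)⟩),
  (List.forall_mem_cons.2 ⟨(List.forall_mem_singleton.2 ⟨e48, by decide +kernel⟩),
  (List.forall_mem_cons.2 ⟨(List.forall_mem_singleton.2 ⟨e49, by decide +kernel⟩),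
  (List.forall_mem_cons.2 ⟨(List.forall_mem_singleton.2 ⟨e50, by decide +kernel⟩),
  (List.forall_mem_cons.2 ⟨(List.forall_mem_cons.2 ⟨⟨e51, by decide +kernel⟩,
  (List.forall_mem_singleton.2 ⟨e52, by decide +kernel⟩)⟩),
  (List.forall_mem_cons.2 ⟨(List.forall_mem_cons.2 ⟨⟨e53, by decide +kernel⟩,
  (List.forall_mem_singleton.2 ⟨e54, by decide +kernel⟩)⟩),
  (List.forall_mem_cons.2 ⟨(List.forall_mem_singleton.2 ⟨e55, by decide +kernel⟩),
  (List.forall_mem_cons.2 ⟨(List.forall_mem_singleton.2 ⟨.leaf, by decide +kernel⟩),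
  (List.forall_mem_cons.2 ⟨(List.forall_mem_singleton.2 ⟨.leaf, by decide +kernel⟩),
  (List.forall_mem_cons.2 ⟨(List.forall_mem_singleton.2 ⟨e58, by decide +kernel⟩),
  (List.forall_mem_cons.2 ⟨(List.forall_mem_singleton.2 ⟨e59, by decide +kernel⟩),
  (List.forall_mem_cons.2 ⟨(List.forall_mem_singleton.2 ⟨e60, by decide +kernel⟩),
  (List.forall_mem_cons.2 ⟨(List.forall_mem_singleton.2 ⟨e61, by decide +kernel⟩),
  (List.forall_mem_cons.2 ⟨(List.forall_mem_cons.2 ⟨⟨e62, by decide +kernel⟩,
  (List.forall_mem_cons.2 ⟨⟨e63, by decide +kernel⟩,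
  (List.forall_mem_singleton.2 ⟨.leaf, by decide +kernel⟩)⟩)⟩),
  (List.forall_mem_cons.2 ⟨(List.forall_mem_singleton.2 ⟨e65, by decide +kernel⟩),
  (List.forall_mem_cons.2 ⟨(List.forall_mem_singleton.2 ⟨e66, by decide +kernel⟩),
  (List.forall_mem_cons.2 ⟨(List.forall_mem_cons.2 ⟨⟨e67, by decide +kernel⟩,
  (List.forall_mem_cons.2 ⟨⟨e68, by decide +kernel⟩,
  (List.forall_mem_singleton.2 ⟨e69, by decide +kernel⟩)⟩)⟩),
  (List.forall_mem_cons.2 ⟨(List.forall_mem_singleton.2 ⟨e70, by decide +kernel⟩),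
  (List.forall_mem_cons.2 ⟨(List.forall_mem_singleton.2 ⟨e71, by decide +kernel⟩),
  (List.forall_mem_cons.2 ⟨(List.forall_mem_cons.2 ⟨⟨e72, by decide +kernel⟩,
  (List.forall_mem_singleton.2 ⟨e73, by decide +kernel⟩)⟩),
  (List.forall_mem_cons.2 ⟨(List.forall_mem_singleton.2 ⟨e74, by decide +kernel⟩),
  (List.forall_mem_cons.2 ⟨(List.forall_mem_singleton.2 ⟨e75, by decide +kernel⟩),
  (List.forall_mem_cons.2 ⟨(List.forall_mem_singleton.2 ⟨e76, by decide +kernel⟩),
  (List.forall_mem_cons.2 ⟨(List.forall_mem_singleton.2 ⟨e77, by decide +kernel⟩),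
  (List.forall_mem_cons.2 ⟨(List.forall_mem_cons.2 ⟨⟨e78, by decide +kernel⟩,
  (List.forall_mem_singleton.2 ⟨e79, by decide +kernel⟩)⟩),
  (List.forall_mem_cons.2 ⟨(List.forall_mem_singleton.2 ⟨.leaf, by decide +kernel⟩),
  (List.forall_mem_cons.2 ⟨(List.forall_mem_singleton.2 ⟨e81, by decide +kernel⟩),
  (List.forall_mem_cons.2 ⟨(List.forall_mem_cons.2 ⟨⟨e82, by decide +kernel⟩,
  (List.forall_mem_singleton.2 ⟨e83, by decide +kernel⟩)⟩),
  (List.forall_mem_cons.2 ⟨(List.forall_mem_cons.2 ⟨⟨e84, by decide +kernel⟩,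
  (List.forall_mem_cons.2 ⟨⟨e85, by decide +kernel⟩,
  (List.forall_mem_singleton.2 ⟨.leaf, by decide +kernel⟩)⟩)⟩),
  (List.forall_mem_cons.2 ⟨(List.forall_mem_singleton.2 ⟨e87, by decide +kernel⟩),
  (List.forall_mem_cons.2 ⟨(List.forall_mem_singleton.2 ⟨e88, by decide +kernel⟩),
  (List.forall_mem_cons.2 ⟨(List.forall_mem_cons.2 ⟨⟨e89, by decide +kernel⟩,
  (List.forall_mem_cons.2 ⟨⟨e90, by decide +kernel⟩,
  (List.forall_mem_cons.2 ⟨⟨e91, by decide +kernel⟩,
  (List.forall_mem_cons.2 ⟨⟨e92, by decide +kernel⟩,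
  (List.forall_mem_cons.2 ⟨⟨e93, by decide +kernel⟩,
  (List.forall_mem_cons.2 ⟨⟨e94, by decide +kernel⟩,
  (List.forall_mem_singleton.2 ⟨e95, by decide +kernel⟩)⟩)⟩)⟩)⟩)⟩)⟩),
  (List.forall_mem_cons.2 ⟨(List.forall_mem_singleton.2 ⟨e96, by decide +kernel⟩),
  (List.forall_mem_cons.2 ⟨(List.forall_mem_singleton.2 ⟨e97, by decide +kernel⟩),
  (List.forall_mem_cons.2 ⟨(List.forall_mem_singleton.2 ⟨.leaf, by decide +kernel⟩),
  (List.forall_mem_cons.2 ⟨(List.forall_mem_singleton.2 ⟨e99, by decide +kernel⟩),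
  (List.forall_mem_cons.2 ⟨(List.forall_mem_cons.2 ⟨⟨e100, by decide +kernel⟩,
  (List.forall_mem_cons.2 ⟨⟨e101, by decide +kernel⟩,
  (List.forall_mem_singleton.2 ⟨.leaf, by decide +kernel⟩)⟩)⟩),
  (List.forall_mem_cons.2 ⟨(List.forall_mem_singleton.2 ⟨e103, by decide +kernel⟩),
  (List.forall_mem_cons.2 ⟨(List.forall_mem_singleton.2 ⟨e104, by decide +kernel⟩),
  (List.forall_mem_cons.2 ⟨(List.forall_mem_cons.2 ⟨⟨e105, by decide +kernel⟩,
  (List.forall_mem_singleton.2 ⟨e106, by decide +kernel⟩)⟩),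
  (List.forall_mem_cons.2 ⟨(List.forall_mem_cons.2 ⟨⟨e107, by decide +kernel⟩,
  (List.forall_mem_cons.2 ⟨⟨e108, by decide +kernel⟩,
  (List.forall_mem_cons.2 ⟨⟨e109, by decide +kernel⟩,
  (List.forall_mem_singleton.2 ⟨.leaf, by decide +kernel⟩)⟩)⟩)⟩),
  (List.forall_mem_cons.2 ⟨(List.forall_mem_singleton.2 ⟨.leaf, by decide +kernel⟩),
  (List.forall_mem_cons.2 ⟨(List.forall_mem_cons.2 ⟨⟨e112, by decide +kernel⟩,
  (List.forall_mem_singleton.2 ⟨e113, by decide +kernel⟩)⟩),
  (List.forall_mem_cons.2 ⟨(List.forall_mem_singleton.2 ⟨e114, by decide +kernel⟩),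
  (List.forall_mem_cons.2 ⟨(List.forall_mem_singleton.2 ⟨e115, by decide +kernel⟩),
  (List.forall_mem_cons.2 ⟨(List.forall_mem_cons.2 ⟨⟨e116, by decide +kernel⟩,
  (List.forall_mem_singleton.2 ⟨e117, by decide +kernel⟩)⟩),
  (List.forall_mem_cons.2 ⟨(List.forall_mem_singleton.2 ⟨e118, by decide +kernel⟩),
  (List.forall_mem_cons.2 ⟨(List.forall_mem_cons.2 ⟨⟨e119, by decide +kernel⟩,
  (List.forall_mem_singleton.2 ⟨e120, by decide +kernel⟩)⟩),
  (List.forall_mem_cons.2 ⟨(List.forall_mem_singleton.2 ⟨e121, by decide +kernel⟩),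
  (List.forall_mem_cons.2 ⟨(List.forall_mem_singleton.2 ⟨e122, by decide +kernel⟩),
  (List.forall_mem_cons.2 ⟨(List.forall_mem_singleton.2 ⟨e123, by decide +kernel⟩),
  (List.forall_mem_singleton.2 (List.forall_mem_singleton.2 ⟨e124, by decide +kernel⟩))⟩)⟩)⟩)⟩)⟩)⟩)⟩)⟩)⟩)⟩)⟩)⟩)⟩)⟩)⟩)⟩)⟩)⟩)⟩)⟩)⟩)⟩)⟩)⟩)⟩)⟩)⟩)⟩)⟩)⟩)⟩)⟩)⟩)⟩)⟩)⟩)⟩)⟩)⟩)⟩)⟩)⟩)⟩)⟩)⟩)⟩)⟩)⟩)⟩)⟩)⟩)⟩)⟩)⟩)⟩)⟩)⟩)⟩)⟩)⟩)⟩)⟩)⟩)⟩)⟩)⟩)⟩)⟩)⟩)⟩)⟩)⟩)⟩)⟩)⟩)⟩)⟩)⟩)⟩)⟩)⟩)⟩)⟩)⟩)

end

end Pool.Agent.H21.EGZ.S0
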