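import Pool.Agent.H21.EGZ.D10

/-!
# Stage 10 : search, part 0
-/

set_option autoImplicit false
set_option maxRecDepth 100000

namespace Pool.Agent.H21.EGZ.S10

noncomputable section

open Pool.Agent.H74.EGZ Pool.Agent.H94.Lift

/-- refutations 0 -/
def e0 : EX := (.node (.node .leaf (nat_lit 6754568956209) (.br (nat_lit 0) (.cons (.br (nat_lit 3) (.cons (.rel (nat_lit 545280000)) .nil)) .nil)) .leaf) (nat_lit 8008994183193) (.br (nat_lit 0) (.cons (.br (nat_lit 4) (.cons (.rel (nat_lit 1078002816)) .nil)) .nil)) .leaf)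

/-- refutations 2 -/
def e2 : EX := (.node .leaf (nat_lit 133946671636512) (.br (nat_lit 0) (.cons (.br (nat_lit 1) (.cons (.rel (nat_lit 37756944)) .nil)) .nil)) .leaf)

/-- refutations 3 -/
def e3 : EX := (.node (.node (.node .leaf (nat_lit 440944424430824) (.br (nat_lit 4) (.cons (.br (nat_lit 6) (.cons (.rel (nat_lit 18254135304)) .nil)) .nil)) .leaf) (nat_lit 440944425504818) (.br (nat_lit 2) (.cons (.br (nat_lit 5) (.cons (.rel (nat_lit 4429250568)) .nil)) .nil)) (.node .leaf (nat_lit 440944425505574) (.br (nat_lit 3) (.cons (.br (nat_lit 4) (.cons (.rel (nat_lit 1342179360)) .nil)) .nil)) .leaf)) (nat_lit 450760726879643) (.br (nat_lit 0) (.cons (.br (nat_lit 4) (.cons (.rel (nat_lit 1078329408)) .nil)) .nil)) (.node (.node .leaf (nat_lit 450760727075073) (.br (nat_lit 1) (.cons (.br (nat_lit 5) (.cons (.rel (nat_lit 4311812100)) .nil)) .nil)) .leaf) (nat_lit 450760727425281) (.br (nat_lit 1) (.cons (.br (nat_lit 5) (.cons (.rel (nat_lit 4311812100)) (.cons (.rel (nat_lit 4311745797)) .nil))) .nil)) (.node .leaf (nat_lit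 450760727425299) (.br (nat_lit 1) (.cons (.br (nat_lit 4) (.cons (.rel (nat_lit 1107361800)) .nil)) .nil)) .leaf)))

/-- refutations 5 -/
def e5 : EX := (.node (.node (.node .leaf (nat_lit 880044254477799) (.br (nat_lit 0) (.cons (.br (nat_lit 3) (.cons (.rel (nat_lit 272716032)) .nil)) .nil)) .leaf) (nat_lit 880098960731017) (.br (nat_lit 0) (.cons (.br (nat_lit 2) (.cons (.rel (nat_lit 71372808)) .nil)) .nil)) .leaf) (nat_lit 880099063093249) (.br (nat_lit 0) (.cons (.br (nat_lit 1) (.cons (.rel (nat_lit 37814532)) .nil)) .nil)) (.node (.node .leaf (nat_lit 880769071790760) (.br (nat_lit 1) (.cons (.br (nat_lit 3) (.cons (.rel (nat_lit 285221889)) .nil)) .nil)) .leaf) (nat_lit 880774822181544) (.br (nat_lit 0) (.cons (.br (nat_lit 1) (.cons (.rel (nat_lit 21528576)) .nil)) .nil)) .leaf))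

/-- refutations 6 -/
def e6 : EX := (.node (.node .leaf (nat_lit 880943576116105) (.br (nat_lit 0) (.cons (.br (nat_lit 1) (.cons (.rel (nat_lit 25166097)) .nil)) .nil)) .leaf) (nat_lit 881113801984910) (.br (nat_lit 0) (.cons (.br (nat_lit 1) (.cons (.rel (nat_lit 41947716)) .nil)) .nil)) (.node .leaf (nat_lit 881117996301170) (.br (nat_lit 1) (.cons (.br (nat_lit 0) (.cons (.rel (nat_lit 22102017)) (.cons (.rel (nat_lit 37769220)) .nil))) .nil)) .leaf))

/-- refutations 7 -/
def e7 : EX := (.node (.node (.node .leaf (nat_lit 882247194078570) (.br (nat_lit 0) (.cons (.br (nat_lit 1) (.cons (.rel (nat_lit 22029312)) .nil)) .nil)) .leaf) (nat_lit 882247701691000) (.br (nat_lit 6) (.cons (.br (nat_lit 2) (.cons (.rel (nat_lit 34493972496)) (.cons (.rel (nat_lit 17248043076)) .nil))) .nil)) (.node .leaf (nat_lit 882247701691629) (.br (nat_lit 5) (.cons (.br (nat_lit 2) (.cons (.br (nat_lit 6) (.cons (.rel (nat_lit 17247010848)) (.cons (.rel (nat_lit 21476147208)) .nil))) (.cons (.rel (nat_lit 4363386948)) .nil))) .nil)) .leaf))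 (nat_lit 882247701691754) (.br (nat_lit 0) (.cons (.br (nat_lit 2) (.cons (.rel (nat_lit 71335953)) .nil)) .nil)) (.node (.node .leaf (nat_lit 882251867306664) (.br (nat_lit 0) (.cons (.br (nat_lit 3) (.cons (.rel (nat_lit 272647173)) .nil)) .nil)) .leaf) (nat_lit 885502008361640) (.br (nat_lit 1) (.cons (.br (nat_lit 2) (.cons (.rel (nat_lit 100925457)) .nil)) .nil)) (.node .leaf (nat_lit 885502008362366) (.br (nat_lit 1) (.cons (.br (nat_lit 2) (.cons (.rel (nat_lit 85196820)) .nil)) .nil)) .leaf)))

/-- refutations 8 -/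
def e8 : EX := (.node (.node (.node .leaf (nat_lit 886361023048585) (.br (nat_lit 1) (.cons (.br (nat_lit 4) (.cons (.rel (nat_lit 2164294656)) .nil)) .nil)) .leaf) (nat_lit 886366446336000) (.br (nat_lit 2) (.cons (.br (nat_lit 1) (.cons (.rel (nat_lit 167773188)) (.cons (.rel (nat_lit 83886117)) .nil))) .nil)) (.node .leaf (nat_lit 886366446336882) (.br (nat_lit 0) (.cons (.br (nat_lit 3) (.cons (.rel (nat_lit 272630037)) .nil)) .nil)) .leaf)) (nat_lit 886366892579067) (.br (nat_lit 1) (.cons (.br (nat_lit 2) (.cons (.rel (nat_lit 84935232)) .nil)) .nil)) (.node (.node .leaf (nat_lit 886366894766080) (.br (nat_lit 0) (.cons (.br (nat_lit 1) (.cons (.rel (nat_lit 42221568)) .nil)) .nil)) .leaf) (nat_lit 886486704128680) (.br (nat_lit 0) (.cons (.br (nat_lit 1) (.cons (.rel (nat_lit 21299268)) .nil)) .nil)) .leaf))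

/-- refutations 9 -/
def e9 : EX := (.node (.node (.node (.node .leaf (nat_lit 886578573261682) (.br (nat_lit 3) (.cons (.br (nat_lit 5) (.cons (.rel (nat_lit 4563992724)) .nil)) .nil)) .leaf) (nat_lit 886578573427364) (.br (nat_lit 0) (.cons (.br (nat_lit 3) (.cons (.rel (nat_lit 272761344)) (.cons (.rel (nat_lit 542113794)) .nil))) .nil)) .leaf) (nat_lit 886581010088717) (.br (nat_lit 0) (.cons (.br (nat_lit 2) (.cons (.rel (nat_lit 71371008)) .nil)) .nil)) (.node (.node .leaf (nat_lit 886581010151424) (.br (nat_lit 0) (.cons (.br (nat_lit 1) (.cons (.rel (nat_lit 20972676)) .nil)) .nil)) .leaf) (nat_lit 886581194700800) (.br (nat_lit 0) (.cons (.br (nat_lit 2) (.cons (.rel (nat_lit 71385120)) (.cons (.rel (nat_lit 71335953)) .nil))) .nil)) .leaf)) (nat_lit 886581194701682) (.br (nat_lit 3) (.cons (.br (nat_lit 1) (.cons (.rel (nat_lit 285343761)) (.cons (.rel (nat_lit 285231360)) .nil))) .nil)) (.node (.node (.node .leaf (nat_lit 886581194702311) (.br (nat_lit 0) (.cons (.br (nat_lit 1) (.cons (.rel (nat_lit 22102017))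 .nil)) .nil)) .leaf) (nat_lit 886581555094914) (.br (nat_lit 1) (.cons (.br (nat_lit 3) (.cons (.rel (nat_lit 285221889)) .nil)) .nil)) .leaf) (nat_lit 887340921780281) (.br (nat_lit 0) (.cons (.br (nat_lit 3) (.cons (.rel (nat_lit 545280000)) .nil)) .nil)) (.node (.node .leaf (nat_lit 887346790674432) (.br (nat_lit 0) (.cons (.br (nat_lit 2) (.cons (.rel (nat_lit 71303700)) .nil)) .nil)) .leaf) (nat_lit 887432143738880) (.br (nat_lit 0) (.cons (.br (nat_lit 2) (.cons (.rel (nat_lit 75498564)) (.cons (.rel (nat_lit 71311365)) .nil))) .nil)) .leaf)))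

/-- refutations 10 -/
def e10 : EX := (.node (.node .leaf (nat_lit 890871488408938) (.br (nat_lit 0) (.cons (.br (nat_lit 1) (.cons (.rel (nat_lit 22029312)) .nil)) .nil)) .leaf) (nat_lit 890873852262457) (.br (nat_lit 0) (.cons (.br (nat_lit 1) (.cons (.rel (nat_lit 20972676)) .nil)) .nil)) (.node .leaf (nat_lit 891506488999450) (.br (nat_lit 0) (.cons (.br (nat_lit 2) (.cons (.rel (nat_lit 71434242)) .nil)) .nil)) .leaf))

/-- refutations 11 -/
def e11 : EX := (.node (.node (.node (.node .leaf (nat_lit 891678286428840) (.br (nat_lit 0) (.cons (.br (nat_lit 2) (.cons (.rel (nat_lit 71303700)) .nil)) .nil)) .leaf) (nat_lit 891849991252873) (.br (nat_lit 0) (.cons (.br (nat_lit 2) (.cons (.rel (nat_lit 71311365)) .nil)) .nil)) .leaf) (nat_lit 891852731832571) (.br (nat_lit 0) (.cons (.br (nat_lit 2) (.cons (.rel (nat_lit 77594880)) .nil)) .nil)) (.node .leaf (nat_lit 891852792740520) (.br (nat_lit 3) (.cons (.br (nat_lit 1) (.cons (.rel (nat_lit 285221889)) (.cons (.rel (nat_lit 285214224)) (.cons (.rel (nat_lit 285283332))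 (.cons (.rel (nat_lit 285343761)) .nil))))) .nil)) .leaf)) (nat_lit 891852792791720) (.br (nat_lit 1) (.cons (.br (nat_lit 3) (.cons (.rel (nat_lit 285221889)) .nil)) .nil)) (.node (.node (.node .leaf (nat_lit 891852793047040) (.br (nat_lit 0) (.cons (.br (nat_lit 1) (.cons (.rel (nat_lit 37819392)) .nil)) .nil)) .leaf) (nat_lit 891853105326080) (.br (nat_lit 2) (.cons (.br (nat_lit 3) (.cons (.rel (nat_lit 402669828)) .nil)) .nil)) .leaf) (nat_lit 891853107620745) (.br (nat_lit 0) (.cons (.br (nat_lit 1) (.cons (.rel (nat_lit 25166097)) .nil)) .nil)) (.node .leaf (nat_lit 891853346388648) (.br (nat_lit 3) (.cons (.br (nat_lit 2) (.cons (.rel (nat_lit 603996165)) (.cons (.rel (nat_lit 335609925)) (.cons (.rel (nat_lit 335839233)) .nil)))) .nil)) .leaf)))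

/-- refutations 12 -/
def e12 : EX := (.node (.node (.node (.node .leaf (nat_lit 892494246635520) (.br (nat_lit 0) (.cons (.br (nat_lit 3) (.cons (.rel (nat_lit 272631042)) .nil)) .nil)) .leaf) (nat_lit 892497350215680) (.br (nat_lit 2) (.cons (.br (nat_lit 5) (.cons (.rel (nat_lit 4362162240)) .nil)) .nil)) (.node .leaf (nat_lit 892497350420480) (.br (nat_lit 2) (.cons (.br (nat_lit 3) (.cons (.rel (nat_lit 335806980)) .nil)) .nil)) .leaf)) (nat_lit 892497352407720) (.br (nat_lit 1) (.cons (.br (nat_lit 3) (.cons (.rel (nat_lit 285221889)) .nil)) .nil)) (.node (.node .leaf (nat_lit 892497352715145) (.br (nat_lit 0) (.cons (.br (nat_lit 1) (.cons (.rel (nat_lit 25166097)) .nil)) .nil)) .leaf) (nat_lit 892497353021440) (.br (nat_lit 1) (.cons (.br (nat_lit 2) (.cons (.rel (nat_lit 83888136)) .nil)) .nil)) (.node .leaf (nat_lit 892497353022120) (.br (nat_lit 1) (.cons (.br (nat_lit 2) (.cons (.rel (nat_lit 83888136)) .nil)) .nil)) .leaf))) (nat_lit 892497353022195) (.br (nat_lit 0) (.cons (.br (nat_lit 4) (.cons (.rel (nat_lit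 1078985733)) .nil)) .nil)) (.node (.node (.node .leaf (nat_lit 892499659889320) (.br (nat_lit 2) (.cons (.br (nat_lit 3) (.cons (.rel (nat_lit 335548482)) .nil)) .nil)) .leaf) (nat_lit 892923956711424) (.br (nat_lit 2) (.cons (.br (nat_lit 5) (.cons (.rel (nat_lit 4362207552)) .nil)) .nil)) (.node .leaf (nat_lit 892927056396320) (.br (nat_lit 0) (.cons (.br (nat_lit 2) (.cons (.rel (nat_lit 71434242)) .nil)) .nil)) .leaf)) (nat_lit 892927581196975) (.br (nat_lit 0) (.cons (.br (nat_lit 5) (.cons (.rel (nat_lit 4299178497)) .nil)) .nil)) (.node (.node .leaf (nat_lit 893018446544896) (.br (nat_lit 0) (.cons (.br (nat_lit 1) (.cons (.rel (nat_lit 21528576)) .nil)) .nil)) .leaf) (nat_lit 893021335911650) (.br (nat_lit 0) (.cons (.br (nat_lit 2) (.cons (.rel (nat_lit 71335953)) .nil)) .nil)) .leaf)))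

/-- refutations 14 -/
def e14 : EX := (.node (.node .leaf (nat_lit 1003245535564452) (.br (nat_lit 1) (.cons (.br (nat_lit 3) (.cons (.rel (nat_lit 302260224)) .nil)) .nil)) .leaf) (nat_lit 1003245537100452) (.br (nat_lit 0) (.cons (.br (nat_lit 1) (.cons (.rel (nat_lit 37753089)) .nil)) .nil)) (.node .leaf (nat_lit 1004150083645447) (.br (nat_lit 0) (.cons (.br (nat_lit 1) (.cons (.rel (nat_lit 22151184)) .nil)) .nil)) .leaf))

/-- refutations 15 -/
def e15 : EX := (.node (.node (.node .leaf (nat_lit 1009689559666695) (.br (nat_lit 4) (.cons (.br (nat_lit 5) (.cons (.rel (nat_lit 10737422352)) .nil)) .nil)) .leaf) (nat_lit 1009690591465479) (.br (nat_lit 0) (.cons (.br (nat_lit 1) (.cons (.rel (nat_lit 20972676)) .nil)) .nil)) (.node .leaf (nat_lit 1009692032313351) (.br (nat_lit 0) (.cons (.br (nat_lit 1) (.cons (.rel (nat_lit 21237825)) .nil)) .nil)) .leaf)) (nat_lit 1010760636370951) (.br (nat_lit 1) (.cons (.br (nat_lit 2) (.cons (.rel (nat_lit 167773188)) .nil)) .nil)) (.node (.node .leaf (nat_lit 1010764333281287)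 (.br (nat_lit 0) (.cons (.br (nat_lit 1) (.cons (.rel (nat_lit 21237825)) .nil)) .nil)) .leaf) (nat_lit 1015643416129718) (.br (nat_lit 0) (.cons (.br (nat_lit 1) (.cons (.rel (nat_lit 37814532)) .nil)) .nil)) .leaf))

/-- refutations 16 -/
def e16 : EX := (.node (.node (.node (.node .leaf (nat_lit 1073554152489647) (.br (nat_lit 3) (.cons (.br (nat_lit 4) (.cons (.rel (nat_lit 1342178310)) .nil)) .nil)) .leaf) (nat_lit 1073651244128561) (.br (nat_lit 1) (.cons (.br (nat_lit 2) (.cons (.rel (nat_lit 83888136)) .nil)) .nil)) (.node .leaf (nat_lit 1073653311627951) (.br (nat_lit 1) (.cons (.br (nat_lit 2) (.cons (.rel (nat_lit 83886117)) .nil)) .nil)) .leaf)) (nat_lit 1074423784390667) (.br (nat_lit 0) (.cons (.br (nat_lit 5) (.cons (.rel (nat_lit 4299162660)) (.cons (.rel (nat_lit 4299161610)) .nil))) .nil)) (.node (.node .leaf (nat_lit 1078982991151784) (.br (nat_lit 0) (.cons (.br (nat_lit 1) (.cons (.rel (nat_lit 25182228)) .nil)) .nil)) .leaf) (nat_lit 1079018707337227) (.br (nat_lit 0) (.cons (.br (nat_lit 1) (.cons (.rel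 (nat_lit 20972676)) .nil)) .nil)) .leaf)) (nat_lit 1079018708832267) (.br (nat_lit 0) (.cons (.br (nat_lit 1) (.cons (.rel (nat_lit 22151184)) .nil)) .nil)) (.node (.node (.node .leaf (nat_lit 1079018708833787) (.br (nat_lit 0) (.cons (.br (nat_lit 1) (.cons (.rel (nat_lit 41979969)) .nil)) .nil)) .leaf) (nat_lit 1079018816389427) (.br (nat_lit 0) (.cons (.br (nat_lit 3) (.cons (.br (nat_lit 4) (.cons (.rel (nat_lit 1342308612)) .nil)) .nil)) .nil)) (.node .leaf (nat_lit 1079018921510923) (.br (nat_lit 3) (.cons (.br (nat_lit 5) (.cons (.rel (nat_lit 4563435600)) .nil)) .nil)) .leaf)) (nat_lit 1079018921511169) (.br (nat_lit 1) (.cons (.br (nat_lit 3) (.cons (.rel (nat_lit 570441744)) .nil)) .nil)) (.node (.node .leaf (nat_lit 1079998175213873) (.br (nat_lit 1) (.cons (.br (nat_lit 3) (.cons (.rel (nat_lit 285283332)) .nil)) .nil)) .leaf) (nat_lit 1079998176759186) (.br (nat_lit 0) (.cons (.br (nat_lit 2) (.cons (.rel (nat_lit 142671873)) .nil)) .nil)) .leaf)))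

/-- refutations 17 -/
def e17 : EX := (.node (.node (.node (.node .leaf (nat_lit 1080951442621947) (.br (nat_lit 0) (.cons (.br (nat_lit 3) (.cons (.rel (nat_lit 276893760)) .nil)) .nil)) .leaf) (nat_lit 1084387630630944) (.br (nat_lit 0) (.cons (.br (nat_lit 2) (.cons (.rel (nat_lit 71434242)) .nil)) .nil)) .leaf) (nat_lit 1084388108517387) (.br (nat_lit 5) (.cons (.br (nat_lit 1) (.cons (.rel (nat_lit 4311760914)) (.cons (.rel (nat_lit 4311744792)) .nil))) .nil)) (.node .leaf (nat_lit 1084388108518177) (.br (nat_lit 1) (.cons (.br (nat_lit 5) (.cons (.rel (nat_lit 4311760914)) .nil)) .nil)) .leaf)) (nat_lit 1084388662669587) (.br (nat_lit 1) (.cons (.br (nat_lit 4) (.cons (.rel (nat_lit 1091569920)) .nil)) .nil)) (.node (.node .leaf (nat_lit 1085163827030027) (.br (nat_lit 3) (.cons (.br (nat_lit 1) (.cons (.rel (nat_lit 285231360)) (.cons (.rel (nat_lit 285231360)) (.cons (.rel (nat_lit 285221889)) .nil)))) .nil)) .leaf) (nat_lit 1085163827030817) (.br (nat_lit 1) (.cons (.br (nat_lit 3) (.cons (.rel (nat_lit 286265424))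 .nil)) .nil)) (.node .leaf (nat_lit 1086272368994315) (.br (nat_lit 0) (.cons (.br (nat_lit 1) (.cons (.rel (nat_lit 25169952)) .nil)) .nil)) .leaf)))

/-- refutations 18 -/
def e18 : EX := (.node (.node (.node .leaf (nat_lit 652076404126446) (.br (nat_lit 0) (.cons (.br (nat_lit 1) (.cons (.rel (nat_lit 21516312)) .nil)) .nil)) .leaf) (nat_lit 657868741728318) (.br (nat_lit 1) (.cons (.br (nat_lit 3) (.cons (.rel (nat_lit 285214224)) .nil)) .nil)) .leaf) (nat_lit 662951258292286) (.br (nat_lit 3) (.cons (.br (nat_lit 4) (.cons (.rel (nat_lit 2684355600)) .nil)) .nil)) (.node .leaf (nat_lit 899827418038273) (.br (nat_lit 0) (.cons (.br (nat_lit 1) (.cons (.rel (nat_lit 25169952)) .nil)) .nil)) .leaf))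

/-- refutations 19 -/
def e19 : EX := (.node (.node (.node (.node (.node .leaf (nat_lit 2323303104575763) (.br (nat_lit 3) (.cons (.br (nat_lit 5) (.cons (.rel (nat_lit 8858371332)) .nil)) .nil)) .leaf) (nat_lit 2323303104890937) (.br (nat_lit 0) (.cons (.br (nat_lit 3) (.cons (.rel (nat_lit 272647173)) .nil)) .nil)) .leaf) (nat_lit 2323303104891155) (.br (nat_lit 4) (.cons (.br (nat_lit 5) (.cons (.rel (nat_lit 10737418497)) .nil)) .nil)) (.node .leaf (nat_lit 2323303105138845) (.br (nat_lit 0) (.cons (.br (nat_lit 1) (.cons (.rel (nat_lit 42221568)) (.cons (.rel (nat_lit 21237825)) .nil))) .nil)) .leaf)) (nat_lit 2323303105812755) (.br (nat_lit 5) (.cons (.br (nat_lit 6) (.cons (.rel (nat_lit 42949674000)) .nil)) .nil)) (.node (.node (.node .leaf (nat_lit 2323303105867030) (.br (nat_lit 0) (.cons (.br (nat_lit 4) (.cons (.rel (nat_lit 1078002816)) (.cons (.rel (nat_lit 1078002816)) .nil))) .nil)) .leaf) (nat_lit 2323303107646327) (.br (nat_lit 0) (.cons (.br (nat_lit 3) (.cons (.rel (nat_lit 272646168)) .nil)) .nil)) .leaf)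 (nat_lit 2323303107656480) (.br (nat_lit 2) (.cons (.br (nat_lit 6) (.cons (.rel (nat_lit 17246998536)) .nil)) .nil)) (.node .leaf (nat_lit 2323308766846977) (.br (nat_lit 1) (.cons (.br (nat_lit 5) (.cons (.rel (nat_lit 4311749652)) .nil)) .nil)) .leaf))) (nat_lit 2323308767201555) (.br (nat_lit 2) (.cons (.br (nat_lit 6) (.cons (.rel (nat_lit 34493972496)) .nil)) .nil)) (.node (.node (.node (.node .leaf (nat_lit 2323308768361960) (.br (nat_lit 0) (.cons (.br (nat_lit 2) (.cons (.rel (nat_lit 71311365)) .nil)) .nil)) .leaf) (nat_lit 2323308768720260) (.br (nat_lit 2) (.cons (.br (nat_lit 4) (.cons (.rel (nat_lit 1140875520)) .nil)) .nil)) .leaf) (nat_lit 2323308769966880) (.br (nat_lit 2) (.cons (.br (nat_lit 5) (.cons (.rel (nat_lit 4362342408)) .nil)) .nil)) (.node .leaf (nat_lit 2324794825885971) (.br (nat_lit 1) (.cons (.br (nat_lit 3) (.cons (.rel (nat_lit 285217029)) .nil)) .nil)) .leaf)) (nat_lit 2324794826092721) (.br (nat_lit 4) (.cons (.br (nat_lit 5) (.cons (.rel (nat_lit 5368710696)) .nil)) .nil)) (.node (.node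 (.node .leaf (nat_lit 2329688555243795) (.br (nat_lit 0) (.cons (.br (nat_lit 5) (.cons (.rel (nat_lit 4299194628)) .nil)) .nil)) .leaf) (nat_lit 2332920482590199) (.br (nat_lit 1) (.cons (.br (nat_lit 5) (.cons (.rel (nat_lit 4311761928)) .nil)) .nil)) .leaf) (nat_lit 2334432735263520) (.br (nat_lit 4) (.cons (.br (nat_lit 5) (.cons (.rel (nat_lit 10737418497)) .nil)) .nil)) (.node .leaf (nat_lit 2334432735264132) (.br (nat_lit 2) (.cons (.br (nat_lit 4) (.cons (.br (nat_lit 5) (.cons (.rel (nat_lit 5368717344)) .nil)) .nil)) .nil)) .leaf))))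

/-- refutations 20 -/
def e20 : EX := (.node .leaf (nat_lit 2404448436263587) (.br (nat_lit 0) (.cons (.br (nat_lit 1) (.cons (.rel (nat_lit 22024452)) .nil)) .nil)) .leaf)

/-- refutations 22 -/
def e22 : EX := (.node (.node (.node .leaf (nat_lit 2657723590494360) (.br (nat_lit 1) (.cons (.br (nat_lit 2) (.cons (.rel (nat_lit 83984388)) .nil)) .nil)) .leaf) (nat_lit 2658624994752688) (.br (nat_lit 1) (.cons (.br (nat_lit 2) (.cons (.rel (nat_lit 83984388)) (.cons (.rel (nat_lit 83888136)) .nil))) .nil)) (.node .leaf (nat_lit 2658624994753394) (.br (nat_lit 1) (.cons (.br (nat_lit 2) (.cons (.rel (nat_lit 83888136)) .nil)) .nil)) .leaf)) (nat_lit 2662948454470389) (.br (nat_lit 0) (.cons (.br (nat_lit 5) (.cons (.rel (nat_lit 4299161610)) .nil)) .nil)) (.node (.node .leaf (nat_lit 2664259991845544) (.br (nat_lit 2) (.cons (.br (nat_lit 5) (.cons (.rel (nat_lit 4429250568)) .nil)) .nil)) .leaf) (nat_lit 2664259991846176) (.br (nat_lit 0) (.cons (.br (nat_lit 1) (.cons (.rel (nat_lit 37753089)) .nil)) .nil)) (.node .leaf (nat_lit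 2664466150275752) (.br (nat_lit 1) (.cons (.br (nat_lit 5) (.cons (.rel (nat_lit 4311749652)) .nil)) .nil)) .leaf)))

/-- refutations 23 -/
def e23 : EX := (.node (.node (.node .leaf (nat_lit 2729028639786370) (.br (nat_lit 1) (.cons (.br (nat_lit 3) (.cons (.rel (nat_lit 285221889)) .nil)) .nil)) .leaf) (nat_lit 2738858953851060) (.br (nat_lit 0) (.cons (.br (nat_lit 1) (.cons (.rel (nat_lit 20972676)) .nil)) .nil)) .leaf) (nat_lit 2738860527935769) (.br (nat_lit 0) (.cons (.br (nat_lit 1) (.cons (.rel (nat_lit 22102017)) .nil)) .nil)) (.node .leaf (nat_lit 2739763041310074) (.br (nat_lit 0) (.cons (.br (nat_lit 4) (.cons (.rel (nat_lit 2151743505)) .nil)) .nil)) .leaf))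

/-- refutations 24 -/
def e24 : EX := (.node (.node (.node (.node .leaf (nat_lit 3079122424763754) (.br (nat_lit 2) (.cons (.br (nat_lit 3) (.cons (.br (nat_lit 6) (.cons (.rel (nat_lit 17448372240)) .nil)) .nil)) .nil)) .leaf) (nat_lit 3080136530382910) (.br (nat_lit 2) (.cons (.br (nat_lit 6) (.cons (.rel (nat_lit 17246987265)) .nil)) .nil)) (.node .leaf (nat_lit 3080136532198802) (.br (nat_lit 3) (.cons (.br (nat_lit 4) (.cons (.rel (nat_lit 1342179360)) (.cons (.rel (nat_lit 2415919188)) .nil))) .nil)) .leaf)) (nat_lit 3080136533207970) (.br (nat_lit 5) (.cons (.br (nat_lit 1) (.cons (.rel (nat_lit 4311812100)) (.cons (.br (nat_lit 3) (.cons (.rel (nat_lit 302006337)) (.cons (.rel (nat_lit 4831847424)) .nil))) .nil))) .nil)) (.node (.node .leaf (nat_lit 3080138673672254) (.br (nat_lit 2) (.cons (.br (nat_lit 4) (.cons (.br (nat_lit 3) (.cons (.rel (nat_lit 2415919188)) (.cons (.rel (nat_lit 1342179360)) .nil))) .nil)) .nil)) .leaf) (nat_lit 3080138675488146) (.br (nat_lit 2) (.cons (.br (nat_lit 3) (.cons (.br (nat_lit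 4) (.cons (.rel (nat_lit 1140856833)) (.cons (.rel (nat_lit 1342179360)) .nil))) .nil)) .nil)) .leaf)) (nat_lit 3080138676497314) (.br (nat_lit 2) (.cons (.br (nat_lit 5) (.cons (.br (nat_lit 6) (.cons (.br (nat_lit 4) (.cons (.rel (nat_lit 5368709634)) (.cons (.rel (nat_lit 1140868104)) (.cons (.rel (nat_lit 18254135304)) .nil)))) .nil)) .nil)) .nil)) (.node (.node (.node .leaf (nat_lit 3081210799575845) (.br (nat_lit 0) (.cons (.br (nat_lit 1) (.cons (.rel (nat_lit 38813760)) .nil)) .nil)) .leaf) (nat_lit 3085504549959805) (.br (nat_lit 1) (.cons (.br (nat_lit 2) (.cons (.rel (nat_lit 167773188)) .nil)) .nil)) .leaf) (nat_lit 3085507861004413) (.br (nat_lit 5) (.cons (.br (nat_lit 1) (.cons (.rel (nat_lit 4311744792)) (.cons (.rel (nat_lit 4311750657)) .nil))) .nil)) (.node (.node .leaf (nat_lit 3085507861004545) (.br (nat_lit 3) (.cons (.br (nat_lit 5) (.cons (.rel (nat_lit 8858386449)) .nil)) .nil)) .leaf) (nat_lit 3085507861422205) (.br (nat_lit 4) (.cons (.br (nat_lit 0) (.cons (.rel (nat_lit 2156135424)) (.cons (.rel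 (nat_lit 1077952644)) .nil))) .nil)) .leaf)))

/-- refutations 25 -/
def e25 : EX := (.node (.node (.node (.node (.node .leaf (nat_lit 3086237529048466) (.br (nat_lit 0) (.cons (.br (nat_lit 1) (.cons (.rel (nat_lit 21237825)) .nil)) .nil)) .leaf) (nat_lit 3086639157485693) (.br (nat_lit 1) (.cons (.br (nat_lit 2) (.cons (.rel (nat_lit 83972112)) .nil)) .nil)) .leaf) (nat_lit 3086641735339539) (.br (nat_lit 1) (.cons (.br (nat_lit 2) (.cons (.rel (nat_lit 83887122)) .nil)) .nil)) (.node .leaf (nat_lit 3086642286522529) (.br (nat_lit 0) (.cons (.br (nat_lit 2) (.cons (.rel (nat_lit 72355905)) .nil)) .nil)) .leaf)) (nat_lit 3090672934926461) (.br (nat_lit 3) (.cons (.br (nat_lit 4) (.cons (.rel (nat_lit 1342179360)) (.cons (.rel (nat_lit 1342179360)) (.cons (.rel (nat_lit 1342251024)) .nil)))) .nil)) (.node (.node (.node .leaf (nat_lit 3090672934926488) (.br (nat_lit 2) (.cons (.br (nat_lit 1) (.cons (.rel (nat_lit 83888136)) (.cons (.rel (nat_lit 83922945)) .nil))) .nil)) .leaf) (nat_lit 3090672934927023) (.br (nat_lit 3) (.cons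 (.br (nat_lit 5) (.cons (.rel (nat_lit 4563435600)) .nil)) .nil)) .leaf) (nat_lit 3090672934927266) (.br (nat_lit 1) (.cons (.br (nat_lit 3) (.cons (.rel (nat_lit 285231360)) .nil)) .nil)) (.node .leaf (nat_lit 3090873427212413) (.br (nat_lit 0) (.cons (.br (nat_lit 1) (.cons (.rel (nat_lit 22029312)) .nil)) .nil)) .leaf))) (nat_lit 3090873455284981) (.br (nat_lit 1) (.cons (.br (nat_lit 2) (.cons (.rel (nat_lit 167773188)) .nil)) .nil)) (.node (.node (.node (.node .leaf (nat_lit 3090876092237949) (.br (nat_lit 5) (.cons (.br (nat_lit 6) (.cons (.rel (nat_lit 21474837510)) (.cons (.rel (nat_lit 21474836505)) .nil))) .nil)) .leaf) (nat_lit 3090876092237985) (.br (nat_lit 1) (.cons (.br (nat_lit 6) (.cons (.rel (nat_lit 34393293888)) (.cons (.rel (nat_lit 34376515842)) (.cons (.rel (nat_lit 34376581140)) .nil)))) .nil)) .leaf) (nat_lit 3090876092239136) (.br (nat_lit 1) (.cons (.br (nat_lit 3) (.cons (.rel (nat_lit 570441744)) .nil)) .nil)) (.node .leaf (nat_lit 3090876093728032) (.br (nat_lit 0) (.cons (.br (nat_lit 3) (.cons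 (.rel (nat_lit 277086240)) .nil)) .nil)) .leaf)) (nat_lit 3090876570124413) (.br (nat_lit 3) (.cons (.br (nat_lit 4) (.cons (.rel (nat_lit 2684355600)) .nil)) .nil)) (.node (.node (.node .leaf (nat_lit 3090877124277755) (.br (nat_lit 4) (.cons (.br (nat_lit 3) (.cons (.rel (nat_lit 1610875200)) (.cons (.rel (nat_lit 1342177305)) .nil))) .nil)) .leaf) (nat_lit 3090879192782210) (.br (nat_lit 0) (.cons (.br (nat_lit 6) (.cons (.rel (nat_lit 17188405248)) .nil)) .nil)) .leaf) (nat_lit 3090879192832780) (.br (nat_lit 1) (.cons (.br (nat_lit 2) (.cons (.rel (nat_lit 83887122)) .nil)) .nil)) (.node .leaf (nat_lit 3090879194624176) (.br (nat_lit 0) (.cons (.br (nat_lit 5) (.cons (.rel (nat_lit 8598323205)) (.cons (.rel (nat_lit 4299178497)) .nil))) .nil)) .leaf))))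

/-- refutations 26 -/
def e26 : EX := (.node .leaf (nat_lit 3120574618982527) (.br (nat_lit 1) (.cons (.br (nat_lit 2) (.cons (.rel (nat_lit 83887122)) .nil)) .nil)) .leaf)

/-- refutations 27 -/
def e27 : EX := (.node (.node .leaf (nat_lit 3208713847009530) (.br (nat_lit 0) (.cons (.br (nat_lit 1) (.cons (.rel (nat_lit 22151184)) .nil)) .nil)) .leaf) (nat_lit 3209515348908314) (.br (nat_lit 0) (.cons (.br (nat_lit 1) (.cons (.rel (nat_lit 22151184)) .nil)) .nil)) .leaf)

/-- refutations 29 -/
def e29 : EX := (.node (.node .leaf (nat_lit 4597425233722030) (.br (nat_lit 0) (.cons (.br (nat_lit 6) (.cons (.rel (nat_lit 17188405248)) .nil)) .nil)) .leaf) (nat_lit 4925898727598385) (.br (nat_lit 0) (.cons (.br (nat_lit 1) (.cons (.rel (nat_lit 22151184)) (.cons (.rel (nat_lit 20972676)) .nil))) .nil)) .leaf)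

/-- refutations 30 -/
def e30 : EX := (.node (.node (.node (.node .leaf (nat_lit 5278086045614091) (.br (nat_lit 2) (.cons (.br (nat_lit 6) (.cons (.rel (nat_lit 34426847304)) .nil)) .nil)) .leaf) (nat_lit 5278088665766138) (.br (nat_lit 0) (.cons (.br (nat_lit 2) (.cons (.rel (nat_lit 71335953)) .nil)) .nil)) .leaf) (nat_lit 5279162453768872) (.br (nat_lit 2) (.cons (.br (nat_lit 3) (.cons (.rel (nat_lit 402720000)) .nil)) .nil)) (.node (.node .leaf (nat_lit 5279162455271674) (.br (nat_lit 0) (.cons (.br (nat_lit 1) (.cons (.rel (nat_lit 25183233)) .nil)) .nil)) .leaf) (nat_lit 5279162456593939) (.br (nat_lit 1) (.cons (.br (nat_lit 4) (.cons (.rel (nat_lit 1107314688)) .nil)) .nil)) .leaf)) (nat_lit 5280233004044538) (.br (nat_lit 4) (.cons (.br (nat_lit 5) (.cons (.rel (nat_lit 5368717344)) .nil)) .nil)) (.node (.node (.node .leaf (nat_lit 5280296224186419) (.br (nat_lit 1) (.cons (.br (nat_lit 2) (.cons (.rel (nat_lit 83886117)) .nil)) .nil)) .leaf) (nat_lit 5283551910345384) (.br (nat_lit 0) (.cons (.br (nat_lit 3) (.cons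 (.rel (nat_lit 273945600)) .nil)) .nil)) .leaf) (nat_lit 5283551911591947) (.br (nat_lit 2) (.cons (.br (nat_lit 5) (.cons (.rel (nat_lit 4429250568)) .nil)) .nil)) (.node (.node .leaf (nat_lit 5283551913170451) (.br (nat_lit 1) (.cons (.br (nat_lit 4) (.cons (.rel (nat_lit 1091059713)) .nil)) .nil)) .leaf) (nat_lit 5283553990692327) (.br (nat_lit 1) (.cons (.br (nat_lit 3) (.cons (.rel (nat_lit 285221889)) .nil)) .nil)) .leaf)))

/-- refutations 31 -/
def e31 : EX := (.node (.node (.node (.node .leaf (nat_lit 5284184207452840) (.br (nat_lit 0) (.cons (.br (nat_lit 1) (.cons (.rel (nat_lit 20972676)) .nil)) .nil)) .leaf) (nat_lit 5284187877162370) (.br (nat_lit 0) (.cons (.br (nat_lit 1) (.cons (.rel (nat_lit 25182228)) .nil)) .nil)) (.node .leaf (nat_lit 5284531473234170) (.br (nat_lit 1) (.cons (.br (nat_lit 3) (.cons (.rel (nat_lit 570441744)) .nil)) .nil)) .leaf)) (nat_lit 5284531641356538) (.br (nat_lit 0) (.cons (.br (nat_lit 1) (.cons (.rel (nat_lit 20972676)) (.cons (.rel (nat_lit 22102017)) .nil))) .nil)) (.node (.node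 .leaf (nat_lit 5285491092578554) (.br (nat_lit 0) (.cons (.br (nat_lit 1) (.cons (.rel (nat_lit 22024452)) .nil)) .nil)) .leaf) (nat_lit 5290970256967930) (.br (nat_lit 0) (.cons (.br (nat_lit 1) (.cons (.rel (nat_lit 21528576)) .nil)) .nil)) .leaf)) (nat_lit 5290973567654138) (.br (nat_lit 1) (.cons (.br (nat_lit 2) (.cons (.rel (nat_lit 83887122)) .nil)) .nil)) (.node (.node (.node .leaf (nat_lit 5290973567663490) (.br (nat_lit 0) (.cons (.br (nat_lit 3) (.cons (.rel (nat_lit 272631042)) .nil)) .nil)) .leaf) (nat_lit 5290973569281410) (.br (nat_lit 1) (.cons (.br (nat_lit 4) (.cons (.rel (nat_lit 2164294656)) .nil)) .nil)) (.node .leaf (nat_lit 5290973570468090) (.br (nat_lit 0) (.cons (.br (nat_lit 1) (.cons (.rel (nat_lit 20972676)) .nil)) .nil)) .leaf)) (nat_lit 5290975665870210) (.br (nat_lit 1) (.cons (.br (nat_lit 4) (.cons (.rel (nat_lit 1091059713)) .nil)) .nil)) (.node (.node .leaf (nat_lit 5290975666332328) (.br (nat_lit 1) (.cons (.br (nat_lit 2) (.cons (.rel (nat_lit 83888136)) (.cons (.rel (nat_lit 84935232))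 .nil))) .nil)) .leaf) (nat_lit 5290975667620520) (.br (nat_lit 3) (.cons (.br (nat_lit 0) (.cons (.rel (nat_lit 545280000)) (.cons (.rel (nat_lit 273940740)) .nil))) .nil)) .leaf)))

/-- refutations 32 -/
def e32 : EX := (.node (.node .leaf (nat_lit 5472676483276925) (.br (nat_lit 2) (.cons (.br (nat_lit 5) (.cons (.rel (nat_lit 4362162240)) .nil)) .nil)) .leaf) (nat_lit 5472676483278307) (.br (nat_lit 1) (.cons (.br (nat_lit 2) (.cons (.rel (nat_lit 84017424)) .nil)) .nil)) (.node .leaf (nat_lit 5477927001382426) (.br (nat_lit 0) (.cons (.br (nat_lit 1) (.cons (.rel (nat_lit 20972676)) .nil)) .nil)) .leaf))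

/-- refutations 33 -/
def e33 : EX := (.node (.node .leaf (nat_lit 5484582133912833) (.br (nat_lit 0) (.cons (.br (nat_lit 1) (.cons (.rel (nat_lit 21528576)) .nil)) .nil)) .leaf) (nat_lit 5484582628061445) (.br (nat_lit 1) (.cons (.br (nat_lit 3) (.cons (.rel (nat_lit 285221889)) .nil)) .nil)) .leaf)

/-- refutations 34 -/
def e34 : EX := (.node .leaf (nat_lit 4973085380167805) (.br (nat_lit 2) (.cons (.br (nat_lit 4) (.cons (.rel (nat_lit 1140918276)) .nil)) .nil)) .leaf)

/-- refutations 35 -/
def e35 : EX := (.node (.node (.node .leaf (nat_lit 11172341638687521) (.br (nat_lit 1) (.cons (.br (nat_lit 4) (.cons (.rel (nat_lit 2181042240)) .nil)) .nil)) .leaf) (nat_lit 11172544043063577) (.br (nat_lit 0) (.cons (.br (nat_lit 2) (.cons (.rel (nat_lit 71335953)) .nil)) .nil)) (.node .leaf (nat_lit 11172546663137940) (.br (nat_lit 0) (.cons (.br (nat_lit 1) (.cons (.rel (nat_lit 25183233)) .nil)) .nil)) .leaf)) (nat_lit 11173675781315821) (.br (nat_lit 1) (.cons (.br (nat_lit 3) (.cons (.rel (nat_lit 285245472)) .nil)) .nil))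 (.node (.node .leaf (nat_lit 11177915372257940) (.br (nat_lit 0) (.cons (.br (nat_lit 1) (.cons (.rel (nat_lit 37766418)) .nil)) .nil)) .leaf) (nat_lit 11184012651756180) (.br (nat_lit 0) (.cons (.br (nat_lit 1) (.cons (.rel (nat_lit 22029312)) .nil)) .nil)) .leaf))

/-- refutations 36 -/
def e36 : EX := (.node (.node .leaf (nat_lit 11207556790993558) (.br (nat_lit 1) (.cons (.br (nat_lit 5) (.cons (.rel (nat_lit 4311810081)) .nil)) .nil)) .leaf) (nat_lit 11219580391776442) (.br (nat_lit 2) (.cons (.br (nat_lit 3) (.cons (.rel (nat_lit 335544672)) .nil)) .nil)) .leaf)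

/-- refutations 38 -/
def e38 : EX := (.node (.node .leaf (nat_lit 11875158432269545) (.br (nat_lit 2) (.cons (.br (nat_lit 3) (.cons (.rel (nat_lit 402657552)) .nil)) .nil)) .leaf) (nat_lit 11875158897836657) (.br (nat_lit 0) (.cons (.br (nat_lit 1) (.cons (.rel (nat_lit 20972676)) .nil)) .nil)) .leaf)

/-- refutations 41 -/
def e41 : EX := (.node .leaf (nat_lit 12005911303227443) (.br (nat_lit 0) (.cons (.br (nat_lit 3) (.cons (.rel (nat_lit 272697345)) .nil)) .nil)) .leaf)

/-- refutations 42 -/
def e42 : EX := (.node (.node (.node (.node .leaf (nat_lit 11559200777883710) (.br (nat_lit 5) (.cons (.br (nat_lit 6) (.cons (.rel (nat_lit 21474837510)) .nil)) .nil)) .leaf) (nat_lit 11559200779132130) (.br (nat_lit 0) (.cons (.br (nat_lit 6) (.cons (.rel (nat_lit 34363934724)) .nil)) .nil)) .leaf) (nat_lit 11559200779728260) (.br (nat_lit 4) (.cons (.br (nat_lit 5) (.cons (.rel (nat_lit 5368972416)) .nil)) .nil)) (.node (.node .leaf (nat_lit 11559200780975330) (.br (nat_lit 0) (.cons (.br (nat_lit 6) (.cons (.rel (nat_lit 34363934724))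 .nil)) .nil)) .leaf) (nat_lit 11559202979894135) (.br (nat_lit 3) (.cons (.br (nat_lit 6) (.cons (.rel (nat_lit 17448308742)) .nil)) .nil)) .leaf)) (nat_lit 11559202980219680) (.br (nat_lit 0) (.cons (.br (nat_lit 3) (.cons (.rel (nat_lit 272633892)) (.cons (.rel (nat_lit 272630037)) .nil))) .nil)) (.node (.node (.node .leaf (nat_lit 11559202980220392) (.br (nat_lit 0) (.cons (.br (nat_lit 1) (.cons (.rel (nat_lit 37756944)) .nil)) .nil)) .leaf) (nat_lit 11559202981379560) (.br (nat_lit 0) (.cons (.br (nat_lit 3) (.cons (.rel (nat_lit 276893760)) .nil)) .nil)) .leaf) (nat_lit 11559202982770152) (.br (nat_lit 0) (.cons (.br (nat_lit 2) (.cons (.rel (nat_lit 71372808)) .nil)) .nil)) (.node .leaf (nat_lit 11570324745024900) (.br (nat_lit 1) (.cons (.br (nat_lit 2) (.cons (.rel (nat_lit 83888136)) .nil)) .nil)) .leaf)))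

/-- refutations 43 -/
def e43 : EX := (.node (.node .leaf (nat_lit 13196292920910599) (.br (nat_lit 0) (.cons (.br (nat_lit 6) (.cons (.rel (nat_lit 34363932705)) .nil)) .nil)) .leaf) (nat_lit 13202134076433159) (.br (nat_lit 0) (.cons (.br (nat_lit 1) (.cons (.rel (nat_lit 37753089)) .nil)) .nil)) (.node .leaf (nat_lit 13283217200159500) (.br (nat_lit 1) (.cons (.br (nat_lit 2) (.cons (.rel (nat_lit 83887122)) .nil)) .nil)) .leaf))

/-- refutations 44 -/
def e44 : EX := (.node (.node .leaf (nat_lit 13301897551624368) (.br (nat_lit 1) (.cons (.br (nat_lit 2) (.cons (.rel (nat_lit 83972112)) .nil)) .nil)) .leaf) (nat_lit 13301897551625578) (.br (nat_lit 2) (.cons (.br (nat_lit 3) (.cons (.rel (nat_lit 335548482)) .nil)) .nil)) .leaf)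

/-- refutations 45 -/
def e45 : EX := (.node (.node .leaf (nat_lit 13318419444179726) (.br (nat_lit 0) (.cons (.br (nat_lit 1) (.cons (.rel (nat_lit 21237825)) .nil)) .nil)) .leaf) (nat_lit 13318421584661362) (.br (nat_lit 0) (.cons (.br (nat_lit 2) (.cons (.rel (nat_lit 71303700)) .nil)) .nil)) (.node .leaf (nat_lit 13388793791904544) (.br (nat_lit 2) (.cons (.br (nat_lit 5) (.cons (.rel (nat_lit 4362207552)) (.cons (.rel (nat_lit 4362354720)) .nil))) .nil)) .leaf))

/-- refutations 46 -/
def e46 : EX := (.node .leaf (nat_lit 13636312232373004) (.br (nat_lit 0) (.cons (.br (nat_lit 1) (.cons (.rel (nat_lit 37751301)) .nil)) .nil)) .leaf)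

/-- refutations 47 -/
def e47 : EX := (.node (.node (.node (.node (.node .leaf (nat_lit 13651628687476993) (.br (nat_lit 1) (.cons (.br (nat_lit 5) (.cons (.rel (nat_lit 4311760914)) (.cons (.rel (nat_lit 4311760914)) .nil))) .nil)) .leaf) (nat_lit 13651628688444677) (.br (nat_lit 1) (.cons (.br (nat_lit 2) (.cons (.rel (nat_lit 84017424)) .nil)) .nil)) .leaf) (nat_lit 13651628690172161) (.br (nat_lit 1) (.cons (.br (nat_lit 2) (.cons (.rel (nat_lit 83984388)) .nil)) .nil)) (.node .leaf (nat_lit 13651628690172705) (.br (nat_lit 1) (.cons (.br (nat_lit 5) (.cons (.rel (nat_lit 4311761928)) (.cons (.rel (nat_lit 4311814656)) .nil))) (.cons (.br (nat_lit 5) (.cons (.rel (nat_lit 4311810081)) (.cons (.rel (nat_lit 8623570944)) .nil))) .nil))) .leaf)) (nat_lit 13652836328263034) (.br (nat_lit 0) (.cons (.br (nat_lit 5) (.cons (.rel (nat_lit 4299178497)) .nil)) .nil)) (.node (.node (.node .leaf (nat_lit 13652836329229218) (.br (nat_lit 0) (.cons (.br (nat_lit 1) (.cons (.rel (nat_lit 22029312)) .nil)) .nil)) .leaf) (nat_lit 13652836329678226)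 (.br (nat_lit 0) (.cons (.br (nat_lit 2) (.cons (.rel (nat_lit 71308560)) .nil)) .nil)) .leaf) (nat_lit 13652836330957601) (.br (nat_lit 4) (.cons (.br (nat_lit 1) (.cons (.rel (nat_lit 2181042240)) (.cons (.rel (nat_lit 1091633154)) (.cons (.rel (nat_lit 2181042240)) (.cons (.rel (nat_lit 1090527360)) (.cons (.rel (nat_lit 2181042240)) .nil)))))) .nil)) (.node .leaf (nat_lit 13652836806148107) (.br (nat_lit 0) (.cons (.br (nat_lit 3) (.cons (.rel (nat_lit 276893760)) .nil)) .nil)) .leaf))) (nat_lit 13652839870950177) (.br (nat_lit 0) (.cons (.br (nat_lit 1) (.cons (.rel (nat_lit 37814532)) .nil)) .nil)) (.node (.node (.node (.node .leaf (nat_lit 13659110523202337) (.br (nat_lit 3) (.cons (.br (nat_lit 5) (.cons (.rel (nat_lit 8858386449)) .nil)) .nil)) .leaf) (nat_lit 13662797818270497) (.br (nat_lit 0) (.cons (.br (nat_lit 1) (.cons (.rel (nat_lit 20972676)) .nil)) .nil)) .leaf) (nat_lit 13663573746501889) (.br (nat_lit 1) (.cons (.br (nat_lit 2) (.cons (.rel (nat_lit 167773188)) (.cons (.rel (nat_lit 84034560)) .nil)))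 .nil)) (.node .leaf (nat_lit 13663573747469218) (.br (nat_lit 1) (.cons (.br (nat_lit 4) (.cons (.rel (nat_lit 2164294656)) .nil)) .nil)) .leaf)) (nat_lit 13663573747469573) (.br (nat_lit 2) (.cons (.br (nat_lit 1) (.cons (.rel (nat_lit 83886117)) (.cons (.rel (nat_lit 83888136)) .nil))) .nil)) (.node (.node .leaf (nat_lit 13663573749197601) (.br (nat_lit 1) (.cons (.br (nat_lit 2) (.cons (.rel (nat_lit 83968257)) (.cons (.rel (nat_lit 167810064)) .nil))) .nil)) .leaf) (nat_lit 13663576643267361) (.br (nat_lit 3) (.cons (.br (nat_lit 1) (.cons (.rel (nat_lit 285245472)) (.cons (.rel (nat_lit 570441744)) .nil))) .nil)) (.node .leaf (nat_lit 13663576847060229) (.br (nat_lit 1) (.cons (.br (nat_lit 2) (.cons (.rel (nat_lit 83922945)) .nil)) .nil)) .leaf))))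

/-- refutations 48 -/
def e48 : EX := (.node (.node (.node .leaf (nat_lit 14074273499704097) (.br (nat_lit 0) (.cons (.br (nat_lit 1) (.cons (.rel (nat_lit 22102017)) .nil)) .nil)) .leaf) (nat_lit 14075253333005038) (.br (nat_lit 1) (.cons (.br (nat_lit 5) (.cons (.rel (nat_lit 4311745797)) .nil)) .nil)) .leaf) (nat_lit 14075253335461395) (.br (nat_lit 1) (.cons (.br (nat_lit 3) (.cons (.rel (nat_lit 570441744)) .nil)) .nil)) (.node (.node .leaf (nat_lit 14075258054053395) (.br (nat_lit 3) (.cons (.br (nat_lit 5) (.cons (.rel (nat_lit 9127854084)) .nil)) .nil)) .leaf) (nat_lit 14075258054062830) (.br (nat_lit 1) (.cons (.br (nat_lit 3) (.cons (.rel (nat_lit 285214224)) .nil)) .nil)) .leaf))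

/-- refutations 49 -/
def e49 : EX := (.node .leaf (nat_lit 14081525390248686) (.br (nat_lit 1) (.cons (.br (nat_lit 3) (.cons (.rel (nat_lit 285343761)) .nil)) .nil)) .leaf)

/-- refutations 51 -/
def e51 : EX := (.node .leaf (nat_lit 13723239939416325) (.br (nat_lit 0) (.cons (.br (nat_lit 1) (.cons (.rel (nat_lit 42221568)) .nil)) .nil)) .leaf)

/-- refutations 52 -/
def e52 : EX := (.node (.node (.node (.node (.node .leaf (nat_lit 14197386643277202) (.br (nat_lit 4) (.cons (.br (nat_lit 6) (.cons (.rel (nat_lit 18253955136)) .nil)) .nil)) .leaf) (nat_lit 14197386644327310) (.br (nat_lit 0) (.cons (.br (nat_lit 4) (.cons (.rel (nat_lit 1077952644)) .nil)) .nil)) .leaf) (nat_lit 14198228878648053) (.br (nat_lit 2) (.cons (.br (nat_lit 5) (.cons (.rel (nat_lit 4362162240)) .nil)) .nil)) (.node (.node .leaf (nat_lit 14198400761307261) (.br (nat_lit 0) (.cons (.br (nat_lit 3) (.cons (.rel (nat_lit 272670720)) .nil)) .nil)) .leaf) (nat_lit 14198457717449384) (.br (nat_lit 1) (.cons (.br (nat_lit 2) (.cons (.rel (nat_lit 83888136))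 .nil)) .nil)) .leaf)) (nat_lit 14198458793603829) (.br (nat_lit 0) (.cons (.br (nat_lit 6) (.cons (.rel (nat_lit 17184325728)) .nil)) .nil)) (.node (.node (.node .leaf (nat_lit 14198460281459445) (.br (nat_lit 0) (.cons (.br (nat_lit 2) (.cons (.rel (nat_lit 71385120)) .nil)) .nil)) .leaf) (nat_lit 14198460864467194) (.br (nat_lit 0) (.cons (.br (nat_lit 1) (.cons (.rel (nat_lit 42221568)) .nil)) .nil)) .leaf) (nat_lit 14198460864467701) (.br (nat_lit 3) (.cons (.br (nat_lit 1) (.cons (.rel (nat_lit 302006337)) (.cons (.rel (nat_lit 285343761)) .nil))) .nil)) (.node .leaf (nat_lit 14198462958815408) (.br (nat_lit 0) (.cons (.br (nat_lit 3) (.cons (.rel (nat_lit 272630037)) .nil)) .nil)) .leaf))) (nat_lit 14198462990979829) (.br (nat_lit 1) (.cons (.br (nat_lit 5) (.cons (.rel (nat_lit 4312011138)) (.cons (.rel (nat_lit 4311745797)) .nil))) .nil)) (.node (.node (.node (.node .leaf (nat_lit 14199042927563509) (.br (nat_lit 5) (.cons (.br (nat_lit 0) (.cons (.rel (nat_lit 4299296772)) (.cons (.rel (nat_lit 4303356225)) .nil)))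 .nil)) .leaf) (nat_lit 14199537063701237) (.br (nat_lit 0) (.cons (.br (nat_lit 1) (.cons (.rel (nat_lit 42221568)) .nil)) .nil)) .leaf) (nat_lit 14202788123239080) (.br (nat_lit 1) (.cons (.br (nat_lit 3) (.cons (.rel (nat_lit 285214224)) .nil)) .nil)) (.node .leaf (nat_lit 14202788137722613) (.br (nat_lit 3) (.cons (.br (nat_lit 4) (.cons (.rel (nat_lit 2684355600)) (.cons (.rel (nat_lit 2684355600)) .nil))) .nil)) .leaf)) (nat_lit 14202788139045621) (.br (nat_lit 3) (.cons (.br (nat_lit 6) (.cons (.rel (nat_lit 17448304932)) (.cons (.rel (nat_lit 34897138752)) .nil))) .nil)) (.node (.node (.node .leaf (nat_lit 14202789710646634) (.br (nat_lit 2) (.cons (.br (nat_lit 6) (.cons (.rel (nat_lit 17246996736)) .nil)) .nil)) .leaf) (nat_lit 14202789712061853) (.br (nat_lit 1) (.cons (.br (nat_lit 3) (.cons (.rel (nat_lit 302055504)) .nil)) .nil)) .leaf) (nat_lit 14202792285851037) (.br (nat_lit 1) (.cons (.br (nat_lit 2) (.cons (.rel (nat_lit 83886117)) .nil)) .nil)) (.node .leaf (nat_lit 14202792287364509) (.br (nat_lit 1) (.cons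 (.br (nat_lit 2) (.cons (.rel (nat_lit 83888136)) .nil)) .nil)) .leaf))))

/-- refutations 53 -/
def e53 : EX := (.node (.node (.node .leaf (nat_lit 14207650042024693) (.br (nat_lit 1) (.cons (.br (nat_lit 3) (.cons (.rel (nat_lit 285214224)) .nil)) .nil)) .leaf) (nat_lit 14209135558282653) (.br (nat_lit 0) (.cons (.br (nat_lit 1) (.cons (.rel (nat_lit 25182228)) .nil)) .nil)) (.node .leaf (nat_lit 14209799522312949) (.br (nat_lit 0) (.cons (.br (nat_lit 3) (.cons (.rel (nat_lit 272761344)) .nil)) .nil)) .leaf)) (nat_lit 14210209197589160) (.br (nat_lit 1) (.cons (.br (nat_lit 3) (.cons (.rel (nat_lit 286277700)) .nil)) .nil)) (.node (.node .leaf (nat_lit 14210209198052085) (.br (nat_lit 0) (.cons (.br (nat_lit 2) (.cons (.rel (nat_lit 71304705)) .nil)) .nil)) .leaf) (nat_lit 14210209842684584) (.br (nat_lit 1) (.cons (.br (nat_lit 3) (.cons (.rel (nat_lit 285221889)) .nil)) .nil)) (.node .leaf (nat_lit 14210209843511976) (.br (nat_lit 1) (.cons (.br (nat_lit 3) (.cons (.rel (nat_lit 285231360)) .nil)) .nil)) .leaf)))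

/-- refutations 54 -/
def e54 : EX := (.node (.node (.node .leaf (nat_lit 14161755862949275) (.br (nat_lit 0) (.cons (.br (nat_lit 1) (.cons (.rel (nat_lit 25232400)) .nil)) .nil)) .leaf) (nat_lit 14161755864034035) (.br (nat_lit 0) (.cons (.br (nat_lit 1) (.cons (.rel (nat_lit 20988561)) .nil)) .nil)) (.node .leaf (nat_lit 14285092770737680) (.br (nat_lit 2) (.cons (.br (nat_lit 0) (.cons (.rel (nat_lit 71308560)) (.cons (.rel (nat_lit 71304705)) .nil))) .nil)) .leaf)) (nat_lit 14292608963052282) (.br (nat_lit 0) (.cons (.br (nat_lit 1) (.cons (.rel (nat_lit 22029312)) .nil)) .nil)) (.node (.node .leaf (nat_lit 14292608963504890) (.br (nat_lit 1) (.cons (.br (nat_lit 2) (.cons (.rel (nat_lit 83888136)) .nil)) .nil)) .leaf) (nat_lit 14298213683654817) (.br (nat_lit 0) (.cons (.br (nat_lit 1) (.cons (.rel (nat_lit 20972676)) .nil)) .nil)) .leaf))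

/-- refutations 55 -/
def e55 : EX := (.node .leaf (nat_lit 15405403477895419) (.br (nat_lit 0) (.cons (.br (nat_lit 2) (.cons (.rel (nat_lit 142671873)) .nil)) .nil)) .leaf)

/-- refutations 56 -/
def e56 : EX := (.node (.node (.node .leaf (nat_lit 15499239933365775) (.br (nat_lit 1) (.cons (.br (nat_lit 3) (.cons (.rel (nat_lit 285221889)) .nil)) .nil)) .leaf) (nat_lit 15499239934693387) (.br (nat_lit 0) (.cons (.br (nat_lit 1) (.cons (.rel (nat_lit 42221568)) .nil)) .nil)) (.node .leaf (nat_lit 15499239934726199) (.br (nat_lit 0) (.cons (.br (nat_lit 1) (.cons (.rel (nat_lit 41952576)) .nil)) .nil)) .leaf)) (nat_lit 15501122376366986) (.br (nat_lit 1) (.cons (.br (nat_lit 5) (.cons (.rel (nat_lit 4311745797)) .nil)) .nil)) (.node (.node .leaf (nat_lit 15505682582803338) (.br (nat_lit 0) (.cons (.br (nat_lit 3) (.cons (.rel (nat_lit 272670720)) .nil)) .nil)) .leaf) (nat_lit 15505687797250200) (.br (nat_lit 1) (.cons (.br (nat_lit 5) (.cons (.rel (nat_lit 4328521824)) .nil)) .nil)) (.node .leaf (nat_lit 15510756282284184)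 (.br (nat_lit 2) (.cons (.br (nat_lit 4) (.cons (.rel (nat_lit 1140856833)) .nil)) .nil)) .leaf)))

/-- refutations 58 -/
def e58 : EX := (.node (.node (.node .leaf (nat_lit 15569350948488580) (.br (nat_lit 0) (.cons (.br (nat_lit 4) (.cons (.rel (nat_lit 1078984728)) .nil)) .nil)) .leaf) (nat_lit 15574977355705250) (.br (nat_lit 3) (.cons (.br (nat_lit 6) (.cons (.rel (nat_lit 17448309792)) .nil)) .nil)) .leaf) (nat_lit 15574980645380853) (.br (nat_lit 0) (.cons (.br (nat_lit 1) (.cons (.rel (nat_lit 37756944)) .nil)) .nil)) (.node (.node .leaf (nat_lit 15574983137033719) (.br (nat_lit 0) (.cons (.br (nat_lit 4) (.cons (.rel (nat_lit 2156135424)) .nil)) .nil)) .leaf) (nat_lit 15582055576750736) (.br (nat_lit 0) (.cons (.br (nat_lit 1) (.cons (.rel (nat_lit 20972676)) .nil)) .nil)) .leaf))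

/-- refutations 59 -/
def e59 : EX := (.node (.node .leaf (nat_lit 15588924624509839) (.br (nat_lit 0) (.cons (.br (nat_lit 3) (.cons (.rel (nat_lit 272696340)) (.cons (.rel (nat_lit 272634897)) .nil))) .nil)) .leaf) (nat_lit 15832967575733735) (.br (nat_lit 1) (.cons (.br (nat_lit 5) (.cons (.rel (nat_lit 4311746850)) .nil)) .nil)) .leaf)

/-- refutations 60 -/
def e60 : EX := (.node .leaf (nat_lit 15870537139782559) (.br (nat_lit 0) (.cons (.br (nat_lit 2) (.cons (.rel (nat_lit 71335953)) .nil)) .nil)) .leaf)

/-- refutations 61 -/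
def e61 : EX := (.node (.node (.node .leaf (nat_lit 15923337461593595) (.br (nat_lit 0) (.cons (.br (nat_lit 1) (.cons (.rel (nat_lit 25169952)) .nil)) .nil)) .leaf) (nat_lit 15923339530609925) (.br (nat_lit 0) (.cons (.br (nat_lit 4) (.cons (.rel (nat_lit 1082212368)) .nil)) .nil)) .leaf) (nat_lit 15923339969547771) (.br (nat_lit 1) (.cons (.br (nat_lit 4) (.cons (.rel (nat_lit 1091059713)) .nil)) .nil)) (.node .leaf (nat_lit 15934076948849570) (.br (nat_lit 0) (.cons (.br (nat_lit 6) (.cons (.rel (nat_lit 17188258824)) .nil)) .nil)) .leaf))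

/-- refutations 62 -/
def e62 : EX := (.node (.node .leaf (nat_lit 16397308972791316) (.br (nat_lit 1) (.cons (.br (nat_lit 2) (.cons (.rel (nat_lit 83890692)) .nil)) .nil)) .leaf) (nat_lit 16397312872510995) (.br (nat_lit 2) (.cons (.br (nat_lit 3) (.cons (.rel (nat_lit 402653697)) .nil)) .nil)) (.node .leaf (nat_lit 16398122295441584) (.br (nat_lit 2) (.cons (.br (nat_lit 1) (.cons (.rel (nat_lit 83886117)) (.cons (.rel (nat_lit 83888136)) .nil))) .nil)) .leaf))

/-- refutations 63 -/
def e63 : EX := (.node (.node (.node .leaf (nat_lit 16398555237904661) (.br (nat_lit 1) (.cons (.br (nat_lit 2) (.cons (.rel (nat_lit 85197825)) .nil)) .nil)) .leaf) (nat_lit 16398555792865405) (.br (nat_lit 0) (.cons (.br (nat_lit 5) (.cons (.rel (nat_lit 8598323205)) .nil)) .nil)) (.node .leaf (nat_lit 16398555792865411) (.br (nat_lit 1) (.cons (.br (nat_lit 3) (.cons (.rel (nat_lit 285245472)) .nil)) .nil)) .leaf)) (nat_lit 16398557336059141) (.br (nat_lit 1) (.cons (.br (nat_lit 2) (.cons (.rel (nat_lit 83888136)) .nil)) .nil)) (.node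 (.node .leaf (nat_lit 16398560319253362) (.br (nat_lit 0) (.cons (.br (nat_lit 4) (.cons (.rel (nat_lit 1078984728)) .nil)) .nil)) .leaf) (nat_lit 16401605220317360) (.br (nat_lit 2) (.cons (.br (nat_lit 5) (.cons (.rel (nat_lit 4429189125)) .nil)) .nil)) (.node .leaf (nat_lit 16403963450964144) (.br (nat_lit 1) (.cons (.br (nat_lit 3) (.cons (.rel (nat_lit 285283332)) .nil)) .nil)) .leaf)))

/-- refutations 64 -/
def e64 : EX := (.node .leaf (nat_lit 16406870849551218) (.br (nat_lit 2) (.cons (.br (nat_lit 5) (.cons (.rel (nat_lit 4362077250)) .nil)) .nil)) .leaf)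

/-- refutations 65 -/
def e65 : EX := (.node .leaf (nat_lit 16361856132711280) (.br (nat_lit 4) (.cons (.br (nat_lit 1) (.cons (.rel (nat_lit 1091059713)) (.cons (.rel (nat_lit 2164294656)) .nil))) .nil)) .leaf)

/-- refutations 68 -/
def e68 : EX := (.node (.node (.node .leaf (nat_lit 22519504255783669) (.br (nat_lit 0) (.cons (.br (nat_lit 1) (.cons (.rel (nat_lit 37814532)) .nil)) .nil)) .leaf) (nat_lit 22519504678192530) (.br (nat_lit 0) (.cons (.br (nat_lit 3) (.cons (.rel (nat_lit 272647173)) .nil)) .nil)) (.node .leaf (nat_lit 22519504679000720) (.br (nat_lit 0) (.cons (.br (nat_lit 5) (.cons (.rel (nat_lit 4303749120)) .nil)) .nil)) .leaf)) (nat_lit 22529864139309813) (.br (nat_lit 0) (.cons (.br (nat_lit 1) (.cons (.rel (nat_lit 23068992)) .nil)) .nil)) (.node (.node .leaf (nat_lit 22529864139310482) (.br (nat_lit 3) (.cons (.br (nat_lit 2) (.cons (.br (nat_lit 1) (.cons (.rel (nat_lit 83888136)) (.cons (.br (nat_lit 6) (.cons (.rel (nat_lit 17448443904)) (.cons (.rel (nat_lit 34628435985)) (.cons (.rel (nat_lit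 34393293888)) .nil)))) .nil))) (.cons (.rel (nat_lit 402657552)) .nil))) .nil)) .leaf) (nat_lit 22531204167752985) (.br (nat_lit 3) (.cons (.br (nat_lit 6) (.cons (.rel (nat_lit 17448443904)) .nil)) .nil)) .leaf))

/-- refutations 69 -/
def e69 : EX := (.node (.node (.node .leaf (nat_lit 22994491659827950) (.br (nat_lit 0) (.cons (.br (nat_lit 3) (.cons (.rel (nat_lit 272634897)) .nil)) .nil)) .leaf) (nat_lit 22994493785308393) (.br (nat_lit 0) (.cons (.br (nat_lit 1) (.cons (.rel (nat_lit 20972676)) .nil)) .nil)) .leaf) (nat_lit 22994495882460393) (.br (nat_lit 0) (.cons (.br (nat_lit 2) (.cons (.rel (nat_lit 71372808)) .nil)) .nil)) (.node (.node .leaf (nat_lit 22998848882914537) (.br (nat_lit 6) (.cons (.br (nat_lit 0) (.cons (.rel (nat_lit 17185116165)) (.cons (.rel (nat_lit 17184133248)) .nil))) .nil)) .leaf) (nat_lit 22998851474994409) (.br (nat_lit 0) (.cons (.br (nat_lit 2) (.cons (.rel (nat_lit 71303700)) .nil)) .nil)) .leaf))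

/-- refutations 71 -/
def e71 : EX := (.node (.node (.node .leaf (nat_lit 23063848408173805) (.br (nat_lit 0) (.cons (.br (nat_lit 1) (.cons (.rel (nat_lit 20972676)) .nil)) .nil)) .leaf) (nat_lit 23069249888909437) (.br (nat_lit 0) (.cons (.br (nat_lit 1) (.cons (.rel (nat_lit 22151184)) .nil)) .nil)) (.node .leaf (nat_lit 23069249888909944) (.br (nat_lit 1) (.cons (.br (nat_lit 5) (.cons (.rel (nat_lit 4311745797)) .nil)) .nil)) .leaf)) (nat_lit 23069249888910573) (.br (nat_lit 5) (.cons (.br (nat_lit 0) (.cons (.rel (nat_lit 4299163665)) (.cons (.rel (nat_lit 4299161610)) (.cons (.rel (nat_lit 4299162660)) .nil)))) .nil)) (.node (.node .leaf (nat_lit 23069249888910594) (.br (nat_lit 0) (.cons (.br (nat_lit 4) (.cons (.rel (nat_lit 1077936513)) .nil)) .nil)) .leaf) (nat_lit 23069249889950632) (.br (nat_lit 0) (.cons (.br (nat_lit 1) (.cons (.rel (nat_lit 25183233)) .nil)) .nil)) .leaf))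

/-- refutations 72 -/
def e72 : EX := (.node (.node (.node .leaf (nat_lit 23071362459140401) (.br (nat_lit 0) (.cons (.br (nat_lit 5) (.cons (.rel (nat_lit 4299161610)) .nil)) .nil)) .leaf) (nat_lit 23071362460150561) (.br (nat_lit 3) (.cons (.br (nat_lit 0) (.cons (.rel (nat_lit 272630037)) (.cons (.rel (nat_lit 277086240)) .nil))) .nil)) .leaf) (nat_lit 23076671592397432) (.br (nat_lit 1) (.cons (.br (nat_lit 2) (.cons (.rel (nat_lit 167773188)) .nil)) .nil)) (.node (.node .leaf (nat_lit 23076671592398061) (.br (nat_lit 3) (.cons (.br (nat_lit 5) (.cons (.br (nat_lit 6) (.cons (.rel (nat_lit 21474972672)) .nil)) .nil)) .nil)) .leaf) (nat_lit 23076671610206965) (.br (nat_lit 0) (.cons (.br (nat_lit 3) (.cons (.rel (nat_lit 272630037)) .nil)) .nil)) .leaf))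

/-- refutations 75 -/
def e75 : EX := (.node (.node (.node .leaf (nat_lit 24296315468111074) (.br (nat_lit 0) (.cons (.br (nat_lit 4) (.cons (.rel (nat_lit 1078984728)) .nil)) .nil)) .leaf) (nat_lit 24296315468678546) (.br (nat_lit 3) (.cons (.br (nat_lit 5) (.cons (.rel (nat_lit 4831847424)) .nil)) .nil)) (.node .leaf (nat_lit 24296317959888375) (.br (nat_lit 0) (.cons (.br (nat_lit 1) (.cons (.rel (nat_lit 42221568)) .nil)) .nil)) .leaf)) (nat_lit 24302809870063793) (.br (nat_lit 1) (.cons (.br (nat_lit 3) (.cons (.rel (nat_lit 285217029)) .nil)) .nil)) (.node (.node .leaf (nat_lit 24306671635659013) (.br (nat_lit 0) (.cons (.br (nat_lit 1) (.cons (.rel (nat_lit 37814532)) .nil)) .nil)) .leaf) (nat_lit 24306674929229026) (.br (nat_lit 3) (.cons (.br (nat_lit 6) (.cons (.rel (nat_lit 17448304932)) .nil)) .nil)) (.node .leaf (nat_lit 24306674929796498) (.br (nat_lit 3) (.cons (.br (nat_lit 6) (.cons (.rel (nat_lit 17448309792)) .nil)) .nil)) .leaf)))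

/-- refutations 76 -/
def e76 : EX := (.node (.node (.node (.node .leaf (nat_lit 24367417473434280) (.br (nat_lit 0) (.cons (.br (nat_lit 1) (.cons (.rel (nat_lit 38813760)) .nil)) .nil)) .leaf) (nat_lit 24367417473691010) (.br (nat_lit 0) (.cons (.br (nat_lit 1) (.cons (.rel (nat_lit 21299268)) .nil)) .nil)) (.node .leaf (nat_lit 24367417474417320) (.br (nat_lit 1) (.cons (.br (nat_lit 3) (.cons (.rel (nat_lit 285217029)) (.cons (.rel (nat_lit 285221889)) .nil))) .nil)) .leaf)) (nat_lit 24367417474418050) (.br (nat_lit 0) (.cons (.br (nat_lit 1) (.cons (.rel (nat_lit 21528576)) .nil)) .nil)) (.node (.node .leaf (nat_lit 24367417474418077) (.br (nat_lit 1) (.cons (.br (nat_lit 2) (.cons (.rel (nat_lit 167773188)) .nil)) .nil)) .leaf) (nat_lit 24371706065643520) (.br (nat_lit 0) (.cons (.br (nat_lit 1) (.cons (.rel (nat_lit 21528576)) .nil)) .nil)) (.node .leaf (nat_lit 24371709322749314) (.br (nat_lit 1) (.cons (.br (nat_lit 2) (.cons (.rel (nat_lit 83888136)) .nil)) .nil)) .leaf))) (nat_lit 24371709734124930) (.br (nat_lit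 0) (.cons (.br (nat_lit 1) (.cons (.rel (nat_lit 25169952)) .nil)) .nil)) (.node (.node (.node .leaf (nat_lit 24371709734350875) (.br (nat_lit 0) (.cons (.br (nat_lit 1) (.cons (.rel (nat_lit 26476800)) .nil)) .nil)) .leaf) (nat_lit 24371709735353730) (.br (nat_lit 0) (.cons (.br (nat_lit 1) (.cons (.rel (nat_lit 25169952)) .nil)) .nil)) (.node .leaf (nat_lit 24371711421463938) (.br (nat_lit 0) (.cons (.br (nat_lit 1) (.cons (.rel (nat_lit 21299268)) .nil)) .nil)) .leaf)) (nat_lit 24371712441713320) (.br (nat_lit 0) (.cons (.br (nat_lit 5) (.cons (.rel (nat_lit 4299182352)) .nil)) .nil)) (.node (.node .leaf (nat_lit 24378492112353960) (.br (nat_lit 0) (.cons (.br (nat_lit 5) (.cons (.rel (nat_lit 4299296772)) .nil)) .nil)) .leaf) (nat_lit 24378492114699650) (.br (nat_lit 0) (.cons (.br (nat_lit 4) (.cons (.rel (nat_lit 2156135424)) (.cons (.rel (nat_lit 1077936513)) .nil))) .nil)) (.node .leaf (nat_lit 24378495782452610) (.br (nat_lit 0) (.cons (.br (nat_lit 1) (.cons (.rel (nat_lit 42221568)) .nil)) .nil)) .leaf))))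

/-- refutations 77 -/
def e77 : EX := (.node .leaf (nat_lit 24764295624008307) (.br (nat_lit 0) (.cons (.br (nat_lit 1) (.cons (.rel (nat_lit 22102017)) .nil)) .nil)) .leaf)

/-- refutations 78 -/
def e78 : EX := (.node (.node .leaf (nat_lit 24805029047451035) (.br (nat_lit 0) (.cons (.br (nat_lit 2) (.cons (.rel (nat_lit 72747012)) .nil)) .nil)) .leaf) (nat_lit 24805074639637765) (.br (nat_lit 0) (.cons (.br (nat_lit 2) (.cons (.rel (nat_lit 71385120)) .nil)) .nil)) .leaf)

/-- refutations 81 -/
def e81 : EX := (.node (.node .leaf (nat_lit 24853141275636612) (.br (nat_lit 1) (.cons (.br (nat_lit 2) (.cons (.rel (nat_lit 84164736)) .nil)) .nil)) .leaf) (nat_lit 24853141277640093) (.br (nat_lit 1) (.cons (.br (nat_lit 2) (.cons (.rel (nat_lit 102236160)) .nil)) .nil)) .leaf)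

/-- refutations 82 -/
def e82 : EX := (.node (.node (.node (.node .leaf (nat_lit 25264584061827248) (.br (nat_lit 1) (.cons (.br (nat_lit 2) (.cons (.rel (nat_lit 83887122)) .nil)) .nil)) .leaf) (nat_lit 25264584061828458) (.br (nat_lit 1) (.cons (.br (nat_lit 2) (.cons (.rel (nat_lit 83968257)) (.cons (.rel (nat_lit 83888136)) .nil))) .nil)) .leaf) (nat_lit 25264584062187830) (.br (nat_lit 1) (.cons (.br (nat_lit 2) (.cons (.rel (nat_lit 83886117)) .nil)) .nil)) (.node .leaf (nat_lit 25268275735022954) (.br (nat_lit 3) (.cons (.br (nat_lit 5) (.cons (.rel (nat_lit 4563533889)) (.cons (.rel (nat_lit 4563533889)) .nil))) .nil)) .leaf)) (nat_lit 25268275736286570) (.br (nat_lit 2) (.cons (.br (nat_lit 6) (.cons (.rel (nat_lit 34426847304)) (.cons (.rel (nat_lit 17314087044)) .nil))) .nil)) (.node (.node (.node .leaf (nat_lit 25268277309302173) (.br (nat_lit 1) (.cons (.br (nat_lit 6) (.cons (.rel (nat_lit 17197301760)) .nil)) .nil)) .leaf) (nat_lit 25269351051901733) (.br (nat_lit 5) (.cons (.br (nat_lit 6) (.cons (.rel (nat_lit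 21474837510)) .nil)) .nil)) .leaf) (nat_lit 25273644445406570) (.br (nat_lit 2) (.cons (.br (nat_lit 3) (.cons (.rel (nat_lit 335609925)) .nil)) .nil)) (.node .leaf (nat_lit 25274620597100058) (.br (nat_lit 1) (.cons (.br (nat_lit 6) (.cons (.rel (nat_lit 17196648576)) .nil)) .nil)) .leaf)))

/-- refutations 83 -/
def e83 : EX := (.node .leaf (nat_lit 26395796520828405) (.br (nat_lit 0) (.cons (.br (nat_lit 1) (.cons (.rel (nat_lit 42221568)) .nil)) .nil)) .leaf)

/-- refutations 84 -/
def e84 : EX := (.node (.node (.node (.node .leaf (nat_lit 26493924502595595) (.br (nat_lit 1) (.cons (.br (nat_lit 2) (.cons (.rel (nat_lit 83922945)) .nil)) .nil)) .leaf) (nat_lit 26494994487559675) (.br (nat_lit 0) (.cons (.br (nat_lit 4) (.cons (.rel (nat_lit 1082212368)) .nil)) .nil)) .leaf) (nat_lit 26495135683373067) (.br (nat_lit 1) (.cons (.br (nat_lit 3) (.cons (.rel (nat_lit 285343761)) .nil)) .nil)) (.node (.node .leaf (nat_lit 26499727541518347) (.br (nat_lit 0) (.cons (.br (nat_lit 1) (.cons (.rel (nat_lit 25166097)) .nil)) .nil))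 .leaf) (nat_lit 26499727541519867) (.br (nat_lit 5) (.cons (.br (nat_lit 1) (.cons (.br (nat_lit 0) (.cons (.rel (nat_lit 20972676)) (.cons (.rel (nat_lit 22151184)) .nil))) (.cons (.rel (nat_lit 4311745797)) .nil))) .nil)) .leaf)) (nat_lit 26499727543014907) (.br (nat_lit 0) (.cons (.br (nat_lit 1) (.cons (.rel (nat_lit 22151184)) (.cons (.rel (nat_lit 22029312)) .nil))) .nil)) (.node (.node (.node .leaf (nat_lit 26500704174118374) (.br (nat_lit 0) (.cons (.br (nat_lit 1) (.cons (.rel (nat_lit 42221568)) .nil)) .nil)) .leaf) (nat_lit 26501399958820347) (.br (nat_lit 5) (.cons (.br (nat_lit 1) (.cons (.rel (nat_lit 4311908352)) (.cons (.rel (nat_lit 4311744792)) (.cons (.rel (nat_lit 4311744792)) .nil)))) .nil)) .leaf) (nat_lit 26501406335625227) (.br (nat_lit 1) (.cons (.br (nat_lit 3) (.cons (.rel (nat_lit 285245472)) .nil)) .nil)) (.node (.node .leaf (nat_lit 26501406335626017) (.br (nat_lit 1) (.cons (.br (nat_lit 3) (.cons (.rel (nat_lit 285245472)) (.cons (.rel (nat_lit 285220884)) (.cons (.rel (nat_lit 285245472)) .nil))))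 .nil)) .leaf) (nat_lit 26501406335626747) (.br (nat_lit 0) (.cons (.br (nat_lit 1) (.cons (.rel (nat_lit 42221568)) .nil)) .nil)) .leaf)))

/-- refutations 86 -/
def e86 : EX := (.node (.node (.node .leaf (nat_lit 26863505791030800) (.br (nat_lit 2) (.cons (.br (nat_lit 3) (.cons (.rel (nat_lit 335806980)) .nil)) .nil)) .leaf) (nat_lit 26863505792041772) (.br (nat_lit 1) (.cons (.br (nat_lit 2) (.cons (.rel (nat_lit 83886117)) .nil)) .nil)) (.node .leaf (nat_lit 26863505792237729) (.br (nat_lit 1) (.cons (.br (nat_lit 4) (.cons (.rel (nat_lit 1091059713)) .nil)) .nil)) .leaf)) (nat_lit 26863505792494330) (.br (nat_lit 0) (.cons (.br (nat_lit 3) (.cons (.rel (nat_lit 272647173)) (.cons (.rel (nat_lit 272697345)) .nil))) .nil)) (.node (.node .leaf (nat_lit 26863505792495120) (.br (nat_lit 2) (.cons (.br (nat_lit 3) (.cons (.rel (nat_lit 335839233)) (.cons (.rel (nat_lit 402669828)) (.cons (.rel (nat_lit 335888400)) .nil)))) .nil)) .leaf) (nat_lit 26863535538038117) (.br (nat_lit 0) (.cons (.br (nat_lit 2) (.cons (.rel (nat_lit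 71434242)) .nil)) .nil)) .leaf))

/-- refutations 87 -/
def e87 : EX := (.node (.node .leaf (nat_lit 26923819319435389) (.br (nat_lit 0) (.cons (.br (nat_lit 2) (.cons (.rel (nat_lit 71372808)) .nil)) .nil)) .leaf) (nat_lit 26923824351021857) (.br (nat_lit 0) (.cons (.br (nat_lit 1) (.cons (.rel (nat_lit 20972676)) .nil)) .nil)) (.node .leaf (nat_lit 26929193668045730) (.br (nat_lit 1) (.cons (.br (nat_lit 3) (.cons (.rel (nat_lit 570441744)) .nil)) .nil)) .leaf))

/-- refutations 88 -/
def e88 : EX := (.node (.node .leaf (nat_lit 26952365666921953) (.br (nat_lit 0) (.cons (.br (nat_lit 3) (.cons (.rel (nat_lit 272631042)) .nil)) .nil)) .leaf) (nat_lit 27029425860857369) (.br (nat_lit 0) (.cons (.br (nat_lit 1) (.cons (.rel (nat_lit 22151184)) .nil)) .nil)) (.node .leaf (nat_lit 27029428994002457) (.br (nat_lit 0) (.cons (.br (nat_lit 1) (.cons (.rel (nat_lit 25232400)) .nil)) .nil)) .leaf))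

/-- refutations 89 -/
def e89 : EX := (.node (.node (.node .leaf (nat_lit 27039685879522842) (.br (nat_lit 3) (.cons (.br (nat_lit 1) (.cons (.rel (nat_lit 285231360)) (.cons (.rel (nat_lit 285221889)) .nil))) .nil)) .leaf) (nat_lit 27041394782912026) (.br (nat_lit 0) (.cons (.br (nat_lit 1) (.cons (.rel (nat_lit 42221568)) .nil)) .nil)) .leaf) (nat_lit 27041394852314474) (.br (nat_lit 1) (.cons (.br (nat_lit 3) (.cons (.rel (nat_lit 285294594)) .nil)) .nil)) (.node (.node .leaf (nat_lit 27041394852881946) (.br (nat_lit 1) (.cons (.br (nat_lit 3) (.cons (.rel (nat_lit 285221889)) .nil)) .nil)) .leaf) (nat_lit 27049945709090330) (.br (nat_lit 0) (.cons (.br (nat_lit 1) (.cons (.rel (nat_lit 21528576)) .nil)) .nil)) .leaf))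

/-- refutations 90 -/
def e90 : EX := (.node (.node (.node (.node .leaf (nat_lit 27391529322317202) (.br (nat_lit 0) (.cons (.br (nat_lit 1) (.cons (.rel (nat_lit 25232400)) .nil)) .nil)) .leaf) (nat_lit 27391529638165730) (.br (nat_lit 1) (.cons (.br (nat_lit 4) (.cons (.rel (nat_lit 1091584032)) (.cons (.rel (nat_lit 2164294656)) .nil))) .nil)) (.node .leaf (nat_lit 27391529638165987) (.br (nat_lit 0) (.cons (.br (nat_lit 1) (.cons (.rel (nat_lit 25232400)) .nil)) .nil)) .leaf)) (nat_lit 27391557914678755) (.br (nat_lit 0) (.cons (.br (nat_lit 3) (.cons (.rel (nat_lit 272646168)) .nil)) .nil)) (.node (.node .leaf (nat_lit 27393407372264850) (.br (nat_lit 1) (.cons (.br (nat_lit 6) (.cons (.rel (nat_lit 34376581140)) .nil)) .nil)) .leaf) (nat_lit 27393408206724599) (.br (nat_lit 3) (.cons (.br (nat_lit 5) (.cons (.rel (nat_lit 4831847424)) .nil)) .nil)) (.node .leaf (nat_lit 27393616136412643) (.br (nat_lit 2) (.cons (.br (nat_lit 3) (.cons (.rel (nat_lit 604046337)) .nil)) .nil)) .leaf))) (nat_lit 27396405259437458) (.br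 (nat_lit 0) (.cons (.br (nat_lit 2) (.cons (.rel (nat_lit 71325696)) .nil)) .nil)) (.node (.node (.node .leaf (nat_lit 27396898347285730) (.br (nat_lit 0) (.cons (.br (nat_lit 2) (.cons (.rel (nat_lit 71303700)) .nil)) .nil)) .leaf) (nat_lit 27396927100342334) (.br (nat_lit 3) (.cons (.br (nat_lit 4) (.cons (.rel (nat_lit 1342179360)) .nil)) .nil)) (.node .leaf (nat_lit 27396927102158226) (.br (nat_lit 6) (.cons (.br (nat_lit 4) (.cons (.rel (nat_lit 35433489408)) (.cons (.rel (nat_lit 18254135304)) .nil))) .nil)) .leaf)) (nat_lit 27396927103167394) (.br (nat_lit 2) (.cons (.br (nat_lit 3) (.cons (.br (nat_lit 5) (.cons (.br (nat_lit 6) (.cons (.br (nat_lit 1) (.cons (.rel (nat_lit 17213424129)) (.cons (.rel (nat_lit 34376581140)) (.cons (.rel (nat_lit 83888136)) .nil)))) .nil)) .nil)) .nil)) .nil)) (.node (.node .leaf (nat_lit 27396929243631678) (.br (nat_lit 2) (.cons (.br (nat_lit 3) (.cons (.br (nat_lit 6) (.cons (.rel (nat_lit 17448304932)) .nil)) .nil)) .nil)) .leaf) (nat_lit 27396929246397303) (.br (nat_lit 0) (.cons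 (.br (nat_lit 2) (.cons (.rel (nat_lit 71311365)) .nil)) .nil)) (.node .leaf (nat_lit 27396929246456738) (.br (nat_lit 2) (.cons (.br (nat_lit 6) (.cons (.rel (nat_lit 17246998536)) .nil)) .nil)) .leaf))))

/-- refutations 91 -/
def e91 : EX := (.node (.node (.node (.node .leaf (nat_lit 27397906906505903) (.br (nat_lit 2) (.cons (.br (nat_lit 1) (.cons (.rel (nat_lit 83886117)) (.cons (.rel (nat_lit 83887122)) .nil))) .nil)) .leaf) (nat_lit 27397906908018993) (.br (nat_lit 0) (.cons (.br (nat_lit 1) (.cons (.rel (nat_lit 21299268)) (.cons (.rel (nat_lit 25182228)) .nil))) (.cons (.br (nat_lit 1) (.cons (.rel (nat_lit 25183233)) (.cons (.rel (nat_lit 21237825)) .nil))) .nil))) .leaf) (nat_lit 27398784669829395) (.br (nat_lit 0) (.cons (.br (nat_lit 3) (.cons (.rel (nat_lit 272761344)) .nil)) .nil)) (.node (.node .leaf (nat_lit 27399039747707032) (.br (nat_lit 0) (.cons (.br (nat_lit 1) (.cons (.rel (nat_lit 22151184)) .nil)) .nil)) .leaf) (nat_lit 27399039747708291) (.br (nat_lit 0) (.cons (.br (nat_lit 2) (.cons (.rel (nat_lit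 71311365)) .nil)) .nil)) .leaf)) (nat_lit 27399039747708387) (.br (nat_lit 0) (.cons (.br (nat_lit 5) (.cons (.rel (nat_lit 4299235329)) .nil)) .nil)) (.node (.node (.node .leaf (nat_lit 27399039748987011) (.br (nat_lit 0) (.cons (.br (nat_lit 1) (.cons (.rel (nat_lit 41979969)) .nil)) .nil)) .leaf) (nat_lit 27399039749182227) (.br (nat_lit 0) (.cons (.br (nat_lit 2) (.cons (.rel (nat_lit 71308560)) .nil)) .nil)) .leaf) (nat_lit 27399040779746787) (.br (nat_lit 1) (.cons (.br (nat_lit 5) (.cons (.rel (nat_lit 4311810081)) .nil)) .nil)) (.node .leaf (nat_lit 27403278237659393) (.br (nat_lit 1) (.cons (.br (nat_lit 5) (.cons (.rel (nat_lit 4311908352)) .nil)) .nil)) .leaf)))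

/-- refutations 92 -/
def e92 : EX := (.node (.node .leaf (nat_lit 27444079358099642) (.br (nat_lit 0) (.cons (.br (nat_lit 5) (.cons (.rel (nat_lit 4299161610)) .nil)) .nil)) .leaf) (nat_lit 27444079359376870) (.br (nat_lit 3) (.cons (.br (nat_lit 6) (.cons (.rel (nat_lit 17448305937)) .nil)) .nil)) (.node .leaf (nat_lit 27450338622105750) (.br (nat_lit 0) (.cons (.br (nat_lit 1) (.cons (.rel (nat_lit 20972676)) .nil)) .nil)) .leaf))

/-- list of the parts -/
def L0 : List (ℕ × List ℕ) := [(nat_lit 0x10, [cP]),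
  (nat_lit 0x420, [cP]),
  (nat_lit 0x10800, [cP]),
  (nat_lit 0x20000000, [cP]),
  (nat_lit 0x18080000000, [cP]),
  (nat_lit 0x40000000000000, [Nat.sub (Nat.pow 2 159) (Nat.pow 2 0), Nat.sub (Nat.pow 2 304) (Nat.pow 2 159), Nat.sub (Nat.pow 2 755) (Nat.pow 2 304), Nat.sub (Nat.pow 2 815) (Nat.pow 2 755), Nat.sub (Nat.pow 2 915) (Nat.pow 2 815), Nat.sub (Nat.pow 2 1390) (Nat.pow 2 915), Nat.sub (Nat.pow 2 1439) (Nat.pow 2 1390), Nat.sub (Nat.pow 2 1566) (Nat.pow 2 1439), Nat.sub (Nat.pow 2 3136) (Nat.pow 2 1566)]),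
  (nat_lit 0x2000000000000000, [Nat.sub (Nat.pow 2 804) (Nat.pow 2 0), Nat.sub (Nat.pow 2 3136) (Nat.pow 2 804)]),
  (nat_lit 0x20000000000000000, [Nat.sub (Nat.pow 2 811) (Nat.pow 2 0), Nat.sub (Nat.pow 2 3136) (Nat.pow 2 811)]),
  (nat_lit 0x180020000000000, [cP]),
  (nat_lit 0x10000000000000000000000000000000000, [cP]),
  (nat_lit 0x100000000000000000000000000000000000, [cP]),
  (nat_lit 0x400000000000000000000000000000000000000, [cP]),
  (nat_lit 0x800000000000000000000000000000000000000, [cP]),
  (nat_lit 0x8000000000000000000000000000000000000000, [cP]),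
  (nat_lit 0x800000000000000000000000000000000000000000000, [Nat.sub (Nat.pow 2 815) (Nat.pow 2 0), Nat.sub (Nat.pow 2 3136) (Nat.pow 2 815)]),
  (nat_lit 0x2000020000000000000000000000000000000000000000, [cP]),
  (nat_lit 0x40000000000000000000000000000000000000000000000, [cP]),
  (nat_lit 0x100000000000000000200000000000000000000000000000000000000000000000, [cP]),
  (nat_lit 0x100006000000000000000000000000000000000000000000000000000000000000000000, [cP]),
  (nat_lit 0x10000000000000000000000000000000000000000000000000000000000000000000000000000, [Nat.sub (Nat.pow 2 764) (Nat.pow 2 0), Nat.sub (Nat.pow 2 3136) (Nat.pow 2 764)]),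
  (nat_lit 0x8000000000000000000000000000000000000000000000000000000000000000000000000000000, [Nat.sub (Nat.pow 2 815) (Nat.pow 2 0), Nat.sub (Nat.pow 2 3136) (Nat.pow 2 815)]),
  (nat_lit 0x10040000400000000000000000000000000000000000000000000000000000000000000000000000, [cP]),
  (nat_lit 0x8000000000000000000000000000000000000000000000000000000000000000000000000000000000000000000000000000000000000000000000000000000000000000000000000000000000000000, [cP]),
  (nat_lit 0x40020000000000000000000000000000000000000000000000000000000000000000000000000000000000000000000000000000000000000000000000000000000000000000000000000000000000000000, [cP]),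
  (nat_lit 0x100000000000000000000000000000000000000000000000000000000000000000000000000000000000000000000000000000000000000000000000000000000000000000000000000000000000000000000, [cP]),
  (nat_lit 0x80000000000000000000000000000000000000000000000000000000000000000000000000000000000000000000000000000000000000000000000000000000000000000000000000000000000000000000000000, [Nat.sub (Nat.pow 2 629) (Nat.pow 2 0), Nat.sub (Nat.pow 2 3136) (Nat.pow 2 629)]),
  (nat_lit 0x4000000000000000000000000000000000000000000000000000000000000000000000000000000000000000000000000000000000000000000000000000000000000000000000000000000000000000000000000000, [Nat.sub (Nat.pow 2 311) (Nat.pow 2 0), Nat.sub (Nat.pow 2 3136) (Nat.pow 2 311)]),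
  (nat_lit 0x1000002000000000000000000000000000000000000000000000000000000000000000000000000000000000000000000000000000000000000000000000000000000000000000000000000000000000000000000000, [cP]),
  (nat_lit 0x8400000000000000000000000000000000000000000000000000000000000000000000000000000000000000000000000000000000000000000000000000000000000000000000000000000000000000000000000000000000000000000000, [cP]),
  (nat_lit 0x10000000000000000000000000000000000000000000000000000000000000000000000000000000000000000000000000000000000000000000000000000000000000000000000000000000000000000000000000000000000000000000000, [cP]),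
  (nat_lit 0x220000000000000000000000000000000000000000000000000000000000000000000000000000000000000000000000000000000000000000000000000000000000000000000000000000000000000000000000000000000000000000000000, [cP]),
  (nat_lit 0x800000000000000000000000000000000000000000000000000000000000000000000000000000000000000000000000000000000000000000000000000000000000000000000000000000000000000000000000000000000000000000000000000, [cP]),
  (nat_lit 0x1000000000000000000000000000000000000000000000000000000000000000000000000000000000000000000000000000000000000000000000000000000000000000000000000000000000000000000000000000000000000000000000000000, [cP]),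
  (nat_lit 0x1000000000000000000000000000000000000000000000000000000000000000000000000000000000000000000000000000000000000000000000000000000000000000000000000000000000000000000000000000000000000000000000000000000000, [Nat.sub (Nat.pow 2 311) (Nat.pow 2 0), Nat.sub (Nat.pow 2 1566) (Nat.pow 2 311), Nat.sub (Nat.pow 2 3136) (Nat.pow 2 1566)]),
  (nat_lit 0x4000050000000000000000000000000000000000000000000000000000000000000000000000000000000000000000000000000000000000000000000000000000000000000000000000000000000000000000000000000000000000000000000000000000, [cP]),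
  (nat_lit 0x80000000000000000000000000000000000000000000000000000000000000000000000000000000000000000000000000000000000000000000000000000000000000000000000000000000000000000000000000000000000000000000000000000000000, [Nat.sub (Nat.pow 2 811) (Nat.pow 2 0), Nat.sub (Nat.pow 2 3136) (Nat.pow 2 811)]),
  (nat_lit 0x1420000000000000000000000000000000000000000000000000000000000000000000000000000000000000000000000000000000000000000000000000000000000000000000000000000000000000000000000000000000000000000000000000000000000, [cP]),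
  (nat_lit 0x8000000000000000000000000000000000000000000000000000000000000000000000000000000000000000000000000000000000000000000000000000000000000000000000000000000000000000000000000000000000000000000000000000000000000000000000000000, [cP]),
  (nat_lit 0x300000000000000000000000000000000000000000000000000000000000000000000000000000000000000000000000000000000000000000000000000000000000000000000000000000000000000000000000000000000000000000000000000000000000000000000000000000, [cP]),
  (nat_lit 0x400000000000000000000000000000000000000000000000000000000000000000000000000000000000000000000000000000000000000000000000000000000000000000000000000000000000000000000000000000000000000000000000000000000000000000000000000000, [cP]),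
  (nat_lit 0x2000000000000000000000000000000000000000000000000000000000000000000000000000000000000000000000000000000000000000000000000000000000000000000000000000000000000000000000000000000000000000000000000000000000000000000000000000000, [cP]),
  (nat_lit 0x10004000000000000000000000000000000000000000000000000000000000000000000000000000000000000000000000000000000000000000000000000000000000000000000000000000000000000000000000000000000000000000000000000000000000000000000000000000000, [cP]),
  (nat_lit 0x40000000000000000000000000000000000000000000000000000000000000000000000000000000000000000000000000000000000000000000000000000000000000000000000000000000000000000000000000000000000000000000000000000000000000000000000000000000000, [cP]),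
  (nat_lit 0x200000000000000000000000000000000000000000000000000000000000000000000000000000000000000000000000000000000000000000000000000000000000000000000000000000000000000000000000000000000000000000000000000000000000000000000000000000000000, [cP]),
  (nat_lit 0x1000000000000000000000000000000000000000000000000000000000000000000000000000000000000000000000000000000000000000000000000000000000000000000000000000000000000000000000000000000000000000000000000000000000000000000000000000000000000000000, [Nat.sub (Nat.pow 2 311) (Nat.pow 2 0), Nat.sub (Nat.pow 2 1254) (Nat.pow 2 311), Nat.sub (Nat.pow 2 3136) (Nat.pow 2 1254)]),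
  (nat_lit 0x400000000000000000000000000000000000000000000000000000000000000000000000000000000000000000000000000000000000000000000000000000000000000000000000000000000000000000000000000000000000000000000000000000000000000000000000000000000000000000, [cP]),
  (nat_lit 0x40000000000000000000000000000000000000000000000000000000000000000000000000000000000000000000000000000000000000000000000000000000000000000000000000000000000000000000000000000000000000000000000000000000000000000000000000000000000000000000000000000000000000000000000000000000000000000000000000000000000000000000000000, [cP]),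
  (nat_lit 0x80020000000000000000000000000000000000000000000000000000000000000000000000000000000000000000000000000000000000000000000000000000000000000000000000000000000000000000000000000000000000000000000000000000000000000000000000000000000000000000000000000000000000000000000000000000000000000000000000000000000000000000000000000000, [cP]),
  (nat_lit 0x1000000000000000000000000000000000000000000000000000000000000000000000000000000000000000000000000000000000000000000000000000000000000000000000000000000000000000000000000000000000000000000000000000000000000000000000000000000000000000000000000000000000000000000000000000000000000000000000000000000000000000000000000000000000, [cP]),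
  (nat_lit 0x8000000000000000000000000000000000000000000000000000000000000000000000000000000000000000000000000000000000000000000000000000000000000000000000000000000000000000000000000000000000000000000000000000000000000000000000000000000000000000000000000000000000000000000000000000000000000000000000000000000000000000000000000000000000000000, [Nat.sub (Nat.pow 2 764) (Nat.pow 2 0), Nat.sub (Nat.pow 2 3136) (Nat.pow 2 764)]),
  (nat_lit 0x80000000000000000000000000000000000000000000000000000000000000000000000000000000000000000000000000000000000000000000000000000000000000000000000000000000000000000000000000000000000000000000000000000000000000000000000000000000000000000000000000000000000000000000000000000000000000000000000000000000000000000000000000000000000000000, [Nat.sub (Nat.pow 2 790) (Nat.pow 2 0), Nat.sub (Nat.pow 2 3136) (Nat.pow 2 790)]),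
  (nat_lit 0x800000000000000102000002000000000000000000000000000000000000000000000000000000000000000000000000000000000000000000000000000000000000000000000000000000000000000000000000000000000000000000000000000000000000000000000000000000000000000000000000000000000000000000000000000000000000000000000000000000000000000000000000000000000000000000000000000000000, [cP]),
  (nat_lit 0x3000000000000000000000000000000000000000000000000000000000000000000000000000000000000000000000000000000000000000000000000000000000000000000000000000000000000000000000000000000000000000000000000000000000000000000000000000000000000000000000000000000000000000000000000000000000000000000000000000000000000000000000000000000000000000000000000000000000, [cP]),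
  (nat_lit 0x20000000000000000000000000000000000000000000000000000000000000000000000000000000000000000000000000000000000000000000000000000000000000000000000000000000000000000000000000000000000000000000000000000000000000000000000000000000000000000000000000000000000000000000000000000000000000000000000000000000000000000000000000000000000000000000000000000000000, [cP]),
  (nat_lit 0x200000000000000000000000000000000000000000000000000000000000000000000000000000000000000000000000000000000000000000000000000000000000000000000000000000000000000000000000000000000000000000000000000000000000000000000000000000000000000000000000000000000000000000000000000000000000000000000000000000000000000000000000000000000000000000000000000000000000, [cP]),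
  (nat_lit 0x80000400000000000000000000000000000000000000000000000000000000000000000000000000000000000000000000000000000000000000000000000000000000000000000000000000000000000000000000000000000000000000000000000000000000000000000000000000000000000000000000000000000000000000000000000000000000000000000000000000000000000000000000000000000000000000000000000000000000000, [cP]),
  (nat_lit 0x400000000000000000000000000000000000000000000000000000000000000000000000000000000000000000000000000000000000000000000000000000000000000000000000000000000000000000000000000000000000000000000000000000000000000000000000000000000000000000000000000000000000000000000000000000000000000000000000000000000000000000000000000000000000000000000000000000000000000000, [cP]),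
  (nat_lit 0x100000000000000000000000000000000000000000000000000000000000000000000000000000000000000000000000000000000000000000000000000000000000000000000000000000000000000000000000000000000000000000000000000000000000000000000000000000000000000000000000000000000000000000000000000000000000000000000000000000000000000000000000000000000000000000000000000000000000000000000000, [Nat.sub (Nat.pow 2 815) (Nat.pow 2 0), Nat.sub (Nat.pow 2 3136) (Nat.pow 2 815)]),
  (nat_lit 0x800001000000000000000000000000000000000000000000000000000000000000000000000000000000000000000000000000000000000000000000000000000000000000000000000000000000000000000000000000000000000000000000000000000000000000000000000000000000000000000000000000000000000000000000000000000000000000000000000000000000000000000000000000000000000000000000000000000000000000000000, [cP]),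
  (nat_lit 0x1000000000000000000000000000000000000000000000000000000000000000000000000000000000000000000000000000000000000000000000000000000000000000000000000000000000000000000000000000000000000000000000000000000000000000000000000000000000000000000000000000000000000000000000000000000000000000000000000000000000000000000000000000000000000000000000000000000000000000000000000, [cP]),
  (nat_lit 0x30000000000000000000000000000000000000000000000000000000000000000000000000000000000000000000000000000000000000000000000000000000000000000000000000000000000000000000000000000000000000000000000000000000000000000000000000000000000000000000000000000000000000000000000000000000000000000000000000000000000000000000000000000000000000000000000000000000000000000000000000000000000000000, [cP]),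
  (nat_lit 0x400000000000000000000000000000000000000000000000000000000000000000000000000000000000000000000000000000000000000000000000000000000000000000000000000000000000000000000000000000000000000000000000000000000000000000000000000000000000000000000000000000000000000000000000000000000000000000000000000000000000000000000000000000000000000000000000000000000000000000000000000000000000000000, [cP]),
  (nat_lit 0x18000000000000000000000000000000000000000000000000000000000000000000000000000000000000000000000000000000000000000000000000000000000000000000000000000000000000000000000000000000000000000000000000000000000000000000000000000000000000000000000000000000000000000000000000000000000000000000000000000000000000000000000000000000000000000000000000000000000000000000000000000000000000000000, [cP]),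
  (nat_lit 0xa0000000000000000000000000000000000000000000000000000000000000000000000000000000000000000000000000000000000000000000000000000000000000000000000000000000000000000000000000000000000000000000000000000000000000000000000000000000000000000000000000000000000000000000000000000000000000000000000000000000000000000000000000000000000000000000000000000000000000000000000000000000000000000000000, [cP]),
  (nat_lit 0x400000000000000000000000000000000000000000000000000000000000000000000000000000000000000000000000000000000000000000000000000000000000000000000000000000000000000000000000000000000000000000000000000000000000000000000000000000000000000000000000000000000000000000000000000000000000000000000000000000000000000000000000000000000000000000000000000000000000000000000000000000000000000000000000, [cP]),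
  (nat_lit 0x11000000000000000000000000000000000000000000000000000000000000000000000000000000000000000000000000000000000000000000000000000000000000000000000000000000000000000000000000000000000000000000000000000000000000000000000000000000000000000000000000000000000000000000000000000000000000000000000000000000000000000000000000000000000000000000000000000000000000000000000000000000000000000000000000, [cP]),
  (nat_lit 0x180020000000000000000000000000000000000000000000000000000000000000000000000000000000000000000000000000000000000000000000000000000000000000000000000000000000000000000000000000000000000000000000000000000000000000000000000000000000000000000000000000000000000000000000000000000000000000000000000000000000000000000000000000000000000000000000000000000000000000000000000000000000000000000000000000, [cP]),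
  (nat_lit 0x2000000000000000000000000000000000000000000000000000000000000000000000000000000000000000000000000000000000000000000000000000000000000000000000000000000000000000000000000000000000000000000000000000000000000000000000000000000000000000000000000000000000000000000000000000000000000000000000000000000000000000000000000000000000000000000000000000000000000000000000000000000000000000000000000000000, [Nat.sub (Nat.pow 2 804) (Nat.pow 2 0), Nat.sub (Nat.pow 2 3136) (Nat.pow 2 804)]),
  (nat_lit 0x11000000000000000000000000000000000000000000000000000000000000000000000000000000000000000000000000000000000000000000000000000000000000000000000000000000000000000000000000000000000000000000000000000000000000000000000000000000000000000000000000000000000000000000000000000000000000000000000000000000000000000000000000000000000000000000000000000000000000000000000000000000000000000000000000000000, [cP])]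

theorem hp0 : ∀ p ∈ L0, ∀ D2 ∈ p.2, ∃ e,
    search ext94 (Pool.Agent.H74.EGZ.vio sb) G Uc A0 p.1 D2 e = true :=
  (List.forall_mem_cons.2 ⟨(List.forall_mem_singleton.2 ⟨e0, by decide +kernel⟩),
  (List.forall_mem_cons.2 ⟨(List.forall_mem_singleton.2 ⟨.leaf, by decide +kernel⟩),
  (List.forall_mem_cons.2 ⟨(List.forall_mem_singleton.2 ⟨e2, by decide +kernel⟩),
  (List.forall_mem_cons.2 ⟨(List.forall_mem_singleton.2 ⟨e3, by decide +kernel⟩),
  (List.forall_mem_cons.2 ⟨(List.forall_mem_singleton.2 ⟨.leaf, by decide +kernel⟩),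
  (List.forall_mem_cons.2 ⟨(List.forall_mem_cons.2 ⟨⟨e5, by decide +kernel⟩,
  (List.forall_mem_cons.2 ⟨⟨e6, by decide +kernel⟩,
  (List.forall_mem_cons.2 ⟨⟨e7, by decide +kernel⟩,
  (List.forall_mem_cons.2 ⟨⟨e8, by decide +kernel⟩,
  (List.forall_mem_cons.2 ⟨⟨e9, by decide +kernel⟩,
  (List.forall_mem_cons.2 ⟨⟨e10, by decide +kernel⟩,
  (List.forall_mem_cons.2 ⟨⟨e11, by decide +kernel⟩,
  (List.forall_mem_cons.2 ⟨⟨e12, by decide +kernel⟩,
  (List.forall_mem_singleton.2 ⟨.leaf, by decide +kernel⟩)⟩)⟩)⟩)⟩)⟩)⟩)⟩)⟩),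
  (List.forall_mem_cons.2 ⟨(List.forall_mem_cons.2 ⟨⟨e14, by decide +kernel⟩,
  (List.forall_mem_singleton.2 ⟨e15, by decide +kernel⟩)⟩),
  (List.forall_mem_cons.2 ⟨(List.forall_mem_cons.2 ⟨⟨e16, by decide +kernel⟩,
  (List.forall_mem_singleton.2 ⟨e17, by decide +kernel⟩)⟩),
  (List.forall_mem_cons.2 ⟨(List.forall_mem_singleton.2 ⟨e18, by decide +kernel⟩),
  (List.forall_mem_cons.2 ⟨(List.forall_mem_singleton.2 ⟨e19, by decide +kernel⟩),
  (List.forall_mem_cons.2 ⟨(List.forall_mem_singleton.2 ⟨e20, by decide +kernel⟩),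
  (List.forall_mem_cons.2 ⟨(List.forall_mem_singleton.2 ⟨.leaf, by decide +kernel⟩),
  (List.forall_mem_cons.2 ⟨(List.forall_mem_singleton.2 ⟨e22, by decide +kernel⟩),
  (List.forall_mem_cons.2 ⟨(List.forall_mem_singleton.2 ⟨e23, by decide +kernel⟩),
  (List.forall_mem_cons.2 ⟨(List.forall_mem_cons.2 ⟨⟨e24, by decide +kernel⟩,
  (List.forall_mem_singleton.2 ⟨e25, by decide +kernel⟩)⟩),
  (List.forall_mem_cons.2 ⟨(List.forall_mem_singleton.2 ⟨e26, by decide +kernel⟩),
  (List.forall_mem_cons.2 ⟨(List.forall_mem_singleton.2 ⟨e27, by decide +kernel⟩),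
  (List.forall_mem_cons.2 ⟨(List.forall_mem_singleton.2 ⟨.leaf, by decide +kernel⟩),
  (List.forall_mem_cons.2 ⟨(List.forall_mem_singleton.2 ⟨e29, by decide +kernel⟩),
  (List.forall_mem_cons.2 ⟨(List.forall_mem_cons.2 ⟨⟨e30, by decide +kernel⟩,
  (List.forall_mem_singleton.2 ⟨e31, by decide +kernel⟩)⟩),
  (List.forall_mem_cons.2 ⟨(List.forall_mem_cons.2 ⟨⟨e32, by decide +kernel⟩,
  (List.forall_mem_singleton.2 ⟨e33, by decide +kernel⟩)⟩),
  (List.forall_mem_cons.2 ⟨(List.forall_mem_singleton.2 ⟨e34, by decide +kernel⟩),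
  (List.forall_mem_cons.2 ⟨(List.forall_mem_singleton.2 ⟨e35, by decide +kernel⟩),
  (List.forall_mem_cons.2 ⟨(List.forall_mem_singleton.2 ⟨e36, by decide +kernel⟩),
  (List.forall_mem_cons.2 ⟨(List.forall_mem_singleton.2 ⟨.leaf, by decide +kernel⟩),
  (List.forall_mem_cons.2 ⟨(List.forall_mem_cons.2 ⟨⟨e38, by decide +kernel⟩,
  (List.forall_mem_singleton.2 ⟨.leaf, by decide +kernel⟩)⟩),
  (List.forall_mem_cons.2 ⟨(List.forall_mem_cons.2 ⟨⟨.leaf, by decide +kernel⟩,
  (List.forall_mem_singleton.2 ⟨e41, by decide +kernel⟩)⟩),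
  (List.forall_mem_cons.2 ⟨(List.forall_mem_singleton.2 ⟨e42, by decide +kernel⟩),
  (List.forall_mem_cons.2 ⟨(List.forall_mem_singleton.2 ⟨e43, by decide +kernel⟩),
  (List.forall_mem_cons.2 ⟨(List.forall_mem_singleton.2 ⟨e44, by decide +kernel⟩),
  (List.forall_mem_cons.2 ⟨(List.forall_mem_singleton.2 ⟨e45, by decide +kernel⟩),
  (List.forall_mem_cons.2 ⟨(List.forall_mem_singleton.2 ⟨e46, by decide +kernel⟩),
  (List.forall_mem_cons.2 ⟨(List.forall_mem_singleton.2 ⟨e47, by decide +kernel⟩),
  (List.forall_mem_cons.2 ⟨(List.forall_mem_cons.2 ⟨⟨e48, by decide +kernel⟩,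
  (List.forall_mem_cons.2 ⟨⟨e49, by decide +kernel⟩,
  (List.forall_mem_singleton.2 ⟨.leaf, by decide +kernel⟩)⟩)⟩),
  (List.forall_mem_cons.2 ⟨(List.forall_mem_singleton.2 ⟨e51, by decide +kernel⟩),
  (List.forall_mem_cons.2 ⟨(List.forall_mem_cons.2 ⟨⟨e52, by decide +kernel⟩,
  (List.forall_mem_singleton.2 ⟨e53, by decide +kernel⟩)⟩),
  (List.forall_mem_cons.2 ⟨(List.forall_mem_singleton.2 ⟨e54, by decide +kernel⟩),
  (List.forall_mem_cons.2 ⟨(List.forall_mem_singleton.2 ⟨e55, by decide +kernel⟩),
  (List.forall_mem_cons.2 ⟨(List.forall_mem_singleton.2 ⟨e56, by decide +kernel⟩),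
  (List.forall_mem_cons.2 ⟨(List.forall_mem_singleton.2 ⟨.leaf, by decide +kernel⟩),
  (List.forall_mem_cons.2 ⟨(List.forall_mem_singleton.2 ⟨e58, by decide +kernel⟩),
  (List.forall_mem_cons.2 ⟨(List.forall_mem_singleton.2 ⟨e59, by decide +kernel⟩),
  (List.forall_mem_cons.2 ⟨(List.forall_mem_singleton.2 ⟨e60, by decide +kernel⟩),
  (List.forall_mem_cons.2 ⟨(List.forall_mem_singleton.2 ⟨e61, by decide +kernel⟩),
  (List.forall_mem_cons.2 ⟨(List.forall_mem_cons.2 ⟨⟨e62, by decide +kernel⟩,
  (List.forall_mem_cons.2 ⟨⟨e63, by decide +kernel⟩,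
  (List.forall_mem_singleton.2 ⟨e64, by decide +kernel⟩)⟩)⟩),
  (List.forall_mem_cons.2 ⟨(List.forall_mem_singleton.2 ⟨e65, by decide +kernel⟩),
  (List.forall_mem_cons.2 ⟨(List.forall_mem_singleton.2 ⟨.leaf, by decide +kernel⟩),
  (List.forall_mem_cons.2 ⟨(List.forall_mem_singleton.2 ⟨.leaf, by decide +kernel⟩),
  (List.forall_mem_cons.2 ⟨(List.forall_mem_singleton.2 ⟨e68, by decide +kernel⟩),
  (List.forall_mem_cons.2 ⟨(List.forall_mem_cons.2 ⟨⟨e69, by decide +kernel⟩,
  (List.forall_mem_singleton.2 ⟨.leaf, by decide +kernel⟩)⟩),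
  (List.forall_mem_cons.2 ⟨(List.forall_mem_cons.2 ⟨⟨e71, by decide +kernel⟩,
  (List.forall_mem_singleton.2 ⟨e72, by decide +kernel⟩)⟩),
  (List.forall_mem_cons.2 ⟨(List.forall_mem_singleton.2 ⟨.leaf, by decide +kernel⟩),
  (List.forall_mem_cons.2 ⟨(List.forall_mem_singleton.2 ⟨.leaf, by decide +kernel⟩),
  (List.forall_mem_cons.2 ⟨(List.forall_mem_singleton.2 ⟨e75, by decide +kernel⟩),
  (List.forall_mem_cons.2 ⟨(List.forall_mem_singleton.2 ⟨e76, by decide +kernel⟩),
  (List.forall_mem_cons.2 ⟨(List.forall_mem_singleton.2 ⟨e77, by decide +kernel⟩),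
  (List.forall_mem_cons.2 ⟨(List.forall_mem_singleton.2 ⟨e78, by decide +kernel⟩),
  (List.forall_mem_cons.2 ⟨(List.forall_mem_cons.2 ⟨⟨.leaf, by decide +kernel⟩,
  (List.forall_mem_singleton.2 ⟨.leaf, by decide +kernel⟩)⟩),
  (List.forall_mem_cons.2 ⟨(List.forall_mem_singleton.2 ⟨e81, by decide +kernel⟩),
  (List.forall_mem_cons.2 ⟨(List.forall_mem_singleton.2 ⟨e82, by decide +kernel⟩),
  (List.forall_mem_cons.2 ⟨(List.forall_mem_singleton.2 ⟨e83, by decide +kernel⟩),
  (List.forall_mem_cons.2 ⟨(List.forall_mem_singleton.2 ⟨e84, by decide +kernel⟩),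
  (List.forall_mem_cons.2 ⟨(List.forall_mem_singleton.2 ⟨.leaf, by decide +kernel⟩),
  (List.forall_mem_cons.2 ⟨(List.forall_mem_singleton.2 ⟨e86, by decide +kernel⟩),
  (List.forall_mem_cons.2 ⟨(List.forall_mem_singleton.2 ⟨e87, by decide +kernel⟩),
  (List.forall_mem_cons.2 ⟨(List.forall_mem_singleton.2 ⟨e88, by decide +kernel⟩),
  (List.forall_mem_cons.2 ⟨(List.forall_mem_singleton.2 ⟨e89, by decide +kernel⟩),
  (List.forall_mem_cons.2 ⟨(List.forall_mem_cons.2 ⟨⟨e90, by decide +kernel⟩,
  (List.forall_mem_singleton.2 ⟨e91, by decide +kernel⟩)⟩),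
  (List.forall_mem_singleton.2 (List.forall_mem_singleton.2 ⟨e92, by decide +kernel⟩))⟩)⟩)⟩)⟩)⟩)⟩)⟩)⟩)⟩)⟩)⟩)⟩)⟩)⟩)⟩)⟩)⟩)⟩)⟩)⟩)⟩)⟩)⟩)⟩)⟩)⟩)⟩)⟩)⟩)⟩)⟩)⟩)⟩)⟩)⟩)⟩)⟩)⟩)⟩)⟩)⟩)⟩)⟩)⟩)⟩)⟩)⟩)⟩)⟩)⟩)⟩)⟩)⟩)⟩)⟩)⟩)⟩)⟩)⟩)⟩)⟩)⟩)⟩)⟩)⟩)⟩)⟩)⟩)

end

end Pool.Agent.H21.EGZ.S10
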