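import Pool.Agent.H21.EGZ.D11

/-!
# Stage 11 : search, part 0
-/

set_option autoImplicit false
set_option maxRecDepth 100000

namespace Pool.Agent.H21.EGZ.S11

noncomputable section

open Pool.Agent.H74.EGZ Pool.Agent.H94.Lift

/-- refutations 1 -/
def e1 : EX := (.node (.node (.node (.node (.node .leaf (nat_lit 439908830875130) (.br (nat_lit 0) (.cons (.br (nat_lit 1) (.cons (.rel (nat_lit 20975622)) .nil)) .nil)) .leaf) (nat_lit 440331366614403) (.br (nat_lit 0) (.cons (.br (nat_lit 4) (.cons (.rel (nat_lit 1077940260)) .nil)) .nil)) .leaf) (nat_lit 440932661411203) (.br (nat_lit 2) (.cons (.br (nat_lit 4) (.cons (.rel (nat_lit 1140932673)) .nil)) .nil)) (.node (.node .leaf (nat_lit 441138817888541) (.br (nat_lit 0) (.cons (.br (nat_lit 1) (.cons (.rel (nat_lit 20975622)) .nil)) .nil)) .leaf) (nat_lit 441138820364573) (.br (nat_lit 0) (.cons (.br (nat_lit 1) (.cons (.rel (nat_lit 20976657)) .nil)) .nil)) .leaf)) (nat_lit 441138820394485) (.br (nat_lit 1) (.cons (.br (nat_lit 4) (.cons (.rel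 (nat_lit 1090523232)) .nil)) .nil)) (.node (.node (.node .leaf (nat_lit 445237189784338) (.br (nat_lit 0) (.cons (.br (nat_lit 1) (.cons (.rel (nat_lit 25691136)) .nil)) .nil)) .leaf) (nat_lit 445237190451825) (.br (nat_lit 3) (.cons (.br (nat_lit 4) (.cons (.rel (nat_lit 1342194693)) .nil)) .nil)) .leaf) (nat_lit 445237190495135) (.br (nat_lit 0) (.cons (.br (nat_lit 1) (.cons (.rel (nat_lit 41959680)) .nil)) .nil)) (.node (.node .leaf (nat_lit 445237192077322) (.br (nat_lit 0) (.cons (.br (nat_lit 1) (.cons (.rel (nat_lit 20972832)) .nil)) .nil)) .leaf) (nat_lit 445237192243210) (.br (nat_lit 1) (.cons (.br (nat_lit 3) (.cons (.rel (nat_lit 285216789)) .nil)) .nil)) .leaf))) (nat_lit 445237192243351) (.br (nat_lit 0) (.cons (.br (nat_lit 1) (.cons (.rel (nat_lit 20971797)) .nil)) .nil)) (.node (.node (.node (.node .leaf (nat_lit 445276700773289) (.br (nat_lit 1) (.cons (.br (nat_lit 2) (.cons (.rel (nat_lit 83968080)) .nil)) .nil)) .leaf) (nat_lit 445280160064875) (.br (nat_lit 4) (.cons (.br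 (nat_lit 0) (.cons (.rel (nat_lit 1077941250)) (.cons (.rel (nat_lit 1077936390)) .nil))) .nil)) .leaf) (nat_lit 445280160152489) (.br (nat_lit 2) (.cons (.br (nat_lit 3) (.cons (.rel (nat_lit 335550720)) .nil)) .nil)) (.node (.node .leaf (nat_lit 445280161073189) (.br (nat_lit 0) (.cons (.br (nat_lit 3) (.cons (.rel (nat_lit 274727952)) .nil)) .nil)) .leaf) (nat_lit 445280162685110) (.br (nat_lit 0) (.cons (.br (nat_lit 1) (.cons (.rel (nat_lit 20972832)) .nil)) .nil)) .leaf)) (nat_lit 445280162888585) (.br (nat_lit 0) (.cons (.br (nat_lit 1) (.cons (.rel (nat_lit 20975622)) .nil)) .nil)) (.node (.node (.node .leaf (nat_lit 445701272429475) (.br (nat_lit 1) (.cons (.br (nat_lit 2) (.cons (.rel (nat_lit 83890500)) (.cons (.rel (nat_lit 83918913)) .nil))) .nil)) .leaf) (nat_lit 445701274017001) (.br (nat_lit 1) (.cons (.br (nat_lit 6) (.cons (.rel (nat_lit 17196729600)) .nil)) .nil)) .leaf) (nat_lit 445701274947870) (.br (nat_lit 0) (.cons (.br (nat_lit 1) (.cons (.rel (nat_lit 20975622)) .nil))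 .nil)) (.node (.node .leaf (nat_lit 445701275001763) (.br (nat_lit 2) (.cons (.br (nat_lit 6) (.cons (.rel (nat_lit 17247043605)) .nil)) .nil)) .leaf) (nat_lit 445701275002089) (.br (nat_lit 0) (.cons (.br (nat_lit 1) (.cons (.rel (nat_lit 21004800)) (.cons (.rel (nat_lit 20975622)) .nil))) (.cons (.br (nat_lit 1) (.cons (.rel (nat_lit 25165896)) (.cons (.rel (nat_lit 21038100)) .nil))) .nil))) .leaf))))

/-- refutations 2 -/
def e2 : EX := (.node (.node (.node (.node .leaf (nat_lit 447762106194071) (.br (nat_lit 0) (.cons (.br (nat_lit 2) (.cons (.rel (nat_lit 139461696)) .nil)) .nil)) .leaf) (nat_lit 447762108768417) (.br (nat_lit 1) (.cons (.br (nat_lit 5) (.cons (.rel (nat_lit 8623493124)) .nil)) .nil)) (.node .leaf (nat_lit 447762633013399) (.br (nat_lit 1) (.cons (.br (nat_lit 3) (.cons (.rel (nat_lit 285344256)) .nil)) .nil)) .leaf)) (nat_lit 447762633013555) (.br (nat_lit 3) (.cons (.br (nat_lit 4) (.cons (.rel (nat_lit 1342316544)) .nil)) .nil)) (.node (.node .leaf (nat_lit 447762837080740)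 (.br (nat_lit 1) (.cons (.br (nat_lit 5) (.cons (.rel (nat_lit 4328522136)) .nil)) .nil)) .leaf) (nat_lit 447762838278175) (.br (nat_lit 1) (.cons (.br (nat_lit 2) (.cons (.rel (nat_lit 83895360)) .nil)) .nil)) .leaf)) (nat_lit 447764719245349) (.br (nat_lit 3) (.cons (.br (nat_lit 2) (.cons (.rel (nat_lit 335675397)) (.cons (.rel (nat_lit 335807040)) (.cons (.rel (nat_lit 335610129)) .nil)))) .nil)) (.node (.node (.node .leaf (nat_lit 447764719245463) (.br (nat_lit 0) (.cons (.br (nat_lit 3) (.cons (.rel (nat_lit 274726917)) .nil)) .nil)) .leaf) (nat_lit 447764721305637) (.br (nat_lit 0) (.cons (.br (nat_lit 1) (.cons (.rel (nat_lit 21037065)) .nil)) .nil)) .leaf) (nat_lit 451718916858787) (.br (nat_lit 0) (.cons (.br (nat_lit 1) (.cons (.rel (nat_lit 21038100)) .nil)) .nil)) (.node (.node .leaf (nat_lit 451878878280310) (.br (nat_lit 5) (.cons (.br (nat_lit 6) (.cons (.rel (nat_lit 25769820180)) .nil)) .nil)) .leaf) (nat_lit 453133963371148) (.br (nat_lit 3) (.cons (.br (nat_lit 4) (.cons (.br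 (nat_lit 0) (.cons (.rel (nat_lit 1077936390)) (.cons (.rel (nat_lit 1079247360)) .nil))) .nil)) .nil)) .leaf)))

/-- refutations 3 -/
def e3 : EX := (.node (.node (.node .leaf (nat_lit 530438315384335) (.br (nat_lit 1) (.cons (.br (nat_lit 4) (.cons (.rel (nat_lit 1107304704)) .nil)) .nil)) .leaf) (nat_lit 530438316154383) (.br (nat_lit 2) (.cons (.br (nat_lit 3) (.cons (.rel (nat_lit 335560962)) .nil)) .nil)) .leaf) (nat_lit 534227940309868) (.br (nat_lit 1) (.cons (.br (nat_lit 4) (.cons (.rel (nat_lit 1090535508)) .nil)) .nil)) (.node (.node .leaf (nat_lit 534227941120180) (.br (nat_lit 1) (.cons (.br (nat_lit 2) (.cons (.rel (nat_lit 84217986)) .nil)) .nil)) .leaf) (nat_lit 534227941335040) (.br (nat_lit 1) (.cons (.br (nat_lit 3) (.cons (.rel (nat_lit 285216789)) .nil)) .nil)) .leaf))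

/-- refutations 4 -/
def e4 : EX := (.node (.node (.node (.node .leaf (nat_lit 535764075815547) (.br (nat_lit 0) (.cons (.br (nat_lit 2) (.cons (.rel (nat_lit 71435265)) .nil)) .nil)) .leaf) (nat_lit 535766590145288) (.br (nat_lit 0) (.cons (.br (nat_lit 2) (.cons (.rel (nat_lit 71305728)) .nil)) .nil)) .leaf) (nat_lit 535766592170860) (.br (nat_lit 2) (.cons (.br (nat_lit 5) (.cons (.rel (nat_lit 4362174465)) .nil)) .nil)) (.node (.node .leaf (nat_lit 535766737713952) (.br (nat_lit 0) (.cons (.br (nat_lit 1) (.cons (.rel (nat_lit 21037065)) .nil)) .nil)) .leaf) (nat_lit 535766739197952) (.br (nat_lit 5) (.cons (.br (nat_lit 6) (.cons (.rel (nat_lit 21475164162)) .nil)) .nil)) .leaf)) (nat_lit 535768706633740) (.br (nat_lit 3) (.cons (.br (nat_lit 4) (.cons (.rel (nat_lit 1342210560)) .nil)) .nil)) (.node (.node (.node .leaf (nat_lit 539029711904780) (.br (nat_lit 1) (.cons (.br (nat_lit 0) (.cons (.rel (nat_lit 20988933)) (.cons (.rel (nat_lit 20975622)) (.cons (.rel (nat_lit 20989968)) (.cons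 (.rel (nat_lit 25165896)) (.cons (.rel (nat_lit 25165896)) .nil)))))) .nil)) .leaf) (nat_lit 539029714701170) (.br (nat_lit 0) (.cons (.br (nat_lit 4) (.cons (.rel (nat_lit 1077954561)) .nil)) .nil)) .leaf) (nat_lit 539029714772905) (.br (nat_lit 0) (.cons (.br (nat_lit 2) (.cons (.rel (nat_lit 142607616)) .nil)) .nil)) (.node .leaf (nat_lit 539029715079955) (.br (nat_lit 0) (.cons (.br (nat_lit 5) (.cons (.rel (nat_lit 4303373316)) .nil)) .nil)) .leaf)))

/-- refutations 5 -/
def e5 : EX := (.node (.node .leaf (nat_lit 105658969579826) (.br (nat_lit 0) (.cons (.br (nat_lit 1) (.cons (.rel (nat_lit 20989968)) .nil)) .nil)) .leaf) (nat_lit 569396120839694) (.br (nat_lit 1) (.cons (.br (nat_lit 5) (.cons (.rel (nat_lit 4311750912)) .nil)) .nil)) .leaf)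

/-- refutations 6 -/
def e6 : EX := (.node (.node (.node (.node .leaf (nat_lit 652216682613673) (.br (nat_lit 2) (.cons (.br (nat_lit 3) (.cons (.rel (nat_lit 403046400)) .nil)) .nil)) .leaf) (nat_lit 653548671940744) (.br (nat_lit 1) (.cons (.br (nat_lit 2) (.cons (.rel (nat_lit 83918913)) .nil)) .nil)) .leaf) (nat_lit 653551253827595) (.br (nat_lit 1) (.cons (.br (nat_lit 2) (.cons (.rel (nat_lit 151028736)) .nil)) .nil)) (.node (.node .leaf (nat_lit 653551254339720) (.br (nat_lit 0) (.cons (.br (nat_lit 4) (.cons (.rel (nat_lit 1077936390)) .nil)) .nil)) .leaf) (nat_lit 653553888362632) (.br (nat_lit 0) (.cons (.br (nat_lit 4) (.cons (.rel (nat_lit 1077936390)) .nil)) .nil)) .leaf)) (nat_lit 653553889654920) (.br (nat_lit 1) (.cons (.br (nat_lit 2) (.cons (.rel (nat_lit 83890500)) .nil)) .nil)) (.node (.node (.node .leaf (nat_lit 658739574323825) (.br (nat_lit 0) (.cons (.br (nat_lit 1) (.cons (.rel (nat_lit 38012928)) .nil)) .nil)) .leaf) (nat_lit 658739574825585) (.br (nat_lit 3) (.cons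 (.br (nat_lit 4) (.cons (.rel (nat_lit 1342181382)) .nil)) .nil)) .leaf) (nat_lit 658739575898737) (.br (nat_lit 6) (.cons (.br (nat_lit 0) (.cons (.rel (nat_lit 17188262148)) (.cons (.rel (nat_lit 34363933956)) .nil))) .nil)) (.node (.node .leaf (nat_lit 658742207373324) (.br (nat_lit 2) (.cons (.br (nat_lit 5) (.cons (.rel (nat_lit 8658109440)) (.cons (.rel (nat_lit 4362077193)) (.cons (.rel (nat_lit 8657044548)) .nil)))) (.cons (.br (nat_lit 4) (.cons (.rel (nat_lit 1208090628)) (.cons (.rel (nat_lit 1207976193)) .nil))) .nil))) .leaf) (nat_lit 658742209921036) (.br (nat_lit 2) (.cons (.br (nat_lit 4) (.cons (.rel (nat_lit 1141245057)) .nil)) .nil)) .leaf)))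

/-- refutations 7 -/
def e7 : EX := (.node (.node (.node (.node (.node .leaf (nat_lit 658942598955790) (.br (nat_lit 0) (.cons (.br (nat_lit 2) (.cons (.rel (nat_lit 71372832)) .nil)) .nil)) .leaf) (nat_lit 658943149061351) (.br (nat_lit 1) (.cons (.br (nat_lit 4) (.cons (.rel (nat_lit 1091698689)) .nil)) .nil)) .leaf) (nat_lit 658943150661643) (.br (nat_lit 1) (.cons (.br (nat_lit 6) (.cons (.rel (nat_lit 17197699200)) .nil)) .nil)) (.node (.node .leaf (nat_lit 658943150662407) (.br (nat_lit 1) (.cons (.br (nat_lit 5) (.cons (.rel (nat_lit 8606842944)) .nil)) .nil)) .leaf) (nat_lit 658945731465991) (.br (nat_lit 1) (.cons (.br (nat_lit 4) (.cons (.rel (nat_lit 1090519362)) .nil)) .nil)) .leaf)) (nat_lit 658947745343499) (.br (nat_lit 2) (.cons (.br (nat_lit 3) (.cons (.rel (nat_lit 335552520)) .nil)) .nil)) (.node (.node (.node .leaf (nat_lit 658948366775527) (.br (nat_lit 2) (.cons (.br (nat_lit 3) (.cons (.rel (nat_lit 335577108)) .nil)) .nil)) .leaf) (nat_lit 662730676888312) (.br (nat_lit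 3) (.cons (.br (nat_lit 6) (.cons (.rel (nat_lit 34628239392)) .nil)) .nil)) .leaf) (nat_lit 662735907789727) (.br (nat_lit 0) (.cons (.br (nat_lit 1) (.cons (.rel (nat_lit 41959680)) (.cons (.rel (nat_lit 41952276)) .nil))) .nil)) (.node (.node .leaf (nat_lit 664234447135976) (.br (nat_lit 0) (.cons (.br (nat_lit 2) (.cons (.rel (nat_lit 71368962)) .nil)) .nil)) .leaf) (nat_lit 664234548769550) (.br (nat_lit 2) (.cons (.br (nat_lit 3) (.cons (.rel (nat_lit 335545860)) .nil)) .nil)) .leaf))) (nat_lit 664239375442672) (.br (nat_lit 1) (.cons (.br (nat_lit 3) (.cons (.rel (nat_lit 570491136)) .nil)) .nil)) (.node (.node (.node (.node .leaf (nat_lit 664239775376112) (.br (nat_lit 0) (.cons (.br (nat_lit 1) (.cons (.rel (nat_lit 20972832)) .nil)) .nil)) .leaf) (nat_lit 664239879729904) (.br (nat_lit 0) (.cons (.br (nat_lit 2) (.cons (.rel (nat_lit 71385108)) .nil)) .nil)) .leaf) (nat_lit 664239879730558) (.br (nat_lit 3) (.cons (.br (nat_lit 1) (.cons (.rel (nat_lit 285344256)) (.cons (.rel (nat_lit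 285249792)) .nil))) .nil)) (.node (.node .leaf (nat_lit 664239879731982) (.br (nat_lit 2) (.cons (.br (nat_lit 3) (.cons (.rel (nat_lit 671092740)) .nil)) .nil)) .leaf) (nat_lit 664239880346352) (.br (nat_lit 1) (.cons (.br (nat_lit 4) (.cons (.rel (nat_lit 1107394560)) (.cons (.rel (nat_lit 1090585665)) .nil))) .nil)) .leaf)) (nat_lit 664239880346527) (.br (nat_lit 1) (.cons (.br (nat_lit 4) (.cons (.rel (nat_lit 1107394560)) .nil)) .nil)) (.node (.node (.node .leaf (nat_lit 664239881332245) (.br (nat_lit 2) (.cons (.br (nat_lit 5) (.cons (.rel (nat_lit 4362080784)) .nil)) .nil)) .leaf) (nat_lit 664239881534192) (.br (nat_lit 4) (.cons (.br (nat_lit 5) (.cons (.rel (nat_lit 5368713480)) .nil)) .nil)) .leaf) (nat_lit 664239881563669) (.br (nat_lit 1) (.cons (.br (nat_lit 2) (.cons (.rel (nat_lit 152305668)) .nil)) .nil)) (.node .leaf (nat_lit 664240289485552) (.br (nat_lit 1) (.cons (.br (nat_lit 2) (.cons (.rel (nat_lit 84935700)) .nil)) .nil)) .leaf))))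

/-- refutations 8 -/
def e8 : EX := (.node (.node (.node .leaf (nat_lit 633423077667602) (.br (nat_lit 0) (.cons (.br (nat_lit 2) (.cons (.rel (nat_lit 71305728)) .nil)) .nil)) .leaf) (nat_lit 1092055618077597) (.br (nat_lit 0) (.cons (.br (nat_lit 2) (.cons (.rel (nat_lit 71336976)) .nil)) .nil)) .leaf) (nat_lit 1092321958671713) (.br (nat_lit 0) (.cons (.br (nat_lit 1) (.cons (.rel (nat_lit 20971797)) .nil)) .nil)) (.node .leaf (nat_lit 1092923201471115) (.br (nat_lit 0) (.cons (.br (nat_lit 1) (.cons (.rel (nat_lit 20971797)) .nil)) .nil)) .leaf))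

/-- refutations 9 -/
def e9 : EX := (.node (.node (.node (.node .leaf (nat_lit 2324378897928827) (.br (nat_lit 2) (.cons (.br (nat_lit 3) (.cons (.rel (nat_lit 335550720)) .nil)) .nil)) .leaf) (nat_lit 2324574478015745) (.br (nat_lit 0) (.cons (.br (nat_lit 1) (.cons (.rel (nat_lit 20972832)) .nil)) .nil)) .leaf) (nat_lit 2324800801063062) (.br (nat_lit 0) (.cons (.br (nat_lit 3) (.cons (.rel (nat_lit 276826116)) .nil)) .nil)) (.node .leaf (nat_lit 2328063980931954) (.br (nat_lit 0) (.cons (.br (nat_lit 1) (.cons (.rel (nat_lit 20989968)) .nil)) .nil)) .leaf)) (nat_lit 2328630915243265) (.br (nat_lit 1) (.cons (.br (nat_lit 2) (.cons (.rel (nat_lit 83919960)) .nil)) .nil)) (.node (.node (.node .leaf (nat_lit 2328633985472762) (.br (nat_lit 2) (.cons (.br (nat_lit 4) (.cons (.rel (nat_lit 1140851268)) .nil)) .nil)) .leaf) (nat_lit 2328633988096937) (.br (nat_lit 1) (.cons (.br (nat_lit 2) (.cons (.rel (nat_lit 83895360)) .nil)) .nil)) .leaf) (nat_lit 2328634082252257) (.br (nat_lit 0) (.cons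 (.br (nat_lit 1) (.cons (.rel (nat_lit 21110784)) .nil)) .nil)) (.node .leaf (nat_lit 2328828485376882) (.br (nat_lit 1) (.cons (.br (nat_lit 4) (.cons (.rel (nat_lit 1090523232)) .nil)) .nil)) .leaf)))

/-- refutations 10 -/
def e10 : EX := (.node (.node (.node .leaf (nat_lit 2333432691231602) (.br (nat_lit 2) (.cons (.br (nat_lit 5) (.cons (.rel (nat_lit 4362097920)) .nil)) .nil)) .leaf) (nat_lit 2333436284724137) (.br (nat_lit 0) (.cons (.br (nat_lit 2) (.cons (.rel (nat_lit 71435265)) .nil)) .nil)) (.node .leaf (nat_lit 2334423056374697) (.br (nat_lit 0) (.cons (.br (nat_lit 1) (.cons (.rel (nat_lit 25165896)) .nil)) .nil)) .leaf)) (nat_lit 2335497323879087) (.br (nat_lit 2) (.cons (.br (nat_lit 4) (.cons (.rel (nat_lit 1140981840)) .nil)) .nil)) (.node (.node .leaf (nat_lit 2335497344581882) (.br (nat_lit 0) (.cons (.br (nat_lit 4) (.cons (.rel (nat_lit 1082392704)) .nil)) .nil)) .leaf) (nat_lit 2335497530385884) (.br (nat_lit 2) (.cons (.br (nat_lit 3) (.cons (.rel (nat_lit 335550720))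 .nil)) .nil)) .leaf))

/-- refutations 11 -/
def e11 : EX := (.node (.node (.node (.node .leaf (nat_lit 2287204324140535) (.br (nat_lit 0) (.cons (.br (nat_lit 1) (.cons (.rel (nat_lit 42012672)) (.cons (.rel (nat_lit 20971797)) (.cons (.rel (nat_lit 20972832)) .nil)))) .nil)) .leaf) (nat_lit 2289659482276151) (.br (nat_lit 1) (.cons (.br (nat_lit 4) (.cons (.rel (nat_lit 1107394560)) .nil)) .nil)) .leaf) (nat_lit 2292891247803624) (.br (nat_lit 0) (.cons (.br (nat_lit 1) (.cons (.rel (nat_lit 20975622)) .nil)) .nil)) (.node (.node .leaf (nat_lit 2300104841420825) (.br (nat_lit 0) (.cons (.br (nat_lit 1) (.cons (.rel (nat_lit 20988933)) .nil)) .nil)) .leaf) (nat_lit 2300104841422327) (.br (nat_lit 0) (.cons (.br (nat_lit 2) (.cons (.rel (nat_lit 71335941)) (.cons (.rel (nat_lit 71319840)) .nil))) .nil)) .leaf)) (nat_lit 2300307849880304) (.br (nat_lit 3) (.cons (.br (nat_lit 4) (.cons (.rel (nat_lit 1342316544)) .nil)) .nil)) (.node (.node (.node .leaf (nat_lit 2300307851412208) (.br (nat_lit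 5) (.cons (.br (nat_lit 2) (.cons (.rel (nat_lit 4362080784)) (.cons (.rel (nat_lit 4429448196)) .nil))) .nil)) .leaf) (nat_lit 2300307852501744) (.br (nat_lit 0) (.cons (.br (nat_lit 1) (.cons (.rel (nat_lit 21004800)) .nil)) .nil)) .leaf) (nat_lit 2300308374532848) (.br (nat_lit 0) (.cons (.br (nat_lit 1) (.cons (.rel (nat_lit 21004800)) .nil)) .nil)) (.node .leaf (nat_lit 2300312677573360) (.br (nat_lit 0) (.cons (.br (nat_lit 6) (.cons (.rel (nat_lit 17188267008)) .nil)) .nil)) .leaf)))

/-- refutations 12 -/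
def e12 : EX := (.node (.node (.node .leaf (nat_lit 2376281826998557) (.br (nat_lit 2) (.cons (.br (nat_lit 5) (.cons (.rel (nat_lit 4362078228)) .nil)) .nil)) .leaf) (nat_lit 2380629482938630) (.br (nat_lit 0) (.cons (.br (nat_lit 1) (.cons (.rel (nat_lit 21037065)) .nil)) .nil)) .leaf) (nat_lit 2381482836720368) (.br (nat_lit 1) (.cons (.br (nat_lit 2) (.cons (.rel (nat_lit 84955392)) .nil)) .nil)) (.node .leaf (nat_lit 2386762696237318) (.br (nat_lit 1) (.cons (.br (nat_lit 2) (.cons (.rel (nat_lit 83918913)) .nil)) .nil)) .leaf))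

/-- refutations 13 -/
def e13 : EX := (.node (.node .leaf (nat_lit 2415802020108948) (.br (nat_lit 0) (.cons (.br (nat_lit 2) (.cons (.rel (nat_lit 71319840)) .nil)) .nil)) .leaf) (nat_lit 2416024912451896) (.br (nat_lit 0) (.cons (.br (nat_lit 1) (.cons (.rel (nat_lit 20976657)) .nil)) .nil)) .leaf)

/-- refutations 14 -/
def e14 : EX := (.node (.node (.node (.node .leaf (nat_lit 2416591845831468) (.br (nat_lit 0) (.cons (.br (nat_lit 1) (.cons (.rel (nat_lit 20972832)) .nil)) .nil)) .leaf) (nat_lit 2416591847050098) (.br (nat_lit 0) (.cons (.br (nat_lit 5) (.cons (.rel (nat_lit 4299169920)) .nil)) .nil)) .leaf) (nat_lit 2417960925308287) (.br (nat_lit 0) (.cons (.br (nat_lit 2) (.cons (.rel (nat_lit 71307528)) .nil)) .nil)) (.node .leaf (nat_lit 2423453108907290) (.br (nat_lit 0) (.cons (.br (nat_lit 3) (.cons (.rel (nat_lit 272646273)) .nil)) .nil)) .leaf)) (nat_lit 2423453740977010) (.br (nat_lit 2) (.cons (.br (nat_lit 3) (.cons (.rel (nat_lit 335545860)) .nil)) .nil)) (.node (.node .leaf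 (nat_lit 2423455105164016) (.br (nat_lit 1) (.cons (.br (nat_lit 3) (.cons (.rel (nat_lit 285213954)) .nil)) .nil)) .leaf) (nat_lit 2423458255318402) (.br (nat_lit 0) (.cons (.br (nat_lit 1) (.cons (.rel (nat_lit 25691136)) .nil)) .nil)) (.node .leaf (nat_lit 2423458276057840) (.br (nat_lit 0) (.cons (.br (nat_lit 1) (.cons (.rel (nat_lit 26218512)) .nil)) .nil)) .leaf)))

/-- refutations 15 -/
def e15 : EX := (.node .leaf (nat_lit 2405866293205744) (.br (nat_lit 0) (.cons (.br (nat_lit 1) (.cons (.rel (nat_lit 20980260)) .nil)) .nil)) .leaf)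

/-- refutations 16 -/
def e16 : EX := (.node (.node (.node (.node .leaf (nat_lit 2763348777427224) (.br (nat_lit 0) (.cons (.br (nat_lit 6) (.cons (.rel (nat_lit 17184326673)) .nil)) .nil)) .leaf) (nat_lit 2763348777428471) (.br (nat_lit 1) (.cons (.br (nat_lit 2) (.cons (.rel (nat_lit 168034560)) .nil)) .nil)) (.node .leaf (nat_lit 2769976314936847) (.br (nat_lit 1) (.cons (.br (nat_lit 3) (.cons (.rel (nat_lit 285216789)) .nil)) .nil)) .leaf)) (nat_lit 2772974201791124) (.br (nat_lit 1) (.cons (.br (nat_lit 2) (.cons (.rel (nat_lit 168034560)) .nil)) .nil)) (.node (.node .leaf (nat_lit 2773799302166808) (.br (nat_lit 1) (.cons (.br (nat_lit 4) (.cons (.rel (nat_lit 1090519362)) .nil)) .nil)) .leaf) (nat_lit 2774270908867236) (.br (nat_lit 0) (.cons (.br (nat_lit 2) (.cons (.rel (nat_lit 71305728)) .nil)) .nil)) .leaf)) (nat_lit 2774858786415848) (.br (nat_lit 0) (.cons (.br (nat_lit 4) (.cons (.rel (nat_lit 1077952536)) .nil)) .nil)) (.node (.node (.node .leaf (nat_lit 2774858788051744) (.br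 (nat_lit 2) (.cons (.br (nat_lit 1) (.cons (.rel (nat_lit 84934665)) (.cons (.rel (nat_lit 100681728)) .nil))) .nil)) .leaf) (nat_lit 2774858888610592) (.br (nat_lit 0) (.cons (.br (nat_lit 1) (.cons (.rel (nat_lit 21004800)) (.cons (.rel (nat_lit 20988933)) .nil))) (.cons (.br (nat_lit 2) (.cons (.rel (nat_lit 71305728)) (.cons (.rel (nat_lit 71307528)) .nil))) .nil))) (.node .leaf (nat_lit 2774862038532896) (.br (nat_lit 1) (.cons (.br (nat_lit 2) (.cons (.rel (nat_lit 151015425)) .nil)) .nil)) .leaf)) (nat_lit 2775296745677462) (.br (nat_lit 1) (.cons (.br (nat_lit 2) (.cons (.rel (nat_lit 83895360)) .nil)) .nil)) (.node (.node .leaf (nat_lit 2775296874448104) (.br (nat_lit 0) (.cons (.br (nat_lit 1) (.cons (.rel (nat_lit 20972832)) .nil)) .nil)) .leaf) (nat_lit 2775301700772592) (.br (nat_lit 1) (.cons (.br (nat_lit 5) (.cons (.br (nat_lit 2) (.cons (.rel (nat_lit 4362080784)) (.cons (.rel (nat_lit 84935700)) .nil))) .nil)) .nil)) .leaf)))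

/-- refutations 17 -/
def e17 : EX := (.node (.node (.node (.node (.node .leaf (nat_lit 2832447807692811) (.br (nat_lit 0) (.cons (.br (nat_lit 5) (.cons (.rel (nat_lit 4299554832)) .nil)) .nil)) .leaf) (nat_lit 2833482221396279) (.br (nat_lit 1) (.cons (.br (nat_lit 4) (.cons (.rel (nat_lit 1090585665)) .nil)) .nil)) .leaf) (nat_lit 2833482222469431) (.br (nat_lit 1) (.cons (.br (nat_lit 3) (.cons (.rel (nat_lit 285344256)) .nil)) .nil)) (.node .leaf (nat_lit 2833650397306891) (.br (nat_lit 1) (.cons (.br (nat_lit 4) (.cons (.rel (nat_lit 1090523232)) .nil)) .nil)) .leaf)) (nat_lit 2833650398535831) (.br (nat_lit 0) (.cons (.br (nat_lit 1) (.cons (.rel (nat_lit 20989968)) .nil)) .nil)) (.node (.node .leaf (nat_lit 2834985590753291) (.br (nat_lit 0) (.cons (.br (nat_lit 1) (.cons (.rel (nat_lit 20971797)) .nil)) .nil)) .leaf) (nat_lit 2835019819688696) (.br (nat_lit 0) (.cons (.br (nat_lit 1) (.cons (.rel (nat_lit 20975622)) .nil)) .nil)) (.node .leaf (nat_lit 2838245994458514) (.br (nat_lit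 1) (.cons (.br (nat_lit 2) (.cons (.rel (nat_lit 83895360)) .nil)) .nil)) .leaf))) (nat_lit 2838249765137810) (.br (nat_lit 0) (.cons (.br (nat_lit 1) (.cons (.rel (nat_lit 20971797)) .nil)) .nil)) (.node (.node (.node .leaf (nat_lit 2838249765899746) (.br (nat_lit 1) (.cons (.br (nat_lit 4) (.cons (.rel (nat_lit 1107297288)) .nil)) .nil)) .leaf) (nat_lit 2838249766215991) (.br (nat_lit 0) (.cons (.br (nat_lit 1) (.cons (.rel (nat_lit 38012928)) .nil)) .nil)) (.node .leaf (nat_lit 2838249766217106) (.br (nat_lit 1) (.cons (.br (nat_lit 6) (.cons (.rel (nat_lit 34393292820)) .nil)) .nil)) .leaf)) (nat_lit 2838249767491895) (.br (nat_lit 0) (.cons (.br (nat_lit 1) (.cons (.rel (nat_lit 21038100)) .nil)) .nil)) (.node (.node .leaf (nat_lit 2839276758459244) (.br (nat_lit 4) (.cons (.br (nat_lit 5) (.cons (.rel (nat_lit 6442467456)) .nil)) .nil)) .leaf) (nat_lit 2845288164844206) (.br (nat_lit 1) (.cons (.br (nat_lit 4) (.cons (.rel (nat_lit 1091569152)) .nil)) .nil)) (.node .leaf (nat_lit 2845288166073071)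 (.br (nat_lit 0) (.cons (.br (nat_lit 1) (.cons (.rel (nat_lit 20988933)) .nil)) .nil)) .leaf))))

/-- refutations 18 -/
def e18 : EX := (.node .leaf (nat_lit 3086664822465892) (.br (nat_lit 0) (.cons (.br (nat_lit 1) (.cons (.rel (nat_lit 20989968)) .nil)) .nil)) .leaf)

/-- refutations 19 -/
def e19 : EX := (.node (.node .leaf (nat_lit 3104271468579441) (.br (nat_lit 1) (.cons (.br (nat_lit 2) (.cons (.rel (nat_lit 100681728)) .nil)) .nil)) .leaf) (nat_lit 3109553734982384) (.br (nat_lit 2) (.cons (.br (nat_lit 4) (.cons (.rel (nat_lit 1140856128)) .nil)) .nil)) .leaf)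

/-- refutations 20 -/
def e20 : EX := (.node (.node (.node (.node (.node .leaf (nat_lit 3184400997607686) (.br (nat_lit 1) (.cons (.br (nat_lit 2) (.cons (.rel (nat_lit 84410880)) .nil)) .nil)) .leaf) (nat_lit 3184400998305151) (.br (nat_lit 1) (.cons (.br (nat_lit 5) (.cons (.rel (nat_lit 4330619904)) .nil)) .nil)) .leaf) (nat_lit 3184401601568793) (.br (nat_lit 1) (.cons (.br (nat_lit 5) (.cons (.rel (nat_lit 4311750912)) .nil)) .nil)) (.node .leaf (nat_lit 3184403151640836) (.br (nat_lit 0) (.cons (.br (nat_lit 3) (.cons (.rel (nat_lit 272646273)) .nil)) .nil)) .leaf)) (nat_lit 3184404348543001) (.br (nat_lit 1) (.cons (.br (nat_lit 4) (.cons (.br (nat_lit 5) (.cons (.rel (nat_lit 4311746052)) (.cons (.br (nat_lit 6) (.cons (.rel (nat_lit 38654706177)) (.cons (.rel (nat_lit 25769804034)) (.cons (.rel (nat_lit 26843808768)) .nil)))) .nil))) (.cons (.rel (nat_lit 1107297288)) .nil))) .nil)) (.node (.node (.node .leaf (nat_lit 3184404350179353) (.br (nat_lit 4) (.cons (.br (nat_lit 1) (.cons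 (.br (nat_lit 5) (.cons (.rel (nat_lit 4311810321)) (.cons (.rel (nat_lit 9664725000)) (.cons (.rel (nat_lit 4311746052)) .nil)))) (.cons (.br (nat_lit 5) (.cons (.rel (nat_lit 4330619904)) (.cons (.rel (nat_lit 9664725000)) (.cons (.rel (nat_lit 6460276992)) .nil)))) .nil))) .nil)) .leaf) (nat_lit 3184701731744681) (.br (nat_lit 0) (.cons (.br (nat_lit 1) (.cons (.rel (nat_lit 25165896)) .nil)) .nil)) .leaf) (nat_lit 3184701731815599) (.br (nat_lit 0) (.cons (.br (nat_lit 1) (.cons (.rel (nat_lit 20975622)) .nil)) .nil)) (.node .leaf (nat_lit 3185270733375649) (.br (nat_lit 0) (.cons (.br (nat_lit 1) (.cons (.rel (nat_lit 25165896)) .nil)) .nil)) .leaf))) (nat_lit 3185320808161917) (.br (nat_lit 0) (.cons (.br (nat_lit 1) (.cons (.rel (nat_lit 21004800)) .nil)) .nil)) (.node (.node (.node (.node .leaf (nat_lit 3185320809298100) (.br (nat_lit 4) (.cons (.br (nat_lit 0) (.cons (.rel (nat_lit 1077941250)) (.cons (.rel (nat_lit 1077937425)) .nil))) .nil)) .leaf) (nat_lit 3185320811086475) (.br (nat_lit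 0) (.cons (.br (nat_lit 6) (.cons (.rel (nat_lit 17184326673)) .nil)) .nil)) .leaf) (nat_lit 3185322272340744) (.br (nat_lit 0) (.cons (.br (nat_lit 5) (.cons (.rel (nat_lit 4299429120)) .nil)) .nil)) (.node .leaf (nat_lit 3185475265043962) (.br (nat_lit 1) (.cons (.br (nat_lit 4) (.cons (.rel (nat_lit 1091575812)) .nil)) .nil)) .leaf)) (nat_lit 3185793170411531) (.br (nat_lit 1) (.cons (.br (nat_lit 4) (.cons (.rel (nat_lit 1090585665)) .nil)) .nil)) (.node (.node .leaf (nat_lit 3185793171753262) (.br (nat_lit 1) (.cons (.br (nat_lit 2) (.cons (.rel (nat_lit 84934665)) .nil)) .nil)) .leaf) (nat_lit 3186814298908001) (.br (nat_lit 1) (.cons (.br (nat_lit 4) (.cons (.rel (nat_lit 1090535508)) (.cons (.rel (nat_lit 1107297288)) .nil))) .nil)) (.node .leaf (nat_lit 3189558311895971) (.br (nat_lit 1) (.cons (.br (nat_lit 2) (.cons (.rel (nat_lit 83890500)) (.cons (.rel (nat_lit 83918913)) .nil))) .nil)) .leaf))))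

/-- refutations 21 -/
def e21 : EX := (.node (.node (.node (.node (.node .leaf (nat_lit 3189618214693171) (.br (nat_lit 1) (.cons (.br (nat_lit 6) (.cons (.rel (nat_lit 17196646440)) .nil)) .nil)) .leaf) (nat_lit 3189618214970119) (.br (nat_lit 1) (.cons (.br (nat_lit 4) (.cons (.rel (nat_lit 1090519362)) .nil)) .nil)) .leaf) (nat_lit 3189618214970281) (.br (nat_lit 2) (.cons (.br (nat_lit 4) (.cons (.br (nat_lit 5) (.cons (.rel (nat_lit 6442713345)) .nil)) .nil)) .nil)) (.node (.node .leaf (nat_lit 3189621039151734) (.br (nat_lit 0) (.cons (.br (nat_lit 1) (.cons (.rel (nat_lit 20975622)) .nil)) .nil)) .leaf) (nat_lit 3190645879792416) (.br (nat_lit 0) (.cons (.br (nat_lit 1) (.cons (.rel (nat_lit 26230788)) .nil)) .nil)) .leaf)) (nat_lit 3190645882149664) (.br (nat_lit 0) (.cons (.br (nat_lit 1) (.cons (.rel (nat_lit 26230788)) .nil)) .nil)) (.node (.node (.node .leaf (nat_lit 3190648032430867) (.br (nat_lit 2) (.cons (.br (nat_lit 6) (.cons (.rel (nat_lit 17246978337)) .nil)) .nil)) .leaf)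 (nat_lit 3190648033056820) (.br (nat_lit 0) (.cons (.br (nat_lit 1) (.cons (.rel (nat_lit 20971797)) .nil)) .nil)) .leaf) (nat_lit 3190649230726530) (.br (nat_lit 0) (.cons (.br (nat_lit 4) (.cons (.rel (nat_lit 1077977088)) .nil)) .nil)) (.node (.node .leaf (nat_lit 3190649232001704) (.br (nat_lit 1) (.cons (.br (nat_lit 5) (.cons (.rel (nat_lit 4330619904)) .nil)) .nil)) .leaf) (nat_lit 3190649232628643) (.br (nat_lit 1) (.cons (.br (nat_lit 4) (.cons (.rel (nat_lit 1090535508)) (.cons (.rel (nat_lit 1090535508)) .nil))) (.cons (.br (nat_lit 4) (.cons (.rel (nat_lit 2164262916)) (.cons (.br (nat_lit 3) (.cons (.rel (nat_lit 1342242825)) (.cons (.rel (nat_lit 1342178592)) (.cons (.rel (nat_lit 1342177557)) (.cons (.rel (nat_lit 2416181256)) (.cons (.rel (nat_lit 285278232)) .nil)))))) .nil))) .nil))) .leaf))) (nat_lit 3190650694805007) (.br (nat_lit 4) (.cons (.br (nat_lit 2) (.cons (.br (nat_lit 5) (.cons (.rel (nat_lit 5368711680)) (.cons (.rel (nat_lit 4362078228)) (.cons (.rel (nat_lit 5368774914))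 .nil)))) (.cons (.rel (nat_lit 1141901328)) (.cons (.rel (nat_lit 2214658056)) .nil)))) .nil)) (.node (.node (.node (.node .leaf (nat_lit 3190650696441359) (.br (nat_lit 3) (.cons (.br (nat_lit 5) (.cons (.rel (nat_lit 4563669252)) (.cons (.rel (nat_lit 4563669252)) (.cons (.rel (nat_lit 4563667464)) (.cons (.rel (nat_lit 4563669252)) (.cons (.rel (nat_lit 4831904772)) .nil)))))) (.cons (.br (nat_lit 6) (.cons (.br (nat_lit 5) (.cons (.rel (nat_lit 4831839504)) (.cons (.rel (nat_lit 9126805824)) (.cons (.rel (nat_lit 38654772480)) (.cons (.rel (nat_lit 4831856640)) (.cons (.rel (nat_lit 9126805824)) .nil)))))) (.cons (.rel (nat_lit 17716745472)) (.cons (.rel (nat_lit 17716740612)) .nil)))) (.cons (.br (nat_lit 5) (.cons (.rel (nat_lit 4565565441)) (.cons (.rel (nat_lit 4831838469)) (.cons (.rel (nat_lit 4831844376)) (.cons (.rel (nat_lit 9126805824)) (.cons (.rel (nat_lit 8858403840)) .nil)))))) .nil)))) .leaf) (nat_lit 3190650697426302) (.br (nat_lit 5) (.cons (.br (nat_lit 6) (.cons (.rel (nat_lit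 21475100928)) .nil)) .nil)) .leaf) (nat_lit 3190725341842160) (.br (nat_lit 0) (.cons (.br (nat_lit 1) (.cons (.rel (nat_lit 38012928)) .nil)) .nil)) (.node (.node .leaf (nat_lit 3190725343453345) (.br (nat_lit 1) (.cons (.br (nat_lit 2) (.cons (.rel (nat_lit 167773572)) .nil)) .nil)) .leaf) (nat_lit 3191070030370816) (.br (nat_lit 2) (.cons (.br (nat_lit 3) (.cons (.rel (nat_lit 603996228)) .nil)) .nil)) .leaf)) (nat_lit 3191120480168111) (.br (nat_lit 1) (.cons (.br (nat_lit 2) (.cons (.rel (nat_lit 84410880)) .nil)) .nil)) (.node (.node (.node .leaf (nat_lit 3191121533143916) (.br (nat_lit 4) (.cons (.br (nat_lit 6) (.cons (.rel (nat_lit 18253612068)) .nil)) .nil)) .leaf) (nat_lit 3195409519938842) (.br (nat_lit 0) (.cons (.br (nat_lit 1) (.cons (.rel (nat_lit 21037065)) .nil)) .nil)) .leaf) (nat_lit 3196011968483359) (.br (nat_lit 0) (.cons (.br (nat_lit 1) (.cons (.rel (nat_lit 20988933)) .nil)) .nil)) (.node .leaf (nat_lit 3196011970022906) (.br (nat_lit 0) (.cons (.br (nat_lit 4) (.cons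 (.rel (nat_lit 2155892736)) .nil)) .nil)) .leaf))))

/-- refutations 22 -/
def e22 : EX := (.node (.node (.node (.node (.node (.node .leaf (nat_lit 3196100489285016) (.br (nat_lit 0) (.cons (.br (nat_lit 1) (.cons (.rel (nat_lit 21038100)) .nil)) .nil)) .leaf) (nat_lit 3196105690220846) (.br (nat_lit 0) (.cons (.br (nat_lit 1) (.cons (.rel (nat_lit 20971797)) .nil)) .nil)) .leaf) (nat_lit 3196105690515611) (.br (nat_lit 0) (.cons (.br (nat_lit 1) (.cons (.rel (nat_lit 42012672)) (.cons (.rel (nat_lit 41959680)) .nil))) .nil)) (.node .leaf (nat_lit 3196106439660206) (.br (nat_lit 0) (.cons (.br (nat_lit 1) (.cons (.rel (nat_lit 37748868)) .nil)) .nil)) .leaf)) (nat_lit 3196106439660295) (.br (nat_lit 0) (.cons (.br (nat_lit 1) (.cons (.rel (nat_lit 21038100)) .nil)) .nil)) (.node (.node (.node .leaf (nat_lit 3196106442547231) (.br (nat_lit 0) (.cons (.br (nat_lit 1) (.cons (.rel (nat_lit 20971797)) .nil)) .nil)) .leaf) (nat_lit 3196255795929718) (.br (nat_lit 1) (.cons (.br (nat_lit 4) (.cons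 (.rel (nat_lit 2164393221)) .nil)) .nil)) .leaf) (nat_lit 3196255795929864) (.br (nat_lit 1) (.cons (.br (nat_lit 4) (.cons (.rel (nat_lit 1107304704)) .nil)) .nil)) (.node .leaf (nat_lit 3196435025651041) (.br (nat_lit 0) (.cons (.br (nat_lit 1) (.cons (.rel (nat_lit 21110784)) .nil)) .nil)) .leaf))) (nat_lit 3196484269878674) (.br (nat_lit 1) (.cons (.br (nat_lit 3) (.cons (.rel (nat_lit 302514240)) .nil)) .nil)) (.node (.node (.node (.node .leaf (nat_lit 3197305232366320) (.br (nat_lit 0) (.cons (.br (nat_lit 1) (.cons (.rel (nat_lit 20972832)) .nil)) .nil)) .leaf) (nat_lit 3197509237482224) (.br (nat_lit 1) (.cons (.br (nat_lit 2) (.cons (.rel (nat_lit 84934665)) (.cons (.br (nat_lit 5) (.cons (.rel (nat_lit 8724152337)) (.cons (.rel (nat_lit 4311752712)) (.cons (.rel (nat_lit 4311746052)) .nil)))) .nil))) .nil)) .leaf) (nat_lit 3197509238557323) (.br (nat_lit 1) (.cons (.br (nat_lit 2) (.cons (.rel (nat_lit 83890500)) .nil)) .nil)) (.node .leaf (nat_lit 3197509239118576) (.br (nat_lit 1)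 (.cons (.br (nat_lit 4) (.cons (.rel (nat_lit 1091569152)) (.cons (.br (nat_lit 5) (.cons (.rel (nat_lit 5368711680)) (.cons (.rel (nat_lit 4311746052)) .nil))) .nil))) (.cons (.br (nat_lit 4) (.cons (.rel (nat_lit 1090535508)) (.cons (.rel (nat_lit 1091575812)) .nil))) .nil))) .leaf)) (nat_lit 3197509927969543) (.br (nat_lit 5) (.cons (.br (nat_lit 6) (.cons (.rel (nat_lit 38654726148)) .nil)) .nil)) (.node (.node (.node .leaf (nat_lit 3197512588464283) (.br (nat_lit 0) (.cons (.br (nat_lit 1) (.cons (.rel (nat_lit 21037065)) .nil)) .nil)) .leaf) (nat_lit 3197512588779521) (.br (nat_lit 0) (.cons (.br (nat_lit 1) (.cons (.rel (nat_lit 42012672)) (.cons (.rel (nat_lit 21037065)) .nil))) (.cons (.br (nat_lit 1) (.cons (.rel (nat_lit 20971797)) (.cons (.rel (nat_lit 20971797)) .nil))) .nil))) .leaf) (nat_lit 3197512588780776) (.br (nat_lit 1) (.cons (.br (nat_lit 2) (.cons (.rel (nat_lit 151028736)) .nil)) .nil)) (.node .leaf (nat_lit 3197512589806219) (.br (nat_lit 0) (.cons (.br (nat_lit 1) (.cons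 (.rel (nat_lit 41959680)) .nil)) .nil)) .leaf)))) (nat_lit 3197512591075379) (.br (nat_lit 1) (.cons (.br (nat_lit 2) (.cons (.rel (nat_lit 100729860)) .nil)) .nil)) (.node (.node (.node (.node (.node .leaf (nat_lit 3197514052276356) (.br (nat_lit 1) (.cons (.br (nat_lit 4) (.cons (.rel (nat_lit 1107297288)) .nil)) .nil)) .leaf) (nat_lit 3197514052276526) (.br (nat_lit 5) (.cons (.br (nat_lit 6) (.cons (.rel (nat_lit 21475100928)) .nil)) .nil)) .leaf) (nat_lit 3197514052276910) (.br (nat_lit 2) (.cons (.br (nat_lit 6) (.cons (.rel (nat_lit 17247043605)) .nil)) .nil)) (.node .leaf (nat_lit 3197514052543989) (.br (nat_lit 0) (.cons (.br (nat_lit 5) (.cons (.rel (nat_lit 8598327360)) .nil)) .nil)) .leaf)) (nat_lit 3197514052591617) (.br (nat_lit 1) (.cons (.br (nat_lit 2) (.cons (.rel (nat_lit 84934665)) (.cons (.rel (nat_lit 168034560)) .nil))) .nil)) (.node (.node (.node .leaf (nat_lit 3197514052855940) (.br (nat_lit 2) (.cons (.br (nat_lit 4) (.cons (.rel (nat_lit 1208090628)) .nil)) .nil)) .leaf)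 (nat_lit 3197514052857214) (.br (nat_lit 2) (.cons (.br (nat_lit 5) (.cons (.rel (nat_lit 4362080784)) .nil)) .nil)) .leaf) (nat_lit 3197514053680661) (.br (nat_lit 2) (.cons (.br (nat_lit 6) (.cons (.rel (nat_lit 17246982162)) (.cons (.rel (nat_lit 17246984196)) .nil))) .nil)) (.node .leaf (nat_lit 3197514054125700) (.br (nat_lit 4) (.cons (.br (nat_lit 0) (.cons (.rel (nat_lit 1078003728)) (.cons (.rel (nat_lit 1077940260)) .nil))) .nil)) .leaf))) (nat_lit 3197514054179721) (.br (nat_lit 2) (.cons (.br (nat_lit 4) (.cons (.rel (nat_lit 2214592788)) .nil)) .nil)) (.node (.node (.node (.node .leaf (nat_lit 3197514054180341) (.br (nat_lit 0) (.cons (.br (nat_lit 5) (.cons (.rel (nat_lit 4303361040)) .nil)) .nil)) .leaf) (nat_lit 3197514054888981) (.br (nat_lit 5) (.cons (.br (nat_lit 2) (.cons (.rel (nat_lit 4362076194)) (.cons (.rel (nat_lit 4362076194)) .nil))) .nil)) .leaf) (nat_lit 3197514055092224) (.br (nat_lit 1) (.cons (.br (nat_lit 2) (.cons (.rel (nat_lit 83890500)) .nil)) .nil)) (.node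 .leaf (nat_lit 3197514055164206) (.br (nat_lit 2) (.cons (.br (nat_lit 5) (.cons (.rel (nat_lit 4362174465)) (.cons (.rel (nat_lit 4362078228)) (.cons (.rel (nat_lit 8724152337)) .nil)))) .nil)) .leaf)) (nat_lit 3197514055165159) (.br (nat_lit 5) (.cons (.br (nat_lit 6) (.cons (.rel (nat_lit 21474841728)) .nil)) .nil)) (.node (.node .leaf (nat_lit 3197514055396634) (.br (nat_lit 6) (.cons (.br (nat_lit 5) (.cons (.rel (nat_lit 25769804034)) (.cons (.rel (nat_lit 21475164162)) .nil))) .nil)) .leaf) (nat_lit 3197514438726413) (.br (nat_lit 0) (.cons (.br (nat_lit 1) (.cons (.rel (nat_lit 20975622)) .nil)) .nil)) (.node .leaf (nat_lit 3197514440764678) (.br (nat_lit 4) (.cons (.br (nat_lit 5) (.cons (.rel (nat_lit 9663709248)) .nil)) .nil)) .leaf)))))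

/-- refutations 23 -/
def e23 : EX := (.node (.node .leaf (nat_lit 3119188900847616) (.br (nat_lit 0) (.cons (.br (nat_lit 1) (.cons (.rel (nat_lit 21004800)) .nil)) .nil)) .leaf) (nat_lit 3120282905355177) (.br (nat_lit 0) (.cons (.br (nat_lit 2) (.cons (.rel (nat_lit 71335941)) .nil)) .nil)) .leaf)

/-- refutations 24 -/
def e24 : EX := (.node (.node (.node .leaf (nat_lit 3255895125203720) (.br (nat_lit 1) (.cons (.br (nat_lit 0) (.cons (.rel (nat_lit 20988933)) (.cons (.rel (nat_lit 20972832)) .nil))) .nil)) .leaf) (nat_lit 3255897075555080) (.br (nat_lit 1) (.cons (.br (nat_lit 2) (.cons (.rel (nat_lit 151028736)) (.cons (.rel (nat_lit 168034560)) .nil))) .nil)) .leaf) (nat_lit 3255897076538120) (.br (nat_lit 5) (.cons (.br (nat_lit 1) (.cons (.rel (nat_lit 4311752712)) (.cons (.rel (nat_lit 4311752712)) .nil))) .nil)) (.node (.node .leaf (nat_lit 3260024143274620) (.br (nat_lit 1) (.cons (.br (nat_lit 4) (.cons (.rel (nat_lit 1090585665)) .nil)) .nil)) .leaf) (nat_lit 3260024145846582)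 (.br (nat_lit 1) (.cons (.br (nat_lit 3) (.cons (.rel (nat_lit 285217824)) .nil)) .nil)) .leaf))

/-- refutations 25 -/
def e25 : EX := (.node (.node (.node (.node .leaf (nat_lit 3272254957019766) (.br (nat_lit 2) (.cons (.br (nat_lit 3) (.cons (.rel (nat_lit 335675397)) .nil)) .nil)) .leaf) (nat_lit 3273274614882616) (.br (nat_lit 1) (.cons (.br (nat_lit 2) (.cons (.rel (nat_lit 168034560)) .nil)) .nil)) .leaf) (nat_lit 3273278414917943) (.br (nat_lit 0) (.cons (.br (nat_lit 1) (.cons (.rel (nat_lit 21110784)) .nil)) .nil)) (.node (.node .leaf (nat_lit 3273283204814057) (.br (nat_lit 0) (.cons (.br (nat_lit 1) (.cons (.rel (nat_lit 20988933)) .nil)) .nil)) .leaf) (nat_lit 3273283880404501) (.br (nat_lit 0) (.cons (.br (nat_lit 3) (.cons (.br (nat_lit 4) (.cons (.br (nat_lit 5) (.cons (.rel (nat_lit 5637144912)) .nil)) .nil)) .nil)) .nil)) .leaf)) (nat_lit 3273287000662328) (.br (nat_lit 0) (.cons (.br (nat_lit 4) (.cons (.rel (nat_lit 1083179280)) .nil)) .nil)) (.node (.node (.node .leaf (nat_lit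 3277624922129009) (.br (nat_lit 2) (.cons (.br (nat_lit 3) (.cons (.rel (nat_lit 335564832)) .nil)) .nil)) .leaf) (nat_lit 3278698118366740) (.br (nat_lit 0) (.cons (.br (nat_lit 1) (.cons (.rel (nat_lit 41959680)) .nil)) .nil)) .leaf) (nat_lit 3284054981240166) (.br (nat_lit 0) (.cons (.br (nat_lit 1) (.cons (.rel (nat_lit 20976657)) .nil)) .nil)) (.node (.node .leaf (nat_lit 3285472997286049) (.br (nat_lit 1) (.cons (.br (nat_lit 3) (.cons (.rel (nat_lit 285278232)) .nil)) .nil)) .leaf) (nat_lit 3285476012006128) (.br (nat_lit 1) (.cons (.br (nat_lit 3) (.cons (.rel (nat_lit 285278232)) .nil)) .nil)) .leaf)))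

/-- refutations 26 -/
def e26 : EX := (.node (.node (.node (.node (.node (.node .leaf (nat_lit 4521295440782249) (.br (nat_lit 4) (.cons (.br (nat_lit 5) (.cons (.rel (nat_lit 10737419520)) .nil)) .nil)) .leaf) (nat_lit 4521296158303145) (.br (nat_lit 0) (.cons (.br (nat_lit 1) (.cons (.rel (nat_lit 20976657)) .nil)) .nil)) .leaf) (nat_lit 4521297667957673) (.br (nat_lit 5) (.cons (.br (nat_lit 6) (.cons (.rel (nat_lit 25769870337)) .nil)) .nil)) (.node .leaf (nat_lit 4521300398449577) (.br (nat_lit 1) (.cons (.br (nat_lit 4) (.cons (.rel (nat_lit 1107297288)) .nil)) .nil)) .leaf)) (nat_lit 4521409854589614) (.br (nat_lit 1) (.cons (.br (nat_lit 2) (.cons (.rel (nat_lit 83890500)) .nil)) .nil)) (.node (.node .leaf (nat_lit 4521409857201414) (.br (nat_lit 3) (.cons (.br (nat_lit 4) (.cons (.br (nat_lit 1) (.cons (.rel (nat_lit 285217824)) (.cons (.rel (nat_lit 2164260882)) (.cons (.rel (nat_lit 2164260882)) .nil)))) .nil)) .nil)) .leaf) (nat_lit 4521675605413895) (.br (nat_lit 1) (.cons (.br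 (nat_lit 4) (.cons (.rel (nat_lit 1107297288)) .nil)) .nil)) (.node .leaf (nat_lit 4521675608301568) (.br (nat_lit 2) (.cons (.br (nat_lit 4) (.cons (.rel (nat_lit 1208090628)) .nil)) .nil)) .leaf))) (nat_lit 4521713551282183) (.br (nat_lit 0) (.cons (.br (nat_lit 2) (.cons (.rel (nat_lit 71305728)) .nil)) .nil)) (.node (.node (.node (.node .leaf (nat_lit 4522526548698489) (.br (nat_lit 4) (.cons (.br (nat_lit 6) (.cons (.rel (nat_lit 18253684752)) .nil)) .nil)) .leaf) (nat_lit 4523597736189952) (.br (nat_lit 6) (.cons (.br (nat_lit 5) (.cons (.rel (nat_lit 38654713872)) (.cons (.rel (nat_lit 38654772480)) .nil))) .nil)) .leaf) (nat_lit 4523599724593152) (.br (nat_lit 0) (.cons (.br (nat_lit 4) (.cons (.rel (nat_lit 1077937425)) .nil)) .nil)) (.node .leaf (nat_lit 4523603340012946) (.br (nat_lit 0) (.cons (.br (nat_lit 2) (.cons (.rel (nat_lit 71305728)) .nil)) .nil)) .leaf)) (nat_lit 4526581404648725) (.br (nat_lit 2) (.cons (.br (nat_lit 4) (.cons (.rel (nat_lit 1140851268)) .nil)) .nil)) (.node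 (.node .leaf (nat_lit 4526669946430377) (.br (nat_lit 6) (.cons (.br (nat_lit 5) (.cons (.rel (nat_lit 38654706177)) (.cons (.rel (nat_lit 38654713872)) .nil))) .nil)) .leaf) (nat_lit 4527654171879424) (.br (nat_lit 0) (.cons (.br (nat_lit 5) (.cons (.rel (nat_lit 4299169920)) .nil)) .nil)) (.node .leaf (nat_lit 4527654173417472) (.br (nat_lit 2) (.cons (.br (nat_lit 5) (.cons (.rel (nat_lit 4362150912)) (.cons (.br (nat_lit 6) (.cons (.rel (nat_lit 17247044640)) (.cons (.rel (nat_lit 21474836868)) .nil))) .nil))) (.cons (.br (nat_lit 5) (.cons (.rel (nat_lit 8724152337)) (.cons (.rel (nat_lit 4362076194)) .nil))) .nil))) .leaf)))) (nat_lit 4527657786020777) (.br (nat_lit 2) (.cons (.br (nat_lit 4) (.cons (.rel (nat_lit 1140981840)) .nil)) .nil)) (.node (.node (.node (.node (.node .leaf (nat_lit 4527657786296582) (.br (nat_lit 1) (.cons (.br (nat_lit 3) (.cons (.rel (nat_lit 285230100)) .nil)) .nil)) .leaf) (nat_lit 4527657788908457) (.br (nat_lit 5) (.cons (.br (nat_lit 6) (.cons (.rel (nat_lit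 42949738848)) (.cons (.rel (nat_lit 25769807904)) .nil))) .nil)) .leaf) (nat_lit 4527688561531512) (.br (nat_lit 0) (.cons (.br (nat_lit 1) (.cons (.rel (nat_lit 20976657)) .nil)) .nil)) (.node .leaf (nat_lit 4527892109832343) (.br (nat_lit 1) (.cons (.br (nat_lit 2) (.cons (.rel (nat_lit 100991040)) .nil)) .nil)) .leaf)) (nat_lit 4527892110490537) (.br (nat_lit 5) (.cons (.br (nat_lit 6) (.cons (.rel (nat_lit 38654772480)) .nil)) .nil)) (.node (.node .leaf (nat_lit 4527892110490855) (.br (nat_lit 1) (.cons (.br (nat_lit 4) (.cons (.rel (nat_lit 1107297288)) .nil)) .nil)) .leaf) (nat_lit 4527892112089244) (.br (nat_lit 2) (.cons (.br (nat_lit 4) (.cons (.rel (nat_lit 1140932673)) .nil)) .nil)) (.node .leaf (nat_lit 4527892510548119) (.br (nat_lit 2) (.cons (.br (nat_lit 5) (.cons (.rel (nat_lit 4362093060)) .nil)) .nil)) .leaf))) (nat_lit 4527892703486577) (.br (nat_lit 1) (.cons (.br (nat_lit 2) (.cons (.rel (nat_lit 151064592)) .nil)) .nil)) (.node (.node (.node .leaf (nat_lit 4527895257817239)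 (.br (nat_lit 5) (.cons (.br (nat_lit 3) (.cons (.rel (nat_lit 4563697665)) (.cons (.rel (nat_lit 9126805824)) .nil))) .nil)) .leaf) (nat_lit 4527895257818489) (.br (nat_lit 0) (.cons (.br (nat_lit 1) (.cons (.rel (nat_lit 26230788)) .nil)) .nil)) (.node .leaf (nat_lit 4527895870185654) (.br (nat_lit 4) (.cons (.br (nat_lit 5) (.cons (.rel (nat_lit 5368713480)) .nil)) .nil)) .leaf)) (nat_lit 4527897237528886) (.br (nat_lit 0) (.cons (.br (nat_lit 1) (.cons (.rel (nat_lit 20975622)) .nil)) .nil)) (.node (.node .leaf (nat_lit 4527897468215447) (.br (nat_lit 5) (.cons (.br (nat_lit 2) (.cons (.rel (nat_lit 4362093060)) (.cons (.br (nat_lit 1) (.cons (.br (nat_lit 4) (.cons (.rel (nat_lit 10737419520)) (.cons (.rel (nat_lit 10737419520)) (.cons (.rel (nat_lit 1107297288)) .nil)))) (.cons (.rel (nat_lit 4311765024)) (.cons (.rel (nat_lit 8606777688)) .nil)))) .nil))) .nil)) .leaf) (nat_lit 4527898361833752) (.br (nat_lit 0) (.cons (.br (nat_lit 1) (.cons (.rel (nat_lit 20971797)) .nil)) .nil)) (.node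 .leaf (nat_lit 4527898382346502) (.br (nat_lit 2) (.cons (.br (nat_lit 4) (.cons (.rel (nat_lit 1140932673)) .nil)) .nil)) .leaf)))))

/-- refutations 27 -/
def e27 : EX := (.node (.node (.node (.node (.node .leaf (nat_lit 4532155299446784) (.br (nat_lit 2) (.cons (.br (nat_lit 5) (.cons (.rel (nat_lit 4429709376)) .nil)) .nil)) .leaf) (nat_lit 4532158914634665) (.br (nat_lit 1) (.cons (.br (nat_lit 0) (.cons (.rel (nat_lit 25165896)) (.cons (.rel (nat_lit 20989968)) .nil))) .nil)) (.node .leaf (nat_lit 4532158914866407) (.br (nat_lit 1) (.cons (.br (nat_lit 4) (.cons (.rel (nat_lit 1107296289)) .nil)) .nil)) .leaf)) (nat_lit 4532368058155945) (.br (nat_lit 0) (.cons (.br (nat_lit 4) (.cons (.rel (nat_lit 1077952536)) .nil)) .nil)) (.node (.node .leaf (nat_lit 4532455944528052) (.br (nat_lit 5) (.cons (.br (nat_lit 6) (.cons (.rel (nat_lit 42950796288)) .nil)) .nil)) .leaf) (nat_lit 4532455945604602) (.br (nat_lit 1) (.cons (.br (nat_lit 2) (.cons (.rel (nat_lit 83918913)) .nil)) .nil)) .leaf))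 (nat_lit 4532455946854411) (.br (nat_lit 1) (.cons (.br (nat_lit 2) (.cons (.rel (nat_lit 84934665)) .nil)) .nil)) (.node (.node (.node .leaf (nat_lit 4532455946854582) (.br (nat_lit 0) (.cons (.br (nat_lit 4) (.cons (.rel (nat_lit 2155892736)) .nil)) .nil)) .leaf) (nat_lit 4532455946855337) (.br (nat_lit 4) (.cons (.br (nat_lit 5) (.cons (.rel (nat_lit 5368711680)) (.cons (.rel (nat_lit 5368741893)) .nil))) (.cons (.br (nat_lit 5) (.cons (.rel (nat_lit 9664725000)) (.cons (.rel (nat_lit 5368725792)) .nil))) .nil))) .leaf) (nat_lit 4532455993299576) (.br (nat_lit 1) (.cons (.br (nat_lit 3) (.cons (.rel (nat_lit 285216789)) .nil)) .nil)) (.node (.node .leaf (nat_lit 4534139571423494) (.br (nat_lit 1) (.cons (.br (nat_lit 4) (.cons (.rel (nat_lit 1107297288)) (.cons (.rel (nat_lit 1090523232)) .nil))) .nil)) .leaf) (nat_lit 4534314621827832) (.br (nat_lit 0) (.cons (.br (nat_lit 1) (.cons (.rel (nat_lit 21057792)) .nil)) .nil)) .leaf))) (nat_lit 4534380089947362) (.br (nat_lit 1) (.cons (.br (nat_lit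 2) (.cons (.rel (nat_lit 84935700)) .nil)) .nil)) (.node (.node (.node (.node .leaf (nat_lit 4534380090949812) (.br (nat_lit 1) (.cons (.br (nat_lit 2) (.cons (.rel (nat_lit 168034560)) .nil)) .nil)) .leaf) (nat_lit 4534514827453827) (.br (nat_lit 6) (.cons (.br (nat_lit 0) (.cons (.br (nat_lit 4) (.cons (.br (nat_lit 2) (.cons (.rel (nat_lit 142607616)) (.cons (.rel (nat_lit 17246984196)) (.cons (.rel (nat_lit 17246978337)) (.cons (.rel (nat_lit 1140981840)) .nil))))) (.cons (.rel (nat_lit 18253611033)) .nil))) (.cons (.rel (nat_lit 34363938816)) .nil))) .nil)) .leaf) (nat_lit 4534515058101634) (.br (nat_lit 5) (.cons (.br (nat_lit 1) (.cons (.rel (nat_lit 4328587392)) (.cons (.rel (nat_lit 8623493124)) .nil))) .nil)) (.node (.node .leaf (nat_lit 4534515060711559) (.br (nat_lit 3) (.cons (.br (nat_lit 5) (.cons (.br (nat_lit 6) (.cons (.rel (nat_lit 25769807904)) .nil)) .nil)) .nil)) .leaf) (nat_lit 4534515060943785) (.br (nat_lit 3) (.cons (.br (nat_lit 4) (.cons (.rel (nat_lit 1342178592))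 .nil)) .nil)) .leaf)) (nat_lit 4534515349093639) (.br (nat_lit 3) (.cons (.br (nat_lit 4) (.cons (.rel (nat_lit 1342177557)) .nil)) .nil)) (.node (.node (.node .leaf (nat_lit 4534515350119655) (.br (nat_lit 2) (.cons (.br (nat_lit 5) (.cons (.br (nat_lit 4) (.cons (.rel (nat_lit 9663709248)) (.cons (.br (nat_lit 0) (.cons (.rel (nat_lit 8594259972)) (.cons (.rel (nat_lit 1078003728)) (.cons (.rel (nat_lit 8594259972)) .nil)))) .nil))) .nil)) .nil)) .leaf) (nat_lit 4534515541803945) (.br (nat_lit 1) (.cons (.br (nat_lit 6) (.cons (.rel (nat_lit 34393292820)) .nil)) .nil)) .leaf) (nat_lit 4534515543057685) (.br (nat_lit 1) (.cons (.br (nat_lit 4) (.cons (.rel (nat_lit 1090519362)) .nil)) .nil)) (.node (.node .leaf (nat_lit 4534517950562956) (.br (nat_lit 1) (.cons (.br (nat_lit 2) (.cons (.rel (nat_lit 84934665)) .nil)) .nil)) .leaf) (nat_lit 4534520306800951) (.br (nat_lit 2) (.cons (.br (nat_lit 5) (.cons (.rel (nat_lit 4362093060)) (.cons (.rel (nat_lit 4429709376)) (.cons (.rel (nat_lit 4362093060))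 .nil)))) .nil)) .leaf))))

/-- refutations 28 -/
def e28 : EX := (.node (.node (.node (.node .leaf (nat_lit 4433758252704994) (.br (nat_lit 0) (.cons (.br (nat_lit 3) (.cons (.rel (nat_lit 272646273)) (.cons (.rel (nat_lit 272646273)) .nil))) .nil)) .leaf) (nat_lit 4434358893492536) (.br (nat_lit 0) (.cons (.br (nat_lit 3) (.cons (.rel (nat_lit 273187392)) .nil)) .nil)) .leaf) (nat_lit 4439693242210940) (.br (nat_lit 1) (.cons (.br (nat_lit 2) (.cons (.rel (nat_lit 85196880)) .nil)) .nil)) (.node (.node .leaf (nat_lit 4439696815758717) (.br (nat_lit 1) (.cons (.br (nat_lit 2) (.cons (.rel (nat_lit 83890500)) .nil)) .nil)) .leaf) (nat_lit 4444495015043082) (.br (nat_lit 0) (.cons (.br (nat_lit 2) (.cons (.rel (nat_lit 71307528)) .nil)) .nil)) .leaf)) (nat_lit 4446350442183432) (.br (nat_lit 0) (.cons (.br (nat_lit 2) (.cons (.rel (nat_lit 71573568)) .nil)) .nil)) (.node (.node (.node .leaf (nat_lit 4446350442504968) (.br (nat_lit 0) (.cons (.br (nat_lit 1) (.cons (.rel (nat_lit 20975622)) .nil))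 .nil)) .leaf) (nat_lit 4446553922712812) (.br (nat_lit 0) (.cons (.br (nat_lit 1) (.cons (.rel (nat_lit 41959680)) .nil)) .nil)) .leaf) (nat_lit 4446557572424310) (.br (nat_lit 1) (.cons (.br (nat_lit 3) (.cons (.rel (nat_lit 285278232)) .nil)) .nil)) (.node .leaf (nat_lit 4446559775037602) (.br (nat_lit 3) (.cons (.br (nat_lit 4) (.cons (.rel (nat_lit 1342243860)) .nil)) .nil)) .leaf)))

/-- refutations 29 -/
def e29 : EX := (.node (.node (.node (.node (.node .leaf (nat_lit 4593109373360388) (.br (nat_lit 2) (.cons (.br (nat_lit 3) (.cons (.rel (nat_lit 336593040)) .nil)) .nil)) .leaf) (nat_lit 4593113273563188) (.br (nat_lit 1) (.cons (.br (nat_lit 5) (.cons (.rel (nat_lit 4311750912)) .nil)) .nil)) .leaf) (nat_lit 4593113273563772) (.br (nat_lit 0) (.cons (.br (nat_lit 2) (.cons (.rel (nat_lit 71323665)) .nil)) .nil)) (.node .leaf (nat_lit 4597230591614184) (.br (nat_lit 0) (.cons (.br (nat_lit 4) (.cons (.rel (nat_lit 1077937425)) .nil)) .nil)) .leaf)) (nat_lit 4597232643660412) (.br (nat_lit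 0) (.cons (.br (nat_lit 2) (.cons (.rel (nat_lit 71305728)) .nil)) .nil)) (.node (.node .leaf (nat_lit 4598055626647031) (.br (nat_lit 0) (.cons (.br (nat_lit 1) (.cons (.rel (nat_lit 20994561)) .nil)) .nil)) .leaf) (nat_lit 4598529720849766) (.br (nat_lit 1) (.cons (.br (nat_lit 4) (.cons (.rel (nat_lit 1090585665)) .nil)) .nil)) (.node .leaf (nat_lit 4602736740670696) (.br (nat_lit 1) (.cons (.br (nat_lit 6) (.cons (.rel (nat_lit 17196663297)) .nil)) .nil)) .leaf))) (nat_lit 4604680114649864) (.br (nat_lit 4) (.cons (.br (nat_lit 5) (.cons (.rel (nat_lit 5368741893)) .nil)) .nil)) (.node (.node (.node (.node .leaf (nat_lit 4604683815295236) (.br (nat_lit 1) (.cons (.br (nat_lit 2) (.cons (.rel (nat_lit 83918913)) .nil)) .nil)) .leaf) (nat_lit 4604884223334711) (.br (nat_lit 1) (.cons (.br (nat_lit 2) (.cons (.rel (nat_lit 83890500)) .nil)) .nil)) .leaf) (nat_lit 4604884223335656) (.br (nat_lit 2) (.cons (.br (nat_lit 3) (.cons (.rel (nat_lit 335613954)) (.cons (.rel (nat_lit 335545860)) .nil)))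 .nil)) (.node .leaf (nat_lit 4604886173686536) (.br (nat_lit 0) (.cons (.br (nat_lit 2) (.cons (.rel (nat_lit 138706944)) .nil)) .nil)) .leaf)) (nat_lit 4604887472651171) (.br (nat_lit 1) (.cons (.br (nat_lit 4) (.cons (.rel (nat_lit 1107394560)) .nil)) .nil)) (.node (.node .leaf (nat_lit 4604887473317251) (.br (nat_lit 1) (.cons (.br (nat_lit 5) (.cons (.rel (nat_lit 4311876624)) .nil)) .nil)) .leaf) (nat_lit 4604890073119031) (.br (nat_lit 0) (.cons (.br (nat_lit 1) (.cons (.rel (nat_lit 42012672)) .nil)) .nil)) (.node .leaf (nat_lit 4604890074388791) (.br (nat_lit 1) (.cons (.br (nat_lit 3) (.cons (.rel (nat_lit 285344256)) (.cons (.rel (nat_lit 285229065)) .nil))) (.cons (.br (nat_lit 4) (.cons (.rel (nat_lit 1090519362)) (.cons (.rel (nat_lit 2164262916)) .nil))) .nil))) .leaf))))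

/-- refutations 30 -/
def e30 : EX := (.node (.node (.node .leaf (nat_lit 4609255929617761) (.br (nat_lit 0) (.cons (.br (nat_lit 4) (.cons (.rel (nat_lit 1077957129)) .nil)) .nil)) .leaf) (nat_lit 4617110725060759) (.br (nat_lit 0) (.cons (.br (nat_lit 3) (.cons (.rel (nat_lit 273682752)) .nil)) .nil)) .leaf) (nat_lit 4617110725373962) (.br (nat_lit 0) (.cons (.br (nat_lit 3) (.cons (.rel (nat_lit 272631174)) .nil)) .nil)) (.node .leaf (nat_lit 4617110725374103) (.br (nat_lit 0) (.cons (.br (nat_lit 2) (.cons (.rel (nat_lit 71305728)) .nil)) .nil)) .leaf))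

/-- refutations 32 -/
def e32 : EX := (.node (.node (.node (.node .leaf (nat_lit 4931710241824945) (.br (nat_lit 0) (.cons (.br (nat_lit 1) (.cons (.rel (nat_lit 41959680)) .nil)) .nil)) .leaf) (nat_lit 4932735838462082) (.br (nat_lit 0) (.cons (.br (nat_lit 1) (.cons (.rel (nat_lit 42012672)) .nil)) .nil)) .leaf) (nat_lit 4932736318532260) (.br (nat_lit 0) (.cons (.br (nat_lit 4) (.cons (.rel (nat_lit 2151941124)) .nil)) .nil)) (.node .leaf (nat_lit 4932738438654082) (.br (nat_lit 0) (.cons (.br (nat_lit 5) (.cons (.rel (nat_lit 4299554832)) .nil)) .nil)) .leaf)) (nat_lit 4932739508477952) (.br (nat_lit 0) (.cons (.br (nat_lit 2) (.cons (.rel (nat_lit 71319840)) .nil)) .nil)) (.node (.node (.node .leaf (nat_lit 4933434638795038) (.br (nat_lit 0) (.cons (.br (nat_lit 2) (.cons (.rel (nat_lit 71305728)) .nil)) .nil)) .leaf) (nat_lit 4933769646520450) (.br (nat_lit 0) (.cons (.br (nat_lit 1) (.cons (.rel (nat_lit 37748868)) .nil)) .nil)) .leaf) (nat_lit 4933772664733025) (.br (nat_lit 0) (.cons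 (.br (nat_lit 4) (.cons (.rel (nat_lit 1078003728)) .nil)) .nil)) (.node .leaf (nat_lit 4938762943273245) (.br (nat_lit 0) (.cons (.br (nat_lit 4) (.cons (.rel (nat_lit 1077977088)) .nil)) .nil)) .leaf)))

/-- refutations 33 -/
def e33 : EX := (.node (.node (.node (.node .leaf (nat_lit 4943919801023851) (.br (nat_lit 1) (.cons (.br (nat_lit 4) (.cons (.rel (nat_lit 1090523232)) .nil)) .nil)) .leaf) (nat_lit 4944785064648984) (.br (nat_lit 0) (.cons (.br (nat_lit 1) (.cons (.rel (nat_lit 20988933)) .nil)) .nil)) .leaf) (nat_lit 4948835745393416) (.br (nat_lit 0) (.cons (.br (nat_lit 1) (.cons (.rel (nat_lit 20972832)) .nil)) .nil)) (.node (.node .leaf (nat_lit 4950337031299352) (.br (nat_lit 3) (.cons (.br (nat_lit 4) (.cons (.rel (nat_lit 1342177557)) .nil)) .nil)) .leaf) (nat_lit 4950337031299879) (.br (nat_lit 3) (.cons (.br (nat_lit 4) (.cons (.rel (nat_lit 2684424192)) (.cons (.rel (nat_lit 1342177557)) .nil))) .nil)) .leaf)) (nat_lit 4950337031619211) (.br (nat_lit 0) (.cons (.br (nat_lit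 1) (.cons (.rel (nat_lit 20976657)) .nil)) .nil)) (.node (.node (.node .leaf (nat_lit 4950337033800935) (.br (nat_lit 1) (.cons (.br (nat_lit 4) (.cons (.rel (nat_lit 1091575812)) .nil)) .nil)) .leaf) (nat_lit 4950337033801066) (.br (nat_lit 1) (.cons (.br (nat_lit 2) (.cons (.rel (nat_lit 100664592)) .nil)) .nil)) .leaf) (nat_lit 4956521786778231) (.br (nat_lit 0) (.cons (.br (nat_lit 1) (.cons (.rel (nat_lit 21038100)) .nil)) .nil)) (.node .leaf (nat_lit 4956527551693686) (.br (nat_lit 2) (.cons (.br (nat_lit 3) (.cons (.br (nat_lit 5) (.cons (.rel (nat_lit 4831856640)) (.cons (.rel (nat_lit 8657044548)) .nil))) .nil)) .nil)) .leaf)))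

/-- refutations 34 -/
def e34 : EX := (.node (.node (.node (.node .leaf (nat_lit 5295462876186806) (.br (nat_lit 0) (.cons (.br (nat_lit 1) (.cons (.rel (nat_lit 21037065)) .nil)) .nil)) .leaf) (nat_lit 5295734914818103) (.br (nat_lit 1) (.cons (.br (nat_lit 2) (.cons (.rel (nat_lit 83890500)) .nil)) .nil)) .leaf) (nat_lit 5296382446996866) (.br (nat_lit 1) (.cons (.br (nat_lit 2) (.cons (.rel (nat_lit 84934665)) .nil)) .nil)) (.node (.node .leaf (nat_lit 5296382447158504) (.br (nat_lit 1) (.cons (.br (nat_lit 5) (.cons (.rel (nat_lit 4311746052)) .nil)) .nil)) .leaf) (nat_lit 5301708206605544) (.br (nat_lit 0) (.cons (.br (nat_lit 1) (.cons (.rel (nat_lit 20975622)) .nil)) .nil)) .leaf)) (nat_lit 5301710489395231) (.br (nat_lit 1) (.cons (.br (nat_lit 4) (.cons (.rel (nat_lit 1091575812)) (.cons (.rel (nat_lit 1090523232)) .nil))) (.cons (.br (nat_lit 4) (.cons (.rel (nat_lit 1107296289)) (.cons (.rel (nat_lit 1090519362)) .nil))) .nil))) (.node (.node (.node .leaf (nat_lit 5301710806911751)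 (.br (nat_lit 4) (.cons (.br (nat_lit 5) (.cons (.rel (nat_lit 5368711680)) .nil)) .nil)) .leaf) (nat_lit 5301710808199329) (.br (nat_lit 5) (.cons (.br (nat_lit 6) (.cons (.rel (nat_lit 21475164162)) .nil)) .nil)) .leaf) (nat_lit 5301711558728480) (.br (nat_lit 1) (.cons (.br (nat_lit 5) (.cons (.rel (nat_lit 4328787984)) .nil)) .nil)) (.node (.node .leaf (nat_lit 5301711559175075) (.br (nat_lit 0) (.cons (.br (nat_lit 1) (.cons (.rel (nat_lit 41959680)) .nil)) .nil)) .leaf) (nat_lit 5301711559175450) (.br (nat_lit 1) (.cons (.br (nat_lit 5) (.cons (.rel (nat_lit 4311761154)) .nil)) .nil)) .leaf)))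

/-- refutations 35 -/
def e35 : EX := (.node (.node (.node (.node .leaf (nat_lit 5302870127678246) (.br (nat_lit 0) (.cons (.br (nat_lit 1) (.cons (.rel (nat_lit 21004800)) .nil)) .nil)) .leaf) (nat_lit 5308571244133914) (.br (nat_lit 0) (.cons (.br (nat_lit 1) (.cons (.rel (nat_lit 37748868)) .nil)) .nil)) .leaf) (nat_lit 5308571563126146) (.br (nat_lit 2) (.cons (.br (nat_lit 5) (.cons (.rel (nat_lit 4362338373)) .nil)) .nil)) (.node .leaf (nat_lit 5308571564395271) (.br (nat_lit 0) (.cons (.br (nat_lit 1) (.cons (.rel (nat_lit 21250113)) .nil)) .nil)) .leaf)) (nat_lit 5308571564448496) (.br (nat_lit 6) (.cons (.br (nat_lit 5) (.cons (.rel (nat_lit 21474836868)) (.cons (.rel (nat_lit 21475954752)) (.cons (.rel (nat_lit 25769804034)) (.cons (.rel (nat_lit 38654706177)) .nil))))) (.cons (.br (nat_lit 3) (.cons (.rel (nat_lit 34628174088)) (.cons (.rel (nat_lit 17716740612)) (.cons (.rel (nat_lit 17716745472)) (.cons (.rel (nat_lit 17716745472)) (.cons (.rel (nat_lit 34628178948)) .nil))))))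 .nil))) (.node (.node (.node .leaf (nat_lit 5308571565218544) (.br (nat_lit 2) (.cons (.br (nat_lit 4) (.cons (.rel (nat_lit 1208029185)) .nil)) .nil)) .leaf) (nat_lit 5308574914375042) (.br (nat_lit 0) (.cons (.br (nat_lit 4) (.cons (.rel (nat_lit 1082392704)) .nil)) .nil)) .leaf) (nat_lit 5308577514263303) (.br (nat_lit 5) (.cons (.br (nat_lit 6) (.cons (.rel (nat_lit 21475102728)) .nil)) .nil)) (.node .leaf (nat_lit 5308577517340947) (.br (nat_lit 1) (.cons (.br (nat_lit 2) (.cons (.rel (nat_lit 85196880)) .nil)) .nil)) .leaf)))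

/-- refutations 36 -/
def e36 : EX := (.node (.node (.node .leaf (nat_lit 5283334938970112) (.br (nat_lit 1) (.cons (.br (nat_lit 2) (.cons (.rel (nat_lit 84955392)) .nil)) .nil)) .leaf) (nat_lit 5284319536416245) (.br (nat_lit 2) (.cons (.br (nat_lit 5) (.cons (.rel (nat_lit 4362093060)) .nil)) .nil)) (.node .leaf (nat_lit 5284361468125335) (.br (nat_lit 3) (.cons (.br (nat_lit 4) (.cons (.rel (nat_lit 1342214433)) .nil)) .nil)) .leaf)) (nat_lit 5290979541713648) (.br (nat_lit 1) (.cons (.br (nat_lit 4) (.cons (.rel (nat_lit 1090585665)) .nil)) .nil)) (.node (.node .leaf (nat_lit 5290979541713833) (.br (nat_lit 1) (.cons (.br (nat_lit 5) (.cons (.rel (nat_lit 4328587392)) .nil)) .nil)) .leaf) (nat_lit 5290984173681545) (.br (nat_lit 1) (.cons (.br (nat_lit 2) (.cons (.rel (nat_lit 83918913)) .nil)) .nil)) .leaf))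

/-- refutations 38 -/
def e38 : EX := (.node .leaf (nat_lit 5378940280251655) (.br (nat_lit 0) (.cons (.br (nat_lit 1) (.cons (.rel (nat_lit 26230788)) .nil)) .nil)) .leaf)

/-- refutations 39 -/
def e39 : EX := (.node (.node (.node (.node .leaf (nat_lit 5314446763589014) (.br (nat_lit 2) (.cons (.br (nat_lit 3) (.cons (.rel (nat_lit 404766720)) .nil)) .nil)) .leaf) (nat_lit 5383318332287657) (.br (nat_lit 0) (.cons (.br (nat_lit 1) (.cons (.rel (nat_lit 20971797)) .nil)) .nil)) .leaf) (nat_lit 5385617834516480) (.br (nat_lit 0) (.cons (.br (nat_lit 5) (.cons (.rel (nat_lit 8598327360)) .nil)) .nil)) (.node .leaf (nat_lit 5390132633660818) (.br (nat_lit 0) (.cons (.br (nat_lit 2) (.cons (.rel (nat_lit 71335941)) .nil)) .nil)) .leaf)) (nat_lit 5390138944555143) (.br (nat_lit 0) (.cons (.br (nat_lit 1) (.cons (.rel (nat_lit 37748868)) .nil)) .nil)) (.node (.node (.node .leaf (nat_lit 5390138944556258) (.br (nat_lit 2) (.cons (.br (nat_lit 3) (.cons (.rel (nat_lit 604569600)) .nil)) .nil)) .leaf)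 (nat_lit 5396535299023133) (.br (nat_lit 0) (.cons (.br (nat_lit 6) (.cons (.rel (nat_lit 17188262148)) .nil)) .nil)) .leaf) (nat_lit 5396538240766237) (.br (nat_lit 1) (.cons (.br (nat_lit 3) (.cons (.rel (nat_lit 285344256)) .nil)) .nil)) (.node .leaf (nat_lit 5396538241852673) (.br (nat_lit 2) (.cons (.br (nat_lit 0) (.cons (.rel (nat_lit 71319840)) (.cons (.rel (nat_lit 75564096)) .nil))) .nil)) .leaf)))

/-- refutations 40 -/
def e40 : EX := (.node (.node (.node (.node .leaf (nat_lit 11012924391333913) (.br (nat_lit 5) (.cons (.br (nat_lit 0) (.cons (.rel (nat_lit 4299429120)) (.cons (.rel (nat_lit 4300210260)) .nil))) .nil)) .leaf) (nat_lit 11015114321338528) (.br (nat_lit 3) (.cons (.br (nat_lit 4) (.cons (.rel (nat_lit 1342177557)) .nil)) .nil)) .leaf) (nat_lit 11015114323640480) (.br (nat_lit 0) (.cons (.br (nat_lit 1) (.cons (.rel (nat_lit 38012928)) .nil)) .nil)) (.node (.node .leaf (nat_lit 11018138481347871) (.br (nat_lit 2) (.cons (.br (nat_lit 3) (.cons (.rel (nat_lit 671092740))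 .nil)) .nil)) .leaf) (nat_lit 11018138484266271) (.br (nat_lit 0) (.cons (.br (nat_lit 1) (.cons (.rel (nat_lit 20971797)) (.cons (.rel (nat_lit 20976657)) .nil))) (.cons (.br (nat_lit 1) (.cons (.rel (nat_lit 20972832)) (.cons (.rel (nat_lit 20971797)) .nil))) .nil))) .leaf)) (nat_lit 11019646883127576) (.br (nat_lit 1) (.cons (.br (nat_lit 4) (.cons (.rel (nat_lit 1090585665)) .nil)) .nil)) (.node (.node (.node .leaf (nat_lit 11020534673364351) (.br (nat_lit 2) (.cons (.br (nat_lit 4) (.cons (.rel (nat_lit 1140932673)) .nil)) .nil)) .leaf) (nat_lit 11020537043041663) (.br (nat_lit 1) (.cons (.br (nat_lit 2) (.cons (.rel (nat_lit 168034560)) .nil)) .nil)) .leaf) (nat_lit 11020539787534348) (.br (nat_lit 3) (.cons (.br (nat_lit 1) (.cons (.rel (nat_lit 285230100)) (.cons (.rel (nat_lit 285278232)) .nil))) .nil)) (.node .leaf (nat_lit 11020539790083483) (.br (nat_lit 1) (.cons (.br (nat_lit 2) (.cons (.rel (nat_lit 168034560)) .nil)) .nil)) .leaf)))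

/-- refutations 41 -/
def e41 : EX := (.node (.node (.node (.node (.node .leaf (nat_lit 11025599911625011) (.br (nat_lit 0) (.cons (.br (nat_lit 1) (.cons (.rel (nat_lit 20988933)) .nil)) .nil)) .leaf) (nat_lit 11025825552711831) (.br (nat_lit 1) (.cons (.br (nat_lit 2) (.cons (.rel (nat_lit 83918913)) .nil)) .nil)) .leaf) (nat_lit 11025825868867063) (.br (nat_lit 0) (.cons (.br (nat_lit 2) (.cons (.rel (nat_lit 71305728)) .nil)) .nil)) (.node .leaf (nat_lit 11025826472551911) (.br (nat_lit 0) (.cons (.br (nat_lit 4) (.cons (.rel (nat_lit 1077940260)) .nil)) .nil)) .leaf)) (nat_lit 11025826473091097) (.br (nat_lit 1) (.cons (.br (nat_lit 4) (.cons (.rel (nat_lit 1107297288)) .nil)) .nil)) (.node (.node .leaf (nat_lit 11025826473092599) (.br (nat_lit 0) (.cons (.br (nat_lit 1) (.cons (.rel (nat_lit 41959680)) .nil)) .nil)) .leaf) (nat_lit 11025831187563382) (.br (nat_lit 0) (.cons (.br (nat_lit 1) (.cons (.rel (nat_lit 20975622)) .nil)) .nil)) (.node .leaf (nat_lit 11026031477794179) (.br (nat_lit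 2) (.cons (.br (nat_lit 3) (.cons (.rel (nat_lit 335550720)) .nil)) .nil)) .leaf))) (nat_lit 11026031479161584) (.br (nat_lit 1) (.cons (.br (nat_lit 3) (.cons (.rel (nat_lit 287309889)) .nil)) .nil)) (.node (.node (.node .leaf (nat_lit 11026032027296496) (.br (nat_lit 0) (.cons (.br (nat_lit 4) (.cons (.rel (nat_lit 1077937425)) .nil)) .nil)) .leaf) (nat_lit 11026032027542256) (.br (nat_lit 0) (.cons (.br (nat_lit 4) (.cons (.rel (nat_lit 1077977088)) .nil)) .nil)) (.node .leaf (nat_lit 11026032128206231) (.br (nat_lit 1) (.cons (.br (nat_lit 4) (.cons (.rel (nat_lit 1091575812)) .nil)) .nil)) .leaf)) (nat_lit 11026034598365936) (.br (nat_lit 0) (.cons (.br (nat_lit 3) (.cons (.rel (nat_lit 541163520)) .nil)) .nil)) (.node (.node .leaf (nat_lit 11026034600952460) (.br (nat_lit 2) (.cons (.br (nat_lit 3) (.cons (.rel (nat_lit 335545860)) .nil)) .nil)) .leaf) (nat_lit 11026034600976435) (.br (nat_lit 0) (.cons (.br (nat_lit 4) (.cons (.rel (nat_lit 1077977088)) .nil)) .nil)) (.node .leaf (nat_lit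 11026034601284336) (.br (nat_lit 4) (.cons (.br (nat_lit 2) (.cons (.rel (nat_lit 2214658056)) (.cons (.rel (nat_lit 1141383168)) .nil))) .nil)) .leaf))))

/-- refutations 42 -/
def e42 : EX := (.node (.node .leaf (nat_lit 5456164424321180) (.br (nat_lit 0) (.cons (.br (nat_lit 2) (.cons (.rel (nat_lit 71312388)) .nil)) .nil)) .leaf) (nat_lit 5466906543374336) (.br (nat_lit 0) (.cons (.br (nat_lit 2) (.cons (.rel (nat_lit 72351873)) .nil)) .nil)) .leaf)

/-- refutations 43 -/
def e43 : EX := (.node (.node (.node (.node .leaf (nat_lit 11035976533600307) (.br (nat_lit 1) (.cons (.br (nat_lit 2) (.cons (.rel (nat_lit 83890500)) .nil)) .nil)) .leaf) (nat_lit 11036763552855323) (.br (nat_lit 0) (.cons (.br (nat_lit 2) (.cons (.rel (nat_lit 75825288)) .nil)) .nil)) .leaf) (nat_lit 11043630056303469) (.br (nat_lit 3) (.cons (.br (nat_lit 4) (.cons (.rel (nat_lit 1342316544)) .nil)) .nil)) (.node .leaf (nat_lit 11043630058579201) (.br (nat_lit 0) (.cons (.br (nat_lit 2) (.cons (.rel (nat_lit 71305728))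 .nil)) .nil)) .leaf)) (nat_lit 11043630166645047) (.br (nat_lit 0) (.cons (.br (nat_lit 1) (.cons (.rel (nat_lit 20972832)) (.cons (.rel (nat_lit 20971797)) .nil))) (.cons (.br (nat_lit 1) (.cons (.rel (nat_lit 20975622)) (.cons (.rel (nat_lit 20976657)) .nil))) .nil))) (.node (.node .leaf (nat_lit 11043630167577831) (.br (nat_lit 1) (.cons (.br (nat_lit 5) (.cons (.rel (nat_lit 4328800260)) .nil)) .nil)) .leaf) (nat_lit 11043630167577883) (.br (nat_lit 1) (.cons (.br (nat_lit 2) (.cons (.rel (nat_lit 83918913)) .nil)) .nil)) (.node .leaf (nat_lit 11043630167631105) (.br (nat_lit 2) (.cons (.br (nat_lit 5) (.cons (.rel (nat_lit 8724152337)) .nil)) .nil)) .leaf)))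

/-- refutations 44 -/
def e44 : EX := (.node (.node (.node .leaf (nat_lit 11106142485691674) (.br (nat_lit 1) (.cons (.br (nat_lit 2) (.cons (.rel (nat_lit 83895360)) .nil)) .nil)) .leaf) (nat_lit 11113992409383664) (.br (nat_lit 1) (.cons (.br (nat_lit 4) (.cons (.rel (nat_lit 2181058692)) .nil)) .nil)) (.node .leaf (nat_lit 11113993683084016) (.br (nat_lit 1) (.cons (.br (nat_lit 2) (.cons (.rel (nat_lit 83895360)) .nil)) .nil)) .leaf)) (nat_lit 11113993683084541) (.br (nat_lit 2) (.cons (.br (nat_lit 4) (.cons (.rel (nat_lit 1140851268)) .nil)) .nil)) (.node (.node .leaf (nat_lit 11113998285254666) (.br (nat_lit 2) (.cons (.br (nat_lit 3) (.cons (.rel (nat_lit 335613954)) .nil)) .nil)) .leaf) (nat_lit 11184238196528535) (.br (nat_lit 0) (.cons (.br (nat_lit 2) (.cons (.rel (nat_lit 71305728)) .nil)) .nil)) (.node .leaf (nat_lit 11184362413106437) (.br (nat_lit 0) (.cons (.br (nat_lit 4) (.cons (.rel (nat_lit 1078003728)) .nil)) .nil)) .leaf)))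

/-- refutations 45 -/
def e45 : EX := (.node (.node (.node (.node (.node (.node .leaf (nat_lit 11434963922394495) (.br (nat_lit 1) (.cons (.br (nat_lit 2) (.cons (.rel (nat_lit 100729860)) (.cons (.rel (nat_lit 83890500)) .nil))) (.cons (.br (nat_lit 2) (.cons (.rel (nat_lit 151028736)) (.cons (.rel (nat_lit 151076868)) .nil))) .nil))) .leaf) (nat_lit 11434963923377055) (.br (nat_lit 1) (.cons (.br (nat_lit 2) (.cons (.rel (nat_lit 83968080)) .nil)) .nil)) .leaf) (nat_lit 11434969773447180) (.br (nat_lit 1) (.cons (.br (nat_lit 2) (.cons (.rel (nat_lit 83968080)) .nil)) .nil)) (.node .leaf (nat_lit 11434969774430220) (.br (nat_lit 0) (.cons (.br (nat_lit 4) (.cons (.rel (nat_lit 2155892736)) .nil)) .nil)) .leaf)) (nat_lit 11435024224834473) (.br (nat_lit 4) (.cons (.br (nat_lit 6) (.cons (.rel (nat_lit 35434004736)) .nil)) .nil)) (.node (.node (.node .leaf (nat_lit 11435024224887721) (.br (nat_lit 4) (.cons (.br (nat_lit 5) (.cons (.rel (nat_lit 5368713480)) .nil)) .nil)) .leaf) (nat_lit 11435024554753287)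 (.br (nat_lit 4) (.cons (.br (nat_lit 6) (.cons (.rel (nat_lit 18253631760)) .nil)) .nil)) .leaf) (nat_lit 11435024555253112) (.br (nat_lit 1) (.cons (.br (nat_lit 4) (.cons (.rel (nat_lit 2181366024)) (.cons (.rel (nat_lit 2164262916)) .nil))) (.cons (.br (nat_lit 4) (.cons (.rel (nat_lit 2164265472)) (.cons (.rel (nat_lit 1091569152)) .nil))) .nil))) (.node .leaf (nat_lit 11435024556237737) (.br (nat_lit 1) (.cons (.br (nat_lit 5) (.cons (.rel (nat_lit 4311876624)) (.cons (.rel (nat_lit 8606842944)) .nil))) (.cons (.br (nat_lit 2) (.cons (.rel (nat_lit 83895360)) (.cons (.rel (nat_lit 168034560)) .nil))) .nil))) .leaf))) (nat_lit 11435024556238186) (.br (nat_lit 2) (.cons (.br (nat_lit 3) (.cons (.rel (nat_lit 604569600)) .nil)) .nil)) (.node (.node (.node (.node .leaf (nat_lit 11435024556468275) (.br (nat_lit 1) (.cons (.br (nat_lit 2) (.cons (.rel (nat_lit 100681728)) .nil)) .nil)) .leaf) (nat_lit 11435024556469161) (.br (nat_lit 2) (.cons (.br (nat_lit 4) (.cons (.br (nat_lit 1) (.cons (.rel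 (nat_lit 1107297288)) (.cons (.rel (nat_lit 151076868)) .nil))) .nil)) .nil)) .leaf) (nat_lit 11435024556540806) (.br (nat_lit 1) (.cons (.br (nat_lit 2) (.cons (.rel (nat_lit 100664592)) .nil)) .nil)) (.node .leaf (nat_lit 11435027389329569) (.br (nat_lit 2) (.cons (.br (nat_lit 6) (.cons (.rel (nat_lit 17246986752)) .nil)) .nil)) .leaf)) (nat_lit 11435027389330663) (.br (nat_lit 4) (.cons (.br (nat_lit 5) (.cons (.rel (nat_lit 9663709248)) .nil)) .nil)) (.node (.node .leaf (nat_lit 11435027730074505) (.br (nat_lit 1) (.cons (.br (nat_lit 3) (.cons (.rel (nat_lit 554714112)) .nil)) .nil)) .leaf) (nat_lit 11435027790045859) (.br (nat_lit 0) (.cons (.br (nat_lit 2) (.cons (.rel (nat_lit 71305728)) .nil)) .nil)) (.node .leaf (nat_lit 11435027790046121) (.br (nat_lit 2) (.cons (.br (nat_lit 5) (.cons (.rel (nat_lit 4362093060)) (.cons (.rel (nat_lit 4362174465)) .nil))) .nil)) .leaf)))) (nat_lit 11435029262246825) (.br (nat_lit 0) (.cons (.br (nat_lit 4) (.cons (.rel (nat_lit 1077937425)) .nil))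 .nil)) (.node (.node (.node (.node (.node .leaf (nat_lit 11435029901402124) (.br (nat_lit 1) (.cons (.br (nat_lit 4) (.cons (.rel (nat_lit 1091569152)) (.cons (.rel (nat_lit 1107427593)) .nil))) (.cons (.br (nat_lit 3) (.cons (.rel (nat_lit 555827328)) (.cons (.rel (nat_lit 285280257)) (.cons (.rel (nat_lit 285278232)) (.cons (.rel (nat_lit 285280257)) .nil))))) .nil))) .leaf) (nat_lit 11435029903975302) (.br (nat_lit 1) (.cons (.br (nat_lit 2) (.cons (.rel (nat_lit 83895360)) .nil)) .nil)) .leaf) (nat_lit 11435029904178532) (.br (nat_lit 2) (.cons (.br (nat_lit 3) (.cons (.rel (nat_lit 335552520)) .nil)) .nil)) (.node .leaf (nat_lit 11435029984974230) (.br (nat_lit 0) (.cons (.br (nat_lit 1) (.cons (.rel (nat_lit 21037065)) .nil)) .nil)) .leaf)) (nat_lit 11435135806188295) (.br (nat_lit 4) (.cons (.br (nat_lit 1) (.cons (.br (nat_lit 3) (.cons (.rel (nat_lit 2415920256)) (.cons (.rel (nat_lit 285302784)) (.cons (.rel (nat_lit 285344256)) .nil)))) (.cons (.br (nat_lit 2) (.cons (.rel (nat_lit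 1140856128)) (.cons (.rel (nat_lit 83890500)) (.cons (.rel (nat_lit 84410880)) .nil)))) .nil))) .nil)) (.node (.node (.node .leaf (nat_lit 11435136253212009) (.br (nat_lit 0) (.cons (.br (nat_lit 1) (.cons (.rel (nat_lit 41959680)) .nil)) .nil)) .leaf) (nat_lit 11435136755175699) (.br (nat_lit 1) (.cons (.br (nat_lit 5) (.cons (.rel (nat_lit 4312007232)) .nil)) .nil)) .leaf) (nat_lit 11435136758064661) (.br (nat_lit 0) (.cons (.br (nat_lit 2) (.cons (.rel (nat_lit 71305728)) .nil)) .nil)) (.node .leaf (nat_lit 11435138305994090) (.br (nat_lit 0) (.cons (.br (nat_lit 2) (.cons (.rel (nat_lit 142607616)) .nil)) .nil)) .leaf))) (nat_lit 11435138436079623) (.br (nat_lit 2) (.cons (.br (nat_lit 4) (.cons (.rel (nat_lit 2214609924)) .nil)) .nil)) (.node (.node (.node (.node .leaf (nat_lit 11435138534887475) (.br (nat_lit 1) (.cons (.br (nat_lit 4) (.cons (.rel (nat_lit 1090519362)) .nil)) .nil)) .leaf) (nat_lit 11435138971404295) (.br (nat_lit 1) (.cons (.br (nat_lit 2) (.cons (.rel (nat_lit 83890500))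 .nil)) .nil)) .leaf) (nat_lit 11435138971617555) (.br (nat_lit 1) (.cons (.br (nat_lit 3) (.cons (.rel (nat_lit 553910400)) .nil)) .nil)) (.node .leaf (nat_lit 11435138972950535) (.br (nat_lit 1) (.cons (.br (nat_lit 3) (.cons (.rel (nat_lit 285280257)) .nil)) .nil)) .leaf)) (nat_lit 11435139605010457) (.br (nat_lit 1) (.cons (.br (nat_lit 4) (.cons (.rel (nat_lit 1090519362)) (.cons (.rel (nat_lit 1090523232)) .nil))) (.cons (.br (nat_lit 4) (.cons (.rel (nat_lit 2164262916)) (.cons (.rel (nat_lit 1090535508)) .nil))) .nil))) (.node (.node .leaf (nat_lit 11435140950041952) (.br (nat_lit 4) (.cons (.br (nat_lit 5) (.cons (.rel (nat_lit 5368711680)) .nil)) .nil)) .leaf) (nat_lit 11435140952670390) (.br (nat_lit 2) (.cons (.br (nat_lit 3) (.cons (.rel (nat_lit 335552520)) .nil)) .nil)) (.node .leaf (nat_lit 11435141572086035) (.br (nat_lit 1) (.cons (.br (nat_lit 3) (.cons (.rel (nat_lit 285230100)) .nil)) .nil)) .leaf)))))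

/-- refutations 46 -/
def e46 : EX := (.node (.node (.node (.node .leaf (nat_lit 11435405746899820) (.br (nat_lit 0) (.cons (.br (nat_lit 1) (.cons (.rel (nat_lit 20988933)) .nil)) .nil)) .leaf) (nat_lit 11435407355524473) (.br (nat_lit 0) (.cons (.br (nat_lit 2) (.cons (.rel (nat_lit 71573568)) .nil)) .nil)) .leaf) (nat_lit 11435439098671115) (.br (nat_lit 4) (.cons (.br (nat_lit 5) (.cons (.rel (nat_lit 5368741893)) .nil)) .nil)) (.node (.node .leaf (nat_lit 11435439100577144) (.br (nat_lit 0) (.cons (.br (nat_lit 2) (.cons (.rel (nat_lit 71336976)) .nil)) .nil)) .leaf) (nat_lit 11436009241731374) (.br (nat_lit 0) (.cons (.br (nat_lit 1) (.cons (.rel (nat_lit 21038100)) .nil)) .nil)) .leaf)) (nat_lit 11436009242987897) (.br (nat_lit 0) (.cons (.br (nat_lit 2) (.cons (.rel (nat_lit 71435265)) .nil)) .nil)) (.node (.node (.node .leaf (nat_lit 11436054842745143) (.br (nat_lit 4) (.cons (.br (nat_lit 5) (.cons (.rel (nat_lit 5368718340)) (.cons (.rel (nat_lit 9664725000)) .nil))) .nil)) .leaf)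 (nat_lit 11436057427173508) (.br (nat_lit 3) (.cons (.br (nat_lit 6) (.cons (.rel (nat_lit 34628239392)) .nil)) .nil)) .leaf) (nat_lit 11436057978217135) (.br (nat_lit 0) (.cons (.br (nat_lit 2) (.cons (.rel (nat_lit 140574720)) .nil)) .nil)) (.node (.node .leaf (nat_lit 11436061145219223) (.br (nat_lit 0) (.cons (.br (nat_lit 3) (.cons (.rel (nat_lit 276826116)) .nil)) .nil)) .leaf) (nat_lit 11436061199370247) (.br (nat_lit 0) (.cons (.br (nat_lit 3) (.cons (.rel (nat_lit 541066248)) .nil)) .nil)) .leaf)))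

/-- refutations 47 -/
def e47 : EX := (.node (.node (.node (.node .leaf (nat_lit 11436212800296289) (.br (nat_lit 0) (.cons (.br (nat_lit 1) (.cons (.rel (nat_lit 21004800)) .nil)) .nil)) .leaf) (nat_lit 11436258272024887) (.br (nat_lit 3) (.cons (.br (nat_lit 4) (.cons (.rel (nat_lit 1342178592)) .nil)) .nil)) (.node .leaf (nat_lit 11436295948959207) (.br (nat_lit 1) (.cons (.br (nat_lit 3) (.cons (.rel (nat_lit 285217824)) .nil)) .nil)) .leaf)) (nat_lit 11436295950674575) (.br (nat_lit 4) (.cons (.br (nat_lit 5) (.cons (.rel (nat_lit 5368841217)) .nil)) .nil)) (.node (.node .leaf (nat_lit 11436298074382616) (.br (nat_lit 1) (.cons (.br (nat_lit 2) (.cons (.rel (nat_lit 83968080)) .nil)) .nil)) .leaf) (nat_lit 11436298613825687) (.br (nat_lit 0) (.cons (.br (nat_lit 4) (.cons (.rel (nat_lit 1078003728)) .nil)) .nil)) .leaf)) (nat_lit 11436301211673512) (.br (nat_lit 1) (.cons (.br (nat_lit 3) (.cons (.rel (nat_lit 285249792)) .nil)) .nil)) (.node (.node (.node .leaf (nat_lit 11436301211722515)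 (.br (nat_lit 1) (.cons (.br (nat_lit 4) (.cons (.rel (nat_lit 1107297288)) .nil)) .nil)) .leaf) (nat_lit 11436301299802747) (.br (nat_lit 0) (.cons (.br (nat_lit 1) (.cons (.rel (nat_lit 21004800)) .nil)) .nil)) .leaf) (nat_lit 11436301717586200) (.br (nat_lit 0) (.cons (.br (nat_lit 6) (.cons (.rel (nat_lit 17188267008)) (.cons (.rel (nat_lit 34363933956)) .nil))) (.cons (.br (nat_lit 1) (.cons (.rel (nat_lit 20988933)) (.cons (.rel (nat_lit 21037065)) (.cons (.rel (nat_lit 20972832)) .nil)))) .nil))) (.node (.node .leaf (nat_lit 11436532638997991) (.br (nat_lit 0) (.cons (.br (nat_lit 1) (.cons (.rel (nat_lit 20972832)) .nil)) .nil)) .leaf) (nat_lit 11436532639211822) (.br (nat_lit 1) (.cons (.br (nat_lit 2) (.cons (.rel (nat_lit 83895360)) .nil)) .nil)) .leaf)))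

/-- refutations 48 -/
def e48 : EX := (.node (.node (.node (.node (.node .leaf (nat_lit 11437507047335143) (.br (nat_lit 0) (.cons (.br (nat_lit 5) (.cons (.rel (nat_lit 4303361040)) .nil)) .nil)) .leaf) (nat_lit 11437507177358718) (.br (nat_lit 1) (.cons (.br (nat_lit 3) (.cons (.rel (nat_lit 285213954)) .nil)) .nil)) .leaf) (nat_lit 11437549555621217) (.br (nat_lit 6) (.cons (.br (nat_lit 1) (.cons (.rel (nat_lit 34393292820)) (.cons (.rel (nat_lit 17196908610)) .nil))) .nil)) (.node .leaf (nat_lit 11437552831371950) (.br (nat_lit 1) (.cons (.br (nat_lit 3) (.cons (.rel (nat_lit 285230100)) .nil)) .nil)) .leaf)) (nat_lit 11437555791278861) (.br (nat_lit 2) (.cons (.br (nat_lit 4) (.cons (.rel (nat_lit 1208090628)) (.cons (.rel (nat_lit 2214609924)) .nil))) .nil)) (.node (.node .leaf (nat_lit 11437555791936269) (.br (nat_lit 1) (.cons (.br (nat_lit 5) (.cons (.rel (nat_lit 4311752712)) .nil)) .nil)) .leaf) (nat_lit 11437558714078439) (.br (nat_lit 1) (.cons (.br (nat_lit 4) (.cons (.rel (nat_lit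 1091698689)) .nil)) .nil)) (.node .leaf (nat_lit 11437559238365320) (.br (nat_lit 1) (.cons (.br (nat_lit 2) (.cons (.rel (nat_lit 168034560)) .nil)) .nil)) .leaf))) (nat_lit 11437561186424968) (.br (nat_lit 1) (.cons (.br (nat_lit 3) (.cons (.rel (nat_lit 285249792)) (.cons (.rel (nat_lit 285217824)) .nil))) .nil)) (.node (.node (.node (.node .leaf (nat_lit 11437561964979107) (.br (nat_lit 2) (.cons (.br (nat_lit 4) (.cons (.rel (nat_lit 1140851268)) .nil)) .nil)) .leaf) (nat_lit 11437563313969828) (.br (nat_lit 2) (.cons (.br (nat_lit 4) (.cons (.rel (nat_lit 2281967616)) .nil)) .nil)) .leaf) (nat_lit 11437563934881928) (.br (nat_lit 1) (.cons (.br (nat_lit 2) (.cons (.rel (nat_lit 83890500)) .nil)) .nil)) (.node .leaf (nat_lit 11437564567034167) (.br (nat_lit 1) (.cons (.br (nat_lit 5) (.cons (.rel (nat_lit 4311875589)) (.cons (.rel (nat_lit 4311765024)) .nil))) .nil)) .leaf)) (nat_lit 11437564568018955) (.br (nat_lit 1) (.cons (.br (nat_lit 4) (.cons (.rel (nat_lit 1107296289)) (.cons (.rel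 (nat_lit 1090519362)) .nil))) .nil)) (.node (.node .leaf (nat_lit 11437564568020199) (.br (nat_lit 5) (.cons (.br (nat_lit 1) (.cons (.rel (nat_lit 4328587392)) (.cons (.br (nat_lit 4) (.cons (.rel (nat_lit 9663709248)) (.cons (.rel (nat_lit 2164408320)) .nil))) .nil))) .nil)) .leaf) (nat_lit 11437564568323605) (.br (nat_lit 5) (.cons (.br (nat_lit 1) (.cons (.rel (nat_lit 4311765024)) (.cons (.rel (nat_lit 8623507473)) .nil))) .nil)) (.node .leaf (nat_lit 11440290270332430) (.br (nat_lit 0) (.cons (.br (nat_lit 1) (.cons (.rel (nat_lit 42012672)) .nil)) .nil)) .leaf))))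

/-- refutations 49 -/
def e49 : EX := (.node (.node (.node (.node .leaf (nat_lit 11440384805443895) (.br (nat_lit 1) (.cons (.br (nat_lit 5) (.cons (.rel (nat_lit 4311752712)) .nil)) .nil)) .leaf) (nat_lit 11440386753471140) (.br (nat_lit 1) (.cons (.br (nat_lit 5) (.cons (.rel (nat_lit 4311750912)) .nil)) .nil)) .leaf) (nat_lit 11440386755528755) (.br (nat_lit 0) (.cons (.br (nat_lit 3) (.cons (.rel (nat_lit 272695440)) .nil)) .nil)) (.node (.node .leaf (nat_lit 11440386755795255) (.br (nat_lit 1) (.cons (.br (nat_lit 5) (.cons (.rel (nat_lit 4312007232)) .nil)) .nil)) .leaf) (nat_lit 11440386755796251) (.br (nat_lit 2) (.cons (.br (nat_lit 4) (.cons (.rel (nat_lit 1207976193)) .nil)) .nil)) .leaf)) (nat_lit 11440390656497975) (.br (nat_lit 1) (.cons (.br (nat_lit 4) (.cons (.rel (nat_lit 1090523232)) (.cons (.rel (nat_lit 1090535508)) (.cons (.rel (nat_lit 1090585665)) .nil)))) (.cons (.br (nat_lit 4) (.cons (.rel (nat_lit 1090535508)) (.cons (.rel (nat_lit 1090535508)) (.cons (.rel (nat_lit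 1090585665)) .nil)))) .nil))) (.node (.node (.node .leaf (nat_lit 11440390656804373) (.br (nat_lit 3) (.cons (.br (nat_lit 5) (.cons (.rel (nat_lit 8858403840)) .nil)) .nil)) .leaf) (nat_lit 11440393399573735) (.br (nat_lit 0) (.cons (.br (nat_lit 2) (.cons (.rel (nat_lit 71573568)) .nil)) .nil)) .leaf) (nat_lit 11440396438117257) (.br (nat_lit 0) (.cons (.br (nat_lit 1) (.cons (.rel (nat_lit 20971797)) .nil)) .nil)) (.node (.node .leaf (nat_lit 11440817551777001) (.br (nat_lit 4) (.cons (.br (nat_lit 6) (.cons (.rel (nat_lit 36507223041)) .nil)) .nil)) .leaf) (nat_lit 11440819946724585) (.br (nat_lit 3) (.cons (.br (nat_lit 0) (.cons (.rel (nat_lit 272908308)) (.cons (.rel (nat_lit 276824082)) (.cons (.rel (nat_lit 272908308)) (.cons (.rel (nat_lit 276826116)) .nil))))) .nil)) .leaf)))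

/-- refutations 50 -/
def e50 : EX := (.node (.node (.node (.node (.node .leaf (nat_lit 11441381136157574) (.br (nat_lit 0) (.cons (.br (nat_lit 2) (.cons (.rel (nat_lit 71335941)) .nil)) .nil)) .leaf) (nat_lit 11441381640513045) (.br (nat_lit 1) (.cons (.br (nat_lit 2) (.cons (.rel (nat_lit 167837841)) .nil)) .nil)) .leaf) (nat_lit 11441381840226356) (.br (nat_lit 1) (.cons (.br (nat_lit 4) (.cons (.rel (nat_lit 1090523232)) .nil)) .nil)) (.node .leaf (nat_lit 11441381841838855) (.br (nat_lit 0) (.cons (.br (nat_lit 5) (.cons (.rel (nat_lit 4299554832)) .nil)) .nil)) .leaf)) (nat_lit 11441383736412935) (.br (nat_lit 2) (.cons (.br (nat_lit 6) (.cons (.rel (nat_lit 17246986752)) .nil)) .nil)) (.node (.node (.node .leaf (nat_lit 11441383737663488) (.br (nat_lit 0) (.cons (.br (nat_lit 4) (.cons (.rel (nat_lit 1077952536)) .nil)) .nil)) .leaf) (nat_lit 11441384485872872) (.br (nat_lit 1) (.cons (.br (nat_lit 4) (.cons (.rel (nat_lit 1090519362)) .nil)) .nil)) .leaf) (nat_lit 11441386455357620)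 (.br (nat_lit 0) (.cons (.br (nat_lit 1) (.cons (.rel (nat_lit 21037065)) .nil)) .nil)) (.node .leaf (nat_lit 11441386536572441) (.br (nat_lit 1) (.cons (.br (nat_lit 3) (.cons (.rel (nat_lit 285344256)) .nil)) .nil)) .leaf))) (nat_lit 11441386539460117) (.br (nat_lit 1) (.cons (.br (nat_lit 2) (.cons (.rel (nat_lit 100681728)) .nil)) .nil)) (.node (.node (.node (.node .leaf (nat_lit 11441386901496088) (.br (nat_lit 3) (.cons (.br (nat_lit 5) (.cons (.rel (nat_lit 4563403392)) .nil)) .nil)) .leaf) (nat_lit 11441386904363945) (.br (nat_lit 5) (.cons (.br (nat_lit 6) (.cons (.rel (nat_lit 21475901760)) .nil)) .nil)) .leaf) (nat_lit 11441581303528824) (.br (nat_lit 4) (.cons (.br (nat_lit 6) (.cons (.rel (nat_lit 18253611033)) .nil)) .nil)) (.node .leaf (nat_lit 11441581305174273) (.br (nat_lit 0) (.cons (.br (nat_lit 1) (.cons (.rel (nat_lit 20989968)) .nil)) .nil)) .leaf)) (nat_lit 11441581510595246) (.br (nat_lit 1) (.cons (.br (nat_lit 4) (.cons (.rel (nat_lit 1091575812)) .nil)) .nil)) (.node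 (.node (.node .leaf (nat_lit 11441581510695598) (.br (nat_lit 4) (.cons (.br (nat_lit 5) (.cons (.rel (nat_lit 6444548100)) .nil)) .nil)) .leaf) (nat_lit 11441581511680156) (.br (nat_lit 2) (.cons (.br (nat_lit 5) (.cons (.rel (nat_lit 4362080784)) .nil)) .nil)) .leaf) (nat_lit 11441581511681525) (.br (nat_lit 0) (.cons (.br (nat_lit 1) (.cons (.rel (nat_lit 20972832)) .nil)) .nil)) (.node .leaf (nat_lit 11441581848552329) (.br (nat_lit 4) (.cons (.br (nat_lit 5) (.cons (.rel (nat_lit 5368718340)) .nil)) .nil)) .leaf))))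

/-- refutations 51 -/
def e51 : EX := (.node (.node (.node (.node (.node .leaf (nat_lit 11441621626003607) (.br (nat_lit 5) (.cons (.br (nat_lit 2) (.cons (.rel (nat_lit 4362077193)) (.cons (.rel (nat_lit 4362093060)) .nil))) .nil)) .leaf) (nat_lit 11441621626236135) (.br (nat_lit 4) (.cons (.br (nat_lit 1) (.cons (.rel (nat_lit 1107297288)) (.cons (.rel (nat_lit 2164260882)) .nil))) .nil)) .leaf) (nat_lit 11441622172571161) (.br (nat_lit 0) (.cons (.br (nat_lit 3) (.cons (.rel (nat_lit 541066248)) .nil)) .nil)) (.node .leaf (nat_lit 11441622175457431) (.br (nat_lit 0) (.cons (.br (nat_lit 3) (.cons (.rel (nat_lit 276826116)) .nil)) .nil)) .leaf)) (nat_lit 11441624373270680) (.br (nat_lit 4) (.cons (.br (nat_lit 6) (.cons (.rel (nat_lit 18253631760)) .nil)) .nil)) (.node (.node (.node .leaf (nat_lit 11441624373272727) (.br (nat_lit 3) (.cons (.br (nat_lit 5) (.cons (.rel (nat_lit 4563403392)) (.cons (.rel (nat_lit 8858403840)) .nil))) .nil)) .leaf) (nat_lit 11441624373314412) (.br (nat_lit 0)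 (.cons (.br (nat_lit 1) (.cons (.rel (nat_lit 21037065)) .nil)) .nil)) .leaf) (nat_lit 11441624859584512) (.br (nat_lit 1) (.cons (.br (nat_lit 5) (.cons (.rel (nat_lit 4311875589)) .nil)) .nil)) (.node .leaf (nat_lit 11441627474170792) (.br (nat_lit 1) (.cons (.br (nat_lit 4) (.cons (.rel (nat_lit 1107297288)) .nil)) .nil)) .leaf))) (nat_lit 11441804850275860) (.br (nat_lit 0) (.cons (.br (nat_lit 1) (.cons (.rel (nat_lit 20989968)) .nil)) .nil)) (.node (.node (.node (.node .leaf (nat_lit 11441804850282798) (.br (nat_lit 0) (.cons (.br (nat_lit 1) (.cons (.rel (nat_lit 25165896)) .nil)) .nil)) .leaf) (nat_lit 11441807811134345) (.br (nat_lit 1) (.cons (.br (nat_lit 4) (.cons (.rel (nat_lit 1107558468)) .nil)) .nil)) .leaf) (nat_lit 11441845088575800) (.br (nat_lit 0) (.cons (.br (nat_lit 1) (.cons (.rel (nat_lit 20971797)) .nil)) .nil)) (.node .leaf (nat_lit 11441847711572119) (.br (nat_lit 0) (.cons (.br (nat_lit 2) (.cons (.rel (nat_lit 71319840)) .nil)) .nil)) .leaf)) (nat_lit 11441853684190439)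 (.br (nat_lit 1) (.cons (.br (nat_lit 4) (.cons (.rel (nat_lit 1107297288)) .nil)) .nil)) (.node (.node .leaf (nat_lit 11441853684190570) (.br (nat_lit 6) (.cons (.br (nat_lit 0) (.cons (.rel (nat_lit 34368127056)) (.cons (.rel (nat_lit 34363938816)) (.cons (.rel (nat_lit 17184407808)) .nil)))) .nil)) .leaf) (nat_lit 11441888043997320) (.br (nat_lit 1) (.cons (.br (nat_lit 3) (.cons (.rel (nat_lit 285230100)) .nil)) .nil)) (.node .leaf (nat_lit 11441888463429783) (.br (nat_lit 1) (.cons (.br (nat_lit 2) (.cons (.rel (nat_lit 83895360)) .nil)) .nil)) .leaf))))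

/-- refutations 52 -/
def e52 : EX := (.node (.node (.node (.node (.node .leaf (nat_lit 11442543347148183) (.br (nat_lit 1) (.cons (.br (nat_lit 2) (.cons (.rel (nat_lit 83890500)) .nil)) .nil)) .leaf) (nat_lit 11442876286352146) (.br (nat_lit 1) (.cons (.br (nat_lit 2) (.cons (.rel (nat_lit 83968080)) .nil)) .nil)) .leaf) (nat_lit 11442876289334805) (.br (nat_lit 0) (.cons (.br (nat_lit 1) (.cons (.rel (nat_lit 42012672)) .nil)) .nil)) (.node .leaf (nat_lit 11442876289363477) (.br (nat_lit 1) (.cons (.br (nat_lit 2) (.cons (.rel (nat_lit 83968080)) .nil)) .nil)) .leaf)) (nat_lit 11442876289435105) (.br (nat_lit 5) (.cons (.br (nat_lit 0) (.cons (.rel (nat_lit 4299429120)) (.cons (.rel (nat_lit 4299424260)) .nil))) .nil)) (.node (.node (.node .leaf (nat_lit 11442881530455417) (.br (nat_lit 0) (.cons (.br (nat_lit 2) (.cons (.rel (nat_lit 71435265)) .nil)) .nil)) .leaf) (nat_lit 11442922085751715) (.br (nat_lit 1) (.cons (.br (nat_lit 2) (.cons (.rel (nat_lit 168034560)) (.cons (.rel (nat_lit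 168034560)) (.cons (.rel (nat_lit 151064592)) .nil)))) (.cons (.br (nat_lit 5) (.cons (.rel (nat_lit 4311761154)) (.cons (.rel (nat_lit 4311750912)) (.cons (.rel (nat_lit 4311750912)) (.cons (.rel (nat_lit 4311765024)) (.cons (.rel (nat_lit 4311750912)) (.cons (.rel (nat_lit 4311750912)) (.cons (.rel (nat_lit 4311746052)) (.cons (.rel (nat_lit 4311752712)) (.cons (.rel (nat_lit 4330619904)) .nil)))))))))) .nil))) .leaf) (nat_lit 11442922086521763) (.br (nat_lit 0) (.cons (.br (nat_lit 3) (.cons (.rel (nat_lit 277087296)) .nil)) .nil)) (.node .leaf (nat_lit 11442922086733825) (.br (nat_lit 1) (.cons (.br (nat_lit 3) (.cons (.rel (nat_lit 303056964)) .nil)) .nil)) .leaf))) (nat_lit 11442922086736158) (.br (nat_lit 0) (.cons (.br (nat_lit 1) (.cons (.rel (nat_lit 37748868)) .nil)) .nil)) (.node (.node (.node (.node .leaf (nat_lit 11442924687203560) (.br (nat_lit 0) (.cons (.br (nat_lit 1) (.cons (.rel (nat_lit 21037065)) .nil)) .nil)) .leaf) (nat_lit 11442952561563660) (.br (nat_lit 2) (.cons (.br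 (nat_lit 5) (.cons (.rel (nat_lit 8724152337)) .nil)) .nil)) .leaf) (nat_lit 11442953095429503) (.br (nat_lit 0) (.cons (.br (nat_lit 1) (.cons (.rel (nat_lit 20971797)) .nil)) .nil)) (.node .leaf (nat_lit 11442953193563492) (.br (nat_lit 1) (.cons (.br (nat_lit 4) (.cons (.rel (nat_lit 1091698689)) .nil)) .nil)) .leaf)) (nat_lit 11442955776693479) (.br (nat_lit 4) (.cons (.br (nat_lit 5) (.cons (.rel (nat_lit 5368741893)) .nil)) .nil)) (.node (.node .leaf (nat_lit 11442955779556708) (.br (nat_lit 0) (.cons (.br (nat_lit 1) (.cons (.rel (nat_lit 37748868)) .nil)) .nil)) .leaf) (nat_lit 11442958412002535) (.br (nat_lit 2) (.cons (.br (nat_lit 4) (.cons (.rel (nat_lit 1140856128)) .nil)) .nil)) (.node .leaf (nat_lit 11442958412617740) (.br (nat_lit 1) (.cons (.br (nat_lit 2) (.cons (.rel (nat_lit 167837841)) .nil)) .nil)) .leaf))))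

/-- refutations 53 -/
def e53 : EX := (.node (.node (.node (.node (.node .leaf (nat_lit 11445881814435047) (.br (nat_lit 2) (.cons (.br (nat_lit 4) (.cons (.rel (nat_lit 2214871104)) .nil)) .nil)) .leaf) (nat_lit 11445882362600680) (.br (nat_lit 4) (.cons (.br (nat_lit 5) (.cons (.rel (nat_lit 5368718340)) .nil)) .nil)) .leaf) (nat_lit 11445882363880055) (.br (nat_lit 0) (.cons (.br (nat_lit 6) (.cons (.rel (nat_lit 17184063648)) .nil)) .nil)) (.node (.node .leaf (nat_lit 11445882363880680) (.br (nat_lit 0) (.cons (.br (nat_lit 4) (.cons (.rel (nat_lit 1077952536)) (.cons (.rel (nat_lit 2155892736)) .nil))) .nil)) .leaf) (nat_lit 11445884861779320) (.br (nat_lit 1) (.cons (.br (nat_lit 4) (.cons (.rel (nat_lit 2164408320)) .nil)) .nil)) .leaf)) (nat_lit 11445916170981503) (.br (nat_lit 0) (.cons (.br (nat_lit 1) (.cons (.rel (nat_lit 20972832)) .nil)) .nil)) (.node (.node (.node .leaf (nat_lit 11445916174164095) (.br (nat_lit 0) (.cons (.br (nat_lit 1) (.cons (.rel (nat_lit 37748868)) .nil))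 .nil)) .leaf) (nat_lit 11446102329867745) (.br (nat_lit 1) (.cons (.br (nat_lit 2) (.cons (.rel (nat_lit 151028736)) .nil)) .nil)) .leaf) (nat_lit 11446130922233360) (.br (nat_lit 0) (.cons (.br (nat_lit 1) (.cons (.rel (nat_lit 26230788)) .nil)) .nil)) (.node (.node .leaf (nat_lit 11446132073096730) (.br (nat_lit 1) (.cons (.br (nat_lit 2) (.cons (.rel (nat_lit 83968080)) .nil)) .nil)) .leaf) (nat_lit 11446183384896275) (.br (nat_lit 3) (.cons (.br (nat_lit 5) (.cons (.rel (nat_lit 8858403840)) .nil)) .nil)) .leaf))) (nat_lit 11446183411376760) (.br (nat_lit 1) (.cons (.br (nat_lit 4) (.cons (.rel (nat_lit 1107297288)) (.cons (.rel (nat_lit 1091575812)) .nil))) .nil)) (.node (.node (.node (.node .leaf (nat_lit 11446183411622068) (.br (nat_lit 0) (.cons (.br (nat_lit 4) (.cons (.rel (nat_lit 1077954561)) (.cons (.rel (nat_lit 1077937425)) .nil))) (.cons (.br (nat_lit 4) (.cons (.rel (nat_lit 1078071552)) (.cons (.rel (nat_lit 1077952536)) .nil))) .nil))) .leaf) (nat_lit 11446183411622520) (.br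 (nat_lit 1) (.cons (.br (nat_lit 4) (.cons (.rel (nat_lit 1090519362)) .nil)) .nil)) .leaf) (nat_lit 11446183412963960) (.br (nat_lit 4) (.cons (.br (nat_lit 6) (.cons (.rel (nat_lit 18253631760)) (.cons (.rel (nat_lit 18253611033)) (.cons (.rel (nat_lit 18253677057)) .nil)))) (.cons (.br (nat_lit 6) (.cons (.rel (nat_lit 18253613058)) (.cons (.rel (nat_lit 18253612068)) (.cons (.rel (nat_lit 18253684752)) .nil)))) (.cons (.br (nat_lit 1) (.cons (.rel (nat_lit 1090519362)) (.cons (.rel (nat_lit 1090535508)) (.cons (.rel (nat_lit 1090519362)) (.cons (.rel (nat_lit 1090535508)) (.cons (.rel (nat_lit 1090535508)) (.cons (.rel (nat_lit 1091059713)) .nil))))))) .nil)))) (.node (.node .leaf (nat_lit 11446183412964739) (.br (nat_lit 1) (.cons (.br (nat_lit 4) (.cons (.rel (nat_lit 1090519362)) .nil)) .nil)) .leaf) (nat_lit 11446183413948593) (.br (nat_lit 3) (.cons (.br (nat_lit 4) (.cons (.rel (nat_lit 1342177557)) .nil)) .nil)) .leaf)) (nat_lit 11446183413949048) (.br (nat_lit 0) (.cons (.br (nat_lit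 3) (.cons (.rel (nat_lit 272646273)) .nil)) .nil)) (.node (.node (.node .leaf (nat_lit 11446183413949353) (.br (nat_lit 1) (.cons (.br (nat_lit 5) (.cons (.rel (nat_lit 4311777300)) (.cons (.rel (nat_lit 8606842944)) (.cons (.rel (nat_lit 8606842944)) (.cons (.rel (nat_lit 4311875589)) (.cons (.rel (nat_lit 4311876624)) .nil)))))) .nil)) .leaf) (nat_lit 11446183414243335) (.br (nat_lit 3) (.cons (.br (nat_lit 4) (.cons (.br (nat_lit 6) (.cons (.rel (nat_lit 18253677057)) .nil)) .nil)) .nil)) .leaf) (nat_lit 11446183414252306) (.br (nat_lit 1) (.cons (.br (nat_lit 4) (.cons (.rel (nat_lit 1107394560)) .nil)) .nil)) (.node .leaf (nat_lit 11446188732326825) (.br (nat_lit 1) (.cons (.br (nat_lit 3) (.cons (.rel (nat_lit 285212964)) .nil)) .nil)) .leaf))))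

/-- refutations 54 -/
def e54 : EX := (.node (.node (.node (.node (.node .leaf (nat_lit 11446740722115320) (.br (nat_lit 1) (.cons (.br (nat_lit 5) (.cons (.rel (nat_lit 8607762432)) .nil)) .nil)) .leaf) (nat_lit 11446740936575027) (.br (nat_lit 0) (.cons (.br (nat_lit 1) (.cons (.rel (nat_lit 20971797)) .nil)) .nil)) .leaf) (nat_lit 11446746048142188) (.br (nat_lit 0) (.cons (.br (nat_lit 2) (.cons (.rel (nat_lit 71372832)) .nil)) .nil)) (.node (.node .leaf (nat_lit 11446829962020071) (.br (nat_lit 1) (.cons (.br (nat_lit 2) (.cons (.rel (nat_lit 151028736)) .nil)) .nil)) .leaf) (nat_lit 11446832900438301) (.br (nat_lit 1) (.cons (.br (nat_lit 2) (.cons (.rel (nat_lit 83918913)) .nil)) .nil)) .leaf)) (nat_lit 11446832900837376) (.br (nat_lit 2) (.cons (.br (nat_lit 0) (.cons (.rel (nat_lit 71573568)) (.cons (.rel (nat_lit 142607616)) (.cons (.rel (nat_lit 76038144)) .nil)))) .nil)) (.node (.node (.node .leaf (nat_lit 11446832901924071) (.br (nat_lit 1) (.cons (.br (nat_lit 4) (.cons (.rel (nat_lit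 1091108880)) .nil)) .nil)) .leaf) (nat_lit 11446835294250347) (.br (nat_lit 1) (.cons (.br (nat_lit 5) (.cons (.rel (nat_lit 4311827457)) (.cons (.rel (nat_lit 4311752712)) .nil))) (.cons (.br (nat_lit 5) (.cons (.rel (nat_lit 4311810321)) (.cons (.rel (nat_lit 4328787984)) .nil))) .nil))) .leaf) (nat_lit 11446835294543211) (.br (nat_lit 1) (.cons (.br (nat_lit 3) (.cons (.rel (nat_lit 285230100)) .nil)) .nil)) (.node .leaf (nat_lit 11446835294543904) (.br (nat_lit 0) (.cons (.br (nat_lit 5) (.cons (.rel (nat_lit 4303373316)) .nil)) .nil)) .leaf))) (nat_lit 11446835297102086) (.br (nat_lit 4) (.cons (.br (nat_lit 6) (.cons (.rel (nat_lit 18253611033)) .nil)) .nil)) (.node (.node (.node (.node .leaf (nat_lit 11446835297173806) (.br (nat_lit 1) (.cons (.br (nat_lit 5) (.cons (.rel (nat_lit 8623493124)) .nil)) .nil)) .leaf) (nat_lit 11446835297174139) (.br (nat_lit 1) (.cons (.br (nat_lit 4) (.cons (.rel (nat_lit 1107297288)) .nil)) .nil)) .leaf) (nat_lit 11446835800228015) (.br (nat_lit 0) (.cons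 (.br (nat_lit 4) (.cons (.rel (nat_lit 1077977088)) .nil)) .nil)) (.node .leaf (nat_lit 11446835800418311) (.br (nat_lit 4) (.cons (.br (nat_lit 6) (.cons (.rel (nat_lit 18253873248)) .nil)) .nil)) .leaf)) (nat_lit 11446990469340391) (.br (nat_lit 0) (.cons (.br (nat_lit 4) (.cons (.rel (nat_lit 1082131524)) .nil)) .nil)) (.node (.node (.node .leaf (nat_lit 11447170392348050) (.br (nat_lit 0) (.cons (.br (nat_lit 4) (.cons (.rel (nat_lit 1082392704)) .nil)) .nil)) .leaf) (nat_lit 11447170753086345) (.br (nat_lit 0) (.cons (.br (nat_lit 1) (.cons (.rel (nat_lit 21037065)) .nil)) .nil)) .leaf) (nat_lit 11447175547403771) (.br (nat_lit 1) (.cons (.br (nat_lit 0) (.cons (.rel (nat_lit 26218512)) (.cons (.rel (nat_lit 25165896)) .nil))) .nil)) (.node .leaf (nat_lit 11447175975019928) (.br (nat_lit 1) (.cons (.br (nat_lit 5) (.cons (.rel (nat_lit 4311750912)) .nil)) .nil)) .leaf))))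

/-- refutations 55 -/
def e55 : EX := (.node (.node (.node (.node .leaf (nat_lit 11447213700005345) (.br (nat_lit 1) (.cons (.br (nat_lit 3) (.cons (.rel (nat_lit 553910400)) .nil)) .nil)) .leaf) (nat_lit 11447213700469637) (.br (nat_lit 0) (.cons (.br (nat_lit 1) (.cons (.rel (nat_lit 21004800)) .nil)) .nil)) (.node .leaf (nat_lit 11447213702555910) (.br (nat_lit 1) (.cons (.br (nat_lit 4) (.cons (.rel (nat_lit 1090523232)) .nil)) .nil)) .leaf)) (nat_lit 11447268388117385) (.br (nat_lit 2) (.cons (.br (nat_lit 5) (.cons (.rel (nat_lit 8657044548)) .nil)) .nil)) (.node (.node .leaf (nat_lit 11447806506362088) (.br (nat_lit 1) (.cons (.br (nat_lit 5) (.cons (.rel (nat_lit 4311752712)) .nil)) .nil)) .leaf) (nat_lit 11447806506678583) (.br (nat_lit 1) (.cons (.br (nat_lit 2) (.cons (.rel (nat_lit 168034560)) .nil)) .nil)) .leaf)) (nat_lit 11447806507948832) (.br (nat_lit 1) (.cons (.br (nat_lit 4) (.cons (.rel (nat_lit 2164293897)) (.cons (.br (nat_lit 6) (.cons (.rel (nat_lit 17197699200)) (.cons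 (.rel (nat_lit 18253677057)) .nil))) .nil))) .nil)) (.node (.node (.node .leaf (nat_lit 11447806509136672) (.br (nat_lit 2) (.cons (.br (nat_lit 4) (.cons (.rel (nat_lit 1141969152)) .nil)) .nil)) .leaf) (nat_lit 11447808687645472) (.br (nat_lit 0) (.cons (.br (nat_lit 6) (.cons (.rel (nat_lit 17188262148)) .nil)) .nil)) (.node .leaf (nat_lit 11447866591353643) (.br (nat_lit 1) (.cons (.br (nat_lit 3) (.cons (.rel (nat_lit 285229065)) .nil)) .nil)) .leaf)) (nat_lit 11447867041436280) (.br (nat_lit 3) (.cons (.br (nat_lit 4) (.cons (.rel (nat_lit 1342242825)) .nil)) .nil)) (.node (.node .leaf (nat_lit 11447867156313616) (.br (nat_lit 1) (.cons (.br (nat_lit 5) (.cons (.rel (nat_lit 4311761154)) .nil)) .nil)) .leaf) (nat_lit 11447867239884314) (.br (nat_lit 1) (.cons (.br (nat_lit 4) (.cons (.rel (nat_lit 1090523232)) .nil)) .nil)) .leaf)))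

/-- refutations 56 -/
def e56 : EX := (.node (.node (.node (.node (.node (.node (.node .leaf (nat_lit 11448038434596072) (.br (nat_lit 4) (.cons (.br (nat_lit 1) (.cons (.rel (nat_lit 2164265472)) (.cons (.rel (nat_lit 1107297288)) .nil))) .nil)) .leaf) (nat_lit 11448043654856716) (.br (nat_lit 1) (.cons (.br (nat_lit 4) (.cons (.rel (nat_lit 2164265472)) (.cons (.rel (nat_lit 1091569152)) .nil))) (.cons (.br (nat_lit 4) (.cons (.rel (nat_lit 1107297288)) (.cons (.rel (nat_lit 1107558468)) .nil))) .nil))) (.node .leaf (nat_lit 11448106607494500) (.br (nat_lit 1) (.cons (.br (nat_lit 3) (.cons (.rel (nat_lit 285212964)) .nil)) .nil)) .leaf)) (nat_lit 11448107149827610) (.br (nat_lit 0) (.cons (.br (nat_lit 1) (.cons (.rel (nat_lit 26230788)) .nil)) .nil)) (.node (.node .leaf (nat_lit 11448107576070151) (.br (nat_lit 3) (.cons (.br (nat_lit 4) (.cons (.rel (nat_lit 2416181256)) .nil)) .nil)) .leaf) (nat_lit 11448112876423175) (.br (nat_lit 0) (.cons (.br (nat_lit 5) (.cons (.rel (nat_lit 8598327360))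 .nil)) .nil)) .leaf)) (nat_lit 11448112877407610) (.br (nat_lit 0) (.cons (.br (nat_lit 1) (.cons (.rel (nat_lit 41959680)) .nil)) .nil)) (.node (.node (.node .leaf (nat_lit 11448243970646027) (.br (nat_lit 0) (.cons (.br (nat_lit 1) (.cons (.rel (nat_lit 25165896)) .nil)) .nil)) .leaf) (nat_lit 11448244064858263) (.br (nat_lit 4) (.cons (.br (nat_lit 6) (.cons (.rel (nat_lit 18253743360)) .nil)) .nil)) .leaf) (nat_lit 11448244064859398) (.br (nat_lit 0) (.cons (.br (nat_lit 1) (.cons (.rel (nat_lit 21123108)) .nil)) .nil)) (.node (.node .leaf (nat_lit 11448244065525916) (.br (nat_lit 4) (.cons (.br (nat_lit 2) (.cons (.rel (nat_lit 1208090628)) (.cons (.rel (nat_lit 1208090628)) .nil))) .nil)) .leaf) (nat_lit 11448244173544825) (.br (nat_lit 2) (.cons (.br (nat_lit 5) (.cons (.rel (nat_lit 4362093060)) .nil)) .nil)) .leaf))) (nat_lit 11448244176399637) (.br (nat_lit 0) (.cons (.br (nat_lit 1) (.cons (.rel (nat_lit 21299280)) .nil)) .nil)) (.node (.node (.node (.node .leaf (nat_lit 11448244465574170)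 (.br (nat_lit 2) (.cons (.br (nat_lit 5) (.cons (.rel (nat_lit 4362076194)) .nil)) .nil)) .leaf) (nat_lit 11448244465575143) (.br (nat_lit 2) (.cons (.br (nat_lit 5) (.cons (.rel (nat_lit 4362093060)) .nil)) .nil)) (.node .leaf (nat_lit 11448244492608868) (.br (nat_lit 1) (.cons (.br (nat_lit 2) (.cons (.rel (nat_lit 168034560)) .nil)) .nil)) .leaf)) (nat_lit 11448244494934016) (.br (nat_lit 3) (.cons (.br (nat_lit 6) (.cons (.rel (nat_lit 17716740612)) .nil)) .nil)) (.node (.node .leaf (nat_lit 11448244494934177) (.br (nat_lit 0) (.cons (.br (nat_lit 1) (.cons (.rel (nat_lit 21110784)) .nil)) .nil)) .leaf) (nat_lit 11448244495165440) (.br (nat_lit 0) (.cons (.br (nat_lit 1) (.cons (.rel (nat_lit 21057792)) .nil)) .nil)) .leaf)) (nat_lit 11448244495229055) (.br (nat_lit 0) (.cons (.br (nat_lit 5) (.cons (.rel (nat_lit 4299169920)) .nil)) .nil)) (.node (.node (.node .leaf (nat_lit 11448244592709942) (.br (nat_lit 5) (.cons (.br (nat_lit 1) (.cons (.rel (nat_lit 8623493124)) (.cons (.rel (nat_lit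 8623493124)) .nil))) .nil)) .leaf) (nat_lit 11448244592710887) (.br (nat_lit 5) (.cons (.br (nat_lit 1) (.cons (.rel (nat_lit 4311875589)) (.cons (.rel (nat_lit 4311765024)) .nil))) .nil)) .leaf) (nat_lit 11448244593025180) (.br (nat_lit 1) (.cons (.br (nat_lit 2) (.cons (.rel (nat_lit 152305668)) .nil)) .nil)) (.node (.node .leaf (nat_lit 11448244593025325) (.br (nat_lit 0) (.cons (.br (nat_lit 1) (.cons (.rel (nat_lit 21110784)) .nil)) .nil)) .leaf) (nat_lit 11448244593272295) (.br (nat_lit 1) (.cons (.br (nat_lit 4) (.cons (.rel (nat_lit 1091575812)) .nil)) .nil)) .leaf)))) (nat_lit 11448244593343851) (.br (nat_lit 0) (.cons (.br (nat_lit 1) (.cons (.rel (nat_lit 20972832)) .nil)) .nil)) (.node (.node (.node (.node (.node .leaf (nat_lit 11448244593997031) (.br (nat_lit 1) (.cons (.br (nat_lit 4) (.cons (.rel (nat_lit 1091698689)) .nil)) .nil)) .leaf) (nat_lit 11448244595597622) (.br (nat_lit 2) (.cons (.br (nat_lit 5) (.cons (.rel (nat_lit 4362076194)) .nil)) .nil)) (.node .leaf (nat_lit 11448244595598567)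 (.br (nat_lit 3) (.cons (.br (nat_lit 4) (.cons (.br (nat_lit 2) (.cons (.br (nat_lit 5) (.cons (.rel (nat_lit 4362076194)) (.cons (.rel (nat_lit 4362174465)) .nil))) (.cons (.rel (nat_lit 335675397)) .nil))) .nil)) .nil)) .leaf)) (nat_lit 11448244599792871) (.br (nat_lit 3) (.cons (.br (nat_lit 0) (.cons (.rel (nat_lit 272908308)) (.cons (.rel (nat_lit 272646273)) .nil))) .nil)) (.node (.node .leaf (nat_lit 11448244600024295) (.br (nat_lit 1) (.cons (.br (nat_lit 2) (.cons (.rel (nat_lit 83918913)) .nil)) .nil)) .leaf) (nat_lit 11448244693373865) (.br (nat_lit 2) (.cons (.br (nat_lit 3) (.cons (.rel (nat_lit 335675397)) .nil)) .nil)) .leaf)) (nat_lit 11448244695175945) (.br (nat_lit 0) (.cons (.br (nat_lit 4) (.cons (.rel (nat_lit 1078003728)) (.cons (.rel (nat_lit 1077936390)) .nil))) .nil)) (.node (.node (.node .leaf (nat_lit 11448244696261915) (.br (nat_lit 3) (.cons (.br (nat_lit 2) (.cons (.rel (nat_lit 335550720)) (.cons (.rel (nat_lit 335550720)) .nil))) .nil)) .leaf) (nat_lit 11448244995975168)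 (.br (nat_lit 5) (.cons (.br (nat_lit 2) (.cons (.rel (nat_lit 4362077193)) (.cons (.rel (nat_lit 4362076194)) .nil))) .nil)) .leaf) (nat_lit 11448244995995105) (.br (nat_lit 2) (.cons (.br (nat_lit 5) (.cons (.rel (nat_lit 4362080784)) .nil)) .nil)) (.node (.node .leaf (nat_lit 11448244996695527) (.br (nat_lit 1) (.cons (.br (nat_lit 5) (.cons (.rel (nat_lit 4311875589)) .nil)) .nil)) .leaf) (nat_lit 11448244996716001) (.br (nat_lit 1) (.cons (.br (nat_lit 5) (.cons (.rel (nat_lit 8623493124)) .nil)) .nil)) .leaf))) (nat_lit 11448244996765696) (.br (nat_lit 2) (.cons (.br (nat_lit 5) (.cons (.rel (nat_lit 4362076194)) .nil)) .nil)) (.node (.node (.node (.node .leaf (nat_lit 11448244998023219) (.br (nat_lit 1) (.cons (.br (nat_lit 3) (.cons (.rel (nat_lit 285278232)) .nil)) .nil)) .leaf) (nat_lit 11448244998023295) (.br (nat_lit 1) (.cons (.br (nat_lit 2) (.cons (.rel (nat_lit 100729860)) (.cons (.rel (nat_lit 83895360)) .nil))) .nil)) .leaf) (nat_lit 11448244998178867) (.br (nat_lit 5) (.cons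 (.br (nat_lit 4) (.cons (.rel (nat_lit 5368709658)) (.cons (.rel (nat_lit 5368741893)) .nil))) .nil)) (.node (.node .leaf (nat_lit 11448244998252021) (.br (nat_lit 1) (.cons (.br (nat_lit 2) (.cons (.rel (nat_lit 151076868)) .nil)) .nil)) .leaf) (nat_lit 11448244998483445) (.br (nat_lit 2) (.cons (.br (nat_lit 4) (.cons (.rel (nat_lit 1140856128)) .nil)) .nil)) .leaf)) (nat_lit 11448245197966874) (.br (nat_lit 1) (.cons (.br (nat_lit 4) (.cons (.rel (nat_lit 1107394560)) .nil)) .nil)) (.node (.node (.node .leaf (nat_lit 11448246543061003) (.br (nat_lit 4) (.cons (.br (nat_lit 6) (.cons (.rel (nat_lit 36507223041)) .nil)) .nil)) .leaf) (nat_lit 11448246543620873) (.br (nat_lit 0) (.cons (.br (nat_lit 4) (.cons (.rel (nat_lit 1077937425)) .nil)) .nil)) .leaf) (nat_lit 11448246544347298) (.br (nat_lit 2) (.cons (.br (nat_lit 3) (.cons (.rel (nat_lit 335550720)) .nil)) .nil)) (.node (.node .leaf (nat_lit 11448246544697395) (.br (nat_lit 2) (.cons (.br (nat_lit 5) (.cons (.rel (nat_lit 4362076194))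 (.cons (.rel (nat_lit 4362076194)) .nil))) .nil)) .leaf) (nat_lit 11448246545735067) (.br (nat_lit 1) (.cons (.br (nat_lit 3) (.cons (.rel (nat_lit 285280257)) .nil)) .nil)) .leaf))))) (nat_lit 11448246545948672) (.br (nat_lit 4) (.cons (.br (nat_lit 5) (.cons (.rel (nat_lit 5369757825)) .nil)) .nil)) (.node (.node (.node (.node (.node (.node .leaf (nat_lit 11448246545948982) (.br (nat_lit 2) (.cons (.br (nat_lit 3) (.cons (.rel (nat_lit 335675397)) .nil)) .nil)) .leaf) (nat_lit 11448246545949927) (.br (nat_lit 4) (.cons (.br (nat_lit 5) (.cons (.br (nat_lit 2) (.cons (.rel (nat_lit 4362150912)) (.cons (.rel (nat_lit 2214658056)) .nil))) .nil)) .nil)) (.node .leaf (nat_lit 11448246774360875) (.br (nat_lit 5) (.cons (.br (nat_lit 1) (.cons (.rel (nat_lit 4311752712)) (.cons (.rel (nat_lit 4329046341)) .nil))) .nil)) .leaf)) (nat_lit 11448246776636892) (.br (nat_lit 0) (.cons (.br (nat_lit 1) (.cons (.rel (nat_lit 21037065)) .nil)) .nil)) (.node (.node .leaf (nat_lit 11448247065005438) (.br (nat_lit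 0) (.cons (.br (nat_lit 4) (.cons (.rel (nat_lit 1077937425)) .nil)) .nil)) .leaf) (nat_lit 11448247065815040) (.br (nat_lit 1) (.cons (.br (nat_lit 2) (.cons (.rel (nat_lit 83895360)) .nil)) .nil)) .leaf)) (nat_lit 11448247179288576) (.br (nat_lit 0) (.cons (.br (nat_lit 5) (.cons (.rel (nat_lit 4301275152)) .nil)) .nil)) (.node (.node (.node .leaf (nat_lit 11448247699383527) (.br (nat_lit 2) (.cons (.br (nat_lit 5) (.cons (.rel (nat_lit 4362093060)) .nil)) .nil)) .leaf) (nat_lit 11448247699614633) (.br (nat_lit 1) (.cons (.br (nat_lit 2) (.cons (.rel (nat_lit 83968080)) .nil)) .nil)) .leaf) (nat_lit 11448247843610625) (.br (nat_lit 1) (.cons (.br (nat_lit 2) (.cons (.rel (nat_lit 84410880)) .nil)) .nil)) (.node (.node .leaf (nat_lit 11448247843909010) (.br (nat_lit 0) (.cons (.br (nat_lit 3) (.cons (.rel (nat_lit 272695440)) .nil)) .nil)) .leaf) (nat_lit 11448247844627118) (.br (nat_lit 0) (.cons (.br (nat_lit 1) (.cons (.rel (nat_lit 21037065)) .nil)) .nil)) .leaf))) (nat_lit 11448247844931635)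 (.br (nat_lit 0) (.cons (.br (nat_lit 2) (.cons (.rel (nat_lit 75564096)) .nil)) .nil)) (.node (.node (.node (.node .leaf (nat_lit 11448247846182912) (.br (nat_lit 4) (.cons (.br (nat_lit 5) (.cons (.rel (nat_lit 5368725792)) .nil)) .nil)) .leaf) (nat_lit 11448249289226391) (.br (nat_lit 1) (.cons (.br (nat_lit 5) (.cons (.rel (nat_lit 4311875589)) .nil)) .nil)) (.node .leaf (nat_lit 11448249289227495) (.br (nat_lit 1) (.cons (.br (nat_lit 4) (.cons (.rel (nat_lit 1091698689)) .nil)) .nil)) .leaf)) (nat_lit 11448249307374254) (.br (nat_lit 2) (.cons (.br (nat_lit 3) (.cons (.rel (nat_lit 335560962)) .nil)) .nil)) (.node (.node .leaf (nat_lit 11448249308511643) (.br (nat_lit 1) (.cons (.br (nat_lit 6) (.cons (.rel (nat_lit 17196908610)) .nil)) .nil)) .leaf) (nat_lit 11448249309767680) (.br (nat_lit 2) (.cons (.br (nat_lit 5) (.cons (.rel (nat_lit 4362076194)) .nil)) .nil)) .leaf)) (nat_lit 11448249810423935) (.br (nat_lit 1) (.cons (.br (nat_lit 3) (.cons (.rel (nat_lit 285217824)) .nil)) .nil))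 (.node (.node (.node .leaf (nat_lit 11448249810998753) (.br (nat_lit 1) (.cons (.br (nat_lit 4) (.cons (.rel (nat_lit 1091600400)) .nil)) .nil)) .leaf) (nat_lit 11448249813311798) (.br (nat_lit 1) (.cons (.br (nat_lit 4) (.cons (.rel (nat_lit 1091698689)) .nil)) .nil)) .leaf) (nat_lit 11448249813312993) (.br (nat_lit 1) (.cons (.br (nat_lit 2) (.cons (.rel (nat_lit 83918913)) .nil)) .nil)) (.node (.node .leaf (nat_lit 11448249899802780) (.br (nat_lit 4) (.cons (.br (nat_lit 5) (.cons (.rel (nat_lit 5368725792)) .nil)) .nil)) .leaf) (nat_lit 11448249900140595) (.br (nat_lit 3) (.cons (.br (nat_lit 5) (.cons (.rel (nat_lit 9126805824)) (.cons (.rel (nat_lit 8859680772)) (.cons (.rel (nat_lit 8858451972)) .nil)))) (.cons (.br (nat_lit 1) (.cons (.rel (nat_lit 285229065)) (.cons (.rel (nat_lit 285212964)) (.cons (.rel (nat_lit 285302784)) (.cons (.rel (nat_lit 285212964)) (.cons (.rel (nat_lit 285249792)) .nil)))))) (.cons (.br (nat_lit 5) (.cons (.rel (nat_lit 4563697665)) (.cons (.rel (nat_lit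 4563669252)) (.cons (.rel (nat_lit 8858451972)) .nil)))) .nil)))) .leaf)))) (nat_lit 11448249901393153) (.br (nat_lit 0) (.cons (.br (nat_lit 2) (.cons (.rel (nat_lit 71307528)) .nil)) .nil)) (.node (.node (.node (.node (.node .leaf (nat_lit 11448249901596025) (.br (nat_lit 3) (.cons (.br (nat_lit 4) (.cons (.rel (nat_lit 1610614848)) .nil)) .nil)) .leaf) (nat_lit 11448249901596030) (.br (nat_lit 0) (.cons (.br (nat_lit 1) (.cons (.rel (nat_lit 20971797)) .nil)) .nil)) (.node .leaf (nat_lit 11448249923670322) (.br (nat_lit 2) (.cons (.br (nat_lit 5) (.cons (.rel (nat_lit 4362076194)) .nil)) .nil)) .leaf)) (nat_lit 11448249924957415) (.br (nat_lit 0) (.cons (.br (nat_lit 4) (.cons (.br (nat_lit 5) (.cons (.rel (nat_lit 5368841217)) .nil)) .nil)) .nil)) (.node (.node .leaf (nat_lit 11448249926486322) (.br (nat_lit 1) (.cons (.br (nat_lit 3) (.cons (.rel (nat_lit 285229065)) .nil)) .nil)) .leaf) (nat_lit 11448250238817193) (.br (nat_lit 1) (.cons (.br (nat_lit 6) (.cons (.rel (nat_lit 17196663297))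 .nil)) .nil)) .leaf)) (nat_lit 11448250239531169) (.br (nat_lit 1) (.cons (.br (nat_lit 2) (.cons (.rel (nat_lit 100729860)) .nil)) .nil)) (.node (.node (.node .leaf (nat_lit 11448250240104753) (.br (nat_lit 1) (.cons (.br (nat_lit 2) (.cons (.rel (nat_lit 83890500)) .nil)) .nil)) .leaf) (nat_lit 11448250240146715) (.br (nat_lit 0) (.cons (.br (nat_lit 1) (.cons (.rel (nat_lit 20972832)) .nil)) .nil)) .leaf) (nat_lit 11448250241131803) (.br (nat_lit 1) (.cons (.br (nat_lit 5) (.cons (.rel (nat_lit 4311750912)) .nil)) .nil)) (.node (.node .leaf (nat_lit 11448250443764022) (.br (nat_lit 6) (.cons (.br (nat_lit 0) (.cons (.rel (nat_lit 34368127056)) (.cons (.rel (nat_lit 17184325638)) .nil))) .nil)) .leaf) (nat_lit 11448250444028810) (.br (nat_lit 0) (.cons (.br (nat_lit 1) (.cons (.rel (nat_lit 42012672)) .nil)) .nil)) .leaf))) (nat_lit 11448250445051111) (.br (nat_lit 1) (.cons (.br (nat_lit 2) (.cons (.rel (nat_lit 84955392)) .nil)) .nil)) (.node (.node (.node (.node .leaf (nat_lit 11448250445052065)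 (.br (nat_lit 0) (.cons (.br (nat_lit 5) (.cons (.rel (nat_lit 4299505665)) .nil)) .nil)) .leaf) (nat_lit 11448250445400115) (.br (nat_lit 6) (.cons (.br (nat_lit 1) (.cons (.br (nat_lit 5) (.cons (.rel (nat_lit 4328587392)) (.cons (.rel (nat_lit 4328800260)) (.cons (.rel (nat_lit 21474836868)) (.cons (.rel (nat_lit 25769820180)) .nil))))) (.cons (.rel (nat_lit 17196670992)) (.cons (.rel (nat_lit 34393292820)) .nil)))) (.cons (.br (nat_lit 1) (.cons (.rel (nat_lit 17196647430)) (.cons (.rel (nat_lit 17213693952)) (.cons (.rel (nat_lit 17196647430)) .nil)))) .nil))) .leaf) (nat_lit 11448250445400970) (.br (nat_lit 1) (.cons (.br (nat_lit 2) (.cons (.rel (nat_lit 100664592)) .nil)) .nil)) (.node (.node .leaf (nat_lit 11448250445614311) (.br (nat_lit 2) (.cons (.br (nat_lit 5) (.cons (.rel (nat_lit 4362093060)) .nil)) .nil)) .leaf) (nat_lit 11448250445666941) (.br (nat_lit 0) (.cons (.br (nat_lit 1) (.cons (.rel (nat_lit 20972832)) .nil)) .nil)) .leaf)) (nat_lit 11448250446599399) (.br (nat_lit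 1) (.cons (.br (nat_lit 2) (.cons (.rel (nat_lit 84410880)) .nil)) .nil)) (.node (.node (.node .leaf (nat_lit 11448250446599425) (.br (nat_lit 2) (.cons (.br (nat_lit 6) (.cons (.rel (nat_lit 17247240516)) .nil)) .nil)) .leaf) (nat_lit 11448250446651702) (.br (nat_lit 1) (.cons (.br (nat_lit 6) (.cons (.rel (nat_lit 17196683268)) .nil)) .nil)) .leaf) (nat_lit 11448250446652647) (.br (nat_lit 6) (.cons (.br (nat_lit 2) (.cons (.br (nat_lit 5) (.cons (.rel (nat_lit 4362093060)) (.cons (.rel (nat_lit 21474841728)) .nil))) (.cons (.rel (nat_lit 34426863936)) .nil))) .nil)) (.node (.node .leaf (nat_lit 11448250446652673) (.br (nat_lit 1) (.cons (.br (nat_lit 5) (.cons (.rel (nat_lit 8623493124)) .nil)) .nil)) .leaf) (nat_lit 11448250446883478) (.br (nat_lit 0) (.cons (.br (nat_lit 2) (.cons (.rel (nat_lit 71368962)) .nil)) .nil)) .leaf))))))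

/-- refutations 57 -/
def e57 : EX := (.node .leaf (nat_lit 11201816421731591) (.br (nat_lit 0) (.cons (.br (nat_lit 1) (.cons (.rel (nat_lit 20989968)) .nil)) .nil)) .leaf)

/-- refutations 58 -/
def e58 : EX := (.node .leaf (nat_lit 11481917763164912) (.br (nat_lit 0) (.cons (.br (nat_lit 1) (.cons (.rel (nat_lit 41959680)) .nil)) .nil)) .leaf)

/-- refutations 59 -/
def e59 : EX := (.node (.node .leaf (nat_lit 11980496738994451) (.br (nat_lit 1) (.cons (.br (nat_lit 2) (.cons (.rel (nat_lit 168034560)) .nil)) .nil)) .leaf) (nat_lit 11986744204944786) (.br (nat_lit 5) (.cons (.br (nat_lit 0) (.cons (.rel (nat_lit 4303356180)) (.cons (.rel (nat_lit 4299169920)) .nil))) .nil)) (.node .leaf (nat_lit 11986744669128966) (.br (nat_lit 4) (.cons (.br (nat_lit 5) (.cons (.br (nat_lit 1) (.cons (.rel (nat_lit 4311746052)) (.cons (.rel (nat_lit 2164260882)) .nil))) .nil)) .nil)) .leaf))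

/-- refutations 60 -/
def e60 : EX := (.node (.node (.node .leaf (nat_lit 11993224906845066) (.br (nat_lit 1) (.cons (.br (nat_lit 4) (.cons (.rel (nat_lit 1090523232)) .nil)) .nil)) .leaf) (nat_lit 11993224907940526) (.br (nat_lit 0) (.cons (.br (nat_lit 1) (.cons (.rel (nat_lit 25165896)) .nil)) .nil)) (.node .leaf (nat_lit 11993601940934018) (.br (nat_lit 1) (.cons (.br (nat_lit 5) (.cons (.rel (nat_lit 4311750912)) .nil)) .nil)) .leaf)) (nat_lit 11993601941220583) (.br (nat_lit 5) (.cons (.br (nat_lit 6) (.cons (.rel (nat_lit 25769820180)) .nil)) .nil)) (.node (.node .leaf (nat_lit 11993601943543943) (.br (nat_lit 5) (.cons (.br (nat_lit 6) (.cons (.rel (nat_lit 38654713872)) .nil)) .nil)) .leaf) (nat_lit 11993601943545109) (.br (nat_lit 0) (.cons (.br (nat_lit 2) (.cons (.rel (nat_lit 71319840)) .nil)) .nil)) .leaf))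

/-- refutations 61 -/
def e61 : EX := (.node (.node (.node .leaf (nat_lit 11892841967752594) (.br (nat_lit 0) (.cons (.br (nat_lit 1) (.cons (.rel (nat_lit 21038100)) .nil)) .nil)) .leaf) (nat_lit 11892841968838034) (.br (nat_lit 0) (.cons (.br (nat_lit 1) (.cons (.rel (nat_lit 20989968)) .nil)) .nil)) (.node .leaf (nat_lit 11893452736813316) (.br (nat_lit 0) (.cons (.br (nat_lit 2) (.cons (.rel (nat_lit 71323665)) .nil)) .nil)) .leaf)) (nat_lit 11894526480031226) (.br (nat_lit 0) (.cons (.br (nat_lit 1) (.cons (.rel (nat_lit 21004800)) .nil)) .nil)) (.node (.node .leaf (nat_lit 11898777953355279) (.br (nat_lit 1) (.cons (.br (nat_lit 5) (.cons (.rel (nat_lit 4330619904)) .nil)) .nil)) .leaf) (nat_lit 11898869618907421) (.br (nat_lit 0) (.cons (.br (nat_lit 2) (.cons (.rel (nat_lit 71305728)) .nil)) .nil)) .leaf))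

/-- refutations 62 -/
def e62 : EX := (.node (.node (.node .leaf (nat_lit 12004408923332090) (.br (nat_lit 0) (.cons (.br (nat_lit 1) (.cons (.rel (nat_lit 20988933)) .nil)) .nil)) .leaf) (nat_lit 12004408924364282) (.br (nat_lit 0) (.cons (.br (nat_lit 3) (.cons (.rel (nat_lit 272958465)) .nil)) .nil)) (.node .leaf (nat_lit 12010990441650928) (.br (nat_lit 1) (.cons (.br (nat_lit 5) (.cons (.rel (nat_lit 8606842944)) .nil)) .nil)) .leaf)) (nat_lit 12011194610949397) (.br (nat_lit 0) (.cons (.br (nat_lit 1) (.cons (.rel (nat_lit 21037065)) .nil)) .nil)) (.node (.node .leaf (nat_lit 12011199375409332) (.br (nat_lit 1) (.cons (.br (nat_lit 3) (.cons (.rel (nat_lit 285280257)) (.cons (.rel (nat_lit 285249792)) .nil))) .nil)) .leaf) (nat_lit 13213290215309574) (.br (nat_lit 0) (.cons (.br (nat_lit 4) (.cons (.rel (nat_lit 2155892736)) (.cons (.rel (nat_lit 1077952536)) .nil))) .nil)) .leaf))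

/-- refutations 63 -/
def e63 : EX := (.node (.node .leaf (nat_lit 13288640662838805) (.br (nat_lit 1) (.cons (.br (nat_lit 2) (.cons (.rel (nat_lit 151015425)) .nil)) .nil)) .leaf) (nat_lit 13294985933507360) (.br (nat_lit 1) (.cons (.br (nat_lit 4) (.cons (.rel (nat_lit 1090523232)) .nil)) .nil)) (.node .leaf (nat_lit 13295426856558877) (.br (nat_lit 3) (.cons (.br (nat_lit 4) (.cons (.rel (nat_lit 2684424192)) .nil)) .nil)) .leaf))

/-- refutations 64 -/
def e64 : EX := (.node .leaf (nat_lit 13641985104338458) (.br (nat_lit 0) (.cons (.br (nat_lit 1) (.cons (.rel (nat_lit 20975622)) .nil)) .nil)) .leaf)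

/-- refutations 65 -/
def e65 : EX := (.node (.node (.node .leaf (nat_lit 13645120430189845) (.br (nat_lit 0) (.cons (.br (nat_lit 3) (.cons (.rel (nat_lit 541065249)) .nil)) .nil)) .leaf) (nat_lit 13645126109451745) (.br (nat_lit 4) (.cons (.br (nat_lit 5) (.cons (.rel (nat_lit 5368711680)) .nil)) .nil)) .leaf) (nat_lit 13645126109504868) (.br (nat_lit 1) (.cons (.br (nat_lit 2) (.cons (.rel (nat_lit 83895360)) .nil)) .nil)) (.node (.node .leaf (nat_lit 13647273590264560) (.br (nat_lit 5) (.cons (.br (nat_lit 6) (.cons (.rel (nat_lit 25769820180)) .nil)) .nil)) .leaf) (nat_lit 13647273591900912) (.br (nat_lit 1) (.cons (.br (nat_lit 2) (.cons (.rel (nat_lit 151028736)) (.cons (.rel (nat_lit 84935700)) .nil))) (.cons (.br (nat_lit 2) (.cons (.rel (nat_lit 100729860)) (.cons (.rel (nat_lit 100664592)) .nil))) .nil))) .leaf))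

/-- refutations 68 -/
def e68 : EX := (.node (.node (.node .leaf (nat_lit 13741050017159348) (.br (nat_lit 3) (.cons (.br (nat_lit 4) (.cons (.rel (nat_lit 1342210560)) .nil)) .nil)) .leaf) (nat_lit 13741050017159479) (.br (nat_lit 0) (.cons (.br (nat_lit 2) (.cons (.rel (nat_lit 142607616)) .nil)) .nil)) (.node .leaf (nat_lit 13741050018192667) (.br (nat_lit 1) (.cons (.br (nat_lit 4) (.cons (.rel (nat_lit 1090519362)) .nil)) .nil)) .leaf)) (nat_lit 13742140938852663) (.br (nat_lit 1) (.cons (.br (nat_lit 3) (.cons (.rel (nat_lit 285217824)) (.cons (.rel (nat_lit 285344256)) .nil))) .nil)) (.node (.node .leaf (nat_lit 13745962436335796) (.br (nat_lit 4) (.cons (.br (nat_lit 5) (.cons (.br (nat_lit 0) (.cons (.rel (nat_lit 1077936390)) (.cons (.rel (nat_lit 1077977088)) (.cons (.rel (nat_lit 4303360005)) .nil)))) (.cons (.rel (nat_lit 5368711680)) .nil))) .nil)) .leaf) (nat_lit 13747501059024103) (.br (nat_lit 1) (.cons (.br (nat_lit 6) (.cons (.rel (nat_lit 17196670992)) .nil)) .nil)) .leaf))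

/-- refutations 69 -/
def e69 : EX := (.node (.node (.node .leaf (nat_lit 14180608883040407) (.br (nat_lit 0) (.cons (.br (nat_lit 1) (.cons (.rel (nat_lit 20988933)) .nil)) .nil)) .leaf) (nat_lit 14185764309550467) (.br (nat_lit 0) (.cons (.br (nat_lit 2) (.cons (.rel (nat_lit 71336976)) .nil)) .nil)) (.node .leaf (nat_lit 14185764311801856) (.br (nat_lit 0) (.cons (.br (nat_lit 3) (.cons (.rel (nat_lit 541065249)) .nil)) .nil)) .leaf)) (nat_lit 14185767476903424) (.br (nat_lit 0) (.cons (.br (nat_lit 1) (.cons (.rel (nat_lit 20975622)) .nil)) .nil)) (.node (.node .leaf (nat_lit 14186003359712784) (.br (nat_lit 0) (.cons (.br (nat_lit 1) (.cons (.rel (nat_lit 21038100)) .nil)) .nil)) .leaf) (nat_lit 14187301907226636) (.br (nat_lit 1) (.cons (.br (nat_lit 0) (.cons (.rel (nat_lit 20988933)) (.cons (.rel (nat_lit 37748868)) .nil))) .nil)) .leaf))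

/-- refutations 70 -/
def e70 : EX := (.node (.node (.node .leaf (nat_lit 14191210328080696) (.br (nat_lit 0) (.cons (.br (nat_lit 6) (.cons (.rel (nat_lit 34368127056)) .nil)) .nil)) .leaf) (nat_lit 14191210330334121) (.br (nat_lit 0) (.cons (.br (nat_lit 1) (.cons (.rel (nat_lit 20976657)) .nil)) .nil)) (.node .leaf (nat_lit 14192419562702055) (.br (nat_lit 6) (.cons (.br (nat_lit 5) (.cons (.rel (nat_lit 25769807904)) (.cons (.rel (nat_lit 21475115040)) (.cons (.rel (nat_lit 25769807904)) .nil)))) .nil)) .leaf)) (nat_lit 14192419562702211) (.br (nat_lit 0) (.cons (.br (nat_lit 3) (.cons (.rel (nat_lit 272896032)) .nil)) .nil)) (.node (.node .leaf (nat_lit 14192421508858632) (.br (nat_lit 1) (.cons (.br (nat_lit 5) (.cons (.rel (nat_lit 8607762432)) .nil)) .nil)) .leaf) (nat_lit 14192424763638536) (.br (nat_lit 6) (.cons (.br (nat_lit 1) (.cons (.rel (nat_lit 17196647430)) (.cons (.rel (nat_lit 17196646440)) .nil))) .nil)) (.node .leaf (nat_lit 14192630922013424) (.br (nat_lit 0) (.cons (.br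 (nat_lit 3) (.cons (.rel (nat_lit 273032196)) .nil)) .nil)) .leaf)))

/-- refutations 71 -/
def e71 : EX := (.node .leaf (nat_lit 13768300453176826) (.br (nat_lit 0) (.cons (.br (nat_lit 2) (.cons (.rel (nat_lit 71319840)) .nil)) .nil)) .leaf)

/-- refutations 72 -/
def e72 : EX := (.node (.node (.node (.node .leaf (nat_lit 14268595482400221) (.br (nat_lit 1) (.cons (.br (nat_lit 2) (.cons (.rel (nat_lit 168034560)) .nil)) .nil)) .leaf) (nat_lit 14268595608233497) (.br (nat_lit 0) (.cons (.br (nat_lit 1) (.cons (.rel (nat_lit 20989968)) .nil)) .nil)) .leaf) (nat_lit 14272738594923433) (.br (nat_lit 0) (.cons (.br (nat_lit 3) (.cons (.rel (nat_lit 272646273)) .nil)) .nil)) (.node .leaf (nat_lit 14272741015036841) (.br (nat_lit 1) (.cons (.br (nat_lit 2) (.cons (.rel (nat_lit 152305668)) .nil)) .nil)) .leaf)) (nat_lit 14279515403199271) (.br (nat_lit 0) (.cons (.br (nat_lit 4) (.cons (.rel (nat_lit 1083183105)) .nil)) .nil)) (.node (.node .leaf (nat_lit 14280586609040761) (.br (nat_lit 1) (.cons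 (.br (nat_lit 3) (.cons (.rel (nat_lit 285229065)) .nil)) .nil)) .leaf) (nat_lit 14280586610410409) (.br (nat_lit 1) (.cons (.br (nat_lit 4) (.cons (.rel (nat_lit 1091698689)) .nil)) .nil)) (.node .leaf (nat_lit 14280586652568304) (.br (nat_lit 1) (.cons (.br (nat_lit 2) (.cons (.rel (nat_lit 100663557)) .nil)) .nil)) .leaf)))

/-- refutations 73 -/
def e73 : EX := (.node (.node (.node (.node .leaf (nat_lit 15516412270600822) (.br (nat_lit 4) (.cons (.br (nat_lit 5) (.cons (.rel (nat_lit 5368742928)) .nil)) .nil)) .leaf) (nat_lit 15516416540380698) (.br (nat_lit 0) (.cons (.br (nat_lit 1) (.cons (.rel (nat_lit 21038100)) .nil)) .nil)) (.node .leaf (nat_lit 15516416540893321) (.br (nat_lit 0) (.cons (.br (nat_lit 1) (.cons (.rel (nat_lit 21037065)) .nil)) .nil)) .leaf)) (nat_lit 15516416542193815) (.br (nat_lit 1) (.cons (.br (nat_lit 6) (.cons (.rel (nat_lit 17196648465)) .nil)) .nil)) (.node (.node .leaf (nat_lit 15516833158008839) (.br (nat_lit 1) (.cons (.br (nat_lit 2) (.cons (.rel (nat_lit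 100668417)) .nil)) .nil)) .leaf) (nat_lit 15517447837454468) (.br (nat_lit 1) (.cons (.br (nat_lit 2) (.cons (.rel (nat_lit 168034560)) .nil)) .nil)) (.node .leaf (nat_lit 15517448286249272) (.br (nat_lit 0) (.cons (.br (nat_lit 1) (.cons (.rel (nat_lit 21038100)) .nil)) .nil)) .leaf))) (nat_lit 15517639794208150) (.br (nat_lit 0) (.cons (.br (nat_lit 1) (.cons (.rel (nat_lit 38012928)) .nil)) .nil)) (.node (.node (.node .leaf (nat_lit 15517645512733297) (.br (nat_lit 2) (.cons (.br (nat_lit 4) (.cons (.rel (nat_lit 1140851268)) .nil)) .nil)) .leaf) (nat_lit 15518900006163993) (.br (nat_lit 0) (.cons (.br (nat_lit 1) (.cons (.rel (nat_lit 20971797)) .nil)) .nil)) (.node .leaf (nat_lit 15521780142651429) (.br (nat_lit 0) (.cons (.br (nat_lit 5) (.cons (.rel (nat_lit 4303373316)) .nil)) .nil)) .leaf)) (nat_lit 15521783658937196) (.br (nat_lit 0) (.cons (.br (nat_lit 2) (.cons (.rel (nat_lit 71323665)) .nil)) .nil)) (.node (.node .leaf (nat_lit 15521783658937721) (.br (nat_lit 0) (.cons (.br (nat_lit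 1) (.cons (.rel (nat_lit 20972832)) .nil)) .nil)) .leaf) (nat_lit 15522153026124652) (.br (nat_lit 0) (.cons (.br (nat_lit 1) (.cons (.rel (nat_lit 20976657)) .nil)) .nil)) (.node .leaf (nat_lit 15522153028658553) (.br (nat_lit 0) (.cons (.br (nat_lit 1) (.cons (.rel (nat_lit 20972832)) .nil)) .nil)) .leaf))))

/-- refutations 74 -/
def e74 : EX := (.node (.node .leaf (nat_lit 15528382320874147) (.br (nat_lit 0) (.cons (.br (nat_lit 1) (.cons (.rel (nat_lit 20975622)) .nil)) .nil)) .leaf) (nat_lit 15529632256805025) (.br (nat_lit 0) (.cons (.br (nat_lit 3) (.cons (.rel (nat_lit 272896032)) .nil)) .nil)) (.node .leaf (nat_lit 15529634861919638) (.br (nat_lit 0) (.cons (.br (nat_lit 1) (.cons (.rel (nat_lit 21038100)) .nil)) .nil)) .leaf))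

/-- refutations 75 -/
def e75 : EX := (.node (.node (.node .leaf (nat_lit 15833411530326077) (.br (nat_lit 0) (.cons (.br (nat_lit 1) (.cons (.rel (nat_lit 20975622)) .nil)) .nil)) .leaf) (nat_lit 15834256485462827) (.br (nat_lit 0) (.cons (.br (nat_lit 3) (.cons (.rel (nat_lit 274726917)) .nil)) .nil)) .leaf) (nat_lit 15841002812085604) (.br (nat_lit 1) (.cons (.br (nat_lit 4) (.cons (.rel (nat_lit 1090585665)) .nil)) .nil)) (.node .leaf (nat_lit 15841005447394660) (.br (nat_lit 0) (.cons (.br (nat_lit 1) (.cons (.rel (nat_lit 21110784)) .nil)) .nil)) .leaf))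

/-- refutations 76 -/
def e76 : EX := (.node (.node (.node (.node .leaf (nat_lit 15844191769673185) (.br (nat_lit 0) (.cons (.br (nat_lit 1) (.cons (.rel (nat_lit 21038100)) .nil)) .nil)) .leaf) (nat_lit 15845217240464896) (.br (nat_lit 0) (.cons (.br (nat_lit 1) (.cons (.rel (nat_lit 21037065)) .nil)) .nil)) .leaf) (nat_lit 15845220594795303) (.br (nat_lit 0) (.cons (.br (nat_lit 2) (.cons (.rel (nat_lit 75497793)) .nil)) .nil)) (.node .leaf (nat_lit 15845221959578256) (.br (nat_lit 0) (.cons (.br (nat_lit 1) (.cons (.rel (nat_lit 41959680)) .nil)) .nil)) .leaf)) (nat_lit 15845222606659590) (.br (nat_lit 2) (.cons (.br (nat_lit 0) (.cons (.rel (nat_lit 71319840)) (.cons (.rel (nat_lit 71312388)) .nil))) .nil)) (.node (.node (.node .leaf (nat_lit 15845223214393350) (.br (nat_lit 0) (.cons (.br (nat_lit 1) (.cons (.rel (nat_lit 26230788)) .nil)) .nil)) .leaf) (nat_lit 15845223214691585) (.br (nat_lit 0) (.cons (.br (nat_lit 2) (.cons (.rel (nat_lit 142607616)) .nil)) .nil)) .leaf) (nat_lit 15846291604570992)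 (.br (nat_lit 0) (.cons (.br (nat_lit 3) (.cons (.rel (nat_lit 272646273)) .nil)) .nil)) (.node .leaf (nat_lit 15846296848651495) (.br (nat_lit 0) (.cons (.br (nat_lit 2) (.cons (.rel (nat_lit 71305728)) .nil)) .nil)) .leaf)))

/-- refutations 77 -/
def e77 : EX := (.node (.node (.node .leaf (nat_lit 15482469626405795) (.br (nat_lit 1) (.cons (.br (nat_lit 2) (.cons (.rel (nat_lit 83918913)) .nil)) .nil)) .leaf) (nat_lit 15483763453338377) (.br (nat_lit 2) (.cons (.br (nat_lit 6) (.cons (.rel (nat_lit 17246978337)) .nil)) .nil)) .leaf) (nat_lit 15493473331950228) (.br (nat_lit 0) (.cons (.br (nat_lit 4) (.cons (.rel (nat_lit 1082131524)) .nil)) .nil)) (.node (.node .leaf (nat_lit 15493473334207241) (.br (nat_lit 1) (.cons (.br (nat_lit 2) (.cons (.rel (nat_lit 100729860)) .nil)) .nil)) .leaf) (nat_lit 15493473334207900) (.br (nat_lit 2) (.cons (.br (nat_lit 6) (.cons (.rel (nat_lit 17246978337)) .nil)) .nil)) .leaf))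

/-- refutations 78 -/
def e78 : EX := (.node (.node (.node (.node .leaf (nat_lit 15850831285592201) (.br (nat_lit 0) (.cons (.br (nat_lit 1) (.cons (.rel (nat_lit 20972832)) .nil)) .nil)) .leaf) (nat_lit 15852111823380615) (.br (nat_lit 0) (.cons (.br (nat_lit 1) (.cons (.rel (nat_lit 21004800)) .nil)) .nil)) (.node .leaf (nat_lit 15853203263621131) (.br (nat_lit 4) (.cons (.br (nat_lit 1) (.cons (.rel (nat_lit 1091600400)) (.cons (.rel (nat_lit 1090519362)) .nil))) .nil)) .leaf)) (nat_lit 15853203265167371) (.br (nat_lit 4) (.cons (.br (nat_lit 1) (.cons (.rel (nat_lit 1090519362)) (.cons (.rel (nat_lit 1090519362)) .nil))) .nil)) (.node (.node .leaf (nat_lit 15855988490487071) (.br (nat_lit 0) (.cons (.br (nat_lit 1) (.cons (.rel (nat_lit 21037065)) .nil)) .nil)) .leaf) (nat_lit 15856461167218050) (.br (nat_lit 0) (.cons (.br (nat_lit 1) (.cons (.rel (nat_lit 25691136)) .nil)) .nil)) (.node .leaf (nat_lit 15856467438767586) (.br (nat_lit 1) (.cons (.br (nat_lit 4) (.cons (.rel (nat_lit 1107297288))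 .nil)) .nil)) .leaf))) (nat_lit 15863883815996898) (.br (nat_lit 0) (.cons (.br (nat_lit 1) (.cons (.rel (nat_lit 26218512)) .nil)) .nil)) (.node (.node (.node .leaf (nat_lit 15863885477751594) (.br (nat_lit 0) (.cons (.br (nat_lit 1) (.cons (.rel (nat_lit 42012672)) .nil)) .nil)) .leaf) (nat_lit 15863888519156464) (.br (nat_lit 0) (.cons (.br (nat_lit 1) (.cons (.rel (nat_lit 21037065)) .nil)) .nil)) (.node .leaf (nat_lit 15863888623706247) (.br (nat_lit 2) (.cons (.br (nat_lit 4) (.cons (.rel (nat_lit 1140981840)) .nil)) .nil)) .leaf)) (nat_lit 15863889142253703) (.br (nat_lit 0) (.cons (.br (nat_lit 1) (.cons (.rel (nat_lit 21110784)) .nil)) .nil)) (.node (.node .leaf (nat_lit 15863889142255074) (.br (nat_lit 4) (.cons (.br (nat_lit 0) (.cons (.rel (nat_lit 1077977088)) (.cons (.rel (nat_lit 1082131524)) .nil))) .nil)) .leaf) (nat_lit 15863889143799819) (.br (nat_lit 0) (.cons (.br (nat_lit 1) (.cons (.rel (nat_lit 20972832)) .nil)) .nil)) (.node .leaf (nat_lit 15863889143801063) (.br (nat_lit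 0) (.cons (.br (nat_lit 1) (.cons (.rel (nat_lit 21110784)) .nil)) .nil)) .leaf))))

/-- refutations 80 -/
def e80 : EX := (.node (.node (.node (.node .leaf (nat_lit 16032077254589353) (.br (nat_lit 0) (.cons (.br (nat_lit 1) (.cons (.rel (nat_lit 21004800)) .nil)) .nil)) .leaf) (nat_lit 16032077255576428) (.br (nat_lit 0) (.cons (.br (nat_lit 1) (.cons (.rel (nat_lit 20975622)) .nil)) .nil)) .leaf) (nat_lit 16038298436573221) (.br (nat_lit 1) (.cons (.br (nat_lit 4) (.cons (.rel (nat_lit 1090519362)) .nil)) .nil)) (.node .leaf (nat_lit 16038550472032886) (.br (nat_lit 0) (.cons (.br (nat_lit 1) (.cons (.rel (nat_lit 41959680)) .nil)) .nil)) .leaf)) (nat_lit 16039372396397344) (.br (nat_lit 1) (.cons (.br (nat_lit 2) (.cons (.rel (nat_lit 83890500)) .nil)) .nil)) (.node (.node .leaf (nat_lit 16039804999575061) (.br (nat_lit 1) (.cons (.br (nat_lit 4) (.cons (.rel (nat_lit 1090523232)) .nil)) .nil)) .leaf) (nat_lit 16039810263425961) (.br (nat_lit 2) (.cons (.br (nat_lit 5) (.cons (.rel (nat_lit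 4362077193)) .nil)) .nil)) (.node .leaf (nat_lit 16039810264500261) (.br (nat_lit 4) (.cons (.br (nat_lit 1) (.cons (.rel (nat_lit 1090519362)) (.cons (.rel (nat_lit 1090519362)) (.cons (.rel (nat_lit 1090519362)) .nil)))) .nil)) .leaf)))

/-- refutations 81 -/
def e81 : EX := (.node (.node (.node (.node .leaf (nat_lit 16045448610169592) (.br (nat_lit 4) (.cons (.br (nat_lit 5) (.cons (.rel (nat_lit 5368718340)) .nil)) .nil)) .leaf) (nat_lit 16045448610496512) (.br (nat_lit 0) (.cons (.br (nat_lit 1) (.cons (.rel (nat_lit 20976657)) .nil)) .nil)) .leaf) (nat_lit 16045449243509016) (.br (nat_lit 2) (.cons (.br (nat_lit 4) (.cons (.rel (nat_lit 1140851268)) .nil)) .nil)) (.node (.node .leaf (nat_lit 16046482113734119) (.br (nat_lit 0) (.cons (.br (nat_lit 1) (.cons (.rel (nat_lit 42012672)) .nil)) .nil)) .leaf) (nat_lit 16046482116059136) (.br (nat_lit 2) (.cons (.br (nat_lit 4) (.cons (.br (nat_lit 5) (.cons (.rel (nat_lit 5368711680)) .nil)) .nil)) .nil)) .leaf)) (nat_lit 16046482577432576) (.br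 (nat_lit 0) (.cons (.br (nat_lit 3) (.cons (.rel (nat_lit 276971520)) .nil)) .nil)) (.node (.node (.node .leaf (nat_lit 16046750646730804) (.br (nat_lit 0) (.cons (.br (nat_lit 1) (.cons (.rel (nat_lit 20989968)) .nil)) .nil)) .leaf) (nat_lit 16046750646730932) (.br (nat_lit 1) (.cons (.br (nat_lit 3) (.cons (.rel (nat_lit 285216789)) .nil)) .nil)) .leaf) (nat_lit 16046750646731063) (.br (nat_lit 0) (.cons (.br (nat_lit 1) (.cons (.rel (nat_lit 20975622)) .nil)) .nil)) (.node (.node .leaf (nat_lit 16051696238426988) (.br (nat_lit 1) (.cons (.br (nat_lit 4) (.cons (.rel (nat_lit 1091600400)) .nil)) .nil)) .leaf) (nat_lit 16057196480920312) (.br (nat_lit 0) (.cons (.br (nat_lit 2) (.cons (.rel (nat_lit 71312388)) .nil)) .nil)) .leaf)))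

/-- refutations 82 -/
def e82 : EX := (.node (.node (.node (.node .leaf (nat_lit 16466390482166546) (.br (nat_lit 2) (.cons (.br (nat_lit 3) (.cons (.rel (nat_lit 335545860)) .nil)) .nil)) .leaf) (nat_lit 16466503614089371) (.br (nat_lit 0) (.cons (.br (nat_lit 2) (.cons (.rel (nat_lit 71305728)) .nil)) .nil)) .leaf) (nat_lit 16466506158744928) (.br (nat_lit 0) (.cons (.br (nat_lit 6) (.cons (.rel (nat_lit 34364195136)) .nil)) .nil)) (.node (.node .leaf (nat_lit 16467580424611178) (.br (nat_lit 0) (.cons (.br (nat_lit 1) (.cons (.rel (nat_lit 20988933)) .nil)) .nil)) .leaf) (nat_lit 16468929692835891) (.br (nat_lit 1) (.cons (.br (nat_lit 2) (.cons (.rel (nat_lit 84934665)) .nil)) .nil)) .leaf)) (nat_lit 16468964003550566) (.br (nat_lit 4) (.cons (.br (nat_lit 1) (.cons (.rel (nat_lit 2164260882)) (.cons (.rel (nat_lit 1107304704)) .nil))) .nil)) (.node (.node (.node .leaf (nat_lit 16468964006365191) (.br (nat_lit 0) (.cons (.br (nat_lit 4) (.cons (.rel (nat_lit 2155892736)) .nil)) .nil)) .leaf)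 (nat_lit 16471715232092846) (.br (nat_lit 4) (.cons (.br (nat_lit 1) (.cons (.rel (nat_lit 2164260882)) (.cons (.rel (nat_lit 1107297288)) .nil))) .nil)) .leaf) (nat_lit 16471715235288416) (.br (nat_lit 0) (.cons (.br (nat_lit 3) (.cons (.rel (nat_lit 276828672)) .nil)) .nil)) (.node (.node .leaf (nat_lit 16472182106877211) (.br (nat_lit 0) (.cons (.br (nat_lit 3) (.cons (.rel (nat_lit 272646273)) .nil)) .nil)) .leaf) (nat_lit 16472748496491133) (.br (nat_lit 0) (.cons (.br (nat_lit 1) (.cons (.rel (nat_lit 41959680)) .nil)) .nil)) .leaf)))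

/-- refutations 83 -/
def e83 : EX := (.node (.node (.node .leaf (nat_lit 16473210299082011) (.br (nat_lit 0) (.cons (.br (nat_lit 3) (.cons (.rel (nat_lit 545263941)) .nil)) .nil)) .leaf) (nat_lit 16477282516342042) (.br (nat_lit 0) (.cons (.br (nat_lit 1) (.cons (.rel (nat_lit 21037065)) .nil)) .nil)) (.node .leaf (nat_lit 16478200505868594) (.br (nat_lit 0) (.cons (.br (nat_lit 1) (.cons (.rel (nat_lit 21110784)) .nil)) .nil)) .leaf)) (nat_lit 16478200635597586) (.br (nat_lit 4) (.cons (.br (nat_lit 5) (.cons (.rel (nat_lit 5368729617)) .nil)) .nil)) (.node (.node .leaf (nat_lit 16478200635905376) (.br (nat_lit 0) (.cons (.br (nat_lit 3) (.cons (.rel (nat_lit 272908308)) .nil)) .nil)) .leaf) (nat_lit 16479609758395674) (.br (nat_lit 1) (.cons (.br (nat_lit 4) (.cons (.rel (nat_lit 1107297288)) .nil)) .nil)) (.node .leaf (nat_lit 16479609758471431) (.br (nat_lit 0) (.cons (.br (nat_lit 1) (.cons (.rel (nat_lit 37748868)) .nil)) .nil)) .leaf)))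

/-- refutations 84 -/
def e84 : EX := (.node (.node .leaf (nat_lit 22430565120415805) (.br (nat_lit 0) (.cons (.br (nat_lit 3) (.cons (.rel (nat_lit 272892162)) .nil)) .nil)) .leaf) (nat_lit 22432628281173269) (.br (nat_lit 1) (.cons (.br (nat_lit 2) (.cons (.rel (nat_lit 100729860)) .nil)) .nil)) (.node .leaf (nat_lit 22435515339645605) (.br (nat_lit 0) (.cons (.br (nat_lit 2) (.cons (.rel (nat_lit 139461696)) .nil)) .nil)) .leaf))

/-- refutations 85 -/
def e85 : EX := (.node (.node (.node (.node (.node .leaf (nat_lit 22436588536210215) (.br (nat_lit 0) (.cons (.br (nat_lit 1) (.cons (.rel (nat_lit 21057792)) .nil)) .nil)) .leaf) (nat_lit 22438037163940592) (.br (nat_lit 1) (.cons (.br (nat_lit 2) (.cons (.rel (nat_lit 151028736)) .nil)) .nil)) .leaf) (nat_lit 22438040438298780) (.br (nat_lit 0) (.cons (.br (nat_lit 1) (.cons (.rel (nat_lit 20989968)) .nil)) .nil)) (.node .leaf (nat_lit 22438040440981013) (.br (nat_lit 1) (.cons (.br (nat_lit 3) (.cons (.rel (nat_lit 285344256)) .nil)) .nil))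 .leaf)) (nat_lit 22442106192200310) (.br (nat_lit 3) (.cons (.br (nat_lit 4) (.cons (.rel (nat_lit 2684371200)) .nil)) .nil)) (.node (.node .leaf (nat_lit 22443360933895555) (.br (nat_lit 1) (.cons (.br (nat_lit 5) (.cons (.rel (nat_lit 4311765024)) (.cons (.br (nat_lit 0) (.cons (.rel (nat_lit 37748868)) (.cons (.rel (nat_lit 20975622)) (.cons (.rel (nat_lit 8594259972)) .nil)))) .nil))) (.cons (.br (nat_lit 5) (.cons (.rel (nat_lit 4328787984)) (.cons (.rel (nat_lit 4311875589)) .nil))) .nil))) .leaf) (nat_lit 22443360934008085) (.br (nat_lit 1) (.cons (.br (nat_lit 4) (.cons (.rel (nat_lit 1090585665)) .nil)) .nil)) (.node .leaf (nat_lit 22443360934683925) (.br (nat_lit 1) (.cons (.br (nat_lit 4) (.cons (.rel (nat_lit 1091569152)) .nil)) .nil)) .leaf))) (nat_lit 22443360934684035) (.br (nat_lit 1) (.cons (.br (nat_lit 5) (.cons (.rel (nat_lit 4313056257)) .nil)) .nil)) (.node (.node (.node .leaf (nat_lit 22443360935032085) (.br (nat_lit 0) (.cons (.br (nat_lit 1) (.cons (.rel (nat_lit 21004800))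 .nil)) .nil)) .leaf) (nat_lit 22443360935287595) (.br (nat_lit 0) (.cons (.br (nat_lit 1) (.cons (.rel (nat_lit 20975622)) .nil)) .nil)) (.node .leaf (nat_lit 22443360935287715) (.br (nat_lit 1) (.cons (.br (nat_lit 4) (.cons (.rel (nat_lit 2181366024)) .nil)) .nil)) .leaf)) (nat_lit 22443360935996144) (.br (nat_lit 4) (.cons (.br (nat_lit 1) (.cons (.rel (nat_lit 1090523232)) (.cons (.rel (nat_lit 1107297288)) .nil))) .nil)) (.node (.node .leaf (nat_lit 22443360936272122) (.br (nat_lit 1) (.cons (.br (nat_lit 5) (.cons (.rel (nat_lit 4311750912)) .nil)) .nil)) .leaf) (nat_lit 22443360936273122) (.br (nat_lit 4) (.cons (.br (nat_lit 5) (.cons (.rel (nat_lit 5368741893)) (.cons (.rel (nat_lit 5368841217)) .nil))) .nil)) (.node .leaf (nat_lit 22443365699413269) (.br (nat_lit 2) (.cons (.br (nat_lit 5) (.cons (.rel (nat_lit 4363452432)) .nil)) .nil)) .leaf))))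

/-- refutations 86 -/
def e86 : EX := (.node (.node .leaf (nat_lit 22519553586106630) (.br (nat_lit 1) (.cons (.br (nat_lit 2) (.cons (.rel (nat_lit 84410880)) .nil)) .nil)) .leaf) (nat_lit 22520627814570135) (.br (nat_lit 0) (.cons (.br (nat_lit 1) (.cons (.rel (nat_lit 21038100)) .nil)) .nil)) .leaf)

/-- refutations 87 -/
def e87 : EX := (.node (.node (.node .leaf (nat_lit 22523433275998240) (.br (nat_lit 0) (.cons (.br (nat_lit 5) (.cons (.rel (nat_lit 4301275152)) .nil)) .nil)) .leaf) (nat_lit 22523433276661812) (.br (nat_lit 0) (.cons (.br (nat_lit 1) (.cons (.rel (nat_lit 20989968)) .nil)) .nil)) .leaf) (nat_lit 22524661208772111) (.br (nat_lit 0) (.cons (.br (nat_lit 1) (.cons (.rel (nat_lit 20971797)) .nil)) .nil)) (.node .leaf (nat_lit 22530068258742902) (.br (nat_lit 0) (.cons (.br (nat_lit 1) (.cons (.rel (nat_lit 21037065)) .nil)) .nil)) .leaf))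

/-- refutations 89 -/
def e89 : EX := (.node (.node (.node (.node (.node .leaf (nat_lit 22536726821253431) (.br (nat_lit 1) (.cons (.br (nat_lit 5) (.cons (.rel (nat_lit 8623493124)) .nil)) .nil)) .leaf) (nat_lit 22536726823093730) (.br (nat_lit 0) (.cons (.br (nat_lit 3) (.cons (.rel (nat_lit 274726917)) .nil)) .nil)) .leaf) (nat_lit 22536726921180693) (.br (nat_lit 0) (.cons (.br (nat_lit 2) (.cons (.rel (nat_lit 76038144)) .nil)) .nil)) (.node (.node .leaf (nat_lit 22536726923757077) (.br (nat_lit 0) (.cons (.br (nat_lit 2) (.cons (.br (nat_lit 4) (.cons (.br (nat_lit 5) (.cons (.rel (nat_lit 5368711680)) (.cons (.rel (nat_lit 5368774914)) .nil))) .nil)) .nil)) .nil)) .leaf) (nat_lit 22537137288722692) (.br (nat_lit 1) (.cons (.br (nat_lit 2) (.cons (.rel (nat_lit 151076868)) .nil)) .nil)) .leaf)) (nat_lit 22537137290008836) (.br (nat_lit 2) (.cons (.br (nat_lit 5) (.cons (.rel (nat_lit 4362080784)) .nil)) .nil)) (.node (.node (.node .leaf (nat_lit 22537137290009376) (.br (nat_lit 1) (.cons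 (.br (nat_lit 2) (.cons (.rel (nat_lit 83918913)) .nil)) .nil)) .leaf) (nat_lit 22537139240616071) (.br (nat_lit 0) (.cons (.br (nat_lit 2) (.cons (.rel (nat_lit 71435265)) .nil)) .nil)) .leaf) (nat_lit 22537143039367479) (.br (nat_lit 6) (.cons (.br (nat_lit 4) (.cons (.br (nat_lit 1) (.cons (.rel (nat_lit 17196663297)) (.cons (.rel (nat_lit 2164262916)) (.cons (.rel (nat_lit 2164260882)) .nil)))) (.cons (.rel (nat_lit 36507223041)) .nil))) .nil)) (.node (.node .leaf (nat_lit 22537143039367968) (.br (nat_lit 0) (.cons (.br (nat_lit 5) (.cons (.rel (nat_lit 4299169920)) .nil)) .nil)) .leaf) (nat_lit 22537996180186344) (.br (nat_lit 4) (.cons (.br (nat_lit 6) (.cons (.rel (nat_lit 18253612068)) .nil)) .nil)) .leaf))) (nat_lit 22538230054892152) (.br (nat_lit 0) (.cons (.br (nat_lit 2) (.cons (.rel (nat_lit 71335941)) .nil)) .nil)) (.node (.node (.node (.node .leaf (nat_lit 22538230054892777) (.br (nat_lit 1) (.cons (.br (nat_lit 2) (.cons (.rel (nat_lit 100925784)) .nil)) .nil)) .leaf) (nat_lit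 22538230061342731) (.br (nat_lit 1) (.cons (.br (nat_lit 2) (.cons (.rel (nat_lit 83968080)) .nil)) .nil)) .leaf) (nat_lit 22538230289458083) (.br (nat_lit 0) (.cons (.br (nat_lit 1) (.cons (.rel (nat_lit 20971797)) .nil)) .nil)) (.node (.node .leaf (nat_lit 22538231359005603) (.br (nat_lit 0) (.cons (.br (nat_lit 1) (.cons (.rel (nat_lit 21038100)) .nil)) .nil)) .leaf) (nat_lit 22538233327104011) (.br (nat_lit 1) (.cons (.br (nat_lit 2) (.cons (.rel (nat_lit 85008384)) .nil)) .nil)) .leaf)) (nat_lit 22538233328705547) (.br (nat_lit 5) (.cons (.br (nat_lit 4) (.cons (.rel (nat_lit 10737419520)) (.cons (.rel (nat_lit 5368774914)) .nil))) .nil)) (.node (.node (.node .leaf (nat_lit 22538233959159015) (.br (nat_lit 1) (.cons (.br (nat_lit 4) (.cons (.rel (nat_lit 1091108880)) .nil)) .nil)) .leaf) (nat_lit 22538233960816946) (.br (nat_lit 1) (.cons (.br (nat_lit 4) (.cons (.rel (nat_lit 1107296289)) .nil)) .nil)) .leaf) (nat_lit 22538233962045451) (.br (nat_lit 1) (.cons (.br (nat_lit 4) (.cons (.rel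 (nat_lit 1090519362)) (.cons (.rel (nat_lit 1107296289)) .nil))) .nil)) (.node .leaf (nat_lit 22538233962046695) (.br (nat_lit 2) (.cons (.br (nat_lit 4) (.cons (.br (nat_lit 5) (.cons (.br (nat_lit 1) (.cons (.rel (nat_lit 8606842944)) (.cons (.rel (nat_lit 1107394560)) .nil))) .nil)) .nil)) .nil)) .leaf))))

/-- refutations 90 -/
def e90 : EX := (.node (.node (.node (.node (.node .leaf (nat_lit 22541434207381531) (.br (nat_lit 0) (.cons (.br (nat_lit 1) (.cons (.rel (nat_lit 20972832)) .nil)) .nil)) .leaf) (nat_lit 22541498135644471) (.br (nat_lit 2) (.cons (.br (nat_lit 4) (.cons (.rel (nat_lit 1141900293)) .nil)) .nil)) (.node .leaf (nat_lit 22541498135645666) (.br (nat_lit 4) (.cons (.br (nat_lit 1) (.cons (.rel (nat_lit 1090519362)) (.cons (.rel (nat_lit 1107297288)) (.cons (.rel (nat_lit 2164262916)) .nil)))) .nil)) .leaf)) (nat_lit 22541498137190711) (.br (nat_lit 1) (.cons (.br (nat_lit 4) (.cons (.rel (nat_lit 1090585665)) .nil)) .nil)) (.node (.node .leaf (nat_lit 22541498137191655)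 (.br (nat_lit 1) (.cons (.br (nat_lit 0) (.cons (.rel (nat_lit 37748868)) (.cons (.rel (nat_lit 20972832)) .nil))) .nil)) .leaf) (nat_lit 22541498137232866) (.br (nat_lit 0) (.cons (.br (nat_lit 4) (.cons (.rel (nat_lit 1078003728)) .nil)) .nil)) .leaf)) (nat_lit 22542035395917326) (.br (nat_lit 0) (.cons (.br (nat_lit 2) (.cons (.rel (nat_lit 76038144)) .nil)) .nil)) (.node (.node (.node .leaf (nat_lit 22542035396584201) (.br (nat_lit 0) (.cons (.br (nat_lit 5) (.cons (.rel (nat_lit 4300210260)) .nil)) .nil)) .leaf) (nat_lit 22542035397851913) (.br (nat_lit 2) (.cons (.br (nat_lit 6) (.cons (.rel (nat_lit 17246986752)) .nil)) .nil)) (.node .leaf (nat_lit 22542035398172673) (.br (nat_lit 1) (.cons (.br (nat_lit 2) (.cons (.rel (nat_lit 85084176)) .nil)) .nil)) .leaf)) (nat_lit 22542035398174222) (.br (nat_lit 2) (.cons (.br (nat_lit 4) (.cons (.br (nat_lit 0) (.cons (.rel (nat_lit 1077977088)) (.cons (.rel (nat_lit 71307528)) .nil))) .nil)) .nil)) (.node (.node .leaf (nat_lit 22542052680328424)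 (.br (nat_lit 0) (.cons (.br (nat_lit 5) (.cons (.rel (nat_lit 4299424260)) .nil)) .nil)) .leaf) (nat_lit 22542052682899766) (.br (nat_lit 3) (.cons (.br (nat_lit 5) (.cons (.rel (nat_lit 4563674112)) .nil)) .nil)) .leaf))) (nat_lit 22542052682946612) (.br (nat_lit 1) (.cons (.br (nat_lit 2) (.cons (.rel (nat_lit 83890500)) .nil)) .nil)) (.node (.node (.node (.node .leaf (nat_lit 22542053879604131) (.br (nat_lit 1) (.cons (.br (nat_lit 2) (.cons (.rel (nat_lit 168034560)) .nil)) .nil)) .leaf) (nat_lit 22542055456908815) (.br (nat_lit 3) (.cons (.br (nat_lit 4) (.cons (.rel (nat_lit 1342316544)) .nil)) .nil)) (.node .leaf (nat_lit 22542129889320469) (.br (nat_lit 0) (.cons (.br (nat_lit 2) (.cons (.rel (nat_lit 142607616)) .nil)) .nil)) .leaf)) (nat_lit 22543622588931428) (.br (nat_lit 1) (.cons (.br (nat_lit 0) (.cons (.rel (nat_lit 20975622)) (.cons (.rel (nat_lit 20971797)) .nil))) .nil)) (.node (.node .leaf (nat_lit 22543627705982308) (.br (nat_lit 1) (.cons (.br (nat_lit 2) (.cons (.rel (nat_lit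 85008384)) .nil)) .nil)) .leaf) (nat_lit 22543627805057036) (.br (nat_lit 1) (.cons (.br (nat_lit 2) (.cons (.rel (nat_lit 83890500)) .nil)) .nil)) .leaf)) (nat_lit 22547406751572843) (.br (nat_lit 0) (.cons (.br (nat_lit 1) (.cons (.rel (nat_lit 20976657)) .nil)) .nil)) (.node (.node (.node .leaf (nat_lit 22547504587662723) (.br (nat_lit 2) (.cons (.br (nat_lit 5) (.cons (.rel (nat_lit 4362084609)) (.cons (.rel (nat_lit 4362076194)) (.cons (.rel (nat_lit 4362080784)) (.cons (.rel (nat_lit 4362077193)) (.cons (.rel (nat_lit 4362077193)) .nil)))))) (.cons (.br (nat_lit 3) (.cons (.rel (nat_lit 335552520)) (.cons (.rel (nat_lit 335552520)) (.cons (.rel (nat_lit 335564832)) (.cons (.rel (nat_lit 335560962)) (.cons (.rel (nat_lit 335552520)) .nil)))))) .nil))) .leaf) (nat_lit 22547504588644353) (.br (nat_lit 1) (.cons (.br (nat_lit 0) (.cons (.rel (nat_lit 41959680)) (.cons (.rel (nat_lit 21038100)) .nil))) .nil)) .leaf) (nat_lit 22547504590233601) (.br (nat_lit 0) (.cons (.br (nat_lit 1) (.cons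 (.rel (nat_lit 20972832)) .nil)) .nil)) (.node (.node .leaf (nat_lit 22547505338443035) (.br (nat_lit 4) (.cons (.br (nat_lit 0) (.cons (.rel (nat_lit 1077952536)) (.cons (.rel (nat_lit 1077952536)) .nil))) .nil)) .leaf) (nat_lit 22547505339917595) (.br (nat_lit 0) (.cons (.br (nat_lit 2) (.cons (.rel (nat_lit 71305728)) .nil)) .nil)) .leaf))))

/-- refutations 91 -/
def e91 : EX := (.node (.node (.node (.node (.node (.node .leaf (nat_lit 22548475901975328) (.br (nat_lit 2) (.cons (.br (nat_lit 0) (.cons (.rel (nat_lit 142607616)) (.cons (.rel (nat_lit 71307528)) .nil))) .nil)) .leaf) (nat_lit 22548476001003023) (.br (nat_lit 0) (.cons (.br (nat_lit 2) (.cons (.rel (nat_lit 71305728)) .nil)) .nil)) .leaf) (nat_lit 22548476002534176) (.br (nat_lit 2) (.cons (.br (nat_lit 4) (.cons (.rel (nat_lit 2214596613)) (.cons (.rel (nat_lit 2281967616)) .nil))) .nil)) (.node (.node .leaf (nat_lit 22548476002638576) (.br (nat_lit 0) (.cons (.br (nat_lit 4) (.cons (.rel (nat_lit 1077936390)) .nil)) .nil))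 .leaf) (nat_lit 22548476002638624) (.br (nat_lit 3) (.cons (.br (nat_lit 4) (.cons (.rel (nat_lit 1342178592)) .nil)) .nil)) .leaf)) (nat_lit 22548477951645706) (.br (nat_lit 1) (.cons (.br (nat_lit 5) (.cons (.rel (nat_lit 4311752712)) .nil)) .nil)) (.node (.node (.node .leaf (nat_lit 22548479152456480) (.br (nat_lit 1) (.cons (.br (nat_lit 5) (.cons (.rel (nat_lit 8606842944)) .nil)) .nil)) .leaf) (nat_lit 22548699234177801) (.br (nat_lit 2) (.cons (.br (nat_lit 6) (.cons (.rel (nat_lit 17246982162)) (.cons (.rel (nat_lit 17246982162)) .nil))) .nil)) .leaf) (nat_lit 22548699237065961) (.br (nat_lit 6) (.cons (.br (nat_lit 0) (.cons (.rel (nat_lit 34363949058)) (.cons (.rel (nat_lit 17184407808)) (.cons (.rel (nat_lit 34363998225)) .nil)))) (.cons (.br (nat_lit 0) (.cons (.rel (nat_lit 17184325638)) (.cons (.rel (nat_lit 34363938816)) (.cons (.rel (nat_lit 34368127056)) .nil)))) .nil))) (.node .leaf (nat_lit 22548704439623681) (.br (nat_lit 0) (.cons (.br (nat_lit 1) (.cons (.rel (nat_lit 21004800))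 .nil)) .nil)) .leaf))) (nat_lit 22548704440606721) (.br (nat_lit 0) (.cons (.br (nat_lit 6) (.cons (.rel (nat_lit 17188290561)) .nil)) .nil)) (.node (.node (.node (.node .leaf (nat_lit 22548704441874433) (.br (nat_lit 0) (.cons (.br (nat_lit 1) (.cons (.rel (nat_lit 42012672)) .nil)) .nil)) .leaf) (nat_lit 22548704442195969) (.br (nat_lit 0) (.cons (.br (nat_lit 1) (.cons (.rel (nat_lit 41959680)) .nil)) .nil)) .leaf) (nat_lit 22548704442196745) (.br (nat_lit 1) (.cons (.br (nat_lit 2) (.cons (.rel (nat_lit 85008384)) .nil)) .nil)) (.node .leaf (nat_lit 22548913337253251) (.br (nat_lit 6) (.cons (.br (nat_lit 0) (.cons (.rel (nat_lit 17188267008)) (.cons (.rel (nat_lit 17184460800)) .nil))) .nil)) .leaf)) (nat_lit 22548913987003624) (.br (nat_lit 3) (.cons (.br (nat_lit 2) (.cons (.rel (nat_lit 335552520)) (.cons (.rel (nat_lit 335545860)) .nil))) .nil)) (.node (.node (.node .leaf (nat_lit 22548913988535024) (.br (nat_lit 4) (.cons (.br (nat_lit 6) (.cons (.rel (nat_lit 18253611033)) (.cons (.rel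 (nat_lit 19328401488)) (.cons (.rel (nat_lit 18253743360)) (.cons (.rel (nat_lit 18253612068)) (.cons (.rel (nat_lit 18253677057)) .nil)))))) .nil)) .leaf) (nat_lit 22548913988639031) (.br (nat_lit 0) (.cons (.br (nat_lit 1) (.cons (.rel (nat_lit 20971797)) (.cons (.rel (nat_lit 21004800)) .nil))) (.cons (.br (nat_lit 1) (.cons (.rel (nat_lit 21057792)) (.cons (.rel (nat_lit 20972832)) .nil))) .nil))) .leaf) (nat_lit 22548913988639496) (.br (nat_lit 0) (.cons (.br (nat_lit 1) (.cons (.rel (nat_lit 37748868)) .nil)) .nil)) (.node .leaf (nat_lit 22548913988639976) (.br (nat_lit 1) (.cons (.br (nat_lit 2) (.cons (.rel (nat_lit 100729860)) .nil)) .nil)) .leaf)))) (nat_lit 22548914087715568) (.br (nat_lit 1) (.cons (.br (nat_lit 5) (.cons (.rel (nat_lit 4311750912)) .nil)) .nil)) (.node (.node (.node (.node (.node .leaf (nat_lit 22548914088686875) (.br (nat_lit 1) (.cons (.br (nat_lit 2) (.cons (.rel (nat_lit 152305668)) .nil)) .nil)) .leaf) (nat_lit 22548914088749962) (.br (nat_lit 0) (.cons (.br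 (nat_lit 2) (.cons (.rel (nat_lit 71335941)) .nil)) .nil)) .leaf) (nat_lit 22548914089046768) (.br (nat_lit 0) (.cons (.br (nat_lit 1) (.cons (.rel (nat_lit 21250113)) .nil)) .nil)) (.node .leaf (nat_lit 22548914090012130) (.br (nat_lit 1) (.cons (.br (nat_lit 4) (.cons (.rel (nat_lit 2164260882)) .nil)) .nil)) .leaf)) (nat_lit 22548914090072816) (.br (nat_lit 1) (.cons (.br (nat_lit 2) (.cons (.rel (nat_lit 83918913)) .nil)) .nil)) (.node (.node (.node .leaf (nat_lit 22548914090288390) (.br (nat_lit 2) (.cons (.br (nat_lit 5) (.cons (.rel (nat_lit 4362080784)) .nil)) .nil)) .leaf) (nat_lit 22548914090288411) (.br (nat_lit 4) (.cons (.br (nat_lit 2) (.cons (.rel (nat_lit 1140981840)) (.cons (.rel (nat_lit 2281967616)) .nil))) .nil)) .leaf) (nat_lit 22548915937087499) (.br (nat_lit 2) (.cons (.br (nat_lit 5) (.cons (.rel (nat_lit 4362174465)) .nil)) .nil)) (.node .leaf (nat_lit 22548915937088263) (.br (nat_lit 2) (.cons (.br (nat_lit 6) (.cons (.rel (nat_lit 17246979336)) .nil)) .nil)) .leaf)))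 (nat_lit 22548915938990856) (.br (nat_lit 3) (.cons (.br (nat_lit 0) (.cons (.rel (nat_lit 541073664)) (.cons (.rel (nat_lit 541066248)) .nil))) .nil)) (.node (.node (.node (.node .leaf (nat_lit 22548916572226288) (.br (nat_lit 1) (.cons (.br (nat_lit 5) (.cons (.rel (nat_lit 4311765024)) .nil)) .nil)) .leaf) (nat_lit 22548919104348936) (.br (nat_lit 0) (.cons (.br (nat_lit 2) (.cons (.rel (nat_lit 71305728)) .nil)) .nil)) .leaf) (nat_lit 22548919205012208) (.br (nat_lit 1) (.cons (.br (nat_lit 4) (.cons (.rel (nat_lit 2164408320)) .nil)) .nil)) (.node .leaf (nat_lit 22548919838426343) (.br (nat_lit 0) (.cons (.br (nat_lit 3) (.cons (.rel (nat_lit 272892162)) .nil)) .nil)) .leaf)) (nat_lit 22548919839133154) (.br (nat_lit 4) (.cons (.br (nat_lit 0) (.cons (.rel (nat_lit 1077977088)) (.cons (.rel (nat_lit 1082131524)) .nil))) .nil)) (.node (.node (.node .leaf (nat_lit 22548919839693111) (.br (nat_lit 2) (.cons (.br (nat_lit 1) (.cons (.rel (nat_lit 83895360)) (.cons (.rel (nat_lit 83968080)) (.cons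 (.rel (nat_lit 84955392)) .nil)))) (.cons (.br (nat_lit 0) (.cons (.rel (nat_lit 71305728)) (.cons (.rel (nat_lit 71307528)) (.cons (.rel (nat_lit 71307528)) .nil)))) .nil))) .leaf) (nat_lit 22548919839693600) (.br (nat_lit 1) (.cons (.br (nat_lit 5) (.cons (.rel (nat_lit 4312793232)) .nil)) .nil)) .leaf) (nat_lit 22548919840678639) (.br (nat_lit 1) (.cons (.br (nat_lit 2) (.cons (.rel (nat_lit 84935700)) (.cons (.rel (nat_lit 83895360)) .nil))) .nil)) (.node .leaf (nat_lit 22548919840679143) (.br (nat_lit 3) (.cons (.br (nat_lit 5) (.cons (.br (nat_lit 6) (.cons (.rel (nat_lit 38654713872)) .nil)) .nil)) .nil)) .leaf)))))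

/-- refutations 92 -/
def e92 : EX := (.node (.node (.node (.node (.node .leaf (nat_lit 22606441390056985) (.br (nat_lit 0) (.cons (.br (nat_lit 1) (.cons (.rel (nat_lit 20988933)) .nil)) .nil)) .leaf) (nat_lit 22607087076145904) (.br (nat_lit 0) (.cons (.br (nat_lit 4) (.cons (.rel (nat_lit 1077977088)) .nil)) .nil)) (.node .leaf (nat_lit 22607087077374264) (.br (nat_lit 0) (.cons (.br (nat_lit 1) (.cons (.rel (nat_lit 20975622)) .nil)) .nil)) .leaf)) (nat_lit 22607087077375363) (.br (nat_lit 0) (.cons (.br (nat_lit 1) (.cons (.rel (nat_lit 25165896)) .nil)) .nil)) (.node (.node .leaf (nat_lit 22607090672215567) (.br (nat_lit 2) (.cons (.br (nat_lit 5) (.cons (.rel (nat_lit 8724152337)) .nil)) .nil)) .leaf) (nat_lit 22607090672518375) (.br (nat_lit 1) (.cons (.br (nat_lit 3) (.cons (.rel (nat_lit 285280257)) .nil)) .nil)) .leaf)) (nat_lit 22607095666540831) (.br (nat_lit 0) (.cons (.br (nat_lit 1) (.cons (.rel (nat_lit 20975622)) .nil)) .nil)) (.node (.node (.node .leaf (nat_lit 22607095667630231)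 (.br (nat_lit 4) (.cons (.br (nat_lit 1) (.cons (.rel (nat_lit 1091698689)) (.cons (.rel (nat_lit 1091698689)) .nil))) .nil)) .leaf) (nat_lit 22607095667933184) (.br (nat_lit 0) (.cons (.br (nat_lit 2) (.cons (.br (nat_lit 4) (.cons (.br (nat_lit 5) (.cons (.rel (nat_lit 10737419520)) .nil)) .nil)) .nil)) .nil)) (.node .leaf (nat_lit 22607095667934741) (.br (nat_lit 2) (.cons (.br (nat_lit 6) (.cons (.rel (nat_lit 17246982162)) .nil)) .nil)) .leaf)) (nat_lit 22607293802358137) (.br (nat_lit 0) (.cons (.br (nat_lit 2) (.cons (.rel (nat_lit 75564096)) .nil)) .nil)) (.node (.node .leaf (nat_lit 22608366977935360) (.br (nat_lit 1) (.cons (.br (nat_lit 4) (.cons (.rel (nat_lit 1107296289)) .nil)) .nil)) .leaf) (nat_lit 22608366978252800) (.br (nat_lit 1) (.cons (.br (nat_lit 5) (.cons (.rel (nat_lit 8623493124)) .nil)) .nil)) .leaf))) (nat_lit 22608631800626587) (.br (nat_lit 1) (.cons (.br (nat_lit 2) (.cons (.rel (nat_lit 83890500)) .nil)) .nil)) (.node (.node (.node (.node .leaf (nat_lit 22608631800859930)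 (.br (nat_lit 6) (.cons (.br (nat_lit 0) (.cons (.rel (nat_lit 17184063648)) (.cons (.rel (nat_lit 17184325638)) .nil))) .nil)) .leaf) (nat_lit 22608633829375358) (.br (nat_lit 0) (.cons (.br (nat_lit 1) (.cons (.rel (nat_lit 20972832)) .nil)) .nil)) (.node .leaf (nat_lit 22608636519450675) (.br (nat_lit 0) (.cons (.br (nat_lit 1) (.cons (.rel (nat_lit 41959680)) .nil)) .nil)) .leaf)) (nat_lit 22608636860672285) (.br (nat_lit 3) (.cons (.br (nat_lit 4) (.cons (.rel (nat_lit 2684371200)) .nil)) .nil)) (.node (.node .leaf (nat_lit 22608636933613075) (.br (nat_lit 0) (.cons (.br (nat_lit 1) (.cons (.rel (nat_lit 20976657)) .nil)) .nil)) .leaf) (nat_lit 22608637063653427) (.br (nat_lit 0) (.cons (.br (nat_lit 1) (.cons (.rel (nat_lit 21004800)) .nil)) .nil)) .leaf)) (nat_lit 22608637065962107) (.br (nat_lit 0) (.cons (.br (nat_lit 2) (.cons (.rel (nat_lit 75564096)) .nil)) .nil)) (.node (.node (.node .leaf (nat_lit 22608637065962727) (.br (nat_lit 1) (.cons (.br (nat_lit 6) (.cons (.rel (nat_lit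 17196777732)) .nil)) .nil)) .leaf) (nat_lit 22611631150768780) (.br (nat_lit 0) (.cons (.br (nat_lit 1) (.cons (.rel (nat_lit 20988933)) .nil)) .nil)) .leaf) (nat_lit 22611631153092895) (.br (nat_lit 4) (.cons (.br (nat_lit 5) (.cons (.rel (nat_lit 5368711680)) .nil)) .nil)) (.node (.node .leaf (nat_lit 22611631153094942) (.br (nat_lit 3) (.cons (.br (nat_lit 4) (.cons (.rel (nat_lit 1342177557)) .nil)) .nil)) .leaf) (nat_lit 22611631153326235) (.br (nat_lit 1) (.cons (.br (nat_lit 4) (.cons (.rel (nat_lit 1107297288)) .nil)) .nil)) .leaf))))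

/-- refutations 93 -/
def e93 : EX := (.node (.node (.node (.node (.node .leaf (nat_lit 22611866879113527) (.br (nat_lit 0) (.cons (.br (nat_lit 4) (.cons (.rel (nat_lit 1078002693)) .nil)) .nil)) .leaf) (nat_lit 22611866880114999) (.br (nat_lit 1) (.cons (.br (nat_lit 5) (.cons (.rel (nat_lit 4311876624)) .nil)) .nil)) (.node .leaf (nat_lit 22611866880115995) (.br (nat_lit 1) (.cons (.br (nat_lit 3) (.cons (.rel (nat_lit 285217824)) .nil)) .nil)) .leaf)) (nat_lit 22611866881368375) (.br (nat_lit 2) (.cons (.br (nat_lit 4) (.cons (.rel (nat_lit 1140932673)) .nil)) .nil)) (.node (.node .leaf (nat_lit 22612421425823924) (.br (nat_lit 0) (.cons (.br (nat_lit 2) (.cons (.rel (nat_lit 71323665)) .nil)) .nil)) .leaf) (nat_lit 22612421427023872) (.br (nat_lit 1) (.cons (.br (nat_lit 3) (.cons (.rel (nat_lit 553910400)) .nil)) .nil)) (.node .leaf (nat_lit 22612421427077120) (.br (nat_lit 0) (.cons (.br (nat_lit 4) (.cons (.rel (nat_lit 2155892736)) (.cons (.rel (nat_lit 1077941250)) (.cons (.rel (nat_lit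 1083183105)) (.cons (.rel (nat_lit 2155892736)) .nil))))) (.cons (.br (nat_lit 5) (.cons (.rel (nat_lit 8594198529)) (.cons (.rel (nat_lit 4299169920)) .nil))) .nil))) .leaf))) (nat_lit 22612893871173141) (.br (nat_lit 4) (.cons (.br (nat_lit 5) (.cons (.rel (nat_lit 10737419520)) .nil)) .nil)) (.node (.node (.node .leaf (nat_lit 22613787253466495) (.br (nat_lit 0) (.cons (.br (nat_lit 5) (.cons (.rel (nat_lit 4299554832)) .nil)) .nil)) .leaf) (nat_lit 22613790393378174) (.br (nat_lit 0) (.cons (.br (nat_lit 5) (.cons (.rel (nat_lit 8594259972)) (.cons (.rel (nat_lit 4299169920)) .nil))) .nil)) (.node .leaf (nat_lit 22617171660585595) (.br (nat_lit 2) (.cons (.br (nat_lit 5) (.cons (.rel (nat_lit 4362076194)) .nil)) .nil)) .leaf)) (nat_lit 22617174915365499) (.br (nat_lit 0) (.cons (.br (nat_lit 1) (.cons (.rel (nat_lit 20989968)) .nil)) .nil)) (.node (.node .leaf (nat_lit 22617223198257313) (.br (nat_lit 1) (.cons (.br (nat_lit 4) (.cons (.rel (nat_lit 1090523232)) .nil)) .nil)) .leaf) (nat_lit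 22617223200514985) (.br (nat_lit 0) (.cons (.br (nat_lit 2) (.cons (.rel (nat_lit 72351873)) .nil)) .nil)) (.node .leaf (nat_lit 22617223200817152) (.br (nat_lit 1) (.cons (.br (nat_lit 3) (.cons (.rel (nat_lit 285212964)) .nil)) .nil)) .leaf)))) (nat_lit 22617868439961600) (.br (nat_lit 0) (.cons (.br (nat_lit 1) (.cons (.rel (nat_lit 25165896)) .nil)) .nil)) (.node (.node (.node (.node .leaf (nat_lit 22619282684777330) (.br (nat_lit 0) (.cons (.br (nat_lit 1) (.cons (.rel (nat_lit 20972832)) .nil)) .nil)) .leaf) (nat_lit 22619282687896858) (.br (nat_lit 0) (.cons (.br (nat_lit 1) (.cons (.rel (nat_lit 20975622)) .nil)) .nil)) (.node .leaf (nat_lit 22619283318432380) (.br (nat_lit 1) (.cons (.br (nat_lit 2) (.cons (.rel (nat_lit 84410880)) .nil)) .nil)) .leaf)) (nat_lit 22619283319979495) (.br (nat_lit 1) (.cons (.br (nat_lit 6) (.cons (.rel (nat_lit 17196663297)) .nil)) .nil)) (.node (.node .leaf (nat_lit 22619283321004187) (.br (nat_lit 2) (.cons (.br (nat_lit 4) (.cons (.rel (nat_lit 1140856128))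 .nil)) .nil)) .leaf) (nat_lit 22619283321236338) (.br (nat_lit 0) (.cons (.br (nat_lit 2) (.cons (.rel (nat_lit 71312388)) .nil)) .nil)) (.node .leaf (nat_lit 22619288582283900) (.br (nat_lit 1) (.cons (.br (nat_lit 6) (.cons (.rel (nat_lit 17196647430)) .nil)) .nil)) .leaf))) (nat_lit 22619288582284064) (.br (nat_lit 0) (.cons (.br (nat_lit 1) (.cons (.rel (nat_lit 21110784)) .nil)) .nil)) (.node (.node (.node .leaf (nat_lit 22619288582530305) (.br (nat_lit 1) (.cons (.br (nat_lit 2) (.cons (.rel (nat_lit 168034560)) .nil)) .nil)) .leaf) (nat_lit 22619288583602488) (.br (nat_lit 0) (.cons (.br (nat_lit 1) (.cons (.rel (nat_lit 20971797)) .nil)) .nil)) (.node .leaf (nat_lit 22619288583604275) (.br (nat_lit 1) (.cons (.br (nat_lit 4) (.cons (.rel (nat_lit 1090523232)) .nil)) .nil)) .leaf)) (nat_lit 22619288583870775) (.br (nat_lit 1) (.cons (.br (nat_lit 3) (.cons (.rel (nat_lit 285216789)) (.cons (.rel (nat_lit 285213954)) (.cons (.rel (nat_lit 285229065)) .nil)))) (.cons (.br (nat_lit 4) (.cons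 (.rel (nat_lit 1091600400)) (.cons (.rel (nat_lit 2181370884)) .nil))) .nil))) (.node (.node .leaf (nat_lit 22619288584640823) (.br (nat_lit 3) (.cons (.br (nat_lit 4) (.cons (.rel (nat_lit 2684371200)) .nil)) .nil)) .leaf) (nat_lit 22619288584803585) (.br (nat_lit 5) (.cons (.br (nat_lit 6) (.cons (.rel (nat_lit 25769820180)) .nil)) .nil)) .leaf))))

/-- refutations 96 -/
def e96 : EX := (.node (.node (.node .leaf (nat_lit 23081219647573493) (.br (nat_lit 0) (.cons (.br (nat_lit 1) (.cons (.rel (nat_lit 21299280)) .nil)) .nil)) .leaf) (nat_lit 23083620221307817) (.br (nat_lit 0) (.cons (.br (nat_lit 5) (.cons (.rel (nat_lit 4299505665)) .nil)) .nil)) .leaf) (nat_lit 23083625484905754) (.br (nat_lit 1) (.cons (.br (nat_lit 3) (.cons (.rel (nat_lit 570491136)) .nil)) .nil)) (.node (.node .leaf (nat_lit 23094274859748885) (.br (nat_lit 4) (.cons (.br (nat_lit 5) (.cons (.rel (nat_lit 5368741893)) .nil)) .nil)) .leaf) (nat_lit 23094277003036847) (.br (nat_lit 0) (.cons (.br (nat_lit 4) (.cons (.rel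 (nat_lit 1077937425)) .nil)) .nil)) .leaf))

/-- refutations 97 -/
def e97 : EX := (.node (.node .leaf (nat_lit 24190344125189621) (.br (nat_lit 0) (.cons (.br (nat_lit 1) (.cons (.rel (nat_lit 20972832)) .nil)) .nil)) .leaf) (nat_lit 24190868051556389) (.br (nat_lit 0) (.cons (.br (nat_lit 1) (.cons (.rel (nat_lit 20975622)) .nil)) .nil)) .leaf)

/-- refutations 100 -/
def e100 : EX := (.node (.node (.node (.node .leaf (nat_lit 24373177628326688) (.br (nat_lit 3) (.cons (.br (nat_lit 4) (.cons (.rel (nat_lit 1342181382)) .nil)) .nil)) .leaf) (nat_lit 24376173565379312) (.br (nat_lit 2) (.cons (.br (nat_lit 3) (.cons (.rel (nat_lit 335545860)) .nil)) .nil)) .leaf) (nat_lit 24378500685505923) (.br (nat_lit 2) (.cons (.br (nat_lit 5) (.cons (.rel (nat_lit 4362078228)) .nil)) .nil)) (.node .leaf (nat_lit 24378500688102787) (.br (nat_lit 5) (.cons (.br (nat_lit 6) (.cons (.rel (nat_lit 21475115040)) .nil)) .nil)) .leaf)) (nat_lit 24378500688126003) (.br (nat_lit 3) (.cons (.br (nat_lit 5) (.cons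 (.rel (nat_lit 4563669252)) (.cons (.rel (nat_lit 4563403392)) .nil))) .nil)) (.node (.node .leaf (nat_lit 24378501226884354) (.br (nat_lit 1) (.cons (.br (nat_lit 3) (.cons (.rel (nat_lit 285216789)) .nil)) .nil)) .leaf) (nat_lit 24378503807138444) (.br (nat_lit 0) (.cons (.br (nat_lit 1) (.cons (.rel (nat_lit 20975622)) .nil)) .nil)) (.node .leaf (nat_lit 24378506437532335) (.br (nat_lit 5) (.cons (.br (nat_lit 0) (.cons (.rel (nat_lit 4303356180)) (.cons (.rel (nat_lit 8598327360)) .nil))) .nil)) .leaf)))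

/-- refutations 101 -/
def e101 : EX := (.node (.node (.node .leaf (nat_lit 24630195508066356) (.br (nat_lit 0) (.cons (.br (nat_lit 1) (.cons (.rel (nat_lit 20988933)) .nil)) .nil)) .leaf) (nat_lit 24635990476368002) (.br (nat_lit 0) (.cons (.br (nat_lit 1) (.cons (.rel (nat_lit 25165896)) .nil)) .nil)) .leaf) (nat_lit 24635990476369122) (.br (nat_lit 0) (.cons (.br (nat_lit 1) (.cons (.rel (nat_lit 20976657)) .nil)) .nil)) (.node .leaf (nat_lit 24635990477147362) (.br (nat_lit 2) (.cons (.br (nat_lit 5) (.cons (.rel (nat_lit 4362084609)) (.cons (.rel (nat_lit 4362076194)) .nil))) .nil)) .leaf))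

/-- refutations 102 -/
def e102 : EX := (.node (.node (.node .leaf (nat_lit 24717127199557759) (.br (nat_lit 0) (.cons (.br (nat_lit 1) (.cons (.rel (nat_lit 20988933)) .nil)) .nil)) .leaf) (nat_lit 24717238869731590) (.br (nat_lit 0) (.cons (.br (nat_lit 1) (.cons (.rel (nat_lit 21110784)) .nil)) .nil)) (.node .leaf (nat_lit 24717239435151635) (.br (nat_lit 6) (.cons (.br (nat_lit 1) (.cons (.rel (nat_lit 17196777732)) (.cons (.rel (nat_lit 17196648465)) .nil))) .nil)) .leaf)) (nat_lit 24717239436190982) (.br (nat_lit 5) (.cons (.br (nat_lit 6) (.cons (.rel (nat_lit 38654713872)) .nil)) .nil)) (.node (.node .leaf (nat_lit 24717507821314350) (.br (nat_lit 0) (.cons (.br (nat_lit 2) (.cons (.rel (nat_lit 71335941)) .nil)) .nil)) .leaf) (nat_lit 24722922936213639) (.br (nat_lit 0) (.cons (.br (nat_lit 1) (.cons (.rel (nat_lit 20975622)) .nil)) .nil)) .leaf))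

/-- refutations 103 -/
def e103 : EX := (.node (.node (.node (.node (.node .leaf (nat_lit 24723483750030848) (.br (nat_lit 5) (.cons (.br (nat_lit 6) (.cons (.rel (nat_lit 21474841728)) .nil)) .nil)) .leaf) (nat_lit 24723487365286150) (.br (nat_lit 1) (.cons (.br (nat_lit 5) (.cons (.rel (nat_lit 4328587392)) .nil)) .nil)) .leaf) (nat_lit 24723487366860178) (.br (nat_lit 6) (.cons (.br (nat_lit 3) (.cons (.rel (nat_lit 17448304770)) (.cons (.rel (nat_lit 34628178948)) (.cons (.rel (nat_lit 34628174088)) .nil)))) .nil)) (.node (.node .leaf (nat_lit 24723487367898025) (.br (nat_lit 6) (.cons (.br (nat_lit 0) (.cons (.rel (nat_lit 34368127056)) (.cons (.rel (nat_lit 17184063648)) (.cons (.rel (nat_lit 34368127056)) .nil)))) .nil)) .leaf) (nat_lit 24730207068114322) (.br (nat_lit 4) (.cons (.br (nat_lit 1) (.cons (.rel (nat_lit 1091600400)) (.cons (.rel (nat_lit 2164260882)) .nil))) .nil)) .leaf)) (nat_lit 24730207070497030) (.br (nat_lit 2) (.cons (.br (nat_lit 3) (.cons (.rel (nat_lit 335675397))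 .nil)) .nil)) (.node (.node (.node .leaf (nat_lit 24730344636813447) (.br (nat_lit 0) (.cons (.br (nat_lit 1) (.cons (.rel (nat_lit 26218512)) (.cons (.rel (nat_lit 25691136)) .nil))) .nil)) .leaf) (nat_lit 24730344637068695) (.br (nat_lit 0) (.cons (.br (nat_lit 2) (.cons (.rel (nat_lit 142607616)) .nil)) .nil)) .leaf) (nat_lit 24730344637091202) (.br (nat_lit 1) (.cons (.br (nat_lit 3) (.cons (.rel (nat_lit 285212964)) (.cons (.rel (nat_lit 553910400)) .nil))) .nil)) (.node .leaf (nat_lit 24730344638450470) (.br (nat_lit 1) (.cons (.br (nat_lit 3) (.cons (.rel (nat_lit 285213954)) .nil)) .nil)) .leaf))) (nat_lit 24730344639481991) (.br (nat_lit 2) (.cons (.br (nat_lit 3) (.cons (.rel (nat_lit 335807040)) .nil)) .nil)) (.node (.node (.node (.node .leaf (nat_lit 24730344639701127) (.br (nat_lit 3) (.cons (.br (nat_lit 5) (.cons (.br (nat_lit 6) (.cons (.rel (nat_lit 38654713872)) .nil)) .nil)) .nil)) .leaf) (nat_lit 24730344639701252) (.br (nat_lit 2) (.cons (.br (nat_lit 5) (.cons (.rel (nat_lit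 4362084609)) .nil)) .nil)) .leaf) (nat_lit 24730344639701743) (.br (nat_lit 2) (.cons (.br (nat_lit 3) (.cons (.br (nat_lit 1) (.cons (.rel (nat_lit 84934665)) (.cons (.rel (nat_lit 285344256)) .nil))) .nil)) .nil)) (.node .leaf (nat_lit 24730344639702423) (.br (nat_lit 0) (.cons (.br (nat_lit 1) (.cons (.rel (nat_lit 20971797)) .nil)) .nil)) .leaf)) (nat_lit 24730344639933353) (.br (nat_lit 0) (.cons (.br (nat_lit 1) (.cons (.rel (nat_lit 21038100)) .nil)) .nil)) (.node (.node (.node .leaf (nat_lit 24730345013301400) (.br (nat_lit 3) (.cons (.br (nat_lit 4) (.cons (.rel (nat_lit 1610614848)) .nil)) .nil)) .leaf) (nat_lit 24730345643701510) (.br (nat_lit 0) (.cons (.br (nat_lit 3) (.cons (.rel (nat_lit 272646273)) .nil)) .nil)) .leaf) (nat_lit 24730350158379160) (.br (nat_lit 1) (.cons (.br (nat_lit 2) (.cons (.rel (nat_lit 83890500)) .nil)) .nil)) (.node .leaf (nat_lit 24730350159129862) (.br (nat_lit 1) (.cons (.br (nat_lit 2) (.cons (.rel (nat_lit 83890500)) .nil)) .nil)) .leaf))))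

/-- refutations 104 -/
def e104 : EX := (.node (.node (.node .leaf (nat_lit 24654689743091724) (.br (nat_lit 0) (.cons (.br (nat_lit 3) (.cons (.rel (nat_lit 276826116)) .nil)) .nil)) .leaf) (nat_lit 24658567982786043) (.br (nat_lit 0) (.cons (.br (nat_lit 3) (.cons (.rel (nat_lit 276826116)) .nil)) .nil)) .leaf) (nat_lit 24658567983860614) (.br (nat_lit 1) (.cons (.br (nat_lit 2) (.cons (.rel (nat_lit 84935700)) .nil)) .nil)) (.node (.node .leaf (nat_lit 24659981142382772) (.br (nat_lit 1) (.cons (.br (nat_lit 2) (.cons (.rel (nat_lit 100991040)) .nil)) .nil)) .leaf) (nat_lit 24659981643588336) (.br (nat_lit 4) (.cons (.br (nat_lit 6) (.cons (.rel (nat_lit 18253612068)) .nil)) .nil)) .leaf))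

/-- refutations 105 -/
def e105 : EX := (.node .leaf (nat_lit 24753817873496225) (.br (nat_lit 0) (.cons (.br (nat_lit 1) (.cons (.rel (nat_lit 20988933)) .nil)) .nil)) .leaf)

/-- refutations 106 -/
def e106 : EX := (.node (.node (.node (.node .leaf (nat_lit 24805507049673615) (.br (nat_lit 0) (.cons (.br (nat_lit 2) (.cons (.rel (nat_lit 71319840)) .nil)) .nil)) .leaf) (nat_lit 24806538367787270) (.br (nat_lit 0) (.cons (.br (nat_lit 2) (.cons (.rel (nat_lit 71312388)) .nil)) .nil)) .leaf) (nat_lit 24806538369106182) (.br (nat_lit 1) (.cons (.br (nat_lit 4) (.cons (.rel (nat_lit 1091569152)) .nil)) .nil)) (.node .leaf (nat_lit 24816193454268678) (.br (nat_lit 1) (.cons (.br (nat_lit 2) (.cons (.rel (nat_lit 83890500)) .nil)) .nil)) .leaf)) (nat_lit 24816897139417270) (.br (nat_lit 0) (.cons (.br (nat_lit 2) (.cons (.rel (nat_lit 142607616)) .nil)) .nil)) (.node (.node .leaf (nat_lit 24818306049645945) (.br (nat_lit 0) (.cons (.br (nat_lit 4) (.cons (.rel (nat_lit 1077936390)) .nil)) .nil))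 .leaf) (nat_lit 24818306049646075) (.br (nat_lit 0) (.cons (.br (nat_lit 4) (.cons (.rel (nat_lit 1082392704)) .nil)) .nil)) (.node .leaf (nat_lit 24818306050669945) (.br (nat_lit 0) (.cons (.br (nat_lit 1) (.cons (.rel (nat_lit 21038100)) .nil)) .nil)) .leaf)))

/-- refutations 107 -/
def e107 : EX := (.node (.node .leaf (nat_lit 24840682217260395) (.br (nat_lit 2) (.cons (.br (nat_lit 3) (.cons (.rel (nat_lit 335676432)) .nil)) .nil)) .leaf) (nat_lit 24842843668707508) (.br (nat_lit 0) (.cons (.br (nat_lit 1) (.cons (.rel (nat_lit 20971797)) .nil)) .nil)) .leaf)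

/-- refutations 108 -/
def e108 : EX := (.node (.node .leaf (nat_lit 25080687592481078) (.br (nat_lit 0) (.cons (.br (nat_lit 1) (.cons (.rel (nat_lit 20972832)) .nil)) .nil)) .leaf) (nat_lit 25080690872427902) (.br (nat_lit 1) (.cons (.br (nat_lit 4) (.cons (.rel (nat_lit 1091600400)) .nil)) .nil)) .leaf)

/-- refutations 109 -/
def e109 : EX := (.node (.node .leaf (nat_lit 25087585310261560) (.br (nat_lit 0) (.cons (.br (nat_lit 3) (.cons (.rel (nat_lit 272908308)) .nil)) .nil)) .leaf) (nat_lit 25099781570043914) (.br (nat_lit 0) (.cons (.br (nat_lit 1) (.cons (.rel (nat_lit 21110784)) .nil)) .nil)) .leaf)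

/-- refutations 110 -/
def e110 : EX := (.node .leaf (nat_lit 25169719793098085) (.br (nat_lit 0) (.cons (.br (nat_lit 1) (.cons (.rel (nat_lit 20972832)) .nil)) .nil)) .leaf)

/-- refutations 111 -/
def e111 : EX := (.node (.node .leaf (nat_lit 25181081772320280) (.br (nat_lit 0) (.cons (.br (nat_lit 4) (.cons (.rel (nat_lit 1077941250)) .nil)) .nil)) .leaf) (nat_lit 25181081772463480) (.br (nat_lit 5) (.cons (.br (nat_lit 0) (.cons (.rel (nat_lit 8598327360)) (.cons (.rel (nat_lit 4299424260)) .nil))) .nil)) (.node .leaf (nat_lit 25187741365271908) (.br (nat_lit 1) (.cons (.br (nat_lit 2) (.cons (.rel (nat_lit 83918913)) .nil)) .nil)) .leaf))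

/-- refutations 112 -/
def e112 : EX := (.node (.node (.node (.node (.node (.node .leaf (nat_lit 25262482917172606) (.br (nat_lit 2) (.cons (.br (nat_lit 5) (.cons (.rel (nat_lit 8658092304)) .nil)) .nil)) .leaf) (nat_lit 25262483340520351) (.br (nat_lit 3) (.cons (.br (nat_lit 5) (.cons (.rel (nat_lit 4563403392)) .nil)) .nil)) .leaf) (nat_lit 25262483502100486) (.br (nat_lit 1) (.cons (.br (nat_lit 5) (.cons (.rel (nat_lit 4311746052)) .nil)) .nil)) (.node (.node .leaf (nat_lit 25262483504374046) (.br (nat_lit 0) (.cons (.br (nat_lit 1) (.cons (.rel (nat_lit 21004800)) .nil)) .nil)) .leaf) (nat_lit 25262486019930263) (.br (nat_lit 0) (.cons (.br (nat_lit 1) (.cons (.rel (nat_lit 25691136)) .nil)) .nil)) .leaf)) (nat_lit 25262486020957097) (.br (nat_lit 2) (.cons (.br (nat_lit 5) (.cons (.rel (nat_lit 4362093060)) .nil)) .nil)) (.node (.node (.node .leaf (nat_lit 25262486021159817) (.br (nat_lit 1) (.cons (.br (nat_lit 2) (.cons (.rel (nat_lit 83895360)) .nil)) .nil)) .leaf) (nat_lit 25262486164978914)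 (.br (nat_lit 4) (.cons (.br (nat_lit 5) (.cons (.rel (nat_lit 5368725792)) .nil)) .nil)) .leaf) (nat_lit 25262487514432894) (.br (nat_lit 1) (.cons (.br (nat_lit 3) (.cons (.rel (nat_lit 285249792)) .nil)) .nil)) (.node .leaf (nat_lit 25262487610828937) (.br (nat_lit 1) (.cons (.br (nat_lit 3) (.cons (.rel (nat_lit 285217824)) .nil)) .nil)) .leaf))) (nat_lit 25262487744600076) (.br (nat_lit 0) (.cons (.br (nat_lit 1) (.cons (.rel (nat_lit 20972832)) .nil)) .nil)) (.node (.node (.node (.node .leaf (nat_lit 25262487744816041) (.br (nat_lit 4) (.cons (.br (nat_lit 1) (.cons (.rel (nat_lit 1107297288)) (.cons (.rel (nat_lit 1090585665)) .nil))) .nil)) .leaf) (nat_lit 25262487745046679) (.br (nat_lit 1) (.cons (.br (nat_lit 3) (.cons (.rel (nat_lit 301992072)) .nil)) .nil)) .leaf) (nat_lit 25262487745047783) (.br (nat_lit 1) (.cons (.br (nat_lit 4) (.cons (.rel (nat_lit 1107297288)) .nil)) .nil)) (.node (.node .leaf (nat_lit 25262488132313100) (.br (nat_lit 4) (.cons (.br (nat_lit 0) (.cons (.rel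 (nat_lit 2155892736)) (.cons (.rel (nat_lit 2156205120)) .nil))) .nil)) .leaf) (nat_lit 25262488133787660) (.br (nat_lit 1) (.cons (.br (nat_lit 4) (.cons (.rel (nat_lit 1107297288)) .nil)) .nil)) .leaf)) (nat_lit 25262488134860812) (.br (nat_lit 1) (.cons (.br (nat_lit 4) (.cons (.rel (nat_lit 1107296289)) (.cons (.rel (nat_lit 1090585665)) .nil))) (.cons (.br (nat_lit 4) (.cons (.rel (nat_lit 2164262916)) (.cons (.rel (nat_lit 1090519362)) .nil))) .nil))) (.node (.node (.node .leaf (nat_lit 25262488782730466) (.br (nat_lit 0) (.cons (.br (nat_lit 2) (.cons (.rel (nat_lit 142607616)) .nil)) .nil)) .leaf) (nat_lit 25262488785003902) (.br (nat_lit 0) (.cons (.br (nat_lit 4) (.cons (.rel (nat_lit 1077977088)) .nil)) .nil)) .leaf) (nat_lit 25262594035322118) (.br (nat_lit 4) (.cons (.br (nat_lit 5) (.cons (.rel (nat_lit 5368711680)) .nil)) .nil)) (.node .leaf (nat_lit 25262594035830123) (.br (nat_lit 0) (.cons (.br (nat_lit 1) (.cons (.rel (nat_lit 20971797)) .nil)) .nil)) .leaf)))) (nat_lit 25262594585068776)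 (.br (nat_lit 0) (.cons (.br (nat_lit 2) (.cons (.rel (nat_lit 71305728)) .nil)) .nil)) (.node (.node (.node (.node (.node .leaf (nat_lit 25262595172040183) (.br (nat_lit 0) (.cons (.br (nat_lit 6) (.cons (.rel (nat_lit 34363933956)) (.cons (.rel (nat_lit 17184460800)) .nil))) .nil)) .leaf) (nat_lit 25262595172486426) (.br (nat_lit 4) (.cons (.br (nat_lit 0) (.cons (.rel (nat_lit 1078003728)) (.cons (.rel (nat_lit 1077977088)) .nil))) .nil)) .leaf) (nat_lit 25262596635012629) (.br (nat_lit 0) (.cons (.br (nat_lit 1) (.cons (.rel (nat_lit 20972832)) .nil)) .nil)) (.node (.node .leaf (nat_lit 25262596637335031) (.br (nat_lit 0) (.cons (.br (nat_lit 1) (.cons (.rel (nat_lit 41959680)) .nil)) .nil)) .leaf) (nat_lit 25262597835921433) (.br (nat_lit 1) (.cons (.br (nat_lit 4) (.cons (.rel (nat_lit 1107297288)) .nil)) .nil)) .leaf)) (nat_lit 25262903887184809) (.br (nat_lit 0) (.cons (.br (nat_lit 3) (.cons (.rel (nat_lit 272695440)) .nil)) .nil)) (.node (.node (.node .leaf (nat_lit 25263461617639461)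 (.br (nat_lit 1) (.cons (.br (nat_lit 2) (.cons (.rel (nat_lit 84934665)) .nil)) .nil)) .leaf) (nat_lit 25263464218108656) (.br (nat_lit 2) (.cons (.br (nat_lit 4) (.cons (.rel (nat_lit 1140981840)) .nil)) .nil)) .leaf) (nat_lit 25263513159916207) (.br (nat_lit 0) (.cons (.br (nat_lit 1) (.cons (.rel (nat_lit 25165896)) .nil)) .nil)) (.node .leaf (nat_lit 25263514132671151) (.br (nat_lit 1) (.cons (.br (nat_lit 6) (.cons (.rel (nat_lit 17196777732)) .nil)) .nil)) .leaf))) (nat_lit 25263515758852276) (.br (nat_lit 4) (.cons (.br (nat_lit 0) (.cons (.rel (nat_lit 1077954561)) (.cons (.rel (nat_lit 1078003728)) .nil))) .nil)) (.node (.node (.node (.node .leaf (nat_lit 25263515759298822) (.br (nat_lit 2) (.cons (.br (nat_lit 6) (.cons (.rel (nat_lit 17247245376)) .nil)) .nil)) .leaf) (nat_lit 25263515760336104) (.br (nat_lit 4) (.cons (.br (nat_lit 0) (.cons (.rel (nat_lit 1077936390)) (.cons (.rel (nat_lit 1082131524)) .nil))) .nil)) .leaf) (nat_lit 25263515760337571) (.br (nat_lit 1) (.cons (.br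 (nat_lit 3) (.cons (.rel (nat_lit 285344256)) .nil)) .nil)) (.node .leaf (nat_lit 25263515806781441) (.br (nat_lit 0) (.cons (.br (nat_lit 1) (.cons (.rel (nat_lit 41959680)) .nil)) .nil)) .leaf)) (nat_lit 25263516433364194) (.br (nat_lit 0) (.cons (.br (nat_lit 3) (.cons (.rel (nat_lit 276971520)) .nil)) .nil)) (.node (.node (.node .leaf (nat_lit 25263516435616055) (.br (nat_lit 0) (.cons (.br (nat_lit 2) (.cons (.rel (nat_lit 71305728)) .nil)) .nil)) .leaf) (nat_lit 25263518808007536) (.br (nat_lit 1) (.cons (.br (nat_lit 2) (.cons (.rel (nat_lit 84934665)) .nil)) .nil)) .leaf) (nat_lit 25263519009884422) (.br (nat_lit 0) (.cons (.br (nat_lit 1) (.cons (.rel (nat_lit 21038100)) .nil)) .nil)) (.node .leaf (nat_lit 25263519011217719) (.br (nat_lit 2) (.cons (.br (nat_lit 4) (.cons (.rel (nat_lit 1141901328)) .nil)) .nil)) .leaf)))))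

/-- refutations 113 -/
def e113 : EX := (.node (.node (.node (.node (.node .leaf (nat_lit 25263713326507271) (.br (nat_lit 0) (.cons (.br (nat_lit 4) (.cons (.rel (nat_lit 1077977088)) .nil)) .nil)) .leaf) (nat_lit 25263713328833449) (.br (nat_lit 0) (.cons (.br (nat_lit 1) (.cons (.rel (nat_lit 25165896)) .nil)) .nil)) (.node .leaf (nat_lit 25263716388054393) (.br (nat_lit 0) (.cons (.br (nat_lit 3) (.cons (.rel (nat_lit 541163520)) .nil)) .nil)) .leaf)) (nat_lit 25263716390906732) (.br (nat_lit 0) (.cons (.br (nat_lit 1) (.cons (.rel (nat_lit 20971797)) .nil)) .nil)) (.node (.node .leaf (nat_lit 25263716503921895) (.br (nat_lit 2) (.cons (.br (nat_lit 5) (.cons (.rel (nat_lit 4429448196)) .nil)) .nil)) .leaf) (nat_lit 25263716504225301) (.br (nat_lit 1) (.cons (.br (nat_lit 4) (.cons (.rel (nat_lit 1091059713)) .nil)) .nil)) .leaf)) (nat_lit 25263985604726166) (.br (nat_lit 0) (.cons (.br (nat_lit 1) (.cons (.rel (nat_lit 38012928)) .nil)) .nil)) (.node (.node (.node .leaf (nat_lit 25263985606503337)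 (.br (nat_lit 2) (.cons (.br (nat_lit 5) (.cons (.rel (nat_lit 4362076194)) (.cons (.rel (nat_lit 4362076194)) .nil))) .nil)) .leaf) (nat_lit 25263986572268826) (.br (nat_lit 1) (.cons (.br (nat_lit 3) (.cons (.rel (nat_lit 285217824)) .nil)) .nil)) (.node .leaf (nat_lit 25263991400267129) (.br (nat_lit 1) (.cons (.br (nat_lit 2) (.cons (.rel (nat_lit 100729860)) .nil)) .nil)) .leaf)) (nat_lit 25263991401254294) (.br (nat_lit 0) (.cons (.br (nat_lit 1) (.cons (.rel (nat_lit 20975622)) .nil)) .nil)) (.node (.node .leaf (nat_lit 25264787067877376) (.br (nat_lit 0) (.cons (.br (nat_lit 4) (.cons (.rel (nat_lit 1077977088)) .nil)) .nil)) .leaf) (nat_lit 25264787070860016) (.br (nat_lit 0) (.cons (.br (nat_lit 1) (.cons (.rel (nat_lit 20988933)) .nil)) .nil)) .leaf))) (nat_lit 25264787070888091) (.br (nat_lit 3) (.cons (.br (nat_lit 4) (.cons (.rel (nat_lit 1342263552)) .nil)) .nil)) (.node (.node (.node (.node .leaf (nat_lit 25264787070959616) (.br (nat_lit 0) (.cons (.br (nat_lit 1) (.cons (.rel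 (nat_lit 20989968)) .nil)) .nil)) .leaf) (nat_lit 25267749130085289) (.br (nat_lit 0) (.cons (.br (nat_lit 1) (.cons (.rel (nat_lit 21004800)) .nil)) .nil)) (.node .leaf (nat_lit 25267851077041515) (.br (nat_lit 1) (.cons (.br (nat_lit 2) (.cons (.rel (nat_lit 168034560)) .nil)) .nil)) .leaf)) (nat_lit 25267854730308460) (.br (nat_lit 1) (.cons (.br (nat_lit 3) (.cons (.rel (nat_lit 285212964)) .nil)) .nil)) (.node (.node .leaf (nat_lit 25268286222041775) (.br (nat_lit 0) (.cons (.br (nat_lit 1) (.cons (.rel (nat_lit 20975622)) .nil)) .nil)) .leaf) (nat_lit 25268841518530740) (.br (nat_lit 1) (.cons (.br (nat_lit 2) (.cons (.rel (nat_lit 83918913)) .nil)) .nil)) .leaf)) (nat_lit 25268841519783936) (.br (nat_lit 3) (.cons (.br (nat_lit 5) (.cons (.rel (nat_lit 4563697665)) .nil)) .nil)) (.node (.node (.node .leaf (nat_lit 25268841549439751) (.br (nat_lit 2) (.cons (.br (nat_lit 5) (.cons (.rel (nat_lit 4362150912)) .nil)) .nil)) .leaf) (nat_lit 25268841965687721) (.br (nat_lit 4) (.cons (.br (nat_lit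 6) (.cons (.rel (nat_lit 18253873248)) .nil)) .nil)) (.node .leaf (nat_lit 25268841967323911) (.br (nat_lit 2) (.cons (.br (nat_lit 5) (.cons (.rel (nat_lit 4362076194)) .nil)) .nil)) .leaf)) (nat_lit 25268841967590036) (.br (nat_lit 0) (.cons (.br (nat_lit 2) (.cons (.rel (nat_lit 71336976)) (.cons (.rel (nat_lit 71319840)) (.cons (.rel (nat_lit 71319840)) .nil)))) (.cons (.br (nat_lit 2) (.cons (.rel (nat_lit 71312388)) (.cons (.rel (nat_lit 71323665)) (.cons (.rel (nat_lit 71305728)) .nil)))) (.cons (.br (nat_lit 2) (.cons (.rel (nat_lit 71323665)) (.cons (.rel (nat_lit 71309601)) (.cons (.rel (nat_lit 71305728)) .nil)))) .nil)))) (.node (.node .leaf (nat_lit 25268841968574646) (.br (nat_lit 4) (.cons (.br (nat_lit 5) (.cons (.rel (nat_lit 10737419520)) .nil)) .nil)) .leaf) (nat_lit 25268918826923541) (.br (nat_lit 0) (.cons (.br (nat_lit 4) (.cons (.rel (nat_lit 1077952536)) .nil)) .nil)) .leaf))))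

/-- refutations 114 -/
def e114 : EX := (.node (.node (.node (.node (.node .leaf (nat_lit 25269080490254487) (.br (nat_lit 1) (.cons (.br (nat_lit 5) (.cons (.rel (nat_lit 4328587392)) .nil)) .nil)) .leaf) (nat_lit 25269083090955177) (.br (nat_lit 1) (.cons (.br (nat_lit 2) (.cons (.rel (nat_lit 168034560)) .nil)) .nil)) .leaf) (nat_lit 25269084814581911) (.br (nat_lit 2) (.cons (.br (nat_lit 5) (.cons (.rel (nat_lit 4362093060)) .nil)) .nil)) (.node .leaf (nat_lit 25269311912600359) (.br (nat_lit 2) (.cons (.br (nat_lit 3) (.cons (.rel (nat_lit 335564832)) .nil)) .nil)) .leaf)) (nat_lit 25269311915173266) (.br (nat_lit 0) (.cons (.br (nat_lit 2) (.cons (.rel (nat_lit 75564096)) .nil)) .nil)) (.node (.node (.node .leaf (nat_lit 25269311915173397) (.br (nat_lit 1) (.cons (.br (nat_lit 3) (.cons (.rel (nat_lit 285229065)) .nil)) .nil)) .leaf) (nat_lit 25269313963878702) (.br (nat_lit 1) (.cons (.br (nat_lit 5) (.cons (.rel (nat_lit 8623493124)) .nil)) .nil)) .leaf) (nat_lit 25269313966187171)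 (.br (nat_lit 0) (.cons (.br (nat_lit 4) (.cons (.rel (nat_lit 2152202304)) .nil)) .nil)) (.node .leaf (nat_lit 25269315017718671) (.br (nat_lit 1) (.cons (.br (nat_lit 2) (.cons (.rel (nat_lit 83968080)) .nil)) .nil)) .leaf))) (nat_lit 25269315018886526) (.br (nat_lit 0) (.cons (.br (nat_lit 5) (.cons (.rel (nat_lit 4299505665)) .nil)) .nil)) (.node (.node (.node (.node .leaf (nat_lit 25269348323601941) (.br (nat_lit 3) (.cons (.br (nat_lit 0) (.cons (.rel (nat_lit 274726917)) (.cons (.rel (nat_lit 272892162)) .nil))) .nil)) .leaf) (nat_lit 25270001207133586) (.br (nat_lit 0) (.cons (.br (nat_lit 1) (.cons (.rel (nat_lit 42012672)) .nil)) .nil)) .leaf) (nat_lit 25270422064862566) (.br (nat_lit 0) (.cons (.br (nat_lit 2) (.cons (.rel (nat_lit 71319840)) .nil)) .nil)) (.node .leaf (nat_lit 25273597742095111) (.br (nat_lit 2) (.cons (.br (nat_lit 4) (.cons (.rel (nat_lit 1140981840)) .nil)) .nil)) .leaf)) (nat_lit 25274299176257691) (.br (nat_lit 2) (.cons (.br (nat_lit 3) (.cons (.rel (nat_lit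 335550720)) .nil)) .nil)) (.node (.node .leaf (nat_lit 25274299177741594) (.br (nat_lit 1) (.cons (.br (nat_lit 4) (.cons (.rel (nat_lit 2164262916)) .nil)) .nil)) .leaf) (nat_lit 25274299925402375) (.br (nat_lit 1) (.cons (.br (nat_lit 4) (.cons (.rel (nat_lit 1090519362)) .nil)) .nil)) (.node .leaf (nat_lit 25274299926032394) (.br (nat_lit 0) (.cons (.br (nat_lit 1) (.cons (.rel (nat_lit 20989968)) .nil)) .nil)) .leaf))))

/-- refutations 115 -/
def e115 : EX := (.node (.node (.node (.node (.node (.node .leaf (nat_lit 25275501968193847) (.br (nat_lit 0) (.cons (.br (nat_lit 2) (.cons (.rel (nat_lit 71312388)) .nil)) .nil)) .leaf) (nat_lit 25275702407079394) (.br (nat_lit 0) (.cons (.br (nat_lit 1) (.cons (.rel (nat_lit 25691136)) .nil)) .nil)) .leaf) (nat_lit 25275702819427559) (.br (nat_lit 0) (.cons (.br (nat_lit 3) (.cons (.rel (nat_lit 272695440)) .nil)) .nil)) (.node .leaf (nat_lit 25275702819782113) (.br (nat_lit 1) (.cons (.br (nat_lit 4) (.cons (.rel (nat_lit 2164260882)) .nil)) .nil))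 .leaf)) (nat_lit 25275702822315239) (.br (nat_lit 0) (.cons (.br (nat_lit 3) (.cons (.rel (nat_lit 272892162)) .nil)) .nil)) (.node (.node (.node .leaf (nat_lit 25275702928745200) (.br (nat_lit 0) (.cons (.br (nat_lit 1) (.cons (.rel (nat_lit 21004800)) .nil)) .nil)) .leaf) (nat_lit 25275703302403303) (.br (nat_lit 1) (.cons (.br (nat_lit 4) (.cons (.rel (nat_lit 1090523232)) .nil)) .nil)) .leaf) (nat_lit 25275705552807143) (.br (nat_lit 0) (.cons (.br (nat_lit 4) (.cons (.rel (nat_lit 1077977088)) .nil)) .nil)) (.node .leaf (nat_lit 25275705927970023) (.br (nat_lit 2) (.cons (.br (nat_lit 5) (.cons (.rel (nat_lit 4362084609)) .nil)) .nil)) .leaf))) (nat_lit 25275705928748438) (.br (nat_lit 0) (.cons (.br (nat_lit 4) (.cons (.rel (nat_lit 1077977088)) .nil)) .nil)) (.node (.node (.node (.node .leaf (nat_lit 25275705930294503) (.br (nat_lit 5) (.cons (.br (nat_lit 2) (.cons (.br (nat_lit 4) (.cons (.br (nat_lit 3) (.cons (.rel (nat_lit 9126805824)) (.cons (.rel (nat_lit 4563403392)) (.cons (.rel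 (nat_lit 9126805824)) (.cons (.rel (nat_lit 4563403392)) (.cons (.rel (nat_lit 2415920256)) .nil)))))) (.cons (.rel (nat_lit 5368711680)) (.cons (.rel (nat_lit 2214658056)) .nil)))) (.cons (.rel (nat_lit 4362078228)) (.cons (.rel (nat_lit 4362076194)) .nil)))) .nil)) .leaf) (nat_lit 25275705930524823) (.br (nat_lit 1) (.cons (.br (nat_lit 4) (.cons (.rel (nat_lit 1107297288)) .nil)) .nil)) .leaf) (nat_lit 25275705930525609) (.br (nat_lit 1) (.cons (.br (nat_lit 4) (.cons (.rel (nat_lit 1091639328)) .nil)) .nil)) (.node .leaf (nat_lit 25275707519935771) (.br (nat_lit 1) (.cons (.br (nat_lit 4) (.cons (.rel (nat_lit 1090523232)) .nil)) .nil)) .leaf)) (nat_lit 25275707652667572) (.br (nat_lit 4) (.cons (.br (nat_lit 6) (.cons (.rel (nat_lit 18253631760)) .nil)) .nil)) (.node (.node .leaf (nat_lit 25275707652898996) (.br (nat_lit 6) (.cons (.br (nat_lit 1) (.cons (.br (nat_lit 2) (.cons (.rel (nat_lit 17246979336)) (.cons (.rel (nat_lit 100668417)) .nil))) (.cons (.rel (nat_lit 34377043968)) .nil)))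 .nil)) .leaf) (nat_lit 25275707925297153) (.br (nat_lit 0) (.cons (.br (nat_lit 1) (.cons (.rel (nat_lit 20975622)) .nil)) .nil)) (.node .leaf (nat_lit 25275707925530779) (.br (nat_lit 0) (.cons (.br (nat_lit 2) (.cons (.rel (nat_lit 71305728)) .nil)) .nil)) .leaf)))) (nat_lit 25275707936743461) (.br (nat_lit 3) (.cons (.br (nat_lit 1) (.cons (.rel (nat_lit 285278232)) (.cons (.rel (nat_lit 285344256)) .nil))) .nil)) (.node (.node (.node (.node (.node .leaf (nat_lit 25275707937818661) (.br (nat_lit 4) (.cons (.br (nat_lit 1) (.cons (.rel (nat_lit 1091059713)) (.cons (.rel (nat_lit 1090519362)) (.cons (.rel (nat_lit 2164262916)) .nil)))) (.cons (.br (nat_lit 2) (.cons (.rel (nat_lit 1140856128)) (.cons (.rel (nat_lit 1140856128)) (.cons (.rel (nat_lit 1140856128)) .nil)))) .nil))) .leaf) (nat_lit 25275708072036403) (.br (nat_lit 1) (.cons (.br (nat_lit 2) (.cons (.rel (nat_lit 83918913)) .nil)) .nil)) .leaf) (nat_lit 25275708073814953) (.br (nat_lit 0) (.cons (.br (nat_lit 1) (.cons (.rel (nat_lit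 21038100)) (.cons (.rel (nat_lit 21037065)) .nil))) .nil)) (.node .leaf (nat_lit 25275708073815446) (.br (nat_lit 0) (.cons (.br (nat_lit 1) (.cons (.rel (nat_lit 20972832)) .nil)) .nil)) .leaf)) (nat_lit 25275708674674699) (.br (nat_lit 0) (.cons (.br (nat_lit 1) (.cons (.rel (nat_lit 25165896)) .nil)) .nil)) (.node (.node .leaf (nat_lit 25275708674675463) (.br (nat_lit 6) (.cons (.br (nat_lit 0) (.cons (.rel (nat_lit 34364195136)) (.cons (.rel (nat_lit 34368127056)) .nil))) .nil)) .leaf) (nat_lit 25275708674991336) (.br (nat_lit 1) (.cons (.br (nat_lit 6) (.cons (.rel (nat_lit 34393292820)) .nil)) .nil)) (.node .leaf (nat_lit 25275708674991491) (.br (nat_lit 0) (.cons (.br (nat_lit 1) (.cons (.rel (nat_lit 20975622)) (.cons (.rel (nat_lit 20975622)) .nil))) (.cons (.br (nat_lit 1) (.cons (.rel (nat_lit 21250113)) (.cons (.rel (nat_lit 22286592)) .nil))) .nil))) .leaf))) (nat_lit 25275708675308931) (.br (nat_lit 1) (.cons (.br (nat_lit 4) (.cons (.rel (nat_lit 1091108880)) .nil)) .nil)) (.node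 (.node (.node (.node .leaf (nat_lit 25275708676309172) (.br (nat_lit 1) (.cons (.br (nat_lit 4) (.cons (.rel (nat_lit 1090585665)) .nil)) .nil)) .leaf) (nat_lit 25275708676310424) (.br (nat_lit 4) (.cons (.br (nat_lit 5) (.cons (.rel (nat_lit 5368741893)) .nil)) .nil)) .leaf) (nat_lit 25275708677286163) (.br (nat_lit 1) (.cons (.br (nat_lit 3) (.cons (.rel (nat_lit 285213954)) .nil)) .nil)) (.node .leaf (nat_lit 25275708677287174) (.br (nat_lit 0) (.cons (.br (nat_lit 1) (.cons (.rel (nat_lit 21038100)) .nil)) .nil)) .leaf)) (nat_lit 25275708677287394) (.br (nat_lit 0) (.cons (.br (nat_lit 4) (.cons (.rel (nat_lit 1083183105)) .nil)) .nil)) (.node (.node .leaf (nat_lit 25275708677287445) (.br (nat_lit 2) (.cons (.br (nat_lit 4) (.cons (.rel (nat_lit 1140851268)) .nil)) .nil)) .leaf) (nat_lit 25275708677563119) (.br (nat_lit 0) (.cons (.br (nat_lit 5) (.cons (.rel (nat_lit 4303421448)) (.cons (.rel (nat_lit 4301275152)) .nil))) .nil)) (.node .leaf (nat_lit 25275708677563623) (.br (nat_lit 3) (.cons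 (.br (nat_lit 6) (.cons (.br (nat_lit 5) (.cons (.rel (nat_lit 38654713872)) (.cons (.rel (nat_lit 25769807904)) .nil))) .nil)) .nil)) .leaf)))))

/-- refutations 116 -/
def e116 : EX := (.node (.node (.node .leaf (nat_lit 25193147016462336) (.br (nat_lit 0) (.cons (.br (nat_lit 3) (.cons (.rel (nat_lit 276971520)) .nil)) .nil)) .leaf) (nat_lit 25193150266746389) (.br (nat_lit 0) (.cons (.br (nat_lit 3) (.cons (.rel (nat_lit 272646273)) .nil)) .nil)) .leaf) (nat_lit 25203274547488027) (.br (nat_lit 3) (.cons (.br (nat_lit 0) (.cons (.rel (nat_lit 541066248)) (.cons (.rel (nat_lit 541066248)) .nil))) .nil)) (.node (.node .leaf (nat_lit 25203274549346465) (.br (nat_lit 0) (.cons (.br (nat_lit 1) (.cons (.rel (nat_lit 20976657)) .nil)) .nil)) .leaf) (nat_lit 25203274549347090) (.br (nat_lit 0) (.cons (.br (nat_lit 3) (.cons (.rel (nat_lit 276824082)) .nil)) .nil)) .leaf))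

/-- refutations 118 -/
def e118 : EX := (.node (.node (.node (.node .leaf (nat_lit 26407177584124686) (.br (nat_lit 2) (.cons (.br (nat_lit 4) (.cons (.rel (nat_lit 1140981840)) .nil)) .nil)) .leaf) (nat_lit 26407178185532028) (.br (nat_lit 0) (.cons (.br (nat_lit 2) (.cons (.rel (nat_lit 71307528)) .nil)) .nil)) .leaf) (nat_lit 26407178186493459) (.br (nat_lit 0) (.cons (.br (nat_lit 1) (.cons (.rel (nat_lit 41959680)) .nil)) .nil)) (.node (.node .leaf (nat_lit 26407179551239399) (.br (nat_lit 0) (.cons (.br (nat_lit 2) (.cons (.rel (nat_lit 71372832)) .nil)) .nil)) .leaf) (nat_lit 26407179551560456) (.br (nat_lit 4) (.cons (.br (nat_lit 6) (.cons (.rel (nat_lit 18253873248)) .nil)) .nil)) .leaf)) (nat_lit 26407183267596439) (.br (nat_lit 0) (.cons (.br (nat_lit 1) (.cons (.rel (nat_lit 20972832)) .nil)) .nil)) (.node (.node (.node .leaf (nat_lit 26411778965210344) (.br (nat_lit 2) (.cons (.br (nat_lit 3) (.cons (.rel (nat_lit 335545860)) .nil)) .nil)) .leaf) (nat_lit 26416866394676581) (.br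 (nat_lit 0) (.cons (.br (nat_lit 2) (.cons (.rel (nat_lit 72351873)) .nil)) .nil)) .leaf) (nat_lit 26418989345914384) (.br (nat_lit 0) (.cons (.br (nat_lit 2) (.cons (.rel (nat_lit 71323665)) .nil)) .nil)) (.node .leaf (nat_lit 26418994509101832) (.br (nat_lit 1) (.cons (.br (nat_lit 2) (.cons (.rel (nat_lit 83918913)) .nil)) .nil)) .leaf)))

/-- refutations 119 -/
def e119 : EX := (.node (.node (.node .leaf (nat_lit 26424757298957074) (.br (nat_lit 4) (.cons (.br (nat_lit 5) (.cons (.rel (nat_lit 10737419520)) .nil)) .nil)) .leaf) (nat_lit 26430164850818575) (.br (nat_lit 0) (.cons (.br (nat_lit 1) (.cons (.rel (nat_lit 20975622)) .nil)) .nil)) (.node .leaf (nat_lit 26434644312586992) (.br (nat_lit 0) (.cons (.br (nat_lit 1) (.cons (.rel (nat_lit 20971797)) .nil)) .nil)) .leaf)) (nat_lit 26436786452751747) (.br (nat_lit 2) (.cons (.br (nat_lit 3) (.cons (.rel (nat_lit 335610129)) .nil)) .nil)) (.node (.node .leaf (nat_lit 26436786455322936) (.br (nat_lit 0) (.cons (.br (nat_lit 1) (.cons (.rel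 (nat_lit 21037065)) .nil)) .nil)) .leaf) (nat_lit 26436787101245752) (.br (nat_lit 4) (.cons (.br (nat_lit 0) (.cons (.rel (nat_lit 1078071552)) (.cons (.rel (nat_lit 1078071552)) .nil))) .nil)) (.node .leaf (nat_lit 26436787691053212) (.br (nat_lit 0) (.cons (.br (nat_lit 1) (.cons (.rel (nat_lit 21004800)) .nil)) .nil)) .leaf)))

/-- refutations 120 -/
def e120 : EX := (.node (.node (.node (.node .leaf (nat_lit 26599600622412656) (.br (nat_lit 1) (.cons (.br (nat_lit 6) (.cons (.rel (nat_lit 17213693952)) .nil)) .nil)) .leaf) (nat_lit 26600521900015616) (.br (nat_lit 0) (.cons (.br (nat_lit 5) (.cons (.rel (nat_lit 4303634496)) .nil)) .nil)) .leaf) (nat_lit 26600521900017173) (.br (nat_lit 0) (.cons (.br (nat_lit 4) (.cons (.br (nat_lit 5) (.cons (.rel (nat_lit 5374083072)) .nil)) .nil)) .nil)) (.node (.node .leaf (nat_lit 26600522997367095) (.br (nat_lit 1) (.cons (.br (nat_lit 5) (.cons (.rel (nat_lit 8623493124)) .nil)) .nil)) .leaf) (nat_lit 26600760236819192) (.br (nat_lit 1) (.cons (.br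 (nat_lit 2) (.cons (.rel (nat_lit 100664592)) .nil)) .nil)) .leaf)) (nat_lit 26600762445998840) (.br (nat_lit 0) (.cons (.br (nat_lit 1) (.cons (.rel (nat_lit 25691136)) .nil)) .nil)) (.node (.node (.node .leaf (nat_lit 26600762447217400) (.br (nat_lit 1) (.cons (.br (nat_lit 2) (.cons (.rel (nat_lit 83968080)) .nil)) .nil)) .leaf) (nat_lit 26600765583025039) (.br (nat_lit 0) (.cons (.br (nat_lit 1) (.cons (.rel (nat_lit 37748868)) .nil)) .nil)) .leaf) (nat_lit 26600766233096347) (.br (nat_lit 0) (.cons (.br (nat_lit 1) (.cons (.rel (nat_lit 25691136)) .nil)) .nil)) (.node .leaf (nat_lit 26602017542382823) (.br (nat_lit 1) (.cons (.br (nat_lit 3) (.cons (.rel (nat_lit 285230100)) .nil)) .nil)) .leaf)))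

/-- refutations 121 -/
def e121 : EX := (.node (.node (.node .leaf (nat_lit 26606046220721033) (.br (nat_lit 1) (.cons (.br (nat_lit 5) (.cons (.rel (nat_lit 4311752712)) .nil)) .nil)) .leaf) (nat_lit 26606049023501225) (.br (nat_lit 1) (.cons (.br (nat_lit 2) (.cons (.rel (nat_lit 83918913)) .nil)) .nil)) .leaf) (nat_lit 26607009843660927) (.br (nat_lit 0) (.cons (.br (nat_lit 4) (.cons (.rel (nat_lit 1082392704)) .nil)) .nil)) (.node (.node .leaf (nat_lit 26607010968070450) (.br (nat_lit 1) (.cons (.br (nat_lit 4) (.cons (.rel (nat_lit 2164262916)) .nil)) .nil)) .leaf) (nat_lit 26607010970118950) (.br (nat_lit 1) (.cons (.br (nat_lit 6) (.cons (.rel (nat_lit 34393292820)) .nil)) .nil)) .leaf))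

/-- refutations 122 -/
def e122 : EX := (.node (.node (.node (.node (.node .leaf (nat_lit 26476726827424620) (.br (nat_lit 1) (.cons (.br (nat_lit 4) (.cons (.rel (nat_lit 1090519362)) .nil)) .nil)) .leaf) (nat_lit 26477580703567210) (.br (nat_lit 0) (.cons (.br (nat_lit 2) (.cons (.rel (nat_lit 142607616)) .nil)) .nil)) .leaf) (nat_lit 26477580705121662) (.br (nat_lit 1) (.cons (.br (nat_lit 4) (.cons (.rel (nat_lit 1107297288)) .nil)) .nil)) (.node (.node .leaf (nat_lit 26477582655471778) (.br (nat_lit 1) (.cons (.br (nat_lit 4) (.cons (.rel (nat_lit 2164262916)) .nil)) .nil)) .leaf) (nat_lit 26477585302078846) (.br (nat_lit 5) (.cons (.br (nat_lit 2) (.cons (.rel (nat_lit 4363403265)) (.cons (.rel (nat_lit 4362076194)) .nil))) .nil)) .leaf)) (nat_lit 26477586554260088) (.br (nat_lit 0) (.cons (.br (nat_lit 6) (.cons (.rel (nat_lit 34368127056)) .nil)) .nil)) (.node (.node (.node .leaf (nat_lit 26477586556174498) (.br (nat_lit 3) (.cons (.br (nat_lit 5) (.cons (.rel (nat_lit 4563697665)) .nil))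 .nil)) .leaf) (nat_lit 26477788913172740) (.br (nat_lit 0) (.cons (.br (nat_lit 1) (.cons (.rel (nat_lit 20980260)) (.cons (.rel (nat_lit 21004800)) .nil))) (.cons (.br (nat_lit 1) (.cons (.rel (nat_lit 20975622)) (.cons (.rel (nat_lit 20972832)) .nil))) .nil))) .leaf) (nat_lit 26478647907707035) (.br (nat_lit 0) (.cons (.br (nat_lit 1) (.cons (.rel (nat_lit 20988933)) .nil)) .nil)) (.node (.node .leaf (nat_lit 26482144011100470) (.br (nat_lit 1) (.cons (.br (nat_lit 2) (.cons (.br (nat_lit 5) (.cons (.rel (nat_lit 4362150912)) (.cons (.rel (nat_lit 4362150912)) (.cons (.rel (nat_lit 4330619904)) .nil)))) .nil)) .nil)) .leaf) (nat_lit 26484069208234860) (.br (nat_lit 1) (.cons (.br (nat_lit 2) (.cons (.rel (nat_lit 84935700)) .nil)) .nil)) .leaf))) (nat_lit 26487504130286505) (.br (nat_lit 0) (.cons (.br (nat_lit 1) (.cons (.rel (nat_lit 20975622)) .nil)) .nil)) (.node (.node (.node (.node .leaf (nat_lit 26487504130589479) (.br (nat_lit 0) (.cons (.br (nat_lit 1) (.cons (.rel (nat_lit 25691136))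 .nil)) .nil)) .leaf) (nat_lit 26489563660685622) (.br (nat_lit 0) (.cons (.br (nat_lit 5) (.cons (.rel (nat_lit 4299169920)) .nil)) .nil)) .leaf) (nat_lit 26489563661972231) (.br (nat_lit 1) (.cons (.br (nat_lit 2) (.cons (.rel (nat_lit 168034560)) .nil)) .nil)) (.node (.node .leaf (nat_lit 26489563661973013) (.br (nat_lit 2) (.cons (.br (nat_lit 3) (.cons (.rel (nat_lit 335610129)) .nil)) .nil)) .leaf) (nat_lit 26489563662589160) (.br (nat_lit 2) (.cons (.br (nat_lit 5) (.cons (.rel (nat_lit 4362080784)) (.cons (.rel (nat_lit 4362077193)) (.cons (.rel (nat_lit 8724152337)) (.cons (.rel (nat_lit 4362076194)) .nil))))) (.cons (.br (nat_lit 5) (.cons (.rel (nat_lit 4362080784)) (.cons (.rel (nat_lit 4362084609)) (.cons (.rel (nat_lit 4362076194)) (.cons (.rel (nat_lit 4362093060)) .nil))))) .nil))) .leaf)) (nat_lit 26489563663573302) (.br (nat_lit 0) (.cons (.br (nat_lit 2) (.cons (.rel (nat_lit 71305728)) .nil)) .nil)) (.node (.node (.node .leaf (nat_lit 26489565612940520) (.br (nat_lit 1) (.cons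 (.br (nat_lit 2) (.cons (.rel (nat_lit 151015425)) (.cons (.rel (nat_lit 168034560)) .nil))) (.cons (.br (nat_lit 2) (.cons (.rel (nat_lit 168034560)) (.cons (.rel (nat_lit 84934665)) .nil))) .nil))) .leaf) (nat_lit 26489569511739702) (.br (nat_lit 1) (.cons (.br (nat_lit 4) (.cons (.rel (nat_lit 1091108880)) .nil)) .nil)) .leaf) (nat_lit 26489569513026311) (.br (nat_lit 1) (.cons (.br (nat_lit 2) (.cons (.rel (nat_lit 151015425)) .nil)) .nil)) (.node .leaf (nat_lit 26489569513643240) (.br (nat_lit 1) (.cons (.br (nat_lit 2) (.cons (.rel (nat_lit 84934665)) .nil)) .nil)) .leaf))))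

/-- refutations 123 -/
def e123 : EX := (.node (.node (.node .leaf (nat_lit 27023144499363079) (.br (nat_lit 0) (.cons (.br (nat_lit 3) (.cons (.rel (nat_lit 541073664)) .nil)) .nil)) .leaf) (nat_lit 27023206708190089) (.br (nat_lit 1) (.cons (.br (nat_lit 2) (.cons (.rel (nat_lit 83890500)) .nil)) .nil)) .leaf) (nat_lit 27023208010752186) (.br (nat_lit 0) (.cons (.br (nat_lit 1) (.cons (.rel (nat_lit 20975622)) .nil)) .nil)) (.node (.node .leaf (nat_lit 27029217714689431) (.br (nat_lit 4) (.cons (.br (nat_lit 0) (.cons (.rel (nat_lit 1077952536)) (.cons (.rel (nat_lit 1082392704)) .nil))) .nil)) .leaf) (nat_lit 27034715773584866) (.br (nat_lit 1) (.cons (.br (nat_lit 4) (.cons (.rel (nat_lit 1107297288)) .nil)) .nil)) .leaf))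

/-- refutations 124 -/
def e124 : EX := (.node .leaf (nat_lit 27366818696387965) (.br (nat_lit 0) (.cons (.br (nat_lit 1) (.cons (.rel (nat_lit 41959680)) .nil)) .nil)) .leaf)

/-- refutations 125 -/
def e125 : EX := (.node (.node (.node (.node .leaf (nat_lit 27445116028259241) (.br (nat_lit 0) (.cons (.br (nat_lit 5) (.cons (.rel (nat_lit 4303360005)) .nil)) .nil)) .leaf) (nat_lit 27445142972272925) (.br (nat_lit 3) (.cons (.br (nat_lit 4) (.cons (.rel (nat_lit 1342455873)) .nil)) .nil)) .leaf) (nat_lit 27445144398340848) (.br (nat_lit 0) (.cons (.br (nat_lit 3) (.cons (.rel (nat_lit 272892162)) (.cons (.rel (nat_lit 276971520)) .nil))) .nil)) (.node .leaf (nat_lit 27449654111694230) (.br (nat_lit 2) (.cons (.br (nat_lit 6) (.cons (.rel (nat_lit 17246982162)) .nil)) .nil)) .leaf)) (nat_lit 27451636438848895) (.br (nat_lit 5) (.cons (.br (nat_lit 6) (.cons (.rel (nat_lit 21474841728)) (.cons (.rel (nat_lit 25769807904)) .nil))) .nil)) (.node (.node (.node .leaf (nat_lit 27451638918681882) (.br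 (nat_lit 0) (.cons (.br (nat_lit 3) (.cons (.rel (nat_lit 272908308)) .nil)) .nil)) .leaf) (nat_lit 27451638919243135) (.br (nat_lit 0) (.cons (.br (nat_lit 2) (.cons (.rel (nat_lit 142607616)) .nil)) .nil)) .leaf) (nat_lit 27451810184716300) (.br (nat_lit 2) (.cons (.br (nat_lit 4) (.cons (.rel (nat_lit 1140856128)) (.cons (.rel (nat_lit 1140932673)) .nil))) .nil)) (.node .leaf (nat_lit 27451841947045095) (.br (nat_lit 0) (.cons (.br (nat_lit 1) (.cons (.rel (nat_lit 20972832)) .nil)) .nil)) .leaf)))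

/-- list of the parts -/
def L0 : List (ℕ × List ℕ) := [(nat_lit 0x200, [cP]),
  (nat_lit 0x20000000, [Nat.sub (Nat.pow 2 810) (Nat.pow 2 0), Nat.sub (Nat.pow 2 3136) (Nat.pow 2 810)]),
  (nat_lit 0x400000000, [Nat.sub (Nat.pow 2 935) (Nat.pow 2 0), Nat.sub (Nat.pow 2 3136) (Nat.pow 2 935)]),
  (nat_lit 0x1000000400, [cP]),
  (nat_lit 0x20000000000, [Nat.sub (Nat.pow 2 935) (Nat.pow 2 0), Nat.sub (Nat.pow 2 3136) (Nat.pow 2 935)]),
  (nat_lit 0x40000010000000000, [cP]),
  (nat_lit 0x10000000000000000000000000000000000, [Nat.sub (Nat.pow 2 805) (Nat.pow 2 0), Nat.sub (Nat.pow 2 3136) (Nat.pow 2 805)]),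
  (nat_lit 0x4000000000000000000000000000000000, [cP]),
  (nat_lit 0x80000000000000000000000000000000000, [cP]),
  (nat_lit 0x200000000000000000000000000000000000, [Nat.sub (Nat.pow 2 754) (Nat.pow 2 0), Nat.sub (Nat.pow 2 3136) (Nat.pow 2 754)]),
  (nat_lit 0x100000000000000000000000000000000000, [cP]),
  (nat_lit 0x20000000000000000000000000000000000000000, [cP]),
  (nat_lit 0x200000000000000000000000000000000000000000, [cP]),
  (nat_lit 0x800400000000000000000000000000000000000000000, [cP]),
  (nat_lit 0x1000000000000000000000000000000000000000000000, [cP]),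
  (nat_lit 0x20000000000000000000000000000000000000000000000, [Nat.sub (Nat.pow 2 636) (Nat.pow 2 0), Nat.sub (Nat.pow 2 1391) (Nat.pow 2 636), Nat.sub (Nat.pow 2 3136) (Nat.pow 2 1391)]),
  (nat_lit 0x2000000000000000000000000000000000000000000000, [cP]),
  (nat_lit 0x200000000000000000000000000000000000000000000000, [cP]),
  (nat_lit 0x400000000000000000000000000000000000000000000000, [cP]),
  (nat_lit 0x200000000000000000000000000000000000000000000000000000000000000000, [Nat.sub (Nat.pow 2 811) (Nat.pow 2 0), Nat.sub (Nat.pow 2 3136) (Nat.pow 2 811)]),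
  (nat_lit 0x10000000000000000000000000000000000000000000000000000000000000000, [cP]),
  (nat_lit 0x2000000000000000000000000000000000000000000000000000000000000000000, [cP]),
  (nat_lit 0x4000000000000000000000000000000000000000000000000000000000000000000, [cP]),
  (nat_lit 0x10000000000000000000000000000000000000000000000000000000000000000000000, [cP]),
  (nat_lit 0x100000000000000000000000000000000000000000000000000000000000000000000000, [cP]),
  (nat_lit 0x200000000000000000000000000000000000000000000000000000000000000000000000, [cP]),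
  (nat_lit 0x20000000000000000000000000000000000000000000000000000000000000000000000000000, [Nat.sub (Nat.pow 2 779) (Nat.pow 2 0), Nat.sub (Nat.pow 2 3136) (Nat.pow 2 779)]),
  (nat_lit 0x10000000000000000000000000000000000000000000000000000000000000000000000000000, [cP]),
  (nat_lit 0x200000000000000000000000000000000000000000000000000000000000000000000000000000, [Nat.sub (Nat.pow 2 891) (Nat.pow 2 0), Nat.sub (Nat.pow 2 3136) (Nat.pow 2 891)]),
  (nat_lit 0x440000000000000000000000000000000000000000000000000000000000000000000000000000, [cP]),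
  (nat_lit 0x40000000000000000000000000000000000000000000000000000000000000000000000000000000000000000000000000000000000000000000000000000000000000000000000000000000000000, [Nat.sub (Nat.pow 2 939) (Nat.pow 2 0), Nat.sub (Nat.pow 2 3136) (Nat.pow 2 939)]),
  (nat_lit 0x4000000000000000000000000000000000000000000000000000000000000000000000000000000, [cP]),
  (nat_lit 0x80000000000000000000000000000000000000000000000000000000000000000000000000000000000000000000000000000000000000000000000000000000000000000000000000000000000000, [cP]),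
  (nat_lit 0x8800000000000000000000000000000000000000000000000000000000000000000000000000000000000000000000000000000000000000000000000000000000000000000000000000000000000000, [cP]),
  (nat_lit 0x40000000000000000000000000000000000000000000000000000000000000000000000000000000000000000000000000000000000000000000000000000000000000000000000000000000000000000000, [Nat.sub (Nat.pow 2 60) (Nat.pow 2 0), Nat.sub (Nat.pow 2 154) (Nat.pow 2 60), Nat.sub (Nat.pow 2 261) (Nat.pow 2 154), Nat.sub (Nat.pow 2 640) (Nat.pow 2 261), Nat.sub (Nat.pow 2 756) (Nat.pow 2 640), Nat.sub (Nat.pow 2 784) (Nat.pow 2 756), Nat.sub (Nat.pow 2 891) (Nat.pow 2 784), Nat.sub (Nat.pow 2 1280) (Nat.pow 2 891), Nat.sub (Nat.pow 2 1380) (Nat.pow 2 1280), Nat.sub (Nat.pow 2 1435) (Nat.pow 2 1380), Nat.sub (Nat.pow 2 1531) (Nat.pow 2 1435), Nat.sub (Nat.pow 2 3136) (Nat.pow 2 1531)]),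
  (nat_lit 0x80010000000000000000000000000000000000000000000000000000000000000000000000000000000000000000000000000000000000000000000000000000000000000000000000000000000000000000, [cP]),
  (nat_lit 0x100000000000000000000000000000000000000000000000000000000000000000000000000000000000000000000000000000000000000000000000000000000000000000000000000000000000000000000, [cP]),
  (nat_lit 0x2000000000000000000000000000000000000000000000000000000000000000000000000000000000000000000000000000000000000000000000000000000000000000000000000000000000000000000000000000, [Nat.sub (Nat.pow 2 805) (Nat.pow 2 0), Nat.sub (Nat.pow 2 3136) (Nat.pow 2 805)]),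
  (nat_lit 0x100000000000000000000000000000000000000000000000000000000000000000000000000000000000000000000000000000000000000000000000000000000000000000000000000000000000000000000000000, [cP]),
  (nat_lit 0x800000000000000004000000000000000000000000000000000000000000000000000000000000000000000000000000000000000000000000000000000000000000000000000000000000000000000000000000000000000000000000000, [cP]),
  (nat_lit 0x8000000000000000000000000000000000000000000000000000000000000000000000000000000000000000000000000000000000000000000000000000000000000000000000000000000000000000000000000000000000000000000000, [cP]),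
  (nat_lit 0x800000000000000000000000000000000000000000000000000000000000000000000000000000000000000000000000000000000000000000000000000000000000000000000000000000000000000000000000000000000000000000000000000, [Nat.sub (Nat.pow 2 1305) (Nat.pow 2 0), Nat.sub (Nat.pow 2 3136) (Nat.pow 2 1305)]),
  (nat_lit 0x1000400000000000000000000000000000000000000000000000000000000000000000000000000000000000000000000000000000000000000000000000000000000000000000000000000000000000000000000000000000000000000000000000, [cP]),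
  (nat_lit 0x10000000000000000000000000000000000000000000000000000000000000000000000000000000000000000000000000000000000000000000000000000000000000000000000000000000000000000000000000000000000000000000000000000, [cP]),
  (nat_lit 0x20000000000000000000000000000000000000000000000000000000000000000000000000000000000000000000000000000000000000000000000000000000000000000000000000000000000000000000000000000000000000000000000000000, [cP]),
  (nat_lit 0x40000000000000000000000000000000000000000000000000000000000000000000000000000000000000000000000000000000000000000000000000000000000000000000000000000000000000000000000000000000000000000000000000000000000, [Nat.sub (Nat.pow 2 1280) (Nat.pow 2 0), Nat.sub (Nat.pow 2 3136) (Nat.pow 2 1280)]),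
  (nat_lit 0x40000000000000000000000000000000000000000000000000000000000000000000000000000000000000000000000000000000000000000000000000000000000000000000000000000000000000000000000000000000000000000000000000000, [cP]),
  (nat_lit 0x800000000000000000000000000000000000000000000000000000000000000000000000000000000000000000000000000000000000000000000000000000000000000000000000000000000000000000000000000000000000000000000000000000000000, [cP]),
  (nat_lit 0x400000000000000000000000000000000000000000000000000000000000000000000000000000000000000000000000000000000000000000000000000000000000000000000000000000000000000000000000000000000000000000000000000000000000000000000000000000, [Nat.sub (Nat.pow 2 784) (Nat.pow 2 0), Nat.sub (Nat.pow 2 3136) (Nat.pow 2 784)]),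
  (nat_lit 0x10000000000000000000000000000000000000000000000000000000000000000000000000000000000000000000000000000000000000000000000000000000000000000000000000000000000000000000000000000000000000000000000000000000000000000000000000000000000, [Nat.sub (Nat.pow 2 940) (Nat.pow 2 0), Nat.sub (Nat.pow 2 3136) (Nat.pow 2 940)]),
  (nat_lit 0x4100000000000000000000000000000000000000000000000000000000000000000000000000000000000000000000000000000000000000000000000000000000000000000000000000000000000000000000000000000000000000000000000000000000000000000000000000000, [cP]),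
  (nat_lit 0x20000000000000000000000000000000000000000000000000000000000000000000000000000000000000000000000000000000000000000000000000000000000000000000000000000000000000000000000000000000000000000000000000000000000000000000000000000000000, [cP]),
  (nat_lit 0x4000000000000000000000000000000000000000000000000000000000000000000000000000000000000000000000000000000000000000000000000000000000000000000000000000000000000000000000000000000000000000000000000000000000000000000000000000000000000, [cP]),
  (nat_lit 0x8000000000000000000000000000000000000000000000000000000000000000000000000000000000000000000000000000000000000000000000000000000000000000000000000000000000000000000000000000000000000000000000000000000000000000000000000000000000000, [cP]),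
  (nat_lit 0x10000000000000000000000000000000000000000000000000000000000000000000000000000000000000000000000000000000000000000000000000000000000000000000000000000000000000000000000000000000000000000000000000000000000000000000000000000000000000, [cP]),
  (nat_lit 0x10000000000000000000000000000000000000000000000000000000000000000000000000000000000000000000000000000000000000000000000000000000000000000000000000000000000000000000000000000000000000000000000000000000000000000000000000000000000000000000, [Nat.sub (Nat.pow 2 766) (Nat.pow 2 0), Nat.sub (Nat.pow 2 3136) (Nat.pow 2 766)]),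
  (nat_lit 0x80000000000000000000000000000000000000000000000000000000000000000000000000000000000000000000000000000000000000000000000000000000000000000000000000000000000000000000000000000000000000000000000000000000000000000000000000000000000000000000000000000000000000000000000000000000000000000000000000000000000000000000000000000000, [Nat.sub (Nat.pow 2 766) (Nat.pow 2 0), Nat.sub (Nat.pow 2 3136) (Nat.pow 2 766)]),
  (nat_lit 0x1000000000000000000000000000000000000000000000000000000000000000000000000000000000000000000000000000000000000000000000000000000000000000000000000000000000000000000000000000000000000000000000000000000000000000000000000000000000000000000000000000000000000000000000000000000000000000000000000000000000000000000000000000000000, [Nat.sub (Nat.pow 2 636) (Nat.pow 2 0), Nat.sub (Nat.pow 2 1430) (Nat.pow 2 636), Nat.sub (Nat.pow 2 3136) (Nat.pow 2 1430)]),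
  (nat_lit 0x2000000000000000000000000000000000000000000000000000000000000000000000000000000000000000000000000000000000000000000000000000000000000000000000000000000000000000000000000000000000000000000000000000000000000000000000000000000000000000000000000000000000000000000000000000000000000000000000000000000000000000000000000000000000, [Nat.sub (Nat.pow 2 631) (Nat.pow 2 0), Nat.sub (Nat.pow 2 1441) (Nat.pow 2 631), Nat.sub (Nat.pow 2 3136) (Nat.pow 2 1441)]),
  (nat_lit 0x20000000000000000000000000000000000000000000000000000000000000000000000000000000000000000000000000000000000000000000000000000000000000000000000000000000000000000000000000000000000000000000000000000000000000000000000000000000000000000000000000000000000000000000000000000000000000000000000000000000000000000000000000000000000, [Nat.sub (Nat.pow 2 691) (Nat.pow 2 0), Nat.sub (Nat.pow 2 3136) (Nat.pow 2 691)]),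
  (nat_lit 0x8800000000000000000000000000000000000000000000000000000000000000000000000000000000000000000000000000000000000000000000000000000000000000000000000000000000000000000000000000000000000000000000000000000000000000000000000000000000000000000, [cP]),
  (nat_lit 0x100040000000000000000000000000000000000000000000000000000000000000000000000000000000000000000000000000000000000000000000000000000000000000000000000000000000000000000000000000000000000000000000000000000000000000000000000000000000000000000000000000000000000000000000000000000000000000000000000000000000000000000000000000000000000, [cP]),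
  (nat_lit 0x100000000000000000000000000000000000000000000000000000000000000000000000000000000000000000000000000000000000000000000000000000000000000000000000000000000000000000000000000000000000000000000000000000000000000000000000000000000000000000000000000000000000000000000000000000000000000000000000000000000000000000000000000000000000000000, [cP]),
  (nat_lit 0x1800000000000000000000000000000000000000000000000000000000000000000000000000000000000000000000000000000000000000000000000000000000000000000000000000000000000000000000000000000000000000000000000000000000000000000000000000000000000000000000000000000000000000000000000000000000000000000000000000000000000000000000000000000000000000000000000000000000, [cP]),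
  (nat_lit 0x10000000000000000000000000000000000000000000000000000000000000000000000000000000000000000000000000000000000000000000000000000000000000000000000000000000000000000000000000000000000000000000000000000000000000000000000000000000000000000000000000000000000000000000000000000000000000000000000000000000000000000000000000000000000000000000000000000000000, [cP]),
  (nat_lit 0x20000000000000000000000000000000000000000000000000000000000000000000000000000000000000000000000000000000000000000000000000000000000000000000000000000000000000000000000000000000000000000000000000000000000000000000000000000000000000000000000000000000000000000000000000000000000000000000000000000000000000000000000000000000000000000000000000000000000, [cP]),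
  (nat_lit 0x200000000000000000000000000000000000000000000000000000000000000000000000000000000000000000000000000000000000000000000000000000000000000000000000000000000000000000000000000000000000000000000000000000000000000000000000000000000000000000000000000000000000000000000000000000000000000000000000000000000000000000000000000000000000000000000000000000000000, [cP]),
  (nat_lit 0x1000000000000000000000000000000000000000000000000000000000000000000000000000000000000000000000000000000000000000000000000000000000000000000000000000000000000000000000000000000000000000000000000000000000000000000000000000000000000000000000000000000000000000000000000000000000000000000000000000000000000000000000000000000000000000000000000000000000000000, [cP]),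
  (nat_lit 0x20000000000000000000000000000000000000000000000000000000000000000000000000000000000000000000000000000000000000000000000000000000000000000000000000000000000000000000000000000000000000000000000000000000000000000000000000000000000000000000000000000000000000000000000000000000000000000000000000000000000000000000000000000000000000000000000000000000000000000, [Nat.sub (Nat.pow 2 756) (Nat.pow 2 0), Nat.sub (Nat.pow 2 3136) (Nat.pow 2 756)]),
  (nat_lit 0x2000000000000000000000000000000000000000000000000000000000000000000000000000000000000000000000000000000000000000000000000000000000000000000000000000000000000000000000000000000000000000000000000000000000000000000000000000000000000000000000000000000000000000000000000000000000000000000000000000000000000000000000000000000000000000000000000000000000000000, [cP]),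
  (nat_lit 0x80000000000000000000000000000000000000000000000000000000000000000000000000000000000000000000000000000000000000000000000000000000000000000000000000000000000000000000000000000000000000000000000000000000000000000000000000000000000000000000000000000000000000000000000000000000000000000000000000000000000000000000000000000000000000000000000000000000000000000, [cP]),
  (nat_lit 0x400000000000000000000000000000000000000000000000000000000000000000000000000000000000000000000000000000000000000000000000000000000000000000000000000000000000000000000000000000000000000000000000000000000000000000000000000000000000000000000000000000000000000000000000000000000000000000000000000000000000000000000000000000000000000000000000000000000000000000, [cP]),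
  (nat_lit 0x1000000000000000000000000000000000000000000000000000000000000000000000000000000000000000000000000000000000000000000000000000000000000000000000000000000000000000000000000000000000000000000000000000000000000000000000000000000000000000000000000000000000000000000000000000000000000000000000000000000000000000000000000000000000000000000000000000000000000000000, [cP]),
  (nat_lit 0x2000000000000000000000000000000000000000000000000000000000000000000000000000000000000000000000000000000000000000000000000000000000000000000000000000000000000000000000000000000000000000000000000000000000000000000000000000000000000000000000000000000000000000000000000000000000000000000000000000000000000000000000000000000000000000000000000000000000000000000000, [cP]),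
  (nat_lit 0x4000000000000000000000000000000000000000000000000000000000000000000000000000000000000000000000000000000000000000000000000000000000000000000000000000000000000000000000000000000000000000000000000000000000000000000000000000000000000000000000000000000000000000000000000000000000000000000000000000000000000000000000000000000000000000000000000000000000000000000000, [cP]),
  (nat_lit 0x40000000000000000000000000000000000000000000000000000000000000000000000000000000000000000000000000000000000000000000000000000000000000000000000000000000000000000000000000000000000000000000000000000000000000000000000000000000000000000000000000000000000000000000000000000000000000000000000000000000000000000000000000000000000000000000000000000000000000000000000, [cP]),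
  (nat_lit 0x80000000000000000000000000000000000000000000000000000000000000000000000000000000000000000000000000000000000000000000000000000000000000000000000000000000000000000000000000000000000000000000000000000000000000000000000000000000000000000000000000000000000000000000000000000000000000000000000000000000000000000000000000000000000000000000000000000000000000000000000, [cP]),
  (nat_lit 0x1000000000000000000000000000000000000000000000000000000000000000000000000000000000000000000000000000000000000000000000000000000000000000000000000000000000000000000000000000000000000000000000000000000000000000000000000000000000000000000000000000000000000000000000000000000000000000000000000000000000000000000000000000000000000000000000000000000000000000000000000, [Nat.sub (Nat.pow 2 154) (Nat.pow 2 0), Nat.sub (Nat.pow 2 784) (Nat.pow 2 154), Nat.sub (Nat.pow 2 1504) (Nat.pow 2 784), Nat.sub (Nat.pow 2 3136) (Nat.pow 2 1504)]),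
  (nat_lit 0x900000000000000000000000000000000000000000000000000000000000000000000000000000000000000000000000000000000000000000000000000000000000000000000000000000000000000000000000000000000000000000000000000000000000000000000000000000000000000000000000000000000000000000000000000000000000000000000000000000000000000000000000000000000000000000000000000000000000000000000000, [cP]),
  (nat_lit 0x10000000000000000000000000000000000000000000000000000000000000000000000000000000000000000000000000000000000000000000000000000000000000000000000000000000000000000000000000000000000000000000000000000000000000000000000000000000000000000000000000000000000000000000000000000000000000000000000000000000000000000000000000000000000000000000000000000000000000000000000000000000000000000, [cP]),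
  (nat_lit 0x20000000000000000000000000000000000000000000000000000000000000000000000000000000000000000000000000000000000000000000000000000000000000000000000000000000000000000000000000000000000000000000000000000000000000000000000000000000000000000000000000000000000000000000000000000000000000000000000000000000000000000000000000000000000000000000000000000000000000000000000000000000000000000, [cP]),
  (nat_lit 0x40000000000000000000000000000000000000000000000000000000000000000000000000000000000000000000000000000000000000000000000000000000000000000000000000000000000000000000000000000000000000000000000000000000000000000000000000000000000000000000000000000000000000000000000000000000000000000000000000000000000000000000000000000000000000000000000000000000000000000000000000000000000000000, [cP]),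
  (nat_lit 0x10000000000000000000000000000000000000000000000000000000000000000000000000000000000000000000000000000000000000000000000000000000000000000000000000000000000000000000000000000000000000000000000000000000000000000000000000000000000000000000000000000000000000000000000000000000000000000000000000000000000000000000000000000000000000000000000000000000000000000000000000000000000000000000, [Nat.sub (Nat.pow 2 636) (Nat.pow 2 0), Nat.sub (Nat.pow 2 3136) (Nat.pow 2 636)]),
  (nat_lit 0x200000000000000000000000000000000000000000000000000000000000000000000000000000000000000000000000000000000000000000000000000000000000000000000000000000000000000000000000000000000000000000000000000000000000000000000000000000000000000000000000000000000000000000000000000000000000000000000000000000000000000000000000000000000000000000000000000000000000000000000000000000000000000000, [cP]),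
  (nat_lit 0x10000000000000000000000000000000000000000000000000000000000000000000000000000000000000000000000000000000000000000000000000000000000000000000000000000000000000000000000000000000000000000000000000000000000000000000000000000000000000000000000000000000000000000000000000000000000000000000000000000000000000000000000000000000000000000000000000000000000000000000000000000000000000000000000000, [cP]),
  (nat_lit 0x800000000000000000000000000000000000000000000000000000000000000000000000000000000000000000000000000000000000000000000000000000000000000000000000000000000000000000000000000000000000000000000000000000000000000000000000000000000000000000000000000000000000000000000000000000000000000000000000000000000000000000000000000000000000000000000000000000000000000000000000000000000000000000000000000000, [cP]),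
  (nat_lit 0x10000000000000000000000000000000000000000000000000000000000000000000000000000000000000000000000000000000000000000000000000000000000000000000000000000000000000000000000000000000000000000000000000000000000000000000000000000000000000000000000000000000000000000000000000000000000000000000000000000000000000000000000000000000000000000000000000000000000000000000000000000000000000000000000000000000, [cP])]

theorem hp0 : ∀ p ∈ L0, ∀ D2 ∈ p.2, ∃ e,
    search ext94 (Pool.Agent.H74.EGZ.vio sb) G Uc A0 p.1 D2 e = true :=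
  (List.forall_mem_cons.2 ⟨(List.forall_mem_singleton.2 ⟨.leaf, by decide +kernel⟩),
  (List.forall_mem_cons.2 ⟨(List.forall_mem_cons.2 ⟨⟨e1, by decide +kernel⟩,
  (List.forall_mem_singleton.2 ⟨e2, by decide +kernel⟩)⟩),
  (List.forall_mem_cons.2 ⟨(List.forall_mem_cons.2 ⟨⟨e3, by decide +kernel⟩,
  (List.forall_mem_singleton.2 ⟨e4, by decide +kernel⟩)⟩),
  (List.forall_mem_cons.2 ⟨(List.forall_mem_singleton.2 ⟨e5, by decide +kernel⟩),
  (List.forall_mem_cons.2 ⟨(List.forall_mem_cons.2 ⟨⟨e6, by decide +kernel⟩,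
  (List.forall_mem_singleton.2 ⟨e7, by decide +kernel⟩)⟩),
  (List.forall_mem_cons.2 ⟨(List.forall_mem_singleton.2 ⟨e8, by decide +kernel⟩),
  (List.forall_mem_cons.2 ⟨(List.forall_mem_cons.2 ⟨⟨e9, by decide +kernel⟩,
  (List.forall_mem_singleton.2 ⟨e10, by decide +kernel⟩)⟩),
  (List.forall_mem_cons.2 ⟨(List.forall_mem_singleton.2 ⟨e11, by decide +kernel⟩),
  (List.forall_mem_cons.2 ⟨(List.forall_mem_singleton.2 ⟨e12, by decide +kernel⟩),
  (List.forall_mem_cons.2 ⟨(List.forall_mem_cons.2 ⟨⟨e13, by decide +kernel⟩,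
  (List.forall_mem_singleton.2 ⟨e14, by decide +kernel⟩)⟩),
  (List.forall_mem_cons.2 ⟨(List.forall_mem_singleton.2 ⟨e15, by decide +kernel⟩),
  (List.forall_mem_cons.2 ⟨(List.forall_mem_singleton.2 ⟨e16, by decide +kernel⟩),
  (List.forall_mem_cons.2 ⟨(List.forall_mem_singleton.2 ⟨e17, by decide +kernel⟩),
  (List.forall_mem_cons.2 ⟨(List.forall_mem_singleton.2 ⟨e18, by decide +kernel⟩),
  (List.forall_mem_cons.2 ⟨(List.forall_mem_singleton.2 ⟨e19, by decide +kernel⟩),
  (List.forall_mem_cons.2 ⟨(List.forall_mem_cons.2 ⟨⟨e20, by decide +kernel⟩,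
  (List.forall_mem_cons.2 ⟨⟨e21, by decide +kernel⟩,
  (List.forall_mem_singleton.2 ⟨e22, by decide +kernel⟩)⟩)⟩),
  (List.forall_mem_cons.2 ⟨(List.forall_mem_singleton.2 ⟨e23, by decide +kernel⟩),
  (List.forall_mem_cons.2 ⟨(List.forall_mem_singleton.2 ⟨e24, by decide +kernel⟩),
  (List.forall_mem_cons.2 ⟨(List.forall_mem_singleton.2 ⟨e25, by decide +kernel⟩),
  (List.forall_mem_cons.2 ⟨(List.forall_mem_cons.2 ⟨⟨e26, by decide +kernel⟩,
  (List.forall_mem_singleton.2 ⟨e27, by decide +kernel⟩)⟩),
  (List.forall_mem_cons.2 ⟨(List.forall_mem_singleton.2 ⟨e28, by decide +kernel⟩),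
  (List.forall_mem_cons.2 ⟨(List.forall_mem_singleton.2 ⟨e29, by decide +kernel⟩),
  (List.forall_mem_cons.2 ⟨(List.forall_mem_singleton.2 ⟨e30, by decide +kernel⟩),
  (List.forall_mem_cons.2 ⟨(List.forall_mem_singleton.2 ⟨.leaf, by decide +kernel⟩),
  (List.forall_mem_cons.2 ⟨(List.forall_mem_singleton.2 ⟨e32, by decide +kernel⟩),
  (List.forall_mem_cons.2 ⟨(List.forall_mem_singleton.2 ⟨e33, by decide +kernel⟩),
  (List.forall_mem_cons.2 ⟨(List.forall_mem_cons.2 ⟨⟨e34, by decide +kernel⟩,
  (List.forall_mem_singleton.2 ⟨e35, by decide +kernel⟩)⟩),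
  (List.forall_mem_cons.2 ⟨(List.forall_mem_singleton.2 ⟨e36, by decide +kernel⟩),
  (List.forall_mem_cons.2 ⟨(List.forall_mem_cons.2 ⟨⟨.leaf, by decide +kernel⟩,
  (List.forall_mem_singleton.2 ⟨e38, by decide +kernel⟩)⟩),
  (List.forall_mem_cons.2 ⟨(List.forall_mem_singleton.2 ⟨e39, by decide +kernel⟩),
  (List.forall_mem_cons.2 ⟨(List.forall_mem_cons.2 ⟨⟨e40, by decide +kernel⟩,
  (List.forall_mem_singleton.2 ⟨e41, by decide +kernel⟩)⟩),
  (List.forall_mem_cons.2 ⟨(List.forall_mem_singleton.2 ⟨e42, by decide +kernel⟩),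
  (List.forall_mem_cons.2 ⟨(List.forall_mem_singleton.2 ⟨e43, by decide +kernel⟩),
  (List.forall_mem_cons.2 ⟨(List.forall_mem_singleton.2 ⟨e44, by decide +kernel⟩),
  (List.forall_mem_cons.2 ⟨(List.forall_mem_cons.2 ⟨⟨e45, by decide +kernel⟩,
  (List.forall_mem_cons.2 ⟨⟨e46, by decide +kernel⟩,
  (List.forall_mem_cons.2 ⟨⟨e47, by decide +kernel⟩,
  (List.forall_mem_cons.2 ⟨⟨e48, by decide +kernel⟩,
  (List.forall_mem_cons.2 ⟨⟨e49, by decide +kernel⟩,
  (List.forall_mem_cons.2 ⟨⟨e50, by decide +kernel⟩,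
  (List.forall_mem_cons.2 ⟨⟨e51, by decide +kernel⟩,
  (List.forall_mem_cons.2 ⟨⟨e52, by decide +kernel⟩,
  (List.forall_mem_cons.2 ⟨⟨e53, by decide +kernel⟩,
  (List.forall_mem_cons.2 ⟨⟨e54, by decide +kernel⟩,
  (List.forall_mem_cons.2 ⟨⟨e55, by decide +kernel⟩,
  (List.forall_mem_singleton.2 ⟨e56, by decide +kernel⟩)⟩)⟩)⟩)⟩)⟩)⟩)⟩)⟩)⟩)⟩)⟩),
  (List.forall_mem_cons.2 ⟨(List.forall_mem_singleton.2 ⟨e57, by decide +kernel⟩),
  (List.forall_mem_cons.2 ⟨(List.forall_mem_singleton.2 ⟨e58, by decide +kernel⟩),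
  (List.forall_mem_cons.2 ⟨(List.forall_mem_cons.2 ⟨⟨e59, by decide +kernel⟩,
  (List.forall_mem_singleton.2 ⟨e60, by decide +kernel⟩)⟩),
  (List.forall_mem_cons.2 ⟨(List.forall_mem_singleton.2 ⟨e61, by decide +kernel⟩),
  (List.forall_mem_cons.2 ⟨(List.forall_mem_singleton.2 ⟨e62, by decide +kernel⟩),
  (List.forall_mem_cons.2 ⟨(List.forall_mem_singleton.2 ⟨e63, by decide +kernel⟩),
  (List.forall_mem_cons.2 ⟨(List.forall_mem_cons.2 ⟨⟨e64, by decide +kernel⟩,
  (List.forall_mem_singleton.2 ⟨e65, by decide +kernel⟩)⟩),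
  (List.forall_mem_cons.2 ⟨(List.forall_mem_singleton.2 ⟨.leaf, by decide +kernel⟩),
  (List.forall_mem_cons.2 ⟨(List.forall_mem_singleton.2 ⟨.leaf, by decide +kernel⟩),
  (List.forall_mem_cons.2 ⟨(List.forall_mem_singleton.2 ⟨e68, by decide +kernel⟩),
  (List.forall_mem_cons.2 ⟨(List.forall_mem_cons.2 ⟨⟨e69, by decide +kernel⟩,
  (List.forall_mem_singleton.2 ⟨e70, by decide +kernel⟩)⟩),
  (List.forall_mem_cons.2 ⟨(List.forall_mem_singleton.2 ⟨e71, by decide +kernel⟩),
  (List.forall_mem_cons.2 ⟨(List.forall_mem_singleton.2 ⟨e72, by decide +kernel⟩),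
  (List.forall_mem_cons.2 ⟨(List.forall_mem_cons.2 ⟨⟨e73, by decide +kernel⟩,
  (List.forall_mem_singleton.2 ⟨e74, by decide +kernel⟩)⟩),
  (List.forall_mem_cons.2 ⟨(List.forall_mem_cons.2 ⟨⟨e75, by decide +kernel⟩,
  (List.forall_mem_singleton.2 ⟨e76, by decide +kernel⟩)⟩),
  (List.forall_mem_cons.2 ⟨(List.forall_mem_singleton.2 ⟨e77, by decide +kernel⟩),
  (List.forall_mem_cons.2 ⟨(List.forall_mem_singleton.2 ⟨e78, by decide +kernel⟩),
  (List.forall_mem_cons.2 ⟨(List.forall_mem_singleton.2 ⟨.leaf, by decide +kernel⟩),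
  (List.forall_mem_cons.2 ⟨(List.forall_mem_singleton.2 ⟨e80, by decide +kernel⟩),
  (List.forall_mem_cons.2 ⟨(List.forall_mem_singleton.2 ⟨e81, by decide +kernel⟩),
  (List.forall_mem_cons.2 ⟨(List.forall_mem_cons.2 ⟨⟨e82, by decide +kernel⟩,
  (List.forall_mem_singleton.2 ⟨e83, by decide +kernel⟩)⟩),
  (List.forall_mem_cons.2 ⟨(List.forall_mem_cons.2 ⟨⟨e84, by decide +kernel⟩,
  (List.forall_mem_singleton.2 ⟨e85, by decide +kernel⟩)⟩),
  (List.forall_mem_cons.2 ⟨(List.forall_mem_cons.2 ⟨⟨e86, by decide +kernel⟩,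
  (List.forall_mem_cons.2 ⟨⟨e87, by decide +kernel⟩,
  (List.forall_mem_singleton.2 ⟨.leaf, by decide +kernel⟩)⟩)⟩),
  (List.forall_mem_cons.2 ⟨(List.forall_mem_cons.2 ⟨⟨e89, by decide +kernel⟩,
  (List.forall_mem_cons.2 ⟨⟨e90, by decide +kernel⟩,
  (List.forall_mem_singleton.2 ⟨e91, by decide +kernel⟩)⟩)⟩),
  (List.forall_mem_cons.2 ⟨(List.forall_mem_cons.2 ⟨⟨e92, by decide +kernel⟩,
  (List.forall_mem_singleton.2 ⟨e93, by decide +kernel⟩)⟩),
  (List.forall_mem_cons.2 ⟨(List.forall_mem_singleton.2 ⟨.leaf, by decide +kernel⟩),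
  (List.forall_mem_cons.2 ⟨(List.forall_mem_singleton.2 ⟨.leaf, by decide +kernel⟩),
  (List.forall_mem_cons.2 ⟨(List.forall_mem_singleton.2 ⟨e96, by decide +kernel⟩),
  (List.forall_mem_cons.2 ⟨(List.forall_mem_singleton.2 ⟨e97, by decide +kernel⟩),
  (List.forall_mem_cons.2 ⟨(List.forall_mem_singleton.2 ⟨.leaf, by decide +kernel⟩),
  (List.forall_mem_cons.2 ⟨(List.forall_mem_singleton.2 ⟨.leaf, by decide +kernel⟩),
  (List.forall_mem_cons.2 ⟨(List.forall_mem_singleton.2 ⟨e100, by decide +kernel⟩),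
  (List.forall_mem_cons.2 ⟨(List.forall_mem_singleton.2 ⟨e101, by decide +kernel⟩),
  (List.forall_mem_cons.2 ⟨(List.forall_mem_cons.2 ⟨⟨e102, by decide +kernel⟩,
  (List.forall_mem_singleton.2 ⟨e103, by decide +kernel⟩)⟩),
  (List.forall_mem_cons.2 ⟨(List.forall_mem_singleton.2 ⟨e104, by decide +kernel⟩),
  (List.forall_mem_cons.2 ⟨(List.forall_mem_singleton.2 ⟨e105, by decide +kernel⟩),
  (List.forall_mem_cons.2 ⟨(List.forall_mem_singleton.2 ⟨e106, by decide +kernel⟩),
  (List.forall_mem_cons.2 ⟨(List.forall_mem_singleton.2 ⟨e107, by decide +kernel⟩),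
  (List.forall_mem_cons.2 ⟨(List.forall_mem_singleton.2 ⟨e108, by decide +kernel⟩),
  (List.forall_mem_cons.2 ⟨(List.forall_mem_singleton.2 ⟨e109, by decide +kernel⟩),
  (List.forall_mem_cons.2 ⟨(List.forall_mem_singleton.2 ⟨e110, by decide +kernel⟩),
  (List.forall_mem_cons.2 ⟨(List.forall_mem_singleton.2 ⟨e111, by decide +kernel⟩),
  (List.forall_mem_cons.2 ⟨(List.forall_mem_cons.2 ⟨⟨e112, by decide +kernel⟩,
  (List.forall_mem_cons.2 ⟨⟨e113, by decide +kernel⟩,
  (List.forall_mem_cons.2 ⟨⟨e114, by decide +kernel⟩,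
  (List.forall_mem_singleton.2 ⟨e115, by decide +kernel⟩)⟩)⟩)⟩),
  (List.forall_mem_cons.2 ⟨(List.forall_mem_singleton.2 ⟨e116, by decide +kernel⟩),
  (List.forall_mem_cons.2 ⟨(List.forall_mem_singleton.2 ⟨.leaf, by decide +kernel⟩),
  (List.forall_mem_cons.2 ⟨(List.forall_mem_singleton.2 ⟨e118, by decide +kernel⟩),
  (List.forall_mem_cons.2 ⟨(List.forall_mem_singleton.2 ⟨e119, by decide +kernel⟩),
  (List.forall_mem_cons.2 ⟨(List.forall_mem_cons.2 ⟨⟨e120, by decide +kernel⟩,
  (List.forall_mem_singleton.2 ⟨e121, by decide +kernel⟩)⟩),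
  (List.forall_mem_cons.2 ⟨(List.forall_mem_singleton.2 ⟨e122, by decide +kernel⟩),
  (List.forall_mem_cons.2 ⟨(List.forall_mem_singleton.2 ⟨e123, by decide +kernel⟩),
  (List.forall_mem_cons.2 ⟨(List.forall_mem_singleton.2 ⟨e124, by decide +kernel⟩),
  (List.forall_mem_singleton.2 (List.forall_mem_singleton.2 ⟨e125, by decide +kernel⟩))⟩)⟩)⟩)⟩)⟩)⟩)⟩)⟩)⟩)⟩)⟩)⟩)⟩)⟩)⟩)⟩)⟩)⟩)⟩)⟩)⟩)⟩)⟩)⟩)⟩)⟩)⟩)⟩)⟩)⟩)⟩)⟩)⟩)⟩)⟩)⟩)⟩)⟩)⟩)⟩)⟩)⟩)⟩)⟩)⟩)⟩)⟩)⟩)⟩)⟩)⟩)⟩)⟩)⟩)⟩)⟩)⟩)⟩)⟩)⟩)⟩)⟩)⟩)⟩)⟩)⟩)⟩)⟩)⟩)⟩)⟩)⟩)⟩)⟩)⟩)⟩)⟩)⟩)⟩)⟩)⟩)⟩)⟩)⟩)⟩)⟩)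

end

end Pool.Agent.H21.EGZ.S11
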