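import Pool.Agent.H21.EGZ.D12

/-!
# Stage 12 : search, part 0
-/

set_option autoImplicit false
set_option maxRecDepth 100000

namespace Pool.Agent.H21.EGZ.S12

noncomputable section

open Pool.Agent.H74.EGZ Pool.Agent.H94.Lift

/-- refutations 0 -/
def e0 : EX := (.node (.node (.node .leaf (nat_lit 181394435008513) (.br (nat_lit 1) (.cons (.br (nat_lit 2) (.cons (.rel (nat_lit 83888385)) .nil)) .nil)) .leaf) (nat_lit 181394742384776) (.br (nat_lit 0) (.cons (.br (nat_lit 2) (.cons (.rel (nat_lit 138412305)) .nil)) .nil)) (.node .leaf (nat_lit 181399567045515) (.br (nat_lit 0) (.cons (.br (nat_lit 2) (.cons (.rel (nat_lit 138417153)) .nil)) .nil)) .leaf)) (nat_lit 181399568555240) (.br (nat_lit 1) (.cons (.br (nat_lit 2) (.cons (.rel (nat_lit 83886372)) .nil)) .nil)) (.node (.node .leaf (nat_lit 181399570017512) (.br (nat_lit 0) (.cons (.br (nat_lit 3) (.cons (.rel (nat_lit 272630793)) .nil)) .nil)) .leaf) (nat_lit 181400158360808) (.br (nat_lit 1) (.cons (.br (nat_lit 3) (.cons (.rel (nat_lit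 285294672)) .nil)) .nil)) .leaf))

/-- refutations 1 -/
def e1 : EX := (.node (.node .leaf (nat_lit 181506605908775) (.br (nat_lit 0) (.cons (.br (nat_lit 1) (.cons (.rel (nat_lit 20972037)) .nil)) .nil)) .leaf) (nat_lit 181506607121684) (.br (nat_lit 5) (.cons (.br (nat_lit 0) (.cons (.rel (nat_lit 8598323457)) (.cons (.rel (nat_lit 4299180288)) .nil))) .nil)) (.node .leaf (nat_lit 181506607495304) (.br (nat_lit 0) (.cons (.br (nat_lit 1) (.cons (.rel (nat_lit 20975874)) .nil)) .nil)) .leaf))

/-- refutations 2 -/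
def e2 : EX := (.node (.node .leaf (nat_lit 11917078926193) (.br (nat_lit 2) (.cons (.br (nat_lit 3) (.cons (.rel (nat_lit 402657360)) .nil)) .nil)) .leaf) (nat_lit 13365939622573) (.br (nat_lit 0) (.cons (.br (nat_lit 2) (.cons (.rel (nat_lit 75568128)) .nil)) .nil)) .leaf)

/-- refutations 3 -/
def e3 : EX := (.node (.node (.node (.node (.node (.node .leaf (nat_lit 457654585544705) (.br (nat_lit 0) (.cons (.br (nat_lit 2) (.cons (.rel (nat_lit 75563280)) .nil)) .nil)) .leaf) (nat_lit 457655290425604) (.br (nat_lit 0) (.cons (.br (nat_lit 3) (.cons (.rel (nat_lit 272728080)) .nil)) .nil)) .leaf) (nat_lit 457655291760154) (.br (nat_lit 0) (.cons (.br (nat_lit 4) (.cons (.rel (nat_lit 1079005248)) .nil)) .nil)) (.node .leaf (nat_lit 457657269900170) (.br (nat_lit 1) (.cons (.br (nat_lit 3) (.cons (.rel (nat_lit 570687744)) .nil)) .nil)) .leaf)) (nat_lit 457657269981840) (.br (nat_lit 0) (.cons (.br (nat_lit 3) (.cons (.rel (nat_lit 272630793)) .nil)) .nil)) (.node (.node (.node .leaf (nat_lit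 457657269982460) (.br (nat_lit 4) (.cons (.br (nat_lit 2) (.cons (.rel (nat_lit 2281702464)) (.cons (.rel (nat_lit 2214608928)) (.cons (.rel (nat_lit 2281702464)) (.cons (.rel (nat_lit 2281702464)) .nil))))) (.cons (.br (nat_lit 2) (.cons (.rel (nat_lit 1140852864)) (.cons (.rel (nat_lit 2281702464)) (.cons (.rel (nat_lit 2214608928)) (.cons (.rel (nat_lit 1141244160)) .nil))))) .nil))) .leaf) (nat_lit 457657269982711) (.br (nat_lit 3) (.cons (.br (nat_lit 4) (.cons (.rel (nat_lit 1342178592)) .nil)) .nil)) .leaf) (nat_lit 457657272952833) (.br (nat_lit 1) (.cons (.br (nat_lit 3) (.cons (.rel (nat_lit 553730052)) .nil)) .nil)) (.node .leaf (nat_lit 457657273066748) (.br (nat_lit 2) (.cons (.br (nat_lit 4) (.cons (.rel (nat_lit 2281702464)) (.cons (.rel (nat_lit 2281702464)) .nil))) (.cons (.br (nat_lit 4) (.cons (.rel (nat_lit 1208042496)) (.cons (.rel (nat_lit 1141113876)) .nil))) .nil))) .leaf))) (nat_lit 457657722885352) (.br (nat_lit 3) (.cons (.br (nat_lit 2) (.cons (.rel (nat_lit 335578116))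 (.cons (.rel (nat_lit 335548674)) .nil))) .nil)) (.node (.node (.node (.node .leaf (nat_lit 457657722885503) (.br (nat_lit 0) (.cons (.br (nat_lit 6) (.cons (.rel (nat_lit 17184408576)) .nil)) .nil)) .leaf) (nat_lit 457657723194899) (.br (nat_lit 0) (.cons (.br (nat_lit 3) (.cons (.rel (nat_lit 272634384)) .nil)) .nil)) .leaf) (nat_lit 457657813825688) (.br (nat_lit 0) (.cons (.br (nat_lit 3) (.cons (.rel (nat_lit 541327365)) .nil)) .nil)) (.node .leaf (nat_lit 457657813826943) (.br (nat_lit 1) (.cons (.br (nat_lit 2) (.cons (.rel (nat_lit 83951637)) .nil)) .nil)) .leaf)) (nat_lit 457658310088056) (.br (nat_lit 4) (.cons (.br (nat_lit 5) (.cons (.rel (nat_lit 5368840452)) .nil)) .nil)) (.node (.node (.node .leaf (nat_lit 457658310169852) (.br (nat_lit 4) (.cons (.br (nat_lit 3) (.cons (.rel (nat_lit 1342193697)) (.cons (.rel (nat_lit 1342185984)) .nil))) .nil)) .leaf) (nat_lit 457658310169976) (.br (nat_lit 4) (.cons (.br (nat_lit 1) (.cons (.rel (nat_lit 1090519080)) (.cons (.rel (nat_lit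 1090519080)) .nil))) .nil)) .leaf) (nat_lit 457658356225256) (.br (nat_lit 3) (.cons (.br (nat_lit 4) (.cons (.rel (nat_lit 1342178592)) .nil)) .nil)) (.node .leaf (nat_lit 457658356225407) (.br (nat_lit 0) (.cons (.br (nat_lit 6) (.cons (.rel (nat_lit 17185112148)) .nil)) .nil)) .leaf)))) (nat_lit 457658356534803) (.br (nat_lit 3) (.cons (.br (nat_lit 4) (.cons (.rel (nat_lit 1342185984)) .nil)) .nil)) (.node (.node (.node (.node (.node .leaf (nat_lit 457658357601663) (.br (nat_lit 3) (.cons (.br (nat_lit 4) (.cons (.rel (nat_lit 1342181382)) .nil)) .nil)) .leaf) (nat_lit 457658359086463) (.br (nat_lit 2) (.cons (.br (nat_lit 6) (.cons (.rel (nat_lit 34426847238)) (.cons (.rel (nat_lit 17246994576)) .nil))) .nil)) .leaf) (nat_lit 457658359276406) (.br (nat_lit 0) (.cons (.br (nat_lit 3) (.cons (.rel (nat_lit 272631840)) .nil)) .nil)) (.node .leaf (nat_lit 457660973451265) (.br (nat_lit 0) (.cons (.br (nat_lit 5) (.cons (.rel (nat_lit 4304404488)) .nil)) .nil)) .leaf)) (nat_lit 457660973452826)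 (.br (nat_lit 0) (.cons (.br (nat_lit 2) (.cons (.rel (nat_lit 138690624)) .nil)) .nil)) (.node (.node (.node .leaf (nat_lit 457660973469697) (.br (nat_lit 1) (.cons (.br (nat_lit 3) (.cons (.rel (nat_lit 553730052)) .nil)) .nil)) .leaf) (nat_lit 457660973469703) (.br (nat_lit 0) (.cons (.br (nat_lit 1) (.cons (.rel (nat_lit 41947140)) .nil)) .nil)) .leaf) (nat_lit 457660973470478) (.br (nat_lit 2) (.cons (.br (nat_lit 3) (.cons (.rel (nat_lit 335544837)) .nil)) .nil)) (.node .leaf (nat_lit 457660975059104) (.br (nat_lit 0) (.cons (.br (nat_lit 1) (.cons (.rel (nat_lit 21234240)) .nil)) .nil)) .leaf))) (nat_lit 457660975060494) (.br (nat_lit 1) (.cons (.br (nat_lit 4) (.cons (.rel (nat_lit 2181038100)) .nil)) .nil)) (.node (.node (.node (.node .leaf (nat_lit 457660976523265) (.br (nat_lit 1) (.cons (.br (nat_lit 3) (.cons (.rel (nat_lit 553779201)) .nil)) .nil)) .leaf) (nat_lit 457660976635911) (.br (nat_lit 2) (.cons (.br (nat_lit 3) (.cons (.rel (nat_lit 403193856)) (.cons (.rel (nat_lit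 335578116)) .nil))) .nil)) .leaf) (nat_lit 457660976636191) (.br (nat_lit 2) (.cons (.br (nat_lit 3) (.cons (.rel (nat_lit 335544837)) (.cons (.rel (nat_lit 335807040)) .nil))) .nil)) (.node .leaf (nat_lit 457660976636684) (.br (nat_lit 2) (.cons (.br (nat_lit 6) (.cons (.rel (nat_lit 17247305748)) (.cons (.rel (nat_lit 17314087968)) (.cons (.rel (nat_lit 17247044736)) .nil)))) (.cons (.br (nat_lit 5) (.cons (.rel (nat_lit 4362117120)) (.cons (.rel (nat_lit 4362092565)) (.cons (.rel (nat_lit 4362142725)) (.cons (.rel (nat_lit 4362141714)) .nil))))) .nil))) .leaf)) (nat_lit 457703405869963) (.br (nat_lit 0) (.cons (.br (nat_lit 1) (.cons (.rel (nat_lit 41947140)) .nil)) .nil)) (.node (.node .leaf (nat_lit 457714769594424) (.br (nat_lit 2) (.cons (.br (nat_lit 3) (.cons (.rel (nat_lit 335552520)) .nil)) .nil)) .leaf) (nat_lit 457714769922104) (.br (nat_lit 1) (.cons (.br (nat_lit 3) (.cons (.rel (nat_lit 285294672)) .nil)) .nil)) (.node .leaf (nat_lit 457923575202599) (.br (nat_lit 1) (.cons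 (.br (nat_lit 2) (.cons (.rel (nat_lit 167788800)) .nil)) .nil)) .leaf)))))

/-- refutations 4 -/
def e4 : EX := (.node (.node (.node (.node (.node (.node .leaf (nat_lit 458577436142319) (.br (nat_lit 5) (.cons (.br (nat_lit 0) (.cons (.rel (nat_lit 4299245601)) (.cons (.rel (nat_lit 8598323457)) .nil))) .nil)) .leaf) (nat_lit 458578901095036) (.br (nat_lit 0) (.cons (.br (nat_lit 1) (.cons (.rel (nat_lit 21054465)) .nil)) .nil)) .leaf) (nat_lit 458578944608892) (.br (nat_lit 2) (.cons (.br (nat_lit 3) (.cons (.rel (nat_lit 671092740)) .nil)) .nil)) (.node .leaf (nat_lit 458579031118460) (.br (nat_lit 0) (.cons (.br (nat_lit 1) (.cons (.rel (nat_lit 25198656)) .nil)) .nil)) .leaf)) (nat_lit 458579034286716) (.br (nat_lit 0) (.cons (.br (nat_lit 1) (.cons (.rel (nat_lit 21041184)) .nil)) .nil)) (.node (.node (.node .leaf (nat_lit 458580180667744) (.br (nat_lit 0) (.cons (.br (nat_lit 1) (.cons (.rel (nat_lit 20972037)) .nil)) .nil)) .leaf) (nat_lit 458745460072608) (.br (nat_lit 1) (.cons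 (.br (nat_lit 2) (.cons (.rel (nat_lit 83952648)) .nil)) .nil)) .leaf) (nat_lit 458745507219616) (.br (nat_lit 4) (.cons (.br (nat_lit 1) (.cons (.rel (nat_lit 1090555905)) (.cons (.rel (nat_lit 1090555905)) .nil))) .nil)) (.node .leaf (nat_lit 458748191675644) (.br (nat_lit 0) (.cons (.br (nat_lit 2) (.cons (.rel (nat_lit 71573505)) (.cons (.rel (nat_lit 138477570)) .nil))) (.cons (.br (nat_lit 3) (.cons (.rel (nat_lit 272629782)) (.cons (.rel (nat_lit 272631840)) .nil))) .nil))) .leaf))) (nat_lit 458748191675895) (.br (nat_lit 3) (.cons (.br (nat_lit 4) (.cons (.rel (nat_lit 1342177545)) .nil)) .nil)) (.node (.node (.node (.node .leaf (nat_lit 458748841692016) (.br (nat_lit 2) (.cons (.br (nat_lit 3) (.cons (.rel (nat_lit 402654537)) .nil)) .nil)) .leaf) (nat_lit 458748841692436) (.br (nat_lit 1) (.cons (.br (nat_lit 2) (.cons (.rel (nat_lit 83890209)) .nil)) .nil)) .leaf) (nat_lit 458771990155926) (.br (nat_lit 1) (.cons (.br (nat_lit 3) (.cons (.rel (nat_lit 570687744)) .nil)) .nil))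 (.node .leaf (nat_lit 458775049302303) (.br (nat_lit 0) (.cons (.br (nat_lit 1) (.cons (.rel (nat_lit 21102612)) .nil)) .nil)) .leaf)) (nat_lit 458775049302321) (.br (nat_lit 4) (.cons (.br (nat_lit 6) (.cons (.rel (nat_lit 35433488385)) .nil)) .nil)) (.node (.node (.node .leaf (nat_lit 458775049302678) (.br (nat_lit 0) (.cons (.br (nat_lit 2) (.cons (.rel (nat_lit 71697408)) .nil)) .nil)) .leaf) (nat_lit 458780571620883) (.br (nat_lit 0) (.cons (.br (nat_lit 3) (.cons (.rel (nat_lit 272631840)) .nil)) .nil)) .leaf) (nat_lit 458952139707744) (.br (nat_lit 1) (.cons (.br (nat_lit 2) (.cons (.rel (nat_lit 83902488)) .nil)) .nil)) (.node .leaf (nat_lit 458954496824851) (.br (nat_lit 4) (.cons (.br (nat_lit 6) (.cons (.rel (nat_lit 18255184128)) (.cons (.rel (nat_lit 18253874193)) .nil))) (.cons (.br (nat_lit 6) (.cons (.rel (nat_lit 35433484548)) (.cons (.rel (nat_lit 35433484548)) .nil))) .nil))) .leaf)))) (nat_lit 458954970780554) (.br (nat_lit 1) (.cons (.br (nat_lit 3) (.cons (.rel (nat_lit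 285737472)) .nil)) .nil)) (.node (.node (.node (.node (.node .leaf (nat_lit 458954971089578) (.br (nat_lit 1) (.cons (.br (nat_lit 2) (.cons (.rel (nat_lit 101187648)) .nil)) .nil)) .leaf) (nat_lit 458954971333244) (.br (nat_lit 0) (.cons (.br (nat_lit 4) (.cons (.rel (nat_lit 1077936516)) (.cons (.rel (nat_lit 2151679488)) .nil))) (.cons (.br (nat_lit 2) (.cons (.rel (nat_lit 138690624)) (.cons (.rel (nat_lit 138413316)) .nil))) .nil))) .leaf) (nat_lit 458954971333488) (.br (nat_lit 0) (.cons (.br (nat_lit 1) (.cons (.rel (nat_lit 38076420)) .nil)) .nil)) (.node .leaf (nat_lit 458954971334108) (.br (nat_lit 2) (.cons (.br (nat_lit 3) (.cons (.rel (nat_lit 335577105)) .nil)) .nil)) .leaf)) (nat_lit 458954972053791) (.br (nat_lit 0) (.cons (.br (nat_lit 5) (.cons (.rel (nat_lit 4299169797)) (.cons (.rel (nat_lit 4299292689)) (.cons (.rel (nat_lit 4303487040)) .nil)))) (.cons (.br (nat_lit 3) (.cons (.rel (nat_lit 272631840)) (.cons (.rel (nat_lit 277086336)) .nil))) .nil))) (.node (.node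 (.node .leaf (nat_lit 458954972054780) (.br (nat_lit 4) (.cons (.br (nat_lit 5) (.cons (.rel (nat_lit 5368711170)) .nil)) .nil)) .leaf) (nat_lit 458954973832444) (.br (nat_lit 4) (.cons (.br (nat_lit 5) (.cons (.rel (nat_lit 5368710168)) .nil)) .nil)) .leaf) (nat_lit 458955390293344) (.br (nat_lit 2) (.cons (.br (nat_lit 4) (.cons (.rel (nat_lit 1207960068)) .nil)) .nil)) (.node .leaf (nat_lit 458955436347442) (.br (nat_lit 2) (.cons (.br (nat_lit 3) (.cons (.rel (nat_lit 335578116)) .nil)) .nil)) .leaf))) (nat_lit 458955436348947) (.br (nat_lit 6) (.cons (.br (nat_lit 4) (.cons (.rel (nat_lit 18255184128)) (.cons (.rel (nat_lit 18253611168)) (.cons (.rel (nat_lit 35433484548)) .nil)))) (.cons (.br (nat_lit 1) (.cons (.rel (nat_lit 17196662805)) (.cons (.rel (nat_lit 17196711954)) (.cons (.rel (nat_lit 17196777984)) .nil)))) .nil))) (.node (.node (.node (.node .leaf (nat_lit 458955436390687) (.br (nat_lit 0) (.cons (.br (nat_lit 4) (.cons (.rel (nat_lit 1078198530)) .nil)) .nil)) .leaf)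 (nat_lit 458955436430688) (.br (nat_lit 2) (.cons (.br (nat_lit 3) (.cons (.rel (nat_lit 335562000)) .nil)) .nil)) .leaf) (nat_lit 458955436658047) (.br (nat_lit 3) (.cons (.br (nat_lit 4) (.cons (.rel (nat_lit 2415939648)) .nil)) .nil)) (.node .leaf (nat_lit 458955436658195) (.br (nat_lit 0) (.cons (.br (nat_lit 1) (.cons (.rel (nat_lit 21005316)) .nil)) .nil)) .leaf)) (nat_lit 458955437874707) (.br (nat_lit 3) (.cons (.br (nat_lit 4) (.cons (.rel (nat_lit 1610891280)) .nil)) .nil)) (.node (.node .leaf (nat_lit 458955545400851) (.br (nat_lit 0) (.cons (.br (nat_lit 4) (.cons (.rel (nat_lit 1077936516)) .nil)) .nil)) .leaf) (nat_lit 458955545709951) (.br (nat_lit 0) (.cons (.br (nat_lit 1) (.cons (.rel (nat_lit 20979720)) .nil)) .nil)) (.node .leaf (nat_lit 458957909653636) (.br (nat_lit 0) (.cons (.br (nat_lit 1) (.cons (.rel (nat_lit 20975874)) .nil)) .nil)) .leaf)))))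

/-- refutations 5 -/
def e5 : EX := (.node (.node (.node (.node (.node .leaf (nat_lit 459562155004540) (.br (nat_lit 0) (.cons (.br (nat_lit 1) (.cons (.rel (nat_lit 22020240)) .nil)) .nil)) .leaf) (nat_lit 459564377986579) (.br (nat_lit 2) (.cons (.br (nat_lit 4) (.cons (.rel (nat_lit 1140852864)) .nil)) .nil)) .leaf) (nat_lit 459639061763304) (.br (nat_lit 0) (.cons (.br (nat_lit 2) (.cons (.rel (nat_lit 71569668)) .nil)) .nil)) (.node (.node .leaf (nat_lit 459639903483960) (.br (nat_lit 0) (.cons (.br (nat_lit 3) (.cons (.rel (nat_lit 272631840)) .nil)) .nil)) .leaf) (nat_lit 459639987688351) (.br (nat_lit 0) (.cons (.br (nat_lit 4) (.cons (.rel (nat_lit 1078263840)) .nil)) .nil)) .leaf)) (nat_lit 459641544791272) (.br (nat_lit 0) (.cons (.br (nat_lit 3) (.cons (.rel (nat_lit 272650500)) .nil)) .nil)) (.node (.node (.node .leaf (nat_lit 459641544791327) (.br (nat_lit 0) (.cons (.br (nat_lit 4) (.cons (.rel (nat_lit 1078263840)) .nil)) .nil)) .leaf) (nat_lit 459641544873192) (.br (nat_lit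 0) (.cons (.br (nat_lit 2) (.cons (.rel (nat_lit 142606656)) .nil)) .nil)) .leaf) (nat_lit 459641647044768) (.br (nat_lit 0) (.cons (.br (nat_lit 1) (.cons (.rel (nat_lit 21102612)) .nil)) .nil)) (.node .leaf (nat_lit 459642631096480) (.br (nat_lit 2) (.cons (.br (nat_lit 4) (.cons (.rel (nat_lit 1141244160)) .nil)) .nil)) .leaf))) (nat_lit 459642631416095) (.br (nat_lit 0) (.cons (.br (nat_lit 1) (.cons (.rel (nat_lit 21004305)) .nil)) .nil)) (.node (.node (.node (.node .leaf (nat_lit 459761953729768) (.br (nat_lit 4) (.cons (.br (nat_lit 5) (.cons (.rel (nat_lit 5368727040)) .nil)) .nil)) .leaf) (nat_lit 459776815597829) (.br (nat_lit 1) (.cons (.br (nat_lit 2) (.cons (.rel (nat_lit 167788800)) .nil)) .nil)) .leaf) (nat_lit 459776818108721) (.br (nat_lit 1) (.cons (.br (nat_lit 4) (.cons (.rel (nat_lit 1090535952)) .nil)) .nil)) (.node (.node .leaf (nat_lit 459778899858664) (.br (nat_lit 0) (.cons (.br (nat_lit 3) (.cons (.rel (nat_lit 545260560)) .nil)) .nil)) .leaf) (nat_lit 459778899940604)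 (.br (nat_lit 0) (.cons (.br (nat_lit 2) (.cons (.rel (nat_lit 76808196)) .nil)) .nil)) .leaf)) (nat_lit 459779000520729) (.br (nat_lit 1) (.cons (.br (nat_lit 2) (.cons (.rel (nat_lit 83919360)) .nil)) .nil)) (.node (.node (.node .leaf (nat_lit 459779604501116) (.br (nat_lit 0) (.cons (.br (nat_lit 1) (.cons (.rel (nat_lit 21005316)) .nil)) .nil)) .leaf) (nat_lit 459779605048851) (.br (nat_lit 0) (.cons (.br (nat_lit 1) (.cons (.rel (nat_lit 20989200)) .nil)) .nil)) .leaf) (nat_lit 459779607322076) (.br (nat_lit 2) (.cons (.br (nat_lit 3) (.cons (.rel (nat_lit 335544837)) (.cons (.rel (nat_lit 671092740)) .nil))) .nil)) (.node .leaf (nat_lit 459780073121299) (.br (nat_lit 4) (.cons (.br (nat_lit 6) (.cons (.rel (nat_lit 18253611168)) .nil)) .nil)) .leaf))))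

/-- refutations 6 -/
def e6 : EX := (.node (.node (.node (.node (.node .leaf (nat_lit 459802803197204) (.br (nat_lit 0) (.cons (.br (nat_lit 1) (.cons (.rel (nat_lit 20972037)) .nil)) .nil)) .leaf) (nat_lit 459803218413753) (.br (nat_lit 0) (.cons (.br (nat_lit 2) (.cons (.rel (nat_lit 143148048)) .nil)) .nil)) (.node .leaf (nat_lit 459803218414498) (.br (nat_lit 0) (.cons (.br (nat_lit 4) (.cons (.rel (nat_lit 1080034320)) .nil)) .nil)) .leaf)) (nat_lit 459803218432185) (.br (nat_lit 0) (.cons (.br (nat_lit 1) (.cons (.rel (nat_lit 20972037)) .nil)) .nil)) (.node (.node .leaf (nat_lit 459803219957945) (.br (nat_lit 0) (.cons (.br (nat_lit 1) (.cons (.rel (nat_lit 21041184)) .nil)) .nil)) .leaf) (nat_lit 459803285522558) (.br (nat_lit 2) (.cons (.br (nat_lit 3) (.cons (.rel (nat_lit 335562000)) .nil)) .nil)) .leaf)) (nat_lit 459803285540990) (.br (nat_lit 0) (.cons (.br (nat_lit 1) (.cons (.rel (nat_lit 20989200)) .nil)) .nil)) (.node (.node (.node .leaf (nat_lit 459803287067880) (.br (nat_lit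 0) (.cons (.br (nat_lit 1) (.cons (.rel (nat_lit 20989200)) .nil)) .nil)) .leaf) (nat_lit 459803288593270) (.br (nat_lit 0) (.cons (.br (nat_lit 1) (.cons (.rel (nat_lit 20989200)) .nil)) .nil)) .leaf) (nat_lit 459803288617086) (.br (nat_lit 0) (.cons (.br (nat_lit 1) (.cons (.rel (nat_lit 20979720)) .nil)) .nil)) (.node (.node .leaf (nat_lit 459804770306978) (.br (nat_lit 2) (.cons (.br (nat_lit 3) (.cons (.rel (nat_lit 402718788)) .nil)) .nil)) .leaf) (nat_lit 459807391765780) (.br (nat_lit 1) (.cons (.br (nat_lit 3) (.cons (.rel (nat_lit 553779201)) .nil)) .nil)) .leaf))) (nat_lit 459811162525983) (.br (nat_lit 0) (.cons (.br (nat_lit 3) (.cons (.rel (nat_lit 272629782)) .nil)) .nil)) (.node (.node (.node (.node .leaf (nat_lit 459811783284088) (.br (nat_lit 3) (.cons (.br (nat_lit 6) (.cons (.rel (nat_lit 17448305154)) .nil)) .nil)) .leaf) (nat_lit 459811784719641) (.br (nat_lit 2) (.cons (.br (nat_lit 3) (.cons (.rel (nat_lit 335544837)) .nil)) .nil)) .leaf) (nat_lit 459811786368503)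 (.br (nat_lit 0) (.cons (.br (nat_lit 2) (.cons (.rel (nat_lit 138413316)) .nil)) .nil)) (.node (.node .leaf (nat_lit 459813468188927) (.br (nat_lit 0) (.cons (.br (nat_lit 5) (.cons (.rel (nat_lit 4304404488)) .nil)) .nil)) .leaf) (nat_lit 459813486171024) (.br (nat_lit 0) (.cons (.br (nat_lit 6) (.cons (.rel (nat_lit 17186226192)) .nil)) .nil)) .leaf)) (nat_lit 459814383752568) (.br (nat_lit 0) (.cons (.br (nat_lit 4) (.cons (.rel (nat_lit 1078198530)) (.cons (.br (nat_lit 2) (.cons (.rel (nat_lit 142606656)) (.cons (.rel (nat_lit 2281702464)) (.cons (.rel (nat_lit 138413316)) (.cons (.rel (nat_lit 2281702464)) .nil))))) .nil))) (.cons (.br (nat_lit 4) (.cons (.rel (nat_lit 1077936516)) (.cons (.br (nat_lit 2) (.cons (.rel (nat_lit 1207992336)) (.cons (.rel (nat_lit 138412305)) (.cons (.rel (nat_lit 138412305)) (.cons (.rel (nat_lit 2281702464)) .nil))))) .nil))) .nil))) (.node (.node (.node .leaf (nat_lit 459814386836856) (.br (nat_lit 4) (.cons (.br (nat_lit 6) (.cons (.rel (nat_lit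 19327420416)) .nil)) .nil)) .leaf) (nat_lit 459816527041774) (.br (nat_lit 0) (.cons (.br (nat_lit 1) (.cons (.rel (nat_lit 21005316)) .nil)) .nil)) .leaf) (nat_lit 459816530124836) (.br (nat_lit 0) (.cons (.br (nat_lit 3) (.cons (.rel (nat_lit 272631840)) .nil)) .nil)) (.node (.node .leaf (nat_lit 459816530126200) (.br (nat_lit 0) (.cons (.br (nat_lit 6) (.cons (.rel (nat_lit 17189568513)) .nil)) .nil)) .leaf) (nat_lit 459848661048596) (.br (nat_lit 1) (.cons (.br (nat_lit 2) (.cons (.rel (nat_lit 151257216)) .nil)) .nil)) .leaf))))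

/-- refutations 7 -/
def e7 : EX := (.node (.node (.node (.node (.node (.node .leaf (nat_lit 459982515165209) (.br (nat_lit 0) (.cons (.br (nat_lit 1) (.cons (.rel (nat_lit 20972037)) .nil)) .nil)) .leaf) (nat_lit 459983063635327) (.br (nat_lit 0) (.cons (.br (nat_lit 3) (.cons (.rel (nat_lit 272695812)) .nil)) .nil)) .leaf) (nat_lit 459983170852343) (.br (nat_lit 0) (.cons (.br (nat_lit 2) (.cons (.rel (nat_lit 142606656)) .nil)) .nil)) (.node (.node .leaf (nat_lit 459983193194648) (.br (nat_lit 0) (.cons (.br (nat_lit 2) (.cons (.rel (nat_lit 138412305)) .nil)) .nil)) .leaf) (nat_lit 459983498089329) (.br (nat_lit 0) (.cons (.br (nat_lit 1) (.cons (.rel (nat_lit 20972037)) .nil)) .nil)) .leaf)) (nat_lit 459983674167297) (.br (nat_lit 2) (.cons (.br (nat_lit 3) (.cons (.rel (nat_lit 335548674)) .nil)) .nil)) (.node (.node (.node .leaf (nat_lit 459983674167422) (.br (nat_lit 6) (.cons (.br (nat_lit 0) (.cons (.rel (nat_lit 17184329985)) (.cons (.rel (nat_lit 17184329985)) .nil))) .nil))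 .leaf) (nat_lit 459983674168182) (.br (nat_lit 0) (.cons (.br (nat_lit 2) (.cons (.rel (nat_lit 138429480)) .nil)) .nil)) .leaf) (nat_lit 459983674168552) (.br (nat_lit 0) (.cons (.br (nat_lit 2) (.cons (.rel (nat_lit 71573505)) .nil)) .nil)) (.node (.node .leaf (nat_lit 459983675694491) (.br (nat_lit 0) (.cons (.br (nat_lit 2) (.cons (.rel (nat_lit 71831874)) .nil)) .nil)) .leaf) (nat_lit 459983695222012) (.br (nat_lit 0) (.cons (.br (nat_lit 3) (.cons (.rel (nat_lit 272695812)) .nil)) .nil)) .leaf))) (nat_lit 459985058288876) (.br (nat_lit 0) (.cons (.br (nat_lit 1) (.cons (.rel (nat_lit 20972037)) .nil)) .nil)) (.node (.node (.node (.node .leaf (nat_lit 459985058526684) (.br (nat_lit 0) (.cons (.br (nat_lit 1) (.cons (.rel (nat_lit 21102612)) .nil)) .nil)) .leaf) (nat_lit 459985059858584) (.br (nat_lit 1) (.cons (.br (nat_lit 2) (.cons (.rel (nat_lit 167788800)) .nil)) .nil)) .leaf) (nat_lit 459985061443736) (.br (nat_lit 0) (.cons (.br (nat_lit 3) (.cons (.rel (nat_lit 272695812)) .nil))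 .nil)) (.node (.node .leaf (nat_lit 459985158932632) (.br (nat_lit 1) (.cons (.br (nat_lit 5) (.cons (.rel (nat_lit 4328521737)) .nil)) .nil)) .leaf) (nat_lit 459985158932660) (.br (nat_lit 1) (.cons (.br (nat_lit 3) (.cons (.rel (nat_lit 286261269)) .nil)) .nil)) .leaf)) (nat_lit 459985158933356) (.br (nat_lit 0) (.cons (.br (nat_lit 1) (.cons (.rel (nat_lit 41947140)) .nil)) .nil)) (.node (.node (.node .leaf (nat_lit 459985158933780) (.br (nat_lit 0) (.cons (.br (nat_lit 1) (.cons (.rel (nat_lit 26214402)) .nil)) .nil)) .leaf) (nat_lit 459985160521880) (.br (nat_lit 0) (.cons (.br (nat_lit 1) (.cons (.rel (nat_lit 20979720)) .nil)) .nil)) .leaf) (nat_lit 459985684828312) (.br (nat_lit 0) (.cons (.br (nat_lit 1) (.cons (.rel (nat_lit 21039360)) .nil)) .nil)) (.node .leaf (nat_lit 459986228498584) (.br (nat_lit 0) (.cons (.br (nat_lit 1) (.cons (.rel (nat_lit 20979720)) .nil)) .nil)) .leaf)))) (nat_lit 459986230089087) (.br (nat_lit 0) (.cons (.br (nat_lit 5) (.cons (.rel (nat_lit 4299195393))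 (.cons (.rel (nat_lit 8594407425)) .nil))) .nil)) (.node (.node (.node (.node (.node .leaf (nat_lit 459986231359640) (.br (nat_lit 1) (.cons (.br (nat_lit 2) (.cons (.rel (nat_lit 152109057)) .nil)) .nil)) .leaf) (nat_lit 459986231360175) (.br (nat_lit 0) (.cons (.br (nat_lit 1) (.cons (.rel (nat_lit 20972037)) .nil)) .nil)) .leaf) (nat_lit 459986231360895) (.br (nat_lit 2) (.cons (.br (nat_lit 4) (.cons (.rel (nat_lit 1140852864)) .nil)) .nil)) (.node (.node .leaf (nat_lit 459987692310680) (.br (nat_lit 2) (.cons (.br (nat_lit 5) (.cons (.rel (nat_lit 4363391232)) .nil)) .nil)) .leaf) (nat_lit 459988195608728) (.br (nat_lit 3) (.cons (.br (nat_lit 4) (.cons (.rel (nat_lit 1342194708)) (.cons (.rel (nat_lit 1342193697)) .nil))) .nil)) .leaf)) (nat_lit 459988195609511) (.br (nat_lit 1) (.cons (.br (nat_lit 6) (.cons (.rel (nat_lit 34393313280)) (.cons (.br (nat_lit 4) (.cons (.rel (nat_lit 35433488385)) (.cons (.rel (nat_lit 18253910016)) .nil))) .nil))) .nil)) (.node (.node (.node .leaf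 (nat_lit 459988195710228) (.br (nat_lit 0) (.cons (.br (nat_lit 1) (.cons (.rel (nat_lit 21005316)) .nil)) .nil)) .leaf) (nat_lit 459988197208216) (.br (nat_lit 6) (.cons (.br (nat_lit 4) (.cons (.rel (nat_lit 18253874193)) (.cons (.rel (nat_lit 19327353093)) .nil))) .nil)) .leaf) (nat_lit 459988197522164) (.br (nat_lit 3) (.cons (.br (nat_lit 0) (.cons (.rel (nat_lit 272695812)) (.cons (.rel (nat_lit 541589568)) .nil))) .nil)) (.node .leaf (nat_lit 459988197522343) (.br (nat_lit 1) (.cons (.br (nat_lit 2) (.cons (.rel (nat_lit 152059908)) (.cons (.rel (nat_lit 83888385)) (.cons (.rel (nat_lit 83919360)) .nil)))) (.cons (.br (nat_lit 4) (.cons (.rel (nat_lit 2181038100)) (.cons (.rel (nat_lit 2164789248)) .nil))) .nil))) .leaf))) (nat_lit 460020122752476) (.br (nat_lit 0) (.cons (.br (nat_lit 1) (.cons (.rel (nat_lit 21005316)) .nil)) .nil)) (.node (.node (.node (.node .leaf (nat_lit 460020544960672) (.br (nat_lit 0) (.cons (.br (nat_lit 1) (.cons (.rel (nat_lit 20972037)) .nil)) .nil))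 .leaf) (nat_lit 460060371517727) (.br (nat_lit 2) (.cons (.br (nat_lit 3) (.cons (.rel (nat_lit 335548674)) .nil)) .nil)) .leaf) (nat_lit 460060916469917) (.br (nat_lit 5) (.cons (.br (nat_lit 0) (.cons (.rel (nat_lit 4303487040)) (.cons (.rel (nat_lit 4299162114)) .nil))) .nil)) (.node (.node .leaf (nat_lit 460061006122220) (.br (nat_lit 0) (.cons (.br (nat_lit 1) (.cons (.rel (nat_lit 20989200)) .nil)) .nil)) .leaf) (nat_lit 460061007602576) (.br (nat_lit 0) (.cons (.br (nat_lit 3) (.cons (.rel (nat_lit 272629782)) .nil)) .nil)) .leaf)) (nat_lit 460061007602940) (.br (nat_lit 0) (.cons (.br (nat_lit 3) (.cons (.rel (nat_lit 276824133)) .nil)) .nil)) (.node (.node (.node .leaf (nat_lit 460062472639344) (.br (nat_lit 0) (.cons (.br (nat_lit 3) (.cons (.rel (nat_lit 272631840)) .nil)) .nil)) .leaf) (nat_lit 460062475609326) (.br (nat_lit 0) (.cons (.br (nat_lit 1) (.cons (.rel (nat_lit 21004305)) .nil)) .nil)) .leaf) (nat_lit 460062595466473) (.br (nat_lit 1) (.cons (.br (nat_lit 2) (.cons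 (.rel (nat_lit 83890209)) .nil)) .nil)) (.node .leaf (nat_lit 460062597243792) (.br (nat_lit 3) (.cons (.br (nat_lit 4) (.cons (.rel (nat_lit 1342193697)) .nil)) .nil)) .leaf)))))

/-- refutations 8 -/
def e8 : EX := (.node (.node (.node (.node (.node (.node (.node .leaf (nat_lit 460069070506245) (.br (nat_lit 1) (.cons (.br (nat_lit 2) (.cons (.rel (nat_lit 83888385)) .nil)) .nil)) .leaf) (nat_lit 462869192051498) (.br (nat_lit 1) (.cons (.br (nat_lit 2) (.cons (.rel (nat_lit 83902488)) .nil)) .nil)) .leaf) (nat_lit 462869282945824) (.br (nat_lit 0) (.cons (.br (nat_lit 3) (.cons (.rel (nat_lit 272631840)) .nil)) .nil)) (.node .leaf (nat_lit 462869717619944) (.br (nat_lit 0) (.cons (.br (nat_lit 1) (.cons (.rel (nat_lit 20975874)) .nil)) .nil)) .leaf)) (nat_lit 462980338123687) (.br (nat_lit 2) (.cons (.br (nat_lit 5) (.cons (.rel (nat_lit 4362077460)) .nil)) .nil)) (.node (.node (.node .leaf (nat_lit 462981078995869) (.br (nat_lit 0) (.cons (.br (nat_lit 1) (.cons (.rel (nat_lit 21004305))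 .nil)) .nil)) .leaf) (nat_lit 462981079358740) (.br (nat_lit 0) (.cons (.br (nat_lit 1) (.cons (.rel (nat_lit 20972037)) .nil)) .nil)) .leaf) (nat_lit 462981469048084) (.br (nat_lit 3) (.cons (.br (nat_lit 4) (.cons (.rel (nat_lit 1342181382)) .nil)) .nil)) (.node .leaf (nat_lit 462981469065468) (.br (nat_lit 2) (.cons (.br (nat_lit 6) (.cons (.rel (nat_lit 17247242496)) .nil)) .nil)) .leaf))) (nat_lit 462981469613332) (.br (nat_lit 3) (.cons (.br (nat_lit 4) (.cons (.rel (nat_lit 1342177545)) .nil)) .nil)) (.node (.node (.node (.node .leaf (nat_lit 462981470586132) (.br (nat_lit 1) (.cons (.br (nat_lit 3) (.cons (.rel (nat_lit 285217092)) .nil)) .nil)) .leaf) (nat_lit 462981472118036) (.br (nat_lit 2) (.cons (.br (nat_lit 3) (.cons (.rel (nat_lit 335544837)) (.cons (.rel (nat_lit 335562000)) .nil))) (.cons (.br (nat_lit 3) (.cons (.rel (nat_lit 335577105)) (.cons (.rel (nat_lit 335675412)) .nil))) .nil))) .leaf) (nat_lit 462981472120040) (.br (nat_lit 0) (.cons (.br (nat_lit 3) (.cons (.rel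 (nat_lit 276824133)) .nil)) .nil)) (.node .leaf (nat_lit 462981472231584) (.br (nat_lit 2) (.cons (.br (nat_lit 3) (.cons (.rel (nat_lit 335562000)) (.cons (.rel (nat_lit 335562000)) .nil))) (.cons (.br (nat_lit 3) (.cons (.rel (nat_lit 335548674)) (.cons (.rel (nat_lit 335552520)) .nil))) .nil))) .leaf)) (nat_lit 462981472232080) (.br (nat_lit 2) (.cons (.br (nat_lit 3) (.cons (.rel (nat_lit 335548674)) .nil)) .nil)) (.node (.node (.node .leaf (nat_lit 462981583882392) (.br (nat_lit 0) (.cons (.br (nat_lit 2) (.cons (.rel (nat_lit 71647248)) .nil)) .nil)) .leaf) (nat_lit 462981585120532) (.br (nat_lit 0) (.cons (.br (nat_lit 3) (.cons (.rel (nat_lit 272631840)) .nil)) .nil)) .leaf) (nat_lit 462981585434776) (.br (nat_lit 0) (.cons (.br (nat_lit 2) (.cons (.rel (nat_lit 142606656)) .nil)) .nil)) (.node .leaf (nat_lit 462981585467528) (.br (nat_lit 1) (.cons (.br (nat_lit 2) (.cons (.rel (nat_lit 100925445)) .nil)) .nil)) .leaf)))) (nat_lit 462983029346940) (.br (nat_lit 3) (.cons (.br (nat_lit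 0) (.cons (.rel (nat_lit 272629782)) (.cons (.rel (nat_lit 272728080)) .nil))) .nil)) (.node (.node (.node (.node (.node .leaf (nat_lit 462983029347560) (.br (nat_lit 3) (.cons (.br (nat_lit 4) (.cons (.rel (nat_lit 1342178592)) (.cons (.rel (nat_lit 1342177545)) .nil))) .nil)) .leaf) (nat_lit 462983029347831) (.br (nat_lit 1) (.cons (.br (nat_lit 2) (.cons (.rel (nat_lit 83886372)) .nil)) .nil)) .leaf) (nat_lit 462983029429480) (.br (nat_lit 0) (.cons (.br (nat_lit 1) (.cons (.rel (nat_lit 20975874)) .nil)) .nil)) (.node .leaf (nat_lit 462983032208662) (.br (nat_lit 0) (.cons (.br (nat_lit 1) (.cons (.rel (nat_lit 20972037)) .nil)) .nil)) .leaf)) (nat_lit 462983032255766) (.br (nat_lit 0) (.cons (.br (nat_lit 1) (.cons (.rel (nat_lit 21102612)) .nil)) .nil)) (.node (.node (.node .leaf (nat_lit 462983046106015) (.br (nat_lit 3) (.cons (.br (nat_lit 0) (.cons (.rel (nat_lit 272634384)) (.cons (.rel (nat_lit 274007040)) .nil))) .nil)) .leaf) (nat_lit 462983046106388) (.br (nat_lit 3) (.cons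 (.br (nat_lit 4) (.cons (.rel (nat_lit 1342181382)) .nil)) .nil)) .leaf) (nat_lit 462983046124820) (.br (nat_lit 4) (.cons (.br (nat_lit 2) (.cons (.rel (nat_lit 1141113876)) (.cons (.rel (nat_lit 2214608928)) (.cons (.rel (nat_lit 2281702464)) .nil)))) (.cons (.br (nat_lit 1) (.cons (.rel (nat_lit 1090519080)) (.cons (.rel (nat_lit 1090555905)) (.cons (.rel (nat_lit 1090586112)) .nil)))) .nil))) (.node .leaf (nat_lit 462983047714848) (.br (nat_lit 2) (.cons (.br (nat_lit 4) (.cons (.rel (nat_lit 1140852864)) .nil)) .nil)) .leaf))) (nat_lit 462983047715723) (.br (nat_lit 2) (.cons (.br (nat_lit 3) (.cons (.rel (nat_lit 606142464)) .nil)) .nil)) (.node (.node (.node (.node .leaf (nat_lit 462983049176340) (.br (nat_lit 1) (.cons (.br (nat_lit 4) (.cons (.rel (nat_lit 1090783296)) .nil)) .nil)) .leaf) (nat_lit 462983049280788) (.br (nat_lit 3) (.cons (.br (nat_lit 0) (.cons (.rel (nat_lit 272631840)) (.cons (.rel (nat_lit 272654337)) .nil))) .nil)) .leaf) (nat_lit 462983130092820) (.br (nat_lit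 1) (.cons (.br (nat_lit 0) (.cons (.rel (nat_lit 41947140)) (.cons (.rel (nat_lit 21041184)) .nil))) .nil)) (.node .leaf (nat_lit 462983130093020) (.br (nat_lit 0) (.cons (.br (nat_lit 1) (.cons (.rel (nat_lit 22020240)) .nil)) .nil)) .leaf)) (nat_lit 462983132818708) (.br (nat_lit 0) (.cons (.br (nat_lit 3) (.cons (.rel (nat_lit 272631840)) .nil)) .nil)) (.node (.node .leaf (nat_lit 462983176129768) (.br (nat_lit 3) (.cons (.br (nat_lit 5) (.cons (.rel (nat_lit 4563403332)) (.cons (.rel (nat_lit 4563435600)) (.cons (.rel (nat_lit 4563403332)) .nil)))) .nil)) .leaf) (nat_lit 462983176147070) (.br (nat_lit 0) (.cons (.br (nat_lit 1) (.cons (.rel (nat_lit 21041184)) .nil)) .nil)) (.node .leaf (nat_lit 462983176147874) (.br (nat_lit 0) (.cons (.br (nat_lit 5) (.cons (.rel (nat_lit 4299292689)) (.cons (.rel (nat_lit 4299195393)) .nil))) .nil)) .leaf))))) (nat_lit 462983176148200) (.br (nat_lit 3) (.cons (.br (nat_lit 0) (.cons (.rel (nat_lit 272654337)) (.cons (.rel (nat_lit 541589568)) (.cons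 (.rel (nat_lit 272699649)) .nil)))) .nil)) (.node (.node (.node (.node (.node (.node .leaf (nat_lit 462983176228990) (.br (nat_lit 0) (.cons (.br (nat_lit 1) (.cons (.rel (nat_lit 21234240)) .nil)) .nil)) .leaf) (nat_lit 462983176230120) (.br (nat_lit 0) (.cons (.br (nat_lit 5) (.cons (.rel (nat_lit 8598323457)) .nil)) .nil)) .leaf) (nat_lit 462983176230164) (.br (nat_lit 0) (.cons (.br (nat_lit 2) (.cons (.rel (nat_lit 71697408)) .nil)) .nil)) (.node .leaf (nat_lit 462983176230391) (.br (nat_lit 0) (.cons (.br (nat_lit 2) (.cons (.rel (nat_lit 71573505)) .nil)) .nil)) .leaf)) (nat_lit 462983177673960) (.br (nat_lit 1) (.cons (.br (nat_lit 0) (.cons (.rel (nat_lit 38014992)) (.cons (.rel (nat_lit 21102612)) .nil))) .nil)) (.node (.node (.node .leaf (nat_lit 462983177718667) (.br (nat_lit 0) (.cons (.br (nat_lit 3) (.cons (.rel (nat_lit 272634384)) .nil)) .nil)) .leaf) (nat_lit 462983177718690) (.br (nat_lit 1) (.cons (.br (nat_lit 2) (.cons (.rel (nat_lit 152109057)) .nil)) .nil)) .leaf)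 (nat_lit 462983179198590) (.br (nat_lit 0) (.cons (.br (nat_lit 3) (.cons (.rel (nat_lit 272631840)) .nil)) .nil)) (.node .leaf (nat_lit 462983179200692) (.br (nat_lit 4) (.cons (.br (nat_lit 5) (.cons (.rel (nat_lit 5368727040)) .nil)) .nil)) .leaf))) (nat_lit 462983179326696) (.br (nat_lit 3) (.cons (.br (nat_lit 4) (.cons (.rel (nat_lit 1342185984)) .nil)) .nil)) (.node (.node (.node (.node .leaf (nat_lit 462983650103932) (.br (nat_lit 2) (.cons (.br (nat_lit 3) (.cons (.rel (nat_lit 335612160)) .nil)) .nil)) .leaf) (nat_lit 462983650342364) (.br (nat_lit 0) (.cons (.br (nat_lit 3) (.cons (.rel (nat_lit 277086336)) .nil)) .nil)) .leaf) (nat_lit 462983650411303) (.br (nat_lit 0) (.cons (.br (nat_lit 2) (.cons (.rel (nat_lit 71303808)) .nil)) .nil)) (.node .leaf (nat_lit 462983650467292) (.br (nat_lit 0) (.cons (.br (nat_lit 1) (.cons (.rel (nat_lit 22020240)) .nil)) .nil)) .leaf)) (nat_lit 462983652912604) (.br (nat_lit 0) (.cons (.br (nat_lit 3) (.cons (.rel (nat_lit 272631840)) (.cons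 (.rel (nat_lit 272728080)) (.cons (.rel (nat_lit 273227904)) .nil)))) .nil)) (.node (.node .leaf (nat_lit 462983985648992) (.br (nat_lit 0) (.cons (.br (nat_lit 1) (.cons (.rel (nat_lit 41947140)) .nil)) .nil)) .leaf) (nat_lit 462983987219183) (.br (nat_lit 1) (.cons (.br (nat_lit 2) (.cons (.br (nat_lit 5) (.cons (.rel (nat_lit 8724172800)) .nil)) .nil)) .nil)) (.node .leaf (nat_lit 462984115671090) (.br (nat_lit 0) (.cons (.br (nat_lit 1) (.cons (.rel (nat_lit 21102612)) .nil)) .nil)) .leaf)))) (nat_lit 462984115671676) (.br (nat_lit 0) (.cons (.br (nat_lit 1) (.cons (.rel (nat_lit 21054465)) (.cons (.rel (nat_lit 21004305)) .nil))) .nil)) (.node (.node (.node (.node (.node .leaf (nat_lit 462984115973023) (.br (nat_lit 0) (.cons (.br (nat_lit 1) (.cons (.rel (nat_lit 21054465)) .nil)) .nil)) .leaf) (nat_lit 462984117545736) (.br (nat_lit 0) (.cons (.br (nat_lit 1) (.cons (.rel (nat_lit 20972037)) .nil)) .nil)) .leaf) (nat_lit 462984118532248) (.br (nat_lit 3) (.cons (.br (nat_lit 4) (.cons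 (.rel (nat_lit 1342177545)) .nil)) .nil)) (.node .leaf (nat_lit 462984118837408) (.br (nat_lit 2) (.cons (.br (nat_lit 3) (.cons (.rel (nat_lit 335544837)) .nil)) .nil)) .leaf)) (nat_lit 462985579483388) (.br (nat_lit 0) (.cons (.br (nat_lit 3) (.cons (.rel (nat_lit 545260560)) .nil)) .nil)) (.node (.node (.node .leaf (nat_lit 462985580030859) (.br (nat_lit 0) (.cons (.br (nat_lit 5) (.cons (.rel (nat_lit 4299169797)) .nil)) .nil)) .leaf) (nat_lit 462985580855308) (.br (nat_lit 1) (.cons (.br (nat_lit 2) (.cons (.rel (nat_lit 83890209)) .nil)) .nil)) .leaf) (nat_lit 462985580855448) (.br (nat_lit 0) (.cons (.br (nat_lit 6) (.cons (.rel (nat_lit 34368131136)) (.cons (.rel (nat_lit 17184326148)) .nil))) .nil)) (.node .leaf (nat_lit 462985582556436) (.br (nat_lit 0) (.cons (.br (nat_lit 4) (.cons (.rel (nat_lit 1078198530)) .nil)) .nil)) .leaf))) (nat_lit 462985582559868) (.br (nat_lit 0) (.cons (.br (nat_lit 1) (.cons (.rel (nat_lit 41947140)) .nil)) .nil)) (.node (.node (.node (.node .leaf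 (nat_lit 462985582650000) (.br (nat_lit 0) (.cons (.br (nat_lit 2) (.cons (.rel (nat_lit 72352833)) .nil)) .nil)) .leaf) (nat_lit 462986082781336) (.br (nat_lit 0) (.cons (.br (nat_lit 2) (.cons (.rel (nat_lit 71573505)) (.cons (.rel (nat_lit 71647248)) .nil))) .nil)) .leaf) (nat_lit 462986082782119) (.br (nat_lit 6) (.cons (.br (nat_lit 1) (.cons (.rel (nat_lit 17196647700)) (.cons (.rel (nat_lit 17196712965)) .nil))) .nil)) (.node .leaf (nat_lit 462986082881688) (.br (nat_lit 0) (.cons (.br (nat_lit 1) (.cons (.rel (nat_lit 38338626)) .nil)) .nil)) .leaf)) (nat_lit 462986084320167) (.br (nat_lit 1) (.cons (.br (nat_lit 3) (.cons (.rel (nat_lit 302055426)) .nil)) .nil)) (.node (.node .leaf (nat_lit 462986084391847) (.br (nat_lit 1) (.cons (.br (nat_lit 0) (.cons (.rel (nat_lit 20989200)) (.cons (.rel (nat_lit 20972037)) .nil))) .nil)) .leaf) (nat_lit 462986607087742) (.br (nat_lit 3) (.cons (.br (nat_lit 4) (.cons (.rel (nat_lit 2684358912)) .nil)) .nil)) (.node .leaf (nat_lit 462986607088872)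 (.br (nat_lit 1) (.cons (.br (nat_lit 2) (.cons (.rel (nat_lit 150995013)) .nil)) .nil)) .leaf))))))

/-- refutations 9 -/
def e9 : EX := (.node (.node (.node (.node (.node .leaf (nat_lit 464072310039804) (.br (nat_lit 3) (.cons (.br (nat_lit 4) (.cons (.rel (nat_lit 1342181382)) .nil)) .nil)) .leaf) (nat_lit 464074072757131) (.br (nat_lit 2) (.cons (.br (nat_lit 3) (.cons (.rel (nat_lit 335548674)) .nil)) .nil)) .leaf) (nat_lit 464077728965359) (.br (nat_lit 0) (.cons (.br (nat_lit 1) (.cons (.rel (nat_lit 20975874)) .nil)) .nil)) (.node .leaf (nat_lit 464077738604046) (.br (nat_lit 0) (.cons (.br (nat_lit 1) (.cons (.rel (nat_lit 22020240)) .nil)) .nil)) .leaf)) (nat_lit 464077738805884) (.br (nat_lit 0) (.cons (.br (nat_lit 3) (.cons (.rel (nat_lit 541327365)) .nil)) .nil)) (.node (.node .leaf (nat_lit 464973727234309) (.br (nat_lit 1) (.cons (.br (nat_lit 2) (.cons (.rel (nat_lit 83952648)) .nil)) .nil)) .leaf) (nat_lit 464973728537963) (.br (nat_lit 1) (.cons (.br (nat_lit 2) (.cons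 (.rel (nat_lit 83890209)) .nil)) .nil)) (.node .leaf (nat_lit 464974427691894) (.br (nat_lit 0) (.cons (.br (nat_lit 1) (.cons (.rel (nat_lit 20979720)) .nil)) .nil)) .leaf))) (nat_lit 464976852000155) (.br (nat_lit 3) (.cons (.br (nat_lit 6) (.cons (.rel (nat_lit 34629255168)) .nil)) .nil)) (.node (.node (.node .leaf (nat_lit 464978444290684) (.br (nat_lit 0) (.cons (.br (nat_lit 2) (.cons (.rel (nat_lit 75517968)) .nil)) .nil)) .leaf) (nat_lit 464978444309262) (.br (nat_lit 0) (.cons (.br (nat_lit 3) (.cons (.rel (nat_lit 272654337)) (.cons (.rel (nat_lit 272630793)) .nil))) .nil)) (.node .leaf (nat_lit 464979077648689) (.br (nat_lit 0) (.cons (.br (nat_lit 2) (.cons (.rel (nat_lit 71647248)) .nil)) .nil)) .leaf)) (nat_lit 464979670635247) (.br (nat_lit 0) (.cons (.br (nat_lit 1) (.cons (.rel (nat_lit 21039360)) .nil)) .nil)) (.node (.node .leaf (nat_lit 465170833393051) (.br (nat_lit 0) (.cons (.br (nat_lit 3) (.cons (.rel (nat_lit 272892996)) .nil)) .nil)) .leaf) (nat_lit 465171512403355)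 (.br (nat_lit 2) (.cons (.br (nat_lit 3) (.cons (.rel (nat_lit 335544837)) (.cons (.rel (nat_lit 335562000)) .nil))) .nil)) (.node .leaf (nat_lit 465171513836955) (.br (nat_lit 2) (.cons (.br (nat_lit 4) (.cons (.rel (nat_lit 1207960068)) .nil)) .nil)) .leaf))))

/-- refutations 10 -/
def e10 : EX := (.node (.node (.node (.node (.node .leaf (nat_lit 465214444070294) (.br (nat_lit 1) (.cons (.br (nat_lit 6) (.cons (.rel (nat_lit 17213423748)) .nil)) .nil)) .leaf) (nat_lit 465223022568080) (.br (nat_lit 0) (.cons (.br (nat_lit 1) (.cons (.rel (nat_lit 21054465)) .nil)) .nil)) (.node .leaf (nat_lit 465228585584024) (.br (nat_lit 3) (.cons (.br (nat_lit 1) (.cons (.rel (nat_lit 285220929)) (.cons (.rel (nat_lit 302006277)) .nil))) .nil)) .leaf)) (nat_lit 465347771144819) (.br (nat_lit 0) (.cons (.br (nat_lit 1) (.cons (.rel (nat_lit 20972037)) .nil)) .nil)) (.node (.node .leaf (nat_lit 468197224501884) (.br (nat_lit 0) (.cons (.br (nat_lit 3) (.cons (.rel (nat_lit 272631840)) .nil)) .nil)) .leaf)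 (nat_lit 468197224864380) (.br (nat_lit 0) (.cons (.br (nat_lit 2) (.cons (.rel (nat_lit 142606656)) .nil)) .nil)) (.node .leaf (nat_lit 468197265158780) (.br (nat_lit 1) (.cons (.br (nat_lit 4) (.cons (.rel (nat_lit 2181038100)) .nil)) .nil)) .leaf))) (nat_lit 468197740401276) (.br (nat_lit 3) (.cons (.br (nat_lit 5) (.cons (.rel (nat_lit 4563435600)) .nil)) .nil)) (.node (.node (.node .leaf (nat_lit 468197740710524) (.br (nat_lit 1) (.cons (.br (nat_lit 4) (.cons (.rel (nat_lit 2164789248)) .nil)) .nil)) .leaf) (nat_lit 468197742295676) (.br (nat_lit 0) (.cons (.br (nat_lit 1) (.cons (.rel (nat_lit 20972037)) .nil)) .nil)) (.node .leaf (nat_lit 468199653003900) (.br (nat_lit 0) (.cons (.br (nat_lit 3) (.cons (.rel (nat_lit 277086336)) (.cons (.rel (nat_lit 541589568)) .nil))) .nil)) .leaf)) (nat_lit 468199653005947) (.br (nat_lit 0) (.cons (.br (nat_lit 1) (.cons (.rel (nat_lit 21005316)) .nil)) .nil)) (.node (.node .leaf (nat_lit 468199653110396) (.br (nat_lit 1) (.cons (.br (nat_lit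 2) (.cons (.rel (nat_lit 83886372)) .nil)) .nil)) .leaf) (nat_lit 468199656172156) (.br (nat_lit 0) (.cons (.br (nat_lit 4) (.cons (.rel (nat_lit 1082195988)) .nil)) .nil)) (.node .leaf (nat_lit 468199669762308) (.br (nat_lit 0) (.cons (.br (nat_lit 3) (.cons (.rel (nat_lit 272630793)) (.cons (.rel (nat_lit 272631840)) .nil))) .nil)) .leaf)))) (nat_lit 468199669762683) (.br (nat_lit 0) (.cons (.br (nat_lit 2) (.cons (.rel (nat_lit 138428421)) .nil)) .nil)) (.node (.node (.node (.node .leaf (nat_lit 468199669762684) (.br (nat_lit 4) (.cons (.br (nat_lit 0) (.cons (.rel (nat_lit 1078198530)) (.cons (.br (nat_lit 3) (.cons (.rel (nat_lit 276824133)) (.cons (.rel (nat_lit 272631840)) (.cons (.rel (nat_lit 1342177545)) .nil)))) (.cons (.rel (nat_lit 1078198530)) .nil)))) (.cons (.br (nat_lit 3) (.cons (.rel (nat_lit 2415939648)) (.cons (.rel (nat_lit 1342181382)) (.cons (.rel (nat_lit 2415939648)) .nil)))) .nil))) .leaf) (nat_lit 468199669781116) (.br (nat_lit 2) (.cons (.br (nat_lit 3) (.cons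 (.rel (nat_lit 335548674)) (.cons (.rel (nat_lit 335552520)) .nil))) (.cons (.br (nat_lit 5) (.cons (.rel (nat_lit 8724218112)) (.cons (.rel (nat_lit 4362092565)) .nil))) .nil))) (.node .leaf (nat_lit 468199669781267) (.br (nat_lit 3) (.cons (.br (nat_lit 4) (.cons (.rel (nat_lit 1342218264)) .nil)) .nil)) .leaf)) (nat_lit 468199670090364) (.br (nat_lit 2) (.cons (.br (nat_lit 0) (.cons (.rel (nat_lit 71647248)) (.cons (.rel (nat_lit 138477570)) (.cons (.rel (nat_lit 71647248)) .nil)))) (.cons (.br (nat_lit 3) (.cons (.rel (nat_lit 335552520)) (.cons (.rel (nat_lit 604274688)) .nil))) .nil))) (.node (.node .leaf (nat_lit 468199671301483) (.br (nat_lit 4) (.cons (.br (nat_lit 2) (.cons (.rel (nat_lit 2281702464)) (.cons (.rel (nat_lit 1141899585)) .nil))) .nil)) .leaf) (nat_lit 468199671351603) (.br (nat_lit 1) (.cons (.br (nat_lit 2) (.cons (.rel (nat_lit 101187648)) .nil)) .nil)) (.node .leaf (nat_lit 468199671351932) (.br (nat_lit 1) (.cons (.br (nat_lit 2) (.cons (.rel (nat_lit 83919360))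 .nil)) .nil)) .leaf))) (nat_lit 468199672833387) (.br (nat_lit 0) (.cons (.br (nat_lit 2) (.cons (.rel (nat_lit 142606656)) .nil)) .nil)) (.node (.node (.node .leaf (nat_lit 468199672834684) (.br (nat_lit 2) (.cons (.br (nat_lit 0) (.cons (.rel (nat_lit 142606656)) (.cons (.rel (nat_lit 71573505)) .nil))) .nil)) .leaf) (nat_lit 468199672949372) (.br (nat_lit 2) (.cons (.br (nat_lit 3) (.cons (.rel (nat_lit 604274688)) (.cons (.rel (nat_lit 335578116)) .nil))) (.cons (.br (nat_lit 1) (.cons (.rel (nat_lit 101187648)) (.cons (.rel (nat_lit 83890209)) (.cons (.rel (nat_lit 83902488)) .nil)))) .nil))) (.node .leaf (nat_lit 468200679008892) (.br (nat_lit 0) (.cons (.br (nat_lit 2) (.cons (.rel (nat_lit 75563280)) (.cons (.rel (nat_lit 142606656)) .nil))) (.cons (.br (nat_lit 1) (.cons (.rel (nat_lit 20972037)) (.cons (.rel (nat_lit 21004305)) .nil))) .nil))) .leaf)) (nat_lit 468200679009056) (.br (nat_lit 0) (.cons (.br (nat_lit 2) (.cons (.rel (nat_lit 142606656)) .nil)) .nil)) (.node (.node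 .leaf (nat_lit 468200907100947) (.br (nat_lit 0) (.cons (.br (nat_lit 3) (.cons (.rel (nat_lit 272654337)) .nil)) .nil)) .leaf) (nat_lit 468200907105191) (.br (nat_lit 3) (.cons (.br (nat_lit 0) (.cons (.rel (nat_lit 541327365)) (.cons (.rel (nat_lit 272654337)) .nil))) .nil)) .leaf))))

/-- refutations 11 -/
def e11 : EX := (.node (.node (.node (.node (.node .leaf (nat_lit 468391954825901) (.br (nat_lit 2) (.cons (.br (nat_lit 4) (.cons (.rel (nat_lit 1141113876)) .nil)) .nil)) .leaf) (nat_lit 468391956314162) (.br (nat_lit 0) (.cons (.br (nat_lit 4) (.cons (.rel (nat_lit 1078198530)) .nil)) .nil)) .leaf) (nat_lit 468395776046463) (.br (nat_lit 1) (.cons (.br (nat_lit 2) (.cons (.br (nat_lit 5) (.cons (.rel (nat_lit 4328521737)) (.cons (.rel (nat_lit 4429709316)) (.cons (.rel (nat_lit 4362141714)) .nil)))) .nil)) .nil)) (.node (.node .leaf (nat_lit 468395883517459) (.br (nat_lit 2) (.cons (.br (nat_lit 3) (.cons (.rel (nat_lit 335552520)) .nil)) .nil)) .leaf) (nat_lit 468395886684470) (.br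 (nat_lit 0) (.cons (.br (nat_lit 2) (.cons (.rel (nat_lit 142606656)) .nil)) .nil)) .leaf)) (nat_lit 468435456856351) (.br (nat_lit 0) (.cons (.br (nat_lit 3) (.cons (.rel (nat_lit 272629782)) .nil)) .nil)) (.node (.node (.node .leaf (nat_lit 468435456861595) (.br (nat_lit 3) (.cons (.br (nat_lit 6) (.cons (.rel (nat_lit 17448435729)) .nil)) .nil)) .leaf) (nat_lit 468436077613092) (.br (nat_lit 2) (.cons (.br (nat_lit 6) (.cons (.rel (nat_lit 17246994576)) (.cons (.rel (nat_lit 34426847238)) .nil))) .nil)) .leaf) (nat_lit 468436077613343) (.br (nat_lit 2) (.cons (.br (nat_lit 3) (.cons (.rel (nat_lit 671092740)) .nil)) .nil)) (.node .leaf (nat_lit 468438724691327) (.br (nat_lit 1) (.cons (.br (nat_lit 2) (.cons (.rel (nat_lit 83951637)) .nil)) .nil)) .leaf))) (nat_lit 468438726998803) (.br (nat_lit 4) (.cons (.br (nat_lit 6) (.cons (.rel (nat_lit 18253955328)) .nil)) .nil)) (.node (.node (.node (.node .leaf (nat_lit 468440385081980) (.br (nat_lit 3) (.cons (.br (nat_lit 5) (.cons (.rel (nat_lit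 4563485760)) .nil)) .nil)) .leaf) (nat_lit 468440385082600) (.br (nat_lit 1) (.cons (.br (nat_lit 4) (.cons (.rel (nat_lit 2181038100)) .nil)) .nil)) .leaf) (nat_lit 468441194664716) (.br (nat_lit 0) (.cons (.br (nat_lit 3) (.cons (.rel (nat_lit 272630793)) .nil)) .nil)) (.node (.node .leaf (nat_lit 468441412767780) (.br (nat_lit 0) (.cons (.br (nat_lit 2) (.cons (.rel (nat_lit 71303808)) .nil)) .nil)) .leaf) (nat_lit 468441415758575) (.br (nat_lit 0) (.cons (.br (nat_lit 1) (.cons (.rel (nat_lit 20972037)) (.cons (.rel (nat_lit 20972037)) (.cons (.rel (nat_lit 25198656)) (.cons (.rel (nat_lit 22020240)) .nil))))) .nil)) .leaf)) (nat_lit 468441415854862) (.br (nat_lit 0) (.cons (.br (nat_lit 6) (.cons (.rel (nat_lit 17188274448)) .nil)) .nil)) (.node (.node (.node .leaf (nat_lit 468606807229851) (.br (nat_lit 1) (.cons (.br (nat_lit 2) (.cons (.rel (nat_lit 84021504)) .nil)) .nil)) .leaf) (nat_lit 468607486240155) (.br (nat_lit 2) (.cons (.br (nat_lit 3) (.cons (.rel (nat_lit 335675412))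 .nil)) .nil)) .leaf) (nat_lit 468616055426400) (.br (nat_lit 0) (.cons (.br (nat_lit 1) (.cons (.rel (nat_lit 21039360)) .nil)) .nil)) (.node .leaf (nat_lit 468620773708412) (.br (nat_lit 0) (.cons (.br (nat_lit 2) (.cons (.rel (nat_lit 71303808)) .nil)) .nil)) .leaf))))

/-- refutations 12 -/
def e12 : EX := (.node (.node (.node (.node (.node .leaf (nat_lit 469225962816364) (.br (nat_lit 3) (.cons (.br (nat_lit 6) (.cons (.rel (nat_lit 17448325152)) .nil)) .nil)) .leaf) (nat_lit 469227827912836) (.br (nat_lit 0) (.cons (.br (nat_lit 1) (.cons (.rel (nat_lit 21102612)) .nil)) .nil)) (.node .leaf (nat_lit 469227827950879) (.br (nat_lit 1) (.cons (.br (nat_lit 2) (.cons (.rel (nat_lit 83902488)) .nil)) .nil)) .leaf)) (nat_lit 469227830961004) (.br (nat_lit 2) (.cons (.br (nat_lit 3) (.cons (.rel (nat_lit 335562000)) (.cons (.rel (nat_lit 402718788)) .nil))) .nil)) (.node (.node .leaf (nat_lit 469227830961404) (.br (nat_lit 0) (.cons (.br (nat_lit 4) (.cons (.rel (nat_lit 2151679488)) .nil))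 .nil)) .leaf) (nat_lit 469227928553624) (.br (nat_lit 2) (.cons (.br (nat_lit 3) (.cons (.rel (nat_lit 335544837)) .nil)) .nil)) (.node .leaf (nat_lit 469230965230829) (.br (nat_lit 2) (.cons (.br (nat_lit 4) (.cons (.rel (nat_lit 1141244160)) .nil)) .nil)) .leaf))) (nat_lit 469230966768492) (.br (nat_lit 3) (.cons (.br (nat_lit 4) (.cons (.rel (nat_lit 1342181382)) .nil)) .nil)) (.node (.node (.node .leaf (nat_lit 469230966819692) (.br (nat_lit 0) (.cons (.br (nat_lit 2) (.cons (.rel (nat_lit 72876048)) .nil)) .nil)) .leaf) (nat_lit 469252213592950) (.br (nat_lit 1) (.cons (.br (nat_lit 4) (.cons (.rel (nat_lit 1090654212)) .nil)) .nil)) (.node .leaf (nat_lit 469295184237800) (.br (nat_lit 0) (.cons (.br (nat_lit 2) (.cons (.rel (nat_lit 71647248)) .nil)) .nil)) .leaf)) (nat_lit 469296655295344) (.br (nat_lit 1) (.cons (.br (nat_lit 0) (.cons (.rel (nat_lit 21234240)) (.cons (.rel (nat_lit 41947140)) .nil))) .nil)) (.node (.node .leaf (nat_lit 469300338008844) (.br (nat_lit 0) (.cons (.br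 (nat_lit 2) (.cons (.rel (nat_lit 71697408)) (.cons (.rel (nat_lit 138428421)) .nil))) .nil)) .leaf) (nat_lit 469466220839847) (.br (nat_lit 2) (.cons (.br (nat_lit 3) (.cons (.rel (nat_lit 335552520)) .nil)) .nil)) .leaf))) (nat_lit 469466221400364) (.br (nat_lit 1) (.cons (.br (nat_lit 2) (.cons (.rel (nat_lit 83951637)) .nil)) .nil)) (.node (.node (.node (.node .leaf (nat_lit 469468448575668) (.br (nat_lit 0) (.cons (.br (nat_lit 1) (.cons (.rel (nat_lit 20972037)) .nil)) .nil)) .leaf) (nat_lit 469468449863712) (.br (nat_lit 0) (.cons (.br (nat_lit 3) (.cons (.rel (nat_lit 272629782)) .nil)) .nil)) (.node .leaf (nat_lit 469468449864967) (.br (nat_lit 0) (.cons (.br (nat_lit 3) (.cons (.rel (nat_lit 272629782)) .nil)) .nil)) .leaf)) (nat_lit 469468535131047) (.br (nat_lit 0) (.cons (.br (nat_lit 2) (.cons (.rel (nat_lit 71697408)) .nil)) .nil)) (.node (.node .leaf (nat_lit 469470963327763) (.br (nat_lit 4) (.cons (.br (nat_lit 5) (.cons (.rel (nat_lit 5368844289)) .nil)) .nil)) .leaf)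 (nat_lit 469470963430313) (.br (nat_lit 0) (.cons (.br (nat_lit 1) (.cons (.rel (nat_lit 21005316)) .nil)) .nil)) (.node .leaf (nat_lit 469470963633063) (.br (nat_lit 0) (.cons (.br (nat_lit 3) (.cons (.rel (nat_lit 272634384)) .nil)) .nil)) .leaf))) (nat_lit 469470980100732) (.br (nat_lit 5) (.cons (.br (nat_lit 2) (.cons (.rel (nat_lit 4362117120)) (.cons (.rel (nat_lit 8724172800)) .nil))) .nil)) (.node (.node (.node .leaf (nat_lit 469470980409980) (.br (nat_lit 0) (.cons (.br (nat_lit 3) (.cons (.rel (nat_lit 272631840)) .nil)) .nil)) .leaf) (nat_lit 469471613440636) (.br (nat_lit 0) (.cons (.br (nat_lit 5) (.cons (.rel (nat_lit 4299165960)) .nil)) .nil)) (.node .leaf (nat_lit 469471613440935) (.br (nat_lit 3) (.cons (.br (nat_lit 4) (.cons (.rel (nat_lit 1343553792)) (.cons (.rel (nat_lit 1342193697)) .nil))) (.cons (.br (nat_lit 4) (.cons (.rel (nat_lit 2415984960)) (.cons (.rel (nat_lit 1342178592)) .nil))) .nil))) .leaf)) (nat_lit 469471613750035) (.br (nat_lit 3) (.cons (.br (nat_lit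 5) (.cons (.rel (nat_lit 4831870980)) (.cons (.rel (nat_lit 4564451346)) .nil))) .nil)) (.node (.node .leaf (nat_lit 469471613750183) (.br (nat_lit 3) (.cons (.br (nat_lit 0) (.cons (.rel (nat_lit 272650500)) (.cons (.rel (nat_lit 272630793)) (.cons (.rel (nat_lit 272631840)) .nil)))) .nil)) .leaf) (nat_lit 469471615011723) (.br (nat_lit 0) (.cons (.br (nat_lit 5) (.cons (.rel (nat_lit 4299182112)) .nil)) .nil)) .leaf))))

/-- refutations 13 -/
def e13 : EX := (.node (.node (.node (.node (.node (.node .leaf (nat_lit 469488666194855) (.br (nat_lit 0) (.cons (.br (nat_lit 2) (.cons (.rel (nat_lit 73417728)) .nil)) .nil)) .leaf) (nat_lit 469508645260194) (.br (nat_lit 3) (.cons (.br (nat_lit 4) (.cons (.rel (nat_lit 1342194708)) .nil)) .nil)) .leaf) (nat_lit 469508646326309) (.br (nat_lit 1) (.cons (.br (nat_lit 5) (.cons (.rel (nat_lit 4311876165)) .nil)) .nil)) (.node (.node .leaf (nat_lit 469509847573410) (.br (nat_lit 3) (.cons (.br (nat_lit 4) (.cons (.rel (nat_lit 2684358912)) .nil))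 .nil)) .leaf) (nat_lit 469509847699613) (.br (nat_lit 0) (.cons (.br (nat_lit 1) (.cons (.rel (nat_lit 21004305)) .nil)) .nil)) .leaf)) (nat_lit 469509935654140) (.br (nat_lit 0) (.cons (.br (nat_lit 4) (.cons (.rel (nat_lit 1077936516)) .nil)) .nil)) (.node (.node (.node .leaf (nat_lit 469511921003273) (.br (nat_lit 4) (.cons (.br (nat_lit 5) (.cons (.rel (nat_lit 5368840452)) .nil)) .nil)) .leaf) (nat_lit 469512003446012) (.br (nat_lit 4) (.cons (.br (nat_lit 5) (.cons (.rel (nat_lit 5368711170)) .nil)) .nil)) .leaf) (nat_lit 469512467488275) (.br (nat_lit 0) (.cons (.br (nat_lit 3) (.cons (.rel (nat_lit 272631840)) .nil)) .nil)) (.node (.node .leaf (nat_lit 469512467542153) (.br (nat_lit 1) (.cons (.br (nat_lit 2) (.cons (.rel (nat_lit 83886372)) (.cons (.rel (nat_lit 152109057)) .nil))) .nil)) .leaf) (nat_lit 469512468823403) (.br (nat_lit 0) (.cons (.br (nat_lit 6) (.cons (.rel (nat_lit 17188274448)) .nil)) .nil)) .leaf))) (nat_lit 469513887830798) (.br (nat_lit 3) (.cons (.br (nat_lit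 4) (.cons (.rel (nat_lit 1343553792)) .nil)) .nil)) (.node (.node (.node (.node .leaf (nat_lit 469513888132002) (.br (nat_lit 1) (.cons (.br (nat_lit 3) (.cons (.rel (nat_lit 570687744)) (.cons (.rel (nat_lit 285220929)) .nil))) (.cons (.br (nat_lit 3) (.cons (.rel (nat_lit 570687744)) (.cons (.rel (nat_lit 285217092)) .nil))) .nil))) .leaf) (nat_lit 469513888140194) (.br (nat_lit 2) (.cons (.br (nat_lit 3) (.cons (.rel (nat_lit 335675412)) .nil)) .nil)) .leaf) (nat_lit 469513889704241) (.br (nat_lit 1) (.cons (.br (nat_lit 2) (.cons (.rel (nat_lit 83886372)) .nil)) .nil)) (.node (.node .leaf (nat_lit 469514018400318) (.br (nat_lit 1) (.cons (.br (nat_lit 2) (.cons (.rel (nat_lit 83976192)) .nil)) .nil)) .leaf) (nat_lit 469514018401168) (.br (nat_lit 4) (.cons (.br (nat_lit 5) (.cons (.rel (nat_lit 5368733712)) (.cons (.rel (nat_lit 5368733712)) .nil))) .nil)) .leaf)) (nat_lit 469514019231083) (.br (nat_lit 1) (.cons (.br (nat_lit 2) (.cons (.rel (nat_lit 83976192)) .nil)) .nil)) (.node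 (.node (.node .leaf (nat_lit 469514020906515) (.br (nat_lit 0) (.cons (.br (nat_lit 1) (.cons (.rel (nat_lit 20972037)) .nil)) .nil)) .leaf) (nat_lit 469514021022353) (.br (nat_lit 2) (.cons (.br (nat_lit 3) (.cons (.rel (nat_lit 403832832)) .nil)) .nil)) .leaf) (nat_lit 469514021032093) (.br (nat_lit 0) (.cons (.br (nat_lit 1) (.cons (.rel (nat_lit 38289477)) .nil)) .nil)) (.node .leaf (nat_lit 469526479212831) (.br (nat_lit 2) (.cons (.br (nat_lit 3) (.cons (.rel (nat_lit 335578116)) .nil)) .nil)) .leaf)))) (nat_lit 469526479213200) (.br (nat_lit 3) (.cons (.br (nat_lit 4) (.cons (.rel (nat_lit 1342193697)) .nil)) .nil)) (.node (.node (.node (.node (.node .leaf (nat_lit 469526482297119) (.br (nat_lit 1) (.cons (.br (nat_lit 6) (.cons (.rel (nat_lit 17196711954)) .nil)) .nil)) .leaf) (nat_lit 469528559506044) (.br (nat_lit 1) (.cons (.br (nat_lit 3) (.cons (.rel (nat_lit 286285824)) .nil)) .nil)) .leaf) (nat_lit 469528559506339) (.br (nat_lit 0) (.cons (.br (nat_lit 2) (.cons (.rel (nat_lit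 142606656)) .nil)) .nil)) (.node (.node .leaf (nat_lit 469528559547679) (.br (nat_lit 0) (.cons (.br (nat_lit 1) (.cons (.rel (nat_lit 20975874)) .nil)) .nil)) .leaf) (nat_lit 469528559587984) (.br (nat_lit 3) (.cons (.br (nat_lit 0) (.cons (.rel (nat_lit 273956880)) (.cons (.rel (nat_lit 272630793)) .nil))) .nil)) .leaf)) (nat_lit 469528561095586) (.br (nat_lit 0) (.cons (.br (nat_lit 1) (.cons (.rel (nat_lit 21234240)) .nil)) .nil)) (.node (.node (.node .leaf (nat_lit 469528562558977) (.br (nat_lit 2) (.cons (.br (nat_lit 3) (.cons (.rel (nat_lit 335675412)) .nil)) .nil)) .leaf) (nat_lit 469528562672892) (.br (nat_lit 5) (.cons (.br (nat_lit 2) (.cons (.rel (nat_lit 8657043585)) (.cons (.rel (nat_lit 4362077460)) (.cons (.rel (nat_lit 4363391232)) .nil)))) (.cons (.br (nat_lit 2) (.cons (.rel (nat_lit 4362141714)) (.cons (.rel (nat_lit 4362092565)) (.cons (.rel (nat_lit 4362142725)) .nil)))) .nil))) .leaf) (nat_lit 469528660169635) (.br (nat_lit 1) (.cons (.br (nat_lit 2) (.cons (.rel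 (nat_lit 83886372)) .nil)) .nil)) (.node .leaf (nat_lit 469528660255651) (.br (nat_lit 1) (.cons (.br (nat_lit 3) (.cons (.rel (nat_lit 301991172)) .nil)) .nil)) .leaf))) (nat_lit 469529518973584) (.br (nat_lit 0) (.cons (.br (nat_lit 2) (.cons (.rel (nat_lit 71647248)) .nil)) .nil)) (.node (.node (.node (.node .leaf (nat_lit 469531109724816) (.br (nat_lit 1) (.cons (.br (nat_lit 3) (.cons (.rel (nat_lit 302055426)) .nil)) .nil)) .leaf) (nat_lit 469531112809104) (.br (nat_lit 0) (.cons (.br (nat_lit 6) (.cons (.rel (nat_lit 17184326148)) .nil)) .nil)) .leaf) (nat_lit 469531743064351) (.br (nat_lit 2) (.cons (.br (nat_lit 6) (.cons (.rel (nat_lit 34428174336)) .nil)) .nil)) (.node (.node .leaf (nat_lit 469531743064720) (.br (nat_lit 0) (.cons (.br (nat_lit 2) (.cons (.rel (nat_lit 73417728)) .nil)) .nil)) .leaf) (nat_lit 469531743065340) (.br (nat_lit 2) (.cons (.br (nat_lit 3) (.cons (.rel (nat_lit 335807040)) .nil)) .nil)) .leaf)) (nat_lit 469531746148512) (.br (nat_lit 4) (.cons (.br (nat_lit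 6) (.cons (.rel (nat_lit 19327420416)) .nil)) .nil)) (.node (.node (.node .leaf (nat_lit 469531746161896) (.br (nat_lit 0) (.cons (.br (nat_lit 2) (.cons (.rel (nat_lit 71697408)) .nil)) .nil)) .leaf) (nat_lit 469700508052712) (.br (nat_lit 0) (.cons (.br (nat_lit 5) (.cons (.rel (nat_lit 8598323457)) .nil)) .nil)) .leaf) (nat_lit 469700508177311) (.br (nat_lit 0) (.cons (.br (nat_lit 5) (.cons (.rel (nat_lit 8598323457)) .nil)) .nil)) (.node .leaf (nat_lit 469700981763548) (.br (nat_lit 0) (.cons (.br (nat_lit 1) (.cons (.rel (nat_lit 38014992)) .nil)) .nil)) .leaf)))))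

/-- refutations 14 -/
def e14 : EX := (.node (.node (.node (.node (.node .leaf (nat_lit 469732092301313) (.br (nat_lit 0) (.cons (.br (nat_lit 2) (.cons (.rel (nat_lit 71697408)) .nil)) .nil)) .leaf) (nat_lit 469732738307548) (.br (nat_lit 0) (.cons (.br (nat_lit 3) (.cons (.rel (nat_lit 272630793)) .nil)) .nil)) .leaf) (nat_lit 469732738533528) (.br (nat_lit 0) (.cons (.br (nat_lit 1) (.cons (.rel (nat_lit 20979720)) .nil)) .nil)) (.node (.node .leaf (nat_lit 469734864717976) (.br (nat_lit 1) (.cons (.br (nat_lit 6) (.cons (.rel (nat_lit 34377629700)) .nil)) .nil)) .leaf) (nat_lit 469734864737191) (.br (nat_lit 1) (.cons (.br (nat_lit 2) (.cons (.rel (nat_lit 83919360)) .nil)) .nil)) .leaf)) (nat_lit 469737771371431) (.br (nat_lit 2) (.cons (.br (nat_lit 3) (.cons (.rel (nat_lit 335544837)) (.cons (.rel (nat_lit 671092740)) .nil))) (.cons (.br (nat_lit 3) (.cons (.rel (nat_lit 335544837)) (.cons (.rel (nat_lit 335577105)) .nil))) .nil))) (.node (.node (.node .leaf (nat_lit 469737772663719)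 (.br (nat_lit 2) (.cons (.br (nat_lit 6) (.cons (.rel (nat_lit 17247244320)) .nil)) .nil)) .leaf) (nat_lit 469737772980376) (.br (nat_lit 2) (.cons (.br (nat_lit 3) (.cons (.rel (nat_lit 335562000)) .nil)) .nil)) .leaf) (nat_lit 469737772981159) (.br (nat_lit 1) (.cons (.br (nat_lit 2) (.cons (.rel (nat_lit 83888385)) .nil)) .nil)) (.node (.node .leaf (nat_lit 469737772981480) (.br (nat_lit 1) (.cons (.br (nat_lit 2) (.cons (.rel (nat_lit 83888385)) .nil)) .nil)) .leaf) (nat_lit 470347788286239) (.br (nat_lit 0) (.cons (.br (nat_lit 2) (.cons (.rel (nat_lit 71567892)) .nil)) .nil)) .leaf))) (nat_lit 470347789936802) (.br (nat_lit 0) (.cons (.br (nat_lit 2) (.cons (.rel (nat_lit 138413316)) .nil)) .nil)) (.node (.node (.node (.node .leaf (nat_lit 470347789937422) (.br (nat_lit 0) (.cons (.br (nat_lit 2) (.cons (.rel (nat_lit 138690624)) .nil)) .nil)) .leaf) (nat_lit 470348181033645) (.br (nat_lit 1) (.cons (.br (nat_lit 2) (.cons (.rel (nat_lit 167788800)) .nil)) .nil)) .leaf) (nat_lit 470591081566844)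 (.br (nat_lit 0) (.cons (.br (nat_lit 3) (.cons (.rel (nat_lit 272629782)) .nil)) .nil)) (.node (.node .leaf (nat_lit 470591631021539) (.br (nat_lit 0) (.cons (.br (nat_lit 1) (.cons (.rel (nat_lit 26214402)) .nil)) .nil)) .leaf) (nat_lit 470596261841048) (.br (nat_lit 0) (.cons (.br (nat_lit 3) (.cons (.rel (nat_lit 272631840)) .nil)) .nil)) .leaf)) (nat_lit 470596261894951) (.br (nat_lit 2) (.cons (.br (nat_lit 4) (.cons (.rel (nat_lit 1141198848)) .nil)) .nil)) (.node (.node (.node .leaf (nat_lit 470596264698512) (.br (nat_lit 0) (.cons (.br (nat_lit 3) (.cons (.rel (nat_lit 272629782)) .nil)) .nil)) .leaf) (nat_lit 470597415047824) (.br (nat_lit 0) (.cons (.br (nat_lit 6) (.cons (.rel (nat_lit 34368131136)) .nil)) .nil)) .leaf) (nat_lit 470597415512871) (.br (nat_lit 0) (.cons (.br (nat_lit 3) (.cons (.rel (nat_lit 272631840)) .nil)) .nil)) (.node (.node .leaf (nat_lit 470597418131743) (.br (nat_lit 1) (.cons (.br (nat_lit 4) (.cons (.rel (nat_lit 2181038100)) .nil)) .nil)) .leaf) (nat_lit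 470712410505252) (.br (nat_lit 0) (.cons (.br (nat_lit 2) (.cons (.rel (nat_lit 142606656)) .nil)) .nil)) .leaf))))

/-- refutations 15 -/
def e15 : EX := (.node (.node (.node (.node (.node .leaf (nat_lit 470762825736828) (.br (nat_lit 0) (.cons (.br (nat_lit 2) (.cons (.rel (nat_lit 75628545)) .nil)) .nil)) .leaf) (nat_lit 470762825814017) (.br (nat_lit 0) (.cons (.br (nat_lit 1) (.cons (.rel (nat_lit 41947140)) .nil)) .nil)) .leaf) (nat_lit 470762828898305) (.br (nat_lit 0) (.cons (.br (nat_lit 1) (.cons (.rel (nat_lit 41947140)) .nil)) .nil)) (.node .leaf (nat_lit 470763027059324) (.br (nat_lit 0) (.cons (.br (nat_lit 3) (.cons (.rel (nat_lit 272631840)) .nil)) .nil)) .leaf)) (nat_lit 470763027368572) (.br (nat_lit 0) (.cons (.br (nat_lit 2) (.cons (.rel (nat_lit 71303808)) .nil)) .nil)) (.node (.node (.node .leaf (nat_lit 470763028629811) (.br (nat_lit 4) (.cons (.br (nat_lit 0) (.cons (.rel (nat_lit 1077936516)) (.cons (.rel (nat_lit 1077940353)) .nil))) .nil)) .leaf) (nat_lit 470765510087292)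 (.br (nat_lit 5) (.cons (.br (nat_lit 6) (.cons (.rel (nat_lit 38654705733)) .nil)) .nil)) .leaf) (nat_lit 470768043446908) (.br (nat_lit 3) (.cons (.br (nat_lit 4) (.cons (.rel (nat_lit 1342244868)) (.cons (.rel (nat_lit 1342185984)) .nil))) (.cons (.br (nat_lit 4) (.cons (.rel (nat_lit 1342194708)) (.cons (.rel (nat_lit 1342178592)) .nil))) .nil))) (.node .leaf (nat_lit 470768693564028) (.br (nat_lit 0) (.cons (.br (nat_lit 4) (.cons (.rel (nat_lit 1078198530)) .nil)) .nil)) .leaf))) (nat_lit 470768693873427) (.br (nat_lit 4) (.cons (.br (nat_lit 5) (.cons (.rel (nat_lit 5368779024)) (.cons (.rel (nat_lit 5368710168)) .nil))) (.cons (.br (nat_lit 5) (.cons (.rel (nat_lit 5370023940)) (.cons (.rel (nat_lit 5368709157)) .nil))) .nil))) (.node (.node (.node (.node .leaf (nat_lit 470768693873575) (.br (nat_lit 0) (.cons (.br (nat_lit 4) (.cons (.rel (nat_lit 1077936516)) .nil)) .nil)) .leaf) (nat_lit 470768694939649) (.br (nat_lit 2) (.cons (.br (nat_lit 3) (.cons (.rel (nat_lit 335544837))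 .nil)) .nil)) .leaf) (nat_lit 470768695083795) (.br (nat_lit 3) (.cons (.br (nat_lit 4) (.cons (.rel (nat_lit 1342244868)) .nil)) .nil)) (.node .leaf (nat_lit 470768695438099) (.br (nat_lit 0) (.cons (.br (nat_lit 1) (.cons (.rel (nat_lit 20979720)) .nil)) .nil)) .leaf)) (nat_lit 470769070023456) (.br (nat_lit 4) (.cons (.br (nat_lit 5) (.cons (.rel (nat_lit 5368742145)) .nil)) .nil)) (.node (.node .leaf (nat_lit 470769299064311) (.br (nat_lit 4) (.cons (.br (nat_lit 5) (.cons (.rel (nat_lit 9663939072)) .nil)) .nil)) .leaf) (nat_lit 470769305934611) (.br (nat_lit 2) (.cons (.br (nat_lit 3) (.cons (.rel (nat_lit 671092740)) .nil)) .nil)) (.node .leaf (nat_lit 470769309100819) (.br (nat_lit 0) (.cons (.br (nat_lit 2) (.cons (.rel (nat_lit 138428421)) .nil)) .nil)) .leaf))))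

/-- refutations 16 -/
def e16 : EX := (.node (.node (.node .leaf (nat_lit 213771992621968) (.br (nat_lit 0) (.cons (.br (nat_lit 2) (.cons (.rel (nat_lit 142606656)) .nil)) .nil)) .leaf) (nat_lit 216573361380709) (.br (nat_lit 1) (.cons (.br (nat_lit 0) (.cons (.rel (nat_lit 20989200)) (.cons (.rel (nat_lit 21103626)) .nil))) .nil)) .leaf) (nat_lit 223401309299600) (.br (nat_lit 1) (.cons (.br (nat_lit 3) (.cons (.rel (nat_lit 286262280)) .nil)) .nil)) (.node (.node .leaf (nat_lit 442470160992411) (.br (nat_lit 1) (.cons (.br (nat_lit 3) (.cons (.rel (nat_lit 285294672)) .nil)) .nil)) .leaf) (nat_lit 442470370398363) (.br (nat_lit 1) (.cons (.br (nat_lit 2) (.cons (.rel (nat_lit 83890209)) .nil)) .nil)) .leaf))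

/-- refutations 17 -/
def e17 : EX := (.node (.node (.node .leaf (nat_lit 880142636212484) (.br (nat_lit 0) (.cons (.br (nat_lit 1) (.cons (.rel (nat_lit 21004305)) .nil)) .nil)) .leaf) (nat_lit 880727168450820) (.br (nat_lit 4) (.cons (.br (nat_lit 2) (.cons (.rel (nat_lit 1141113876)) (.cons (.rel (nat_lit 2214659088)) .nil))) .nil)) (.node .leaf (nat_lit 885193331739260) (.br (nat_lit 1) (.cons (.br (nat_lit 2) (.cons (.rel (nat_lit 152109057)) .nil)) .nil)) .leaf)) (nat_lit 885194047720824) (.br (nat_lit 1) (.cons (.br (nat_lit 3) (.cons (.rel (nat_lit 302055426)) .nil)) .nil)) (.node (.node .leaf (nat_lit 885194048965415) (.br (nat_lit 3) (.cons (.br (nat_lit 6) (.cons (.rel (nat_lit 17448309000)) .nil)) .nil)) .leaf) (nat_lit 885194049981716) (.br (nat_lit 1) (.cons (.br (nat_lit 3) (.cons (.rel (nat_lit 286262280)) .nil)) .nil)) (.node .leaf (nat_lit 885194050543752) (.br (nat_lit 1) (.cons (.br (nat_lit 0) (.cons (.rel (nat_lit 21004305)) (.cons (.rel (nat_lit 20975874)) .nil)))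 .nil)) .leaf)))

/-- refutations 18 -/
def e18 : EX := (.node (.node (.node (.node .leaf (nat_lit 885425956023548) (.br (nat_lit 2) (.cons (.br (nat_lit 0) (.cons (.rel (nat_lit 138412305)) (.cons (.rel (nat_lit 138412305)) .nil))) .nil)) .leaf) (nat_lit 885425957713148) (.br (nat_lit 0) (.cons (.br (nat_lit 1) (.cons (.rel (nat_lit 20989200)) .nil)) .nil)) (.node .leaf (nat_lit 885425977198728) (.br (nat_lit 0) (.cons (.br (nat_lit 3) (.cons (.rel (nat_lit 272629782)) .nil)) .nil)) .leaf)) (nat_lit 885430590729468) (.br (nat_lit 1) (.cons (.br (nat_lit 4) (.cons (.rel (nat_lit 1090601217)) .nil)) .nil)) (.node (.node .leaf (nat_lit 885430606123919) (.br (nat_lit 0) (.cons (.br (nat_lit 2) (.cons (.rel (nat_lit 71303808)) .nil)) .nil)) .leaf) (nat_lit 885430607505719) (.br (nat_lit 0) (.cons (.br (nat_lit 1) (.cons (.rel (nat_lit 38014992)) .nil)) .nil)) .leaf)) (nat_lit 885430609279883) (.br (nat_lit 4) (.cons (.br (nat_lit 6) (.cons (.rel (nat_lit 19327370256)) (.cons (.rel (nat_lit 35433484548))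 .nil))) (.cons (.br (nat_lit 6) (.cons (.rel (nat_lit 19327353093)) (.cons (.rel (nat_lit 35433484548)) .nil))) .nil))) (.node (.node (.node .leaf (nat_lit 885431004582193) (.br (nat_lit 0) (.cons (.br (nat_lit 1) (.cons (.rel (nat_lit 20975874)) .nil)) .nil)) .leaf) (nat_lit 890407420536195) (.br (nat_lit 0) (.cons (.br (nat_lit 1) (.cons (.rel (nat_lit 22020240)) .nil)) .nil)) (.node .leaf (nat_lit 891421753122952) (.br (nat_lit 1) (.cons (.br (nat_lit 2) (.cons (.rel (nat_lit 167788800)) .nil)) .nil)) .leaf)) (nat_lit 891744842770468) (.br (nat_lit 0) (.cons (.br (nat_lit 2) (.cons (.rel (nat_lit 71697408)) .nil)) .nil)) (.node (.node .leaf (nat_lit 891907815248784) (.br (nat_lit 0) (.cons (.br (nat_lit 1) (.cons (.rel (nat_lit 20979720)) .nil)) .nil)) .leaf) (nat_lit 893015917374352) (.br (nat_lit 1) (.cons (.br (nat_lit 3) (.cons (.rel (nat_lit 286261269)) .nil)) .nil)) .leaf)))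

/-- refutations 20 -/
def e20 : EX := (.node (.node (.node (.node .leaf (nat_lit 915099803996796) (.br (nat_lit 0) (.cons (.br (nat_lit 2) (.cons (.rel (nat_lit 75517968)) .nil)) .nil)) .leaf) (nat_lit 917161696317691) (.br (nat_lit 2) (.cons (.br (nat_lit 3) (.cons (.rel (nat_lit 335548674)) .nil)) .nil)) .leaf) (nat_lit 917161696318375) (.br (nat_lit 3) (.cons (.br (nat_lit 5) (.cons (.rel (nat_lit 4563435600)) .nil)) .nil)) (.node (.node .leaf (nat_lit 917161697076505) (.br (nat_lit 0) (.cons (.br (nat_lit 3) (.cons (.rel (nat_lit 545260560)) .nil)) .nil)) .leaf) (nat_lit 917161697076581) (.br (nat_lit 3) (.cons (.br (nat_lit 6) (.cons (.rel (nat_lit 34896609537)) .nil)) .nil)) .leaf)) (nat_lit 917198966450203) (.br (nat_lit 0) (.cons (.br (nat_lit 2) (.cons (.rel (nat_lit 142606656)) .nil)) .nil)) (.node (.node (.node .leaf (nat_lit 921760220336915) (.br (nat_lit 0) (.cons (.br (nat_lit 2) (.cons (.rel (nat_lit 138428421)) .nil)) .nil)) .leaf) (nat_lit 921760222930428) (.br (nat_lit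 0) (.cons (.br (nat_lit 3) (.cons (.rel (nat_lit 272631840)) .nil)) .nil)) .leaf) (nat_lit 925591267128221) (.br (nat_lit 0) (.cons (.br (nat_lit 2) (.cons (.rel (nat_lit 71647248)) .nil)) .nil)) (.node .leaf (nat_lit 925595153701500) (.br (nat_lit 0) (.cons (.br (nat_lit 5) (.cons (.rel (nat_lit 4299162114)) .nil)) .nil)) .leaf)))

/-- refutations 21 -/
def e21 : EX := (.node (.node (.node (.node .leaf (nat_lit 969171736554777) (.br (nat_lit 0) (.cons (.br (nat_lit 2) (.cons (.rel (nat_lit 75568128)) .nil)) .nil)) .leaf) (nat_lit 969736072157344) (.br (nat_lit 0) (.cons (.br (nat_lit 1) (.cons (.rel (nat_lit 20972037)) .nil)) .nil)) .leaf) (nat_lit 969737651721118) (.br (nat_lit 3) (.cons (.br (nat_lit 0) (.cons (.rel (nat_lit 272650500)) (.cons (.rel (nat_lit 272891985)) .nil))) .nil)) (.node (.node .leaf (nat_lit 969737653001118) (.br (nat_lit 2) (.cons (.br (nat_lit 3) (.cons (.rel (nat_lit 671090964)) .nil)) .nil)) .leaf) (nat_lit 969986762793886) (.br (nat_lit 0) (.cons (.br (nat_lit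 1) (.cons (.rel (nat_lit 25198656)) .nil)) .nil)) .leaf)) (nat_lit 969987779300728) (.br (nat_lit 1) (.cons (.br (nat_lit 2) (.cons (.rel (nat_lit 167781381)) .nil)) .nil)) (.node (.node (.node .leaf (nat_lit 979616077987054) (.br (nat_lit 0) (.cons (.br (nat_lit 6) (.cons (.rel (nat_lit 34363937796)) .nil)) .nil)) .leaf) (nat_lit 979616079470618) (.br (nat_lit 2) (.cons (.br (nat_lit 5) (.cons (.rel (nat_lit 4362117120)) .nil)) .nil)) .leaf) (nat_lit 979705729749648) (.br (nat_lit 0) (.cons (.br (nat_lit 2) (.cons (.rel (nat_lit 138413316)) .nil)) .nil)) (.node (.node .leaf (nat_lit 980770884149408) (.br (nat_lit 0) (.cons (.br (nat_lit 1) (.cons (.rel (nat_lit 20975874)) .nil)) .nil)) .leaf) (nat_lit 987587657348329) (.br (nat_lit 1) (.cons (.br (nat_lit 2) (.cons (.rel (nat_lit 83902488)) .nil)) .nil)) .leaf)))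

/-- refutations 22 -/
def e22 : EX := (.node (.node (.node .leaf (nat_lit 2287242974352887) (.br (nat_lit 2) (.cons (.br (nat_lit 6) (.cons (.rel (nat_lit 17314087968)) .nil)) .nil)) .leaf) (nat_lit 2288164391638248) (.br (nat_lit 1) (.cons (.br (nat_lit 2) (.cons (.rel (nat_lit 83888385)) .nil)) .nil)) (.node .leaf (nat_lit 2289364151816368) (.br (nat_lit 0) (.cons (.br (nat_lit 5) (.cons (.rel (nat_lit 4299180288)) .nil)) .nil)) .leaf)) (nat_lit 2293488055314433) (.br (nat_lit 2) (.cons (.br (nat_lit 3) (.cons (.rel (nat_lit 604274688)) .nil)) .nil)) (.node (.node .leaf (nat_lit 2293489647767863) (.br (nat_lit 0) (.cons (.br (nat_lit 1) (.cons (.rel (nat_lit 22283265)) .nil)) .nil)) .leaf) (nat_lit 2293489649149953) (.br (nat_lit 2) (.cons (.br (nat_lit 5) (.cons (.rel (nat_lit 4362077460)) .nil)) .nil)) .leaf))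

/-- refutations 23 -/
def e23 : EX := (.node (.node .leaf (nat_lit 2298028543503243) (.br (nat_lit 0) (.cons (.br (nat_lit 3) (.cons (.rel (nat_lit 272778240)) .nil)) .nil)) .leaf) (nat_lit 2298028544514228) (.br (nat_lit 0) (.cons (.br (nat_lit 3) (.cons (.rel (nat_lit 272631840)) .nil)) .nil)) .leaf)

/-- refutations 24 -/
def e24 : EX := (.node (.node .leaf (nat_lit 1067354733695013) (.br (nat_lit 0) (.cons (.br (nat_lit 1) (.cons (.rel (nat_lit 20975874)) .nil)) .nil)) .leaf) (nat_lit 1067577027612858) (.br (nat_lit 0) (.cons (.br (nat_lit 2) (.cons (.rel (nat_lit 142606656)) .nil)) .nil)) .leaf)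

/-- refutations 25 -/
def e25 : EX := (.node (.node (.node (.node (.node (.node .leaf (nat_lit 2639086779433120) (.br (nat_lit 2) (.cons (.br (nat_lit 4) (.cons (.rel (nat_lit 1207963905)) .nil)) .nil)) .leaf) (nat_lit 2639086779467936) (.br (nat_lit 6) (.cons (.br (nat_lit 2) (.cons (.rel (nat_lit 17247242496)) (.cons (.rel (nat_lit 17246994576)) .nil))) .nil)) .leaf) (nat_lit 2639086779468432) (.br (nat_lit 2) (.cons (.br (nat_lit 3) (.cons (.rel (nat_lit 335578116)) .nil)) .nil)) (.node .leaf (nat_lit 2639086779469303) (.br (nat_lit 3) (.cons (.br (nat_lit 4) (.cons (.rel (nat_lit 1342193697)) .nil)) .nil)) .leaf)) (nat_lit 2639086780508320) (.br (nat_lit 6) (.cons (.br (nat_lit 2) (.cons (.rel (nat_lit 34426849296)) (.cons (.rel (nat_lit 17246994576)) .nil))) .nil)) (.node (.node (.node .leaf (nat_lit 2639086780509687) (.br (nat_lit 4) (.cons (.br (nat_lit 5) (.cons (.rel (nat_lit 5368709157)) .nil)) .nil)) .leaf) (nat_lit 2639086782292128) (.br (nat_lit 2) (.cons (.br (nat_lit 5) (.cons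 (.rel (nat_lit 8724172800)) .nil)) .nil)) .leaf) (nat_lit 2639088339750140) (.br (nat_lit 4) (.cons (.br (nat_lit 3) (.cons (.rel (nat_lit 1342194708)) (.cons (.rel (nat_lit 1342183440)) .nil))) .nil)) (.node .leaf (nat_lit 2639088339750264) (.br (nat_lit 2) (.cons (.br (nat_lit 3) (.cons (.rel (nat_lit 335613984)) .nil)) .nil)) .leaf))) (nat_lit 2639088342574332) (.br (nat_lit 0) (.cons (.br (nat_lit 3) (.cons (.rel (nat_lit 272639232)) .nil)) .nil)) (.node (.node (.node (.node .leaf (nat_lit 2639092043320572) (.br (nat_lit 0) (.cons (.br (nat_lit 3) (.cons (.rel (nat_lit 272778240)) (.cons (.rel (nat_lit 272630793)) .nil))) .nil)) .leaf) (nat_lit 2639092044360460) (.br (nat_lit 0) (.cons (.br (nat_lit 6) (.cons (.rel (nat_lit 34368131136)) .nil)) .nil)) .leaf) (nat_lit 2639092046143775) (.br (nat_lit 0) (.cons (.br (nat_lit 3) (.cons (.rel (nat_lit 272631840)) .nil)) .nil)) (.node .leaf (nat_lit 2640004778095968) (.br (nat_lit 1) (.cons (.br (nat_lit 2) (.cons (.rel (nat_lit 83886372))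 .nil)) .nil)) .leaf)) (nat_lit 2640004780656696) (.br (nat_lit 0) (.cons (.br (nat_lit 5) (.cons (.rel (nat_lit 8596226052)) .nil)) .nil)) (.node (.node .leaf (nat_lit 2640179261443324) (.br (nat_lit 2) (.cons (.br (nat_lit 3) (.cons (.rel (nat_lit 335552520)) .nil)) .nil)) .leaf) (nat_lit 2640179261443448) (.br (nat_lit 3) (.cons (.br (nat_lit 4) (.cons (.rel (nat_lit 1342178592)) .nil)) .nil)) (.node .leaf (nat_lit 2640995305229564) (.br (nat_lit 0) (.cons (.br (nat_lit 1) (.cons (.rel (nat_lit 20989200)) .nil)) .nil)) .leaf)))) (nat_lit 2640995426863855) (.br (nat_lit 2) (.cons (.br (nat_lit 6) (.cons (.rel (nat_lit 17249075217)) .nil)) .nil)) (.node (.node (.node (.node (.node .leaf (nat_lit 2644477786549535) (.br (nat_lit 1) (.cons (.br (nat_lit 3) (.cons (.rel (nat_lit 570687744)) .nil)) .nil)) .leaf) (nat_lit 2645505020855548) (.br (nat_lit 2) (.cons (.br (nat_lit 3) (.cons (.rel (nat_lit 335544837)) (.cons (.rel (nat_lit 335566848)) .nil))) (.cons (.br (nat_lit 3) (.cons (.rel (nat_lit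 335548674)) (.cons (.rel (nat_lit 335548674)) .nil))) .nil))) .leaf) (nat_lit 2645505020889868) (.br (nat_lit 0) (.cons (.br (nat_lit 2) (.cons (.rel (nat_lit 142606656)) .nil)) .nil)) (.node .leaf (nat_lit 2645505020890364) (.br (nat_lit 0) (.cons (.br (nat_lit 2) (.cons (.rel (nat_lit 71303808)) (.cons (.rel (nat_lit 138417153)) (.cons (.rel (nat_lit 71565834)) .nil)))) (.cons (.br (nat_lit 2) (.cons (.rel (nat_lit 75628545)) (.cons (.br (nat_lit 4) (.cons (.rel (nat_lit 1080034320)) (.cons (.rel (nat_lit 1207992336)) (.cons (.rel (nat_lit 2281702464)) .nil)))) (.cons (.rel (nat_lit 75628545)) .nil)))) .nil))) .leaf)) (nat_lit 2645505021095164) (.br (nat_lit 0) (.cons (.br (nat_lit 1) (.cons (.br (nat_lit 4) (.cons (.rel (nat_lit 1090519080)) .nil)) .nil)) .nil)) (.node (.node .leaf (nat_lit 2645505021929759) (.br (nat_lit 0) (.cons (.br (nat_lit 4) (.cons (.rel (nat_lit 2151686160)) .nil)) .nil)) .leaf) (nat_lit 2645505022134559) (.br (nat_lit 0) (.cons (.br (nat_lit 1) (.cons (.rel (nat_lit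 21041184)) .nil)) .nil)) (.node .leaf (nat_lit 2645505022139919) (.br (nat_lit 1) (.cons (.br (nat_lit 3) (.cons (.rel (nat_lit 285217092)) .nil)) .nil)) .leaf))) (nat_lit 2645505023355067) (.br (nat_lit 0) (.cons (.br (nat_lit 1) (.cons (.rel (nat_lit 22283265)) .nil)) .nil)) (.node (.node (.node (.node .leaf (nat_lit 2645505023356156) (.br (nat_lit 0) (.cons (.br (nat_lit 6) (.cons (.rel (nat_lit 34363998213)) .nil)) .nil)) .leaf) (nat_lit 2645505023620582) (.br (nat_lit 1) (.cons (.br (nat_lit 2) (.cons (.rel (nat_lit 83888385)) (.cons (.rel (nat_lit 83886372)) .nil))) .nil)) .leaf) (nat_lit 2645505023714556) (.br (nat_lit 2) (.cons (.br (nat_lit 4) (.cons (.rel (nat_lit 1207960068)) .nil)) .nil)) (.node .leaf (nat_lit 2645505143565039) (.br (nat_lit 0) (.cons (.br (nat_lit 1) (.cons (.rel (nat_lit 21102612)) .nil)) .nil)) .leaf)) (nat_lit 2645505145255150) (.br (nat_lit 3) (.cons (.br (nat_lit 6) (.cons (.rel (nat_lit 17448575040)) .nil)) .nil)) (.node (.node .leaf (nat_lit 2645508204366731)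 (.br (nat_lit 6) (.cons (.br (nat_lit 5) (.cons (.rel (nat_lit 21474852882)) (.cons (.rel (nat_lit 21474842625)) (.cons (.rel (nat_lit 21474975744)) (.cons (.rel (nat_lit 21474903042)) .nil))))) .nil)) .leaf) (nat_lit 2645508206617483) (.br (nat_lit 2) (.cons (.br (nat_lit 3) (.cons (.rel (nat_lit 335548674)) (.cons (.rel (nat_lit 335544837)) .nil))) .nil)) (.node .leaf (nat_lit 2645508623455608) (.br (nat_lit 0) (.cons (.br (nat_lit 2) (.cons (.rel (nat_lit 72876048)) .nil)) .nil)) .leaf)))))

/-- refutations 26 -/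
def e26 : EX := (.node (.node (.node (.node .leaf (nat_lit 2649623303095052) (.br (nat_lit 0) (.cons (.br (nat_lit 1) (.cons (.rel (nat_lit 20994048)) .nil)) .nil)) .leaf) (nat_lit 2649623303129744) (.br (nat_lit 0) (.cons (.br (nat_lit 1) (.cons (.rel (nat_lit 38076420)) .nil)) .nil)) (.node .leaf (nat_lit 2649872410874536) (.br (nat_lit 6) (.cons (.br (nat_lit 0) (.cons (.rel (nat_lit 17184358416)) (.cons (.rel (nat_lit 34368131136)) .nil))) .nil)) .leaf)) (nat_lit 2649872411198220) (.br (nat_lit 3) (.cons (.br (nat_lit 5) (.cons (.rel (nat_lit 4563407169)) .nil)) .nil)) (.node (.node .leaf (nat_lit 2649872411233036) (.br (nat_lit 2) (.cons (.br (nat_lit 6) (.cons (.rel (nat_lit 34426847238)) .nil)) .nil)) .leaf) (nat_lit 2649872414056735) (.br (nat_lit 2) (.cons (.br (nat_lit 4) (.cons (.rel (nat_lit 2214592776)) .nil)) .nil)) .leaf)) (nat_lit 2649872414057724) (.br (nat_lit 2) (.cons (.br (nat_lit 3) (.cons (.rel (nat_lit 335807040)) .nil)) .nil)) (.node (.node (.node .leaf (nat_lit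 2651985417360171) (.br (nat_lit 0) (.cons (.br (nat_lit 1) (.cons (.rel (nat_lit 21004305)) .nil)) .nil)) .leaf) (nat_lit 2652023222005239) (.br (nat_lit 2) (.cons (.br (nat_lit 3) (.cons (.rel (nat_lit 405014544)) .nil)) .nil)) .leaf) (nat_lit 2652024903920878) (.br (nat_lit 0) (.cons (.br (nat_lit 2) (.cons (.rel (nat_lit 71647248)) .nil)) .nil)) (.node (.node .leaf (nat_lit 2652027964363559) (.br (nat_lit 0) (.cons (.br (nat_lit 2) (.cons (.rel (nat_lit 71647248)) .nil)) .nil)) .leaf) (nat_lit 2652200137747743) (.br (nat_lit 0) (.cons (.br (nat_lit 2) (.cons (.rel (nat_lit 73417728)) .nil)) .nil)) .leaf)))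

/-- refutations 28 -/
def e28 : EX := (.node (.node .leaf (nat_lit 2729248396609718) (.br (nat_lit 0) (.cons (.br (nat_lit 2) (.cons (.rel (nat_lit 138417153)) .nil)) .nil)) .leaf) (nat_lit 2732377580586260) (.br (nat_lit 0) (.cons (.br (nat_lit 1) (.cons (.rel (nat_lit 39845889)) .nil)) .nil)) .leaf)

/-- refutations 29 -/
def e29 : EX := (.node .leaf (nat_lit 2749964632999968) (.br (nat_lit 0) (.cons (.br (nat_lit 1) (.cons (.rel (nat_lit 20975874)) .nil)) .nil)) .leaf)

/-- refutations 31 -/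
def e31 : EX := (.node (.node (.node .leaf (nat_lit 3172017559590271) (.br (nat_lit 0) (.cons (.br (nat_lit 2) (.cons (.rel (nat_lit 71573505)) .nil)) .nil)) .leaf) (nat_lit 3172395514877466) (.br (nat_lit 0) (.cons (.br (nat_lit 3) (.cons (.rel (nat_lit 272634384)) .nil)) .nil)) .leaf) (nat_lit 3173265799403024) (.br (nat_lit 0) (.cons (.br (nat_lit 3) (.cons (.rel (nat_lit 272650500)) .nil)) .nil)) (.node .leaf (nat_lit 3173265799712272) (.br (nat_lit 4) (.cons (.br (nat_lit 3) (.cons (.rel (nat_lit 1342177545)) (.cons (.rel (nat_lit 1342193697)) .nil))) .nil)) .leaf))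

/-- refutations 32 -/
def e32 : EX := (.node (.node (.node (.node (.node .leaf (nat_lit 3291250660757505) (.br (nat_lit 2) (.cons (.br (nat_lit 4) (.cons (.rel (nat_lit 2281702464)) .nil)) .nil)) .leaf) (nat_lit 3291250660757809) (.br (nat_lit 2) (.cons (.br (nat_lit 3) (.cons (.rel (nat_lit 604274688)) .nil)) .nil)) .leaf) (nat_lit 3291250660758760) (.br (nat_lit 2) (.cons (.br (nat_lit 4) (.cons (.rel (nat_lit 2214659088)) .nil)) .nil)) (.node (.node .leaf (nat_lit 3291250661263367) (.br (nat_lit 0) (.cons (.br (nat_lit 1) (.cons (.rel (nat_lit 21234240)) .nil)) .nil)) .leaf) (nat_lit 3291250661312674) (.br (nat_lit 0) (.cons (.br (nat_lit 2) (.cons (.rel (nat_lit 138417153)) .nil)) .nil)) .leaf)) (nat_lit 3291293568487734) (.br (nat_lit 0) (.cons (.br (nat_lit 2) (.cons (.rel (nat_lit 75517968)) .nil)) .nil)) (.node (.node (.node .leaf (nat_lit 3291293571656306) (.br (nat_lit 0) (.cons (.br (nat_lit 2) (.cons (.rel (nat_lit 75628545)) .nil)) .nil)) .leaf) (nat_lit 3296706426851329) (.br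 (nat_lit 1) (.cons (.br (nat_lit 4) (.cons (.rel (nat_lit 1090592784)) .nil)) .nil)) .leaf) (nat_lit 3296708007065731) (.br (nat_lit 4) (.cons (.br (nat_lit 5) (.cons (.rel (nat_lit 5368709157)) .nil)) .nil)) (.node .leaf (nat_lit 3296710470161640) (.br (nat_lit 0) (.cons (.br (nat_lit 3) (.cons (.rel (nat_lit 272695812)) .nil)) .nil)) .leaf))) (nat_lit 3296711781686780) (.br (nat_lit 2) (.cons (.br (nat_lit 3) (.cons (.rel (nat_lit 335552520)) .nil)) .nil)) (.node (.node (.node (.node .leaf (nat_lit 3300498631316238) (.br (nat_lit 0) (.cons (.br (nat_lit 1) (.cons (.rel (nat_lit 20972037)) .nil)) .nil)) .leaf) (nat_lit 3300499830887182) (.br (nat_lit 2) (.cons (.br (nat_lit 4) (.cons (.rel (nat_lit 2281702464)) .nil)) .nil)) .leaf) (nat_lit 3302036229607425) (.br (nat_lit 3) (.cons (.br (nat_lit 0) (.cons (.rel (nat_lit 272654337)) (.cons (.rel (nat_lit 272654337)) .nil))) .nil)) (.node (.node .leaf (nat_lit 3302036229608206) (.br (nat_lit 3) (.cons (.br (nat_lit 0) (.cons (.rel (nat_lit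 272639232)) (.cons (.rel (nat_lit 272631840)) .nil))) .nil)) .leaf) (nat_lit 3302036229608349) (.br (nat_lit 0) (.cons (.br (nat_lit 3) (.cons (.rel (nat_lit 272654337)) .nil)) .nil)) .leaf)) (nat_lit 3302036229608680) (.br (nat_lit 0) (.cons (.br (nat_lit 3) (.cons (.rel (nat_lit 272654337)) .nil)) .nil)) (.node (.node (.node .leaf (nat_lit 3302036231175549) (.br (nat_lit 0) (.cons (.br (nat_lit 5) (.cons (.rel (nat_lit 4299432000)) .nil)) .nil)) .leaf) (nat_lit 3302036232776462) (.br (nat_lit 4) (.cons (.br (nat_lit 6) (.cons (.rel (nat_lit 18253611168)) (.cons (.rel (nat_lit 19327420416)) .nil))) .nil)) .leaf) (nat_lit 3303102651344409) (.br (nat_lit 0) (.cons (.br (nat_lit 2) (.cons (.rel (nat_lit 138690624)) .nil)) .nil)) (.node .leaf (nat_lit 3303111259083383) (.br (nat_lit 0) (.cons (.br (nat_lit 1) (.cons (.rel (nat_lit 20979720)) .nil)) .nil)) .leaf))))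

/-- refutations 33 -/
def e33 : EX := (.node (.node (.node (.node (.node .leaf (nat_lit 4491591465062437) (.br (nat_lit 0) (.cons (.br (nat_lit 2) (.cons (.rel (nat_lit 138417153)) .nil)) .nil)) .leaf) (nat_lit 4491591473451644) (.br (nat_lit 3) (.cons (.br (nat_lit 6) (.cons (.rel (nat_lit 17448323328)) .nil)) .nil)) .leaf) (nat_lit 4491591475038519) (.br (nat_lit 2) (.cons (.br (nat_lit 4) (.cons (.rel (nat_lit 1141113876)) .nil)) .nil)) (.node .leaf (nat_lit 4491591476053268) (.br (nat_lit 3) (.cons (.br (nat_lit 1) (.cons (.rel (nat_lit 286262280)) (.cons (.rel (nat_lit 286331136)) .nil))) .nil)) .leaf)) (nat_lit 4491594256878868) (.br (nat_lit 3) (.cons (.br (nat_lit 6) (.cons (.rel (nat_lit 17448309000)) .nil)) .nil)) (.node (.node .leaf (nat_lit 4492973899272193) (.br (nat_lit 2) (.cons (.br (nat_lit 4) (.cons (.rel (nat_lit 1140852864)) .nil)) .nil)) .leaf) (nat_lit 4493584287945009) (.br (nat_lit 2) (.cons (.br (nat_lit 4) (.cons (.rel (nat_lit 1140852864)) .nil)) .nil)) (.node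 .leaf (nat_lit 4493584288308105) (.br (nat_lit 2) (.cons (.br (nat_lit 4) (.cons (.rel (nat_lit 2281702464)) .nil)) .nil)) .leaf))) (nat_lit 4493584289515820) (.br (nat_lit 1) (.cons (.br (nat_lit 4) (.cons (.rel (nat_lit 1090520082)) .nil)) .nil)) (.node (.node (.node .leaf (nat_lit 4493584320474490) (.br (nat_lit 2) (.cons (.br (nat_lit 3) (.cons (.rel (nat_lit 335548674)) .nil)) .nil)) .leaf) (nat_lit 4493584330230065) (.br (nat_lit 1) (.cons (.br (nat_lit 5) (.cons (.rel (nat_lit 8606711814)) .nil)) .nil)) (.node .leaf (nat_lit 4493584331458870) (.br (nat_lit 1) (.cons (.br (nat_lit 5) (.cons (.rel (nat_lit 4312924176)) (.cons (.rel (nat_lit 4312924176)) .nil))) .nil)) .leaf)) (nat_lit 4493584331469100) (.br (nat_lit 1) (.cons (.br (nat_lit 5) (.cons (.rel (nat_lit 4312924176)) .nil)) .nil)) (.node (.node .leaf (nat_lit 4493585031719043) (.br (nat_lit 0) (.cons (.br (nat_lit 1) (.cons (.rel (nat_lit 37765248)) .nil)) .nil)) .leaf) (nat_lit 4493589027490418) (.br (nat_lit 2) (.cons (.br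 (nat_lit 3) (.cons (.rel (nat_lit 335612160)) .nil)) .nil)) (.node .leaf (nat_lit 4498124492002062) (.br (nat_lit 1) (.cons (.br (nat_lit 3) (.cons (.rel (nat_lit 285344832)) .nil)) .nil)) .leaf))))

/-- refutations 34 -/
def e34 : EX := (.node (.node (.node (.node (.node .leaf (nat_lit 4575316991641650) (.br (nat_lit 0) (.cons (.br (nat_lit 2) (.cons (.rel (nat_lit 71303808)) .nil)) .nil)) .leaf) (nat_lit 4575571581358716) (.br (nat_lit 1) (.cons (.br (nat_lit 3) (.cons (.rel (nat_lit 286262280)) .nil)) .nil)) .leaf) (nat_lit 4581588167821943) (.br (nat_lit 3) (.cons (.br (nat_lit 0) (.cons (.rel (nat_lit 272631840)) (.cons (.rel (nat_lit 272629782)) .nil))) .nil)) (.node (.node .leaf (nat_lit 4581588169410860) (.br (nat_lit 2) (.cons (.br (nat_lit 4) (.cons (.rel (nat_lit 2281702464)) .nil)) .nil)) .leaf) (nat_lit 4581588209764983) (.br (nat_lit 1) (.cons (.br (nat_lit 2) (.cons (.rel (nat_lit 83903490)) .nil)) .nil)) .leaf)) (nat_lit 4581588209783089) (.br (nat_lit 1) (.cons (.br (nat_lit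 2) (.cons (.rel (nat_lit 83919360)) .nil)) .nil)) (.node (.node (.node .leaf (nat_lit 4581588211364145) (.br (nat_lit 1) (.cons (.br (nat_lit 2) (.cons (.rel (nat_lit 83886372)) .nil)) .nil)) .leaf) (nat_lit 4581588211364150) (.br (nat_lit 0) (.cons (.br (nat_lit 3) (.cons (.rel (nat_lit 272639232)) .nil)) .nil)) .leaf) (nat_lit 4581588211374380) (.br (nat_lit 0) (.cons (.br (nat_lit 1) (.cons (.rel (nat_lit 37765248)) .nil)) .nil)) (.node (.node .leaf (nat_lit 4581588213959286) (.br (nat_lit 0) (.cons (.br (nat_lit 2) (.cons (.rel (nat_lit 138417153)) .nil)) .nil)) .leaf) (nat_lit 4581588213959292) (.br (nat_lit 4) (.cons (.br (nat_lit 2) (.cons (.rel (nat_lit 2281702464)) (.cons (.rel (nat_lit 2214608928)) .nil))) .nil)) .leaf))) (nat_lit 4581588213977715) (.br (nat_lit 0) (.cons (.br (nat_lit 2) (.cons (.rel (nat_lit 71569668)) .nil)) .nil)) (.node (.node (.node (.node .leaf (nat_lit 4581588213977718) (.br (nat_lit 4) (.cons (.br (nat_lit 1) (.cons (.rel (nat_lit 1090521093)) (.cons (.rel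 (nat_lit 1090555905)) .nil))) .nil)) .leaf) (nat_lit 4581588213977875) (.br (nat_lit 0) (.cons (.br (nat_lit 3) (.cons (.rel (nat_lit 272654337)) .nil)) .nil)) .leaf) (nat_lit 4581592886413943) (.br (nat_lit 2) (.cons (.br (nat_lit 3) (.cons (.rel (nat_lit 335544837)) .nil)) .nil)) (.node (.node .leaf (nat_lit 4581592886413948) (.br (nat_lit 0) (.cons (.br (nat_lit 2) (.cons (.rel (nat_lit 138417153)) .nil)) .nil)) .leaf) (nat_lit 4581592889024543) (.br (nat_lit 0) (.cons (.br (nat_lit 1) (.cons (.rel (nat_lit 20979720)) .nil)) .nil)) .leaf)) (nat_lit 4581592928356988) (.br (nat_lit 5) (.cons (.br (nat_lit 1) (.cons (.rel (nat_lit 8606716416)) (.cons (.rel (nat_lit 4312793601)) .nil))) .nil)) (.node (.node (.node .leaf (nat_lit 4581592929914213) (.br (nat_lit 2) (.cons (.br (nat_lit 3) (.cons (.rel (nat_lit 335566848)) .nil)) .nil)) .leaf) (nat_lit 4584765961294759) (.br (nat_lit 2) (.cons (.br (nat_lit 3) (.cons (.rel (nat_lit 335566848)) .nil)) .nil)) .leaf) (nat_lit 4584766594616708)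 (.br (nat_lit 1) (.cons (.br (nat_lit 3) (.cons (.rel (nat_lit 302006277)) .nil)) .nil)) (.node (.node .leaf (nat_lit 4584766596010159) (.br (nat_lit 1) (.cons (.br (nat_lit 2) (.cons (.rel (nat_lit 150995013)) .nil)) .nil)) .leaf) (nat_lit 4584772472727563) (.br (nat_lit 0) (.cons (.br (nat_lit 1) (.cons (.rel (nat_lit 20972037)) .nil)) .nil)) .leaf))))

/-- refutations 36 -/
def e36 : EX := (.node (.node (.node (.node (.node .leaf (nat_lit 4857695001661620) (.br (nat_lit 0) (.cons (.br (nat_lit 1) (.cons (.rel (nat_lit 20994048)) .nil)) .nil)) .leaf) (nat_lit 4861026914817300) (.br (nat_lit 0) (.cons (.br (nat_lit 1) (.cons (.rel (nat_lit 20994048)) .nil)) .nil)) .leaf) (nat_lit 4861029435593340) (.br (nat_lit 2) (.cons (.br (nat_lit 4) (.cons (.br (nat_lit 5) (.cons (.rel (nat_lit 5368711170)) .nil)) .nil)) .nil)) (.node (.node .leaf (nat_lit 4861029438199061) (.br (nat_lit 2) (.cons (.br (nat_lit 4) (.cons (.rel (nat_lit 1141112865)) .nil)) .nil)) .leaf) (nat_lit 4861030735828325) (.br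 (nat_lit 2) (.cons (.br (nat_lit 0) (.cons (.rel (nat_lit 71573505)) (.cons (.rel (nat_lit 72876048)) .nil))) .nil)) .leaf)) (nat_lit 4861030737419621) (.br (nat_lit 0) (.cons (.br (nat_lit 1) (.cons (.rel (nat_lit 20994048)) .nil)) .nil)) (.node (.node (.node .leaf (nat_lit 4861030738728987) (.br (nat_lit 0) (.cons (.br (nat_lit 2) (.cons (.rel (nat_lit 138417153)) (.cons (.rel (nat_lit 71573505)) .nil))) .nil)) .leaf) (nat_lit 4861032595739559) (.br (nat_lit 0) (.cons (.br (nat_lit 2) (.cons (.rel (nat_lit 71569668)) .nil)) .nil)) .leaf) (nat_lit 4866203189250723) (.br (nat_lit 1) (.cons (.br (nat_lit 2) (.cons (.rel (nat_lit 83890209)) .nil)) .nil)) (.node .leaf (nat_lit 4866203189269155) (.br (nat_lit 1) (.cons (.br (nat_lit 2) (.cons (.rel (nat_lit 167788800)) .nil)) .nil)) .leaf))) (nat_lit 4866203189270779) (.br (nat_lit 2) (.cons (.br (nat_lit 4) (.cons (.rel (nat_lit 1207960068)) .nil)) .nil)) (.node (.node (.node (.node .leaf (nat_lit 4866203736363943) (.br (nat_lit 0) (.cons (.br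 (nat_lit 2) (.cons (.rel (nat_lit 75579396)) .nil)) .nil)) .leaf) (nat_lit 4866244826107237) (.br (nat_lit 2) (.cons (.br (nat_lit 3) (.cons (.rel (nat_lit 335544837)) .nil)) .nil)) .leaf) (nat_lit 4866244826124924) (.br (nat_lit 4) (.cons (.br (nat_lit 3) (.cons (.rel (nat_lit 1343553792)) (.cons (.rel (nat_lit 1342324992)) .nil))) .nil)) (.node (.node .leaf (nat_lit 4866244826434471) (.br (nat_lit 0) (.cons (.br (nat_lit 3) (.cons (.rel (nat_lit 272631840)) .nil)) .nil)) .leaf) (nat_lit 4866244827651429) (.br (nat_lit 0) (.cons (.br (nat_lit 3) (.cons (.rel (nat_lit 272654337)) .nil)) .nil)) .leaf)) (nat_lit 4866244827706725) (.br (nat_lit 0) (.cons (.br (nat_lit 2) (.cons (.rel (nat_lit 138413316)) .nil)) .nil)) (.node (.node (.node .leaf (nat_lit 4866244829177189) (.br (nat_lit 2) (.cons (.br (nat_lit 3) (.cons (.rel (nat_lit 335577105)) (.cons (.rel (nat_lit 335577105)) .nil))) .nil)) .leaf) (nat_lit 4866244829178492) (.br (nat_lit 0) (.cons (.br (nat_lit 1) (.cons (.rel (nat_lit 20972037))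 .nil)) .nil)) .leaf) (nat_lit 4866246159915644) (.br (nat_lit 2) (.cons (.br (nat_lit 4) (.cons (.rel (nat_lit 2281702464)) (.cons (.rel (nat_lit 1207960068)) (.cons (.rel (nat_lit 1141145865)) .nil)))) .nil)) (.node .leaf (nat_lit 4866246160151409) (.br (nat_lit 0) (.cons (.br (nat_lit 1) (.cons (.rel (nat_lit 21005316)) .nil)) .nil)) .leaf))))

/-- refutations 37 -/
def e37 : EX := (.node (.node .leaf (nat_lit 5016193345783844) (.br (nat_lit 0) (.cons (.br (nat_lit 2) (.cons (.rel (nat_lit 142606656)) .nil)) .nil)) .leaf) (nat_lit 5016193345785195) (.br (nat_lit 0) (.cons (.br (nat_lit 2) (.cons (.rel (nat_lit 71303808)) .nil)) .nil)) .leaf)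

/-- refutations 38 -/
def e38 : EX := (.node (.node .leaf (nat_lit 5036833671058093) (.br (nat_lit 0) (.cons (.br (nat_lit 2) (.cons (.rel (nat_lit 142606656)) .nil)) .nil)) .leaf) (nat_lit 5036948817204502) (.br (nat_lit 1) (.cons (.br (nat_lit 2) (.cons (.rel (nat_lit 83919360)) .nil)) .nil)) (.node .leaf (nat_lit 5039184801213703) (.br (nat_lit 0) (.cons (.br (nat_lit 1) (.cons (.rel (nat_lit 20979720)) .nil)) .nil)) .leaf))

/-- refutations 39 -/
def e39 : EX := (.node (.node (.node .leaf (nat_lit 5055884237985020) (.br (nat_lit 3) (.cons (.br (nat_lit 0) (.cons (.rel (nat_lit 272631840)) (.cons (.rel (nat_lit 272728080)) .nil))) .nil)) .leaf) (nat_lit 5055890236866821) (.br (nat_lit 0) (.cons (.br (nat_lit 1) (.cons (.rel (nat_lit 20975874)) .nil)) .nil)) (.node .leaf (nat_lit 5283241902021909) (.br (nat_lit 1) (.cons (.br (nat_lit 2) (.cons (.rel (nat_lit 83952648)) .nil)) .nil)) .leaf)) (nat_lit 5283241903260284) (.br (nat_lit 1) (.cons (.br (nat_lit 3) (.cons (.rel (nat_lit 286523472))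 .nil)) .nil)) (.node (.node .leaf (nat_lit 5283241903260949) (.br (nat_lit 5) (.cons (.br (nat_lit 6) (.cons (.rel (nat_lit 21474852882)) .nil)) .nil)) .leaf) (nat_lit 5288879751404156) (.br (nat_lit 1) (.cons (.br (nat_lit 2) (.cons (.rel (nat_lit 83919360)) .nil)) .nil)) .leaf))

/-- refutations 40 -/
def e40 : EX := (.node (.node .leaf (nat_lit 5476756594897798) (.br (nat_lit 0) (.cons (.br (nat_lit 2) (.cons (.rel (nat_lit 72352833)) .nil)) .nil)) .leaf) (nat_lit 5476757250284327) (.br (nat_lit 0) (.cons (.br (nat_lit 6) (.cons (.rel (nat_lit 17184071808)) .nil)) .nil)) (.node .leaf (nat_lit 5476759850752187) (.br (nat_lit 1) (.cons (.br (nat_lit 2) (.cons (.rel (nat_lit 83886372)) .nil)) .nil)) .leaf))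

/-- refutations 41 -/
def e41 : EX := (.node (.node (.node (.node (.node .leaf (nat_lit 11452774089330695) (.br (nat_lit 2) (.cons (.br (nat_lit 3) (.cons (.rel (nat_lit 335675412)) .nil)) .nil)) .leaf) (nat_lit 11452777258603278) (.br (nat_lit 4) (.cons (.br (nat_lit 1) (.cons (.rel (nat_lit 1090552068)) (.cons (.rel (nat_lit 1090520082)) .nil))) .nil)) (.node .leaf (nat_lit 11453888267816319) (.br (nat_lit 0) (.cons (.br (nat_lit 2) (.cons (.rel (nat_lit 71573505)) .nil)) .nil)) .leaf)) (nat_lit 11453888267915525) (.br (nat_lit 1) (.cons (.br (nat_lit 3) (.cons (.rel (nat_lit 570953796)) .nil)) .nil)) (.node (.node .leaf (nat_lit 11453888267915551) (.br (nat_lit 2) (.cons (.br (nat_lit 3) (.cons (.rel (nat_lit 335552520)) .nil)) .nil)) .leaf) (nat_lit 11453888269606240) (.br (nat_lit 0) (.cons (.br (nat_lit 2) (.cons (.rel (nat_lit 72876048)) .nil)) .nil)) (.node .leaf (nat_lit 11453891325462833) (.br (nat_lit 2) (.cons (.br (nat_lit 3) (.cons (.rel (nat_lit 335548674)) (.cons (.rel (nat_lit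 671092740)) .nil))) .nil)) .leaf))) (nat_lit 11453891325463935) (.br (nat_lit 0) (.cons (.br (nat_lit 2) (.cons (.rel (nat_lit 142606656)) .nil)) .nil)) (.node (.node (.node .leaf (nat_lit 11453891325463963) (.br (nat_lit 0) (.cons (.br (nat_lit 2) (.cons (.rel (nat_lit 71647248)) .nil)) .nil)) .leaf) (nat_lit 11453891325481265) (.br (nat_lit 3) (.cons (.br (nat_lit 1) (.cons (.rel (nat_lit 285344832)) (.cons (.rel (nat_lit 285737472)) .nil))) .nil)) (.node .leaf (nat_lit 11453891325483313) (.br (nat_lit 1) (.cons (.br (nat_lit 3) (.cons (.rel (nat_lit 570425733)) .nil)) .nil)) .leaf)) (nat_lit 11453891327070513) (.br (nat_lit 5) (.cons (.br (nat_lit 6) (.cons (.rel (nat_lit 21474837777)) .nil)) .nil)) (.node (.node .leaf (nat_lit 11453891327073663) (.br (nat_lit 1) (.cons (.br (nat_lit 2) (.cons (.rel (nat_lit 83888385)) .nil)) .nil)) .leaf) (nat_lit 11453891327252785) (.br (nat_lit 0) (.cons (.br (nat_lit 1) (.cons (.rel (nat_lit 41947140)) (.cons (.rel (nat_lit 20975874)) (.cons (.rel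 (nat_lit 23658513)) .nil)))) .nil)) .leaf))) (nat_lit 11453891327253242) (.br (nat_lit 1) (.cons (.br (nat_lit 2) (.cons (.rel (nat_lit 83890209)) .nil)) .nil)) (.node (.node (.node (.node .leaf (nat_lit 11453891327253887) (.br (nat_lit 0) (.cons (.br (nat_lit 1) (.cons (.rel (nat_lit 21102612)) .nil)) .nil)) .leaf) (nat_lit 11453891328659761) (.br (nat_lit 1) (.cons (.br (nat_lit 2) (.cons (.rel (nat_lit 83890209)) (.cons (.rel (nat_lit 83888385)) .nil))) .nil)) (.node .leaf (nat_lit 11453891328660863) (.br (nat_lit 0) (.cons (.br (nat_lit 6) (.cons (.rel (nat_lit 17185112148)) (.cons (.rel (nat_lit 17184326148)) .nil))) .nil)) .leaf)) (nat_lit 11453892747332259) (.br (nat_lit 0) (.cons (.br (nat_lit 3) (.cons (.rel (nat_lit 272631840)) .nil)) .nil)) (.node (.node .leaf (nat_lit 11453892747350647) (.br (nat_lit 0) (.cons (.br (nat_lit 1) (.cons (.rel (nat_lit 41947140)) .nil)) .nil)) .leaf) (nat_lit 11453892748931377) (.br (nat_lit 3) (.cons (.br (nat_lit 1) (.cons (.rel (nat_lit 286261269))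 (.cons (.rel (nat_lit 286331136)) (.cons (.rel (nat_lit 553713936)) .nil)))) .nil)) (.node .leaf (nat_lit 11453892748939569) (.br (nat_lit 3) (.cons (.br (nat_lit 4) (.cons (.rel (nat_lit 1342177545)) .nil)) .nil)) .leaf))) (nat_lit 11453892878893718) (.br (nat_lit 0) (.cons (.br (nat_lit 1) (.cons (.rel (nat_lit 22020240)) .nil)) .nil)) (.node (.node (.node .leaf (nat_lit 11458097096700204) (.br (nat_lit 0) (.cons (.br (nat_lit 3) (.cons (.rel (nat_lit 545260560)) .nil)) .nil)) .leaf) (nat_lit 11458101945324922) (.br (nat_lit 0) (.cons (.br (nat_lit 6) (.cons (.rel (nat_lit 34368131136)) .nil)) .nil)) (.node .leaf (nat_lit 11459443134023037) (.br (nat_lit 0) (.cons (.br (nat_lit 5) (.cons (.rel (nat_lit 4299293700)) (.cons (.rel (nat_lit 4299232272)) .nil))) (.cons (.br (nat_lit 1) (.cons (.rel (nat_lit 38076420)) (.cons (.rel (nat_lit 20994048)) .nil))) .nil))) .leaf)) (nat_lit 11459443134520833) (.br (nat_lit 4) (.cons (.br (nat_lit 0) (.cons (.rel (nat_lit 2151679488)) (.cons (.rel (nat_lit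 2151686160)) .nil))) .nil)) (.node (.node .leaf (nat_lit 11460090003458679) (.br (nat_lit 0) (.cons (.br (nat_lit 1) (.cons (.rel (nat_lit 20979720)) .nil)) .nil)) .leaf) (nat_lit 11460090003468914) (.br (nat_lit 0) (.cons (.br (nat_lit 1) (.cons (.rel (nat_lit 20979720)) .nil)) .nil)) .leaf))))

/-- refutations 42 -/
def e42 : EX := (.node (.node (.node (.node (.node .leaf (nat_lit 11460290826735003) (.br (nat_lit 0) (.cons (.br (nat_lit 1) (.cons (.rel (nat_lit 20972037)) .nil)) .nil)) .leaf) (nat_lit 11460290826999195) (.br (nat_lit 0) (.cons (.br (nat_lit 1) (.cons (.rel (nat_lit 20979720)) .nil)) .nil)) (.node .leaf (nat_lit 11460290828523825) (.br (nat_lit 0) (.cons (.br (nat_lit 1) (.cons (.rel (nat_lit 20975874)) .nil)) .nil)) .leaf)) (nat_lit 11460290828524927) (.br (nat_lit 0) (.cons (.br (nat_lit 1) (.cons (.rel (nat_lit 20975874)) .nil)) .nil)) (.node (.node .leaf (nat_lit 11460292378626723) (.br (nat_lit 1) (.cons (.br (nat_lit 3) (.cons (.rel (nat_lit 553652520)) .nil)) .nil))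 .leaf) (nat_lit 11460292378891675) (.br (nat_lit 0) (.cons (.br (nat_lit 1) (.cons (.rel (nat_lit 41947140)) (.cons (.rel (nat_lit 20989200)) .nil))) .nil)) .leaf)) (nat_lit 11460292378891777) (.br (nat_lit 0) (.cons (.br (nat_lit 3) (.cons (.rel (nat_lit 272630793)) .nil)) .nil)) (.node (.node (.node .leaf (nat_lit 11460293448439195) (.br (nat_lit 0) (.cons (.br (nat_lit 3) (.cons (.rel (nat_lit 272892996)) .nil)) .nil)) .leaf) (nat_lit 11460293448439297) (.br (nat_lit 0) (.cons (.br (nat_lit 3) (.cons (.rel (nat_lit 272630793)) .nil)) .nil)) (.node .leaf (nat_lit 11460293450020353) (.br (nat_lit 1) (.cons (.br (nat_lit 2) (.cons (.rel (nat_lit 83886372)) .nil)) .nil)) .leaf)) (nat_lit 11463469102534043) (.br (nat_lit 0) (.cons (.br (nat_lit 2) (.cons (.rel (nat_lit 71697408)) .nil)) .nil)) (.node (.node .leaf (nat_lit 11463469103097888) (.br (nat_lit 1) (.cons (.br (nat_lit 2) (.cons (.rel (nat_lit 83890209)) .nil)) .nil)) .leaf) (nat_lit 11463469104143743) (.br (nat_lit 2) (.cons (.br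 (nat_lit 3) (.cons (.rel (nat_lit 335807040)) .nil)) .nil)) .leaf))) (nat_lit 11463470654425763) (.br (nat_lit 1) (.cons (.br (nat_lit 2) (.cons (.br (nat_lit 0) (.cons (.rel (nat_lit 71569668)) (.cons (.rel (nat_lit 71569668)) .nil))) (.cons (.rel (nat_lit 83886372)) .nil))) .nil)) (.node (.node (.node (.node .leaf (nat_lit 11463470654689942) (.br (nat_lit 0) (.cons (.br (nat_lit 4) (.cons (.rel (nat_lit 1082147841)) .nil)) .nil)) .leaf) (nat_lit 11463732332858751) (.br (nat_lit 1) (.cons (.br (nat_lit 2) (.cons (.rel (nat_lit 83919360)) .nil)) .nil)) (.node .leaf (nat_lit 11463732333185655) (.br (nat_lit 0) (.cons (.br (nat_lit 1) (.cons (.rel (nat_lit 20972037)) .nil)) .nil)) .leaf)) (nat_lit 11463736812374691) (.br (nat_lit 1) (.cons (.br (nat_lit 2) (.cons (.rel (nat_lit 83890209)) .nil)) .nil)) (.node (.node .leaf (nat_lit 11463736812475030) (.br (nat_lit 6) (.cons (.br (nat_lit 0) (.cons (.rel (nat_lit 17184408576)) (.cons (.rel (nat_lit 17188290564)) (.cons (.rel (nat_lit 17188324608))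 (.cons (.rel (nat_lit 34363949064)) .nil))))) .nil)) .leaf) (nat_lit 11463736812898979) (.br (nat_lit 0) (.cons (.br (nat_lit 3) (.cons (.rel (nat_lit 272629782)) .nil)) .nil)) .leaf)) (nat_lit 11464561446196126) (.br (nat_lit 0) (.cons (.br (nat_lit 6) (.cons (.rel (nat_lit 17186226192)) (.cons (.rel (nat_lit 17188324608)) .nil))) .nil)) (.node (.node (.node .leaf (nat_lit 11464561447680926) (.br (nat_lit 1) (.cons (.br (nat_lit 3) (.cons (.rel (nat_lit 302268480)) .nil)) .nil)) .leaf) (nat_lit 11464599918104837) (.br (nat_lit 1) (.cons (.br (nat_lit 2) (.cons (.rel (nat_lit 84021504)) .nil)) .nil)) (.node .leaf (nat_lit 11464602937443240) (.br (nat_lit 0) (.cons (.br (nat_lit 2) (.cons (.rel (nat_lit 71385237)) .nil)) .nil)) .leaf)) (nat_lit 11464605491106599) (.br (nat_lit 0) (.cons (.br (nat_lit 2) (.cons (.rel (nat_lit 142606656)) .nil)) .nil)) (.node (.node .leaf (nat_lit 11464605492271911) (.br (nat_lit 3) (.cons (.br (nat_lit 5) (.cons (.rel (nat_lit 4831846434)) .nil)) .nil)) .leaf)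 (nat_lit 11465712497956078) (.br (nat_lit 0) (.cons (.br (nat_lit 2) (.cons (.rel (nat_lit 71647248)) .nil)) .nil)) .leaf))))

/-- refutations 44 -/
def e44 : EX := (.node (.node (.node (.node (.node .leaf (nat_lit 11125191505937011) (.br (nat_lit 0) (.cons (.br (nat_lit 1) (.cons (.rel (nat_lit 20975874)) .nil)) .nil)) .leaf) (nat_lit 11125191505937164) (.br (nat_lit 2) (.cons (.br (nat_lit 0) (.cons (.rel (nat_lit 138428421)) (.cons (.rel (nat_lit 76808196)) .nil))) .nil)) .leaf) (nat_lit 11125191507012364) (.br (nat_lit 0) (.cons (.br (nat_lit 1) (.cons (.rel (nat_lit 21004305)) .nil)) .nil)) (.node .leaf (nat_lit 11125191508796172) (.br (nat_lit 5) (.cons (.br (nat_lit 1) (.cons (.rel (nat_lit 4311746880)) (.cons (.rel (nat_lit 4311810132)) .nil))) .nil)) .leaf)) (nat_lit 11129051115164950) (.br (nat_lit 1) (.cons (.br (nat_lit 4) (.cons (.rel (nat_lit 1090654212)) .nil)) .nil)) (.node (.node .leaf (nat_lit 11129056854868780) (.br (nat_lit 0) (.cons (.br (nat_lit 2) (.cons (.rel (nat_lit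 71573505)) .nil)) .nil)) .leaf) (nat_lit 11129056854903421) (.br (nat_lit 0) (.cons (.br (nat_lit 1) (.cons (.rel (nat_lit 21039360)) .nil)) .nil)) (.node .leaf (nat_lit 11129056857633405) (.br (nat_lit 1) (.cons (.br (nat_lit 2) (.cons (.rel (nat_lit 167788800)) .nil)) .nil)) .leaf))) (nat_lit 11129056977578239) (.br (nat_lit 2) (.cons (.br (nat_lit 5) (.cons (.rel (nat_lit 4362080298)) .nil)) .nil)) (.node (.node (.node (.node .leaf (nat_lit 11129056977579289) (.br (nat_lit 0) (.cons (.br (nat_lit 5) (.cons (.rel (nat_lit 4299169797)) .nil)) .nil)) .leaf) (nat_lit 11129057047841519) (.br (nat_lit 2) (.cons (.br (nat_lit 6) (.cons (.rel (nat_lit 34426849296)) (.cons (.rel (nat_lit 17249076228)) .nil))) .nil)) .leaf) (nat_lit 11129057047842030) (.br (nat_lit 0) (.cons (.br (nat_lit 1) (.cons (.rel (nat_lit 20972037)) .nil)) .nil)) (.node .leaf (nat_lit 11129057050666222) (.br (nat_lit 1) (.cons (.br (nat_lit 2) (.cons (.rel (nat_lit 152048640)) .nil)) .nil)) .leaf)) (nat_lit 11129480706066712)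 (.br (nat_lit 0) (.cons (.br (nat_lit 1) (.cons (.rel (nat_lit 21005316)) .nil)) .nil)) (.node (.node .leaf (nat_lit 11129483819498873) (.br (nat_lit 1) (.cons (.br (nat_lit 2) (.cons (.rel (nat_lit 83952648)) .nil)) .nil)) .leaf) (nat_lit 11130163924872048) (.br (nat_lit 0) (.cons (.br (nat_lit 1) (.cons (.rel (nat_lit 21005316)) .nil)) .nil)) (.node .leaf (nat_lit 11130163924931440) (.br (nat_lit 0) (.cons (.br (nat_lit 2) (.cons (.rel (nat_lit 71303808)) .nil)) .nil)) .leaf))))

/-- refutations 45 -/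
def e45 : EX := (.node (.node (.node (.node .leaf (nat_lit 11558593572741927) (.br (nat_lit 2) (.cons (.br (nat_lit 3) (.cons (.rel (nat_lit 335675412)) .nil)) .nil)) .leaf) (nat_lit 11559444405874041) (.br (nat_lit 0) (.cons (.br (nat_lit 2) (.cons (.rel (nat_lit 138417153)) .nil)) .nil)) .leaf) (nat_lit 11559444407168377) (.br (nat_lit 1) (.cons (.br (nat_lit 3) (.cons (.rel (nat_lit 285344832)) .nil)) .nil)) (.node .leaf (nat_lit 11563649795132028) (.br (nat_lit 0) (.cons (.br (nat_lit 3) (.cons (.rel (nat_lit 272631840)) .nil)) .nil)) .leaf)) (nat_lit 11563650212958844) (.br (nat_lit 0) (.cons (.br (nat_lit 1) (.cons (.rel (nat_lit 20975874)) .nil)) .nil)) (.node (.node (.node .leaf (nat_lit 11563650212975224) (.br (nat_lit 1) (.cons (.br (nat_lit 2) (.cons (.rel (nat_lit 83890209)) .nil)) .nil)) .leaf) (nat_lit 11563650259113236) (.br (nat_lit 0) (.cons (.br (nat_lit 1) (.cons (.rel (nat_lit 22283265)) .nil)) .nil)) .leaf) (nat_lit 11563650259113347) (.br (nat_lit 0) (.cons (.br (nat_lit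 3) (.cons (.rel (nat_lit 545260560)) .nil)) .nil)) (.node .leaf (nat_lit 11563653044481300) (.br (nat_lit 1) (.cons (.br (nat_lit 2) (.cons (.rel (nat_lit 83903490)) .nil)) .nil)) .leaf)))

/-- refutations 46 -/
def e46 : EX := (.node (.node (.node (.node (.node .leaf (nat_lit 11563749966099367) (.br (nat_lit 2) (.cons (.br (nat_lit 4) (.cons (.rel (nat_lit 1207992336)) .nil)) .nil)) .leaf) (nat_lit 11564737288492560) (.br (nat_lit 0) (.cons (.br (nat_lit 2) (.cons (.rel (nat_lit 75563280)) .nil)) .nil)) .leaf) (nat_lit 11568864349391155) (.br (nat_lit 1) (.cons (.br (nat_lit 2) (.cons (.rel (nat_lit 167788800)) .nil)) .nil)) (.node .leaf (nat_lit 11568864349409916) (.br (nat_lit 1) (.cons (.br (nat_lit 3) (.cons (.rel (nat_lit 285220929)) .nil)) .nil)) .leaf)) (nat_lit 11568864349717780) (.br (nat_lit 2) (.cons (.br (nat_lit 5) (.cons (.rel (nat_lit 4362077460)) .nil)) .nil)) (.node (.node (.node .leaf (nat_lit 11568864349719164) (.br (nat_lit 0) (.cons (.br (nat_lit 2) (.cons (.rel (nat_lit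 71303808)) .nil)) .nil)) .leaf) (nat_lit 11568864350683443) (.br (nat_lit 1) (.cons (.br (nat_lit 3) (.cons (.rel (nat_lit 285220929)) .nil)) .nil)) .leaf) (nat_lit 11568864350775932) (.br (nat_lit 1) (.cons (.br (nat_lit 0) (.cons (.rel (nat_lit 41947140)) (.cons (.rel (nat_lit 22283265)) .nil))) .nil)) (.node .leaf (nat_lit 11568864350997116) (.br (nat_lit 1) (.cons (.br (nat_lit 4) (.cons (.rel (nat_lit 1090521093)) .nil)) .nil)) .leaf))) (nat_lit 11568867134427447) (.br (nat_lit 0) (.cons (.br (nat_lit 1) (.cons (.rel (nat_lit 20979720)) .nil)) .nil)) (.node (.node (.node (.node .leaf (nat_lit 11568867603151484) (.br (nat_lit 0) (.cons (.br (nat_lit 1) (.cons (.rel (nat_lit 20972037)) .nil)) .nil)) .leaf) (nat_lit 11568867603152255) (.br (nat_lit 1) (.cons (.br (nat_lit 2) (.cons (.rel (nat_lit 83903490)) .nil)) .nil)) .leaf) (nat_lit 11568870070790944) (.br (nat_lit 0) (.cons (.br (nat_lit 1) (.cons (.rel (nat_lit 21005316)) .nil)) .nil)) (.node .leaf (nat_lit 11568870070988259) (.br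 (nat_lit 2) (.cons (.br (nat_lit 3) (.cons (.rel (nat_lit 671092740)) .nil)) .nil)) .leaf)) (nat_lit 11568870070995744) (.br (nat_lit 0) (.cons (.br (nat_lit 1) (.cons (.rel (nat_lit 41947140)) .nil)) .nil)) (.node (.node (.node .leaf (nat_lit 11570140360416759) (.br (nat_lit 0) (.cons (.br (nat_lit 1) (.cons (.rel (nat_lit 20979720)) .nil)) .nil)) .leaf) (nat_lit 11571263122752295) (.br (nat_lit 0) (.cons (.br (nat_lit 3) (.cons (.rel (nat_lit 272631840)) .nil)) .nil)) .leaf) (nat_lit 11571432421395219) (.br (nat_lit 1) (.cons (.br (nat_lit 4) (.cons (.rel (nat_lit 1090521093)) .nil)) .nil)) (.node .leaf (nat_lit 11571437437780755) (.br (nat_lit 1) (.cons (.br (nat_lit 3) (.cons (.rel (nat_lit 301995009)) .nil)) .nil)) .leaf))))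

/-- refutations 47 -/
def e47 : EX := (.node (.node (.node (.node (.node (.node .leaf (nat_lit 11628693848164512) (.br (nat_lit 2) (.cons (.br (nat_lit 6) (.cons (.rel (nat_lit 17247044736)) .nil)) .nil)) .leaf) (nat_lit 11628693849204896) (.br (nat_lit 2) (.cons (.br (nat_lit 3) (.cons (.rel (nat_lit 335578116)) .nil)) .nil)) .leaf) (nat_lit 11628693849205392) (.br (nat_lit 2) (.cons (.br (nat_lit 3) (.cons (.rel (nat_lit 335578116)) .nil)) .nil)) (.node .leaf (nat_lit 11628693849206263) (.br (nat_lit 2) (.cons (.br (nat_lit 3) (.cons (.rel (nat_lit 335578116)) .nil)) .nil)) .leaf)) (nat_lit 11628693850988704) (.br (nat_lit 2) (.cons (.br (nat_lit 5) (.cons (.rel (nat_lit 4362142725)) .nil)) .nil)) (.node (.node (.node .leaf (nat_lit 11628696496020863) (.br (nat_lit 4) (.cons (.br (nat_lit 6) (.cons (.rel (nat_lit 18253910016)) (.cons (.rel (nat_lit 18253874193)) .nil))) .nil)) .leaf) (nat_lit 11628736277712255) (.br (nat_lit 0) (.cons (.br (nat_lit 3) (.cons (.rel (nat_lit 277086336))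 .nil)) .nil)) .leaf) (nat_lit 11628736892938876) (.br (nat_lit 0) (.cons (.br (nat_lit 2) (.cons (.rel (nat_lit 71647248)) .nil)) .nil)) (.node .leaf (nat_lit 11629556951682411) (.br (nat_lit 0) (.cons (.br (nat_lit 2) (.cons (.rel (nat_lit 71573505)) .nil)) .nil)) .leaf))) (nat_lit 11629556951700243) (.br (nat_lit 0) (.cons (.br (nat_lit 2) (.cons (.br (nat_lit 3) (.cons (.rel (nat_lit 335548674)) (.cons (.rel (nat_lit 272631840)) .nil))) .nil)) .nil)) (.node (.node (.node (.node .leaf (nat_lit 11629556952247028) (.br (nat_lit 0) (.cons (.br (nat_lit 2) (.cons (.rel (nat_lit 138417153)) .nil)) .nil)) .leaf) (nat_lit 11629556953237540) (.br (nat_lit 0) (.cons (.br (nat_lit 2) (.cons (.rel (nat_lit 71303808)) (.cons (.rel (nat_lit 75563280)) .nil))) .nil)) .leaf) (nat_lit 11629612323760764) (.br (nat_lit 1) (.cons (.br (nat_lit 2) (.cons (.rel (nat_lit 83888385)) .nil)) .nil)) (.node .leaf (nat_lit 11629612450711839) (.br (nat_lit 4) (.cons (.br (nat_lit 1) (.cons (.rel (nat_lit 1090540800))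 (.cons (.br (nat_lit 2) (.cons (.rel (nat_lit 1207992336)) (.cons (.rel (nat_lit 83890209)) .nil))) .nil))) .nil)) .leaf)) (nat_lit 11629612450722048) (.br (nat_lit 0) (.cons (.br (nat_lit 2) (.cons (.rel (nat_lit 138417153)) .nil)) .nil)) (.node (.node (.node .leaf (nat_lit 11629612450812191) (.br (nat_lit 1) (.cons (.br (nat_lit 4) (.cons (.rel (nat_lit 1090586112)) .nil)) .nil)) .leaf) (nat_lit 11629612451072287) (.br (nat_lit 3) (.cons (.br (nat_lit 4) (.cons (.rel (nat_lit 1342181382)) .nil)) .nil)) .leaf) (nat_lit 11629612453784188) (.br (nat_lit 0) (.cons (.br (nat_lit 1) (.cons (.rel (nat_lit 21041184)) .nil)) .nil)) (.node .leaf (nat_lit 11629612551385344) (.br (nat_lit 0) (.cons (.br (nat_lit 2) (.cons (.rel (nat_lit 138412305)) .nil)) .nil)) .leaf)))) (nat_lit 11629615617977727) (.br (nat_lit 0) (.cons (.br (nat_lit 1) (.cons (.rel (nat_lit 21039360)) .nil)) .nil)) (.node (.node (.node (.node (.node .leaf (nat_lit 11629617081233664) (.br (nat_lit 0) (.cons (.br (nat_lit 2) (.cons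 (.rel (nat_lit 75563280)) .nil)) .nil)) .leaf) (nat_lit 11629617081244279) (.br (nat_lit 0) (.cons (.br (nat_lit 2) (.cons (.rel (nat_lit 71573505)) .nil)) .nil)) .leaf) (nat_lit 11629617081551779) (.br (nat_lit 0) (.cons (.br (nat_lit 5) (.cons (.rel (nat_lit 4304404488)) .nil)) .nil)) (.node .leaf (nat_lit 11629617084315035) (.br (nat_lit 1) (.cons (.br (nat_lit 2) (.cons (.rel (nat_lit 83952648)) .nil)) .nil)) .leaf)) (nat_lit 11629724035985708) (.br (nat_lit 0) (.cons (.br (nat_lit 1) (.cons (.rel (nat_lit 20979720)) .nil)) .nil)) (.node (.node (.node .leaf (nat_lit 11629724119871788) (.br (nat_lit 0) (.cons (.br (nat_lit 2) (.cons (.rel (nat_lit 71319972)) .nil)) .nil)) .leaf) (nat_lit 11629724120189228) (.br (nat_lit 0) (.cons (.br (nat_lit 1) (.cons (.rel (nat_lit 21004305)) .nil)) .nil)) .leaf) (nat_lit 11629728947524209) (.br (nat_lit 0) (.cons (.br (nat_lit 3) (.cons (.rel (nat_lit 272654337)) .nil)) .nil)) (.node .leaf (nat_lit 11629784252589432) (.br (nat_lit 0) (.cons (.br (nat_lit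 2) (.cons (.rel (nat_lit 138412305)) .nil)) .nil)) .leaf))) (nat_lit 11629784374223504) (.br (nat_lit 0) (.cons (.br (nat_lit 1) (.cons (.rel (nat_lit 21039360)) .nil)) .nil)) (.node (.node (.node (.node .leaf (nat_lit 11630039021607724) (.br (nat_lit 0) (.cons (.br (nat_lit 2) (.cons (.rel (nat_lit 71303808)) .nil)) .nil)) .leaf) (nat_lit 11630849317406756) (.br (nat_lit 0) (.cons (.br (nat_lit 5) (.cons (.rel (nat_lit 4299162114)) .nil)) .nil)) .leaf) (nat_lit 11630849401312019) (.br (nat_lit 0) (.cons (.br (nat_lit 2) (.cons (.rel (nat_lit 72876048)) .nil)) .nil)) (.node .leaf (nat_lit 11630849401653535) (.br (nat_lit 0) (.cons (.br (nat_lit 2) (.cons (.rel (nat_lit 71573505)) (.cons (.rel (nat_lit 138412305)) .nil))) (.cons (.br (nat_lit 2) (.cons (.rel (nat_lit 138417153)) (.cons (.rel (nat_lit 138412305)) .nil))) .nil))) .leaf)) (nat_lit 11630849401858235) (.br (nat_lit 0) (.cons (.br (nat_lit 3) (.cons (.rel (nat_lit 272728080)) (.cons (.rel (nat_lit 272631840)) .nil))) .nil)) (.node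 (.node (.node .leaf (nat_lit 11630849404478220) (.br (nat_lit 0) (.cons (.br (nat_lit 3) (.cons (.rel (nat_lit 272891985)) (.cons (.rel (nat_lit 541327365)) .nil))) .nil)) .leaf) (nat_lit 11630849404478840) (.br (nat_lit 0) (.cons (.br (nat_lit 2) (.cons (.br (nat_lit 3) (.cons (.rel (nat_lit 335562000)) .nil)) .nil)) .nil)) .leaf) (nat_lit 11630849523247359) (.br (nat_lit 0) (.cons (.br (nat_lit 1) (.cons (.rel (nat_lit 38014992)) .nil)) .nil)) (.node .leaf (nat_lit 11631021200004328) (.br (nat_lit 3) (.cons (.br (nat_lit 0) (.cons (.rel (nat_lit 272630793)) (.cons (.rel (nat_lit 272728080)) .nil))) .nil)) .leaf)))))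

/-- refutations 48 -/
def e48 : EX := (.node (.node (.node (.node (.node (.node .leaf (nat_lit 11631098509756703) (.br (nat_lit 1) (.cons (.br (nat_lit 2) (.cons (.rel (nat_lit 83886372)) .nil)) .nil)) .leaf) (nat_lit 11631098510797087) (.br (nat_lit 0) (.cons (.br (nat_lit 1) (.cons (.rel (nat_lit 37765248)) .nil)) .nil)) (.node .leaf (nat_lit 11631098510798076) (.br (nat_lit 0) (.cons (.br (nat_lit 2) (.cons (.rel (nat_lit 142606656)) .nil)) .nil)) .leaf)) (nat_lit 11631103140233896) (.br (nat_lit 0) (.cons (.br (nat_lit 2) (.cons (.rel (nat_lit 71569668)) .nil)) .nil)) (.node (.node .leaf (nat_lit 11631103142979894) (.br (nat_lit 0) (.cons (.br (nat_lit 1) (.cons (.rel (nat_lit 37765248)) .nil)) .nil)) .leaf) (nat_lit 11634018684832679) (.br (nat_lit 0) (.cons (.br (nat_lit 2) (.cons (.br (nat_lit 3) (.cons (.rel (nat_lit 335577105)) .nil)) .nil)) .nil)) .leaf)) (nat_lit 11634018957152257) (.br (nat_lit 3) (.cons (.br (nat_lit 0) (.cons (.rel (nat_lit 272654337)) (.cons (.rel (nat_lit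 272654337)) .nil))) .nil)) (.node (.node (.node .leaf (nat_lit 11634018958723708) (.br (nat_lit 1) (.cons (.br (nat_lit 0) (.cons (.rel (nat_lit 41947140)) (.cons (.rel (nat_lit 21004305)) .nil))) .nil)) .leaf) (nat_lit 11634018958733622) (.br (nat_lit 0) (.cons (.br (nat_lit 6) (.cons (.rel (nat_lit 17188324608)) .nil)) .nil)) .leaf) (nat_lit 11634018960308860) (.br (nat_lit 3) (.cons (.br (nat_lit 4) (.cons (.rel (nat_lit 1342181382)) .nil)) .nil)) (.node (.node .leaf (nat_lit 11634019189377284) (.br (nat_lit 2) (.cons (.br (nat_lit 3) (.cons (.rel (nat_lit 335577105)) (.cons (.rel (nat_lit 335577105)) (.cons (.rel (nat_lit 335577105)) (.cons (.rel (nat_lit 671092740)) .nil))))) (.cons (.br (nat_lit 4) (.cons (.rel (nat_lit 1141244160)) (.cons (.rel (nat_lit 2281702464)) (.cons (.rel (nat_lit 1207992336)) .nil)))) .nil))) .leaf) (nat_lit 11634019607611552) (.br (nat_lit 1) (.cons (.br (nat_lit 2) (.cons (.rel (nat_lit 150995013)) .nil)) .nil)) .leaf))) (nat_lit 11634019607612048) (.br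 (nat_lit 2) (.cons (.br (nat_lit 4) (.cons (.rel (nat_lit 1207992336)) .nil)) .nil)) (.node (.node (.node (.node .leaf (nat_lit 11634019607612143) (.br (nat_lit 3) (.cons (.br (nat_lit 1) (.cons (.rel (nat_lit 285247584)) (.cons (.rel (nat_lit 285217092)) .nil))) .nil)) .leaf) (nat_lit 11634019609873315) (.br (nat_lit 0) (.cons (.br (nat_lit 3) (.cons (.rel (nat_lit 272629782)) .nil)) .nil)) (.node .leaf (nat_lit 11634019610342283) (.br (nat_lit 0) (.cons (.br (nat_lit 1) (.cons (.rel (nat_lit 20989200)) .nil)) .nil)) .leaf)) (nat_lit 11634019610435744) (.br (nat_lit 2) (.cons (.br (nat_lit 3) (.cons (.rel (nat_lit 335544837)) (.cons (.rel (nat_lit 335562000)) .nil))) (.cons (.br (nat_lit 3) (.cons (.rel (nat_lit 336593040)) (.cons (.rel (nat_lit 335566848)) .nil))) .nil))) (.node (.node .leaf (nat_lit 11634021062693500) (.br (nat_lit 2) (.cons (.br (nat_lit 4) (.cons (.rel (nat_lit 1141940304)) .nil)) .nil)) .leaf) (nat_lit 11634021062694166) (.br (nat_lit 0) (.cons (.br (nat_lit 1) (.cons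 (.rel (nat_lit 20994048)) .nil)) .nil)) .leaf)) (nat_lit 11634022254218743) (.br (nat_lit 1) (.cons (.br (nat_lit 3) (.cons (.rel (nat_lit 285220929)) .nil)) .nil)) (.node (.node (.node .leaf (nat_lit 11634024220996519) (.br (nat_lit 0) (.cons (.br (nat_lit 2) (.cons (.rel (nat_lit 142606656)) .nil)) .nil)) .leaf) (nat_lit 11634024221004412) (.br (nat_lit 0) (.cons (.br (nat_lit 5) (.cons (.br (nat_lit 2) (.cons (.rel (nat_lit 8724218112)) (.cons (.rel (nat_lit 4363391232)) .nil))) (.cons (.rel (nat_lit 8598323457)) .nil))) (.cons (.br (nat_lit 2) (.cons (.rel (nat_lit 72352833)) (.cons (.rel (nat_lit 71567892)) .nil))) .nil))) .leaf) (nat_lit 11634024221313959) (.br (nat_lit 0) (.cons (.br (nat_lit 2) (.cons (.br (nat_lit 4) (.cons (.rel (nat_lit 2281702464)) (.cons (.rel (nat_lit 2151686160)) .nil))) (.cons (.rel (nat_lit 142606656)) .nil))) .nil)) (.node (.node .leaf (nat_lit 11634024770439204) (.br (nat_lit 1) (.cons (.br (nat_lit 2) (.cons (.rel (nat_lit 83951637)) .nil)) .nil)) .leaf)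 (nat_lit 11634024770442123) (.br (nat_lit 0) (.cons (.br (nat_lit 3) (.cons (.rel (nat_lit 272631840)) .nil)) .nil)) .leaf)))) (nat_lit 11634024770458236) (.br (nat_lit 3) (.cons (.br (nat_lit 4) (.cons (.rel (nat_lit 1342181382)) .nil)) .nil)) (.node (.node (.node (.node (.node .leaf (nat_lit 11634024770540176) (.br (nat_lit 0) (.cons (.br (nat_lit 4) (.cons (.rel (nat_lit 1077940353)) .nil)) .nil)) .leaf) (nat_lit 11634024770800423) (.br (nat_lit 2) (.cons (.br (nat_lit 6) (.cons (.rel (nat_lit 17246994576)) .nil)) .nil)) (.node .leaf (nat_lit 11634024770800523) (.br (nat_lit 2) (.cons (.br (nat_lit 3) (.cons (.rel (nat_lit 335577105)) .nil)) .nil)) .leaf)) (nat_lit 11634024771005323) (.br (nat_lit 0) (.cons (.br (nat_lit 3) (.cons (.rel (nat_lit 272631840)) .nil)) .nil)) (.node (.node .leaf (nat_lit 11634024771840036) (.br (nat_lit 0) (.cons (.br (nat_lit 2) (.cons (.rel (nat_lit 71303808)) (.cons (.rel (nat_lit 138412305)) .nil))) (.cons (.br (nat_lit 3) (.cons (.br (nat_lit 2) (.cons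 (.rel (nat_lit 335612160)) (.cons (.rel (nat_lit 671092740)) .nil))) (.cons (.rel (nat_lit 272631840)) .nil))) .nil))) .leaf) (nat_lit 11634024771840656) (.br (nat_lit 0) (.cons (.br (nat_lit 2) (.cons (.rel (nat_lit 72876048)) .nil)) .nil)) .leaf)) (nat_lit 11634024773265444) (.br (nat_lit 1) (.cons (.br (nat_lit 4) (.cons (.rel (nat_lit 1090654212)) .nil)) .nil)) (.node (.node (.node .leaf (nat_lit 11634024773360423) (.br (nat_lit 2) (.cons (.br (nat_lit 6) (.cons (.rel (nat_lit 34427109441)) .nil)) .nil)) .leaf) (nat_lit 11634024773509776) (.br (nat_lit 0) (.cons (.br (nat_lit 2) (.cons (.rel (nat_lit 71697408)) .nil)) .nil)) .leaf) (nat_lit 11634024854344316) (.br (nat_lit 3) (.cons (.br (nat_lit 4) (.cons (.rel (nat_lit 1342178592)) .nil)) .nil)) (.node (.node .leaf (nat_lit 11634024854653863) (.br (nat_lit 4) (.cons (.br (nat_lit 3) (.cons (.rel (nat_lit 1342193697)) (.cons (.rel (nat_lit 1342177545)) .nil))) .nil)) .leaf) (nat_lit 11634024854686603) (.br (nat_lit 1) (.cons (.br (nat_lit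 2) (.cons (.rel (nat_lit 83951637)) (.cons (.rel (nat_lit 83919360)) (.cons (.rel (nat_lit 150995013)) .nil)))) .nil)) .leaf))) (nat_lit 11634024855869691) (.br (nat_lit 3) (.cons (.br (nat_lit 4) (.cons (.rel (nat_lit 1342178592)) .nil)) .nil)) (.node (.node (.node (.node .leaf (nat_lit 11634024857204768) (.br (nat_lit 0) (.cons (.br (nat_lit 2) (.cons (.rel (nat_lit 138412305)) .nil)) .nil)) .leaf) (nat_lit 11634024857205523) (.br (nat_lit 2) (.cons (.br (nat_lit 1) (.cons (.rel (nat_lit 83919360)) (.cons (.rel (nat_lit 83890209)) .nil))) .nil)) (.node .leaf (nat_lit 11634024857511288) (.br (nat_lit 0) (.cons (.br (nat_lit 1) (.cons (.rel (nat_lit 25559169)) .nil)) .nil)) .leaf)) (nat_lit 11634024857511415) (.br (nat_lit 0) (.cons (.br (nat_lit 3) (.cons (.rel (nat_lit 272629782)) .nil)) .nil)) (.node (.node .leaf (nat_lit 11635115865500399) (.br (nat_lit 2) (.cons (.br (nat_lit 5) (.cons (.rel (nat_lit 4362076449)) .nil)) .nil)) .leaf) (nat_lit 11635115867189999) (.br (nat_lit 2) (.cons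 (.br (nat_lit 1) (.cons (.rel (nat_lit 83888385)) (.cons (.rel (nat_lit 83902488)) (.cons (.rel (nat_lit 100925445)) .nil)))) .nil)) .leaf)) (nat_lit 11636175160840848) (.br (nat_lit 0) (.cons (.br (nat_lit 2) (.cons (.rel (nat_lit 138428421)) .nil)) .nil)) (.node (.node (.node .leaf (nat_lit 11636175162141328) (.br (nat_lit 0) (.cons (.br (nat_lit 5) (.cons (.rel (nat_lit 4299292689)) .nil)) .nil)) .leaf) (nat_lit 11636175162141579) (.br (nat_lit 0) (.cons (.br (nat_lit 2) (.cons (.rel (nat_lit 71573505)) .nil)) .nil)) .leaf) (nat_lit 11636175163925260) (.br (nat_lit 0) (.cons (.br (nat_lit 3) (.cons (.rel (nat_lit 541327365)) .nil)) .nil)) (.node (.node .leaf (nat_lit 11636179794077883) (.br (nat_lit 0) (.cons (.br (nat_lit 3) (.cons (.rel (nat_lit 272634384)) .nil)) .nil)) .leaf) (nat_lit 11636180947870476) (.br (nat_lit 0) (.cons (.br (nat_lit 3) (.cons (.rel (nat_lit 541327365)) .nil)) .nil)) .leaf)))))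

/-- refutations 49 -/
def e49 : EX := (.node (.node (.node (.node (.node (.node (.node .leaf (nat_lit 11636255638461823) (.br (nat_lit 1) (.cons (.br (nat_lit 2) (.cons (.rel (nat_lit 83919360)) .nil)) .nil)) .leaf) (nat_lit 11636432881339780) (.br (nat_lit 2) (.cons (.br (nat_lit 0) (.cons (.rel (nat_lit 71303808)) (.cons (.rel (nat_lit 142606656)) .nil))) .nil)) .leaf) (nat_lit 11636436136119684) (.br (nat_lit 4) (.cons (.br (nat_lit 6) (.cons (.rel (nat_lit 35433488385)) (.cons (.rel (nat_lit 18253875204)) .nil))) .nil)) (.node .leaf (nat_lit 11636475680017791) (.br (nat_lit 1) (.cons (.br (nat_lit 4) (.cons (.rel (nat_lit 1090535952)) .nil)) .nil)) .leaf)) (nat_lit 11636478845128091) (.br (nat_lit 0) (.cons (.br (nat_lit 2) (.cons (.rel (nat_lit 71573505)) (.cons (.rel (nat_lit 142606656)) .nil))) (.cons (.br (nat_lit 2) (.cons (.rel (nat_lit 72352833)) (.cons (.rel (nat_lit 71860305)) .nil))) .nil))) (.node (.node (.node .leaf (nat_lit 11636478845228443) (.br (nat_lit 1) (.cons (.br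 (nat_lit 2) (.cons (.rel (nat_lit 83888385)) .nil)) .nil)) .leaf) (nat_lit 11636478845693311) (.br (nat_lit 0) (.cons (.br (nat_lit 3) (.cons (.rel (nat_lit 272631840)) .nil)) .nil)) .leaf) (nat_lit 11636478846717311) (.br (nat_lit 0) (.cons (.br (nat_lit 2) (.cons (.rel (nat_lit 71647248)) .nil)) .nil)) (.node .leaf (nat_lit 11636480438973096) (.br (nat_lit 2) (.cons (.br (nat_lit 4) (.cons (.rel (nat_lit 1140852864)) .nil)) .nil)) .leaf))) (nat_lit 11636480438981240) (.br (nat_lit 0) (.cons (.br (nat_lit 2) (.cons (.rel (nat_lit 71697408)) .nil)) .nil)) (.node (.node (.node (.node .leaf (nat_lit 11636480439063180) (.br (nat_lit 0) (.cons (.br (nat_lit 3) (.cons (.rel (nat_lit 272630793)) .nil)) .nil)) .leaf) (nat_lit 11636480439087360) (.br (nat_lit 0) (.cons (.br (nat_lit 3) (.cons (.rel (nat_lit 272631840)) .nil)) .nil)) .leaf) (nat_lit 11639233093587580) (.br (nat_lit 0) (.cons (.br (nat_lit 4) (.cons (.rel (nat_lit 1078198530)) .nil)) .nil)) (.node .leaf (nat_lit 11639233096755836)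 (.br (nat_lit 0) (.cons (.br (nat_lit 3) (.cons (.rel (nat_lit 272699649)) .nil)) .nil)) .leaf)) (nat_lit 11639233177782908) (.br (nat_lit 0) (.cons (.br (nat_lit 3) (.cons (.rel (nat_lit 272634384)) .nil)) .nil)) (.node (.node (.node .leaf (nat_lit 11639233179011708) (.br (nat_lit 1) (.cons (.br (nat_lit 3) (.cons (.rel (nat_lit 285294672)) .nil)) .nil)) .leaf) (nat_lit 11639233307497084) (.br (nat_lit 1) (.cons (.br (nat_lit 0) (.cons (.rel (nat_lit 41947140)) (.cons (.rel (nat_lit 20972037)) .nil))) .nil)) .leaf) (nat_lit 11639236214256252) (.br (nat_lit 0) (.cons (.br (nat_lit 1) (.cons (.rel (nat_lit 20972037)) .nil)) .nil)) (.node .leaf (nat_lit 11639236344164988) (.br (nat_lit 0) (.cons (.br (nat_lit 3) (.cons (.rel (nat_lit 272728080)) (.cons (.rel (nat_lit 272728080)) .nil))) .nil)) .leaf)))) (nat_lit 11639236453534332) (.br (nat_lit 0) (.cons (.br (nat_lit 3) (.cons (.rel (nat_lit 272728080)) (.cons (.br (nat_lit 4) (.cons (.rel (nat_lit 1342181382)) (.cons (.rel (nat_lit 2684358912))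 .nil))) .nil))) .nil)) (.node (.node (.node (.node (.node .leaf (nat_lit 11639236454751589) (.br (nat_lit 0) (.cons (.br (nat_lit 3) (.cons (.rel (nat_lit 272631840)) .nil)) .nil)) .leaf) (nat_lit 11639236454795900) (.br (nat_lit 1) (.cons (.br (nat_lit 2) (.cons (.rel (nat_lit 83890209)) .nil)) .nil)) .leaf) (nat_lit 11639236456277349) (.br (nat_lit 0) (.cons (.br (nat_lit 2) (.cons (.rel (nat_lit 142606656)) .nil)) .nil)) (.node .leaf (nat_lit 11639237808294524) (.br (nat_lit 3) (.cons (.br (nat_lit 1) (.cons (.rel (nat_lit 553668624)) (.cons (.rel (nat_lit 285220929)) (.cons (.rel (nat_lit 285217092)) .nil)))) (.cons (.br (nat_lit 1) (.cons (.rel (nat_lit 285294672)) (.cons (.rel (nat_lit 286262280)) (.cons (.rel (nat_lit 285294672)) .nil)))) .nil))) .leaf)) (nat_lit 11639237809556092) (.br (nat_lit 1) (.cons (.br (nat_lit 3) (.cons (.rel (nat_lit 285294672)) .nil)) .nil)) (.node (.node (.node .leaf (nat_lit 11639237811038844) (.br (nat_lit 0) (.cons (.br (nat_lit 3) (.cons (.rel (nat_lit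 272629782)) .nil)) .nil)) .leaf) (nat_lit 11639237811153532) (.br (nat_lit 2) (.cons (.br (nat_lit 3) (.cons (.rel (nat_lit 335548674)) (.cons (.rel (nat_lit 335548674)) .nil))) (.cons (.br (nat_lit 3) (.cons (.rel (nat_lit 335548674)) (.cons (.rel (nat_lit 335577105)) .nil))) .nil))) .leaf) (nat_lit 11639473151758363) (.br (nat_lit 0) (.cons (.br (nat_lit 2) (.cons (.rel (nat_lit 138477570)) .nil)) .nil)) (.node .leaf (nat_lit 11639473153285628) (.br (nat_lit 2) (.cons (.br (nat_lit 3) (.cons (.rel (nat_lit 671092740)) .nil)) .nil)) .leaf))) (nat_lit 11639473565618177) (.br (nat_lit 0) (.cons (.br (nat_lit 1) (.cons (.rel (nat_lit 21004305)) .nil)) .nil)) (.node (.node (.node (.node .leaf (nat_lit 11639473565700132) (.br (nat_lit 0) (.cons (.br (nat_lit 1) (.cons (.rel (nat_lit 21102612)) .nil)) .nil)) .leaf) (nat_lit 11639473567145343) (.br (nat_lit 0) (.cons (.br (nat_lit 2) (.cons (.rel (nat_lit 71303808)) .nil)) .nil)) .leaf) (nat_lit 11639473827203708) (.br (nat_lit 0) (.cons (.br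 (nat_lit 3) (.cons (.rel (nat_lit 272699649)) .nil)) .nil)) (.node .leaf (nat_lit 11639476229549587) (.br (nat_lit 1) (.cons (.br (nat_lit 2) (.cons (.rel (nat_lit 167788800)) .nil)) .nil)) .leaf)) (nat_lit 11639476232158735) (.br (nat_lit 0) (.cons (.br (nat_lit 5) (.cons (.rel (nat_lit 4299169797)) .nil)) .nil)) (.node (.node .leaf (nat_lit 11639476816547192) (.br (nat_lit 2) (.cons (.br (nat_lit 4) (.cons (.rel (nat_lit 1207992336)) .nil)) .nil)) .leaf) (nat_lit 11639476817586212) (.br (nat_lit 2) (.cons (.br (nat_lit 3) (.cons (.rel (nat_lit 402718788)) .nil)) .nil)) (.node .leaf (nat_lit 11639476818797451) (.br (nat_lit 3) (.cons (.br (nat_lit 5) (.cons (.rel (nat_lit 8858435589)) .nil)) .nil)) .leaf))))) (nat_lit 11639476819361149) (.br (nat_lit 0) (.cons (.br (nat_lit 2) (.cons (.rel (nat_lit 75517968)) .nil)) .nil)) (.node (.node (.node (.node (.node (.node .leaf (nat_lit 11639476819371384) (.br (nat_lit 2) (.cons (.br (nat_lit 3) (.cons (.rel (nat_lit 335544837)) (.cons (.rel (nat_lit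 335577105)) .nil))) .nil)) .leaf) (nat_lit 11639476819373434) (.br (nat_lit 3) (.cons (.br (nat_lit 4) (.cons (.rel (nat_lit 1342177545)) .nil)) .nil)) .leaf) (nat_lit 11639478523286140) (.br (nat_lit 0) (.cons (.br (nat_lit 3) (.cons (.rel (nat_lit 272631840)) (.cons (.br (nat_lit 1) (.cons (.rel (nat_lit 553779201)) (.cons (.rel (nat_lit 285344832)) (.cons (.rel (nat_lit 285294672)) .nil)))) (.cons (.rel (nat_lit 272654337)) .nil)))) (.cons (.br (nat_lit 5) (.cons (.rel (nat_lit 4299162114)) (.cons (.rel (nat_lit 4299162114)) (.cons (.rel (nat_lit 8598323457)) (.cons (.rel (nat_lit 4299162114)) .nil))))) (.cons (.br (nat_lit 1) (.cons (.rel (nat_lit 38338626)) (.cons (.rel (nat_lit 21054465)) (.cons (.rel (nat_lit 20979720)) .nil)))) .nil)))) (.node .leaf (nat_lit 11639478523286760) (.br (nat_lit 3) (.cons (.br (nat_lit 5) (.cons (.rel (nat_lit 4563935232)) .nil)) .nil)) .leaf)) (nat_lit 11639478523628427) (.br (nat_lit 3) (.cons (.br (nat_lit 4) (.cons (.rel (nat_lit 1342183440)) .nil))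 .nil)) (.node (.node (.node .leaf (nat_lit 11639478524811900) (.br (nat_lit 0) (.cons (.br (nat_lit 1) (.cons (.rel (nat_lit 20994048)) (.cons (.rel (nat_lit 21054465)) .nil))) (.cons (.br (nat_lit 2) (.cons (.rel (nat_lit 71573505)) (.cons (.br (nat_lit 3) (.cons (.rel (nat_lit 335675412)) (.cons (.rel (nat_lit 272631840)) (.cons (.rel (nat_lit 272695812)) .nil)))) .nil))) .nil))) .leaf) (nat_lit 11639478524824188) (.br (nat_lit 0) (.cons (.br (nat_lit 3) (.cons (.rel (nat_lit 272631840)) .nil)) .nil)) .leaf) (nat_lit 11639478524877100) (.br (nat_lit 0) (.cons (.br (nat_lit 3) (.cons (.rel (nat_lit 272630793)) .nil)) .nil)) (.node .leaf (nat_lit 11639478526339708) (.br (nat_lit 1) (.cons (.br (nat_lit 2) (.cons (.rel (nat_lit 83951637)) .nil)) .nil)) .leaf))) (nat_lit 11639478526453112) (.br (nat_lit 0) (.cons (.br (nat_lit 1) (.cons (.rel (nat_lit 20979720)) .nil)) .nil)) (.node (.node (.node (.node .leaf (nat_lit 11639478526454396) (.br (nat_lit 1) (.cons (.br (nat_lit 2) (.cons (.rel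 (nat_lit 83890209)) .nil)) .nil)) .leaf) (nat_lit 11639478526465400) (.br (nat_lit 3) (.cons (.br (nat_lit 4) (.cons (.rel (nat_lit 2415939648)) .nil)) .nil)) .leaf) (nat_lit 11639479332786812) (.br (nat_lit 1) (.cons (.br (nat_lit 3) (.cons (.rel (nat_lit 553779201)) .nil)) .nil)) (.node .leaf (nat_lit 11639479335689724) (.br (nat_lit 2) (.cons (.br (nat_lit 4) (.cons (.rel (nat_lit 2214596613)) .nil)) .nil)) .leaf)) (nat_lit 11639479335966084) (.br (nat_lit 0) (.cons (.br (nat_lit 4) (.cons (.rel (nat_lit 1082147841)) .nil)) .nil)) (.node (.node (.node .leaf (nat_lit 11639479357952001) (.br (nat_lit 1) (.cons (.br (nat_lit 3) (.cons (.rel (nat_lit 286285824)) .nil)) .nil)) .leaf) (nat_lit 11639479358259487) (.br (nat_lit 0) (.cons (.br (nat_lit 5) (.cons (.rel (nat_lit 4299718800)) .nil)) .nil)) .leaf) (nat_lit 11639479358294828) (.br (nat_lit 2) (.cons (.br (nat_lit 1) (.cons (.rel (nat_lit 83890209)) (.cons (.rel (nat_lit 83919360)) (.cons (.rel (nat_lit 83886372)) .nil)))) .nil)) (.node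 .leaf (nat_lit 11639479360773498) (.br (nat_lit 0) (.cons (.br (nat_lit 2) (.cons (.rel (nat_lit 142606656)) .nil)) .nil)) .leaf)))) (nat_lit 11639479361025262) (.br (nat_lit 0) (.cons (.br (nat_lit 4) (.cons (.rel (nat_lit 1078216704)) .nil)) .nil)) (.node (.node (.node (.node (.node .leaf (nat_lit 11639479378923521) (.br (nat_lit 0) (.cons (.br (nat_lit 3) (.cons (.rel (nat_lit 272634384)) .nil)) .nil)) .leaf) (nat_lit 11639479379266343) (.br (nat_lit 0) (.cons (.br (nat_lit 4) (.cons (.rel (nat_lit 1078263840)) (.cons (.rel (nat_lit 1078216704)) .nil))) (.cons (.br (nat_lit 3) (.cons (.rel (nat_lit 272631840)) (.cons (.rel (nat_lit 272695812)) (.cons (.rel (nat_lit 272631840)) .nil)))) .nil))) .leaf) (nat_lit 11639479462810387) (.br (nat_lit 0) (.cons (.br (nat_lit 3) (.cons (.rel (nat_lit 272630793)) .nil)) .nil)) (.node .leaf (nat_lit 11639479463111308) (.br (nat_lit 0) (.cons (.br (nat_lit 2) (.cons (.rel (nat_lit 75628545)) .nil)) .nil)) .leaf)) (nat_lit 11639479463152523) (.br (nat_lit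 1) (.cons (.br (nat_lit 3) (.cons (.rel (nat_lit 553779201)) .nil)) .nil)) (.node (.node (.node .leaf (nat_lit 11639479463356603) (.br (nat_lit 0) (.cons (.br (nat_lit 1) (.cons (.rel (nat_lit 41947140)) .nil)) .nil)) .leaf) (nat_lit 11639479464186643) (.br (nat_lit 2) (.cons (.br (nat_lit 4) (.cons (.rel (nat_lit 1141113876)) .nil)) .nil)) .leaf) (nat_lit 11639479465671443) (.br (nat_lit 2) (.cons (.br (nat_lit 5) (.cons (.rel (nat_lit 4362141714)) .nil)) .nil)) (.node .leaf (nat_lit 11639479465672063) (.br (nat_lit 0) (.cons (.br (nat_lit 2) (.cons (.rel (nat_lit 73417728)) .nil)) .nil)) .leaf))) (nat_lit 11639479465713003) (.br (nat_lit 1) (.cons (.br (nat_lit 2) (.cons (.rel (nat_lit 83951637)) .nil)) .nil)) (.node (.node (.node (.node .leaf (nat_lit 11639479479587596) (.br (nat_lit 1) (.cons (.br (nat_lit 4) (.cons (.rel (nat_lit 1090586112)) .nil)) .nil)) .leaf) (nat_lit 11639479479929119) (.br (nat_lit 0) (.cons (.br (nat_lit 2) (.cons (.rel (nat_lit 138690624)) .nil)) .nil)) .leaf)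 (nat_lit 11639479479929612) (.br (nat_lit 2) (.cons (.br (nat_lit 6) (.cons (.rel (nat_lit 17247257601)) (.cons (.rel (nat_lit 34426847238)) (.cons (.rel (nat_lit 34426847238)) .nil)))) .nil)) (.node .leaf (nat_lit 11639479482191375) (.br (nat_lit 0) (.cons (.br (nat_lit 2) (.cons (.rel (nat_lit 71303808)) .nil)) .nil)) .leaf)) (nat_lit 11639479482193422) (.br (nat_lit 0) (.cons (.br (nat_lit 2) (.cons (.rel (nat_lit 73417728)) .nil)) .nil)) (.node (.node .leaf (nat_lit 11639479552273646) (.br (nat_lit 0) (.cons (.br (nat_lit 1) (.cons (.rel (nat_lit 21039360)) .nil)) .nil)) .leaf) (nat_lit 11639479552273660) (.br (nat_lit 0) (.cons (.br (nat_lit 1) (.cons (.rel (nat_lit 41947140)) (.cons (.rel (nat_lit 20972037)) .nil))) .nil)) (.node .leaf (nat_lit 11639479553962735) (.br (nat_lit 2) (.cons (.br (nat_lit 1) (.cons (.rel (nat_lit 83886372)) (.cons (.rel (nat_lit 83903490)) (.cons (.rel (nat_lit 83888385)) .nil)))) .nil)) .leaf))))))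

/-- refutations 50 -/
def e50 : EX := (.node (.node (.node (.node (.node .leaf (nat_lit 11640252475940348) (.br (nat_lit 2) (.cons (.br (nat_lit 4) (.cons (.rel (nat_lit 1142964480)) .nil)) .nil)) .leaf) (nat_lit 11640268601656172) (.br (nat_lit 2) (.cons (.br (nat_lit 3) (.cons (.rel (nat_lit 335548674)) .nil)) .nil)) .leaf) (nat_lit 11640337319596712) (.br (nat_lit 0) (.cons (.br (nat_lit 6) (.cons (.rel (nat_lit 17185637376)) .nil)) .nil)) (.node .leaf (nat_lit 11640337319922300) (.br (nat_lit 0) (.cons (.br (nat_lit 3) (.cons (.rel (nat_lit 272728080)) .nil)) .nil)) .leaf)) (nat_lit 11640337322216800) (.br (nat_lit 2) (.cons (.br (nat_lit 3) (.cons (.rel (nat_lit 335552520)) .nil)) .nil)) (.node (.node (.node .leaf (nat_lit 11640509118305043) (.br (nat_lit 1) (.cons (.br (nat_lit 4) (.cons (.rel (nat_lit 2164789248)) (.cons (.rel (nat_lit 2164789248)) .nil))) .nil)) .leaf) (nat_lit 11640509118614140) (.br (nat_lit 1) (.cons (.br (nat_lit 3) (.cons (.rel (nat_lit 553779201)) (.cons (.rel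 (nat_lit 285220929)) .nil))) .nil)) .leaf) (nat_lit 11640509121356412) (.br (nat_lit 2) (.cons (.br (nat_lit 3) (.cons (.rel (nat_lit 335562000)) .nil)) .nil)) (.node .leaf (nat_lit 11640569247929000) (.br (nat_lit 2) (.cons (.br (nat_lit 4) (.cons (.rel (nat_lit 1207963905)) .nil)) .nil)) .leaf))) (nat_lit 11640569248156579) (.br (nat_lit 1) (.cons (.br (nat_lit 2) (.cons (.rel (nat_lit 83919360)) .nil)) .nil)) (.node (.node (.node (.node .leaf (nat_lit 11640569250450339) (.br (nat_lit 0) (.cons (.br (nat_lit 1) (.cons (.rel (nat_lit 21234240)) (.cons (.rel (nat_lit 22020240)) .nil))) .nil)) .leaf) (nat_lit 11640569250450784) (.br (nat_lit 3) (.cons (.br (nat_lit 4) (.cons (.rel (nat_lit 1342177545)) .nil)) .nil)) .leaf) (nat_lit 11640569250757919) (.br (nat_lit 0) (.cons (.br (nat_lit 1) (.cons (.rel (nat_lit 21041184)) .nil)) .nil)) (.node .leaf (nat_lit 11640732459772540) (.br (nat_lit 2) (.cons (.br (nat_lit 3) (.cons (.rel (nat_lit 604274688)) .nil)) .nil)) .leaf)) (nat_lit 11640733684413167)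 (.br (nat_lit 3) (.cons (.br (nat_lit 1) (.cons (.rel (nat_lit 286285824)) (.cons (.rel (nat_lit 285220929)) .nil))) .nil)) (.node (.node (.node .leaf (nat_lit 11641339686965249) (.br (nat_lit 1) (.cons (.br (nat_lit 3) (.cons (.rel (nat_lit 302006277)) (.cons (.rel (nat_lit 570687744)) .nil))) .nil)) .leaf) (nat_lit 11641342345128718) (.br (nat_lit 2) (.cons (.br (nat_lit 3) (.cons (.rel (nat_lit 335577105)) .nil)) .nil)) .leaf) (nat_lit 11641578145731187) (.br (nat_lit 0) (.cons (.br (nat_lit 1) (.cons (.rel (nat_lit 20989200)) .nil)) .nil)) (.node .leaf (nat_lit 11641801165263484) (.br (nat_lit 0) (.cons (.br (nat_lit 2) (.cons (.br (nat_lit 3) (.cons (.rel (nat_lit 335612160)) .nil)) .nil)) .nil)) .leaf))))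

/-- refutations 51 -/
def e51 : EX := (.node (.node .leaf (nat_lit 11534737168421801) (.br (nat_lit 0) (.cons (.br (nat_lit 1) (.cons (.rel (nat_lit 21004305)) .nil)) .nil)) .leaf) (nat_lit 11648704946114717) (.br (nat_lit 0) (.cons (.br (nat_lit 3) (.cons (.rel (nat_lit 272695812)) .nil)) .nil)) .leaf)

/-- refutations 52 -/
def e52 : EX := (.node (.node (.node (.node (.node .leaf (nat_lit 13194664808359968) (.br (nat_lit 1) (.cons (.br (nat_lit 2) (.cons (.rel (nat_lit 83903490)) .nil)) .nil)) .leaf) (nat_lit 13196395884317933) (.br (nat_lit 0) (.cons (.br (nat_lit 2) (.cons (.rel (nat_lit 75517968)) .nil)) .nil)) (.node .leaf (nat_lit 13196507683508860) (.br (nat_lit 1) (.cons (.br (nat_lit 2) (.cons (.rel (nat_lit 167788800)) .nil)) .nil)) .leaf)) (nat_lit 13196507683851147) (.br (nat_lit 1) (.cons (.br (nat_lit 3) (.cons (.rel (nat_lit 553668624)) (.cons (.rel (nat_lit 285220929)) .nil))) (.cons (.br (nat_lit 2) (.cons (.rel (nat_lit 85204992)) (.cons (.rel (nat_lit 100925445)) .nil)))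 .nil))) (.node (.node .leaf (nat_lit 13196559223117087) (.br (nat_lit 0) (.cons (.br (nat_lit 1) (.cons (.rel (nat_lit 20972037)) .nil)) .nil)) .leaf) (nat_lit 13196559224687499) (.br (nat_lit 0) (.cons (.br (nat_lit 3) (.cons (.rel (nat_lit 272629782)) .nil)) .nil)) .leaf)) (nat_lit 13196592951104168) (.br (nat_lit 0) (.cons (.br (nat_lit 1) (.cons (.rel (nat_lit 20979720)) .nil)) .nil)) (.node (.node (.node .leaf (nat_lit 13196726194246888) (.br (nat_lit 0) (.cons (.br (nat_lit 1) (.cons (.rel (nat_lit 21039360)) .nil)) .nil)) .leaf) (nat_lit 13196726195735435) (.br (nat_lit 2) (.cons (.br (nat_lit 3) (.cons (.rel (nat_lit 335578116)) .nil)) .nil)) (.node .leaf (nat_lit 13199723095676180) (.br (nat_lit 0) (.cons (.br (nat_lit 1) (.cons (.rel (nat_lit 22283265)) .nil)) .nil)) .leaf)) (nat_lit 13199723096222996) (.br (nat_lit 0) (.cons (.br (nat_lit 3) (.cons (.rel (nat_lit 272631840)) (.cons (.rel (nat_lit 545260560)) .nil))) .nil)) (.node (.node .leaf (nat_lit 13199724279835431) (.br (nat_lit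 4) (.cons (.br (nat_lit 5) (.cons (.rel (nat_lit 5368727040)) .nil)) .nil)) .leaf) (nat_lit 13199724279851644) (.br (nat_lit 1) (.cons (.br (nat_lit 3) (.cons (.rel (nat_lit 285294672)) .nil)) .nil)) .leaf))) (nat_lit 13199724280363144) (.br (nat_lit 0) (.cons (.br (nat_lit 1) (.cons (.rel (nat_lit 20972037)) .nil)) .nil)) (.node (.node (.node (.node .leaf (nat_lit 13199725641618044) (.br (nat_lit 1) (.cons (.br (nat_lit 4) (.cons (.rel (nat_lit 2165326080)) .nil)) .nil)) .leaf) (nat_lit 13199725644774676) (.br (nat_lit 0) (.cons (.br (nat_lit 1) (.cons (.rel (nat_lit 20972037)) .nil)) .nil)) (.node .leaf (nat_lit 13199725872387304) (.br (nat_lit 4) (.cons (.br (nat_lit 3) (.cons (.rel (nat_lit 1342324992)) (.cons (.rel (nat_lit 2684358912)) .nil))) .nil)) .leaf)) (nat_lit 13199725872551144) (.br (nat_lit 1) (.cons (.br (nat_lit 0) (.cons (.rel (nat_lit 38014992)) (.cons (.rel (nat_lit 20979720)) .nil))) .nil)) (.node (.node .leaf (nat_lit 13199725873892629) (.br (nat_lit 0) (.cons (.br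 (nat_lit 1) (.cons (.rel (nat_lit 22283265)) .nil)) .nil)) .leaf) (nat_lit 13199726811828860) (.br (nat_lit 1) (.cons (.br (nat_lit 5) (.cons (.rel (nat_lit 4312285200)) .nil)) .nil)) .leaf)) (nat_lit 13199726811829524) (.br (nat_lit 6) (.cons (.br (nat_lit 1) (.cons (.rel (nat_lit 34377039873)) (.cons (.rel (nat_lit 17196652548)) .nil))) .nil)) (.node (.node (.node .leaf (nat_lit 13199728275684628) (.br (nat_lit 0) (.cons (.br (nat_lit 3) (.cons (.rel (nat_lit 272631840)) .nil)) .nil)) .leaf) (nat_lit 13199728366775072) (.br (nat_lit 0) (.cons (.br (nat_lit 3) (.cons (.rel (nat_lit 272630793)) .nil)) .nil)) .leaf) (nat_lit 13199728778958100) (.br (nat_lit 0) (.cons (.br (nat_lit 4) (.cons (.rel (nat_lit 1078216704)) (.cons (.rel (nat_lit 1080034320)) .nil))) .nil)) (.node (.node .leaf (nat_lit 13199728779320596) (.br (nat_lit 1) (.cons (.br (nat_lit 3) (.cons (.rel (nat_lit 285294672)) .nil)) .nil)) .leaf) (nat_lit 13199729415158547) (.br (nat_lit 2) (.cons (.br (nat_lit 3) (.cons (.rel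 (nat_lit 335544837)) (.cons (.rel (nat_lit 335552520)) .nil))) .nil)) .leaf))))

/-- refutations 53 -/
def e53 : EX := (.node (.node (.node (.node (.node .leaf (nat_lit 13200643403041675) (.br (nat_lit 0) (.cons (.br (nat_lit 1) (.cons (.rel (nat_lit 20972037)) .nil)) .nil)) .leaf) (nat_lit 13201918710274848) (.br (nat_lit 0) (.cons (.br (nat_lit 2) (.cons (.rel (nat_lit 138428421)) .nil)) .nil)) .leaf) (nat_lit 13204940903508604) (.br (nat_lit 0) (.cons (.br (nat_lit 1) (.cons (.rel (nat_lit 41947140)) .nil)) .nil)) (.node .leaf (nat_lit 13205970625276780) (.br (nat_lit 1) (.cons (.br (nat_lit 3) (.cons (.rel (nat_lit 285344832)) .nil)) .nil)) .leaf)) (nat_lit 13205971697138540) (.br (nat_lit 5) (.cons (.br (nat_lit 6) (.cons (.rel (nat_lit 42949742592)) .nil)) .nil)) (.node (.node .leaf (nat_lit 13205973355776800) (.br (nat_lit 3) (.cons (.br (nat_lit 4) (.cons (.rel (nat_lit 1342178592)) .nil)) .nil)) .leaf) (nat_lit 13205973661387628) (.br (nat_lit 5) (.cons (.br (nat_lit 6) (.cons (.rel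 (nat_lit 21474852882)) .nil)) .nil)) (.node .leaf (nat_lit 13205973661388013) (.br (nat_lit 2) (.cons (.br (nat_lit 4) (.cons (.rel (nat_lit 1141244160)) .nil)) .nil)) .leaf))) (nat_lit 13205973791429518) (.br (nat_lit 5) (.cons (.br (nat_lit 0) (.cons (.rel (nat_lit 4299169797)) (.cons (.rel (nat_lit 4299162114)) .nil))) .nil)) (.node (.node (.node .leaf (nat_lit 13205973791771531) (.br (nat_lit 3) (.cons (.br (nat_lit 4) (.cons (.rel (nat_lit 1342183440)) (.cons (.rel (nat_lit 1342181382)) (.cons (.rel (nat_lit 2684358912)) (.cons (.rel (nat_lit 1610891280)) .nil))))) .nil)) .leaf) (nat_lit 13205973792955275) (.br (nat_lit 1) (.cons (.br (nat_lit 6) (.cons (.rel (nat_lit 17196652548)) (.cons (.rel (nat_lit 17213685762)) (.cons (.rel (nat_lit 17196925008)) .nil)))) .nil)) (.node .leaf (nat_lit 13205973793200259) (.br (nat_lit 0) (.cons (.br (nat_lit 3) (.cons (.rel (nat_lit 272654337)) .nil)) .nil)) .leaf)) (nat_lit 13205973794030869) (.br (nat_lit 1) (.cons (.br (nat_lit 3) (.cons (.rel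 (nat_lit 553682964)) .nil)) .nil)) (.node (.node .leaf (nat_lit 13205973794608415) (.br (nat_lit 1) (.cons (.br (nat_lit 3) (.cons (.rel (nat_lit 285344832)) .nil)) .nil)) .leaf) (nat_lit 13206214311123851) (.br (nat_lit 1) (.cons (.br (nat_lit 3) (.cons (.rel (nat_lit 553668624)) .nil)) .nil)) (.node .leaf (nat_lit 13206214312190859) (.br (nat_lit 3) (.cons (.br (nat_lit 1) (.cons (.rel (nat_lit 285220929)) (.cons (.rel (nat_lit 285344832)) .nil))) .nil)) .leaf))))

/-- refutations 54 -/
def e54 : EX := (.node (.node (.node (.node .leaf (nat_lit 12058599568282380) (.br (nat_lit 0) (.cons (.br (nat_lit 2) (.cons (.rel (nat_lit 75517968)) .nil)) .nil)) .leaf) (nat_lit 12061686061631748) (.br (nat_lit 0) (.cons (.br (nat_lit 2) (.cons (.rel (nat_lit 75517968)) .nil)) .nil)) .leaf) (nat_lit 12061918090529079) (.br (nat_lit 3) (.cons (.br (nat_lit 0) (.cons (.rel (nat_lit 272631840)) (.cons (.rel (nat_lit 272631840)) .nil))) .nil)) (.node .leaf (nat_lit 12061918092097823) (.br (nat_lit 0) (.cons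 (.br (nat_lit 2) (.cons (.rel (nat_lit 71303808)) .nil)) .nil)) .leaf)) (nat_lit 12061918111432088) (.br (nat_lit 0) (.cons (.br (nat_lit 2) (.cons (.rel (nat_lit 71569668)) .nil)) .nil)) (.node (.node .leaf (nat_lit 12061920190288627) (.br (nat_lit 1) (.cons (.br (nat_lit 2) (.cons (.rel (nat_lit 83886372)) .nil)) .nil)) .leaf) (nat_lit 12061923873379235) (.br (nat_lit 0) (.cons (.br (nat_lit 4) (.cons (.rel (nat_lit 2151747588)) .nil)) .nil)) (.node .leaf (nat_lit 12061923965162227) (.br (nat_lit 1) (.cons (.br (nat_lit 2) (.cons (.rel (nat_lit 83952648)) .nil)) .nil)) .leaf)))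

/-- refutations 55 -/
def e55 : EX := (.node (.node .leaf (nat_lit 13223544146121610) (.br (nat_lit 0) (.cons (.br (nat_lit 3) (.cons (.rel (nat_lit 272631840)) .nil)) .nil)) .leaf) (nat_lit 13223549219640598) (.br (nat_lit 2) (.cons (.br (nat_lit 3) (.cons (.rel (nat_lit 335577105)) .nil)) .nil)) (.node .leaf (nat_lit 13225095406637863) (.br (nat_lit 0) (.cons (.br (nat_lit 1) (.cons (.rel (nat_lit 22020240)) .nil)) .nil)) .leaf))

/-- refutations 56 -/
def e56 : EX := (.node (.node (.node (.node .leaf (nat_lit 13305161111933613) (.br (nat_lit 0) (.cons (.br (nat_lit 5) (.cons (.rel (nat_lit 4299432000)) .nil)) .nil)) .leaf) (nat_lit 13305278884205976) (.br (nat_lit 0) (.cons (.br (nat_lit 1) (.cons (.rel (nat_lit 20979720)) .nil)) .nil)) .leaf) (nat_lit 13311549384971542) (.br (nat_lit 1) (.cons (.br (nat_lit 3) (.cons (.rel (nat_lit 285344832)) .nil)) .nil)) (.node (.node .leaf (nat_lit 13311549386542358) (.br (nat_lit 0) (.cons (.br (nat_lit 2) (.cons (.rel (nat_lit 71573505)) .nil))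 .nil)) .leaf) (nat_lit 13311550114779441) (.br (nat_lit 0) (.cons (.br (nat_lit 1) (.cons (.rel (nat_lit 20972037)) .nil)) .nil)) .leaf)) (nat_lit 13311550115141763) (.br (nat_lit 0) (.cons (.br (nat_lit 2) (.cons (.rel (nat_lit 71303808)) .nil)) .nil)) (.node (.node (.node .leaf (nat_lit 13311550117935731) (.br (nat_lit 4) (.cons (.br (nat_lit 1) (.cons (.rel (nat_lit 1090520082)) (.cons (.rel (nat_lit 1090520082)) .nil))) .nil)) .leaf) (nat_lit 13311552677499011) (.br (nat_lit 1) (.cons (.br (nat_lit 3) (.cons (.rel (nat_lit 285217092)) .nil)) .nil)) .leaf) (nat_lit 13311552677499781) (.br (nat_lit 1) (.cons (.br (nat_lit 5) (.cons (.rel (nat_lit 4311810132)) .nil)) .nil)) (.node .leaf (nat_lit 13311552680319883) (.br (nat_lit 0) (.cons (.br (nat_lit 1) (.cons (.rel (nat_lit 20989200)) .nil)) .nil)) .leaf)))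

/-- refutations 57 -/
def e57 : EX := (.node (.node (.node .leaf (nat_lit 13393238325299832) (.br (nat_lit 1) (.cons (.br (nat_lit 3) (.cons (.rel (nat_lit 301990161)) .nil)) .nil)) .leaf) (nat_lit 13393238326340884) (.br (nat_lit 2) (.cons (.br (nat_lit 0) (.cons (.rel (nat_lit 138477570)) (.cons (.rel (nat_lit 72352833)) .nil))) .nil)) (.node .leaf (nat_lit 13393243475546299) (.br (nat_lit 0) (.cons (.br (nat_lit 1) (.cons (.rel (nat_lit 22283265)) .nil)) .nil)) .leaf)) (nat_lit 13393469743076239) (.br (nat_lit 0) (.cons (.br (nat_lit 1) (.cons (.rel (nat_lit 20975874)) .nil)) .nil)) (.node (.node .leaf (nat_lit 13393475404343483) (.br (nat_lit 0) (.cons (.br (nat_lit 1) (.cons (.rel (nat_lit 41947140)) .nil)) .nil)) .leaf) (nat_lit 13393475405180156) (.br (nat_lit 0) (.cons (.br (nat_lit 3) (.cons (.rel (nat_lit 272634384)) .nil)) .nil)) .leaf))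

/-- refutations 58 -/
def e58 : EX := (.node (.node (.node .leaf (nat_lit 13399557077830412) (.br (nat_lit 0) (.cons (.br (nat_lit 3) (.cons (.rel (nat_lit 277086336)) .nil)) .nil)) .leaf) (nat_lit 13399557193542512) (.br (nat_lit 1) (.cons (.br (nat_lit 6) (.cons (.rel (nat_lit 17196651537)) (.cons (.rel (nat_lit 34393313280)) .nil))) .nil)) (.node .leaf (nat_lit 13399954471357823) (.br (nat_lit 0) (.cons (.br (nat_lit 2) (.cons (.rel (nat_lit 142606656)) .nil)) .nil)) .leaf)) (nat_lit 13399954474181519) (.br (nat_lit 0) (.cons (.br (nat_lit 1) (.cons (.rel (nat_lit 21234240)) .nil)) .nil)) (.node (.node .leaf (nat_lit 13399957120787343) (.br (nat_lit 0) (.cons (.br (nat_lit 1) (.cons (.rel (nat_lit 38076420)) .nil)) .nil)) .leaf) (nat_lit 13401059163155312) (.br (nat_lit 0) (.cons (.br (nat_lit 2) (.cons (.rel (nat_lit 71303808)) .nil)) .nil)) .leaf))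

/-- refutations 59 -/
def e59 : EX := (.node (.node (.node (.node (.node .leaf (nat_lit 13810127518141816) (.br (nat_lit 0) (.cons (.br (nat_lit 2) (.cons (.rel (nat_lit 75628545)) .nil)) .nil)) .leaf) (nat_lit 13811217399305468) (.br (nat_lit 2) (.cons (.br (nat_lit 0) (.cons (.rel (nat_lit 75628545)) (.cons (.rel (nat_lit 71697408)) .nil))) .nil)) .leaf) (nat_lit 13811217399647608) (.br (nat_lit 0) (.cons (.br (nat_lit 3) (.cons (.rel (nat_lit 272629782)) .nil)) .nil)) (.node .leaf (nat_lit 13811217400821891) (.br (nat_lit 1) (.cons (.br (nat_lit 0) (.cons (.rel (nat_lit 41947140)) (.cons (.rel (nat_lit 20972037)) .nil))) .nil)) .leaf)) (nat_lit 13812280990994719) (.br (nat_lit 2) (.cons (.br (nat_lit 3) (.cons (.rel (nat_lit 335627265)) .nil)) .nil)) (.node (.node .leaf (nat_lit 13812285735013132) (.br (nat_lit 0) (.cons (.br (nat_lit 3) (.cons (.rel (nat_lit 272629782)) .nil)) .nil)) .leaf) (nat_lit 13812491259842847) (.br (nat_lit 0) (.cons (.br (nat_lit 1) (.cons (.rel (nat_lit 21039360))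 (.cons (.rel (nat_lit 20975874)) .nil))) .nil)) (.node .leaf (nat_lit 13812534189980460) (.br (nat_lit 2) (.cons (.br (nat_lit 5) (.cons (.rel (nat_lit 4362082308)) .nil)) .nil)) .leaf))) (nat_lit 13815450676860280) (.br (nat_lit 2) (.cons (.br (nat_lit 6) (.cons (.rel (nat_lit 17246994576)) .nil)) .nil)) (.node (.node (.node (.node .leaf (nat_lit 13815452237058228) (.br (nat_lit 1) (.cons (.br (nat_lit 3) (.cons (.rel (nat_lit 285737472)) .nil)) .nil)) .leaf) (nat_lit 13815452237140624) (.br (nat_lit 2) (.cons (.br (nat_lit 3) (.cons (.rel (nat_lit 403832832)) .nil)) .nil)) .leaf) (nat_lit 13815452237141495) (.br (nat_lit 3) (.cons (.br (nat_lit 4) (.cons (.rel (nat_lit 1342243857)) .nil)) .nil)) (.node .leaf (nat_lit 13815452238576552) (.br (nat_lit 0) (.cons (.br (nat_lit 5) (.cons (.rel (nat_lit 4299227424)) .nil)) .nil)) .leaf)) (nat_lit 13815452238629044) (.br (nat_lit 0) (.cons (.br (nat_lit 1) (.cons (.rel (nat_lit 21234240)) .nil)) .nil)) (.node (.node .leaf (nat_lit 13815454787277580)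 (.br (nat_lit 0) (.cons (.br (nat_lit 4) (.cons (.rel (nat_lit 1078216704)) .nil)) .nil)) .leaf) (nat_lit 13815454787278200) (.br (nat_lit 0) (.cons (.br (nat_lit 1) (.cons (.rel (nat_lit 20975874)) .nil)) .nil)) (.node .leaf (nat_lit 13815455842868007) (.br (nat_lit 2) (.cons (.br (nat_lit 6) (.cons (.rel (nat_lit 17247242496)) .nil)) .nil)) .leaf))))

/-- refutations 60 -/
def e60 : EX := (.node (.node (.node (.node .leaf (nat_lit 13817611494460048) (.br (nat_lit 3) (.cons (.br (nat_lit 4) (.cons (.rel (nat_lit 1342177545)) .nil)) .nil)) .leaf) (nat_lit 13821997809161123) (.br (nat_lit 0) (.cons (.br (nat_lit 1) (.cons (.rel (nat_lit 22283265)) .nil)) .nil)) .leaf) (nat_lit 13822000950776095) (.br (nat_lit 0) (.cons (.br (nat_lit 3) (.cons (.rel (nat_lit 272630793)) .nil)) .nil)) (.node (.node .leaf (nat_lit 13822000950776588) (.br (nat_lit 2) (.cons (.br (nat_lit 6) (.cons (.rel (nat_lit 34426847238)) .nil)) .nil)) .leaf) (nat_lit 13822000953555874) (.br (nat_lit 0) (.cons (.br (nat_lit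 2) (.cons (.rel (nat_lit 71569668)) .nil)) .nil)) .leaf)) (nat_lit 13823060838732452) (.br (nat_lit 0) (.cons (.br (nat_lit 2) (.cons (.rel (nat_lit 71569668)) .nil)) .nil)) (.node (.node (.node .leaf (nat_lit 13823060838813732) (.br (nat_lit 2) (.cons (.br (nat_lit 3) (.cons (.rel (nat_lit 335548674)) .nil)) .nil)) .leaf) (nat_lit 13823060839073952) (.br (nat_lit 6) (.cons (.br (nat_lit 5) (.cons (.rel (nat_lit 25770328128)) (.cons (.rel (nat_lit 42949742592)) (.cons (.rel (nat_lit 21474852882)) .nil)))) .nil)) .leaf) (nat_lit 13823060839074079) (.br (nat_lit 2) (.cons (.br (nat_lit 6) (.cons (.rel (nat_lit 34426849296)) .nil)) .nil)) (.node (.node .leaf (nat_lit 13823060840304154) (.br (nat_lit 1) (.cons (.br (nat_lit 0) (.cons (.rel (nat_lit 25198656)) (.cons (.rel (nat_lit 20975874)) .nil))) .nil)) .leaf) (nat_lit 13823065469586064) (.br (nat_lit 0) (.cons (.br (nat_lit 2) (.cons (.rel (nat_lit 138477570)) .nil)) .nil)) .leaf)))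

/-- refutations 61 -/
def e61 : EX := (.node (.node (.node (.node .leaf (nat_lit 13828749908791422) (.br (nat_lit 0) (.cons (.br (nat_lit 1) (.cons (.rel (nat_lit 20979720)) .nil)) .nil)) .leaf) (nat_lit 13828975978895637) (.br (nat_lit 1) (.cons (.br (nat_lit 3) (.cons (.rel (nat_lit 285220929)) .nil)) .nil)) (.node .leaf (nat_lit 13833042361331969) (.br (nat_lit 0) (.cons (.br (nat_lit 2) (.cons (.rel (nat_lit 142606656)) .nil)) .nil)) .leaf)) (nat_lit 13833042887987250) (.br (nat_lit 0) (.cons (.br (nat_lit 3) (.cons (.rel (nat_lit 273956880)) .nil)) .nil)) (.node (.node .leaf (nat_lit 13833042890898915) (.br (nat_lit 1) (.cons (.br (nat_lit 2) (.cons (.rel (nat_lit 83951637)) .nil)) .nil)) .leaf) (nat_lit 13833045044406529) (.br (nat_lit 0) (.cons (.br (nat_lit 3) (.cons (.rel (nat_lit 272631840)) .nil)) .nil)) (.node .leaf (nat_lit 13833045509427457) (.br (nat_lit 0) (.cons (.br (nat_lit 1) (.cons (.rel (nat_lit 20979720)) .nil)) .nil)) .leaf))) (nat_lit 13833045509920020) (.br (nat_lit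 0) (.cons (.br (nat_lit 2) (.cons (.rel (nat_lit 71569668)) .nil)) .nil)) (.node (.node (.node .leaf (nat_lit 13833045511255316) (.br (nat_lit 0) (.cons (.br (nat_lit 2) (.cons (.rel (nat_lit 142624833)) .nil)) .nil)) .leaf) (nat_lit 13833045512338708) (.br (nat_lit 2) (.cons (.br (nat_lit 4) (.cons (.rel (nat_lit 1141112865)) .nil)) .nil)) (.node .leaf (nat_lit 13833046975075239) (.br (nat_lit 0) (.cons (.br (nat_lit 2) (.cons (.rel (nat_lit 138413316)) .nil)) .nil)) .leaf)) (nat_lit 13833046976315649) (.br (nat_lit 4) (.cons (.br (nat_lit 0) (.cons (.rel (nat_lit 1077936516)) (.cons (.rel (nat_lit 1077936516)) .nil))) .nil)) (.node (.node .leaf (nat_lit 13833047061320980) (.br (nat_lit 0) (.cons (.br (nat_lit 1) (.cons (.rel (nat_lit 41947140)) .nil)) .nil)) .leaf) (nat_lit 13833048002370318) (.br (nat_lit 0) (.cons (.br (nat_lit 1) (.cons (.rel (nat_lit 21054465)) .nil)) .nil)) (.node .leaf (nat_lit 13833048003896182) (.br (nat_lit 0) (.cons (.br (nat_lit 1) (.cons (.rel (nat_lit 20975874))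 .nil)) .nil)) .leaf))))

/-- refutations 62 -/
def e62 : EX := (.node (.node .leaf (nat_lit 13839570038707106) (.br (nat_lit 1) (.cons (.br (nat_lit 2) (.cons (.rel (nat_lit 83919360)) .nil)) .nil)) .leaf) (nat_lit 13839570040232822) (.br (nat_lit 1) (.cons (.br (nat_lit 3) (.cons (.rel (nat_lit 285217092)) .nil)) .nil)) (.node .leaf (nat_lit 13839571241329570) (.br (nat_lit 0) (.cons (.br (nat_lit 1) (.cons (.rel (nat_lit 21102612)) .nil)) .nil)) .leaf))

/-- refutations 63 -/
def e63 : EX := (.node (.node (.node (.node .leaf (nat_lit 13370505794250779) (.br (nat_lit 0) (.cons (.br (nat_lit 1) (.cons (.rel (nat_lit 21577872)) .nil)) .nil)) .leaf) (nat_lit 13381976899718425) (.br (nat_lit 0) (.cons (.br (nat_lit 1) (.cons (.rel (nat_lit 20972037)) .nil)) .nil)) .leaf) (nat_lit 13381976899735678) (.br (nat_lit 0) (.cons (.br (nat_lit 3) (.cons (.rel (nat_lit 272654337)) .nil)) .nil)) (.node .leaf (nat_lit 13381976901327760) (.br (nat_lit 0) (.cons (.br (nat_lit 5) (.cons (.rel (nat_lit 4299180288))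 .nil)) .nil)) .leaf)) (nat_lit 13381981948089130) (.br (nat_lit 1) (.cons (.br (nat_lit 2) (.cons (.rel (nat_lit 83890209)) .nil)) .nil)) (.node (.node .leaf (nat_lit 13382354789855389) (.br (nat_lit 0) (.cons (.br (nat_lit 1) (.cons (.rel (nat_lit 38076420)) .nil)) .nil)) .leaf) (nat_lit 13382354792917904) (.br (nat_lit 0) (.cons (.br (nat_lit 1) (.cons (.rel (nat_lit 38076420)) .nil)) .nil)) (.node .leaf (nat_lit 13382356470639504) (.br (nat_lit 0) (.cons (.br (nat_lit 2) (.cons (.rel (nat_lit 138477570)) .nil)) .nil)) .leaf)))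

/-- refutations 64 -/
def e64 : EX := (.node (.node (.node (.node .leaf (nat_lit 14162875309921167) (.br (nat_lit 0) (.cons (.br (nat_lit 1) (.cons (.rel (nat_lit 20972037)) .nil)) .nil)) .leaf) (nat_lit 14162875310936319) (.br (nat_lit 0) (.cons (.br (nat_lit 1) (.cons (.rel (nat_lit 20979720)) .nil)) .nil)) .leaf) (nat_lit 14163952292352001) (.br (nat_lit 0) (.cons (.br (nat_lit 3) (.cons (.rel (nat_lit 272639232)) .nil)) .nil)) (.node .leaf (nat_lit 14163957656868072) (.br (nat_lit 1) (.cons (.br (nat_lit 3) (.cons (.rel (nat_lit 285737472)) .nil)) .nil)) .leaf)) (nat_lit 14167299011404711) (.br (nat_lit 0) (.cons (.br (nat_lit 2) (.cons (.rel (nat_lit 71647248)) .nil)) .nil)) (.node (.node (.node .leaf (nat_lit 14167299011709715) (.br (nat_lit 0) (.cons (.br (nat_lit 2) (.cons (.rel (nat_lit 75628545)) .nil)) .nil)) .leaf) (nat_lit 14167299014462375) (.br (nat_lit 0) (.cons (.br (nat_lit 2) (.cons (.rel (nat_lit 71573505)) .nil)) .nil)) .leaf) (nat_lit 14167299647802644) (.br (nat_lit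 0) (.cons (.br (nat_lit 2) (.cons (.rel (nat_lit 76808196)) .nil)) .nil)) (.node .leaf (nat_lit 14167394033603371) (.br (nat_lit 0) (.cons (.br (nat_lit 6) (.cons (.rel (nat_lit 17188324608)) .nil)) .nil)) .leaf)))

/-- refutations 65 -/
def e65 : EX := (.node (.node (.node (.node .leaf (nat_lit 14168376331211007) (.br (nat_lit 0) (.cons (.br (nat_lit 1) (.cons (.rel (nat_lit 21234240)) .nil)) .nil)) .leaf) (nat_lit 14168376332491679) (.br (nat_lit 2) (.cons (.br (nat_lit 3) (.cons (.rel (nat_lit 335577105)) .nil)) .nil)) .leaf) (nat_lit 14168386879948028) (.br (nat_lit 2) (.cons (.br (nat_lit 3) (.cons (.rel (nat_lit 402657360)) .nil)) .nil)) (.node .leaf (nat_lit 14168648286049038) (.br (nat_lit 0) (.cons (.br (nat_lit 1) (.cons (.rel (nat_lit 21004305)) .nil)) .nil)) .leaf)) (nat_lit 14172513215251068) (.br (nat_lit 1) (.cons (.br (nat_lit 2) (.cons (.rel (nat_lit 83886372)) .nil)) .nil)) (.node (.node .leaf (nat_lit 14173784527138330) (.br (nat_lit 0) (.cons (.br (nat_lit 1) (.cons (.rel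 (nat_lit 41947140)) .nil)) .nil)) .leaf) (nat_lit 14173798686760168) (.br (nat_lit 0) (.cons (.br (nat_lit 1) (.cons (.rel (nat_lit 41947140)) .nil)) .nil)) (.node .leaf (nat_lit 14174011329584031) (.br (nat_lit 0) (.cons (.br (nat_lit 2) (.cons (.rel (nat_lit 138413316)) .nil)) .nil)) .leaf)))

/-- refutations 66 -/
def e66 : EX := (.node (.node (.node .leaf (nat_lit 14198406008296349) (.br (nat_lit 0) (.cons (.br (nat_lit 3) (.cons (.rel (nat_lit 272654337)) .nil)) .nil)) .leaf) (nat_lit 14198406008296826) (.br (nat_lit 0) (.cons (.br (nat_lit 3) (.cons (.rel (nat_lit 272629782)) .nil)) .nil)) .leaf) (nat_lit 14199058846493454) (.br (nat_lit 0) (.cons (.br (nat_lit 3) (.cons (.rel (nat_lit 272630793)) .nil)) .nil)) (.node (.node .leaf (nat_lit 14203822909950877) (.br (nat_lit 0) (.cons (.br (nat_lit 1) (.cons (.rel (nat_lit 22283265)) .nil)) .nil)) .leaf) (nat_lit 14203822909968560) (.br (nat_lit 0) (.cons (.br (nat_lit 1) (.cons (.rel (nat_lit 20972037)) .nil)) .nil)) .leaf))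

/-- refutations 67 -/
def e67 : EX := (.node (.node (.node (.node .leaf (nat_lit 14208981376926632) (.br (nat_lit 2) (.cons (.br (nat_lit 6) (.cons (.rel (nat_lit 34426847238)) .nil)) .nil)) .leaf) (nat_lit 14209186376208689) (.br (nat_lit 2) (.cons (.br (nat_lit 0) (.cons (.rel (nat_lit 138477570)) (.cons (.rel (nat_lit 71647248)) .nil))) .nil)) (.node .leaf (nat_lit 14209186376209166) (.br (nat_lit 2) (.cons (.br (nat_lit 3) (.cons (.rel (nat_lit 335548674)) .nil)) .nil)) .leaf)) (nat_lit 14209186376252797) (.br (nat_lit 0) (.cons (.br (nat_lit 2) (.cons (.rel (nat_lit 72352833)) .nil)) .nil)) (.node (.node .leaf (nat_lit 14209186377735650) (.br (nat_lit 0) (.cons (.br (nat_lit 1) (.cons (.rel (nat_lit 20975874)) .nil)) .nil)) .leaf) (nat_lit 14209186377796989) (.br (nat_lit 1) (.cons (.br (nat_lit 4) (.cons (.rel (nat_lit 1090519080)) .nil)) .nil)) (.node .leaf (nat_lit 14209186377798562) (.br (nat_lit 0) (.cons (.br (nat_lit 2) (.cons (.rel (nat_lit 72876048)) .nil)) .nil)) .leaf)))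 (nat_lit 14209186377799182) (.br (nat_lit 1) (.cons (.br (nat_lit 3) (.cons (.rel (nat_lit 302268480)) .nil)) .nil)) (.node (.node (.node .leaf (nat_lit 14209186378052864) (.br (nat_lit 3) (.cons (.br (nat_lit 5) (.cons (.rel (nat_lit 4564451346)) .nil)) .nil)) .leaf) (nat_lit 14209189173809788) (.br (nat_lit 0) (.cons (.br (nat_lit 1) (.cons (.rel (nat_lit 20989200)) .nil)) .nil)) (.node .leaf (nat_lit 14209189215753448) (.br (nat_lit 2) (.cons (.br (nat_lit 3) (.cons (.rel (nat_lit 671092740)) .nil)) .nil)) .leaf)) (nat_lit 14209191621692172) (.br (nat_lit 0) (.cons (.br (nat_lit 2) (.cons (.rel (nat_lit 142606656)) .nil)) .nil)) (.node (.node .leaf (nat_lit 14209191622257276) (.br (nat_lit 1) (.cons (.br (nat_lit 3) (.cons (.rel (nat_lit 285220929)) .nil)) .nil)) .leaf) (nat_lit 14209192846897903) (.br (nat_lit 3) (.cons (.br (nat_lit 4) (.cons (.rel (nat_lit 1342183440)) .nil)) .nil)) .leaf)))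

/-- refutations 68 -/
def e68 : EX := (.node (.node (.node (.node (.node (.node .leaf (nat_lit 14286147491392869) (.br (nat_lit 1) (.cons (.br (nat_lit 2) (.cons (.rel (nat_lit 83891220)) .nil)) .nil)) .leaf) (nat_lit 14286149476438951) (.br (nat_lit 0) (.cons (.br (nat_lit 4) (.cons (.rel (nat_lit 2151679488)) (.cons (.rel (nat_lit 2151679488)) (.cons (.rel (nat_lit 2151679488)) .nil)))) .nil)) .leaf) (nat_lit 14287111419399079) (.br (nat_lit 3) (.cons (.br (nat_lit 4) (.cons (.rel (nat_lit 1342177545)) .nil)) .nil)) (.node .leaf (nat_lit 14287111420609447) (.br (nat_lit 2) (.cons (.br (nat_lit 3) (.cons (.rel (nat_lit 335675412)) .nil)) .nil)) .leaf)) (nat_lit 14287220184640744) (.br (nat_lit 0) (.cons (.br (nat_lit 4) (.cons (.rel (nat_lit 1078198530)) .nil)) .nil)) (.node (.node .leaf (nat_lit 14287223088221095) (.br (nat_lit 2) (.cons (.br (nat_lit 6) (.cons (.rel (nat_lit 17247244320)) .nil)) .nil)) .leaf) (nat_lit 14287223088547867) (.br (nat_lit 4) (.cons (.br (nat_lit 2) (.cons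 (.rel (nat_lit 1141198848)) (.cons (.rel (nat_lit 2214596613)) .nil))) .nil)) (.node .leaf (nat_lit 14287223088548775) (.br (nat_lit 2) (.cons (.br (nat_lit 6) (.cons (.rel (nat_lit 17314086921)) .nil)) .nil)) .leaf))) (nat_lit 14287223090074535) (.br (nat_lit 5) (.cons (.br (nat_lit 2) (.cons (.rel (nat_lit 4362076449)) (.cons (.rel (nat_lit 8724218112)) .nil))) .nil)) (.node (.node (.node (.node .leaf (nat_lit 14287223090832741) (.br (nat_lit 2) (.cons (.br (nat_lit 3) (.cons (.rel (nat_lit 335566848)) .nil)) .nil)) .leaf) (nat_lit 14287223090832892) (.br (nat_lit 0) (.cons (.br (nat_lit 2) (.cons (.rel (nat_lit 71303808)) .nil)) .nil)) .leaf) (nat_lit 14287223218262168) (.br (nat_lit 2) (.cons (.br (nat_lit 4) (.cons (.rel (nat_lit 2281702464)) .nil)) .nil)) (.node .leaf (nat_lit 14287223219782567) (.br (nat_lit 0) (.cons (.br (nat_lit 3) (.cons (.rel (nat_lit 272778240)) .nil)) .nil)) .leaf)) (nat_lit 14287269413034919) (.br (nat_lit 0) (.cons (.br (nat_lit 4) (.cons (.rel (nat_lit 2151694593))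 .nil)) .nil)) (.node (.node .leaf (nat_lit 14287274630749095) (.br (nat_lit 2) (.cons (.br (nat_lit 3) (.cons (.rel (nat_lit 335562000)) .nil)) .nil)) .leaf) (nat_lit 14287446426530727) (.br (nat_lit 1) (.cons (.br (nat_lit 5) (.cons (.rel (nat_lit 4311761985)) .nil)) .nil)) (.node .leaf (nat_lit 14287446426538136) (.br (nat_lit 1) (.cons (.br (nat_lit 2) (.cons (.rel (nat_lit 83890209)) .nil)) .nil)) .leaf)))) (nat_lit 14287489070027388) (.br (nat_lit 3) (.cons (.br (nat_lit 4) (.cons (.rel (nat_lit 1342185984)) .nil)) .nil)) (.node (.node (.node (.node (.node .leaf (nat_lit 14287489070027539) (.br (nat_lit 0) (.cons (.br (nat_lit 2) (.cons (.rel (nat_lit 71573505)) (.cons (.rel (nat_lit 138417153)) .nil))) .nil)) .leaf) (nat_lit 14290439049851506) (.br (nat_lit 0) (.cons (.br (nat_lit 1) (.cons (.rel (nat_lit 21102612)) .nil)) .nil)) .leaf) (nat_lit 14290439049859073) (.br (nat_lit 3) (.cons (.br (nat_lit 6) (.cons (.rel (nat_lit 17448375312)) .nil)) .nil)) (.node .leaf (nat_lit 14290439095997203)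 (.br (nat_lit 0) (.cons (.br (nat_lit 2) (.cons (.br (nat_lit 4) (.cons (.rel (nat_lit 2214596613)) .nil)) .nil)) .nil)) .leaf)) (nat_lit 14290441260258582) (.br (nat_lit 0) (.cons (.br (nat_lit 1) (.cons (.rel (nat_lit 20975874)) .nil)) .nil)) (.node (.node .leaf (nat_lit 14290441408894184) (.br (nat_lit 0) (.cons (.br (nat_lit 3) (.cons (.rel (nat_lit 272630793)) .nil)) .nil)) .leaf) (nat_lit 14290444313692312) (.br (nat_lit 0) (.cons (.br (nat_lit 2) (.cons (.rel (nat_lit 71573505)) .nil)) .nil)) (.node .leaf (nat_lit 14290444313703335) (.br (nat_lit 0) (.cons (.br (nat_lit 2) (.cons (.rel (nat_lit 142606656)) (.cons (.rel (nat_lit 71647248)) .nil))) (.cons (.br (nat_lit 6) (.cons (.rel (nat_lit 17188279296)) (.cons (.rel (nat_lit 34368131136)) .nil))) .nil))) .leaf))) (nat_lit 14290444313711379) (.br (nat_lit 0) (.cons (.br (nat_lit 2) (.cons (.rel (nat_lit 71573505)) (.cons (.rel (nat_lit 138417153)) .nil))) .nil)) (.node (.node (.node (.node .leaf (nat_lit 14290444314020476) (.br (nat_lit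 0) (.cons (.br (nat_lit 3) (.cons (.rel (nat_lit 272728080)) .nil)) .nil)) .leaf) (nat_lit 14290444315231143) (.br (nat_lit 0) (.cons (.br (nat_lit 3) (.cons (.rel (nat_lit 272631840)) .nil)) .nil)) .leaf) (nat_lit 14290444947043239) (.br (nat_lit 2) (.cons (.br (nat_lit 4) (.cons (.rel (nat_lit 2281702464)) .nil)) .nil)) (.node .leaf (nat_lit 14290444947051283) (.br (nat_lit 4) (.cons (.br (nat_lit 3) (.cons (.rel (nat_lit 1342183440)) (.cons (.rel (nat_lit 2684358912)) (.cons (.rel (nat_lit 1342178592)) .nil)))) .nil)) .leaf)) (nat_lit 14290444947055892) (.br (nat_lit 4) (.cons (.br (nat_lit 6) (.cons (.rel (nat_lit 18253874193)) .nil)) .nil)) (.node (.node .leaf (nat_lit 14290444947352339) (.br (nat_lit 4) (.cons (.br (nat_lit 5) (.cons (.rel (nat_lit 5369758080)) .nil)) .nil)) .leaf) (nat_lit 14290444947358483) (.br (nat_lit 0) (.cons (.br (nat_lit 2) (.cons (.rel (nat_lit 72876048)) .nil)) .nil)) (.node .leaf (nat_lit 14290444947360380) (.br (nat_lit 0) (.cons (.br (nat_lit 4) (.cons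 (.br (nat_lit 5) (.cons (.rel (nat_lit 6442975488)) .nil)) .nil)) .nil)) .leaf)))))

/-- refutations 69 -/
def e69 : EX := (.node (.node (.node (.node (.node .leaf (nat_lit 14290499179393951) (.br (nat_lit 1) (.cons (.br (nat_lit 2) (.cons (.rel (nat_lit 83890209)) .nil)) .nil)) .leaf) (nat_lit 14295649268814759) (.br (nat_lit 0) (.cons (.br (nat_lit 1) (.cons (.rel (nat_lit 25198656)) .nil)) .nil)) (.node .leaf (nat_lit 14295649270087692) (.br (nat_lit 1) (.cons (.br (nat_lit 2) (.cons (.rel (nat_lit 83902488)) .nil)) .nil)) .leaf)) (nat_lit 14296929844351128) (.br (nat_lit 0) (.cons (.br (nat_lit 3) (.cons (.rel (nat_lit 277872912)) .nil)) .nil)) (.node (.node .leaf (nat_lit 14296929844351911) (.br (nat_lit 2) (.cons (.br (nat_lit 4) (.cons (.rel (nat_lit 1142427648)) (.cons (.rel (nat_lit 1141113876)) (.cons (.rel (nat_lit 1141244160)) .nil)))) .nil)) .leaf) (nat_lit 14296929845942424) (.br (nat_lit 1) (.cons (.br (nat_lit 2) (.cons (.rel (nat_lit 83888385)) .nil)) .nil)) (.node .leaf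 (nat_lit 14296929846224907) (.br (nat_lit 0) (.cons (.br (nat_lit 2) (.cons (.rel (nat_lit 138417153)) .nil)) .nil)) .leaf))) (nat_lit 14296989973894051) (.br (nat_lit 0) (.cons (.br (nat_lit 3) (.cons (.rel (nat_lit 272639232)) .nil)) .nil)) (.node (.node (.node .leaf (nat_lit 14297190969372932) (.br (nat_lit 0) (.cons (.br (nat_lit 3) (.cons (.rel (nat_lit 272631840)) .nil)) .nil)) .leaf) (nat_lit 14297190970727152) (.br (nat_lit 0) (.cons (.br (nat_lit 1) (.cons (.rel (nat_lit 41947140)) .nil)) .nil)) (.node .leaf (nat_lit 14297193095628952) (.br (nat_lit 2) (.cons (.br (nat_lit 4) (.cons (.rel (nat_lit 1207992336)) .nil)) .nil)) .leaf)) (nat_lit 14297194036743051) (.br (nat_lit 1) (.cons (.br (nat_lit 2) (.cons (.rel (nat_lit 83919360)) .nil)) .nil)) (.node (.node .leaf (nat_lit 14297194144223542) (.br (nat_lit 0) (.cons (.br (nat_lit 2) (.cons (.rel (nat_lit 142606656)) .nil)) .nil)) .leaf) (nat_lit 14297194144223868) (.br (nat_lit 0) (.cons (.br (nat_lit 2) (.cons (.rel (nat_lit 71569668))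 .nil)) .nil)) .leaf))) (nat_lit 14297196002282407) (.br (nat_lit 2) (.cons (.br (nat_lit 6) (.cons (.rel (nat_lit 17246994576)) (.cons (.rel (nat_lit 17249075217)) .nil))) (.cons (.br (nat_lit 6) (.cons (.rel (nat_lit 17314086921)) (.cons (.rel (nat_lit 34426847238)) .nil))) .nil))) (.node (.node (.node (.node .leaf (nat_lit 14297196002300540) (.br (nat_lit 0) (.cons (.br (nat_lit 3) (.cons (.rel (nat_lit 272629782)) .nil)) .nil)) .leaf) (nat_lit 14297196003574695) (.br (nat_lit 6) (.cons (.br (nat_lit 0) (.cons (.rel (nat_lit 17184071808)) (.cons (.rel (nat_lit 17188290564)) .nil))) .nil)) (.node .leaf (nat_lit 14297196003892107) (.br (nat_lit 2) (.cons (.br (nat_lit 6) (.cons (.rel (nat_lit 17314234368)) .nil)) .nil)) .leaf)) (nat_lit 14297196003892135) (.br (nat_lit 1) (.cons (.br (nat_lit 2) (.cons (.rel (nat_lit 83888385)) .nil)) .nil)) (.node (.node .leaf (nat_lit 14297196004892847) (.br (nat_lit 0) (.cons (.br (nat_lit 3) (.cons (.rel (nat_lit 272629782)) .nil)) .nil)) .leaf) (nat_lit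 14297196005203176) (.br (nat_lit 3) (.cons (.br (nat_lit 6) (.cons (.rel (nat_lit 17448312837)) .nil)) .nil)) .leaf)) (nat_lit 14297196552301351) (.br (nat_lit 2) (.cons (.br (nat_lit 3) (.cons (.rel (nat_lit 671092740)) .nil)) .nil)) (.node (.node (.node .leaf (nat_lit 14297196554657244) (.br (nat_lit 0) (.cons (.br (nat_lit 3) (.cons (.rel (nat_lit 272630793)) .nil)) .nil)) .leaf) (nat_lit 14298226924475303) (.br (nat_lit 2) (.cons (.br (nat_lit 1) (.cons (.rel (nat_lit 83919360)) (.cons (.rel (nat_lit 167788800)) .nil))) .nil)) (.node .leaf (nat_lit 14298226924784403) (.br (nat_lit 0) (.cons (.br (nat_lit 2) (.cons (.rel (nat_lit 76808196)) (.cons (.rel (nat_lit 71647248)) (.cons (.rel (nat_lit 142606656)) .nil)))) (.cons (.br (nat_lit 4) (.cons (.br (nat_lit 2) (.cons (.rel (nat_lit 1145046024)) (.cons (.rel (nat_lit 1140852864)) (.cons (.rel (nat_lit 1207992336)) .nil)))) (.cons (.rel (nat_lit 1078216704)) (.cons (.rel (nat_lit 2151679488)) .nil)))) (.cons (.br (nat_lit 2) (.cons (.rel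 (nat_lit 142606656)) (.cons (.rel (nat_lit 71569668)) (.cons (.rel (nat_lit 75563280)) .nil)))) .nil)))) .leaf)) (nat_lit 14298226925840640) (.br (nat_lit 1) (.cons (.br (nat_lit 3) (.cons (.rel (nat_lit 570687744)) .nil)) .nil)) (.node (.node .leaf (nat_lit 14298226925994771) (.br (nat_lit 4) (.cons (.br (nat_lit 0) (.cons (.rel (nat_lit 1078216704)) (.cons (.rel (nat_lit 2151747588)) .nil))) .nil)) .leaf) (nat_lit 14298226927067923) (.br (nat_lit 0) (.cons (.br (nat_lit 3) (.cons (.rel (nat_lit 272631840)) .nil)) .nil)) .leaf))))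

/-- refutations 70 -/
def e70 : EX := (.node (.node (.node (.node .leaf (nat_lit 15393220839674607) (.br (nat_lit 1) (.cons (.br (nat_lit 2) (.cons (.rel (nat_lit 83919360)) .nil)) .nil)) .leaf) (nat_lit 15395414006059313) (.br (nat_lit 0) (.cons (.br (nat_lit 3) (.cons (.rel (nat_lit 272654337)) .nil)) .nil)) .leaf) (nat_lit 15398584305882495) (.br (nat_lit 4) (.cons (.br (nat_lit 5) (.cons (.rel (nat_lit 9664725072)) .nil)) .nil)) (.node .leaf (nat_lit 15398584306898303) (.br (nat_lit 0) (.cons (.br (nat_lit 1) (.cons (.rel (nat_lit 21005316)) .nil)) .nil)) .leaf)) (nat_lit 15398589547719407) (.br (nat_lit 1) (.cons (.br (nat_lit 3) (.cons (.rel (nat_lit 286262280)) (.cons (.rel (nat_lit 570687744)) (.cons (.rel (nat_lit 285220929)) .nil)))) .nil)) (.node (.node (.node .leaf (nat_lit 15400092714730252) (.br (nat_lit 0) (.cons (.br (nat_lit 6) (.cons (.rel (nat_lit 17188274448)) .nil)) .nil)) .leaf) (nat_lit 15400092721519374) (.br (nat_lit 1) (.cons (.br (nat_lit 0) (.cons (.rel (nat_lit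 38014992)) (.cons (.rel (nat_lit 20972037)) .nil))) .nil)) .leaf) (nat_lit 15403953015001870) (.br (nat_lit 0) (.cons (.br (nat_lit 1) (.cons (.rel (nat_lit 20972037)) .nil)) .nil)) (.node .leaf (nat_lit 15403965621471868) (.br (nat_lit 2) (.cons (.br (nat_lit 4) (.cons (.rel (nat_lit 1141112865)) .nil)) .nil)) .leaf)))

/-- refutations 71 -/
def e71 : EX := (.node (.node (.node (.node .leaf (nat_lit 15404207367563900) (.br (nat_lit 2) (.cons (.br (nat_lit 3) (.cons (.rel (nat_lit 671092740)) .nil)) .nil)) .leaf) (nat_lit 15405066286861170) (.br (nat_lit 0) (.cons (.br (nat_lit 4) (.cons (.rel (nat_lit 2151747588)) .nil)) .nil)) .leaf) (nat_lit 15405212386726814) (.br (nat_lit 0) (.cons (.br (nat_lit 1) (.cons (.rel (nat_lit 22020240)) .nil)) .nil)) (.node (.node .leaf (nat_lit 15405461494846066) (.br (nat_lit 1) (.cons (.br (nat_lit 2) (.cons (.rel (nat_lit 83890209)) .nil)) .nil)) .leaf) (nat_lit 15405461497918191) (.br (nat_lit 3) (.cons (.br (nat_lit 1) (.cons (.rel (nat_lit 301990161))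 (.cons (.rel (nat_lit 285220929)) .nil))) .nil)) .leaf)) (nat_lit 15405461498014478) (.br (nat_lit 1) (.cons (.br (nat_lit 3) (.cons (.rel (nat_lit 301990161)) .nil)) .nil)) (.node (.node (.node .leaf (nat_lit 15406068146393089) (.br (nat_lit 1) (.cons (.br (nat_lit 2) (.cons (.rel (nat_lit 83888385)) .nil)) .nil)) .leaf) (nat_lit 15406068146735855) (.br (nat_lit 3) (.cons (.br (nat_lit 5) (.cons (.rel (nat_lit 4563407169)) .nil)) .nil)) .leaf) (nat_lit 15406070155465634) (.br (nat_lit 0) (.cons (.br (nat_lit 3) (.cons (.rel (nat_lit 272629782)) .nil)) .nil)) (.node (.node .leaf (nat_lit 15406311834428174) (.br (nat_lit 1) (.cons (.br (nat_lit 2) (.cons (.rel (nat_lit 83902488)) .nil)) .nil)) .leaf) (nat_lit 15406578186949359) (.br (nat_lit 0) (.cons (.br (nat_lit 2) (.cons (.rel (nat_lit 142757952)) .nil)) .nil)) .leaf)))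

/-- refutations 72 -/
def e72 : EX := (.node (.node (.node .leaf (nat_lit 14114517864698013) (.br (nat_lit 0) (.cons (.br (nat_lit 3) (.cons (.rel (nat_lit 272631840)) (.cons (.rel (nat_lit 272654337)) .nil))) .nil)) .leaf) (nat_lit 14114519524615080) (.br (nat_lit 0) (.cons (.br (nat_lit 2) (.cons (.rel (nat_lit 138413316)) .nil)) .nil)) (.node .leaf (nat_lit 14114520358708500) (.br (nat_lit 2) (.cons (.br (nat_lit 3) (.cons (.rel (nat_lit 671092740)) .nil)) .nil)) .leaf)) (nat_lit 14116516081764983) (.br (nat_lit 0) (.cons (.br (nat_lit 2) (.cons (.rel (nat_lit 71569668)) .nil)) .nil)) (.node (.node .leaf (nat_lit 15411929649031425) (.br (nat_lit 0) (.cons (.br (nat_lit 4) (.cons (.rel (nat_lit 1078216704)) .nil)) .nil)) .leaf) (nat_lit 15417427206624784) (.br (nat_lit 3) (.cons (.br (nat_lit 2) (.cons (.rel (nat_lit 335552520)) (.cons (.rel (nat_lit 335577105)) .nil))) .nil)) .leaf))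

/-- refutations 73 -/
def e73 : EX := (.node (.node .leaf (nat_lit 15433937057022732) (.br (nat_lit 0) (.cons (.br (nat_lit 6) (.cons (.rel (nat_lit 34368131136)) .nil)) .nil)) .leaf) (nat_lit 15441247091034892) (.br (nat_lit 0) (.cons (.br (nat_lit 4) (.cons (.rel (nat_lit 1077936516)) .nil)) .nil)) .leaf)

/-- refutations 74 -/
def e74 : EX := (.node (.node .leaf (nat_lit 15488053124551433) (.br (nat_lit 0) (.cons (.br (nat_lit 2) (.cons (.rel (nat_lit 142606656)) .nil)) .nil)) .leaf) (nat_lit 15492075906992905) (.br (nat_lit 0) (.cons (.br (nat_lit 1) (.cons (.rel (nat_lit 20979720)) .nil)) .nil)) (.node .leaf (nat_lit 15493173338245897) (.br (nat_lit 0) (.cons (.br (nat_lit 2) (.cons (.rel (nat_lit 142606656)) .nil)) .nil)) .leaf))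

/-- refutations 75 -/
def e75 : EX := (.node (.node (.node (.node (.node .leaf (nat_lit 15569139025657868) (.br (nat_lit 0) (.cons (.br (nat_lit 2) (.cons (.rel (nat_lit 71569668)) .nil)) .nil)) .leaf) (nat_lit 15569611387355943) (.br (nat_lit 0) (.cons (.br (nat_lit 1) (.cons (.rel (nat_lit 20979720)) .nil)) .nil)) (.node .leaf (nat_lit 15569611388174368) (.br (nat_lit 4) (.cons (.br (nat_lit 6) (.cons (.rel (nat_lit 18253875204)) .nil)) .nil)) .leaf)) (nat_lit 15570201594003716) (.br (nat_lit 0) (.cons (.br (nat_lit 3) (.cons (.rel (nat_lit 277877760)) .nil)) .nil)) (.node (.node .leaf (nat_lit 15570202628478483) (.br (nat_lit 0) (.cons (.br (nat_lit 2) (.cons (.rel (nat_lit 71303808)) .nil)) .nil)) .leaf) (nat_lit 15570204696822020) (.br (nat_lit 4) (.cons (.br (nat_lit 1) (.cons (.rel (nat_lit 1090555905)) (.cons (.rel (nat_lit 1090521093)) .nil))) .nil)) (.node .leaf (nat_lit 15570639469743336) (.br (nat_lit 0) (.cons (.br (nat_lit 3) (.cons (.rel (nat_lit 272631840)) .nil)) .nil))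 .leaf))) (nat_lit 15570642162485249) (.br (nat_lit 0) (.cons (.br (nat_lit 3) (.cons (.rel (nat_lit 545260560)) .nil)) .nil)) (.node (.node (.node .leaf (nat_lit 15571253244280958) (.br (nat_lit 0) (.cons (.br (nat_lit 2) (.cons (.rel (nat_lit 138417153)) .nil)) .nil)) .leaf) (nat_lit 15571337947187987) (.br (nat_lit 0) (.cons (.br (nat_lit 3) (.cons (.rel (nat_lit 272634384)) .nil)) .nil)) (.node .leaf (nat_lit 15571453432844924) (.br (nat_lit 3) (.cons (.br (nat_lit 6) (.cons (.rel (nat_lit 34896609537)) .nil)) .nil)) .leaf)) (nat_lit 15571453433154471) (.br (nat_lit 0) (.cons (.br (nat_lit 2) (.cons (.br (nat_lit 3) (.cons (.rel (nat_lit 335566848)) (.cons (.rel (nat_lit 272728080)) .nil))) .nil)) .nil)) (.node (.node .leaf (nat_lit 15574668891140732) (.br (nat_lit 0) (.cons (.br (nat_lit 4) (.cons (.rel (nat_lit 2151686160)) .nil)) .nil)) .leaf) (nat_lit 15574668893022464) (.br (nat_lit 0) (.cons (.br (nat_lit 3) (.cons (.rel (nat_lit 272778240)) .nil)) .nil)) (.node .leaf (nat_lit 15574673894953112)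 (.br (nat_lit 0) (.cons (.br (nat_lit 3) (.cons (.rel (nat_lit 272634384)) .nil)) .nil)) .leaf)))) (nat_lit 15574673894953895) (.br (nat_lit 2) (.cons (.br (nat_lit 0) (.cons (.rel (nat_lit 138417153)) (.cons (.rel (nat_lit 71697408)) .nil))) .nil)) (.node (.node (.node (.node .leaf (nat_lit 15574673896473212) (.br (nat_lit 0) (.cons (.br (nat_lit 3) (.cons (.rel (nat_lit 272695812)) .nil)) .nil)) .leaf) (nat_lit 15574673896478895) (.br (nat_lit 0) (.cons (.br (nat_lit 2) (.cons (.br (nat_lit 3) (.cons (.rel (nat_lit 272728080)) (.cons (.rel (nat_lit 335627265)) .nil))) .nil)) .nil)) (.node .leaf (nat_lit 15574673898110228) (.br (nat_lit 0) (.cons (.br (nat_lit 2) (.cons (.rel (nat_lit 72352833)) .nil)) .nil)) .leaf)) (nat_lit 15574674444899604) (.br (nat_lit 3) (.cons (.br (nat_lit 4) (.cons (.rel (nat_lit 1342181382)) .nil)) .nil)) (.node (.node .leaf (nat_lit 15574674445946132) (.br (nat_lit 2) (.cons (.br (nat_lit 3) (.cons (.rel (nat_lit 671092740)) .nil)) .nil)) .leaf) (nat_lit 15574674528285599)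 (.br (nat_lit 0) (.cons (.br (nat_lit 2) (.cons (.rel (nat_lit 138477570)) .nil)) .nil)) (.node .leaf (nat_lit 15574674528293799) (.br (nat_lit 0) (.cons (.br (nat_lit 2) (.cons (.rel (nat_lit 138477570)) (.cons (.rel (nat_lit 138417153)) .nil))) .nil)) .leaf))) (nat_lit 15574674528602293) (.br (nat_lit 0) (.cons (.br (nat_lit 2) (.cons (.rel (nat_lit 73417728)) .nil)) .nil)) (.node (.node (.node .leaf (nat_lit 15574674528602899) (.br (nat_lit 4) (.cons (.br (nat_lit 0) (.cons (.rel (nat_lit 2151686160)) (.cons (.rel (nat_lit 2151686160)) .nil))) .nil)) .leaf) (nat_lit 15574674545152880) (.br (nat_lit 0) (.cons (.br (nat_lit 4) (.cons (.rel (nat_lit 2151686160)) .nil)) .nil)) (.node .leaf (nat_lit 15574674545378060) (.br (nat_lit 0) (.cons (.br (nat_lit 2) (.cons (.rel (nat_lit 142606656)) .nil)) .nil)) .leaf)) (nat_lit 15574674545562380) (.br (nat_lit 0) (.cons (.br (nat_lit 2) (.cons (.rel (nat_lit 75517968)) .nil)) .nil)) (.node (.node .leaf (nat_lit 15574674546659490) (.br (nat_lit 0)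 (.cons (.br (nat_lit 1) (.cons (.rel (nat_lit 41947140)) .nil)) .nil)) .leaf) (nat_lit 15574674546660108) (.br (nat_lit 1) (.cons (.br (nat_lit 3) (.cons (.rel (nat_lit 285343833)) .nil)) .nil)) (.node .leaf (nat_lit 15574674547663755) (.br (nat_lit 0) (.cons (.br (nat_lit 2) (.cons (.rel (nat_lit 138413316)) .nil)) .nil)) .leaf)))))

/-- refutations 76 -/
def e76 : EX := (.node (.node (.node (.node (.node .leaf (nat_lit 15574769017574012) (.br (nat_lit 0) (.cons (.br (nat_lit 2) (.cons (.rel (nat_lit 75517968)) .nil)) .nil)) .leaf) (nat_lit 15574769017574163) (.br (nat_lit 0) (.cons (.br (nat_lit 4) (.cons (.rel (nat_lit 2151694593)) .nil)) .nil)) .leaf) (nat_lit 15574769147906983) (.br (nat_lit 2) (.cons (.br (nat_lit 4) (.cons (.rel (nat_lit 1207960068)) .nil)) .nil)) (.node .leaf (nat_lit 15576057640381042) (.br (nat_lit 0) (.cons (.br (nat_lit 2) (.cons (.rel (nat_lit 71573505)) .nil)) .nil)) .leaf)) (nat_lit 15576864832963995) (.br (nat_lit 4) (.cons (.br (nat_lit 0) (.cons (.rel (nat_lit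 1082130726)) (.cons (.rel (nat_lit 1077936516)) .nil))) .nil)) (.node (.node (.node .leaf (nat_lit 15576864834452092) (.br (nat_lit 0) (.cons (.br (nat_lit 2) (.cons (.rel (nat_lit 138428421)) (.cons (.rel (nat_lit 138477570)) .nil))) .nil)) .leaf) (nat_lit 15579888748596587) (.br (nat_lit 0) (.cons (.br (nat_lit 2) (.cons (.rel (nat_lit 142606656)) .nil)) .nil)) .leaf) (nat_lit 15579888748614268) (.br (nat_lit 3) (.cons (.br (nat_lit 4) (.cons (.rel (nat_lit 1342183440)) (.cons (.rel (nat_lit 1342183440)) .nil))) (.cons (.br (nat_lit 4) (.cons (.rel (nat_lit 2684358912)) (.cons (.rel (nat_lit 1342178592)) .nil))) .nil))) (.node .leaf (nat_lit 15579888748923815) (.br (nat_lit 1) (.cons (.br (nat_lit 2) (.cons (.rel (nat_lit 101187648)) (.cons (.rel (nat_lit 83919360)) .nil))) .nil)) .leaf))) (nat_lit 15579888750508033) (.br (nat_lit 3) (.cons (.br (nat_lit 4) (.cons (.rel (nat_lit 2415939648)) .nil)) .nil)) (.node (.node (.node (.node .leaf (nat_lit 15580086317109884) (.br (nat_lit 0) (.cons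 (.br (nat_lit 3) (.cons (.rel (nat_lit 272778240)) .nil)) .nil)) .leaf) (nat_lit 15580086317472551) (.br (nat_lit 0) (.cons (.br (nat_lit 3) (.cons (.rel (nat_lit 277872912)) .nil)) .nil)) .leaf) (nat_lit 15580913774969708) (.br (nat_lit 4) (.cons (.br (nat_lit 3) (.cons (.rel (nat_lit 1342178592)) (.cons (.rel (nat_lit 1342243857)) .nil))) .nil)) (.node .leaf (nat_lit 15581170687301139) (.br (nat_lit 0) (.cons (.br (nat_lit 1) (.cons (.rel (nat_lit 20989200)) .nil)) .nil)) .leaf)) (nat_lit 15581214193683363) (.br (nat_lit 0) (.cons (.br (nat_lit 3) (.cons (.rel (nat_lit 272631840)) .nil)) .nil)) (.node (.node .leaf (nat_lit 15581220189857828) (.br (nat_lit 2) (.cons (.br (nat_lit 5) (.cons (.rel (nat_lit 4362162432)) .nil)) .nil)) .leaf) (nat_lit 15582190721370899) (.br (nat_lit 0) (.cons (.br (nat_lit 1) (.cons (.rel (nat_lit 21102612)) .nil)) .nil)) (.node .leaf (nat_lit 15582457139057276) (.br (nat_lit 2) (.cons (.br (nat_lit 4) (.cons (.rel (nat_lit 1141198848)) .nil)) .nil)) .leaf))))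

/-- refutations 78 -/
def e78 : EX := (.node (.node (.node (.node .leaf (nat_lit 15499893380483359) (.br (nat_lit 2) (.cons (.br (nat_lit 3) (.cons (.rel (nat_lit 335577105)) .nil)) .nil)) .leaf) (nat_lit 15504299467474969) (.br (nat_lit 2) (.cons (.br (nat_lit 3) (.cons (.rel (nat_lit 335577105)) .nil)) .nil)) (.node .leaf (nat_lit 15504305784120083) (.br (nat_lit 0) (.cons (.br (nat_lit 2) (.cons (.rel (nat_lit 72876048)) .nil)) .nil)) .leaf)) (nat_lit 15504305784423187) (.br (nat_lit 0) (.cons (.br (nat_lit 2) (.cons (.rel (nat_lit 142606656)) .nil)) .nil)) (.node (.node .leaf (nat_lit 15504360666565384) (.br (nat_lit 0) (.cons (.br (nat_lit 2) (.cons (.rel (nat_lit 75517968)) .nil)) .nil)) .leaf) (nat_lit 15505654504491039) (.br (nat_lit 0) (.cons (.br (nat_lit 1) (.cons (.rel (nat_lit 20972037)) .nil)) .nil)) .leaf)) (nat_lit 15505654504819324) (.br (nat_lit 3) (.cons (.br (nat_lit 4) (.cons (.rel (nat_lit 1342181382)) .nil)) .nil)) (.node (.node (.node .leaf (nat_lit 15509519975076627)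 (.br (nat_lit 0) (.cons (.br (nat_lit 3) (.cons (.rel (nat_lit 272778240)) .nil)) .nil)) .leaf) (nat_lit 15509519975385724) (.br (nat_lit 3) (.cons (.br (nat_lit 4) (.cons (.rel (nat_lit 1342185984)) (.cons (.rel (nat_lit 1342244868)) .nil))) .nil)) (.node .leaf (nat_lit 15510791285705340) (.br (nat_lit 0) (.cons (.br (nat_lit 3) (.cons (.rel (nat_lit 277872912)) .nil)) .nil)) .leaf)) (nat_lit 15511647141497608) (.br (nat_lit 1) (.cons (.br (nat_lit 2) (.cons (.rel (nat_lit 83919360)) .nil)) .nil)) (.node (.node .leaf (nat_lit 15511649238667900) (.br (nat_lit 5) (.cons (.br (nat_lit 0) (.cons (.rel (nat_lit 4299162114)) (.cons (.rel (nat_lit 4299162114)) .nil))) .nil)) .leaf) (nat_lit 15512088365519635) (.br (nat_lit 3) (.cons (.br (nat_lit 2) (.cons (.rel (nat_lit 402718788)) (.cons (.rel (nat_lit 335612160)) .nil))) .nil)) .leaf)))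

/-- refutations 79 -/
def e79 : EX := (.node (.node (.node .leaf (nat_lit 15926511932641936) (.br (nat_lit 0) (.cons (.br (nat_lit 2) (.cons (.rel (nat_lit 71647248)) .nil)) .nil)) .leaf) (nat_lit 15926518358233724) (.br (nat_lit 0) (.cons (.br (nat_lit 2) (.cons (.rel (nat_lit 73417728)) .nil)) .nil)) .leaf) (nat_lit 15934088200344828) (.br (nat_lit 0) (.cons (.br (nat_lit 2) (.cons (.rel (nat_lit 71697408)) .nil)) .nil)) (.node (.node .leaf (nat_lit 15934088200426783) (.br (nat_lit 0) (.cons (.br (nat_lit 3) (.cons (.rel (nat_lit 545260560)) .nil)) .nil)) .leaf) (nat_lit 15934091031481576) (.br (nat_lit 0) (.cons (.br (nat_lit 1) (.cons (.rel (nat_lit 20979720)) .nil)) .nil)) .leaf))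

/-- refutations 80 -/
def e80 : EX := (.node (.node .leaf (nat_lit 15968162147536223) (.br (nat_lit 0) (.cons (.br (nat_lit 1) (.cons (.rel (nat_lit 21039360)) .nil)) .nil)) .leaf) (nat_lit 15968411255636880) (.br (nat_lit 0) (.cons (.br (nat_lit 2) (.cons (.rel (nat_lit 71303808)) .nil)) .nil)) .leaf)

/-- refutations 81 -/
def e81 : EX := (.node (.node (.node (.node (.node (.node .leaf (nat_lit 16044334105335036) (.br (nat_lit 0) (.cons (.br (nat_lit 2) (.cons (.rel (nat_lit 138412305)) .nil)) .nil)) .leaf) (nat_lit 16044334105595132) (.br (nat_lit 2) (.cons (.br (nat_lit 6) (.cons (.rel (nat_lit 34426847238)) .nil)) .nil)) .leaf) (nat_lit 16044337809164944) (.br (nat_lit 0) (.cons (.br (nat_lit 6) (.cons (.rel (nat_lit 17184326148)) (.cons (.rel (nat_lit 34363932948)) .nil))) .nil)) (.node .leaf (nat_lit 16044337809165564) (.br (nat_lit 1) (.cons (.br (nat_lit 6) (.cons (.rel (nat_lit 34377039873)) .nil)) .nil)) .leaf)) (nat_lit 16045190387599620) (.br (nat_lit 0) (.cons (.br (nat_lit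 2) (.cons (.rel (nat_lit 75517968)) .nil)) .nil)) (.node (.node (.node .leaf (nat_lit 16045425027288316) (.br (nat_lit 0) (.cons (.br (nat_lit 2) (.cons (.rel (nat_lit 75628545)) .nil)) .nil)) .leaf) (nat_lit 16046488098801951) (.br (nat_lit 3) (.cons (.br (nat_lit 2) (.cons (.rel (nat_lit 335548674)) (.cons (.rel (nat_lit 671092740)) .nil))) .nil)) .leaf) (nat_lit 16046488618636664) (.br (nat_lit 3) (.cons (.br (nat_lit 6) (.cons (.rel (nat_lit 17448305154)) .nil)) .nil)) (.node .leaf (nat_lit 16049542789174155) (.br (nat_lit 0) (.cons (.br (nat_lit 4) (.cons (.rel (nat_lit 2151694593)) (.cons (.rel (nat_lit 1078198530)) .nil))) .nil)) .leaf))) (nat_lit 16049542789434251) (.br (nat_lit 0) (.cons (.br (nat_lit 1) (.cons (.rel (nat_lit 21234240)) .nil)) .nil)) (.node (.node (.node (.node .leaf (nat_lit 16049663568352139) (.br (nat_lit 2) (.cons (.br (nat_lit 3) (.cons (.rel (nat_lit 335612160)) .nil)) .nil)) .leaf) (nat_lit 16049663568611984) (.br (nat_lit 6) (.cons (.br (nat_lit 4) (.cons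 (.rel (nat_lit 19327353093)) (.cons (.rel (nat_lit 35433488385)) .nil))) .nil)) .leaf) (nat_lit 16049663568612108) (.br (nat_lit 2) (.cons (.br (nat_lit 6) (.cons (.rel (nat_lit 17314086921)) (.cons (.rel (nat_lit 34426849296)) .nil))) .nil)) (.node .leaf (nat_lit 16050750786700540) (.br (nat_lit 0) (.cons (.br (nat_lit 2) (.cons (.rel (nat_lit 138412305)) .nil)) .nil)) .leaf)) (nat_lit 16050753969951500) (.br (nat_lit 2) (.cons (.br (nat_lit 6) (.cons (.rel (nat_lit 17314234368)) .nil)) .nil)) (.node (.node .leaf (nat_lit 16050753969951627) (.br (nat_lit 4) (.cons (.br (nat_lit 2) (.cons (.rel (nat_lit 1207992336)) (.cons (.rel (nat_lit 2281702464)) (.cons (.rel (nat_lit 2281702464)) .nil)))) .nil)) .leaf) (nat_lit 16050753970211472) (.br (nat_lit 2) (.cons (.br (nat_lit 3) (.cons (.rel (nat_lit 335544837)) .nil)) .nil)) (.node .leaf (nat_lit 16050753970211723) (.br (nat_lit 3) (.cons (.br (nat_lit 6) (.cons (.rel (nat_lit 17448338433)) (.cons (.rel (nat_lit 34896609537)) .nil))) .nil))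 .leaf)))) (nat_lit 16050754389381900) (.br (nat_lit 0) (.cons (.br (nat_lit 2) (.cons (.rel (nat_lit 138428421)) .nil)) .nil)) (.node (.node (.node (.node (.node .leaf (nat_lit 16050754561348491) (.br (nat_lit 3) (.cons (.br (nat_lit 5) (.cons (.rel (nat_lit 4563435600)) .nil)) .nil)) .leaf) (nat_lit 16051813857989264) (.br (nat_lit 0) (.cons (.br (nat_lit 3) (.cons (.rel (nat_lit 272630793)) .nil)) .nil)) .leaf) (nat_lit 16051813858249484) (.br (nat_lit 2) (.cons (.br (nat_lit 4) (.cons (.rel (nat_lit 1207992336)) .nil)) .nil)) (.node .leaf (nat_lit 16051819121840908) (.br (nat_lit 3) (.cons (.br (nat_lit 4) (.cons (.rel (nat_lit 1342183440)) .nil)) .nil)) .leaf)) (nat_lit 16051819641852090) (.br (nat_lit 0) (.cons (.br (nat_lit 1) (.cons (.rel (nat_lit 20989200)) .nil)) .nil)) (.node (.node (.node .leaf (nat_lit 16051819641934480) (.br (nat_lit 3) (.cons (.br (nat_lit 4) (.cons (.rel (nat_lit 1342194708)) .nil)) .nil)) .leaf) (nat_lit 16051819642194576) (.br (nat_lit 3) (.cons (.br (nat_lit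 6) (.cons (.rel (nat_lit 17448325152)) .nil)) .nil)) .leaf) (nat_lit 16051819642194700) (.br (nat_lit 2) (.cons (.br (nat_lit 3) (.cons (.rel (nat_lit 335552520)) (.cons (.rel (nat_lit 335552520)) .nil))) .nil)) (.node .leaf (nat_lit 16051819642195196) (.br (nat_lit 2) (.cons (.br (nat_lit 4) (.cons (.rel (nat_lit 2281702464)) .nil)) .nil)) .leaf))) (nat_lit 16055112514506788) (.br (nat_lit 0) (.cons (.br (nat_lit 2) (.cons (.rel (nat_lit 71303808)) .nil)) .nil)) (.node (.node (.node (.node .leaf (nat_lit 16055118076625196) (.br (nat_lit 0) (.cons (.br (nat_lit 1) (.cons (.rel (nat_lit 20989200)) .nil)) .nil)) .leaf) (nat_lit 16055118248120356) (.br (nat_lit 0) (.cons (.br (nat_lit 2) (.cons (.rel (nat_lit 71303808)) (.cons (.rel (nat_lit 138417153)) .nil))) .nil)) .leaf) (nat_lit 16057268986467560) (.br (nat_lit 1) (.cons (.br (nat_lit 3) (.cons (.rel (nat_lit 285294672)) .nil)) .nil)) (.node .leaf (nat_lit 16057268986808607) (.br (nat_lit 4) (.cons (.br (nat_lit 6) (.cons (.rel (nat_lit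 35433488385)) .nil)) .nil)) .leaf)) (nat_lit 16057268986809847) (.br (nat_lit 2) (.cons (.br (nat_lit 3) (.cons (.rel (nat_lit 336593040)) .nil)) .nil)) (.node (.node .leaf (nat_lit 16057268987019424) (.br (nat_lit 3) (.cons (.br (nat_lit 4) (.cons (.rel (nat_lit 2684388357)) .nil)) .nil)) .leaf) (nat_lit 16057273097227047) (.br (nat_lit 6) (.cons (.br (nat_lit 0) (.cons (.rel (nat_lit 34368131136)) (.cons (.rel (nat_lit 17185112148)) .nil))) .nil)) (.node .leaf (nat_lit 16057273730567051) (.br (nat_lit 2) (.cons (.br (nat_lit 4) (.cons (.rel (nat_lit 1207960068)) (.cons (.rel (nat_lit 2281702464)) .nil))) .nil)) .leaf)))))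

/-- refutations 83 -/
def e83 : EX := (.node (.node .leaf (nat_lit 16396176183356028) (.br (nat_lit 0) (.cons (.br (nat_lit 1) (.cons (.rel (nat_lit 26214402)) .nil)) .nil)) .leaf) (nat_lit 16396361398243964) (.br (nat_lit 1) (.cons (.br (nat_lit 3) (.cons (.rel (nat_lit 285220929)) .nil)) .nil)) (.node .leaf (nat_lit 16396361398799136) (.br (nat_lit 3) (.cons (.br (nat_lit 0) (.cons (.rel (nat_lit 541327365)) (.cons (.rel (nat_lit 272654337)) .nil))) .nil)) .leaf))

/-- refutations 84 -/
def e84 : EX := (.node (.node (.node (.node .leaf (nat_lit 16409288599688544) (.br (nat_lit 0) (.cons (.br (nat_lit 3) (.cons (.rel (nat_lit 272634384)) .nil)) .nil)) .leaf) (nat_lit 16409288602290963) (.br (nat_lit 3) (.cons (.br (nat_lit 5) (.cons (.rel (nat_lit 8858375172)) .nil)) .nil)) .leaf) (nat_lit 16409289249804924) (.br (nat_lit 1) (.cons (.br (nat_lit 4) (.cons (.rel (nat_lit 1090520082)) .nil)) .nil)) (.node (.node .leaf (nat_lit 16409289250360096) (.br (nat_lit 3) (.cons (.br (nat_lit 0) (.cons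 (.rel (nat_lit 277872912)) (.cons (.rel (nat_lit 272631840)) .nil))) .nil)) .leaf) (nat_lit 16409289251330299) (.br (nat_lit 1) (.cons (.br (nat_lit 2) (.cons (.rel (nat_lit 83903490)) .nil)) .nil)) .leaf)) (nat_lit 16409289251375414) (.br (nat_lit 1) (.cons (.br (nat_lit 2) (.cons (.rel (nat_lit 83903490)) .nil)) .nil)) (.node (.node (.node .leaf (nat_lit 16409289251679735) (.br (nat_lit 0) (.cons (.br (nat_lit 2) (.cons (.rel (nat_lit 71569668)) .nil)) .nil)) .leaf) (nat_lit 16409289252961043) (.br (nat_lit 1) (.cons (.br (nat_lit 3) (.cons (.rel (nat_lit 285220929)) .nil)) .nil)) .leaf) (nat_lit 16409289623097980) (.br (nat_lit 4) (.cons (.br (nat_lit 1) (.cons (.rel (nat_lit 1090520082)) (.cons (.rel (nat_lit 1090521093)) (.cons (.rel (nat_lit 1090520082)) .nil)))) .nil)) (.node .leaf (nat_lit 16409289625699605) (.br (nat_lit 1) (.cons (.br (nat_lit 3) (.cons (.rel (nat_lit 286285824)) .nil)) .nil)) .leaf)))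

/-- refutations 85 -/
def e85 : EX := (.node (.node (.node (.node .leaf (nat_lit 16466344115442344) (.br (nat_lit 0) (.cons (.br (nat_lit 2) (.cons (.rel (nat_lit 142606656)) (.cons (.rel (nat_lit 71303808)) .nil))) .nil)) .leaf) (nat_lit 16466344115458735) (.br (nat_lit 0) (.cons (.br (nat_lit 2) (.cons (.rel (nat_lit 142606656)) .nil)) .nil)) (.node .leaf (nat_lit 16466344115800076) (.br (nat_lit 0) (.cons (.br (nat_lit 3) (.cons (.rel (nat_lit 545260560)) .nil)) .nil)) .leaf)) (nat_lit 16467448514833310) (.br (nat_lit 1) (.cons (.br (nat_lit 2) (.cons (.rel (nat_lit 83888385)) .nil)) .nil)) (.node (.node .leaf (nat_lit 16467451063894203) (.br (nat_lit 0) (.cons (.br (nat_lit 4) (.cons (.rel (nat_lit 2151686160)) .nil)) .nil)) .leaf) (nat_lit 16467451682754815) (.br (nat_lit 0) (.cons (.br (nat_lit 3) (.cons (.rel (nat_lit 277086336)) .nil)) .nil)) (.node .leaf (nat_lit 16467452217363983) (.br (nat_lit 0) (.cons (.br (nat_lit 1) (.cons (.rel (nat_lit 41947140)) .nil)) .nil)) .leaf)))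 (nat_lit 16468439522934909) (.br (nat_lit 1) (.cons (.br (nat_lit 2) (.cons (.rel (nat_lit 152109057)) .nil)) .nil)) (.node (.node (.node .leaf (nat_lit 16471764364495659) (.br (nat_lit 1) (.cons (.br (nat_lit 2) (.cons (.rel (nat_lit 83902488)) .nil)) .nil)) .leaf) (nat_lit 16472107962116283) (.br (nat_lit 0) (.cons (.br (nat_lit 1) (.cons (.rel (nat_lit 20994048)) .nil)) .nil)) (.node .leaf (nat_lit 16472107962117472) (.br (nat_lit 0) (.cons (.br (nat_lit 1) (.cons (.rel (nat_lit 26214402)) .nil)) .nil)) .leaf)) (nat_lit 16472967029404399) (.br (nat_lit 0) (.cons (.br (nat_lit 1) (.cons (.rel (nat_lit 38014992)) .nil)) .nil)) (.node (.node .leaf (nat_lit 16477238875172323) (.br (nat_lit 1) (.cons (.br (nat_lit 4) (.cons (.rel (nat_lit 1090520082)) .nil)) .nil)) .leaf) (nat_lit 16477330641785512) (.br (nat_lit 0) (.cons (.br (nat_lit 6) (.cons (.rel (nat_lit 17184071808)) .nil)) .nil)) (.node .leaf (nat_lit 16477330642348219) (.br (nat_lit 0) (.cons (.br (nat_lit 2) (.cons (.rel (nat_lit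 76808196)) .nil)) .nil)) .leaf))))

/-- refutations 86 -/
def e86 : EX := (.node (.node (.node (.node .leaf (nat_lit 16478189635244712) (.br (nat_lit 0) (.cons (.br (nat_lit 4) (.cons (.br (nat_lit 1) (.cons (.rel (nat_lit 41947140)) (.cons (.rel (nat_lit 1090519080)) .nil))) .nil)) .nil)) .leaf) (nat_lit 16478189635603212) (.br (nat_lit 3) (.cons (.br (nat_lit 0) (.cons (.rel (nat_lit 272631840)) (.cons (.rel (nat_lit 541589568)) .nil))) .nil)) (.node .leaf (nat_lit 16478530151214556) (.br (nat_lit 3) (.cons (.br (nat_lit 4) (.cons (.rel (nat_lit 1342177545)) .nil)) .nil)) .leaf)) (nat_lit 16478530152740896) (.br (nat_lit 0) (.cons (.br (nat_lit 4) (.cons (.rel (nat_lit 2151694593)) .nil)) .nil)) (.node (.node .leaf (nat_lit 16478584650926991) (.br (nat_lit 0) (.cons (.br (nat_lit 3) (.cons (.rel (nat_lit 272695812)) .nil)) .nil)) .leaf) (nat_lit 16479486178864015) (.br (nat_lit 0) (.cons (.br (nat_lit 1) (.cons (.rel (nat_lit 21039360)) .nil)) .nil)) (.node .leaf (nat_lit 16479687006325043)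 (.br (nat_lit 0) (.cons (.br (nat_lit 3) (.cons (.rel (nat_lit 272630793)) .nil)) .nil)) .leaf))) (nat_lit 16479691720688396) (.br (nat_lit 2) (.cons (.br (nat_lit 0) (.cons (.rel (nat_lit 71697408)) (.cons (.rel (nat_lit 72352833)) .nil))) .nil)) (.node (.node (.node .leaf (nat_lit 16479691720723212) (.br (nat_lit 0) (.cons (.br (nat_lit 3) (.cons (.rel (nat_lit 272631840)) (.cons (.rel (nat_lit 272630793)) .nil))) .nil)) .leaf) (nat_lit 16479691721763071) (.br (nat_lit 0) (.cons (.br (nat_lit 2) (.cons (.rel (nat_lit 71569668)) .nil)) .nil)) (.node .leaf (nat_lit 16479691721763596) (.br (nat_lit 2) (.cons (.br (nat_lit 3) (.cons (.rel (nat_lit 335577105)) .nil)) .nil)) .leaf)) (nat_lit 16479691721951539) (.br (nat_lit 0) (.cons (.br (nat_lit 3) (.cons (.rel (nat_lit 272629782)) .nil)) .nil)) (.node (.node .leaf (nat_lit 16479691722984355) (.br (nat_lit 0) (.cons (.br (nat_lit 2) (.cons (.rel (nat_lit 71569668)) .nil)) .nil)) .leaf) (nat_lit 16479691723547404) (.br (nat_lit 0) (.cons (.br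 (nat_lit 4) (.cons (.rel (nat_lit 1080034320)) .nil)) .nil)) (.node .leaf (nat_lit 16479691723547900) (.br (nat_lit 0) (.cons (.br (nat_lit 1) (.cons (.rel (nat_lit 41947140)) .nil)) .nil)) .leaf))))

/-- refutations 87 -/
def e87 : EX := (.node (.node (.node .leaf (nat_lit 16389369806756027) (.br (nat_lit 0) (.cons (.br (nat_lit 2) (.cons (.rel (nat_lit 138417153)) .nil)) .nil)) .leaf) (nat_lit 16390179995293883) (.br (nat_lit 2) (.cons (.br (nat_lit 3) (.cons (.rel (nat_lit 671092740)) .nil)) .nil)) .leaf) (nat_lit 16391685912621993) (.br (nat_lit 0) (.cons (.br (nat_lit 2) (.cons (.rel (nat_lit 71573505)) .nil)) .nil)) (.node .leaf (nat_lit 16391685913710622) (.br (nat_lit 0) (.cons (.br (nat_lit 3) (.cons (.rel (nat_lit 545260560)) .nil)) .nil)) .leaf))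

/-- refutations 88 -/
def e88 : EX := (.node (.node (.node (.node .leaf (nat_lit 16486243437120744) (.br (nat_lit 1) (.cons (.br (nat_lit 2) (.cons (.rel (nat_lit 83890209)) .nil)) .nil)) .leaf) (nat_lit 16494678751621756) (.br (nat_lit 0) (.cons (.br (nat_lit 1) (.cons (.rel (nat_lit 21041184)) .nil)) .nil)) .leaf) (nat_lit 16495906983512249) (.br (nat_lit 1) (.cons (.br (nat_lit 2) (.cons (.rel (nat_lit 83919360)) .nil)) .nil)) (.node .leaf (nat_lit 16496786848092911) (.br (nat_lit 1) (.cons (.br (nat_lit 5) (.cons (.rel (nat_lit 4311810132)) .nil)) .nil)) .leaf)) (nat_lit 16496786850749198) (.br (nat_lit 1) (.cons (.br (nat_lit 3) (.cons (.rel (nat_lit 285220929)) (.cons (.rel (nat_lit 285294672)) .nil))) .nil)) (.node (.node (.node .leaf (nat_lit 16497287211537640) (.br (nat_lit 0) (.cons (.br (nat_lit 2) (.cons (.rel (nat_lit 72876048)) .nil)) .nil)) .leaf) (nat_lit 16497288479592574) (.br (nat_lit 1) (.cons (.br (nat_lit 3) (.cons (.rel (nat_lit 286261269)) .nil)) .nil)) .leaf) (nat_lit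 16497290093024488) (.br (nat_lit 0) (.cons (.br (nat_lit 2) (.cons (.rel (nat_lit 75517968)) .nil)) .nil)) (.node .leaf (nat_lit 16497293526866730) (.br (nat_lit 0) (.cons (.br (nat_lit 3) (.cons (.rel (nat_lit 272630793)) .nil)) .nil)) .leaf)))

/-- refutations 89 -/
def e89 : EX := (.node (.node (.node .leaf (nat_lit 22008362561015839) (.br (nat_lit 0) (.cons (.br (nat_lit 5) (.cons (.rel (nat_lit 4304404488)) .nil)) .nil)) .leaf) (nat_lit 22008362561947679) (.br (nat_lit 1) (.cons (.br (nat_lit 5) (.cons (.rel (nat_lit 4312793601)) .nil)) .nil)) .leaf) (nat_lit 22008362563002399) (.br (nat_lit 1) (.cons (.br (nat_lit 3) (.cons (.rel (nat_lit 286261269)) .nil)) .nil)) (.node .leaf (nat_lit 22010204918665477) (.br (nat_lit 1) (.cons (.br (nat_lit 2) (.cons (.rel (nat_lit 83919360)) .nil)) .nil)) .leaf))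

/-- refutations 90 -/
def e90 : EX := (.node (.node (.node .leaf (nat_lit 22113430664480894) (.br (nat_lit 0) (.cons (.br (nat_lit 2) (.cons (.rel (nat_lit 71569668)) .nil)) .nil)) .leaf) (nat_lit 22113430666947372) (.br (nat_lit 0) (.cons (.br (nat_lit 1) (.cons (.rel (nat_lit 21102612)) .nil)) .nil)) (.node .leaf (nat_lit 22113430685472904) (.br (nat_lit 1) (.cons (.br (nat_lit 0) (.cons (.rel (nat_lit 20972037)) (.cons (.rel (nat_lit 20972037)) .nil))) .nil)) .leaf)) (nat_lit 22113435315985684) (.br (nat_lit 0) (.cons (.br (nat_lit 2) (.cons (.rel (nat_lit 71697408)) .nil)) .nil)) (.node (.node .leaf (nat_lit 22113435318430996) (.br (nat_lit 0) (.cons (.br (nat_lit 1) (.cons (.rel (nat_lit 20975874)) .nil)) .nil)) .leaf) (nat_lit 22113435318442009) (.br (nat_lit 0) (.cons (.br (nat_lit 2) (.cons (.rel (nat_lit 71569668)) .nil)) .nil)) .leaf))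

/-- refutations 91 -/
def e91 : EX := (.node (.node (.node (.node (.node .leaf (nat_lit 22535848776167684) (.br (nat_lit 0) (.cons (.br (nat_lit 1) (.cons (.rel (nat_lit 21004305)) .nil)) .nil)) .leaf) (nat_lit 22535849111474177) (.br (nat_lit 3) (.cons (.br (nat_lit 1) (.cons (.rel (nat_lit 285737472)) (.cons (.rel (nat_lit 553668624)) .nil))) .nil)) (.node .leaf (nat_lit 22535849112857852) (.br (nat_lit 0) (.cons (.br (nat_lit 1) (.cons (.br (nat_lit 3) (.cons (.rel (nat_lit 553668624)) .nil)) .nil)) .nil)) .leaf)) (nat_lit 22535850756188347) (.br (nat_lit 0) (.cons (.br (nat_lit 2) (.cons (.rel (nat_lit 142606656)) (.cons (.rel (nat_lit 75517968)) .nil))) .nil)) (.node (.node .leaf (nat_lit 22535854443818236) (.br (nat_lit 0) (.cons (.br (nat_lit 1) (.cons (.rel (nat_lit 21054465)) .nil)) .nil)) .leaf) (nat_lit 22536707035623460) (.br (nat_lit 0) (.cons (.br (nat_lit 3) (.cons (.rel (nat_lit 277086336)) .nil)) .nil)) (.node .leaf (nat_lit 22536707035932932) (.br (nat_lit 2) (.cons (.br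 (nat_lit 3) (.cons (.rel (nat_lit 335675412)) .nil)) .nil)) .leaf))) (nat_lit 22536884186011007) (.br (nat_lit 1) (.cons (.br (nat_lit 3) (.cons (.rel (nat_lit 285294672)) .nil)) .nil)) (.node (.node (.node .leaf (nat_lit 22538167324266801) (.br (nat_lit 1) (.cons (.br (nat_lit 3) (.cons (.rel (nat_lit 570687744)) .nil)) .nil)) .leaf) (nat_lit 22541062135045596) (.br (nat_lit 0) (.cons (.br (nat_lit 1) (.cons (.rel (nat_lit 20975874)) .nil)) .nil)) (.node .leaf (nat_lit 22541063203149032) (.br (nat_lit 0) (.cons (.br (nat_lit 3) (.cons (.rel (nat_lit 272629782)) .nil)) .nil)) .leaf)) (nat_lit 22541068029415425) (.br (nat_lit 0) (.cons (.br (nat_lit 1) (.cons (.rel (nat_lit 41947140)) .nil)) .nil)) (.node (.node .leaf (nat_lit 22541068029416680) (.br (nat_lit 0) (.cons (.br (nat_lit 3) (.cons (.rel (nat_lit 277938177)) .nil)) .nil)) .leaf) (nat_lit 22541068029969640) (.br (nat_lit 2) (.cons (.br (nat_lit 3) (.cons (.rel (nat_lit 606142464)) .nil)) .nil)) .leaf))) (nat_lit 22541068030954352)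 (.br (nat_lit 0) (.cons (.br (nat_lit 3) (.cons (.rel (nat_lit 272631840)) .nil)) .nil)) (.node (.node (.node (.node .leaf (nat_lit 22541068032584936) (.br (nat_lit 1) (.cons (.br (nat_lit 2) (.cons (.rel (nat_lit 100925445)) .nil)) .nil)) .leaf) (nat_lit 22541174306279724) (.br (nat_lit 0) (.cons (.br (nat_lit 1) (.cons (.rel (nat_lit 20972037)) .nil)) .nil)) (.node .leaf (nat_lit 22541176515089020) (.br (nat_lit 4) (.cons (.br (nat_lit 2) (.cons (.rel (nat_lit 1140852864)) (.cons (.rel (nat_lit 1142964480)) .nil))) .nil)) .leaf)) (nat_lit 22541176515089640) (.br (nat_lit 3) (.cons (.br (nat_lit 0) (.cons (.rel (nat_lit 545260560)) (.cons (.rel (nat_lit 272631840)) .nil))) .nil)) (.node (.node .leaf (nat_lit 22541176518143208) (.br (nat_lit 0) (.cons (.br (nat_lit 3) (.cons (.rel (nat_lit 272778240)) .nil)) .nil)) .leaf) (nat_lit 22541176661889025) (.br (nat_lit 1) (.cons (.br (nat_lit 4) (.cons (.rel (nat_lit 2181038100)) .nil)) .nil)) (.node .leaf (nat_lit 22541176661890280) (.br (nat_lit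 5) (.cons (.br (nat_lit 6) (.cons (.rel (nat_lit 21474975744)) .nil)) .nil)) .leaf))) (nat_lit 22541177558400376) (.br (nat_lit 0) (.cons (.br (nat_lit 1) (.cons (.rel (nat_lit 22283265)) .nil)) .nil)) (.node (.node (.node .leaf (nat_lit 22541177710465025) (.br (nat_lit 0) (.cons (.br (nat_lit 3) (.cons (.rel (nat_lit 272630793)) .nil)) .nil)) .leaf) (nat_lit 22541177713634840) (.br (nat_lit 0) (.cons (.br (nat_lit 3) (.cons (.rel (nat_lit 277348362)) .nil)) .nil)) (.node .leaf (nat_lit 22541180117996156) (.br (nat_lit 0) (.cons (.br (nat_lit 3) (.cons (.rel (nat_lit 272629782)) .nil)) .nil)) .leaf)) (nat_lit 22541180218659492) (.br (nat_lit 1) (.cons (.br (nat_lit 3) (.cons (.rel (nat_lit 570687744)) .nil)) .nil)) (.node (.node .leaf (nat_lit 22541180218659596) (.br (nat_lit 1) (.cons (.br (nat_lit 3) (.cons (.rel (nat_lit 285220929)) .nil)) .nil)) .leaf) (nat_lit 22541180219205909) (.br (nat_lit 0) (.cons (.br (nat_lit 2) (.cons (.rel (nat_lit 138417153)) .nil)) .nil)) .leaf))))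

/-- refutations 92 -/
def e92 : EX := (.node (.node (.node (.node (.node .leaf (nat_lit 22542092924357364) (.br (nat_lit 1) (.cons (.br (nat_lit 2) (.cons (.rel (nat_lit 83891220)) .nil)) .nil)) .leaf) (nat_lit 22542095784890369) (.br (nat_lit 1) (.cons (.br (nat_lit 3) (.cons (.rel (nat_lit 553730052)) (.cons (.rel (nat_lit 570687744)) .nil))) .nil)) .leaf) (nat_lit 22542267436782204) (.br (nat_lit 0) (.cons (.br (nat_lit 3) (.cons (.rel (nat_lit 272654337)) .nil)) .nil)) (.node .leaf (nat_lit 22542270620258940) (.br (nat_lit 0) (.cons (.br (nat_lit 1) (.cons (.rel (nat_lit 37765248)) .nil)) .nil)) .leaf)) (nat_lit 22543210119188780) (.br (nat_lit 0) (.cons (.br (nat_lit 6) (.cons (.rel (nat_lit 17184071808)) .nil)) .nil)) (.node (.node (.node .leaf (nat_lit 22543333628858620) (.br (nat_lit 0) (.cons (.br (nat_lit 1) (.cons (.rel (nat_lit 38014992)) .nil)) .nil)) .leaf) (nat_lit 22543335772148968) (.br (nat_lit 0) (.cons (.br (nat_lit 3) (.cons (.rel (nat_lit 277938177)) .nil)) .nil))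 .leaf) (nat_lit 22543630524187260) (.br (nat_lit 1) (.cons (.br (nat_lit 2) (.cons (.rel (nat_lit 151257216)) .nil)) .nil)) (.node .leaf (nat_lit 22543630525261052) (.br (nat_lit 0) (.cons (.br (nat_lit 2) (.cons (.rel (nat_lit 71573505)) .nil)) .nil)) .leaf))) (nat_lit 22543630525487856) (.br (nat_lit 1) (.cons (.br (nat_lit 3) (.cons (.rel (nat_lit 285220929)) .nil)) .nil)) (.node (.node (.node (.node .leaf (nat_lit 22546634919400349) (.br (nat_lit 1) (.cons (.br (nat_lit 4) (.cons (.rel (nat_lit 1090521093)) .nil)) .nil)) .leaf) (nat_lit 22546634922568316) (.br (nat_lit 1) (.cons (.br (nat_lit 2) (.cons (.rel (nat_lit 152059908)) .nil)) .nil)) .leaf) (nat_lit 22548733598126232) (.br (nat_lit 0) (.cons (.br (nat_lit 1) (.cons (.rel (nat_lit 21004305)) .nil)) .nil)) (.node .leaf (nat_lit 22548790381996039) (.br (nat_lit 0) (.cons (.br (nat_lit 4) (.cons (.rel (nat_lit 1078198530)) .nil)) .nil)) .leaf)) (nat_lit 22548790381996068) (.br (nat_lit 0) (.cons (.br (nat_lit 3) (.cons (.rel (nat_lit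 272629782)) .nil)) .nil)) (.node (.node .leaf (nat_lit 22548956282114835) (.br (nat_lit 0) (.cons (.br (nat_lit 2) (.cons (.rel (nat_lit 71319972)) .nil)) .nil)) .leaf) (nat_lit 22548962179305473) (.br (nat_lit 1) (.cons (.br (nat_lit 3) (.cons (.rel (nat_lit 553718784)) (.cons (.rel (nat_lit 553718784)) (.cons (.rel (nat_lit 570687744)) .nil)))) .nil)) (.node .leaf (nat_lit 22548962179543667) (.br (nat_lit 0) (.cons (.br (nat_lit 3) (.cons (.rel (nat_lit 272630793)) .nil)) .nil)) .leaf))))

/-- refutations 93 -/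
def e93 : EX := (.node (.node (.node (.node .leaf (nat_lit 22606010657640460) (.br (nat_lit 0) (.cons (.br (nat_lit 2) (.cons (.rel (nat_lit 71569668)) (.cons (.rel (nat_lit 138412305)) .nil))) .nil)) .leaf) (nat_lit 22606276999778360) (.br (nat_lit 0) (.cons (.br (nat_lit 1) (.cons (.rel (nat_lit 38014992)) .nil)) .nil)) .leaf) (nat_lit 22606277678992795) (.br (nat_lit 1) (.cons (.br (nat_lit 3) (.cons (.rel (nat_lit 286285824)) .nil)) .nil)) (.node .leaf (nat_lit 22606282376939023) (.br (nat_lit 0) (.cons (.br (nat_lit 1) (.cons (.rel (nat_lit 20972037)) .nil)) .nil)) .leaf)) (nat_lit 22607135938449664) (.br (nat_lit 0) (.cons (.br (nat_lit 4) (.cons (.rel (nat_lit 1077936516)) .nil)) .nil)) (.node (.node .leaf (nat_lit 22607135941568768) (.br (nat_lit 0) (.cons (.br (nat_lit 3) (.cons (.rel (nat_lit 277086336)) .nil)) .nil)) .leaf) (nat_lit 22611774503452728) (.br (nat_lit 0) (.cons (.br (nat_lit 1) (.cons (.rel (nat_lit 20972037)) .nil)) .nil)) (.node .leaf (nat_lit 22611775240060156)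 (.br (nat_lit 0) (.cons (.br (nat_lit 1) (.cons (.rel (nat_lit 20975874)) .nil)) .nil)) .leaf)))

/-- refutations 94 -/
def e94 : EX := (.node (.node .leaf (nat_lit 22618046279472040) (.br (nat_lit 1) (.cons (.br (nat_lit 3) (.cons (.rel (nat_lit 570687744)) .nil)) .nil)) .leaf) (nat_lit 22618046281060512) (.br (nat_lit 2) (.cons (.br (nat_lit 3) (.cons (.rel (nat_lit 335548674)) .nil)) .nil)) .leaf)

/-- refutations 95 -/
def e95 : EX := (.node (.node (.node (.node .leaf (nat_lit 22448921161242113) (.br (nat_lit 1) (.cons (.br (nat_lit 2) (.cons (.rel (nat_lit 83902488)) .nil)) .nil)) .leaf) (nat_lit 22449010224681890) (.br (nat_lit 1) (.cons (.br (nat_lit 4) (.cons (.rel (nat_lit 1091830017)) .nil)) .nil)) .leaf) (nat_lit 22449227120529713) (.br (nat_lit 0) (.cons (.br (nat_lit 3) (.cons (.rel (nat_lit 272778240)) .nil)) .nil)) (.node .leaf (nat_lit 22454595829958961) (.br (nat_lit 0) (.cons (.br (nat_lit 3) (.cons (.rel (nat_lit 272631840)) .nil)) .nil)) .leaf)) (nat_lit 22454595831544108)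 (.br (nat_lit 0) (.cons (.br (nat_lit 4) (.cons (.rel (nat_lit 1077936516)) .nil)) .nil)) (.node (.node .leaf (nat_lit 22458624508973361) (.br (nat_lit 2) (.cons (.br (nat_lit 3) (.cons (.rel (nat_lit 671092740)) .nil)) .nil)) .leaf) (nat_lit 22458627784725887) (.br (nat_lit 2) (.cons (.br (nat_lit 0) (.cons (.rel (nat_lit 71303808)) (.cons (.rel (nat_lit 75579396)) .nil))) .nil)) (.node .leaf (nat_lit 22459742403219613) (.br (nat_lit 0) (.cons (.br (nat_lit 1) (.cons (.rel (nat_lit 20972037)) .nil)) .nil)) .leaf)))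

/-- refutations 96 -/
def e96 : EX := (.node (.node (.node (.node .leaf (nat_lit 22623853169120014) (.br (nat_lit 0) (.cons (.br (nat_lit 2) (.cons (.rel (nat_lit 71303808)) .nil)) .nil)) .leaf) (nat_lit 22630225674867614) (.br (nat_lit 0) (.cons (.br (nat_lit 1) (.cons (.rel (nat_lit 21041184)) .nil)) .nil)) .leaf) (nat_lit 22630257321661828) (.br (nat_lit 0) (.cons (.br (nat_lit 1) (.cons (.rel (nat_lit 39845889)) .nil)) .nil)) (.node .leaf (nat_lit 22634348842865276) (.br (nat_lit 2) (.cons (.br (nat_lit 3) (.cons (.rel (nat_lit 336856065)) .nil)) .nil)) .leaf)) (nat_lit 22634592594843007) (.br (nat_lit 0) (.cons (.br (nat_lit 2) (.cons (.rel (nat_lit 72352833)) .nil)) .nil)) (.node (.node (.node .leaf (nat_lit 22634592597750391) (.br (nat_lit 0) (.cons (.br (nat_lit 3) (.cons (.rel (nat_lit 272892996)) .nil)) .nil)) .leaf) (nat_lit 22635620153185191) (.br (nat_lit 0) (.cons (.br (nat_lit 2) (.cons (.br (nat_lit 6) (.cons (.rel (nat_lit 34426849296)) (.cons (.rel (nat_lit 34426851840))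 .nil))) .nil)) .nil)) .leaf) (nat_lit 22636917233308435) (.br (nat_lit 0) (.cons (.br (nat_lit 6) (.cons (.rel (nat_lit 34363936785)) .nil)) .nil)) (.node .leaf (nat_lit 22636917233308583) (.br (nat_lit 0) (.cons (.br (nat_lit 4) (.cons (.rel (nat_lit 1080034320)) .nil)) .nil)) .leaf)))

/-- refutations 97 -/
def e97 : EX := (.node (.node (.node .leaf (nat_lit 24383930073370910) (.br (nat_lit 0) (.cons (.br (nat_lit 3) (.cons (.rel (nat_lit 272631840)) .nil)) .nil)) .leaf) (nat_lit 24383930175551495) (.br (nat_lit 0) (.cons (.br (nat_lit 2) (.cons (.rel (nat_lit 71303808)) .nil)) .nil)) .leaf) (nat_lit 24383935401726863) (.br (nat_lit 3) (.cons (.br (nat_lit 4) (.cons (.rel (nat_lit 1342177545)) .nil)) .nil)) (.node .leaf (nat_lit 24383935403039631) (.br (nat_lit 1) (.cons (.br (nat_lit 2) (.cons (.rel (nat_lit 83891220)) .nil)) .nil)) .leaf))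

/-- refutations 98 -/
def e98 : EX := (.node (.node (.node .leaf (nat_lit 24388362479930646) (.br (nat_lit 1) (.cons (.br (nat_lit 3) (.cons (.rel (nat_lit 285344832)) .nil)) .nil)) .leaf) (nat_lit 24389436423016703) (.br (nat_lit 1) (.cons (.br (nat_lit 2) (.cons (.rel (nat_lit 83890209)) .nil)) .nil)) .leaf) (nat_lit 24389436423018000) (.br (nat_lit 1) (.cons (.br (nat_lit 2) (.cons (.rel (nat_lit 83902488)) .nil)) .nil)) (.node (.node .leaf (nat_lit 24389436425377296) (.br (nat_lit 0) (.cons (.br (nat_lit 2) (.cons (.rel (nat_lit 142606656)) .nil)) .nil)) .leaf) (nat_lit 24393989088104703) (.br (nat_lit 0) (.cons (.br (nat_lit 2) (.cons (.rel (nat_lit 142606656)) .nil)) .nil)) .leaf))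

/-- refutations 99 -/
def e99 : EX := (.node (.node (.node .leaf (nat_lit 24297435196541735) (.br (nat_lit 0) (.cons (.br (nat_lit 3) (.cons (.rel (nat_lit 272695812)) .nil)) .nil)) .leaf) (nat_lit 24302553746311848) (.br (nat_lit 2) (.cons (.br (nat_lit 3) (.cons (.rel (nat_lit 335577105)) .nil)) .nil)) .leaf) (nat_lit 24306079577393808) (.br (nat_lit 0) (.cons (.br (nat_lit 1) (.cons (.rel (nat_lit 20979720)) .nil)) .nil)) (.node .leaf (nat_lit 24308004242572071) (.br (nat_lit 3) (.cons (.br (nat_lit 5) (.cons (.rel (nat_lit 4563407169)) .nil)) .nil)) .leaf))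

/-- refutations 100 -/
def e100 : EX := (.node (.node (.node (.node (.node .leaf (nat_lit 24718370666467580) (.br (nat_lit 1) (.cons (.br (nat_lit 3) (.cons (.rel (nat_lit 285294672)) .nil)) .nil)) .leaf) (nat_lit 24718370669623607) (.br (nat_lit 0) (.cons (.br (nat_lit 5) (.cons (.rel (nat_lit 4299232272)) .nil)) .nil)) (.node .leaf (nat_lit 24719435717697572) (.br (nat_lit 0) (.cons (.br (nat_lit 4) (.cons (.rel (nat_lit 1077940353)) .nil)) .nil)) .leaf)) (nat_lit 24722610136115980) (.br (nat_lit 0) (.cons (.br (nat_lit 1) (.cons (.rel (nat_lit 38076420)) .nil)) .nil)) (.node (.node .leaf (nat_lit 24724761577804028) (.br (nat_lit 0) (.cons (.br (nat_lit 3) (.cons (.rel (nat_lit 272639232)) .nil)) .nil)) .leaf) (nat_lit 24724761577885983) (.br (nat_lit 2) (.cons (.br (nat_lit 3) (.cons (.rel (nat_lit 335552520)) .nil)) .nil)) (.node .leaf (nat_lit 24724761579186463) (.br (nat_lit 2) (.cons (.br (nat_lit 3) (.cons (.rel (nat_lit 335548674)) (.cons (.rel (nat_lit 671092740)) .nil))) .nil))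 .leaf))) (nat_lit 24724761579186832) (.br (nat_lit 2) (.cons (.br (nat_lit 3) (.cons (.rel (nat_lit 671092740)) .nil)) .nil)) (.node (.node (.node .leaf (nat_lit 24724761579187083) (.br (nat_lit 2) (.cons (.br (nat_lit 3) (.cons (.rel (nat_lit 671092740)) (.cons (.rel (nat_lit 335548674)) .nil))) .nil)) .leaf) (nat_lit 24724761579187452) (.br (nat_lit 4) (.cons (.br (nat_lit 2) (.cons (.rel (nat_lit 2281702464)) (.cons (.rel (nat_lit 2281702464)) .nil))) .nil)) (.node .leaf (nat_lit 24724767363131679) (.br (nat_lit 2) (.cons (.br (nat_lit 4) (.cons (.rel (nat_lit 1207992336)) .nil)) .nil)) .leaf)) (nat_lit 24724767363132172) (.br (nat_lit 2) (.cons (.br (nat_lit 6) (.cons (.rel (nat_lit 34426847238)) .nil)) .nil)) (.node (.node .leaf (nat_lit 24724767363132919) (.br (nat_lit 0) (.cons (.br (nat_lit 3) (.cons (.rel (nat_lit 272631840)) .nil)) .nil)) .leaf) (nat_lit 24728060012106015) (.br (nat_lit 0) (.cons (.br (nat_lit 3) (.cons (.rel (nat_lit 272629782)) .nil)) .nil)) .leaf))) (nat_lit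 24728060234403876) (.br (nat_lit 0) (.cons (.br (nat_lit 1) (.cons (.rel (nat_lit 21102612)) .nil)) .nil)) (.node (.node (.node (.node .leaf (nat_lit 24728060235705100) (.br (nat_lit 0) (.cons (.br (nat_lit 2) (.cons (.rel (nat_lit 75628545)) .nil)) .nil)) .leaf) (nat_lit 24728063233331487) (.br (nat_lit 2) (.cons (.br (nat_lit 6) (.cons (.rel (nat_lit 34426849296)) .nil)) .nil)) (.node .leaf (nat_lit 24728063233332600) (.br (nat_lit 0) (.cons (.br (nat_lit 3) (.cons (.rel (nat_lit 272630793)) .nil)) .nil)) .leaf)) (nat_lit 24728065898015007) (.br (nat_lit 2) (.cons (.br (nat_lit 4) (.cons (.rel (nat_lit 2281702464)) .nil)) .nil)) (.node (.node .leaf (nat_lit 24728065898015500) (.br (nat_lit 2) (.cons (.br (nat_lit 3) (.cons (.rel (nat_lit 402657360)) (.cons (.rel (nat_lit 671092740)) .nil))) .nil)) .leaf) (nat_lit 24728852384541983) (.br (nat_lit 1) (.cons (.br (nat_lit 3) (.cons (.rel (nat_lit 301991172)) .nil)) .nil)) (.node .leaf (nat_lit 24729065037423518) (.br (nat_lit 6) (.cons (.br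 (nat_lit 1) (.cons (.rel (nat_lit 17196647700)) (.cons (.rel (nat_lit 17196647700)) .nil))) .nil)) .leaf))) (nat_lit 24729150933717168) (.br (nat_lit 0) (.cons (.br (nat_lit 2) (.cons (.rel (nat_lit 71647248)) .nil)) .nil)) (.node (.node (.node .leaf (nat_lit 24729151034462495) (.br (nat_lit 0) (.cons (.br (nat_lit 3) (.cons (.rel (nat_lit 272892996)) (.cons (.rel (nat_lit 272630793)) .nil))) .nil)) .leaf) (nat_lit 24729151035762975) (.br (nat_lit 2) (.cons (.br (nat_lit 6) (.cons (.rel (nat_lit 34426847238)) .nil)) .nil)) (.node .leaf (nat_lit 24729151035763344) (.br (nat_lit 0) (.cons (.br (nat_lit 2) (.cons (.rel (nat_lit 138690624)) .nil)) .nil)) .leaf)) (nat_lit 24729151035763964) (.br (nat_lit 2) (.cons (.br (nat_lit 4) (.cons (.rel (nat_lit 2281702464)) .nil)) .nil)) (.node (.node .leaf (nat_lit 24729153116137632) (.br (nat_lit 0) (.cons (.br (nat_lit 3) (.cons (.rel (nat_lit 272891985)) .nil)) .nil)) .leaf) (nat_lit 24729153116138252) (.br (nat_lit 2) (.cons (.br (nat_lit 3) (.cons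 (.rel (nat_lit 672206976)) .nil)) .nil)) .leaf))))

/-- refutations 101 -/
def e101 : EX := (.node (.node (.node (.node .leaf (nat_lit 25104587304833699) (.br (nat_lit 0) (.cons (.br (nat_lit 1) (.cons (.rel (nat_lit 20979720)) .nil)) .nil)) .leaf) (nat_lit 25104587305501347) (.br (nat_lit 0) (.cons (.br (nat_lit 2) (.cons (.rel (nat_lit 73417728)) .nil)) .nil)) (.node .leaf (nat_lit 25105561338030242) (.br (nat_lit 0) (.cons (.br (nat_lit 1) (.cons (.rel (nat_lit 41947140)) .nil)) .nil)) .leaf)) (nat_lit 25105561867538737) (.br (nat_lit 1) (.cons (.br (nat_lit 2) (.cons (.rel (nat_lit 83886372)) .nil)) .nil)) (.node (.node .leaf (nat_lit 25105561880103217) (.br (nat_lit 2) (.cons (.br (nat_lit 0) (.cons (.rel (nat_lit 138413316)) (.cons (.rel (nat_lit 138412305)) .nil))) .nil)) .leaf) (nat_lit 25105561880121649) (.br (nat_lit 1) (.cons (.br (nat_lit 3) (.cons (.rel (nat_lit 285344832)) (.cons (.rel (nat_lit 553718784)) .nil))) .nil)) (.node .leaf (nat_lit 25105561881693567) (.br (nat_lit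 0) (.cons (.br (nat_lit 1) (.cons (.rel (nat_lit 20979720)) .nil)) .nil)) .leaf))) (nat_lit 25105561881714052) (.br (nat_lit 0) (.cons (.br (nat_lit 1) (.cons (.rel (nat_lit 42090753)) .nil)) .nil)) (.node (.node (.node .leaf (nat_lit 25105562077499669) (.br (nat_lit 0) (.cons (.br (nat_lit 1) (.cons (.rel (nat_lit 21039360)) (.cons (.rel (nat_lit 21054465)) .nil))) .nil)) .leaf) (nat_lit 25105562077500067) (.br (nat_lit 0) (.cons (.br (nat_lit 2) (.cons (.rel (nat_lit 72876048)) .nil)) .nil)) (.node .leaf (nat_lit 25105562078527765) (.br (nat_lit 1) (.cons (.br (nat_lit 2) (.cons (.rel (nat_lit 83888385)) .nil)) .nil)) .leaf)) (nat_lit 25105565004860067) (.br (nat_lit 0) (.cons (.br (nat_lit 1) (.cons (.rel (nat_lit 20972037)) .nil)) .nil)) (.node (.node .leaf (nat_lit 25105567756342650) (.br (nat_lit 1) (.cons (.br (nat_lit 6) (.cons (.rel (nat_lit 17196651537)) .nil)) .nil)) .leaf) (nat_lit 25106669981665585) (.br (nat_lit 1) (.cons (.br (nat_lit 2) (.cons (.rel (nat_lit 83888385)) .nil))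 .nil)) (.node .leaf (nat_lit 25106674658334227) (.br (nat_lit 0) (.cons (.br (nat_lit 1) (.cons (.rel (nat_lit 21041184)) .nil)) .nil)) .leaf))))

/-- refutations 102 -/
def e102 : EX := (.node (.node (.node (.node .leaf (nat_lit 25112090427789573) (.br (nat_lit 1) (.cons (.br (nat_lit 2) (.cons (.rel (nat_lit 83924256)) .nil)) .nil)) .leaf) (nat_lit 25112093355150747) (.br (nat_lit 1) (.cons (.br (nat_lit 2) (.cons (.rel (nat_lit 83888385)) .nil)) .nil)) .leaf) (nat_lit 25112094907042423) (.br (nat_lit 0) (.cons (.br (nat_lit 1) (.cons (.rel (nat_lit 20989200)) .nil)) .nil)) (.node (.node .leaf (nat_lit 25114804848456306) (.br (nat_lit 0) (.cons (.br (nat_lit 1) (.cons (.rel (nat_lit 26214402)) .nil)) .nil)) .leaf) (nat_lit 25114805371163250) (.br (nat_lit 2) (.cons (.br (nat_lit 5) (.cons (.rel (nat_lit 4362093576)) .nil)) .nil)) .leaf)) (nat_lit 25115045167911217) (.br (nat_lit 2) (.cons (.br (nat_lit 0) (.cons (.rel (nat_lit 138412305)) (.cons (.rel (nat_lit 75579396)) .nil))) .nil))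 (.node (.node (.node .leaf (nat_lit 25115045168220465) (.br (nat_lit 0) (.cons (.br (nat_lit 3) (.cons (.rel (nat_lit 272728080)) .nil)) .nil)) .leaf) (nat_lit 25115045169500465) (.br (nat_lit 3) (.cons (.br (nat_lit 5) (.cons (.rel (nat_lit 4564451346)) .nil)) .nil)) .leaf) (nat_lit 25115045169501567) (.br (nat_lit 3) (.cons (.br (nat_lit 4) (.cons (.rel (nat_lit 1342244868)) .nil)) .nil)) (.node .leaf (nat_lit 25115045169503620) (.br (nat_lit 0) (.cons (.br (nat_lit 2) (.cons (.rel (nat_lit 71697408)) .nil)) .nil)) .leaf)))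

/-- refutations 103 -/
def e103 : EX := (.node (.node (.node (.node (.node (.node (.node .leaf (nat_lit 25192068394871564) (.br (nat_lit 0) (.cons (.br (nat_lit 2) (.cons (.rel (nat_lit 142606656)) .nil)) .nil)) .leaf) (nat_lit 25192068396296379) (.br (nat_lit 0) (.cons (.br (nat_lit 1) (.cons (.rel (nat_lit 41947140)) .nil)) .nil)) .leaf) (nat_lit 25192068465102207) (.br (nat_lit 0) (.cons (.br (nat_lit 4) (.cons (.rel (nat_lit 1082132736)) .nil)) .nil)) (.node .leaf (nat_lit 25192537758597152) (.br (nat_lit 3) (.cons (.br (nat_lit 4) (.cons (.rel (nat_lit 1342244868)) .nil)) .nil)) .leaf)) (nat_lit 25192537758972215) (.br (nat_lit 0) (.cons (.br (nat_lit 3) (.cons (.rel (nat_lit 272630793)) .nil)) .nil)) (.node (.node (.node .leaf (nat_lit 25192540694616096) (.br (nat_lit 0) (.cons (.br (nat_lit 1) (.cons (.rel (nat_lit 22283265)) .nil)) .nil)) .leaf) (nat_lit 25192540694985340) (.br (nat_lit 0) (.cons (.br (nat_lit 4) (.cons (.rel (nat_lit 1082132736)) .nil)) .nil)) .leaf) (nat_lit 25193299560124716)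 (.br (nat_lit 0) (.cons (.br (nat_lit 1) (.cons (.rel (nat_lit 41947140)) (.cons (.rel (nat_lit 21005316)) .nil))) .nil)) (.node .leaf (nat_lit 25193299560466719) (.br (nat_lit 0) (.cons (.br (nat_lit 1) (.cons (.rel (nat_lit 20994048)) .nil)) .nil)) .leaf))) (nat_lit 25193299561715968) (.br (nat_lit 0) (.cons (.br (nat_lit 1) (.cons (.rel (nat_lit 26214402)) .nil)) .nil)) (.node (.node (.node (.node .leaf (nat_lit 25193299561717119) (.br (nat_lit 3) (.cons (.br (nat_lit 4) (.cons (.rel (nat_lit 1342177545)) .nil)) .nil)) .leaf) (nat_lit 25193299691739436) (.br (nat_lit 0) (.cons (.br (nat_lit 2) (.cons (.rel (nat_lit 71303808)) .nil)) .nil)) .leaf) (nat_lit 25193302598392064) (.br (nat_lit 2) (.cons (.br (nat_lit 5) (.cons (.rel (nat_lit 4430234880)) .nil)) .nil)) (.node .leaf (nat_lit 25193304387761535) (.br (nat_lit 0) (.cons (.br (nat_lit 3) (.cons (.rel (nat_lit 272639232)) .nil)) .nil)) .leaf)) (nat_lit 25193304387771004) (.br (nat_lit 1) (.cons (.br (nat_lit 2) (.cons (.rel (nat_lit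 83886372)) .nil)) .nil)) (.node (.node .leaf (nat_lit 25193304389307004) (.br (nat_lit 1) (.cons (.br (nat_lit 2) (.cons (.rel (nat_lit 83888385)) .nil)) .nil)) .leaf) (nat_lit 25193304390369416) (.br (nat_lit 1) (.cons (.br (nat_lit 2) (.cons (.rel (nat_lit 150995013)) .nil)) .nil)) (.node .leaf (nat_lit 25193565718073345) (.br (nat_lit 0) (.cons (.br (nat_lit 1) (.cons (.rel (nat_lit 41947140)) .nil)) .nil)) .leaf)))) (nat_lit 25193565718074746) (.br (nat_lit 0) (.cons (.br (nat_lit 1) (.cons (.rel (nat_lit 20972037)) .nil)) .nil)) (.node (.node (.node (.node (.node .leaf (nat_lit 25193565718180140) (.br (nat_lit 0) (.cons (.br (nat_lit 3) (.cons (.rel (nat_lit 272631840)) .nil)) .nil)) .leaf) (nat_lit 25193565750242780) (.br (nat_lit 1) (.cons (.br (nat_lit 3) (.cons (.rel (nat_lit 286262280)) .nil)) .nil)) .leaf) (nat_lit 25193565978102047) (.br (nat_lit 0) (.cons (.br (nat_lit 3) (.cons (.rel (nat_lit 272699649)) (.cons (.rel (nat_lit 272630793)) .nil))) .nil)) (.node .leaf (nat_lit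 25193565978102396) (.br (nat_lit 2) (.cons (.br (nat_lit 4) (.cons (.br (nat_lit 1) (.cons (.rel (nat_lit 83952648)) (.cons (.br (nat_lit 3) (.cons (.rel (nat_lit 1342185984)) (.cons (.rel (nat_lit 570687744)) .nil))) .nil))) .nil)) .nil)) .leaf)) (nat_lit 25193565978103195) (.br (nat_lit 0) (.cons (.br (nat_lit 2) (.cons (.rel (nat_lit 75628545)) (.cons (.rel (nat_lit 71303808)) .nil))) (.cons (.br (nat_lit 2) (.cons (.rel (nat_lit 75628545)) (.cons (.rel (nat_lit 71303808)) .nil))) .nil))) (.node (.node .leaf (nat_lit 25193565978202399) (.br (nat_lit 1) (.cons (.br (nat_lit 4) (.cons (.rel (nat_lit 2164789248)) .nil)) .nil)) .leaf) (nat_lit 25193565979708028) (.br (nat_lit 1) (.cons (.br (nat_lit 3) (.cons (.rel (nat_lit 285217092)) .nil)) .nil)) (.node .leaf (nat_lit 25193565979891968) (.br (nat_lit 0) (.cons (.br (nat_lit 1) (.cons (.rel (nat_lit 42205509)) .nil)) .nil)) .leaf))) (nat_lit 25193566460465153) (.br (nat_lit 4) (.cons (.br (nat_lit 5) (.cons (.rel (nat_lit 5368710168)) .nil))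 .nil)) (.node (.node (.node (.node .leaf (nat_lit 25193566460465788) (.br (nat_lit 3) (.cons (.br (nat_lit 0) (.cons (.rel (nat_lit 276824133)) (.cons (.rel (nat_lit 272631840)) .nil))) .nil)) .leaf) (nat_lit 25193568549782140) (.br (nat_lit 0) (.cons (.br (nat_lit 1) (.cons (.rel (nat_lit 20989200)) .nil)) .nil)) .leaf) (nat_lit 25193568550502687) (.br (nat_lit 0) (.cons (.br (nat_lit 3) (.cons (.rel (nat_lit 272630793)) .nil)) .nil)) (.node .leaf (nat_lit 25193568552281340) (.br (nat_lit 0) (.cons (.br (nat_lit 4) (.cons (.rel (nat_lit 1082134560)) .nil)) .nil)) .leaf)) (nat_lit 25193569014778143) (.br (nat_lit 2) (.cons (.br (nat_lit 4) (.cons (.br (nat_lit 3) (.cons (.rel (nat_lit 1342183440)) (.cons (.rel (nat_lit 1342279680)) .nil))) .nil)) .nil)) (.node (.node .leaf (nat_lit 25193569014778492) (.br (nat_lit 2) (.cons (.br (nat_lit 4) (.cons (.rel (nat_lit 2214592776)) (.cons (.rel (nat_lit 1140852864)) .nil))) (.cons (.br (nat_lit 4) (.cons (.rel (nat_lit 2214592776)) (.cons (.rel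 (nat_lit 1141198848)) .nil))) .nil))) .leaf) (nat_lit 25193569014779263) (.br (nat_lit 3) (.cons (.br (nat_lit 1) (.cons (.rel (nat_lit 570687744)) (.cons (.rel (nat_lit 285294672)) .nil))) .nil)) (.node .leaf (nat_lit 25193569014796924) (.br (nat_lit 1) (.cons (.br (nat_lit 4) (.cons (.rel (nat_lit 2181038100)) .nil)) .nil)) .leaf))))) (nat_lit 25193569015343914) (.br (nat_lit 0) (.cons (.br (nat_lit 2) (.cons (.rel (nat_lit 142606656)) .nil)) .nil)) (.node (.node (.node (.node (.node (.node .leaf (nat_lit 25193569016323455) (.br (nat_lit 1) (.cons (.br (nat_lit 0) (.cons (.rel (nat_lit 38014992)) (.cons (.rel (nat_lit 20972037)) .nil))) .nil)) .leaf) (nat_lit 25193569017953643) (.br (nat_lit 0) (.cons (.br (nat_lit 2) (.cons (.rel (nat_lit 71697408)) .nil)) .nil)) .leaf) (nat_lit 25193569017962783) (.br (nat_lit 0) (.cons (.br (nat_lit 3) (.cons (.rel (nat_lit 272728080)) .nil)) .nil)) (.node .leaf (nat_lit 25193570478590239) (.br (nat_lit 4) (.cons (.br (nat_lit 5) (.cons (.rel (nat_lit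 5368844289)) (.cons (.rel (nat_lit 6442455108)) .nil))) (.cons (.br (nat_lit 5) (.cons (.rel (nat_lit 6442455108)) (.cons (.rel (nat_lit 5368709157)) .nil))) .nil))) .leaf)) (nat_lit 25193570478591387) (.br (nat_lit 0) (.cons (.br (nat_lit 4) (.cons (.rel (nat_lit 1078263840)) .nil)) .nil)) (.node (.node .leaf (nat_lit 25193570478609020) (.br (nat_lit 0) (.cons (.br (nat_lit 4) (.cons (.rel (nat_lit 1082134560)) .nil)) .nil)) .leaf) (nat_lit 25193570478609771) (.br (nat_lit 4) (.cons (.br (nat_lit 3) (.cons (.rel (nat_lit 1342178592)) (.cons (.rel (nat_lit 1342177545)) (.cons (.rel (nat_lit 1342193697)) .nil)))) .nil)) (.node .leaf (nat_lit 25193570478609939) (.br (nat_lit 0) (.cons (.br (nat_lit 4) (.cons (.rel (nat_lit 1078263840)) .nil)) .nil)) .leaf))) (nat_lit 25193570478690340) (.br (nat_lit 0) (.cons (.br (nat_lit 4) (.cons (.rel (nat_lit 1078263840)) .nil)) .nil)) (.node (.node (.node (.node .leaf (nat_lit 25193570478690591) (.br (nat_lit 0) (.cons (.br (nat_lit 4) (.cons (.rel (nat_lit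 1082147841)) .nil)) .nil)) .leaf) (nat_lit 25193570478915871) (.br (nat_lit 2) (.cons (.br (nat_lit 3) (.cons (.rel (nat_lit 335577105)) .nil)) .nil)) .leaf) (nat_lit 25193570478916860) (.br (nat_lit 2) (.cons (.br (nat_lit 3) (.cons (.rel (nat_lit 335577105)) .nil)) .nil)) (.node .leaf (nat_lit 25193570478950687) (.br (nat_lit 4) (.cons (.br (nat_lit 3) (.cons (.rel (nat_lit 1342193697)) (.cons (.rel (nat_lit 1342178592)) .nil))) .nil)) .leaf)) (nat_lit 25193570479156576) (.br (nat_lit 0) (.cons (.br (nat_lit 1) (.cons (.rel (nat_lit 21234240)) .nil)) .nil)) (.node (.node .leaf (nat_lit 25193570480135551) (.br (nat_lit 0) (.cons (.br (nat_lit 1) (.cons (.rel (nat_lit 20972037)) .nil)) .nil)) .leaf) (nat_lit 25193570480147112) (.br (nat_lit 0) (.cons (.br (nat_lit 1) (.cons (.rel (nat_lit 21004305)) (.cons (.rel (nat_lit 21054465)) .nil))) .nil)) (.node .leaf (nat_lit 25193570480179836) (.br (nat_lit 0) (.cons (.br (nat_lit 1) (.cons (.rel (nat_lit 41947140)) .nil)) .nil)) .leaf)))) (nat_lit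 25193570480196264) (.br (nat_lit 2) (.cons (.br (nat_lit 3) (.cons (.rel (nat_lit 335627265)) .nil)) .nil)) (.node (.node (.node (.node (.node .leaf (nat_lit 25193570481416872) (.br (nat_lit 0) (.cons (.br (nat_lit 1) (.cons (.rel (nat_lit 22020240)) (.cons (.rel (nat_lit 20989200)) .nil))) (.cons (.br (nat_lit 1) (.cons (.rel (nat_lit 21004305)) (.cons (.rel (nat_lit 21054465)) .nil))) .nil))) .leaf) (nat_lit 25193570481662588) (.br (nat_lit 0) (.cons (.br (nat_lit 2) (.cons (.rel (nat_lit 142606656)) .nil)) .nil)) .leaf) (nat_lit 25193570481732220) (.br (nat_lit 0) (.cons (.br (nat_lit 3) (.cons (.rel (nat_lit 272631840)) .nil)) .nil)) (.node .leaf (nat_lit 25193570481764639) (.br (nat_lit 0) (.cons (.br (nat_lit 1) (.cons (.rel (nat_lit 38076420)) .nil)) .nil)) .leaf)) (nat_lit 25193570481774879) (.br (nat_lit 0) (.cons (.br (nat_lit 5) (.cons (.rel (nat_lit 4299195393)) .nil)) .nil)) (.node (.node .leaf (nat_lit 25193570481775992) (.br (nat_lit 0) (.cons (.br (nat_lit 4) (.cons (.rel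 (nat_lit 1082147841)) .nil)) .nil)) .leaf) (nat_lit 25193570675741308) (.br (nat_lit 2) (.cons (.br (nat_lit 3) (.cons (.rel (nat_lit 336593040)) (.cons (.rel (nat_lit 335675412)) .nil))) .nil)) (.node .leaf (nat_lit 25193570677267068) (.br (nat_lit 1) (.cons (.br (nat_lit 3) (.cons (.rel (nat_lit 570687744)) .nil)) .nil)) .leaf))) (nat_lit 25193570677279356) (.br (nat_lit 0) (.cons (.br (nat_lit 2) (.cons (.rel (nat_lit 71569668)) .nil)) .nil)) (.node (.node (.node (.node .leaf (nat_lit 25193571510961530) (.br (nat_lit 0) (.cons (.br (nat_lit 2) (.cons (.rel (nat_lit 138412305)) .nil)) .nil)) .leaf) (nat_lit 25193571513008415) (.br (nat_lit 2) (.cons (.br (nat_lit 0) (.cons (.rel (nat_lit 142606656)) (.cons (.rel (nat_lit 71647248)) .nil))) .nil)) .leaf) (nat_lit 25193571513010202) (.br (nat_lit 0) (.cons (.br (nat_lit 3) (.cons (.rel (nat_lit 272639232)) .nil)) .nil)) (.node .leaf (nat_lit 25193571531378689) (.br (nat_lit 0) (.cons (.br (nat_lit 3) (.cons (.rel (nat_lit 272631840)) .nil))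 .nil)) .leaf)) (nat_lit 25193571531926311) (.br (nat_lit 3) (.cons (.br (nat_lit 6) (.cons (.rel (nat_lit 17448338433)) (.cons (.rel (nat_lit 17717133312)) .nil))) .nil)) (.node (.node .leaf (nat_lit 25193571531933055) (.br (nat_lit 3) (.cons (.br (nat_lit 6) (.cons (.rel (nat_lit 17448309000)) .nil)) .nil)) .leaf) (nat_lit 25193571533971492) (.br (nat_lit 4) (.cons (.br (nat_lit 0) (.cons (.rel (nat_lit 1082134560)) (.cons (.rel (nat_lit 2151679488)) .nil))) .nil)) (.node .leaf (nat_lit 25193571618420737) (.br (nat_lit 0) (.cons (.br (nat_lit 3) (.cons (.rel (nat_lit 272631840)) .nil)) .nil)) .leaf))))))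

/-- refutations 104 -/
def e104 : EX := (.node (.node (.node (.node (.node .leaf (nat_lit 25194424842162363) (.br (nat_lit 2) (.cons (.br (nat_lit 3) (.cons (.rel (nat_lit 335613984)) .nil)) .nil)) .leaf) (nat_lit 25194598740555928) (.br (nat_lit 1) (.cons (.br (nat_lit 3) (.cons (.rel (nat_lit 286262280)) .nil)) .nil)) .leaf) (nat_lit 25197488713520511) (.br (nat_lit 0) (.cons (.br (nat_lit 2) (.cons (.rel (nat_lit 71647248)) .nil)) .nil)) (.node .leaf (nat_lit 25197594397389100) (.br (nat_lit 0) (.cons (.br (nat_lit 2) (.cons (.rel (nat_lit 71647248)) .nil)) .nil)) .leaf)) (nat_lit 25197594398922784) (.br (nat_lit 0) (.cons (.br (nat_lit 1) (.cons (.rel (nat_lit 22283265)) .nil)) .nil)) (.node (.node .leaf (nat_lit 25197594398978348) (.br (nat_lit 5) (.cons (.br (nat_lit 0) (.cons (.rel (nat_lit 4299292689)) (.cons (.rel (nat_lit 4299165960)) .nil))) .nil)) .leaf) (nat_lit 25197594400217388) (.br (nat_lit 0) (.cons (.br (nat_lit 6) (.cons (.rel (nat_lit 17184358416)) .nil)) .nil)) (.node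 .leaf (nat_lit 25197597228895708) (.br (nat_lit 1) (.cons (.br (nat_lit 2) (.cons (.rel (nat_lit 83903490)) .nil)) .nil)) .leaf))) (nat_lit 25197597228916188) (.br (nat_lit 1) (.cons (.br (nat_lit 3) (.cons (.rel (nat_lit 286285824)) .nil)) .nil)) (.node (.node (.node .leaf (nat_lit 25197597231156500) (.br (nat_lit 3) (.cons (.br (nat_lit 6) (.cons (.rel (nat_lit 17448435729)) .nil)) .nil)) .leaf) (nat_lit 25197597649878392) (.br (nat_lit 0) (.cons (.br (nat_lit 3) (.cons (.rel (nat_lit 272695812)) .nil)) .nil)) (.node .leaf (nat_lit 25197597696929044) (.br (nat_lit 1) (.cons (.br (nat_lit 2) (.cons (.rel (nat_lit 83886372)) .nil)) .nil)) .leaf)) (nat_lit 25197826586231660) (.br (nat_lit 0) (.cons (.br (nat_lit 4) (.cons (.rel (nat_lit 2151747588)) .nil)) .nil)) (.node (.node .leaf (nat_lit 25198933945395355) (.br (nat_lit 0) (.cons (.br (nat_lit 2) (.cons (.rel (nat_lit 75628545)) .nil)) .nil)) .leaf) (nat_lit 25198933945455518) (.br (nat_lit 0) (.cons (.br (nat_lit 4) (.cons (.rel (nat_lit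 1082134560)) .nil)) .nil)) (.node .leaf (nat_lit 25199750701977107) (.br (nat_lit 0) (.cons (.br (nat_lit 2) (.cons (.rel (nat_lit 142606656)) .nil)) .nil)) .leaf))))

/-- refutations 105 -/
def e105 : EX := (.node (.node (.node (.node (.node (.node .leaf (nat_lit 25199784960733440) (.br (nat_lit 2) (.cons (.br (nat_lit 3) (.cons (.rel (nat_lit 335807040)) .nil)) .nil)) .leaf) (nat_lit 25199785090756864) (.br (nat_lit 3) (.cons (.br (nat_lit 5) (.cons (.rel (nat_lit 4564451346)) .nil)) .nil)) (.node .leaf (nat_lit 25199785090847007) (.br (nat_lit 1) (.cons (.br (nat_lit 2) (.cons (.rel (nat_lit 83886372)) .nil)) .nil)) .leaf)) (nat_lit 25199785092285851) (.br (nat_lit 2) (.cons (.br (nat_lit 0) (.cons (.rel (nat_lit 71303808)) (.cons (.rel (nat_lit 71697408)) .nil))) .nil)) (.node (.node .leaf (nat_lit 25199785093819004) (.br (nat_lit 1) (.cons (.br (nat_lit 5) (.cons (.rel (nat_lit 4328521737)) .nil)) .nil)) .leaf) (nat_lit 25199785093837056) (.br (nat_lit 0) (.cons (.br (nat_lit 1) (.cons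 (.rel (nat_lit 21005316)) .nil)) .nil)) (.node .leaf (nat_lit 25199785093838235) (.br (nat_lit 0) (.cons (.br (nat_lit 4) (.cons (.rel (nat_lit 1077936516)) (.cons (.rel (nat_lit 2151747588)) .nil))) .nil)) .leaf))) (nat_lit 25199785093888256) (.br (nat_lit 0) (.cons (.br (nat_lit 2) (.cons (.rel (nat_lit 72876048)) .nil)) .nil)) (.node (.node (.node .leaf (nat_lit 25199788127423100) (.br (nat_lit 3) (.cons (.br (nat_lit 0) (.cons (.rel (nat_lit 272631840)) (.cons (.rel (nat_lit 545260560)) .nil))) .nil)) .leaf) (nat_lit 25199788127423899) (.br (nat_lit 2) (.cons (.br (nat_lit 4) (.cons (.br (nat_lit 0) (.cons (.rel (nat_lit 75628545)) (.cons (.rel (nat_lit 1082132736)) (.cons (.rel (nat_lit 75628545)) .nil)))) .nil)) .nil)) (.node .leaf (nat_lit 25199789591335199) (.br (nat_lit 0) (.cons (.br (nat_lit 1) (.cons (.rel (nat_lit 21234240)) .nil)) .nil)) .leaf)) (nat_lit 25199789594307196) (.br (nat_lit 0) (.cons (.br (nat_lit 1) (.cons (.rel (nat_lit 21234240)) .nil)) .nil)) (.node (.node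 .leaf (nat_lit 25199790599259547) (.br (nat_lit 2) (.cons (.br (nat_lit 0) (.cons (.rel (nat_lit 71697408)) (.cons (.rel (nat_lit 71303808)) .nil))) .nil)) .leaf) (nat_lit 25199790600797595) (.br (nat_lit 2) (.cons (.br (nat_lit 4) (.cons (.rel (nat_lit 1140852864)) .nil)) .nil)) .leaf))) (nat_lit 25199956658752164) (.br (nat_lit 2) (.cons (.br (nat_lit 0) (.cons (.rel (nat_lit 142606656)) (.cons (.rel (nat_lit 138417153)) .nil))) .nil)) (.node (.node (.node (.node .leaf (nat_lit 25199956658753847) (.br (nat_lit 6) (.cons (.br (nat_lit 0) (.cons (.rel (nat_lit 34363932948)) (.cons (.rel (nat_lit 34363949064)) .nil))) .nil)) .leaf) (nat_lit 25199956661936760) (.br (nat_lit 0) (.cons (.br (nat_lit 3) (.cons (.rel (nat_lit 272629782)) (.cons (.rel (nat_lit 272630793)) .nil))) .nil)) (.node .leaf (nat_lit 25199956661937528) (.br (nat_lit 3) (.cons (.br (nat_lit 0) (.cons (.rel (nat_lit 274007040)) (.cons (.rel (nat_lit 272631840)) .nil))) .nil)) .leaf)) (nat_lit 25200051118682412) (.br (nat_lit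 1) (.cons (.br (nat_lit 3) (.cons (.rel (nat_lit 570687744)) (.cons (.rel (nat_lit 285220929)) (.cons (.rel (nat_lit 285344832)) .nil)))) (.cons (.br (nat_lit 2) (.cons (.rel (nat_lit 83952648)) (.cons (.rel (nat_lit 83890209)) .nil))) .nil))) (.node (.node .leaf (nat_lit 25200051118683519) (.br (nat_lit 1) (.cons (.br (nat_lit 3) (.cons (.rel (nat_lit 285294672)) (.cons (.rel (nat_lit 570687744)) .nil))) .nil)) .leaf) (nat_lit 25200051118691711) (.br (nat_lit 1) (.cons (.br (nat_lit 6) (.cons (.rel (nat_lit 17196646689)) (.cons (.rel (nat_lit 17213685762)) .nil))) (.cons (.br (nat_lit 4) (.cons (.rel (nat_lit 1090519080)) (.cons (.rel (nat_lit 1090519080)) .nil))) .nil))) .leaf)) (nat_lit 25200051118692983) (.br (nat_lit 0) (.cons (.br (nat_lit 1) (.cons (.rel (nat_lit 20979720)) .nil)) .nil)) (.node (.node (.node .leaf (nat_lit 25200051120217471) (.br (nat_lit 1) (.cons (.br (nat_lit 6) (.cons (.rel (nat_lit 17196652548)) .nil)) .nil)) .leaf) (nat_lit 25200051120261381) (.br (nat_lit 0)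 (.cons (.br (nat_lit 2) (.cons (.rel (nat_lit 71636994)) .nil)) .nil)) (.node .leaf (nat_lit 25200051120261425) (.br (nat_lit 0) (.cons (.br (nat_lit 1) (.cons (.rel (nat_lit 39845889)) .nil)) .nil)) .leaf)) (nat_lit 25200051120271660) (.br (nat_lit 1) (.cons (.br (nat_lit 2) (.cons (.rel (nat_lit 83890209)) (.cons (.rel (nat_lit 83890209)) .nil))) .nil)) (.node (.node .leaf (nat_lit 25200051121510700) (.br (nat_lit 1) (.cons (.br (nat_lit 2) (.cons (.rel (nat_lit 83891220)) .nil)) .nil)) .leaf) (nat_lit 25200051121846572) (.br (nat_lit 0) (.cons (.br (nat_lit 1) (.cons (.rel (nat_lit 21004305)) .nil)) .nil)) .leaf)))) (nat_lit 25200054286916991) (.br (nat_lit 1) (.cons (.br (nat_lit 0) (.cons (.rel (nat_lit 41947140)) (.cons (.rel (nat_lit 21041184)) .nil))) .nil)) (.node (.node (.node (.node (.node .leaf (nat_lit 25200054286960927) (.br (nat_lit 0) (.cons (.br (nat_lit 1) (.cons (.rel (nat_lit 41947140)) .nil)) .nil)) .leaf) (nat_lit 25200055879228023) (.br (nat_lit 0) (.cons (.br (nat_lit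 2) (.cons (.rel (nat_lit 142606656)) .nil)) .nil)) (.node .leaf (nat_lit 25202808617700735) (.br (nat_lit 0) (.cons (.br (nat_lit 3) (.cons (.rel (nat_lit 545260560)) .nil)) .nil)) .leaf)) (nat_lit 25202808617718060) (.br (nat_lit 0) (.cons (.br (nat_lit 3) (.cons (.rel (nat_lit 272631840)) .nil)) .nil)) (.node (.node .leaf (nat_lit 25202808747723388) (.br (nat_lit 2) (.cons (.br (nat_lit 4) (.cons (.rel (nat_lit 2214592776)) .nil)) .nil)) .leaf) (nat_lit 25202808747823391) (.br (nat_lit 0) (.cons (.br (nat_lit 5) (.cons (.rel (nat_lit 4303487040)) .nil)) .nil)) .leaf)) (nat_lit 25202808750897788) (.br (nat_lit 3) (.cons (.br (nat_lit 2) (.cons (.rel (nat_lit 335566848)) (.cons (.rel (nat_lit 335552520)) .nil))) .nil)) (.node (.node (.node .leaf (nat_lit 25202811784399484) (.br (nat_lit 4) (.cons (.br (nat_lit 3) (.cons (.rel (nat_lit 1610891280)) (.cons (.rel (nat_lit 2684358912)) (.cons (.rel (nat_lit 1342178592)) .nil)))) .nil)) .leaf) (nat_lit 25202811784409388) (.br (nat_lit 0) (.cons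 (.br (nat_lit 2) (.cons (.rel (nat_lit 138477570)) .nil)) .nil)) (.node .leaf (nat_lit 25202811784417916) (.br (nat_lit 4) (.cons (.br (nat_lit 5) (.cons (.rel (nat_lit 10737419265)) (.cons (.rel (nat_lit 10737419265)) .nil))) .nil)) .leaf)) (nat_lit 25202811785988732) (.br (nat_lit 1) (.cons (.br (nat_lit 2) (.cons (.rel (nat_lit 83890209)) (.cons (.rel (nat_lit 83919360)) .nil))) .nil)) (.node (.node .leaf (nat_lit 25202811786005116) (.br (nat_lit 1) (.cons (.br (nat_lit 2) (.cons (.rel (nat_lit 83888385)) .nil)) .nil)) .leaf) (nat_lit 25202811786312980) (.br (nat_lit 0) (.cons (.br (nat_lit 1) (.cons (.rel (nat_lit 20975874)) .nil)) .nil)) .leaf))) (nat_lit 25202811787573884) (.br (nat_lit 2) (.cons (.br (nat_lit 4) (.cons (.br (nat_lit 3) (.cons (.rel (nat_lit 335627265)) (.cons (.rel (nat_lit 1342177545)) .nil))) .nil)) .nil)) (.node (.node (.node (.node .leaf (nat_lit 25202813248211580) (.br (nat_lit 4) (.cons (.br (nat_lit 5) (.cons (.br (nat_lit 3) (.cons (.rel (nat_lit 1342181382))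 (.cons (.rel (nat_lit 4563407169)) (.cons (.rel (nat_lit 1342177545)) .nil)))) .nil)) .nil)) .leaf) (nat_lit 25202813248230012) (.br (nat_lit 0) (.cons (.br (nat_lit 5) (.cons (.rel (nat_lit 8594407425)) (.cons (.rel (nat_lit 4299182112)) .nil))) .nil)) (.node .leaf (nat_lit 25202813251283580) (.br (nat_lit 4) (.cons (.br (nat_lit 0) (.cons (.rel (nat_lit 1078198530)) (.cons (.rel (nat_lit 2151747588)) .nil))) .nil)) .leaf)) (nat_lit 25202814254862972) (.br (nat_lit 1) (.cons (.br (nat_lit 2) (.cons (.rel (nat_lit 83886372)) (.cons (.rel (nat_lit 83952648)) .nil))) .nil)) (.node (.node .leaf (nat_lit 25202814256136828) (.br (nat_lit 2) (.cons (.br (nat_lit 4) (.cons (.rel (nat_lit 1140852864)) .nil)) .nil)) .leaf) (nat_lit 25203009461956918) (.br (nat_lit 0) (.cons (.br (nat_lit 6) (.cons (.rel (nat_lit 17184326148)) .nil)) .nil)) .leaf)) (nat_lit 25203232692794725) (.br (nat_lit 0) (.cons (.br (nat_lit 1) (.cons (.rel (nat_lit 22020240)) .nil)) .nil)) (.node (.node (.node .leaf (nat_lit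 25203285697235875) (.br (nat_lit 0) (.cons (.br (nat_lit 1) (.cons (.rel (nat_lit 43274241)) .nil)) .nil)) .leaf) (nat_lit 25203841508916755) (.br (nat_lit 1) (.cons (.br (nat_lit 3) (.cons (.rel (nat_lit 302006277)) .nil)) .nil)) (.node .leaf (nat_lit 25204253723824914) (.br (nat_lit 0) (.cons (.br (nat_lit 1) (.cons (.rel (nat_lit 41947140)) .nil)) .nil)) .leaf)) (nat_lit 25204253725113827) (.br (nat_lit 0) (.cons (.br (nat_lit 1) (.cons (.rel (nat_lit 20975874)) .nil)) .nil)) (.node (.node .leaf (nat_lit 25204253725821828) (.br (nat_lit 0) (.cons (.br (nat_lit 1) (.cons (.rel (nat_lit 21005316)) .nil)) .nil)) .leaf) (nat_lit 25204254847276408) (.br (nat_lit 1) (.cons (.br (nat_lit 5) (.cons (.rel (nat_lit 8606711814)) .nil)) .nil)) .leaf)))))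

/-- refutations 107 -/
def e107 : EX := (.node (.node (.node .leaf (nat_lit 25070153754497324) (.br (nat_lit 0) (.cons (.br (nat_lit 1) (.cons (.rel (nat_lit 20979720)) .nil)) .nil)) .leaf) (nat_lit 25076905862517372) (.br (nat_lit 1) (.cons (.br (nat_lit 2) (.cons (.rel (nat_lit 83891220)) .nil)) .nil)) .leaf) (nat_lit 25079663231521404) (.br (nat_lit 4) (.cons (.br (nat_lit 2) (.cons (.rel (nat_lit 1141113876)) (.cons (.rel (nat_lit 2281702464)) .nil))) .nil)) (.node (.node .leaf (nat_lit 25079663233091891) (.br (nat_lit 1) (.cons (.br (nat_lit 3) (.cons (.rel (nat_lit 553730052)) .nil)) .nil)) .leaf) (nat_lit 25081200829794611) (.br (nat_lit 3) (.cons (.br (nat_lit 5) (.cons (.rel (nat_lit 4563407169)) .nil)) .nil)) .leaf))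

/-- refutations 108 -/
def e108 : EX := (.node (.node (.node (.node .leaf (nat_lit 26388580982623613) (.br (nat_lit 0) (.cons (.br (nat_lit 5) (.cons (.rel (nat_lit 4299180288)) (.cons (.rel (nat_lit 4304404488)) .nil))) .nil)) .leaf) (nat_lit 26390444506450671) (.br (nat_lit 2) (.cons (.br (nat_lit 5) (.cons (.rel (nat_lit 4362142725)) .nil)) .nil)) .leaf) (nat_lit 26390444509275374) (.br (nat_lit 1) (.cons (.br (nat_lit 2) (.cons (.rel (nat_lit 83888385)) .nil)) .nil)) (.node .leaf (nat_lit 26390857315290014) (.br (nat_lit 0) (.cons (.br (nat_lit 1) (.cons (.rel (nat_lit 20994048)) .nil)) .nil)) .leaf)) (nat_lit 26393752121642216) (.br (nat_lit 2) (.cons (.br (nat_lit 3) (.cons (.rel (nat_lit 671092740)) .nil)) .nil)) (.node (.node (.node .leaf (nat_lit 26393752121968797) (.br (nat_lit 0) (.cons (.br (nat_lit 2) (.cons (.rel (nat_lit 72876048)) .nil)) .nil)) .leaf) (nat_lit 26393752122001534) (.br (nat_lit 1) (.cons (.br (nat_lit 4) (.cons (.rel (nat_lit 1090535952)) .nil)) .nil)) .leaf)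 (nat_lit 26393865405617058) (.br (nat_lit 0) (.cons (.br (nat_lit 5) (.cons (.rel (nat_lit 4299292689)) .nil)) .nil)) (.node .leaf (nat_lit 26393865405699304) (.br (nat_lit 2) (.cons (.br (nat_lit 5) (.cons (.rel (nat_lit 4362081297)) .nil)) .nil)) .leaf)))

/-- refutations 109 -/
def e109 : EX := (.node (.node (.node (.node (.node .leaf (nat_lit 26394956180817148) (.br (nat_lit 2) (.cons (.br (nat_lit 6) (.cons (.rel (nat_lit 17247305748)) .nil)) .nil)) .leaf) (nat_lit 26394956180851964) (.br (nat_lit 0) (.cons (.br (nat_lit 1) (.cons (.rel (nat_lit 26214402)) .nil)) .nil)) .leaf) (nat_lit 26394959955725039) (.br (nat_lit 0) (.cons (.br (nat_lit 2) (.cons (.rel (nat_lit 71573505)) .nil)) .nil)) (.node .leaf (nat_lit 26394959956765423) (.br (nat_lit 0) (.cons (.br (nat_lit 3) (.cons (.rel (nat_lit 272891985)) (.cons (.rel (nat_lit 272631840)) .nil))) .nil)) .leaf)) (nat_lit 26394959958455023) (.br (nat_lit 0) (.cons (.br (nat_lit 1) (.cons (.rel (nat_lit 21041184)) .nil)) .nil)) (.node (.node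 .leaf (nat_lit 26394959958549756) (.br (nat_lit 2) (.cons (.br (nat_lit 5) (.cons (.rel (nat_lit 4362076449)) .nil)) .nil)) .leaf) (nat_lit 26395205288919820) (.br (nat_lit 0) (.cons (.br (nat_lit 1) (.cons (.rel (nat_lit 21041184)) .nil)) .nil)) (.node .leaf (nat_lit 26395205435412637) (.br (nat_lit 0) (.cons (.br (nat_lit 2) (.cons (.rel (nat_lit 71303808)) .nil)) .nil)) .leaf))) (nat_lit 26395205435413410) (.br (nat_lit 0) (.cons (.br (nat_lit 5) (.cons (.rel (nat_lit 4299292689)) (.cons (.rel (nat_lit 4299162114)) .nil))) .nil)) (.node (.node (.node .leaf (nat_lit 26396053736500635) (.br (nat_lit 0) (.cons (.br (nat_lit 1) (.cons (.rel (nat_lit 20979720)) .nil)) .nil)) .leaf) (nat_lit 26396054224114590) (.br (nat_lit 0) (.cons (.br (nat_lit 3) (.cons (.rel (nat_lit 272629782)) .nil)) .nil)) (.node .leaf (nat_lit 26399068800745727) (.br (nat_lit 0) (.cons (.br (nat_lit 5) (.cons (.rel (nat_lit 4299227424)) .nil)) .nil)) .leaf)) (nat_lit 26399068800746252) (.br (nat_lit 0) (.cons (.br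 (nat_lit 2) (.cons (.rel (nat_lit 72876048)) .nil)) .nil)) (.node (.node .leaf (nat_lit 26399068803604735) (.br (nat_lit 2) (.cons (.br (nat_lit 6) (.cons (.rel (nat_lit 17247305748)) .nil)) .nil)) .leaf) (nat_lit 26400133952635011) (.br (nat_lit 2) (.cons (.br (nat_lit 3) (.cons (.rel (nat_lit 335552520)) .nil)) .nil)) (.node .leaf (nat_lit 26400577772606701) (.br (nat_lit 0) (.cons (.br (nat_lit 2) (.cons (.rel (nat_lit 71569668)) .nil)) .nil)) .leaf))))

/-- refutations 110 -/
def e110 : EX := (.node .leaf (nat_lit 25275750366380819) (.br (nat_lit 2) (.cons (.br (nat_lit 4) (.cons (.rel (nat_lit 1207963905)) .nil)) .nil)) .leaf)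

/-- refutations 112 -/
def e112 : EX := (.node (.node (.node (.node (.node .leaf (nat_lit 26477839014246700) (.br (nat_lit 0) (.cons (.br (nat_lit 1) (.cons (.rel (nat_lit 20975874)) .nil)) .nil)) .leaf) (nat_lit 26478691009694952) (.br (nat_lit 0) (.cons (.br (nat_lit 2) (.cons (.rel (nat_lit 75579396)) .nil)) .nil)) .leaf) (nat_lit 26481823979002156) (.br (nat_lit 0) (.cons (.br (nat_lit 3) (.cons (.rel (nat_lit 272631840)) .nil)) .nil)) (.node .leaf (nat_lit 26481823981460356) (.br (nat_lit 0) (.cons (.br (nat_lit 2) (.cons (.rel (nat_lit 72876048)) .nil)) .nil)) .leaf)) (nat_lit 26481826190629764) (.br (nat_lit 2) (.cons (.br (nat_lit 4) (.cons (.rel (nat_lit 1141198848)) .nil)) .nil)) (.node (.node .leaf (nat_lit 26481826289784084) (.br (nat_lit 0) (.cons (.br (nat_lit 1) (.cons (.rel (nat_lit 21041184)) .nil)) .nil)) .leaf) (nat_lit 26481826335821032) (.br (nat_lit 0) (.cons (.br (nat_lit 3) (.cons (.rel (nat_lit 272654337)) .nil)) .nil)) (.node .leaf (nat_lit 26481826335838209) (.br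 (nat_lit 1) (.cons (.br (nat_lit 2) (.cons (.rel (nat_lit 85204992)) .nil)) .nil)) .leaf))) (nat_lit 26481826337113320) (.br (nat_lit 3) (.cons (.br (nat_lit 6) (.cons (.rel (nat_lit 17448325152)) .nil)) .nil)) (.node (.node (.node (.node .leaf (nat_lit 26481827276954387) (.br (nat_lit 1) (.cons (.br (nat_lit 5) (.cons (.rel (nat_lit 4328521737)) .nil)) .nil)) .leaf) (nat_lit 26481829244083432) (.br (nat_lit 0) (.cons (.br (nat_lit 4) (.cons (.rel (nat_lit 1082134560)) .nil)) .nil)) .leaf) (nat_lit 26482056671775996) (.br (nat_lit 2) (.cons (.br (nat_lit 3) (.cons (.rel (nat_lit 335552520)) .nil)) .nil)) (.node .leaf (nat_lit 26484281465190700) (.br (nat_lit 1) (.cons (.br (nat_lit 3) (.cons (.rel (nat_lit 285737472)) .nil)) .nil)) .leaf)) (nat_lit 26488138344009915) (.br (nat_lit 0) (.cons (.br (nat_lit 3) (.cons (.rel (nat_lit 272778240)) .nil)) .nil)) (.node (.node .leaf (nat_lit 26488578024409240) (.br (nat_lit 2) (.cons (.br (nat_lit 3) (.cons (.rel (nat_lit 604274688)) .nil)) .nil))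 .leaf) (nat_lit 26488580931062695) (.br (nat_lit 0) (.cons (.br (nat_lit 3) (.cons (.rel (nat_lit 272631840)) .nil)) .nil)) (.node .leaf (nat_lit 26489187868151162) (.br (nat_lit 0) (.cons (.br (nat_lit 2) (.cons (.rel (nat_lit 75563280)) .nil)) .nil)) .leaf))))

/-- refutations 113 -/
def e113 : EX := (.node (.node (.node (.node .leaf (nat_lit 26564463868317203) (.br (nat_lit 0) (.cons (.br (nat_lit 1) (.cons (.rel (nat_lit 22020240)) .nil)) .nil)) .leaf) (nat_lit 26566454367226483) (.br (nat_lit 3) (.cons (.br (nat_lit 4) (.cons (.rel (nat_lit 1342183440)) .nil)) .nil)) (.node .leaf (nat_lit 26566454367227112) (.br (nat_lit 0) (.cons (.br (nat_lit 2) (.cons (.rel (nat_lit 142606656)) .nil)) .nil)) .leaf)) (nat_lit 26566454368617075) (.br (nat_lit 2) (.cons (.br (nat_lit 3) (.cons (.rel (nat_lit 335552520)) .nil)) .nil)) (.node (.node .leaf (nat_lit 26566456971908328) (.br (nat_lit 4) (.cons (.br (nat_lit 2) (.cons (.rel (nat_lit 2281702464)) (.cons (.rel (nat_lit 1207963905)) .nil))) .nil))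 .leaf) (nat_lit 26566458020729017) (.br (nat_lit 1) (.cons (.br (nat_lit 6) (.cons (.rel (nat_lit 17196711954)) .nil)) .nil)) (.node .leaf (nat_lit 26566458022064785) (.br (nat_lit 2) (.cons (.br (nat_lit 4) (.cons (.rel (nat_lit 2214659088)) (.cons (.rel (nat_lit 1142964480)) .nil))) .nil)) .leaf))) (nat_lit 26566834929030397) (.br (nat_lit 3) (.cons (.br (nat_lit 6) (.cons (.rel (nat_lit 17448309000)) .nil)) .nil)) (.node (.node (.node .leaf (nat_lit 26566835366763403) (.br (nat_lit 1) (.cons (.br (nat_lit 3) (.cons (.rel (nat_lit 302055426)) .nil)) .nil)) .leaf) (nat_lit 26571130945211918) (.br (nat_lit 0) (.cons (.br (nat_lit 1) (.cons (.rel (nat_lit 21234240)) .nil)) .nil)) (.node .leaf (nat_lit 26575002404934268) (.br (nat_lit 3) (.cons (.br (nat_lit 4) (.cons (.rel (nat_lit 1342193697)) .nil)) .nil)) .leaf)) (nat_lit 26576035055143788) (.br (nat_lit 0) (.cons (.br (nat_lit 5) (.cons (.rel (nat_lit 4299162114)) .nil)) .nil)) (.node (.node .leaf (nat_lit 26576035055144173) (.br (nat_lit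 0) (.cons (.br (nat_lit 3) (.cons (.rel (nat_lit 272699649)) .nil)) .nil)) .leaf) (nat_lit 26577106939219475) (.br (nat_lit 2) (.cons (.br (nat_lit 3) (.cons (.rel (nat_lit 671092740)) .nil)) .nil)) .leaf)))

/-- refutations 114 -/
def e114 : EX := (.node (.node (.node (.node .leaf (nat_lit 26599919049869472) (.br (nat_lit 2) (.cons (.br (nat_lit 0) (.cons (.rel (nat_lit 138417153)) (.cons (.rel (nat_lit 71569668)) .nil))) .nil)) .leaf) (nat_lit 26601628056440964) (.br (nat_lit 0) (.cons (.br (nat_lit 1) (.cons (.rel (nat_lit 21039360)) .nil)) .nil)) .leaf) (nat_lit 26601628056678532) (.br (nat_lit 0) (.cons (.br (nat_lit 1) (.cons (.rel (nat_lit 21041184)) .nil)) .nil)) (.node .leaf (nat_lit 26601631093098656) (.br (nat_lit 3) (.cons (.br (nat_lit 4) (.cons (.rel (nat_lit 1342177545)) .nil)) .nil)) .leaf)) (nat_lit 26601631094390944) (.br (nat_lit 0) (.cons (.br (nat_lit 2) (.cons (.rel (nat_lit 142606656)) .nil)) .nil)) (.node (.node (.node .leaf (nat_lit 26601765885710496) (.br (nat_lit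 0) (.cons (.br (nat_lit 2) (.cons (.rel (nat_lit 142606656)) .nil)) .nil)) .leaf) (nat_lit 26601765885774000) (.br (nat_lit 1) (.cons (.br (nat_lit 3) (.cons (.rel (nat_lit 553668624)) .nil)) .nil)) .leaf) (nat_lit 26601765886738592) (.br (nat_lit 0) (.cons (.br (nat_lit 1) (.cons (.rel (nat_lit 21234240)) .nil)) .nil)) (.node .leaf (nat_lit 26601767361851568) (.br (nat_lit 0) (.cons (.br (nat_lit 2) (.cons (.rel (nat_lit 71647248)) .nil)) .nil)) .leaf)))

/-- refutations 115 -/
def e115 : EX := (.node (.node .leaf (nat_lit 26604971382301972) (.br (nat_lit 0) (.cons (.br (nat_lit 1) (.cons (.rel (nat_lit 41947140)) .nil)) .nil)) .leaf) (nat_lit 26611688968275176) (.br (nat_lit 2) (.cons (.br (nat_lit 3) (.cons (.rel (nat_lit 402718788)) .nil)) .nil)) .leaf)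

/-- refutations 117 -/
def e117 : EX := (.node (.node (.node (.node (.node .leaf (nat_lit 26829432909431420) (.br (nat_lit 1) (.cons (.br (nat_lit 2) (.cons (.rel (nat_lit 83902488)) .nil)) .nil)) .leaf) (nat_lit 26829436160016695) (.br (nat_lit 3) (.cons (.br (nat_lit 5) (.cons (.rel (nat_lit 9127071744)) .nil)) .nil)) .leaf) (nat_lit 26829438240254263) (.br (nat_lit 2) (.cons (.br (nat_lit 3) (.cons (.rel (nat_lit 335544837)) .nil)) .nil)) (.node .leaf (nat_lit 26829438241483063) (.br (nat_lit 1) (.cons (.br (nat_lit 2) (.cons (.rel (nat_lit 83919360)) .nil)) .nil)) .leaf)) (nat_lit 26830233853722749) (.br (nat_lit 1) (.cons (.br (nat_lit 2) (.cons (.rel (nat_lit 167788800)) .nil)) .nil)) (.node (.node (.node .leaf (nat_lit 26830326262679684) (.br (nat_lit 0) (.cons (.br (nat_lit 1) (.cons (.rel (nat_lit 21004305)) .nil)) .nil)) .leaf) (nat_lit 26830326865430660) (.br (nat_lit 0) (.cons (.br (nat_lit 5) (.cons (.rel (nat_lit 4299227424)) .nil)) .nil)) .leaf) (nat_lit 26830332029847684)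 (.br (nat_lit 1) (.cons (.br (nat_lit 3) (.cons (.rel (nat_lit 570687744)) .nil)) .nil)) (.node .leaf (nat_lit 26830464304042160) (.br (nat_lit 1) (.cons (.br (nat_lit 4) (.cons (.rel (nat_lit 1090555905)) .nil)) .nil)) .leaf))) (nat_lit 26830464304287920) (.br (nat_lit 0) (.cons (.br (nat_lit 1) (.cons (.rel (nat_lit 41947140)) .nil)) .nil)) (.node (.node (.node (.node .leaf (nat_lit 26830464304384160) (.br (nat_lit 6) (.cons (.br (nat_lit 0) (.cons (.rel (nat_lit 17184071808)) (.cons (.rel (nat_lit 17189568513)) .nil))) .nil)) .leaf) (nat_lit 26830466485080065) (.br (nat_lit 5) (.cons (.br (nat_lit 6) (.cons (.rel (nat_lit 21474852882)) .nil)) .nil)) .leaf) (nat_lit 26830466485080691) (.br (nat_lit 0) (.cons (.br (nat_lit 3) (.cons (.rel (nat_lit 272778240)) .nil)) .nil)) (.node .leaf (nat_lit 26830466485080700) (.br (nat_lit 0) (.cons (.br (nat_lit 3) (.cons (.rel (nat_lit 272630793)) .nil)) .nil)) .leaf)) (nat_lit 26830466951921840) (.br (nat_lit 0) (.cons (.br (nat_lit 3) (.cons (.rel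 (nat_lit 272630793)) .nil)) .nil)) (.node (.node .leaf (nat_lit 26830469002216324) (.br (nat_lit 2) (.cons (.br (nat_lit 6) (.cons (.rel (nat_lit 17249076228)) .nil)) .nil)) .leaf) (nat_lit 26830469003201412) (.br (nat_lit 0) (.cons (.br (nat_lit 1) (.cons (.rel (nat_lit 21234240)) .nil)) .nil)) (.node .leaf (nat_lit 26830469032389244) (.br (nat_lit 1) (.cons (.br (nat_lit 4) (.cons (.rel (nat_lit 2181038100)) .nil)) .nil)) .leaf))))

/-- refutations 118 -/
def e118 : EX := (.node (.node (.node (.node .leaf (nat_lit 26838840948755733) (.br (nat_lit 1) (.cons (.br (nat_lit 2) (.cons (.rel (nat_lit 83902488)) .nil)) .nil)) .leaf) (nat_lit 26838840948765973) (.br (nat_lit 2) (.cons (.br (nat_lit 4) (.cons (.rel (nat_lit 1140852864)) .nil)) .nil)) (.node .leaf (nat_lit 26839294253486136) (.br (nat_lit 0) (.cons (.br (nat_lit 1) (.cons (.rel (nat_lit 20972037)) .nil)) .nil)) .leaf)) (nat_lit 26839294255005752) (.br (nat_lit 0) (.cons (.br (nat_lit 3) (.cons (.rel (nat_lit 272631840)) .nil)) .nil))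 (.node (.node .leaf (nat_lit 26839356593426743) (.br (nat_lit 4) (.cons (.br (nat_lit 0) (.cons (.rel (nat_lit 1078198530)) (.cons (.rel (nat_lit 2151747588)) .nil))) .nil)) .leaf) (nat_lit 26839356596479208) (.br (nat_lit 1) (.cons (.br (nat_lit 2) (.cons (.rel (nat_lit 83902488)) .nil)) .nil)) (.node .leaf (nat_lit 26840387891506063) (.br (nat_lit 3) (.cons (.br (nat_lit 5) (.cons (.rel (nat_lit 4564451346)) .nil)) .nil)) .leaf))) (nat_lit 26841243547881604) (.br (nat_lit 0) (.cons (.br (nat_lit 1) (.cons (.br (nat_lit 3) (.cons (.rel (nat_lit 285737472)) (.cons (.rel (nat_lit 553779201)) (.cons (.rel (nat_lit 289701888)) .nil)))) .nil)) .nil)) (.node (.node (.node .leaf (nat_lit 26841246148433183) (.br (nat_lit 0) (.cons (.br (nat_lit 5) (.cons (.rel (nat_lit 4299169797)) .nil)) .nil)) .leaf) (nat_lit 26841281678281511) (.br (nat_lit 1) (.cons (.br (nat_lit 6) (.cons (.rel (nat_lit 17196711954)) .nil)) .nil)) (.node .leaf (nat_lit 26841281678642559) (.br (nat_lit 1) (.cons (.br (nat_lit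 2) (.cons (.rel (nat_lit 83902488)) .nil)) .nil)) .leaf)) (nat_lit 26841281679819559) (.br (nat_lit 2) (.cons (.br (nat_lit 6) (.cons (.rel (nat_lit 17247242496)) .nil)) .nil)) (.node (.node .leaf (nat_lit 26841281679820159) (.br (nat_lit 1) (.cons (.br (nat_lit 2) (.cons (.rel (nat_lit 83902488)) .nil)) .nil)) .leaf) (nat_lit 26841281679870759) (.br (nat_lit 1) (.cons (.br (nat_lit 2) (.cons (.rel (nat_lit 152109057)) .nil)) .nil)) (.node .leaf (nat_lit 26841281680194343) (.br (nat_lit 1) (.cons (.br (nat_lit 2) (.cons (.rel (nat_lit 83903490)) .nil)) .nil)) .leaf))))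

/-- refutations 119 -/
def e119 : EX := (.node .leaf (nat_lit 26587611333164284) (.br (nat_lit 0) (.cons (.br (nat_lit 1) (.cons (.rel (nat_lit 20972037)) .nil)) .nil)) .leaf)

/-- refutations 120 -/
def e120 : EX := (.node (.node (.node (.node (.node .leaf (nat_lit 26935016596459825) (.br (nat_lit 0) (.cons (.br (nat_lit 1) (.cons (.rel (nat_lit 38076420)) .nil)) .nil)) .leaf) (nat_lit 26935016596460182) (.br (nat_lit 0) (.cons (.br (nat_lit 3) (.cons (.rel (nat_lit 272728080)) .nil)) .nil)) .leaf) (nat_lit 26936043215278265) (.br (nat_lit 0) (.cons (.br (nat_lit 1) (.cons (.rel (nat_lit 20972037)) .nil)) .nil)) (.node .leaf (nat_lit 26936043215523997) (.br (nat_lit 0) (.cons (.br (nat_lit 1) (.cons (.rel (nat_lit 20972037)) .nil)) .nil)) .leaf)) (nat_lit 26936043216804025) (.br (nat_lit 0) (.cons (.br (nat_lit 4) (.cons (.rel (nat_lit 1080034320)) .nil)) .nil)) (.node (.node .leaf (nat_lit 26936043216805145) (.br (nat_lit 0) (.cons (.br (nat_lit 4) (.cons (.rel (nat_lit 1082134560)) .nil))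 .nil)) .leaf) (nat_lit 26936043218329785) (.br (nat_lit 1) (.cons (.br (nat_lit 2) (.cons (.rel (nat_lit 83890209)) .nil)) .nil)) (.node .leaf (nat_lit 26936045837266303) (.br (nat_lit 0) (.cons (.br (nat_lit 2) (.cons (.rel (nat_lit 72876048)) .nil)) .nil)) .leaf))) (nat_lit 26936045838095222) (.br (nat_lit 0) (.cons (.br (nat_lit 3) (.cons (.rel (nat_lit 545260560)) .nil)) .nil)) (.node (.node (.node (.node .leaf (nat_lit 26936045839312255) (.br (nat_lit 0) (.cons (.br (nat_lit 3) (.cons (.rel (nat_lit 545260560)) .nil)) .nil)) .leaf) (nat_lit 26936047388611342) (.br (nat_lit 1) (.cons (.br (nat_lit 2) (.cons (.rel (nat_lit 83919360)) .nil)) .nil)) .leaf) (nat_lit 26936047389987443) (.br (nat_lit 0) (.cons (.br (nat_lit 6) (.cons (.rel (nat_lit 17184334881)) .nil)) .nil)) (.node .leaf (nat_lit 26936047391204138) (.br (nat_lit 0) (.cons (.br (nat_lit 3) (.cons (.rel (nat_lit 272629782)) .nil)) .nil)) .leaf)) (nat_lit 26936047391513876) (.br (nat_lit 1) (.cons (.br (nat_lit 3) (.cons (.rel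 (nat_lit 553718784)) .nil)) .nil)) (.node (.node .leaf (nat_lit 26936047391662966) (.br (nat_lit 0) (.cons (.br (nat_lit 1) (.cons (.rel (nat_lit 20972037)) .nil)) .nil)) .leaf) (nat_lit 26936048526889711) (.br (nat_lit 1) (.cons (.br (nat_lit 2) (.cons (.rel (nat_lit 83919360)) .nil)) .nil)) (.node .leaf (nat_lit 26939060906663295) (.br (nat_lit 0) (.cons (.br (nat_lit 6) (.cons (.rel (nat_lit 17188274448)) (.cons (.rel (nat_lit 34363949064)) .nil))) .nil)) .leaf))))

/-- refutations 121 -/
def e121 : EX := (.node (.node (.node (.node .leaf (nat_lit 26939220859109403) (.br (nat_lit 0) (.cons (.br (nat_lit 1) (.cons (.rel (nat_lit 20975874)) .nil)) .nil)) .leaf) (nat_lit 26939221491059618) (.br (nat_lit 1) (.cons (.br (nat_lit 3) (.cons (.rel (nat_lit 285220929)) .nil)) .nil)) (.node .leaf (nat_lit 26939221492604180) (.br (nat_lit 0) (.cons (.br (nat_lit 1) (.cons (.rel (nat_lit 21004305)) .nil)) .nil)) .leaf)) (nat_lit 26939221494128825) (.br (nat_lit 0) (.cons (.br (nat_lit 2) (.cons (.rel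 (nat_lit 142606656)) .nil)) .nil)) (.node (.node .leaf (nat_lit 26939223042970900) (.br (nat_lit 1) (.cons (.br (nat_lit 6) (.cons (.rel (nat_lit 17196647700)) .nil)) .nil)) .leaf) (nat_lit 26939225667312916) (.br (nat_lit 1) (.cons (.br (nat_lit 2) (.cons (.rel (nat_lit 83890209)) .nil)) .nil)) .leaf)) (nat_lit 26940182365556862) (.br (nat_lit 0) (.cons (.br (nat_lit 1) (.cons (.rel (nat_lit 41944353)) .nil)) .nil)) (.node (.node (.node .leaf (nat_lit 26944395123118337) (.br (nat_lit 0) (.cons (.br (nat_lit 1) (.cons (.rel (nat_lit 41947140)) .nil)) .nil)) .leaf) (nat_lit 26945461956923518) (.br (nat_lit 0) (.cons (.br (nat_lit 2) (.cons (.rel (nat_lit 71569668)) .nil)) .nil)) .leaf) (nat_lit 26945461959826070) (.br (nat_lit 2) (.cons (.br (nat_lit 6) (.cons (.rel (nat_lit 34426851840)) .nil)) .nil)) (.node (.node .leaf (nat_lit 26945752462807702) (.br (nat_lit 0) (.cons (.br (nat_lit 1) (.cons (.rel (nat_lit 20972037)) .nil)) .nil)) .leaf) (nat_lit 26945752465710443) (.br (nat_lit 0) (.cons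 (.br (nat_lit 2) (.cons (.rel (nat_lit 75628545)) .nil)) .nil)) .leaf)))

/-- refutations 123 -/
def e123 : EX := (.node (.node (.node (.node (.node (.node .leaf (nat_lit 26952393949131007) (.br (nat_lit 0) (.cons (.br (nat_lit 1) (.cons (.rel (nat_lit 41947140)) .nil)) .nil)) .leaf) (nat_lit 26952617919572275) (.br (nat_lit 0) (.cons (.br (nat_lit 1) (.cons (.rel (nat_lit 20975874)) .nil)) .nil)) .leaf) (nat_lit 26952789083392287) (.br (nat_lit 0) (.cons (.br (nat_lit 3) (.cons (.rel (nat_lit 272629782)) .nil)) .nil)) (.node (.node .leaf (nat_lit 26952789085858472) (.br (nat_lit 0) (.cons (.br (nat_lit 1) (.cons (.rel (nat_lit 38076420)) .nil)) .nil)) .leaf) (nat_lit 26953643446339871) (.br (nat_lit 2) (.cons (.br (nat_lit 0) (.cons (.rel (nat_lit 71569668)) (.cons (.rel (nat_lit 138412305)) .nil))) .nil)) .leaf)) (nat_lit 26953643446340860) (.br (nat_lit 0) (.cons (.br (nat_lit 2) (.cons (.rel (nat_lit 138413316)) (.cons (.rel (nat_lit 138690624)) .nil))) .nil)) (.node (.node (.node .leaf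 (nat_lit 26953643446544571) (.br (nat_lit 1) (.cons (.br (nat_lit 3) (.cons (.rel (nat_lit 285344832)) .nil)) .nil)) .leaf) (nat_lit 26953643448899771) (.br (nat_lit 0) (.cons (.br (nat_lit 5) (.cons (.rel (nat_lit 4299162114)) .nil)) .nil)) .leaf) (nat_lit 26953643449164063) (.br (nat_lit 1) (.cons (.br (nat_lit 2) (.cons (.rel (nat_lit 83952648)) .nil)) .nil)) (.node .leaf (nat_lit 26953643570704639) (.br (nat_lit 4) (.cons (.br (nat_lit 5) (.cons (.rel (nat_lit 5368710168)) .nil)) .nil)) .leaf))) (nat_lit 26953643570798847) (.br (nat_lit 1) (.cons (.br (nat_lit 4) (.cons (.rel (nat_lit 1090520082)) .nil)) .nil)) (.node (.node (.node (.node .leaf (nat_lit 26953644082504980) (.br (nat_lit 3) (.cons (.br (nat_lit 4) (.cons (.rel (nat_lit 1342183440)) .nil)) .nil)) .leaf) (nat_lit 26953646566903160) (.br (nat_lit 3) (.cons (.br (nat_lit 6) (.cons (.rel (nat_lit 17448305154)) (.cons (.rel (nat_lit 17448325152)) .nil))) .nil)) .leaf) (nat_lit 26953646567113615) (.br (nat_lit 2) (.cons (.br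 (nat_lit 3) (.cons (.rel (nat_lit 335548674)) .nil)) .nil)) (.node (.node .leaf (nat_lit 26953646569727352) (.br (nat_lit 2) (.cons (.br (nat_lit 6) (.cons (.rel (nat_lit 17247242496)) .nil)) .nil)) .leaf) (nat_lit 26953648709849089) (.br (nat_lit 0) (.cons (.br (nat_lit 3) (.cons (.rel (nat_lit 272654337)) .nil)) .nil)) .leaf)) (nat_lit 26953648709849724) (.br (nat_lit 0) (.cons (.br (nat_lit 2) (.cons (.br (nat_lit 3) (.cons (.rel (nat_lit 335562000)) .nil)) .nil)) .nil)) (.node (.node (.node .leaf (nat_lit 26953648709850399) (.br (nat_lit 1) (.cons (.br (nat_lit 2) (.cons (.rel (nat_lit 83919360)) .nil)) .nil)) .leaf) (nat_lit 26953648711231524) (.br (nat_lit 0) (.cons (.br (nat_lit 3) (.cons (.rel (nat_lit 272629782)) (.cons (.rel (nat_lit 272629782)) (.cons (.rel (nat_lit 272630793)) .nil)))) (.cons (.br (nat_lit 2) (.cons (.rel (nat_lit 71303808)) (.cons (.rel (nat_lit 71573505)) .nil))) .nil))) .leaf) (nat_lit 26953648711232764) (.br (nat_lit 2) (.cons (.br (nat_lit 4) (.cons (.rel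 (nat_lit 1208092704)) .nil)) .nil)) (.node .leaf (nat_lit 26953648711233015) (.br (nat_lit 4) (.cons (.br (nat_lit 6) (.cons (.rel (nat_lit 35433488385)) .nil)) .nil)) .leaf)))) (nat_lit 26953648711420811) (.br (nat_lit 0) (.cons (.br (nat_lit 3) (.cons (.rel (nat_lit 272891985)) .nil)) .nil)) (.node (.node (.node (.node (.node .leaf (nat_lit 26953648711692915) (.br (nat_lit 0) (.cons (.br (nat_lit 4) (.cons (.rel (nat_lit 1079050560)) .nil)) .nil)) .leaf) (nat_lit 26953648711693590) (.br (nat_lit 0) (.cons (.br (nat_lit 1) (.cons (.rel (nat_lit 25198656)) .nil)) .nil)) .leaf) (nat_lit 26953648712453396) (.br (nat_lit 1) (.cons (.br (nat_lit 3) (.cons (.rel (nat_lit 553779201)) .nil)) .nil)) (.node (.node .leaf (nat_lit 26953648713016696) (.br (nat_lit 3) (.cons (.br (nat_lit 0) (.cons (.rel (nat_lit 272631840)) (.cons (.rel (nat_lit 272629782)) .nil))) .nil)) .leaf) (nat_lit 26956813254880759) (.br (nat_lit 0) (.cons (.br (nat_lit 2) (.cons (.rel (nat_lit 71303808)) .nil)) .nil)) .leaf))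 (nat_lit 26956813256091032) (.br (nat_lit 2) (.cons (.br (nat_lit 3) (.cons (.rel (nat_lit 335577105)) .nil)) .nil)) (.node (.node (.node .leaf (nat_lit 26956813652298384) (.br (nat_lit 3) (.cons (.br (nat_lit 4) (.cons (.rel (nat_lit 2684358912)) .nil)) .nil)) .leaf) (nat_lit 26956813653338892) (.br (nat_lit 2) (.cons (.br (nat_lit 5) (.cons (.rel (nat_lit 4362076449)) (.cons (.rel (nat_lit 4362081297)) (.cons (.rel (nat_lit 4362082308)) .nil)))) .nil)) .leaf) (nat_lit 26956813653339639) (.br (nat_lit 2) (.cons (.br (nat_lit 4) (.cons (.rel (nat_lit 2281702464)) .nil)) .nil)) (.node .leaf (nat_lit 26956813653728168) (.br (nat_lit 1) (.cons (.br (nat_lit 2) (.cons (.rel (nat_lit 83886372)) .nil)) .nil)) .leaf))) (nat_lit 26956813653799842) (.br (nat_lit 1) (.cons (.br (nat_lit 3) (.cons (.rel (nat_lit 553713936)) .nil)) .nil)) (.node (.node (.node (.node .leaf (nat_lit 26956813655122080) (.br (nat_lit 3) (.cons (.br (nat_lit 2) (.cons (.rel (nat_lit 335548674)) (.cons (.rel (nat_lit 335552520))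 .nil))) .nil)) .leaf) (nat_lit 26956813765289236) (.br (nat_lit 4) (.cons (.br (nat_lit 6) (.cons (.rel (nat_lit 18253611168)) .nil)) .nil)) .leaf) (nat_lit 26956813766789256) (.br (nat_lit 1) (.cons (.br (nat_lit 3) (.cons (.rel (nat_lit 301991172)) .nil)) .nil)) (.node (.node .leaf (nat_lit 26956813767806428) (.br (nat_lit 3) (.cons (.br (nat_lit 0) (.cons (.rel (nat_lit 272630793)) (.cons (.rel (nat_lit 272631840)) .nil))) .nil)) .leaf) (nat_lit 26956813768369428) (.br (nat_lit 3) (.cons (.br (nat_lit 1) (.cons (.rel (nat_lit 570687744)) (.cons (.rel (nat_lit 301991172)) .nil))) .nil)) .leaf)) (nat_lit 26956815212238327) (.br (nat_lit 0) (.cons (.br (nat_lit 1) (.cons (.rel (nat_lit 21041184)) .nil)) .nil)) (.node (.node (.node .leaf (nat_lit 26956815333872918) (.br (nat_lit 0) (.cons (.br (nat_lit 2) (.cons (.rel (nat_lit 71573505)) .nil)) .nil)) .leaf) (nat_lit 26956815334213792) (.br (nat_lit 1) (.cons (.br (nat_lit 3) (.cons (.rel (nat_lit 570687744)) .nil)) .nil)) .leaf) (nat_lit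 26956815336465320) (.br (nat_lit 2) (.cons (.br (nat_lit 3) (.cons (.rel (nat_lit 335627265)) .nil)) .nil)) (.node .leaf (nat_lit 26956816254011528) (.br (nat_lit 0) (.cons (.br (nat_lit 3) (.cons (.rel (nat_lit 272778240)) .nil)) .nil)) .leaf)))))

/-- refutations 124 -/
def e124 : EX := (.node (.node (.node (.node (.node .leaf (nat_lit 26957906134272287) (.br (nat_lit 2) (.cons (.br (nat_lit 6) (.cons (.rel (nat_lit 17246994576)) .nil)) .nil)) .leaf) (nat_lit 26957906134273276) (.br (nat_lit 0) (.cons (.br (nat_lit 2) (.cons (.rel (nat_lit 71573505)) .nil)) .nil)) .leaf) (nat_lit 26957906137002735) (.br (nat_lit 6) (.cons (.br (nat_lit 1) (.cons (.rel (nat_lit 17196662805)) (.cons (.rel (nat_lit 17196652548)) .nil))) .nil)) (.node (.node .leaf (nat_lit 26957906137003494) (.br (nat_lit 0) (.cons (.br (nat_lit 1) (.cons (.rel (nat_lit 21234240)) .nil)) .nil)) .leaf) (nat_lit 26957906137096479) (.br (nat_lit 4) (.cons (.br (nat_lit 6) (.cons (.rel (nat_lit 35433488385)) .nil)) .nil)) .leaf))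 (nat_lit 26958155242375455) (.br (nat_lit 1) (.cons (.br (nat_lit 2) (.cons (.rel (nat_lit 83888385)) .nil)) .nil)) (.node (.node (.node .leaf (nat_lit 26958155243416332) (.br (nat_lit 2) (.cons (.br (nat_lit 1) (.cons (.rel (nat_lit 83888385)) (.cons (.rel (nat_lit 83903490)) .nil))) .nil)) .leaf) (nat_lit 26963063278163176) (.br (nat_lit 1) (.cons (.br (nat_lit 4) (.cons (.rel (nat_lit 2181038100)) .nil)) .nil)) .leaf) (nat_lit 26963358563201210) (.br (nat_lit 2) (.cons (.br (nat_lit 6) (.cons (.rel (nat_lit 34426851840)) .nil)) .nil)) (.node .leaf (nat_lit 26963358662364412) (.br (nat_lit 0) (.cons (.br (nat_lit 3) (.cons (.br (nat_lit 6) (.cons (.rel (nat_lit 17718853632)) .nil)) .nil)) .nil)) .leaf))) (nat_lit 26963358663404176) (.br (nat_lit 0) (.cons (.br (nat_lit 2) (.cons (.rel (nat_lit 71303808)) .nil)) .nil)) (.node (.node (.node (.node .leaf (nat_lit 26963358665187615) (.br (nat_lit 0) (.cons (.br (nat_lit 1) (.cons (.rel (nat_lit 20975874)) (.cons (.rel (nat_lit 26214402)) .nil)))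 .nil)) .leaf) (nat_lit 26963360742438140) (.br (nat_lit 0) (.cons (.br (nat_lit 1) (.cons (.rel (nat_lit 21005316)) .nil)) .nil)) .leaf) (nat_lit 26963360742739196) (.br (nat_lit 3) (.cons (.br (nat_lit 6) (.cons (.rel (nat_lit 17448305154)) .nil)) .nil)) (.node .leaf (nat_lit 26963360743778340) (.br (nat_lit 2) (.cons (.br (nat_lit 6) (.cons (.rel (nat_lit 34426847238)) .nil)) .nil)) .leaf)) (nat_lit 26963360743779084) (.br (nat_lit 4) (.cons (.br (nat_lit 0) (.cons (.rel (nat_lit 1078263840)) (.cons (.rel (nat_lit 1082134560)) .nil))) .nil)) (.node (.node (.node .leaf (nat_lit 26963360745469414) (.br (nat_lit 0) (.cons (.br (nat_lit 1) (.cons (.rel (nat_lit 21234240)) .nil)) .nil)) .leaf) (nat_lit 26963360745562399) (.br (nat_lit 0) (.cons (.br (nat_lit 3) (.cons (.rel (nat_lit 541327365)) .nil)) .nil)) .leaf) (nat_lit 26963360745562892) (.br (nat_lit 0) (.cons (.br (nat_lit 3) (.cons (.rel (nat_lit 272891985)) .nil)) .nil)) (.node .leaf (nat_lit 26964424335388151) (.br (nat_lit 2) (.cons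 (.br (nat_lit 4) (.cons (.rel (nat_lit 2281702464)) .nil)) .nil)) .leaf))))

/-- refutations 125 -/
def e125 : EX := (.node (.node (.node .leaf (nat_lit 27022892173142048) (.br (nat_lit 1) (.cons (.br (nat_lit 2) (.cons (.rel (nat_lit 83951637)) .nil)) .nil)) .leaf) (nat_lit 27027181747542201) (.br (nat_lit 0) (.cons (.br (nat_lit 1) (.cons (.rel (nat_lit 20979720)) .nil)) .nil)) (.node .leaf (nat_lit 27027181747543316) (.br (nat_lit 1) (.cons (.br (nat_lit 2) (.cons (.rel (nat_lit 83886372)) .nil)) .nil)) .leaf)) (nat_lit 27027181795220983) (.br (nat_lit 1) (.cons (.br (nat_lit 2) (.cons (.rel (nat_lit 84213840)) .nil)) .nil)) (.node (.node .leaf (nat_lit 27027182422870173) (.br (nat_lit 0) (.cons (.br (nat_lit 1) (.cons (.rel (nat_lit 21102612)) .nil)) .nil)) .leaf) (nat_lit 27027183973192980) (.br (nat_lit 1) (.cons (.br (nat_lit 2) (.cons (.rel (nat_lit 83903490)) .nil)) .nil)) .leaf))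

/-- refutations 126 -/
def e126 : EX := (.node (.node .leaf (nat_lit 27033429293231635) (.br (nat_lit 0) (.cons (.br (nat_lit 1) (.cons (.rel (nat_lit 20979720)) .nil)) .nil)) .leaf) (nat_lit 27033672542079883) (.br (nat_lit 0) (.cons (.br (nat_lit 3) (.cons (.rel (nat_lit 272634384)) .nil)) .nil)) .leaf)

/-- refutations 127 -/
def e127 : EX := (.node (.node (.node .leaf (nat_lit 26848038899257371) (.br (nat_lit 0) (.cons (.br (nat_lit 1) (.cons (.rel (nat_lit 20975874)) .nil)) .nil)) .leaf) (nat_lit 26848040887258023) (.br (nat_lit 1) (.cons (.br (nat_lit 3) (.cons (.rel (nat_lit 285220929)) .nil)) .nil)) (.node .leaf (nat_lit 26848044053975215) (.br (nat_lit 1) (.cons (.br (nat_lit 3) (.cons (.rel (nat_lit 285217092)) .nil)) .nil)) .leaf)) (nat_lit 26848044055546763) (.br (nat_lit 1) (.cons (.br (nat_lit 0) (.cons (.rel (nat_lit 21004305)) (.cons (.rel (nat_lit 39845889)) .nil))) .nil)) (.node (.node .leaf (nat_lit 26848044057154443) (.br (nat_lit 1) (.cons (.br (nat_lit 5) (.cons (.rel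 (nat_lit 8623756548)) .nil)) .nil)) .leaf) (nat_lit 26918713401308036) (.br (nat_lit 1) (.cons (.br (nat_lit 2) (.cons (.rel (nat_lit 83890209)) .nil)) .nil)) (.node .leaf (nat_lit 26921651606148373) (.br (nat_lit 2) (.cons (.br (nat_lit 3) (.cons (.rel (nat_lit 335578116)) .nil)) .nil)) .leaf)))

/-- refutations 128 -/
def e128 : EX := (.node (.node (.node .leaf (nat_lit 27041647247513782) (.br (nat_lit 0) (.cons (.br (nat_lit 3) (.cons (.rel (nat_lit 272631840)) .nil)) .nil)) .leaf) (nat_lit 27041647249262774) (.br (nat_lit 5) (.cons (.br (nat_lit 0) (.cons (.rel (nat_lit 4299180288)) (.cons (.rel (nat_lit 4299165960)) .nil))) .nil)) (.node .leaf (nat_lit 27041649448211744) (.br (nat_lit 2) (.cons (.br (nat_lit 4) (.cons (.rel (nat_lit 1207963905)) .nil)) .nil)) .leaf)) (nat_lit 27041650027572500) (.br (nat_lit 1) (.cons (.br (nat_lit 3) (.cons (.rel (nat_lit 286262280)) .nil)) .nil)) (.node (.node .leaf (nat_lit 27044773982397716) (.br (nat_lit 0) (.cons (.br (nat_lit 1) (.cons (.rel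 (nat_lit 20979720)) .nil)) .nil)) .leaf) (nat_lit 27044773985455461) (.br (nat_lit 1) (.cons (.br (nat_lit 2) (.cons (.rel (nat_lit 83886372)) .nil)) .nil)) (.node .leaf (nat_lit 27044776033412374) (.br (nat_lit 1) (.cons (.br (nat_lit 2) (.cons (.rel (nat_lit 83888385)) .nil)) .nil)) .leaf)))

/-- refutations 129 -/
def e129 : EX := (.node (.node (.node .leaf (nat_lit 27273474456179988) (.br (nat_lit 0) (.cons (.br (nat_lit 2) (.cons (.rel (nat_lit 71303808)) .nil)) .nil)) .leaf) (nat_lit 27273474606102690) (.br (nat_lit 1) (.cons (.br (nat_lit 2) (.cons (.rel (nat_lit 83886372)) .nil)) .nil)) (.node .leaf (nat_lit 27285742185913127) (.br (nat_lit 2) (.cons (.br (nat_lit 3) (.cons (.rel (nat_lit 335578116)) .nil)) .nil)) .leaf)) (nat_lit 27290944329497986) (.br (nat_lit 0) (.cons (.br (nat_lit 1) (.cons (.rel (nat_lit 20979720)) .nil)) .nil)) (.node (.node .leaf (nat_lit 27290947683736933) (.br (nat_lit 1) (.cons (.br (nat_lit 2) (.cons (.rel (nat_lit 83919360)) .nil)) .nil)) .leaf) (nat_lit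 27297524932426654) (.br (nat_lit 0) (.cons (.br (nat_lit 2) (.cons (.rel (nat_lit 142606656)) .nil)) .nil)) .leaf))

/-- refutations 130 -/
def e130 : EX := (.node (.node (.node .leaf (nat_lit 27374559351341316) (.br (nat_lit 0) (.cons (.br (nat_lit 2) (.cons (.rel (nat_lit 138417153)) .nil)) .nil)) .leaf) (nat_lit 27375684633739424) (.br (nat_lit 1) (.cons (.br (nat_lit 2) (.cons (.rel (nat_lit 83886372)) .nil)) .nil)) (.node .leaf (nat_lit 27375824253995939) (.br (nat_lit 0) (.cons (.br (nat_lit 3) (.cons (.rel (nat_lit 272631840)) .nil)) .nil)) .leaf)) (nat_lit 27378913380918504) (.br (nat_lit 0) (.cons (.br (nat_lit 1) (.cons (.rel (nat_lit 41947140)) .nil)) .nil)) (.node (.node .leaf (nat_lit 27384439481871593) (.br (nat_lit 2) (.cons (.br (nat_lit 4) (.cons (.rel (nat_lit 1141113876)) .nil)) .nil)) .leaf) (nat_lit 27385573829757859) (.br (nat_lit 0) (.cons (.br (nat_lit 3) (.cons (.rel (nat_lit 272631840)) (.cons (.rel (nat_lit 276824133)) (.cons (.rel (nat_lit 272629782)) .nil))))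 .nil)) (.node .leaf (nat_lit 27385575759138144) (.br (nat_lit 0) (.cons (.br (nat_lit 2) (.cons (.rel (nat_lit 71303808)) .nil)) .nil)) .leaf)))

/-- refutations 131 -/
def e131 : EX := (.node (.node .leaf (nat_lit 27444992954837903) (.br (nat_lit 0) (.cons (.br (nat_lit 3) (.cons (.rel (nat_lit 272629782)) (.cons (.rel (nat_lit 272778240)) .nil))) .nil)) .leaf) (nat_lit 27446490339233848) (.br (nat_lit 0) (.cons (.br (nat_lit 1) (.cons (.rel (nat_lit 22283265)) .nil)) .nil)) (.node .leaf (nat_lit 27446490339235068) (.br (nat_lit 0) (.cons (.br (nat_lit 3) (.cons (.rel (nat_lit 545260560)) .nil)) .nil)) .leaf))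

/-- refutations 132 -/
def e132 : EX := (.node (.node (.node (.node .leaf (nat_lit 27462579890686239) (.br (nat_lit 4) (.cons (.br (nat_lit 6) (.cons (.br (nat_lit 0) (.cons (.rel (nat_lit 1078202376)) (.cons (.rel (nat_lit 34368131136)) .nil))) .nil)) .nil)) .leaf) (nat_lit 27463862016542902) (.br (nat_lit 0) (.cons (.br (nat_lit 1) (.cons (.rel (nat_lit 25198656)) .nil)) .nil)) .leaf) (nat_lit 27464065339615919) (.br (nat_lit 0) (.cons (.br (nat_lit 2) (.cons (.rel (nat_lit 142606656)) .nil)) .nil)) (.node (.node .leaf (nat_lit 27464065949370655) (.br (nat_lit 5) (.cons (.br (nat_lit 2) (.cons (.rel (nat_lit 4429709316)) (.cons (.rel (nat_lit 4362077460)) .nil))) .nil)) .leaf) (nat_lit 27464065949696287) (.br (nat_lit 0) (.cons (.br (nat_lit 2) (.cons (.rel (nat_lit 142606656)) .nil)) .nil)) .leaf)) (nat_lit 27464065949731103) (.br (nat_lit 2) (.cons (.br (nat_lit 0) (.cons (.rel (nat_lit 138477570)) (.cons (.rel (nat_lit 71567892)) (.cons (.rel (nat_lit 71303808)) .nil)))) (.cons (.br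 (nat_lit 0) (.cons (.rel (nat_lit 138477570)) (.cons (.rel (nat_lit 71600160)) (.cons (.rel (nat_lit 71303808)) .nil)))) .nil))) (.node (.node (.node .leaf (nat_lit 27464065950771487) (.br (nat_lit 1) (.cons (.br (nat_lit 3) (.cons (.rel (nat_lit 285220929)) .nil)) .nil)) .leaf) (nat_lit 27464065950959903) (.br (nat_lit 0) (.cons (.br (nat_lit 1) (.cons (.rel (nat_lit 41947140)) .nil)) .nil)) .leaf) (nat_lit 27464065950970143) (.br (nat_lit 0) (.cons (.br (nat_lit 4) (.cons (.rel (nat_lit 1082134560)) .nil)) .nil)) (.node (.node .leaf (nat_lit 27467005883864341) (.br (nat_lit 1) (.cons (.br (nat_lit 2) (.cons (.rel (nat_lit 83919360)) .nil)) .nil)) .leaf) (nat_lit 27473534238954403) (.br (nat_lit 2) (.cons (.br (nat_lit 4) (.cons (.rel (nat_lit 2214608928)) .nil)) .nil)) .leaf)))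

/-- list of the parts -/
def L0 : List (ℕ × List ℕ) := [(nat_lit 0x4000, [Nat.sub (Nat.pow 2 654) (Nat.pow 2 0), Nat.sub (Nat.pow 2 3136) (Nat.pow 2 654)]),
  (nat_lit 0x10, [cP]),
  (nat_lit 0x40000000, [Nat.sub (Nat.pow 2 141) (Nat.pow 2 0), Nat.sub (Nat.pow 2 256) (Nat.pow 2 141), Nat.sub (Nat.pow 2 284) (Nat.pow 2 256), Nat.sub (Nat.pow 2 305) (Nat.pow 2 284), Nat.sub (Nat.pow 2 315) (Nat.pow 2 305), Nat.sub (Nat.pow 2 679) (Nat.pow 2 315), Nat.sub (Nat.pow 2 914) (Nat.pow 2 679), Nat.sub (Nat.pow 2 1284) (Nat.pow 2 914), Nat.sub (Nat.pow 2 1381) (Nat.pow 2 1284), Nat.sub (Nat.pow 2 1411) (Nat.pow 2 1381), Nat.sub (Nat.pow 2 1440) (Nat.pow 2 1411), Nat.sub (Nat.pow 2 1560) (Nat.pow 2 1440), Nat.sub (Nat.pow 2 3136) (Nat.pow 2 1560)]),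
  (nat_lit 0x20010000, [cP]),
  (nat_lit 0x40000000000000, [Nat.sub (Nat.pow 2 681) (Nat.pow 2 0), Nat.sub (Nat.pow 2 3136) (Nat.pow 2 681)]),
  (nat_lit 0x80000000, [cP]),
  (nat_lit 0x100000000000000, [cP]),
  (nat_lit 0x1800000000000000, [cP]),
  (nat_lit 0x4000000000000000000000000000000000, [Nat.sub (Nat.pow 2 811) (Nat.pow 2 0), Nat.sub (Nat.pow 2 3136) (Nat.pow 2 811)]),
  (nat_lit 0x8000000000000000010000000000000000, [cP]),
  (nat_lit 0x400000000000000000000000000000000000000, [Nat.sub (Nat.pow 2 886) (Nat.pow 2 0), Nat.sub (Nat.pow 2 3136) (Nat.pow 2 886)]),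
  (nat_lit 0x800080000000000000000000000000000000000, [cP]),
  (nat_lit 0x8000000000000000000000000000000000000000, [cP]),
  (nat_lit 0x10000000000000000000000000000000000000000, [cP]),
  (nat_lit 0x20000000000000000000000000000000000000000, [cP]),
  (nat_lit 0x410000000000000000000000000000000000000000000000, [cP]),
  (nat_lit 0x800000000000000000000000000000000000000000000000, [cP]),
  (nat_lit 0x80000000000000000000000000000000000000000000000000000000000000000, [cP]),
  (nat_lit 0x1000000000000000000000000000000000000000000000000000000000000000000, [cP]),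
  (nat_lit 0x8000000000000000000000000000000000000000000000000000000000000000000000, [cP]),
  (nat_lit 0x10000000000000000000000000000000000000000000000000000000000000000000000, [cP]),
  (nat_lit 0x2000000000000000000000000000000000000000000000000000000000000000000000000, [cP]),
  (nat_lit 0x4000000000000000000000000000000000000000000000000000000000000000000000000, [cP]),
  (nat_lit 0x10008000000000000000000000000000000000000000000000000000000000000000000000000, [cP]),
  (nat_lit 0x8800000000000000000000000000000000000000000000000000000000000000000000000000000, [cP]),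
  (nat_lit 0x80000000000000000000000000000000000000000000000000000000000000000000000000000000000000000000000000000000000000000000000000000000000000000000000000000000000000000000, [Nat.sub (Nat.pow 2 909) (Nat.pow 2 0), Nat.sub (Nat.pow 2 1565) (Nat.pow 2 909), Nat.sub (Nat.pow 2 3136) (Nat.pow 2 1565)]),
  (nat_lit 0x1000000000000000000000000000000000000000000000000000000000000000000000000000000000000000000000000000000000000000000000000000000000000000000000000000000000000000, [cP]),
  (nat_lit 0x2000000000000000000000000000000000000000000000000000000000000000000000000000000000000000000000000000000000000000000000000000000000000000000000000000000000000000000000, [Nat.sub (Nat.pow 2 665) (Nat.pow 2 0), Nat.sub (Nat.pow 2 3136) (Nat.pow 2 665)]),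
  (nat_lit 0x20000000000000000000000000000000000000000000000000000000000000000000000000000000000000000000000000000000000000000000000000000000000000000000000000000000000000000000000, [Nat.sub (Nat.pow 2 314) (Nat.pow 2 0), Nat.sub (Nat.pow 2 914) (Nat.pow 2 314), Nat.sub (Nat.pow 2 1379) (Nat.pow 2 914), Nat.sub (Nat.pow 2 3136) (Nat.pow 2 1379)]),
  (nat_lit 0x40800000000000000000000000000000000000000000000000000000000000000000000000000000000000000000000000000000000000000000000000000000000000000000000000000000000000000000000, [cP]),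
  (nat_lit 0x400000000000000000000000000000000000000000000000000000000000000000000000000000000000000000000000000000000000000000000000000000000000000000000000000000000000000000000000000000000000000000000, [Nat.sub (Nat.pow 2 661) (Nat.pow 2 0), Nat.sub (Nat.pow 2 3136) (Nat.pow 2 661)]),
  (nat_lit 0x20000000000000000000000000000000000000000000000000000000000000000000000000000000000000000000000000000000000000000000000000000000000000000000000000000000000000000000000000000, [cP]),
  (nat_lit 0x1800000000000000000000000000000000000000000000000000000000000000000000000000000000000000000000000000000000000000000000000000000000000000000000000000000000000000000000000000000000000000000000, [cP]),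
  (nat_lit 0x10000000000000000000000000000000000000000000000000000000000000000000000000000000000000000000000000000000000000000000000000000000000000000000000000000000000000000000000000000000000000000000000, [cP]),
  (nat_lit 0x200000000000000000000000000000000000000000000000000000000000000000000000000000000000000000000000000000000000000000000000000000000000000000000000000000000000000000000000000000000000000000000000, [Nat.sub (Nat.pow 2 811) (Nat.pow 2 0), Nat.sub (Nat.pow 2 3136) (Nat.pow 2 811)]),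
  (nat_lit 0x200000000000000000000000000000000000000000000000000000000000000000000000000000000000000000000000000000000000000000000000000000000000000000000000000000000000000000000000000000000000000000000000000000, [Nat.sub (Nat.pow 2 761) (Nat.pow 2 0), Nat.sub (Nat.pow 2 3136) (Nat.pow 2 761)]),
  (nat_lit 0x400000000000000000000000000000000000000000000000000000000000000000000000000000000000000000000000000000000000000000000000000000000000000000000000000000000000000000000000000000000000000000000000000000, [Nat.sub (Nat.pow 2 761) (Nat.pow 2 0), Nat.sub (Nat.pow 2 3136) (Nat.pow 2 761)]),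
  (nat_lit 0x800100000000000000000000000000000000000000000000000000000000000000000000000000000000000000000000000000000000000000000000000000000000000000000000000000000000000000000000000000000000000000000000000, [cP]),
  (nat_lit 0x20000000000000000000000000000000000000000000000000000000000000000000000000000000000000000000000000000000000000000000000000000000000000000000000000000000000000000000000000000000000000000000000000000000000, [Nat.sub (Nat.pow 2 681) (Nat.pow 2 0), Nat.sub (Nat.pow 2 3136) (Nat.pow 2 681)]),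
  (nat_lit 0x80000000000000000000000000000000000000000000000000000000000000000000000000000000000000000000000000000000000000000000000000000000000000000000000000000000000000000000000000000000000000000000000000000000000, [Nat.sub (Nat.pow 2 1391) (Nat.pow 2 0), Nat.sub (Nat.pow 2 3136) (Nat.pow 2 1391)]),
  (nat_lit 0x1000000000000000000000000000000000000000000000000000000000000000000000000000000000000000000000000000000000000000000000000000000000000000000000000000000000000000000000000000000000000000000000000000000000000, [Nat.sub (Nat.pow 2 661) (Nat.pow 2 0), Nat.sub (Nat.pow 2 3136) (Nat.pow 2 661)]),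
  (nat_lit 0x8000000000000000000000000000000000000000000000000000000000000000000000000000000000000000000000000000000000000000000000000000000000000000000000000000000000000000000000000000000000000000000000000000000000000000000000000000, [Nat.sub (Nat.pow 2 1289) (Nat.pow 2 0), Nat.sub (Nat.pow 2 3136) (Nat.pow 2 1289)]),
  (nat_lit 0x10000000000000000004000000000000000000000000000000000000000000000000000000000000000000000000000000000000000000000000000000000000000000000000000000000000000000000000000000000000000000000000000000000000000000000000000000000, [cP]),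
  (nat_lit 0x20000000000000000000000000000000000000000000000000000000000000000000000000000000000000000000000000000000000000000000000000000000000000000000000000000000000000000000000000000000000000000000000000000000000000000000000000000, [cP]),
  (nat_lit 0x100000000000000000000000000000000000000000000000000000000000000000000000000000000000000000000000000000000000000000000000000000000000000000000000000000000000000000000000000000000000000000000000000000000000000000000000000000, [cP]),
  (nat_lit 0x2000000000000000000000000000000000000000000000000000000000000000000000000000000000000000000000000000000000000000000000000000000000000000000000000000000000000000000000000000000000000000000000000000000000000000000000000000000, [Nat.sub (Nat.pow 2 661) (Nat.pow 2 0), Nat.sub (Nat.pow 2 1564) (Nat.pow 2 661), Nat.sub (Nat.pow 2 3136) (Nat.pow 2 1564)]),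
  (nat_lit 0x200000000000000000000000000000000000000000000000000000000000000000000000000000000000000000000000000000000000000000000000000000000000000000000000000000000000000000000000000000000000000000000000000000000000000000000000000000, [cP]),
  (nat_lit 0x200000000000000000000000000000000000000000000000000000000000000000000000000000000000000000000000000000000000000000000000000000000000000000000000000000000000000000000000000000000000000000000000000000000000000000000000000000000000, [cP]),
  (nat_lit 0x800000000000000000000000000000000000000000000000000000000000000000000000000000000000000000000000000000000000000000000000000000000000000000000000000000000000000000000000000000000000000000000000000000000000000000000000000000000000, [cP]),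
  (nat_lit 0x10000000000000000000000000000000000000000000000000000000000000000000000000000000000000000000000000000000000000000000000000000000000000000000000000000000000000000000000000000000000000000000000000000000000000000000000000000000000000, [cP]),
  (nat_lit 0x400000000000000000000000000000000000000000000000000000000000000000000000000000000000000000000000000000000000000000000000000000000000000000000000000000000000000000000000000000000000000000000000000000000000000000000000000000000000000000, [cP]),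
  (nat_lit 0x1000000000000000000000000000000000000000000000000000000000000000000000000000000000000000000000000000000000000000000000000000000000000000000000000000000000000000000000000000000000000000000000000000000000000000000000000000000000000000000, [Nat.sub (Nat.pow 2 781) (Nat.pow 2 0), Nat.sub (Nat.pow 2 3136) (Nat.pow 2 781)]),
  (nat_lit 0x10000000000000000000000000000000000000000000000000000000000000000000000000000000000000000000000000000000000000000000000000000000000000000000000000000000000000000000000000000000000000000000000000000000000000000000000000000000000000000000, [Nat.sub (Nat.pow 2 1304) (Nat.pow 2 0), Nat.sub (Nat.pow 2 3136) (Nat.pow 2 1304)]),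
  (nat_lit 0x800000000000000000000000000000000000000000000000000000000000000000000000000000000000000000000000000000000000000000000000000000000000000000000000000000000000000000000000000000000000000000000000000000000000000000000000000000000000000000, [cP]),
  (nat_lit 0x20000000000000000000000000000000000000000000000000000000000000000000000000000000000000000000000000000000000000000000000000000000000000000000000000000000000000000000000000000000000000000000000000000000000000000000000000000000000000000000, [cP]),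
  (nat_lit 0x80000000000000000000000000000000000000000000000000000000000000000000000000000000000000000000000000000000000000000000000000000000000000000000000000000000000000000000000000000000000000000000000000000000000000000000000000000000000000000000000000000000000000000000000000000000000000000000000000000000000000000000000000, [cP]),
  (nat_lit 0x2000000000000000000000000000000000000000000000000000000000000000000000000000000000000000000000000000000000000000000000000000000000000000000000000000000000000000000000000000000000000000000000000000000000000000000000000000000000000000000000000000000000000000000000000000000000000000000000000000000000000000000000000000, [cP]),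
  (nat_lit 0x2000000000000000000000000000000000000000000000000000000000000000000000000000000000000000000000000000000000000000000000000000000000000000000000000000000000000000000000000000000000000000000000000000000000000000000000000000000000000000000000000000000000000000000000000000000000000000000000000000000000000000000000000000000000, [Nat.sub (Nat.pow 2 761) (Nat.pow 2 0), Nat.sub (Nat.pow 2 3136) (Nat.pow 2 761)]),
  (nat_lit 0x20000000000000000000000000000000000000000000000000000000000000000000000000000000000000000000000000000000000000000000000000000000000000000000000000000000000000000000000000000000000000000000000000000000000000000000000000000000000000000000000000000000000000000000000000000000000000000000000000000000000000000000000000000000000, [Nat.sub (Nat.pow 2 781) (Nat.pow 2 0), Nat.sub (Nat.pow 2 3136) (Nat.pow 2 781)]),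
  (nat_lit 0x1100000000000000000000000000000000000000000000000000000000000000000000000000000000000000000000000000000000000000000000000000000000000000000000000000000000000000000000000000000000000000000000000000000000000000000000000000000000000000000000000000000000000000000000000000000000000000000000000000000000000000000000000000000000, [cP]),
  (nat_lit 0x40000000000000000000000000000000000000000000000000000000000000000000000000000000000000000000000000000000000000000000000000000000000000000000000000000000000000000000000000000000000000000000000000000000000000000000000000000000000000000000000000000000000000000000000000000000000000000000000000000000000000000000000000000000000, [cP]),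
  (nat_lit 0x400000000000000000000000000000000000000000000000000000000000000000000000000000000000000000000000000000000000000000000000000000000000000000000000000000000000000000000000000000000000000000000000000000000000000000000000000000000000000000000000000000000000000000000000000000000000000000000000000000000000000000000000000000000000000000000000000000000000, [Nat.sub (Nat.pow 2 635) (Nat.pow 2 0), Nat.sub (Nat.pow 2 3136) (Nat.pow 2 635)]),
  (nat_lit 0x20000000000000000000000000000000000000000000000000000000000000000000000000000000000000000000000000000000000000000000000000000000000000000000000000000000000000000000000000000000000000000000000000000000000000000000000000000000000000000000000000000000000000000000000000000000000000000000000000000000000000000000000000000000000000000000000000000000000, [cP]),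
  (nat_lit 0x20000000000000000000000000000000000000000000000000000000000000000000000000000000000000000000000000000000000000000000000000000000000000000000000000000000000000000000000000000000000000000000000000000000000000000000000000000000000000000000000000000000000000000000000000000000000000000000000000000000000000000000000000000000000000000000000000000000000000000, [cP]),
  (nat_lit 0x8000000000000000000000000000000000000000000000000000000000000000000000000000000000000000000000000000000000000000000000000000000000000000000000000000000000000000000000000000000000000000000000000000000000000000000000000000000000000000000000000000000000000000000000000000000000000000000000000000000000000000000000000000000000000000000000000000000000000000000000, [Nat.sub (Nat.pow 2 915) (Nat.pow 2 0), Nat.sub (Nat.pow 2 3136) (Nat.pow 2 915)]),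
  (nat_lit 0x100000000000000000000000000000000000000000000000000000000000000000000000000000000000000000000000000000000000000000000000000000000000000000000000000000000000000000000000000000000000000000000000000000000000000000000000000000000000000000000000000000000000000000000000000000000000000000000000000000000000000000000000000000000000000000000000000000000000000000000000, [Nat.sub (Nat.pow 2 285) (Nat.pow 2 0), Nat.sub (Nat.pow 2 909) (Nat.pow 2 285), Nat.sub (Nat.pow 2 1564) (Nat.pow 2 909), Nat.sub (Nat.pow 2 3136) (Nat.pow 2 1564)]),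
  (nat_lit 0x6000000000000000000000000000000000000000000000000000000000000000000000000000000000000000000000000000000000000000000000000000000000000000000000000000000000000000000000000000000000000000000000000000000000000000000000000000000000000000000000000000000000000000000000000000000000000000000000000000000000000000000000000000000000000000000000000000000000000000000000, [cP]),
  (nat_lit 0x10000000000000000000000000000000000000000000000000000000000000000000000000000000000000000000000000000000000000000000000000000000000000000000000000000000000000000000000000000000000000000000000000000000000000000000000000000000000000000000000000000000000000000000000000000000000000000000000000000000000000000000000000000000000000000000000000000000000000000000000000000000000000000, [Nat.sub (Nat.pow 2 679) (Nat.pow 2 0), Nat.sub (Nat.pow 2 3136) (Nat.pow 2 679)]),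
  (nat_lit 0x1000000000000000000000000000000000000000000000000000000000000000000000000000000000000000000000000000000000000000000000000000000000000000000000000000000000000000000000000000000000000000000000000000000000000000000000000000000000000000000000000000000000000000000000000000000000000000000000000000000000000000000000000000000000000000000000000000000000000000000000000, [cP]),
  (nat_lit 0x20000000000000000000000000000000000000000000000000000000000000000000000000000000000000000000000000000000000000000000000000000000000000000000000000000000000000000000000000000000000000000000000000000000000000000000000000000000000000000000000000000000000000000000000000000000000000000000000000000000000000000000000000000000000000000000000000000000000000000000000000000000000000000, [cP]),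
  (nat_lit 0x200000000000000000000000000000000000000000000000000000000000000000000000000000000000000000000000000000000000000000000000000000000000000000000000000000000000000000000000000000000000000000000000000000000000000000000000000000000000000000000000000000000000000000000000000000000000000000000000000000000000000000000000000000000000000000000000000000000000000000000000000000000000000000, [cP]),
  (nat_lit 0x4400000000000000000000000000000000000000000000000000000000000000000000000000000000000000000000000000000000000000000000000000000000000000000000000000000000000000000000000000000000000000000000000000000000000000000000000000000000000000000000000000000000000000000000000000000000000000000000000000000000000000000000000000000000000000000000000000000000000000000000000000000000000000000, [cP]),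
  (nat_lit 0x10000000000000000000000000000000000000000000000000000000000000000000000000000000000000000000000000000000000000000000000000000000000000000000000000000000000000000000000000000000000000000000000000000000000000000000000000000000000000000000000000000000000000000000000000000000000000000000000000000000000000000000000000000000000000000000000000000000000000000000000000000000000000000000, [Nat.sub (Nat.pow 2 654) (Nat.pow 2 0), Nat.sub (Nat.pow 2 1536) (Nat.pow 2 654), Nat.sub (Nat.pow 2 3136) (Nat.pow 2 1536)]),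
  (nat_lit 0x20000000000000000000000000000000000000000000000000000000000000000000000000000000000000000000000000000000000000000000000000000000000000000000000000000000000000000000000000000000000000000000000000000000000000000000000000000000000000000000000000000000000000000000000000000000000000000000000000000000000000000000000000000000000000000000000000000000000000000000000000000000000000000000000, [Nat.sub (Nat.pow 2 661) (Nat.pow 2 0), Nat.sub (Nat.pow 2 3136) (Nat.pow 2 661)]),
  (nat_lit 0x8000000000000000000000000000000000000000000000000000000000000000000000000000000000000000000000000000000000000000000000000000000000000000000000000000000000000000000000000000000000000000000000000000000000000000000000000000000000000000000000000000000000000000000000000000000000000000000000000000000000000000000000000000000000000000000000000000000000000000000000000000000000000000000, [cP]),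
  (nat_lit 0x800000000000000000000000000000000000000000000000000000000000000000000000000000000000000000000000000000000000000000000000000000000000000000000000000000000000000000000000000000000000000000000000000000000000000000000000000000000000000000000000000000000000000000000000000000000000000000000000000000000000000000000000000000000000000000000000000000000000000000000000000000000000000000000000, [Nat.sub (Nat.pow 2 654) (Nat.pow 2 0), Nat.sub (Nat.pow 2 1529) (Nat.pow 2 654), Nat.sub (Nat.pow 2 3136) (Nat.pow 2 1529)]),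
  (nat_lit 0x1000000000000000000000000000000000000000000000000000000000000000000000000000000000000000000000000000000000000000000000000000000000000000000000000000000000000000000000000000000000000000000000000000000000000000000000000000000000000000000000000000000000000000000000000000000000000000000000000000000000000000000000000000000000000000000000000000000000000000000000000000000000000000000000000, [Nat.sub (Nat.pow 2 665) (Nat.pow 2 0), Nat.sub (Nat.pow 2 3136) (Nat.pow 2 665)]),
  (nat_lit 0x10000000000000000000000000000000000000000000000000000000000000000000000000000000000000000000000000000000000000000000000000000000000000000000000000000000000000000000000000000000000000000000000000000000000000000000000000000000000000000000000000000000000000000000000000000000000000000000000000000000000000000000000000000000000000000000000000000000000000000000000000000000000000000000000000, [Nat.sub (Nat.pow 2 661) (Nat.pow 2 0), Nat.sub (Nat.pow 2 3136) (Nat.pow 2 661)]),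
  (nat_lit 0x440000000000000000000000000000000000000000000000000000000000000000000000000000000000000000000000000000000000000000000000000000000000000000000000000000000000000000000000000000000000000000000000000000000000000000000000000000000000000000000000000000000000000000000000000000000000000000000000000000000000000000000000000000000000000000000000000000000000000000000000000000000000000000000000, [cP]),
  (nat_lit 0x20000000000000000000000000000000000000000000000000000000000000000000000000000000000000000000000000000000000000000000000000000000000000000000000000000000000000000000000000000000000000000000000000000000000000000000000000000000000000000000000000000000000000000000000000000000000000000000000000000000000000000000000000000000000000000000000000000000000000000000000000000000000000000000000000, [cP]),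
  (nat_lit 0xc0000000000000000000000000000000000000000000000000000000000000000000000000000000000000000000000000000000000000000000000000000000000000000000000000000000000000000000000000000000000000000000000000000000000000000000000000000000000000000000000000000000000000000000000000000000000000000000000000000000000000000000000000000000000000000000000000000000000000000000000000000000000000000000000000000, [cP]),
  (nat_lit 0x1000000000000000000000000000000000000000000000000000000000000000000000000000000000000000000000000000000000000000000000000000000000000000000000000000000000000000000000000000000000000000000000000000000000000000000000000000000000000000000000000000000000000000000000000000000000000000000000000000000000000000000000000000000000000000000000000000000000000000000000000000000000000000000000000000000, [cP]),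
  (nat_lit 0x10000000000000000000000000000000000000000000000000000000000000000000000000000000000000000000000000000000000000000000000000000000000000000000000000000000000000000000000000000000000000000000000000000000000000000000000000000000000000000000000000000000000000000000000000000000000000000000000000000000000000000000000000000000000000000000000000000000000000000000000000000000000000000000000000000000, [cP]),
  (nat_lit 0x20000000000000000000000000000000000000000000000000000000000000000000000000000000000000000000000000000000000000000000000000000000000000000000000000000000000000000000000000000000000000000000000000000000000000000000000000000000000000000000000000000000000000000000000000000000000000000000000000000000000000000000000000000000000000000000000000000000000000000000000000000000000000000000000000000000, [cP])]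

theorem hp0 : ∀ p ∈ L0, ∀ D2 ∈ p.2, ∃ e,
    search ext94 (Pool.Agent.H74.EGZ.vio sb) G Uc A0 p.1 D2 e = true :=
  (List.forall_mem_cons.2 ⟨(List.forall_mem_cons.2 ⟨⟨e0, by decide +kernel⟩,
  (List.forall_mem_singleton.2 ⟨e1, by decide +kernel⟩)⟩),
  (List.forall_mem_cons.2 ⟨(List.forall_mem_singleton.2 ⟨e2, by decide +kernel⟩),
  (List.forall_mem_cons.2 ⟨(List.forall_mem_cons.2 ⟨⟨e3, by decide +kernel⟩,
  (List.forall_mem_cons.2 ⟨⟨e4, by decide +kernel⟩,
  (List.forall_mem_cons.2 ⟨⟨e5, by decide +kernel⟩,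
  (List.forall_mem_cons.2 ⟨⟨e6, by decide +kernel⟩,
  (List.forall_mem_cons.2 ⟨⟨e7, by decide +kernel⟩,
  (List.forall_mem_cons.2 ⟨⟨e8, by decide +kernel⟩,
  (List.forall_mem_cons.2 ⟨⟨e9, by decide +kernel⟩,
  (List.forall_mem_cons.2 ⟨⟨e10, by decide +kernel⟩,
  (List.forall_mem_cons.2 ⟨⟨e11, by decide +kernel⟩,
  (List.forall_mem_cons.2 ⟨⟨e12, by decide +kernel⟩,
  (List.forall_mem_cons.2 ⟨⟨e13, by decide +kernel⟩,
  (List.forall_mem_cons.2 ⟨⟨e14, by decide +kernel⟩,
  (List.forall_mem_singleton.2 ⟨e15, by decide +kernel⟩)⟩)⟩)⟩)⟩)⟩)⟩)⟩)⟩)⟩)⟩)⟩)⟩),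
  (List.forall_mem_cons.2 ⟨(List.forall_mem_singleton.2 ⟨e16, by decide +kernel⟩),
  (List.forall_mem_cons.2 ⟨(List.forall_mem_cons.2 ⟨⟨e17, by decide +kernel⟩,
  (List.forall_mem_singleton.2 ⟨e18, by decide +kernel⟩)⟩),
  (List.forall_mem_cons.2 ⟨(List.forall_mem_singleton.2 ⟨.leaf, by decide +kernel⟩),
  (List.forall_mem_cons.2 ⟨(List.forall_mem_singleton.2 ⟨e20, by decide +kernel⟩),
  (List.forall_mem_cons.2 ⟨(List.forall_mem_singleton.2 ⟨e21, by decide +kernel⟩),
  (List.forall_mem_cons.2 ⟨(List.forall_mem_cons.2 ⟨⟨e22, by decide +kernel⟩,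
  (List.forall_mem_singleton.2 ⟨e23, by decide +kernel⟩)⟩),
  (List.forall_mem_cons.2 ⟨(List.forall_mem_singleton.2 ⟨e24, by decide +kernel⟩),
  (List.forall_mem_cons.2 ⟨(List.forall_mem_cons.2 ⟨⟨e25, by decide +kernel⟩,
  (List.forall_mem_singleton.2 ⟨e26, by decide +kernel⟩)⟩),
  (List.forall_mem_cons.2 ⟨(List.forall_mem_singleton.2 ⟨.leaf, by decide +kernel⟩),
  (List.forall_mem_cons.2 ⟨(List.forall_mem_singleton.2 ⟨e28, by decide +kernel⟩),
  (List.forall_mem_cons.2 ⟨(List.forall_mem_singleton.2 ⟨e29, by decide +kernel⟩),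
  (List.forall_mem_cons.2 ⟨(List.forall_mem_singleton.2 ⟨.leaf, by decide +kernel⟩),
  (List.forall_mem_cons.2 ⟨(List.forall_mem_singleton.2 ⟨e31, by decide +kernel⟩),
  (List.forall_mem_cons.2 ⟨(List.forall_mem_singleton.2 ⟨e32, by decide +kernel⟩),
  (List.forall_mem_cons.2 ⟨(List.forall_mem_singleton.2 ⟨e33, by decide +kernel⟩),
  (List.forall_mem_cons.2 ⟨(List.forall_mem_singleton.2 ⟨e34, by decide +kernel⟩),
  (List.forall_mem_cons.2 ⟨(List.forall_mem_singleton.2 ⟨.leaf, by decide +kernel⟩),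
  (List.forall_mem_cons.2 ⟨(List.forall_mem_singleton.2 ⟨e36, by decide +kernel⟩),
  (List.forall_mem_cons.2 ⟨(List.forall_mem_singleton.2 ⟨e37, by decide +kernel⟩),
  (List.forall_mem_cons.2 ⟨(List.forall_mem_singleton.2 ⟨e38, by decide +kernel⟩),
  (List.forall_mem_cons.2 ⟨(List.forall_mem_singleton.2 ⟨e39, by decide +kernel⟩),
  (List.forall_mem_cons.2 ⟨(List.forall_mem_singleton.2 ⟨e40, by decide +kernel⟩),
  (List.forall_mem_cons.2 ⟨(List.forall_mem_cons.2 ⟨⟨e41, by decide +kernel⟩,
  (List.forall_mem_cons.2 ⟨⟨e42, by decide +kernel⟩,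
  (List.forall_mem_singleton.2 ⟨.leaf, by decide +kernel⟩)⟩)⟩),
  (List.forall_mem_cons.2 ⟨(List.forall_mem_singleton.2 ⟨e44, by decide +kernel⟩),
  (List.forall_mem_cons.2 ⟨(List.forall_mem_cons.2 ⟨⟨e45, by decide +kernel⟩,
  (List.forall_mem_singleton.2 ⟨e46, by decide +kernel⟩)⟩),
  (List.forall_mem_cons.2 ⟨(List.forall_mem_cons.2 ⟨⟨e47, by decide +kernel⟩,
  (List.forall_mem_cons.2 ⟨⟨e48, by decide +kernel⟩,
  (List.forall_mem_cons.2 ⟨⟨e49, by decide +kernel⟩,
  (List.forall_mem_singleton.2 ⟨e50, by decide +kernel⟩)⟩)⟩)⟩),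
  (List.forall_mem_cons.2 ⟨(List.forall_mem_singleton.2 ⟨e51, by decide +kernel⟩),
  (List.forall_mem_cons.2 ⟨(List.forall_mem_cons.2 ⟨⟨e52, by decide +kernel⟩,
  (List.forall_mem_singleton.2 ⟨e53, by decide +kernel⟩)⟩),
  (List.forall_mem_cons.2 ⟨(List.forall_mem_singleton.2 ⟨e54, by decide +kernel⟩),
  (List.forall_mem_cons.2 ⟨(List.forall_mem_singleton.2 ⟨e55, by decide +kernel⟩),
  (List.forall_mem_cons.2 ⟨(List.forall_mem_singleton.2 ⟨e56, by decide +kernel⟩),
  (List.forall_mem_cons.2 ⟨(List.forall_mem_cons.2 ⟨⟨e57, by decide +kernel⟩,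
  (List.forall_mem_singleton.2 ⟨e58, by decide +kernel⟩)⟩),
  (List.forall_mem_cons.2 ⟨(List.forall_mem_cons.2 ⟨⟨e59, by decide +kernel⟩,
  (List.forall_mem_singleton.2 ⟨e60, by decide +kernel⟩)⟩),
  (List.forall_mem_cons.2 ⟨(List.forall_mem_cons.2 ⟨⟨e61, by decide +kernel⟩,
  (List.forall_mem_singleton.2 ⟨e62, by decide +kernel⟩)⟩),
  (List.forall_mem_cons.2 ⟨(List.forall_mem_singleton.2 ⟨e63, by decide +kernel⟩),
  (List.forall_mem_cons.2 ⟨(List.forall_mem_cons.2 ⟨⟨e64, by decide +kernel⟩,
  (List.forall_mem_singleton.2 ⟨e65, by decide +kernel⟩)⟩),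
  (List.forall_mem_cons.2 ⟨(List.forall_mem_cons.2 ⟨⟨e66, by decide +kernel⟩,
  (List.forall_mem_singleton.2 ⟨e67, by decide +kernel⟩)⟩),
  (List.forall_mem_cons.2 ⟨(List.forall_mem_cons.2 ⟨⟨e68, by decide +kernel⟩,
  (List.forall_mem_singleton.2 ⟨e69, by decide +kernel⟩)⟩),
  (List.forall_mem_cons.2 ⟨(List.forall_mem_cons.2 ⟨⟨e70, by decide +kernel⟩,
  (List.forall_mem_singleton.2 ⟨e71, by decide +kernel⟩)⟩),
  (List.forall_mem_cons.2 ⟨(List.forall_mem_singleton.2 ⟨e72, by decide +kernel⟩),
  (List.forall_mem_cons.2 ⟨(List.forall_mem_singleton.2 ⟨e73, by decide +kernel⟩),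
  (List.forall_mem_cons.2 ⟨(List.forall_mem_singleton.2 ⟨e74, by decide +kernel⟩),
  (List.forall_mem_cons.2 ⟨(List.forall_mem_cons.2 ⟨⟨e75, by decide +kernel⟩,
  (List.forall_mem_cons.2 ⟨⟨e76, by decide +kernel⟩,
  (List.forall_mem_singleton.2 ⟨.leaf, by decide +kernel⟩)⟩)⟩),
  (List.forall_mem_cons.2 ⟨(List.forall_mem_singleton.2 ⟨e78, by decide +kernel⟩),
  (List.forall_mem_cons.2 ⟨(List.forall_mem_singleton.2 ⟨e79, by decide +kernel⟩),
  (List.forall_mem_cons.2 ⟨(List.forall_mem_singleton.2 ⟨e80, by decide +kernel⟩),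
  (List.forall_mem_cons.2 ⟨(List.forall_mem_singleton.2 ⟨e81, by decide +kernel⟩),
  (List.forall_mem_cons.2 ⟨(List.forall_mem_singleton.2 ⟨.leaf, by decide +kernel⟩),
  (List.forall_mem_cons.2 ⟨(List.forall_mem_cons.2 ⟨⟨e83, by decide +kernel⟩,
  (List.forall_mem_singleton.2 ⟨e84, by decide +kernel⟩)⟩),
  (List.forall_mem_cons.2 ⟨(List.forall_mem_cons.2 ⟨⟨e85, by decide +kernel⟩,
  (List.forall_mem_singleton.2 ⟨e86, by decide +kernel⟩)⟩),
  (List.forall_mem_cons.2 ⟨(List.forall_mem_singleton.2 ⟨e87, by decide +kernel⟩),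
  (List.forall_mem_cons.2 ⟨(List.forall_mem_singleton.2 ⟨e88, by decide +kernel⟩),
  (List.forall_mem_cons.2 ⟨(List.forall_mem_singleton.2 ⟨e89, by decide +kernel⟩),
  (List.forall_mem_cons.2 ⟨(List.forall_mem_singleton.2 ⟨e90, by decide +kernel⟩),
  (List.forall_mem_cons.2 ⟨(List.forall_mem_cons.2 ⟨⟨e91, by decide +kernel⟩,
  (List.forall_mem_singleton.2 ⟨e92, by decide +kernel⟩)⟩),
  (List.forall_mem_cons.2 ⟨(List.forall_mem_cons.2 ⟨⟨e93, by decide +kernel⟩,
  (List.forall_mem_singleton.2 ⟨e94, by decide +kernel⟩)⟩),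
  (List.forall_mem_cons.2 ⟨(List.forall_mem_singleton.2 ⟨e95, by decide +kernel⟩),
  (List.forall_mem_cons.2 ⟨(List.forall_mem_singleton.2 ⟨e96, by decide +kernel⟩),
  (List.forall_mem_cons.2 ⟨(List.forall_mem_cons.2 ⟨⟨e97, by decide +kernel⟩,
  (List.forall_mem_singleton.2 ⟨e98, by decide +kernel⟩)⟩),
  (List.forall_mem_cons.2 ⟨(List.forall_mem_singleton.2 ⟨e99, by decide +kernel⟩),
  (List.forall_mem_cons.2 ⟨(List.forall_mem_singleton.2 ⟨e100, by decide +kernel⟩),
  (List.forall_mem_cons.2 ⟨(List.forall_mem_cons.2 ⟨⟨e101, by decide +kernel⟩,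
  (List.forall_mem_singleton.2 ⟨e102, by decide +kernel⟩)⟩),
  (List.forall_mem_cons.2 ⟨(List.forall_mem_cons.2 ⟨⟨e103, by decide +kernel⟩,
  (List.forall_mem_cons.2 ⟨⟨e104, by decide +kernel⟩,
  (List.forall_mem_cons.2 ⟨⟨e105, by decide +kernel⟩,
  (List.forall_mem_singleton.2 ⟨.leaf, by decide +kernel⟩)⟩)⟩)⟩),
  (List.forall_mem_cons.2 ⟨(List.forall_mem_singleton.2 ⟨e107, by decide +kernel⟩),
  (List.forall_mem_cons.2 ⟨(List.forall_mem_cons.2 ⟨⟨e108, by decide +kernel⟩,
  (List.forall_mem_singleton.2 ⟨e109, by decide +kernel⟩)⟩),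
  (List.forall_mem_cons.2 ⟨(List.forall_mem_singleton.2 ⟨e110, by decide +kernel⟩),
  (List.forall_mem_cons.2 ⟨(List.forall_mem_singleton.2 ⟨.leaf, by decide +kernel⟩),
  (List.forall_mem_cons.2 ⟨(List.forall_mem_singleton.2 ⟨e112, by decide +kernel⟩),
  (List.forall_mem_cons.2 ⟨(List.forall_mem_singleton.2 ⟨e113, by decide +kernel⟩),
  (List.forall_mem_cons.2 ⟨(List.forall_mem_cons.2 ⟨⟨e114, by decide +kernel⟩,
  (List.forall_mem_cons.2 ⟨⟨e115, by decide +kernel⟩,
  (List.forall_mem_singleton.2 ⟨.leaf, by decide +kernel⟩)⟩)⟩),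
  (List.forall_mem_cons.2 ⟨(List.forall_mem_cons.2 ⟨⟨e117, by decide +kernel⟩,
  (List.forall_mem_singleton.2 ⟨e118, by decide +kernel⟩)⟩),
  (List.forall_mem_cons.2 ⟨(List.forall_mem_singleton.2 ⟨e119, by decide +kernel⟩),
  (List.forall_mem_cons.2 ⟨(List.forall_mem_cons.2 ⟨⟨e120, by decide +kernel⟩,
  (List.forall_mem_cons.2 ⟨⟨e121, by decide +kernel⟩,
  (List.forall_mem_singleton.2 ⟨.leaf, by decide +kernel⟩)⟩)⟩),
  (List.forall_mem_cons.2 ⟨(List.forall_mem_cons.2 ⟨⟨e123, by decide +kernel⟩,
  (List.forall_mem_singleton.2 ⟨e124, by decide +kernel⟩)⟩),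
  (List.forall_mem_cons.2 ⟨(List.forall_mem_cons.2 ⟨⟨e125, by decide +kernel⟩,
  (List.forall_mem_singleton.2 ⟨e126, by decide +kernel⟩)⟩),
  (List.forall_mem_cons.2 ⟨(List.forall_mem_singleton.2 ⟨e127, by decide +kernel⟩),
  (List.forall_mem_cons.2 ⟨(List.forall_mem_singleton.2 ⟨e128, by decide +kernel⟩),
  (List.forall_mem_cons.2 ⟨(List.forall_mem_singleton.2 ⟨e129, by decide +kernel⟩),
  (List.forall_mem_cons.2 ⟨(List.forall_mem_singleton.2 ⟨e130, by decide +kernel⟩),
  (List.forall_mem_cons.2 ⟨(List.forall_mem_singleton.2 ⟨e131, by decide +kernel⟩),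
  (List.forall_mem_singleton.2 (List.forall_mem_singleton.2 ⟨e132, by decide +kernel⟩))⟩)⟩)⟩)⟩)⟩)⟩)⟩)⟩)⟩)⟩)⟩)⟩)⟩)⟩)⟩)⟩)⟩)⟩)⟩)⟩)⟩)⟩)⟩)⟩)⟩)⟩)⟩)⟩)⟩)⟩)⟩)⟩)⟩)⟩)⟩)⟩)⟩)⟩)⟩)⟩)⟩)⟩)⟩)⟩)⟩)⟩)⟩)⟩)⟩)⟩)⟩)⟩)⟩)⟩)⟩)⟩)⟩)⟩)⟩)⟩)⟩)⟩)⟩)⟩)⟩)⟩)⟩)⟩)⟩)⟩)⟩)⟩)⟩)⟩)⟩)⟩)⟩)⟩)⟩)⟩)⟩)⟩)⟩)

end

end Pool.Agent.H21.EGZ.S12
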