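import Pool.Agent.H21.EGZ.D13

/-!
# Stage 13 : search, part 0
-/

set_option autoImplicit false
set_option maxRecDepth 100000

namespace Pool.Agent.H21.EGZ.S13

noncomputable section

open Pool.Agent.H74.EGZ Pool.Agent.H94.Lift

/-- refutations 0 -/
def e0 : EX := (.node (.node (.node .leaf (nat_lit 457922105627380) (.br (nat_lit 0) (.cons (.br (nat_lit 1) (.cons (.rel (nat_lit 42205200)) .nil)) .nil)) .leaf) (nat_lit 459602288658714) (.br (nat_lit 0) (.cons (.br (nat_lit 2) (.cons (.rel (nat_lit 71308290)) .nil)) .nil)) .leaf) (nat_lit 463247863211260) (.br (nat_lit 0) (.cons (.br (nat_lit 5) (.cons (.rel (nat_lit 4300210248)) .nil)) .nil)) (.node (.node .leaf (nat_lit 463247884497027) (.br (nat_lit 0) (.cons (.br (nat_lit 3) (.cons (.rel (nat_lit 272647680)) .nil)) .nil)) .leaf) (nat_lit 463253128362640) (.br (nat_lit 0) (.cons (.br (nat_lit 3) (.cons (.rel (nat_lit 541097988)) .nil)) .nil)) .leaf))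

/-- refutations 1 -/
def e1 : EX := (.node (.node (.node (.node (.node .leaf (nat_lit 464372431863285) (.br (nat_lit 3) (.cons (.br (nat_lit 5) (.cons (.rel (nat_lit 4563927048)) .nil)) .nil)) .leaf) (nat_lit 464372432910992) (.br (nat_lit 4) (.cons (.br (nat_lit 5) (.cons (.br (nat_lit 1) (.cons (.rel (nat_lit 4311747072)) (.cons (.rel (nat_lit 8606781441)) .nil))) .nil)) .nil)) .leaf) (nat_lit 464372432937616) (.br (nat_lit 0) (.cons (.br (nat_lit 2) (.cons (.rel (nat_lit 142623744)) .nil)) .nil)) (.node .leaf (nat_lit 464372433116023) (.br (nat_lit 0) (.cons (.br (nat_lit 3) (.cons (.rel (nat_lit 273159168)) .nil)) .nil)) .leaf)) (nat_lit 464372433206773) (.br (nat_lit 0) (.cons (.br (nat_lit 2) (.cons (.rel (nat_lit 75759681)) .nil)) .nil)) (.node (.node .leaf (nat_lit 464372433208183) (.br (nat_lit 1) (.cons (.br (nat_lit 6) (.cons (.rel (nat_lit 17213493504)) (.cons (.rel (nat_lit 17196650532)) .nil))) .nil)) .leaf) (nat_lit 464372433347316) (.br (nat_lit 3) (.cons (.br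 (nat_lit 5) (.cons (.rel (nat_lit 4564457472)) .nil)) .nil)) (.node .leaf (nat_lit 464373164916867) (.br (nat_lit 0) (.cons (.br (nat_lit 1) (.cons (.rel (nat_lit 21037569)) .nil)) .nil)) .leaf))) (nat_lit 464373167119267) (.br (nat_lit 4) (.cons (.br (nat_lit 5) (.cons (.rel (nat_lit 6443500548)) .nil)) .nil)) (.node (.node (.node (.node .leaf (nat_lit 464375120412149) (.br (nat_lit 0) (.cons (.br (nat_lit 2) (.cons (.rel (nat_lit 71337984)) .nil)) .nil)) .leaf) (nat_lit 464375121959699) (.br (nat_lit 0) (.cons (.br (nat_lit 2) (.cons (.rel (nat_lit 71337984)) .nil)) .nil)) .leaf) (nat_lit 464375264568083) (.br (nat_lit 2) (.cons (.br (nat_lit 3) (.cons (.rel (nat_lit 335568960)) (.cons (.rel (nat_lit 335545362)) .nil))) .nil)) (.node .leaf (nat_lit 464377323969299) (.br (nat_lit 0) (.cons (.br (nat_lit 2) (.cons (.rel (nat_lit 71337984)) .nil)) .nil)) .leaf)) (nat_lit 465342743493495) (.br (nat_lit 3) (.cons (.br (nat_lit 4) (.cons (.rel (nat_lit 1610613012)) .nil)) .nil)) (.node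 (.node .leaf (nat_lit 468240105425656) (.br (nat_lit 0) (.cons (.br (nat_lit 1) (.cons (.rel (nat_lit 37748805)) .nil)) .nil)) .leaf) (nat_lit 468573624245100) (.br (nat_lit 0) (.cons (.br (nat_lit 3) (.cons (.rel (nat_lit 272647680)) .nil)) .nil)) (.node .leaf (nat_lit 468577821156604) (.br (nat_lit 1) (.cons (.br (nat_lit 5) (.cons (.rel (nat_lit 8606712912)) .nil)) .nil)) .leaf))))

/-- refutations 3 -/
def e3 : EX := (.node (.node (.node (.node (.node .leaf (nat_lit 534740755293567) (.br (nat_lit 0) (.cons (.br (nat_lit 2) (.cons (.rel (nat_lit 71327745)) .nil)) .nil)) .leaf) (nat_lit 534740756888312) (.br (nat_lit 2) (.cons (.br (nat_lit 1) (.cons (.rel (nat_lit 83890320)) (.cons (.rel (nat_lit 100667712)) .nil))) .nil)) (.node .leaf (nat_lit 534740756888959) (.br (nat_lit 2) (.cons (.br (nat_lit 3) (.cons (.rel (nat_lit 335548500)) (.cons (.rel (nat_lit 336593154)) .nil))) (.cons (.br (nat_lit 3) (.cons (.rel (nat_lit 603997440)) (.cons (.rel (nat_lit 403701888)) .nil)))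 .nil))) .leaf)) (nat_lit 534740757852795) (.br (nat_lit 1) (.cons (.br (nat_lit 2) (.cons (.rel (nat_lit 83886177)) (.cons (.rel (nat_lit 83890320)) .nil))) .nil)) (.node (.node .leaf (nat_lit 534740758206591) (.br (nat_lit 1) (.cons (.br (nat_lit 3) (.cons (.rel (nat_lit 285507840)) (.cons (.rel (nat_lit 285214209)) .nil))) .nil)) .leaf) (nat_lit 534741142178048) (.br (nat_lit 0) (.cons (.br (nat_lit 2) (.cons (.rel (nat_lit 72683520)) .nil)) .nil)) .leaf)) (nat_lit 534741142550680) (.br (nat_lit 0) (.cons (.br (nat_lit 1) (.cons (.rel (nat_lit 25171968)) .nil)) .nil)) (.node (.node (.node .leaf (nat_lit 534741142556827) (.br (nat_lit 1) (.cons (.br (nat_lit 4) (.cons (.rel (nat_lit 2181058560)) .nil)) .nil)) .leaf) (nat_lit 534741142558177) (.br (nat_lit 0) (.cons (.br (nat_lit 1) (.cons (.rel (nat_lit 42205200)) .nil)) .nil)) (.node .leaf (nat_lit 534741142754040) (.br (nat_lit 0) (.cons (.br (nat_lit 3) (.cons (.rel (nat_lit 273679440)) .nil)) .nil)) .leaf)) (nat_lit 534741143560498)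 (.br (nat_lit 0) (.cons (.br (nat_lit 2) (.cons (.rel (nat_lit 71304336)) .nil)) .nil)) (.node (.node .leaf (nat_lit 534741143816952) (.br (nat_lit 4) (.cons (.br (nat_lit 3) (.cons (.rel (nat_lit 2684354640)) (.cons (.rel (nat_lit 1342185537)) .nil))) .nil)) .leaf) (nat_lit 534741143836978) (.br (nat_lit 0) (.cons (.br (nat_lit 6) (.cons (.rel (nat_lit 17184096321)) .nil)) .nil)) .leaf))) (nat_lit 534741143838049) (.br (nat_lit 2) (.cons (.br (nat_lit 4) (.cons (.rel (nat_lit 1141179396)) (.cons (.rel (nat_lit 1140850953)) .nil))) .nil)) (.node (.node (.node (.node .leaf (nat_lit 534741143992447) (.br (nat_lit 2) (.cons (.br (nat_lit 3) (.cons (.rel (nat_lit 335544357)) .nil)) .nil)) .leaf) (nat_lit 534741143992497) (.br (nat_lit 0) (.cons (.br (nat_lit 1) (.cons (.rel (nat_lit 21495840)) .nil)) .nil)) (.node .leaf (nat_lit 534741143993132) (.br (nat_lit 0) (.cons (.br (nat_lit 2) (.cons (.rel (nat_lit 71304336)) .nil)) .nil)) .leaf)) (nat_lit 534741143993580) (.br (nat_lit 0)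 (.cons (.br (nat_lit 1) (.cons (.rel (nat_lit 25198593)) .nil)) .nil)) (.node (.node .leaf (nat_lit 534741144043650) (.br (nat_lit 2) (.cons (.br (nat_lit 6) (.cons (.rel (nat_lit 17247310848)) .nil)) .nil)) .leaf) (nat_lit 534741144043697) (.br (nat_lit 6) (.cons (.br (nat_lit 5) (.cons (.rel (nat_lit 21474873348)) (.cons (.rel (nat_lit 21474840705)) (.cons (.rel (nat_lit 21474837576)) .nil)))) (.cons (.br (nat_lit 2) (.cons (.rel (nat_lit 17247310848)) (.cons (.rel (nat_lit 17246979456)) (.cons (.rel (nat_lit 34495021056)) .nil)))) .nil))) .leaf)) (nat_lit 534741144043700) (.br (nat_lit 2) (.cons (.br (nat_lit 3) (.cons (.rel (nat_lit 335546376)) (.cons (.rel (nat_lit 338173956)) .nil))) .nil)) (.node (.node (.node .leaf (nat_lit 534741144082559) (.br (nat_lit 6) (.cons (.br (nat_lit 5) (.cons (.rel (nat_lit 21474844704)) (.cons (.rel (nat_lit 25770065985)) .nil))) .nil)) .leaf) (nat_lit 534741144094875) (.br (nat_lit 0) (.cons (.br (nat_lit 2) (.cons (.rel (nat_lit 71450628))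 .nil)) .nil)) .leaf) (nat_lit 534741183111479) (.br (nat_lit 0) (.cons (.br (nat_lit 1) (.cons (.rel (nat_lit 21495840)) .nil)) .nil)) (.node (.node .leaf (nat_lit 534743996209912) (.br (nat_lit 0) (.cons (.br (nat_lit 1) (.cons (.rel (nat_lit 21250308)) .nil)) .nil)) .leaf) (nat_lit 534744499526392) (.br (nat_lit 0) (.cons (.br (nat_lit 2) (.cons (.rel (nat_lit 71304336)) .nil)) .nil)) .leaf))))

/-- refutations 5 -/
def e5 : EX := (.node (.node (.node .leaf (nat_lit 885255557157620) (.br (nat_lit 0) (.cons (.br (nat_lit 1) (.cons (.rel (nat_lit 21037569)) .nil)) .nil)) .leaf) (nat_lit 885258683497259) (.br (nat_lit 1) (.cons (.br (nat_lit 2) (.cons (.rel (nat_lit 83890320)) .nil)) .nil)) (.node .leaf (nat_lit 885259432377597) (.br (nat_lit 3) (.cons (.br (nat_lit 5) (.cons (.rel (nat_lit 4563666240)) .nil)) .nil)) .leaf)) (nat_lit 885259433697912) (.br (nat_lit 1) (.cons (.br (nat_lit 4) (.cons (.rel (nat_lit 1090600977)) .nil)) .nil)) (.node (.node .leaf (nat_lit 885259435229440)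 (.br (nat_lit 1) (.cons (.br (nat_lit 3) (.cons (.rel (nat_lit 285213204)) .nil)) .nil)) .leaf) (nat_lit 885259435449131) (.br (nat_lit 0) (.cons (.br (nat_lit 6) (.cons (.rel (nat_lit 17184065553)) .nil)) .nil)) (.node .leaf (nat_lit 885499834628856) (.br (nat_lit 0) (.cons (.br (nat_lit 1) (.cons (.rel (nat_lit 21250308)) .nil)) .nil)) .leaf)))

/-- refutations 6 -/
def e6 : EX := (.node (.node .leaf (nat_lit 892597914069803) (.br (nat_lit 1) (.cons (.br (nat_lit 2) (.cons (.rel (nat_lit 83894274)) .nil)) .nil)) .leaf) (nat_lit 892597915155064) (.br (nat_lit 1) (.cons (.br (nat_lit 6) (.cons (.rel (nat_lit 17196650532)) .nil)) .nil)) .leaf)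

/-- refutations 7 -/
def e7 : EX := (.node (.node (.node (.node .leaf (nat_lit 63276806904) (.br (nat_lit 0) (.cons (.br (nat_lit 1) (.cons (.rel (nat_lit 42205200)) .nil)) .nil)) .leaf) (nat_lit 63276807694) (.br (nat_lit 2) (.cons (.br (nat_lit 4) (.cons (.rel (nat_lit 1207965696)) .nil)) .nil)) (.node .leaf (nat_lit 63278356635) (.br (nat_lit 0) (.cons (.br (nat_lit 2) (.cons (.rel (nat_lit 71327745)) .nil)) .nil)) .leaf)) (nat_lit 63278455544) (.br (nat_lit 2) (.cons (.br (nat_lit 0) (.cons (.rel (nat_lit 71307285)) (.cons (.rel (nat_lit 71337984)) .nil))) .nil)) (.node (.node .leaf (nat_lit 5434631276850) (.br (nat_lit 0) (.cons (.br (nat_lit 1) (.cons (.rel (nat_lit 25198593)) .nil)) .nil)) .leaf) (nat_lit 5434737454593) (.br (nat_lit 0) (.cons (.br (nat_lit 1) (.cons (.rel (nat_lit 21037569)) .nil)) .nil)) .leaf)) (nat_lit 5434738670200) (.br (nat_lit 0) (.cons (.br (nat_lit 1) (.cons (.rel (nat_lit 22024209)) .nil)) .nil)) (.node (.node (.node .leaf (nat_lit 5434738670328)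 (.br (nat_lit 0) (.cons (.br (nat_lit 2) (.cons (.rel (nat_lit 71337984)) .nil)) .nil)) .leaf) (nat_lit 5434738670493) (.br (nat_lit 0) (.cons (.br (nat_lit 2) (.cons (.rel (nat_lit 142623744)) .nil)) .nil)) (.node .leaf (nat_lit 5435179072248) (.br (nat_lit 0) (.cons (.br (nat_lit 5) (.cons (.rel (nat_lit 4299424020)) .nil)) .nil)) .leaf)) (nat_lit 6980926642302) (.br (nat_lit 0) (.cons (.br (nat_lit 1) (.cons (.rel (nat_lit 20976132)) .nil)) .nil)) (.node (.node .leaf (nat_lit 11181402478848) (.br (nat_lit 0) (.cons (.br (nat_lit 1) (.cons (.rel (nat_lit 22028352)) .nil)) .nil)) .leaf) (nat_lit 11181404912541) (.br (nat_lit 2) (.cons (.br (nat_lit 4) (.cons (.rel (nat_lit 1141116945)) (.cons (.rel (nat_lit 1207976004)) (.cons (.rel (nat_lit 1141121088)) (.cons (.rel (nat_lit 1141116945)) .nil))))) .nil)) .leaf)))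

/-- refutations 8 -/
def e8 : EX := (.node (.node (.node (.node .leaf (nat_lit 915051519162655) (.br (nat_lit 1) (.cons (.br (nat_lit 3) (.cons (.rel (nat_lit 286344192)) .nil)) .nil)) .leaf) (nat_lit 915054005361400) (.br (nat_lit 0) (.cons (.br (nat_lit 3) (.cons (.rel (nat_lit 276956160)) .nil)) .nil)) .leaf) (nat_lit 916302164750462) (.br (nat_lit 1) (.cons (.br (nat_lit 3) (.cons (.rel (nat_lit 553664517)) .nil)) .nil)) (.node (.node .leaf (nat_lit 916357192391416) (.br (nat_lit 3) (.cons (.br (nat_lit 5) (.cons (.rel (nat_lit 4564484097)) .nil)) .nil)) .leaf) (nat_lit 916362939611423) (.br (nat_lit 4) (.cons (.br (nat_lit 6) (.cons (.rel (nat_lit 35433488388)) .nil)) .nil)) .leaf)) (nat_lit 916362942781595) (.br (nat_lit 3) (.cons (.br (nat_lit 5) (.cons (.rel (nat_lit 8859418884)) .nil)) .nil)) (.node (.node (.node .leaf (nat_lit 916362942782200) (.br (nat_lit 5) (.cons (.br (nat_lit 1) (.cons (.rel (nat_lit 4328554512)) (.cons (.rel (nat_lit 4328554512)) (.cons (.rel (nat_lit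 4328554512)) .nil)))) .nil)) .leaf) (nat_lit 916363566443403) (.br (nat_lit 0) (.cons (.br (nat_lit 2) (.cons (.rel (nat_lit 71311428)) .nil)) .nil)) .leaf) (nat_lit 916992844380221) (.br (nat_lit 0) (.cons (.br (nat_lit 2) (.cons (.rel (nat_lit 71327745)) (.cons (.rel (nat_lit 72352128)) .nil))) .nil)) (.node (.node .leaf (nat_lit 916992844380447) (.br (nat_lit 0) (.cons (.br (nat_lit 1) (.cons (.rel (nat_lit 21037569)) .nil)) .nil)) .leaf) (nat_lit 916997948848189) (.br (nat_lit 0) (.cons (.br (nat_lit 4) (.cons (.rel (nat_lit 2155876353)) (.cons (.rel (nat_lit 2155876353)) .nil))) .nil)) .leaf)))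

/-- refutations 9 -/
def e9 : EX := (.node (.node .leaf (nat_lit 922361556671224) (.br (nat_lit 6) (.cons (.br (nat_lit 0) (.cons (.br (nat_lit 5) (.cons (.rel (nat_lit 21474934785)) (.cons (.rel (nat_lit 4300280832)) .nil))) (.cons (.rel (nat_lit 17188258080)) .nil))) .nil)) .leaf) (nat_lit 926914648443656) (.br (nat_lit 2) (.cons (.br (nat_lit 4) (.cons (.rel (nat_lit 1140853008)) .nil)) .nil)) (.node .leaf (nat_lit 926917240524189) (.br (nat_lit 1) (.cons (.br (nat_lit 2) (.cons (.rel (nat_lit 167776257)) .nil)) .nil)) .leaf))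

/-- refutations 10 -/
def e10 : EX := (.node (.node (.node (.node (.node .leaf (nat_lit 985658378265252) (.br (nat_lit 3) (.cons (.br (nat_lit 6) (.cons (.rel (nat_lit 17448304713)) .nil)) .nil)) .leaf) (nat_lit 986726416347262) (.br (nat_lit 0) (.cons (.br (nat_lit 1) (.cons (.rel (nat_lit 20976132)) .nil)) .nil)) .leaf) (nat_lit 986726417536412) (.br (nat_lit 0) (.cons (.br (nat_lit 3) (.cons (.rel (nat_lit 272892162)) .nil)) .nil)) (.node (.node .leaf (nat_lit 986766027370626) (.br (nat_lit 6) (.cons (.br (nat_lit 1) (.cons (.rel (nat_lit 34393309188)) (.cons (.rel (nat_lit 17196655680)) .nil))) .nil)) .leaf) (nat_lit 986766029935348) (.br (nat_lit 0) (.cons (.br (nat_lit 6) (.cons (.rel (nat_lit 17184145440)) .nil)) .nil)) .leaf)) (nat_lit 991021383306753) (.br (nat_lit 0) (.cons (.br (nat_lit 2) (.cons (.rel (nat_lit 71311428)) (.cons (.rel (nat_lit 71304336)) .nil))) .nil)) (.node (.node (.node .leaf (nat_lit 991021383383290) (.br (nat_lit 3) (.cons (.br (nat_lit 5) (.cons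 (.rel (nat_lit 4831838229)) .nil)) .nil)) .leaf) (nat_lit 991021383538865) (.br (nat_lit 5) (.cons (.br (nat_lit 2) (.cons (.br (nat_lit 3) (.cons (.br (nat_lit 6) (.cons (.rel (nat_lit 17448306768)) (.cons (.rel (nat_lit 17448322080)) (.cons (.rel (nat_lit 21474844704)) (.cons (.rel (nat_lit 21474844704)) (.cons (.rel (nat_lit 38657064960)) .nil)))))) (.cons (.rel (nat_lit 4564467780)) .nil))) (.cons (.rel (nat_lit 4362078225)) .nil))) .nil)) .leaf) (nat_lit 991021383539448) (.br (nat_lit 0) (.cons (.br (nat_lit 2) (.cons (.rel (nat_lit 75759681)) .nil)) .nil)) (.node (.node .leaf (nat_lit 991021383540223) (.br (nat_lit 0) (.cons (.br (nat_lit 2) (.cons (.rel (nat_lit 71337984)) .nil)) .nil)) .leaf) (nat_lit 991021383592087) (.br (nat_lit 1) (.cons (.br (nat_lit 3) (.cons (.rel (nat_lit 285213204)) .nil)) .nil)) .leaf))) (nat_lit 991021383643262) (.br (nat_lit 0) (.cons (.br (nat_lit 2) (.cons (.rel (nat_lit 71308290)) .nil)) .nil)) (.node (.node (.node (.node .leaf (nat_lit 991021383643923)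 (.br (nat_lit 2) (.cons (.br (nat_lit 5) (.cons (.rel (nat_lit 4362082368)) .nil)) .nil)) .leaf) (nat_lit 991021384623615) (.br (nat_lit 3) (.cons (.br (nat_lit 4) (.cons (.rel (nat_lit 1610613012)) .nil)) .nil)) .leaf) (nat_lit 991021384832412) (.br (nat_lit 2) (.cons (.br (nat_lit 3) (.cons (.rel (nat_lit 336068928)) (.cons (.rel (nat_lit 335548500)) .nil))) (.cons (.br (nat_lit 3) (.cons (.rel (nat_lit 336068928)) (.cons (.rel (nat_lit 603980121)) .nil))) .nil))) (.node (.node .leaf (nat_lit 991021384883426) (.br (nat_lit 1) (.cons (.br (nat_lit 2) (.cons (.rel (nat_lit 83894274)) .nil)) .nil)) .leaf) (nat_lit 991021385656446) (.br (nat_lit 2) (.cons (.br (nat_lit 3) (.cons (.rel (nat_lit 335544357)) .nil)) .nil)) .leaf)) (nat_lit 991021385656975) (.br (nat_lit 3) (.cons (.br (nat_lit 6) (.cons (.rel (nat_lit 34629353472)) .nil)) .nil)) (.node (.node (.node .leaf (nat_lit 991021385861907) (.br (nat_lit 2) (.cons (.br (nat_lit 3) (.cons (.rel (nat_lit 335545362)) .nil)) .nil))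 .leaf) (nat_lit 991021385917176) (.br (nat_lit 0) (.cons (.br (nat_lit 2) (.cons (.rel (nat_lit 75759681)) .nil)) .nil)) .leaf) (nat_lit 991021386100862) (.br (nat_lit 0) (.cons (.br (nat_lit 2) (.cons (.rel (nat_lit 71304336)) .nil)) .nil)) (.node (.node .leaf (nat_lit 991023607813532) (.br (nat_lit 0) (.cons (.br (nat_lit 2) (.cons (.rel (nat_lit 71337984)) .nil)) .nil)) .leaf) (nat_lit 991024575248634) (.br (nat_lit 0) (.cons (.br (nat_lit 4) (.cons (.rel (nat_lit 1077954561)) .nil)) .nil)) .leaf))))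

/-- refutations 11 -/
def e11 : EX := (.node (.node (.node .leaf (nat_lit 992140591384882) (.br (nat_lit 0) (.cons (.br (nat_lit 1) (.cons (.rel (nat_lit 20976132)) .nil)) .nil)) .leaf) (nat_lit 996162829577729) (.br (nat_lit 0) (.cons (.br (nat_lit 1) (.cons (.rel (nat_lit 22086660)) .nil)) .nil)) (.node .leaf (nat_lit 997206137738652) (.br (nat_lit 6) (.cons (.br (nat_lit 1) (.cons (.rel (nat_lit 17196651537)) (.cons (.rel (nat_lit 17196655680)) .nil))) .nil)) .leaf)) (nat_lit 997420887495412) (.br (nat_lit 1) (.cons (.br (nat_lit 3) (.cons (.rel (nat_lit 285213204)) .nil)) .nil)) (.node (.node .leaf (nat_lit 997489605690131) (.br (nat_lit 1) (.cons (.br (nat_lit 2) (.cons (.rel (nat_lit 83969088)) .nil)) .nil)) .leaf) (nat_lit 997489606972148) (.br (nat_lit 0) (.cons (.br (nat_lit 1) (.cons (.rel (nat_lit 21495840)) .nil)) .nil)) .leaf))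

/-- refutations 13 -/
def e13 : EX := (.node (.node (.node (.node .leaf (nat_lit 1002969385442040) (.br (nat_lit 0) (.cons (.br (nat_lit 2) (.cons (.rel (nat_lit 71311428)) (.cons (.rel (nat_lit 71368722)) .nil))) (.cons (.br (nat_lit 1) (.cons (.rel (nat_lit 42205200)) (.cons (.rel (nat_lit 21516312)) .nil))) .nil))) .leaf) (nat_lit 1008338092001415) (.br (nat_lit 0) (.cons (.br (nat_lit 4) (.cons (.rel (nat_lit 1077954561)) .nil)) .nil)) .leaf) (nat_lit 1008338094267275) (.br (nat_lit 1) (.cons (.br (nat_lit 2) (.cons (.rel (nat_lit 83894274)) .nil)) .nil)) (.node (.node .leaf (nat_lit 1008338094449440) (.br (nat_lit 0) (.cons (.br (nat_lit 2) (.cons (.rel (nat_lit 71319648)) .nil)) .nil)) .leaf) (nat_lit 1008338094513015) (.br (nat_lit 0) (.cons (.br (nat_lit 1) (.cons (.rel (nat_lit 26280192)) .nil)) .nil)) .leaf)) (nat_lit 1008338798683362) (.br (nat_lit 0) (.cons (.br (nat_lit 2) (.cons (.rel (nat_lit 71372865)) .nil)) .nil)) (.node (.node (.node .leaf (nat_lit 1008339117986479)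 (.br (nat_lit 0) (.cons (.br (nat_lit 2) (.cons (.rel (nat_lit 71307285)) .nil)) .nil)) .leaf) (nat_lit 1008344360303248) (.br (nat_lit 0) (.cons (.br (nat_lit 2) (.cons (.rel (nat_lit 71308290)) .nil)) .nil)) .leaf) (nat_lit 1008344360508179) (.br (nat_lit 0) (.cons (.br (nat_lit 3) (.cons (.rel (nat_lit 541069344)) .nil)) .nil)) (.node .leaf (nat_lit 1008344360803564) (.br (nat_lit 0) (.cons (.br (nat_lit 1) (.cons (.rel (nat_lit 22024209)) .nil)) .nil)) .leaf)))

/-- refutations 14 -/
def e14 : EX := (.node (.node (.node (.node (.node (.node .leaf (nat_lit 1008604983647095) (.br (nat_lit 2) (.cons (.br (nat_lit 3) (.cons (.rel (nat_lit 671089668)) .nil)) .nil)) .leaf) (nat_lit 1008604983907064) (.br (nat_lit 2) (.cons (.br (nat_lit 4) (.cons (.rel (nat_lit 1140883776)) .nil)) .nil)) .leaf) (nat_lit 1008604984663521) (.br (nat_lit 1) (.cons (.br (nat_lit 4) (.cons (.rel (nat_lit 1090521090)) .nil)) .nil)) (.node (.node .leaf (nat_lit 1008604985965821) (.br (nat_lit 0) (.cons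 (.br (nat_lit 4) (.cons (.rel (nat_lit 1078493442)) .nil)) .nil)) .leaf) (nat_lit 1008604985991955) (.br (nat_lit 5) (.cons (.br (nat_lit 6) (.cons (.rel (nat_lit 21474844704)) .nil)) .nil)) .leaf)) (nat_lit 1008604986219256) (.br (nat_lit 2) (.cons (.br (nat_lit 3) (.cons (.rel (nat_lit 335546376)) .nil)) .nil)) (.node (.node (.node .leaf (nat_lit 1008604986465043) (.br (nat_lit 5) (.cons (.br (nat_lit 2) (.cons (.rel (nat_lit 8724152325)) (.cons (.rel (nat_lit 4362076170)) .nil))) .nil)) .leaf) (nat_lit 1008605087128339) (.br (nat_lit 0) (.cons (.br (nat_lit 4) (.cons (.rel (nat_lit 1077954561)) .nil)) .nil)) .leaf) (nat_lit 1008610895970991) (.br (nat_lit 0) (.cons (.br (nat_lit 5) (.cons (.rel (nat_lit 4299718656)) .nil)) .nil)) (.node (.node .leaf (nat_lit 1009730265325748) (.br (nat_lit 2) (.cons (.br (nat_lit 0) (.cons (.rel (nat_lit 142623744)) (.cons (.rel (nat_lit 72352128)) .nil))) .nil)) .leaf) (nat_lit 1009730265328403) (.br (nat_lit 3) (.cons (.br (nat_lit 5) (.cons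 (.rel (nat_lit 8858372097)) .nil)) .nil)) .leaf))) (nat_lit 1009730265338616) (.br (nat_lit 2) (.cons (.br (nat_lit 3) (.cons (.rel (nat_lit 671089668)) (.cons (.rel (nat_lit 335544357)) .nil))) (.cons (.br (nat_lit 3) (.cons (.rel (nat_lit 335568960)) (.cons (.rel (nat_lit 335546376)) .nil))) .nil))) (.node (.node (.node (.node .leaf (nat_lit 1009730266064383) (.br (nat_lit 1) (.cons (.br (nat_lit 2) (.cons (.rel (nat_lit 100941888)) .nil)) .nil)) .leaf) (nat_lit 1009730266094845) (.br (nat_lit 3) (.cons (.br (nat_lit 5) (.cons (.rel (nat_lit 4563927048)) .nil)) .nil)) .leaf) (nat_lit 1009730266095004) (.br (nat_lit 1) (.cons (.br (nat_lit 5) (.cons (.rel (nat_lit 8606720004)) .nil)) .nil)) (.node (.node .leaf (nat_lit 1009730266361345) (.br (nat_lit 0) (.cons (.br (nat_lit 6) (.cons (.rel (nat_lit 17184065553)) .nil)) .nil)) .leaf) (nat_lit 1009730266420705) (.br (nat_lit 0) (.cons (.br (nat_lit 3) (.cons (.rel (nat_lit 273159168)) .nil)) .nil)) .leaf)) (nat_lit 1009730266568092)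 (.br (nat_lit 0) (.cons (.br (nat_lit 3) (.cons (.rel (nat_lit 541097988)) .nil)) .nil)) (.node (.node (.node .leaf (nat_lit 1009730266675855) (.br (nat_lit 0) (.cons (.br (nat_lit 4) (.cons (.rel (nat_lit 1077944322)) .nil)) .nil)) .leaf) (nat_lit 1009730266680056) (.br (nat_lit 5) (.cons (.br (nat_lit 0) (.cons (.rel (nat_lit 4299424020)) (.cons (.rel (nat_lit 8598601728)) .nil))) .nil)) .leaf) (nat_lit 1009730267333364) (.br (nat_lit 2) (.cons (.br (nat_lit 3) (.cons (.rel (nat_lit 335627268)) .nil)) .nil)) (.node .leaf (nat_lit 1009730267345798) (.br (nat_lit 0) (.cons (.br (nat_lit 1) (.cons (.rel (nat_lit 20976132)) .nil)) .nil)) .leaf)))) (nat_lit 1009730267396752) (.br (nat_lit 0) (.cons (.br (nat_lit 5) (.cons (.rel (nat_lit 4299718656)) (.cons (.rel (nat_lit 4299425025)) .nil))) (.cons (.br (nat_lit 4) (.cons (.rel (nat_lit 1078005768)) (.cons (.rel (nat_lit 1078005768)) .nil))) .nil))) (.node (.node (.node (.node (.node .leaf (nat_lit 1009730267396896) (.br (nat_lit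 3) (.cons (.br (nat_lit 4) (.cons (.rel (nat_lit 1342195776)) .nil)) .nil)) .leaf) (nat_lit 1009730267423507) (.br (nat_lit 1) (.cons (.br (nat_lit 2) (.cons (.rel (nat_lit 83955720)) .nil)) .nil)) .leaf) (nat_lit 1009730267628276) (.br (nat_lit 2) (.cons (.br (nat_lit 3) (.cons (.rel (nat_lit 335708160)) .nil)) .nil)) (.node (.node .leaf (nat_lit 1009730267650955) (.br (nat_lit 1) (.cons (.br (nat_lit 3) (.cons (.rel (nat_lit 285214209)) .nil)) .nil)) .leaf) (nat_lit 1009730267650983) (.br (nat_lit 2) (.cons (.br (nat_lit 6) (.cons (.rel (nat_lit 17246982405)) .nil)) .nil)) .leaf)) (nat_lit 1009730267832976) (.br (nat_lit 3) (.cons (.br (nat_lit 5) (.cons (.rel (nat_lit 4563407376)) .nil)) .nil)) (.node (.node (.node .leaf (nat_lit 1009730267896595) (.br (nat_lit 1) (.cons (.br (nat_lit 3) (.cons (.rel (nat_lit 553779216)) (.cons (.rel (nat_lit 553779216)) .nil))) (.cons (.br (nat_lit 5) (.cons (.rel (nat_lit 8623489302)) (.cons (.rel (nat_lit 4312809600)) .nil))) .nil))) .leaf)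 (nat_lit 1009730267945720) (.br (nat_lit 1) (.cons (.br (nat_lit 6) (.cons (.rel (nat_lit 17196646533)) (.cons (.rel (nat_lit 17197170960)) .nil))) (.cons (.br (nat_lit 2) (.cons (.rel (nat_lit 84017157)) (.cons (.rel (nat_lit 167776257)) (.cons (.rel (nat_lit 167776257)) .nil)))) .nil))) .leaf) (nat_lit 1009730267955960) (.br (nat_lit 6) (.cons (.br (nat_lit 5) (.cons (.rel (nat_lit 21474934785)) (.cons (.rel (nat_lit 42949677072)) .nil))) .nil)) (.node .leaf (nat_lit 1009730267955986) (.br (nat_lit 0) (.cons (.br (nat_lit 3) (.cons (.rel (nat_lit 273159168)) .nil)) .nil)) .leaf))) (nat_lit 1009730267960052) (.br (nat_lit 2) (.cons (.br (nat_lit 5) (.cons (.rel (nat_lit 4362076170)) (.cons (.rel (nat_lit 8724152325)) .nil))) .nil)) (.node (.node (.node (.node .leaf (nat_lit 1009732485207521) (.br (nat_lit 3) (.cons (.br (nat_lit 4) (.cons (.rel (nat_lit 1342177440)) .nil)) .nil)) .leaf) (nat_lit 1009732822287096) (.br (nat_lit 3) (.cons (.br (nat_lit 6) (.cons (.rel (nat_lit 17448337536))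 .nil)) .nil)) .leaf) (nat_lit 1010322368075164) (.br (nat_lit 3) (.cons (.br (nat_lit 4) (.cons (.rel (nat_lit 1342181394)) .nil)) .nil)) (.node (.node .leaf (nat_lit 1010322368904055) (.br (nat_lit 2) (.cons (.br (nat_lit 3) (.cons (.rel (nat_lit 671170560)) .nil)) .nil)) .leaf) (nat_lit 1010322369198967) (.br (nat_lit 3) (.cons (.br (nat_lit 4) (.cons (.rel (nat_lit 1342185537)) .nil)) .nil)) .leaf)) (nat_lit 1010322369452808) (.br (nat_lit 1) (.cons (.br (nat_lit 3) (.cons (.rel (nat_lit 285213204)) .nil)) .nil)) (.node (.node (.node .leaf (nat_lit 1010322971581693) (.br (nat_lit 0) (.cons (.br (nat_lit 3) (.cons (.rel (nat_lit 541097988)) .nil)) .nil)) .leaf) (nat_lit 1010323391544556) (.br (nat_lit 1) (.cons (.br (nat_lit 2) (.cons (.rel (nat_lit 83888196)) .nil)) .nil)) .leaf) (nat_lit 1010323392340755) (.br (nat_lit 3) (.cons (.br (nat_lit 5) (.cons (.rel (nat_lit 4831838229)) .nil)) .nil)) (.node .leaf (nat_lit 1010325190841756) (.br (nat_lit 1) (.cons (.br (nat_lit 4)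 (.cons (.rel (nat_lit 1090650240)) .nil)) .nil)) .leaf)))))

/-- refutations 15 -/
def e15 : EX := (.node (.node (.node .leaf (nat_lit 1010700326279928) (.br (nat_lit 1) (.cons (.br (nat_lit 2) (.cons (.rel (nat_lit 100941888)) .nil)) .nil)) .leaf) (nat_lit 1010700930497272) (.br (nat_lit 0) (.cons (.br (nat_lit 1) (.cons (.rel (nat_lit 22028352)) .nil)) .nil)) (.node .leaf (nat_lit 1010703149355764) (.br (nat_lit 2) (.cons (.br (nat_lit 3) (.cons (.rel (nat_lit 335544357)) .nil)) .nil)) .leaf)) (nat_lit 1013595738463733) (.br (nat_lit 0) (.cons (.br (nat_lit 4) (.cons (.rel (nat_lit 1077944322)) .nil)) .nil)) (.node (.node .leaf (nat_lit 1015726041741968) (.br (nat_lit 2) (.cons (.br (nat_lit 4) (.cons (.rel (nat_lit 1140883776)) .nil)) .nil)) .leaf) (nat_lit 1015734027950840) (.br (nat_lit 0) (.cons (.br (nat_lit 2) (.cons (.rel (nat_lit 71308290)) .nil)) .nil)) .leaf))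

/-- refutations 16 -/
def e16 : EX := (.node (.node (.node .leaf (nat_lit 898341359333531) (.br (nat_lit 2) (.cons (.br (nat_lit 5) (.cons (.rel (nat_lit 8724152325)) .nil)) .nil)) .leaf) (nat_lit 909247723627772) (.br (nat_lit 0) (.cons (.br (nat_lit 1) (.cons (.rel (nat_lit 37757952)) .nil)) .nil)) .leaf) (nat_lit 909247724098972) (.br (nat_lit 0) (.cons (.br (nat_lit 1) (.cons (.rel (nat_lit 25198593)) .nil)) .nil)) (.node .leaf (nat_lit 909247724138651) (.br (nat_lit 0) (.cons (.br (nat_lit 2) (.cons (.rel (nat_lit 71319648)) .nil)) .nil)) .leaf))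

/-- refutations 17 -/
def e17 : EX := (.node (.node (.node (.node .leaf (nat_lit 2216873287976463) (.br (nat_lit 0) (.cons (.br (nat_lit 2) (.cons (.rel (nat_lit 71304336)) .nil)) .nil)) .leaf) (nat_lit 2216878414447279) (.br (nat_lit 1) (.cons (.br (nat_lit 2) (.cons (.rel (nat_lit 83888196)) .nil)) .nil)) .leaf) (nat_lit 2217689332796152) (.br (nat_lit 1) (.cons (.br (nat_lit 2) (.cons (.rel (nat_lit 84017157)) .nil)) .nil)) (.node .leaf (nat_lit 2217690486586231) (.br (nat_lit 0) (.cons (.br (nat_lit 1) (.cons (.rel (nat_lit 37757952)) .nil)) .nil)) .leaf)) (nat_lit 2217690486727456) (.br (nat_lit 0) (.cons (.br (nat_lit 2) (.cons (.rel (nat_lit 71319648)) .nil)) .nil)) (.node (.node .leaf (nat_lit 2218814614227731) (.br (nat_lit 1) (.cons (.br (nat_lit 2) (.cons (.rel (nat_lit 83888196)) .nil)) .nil)) .leaf) (nat_lit 2218819737399602) (.br (nat_lit 0) (.cons (.br (nat_lit 2) (.cons (.rel (nat_lit 71337984)) .nil)) .nil)) (.node .leaf (nat_lit 2218819738475746) (.br (nat_lit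 0) (.cons (.br (nat_lit 2) (.cons (.rel (nat_lit 71337984)) .nil)) .nil)) .leaf)))

/-- refutations 18 -/
def e18 : EX := (.node (.node (.node (.node .leaf (nat_lit 2219086143082657) (.br (nat_lit 2) (.cons (.br (nat_lit 3) (.cons (.rel (nat_lit 335546376)) .nil)) .nil)) .leaf) (nat_lit 2219086143888610) (.br (nat_lit 2) (.cons (.br (nat_lit 0) (.cons (.rel (nat_lit 71308290)) (.cons (.rel (nat_lit 71827713)) .nil))) .nil)) .leaf) (nat_lit 2219086145641235) (.br (nat_lit 0) (.cons (.br (nat_lit 2) (.cons (.rel (nat_lit 142623744)) .nil)) .nil)) (.node .leaf (nat_lit 2219086729988402) (.br (nat_lit 0) (.cons (.br (nat_lit 1) (.cons (.rel (nat_lit 42205200)) .nil)) .nil)) .leaf)) (nat_lit 2219087051316131) (.br (nat_lit 0) (.cons (.br (nat_lit 2) (.cons (.rel (nat_lit 75563268)) .nil)) .nil)) (.node (.node (.node .leaf (nat_lit 2222200201123069) (.br (nat_lit 1) (.cons (.br (nat_lit 5) (.cons (.rel (nat_lit 4312268868)) .nil)) .nil)) .leaf) (nat_lit 2222200201123228) (.br (nat_lit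 1) (.cons (.br (nat_lit 5) (.cons (.rel (nat_lit 4312268868)) .nil)) .nil)) .leaf) (nat_lit 2222465336427183) (.br (nat_lit 0) (.cons (.br (nat_lit 2) (.cons (.rel (nat_lit 71337984)) .nil)) .nil)) (.node .leaf (nat_lit 2222466288624403) (.br (nat_lit 0) (.cons (.br (nat_lit 3) (.cons (.rel (nat_lit 541132800)) .nil)) .nil)) .leaf)))

/-- refutations 19 -/
def e19 : EX := (.node (.node (.node (.node (.node (.node .leaf (nat_lit 2223590615388466) (.br (nat_lit 2) (.cons (.br (nat_lit 5) (.cons (.rel (nat_lit 4362082368)) .nil)) .nil)) .leaf) (nat_lit 2223590615409427) (.br (nat_lit 0) (.cons (.br (nat_lit 2) (.cons (.rel (nat_lit 71304336)) .nil)) .nil)) (.node .leaf (nat_lit 2223590615910682) (.br (nat_lit 0) (.cons (.br (nat_lit 2) (.cons (.rel (nat_lit 71327745)) .nil)) .nil)) .leaf)) (nat_lit 2223590616826643) (.br (nat_lit 2) (.cons (.br (nat_lit 4) (.cons (.rel (nat_lit 1207965696)) (.cons (.rel (nat_lit 1141121088)) .nil))) .nil)) (.node (.node .leaf (nat_lit 2223590616827116)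 (.br (nat_lit 2) (.cons (.br (nat_lit 5) (.cons (.rel (nat_lit 4362078225)) .nil)) .nil)) .leaf) (nat_lit 2223590617092883) (.br (nat_lit 0) (.cons (.br (nat_lit 1) (.cons (.rel (nat_lit 25171968)) .nil)) .nil)) (.node .leaf (nat_lit 2223590617859298) (.br (nat_lit 0) (.cons (.br (nat_lit 2) (.cons (.rel (nat_lit 71307285)) .nil)) .nil)) .leaf))) (nat_lit 2223590617860126) (.br (nat_lit 0) (.cons (.br (nat_lit 4) (.cons (.rel (nat_lit 1077944322)) .nil)) .nil)) (.node (.node (.node .leaf (nat_lit 2223590617860883) (.br (nat_lit 3) (.cons (.br (nat_lit 4) (.cons (.rel (nat_lit 2684354640)) .nil)) .nil)) .leaf) (nat_lit 2223590617948947) (.br (nat_lit 3) (.cons (.br (nat_lit 4) (.cons (.rel (nat_lit 1342182408)) .nil)) .nil)) (.node .leaf (nat_lit 2223590617949091) (.br (nat_lit 0) (.cons (.br (nat_lit 4) (.cons (.rel (nat_lit 1078005768)) (.cons (.rel (nat_lit 1078005768)) .nil))) .nil)) .leaf)) (nat_lit 2223590618116731) (.br (nat_lit 0) (.cons (.br (nat_lit 1) (.cons (.rel (nat_lit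 20976132)) .nil)) .nil)) (.node (.node .leaf (nat_lit 2223590618127123) (.br (nat_lit 3) (.cons (.br (nat_lit 4) (.cons (.rel (nat_lit 1342243845)) (.cons (.rel (nat_lit 1342182408)) .nil))) .nil)) .leaf) (nat_lit 2223590618153891) (.br (nat_lit 2) (.cons (.br (nat_lit 6) (.cons (.rel (nat_lit 34495021056)) .nil)) .nil)) (.node .leaf (nat_lit 2223590618215285) (.br (nat_lit 0) (.cons (.br (nat_lit 1) (.cons (.rel (nat_lit 21495840)) .nil)) .nil)) .leaf)))) (nat_lit 2223590618422035) (.br (nat_lit 0) (.cons (.br (nat_lit 4) (.cons (.rel (nat_lit 1078199808)) (.cons (.rel (nat_lit 1077974016)) .nil))) (.cons (.br (nat_lit 4) (.cons (.rel (nat_lit 1082392584)) (.cons (.rel (nat_lit 1078067205)) .nil))) .nil))) (.node (.node (.node (.node .leaf (nat_lit 2223591103159708) (.br (nat_lit 0) (.cons (.br (nat_lit 1) (.cons (.rel (nat_lit 25182276)) .nil)) .nil)) .leaf) (nat_lit 2223591103159777) (.br (nat_lit 0) (.cons (.br (nat_lit 1) (.cons (.rel (nat_lit 22086660)) .nil)) .nil)) (.node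 .leaf (nat_lit 2223591103632796) (.br (nat_lit 0) (.cons (.br (nat_lit 1) (.cons (.rel (nat_lit 21495840)) .nil)) .nil)) .leaf)) (nat_lit 2223591103632865) (.br (nat_lit 0) (.cons (.br (nat_lit 3) (.cons (.rel (nat_lit 273679440)) .nil)) .nil)) (.node (.node .leaf (nat_lit 2223591104461456) (.br (nat_lit 0) (.cons (.br (nat_lit 1) (.cons (.rel (nat_lit 37748805)) .nil)) .nil)) .leaf) (nat_lit 2223591104756512) (.br (nat_lit 3) (.cons (.br (nat_lit 5) (.cons (.rel (nat_lit 4831858689)) .nil)) .nil)) (.node .leaf (nat_lit 2223591750322963) (.br (nat_lit 1) (.cons (.br (nat_lit 4) (.cons (.rel (nat_lit 1090524228)) .nil)) .nil)) .leaf))) (nat_lit 2223591768843027) (.br (nat_lit 1) (.cons (.br (nat_lit 2) (.cons (.rel (nat_lit 83890320)) .nil)) .nil)) (.node (.node (.node .leaf (nat_lit 2223591769000242) (.br (nat_lit 0) (.cons (.br (nat_lit 6) (.cons (.rel (nat_lit 17184063498)) (.cons (.rel (nat_lit 34368126981)) .nil))) .nil)) .leaf) (nat_lit 2223591769000692) (.br (nat_lit 2) (.cons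 (.br (nat_lit 5) (.cons (.rel (nat_lit 8724152325)) .nil)) .nil)) (.node .leaf (nat_lit 2223591769000736) (.br (nat_lit 0) (.cons (.br (nat_lit 2) (.cons (.rel (nat_lit 139460673)) .nil)) .nil)) .leaf)) (nat_lit 2223591769256191) (.br (nat_lit 2) (.cons (.br (nat_lit 5) (.cons (.rel (nat_lit 4362092676)) (.cons (.rel (nat_lit 8724152325)) .nil))) .nil)) (.node (.node .leaf (nat_lit 2223591769257213) (.br (nat_lit 2) (.cons (.br (nat_lit 4) (.cons (.rel (nat_lit 1140850953)) .nil)) .nil)) .leaf) (nat_lit 2223591770023148) (.br (nat_lit 0) (.cons (.br (nat_lit 1) (.cons (.rel (nat_lit 25182276)) .nil)) .nil)) (.node .leaf (nat_lit 2223591770023195) (.br (nat_lit 0) (.cons (.br (nat_lit 1) (.cons (.rel (nat_lit 25182276)) .nil)) .nil)) .leaf))))) (nat_lit 2223591770260706) (.br (nat_lit 2) (.cons (.br (nat_lit 5) (.cons (.rel (nat_lit 8724152325)) .nil)) .nil)) (.node (.node (.node (.node (.node .leaf (nat_lit 2223591770318060) (.br (nat_lit 0) (.cons (.br (nat_lit 1) (.cons (.rel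 (nat_lit 21250308)) .nil)) .nil)) .leaf) (nat_lit 2223591770526002) (.br (nat_lit 2) (.cons (.br (nat_lit 3) (.cons (.rel (nat_lit 335544357)) .nil)) .nil)) (.node .leaf (nat_lit 2223591771292404) (.br (nat_lit 0) (.cons (.br (nat_lit 2) (.cons (.rel (nat_lit 71307285)) .nil)) .nil)) .leaf)) (nat_lit 2223591771294352) (.br (nat_lit 4) (.cons (.br (nat_lit 0) (.cons (.rel (nat_lit 2155905045)) (.cons (.rel (nat_lit 1078067205)) .nil))) .nil)) (.node (.node .leaf (nat_lit 2223591771294456) (.br (nat_lit 5) (.cons (.br (nat_lit 4) (.cons (.rel (nat_lit 5368713252)) (.cons (.rel (nat_lit 10737434628)) (.cons (.rel (nat_lit 5368776708)) .nil)))) .nil)) .leaf) (nat_lit 2223591771294482) (.br (nat_lit 5) (.cons (.br (nat_lit 6) (.cons (.rel (nat_lit 21474908160)) .nil)) .nil)) (.node .leaf (nat_lit 2223591771294598) (.br (nat_lit 3) (.cons (.br (nat_lit 0) (.cons (.rel (nat_lit 276956160)) (.cons (.rel (nat_lit 541069344)) .nil))) .nil)) .leaf))) (nat_lit 2223591771355792) (.br (nat_lit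 1) (.cons (.br (nat_lit 4) (.cons (.rel (nat_lit 2181038100)) .nil)) .nil)) (.node (.node (.node .leaf (nat_lit 2223591771355892) (.br (nat_lit 3) (.cons (.br (nat_lit 0) (.cons (.rel (nat_lit 272892162)) (.cons (.rel (nat_lit 272647680)) .nil))) .nil)) .leaf) (nat_lit 2223591771382416) (.br (nat_lit 5) (.cons (.br (nat_lit 0) (.cons (.rel (nat_lit 4299425025)) (.cons (.rel (nat_lit 8594134020)) .nil))) .nil)) (.node .leaf (nat_lit 2223591771382547) (.br (nat_lit 0) (.cons (.br (nat_lit 2) (.cons (.rel (nat_lit 77070336)) .nil)) .nil)) .leaf)) (nat_lit 2223591771550002) (.br (nat_lit 0) (.cons (.br (nat_lit 1) (.cons (.rel (nat_lit 21037569)) .nil)) .nil)) (.node (.node .leaf (nat_lit 2223591771587316) (.br (nat_lit 3) (.cons (.br (nat_lit 5) (.cons (.rel (nat_lit 9127067652)) .nil)) .nil)) .leaf) (nat_lit 2223591771609990) (.br (nat_lit 0) (.cons (.br (nat_lit 1) (.cons (.rel (nat_lit 22024209)) .nil)) .nil)) (.node .leaf (nat_lit 2223591771609995) (.br (nat_lit 1) (.cons (.br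 (nat_lit 6) (.cons (.rel (nat_lit 17196655680)) .nil)) .nil)) .leaf)))) (nat_lit 2223591771650704) (.br (nat_lit 0) (.cons (.br (nat_lit 1) (.cons (.rel (nat_lit 21037569)) (.cons (.rel (nat_lit 21037569)) .nil))) .nil)) (.node (.node (.node (.node .leaf (nat_lit 2223591771652278) (.br (nat_lit 1) (.cons (.br (nat_lit 2) (.cons (.rel (nat_lit 83890320)) .nil)) .nil)) .leaf) (nat_lit 2223591771652883) (.br (nat_lit 2) (.cons (.br (nat_lit 4) (.cons (.rel (nat_lit 2282749968)) .nil)) .nil)) (.node .leaf (nat_lit 2223591771652998) (.br (nat_lit 0) (.cons (.br (nat_lit 1) (.cons (.rel (nat_lit 21250308)) .nil)) .nil)) .leaf)) (nat_lit 2223591771792016) (.br (nat_lit 0) (.cons (.br (nat_lit 3) (.cons (.rel (nat_lit 274727232)) (.cons (.rel (nat_lit 272892162)) .nil))) (.cons (.br (nat_lit 3) (.cons (.rel (nat_lit 274727232)) (.cons (.rel (nat_lit 541097988)) .nil))) .nil))) (.node (.node .leaf (nat_lit 2223591771792160) (.br (nat_lit 4) (.cons (.br (nat_lit 0) (.cons (.rel (nat_lit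 1078005768)) (.cons (.rel (nat_lit 1077938244)) (.cons (.rel (nat_lit 1077944322)) (.cons (.rel (nat_lit 2155876353)) .nil))))) .nil)) .leaf) (nat_lit 2223591771918642) (.br (nat_lit 2) (.cons (.br (nat_lit 4) (.cons (.rel (nat_lit 2282749968)) .nil)) .nil)) (.node .leaf (nat_lit 2223596765795809) (.br (nat_lit 2) (.cons (.br (nat_lit 3) (.cons (.rel (nat_lit 335546376)) .nil)) .nil)) .leaf))) (nat_lit 2223596767066999) (.br (nat_lit 0) (.cons (.br (nat_lit 2) (.cons (.rel (nat_lit 71827713)) .nil)) .nil)) (.node (.node (.node .leaf (nat_lit 2223596993202311) (.br (nat_lit 2) (.cons (.br (nat_lit 3) (.cons (.rel (nat_lit 335627268)) .nil)) .nil)) .leaf) (nat_lit 2224183320777464) (.br (nat_lit 0) (.cons (.br (nat_lit 3) (.cons (.rel (nat_lit 272647680)) .nil)) .nil)) (.node .leaf (nat_lit 2224183322155170) (.br (nat_lit 0) (.cons (.br (nat_lit 1) (.cons (.rel (nat_lit 25171968)) .nil)) .nil)) .leaf)) (nat_lit 2224183323613971) (.br (nat_lit 0) (.cons (.br (nat_lit 4) (.cons (.rel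 (nat_lit 1077944322)) .nil)) .nil)) (.node (.node .leaf (nat_lit 2224183810384672) (.br (nat_lit 3) (.cons (.br (nat_lit 4) (.cons (.rel (nat_lit 1342195776)) .nil)) .nil)) .leaf) (nat_lit 2224184274215194) (.br (nat_lit 2) (.cons (.br (nat_lit 3) (.cons (.rel (nat_lit 335545362)) .nil)) .nil)) (.node .leaf (nat_lit 2224188566788883) (.br (nat_lit 0) (.cons (.br (nat_lit 3) (.cons (.rel (nat_lit 276956160)) .nil)) .nil)) .leaf))))))

/-- refutations 20 -/
def e20 : EX := (.node (.node (.node .leaf (nat_lit 2227457241860856) (.br (nat_lit 2) (.cons (.br (nat_lit 4) (.cons (.rel (nat_lit 1140883776)) .nil)) .nil)) .leaf) (nat_lit 2227570863288626) (.br (nat_lit 0) (.cons (.br (nat_lit 4) (.cons (.rel (nat_lit 1077940368)) .nil)) .nil)) (.node .leaf (nat_lit 2227837281258272) (.br (nat_lit 2) (.cons (.br (nat_lit 6) (.cons (.rel (nat_lit 17314088001)) .nil)) .nil)) .leaf)) (nat_lit 2227837282360546) (.br (nat_lit 0) (.cons (.br (nat_lit 6) (.cons (.rel (nat_lit 17184085008)) .nil))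 .nil)) (.node (.node .leaf (nat_lit 2228874579828916) (.br (nat_lit 0) (.cons (.br (nat_lit 1) (.cons (.rel (nat_lit 37765122)) .nil)) .nil)) .leaf) (nat_lit 2228900349600376) (.br (nat_lit 2) (.cons (.br (nat_lit 6) (.cons (.rel (nat_lit 17247240264)) .nil)) .nil)) .leaf))

/-- refutations 21 -/
def e21 : EX := (.node .leaf (nat_lit 2229991270569372) (.br (nat_lit 1) (.cons (.br (nat_lit 3) (.cons (.rel (nat_lit 302006337)) .nil)) .nil)) .leaf)

/-- refutations 22 -/
def e22 : EX := (.node (.node (.node .leaf (nat_lit 1090778811561486) (.br (nat_lit 6) (.cons (.br (nat_lit 0) (.cons (.rel (nat_lit 34368126981)) (.cons (.rel (nat_lit 34368126981)) .nil))) .nil)) .leaf) (nat_lit 1101713284045560) (.br (nat_lit 0) (.cons (.br (nat_lit 1) (.cons (.rel (nat_lit 20976132)) .nil)) .nil)) .leaf) (nat_lit 1101715902315881) (.br (nat_lit 1) (.cons (.br (nat_lit 2) (.cons (.rel (nat_lit 83923968)) .nil)) .nil)) (.node .leaf (nat_lit 1103045374013627) (.br (nat_lit 0) (.cons (.br (nat_lit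 1) (.cons (.rel (nat_lit 25171968)) .nil)) .nil)) .leaf))

/-- refutations 23 -/
def e23 : EX := (.node (.node (.node (.node .leaf (nat_lit 2234428256731412) (.br (nat_lit 1) (.cons (.br (nat_lit 4) (.cons (.rel (nat_lit 1090519080)) .nil)) .nil)) .leaf) (nat_lit 2241183959238962) (.br (nat_lit 5) (.cons (.br (nat_lit 0) (.cons (.rel (nat_lit 8594134020)) (.cons (.rel (nat_lit 8594134020)) .nil))) .nil)) (.node .leaf (nat_lit 2241183960292605) (.br (nat_lit 1) (.cons (.br (nat_lit 3) (.cons (.rel (nat_lit 570691584)) .nil)) .nil)) .leaf)) (nat_lit 2241183960621362) (.br (nat_lit 3) (.cons (.br (nat_lit 5) (.cons (.rel (nat_lit 8859418884)) .nil)) .nil)) (.node (.node .leaf (nat_lit 2241183960622316) (.br (nat_lit 0) (.cons (.br (nat_lit 6) (.cons (.rel (nat_lit 17184063498)) .nil)) .nil)) .leaf) (nat_lit 2241183961520434) (.br (nat_lit 0) (.cons (.br (nat_lit 2) (.cons (.rel (nat_lit 71304336)) .nil)) .nil)) .leaf)) (nat_lit 2241183961521405) (.br (nat_lit 0) (.cons (.br (nat_lit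 2) (.cons (.rel (nat_lit 71304336)) .nil)) .nil)) (.node (.node (.node .leaf (nat_lit 2241185936074239) (.br (nat_lit 0) (.cons (.br (nat_lit 3) (.cons (.rel (nat_lit 276840456)) .nil)) .nil)) .leaf) (nat_lit 2242036205116669) (.br (nat_lit 1) (.cons (.br (nat_lit 5) (.cons (.rel (nat_lit 4328554512)) .nil)) .nil)) (.node .leaf (nat_lit 2242036206713487) (.br (nat_lit 1) (.cons (.br (nat_lit 2) (.cons (.rel (nat_lit 83969088)) .nil)) .nil)) .leaf)) (nat_lit 2242036206713719) (.br (nat_lit 1) (.cons (.br (nat_lit 6) (.cons (.rel (nat_lit 17196679176)) .nil)) .nil)) (.node (.node .leaf (nat_lit 2245178280131347) (.br (nat_lit 1) (.cons (.br (nat_lit 2) (.cons (.rel (nat_lit 83888196)) .nil)) .nil)) .leaf) (nat_lit 2245206025403628) (.br (nat_lit 1) (.cons (.br (nat_lit 3) (.cons (.rel (nat_lit 301990020)) .nil)) .nil)) .leaf)))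

/-- refutations 24 -/
def e24 : EX := (.node (.node (.node (.node .leaf (nat_lit 2394737508104979) (.br (nat_lit 1) (.cons (.br (nat_lit 2) (.cons (.rel (nat_lit 83894274)) .nil)) .nil)) .leaf) (nat_lit 2394737508604081) (.br (nat_lit 0) (.cons (.br (nat_lit 1) (.cons (.rel (nat_lit 22024209)) .nil)) .nil)) .leaf) (nat_lit 2394737509690881) (.br (nat_lit 0) (.cons (.br (nat_lit 1) (.cons (.rel (nat_lit 22028352)) .nil)) .nil)) (.node .leaf (nat_lit 2394741576579133) (.br (nat_lit 2) (.cons (.br (nat_lit 0) (.cons (.rel (nat_lit 71337984)) (.cons (.rel (nat_lit 75563268)) (.cons (.rel (nat_lit 75563268)) (.cons (.rel (nat_lit 142623744)) .nil))))) .nil)) .leaf)) (nat_lit 2394741577190187) (.br (nat_lit 0) (.cons (.br (nat_lit 2) (.cons (.rel (nat_lit 71304336)) .nil)) .nil)) (.node (.node .leaf (nat_lit 2394741579250296) (.br (nat_lit 0) (.cons (.br (nat_lit 2) (.cons (.rel (nat_lit 71308290)) .nil)) .nil)) .leaf) (nat_lit 2394741598161031) (.br (nat_lit 0) (.cons (.br (nat_lit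 3) (.cons (.rel (nat_lit 273686532)) .nil)) .nil)) (.node .leaf (nat_lit 2394741598161183) (.br (nat_lit 0) (.cons (.br (nat_lit 2) (.cons (.rel (nat_lit 77070336)) .nil)) .nil)) .leaf)))

/-- refutations 25 -/
def e25 : EX := (.node (.node (.node (.node .leaf (nat_lit 2399513609497336) (.br (nat_lit 1) (.cons (.br (nat_lit 4) (.cons (.rel (nat_lit 2164261476)) .nil)) .nil)) .leaf) (nat_lit 2399513610767092) (.br (nat_lit 1) (.cons (.br (nat_lit 4) (.cons (.rel (nat_lit 1090521090)) .nil)) .nil)) (.node .leaf (nat_lit 2399513610767123) (.br (nat_lit 2) (.cons (.br (nat_lit 3) (.cons (.rel (nat_lit 335544357)) .nil)) .nil)) .leaf)) (nat_lit 2399513611377400) (.br (nat_lit 6) (.cons (.br (nat_lit 5) (.cons (.rel (nat_lit 21474837576)) (.cons (.rel (nat_lit 21474836562)) .nil))) .nil)) (.node (.node .leaf (nat_lit 2399513611377547) (.br (nat_lit 0) (.cons (.br (nat_lit 4) (.cons (.rel (nat_lit 2155876353)) .nil)) .nil)) .leaf) (nat_lit 2400286703955196) (.br (nat_lit 0) (.cons (.br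 (nat_lit 1) (.cons (.rel (nat_lit 21037569)) .nil)) .nil)) (.node .leaf (nat_lit 2400286704888595) (.br (nat_lit 2) (.cons (.br (nat_lit 4) (.cons (.rel (nat_lit 1140850953)) .nil)) .nil)) .leaf))) (nat_lit 2400286705249141) (.br (nat_lit 1) (.cons (.br (nat_lit 3) (.cons (.rel (nat_lit 286263300)) .nil)) .nil)) (.node (.node (.node .leaf (nat_lit 2400286705392278) (.br (nat_lit 1) (.cons (.br (nat_lit 2) (.cons (.rel (nat_lit 83904513)) .nil)) .nil)) .leaf) (nat_lit 2400288612363516) (.br (nat_lit 0) (.cons (.br (nat_lit 1) (.cons (.rel (nat_lit 22024209)) .nil)) .nil)) (.node .leaf (nat_lit 2403533699182094) (.br (nat_lit 0) (.cons (.br (nat_lit 1) (.cons (.rel (nat_lit 22167552)) .nil)) .nil)) .leaf)) (nat_lit 2403537671187243) (.br (nat_lit 2) (.cons (.br (nat_lit 3) (.cons (.rel (nat_lit 335545362)) .nil)) .nil)) (.node (.node .leaf (nat_lit 2403537713131009) (.br (nat_lit 0) (.cons (.br (nat_lit 1) (.cons (.rel (nat_lit 25182276)) .nil)) .nil)) .leaf) (nat_lit 2403713992424056)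 (.br (nat_lit 1) (.cons (.br (nat_lit 0) (.cons (.rel (nat_lit 21495840)) (.cons (.rel (nat_lit 22086660)) (.cons (.rel (nat_lit 22028352)) .nil)))) .nil)) .leaf)))

/-- refutations 26 -/
def e26 : EX := (.node (.node .leaf (nat_lit 2405521944492093) (.br (nat_lit 0) (.cons (.br (nat_lit 6) (.cons (.rel (nat_lit 17184063498)) .nil)) .nil)) .leaf) (nat_lit 2405523030816829) (.br (nat_lit 0) (.cons (.br (nat_lit 2) (.cons (.rel (nat_lit 142623744)) .nil)) .nil)) .leaf)

/-- refutations 27 -/
def e27 : EX := (.node .leaf (nat_lit 2329144890843896) (.br (nat_lit 0) (.cons (.br (nat_lit 1) (.cons (.rel (nat_lit 37757952)) .nil)) .nil)) .leaf)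

/-- refutations 28 -/
def e28 : EX := (.node (.node (.node (.node .leaf (nat_lit 2764177623266067) (.br (nat_lit 2) (.cons (.br (nat_lit 5) (.cons (.rel (nat_lit 4362078225)) .nil)) .nil)) .leaf) (nat_lit 2764177624982291) (.br (nat_lit 2) (.cons (.br (nat_lit 4) (.cons (.rel (nat_lit 1207992321)) .nil)) .nil)) (.node .leaf (nat_lit 2764439574357218) (.br (nat_lit 0) (.cons (.br (nat_lit 1) (.cons (.rel (nat_lit 21250308)) .nil)) .nil)) .leaf)) (nat_lit 2764555462125750) (.br (nat_lit 0) (.cons (.br (nat_lit 2) (.cons (.rel (nat_lit 71319648)) .nil)) .nil)) (.node (.node .leaf (nat_lit 2767557430446215) (.br (nat_lit 0) (.cons (.br (nat_lit 5) (.cons (.rel (nat_lit 4299425025)) .nil)) .nil)) .leaf) (nat_lit 2767557431629212) (.br (nat_lit 4) (.cons (.br (nat_lit 5) (.cons (.rel (nat_lit 5368776708)) .nil)) .nil)) (.node .leaf (nat_lit 2767557432712075) (.br (nat_lit 1) (.cons (.br (nat_lit 4) (.cons (.rel (nat_lit 2181038100)) .nil)) .nil)) .leaf))) (nat_lit 2767557722162039)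 (.br (nat_lit 1) (.cons (.br (nat_lit 3) (.cons (.rel (nat_lit 301990020)) .nil)) .nil)) (.node (.node (.node .leaf (nat_lit 2767557722364691) (.br (nat_lit 0) (.cons (.br (nat_lit 3) (.cons (.rel (nat_lit 276956160)) .nil)) .nil)) .leaf) (nat_lit 2767620681262332) (.br (nat_lit 1) (.cons (.br (nat_lit 2) (.cons (.rel (nat_lit 83888196)) .nil)) .nil)) (.node .leaf (nat_lit 2767622588344380) (.br (nat_lit 1) (.cons (.br (nat_lit 4) (.cons (.rel (nat_lit 2181038100)) .nil)) .nil)) .leaf)) (nat_lit 2767622588899480) (.br (nat_lit 2) (.cons (.br (nat_lit 4) (.cons (.rel (nat_lit 1140986112)) .nil)) .nil)) (.node (.node .leaf (nat_lit 2767622589670652) (.br (nat_lit 1) (.cons (.br (nat_lit 4) (.cons (.rel (nat_lit 1090519080)) .nil)) .nil)) .leaf) (nat_lit 2767622591253291) (.br (nat_lit 0) (.cons (.br (nat_lit 1) (.cons (.rel (nat_lit 22024209)) .nil)) .nil)) (.node .leaf (nat_lit 2767623339124796) (.br (nat_lit 1) (.cons (.br (nat_lit 2) (.cons (.rel (nat_lit 83903508)) .nil)) .nil))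 .leaf))))

/-- refutations 29 -/
def e29 : EX := (.node (.node (.node (.node (.node .leaf (nat_lit 2767824010337043) (.br (nat_lit 0) (.cons (.br (nat_lit 3) (.cons (.rel (nat_lit 273694752)) (.cons (.rel (nat_lit 272647680)) .nil))) .nil)) .leaf) (nat_lit 2767857848653212) (.br (nat_lit 4) (.cons (.br (nat_lit 1) (.cons (.rel (nat_lit 1090521090)) (.cons (.rel (nat_lit 1090521090)) .nil))) .nil)) (.node .leaf (nat_lit 2769541994227189) (.br (nat_lit 0) (.cons (.br (nat_lit 3) (.cons (.rel (nat_lit 276824130)) .nil)) .nil)) .leaf)) (nat_lit 2769541994380514) (.br (nat_lit 0) (.cons (.br (nat_lit 1) (.cons (.rel (nat_lit 37748805)) .nil)) .nil)) (.node (.node .leaf (nat_lit 2769541994479004) (.br (nat_lit 2) (.cons (.br (nat_lit 5) (.cons (.rel (nat_lit 4362077220)) .nil)) .nil)) .leaf) (nat_lit 2769541994480416) (.br (nat_lit 0) (.cons (.br (nat_lit 1) (.cons (.rel (nat_lit 21037569)) .nil)) .nil)) (.node .leaf (nat_lit 2769541995455351) (.br (nat_lit 5) (.cons (.br (nat_lit 1)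 (.cons (.rel (nat_lit 8606728224)) (.cons (.rel (nat_lit 8623490304)) .nil))) .nil)) .leaf))) (nat_lit 2769541995455771) (.br (nat_lit 1) (.cons (.br (nat_lit 2) (.cons (.rel (nat_lit 83886177)) .nil)) .nil)) (.node (.node (.node .leaf (nat_lit 2769541995718143) (.br (nat_lit 2) (.cons (.br (nat_lit 3) (.cons (.rel (nat_lit 403701888)) .nil)) .nil)) .leaf) (nat_lit 2769541995782431) (.br (nat_lit 1) (.cons (.br (nat_lit 2) (.cons (.rel (nat_lit 83886177)) .nil)) .nil)) (.node .leaf (nat_lit 2769541996755600) (.br (nat_lit 5) (.cons (.br (nat_lit 2) (.cons (.rel (nat_lit 4362076170)) (.cons (.rel (nat_lit 4362211329)) .nil))) .nil)) .leaf)) (nat_lit 2769541996755744) (.br (nat_lit 0) (.cons (.br (nat_lit 2) (.cons (.rel (nat_lit 71303334)) .nil)) .nil)) (.node (.node .leaf (nat_lit 2769541996782355) (.br (nat_lit 0) (.cons (.br (nat_lit 5) (.cons (.rel (nat_lit 4299718656)) .nil)) .nil)) .leaf) (nat_lit 2769541996987255) (.br (nat_lit 1) (.cons (.br (nat_lit 5) (.cons (.rel (nat_lit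 4328554512)) (.cons (.rel (nat_lit 4328525832)) .nil))) .nil)) .leaf))) (nat_lit 2769541997255443) (.br (nat_lit 5) (.cons (.br (nat_lit 0) (.cons (.rel (nat_lit 4299170304)) (.cons (.rel (nat_lit 8594134020)) (.cons (.rel (nat_lit 8598601728)) .nil)))) .nil)) (.node (.node (.node (.node .leaf (nat_lit 2769541997255456) (.br (nat_lit 2) (.cons (.br (nat_lit 3) (.cons (.rel (nat_lit 335545362)) .nil)) .nil)) .leaf) (nat_lit 2769920053207322) (.br (nat_lit 0) (.cons (.br (nat_lit 1) (.cons (.rel (nat_lit 25182276)) .nil)) .nil)) (.node .leaf (nat_lit 2769922304811160) (.br (nat_lit 3) (.cons (.br (nat_lit 4) (.cons (.rel (nat_lit 1342185537)) .nil)) .nil)) .leaf)) (nat_lit 2769922305581208) (.br (nat_lit 1) (.cons (.br (nat_lit 3) (.cons (.rel (nat_lit 301990020)) .nil)) .nil)) (.node (.node .leaf (nat_lit 2769922305582363) (.br (nat_lit 0) (.cons (.br (nat_lit 1) (.cons (.rel (nat_lit 21495840)) .nil)) .nil)) .leaf) (nat_lit 2769922305846798) (.br (nat_lit 0) (.cons (.br (nat_lit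 6) (.cons (.rel (nat_lit 17184063498)) .nil)) .nil)) .leaf)) (nat_lit 2769924254958328) (.br (nat_lit 0) (.cons (.br (nat_lit 1) (.cons (.rel (nat_lit 22167552)) .nil)) .nil)) (.node (.node (.node .leaf (nat_lit 2769924358460179) (.br (nat_lit 0) (.cons (.br (nat_lit 2) (.cons (.rel (nat_lit 71304336)) .nil)) .nil)) .leaf) (nat_lit 2769925441866034) (.br (nat_lit 0) (.cons (.br (nat_lit 2) (.cons (.rel (nat_lit 71369736)) .nil)) .nil)) (.node .leaf (nat_lit 2769925442150552) (.br (nat_lit 1) (.cons (.br (nat_lit 4) (.cons (.rel (nat_lit 2181038100)) .nil)) .nil)) .leaf)) (nat_lit 2769925444247683) (.br (nat_lit 1) (.cons (.br (nat_lit 4) (.cons (.rel (nat_lit 1090650240)) .nil)) .nil)) (.node (.node .leaf (nat_lit 2769925444453628) (.br (nat_lit 1) (.cons (.br (nat_lit 5) (.cons (.rel (nat_lit 8606721057)) .nil)) .nil)) .leaf) (nat_lit 2769925444516727) (.br (nat_lit 0) (.cons (.br (nat_lit 5) (.cons (.br (nat_lit 6) (.cons (.rel (nat_lit 21474837576)) .nil)) .nil)) .nil)) .leaf))))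

/-- refutations 30 -/
def e30 : EX := (.node (.node (.node (.node .leaf (nat_lit 2772814760534816) (.br (nat_lit 0) (.cons (.br (nat_lit 3) (.cons (.rel (nat_lit 273686532)) .nil)) .nil)) .leaf) (nat_lit 2772816963893880) (.br (nat_lit 2) (.cons (.br (nat_lit 3) (.cons (.rel (nat_lit 335568960)) .nil)) .nil)) (.node .leaf (nat_lit 2772817091870851) (.br (nat_lit 0) (.cons (.br (nat_lit 2) (.cons (.rel (nat_lit 71319648)) .nil)) .nil)) .leaf)) (nat_lit 2772971731650695) (.br (nat_lit 0) (.cons (.br (nat_lit 3) (.cons (.rel (nat_lit 273694752)) .nil)) .nil)) (.node (.node .leaf (nat_lit 2772971732362492) (.br (nat_lit 1) (.cons (.br (nat_lit 2) (.cons (.rel (nat_lit 83904513)) .nil)) .nil)) .leaf) (nat_lit 2773152120217752) (.br (nat_lit 1) (.cons (.br (nat_lit 4) (.cons (.rel (nat_lit 1090519080)) .nil)) .nil)) .leaf)) (nat_lit 2773152120987800) (.br (nat_lit 4) (.cons (.br (nat_lit 5) (.cons (.br (nat_lit 6) (.cons (.rel (nat_lit 21474840705)) .nil)) .nil)) .nil)) (.node (.node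 (.node .leaf (nat_lit 2773152120988924) (.br (nat_lit 1) (.cons (.br (nat_lit 4) (.cons (.rel (nat_lit 1090521090)) (.cons (.br (nat_lit 5) (.cons (.rel (nat_lit 4311747072)) (.cons (.br (nat_lit 6) (.cons (.rel (nat_lit 19327385616)) (.cons (.rel (nat_lit 18253709568)) (.cons (.br (nat_lit 0) (.cons (.rel (nat_lit 1078034448)) (.cons (.br (nat_lit 2) (.cons (.rel (nat_lit 4362092676)) (.cons (.rel (nat_lit 71368722)) (.cons (.rel (nat_lit 167776257)) (.cons (.rel (nat_lit 83894274)) .nil))))) (.cons (.rel (nat_lit 20976132)) (.cons (.rel (nat_lit 37757952)) .nil))))) .nil)))) .nil))) .nil))) .nil)) .leaf) (nat_lit 2773152121253377) (.br (nat_lit 4) (.cons (.br (nat_lit 5) (.cons (.rel (nat_lit 5368741896)) .nil)) .nil)) .leaf) (nat_lit 2773152121253390) (.br (nat_lit 0) (.cons (.br (nat_lit 2) (.cons (.rel (nat_lit 71307285)) (.cons (.rel (nat_lit 71337984)) (.cons (.rel (nat_lit 71368722)) .nil)))) (.cons (.br (nat_lit 4) (.cons (.rel (nat_lit 1077936225)) (.cons (.rel (nat_lit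 1077936225)) .nil))) .nil))) (.node (.node .leaf (nat_lit 2773152599139580) (.br (nat_lit 1) (.cons (.br (nat_lit 0) (.cons (.rel (nat_lit 26280192)) (.cons (.rel (nat_lit 25171968)) .nil))) .nil)) .leaf) (nat_lit 2773152599404033) (.br (nat_lit 0) (.cons (.br (nat_lit 2) (.cons (.rel (nat_lit 71307285)) .nil)) .nil)) .leaf)))

/-- refutations 31 -/
def e31 : EX := (.node (.node (.node .leaf (nat_lit 2641027076795745) (.br (nat_lit 1) (.cons (.br (nat_lit 2) (.cons (.rel (nat_lit 167776257)) .nil)) .nil)) .leaf) (nat_lit 2646833874367371) (.br (nat_lit 0) (.cons (.br (nat_lit 2) (.cons (.rel (nat_lit 71308290)) .nil)) .nil)) .leaf) (nat_lit 2646833875165311) (.br (nat_lit 2) (.cons (.br (nat_lit 4) (.cons (.rel (nat_lit 1207976004)) .nil)) .nil)) (.node (.node .leaf (nat_lit 2646833875165490) (.br (nat_lit 4) (.cons (.br (nat_lit 5) (.cons (.rel (nat_lit 5368718400)) .nil)) .nil)) .leaf) (nat_lit 2646833875687730) (.br (nat_lit 1) (.cons (.br (nat_lit 2) (.cons (.rel (nat_lit 83890320))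 .nil)) .nil)) .leaf))

/-- refutations 32 -/
def e32 : EX := (.node (.node .leaf (nat_lit 3168755042474771) (.br (nat_lit 0) (.cons (.br (nat_lit 2) (.cons (.rel (nat_lit 71308290)) .nil)) .nil)) .leaf) (nat_lit 3173571660892466) (.br (nat_lit 0) (.cons (.br (nat_lit 3) (.cons (.rel (nat_lit 541097988)) .nil)) .nil)) (.node .leaf (nat_lit 3173573971953970) (.br (nat_lit 0) (.cons (.br (nat_lit 6) (.cons (.rel (nat_lit 17184063498)) .nil)) .nil)) .leaf))

/-- refutations 33 -/
def e33 : EX := (.node (.node .leaf (nat_lit 3174347065852030) (.br (nat_lit 0) (.cons (.br (nat_lit 1) (.cons (.rel (nat_lit 20976132)) (.cons (.rel (nat_lit 37765122)) .nil))) .nil)) .leaf) (nat_lit 3174347066066980) (.br (nat_lit 0) (.cons (.br (nat_lit 6) (.cons (.rel (nat_lit 17184063498)) .nil)) .nil)) (.node .leaf (nat_lit 3174347066404900) (.br (nat_lit 0) (.cons (.br (nat_lit 2) (.cons (.rel (nat_lit 71450628)) .nil)) .nil)) .leaf))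

/-- refutations 35 -/
def e35 : EX := (.node (.node .leaf (nat_lit 4932787130604797) (.br (nat_lit 0) (.cons (.br (nat_lit 1) (.cons (.rel (nat_lit 22167552)) .nil)) .nil)) .leaf) (nat_lit 4938705732926847) (.br (nat_lit 0) (.cons (.br (nat_lit 1) (.cons (.rel (nat_lit 21037569)) .nil)) .nil)) (.node .leaf (nat_lit 4938791631709467) (.br (nat_lit 0) (.cons (.br (nat_lit 2) (.cons (.rel (nat_lit 71319648)) .nil)) .nil)) .leaf))

/-- refutations 36 -/
def e36 : EX := (.node .leaf (nat_lit 4939215539323640) (.br (nat_lit 0) (.cons (.br (nat_lit 1) (.cons (.rel (nat_lit 21037569)) .nil)) .nil)) .leaf)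

/-- refutations 38 -/
def e38 : EX := (.node (.node (.node .leaf (nat_lit 4950379306980239) (.br (nat_lit 0) (.cons (.br (nat_lit 1) (.cons (.rel (nat_lit 37748805)) .nil)) .nil)) .leaf) (nat_lit 4950379307177372) (.br (nat_lit 2) (.cons (.br (nat_lit 4) (.cons (.rel (nat_lit 1140883776)) .nil)) .nil)) .leaf) (nat_lit 4950379308569953) (.br (nat_lit 2) (.cons (.br (nat_lit 3) (.cons (.rel (nat_lit 335546376)) .nil)) .nil)) (.node (.node .leaf (nat_lit 4955693809202529) (.br (nat_lit 1) (.cons (.br (nat_lit 2) (.cons (.rel (nat_lit 83890320)) .nil)) .nil)) .leaf) (nat_lit 4956779023678216) (.br (nat_lit 0) (.cons (.br (nat_lit 1) (.cons (.rel (nat_lit 37765122)) .nil)) .nil)) .leaf))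

/-- refutations 40 -/
def e40 : EX := (.node (.node (.node (.node (.node .leaf (nat_lit 5013833181584761) (.br (nat_lit 0) (.cons (.br (nat_lit 1) (.cons (.rel (nat_lit 21037569)) .nil)) .nil)) .leaf) (nat_lit 5013833181633787) (.br (nat_lit 0) (.cons (.br (nat_lit 3) (.cons (.rel (nat_lit 274727232)) .nil)) .nil)) .leaf) (nat_lit 5013833181665957) (.br (nat_lit 6) (.cons (.br (nat_lit 0) (.cons (.rel (nat_lit 17184080004)) (.cons (.rel (nat_lit 34368126981)) .nil))) .nil)) (.node (.node .leaf (nat_lit 5013833183455992) (.br (nat_lit 0) (.cons (.br (nat_lit 3) (.cons (.rel (nat_lit 273159168)) .nil)) .nil)) .leaf) (nat_lit 5013833184499839) (.br (nat_lit 1) (.cons (.br (nat_lit 3) (.cons (.rel (nat_lit 285233664)) .nil)) .nil)) .leaf)) (nat_lit 5013987800396663) (.br (nat_lit 0) (.cons (.br (nat_lit 3) (.cons (.rel (nat_lit 273159168)) .nil)) .nil)) (.node (.node (.node .leaf (nat_lit 5013987800660903) (.br (nat_lit 0) (.cons (.br (nat_lit 2) (.cons (.rel (nat_lit 71304336)) .nil))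 .nil)) .leaf) (nat_lit 5013987800754832) (.br (nat_lit 2) (.cons (.br (nat_lit 3) (.cons (.rel (nat_lit 604241922)) .nil)) .nil)) .leaf) (nat_lit 5013987801003509) (.br (nat_lit 2) (.cons (.br (nat_lit 4) (.cons (.rel (nat_lit 1140883776)) .nil)) .nil)) (.node (.node .leaf (nat_lit 5013987801676663) (.br (nat_lit 1) (.cons (.br (nat_lit 4) (.cons (.rel (nat_lit 1091059968)) .nil)) .nil)) .leaf) (nat_lit 5013987801972213) (.br (nat_lit 2) (.cons (.br (nat_lit 3) (.cons (.rel (nat_lit 671170560)) (.cons (.rel (nat_lit 335627268)) (.cons (.rel (nat_lit 335546376)) (.cons (.rel (nat_lit 335627268)) .nil))))) .nil)) .leaf))) (nat_lit 5013987803047413) (.br (nat_lit 4) (.cons (.br (nat_lit 5) (.cons (.rel (nat_lit 5368713252)) .nil)) .nil)) (.node (.node (.node (.node .leaf (nat_lit 5013987803569529) (.br (nat_lit 1) (.cons (.br (nat_lit 2) (.cons (.rel (nat_lit 84149760)) .nil)) .nil)) .leaf) (nat_lit 5013987803579255) (.br (nat_lit 2) (.cons (.br (nat_lit 6) (.cons (.rel (nat_lit 17246994768))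 .nil)) .nil)) .leaf) (nat_lit 5013987803583220) (.br (nat_lit 2) (.cons (.br (nat_lit 4) (.cons (.rel (nat_lit 1140883776)) .nil)) .nil)) (.node (.node .leaf (nat_lit 5013994317323000) (.br (nat_lit 0) (.cons (.br (nat_lit 2) (.cons (.rel (nat_lit 71337984)) .nil)) .nil)) .leaf) (nat_lit 5014848067789600) (.br (nat_lit 2) (.cons (.br (nat_lit 5) (.cons (.rel (nat_lit 4362076170)) .nil)) .nil)) .leaf)) (nat_lit 5014852154730651) (.br (nat_lit 0) (.cons (.br (nat_lit 3) (.cons (.rel (nat_lit 276832272)) .nil)) .nil)) (.node (.node (.node .leaf (nat_lit 5014852156018850) (.br (nat_lit 0) (.cons (.br (nat_lit 5) (.cons (.rel (nat_lit 8598601728)) .nil)) .nil)) .leaf) (nat_lit 5014852156735650) (.br (nat_lit 1) (.cons (.br (nat_lit 2) (.cons (.rel (nat_lit 83894274)) .nil)) .nil)) .leaf) (nat_lit 5014852156826531) (.br (nat_lit 5) (.cons (.br (nat_lit 4) (.cons (.rel (nat_lit 5368725570)) (.cons (.rel (nat_lit 10737434628)) (.cons (.rel (nat_lit 5368713252)) .nil)))) .nil)) (.node .leaf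 (nat_lit 5014852224160050) (.br (nat_lit 0) (.cons (.br (nat_lit 1) (.cons (.rel (nat_lit 20976132)) .nil)) .nil)) .leaf))))

/-- refutations 41 -/
def e41 : EX := (.node (.node (.node (.node .leaf (nat_lit 5015293449799962) (.br (nat_lit 3) (.cons (.br (nat_lit 4) (.cons (.rel (nat_lit 1342182408)) .nil)) .nil)) .leaf) (nat_lit 5015297321142554) (.br (nat_lit 0) (.cons (.br (nat_lit 4) (.cons (.rel (nat_lit 1077944322)) .nil)) .nil)) (.node .leaf (nat_lit 5015297323948343) (.br (nat_lit 0) (.cons (.br (nat_lit 4) (.cons (.rel (nat_lit 1077953556)) .nil)) .nil)) .leaf)) (nat_lit 5015298692679962) (.br (nat_lit 0) (.cons (.br (nat_lit 1) (.cons (.rel (nat_lit 37757952)) .nil)) .nil)) (.node (.node .leaf (nat_lit 5015299338602778) (.br (nat_lit 4) (.cons (.br (nat_lit 0) (.cons (.rel (nat_lit 1077974016)) (.cons (.rel (nat_lit 1077936225)) .nil))) .nil)) .leaf) (nat_lit 5015299341458168) (.br (nat_lit 4) (.cons (.br (nat_lit 5) (.cons (.rel (nat_lit 5368776708)) .nil)) .nil)) (.node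 .leaf (nat_lit 5015299439266547) (.br (nat_lit 2) (.cons (.br (nat_lit 3) (.cons (.rel (nat_lit 335627268)) .nil)) .nil)) .leaf))) (nat_lit 5015299984525594) (.br (nat_lit 0) (.cons (.br (nat_lit 3) (.cons (.rel (nat_lit 276840456)) (.cons (.rel (nat_lit 273159168)) (.cons (.rel (nat_lit 276832272)) (.cons (.rel (nat_lit 541097988)) .nil))))) .nil)) (.node (.node (.node .leaf (nat_lit 5015299984525944) (.br (nat_lit 1) (.cons (.br (nat_lit 3) (.cons (.rel (nat_lit 285214209)) .nil)) .nil)) .leaf) (nat_lit 5015299984526618) (.br (nat_lit 1) (.cons (.br (nat_lit 2) (.cons (.rel (nat_lit 83894274)) (.cons (.rel (nat_lit 100663569)) .nil))) (.cons (.br (nat_lit 0) (.cons (.rel (nat_lit 21037569)) (.cons (.rel (nat_lit 25198593)) (.cons (.rel (nat_lit 42992196)) .nil)))) .nil))) (.node .leaf (nat_lit 5015342287960351) (.br (nat_lit 0) (.cons (.br (nat_lit 4) (.cons (.rel (nat_lit 1078034448)) .nil)) .nil)) .leaf)) (nat_lit 5016192775739648) (.br (nat_lit 0) (.cons (.br (nat_lit 6) (.cons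 (.rel (nat_lit 17184064548)) .nil)) .nil)) (.node (.node .leaf (nat_lit 5019207761647927) (.br (nat_lit 1) (.cons (.br (nat_lit 2) (.cons (.rel (nat_lit 83902506)) .nil)) .nil)) .leaf) (nat_lit 5019231434236660) (.br (nat_lit 0) (.cons (.br (nat_lit 1) (.cons (.rel (nat_lit 21495840)) .nil)) .nil)) .leaf)))

/-- refutations 42 -/
def e42 : EX := (.node (.node (.node (.node (.node (.node .leaf (nat_lit 5019356491369235) (.br (nat_lit 1) (.cons (.br (nat_lit 3) (.cons (.rel (nat_lit 285213204)) .nil)) .nil)) .leaf) (nat_lit 5019356491727535) (.br (nat_lit 1) (.cons (.br (nat_lit 3) (.cons (.rel (nat_lit 286263300)) .nil)) .nil)) (.node .leaf (nat_lit 5019356491727608) (.br (nat_lit 2) (.cons (.br (nat_lit 5) (.cons (.rel (nat_lit 4430299137)) .nil)) .nil)) .leaf)) (nat_lit 5019356509504865) (.br (nat_lit 3) (.cons (.br (nat_lit 5) (.cons (.rel (nat_lit 4564484097)) .nil)) .nil)) (.node (.node .leaf (nat_lit 5019356509516563) (.br (nat_lit 0) (.cons (.br (nat_lit 1) (.cons (.rel (nat_lit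 21037569)) .nil)) .nil)) .leaf) (nat_lit 5019356509517083) (.br (nat_lit 1) (.cons (.br (nat_lit 3) (.cons (.rel (nat_lit 286261281)) .nil)) .nil)) (.node .leaf (nat_lit 5019356509606675) (.br (nat_lit 0) (.cons (.br (nat_lit 6) (.cons (.rel (nat_lit 17184198657)) .nil)) .nil)) .leaf))) (nat_lit 5019356509627775) (.br (nat_lit 0) (.cons (.br (nat_lit 1) (.cons (.rel (nat_lit 42205200)) .nil)) .nil)) (.node (.node (.node .leaf (nat_lit 5019356509774611) (.br (nat_lit 1) (.cons (.br (nat_lit 2) (.cons (.rel (nat_lit 83888196)) (.cons (.rel (nat_lit 85196832)) .nil))) (.cons (.br (nat_lit 3) (.cons (.rel (nat_lit 285214209)) (.cons (.rel (nat_lit 570691584)) .nil))) .nil))) .leaf) (nat_lit 5019356509775084) (.br (nat_lit 1) (.cons (.br (nat_lit 4) (.cons (.rel (nat_lit 2181071940)) .nil)) .nil)) (.node .leaf (nat_lit 5019356509862143) (.br (nat_lit 2) (.cons (.br (nat_lit 5) (.cons (.rel (nat_lit 8724152325)) .nil)) .nil)) .leaf)) (nat_lit 5019356509863138) (.br (nat_lit 2) (.cons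 (.br (nat_lit 5) (.cons (.rel (nat_lit 8724176976)) .nil)) .nil)) (.node (.node .leaf (nat_lit 5019356510807452) (.br (nat_lit 0) (.cons (.br (nat_lit 1) (.cons (.rel (nat_lit 25171968)) .nil)) .nil)) .leaf) (nat_lit 5019356510808740) (.br (nat_lit 0) (.cons (.br (nat_lit 6) (.cons (.rel (nat_lit 17184065553)) .nil)) .nil)) .leaf))) (nat_lit 5019356511156860) (.br (nat_lit 2) (.cons (.br (nat_lit 5) (.cons (.rel (nat_lit 4362108993)) (.cons (.rel (nat_lit 4362092676)) .nil))) .nil)) (.node (.node (.node (.node .leaf (nat_lit 5019356511403291) (.br (nat_lit 0) (.cons (.br (nat_lit 2) (.cons (.rel (nat_lit 71319648)) .nil)) .nil)) .leaf) (nat_lit 5019356512139920) (.br (nat_lit 1) (.cons (.br (nat_lit 5) (.cons (.rel (nat_lit 4312268868)) .nil)) .nil)) (.node .leaf (nat_lit 5019356512166688) (.br (nat_lit 1) (.cons (.br (nat_lit 3) (.cons (.rel (nat_lit 286344192)) .nil)) .nil)) .leaf)) (nat_lit 5019356512340655) (.br (nat_lit 5) (.cons (.br (nat_lit 0) (.cons (.rel (nat_lit 4300210248))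 (.cons (.rel (nat_lit 8598601728)) (.cons (.rel (nat_lit 8598327552)) .nil)))) .nil)) (.node (.node .leaf (nat_lit 5019356512344720) (.br (nat_lit 3) (.cons (.br (nat_lit 4) (.cons (.rel (nat_lit 2684354640)) .nil)) .nil)) .leaf) (nat_lit 5019356512576144) (.br (nat_lit 1) (.cons (.br (nat_lit 3) (.cons (.rel (nat_lit 286344192)) .nil)) .nil)) .leaf)) (nat_lit 5019356512576288) (.br (nat_lit 0) (.cons (.br (nat_lit 1) (.cons (.rel (nat_lit 20976132)) .nil)) .nil)) (.node (.node (.node .leaf (nat_lit 5019356512576375) (.br (nat_lit 0) (.cons (.br (nat_lit 3) (.cons (.rel (nat_lit 541097988)) .nil)) .nil)) .leaf) (nat_lit 5019356512639763) (.br (nat_lit 0) (.cons (.br (nat_lit 5) (.cons (.rel (nat_lit 8598327552)) .nil)) .nil)) (.node .leaf (nat_lit 5019356512639776) (.br (nat_lit 0) (.cons (.br (nat_lit 1) (.cons (.rel (nat_lit 42012933)) .nil)) .nil)) .leaf)) (nat_lit 5019356512698623) (.br (nat_lit 2) (.cons (.br (nat_lit 1) (.cons (.rel (nat_lit 83923968)) (.cons (.rel (nat_lit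 83888196)) .nil))) .nil)) (.node (.node .leaf (nat_lit 5019356512698650) (.br (nat_lit 4) (.cons (.br (nat_lit 1) (.cons (.rel (nat_lit 1090540545)) (.cons (.rel (nat_lit 2181038100)) .nil))) .nil)) .leaf) (nat_lit 5019356512699055) (.br (nat_lit 4) (.cons (.br (nat_lit 5) (.cons (.rel (nat_lit 5368713252)) (.cons (.rel (nat_lit 5368713252)) .nil))) .nil)) .leaf)))) (nat_lit 5019356512699128) (.br (nat_lit 2) (.cons (.br (nat_lit 1) (.cons (.rel (nat_lit 84149760)) (.cons (.rel (nat_lit 84149760)) .nil))) .nil)) (.node (.node (.node (.node (.node .leaf (nat_lit 5019356512699154) (.br (nat_lit 0) (.cons (.br (nat_lit 1) (.cons (.rel (nat_lit 25182276)) .nil)) .nil)) .leaf) (nat_lit 5019356512699279) (.br (nat_lit 5) (.cons (.br (nat_lit 1) (.cons (.rel (nat_lit 4311747072)) (.cons (.rel (nat_lit 4328539200)) .nil))) .nil)) (.node .leaf (nat_lit 5019356512699674) (.br (nat_lit 1) (.cons (.br (nat_lit 5) (.cons (.rel (nat_lit 4328525832)) .nil)) .nil)) .leaf)) (nat_lit 5019356512699895)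 (.br (nat_lit 3) (.cons (.br (nat_lit 6) (.cons (.rel (nat_lit 17448304713)) .nil)) .nil)) (.node (.node .leaf (nat_lit 5019357243778431) (.br (nat_lit 0) (.cons (.br (nat_lit 1) (.cons (.rel (nat_lit 21495840)) .nil)) .nil)) .leaf) (nat_lit 5019357246170338) (.br (nat_lit 2) (.cons (.br (nat_lit 3) (.cons (.rel (nat_lit 335546376)) .nil)) .nil)) .leaf)) (nat_lit 5019357246348051) (.br (nat_lit 0) (.cons (.br (nat_lit 1) (.cons (.rel (nat_lit 25171968)) .nil)) .nil)) (.node (.node (.node .leaf (nat_lit 5019357246348195) (.br (nat_lit 1) (.cons (.br (nat_lit 2) (.cons (.rel (nat_lit 83886177)) .nil)) .nil)) .leaf) (nat_lit 5019357246642963) (.br (nat_lit 3) (.cons (.br (nat_lit 4) (.cons (.rel (nat_lit 1342182408)) .nil)) .nil)) (.node .leaf (nat_lit 5019357246643107) (.br (nat_lit 1) (.cons (.br (nat_lit 3) (.cons (.rel (nat_lit 570691584)) .nil)) .nil)) .leaf)) (nat_lit 5019357783014032) (.br (nat_lit 4) (.cons (.br (nat_lit 5) (.cons (.rel (nat_lit 10737434628)) .nil)) .nil))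 (.node (.node .leaf (nat_lit 5019357783218832) (.br (nat_lit 2) (.cons (.br (nat_lit 3) (.cons (.rel (nat_lit 671170560)) .nil)) .nil)) .leaf) (nat_lit 5019357783309175) (.br (nat_lit 0) (.cons (.br (nat_lit 2) (.cons (.rel (nat_lit 71304336)) .nil)) .nil)) .leaf))) (nat_lit 5019357783513975) (.br (nat_lit 0) (.cons (.br (nat_lit 4) (.cons (.rel (nat_lit 1077944322)) .nil)) .nil)) (.node (.node (.node (.node .leaf (nat_lit 5019357783572631) (.br (nat_lit 3) (.cons (.br (nat_lit 0) (.cons (.rel (nat_lit 273219600)) (.cons (.rel (nat_lit 272892162)) .nil))) .nil)) .leaf) (nat_lit 5019359150916495) (.br (nat_lit 0) (.cons (.br (nat_lit 1) (.cons (.rel (nat_lit 21495840)) .nil)) .nil)) (.node .leaf (nat_lit 5019360361180442) (.br (nat_lit 0) (.cons (.br (nat_lit 4) (.cons (.rel (nat_lit 1077953556)) .nil)) .nil)) .leaf)) (nat_lit 5019361734095635) (.br (nat_lit 0) (.cons (.br (nat_lit 1) (.cons (.rel (nat_lit 22167552)) .nil)) .nil)) (.node (.node .leaf (nat_lit 5019361872487331) (.br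 (nat_lit 3) (.cons (.br (nat_lit 0) (.cons (.rel (nat_lit 541132800)) (.cons (.rel (nat_lit 273301509)) .nil))) .nil)) .leaf) (nat_lit 5019361873019666) (.br (nat_lit 0) (.cons (.br (nat_lit 2) (.cons (.rel (nat_lit 71337984)) .nil)) .nil)) .leaf)) (nat_lit 5019626462239507) (.br (nat_lit 3) (.cons (.br (nat_lit 4) (.cons (.rel (nat_lit 2684354640)) .nil)) .nil)) (.node (.node (.node .leaf (nat_lit 5019626589661366) (.br (nat_lit 0) (.cons (.br (nat_lit 1) (.cons (.rel (nat_lit 21250308)) .nil)) .nil)) .leaf) (nat_lit 5020687949427448) (.br (nat_lit 1) (.cons (.br (nat_lit 4) (.cons (.rel (nat_lit 1090519080)) .nil)) .nil)) (.node .leaf (nat_lit 5020687949642663) (.br (nat_lit 0) (.cons (.br (nat_lit 1) (.cons (.rel (nat_lit 21250308)) .nil)) .nil)) .leaf)) (nat_lit 5020687952550648) (.br (nat_lit 0) (.cons (.br (nat_lit 5) (.cons (.rel (nat_lit 4299425025)) .nil)) .nil)) (.node (.node .leaf (nat_lit 5020687952561039) (.br (nat_lit 1) (.cons (.br (nat_lit 2) (.cons (.rel (nat_lit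 83888196)) .nil)) .nil)) .leaf) (nat_lit 5020690587596927) (.br (nat_lit 0) (.cons (.br (nat_lit 1) (.cons (.rel (nat_lit 25232400)) .nil)) .nil)) .leaf)))))

/-- refutations 43 -/
def e43 : EX := (.node (.node (.node (.node (.node (.node (.node (.node .leaf (nat_lit 5020748049670900) (.br (nat_lit 1) (.cons (.br (nat_lit 2) (.cons (.rel (nat_lit 83955720)) .nil)) .nil)) .leaf) (nat_lit 5020748049875224) (.br (nat_lit 2) (.cons (.br (nat_lit 4) (.cons (.rel (nat_lit 1140986112)) .nil)) .nil)) (.node .leaf (nat_lit 5020748050172039) (.br (nat_lit 0) (.cons (.br (nat_lit 2) (.cons (.rel (nat_lit 71307285)) .nil)) .nil)) .leaf)) (nat_lit 5020748050851099) (.br (nat_lit 1) (.cons (.br (nat_lit 5) (.cons (.rel (nat_lit 4312268868)) .nil)) .nil)) (.node (.node .leaf (nat_lit 5020748052121735) (.br (nat_lit 1) (.cons (.br (nat_lit 2) (.cons (.rel (nat_lit 83894274)) .nil)) .nil)) .leaf) (nat_lit 5020748052746996) (.br (nat_lit 2) (.cons (.br (nat_lit 4) (.cons (.rel (nat_lit 1140853008))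 .nil)) .nil)) .leaf)) (nat_lit 5020748052747000) (.br (nat_lit 2) (.cons (.br (nat_lit 6) (.cons (.rel (nat_lit 17247043842)) .nil)) .nil)) (.node (.node (.node .leaf (nat_lit 5020748052747171) (.br (nat_lit 2) (.cons (.br (nat_lit 3) (.cons (.rel (nat_lit 335544357)) .nil)) .nil)) .leaf) (nat_lit 5020748058206519) (.br (nat_lit 0) (.cons (.br (nat_lit 3) (.cons (.rel (nat_lit 273219600)) (.cons (.rel (nat_lit 541069344)) (.cons (.rel (nat_lit 272892162)) (.cons (.rel (nat_lit 272892162)) .nil))))) .nil)) (.node .leaf (nat_lit 5020748059738423) (.br (nat_lit 3) (.cons (.br (nat_lit 2) (.cons (.rel (nat_lit 336860160)) (.cons (.rel (nat_lit 335627268)) .nil))) .nil)) .leaf)) (nat_lit 5020748059852977) (.br (nat_lit 1) (.cons (.br (nat_lit 3) (.cons (.rel (nat_lit 285214209)) .nil)) .nil)) (.node (.node .leaf (nat_lit 5020748061121188) (.br (nat_lit 0) (.cons (.br (nat_lit 4) (.cons (.rel (nat_lit 1084297236)) .nil)) .nil)) .leaf) (nat_lit 5020748813192099) (.br (nat_lit 2) (.cons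 (.br (nat_lit 3) (.cons (.rel (nat_lit 335546376)) .nil)) .nil)) .leaf))) (nat_lit 5020748814215928) (.br (nat_lit 2) (.cons (.br (nat_lit 4) (.cons (.rel (nat_lit 1140850953)) .nil)) .nil)) (.node (.node (.node (.node .leaf (nat_lit 5020748814509567) (.br (nat_lit 1) (.cons (.br (nat_lit 2) (.cons (.rel (nat_lit 83894274)) .nil)) .nil)) .leaf) (nat_lit 5020748814571008) (.br (nat_lit 2) (.cons (.br (nat_lit 3) (.cons (.rel (nat_lit 671089668)) .nil)) .nil)) (.node .leaf (nat_lit 5020748814714367) (.br (nat_lit 0) (.cons (.br (nat_lit 1) (.cons (.rel (nat_lit 37748805)) .nil)) .nil)) .leaf)) (nat_lit 5020748815573779) (.br (nat_lit 0) (.cons (.br (nat_lit 1) (.cons (.rel (nat_lit 42205200)) .nil)) .nil)) (.node (.node .leaf (nat_lit 5020748815751955) (.br (nat_lit 2) (.cons (.br (nat_lit 4) (.cons (.rel (nat_lit 1141116945)) .nil)) .nil)) .leaf) (nat_lit 5020748815752099) (.br (nat_lit 4) (.cons (.br (nat_lit 1) (.cons (.rel (nat_lit 1091567877)) (.cons (.rel (nat_lit 1090650240))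 .nil))) .nil)) .leaf)) (nat_lit 5020748815842167) (.br (nat_lit 0) (.cons (.br (nat_lit 4) (.cons (.rel (nat_lit 1078460808)) .nil)) .nil)) (.node (.node (.node .leaf (nat_lit 5020748816046967) (.br (nat_lit 1) (.cons (.br (nat_lit 6) (.cons (.rel (nat_lit 17196650532)) (.cons (.rel (nat_lit 17196794880)) (.cons (.rel (nat_lit 17196713988)) .nil)))) .nil)) .leaf) (nat_lit 5020748816047011) (.br (nat_lit 1) (.cons (.br (nat_lit 4) (.cons (.rel (nat_lit 2181039105)) .nil)) .nil)) (.node .leaf (nat_lit 5020748816095992) (.br (nat_lit 1) (.cons (.br (nat_lit 2) (.cons (.rel (nat_lit 102760452)) .nil)) .nil)) .leaf)) (nat_lit 5020749203258601) (.br (nat_lit 0) (.cons (.br (nat_lit 2) (.cons (.rel (nat_lit 142623744)) .nil)) .nil)) (.node (.node .leaf (nat_lit 5020749204783760) (.br (nat_lit 2) (.cons (.br (nat_lit 5) (.cons (.rel (nat_lit 8657060097)) .nil)) .nil)) .leaf) (nat_lit 5020749204847999) (.br (nat_lit 0) (.cons (.br (nat_lit 2) (.cons (.rel (nat_lit 71308290)) .nil)) .nil))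 .leaf)))) (nat_lit 5020749205822096) (.br (nat_lit 2) (.cons (.br (nat_lit 3) (.cons (.rel (nat_lit 335545362)) .nil)) .nil)) (.node (.node (.node (.node (.node .leaf (nat_lit 5020749206165631) (.br (nat_lit 2) (.cons (.br (nat_lit 4) (.cons (.rel (nat_lit 1140850953)) .nil)) .nil)) .leaf) (nat_lit 5020749206166264) (.br (nat_lit 6) (.cons (.br (nat_lit 0) (.cons (.rel (nat_lit 17184064548)) (.cons (.rel (nat_lit 17184064548)) .nil))) .nil)) (.node .leaf (nat_lit 5020749206166761) (.br (nat_lit 0) (.cons (.br (nat_lit 2) (.cons (.rel (nat_lit 77070336)) .nil)) .nil)) .leaf)) (nat_lit 5020749350058891) (.br (nat_lit 2) (.cons (.br (nat_lit 4) (.cons (.rel (nat_lit 1140986112)) .nil)) .nil)) (.node (.node .leaf (nat_lit 5020749350062386) (.br (nat_lit 0) (.cons (.br (nat_lit 5) (.cons (.rel (nat_lit 4299718656)) .nil)) .nil)) .leaf) (nat_lit 5020749350348951) (.br (nat_lit 1) (.cons (.br (nat_lit 2) (.cons (.rel (nat_lit 84017157)) .nil)) .nil)) .leaf)) (nat_lit 5020749351116188)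 (.br (nat_lit 0) (.cons (.br (nat_lit 1) (.cons (.rel (nat_lit 37748805)) .nil)) .nil)) (.node (.node (.node .leaf (nat_lit 5020749351588146) (.br (nat_lit 0) (.cons (.br (nat_lit 4) (.cons (.rel (nat_lit 1077944322)) .nil)) .nil)) .leaf) (nat_lit 5020749352356742) (.br (nat_lit 3) (.cons (.br (nat_lit 6) (.cons (.rel (nat_lit 17448374292)) .nil)) .nil)) (.node .leaf (nat_lit 5020749352418080) (.br (nat_lit 0) (.cons (.br (nat_lit 5) (.cons (.rel (nat_lit 4299170304)) .nil)) .nil)) .leaf)) (nat_lit 5020749352966200) (.br (nat_lit 0) (.cons (.br (nat_lit 3) (.cons (.rel (nat_lit 276840456)) .nil)) .nil)) (.node (.node .leaf (nat_lit 5020749352966820) (.br (nat_lit 1) (.cons (.br (nat_lit 6) (.cons (.rel (nat_lit 34393309188)) .nil)) .nil)) .leaf) (nat_lit 5020749352966904) (.br (nat_lit 4) (.cons (.br (nat_lit 6) (.cons (.br (nat_lit 0) (.cons (.rel (nat_lit 1077944322)) (.cons (.rel (nat_lit 18262130688)) .nil))) .nil)) .nil)) .leaf))) (nat_lit 5020749355310333) (.br (nat_lit 3)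 (.cons (.br (nat_lit 4) (.cons (.rel (nat_lit 1610613012)) .nil)) .nil)) (.node (.node (.node (.node .leaf (nat_lit 5020749355779325) (.br (nat_lit 0) (.cons (.br (nat_lit 6) (.cons (.rel (nat_lit 17184063498)) (.cons (.rel (nat_lit 17184063498)) (.cons (.rel (nat_lit 17184137220)) (.cons (.rel (nat_lit 17184063498)) .nil))))) .nil)) .leaf) (nat_lit 5020749356548402) (.br (nat_lit 0) (.cons (.br (nat_lit 1) (.cons (.rel (nat_lit 42205200)) .nil)) .nil)) (.node .leaf (nat_lit 5020749356848015) (.br (nat_lit 1) (.cons (.br (nat_lit 2) (.cons (.rel (nat_lit 83894274)) .nil)) .nil)) .leaf)) (nat_lit 5020749357161208) (.br (nat_lit 0) (.cons (.br (nat_lit 2) (.cons (.rel (nat_lit 71337984)) .nil)) .nil)) (.node (.node .leaf (nat_lit 5020750884968478) (.br (nat_lit 0) (.cons (.br (nat_lit 2) (.cons (.rel (nat_lit 71308290)) .nil)) .nil)) .leaf) (nat_lit 5020750884973475) (.br (nat_lit 0) (.cons (.br (nat_lit 4) (.cons (.rel (nat_lit 1077944322)) (.cons (.rel (nat_lit 1077944322)) .nil)))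 (.cons (.br (nat_lit 4) (.cons (.rel (nat_lit 1078019136)) (.cons (.rel (nat_lit 1077936225)) .nil))) .nil))) .leaf)) (nat_lit 5020750885001892) (.br (nat_lit 0) (.cons (.br (nat_lit 1) (.cons (.rel (nat_lit 25182276)) .nil)) .nil)) (.node (.node (.node .leaf (nat_lit 5020750885011617) (.br (nat_lit 0) (.cons (.br (nat_lit 2) (.cons (.rel (nat_lit 142623744)) .nil)) .nil)) .leaf) (nat_lit 5020750885173409) (.br (nat_lit 0) (.cons (.br (nat_lit 2) (.cons (.rel (nat_lit 72352128)) .nil)) .nil)) (.node .leaf (nat_lit 5020750885268212) (.br (nat_lit 0) (.cons (.br (nat_lit 4) (.cons (.rel (nat_lit 1077936225)) .nil)) .nil)) .leaf)) (nat_lit 5020750885432707) (.br (nat_lit 0) (.cons (.br (nat_lit 2) (.cons (.rel (nat_lit 142623744)) .nil)) .nil)) (.node (.node .leaf (nat_lit 5020750885464225) (.br (nat_lit 0) (.cons (.br (nat_lit 2) (.cons (.rel (nat_lit 71307285)) .nil)) .nil)) .leaf) (nat_lit 5020750885515321) (.br (nat_lit 3) (.cons (.br (nat_lit 6) (.cons (.rel (nat_lit 17448337536))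 .nil)) .nil)) .leaf))))) (nat_lit 5020750886253179) (.br (nat_lit 3) (.cons (.br (nat_lit 6) (.cons (.rel (nat_lit 17448337536)) .nil)) .nil)) (.node (.node (.node (.node (.node (.node .leaf (nat_lit 5020750886253475) (.br (nat_lit 2) (.cons (.br (nat_lit 4) (.cons (.rel (nat_lit 1140850953)) (.cons (.rel (nat_lit 2214592581)) .nil))) .nil)) .leaf) (nat_lit 5020750886280418) (.br (nat_lit 0) (.cons (.br (nat_lit 2) (.cons (.rel (nat_lit 71304336)) .nil)) .nil)) (.node .leaf (nat_lit 5020750886538147) (.br (nat_lit 0) (.cons (.br (nat_lit 2) (.cons (.rel (nat_lit 71337984)) .nil)) .nil)) .leaf)) (nat_lit 5020750886549665) (.br (nat_lit 2) (.cons (.br (nat_lit 3) (.cons (.rel (nat_lit 335609937)) .nil)) .nil)) (.node (.node .leaf (nat_lit 5020750887785083) (.br (nat_lit 0) (.cons (.br (nat_lit 2) (.cons (.rel (nat_lit 71827713)) .nil)) .nil)) .leaf) (nat_lit 5020750887973019) (.br (nat_lit 1) (.cons (.br (nat_lit 3) (.cons (.rel (nat_lit 570691584)) .nil)) .nil)) .leaf)) (nat_lit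 5020750888082084) (.br (nat_lit 1) (.cons (.br (nat_lit 3) (.cons (.rel (nat_lit 286261281)) .nil)) .nil)) (.node (.node (.node .leaf (nat_lit 5020750888082168) (.br (nat_lit 0) (.cons (.br (nat_lit 4) (.cons (.rel (nat_lit 1078005768)) (.cons (.rel (nat_lit 1077936225)) .nil))) .nil)) .leaf) (nat_lit 5020750888082665) (.br (nat_lit 1) (.cons (.br (nat_lit 4) (.cons (.rel (nat_lit 1090584660)) .nil)) .nil)) (.node .leaf (nat_lit 5020750888096500) (.br (nat_lit 0) (.cons (.br (nat_lit 2) (.cons (.rel (nat_lit 71304336)) .nil)) .nil)) .leaf)) (nat_lit 5020751195341587) (.br (nat_lit 6) (.cons (.br (nat_lit 3) (.cons (.rel (nat_lit 17448321030)) (.cons (.rel (nat_lit 17448435729)) .nil))) .nil)) (.node (.node .leaf (nat_lit 5020751195351171) (.br (nat_lit 1) (.cons (.br (nat_lit 2) (.cons (.rel (nat_lit 83904513)) .nil)) .nil)) .leaf) (nat_lit 5020751195351800) (.br (nat_lit 1) (.cons (.br (nat_lit 2) (.cons (.rel (nat_lit 167776257)) .nil)) .nil)) .leaf))) (nat_lit 5020751195351827)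 (.br (nat_lit 2) (.cons (.br (nat_lit 4) (.cons (.rel (nat_lit 1141179396)) .nil)) .nil)) (.node (.node (.node (.node .leaf (nat_lit 5020751195849464) (.br (nat_lit 2) (.cons (.br (nat_lit 3) (.cons (.rel (nat_lit 335708160)) (.cons (.rel (nat_lit 603997440)) .nil))) .nil)) .leaf) (nat_lit 5020751196580765) (.br (nat_lit 0) (.cons (.br (nat_lit 1) (.cons (.rel (nat_lit 21495840)) .nil)) .nil)) (.node .leaf (nat_lit 5020751196581146) (.br (nat_lit 3) (.cons (.br (nat_lit 6) (.cons (.rel (nat_lit 17448313860)) .nil)) .nil)) .leaf)) (nat_lit 5020751196607739) (.br (nat_lit 1) (.cons (.br (nat_lit 0) (.cons (.rel (nat_lit 20976132)) (.cons (.rel (nat_lit 37765122)) .nil))) .nil)) (.node (.node .leaf (nat_lit 5020751196609789) (.br (nat_lit 3) (.cons (.br (nat_lit 5) (.cons (.rel (nat_lit 4563407376)) .nil)) .nil)) .leaf) (nat_lit 5020751197067570) (.br (nat_lit 0) (.cons (.br (nat_lit 1) (.cons (.rel (nat_lit 37765122)) .nil)) .nil)) .leaf)) (nat_lit 5020751197170566) (.br (nat_lit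 0) (.cons (.br (nat_lit 1) (.cons (.rel (nat_lit 22167552)) .nil)) .nil)) (.node (.node (.node .leaf (nat_lit 5020751197195000) (.br (nat_lit 2) (.cons (.br (nat_lit 4) (.cons (.rel (nat_lit 1142554629)) .nil)) .nil)) .leaf) (nat_lit 5020751197897464) (.br (nat_lit 0) (.cons (.br (nat_lit 2) (.cons (.rel (nat_lit 71368722)) .nil)) .nil)) (.node .leaf (nat_lit 5020751198093618) (.br (nat_lit 2) (.cons (.br (nat_lit 5) (.cons (.rel (nat_lit 4362211329)) .nil)) .nil)) .leaf)) (nat_lit 5020751198411063) (.br (nat_lit 0) (.cons (.br (nat_lit 1) (.cons (.rel (nat_lit 22086660)) .nil)) .nil)) (.node (.node .leaf (nat_lit 5020751198411539) (.br (nat_lit 0) (.cons (.br (nat_lit 2) (.cons (.rel (nat_lit 71337984)) (.cons (.rel (nat_lit 75563268)) (.cons (.rel (nat_lit 71337984)) .nil)))) (.cons (.br (nat_lit 1) (.cons (.rel (nat_lit 22024209)) (.cons (.rel (nat_lit 21037569)) .nil))) .nil))) .leaf) (nat_lit 5020751198460664) (.br (nat_lit 2) (.cons (.br (nat_lit 3) (.cons (.rel (nat_lit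 335609937)) .nil)) .nil)) .leaf)))) (nat_lit 5020751198460811) (.br (nat_lit 0) (.cons (.br (nat_lit 1) (.cons (.rel (nat_lit 42205200)) .nil)) .nil)) (.node (.node (.node (.node (.node .leaf (nat_lit 5020751198460829) (.br (nat_lit 0) (.cons (.br (nat_lit 3) (.cons (.rel (nat_lit 273679440)) .nil)) .nil)) .leaf) (nat_lit 5020751198470904) (.br (nat_lit 2) (.cons (.br (nat_lit 3) (.cons (.rel (nat_lit 336920592)) .nil)) .nil)) (.node .leaf (nat_lit 5020751198471046) (.br (nat_lit 0) (.cons (.br (nat_lit 2) (.cons (.rel (nat_lit 142623744)) .nil)) .nil)) .leaf)) (nat_lit 5020751216361633) (.br (nat_lit 0) (.cons (.br (nat_lit 2) (.cons (.rel (nat_lit 71307285)) .nil)) .nil)) (.node (.node .leaf (nat_lit 5020751216517431) (.br (nat_lit 0) (.cons (.br (nat_lit 2) (.cons (.rel (nat_lit 71307285)) .nil)) .nil)) .leaf) (nat_lit 5020751216517797) (.br (nat_lit 0) (.cons (.br (nat_lit 1) (.cons (.rel (nat_lit 21037569)) .nil)) .nil)) .leaf)) (nat_lit 5020751217551986) (.br (nat_lit 0)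 (.cons (.br (nat_lit 1) (.cons (.rel (nat_lit 20976132)) .nil)) .nil)) (.node (.node (.node .leaf (nat_lit 5020751217578135) (.br (nat_lit 1) (.cons (.br (nat_lit 3) (.cons (.rel (nat_lit 285507840)) .nil)) .nil)) .leaf) (nat_lit 5020751217899826) (.br (nat_lit 1) (.cons (.br (nat_lit 2) (.cons (.rel (nat_lit 83894274)) .nil)) .nil)) (.node .leaf (nat_lit 5020751218819208) (.br (nat_lit 0) (.cons (.br (nat_lit 3) (.cons (.rel (nat_lit 272647680)) .nil)) .nil)) .leaf)) (nat_lit 5020751219065464) (.br (nat_lit 1) (.cons (.br (nat_lit 2) (.cons (.rel (nat_lit 83969088)) .nil)) .nil)) (.node (.node .leaf (nat_lit 5020751219431600) (.br (nat_lit 0) (.cons (.br (nat_lit 3) (.cons (.rel (nat_lit 276824130)) .nil)) .nil)) .leaf) (nat_lit 5020751219432100) (.br (nat_lit 1) (.cons (.br (nat_lit 2) (.cons (.rel (nat_lit 167776257)) (.cons (.rel (nat_lit 83888196)) .nil))) .nil)) .leaf))) (nat_lit 5020751219432184) (.br (nat_lit 5) (.cons (.br (nat_lit 0) (.cons (.rel (nat_lit 8598327552))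 (.cons (.br (nat_lit 4) (.cons (.rel (nat_lit 5368713252)) (.cons (.rel (nat_lit 1078005768)) .nil))) .nil))) .nil)) (.node (.node (.node (.node .leaf (nat_lit 5020751434453879) (.br (nat_lit 0) (.cons (.br (nat_lit 3) (.cons (.rel (nat_lit 272892162)) .nil)) .nil)) .leaf) (nat_lit 5020751437169567) (.br (nat_lit 1) (.cons (.br (nat_lit 3) (.cons (.rel (nat_lit 285213204)) .nil)) .nil)) (.node .leaf (nat_lit 5020751437423392) (.br (nat_lit 5) (.cons (.br (nat_lit 2) (.cons (.br (nat_lit 0) (.cons (.rel (nat_lit 71337984)) (.cons (.rel (nat_lit 142623744)) (.cons (.rel (nat_lit 71337984)) .nil)))) (.cons (.rel (nat_lit 4362077220)) .nil))) .nil)) .leaf)) (nat_lit 5020751437535992) (.br (nat_lit 0) (.cons (.br (nat_lit 1) (.cons (.rel (nat_lit 20976132)) .nil)) .nil)) (.node (.node .leaf (nat_lit 5020751719874836) (.br (nat_lit 0) (.cons (.br (nat_lit 2) (.cons (.rel (nat_lit 71337984)) .nil)) .nil)) .leaf) (nat_lit 5020751721151989) (.br (nat_lit 0) (.cons (.br (nat_lit 2) (.cons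 (.rel (nat_lit 75563268)) .nil)) .nil)) .leaf)) (nat_lit 5020751721482896) (.br (nat_lit 0) (.cons (.br (nat_lit 2) (.cons (.rel (nat_lit 71337984)) .nil)) .nil)) (.node (.node (.node .leaf (nat_lit 5020751722199696) (.br (nat_lit 2) (.cons (.br (nat_lit 4) (.cons (.rel (nat_lit 1140924678)) .nil)) .nil)) .leaf) (nat_lit 5020751722394235) (.br (nat_lit 1) (.cons (.br (nat_lit 4) (.cons (.rel (nat_lit 2181103680)) (.cons (.rel (nat_lit 2181038100)) .nil))) .nil)) (.node .leaf (nat_lit 5020751870563581) (.br (nat_lit 2) (.cons (.br (nat_lit 3) (.cons (.rel (nat_lit 335546376)) .nil)) .nil)) .leaf)) (nat_lit 5020751871892733) (.br (nat_lit 2) (.cons (.br (nat_lit 4) (.cons (.rel (nat_lit 1207992321)) (.cons (.rel (nat_lit 1140986112)) (.cons (.rel (nat_lit 1140850953)) .nil)))) (.cons (.br (nat_lit 3) (.cons (.rel (nat_lit 335546376)) (.cons (.rel (nat_lit 335544357)) (.cons (.rel (nat_lit 335609937)) .nil)))) (.cons (.br (nat_lit 3) (.cons (.rel (nat_lit 335546376)) (.cons (.rel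 (nat_lit 335545362)) (.cons (.rel (nat_lit 335545362)) .nil)))) .nil)))) (.node (.node .leaf (nat_lit 5020751872361725) (.br (nat_lit 2) (.cons (.br (nat_lit 3) (.cons (.rel (nat_lit 335544357)) (.cons (.rel (nat_lit 335545362)) (.cons (.rel (nat_lit 335544357)) .nil)))) (.cons (.br (nat_lit 5) (.cons (.rel (nat_lit 8657043780)) (.cons (.br (nat_lit 3) (.cons (.rel (nat_lit 671089668)) (.cons (.rel (nat_lit 403179540)) (.cons (.rel (nat_lit 4630520064)) .nil)))) .nil))) .nil))) .leaf) (nat_lit 5020751872365821) (.br (nat_lit 5) (.cons (.br (nat_lit 2) (.cons (.rel (nat_lit 4362077220)) (.cons (.rel (nat_lit 8657307648)) (.cons (.rel (nat_lit 4362149892)) .nil)))) .nil)) .leaf)))))) (nat_lit 5020751872455292) (.br (nat_lit 0) (.cons (.br (nat_lit 1) (.cons (.rel (nat_lit 21495840)) .nil)) .nil)) (.node (.node (.node (.node (.node (.node (.node .leaf (nat_lit 5020751873743608) (.br (nat_lit 2) (.cons (.br (nat_lit 3) (.cons (.rel (nat_lit 335545362)) (.cons (.rel (nat_lit 335545362))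 .nil))) .nil)) .leaf) (nat_lit 5020751929292059) (.br (nat_lit 0) (.cons (.br (nat_lit 1) (.cons (.rel (nat_lit 20976132)) .nil)) .nil)) (.node .leaf (nat_lit 5020751929292861) (.br (nat_lit 0) (.cons (.br (nat_lit 2) (.cons (.rel (nat_lit 71307285)) .nil)) .nil)) .leaf)) (nat_lit 5020751929355775) (.br (nat_lit 0) (.cons (.br (nat_lit 1) (.cons (.rel (nat_lit 20976132)) .nil)) .nil)) (.node (.node .leaf (nat_lit 5020751929382124) (.br (nat_lit 1) (.cons (.br (nat_lit 2) (.cons (.br (nat_lit 0) (.cons (.rel (nat_lit 71304336)) (.cons (.rel (nat_lit 20976132)) .nil))) .nil)) .nil)) .leaf) (nat_lit 5020751929610521) (.br (nat_lit 0) (.cons (.br (nat_lit 2) (.cons (.rel (nat_lit 142606425)) .nil)) .nil)) .leaf)) (nat_lit 5020751930584346) (.br (nat_lit 2) (.cons (.br (nat_lit 4) (.cons (.rel (nat_lit 1207965696)) .nil)) .nil)) (.node (.node (.node .leaf (nat_lit 5020751930584577) (.br (nat_lit 0) (.cons (.br (nat_lit 4) (.cons (.rel (nat_lit 1078005768)) .nil)) .nil)) .leaf) (nat_lit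 5020751930877439) (.br (nat_lit 1) (.cons (.br (nat_lit 5) (.cons (.rel (nat_lit 4312268868)) .nil)) .nil)) (.node .leaf (nat_lit 5020751931174124) (.br (nat_lit 0) (.cons (.br (nat_lit 1) (.cons (.rel (nat_lit 42205200)) .nil)) .nil)) .leaf)) (nat_lit 5020751931174170) (.br (nat_lit 0) (.cons (.br (nat_lit 1) (.cons (.rel (nat_lit 22024209)) .nil)) .nil)) (.node (.node .leaf (nat_lit 5020751931174171) (.br (nat_lit 0) (.cons (.br (nat_lit 2) (.cons (.rel (nat_lit 71337984)) .nil)) .nil)) .leaf) (nat_lit 5020751931174401) (.br (nat_lit 0) (.cons (.br (nat_lit 1) (.cons (.rel (nat_lit 42205200)) .nil)) .nil)) .leaf))) (nat_lit 5020751931178495) (.br (nat_lit 0) (.cons (.br (nat_lit 4) (.cons (.rel (nat_lit 1077938244)) (.cons (.rel (nat_lit 1078019136)) .nil))) .nil)) (.node (.node (.node (.node .leaf (nat_lit 5020751931194724) (.br (nat_lit 0) (.cons (.br (nat_lit 1) (.cons (.rel (nat_lit 22086660)) .nil)) .nil)) .leaf) (nat_lit 5020751931850888) (.br (nat_lit 1) (.cons (.br (nat_lit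 3) (.cons (.rel (nat_lit 286263300)) .nil)) .nil)) (.node .leaf (nat_lit 5020751932463864) (.br (nat_lit 2) (.cons (.br (nat_lit 0) (.cons (.rel (nat_lit 71369736)) (.cons (.rel (nat_lit 71337984)) .nil))) .nil)) .leaf)) (nat_lit 5020751954444569) (.br (nat_lit 0) (.cons (.br (nat_lit 1) (.cons (.rel (nat_lit 21250308)) .nil)) .nil)) (.node (.node .leaf (nat_lit 5020751954508026) (.br (nat_lit 0) (.cons (.br (nat_lit 1) (.cons (.rel (nat_lit 37818384)) .nil)) .nil)) .leaf) (nat_lit 5020751954978998) (.br (nat_lit 0) (.cons (.br (nat_lit 1) (.cons (.rel (nat_lit 22086660)) .nil)) .nil)) .leaf)) (nat_lit 5020751957516944) (.br (nat_lit 0) (.cons (.br (nat_lit 1) (.cons (.rel (nat_lit 22086660)) .nil)) .nil)) (.node (.node (.node .leaf (nat_lit 5020751957517088) (.br (nat_lit 4) (.cons (.br (nat_lit 6) (.cons (.rel (nat_lit 18253628676)) .nil)) .nil)) .leaf) (nat_lit 5020753426749746) (.br (nat_lit 2) (.cons (.br (nat_lit 5) (.cons (.rel (nat_lit 4362077220)) .nil)) .nil)) (.node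 .leaf (nat_lit 5020753429217586) (.br (nat_lit 0) (.cons (.br (nat_lit 2) (.cons (.rel (nat_lit 71369736)) .nil)) .nil)) .leaf)) (nat_lit 5020753429526809) (.br (nat_lit 1) (.cons (.br (nat_lit 3) (.cons (.rel (nat_lit 285507840)) .nil)) .nil)) (.node (.node .leaf (nat_lit 5020753506347068) (.br (nat_lit 1) (.cons (.br (nat_lit 2) (.cons (.rel (nat_lit 84149760)) .nil)) .nil)) .leaf) (nat_lit 5020753506349943) (.br (nat_lit 0) (.cons (.br (nat_lit 2) (.cons (.rel (nat_lit 71304336)) .nil)) .nil)) .leaf)))) (nat_lit 5020753506351360) (.br (nat_lit 0) (.cons (.br (nat_lit 1) (.cons (.rel (nat_lit 37765122)) (.cons (.rel (nat_lit 25171968)) .nil))) .nil)) (.node (.node (.node (.node (.node .leaf (nat_lit 5020753506403091) (.br (nat_lit 0) (.cons (.br (nat_lit 1) (.cons (.rel (nat_lit 20976132)) .nil)) .nil)) .leaf) (nat_lit 5020753506440055) (.br (nat_lit 0) (.cons (.br (nat_lit 3) (.cons (.rel (nat_lit 272892162)) .nil)) .nil)) (.node .leaf (nat_lit 5020753506453760) (.br (nat_lit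 0) (.cons (.br (nat_lit 1) (.cons (.rel (nat_lit 20976132)) .nil)) .nil)) .leaf)) (nat_lit 5020753506607415) (.br (nat_lit 0) (.cons (.br (nat_lit 1) (.cons (.rel (nat_lit 20976132)) .nil)) .nil)) (.node (.node .leaf (nat_lit 5020753506608354) (.br (nat_lit 0) (.cons (.br (nat_lit 1) (.cons (.rel (nat_lit 39059460)) .nil)) .nil)) .leaf) (nat_lit 5020753506608364) (.br (nat_lit 0) (.cons (.br (nat_lit 2) (.cons (.rel (nat_lit 71307285)) (.cons (.rel (nat_lit 71369736)) .nil))) (.cons (.br (nat_lit 3) (.cons (.rel (nat_lit 273686532)) (.cons (.rel (nat_lit 273747969)) (.cons (.rel (nat_lit 273747969)) .nil)))) .nil))) .leaf)) (nat_lit 5020753506617650) (.br (nat_lit 0) (.cons (.br (nat_lit 2) (.cons (.rel (nat_lit 71304336)) .nil)) .nil)) (.node (.node (.node .leaf (nat_lit 5020753506618231) (.br (nat_lit 2) (.cons (.br (nat_lit 0) (.cons (.br (nat_lit 3) (.cons (.rel (nat_lit 272892162)) (.cons (.rel (nat_lit 272892162)) .nil))) (.cons (.br (nat_lit 3) (.cons (.rel (nat_lit 273747969))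 (.cons (.rel (nat_lit 340000896)) .nil))) .nil))) .nil)) .leaf) (nat_lit 5020753506708243) (.br (nat_lit 0) (.cons (.br (nat_lit 3) (.cons (.rel (nat_lit 276832272)) .nil)) .nil)) (.node .leaf (nat_lit 5020753506904370) (.br (nat_lit 1) (.cons (.br (nat_lit 2) (.cons (.rel (nat_lit 100663569)) .nil)) .nil)) .leaf)) (nat_lit 5020753506955390) (.br (nat_lit 1) (.cons (.br (nat_lit 2) (.cons (.rel (nat_lit 151322880)) .nil)) .nil)) (.node (.node .leaf (nat_lit 5020753507629362) (.br (nat_lit 0) (.cons (.br (nat_lit 2) (.cons (.rel (nat_lit 75792516)) .nil)) .nil)) .leaf) (nat_lit 5020753507719844) (.br (nat_lit 0) (.cons (.br (nat_lit 1) (.cons (.rel (nat_lit 21495840)) .nil)) .nil)) .leaf))) (nat_lit 5020753507720418) (.br (nat_lit 2) (.cons (.br (nat_lit 0) (.cons (.rel (nat_lit 71337984)) (.cons (.rel (nat_lit 71450628)) .nil))) .nil)) (.node (.node (.node (.node .leaf (nat_lit 5020753507996535) (.br (nat_lit 1) (.cons (.br (nat_lit 3) (.cons (.rel (nat_lit 301990020)) .nil)) .nil))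 .leaf) (nat_lit 5020753508139895) (.br (nat_lit 2) (.cons (.br (nat_lit 1) (.cons (.br (nat_lit 5) (.cons (.rel (nat_lit 4312809600)) (.cons (.rel (nat_lit 4312809600)) (.cons (.rel (nat_lit 4312268868)) .nil)))) (.cons (.rel (nat_lit 151322880)) (.cons (.br (nat_lit 5) (.cons (.rel (nat_lit 4311747072)) (.cons (.rel (nat_lit 8606712912)) (.cons (.rel (nat_lit 8623490304)) .nil)))) .nil)))) .nil)) (.node .leaf (nat_lit 5020753508140533) (.br (nat_lit 2) (.cons (.br (nat_lit 5) (.cons (.rel (nat_lit 4363419648)) .nil)) .nil)) .leaf)) (nat_lit 5020753509224505) (.br (nat_lit 0) (.cons (.br (nat_lit 1) (.cons (.rel (nat_lit 21495840)) .nil)) .nil)) (.node (.node .leaf (nat_lit 5020753509268343) (.br (nat_lit 0) (.cons (.br (nat_lit 6) (.cons (.rel (nat_lit 17184064548)) .nil)) .nil)) .leaf) (nat_lit 5020753509275954) (.br (nat_lit 0) (.cons (.br (nat_lit 1) (.cons (.rel (nat_lit 20976132)) .nil)) .nil)) .leaf)) (nat_lit 5020753509473043) (.br (nat_lit 0) (.cons (.br (nat_lit 5) (.cons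 (.rel (nat_lit 4300341264)) .nil)) .nil)) (.node (.node (.node .leaf (nat_lit 5020753509484726) (.br (nat_lit 0) (.cons (.br (nat_lit 1) (.cons (.rel (nat_lit 22024209)) .nil)) .nil)) .leaf) (nat_lit 5020753509522168) (.br (nat_lit 0) (.cons (.br (nat_lit 2) (.cons (.rel (nat_lit 71337984)) .nil)) .nil)) (.node .leaf (nat_lit 5020753509522333) (.br (nat_lit 0) (.cons (.br (nat_lit 2) (.cons (.rel (nat_lit 142623744)) .nil)) .nil)) .leaf)) (nat_lit 5020753509522665) (.br (nat_lit 2) (.cons (.br (nat_lit 4) (.cons (.rel (nat_lit 2215903236)) .nil)) .nil)) (.node (.node .leaf (nat_lit 5020753509532408) (.br (nat_lit 0) (.cons (.br (nat_lit 4) (.cons (.rel (nat_lit 1077944322)) .nil)) .nil)) .leaf) (nat_lit 5020753509532535) (.br (nat_lit 3) (.cons (.br (nat_lit 5) (.cons (.rel (nat_lit 4831903809)) .nil)) .nil)) .leaf))))) (nat_lit 5020753946753085) (.br (nat_lit 1) (.cons (.br (nat_lit 2) (.cons (.rel (nat_lit 83969088)) (.cons (.rel (nat_lit 84951300)) .nil))) (.cons (.br (nat_lit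 2) (.cons (.rel (nat_lit 167776257)) (.cons (.rel (nat_lit 83894274)) .nil))) .nil))) (.node (.node (.node (.node (.node (.node .leaf (nat_lit 5020753946753175) (.br (nat_lit 2) (.cons (.br (nat_lit 4) (.cons (.rel (nat_lit 1141260288)) .nil)) .nil)) .leaf) (nat_lit 5020753946804260) (.br (nat_lit 1) (.cons (.br (nat_lit 6) (.cons (.rel (nat_lit 17196679176)) .nil)) .nil)) (.node .leaf (nat_lit 5020753946854136) (.br (nat_lit 3) (.cons (.br (nat_lit 5) (.cons (.rel (nat_lit 8858903808)) .nil)) .nil)) .leaf)) (nat_lit 5020753946854676) (.br (nat_lit 3) (.cons (.br (nat_lit 4) (.cons (.rel (nat_lit 1342324737)) .nil)) .nil)) (.node (.node .leaf (nat_lit 5020753947009155) (.br (nat_lit 0) (.cons (.br (nat_lit 2) (.cons (.rel (nat_lit 71307285)) .nil)) .nil)) .leaf) (nat_lit 5020753947009335) (.br (nat_lit 4) (.cons (.br (nat_lit 0) (.cons (.rel (nat_lit 2155939857)) (.cons (.rel (nat_lit 2155876353)) (.cons (.rel (nat_lit 1078005768)) .nil)))) (.cons (.br (nat_lit 3) (.cons (.rel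 (nat_lit 1343258880)) (.cons (.rel (nat_lit 1342177440)) (.cons (.rel (nat_lit 2684354640)) .nil)))) .nil))) .leaf)) (nat_lit 5020753947019300) (.br (nat_lit 1) (.cons (.br (nat_lit 2) (.cons (.rel (nat_lit 84017157)) .nil)) .nil)) (.node (.node (.node .leaf (nat_lit 5020753947066648) (.br (nat_lit 5) (.cons (.br (nat_lit 4) (.cons (.rel (nat_lit 10737434628)) (.cons (.rel (nat_lit 5369762049)) (.cons (.rel (nat_lit 5368713252)) .nil)))) (.cons (.br (nat_lit 1) (.cons (.br (nat_lit 4) (.cons (.rel (nat_lit 5368776708)) (.cons (.rel (nat_lit 1090519080)) (.cons (.br (nat_lit 6) (.cons (.rel (nat_lit 35433488388)) (.cons (.rel (nat_lit 17197699329)) (.cons (.rel (nat_lit 17197699329)) .nil)))) .nil)))) (.cons (.rel (nat_lit 4311880224)) (.cons (.br (nat_lit 4) (.cons (.rel (nat_lit 5368776708)) (.cons (.rel (nat_lit 1090584660)) (.cons (.rel (nat_lit 1090519080)) .nil)))) .nil)))) .nil))) .leaf) (nat_lit 5020753947070525) (.br (nat_lit 0) (.cons (.br (nat_lit 1) (.cons (.rel (nat_lit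 37757952)) .nil)) .nil)) (.node .leaf (nat_lit 5020753947273976) (.br (nat_lit 1) (.cons (.br (nat_lit 3) (.cons (.rel (nat_lit 285745152)) .nil)) .nil)) .leaf)) (nat_lit 5020753947357220) (.br (nat_lit 0) (.cons (.br (nat_lit 6) (.cons (.rel (nat_lit 17184064548)) .nil)) .nil)) (.node (.node .leaf (nat_lit 5020753947357310) (.br (nat_lit 3) (.cons (.br (nat_lit 5) (.cons (.rel (nat_lit 8858371092)) (.cons (.rel (nat_lit 4563673380)) .nil))) (.cons (.br (nat_lit 1) (.cons (.rel (nat_lit 553648200)) (.cons (.rel (nat_lit 285278784)) (.cons (.rel (nat_lit 553779216)) .nil)))) .nil))) .leaf) (nat_lit 5020753947357465) (.br (nat_lit 2) (.cons (.br (nat_lit 0) (.cons (.rel (nat_lit 71309352)) (.cons (.rel (nat_lit 142623744)) .nil))) .nil)) .leaf))) (nat_lit 5020753947358616) (.br (nat_lit 0) (.cons (.br (nat_lit 2) (.cons (.rel (nat_lit 72352128)) .nil)) .nil)) (.node (.node (.node (.node .leaf (nat_lit 5020753947363463) (.br (nat_lit 2) (.cons (.br (nat_lit 4) (.cons (.rel (nat_lit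 1140850953)) .nil)) .nil)) .leaf) (nat_lit 5020753948019988) (.br (nat_lit 1) (.cons (.br (nat_lit 5) (.cons (.rel (nat_lit 8623490304)) .nil)) .nil)) (.node .leaf (nat_lit 5020753948071163) (.br (nat_lit 6) (.cons (.br (nat_lit 0) (.cons (.rel (nat_lit 34368126981)) (.cons (.rel (nat_lit 34368126981)) (.cons (.rel (nat_lit 17184137220)) .nil)))) .nil)) .leaf)) (nat_lit 5020753948530819) (.br (nat_lit 0) (.cons (.br (nat_lit 3) (.cons (.rel (nat_lit 273686532)) .nil)) .nil)) (.node (.node .leaf (nat_lit 5020753948554648) (.br (nat_lit 2) (.cons (.br (nat_lit 3) (.cons (.rel (nat_lit 335708160)) .nil)) .nil)) .leaf) (nat_lit 5020753948597635) (.br (nat_lit 1) (.cons (.br (nat_lit 3) (.cons (.rel (nat_lit 286263300)) .nil)) .nil)) .leaf)) (nat_lit 5020753948633990) (.br (nat_lit 3) (.cons (.br (nat_lit 0) (.cons (.rel (nat_lit 273686532)) (.cons (.rel (nat_lit 272647680)) .nil))) .nil)) (.node (.node (.node .leaf (nat_lit 5020753948634394) (.br (nat_lit 0) (.cons (.br (nat_lit 2)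 (.cons (.rel (nat_lit 142623744)) .nil)) .nil)) .leaf) (nat_lit 5020753948654948) (.br (nat_lit 2) (.cons (.br (nat_lit 5) (.cons (.rel (nat_lit 4363125012)) .nil)) .nil)) (.node .leaf (nat_lit 5020753949557016) (.br (nat_lit 0) (.cons (.br (nat_lit 5) (.cons (.rel (nat_lit 8594134020)) .nil)) .nil)) .leaf)) (nat_lit 5020753949670652) (.br (nat_lit 0) (.cons (.br (nat_lit 1) (.cons (.rel (nat_lit 20976132)) .nil)) .nil)) (.node (.node .leaf (nat_lit 5020753949874487) (.br (nat_lit 2) (.cons (.br (nat_lit 3) (.cons (.rel (nat_lit 671170560)) (.cons (.rel (nat_lit 335544357)) (.cons (.rel (nat_lit 671089668)) .nil)))) .nil)) .leaf) (nat_lit 5020753949874963) (.br (nat_lit 2) (.cons (.br (nat_lit 3) (.cons (.rel (nat_lit 671170560)) (.cons (.rel (nat_lit 335708160)) (.cons (.rel (nat_lit 671089668)) (.cons (.rel (nat_lit 335544357)) (.cons (.rel (nat_lit 335544357)) (.cons (.rel (nat_lit 671089668)) .nil))))))) .nil)) .leaf)))) (nat_lit 5020753949923504) (.br (nat_lit 0) (.cons (.br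 (nat_lit 1) (.cons (.rel (nat_lit 25232400)) .nil)) .nil)) (.node (.node (.node (.node (.node .leaf (nat_lit 5020753949924088) (.br (nat_lit 5) (.cons (.br (nat_lit 0) (.cons (.rel (nat_lit 4303355988)) (.cons (.rel (nat_lit 8598327552)) (.cons (.rel (nat_lit 4299424020)) .nil)))) (.cons (.br (nat_lit 0) (.cons (.rel (nat_lit 8598601728)) (.cons (.rel (nat_lit 8598327552)) (.cons (.rel (nat_lit 4300341264)) .nil)))) .nil))) .leaf) (nat_lit 5020754592666232) (.br (nat_lit 0) (.cons (.br (nat_lit 2) (.cons (.rel (nat_lit 71827713)) .nil)) .nil)) (.node .leaf (nat_lit 5020754592671804) (.br (nat_lit 0) (.cons (.br (nat_lit 2) (.cons (.rel (nat_lit 142623744)) .nil)) .nil)) .leaf)) (nat_lit 5020754592671869) (.br (nat_lit 6) (.cons (.br (nat_lit 3) (.cons (.rel (nat_lit 17448313860)) (.cons (.rel (nat_lit 17448374292)) .nil))) .nil)) (.node (.node .leaf (nat_lit 5020754592675317) (.br (nat_lit 2) (.cons (.br (nat_lit 3) (.cons (.rel (nat_lit 671089668)) (.cons (.rel (nat_lit 336068928))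 .nil))) .nil)) .leaf) (nat_lit 5020754592677225) (.br (nat_lit 1) (.cons (.br (nat_lit 2) (.cons (.rel (nat_lit 167776257)) (.cons (.rel (nat_lit 83886177)) .nil))) .nil)) .leaf)) (nat_lit 5020754592989464) (.br (nat_lit 3) (.cons (.br (nat_lit 2) (.cons (.rel (nat_lit 403701888)) (.cons (.rel (nat_lit 671170560)) .nil))) .nil)) (.node (.node (.node .leaf (nat_lit 5020754593280126) (.br (nat_lit 1) (.cons (.br (nat_lit 2) (.cons (.rel (nat_lit 83894274)) .nil)) .nil)) .leaf) (nat_lit 5020754593281525) (.br (nat_lit 1) (.cons (.br (nat_lit 2) (.cons (.rel (nat_lit 167776257)) .nil)) .nil)) (.node .leaf (nat_lit 5020754593287450) (.br (nat_lit 0) (.cons (.br (nat_lit 1) (.cons (.rel (nat_lit 25182276)) .nil)) .nil)) .leaf)) (nat_lit 5020754593942160) (.br (nat_lit 3) (.cons (.br (nat_lit 4) (.cons (.rel (nat_lit 1342181394)) .nil)) .nil)) (.node (.node .leaf (nat_lit 5020754593942804) (.br (nat_lit 3) (.cons (.br (nat_lit 4) (.cons (.rel (nat_lit 1342324737)) .nil)) .nil)) .leaf)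 (nat_lit 5020754594250229) (.br (nat_lit 0) (.cons (.br (nat_lit 4) (.cons (.rel (nat_lit 2155876353)) .nil)) .nil)) .leaf))) (nat_lit 5020754594260244) (.br (nat_lit 1) (.cons (.br (nat_lit 2) (.cons (.rel (nat_lit 152043528)) .nil)) .nil)) (.node (.node (.node (.node .leaf (nat_lit 5020754594264576) (.br (nat_lit 0) (.cons (.br (nat_lit 3) (.cons (.rel (nat_lit 272892162)) (.cons (.rel (nat_lit 273219600)) (.cons (.rel (nat_lit 272892162)) .nil)))) .nil)) .leaf) (nat_lit 5020754594315167) (.br (nat_lit 1) (.cons (.br (nat_lit 5) (.cons (.rel (nat_lit 4312011009)) (.cons (.rel (nat_lit 4312793094)) .nil))) .nil)) (.node .leaf (nat_lit 5020754594477464) (.br (nat_lit 0) (.cons (.br (nat_lit 5) (.cons (.rel (nat_lit 4299170304)) .nil)) .nil)) .leaf)) (nat_lit 5020754594519975) (.br (nat_lit 0) (.cons (.br (nat_lit 1) (.cons (.rel (nat_lit 42205200)) .nil)) .nil)) (.node (.node .leaf (nat_lit 5020754594528639) (.br (nat_lit 2) (.cons (.br (nat_lit 1) (.cons (.rel (nat_lit 83955720))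 (.cons (.rel (nat_lit 167776257)) (.cons (.rel (nat_lit 83888196)) (.cons (.rel (nat_lit 167776257)) .nil))))) .nil)) .leaf) (nat_lit 5020754594577764) (.br (nat_lit 0) (.cons (.br (nat_lit 5) (.cons (.rel (nat_lit 8594260032)) (.cons (.rel (nat_lit 4300226565)) .nil))) .nil)) .leaf)) (nat_lit 5020754595246210) (.br (nat_lit 0) (.cons (.br (nat_lit 1) (.cons (.rel (nat_lit 22024209)) .nil)) .nil)) (.node (.node (.node .leaf (nat_lit 5020754595297936) (.br (nat_lit 4) (.cons (.br (nat_lit 1) (.cons (.rel (nat_lit 1090519080)) (.cons (.rel (nat_lit 2181039105)) .nil))) .nil)) .leaf) (nat_lit 5020754595298687) (.br (nat_lit 0) (.cons (.br (nat_lit 2) (.cons (.rel (nat_lit 71337984)) .nil)) .nil)) (.node .leaf (nat_lit 5020754595298805) (.br (nat_lit 0) (.cons (.br (nat_lit 2) (.cons (.rel (nat_lit 71307285)) .nil)) .nil)) .leaf)) (nat_lit 5020754595846271) (.br (nat_lit 3) (.cons (.br (nat_lit 0) (.cons (.rel (nat_lit 272892162)) (.cons (.rel (nat_lit 272892162)) .nil))) .nil)) (.node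 (.node .leaf (nat_lit 5020754595846320) (.br (nat_lit 1) (.cons (.br (nat_lit 3) (.cons (.rel (nat_lit 285278784)) .nil)) .nil)) .leaf) (nat_lit 5020754595846904) (.br (nat_lit 0) (.cons (.br (nat_lit 4) (.cons (.rel (nat_lit 1077954561)) .nil)) .nil)) .leaf)))))))

/-- refutations 44 -/
def e44 : EX := (.node (.node (.node (.node (.node .leaf (nat_lit 5021340784499448) (.br (nat_lit 0) (.cons (.br (nat_lit 5) (.cons (.rel (nat_lit 4299170304)) (.cons (.rel (nat_lit 4299424020)) (.cons (.rel (nat_lit 4299425025)) (.cons (.rel (nat_lit 4299444480)) (.cons (.rel (nat_lit 4299170304)) .nil)))))) .nil)) .leaf) (nat_lit 5021340784671396) (.br (nat_lit 0) (.cons (.br (nat_lit 2) (.cons (.rel (nat_lit 71319648)) .nil)) .nil)) (.node .leaf (nat_lit 5021340785728765) (.br (nat_lit 3) (.cons (.br (nat_lit 5) (.cons (.rel (nat_lit 4564467780)) (.cons (.rel (nat_lit 4564457472)) .nil))) .nil)) .leaf)) (nat_lit 5021340785728924) (.br (nat_lit 0) (.cons (.br (nat_lit 3) (.cons (.rel (nat_lit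 272892162)) .nil)) .nil)) (.node (.node .leaf (nat_lit 5021340785993215) (.br (nat_lit 2) (.cons (.br (nat_lit 3) (.cons (.rel (nat_lit 335546376)) .nil)) .nil)) .leaf) (nat_lit 5021340786201853) (.br (nat_lit 3) (.cons (.br (nat_lit 4) (.cons (.rel (nat_lit 1610614017)) .nil)) .nil)) (.node .leaf (nat_lit 5021340786968738) (.br (nat_lit 0) (.cons (.br (nat_lit 2) (.cons (.rel (nat_lit 71304336)) .nil)) .nil)) .leaf))) (nat_lit 5021340786969331) (.br (nat_lit 4) (.cons (.br (nat_lit 5) (.cons (.rel (nat_lit 5368713252)) .nil)) .nil)) (.node (.node (.node .leaf (nat_lit 5021340786969336) (.br (nat_lit 2) (.cons (.br (nat_lit 4) (.cons (.rel (nat_lit 1207976004)) .nil)) .nil)) .leaf) (nat_lit 5021340787030672) (.br (nat_lit 5) (.cons (.br (nat_lit 3) (.cons (.rel (nat_lit 4831858689)) (.cons (.rel (nat_lit 4563407376)) .nil))) .nil)) (.node .leaf (nat_lit 5021340787030816) (.br (nat_lit 1) (.cons (.br (nat_lit 4) (.cons (.rel (nat_lit 1090521090)) .nil)) .nil)) .leaf)) (nat_lit 5021340787080604)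 (.br (nat_lit 0) (.cons (.br (nat_lit 2) (.cons (.rel (nat_lit 71304336)) .nil)) .nil)) (.node (.node .leaf (nat_lit 5021340787467127) (.br (nat_lit 0) (.cons (.br (nat_lit 3) (.cons (.rel (nat_lit 272892162)) .nil)) .nil)) .leaf) (nat_lit 5021340787579640) (.br (nat_lit 2) (.cons (.br (nat_lit 3) (.cons (.rel (nat_lit 335546376)) .nil)) .nil)) .leaf))) (nat_lit 5021340787594003) (.br (nat_lit 0) (.cons (.br (nat_lit 3) (.cons (.rel (nat_lit 273747969)) (.cons (.rel (nat_lit 272892162)) .nil))) .nil)) (.node (.node (.node (.node .leaf (nat_lit 5021343591719074) (.br (nat_lit 1) (.cons (.br (nat_lit 2) (.cons (.rel (nat_lit 83955720)) .nil)) .nil)) .leaf) (nat_lit 5021343608968604) (.br (nat_lit 3) (.cons (.br (nat_lit 4) (.cons (.rel (nat_lit 1342177440)) .nil)) .nil)) (.node .leaf (nat_lit 5021343610346232) (.br (nat_lit 0) (.cons (.br (nat_lit 3) (.cons (.rel (nat_lit 276840456)) .nil)) .nil)) .leaf)) (nat_lit 5021343610346908) (.br (nat_lit 2) (.cons (.br (nat_lit 5) (.cons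 (.rel (nat_lit 4362092676)) .nil)) .nil)) (.node (.node .leaf (nat_lit 5021346146522524) (.br (nat_lit 1) (.cons (.br (nat_lit 2) (.cons (.rel (nat_lit 83894274)) .nil)) .nil)) .leaf) (nat_lit 5021522223409939) (.br (nat_lit 1) (.cons (.br (nat_lit 3) (.cons (.rel (nat_lit 285213204)) .nil)) .nil)) .leaf)) (nat_lit 5021523998472852) (.br (nat_lit 0) (.cons (.br (nat_lit 1) (.cons (.rel (nat_lit 42206217)) .nil)) .nil)) (.node (.node (.node .leaf (nat_lit 5021523998923539) (.br (nat_lit 0) (.cons (.br (nat_lit 5) (.cons (.rel (nat_lit 4299170304)) .nil)) .nil)) .leaf) (nat_lit 5021526397614712) (.br (nat_lit 0) (.cons (.br (nat_lit 3) (.cons (.rel (nat_lit 276956160)) .nil)) .nil)) (.node .leaf (nat_lit 5021526397614892) (.br (nat_lit 0) (.cons (.br (nat_lit 1) (.cons (.rel (nat_lit 42205200)) .nil)) .nil)) .leaf)) (nat_lit 5021526600515620) (.br (nat_lit 0) (.cons (.br (nat_lit 3) (.cons (.rel (nat_lit 545407236)) .nil)) .nil)) (.node (.node .leaf (nat_lit 5021552303208610) (.br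 (nat_lit 2) (.cons (.br (nat_lit 4) (.cons (.rel (nat_lit 1140850953)) .nil)) .nil)) .leaf) (nat_lit 5021552303422697) (.br (nat_lit 0) (.cons (.br (nat_lit 1) (.cons (.rel (nat_lit 21037569)) .nil)) .nil)) .leaf))))

/-- refutations 45 -/
def e45 : EX := (.node (.node (.node (.node (.node (.node (.node .leaf (nat_lit 5021718741516419) (.br (nat_lit 2) (.cons (.br (nat_lit 5) (.cons (.rel (nat_lit 4430299137)) .nil)) .nil)) .leaf) (nat_lit 5021718741516443) (.br (nat_lit 2) (.cons (.br (nat_lit 5) (.cons (.rel (nat_lit 8724176976)) (.cons (.rel (nat_lit 8724152325)) .nil))) .nil)) (.node .leaf (nat_lit 5021718741516470) (.br (nat_lit 5) (.cons (.br (nat_lit 2) (.cons (.rel (nat_lit 8724152325)) (.cons (.rel (nat_lit 8724176976)) .nil))) .nil)) .leaf)) (nat_lit 5021718741516570) (.br (nat_lit 1) (.cons (.br (nat_lit 2) (.cons (.rel (nat_lit 83886177)) .nil)) .nil)) (.node (.node .leaf (nat_lit 5021718741517665) (.br (nat_lit 2) (.cons (.br (nat_lit 3) (.cons (.rel (nat_lit 671089668))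 .nil)) .nil)) .leaf) (nat_lit 5021718741582611) (.br (nat_lit 0) (.cons (.br (nat_lit 1) (.cons (.rel (nat_lit 25171968)) .nil)) .nil)) .leaf)) (nat_lit 5021718741825013) (.br (nat_lit 0) (.cons (.br (nat_lit 1) (.cons (.rel (nat_lit 21495840)) .nil)) .nil)) (.node (.node (.node .leaf (nat_lit 5021718741827715) (.br (nat_lit 0) (.cons (.br (nat_lit 4) (.cons (.rel (nat_lit 1077938244)) .nil)) .nil)) .leaf) (nat_lit 5021718741875965) (.br (nat_lit 5) (.cons (.br (nat_lit 1) (.cons (.rel (nat_lit 8606712912)) (.cons (.rel (nat_lit 4312809600)) .nil))) .nil)) .leaf) (nat_lit 5021718742852344) (.br (nat_lit 0) (.cons (.br (nat_lit 1) (.cons (.rel (nat_lit 25198593)) .nil)) .nil)) (.node (.node .leaf (nat_lit 5021718743320053) (.br (nat_lit 2) (.cons (.br (nat_lit 5) (.cons (.rel (nat_lit 8724152325)) (.cons (.br (nat_lit 4) (.cons (.rel (nat_lit 5369762049)) (.cons (.rel (nat_lit 5368709253)) .nil))) (.cons (.rel (nat_lit 4362092676)) .nil)))) .nil)) .leaf) (nat_lit 5021718743372082)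 (.br (nat_lit 1) (.cons (.br (nat_lit 0) (.cons (.rel (nat_lit 25182276)) (.cons (.rel (nat_lit 37748805)) .nil))) .nil)) .leaf))) (nat_lit 5021718743415571) (.br (nat_lit 0) (.cons (.br (nat_lit 2) (.cons (.rel (nat_lit 71304336)) .nil)) .nil)) (.node (.node (.node (.node .leaf (nat_lit 5021718744148099) (.br (nat_lit 2) (.cons (.br (nat_lit 5) (.cons (.rel (nat_lit 8724152325)) (.cons (.rel (nat_lit 4362097680)) .nil))) .nil)) .leaf) (nat_lit 5021718744148123) (.br (nat_lit 0) (.cons (.br (nat_lit 2) (.cons (.rel (nat_lit 71319648)) (.cons (.rel (nat_lit 71319648)) .nil))) (.cons (.br (nat_lit 2) (.cons (.rel (nat_lit 71327745)) (.cons (.rel (nat_lit 71304336)) .nil))) .nil))) .leaf) (nat_lit 5021718744148150) (.br (nat_lit 2) (.cons (.br (nat_lit 5) (.cons (.rel (nat_lit 8724152325)) (.cons (.rel (nat_lit 4362077220)) (.cons (.rel (nat_lit 8724152325)) .nil)))) (.cons (.br (nat_lit 5) (.cons (.rel (nat_lit 8724152325)) (.cons (.rel (nat_lit 8724152325)) (.cons (.rel (nat_lit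 4362097680)) .nil)))) (.cons (.br (nat_lit 4) (.cons (.rel (nat_lit 1141116945)) (.cons (.rel (nat_lit 1141116945)) (.cons (.rel (nat_lit 1207992321)) .nil)))) .nil)))) (.node (.node .leaf (nat_lit 5021718744148728) (.br (nat_lit 2) (.cons (.br (nat_lit 5) (.cons (.rel (nat_lit 4362078225)) (.cons (.rel (nat_lit 8724152325)) .nil))) (.cons (.br (nat_lit 5) (.cons (.rel (nat_lit 4362211329)) (.cons (.rel (nat_lit 4362077220)) .nil))) .nil))) .leaf) (nat_lit 5021718744148779) (.br (nat_lit 5) (.cons (.br (nat_lit 0) (.cons (.rel (nat_lit 4299198996)) (.cons (.rel (nat_lit 8598327552)) (.cons (.rel (nat_lit 8594134020)) .nil)))) .nil)) .leaf)) (nat_lit 5021718744148855) (.br (nat_lit 4) (.cons (.br (nat_lit 1) (.cons (.rel (nat_lit 2182414338)) (.cons (.rel (nat_lit 1090520085)) .nil))) .nil)) (.node (.node (.node .leaf (nat_lit 5021718744180213) (.br (nat_lit 0) (.cons (.br (nat_lit 1) (.cons (.rel (nat_lit 20976132)) .nil)) .nil)) .leaf) (nat_lit 5021718744353404) (.br (nat_lit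 1) (.cons (.br (nat_lit 3) (.cons (.rel (nat_lit 285233664)) (.cons (.rel (nat_lit 285213204)) .nil))) (.cons (.br (nat_lit 3) (.cons (.rel (nat_lit 286261281)) (.cons (.rel (nat_lit 553664517)) .nil))) .nil))) .leaf) (nat_lit 5021718744353555) (.br (nat_lit 1) (.cons (.br (nat_lit 4) (.cons (.rel (nat_lit 2181039105)) .nil)) .nil)) (.node (.node .leaf (nat_lit 5021718744447863) (.br (nat_lit 0) (.cons (.br (nat_lit 5) (.cons (.rel (nat_lit 4299424020)) .nil)) .nil)) .leaf) (nat_lit 5021718744652563) (.br (nat_lit 5) (.cons (.br (nat_lit 0) (.cons (.rel (nat_lit 4299444480)) (.cons (.rel (nat_lit 4299444480)) .nil))) .nil)) .leaf)))) (nat_lit 5021718744711474) (.br (nat_lit 1) (.cons (.br (nat_lit 4) (.cons (.rel (nat_lit 1090785792)) .nil)) .nil)) (.node (.node (.node (.node (.node .leaf (nat_lit 5021718744711855) (.br (nat_lit 4) (.cons (.br (nat_lit 1) (.cons (.rel (nat_lit 2181058560)) (.cons (.rel (nat_lit 2181038100)) .nil))) .nil)) .leaf) (nat_lit 5021718744711928) (.br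 (nat_lit 1) (.cons (.br (nat_lit 3) (.cons (.rel (nat_lit 553664517)) .nil)) .nil)) .leaf) (nat_lit 5021718744712055) (.br (nat_lit 5) (.cons (.br (nat_lit 3) (.cons (.rel (nat_lit 8858372097)) (.cons (.rel (nat_lit 4564467780)) .nil))) .nil)) (.node (.node .leaf (nat_lit 5021718744712079) (.br (nat_lit 1) (.cons (.br (nat_lit 5) (.cons (.rel (nat_lit 4312285185)) (.cons (.rel (nat_lit 4312825929)) .nil))) .nil)) .leaf) (nat_lit 5021718744716020) (.br (nat_lit 5) (.cons (.br (nat_lit 1) (.cons (.rel (nat_lit 4312268868)) (.cons (.rel (nat_lit 4312011009)) .nil))) .nil)) .leaf)) (nat_lit 5021718744716051) (.br (nat_lit 1) (.cons (.br (nat_lit 5) (.cons (.rel (nat_lit 8623490304)) .nil)) .nil)) (.node (.node (.node .leaf (nat_lit 5021718744716571) (.br (nat_lit 0) (.cons (.br (nat_lit 1) (.cons (.rel (nat_lit 21037569)) .nil)) .nil)) .leaf) (nat_lit 5021721379734881) (.br (nat_lit 5) (.cons (.br (nat_lit 4) (.cons (.rel (nat_lit 5368725570)) (.cons (.rel (nat_lit 5368714257)) .nil)))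 .nil)) .leaf) (nat_lit 5021721380092540) (.br (nat_lit 4) (.cons (.br (nat_lit 6) (.cons (.rel (nat_lit 35433549825)) .nil)) .nil)) (.node (.node .leaf (nat_lit 5021721382365366) (.br (nat_lit 2) (.cons (.br (nat_lit 5) (.cons (.rel (nat_lit 8724152325)) (.cons (.rel (nat_lit 4362097680)) .nil))) (.cons (.br (nat_lit 4) (.cons (.rel (nat_lit 1140850953)) (.cons (.rel (nat_lit 1140850953)) .nil))) .nil))) .leaf) (nat_lit 5021721382365971) (.br (nat_lit 4) (.cons (.br (nat_lit 2) (.cons (.rel (nat_lit 1207992321)) (.cons (.rel (nat_lit 1141179396)) .nil))) .nil)) .leaf))) (nat_lit 5021721480704306) (.br (nat_lit 0) (.cons (.br (nat_lit 1) (.cons (.rel (nat_lit 42205200)) .nil)) .nil)) (.node (.node (.node (.node .leaf (nat_lit 5021721480755836) (.br (nat_lit 1) (.cons (.br (nat_lit 4) (.cons (.rel (nat_lit 1090650240)) .nil)) .nil)) .leaf) (nat_lit 5021721482199927) (.br (nat_lit 2) (.cons (.br (nat_lit 5) (.cons (.br (nat_lit 1) (.cons (.rel (nat_lit 8623509762)) (.cons (.rel (nat_lit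 4328525832)) .nil))) .nil)) .nil)) .leaf) (nat_lit 5021721482200565) (.br (nat_lit 5) (.cons (.br (nat_lit 1) (.cons (.rel (nat_lit 8623490304)) (.cons (.rel (nat_lit 8606712912)) (.cons (.rel (nat_lit 8623509762)) .nil)))) .nil)) (.node (.node .leaf (nat_lit 5021721483029135) (.br (nat_lit 0) (.cons (.br (nat_lit 2) (.cons (.rel (nat_lit 71308290)) .nil)) .nil)) .leaf) (nat_lit 5021721483029240) (.br (nat_lit 2) (.cons (.br (nat_lit 5) (.cons (.rel (nat_lit 4362076170)) .nil)) .nil)) .leaf)) (nat_lit 5021721483029267) (.br (nat_lit 2) (.cons (.br (nat_lit 5) (.cons (.rel (nat_lit 8657307648)) (.cons (.rel (nat_lit 4363190592)) .nil))) .nil)) (.node (.node (.node .leaf (nat_lit 5021723957667971) (.br (nat_lit 2) (.cons (.br (nat_lit 5) (.cons (.rel (nat_lit 4362097680)) .nil)) .nil)) .leaf) (nat_lit 5021723957667995) (.br (nat_lit 4) (.cons (.br (nat_lit 5) (.cons (.rel (nat_lit 5370019908)) .nil)) .nil)) .leaf) (nat_lit 5021723957668022) (.br (nat_lit 2) (.cons (.br (nat_lit 5)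 (.cons (.rel (nat_lit 8724152325)) .nil)) .nil)) (.node (.node .leaf (nat_lit 5021723957668600) (.br (nat_lit 5) (.cons (.br (nat_lit 2) (.cons (.rel (nat_lit 4362078225)) (.cons (.rel (nat_lit 4362092676)) .nil))) .nil)) .leaf) (nat_lit 5021723957873276) (.br (nat_lit 1) (.cons (.br (nat_lit 5) (.cons (.rel (nat_lit 4312285185)) .nil)) .nil)) .leaf))))) (nat_lit 5021724062526095) (.br (nat_lit 0) (.cons (.br (nat_lit 1) (.cons (.rel (nat_lit 22086660)) .nil)) .nil)) (.node (.node (.node (.node (.node (.node .leaf (nat_lit 5021724168945846) (.br (nat_lit 5) (.cons (.br (nat_lit 0) (.cons (.rel (nat_lit 4299489600)) (.cons (.rel (nat_lit 4300210248)) (.cons (.rel (nat_lit 4299425025)) .nil)))) .nil)) .leaf) (nat_lit 5021724169011987) (.br (nat_lit 2) (.cons (.br (nat_lit 3) (.cons (.rel (nat_lit 335546376)) .nil)) .nil)) .leaf) (nat_lit 5021724169012087) (.br (nat_lit 0) (.cons (.br (nat_lit 4) (.cons (.rel (nat_lit 1078199808)) .nil)) .nil)) (.node (.node .leaf (nat_lit 5021724169048951)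 (.br (nat_lit 0) (.cons (.br (nat_lit 3) (.cons (.rel (nat_lit 276824130)) .nil)) .nil)) .leaf) (nat_lit 5021724169253651) (.br (nat_lit 0) (.cons (.br (nat_lit 1) (.cons (.rel (nat_lit 20976132)) .nil)) .nil)) .leaf)) (nat_lit 5021724170749429) (.br (nat_lit 2) (.cons (.br (nat_lit 5) (.cons (.rel (nat_lit 4362092676)) .nil)) .nil)) (.node (.node (.node .leaf (nat_lit 5021724171577499) (.br (nat_lit 0) (.cons (.br (nat_lit 2) (.cons (.rel (nat_lit 71337984)) .nil)) .nil)) .leaf) (nat_lit 5021724171577526) (.br (nat_lit 5) (.cons (.br (nat_lit 1) (.cons (.rel (nat_lit 8623490304)) (.cons (.rel (nat_lit 4328525832)) (.cons (.rel (nat_lit 4311747072)) .nil)))) .nil)) .leaf) (nat_lit 5021724171577999) (.br (nat_lit 6) (.cons (.br (nat_lit 1) (.cons (.rel (nat_lit 34376548881)) (.cons (.rel (nat_lit 17196679176)) .nil))) .nil)) (.node (.node .leaf (nat_lit 5021724171578104) (.br (nat_lit 2) (.cons (.br (nat_lit 5) (.cons (.rel (nat_lit 4362078225)) (.cons (.rel (nat_lit 4362076170))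 (.cons (.rel (nat_lit 4362092676)) (.cons (.rel (nat_lit 4362092676)) .nil))))) .nil)) .leaf) (nat_lit 5021724171578131) (.br (nat_lit 3) (.cons (.br (nat_lit 5) (.cons (.rel (nat_lit 4563927048)) (.cons (.rel (nat_lit 4565565696)) (.cons (.rel (nat_lit 8858372097)) (.cons (.rel (nat_lit 4831858689)) (.cons (.rel (nat_lit 4565565696)) .nil)))))) (.cons (.br (nat_lit 5) (.cons (.rel (nat_lit 9127067652)) (.cons (.rel (nat_lit 4563927048)) (.cons (.rel (nat_lit 4564467780)) (.cons (.rel (nat_lit 8858371092)) (.cons (.rel (nat_lit 4564484097)) .nil)))))) (.cons (.br (nat_lit 1) (.cons (.rel (nat_lit 301990020)) (.cons (.rel (nat_lit 553648200)) (.cons (.br (nat_lit 5) (.cons (.rel (nat_lit 8858372097)) (.cons (.rel (nat_lit 4831839234)) (.cons (.rel (nat_lit 4831839234)) (.cons (.rel (nat_lit 4564484097)) (.cons (.rel (nat_lit 8623490304)) .nil)))))) (.cons (.rel (nat_lit 302006337)) (.cons (.rel (nat_lit 302055456)) .nil)))))) .nil)))) .leaf))) (nat_lit 5021724171578724) (.br (nat_lit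 0) (.cons (.br (nat_lit 1) (.cons (.rel (nat_lit 21037569)) .nil)) .nil)) (.node (.node (.node (.node .leaf (nat_lit 5021724171782831) (.br (nat_lit 1) (.cons (.br (nat_lit 5) (.cons (.rel (nat_lit 8606728224)) (.cons (.rel (nat_lit 4312793094)) .nil))) .nil)) .leaf) (nat_lit 5021724172140850) (.br (nat_lit 2) (.cons (.br (nat_lit 4) (.cons (.rel (nat_lit 1141179396)) .nil)) .nil)) .leaf) (nat_lit 5021724172141431) (.br (nat_lit 1) (.cons (.br (nat_lit 5) (.cons (.rel (nat_lit 8606720004)) (.cons (.rel (nat_lit 8623490304)) .nil))) (.cons (.br (nat_lit 3) (.cons (.rel (nat_lit 570691584)) (.cons (.rel (nat_lit 302055456)) .nil))) .nil))) (.node (.node .leaf (nat_lit 5021724172145427) (.br (nat_lit 0) (.cons (.br (nat_lit 1) (.cons (.rel (nat_lit 20976132)) .nil)) .nil)) .leaf) (nat_lit 5021724172145525) (.br (nat_lit 0) (.cons (.br (nat_lit 1) (.cons (.rel (nat_lit 22044681)) .nil)) .nil)) .leaf)) (nat_lit 5021778871059809) (.br (nat_lit 0) (.cons (.br (nat_lit 2) (.cons (.rel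 (nat_lit 71304336)) .nil)) .nil)) (.node (.node (.node .leaf (nat_lit 5021778871071977) (.br (nat_lit 0) (.cons (.br (nat_lit 3) (.cons (.rel (nat_lit 541065345)) .nil)) .nil)) .leaf) (nat_lit 5021778871071980) (.br (nat_lit 1) (.cons (.br (nat_lit 2) (.cons (.rel (nat_lit 100941888)) .nil)) .nil)) .leaf) (nat_lit 5021778871072156) (.br (nat_lit 4) (.cons (.br (nat_lit 5) (.cons (.rel (nat_lit 5368714257)) .nil)) .nil)) (.node (.node .leaf (nat_lit 5021778871072245) (.br (nat_lit 0) (.cons (.br (nat_lit 5) (.cons (.rel (nat_lit 8598601728)) .nil)) .nil)) .leaf) (nat_lit 5021778871585555) (.br (nat_lit 0) (.cons (.br (nat_lit 2) (.cons (.rel (nat_lit 71337984)) .nil)) .nil)) .leaf)))) (nat_lit 5021778871593771) (.br (nat_lit 1) (.cons (.br (nat_lit 3) (.cons (.rel (nat_lit 570691584)) .nil)) .nil)) (.node (.node (.node (.node (.node .leaf (nat_lit 5021778871594396) (.br (nat_lit 2) (.cons (.br (nat_lit 3) (.cons (.rel (nat_lit 335546376)) .nil)) .nil)) .leaf) (nat_lit 5021778871678358)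 (.br (nat_lit 2) (.cons (.br (nat_lit 4) (.cons (.rel (nat_lit 1207965696)) (.cons (.rel (nat_lit 1141900800)) .nil))) (.cons (.br (nat_lit 3) (.cons (.rel (nat_lit 335544357)) (.cons (.rel (nat_lit 671089668)) .nil))) .nil))) .leaf) (nat_lit 5021778871678453) (.br (nat_lit 2) (.cons (.br (nat_lit 3) (.cons (.rel (nat_lit 335546376)) .nil)) .nil)) (.node (.node .leaf (nat_lit 5021778872392440) (.br (nat_lit 0) (.cons (.br (nat_lit 3) (.cons (.rel (nat_lit 276840456)) .nil)) .nil)) .leaf) (nat_lit 5021778872596607) (.br (nat_lit 0) (.cons (.br (nat_lit 6) (.cons (.rel (nat_lit 17184063498)) .nil)) .nil)) .leaf)) (nat_lit 5021778872597737) (.br (nat_lit 0) (.cons (.br (nat_lit 3) (.cons (.rel (nat_lit 274727232)) .nil)) .nil)) (.node (.node (.node .leaf (nat_lit 5021778872717944) (.br (nat_lit 0) (.cons (.br (nat_lit 2) (.cons (.rel (nat_lit 142623744)) .nil)) .nil)) .leaf) (nat_lit 5021778872905855) (.br (nat_lit 0) (.cons (.br (nat_lit 2) (.cons (.rel (nat_lit 71337984)) .nil))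 .nil)) .leaf) (nat_lit 5021778873694335) (.br (nat_lit 1) (.cons (.br (nat_lit 3) (.cons (.br (nat_lit 6) (.cons (.rel (nat_lit 17448337536)) .nil)) .nil)) .nil)) (.node (.node .leaf (nat_lit 5021778873722357) (.br (nat_lit 4) (.cons (.br (nat_lit 5) (.cons (.rel (nat_lit 5368709253)) .nil)) .nil)) .leaf) (nat_lit 5021778873877112) (.br (nat_lit 0) (.cons (.br (nat_lit 2) (.cons (.rel (nat_lit 71307285)) .nil)) .nil)) .leaf))) (nat_lit 5021778874194707) (.br (nat_lit 3) (.cons (.br (nat_lit 4) (.cons (.rel (nat_lit 2416459776)) .nil)) .nil)) (.node (.node (.node (.node .leaf (nat_lit 5021778874195305) (.br (nat_lit 3) (.cons (.br (nat_lit 0) (.cons (.rel (nat_lit 276840456)) (.cons (.rel (nat_lit 274727232)) .nil))) .nil)) .leaf) (nat_lit 5021778874243378) (.br (nat_lit 4) (.cons (.br (nat_lit 5) (.cons (.rel (nat_lit 5368725570)) (.cons (.rel (nat_lit 5368709253)) (.cons (.rel (nat_lit 10737427461)) .nil)))) .nil)) .leaf) (nat_lit 5021778874244332) (.br (nat_lit 0) (.cons (.br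 (nat_lit 2) (.cons (.rel (nat_lit 71304336)) (.cons (.rel (nat_lit 71307285)) .nil))) (.cons (.br (nat_lit 1) (.cons (.rel (nat_lit 22086660)) (.cons (.rel (nat_lit 20976132)) .nil))) .nil))) (.node (.node .leaf (nat_lit 5021778874244449) (.br (nat_lit 3) (.cons (.br (nat_lit 0) (.cons (.rel (nat_lit 276840456)) (.cons (.rel (nat_lit 273694752)) .nil))) .nil)) .leaf) (nat_lit 5021778874244508) (.br (nat_lit 2) (.cons (.br (nat_lit 0) (.cons (.rel (nat_lit 71304336)) (.cons (.rel (nat_lit 71337984)) (.cons (.rel (nat_lit 71337984)) .nil)))) .nil)) .leaf)) (nat_lit 5021781613124344) (.br (nat_lit 0) (.cons (.br (nat_lit 1) (.cons (.rel (nat_lit 22024209)) .nil)) .nil)) (.node (.node (.node .leaf (nat_lit 5021781677071768) (.br (nat_lit 0) (.cons (.br (nat_lit 5) (.cons (.rel (nat_lit 8598327552)) .nil)) .nil)) .leaf) (nat_lit 5021781680233884) (.br (nat_lit 0) (.cons (.br (nat_lit 1) (.cons (.rel (nat_lit 42205200)) .nil)) .nil)) .leaf) (nat_lit 5024748367606571) (.br (nat_lit 0)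 (.cons (.br (nat_lit 1) (.cons (.rel (nat_lit 21105216)) .nil)) .nil)) (.node (.node .leaf (nat_lit 5024748370172664) (.br (nat_lit 0) (.cons (.br (nat_lit 2) (.cons (.rel (nat_lit 71337984)) .nil)) .nil)) .leaf) (nat_lit 5024748370173334) (.br (nat_lit 0) (.cons (.br (nat_lit 2) (.cons (.rel (nat_lit 72352128)) .nil)) .nil)) .leaf))))))

/-- refutations 46 -/
def e46 : EX := (.node (.node (.node (.node (.node .leaf (nat_lit 5024768168373484) (.br (nat_lit 2) (.cons (.br (nat_lit 6) (.cons (.rel (nat_lit 17314088001)) .nil)) .nil)) .leaf) (nat_lit 5024768168556021) (.br (nat_lit 2) (.cons (.br (nat_lit 3) (.cons (.rel (nat_lit 335627268)) .nil)) .nil)) (.node .leaf (nat_lit 5024768168568044) (.br (nat_lit 2) (.cons (.br (nat_lit 3) (.cons (.rel (nat_lit 335545362)) (.cons (.rel (nat_lit 605037060)) .nil))) (.cons (.br (nat_lit 0) (.cons (.rel (nat_lit 71308290)) (.cons (.rel (nat_lit 71307285)) (.cons (.rel (nat_lit 71337984)) .nil)))) .nil))) .leaf)) (nat_lit 5024768169628280)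 (.br (nat_lit 2) (.cons (.br (nat_lit 5) (.cons (.rel (nat_lit 8724152325)) (.cons (.rel (nat_lit 8724152325)) .nil))) .nil)) (.node (.node .leaf (nat_lit 5024768169894575) (.br (nat_lit 0) (.cons (.br (nat_lit 1) (.cons (.rel (nat_lit 25182276)) .nil)) .nil)) .leaf) (nat_lit 5024768170163436) (.br (nat_lit 0) (.cons (.br (nat_lit 1) (.cons (.rel (nat_lit 22167552)) .nil)) .nil)) .leaf)) (nat_lit 5024768170191480) (.br (nat_lit 0) (.cons (.br (nat_lit 1) (.cons (.rel (nat_lit 21250308)) .nil)) .nil)) (.node (.node (.node .leaf (nat_lit 5024768171218156) (.br (nat_lit 0) (.cons (.br (nat_lit 2) (.cons (.rel (nat_lit 71304336)) (.cons (.rel (nat_lit 71304336)) .nil))) .nil)) .leaf) (nat_lit 5024768171235360) (.br (nat_lit 0) (.cons (.br (nat_lit 3) (.cons (.rel (nat_lit 272892162)) .nil)) .nil)) (.node .leaf (nat_lit 5024768171433461) (.br (nat_lit 0) (.cons (.br (nat_lit 3) (.cons (.rel (nat_lit 276832272)) (.cons (.rel (nat_lit 276956160)) .nil))) (.cons (.br (nat_lit 2) (.cons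 (.rel (nat_lit 71327745)) (.cons (.rel (nat_lit 142623744)) .nil))) .nil))) .leaf)) (nat_lit 5024819707916415) (.br (nat_lit 1) (.cons (.br (nat_lit 4) (.cons (.rel (nat_lit 2181039105)) .nil)) .nil)) (.node (.node .leaf (nat_lit 5024819707917175) (.br (nat_lit 0) (.cons (.br (nat_lit 3) (.cons (.rel (nat_lit 541069344)) (.cons (.rel (nat_lit 273159168)) .nil))) .nil)) .leaf) (nat_lit 5024819707917545) (.br (nat_lit 2) (.cons (.br (nat_lit 3) (.cons (.rel (nat_lit 335544357)) .nil)) .nil)) .leaf))) (nat_lit 5024819708287608) (.br (nat_lit 1) (.cons (.br (nat_lit 2) (.cons (.rel (nat_lit 83888196)) .nil)) .nil)) (.node (.node (.node (.node .leaf (nat_lit 5024819709442175) (.br (nat_lit 5) (.cons (.br (nat_lit 0) (.cons (.rel (nat_lit 8598327552)) (.cons (.rel (nat_lit 4303355988)) .nil))) .nil)) .leaf) (nat_lit 5024819709442708) (.br (nat_lit 1) (.cons (.br (nat_lit 4) (.cons (.rel (nat_lit 1090519080)) .nil)) .nil)) (.node .leaf (nat_lit 5024819709822453) (.br (nat_lit 1) (.cons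 (.br (nat_lit 3) (.cons (.rel (nat_lit 286261281)) .nil)) .nil)) .leaf)) (nat_lit 5024819710540436) (.br (nat_lit 1) (.cons (.br (nat_lit 3) (.cons (.rel (nat_lit 286263300)) .nil)) .nil)) (.node (.node .leaf (nat_lit 5024819710540663) (.br (nat_lit 3) (.cons (.br (nat_lit 4) (.cons (.rel (nat_lit 1342182408)) .nil)) .nil)) .leaf) (nat_lit 5024819710741140) (.br (nat_lit 0) (.cons (.br (nat_lit 2) (.cons (.rel (nat_lit 71327745)) .nil)) .nil)) .leaf)) (nat_lit 5024819710775983) (.br (nat_lit 4) (.cons (.br (nat_lit 5) (.cons (.rel (nat_lit 5368741896)) .nil)) .nil)) (.node (.node (.node .leaf (nat_lit 5024819711099567) (.br (nat_lit 0) (.cons (.br (nat_lit 4) (.cons (.rel (nat_lit 1078005768)) .nil)) .nil)) .leaf) (nat_lit 5024819711099767) (.br (nat_lit 0) (.cons (.br (nat_lit 5) (.cons (.rel (nat_lit 8598601728)) .nil)) .nil)) (.node .leaf (nat_lit 5024823583718901) (.br (nat_lit 1) (.cons (.br (nat_lit 4) (.cons (.rel (nat_lit 1090785792)) .nil)) .nil)) .leaf)) (nat_lit 5026076580419871)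 (.br (nat_lit 0) (.cons (.br (nat_lit 2) (.cons (.rel (nat_lit 71307285)) .nil)) .nil)) (.node (.node .leaf (nat_lit 5026122149730466) (.br (nat_lit 0) (.cons (.br (nat_lit 4) (.cons (.rel (nat_lit 1077953556)) .nil)) .nil)) .leaf) (nat_lit 5026122151011235) (.br (nat_lit 0) (.cons (.br (nat_lit 2) (.cons (.rel (nat_lit 71319648)) .nil)) .nil)) .leaf))))

/-- refutations 47 -/
def e47 : EX := (.node (.node (.node (.node (.node (.node .leaf (nat_lit 5026743824016116) (.br (nat_lit 0) (.cons (.br (nat_lit 2) (.cons (.rel (nat_lit 71307285)) .nil)) .nil)) .leaf) (nat_lit 5026743825699572) (.br (nat_lit 2) (.cons (.br (nat_lit 3) (.cons (.rel (nat_lit 335546376)) .nil)) .nil)) .leaf) (nat_lit 5026743853265023) (.br (nat_lit 1) (.cons (.br (nat_lit 2) (.cons (.rel (nat_lit 83894274)) .nil)) .nil)) (.node .leaf (nat_lit 5026743853266153) (.br (nat_lit 2) (.cons (.br (nat_lit 0) (.cons (.rel (nat_lit 71337984)) (.cons (.rel (nat_lit 75759681)) .nil))) .nil)) .leaf)) (nat_lit 5026743853274338)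 (.br (nat_lit 0) (.cons (.br (nat_lit 2) (.cons (.rel (nat_lit 72683520)) .nil)) .nil)) (.node (.node .leaf (nat_lit 5026743853324470) (.br (nat_lit 2) (.cons (.br (nat_lit 1) (.cons (.rel (nat_lit 100663569)) (.cons (.rel (nat_lit 83955720)) .nil))) .nil)) .leaf) (nat_lit 5026743853329909) (.br (nat_lit 3) (.cons (.br (nat_lit 4) (.cons (.rel (nat_lit 1343258880)) .nil)) .nil)) (.node .leaf (nat_lit 5026743853878505) (.br (nat_lit 2) (.cons (.br (nat_lit 4) (.cons (.rel (nat_lit 1207992321)) .nil)) .nil)) .leaf))) (nat_lit 5026743854558564) (.br (nat_lit 1) (.cons (.br (nat_lit 3) (.cons (.rel (nat_lit 286261281)) .nil)) .nil)) (.node (.node (.node (.node .leaf (nat_lit 5026743854840564) (.br (nat_lit 0) (.cons (.br (nat_lit 2) (.cons (.rel (nat_lit 71304336)) .nil)) .nil)) .leaf) (nat_lit 5026743854840715) (.br (nat_lit 1) (.cons (.br (nat_lit 3) (.cons (.rel (nat_lit 570691584)) .nil)) .nil)) .leaf) (nat_lit 5026743854841333) (.br (nat_lit 0) (.cons (.br (nat_lit 3) (.cons (.rel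 (nat_lit 272892162)) .nil)) .nil)) (.node .leaf (nat_lit 5026743855055755) (.br (nat_lit 2) (.cons (.br (nat_lit 4) (.cons (.rel (nat_lit 1140850953)) .nil)) .nil)) .leaf)) (nat_lit 5026743855100564) (.br (nat_lit 3) (.cons (.br (nat_lit 4) (.cons (.rel (nat_lit 1342263300)) .nil)) .nil)) (.node (.node .leaf (nat_lit 5026743855100715) (.br (nat_lit 2) (.cons (.br (nat_lit 3) (.cons (.rel (nat_lit 671089668)) .nil)) .nil)) .leaf) (nat_lit 5026743856082974) (.br (nat_lit 2) (.cons (.br (nat_lit 3) (.cons (.rel (nat_lit 403701888)) .nil)) .nil)) (.node .leaf (nat_lit 5026743856134299) (.br (nat_lit 4) (.cons (.br (nat_lit 0) (.cons (.rel (nat_lit 1077936225)) (.cons (.rel (nat_lit 1077974016)) .nil))) .nil)) .leaf)))) (nat_lit 5026743856134450) (.br (nat_lit 4) (.cons (.br (nat_lit 1) (.cons (.rel (nat_lit 2166620160)) (.cons (.rel (nat_lit 1091059968)) .nil))) .nil)) (.node (.node (.node (.node (.node .leaf (nat_lit 5026743856192148) (.br (nat_lit 3) (.cons (.br (nat_lit 1) (.cons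 (.rel (nat_lit 285233664)) (.cons (.rel (nat_lit 553718784)) .nil))) .nil)) .leaf) (nat_lit 5026743856324790) (.br (nat_lit 3) (.cons (.br (nat_lit 6) (.cons (.rel (nat_lit 17449615368)) .nil)) .nil)) .leaf) (nat_lit 5026743856389023) (.br (nat_lit 1) (.cons (.br (nat_lit 3) (.cons (.rel (nat_lit 285214209)) .nil)) .nil)) (.node .leaf (nat_lit 5026743856437403) (.br (nat_lit 0) (.cons (.br (nat_lit 1) (.cons (.rel (nat_lit 42205200)) .nil)) .nil)) .leaf)) (nat_lit 5026743856438008) (.br (nat_lit 0) (.cons (.br (nat_lit 3) (.cons (.rel (nat_lit 541065345)) (.cons (.rel (nat_lit 273686532)) .nil))) (.cons (.br (nat_lit 1) (.cons (.rel (nat_lit 21250308)) (.cons (.rel (nat_lit 42205200)) .nil))) .nil))) (.node (.node .leaf (nat_lit 5026893735697144) (.br (nat_lit 0) (.cons (.br (nat_lit 1) (.cons (.rel (nat_lit 42205200)) .nil)) .nil)) .leaf) (nat_lit 5026895107234552) (.br (nat_lit 0) (.cons (.br (nat_lit 2) (.cons (.rel (nat_lit 71369736)) .nil)) .nil)) (.node .leaf (nat_lit 5026975781509282)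 (.br (nat_lit 2) (.cons (.br (nat_lit 3) (.cons (.rel (nat_lit 606076992)) .nil)) .nil)) .leaf))) (nat_lit 5026975781589748) (.br (nat_lit 0) (.cons (.br (nat_lit 2) (.cons (.rel (nat_lit 71304336)) .nil)) .nil)) (.node (.node (.node (.node .leaf (nat_lit 5026975781589792) (.br (nat_lit 2) (.cons (.br (nat_lit 6) (.cons (.rel (nat_lit 17247240264)) .nil)) .nil)) .leaf) (nat_lit 5026975781590242) (.br (nat_lit 2) (.cons (.br (nat_lit 5) (.cons (.rel (nat_lit 8724152325)) (.cons (.rel (nat_lit 8724152325)) (.cons (.rel (nat_lit 8724152325)) .nil)))) .nil)) .leaf) (nat_lit 5026975782061309) (.br (nat_lit 0) (.cons (.br (nat_lit 1) (.cons (.rel (nat_lit 21250308)) .nil)) .nil)) (.node .leaf (nat_lit 5026975782871217) (.br (nat_lit 2) (.cons (.br (nat_lit 5) (.cons (.rel (nat_lit 4362077220)) .nil)) .nil)) .leaf)) (nat_lit 5026975782871840) (.br (nat_lit 2) (.cons (.br (nat_lit 5) (.cons (.rel (nat_lit 4362077220)) .nil)) .nil)) (.node (.node .leaf (nat_lit 5026975782871851) (.br (nat_lit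 0) (.cons (.br (nat_lit 2) (.cons (.rel (nat_lit 71369736)) .nil)) .nil)) .leaf) (nat_lit 5026975782872577) (.br (nat_lit 3) (.cons (.br (nat_lit 2) (.cons (.rel (nat_lit 671089668)) (.cons (.rel (nat_lit 671089668)) .nil))) .nil)) (.node .leaf (nat_lit 5026975783074579) (.br (nat_lit 2) (.cons (.br (nat_lit 5) (.cons (.rel (nat_lit 4362076170)) .nil)) .nil)) .leaf)))))

/-- refutations 48 -/
def e48 : EX := (.node (.node (.node (.node (.node (.node (.node .leaf (nat_lit 5027173329281811) (.br (nat_lit 0) (.cons (.br (nat_lit 1) (.cons (.rel (nat_lit 21037569)) .nil)) .nil)) .leaf) (nat_lit 5027173332206328) (.br (nat_lit 3) (.cons (.br (nat_lit 4) (.cons (.rel (nat_lit 1342211088)) .nil)) .nil)) .leaf) (nat_lit 5027173350002814) (.br (nat_lit 0) (.cons (.br (nat_lit 4) (.cons (.rel (nat_lit 1082147088)) .nil)) .nil)) (.node (.node .leaf (nat_lit 5027173350046956) (.br (nat_lit 2) (.cons (.br (nat_lit 3) (.cons (.rel (nat_lit 604241922)) .nil)) .nil)) .leaf) (nat_lit 5027173350047003)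 (.br (nat_lit 1) (.cons (.br (nat_lit 2) (.cons (.rel (nat_lit 83903508)) .nil)) .nil)) .leaf)) (nat_lit 5027173350048531) (.br (nat_lit 2) (.cons (.br (nat_lit 0) (.cons (.rel (nat_lit 71304336)) (.cons (.rel (nat_lit 71319648)) (.cons (.rel (nat_lit 71337984)) .nil)))) .nil)) (.node (.node (.node .leaf (nat_lit 5027173350085364) (.br (nat_lit 1) (.cons (.br (nat_lit 2) (.cons (.rel (nat_lit 85196832)) (.cons (.rel (nat_lit 83886177)) .nil))) .nil)) .leaf) (nat_lit 5027173350085395) (.br (nat_lit 1) (.cons (.br (nat_lit 2) (.cons (.rel (nat_lit 84951300)) .nil)) .nil)) .leaf) (nat_lit 5027173350085408) (.br (nat_lit 1) (.cons (.br (nat_lit 2) (.cons (.rel (nat_lit 100941888)) .nil)) .nil)) (.node .leaf (nat_lit 5027173350085868) (.br (nat_lit 1) (.cons (.br (nat_lit 2) (.cons (.rel (nat_lit 100941888)) .nil)) .nil)) .leaf))) (nat_lit 5027173350105844) (.br (nat_lit 1) (.cons (.br (nat_lit 3) (.cons (.rel (nat_lit 570691584)) (.cons (.rel (nat_lit 286263300)) .nil))) .nil)) (.node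 (.node (.node (.node .leaf (nat_lit 5027173350253804) (.br (nat_lit 1) (.cons (.br (nat_lit 3) (.cons (.rel (nat_lit 285213204)) .nil)) .nil)) .leaf) (nat_lit 5027173350254081) (.br (nat_lit 1) (.cons (.br (nat_lit 3) (.cons (.rel (nat_lit 285507840)) .nil)) .nil)) .leaf) (nat_lit 5027173350260225) (.br (nat_lit 0) (.cons (.br (nat_lit 1) (.cons (.rel (nat_lit 20976132)) .nil)) .nil)) (.node .leaf (nat_lit 5027173350344086) (.br (nat_lit 0) (.cons (.br (nat_lit 3) (.cons (.rel (nat_lit 542376000)) .nil)) .nil)) .leaf)) (nat_lit 5027173350600985) (.br (nat_lit 1) (.cons (.br (nat_lit 2) (.cons (.rel (nat_lit 83904513)) .nil)) .nil)) (.node (.node (.node .leaf (nat_lit 5027173350601591) (.br (nat_lit 2) (.cons (.br (nat_lit 3) (.cons (.rel (nat_lit 335627268)) .nil)) .nil)) .leaf) (nat_lit 5027173350602134) (.br (nat_lit 2) (.cons (.br (nat_lit 1) (.cons (.rel (nat_lit 84017157)) (.cons (.rel (nat_lit 83886177)) (.cons (.rel (nat_lit 151521360)) .nil)))) (.cons (.br (nat_lit 0) (.cons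 (.rel (nat_lit 71307285)) (.cons (.rel (nat_lit 71304336)) (.cons (.rel (nat_lit 71327745)) .nil)))) .nil))) .leaf) (nat_lit 5027173350608385) (.br (nat_lit 1) (.cons (.br (nat_lit 3) (.cons (.rel (nat_lit 285213204)) .nil)) .nil)) (.node .leaf (nat_lit 5027173350619768) (.br (nat_lit 0) (.cons (.br (nat_lit 2) (.cons (.rel (nat_lit 71304336)) .nil)) .nil)) .leaf)))) (nat_lit 5027173351313569) (.br (nat_lit 0) (.cons (.br (nat_lit 6) (.cons (.rel (nat_lit 17184064548)) (.cons (.rel (nat_lit 17184063498)) .nil))) .nil)) (.node (.node (.node (.node (.node .leaf (nat_lit 5027173351314040) (.br (nat_lit 2) (.cons (.br (nat_lit 5) (.cons (.rel (nat_lit 8657043780)) (.cons (.rel (nat_lit 4362078225)) .nil))) (.cons (.br (nat_lit 5) (.cons (.rel (nat_lit 4362077220)) (.cons (.rel (nat_lit 4362097680)) .nil))) .nil))) .leaf) (nat_lit 5027173351314343) (.br (nat_lit 2) (.cons (.br (nat_lit 3) (.cons (.rel (nat_lit 671089668)) .nil)) .nil)) .leaf) (nat_lit 5027173351314683) (.br (nat_lit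 2) (.cons (.br (nat_lit 5) (.cons (.rel (nat_lit 4362149892)) .nil)) .nil)) (.node .leaf (nat_lit 5027173351314714) (.br (nat_lit 2) (.cons (.br (nat_lit 4) (.cons (.rel (nat_lit 1141179396)) (.cons (.rel (nat_lit 1207965696)) .nil))) .nil)) .leaf)) (nat_lit 5027173351314815) (.br (nat_lit 4) (.cons (.br (nat_lit 5) (.cons (.rel (nat_lit 5368713252)) .nil)) .nil)) (.node (.node (.node .leaf (nat_lit 5027173351327126) (.br (nat_lit 2) (.cons (.br (nat_lit 0) (.cons (.rel (nat_lit 71304336)) (.cons (.rel (nat_lit 72352128)) (.cons (.rel (nat_lit 75502884)) .nil)))) .nil)) .leaf) (nat_lit 5027173351521162) (.br (nat_lit 1) (.cons (.br (nat_lit 4) (.cons (.rel (nat_lit 2181058560)) (.cons (.rel (nat_lit 2166620160)) (.cons (.rel (nat_lit 1107558465)) (.cons (.rel (nat_lit 1090519080)) .nil))))) .nil)) .leaf) (nat_lit 5027173351521513) (.br (nat_lit 1) (.cons (.br (nat_lit 2) (.cons (.rel (nat_lit 102760452)) .nil)) .nil)) (.node .leaf (nat_lit 5027173351570295) (.br (nat_lit 1) (.cons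 (.br (nat_lit 5) (.cons (.rel (nat_lit 4312793094)) .nil)) .nil)) .leaf))) (nat_lit 5027173351635105) (.br (nat_lit 0) (.cons (.br (nat_lit 2) (.cons (.rel (nat_lit 71450628)) .nil)) .nil)) (.node (.node (.node (.node .leaf (nat_lit 5027173351641994) (.br (nat_lit 1) (.cons (.br (nat_lit 3) (.cons (.rel (nat_lit 285233664)) .nil)) .nil)) .leaf) (nat_lit 5027173352618164) (.br (nat_lit 1) (.cons (.br (nat_lit 3) (.cons (.rel (nat_lit 285213204)) .nil)) .nil)) .leaf) (nat_lit 5027173352813176) (.br (nat_lit 2) (.cons (.br (nat_lit 5) (.cons (.rel (nat_lit 4362211329)) .nil)) .nil)) (.node .leaf (nat_lit 5027173352813851) (.br (nat_lit 0) (.cons (.br (nat_lit 2) (.cons (.rel (nat_lit 71337984)) .nil)) .nil)) .leaf)) (nat_lit 5027173352818865) (.br (nat_lit 4) (.cons (.br (nat_lit 6) (.cons (.rel (nat_lit 18253889664)) (.cons (.rel (nat_lit 18253873158)) .nil))) .nil)) (.node (.node (.node .leaf (nat_lit 5027173352818944) (.br (nat_lit 4) (.cons (.br (nat_lit 3) (.cons (.rel (nat_lit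 2684354640)) (.cons (.rel (nat_lit 1342177440)) .nil))) .nil)) .leaf) (nat_lit 5027173352819323) (.br (nat_lit 2) (.cons (.br (nat_lit 3) (.cons (.rel (nat_lit 335545362)) .nil)) .nil)) .leaf) (nat_lit 5027173352819474) (.br (nat_lit 0) (.cons (.br (nat_lit 3) (.cons (.rel (nat_lit 276824130)) .nil)) .nil)) (.node .leaf (nat_lit 5027173352819994) (.br (nat_lit 3) (.cons (.br (nat_lit 4) (.cons (.rel (nat_lit 1342324737)) .nil)) .nil)) .leaf))))) (nat_lit 5027173352924566) (.br (nat_lit 0) (.cons (.br (nat_lit 3) (.cons (.rel (nat_lit 272647680)) .nil)) .nil)) (.node (.node (.node (.node (.node (.node .leaf (nat_lit 5027173353118956) (.br (nat_lit 0) (.cons (.br (nat_lit 4) (.cons (.rel (nat_lit 1077944322)) .nil)) .nil)) .leaf) (nat_lit 5027173353166978) (.br (nat_lit 0) (.cons (.br (nat_lit 1) (.cons (.rel (nat_lit 22167552)) .nil)) .nil)) .leaf) (nat_lit 5027173353167009) (.br (nat_lit 3) (.cons (.br (nat_lit 6) (.cons (.rel (nat_lit 17448321030)) .nil)) .nil)) (.node (.node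 .leaf (nat_lit 5027173353167608) (.br (nat_lit 2) (.cons (.br (nat_lit 3) (.cons (.rel (nat_lit 335544357)) (.cons (.rel (nat_lit 335546376)) (.cons (.rel (nat_lit 603982176)) .nil)))) .nil)) .leaf) (nat_lit 5027173353167754) (.br (nat_lit 1) (.cons (.br (nat_lit 6) (.cons (.rel (nat_lit 17196662850)) (.cons (.rel (nat_lit 17196650532)) .nil))) (.cons (.br (nat_lit 6) (.cons (.rel (nat_lit 34393309188)) (.cons (.rel (nat_lit 17196670992)) .nil))) .nil))) .leaf)) (nat_lit 5027173353168108) (.br (nat_lit 5) (.cons (.br (nat_lit 1) (.cons (.rel (nat_lit 4312285185)) (.cons (.rel (nat_lit 4312268868)) (.cons (.rel (nat_lit 4328525832)) .nil)))) (.cons (.br (nat_lit 1) (.cons (.rel (nat_lit 4312809600)) (.cons (.rel (nat_lit 4328539200)) (.cons (.rel (nat_lit 4312809600)) .nil)))) .nil))) (.node (.node (.node .leaf (nat_lit 5027173353177975) (.br (nat_lit 1) (.cons (.br (nat_lit 5) (.cons (.rel (nat_lit 4328525832)) .nil)) .nil)) .leaf) (nat_lit 5027173353178394) (.br (nat_lit 1) (.cons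 (.br (nat_lit 2) (.cons (.rel (nat_lit 85196832)) .nil)) .nil)) .leaf) (nat_lit 5027173353179417) (.br (nat_lit 1) (.cons (.br (nat_lit 3) (.cons (.rel (nat_lit 301990020)) .nil)) .nil)) (.node .leaf (nat_lit 5027173353181940) (.br (nat_lit 2) (.cons (.br (nat_lit 1) (.cons (.rel (nat_lit 83888196)) (.cons (.rel (nat_lit 83903508)) .nil))) .nil)) .leaf))) (nat_lit 5027173353181971) (.br (nat_lit 0) (.cons (.br (nat_lit 1) (.cons (.rel (nat_lit 20976132)) .nil)) .nil)) (.node (.node (.node (.node .leaf (nat_lit 5027174399890683) (.br (nat_lit 2) (.cons (.br (nat_lit 0) (.cons (.rel (nat_lit 71308290)) (.cons (.rel (nat_lit 71308290)) (.cons (.rel (nat_lit 71307285)) .nil)))) .nil)) .leaf) (nat_lit 5027174401743608) (.br (nat_lit 0) (.cons (.br (nat_lit 2) (.cons (.rel (nat_lit 71307285)) .nil)) .nil)) .leaf) (nat_lit 5027176173367422) (.br (nat_lit 2) (.cons (.br (nat_lit 6) (.cons (.rel (nat_lit 34426852356)) .nil)) .nil)) (.node .leaf (nat_lit 5027176174081275) (.br (nat_lit 2)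 (.cons (.br (nat_lit 6) (.cons (.rel (nat_lit 17246979456)) (.cons (.rel (nat_lit 34426852356)) .nil))) .nil)) .leaf)) (nat_lit 5027176175385232) (.br (nat_lit 0) (.cons (.br (nat_lit 1) (.cons (.rel (nat_lit 21037569)) .nil)) .nil)) (.node (.node (.node .leaf (nat_lit 5027176175934200) (.br (nat_lit 2) (.cons (.br (nat_lit 5) (.cons (.rel (nat_lit 4362078225)) .nil)) .nil)) .leaf) (nat_lit 5027176466415652) (.br (nat_lit 0) (.cons (.br (nat_lit 1) (.cons (.rel (nat_lit 20976132)) .nil)) .nil)) .leaf) (nat_lit 5027176466621103) (.br (nat_lit 3) (.cons (.br (nat_lit 6) (.cons (.rel (nat_lit 17448321030)) .nil)) .nil)) (.node .leaf (nat_lit 5027176467682687) (.br (nat_lit 3) (.cons (.br (nat_lit 5) (.cons (.rel (nat_lit 8858436672)) .nil)) .nil)) .leaf)))) (nat_lit 5027176467888305) (.br (nat_lit 1) (.cons (.br (nat_lit 4) (.cons (.rel (nat_lit 1090519080)) .nil)) .nil)) (.node (.node (.node (.node (.node .leaf (nat_lit 5027176467889063) (.br (nat_lit 1) (.cons (.br (nat_lit 3) (.cons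 (.rel (nat_lit 285213204)) .nil)) .nil)) .leaf) (nat_lit 5027176467947556) (.br (nat_lit 1) (.cons (.br (nat_lit 5) (.cons (.rel (nat_lit 8623490304)) .nil)) .nil)) .leaf) (nat_lit 5027176467948207) (.br (nat_lit 0) (.cons (.br (nat_lit 3) (.cons (.rel (nat_lit 273159168)) .nil)) .nil)) (.node .leaf (nat_lit 5027176468153207) (.br (nat_lit 0) (.cons (.br (nat_lit 3) (.cons (.rel (nat_lit 276840456)) .nil)) .nil)) .leaf)) (nat_lit 5027176469545720) (.br (nat_lit 0) (.cons (.br (nat_lit 4) (.cons (.rel (nat_lit 1082147088)) .nil)) .nil)) (.node (.node (.node .leaf (nat_lit 5027176469545895) (.br (nat_lit 0) (.cons (.br (nat_lit 3) (.cons (.rel (nat_lit 273159168)) .nil)) .nil)) .leaf) (nat_lit 5027176487387318) (.br (nat_lit 0) (.cons (.br (nat_lit 1) (.cons (.rel (nat_lit 22086660)) .nil)) .nil)) .leaf) (nat_lit 5027176487592696) (.br (nat_lit 0) (.cons (.br (nat_lit 1) (.cons (.rel (nat_lit 21250308)) .nil)) .nil)) (.node .leaf (nat_lit 5027176488653432) (.br (nat_lit 2) (.cons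 (.br (nat_lit 1) (.cons (.rel (nat_lit 83886177)) (.cons (.rel (nat_lit 83955720)) .nil))) .nil)) .leaf))) (nat_lit 5027176488666518) (.br (nat_lit 1) (.cons (.br (nat_lit 3) (.cons (.rel (nat_lit 285214209)) .nil)) .nil)) (.node (.node (.node (.node .leaf (nat_lit 5027176490507000) (.br (nat_lit 0) (.cons (.br (nat_lit 5) (.cons (.rel (nat_lit 4300210248)) .nil)) .nil)) .leaf) (nat_lit 5027176490517240) (.br (nat_lit 0) (.cons (.br (nat_lit 3) (.cons (.rel (nat_lit 276824130)) .nil)) .nil)) .leaf) (nat_lit 5027176490517786) (.br (nat_lit 1) (.cons (.br (nat_lit 2) (.cons (.rel (nat_lit 83894274)) .nil)) .nil)) (.node .leaf (nat_lit 5027179321662200) (.br (nat_lit 0) (.cons (.br (nat_lit 2) (.cons (.rel (nat_lit 71304336)) .nil)) .nil)) .leaf)) (nat_lit 5027193353951992) (.br (nat_lit 0) (.cons (.br (nat_lit 2) (.cons (.rel (nat_lit 71304336)) .nil)) .nil)) (.node (.node (.node .leaf (nat_lit 5027193353953432) (.br (nat_lit 1) (.cons (.br (nat_lit 2) (.cons (.rel (nat_lit 83894274))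 .nil)) .nil)) .leaf) (nat_lit 5027195744705172) (.br (nat_lit 0) (.cons (.br (nat_lit 1) (.cons (.rel (nat_lit 21495840)) .nil)) .nil)) .leaf) (nat_lit 5027195744705299) (.br (nat_lit 1) (.cons (.br (nat_lit 2) (.cons (.rel (nat_lit 167776257)) .nil)) .nil)) (.node .leaf (nat_lit 5027195744705944) (.br (nat_lit 0) (.cons (.br (nat_lit 1) (.cons (.rel (nat_lit 25198593)) .nil)) .nil)) .leaf))))))

/-- refutations 49 -/
def e49 : EX := (.node (.node (.node (.node .leaf (nat_lit 11083335055456436) (.br (nat_lit 0) (.cons (.br (nat_lit 1) (.cons (.rel (nat_lit 22028352)) .nil)) .nil)) .leaf) (nat_lit 11083336001003831) (.br (nat_lit 0) (.cons (.br (nat_lit 1) (.cons (.rel (nat_lit 25171968)) .nil)) .nil)) .leaf) (nat_lit 11083336002064671) (.br (nat_lit 0) (.cons (.br (nat_lit 1) (.cons (.rel (nat_lit 20976132)) .nil)) .nil)) (.node .leaf (nat_lit 11083336003869459) (.br (nat_lit 0) (.cons (.br (nat_lit 2) (.cons (.rel (nat_lit 71308290)) .nil)) .nil)) .leaf)) (nat_lit 11083338577367321)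 (.br (nat_lit 0) (.cons (.br (nat_lit 2) (.cons (.rel (nat_lit 71311428)) .nil)) .nil)) (.node (.node .leaf (nat_lit 11084641362207380) (.br (nat_lit 1) (.cons (.br (nat_lit 2) (.cons (.rel (nat_lit 83886177)) .nil)) .nil)) .leaf) (nat_lit 11084641362227335) (.br (nat_lit 0) (.cons (.br (nat_lit 1) (.cons (.rel (nat_lit 37757952)) .nil)) .nil)) (.node .leaf (nat_lit 11085276380612664) (.br (nat_lit 0) (.cons (.br (nat_lit 2) (.cons (.rel (nat_lit 140771328)) .nil)) .nil)) .leaf)))

/-- refutations 51 -/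
def e51 : EX := (.node (.node .leaf (nat_lit 2815274831671422) (.br (nat_lit 2) (.cons (.br (nat_lit 4) (.cons (.rel (nat_lit 1140986112)) .nil)) .nil)) .leaf) (nat_lit 2817167423988988) (.br (nat_lit 0) (.cons (.br (nat_lit 1) (.cons (.rel (nat_lit 22024209)) .nil)) .nil)) (.node .leaf (nat_lit 2825720193067295) (.br (nat_lit 0) (.cons (.br (nat_lit 1) (.cons (.rel (nat_lit 37748805)) .nil)) .nil)) .leaf))

/-- refutations 52 -/
def e52 : EX := (.node (.node (.node (.node (.node .leaf (nat_lit 11171253033442056) (.br (nat_lit 0) (.cons (.br (nat_lit 5) (.cons (.rel (nat_lit 4300226565)) .nil)) .nil)) .leaf) (nat_lit 11171253942229899) (.br (nat_lit 0) (.cons (.br (nat_lit 4) (.cons (.rel (nat_lit 1077936225)) .nil)) .nil)) .leaf) (nat_lit 11171256271690488) (.br (nat_lit 2) (.cons (.br (nat_lit 3) (.cons (.rel (nat_lit 335548500)) .nil)) .nil)) (.node .leaf (nat_lit 11171256272665263) (.br (nat_lit 1) (.cons (.br (nat_lit 3) (.cons (.rel (nat_lit 286261281)) .nil)) .nil)) .leaf))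 (nat_lit 11171256272665363) (.br (nat_lit 1) (.cons (.br (nat_lit 2) (.cons (.rel (nat_lit 83890320)) (.cons (.rel (nat_lit 85196832)) .nil))) .nil)) (.node (.node .leaf (nat_lit 11171256272665376) (.br (nat_lit 0) (.cons (.br (nat_lit 4) (.cons (.rel (nat_lit 1077938244)) .nil)) .nil)) .leaf) (nat_lit 11171256273023138) (.br (nat_lit 0) (.cons (.br (nat_lit 1) (.cons (.rel (nat_lit 42012933)) .nil)) .nil)) (.node .leaf (nat_lit 11171256273023763) (.br (nat_lit 5) (.cons (.br (nat_lit 1) (.cons (.rel (nat_lit 4312011009)) (.cons (.rel (nat_lit 4312011009)) .nil))) .nil)) .leaf))) (nat_lit 11171256273227938) (.br (nat_lit 0) (.cons (.br (nat_lit 2) (.cons (.rel (nat_lit 71304336)) .nil)) .nil)) (.node (.node (.node .leaf (nat_lit 11171256273945363) (.br (nat_lit 3) (.cons (.br (nat_lit 5) (.cons (.rel (nat_lit 4564484097)) .nil)) .nil)) .leaf) (nat_lit 11171256274295460) (.br (nat_lit 1) (.cons (.br (nat_lit 2) (.cons (.rel (nat_lit 83890320)) .nil)) .nil)) (.node .leaf (nat_lit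 11171256274444594) (.br (nat_lit 0) (.cons (.br (nat_lit 1) (.cons (.rel (nat_lit 21037569)) .nil)) .nil)) .leaf)) (nat_lit 11171256274445088) (.br (nat_lit 5) (.cons (.br (nat_lit 0) (.cons (.rel (nat_lit 8598601728)) (.cons (.rel (nat_lit 8594134020)) .nil))) .nil)) (.node (.node .leaf (nat_lit 11171256274508663) (.br (nat_lit 2) (.cons (.br (nat_lit 5) (.cons (.rel (nat_lit 4362078225)) .nil)) .nil)) .leaf) (nat_lit 11173197359177910) (.br (nat_lit 0) (.cons (.br (nat_lit 1) (.cons (.rel (nat_lit 22024209)) .nil)) .nil)) (.node .leaf (nat_lit 11173237309596408) (.br (nat_lit 0) (.cons (.br (nat_lit 1) (.cons (.rel (nat_lit 22086660)) .nil)) .nil)) .leaf))))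

/-- refutations 53 -/
def e53 : EX := (.node (.node (.node (.node (.node .leaf (nat_lit 11173616420109088) (.br (nat_lit 2) (.cons (.br (nat_lit 4) (.cons (.rel (nat_lit 1141260288)) .nil)) .nil)) .leaf) (nat_lit 11173616420152556) (.br (nat_lit 2) (.cons (.br (nat_lit 1) (.cons (.rel (nat_lit 84149760)) (.cons (.rel (nat_lit 167776257)) .nil))) .nil)) (.node .leaf (nat_lit 11176925097073300) (.br (nat_lit 1) (.cons (.br (nat_lit 3) (.cons (.rel (nat_lit 570691584)) .nil)) .nil)) .leaf)) (nat_lit 11177793103112343) (.br (nat_lit 0) (.cons (.br (nat_lit 6) (.cons (.rel (nat_lit 17184145440)) .nil)) .nil)) (.node (.node .leaf (nat_lit 11178013311996660) (.br (nat_lit 0) (.cons (.br (nat_lit 2) (.cons (.rel (nat_lit 71308290)) .nil)) .nil)) .leaf) (nat_lit 11178013313432809) (.br (nat_lit 0) (.cons (.br (nat_lit 1) (.cons (.rel (nat_lit 42205200)) .nil)) .nil)) .leaf)) (nat_lit 11178013314515704) (.br (nat_lit 1) (.cons (.br (nat_lit 2) (.cons (.rel (nat_lit 84017157)) .nil)) .nil))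 (.node (.node (.node .leaf (nat_lit 11178013314966291) (.br (nat_lit 2) (.cons (.br (nat_lit 4) (.cons (.rel (nat_lit 1140883776)) (.cons (.rel (nat_lit 1140883776)) .nil))) .nil)) .leaf) (nat_lit 11178013315031826) (.br (nat_lit 1) (.cons (.br (nat_lit 6) (.cons (.rel (nat_lit 17196650532)) .nil)) .nil)) .leaf) (nat_lit 11178014348400817) (.br (nat_lit 0) (.cons (.br (nat_lit 1) (.cons (.rel (nat_lit 20976132)) .nil)) .nil)) (.node (.node .leaf (nat_lit 11178014348401400) (.br (nat_lit 3) (.cons (.br (nat_lit 6) (.cons (.rel (nat_lit 17448337536)) .nil)) .nil)) .leaf) (nat_lit 11178016549999479) (.br (nat_lit 0) (.cons (.br (nat_lit 2) (.cons (.rel (nat_lit 71304336)) .nil)) .nil)) .leaf))) (nat_lit 11178016550177074) (.br (nat_lit 0) (.cons (.br (nat_lit 2) (.cons (.rel (nat_lit 75759681)) .nil)) .nil)) (.node (.node (.node (.node .leaf (nat_lit 11178016550411000) (.br (nat_lit 0) (.cons (.br (nat_lit 2) (.cons (.rel (nat_lit 142623744)) .nil)) .nil)) .leaf) (nat_lit 11178016551252644)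 (.br (nat_lit 2) (.cons (.br (nat_lit 4) (.cons (.rel (nat_lit 1140853008)) .nil)) .nil)) .leaf) (nat_lit 11178016552518308) (.br (nat_lit 1) (.cons (.br (nat_lit 2) (.cons (.rel (nat_lit 84149760)) .nil)) .nil)) (.node (.node .leaf (nat_lit 11178016552827767) (.br (nat_lit 0) (.cons (.br (nat_lit 5) (.cons (.rel (nat_lit 8598327552)) .nil)) .nil)) .leaf) (nat_lit 11178016552968498) (.br (nat_lit 2) (.cons (.br (nat_lit 5) (.cons (.rel (nat_lit 8657043780)) .nil)) .nil)) .leaf)) (nat_lit 11178016552968948) (.br (nat_lit 2) (.cons (.br (nat_lit 6) (.cons (.rel (nat_lit 17247256581)) .nil)) .nil)) (.node (.node (.node .leaf (nat_lit 11178016552968979) (.br (nat_lit 2) (.cons (.br (nat_lit 5) (.cons (.rel (nat_lit 8657043780)) (.cons (.rel (nat_lit 4362077220)) (.cons (.rel (nat_lit 4363125012)) .nil)))) .nil)) .leaf) (nat_lit 11178016552968992) (.br (nat_lit 5) (.cons (.br (nat_lit 6) (.cons (.rel (nat_lit 21475099140)) .nil)) .nil)) .leaf) (nat_lit 11178016552969442) (.br (nat_lit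 2) (.cons (.br (nat_lit 5) (.cons (.rel (nat_lit 8724152325)) .nil)) .nil)) (.node (.node .leaf (nat_lit 11178016553022367) (.br (nat_lit 0) (.cons (.br (nat_lit 1) (.cons (.rel (nat_lit 37748805)) .nil)) .nil)) .leaf) (nat_lit 11178016553035005) (.br (nat_lit 0) (.cons (.br (nat_lit 3) (.cons (.rel (nat_lit 541069344)) .nil)) .nil)) .leaf))))

/-- refutations 54 -/
def e54 : EX := (.node (.node .leaf (nat_lit 11181991469767443) (.br (nat_lit 0) (.cons (.br (nat_lit 1) (.cons (.rel (nat_lit 25171968)) .nil)) .nil)) .leaf) (nat_lit 11183368079661816) (.br (nat_lit 0) (.cons (.br (nat_lit 4) (.cons (.rel (nat_lit 1077944322)) .nil)) .nil)) (.node .leaf (nat_lit 11183368082219764) (.br (nat_lit 0) (.cons (.br (nat_lit 5) (.cons (.rel (nat_lit 4299424020)) (.cons (.rel (nat_lit 4303372305)) .nil))) .nil)) .leaf))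

/-- refutations 55 -/
def e55 : EX := (.node (.node (.node (.node (.node .leaf (nat_lit 11453588040047352) (.br (nat_lit 1) (.cons (.br (nat_lit 2) (.cons (.rel (nat_lit 83890320)) .nil)) .nil)) .leaf) (nat_lit 11453890173934479) (.br (nat_lit 0) (.cons (.br (nat_lit 4) (.cons (.rel (nat_lit 1077944322)) .nil)) .nil)) .leaf) (nat_lit 11454028131089311) (.br (nat_lit 2) (.cons (.br (nat_lit 5) (.cons (.rel (nat_lit 8724152325)) .nil)) .nil)) (.node .leaf (nat_lit 11454028131406611) (.br (nat_lit 1) (.cons (.br (nat_lit 6) (.cons (.rel (nat_lit 17196646533)) (.cons (.rel (nat_lit 17196670992)) .nil))) .nil)) .leaf)) (nat_lit 11454028133759608) (.br (nat_lit 3) (.cons (.br (nat_lit 6) (.cons (.rel (nat_lit 17448304713)) .nil)) .nil)) (.node (.node .leaf (nat_lit 11454030449148831) (.br (nat_lit 0) (.cons (.br (nat_lit 4) (.cons (.rel (nat_lit 1082147088)) .nil)) .nil)) .leaf) (nat_lit 11454712771525240) (.br (nat_lit 0) (.cons (.br (nat_lit 2) (.cons (.rel (nat_lit 71304336)) .nil))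 .nil)) (.node .leaf (nat_lit 11454712772025080) (.br (nat_lit 0) (.cons (.br (nat_lit 1) (.cons (.rel (nat_lit 37748805)) (.cons (.rel (nat_lit 22167552)) .nil))) .nil)) .leaf))) (nat_lit 11454713232898680) (.br (nat_lit 2) (.cons (.br (nat_lit 3) (.cons (.rel (nat_lit 335544357)) .nil)) .nil)) (.node (.node (.node .leaf (nat_lit 11454713321478321) (.br (nat_lit 2) (.cons (.br (nat_lit 4) (.cons (.br (nat_lit 6) (.cons (.rel (nat_lit 18253709568)) .nil)) .nil)) .nil)) .leaf) (nat_lit 11454713322347746) (.br (nat_lit 0) (.cons (.br (nat_lit 5) (.cons (.rel (nat_lit 4299170304)) .nil)) .nil)) (.node .leaf (nat_lit 11454713322565121) (.br (nat_lit 0) (.cons (.br (nat_lit 2) (.cons (.rel (nat_lit 71311428)) .nil)) .nil)) .leaf)) (nat_lit 11454717615946360) (.br (nat_lit 0) (.cons (.br (nat_lit 2) (.cons (.rel (nat_lit 71311428)) .nil)) .nil)) (.node (.node .leaf (nat_lit 11454717616550675) (.br (nat_lit 1) (.cons (.br (nat_lit 3) (.cons (.rel (nat_lit 285233664)) .nil)) .nil)) .leaf)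 (nat_lit 11454717617519379) (.br (nat_lit 0) (.cons (.br (nat_lit 1) (.cons (.rel (nat_lit 37748805)) .nil)) .nil)) (.node .leaf (nat_lit 11454717619067191) (.br (nat_lit 2) (.cons (.br (nat_lit 3) (.cons (.rel (nat_lit 335609937)) .nil)) .nil)) .leaf))))

/-- refutations 56 -/
def e56 : EX := (.node (.node (.node (.node (.node (.node .leaf (nat_lit 11454981614392052) (.br (nat_lit 1) (.cons (.br (nat_lit 5) (.cons (.rel (nat_lit 8623490304)) .nil)) .nil)) .leaf) (nat_lit 11454981614433067) (.br (nat_lit 1) (.cons (.br (nat_lit 5) (.cons (.rel (nat_lit 8606712912)) .nil)) .nil)) .leaf) (nat_lit 11454981615466802) (.br (nat_lit 1) (.cons (.br (nat_lit 5) (.cons (.rel (nat_lit 4328587269)) .nil)) .nil)) (.node (.node .leaf (nat_lit 11454981615467407) (.br (nat_lit 4) (.cons (.br (nat_lit 1) (.cons (.rel (nat_lit 1090524228)) (.cons (.rel (nat_lit 1090520085)) .nil))) .nil)) .leaf) (nat_lit 11454984405713831) (.br (nat_lit 2) (.cons (.br (nat_lit 5) (.cons (.rel (nat_lit 8724152325))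 .nil)) .nil)) .leaf)) (nat_lit 11459265901402872) (.br (nat_lit 0) (.cons (.br (nat_lit 2) (.cons (.rel (nat_lit 142623744)) .nil)) .nil)) (.node (.node (.node .leaf (nat_lit 11459267973389048) (.br (nat_lit 0) (.cons (.br (nat_lit 4) (.cons (.rel (nat_lit 1077974016)) .nil)) .nil)) .leaf) (nat_lit 11459268212464376) (.br (nat_lit 1) (.cons (.br (nat_lit 5) (.cons (.rel (nat_lit 4312866816)) .nil)) .nil)) .leaf) (nat_lit 11459488716499731) (.br (nat_lit 0) (.cons (.br (nat_lit 2) (.cons (.rel (nat_lit 71337984)) .nil)) .nil)) (.node (.node .leaf (nat_lit 11459488719559443) (.br (nat_lit 2) (.cons (.br (nat_lit 5) (.cons (.rel (nat_lit 4362077220)) .nil)) .nil)) .leaf) (nat_lit 11459488777063331) (.br (nat_lit 2) (.cons (.br (nat_lit 4) (.cons (.rel (nat_lit 1207976004)) .nil)) .nil)) .leaf))) (nat_lit 11459489425824504) (.br (nat_lit 2) (.cons (.br (nat_lit 5) (.cons (.rel (nat_lit 8724152325)) (.cons (.rel (nat_lit 8657043780)) .nil))) .nil)) (.node (.node (.node (.node .leaf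 (nat_lit 11459489426913586) (.br (nat_lit 0) (.cons (.br (nat_lit 5) (.cons (.rel (nat_lit 4303356993)) .nil)) .nil)) .leaf) (nat_lit 11459489442315116) (.br (nat_lit 0) (.cons (.br (nat_lit 1) (.cons (.rel (nat_lit 21495840)) .nil)) .nil)) .leaf) (nat_lit 11459491329486050) (.br (nat_lit 1) (.cons (.br (nat_lit 2) (.cons (.rel (nat_lit 83904513)) .nil)) .nil)) (.node (.node .leaf (nat_lit 11459491329488926) (.br (nat_lit 0) (.cons (.br (nat_lit 1) (.cons (.rel (nat_lit 22028352)) .nil)) .nil)) .leaf) (nat_lit 11459491329489683) (.br (nat_lit 2) (.cons (.br (nat_lit 3) (.cons (.rel (nat_lit 335544357)) (.cons (.rel (nat_lit 335545362)) .nil))) .nil)) .leaf)) (nat_lit 11459491329489823) (.br (nat_lit 1) (.cons (.br (nat_lit 0) (.cons (.rel (nat_lit 21037569)) (.cons (.rel (nat_lit 21495840)) (.cons (.rel (nat_lit 37765122)) (.cons (.rel (nat_lit 37765122)) .nil))))) .nil)) (.node (.node (.node .leaf (nat_lit 11459491329551123) (.br (nat_lit 0) (.cons (.br (nat_lit 3) (.cons (.rel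 (nat_lit 273679440)) .nil)) .nil)) .leaf) (nat_lit 11459491329580314) (.br (nat_lit 0) (.cons (.br (nat_lit 3) (.cons (.rel (nat_lit 275152896)) .nil)) .nil)) .leaf) (nat_lit 11459491329602423) (.br (nat_lit 0) (.cons (.br (nat_lit 1) (.cons (.rel (nat_lit 21495840)) .nil)) .nil)) (.node (.node .leaf (nat_lit 11459491329734967) (.br (nat_lit 1) (.cons (.br (nat_lit 2) (.cons (.rel (nat_lit 83904513)) .nil)) .nil)) .leaf) (nat_lit 11459491329735443) (.br (nat_lit 5) (.cons (.br (nat_lit 6) (.cons (.rel (nat_lit 21474844704)) .nil)) .nil)) .leaf)))) (nat_lit 11459491329782547) (.br (nat_lit 0) (.cons (.br (nat_lit 4) (.cons (.rel (nat_lit 1077936225)) .nil)) .nil)) (.node (.node (.node (.node (.node .leaf (nat_lit 11459491329782560) (.br (nat_lit 0) (.cons (.br (nat_lit 2) (.cons (.rel (nat_lit 71337984)) .nil)) .nil)) .leaf) (nat_lit 11459491330038520) (.br (nat_lit 1) (.cons (.br (nat_lit 2) (.cons (.rel (nat_lit 83904513)) (.cons (.rel (nat_lit 83894274)) .nil))) (.cons (.br (nat_lit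 2) (.cons (.rel (nat_lit 83890320)) (.cons (.rel (nat_lit 83886177)) .nil))) .nil))) .leaf) (nat_lit 11459491330052257) (.br (nat_lit 6) (.cons (.br (nat_lit 0) (.cons (.rel (nat_lit 17184064548)) (.cons (.rel (nat_lit 17184064548)) .nil))) .nil)) (.node (.node .leaf (nat_lit 11459491330052856) (.br (nat_lit 0) (.cons (.br (nat_lit 2) (.cons (.rel (nat_lit 72683520)) .nil)) .nil)) .leaf) (nat_lit 11459491330061044) (.br (nat_lit 1) (.cons (.br (nat_lit 2) (.cons (.rel (nat_lit 83894274)) .nil)) .nil)) .leaf)) (nat_lit 11459491330113667) (.br (nat_lit 2) (.cons (.br (nat_lit 3) (.cons (.rel (nat_lit 671089668)) .nil)) .nil)) (.node (.node (.node .leaf (nat_lit 11459491330828443) (.br (nat_lit 0) (.cons (.br (nat_lit 1) (.cons (.rel (nat_lit 22086660)) .nil)) .nil)) .leaf) (nat_lit 11459491331033975) (.br (nat_lit 1) (.cons (.br (nat_lit 2) (.cons (.rel (nat_lit 84149760)) .nil)) .nil)) .leaf) (nat_lit 11459491331062547) (.br (nat_lit 0) (.cons (.br (nat_lit 2) (.cons (.rel (nat_lit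 71827713)) (.cons (.br (nat_lit 3) (.cons (.rel (nat_lit 272892162)) (.cons (.rel (nat_lit 276840456)) (.cons (.rel (nat_lit 675283200)) .nil)))) .nil))) (.cons (.br (nat_lit 1) (.cons (.rel (nat_lit 25198593)) (.cons (.rel (nat_lit 20976132)) (.cons (.rel (nat_lit 21250308)) .nil)))) .nil))) (.node (.node .leaf (nat_lit 11459491331124127) (.br (nat_lit 0) (.cons (.br (nat_lit 1) (.cons (.rel (nat_lit 21495840)) .nil)) .nil)) .leaf) (nat_lit 11459491331128223) (.br (nat_lit 2) (.cons (.br (nat_lit 3) (.cons (.rel (nat_lit 335544357)) .nil)) .nil)) .leaf))) (nat_lit 11459491331394348) (.br (nat_lit 0) (.cons (.br (nat_lit 2) (.cons (.rel (nat_lit 71304336)) .nil)) .nil)) (.node (.node (.node (.node .leaf (nat_lit 11459491332036919) (.br (nat_lit 1) (.cons (.br (nat_lit 3) (.cons (.rel (nat_lit 301995024)) .nil)) .nil)) .leaf) (nat_lit 11459491332137747) (.br (nat_lit 0) (.cons (.br (nat_lit 3) (.cons (.rel (nat_lit 272647680)) .nil)) .nil)) .leaf) (nat_lit 11459491332356251) (.br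 (nat_lit 0) (.cons (.br (nat_lit 1) (.cons (.rel (nat_lit 20976132)) .nil)) .nil)) (.node (.node .leaf (nat_lit 11459491332357007) (.br (nat_lit 1) (.cons (.br (nat_lit 0) (.cons (.rel (nat_lit 26280192)) (.cons (.rel (nat_lit 20976132)) (.cons (.rel (nat_lit 20976132)) .nil)))) .nil)) .leaf) (nat_lit 11459491332610225) (.br (nat_lit 2) (.cons (.br (nat_lit 4) (.cons (.rel (nat_lit 2214608898)) .nil)) .nil)) .leaf)) (nat_lit 11459491332610835) (.br (nat_lit 2) (.cons (.br (nat_lit 3) (.cons (.rel (nat_lit 671170560)) (.cons (.br (nat_lit 0) (.cons (.rel (nat_lit 71304336)) (.cons (.rel (nat_lit 71311428)) (.cons (.rel (nat_lit 71304336)) (.cons (.rel (nat_lit 272892162)) (.cons (.rel (nat_lit 273679440)) (.cons (.rel (nat_lit 71304336)) .nil))))))) (.cons (.rel (nat_lit 671170560)) (.cons (.rel (nat_lit 335708160)) (.cons (.rel (nat_lit 335568960)) (.cons (.rel (nat_lit 335546376)) .nil))))))) (.cons (.br (nat_lit 0) (.cons (.rel (nat_lit 71337984)) (.cons (.rel (nat_lit 142623744))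 (.cons (.rel (nat_lit 71337984)) (.cons (.rel (nat_lit 71827713)) (.cons (.rel (nat_lit 71311428)) (.cons (.rel (nat_lit 71337984)) .nil))))))) (.cons (.br (nat_lit 3) (.cons (.rel (nat_lit 335544357)) (.cons (.rel (nat_lit 335546376)) (.cons (.br (nat_lit 6) (.cons (.rel (nat_lit 17247240264)) (.cons (.rel (nat_lit 17448313860)) (.cons (.br (nat_lit 0) (.cons (.rel (nat_lit 541097988)) (.cons (.rel (nat_lit 142623744)) (.cons (.rel (nat_lit 71337984)) (.cons (.br (nat_lit 1) (.cons (.rel (nat_lit 20976132)) (.cons (.br (nat_lit 4) (.cons (.rel (nat_lit 1342177440)) (.cons (.rel (nat_lit 1140850953)) (.cons (.rel (nat_lit 2416459776)) (.cons (.rel (nat_lit 2181038100)) (.cons (.rel (nat_lit 1342263300)) (.cons (.rel (nat_lit 1342195776)) .nil))))))) (.cons (.rel (nat_lit 301995024)) (.cons (.rel (nat_lit 167776257)) (.cons (.rel (nat_lit 83888196)) (.cons (.rel (nat_lit 83886177)) .nil))))))) (.cons (.rel (nat_lit 541069344)) (.cons (.rel (nat_lit 541069344)) .nil))))))) .nil))))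 (.cons (.rel (nat_lit 671089668)) (.cons (.rel (nat_lit 335545362)) (.cons (.rel (nat_lit 671170560)) .nil))))))) .nil)))) (.node (.node (.node .leaf (nat_lit 11459491332610975) (.br (nat_lit 1) (.cons (.br (nat_lit 2) (.cons (.rel (nat_lit 152127492)) (.cons (.rel (nat_lit 83888196)) .nil))) (.cons (.br (nat_lit 3) (.cons (.rel (nat_lit 285507840)) (.cons (.rel (nat_lit 303316992)) .nil))) .nil))) .leaf) (nat_lit 11459491332612223) (.br (nat_lit 0) (.cons (.br (nat_lit 3) (.cons (.rel (nat_lit 273686532)) .nil)) .nil)) .leaf) (nat_lit 11459491332664052) (.br (nat_lit 2) (.cons (.br (nat_lit 5) (.cons (.rel (nat_lit 4362076170)) .nil)) .nil)) (.node (.node .leaf (nat_lit 11459493621152531) (.br (nat_lit 0) (.cons (.br (nat_lit 2) (.cons (.rel (nat_lit 71311428)) .nil)) .nil)) .leaf) (nat_lit 11459494688055423) (.br (nat_lit 0) (.cons (.br (nat_lit 3) (.cons (.rel (nat_lit 273686532)) .nil)) .nil)) .leaf)))))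

/-- refutations 57 -/
def e57 : EX := (.node (.node (.node (.node (.node .leaf (nat_lit 11460135574839607) (.br (nat_lit 1) (.cons (.br (nat_lit 2) (.cons (.rel (nat_lit 84951300)) .nil)) .nil)) .leaf) (nat_lit 11460264425456276) (.br (nat_lit 0) (.cons (.br (nat_lit 1) (.cons (.rel (nat_lit 22086660)) .nil)) .nil)) .leaf) (nat_lit 11460339850125572) (.br (nat_lit 1) (.cons (.br (nat_lit 2) (.cons (.br (nat_lit 0) (.cons (.br (nat_lit 3) (.cons (.rel (nat_lit 276832272)) (.cons (.rel (nat_lit 553648200)) .nil))) (.cons (.rel (nat_lit 25198593)) .nil))) .nil)) .nil)) (.node .leaf (nat_lit 11460339850270897) (.br (nat_lit 0) (.cons (.br (nat_lit 2) (.cons (.rel (nat_lit 71304336)) .nil)) .nil)) .leaf)) (nat_lit 11460339850270980) (.br (nat_lit 1) (.cons (.br (nat_lit 4) (.cons (.rel (nat_lit 1090560000)) .nil)) .nil)) (.node (.node .leaf (nat_lit 11463470738927922) (.br (nat_lit 1) (.cons (.br (nat_lit 3) (.cons (.rel (nat_lit 286261281)) (.cons (.rel (nat_lit 570691584)) (.cons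 (.rel (nat_lit 302006337)) .nil)))) .nil)) .leaf) (nat_lit 11463470739692770) (.br (nat_lit 5) (.cons (.br (nat_lit 6) (.cons (.rel (nat_lit 21474844704)) .nil)) .nil)) (.node .leaf (nat_lit 11463470741445395) (.br (nat_lit 5) (.cons (.br (nat_lit 4) (.cons (.rel (nat_lit 5368713252)) (.cons (.rel (nat_lit 5368709253)) .nil))) .nil)) .leaf))) (nat_lit 11463509415854840) (.br (nat_lit 0) (.cons (.br (nat_lit 2) (.cons (.rel (nat_lit 71337984)) .nil)) .nil)) (.node (.node (.node .leaf (nat_lit 11463511398162743) (.br (nat_lit 0) (.cons (.br (nat_lit 1) (.cons (.rel (nat_lit 42205200)) .nil)) .nil)) .leaf) (nat_lit 11463511398511852) (.br (nat_lit 0) (.cons (.br (nat_lit 3) (.cons (.rel (nat_lit 272647680)) .nil)) .nil)) (.node .leaf (nat_lit 11463511400454455) (.br (nat_lit 0) (.cons (.br (nat_lit 1) (.cons (.rel (nat_lit 37757952)) (.cons (.rel (nat_lit 21495840)) .nil))) .nil)) .leaf)) (nat_lit 11463511419134263) (.br (nat_lit 0) (.cons (.br (nat_lit 2) (.cons (.rel (nat_lit 71304336))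 .nil)) .nil)) (.node (.node .leaf (nat_lit 11463511419483372) (.br (nat_lit 0) (.cons (.br (nat_lit 1) (.cons (.rel (nat_lit 21495840)) .nil)) .nil)) .leaf) (nat_lit 11463511421425975) (.br (nat_lit 0) (.cons (.br (nat_lit 3) (.cons (.rel (nat_lit 541097988)) .nil)) .nil)) (.node .leaf (nat_lit 11463732854592248) (.br (nat_lit 0) (.cons (.br (nat_lit 2) (.cons (.rel (nat_lit 138952776)) .nil)) .nil)) .leaf))))

/-- refutations 58 -/
def e58 : EX := (.node (.node (.node (.node .leaf (nat_lit 11464562183291035) (.br (nat_lit 0) (.cons (.br (nat_lit 1) (.cons (.rel (nat_lit 21495840)) .nil)) .nil)) .leaf) (nat_lit 11464797906860664) (.br (nat_lit 2) (.cons (.br (nat_lit 4) (.cons (.rel (nat_lit 1207992321)) .nil)) .nil)) (.node .leaf (nat_lit 11464797907311379) (.br (nat_lit 2) (.cons (.br (nat_lit 5) (.cons (.rel (nat_lit 8724152325)) .nil)) .nil)) .leaf)) (nat_lit 11464799909567251) (.br (nat_lit 2) (.cons (.br (nat_lit 5) (.cons (.rel (nat_lit 4362092676)) .nil)) .nil)) (.node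 (.node .leaf (nat_lit 11464802080193762) (.br (nat_lit 0) (.cons (.br (nat_lit 1) (.cons (.rel (nat_lit 37765122)) .nil)) .nil)) .leaf) (nat_lit 11464802178685234) (.br (nat_lit 2) (.cons (.br (nat_lit 5) (.cons (.rel (nat_lit 4362076170)) (.cons (.rel (nat_lit 4362078225)) .nil))) .nil)) .leaf)) (nat_lit 11464802181258027) (.br (nat_lit 0) (.cons (.br (nat_lit 2) (.cons (.rel (nat_lit 71337984)) .nil)) .nil)) (.node (.node (.node .leaf (nat_lit 11464840248810259) (.br (nat_lit 1) (.cons (.br (nat_lit 2) (.cons (.rel (nat_lit 83908704)) .nil)) .nil)) .leaf) (nat_lit 11464845487495955) (.br (nat_lit 0) (.cons (.br (nat_lit 2) (.cons (.rel (nat_lit 71304336)) (.cons (.rel (nat_lit 71319648)) .nil))) (.cons (.br (nat_lit 2) (.cons (.rel (nat_lit 71369736)) (.cons (.br (nat_lit 3) (.cons (.rel (nat_lit 272892162)) (.cons (.rel (nat_lit 403177473)) .nil))) .nil))) .nil))) (.node .leaf (nat_lit 11465722390182813) (.br (nat_lit 1) (.cons (.br (nat_lit 2) (.cons (.rel (nat_lit 83886177))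 .nil)) .nil)) .leaf)) (nat_lit 11465722390569760) (.br (nat_lit 1) (.cons (.br (nat_lit 2) (.cons (.rel (nat_lit 83886177)) .nil)) .nil)) (.node (.node .leaf (nat_lit 11465722390635421) (.br (nat_lit 0) (.cons (.br (nat_lit 1) (.cons (.rel (nat_lit 42205200)) .nil)) .nil)) .leaf) (nat_lit 11465919313255160) (.br (nat_lit 3) (.cons (.br (nat_lit 2) (.cons (.rel (nat_lit 671089668)) (.cons (.rel (nat_lit 671170560)) (.cons (.rel (nat_lit 335544357)) (.cons (.rel (nat_lit 335545362)) .nil))))) .nil)) .leaf)))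

/-- refutations 59 -/
def e59 : EX := (.node (.node .leaf (nat_lit 11524047416044950) (.br (nat_lit 0) (.cons (.br (nat_lit 3) (.cons (.rel (nat_lit 276832272)) .nil)) .nil)) .leaf) (nat_lit 11525296936801761) (.br (nat_lit 0) (.cons (.br (nat_lit 1) (.cons (.rel (nat_lit 22167552)) .nil)) .nil)) (.node .leaf (nat_lit 11528468170511772) (.br (nat_lit 0) (.cons (.br (nat_lit 1) (.cons (.rel (nat_lit 22167552)) .nil)) .nil)) .leaf))

/-- refutations 60 -/
def e60 : EX := (.node (.node .leaf (nat_lit 11529336176249643) (.br (nat_lit 1) (.cons (.br (nat_lit 2) (.cons (.rel (nat_lit 83894274)) .nil)) .nil)) .leaf) (nat_lit 11533928546185343) (.br (nat_lit 0) (.cons (.br (nat_lit 1) (.cons (.rel (nat_lit 25232400)) .nil)) .nil)) .leaf)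

/-- refutations 61 -/
def e61 : EX := (.node (.node (.node (.node (.node (.node .leaf (nat_lit 11540537320483003) (.br (nat_lit 2) (.cons (.br (nat_lit 0) (.cons (.rel (nat_lit 71304336)) (.cons (.rel (nat_lit 72683520)) .nil))) .nil)) .leaf) (nat_lit 11540537320483751) (.br (nat_lit 0) (.cons (.br (nat_lit 5) (.cons (.rel (nat_lit 4300226565)) (.cons (.rel (nat_lit 8598327552)) .nil))) (.cons (.br (nat_lit 1) (.cons (.rel (nat_lit 25198593)) (.cons (.rel (nat_lit 20976132)) .nil))) .nil))) .leaf) (nat_lit 11540537320484076) (.br (nat_lit 3) (.cons (.br (nat_lit 4) (.cons (.rel (nat_lit 1343496192)) .nil)) .nil)) (.node .leaf (nat_lit 11540537320687922) (.br (nat_lit 5) (.cons (.br (nat_lit 6) (.cons (.rel (nat_lit 21474844704)) (.cons (.rel (nat_lit 21474852888)) (.cons (.rel (nat_lit 21474844704)) .nil)))) .nil)) .leaf)) (nat_lit 11540537320688376) (.br (nat_lit 5) (.cons (.br (nat_lit 1) (.cons (.rel (nat_lit 4312794144)) (.cons (.br (nat_lit 2) (.cons (.rel (nat_lit 8724152325))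 (.cons (.rel (nat_lit 83886177)) (.cons (.rel (nat_lit 4362078225)) .nil)))) .nil))) .nil)) (.node (.node .leaf (nat_lit 11540537320689141) (.br (nat_lit 0) (.cons (.br (nat_lit 4) (.cons (.br (nat_lit 5) (.cons (.rel (nat_lit 5368713252)) .nil)) .nil)) .nil)) .leaf) (nat_lit 11540537321037026) (.br (nat_lit 0) (.cons (.br (nat_lit 1) (.cons (.rel (nat_lit 42205200)) .nil)) .nil)) (.node .leaf (nat_lit 11540537321750783) (.br (nat_lit 0) (.cons (.br (nat_lit 2) (.cons (.rel (nat_lit 71304336)) .nil)) .nil)) .leaf))) (nat_lit 11540537321751434) (.br (nat_lit 4) (.cons (.br (nat_lit 6) (.cons (.rel (nat_lit 19327385616)) .nil)) .nil)) (.node (.node (.node (.node .leaf (nat_lit 11540537321811445) (.br (nat_lit 4) (.cons (.br (nat_lit 5) (.cons (.rel (nat_lit 5368713252)) .nil)) .nil)) .leaf) (nat_lit 11540537321955615) (.br (nat_lit 4) (.cons (.br (nat_lit 3) (.cons (.rel (nat_lit 1342243845)) (.cons (.rel (nat_lit 1610613012)) .nil))) .nil)) .leaf) (nat_lit 11540537322050296) (.br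 (nat_lit 4) (.cons (.br (nat_lit 0) (.cons (.rel (nat_lit 1077954561)) (.cons (.rel (nat_lit 1077944322)) (.cons (.rel (nat_lit 1077944322)) .nil)))) .nil)) (.node .leaf (nat_lit 11540537322050471) (.br (nat_lit 0) (.cons (.br (nat_lit 1) (.cons (.rel (nat_lit 25182276)) (.cons (.rel (nat_lit 37748805)) (.cons (.rel (nat_lit 37748805)) (.cons (.rel (nat_lit 22086660)) .nil))))) (.cons (.br (nat_lit 4) (.cons (.rel (nat_lit 1078005768)) (.cons (.rel (nat_lit 1077938244)) (.cons (.rel (nat_lit 2152202244)) .nil)))) .nil))) .leaf)) (nat_lit 11540537322071322) (.br (nat_lit 2) (.cons (.br (nat_lit 6) (.cons (.rel (nat_lit 17246979456)) .nil)) .nil)) (.node (.node .leaf (nat_lit 11540537322254623) (.br (nat_lit 0) (.cons (.br (nat_lit 3) (.cons (.rel (nat_lit 276840456)) .nil)) .nil)) .leaf) (nat_lit 11540537322255096) (.br (nat_lit 0) (.cons (.br (nat_lit 3) (.cons (.rel (nat_lit 273686532)) (.cons (.rel (nat_lit 272892162)) .nil))) (.cons (.br (nat_lit 5) (.cons (.rel (nat_lit 4300226565))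 (.cons (.rel (nat_lit 4299170304)) .nil))) .nil))) (.node .leaf (nat_lit 11540537322255221) (.br (nat_lit 1) (.cons (.br (nat_lit 3) (.cons (.rel (nat_lit 570691584)) .nil)) .nil)) .leaf)))) (nat_lit 11540537322990328) (.br (nat_lit 2) (.cons (.br (nat_lit 0) (.cons (.rel (nat_lit 142623744)) (.cons (.rel (nat_lit 142623744)) .nil))) .nil)) (.node (.node (.node (.node (.node .leaf (nat_lit 11540537323084031) (.br (nat_lit 1) (.cons (.br (nat_lit 2) (.cons (.rel (nat_lit 167776257)) .nil)) .nil)) .leaf) (nat_lit 11540537323085301) (.br (nat_lit 0) (.cons (.br (nat_lit 4) (.cons (.rel (nat_lit 1077953556)) .nil)) .nil)) .leaf) (nat_lit 11540537323224565) (.br (nat_lit 2) (.cons (.br (nat_lit 5) (.cons (.rel (nat_lit 8724152325)) (.cons (.rel (nat_lit 8724152325)) .nil))) .nil)) (.node .leaf (nat_lit 11540537323350143) (.br (nat_lit 1) (.cons (.br (nat_lit 2) (.cons (.rel (nat_lit 83886177)) .nil)) .nil)) .leaf)) (nat_lit 11540537323493558) (.br (nat_lit 2) (.cons (.br (nat_lit 3)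 (.cons (.rel (nat_lit 336068928)) .nil)) .nil)) (.node (.node .leaf (nat_lit 11540537323494626) (.br (nat_lit 1) (.cons (.br (nat_lit 4) (.cons (.rel (nat_lit 1090519080)) .nil)) .nil)) .leaf) (nat_lit 11540537323494636) (.br (nat_lit 1) (.cons (.br (nat_lit 5) (.cons (.rel (nat_lit 4328525832)) (.cons (.rel (nat_lit 4312011009)) .nil))) .nil)) (.node .leaf (nat_lit 11540537323533548) (.br (nat_lit 1) (.cons (.br (nat_lit 2) (.cons (.rel (nat_lit 83903508)) .nil)) .nil)) .leaf))) (nat_lit 11540537323554293) (.br (nat_lit 3) (.cons (.br (nat_lit 5) (.cons (.rel (nat_lit 4563681552)) .nil)) .nil)) (.node (.node (.node .leaf (nat_lit 11540537323586292) (.br (nat_lit 1) (.cons (.br (nat_lit 3) (.cons (.rel (nat_lit 570691584)) .nil)) .nil)) .leaf) (nat_lit 11540537323592440) (.br (nat_lit 2) (.cons (.br (nat_lit 6) (.cons (.br (nat_lit 1) (.cons (.rel (nat_lit 83886177)) (.cons (.rel (nat_lit 17196679176)) (.cons (.rel (nat_lit 83894274)) .nil)))) .nil)) .nil)) (.node .leaf (nat_lit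 11541608589439736) (.br (nat_lit 0) (.cons (.br (nat_lit 1) (.cons (.rel (nat_lit 21037569)) (.cons (.rel (nat_lit 20976132)) .nil))) .nil)) .leaf)) (nat_lit 11542040560808696) (.br (nat_lit 0) (.cons (.br (nat_lit 2) (.cons (.rel (nat_lit 142623744)) (.cons (.rel (nat_lit 71337984)) (.cons (.br (nat_lit 4) (.cons (.rel (nat_lit 1077953556)) (.cons (.rel (nat_lit 2282749968)) (.cons (.rel (nat_lit 2282749968)) .nil)))) .nil)))) (.cons (.br (nat_lit 6) (.cons (.rel (nat_lit 17184063498)) (.cons (.rel (nat_lit 17184096321)) (.cons (.rel (nat_lit 17184063498)) .nil)))) .nil))) (.node (.node .leaf (nat_lit 11542040562047131) (.br (nat_lit 2) (.cons (.br (nat_lit 4) (.cons (.rel (nat_lit 1140883776)) .nil)) .nil)) .leaf) (nat_lit 11545908781271346) (.br (nat_lit 0) (.cons (.br (nat_lit 4) (.cons (.rel (nat_lit 1078005768)) .nil)) .nil)) (.node .leaf (nat_lit 11546928366485691) (.br (nat_lit 0) (.cons (.br (nat_lit 1) (.cons (.rel (nat_lit 42205200)) .nil)) .nil)) .leaf)))))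

/-- refutations 62 -/
def e62 : EX := (.node (.node (.node (.node (.node .leaf (nat_lit 11547450376735026) (.br (nat_lit 1) (.cons (.br (nat_lit 2) (.cons (.rel (nat_lit 151322880)) .nil)) .nil)) .leaf) (nat_lit 11547452217830626) (.br (nat_lit 0) (.cons (.br (nat_lit 1) (.cons (.rel (nat_lit 22028352)) .nil)) .nil)) (.node .leaf (nat_lit 11547452218321152) (.br (nat_lit 2) (.cons (.br (nat_lit 4) (.cons (.rel (nat_lit 2214608898)) .nil)) .nil)) .leaf)) (nat_lit 11547452218331297) (.br (nat_lit 0) (.cons (.br (nat_lit 2) (.cons (.rel (nat_lit 71307285)) .nil)) .nil)) (.node (.node .leaf (nat_lit 11547452218379617) (.br (nat_lit 0) (.cons (.br (nat_lit 1) (.cons (.rel (nat_lit 37748805)) .nil)) .nil)) .leaf) (nat_lit 11547452218393961) (.br (nat_lit 1) (.cons (.br (nat_lit 3) (.cons (.rel (nat_lit 285214209)) .nil)) .nil)) (.node .leaf (nat_lit 11547452219345781) (.br (nat_lit 2) (.cons (.br (nat_lit 3) (.cons (.rel (nat_lit 335549505)) .nil)) .nil)) .leaf))) (nat_lit 11547452219417336)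 (.br (nat_lit 2) (.cons (.br (nat_lit 3) (.cons (.rel (nat_lit 335544357)) (.cons (.rel (nat_lit 335708160)) .nil))) (.cons (.br (nat_lit 3) (.cons (.rel (nat_lit 603997440)) (.cons (.rel (nat_lit 335546376)) .nil))) .nil))) (.node (.node (.node .leaf (nat_lit 11547452219558648) (.br (nat_lit 1) (.cons (.br (nat_lit 6) (.cons (.rel (nat_lit 17196679176)) .nil)) .nil)) .leaf) (nat_lit 11547452219559324) (.br (nat_lit 0) (.cons (.br (nat_lit 1) (.cons (.rel (nat_lit 42205200)) .nil)) .nil)) (.node .leaf (nat_lit 11547452219621563) (.br (nat_lit 0) (.cons (.br (nat_lit 1) (.cons (.rel (nat_lit 22167552)) .nil)) .nil)) .leaf)) (nat_lit 11547452220646136) (.br (nat_lit 0) (.cons (.br (nat_lit 2) (.cons (.rel (nat_lit 71311428)) .nil)) .nil)) (.node (.node .leaf (nat_lit 11547452220841313) (.br (nat_lit 1) (.cons (.br (nat_lit 0) (.cons (.rel (nat_lit 37765122)) (.cons (.rel (nat_lit 42205200)) (.cons (.rel (nat_lit 37757952)) .nil)))) .nil)) .leaf) (nat_lit 11547452220899639) (.br (nat_lit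 0) (.cons (.br (nat_lit 1) (.cons (.rel (nat_lit 25182276)) .nil)) .nil)) (.node .leaf (nat_lit 11547452220900604) (.br (nat_lit 0) (.cons (.br (nat_lit 1) (.cons (.rel (nat_lit 22024209)) .nil)) .nil)) .leaf)))) (nat_lit 11547452220939000) (.br (nat_lit 3) (.cons (.br (nat_lit 6) (.cons (.br (nat_lit 1) (.cons (.rel (nat_lit 285507840)) (.cons (.rel (nat_lit 17196650532)) .nil))) .nil)) .nil)) (.node (.node (.node (.node .leaf (nat_lit 11547452220943096) (.br (nat_lit 2) (.cons (.br (nat_lit 3) (.cons (.rel (nat_lit 335549505)) .nil)) .nil)) .leaf) (nat_lit 11547454449404210) (.br (nat_lit 1) (.cons (.br (nat_lit 3) (.cons (.rel (nat_lit 285214209)) .nil)) .nil)) (.node .leaf (nat_lit 11547454450787064) (.br (nat_lit 5) (.cons (.br (nat_lit 0) (.cons (.rel (nat_lit 8598327552)) (.cons (.rel (nat_lit 4299424020)) .nil))) .nil)) .leaf)) (nat_lit 11547454451685682) (.br (nat_lit 2) (.cons (.br (nat_lit 3) (.cons (.rel (nat_lit 335609937)) .nil)) .nil)) (.node (.node .leaf (nat_lit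 11547454451686653) (.br (nat_lit 2) (.cons (.br (nat_lit 3) (.cons (.rel (nat_lit 335568960)) .nil)) .nil)) .leaf) (nat_lit 11547455072966811) (.br (nat_lit 0) (.cons (.br (nat_lit 1) (.cons (.rel (nat_lit 42205200)) .nil)) .nil)) (.node .leaf (nat_lit 11551652696049970) (.br (nat_lit 0) (.cons (.br (nat_lit 2) (.cons (.rel (nat_lit 71307285)) .nil)) .nil)) .leaf))) (nat_lit 11551652697432370) (.br (nat_lit 0) (.cons (.br (nat_lit 2) (.cons (.rel (nat_lit 71319648)) .nil)) .nil)) (.node (.node (.node .leaf (nat_lit 11551652697666913) (.br (nat_lit 0) (.cons (.br (nat_lit 2) (.cons (.rel (nat_lit 71308290)) .nil)) .nil)) .leaf) (nat_lit 11551655448896248) (.br (nat_lit 0) (.cons (.br (nat_lit 2) (.cons (.rel (nat_lit 71304336)) .nil)) .nil)) (.node .leaf (nat_lit 11551655449864847) (.br (nat_lit 1) (.cons (.br (nat_lit 2) (.cons (.rel (nat_lit 84017157)) .nil)) .nil)) .leaf)) (nat_lit 11552518435005176) (.br (nat_lit 1) (.cons (.br (nat_lit 3) (.cons (.rel (nat_lit 302014482)) .nil))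 .nil)) (.node (.node .leaf (nat_lit 11552518436858616) (.br (nat_lit 1) (.cons (.br (nat_lit 2) (.cons (.rel (nat_lit 102760452)) .nil)) .nil)) .leaf) (nat_lit 11552520280498936) (.br (nat_lit 1) (.cons (.br (nat_lit 2) (.cons (.rel (nat_lit 83888196)) .nil)) .nil)) (.node .leaf (nat_lit 11552523113508252) (.br (nat_lit 0) (.cons (.br (nat_lit 2) (.cons (.rel (nat_lit 71304336)) .nil)) .nil)) .leaf)))))

/-- refutations 63 -/
def e63 : EX := (.node (.node (.node .leaf (nat_lit 11118800155533494) (.br (nat_lit 0) (.cons (.br (nat_lit 1) (.cons (.rel (nat_lit 37748805)) .nil)) .nil)) .leaf) (nat_lit 11119787996884321) (.br (nat_lit 1) (.cons (.br (nat_lit 4) (.cons (.rel (nat_lit 2181103680)) .nil)) .nil)) .leaf) (nat_lit 11119787998151411) (.br (nat_lit 1) (.cons (.br (nat_lit 2) (.cons (.rel (nat_lit 83888196)) .nil)) .nil)) (.node (.node .leaf (nat_lit 11126016039035640) (.br (nat_lit 0) (.cons (.br (nat_lit 1) (.cons (.rel (nat_lit 42205200)) .nil)) .nil)) .leaf) (nat_lit 11129216893033698)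 (.br (nat_lit 0) (.cons (.br (nat_lit 2) (.cons (.rel (nat_lit 71337984)) .nil)) .nil)) .leaf))

/-- refutations 64 -/
def e64 : EX := (.node (.node (.node (.node (.node .leaf (nat_lit 11875241607015830) (.br (nat_lit 2) (.cons (.br (nat_lit 3) (.cons (.rel (nat_lit 335545362)) .nil)) .nil)) .leaf) (nat_lit 11875241712901027) (.br (nat_lit 0) (.cons (.br (nat_lit 6) (.cons (.rel (nat_lit 17184069696)) .nil)) .nil)) .leaf) (nat_lit 11875241713244920) (.br (nat_lit 2) (.cons (.br (nat_lit 5) (.cons (.rel (nat_lit 8657060097)) .nil)) .nil)) (.node .leaf (nat_lit 11875242161937195) (.br (nat_lit 0) (.cons (.br (nat_lit 5) (.cons (.rel (nat_lit 8598327552)) (.cons (.rel (nat_lit 4299718656)) (.cons (.rel (nat_lit 4299170304)) .nil)))) .nil)) .leaf)) (nat_lit 11875242260819226) (.br (nat_lit 0) (.cons (.br (nat_lit 1) (.cons (.rel (nat_lit 21250308)) .nil)) .nil)) (.node (.node .leaf (nat_lit 11875242262145835) (.br (nat_lit 1) (.cons (.br (nat_lit 5) (.cons (.rel (nat_lit 4328525832))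 (.cons (.rel (nat_lit 4328525832)) .nil))) (.cons (.br (nat_lit 4) (.cons (.br (nat_lit 5) (.cons (.rel (nat_lit 5368718400)) (.cons (.rel (nat_lit 8623490304)) .nil))) (.cons (.rel (nat_lit 1107362052)) .nil))) .nil))) .leaf) (nat_lit 11875242262709530) (.br (nat_lit 0) (.cons (.br (nat_lit 1) (.cons (.rel (nat_lit 25182276)) .nil)) .nil)) (.node .leaf (nat_lit 11875246334814363) (.br (nat_lit 0) (.cons (.br (nat_lit 1) (.cons (.rel (nat_lit 21495840)) .nil)) .nil)) .leaf))) (nat_lit 11875246432847201) (.br (nat_lit 4) (.cons (.br (nat_lit 5) (.cons (.rel (nat_lit 10737434628)) .nil)) .nil)) (.node (.node (.node .leaf (nat_lit 11875246433360178) (.br (nat_lit 1) (.cons (.br (nat_lit 2) (.cons (.rel (nat_lit 83886177)) .nil)) .nil)) .leaf) (nat_lit 11875246434444541) (.br (nat_lit 1) (.cons (.br (nat_lit 5) (.cons (.rel (nat_lit 4312809600)) .nil)) .nil)) (.node .leaf (nat_lit 11875246435478315) (.br (nat_lit 0) (.cons (.br (nat_lit 2) (.cons (.rel (nat_lit 72352128)) (.cons (.rel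 (nat_lit 71337984)) .nil))) .nil)) .leaf)) (nat_lit 11875800058993400) (.br (nat_lit 0) (.cons (.br (nat_lit 3) (.cons (.rel (nat_lit 272647680)) (.cons (.rel (nat_lit 541132800)) .nil))) .nil)) (.node (.node .leaf (nat_lit 11876105212959026) (.br (nat_lit 0) (.cons (.br (nat_lit 4) (.cons (.rel (nat_lit 1078034448)) .nil)) .nil)) .leaf) (nat_lit 11876105948201266) (.br (nat_lit 2) (.cons (.br (nat_lit 4) (.cons (.rel (nat_lit 1140850953)) .nil)) .nil)) (.node .leaf (nat_lit 11876105948201720) (.br (nat_lit 2) (.cons (.br (nat_lit 4) (.cons (.rel (nat_lit 1140850953)) .nil)) .nil)) .leaf))))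

/-- refutations 65 -/
def e65 : EX := (.node (.node .leaf (nat_lit 11880612453531036) (.br (nat_lit 0) (.cons (.br (nat_lit 2) (.cons (.rel (nat_lit 71308290)) .nil)) .nil)) .leaf) (nat_lit 11887701627280120) (.br (nat_lit 0) (.cons (.br (nat_lit 2) (.cons (.rel (nat_lit 71337984)) .nil)) .nil)) .leaf)

/-- refutations 66 -/
def e66 : EX := (.node (.node (.node .leaf (nat_lit 11910167659120775) (.br (nat_lit 0) (.cons (.br (nat_lit 2) (.cons (.rel (nat_lit 71311428)) .nil)) .nil)) .leaf) (nat_lit 11910167659121400) (.br (nat_lit 0) (.cons (.br (nat_lit 2) (.cons (.rel (nat_lit 71311428)) .nil)) .nil)) .leaf) (nat_lit 11910168953477907) (.br (nat_lit 0) (.cons (.br (nat_lit 2) (.cons (.rel (nat_lit 71304336)) .nil)) .nil)) (.node (.node .leaf (nat_lit 11910168953478380) (.br (nat_lit 0) (.cons (.br (nat_lit 1) (.cons (.rel (nat_lit 42205200)) .nil)) .nil)) .leaf) (nat_lit 11910170280560775) (.br (nat_lit 0) (.cons (.br (nat_lit 2) (.cons (.rel (nat_lit 71304336)) .nil)) .nil))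 .leaf))

/-- refutations 67 -/
def e67 : EX := (.node (.node (.node .leaf (nat_lit 11915498684994843) (.br (nat_lit 0) (.cons (.br (nat_lit 1) (.cons (.rel (nat_lit 25171968)) .nil)) .nil)) .leaf) (nat_lit 11916662920489111) (.br (nat_lit 2) (.cons (.br (nat_lit 3) (.cons (.rel (nat_lit 335564817)) .nil)) .nil)) .leaf) (nat_lit 11920865309481747) (.br (nat_lit 0) (.cons (.br (nat_lit 1) (.cons (.rel (nat_lit 22086660)) .nil)) .nil)) (.node .leaf (nat_lit 11922210770961144) (.br (nat_lit 0) (.cons (.br (nat_lit 4) (.cons (.rel (nat_lit 1077944322)) .nil)) .nil)) .leaf))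

/-- refutations 68 -/
def e68 : EX := (.node (.node (.node .leaf (nat_lit 11998085660088980) (.br (nat_lit 0) (.cons (.br (nat_lit 2) (.cons (.rel (nat_lit 71450628)) .nil)) .nil)) .leaf) (nat_lit 11998085663202040) (.br (nat_lit 6) (.cons (.br (nat_lit 2) (.cons (.rel (nat_lit 17247256581)) (.cons (.rel (nat_lit 17247240264)) .nil))) .nil)) .leaf) (nat_lit 11998183376327316) (.br (nat_lit 0) (.cons (.br (nat_lit 4) (.cons (.rel (nat_lit 1077954561)) .nil)) .nil)) (.node (.node .leaf (nat_lit 11999005535645851) (.br (nat_lit 0) (.cons (.br (nat_lit 1) (.cons (.rel (nat_lit 41960721)) .nil)) .nil)) .leaf) (nat_lit 11999005535646456) (.br (nat_lit 0) (.cons (.br (nat_lit 1) (.cons (.rel (nat_lit 21037569)) .nil)) .nil)) .leaf))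

/-- refutations 69 -/
def e69 : EX := (.node (.node (.node (.node (.node (.node .leaf (nat_lit 12000337247626492) (.br (nat_lit 1) (.cons (.br (nat_lit 2) (.cons (.rel (nat_lit 83890320)) .nil)) .nil)) .leaf) (nat_lit 12000337249426195) (.br (nat_lit 5) (.cons (.br (nat_lit 6) (.cons (.rel (nat_lit 21474837576)) .nil)) .nil)) .leaf) (nat_lit 12000337249426208) (.br (nat_lit 0) (.cons (.br (nat_lit 2) (.cons (.rel (nat_lit 71308290)) .nil)) .nil)) (.node .leaf (nat_lit 12003459591059738) (.br (nat_lit 1) (.cons (.br (nat_lit 3) (.cons (.rel (nat_lit 286261281)) .nil)) .nil)) .leaf)) (nat_lit 12003459591060762) (.br (nat_lit 0) (.cons (.br (nat_lit 1) (.cons (.rel (nat_lit 25182276)) .nil)) .nil)) (.node (.node .leaf (nat_lit 12004746113096440) (.br (nat_lit 0) (.cons (.br (nat_lit 2) (.cons (.rel (nat_lit 71337984)) .nil)) .nil)) .leaf) (nat_lit 12004846476047096) (.br (nat_lit 2) (.cons (.br (nat_lit 5) (.cons (.rel (nat_lit 8724152325)) .nil)) .nil)) (.node .leaf (nat_lit 12004846689956600)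 (.br (nat_lit 2) (.cons (.br (nat_lit 3) (.cons (.rel (nat_lit 335609937)) .nil)) .nil)) .leaf))) (nat_lit 12004846692395163) (.br (nat_lit 0) (.cons (.br (nat_lit 2) (.cons (.rel (nat_lit 71450628)) .nil)) .nil)) (.node (.node (.node (.node .leaf (nat_lit 12004847189078692) (.br (nat_lit 0) (.cons (.br (nat_lit 4) (.cons (.rel (nat_lit 2152202244)) .nil)) .nil)) .leaf) (nat_lit 12004847191628536) (.br (nat_lit 4) (.cons (.br (nat_lit 5) (.cons (.rel (nat_lit 6442451457)) .nil)) .nil)) .leaf) (nat_lit 12004849164241202) (.br (nat_lit 5) (.cons (.br (nat_lit 0) (.cons (.rel (nat_lit 4299424020)) (.cons (.rel (nat_lit 8594134020)) .nil))) .nil)) (.node .leaf (nat_lit 12004849164267826) (.br (nat_lit 0) (.cons (.br (nat_lit 2) (.cons (.rel (nat_lit 71311428)) .nil)) .nil)) .leaf)) (nat_lit 12004849164585716) (.br (nat_lit 0) (.cons (.br (nat_lit 1) (.cons (.rel (nat_lit 20976132)) .nil)) .nil)) (.node (.node .leaf (nat_lit 12004849164595361) (.br (nat_lit 0) (.cons (.br (nat_lit 2)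 (.cons (.rel (nat_lit 71304336)) .nil)) .nil)) .leaf) (nat_lit 12004849164595960) (.br (nat_lit 2) (.cons (.br (nat_lit 5) (.cons (.rel (nat_lit 8724152325)) (.cons (.rel (nat_lit 4362078225)) .nil))) (.cons (.br (nat_lit 5) (.cons (.rel (nat_lit 4362149892)) (.cons (.rel (nat_lit 4362082368)) .nil))) .nil))) (.node .leaf (nat_lit 12004849165343396) (.br (nat_lit 2) (.cons (.br (nat_lit 3) (.cons (.rel (nat_lit 336593154)) .nil)) .nil)) .leaf)))) (nat_lit 12004849165548407) (.br (nat_lit 2) (.cons (.br (nat_lit 1) (.cons (.rel (nat_lit 152043528)) (.cons (.rel (nat_lit 83888196)) .nil))) .nil)) (.node (.node (.node (.node (.node .leaf (nat_lit 12004849165570808) (.br (nat_lit 2) (.cons (.br (nat_lit 5) (.cons (.rel (nat_lit 4362077220)) .nil)) .nil)) .leaf) (nat_lit 12004849166581911) (.br (nat_lit 1) (.cons (.br (nat_lit 2) (.cons (.rel (nat_lit 83886177)) .nil)) .nil)) .leaf) (nat_lit 12004849166586616) (.br (nat_lit 0) (.cons (.br (nat_lit 3) (.cons (.rel (nat_lit 541065345))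 .nil)) .nil)) (.node .leaf (nat_lit 12004849167138998) (.br (nat_lit 2) (.cons (.br (nat_lit 4) (.cons (.rel (nat_lit 1210581000)) .nil)) .nil)) .leaf)) (nat_lit 12004849167145142) (.br (nat_lit 0) (.cons (.br (nat_lit 5) (.cons (.rel (nat_lit 8598327552)) .nil)) .nil)) (.node (.node .leaf (nat_lit 12004849167145720) (.br (nat_lit 0) (.cons (.br (nat_lit 6) (.cons (.br (nat_lit 2) (.cons (.rel (nat_lit 17247240264)) (.cons (.rel (nat_lit 75776010)) (.cons (.rel (nat_lit 71337984)) (.cons (.rel (nat_lit 17247240264)) .nil))))) (.cons (.rel (nat_lit 17184063498)) .nil))) .nil)) .leaf) (nat_lit 12004849167160052) (.br (nat_lit 2) (.cons (.br (nat_lit 6) (.cons (.br (nat_lit 0) (.cons (.rel (nat_lit 142623744)) (.cons (.rel (nat_lit 71337984)) (.cons (.rel (nat_lit 71827713)) (.cons (.rel (nat_lit 17184064548)) .nil))))) .nil)) .nil)) (.node .leaf (nat_lit 12004849167160096) (.br (nat_lit 2) (.cons (.br (nat_lit 6) (.cons (.rel (nat_lit 17247240264)) .nil)) .nil)) .leaf))) (nat_lit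 12004849167160546) (.br (nat_lit 0) (.cons (.br (nat_lit 4) (.cons (.rel (nat_lit 1077936225)) (.cons (.rel (nat_lit 1077938244)) .nil))) .nil)) (.node (.node (.node (.node .leaf (nat_lit 12004849318140664) (.br (nat_lit 0) (.cons (.br (nat_lit 1) (.cons (.rel (nat_lit 21037569)) .nil)) .nil)) .leaf) (nat_lit 12004851369155320) (.br (nat_lit 3) (.cons (.br (nat_lit 6) (.cons (.rel (nat_lit 34897137984)) .nil)) .nil)) .leaf) (nat_lit 12004851702150556) (.br (nat_lit 2) (.cons (.br (nat_lit 4) (.cons (.rel (nat_lit 1140986112)) .nil)) .nil)) (.node .leaf (nat_lit 12004851703380728) (.br (nat_lit 2) (.cons (.br (nat_lit 6) (.cons (.rel (nat_lit 17314086996)) .nil)) .nil)) .leaf)) (nat_lit 12004851704136440) (.br (nat_lit 2) (.cons (.br (nat_lit 3) (.cons (.rel (nat_lit 335545362)) .nil)) .nil)) (.node (.node .leaf (nat_lit 12004852314518264) (.br (nat_lit 0) (.cons (.br (nat_lit 5) (.cons (.rel (nat_lit 4300280832)) .nil)) .nil)) .leaf) (nat_lit 12005879956697720) (.br (nat_lit 0)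 (.cons (.br (nat_lit 2) (.cons (.rel (nat_lit 71308290)) .nil)) .nil)) (.node .leaf (nat_lit 12005879957445885) (.br (nat_lit 1) (.cons (.br (nat_lit 2) (.cons (.rel (nat_lit 100663569)) .nil)) .nil)) .leaf)))))

/-- refutations 70 -/
def e70 : EX := (.node (.node (.node .leaf (nat_lit 12008714637599026) (.br (nat_lit 0) (.cons (.br (nat_lit 5) (.cons (.rel (nat_lit 4303356993)) .nil)) .nil)) .leaf) (nat_lit 12008871294966520) (.br (nat_lit 0) (.cons (.br (nat_lit 1) (.cons (.rel (nat_lit 21495840)) .nil)) .nil)) .leaf) (nat_lit 12009917228555000) (.br (nat_lit 1) (.cons (.br (nat_lit 4) (.cons (.rel (nat_lit 1090605120)) .nil)) .nil)) (.node (.node .leaf (nat_lit 12010198070776564) (.br (nat_lit 0) (.cons (.br (nat_lit 1) (.cons (.rel (nat_lit 20976132)) .nil)) .nil)) .leaf) (nat_lit 12010765674678554) (.br (nat_lit 1) (.cons (.br (nat_lit 2) (.cons (.rel (nat_lit 100663569)) .nil)) .nil)) .leaf))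

/-- refutations 72 -/
def e72 : EX := (.node .leaf (nat_lit 13301854180026504) (.br (nat_lit 0) (.cons (.br (nat_lit 1) (.cons (.rel (nat_lit 20976132)) .nil)) .nil)) .leaf)

/-- refutations 73 -/
def e73 : EX := (.node (.node (.node .leaf (nat_lit 13306667823283451) (.br (nat_lit 1) (.cons (.br (nat_lit 2) (.cons (.rel (nat_lit 84017157)) .nil)) .nil)) .leaf) (nat_lit 13306667826099112) (.br (nat_lit 0) (.cons (.br (nat_lit 2) (.cons (.rel (nat_lit 71307285)) .nil)) .nil)) (.node .leaf (nat_lit 13306671556213412) (.br (nat_lit 0) (.cons (.br (nat_lit 1) (.cons (.rel (nat_lit 37748805)) .nil)) .nil)) .leaf)) (nat_lit 13306671557736600) (.br (nat_lit 0) (.cons (.br (nat_lit 1) (.cons (.rel (nat_lit 22028352)) .nil)) .nil)) (.node (.node .leaf (nat_lit 13306671559029371) (.br (nat_lit 0) (.cons (.br (nat_lit 2) (.cons (.rel (nat_lit 71307285)) .nil)) .nil)) .leaf) (nat_lit 13306671559345663) (.br (nat_lit 0) (.cons (.br (nat_lit 1) (.cons (.rel (nat_lit 25198593)) .nil)) .nil))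 (.node .leaf (nat_lit 13311993465288829) (.br (nat_lit 0) (.cons (.br (nat_lit 2) (.cons (.rel (nat_lit 71307285)) .nil)) .nil)) .leaf)))

/-- refutations 74 -/
def e74 : EX := (.node (.node .leaf (nat_lit 13313092976979350) (.br (nat_lit 0) (.cons (.br (nat_lit 6) (.cons (.rel (nat_lit 34368126981)) .nil)) .nil)) .leaf) (nat_lit 13313098844848888) (.br (nat_lit 3) (.cons (.br (nat_lit 6) (.cons (.rel (nat_lit 17717003328)) .nil)) .nil)) .leaf)

/-- refutations 75 -/
def e75 : EX := (.node .leaf (nat_lit 13406757597532916) (.br (nat_lit 0) (.cons (.br (nat_lit 1) (.cons (.rel (nat_lit 22024209)) .nil)) .nil)) .leaf)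

/-- refutations 76 -/
def e76 : EX := (.node (.node (.node (.node .leaf (nat_lit 13412221948803322) (.br (nat_lit 0) (.cons (.br (nat_lit 1) (.cons (.rel (nat_lit 37765122)) .nil)) .nil)) .leaf) (nat_lit 13412224697631352) (.br (nat_lit 4) (.cons (.br (nat_lit 6) (.cons (.br (nat_lit 2) (.cons (.rel (nat_lit 2214592581)) (.cons (.rel (nat_lit 17315398656)) .nil))) .nil)) .nil)) (.node .leaf (nat_lit 13412224697631980) (.br (nat_lit 4) (.cons (.br (nat_lit 0) (.cons (.rel (nat_lit 1077974016)) (.cons (.rel (nat_lit 1078005768)) .nil))) .nil)) .leaf)) (nat_lit 13412224697643685) (.br (nat_lit 0) (.cons (.br (nat_lit 1) (.cons (.rel (nat_lit 22028352)) .nil)) .nil)) (.node (.node .leaf (nat_lit 13412224697733876) (.br (nat_lit 1) (.cons (.br (nat_lit 2) (.cons (.rel (nat_lit 83894274)) .nil)) .nil)) .leaf) (nat_lit 13412224697962647) (.br (nat_lit 2) (.cons (.br (nat_lit 4) (.cons (.rel (nat_lit 1140850953)) .nil)) .nil)) (.node .leaf (nat_lit 13412224698934773) (.br (nat_lit 1)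 (.cons (.br (nat_lit 2) (.cons (.rel (nat_lit 84149760)) .nil)) .nil)) .leaf))) (nat_lit 13412224699289761) (.br (nat_lit 1) (.cons (.br (nat_lit 3) (.cons (.rel (nat_lit 570691584)) .nil)) .nil)) (.node (.node (.node .leaf (nat_lit 13412224699495200) (.br (nat_lit 1) (.cons (.br (nat_lit 3) (.cons (.rel (nat_lit 301990020)) .nil)) .nil)) .leaf) (nat_lit 13412224699527924) (.br (nat_lit 1) (.cons (.br (nat_lit 2) (.cons (.rel (nat_lit 83886177)) .nil)) .nil)) (.node .leaf (nat_lit 13412224700512932) (.br (nat_lit 0) (.cons (.br (nat_lit 1) (.cons (.rel (nat_lit 42205200)) .nil)) .nil)) .leaf)) (nat_lit 13413288799822624) (.br (nat_lit 0) (.cons (.br (nat_lit 3) (.cons (.rel (nat_lit 272892162)) .nil)) .nil)) (.node (.node .leaf (nat_lit 13418220473873140) (.br (nat_lit 0) (.cons (.br (nat_lit 1) (.cons (.rel (nat_lit 21495840)) .nil)) .nil)) .leaf) (nat_lit 13418455041500661) (.br (nat_lit 0) (.cons (.br (nat_lit 1) (.cons (.rel (nat_lit 37748805)) .nil)) .nil)) .leaf)))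

/-- refutations 77 -/
def e77 : EX := (.node (.node (.node (.node (.node .leaf (nat_lit 13633990323149460) (.br (nat_lit 2) (.cons (.br (nat_lit 3) (.cons (.br (nat_lit 5) (.cons (.rel (nat_lit 4563927048)) .nil)) .nil)) .nil)) .leaf) (nat_lit 13633990324705940) (.br (nat_lit 2) (.cons (.br (nat_lit 5) (.cons (.rel (nat_lit 8657307648)) .nil)) .nil)) .leaf) (nat_lit 13634256089750264) (.br (nat_lit 0) (.cons (.br (nat_lit 2) (.cons (.rel (nat_lit 71337984)) .nil)) .nil)) (.node (.node .leaf (nat_lit 13634256091298452) (.br (nat_lit 2) (.cons (.br (nat_lit 4) (.cons (.rel (nat_lit 1207992321)) .nil)) .nil)) .leaf) (nat_lit 13635319860491127) (.br (nat_lit 2) (.cons (.br (nat_lit 3) (.cons (.br (nat_lit 5) (.cons (.rel (nat_lit 4563407376)) .nil)) .nil)) .nil)) .leaf)) (nat_lit 13635321241893046) (.br (nat_lit 1) (.cons (.br (nat_lit 4) (.cons (.rel (nat_lit 1108869120)) .nil)) .nil)) (.node (.node (.node .leaf (nat_lit 13635321244670739) (.br (nat_lit 0) (.cons (.br (nat_lit 1)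 (.cons (.rel (nat_lit 37765122)) (.cons (.rel (nat_lit 25198593)) .nil))) .nil)) .leaf) (nat_lit 13635321762247456) (.br (nat_lit 0) (.cons (.br (nat_lit 1) (.cons (.rel (nat_lit 37818384)) .nil)) .nil)) .leaf) (nat_lit 13635324554035960) (.br (nat_lit 2) (.cons (.br (nat_lit 4) (.cons (.rel (nat_lit 1140850953)) .nil)) .nil)) (.node (.node .leaf (nat_lit 13635458680759532) (.br (nat_lit 0) (.cons (.br (nat_lit 1) (.cons (.rel (nat_lit 22167552)) .nil)) .nil)) .leaf) (nat_lit 13635461805811863) (.br (nat_lit 0) (.cons (.br (nat_lit 6) (.cons (.rel (nat_lit 17184085008)) .nil)) .nil)) .leaf))) (nat_lit 13636581441207548) (.br (nat_lit 0) (.cons (.br (nat_lit 1) (.cons (.rel (nat_lit 22028352)) .nil)) .nil)) (.node (.node (.node (.node .leaf (nat_lit 13636581441270547) (.br (nat_lit 2) (.cons (.br (nat_lit 3) (.cons (.rel (nat_lit 403177473)) .nil)) .nil)) .leaf) (nat_lit 13636581441472794) (.br (nat_lit 4) (.cons (.br (nat_lit 5) (.cons (.rel (nat_lit 10737434628)) .nil)) .nil))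 .leaf) (nat_lit 13636581441473789) (.br (nat_lit 4) (.cons (.br (nat_lit 6) (.cons (.rel (nat_lit 18253946880)) .nil)) .nil)) (.node (.node .leaf (nat_lit 13636581442476819) (.br (nat_lit 0) (.cons (.br (nat_lit 2) (.cons (.rel (nat_lit 71450628)) .nil)) .nil)) .leaf) (nat_lit 13636581442525944) (.br (nat_lit 1) (.cons (.br (nat_lit 5) (.cons (.rel (nat_lit 8623490304)) .nil)) .nil)) .leaf)) (nat_lit 13636581442525995) (.br (nat_lit 2) (.cons (.br (nat_lit 5) (.cons (.rel (nat_lit 4362082368)) .nil)) .nil)) (.node (.node (.node .leaf (nat_lit 13636581442745131) (.br (nat_lit 0) (.cons (.br (nat_lit 3) (.cons (.rel (nat_lit 273219600)) .nil)) .nil)) .leaf) (nat_lit 13636581442958123) (.br (nat_lit 0) (.cons (.br (nat_lit 2) (.cons (.rel (nat_lit 71311428)) .nil)) .nil)) .leaf) (nat_lit 13636581444219767) (.br (nat_lit 1) (.cons (.br (nat_lit 2) (.cons (.br (nat_lit 5) (.cons (.rel (nat_lit 4362158112)) .nil)) .nil)) .nil)) (.node (.node .leaf (nat_lit 13636582029677819) (.br (nat_lit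 1) (.cons (.br (nat_lit 4) (.cons (.rel (nat_lit 2181038100)) .nil)) .nil)) .leaf) (nat_lit 13636584566463395) (.br (nat_lit 2) (.cons (.br (nat_lit 5) (.cons (.rel (nat_lit 4362142800)) .nil)) .nil)) .leaf))))

/-- refutations 78 -/
def e78 : EX := (.node (.node (.node .leaf (nat_lit 13640475722393660) (.br (nat_lit 0) (.cons (.br (nat_lit 1) (.cons (.rel (nat_lit 25198593)) (.cons (.rel (nat_lit 42205200)) (.cons (.rel (nat_lit 25171968)) .nil)))) .nil)) .leaf) (nat_lit 13645818663607059) (.br (nat_lit 1) (.cons (.br (nat_lit 5) (.cons (.rel (nat_lit 4312793094)) .nil)) .nil)) (.node .leaf (nat_lit 13646915018111736) (.br (nat_lit 1) (.cons (.br (nat_lit 5) (.cons (.rel (nat_lit 4328539200)) .nil)) .nil)) .leaf)) (nat_lit 13647318742046197) (.br (nat_lit 1) (.cons (.br (nat_lit 2) (.cons (.rel (nat_lit 84951300)) .nil)) .nil)) (.node (.node .leaf (nat_lit 13647318745038107) (.br (nat_lit 0) (.cons (.br (nat_lit 1) (.cons (.rel (nat_lit 20988498)) .nil)) .nil)) .leaf) (nat_lit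 13647318859398556) (.br (nat_lit 0) (.cons (.br (nat_lit 2) (.cons (.rel (nat_lit 71308290)) .nil)) .nil)) (.node .leaf (nat_lit 13647321380175260) (.br (nat_lit 0) (.cons (.br (nat_lit 2) (.cons (.rel (nat_lit 71308290)) .nil)) .nil)) .leaf)))

/-- refutations 79 -/
def e79 : EX := (.node (.node (.node (.node (.node .leaf (nat_lit 13757402417027207) (.br (nat_lit 0) (.cons (.br (nat_lit 2) (.cons (.rel (nat_lit 142623744)) .nil)) .nil)) .leaf) (nat_lit 13759288656803901) (.br (nat_lit 6) (.cons (.br (nat_lit 0) (.cons (.rel (nat_lit 17184064548)) (.cons (.rel (nat_lit 17184069696)) (.cons (.rel (nat_lit 17184065553)) .nil)))) .nil)) (.node .leaf (nat_lit 13759288656803965) (.br (nat_lit 0) (.cons (.br (nat_lit 4) (.cons (.rel (nat_lit 1077938244)) .nil)) .nil)) .leaf)) (nat_lit 13759288657070386) (.br (nat_lit 2) (.cons (.br (nat_lit 4) (.cons (.rel (nat_lit 2214608898)) .nil)) .nil)) (.node (.node .leaf (nat_lit 13759288657097391) (.br (nat_lit 2) (.cons (.br (nat_lit 4) (.cons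 (.br (nat_lit 5) (.cons (.rel (nat_lit 10737434628)) .nil)) .nil)) .nil)) .leaf) (nat_lit 13759288658121979) (.br (nat_lit 0) (.cons (.br (nat_lit 2) (.cons (.rel (nat_lit 71337984)) .nil)) .nil)) .leaf)) (nat_lit 13759288658172791) (.br (nat_lit 1) (.cons (.br (nat_lit 5) (.cons (.rel (nat_lit 4312268868)) .nil)) .nil)) (.node (.node (.node .leaf (nat_lit 13759288658377491) (.br (nat_lit 0) (.cons (.br (nat_lit 2) (.cons (.rel (nat_lit 71319648)) .nil)) .nil)) .leaf) (nat_lit 13759288658389868) (.br (nat_lit 2) (.cons (.br (nat_lit 4) (.cons (.rel (nat_lit 2282749968)) .nil)) .nil)) .leaf) (nat_lit 13759288658584308) (.br (nat_lit 2) (.cons (.br (nat_lit 4) (.cons (.rel (nat_lit 1140860292)) .nil)) .nil)) (.node (.node .leaf (nat_lit 13759288658584827) (.br (nat_lit 0) (.cons (.br (nat_lit 2) (.cons (.rel (nat_lit 71303334)) .nil)) .nil)) .leaf) (nat_lit 13759288659474493) (.br (nat_lit 2) (.cons (.br (nat_lit 3) (.cons (.rel (nat_lit 336860160)) (.cons (.rel (nat_lit 335708160))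 .nil))) .nil)) .leaf))) (nat_lit 13759288659475064) (.br (nat_lit 0) (.cons (.br (nat_lit 2) (.cons (.rel (nat_lit 71308290)) (.cons (.rel (nat_lit 71337984)) (.cons (.rel (nat_lit 142623744)) (.cons (.rel (nat_lit 71368722)) (.cons (.rel (nat_lit 142623744)) .nil)))))) .nil)) (.node (.node (.node (.node .leaf (nat_lit 13759288659620627) (.br (nat_lit 2) (.cons (.br (nat_lit 4) (.cons (.rel (nat_lit 1140850953)) .nil)) .nil)) .leaf) (nat_lit 13759288659657391) (.br (nat_lit 0) (.cons (.br (nat_lit 3) (.cons (.rel (nat_lit 273219600)) .nil)) .nil)) .leaf) (nat_lit 13759288659720879) (.br (nat_lit 4) (.cons (.br (nat_lit 6) (.cons (.rel (nat_lit 18253889664)) .nil)) .nil)) (.node (.node .leaf (nat_lit 13759289588452139) (.br (nat_lit 0) (.cons (.br (nat_lit 1) (.cons (.rel (nat_lit 37748805)) .nil)) .nil)) .leaf) (nat_lit 13759289607838483) (.br (nat_lit 0) (.cons (.br (nat_lit 1) (.cons (.rel (nat_lit 21495840)) .nil)) .nil)) .leaf)) (nat_lit 13759289693063319) (.br (nat_lit 0)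 (.cons (.br (nat_lit 1) (.cons (.rel (nat_lit 37765122)) .nil)) .nil)) (.node (.node (.node .leaf (nat_lit 13759289693115000) (.br (nat_lit 0) (.cons (.br (nat_lit 2) (.cons (.rel (nat_lit 72352128)) .nil)) .nil)) .leaf) (nat_lit 13759289695918712) (.br (nat_lit 0) (.cons (.br (nat_lit 1) (.cons (.rel (nat_lit 21037569)) .nil)) .nil)) .leaf) (nat_lit 13759291247296818) (.br (nat_lit 0) (.cons (.br (nat_lit 1) (.cons (.rel (nat_lit 42205200)) .nil)) .nil)) (.node (.node .leaf (nat_lit 13759294302603570) (.br (nat_lit 1) (.cons (.br (nat_lit 5) (.cons (.rel (nat_lit 4328587269)) .nil)) .nil)) .leaf) (nat_lit 13759295054486754) (.br (nat_lit 0) (.cons (.br (nat_lit 1) (.cons (.rel (nat_lit 21037569)) .nil)) .nil)) .leaf))))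

/-- refutations 80 -/
def e80 : EX := (.node (.node (.node .leaf (nat_lit 13759669303842947) (.br (nat_lit 0) (.cons (.br (nat_lit 1) (.cons (.rel (nat_lit 21495840)) .nil)) .nil)) .leaf) (nat_lit 13759669854987040) (.br (nat_lit 0) (.cons (.br (nat_lit 2) (.cons (.rel (nat_lit 71308290)) .nil)) .nil)) (.node .leaf (nat_lit 13759671925798241) (.br (nat_lit 0) (.cons (.br (nat_lit 1) (.cons (.rel (nat_lit 37757952)) .nil)) .nil)) .leaf)) (nat_lit 13759673011608308) (.br (nat_lit 0) (.cons (.br (nat_lit 4) (.cons (.rel (nat_lit 1078034448)) .nil)) .nil)) (.node (.node .leaf (nat_lit 13764883435329672) (.br (nat_lit 0) (.cons (.br (nat_lit 2) (.cons (.rel (nat_lit 72352128)) .nil)) .nil)) .leaf) (nat_lit 13765035940172536) (.br (nat_lit 2) (.cons (.br (nat_lit 3) (.cons (.rel (nat_lit 335546376)) .nil)) .nil)) .leaf))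

/-- refutations 81 -/
def e81 : EX := (.node (.node (.node (.node .leaf (nat_lit 13769991715362947) (.br (nat_lit 0) (.cons (.br (nat_lit 5) (.cons (.rel (nat_lit 8598327552)) (.cons (.rel (nat_lit 4300210248)) .nil))) .nil)) .leaf) (nat_lit 13770060319963263) (.br (nat_lit 0) (.cons (.br (nat_lit 1) (.cons (.rel (nat_lit 20976132)) .nil)) .nil)) (.node .leaf (nat_lit 13770060320512760) (.br (nat_lit 0) (.cons (.br (nat_lit 5) (.cons (.rel (nat_lit 8594194452)) .nil)) .nil)) .leaf)) (nat_lit 13770060434830072) (.br (nat_lit 0) (.cons (.br (nat_lit 1) (.cons (.rel (nat_lit 37748805)) .nil)) .nil)) (.node (.node .leaf (nat_lit 13770068909179130) (.br (nat_lit 0) (.cons (.br (nat_lit 2) (.cons (.rel (nat_lit 71307285)) .nil)) .nil)) .leaf) (nat_lit 13770068910357755) (.br (nat_lit 0) (.cons (.br (nat_lit 1) (.cons (.rel (nat_lit 22024209)) .nil)) .nil)) .leaf)) (nat_lit 13770069027388178) (.br (nat_lit 0) (.cons (.br (nat_lit 1) (.cons (.rel (nat_lit 21250308)) .nil)) .nil)) (.node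 (.node (.node .leaf (nat_lit 13770237589600317) (.br (nat_lit 0) (.cons (.br (nat_lit 6) (.cons (.rel (nat_lit 17184064548)) (.cons (.rel (nat_lit 17184065553)) .nil))) .nil)) .leaf) (nat_lit 13770237589601043) (.br (nat_lit 0) (.cons (.br (nat_lit 2) (.cons (.rel (nat_lit 71337984)) .nil)) .nil)) (.node .leaf (nat_lit 13770237589650168) (.br (nat_lit 0) (.cons (.br (nat_lit 3) (.cons (.rel (nat_lit 273159168)) .nil)) .nil)) .leaf)) (nat_lit 13770292363014931) (.br (nat_lit 1) (.cons (.br (nat_lit 2) (.cons (.rel (nat_lit 83904513)) (.cons (.rel (nat_lit 83984400)) .nil))) .nil)) (.node (.node .leaf (nat_lit 13770292363063473) (.br (nat_lit 0) (.cons (.br (nat_lit 1) (.cons (.rel (nat_lit 25198593)) .nil)) .nil)) .leaf) (nat_lit 13770292363064056) (.br (nat_lit 0) (.cons (.br (nat_lit 1) (.cons (.rel (nat_lit 42205200)) .nil)) .nil)) .leaf)))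

/-- refutations 82 -/
def e82 : EX := (.node (.node (.node .leaf (nat_lit 11611971247641336) (.br (nat_lit 2) (.cons (.br (nat_lit 3) (.cons (.rel (nat_lit 606076992)) .nil)) .nil)) .leaf) (nat_lit 11612366384692607) (.br (nat_lit 1) (.cons (.br (nat_lit 2) (.cons (.rel (nat_lit 83890320)) .nil)) .nil)) .leaf) (nat_lit 11616701755452929) (.br (nat_lit 0) (.cons (.br (nat_lit 2) (.cons (.rel (nat_lit 71309352)) .nil)) .nil)) (.node .leaf (nat_lit 11617818452738808) (.br (nat_lit 0) (.cons (.br (nat_lit 1) (.cons (.rel (nat_lit 42205200)) .nil)) .nil)) .leaf))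

/-- refutations 83 -/
def e83 : EX := (.node (.node .leaf (nat_lit 14108978824977144) (.br (nat_lit 3) (.cons (.br (nat_lit 5) (.cons (.rel (nat_lit 4831839234)) .nil)) .nil)) .leaf) (nat_lit 14109245114393212) (.br (nat_lit 3) (.cons (.br (nat_lit 4) (.cons (.rel (nat_lit 1342177440)) .nil)) .nil)) (.node .leaf (nat_lit 14109457223097080) (.br (nat_lit 1) (.cons (.br (nat_lit 2) (.cons (.rel (nat_lit 83886177)) .nil)) .nil)) .leaf))

/-- refutations 84 -/
def e84 : EX := (.node (.node (.node (.node (.node .leaf (nat_lit 14115909542124280) (.br (nat_lit 0) (.cons (.br (nat_lit 2) (.cons (.rel (nat_lit 71827713)) .nil)) .nil)) .leaf) (nat_lit 14115912055623986) (.br (nat_lit 0) (.cons (.br (nat_lit 1) (.cons (.rel (nat_lit 21495840)) .nil)) .nil)) .leaf) (nat_lit 14115912055626034) (.br (nat_lit 5) (.cons (.br (nat_lit 2) (.cons (.rel (nat_lit 4362149892)) (.cons (.rel (nat_lit 4362211329)) .nil))) .nil)) (.node .leaf (nat_lit 14115912055626404) (.br (nat_lit 0) (.cons (.br (nat_lit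 1) (.cons (.rel (nat_lit 22024209)) .nil)) .nil)) .leaf)) (nat_lit 14115912055781682) (.br (nat_lit 0) (.cons (.br (nat_lit 3) (.cons (.rel (nat_lit 273159168)) .nil)) .nil)) (.node (.node .leaf (nat_lit 14115912055802162) (.br (nat_lit 0) (.cons (.br (nat_lit 3) (.cons (.rel (nat_lit 273159168)) (.cons (.rel (nat_lit 273747969)) .nil))) (.cons (.br (nat_lit 3) (.cons (.rel (nat_lit 276824130)) (.cons (.rel (nat_lit 272924997)) .nil))) .nil))) .leaf) (nat_lit 14115912056855805) (.br (nat_lit 3) (.cons (.br (nat_lit 5) (.cons (.rel (nat_lit 9127067652)) .nil)) .nil)) (.node .leaf (nat_lit 14115912057060833) (.br (nat_lit 0) (.cons (.br (nat_lit 4) (.cons (.rel (nat_lit 1077936225)) .nil)) .nil)) .leaf))) (nat_lit 14115912057181665) (.br (nat_lit 1) (.cons (.br (nat_lit 6) (.cons (.rel (nat_lit 17196651537)) .nil)) .nil)) (.node (.node (.node .leaf (nat_lit 14115912057183713) (.br (nat_lit 0) (.cons (.br (nat_lit 1) (.cons (.rel (nat_lit 37748805)) .nil)) .nil)) .leaf) (nat_lit 14115912057313586)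 (.br (nat_lit 1) (.cons (.br (nat_lit 2) (.cons (.rel (nat_lit 83890320)) .nil)) .nil)) (.node .leaf (nat_lit 14115912058404093) (.br (nat_lit 1) (.cons (.br (nat_lit 2) (.cons (.rel (nat_lit 84017157)) .nil)) .nil)) .leaf)) (nat_lit 14115912058413816) (.br (nat_lit 2) (.cons (.br (nat_lit 5) (.cons (.rel (nat_lit 4362149892)) .nil)) .nil)) (.node (.node .leaf (nat_lit 14115912058706680) (.br (nat_lit 3) (.cons (.br (nat_lit 6) (.cons (.rel (nat_lit 17448337536)) .nil)) .nil)) .leaf) (nat_lit 14120977580720888) (.br (nat_lit 0) (.cons (.br (nat_lit 1) (.cons (.rel (nat_lit 21495840)) .nil)) .nil)) (.node .leaf (nat_lit 14121220635458172) (.br (nat_lit 4) (.cons (.br (nat_lit 5) (.cons (.rel (nat_lit 5368725570)) .nil)) .nil)) .leaf))))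

/-- refutations 85 -/
def e85 : EX := (.node (.node (.node .leaf (nat_lit 14181939209853715) (.br (nat_lit 2) (.cons (.br (nat_lit 6) (.cons (.rel (nat_lit 17246982405)) .nil)) .nil)) .leaf) (nat_lit 14181939210058615) (.br (nat_lit 1) (.cons (.br (nat_lit 2) (.cons (.rel (nat_lit 83904513)) .nil)) .nil)) .leaf) (nat_lit 14181939210419713) (.br (nat_lit 1) (.cons (.br (nat_lit 2) (.cons (.rel (nat_lit 83886177)) .nil)) .nil)) (.node (.node .leaf (nat_lit 14181939211449131) (.br (nat_lit 0) (.cons (.br (nat_lit 1) (.cons (.rel (nat_lit 21495840)) .nil)) .nil)) .leaf) (nat_lit 14181942882857891) (.br (nat_lit 2) (.cons (.br (nat_lit 0) (.cons (.rel (nat_lit 71450628)) (.cons (.rel (nat_lit 71372865)) .nil))) .nil)) .leaf))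

/-- refutations 86 -/
def e86 : EX := (.node (.node (.node .leaf (nat_lit 14185850736815605) (.br (nat_lit 0) (.cons (.br (nat_lit 2) (.cons (.rel (nat_lit 71308290)) .nil)) .nil)) .leaf) (nat_lit 14185851361766901) (.br (nat_lit 4) (.cons (.br (nat_lit 3) (.cons (.rel (nat_lit 2684354640)) (.cons (.rel (nat_lit 1342324737)) .nil))) .nil)) (.node .leaf (nat_lit 14192272902652831) (.br (nat_lit 1) (.cons (.br (nat_lit 2) (.cons (.rel (nat_lit 83890320)) .nil)) .nil)) .leaf)) (nat_lit 14192676629895955) (.br (nat_lit 2) (.cons (.br (nat_lit 5) (.cons (.rel (nat_lit 4362097680)) .nil)) .nil)) (.node (.node .leaf (nat_lit 14192680299911955) (.br (nat_lit 0) (.cons (.br (nat_lit 2) (.cons (.rel (nat_lit 71450628)) .nil)) .nil)) .leaf) (nat_lit 14192719576765203) (.br (nat_lit 1) (.cons (.br (nat_lit 0) (.cons (.rel (nat_lit 37757952)) (.cons (.rel (nat_lit 37748805)) .nil))) .nil)) (.node .leaf (nat_lit 14192719579632403) (.br (nat_lit 2) (.cons (.br (nat_lit 5) (.cons (.rel (nat_lit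 4362078225)) .nil)) .nil)) .leaf)))

/-- refutations 87 -/
def e87 : EX := (.node (.node (.node .leaf (nat_lit 13810359372115180) (.br (nat_lit 2) (.cons (.br (nat_lit 6) (.cons (.rel (nat_lit 17247240264)) .nil)) .nil)) .leaf) (nat_lit 13816844217493564) (.br (nat_lit 0) (.cons (.br (nat_lit 2) (.cons (.rel (nat_lit 71337984)) .nil)) .nil)) .leaf) (nat_lit 13816844219147000) (.br (nat_lit 0) (.cons (.br (nat_lit 2) (.cons (.rel (nat_lit 71308290)) .nil)) .nil)) (.node .leaf (nat_lit 13816844219147547) (.br (nat_lit 0) (.cons (.br (nat_lit 4) (.cons (.rel (nat_lit 2155876353)) .nil)) .nil)) .leaf))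

/-- refutations 88 -/
def e88 : EX := (.node .leaf (nat_lit 15434154612700412) (.br (nat_lit 0) (.cons (.br (nat_lit 1) (.cons (.rel (nat_lit 21495840)) .nil)) .nil)) .leaf)

/-- refutations 90 -/
def e90 : EX := (.node (.node .leaf (nat_lit 15517381981182763) (.br (nat_lit 1) (.cons (.br (nat_lit 2) (.cons (.rel (nat_lit 85196832)) .nil)) .nil)) .leaf) (nat_lit 15517381981594360) (.br (nat_lit 1) (.cons (.br (nat_lit 5) (.cons (.rel (nat_lit 4312285185)) .nil)) .nil)) .leaf)

/-- refutations 91 -/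
def e91 : EX := (.node (.node (.node (.node (.node .leaf (nat_lit 15523283264936242) (.br (nat_lit 2) (.cons (.br (nat_lit 3) (.cons (.rel (nat_lit 671089668)) .nil)) .nil)) .leaf) (nat_lit 15523283264940163) (.br (nat_lit 0) (.cons (.br (nat_lit 3) (.cons (.rel (nat_lit 273686532)) (.cons (.rel (nat_lit 272892162)) .nil))) .nil)) (.node .leaf (nat_lit 15523283264941557) (.br (nat_lit 0) (.cons (.br (nat_lit 3) (.cons (.rel (nat_lit 541132800)) .nil)) .nil)) .leaf)) (nat_lit 15523283264966962) (.br (nat_lit 2) (.cons (.br (nat_lit 3) (.cons (.rel (nat_lit 335546376)) .nil)) .nil)) (.node (.node .leaf (nat_lit 15523283265140897) (.br (nat_lit 0) (.cons (.br (nat_lit 4) (.cons (.rel (nat_lit 1077940368)) .nil)) .nil)) .leaf) (nat_lit 15523283265142147) (.br (nat_lit 1) (.cons (.br (nat_lit 3) (.cons (.rel (nat_lit 285745152)) .nil)) .nil)) .leaf)) (nat_lit 15523283267500688) (.br (nat_lit 0) (.cons (.br (nat_lit 2) (.cons (.rel (nat_lit 71311428)) .nil)) .nil)) (.node (.node (.node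 .leaf (nat_lit 15523283645537016) (.br (nat_lit 1) (.cons (.br (nat_lit 5) (.cons (.rel (nat_lit 4312268868)) .nil)) .nil)) .leaf) (nat_lit 15523285953425465) (.br (nat_lit 1) (.cons (.br (nat_lit 6) (.cons (.rel (nat_lit 17196650532)) .nil)) .nil)) (.node .leaf (nat_lit 15523285953489027) (.br (nat_lit 0) (.cons (.br (nat_lit 3) (.cons (.rel (nat_lit 276824130)) .nil)) .nil)) .leaf)) (nat_lit 15523285953515826) (.br (nat_lit 2) (.cons (.br (nat_lit 3) (.cons (.rel (nat_lit 335546376)) .nil)) .nil)) (.node (.node .leaf (nat_lit 15523285953689761) (.br (nat_lit 0) (.cons (.br (nat_lit 4) (.cons (.rel (nat_lit 1077938244)) .nil)) .nil)) .leaf) (nat_lit 15523285953690535) (.br (nat_lit 2) (.cons (.br (nat_lit 3) (.cons (.rel (nat_lit 335544357)) .nil)) .nil)) .leaf))) (nat_lit 15523285953990817) (.br (nat_lit 2) (.cons (.br (nat_lit 5) (.cons (.rel (nat_lit 8724152325)) .nil)) .nil)) (.node (.node (.node (.node .leaf (nat_lit 15523285953991416) (.br (nat_lit 0) (.cons (.br (nat_lit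 2) (.cons (.rel (nat_lit 71311428)) .nil)) .nil)) .leaf) (nat_lit 15523285954052227) (.br (nat_lit 0) (.cons (.br (nat_lit 5) (.cons (.rel (nat_lit 4299688080)) .nil)) .nil)) (.node .leaf (nat_lit 15523285954747745) (.br (nat_lit 0) (.cons (.br (nat_lit 1) (.cons (.rel (nat_lit 21578754)) .nil)) .nil)) .leaf)) (nat_lit 15523285954795651) (.br (nat_lit 0) (.cons (.br (nat_lit 1) (.cons (.rel (nat_lit 20976132)) .nil)) .nil)) (.node (.node .leaf (nat_lit 15523285954796407) (.br (nat_lit 1) (.cons (.br (nat_lit 5) (.cons (.rel (nat_lit 8606720004)) .nil)) .nil)) .leaf) (nat_lit 15523285955987486) (.br (nat_lit 2) (.cons (.br (nat_lit 4) (.cons (.rel (nat_lit 1207976004)) .nil)) .nil)) .leaf)) (nat_lit 15523285955987633) (.br (nat_lit 0) (.cons (.br (nat_lit 1) (.cons (.rel (nat_lit 20976132)) .nil)) .nil)) (.node (.node (.node .leaf (nat_lit 15523285956496247) (.br (nat_lit 0) (.cons (.br (nat_lit 5) (.cons (.rel (nat_lit 4303356993)) .nil)) .nil)) .leaf) (nat_lit 15523288495437985)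 (.br (nat_lit 0) (.cons (.br (nat_lit 4) (.cons (.rel (nat_lit 1077944322)) .nil)) .nil)) .leaf) (nat_lit 15523288495439374) (.br (nat_lit 0) (.cons (.br (nat_lit 2) (.cons (.rel (nat_lit 142626885)) .nil)) .nil)) (.node (.node .leaf (nat_lit 15523875853015191) (.br (nat_lit 0) (.cons (.br (nat_lit 2) (.cons (.rel (nat_lit 71319648)) .nil)) .nil)) .leaf) (nat_lit 15523881213336312) (.br (nat_lit 1) (.cons (.br (nat_lit 2) (.cons (.rel (nat_lit 83894274)) .nil)) .nil)) .leaf))))

/-- refutations 92 -/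
def e92 : EX := (.node (.node .leaf (nat_lit 15524253812964215) (.br (nat_lit 0) (.cons (.br (nat_lit 2) (.cons (.rel (nat_lit 71304336)) .nil)) .nil)) .leaf) (nat_lit 15524259153590403) (.br (nat_lit 0) (.cons (.br (nat_lit 3) (.cons (.rel (nat_lit 541097988)) .nil)) .nil)) (.node .leaf (nat_lit 15527151426643445) (.br (nat_lit 0) (.cons (.br (nat_lit 2) (.cons (.rel (nat_lit 75759681)) .nil)) .nil)) .leaf))

/-- refutations 93 -/
def e93 : EX := (.node (.node (.node (.node (.node .leaf (nat_lit 15586988925188856) (.br (nat_lit 2) (.cons (.br (nat_lit 5) (.cons (.rel (nat_lit 4362078225)) .nil)) .nil)) .leaf) (nat_lit 15586988925744031) (.br (nat_lit 5) (.cons (.br (nat_lit 1) (.cons (.rel (nat_lit 8623490304)) (.cons (.rel (nat_lit 4312809600)) .nil))) .nil)) .leaf) (nat_lit 15587813560652408) (.br (nat_lit 1) (.cons (.br (nat_lit 6) (.cons (.rel (nat_lit 17196662850)) .nil)) .nil)) (.node .leaf (nat_lit 15587813561532571) (.br (nat_lit 0) (.cons (.br (nat_lit 1) (.cons (.rel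 (nat_lit 22024209)) .nil)) .nil)) .leaf)) (nat_lit 15587813562045172) (.br (nat_lit 1) (.cons (.br (nat_lit 2) (.cons (.rel (nat_lit 83888196)) .nil)) .nil)) (.node (.node (.node .leaf (nat_lit 15588881216068344) (.br (nat_lit 0) (.cons (.br (nat_lit 1) (.cons (.rel (nat_lit 37748805)) .nil)) .nil)) .leaf) (nat_lit 15589144982035192) (.br (nat_lit 1) (.cons (.br (nat_lit 2) (.cons (.rel (nat_lit 83890320)) .nil)) .nil)) .leaf) (nat_lit 15589144998988082) (.br (nat_lit 0) (.cons (.br (nat_lit 3) (.cons (.rel (nat_lit 272647680)) .nil)) .nil)) (.node .leaf (nat_lit 15589145000042553) (.br (nat_lit 3) (.cons (.br (nat_lit 4) (.cons (.rel (nat_lit 1342185537)) .nil)) .nil)) .leaf))) (nat_lit 15589145000042556) (.br (nat_lit 0) (.cons (.br (nat_lit 1) (.cons (.rel (nat_lit 20976132)) .nil)) .nil)) (.node (.node (.node (.node .leaf (nat_lit 15589145000043756) (.br (nat_lit 0) (.cons (.br (nat_lit 3) (.cons (.rel (nat_lit 273694752)) (.cons (.rel (nat_lit 541065345)) .nil))) .nil)) .leaf)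 (nat_lit 15589145000043772) (.br (nat_lit 1) (.cons (.br (nat_lit 0) (.cons (.rel (nat_lit 42205200)) (.cons (.rel (nat_lit 22086660)) .nil))) .nil)) .leaf) (nat_lit 15589145000043803) (.br (nat_lit 1) (.cons (.br (nat_lit 2) (.cons (.rel (nat_lit 83888196)) .nil)) .nil)) (.node .leaf (nat_lit 15589145000043932) (.br (nat_lit 2) (.cons (.br (nat_lit 4) (.cons (.rel (nat_lit 2282749968)) (.cons (.rel (nat_lit 2215903236)) .nil))) .nil)) .leaf)) (nat_lit 15589145001323873) (.br (nat_lit 0) (.cons (.br (nat_lit 2) (.cons (.rel (nat_lit 71307285)) .nil)) .nil)) (.node (.node (.node .leaf (nat_lit 15589145001906932) (.br (nat_lit 2) (.cons (.br (nat_lit 6) (.cons (.rel (nat_lit 17246994768)) .nil)) .nil)) .leaf) (nat_lit 15589314679339768) (.br (nat_lit 1) (.cons (.br (nat_lit 2) (.cons (.rel (nat_lit 84443394)) .nil)) .nil)) .leaf) (nat_lit 15592527216786064) (.br (nat_lit 0) (.cons (.br (nat_lit 1) (.cons (.rel (nat_lit 37757952)) .nil)) .nil)) (.node .leaf (nat_lit 15593594588011256)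 (.br (nat_lit 0) (.cons (.br (nat_lit 3) (.cons (.rel (nat_lit 541097988)) .nil)) .nil)) .leaf))))

/-- refutations 94 -/
def e94 : EX := (.node (.node (.node (.node (.node .leaf (nat_lit 15593652498766584) (.br (nat_lit 1) (.cons (.br (nat_lit 3) (.cons (.rel (nat_lit 570691584)) .nil)) .nil)) .leaf) (nat_lit 15593653165366155) (.br (nat_lit 0) (.cons (.br (nat_lit 1) (.cons (.rel (nat_lit 42205200)) .nil)) .nil)) (.node .leaf (nat_lit 15593654714383863) (.br (nat_lit 2) (.cons (.br (nat_lit 5) (.cons (.rel (nat_lit 4362211329)) .nil)) .nil)) .leaf)) (nat_lit 15593654714432248) (.br (nat_lit 2) (.cons (.br (nat_lit 5) (.cons (.rel (nat_lit 4362108993)) (.cons (.rel (nat_lit 4362108993)) .nil))) (.cons (.br (nat_lit 5) (.cons (.rel (nat_lit 4362078225)) (.cons (.rel (nat_lit 4362108993)) .nil))) .nil))) (.node (.node .leaf (nat_lit 15593654714470555) (.br (nat_lit 2) (.cons (.br (nat_lit 4) (.cons (.rel (nat_lit 1140853008)) .nil)) .nil)) .leaf) (nat_lit 15593654714471160) (.br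 (nat_lit 0) (.cons (.br (nat_lit 1) (.cons (.rel (nat_lit 20976132)) .nil)) .nil)) (.node .leaf (nat_lit 15593654714648882) (.br (nat_lit 0) (.cons (.br (nat_lit 4) (.cons (.br (nat_lit 2) (.cons (.rel (nat_lit 1141116945)) (.cons (.rel (nat_lit 1140883776)) .nil))) (.cons (.rel (nat_lit 2155876353)) .nil))) .nil)) .leaf))) (nat_lit 15593654714905483) (.br (nat_lit 4) (.cons (.br (nat_lit 0) (.cons (.rel (nat_lit 1077954561)) (.cons (.rel (nat_lit 1077944322)) .nil))) .nil)) (.node (.node (.node .leaf (nat_lit 15593654714945842) (.br (nat_lit 2) (.cons (.br (nat_lit 4) (.cons (.rel (nat_lit 1140883776)) .nil)) .nil)) .leaf) (nat_lit 15593654714986622) (.br (nat_lit 0) (.cons (.br (nat_lit 6) (.cons (.rel (nat_lit 34368126981)) .nil)) .nil)) (.node .leaf (nat_lit 15593654714987423) (.br (nat_lit 2) (.cons (.br (nat_lit 1) (.cons (.rel (nat_lit 100663569)) (.cons (.rel (nat_lit 83888196)) .nil))) .nil)) .leaf)) (nat_lit 15593654716174642) (.br (nat_lit 6) (.cons (.br (nat_lit 0)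 (.cons (.rel (nat_lit 17184198657)) (.cons (.rel (nat_lit 34368126981)) .nil))) .nil)) (.node (.node .leaf (nat_lit 15593654717186174) (.br (nat_lit 1) (.cons (.br (nat_lit 2) (.cons (.rel (nat_lit 83886177)) .nil)) .nil)) .leaf) (nat_lit 15593654717186680) (.br (nat_lit 2) (.cons (.br (nat_lit 0) (.cons (.rel (nat_lit 71307285)) (.cons (.rel (nat_lit 138678600)) .nil))) .nil)) .leaf))) (nat_lit 15593654717186975) (.br (nat_lit 2) (.cons (.br (nat_lit 6) (.cons (.rel (nat_lit 17247043842)) .nil)) .nil)) (.node (.node (.node (.node .leaf (nat_lit 15593654717258635) (.br (nat_lit 1) (.cons (.br (nat_lit 3) (.cons (.rel (nat_lit 301990020)) .nil)) .nil)) .leaf) (nat_lit 15593654717455873) (.br (nat_lit 1) (.cons (.br (nat_lit 2) (.cons (.rel (nat_lit 83888196)) .nil)) .nil)) (.node .leaf (nat_lit 15593654717504275) (.br (nat_lit 0) (.cons (.br (nat_lit 2) (.cons (.rel (nat_lit 71337984)) .nil)) .nil)) .leaf)) (nat_lit 15593654717554025) (.br (nat_lit 1) (.cons (.br (nat_lit 2) (.cons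 (.rel (nat_lit 102760452)) .nil)) .nil)) (.node (.node .leaf (nat_lit 15593654717554145) (.br (nat_lit 0) (.cons (.br (nat_lit 1) (.cons (.rel (nat_lit 42205200)) .nil)) .nil)) .leaf) (nat_lit 15593654717557496) (.br (nat_lit 1) (.cons (.br (nat_lit 2) (.cons (.rel (nat_lit 83894274)) .nil)) .nil)) .leaf)) (nat_lit 15593654717567732) (.br (nat_lit 2) (.cons (.br (nat_lit 4) (.cons (.rel (nat_lit 1140853008)) (.cons (.rel (nat_lit 1141900800)) .nil))) .nil)) (.node (.node (.node .leaf (nat_lit 15593654717567736) (.br (nat_lit 0) (.cons (.br (nat_lit 2) (.cons (.rel (nat_lit 71337984)) .nil)) .nil)) .leaf) (nat_lit 15594456229149432) (.br (nat_lit 2) (.cons (.br (nat_lit 3) (.cons (.rel (nat_lit 335546376)) .nil)) .nil)) (.node .leaf (nat_lit 15597674803772024) (.br (nat_lit 0) (.cons (.br (nat_lit 2) (.cons (.rel (nat_lit 71450628)) .nil)) .nil)) .leaf)) (nat_lit 15598540070787883) (.br (nat_lit 0) (.cons (.br (nat_lit 2) (.cons (.rel (nat_lit 142623744)) .nil)) .nil)) (.node (.node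 .leaf (nat_lit 15598720555688842) (.br (nat_lit 1) (.cons (.br (nat_lit 3) (.cons (.rel (nat_lit 285475209)) .nil)) .nil)) .leaf) (nat_lit 15599650491531896) (.br (nat_lit 1) (.cons (.br (nat_lit 2) (.cons (.rel (nat_lit 83888196)) .nil)) .nil)) .leaf))))

/-- refutations 96 -/
def e96 : EX := (.node (.node (.node (.node .leaf (nat_lit 15868385005665167) (.br (nat_lit 0) (.cons (.br (nat_lit 1) (.cons (.rel (nat_lit 37818384)) .nil)) .nil)) .leaf) (nat_lit 15868461701374839) (.br (nat_lit 4) (.cons (.br (nat_lit 5) (.cons (.rel (nat_lit 5368709253)) .nil)) .nil)) (.node .leaf (nat_lit 15868461701733139) (.br (nat_lit 4) (.cons (.br (nat_lit 5) (.cons (.br (nat_lit 1) (.cons (.rel (nat_lit 2181039105)) (.cons (.rel (nat_lit 4312793094)) (.cons (.rel (nat_lit 4328525832)) .nil)))) .nil)) .nil)) .leaf)) (nat_lit 15868463717391096) (.br (nat_lit 4) (.cons (.br (nat_lit 2) (.cons (.rel (nat_lit 1140986112)) (.cons (.rel (nat_lit 1140853008)) .nil))) .nil)) (.node (.node .leaf (nat_lit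 15868463718630163) (.br (nat_lit 1) (.cons (.br (nat_lit 3) (.cons (.rel (nat_lit 553664517)) .nil)) .nil)) .leaf) (nat_lit 15868464239287059) (.br (nat_lit 4) (.cons (.br (nat_lit 5) (.cons (.br (nat_lit 2) (.cons (.rel (nat_lit 4362076170)) (.cons (.rel (nat_lit 2282749968)) .nil))) .nil)) .nil)) .leaf)) (nat_lit 15870619793491180) (.br (nat_lit 1) (.cons (.br (nat_lit 3) (.cons (.rel (nat_lit 286263300)) .nil)) .nil)) (.node (.node (.node .leaf (nat_lit 15870734296704408) (.br (nat_lit 2) (.cons (.br (nat_lit 4) (.cons (.rel (nat_lit 1141116945)) .nil)) .nil)) .leaf) (nat_lit 15870735088195739) (.br (nat_lit 4) (.cons (.br (nat_lit 6) (.cons (.rel (nat_lit 35433481296)) .nil)) .nil)) .leaf) (nat_lit 15873737937745397) (.br (nat_lit 2) (.cons (.br (nat_lit 4) (.cons (.rel (nat_lit 1140883776)) .nil)) .nil)) (.node (.node .leaf (nat_lit 15873737939813112) (.br (nat_lit 1) (.cons (.br (nat_lit 2) (.cons (.rel (nat_lit 167776257)) .nil)) .nil)) .leaf) (nat_lit 15873798068575733)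 (.br (nat_lit 1) (.cons (.br (nat_lit 2) (.cons (.rel (nat_lit 84149760)) .nil)) .nil)) .leaf)))

/-- refutations 97 -/
def e97 : EX := (.node (.node (.node (.node .leaf (nat_lit 15875132081842236) (.br (nat_lit 1) (.cons (.br (nat_lit 2) (.cons (.rel (nat_lit 83894274)) .nil)) .nil)) .leaf) (nat_lit 15875132082451957) (.br (nat_lit 1) (.cons (.br (nat_lit 2) (.cons (.rel (nat_lit 100667712)) .nil)) .nil)) .leaf) (nat_lit 15876192022823572) (.br (nat_lit 1) (.cons (.br (nat_lit 3) (.cons (.rel (nat_lit 285507840)) .nil)) .nil)) (.node .leaf (nat_lit 15880200357255350) (.br (nat_lit 0) (.cons (.br (nat_lit 1) (.cons (.rel (nat_lit 42205200)) .nil)) .nil)) .leaf)) (nat_lit 15880438087451411) (.br (nat_lit 1) (.cons (.br (nat_lit 2) (.cons (.rel (nat_lit 83894274)) .nil)) .nil)) (.node (.node (.node .leaf (nat_lit 15880438088015349) (.br (nat_lit 1) (.cons (.br (nat_lit 2) (.cons (.rel (nat_lit 100941888)) .nil)) .nil)) .leaf) (nat_lit 15881529007801697) (.br (nat_lit 2) (.cons (.br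 (nat_lit 5) (.cons (.rel (nat_lit 4362077220)) .nil)) .nil)) .leaf) (nat_lit 15881529007816092) (.br (nat_lit 2) (.cons (.br (nat_lit 4) (.cons (.rel (nat_lit 1141116945)) .nil)) .nil)) (.node .leaf (nat_lit 15881531843165596) (.br (nat_lit 2) (.cons (.br (nat_lit 5) (.cons (.rel (nat_lit 4362092676)) .nil)) .nil)) .leaf)))

/-- refutations 98 -/
def e98 : EX := (.node (.node (.node (.node (.node .leaf (nat_lit 15921186216371112) (.br (nat_lit 0) (.cons (.br (nat_lit 1) (.cons (.rel (nat_lit 25182276)) .nil)) .nil)) .leaf) (nat_lit 15921186216930040) (.br (nat_lit 0) (.cons (.br (nat_lit 1) (.cons (.rel (nat_lit 21037569)) .nil)) .nil)) (.node .leaf (nat_lit 15921186216930066) (.br (nat_lit 1) (.cons (.br (nat_lit 3) (.cons (.rel (nat_lit 285214209)) .nil)) .nil)) .leaf)) (nat_lit 15921186216930182) (.br (nat_lit 0) (.cons (.br (nat_lit 1) (.cons (.rel (nat_lit 22167552)) .nil)) .nil)) (.node (.node .leaf (nat_lit 15922450071018259) (.br (nat_lit 2) (.cons (.br (nat_lit 4) (.cons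 (.rel (nat_lit 1141260288)) .nil)) .nil)) .leaf) (nat_lit 15922452195729560) (.br (nat_lit 3) (.cons (.br (nat_lit 4) (.cons (.rel (nat_lit 1342182408)) .nil)) .nil)) (.node .leaf (nat_lit 15922452195942460) (.br (nat_lit 1) (.cons (.br (nat_lit 5) (.cons (.rel (nat_lit 8606720004)) .nil)) .nil)) .leaf))) (nat_lit 15922452196309248) (.br (nat_lit 3) (.cons (.br (nat_lit 4) (.cons (.rel (nat_lit 1343258880)) .nil)) .nil)) (.node (.node (.node .leaf (nat_lit 15922452196310372) (.br (nat_lit 1) (.cons (.br (nat_lit 5) (.cons (.rel (nat_lit 4312011009)) .nil)) .nil)) .leaf) (nat_lit 15922452197262588) (.br (nat_lit 3) (.cons (.br (nat_lit 4) (.cons (.rel (nat_lit 1342177440)) .nil)) .nil)) (.node .leaf (nat_lit 15922455332298904) (.br (nat_lit 1) (.cons (.br (nat_lit 4) (.cons (.rel (nat_lit 1090521090)) .nil)) .nil)) .leaf)) (nat_lit 15922455333068952) (.br (nat_lit 4) (.cons (.br (nat_lit 5) (.cons (.rel (nat_lit 5368709253)) .nil)) .nil)) (.node (.node .leaf (nat_lit 15923085101226771)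 (.br (nat_lit 5) (.cons (.br (nat_lit 1) (.cons (.rel (nat_lit 4328554512)) (.cons (.rel (nat_lit 8606712912)) .nil))) .nil)) .leaf) (nat_lit 15927903543900216) (.br (nat_lit 0) (.cons (.br (nat_lit 4) (.cons (.rel (nat_lit 1077938244)) .nil)) .nil)) (.node .leaf (nat_lit 15927903543900972) (.br (nat_lit 2) (.cons (.br (nat_lit 4) (.cons (.rel (nat_lit 2214601728)) .nil)) .nil)) .leaf)))) (nat_lit 15927903544008856) (.br (nat_lit 2) (.cons (.br (nat_lit 3) (.cons (.rel (nat_lit 336068928)) .nil)) .nil)) (.node (.node (.node (.node .leaf (nat_lit 15927903544008884) (.br (nat_lit 1) (.cons (.br (nat_lit 2) (.cons (.rel (nat_lit 83894274)) .nil)) .nil)) .leaf) (nat_lit 15927903544008886) (.br (nat_lit 1) (.cons (.br (nat_lit 2) (.cons (.rel (nat_lit 167776257)) .nil)) .nil)) (.node .leaf (nat_lit 15927903544009979) (.br (nat_lit 1) (.cons (.br (nat_lit 2) (.cons (.rel (nat_lit 100941888)) (.cons (.rel (nat_lit 83890320)) .nil))) .nil)) .leaf)) (nat_lit 15927903544472488) (.br (nat_lit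 0) (.cons (.br (nat_lit 1) (.cons (.rel (nat_lit 25182276)) .nil)) .nil)) (.node (.node .leaf (nat_lit 15927903545167124) (.br (nat_lit 2) (.cons (.br (nat_lit 4) (.cons (.rel (nat_lit 1140986112)) .nil)) .nil)) .leaf) (nat_lit 15927903545780984) (.br (nat_lit 1) (.cons (.br (nat_lit 0) (.cons (.rel (nat_lit 22024209)) (.cons (.rel (nat_lit 42205200)) .nil))) .nil)) (.node .leaf (nat_lit 15927903546460216) (.br (nat_lit 0) (.cons (.br (nat_lit 1) (.cons (.rel (nat_lit 21037569)) .nil)) .nil)) .leaf))) (nat_lit 15927903546460920) (.br (nat_lit 0) (.cons (.br (nat_lit 4) (.cons (.rel (nat_lit 1078005768)) (.cons (.rel (nat_lit 1077938244)) .nil))) .nil)) (.node (.node (.node .leaf (nat_lit 15927903546549155) (.br (nat_lit 0) (.cons (.br (nat_lit 1) (.cons (.rel (nat_lit 21037569)) .nil)) .nil)) .leaf) (nat_lit 15927904679484179) (.br (nat_lit 1) (.cons (.br (nat_lit 0) (.cons (.rel (nat_lit 25182276)) (.cons (.rel (nat_lit 20976132)) .nil))) .nil)) (.node .leaf (nat_lit 15927906027450618)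 (.br (nat_lit 0) (.cons (.br (nat_lit 1) (.cons (.rel (nat_lit 20976132)) .nil)) .nil)) .leaf)) (nat_lit 15927906027529099) (.br (nat_lit 0) (.cons (.br (nat_lit 4) (.cons (.rel (nat_lit 1078199808)) .nil)) .nil)) (.node (.node .leaf (nat_lit 15927906028810521) (.br (nat_lit 0) (.cons (.br (nat_lit 1) (.cons (.rel (nat_lit 21037569)) .nil)) .nil)) .leaf) (nat_lit 15927906028830052) (.br (nat_lit 1) (.cons (.br (nat_lit 2) (.cons (.rel (nat_lit 83886177)) .nil)) .nil)) (.node .leaf (nat_lit 15927906029845367) (.br (nat_lit 0) (.cons (.br (nat_lit 1) (.cons (.rel (nat_lit 21495840)) .nil)) .nil)) .leaf)))))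

/-- refutations 99 -/
def e99 : EX := (.node (.node .leaf (nat_lit 15928877466804376) (.br (nat_lit 1) (.cons (.br (nat_lit 3) (.cons (.rel (nat_lit 285233664)) .nil)) .nil)) .leaf) (nat_lit 15933822011394950) (.br (nat_lit 0) (.cons (.br (nat_lit 1) (.cons (.rel (nat_lit 42205200)) .nil)) .nil)) .leaf)

/-- refutations 100 -/
def e100 : EX := (.node (.node (.node (.node .leaf (nat_lit 16009963259083639) (.br (nat_lit 0) (.cons (.br (nat_lit 1) (.cons (.rel (nat_lit 21037569)) .nil)) .nil)) .leaf) (nat_lit 16009963676105491) (.br (nat_lit 0) (.cons (.br (nat_lit 2) (.cons (.rel (nat_lit 71308290)) .nil)) .nil)) (.node .leaf (nat_lit 16009963678767880) (.br (nat_lit 0) (.cons (.br (nat_lit 1) (.cons (.rel (nat_lit 21250308)) .nil)) .nil)) .leaf)) (nat_lit 16009965694398595) (.br (nat_lit 0) (.cons (.br (nat_lit 2) (.cons (.rel (nat_lit 71319648)) .nil)) .nil)) (.node (.node .leaf (nat_lit 16009965694693538) (.br (nat_lit 0) (.cons (.br (nat_lit 2) (.cons (.rel (nat_lit 71337984))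 .nil)) .nil)) .leaf) (nat_lit 16009965694961970) (.br (nat_lit 0) (.cons (.br (nat_lit 1) (.cons (.rel (nat_lit 25171968)) .nil)) .nil)) (.node .leaf (nat_lit 16009965695679989) (.br (nat_lit 0) (.cons (.br (nat_lit 2) (.cons (.rel (nat_lit 71304336)) .nil)) .nil)) .leaf))) (nat_lit 16009968499599511) (.br (nat_lit 0) (.cons (.br (nat_lit 4) (.cons (.rel (nat_lit 1082147088)) .nil)) .nil)) (.node (.node (.node .leaf (nat_lit 16011088470490363) (.br (nat_lit 0) (.cons (.br (nat_lit 5) (.cons (.rel (nat_lit 4299424020)) .nil)) .nil)) .leaf) (nat_lit 16011088472282524) (.br (nat_lit 0) (.cons (.br (nat_lit 5) (.cons (.rel (nat_lit 4299718656)) .nil)) .nil)) (.node .leaf (nat_lit 16011088957028413) (.br (nat_lit 0) (.cons (.br (nat_lit 2) (.cons (.rel (nat_lit 71311428)) .nil)) .nil)) .leaf)) (nat_lit 16011088957028984) (.br (nat_lit 0) (.cons (.br (nat_lit 2) (.cons (.rel (nat_lit 71337984)) .nil)) .nil)) (.node (.node .leaf (nat_lit 16011088957029259) (.br (nat_lit 0) (.cons (.br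 (nat_lit 1) (.cons (.rel (nat_lit 25182276)) .nil)) .nil)) .leaf) (nat_lit 16011091178486547) (.br (nat_lit 0) (.cons (.br (nat_lit 6) (.cons (.rel (nat_lit 34369454145)) .nil)) .nil)) (.node .leaf (nat_lit 16011355376394896) (.br (nat_lit 1) (.cons (.br (nat_lit 3) (.cons (.rel (nat_lit 286344192)) .nil)) .nil)) .leaf))))

/-- refutations 101 -/
def e101 : EX := (.node (.node (.node (.node (.node .leaf (nat_lit 16015864474172024) (.br (nat_lit 1) (.cons (.br (nat_lit 2) (.cons (.rel (nat_lit 83886177)) .nil)) .nil)) .leaf) (nat_lit 16015864474622113) (.br (nat_lit 2) (.cons (.br (nat_lit 6) (.cons (.rel (nat_lit 17247043842)) .nil)) .nil)) .leaf) (nat_lit 16015864474733304) (.br (nat_lit 0) (.cons (.br (nat_lit 4) (.cons (.rel (nat_lit 1077936225)) .nil)) .nil)) (.node (.node .leaf (nat_lit 16015864475491235) (.br (nat_lit 0) (.cons (.br (nat_lit 2) (.cons (.rel (nat_lit 71337984)) .nil)) .nil)) .leaf) (nat_lit 16015864476027536) (.br (nat_lit 0) (.cons (.br (nat_lit 3) (.cons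 (.rel (nat_lit 541069344)) .nil)) .nil)) .leaf)) (nat_lit 16015864476976035) (.br (nat_lit 0) (.cons (.br (nat_lit 4) (.cons (.rel (nat_lit 1077954561)) .nil)) .nil)) (.node (.node (.node .leaf (nat_lit 16015864477293304) (.br (nat_lit 5) (.cons (.br (nat_lit 0) (.cons (.rel (nat_lit 8598601728)) (.cons (.rel (nat_lit 4299718656)) .nil))) .nil)) .leaf) (nat_lit 16015864854780664) (.br (nat_lit 1) (.cons (.br (nat_lit 3) (.cons (.rel (nat_lit 286261281)) .nil)) .nil)) .leaf) (nat_lit 16015864854781289) (.br (nat_lit 0) (.cons (.br (nat_lit 1) (.cons (.rel (nat_lit 25198593)) .nil)) .nil)) (.node .leaf (nat_lit 16015866978120567) (.br (nat_lit 2) (.cons (.br (nat_lit 3) (.cons (.rel (nat_lit 336068928)) .nil)) .nil)) .leaf))) (nat_lit 16015866979412728) (.br (nat_lit 1) (.cons (.br (nat_lit 2) (.cons (.rel (nat_lit 83894274)) .nil)) .nil)) (.node (.node (.node (.node .leaf (nat_lit 16015866980743824) (.br (nat_lit 0) (.cons (.br (nat_lit 4) (.cons (.rel (nat_lit 1077944322)) .nil))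 .nil)) .leaf) (nat_lit 16015866981293289) (.br (nat_lit 0) (.cons (.br (nat_lit 2) (.cons (.rel (nat_lit 71304336)) .nil)) .nil)) .leaf) (nat_lit 16015867712420600) (.br (nat_lit 0) (.cons (.br (nat_lit 1) (.cons (.rel (nat_lit 42205200)) .nil)) .nil)) (.node .leaf (nat_lit 16016459662637732) (.br (nat_lit 1) (.cons (.br (nat_lit 3) (.cons (.rel (nat_lit 285233664)) .nil)) .nil)) .leaf)) (nat_lit 16016459662638492) (.br (nat_lit 1) (.cons (.br (nat_lit 3) (.cons (.rel (nat_lit 553648200)) .nil)) .nil)) (.node (.node (.node .leaf (nat_lit 16016459665808120) (.br (nat_lit 0) (.cons (.br (nat_lit 6) (.cons (.rel (nat_lit 17184063498)) .nil)) .nil)) .leaf) (nat_lit 16016459700387228) (.br (nat_lit 0) (.cons (.br (nat_lit 2) (.cons (.rel (nat_lit 71327745)) .nil)) .nil)) .leaf) (nat_lit 16016462535735958) (.br (nat_lit 2) (.cons (.br (nat_lit 3) (.cons (.rel (nat_lit 671089668)) .nil)) .nil)) (.node .leaf (nat_lit 16016463579093752) (.br (nat_lit 0) (.cons (.br (nat_lit 2) (.cons (.rel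 (nat_lit 71307285)) .nil)) .nil)) .leaf))))

/-- refutations 102 -/
def e102 : EX := (.node (.node (.node .leaf (nat_lit 16019847764057314) (.br (nat_lit 0) (.cons (.br (nat_lit 6) (.cons (.rel (nat_lit 34368126981)) .nil)) .nil)) .leaf) (nat_lit 16019848011430775) (.br (nat_lit 0) (.cons (.br (nat_lit 3) (.cons (.rel (nat_lit 273694752)) .nil)) .nil)) .leaf) (nat_lit 16020111142639778) (.br (nat_lit 0) (.cons (.br (nat_lit 1) (.cons (.rel (nat_lit 37757952)) .nil)) .nil)) (.node (.node .leaf (nat_lit 16020114052029666) (.br (nat_lit 0) (.cons (.br (nat_lit 3) (.cons (.rel (nat_lit 273172548)) .nil)) .nil)) .leaf) (nat_lit 16021868841573112) (.br (nat_lit 1) (.cons (.br (nat_lit 2) (.cons (.rel (nat_lit 83894274)) .nil)) .nil)) .leaf))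

/-- refutations 104 -/
def e104 : EX := (.node (.node (.node (.node .leaf (nat_lit 16291441208007543) (.br (nat_lit 0) (.cons (.br (nat_lit 3) (.cons (.rel (nat_lit 276824130)) .nil)) .nil)) .leaf) (nat_lit 16292564063804079) (.br (nat_lit 0) (.cons (.br (nat_lit 1) (.cons (.rel (nat_lit 20976132)) .nil)) .nil)) .leaf) (nat_lit 16292564066321071) (.br (nat_lit 0) (.cons (.br (nat_lit 1) (.cons (.rel (nat_lit 25232400)) .nil)) .nil)) (.node (.node .leaf (nat_lit 16292829618337269) (.br (nat_lit 4) (.cons (.br (nat_lit 5) (.cons (.br (nat_lit 1) (.cons (.rel (nat_lit 8623490304)) (.cons (.rel (nat_lit 4328525832)) .nil))) .nil)) .nil)) .leaf) (nat_lit 16292829620609784) (.br (nat_lit 1) (.cons (.br (nat_lit 5) (.cons (.rel (nat_lit 4328525832)) .nil)) .nil)) .leaf)) (nat_lit 16292832357216562) (.br (nat_lit 2) (.cons (.br (nat_lit 5) (.cons (.rel (nat_lit 4362092676)) .nil)) .nil)) (.node (.node (.node .leaf (nat_lit 16292832357217781) (.br (nat_lit 2) (.cons (.br (nat_lit 5) (.cons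 (.rel (nat_lit 8657043780)) (.cons (.rel (nat_lit 4362076170)) .nil))) .nil)) .leaf) (nat_lit 16292832359284891) (.br (nat_lit 4) (.cons (.br (nat_lit 5) (.cons (.rel (nat_lit 5368741896)) .nil)) .nil)) .leaf) (nat_lit 16292835045203321) (.br (nat_lit 0) (.cons (.br (nat_lit 2) (.cons (.rel (nat_lit 71308290)) .nil)) .nil)) (.node .leaf (nat_lit 16296011051842343) (.br (nat_lit 0) (.cons (.br (nat_lit 3) (.cons (.rel (nat_lit 272647680)) .nil)) .nil)) .leaf)))

/-- refutations 105 -/
def e105 : EX := (.node (.node (.node (.node (.node .leaf (nat_lit 16297340087253752) (.br (nat_lit 0) (.cons (.br (nat_lit 1) (.cons (.rel (nat_lit 22028352)) .nil)) .nil)) .leaf) (nat_lit 16297344576793336) (.br (nat_lit 0) (.cons (.br (nat_lit 1) (.cons (.rel (nat_lit 22167552)) .nil)) .nil)) (.node .leaf (nat_lit 16297344761088306) (.br (nat_lit 0) (.cons (.br (nat_lit 2) (.cons (.rel (nat_lit 71311428)) .nil)) .nil)) .leaf)) (nat_lit 16297344761426226) (.br (nat_lit 2) (.cons (.br (nat_lit 5)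 (.cons (.rel (nat_lit 4362076170)) (.cons (.rel (nat_lit 4362077220)) .nil))) .nil)) (.node (.node .leaf (nat_lit 16297344763738418) (.br (nat_lit 0) (.cons (.br (nat_lit 2) (.cons (.rel (nat_lit 71827713)) .nil)) .nil)) .leaf) (nat_lit 16297344763953458) (.br (nat_lit 2) (.cons (.br (nat_lit 1) (.cons (.rel (nat_lit 83890320)) (.cons (.rel (nat_lit 83886177)) .nil))) .nil)) (.node .leaf (nat_lit 16297345201744054) (.br (nat_lit 0) (.cons (.br (nat_lit 1) (.cons (.rel (nat_lit 25171968)) .nil)) .nil)) .leaf))) (nat_lit 16298155377783671) (.br (nat_lit 0) (.cons (.br (nat_lit 4) (.cons (.rel (nat_lit 1077936225)) .nil)) .nil)) (.node (.node (.node .leaf (nat_lit 16298155378547575) (.br (nat_lit 0) (.cons (.br (nat_lit 4) (.cons (.rel (nat_lit 1077974016)) .nil)) .nil)) .leaf) (nat_lit 16298309996091422) (.br (nat_lit 0) (.cons (.br (nat_lit 6) (.cons (.rel (nat_lit 17184080004)) .nil)) .nil)) (.node .leaf (nat_lit 16298309996091523) (.br (nat_lit 2) (.cons (.br (nat_lit 1) (.cons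 (.rel (nat_lit 100663569)) (.cons (.br (nat_lit 3) (.cons (.br (nat_lit 5) (.cons (.rel (nat_lit 4362158112)) (.cons (.rel (nat_lit 4362097680)) (.cons (.rel (nat_lit 4312793094)) (.cons (.rel (nat_lit 8858371092)) .nil))))) (.cons (.rel (nat_lit 671170560)) (.cons (.rel (nat_lit 302006337)) (.cons (.rel (nat_lit 403177473)) .nil))))) (.cons (.rel (nat_lit 83894274)) (.cons (.rel (nat_lit 83894274)) .nil))))) (.cons (.br (nat_lit 4) (.cons (.rel (nat_lit 1141121088)) (.cons (.rel (nat_lit 1141121088)) .nil))) .nil))) .leaf)) (nat_lit 16298309996091574) (.br (nat_lit 2) (.cons (.br (nat_lit 5) (.cons (.rel (nat_lit 4362092676)) .nil)) .nil)) (.node (.node .leaf (nat_lit 16298309996092152) (.br (nat_lit 2) (.cons (.br (nat_lit 4) (.cons (.rel (nat_lit 1140850953)) (.cons (.rel (nat_lit 2214592581)) (.cons (.rel (nat_lit 1141179396)) .nil)))) .nil)) .leaf) (nat_lit 16298309996092769) (.br (nat_lit 5) (.cons (.br (nat_lit 0) (.cons (.rel (nat_lit 4300210248)) (.cons (.rel (nat_lit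 4299425025)) .nil))) .nil)) .leaf))) (nat_lit 16298309996092793) (.br (nat_lit 2) (.cons (.br (nat_lit 5) (.cons (.rel (nat_lit 4362097680)) .nil)) .nil)) (.node (.node (.node (.node .leaf (nat_lit 16298309996298270) (.br (nat_lit 0) (.cons (.br (nat_lit 1) (.cons (.rel (nat_lit 37748805)) .nil)) .nil)) .leaf) (nat_lit 16298309998549123) (.br (nat_lit 1) (.cons (.br (nat_lit 3) (.cons (.rel (nat_lit 285233664)) .nil)) .nil)) (.node .leaf (nat_lit 16298312734972059) (.br (nat_lit 0) (.cons (.br (nat_lit 4) (.cons (.rel (nat_lit 1078199808)) .nil)) .nil)) .leaf)) (nat_lit 16298312734972086) (.br (nat_lit 2) (.cons (.br (nat_lit 5) (.cons (.rel (nat_lit 4362118152)) (.cons (.rel (nat_lit 8724152325)) .nil))) .nil)) (.node (.node .leaf (nat_lit 16298312734973305) (.br (nat_lit 2) (.cons (.br (nat_lit 3) (.cons (.rel (nat_lit 335568960)) (.cons (.rel (nat_lit 335549505)) (.cons (.rel (nat_lit 335564817)) (.cons (.rel (nat_lit 335614080)) .nil))))) .nil)) .leaf) (nat_lit 16298312736160400)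 (.br (nat_lit 0) (.cons (.br (nat_lit 1) (.cons (.rel (nat_lit 20976132)) .nil)) .nil)) (.node .leaf (nat_lit 16298312737708919) (.br (nat_lit 5) (.cons (.br (nat_lit 0) (.cons (.rel (nat_lit 4299170304)) (.cons (.rel (nat_lit 4303355988)) .nil))) .nil)) .leaf))) (nat_lit 16298315209611395) (.br (nat_lit 2) (.cons (.br (nat_lit 5) (.cons (.rel (nat_lit 4362211329)) (.cons (.rel (nat_lit 4362158112)) (.cons (.br (nat_lit 3) (.cons (.rel (nat_lit 335564817)) (.cons (.rel (nat_lit 9127067652)) (.cons (.rel (nat_lit 4563666240)) .nil)))) .nil)))) .nil)) (.node (.node (.node .leaf (nat_lit 16298315209612024) (.br (nat_lit 2) (.cons (.br (nat_lit 4) (.cons (.rel (nat_lit 2214592581)) .nil)) .nil)) .leaf) (nat_lit 16298315210019123) (.br (nat_lit 0) (.cons (.br (nat_lit 1) (.cons (.rel (nat_lit 20976132)) .nil)) .nil)) (.node .leaf (nat_lit 16298315322857603) (.br (nat_lit 2) (.cons (.br (nat_lit 5) (.cons (.br (nat_lit 4) (.cons (.rel (nat_lit 5368713252)) (.cons (.rel (nat_lit 5368725570))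 .nil))) .nil)) .nil)) .leaf)) (nat_lit 16298315322858873) (.br (nat_lit 4) (.cons (.br (nat_lit 5) (.cons (.rel (nat_lit 10737434628)) .nil)) .nil)) (.node (.node .leaf (nat_lit 16298315423520899) (.br (nat_lit 0) (.cons (.br (nat_lit 2) (.cons (.rel (nat_lit 71327745)) .nil)) .nil)) .leaf) (nat_lit 16298315423521528) (.br (nat_lit 4) (.cons (.br (nat_lit 5) (.cons (.rel (nat_lit 5368709253)) .nil)) .nil)) .leaf))))

/-- refutations 106 -/
def e106 : EX := (.node (.node (.node .leaf (nat_lit 16301207545897716) (.br (nat_lit 1) (.cons (.br (nat_lit 3) (.cons (.rel (nat_lit 285745152)) .nil)) .nil)) .leaf) (nat_lit 16301319633197987) (.br (nat_lit 0) (.cons (.br (nat_lit 2) (.cons (.rel (nat_lit 71337984)) .nil)) .nil)) (.node .leaf (nat_lit 16301585919889539) (.br (nat_lit 0) (.cons (.br (nat_lit 1) (.cons (.rel (nat_lit 25182276)) (.cons (.rel (nat_lit 21495840)) .nil))) .nil)) .leaf)) (nat_lit 16303506906520312) (.br (nat_lit 2) (.cons (.br (nat_lit 5) (.cons (.rel (nat_lit 4362211329))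 (.cons (.rel (nat_lit 4362076170)) .nil))) .nil)) (.node (.node .leaf (nat_lit 16303506907759352) (.br (nat_lit 0) (.cons (.br (nat_lit 2) (.cons (.rel (nat_lit 71337984)) .nil)) .nil)) .leaf) (nat_lit 16303512234524827) (.br (nat_lit 2) (.cons (.br (nat_lit 4) (.cons (.rel (nat_lit 1207976004)) .nil)) .nil)) .leaf))

/-- refutations 108 -/
def e108 : EX := (.node (.node (.node (.node .leaf (nat_lit 16362933229006908) (.br (nat_lit 0) (.cons (.br (nat_lit 1) (.cons (.rel (nat_lit 25171968)) .nil)) .nil)) .leaf) (nat_lit 16363201068524780) (.br (nat_lit 0) (.cons (.br (nat_lit 2) (.cons (.rel (nat_lit 71308290)) (.cons (.rel (nat_lit 71327745)) .nil))) (.cons (.br (nat_lit 6) (.cons (.rel (nat_lit 17184064548)) (.cons (.rel (nat_lit 34368126981)) .nil))) .nil))) .leaf) (nat_lit 16363201068524827) (.br (nat_lit 6) (.cons (.br (nat_lit 2) (.cons (.rel (nat_lit 34426852356)) (.cons (.rel (nat_lit 17247310848)) .nil))) .nil)) (.node .leaf (nat_lit 16363201068525057) (.br (nat_lit 0)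 (.cons (.br (nat_lit 3) (.cons (.rel (nat_lit 276840456)) .nil)) .nil)) .leaf)) (nat_lit 16363201069036905) (.br (nat_lit 0) (.cons (.br (nat_lit 1) (.cons (.rel (nat_lit 25198593)) .nil)) .nil)) (.node (.node (.node .leaf (nat_lit 16363201069036952) (.br (nat_lit 0) (.cons (.br (nat_lit 1) (.cons (.rel (nat_lit 21495840)) .nil)) .nil)) .leaf) (nat_lit 16363201070357267) (.br (nat_lit 1) (.cons (.br (nat_lit 2) (.cons (.rel (nat_lit 83886177)) .nil)) .nil)) .leaf) (nat_lit 16366164607803544) (.br (nat_lit 0) (.cons (.br (nat_lit 4) (.cons (.rel (nat_lit 1077973014)) .nil)) .nil)) (.node .leaf (nat_lit 16366582916764404) (.br (nat_lit 0) (.cons (.br (nat_lit 1) (.cons (.rel (nat_lit 20976132)) .nil)) .nil)) .leaf)))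

/-- refutations 109 -/
def e109 : EX := (.node (.node (.node .leaf (nat_lit 16368486385201279) (.br (nat_lit 0) (.cons (.br (nat_lit 2) (.cons (.rel (nat_lit 71337984)) .nil)) .nil)) .leaf) (nat_lit 16368679893711659) (.br (nat_lit 0) (.cons (.br (nat_lit 2) (.cons (.rel (nat_lit 71307285)) .nil)) .nil)) .leaf) (nat_lit 16373017258782897) (.br (nat_lit 0) (.cons (.br (nat_lit 1) (.cons (.rel (nat_lit 21495840)) .nil)) .nil)) (.node (.node .leaf (nat_lit 16373017258783380) (.br (nat_lit 0) (.cons (.br (nat_lit 1) (.cons (.rel (nat_lit 42205200)) .nil)) .nil)) .leaf) (nat_lit 16374155753093752) (.br (nat_lit 5) (.cons (.br (nat_lit 6) (.cons (.rel (nat_lit 21474844704)) .nil)) .nil)) .leaf))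

/-- refutations 110 -/
def e110 : EX := (.node (.node (.node (.node .leaf (nat_lit 14285118144751751) (.br (nat_lit 1) (.cons (.br (nat_lit 6) (.cons (.rel (nat_lit 17196650532)) .nil)) .nil)) .leaf) (nat_lit 14291831380064562) (.br (nat_lit 0) (.cons (.br (nat_lit 2) (.cons (.rel (nat_lit 75563268)) .nil)) .nil)) (.node .leaf (nat_lit 14291831381293362) (.br (nat_lit 0) (.cons (.br (nat_lit 2) (.cons (.rel (nat_lit 75563268)) .nil)) .nil)) .leaf)) (nat_lit 14291833911874296) (.br (nat_lit 0) (.cons (.br (nat_lit 1) (.cons (.rel (nat_lit 25171968)) .nil)) .nil)) (.node (.node .leaf (nat_lit 14298255395465393) (.br (nat_lit 5) (.cons (.br (nat_lit 1) (.cons (.br (nat_lit 4) (.cons (.rel (nat_lit 5368713252)) (.cons (.br (nat_lit 3) (.cons (.br (nat_lit 0) (.cons (.rel (nat_lit 4303355988)) (.cons (.rel (nat_lit 8598327552)) (.cons (.rel (nat_lit 276832272)) (.cons (.rel (nat_lit 276956160)) .nil))))) (.cons (.rel (nat_lit 4563681552)) (.cons (.rel (nat_lit 4563681552)) .nil))))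 .nil))) (.cons (.rel (nat_lit 4328525832)) .nil))) .nil)) .leaf) (nat_lit 14298255395466593) (.br (nat_lit 1) (.cons (.br (nat_lit 4) (.cons (.rel (nat_lit 1090519080)) .nil)) .nil)) .leaf)) (nat_lit 14298255395466741) (.br (nat_lit 2) (.cons (.br (nat_lit 5) (.cons (.rel (nat_lit 8724152325)) .nil)) .nil)) (.node (.node (.node .leaf (nat_lit 14298255398076593) (.br (nat_lit 1) (.cons (.br (nat_lit 2) (.cons (.rel (nat_lit 83886177)) .nil)) .nil)) .leaf) (nat_lit 14298255398077793) (.br (nat_lit 1) (.cons (.br (nat_lit 2) (.cons (.rel (nat_lit 83886177)) .nil)) .nil)) (.node .leaf (nat_lit 14298255398574986) (.br (nat_lit 3) (.cons (.br (nat_lit 6) (.cons (.rel (nat_lit 17448304713)) .nil)) .nil)) .leaf)) (nat_lit 14298260743202993) (.br (nat_lit 2) (.cons (.br (nat_lit 1) (.cons (.br (nat_lit 5) (.cons (.rel (nat_lit 4328554512)) (.cons (.rel (nat_lit 4328554512)) .nil))) (.cons (.rel (nat_lit 167776257)) .nil))) .nil)) (.node (.node .leaf (nat_lit 14298260743204193) (.br (nat_lit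 4) (.cons (.br (nat_lit 5) (.cons (.rel (nat_lit 5368713252)) .nil)) .nil)) .leaf) (nat_lit 14298260746312586) (.br (nat_lit 0) (.cons (.br (nat_lit 2) (.cons (.rel (nat_lit 71304336)) .nil)) .nil)) .leaf)))

/-- refutations 111 -/
def e111 : EX := (.node (.node .leaf (nat_lit 21996082449083000) (.br (nat_lit 0) (.cons (.br (nat_lit 2) (.cons (.rel (nat_lit 71369736)) .nil)) .nil)) .leaf) (nat_lit 21996085468982554) (.br (nat_lit 0) (.cons (.br (nat_lit 1) (.cons (.rel (nat_lit 22024209)) .nil)) .nil)) .leaf)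

/-- refutations 113 -/
def e113 : EX := (.node (.node (.node .leaf (nat_lit 22095829385461891) (.br (nat_lit 0) (.cons (.br (nat_lit 3) (.cons (.rel (nat_lit 272647680)) .nil)) .nil)) .leaf) (nat_lit 22096925841490556) (.br (nat_lit 1) (.cons (.br (nat_lit 2) (.cons (.rel (nat_lit 83894274)) .nil)) .nil)) (.node .leaf (nat_lit 22097160093827708) (.br (nat_lit 2) (.cons (.br (nat_lit 5) (.cons (.rel (nat_lit 8724152325)) .nil)) .nil)) .leaf)) (nat_lit 22097160714584246) (.br (nat_lit 2) (.cons (.br (nat_lit 5) (.cons (.rel (nat_lit 4362077220)) .nil)) .nil)) (.node (.node .leaf (nat_lit 22102762003384626) (.br (nat_lit 0) (.cons (.br (nat_lit 3) (.cons (.rel (nat_lit 541069344)) .nil)) .nil)) .leaf) (nat_lit 22102766078395128) (.br (nat_lit 0) (.cons (.br (nat_lit 3) (.cons (.rel (nat_lit 276832272)) .nil)) .nil)) .leaf))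

/-- refutations 114 -/
def e114 : EX := (.node (.node (.node (.node .leaf (nat_lit 22107662941167922) (.br (nat_lit 4) (.cons (.br (nat_lit 5) (.cons (.br (nat_lit 1) (.cons (.rel (nat_lit 8606720004)) (.cons (.rel (nat_lit 4312793094)) .nil))) .nil)) .nil)) .leaf) (nat_lit 22107662941168376) (.br (nat_lit 3) (.cons (.br (nat_lit 2) (.cons (.rel (nat_lit 671170560)) (.cons (.rel (nat_lit 335545362)) .nil))) .nil)) (.node .leaf (nat_lit 22107829389511316) (.br (nat_lit 0) (.cons (.br (nat_lit 1) (.cons (.rel (nat_lit 20976132)) .nil)) .nil)) .leaf)) (nat_lit 22108075255651681) (.br (nat_lit 2) (.cons (.br (nat_lit 5) (.cons (.rel (nat_lit 4430299137)) .nil)) .nil)) (.node (.node .leaf (nat_lit 22108129437436210) (.br (nat_lit 0) (.cons (.br (nat_lit 2) (.cons (.rel (nat_lit 71450628)) .nil)) .nil)) .leaf) (nat_lit 22109160229566770) (.br (nat_lit 4) (.cons (.br (nat_lit 5) (.cons (.rel (nat_lit 5368709253)) .nil)) .nil)) .leaf)) (nat_lit 22109160229567251) (.br (nat_lit 2) (.cons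 (.br (nat_lit 4) (.cons (.rel (nat_lit 1140986112)) .nil)) .nil)) (.node (.node (.node .leaf (nat_lit 22109160231109368) (.br (nat_lit 1) (.cons (.br (nat_lit 5) (.cons (.rel (nat_lit 4312809600)) (.cons (.rel (nat_lit 4328525832)) .nil))) .nil)) .leaf) (nat_lit 22109160231993526) (.br (nat_lit 2) (.cons (.br (nat_lit 5) (.cons (.rel (nat_lit 4362076170)) .nil)) .nil)) .leaf) (nat_lit 22109160232442643) (.br (nat_lit 0) (.cons (.br (nat_lit 2) (.cons (.rel (nat_lit 71368722)) .nil)) .nil)) (.node (.node .leaf (nat_lit 22109166177089842) (.br (nat_lit 4) (.cons (.br (nat_lit 1) (.cons (.rel (nat_lit 1090539540)) (.cons (.rel (nat_lit 1090520085)) .nil))) .nil)) .leaf) (nat_lit 22109166179926827) (.br (nat_lit 0) (.cons (.br (nat_lit 2) (.cons (.rel (nat_lit 71337984)) .nil)) .nil)) .leaf)))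

/-- refutations 115 -/
def e115 : EX := (.node (.node (.node (.node (.node .leaf (nat_lit 22184886471500536) (.br (nat_lit 0) (.cons (.br (nat_lit 2) (.cons (.rel (nat_lit 71308290)) .nil)) .nil)) .leaf) (nat_lit 22185264330824467) (.br (nat_lit 0) (.cons (.br (nat_lit 1) (.cons (.rel (nat_lit 37757952)) (.cons (.rel (nat_lit 25198593)) .nil))) .nil)) .leaf) (nat_lit 22185350330770208) (.br (nat_lit 0) (.cons (.br (nat_lit 2) (.cons (.rel (nat_lit 142607430)) .nil)) .nil)) (.node (.node .leaf (nat_lit 22190724776289016) (.br (nat_lit 1) (.cons (.br (nat_lit 4) (.cons (.rel (nat_lit 1090521090)) .nil)) .nil)) .leaf) (nat_lit 22190724777810680) (.br (nat_lit 1) (.cons (.br (nat_lit 2) (.cons (.rel (nat_lit 83955720)) .nil)) .nil)) .leaf)) (nat_lit 22190724797393652) (.br (nat_lit 2) (.cons (.br (nat_lit 5) (.cons (.rel (nat_lit 4362082368)) .nil)) .nil)) (.node (.node (.node .leaf (nat_lit 22190724798782200) (.br (nat_lit 0) (.cons (.br (nat_lit 3) (.cons (.rel (nat_lit 272647680))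 .nil)) .nil)) .leaf) (nat_lit 22190727627266835) (.br (nat_lit 2) (.cons (.br (nat_lit 1) (.cons (.rel (nat_lit 83890320)) (.cons (.rel (nat_lit 83886177)) .nil))) .nil)) .leaf) (nat_lit 22190727627325595) (.br (nat_lit 0) (.cons (.br (nat_lit 1) (.cons (.rel (nat_lit 37757952)) .nil)) .nil)) (.node .leaf (nat_lit 22190727627370622) (.br (nat_lit 0) (.cons (.br (nat_lit 2) (.cons (.rel (nat_lit 71304336)) .nil)) .nil)) .leaf))) (nat_lit 22190727627391107) (.br (nat_lit 2) (.cons (.br (nat_lit 4) (.cons (.rel (nat_lit 1140934917)) .nil)) .nil)) (.node (.node (.node (.node .leaf (nat_lit 22190727628415736) (.br (nat_lit 0) (.cons (.br (nat_lit 1) (.cons (.rel (nat_lit 37748805)) (.cons (.rel (nat_lit 20976132)) .nil))) .nil)) .leaf) (nat_lit 22190727628544760) (.br (nat_lit 2) (.cons (.br (nat_lit 0) (.cons (.rel (nat_lit 71337984)) (.cons (.rel (nat_lit 71308290)) .nil))) .nil)) .leaf) (nat_lit 22190727628565240) (.br (nat_lit 1) (.cons (.br (nat_lit 5) (.cons (.rel (nat_lit 4312285185))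 .nil)) .nil)) (.node .leaf (nat_lit 22190727629327096) (.br (nat_lit 2) (.cons (.br (nat_lit 3) (.cons (.rel (nat_lit 671089668)) .nil)) .nil)) .leaf)) (nat_lit 22190727629683575) (.br (nat_lit 1) (.cons (.br (nat_lit 3) (.cons (.rel (nat_lit 285214209)) .nil)) .nil)) (.node (.node (.node .leaf (nat_lit 22190727629824800) (.br (nat_lit 0) (.cons (.br (nat_lit 1) (.cons (.rel (nat_lit 20976132)) (.cons (.rel (nat_lit 21037569)) .nil))) .nil)) .leaf) (nat_lit 22190727629926555) (.br (nat_lit 1) (.cons (.br (nat_lit 2) (.cons (.rel (nat_lit 83886177)) .nil)) .nil)) .leaf) (nat_lit 22190727629931932) (.br (nat_lit 0) (.cons (.br (nat_lit 2) (.cons (.rel (nat_lit 71304336)) .nil)) .nil)) (.node .leaf (nat_lit 22190727629937400) (.br (nat_lit 6) (.cons (.br (nat_lit 0) (.cons (.rel (nat_lit 34368126981)) (.cons (.rel (nat_lit 34368126981)) .nil))) .nil)) .leaf))))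

/-- refutations 116 -/
def e116 : EX := (.node (.node (.node (.node (.node .leaf (nat_lit 22194717232210826) (.br (nat_lit 0) (.cons (.br (nat_lit 2) (.cons (.rel (nat_lit 71308290)) .nil)) .nil)) .leaf) (nat_lit 22194717232513179) (.br (nat_lit 0) (.cons (.br (nat_lit 2) (.cons (.rel (nat_lit 71369736)) .nil)) .nil)) .leaf) (nat_lit 22194719116526328) (.br (nat_lit 0) (.cons (.br (nat_lit 1) (.cons (.rel (nat_lit 25198593)) .nil)) .nil)) (.node (.node .leaf (nat_lit 22194719828291061) (.br (nat_lit 1) (.cons (.br (nat_lit 4) (.cons (.rel (nat_lit 2181038100)) (.cons (.rel (nat_lit 1090520085)) .nil))) .nil)) .leaf) (nat_lit 22194719830061716) (.br (nat_lit 1) (.cons (.br (nat_lit 4) (.cons (.rel (nat_lit 1090585665)) .nil)) .nil)) .leaf)) (nat_lit 22194719831095451) (.br (nat_lit 1) (.cons (.br (nat_lit 4) (.cons (.rel (nat_lit 1090585665)) .nil)) .nil)) (.node (.node (.node .leaf (nat_lit 22194719831096821) (.br (nat_lit 1) (.cons (.br (nat_lit 4) (.cons (.rel (nat_lit 2181103680))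 (.cons (.rel (nat_lit 1090585665)) .nil))) .nil)) .leaf) (nat_lit 22194721946413716) (.br (nat_lit 1) (.cons (.br (nat_lit 2) (.cons (.rel (nat_lit 100663569)) (.cons (.rel (nat_lit 83894274)) .nil))) .nil)) .leaf) (nat_lit 22194721946413843) (.br (nat_lit 2) (.cons (.br (nat_lit 4) (.cons (.rel (nat_lit 1140883776)) .nil)) .nil)) (.node (.node .leaf (nat_lit 22194721946453398) (.br (nat_lit 2) (.cons (.br (nat_lit 4) (.cons (.rel (nat_lit 2214608898)) (.cons (.rel (nat_lit 1207992321)) .nil))) .nil)) .leaf) (nat_lit 22194721946955902) (.br (nat_lit 2) (.cons (.br (nat_lit 3) (.cons (.rel (nat_lit 335545362)) .nil)) .nil)) .leaf))) (nat_lit 22194721946956587) (.br (nat_lit 0) (.cons (.br (nat_lit 2) (.cons (.rel (nat_lit 142623744)) .nil)) .nil)) (.node (.node (.node (.node .leaf (nat_lit 22194721946977016) (.br (nat_lit 2) (.cons (.br (nat_lit 3) (.cons (.rel (nat_lit 335614080)) (.cons (.rel (nat_lit 335614080)) .nil))) .nil)) .leaf) (nat_lit 22194721947681528) (.br (nat_lit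 2) (.cons (.br (nat_lit 4) (.cons (.rel (nat_lit 1140850953)) (.cons (.rel (nat_lit 1140850953)) (.cons (.rel (nat_lit 1140883776)) .nil)))) .nil)) .leaf) (nat_lit 22194721947978488) (.br (nat_lit 0) (.cons (.br (nat_lit 5) (.cons (.rel (nat_lit 8598601728)) .nil)) .nil)) (.node (.node .leaf (nat_lit 22194721949257788) (.br (nat_lit 0) (.cons (.br (nat_lit 2) (.cons (.rel (nat_lit 71311428)) .nil)) .nil)) .leaf) (nat_lit 22194721949522680) (.br (nat_lit 2) (.cons (.br (nat_lit 0) (.cons (.rel (nat_lit 138969093)) (.cons (.rel (nat_lit 71308290)) .nil))) .nil)) .leaf)) (nat_lit 22194721949523350) (.br (nat_lit 0) (.cons (.br (nat_lit 3) (.cons (.rel (nat_lit 276824130)) (.cons (.rel (nat_lit 276824130)) (.cons (.rel (nat_lit 276824130)) .nil)))) .nil)) (.node (.node (.node .leaf (nat_lit 22195790363242651) (.br (nat_lit 2) (.cons (.br (nat_lit 4) (.cons (.rel (nat_lit 2214601728)) .nil)) .nil)) .leaf) (nat_lit 22195790364580600) (.br (nat_lit 0) (.cons (.br (nat_lit 3) (.cons (.rel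 (nat_lit 276840456)) .nil)) .nil)) .leaf) (nat_lit 22196073917831345) (.br (nat_lit 0) (.cons (.br (nat_lit 4) (.cons (.rel (nat_lit 1077974016)) (.cons (.rel (nat_lit 1077974016)) .nil))) .nil)) (.node (.node .leaf (nat_lit 22196073919113972) (.br (nat_lit 0) (.cons (.br (nat_lit 2) (.cons (.rel (nat_lit 71337984)) .nil)) .nil)) .leaf) (nat_lit 22197152901012216) (.br (nat_lit 0) (.cons (.br (nat_lit 2) (.cons (.rel (nat_lit 71450628)) .nil)) .nil)) .leaf))))

/-- refutations 117 -/
def e117 : EX := (.node .leaf (nat_lit 16409322945315743) (.br (nat_lit 0) (.cons (.br (nat_lit 1) (.cons (.rel (nat_lit 21037569)) .nil)) .nil)) .leaf)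

/-- refutations 118 -/
def e118 : EX := (.node (.node (.node .leaf (nat_lit 22535656996889852) (.br (nat_lit 1) (.cons (.br (nat_lit 3) (.cons (.rel (nat_lit 285213204)) .nil)) .nil)) .leaf) (nat_lit 22537114148431100) (.br (nat_lit 1) (.cons (.br (nat_lit 4) (.cons (.rel (nat_lit 1090519080)) .nil)) .nil)) (.node .leaf (nat_lit 22537114626581756) (.br (nat_lit 2) (.cons (.br (nat_lit 4) (.cons (.rel (nat_lit 2214601728)) .nil)) .nil)) .leaf)) (nat_lit 22538007979779324) (.br (nat_lit 2) (.cons (.br (nat_lit 1) (.cons (.rel (nat_lit 83890320)) (.cons (.rel (nat_lit 83890320)) .nil))) .nil)) (.node (.node .leaf (nat_lit 22538007981361963) (.br (nat_lit 0) (.cons (.br (nat_lit 1) (.cons (.rel (nat_lit 25183329)) .nil)) .nil)) .leaf) (nat_lit 22538007981529899) (.br (nat_lit 1) (.cons (.br (nat_lit 3) (.cons (.rel (nat_lit 285213204)) .nil)) .nil)) (.node .leaf (nat_lit 22541443949417724) (.br (nat_lit 0) (.cons (.br (nat_lit 5) (.cons (.rel (nat_lit 8594195457)) .nil)) .nil)) .leaf)))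

/-- refutations 119 -/
def e119 : EX := (.node (.node (.node (.node (.node .leaf (nat_lit 22546766614952861) (.br (nat_lit 0) (.cons (.br (nat_lit 2) (.cons (.rel (nat_lit 72352128)) .nil)) .nil)) .leaf) (nat_lit 22546769233959168) (.br (nat_lit 4) (.cons (.br (nat_lit 1) (.cons (.rel (nat_lit 2181038100)) (.cons (.rel (nat_lit 1091059968)) .nil))) .nil)) .leaf) (nat_lit 22546769234912508) (.br (nat_lit 2) (.cons (.br (nat_lit 1) (.cons (.rel (nat_lit 83888196)) (.cons (.br (nat_lit 5) (.cons (.rel (nat_lit 4362149892)) (.cons (.rel (nat_lit 4312794144)) (.cons (.rel (nat_lit 4362077220)) .nil)))) (.cons (.rel (nat_lit 167776257)) .nil)))) (.cons (.br (nat_lit 1) (.cons (.rel (nat_lit 83894274)) (.cons (.rel (nat_lit 83886177)) (.cons (.rel (nat_lit 83888196)) .nil)))) .nil))) (.node (.node .leaf (nat_lit 22546769235113486) (.br (nat_lit 0) (.cons (.br (nat_lit 2) (.cons (.rel (nat_lit 71307285)) .nil)) .nil)) .leaf) (nat_lit 22546769235176235) (.br (nat_lit 4) (.cons (.br (nat_lit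 1) (.cons (.rel (nat_lit 1090519080)) (.cons (.rel (nat_lit 1090585665)) .nil))) .nil)) .leaf)) (nat_lit 22546769235176961) (.br (nat_lit 2) (.cons (.br (nat_lit 5) (.cons (.rel (nat_lit 4362149892)) (.cons (.rel (nat_lit 4362077220)) .nil))) .nil)) (.node (.node (.node .leaf (nat_lit 22546769708866813) (.br (nat_lit 0) (.cons (.br (nat_lit 4) (.cons (.rel (nat_lit 1078005768)) (.cons (.rel (nat_lit 1077936225)) .nil))) (.cons (.br (nat_lit 4) (.cons (.rel (nat_lit 1077944322)) (.cons (.rel (nat_lit 2155876353)) .nil))) .nil))) .leaf) (nat_lit 22546769713063164) (.br (nat_lit 5) (.cons (.br (nat_lit 1) (.cons (.rel (nat_lit 8606720004)) (.cons (.rel (nat_lit 8623490304)) (.cons (.rel (nat_lit 4312285185)) .nil)))) (.cons (.br (nat_lit 1) (.cons (.rel (nat_lit 8606728224)) (.cons (.rel (nat_lit 4312011009)) (.cons (.rel (nat_lit 8606712912)) .nil)))) .nil))) .leaf) (nat_lit 22546772371298481) (.br (nat_lit 2) (.cons (.br (nat_lit 3) (.cons (.rel (nat_lit 335545362)) .nil)) .nil))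 (.node (.node .leaf (nat_lit 22546772371298560) (.br (nat_lit 3) (.cons (.br (nat_lit 4) (.cons (.rel (nat_lit 1342177440)) .nil)) .nil)) .leaf) (nat_lit 22546772372251900) (.br (nat_lit 3) (.cons (.br (nat_lit 1) (.cons (.rel (nat_lit 286261281)) (.cons (.rel (nat_lit 285213204)) .nil))) .nil)) .leaf))) (nat_lit 22546772372567446) (.br (nat_lit 4) (.cons (.br (nat_lit 1) (.cons (.rel (nat_lit 2181039105)) (.cons (.rel (nat_lit 2181103680)) .nil))) .nil)) (.node (.node (.node (.node .leaf (nat_lit 22546772372729084) (.br (nat_lit 0) (.cons (.br (nat_lit 1) (.cons (.rel (nat_lit 21495840)) (.cons (.rel (nat_lit 42205200)) .nil))) (.cons (.br (nat_lit 1) (.cons (.rel (nat_lit 22028352)) (.cons (.rel (nat_lit 22024209)) .nil))) .nil))) .leaf) (nat_lit 22546772372729238) (.br (nat_lit 0) (.cons (.br (nat_lit 4) (.cons (.rel (nat_lit 1077940368)) .nil)) .nil)) .leaf) (nat_lit 22546772372731288) (.br (nat_lit 0) (.cons (.br (nat_lit 1) (.cons (.rel (nat_lit 20976132)) .nil)) .nil)) (.node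 (.node .leaf (nat_lit 22546772373549867) (.br (nat_lit 0) (.cons (.br (nat_lit 2) (.cons (.rel (nat_lit 71307285)) .nil)) .nil)) .leaf) (nat_lit 22546772373833880) (.br (nat_lit 1) (.cons (.br (nat_lit 4) (.cons (.rel (nat_lit 1090519080)) .nil)) .nil)) .leaf)) (nat_lit 22546772373834539) (.br (nat_lit 1) (.cons (.br (nat_lit 4) (.cons (.rel (nat_lit 2181038100)) (.cons (.rel (nat_lit 1090519080)) .nil))) .nil)) (.node (.node (.node .leaf (nat_lit 22546772374002475) (.br (nat_lit 1) (.cons (.br (nat_lit 3) (.cons (.rel (nat_lit 285213204)) .nil)) .nil)) .leaf) (nat_lit 22548483961597211) (.br (nat_lit 0) (.cons (.br (nat_lit 1) (.cons (.rel (nat_lit 25232400)) .nil)) .nil)) .leaf) (nat_lit 22548483964656403) (.br (nat_lit 1) (.cons (.br (nat_lit 2) (.cons (.rel (nat_lit 83890320)) .nil)) .nil)) (.node .leaf (nat_lit 22548990767764732) (.br (nat_lit 0) (.cons (.br (nat_lit 1) (.cons (.rel (nat_lit 22028352)) .nil)) .nil)) .leaf))))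

/-- refutations 120 -/
def e120 : EX := (.node (.node .leaf (nat_lit 22520466635856632) (.br (nat_lit 1) (.cons (.br (nat_lit 2) (.cons (.rel (nat_lit 167776257)) .nil)) .nil)) .leaf) (nat_lit 22523860353309949) (.br (nat_lit 4) (.cons (.br (nat_lit 2) (.cons (.rel (nat_lit 2214601728)) (.cons (.rel (nat_lit 1207965696)) (.cons (.rel (nat_lit 1207965696)) .nil)))) .nil)) (.node .leaf (nat_lit 22531419314391322) (.br (nat_lit 1) (.cons (.br (nat_lit 3) (.cons (.rel (nat_lit 285213204)) (.cons (.rel (nat_lit 286263300)) .nil))) .nil)) .leaf))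

/-- refutations 121 -/
def e121 : EX := (.node (.node (.node (.node (.node .leaf (nat_lit 23081011367207837) (.br (nat_lit 2) (.cons (.br (nat_lit 3) (.cons (.rel (nat_lit 335545362)) .nil)) .nil)) .leaf) (nat_lit 23081208418764935) (.br (nat_lit 0) (.cons (.br (nat_lit 2) (.cons (.rel (nat_lit 71307285)) .nil)) .nil)) .leaf) (nat_lit 23082023016223995) (.br (nat_lit 1) (.cons (.br (nat_lit 2) (.cons (.rel (nat_lit 167776257)) .nil)) .nil)) (.node .leaf (nat_lit 23082025238386865) (.br (nat_lit 0) (.cons (.br (nat_lit 3) (.cons (.rel (nat_lit 541097988)) .nil)) .nil)) .leaf)) (nat_lit 23082027730621691) (.br (nat_lit 3) (.cons (.br (nat_lit 6) (.cons (.rel (nat_lit 17448321030)) .nil)) .nil)) (.node (.node .leaf (nat_lit 23082027730625788) (.br (nat_lit 0) (.cons (.br (nat_lit 5) (.cons (.rel (nat_lit 4299180546)) (.cons (.rel (nat_lit 4299425025)) .nil))) .nil)) .leaf) (nat_lit 23082331079934263) (.br (nat_lit 0) (.cons (.br (nat_lit 1) (.cons (.rel (nat_lit 37757952)) .nil))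 .nil)) (.node .leaf (nat_lit 23082331099179795) (.br (nat_lit 1) (.cons (.br (nat_lit 3) (.cons (.rel (nat_lit 285745152)) .nil)) .nil)) .leaf))) (nat_lit 23082331099431192) (.br (nat_lit 0) (.cons (.br (nat_lit 1) (.cons (.rel (nat_lit 21250308)) .nil)) .nil)) (.node (.node (.node .leaf (nat_lit 23082331101665957) (.br (nat_lit 0) (.cons (.br (nat_lit 2) (.cons (.rel (nat_lit 71337984)) .nil)) .nil)) .leaf) (nat_lit 23083147897878589) (.br (nat_lit 0) (.cons (.br (nat_lit 4) (.cons (.rel (nat_lit 1078034448)) .nil)) .nil)) (.node .leaf (nat_lit 23086382826457370) (.br (nat_lit 3) (.cons (.br (nat_lit 4) (.cons (.rel (nat_lit 1342182408)) .nil)) .nil)) .leaf)) (nat_lit 23086382827531127) (.br (nat_lit 0) (.cons (.br (nat_lit 2) (.cons (.rel (nat_lit 71827713)) .nil)) .nil)) (.node (.node .leaf (nat_lit 23086382827716085) (.br (nat_lit 0) (.cons (.br (nat_lit 2) (.cons (.rel (nat_lit 71337984)) .nil)) .nil)) .leaf) (nat_lit 23086531556417847) (.br (nat_lit 0) (.cons (.br (nat_lit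 3) (.cons (.rel (nat_lit 273219600)) (.cons (.rel (nat_lit 272892162)) .nil))) .nil)) (.node .leaf (nat_lit 23086535430380427) (.br (nat_lit 0) (.cons (.br (nat_lit 1) (.cons (.rel (nat_lit 21250308)) .nil)) .nil)) .leaf))))

/-- refutations 122 -/
def e122 : EX := (.node (.node (.node (.node (.node (.node (.node .leaf (nat_lit 23087926264785656) (.br (nat_lit 0) (.cons (.br (nat_lit 3) (.cons (.rel (nat_lit 273679440)) .nil)) .nil)) .leaf) (nat_lit 23087926266026295) (.br (nat_lit 0) (.cons (.br (nat_lit 1) (.cons (.rel (nat_lit 21037569)) .nil)) .nil)) .leaf) (nat_lit 23087926526122744) (.br (nat_lit 0) (.cons (.br (nat_lit 6) (.cons (.rel (nat_lit 17184063498)) .nil)) .nil)) (.node (.node .leaf (nat_lit 23087929014369641) (.br (nat_lit 2) (.cons (.br (nat_lit 3) (.cons (.rel (nat_lit 335546376)) .nil)) .nil)) .leaf) (nat_lit 23087929014369783) (.br (nat_lit 0) (.cons (.br (nat_lit 6) (.cons (.rel (nat_lit 17184137220)) .nil)) .nil)) .leaf)) (nat_lit 23087929014420243) (.br (nat_lit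 0) (.cons (.br (nat_lit 1) (.cons (.rel (nat_lit 21037569)) .nil)) .nil)) (.node (.node (.node .leaf (nat_lit 23087929014469368) (.br (nat_lit 1) (.cons (.br (nat_lit 5) (.cons (.rel (nat_lit 4311747072)) .nil)) .nil)) .leaf) (nat_lit 23087929014624567) (.br (nat_lit 3) (.cons (.br (nat_lit 0) (.cons (.rel (nat_lit 541132800)) (.cons (.rel (nat_lit 545263893)) (.cons (.rel (nat_lit 272892162)) .nil)))) .nil)) .leaf) (nat_lit 23087929014665492) (.br (nat_lit 0) (.cons (.br (nat_lit 2) (.cons (.rel (nat_lit 142606425)) .nil)) .nil)) (.node .leaf (nat_lit 23087929014888630) (.br (nat_lit 0) (.cons (.br (nat_lit 1) (.cons (.rel (nat_lit 20976132)) (.cons (.rel (nat_lit 21495840)) (.cons (.rel (nat_lit 22086660)) .nil)))) (.cons (.br (nat_lit 3) (.cons (.rel (nat_lit 272647680)) (.cons (.rel (nat_lit 273686532)) .nil))) .nil))) .leaf))) (nat_lit 23087929015635297) (.br (nat_lit 0) (.cons (.br (nat_lit 1) (.cons (.rel (nat_lit 22024209)) .nil)) .nil)) (.node (.node (.node (.node .leaf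 (nat_lit 23087929015657755) (.br (nat_lit 1) (.cons (.br (nat_lit 5) (.cons (.rel (nat_lit 4312809600)) .nil)) .nil)) .leaf) (nat_lit 23087929015686395) (.br (nat_lit 6) (.cons (.br (nat_lit 0) (.cons (.rel (nat_lit 34368126981)) (.cons (.rel (nat_lit 34368126981)) (.cons (.rel (nat_lit 17184198657)) (.cons (.br (nat_lit 1) (.cons (.rel (nat_lit 17196713988)) (.cons (.rel (nat_lit 22167552)) (.cons (.rel (nat_lit 22086660)) .nil)))) .nil))))) .nil)) .leaf) (nat_lit 23087929015686655) (.br (nat_lit 2) (.cons (.br (nat_lit 3) (.cons (.rel (nat_lit 335545362)) .nil)) .nil)) (.node (.node .leaf (nat_lit 23087929015942645) (.br (nat_lit 2) (.cons (.br (nat_lit 0) (.cons (.rel (nat_lit 71309352)) (.cons (.rel (nat_lit 71304336)) (.cons (.rel (nat_lit 71327745)) (.cons (.rel (nat_lit 71337984)) .nil))))) .nil)) .leaf) (nat_lit 23087929016156286) (.br (nat_lit 0) (.cons (.br (nat_lit 2) (.cons (.rel (nat_lit 142623744)) .nil)) .nil)) .leaf)) (nat_lit 23087929016157685) (.br (nat_lit 1)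 (.cons (.br (nat_lit 3) (.cons (.rel (nat_lit 285213204)) .nil)) .nil)) (.node (.node (.node .leaf (nat_lit 23087929016220908) (.br (nat_lit 0) (.cons (.br (nat_lit 1) (.cons (.rel (nat_lit 37748805)) .nil)) .nil)) .leaf) (nat_lit 23087929016221055) (.br (nat_lit 1) (.cons (.br (nat_lit 2) (.cons (.rel (nat_lit 84149760)) .nil)) .nil)) .leaf) (nat_lit 23087929016248602) (.br (nat_lit 0) (.cons (.br (nat_lit 1) (.cons (.rel (nat_lit 20976132)) .nil)) .nil)) (.node .leaf (nat_lit 23087929016249080) (.br (nat_lit 2) (.cons (.br (nat_lit 5) (.cons (.rel (nat_lit 8724152325)) .nil)) .nil)) .leaf)))) (nat_lit 23087929016249222) (.br (nat_lit 3) (.cons (.br (nat_lit 6) (.cons (.rel (nat_lit 34896625728)) (.cons (.rel (nat_lit 17448375297)) .nil))) .nil)) (.node (.node (.node (.node (.node .leaf (nat_lit 23087929016249626) (.br (nat_lit 1) (.cons (.br (nat_lit 2) (.cons (.rel (nat_lit 83890320)) (.cons (.rel (nat_lit 83894274)) .nil))) (.cons (.br (nat_lit 5) (.cons (.rel (nat_lit 8623490304))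 (.cons (.rel (nat_lit 4328525832)) .nil))) .nil))) .leaf) (nat_lit 23087929017195283) (.br (nat_lit 0) (.cons (.br (nat_lit 2) (.cons (.rel (nat_lit 142623744)) .nil)) .nil)) .leaf) (nat_lit 23087929017243704) (.br (nat_lit 0) (.cons (.br (nat_lit 4) (.cons (.rel (nat_lit 1078005768)) .nil)) .nil)) (.node (.node .leaf (nat_lit 23087929017286133) (.br (nat_lit 0) (.cons (.br (nat_lit 1) (.cons (.rel (nat_lit 42205200)) .nil)) .nil)) .leaf) (nat_lit 23087929017489719) (.br (nat_lit 2) (.cons (.br (nat_lit 3) (.cons (.rel (nat_lit 335549505)) .nil)) .nil)) .leaf)) (nat_lit 23087929017490195) (.br (nat_lit 2) (.cons (.br (nat_lit 3) (.cons (.rel (nat_lit 336593154)) (.cons (.rel (nat_lit 335546376)) .nil))) (.cons (.br (nat_lit 3) (.cons (.rel (nat_lit 335549505)) (.cons (.rel (nat_lit 335548500)) .nil))) .nil))) (.node (.node (.node .leaf (nat_lit 23087929017490943) (.br (nat_lit 0) (.cons (.br (nat_lit 2) (.cons (.rel (nat_lit 71369736)) .nil)) .nil)) .leaf) (nat_lit 23087929017492112)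 (.br (nat_lit 4) (.cons (.br (nat_lit 5) (.cons (.rel (nat_lit 6443581440)) .nil)) .nil)) .leaf) (nat_lit 23087929017539320) (.br (nat_lit 0) (.cons (.br (nat_lit 6) (.cons (.rel (nat_lit 17188585473)) (.cons (.br (nat_lit 5) (.cons (.rel (nat_lit 21474844704)) (.cons (.br (nat_lit 2) (.cons (.rel (nat_lit 4362149892)) (.cons (.rel (nat_lit 4362211329)) (.cons (.rel (nat_lit 71369736)) .nil)))) (.cons (.rel (nat_lit 38657064960)) (.cons (.rel (nat_lit 4300210248)) .nil))))) .nil))) (.cons (.br (nat_lit 6) (.cons (.rel (nat_lit 17184137220)) (.cons (.rel (nat_lit 17184063498)) .nil))) .nil))) (.node .leaf (nat_lit 23087929017539485) (.br (nat_lit 0) (.cons (.br (nat_lit 6) (.cons (.rel (nat_lit 17184063498)) .nil)) .nil)) .leaf))) (nat_lit 23087929033026296) (.br (nat_lit 0) (.cons (.br (nat_lit 4) (.cons (.rel (nat_lit 2155876353)) .nil)) .nil)) (.node (.node (.node (.node .leaf (nat_lit 23087929660292457) (.br (nat_lit 1) (.cons (.br (nat_lit 3) (.cons (.rel (nat_lit 285213204))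 .nil)) .nil)) .leaf) (nat_lit 23087929662172038) (.br (nat_lit 0) (.cons (.br (nat_lit 2) (.cons (.rel (nat_lit 71307285)) .nil)) .nil)) .leaf) (nat_lit 23091943235926077) (.br (nat_lit 5) (.cons (.br (nat_lit 3) (.cons (.rel (nat_lit 9127067652)) (.cons (.rel (nat_lit 4563927048)) .nil))) .nil)) (.node .leaf (nat_lit 23091945839565560) (.br (nat_lit 0) (.cons (.br (nat_lit 2) (.cons (.rel (nat_lit 71337984)) .nil)) .nil)) .leaf)) (nat_lit 23091946615511800) (.br (nat_lit 0) (.cons (.br (nat_lit 2) (.cons (.rel (nat_lit 71337984)) .nil)) .nil)) (.node (.node (.node .leaf (nat_lit 23091948499778921) (.br (nat_lit 3) (.cons (.br (nat_lit 4) (.cons (.rel (nat_lit 2416459776)) .nil)) .nil)) .leaf) (nat_lit 23091948502948600) (.br (nat_lit 0) (.cons (.br (nat_lit 3) (.cons (.rel (nat_lit 276956160)) .nil)) .nil)) .leaf) (nat_lit 23092124381101557) (.br (nat_lit 0) (.cons (.br (nat_lit 2) (.cons (.rel (nat_lit 71337984)) .nil)) .nil)) (.node .leaf (nat_lit 23092124382600693) (.br (nat_lit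 0) (.cons (.br (nat_lit 1) (.cons (.rel (nat_lit 25198593)) .nil)) .nil)) .leaf))))) (nat_lit 23092124778242359) (.br (nat_lit 0) (.cons (.br (nat_lit 1) (.cons (.rel (nat_lit 21250308)) .nil)) .nil)) (.node (.node (.node (.node (.node (.node .leaf (nat_lit 23092124780657272) (.br (nat_lit 2) (.cons (.br (nat_lit 4) (.cons (.rel (nat_lit 1141260288)) .nil)) .nil)) .leaf) (nat_lit 23092126226343164) (.br (nat_lit 0) (.cons (.br (nat_lit 1) (.cons (.rel (nat_lit 42205200)) .nil)) .nil)) .leaf) (nat_lit 23092126742239482) (.br (nat_lit 0) (.cons (.br (nat_lit 1) (.cons (.rel (nat_lit 20976132)) .nil)) .nil)) (.node (.node .leaf (nat_lit 23092126742803809) (.br (nat_lit 0) (.cons (.br (nat_lit 5) (.cons (.rel (nat_lit 8594133018)) (.cons (.rel (nat_lit 4303374372)) .nil))) (.cons (.br (nat_lit 5) (.cons (.rel (nat_lit 8594134020)) (.cons (.rel (nat_lit 4299170304)) .nil))) .nil))) .leaf) (nat_lit 23092126743837559) (.br (nat_lit 4) (.cons (.br (nat_lit 6) (.cons (.rel (nat_lit 18253615488))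 (.cons (.rel (nat_lit 18253874208)) (.cons (.rel (nat_lit 18253889664)) .nil)))) .nil)) .leaf)) (nat_lit 23092127475423409) (.br (nat_lit 0) (.cons (.br (nat_lit 2) (.cons (.rel (nat_lit 71337984)) .nil)) .nil)) (.node (.node (.node .leaf (nat_lit 23092127476243709) (.br (nat_lit 1) (.cons (.br (nat_lit 2) (.cons (.rel (nat_lit 83955720)) (.cons (.rel (nat_lit 83894274)) .nil))) .nil)) .leaf) (nat_lit 23092127476509483) (.br (nat_lit 2) (.cons (.br (nat_lit 4) (.cons (.rel (nat_lit 1207965696)) .nil)) .nil)) .leaf) (nat_lit 23092127477482159) (.br (nat_lit 4) (.cons (.br (nat_lit 5) (.cons (.rel (nat_lit 5368725570)) (.cons (.rel (nat_lit 5368741896)) .nil))) .nil)) (.node .leaf (nat_lit 23092127477594744) (.br (nat_lit 1) (.cons (.br (nat_lit 6) (.cons (.rel (nat_lit 34377629712)) .nil)) .nil)) .leaf))) (nat_lit 23092129492433696) (.br (nat_lit 1) (.cons (.br (nat_lit 4) (.cons (.rel (nat_lit 1107558465)) .nil)) .nil)) (.node (.node (.node (.node .leaf (nat_lit 23092129492436469)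 (.br (nat_lit 0) (.cons (.br (nat_lit 2) (.cons (.rel (nat_lit 71337984)) .nil)) .nil)) .leaf) (nat_lit 23092129492640055) (.br (nat_lit 1) (.cons (.br (nat_lit 4) (.cons (.rel (nat_lit 2181038100)) .nil)) .nil)) .leaf) (nat_lit 23092129492699288) (.br (nat_lit 1) (.cons (.br (nat_lit 5) (.cons (.rel (nat_lit 4313841936)) .nil)) .nil)) (.node .leaf (nat_lit 23092129492699418) (.br (nat_lit 5) (.cons (.br (nat_lit 4) (.cons (.rel (nat_lit 5368718400)) (.cons (.rel (nat_lit 5368714257)) .nil))) .nil)) .leaf)) (nat_lit 23092129492728058) (.br (nat_lit 4) (.cons (.br (nat_lit 0) (.cons (.rel (nat_lit 1077936225)) (.cons (.rel (nat_lit 1077944322)) (.cons (.rel (nat_lit 1077936225)) (.cons (.rel (nat_lit 1077938244)) .nil))))) (.cons (.br (nat_lit 0) (.cons (.rel (nat_lit 1077936225)) (.cons (.rel (nat_lit 1082147088)) (.cons (.rel (nat_lit 2155876353)) (.cons (.rel (nat_lit 2155876353)) .nil))))) (.cons (.br (nat_lit 5) (.cons (.rel (nat_lit 5368741896)) (.cons (.rel (nat_lit 10737434628))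 (.cons (.rel (nat_lit 5368725570)) .nil)))) .nil)))) (.node (.node (.node .leaf (nat_lit 23092129492728089) (.br (nat_lit 0) (.cons (.br (nat_lit 2) (.cons (.rel (nat_lit 75778065)) (.cons (.rel (nat_lit 71311428)) .nil))) .nil)) .leaf) (nat_lit 23092129492904696) (.br (nat_lit 5) (.cons (.br (nat_lit 1) (.cons (.rel (nat_lit 4328554512)) (.cons (.rel (nat_lit 8606720004)) .nil))) .nil)) .leaf) (nat_lit 23092129493703933) (.br (nat_lit 4) (.cons (.br (nat_lit 1) (.cons (.rel (nat_lit 2181038100)) (.cons (.rel (nat_lit 2181038100)) (.cons (.rel (nat_lit 2181103680)) (.cons (.rel (nat_lit 1090650240)) .nil))))) (.cons (.br (nat_lit 5) (.cons (.rel (nat_lit 5368718400)) (.cons (.rel (nat_lit 5368713252)) (.cons (.rel (nat_lit 5368714257)) .nil)))) .nil))) (.node .leaf (nat_lit 23092129493705504) (.br (nat_lit 1) (.cons (.br (nat_lit 0) (.cons (.rel (nat_lit 39059460)) (.cons (.rel (nat_lit 37748805)) .nil))) .nil)) .leaf)))) (nat_lit 23092129493705980) (.br (nat_lit 4) (.cons (.br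 (nat_lit 1) (.cons (.rel (nat_lit 1090519080)) (.cons (.rel (nat_lit 1090519080)) (.cons (.rel (nat_lit 1090521090)) (.cons (.rel (nat_lit 2181038100)) .nil))))) (.cons (.br (nat_lit 1) (.cons (.rel (nat_lit 1090519080)) (.cons (.rel (nat_lit 1090519080)) (.cons (.rel (nat_lit 1090650240)) (.cons (.rel (nat_lit 1091567877)) .nil))))) .nil))) (.node (.node (.node (.node (.node .leaf (nat_lit 23092129493919258) (.br (nat_lit 0) (.cons (.br (nat_lit 2) (.cons (.rel (nat_lit 71311428)) .nil)) .nil)) .leaf) (nat_lit 23092129493958133) (.br (nat_lit 2) (.cons (.br (nat_lit 0) (.cons (.rel (nat_lit 71337984)) (.cons (.rel (nat_lit 142606425)) .nil))) .nil)) .leaf) (nat_lit 23092129493970433) (.br (nat_lit 1) (.cons (.br (nat_lit 2) (.cons (.rel (nat_lit 83888196)) (.cons (.rel (nat_lit 83904513)) .nil))) .nil)) (.node (.node .leaf (nat_lit 23092129493970446) (.br (nat_lit 1) (.cons (.br (nat_lit 5) (.cons (.rel (nat_lit 8606781441)) .nil)) .nil)) .leaf) (nat_lit 23092129494177180) (.br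 (nat_lit 4) (.cons (.br (nat_lit 5) (.cons (.rel (nat_lit 10737434628)) .nil)) .nil)) .leaf)) (nat_lit 23092129494182520) (.br (nat_lit 0) (.cons (.br (nat_lit 2) (.cons (.br (nat_lit 1) (.cons (.rel (nat_lit 21495840)) (.cons (.rel (nat_lit 83886177)) .nil))) .nil)) .nil)) (.node (.node (.node .leaf (nat_lit 23092129494267233) (.br (nat_lit 4) (.cons (.br (nat_lit 5) (.cons (.rel (nat_lit 5368741896)) .nil)) .nil)) .leaf) (nat_lit 23092129494942383) (.br (nat_lit 5) (.cons (.br (nat_lit 4) (.cons (.rel (nat_lit 5368709253)) (.cons (.rel (nat_lit 5368709253)) (.cons (.rel (nat_lit 5369233680)) .nil)))) (.cons (.br (nat_lit 4) (.cons (.rel (nat_lit 6442451457)) (.cons (.rel (nat_lit 5368713252)) (.cons (.rel (nat_lit 5368709253)) .nil)))) .nil))) .leaf) (nat_lit 23092129494943231) (.br (nat_lit 1) (.cons (.br (nat_lit 3) (.cons (.rel (nat_lit 285214209)) .nil)) .nil)) (.node .leaf (nat_lit 23092129495186333) (.br (nat_lit 2) (.cons (.br (nat_lit 5) (.cons (.rel (nat_lit 4362078225))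 (.cons (.rel (nat_lit 4362078225)) .nil))) (.cons (.br (nat_lit 5) (.cons (.rel (nat_lit 4362077220)) (.cons (.rel (nat_lit 4430237700)) .nil))) .nil))) .leaf))) (nat_lit 23092129495237884) (.br (nat_lit 1) (.cons (.br (nat_lit 5) (.cons (.rel (nat_lit 4312011009)) .nil)) .nil)) (.node (.node (.node (.node .leaf (nat_lit 23092129495300983) (.br (nat_lit 4) (.cons (.br (nat_lit 5) (.cons (.rel (nat_lit 5368714257)) .nil)) .nil)) .leaf) (nat_lit 23092129495301621) (.br (nat_lit 0) (.cons (.br (nat_lit 5) (.cons (.rel (nat_lit 4299170304)) .nil)) .nil)) .leaf) (nat_lit 23092129495456555) (.br (nat_lit 2) (.cons (.br (nat_lit 0) (.cons (.rel (nat_lit 71308290)) (.cons (.rel (nat_lit 71311428)) (.cons (.rel (nat_lit 71337984)) (.cons (.rel (nat_lit 71308290)) .nil))))) .nil)) (.node .leaf (nat_lit 23092129495507225) (.br (nat_lit 0) (.cons (.br (nat_lit 5) (.cons (.rel (nat_lit 4299686025)) .nil)) .nil)) .leaf)) (nat_lit 23092129495507600) (.br (nat_lit 1) (.cons (.br (nat_lit 4) (.cons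 (.rel (nat_lit 2181038100)) .nil)) .nil)) (.node (.node (.node .leaf (nat_lit 23092129495508481) (.br (nat_lit 0) (.cons (.br (nat_lit 1) (.cons (.rel (nat_lit 22086660)) .nil)) .nil)) .leaf) (nat_lit 23092129594930529) (.br (nat_lit 4) (.cons (.br (nat_lit 1) (.cons (.rel (nat_lit 2181039105)) (.cons (.rel (nat_lit 1090521090)) .nil))) .nil)) .leaf) (nat_lit 23092129595964279) (.br (nat_lit 4) (.cons (.br (nat_lit 6) (.cons (.rel (nat_lit 18253628676)) .nil)) .nil)) (.node .leaf (nat_lit 23092130141108856) (.br (nat_lit 0) (.cons (.br (nat_lit 2) (.cons (.rel (nat_lit 71304336)) .nil)) .nil)) .leaf))))))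

/-- refutations 123 -/
def e123 : EX := (.node (.node (.node (.node (.node .leaf (nat_lit 23092974576417575) (.br (nat_lit 0) (.cons (.br (nat_lit 4) (.cons (.rel (nat_lit 1077938244)) .nil)) .nil)) .leaf) (nat_lit 23093017481579307) (.br (nat_lit 2) (.cons (.br (nat_lit 5) (.cons (.rel (nat_lit 4362082368)) .nil)) .nil)) (.node .leaf (nat_lit 23093841611470909) (.br (nat_lit 0) (.cons (.br (nat_lit 2) (.cons (.rel (nat_lit 142623744)) .nil)) .nil)) .leaf)) (nat_lit 23093841614592787) (.br (nat_lit 1) (.cons (.br (nat_lit 4) (.cons (.rel (nat_lit 1090519080)) .nil)) .nil)) (.node (.node .leaf (nat_lit 23093841614651674) (.br (nat_lit 1) (.cons (.br (nat_lit 5) (.cons (.rel (nat_lit 4328554512)) .nil)) .nil)) .leaf) (nat_lit 23093841614652698) (.br (nat_lit 0) (.cons (.br (nat_lit 1) (.cons (.rel (nat_lit 21250308)) .nil)) .nil)) .leaf)) (nat_lit 23093842255757999) (.br (nat_lit 1) (.cons (.br (nat_lit 4) (.cons (.rel (nat_lit 1090521090)) .nil)) .nil)) (.node (.node (.node .leaf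 (nat_lit 23093845464963859) (.br (nat_lit 1) (.cons (.br (nat_lit 4) (.cons (.rel (nat_lit 1090539540)) (.cons (.rel (nat_lit 1090540545)) .nil))) (.cons (.br (nat_lit 4) (.cons (.rel (nat_lit 2181038100)) (.cons (.rel (nat_lit 1090519080)) .nil))) .nil))) .leaf) (nat_lit 23093927513693067) (.br (nat_lit 0) (.cons (.br (nat_lit 1) (.cons (.rel (nat_lit 42205200)) .nil)) .nil)) .leaf) (nat_lit 23094090719830776) (.br (nat_lit 0) (.cons (.br (nat_lit 3) (.cons (.rel (nat_lit 541097988)) .nil)) .nil)) (.node (.node .leaf (nat_lit 23094090719830803) (.br (nat_lit 3) (.cons (.br (nat_lit 4) (.cons (.rel (nat_lit 1610633472)) .nil)) .nil)) .leaf) (nat_lit 23094093357791293) (.br (nat_lit 1) (.cons (.br (nat_lit 3) (.cons (.rel (nat_lit 301990020)) .nil)) .nil)) .leaf))) (nat_lit 23094137342377212) (.br (nat_lit 1) (.cons (.br (nat_lit 2) (.cons (.rel (nat_lit 83894274)) .nil)) .nil)) (.node (.node (.node (.node .leaf (nat_lit 23094348420160165) (.br (nat_lit 3) (.cons (.br (nat_lit 1)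 (.cons (.rel (nat_lit 285213204)) (.cons (.rel (nat_lit 570691584)) .nil))) .nil)) .leaf) (nat_lit 23094348420782840) (.br (nat_lit 0) (.cons (.br (nat_lit 2) (.cons (.rel (nat_lit 71337984)) .nil)) .nil)) (.node .leaf (nat_lit 23094348420783340) (.br (nat_lit 1) (.cons (.br (nat_lit 2) (.cons (.rel (nat_lit 83890320)) .nil)) .nil)) .leaf)) (nat_lit 23094351795344635) (.br (nat_lit 0) (.cons (.br (nat_lit 2) (.cons (.rel (nat_lit 71311428)) .nil)) .nil)) (.node (.node .leaf (nat_lit 23094351797197560) (.br (nat_lit 0) (.cons (.br (nat_lit 4) (.cons (.rel (nat_lit 1077938244)) (.cons (.rel (nat_lit 1077944322)) .nil))) (.cons (.br (nat_lit 6) (.cons (.rel (nat_lit 17184145440)) (.cons (.rel (nat_lit 17184063498)) .nil))) .nil))) .leaf) (nat_lit 23094354286760863) (.br (nat_lit 1) (.cons (.br (nat_lit 2) (.cons (.rel (nat_lit 167776257)) .nil)) .nil)) .leaf)) (nat_lit 23094354286761211) (.br (nat_lit 5) (.cons (.br (nat_lit 6) (.cons (.br (nat_lit 1) (.cons (.rel (nat_lit 4312866816))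 (.cons (.rel (nat_lit 34393309188)) .nil))) .nil)) .nil)) (.node (.node (.node .leaf (nat_lit 23094354286763261) (.br (nat_lit 0) (.cons (.br (nat_lit 2) (.cons (.rel (nat_lit 71337984)) .nil)) .nil)) .leaf) (nat_lit 23094354288247711) (.br (nat_lit 1) (.cons (.br (nat_lit 5) (.cons (.rel (nat_lit 4328525832)) .nil)) .nil)) .leaf) (nat_lit 23094354288248059) (.br (nat_lit 0) (.cons (.br (nat_lit 1) (.cons (.rel (nat_lit 25198593)) .nil)) .nil)) (.node (.node .leaf (nat_lit 23094354288614136) (.br (nat_lit 6) (.cons (.br (nat_lit 5) (.cons (.br (nat_lit 2) (.cons (.rel (nat_lit 4362149892)) (.cons (.rel (nat_lit 4362149892)) .nil))) (.cons (.rel (nat_lit 38657064960)) (.cons (.rel (nat_lit 42949677072)) (.cons (.rel (nat_lit 21474873348)) .nil))))) .nil)) .leaf) (nat_lit 23094354288628468) (.br (nat_lit 1) (.cons (.br (nat_lit 5) (.cons (.rel (nat_lit 8623490304)) .nil)) .nil)) .leaf))))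

/-- refutations 124 -/
def e124 : EX := (.node (.node .leaf (nat_lit 24207069290184181) (.br (nat_lit 2) (.cons (.br (nat_lit 5) (.cons (.rel (nat_lit 4362077220)) (.cons (.rel (nat_lit 8657043780)) .nil))) .nil)) .leaf) (nat_lit 24208374961238918) (.br (nat_lit 0) (.cons (.br (nat_lit 1) (.cons (.rel (nat_lit 20976132)) .nil)) .nil)) .leaf)

/-- refutations 125 -/
def e125 : EX := (.node (.node (.node (.node (.node (.node .leaf (nat_lit 24209427832695444) (.br (nat_lit 2) (.cons (.br (nat_lit 1) (.cons (.rel (nat_lit 83890320)) (.cons (.rel (nat_lit 83903508)) .nil))) .nil)) .leaf) (nat_lit 24213823170817277) (.br (nat_lit 0) (.cons (.br (nat_lit 3) (.cons (.rel (nat_lit 272892162)) .nil)) .nil)) .leaf) (nat_lit 24213823170819323) (.br (nat_lit 3) (.cons (.br (nat_lit 4) (.cons (.rel (nat_lit 1342185537)) .nil)) .nil)) (.node .leaf (nat_lit 24213823170820126) (.br (nat_lit 1) (.cons (.br (nat_lit 2) (.cons (.rel (nat_lit 83955720)) .nil)) .nil)) .leaf)) (nat_lit 24213823170820222)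 (.br (nat_lit 1) (.cons (.br (nat_lit 2) (.cons (.rel (nat_lit 83886177)) .nil)) .nil)) (.node (.node .leaf (nat_lit 24213823170821481) (.br (nat_lit 1) (.cons (.br (nat_lit 4) (.cons (.rel (nat_lit 1090521090)) .nil)) .nil)) .leaf) (nat_lit 24213823170821623) (.br (nat_lit 6) (.cons (.br (nat_lit 0) (.cons (.rel (nat_lit 17188585473)) (.cons (.rel (nat_lit 34368126981)) (.cons (.rel (nat_lit 17188524036)) .nil)))) .nil)) (.node .leaf (nat_lit 24213823172460023) (.br (nat_lit 6) (.cons (.br (nat_lit 1) (.cons (.rel (nat_lit 17213686788)) (.cons (.rel (nat_lit 17213686788)) .nil))) .nil)) .leaf))) (nat_lit 24213823172464767) (.br (nat_lit 0) (.cons (.br (nat_lit 1) (.cons (.rel (nat_lit 21037569)) .nil)) .nil)) (.node (.node (.node .leaf (nat_lit 24213823172700920) (.br (nat_lit 1) (.cons (.br (nat_lit 3) (.cons (.rel (nat_lit 570691584)) .nil)) .nil)) .leaf) (nat_lit 24213823172701062) (.br (nat_lit 1) (.cons (.br (nat_lit 5) (.cons (.rel (nat_lit 4312809600)) .nil)) .nil)) (.node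 .leaf (nat_lit 24213823173673847) (.br (nat_lit 0) (.cons (.br (nat_lit 2) (.cons (.rel (nat_lit 71369736)) .nil)) .nil)) .leaf)) (nat_lit 24213826278798837) (.br (nat_lit 0) (.cons (.br (nat_lit 6) (.cons (.rel (nat_lit 17184064548)) .nil)) .nil)) (.node (.node .leaf (nat_lit 24213829546163561) (.br (nat_lit 3) (.cons (.br (nat_lit 4) (.cons (.rel (nat_lit 1342177440)) .nil)) .nil)) .leaf) (nat_lit 24213829567129660) (.br (nat_lit 0) (.cons (.br (nat_lit 1) (.cons (.rel (nat_lit 21250308)) .nil)) .nil)) (.node .leaf (nat_lit 24213829567131708) (.br (nat_lit 0) (.cons (.br (nat_lit 2) (.cons (.rel (nat_lit 71337984)) (.cons (.rel (nat_lit 142623744)) .nil))) .nil)) .leaf)))) (nat_lit 24213829567131775) (.br (nat_lit 1) (.cons (.br (nat_lit 2) (.cons (.rel (nat_lit 83886177)) .nil)) .nil)) (.node (.node (.node (.node .leaf (nat_lit 24213829567133173) (.br (nat_lit 3) (.cons (.br (nat_lit 4) (.cons (.rel (nat_lit 1610907648)) (.cons (.rel (nat_lit 1342177440)) .nil))) .nil)) .leaf)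 (nat_lit 24213829567133978) (.br (nat_lit 1) (.cons (.br (nat_lit 5) (.cons (.rel (nat_lit 4311747072)) .nil)) .nil)) (.node .leaf (nat_lit 24213829567134607) (.br (nat_lit 1) (.cons (.br (nat_lit 2) (.cons (.rel (nat_lit 83888196)) .nil)) .nil)) .leaf)) (nat_lit 24213829567135223) (.br (nat_lit 3) (.cons (.br (nat_lit 6) (.cons (.rel (nat_lit 17448394752)) .nil)) .nil)) (.node (.node .leaf (nat_lit 24213829567451263) (.br (nat_lit 2) (.cons (.br (nat_lit 3) (.cons (.rel (nat_lit 335546376)) .nil)) .nil)) .leaf) (nat_lit 24213829567735145) (.br (nat_lit 0) (.cons (.br (nat_lit 5) (.cons (.rel (nat_lit 8598601728)) .nil)) .nil)) (.node .leaf (nat_lit 24213829567739381) (.br (nat_lit 3) (.cons (.br (nat_lit 2) (.cons (.rel (nat_lit 335545362)) (.cons (.rel (nat_lit 335546376)) .nil))) .nil)) .leaf))) (nat_lit 24213829568400016) (.br (nat_lit 5) (.cons (.br (nat_lit 0) (.cons (.rel (nat_lit 8594195457)) (.cons (.rel (nat_lit 4300226565)) .nil))) .nil)) (.node (.node (.node .leaf (nat_lit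 24213829568707447) (.br (nat_lit 0) (.cons (.br (nat_lit 3) (.cons (.rel (nat_lit 545539074)) .nil)) .nil)) .leaf) (nat_lit 24213829568708085) (.br (nat_lit 3) (.cons (.br (nat_lit 5) (.cons (.rel (nat_lit 8858371092)) (.cons (.rel (nat_lit 4563927048)) .nil))) .nil)) (.node .leaf (nat_lit 24213829568773023) (.br (nat_lit 1) (.cons (.br (nat_lit 6) (.cons (.rel (nat_lit 17213493504)) .nil)) .nil)) .leaf)) (nat_lit 24213829568935320) (.br (nat_lit 0) (.cons (.br (nat_lit 5) (.cons (.rel (nat_lit 8598601728)) .nil)) .nil)) (.node (.node .leaf (nat_lit 24213829569014520) (.br (nat_lit 0) (.cons (.br (nat_lit 1) (.cons (.rel (nat_lit 22024209)) .nil)) .nil)) .leaf) (nat_lit 24213829569039861) (.br (nat_lit 4) (.cons (.br (nat_lit 5) (.cons (.rel (nat_lit 5368741896)) .nil)) .nil)) (.node .leaf (nat_lit 24213829569704838) (.br (nat_lit 4) (.cons (.br (nat_lit 1) (.cons (.rel (nat_lit 1090521090)) (.cons (.rel (nat_lit 2181038100)) .nil))) .nil)) .leaf)))))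

/-- refutations 126 -/
def e126 : EX := (.node (.node (.node .leaf (nat_lit 24214596264931455) (.br (nat_lit 1) (.cons (.br (nat_lit 4) (.cons (.rel (nat_lit 2181058560)) .nil)) .nil)) .leaf) (nat_lit 24214793836282743) (.br (nat_lit 0) (.cons (.br (nat_lit 1) (.cons (.rel (nat_lit 21495840)) .nil)) .nil)) (.node .leaf (nat_lit 24214800230009138) (.br (nat_lit 0) (.cons (.br (nat_lit 5) (.cons (.rel (nat_lit 8598327552)) .nil)) .nil)) .leaf)) (nat_lit 24214800232362290) (.br (nat_lit 0) (.cons (.br (nat_lit 1) (.cons (.rel (nat_lit 20976132)) .nil)) .nil)) (.node (.node .leaf (nat_lit 24217800798612706) (.br (nat_lit 1) (.cons (.br (nat_lit 3) (.cons (.rel (nat_lit 570691584)) .nil)) .nil)) .leaf) (nat_lit 24217800799646456) (.br (nat_lit 0) (.cons (.br (nat_lit 1) (.cons (.rel (nat_lit 25232400)) .nil)) .nil)) (.node .leaf (nat_lit 24217849635868009) (.br (nat_lit 0) (.cons (.br (nat_lit 1) (.cons (.rel (nat_lit 21037569)) .nil)) .nil)) .leaf)))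

/-- refutations 127 -/
def e127 : EX := (.node (.node (.node (.node (.node .leaf (nat_lit 24219149416806682) (.br (nat_lit 0) (.cons (.br (nat_lit 2) (.cons (.rel (nat_lit 71337984)) .nil)) .nil)) .leaf) (nat_lit 24219197124653816) (.br (nat_lit 0) (.cons (.br (nat_lit 2) (.cons (.rel (nat_lit 71304336)) .nil)) .nil)) .leaf) (nat_lit 24219198255282237) (.br (nat_lit 0) (.cons (.br (nat_lit 1) (.cons (.rel (nat_lit 21495840)) .nil)) .nil)) (.node .leaf (nat_lit 24219741635754045) (.br (nat_lit 1) (.cons (.br (nat_lit 5) (.cons (.rel (nat_lit 4312793094)) .nil)) .nil)) .leaf)) (nat_lit 24219756622607861) (.br (nat_lit 0) (.cons (.br (nat_lit 2) (.cons (.rel (nat_lit 142623744)) .nil)) .nil)) (.node (.node .leaf (nat_lit 24220050876070015) (.br (nat_lit 2) (.cons (.br (nat_lit 3) (.cons (.rel (nat_lit 604241922)) .nil)) .nil)) .leaf) (nat_lit 24220051779933685) (.br (nat_lit 1) (.cons (.br (nat_lit 2) (.cons (.rel (nat_lit 83903508)) .nil)) .nil)) (.node .leaf (nat_lit 24220053581326491)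 (.br (nat_lit 0) (.cons (.br (nat_lit 4) (.cons (.rel (nat_lit 1077936225)) .nil)) .nil)) .leaf))) (nat_lit 24220057269713682) (.br (nat_lit 3) (.cons (.br (nat_lit 4) (.cons (.rel (nat_lit 2684354640)) (.cons (.rel (nat_lit 2684354640)) .nil))) .nil)) (.node (.node (.node (.node .leaf (nat_lit 24220057270081713) (.br (nat_lit 4) (.cons (.br (nat_lit 3) (.cons (.rel (nat_lit 1342181394)) (.cons (.rel (nat_lit 1342181394)) .nil))) .nil)) .leaf) (nat_lit 24220057271001370) (.br (nat_lit 1) (.cons (.br (nat_lit 2) (.cons (.rel (nat_lit 83904513)) .nil)) .nil)) .leaf) (nat_lit 24220057271286416) (.br (nat_lit 0) (.cons (.br (nat_lit 1) (.cons (.rel (nat_lit 42205200)) .nil)) .nil)) (.node .leaf (nat_lit 24220057271286671) (.br (nat_lit 0) (.cons (.br (nat_lit 1) (.cons (.rel (nat_lit 22024209)) .nil)) .nil)) .leaf)) (nat_lit 24220057272384889) (.br (nat_lit 0) (.cons (.br (nat_lit 1) (.cons (.rel (nat_lit 22024209)) .nil)) .nil)) (.node (.node .leaf (nat_lit 24220057272384920) (.br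 (nat_lit 0) (.cons (.br (nat_lit 1) (.cons (.rel (nat_lit 22028352)) .nil)) .nil)) .leaf) (nat_lit 24220057272837021) (.br (nat_lit 0) (.cons (.br (nat_lit 2) (.cons (.rel (nat_lit 71337984)) .nil)) .nil)) (.node .leaf (nat_lit 24220057272837023) (.br (nat_lit 1) (.cons (.br (nat_lit 2) (.cons (.rel (nat_lit 83886177)) .nil)) .nil)) .leaf))))

/-- refutations 128 -/
def e128 : EX := (.node (.node (.node (.node .leaf (nat_lit 22606497442732792) (.br (nat_lit 0) (.cons (.br (nat_lit 2) (.cons (.rel (nat_lit 71307285)) .nil)) .nil)) .leaf) (nat_lit 22607090148120707) (.br (nat_lit 2) (.cons (.br (nat_lit 4) (.cons (.rel (nat_lit 1142947872)) .nil)) .nil)) (.node .leaf (nat_lit 22608378632365308) (.br (nat_lit 2) (.cons (.br (nat_lit 6) (.cons (.rel (nat_lit 17246982405)) .nil)) .nil)) .leaf)) (nat_lit 22608378737222908) (.br (nat_lit 0) (.cons (.br (nat_lit 1) (.cons (.rel (nat_lit 37757952)) .nil)) .nil)) (.node (.node .leaf (nat_lit 22611823302744875) (.br (nat_lit 0) (.cons (.br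 (nat_lit 1) (.cons (.rel (nat_lit 20976132)) .nil)) .nil)) .leaf) (nat_lit 22611823302843128) (.br (nat_lit 3) (.cons (.br (nat_lit 5) (.cons (.rel (nat_lit 4564484097)) .nil)) .nil)) .leaf)) (nat_lit 22612937350589176) (.br (nat_lit 0) (.cons (.br (nat_lit 1) (.cons (.rel (nat_lit 42205200)) .nil)) .nil)) (.node (.node (.node .leaf (nat_lit 22612937765843200) (.br (nat_lit 0) (.cons (.br (nat_lit 4) (.cons (.rel (nat_lit 1077938244)) .nil)) .nil)) .leaf) (nat_lit 22618028659804920) (.br (nat_lit 2) (.cons (.br (nat_lit 3) (.cons (.rel (nat_lit 335546376)) .nil)) .nil)) .leaf) (nat_lit 22618028659804936) (.br (nat_lit 0) (.cons (.br (nat_lit 1) (.cons (.rel (nat_lit 42205200)) .nil)) .nil)) (.node (.node .leaf (nat_lit 22618952948456235) (.br (nat_lit 2) (.cons (.br (nat_lit 1) (.cons (.rel (nat_lit 151322880)) (.cons (.rel (nat_lit 83894274)) .nil))) .nil)) .leaf) (nat_lit 22619148287073063) (.br (nat_lit 0) (.cons (.br (nat_lit 2) (.cons (.rel (nat_lit 142623744)) .nil)) .nil))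 .leaf)))

/-- refutations 129 -/
def e129 : EX := (.node (.node (.node .leaf (nat_lit 24664768852479332) (.br (nat_lit 0) (.cons (.br (nat_lit 1) (.cons (.rel (nat_lit 22167552)) .nil)) .nil)) .leaf) (nat_lit 24669680013109379) (.br (nat_lit 0) (.cons (.br (nat_lit 1) (.cons (.rel (nat_lit 37765122)) .nil)) .nil)) .leaf) (nat_lit 24671221140990103) (.br (nat_lit 2) (.cons (.br (nat_lit 4) (.cons (.rel (nat_lit 1140853008)) .nil)) .nil)) (.node .leaf (nat_lit 24671223683834616) (.br (nat_lit 0) (.cons (.br (nat_lit 1) (.cons (.rel (nat_lit 20976132)) .nil)) .nil)) .leaf))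

/-- refutations 130 -/
def e130 : EX := (.node .leaf (nat_lit 24675246291062915) (.br (nat_lit 0) (.cons (.br (nat_lit 2) (.cons (.rel (nat_lit 71304336)) .nil)) .nil)) .leaf)

/-- refutations 131 -/
def e131 : EX := (.node (.node (.node (.node .leaf (nat_lit 24753340921899768) (.br (nat_lit 0) (.cons (.br (nat_lit 1) (.cons (.rel (nat_lit 22024209)) .nil)) .nil)) .leaf) (nat_lit 24754407556503834) (.br (nat_lit 0) (.cons (.br (nat_lit 1) (.cons (.rel (nat_lit 37748805)) .nil)) .nil)) .leaf) (nat_lit 24754407556504312) (.br (nat_lit 0) (.cons (.br (nat_lit 1) (.cons (.rel (nat_lit 37748805)) .nil)) .nil)) (.node (.node .leaf (nat_lit 24754783511371937) (.br (nat_lit 0) (.cons (.br (nat_lit 1) (.cons (.rel (nat_lit 22086660)) .nil)) .nil)) .leaf) (nat_lit 24759182094279587) (.br (nat_lit 0) (.cons (.br (nat_lit 1) (.cons (.rel (nat_lit 21037569)) .nil)) .nil)) .leaf)) (nat_lit 24759187087650942) (.br (nat_lit 0) (.cons (.br (nat_lit 1) (.cons (.rel (nat_lit 20976132)) .nil)) .nil))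 (.node (.node (.node .leaf (nat_lit 24759187088366845) (.br (nat_lit 0) (.cons (.br (nat_lit 3) (.cons (.rel (nat_lit 272647680)) .nil)) .nil)) .leaf) (nat_lit 24759187088621045) (.br (nat_lit 2) (.cons (.br (nat_lit 3) (.cons (.rel (nat_lit 335544357)) .nil)) .nil)) .leaf) (nat_lit 24759187089607416) (.br (nat_lit 2) (.cons (.br (nat_lit 3) (.cons (.rel (nat_lit 335546376)) .nil)) .nil)) (.node (.node .leaf (nat_lit 24759187090169333) (.br (nat_lit 2) (.cons (.br (nat_lit 1) (.cons (.rel (nat_lit 152043528)) (.cons (.rel (nat_lit 83888196)) (.cons (.br (nat_lit 0) (.cons (.rel (nat_lit 88342536)) (.cons (.rel (nat_lit 42205200)) .nil))) .nil)))) .nil)) .leaf) (nat_lit 24759187090179298) (.br (nat_lit 2) (.cons (.br (nat_lit 4) (.cons (.rel (nat_lit 1140883776)) .nil)) .nil)) .leaf)))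

/-- refutations 132 -/
def e132 : EX := (.node (.node (.node .leaf (nat_lit 24759960183013658) (.br (nat_lit 1) (.cons (.br (nat_lit 6) (.cons (.rel (nat_lit 17196646533)) .nil)) .nil)) .leaf) (nat_lit 24763052560261907) (.br (nat_lit 0) (.cons (.br (nat_lit 2) (.cons (.rel (nat_lit 71327745)) .nil)) .nil)) .leaf) (nat_lit 24763181109190916) (.br (nat_lit 0) (.cons (.br (nat_lit 4) (.cons (.rel (nat_lit 1077936225)) .nil)) .nil)) (.node .leaf (nat_lit 24763425505110776) (.br (nat_lit 1) (.cons (.br (nat_lit 2) (.cons (.rel (nat_lit 167776257)) .nil)) .nil)) .leaf))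

/-- refutations 133 -/
def e133 : EX := (.node (.node (.node (.node .leaf (nat_lit 25246991895520508) (.br (nat_lit 1) (.cons (.br (nat_lit 0) (.cons (.rel (nat_lit 22028352)) (.cons (.rel (nat_lit 25198593)) .nil))) .nil)) .leaf) (nat_lit 25247254938397432) (.br (nat_lit 4) (.cons (.br (nat_lit 5) (.cons (.rel (nat_lit 9663676674)) .nil)) .nil)) .leaf) (nat_lit 25247258712227317) (.br (nat_lit 0) (.cons (.br (nat_lit 2) (.cons (.rel (nat_lit 71304336)) .nil)) .nil)) (.node .leaf (nat_lit 25247366723697400) (.br (nat_lit 0) (.cons (.br (nat_lit 3) (.cons (.rel (nat_lit 541132800)) .nil)) .nil)) .leaf)) (nat_lit 25247366723942706) (.br (nat_lit 0) (.cons (.br (nat_lit 1) (.cons (.rel (nat_lit 42205200)) .nil)) .nil)) (.node (.node (.node .leaf (nat_lit 25247366790800636) (.br (nat_lit 0) (.cons (.br (nat_lit 1) (.cons (.rel (nat_lit 22028352)) .nil)) .nil)) .leaf) (nat_lit 25247369207035286) (.br (nat_lit 0) (.cons (.br (nat_lit 1) (.cons (.rel (nat_lit 42205200)) .nil)) .nil))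 .leaf) (nat_lit 25250645938657536) (.br (nat_lit 0) (.cons (.br (nat_lit 1) (.cons (.rel (nat_lit 25232400)) .nil)) .nil)) (.node .leaf (nat_lit 25250651206703281) (.br (nat_lit 0) (.cons (.br (nat_lit 2) (.cons (.rel (nat_lit 71319648)) .nil)) .nil)) .leaf)))

/-- refutations 134 -/
def e134 : EX := (.node (.node (.node .leaf (nat_lit 25251767275439330) (.br (nat_lit 0) (.cons (.br (nat_lit 2) (.cons (.rel (nat_lit 71337984)) .nil)) .nil)) .leaf) (nat_lit 25251768427838717) (.br (nat_lit 1) (.cons (.br (nat_lit 2) (.cons (.rel (nat_lit 83923968)) .nil)) .nil)) (.node .leaf (nat_lit 25251768427888117) (.br (nat_lit 0) (.cons (.br (nat_lit 2) (.cons (.rel (nat_lit 71337984)) .nil)) .nil)) .leaf)) (nat_lit 25251768428091523) (.br (nat_lit 0) (.cons (.br (nat_lit 3) (.cons (.rel (nat_lit 273159168)) .nil)) .nil)) (.node (.node .leaf (nat_lit 25252355761724323) (.br (nat_lit 0) (.cons (.br (nat_lit 3) (.cons (.rel (nat_lit 276840456)) .nil)) .nil)) .leaf) (nat_lit 25252537747353787)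 (.br (nat_lit 0) (.cons (.br (nat_lit 1) (.cons (.rel (nat_lit 22020258)) .nil)) .nil)) .leaf))

/-- refutations 135 -/
def e135 : EX := (.node (.node (.node (.node .leaf (nat_lit 25257989732668192) (.br (nat_lit 3) (.cons (.br (nat_lit 6) (.cons (.rel (nat_lit 17448306768)) .nil)) .nil)) .leaf) (nat_lit 25257989734216480) (.br (nat_lit 1) (.cons (.br (nat_lit 2) (.cons (.rel (nat_lit 83903508)) .nil)) .nil)) .leaf) (nat_lit 25257989735637792) (.br (nat_lit 2) (.cons (.br (nat_lit 0) (.cons (.rel (nat_lit 71337984)) (.cons (.rel (nat_lit 71337984)) .nil))) .nil)) (.node (.node .leaf (nat_lit 25257990332631346) (.br (nat_lit 1) (.cons (.br (nat_lit 4) (.cons (.rel (nat_lit 2181038100)) .nil)) .nil)) .leaf) (nat_lit 25257990332631696) (.br (nat_lit 0) (.cons (.br (nat_lit 2) (.cons (.rel (nat_lit 71308290)) .nil)) .nil)) .leaf)) (nat_lit 25257990332915864) (.br (nat_lit 0) (.cons (.br (nat_lit 2) (.cons (.rel (nat_lit 71308290)) .nil)) .nil)) (.node (.node (.node .leaf (nat_lit 25257990756052194)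 (.br (nat_lit 0) (.cons (.br (nat_lit 1) (.cons (.rel (nat_lit 21529680)) .nil)) .nil)) .leaf) (nat_lit 25257994954535089) (.br (nat_lit 2) (.cons (.br (nat_lit 1) (.cons (.rel (nat_lit 83894274)) (.cons (.rel (nat_lit 83890320)) (.cons (.rel (nat_lit 84017157)) .nil)))) .nil)) .leaf) (nat_lit 25257994955810044) (.br (nat_lit 0) (.cons (.br (nat_lit 2) (.cons (.rel (nat_lit 71308290)) (.cons (.rel (nat_lit 71337984)) .nil))) .nil)) (.node (.node .leaf (nat_lit 25257994955810198) (.br (nat_lit 0) (.cons (.br (nat_lit 1) (.cons (.rel (nat_lit 37757952)) (.cons (.rel (nat_lit 25198593)) (.cons (.rel (nat_lit 25198593)) .nil)))) .nil)) .leaf) (nat_lit 25257994956287228) (.br (nat_lit 0) (.cons (.br (nat_lit 2) (.cons (.rel (nat_lit 71319648)) (.cons (.rel (nat_lit 71319648)) .nil))) .nil)) .leaf)))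

/-- refutations 137 -/
def e137 : EX := (.node (.node (.node (.node .leaf (nat_lit 26400150503544034) (.br (nat_lit 0) (.cons (.br (nat_lit 3) (.cons (.rel (nat_lit 272892162)) .nil)) .nil)) .leaf) (nat_lit 26400150503544216) (.br (nat_lit 0) (.cons (.br (nat_lit 3) (.cons (.rel (nat_lit 272647680)) .nil)) .nil)) .leaf) (nat_lit 26400150506167059) (.br (nat_lit 0) (.cons (.br (nat_lit 3) (.cons (.rel (nat_lit 274727232)) .nil)) .nil)) (.node (.node .leaf (nat_lit 26400150506215551) (.br (nat_lit 0) (.cons (.br (nat_lit 2) (.cons (.rel (nat_lit 71304336)) .nil)) .nil)) .leaf) (nat_lit 26400153545555197) (.br (nat_lit 0) (.cons (.br (nat_lit 1) (.cons (.rel (nat_lit 37757952)) .nil)) .nil)) .leaf)) (nat_lit 26400153547046265) (.br (nat_lit 0) (.cons (.br (nat_lit 1) (.cons (.rel (nat_lit 20976132)) .nil)) .nil)) (.node (.node (.node .leaf (nat_lit 26401181295286399) (.br (nat_lit 2) (.cons (.br (nat_lit 3) (.cons (.rel (nat_lit 335544357)) (.cons (.rel (nat_lit 335545362)) .nil)))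 .nil)) .leaf) (nat_lit 26401181296518552) (.br (nat_lit 2) (.cons (.br (nat_lit 6) (.cons (.rel (nat_lit 17314097160)) .nil)) .nil)) .leaf) (nat_lit 26401186651413280) (.br (nat_lit 2) (.cons (.br (nat_lit 3) (.cons (.rel (nat_lit 335546376)) .nil)) .nil)) (.node .leaf (nat_lit 26401696691269759) (.br (nat_lit 0) (.cons (.br (nat_lit 5) (.cons (.rel (nat_lit 4303372305)) .nil)) .nil)) .leaf)))

/-- refutations 138 -/
def e138 : EX := (.node .leaf (nat_lit 24300397658663047) (.br (nat_lit 2) (.cons (.br (nat_lit 3) (.cons (.rel (nat_lit 335548500)) .nil)) .nil)) .leaf)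

/-- refutations 139 -/
def e139 : EX := (.node (.node (.node .leaf (nat_lit 26425622661159223) (.br (nat_lit 0) (.cons (.br (nat_lit 1) (.cons (.rel (nat_lit 21037569)) .nil)) .nil)) .leaf) (nat_lit 26425663644875563) (.br (nat_lit 1) (.cons (.br (nat_lit 0) (.cons (.rel (nat_lit 37748805)) (.cons (.rel (nat_lit 37757952)) .nil))) .nil)) (.node .leaf (nat_lit 26425667940244216) (.br (nat_lit 3) (.cons (.br (nat_lit 4) (.cons (.rel (nat_lit 1342242840)) .nil)) .nil)) .leaf)) (nat_lit 26425881096174948) (.br (nat_lit 0) (.cons (.br (nat_lit 1) (.cons (.rel (nat_lit 26280192)) .nil)) .nil)) (.node (.node .leaf (nat_lit 26431200924296598) (.br (nat_lit 0) (.cons (.br (nat_lit 2) (.cons (.rel (nat_lit 71308290)) (.cons (.rel (nat_lit 71304336)) .nil))) (.cons (.br (nat_lit 1) (.cons (.rel (nat_lit 42205200)) (.cons (.rel (nat_lit 37787649)) .nil))) .nil))) .leaf) (nat_lit 26431200924773782) (.br (nat_lit 0) (.cons (.br (nat_lit 1) (.cons (.rel (nat_lit 25171968)) (.cons (.rel (nat_lit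 21495840)) .nil))) .nil)) .leaf))

/-- refutations 140 -/
def e140 : EX := (.node (.node (.node .leaf (nat_lit 26434459738054967) (.br (nat_lit 0) (.cons (.br (nat_lit 1) (.cons (.rel (nat_lit 21250308)) .nil)) .nil)) .leaf) (nat_lit 26435586467587324) (.br (nat_lit 0) (.cons (.br (nat_lit 3) (.cons (.rel (nat_lit 272892162)) .nil)) .nil)) .leaf) (nat_lit 26436863766050942) (.br (nat_lit 0) (.cons (.br (nat_lit 1) (.cons (.rel (nat_lit 20976132)) .nil)) .nil)) (.node (.node .leaf (nat_lit 26436863766655102) (.br (nat_lit 0) (.cons (.br (nat_lit 2) (.cons (.rel (nat_lit 71319648)) .nil)) .nil)) .leaf) (nat_lit 26436883667004954) (.br (nat_lit 0) (.cons (.br (nat_lit 1) (.cons (.rel (nat_lit 22028352)) .nil)) .nil)) .leaf))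

/-- refutations 141 -/
def e141 : EX := (.node (.node (.node .leaf (nat_lit 26406129097521213) (.br (nat_lit 0) (.cons (.br (nat_lit 2) (.cons (.rel (nat_lit 71308290)) .nil)) .nil)) .leaf) (nat_lit 26407434770750200) (.br (nat_lit 2) (.cons (.br (nat_lit 3) (.cons (.rel (nat_lit 402688512)) .nil)) .nil)) .leaf) (nat_lit 26419080526902523) (.br (nat_lit 1) (.cons (.br (nat_lit 5) (.cons (.rel (nat_lit 8606720004)) .nil)) .nil)) (.node .leaf (nat_lit 26419080528389023) (.br (nat_lit 1) (.cons (.br (nat_lit 2) (.cons (.rel (nat_lit 83886177)) .nil)) .nil)) .leaf))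

/-- refutations 142 -/
def e142 : EX := (.node .leaf (nat_lit 26489228124760124) (.br (nat_lit 0) (.cons (.br (nat_lit 1) (.cons (.rel (nat_lit 21037569)) .nil)) .nil)) .leaf)

/-- refutations 143 -/
def e143 : EX := (.node (.node (.node (.node (.node .leaf (nat_lit 26511941050016404) (.br (nat_lit 1) (.cons (.br (nat_lit 2) (.cons (.rel (nat_lit 100941888)) .nil)) .nil)) .leaf) (nat_lit 26512500762915747) (.br (nat_lit 0) (.cons (.br (nat_lit 2) (.cons (.rel (nat_lit 71319648)) .nil)) .nil)) .leaf) (nat_lit 26512500763375000) (.br (nat_lit 0) (.cons (.br (nat_lit 2) (.cons (.rel (nat_lit 71307285)) .nil)) .nil)) (.node .leaf (nat_lit 26513623539106552) (.br (nat_lit 0) (.cons (.br (nat_lit 1) (.cons (.rel (nat_lit 37748805)) .nil)) .nil)) .leaf)) (nat_lit 26513623542190836) (.br (nat_lit 0) (.cons (.br (nat_lit 2) (.cons (.rel (nat_lit 75563268)) .nil)) .nil)) (.node (.node (.node .leaf (nat_lit 26513626581245154) (.br (nat_lit 6) (.cons (.br (nat_lit 0) (.cons (.rel (nat_lit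 17184063498)) (.cons (.rel (nat_lit 17184085008)) .nil))) .nil)) .leaf) (nat_lit 26513626582434479) (.br (nat_lit 0) (.cons (.br (nat_lit 4) (.cons (.rel (nat_lit 1078005768)) .nil)) .nil)) .leaf) (nat_lit 26513626583008019) (.br (nat_lit 1) (.cons (.br (nat_lit 2) (.cons (.rel (nat_lit 83904513)) .nil)) .nil)) (.node .leaf (nat_lit 26513889710057654) (.br (nat_lit 2) (.cons (.br (nat_lit 3) (.cons (.rel (nat_lit 336068928)) .nil)) .nil)) .leaf))) (nat_lit 26513889712155384) (.br (nat_lit 2) (.cons (.br (nat_lit 4) (.cons (.rel (nat_lit 1140850953)) (.cons (.rel (nat_lit 1141121088)) .nil))) (.cons (.br (nat_lit 4) (.cons (.rel (nat_lit 1140857154)) (.cons (.rel (nat_lit 1141121088)) .nil))) .nil))) (.node (.node (.node (.node .leaf (nat_lit 26513889712155435) (.br (nat_lit 2) (.cons (.br (nat_lit 5) (.cons (.rel (nat_lit 4362108993)) (.cons (.rel (nat_lit 4362108993)) (.cons (.rel (nat_lit 4429710336)) .nil)))) .nil)) .leaf) (nat_lit 26513889712722707) (.br (nat_lit 1) (.cons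 (.br (nat_lit 2) (.cons (.rel (nat_lit 167776257)) .nil)) .nil)) .leaf) (nat_lit 26513892350372022) (.br (nat_lit 4) (.cons (.br (nat_lit 5) (.cons (.br (nat_lit 1) (.cons (.rel (nat_lit 1090519080)) (.cons (.rel (nat_lit 1090519080)) (.cons (.rel (nat_lit 4312866816)) (.cons (.rel (nat_lit 8623490304)) .nil))))) .nil)) .nil)) (.node .leaf (nat_lit 26513892350372627) (.br (nat_lit 2) (.cons (.br (nat_lit 5) (.cons (.br (nat_lit 4) (.cons (.rel (nat_lit 5368741896)) (.cons (.rel (nat_lit 1140853008)) .nil))) .nil)) .nil)) .leaf)) (nat_lit 26513892451035923) (.br (nat_lit 0) (.cons (.br (nat_lit 5) (.cons (.rel (nat_lit 8598327552)) (.cons (.rel (nat_lit 4300341264)) (.cons (.rel (nat_lit 8598327552)) .nil)))) .nil)) (.node (.node (.node .leaf (nat_lit 26513892451035947) (.br (nat_lit 0) (.cons (.br (nat_lit 5) (.cons (.rel (nat_lit 4303356993)) .nil)) .nil)) .leaf) (nat_lit 26513894925674678) (.br (nat_lit 5) (.cons (.br (nat_lit 0) (.cons (.rel (nat_lit 4303372305)) (.cons (.rel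 (nat_lit 4300226565)) (.cons (.rel (nat_lit 8598327552)) .nil)))) .nil)) .leaf) (nat_lit 26513894925675307) (.br (nat_lit 5) (.cons (.br (nat_lit 2) (.cons (.rel (nat_lit 4362078225)) (.cons (.rel (nat_lit 4362108993)) .nil))) .nil)) (.node .leaf (nat_lit 26513895139584787) (.br (nat_lit 2) (.cons (.br (nat_lit 5) (.cons (.rel (nat_lit 8724152325)) (.cons (.rel (nat_lit 4362108993)) (.cons (.br (nat_lit 4) (.cons (.rel (nat_lit 5369233680)) (.cons (.rel (nat_lit 5368725570)) (.cons (.rel (nat_lit 5368709253)) .nil)))) .nil)))) .nil)) .leaf))))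

/-- refutations 144 -/
def e144 : EX := (.node (.node (.node (.node (.node (.node .leaf (nat_lit 26514004735923612) (.br (nat_lit 0) (.cons (.br (nat_lit 1) (.cons (.rel (nat_lit 21037569)) .nil)) .nil)) .leaf) (nat_lit 26517274261207696) (.br (nat_lit 1) (.cons (.br (nat_lit 2) (.cons (.rel (nat_lit 84017157)) .nil)) .nil)) (.node .leaf (nat_lit 26517274264392436) (.br (nat_lit 0) (.cons (.br (nat_lit 2) (.cons (.rel (nat_lit 75563268)) .nil)) .nil)) .leaf)) (nat_lit 26518339297305336) (.br (nat_lit 0) (.cons (.br (nat_lit 2) (.cons (.rel (nat_lit 71337984)) .nil)) .nil)) (.node (.node .leaf (nat_lit 26518399542638743) (.br (nat_lit 4) (.cons (.br (nat_lit 5) (.cons (.rel (nat_lit 10737434628)) .nil)) .nil)) .leaf) (nat_lit 26518399542639404) (.br (nat_lit 0) (.cons (.br (nat_lit 1) (.cons (.rel (nat_lit 22086660)) .nil)) .nil)) .leaf)) (nat_lit 26518399542739704) (.br (nat_lit 0) (.cons (.br (nat_lit 1) (.cons (.rel (nat_lit 42205200)) .nil)) .nil)) (.node (.node (.node .leaf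 (nat_lit 26518399542740481) (.br (nat_lit 0) (.cons (.br (nat_lit 1) (.cons (.rel (nat_lit 22028352)) .nil)) .nil)) .leaf) (nat_lit 26518399542882459) (.br (nat_lit 0) (.cons (.br (nat_lit 2) (.cons (.rel (nat_lit 71827713)) (.cons (.rel (nat_lit 71308290)) .nil))) (.cons (.br (nat_lit 3) (.cons (.rel (nat_lit 272892162)) (.cons (.rel (nat_lit 272892162)) .nil))) .nil))) (.node .leaf (nat_lit 26518399543980708) (.br (nat_lit 2) (.cons (.br (nat_lit 3) (.cons (.rel (nat_lit 335549505)) .nil)) .nil)) .leaf)) (nat_lit 26518399544225281) (.br (nat_lit 0) (.cons (.br (nat_lit 2) (.cons (.rel (nat_lit 71311428)) .nil)) .nil)) (.node (.node .leaf (nat_lit 26518399544426553) (.br (nat_lit 0) (.cons (.br (nat_lit 3) (.cons (.rel (nat_lit 545522757)) .nil)) .nil)) .leaf) (nat_lit 26518399545287291) (.br (nat_lit 0) (.cons (.br (nat_lit 4) (.cons (.rel (nat_lit 1079001348)) .nil)) .nil)) .leaf))) (nat_lit 26518399545563291) (.br (nat_lit 2) (.cons (.br (nat_lit 3) (.cons (.rel (nat_lit 335544357))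 .nil)) .nil)) (.node (.node (.node (.node .leaf (nat_lit 26518399545809073) (.br (nat_lit 0) (.cons (.br (nat_lit 1) (.cons (.rel (nat_lit 25198593)) (.cons (.rel (nat_lit 22024209)) (.cons (.rel (nat_lit 25171968)) (.cons (.rel (nat_lit 22086660)) .nil))))) .nil)) .leaf) (nat_lit 26518399545809656) (.br (nat_lit 5) (.cons (.br (nat_lit 1) (.cons (.rel (nat_lit 8623490304)) (.cons (.rel (nat_lit 4328587269)) .nil))) .nil)) (.node .leaf (nat_lit 26518399545810153) (.br (nat_lit 3) (.cons (.br (nat_lit 4) (.cons (.rel (nat_lit 2684354640)) .nil)) .nil)) .leaf)) (nat_lit 26518402047980451) (.br (nat_lit 0) (.cons (.br (nat_lit 2) (.cons (.rel (nat_lit 71304336)) .nil)) .nil)) (.node (.node .leaf (nat_lit 26518402544134931) (.br (nat_lit 0) (.cons (.br (nat_lit 2) (.cons (.rel (nat_lit 71337984)) .nil)) .nil)) .leaf) (nat_lit 26518402544687891) (.br (nat_lit 1) (.cons (.br (nat_lit 5) (.cons (.rel (nat_lit 4328525832)) .nil)) .nil)) .leaf)) (nat_lit 26518402544698131) (.br (nat_lit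 1) (.cons (.br (nat_lit 3) (.cons (.rel (nat_lit 285213204)) .nil)) .nil)) (.node (.node (.node .leaf (nat_lit 26518402544737016) (.br (nat_lit 6) (.cons (.br (nat_lit 2) (.cons (.br (nat_lit 1) (.cons (.rel (nat_lit 83886177)) (.cons (.rel (nat_lit 83886177)) .nil))) (.cons (.rel (nat_lit 34426912788)) .nil))) .nil)) .leaf) (nat_lit 26518402563815730) (.br (nat_lit 0) (.cons (.br (nat_lit 6) (.cons (.rel (nat_lit 17184096321)) .nil)) .nil)) (.node .leaf (nat_lit 26518402565659411) (.br (nat_lit 0) (.cons (.br (nat_lit 1) (.cons (.rel (nat_lit 25198593)) .nil)) .nil)) .leaf)) (nat_lit 26518402653788920) (.br (nat_lit 0) (.cons (.br (nat_lit 1) (.cons (.rel (nat_lit 25198593)) .nil)) .nil)) (.node (.node .leaf (nat_lit 26518404852625535) (.br (nat_lit 0) (.cons (.br (nat_lit 2) (.cons (.rel (nat_lit 142623744)) .nil)) .nil)) .leaf) (nat_lit 26518404852626933) (.br (nat_lit 0) (.cons (.br (nat_lit 2) (.cons (.rel (nat_lit 75759681)) .nil)) .nil)) .leaf)))) (nat_lit 26518404852716407)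 (.br (nat_lit 0) (.cons (.br (nat_lit 1) (.cons (.rel (nat_lit 42209346)) (.cons (.rel (nat_lit 42205200)) .nil))) .nil)) (.node (.node (.node (.node (.node .leaf (nat_lit 26518404852894002) (.br (nat_lit 6) (.cons (.br (nat_lit 0) (.cons (.rel (nat_lit 34368126981)) (.cons (.rel (nat_lit 17184063498)) .nil))) .nil)) .leaf) (nat_lit 26518404852894452) (.br (nat_lit 4) (.cons (.br (nat_lit 5) (.cons (.rel (nat_lit 10737434628)) .nil)) .nil)) (.node .leaf (nat_lit 26518404852894496) (.br (nat_lit 2) (.cons (.br (nat_lit 5) (.cons (.rel (nat_lit 4362076170)) (.cons (.rel (nat_lit 4362076170)) .nil))) .nil)) .leaf)) (nat_lit 26518404852894583) (.br (nat_lit 5) (.cons (.br (nat_lit 2) (.cons (.rel (nat_lit 4362077220)) (.cons (.rel (nat_lit 8724152325)) .nil))) .nil)) (.node (.node .leaf (nat_lit 26518404852895221) (.br (nat_lit 0) (.cons (.br (nat_lit 6) (.cons (.rel (nat_lit 17184063498)) .nil)) .nil)) .leaf) (nat_lit 26518404852922425) (.br (nat_lit 0) (.cons (.br (nat_lit 1) (.cons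 (.rel (nat_lit 42205200)) .nil)) .nil)) .leaf)) (nat_lit 26518404853127450) (.br (nat_lit 1) (.cons (.br (nat_lit 2) (.cons (.rel (nat_lit 167776257)) (.cons (.rel (nat_lit 83888196)) .nil))) .nil)) (.node (.node (.node .leaf (nat_lit 26518404853127474) (.br (nat_lit 6) (.cons (.br (nat_lit 1) (.cons (.rel (nat_lit 17196662850)) (.cons (.rel (nat_lit 34376778048)) .nil))) .nil)) .leaf) (nat_lit 26518404853127928) (.br (nat_lit 2) (.cons (.br (nat_lit 4) (.cons (.rel (nat_lit 1207992321)) .nil)) .nil)) (.node .leaf (nat_lit 26518404853252883) (.br (nat_lit 0) (.cons (.br (nat_lit 1) (.cons (.rel (nat_lit 21037569)) .nil)) .nil)) .leaf)) (nat_lit 26518404854200626) (.br (nat_lit 0) (.cons (.br (nat_lit 2) (.cons (.rel (nat_lit 71337984)) .nil)) .nil)) (.node (.node .leaf (nat_lit 26518404854201207) (.br (nat_lit 3) (.cons (.br (nat_lit 5) (.cons (.rel (nat_lit 8858371092)) .nil)) .nil)) .leaf) (nat_lit 26518404854201845) (.br (nat_lit 0) (.cons (.br (nat_lit 3) (.cons (.rel (nat_lit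 273159168)) .nil)) .nil)) .leaf))) (nat_lit 26518404854213884) (.br (nat_lit 1) (.cons (.br (nat_lit 2) (.cons (.rel (nat_lit 83955720)) .nil)) .nil)) (.node (.node (.node (.node .leaf (nat_lit 26518404854416885) (.br (nat_lit 2) (.cons (.br (nat_lit 1) (.cons (.rel (nat_lit 83886177)) (.cons (.rel (nat_lit 83890320)) .nil))) .nil)) .leaf) (nat_lit 26518404855196435) (.br (nat_lit 1) (.cons (.br (nat_lit 4) (.cons (.rel (nat_lit 1090560000)) (.cons (.rel (nat_lit 1090521090)) .nil))) .nil)) (.node .leaf (nat_lit 26518404855544695) (.br (nat_lit 0) (.cons (.br (nat_lit 2) (.cons (.rel (nat_lit 71308290)) .nil)) .nil)) .leaf)) (nat_lit 26518404855708408) (.br (nat_lit 1) (.cons (.br (nat_lit 2) (.cons (.rel (nat_lit 100941888)) .nil)) .nil)) (.node (.node .leaf (nat_lit 26518404855759154) (.br (nat_lit 1) (.cons (.br (nat_lit 6) (.cons (.br (nat_lit 0) (.cons (.rel (nat_lit 37765122)) (.cons (.rel (nat_lit 21037569)) (.cons (.rel (nat_lit 37748805)) (.cons (.rel (nat_lit 37765122))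 (.cons (.rel (nat_lit 17184063498)) .nil)))))) (.cons (.rel (nat_lit 17196662850)) (.cons (.rel (nat_lit 17196679176)) .nil)))) (.cons (.br (nat_lit 6) (.cons (.br (nat_lit 0) (.cons (.rel (nat_lit 34368126981)) (.cons (.rel (nat_lit 17184096321)) (.cons (.rel (nat_lit 17221812288)) (.cons (.rel (nat_lit 37765122)) (.cons (.rel (nat_lit 37765122)) .nil)))))) (.cons (.rel (nat_lit 17196679176)) (.cons (.rel (nat_lit 17196662850)) .nil)))) (.cons (.br (nat_lit 4) (.cons (.rel (nat_lit 1090521090)) (.cons (.rel (nat_lit 1090521090)) (.cons (.rel (nat_lit 1090785792)) .nil)))) .nil)))) .leaf) (nat_lit 26518404855759635) (.br (nat_lit 2) (.cons (.br (nat_lit 4) (.cons (.rel (nat_lit 1140883776)) (.cons (.rel (nat_lit 1140850953)) .nil))) .nil)) .leaf)) (nat_lit 26518404855759735) (.br (nat_lit 2) (.cons (.br (nat_lit 5) (.cons (.rel (nat_lit 4363419648)) .nil)) .nil)) (.node (.node (.node .leaf (nat_lit 26518404855760155) (.br (nat_lit 4) (.cons (.br (nat_lit 6) (.cons (.rel (nat_lit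 18253874208)) .nil)) .nil)) .leaf) (nat_lit 26518404855798520) (.br (nat_lit 0) (.cons (.br (nat_lit 6) (.cons (.rel (nat_lit 17184063498)) .nil)) .nil)) (.node .leaf (nat_lit 26519172638074264) (.br (nat_lit 0) (.cons (.br (nat_lit 4) (.cons (.rel (nat_lit 1077944322)) .nil)) .nil)) .leaf)) (nat_lit 26519177949309715) (.br (nat_lit 0) (.cons (.br (nat_lit 1) (.cons (.rel (nat_lit 22028352)) .nil)) .nil)) (.node (.node .leaf (nat_lit 26519177949358840) (.br (nat_lit 2) (.cons (.br (nat_lit 0) (.cons (.rel (nat_lit 71311428)) (.cons (.rel (nat_lit 71307285)) .nil))) .nil)) .leaf) (nat_lit 26519177949359005) (.br (nat_lit 0) (.cons (.br (nat_lit 2) (.cons (.rel (nat_lit 71311428)) .nil)) .nil)) .leaf)))))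

/-- refutations 145 -/
def e145 : EX := (.node (.node (.node (.node (.node .leaf (nat_lit 26519203716635384) (.br (nat_lit 0) (.cons (.br (nat_lit 2) (.cons (.rel (nat_lit 71307285)) .nil)) .nil)) .leaf) (nat_lit 26519464579655862) (.br (nat_lit 0) (.cons (.br (nat_lit 1) (.cons (.rel (nat_lit 37748805)) .nil)) .nil)) .leaf) (nat_lit 26522646013766909) (.br (nat_lit 1) (.cons (.br (nat_lit 3) (.cons (.rel (nat_lit 285278784)) .nil)) .nil)) (.node .leaf (nat_lit 26522648800705172) (.br (nat_lit 0) (.cons (.br (nat_lit 1) (.cons (.rel (nat_lit 21037569)) .nil)) .nil)) .leaf)) (nat_lit 26522648800705447) (.br (nat_lit 0) (.cons (.br (nat_lit 1) (.cons (.rel (nat_lit 25198593)) .nil)) .nil)) (.node (.node .leaf (nat_lit 26524403906918461) (.br (nat_lit 2) (.cons (.br (nat_lit 3) (.cons (.rel (nat_lit 671089668)) .nil)) .nil)) .leaf) (nat_lit 26524798926454966) (.br (nat_lit 0) (.cons (.br (nat_lit 5) (.cons (.rel (nat_lit 4299425025)) .nil)) .nil)) (.node .leaf (nat_lit 26524798926455595)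 (.br (nat_lit 2) (.cons (.br (nat_lit 5) (.cons (.rel (nat_lit 8724152325)) .nil)) .nil)) .leaf))) (nat_lit 26524798928257330) (.br (nat_lit 1) (.cons (.br (nat_lit 2) (.cons (.rel (nat_lit 83888196)) .nil)) .nil)) (.node (.node (.node (.node .leaf (nat_lit 26524801564672182) (.br (nat_lit 2) (.cons (.br (nat_lit 5) (.cons (.rel (nat_lit 4430299137)) .nil)) .nil)) .leaf) (nat_lit 26524801564672811) (.br (nat_lit 2) (.cons (.br (nat_lit 5) (.cons (.rel (nat_lit 8724152325)) .nil)) .nil)) .leaf) (nat_lit 26524801564673377) (.br (nat_lit 2) (.cons (.br (nat_lit 5) (.cons (.rel (nat_lit 4430237700)) .nil)) .nil)) (.node .leaf (nat_lit 26524801665335478) (.br (nat_lit 0) (.cons (.br (nat_lit 5) (.cons (.rel (nat_lit 4300226565)) .nil)) .nil)) .leaf)) (nat_lit 26524804353884315) (.br (nat_lit 2) (.cons (.br (nat_lit 5) (.cons (.rel (nat_lit 4362076170)) .nil)) .nil)) (.node (.node .leaf (nat_lit 26524804353884971) (.br (nat_lit 2) (.cons (.br (nat_lit 5) (.cons (.rel (nat_lit 4362076170))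 .nil)) .nil)) .leaf) (nat_lit 26524804353885561) (.br (nat_lit 5) (.cons (.br (nat_lit 0) (.cons (.rel (nat_lit 4300210248)) (.cons (.rel (nat_lit 8598327552)) (.cons (.rel (nat_lit 4300280832)) .nil)))) .nil)) (.node .leaf (nat_lit 26524804355687287) (.br (nat_lit 1) (.cons (.br (nat_lit 2) (.cons (.rel (nat_lit 83894274)) .nil)) .nil)) .leaf))))

/-- refutations 146 -/
def e146 : EX := (.node (.node .leaf (nat_lit 26600550739950328) (.br (nat_lit 1) (.cons (.br (nat_lit 2) (.cons (.rel (nat_lit 83886177)) .nil)) .nil)) .leaf) (nat_lit 26601544520066284) (.br (nat_lit 0) (.cons (.br (nat_lit 1) (.cons (.rel (nat_lit 22167552)) .nil)) .nil)) (.node .leaf (nat_lit 26605918923023612) (.br (nat_lit 0) (.cons (.br (nat_lit 4) (.cons (.rel (nat_lit 1077946389)) .nil)) .nil)) .leaf))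

/-- refutations 147 -/
def e147 : EX := (.node (.node (.node (.node (.node .leaf (nat_lit 26606365803924256) (.br (nat_lit 0) (.cons (.br (nat_lit 1) (.cons (.rel (nat_lit 20976132)) .nil)) .nil)) .leaf) (nat_lit 26606365803930356) (.br (nat_lit 0) (.cons (.br (nat_lit 3) (.cons (.rel (nat_lit 272647680)) .nil)) .nil)) .leaf) (nat_lit 26606365804077367) (.br (nat_lit 0) (.cons (.br (nat_lit 1) (.cons (.rel (nat_lit 25182276)) .nil)) .nil)) (.node .leaf (nat_lit 26606365804138746) (.br (nat_lit 0) (.cons (.br (nat_lit 1) (.cons (.rel (nat_lit 21495840)) .nil)) .nil)) .leaf)) (nat_lit 26606365805153056) (.br (nat_lit 0) (.cons (.br (nat_lit 2) (.cons (.rel (nat_lit 75759681)) .nil)) .nil)) (.node (.node .leaf (nat_lit 26606365805343970) (.br (nat_lit 0) (.cons (.br (nat_lit 1) (.cons (.rel (nat_lit 21495840)) .nil)) .nil)) .leaf) (nat_lit 26606365805405467) (.br (nat_lit 1) (.cons (.br (nat_lit 3) (.cons (.rel (nat_lit 570691584)) .nil)) .nil)) (.node .leaf (nat_lit 26606365805405695)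 (.br (nat_lit 0) (.cons (.br (nat_lit 1) (.cons (.rel (nat_lit 21242136)) .nil)) .nil)) .leaf))) (nat_lit 26606365806379795) (.br (nat_lit 1) (.cons (.br (nat_lit 2) (.cons (.rel (nat_lit 83894274)) .nil)) .nil)) (.node (.node (.node (.node .leaf (nat_lit 26606365806380258) (.br (nat_lit 1) (.cons (.br (nat_lit 2) (.cons (.rel (nat_lit 83890320)) .nil)) .nil)) .leaf) (nat_lit 26606365806469920) (.br (nat_lit 1) (.cons (.br (nat_lit 2) (.cons (.rel (nat_lit 83955720)) .nil)) .nil)) .leaf) (nat_lit 26606365806738295) (.br (nat_lit 1) (.cons (.br (nat_lit 3) (.cons (.rel (nat_lit 286344192)) .nil)) .nil)) (.node .leaf (nat_lit 26606365806878881) (.br (nat_lit 1) (.cons (.br (nat_lit 2) (.cons (.rel (nat_lit 83923968)) .nil)) .nil)) .leaf)) (nat_lit 26606365806879507) (.br (nat_lit 1) (.cons (.br (nat_lit 2) (.cons (.rel (nat_lit 100663569)) .nil)) .nil)) (.node (.node .leaf (nat_lit 26606365806879520) (.br (nat_lit 0) (.cons (.br (nat_lit 6) (.cons (.rel (nat_lit 17184065553)) .nil))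 .nil)) .leaf) (nat_lit 26606365806891820) (.br (nat_lit 0) (.cons (.br (nat_lit 2) (.cons (.rel (nat_lit 71304336)) .nil)) .nil)) (.node .leaf (nat_lit 26606365806952759) (.br (nat_lit 1) (.cons (.br (nat_lit 2) (.cons (.rel (nat_lit 83904513)) (.cons (.rel (nat_lit 83904513)) .nil))) (.cons (.br (nat_lit 2) (.cons (.rel (nat_lit 83890320)) (.cons (.rel (nat_lit 83888196)) .nil))) .nil))) .leaf))))

/-- refutations 148 -/
def e148 : EX := (.node (.node .leaf (nat_lit 26828303762496248) (.br (nat_lit 0) (.cons (.br (nat_lit 1) (.cons (.rel (nat_lit 21495840)) .nil)) .nil)) .leaf) (nat_lit 26829609429993754) (.br (nat_lit 1) (.cons (.br (nat_lit 2) (.cons (.rel (nat_lit 83888196)) .nil)) .nil)) .leaf)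

/-- refutations 149 -/
def e149 : EX := (.node (.node (.node (.node .leaf (nat_lit 26835060024510746) (.br (nat_lit 0) (.cons (.br (nat_lit 1) (.cons (.rel (nat_lit 42205200)) .nil)) .nil)) .leaf) (nat_lit 26835062001003172) (.br (nat_lit 1) (.cons (.br (nat_lit 4) (.cons (.rel (nat_lit 1090560000)) .nil)) .nil)) (.node .leaf (nat_lit 26835062150412544) (.br (nat_lit 0) (.cons (.br (nat_lit 1) (.cons (.rel (nat_lit 22024209)) .nil)) .nil)) .leaf)) (nat_lit 26835062151998716) (.br (nat_lit 0) (.cons (.br (nat_lit 5) (.cons (.rel (nat_lit 4300226565)) .nil)) .nil)) (.node (.node .leaf (nat_lit 26835062151998847) (.br (nat_lit 2) (.cons (.br (nat_lit 3) (.cons (.rel (nat_lit 335545362)) .nil)) .nil)) .leaf) (nat_lit 26835062151998872) (.br (nat_lit 0) (.cons (.br (nat_lit 3) (.cons (.rel (nat_lit 273219600)) .nil)) .nil)) (.node .leaf (nat_lit 26835062152000763) (.br (nat_lit 0) (.cons (.br (nat_lit 2) (.cons (.rel (nat_lit 71337984)) .nil)) .nil)) .leaf))) (nat_lit 26835062152293112)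 (.br (nat_lit 1) (.cons (.br (nat_lit 2) (.cons (.rel (nat_lit 84149760)) .nil)) .nil)) (.node (.node (.node .leaf (nat_lit 26835062153533751) (.br (nat_lit 1) (.cons (.br (nat_lit 2) (.cons (.rel (nat_lit 83886177)) .nil)) .nil)) .leaf) (nat_lit 26835062153583352) (.br (nat_lit 0) (.cons (.br (nat_lit 2) (.cons (.rel (nat_lit 71307285)) .nil)) .nil)) (.node .leaf (nat_lit 26835064018463476) (.br (nat_lit 0) (.cons (.br (nat_lit 1) (.cons (.rel (nat_lit 37748805)) .nil)) .nil)) .leaf)) (nat_lit 26835656746457875) (.br (nat_lit 1) (.cons (.br (nat_lit 2) (.cons (.rel (nat_lit 83890320)) .nil)) .nil)) (.node (.node .leaf (nat_lit 26840346847918840) (.br (nat_lit 0) (.cons (.br (nat_lit 4) (.cons (.rel (nat_lit 1077936225)) .nil)) .nil)) .leaf) (nat_lit 26840385783347261) (.br (nat_lit 0) (.cons (.br (nat_lit 3) (.cons (.rel (nat_lit 272647680)) .nil)) .nil)) .leaf)))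

/-- refutations 152 -/
def e152 : EX := (.node .leaf (nat_lit 26874326617486618) (.br (nat_lit 0) (.cons (.br (nat_lit 3) (.cons (.rel (nat_lit 276956160)) .nil)) .nil)) .leaf)

/-- refutations 153 -/
def e153 : EX := (.node (.node .leaf (nat_lit 26875176475719068) (.br (nat_lit 0) (.cons (.br (nat_lit 1) (.cons (.rel (nat_lit 21495840)) .nil)) .nil)) .leaf) (nat_lit 26875552852798717) (.br (nat_lit 0) (.cons (.br (nat_lit 3) (.cons (.rel (nat_lit 541069344)) .nil)) .nil)) .leaf)

/-- refutations 155 -/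
def e155 : EX := (.node (.node .leaf (nat_lit 26922576188990240) (.br (nat_lit 0) (.cons (.br (nat_lit 6) (.cons (.rel (nat_lit 34368126981)) (.cons (.rel (nat_lit 17184198657)) .nil))) .nil)) .leaf) (nat_lit 26923022864169746) (.br (nat_lit 0) (.cons (.br (nat_lit 2) (.cons (.rel (nat_lit 71311428)) .nil)) .nil)) (.node .leaf (nat_lit 26923022951900443) (.br (nat_lit 1) (.cons (.br (nat_lit 2) (.cons (.rel (nat_lit 83894274)) .nil)) .nil)) .leaf))

/-- refutations 156 -/
def e156 : EX := (.node (.node .leaf (nat_lit 26926998094438525) (.br (nat_lit 2) (.cons (.br (nat_lit 3) (.cons (.rel (nat_lit 335544357)) .nil)) .nil)) .leaf) (nat_lit 26927045016118775) (.br (nat_lit 3) (.cons (.br (nat_lit 4) (.cons (.rel (nat_lit 1342177440)) .nil)) .nil)) (.node .leaf (nat_lit 26929024185940093) (.br (nat_lit 2) (.cons (.br (nat_lit 3) (.cons (.rel (nat_lit 336593154)) .nil)) .nil)) .leaf))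

/-- refutations 157 -/
def e157 : EX := (.node (.node (.node (.node (.node .leaf (nat_lit 26933949262512888) (.br (nat_lit 2) (.cons (.br (nat_lit 6) (.cons (.rel (nat_lit 34495021056)) .nil)) .nil)) .leaf) (nat_lit 26933951316179604) (.br (nat_lit 3) (.cons (.br (nat_lit 5) (.cons (.rel (nat_lit 4831839234)) .nil)) .nil)) .leaf) (nat_lit 26933951317711608) (.br (nat_lit 0) (.cons (.br (nat_lit 2) (.cons (.rel (nat_lit 71337984)) .nil)) .nil)) (.node .leaf (nat_lit 26935011253000952) (.br (nat_lit 2) (.cons (.br (nat_lit 4) (.cons (.rel (nat_lit 1140883776)) .nil)) .nil)) .leaf)) (nat_lit 26935011254803343) (.br (nat_lit 0) (.cons (.br (nat_lit 1) (.cons (.rel (nat_lit 25182276)) .nil)) .nil)) (.node (.node .leaf (nat_lit 26935014414148471) (.br (nat_lit 0) (.cons (.br (nat_lit 1) (.cons (.rel (nat_lit 22028352)) .nil)) .nil)) .leaf) (nat_lit 26935153907022484) (.br (nat_lit 0) (.cons (.br (nat_lit 1) (.cons (.rel (nat_lit 25198593)) .nil)) .nil)) (.node .leaf (nat_lit 26935153908056824)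 (.br (nat_lit 0) (.cons (.br (nat_lit 3) (.cons (.rel (nat_lit 541069344)) .nil)) .nil)) .leaf))) (nat_lit 26939285664526618) (.br (nat_lit 1) (.cons (.br (nat_lit 2) (.cons (.rel (nat_lit 83904513)) .nil)) .nil)) (.node (.node (.node (.node .leaf (nat_lit 26940617103846136) (.br (nat_lit 0) (.cons (.br (nat_lit 2) (.cons (.rel (nat_lit 71337984)) .nil)) .nil)) .leaf) (nat_lit 26940617103874179) (.br (nat_lit 5) (.cons (.br (nat_lit 2) (.cons (.rel (nat_lit 4362092676)) (.cons (.rel (nat_lit 8657060097)) .nil))) .nil)) .leaf) (nat_lit 26940617104388223) (.br (nat_lit 2) (.cons (.br (nat_lit 0) (.cons (.rel (nat_lit 71337984)) (.cons (.rel (nat_lit 71337984)) .nil))) .nil)) (.node .leaf (nat_lit 26940617104388351) (.br (nat_lit 2) (.cons (.br (nat_lit 5) (.cons (.rel (nat_lit 8657060097)) (.cons (.rel (nat_lit 4362092676)) .nil))) .nil)) .leaf)) (nat_lit 26940617104408882) (.br (nat_lit 2) (.cons (.br (nat_lit 3) (.cons (.rel (nat_lit 671170560)) .nil)) .nil)) (.node (.node .leaf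 (nat_lit 26940617106955000) (.br (nat_lit 5) (.cons (.br (nat_lit 0) (.cons (.rel (nat_lit 8598601728)) (.cons (.rel (nat_lit 4299170304)) .nil))) .nil)) .leaf) (nat_lit 26941390200515320) (.br (nat_lit 0) (.cons (.br (nat_lit 2) (.cons (.rel (nat_lit 77070336)) .nil)) .nil)) (.node .leaf (nat_lit 26941390200570643) (.br (nat_lit 0) (.cons (.br (nat_lit 4) (.cons (.rel (nat_lit 1077944322)) .nil)) .nil)) .leaf))))

/-- refutations 158 -/
def e158 : EX := (.node (.node (.node (.node (.node (.node .leaf (nat_lit 26945510894479515) (.br (nat_lit 0) (.cons (.br (nat_lit 1) (.cons (.rel (nat_lit 25182276)) .nil)) .nil)) .leaf) (nat_lit 26945510894480120) (.br (nat_lit 2) (.cons (.br (nat_lit 4) (.cons (.rel (nat_lit 1207976004)) .nil)) .nil)) .leaf) (nat_lit 26945511311897387) (.br (nat_lit 1) (.cons (.br (nat_lit 5) (.cons (.rel (nat_lit 4312866816)) (.cons (.rel (nat_lit 4311747072)) .nil))) .nil)) (.node (.node .leaf (nat_lit 26945511312612088) (.br (nat_lit 0) (.cons (.br (nat_lit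 1) (.cons (.rel (nat_lit 20976132)) .nil)) .nil)) .leaf) (nat_lit 26945511312612605) (.br (nat_lit 0) (.cons (.br (nat_lit 1) (.cons (.rel (nat_lit 20976132)) .nil)) .nil)) .leaf)) (nat_lit 26945511312932093) (.br (nat_lit 2) (.cons (.br (nat_lit 5) (.cons (.rel (nat_lit 4362076170)) .nil)) .nil)) (.node (.node (.node .leaf (nat_lit 26945511313910571) (.br (nat_lit 1) (.cons (.br (nat_lit 4) (.cons (.rel (nat_lit 1090600977)) .nil)) .nil)) .leaf) (nat_lit 26945513366508307) (.br (nat_lit 2) (.cons (.br (nat_lit 3) (.cons (.rel (nat_lit 671089668)) .nil)) .nil)) .leaf) (nat_lit 26945513366748413) (.br (nat_lit 4) (.cons (.br (nat_lit 5) (.cons (.rel (nat_lit 5368725570)) .nil)) .nil)) (.node (.node .leaf (nat_lit 26945513367054643) (.br (nat_lit 1) (.cons (.br (nat_lit 2) (.cons (.rel (nat_lit 151535622)) .nil)) .nil)) .leaf) (nat_lit 26945513367105842) (.br (nat_lit 5) (.cons (.br (nat_lit 1) (.cons (.rel (nat_lit 4312793094)) (.cons (.rel (nat_lit 4328525832)) .nil))) .nil)) .leaf)))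 (nat_lit 26945513367821565) (.br (nat_lit 0) (.cons (.br (nat_lit 5) (.cons (.rel (nat_lit 4300226565)) .nil)) .nil)) (.node (.node (.node (.node .leaf (nat_lit 26945513367873050) (.br (nat_lit 0) (.cons (.br (nat_lit 2) (.cons (.rel (nat_lit 71827713)) .nil)) .nil)) .leaf) (nat_lit 26945513368140436) (.br (nat_lit 1) (.cons (.br (nat_lit 5) (.cons (.rel (nat_lit 4312809600)) (.cons (.rel (nat_lit 4312809600)) .nil))) (.cons (.br (nat_lit 5) (.cons (.rel (nat_lit 4328539200)) (.cons (.rel (nat_lit 8623490304)) .nil))) .nil))) .leaf) (nat_lit 26945513368141053) (.br (nat_lit 2) (.cons (.br (nat_lit 5) (.cons (.rel (nat_lit 4362078225)) (.cons (.br (nat_lit 4) (.cons (.rel (nat_lit 5368709253)) (.cons (.rel (nat_lit 1207992321)) (.cons (.rel (nat_lit 5368741896)) .nil)))) (.cons (.rel (nat_lit 8724152325)) .nil)))) (.cons (.br (nat_lit 5) (.cons (.rel (nat_lit 8724152325)) (.cons (.rel (nat_lit 4362076170)) (.cons (.rel (nat_lit 4362076170)) .nil)))) .nil))) (.node (.node .leaf (nat_lit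 26945513369118875) (.br (nat_lit 2) (.cons (.br (nat_lit 4) (.cons (.rel (nat_lit 1207976004)) .nil)) .nil)) .leaf) (nat_lit 26945513369119480) (.br (nat_lit 2) (.cons (.br (nat_lit 5) (.cons (.rel (nat_lit 4362149892)) (.cons (.rel (nat_lit 8657043780)) .nil))) .nil)) .leaf)) (nat_lit 26945513369120007) (.br (nat_lit 0) (.cons (.br (nat_lit 2) (.cons (.rel (nat_lit 71337984)) .nil)) .nil)) (.node (.node (.node .leaf (nat_lit 26945513369165026) (.br (nat_lit 0) (.cons (.br (nat_lit 1) (.cons (.rel (nat_lit 21037569)) .nil)) .nil)) .leaf) (nat_lit 26945513369378045) (.br (nat_lit 1) (.cons (.br (nat_lit 2) (.cons (.rel (nat_lit 167776257)) .nil)) .nil)) .leaf) (nat_lit 26945513369632121) (.br (nat_lit 0) (.cons (.br (nat_lit 1) (.cons (.rel (nat_lit 21037569)) .nil)) .nil)) (.node (.node .leaf (nat_lit 26945513479994594) (.br (nat_lit 1) (.cons (.br (nat_lit 4) (.cons (.rel (nat_lit 1107362052)) .nil)) .nil)) .leaf) (nat_lit 26945513480352050) (.br (nat_lit 0) (.cons (.br (nat_lit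 5) (.cons (.rel (nat_lit 4303356993)) .nil)) .nil)) .leaf)))) (nat_lit 26946779463391363) (.br (nat_lit 2) (.cons (.br (nat_lit 0) (.cons (.rel (nat_lit 71337984)) (.cons (.rel (nat_lit 142623744)) (.cons (.rel (nat_lit 72352128)) .nil)))) .nil)) (.node (.node (.node (.node (.node .leaf (nat_lit 26946779463391387) (.br (nat_lit 2) (.cons (.br (nat_lit 4) (.cons (.rel (nat_lit 1140986112)) (.cons (.rel (nat_lit 1140850953)) (.cons (.rel (nat_lit 1140850953)) .nil)))) (.cons (.br (nat_lit 5) (.cons (.rel (nat_lit 8724152325)) (.cons (.rel (nat_lit 4362149892)) (.cons (.rel (nat_lit 8724152325)) .nil)))) .nil))) .leaf) (nat_lit 26946779463391992) (.br (nat_lit 2) (.cons (.br (nat_lit 5) (.cons (.rel (nat_lit 4362158112)) (.cons (.rel (nat_lit 4362078225)) (.cons (.rel (nat_lit 4362077220)) .nil)))) (.cons (.br (nat_lit 5) (.cons (.rel (nat_lit 4362097680)) (.cons (.rel (nat_lit 4362076170)) (.cons (.rel (nat_lit 4362076170)) .nil)))) (.cons (.br (nat_lit 5) (.cons (.rel (nat_lit 4362076170))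 (.cons (.rel (nat_lit 4362082368)) (.cons (.rel (nat_lit 4362097680)) .nil)))) .nil)))) .leaf) (nat_lit 26946779463392609) (.br (nat_lit 5) (.cons (.br (nat_lit 2) (.cons (.rel (nat_lit 4362158112)) (.cons (.rel (nat_lit 4362078225)) .nil))) .nil)) (.node (.node .leaf (nat_lit 26946779466228344) (.br (nat_lit 0) (.cons (.br (nat_lit 1) (.cons (.rel (nat_lit 21037569)) .nil)) .nil)) .leaf) (nat_lit 26946782202271875) (.br (nat_lit 2) (.cons (.br (nat_lit 0) (.cons (.rel (nat_lit 71327745)) (.cons (.rel (nat_lit 71327745)) .nil))) .nil)) .leaf)) (nat_lit 26946784790157443) (.br (nat_lit 2) (.cons (.br (nat_lit 4) (.cons (.rel (nat_lit 1207976004)) (.cons (.rel (nat_lit 1140883776)) .nil))) (.cons (.br (nat_lit 0) (.cons (.rel (nat_lit 71327745)) (.cons (.rel (nat_lit 71337984)) (.cons (.rel (nat_lit 71327745)) .nil)))) .nil))) (.node (.node (.node .leaf (nat_lit 26946784790158689) (.br (nat_lit 2) (.cons (.br (nat_lit 4) (.cons (.rel (nat_lit 1140883776)) .nil)) .nil)) .leaf) (nat_lit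 26947011391576851) (.br (nat_lit 5) (.cons (.br (nat_lit 0) (.cons (.rel (nat_lit 4300341264)) (.cons (.rel (nat_lit 4303355988)) .nil))) .nil)) .leaf) (nat_lit 26947014029794681) (.br (nat_lit 0) (.cons (.br (nat_lit 2) (.cons (.rel (nat_lit 142623744)) .nil)) .nil)) (.node (.node .leaf (nat_lit 26947014032425091) (.br (nat_lit 2) (.cons (.br (nat_lit 5) (.cons (.rel (nat_lit 8657380368)) (.cons (.rel (nat_lit 4363419648)) .nil))) .nil)) .leaf) (nat_lit 26947014032425115) (.br (nat_lit 2) (.cons (.br (nat_lit 5) (.cons (.rel (nat_lit 8724152325)) .nil)) .nil)) .leaf))) (nat_lit 26947016605096067) (.br (nat_lit 2) (.cons (.br (nat_lit 5) (.cons (.rel (nat_lit 4362078225)) .nil)) .nil)) (.node (.node (.node (.node .leaf (nat_lit 26947016605097337) (.br (nat_lit 2) (.cons (.br (nat_lit 4) (.cons (.rel (nat_lit 1140986112)) .nil)) .nil)) .leaf) (nat_lit 26947016605117176) (.br (nat_lit 0) (.cons (.br (nat_lit 2) (.cons (.rel (nat_lit 71307285)) .nil)) .nil)) .leaf) (nat_lit 26947016607727747)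 (.br (nat_lit 5) (.cons (.br (nat_lit 2) (.cons (.rel (nat_lit 8658428160)) (.cons (.rel (nat_lit 4362149892)) .nil))) .nil)) (.node (.node .leaf (nat_lit 26947016607727771) (.br (nat_lit 2) (.cons (.br (nat_lit 5) (.cons (.rel (nat_lit 4362108993)) .nil)) .nil)) .leaf) (nat_lit 26947016607728376) (.br (nat_lit 5) (.cons (.br (nat_lit 4) (.cons (.rel (nat_lit 5368725570)) (.cons (.rel (nat_lit 5368741896)) .nil))) .nil)) .leaf)) (nat_lit 26947016607728427) (.br (nat_lit 2) (.cons (.br (nat_lit 5) (.cons (.br (nat_lit 0) (.cons (.rel (nat_lit 8665530369)) (.cons (.rel (nat_lit 8598327552)) .nil))) .nil)) .nil)) (.node (.node (.node .leaf (nat_lit 26947016819006227) (.br (nat_lit 0) (.cons (.br (nat_lit 2) (.cons (.rel (nat_lit 71372865)) .nil)) .nil)) .leaf) (nat_lit 26947016819006841) (.br (nat_lit 5) (.cons (.br (nat_lit 0) (.cons (.rel (nat_lit 8598389001)) (.cons (.rel (nat_lit 4300210248)) .nil))) .nil)) .leaf) (nat_lit 26947016819568946) (.br (nat_lit 2) (.cons (.br (nat_lit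 5) (.cons (.rel (nat_lit 4362092676)) (.cons (.rel (nat_lit 4362092676)) .nil))) .nil)) (.node (.node .leaf (nat_lit 26947016819569527) (.br (nat_lit 0) (.cons (.br (nat_lit 1) (.cons (.rel (nat_lit 25198593)) .nil)) .nil)) .leaf) (nat_lit 26947017339304847) (.br (nat_lit 1) (.cons (.br (nat_lit 5) (.cons (.rel (nat_lit 4312285185)) .nil)) .nil)) .leaf)))))

/-- refutations 159 -/
def e159 : EX := (.node (.node (.node (.node .leaf (nat_lit 27004320089420563) (.br (nat_lit 1) (.cons (.br (nat_lit 2) (.cons (.rel (nat_lit 84951300)) .nil)) .nil)) .leaf) (nat_lit 27005569094674719) (.br (nat_lit 0) (.cons (.br (nat_lit 2) (.cons (.rel (nat_lit 71307285)) .nil)) .nil)) .leaf) (nat_lit 27005569096260344) (.br (nat_lit 1) (.cons (.br (nat_lit 2) (.cons (.rel (nat_lit 83886177)) .nil)) .nil)) (.node .leaf (nat_lit 27006207856337202) (.br (nat_lit 0) (.cons (.br (nat_lit 1) (.cons (.rel (nat_lit 25198593)) .nil)) .nil)) .leaf)) (nat_lit 27006207856839412) (.br (nat_lit 0) (.cons (.br (nat_lit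 1) (.cons (.rel (nat_lit 37757952)) .nil)) .nil)) (.node (.node .leaf (nat_lit 27006207857507091) (.br (nat_lit 0) (.cons (.br (nat_lit 2) (.cons (.rel (nat_lit 71337984)) .nil)) .nil)) .leaf) (nat_lit 27010762746172152) (.br (nat_lit 1) (.cons (.br (nat_lit 3) (.cons (.rel (nat_lit 285233664)) .nil)) .nil)) (.node .leaf (nat_lit 27010762747714296) (.br (nat_lit 1) (.cons (.br (nat_lit 2) (.cons (.rel (nat_lit 83890320)) .nil)) .nil)) .leaf)))

/-- refutations 160 -/
def e160 : EX := (.node (.node (.node (.node (.node (.node .leaf (nat_lit 27010980751944467) (.br (nat_lit 0) (.cons (.br (nat_lit 5) (.cons (.rel (nat_lit 4299170304)) .nil)) .nil)) .leaf) (nat_lit 27010980751945205) (.br (nat_lit 0) (.cons (.br (nat_lit 2) (.cons (.rel (nat_lit 71304336)) .nil)) .nil)) .leaf) (nat_lit 27010980752493304) (.br (nat_lit 0) (.cons (.br (nat_lit 4) (.cons (.rel (nat_lit 1077938244)) .nil)) .nil)) (.node .leaf (nat_lit 27010980755004179) (.br (nat_lit 0) (.cons (.br (nat_lit 6) (.cons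 (.rel (nat_lit 17184065553)) (.cons (.rel (nat_lit 17184063498)) (.cons (.rel (nat_lit 34368126981)) .nil)))) (.cons (.br (nat_lit 5) (.cons (.rel (nat_lit 4299444480)) (.cons (.rel (nat_lit 4299718656)) (.cons (.rel (nat_lit 8598601728)) .nil)))) (.cons (.br (nat_lit 2) (.cons (.rel (nat_lit 71827713)) (.cons (.rel (nat_lit 71311428)) (.cons (.rel (nat_lit 71304336)) .nil)))) .nil)))) .leaf)) (nat_lit 27010980755004277) (.br (nat_lit 0) (.cons (.br (nat_lit 3) (.cons (.rel (nat_lit 272647680)) .nil)) .nil)) (.node (.node .leaf (nat_lit 27010980755004917) (.br (nat_lit 0) (.cons (.br (nat_lit 1) (.cons (.rel (nat_lit 39059460)) .nil)) .nil)) .leaf) (nat_lit 27010980755006226) (.br (nat_lit 2) (.cons (.br (nat_lit 6) (.cons (.rel (nat_lit 17247240264)) .nil)) .nil)) (.node .leaf (nat_lit 27010980755006967) (.br (nat_lit 2) (.cons (.br (nat_lit 3) (.cons (.rel (nat_lit 335545362)) .nil)) .nil)) .leaf))) (nat_lit 27010980755053220) (.br (nat_lit 0) (.cons (.br (nat_lit 5) (.cons (.rel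 (nat_lit 4299444480)) .nil)) .nil)) (.node (.node (.node .leaf (nat_lit 27010980755053304) (.br (nat_lit 0) (.cons (.br (nat_lit 1) (.cons (.rel (nat_lit 37765122)) (.cons (.rel (nat_lit 25182276)) .nil))) .nil)) .leaf) (nat_lit 27010983235521272) (.br (nat_lit 0) (.cons (.br (nat_lit 1) (.cons (.rel (nat_lit 22085658)) .nil)) .nil)) (.node .leaf (nat_lit 27010983238081272) (.br (nat_lit 0) (.cons (.br (nat_lit 1) (.cons (.rel (nat_lit 42205200)) .nil)) .nil)) .leaf)) (nat_lit 27010983881444088) (.br (nat_lit 0) (.cons (.br (nat_lit 2) (.cons (.rel (nat_lit 71304336)) .nil)) .nil)) (.node (.node .leaf (nat_lit 27010985877614898) (.br (nat_lit 0) (.cons (.br (nat_lit 4) (.cons (.rel (nat_lit 1077938244)) .nil)) .nil)) .leaf) (nat_lit 27010985877932664) (.br (nat_lit 0) (.cons (.br (nat_lit 2) (.cons (.rel (nat_lit 142623744)) (.cons (.rel (nat_lit 75759681)) .nil))) (.cons (.br (nat_lit 2) (.cons (.rel (nat_lit 71304336)) (.cons (.rel (nat_lit 71327745)) .nil))) .nil))) (.node .leaf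 (nat_lit 27010985877947155) (.br (nat_lit 0) (.cons (.br (nat_lit 1) (.cons (.rel (nat_lit 21495840)) .nil)) .nil)) .leaf)))) (nat_lit 27010985878590196) (.br (nat_lit 1) (.cons (.br (nat_lit 2) (.cons (.rel (nat_lit 83894274)) .nil)) .nil)) (.node (.node (.node (.node (.node .leaf (nat_lit 27010985878599986) (.br (nat_lit 0) (.cons (.br (nat_lit 4) (.cons (.rel (nat_lit 1077940368)) (.cons (.rel (nat_lit 1077936225)) .nil))) .nil)) .leaf) (nat_lit 27010985878600467) (.br (nat_lit 0) (.cons (.br (nat_lit 2) (.cons (.rel (nat_lit 71337984)) .nil)) .nil)) .leaf) (nat_lit 27010985878690548) (.br (nat_lit 0) (.cons (.br (nat_lit 2) (.cons (.rel (nat_lit 77070336)) .nil)) .nil)) (.node .leaf (nat_lit 27010985878853814) (.br (nat_lit 0) (.cons (.br (nat_lit 2) (.cons (.rel (nat_lit 71304336)) .nil)) .nil)) .leaf)) (nat_lit 27010985879880930) (.br (nat_lit 0) (.cons (.br (nat_lit 1) (.cons (.rel (nat_lit 21250308)) .nil)) .nil)) (.node (.node .leaf (nat_lit 27010985879882515) (.br (nat_lit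 1) (.cons (.br (nat_lit 2) (.cons (.rel (nat_lit 83890320)) .nil)) .nil)) .leaf) (nat_lit 27010985879943474) (.br (nat_lit 0) (.cons (.br (nat_lit 3) (.cons (.rel (nat_lit 541065345)) .nil)) .nil)) (.node .leaf (nat_lit 27010985880125567) (.br (nat_lit 0) (.cons (.br (nat_lit 1) (.cons (.rel (nat_lit 22028352)) .nil)) .nil)) .leaf))) (nat_lit 27010985880125746) (.br (nat_lit 1) (.cons (.br (nat_lit 2) (.cons (.rel (nat_lit 83886177)) .nil)) .nil)) (.node (.node (.node .leaf (nat_lit 27010985880445815) (.br (nat_lit 1) (.cons (.br (nat_lit 2) (.cons (.rel (nat_lit 83886177)) .nil)) .nil)) .leaf) (nat_lit 27010985880507124) (.br (nat_lit 2) (.cons (.br (nat_lit 5) (.cons (.rel (nat_lit 4362077220)) .nil)) .nil)) (.node .leaf (nat_lit 27010985880507168) (.br (nat_lit 0) (.cons (.br (nat_lit 2) (.cons (.rel (nat_lit 71337984)) .nil)) .nil)) .leaf)) (nat_lit 27014959045652610) (.br (nat_lit 1) (.cons (.br (nat_lit 4) (.cons (.rel (nat_lit 1090520085)) .nil)) .nil)) (.node (.node .leaf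 (nat_lit 27014959046401250) (.br (nat_lit 2) (.cons (.br (nat_lit 1) (.cons (.rel (nat_lit 83903508)) (.cons (.rel (nat_lit 83904513)) .nil))) .nil)) .leaf) (nat_lit 27014959046864098) (.br (nat_lit 0) (.cons (.br (nat_lit 1) (.cons (.rel (nat_lit 39059460)) .nil)) .nil)) (.node .leaf (nat_lit 27014959048217332) (.br (nat_lit 0) (.cons (.br (nat_lit 4) (.cons (.rel (nat_lit 1082392584)) .nil)) .nil)) .leaf)))))

/-- refutations 161 -/
def e161 : EX := (.node (.node (.node .leaf (nat_lit 27015186563930923) (.br (nat_lit 0) (.cons (.br (nat_lit 5) (.cons (.rel (nat_lit 8594214912)) .nil)) .nil)) .leaf) (nat_lit 27016352149549943) (.br (nat_lit 0) (.cons (.br (nat_lit 2) (.cons (.rel (nat_lit 71304336)) .nil)) .nil)) .leaf) (nat_lit 27016976526226195) (.br (nat_lit 0) (.cons (.br (nat_lit 1) (.cons (.rel (nat_lit 39059460)) .nil)) .nil)) (.node .leaf (nat_lit 27016976526275320) (.br (nat_lit 0) (.cons (.br (nat_lit 1) (.cons (.rel (nat_lit 37765122)) .nil)) .nil)) .leaf))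

/-- refutations 162 -/
def e162 : EX := (.node (.node .leaf (nat_lit 27017380256275219) (.br (nat_lit 0) (.cons (.br (nat_lit 2) (.cons (.rel (nat_lit 75563268)) .nil)) .nil)) .leaf) (nat_lit 27017380256324344) (.br (nat_lit 1) (.cons (.br (nat_lit 5) (.cons (.rel (nat_lit 8623490304)) .nil)) .nil)) .leaf)

/-- refutations 163 -/
def e163 : EX := (.node (.node (.node .leaf (nat_lit 27374604274899105) (.br (nat_lit 0) (.cons (.br (nat_lit 1) (.cons (.rel (nat_lit 25198593)) .nil)) .nil)) .leaf) (nat_lit 27374963185933075) (.br (nat_lit 0) (.cons (.br (nat_lit 2) (.cons (.rel (nat_lit 142623744)) .nil)) .nil)) (.node .leaf (nat_lit 27375645760149681) (.br (nat_lit 0) (.cons (.br (nat_lit 2) (.cons (.rel (nat_lit 71308290)) .nil)) .nil)) .leaf)) (nat_lit 27375645762321016) (.br (nat_lit 0) (.cons (.br (nat_lit 2) (.cons (.rel (nat_lit 71308290)) .nil)) .nil)) (.node (.node .leaf (nat_lit 27380198425483441) (.br (nat_lit 1) (.cons (.br (nat_lit 2) (.cons (.rel (nat_lit 83894274))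 .nil)) .nil)) .leaf) (nat_lit 27380198427654776) (.br (nat_lit 1) (.cons (.br (nat_lit 0) (.cons (.rel (nat_lit 42205200)) (.cons (.rel (nat_lit 42205200)) .nil))) .nil)) .leaf))

/-- refutations 164 -/
def e164 : EX := (.node (.node (.node (.node .leaf (nat_lit 27380417145907351) (.br (nat_lit 0) (.cons (.br (nat_lit 4) (.cons (.rel (nat_lit 2155876353)) .nil)) .nil)) .leaf) (nat_lit 27380417791830167) (.br (nat_lit 1) (.cons (.br (nat_lit 2) (.cons (.rel (nat_lit 167776257)) .nil)) .nil)) (.node .leaf (nat_lit 27380419659326700) (.br (nat_lit 0) (.cons (.br (nat_lit 1) (.cons (.rel (nat_lit 25171968)) .nil)) .nil)) .leaf)) (nat_lit 27380419659392283) (.br (nat_lit 4) (.cons (.br (nat_lit 5) (.cons (.rel (nat_lit 5370019908)) .nil)) .nil)) (.node (.node .leaf (nat_lit 27380419659533048) (.br (nat_lit 1) (.cons (.br (nat_lit 2) (.cons (.rel (nat_lit 83894274)) .nil)) .nil)) .leaf) (nat_lit 27381390581984043) (.br (nat_lit 3) (.cons (.br (nat_lit 5) (.cons (.rel (nat_lit 8858451984))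 .nil)) .nil)) .leaf)) (nat_lit 27381392634598132) (.br (nat_lit 0) (.cons (.br (nat_lit 1) (.cons (.rel (nat_lit 25171968)) .nil)) .nil)) (.node (.node (.node .leaf (nat_lit 27384618087414392) (.br (nat_lit 2) (.cons (.br (nat_lit 3) (.cons (.rel (nat_lit 335544357)) .nil)) .nil)) .leaf) (nat_lit 27384620397390635) (.br (nat_lit 4) (.cons (.br (nat_lit 6) (.cons (.rel (nat_lit 18253873158)) .nil)) .nil)) .leaf) (nat_lit 27384620397391361) (.br (nat_lit 0) (.cons (.br (nat_lit 2) (.cons (.rel (nat_lit 75759681)) (.cons (.rel (nat_lit 71368722)) .nil))) (.cons (.br (nat_lit 4) (.cons (.rel (nat_lit 1078005768)) (.cons (.rel (nat_lit 1077944322)) .nil))) .nil))) (.node (.node .leaf (nat_lit 27384620398475896) (.br (nat_lit 2) (.cons (.br (nat_lit 4) (.cons (.br (nat_lit 6) (.cons (.rel (nat_lit 18253709568)) .nil)) .nil)) .nil)) .leaf) (nat_lit 27385742907972344) (.br (nat_lit 1) (.cons (.br (nat_lit 3) (.cons (.rel (nat_lit 285229713)) .nil)) .nil)) .leaf)))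

/-- refutations 166 -/
def e166 : EX := (.node (.node (.node (.node (.node .leaf (nat_lit 27450786562269944) (.br (nat_lit 0) (.cons (.br (nat_lit 2) (.cons (.rel (nat_lit 71311428)) .nil)) .nil)) .leaf) (nat_lit 27450786563169533) (.br (nat_lit 0) (.cons (.br (nat_lit 5) (.cons (.rel (nat_lit 8594214912)) .nil)) .nil)) (.node .leaf (nat_lit 27450786563791608) (.br (nat_lit 2) (.cons (.br (nat_lit 1) (.cons (.rel (nat_lit 83890320)) (.cons (.rel (nat_lit 83894274)) .nil))) .nil)) .leaf)) (nat_lit 27450788093168376) (.br (nat_lit 0) (.cons (.br (nat_lit 4) (.cons (.rel (nat_lit 1078067205)) .nil)) .nil)) (.node (.node .leaf (nat_lit 27450788401982227) (.br (nat_lit 0) (.cons (.br (nat_lit 3) (.cons (.rel (nat_lit 541097988)) .nil)) .nil)) .leaf) (nat_lit 27450788402479864) (.br (nat_lit 0) (.cons (.br (nat_lit 2) (.cons (.rel (nat_lit 71308290)) .nil)) .nil)) .leaf)) (nat_lit 27450788403546872) (.br (nat_lit 0) (.cons (.br (nat_lit 1) (.cons (.rel (nat_lit 25171968)) .nil)) .nil))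 (.node (.node (.node .leaf (nat_lit 27450790633285692) (.br (nat_lit 1) (.cons (.br (nat_lit 2) (.cons (.rel (nat_lit 83894274)) .nil)) .nil)) .leaf) (nat_lit 27450790633351928) (.br (nat_lit 1) (.cons (.br (nat_lit 2) (.cons (.rel (nat_lit 83894274)) .nil)) .nil)) (.node .leaf (nat_lit 27450790633546039) (.br (nat_lit 1) (.cons (.br (nat_lit 2) (.cons (.rel (nat_lit 83890320)) .nil)) .nil)) .leaf)) (nat_lit 27450790633551902) (.br (nat_lit 3) (.cons (.br (nat_lit 5) (.cons (.rel (nat_lit 4563927048)) .nil)) .nil)) (.node (.node .leaf (nat_lit 27450790633553422) (.br (nat_lit 2) (.cons (.br (nat_lit 3) (.cons (.rel (nat_lit 335546376)) .nil)) .nil)) .leaf) (nat_lit 27450790634609917) (.br (nat_lit 3) (.cons (.br (nat_lit 5) (.cons (.rel (nat_lit 9127067652)) (.cons (.rel (nat_lit 8858371092)) .nil))) (.cons (.br (nat_lit 5) (.cons (.rel (nat_lit 4563407376)) (.cons (.rel (nat_lit 4564457472)) .nil))) .nil))) .leaf))) (nat_lit 27450790634916121) (.br (nat_lit 0) (.cons (.br (nat_lit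 5) (.cons (.rel (nat_lit 4303355988)) .nil)) .nil)) (.node (.node (.node (.node .leaf (nat_lit 27450790634916600) (.br (nat_lit 4) (.cons (.br (nat_lit 5) (.cons (.rel (nat_lit 5368709253)) .nil)) .nil)) .leaf) (nat_lit 27450790634938674) (.br (nat_lit 0) (.cons (.br (nat_lit 2) (.cons (.rel (nat_lit 71311428)) (.cons (.rel (nat_lit 71337984)) .nil))) .nil)) (.node .leaf (nat_lit 27450790634939128) (.br (nat_lit 5) (.cons (.br (nat_lit 0) (.cons (.rel (nat_lit 4299424020)) (.cons (.rel (nat_lit 8598601728)) (.cons (.rel (nat_lit 8598601728)) .nil)))) .nil)) .leaf)) (nat_lit 27450790635088672) (.br (nat_lit 0) (.cons (.br (nat_lit 2) (.cons (.rel (nat_lit 71304336)) .nil)) .nil)) (.node (.node .leaf (nat_lit 27450790635837746) (.br (nat_lit 0) (.cons (.br (nat_lit 2) (.cons (.rel (nat_lit 71311428)) .nil)) .nil)) .leaf) (nat_lit 27450790635837751) (.br (nat_lit 2) (.cons (.br (nat_lit 3) (.cons (.rel (nat_lit 671089668)) .nil)) .nil)) .leaf)) (nat_lit 27450790635838717) (.br (nat_lit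 0) (.cons (.br (nat_lit 3) (.cons (.rel (nat_lit 273747969)) (.cons (.rel (nat_lit 274727232)) .nil))) (.cons (.br (nat_lit 2) (.cons (.rel (nat_lit 71337984)) (.cons (.rel (nat_lit 71337984)) (.cons (.rel (nat_lit 71311428)) .nil)))) .nil))) (.node (.node (.node .leaf (nat_lit 27450790635848967) (.br (nat_lit 3) (.cons (.br (nat_lit 6) (.cons (.rel (nat_lit 17448313860)) .nil)) .nil)) .leaf) (nat_lit 27450790635897009) (.br (nat_lit 4) (.cons (.br (nat_lit 6) (.cons (.rel (nat_lit 18253873158)) .nil)) .nil)) (.node .leaf (nat_lit 27450790635897592) (.br (nat_lit 2) (.cons (.br (nat_lit 5) (.cons (.rel (nat_lit 8724152325)) (.cons (.rel (nat_lit 8657307648)) .nil))) .nil)) .leaf)) (nat_lit 27450790636094367) (.br (nat_lit 1) (.cons (.br (nat_lit 5) (.cons (.rel (nat_lit 4311747072)) .nil)) .nil)) (.node (.node .leaf (nat_lit 27450790636157209) (.br (nat_lit 5) (.cons (.br (nat_lit 6) (.cons (.rel (nat_lit 21474844704)) .nil)) .nil)) .leaf) (nat_lit 27450790636157839) (.br (nat_lit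 1) (.cons (.br (nat_lit 2) (.cons (.rel (nat_lit 83888196)) .nil)) .nil)) .leaf))))

/-- refutations 167 -/
def e167 : EX := (.node (.node (.node .leaf (nat_lit 27451761297287294) (.br (nat_lit 0) (.cons (.br (nat_lit 5) (.cons (.rel (nat_lit 4303356993)) .nil)) .nil)) .leaf) (nat_lit 27456703750547587) (.br (nat_lit 0) (.cons (.br (nat_lit 2) (.cons (.rel (nat_lit 75759681)) .nil)) .nil)) .leaf) (nat_lit 27456703750547633) (.br (nat_lit 0) (.cons (.br (nat_lit 2) (.cons (.br (nat_lit 3) (.cons (.br (nat_lit 4) (.cons (.br (nat_lit 1) (.cons (.rel (nat_lit 1090560000)) (.cons (.rel (nat_lit 25182276)) (.cons (.rel (nat_lit 22028352)) .nil)))) .nil)) .nil)) .nil)) .nil)) (.node .leaf (nat_lit 27456703750547716) (.br (nat_lit 0) (.cons (.br (nat_lit 6) (.cons (.rel (nat_lit 17184064548)) .nil)) .nil)) .leaf))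

/-- refutations 168 -/
def e168 : EX := (.node (.node .leaf (nat_lit 26856732433684616) (.br (nat_lit 1) (.cons (.br (nat_lit 2) (.cons (.rel (nat_lit 84149760)) .nil)) .nil)) .leaf) (nat_lit 26857971507821951) (.br (nat_lit 0) (.cons (.br (nat_lit 1) (.cons (.rel (nat_lit 20976132)) .nil)) .nil)) .leaf)

/-- refutations 169 -/
def e169 : EX := (.node (.node .leaf (nat_lit 27469024834380536) (.br (nat_lit 1) (.cons (.br (nat_lit 0) (.cons (.rel (nat_lit 22086660)) (.cons (.rel (nat_lit 20976132)) .nil))) .nil)) .leaf) (nat_lit 27473523467933059) (.br (nat_lit 0) (.cons (.br (nat_lit 1) (.cons (.rel (nat_lit 25171968)) .nil)) .nil)) (.node .leaf (nat_lit 27473529153467798) (.br (nat_lit 0) (.cons (.br (nat_lit 1) (.cons (.rel (nat_lit 21495840)) .nil)) .nil)) .leaf))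

/-- list of the parts -/
def L0 : List (ℕ × List ℕ) := [(nat_lit 0x40000000, [Nat.sub (Nat.pow 2 816) (Nat.pow 2 0), Nat.sub (Nat.pow 2 1534) (Nat.pow 2 816), Nat.sub (Nat.pow 2 3136) (Nat.pow 2 1534)]),
  (nat_lit 0x400000000, [Nat.sub (Nat.pow 2 891) (Nat.pow 2 0), Nat.sub (Nat.pow 2 3136) (Nat.pow 2 891)]),
  (nat_lit 0x40000000000000, [Nat.sub (Nat.pow 2 761) (Nat.pow 2 0), Nat.sub (Nat.pow 2 3136) (Nat.pow 2 761)]),
  (nat_lit 0x10, [cP]),
  (nat_lit 0x100000000000000, [Nat.sub (Nat.pow 2 790) (Nat.pow 2 0), Nat.sub (Nat.pow 2 3136) (Nat.pow 2 790)]),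
  (nat_lit 0x1000000000000000, [Nat.sub (Nat.pow 2 816) (Nat.pow 2 0), Nat.sub (Nat.pow 2 1516) (Nat.pow 2 816), Nat.sub (Nat.pow 2 3136) (Nat.pow 2 1516)]),
  (nat_lit 0x2000000000000000, [Nat.sub (Nat.pow 2 685) (Nat.pow 2 0), Nat.sub (Nat.pow 2 904) (Nat.pow 2 685), Nat.sub (Nat.pow 2 3136) (Nat.pow 2 904)]),
  (nat_lit 0x80000000000000, [cP]),
  (nat_lit 0x400000000000000000000000000000000, [Nat.sub (Nat.pow 2 285) (Nat.pow 2 0), Nat.sub (Nat.pow 2 816) (Nat.pow 2 285), Nat.sub (Nat.pow 2 1266) (Nat.pow 2 816), Nat.sub (Nat.pow 2 1561) (Nat.pow 2 1266), Nat.sub (Nat.pow 2 3136) (Nat.pow 2 1561)]),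
  (nat_lit 0x40000000000000000, [cP]),
  (nat_lit 0x800000000000000000000000000000000, [cP]),
  (nat_lit 0x100000000000000000000000000000000000, [Nat.sub (Nat.pow 2 816) (Nat.pow 2 0), Nat.sub (Nat.pow 2 1515) (Nat.pow 2 816), Nat.sub (Nat.pow 2 3136) (Nat.pow 2 1515)]),
  (nat_lit 0x10000000000000000000000000000000000, [cP]),
  (nat_lit 0x20000000000000000000000000000000000000000, [Nat.sub (Nat.pow 2 679) (Nat.pow 2 0), Nat.sub (Nat.pow 2 940) (Nat.pow 2 679), Nat.sub (Nat.pow 2 3136) (Nat.pow 2 940)]),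
  (nat_lit 0x400000000000000000000000000000000000000, [cP]),
  (nat_lit 0x10000000000000000000000000000000000000000000000, [Nat.sub (Nat.pow 2 890) (Nat.pow 2 0), Nat.sub (Nat.pow 2 3136) (Nat.pow 2 890)]),
  (nat_lit 0x100000000000000000000000000000000000000000000000000000000000000000000000, [Nat.sub (Nat.pow 2 816) (Nat.pow 2 0), Nat.sub (Nat.pow 2 1564) (Nat.pow 2 816), Nat.sub (Nat.pow 2 3136) (Nat.pow 2 1564)]),
  (nat_lit 0x200000000000000000000000000000000000000000000000000000000000000000000000, [Nat.sub (Nat.pow 2 816) (Nat.pow 2 0), Nat.sub (Nat.pow 2 1564) (Nat.pow 2 816), Nat.sub (Nat.pow 2 3136) (Nat.pow 2 1564)]),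
  (nat_lit 0x2000000000000000000000000000000000000000000000000000000000000000000000000, [Nat.sub (Nat.pow 2 165) (Nat.pow 2 0), Nat.sub (Nat.pow 2 654) (Nat.pow 2 165), Nat.sub (Nat.pow 2 816) (Nat.pow 2 654), Nat.sub (Nat.pow 2 885) (Nat.pow 2 816), Nat.sub (Nat.pow 2 929) (Nat.pow 2 885), Nat.sub (Nat.pow 2 1284) (Nat.pow 2 929), Nat.sub (Nat.pow 2 1514) (Nat.pow 2 1284), Nat.sub (Nat.pow 2 1564) (Nat.pow 2 1514), Nat.sub (Nat.pow 2 3136) (Nat.pow 2 1564)]),
  (nat_lit 0x400000000000000000000000000000000000000000000000000000000000000000000000000000000000000000000000000000000000000000000000000000000000000000000000000000000000000, [Nat.sub (Nat.pow 2 790) (Nat.pow 2 0), Nat.sub (Nat.pow 2 3136) (Nat.pow 2 790)]),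
  (nat_lit 0x100000000000000000000000000000000000000000, [cP]),
  (nat_lit 0x8000000000000000000000000000000000000000000000000000000000000000000000000000000000000000000000000000000000000000000000000000000000000000000000000000000000000000, [Nat.sub (Nat.pow 2 304) (Nat.pow 2 0), Nat.sub (Nat.pow 2 904) (Nat.pow 2 304), Nat.sub (Nat.pow 2 3136) (Nat.pow 2 904)]),
  (nat_lit 0x80000000000000000000000000000000000000000000000000000000000000000000000000000000000000000000000000000000000000000000000000000000000000000000000000000000000000000000, [Nat.sub (Nat.pow 2 291) (Nat.pow 2 0), Nat.sub (Nat.pow 2 891) (Nat.pow 2 291), Nat.sub (Nat.pow 2 1390) (Nat.pow 2 891), Nat.sub (Nat.pow 2 3136) (Nat.pow 2 1390)]),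
  (nat_lit 0x800000000000000000000000000000000000000000000000000000000000000000000000000000000000000000000000000000000000000000000000000000000000000000000000000000000000000000000, [Nat.sub (Nat.pow 2 755) (Nat.pow 2 0), Nat.sub (Nat.pow 2 3136) (Nat.pow 2 755)]),
  (nat_lit 0x1000000000000000000000000000000000000000000000000000000000000000000000000000000000000000000000000000000000000000000000000000000000000000000000000000000000000000000000, [Nat.sub (Nat.pow 2 816) (Nat.pow 2 0), Nat.sub (Nat.pow 2 3136) (Nat.pow 2 816)]),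
  (nat_lit 0x1000000000000000000000000000000000000000000000000000000000000000000000000000000000000000000000000000000000000000000000000000000000000000000000000000000000000000, [cP]),
  (nat_lit 0x80000000000000000000000000000000000000000000000000000000000000000000000000000000000000000000000000000000000000000000000000000000000000000000000000000000000000000000000000, [Nat.sub (Nat.pow 2 306) (Nat.pow 2 0), Nat.sub (Nat.pow 2 3136) (Nat.pow 2 306)]),
  (nat_lit 0x200000000000000000000000000000000000000000000000000000000000000000000000000000000000000000000000000000000000000000000000000000000000000000000000000000000000000000000000000, [Nat.sub (Nat.pow 2 635) (Nat.pow 2 0), Nat.sub (Nat.pow 2 3136) (Nat.pow 2 635)]),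
  (nat_lit 0x4000000000000000000000000000000000000000000000000000000000000000000000000000000000000000000000000000000000000000000000000000000000000000000000000000000000000000000000000000, [Nat.sub (Nat.pow 2 291) (Nat.pow 2 0), Nat.sub (Nat.pow 2 1266) (Nat.pow 2 291), Nat.sub (Nat.pow 2 1566) (Nat.pow 2 1266), Nat.sub (Nat.pow 2 3136) (Nat.pow 2 1566)]),
  (nat_lit 0x10000000000000000000000000000000000000000000000000000000000000000000000000000000000000000000000000000000000000000000000000000000000000000000000000000000000000000000000000000000000000000000000, [Nat.sub (Nat.pow 2 816) (Nat.pow 2 0), Nat.sub (Nat.pow 2 1564) (Nat.pow 2 816), Nat.sub (Nat.pow 2 3136) (Nat.pow 2 1564)]),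
  (nat_lit 0x400000000000000000000000000000000000000000000000000000000000000000000000000000000000000000000000000000000000000000000000000000000000000000000000000000000000000000000000000000000000000000000000, [Nat.sub (Nat.pow 2 816) (Nat.pow 2 0), Nat.sub (Nat.pow 2 3136) (Nat.pow 2 816)]),
  (nat_lit 0x800000000000000000000000000000000000000000000000000000000000000000000000000000000000000000000000000000000000000000000000000000000000000000000000000000000000000000000000000000000000000000000000000, [Nat.sub (Nat.pow 2 635) (Nat.pow 2 0), Nat.sub (Nat.pow 2 3136) (Nat.pow 2 635)]),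
  (nat_lit 0x40000000000000000000000000000000000000000000000000000000000000000000000000000000000000000000000000000000000000000000000000000000000000000000000000000000000000000000000000000000000000000000000000000, [Nat.sub (Nat.pow 2 304) (Nat.pow 2 0), Nat.sub (Nat.pow 2 1290) (Nat.pow 2 304), Nat.sub (Nat.pow 2 3136) (Nat.pow 2 1290)]),
  (nat_lit 0x10000000000000000000000000000000000000000000000000000000000000000000000000000000000000000000000000000000000000000000000000000000000000000000000000000000000000000000000, [cP]),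
  (nat_lit 0x4000000000000000000000000000000000000000000000000000000000000000000000000000000000000000000000000000000000000000000000000000000000000000000000000000000000000000000000000000000000000000000000000000000000, [Nat.sub (Nat.pow 2 764) (Nat.pow 2 0), Nat.sub (Nat.pow 2 3136) (Nat.pow 2 764)]),
  (nat_lit 0x40000000000000000000000000000000000000000000000000000000000000000000000000000000000000000000000000000000000000000000000000000000000000000000000000000000000000000000000000000000000000000000000000000000000, [Nat.sub (Nat.pow 2 679) (Nat.pow 2 0), Nat.sub (Nat.pow 2 3136) (Nat.pow 2 679)]),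
  (nat_lit 0x200000000000000000000000000000000000000000000000000000000000000000000000000000000000000000000000000000000000000000000000000000000000000000000000000000000000000000000000000000000000000000000000000000, [cP]),
  (nat_lit 0x20000000000000000000000000000000000000000000000000000000000000000000000000000000000000000000000000000000000000000000000000000000000000000000000000000000000000000000000000000000000000000000000000000000000000000000000000000, [Nat.sub (Nat.pow 2 766) (Nat.pow 2 0), Nat.sub (Nat.pow 2 3136) (Nat.pow 2 766)]),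
  (nat_lit 0x400000000000000000000000000000000000000000000000000000000000000000000000000000000000000000000000000000000000000000000000000000000000000000000000000000000000000000000000000000000000000000000000000000000000000000000000000000, [Nat.sub (Nat.pow 2 311) (Nat.pow 2 0), Nat.sub (Nat.pow 2 929) (Nat.pow 2 311), Nat.sub (Nat.pow 2 3136) (Nat.pow 2 929)]),
  (nat_lit 0x4000000000000000000000000000000000000000000000000000000000000000000000000000000000000000000000000000000000000000000000000000000000000000000000000000000000000000000000000000000000000000000000000000000000000000000000000000000, [Nat.sub (Nat.pow 2 816) (Nat.pow 2 0), Nat.sub (Nat.pow 2 1561) (Nat.pow 2 816), Nat.sub (Nat.pow 2 3136) (Nat.pow 2 1561)]),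
  (nat_lit 0x40000000000000000000000000000000000000000000000000000000000000000000000000000000000000000000000000000000000000000000000000000000000000000000000000000000000000000000000000000000000000000000000000000000000000000000000000000000000, [Nat.sub (Nat.pow 2 809) (Nat.pow 2 0), Nat.sub (Nat.pow 2 3136) (Nat.pow 2 809)]),
  (nat_lit 0x200000000000000000000000000000000000000000000000000000000000000000000000000000000000000000000000000000000000000000000000000000000000000000000000000000000000000000000000000000000000000000000000000000000000000000000000000000000000, [Nat.sub (Nat.pow 2 890) (Nat.pow 2 0), Nat.sub (Nat.pow 2 3136) (Nat.pow 2 890)]),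
  (nat_lit 0x4000000000000000000000000000000000000000000000000000000000000000000000000000000000000000000000000000000000000000000000000000000000000000000000000000000000000000000000000000000000000000000000000000000000000000000000000000000000000, [Nat.sub (Nat.pow 2 304) (Nat.pow 2 0), Nat.sub (Nat.pow 2 1266) (Nat.pow 2 304), Nat.sub (Nat.pow 2 1566) (Nat.pow 2 1266), Nat.sub (Nat.pow 2 3136) (Nat.pow 2 1566)]),
  (nat_lit 0x40000000000000000000000000000000000000000000000000000000000000000000000000000000000000000000000000000000000000000000000000000000000000000000000000000000000000000000000000000000000000000000000000000000000000000000000000000000000000000, [Nat.sub (Nat.pow 2 761) (Nat.pow 2 0), Nat.sub (Nat.pow 2 1266) (Nat.pow 2 761), Nat.sub (Nat.pow 2 1566) (Nat.pow 2 1266), Nat.sub (Nat.pow 2 3136) (Nat.pow 2 1566)]),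
  (nat_lit 0x400000000000000000000000000000000000000000000000000000000000000000000000000000000000000000000000000000000000000000000000000000000000000000000000000000000000000000000000000000000000000000000000000000000000000000000000000000000000000000, [Nat.sub (Nat.pow 2 906) (Nat.pow 2 0), Nat.sub (Nat.pow 2 3136) (Nat.pow 2 906)]),
  (nat_lit 0x1000000000000000000000000000000000000000000000000000000000000000000000000000000000000000000000000000000000000000000000000000000000000000000000000000000000000000000000000000000000000000000000000000000000000, [cP]),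
  (nat_lit 0x40000000000000000000000000000000000000000000000000000000000000000000000000000000000000000000000000000000000000000000000000000000000000000000000000000000000000000000000000000000000000000000000000000000000000000000000000000000000000000000000000000000000000000000000000000000000000000000000000000000000000000000000000, [Nat.sub (Nat.pow 2 890) (Nat.pow 2 0), Nat.sub (Nat.pow 2 3136) (Nat.pow 2 890)]),
  (nat_lit 0x1000000000000000000000000000000000000000000000000000000000000000000000000000000000000000000000000000000000000000000000000000000000000000000000000000000000000000000000000000000000000000000000000000000000000000000000000000000000000000000000000000000000000000000000000000000000000000000000000000000000000000000000000000, [Nat.sub (Nat.pow 2 936) (Nat.pow 2 0), Nat.sub (Nat.pow 2 3136) (Nat.pow 2 936)]),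
  (nat_lit 0x20000000000000000000000000000000000000000000000000000000000000000000000000000000000000000000000000000000000000000000000000000000000000000000000000000000000000000000000000000000000000000000000000000000000000000000000000000000000000000000000000000000000000000000000000000000000000000000000000000000000000000000000000000, [Nat.sub (Nat.pow 2 909) (Nat.pow 2 0), Nat.sub (Nat.pow 2 3136) (Nat.pow 2 909)]),
  (nat_lit 0x1000000000000000000000000000000000000000000000000000000000000000000000000000000000000000000000000000000000000000000000000000000000000000000000000000000000000000000000000000000000000000000000000000000000000000000000000000000000000000000, [cP]),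
  (nat_lit 0x2000000000000000000000000000000000000000000000000000000000000000000000000000000000000000000000000000000000000000000000000000000000000000000000000000000000000000000000000000000000000000000000000000000000000000000000000000000000000000000000000000000000000000000000000000000000000000000000000000000000000000000000000000000000, [Nat.sub (Nat.pow 2 804) (Nat.pow 2 0), Nat.sub (Nat.pow 2 3136) (Nat.pow 2 804)]),
  (nat_lit 0x1000000000000000000000000000000000000000000000000000000000000000000000000000000000000000000000000000000000000000000000000000000000000000000000000000000000000000000000000000000000000000000000000000000000000000000000000000000000000000000000000000000000000000000000000000000000000000000000000000000000000000000000000000000000, [cP]),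
  (nat_lit 0x100000000000000000000000000000000000000000000000000000000000000000000000000000000000000000000000000000000000000000000000000000000000000000000000000000000000000000000000000000000000000000000000000000000000000000000000000000000000000000000000000000000000000000000000000000000000000000000000000000000000000000000000000000000000000000, [Nat.sub (Nat.pow 2 689) (Nat.pow 2 0), Nat.sub (Nat.pow 2 1381) (Nat.pow 2 689), Nat.sub (Nat.pow 2 3136) (Nat.pow 2 1381)]),
  (nat_lit 0x1000000000000000000000000000000000000000000000000000000000000000000000000000000000000000000000000000000000000000000000000000000000000000000000000000000000000000000000000000000000000000000000000000000000000000000000000000000000000000000000000000000000000000000000000000000000000000000000000000000000000000000000000000000000000000000000000000000000, [Nat.sub (Nat.pow 2 291) (Nat.pow 2 0), Nat.sub (Nat.pow 2 890) (Nat.pow 2 291), Nat.sub (Nat.pow 2 1434) (Nat.pow 2 890), Nat.sub (Nat.pow 2 3136) (Nat.pow 2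 1434)]),
  (nat_lit 0x20000000000000000000000000000000000000000000000000000000000000000000000000000000000000000000000000000000000000000000000000000000000000000000000000000000000000000000000000000000000000000000000000000000000000000000000000000000000000000000000000000000000000000000000000000000000000000000000000000000000000000000000000000000000, [cP]),
  (nat_lit 0x4000000000000000000000000000000000000000000000000000000000000000000000000000000000000000000000000000000000000000000000000000000000000000000000000000000000000000000000000000000000000000000000000000000000000000000000000000000000000000000000000000000000000000000000000000000000000000000000000000000000000000000000000000000000000000000000000000000000000000, [Nat.sub (Nat.pow 2 890) (Nat.pow 2 0), Nat.sub (Nat.pow 2 3136) (Nat.pow 2 890)]),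
  (nat_lit 0x80000000000000000000000000000000000000000000000000000000000000000000000000000000000000000000000000000000000000000000000000000000000000000000000000000000000000000000000000000000000000000000000000000000000000000000000000000000000000000000000000000000000000000000000000000000000000000000000000000000000000000000000000000000000000000000000000000000000000000, [Nat.sub (Nat.pow 2 885) (Nat.pow 2 0), Nat.sub (Nat.pow 2 3136) (Nat.pow 2 885)]),
  (nat_lit 0x800000000000000000000000000000000000000000000000000000000000000000000000000000000000000000000000000000000000000000000000000000000000000000000000000000000000000000000000000000000000000000000000000000000000000000000000000000000000000000000000000000000000000000000000000000000000000000000000000000000000000000000000000000000000000000000000000000000000000000000000, [Nat.sub (Nat.pow 2 764) (Nat.pow 2 0), Nat.sub (Nat.pow 2 1279) (Nat.pow 2 764), Nat.sub (Nat.pow 2 3136) (Nat.pow 2 1279)]),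
  (nat_lit 0x10000000000000000000000000000000000000000000000000000000000000000000000000000000000000000000000000000000000000000000000000000000000000000000000000000000000000000000000000000000000000000000000000000000000000000000000000000000000000000000000000000000000000000000000000000000000000000000000000000000000000000000000000000000000000000000000000000000000000000000000000000000000000000, [Nat.sub (Nat.pow 2 885) (Nat.pow 2 0), Nat.sub (Nat.pow 2 3136) (Nat.pow 2 885)]),
  (nat_lit 0x20000000000000000000000000000000000000000000000000000000000000000000000000000000000000000000000000000000000000000000000000000000000000000000000000000000000000000000000000000000000000000000000000000000000000000000000000000000000000000000000000000000000000000000000000000000000000000000000000000000000000000000000000000000000000000000000000000000000, [cP]),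
  (nat_lit 0x40000000000000000000000000000000000000000000000000000000000000000000000000000000000000000000000000000000000000000000000000000000000000000000000000000000000000000000000000000000000000000000000000000000000000000000000000000000000000000000000000000000000000000000000000000000000000000000000000000000000000000000000000000000000000000000000000000000000000000000000000000000000000000, [Nat.sub (Nat.pow 2 915) (Nat.pow 2 0), Nat.sub (Nat.pow 2 3136) (Nat.pow 2 915)]),
  (nat_lit 0x20000000000000000000000000000000000000000000000000000000000000000000000000000000000000000000000000000000000000000000000000000000000000000000000000000000000000000000000000000000000000000000000000000000000000000000000000000000000000000000000000000000000000000000000000000000000000000000000000000000000000000000000000000000000000000000000000000000000000000000000000000000000000000, [cP]),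
  (nat_lit 0x200000000000000000000000000000000000000000000000000000000000000000000000000000000000000000000000000000000000000000000000000000000000000000000000000000000000000000000000000000000000000000000000000000000000000000000000000000000000000000000000000000000000000000000000000000000000000000000000000000000000000000000000000000000000000000000000000000000000000000000000000000000000000000, [cP]),
  (nat_lit 0x800000000000000000000000000000000000000000000000000000000000000000000000000000000000000000000000000000000000000000000000000000000000000000000000000000000000000000000000000000000000000000000000000000000000000000000000000000000000000000000000000000000000000000000000000000000000000000000000000000000000000000000000000000000000000000000000000000000000000000000000000000000000000000, [Nat.sub (Nat.pow 2 304) (Nat.pow 2 0), Nat.sub (Nat.pow 2 909) (Nat.pow 2 304), Nat.sub (Nat.pow 2 3136) (Nat.pow 2 909)]),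
  (nat_lit 0x10000000000000000000000000000000000000000000000000000000000000000000000000000000000000000000000000000000000000000000000000000000000000000000000000000000000000000000000000000000000000000000000000000000000000000000000000000000000000000000000000000000000000000000000000000000000000000000000000000000000000000000000000000000000000000000000000000000000000000000000000000000000000000000, [Nat.sub (Nat.pow 2 816) (Nat.pow 2 0), Nat.sub (Nat.pow 2 3136) (Nat.pow 2 816)]),
  (nat_lit 0x20000000000000000000000000000000000000000000000000000000000000000000000000000000000000000000000000000000000000000000000000000000000000000000000000000000000000000000000000000000000000000000000000000000000000000000000000000000000000000000000000000000000000000000000000000000000000000000000000000000000000000000000000000000000000000000000000000000000000000000000000000000000000000000000, [Nat.sub (Nat.pow 2 816) (Nat.pow 2 0), Nat.sub (Nat.pow 2 1561) (Nat.pow 2 816), Nat.sub (Nat.pow 2 3136) (Nat.pow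 2 1561)]),
  (nat_lit 0x400000000000000000000000000000000000000000000000000000000000000000000000000000000000000000000000000000000000000000000000000000000000000000000000000000000000000000000000000000000000000000000000000000000000000000000000000000000000000000000000000000000000000000000000000000000000000000000000000000000000000000000000000000000000000000000000000000000000000000000000000000000000000000, [cP]),
  (nat_lit 0x80000000000000000000000000000000000000000000000000000000000000000000000000000000000000000000000000000000000000000000000000000000000000000000000000000000000000000000000000000000000000000000000000000000000000000000000000000000000000000000000000000000000000000000000000000000000000000000000000000000000000000000000000000000000000000000000000000000000000000000000000000000000000000000000, [Nat.sub (Nat.pow 2 1390) (Nat.pow 2 0), Nat.sub (Nat.pow 2 1564) (Nat.pow 2 1390), Nat.sub (Nat.pow 2 3136) (Nat.pow 2 1564)]),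
  (nat_lit 0x400000000000000000000000000000000000000000000000000000000000000000000000000000000000000000000000000000000000000000000000000000000000000000000000000000000000000000000000000000000000000000000000000000000000000000000000000000000000000000000000000000000000000000000000000000000000000000000000000000000000000000000000000000000000000000000000000000000000000000000000000000000000000000000000, [Nat.sub (Nat.pow 2 904) (Nat.pow 2 0), Nat.sub (Nat.pow 2 3136) (Nat.pow 2 904)]),
  (nat_lit 0x800000000000000000000000000000000000000000000000000000000000000000000000000000000000000000000000000000000000000000000000000000000000000000000000000000000000000000000000000000000000000000000000000000000000000000000000000000000000000000000000000000000000000000000000000000000000000000000000000000000000000000000000000000000000000000000000000000000000000000000000000000000000000000000000, [Nat.sub (Nat.pow 2 1266) (Nat.pow 2 0), Nat.sub (Nat.pow 2 3136) (Nat.pow 2 1266)]),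
  (nat_lit 0x8000000000000000000000000000000000000000000000000000000000000000000000000000000000000000000000000000000000000000000000000000000000000000000000000000000000000000000000000000000000000000000000000000000000000000000000000000000000000000000000000000000000000000000000000000000000000000000000000000000000000000000000000000000000000000000000000000000000000000000000000000000000000000000000000, [Nat.sub (Nat.pow 2 816) (Nat.pow 2 0), Nat.sub (Nat.pow 2 1290) (Nat.pow 2 816), Nat.sub (Nat.pow 2 1561) (Nat.pow 2 1290), Nat.sub (Nat.pow 2 3136) (Nat.pow 2 1561)]),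
  (nat_lit 0x1000000000000000000000000000000000000000000000000000000000000000000000000000000000000000000000000000000000000000000000000000000000000000000000000000000000000000000000000000000000000000000000000000000000000000000000000000000000000000000000000000000000000000000000000000000000000000000000000000000000000000000000000000000000000000000000000000000000000000000000000000000000000000000000000000000, [Nat.sub (Nat.pow 2 816) (Nat.pow 2 0), Nat.sub (Nat.pow 2 1561) (Nat.pow 2 816), Nat.sub (Nat.pow 2 3136) (Nat.pow 2 1561)]),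
  (nat_lit 0x10000000000000000000000000000000000000000000000000000000000000000000000000000000000000000000000000000000000000000000000000000000000000000000000000000000000000000000000000000000000000000000000000000000000000000000000000000000000000000000000000000000000000000000000000000000000000000000000000000000000000000000000000000000000000000000000000000000000000000000000000000000000000000000000000000000, [Nat.sub (Nat.pow 2 885) (Nat.pow 2 0), Nat.sub (Nat.pow 2 3136) (Nat.pow 2 885)]),
  (nat_lit 0x40000000000000000000000000000000000000000000000000000000000000000000000000000000000000000000000000000000000000000000000000000000000000000000000000000000000000000000000000000000000000000000000000000000000000000000000000000000000000000000000000000000000000000000000000000000000000000000000000000000000000000000000000000000000000000000000000000000000000000000000000000000000000000000000, [cP]),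
  (nat_lit 0x20000000000000000000000000000000000000000000000000000000000000000000000000000000000000000000000000000000000000000000000000000000000000000000000000000000000000000000000000000000000000000000000000000000000000000000000000000000000000000000000000000000000000000000000000000000000000000000000000000000000000000000000000000000000000000000000000000000000000000000000000000000000000000000000000000000, [cP])]

theorem hp0 : ∀ p ∈ L0, ∀ D2 ∈ p.2, ∃ e,
    search ext94 (Pool.Agent.H74.EGZ.vio sb) G Uc A0 p.1 D2 e = true :=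
  (List.forall_mem_cons.2 ⟨(List.forall_mem_cons.2 ⟨⟨e0, by decide +kernel⟩,
  (List.forall_mem_cons.2 ⟨⟨e1, by decide +kernel⟩,
  (List.forall_mem_singleton.2 ⟨.leaf, by decide +kernel⟩)⟩)⟩),
  (List.forall_mem_cons.2 ⟨(List.forall_mem_cons.2 ⟨⟨e3, by decide +kernel⟩,
  (List.forall_mem_singleton.2 ⟨.leaf, by decide +kernel⟩)⟩),
  (List.forall_mem_cons.2 ⟨(List.forall_mem_cons.2 ⟨⟨e5, by decide +kernel⟩,
  (List.forall_mem_singleton.2 ⟨e6, by decide +kernel⟩)⟩),
  (List.forall_mem_cons.2 ⟨(List.forall_mem_singleton.2 ⟨e7, by decide +kernel⟩),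
  (List.forall_mem_cons.2 ⟨(List.forall_mem_cons.2 ⟨⟨e8, by decide +kernel⟩,
  (List.forall_mem_singleton.2 ⟨e9, by decide +kernel⟩)⟩),
  (List.forall_mem_cons.2 ⟨(List.forall_mem_cons.2 ⟨⟨e10, by decide +kernel⟩,
  (List.forall_mem_cons.2 ⟨⟨e11, by decide +kernel⟩,
  (List.forall_mem_singleton.2 ⟨.leaf, by decide +kernel⟩)⟩)⟩),
  (List.forall_mem_cons.2 ⟨(List.forall_mem_cons.2 ⟨⟨e13, by decide +kernel⟩,
  (List.forall_mem_cons.2 ⟨⟨e14, by decide +kernel⟩,
  (List.forall_mem_singleton.2 ⟨e15, by decide +kernel⟩)⟩)⟩),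
  (List.forall_mem_cons.2 ⟨(List.forall_mem_singleton.2 ⟨e16, by decide +kernel⟩),
  (List.forall_mem_cons.2 ⟨(List.forall_mem_cons.2 ⟨⟨e17, by decide +kernel⟩,
  (List.forall_mem_cons.2 ⟨⟨e18, by decide +kernel⟩,
  (List.forall_mem_cons.2 ⟨⟨e19, by decide +kernel⟩,
  (List.forall_mem_cons.2 ⟨⟨e20, by decide +kernel⟩,
  (List.forall_mem_singleton.2 ⟨e21, by decide +kernel⟩)⟩)⟩)⟩)⟩),
  (List.forall_mem_cons.2 ⟨(List.forall_mem_singleton.2 ⟨e22, by decide +kernel⟩),
  (List.forall_mem_cons.2 ⟨(List.forall_mem_singleton.2 ⟨e23, by decide +kernel⟩),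
  (List.forall_mem_cons.2 ⟨(List.forall_mem_cons.2 ⟨⟨e24, by decide +kernel⟩,
  (List.forall_mem_cons.2 ⟨⟨e25, by decide +kernel⟩,
  (List.forall_mem_singleton.2 ⟨e26, by decide +kernel⟩)⟩)⟩),
  (List.forall_mem_cons.2 ⟨(List.forall_mem_singleton.2 ⟨e27, by decide +kernel⟩),
  (List.forall_mem_cons.2 ⟨(List.forall_mem_cons.2 ⟨⟨e28, by decide +kernel⟩,
  (List.forall_mem_cons.2 ⟨⟨e29, by decide +kernel⟩,
  (List.forall_mem_singleton.2 ⟨e30, by decide +kernel⟩)⟩)⟩),
  (List.forall_mem_cons.2 ⟨(List.forall_mem_singleton.2 ⟨e31, by decide +kernel⟩),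
  (List.forall_mem_cons.2 ⟨(List.forall_mem_cons.2 ⟨⟨e32, by decide +kernel⟩,
  (List.forall_mem_singleton.2 ⟨e33, by decide +kernel⟩)⟩),
  (List.forall_mem_cons.2 ⟨(List.forall_mem_cons.2 ⟨⟨.leaf, by decide +kernel⟩,
  (List.forall_mem_cons.2 ⟨⟨e35, by decide +kernel⟩,
  (List.forall_mem_singleton.2 ⟨e36, by decide +kernel⟩)⟩)⟩),
  (List.forall_mem_cons.2 ⟨(List.forall_mem_cons.2 ⟨⟨.leaf, by decide +kernel⟩,
  (List.forall_mem_cons.2 ⟨⟨e38, by decide +kernel⟩,
  (List.forall_mem_singleton.2 ⟨.leaf, by decide +kernel⟩)⟩)⟩),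
  (List.forall_mem_cons.2 ⟨(List.forall_mem_cons.2 ⟨⟨e40, by decide +kernel⟩,
  (List.forall_mem_cons.2 ⟨⟨e41, by decide +kernel⟩,
  (List.forall_mem_cons.2 ⟨⟨e42, by decide +kernel⟩,
  (List.forall_mem_cons.2 ⟨⟨e43, by decide +kernel⟩,
  (List.forall_mem_cons.2 ⟨⟨e44, by decide +kernel⟩,
  (List.forall_mem_cons.2 ⟨⟨e45, by decide +kernel⟩,
  (List.forall_mem_cons.2 ⟨⟨e46, by decide +kernel⟩,
  (List.forall_mem_cons.2 ⟨⟨e47, by decide +kernel⟩,
  (List.forall_mem_singleton.2 ⟨e48, by decide +kernel⟩)⟩)⟩)⟩)⟩)⟩)⟩)⟩)⟩),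
  (List.forall_mem_cons.2 ⟨(List.forall_mem_cons.2 ⟨⟨e49, by decide +kernel⟩,
  (List.forall_mem_singleton.2 ⟨.leaf, by decide +kernel⟩)⟩),
  (List.forall_mem_cons.2 ⟨(List.forall_mem_singleton.2 ⟨e51, by decide +kernel⟩),
  (List.forall_mem_cons.2 ⟨(List.forall_mem_cons.2 ⟨⟨e52, by decide +kernel⟩,
  (List.forall_mem_cons.2 ⟨⟨e53, by decide +kernel⟩,
  (List.forall_mem_singleton.2 ⟨e54, by decide +kernel⟩)⟩)⟩),
  (List.forall_mem_cons.2 ⟨(List.forall_mem_cons.2 ⟨⟨e55, by decide +kernel⟩,
  (List.forall_mem_cons.2 ⟨⟨e56, by decide +kernel⟩,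
  (List.forall_mem_cons.2 ⟨⟨e57, by decide +kernel⟩,
  (List.forall_mem_singleton.2 ⟨e58, by decide +kernel⟩)⟩)⟩)⟩),
  (List.forall_mem_cons.2 ⟨(List.forall_mem_cons.2 ⟨⟨e59, by decide +kernel⟩,
  (List.forall_mem_singleton.2 ⟨e60, by decide +kernel⟩)⟩),
  (List.forall_mem_cons.2 ⟨(List.forall_mem_cons.2 ⟨⟨e61, by decide +kernel⟩,
  (List.forall_mem_singleton.2 ⟨e62, by decide +kernel⟩)⟩),
  (List.forall_mem_cons.2 ⟨(List.forall_mem_singleton.2 ⟨e63, by decide +kernel⟩),
  (List.forall_mem_cons.2 ⟨(List.forall_mem_cons.2 ⟨⟨e64, by decide +kernel⟩,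
  (List.forall_mem_singleton.2 ⟨e65, by decide +kernel⟩)⟩),
  (List.forall_mem_cons.2 ⟨(List.forall_mem_cons.2 ⟨⟨e66, by decide +kernel⟩,
  (List.forall_mem_singleton.2 ⟨e67, by decide +kernel⟩)⟩),
  (List.forall_mem_cons.2 ⟨(List.forall_mem_cons.2 ⟨⟨e68, by decide +kernel⟩,
  (List.forall_mem_cons.2 ⟨⟨e69, by decide +kernel⟩,
  (List.forall_mem_cons.2 ⟨⟨e70, by decide +kernel⟩,
  (List.forall_mem_singleton.2 ⟨.leaf, by decide +kernel⟩)⟩)⟩)⟩),
  (List.forall_mem_cons.2 ⟨(List.forall_mem_cons.2 ⟨⟨e72, by decide +kernel⟩,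
  (List.forall_mem_cons.2 ⟨⟨e73, by decide +kernel⟩,
  (List.forall_mem_singleton.2 ⟨e74, by decide +kernel⟩)⟩)⟩),
  (List.forall_mem_cons.2 ⟨(List.forall_mem_cons.2 ⟨⟨e75, by decide +kernel⟩,
  (List.forall_mem_singleton.2 ⟨e76, by decide +kernel⟩)⟩),
  (List.forall_mem_cons.2 ⟨(List.forall_mem_cons.2 ⟨⟨e77, by decide +kernel⟩,
  (List.forall_mem_singleton.2 ⟨e78, by decide +kernel⟩)⟩),
  (List.forall_mem_cons.2 ⟨(List.forall_mem_cons.2 ⟨⟨e79, by decide +kernel⟩,
  (List.forall_mem_cons.2 ⟨⟨e80, by decide +kernel⟩,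
  (List.forall_mem_singleton.2 ⟨e81, by decide +kernel⟩)⟩)⟩),
  (List.forall_mem_cons.2 ⟨(List.forall_mem_singleton.2 ⟨e82, by decide +kernel⟩),
  (List.forall_mem_cons.2 ⟨(List.forall_mem_cons.2 ⟨⟨e83, by decide +kernel⟩,
  (List.forall_mem_singleton.2 ⟨e84, by decide +kernel⟩)⟩),
  (List.forall_mem_cons.2 ⟨(List.forall_mem_cons.2 ⟨⟨e85, by decide +kernel⟩,
  (List.forall_mem_singleton.2 ⟨e86, by decide +kernel⟩)⟩),
  (List.forall_mem_cons.2 ⟨(List.forall_mem_singleton.2 ⟨e87, by decide +kernel⟩),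
  (List.forall_mem_cons.2 ⟨(List.forall_mem_cons.2 ⟨⟨e88, by decide +kernel⟩,
  (List.forall_mem_singleton.2 ⟨.leaf, by decide +kernel⟩)⟩),
  (List.forall_mem_cons.2 ⟨(List.forall_mem_cons.2 ⟨⟨e90, by decide +kernel⟩,
  (List.forall_mem_cons.2 ⟨⟨e91, by decide +kernel⟩,
  (List.forall_mem_singleton.2 ⟨e92, by decide +kernel⟩)⟩)⟩),
  (List.forall_mem_cons.2 ⟨(List.forall_mem_cons.2 ⟨⟨e93, by decide +kernel⟩,
  (List.forall_mem_cons.2 ⟨⟨e94, by decide +kernel⟩,
  (List.forall_mem_singleton.2 ⟨.leaf, by decide +kernel⟩)⟩)⟩),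
  (List.forall_mem_cons.2 ⟨(List.forall_mem_cons.2 ⟨⟨e96, by decide +kernel⟩,
  (List.forall_mem_singleton.2 ⟨e97, by decide +kernel⟩)⟩),
  (List.forall_mem_cons.2 ⟨(List.forall_mem_cons.2 ⟨⟨e98, by decide +kernel⟩,
  (List.forall_mem_singleton.2 ⟨e99, by decide +kernel⟩)⟩),
  (List.forall_mem_cons.2 ⟨(List.forall_mem_cons.2 ⟨⟨e100, by decide +kernel⟩,
  (List.forall_mem_cons.2 ⟨⟨e101, by decide +kernel⟩,
  (List.forall_mem_cons.2 ⟨⟨e102, by decide +kernel⟩,
  (List.forall_mem_singleton.2 ⟨.leaf, by decide +kernel⟩)⟩)⟩)⟩),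
  (List.forall_mem_cons.2 ⟨(List.forall_mem_cons.2 ⟨⟨e104, by decide +kernel⟩,
  (List.forall_mem_cons.2 ⟨⟨e105, by decide +kernel⟩,
  (List.forall_mem_cons.2 ⟨⟨e106, by decide +kernel⟩,
  (List.forall_mem_singleton.2 ⟨.leaf, by decide +kernel⟩)⟩)⟩)⟩),
  (List.forall_mem_cons.2 ⟨(List.forall_mem_cons.2 ⟨⟨e108, by decide +kernel⟩,
  (List.forall_mem_singleton.2 ⟨e109, by decide +kernel⟩)⟩),
  (List.forall_mem_cons.2 ⟨(List.forall_mem_singleton.2 ⟨e110, by decide +kernel⟩),
  (List.forall_mem_cons.2 ⟨(List.forall_mem_cons.2 ⟨⟨e111, by decide +kernel⟩,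
  (List.forall_mem_singleton.2 ⟨.leaf, by decide +kernel⟩)⟩),
  (List.forall_mem_cons.2 ⟨(List.forall_mem_cons.2 ⟨⟨e113, by decide +kernel⟩,
  (List.forall_mem_singleton.2 ⟨e114, by decide +kernel⟩)⟩),
  (List.forall_mem_cons.2 ⟨(List.forall_mem_cons.2 ⟨⟨e115, by decide +kernel⟩,
  (List.forall_mem_singleton.2 ⟨e116, by decide +kernel⟩)⟩),
  (List.forall_mem_cons.2 ⟨(List.forall_mem_singleton.2 ⟨e117, by decide +kernel⟩),
  (List.forall_mem_cons.2 ⟨(List.forall_mem_cons.2 ⟨⟨e118, by decide +kernel⟩,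
  (List.forall_mem_singleton.2 ⟨e119, by decide +kernel⟩)⟩),
  (List.forall_mem_cons.2 ⟨(List.forall_mem_singleton.2 ⟨e120, by decide +kernel⟩),
  (List.forall_mem_cons.2 ⟨(List.forall_mem_cons.2 ⟨⟨e121, by decide +kernel⟩,
  (List.forall_mem_cons.2 ⟨⟨e122, by decide +kernel⟩,
  (List.forall_mem_singleton.2 ⟨e123, by decide +kernel⟩)⟩)⟩),
  (List.forall_mem_cons.2 ⟨(List.forall_mem_cons.2 ⟨⟨e124, by decide +kernel⟩,
  (List.forall_mem_cons.2 ⟨⟨e125, by decide +kernel⟩,
  (List.forall_mem_cons.2 ⟨⟨e126, by decide +kernel⟩,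
  (List.forall_mem_singleton.2 ⟨e127, by decide +kernel⟩)⟩)⟩)⟩),
  (List.forall_mem_cons.2 ⟨(List.forall_mem_singleton.2 ⟨e128, by decide +kernel⟩),
  (List.forall_mem_cons.2 ⟨(List.forall_mem_cons.2 ⟨⟨e129, by decide +kernel⟩,
  (List.forall_mem_singleton.2 ⟨e130, by decide +kernel⟩)⟩),
  (List.forall_mem_cons.2 ⟨(List.forall_mem_cons.2 ⟨⟨e131, by decide +kernel⟩,
  (List.forall_mem_singleton.2 ⟨e132, by decide +kernel⟩)⟩),
  (List.forall_mem_cons.2 ⟨(List.forall_mem_cons.2 ⟨⟨e133, by decide +kernel⟩,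
  (List.forall_mem_cons.2 ⟨⟨e134, by decide +kernel⟩,
  (List.forall_mem_singleton.2 ⟨e135, by decide +kernel⟩)⟩)⟩),
  (List.forall_mem_cons.2 ⟨(List.forall_mem_cons.2 ⟨⟨.leaf, by decide +kernel⟩,
  (List.forall_mem_singleton.2 ⟨e137, by decide +kernel⟩)⟩),
  (List.forall_mem_cons.2 ⟨(List.forall_mem_singleton.2 ⟨e138, by decide +kernel⟩),
  (List.forall_mem_cons.2 ⟨(List.forall_mem_cons.2 ⟨⟨e139, by decide +kernel⟩,
  (List.forall_mem_singleton.2 ⟨e140, by decide +kernel⟩)⟩),
  (List.forall_mem_cons.2 ⟨(List.forall_mem_singleton.2 ⟨e141, by decide +kernel⟩),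
  (List.forall_mem_cons.2 ⟨(List.forall_mem_singleton.2 ⟨e142, by decide +kernel⟩),
  (List.forall_mem_cons.2 ⟨(List.forall_mem_cons.2 ⟨⟨e143, by decide +kernel⟩,
  (List.forall_mem_cons.2 ⟨⟨e144, by decide +kernel⟩,
  (List.forall_mem_singleton.2 ⟨e145, by decide +kernel⟩)⟩)⟩),
  (List.forall_mem_cons.2 ⟨(List.forall_mem_cons.2 ⟨⟨e146, by decide +kernel⟩,
  (List.forall_mem_singleton.2 ⟨e147, by decide +kernel⟩)⟩),
  (List.forall_mem_cons.2 ⟨(List.forall_mem_cons.2 ⟨⟨e148, by decide +kernel⟩,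
  (List.forall_mem_cons.2 ⟨⟨e149, by decide +kernel⟩,
  (List.forall_mem_singleton.2 ⟨.leaf, by decide +kernel⟩)⟩)⟩),
  (List.forall_mem_cons.2 ⟨(List.forall_mem_singleton.2 ⟨.leaf, by decide +kernel⟩),
  (List.forall_mem_cons.2 ⟨(List.forall_mem_cons.2 ⟨⟨e152, by decide +kernel⟩,
  (List.forall_mem_cons.2 ⟨⟨e153, by decide +kernel⟩,
  (List.forall_mem_singleton.2 ⟨.leaf, by decide +kernel⟩)⟩)⟩),
  (List.forall_mem_cons.2 ⟨(List.forall_mem_cons.2 ⟨⟨e155, by decide +kernel⟩,
  (List.forall_mem_singleton.2 ⟨e156, by decide +kernel⟩)⟩),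
  (List.forall_mem_cons.2 ⟨(List.forall_mem_cons.2 ⟨⟨e157, by decide +kernel⟩,
  (List.forall_mem_singleton.2 ⟨e158, by decide +kernel⟩)⟩),
  (List.forall_mem_cons.2 ⟨(List.forall_mem_cons.2 ⟨⟨e159, by decide +kernel⟩,
  (List.forall_mem_cons.2 ⟨⟨e160, by decide +kernel⟩,
  (List.forall_mem_cons.2 ⟨⟨e161, by decide +kernel⟩,
  (List.forall_mem_singleton.2 ⟨e162, by decide +kernel⟩)⟩)⟩)⟩),
  (List.forall_mem_cons.2 ⟨(List.forall_mem_cons.2 ⟨⟨e163, by decide +kernel⟩,
  (List.forall_mem_cons.2 ⟨⟨e164, by decide +kernel⟩,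
  (List.forall_mem_singleton.2 ⟨.leaf, by decide +kernel⟩)⟩)⟩),
  (List.forall_mem_cons.2 ⟨(List.forall_mem_cons.2 ⟨⟨e166, by decide +kernel⟩,
  (List.forall_mem_singleton.2 ⟨e167, by decide +kernel⟩)⟩),
  (List.forall_mem_cons.2 ⟨(List.forall_mem_singleton.2 ⟨e168, by decide +kernel⟩),
  (List.forall_mem_singleton.2 (List.forall_mem_singleton.2 ⟨e169, by decide +kernel⟩))⟩)⟩)⟩)⟩)⟩)⟩)⟩)⟩)⟩)⟩)⟩)⟩)⟩)⟩)⟩)⟩)⟩)⟩)⟩)⟩)⟩)⟩)⟩)⟩)⟩)⟩)⟩)⟩)⟩)⟩)⟩)⟩)⟩)⟩)⟩)⟩)⟩)⟩)⟩)⟩)⟩)⟩)⟩)⟩)⟩)⟩)⟩)⟩)⟩)⟩)⟩)⟩)⟩)⟩)⟩)⟩)⟩)⟩)⟩)⟩)⟩)⟩)⟩)⟩)⟩)⟩)⟩)⟩)⟩)⟩)⟩)⟩)⟩)⟩)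

end

end Pool.Agent.H21.EGZ.S13
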