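import Pool.Agent.H21.EGZ.D14

/-!
# Stage 14 : search, part 0
-/

set_option autoImplicit false
set_option maxRecDepth 100000

namespace Pool.Agent.H21.EGZ.S14

noncomputable section

open Pool.Agent.H74.EGZ Pool.Agent.H94.Lift

/-- refutations 1 -/
def e1 : EX := (.node (.node .leaf (nat_lit 885470814599178) (.br (nat_lit 1) (.cons (.br (nat_lit 6) (.cons (.rel (nat_lit 17213554692)) .nil)) .nil)) .leaf) (nat_lit 886113036418555) (.br (nat_lit 0) (.cons (.br (nat_lit 2) (.cons (.rel (nat_lit 138429444)) .nil)) .nil)) (.node .leaf (nat_lit 887437909575690) (.br (nat_lit 0) (.cons (.br (nat_lit 1) (.cons (.rel (nat_lit 41944320)) .nil)) .nil)) .leaf))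

/-- refutations 2 -/
def e2 : EX := (.node (.node (.node .leaf (nat_lit 903738576828443) (.br (nat_lit 0) (.cons (.br (nat_lit 5) (.cons (.rel (nat_lit 4299260928)) .nil)) .nil)) .leaf) (nat_lit 909282111975734) (.br (nat_lit 0) (.cons (.br (nat_lit 2) (.cons (.rel (nat_lit 72614916)) .nil)) .nil)) .leaf) (nat_lit 910527149226659) (.br (nat_lit 2) (.cons (.br (nat_lit 5) (.cons (.rel (nat_lit 8657043522)) .nil)) .nil)) (.node .leaf (nat_lit 910530819242659) (.br (nat_lit 0) (.cons (.br (nat_lit 2) (.cons (.rel (nat_lit 71827968)) .nil)) .nil)) .leaf))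

/-- refutations 3 -/
def e3 : EX := (.node .leaf (nat_lit 921282253108736) (.br (nat_lit 0) (.cons (.br (nat_lit 1) (.cons (.rel (nat_lit 20993025)) .nil)) .nil)) .leaf)

/-- refutations 4 -/
def e4 : EX := (.node (.node (.node (.node (.node .leaf (nat_lit 967624947499818) (.br (nat_lit 0) (.cons (.br (nat_lit 1) (.cons (.rel (nat_lit 26215440)) .nil)) .nil)) .leaf) (nat_lit 967624948697898) (.br (nat_lit 1) (.cons (.br (nat_lit 5) (.cons (.rel (nat_lit 4312007169)) .nil)) .nil)) .leaf) (nat_lit 967624950216193) (.br (nat_lit 0) (.cons (.br (nat_lit 4) (.cons (.rel (nat_lit 1079246856)) (.cons (.rel (nat_lit 1079246856)) .nil))) .nil)) (.node (.node .leaf (nat_lit 967624950275553) (.br (nat_lit 0) (.cons (.br (nat_lit 2) (.cons (.rel (nat_lit 142868736)) (.cons (.rel (nat_lit 75760704)) .nil))) .nil)) .leaf) (nat_lit 967624950334945) (.br (nat_lit 0) (.cons (.br (nat_lit 2) (.cons (.rel (nat_lit 71304273)) (.cons (.rel (nat_lit 75505665)) .nil))) .nil)) .leaf)) (nat_lit 967624950334977) (.br (nat_lit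 0) (.cons (.br (nat_lit 1) (.cons (.rel (nat_lit 20975898)) (.cons (.rel (nat_lit 26215440)) .nil))) (.cons (.br (nat_lit 2) (.cons (.rel (nat_lit 71303268)) (.cons (.rel (nat_lit 138416130)) .nil))) .nil))) (.node (.node (.node .leaf (nat_lit 969809913928937) (.br (nat_lit 0) (.cons (.br (nat_lit 2) (.cons (.rel (nat_lit 138477576)) .nil)) .nil)) .leaf) (nat_lit 969809913929237) (.br (nat_lit 0) (.cons (.br (nat_lit 1) (.cons (.rel (nat_lit 41947140)) .nil)) .nil)) .leaf) (nat_lit 978408437426931) (.br (nat_lit 0) (.cons (.br (nat_lit 1) (.cons (.rel (nat_lit 22086720)) .nil)) .nil)) (.node (.node .leaf (nat_lit 978408437426986) (.br (nat_lit 1) (.cons (.br (nat_lit 2) (.cons (.rel (nat_lit 83886360)) .nil)) .nil)) .leaf) (nat_lit 978408437427081) (.br (nat_lit 0) (.cons (.br (nat_lit 2) (.cons (.rel (nat_lit 71303268)) (.cons (.rel (nat_lit 142868736)) .nil))) .nil)) .leaf))) (nat_lit 978408437427433) (.br (nat_lit 0) (.cons (.br (nat_lit 1) (.cons (.rel (nat_lit 20989200)) .nil)) .nil)) (.node (.node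 (.node (.node .leaf (nat_lit 978740342405130) (.br (nat_lit 0) (.cons (.br (nat_lit 2) (.cons (.rel (nat_lit 75580416)) .nil)) .nil)) .leaf) (nat_lit 978834813594410) (.br (nat_lit 0) (.cons (.br (nat_lit 3) (.cons (.rel (nat_lit 276824328)) .nil)) .nil)) .leaf) (nat_lit 978834814602026) (.br (nat_lit 0) (.cons (.br (nat_lit 2) (.cons (.rel (nat_lit 71373120)) .nil)) .nil)) (.node (.node .leaf (nat_lit 980561390275321) (.br (nat_lit 0) (.cons (.br (nat_lit 2) (.cons (.rel (nat_lit 71311686)) .nil)) .nil)) .leaf) (nat_lit 980930879053855) (.br (nat_lit 2) (.cons (.br (nat_lit 3) (.cons (.rel (nat_lit 336068616)) .nil)) .nil)) .leaf)) (nat_lit 980933876406303) (.br (nat_lit 0) (.cons (.br (nat_lit 1) (.cons (.rel (nat_lit 41959440)) .nil)) .nil)) (.node (.node (.node .leaf (nat_lit 980933876407033) (.br (nat_lit 2) (.cons (.br (nat_lit 4) (.cons (.rel (nat_lit 2214593544)) .nil)) .nil)) .leaf) (nat_lit 980933877021358) (.br (nat_lit 0) (.cons (.br (nat_lit 3) (.cons (.rel (nat_lit 273171456)) .nil)) .nil))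 .leaf) (nat_lit 980933877981194) (.br (nat_lit 0) (.cons (.br (nat_lit 4) (.cons (.rel (nat_lit 1082130960)) .nil)) .nil)) (.node .leaf (nat_lit 980933879519993) (.br (nat_lit 0) (.cons (.br (nat_lit 4) (.cons (.rel (nat_lit 1077937218)) .nil)) .nil)) .leaf))))

/-- refutations 5 -/
def e5 : EX := (.node (.node (.node .leaf (nat_lit 1090802512312471) (.br (nat_lit 1) (.cons (.br (nat_lit 2) (.cons (.rel (nat_lit 83886360)) .nil)) .nil)) .leaf) (nat_lit 1090804106383641) (.br (nat_lit 1) (.cons (.br (nat_lit 2) (.cons (.rel (nat_lit 84025344)) .nil)) .nil)) (.node .leaf (nat_lit 1090805114318052) (.br (nat_lit 0) (.cons (.br (nat_lit 1) (.cons (.rel (nat_lit 20976900)) .nil)) .nil)) .leaf)) (nat_lit 1091199244247672) (.br (nat_lit 1) (.cons (.br (nat_lit 0) (.cons (.rel (nat_lit 20976900)) (.cons (.rel (nat_lit 20974080)) (.cons (.rel (nat_lit 20989200)) .nil)))) .nil)) (.node (.node .leaf (nat_lit 1091199244247797) (.br (nat_lit 0) (.cons (.br (nat_lit 1) (.cons (.rel (nat_lit 21037332)) .nil)) .nil))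 .leaf) (nat_lit 1091199245700473) (.br (nat_lit 0) (.cons (.br (nat_lit 1) (.cons (.rel (nat_lit 20974080)) .nil)) .nil)) (.node .leaf (nat_lit 1092863594931706) (.br (nat_lit 0) (.cons (.br (nat_lit 2) (.cons (.rel (nat_lit 71304273)) .nil)) .nil)) .leaf)))

/-- refutations 6 -/
def e6 : EX := (.node (.node (.node .leaf (nat_lit 1101988200826890) (.br (nat_lit 0) (.cons (.br (nat_lit 1) (.cons (.rel (nat_lit 21004320)) (.cons (.rel (nat_lit 41959440)) .nil))) .nil)) .leaf) (nat_lit 1101988200827812) (.br (nat_lit 2) (.cons (.br (nat_lit 3) (.cons (.rel (nat_lit 335544672)) (.cons (.rel (nat_lit 603981072)) .nil))) .nil)) (.node .leaf (nat_lit 1101988200828281) (.br (nat_lit 0) (.cons (.br (nat_lit 4) (.cons (.rel (nat_lit 1080034560)) .nil)) .nil)) .leaf)) (nat_lit 1101988202556793) (.br (nat_lit 0) (.cons (.br (nat_lit 2) (.cons (.rel (nat_lit 138416130)) .nil)) .nil)) (.node (.node .leaf (nat_lit 1103646059377301) (.br (nat_lit 0) (.cons (.br (nat_lit 3) (.cons (.rel (nat_lit 274726914)) .nil)) .nil))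 .leaf) (nat_lit 1103646059955101) (.br (nat_lit 2) (.cons (.br (nat_lit 5) (.cons (.rel (nat_lit 4362080517)) (.cons (.rel (nat_lit 4362109956)) .nil))) .nil)) (.node .leaf (nat_lit 1103649163162482) (.br (nat_lit 0) (.cons (.br (nat_lit 3) (.cons (.rel (nat_lit 273171456)) .nil)) .nil)) .leaf)))

/-- refutations 7 -/
def e7 : EX := (.node (.node (.node .leaf (nat_lit 1004989246197916) (.br (nat_lit 0) (.cons (.br (nat_lit 3) (.cons (.rel (nat_lit 541081857)) .nil)) .nil)) .leaf) (nat_lit 1005213976987658) (.br (nat_lit 0) (.cons (.br (nat_lit 3) (.cons (.rel (nat_lit 272761920)) (.cons (.rel (nat_lit 276890640)) (.cons (.rel (nat_lit 276830208)) .nil)))) (.cons (.br (nat_lit 1) (.cons (.rel (nat_lit 41944320)) (.cons (.rel (nat_lit 23334912)) .nil))) .nil))) .leaf) (nat_lit 1005213979248650) (.br (nat_lit 0) (.cons (.br (nat_lit 1) (.cons (.rel (nat_lit 21004320)) .nil)) .nil)) (.node (.node .leaf (nat_lit 1005217333882367) (.br (nat_lit 0) (.cons (.br (nat_lit 5) (.cons (.rel (nat_lit 4299227664))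 .nil)) .nil)) .leaf) (nat_lit 1005217334691850) (.br (nat_lit 0) (.cons (.br (nat_lit 1) (.cons (.rel (nat_lit 20974080)) .nil)) .nil)) .leaf))

/-- refutations 8 -/
def e8 : EX := (.node (.node (.node .leaf (nat_lit 2216678747787274) (.br (nat_lit 4) (.cons (.br (nat_lit 1) (.cons (.rel (nat_lit 1090521360)) (.cons (.rel (nat_lit 1090535430)) (.cons (.rel (nat_lit 1107362880)) .nil)))) .nil)) .leaf) (nat_lit 2216884985997322) (.br (nat_lit 2) (.cons (.br (nat_lit 3) (.cons (.rel (nat_lit 336856320)) .nil)) .nil)) (.node .leaf (nat_lit 2217099732992010) (.br (nat_lit 1) (.cons (.br (nat_lit 2) (.cons (.rel (nat_lit 83890185)) .nil)) .nil)) .leaf)) (nat_lit 2217099734260344) (.br (nat_lit 1) (.cons (.br (nat_lit 2) (.cons (.rel (nat_lit 83903490)) .nil)) .nil)) (.node (.node .leaf (nat_lit 2217099735841400) (.br (nat_lit 1) (.cons (.br (nat_lit 4) (.cons (.rel (nat_lit 1090552320)) .nil)) .nil)) .leaf) (nat_lit 2229821426122762) (.br (nat_lit 0) (.cons (.br (nat_lit 4) (.cons (.rel (nat_lit 1077937218))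 .nil)) .nil)) (.node .leaf (nat_lit 2229821427697674) (.br (nat_lit 0) (.cons (.br (nat_lit 1) (.cons (.rel (nat_lit 22544388)) .nil)) .nil)) .leaf)))

/-- refutations 9 -/
def e9 : EX := (.node .leaf (nat_lit 2286987362408499) (.br (nat_lit 2) (.cons (.br (nat_lit 3) (.cons (.rel (nat_lit 671350788)) .nil)) .nil)) .leaf)

/-- refutations 10 -/
def e10 : EX := (.node (.node (.node .leaf (nat_lit 2324319321733130) (.br (nat_lit 3) (.cons (.br (nat_lit 6) (.cons (.rel (nat_lit 17448308997)) .nil)) .nil)) .leaf) (nat_lit 2329041793243896) (.br (nat_lit 2) (.cons (.br (nat_lit 3) (.cons (.rel (nat_lit 335610948)) .nil)) .nil)) .leaf) (nat_lit 2333003748413450) (.br (nat_lit 2) (.cons (.br (nat_lit 3) (.cons (.rel (nat_lit 336859140)) .nil)) .nil)) (.node (.node .leaf (nat_lit 2333398882600970) (.br (nat_lit 0) (.cons (.br (nat_lit 2) (.cons (.rel (nat_lit 142868736)) .nil)) .nil)) .leaf) (nat_lit 2333433140328458) (.br (nat_lit 0) (.cons (.br (nat_lit 1) (.cons (.rel (nat_lit 20979720)) .nil)) .nil)) .leaf))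

/-- refutations 11 -/
def e11 : EX := (.node (.node .leaf (nat_lit 2376022034711905) (.br (nat_lit 0) (.cons (.br (nat_lit 2) (.cons (.rel (nat_lit 73405440)) .nil)) .nil)) .leaf) (nat_lit 2388099484016650) (.br (nat_lit 0) (.cons (.br (nat_lit 2) (.cons (.rel (nat_lit 71827968)) .nil)) .nil)) .leaf)

/-- refutations 12 -/
def e12 : EX := (.node (.node (.node (.node (.node .leaf (nat_lit 2392969975506954) (.br (nat_lit 1) (.cons (.br (nat_lit 4) (.cons (.rel (nat_lit 1090535430)) .nil)) .nil)) .leaf) (nat_lit 2392970097053706) (.br (nat_lit 1) (.cons (.br (nat_lit 3) (.cons (.rel (nat_lit 285218304)) .nil)) .nil)) .leaf) (nat_lit 2394748090391280) (.br (nat_lit 0) (.cons (.br (nat_lit 1) (.cons (.rel (nat_lit 41947140)) .nil)) .nil)) (.node (.node .leaf (nat_lit 2394748091623434) (.br (nat_lit 0) (.cons (.br (nat_lit 1) (.cons (.rel (nat_lit 22544388)) .nil)) .nil)) .leaf) (nat_lit 2394748213258250) (.br (nat_lit 3) (.cons (.br (nat_lit 4) (.cons (.rel (nat_lit 1342242888)) .nil)) .nil)) .leaf)) (nat_lit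 2394748213287664) (.br (nat_lit 4) (.cons (.br (nat_lit 5) (.cons (.rel (nat_lit 5370282000)) .nil)) .nil)) (.node (.node (.node .leaf (nat_lit 2394999505361173) (.br (nat_lit 1) (.cons (.br (nat_lit 3) (.cons (.rel (nat_lit 285312000)) .nil)) .nil)) .leaf) (nat_lit 2399506914087668) (.br (nat_lit 0) (.cons (.br (nat_lit 1) (.cons (.rel (nat_lit 41947140)) (.cons (.rel (nat_lit 20989200)) .nil))) .nil)) .leaf) (nat_lit 2399506914088189) (.br (nat_lit 0) (.cons (.br (nat_lit 3) (.cons (.rel (nat_lit 276840453)) .nil)) .nil)) (.node (.node .leaf (nat_lit 2399506914097902) (.br (nat_lit 0) (.cons (.br (nat_lit 3) (.cons (.rel (nat_lit 272638032)) .nil)) .nil)) .leaf) (nat_lit 2399506914097952) (.br (nat_lit 1) (.cons (.br (nat_lit 2) (.cons (.rel (nat_lit 167841792)) .nil)) .nil)) .leaf))) (nat_lit 2399506914155748) (.br (nat_lit 0) (.cons (.br (nat_lit 2) (.cons (.rel (nat_lit 71327808)) .nil)) .nil)) (.node (.node (.node (.node .leaf (nat_lit 2399506915629856) (.br (nat_lit 0) (.cons (.br (nat_lit 2)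 (.cons (.rel (nat_lit 139460688)) .nil)) .nil)) .leaf) (nat_lit 2399506915731466) (.br (nat_lit 1) (.cons (.br (nat_lit 6) (.cons (.rel (nat_lit 17196647040)) .nil)) .nil)) .leaf) (nat_lit 2399506917259274) (.br (nat_lit 4) (.cons (.br (nat_lit 0) (.cons (.rel (nat_lit 1077936213)) (.cons (.rel (nat_lit 1077936213)) .nil))) .nil)) (.node (.node .leaf (nat_lit 2403278019942702) (.br (nat_lit 0) (.cons (.br (nat_lit 1) (.cons (.rel (nat_lit 21037332)) .nil)) .nil)) .leaf) (nat_lit 2403278019942706) (.br (nat_lit 1) (.cons (.br (nat_lit 2) (.cons (.rel (nat_lit 83892240)) .nil)) .nil)) .leaf)) (nat_lit 2403278020079626) (.br (nat_lit 2) (.cons (.br (nat_lit 4) (.cons (.rel (nat_lit 1140851268)) .nil)) .nil)) (.node (.node (.node .leaf (nat_lit 2403374589581614) (.br (nat_lit 0) (.cons (.br (nat_lit 3) (.cons (.rel (nat_lit 541074432)) .nil)) .nil)) .leaf) (nat_lit 2403374589751306) (.br (nat_lit 0) (.cons (.br (nat_lit 5) (.cons (.rel (nat_lit 4299161637)) .nil)) .nil)) .leaf) (nat_lit 2403801884514314)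 (.br (nat_lit 6) (.cons (.br (nat_lit 5) (.cons (.rel (nat_lit 25769807892)) (.cons (.rel (nat_lit 21475165188)) .nil))) .nil)) (.node .leaf (nat_lit 2403801884577802) (.br (nat_lit 0) (.cons (.br (nat_lit 2) (.cons (.rel (nat_lit 71327808)) .nil)) .nil)) .leaf))))

/-- refutations 13 -/
def e13 : EX := (.node (.node (.node .leaf (nat_lit 2674073067130890) (.br (nat_lit 1) (.cons (.br (nat_lit 4) (.cons (.rel (nat_lit 1090525185)) .nil)) .nil)) .leaf) (nat_lit 2680543991750666) (.br (nat_lit 3) (.cons (.br (nat_lit 4) (.cons (.rel (nat_lit 2684895300)) .nil)) .nil)) .leaf) (nat_lit 2726874779770911) (.br (nat_lit 1) (.cons (.br (nat_lit 2) (.cons (.rel (nat_lit 84025344)) .nil)) .nil)) (.node (.node .leaf (nat_lit 2727106672928823) (.br (nat_lit 0) (.cons (.br (nat_lit 3) (.cons (.rel (nat_lit 274726914)) .nil)) .nil)) .leaf) (nat_lit 2740115548656878) (.br (nat_lit 0) (.cons (.br (nat_lit 3) (.cons (.rel (nat_lit 276824328)) .nil)) .nil)) .leaf))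

/-- refutations 14 -/
def e14 : EX := (.node (.node (.node .leaf (nat_lit 2744647362895882) (.br (nat_lit 0) (.cons (.br (nat_lit 3) (.cons (.rel (nat_lit 274726914)) .nil)) .nil)) .leaf) (nat_lit 2744690270519306) (.br (nat_lit 1) (.cons (.br (nat_lit 3) (.cons (.rel (nat_lit 286785792)) .nil)) .nil)) .leaf) (nat_lit 2745945544469292) (.br (nat_lit 0) (.cons (.br (nat_lit 1) (.cons (.rel (nat_lit 20974080)) .nil)) .nil)) (.node (.node .leaf (nat_lit 2746615668792178) (.br (nat_lit 0) (.cons (.br (nat_lit 4) (.cons (.rel (nat_lit 1077937218)) .nil)) .nil)) .leaf) (nat_lit 2746615670222057) (.br (nat_lit 0) (.cons (.br (nat_lit 1) (.cons (.rel (nat_lit 41944320)) .nil)) .nil)) .leaf))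

/-- refutations 15 -/
def e15 : EX := (.node (.node (.node (.node (.node .leaf (nat_lit 3201783103548023) (.br (nat_lit 0) (.cons (.br (nat_lit 1) (.cons (.rel (nat_lit 41944320)) .nil)) .nil)) .leaf) (nat_lit 3201795187391139) (.br (nat_lit 2) (.cons (.br (nat_lit 3) (.cons (.rel (nat_lit 671350788)) .nil)) .nil)) .leaf) (nat_lit 3201795189641891) (.br (nat_lit 1) (.cons (.br (nat_lit 3) (.cons (.rel (nat_lit 285218304)) .nil)) .nil)) (.node (.node .leaf (nat_lit 3201829409732618) (.br (nat_lit 0) (.cons (.br (nat_lit 1) (.cons (.rel (nat_lit 41959440)) .nil)) .nil)) .leaf) (nat_lit 3201829409893133) (.br (nat_lit 1) (.cons (.br (nat_lit 2) (.cons (.rel (nat_lit 167841792)) .nil)) .nil)) .leaf)) (nat_lit 3201829974570266) (.br (nat_lit 0) (.cons (.br (nat_lit 4) (.cons (.rel (nat_lit 1082134785)) .nil)) .nil)) (.node (.node (.node .leaf (nat_lit 3201832576339978) (.br (nat_lit 1) (.cons (.br (nat_lit 5) (.cons (.rel (nat_lit 4312829952)) .nil)) .nil)) .leaf) (nat_lit 3201832576341473) (.br (nat_lit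 0) (.cons (.br (nat_lit 4) (.cons (.rel (nat_lit 1077956928)) .nil)) .nil)) .leaf) (nat_lit 3201832577718282) (.br (nat_lit 0) (.cons (.br (nat_lit 3) (.cons (.rel (nat_lit 541065732)) .nil)) .nil)) (.node .leaf (nat_lit 3201835408516508) (.br (nat_lit 1) (.cons (.br (nat_lit 2) (.cons (.rel (nat_lit 83886360)) .nil)) .nil)) .leaf))) (nat_lit 3201864914153482) (.br (nat_lit 1) (.cons (.br (nat_lit 3) (.cons (.rel (nat_lit 570426372)) .nil)) .nil)) (.node (.node (.node (.node .leaf (nat_lit 3201864914154859) (.br (nat_lit 3) (.cons (.br (nat_lit 6) (.cons (.rel (nat_lit 17448566856)) .nil)) .nil)) .leaf) (nat_lit 3201866431713561) (.br (nat_lit 1) (.cons (.br (nat_lit 2) (.cons (.rel (nat_lit 83886360)) .nil)) .nil)) .leaf) (nat_lit 3201866431838883) (.br (nat_lit 4) (.cons (.br (nat_lit 6) (.cons (.br (nat_lit 5) (.cons (.rel (nat_lit 21474836616)) (.cons (.rel (nat_lit 5368725762)) (.cons (.rel (nat_lit 21474836616)) .nil)))) .nil)) .nil)) (.node .leaf (nat_lit 3201866432492907) (.br (nat_lit 6) (.cons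 (.br (nat_lit 3) (.cons (.br (nat_lit 4) (.cons (.rel (nat_lit 1342242888)) (.cons (.br (nat_lit 1) (.cons (.rel (nat_lit 2181054720)) (.cons (.rel (nat_lit 285218304)) (.cons (.rel (nat_lit 34393293120)) (.cons (.rel (nat_lit 570426372)) .nil))))) .nil))) (.cons (.rel (nat_lit 17716822146)) .nil))) .nil)) .leaf)) (nat_lit 3201867056277514) (.br (nat_lit 3) (.cons (.br (nat_lit 5) (.cons (.rel (nat_lit 4563411456)) .nil)) .nil)) (.node (.node (.node .leaf (nat_lit 3201867057754167) (.br (nat_lit 1) (.cons (.br (nat_lit 3) (.cons (.rel (nat_lit 570426372)) .nil)) .nil)) .leaf) (nat_lit 3201867057755364) (.br (nat_lit 0) (.cons (.br (nat_lit 1) (.cons (.rel (nat_lit 22086720)) .nil)) .nil)) .leaf) (nat_lit 3201867059329079) (.br (nat_lit 0) (.cons (.br (nat_lit 1) (.cons (.rel (nat_lit 41944320)) .nil)) .nil)) (.node .leaf (nat_lit 3201867120731617) (.br (nat_lit 0) (.cons (.br (nat_lit 1) (.cons (.rel (nat_lit 41959440)) .nil)) .nil)) .leaf))))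

/-- refutations 16 -/
def e16 : EX := (.node (.node (.node (.node (.node .leaf (nat_lit 3202009937700347) (.br (nat_lit 2) (.cons (.br (nat_lit 3) (.cons (.rel (nat_lit 335562816)) .nil)) .nil)) .leaf) (nat_lit 3202044369287178) (.br (nat_lit 0) (.cons (.br (nat_lit 1) (.cons (.rel (nat_lit 21004320)) .nil)) .nil)) .leaf) (nat_lit 3202045453892220) (.br (nat_lit 0) (.cons (.br (nat_lit 1) (.cons (.rel (nat_lit 20993025)) .nil)) .nil)) (.node (.node .leaf (nat_lit 3202046819945223) (.br (nat_lit 0) (.cons (.br (nat_lit 2) (.cons (.rel (nat_lit 138416130)) .nil)) .nil)) .leaf) (nat_lit 3202046821416970) (.br (nat_lit 2) (.cons (.br (nat_lit 4) (.cons (.rel (nat_lit 1207961604)) .nil)) .nil)) .leaf)) (nat_lit 3202050062099207) (.br (nat_lit 0) (.cons (.br (nat_lit 1) (.cons (.rel (nat_lit 20993025)) .nil)) .nil)) (.node (.node (.node .leaf (nat_lit 3202050062142215) (.br (nat_lit 0) (.cons (.br (nat_lit 1) (.cons (.rel (nat_lit 20974080)) .nil)) .nil)) .leaf) (nat_lit 3202087107665975) (.br (nat_lit 1)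 (.cons (.br (nat_lit 2) (.cons (.rel (nat_lit 83952672)) .nil)) .nil)) .leaf) (nat_lit 3202087107727412) (.br (nat_lit 1) (.cons (.br (nat_lit 2) (.cons (.rel (nat_lit 84148800)) .nil)) .nil)) (.node .leaf (nat_lit 3202087107770378) (.br (nat_lit 1) (.cons (.br (nat_lit 6) (.cons (.rel (nat_lit 34376519682)) .nil)) .nil)) .leaf))) (nat_lit 3202090274406410) (.br (nat_lit 1) (.cons (.br (nat_lit 4) (.cons (.rel (nat_lit 1090552320)) .nil)) .nil)) (.node (.node (.node (.node .leaf (nat_lit 3202090274407085) (.br (nat_lit 0) (.cons (.br (nat_lit 4) (.cons (.rel (nat_lit 1078002240)) .nil)) .nil)) .leaf) (nat_lit 3202090274465802) (.br (nat_lit 3) (.cons (.br (nat_lit 4) (.cons (.rel (nat_lit 1342181442)) .nil)) .nil)) .leaf) (nat_lit 3202090274670602) (.br (nat_lit 0) (.cons (.br (nat_lit 4) (.cons (.rel (nat_lit 2156138496)) .nil)) .nil)) (.node (.node .leaf (nat_lit 3202093441169418) (.br (nat_lit 2) (.cons (.br (nat_lit 6) (.cons (.rel (nat_lit 17247048960)) .nil)) .nil)) .leaf) (nat_lit 3202293404562083)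 (.br (nat_lit 1) (.cons (.br (nat_lit 2) (.cons (.rel (nat_lit 167841792)) .nil)) .nil)) .leaf)) (nat_lit 3202293405848213) (.br (nat_lit 1) (.cons (.br (nat_lit 4) (.cons (.rel (nat_lit 1090585617)) .nil)) .nil)) (.node (.node (.node .leaf (nat_lit 3202296512499722) (.br (nat_lit 1) (.cons (.br (nat_lit 4) (.cons (.rel (nat_lit 1090536480)) .nil)) .nil)) .leaf) (nat_lit 3202296512500487) (.br (nat_lit 1) (.cons (.br (nat_lit 6) (.cons (.rel (nat_lit 17197695234)) (.cons (.rel (nat_lit 17213554692)) (.cons (.rel (nat_lit 34393293120)) .nil)))) .nil)) .leaf) (nat_lit 3202298500344713) (.br (nat_lit 0) (.cons (.br (nat_lit 1) (.cons (.rel (nat_lit 21037332)) .nil)) .nil)) (.node .leaf (nat_lit 3202298739675146) (.br (nat_lit 0) (.cons (.br (nat_lit 4) (.cons (.rel (nat_lit 2151682065)) .nil)) .nil)) .leaf))))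

/-- refutations 17 -/
def e17 : EX := (.node (.node (.node (.node .leaf (nat_lit 3202310584492042) (.br (nat_lit 0) (.cons (.br (nat_lit 4) (.cons (.rel (nat_lit 1077937218)) .nil)) .nil)) .leaf) (nat_lit 3202313613987098) (.br (nat_lit 0) (.cons (.br (nat_lit 6) (.cons (.rel (nat_lit 17184069648)) .nil)) .nil)) .leaf) (nat_lit 3203169650458634) (.br (nat_lit 0) (.cons (.br (nat_lit 1) (.cons (.rel (nat_lit 20974080)) .nil)) .nil)) (.node .leaf (nat_lit 3203169954359477) (.br (nat_lit 1) (.cons (.br (nat_lit 0) (.cons (.rel (nat_lit 21004320)) (.cons (.rel (nat_lit 21004320)) .nil))) .nil)) .leaf)) (nat_lit 3203169954359927) (.br (nat_lit 0) (.cons (.br (nat_lit 1) (.cons (.rel (nat_lit 21037332)) (.cons (.rel (nat_lit 20974080)) .nil))) (.cons (.br (nat_lit 1) (.cons (.rel (nat_lit 20993025)) (.cons (.rel (nat_lit 41944320)) .nil))) .nil))) (.node (.node .leaf (nat_lit 3203170584480401) (.br (nat_lit 0) (.cons (.br (nat_lit 1) (.cons (.rel (nat_lit 25509888)) .nil)) .nil)) .leaf) (nat_lit 3203290263828655)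 (.br (nat_lit 0) (.cons (.br (nat_lit 5) (.cons (.rel (nat_lit 4299167232)) .nil)) .nil)) (.node .leaf (nat_lit 3203294934375660) (.br (nat_lit 1) (.cons (.br (nat_lit 6) (.cons (.rel (nat_lit 34376532996)) .nil)) .nil)) .leaf)))

/-- refutations 18 -/
def e18 : EX := (.node (.node (.node (.node (.node .leaf (nat_lit 3203925491823267) (.br (nat_lit 1) (.cons (.br (nat_lit 3) (.cons (.rel (nat_lit 285214728)) .nil)) .nil)) .leaf) (nat_lit 3203926438517038) (.br (nat_lit 0) (.cons (.br (nat_lit 1) (.cons (.rel (nat_lit 21102594)) .nil)) .nil)) (.node .leaf (nat_lit 3203926602035506) (.br (nat_lit 0) (.cons (.br (nat_lit 2) (.cons (.rel (nat_lit 71373120)) .nil)) .nil)) .leaf)) (nat_lit 3203926606579722) (.br (nat_lit 2) (.cons (.br (nat_lit 3) (.cons (.rel (nat_lit 336871440)) (.cons (.rel (nat_lit 336920577)) .nil))) .nil)) (.node (.node .leaf (nat_lit 3203926608030477) (.br (nat_lit 1) (.cons (.br (nat_lit 3) (.cons (.br (nat_lit 4) (.cons (.rel (nat_lit 1342194756)) .nil)) .nil)) .nil)) .leaf) (nat_lit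 3203928221300767) (.br (nat_lit 3) (.cons (.br (nat_lit 0) (.cons (.rel (nat_lit 272662596)) (.cons (.rel (nat_lit 276830208)) (.cons (.rel (nat_lit 541074432)) .nil)))) .nil)) .leaf)) (nat_lit 3203928221343796) (.br (nat_lit 3) (.cons (.br (nat_lit 0) (.cons (.rel (nat_lit 272662596)) (.cons (.rel (nat_lit 546308097)) .nil))) .nil)) (.node (.node (.node .leaf (nat_lit 3203928221345296) (.br (nat_lit 0) (.cons (.br (nat_lit 3) (.cons (.rel (nat_lit 546308097)) (.cons (.rel (nat_lit 272662596)) .nil))) .nil)) .leaf) (nat_lit 3203928222409989) (.br (nat_lit 0) (.cons (.br (nat_lit 2) (.cons (.rel (nat_lit 71303268)) .nil)) .nil)) .leaf) (nat_lit 3203928223638789) (.br (nat_lit 1) (.cons (.br (nat_lit 2) (.cons (.rel (nat_lit 83886360)) .nil)) .nil)) (.node (.node .leaf (nat_lit 3203928224108596) (.br (nat_lit 0) (.cons (.br (nat_lit 1) (.cons (.rel (nat_lit 23334912)) .nil)) .nil)) .leaf) (nat_lit 3203928518875917) (.br (nat_lit 1) (.cons (.br (nat_lit 0) (.cons (.rel (nat_lit 22086720)) (.cons (.rel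 (nat_lit 22544388)) .nil))) .nil)) .leaf))) (nat_lit 3203928518943522) (.br (nat_lit 0) (.cons (.br (nat_lit 1) (.cons (.rel (nat_lit 20974080)) .nil)) .nil)) (.node (.node (.node (.node .leaf (nat_lit 3203928520110090) (.br (nat_lit 1) (.cons (.br (nat_lit 4) (.cons (.rel (nat_lit 2181054720)) (.cons (.rel (nat_lit 1090584612)) .nil))) .nil)) .leaf) (nat_lit 3203928520676580) (.br (nat_lit 0) (.cons (.br (nat_lit 2) (.cons (.rel (nat_lit 71827968)) .nil)) .nil)) .leaf) (nat_lit 3203928521997540) (.br (nat_lit 0) (.cons (.br (nat_lit 1) (.cons (.rel (nat_lit 25509888)) .nil)) .nil)) (.node (.node .leaf (nat_lit 3203928623733538) (.br (nat_lit 0) (.cons (.br (nat_lit 4) (.cons (.rel (nat_lit 1082130960)) .nil)) .nil)) .leaf) (nat_lit 3203928623734021) (.br (nat_lit 0) (.cons (.br (nat_lit 1) (.cons (.rel (nat_lit 20993025)) .nil)) .nil)) .leaf)) (nat_lit 3203928625587676) (.br (nat_lit 0) (.cons (.br (nat_lit 1) (.cons (.rel (nat_lit 20989200)) .nil)) .nil)) (.node (.node (.node .leaf (nat_lit 3203986626830592)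 (.br (nat_lit 1) (.cons (.br (nat_lit 2) (.cons (.rel (nat_lit 83952672)) .nil)) .nil)) .leaf) (nat_lit 3203988771297332) (.br (nat_lit 5) (.cons (.br (nat_lit 0) (.cons (.rel (nat_lit 4299227664)) (.cons (.rel (nat_lit 4299163656)) .nil))) .nil)) .leaf) (nat_lit 3204012506907506) (.br (nat_lit 0) (.cons (.br (nat_lit 1) (.cons (.rel (nat_lit 41944320)) .nil)) .nil)) (.node (.node .leaf (nat_lit 3204141396597013) (.br (nat_lit 1) (.cons (.br (nat_lit 6) (.cons (.rel (nat_lit 17196647040)) .nil)) .nil)) .leaf) (nat_lit 3204146008953109) (.br (nat_lit 0) (.cons (.br (nat_lit 1) (.cons (.rel (nat_lit 41944320)) .nil)) .nil)) .leaf))))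

/-- refutations 19 -/
def e19 : EX := (.node (.node (.node (.node (.node .leaf (nat_lit 3204235676141599) (.br (nat_lit 2) (.cons (.br (nat_lit 4) (.cons (.rel (nat_lit 2214592530)) .nil)) .nil)) .leaf) (nat_lit 3204235676213504) (.br (nat_lit 2) (.cons (.br (nat_lit 0) (.cons (.rel (nat_lit 138429444)) (.cons (.rel (nat_lit 142868736)) .nil))) .nil)) .leaf) (nat_lit 3204235764183317) (.br (nat_lit 0) (.cons (.br (nat_lit 3) (.cons (.rel (nat_lit 273678720)) .nil)) .nil)) (.node (.node .leaf (nat_lit 3204235764183821) (.br (nat_lit 0) (.cons (.br (nat_lit 6) (.cons (.rel (nat_lit 17184130080)) .nil)) .nil)) .leaf) (nat_lit 3204235767109938) (.br (nat_lit 0) (.cons (.br (nat_lit 3) (.cons (.rel (nat_lit 272638032)) .nil)) .nil)) .leaf)) (nat_lit 3204235767306250) (.br (nat_lit 2) (.cons (.br (nat_lit 3) (.cons (.rel (nat_lit 335548497)) .nil)) .nil)) (.node (.node (.node .leaf (nat_lit 3204238260144903) (.br (nat_lit 0) (.cons (.br (nat_lit 4) (.cons (.rel (nat_lit 2151678240)) .nil)) .nil)) .leaf)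 (nat_lit 3204240604674079) (.br (nat_lit 0) (.cons (.br (nat_lit 4) (.cons (.rel (nat_lit 1082164224)) (.cons (.rel (nat_lit 2151696384)) (.cons (.rel (nat_lit 2151744516)) (.cons (.rel (nat_lit 1082164224)) (.cons (.rel (nat_lit 1082164224)) (.cons (.rel (nat_lit 1082212356)) .nil))))))) (.cons (.br (nat_lit 3) (.cons (.rel (nat_lit 541081857)) (.cons (.rel (nat_lit 272630337)) (.cons (.rel (nat_lit 272630337)) (.cons (.rel (nat_lit 272638032)) .nil))))) .nil))) .leaf) (nat_lit 3204240604674829) (.br (nat_lit 0) (.cons (.br (nat_lit 3) (.cons (.rel (nat_lit 541074432)) .nil)) .nil)) (.node .leaf (nat_lit 3204240604760074) (.br (nat_lit 3) (.cons (.br (nat_lit 4) (.cons (.rel (nat_lit 1342194756)) (.cons (.rel (nat_lit 1610613012)) (.cons (.rel (nat_lit 1610614017)) (.cons (.rel (nat_lit 1342242888)) .nil))))) (.cons (.br (nat_lit 1) (.cons (.rel (nat_lit 285360132)) (.cons (.rel (nat_lit 286785792)) (.cons (.rel (nat_lit 286785792)) (.cons (.rel (nat_lit 570426372)) .nil))))) (.cons (.br (nat_lit 4)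 (.cons (.rel (nat_lit 1342181442)) (.cons (.rel (nat_lit 1342194756)) (.cons (.rel (nat_lit 1342177617)) (.cons (.rel (nat_lit 1342242888)) .nil))))) .nil)))) .leaf))) (nat_lit 3204240606210829) (.br (nat_lit 0) (.cons (.br (nat_lit 3) (.cons (.rel (nat_lit 272662596)) (.cons (.rel (nat_lit 546308097)) (.cons (.rel (nat_lit 541074432)) .nil)))) (.cons (.br (nat_lit 3) (.cons (.rel (nat_lit 272662596)) (.cons (.rel (nat_lit 273219588)) (.cons (.rel (nat_lit 276890640)) .nil)))) .nil))) (.node (.node (.node (.node .leaf (nat_lit 3204240606253858) (.br (nat_lit 0) (.cons (.br (nat_lit 3) (.cons (.rel (nat_lit 541074432)) .nil)) .nil)) .leaf) (nat_lit 3204240606296074) (.br (nat_lit 0) (.cons (.br (nat_lit 1) (.cons (.rel (nat_lit 42008577)) (.cons (.rel (nat_lit 20974080)) .nil))) .nil)) .leaf) (nat_lit 3204355996764191) (.br (nat_lit 1) (.cons (.br (nat_lit 2) (.cons (.rel (nat_lit 83892240)) .nil)) .nil)) (.node .leaf (nat_lit 3204356146703117) (.br (nat_lit 4) (.cons (.br (nat_lit 2) (.cons (.rel (nat_lit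 1140867393)) (.cons (.rel (nat_lit 2214593544)) .nil))) .nil)) .leaf)) (nat_lit 3204360322429205) (.br (nat_lit 0) (.cons (.br (nat_lit 1) (.cons (.rel (nat_lit 21037332)) .nil)) .nil)) (.node (.node (.node .leaf (nat_lit 3204360322430213) (.br (nat_lit 0) (.cons (.br (nat_lit 2) (.cons (.rel (nat_lit 73405440)) .nil)) .nil)) .leaf) (nat_lit 3204360325256450) (.br (nat_lit 3) (.cons (.br (nat_lit 0) (.cons (.rel (nat_lit 272638032)) (.cons (.rel (nat_lit 272630337)) .nil))) .nil)) .leaf) (nat_lit 3204360863758367) (.br (nat_lit 2) (.cons (.br (nat_lit 3) (.cons (.rel (nat_lit 671350788)) .nil)) .nil)) (.node .leaf (nat_lit 3204418161992461) (.br (nat_lit 0) (.cons (.br (nat_lit 3) (.cons (.rel (nat_lit 273678720)) .nil)) .nil)) .leaf))))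

/-- refutations 20 -/
def e20 : EX := (.node (.node (.node (.node (.node .leaf (nat_lit 3204450410558725) (.br (nat_lit 2) (.cons (.br (nat_lit 3) (.cons (.rel (nat_lit 335610948)) .nil)) .nil)) .leaf) (nat_lit 3204450410805258) (.br (nat_lit 3) (.cons (.br (nat_lit 4) (.cons (.rel (nat_lit 1342703616)) (.cons (.rel (nat_lit 2684617728)) .nil))) (.cons (.br (nat_lit 4) (.cons (.rel (nat_lit 1610629137)) (.cons (.rel (nat_lit 1342194756)) .nil))) .nil))) (.node .leaf (nat_lit 3207146676641919) (.br (nat_lit 3) (.cons (.br (nat_lit 4) (.cons (.rel (nat_lit 1610655744)) .nil)) .nil)) .leaf)) (nat_lit 3207147667111967) (.br (nat_lit 1) (.cons (.br (nat_lit 6) (.cons (.rel (nat_lit 17197762560)) .nil)) .nil)) (.node (.node .leaf (nat_lit 3207147722913823) (.br (nat_lit 3) (.cons (.br (nat_lit 0) (.cons (.rel (nat_lit 272638032)) (.cons (.rel (nat_lit 541065732)) .nil))) .nil)) .leaf) (nat_lit 3207147722956852) (.br (nat_lit 3) (.cons (.br (nat_lit 1) (.cons (.rel (nat_lit 304152576)) (.cons (.rel (nat_lit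 285360132)) (.cons (.rel (nat_lit 285218304)) .nil)))) (.cons (.br (nat_lit 1) (.cons (.rel (nat_lit 301990977)) (.cons (.rel (nat_lit 285214728)) (.cons (.rel (nat_lit 570426372)) .nil)))) .nil))) .leaf)) (nat_lit 3207147722957602) (.br (nat_lit 0) (.cons (.br (nat_lit 3) (.cons (.rel (nat_lit 272662596)) .nil)) .nil)) (.node (.node (.node .leaf (nat_lit 3207147722999818) (.br (nat_lit 3) (.cons (.br (nat_lit 0) (.cons (.rel (nat_lit 273219588)) (.cons (.rel (nat_lit 273219588)) .nil))) .nil)) .leaf) (nat_lit 3207147725217823) (.br (nat_lit 3) (.cons (.br (nat_lit 6) (.cons (.rel (nat_lit 17448313872)) (.cons (.rel (nat_lit 17448313872)) .nil))) .nil)) (.node .leaf (nat_lit 3207147725217952) (.br (nat_lit 6) (.cons (.br (nat_lit 3) (.cons (.rel (nat_lit 17448386568)) (.cons (.rel (nat_lit 17448306177)) .nil))) .nil)) .leaf)) (nat_lit 3207147725219323) (.br (nat_lit 3) (.cons (.br (nat_lit 6) (.cons (.rel (nat_lit 17448313872)) (.cons (.rel (nat_lit 17448305172)) (.cons (.rel (nat_lit 17448386568))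 .nil)))) (.cons (.br (nat_lit 6) (.cons (.rel (nat_lit 17448305172)) (.cons (.rel (nat_lit 17448306177)) (.cons (.rel (nat_lit 17448386568)) .nil)))) .nil))) (.node (.node .leaf (nat_lit 3207147725260852) (.br (nat_lit 0) (.cons (.br (nat_lit 3) (.cons (.rel (nat_lit 272638032)) (.cons (.rel (nat_lit 276830208)) .nil))) (.cons (.br (nat_lit 3) (.cons (.rel (nat_lit 276840453)) (.cons (.rel (nat_lit 272662596)) .nil))) .nil))) .leaf) (nat_lit 3207147725260960) (.br (nat_lit 0) (.cons (.br (nat_lit 3) (.cons (.rel (nat_lit 276840453)) .nil)) .nil)) .leaf))) (nat_lit 3207147725261602) (.br (nat_lit 0) (.cons (.br (nat_lit 3) (.cons (.rel (nat_lit 546310164)) .nil)) .nil)) (.node (.node (.node (.node .leaf (nat_lit 3207147725721610) (.br (nat_lit 3) (.cons (.br (nat_lit 6) (.cons (.rel (nat_lit 17448338436)) .nil)) .nil)) .leaf) (nat_lit 3207147725721631) (.br (nat_lit 3) (.cons (.br (nat_lit 6) (.cons (.rel (nat_lit 17448386568)) .nil)) .nil)) (.node .leaf (nat_lit 3207147725721877) (.br (nat_lit 0) (.cons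 (.br (nat_lit 2) (.cons (.rel (nat_lit 75501840)) (.cons (.rel (nat_lit 138477576)) .nil))) .nil)) .leaf)) (nat_lit 3207149744292117) (.br (nat_lit 0) (.cons (.br (nat_lit 3) (.cons (.rel (nat_lit 273171456)) .nil)) .nil)) (.node (.node .leaf (nat_lit 3207149747112192) (.br (nat_lit 1) (.cons (.br (nat_lit 3) (.cons (.rel (nat_lit 285214728)) .nil)) .nil)) .leaf) (nat_lit 3207151841720351) (.br (nat_lit 1) (.cons (.br (nat_lit 3) (.cons (.rel (nat_lit 570426372)) .nil)) .nil)) .leaf)) (nat_lit 3207152594804767) (.br (nat_lit 3) (.cons (.br (nat_lit 0) (.cons (.rel (nat_lit 546308097)) (.cons (.rel (nat_lit 272761920)) .nil))) .nil)) (.node (.node (.node .leaf (nat_lit 3207152594804992) (.br (nat_lit 0) (.cons (.br (nat_lit 1) (.cons (.rel (nat_lit 21004320)) .nil)) .nil)) .leaf) (nat_lit 3207152594806267) (.br (nat_lit 3) (.cons (.br (nat_lit 0) (.cons (.rel (nat_lit 272638032)) (.cons (.rel (nat_lit 276830208)) (.cons (.rel (nat_lit 276830208)) .nil)))) (.cons (.br (nat_lit 0) (.cons (.rel (nat_lit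 541065732)) (.cons (.rel (nat_lit 542130240)) (.cons (.rel (nat_lit 546308097)) .nil)))) .nil))) .leaf) (nat_lit 3207152594849296) (.br (nat_lit 3) (.cons (.br (nat_lit 6) (.cons (.rel (nat_lit 17448313872)) (.cons (.rel (nat_lit 17448386568)) .nil))) .nil)) (.node (.node .leaf (nat_lit 3207152594892262) (.br (nat_lit 0) (.cons (.br (nat_lit 3) (.cons (.rel (nat_lit 541065732)) .nil)) .nil)) .leaf) (nat_lit 3207364599063180) (.br (nat_lit 1) (.cons (.br (nat_lit 2) (.cons (.rel (nat_lit 83892240)) .nil)) .nil)) .leaf))))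

/-- refutations 21 -/
def e21 : EX := (.node (.node (.node (.node (.node (.node .leaf (nat_lit 3207456383069466) (.br (nat_lit 2) (.cons (.br (nat_lit 6) (.cons (.rel (nat_lit 17315136528)) .nil)) .nil)) .leaf) (nat_lit 3207457069697034) (.br (nat_lit 0) (.cons (.br (nat_lit 1) (.cons (.rel (nat_lit 41944320)) .nil)) .nil)) .leaf) (nat_lit 3207457071147789) (.br (nat_lit 1) (.cons (.br (nat_lit 3) (.cons (.rel (nat_lit 285312000)) .nil)) .nil)) (.node (.node .leaf (nat_lit 3207457111278229) (.br (nat_lit 0) (.cons (.br (nat_lit 3) (.cons (.rel (nat_lit 546308097)) .nil)) .nil)) .leaf) (nat_lit 3207457111554079) (.br (nat_lit 0) (.cons (.br (nat_lit 3) (.cons (.br (nat_lit 1) (.cons (.rel (nat_lit 20974080)) (.cons (.rel (nat_lit 570426372)) (.cons (.rel (nat_lit 20974080)) (.cons (.rel (nat_lit 20974080)) .nil))))) (.cons (.rel (nat_lit 272761920)) .nil))) (.cons (.br (nat_lit 3) (.cons (.rel (nat_lit 541065732)) (.cons (.rel (nat_lit 546635856)) .nil))) .nil))) .leaf)) (nat_lit 3207457111554679) (.br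 (nat_lit 1) (.cons (.br (nat_lit 2) (.cons (.rel (nat_lit 83923200)) .nil)) .nil)) (.node (.node (.node .leaf (nat_lit 3207457111555579) (.br (nat_lit 0) (.cons (.br (nat_lit 3) (.cons (.rel (nat_lit 272638032)) .nil)) .nil)) .leaf) (nat_lit 3207457111597108) (.br (nat_lit 1) (.cons (.br (nat_lit 3) (.cons (.rel (nat_lit 285212709)) (.cons (.rel (nat_lit 285218304)) (.cons (.rel (nat_lit 285212709)) .nil)))) (.cons (.br (nat_lit 3) (.cons (.rel (nat_lit 285213714)) (.cons (.rel (nat_lit 570426372)) (.cons (.rel (nat_lit 285213714)) .nil)))) (.cons (.br (nat_lit 3) (.cons (.rel (nat_lit 285214728)) (.cons (.rel (nat_lit 301990977)) (.cons (.rel (nat_lit 285213714)) .nil)))) .nil)))) .leaf) (nat_lit 3207457111597858) (.br (nat_lit 3) (.cons (.br (nat_lit 6) (.cons (.rel (nat_lit 17448386568)) .nil)) .nil)) (.node (.node .leaf (nat_lit 3207457111640074) (.br (nat_lit 3) (.cons (.br (nat_lit 6) (.cons (.rel (nat_lit 17448313872)) (.cons (.rel (nat_lit 17448306177)) (.cons (.rel (nat_lit 17448305172)) .nil))))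 (.cons (.br (nat_lit 0) (.cons (.rel (nat_lit 272630337)) (.cons (.rel (nat_lit 541074432)) (.cons (.rel (nat_lit 272761920)) (.cons (.rel (nat_lit 273171456)) .nil))))) (.cons (.br (nat_lit 4) (.cons (.rel (nat_lit 1343488260)) (.cons (.rel (nat_lit 1610613012)) (.cons (.rel (nat_lit 1610614017)) (.cons (.rel (nat_lit 1342177617)) .nil))))) .nil)))) .leaf) (nat_lit 3207457111641574) (.br (nat_lit 3) (.cons (.br (nat_lit 6) (.cons (.rel (nat_lit 17448338436)) .nil)) .nil)) .leaf))) (nat_lit 3207457112875669) (.br (nat_lit 0) (.cons (.br (nat_lit 2) (.cons (.rel (nat_lit 71327808)) .nil)) .nil)) (.node (.node (.node (.node .leaf (nat_lit 3207457113858079) (.br (nat_lit 0) (.cons (.br (nat_lit 2) (.cons (.rel (nat_lit 75628548)) (.cons (.rel (nat_lit 138477576)) (.cons (.rel (nat_lit 75580416)) (.cons (.rel (nat_lit 75505665)) (.cons (.rel (nat_lit 138429444)) .nil)))))) (.cons (.br (nat_lit 3) (.cons (.rel (nat_lit 272638032)) (.cons (.rel (nat_lit 272761920)) (.cons (.rel (nat_lit 276830208)) .nil))))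 .nil))) .leaf) (nat_lit 3207457113858229) (.br (nat_lit 3) (.cons (.br (nat_lit 5) (.cons (.rel (nat_lit 4563468312)) (.cons (.rel (nat_lit 9126809856)) .nil))) .nil)) .leaf) (nat_lit 3207457113858304) (.br (nat_lit 0) (.cons (.br (nat_lit 3) (.cons (.rel (nat_lit 272662596)) .nil)) .nil)) (.node (.node .leaf (nat_lit 3207457113858829) (.br (nat_lit 3) (.cons (.br (nat_lit 0) (.cons (.rel (nat_lit 272662596)) (.cons (.rel (nat_lit 272662596)) .nil))) .nil)) .leaf) (nat_lit 3207457113859579) (.br (nat_lit 3) (.cons (.br (nat_lit 1) (.cons (.rel (nat_lit 285213714)) (.cons (.rel (nat_lit 285214728)) (.cons (.rel (nat_lit 285212709)) .nil)))) (.cons (.br (nat_lit 1) (.cons (.rel (nat_lit 287653890)) (.cons (.rel (nat_lit 286785792)) (.cons (.rel (nat_lit 285312000)) .nil)))) .nil))) .leaf)) (nat_lit 3207457113944074) (.br (nat_lit 3) (.cons (.br (nat_lit 6) (.cons (.rel (nat_lit 17448386568)) (.cons (.rel (nat_lit 17448370434)) (.cons (.rel (nat_lit 34896675840)) .nil)))) .nil)) (.node (.node (.node .leaf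 (nat_lit 3207457113944374) (.br (nat_lit 0) (.cons (.br (nat_lit 3) (.cons (.rel (nat_lit 272638032)) .nil)) .nil)) .leaf) (nat_lit 3207457113945574) (.br (nat_lit 3) (.cons (.br (nat_lit 1) (.cons (.rel (nat_lit 285214728)) (.cons (.rel (nat_lit 285214728)) (.cons (.rel (nat_lit 285218304)) .nil)))) (.cons (.br (nat_lit 1) (.cons (.rel (nat_lit 285360132)) (.cons (.rel (nat_lit 285218304)) (.cons (.rel (nat_lit 570426372)) .nil)))) .nil))) .leaf) (nat_lit 3207457114472479) (.br (nat_lit 0) (.cons (.br (nat_lit 3) (.cons (.rel (nat_lit 272630337)) .nil)) .nil)) (.node .leaf (nat_lit 3207458481244320) (.br (nat_lit 0) (.cons (.br (nat_lit 3) (.cons (.br (nat_lit 4) (.cons (.br (nat_lit 6) (.cons (.rel (nat_lit 36507223041)) .nil)) .nil)) .nil)) .nil)) .leaf)))) (nat_lit 3207458983228698) (.br (nat_lit 0) (.cons (.br (nat_lit 3) (.cons (.rel (nat_lit 273678720)) .nil)) .nil)) (.node (.node (.node (.node (.node .leaf (nat_lit 3207458984807706) (.br (nat_lit 0) (.cons (.br (nat_lit 3) (.cons (.rel (nat_lit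 276890640)) (.cons (.rel (nat_lit 273219588)) .nil))) .nil)) .leaf) (nat_lit 3207461198130458) (.br (nat_lit 0) (.cons (.br (nat_lit 1) (.cons (.rel (nat_lit 21037332)) .nil)) .nil)) .leaf) (nat_lit 3207461198325024) (.br (nat_lit 0) (.cons (.br (nat_lit 1) (.cons (.rel (nat_lit 41944320)) .nil)) .nil)) (.node (.node .leaf (nat_lit 3207461199471849) (.br (nat_lit 0) (.cons (.br (nat_lit 1) (.cons (.rel (nat_lit 21004320)) .nil)) .nil)) .leaf) (nat_lit 3207637273688095) (.br (nat_lit 3) (.cons (.br (nat_lit 0) (.cons (.rel (nat_lit 272638032)) (.cons (.rel (nat_lit 541065732)) .nil))) .nil)) .leaf)) (nat_lit 3207637273688845) (.br (nat_lit 0) (.cons (.br (nat_lit 3) (.cons (.rel (nat_lit 272638032)) .nil)) .nil)) (.node (.node (.node .leaf (nat_lit 3207637273731124) (.br (nat_lit 3) (.cons (.br (nat_lit 1) (.cons (.rel (nat_lit 285218304)) (.cons (.rel (nat_lit 570426372)) .nil))) .nil)) .leaf) (nat_lit 3207637273774090) (.br (nat_lit 0) (.cons (.br (nat_lit 3) (.cons (.rel (nat_lit 272761920)) (.cons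 (.rel (nat_lit 541134864)) .nil))) (.cons (.br (nat_lit 3) (.cons (.br (nat_lit 6) (.cons (.rel (nat_lit 17448386568)) (.cons (.rel (nat_lit 17184130080)) .nil))) (.cons (.rel (nat_lit 272638032)) .nil))) .nil))) .leaf) (nat_lit 3207637276035124) (.br (nat_lit 3) (.cons (.br (nat_lit 6) (.cons (.rel (nat_lit 17448386568)) (.cons (.rel (nat_lit 34628239440)) (.cons (.rel (nat_lit 17448321297)) .nil)))) (.cons (.br (nat_lit 0) (.cons (.rel (nat_lit 541074432)) (.cons (.rel (nat_lit 272662596)) (.cons (.rel (nat_lit 272761920)) .nil)))) .nil))) (.node .leaf (nat_lit 3207637276035199) (.br (nat_lit 3) (.cons (.br (nat_lit 6) (.cons (.rel (nat_lit 17448386568)) (.cons (.rel (nat_lit 17448313872)) (.cons (.rel (nat_lit 17448305172)) .nil)))) .nil)) .leaf))) (nat_lit 3207637276078090) (.br (nat_lit 0) (.cons (.br (nat_lit 6) (.cons (.rel (nat_lit 17184064773)) (.cons (.rel (nat_lit 17184063768)) .nil))) (.cons (.br (nat_lit 6) (.cons (.rel (nat_lit 17184063768)) (.cons (.rel (nat_lit 17184130080)) .nil)))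 .nil))) (.node (.node (.node (.node .leaf (nat_lit 3207637276078207) (.br (nat_lit 0) (.cons (.br (nat_lit 3) (.cons (.rel (nat_lit 546308097)) .nil)) .nil)) .leaf) (nat_lit 3207637276538890) (.br (nat_lit 3) (.cons (.br (nat_lit 0) (.cons (.rel (nat_lit 272638032)) (.cons (.rel (nat_lit 272662596)) .nil))) .nil)) .leaf) (nat_lit 3207637276538932) (.br (nat_lit 1) (.cons (.br (nat_lit 3) (.cons (.rel (nat_lit 285312000)) (.cons (.rel (nat_lit 285214728)) (.cons (.rel (nat_lit 285360132)) .nil)))) (.cons (.br (nat_lit 0) (.cons (.rel (nat_lit 21004320)) (.cons (.rel (nat_lit 41944320)) (.cons (.rel (nat_lit 20989200)) .nil)))) .nil))) (.node (.node .leaf (nat_lit 3207637276539190) (.br (nat_lit 0) (.cons (.br (nat_lit 3) (.cons (.rel (nat_lit 272638032)) (.cons (.rel (nat_lit 272638032)) .nil))) (.cons (.br (nat_lit 3) (.cons (.rel (nat_lit 272662596)) (.cons (.rel (nat_lit 272761920)) .nil))) .nil))) .leaf) (nat_lit 3207641585518602) (.br (nat_lit 0) (.cons (.br (nat_lit 2) (.cons (.rel (nat_lit 71327808))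 .nil)) .nil)) .leaf)) (nat_lit 3207642009143306) (.br (nat_lit 3) (.cons (.br (nat_lit 5) (.cons (.rel (nat_lit 9126809856)) (.cons (.rel (nat_lit 4563411456)) .nil))) .nil)) (.node (.node (.node .leaf (nat_lit 3207642010393357) (.br (nat_lit 0) (.cons (.br (nat_lit 2) (.cons (.rel (nat_lit 138416130)) .nil)) .nil)) .leaf) (nat_lit 3207642010393882) (.br (nat_lit 0) (.cons (.br (nat_lit 3) (.cons (.rel (nat_lit 274726914)) .nil)) .nil)) .leaf) (nat_lit 3207642011598858) (.br (nat_lit 0) (.cons (.br (nat_lit 4) (.cons (.rel (nat_lit 1077956928)) .nil)) .nil)) (.node .leaf (nat_lit 3207642202050570) (.br (nat_lit 1) (.cons (.br (nat_lit 3) (.cons (.rel (nat_lit 285237249)) .nil)) .nil)) .leaf)))))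

/-- refutations 22 -/
def e22 : EX := (.node (.node (.node (.node (.node (.node .leaf (nat_lit 3208314948771850) (.br (nat_lit 0) (.cons (.br (nat_lit 2) (.cons (.rel (nat_lit 71827968)) .nil)) .nil)) .leaf) (nat_lit 3208317975522055) (.br (nat_lit 0) (.cons (.br (nat_lit 3) (.cons (.rel (nat_lit 272761920)) .nil)) .nil)) .leaf) (nat_lit 3208317976956938) (.br (nat_lit 0) (.cons (.br (nat_lit 4) (.cons (.rel (nat_lit 2151682065)) .nil)) .nil)) (.node .leaf (nat_lit 3208317978267929) (.br (nat_lit 1) (.cons (.br (nat_lit 3) (.cons (.rel (nat_lit 285214728)) .nil)) .nil)) .leaf)) (nat_lit 3208317978574858) (.br (nat_lit 0) (.cons (.br (nat_lit 1) (.cons (.rel (nat_lit 22544388)) .nil)) .nil)) (.node (.node (.node .leaf (nat_lit 3208320043558170) (.br (nat_lit 0) (.cons (.br (nat_lit 2) (.cons (.rel (nat_lit 75628548)) .nil)) .nil)) .leaf) (nat_lit 3208320046077210) (.br (nat_lit 1) (.cons (.br (nat_lit 3) (.cons (.rel (nat_lit 285233424)) .nil)) .nil)) .leaf) (nat_lit 3208440541710346) (.br (nat_lit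 1) (.cons (.br (nat_lit 3) (.cons (.rel (nat_lit 285360132)) (.cons (.rel (nat_lit 570426372)) .nil))) (.cons (.br (nat_lit 3) (.cons (.rel (nat_lit 285214728)) (.cons (.rel (nat_lit 285360132)) .nil))) .nil))) (.node .leaf (nat_lit 3208440541711771) (.br (nat_lit 1) (.cons (.br (nat_lit 5) (.cons (.rel (nat_lit 4312007169)) .nil)) .nil)) .leaf))) (nat_lit 3208440543246613) (.br (nat_lit 1) (.cons (.br (nat_lit 4) (.cons (.rel (nat_lit 1090521360)) .nil)) .nil)) (.node (.node (.node (.node .leaf (nat_lit 3208440544168213) (.br (nat_lit 0) (.cons (.br (nat_lit 1) (.cons (.rel (nat_lit 20993025)) .nil)) .nil)) .leaf) (nat_lit 3208440544186378) (.br (nat_lit 1) (.cons (.br (nat_lit 2) (.cons (.rel (nat_lit 101188608)) .nil)) .nil)) .leaf) (nat_lit 3208495295441676) (.br (nat_lit 0) (.cons (.br (nat_lit 1) (.cons (.rel (nat_lit 20974080)) .nil)) .nil)) (.node .leaf (nat_lit 3208495296919583) (.br (nat_lit 1) (.cons (.br (nat_lit 2) (.cons (.rel (nat_lit 83951622)) .nil)) .nil)) .leaf)) (nat_lit 3208498364587546)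 (.br (nat_lit 0) (.cons (.br (nat_lit 1) (.cons (.rel (nat_lit 21004320)) .nil)) .nil)) (.node (.node (.node .leaf (nat_lit 3208498366945561) (.br (nat_lit 1) (.cons (.br (nat_lit 3) (.cons (.rel (nat_lit 285214728)) .nil)) .nil)) .leaf) (nat_lit 3208498367158282) (.br (nat_lit 1) (.cons (.br (nat_lit 4) (.cons (.rel (nat_lit 2181054720)) (.cons (.rel (nat_lit 1090609152)) .nil))) .nil)) .leaf) (nat_lit 3208649817962656) (.br (nat_lit 0) (.cons (.br (nat_lit 1) (.cons (.rel (nat_lit 21061920)) .nil)) .nil)) (.node .leaf (nat_lit 3208744343177226) (.br (nat_lit 0) (.cons (.br (nat_lit 1) (.cons (.rel (nat_lit 21004320)) .nil)) .nil)) .leaf)))) (nat_lit 3208744343188258) (.br (nat_lit 0) (.cons (.br (nat_lit 3) (.cons (.rel (nat_lit 272761920)) .nil)) .nil)) (.node (.node (.node (.node (.node .leaf (nat_lit 3208744344823818) (.br (nat_lit 2) (.cons (.br (nat_lit 3) (.cons (.rel (nat_lit 672141312)) .nil)) .nil)) .leaf) (nat_lit 3208744346063029) (.br (nat_lit 5) (.cons (.br (nat_lit 6) (.cons (.rel (nat_lit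 38654738448)) .nil)) .nil)) .leaf) (nat_lit 3208744346063104) (.br (nat_lit 3) (.cons (.br (nat_lit 0) (.cons (.rel (nat_lit 272761920)) (.cons (.rel (nat_lit 272761920)) .nil))) .nil)) (.node .leaf (nat_lit 3208744346302474) (.br (nat_lit 3) (.cons (.br (nat_lit 5) (.cons (.rel (nat_lit 9126809856)) (.cons (.rel (nat_lit 4563505152)) (.cons (.rel (nat_lit 4563403041)) .nil)))) .nil)) .leaf)) (nat_lit 3208744346302496) (.br (nat_lit 0) (.cons (.br (nat_lit 1) (.cons (.rel (nat_lit 20989200)) .nil)) .nil)) (.node (.node (.node .leaf (nat_lit 3208744346370079) (.br (nat_lit 2) (.cons (.br (nat_lit 3) (.cons (.rel (nat_lit 336856320)) (.cons (.rel (nat_lit 335610948)) .nil))) .nil)) .leaf) (nat_lit 3208744346370229) (.br (nat_lit 2) (.cons (.br (nat_lit 0) (.cons (.rel (nat_lit 73405440)) (.cons (.rel (nat_lit 73465872)) .nil))) .nil)) .leaf) (nat_lit 3208744346370304) (.br (nat_lit 0) (.cons (.br (nat_lit 3) (.cons (.rel (nat_lit 272761920)) .nil)) .nil)) (.node .leaf (nat_lit 3208744346370829) (.br (nat_lit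 0) (.cons (.br (nat_lit 2) (.cons (.rel (nat_lit 75628548)) .nil)) .nil)) .leaf))) (nat_lit 3208747472182029) (.br (nat_lit 0) (.cons (.br (nat_lit 1) (.cons (.rel (nat_lit 21004320)) .nil)) .nil)) (.node (.node (.node (.node .leaf (nat_lit 3208747472182554) (.br (nat_lit 2) (.cons (.br (nat_lit 3) (.cons (.rel (nat_lit 603981072)) .nil)) .nil)) .leaf) (nat_lit 3208747473510410) (.br (nat_lit 1) (.cons (.br (nat_lit 3) (.cons (.rel (nat_lit 285360132)) .nil)) .nil)) .leaf) (nat_lit 3208747474946304) (.br (nat_lit 0) (.cons (.br (nat_lit 1) (.cons (.rel (nat_lit 21037332)) .nil)) .nil)) (.node .leaf (nat_lit 3208747474946358) (.br (nat_lit 1) (.cons (.br (nat_lit 2) (.cons (.rel (nat_lit 83887365)) .nil)) .nil)) .leaf)) (nat_lit 3208747474954542) (.br (nat_lit 2) (.cons (.br (nat_lit 3) (.cons (.rel (nat_lit 335544672)) .nil)) .nil)) (.node (.node (.node .leaf (nat_lit 3208749539923226) (.br (nat_lit 0) (.cons (.br (nat_lit 3) (.cons (.rel (nat_lit 546308097)) .nil)) .nil)) .leaf) (nat_lit 3208749542848789)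 (.br (nat_lit 0) (.cons (.br (nat_lit 2) (.cons (.rel (nat_lit 138477576)) .nil)) .nil)) .leaf) (nat_lit 3208750588621602) (.br (nat_lit 2) (.cons (.br (nat_lit 3) (.cons (.rel (nat_lit 335610948)) .nil)) .nil)) (.node .leaf (nat_lit 3208750640414730) (.br (nat_lit 0) (.cons (.br (nat_lit 2) (.cons (.rel (nat_lit 72614916)) .nil)) .nil)) .leaf)))))

/-- refutations 23 -/
def e23 : EX := (.node (.node (.node .leaf (nat_lit 3209311808674729) (.br (nat_lit 2) (.cons (.br (nat_lit 6) (.cons (.rel (nat_lit 17246978058)) .nil)) .nil)) .leaf) (nat_lit 3209316476935081) (.br (nat_lit 1) (.cons (.br (nat_lit 3) (.cons (.rel (nat_lit 285282561)) .nil)) .nil)) .leaf) (nat_lit 3209604597538826) (.br (nat_lit 0) (.cons (.br (nat_lit 1) (.cons (.rel (nat_lit 41944320)) .nil)) .nil)) (.node (.node .leaf (nat_lit 3209604597592074) (.br (nat_lit 5) (.cons (.br (nat_lit 3) (.cons (.rel (nat_lit 4563468312)) (.cons (.rel (nat_lit 4563411456)) .nil))) .nil)) .leaf) (nat_lit 3209784759683199) (.br (nat_lit 1) (.cons (.br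 (nat_lit 0) (.cons (.rel (nat_lit 41944320)) (.cons (.rel (nat_lit 25690176)) .nil))) .nil)) .leaf))

/-- refutations 24 -/
def e24 : EX := (.node (.node (.node (.node .leaf (nat_lit 3212518453772298) (.br (nat_lit 4) (.cons (.br (nat_lit 6) (.cons (.rel (nat_lit 19327746048)) .nil)) .nil)) .leaf) (nat_lit 3212518454712330) (.br (nat_lit 2) (.cons (.br (nat_lit 3) (.cons (.rel (nat_lit 336068616)) (.cons (.rel (nat_lit 671351841)) .nil))) (.cons (.br (nat_lit 6) (.cons (.rel (nat_lit 17246978058)) (.cons (.rel (nat_lit 34493956101)) .nil))) .nil))) (.node .leaf (nat_lit 3212518456232217) (.br (nat_lit 0) (.cons (.br (nat_lit 1) (.cons (.rel (nat_lit 20993025)) .nil)) .nil)) .leaf)) (nat_lit 3212518456292109) (.br (nat_lit 0) (.cons (.br (nat_lit 1) (.cons (.rel (nat_lit 41944320)) .nil)) .nil)) (.node (.node .leaf (nat_lit 3212518637964066) (.br (nat_lit 0) (.cons (.br (nat_lit 1) (.cons (.rel (nat_lit 41944320)) .nil)) .nil)) .leaf) (nat_lit 3212610921051418) (.br (nat_lit 1) (.cons (.br (nat_lit 5)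 (.cons (.rel (nat_lit 4311762048)) .nil)) .nil)) (.node .leaf (nat_lit 3212610921152768) (.br (nat_lit 2) (.cons (.br (nat_lit 4) (.cons (.rel (nat_lit 2214597120)) .nil)) .nil)) .leaf))) (nat_lit 3212610921153289) (.br (nat_lit 1) (.cons (.br (nat_lit 3) (.cons (.rel (nat_lit 285212709)) .nil)) .nil)) (.node (.node (.node .leaf (nat_lit 3212610923961577) (.br (nat_lit 0) (.cons (.br (nat_lit 1) (.cons (.rel (nat_lit 20974080)) .nil)) .nil)) .leaf) (nat_lit 3212612916221210) (.br (nat_lit 0) (.cons (.br (nat_lit 1) (.cons (.rel (nat_lit 21053457)) .nil)) .nil)) (.node .leaf (nat_lit 3212612942951652) (.br (nat_lit 0) (.cons (.br (nat_lit 1) (.cons (.rel (nat_lit 41959440)) .nil)) .nil)) .leaf)) (nat_lit 3212612944591104) (.br (nat_lit 1) (.cons (.br (nat_lit 2) (.cons (.rel (nat_lit 83887365)) .nil)) .nil)) (.node (.node .leaf (nat_lit 3212612945580813) (.br (nat_lit 1) (.cons (.br (nat_lit 3) (.cons (.rel (nat_lit 285278736)) .nil)) .nil)) .leaf) (nat_lit 3212739771346954) (.br (nat_lit 1) (.cons (.br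 (nat_lit 2) (.cons (.rel (nat_lit 151127172)) .nil)) .nil)) .leaf)))

/-- refutations 25 -/
def e25 : EX := (.node (.node (.node (.node (.node .leaf (nat_lit 3212791460731186) (.br (nat_lit 1) (.cons (.br (nat_lit 3) (.cons (.rel (nat_lit 570426372)) .nil)) .nil)) .leaf) (nat_lit 3212791460731661) (.br (nat_lit 0) (.cons (.br (nat_lit 1) (.cons (.rel (nat_lit 20974080)) .nil)) .nil)) (.node .leaf (nat_lit 3212791460782840) (.br (nat_lit 1) (.cons (.br (nat_lit 2) (.cons (.rel (nat_lit 100679748)) .nil)) .nil)) .leaf)) (nat_lit 3212791462471936) (.br (nat_lit 0) (.cons (.br (nat_lit 3) (.cons (.rel (nat_lit 541074432)) .nil)) .nil)) (.node (.node .leaf (nat_lit 3212791463854090) (.br (nat_lit 3) (.cons (.br (nat_lit 0) (.cons (.rel (nat_lit 541074432)) (.cons (.rel (nat_lit 546308097)) .nil))) .nil)) .leaf) (nat_lit 3212825774375672) (.br (nat_lit 0) (.cons (.br (nat_lit 1) (.cons (.rel (nat_lit 20989200)) .nil)) .nil)) .leaf)) (nat_lit 3212825775810064) (.br (nat_lit 1) (.cons (.br (nat_lit 2) (.cons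 (.rel (nat_lit 83903490)) .nil)) .nil)) (.node (.node (.node .leaf (nat_lit 3212825777357081) (.br (nat_lit 0) (.cons (.br (nat_lit 2) (.cons (.rel (nat_lit 71327808)) .nil)) .nil)) .leaf) (nat_lit 3212827796182244) (.br (nat_lit 0) (.cons (.br (nat_lit 1) (.cons (.rel (nat_lit 21038337)) .nil)) .nil)) (.node .leaf (nat_lit 3212945854889221) (.br (nat_lit 0) (.cons (.br (nat_lit 1) (.cons (.rel (nat_lit 21037332)) .nil)) .nil)) .leaf)) (nat_lit 3212945855819786) (.br (nat_lit 3) (.cons (.br (nat_lit 4) (.cons (.rel (nat_lit 2415940608)) .nil)) .nil)) (.node (.node .leaf (nat_lit 3212945855821211) (.br (nat_lit 0) (.cons (.br (nat_lit 1) (.cons (.rel (nat_lit 41959440)) .nil)) .nil)) .leaf) (nat_lit 3212945856116746) (.br (nat_lit 1) (.cons (.br (nat_lit 3) (.cons (.rel (nat_lit 570426372)) .nil)) .nil)) .leaf))) (nat_lit 3212945856116767) (.br (nat_lit 0) (.cons (.br (nat_lit 1) (.cons (.rel (nat_lit 20993025)) .nil)) .nil)) (.node (.node (.node (.node .leaf (nat_lit 3213006002485550) (.br (nat_lit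 3) (.cons (.br (nat_lit 2) (.cons (.rel (nat_lit 671350788)) (.cons (.rel (nat_lit 335610948)) .nil))) .nil)) .leaf) (nat_lit 3213007576729610) (.br (nat_lit 5) (.cons (.br (nat_lit 6) (.cons (.rel (nat_lit 21474836616)) .nil)) .nil)) (.node .leaf (nat_lit 3213039791553764) (.br (nat_lit 0) (.cons (.br (nat_lit 4) (.cons (.rel (nat_lit 2151744516)) .nil)) .nil)) .leaf)) (nat_lit 3213039791564810) (.br (nat_lit 1) (.cons (.br (nat_lit 6) (.cons (.rel (nat_lit 17197699104)) .nil)) .nil)) (.node (.node .leaf (nat_lit 3213039838953758) (.br (nat_lit 5) (.cons (.br (nat_lit 0) (.cons (.rel (nat_lit 4299161637)) (.cons (.rel (nat_lit 4299163656)) .nil))) .nil)) .leaf) (nat_lit 3213040568762654) (.br (nat_lit 0) (.cons (.br (nat_lit 3) (.cons (.rel (nat_lit 546308097)) .nil)) .nil)) .leaf)) (nat_lit 3213040568774933) (.br (nat_lit 0) (.cons (.br (nat_lit 3) (.cons (.rel (nat_lit 272662596)) .nil)) .nil)) (.node (.node (.node .leaf (nat_lit 3213040568834325) (.br (nat_lit 0) (.cons (.br (nat_lit 3) (.cons (.rel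 (nat_lit 272761920)) .nil)) .nil)) .leaf) (nat_lit 3213040569124874) (.br (nat_lit 3) (.cons (.br (nat_lit 4) (.cons (.rel (nat_lit 1342703616)) (.cons (.rel (nat_lit 1342181442)) (.cons (.rel (nat_lit 1342703616)) .nil)))) .nil)) (.node .leaf (nat_lit 3213040569125141) (.br (nat_lit 0) (.cons (.br (nat_lit 3) (.cons (.rel (nat_lit 546308097)) .nil)) .nil)) .leaf)) (nat_lit 3213044746301717) (.br (nat_lit 0) (.cons (.br (nat_lit 3) (.cons (.rel (nat_lit 276824328)) (.cons (.rel (nat_lit 273678720)) .nil))) .nil)) (.node (.node .leaf (nat_lit 3213044749110533) (.br (nat_lit 3) (.cons (.br (nat_lit 1) (.cons (.rel (nat_lit 285233424)) (.cons (.rel (nat_lit 285212709)) (.cons (.rel (nat_lit 285212709)) .nil)))) (.cons (.br (nat_lit 1) (.cons (.rel (nat_lit 285212709)) (.cons (.rel (nat_lit 285312000)) (.cons (.rel (nat_lit 553910544)) .nil)))) .nil))) .leaf) (nat_lit 3213044749128965) (.br (nat_lit 0) (.cons (.br (nat_lit 2) (.cons (.rel (nat_lit 71327808)) .nil)) .nil)) .leaf))))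

/-- refutations 26 -/
def e26 : EX := (.node (.node (.node (.node (.node .leaf (nat_lit 3214079800215562) (.br (nat_lit 1) (.cons (.br (nat_lit 3) (.cons (.rel (nat_lit 301990977)) .nil)) .nil)) .leaf) (nat_lit 3214079801709346) (.br (nat_lit 3) (.cons (.br (nat_lit 0) (.cons (.rel (nat_lit 541065732)) (.cons (.rel (nat_lit 546308097)) (.cons (.rel (nat_lit 541074432)) (.cons (.rel (nat_lit 272638032)) .nil))))) .nil)) .leaf) (nat_lit 3214079801751562) (.br (nat_lit 0) (.cons (.br (nat_lit 3) (.cons (.rel (nat_lit 272662596)) .nil)) .nil)) (.node (.node .leaf (nat_lit 3214081318553610) (.br (nat_lit 1) (.cons (.br (nat_lit 3) (.cons (.rel (nat_lit 570426372)) .nil)) .nil)) .leaf) (nat_lit 3214084562244869) (.br (nat_lit 0) (.cons (.br (nat_lit 3) (.cons (.rel (nat_lit 542181444)) .nil)) .nil)) .leaf)) (nat_lit 3214107088512486) (.br (nat_lit 0) (.cons (.br (nat_lit 1) (.cons (.rel (nat_lit 20989200)) .nil)) .nil)) (.node (.node (.node .leaf (nat_lit 3214107696537601) (.br (nat_lit 0) (.cons (.br (nat_lit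 1) (.cons (.rel (nat_lit 41944320)) .nil)) .nil)) .leaf) (nat_lit 3214663286622368) (.br (nat_lit 0) (.cons (.br (nat_lit 1) (.cons (.rel (nat_lit 21037332)) .nil)) .nil)) .leaf) (nat_lit 3214663840270346) (.br (nat_lit 1) (.cons (.br (nat_lit 4) (.cons (.rel (nat_lit 1090789440)) (.cons (.rel (nat_lit 1090552320)) .nil))) (.cons (.br (nat_lit 4) (.cons (.rel (nat_lit 1090552320)) (.cons (.rel (nat_lit 1090535430)) .nil))) .nil))) (.node .leaf (nat_lit 3214668034574346) (.br (nat_lit 4) (.cons (.br (nat_lit 1) (.cons (.rel (nat_lit 1090584612)) (.cons (.rel (nat_lit 1090521360)) .nil))) .nil)) .leaf))) (nat_lit 3214760427640883) (.br (nat_lit 0) (.cons (.br (nat_lit 1) (.cons (.rel (nat_lit 41959440)) .nil)) .nil)) (.node (.node (.node (.node .leaf (nat_lit 3214765991114762) (.br (nat_lit 0) (.cons (.br (nat_lit 4) (.cons (.rel (nat_lit 1082212356)) .nil)) .nil)) .leaf) (nat_lit 3214766416333457) (.br (nat_lit 0) (.cons (.br (nat_lit 3) (.cons (.rel (nat_lit 276830208)) .nil)) .nil)) .leaf) (nat_lit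 3214766418380975) (.br (nat_lit 0) (.cons (.br (nat_lit 4) (.cons (.rel (nat_lit 1078468608)) .nil)) .nil)) (.node .leaf (nat_lit 3214766938728750) (.br (nat_lit 4) (.cons (.br (nat_lit 6) (.cons (.rel (nat_lit 36507222036)) (.cons (.rel (nat_lit 36507223041)) .nil))) .nil)) .leaf)) (nat_lit 3214769016399882) (.br (nat_lit 1) (.cons (.br (nat_lit 3) (.cons (.rel (nat_lit 570426372)) .nil)) .nil)) (.node (.node (.node .leaf (nat_lit 3214769017566571) (.br (nat_lit 1) (.cons (.br (nat_lit 3) (.cons (.rel (nat_lit 285214728)) .nil)) .nil)) .leaf) (nat_lit 3214769019469834) (.br (nat_lit 0) (.cons (.br (nat_lit 2) (.cons (.rel (nat_lit 71373120)) .nil)) .nil)) .leaf) (nat_lit 3214769241700362) (.br (nat_lit 2) (.cons (.br (nat_lit 5) (.cons (.rel (nat_lit 4362158088)) .nil)) .nil)) (.node .leaf (nat_lit 3214771085879552) (.br (nat_lit 1) (.cons (.br (nat_lit 4) (.cons (.rel (nat_lit 1090519305)) .nil)) .nil)) .leaf))))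

/-- refutations 27 -/
def e27 : EX := (.node (.node (.node (.node .leaf (nat_lit 3214929058695178) (.br (nat_lit 0) (.cons (.br (nat_lit 2) (.cons (.rel (nat_lit 72614916)) .nil)) .nil)) .leaf) (nat_lit 3214980736352542) (.br (nat_lit 0) (.cons (.br (nat_lit 1) (.cons (.rel (nat_lit 20974080)) .nil)) .nil)) (.node .leaf (nat_lit 3215100857098250) (.br (nat_lit 0) (.cons (.br (nat_lit 1) (.cons (.rel (nat_lit 21102594)) .nil)) .nil)) .leaf)) (nat_lit 3215100857099750) (.br (nat_lit 2) (.cons (.br (nat_lit 3) (.cons (.rel (nat_lit 336920577)) .nil)) .nil)) (.node (.node .leaf (nat_lit 3215100857099792) (.br (nat_lit 0) (.cons (.br (nat_lit 3) (.cons (.rel (nat_lit 272761920)) .nil)) .nil)) .leaf) (nat_lit 3215100858570783) (.br (nat_lit 0) (.cons (.br (nat_lit 1) (.cons (.rel (nat_lit 20974080)) (.cons (.rel (nat_lit 41944320)) .nil))) .nil)) .leaf)) (nat_lit 3215100860151818) (.br (nat_lit 0) (.cons (.br (nat_lit 4) (.cons (.rel (nat_lit 1078002240)) .nil)) .nil)) (.node (.node (.node .leaf (nat_lit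 3215100860151839) (.br (nat_lit 3) (.cons (.br (nat_lit 4) (.cons (.rel (nat_lit 1342703616)) .nil)) .nil)) .leaf) (nat_lit 3215102107052063) (.br (nat_lit 0) (.cons (.br (nat_lit 1) (.cons (.rel (nat_lit 20974080)) .nil)) .nil)) (.node .leaf (nat_lit 3215102108218731) (.br (nat_lit 3) (.cons (.br (nat_lit 4) (.cons (.rel (nat_lit 2684617728)) .nil)) .nil)) .leaf)) (nat_lit 3215102110054410) (.br (nat_lit 0) (.cons (.br (nat_lit 1) (.cons (.rel (nat_lit 41959440)) .nil)) .nil)) (.node (.node .leaf (nat_lit 3215104145483807) (.br (nat_lit 0) (.cons (.br (nat_lit 3) (.cons (.rel (nat_lit 273171456)) .nil)) .nil)) .leaf) (nat_lit 3215155563458570) (.br (nat_lit 0) (.cons (.br (nat_lit 1) (.cons (.rel (nat_lit 41959440)) .nil)) .nil)) .leaf)))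

/-- refutations 28 -/
def e28 : EX := (.node .leaf (nat_lit 3215201341298994) (.br (nat_lit 2) (.cons (.br (nat_lit 3) (.cons (.rel (nat_lit 336920577)) .nil)) .nil)) .leaf)

/-- refutations 29 -/
def e29 : EX := (.node (.node .leaf (nat_lit 2815234200852490) (.br (nat_lit 0) (.cons (.br (nat_lit 2) (.cons (.rel (nat_lit 73465872)) .nil)) .nil)) .leaf) (nat_lit 3166648204353538) (.br (nat_lit 0) (.cons (.br (nat_lit 1) (.cons (.rel (nat_lit 20976900)) .nil)) .nil)) .leaf)

/-- refutations 30 -/
def e30 : EX := (.node (.node .leaf (nat_lit 4575361228727659) (.br (nat_lit 2) (.cons (.br (nat_lit 3) (.cons (.rel (nat_lit 335562816)) .nil)) .nil)) .leaf) (nat_lit 4580503024264543) (.br (nat_lit 0) (.cons (.br (nat_lit 2) (.cons (.rel (nat_lit 75500037)) .nil)) .nil)) .leaf)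

/-- refutations 31 -/
def e31 : EX := (.node (.node .leaf (nat_lit 4856966646597642) (.br (nat_lit 0) (.cons (.br (nat_lit 1) (.cons (.rel (nat_lit 42008577)) .nil)) .nil)) .leaf) (nat_lit 4856966943678474) (.br (nat_lit 1) (.cons (.br (nat_lit 3) (.cons (.rel (nat_lit 301990977)) .nil)) .nil)) .leaf)

/-- refutations 33 -/
def e33 : EX := (.node (.node (.node (.node .leaf (nat_lit 5031429270206474) (.br (nat_lit 0) (.cons (.br (nat_lit 1) (.cons (.rel (nat_lit 20992020)) .nil)) .nil)) .leaf) (nat_lit 5037044252035374) (.br (nat_lit 2) (.cons (.br (nat_lit 6) (.cons (.rel (nat_lit 17247109392)) .nil)) .nil)) .leaf) (nat_lit 5037163460945930) (.br (nat_lit 1) (.cons (.br (nat_lit 2) (.cons (.rel (nat_lit 83887365)) .nil)) .nil)) (.node .leaf (nat_lit 5037164511185648) (.br (nat_lit 3) (.cons (.br (nat_lit 1) (.cons (.rel (nat_lit 570426372)) (.cons (.rel (nat_lit 285214728)) .nil))) .nil)) .leaf)) (nat_lit 5043672392739597) (.br (nat_lit 1) (.cons (.br (nat_lit 3) (.cons (.rel (nat_lit 285212709)) .nil))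 .nil)) (.node (.node .leaf (nat_lit 5051125985467125) (.br (nat_lit 0) (.cons (.br (nat_lit 2) (.cons (.rel (nat_lit 142868736)) .nil)) .nil)) .leaf) (nat_lit 5059793232909174) (.br (nat_lit 0) (.cons (.br (nat_lit 1) (.cons (.rel (nat_lit 20992020)) .nil)) .nil)) (.node .leaf (nat_lit 5060875565687670) (.br (nat_lit 1) (.cons (.br (nat_lit 2) (.cons (.rel (nat_lit 83903490)) .nil)) .nil)) .leaf)))

/-- refutations 34 -/
def e34 : EX := (.node (.node .leaf (nat_lit 5476539648671754) (.br (nat_lit 0) (.cons (.br (nat_lit 2) (.cons (.rel (nat_lit 75628548)) .nil)) .nil)) .leaf) (nat_lit 5476753843234826) (.br (nat_lit 1) (.cons (.br (nat_lit 4) (.cons (.rel (nat_lit 1090536480)) .nil)) .nil)) (.node .leaf (nat_lit 5478962236250389) (.br (nat_lit 0) (.cons (.br (nat_lit 2) (.cons (.rel (nat_lit 71827968)) .nil)) .nil)) .leaf))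

/-- refutations 35 -/
def e35 : EX := (.node .leaf (nat_lit 5500035762971549) (.br (nat_lit 0) (.cons (.br (nat_lit 1) (.cons (.rel (nat_lit 21004320)) .nil)) .nil)) .leaf)

/-- refutations 36 -/
def e36 : EX := (.node (.node (.node .leaf (nat_lit 11001620148726516) (.br (nat_lit 0) (.cons (.br (nat_lit 4) (.cons (.rel (nat_lit 1080049680)) .nil)) .nil)) .leaf) (nat_lit 11006131749327600) (.br (nat_lit 0) (.cons (.br (nat_lit 1) (.cons (.rel (nat_lit 21037332)) .nil)) .nil)) (.node .leaf (nat_lit 11006131752143760) (.br (nat_lit 2) (.cons (.br (nat_lit 3) (.cons (.rel (nat_lit 671350788)) .nil)) .nil)) .leaf)) (nat_lit 11006380857458698) (.br (nat_lit 2) (.cons (.br (nat_lit 4) (.cons (.rel (nat_lit 1140851268)) .nil)) .nil)) (.node (.node .leaf (nat_lit 11006380859978480) (.br (nat_lit 0) (.cons (.br (nat_lit 2) (.cons (.rel (nat_lit 72614916)) .nil)) .nil)) .leaf) (nat_lit 11006380860233738) (.br (nat_lit 0) (.cons (.br (nat_lit 4) (.cons (.rel (nat_lit 1082130960)) .nil)) .nil)) .leaf))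

/-- refutations 38 -/
def e38 : EX := (.node (.node (.node (.node .leaf (nat_lit 11176717349268237) (.br (nat_lit 0) (.cons (.br (nat_lit 2) (.cons (.rel (nat_lit 73465872)) .nil)) .nil)) .leaf) (nat_lit 11176719261347850) (.br (nat_lit 0) (.cons (.br (nat_lit 1) (.cons (.rel (nat_lit 21004320)) (.cons (.rel (nat_lit 41959440)) .nil))) .nil)) .leaf) (nat_lit 11176719262927629) (.br (nat_lit 0) (.cons (.br (nat_lit 1) (.cons (.rel (nat_lit 41959440)) .nil)) .nil)) (.node .leaf (nat_lit 11176719262928223) (.br (nat_lit 0) (.cons (.br (nat_lit 1) (.cons (.rel (nat_lit 20974080)) .nil)) .nil)) .leaf)) (nat_lit 11176719262988298) (.br (nat_lit 0) (.cons (.br (nat_lit 2) (.cons (.rel (nat_lit 75505665)) .nil)) .nil)) (.node (.node .leaf (nat_lit 11176721474767110) (.br (nat_lit 0) (.cons (.br (nat_lit 2) (.cons (.rel (nat_lit 142868736)) .nil)) .nil)) .leaf) (nat_lit 11177566496957692) (.br (nat_lit 2) (.cons (.br (nat_lit 3) (.cons (.rel (nat_lit 335562816)) .nil)) .nil)) (.node .leaf (nat_lit 11184189338106043)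 (.br (nat_lit 3) (.cons (.br (nat_lit 6) (.cons (.rel (nat_lit 17448374304)) .nil)) .nil)) .leaf)))

/-- refutations 39 -/
def e39 : EX := (.node (.node (.node (.node (.node .leaf (nat_lit 11190780984840494) (.br (nat_lit 3) (.cons (.br (nat_lit 4) (.cons (.rel (nat_lit 1610616837)) .nil)) .nil)) .leaf) (nat_lit 11190781105920010) (.br (nat_lit 3) (.cons (.br (nat_lit 5) (.cons (.rel (nat_lit 8858632320)) .nil)) .nil)) .leaf) (nat_lit 11190781105975323) (.br (nat_lit 0) (.cons (.br (nat_lit 3) (.cons (.rel (nat_lit 273219588)) .nil)) .nil)) (.node (.node .leaf (nat_lit 11190781106411530) (.br (nat_lit 0) (.cons (.br (nat_lit 1) (.cons (.rel (nat_lit 41944320)) .nil)) .nil)) .leaf) (nat_lit 11190781107704689) (.br (nat_lit 2) (.cons (.br (nat_lit 3) (.cons (.rel (nat_lit 672141312)) .nil)) .nil)) .leaf)) (nat_lit 11191304968997620) (.br (nat_lit 0) (.cons (.br (nat_lit 3) (.cons (.rel (nat_lit 272638032)) .nil)) .nil)) (.node (.node (.node .leaf (nat_lit 11191304968997641) (.br (nat_lit 0) (.cons (.br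 (nat_lit 2) (.cons (.rel (nat_lit 71861280)) .nil)) .nil)) .leaf) (nat_lit 11191304970351402) (.br (nat_lit 0) (.cons (.br (nat_lit 1) (.cons (.rel (nat_lit 22544388)) .nil)) .nil)) .leaf) (nat_lit 11191304970379274) (.br (nat_lit 3) (.cons (.br (nat_lit 1) (.cons (.rel (nat_lit 304152576)) (.cons (.rel (nat_lit 553910544)) .nil))) .nil)) (.node (.node .leaf (nat_lit 11191304970380524) (.br (nat_lit 0) (.cons (.br (nat_lit 2) (.cons (.rel (nat_lit 71304273)) .nil)) .nil)) .leaf) (nat_lit 11191304970799885) (.br (nat_lit 0) (.cons (.br (nat_lit 2) (.cons (.rel (nat_lit 71827968)) .nil)) .nil)) .leaf))) (nat_lit 11191304970851056) (.br (nat_lit 4) (.cons (.br (nat_lit 2) (.cons (.rel (nat_lit 1142947845)) (.cons (.rel (nat_lit 1140851268)) .nil))) .nil)) (.node (.node (.node (.node .leaf (nat_lit 11191304971867372) (.br (nat_lit 1) (.cons (.br (nat_lit 3) (.cons (.rel (nat_lit 570426372)) .nil)) .nil)) .leaf) (nat_lit 11195170442433322) (.br (nat_lit 1) (.cons (.br (nat_lit 5) (.cons (.rel (nat_lit 4312794117))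 .nil)) .nil)) .leaf) (nat_lit 11195170442433818) (.br (nat_lit 1) (.cons (.br (nat_lit 3) (.cons (.rel (nat_lit 570426372)) .nil)) .nil)) (.node (.node .leaf (nat_lit 11195172641880940) (.br (nat_lit 1) (.cons (.br (nat_lit 2) (.cons (.rel (nat_lit 83951622)) .nil)) .nil)) .leaf) (nat_lit 11195172641940893) (.br (nat_lit 1) (.cons (.br (nat_lit 5) (.cons (.rel (nat_lit 4312007169)) .nil)) .nil)) .leaf)) (nat_lit 11195172642871306) (.br (nat_lit 3) (.cons (.br (nat_lit 5) (.cons (.rel (nat_lit 4563403041)) .nil)) .nil)) (.node (.node (.node .leaf (nat_lit 11199678267840814) (.br (nat_lit 0) (.cons (.br (nat_lit 1) (.cons (.rel (nat_lit 20976900)) .nil)) .nil)) .leaf) (nat_lit 11199678270665489) (.br (nat_lit 1) (.cons (.br (nat_lit 6) (.cons (.rel (nat_lit 17196647040)) .nil)) .nil)) .leaf) (nat_lit 11199678270717210) (.br (nat_lit 0) (.cons (.br (nat_lit 1) (.cons (.rel (nat_lit 20979720)) .nil)) .nil)) (.node (.node .leaf (nat_lit 11199682358618993) (.br (nat_lit 0) (.cons (.br (nat_lit 1) (.cons (.rel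 (nat_lit 41944320)) .nil)) .nil)) .leaf) (nat_lit 11199682360104189) (.br (nat_lit 1) (.cons (.br (nat_lit 2) (.cons (.rel (nat_lit 83886360)) .nil)) .nil)) .leaf))))

/-- refutations 42 -/
def e42 : EX := (.node (.node (.node (.node (.node .leaf (nat_lit 12000019462508846) (.br (nat_lit 4) (.cons (.br (nat_lit 6) (.cons (.rel (nat_lit 36507222036)) (.cons (.rel (nat_lit 36507222036)) .nil))) .nil)) .leaf) (nat_lit 12000021541304330) (.br (nat_lit 3) (.cons (.br (nat_lit 2) (.cons (.rel (nat_lit 672138504)) (.cons (.rel (nat_lit 335548497)) .nil))) .nil)) .leaf) (nat_lit 12000021541304347) (.br (nat_lit 0) (.cons (.br (nat_lit 1) (.cons (.rel (nat_lit 41944320)) .nil)) .nil)) (.node .leaf (nat_lit 12000021542318107) (.br (nat_lit 1) (.cons (.br (nat_lit 3) (.cons (.rel (nat_lit 286785792)) .nil)) .nil)) .leaf)) (nat_lit 12000021542414346) (.br (nat_lit 1) (.cons (.br (nat_lit 4) (.cons (.rel (nat_lit 1107362880)) (.cons (.rel (nat_lit 1090609152)) .nil))) (.cons (.br (nat_lit 0) (.cons (.rel (nat_lit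 22544388)) (.cons (.rel (nat_lit 41947140)) (.cons (.rel (nat_lit 25690176)) .nil)))) .nil))) (.node (.node .leaf (nat_lit 12000021542883630) (.br (nat_lit 3) (.cons (.br (nat_lit 2) (.cons (.rel (nat_lit 335610948)) (.cons (.rel (nat_lit 335544672)) (.cons (.rel (nat_lit 603981072)) .nil)))) .nil)) .leaf) (nat_lit 12000021542884080) (.br (nat_lit 1) (.cons (.br (nat_lit 5) (.cons (.rel (nat_lit 4311810180)) .nil)) .nil)) (.node .leaf (nat_lit 12000021542884109) (.br (nat_lit 2) (.cons (.br (nat_lit 3) (.cons (.rel (nat_lit 335610948)) (.cons (.rel (nat_lit 335562816)) .nil))) .nil)) .leaf))) (nat_lit 12000021543865072) (.br (nat_lit 1) (.cons (.br (nat_lit 4) (.cons (.rel (nat_lit 1090521360)) .nil)) .nil)) (.node (.node (.node (.node .leaf (nat_lit 12000021544125326) (.br (nat_lit 1) (.cons (.br (nat_lit 3) (.cons (.rel (nat_lit 285214728)) .nil)) .nil)) .leaf) (nat_lit 12000296419211274) (.br (nat_lit 0) (.cons (.br (nat_lit 2) (.cons (.rel (nat_lit 138412305)) .nil)) .nil)) .leaf) (nat_lit 12000543639877642)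 (.br (nat_lit 2) (.cons (.br (nat_lit 3) (.cons (.rel (nat_lit 336068616)) .nil)) .nil)) (.node .leaf (nat_lit 12000543641457392) (.br (nat_lit 1) (.cons (.br (nat_lit 3) (.cons (.rel (nat_lit 285312000)) .nil)) .nil)) .leaf)) (nat_lit 12000545528423777) (.br (nat_lit 1) (.cons (.br (nat_lit 2) (.cons (.rel (nat_lit 83890185)) .nil)) .nil)) (.node (.node .leaf (nat_lit 12000545528894192) (.br (nat_lit 1) (.cons (.br (nat_lit 2) (.cons (.rel (nat_lit 83887365)) .nil)) .nil)) .leaf) (nat_lit 12003778674023912) (.br (nat_lit 0) (.cons (.br (nat_lit 2) (.cons (.rel (nat_lit 71303268)) .nil)) .nil)) (.node .leaf (nat_lit 12003778675644602) (.br (nat_lit 1) (.cons (.br (nat_lit 2) (.cons (.rel (nat_lit 83892240)) .nil)) .nil)) .leaf))))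

/-- refutations 43 -/
def e43 : EX := (.node (.node .leaf (nat_lit 12004533459008925) (.br (nat_lit 0) (.cons (.br (nat_lit 3) (.cons (.rel (nat_lit 273219588)) .nil)) .nil)) .leaf) (nat_lit 12010758962466826) (.br (nat_lit 0) (.cons (.br (nat_lit 1) (.cons (.rel (nat_lit 38011008)) .nil)) .nil)) (.node .leaf (nat_lit 12011250684078090) (.br (nat_lit 1) (.cons (.br (nat_lit 2) (.cons (.rel (nat_lit 83886360)) .nil)) .nil)) .leaf))

/-- refutations 44 -/
def e44 : EX := (.node (.node (.node (.node .leaf (nat_lit 11628702419857418) (.br (nat_lit 1) (.cons (.br (nat_lit 2) (.cons (.rel (nat_lit 83887365)) .nil)) .nil)) .leaf) (nat_lit 11630897073755418) (.br (nat_lit 1) (.cons (.br (nat_lit 5) (.cons (.rel (nat_lit 4328527872)) .nil)) .nil)) .leaf) (nat_lit 11635155482446634) (.br (nat_lit 0) (.cons (.br (nat_lit 4) (.cons (.rel (nat_lit 1078468608)) .nil)) .nil)) (.node .leaf (nat_lit 11635157681313050) (.br (nat_lit 2) (.cons (.br (nat_lit 4) (.cons (.rel (nat_lit 1207959585)) .nil)) .nil)) .leaf))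 (nat_lit 11635157683172113) (.br (nat_lit 0) (.cons (.br (nat_lit 1) (.cons (.rel (nat_lit 21038337)) .nil)) .nil)) (.node (.node (.node .leaf (nat_lit 11635157684144930) (.br (nat_lit 0) (.cons (.br (nat_lit 2) (.cons (.rel (nat_lit 75505665)) .nil)) .nil)) .leaf) (nat_lit 11635157684179729) (.br (nat_lit 0) (.cons (.br (nat_lit 2) (.cons (.rel (nat_lit 138416130)) .nil)) .nil)) .leaf) (nat_lit 11635157684239121) (.br (nat_lit 1) (.cons (.br (nat_lit 2) (.cons (.rel (nat_lit 83886360)) .nil)) .nil)) (.node .leaf (nat_lit 11635157684239613) (.br (nat_lit 0) (.cons (.br (nat_lit 2) (.cons (.rel (nat_lit 142868736)) .nil)) .nil)) .leaf)))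

/-- refutations 45 -/
def e45 : EX := (.node (.node .leaf (nat_lit 12091739624482169) (.br (nat_lit 0) (.cons (.br (nat_lit 3) (.cons (.rel (nat_lit 272761920)) (.cons (.rel (nat_lit 276830208)) .nil))) .nil)) .leaf) (nat_lit 12091739624482270) (.br (nat_lit 1) (.cons (.br (nat_lit 2) (.cons (.br (nat_lit 3) (.cons (.rel (nat_lit 603981072)) .nil)) .nil)) .nil)) (.node .leaf (nat_lit 12093370998480350) (.br (nat_lit 3) (.cons (.br (nat_lit 4) (.cons (.rel (nat_lit 1610614017)) (.cons (.rel (nat_lit 1342181442)) .nil))) .nil)) .leaf))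

/-- refutations 46 -/
def e46 : EX := (.node (.node .leaf (nat_lit 13739766262022154) (.br (nat_lit 0) (.cons (.br (nat_lit 6) (.cons (.rel (nat_lit 17184129030)) (.cons (.rel (nat_lit 17184064773)) .nil))) .nil)) .leaf) (nat_lit 13745189080341740) (.br (nat_lit 0) (.cons (.br (nat_lit 1) (.cons (.rel (nat_lit 20976900)) .nil)) .nil)) .leaf)

/-- refutations 47 -/
def e47 : EX := (.node (.node .leaf (nat_lit 13745361027350538) (.br (nat_lit 0) (.cons (.br (nat_lit 1) (.cons (.rel (nat_lit 21041157)) .nil)) .nil)) .leaf) (nat_lit 13752821473335603) (.br (nat_lit 0) (.cons (.br (nat_lit 2) (.cons (.rel (nat_lit 72614916)) .nil)) .nil)) .leaf)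

/-- refutations 48 -/
def e48 : EX := (.node (.node (.node (.node (.node .leaf (nat_lit 13757155625461770) (.br (nat_lit 5) (.cons (.br (nat_lit 6) (.cons (.rel (nat_lit 25769820192)) .nil)) .nil)) .leaf) (nat_lit 13757155625461787) (.br (nat_lit 2) (.cons (.br (nat_lit 4) (.cons (.rel (nat_lit 1142292480)) .nil)) .nil)) .leaf) (nat_lit 13757310258481162) (.br (nat_lit 3) (.cons (.br (nat_lit 4) (.cons (.rel (nat_lit 1342194756)) .nil)) .nil)) (.node .leaf (nat_lit 13757404733441285) (.br (nat_lit 3) (.cons (.br (nat_lit 4) (.cons (.rel (nat_lit 1342177617)) .nil)) .nil)) .leaf)) (nat_lit 13757519240906762) (.br (nat_lit 2) (.cons (.br (nat_lit 6) (.cons (.rel (nat_lit 17247051780)) .nil)) .nil)) (.node (.node (.node .leaf (nat_lit 13757519240906779) (.br (nat_lit 2) (.cons (.br (nat_lit 3) (.cons (.rel (nat_lit 603981072)) .nil)) .nil)) .leaf) (nat_lit 13757522158624226) (.br (nat_lit 1) (.cons (.br (nat_lit 2) (.cons (.rel (nat_lit 83952672)) (.cons (.rel (nat_lit 83886360)) .nil))) .nil)) .leaf)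 (nat_lit 13757522158624255) (.br (nat_lit 1) (.cons (.br (nat_lit 2) (.cons (.rel (nat_lit 83968512)) .nil)) .nil)) (.node .leaf (nat_lit 13757522160142346) (.br (nat_lit 1) (.cons (.br (nat_lit 2) (.cons (.rel (nat_lit 83890185)) .nil)) .nil)) .leaf))) (nat_lit 13757522160201738) (.br (nat_lit 1) (.cons (.br (nat_lit 5) (.cons (.rel (nat_lit 4328521992)) .nil)) .nil)) (.node (.node (.node (.node .leaf (nat_lit 13759469557239297) (.br (nat_lit 0) (.cons (.br (nat_lit 1) (.cons (.rel (nat_lit 41947140)) .nil)) .nil)) .leaf) (nat_lit 13759729474223386) (.br (nat_lit 0) (.cons (.br (nat_lit 3) (.cons (.rel (nat_lit 272761920)) .nil)) .nil)) .leaf) (nat_lit 13759729474308856) (.br (nat_lit 3) (.cons (.br (nat_lit 2) (.cons (.rel (nat_lit 335562816)) (.cons (.rel (nat_lit 603981072)) .nil))) .nil)) (.node .leaf (nat_lit 13759729474309381) (.br (nat_lit 0) (.cons (.br (nat_lit 1) (.cons (.rel (nat_lit 21004320)) .nil)) .nil)) .leaf)) (nat_lit 13759732621486111) (.br (nat_lit 2) (.cons (.br (nat_lit 3) (.cons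 (.rel (nat_lit 671350788)) .nil)) .nil)) (.node (.node (.node .leaf (nat_lit 13762768530878474) (.br (nat_lit 4) (.cons (.br (nat_lit 6) (.cons (.rel (nat_lit 18253647888)) .nil)) .nil)) .leaf) (nat_lit 13762770608864538) (.br (nat_lit 6) (.cons (.br (nat_lit 0) (.cons (.rel (nat_lit 17184130080)) (.cons (.rel (nat_lit 17184067593)) .nil))) .nil)) .leaf) (nat_lit 13762770611457306) (.br (nat_lit 0) (.cons (.br (nat_lit 4) (.cons (.rel (nat_lit 2156138496)) .nil)) .nil)) (.node .leaf (nat_lit 13762893700159519) (.br (nat_lit 1) (.cons (.br (nat_lit 3) (.cons (.rel (nat_lit 285540420)) .nil)) .nil)) .leaf))))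

/-- refutations 49 -/
def e49 : EX := (.node (.node (.node (.node (.node .leaf (nat_lit 13763808075165852) (.br (nat_lit 1) (.cons (.br (nat_lit 3) (.cons (.rel (nat_lit 553914369)) .nil)) .nil)) .leaf) (nat_lit 13769212611060364) (.br (nat_lit 0) (.cons (.br (nat_lit 1) (.cons (.rel (nat_lit 20976900)) .nil)) .nil)) (.node .leaf (nat_lit 13769212611123355) (.br (nat_lit 2) (.cons (.br (nat_lit 3) (.cons (.rel (nat_lit 335562816)) .nil)) .nil)) .leaf)) (nat_lit 13769212612554010) (.br (nat_lit 0) (.cons (.br (nat_lit 1) (.cons (.rel (nat_lit 41944320)) .nil)) .nil)) (.node (.node .leaf (nat_lit 13769212612596514) (.br (nat_lit 2) (.cons (.br (nat_lit 3) (.cons (.rel (nat_lit 335548497)) .nil)) .nil)) .leaf) (nat_lit 13769212613320960) (.br (nat_lit 0) (.cons (.br (nat_lit 1) (.cons (.rel (nat_lit 26215440)) .nil)) .nil)) .leaf)) (nat_lit 13769212613321485) (.br (nat_lit 1) (.cons (.br (nat_lit 3) (.cons (.br (nat_lit 0) (.cons (.rel (nat_lit 272761920)) (.cons (.rel (nat_lit 541065732)) .nil))) (.cons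 (.rel (nat_lit 285214728)) .nil))) .nil)) (.node (.node (.node .leaf (nat_lit 13769212613322010) (.br (nat_lit 0) (.cons (.br (nat_lit 3) (.cons (.rel (nat_lit 272662596)) .nil)) .nil)) .leaf) (nat_lit 13769391579353890) (.br (nat_lit 2) (.cons (.br (nat_lit 3) (.cons (.rel (nat_lit 672141312)) .nil)) .nil)) .leaf) (nat_lit 13769391580078132) (.br (nat_lit 2) (.cons (.br (nat_lit 3) (.cons (.rel (nat_lit 671350788)) .nil)) .nil)) (.node (.node .leaf (nat_lit 13769393150638861) (.br (nat_lit 1) (.cons (.br (nat_lit 3) (.cons (.rel (nat_lit 285214728)) .nil)) .nil)) .leaf) (nat_lit 13769393152175386) (.br (nat_lit 0) (.cons (.br (nat_lit 1) (.cons (.rel (nat_lit 26215440)) .nil)) .nil)) .leaf))) (nat_lit 13769393152942111) (.br (nat_lit 3) (.cons (.br (nat_lit 0) (.cons (.rel (nat_lit 276824328)) (.cons (.rel (nat_lit 276830208)) .nil))) .nil)) (.node (.node (.node (.node .leaf (nat_lit 13769393153028106) (.br (nat_lit 3) (.cons (.br (nat_lit 1) (.cons (.rel (nat_lit 285221124)) (.cons (.rel (nat_lit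 285214728)) .nil))) .nil)) .leaf) (nat_lit 13769427284913663) (.br (nat_lit 0) (.cons (.br (nat_lit 1) (.cons (.rel (nat_lit 20979720)) .nil)) .nil)) .leaf) (nat_lit 13769430640864042) (.br (nat_lit 3) (.cons (.br (nat_lit 6) (.cons (.rel (nat_lit 17448306177)) (.cons (.rel (nat_lit 17448338436)) .nil))) .nil)) (.node (.node .leaf (nat_lit 13769430640864767) (.br (nat_lit 1) (.cons (.br (nat_lit 3) (.cons (.rel (nat_lit 285312000)) (.cons (.rel (nat_lit 570426372)) .nil))) .nil)) .leaf) (nat_lit 13769430640864784) (.br (nat_lit 1) (.cons (.br (nat_lit 6) (.cons (.rel (nat_lit 17213506560)) .nil)) .nil)) .leaf)) (nat_lit 13770501026015863) (.br (nat_lit 0) (.cons (.br (nat_lit 1) (.cons (.rel (nat_lit 20989200)) .nil)) .nil)) (.node (.node (.node .leaf (nat_lit 13770501026732842) (.br (nat_lit 0) (.cons (.br (nat_lit 3) (.cons (.rel (nat_lit 273219588)) .nil)) .nil)) .leaf) (nat_lit 13770501549730544) (.br (nat_lit 0) (.cons (.br (nat_lit 3) (.cons (.rel (nat_lit 273219588)) .nil)) .nil)) .leaf) (nat_lit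 13770501549796138) (.br (nat_lit 2) (.cons (.br (nat_lit 5) (.cons (.br (nat_lit 6) (.cons (.rel (nat_lit 42949673028)) (.cons (.rel (nat_lit 21475117056)) .nil))) .nil)) .nil)) (.node (.node .leaf (nat_lit 13770501549824256) (.br (nat_lit 1) (.cons (.br (nat_lit 2) (.cons (.rel (nat_lit 83890185)) .nil)) .nil)) .leaf) (nat_lit 13770501549824752) (.br (nat_lit 2) (.cons (.br (nat_lit 0) (.cons (.rel (nat_lit 75580416)) (.cons (.rel (nat_lit 75580416)) .nil))) .nil)) .leaf))))

/-- refutations 50 -/
def e50 : EX := (.node (.node (.node .leaf (nat_lit 13229375681449994) (.br (nat_lit 0) (.cons (.br (nat_lit 1) (.cons (.rel (nat_lit 20989200)) .nil)) .nil)) .leaf) (nat_lit 13229596108902410) (.br (nat_lit 0) (.cons (.br (nat_lit 3) (.cons (.rel (nat_lit 272638032)) .nil)) .nil)) .leaf) (nat_lit 13236860162724096) (.br (nat_lit 1) (.cons (.br (nat_lit 3) (.cons (.rel (nat_lit 286785792)) .nil)) .nil)) (.node (.node .leaf (nat_lit 13236860454774794) (.br (nat_lit 0) (.cons (.br (nat_lit 4) (.cons (.rel (nat_lit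 1082130960)) .nil)) .nil)) .leaf) (nat_lit 13241650471581751) (.br (nat_lit 0) (.cons (.br (nat_lit 5) (.cons (.rel (nat_lit 8598324228)) .nil)) .nil)) .leaf))

/-- refutations 51 -/
def e51 : EX := (.node (.node (.node (.node .leaf (nat_lit 13809929560809482) (.br (nat_lit 0) (.cons (.br (nat_lit 6) (.cons (.rel (nat_lit 34368196608)) .nil)) .nil)) .leaf) (nat_lit 13809954618823332) (.br (nat_lit 0) (.cons (.br (nat_lit 1) (.cons (.rel (nat_lit 21102594)) .nil)) .nil)) (.node .leaf (nat_lit 13809955728053611) (.br (nat_lit 1) (.cons (.br (nat_lit 2) (.cons (.rel (nat_lit 83902485)) .nil)) .nil)) .leaf)) (nat_lit 13809957722606229) (.br (nat_lit 2) (.cons (.br (nat_lit 5) (.cons (.rel (nat_lit 4362076692)) .nil)) .nil)) (.node (.node .leaf (nat_lit 13810098122832533) (.br (nat_lit 0) (.cons (.br (nat_lit 2) (.cons (.rel (nat_lit 75580416)) .nil)) .nil)) .leaf) (nat_lit 13810103751529109) (.br (nat_lit 4) (.cons (.br (nat_lit 5) (.cons (.rel (nat_lit 5368718337)) .nil)) .nil)) (.node .leaf (nat_lit 13810132552540170)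 (.br (nat_lit 1) (.cons (.br (nat_lit 2) (.cons (.rel (nat_lit 167841792)) .nil)) .nil)) .leaf))) (nat_lit 13810350467604490) (.br (nat_lit 1) (.cons (.br (nat_lit 4) (.cons (.rel (nat_lit 1090584612)) .nil)) .nil)) (.node (.node (.node .leaf (nat_lit 13815770505142522) (.br (nat_lit 1) (.cons (.br (nat_lit 2) (.cons (.rel (nat_lit 83892240)) .nil)) .nil)) .leaf) (nat_lit 13816583611734777) (.br (nat_lit 0) (.cons (.br (nat_lit 6) (.cons (.rel (nat_lit 17184129030)) .nil)) .nil)) (.node .leaf (nat_lit 13817402595430410) (.br (nat_lit 0) (.cons (.br (nat_lit 6) (.cons (.rel (nat_lit 17184100608)) .nil)) .nil)) .leaf)) (nat_lit 13823223628062223) (.br (nat_lit 0) (.cons (.br (nat_lit 4) (.cons (.rel (nat_lit 1077936213)) .nil)) .nil)) (.node (.node .leaf (nat_lit 13823223629678623) (.br (nat_lit 2) (.cons (.br (nat_lit 3) (.cons (.br (nat_lit 5) (.cons (.rel (nat_lit 4362085392)) (.cons (.rel (nat_lit 4362109956)) (.cons (.rel (nat_lit 4563405060)) .nil)))) .nil)) .nil)) .leaf) (nat_lit 13823223631174393)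 (.br (nat_lit 2) (.cons (.br (nat_lit 6) (.cons (.rel (nat_lit 17246980113)) (.cons (.rel (nat_lit 17246980113)) .nil))) .nil)) (.node .leaf (nat_lit 13823229690404874) (.br (nat_lit 3) (.cons (.br (nat_lit 4) (.cons (.rel (nat_lit 2684617728)) .nil)) .nil)) .leaf))))

/-- refutations 53 -/
def e53 : EX := (.node (.node (.node (.node .leaf (nat_lit 14108984982622259) (.br (nat_lit 1) (.cons (.br (nat_lit 2) (.cons (.rel (nat_lit 83923200)) .nil)) .nil)) .leaf) (nat_lit 14109021779376803) (.br (nat_lit 2) (.cons (.br (nat_lit 5) (.cons (.rel (nat_lit 8657043522)) .nil)) .nil)) .leaf) (nat_lit 14109021780030115) (.br (nat_lit 2) (.cons (.br (nat_lit 5) (.cons (.rel (nat_lit 4362077697)) .nil)) .nil)) (.node (.node .leaf (nat_lit 14109021780030827) (.br (nat_lit 5) (.cons (.br (nat_lit 2) (.cons (.rel (nat_lit 4362085392)) (.cons (.rel (nat_lit 4363190337)) .nil))) .nil)) .leaf) (nat_lit 14109021781355171) (.br (nat_lit 5) (.cons (.br (nat_lit 0) (.cons (.rel (nat_lit 4299163656)) (.cons (.rel (nat_lit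 4299161637)) .nil))) .nil)) .leaf)) (nat_lit 14109021781577067) (.br (nat_lit 1) (.cons (.br (nat_lit 3) (.cons (.rel (nat_lit 570426372)) .nil)) .nil)) (.node (.node (.node .leaf (nat_lit 14109024885361301) (.br (nat_lit 3) (.cons (.br (nat_lit 5) (.cons (.rel (nat_lit 4563406866)) .nil)) .nil)) .leaf) (nat_lit 14109171584098360) (.br (nat_lit 0) (.cons (.br (nat_lit 1) (.cons (.rel (nat_lit 20976900)) .nil)) .nil)) .leaf) (nat_lit 14109416917116310) (.br (nat_lit 2) (.cons (.br (nat_lit 5) (.cons (.rel (nat_lit 4362076692)) .nil)) .nil)) (.node (.node .leaf (nat_lit 14109420022352533) (.br (nat_lit 3) (.cons (.br (nat_lit 5) (.cons (.rel (nat_lit 4563406866)) .nil)) .nil)) .leaf) (nat_lit 14111604895970036) (.br (nat_lit 0) (.cons (.br (nat_lit 1) (.cons (.rel (nat_lit 21038337)) .nil)) .nil)) .leaf)))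

/-- refutations 54 -/
def e54 : EX := (.node (.node (.node (.node (.node .leaf (nat_lit 14115899689595655) (.br (nat_lit 0) (.cons (.br (nat_lit 5) (.cons (.rel (nat_lit 4299162642)) .nil)) .nil)) .leaf) (nat_lit 14115905420770710) (.br (nat_lit 2) (.cons (.br (nat_lit 5) (.cons (.rel (nat_lit 8724157446)) .nil)) .nil)) .leaf) (nat_lit 14115905420770792) (.br (nat_lit 0) (.cons (.br (nat_lit 1) (.cons (.rel (nat_lit 41944320)) .nil)) .nil)) (.node (.node .leaf (nat_lit 14116466727124501) (.br (nat_lit 2) (.cons (.br (nat_lit 0) (.cons (.rel (nat_lit 142868736)) (.cons (.rel (nat_lit 138416130)) .nil))) .nil)) .leaf) (nat_lit 14116466728697857) (.br (nat_lit 2) (.cons (.br (nat_lit 0) (.cons (.rel (nat_lit 138416130)) (.cons (.rel (nat_lit 75505665)) .nil))) .nil)) .leaf)) (nat_lit 14116466729737749) (.br (nat_lit 2) (.cons (.br (nat_lit 4) (.cons (.rel (nat_lit 1207961604)) .nil)) .nil)) (.node (.node (.node .leaf (nat_lit 14116467838614384) (.br (nat_lit 2) (.cons (.br (nat_lit 4) (.cons (.rel (nat_lit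 2214871104)) .nil)) .nil)) .leaf) (nat_lit 14116469758545971) (.br (nat_lit 0) (.cons (.br (nat_lit 1) (.cons (.rel (nat_lit 26215440)) .nil)) .nil)) .leaf) (nat_lit 14116472877547521) (.br (nat_lit 4) (.cons (.br (nat_lit 5) (.cons (.rel (nat_lit 5369774145)) .nil)) .nil)) (.node .leaf (nat_lit 14116472877549077) (.br (nat_lit 0) (.cons (.br (nat_lit 2) (.cons (.rel (nat_lit 138416130)) .nil)) .nil)) .leaf))) (nat_lit 14116472878524571) (.br (nat_lit 0) (.cons (.br (nat_lit 1) (.cons (.rel (nat_lit 20981778)) .nil)) .nil)) (.node (.node (.node (.node .leaf (nat_lit 14119980010371073) (.br (nat_lit 0) (.cons (.br (nat_lit 2) (.cons (.rel (nat_lit 138416130)) .nil)) .nil)) .leaf) (nat_lit 14119980010371857) (.br (nat_lit 2) (.cons (.br (nat_lit 5) (.cons (.rel (nat_lit 4362077697)) .nil)) .nil)) .leaf) (nat_lit 14121863731467641) (.br (nat_lit 5) (.cons (.br (nat_lit 0) (.cons (.rel (nat_lit 8594129232)) (.cons (.rel (nat_lit 8594129232)) .nil))) .nil)) (.node (.node .leaf (nat_lit 14121866837576341)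 (.br (nat_lit 0) (.cons (.br (nat_lit 1) (.cons (.rel (nat_lit 41944320)) (.cons (.rel (nat_lit 20974080)) .nil))) .nil)) .leaf) (nat_lit 14121867381555236) (.br (nat_lit 0) (.cons (.br (nat_lit 2) (.cons (.rel (nat_lit 71320161)) .nil)) .nil)) .leaf)) (nat_lit 14121924363817011) (.br (nat_lit 0) (.cons (.br (nat_lit 1) (.cons (.rel (nat_lit 20979720)) .nil)) .nil)) (.node (.node (.node .leaf (nat_lit 14121924363817735) (.br (nat_lit 1) (.cons (.br (nat_lit 2) (.cons (.rel (nat_lit 83887365)) .nil)) .nil)) .leaf) (nat_lit 14121924365453314) (.br (nat_lit 2) (.cons (.br (nat_lit 5) (.cons (.rel (nat_lit 4362080517)) (.cons (.rel (nat_lit 4362092817)) .nil))) .nil)) .leaf) (nat_lit 14121924365454087) (.br (nat_lit 0) (.cons (.br (nat_lit 1) (.cons (.rel (nat_lit 20974080)) (.cons (.rel (nat_lit 41944320)) .nil))) .nil)) (.node .leaf (nat_lit 14121926967169710) (.br (nat_lit 0) (.cons (.br (nat_lit 1) (.cons (.rel (nat_lit 41944320)) .nil)) .nil)) .leaf))))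

/-- refutations 55 -/
def e55 : EX := (.node .leaf (nat_lit 14085872113158154) (.br (nat_lit 0) (.cons (.br (nat_lit 6) (.cons (.rel (nat_lit 17184079893)) .nil)) .nil)) .leaf)

/-- refutations 56 -/
def e56 : EX := (.node .leaf (nat_lit 14207940901510622) (.br (nat_lit 0) (.cons (.br (nat_lit 2) (.cons (.rel (nat_lit 71827968)) .nil)) .nil)) .leaf)

/-- refutations 57 -/
def e57 : EX := (.node .leaf (nat_lit 14255254813528091) (.br (nat_lit 0) (.cons (.br (nat_lit 2) (.cons (.rel (nat_lit 75580416)) .nil)) .nil)) .leaf)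

/-- refutations 58 -/
def e58 : EX := (.node (.node (.node (.node .leaf (nat_lit 14267328826519562) (.br (nat_lit 4) (.cons (.br (nat_lit 3) (.cons (.rel (nat_lit 1342703616)) (.cons (.rel (nat_lit 1342703616)) .nil))) .nil)) .leaf) (nat_lit 14267328826662922) (.br (nat_lit 0) (.cons (.br (nat_lit 3) (.cons (.rel (nat_lit 273171456)) .nil)) .nil)) .leaf) (nat_lit 14267328827811850) (.br (nat_lit 6) (.cons (.br (nat_lit 0) (.cons (.rel (nat_lit 17184202752)) (.cons (.rel (nat_lit 17184069648)) .nil))) .nil)) (.node .leaf (nat_lit 14267698194874378) (.br (nat_lit 1) (.cons (.br (nat_lit 0) (.cons (.rel (nat_lit 41947140)) (.cons (.rel (nat_lit 21004320)) .nil))) .nil)) .leaf)) (nat_lit 14269939624196106) (.br (nat_lit 0) (.cons (.br (nat_lit 1) (.cons (.rel (nat_lit 41944320)) .nil)) .nil)) (.node (.node (.node .leaf (nat_lit 14272852155435760) (.br (nat_lit 1) (.cons (.br (nat_lit 3) (.cons (.rel (nat_lit 285213714)) .nil)) .nil)) .leaf) (nat_lit 14278278353523373) (.br (nat_lit 1) (.cons (.br (nat_lit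 4) (.cons (.rel (nat_lit 1108611072)) .nil)) .nil)) .leaf) (nat_lit 14278527461720074) (.br (nat_lit 2) (.cons (.br (nat_lit 4) (.cons (.rel (nat_lit 1140859968)) .nil)) .nil)) (.node .leaf (nat_lit 14278527464495914) (.br (nat_lit 1) (.cons (.br (nat_lit 2) (.cons (.rel (nat_lit 83890185)) .nil)) .nil)) .leaf)))

/-- refutations 61 -/
def e61 : EX := (.node (.node (.node .leaf (nat_lit 15488662469459226) (.br (nat_lit 0) (.cons (.br (nat_lit 1) (.cons (.rel (nat_lit 21004320)) .nil)) .nil)) .leaf) (nat_lit 15489161085386134) (.br (nat_lit 0) (.cons (.br (nat_lit 2) (.cons (.rel (nat_lit 71827968)) .nil)) .nil)) .leaf) (nat_lit 15494449380047523) (.br (nat_lit 0) (.cons (.br (nat_lit 5) (.cons (.rel (nat_lit 8594133057)) .nil)) .nil)) (.node .leaf (nat_lit 15494449380795025) (.br (nat_lit 0) (.cons (.br (nat_lit 5) (.cons (.rel (nat_lit 4299163656)) .nil)) .nil)) .leaf))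

/-- refutations 62 -/
def e62 : EX := (.node (.node (.node .leaf (nat_lit 15516371517453838) (.br (nat_lit 0) (.cons (.br (nat_lit 1) (.cons (.rel (nat_lit 41947140)) .nil)) .nil)) .leaf) (nat_lit 15522851430907914) (.br (nat_lit 1) (.cons (.br (nat_lit 6) (.cons (.rel (nat_lit 17213506560)) .nil)) .nil)) .leaf) (nat_lit 15529287590350302) (.br (nat_lit 1) (.cons (.br (nat_lit 2) (.cons (.rel (nat_lit 83886360)) .nil)) .nil)) (.node (.node .leaf (nat_lit 15529293989367864) (.br (nat_lit 0) (.cons (.br (nat_lit 1) (.cons (.rel (nat_lit 20993025)) .nil)) .nil)) .leaf) (nat_lit 15529688912440052) (.br (nat_lit 0) (.cons (.br (nat_lit 1) (.cons (.rel (nat_lit 20974080)) .nil)) .nil)) .leaf))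

/-- refutations 63 -/
def e63 : EX := (.node (.node .leaf (nat_lit 15606634639504145) (.br (nat_lit 1) (.cons (.br (nat_lit 4) (.cons (.rel (nat_lit 2181054720)) .nil)) .nil)) .leaf) (nat_lit 15610944052504877) (.br (nat_lit 0) (.cons (.br (nat_lit 3) (.cons (.rel (nat_lit 272663649)) .nil)) .nil)) .leaf)

/-- refutations 64 -/
def e64 : EX := (.node (.node .leaf (nat_lit 15850829210765322) (.br (nat_lit 0) (.cons (.br (nat_lit 1) (.cons (.rel (nat_lit 42008577)) .nil)) .nil)) .leaf) (nat_lit 15857048201851656) (.br (nat_lit 0) (.cons (.br (nat_lit 2) (.cons (.rel (nat_lit 71304273)) .nil)) .nil)) .leaf)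

/-- refutations 65 -/
def e65 : EX := (.node (.node (.node (.node .leaf (nat_lit 15868673628295968) (.br (nat_lit 0) (.cons (.br (nat_lit 1) (.cons (.rel (nat_lit 41943318)) .nil)) .nil)) .leaf) (nat_lit 15945055311304714) (.br (nat_lit 0) (.cons (.br (nat_lit 6) (.cons (.rel (nat_lit 17184202752)) .nil)) .nil)) .leaf) (nat_lit 15945493397919754) (.br (nat_lit 1) (.cons (.br (nat_lit 4) (.cons (.rel (nat_lit 1090552320)) .nil)) .nil)) (.node .leaf (nat_lit 15945493399545866) (.br (nat_lit 4) (.cons (.br (nat_lit 6) (.cons (.rel (nat_lit 18253611048)) .nil)) .nil)) .leaf)) (nat_lit 15946531765473966) (.br (nat_lit 1) (.cons (.br (nat_lit 2) (.cons (.rel (nat_lit 83887365)) .nil)) .nil)) (.node (.node (.node .leaf (nat_lit 15949796894058506) (.br (nat_lit 1) (.cons (.br (nat_lit 2) (.cons (.rel (nat_lit 83886360)) .nil)) .nil)) .leaf) (nat_lit 15949797076879370) (.br (nat_lit 2) (.cons (.br (nat_lit 4) (.cons (.rel (nat_lit 1140859968)) (.cons (.rel (nat_lit 1141379073)) .nil))) .nil)) .leaf) (nat_lit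 15949797079599114) (.br (nat_lit 4) (.cons (.br (nat_lit 2) (.cons (.rel (nat_lit 1140920400)) (.cons (.rel (nat_lit 1140920400)) .nil))) .nil)) (.node .leaf (nat_lit 15949797079600505) (.br (nat_lit 0) (.cons (.br (nat_lit 2) (.cons (.rel (nat_lit 138412305)) .nil)) .nil)) .leaf)))

/-- refutations 66 -/
def e66 : EX := (.node (.node (.node (.node (.node .leaf (nat_lit 16026793899209614) (.br (nat_lit 1) (.cons (.br (nat_lit 2) (.cons (.rel (nat_lit 83886360)) .nil)) .nil)) .leaf) (nat_lit 16026793900785674) (.br (nat_lit 1) (.cons (.br (nat_lit 3) (.cons (.rel (nat_lit 286785792)) .nil)) .nil)) .leaf) (nat_lit 16026793900785691) (.br (nat_lit 1) (.cons (.br (nat_lit 3) (.cons (.rel (nat_lit 570426372)) .nil)) .nil)) (.node .leaf (nat_lit 16026793900845066) (.br (nat_lit 0) (.cons (.br (nat_lit 3) (.cons (.rel (nat_lit 276830208)) .nil)) .nil)) .leaf)) (nat_lit 16026793902396944) (.br (nat_lit 0) (.cons (.br (nat_lit 1) (.cons (.rel (nat_lit 41959440)) .nil)) .nil)) (.node (.node .leaf (nat_lit 16026794022420490)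 (.br (nat_lit 0) (.cons (.br (nat_lit 1) (.cons (.rel (nat_lit 41947140)) .nil)) .nil)) .leaf) (nat_lit 16026914158388736) (.br (nat_lit 1) (.cons (.br (nat_lit 3) (.cons (.rel (nat_lit 285212709)) .nil)) .nil)) (.node .leaf (nat_lit 16026914159930225) (.br (nat_lit 0) (.cons (.br (nat_lit 1) (.cons (.rel (nat_lit 20979720)) .nil)) .nil)) .leaf))) (nat_lit 16026914281476123) (.br (nat_lit 1) (.cons (.br (nat_lit 2) (.cons (.rel (nat_lit 83887365)) .nil)) .nil)) (.node (.node (.node .leaf (nat_lit 16033013011948332) (.br (nat_lit 0) (.cons (.br (nat_lit 3) (.cons (.rel (nat_lit 276824328)) .nil)) .nil)) .leaf) (nat_lit 16033013011958541) (.br (nat_lit 0) (.cons (.br (nat_lit 4) (.cons (.rel (nat_lit 1082392644)) .nil)) .nil)) (.node .leaf (nat_lit 16033013011958562) (.br (nat_lit 0) (.cons (.br (nat_lit 1) (.cons (.rel (nat_lit 41959440)) .nil)) .nil)) .leaf)) (nat_lit 16033013014913034) (.br (nat_lit 0) (.cons (.br (nat_lit 2) (.cons (.rel (nat_lit 138477576)) .nil)) .nil)) (.node (.node .leaf (nat_lit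 16038783428089243) (.br (nat_lit 0) (.cons (.br (nat_lit 2) (.cons (.rel (nat_lit 142868736)) .nil)) .nil)) .leaf) (nat_lit 16038783428803995) (.br (nat_lit 0) (.cons (.br (nat_lit 3) (.cons (.rel (nat_lit 276830208)) .nil)) .nil)) (.node .leaf (nat_lit 16038787517535118) (.br (nat_lit 3) (.cons (.br (nat_lit 5) (.cons (.rel (nat_lit 4563420180)) .nil)) .nil)) .leaf))))

/-- refutations 67 -/
def e67 : EX := (.node (.node (.node (.node (.node .leaf (nat_lit 16290633846381949) (.br (nat_lit 0) (.cons (.br (nat_lit 1) (.cons (.rel (nat_lit 41944320)) .nil)) .nil)) .leaf) (nat_lit 16292575188347690) (.br (nat_lit 0) (.cons (.br (nat_lit 4) (.cons (.rel (nat_lit 1077937218)) .nil)) .nil)) .leaf) (nat_lit 16293002652116250) (.br (nat_lit 0) (.cons (.br (nat_lit 1) (.cons (.rel (nat_lit 21102594)) .nil)) .nil)) (.node .leaf (nat_lit 16295747872347669) (.br (nat_lit 0) (.cons (.br (nat_lit 2) (.cons (.rel (nat_lit 71827968)) .nil)) .nil)) .leaf)) (nat_lit 16295747872413173) (.br (nat_lit 0) (.cons (.br (nat_lit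 2) (.cons (.rel (nat_lit 71327808)) .nil)) .nil)) (.node (.node (.node .leaf (nat_lit 16296266302032122) (.br (nat_lit 1) (.cons (.br (nat_lit 3) (.cons (.rel (nat_lit 570426372)) .nil)) .nil)) .leaf) (nat_lit 16296271858482709) (.br (nat_lit 0) (.cons (.br (nat_lit 2) (.cons (.rel (nat_lit 75505665)) .nil)) .nil)) .leaf) (nat_lit 16296271859484703) (.br (nat_lit 0) (.cons (.br (nat_lit 1) (.cons (.rel (nat_lit 26215440)) .nil)) .nil)) (.node .leaf (nat_lit 16297021519992842) (.br (nat_lit 0) (.cons (.br (nat_lit 2) (.cons (.rel (nat_lit 71304273)) .nil)) .nil)) .leaf))) (nat_lit 16297331972492576) (.br (nat_lit 1) (.cons (.br (nat_lit 2) (.cons (.rel (nat_lit 167841792)) .nil)) .nil)) (.node (.node (.node (.node .leaf (nat_lit 16297331973664778) (.br (nat_lit 0) (.cons (.br (nat_lit 2) (.cons (.rel (nat_lit 71327808)) .nil)) .nil)) .leaf) (nat_lit 16297902893159677) (.br (nat_lit 1) (.cons (.br (nat_lit 5) (.cons (.rel (nat_lit 4311810180)) .nil)) .nil)) .leaf) (nat_lit 16297903027442970) (.br (nat_lit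 5) (.cons (.br (nat_lit 0) (.cons (.rel (nat_lit 4299163656)) (.cons (.rel (nat_lit 4299231489)) (.cons (.rel (nat_lit 4299163656)) .nil)))) .nil)) (.node .leaf (nat_lit 16298401109490924) (.br (nat_lit 2) (.cons (.br (nat_lit 3) (.cons (.rel (nat_lit 603984897)) .nil)) .nil)) .leaf)) (nat_lit 16301196759848218) (.br (nat_lit 1) (.cons (.br (nat_lit 3) (.cons (.rel (nat_lit 570426372)) .nil)) .nil)) (.node (.node (.node .leaf (nat_lit 16301196762098970) (.br (nat_lit 1) (.cons (.br (nat_lit 2) (.cons (.rel (nat_lit 84025344)) .nil)) .nil)) .leaf) (nat_lit 16303727922667530) (.br (nat_lit 0) (.cons (.br (nat_lit 5) (.cons (.rel (nat_lit 4299227664)) (.cons (.rel (nat_lit 4299167232)) (.cons (.rel (nat_lit 8598324228)) .nil)))) .nil)) .leaf) (nat_lit 16303727922710559) (.br (nat_lit 0) (.cons (.br (nat_lit 1) (.cons (.rel (nat_lit 20989200)) .nil)) .nil)) (.node .leaf (nat_lit 16303727922712065) (.br (nat_lit 0) (.cons (.br (nat_lit 2) (.cons (.rel (nat_lit 71327808)) .nil)) .nil)) .leaf))))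

/-- refutations 68 -/
def e68 : EX := (.node (.node (.node (.node (.node .leaf (nat_lit 16395917443803891) (.br (nat_lit 0) (.cons (.br (nat_lit 1) (.cons (.rel (nat_lit 41944320)) .nil)) .nil)) .leaf) (nat_lit 16395920686288358) (.br (nat_lit 2) (.cons (.br (nat_lit 4) (.cons (.rel (nat_lit 1141375248)) .nil)) .nil)) (.node .leaf (nat_lit 16395980714859406) (.br (nat_lit 3) (.cons (.br (nat_lit 6) (.cons (.rel (nat_lit 34896675840)) (.cons (.rel (nat_lit 17448338436)) .nil))) .nil)) .leaf)) (nat_lit 16395980714859931) (.br (nat_lit 0) (.cons (.br (nat_lit 3) (.cons (.rel (nat_lit 272638032)) .nil)) .nil)) (.node (.node .leaf (nat_lit 16395980714860006) (.br (nat_lit 1) (.cons (.br (nat_lit 3) (.cons (.rel (nat_lit 285214728)) .nil)) .nil)) .leaf) (nat_lit 16395980714927611) (.br (nat_lit 1) (.cons (.br (nat_lit 2) (.cons (.rel (nat_lit 83886360)) .nil)) .nil)) .leaf)) (nat_lit 16396186973898115) (.br (nat_lit 0) (.cons (.br (nat_lit 1) (.cons (.rel (nat_lit 20976900)) .nil)) .nil)) (.node (.node (.node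 .leaf (nat_lit 16396186976478715) (.br (nat_lit 0) (.cons (.br (nat_lit 1) (.cons (.rel (nat_lit 20976900)) .nil)) .nil)) .leaf) (nat_lit 16396350276526865) (.br (nat_lit 0) (.cons (.br (nat_lit 3) (.cons (.rel (nat_lit 272638032)) .nil)) .nil)) (.node .leaf (nat_lit 16397272036270090) (.br (nat_lit 3) (.cons (.br (nat_lit 4) (.cons (.rel (nat_lit 1342703616)) .nil)) .nil)) .leaf)) (nat_lit 16397272037738506) (.br (nat_lit 0) (.cons (.br (nat_lit 1) (.cons (.rel (nat_lit 41944320)) .nil)) .nil)) (.node (.node .leaf (nat_lit 16397424541097371) (.br (nat_lit 1) (.cons (.br (nat_lit 3) (.cons (.rel (nat_lit 285218304)) .nil)) .nil)) .leaf) (nat_lit 16398151300700416) (.br (nat_lit 0) (.cons (.br (nat_lit 1) (.cons (.rel (nat_lit 20974080)) .nil)) .nil)) .leaf))) (nat_lit 16398153408030976) (.br (nat_lit 0) (.cons (.br (nat_lit 3) (.cons (.rel (nat_lit 273678720)) .nil)) .nil)) (.node (.node (.node (.node .leaf (nat_lit 16398557380884511) (.br (nat_lit 3) (.cons (.br (nat_lit 2) (.cons (.rel (nat_lit 335610948))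 (.cons (.rel (nat_lit 671350788)) (.cons (.rel (nat_lit 672141312)) (.cons (.rel (nat_lit 671350788)) .nil))))) .nil)) .leaf) (nat_lit 16398557380886011) (.br (nat_lit 0) (.cons (.br (nat_lit 3) (.cons (.rel (nat_lit 276824328)) .nil)) .nil)) (.node .leaf (nat_lit 16398557380971256) (.br (nat_lit 3) (.cons (.br (nat_lit 6) (.cons (.rel (nat_lit 34896675840)) .nil)) .nil)) .leaf)) (nat_lit 16398557380971931) (.br (nat_lit 1) (.cons (.br (nat_lit 0) (.cons (.rel (nat_lit 21004320)) (.cons (.rel (nat_lit 20979720)) .nil))) .nil)) (.node (.node .leaf (nat_lit 16398557380972006) (.br (nat_lit 6) (.cons (.br (nat_lit 0) (.cons (.br (nat_lit 3) (.cons (.rel (nat_lit 272638032)) (.cons (.rel (nat_lit 541065732)) .nil))) (.cons (.rel (nat_lit 17184067593)) .nil))) .nil)) .leaf) (nat_lit 16398557382420511) (.br (nat_lit 1) (.cons (.br (nat_lit 3) (.cons (.rel (nat_lit 285312000)) (.cons (.rel (nat_lit 285360132)) .nil))) (.cons (.br (nat_lit 3) (.cons (.rel (nat_lit 285214728)) (.cons (.rel (nat_lit 285218304))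 .nil))) .nil))) .leaf)) (nat_lit 16398557382422011) (.br (nat_lit 3) (.cons (.br (nat_lit 0) (.cons (.rel (nat_lit 272761920)) (.cons (.rel (nat_lit 272662596)) .nil))) .nil)) (.node (.node (.node .leaf (nat_lit 16398557382454758) (.br (nat_lit 0) (.cons (.br (nat_lit 1) (.cons (.rel (nat_lit 41947140)) .nil)) .nil)) .leaf) (nat_lit 16398557383188511) (.br (nat_lit 0) (.cons (.br (nat_lit 3) (.cons (.rel (nat_lit 274726914)) (.cons (.rel (nat_lit 272662596)) .nil))) (.cons (.br (nat_lit 3) (.cons (.rel (nat_lit 272638032)) (.cons (.rel (nat_lit 546308097)) .nil))) .nil))) .leaf) (nat_lit 16398557383190011) (.br (nat_lit 0) (.cons (.br (nat_lit 1) (.cons (.br (nat_lit 3) (.cons (.rel (nat_lit 570426372)) .nil)) .nil)) .nil)) (.node (.node .leaf (nat_lit 16398557383275256) (.br (nat_lit 6) (.cons (.br (nat_lit 3) (.cons (.rel (nat_lit 17448308997)) (.cons (.rel (nat_lit 34896675840)) .nil))) .nil)) .leaf) (nat_lit 16398557383276006) (.br (nat_lit 1) (.cons (.br (nat_lit 3) (.cons (.rel (nat_lit 285221124))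 (.cons (.rel (nat_lit 553910544)) .nil))) .nil)) .leaf))))

/-- refutations 69 -/
def e69 : EX := (.node (.node (.node (.node (.node (.node .leaf (nat_lit 16401781752084511) (.br (nat_lit 3) (.cons (.br (nat_lit 0) (.cons (.rel (nat_lit 541134864)) (.cons (.rel (nat_lit 274010112)) .nil))) .nil)) .leaf) (nat_lit 16401781752085261) (.br (nat_lit 1) (.cons (.br (nat_lit 3) (.cons (.rel (nat_lit 285312000)) (.cons (.rel (nat_lit 285360132)) .nil))) (.cons (.br (nat_lit 3) (.cons (.rel (nat_lit 285214728)) (.cons (.rel (nat_lit 285218304)) .nil))) .nil))) .leaf) (nat_lit 16401781753108636) (.br (nat_lit 0) (.cons (.br (nat_lit 1) (.cons (.rel (nat_lit 41944320)) .nil)) .nil)) (.node .leaf (nat_lit 16401781753620511) (.br (nat_lit 0) (.cons (.br (nat_lit 1) (.cons (.rel (nat_lit 21053457)) .nil)) .nil)) .leaf)) (nat_lit 16401781753620661) (.br (nat_lit 0) (.cons (.br (nat_lit 1) (.cons (.rel (nat_lit 21053457)) .nil)) .nil)) (.node (.node (.node .leaf (nat_lit 16401781753621261) (.br (nat_lit 0) (.cons (.br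 (nat_lit 1) (.cons (.rel (nat_lit 21053457)) .nil)) .nil)) .leaf) (nat_lit 16401781753706506) (.br (nat_lit 0) (.cons (.br (nat_lit 1) (.cons (.rel (nat_lit 42008577)) .nil)) .nil)) .leaf) (nat_lit 16401781753707256) (.br (nat_lit 0) (.cons (.br (nat_lit 1) (.cons (.rel (nat_lit 21004320)) .nil)) .nil)) (.node .leaf (nat_lit 16401781754388511) (.br (nat_lit 3) (.cons (.br (nat_lit 0) (.cons (.rel (nat_lit 274726914)) (.cons (.rel (nat_lit 272761920)) .nil))) .nil)) .leaf))) (nat_lit 16401781754389261) (.br (nat_lit 0) (.cons (.br (nat_lit 2) (.cons (.rel (nat_lit 138429444)) (.cons (.rel (nat_lit 138477576)) (.cons (.rel (nat_lit 75628548)) .nil)))) (.cons (.br (nat_lit 3) (.cons (.rel (nat_lit 541065732)) (.cons (.rel (nat_lit 272638032)) (.cons (.rel (nat_lit 541081857)) .nil)))) (.cons (.br (nat_lit 2) (.cons (.rel (nat_lit 138429444)) (.cons (.rel (nat_lit 138429444)) (.cons (.rel (nat_lit 138477576)) .nil)))) .nil)))) (.node (.node (.node (.node .leaf (nat_lit 16401781754475256) (.br (nat_lit 3)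 (.cons (.br (nat_lit 2) (.cons (.rel (nat_lit 335610948)) (.cons (.rel (nat_lit 603981072)) (.cons (.rel (nat_lit 335562816)) .nil)))) (.cons (.br (nat_lit 2) (.cons (.rel (nat_lit 335548497)) (.cons (.rel (nat_lit 335548497)) (.cons (.rel (nat_lit 336068616)) .nil)))) .nil))) .leaf) (nat_lit 16401781754696461) (.br (nat_lit 0) (.cons (.br (nat_lit 1) (.cons (.rel (nat_lit 20979720)) .nil)) .nil)) .leaf) (nat_lit 16403924501698591) (.br (nat_lit 0) (.cons (.br (nat_lit 1) (.cons (.rel (nat_lit 20974080)) .nil)) .nil)) (.node .leaf (nat_lit 16406743588392443) (.br (nat_lit 1) (.cons (.br (nat_lit 2) (.cons (.rel (nat_lit 167841792)) .nil)) .nil)) .leaf)) (nat_lit 16406743589883914) (.br (nat_lit 1) (.cons (.br (nat_lit 2) (.cons (.rel (nat_lit 100679748)) .nil)) .nil)) (.node (.node (.node .leaf (nat_lit 16406743591347678) (.br (nat_lit 0) (.cons (.br (nat_lit 2) (.cons (.rel (nat_lit 142868736)) .nil)) .nil)) .leaf) (nat_lit 16406746004471291) (.br (nat_lit 0) (.cons (.br (nat_lit 2) (.cons (.rel (nat_lit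 71327808)) .nil)) .nil)) .leaf) (nat_lit 16406749828044981) (.br (nat_lit 0) (.cons (.br (nat_lit 3) (.cons (.rel (nat_lit 541074432)) .nil)) .nil)) (.node .leaf (nat_lit 16406749828045056) (.br (nat_lit 3) (.cons (.br (nat_lit 6) (.cons (.rel (nat_lit 17448325122)) .nil)) .nil)) .leaf)))) (nat_lit 16408040670210079) (.br (nat_lit 3) (.cons (.br (nat_lit 4) (.cons (.rel (nat_lit 1343488260)) (.cons (.rel (nat_lit 1610616837)) (.cons (.rel (nat_lit 1342242888)) .nil)))) .nil)) (.node (.node (.node (.node (.node .leaf (nat_lit 16408040670210829) (.br (nat_lit 3) (.cons (.br (nat_lit 0) (.cons (.rel (nat_lit 272761920)) (.cons (.rel (nat_lit 541065732)) .nil))) .nil)) .leaf) (nat_lit 16408040670211579) (.br (nat_lit 0) (.cons (.br (nat_lit 3) (.cons (.rel (nat_lit 272662596)) .nil)) .nil)) .leaf) (nat_lit 16408040670296074) (.br (nat_lit 3) (.cons (.br (nat_lit 4) (.cons (.rel (nat_lit 1610614017)) (.cons (.rel (nat_lit 1342194756)) .nil))) .nil)) (.node .leaf (nat_lit 16408040670978079) (.br (nat_lit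 0) (.cons (.br (nat_lit 6) (.cons (.rel (nat_lit 17184067593)) (.cons (.rel (nat_lit 17184064773)) (.cons (.rel (nat_lit 17184130080)) .nil)))) .nil)) .leaf)) (nat_lit 16408040671064824) (.br (nat_lit 3) (.cons (.br (nat_lit 4) (.cons (.rel (nat_lit 1342242888)) .nil)) .nil)) (.node (.node (.node .leaf (nat_lit 16408219484437261) (.br (nat_lit 1) (.cons (.br (nat_lit 3) (.cons (.rel (nat_lit 287604753)) .nil)) .nil)) .leaf) (nat_lit 16408219484522506) (.br (nat_lit 1) (.cons (.br (nat_lit 3) (.cons (.rel (nat_lit 285218304)) .nil)) .nil)) .leaf) (nat_lit 16408219484524006) (.br (nat_lit 1) (.cons (.br (nat_lit 3) (.cons (.br (nat_lit 2) (.cons (.rel (nat_lit 335610948)) (.cons (.rel (nat_lit 603981072)) (.cons (.rel (nat_lit 152043780)) .nil)))) .nil)) .nil)) (.node .leaf (nat_lit 16408219485972511) (.br (nat_lit 3) (.cons (.br (nat_lit 0) (.cons (.rel (nat_lit 276824328)) (.cons (.rel (nat_lit 272638032)) (.cons (.rel (nat_lit 541074432)) .nil)))) .nil)) .leaf))) (nat_lit 16408219486058506) (.br (nat_lit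 3) (.cons (.br (nat_lit 0) (.cons (.rel (nat_lit 546308097)) (.cons (.rel (nat_lit 272638032)) (.cons (.rel (nat_lit 272761920)) .nil)))) .nil)) (.node (.node (.node (.node .leaf (nat_lit 16408219486059181) (.br (nat_lit 1) (.cons (.br (nat_lit 3) (.cons (.rel (nat_lit 285214728)) .nil)) .nil)) .leaf) (nat_lit 16408219486059406) (.br (nat_lit 0) (.cons (.br (nat_lit 3) (.cons (.rel (nat_lit 276824328)) .nil)) .nil)) .leaf) (nat_lit 16408219486059931) (.br (nat_lit 0) (.cons (.br (nat_lit 3) (.cons (.rel (nat_lit 273678720)) .nil)) .nil)) (.node .leaf (nat_lit 16408219486060006) (.br (nat_lit 3) (.cons (.br (nat_lit 4) (.cons (.rel (nat_lit 1342177617)) (.cons (.rel (nat_lit 1342194756)) (.cons (.rel (nat_lit 1610613012)) .nil)))) .nil)) .leaf)) (nat_lit 16408219486740511) (.br (nat_lit 0) (.cons (.br (nat_lit 3) (.cons (.rel (nat_lit 541065732)) .nil)) .nil)) (.node (.node (.node .leaf (nat_lit 16408219486741261) (.br (nat_lit 1) (.cons (.br (nat_lit 3) (.cons (.rel (nat_lit 285212709)) (.cons (.rel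 (nat_lit 285360132)) .nil))) (.cons (.br (nat_lit 3) (.cons (.rel (nat_lit 285214728)) (.cons (.rel (nat_lit 553910544)) .nil))) .nil))) .leaf) (nat_lit 16408219486980106) (.br (nat_lit 0) (.cons (.br (nat_lit 1) (.cons (.rel (nat_lit 21053457)) .nil)) .nil)) .leaf) (nat_lit 16408221371652106) (.br (nat_lit 0) (.cons (.br (nat_lit 3) (.cons (.rel (nat_lit 272638032)) .nil)) .nil)) (.node .leaf (nat_lit 16408221371653006) (.br (nat_lit 0) (.cons (.br (nat_lit 3) (.cons (.rel (nat_lit 276824328)) .nil)) .nil)) .leaf)))))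

/-- refutations 70 -/
def e70 : EX := (.node .leaf (nat_lit 16409326808269056) (.br (nat_lit 0) (.cons (.br (nat_lit 1) (.cons (.rel (nat_lit 20974080)) .nil)) .nil)) .leaf)

/-- refutations 72 -/
def e72 : EX := (.node (.node .leaf (nat_lit 16490421605642422) (.br (nat_lit 0) (.cons (.br (nat_lit 4) (.cons (.rel (nat_lit 1080034560)) .nil)) .nil)) .leaf) (nat_lit 16495958947328010) (.br (nat_lit 1) (.cons (.br (nat_lit 2) (.cons (.rel (nat_lit 84025344)) .nil)) .nil)) .leaf)

/-- refutations 74 -/
def e74 : EX := (.node (.node .leaf (nat_lit 22098169015292079) (.br (nat_lit 2) (.cons (.br (nat_lit 3) (.cons (.rel (nat_lit 671350788)) .nil)) .nil)) .leaf) (nat_lit 22102755286769674) (.br (nat_lit 0) (.cons (.br (nat_lit 1) (.cons (.rel (nat_lit 20972073)) .nil)) .nil)) (.node .leaf (nat_lit 22109114437281174) (.br (nat_lit 1) (.cons (.br (nat_lit 6) (.cons (.rel (nat_lit 34393293120)) .nil)) .nil)) .leaf))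

/-- refutations 75 -/
def e75 : EX := (.node (.node .leaf (nat_lit 22113813676967946) (.br (nat_lit 1) (.cons (.br (nat_lit 3) (.cons (.rel (nat_lit 285218304)) .nil)) .nil)) .leaf) (nat_lit 22120038356938762) (.br (nat_lit 2) (.cons (.br (nat_lit 4) (.cons (.rel (nat_lit 1207968000)) .nil)) .nil)) .leaf)

/-- refutations 76 -/
def e76 : EX := (.node (.node (.node .leaf (nat_lit 22172689292698412) (.br (nat_lit 0) (.cons (.br (nat_lit 3) (.cons (.rel (nat_lit 272638032)) .nil)) .nil)) .leaf) (nat_lit 22172689295663114) (.br (nat_lit 3) (.cons (.br (nat_lit 2) (.cons (.rel (nat_lit 336920577)) (.cons (.rel (nat_lit 335544672)) .nil))) .nil)) (.node .leaf (nat_lit 22172689295664380) (.br (nat_lit 0) (.cons (.br (nat_lit 1) (.cons (.rel (nat_lit 20976900)) .nil)) .nil)) .leaf)) (nat_lit 22178266370539675) (.br (nat_lit 0) (.cons (.br (nat_lit 2) (.cons (.rel (nat_lit 73465872)) .nil)) .nil)) (.node (.node .leaf (nat_lit 22179578421723146) (.br (nat_lit 0) (.cons (.br (nat_lit 2) (.cons (.rel (nat_lit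 71373120)) .nil)) .nil)) .leaf) (nat_lit 22179578423207424) (.br (nat_lit 0) (.cons (.br (nat_lit 6) (.cons (.rel (nat_lit 17184063768)) (.cons (.rel (nat_lit 17184063768)) .nil))) .nil)) .leaf))

/-- refutations 77 -/
def e77 : EX := (.node (.node .leaf (nat_lit 22449868798692003) (.br (nat_lit 0) (.cons (.br (nat_lit 1) (.cons (.rel (nat_lit 41944320)) .nil)) .nil)) .leaf) (nat_lit 22449868800492782) (.br (nat_lit 0) (.cons (.br (nat_lit 2) (.cons (.rel (nat_lit 138477576)) .nil)) .nil)) .leaf)

/-- refutations 78 -/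
def e78 : EX := (.node (.node (.node .leaf (nat_lit 22535613419623075) (.br (nat_lit 4) (.cons (.br (nat_lit 6) (.cons (.rel (nat_lit 18253697025)) .nil)) .nil)) .leaf) (nat_lit 22536074032391574) (.br (nat_lit 0) (.cons (.br (nat_lit 1) (.cons (.rel (nat_lit 20979720)) .nil)) .nil)) .leaf) (nat_lit 22537104824817839) (.br (nat_lit 0) (.cons (.br (nat_lit 1) (.cons (.rel (nat_lit 20974080)) .nil)) .nil)) (.node .leaf (nat_lit 22541495289053215) (.br (nat_lit 0) (.cons (.br (nat_lit 1) (.cons (.rel (nat_lit 20993025)) .nil)) .nil)) .leaf))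

/-- refutations 79 -/
def e79 : EX := (.node (.node (.node .leaf (nat_lit 22546640660109948) (.br (nat_lit 1) (.cons (.br (nat_lit 2) (.cons (.rel (nat_lit 83923200)) .nil)) .nil)) .leaf) (nat_lit 22547670948634634) (.br (nat_lit 0) (.cons (.br (nat_lit 1) (.cons (.rel (nat_lit 20993025)) .nil)) .nil)) .leaf) (nat_lit 22548915984606614) (.br (nat_lit 2) (.cons (.br (nat_lit 4) (.cons (.rel (nat_lit 1140859968)) .nil)) .nil)) (.node .leaf (nat_lit 22548947909162490) (.br (nat_lit 0) (.cons (.br (nat_lit 1) (.cons (.rel (nat_lit 41947140)) .nil)) .nil)) .leaf))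

/-- refutations 81 -/
def e81 : EX := (.node (.node (.node .leaf (nat_lit 22465311261328036) (.br (nat_lit 0) (.cons (.br (nat_lit 4) (.cons (.rel (nat_lit 1078002240)) .nil)) .nil)) .leaf) (nat_lit 22471902365671434) (.br (nat_lit 1) (.cons (.br (nat_lit 2) (.cons (.rel (nat_lit 83902485)) .nil)) .nil)) (.node .leaf (nat_lit 22472755099964068) (.br (nat_lit 0) (.cons (.br (nat_lit 4) (.cons (.rel (nat_lit 1082130960)) .nil)) .nil)) .leaf)) (nat_lit 22478364227909642) (.br (nat_lit 5) (.cons (.br (nat_lit 0) (.cons (.rel (nat_lit 8594133057)) (.cons (.rel (nat_lit 4299162642)) .nil))) .nil)) (.node (.node .leaf (nat_lit 22478367538296842) (.br (nat_lit 1) (.cons (.br (nat_lit 2) (.cons (.rel (nat_lit 83903490)) .nil)) .nil)) .leaf) (nat_lit 22478370706544147) (.br (nat_lit 0) (.cons (.br (nat_lit 1) (.cons (.rel (nat_lit 21053457)) .nil)) .nil)) .leaf))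

/-- refutations 82 -/
def e82 : EX := (.node (.node (.node .leaf (nat_lit 22625072410305314) (.br (nat_lit 1) (.cons (.br (nat_lit 3) (.cons (.rel (nat_lit 285212709)) .nil)) .nil)) .leaf) (nat_lit 22625072410305392) (.br (nat_lit 1) (.cons (.br (nat_lit 2) (.cons (.rel (nat_lit 83886360)) .nil)) .nil)) .leaf) (nat_lit 22625072412362762) (.br (nat_lit 1) (.cons (.br (nat_lit 2) (.cons (.rel (nat_lit 83892240)) .nil)) .nil)) (.node .leaf (nat_lit 22631557329856818) (.br (nat_lit 2) (.cons (.br (nat_lit 3) (.cons (.rel (nat_lit 604071936)) .nil)) .nil)) .leaf))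

/-- refutations 83 -/
def e83 : EX := (.node (.node (.node .leaf (nat_lit 22905508573263086) (.br (nat_lit 1) (.cons (.br (nat_lit 2) (.cons (.rel (nat_lit 83923200)) .nil)) .nil)) .leaf) (nat_lit 22912628332946785) (.br (nat_lit 0) (.cons (.br (nat_lit 2) (.cons (.rel (nat_lit 71303268)) .nil)) .nil)) .leaf) (nat_lit 22917955160618361) (.br (nat_lit 1) (.cons (.br (nat_lit 2) (.cons (.rel (nat_lit 83892240)) .nil)) .nil)) (.node .leaf (nat_lit 22918014219395829) (.br (nat_lit 0) (.cons (.br (nat_lit 1) (.cons (.rel (nat_lit 20974080)) .nil)) .nil)) .leaf))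

/-- refutations 84 -/
def e84 : EX := (.node (.node (.node (.node (.node (.node .leaf (nat_lit 22995630293248786) (.br (nat_lit 0) (.cons (.br (nat_lit 1) (.cons (.rel (nat_lit 20976900)) .nil)) .nil)) .leaf) (nat_lit 22995630293268511) (.br (nat_lit 0) (.cons (.br (nat_lit 3) (.cons (.rel (nat_lit 272630337)) .nil)) .nil)) .leaf) (nat_lit 22995630293270011) (.br (nat_lit 0) (.cons (.br (nat_lit 3) (.cons (.rel (nat_lit 542130240)) (.cons (.rel (nat_lit 272761920)) .nil))) .nil)) (.node (.node .leaf (nat_lit 22995630293355256) (.br (nat_lit 3) (.cons (.br (nat_lit 6) (.cons (.rel (nat_lit 34896675840)) .nil)) .nil)) .leaf) (nat_lit 22995630293356006) (.br (nat_lit 0) (.cons (.br (nat_lit 2) (.cons (.rel (nat_lit 138429444)) (.cons (.rel (nat_lit 75580416)) (.cons (.rel (nat_lit 138477576)) (.cons (.rel (nat_lit 75628548)) (.cons (.rel (nat_lit 138429444)) (.cons (.rel (nat_lit 71327808)) .nil))))))) .nil)) .leaf)) (nat_lit 22995630294804511) (.br (nat_lit 3) (.cons (.br (nat_lit 2) (.cons (.rel (nat_lit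 671350788)) (.cons (.rel (nat_lit 671350788)) (.cons (.rel (nat_lit 672141312)) .nil)))) .nil)) (.node (.node (.node .leaf (nat_lit 22995630294890506) (.br (nat_lit 1) (.cons (.br (nat_lit 0) (.cons (.rel (nat_lit 20979720)) (.cons (.rel (nat_lit 20974080)) (.cons (.br (nat_lit 6) (.cons (.rel (nat_lit 17184064773)) (.cons (.rel (nat_lit 17213554692)) (.cons (.rel (nat_lit 17184067593)) .nil)))) .nil)))) (.cons (.br (nat_lit 3) (.cons (.rel (nat_lit 285221124)) (.cons (.rel (nat_lit 303333633)) .nil))) .nil))) .leaf) (nat_lit 22995630294891256) (.br (nat_lit 3) (.cons (.br (nat_lit 6) (.cons (.rel (nat_lit 34896675840)) .nil)) .nil)) .leaf) (nat_lit 22995630294892006) (.br (nat_lit 3) (.cons (.br (nat_lit 1) (.cons (.br (nat_lit 0) (.cons (.rel (nat_lit 272638032)) (.cons (.rel (nat_lit 20979720)) (.cons (.rel (nat_lit 42008577)) (.cons (.rel (nat_lit 272761920)) .nil))))) (.cons (.rel (nat_lit 570426372)) .nil))) .nil)) (.node .leaf (nat_lit 22995630295605310) (.br (nat_lit 1) (.cons (.br (nat_lit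 3) (.cons (.rel (nat_lit 570426372)) .nil)) .nil)) .leaf))) (nat_lit 22998846800149261) (.br (nat_lit 0) (.cons (.br (nat_lit 3) (.cons (.rel (nat_lit 272638032)) .nil)) .nil)) (.node (.node (.node (.node .leaf (nat_lit 22998846800234506) (.br (nat_lit 6) (.cons (.br (nat_lit 3) (.cons (.rel (nat_lit 17448437760)) (.cons (.rel (nat_lit 34896675840)) .nil))) .nil)) .leaf) (nat_lit 22998846800235181) (.br (nat_lit 0) (.cons (.br (nat_lit 1) (.cons (.rel (nat_lit 20974080)) .nil)) .nil)) .leaf) (nat_lit 22998846800235256) (.br (nat_lit 0) (.cons (.br (nat_lit 3) (.cons (.rel (nat_lit 272662596)) .nil)) .nil)) (.node .leaf (nat_lit 22998846801684511) (.br (nat_lit 1) (.cons (.br (nat_lit 0) (.cons (.rel (nat_lit 41947140)) (.cons (.rel (nat_lit 41944320)) .nil))) .nil)) .leaf)) (nat_lit 22998846801685261) (.br (nat_lit 1) (.cons (.br (nat_lit 0) (.cons (.rel (nat_lit 20979720)) (.cons (.rel (nat_lit 41944320)) .nil))) .nil)) (.node (.node (.node .leaf (nat_lit 22998846802452511) (.br (nat_lit 2) (.cons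 (.br (nat_lit 3) (.cons (.rel (nat_lit 335610948)) (.cons (.rel (nat_lit 336068616)) .nil))) (.cons (.br (nat_lit 3) (.cons (.rel (nat_lit 402670848)) (.cons (.rel (nat_lit 335544672)) .nil))) .nil))) .leaf) (nat_lit 22998846802452736) (.br (nat_lit 2) (.cons (.br (nat_lit 3) (.cons (.rel (nat_lit 335610948)) (.cons (.rel (nat_lit 335562816)) .nil))) .nil)) .leaf) (nat_lit 22998846802453261) (.br (nat_lit 3) (.cons (.br (nat_lit 0) (.cons (.rel (nat_lit 272638032)) (.cons (.rel (nat_lit 272662596)) .nil))) .nil)) (.node .leaf (nat_lit 22998846802538506) (.br (nat_lit 6) (.cons (.br (nat_lit 3) (.cons (.rel (nat_lit 34896675840)) (.cons (.rel (nat_lit 17448338436)) .nil))) .nil)) .leaf)))) (nat_lit 22998846802538806) (.br (nat_lit 0) (.cons (.br (nat_lit 2) (.cons (.rel (nat_lit 71827968)) (.cons (.rel (nat_lit 138429444)) .nil))) .nil)) (.node (.node (.node (.node (.node .leaf (nat_lit 22998846802539181) (.br (nat_lit 1) (.cons (.br (nat_lit 3) (.cons (.rel (nat_lit 285218304)) .nil)) .nil)) .leaf)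 (nat_lit 22998846802539256) (.br (nat_lit 3) (.cons (.br (nat_lit 0) (.cons (.rel (nat_lit 272761920)) (.cons (.rel (nat_lit 272662596)) .nil))) .nil)) .leaf) (nat_lit 22998846802708636) (.br (nat_lit 2) (.cons (.br (nat_lit 5) (.cons (.rel (nat_lit 4362158088)) .nil)) .nil)) (.node (.node .leaf (nat_lit 22999489786688290) (.br (nat_lit 0) (.cons (.br (nat_lit 3) (.cons (.rel (nat_lit 272662596)) .nil)) .nil)) .leaf) (nat_lit 22999489786798711) (.br (nat_lit 0) (.cons (.br (nat_lit 2) (.cons (.rel (nat_lit 75580416)) .nil)) .nil)) .leaf)) (nat_lit 22999489789802506) (.br (nat_lit 3) (.cons (.br (nat_lit 1) (.cons (.rel (nat_lit 285312000)) (.cons (.rel (nat_lit 285214728)) .nil))) .nil)) (.node (.node (.node .leaf (nat_lit 22999489789870711) (.br (nat_lit 0) (.cons (.br (nat_lit 1) (.cons (.rel (nat_lit 20974080)) .nil)) .nil)) .leaf) (nat_lit 22999496188721162) (.br (nat_lit 1) (.cons (.br (nat_lit 3) (.cons (.rel (nat_lit 570426372)) .nil)) .nil)) .leaf) (nat_lit 23000506232778762) (.br (nat_lit 1)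 (.cons (.br (nat_lit 4) (.cons (.rel (nat_lit 1090535430)) .nil)) .nil)) (.node .leaf (nat_lit 23000779536694510) (.br (nat_lit 0) (.cons (.br (nat_lit 1) (.cons (.rel (nat_lit 20989200)) .nil)) .nil)) .leaf))) (nat_lit 23005290823957261) (.br (nat_lit 1) (.cons (.br (nat_lit 3) (.cons (.rel (nat_lit 285212709)) .nil)) .nil)) (.node (.node (.node (.node .leaf (nat_lit 23005290825494011) (.br (nat_lit 0) (.cons (.br (nat_lit 3) (.cons (.rel (nat_lit 272630337)) .nil)) .nil)) .leaf) (nat_lit 23005290825580006) (.br (nat_lit 3) (.cons (.br (nat_lit 0) (.cons (.rel (nat_lit 272638032)) (.cons (.rel (nat_lit 276824328)) .nil))) .nil)) .leaf) (nat_lit 23005290826260511) (.br (nat_lit 3) (.cons (.br (nat_lit 4) (.cons (.rel (nat_lit 1342194756)) (.cons (.rel (nat_lit 1342194756)) (.cons (.rel (nat_lit 1342242888)) .nil)))) .nil)) (.node .leaf (nat_lit 23005290826346506) (.br (nat_lit 3) (.cons (.br (nat_lit 1) (.cons (.rel (nat_lit 285218304)) (.cons (.rel (nat_lit 285214728)) .nil))) .nil)) .leaf)) (nat_lit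 23005290826348006) (.br (nat_lit 0) (.cons (.br (nat_lit 3) (.cons (.rel (nat_lit 276824328)) .nil)) .nil)) (.node (.node (.node .leaf (nat_lit 23005875238681357) (.br (nat_lit 4) (.cons (.br (nat_lit 0) (.cons (.rel (nat_lit 2151678240)) (.cons (.rel (nat_lit 1079246856)) .nil))) .nil)) .leaf) (nat_lit 23005875240164833) (.br (nat_lit 0) (.cons (.br (nat_lit 4) (.cons (.rel (nat_lit 1080049680)) .nil)) .nil)) .leaf) (nat_lit 23006193036808202) (.br (nat_lit 0) (.cons (.br (nat_lit 1) (.cons (.rel (nat_lit 20974080)) .nil)) .nil)) (.node .leaf (nat_lit 23006399347750416) (.br (nat_lit 0) (.cons (.br (nat_lit 3) (.cons (.rel (nat_lit 541065732)) .nil)) .nil)) .leaf)))))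

/-- refutations 85 -/
def e85 : EX := (.node (.node .leaf (nat_lit 23082021882706555) (.br (nat_lit 0) (.cons (.br (nat_lit 2) (.cons (.rel (nat_lit 71303268)) .nil)) .nil)) .leaf) (nat_lit 23086320522835422) (.br (nat_lit 1) (.cons (.br (nat_lit 2) (.cons (.rel (nat_lit 83887365)) .nil)) .nil)) .leaf)

/-- refutations 86 -/
def e86 : EX := (.node (.node (.node (.node .leaf (nat_lit 24189568226641930) (.br (nat_lit 1) (.cons (.br (nat_lit 4) (.cons (.rel (nat_lit 1107362880)) .nil)) .nil)) .leaf) (nat_lit 24189789018998794) (.br (nat_lit 0) (.cons (.br (nat_lit 4) (.cons (.rel (nat_lit 1077936213)) .nil)) .nil)) (.node .leaf (nat_lit 24191406594280176) (.br (nat_lit 0) (.cons (.br (nat_lit 1) (.cons (.rel (nat_lit 20979720)) .nil)) .nil)) .leaf)) (nat_lit 24194934389606681) (.br (nat_lit 1) (.cons (.br (nat_lit 3) (.cons (.rel (nat_lit 285212709)) .nil)) .nil)) (.node (.node .leaf (nat_lit 24194934390161585) (.br (nat_lit 6) (.cons (.br (nat_lit 1) (.cons (.rel (nat_lit 17196908580)) (.cons (.rel (nat_lit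 17196933120)) .nil))) .nil)) .leaf) (nat_lit 24194937535547402) (.br (nat_lit 1) (.cons (.br (nat_lit 4) (.cons (.rel (nat_lit 1090519305)) .nil)) .nil)) (.node .leaf (nat_lit 24195057316575288) (.br (nat_lit 2) (.cons (.br (nat_lit 0) (.cons (.rel (nat_lit 75580416)) (.cons (.rel (nat_lit 75505665)) (.cons (.rel (nat_lit 142868736)) .nil)))) .nil)) .leaf))) (nat_lit 24195157146745467) (.br (nat_lit 0) (.cons (.br (nat_lit 3) (.cons (.rel (nat_lit 272761920)) .nil)) .nil)) (.node (.node (.node .leaf (nat_lit 24195157149412634) (.br (nat_lit 2) (.cons (.br (nat_lit 3) (.cons (.rel (nat_lit 335610948)) .nil)) .nil)) .leaf) (nat_lit 24195787336728586) (.br (nat_lit 1) (.cons (.br (nat_lit 2) (.cons (.rel (nat_lit 83890185)) .nil)) .nil)) (.node .leaf (nat_lit 24195787339523425) (.br (nat_lit 0) (.cons (.br (nat_lit 1) (.cons (.rel (nat_lit 41944320)) .nil)) .nil)) .leaf)) (nat_lit 24197048170958858) (.br (nat_lit 3) (.cons (.br (nat_lit 6) (.cons (.rel (nat_lit 34896613401)) .nil)) .nil)) (.node (.node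 .leaf (nat_lit 24197083970619402) (.br (nat_lit 1) (.cons (.br (nat_lit 2) (.cons (.rel (nat_lit 83903490)) .nil)) .nil)) .leaf) (nat_lit 24202235834564785) (.br (nat_lit 0) (.cons (.br (nat_lit 1) (.cons (.rel (nat_lit 20974080)) .nil)) .nil)) .leaf)))

/-- refutations 87 -/
def e87 : EX := (.node (.node (.node (.node (.node .leaf (nat_lit 24312464434845706) (.br (nat_lit 0) (.cons (.br (nat_lit 3) (.cons (.rel (nat_lit 272662596)) .nil)) .nil)) .leaf) (nat_lit 24312464434846606) (.br (nat_lit 3) (.cons (.br (nat_lit 0) (.cons (.rel (nat_lit 272638032)) (.cons (.rel (nat_lit 272761920)) .nil))) .nil)) .leaf) (nat_lit 24312464434847131) (.br (nat_lit 0) (.cons (.br (nat_lit 1) (.cons (.rel (nat_lit 41959440)) (.cons (.rel (nat_lit 21004320)) .nil))) .nil)) (.node .leaf (nat_lit 24312464435067061) (.br (nat_lit 0) (.cons (.br (nat_lit 1) (.cons (.rel (nat_lit 21038337)) .nil)) .nil)) .leaf)) (nat_lit 24312464436450586) (.br (nat_lit 3) (.cons (.br (nat_lit 1) (.cons (.rel (nat_lit 285212709)) (.cons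 (.rel (nat_lit 285214728)) .nil))) .nil)) (.node (.node (.node .leaf (nat_lit 24312464436689806) (.br (nat_lit 1) (.cons (.br (nat_lit 3) (.cons (.rel (nat_lit 285214728)) .nil)) .nil)) .leaf) (nat_lit 24312464437917856) (.br (nat_lit 1) (.cons (.br (nat_lit 3) (.cons (.rel (nat_lit 285278736)) .nil)) .nil)) .leaf) (nat_lit 24312621344065546) (.br (nat_lit 0) (.cons (.br (nat_lit 3) (.cons (.rel (nat_lit 272662596)) .nil)) .nil)) (.node .leaf (nat_lit 24312831270210821) (.br (nat_lit 0) (.cons (.br (nat_lit 1) (.cons (.rel (nat_lit 21004320)) .nil)) .nil)) .leaf))) (nat_lit 24312831271438346) (.br (nat_lit 1) (.cons (.br (nat_lit 2) (.cons (.rel (nat_lit 100679748)) .nil)) .nil)) (.node (.node (.node (.node .leaf (nat_lit 24315078875797514) (.br (nat_lit 0) (.cons (.br (nat_lit 3) (.cons (.rel (nat_lit 272630337)) .nil)) .nil)) .leaf) (nat_lit 24317985230929930) (.br (nat_lit 0) (.cons (.br (nat_lit 1) (.cons (.rel (nat_lit 21004320)) .nil)) .nil)) .leaf) (nat_lit 24317985230966021) (.br (nat_lit 0)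 (.cons (.br (nat_lit 1) (.cons (.rel (nat_lit 20992020)) .nil)) .nil)) (.node .leaf (nat_lit 24317985232193546) (.br (nat_lit 1) (.cons (.br (nat_lit 2) (.cons (.rel (nat_lit 83902485)) .nil)) .nil)) .leaf)) (nat_lit 24318259496296458) (.br (nat_lit 3) (.cons (.br (nat_lit 4) (.cons (.rel (nat_lit 1342836768)) .nil)) .nil)) (.node (.node .leaf (nat_lit 24318259496297950) (.br (nat_lit 1) (.cons (.br (nat_lit 6) (.cons (.rel (nat_lit 34393293120)) .nil)) .nil)) .leaf) (nat_lit 24318259496503306) (.br (nat_lit 1) (.cons (.br (nat_lit 0) (.cons (.rel (nat_lit 20974080)) (.cons (.rel (nat_lit 41944320)) .nil))) .nil)) (.node .leaf (nat_lit 24318262626805770) (.br (nat_lit 3) (.cons (.br (nat_lit 4) (.cons (.rel (nat_lit 1342181442)) .nil)) .nil)) .leaf))))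

/-- refutations 88 -/
def e88 : EX := (.node (.node (.node (.node (.node .leaf (nat_lit 24318903740062456) (.br (nat_lit 0) (.cons (.br (nat_lit 1) (.cons (.rel (nat_lit 20974080)) .nil)) .nil)) .leaf) (nat_lit 24318903740062606) (.br (nat_lit 0) (.cons (.br (nat_lit 3) (.cons (.rel (nat_lit 272662596)) .nil)) .nil)) .leaf) (nat_lit 24320193490024600) (.br (nat_lit 0) (.cons (.br (nat_lit 4) (.cons (.rel (nat_lit 1080037380)) .nil)) .nil)) (.node .leaf (nat_lit 24320193491681911) (.br (nat_lit 1) (.cons (.br (nat_lit 5) (.cons (.rel (nat_lit 4311810180)) .nil)) .nil)) .leaf)) (nat_lit 24320237863223327) (.br (nat_lit 0) (.cons (.br (nat_lit 1) (.cons (.rel (nat_lit 41947140)) .nil)) .nil)) (.node (.node .leaf (nat_lit 24323233679686263) (.br (nat_lit 0) (.cons (.br (nat_lit 1) (.cons (.rel (nat_lit 41947140)) .nil)) .nil)) .leaf) (nat_lit 24323233682604213) (.br (nat_lit 1) (.cons (.br (nat_lit 2) (.cons (.rel (nat_lit 83890185)) .nil)) .nil)) (.node .leaf (nat_lit 24323235747478135) (.br (nat_lit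 3) (.cons (.br (nat_lit 1) (.cons (.rel (nat_lit 285212709)) (.cons (.rel (nat_lit 285237249)) .nil))) .nil)) .leaf))) (nat_lit 24323235748750564) (.br (nat_lit 0) (.cons (.br (nat_lit 1) (.cons (.rel (nat_lit 20974080)) .nil)) .nil)) (.node (.node (.node (.node .leaf (nat_lit 24323665693082285) (.br (nat_lit 0) (.cons (.br (nat_lit 1) (.cons (.rel (nat_lit 21037332)) .nil)) .nil)) .leaf) (nat_lit 24323671768893450) (.br (nat_lit 0) (.cons (.br (nat_lit 1) (.cons (.rel (nat_lit 37830720)) .nil)) .nil)) .leaf) (nat_lit 24324221523447818) (.br (nat_lit 1) (.cons (.br (nat_lit 3) (.cons (.rel (nat_lit 285212709)) .nil)) .nil)) (.node .leaf (nat_lit 24324221525022872) (.br (nat_lit 2) (.cons (.br (nat_lit 3) (.cons (.rel (nat_lit 335544672)) .nil)) .nil)) .leaf)) (nat_lit 24325812652665463) (.br (nat_lit 0) (.cons (.br (nat_lit 2) (.cons (.rel (nat_lit 138429444)) (.cons (.rel (nat_lit 142868736)) .nil))) .nil)) (.node (.node .leaf (nat_lit 24325812655276663) (.br (nat_lit 0) (.cons (.br (nat_lit 2) (.cons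 (.rel (nat_lit 138416130)) .nil)) .nil)) .leaf) (nat_lit 24325813196273674) (.br (nat_lit 1) (.cons (.br (nat_lit 4) (.cons (.rel (nat_lit 1090536480)) .nil)) .nil)) (.node .leaf (nat_lit 24325813196273824) (.br (nat_lit 1) (.cons (.br (nat_lit 3) (.cons (.rel (nat_lit 285231621)) .nil)) .nil)) .leaf))))

/-- refutations 89 -/
def e89 : EX := (.node (.node (.node (.node .leaf (nat_lit 24646741220635299) (.br (nat_lit 2) (.cons (.br (nat_lit 5) (.cons (.rel (nat_lit 4362080517)) .nil)) .nil)) .leaf) (nat_lit 24646741222022507) (.br (nat_lit 2) (.cons (.br (nat_lit 5) (.cons (.rel (nat_lit 8659140864)) .nil)) .nil)) (.node .leaf (nat_lit 24648843229639441) (.br (nat_lit 0) (.cons (.br (nat_lit 1) (.cons (.rel (nat_lit 21038337)) .nil)) .nil)) .leaf)) (nat_lit 24648846259579640) (.br (nat_lit 3) (.cons (.br (nat_lit 4) (.cons (.rel (nat_lit 1610614017)) .nil)) .nil)) (.node (.node .leaf (nat_lit 24648846259579655) (.br (nat_lit 0) (.cons (.br (nat_lit 1) (.cons (.rel (nat_lit 21037332)) .nil)) .nil)) .leaf)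 (nat_lit 24652030166770420) (.br (nat_lit 1) (.cons (.br (nat_lit 2) (.cons (.rel (nat_lit 167841792)) .nil)) .nil)) (.node .leaf (nat_lit 24652107515381822) (.br (nat_lit 0) (.cons (.br (nat_lit 2) (.cons (.rel (nat_lit 71303268)) .nil)) .nil)) .leaf))) (nat_lit 24652554081383075) (.br (nat_lit 2) (.cons (.br (nat_lit 4) (.cons (.rel (nat_lit 1140856146)) .nil)) .nil)) (.node (.node (.node .leaf (nat_lit 24652554081383185) (.br (nat_lit 2) (.cons (.br (nat_lit 4) (.cons (.rel (nat_lit 1207961604)) (.cons (.rel (nat_lit 2214592530)) .nil))) .nil)) .leaf) (nat_lit 24652554673128304) (.br (nat_lit 1) (.cons (.br (nat_lit 3) (.cons (.rel (nat_lit 570426372)) .nil)) .nil)) (.node .leaf (nat_lit 24652560229200058) (.br (nat_lit 2) (.cons (.br (nat_lit 5) (.cons (.rel (nat_lit 4362096642)) .nil)) .nil)) .leaf)) (nat_lit 24652560229578753) (.br (nat_lit 2) (.cons (.br (nat_lit 6) (.cons (.rel (nat_lit 17246978058)) .nil)) .nil)) (.node (.node .leaf (nat_lit 24652560230232849) (.br (nat_lit 2) (.cons (.br (nat_lit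 0) (.cons (.rel (nat_lit 75628548)) (.cons (.rel (nat_lit 138477576)) (.cons (.rel (nat_lit 73405440)) .nil)))) .nil)) .leaf) (nat_lit 24652560230233621) (.br (nat_lit 2) (.cons (.br (nat_lit 5) (.cons (.rel (nat_lit 4362158088)) (.cons (.rel (nat_lit 4362096642)) .nil))) .nil)) .leaf)))

/-- refutations 90 -/
def e90 : EX := (.node (.node (.node .leaf (nat_lit 24657701975948541) (.br (nat_lit 2) (.cons (.br (nat_lit 5) (.cons (.rel (nat_lit 4362076692)) .nil)) .nil)) .leaf) (nat_lit 24657705328680174) (.br (nat_lit 1) (.cons (.br (nat_lit 2) (.cons (.rel (nat_lit 83903490)) .nil)) .nil)) (.node .leaf (nat_lit 24658733272899048) (.br (nat_lit 0) (.cons (.br (nat_lit 5) (.cons (.rel (nat_lit 8594129232)) .nil)) .nil)) .leaf)) (nat_lit 24658733273922967) (.br (nat_lit 0) (.cons (.br (nat_lit 1) (.cons (.rel (nat_lit 20979720)) .nil)) .nil)) (.node (.node .leaf (nat_lit 24658733274222046) (.br (nat_lit 0) (.cons (.br (nat_lit 1) (.cons (.rel (nat_lit 41944320)) .nil)) .nil)) .leaf) (nat_lit 24658733274295774)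 (.br (nat_lit 0) (.cons (.br (nat_lit 1) (.cons (.rel (nat_lit 26215440)) .nil)) .nil)) (.node .leaf (nat_lit 24659976896360729) (.br (nat_lit 2) (.cons (.br (nat_lit 4) (.cons (.rel (nat_lit 2214597120)) .nil)) .nil)) .leaf)))

/-- refutations 91 -/
def e91 : EX := (.node (.node (.node .leaf (nat_lit 24752638437960561) (.br (nat_lit 0) (.cons (.br (nat_lit 2) (.cons (.rel (nat_lit 142868736)) .nil)) .nil)) .leaf) (nat_lit 24752638559507342) (.br (nat_lit 0) (.cons (.br (nat_lit 1) (.cons (.rel (nat_lit 20979720)) .nil)) .nil)) .leaf) (nat_lit 24754880531150858) (.br (nat_lit 0) (.cons (.br (nat_lit 1) (.cons (.rel (nat_lit 20974080)) .nil)) .nil)) (.node .leaf (nat_lit 24760247039633418) (.br (nat_lit 2) (.cons (.br (nat_lit 3) (.cons (.rel (nat_lit 336871440)) .nil)) .nil)) .leaf))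

/-- refutations 92 -/
def e92 : EX := (.node (.node (.node .leaf (nat_lit 25069143167900954) (.br (nat_lit 0) (.cons (.br (nat_lit 6) (.cons (.rel (nat_lit 17184064773)) .nil)) .nil)) .leaf) (nat_lit 25069299885142072) (.br (nat_lit 0) (.cons (.br (nat_lit 1) (.cons (.rel (nat_lit 20989200)) .nil)) .nil)) .leaf) (nat_lit 25071073250781365) (.br (nat_lit 0) (.cons (.br (nat_lit 1) (.cons (.rel (nat_lit 41944320)) .nil)) .nil)) (.node (.node .leaf (nat_lit 25074449096654904) (.br (nat_lit 2) (.cons (.br (nat_lit 3) (.cons (.rel (nat_lit 336068616)) .nil)) .nil)) .leaf) (nat_lit 25074449096859658) (.br (nat_lit 0) (.cons (.br (nat_lit 1) (.cons (.rel (nat_lit 20989200)) .nil)) .nil)) .leaf))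

/-- refutations 93 -/
def e93 : EX := (.node .leaf (nat_lit 25097294584265964) (.br (nat_lit 0) (.cons (.br (nat_lit 1) (.cons (.rel (nat_lit 41944320)) .nil)) .nil)) .leaf)

/-- refutations 94 -/
def e94 : EX := (.node (.node (.node (.node .leaf (nat_lit 25104359801529122) (.br (nat_lit 1) (.cons (.br (nat_lit 3) (.cons (.rel (nat_lit 570426372)) .nil)) .nil)) .leaf) (nat_lit 25104359803586570) (.br (nat_lit 1) (.cons (.br (nat_lit 2) (.cons (.rel (nat_lit 83952672)) .nil)) .nil)) .leaf) (nat_lit 25104364016515733) (.br (nat_lit 0) (.cons (.br (nat_lit 3) (.cons (.rel (nat_lit 274726914)) .nil)) .nil)) (.node .leaf (nat_lit 25106240657017634) (.br (nat_lit 2) (.cons (.br (nat_lit 3) (.cons (.rel (nat_lit 672137490)) .nil)) .nil)) .leaf)) (nat_lit 25106245214986250) (.br (nat_lit 2) (.cons (.br (nat_lit 6) (.cons (.rel (nat_lit 17247109392)) .nil)) .nil)) (.node (.node (.node .leaf (nat_lit 25106246445157232) (.br (nat_lit 2) (.cons (.br (nat_lit 4) (.cons (.rel (nat_lit 1140920400)) .nil)) .nil))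 .leaf) (nat_lit 25115325779923225) (.br (nat_lit 0) (.cons (.br (nat_lit 1) (.cons (.rel (nat_lit 41947140)) .nil)) .nil)) .leaf) (nat_lit 25115326006020106) (.br (nat_lit 0) (.cons (.br (nat_lit 2) (.cons (.rel (nat_lit 138477576)) (.cons (.rel (nat_lit 73405440)) .nil))) (.cons (.br (nat_lit 2) (.cons (.rel (nat_lit 142868736)) (.cons (.rel (nat_lit 71327808)) .nil))) .nil))) (.node .leaf (nat_lit 25116136603912499) (.br (nat_lit 1) (.cons (.br (nat_lit 0) (.cons (.rel (nat_lit 20976900)) (.cons (.rel (nat_lit 21037332)) .nil))) .nil)) .leaf)))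

/-- refutations 96 -/
def e96 : EX := (.node (.node (.node .leaf (nat_lit 25262442466004250) (.br (nat_lit 2) (.cons (.br (nat_lit 3) (.cons (.rel (nat_lit 402670848)) .nil)) .nil)) .leaf) (nat_lit 25267811776153610) (.br (nat_lit 1) (.cons (.br (nat_lit 6) (.cons (.rel (nat_lit 17196908580)) .nil)) .nil)) .leaf) (nat_lit 25275361726040974) (.br (nat_lit 3) (.cons (.br (nat_lit 5) (.cons (.rel (nat_lit 4563407880)) .nil)) .nil)) (.node (.node .leaf (nat_lit 25275790698799789) (.br (nat_lit 1) (.cons (.br (nat_lit 2) (.cons (.br (nat_lit 6) (.cons (.rel (nat_lit 34376581128)) (.cons (.rel (nat_lit 17247051780)) (.cons (.rel (nat_lit 17213554692)) .nil)))) .nil)) .nil)) .leaf) (nat_lit 25275790701166768) (.br (nat_lit 0) (.cons (.br (nat_lit 2) (.cons (.rel (nat_lit 142868736)) .nil)) .nil)) .leaf))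

/-- refutations 97 -/
def e97 : EX := (.node (.node (.node .leaf (nat_lit 26390487834858224) (.br (nat_lit 0) (.cons (.br (nat_lit 2) (.cons (.rel (nat_lit 142868736)) .nil)) .nil)) .leaf) (nat_lit 26390487835052817) (.br (nat_lit 2) (.cons (.br (nat_lit 3) (.cons (.rel (nat_lit 671350788)) .nil)) .nil)) (.node .leaf (nat_lit 26390489854967020) (.br (nat_lit 1) (.cons (.br (nat_lit 2) (.cons (.rel (nat_lit 83903490)) .nil)) .nil)) .leaf)) (nat_lit 26390489977871088) (.br (nat_lit 0) (.cons (.br (nat_lit 4) (.cons (.rel (nat_lit 2151678240)) .nil)) .nil)) (.node (.node .leaf (nat_lit 26393650953924760) (.br (nat_lit 0) (.cons (.br (nat_lit 1) (.cons (.rel (nat_lit 26297604)) .nil)) .nil)) .leaf) (nat_lit 26393958166846720) (.br (nat_lit 0) (.cons (.br (nat_lit 4) (.cons (.rel (nat_lit 1077937218)) .nil)) .nil)) .leaf))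

/-- refutations 98 -/
def e98 : EX := (.node (.node (.node (.node (.node .leaf (nat_lit 26394999570584304) (.br (nat_lit 0) (.cons (.br (nat_lit 2) (.cons (.rel (nat_lit 138412305)) .nil)) .nil)) .leaf) (nat_lit 26394999570586361) (.br (nat_lit 2) (.cons (.br (nat_lit 3) (.cons (.rel (nat_lit 603996192)) (.cons (.rel (nat_lit 402673668)) .nil))) .nil)) .leaf) (nat_lit 26394999570586375) (.br (nat_lit 2) (.cons (.br (nat_lit 3) (.cons (.rel (nat_lit 603996192)) (.cons (.rel (nat_lit 335544672)) .nil))) .nil)) (.node (.node .leaf (nat_lit 26394999570615033) (.br (nat_lit 0) (.cons (.br (nat_lit 2) (.cons (.rel (nat_lit 75628548)) (.cons (.rel (nat_lit 71827968)) .nil))) .nil)) .leaf) (nat_lit 26394999570615047) (.br (nat_lit 2) (.cons (.br (nat_lit 3) (.cons (.rel (nat_lit 603996192)) .nil)) .nil)) .leaf)) (nat_lit 26394999570680569) (.br (nat_lit 2) (.cons (.br (nat_lit 3) (.cons (.rel (nat_lit 603996192)) .nil)) .nil)) (.node (.node (.node .leaf (nat_lit 26394999570680583) (.br (nat_lit 2) (.cons (.br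 (nat_lit 0) (.cons (.rel (nat_lit 75628548)) (.cons (.rel (nat_lit 72614916)) .nil))) .nil)) .leaf) (nat_lit 26394999573711658) (.br (nat_lit 2) (.cons (.br (nat_lit 3) (.cons (.rel (nat_lit 603981072)) .nil)) .nil)) .leaf) (nat_lit 26395002812877561) (.br (nat_lit 2) (.cons (.br (nat_lit 3) (.cons (.rel (nat_lit 603996192)) .nil)) .nil)) (.node (.node .leaf (nat_lit 26395002842172153) (.br (nat_lit 0) (.cons (.br (nat_lit 1) (.cons (.rel (nat_lit 20974080)) .nil)) .nil)) .leaf) (nat_lit 26395796415918090) (.br (nat_lit 1) (.cons (.br (nat_lit 3) (.cons (.br (nat_lit 0) (.cons (.rel (nat_lit 272662596)) (.cons (.rel (nat_lit 273219588)) .nil))) .nil)) .nil)) .leaf))) (nat_lit 26395798437115914) (.br (nat_lit 0) (.cons (.br (nat_lit 2) (.cons (.rel (nat_lit 71303268)) .nil)) .nil)) (.node (.node (.node (.node .leaf (nat_lit 26399112127600926) (.br (nat_lit 2) (.cons (.br (nat_lit 3) (.cons (.rel (nat_lit 335544672)) .nil)) .nil)) .leaf) (nat_lit 26399112127601897) (.br (nat_lit 0) (.cons (.br (nat_lit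 2) (.cons (.rel (nat_lit 75501840)) .nil)) .nil)) .leaf) (nat_lit 26399112127693056) (.br (nat_lit 1) (.cons (.br (nat_lit 3) (.cons (.rel (nat_lit 285540420)) .nil)) .nil)) (.node (.node .leaf (nat_lit 26399112128983071) (.br (nat_lit 2) (.cons (.br (nat_lit 4) (.cons (.rel (nat_lit 2214592530)) .nil)) .nil)) .leaf) (nat_lit 26399112130726144) (.br (nat_lit 2) (.cons (.br (nat_lit 3) (.cons (.rel (nat_lit 336068616)) .nil)) .nil)) .leaf)) (nat_lit 26399114149509130) (.br (nat_lit 1) (.cons (.br (nat_lit 3) (.cons (.rel (nat_lit 285214728)) .nil)) .nil)) (.node (.node (.node .leaf (nat_lit 26400400619579423) (.br (nat_lit 2) (.cons (.br (nat_lit 6) (.cons (.rel (nat_lit 17246979108)) .nil)) .nil)) .leaf) (nat_lit 26400400619665418) (.br (nat_lit 2) (.cons (.br (nat_lit 3) (.cons (.rel (nat_lit 402670848)) .nil)) .nil)) .leaf) (nat_lit 26400581008291850) (.br (nat_lit 4) (.cons (.br (nat_lit 6) (.cons (.rel (nat_lit 18253613058)) .nil)) .nil)) (.node (.node .leaf (nat_lit 26401268204048640) (.br (nat_lit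 1) (.cons (.br (nat_lit 3) (.cons (.rel (nat_lit 285312000)) .nil)) .nil)) .leaf) (nat_lit 26401639713279503) (.br (nat_lit 0) (.cons (.br (nat_lit 4) (.cons (.rel (nat_lit 1082130960)) (.cons (.rel (nat_lit 1078002240)) .nil))) .nil)) .leaf))))

/-- refutations 99 -/
def e99 : EX := (.node (.node (.node .leaf (nat_lit 25281483409513134) (.br (nat_lit 0) (.cons (.br (nat_lit 1) (.cons (.rel (nat_lit 41947140)) .nil)) .nil)) .leaf) (nat_lit 25282119406710111) (.br (nat_lit 0) (.cons (.br (nat_lit 3) (.cons (.rel (nat_lit 276890640)) .nil)) .nil)) .leaf) (nat_lit 25290803830795546) (.br (nat_lit 0) (.cons (.br (nat_lit 1) (.cons (.rel (nat_lit 41947140)) .nil)) .nil)) (.node .leaf (nat_lit 25292859968338107) (.br (nat_lit 1) (.cons (.br (nat_lit 2) (.cons (.rel (nat_lit 83887365)) .nil)) .nil)) .leaf))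

/-- refutations 100 -/
def e100 : EX := (.node (.node (.node .leaf (nat_lit 26513575027727642) (.br (nat_lit 0) (.cons (.br (nat_lit 1) (.cons (.rel (nat_lit 38011008)) .nil)) .nil)) .leaf) (nat_lit 26513575029526830) (.br (nat_lit 5) (.cons (.br (nat_lit 1) (.cons (.rel (nat_lit 4312039428)) (.cons (.rel (nat_lit 4312014864)) .nil))) .nil)) (.node .leaf (nat_lit 26513575030745098) (.br (nat_lit 1) (.cons (.br (nat_lit 3) (.cons (.rel (nat_lit 285312000)) .nil)) .nil)) .leaf)) (nat_lit 26513882273034992) (.br (nat_lit 0) (.cons (.br (nat_lit 2) (.cons (.rel (nat_lit 71827968)) .nil)) .nil)) (.node (.node .leaf (nat_lit 26513882274326538) (.br (nat_lit 0) (.cons (.br (nat_lit 3) (.cons (.rel (nat_lit 272761920)) .nil)) .nil)) .leaf) (nat_lit 26513882274835213) (.br (nat_lit 4) (.cons (.br (nat_lit 3) (.cons (.rel (nat_lit 1610613012)) (.cons (.rel (nat_lit 1342181442)) .nil))) .nil)) (.node .leaf (nat_lit 26513882274835242) (.br (nat_lit 1) (.cons (.br (nat_lit 2) (.cons (.rel (nat_lit 101188608)) (.cons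 (.rel (nat_lit 83892240)) .nil))) (.cons (.br (nat_lit 3) (.cons (.rel (nat_lit 285213714)) (.cons (.rel (nat_lit 285312000)) .nil))) .nil))) .leaf)))

/-- refutations 101 -/
def e101 : EX := (.node (.node (.node (.node (.node .leaf (nat_lit 26517962491966192) (.br (nat_lit 0) (.cons (.br (nat_lit 4) (.cons (.rel (nat_lit 1080034560)) (.cons (.rel (nat_lit 1077936213)) .nil))) (.cons (.br (nat_lit 2) (.cons (.rel (nat_lit 71827968)) (.cons (.rel (nat_lit 71827968)) .nil))) .nil))) .leaf) (nat_lit 26517962491966250) (.br (nat_lit 3) (.cons (.br (nat_lit 4) (.cons (.rel (nat_lit 1342703616)) .nil)) .nil)) (.node .leaf (nat_lit 26517964484260590) (.br (nat_lit 2) (.cons (.br (nat_lit 4) (.cons (.rel (nat_lit 1140859968)) (.cons (.rel (nat_lit 1140859968)) .nil))) .nil)) .leaf)) (nat_lit 26517964484260650) (.br (nat_lit 3) (.cons (.br (nat_lit 4) (.cons (.rel (nat_lit 1342181442)) .nil)) .nil)) (.node (.node .leaf (nat_lit 26517964484262638) (.br (nat_lit 1) (.cons (.br (nat_lit 2) (.cons (.rel (nat_lit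 152059905)) (.cons (.rel (nat_lit 84935748)) (.cons (.rel (nat_lit 83902485)) .nil)))) (.cons (.br (nat_lit 3) (.cons (.rel (nat_lit 285312000)) (.cons (.rel (nat_lit 570426372)) (.cons (.rel (nat_lit 285312000)) .nil)))) (.cons (.br (nat_lit 2) (.cons (.rel (nat_lit 83890185)) (.cons (.rel (nat_lit 84935748)) (.cons (.rel (nat_lit 83902485)) .nil)))) .nil)))) .leaf) (nat_lit 26517964484262670) (.br (nat_lit 2) (.cons (.br (nat_lit 4) (.cons (.rel (nat_lit 2214593544)) (.cons (.rel (nat_lit 1140859968)) .nil))) .nil)) (.node .leaf (nat_lit 26517964484319984) (.br (nat_lit 2) (.cons (.br (nat_lit 3) (.cons (.rel (nat_lit 335548497)) (.cons (.rel (nat_lit 335544672)) .nil))) (.cons (.br (nat_lit 3) (.cons (.rel (nat_lit 335610948)) (.cons (.rel (nat_lit 335562816)) .nil))) .nil))) .leaf))) (nat_lit 26517964484320509) (.br (nat_lit 2) (.cons (.br (nat_lit 3) (.cons (.rel (nat_lit 335548497)) .nil)) .nil)) (.node (.node (.node .leaf (nat_lit 26517964487119104) (.br (nat_lit 1) (.cons (.br (nat_lit 2) (.cons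 (.rel (nat_lit 83952672)) .nil)) .nil)) .leaf) (nat_lit 26517964487119658) (.br (nat_lit 1) (.cons (.br (nat_lit 2) (.cons (.rel (nat_lit 84148800)) .nil)) .nil)) (.node .leaf (nat_lit 26517964487321610) (.br (nat_lit 2) (.cons (.br (nat_lit 4) (.cons (.rel (nat_lit 1140851268)) .nil)) .nil)) .leaf)) (nat_lit 26517964487442442) (.br (nat_lit 5) (.cons (.br (nat_lit 3) (.cons (.rel (nat_lit 4563568656)) (.cons (.rel (nat_lit 4563468312)) (.cons (.rel (nat_lit 4563411456)) .nil)))) .nil)) (.node (.node .leaf (nat_lit 26517964487442459) (.br (nat_lit 3) (.cons (.br (nat_lit 5) (.cons (.rel (nat_lit 4563411456)) (.cons (.rel (nat_lit 9126809856)) .nil))) (.cons (.br (nat_lit 4) (.cons (.rel (nat_lit 1342194756)) (.cons (.rel (nat_lit 1342703616)) .nil))) .nil))) .leaf) (nat_lit 26517966686270746) (.br (nat_lit 0) (.cons (.br (nat_lit 2) (.cons (.rel (nat_lit 75505665)) .nil)) .nil)) .leaf))) (nat_lit 26517967758999562) (.br (nat_lit 0) (.cons (.br (nat_lit 2) (.cons (.rel (nat_lit 71827968)) .nil)) .nil))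 (.node (.node (.node (.node .leaf (nat_lit 26518081788012051) (.br (nat_lit 0) (.cons (.br (nat_lit 1) (.cons (.rel (nat_lit 41959440)) .nil)) .nil)) .leaf) (nat_lit 26518082872744717) (.br (nat_lit 2) (.cons (.br (nat_lit 3) (.cons (.rel (nat_lit 671350788)) .nil)) .nil)) (.node .leaf (nat_lit 26518082872744746) (.br (nat_lit 3) (.cons (.br (nat_lit 4) (.cons (.rel (nat_lit 1610629137)) .nil)) .nil)) .leaf)) (nat_lit 26518084864967417) (.br (nat_lit 2) (.cons (.br (nat_lit 3) (.cons (.rel (nat_lit 335544672)) .nil)) .nil)) (.node (.node .leaf (nat_lit 26518084864979725) (.br (nat_lit 3) (.cons (.br (nat_lit 4) (.cons (.rel (nat_lit 1342181442)) .nil)) .nil)) .leaf) (nat_lit 26518084865073962) (.br (nat_lit 3) (.cons (.br (nat_lit 2) (.cons (.rel (nat_lit 671350788)) (.cons (.rel (nat_lit 335562816)) .nil))) .nil)) (.node .leaf (nat_lit 26518084868161592) (.br (nat_lit 4) (.cons (.br (nat_lit 2) (.cons (.rel (nat_lit 1208107008)) (.cons (.rel (nat_lit 1141379073)) (.cons (.rel (nat_lit 2282033160))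 .nil)))) .nil)) .leaf))) (nat_lit 26522162969981680) (.br (nat_lit 1) (.cons (.br (nat_lit 2) (.cons (.rel (nat_lit 83903490)) .nil)) .nil)) (.node (.node (.node .leaf (nat_lit 26522162969981738) (.br (nat_lit 1) (.cons (.br (nat_lit 3) (.cons (.rel (nat_lit 285214728)) .nil)) .nil)) .leaf) (nat_lit 26522688948273913) (.br (nat_lit 0) (.cons (.br (nat_lit 1) (.cons (.rel (nat_lit 20976900)) .nil)) .nil)) (.node .leaf (nat_lit 26522688948286192) (.br (nat_lit 3) (.cons (.br (nat_lit 4) (.cons (.rel (nat_lit 1343226000)) .nil)) .nil)) .leaf)) (nat_lit 26523760699616042) (.br (nat_lit 1) (.cons (.br (nat_lit 3) (.cons (.rel (nat_lit 301990977)) .nil)) .nil)) (.node (.node .leaf (nat_lit 26523760699616767) (.br (nat_lit 1) (.cons (.br (nat_lit 3) (.cons (.rel (nat_lit 285213714)) .nil)) .nil)) .leaf) (nat_lit 26523760700365610) (.br (nat_lit 3) (.cons (.br (nat_lit 4) (.cons (.rel (nat_lit 1342703616)) .nil)) .nil)) .leaf))))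

/-- refutations 103 -/
def e103 : EX := (.node (.node (.node (.node .leaf (nat_lit 27022081977247208) (.br (nat_lit 1) (.cons (.br (nat_lit 3) (.cons (.rel (nat_lit 285360132)) .nil)) .nil)) .leaf) (nat_lit 27022081978228913) (.br (nat_lit 0) (.cons (.br (nat_lit 2) (.cons (.rel (nat_lit 71327808)) .nil)) .nil)) (.node .leaf (nat_lit 27023960646468219) (.br (nat_lit 0) (.cons (.br (nat_lit 1) (.cons (.rel (nat_lit 20974080)) .nil)) .nil)) .leaf)) (nat_lit 27024023302156298) (.br (nat_lit 2) (.cons (.br (nat_lit 3) (.cons (.rel (nat_lit 335544672)) .nil)) .nil)) (.node (.node .leaf (nat_lit 27024176049391626) (.br (nat_lit 2) (.cons (.br (nat_lit 0) (.cons (.rel (nat_lit 138429444)) (.cons (.rel (nat_lit 138477576)) (.cons (.rel (nat_lit 138416130)) .nil)))) .nil)) .leaf) (nat_lit 27024176049391672) (.br (nat_lit 2) (.cons (.br (nat_lit 3) (.cons (.rel (nat_lit 672141312)) .nil)) .nil)) (.node .leaf (nat_lit 27024176050841656) (.br (nat_lit 2) (.cons (.br (nat_lit 4) (.cons (.rel (nat_lit 2214690816))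 .nil)) .nil)) .leaf))) (nat_lit 27024176050842410) (.br (nat_lit 4) (.cons (.br (nat_lit 5) (.cons (.rel (nat_lit 5368774944)) (.cons (.rel (nat_lit 5368741896)) (.cons (.rel (nat_lit 5368793088)) (.cons (.rel (nat_lit 5368774944)) .nil))))) (.cons (.br (nat_lit 5) (.cons (.rel (nat_lit 5368741896)) (.cons (.rel (nat_lit 5368793088)) (.cons (.rel (nat_lit 5368718337)) (.cons (.rel (nat_lit 5368741896)) .nil))))) .nil))) (.node (.node (.node .leaf (nat_lit 27024270521639693) (.br (nat_lit 1) (.cons (.br (nat_lit 3) (.cons (.rel (nat_lit 570426372)) .nil)) .nil)) .leaf) (nat_lit 27024270521808906) (.br (nat_lit 0) (.cons (.br (nat_lit 2) (.cons (.rel (nat_lit 72614916)) .nil)) .nil)) (.node .leaf (nat_lit 27024270521808923) (.br (nat_lit 0) (.cons (.br (nat_lit 4) (.cons (.rel (nat_lit 1079246856)) .nil)) .nil)) .leaf)) (nat_lit 27027277015693322) (.br (nat_lit 0) (.cons (.br (nat_lit 3) (.cons (.rel (nat_lit 541134864)) .nil)) .nil)) (.node (.node .leaf (nat_lit 27027277018083359) (.br (nat_lit 2) (.cons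 (.br (nat_lit 3) (.cons (.rel (nat_lit 603983892)) .nil)) .nil)) .leaf) (nat_lit 27027459274715946) (.br (nat_lit 1) (.cons (.br (nat_lit 4) (.cons (.rel (nat_lit 1090525185)) .nil)) .nil)) (.node .leaf (nat_lit 27027462108481546) (.br (nat_lit 1) (.cons (.br (nat_lit 5) (.cons (.rel (nat_lit 4328588304)) .nil)) .nil)) .leaf))))

/-- refutations 104 -/
def e104 : EX := (.node (.node (.node (.node .leaf (nat_lit 27028086341262687) (.br (nat_lit 0) (.cons (.br (nat_lit 1) (.cons (.rel (nat_lit 21037332)) .nil)) .nil)) .leaf) (nat_lit 27028137879548714) (.br (nat_lit 3) (.cons (.br (nat_lit 1) (.cons (.rel (nat_lit 570426372)) (.cons (.rel (nat_lit 285278736)) (.cons (.rel (nat_lit 285278736)) (.cons (.rel (nat_lit 285312000)) .nil))))) .nil)) (.node .leaf (nat_lit 27028137879550763) (.br (nat_lit 2) (.cons (.br (nat_lit 3) (.cons (.rel (nat_lit 671350788)) .nil)) .nil)) .leaf)) (nat_lit 27028137879608048) (.br (nat_lit 4) (.cons (.br (nat_lit 3) (.cons (.rel (nat_lit 1342177617)) (.cons (.rel (nat_lit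 2684617728)) .nil))) .nil)) (.node (.node .leaf (nat_lit 27028137879643418) (.br (nat_lit 3) (.cons (.br (nat_lit 5) (.cons (.rel (nat_lit 4563411456)) .nil)) .nil)) .leaf) (nat_lit 27028137882671114) (.br (nat_lit 1) (.cons (.br (nat_lit 3) (.cons (.rel (nat_lit 285312000)) (.cons (.rel (nat_lit 285360132)) (.cons (.rel (nat_lit 570426372)) (.cons (.rel (nat_lit 553914369)) .nil))))) (.cons (.br (nat_lit 4) (.cons (.rel (nat_lit 1090609152)) (.cons (.rel (nat_lit 1090536480)) (.cons (.br (nat_lit 3) (.cons (.rel (nat_lit 570426372)) (.cons (.rel (nat_lit 570426372)) (.cons (.rel (nat_lit 1342703616)) (.cons (.rel (nat_lit 1342703616)) .nil))))) .nil)))) (.cons (.br (nat_lit 4) (.cons (.rel (nat_lit 1090524180)) (.cons (.rel (nat_lit 1090521360)) (.cons (.rel (nat_lit 1090519305)) .nil)))) .nil)))) (.node .leaf (nat_lit 27028137882671131) (.br (nat_lit 4) (.cons (.br (nat_lit 3) (.cons (.rel (nat_lit 2415985920)) (.cons (.rel (nat_lit 1342242888)) .nil))) .nil)) .leaf))) (nat_lit 27028260340642602)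 (.br (nat_lit 3) (.cons (.br (nat_lit 4) (.cons (.rel (nat_lit 1342242888)) (.cons (.rel (nat_lit 1610613012)) .nil))) .nil)) (.node (.node (.node .leaf (nat_lit 27032647093427738) (.br (nat_lit 0) (.cons (.br (nat_lit 2) (.cons (.rel (nat_lit 71304273)) .nil)) .nil)) .leaf) (nat_lit 27033675865064801) (.br (nat_lit 0) (.cons (.br (nat_lit 1) (.cons (.rel (nat_lit 41947140)) .nil)) .nil)) (.node .leaf (nat_lit 27033899838486538) (.br (nat_lit 1) (.cons (.br (nat_lit 3) (.cons (.rel (nat_lit 285214728)) .nil)) .nil)) .leaf)) (nat_lit 27033899856843504) (.br (nat_lit 0) (.cons (.br (nat_lit 3) (.cons (.rel (nat_lit 272761920)) .nil)) .nil)) (.node (.node .leaf (nat_lit 27035016549619722) (.br (nat_lit 2) (.cons (.br (nat_lit 0) (.cons (.rel (nat_lit 138477576)) (.cons (.rel (nat_lit 75505665)) .nil))) .nil)) .leaf) (nat_lit 27035018537719818) (.br (nat_lit 0) (.cons (.br (nat_lit 2) (.cons (.rel (nat_lit 73465872)) .nil)) .nil)) .leaf)))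

/-- refutations 105 -/
def e105 : EX := (.node (.node (.node .leaf (nat_lit 27269281091805944) (.br (nat_lit 0) (.cons (.br (nat_lit 3) (.cons (.rel (nat_lit 276824328)) .nil)) .nil)) .leaf) (nat_lit 27270036949062413) (.br (nat_lit 3) (.cons (.br (nat_lit 4) (.cons (.rel (nat_lit 1342194756)) (.cons (.rel (nat_lit 1610616837)) .nil))) .nil)) (.node .leaf (nat_lit 27270101795703565) (.br (nat_lit 1) (.cons (.br (nat_lit 3) (.cons (.rel (nat_lit 285213714)) .nil)) .nil)) .leaf)) (nat_lit 27270563137089838) (.br (nat_lit 0) (.cons (.br (nat_lit 1) (.cons (.rel (nat_lit 20974080)) .nil)) .nil)) (.node (.node .leaf (nat_lit 27273258233979040) (.br (nat_lit 0) (.cons (.br (nat_lit 3) (.cons (.rel (nat_lit 272761920)) .nil)) .nil)) .leaf) (nat_lit 27273258233980411) (.br (nat_lit 0) (.cons (.br (nat_lit 3) (.cons (.rel (nat_lit 276824328)) .nil)) .nil)) .leaf))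

/-- refutations 106 -/
def e106 : EX := (.node (.node (.node (.node .leaf (nat_lit 27274548864949034) (.br (nat_lit 2) (.cons (.br (nat_lit 3) (.cons (.rel (nat_lit 336871440)) (.cons (.rel (nat_lit 335562816)) .nil))) .nil)) .leaf) (nat_lit 27274548864949484) (.br (nat_lit 2) (.cons (.br (nat_lit 3) (.cons (.rel (nat_lit 335562816)) .nil)) .nil)) .leaf) (nat_lit 27274548867697421) (.br (nat_lit 0) (.cons (.br (nat_lit 1) (.cons (.rel (nat_lit 20993025)) .nil)) .nil)) (.node .leaf (nat_lit 27274548867952650) (.br (nat_lit 2) (.cons (.br (nat_lit 4) (.cons (.rel (nat_lit 1140859968)) (.cons (.rel (nat_lit 1142947845)) .nil))) .nil)) .leaf)) (nat_lit 27274548867952696) (.br (nat_lit 2) (.cons (.br (nat_lit 3) (.cons (.rel (nat_lit 336068616)) .nil)) .nil)) (.node (.node (.node .leaf (nat_lit 27274548867953550) (.br (nat_lit 3) (.cons (.br (nat_lit 4) (.cons (.rel (nat_lit 2415940608)) .nil)) .nil)) .leaf) (nat_lit 27274551967543352) (.br (nat_lit 0) (.cons (.br (nat_lit 3) (.cons (.rel (nat_lit 541065732))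 .nil)) .nil)) .leaf) (nat_lit 27274608977758965) (.br (nat_lit 2) (.cons (.br (nat_lit 3) (.cons (.rel (nat_lit 402915393)) .nil)) .nil)) (.node .leaf (nat_lit 27278901848147978) (.br (nat_lit 2) (.cons (.br (nat_lit 4) (.cons (.rel (nat_lit 1140851268)) .nil)) .nil)) .leaf)))

/-- refutations 107 -/
def e107 : EX := (.node (.node (.node (.node (.node .leaf (nat_lit 27391120648950421) (.br (nat_lit 1) (.cons (.br (nat_lit 2) (.cons (.rel (nat_lit 84025344)) .nil)) .nil)) .leaf) (nat_lit 27391120651274521) (.br (nat_lit 1) (.cons (.br (nat_lit 2) (.cons (.br (nat_lit 3) (.cons (.rel (nat_lit 671350788)) .nil)) .nil)) .nil)) .leaf) (nat_lit 27391125870351121) (.br (nat_lit 0) (.cons (.br (nat_lit 1) (.cons (.rel (nat_lit 20993025)) .nil)) .nil)) (.node (.node .leaf (nat_lit 27391125873438751) (.br (nat_lit 1) (.cons (.br (nat_lit 5) (.cons (.rel (nat_lit 4312793112)) .nil)) .nil)) .leaf) (nat_lit 27392108493539505) (.br (nat_lit 1) (.cons (.br (nat_lit 2) (.cons (.rel (nat_lit 83923200)) .nil)) .nil))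 .leaf)) (nat_lit 27393242364948490) (.br (nat_lit 3) (.cons (.br (nat_lit 1) (.cons (.rel (nat_lit 285312000)) (.cons (.rel (nat_lit 570426372)) .nil))) .nil)) (.node (.node (.node .leaf (nat_lit 27393396641370422) (.br (nat_lit 0) (.cons (.br (nat_lit 3) (.cons (.rel (nat_lit 272638032)) .nil)) .nil)) .leaf) (nat_lit 27393401280270646) (.br (nat_lit 0) (.cons (.br (nat_lit 5) (.cons (.rel (nat_lit 8598324228)) .nil)) .nil)) .leaf) (nat_lit 27393401280271121) (.br (nat_lit 0) (.cons (.br (nat_lit 4) (.cons (.rel (nat_lit 1082212356)) .nil)) .nil)) (.node .leaf (nat_lit 27393401280271613) (.br (nat_lit 0) (.cons (.br (nat_lit 4) (.cons (.rel (nat_lit 1080037380)) .nil)) .nil)) .leaf))) (nat_lit 27393401280330530) (.br (nat_lit 3) (.cons (.br (nat_lit 4) (.cons (.rel (nat_lit 1343504385)) .nil)) .nil)) (.node (.node (.node (.node .leaf (nat_lit 27393401280390380) (.br (nat_lit 0) (.cons (.br (nat_lit 1) (.cons (.rel (nat_lit 41944320)) .nil)) .nil)) .leaf) (nat_lit 27393401282131197) (.br (nat_lit 1)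 (.cons (.br (nat_lit 5) (.cons (.rel (nat_lit 4328527872)) .nil)) .nil)) .leaf) (nat_lit 27393401282165996) (.br (nat_lit 4) (.cons (.br (nat_lit 5) (.cons (.rel (nat_lit 5368741896)) .nil)) .nil)) (.node (.node .leaf (nat_lit 27393401282889905) (.br (nat_lit 1) (.cons (.br (nat_lit 6) (.cons (.rel (nat_lit 17198743617)) .nil)) .nil)) .leaf) (nat_lit 27393401283358722) (.br (nat_lit 3) (.cons (.br (nat_lit 1) (.cons (.rel (nat_lit 570426372)) (.cons (.rel (nat_lit 285218304)) .nil))) .nil)) .leaf)) (nat_lit 27393401283359630) (.br (nat_lit 0) (.cons (.br (nat_lit 5) (.cons (.rel (nat_lit 4299309060)) .nil)) .nil)) (.node (.node (.node .leaf (nat_lit 27393401283360151) (.br (nat_lit 0) (.cons (.br (nat_lit 2) (.cons (.rel (nat_lit 138429444)) (.cons (.rel (nat_lit 73465872)) (.cons (.rel (nat_lit 75628548)) .nil)))) (.cons (.br (nat_lit 1) (.cons (.rel (nat_lit 41944320)) (.cons (.rel (nat_lit 20976900)) (.cons (.rel (nat_lit 20976900)) .nil)))) .nil))) .leaf) (nat_lit 27396403460835380) (.br (nat_lit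 2) (.cons (.br (nat_lit 3) (.cons (.rel (nat_lit 671350788)) .nil)) .nil)) .leaf) (nat_lit 27396403460878346) (.br (nat_lit 2) (.cons (.br (nat_lit 6) (.cons (.rel (nat_lit 17246978058)) .nil)) .nil)) (.node .leaf (nat_lit 27396832956282911) (.br (nat_lit 0) (.cons (.br (nat_lit 2) (.cons (.rel (nat_lit 71827968)) .nil)) .nil)) .leaf))))

/-- refutations 108 -/
def e108 : EX := (.node (.node (.node (.node (.node (.node .leaf (nat_lit 27396898013122570) (.br (nat_lit 1) (.cons (.br (nat_lit 2) (.cons (.rel (nat_lit 83890185)) .nil)) .nil)) .leaf) (nat_lit 27396935697032443) (.br (nat_lit 0) (.cons (.br (nat_lit 1) (.cons (.rel (nat_lit 20989200)) (.cons (.rel (nat_lit 20979720)) .nil))) .nil)) .leaf) (nat_lit 27398001186050804) (.br (nat_lit 3) (.cons (.br (nat_lit 0) (.cons (.rel (nat_lit 272662596)) (.cons (.rel (nat_lit 542130240)) .nil))) .nil)) (.node (.node .leaf (nat_lit 27398001186050833) (.br (nat_lit 3) (.cons (.br (nat_lit 4) (.cons (.rel (nat_lit 1342703616)) .nil)) .nil)) .leaf) (nat_lit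 27398001186110196) (.br (nat_lit 3) (.cons (.br (nat_lit 4) (.cons (.rel (nat_lit 1343226000)) .nil)) .nil)) .leaf)) (nat_lit 27398001186110717) (.br (nat_lit 0) (.cons (.br (nat_lit 1) (.cons (.rel (nat_lit 41947140)) .nil)) .nil)) (.node (.node (.node .leaf (nat_lit 27398001186169142) (.br (nat_lit 0) (.cons (.br (nat_lit 2) (.cons (.rel (nat_lit 75580416)) .nil)) .nil)) .leaf) (nat_lit 27398001187431185) (.br (nat_lit 2) (.cons (.br (nat_lit 5) (.cons (.rel (nat_lit 4362092817)) .nil)) .nil)) .leaf) (nat_lit 27398001187431801) (.br (nat_lit 3) (.cons (.br (nat_lit 0) (.cons (.rel (nat_lit 541065732)) (.cons (.rel (nat_lit 272630337)) (.cons (.rel (nat_lit 272761920)) .nil)))) .nil)) (.node .leaf (nat_lit 27398001187432450) (.br (nat_lit 2) (.cons (.br (nat_lit 4) (.cons (.rel (nat_lit 2214593544)) .nil)) .nil)) .leaf))) (nat_lit 27398001187433879) (.br (nat_lit 0) (.cons (.br (nat_lit 4) (.cons (.rel (nat_lit 1082130960)) (.cons (.rel (nat_lit 2151744516)) .nil))) .nil)) (.node (.node (.node (.node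 .leaf (nat_lit 27398001188669492) (.br (nat_lit 0) (.cons (.br (nat_lit 1) (.cons (.rel (nat_lit 20989200)) .nil)) .nil)) .leaf) (nat_lit 27398001188669617) (.br (nat_lit 1) (.cons (.br (nat_lit 0) (.cons (.rel (nat_lit 20992020)) (.cons (.rel (nat_lit 41944320)) .nil))) .nil)) .leaf) (nat_lit 27398001188882713) (.br (nat_lit 0) (.cons (.br (nat_lit 1) (.cons (.rel (nat_lit 20974080)) .nil)) .nil)) (.node .leaf (nat_lit 27398001188976950) (.br (nat_lit 0) (.cons (.br (nat_lit 1) (.cons (.rel (nat_lit 41944320)) .nil)) .nil)) .leaf)) (nat_lit 27398001188977917) (.br (nat_lit 0) (.cons (.br (nat_lit 3) (.cons (.rel (nat_lit 272638032)) .nil)) .nil)) (.node (.node (.node .leaf (nat_lit 27398001366465268) (.br (nat_lit 0) (.cons (.br (nat_lit 3) (.cons (.rel (nat_lit 272761920)) .nil)) .nil)) .leaf) (nat_lit 27398001366524660) (.br (nat_lit 0) (.cons (.br (nat_lit 4) (.cons (.rel (nat_lit 1082130960)) .nil)) .nil)) .leaf) (nat_lit 27398001367756810) (.br (nat_lit 1) (.cons (.br (nat_lit 0) (.cons (.rel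 (nat_lit 41947140)) (.cons (.rel (nat_lit 26215440)) (.cons (.rel (nat_lit 41944320)) .nil)))) .nil)) (.node .leaf (nat_lit 27398001367756956) (.br (nat_lit 3) (.cons (.br (nat_lit 4) (.cons (.rel (nat_lit 1343504385)) .nil)) .nil)) .leaf)))) (nat_lit 27398001367757556) (.br (nat_lit 3) (.cons (.br (nat_lit 6) (.cons (.rel (nat_lit 34896675840)) .nil)) .nil)) (.node (.node (.node (.node (.node .leaf (nat_lit 27398001367757682) (.br (nat_lit 0) (.cons (.br (nat_lit 1) (.cons (.rel (nat_lit 20974080)) .nil)) .nil)) .leaf) (nat_lit 27398001367758187) (.br (nat_lit 3) (.cons (.br (nat_lit 0) (.cons (.rel (nat_lit 272630337)) (.cons (.rel (nat_lit 272638032)) (.cons (.rel (nat_lit 541065732)) (.cons (.rel (nat_lit 541074432)) .nil))))) .nil)) .leaf) (nat_lit 27398001367785474) (.br (nat_lit 0) (.cons (.br (nat_lit 1) (.cons (.rel (nat_lit 41959440)) .nil)) .nil)) (.node .leaf (nat_lit 27398001367785482) (.br (nat_lit 1) (.cons (.br (nat_lit 2) (.cons (.rel (nat_lit 83902485)) .nil)) .nil)) .leaf)) (nat_lit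 27398001367786257) (.br (nat_lit 0) (.cons (.br (nat_lit 2) (.cons (.rel (nat_lit 73465872)) (.cons (.rel (nat_lit 75628548)) (.cons (.rel (nat_lit 75505665)) .nil)))) .nil)) (.node (.node (.node .leaf (nat_lit 27398001367786274) (.br (nat_lit 3) (.cons (.br (nat_lit 6) (.cons (.rel (nat_lit 17449354560)) (.cons (.rel (nat_lit 34896675840)) .nil))) .nil)) .leaf) (nat_lit 27398001367786859) (.br (nat_lit 5) (.cons (.br (nat_lit 2) (.cons (.rel (nat_lit 4362076692)) (.cons (.rel (nat_lit 8724218880)) .nil))) .nil)) .leaf) (nat_lit 27398001367787530) (.br (nat_lit 1) (.cons (.br (nat_lit 6) (.cons (.rel (nat_lit 17196647040)) .nil)) .nil)) (.node .leaf (nat_lit 27398001367788951) (.br (nat_lit 0) (.cons (.br (nat_lit 4) (.cons (.rel (nat_lit 1082130960)) (.cons (.rel (nat_lit 1082164224)) .nil))) .nil)) .leaf))) (nat_lit 27398001369024672) (.br (nat_lit 0) (.cons (.br (nat_lit 3) (.cons (.rel (nat_lit 273171456)) .nil)) .nil)) (.node (.node (.node (.node .leaf (nat_lit 27398006405117334) (.br (nat_lit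 0) (.cons (.br (nat_lit 3) (.cons (.rel (nat_lit 272630337)) .nil)) .nil)) .leaf) (nat_lit 27398006405144586) (.br (nat_lit 0) (.cons (.br (nat_lit 1) (.cons (.rel (nat_lit 37830720)) .nil)) .nil)) .leaf) (nat_lit 27398006405146006) (.br (nat_lit 0) (.cons (.br (nat_lit 3) (.cons (.rel (nat_lit 273219588)) .nil)) .nil)) (.node .leaf (nat_lit 27398636842741815) (.br (nat_lit 0) (.cons (.br (nat_lit 1) (.cons (.rel (nat_lit 41947140)) .nil)) .nil)) .leaf)) (nat_lit 27399040570755124) (.br (nat_lit 1) (.cons (.br (nat_lit 3) (.cons (.rel (nat_lit 285213714)) .nil)) .nil)) (.node (.node (.node .leaf (nat_lit 27399040570755249) (.br (nat_lit 6) (.cons (.br (nat_lit 1) (.cons (.br (nat_lit 4) (.cons (.rel (nat_lit 18253611048)) (.cons (.rel (nat_lit 1090536480)) .nil))) (.cons (.rel (nat_lit 34393293120)) .nil))) .nil)) .leaf) (nat_lit 27399040571011374) (.br (nat_lit 1) (.cons (.br (nat_lit 2) (.cons (.rel (nat_lit 83923200)) .nil)) .nil)) .leaf) (nat_lit 27399040571310090) (.br (nat_lit 1) (.cons (.br (nat_lit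 2) (.cons (.rel (nat_lit 167841792)) (.cons (.rel (nat_lit 101188608)) .nil))) (.cons (.br (nat_lit 2) (.cons (.rel (nat_lit 83886360)) (.cons (.rel (nat_lit 83887365)) .nil))) .nil))) (.node .leaf (nat_lit 27399042667907249) (.br (nat_lit 2) (.cons (.br (nat_lit 3) (.cons (.rel (nat_lit 603984897)) (.cons (.rel (nat_lit 671350788)) .nil))) .nil)) .leaf)))))

/-- refutations 109 -/
def e109 : EX := (.node (.node (.node (.node .leaf (nat_lit 27401774265871767) (.br (nat_lit 6) (.cons (.br (nat_lit 0) (.cons (.rel (nat_lit 17185113156)) (.cons (.rel (nat_lit 17186422785)) .nil))) .nil)) .leaf) (nat_lit 27401774266340613) (.br (nat_lit 0) (.cons (.br (nat_lit 3) (.cons (.rel (nat_lit 546308097)) (.cons (.rel (nat_lit 541065732)) .nil))) .nil)) (.node .leaf (nat_lit 27401774266383596) (.br (nat_lit 3) (.cons (.br (nat_lit 0) (.cons (.rel (nat_lit 272638032)) (.cons (.rel (nat_lit 272647524)) .nil))) .nil)) .leaf)) (nat_lit 27401774267351050) (.br (nat_lit 1) (.cons (.br (nat_lit 3) (.cons (.rel (nat_lit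 285218304)) .nil)) .nil)) (.node (.node .leaf (nat_lit 27401774267363630) (.br (nat_lit 2) (.cons (.br (nat_lit 3) (.cons (.rel (nat_lit 335610948)) .nil)) .nil)) .leaf) (nat_lit 27401774267577751) (.br (nat_lit 1) (.cons (.br (nat_lit 3) (.cons (.rel (nat_lit 286785792)) .nil)) .nil)) (.node .leaf (nat_lit 27401774267662346) (.br (nat_lit 3) (.cons (.br (nat_lit 4) (.cons (.rel (nat_lit 2684617728)) .nil)) .nil)) .leaf))) (nat_lit 27402203972746021) (.br (nat_lit 2) (.cons (.br (nat_lit 6) (.cons (.rel (nat_lit 17246978058)) .nil)) .nil)) (.node (.node (.node .leaf (nat_lit 27402203972827446) (.br (nat_lit 2) (.cons (.br (nat_lit 3) (.cons (.rel (nat_lit 603981072)) (.cons (.rel (nat_lit 402685968)) .nil))) .nil)) .leaf) (nat_lit 27403962601944441) (.br (nat_lit 0) (.cons (.br (nat_lit 1) (.cons (.rel (nat_lit 41947140)) .nil)) .nil)) (.node .leaf (nat_lit 27403962603490192) (.br (nat_lit 2) (.cons (.br (nat_lit 3) (.cons (.rel (nat_lit 335548497)) .nil)) .nil)) .leaf)) (nat_lit 27403964195000952)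 (.br (nat_lit 0) (.cons (.br (nat_lit 2) (.cons (.rel (nat_lit 71827968)) .nil)) .nil)) (.node (.node .leaf (nat_lit 27404236550608897) (.br (nat_lit 1) (.cons (.br (nat_lit 2) (.cons (.rel (nat_lit 167841792)) .nil)) .nil)) .leaf) (nat_lit 27404362436650390) (.br (nat_lit 0) (.cons (.br (nat_lit 1) (.cons (.rel (nat_lit 20989200)) .nil)) .nil)) (.node .leaf (nat_lit 27404452227246090) (.br (nat_lit 0) (.cons (.br (nat_lit 1) (.cons (.rel (nat_lit 41947140)) .nil)) .nil)) .leaf))))

/-- refutations 110 -/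
def e110 : EX := (.node (.node (.node .leaf (nat_lit 26477760562346864) (.br (nat_lit 1) (.cons (.br (nat_lit 4) (.cons (.rel (nat_lit 2165374977)) .nil)) .nil)) .leaf) (nat_lit 26477760565141514) (.br (nat_lit 2) (.cons (.br (nat_lit 1) (.cons (.rel (nat_lit 83886360)) (.cons (.rel (nat_lit 83892240)) .nil))) .nil)) .leaf) (nat_lit 26477761494539651) (.br (nat_lit 1) (.cons (.br (nat_lit 2) (.cons (.rel (nat_lit 83951622)) .nil)) .nil)) (.node .leaf (nat_lit 26482099412797450) (.br (nat_lit 0) (.cons (.br (nat_lit 1) (.cons (.rel (nat_lit 41944320)) .nil)) .nil)) .leaf))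

/-- list of the parts -/
def L0 : List (ℕ × List ℕ) := [(nat_lit 0x20004400, [cP]),
  (nat_lit 0x40000000000000, [cP]),
  (nat_lit 0x80000000000000, [cP]),
  (nat_lit 0x100000000000000, [cP]),
  (nat_lit 0x800000000000000, [cP]),
  (nat_lit 0x40000000000000000, [Nat.sub (Nat.pow 2 680) (Nat.pow 2 0), Nat.sub (Nat.pow 2 3136) (Nat.pow 2 680)]),
  (nat_lit 0x3000000000000000, [cP]),
  (nat_lit 0x400000000000000000000000000000000, [cP]),
  (nat_lit 0x4000000000000000000000000000000000, [cP]),
  (nat_lit 0x10000000000000000000000000000000000, [cP]),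
  (nat_lit 0x80000000000000000000000000000000000, [cP]),
  (nat_lit 0x100000000000000000000000000000000000, [cP]),
  (nat_lit 0x9000000000000000000000000000000000000000, [cP]),
  (nat_lit 0x10000000000000000000000000000000000000000, [cP]),
  (nat_lit 0x40000000000000000000000000000000000000000000000, [Nat.sub (Nat.pow 2 31) (Nat.pow 2 0), Nat.sub (Nat.pow 2 66) (Nat.pow 2 31), Nat.sub (Nat.pow 2 254) (Nat.pow 2 66), Nat.sub (Nat.pow 2 290) (Nat.pow 2 254), Nat.sub (Nat.pow 2 315) (Nat.pow 2 290), Nat.sub (Nat.pow 2 665) (Nat.pow 2 315), Nat.sub (Nat.pow 2 765) (Nat.pow 2 665), Nat.sub (Nat.pow 2 881) (Nat.pow 2 765), Nat.sub (Nat.pow 2 1254) (Nat.pow 2 881), Nat.sub (Nat.pow 2 1286) (Nat.pow 2 1254), Nat.sub (Nat.pow 2 1436) (Nat.pow 2 1286), Nat.sub (Nat.pow 2 1535) (Nat.pow 2 1436), Nat.sub (Nat.pow 2 1566) (Nat.pow 2 1535), Nat.sub (Nat.pow 2 3136) (Nat.pow 2 1566)]),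
  (nat_lit 0x30000100000000000000000000000000000000000000000, [cP]),
  (nat_lit 0x1000000000000000000000000000000000000000000000000000000000000000000, [cP]),
  (nat_lit 0x110000000000000000000000000000000000000000000000000000000000000000000000, [cP]),
  (nat_lit 0x2000000000000000000000000000000000000000000000000000000000000000000000000, [cP]),
  (nat_lit 0xc000000000000000000000000000000000000000000000000000000000000000000000000, [cP]),
  (nat_lit 0x8000000000000000000000000000000000000000000000000000000000000000000000000000000, [cP]),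
  (nat_lit 0x10000000000000000000000000000000000000000000000000000000000000000000000000000000, [cP]),
  (nat_lit 0x20000000000000000000000000000000000000000000000000000000000000000000000000000000000000000000000000000000000000000000000000000000000000000000000000000000000000, [cP]),
  (nat_lit 0x80000000000000000000000000000000000000000000000000000000000000000000000000000000000000000000000000000000000000000000000000000000000000000000000000000000000000, [cP]),
  (nat_lit 0x8000000000000000000000000000000000000000000000000000000000000000000000000000000000000000000000000000000000000000000000000000000000000000000000000000000000000000, [cP]),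
  (nat_lit 0x10000000000000000000000000000000000000000000000000000000000000000000000000000000000000000000000000000000000000000000000000000000000000000000000000000000000000000, [cP]),
  (nat_lit 0x880000000000000000000000000000000000000000000000000000000000000000000000000000000000000000000000000000000000000000000000000000000000000000000000000000000000000000000, [cP]),
  (nat_lit 0x1000000000000000000000000000000000000000000000000000000000000000000000000000000000000000000000000000000000000000000000000000000000000000000000000000000000000000000000, [cP]),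
  (nat_lit 0x4000000000000000000000000000000000000000000000000000000000000000000000000000000000000000000000000000000000000000000000000000000000000000000000000000000000000000000000000000, [Nat.sub (Nat.pow 2 761) (Nat.pow 2 0), Nat.sub (Nat.pow 2 3136) (Nat.pow 2 761)]),
  (nat_lit 0x20000000000000000000000000000000000000000000000000000000000000000000000000000000000000000000000000000000000000000000000000000000000000000000000000000000000000000000000, [cP]),
  (nat_lit 0x800000000000000080000000000000000000000000000000000000000000000000000000000000000000000000000000000000000000000000000000000000000000000000000000000000000000000000000000000000000000000000000, [cP]),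
  (nat_lit 0x20000000000000000000000000000000000000000000000000000000000000000000000000000000000000000000000000000000000000000000000000000000000000000000000000000000000000000000000000000000000000000000000000000, [Nat.sub (Nat.pow 2 680) (Nat.pow 2 0), Nat.sub (Nat.pow 2 3136) (Nat.pow 2 680)]),
  (nat_lit 0x40000000000000000000000000000000000000000000000000000000000000000000000000000000000000000000000000000000000000000000000000000000000000000000000000000000000000000000000000000000000000000000000000000, [Nat.sub (Nat.pow 2 786) (Nat.pow 2 0), Nat.sub (Nat.pow 2 3136) (Nat.pow 2 786)]),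
  (nat_lit 0x1000000000000000000000000000000000000000000000000000000000000000000000000000000000000000000000000000000000000000000000000000000000000000000000000000000000000000000000000000000000000000000000, [cP]),
  (nat_lit 0x200000000000000000000000000000000000000000000000000000000000000000000000000000000000000000000000000000000000000000000000000000000000000000000000000000000000000000000000000000000000000000000000000000, [cP]),
  (nat_lit 0x400000000000000000000000000000000000000000000000000000000000000000000000000000000000000000000000000000000000000000000000000000000000000000000000000000000000000000000000000000000000000000000000000000, [cP]),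
  (nat_lit 0x4000000000000000000000000000000000000000000000000000000000000000000000000000000000000000000000000000000000000000000000000000000000000000000000000000000000000000000000000000000000000000000000000000000000, [Nat.sub (Nat.pow 2 691) (Nat.pow 2 0), Nat.sub (Nat.pow 2 3136) (Nat.pow 2 691)]),
  (nat_lit 0x1000000000000000000000000000000000000000000000000000000000000000000000000000000000000000000000000000000000000000000000000000000000000000000000000000000000000000000000000000000000000000000000000000000000, [cP]),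
  (nat_lit 0x80000000000000000000000000000000000000000000000000000000000000000000000000000000000000000000000000000000000000000000000000000000000000000000000000000000000000000000000000000000000000000000000000000000000, [cP]),
  (nat_lit 0x400000000000000000000000000000000000000000000000000000000000000000000000000000000000000000000000000000000000000000000000000000000000000000000000000000000000000000000000000000000000000000000000000000000000, [cP]),
  (nat_lit 0x800000000000000000000000000000000000000000000000000000000000000000000000000000000000000000000000000000000000000000000000000000000000000000000000000000000000000000000000000000000000000000000000000000000000, [cP]),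
  (nat_lit 0x1000000000000000000000000000000000000000000000000000000000000000000000000000000000000000000000000000000000000000000000000000000000000000000000000000000000000000000000000000000000000000000000000000000000000, [cP]),
  (nat_lit 0x8000000000000000000000000000000000000000000000000000000000000000000000000000000000000000000000000000000000000000000000000000000000000000000000000000000000000000000000000000000000000000000000000000000000000000000000000000, [cP]),
  (nat_lit 0x100000000000000000000000000000000000000000000000000000000000000000000000000000000000000000000000000000000000000000000000000000000000000000000000000000000000000000000000000000000000000000000000000000000000000000000000000000, [cP]),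
  (nat_lit 0x400000000000000000000000000000000000000000000000000000000000000000000000000000000000000000000000000000000000000000000000000000000000000000000000000000000000000000000000000000000000000000000000000000000000000000000000000000, [cP]),
  (nat_lit 0xc000000000000000000000000000000000000000000000000000000000000000000000000000000000000000000000000000000000000000000000000000000000000000000000000000000000000000000000000000000000000000000000000000000000000000000000000000000, [cP]),
  (nat_lit 0x20000000000000000000000000000000000000000000000000000000000000000000000000000000000000000000000000000000000000000000000000000000000000000000000000000000000000000000000000000000000000000000000000000000000000000000000000000000000, [cP]),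
  (nat_lit 0x440000000000000000000000000000000000000000000000000000000000000000000000000000000000000000000000000000000000000000000000000000000000000000000000000000000000000000000000000000000000000000000000000000000000000000000000000000000000, [cP]),
  (nat_lit 0x8000000000000000000000000000000000000000000000000000000000000000000000000000000000000000000000000000000000000000000000000000000000000000000000000000000000000000000000000000000000000000000000000000000000000000000000000000000000000, [cP]),
  (nat_lit 0x40000000000000000000000000000000000000000000000000000000000000000000000000000000000000000000000000000000000000000000000000000000000000000000000000000000000000000000000000000000000000000000000000000000000000000000000000000000000000000, [cP]),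
  (nat_lit 0x1000000000000000000000000000000000000000000000000000000000000000000000000000000000000000000000000000000000000000000000000000000000000000000000000000000000000000000000000000000000000000000000000000000000000000000000000000000000000000000, [Nat.sub (Nat.pow 2 686) (Nat.pow 2 0), Nat.sub (Nat.pow 2 1565) (Nat.pow 2 686), Nat.sub (Nat.pow 2 3136) (Nat.pow 2 1565)]),
  (nat_lit 0x880000000000000000000000000000000000000000000000000000000000000000000000000000000000000000000000000000000000000000000000000000000000000000000000000000000000000000000000000000000000000000000000000000000000000000000000000000000000000000, [cP]),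
  (nat_lit 0x20000000000000000000000000000000000000000000000000000000000000000000000000000000000000000000000000000000000000000000000000000000000000000000000000000000000000000000000000000000000000000000000000000000000000000000000000000000000000000000, [cP]),
  (nat_lit 0x40000000000000000000000000000000000000000000000000000000000000000000000000000000000000000000000000000000000000000000000000000000000000000000000000000000000000000000000000000000000000000000000000000000000000000000000000000000000000000000000000000000000000000000000000000000000000000000000000000000000000000000000000, [cP]),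
  (nat_lit 0x1000000000000000000000000000000000000000000000000000000000000000000000000000000000000000000000000000000000000000000000000000000000000000000000000000000000000000000000000000000000000000000000000000000000000000000000000000000000000000000000000000000000000000000000000000000000000000000000000000000000000000000000000000, [cP]),
  (nat_lit 0x2000000000000000000000000000000000000000000000000000000000000000000000000000000000000000000000000000000000000000000000000000000000000000000000000000000000000000000000000000000000000000000000000000000000000000000000000000000000000000000000000000000000000000000000000000000000000000000000000000000000000000000000000000, [cP]),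
  (nat_lit 0x10000000000000000000000000000000000000000000000000000000000000000000000000000000000000000000000000000000000000000000000000000000000000000000000000000000000000000000000000000000000000000000000000000000000000000000000000000000000000000000000000000000000000000000000000000000000000000000000000000000000000000000000000000, [cP]),
  (nat_lit 0x100040000000000000000000000000000000000000000000000000000000000000000000000000000000000000000000000000000000000000000000000000000000000000000000000000000000000000000000000000000000000000000000000000000000000000000000000000000000000000000000000000000000000000000000000000000000000000000000000000000000000000000000000000000, [cP]),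
  (nat_lit 0x2000000000000000000000000000000000000000000000000000000000000000000000000000000000000000000000000000000000000000000000000000000000000000000000000000000000000000000000000000000000000000000000000000000000000000000000000000000000000000000000000000000000000000000000000000000000000000000000000000000000000000000000000000000000, [Nat.sub (Nat.pow 2 779) (Nat.pow 2 0), Nat.sub (Nat.pow 2 1561) (Nat.pow 2 779), Nat.sub (Nat.pow 2 3136) (Nat.pow 2 1561)]),
  (nat_lit 0x200000000000000000000000000000000000000000000000000000000000000000000000000000000000000000000000000000000000000000000000000000000000000000000000000000000000000000000000000000000000000000000000000000000000000000000000000000000000000000000000000000000000000000000000000000000000000000000000000000000000000000000000000000000, [cP]),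
  (nat_lit 0xc0000000000000000000000000000000000000000000000000000000000000000000000000000000000000000000000000000000000000000000000000000000000000000000000000000000000000000000000000000000000000000000000000000000000000000000000000000000000000000000000000000000000000000000000000000000000000000000000000000000000000000000000000000000000, [cP]),
  (nat_lit 0x400000000000000000000000000000000000000000000000000000000000000000000000000000000000000000000000000000000000000000000000000000000000000000000000000000000000000000000000000000000000000000000000000000000000000000000000000000000000000000000000000000000000000000000000000000000000000000000000000000000000000000000000000000000000000, [cP]),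
  (nat_lit 0x8000000000000000000000000000000000000000000000000000000000000000000000000000000000000000000000000000000000000000000000000000000000000000000000000000000000000000000000000000000000000000000000000000000000000000000000000000000000000000000000000000000000000000000000000000000000000000000000000000000000000000000000000000000000000000, [cP]),
  (nat_lit 0x100000000000000000000000000000000000000000000000000000000000000000000000000000000000000000000000000000000000000000000000000000000000000000000000000000000000000000000000000000000000000000000000000000000000000000000000000000000000000000000000000000000000000000000000000000000000000000000000000000000000000000000000000000000000000000, [cP]),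
  (nat_lit 0x800000000000000000000000000000000000000000000000000000000000000000000000000000000000000000000000000000000000000000000000000000000000000000000000000000000000000000000000000000000000000000000000000000000000000000000000000000000000000000000000000000000000000000000000000000000000000000000000000000000000000000000000000000000000000000000000000000000, [cP]),
  (nat_lit 0x40000000000000000000000000000000000000000000000000000000000000000000000000000000000000000000000000000000000000000000000000000000000000000000000000000000000000000000000000000000000000000000000000000000000000000000000000000000000000000000000000000000000000000000000000000000000000000000000000000000000000000000000000000000000000000000000000000000000, [Nat.sub (Nat.pow 2 761) (Nat.pow 2 0), Nat.sub (Nat.pow 2 3136) (Nat.pow 2 761)]),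
  (nat_lit 0x2000000000000000000000000000000000000000000000000000000000000000000000000000000000000000000000000000000000000000000000000000000000000000000000000000000000000000000000000000000000000000000000000000000000000000000000000000000000000000000000000000000000000000000000000000000000000000000000000000000000000000000000000000000000000000000000000000000000000000, [Nat.sub (Nat.pow 2 934) (Nat.pow 2 0), Nat.sub (Nat.pow 2 3136) (Nat.pow 2 934)]),
  (nat_lit 0x84000001000000000000000000000000000000000000000000000000000000000000000000000000000000000000000000000000000000000000000000000000000000000000000000000000000000000000000000000000000000000000000000000000000000000000000000000000000000000000000000000000000000000000000000000000000000000000000000000000000000000000000000000000000000000000000000000000000000000, [cP]),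
  (nat_lit 0x2001000000000000000000000000000000000000000000000000000000000000000000000000000000000000000000000000000000000000000000000000000000000000000000000000000000000000000000000000000000000000000000000000000000000000000000000000000000000000000000000000000000000000000000000000000000000000000000000000000000000000000000000000000000000000000000000000000000000000000000, [cP]),
  (nat_lit 0x4000000000000000000000000000000000000000000000000000000000000000000000000000000000000000000000000000000000000000000000000000000000000000000000000000000000000000000000000000000000000000000000000000000000000000000000000000000000000000000000000000000000000000000000000000000000000000000000000000000000000000000000000000000000000000000000000000000000000000000000, [cP]),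
  (nat_lit 0x8000000000000000000000000000000000000000000000000000000000000000000000000000000000000000000000000000000000000000000000000000000000000000000000000000000000000000000000000000000000000000000000000000000000000000000000000000000000000000000000000000000000000000000000000000000000000000000000000000000000000000000000000000000000000000000000000000000000000000000000, [cP]),
  (nat_lit 0x100000000000000000000000000000000000000000000000000000000000000000000000000000000000000000000000000000000000000000000000000000000000000000000000000000000000000000000000000000000000000000000000000000000000000000000000000000000000000000000000000000000000000000000000000000000000000000000000000000000000000000000000000000000000000000000000000000000000000000000000, [cP]),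
  (nat_lit 0x1000000000000000000000000000000000000000000000000000000000000000000000000000000000000000000000000000000000000000000000000000000000000000000000000000000000000000000000000000000000000000000000000000000000000000000000000000000000000000000000000000000000000000000000000000000000000000000000000000000000000000000000000000000000000000000000000000000000000000000000000, [cP]),
  (nat_lit 0x10000000000000000000000000000000000000000000000000000000000000000000000000000000000000000000000000000000000000000000000000000000000000000000000000000000000000000000000000000000000000000000000000000000000000000000000000000000000000000000000000000000000000000000000000000000000000000000000000000000000000000000000000000000000000000000000000000000000000000000000000000000000000000, [Nat.sub (Nat.pow 2 786) (Nat.pow 2 0), Nat.sub (Nat.pow 2 3136) (Nat.pow 2 786)]),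
  (nat_lit 0x2000000000000000000000000000000000000000000000000000000000000000000000000000000000000000000000000000000000000000000000000000000000000000000000000000000000000000000000000000000000000000000000000000000000000000000000000000000000000000000000000000000000000000000000000000000000000000000000000000000000000000000000000000000000000000000000000000000000000000000000000, [cP]),
  (nat_lit 0x800000000000000000000000000000000000000000000000000000000000000000000000000000000000000000000000000000000000000000000000000000000000000000000000000000000000000000000000000000000000000000000000000000000000000000000000000000000000000000000000000000000000000000000000000000000000000000000000000000000000000000000000000000000000000000000000000000000000000000000000000000000000000000, [Nat.sub (Nat.pow 2 765) (Nat.pow 2 0), Nat.sub (Nat.pow 2 1534) (Nat.pow 2 765), Nat.sub (Nat.pow 2 3136) (Nat.pow 2 1534)]),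
  (nat_lit 0x10000000000000000000000000000000000000000000000000000000000000000000000000000000000000000000000000000000000000000000000000000000000000000000000000000000000000000000000000000000000000000000000000000000000000000000000000000000000000000000000000000000000000000000000000000000000000000000000000000000000000000000000000000000000000000000000000000000000000000000000000000000000000000000000000, [Nat.sub (Nat.pow 2 759) (Nat.pow 2 0), Nat.sub (Nat.pow 2 3136) (Nat.pow 2 759)]),
  (nat_lit 0x40000000000000000000000000000000000000000000000000000000000000000000000000000000000000000000000000000000000000000000000000000000000000000000000000000000000000000000000000000000000000000000000000000000000000000000000000000000000000000000000000000000000000000000000000000000000000000000000000000000000000000000000000000000000000000000000000000000000000000000000000000000000000000000000000000, [Nat.sub (Nat.pow 2 779) (Nat.pow 2 0), Nat.sub (Nat.pow 2 3136) (Nat.pow 2 779)]),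
  (nat_lit 0x2000000000000000000000000000000000000000000000000000000000000000000000000000000000000000000000000000000000000000000000000000000000000000000000000000000000000000000000000000000000000000000000000000000000000000000000000000000000000000000000000000000000000000000000000000000000000000000000000000000000000000000000000000000000000000000000000000000000000000000000000000000000000000000000000000000, [Nat.sub (Nat.pow 2 680) (Nat.pow 2 0), Nat.sub (Nat.pow 2 1254) (Nat.pow 2 680), Nat.sub (Nat.pow 2 3136) (Nat.pow 2 1254)]),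
  (nat_lit 0x100000000000240000000000000000000000000000000000000000000000000000000000000000000000000000000000000000000000000000000000000000000000000000000000000000000000000000000000000000000000000000000000000000000000000000000000000000000000000000000000000000000000000000000000000000000000000000000000000000000000000000000000000000000000000000000000000000000000000000000000000000000000000000000000000000, [cP])]

theorem hp0 : ∀ p ∈ L0, ∀ D2 ∈ p.2, ∃ e,
    search ext94 (Pool.Agent.H74.EGZ.vio sb) G Uc A0 p.1 D2 e = true :=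
  (List.forall_mem_cons.2 ⟨(List.forall_mem_singleton.2 ⟨.leaf, by decide +kernel⟩),
  (List.forall_mem_cons.2 ⟨(List.forall_mem_singleton.2 ⟨e1, by decide +kernel⟩),
  (List.forall_mem_cons.2 ⟨(List.forall_mem_singleton.2 ⟨e2, by decide +kernel⟩),
  (List.forall_mem_cons.2 ⟨(List.forall_mem_singleton.2 ⟨e3, by decide +kernel⟩),
  (List.forall_mem_cons.2 ⟨(List.forall_mem_singleton.2 ⟨e4, by decide +kernel⟩),
  (List.forall_mem_cons.2 ⟨(List.forall_mem_cons.2 ⟨⟨e5, by decide +kernel⟩,
  (List.forall_mem_singleton.2 ⟨e6, by decide +kernel⟩)⟩),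
  (List.forall_mem_cons.2 ⟨(List.forall_mem_singleton.2 ⟨e7, by decide +kernel⟩),
  (List.forall_mem_cons.2 ⟨(List.forall_mem_singleton.2 ⟨e8, by decide +kernel⟩),
  (List.forall_mem_cons.2 ⟨(List.forall_mem_singleton.2 ⟨e9, by decide +kernel⟩),
  (List.forall_mem_cons.2 ⟨(List.forall_mem_singleton.2 ⟨e10, by decide +kernel⟩),
  (List.forall_mem_cons.2 ⟨(List.forall_mem_singleton.2 ⟨e11, by decide +kernel⟩),
  (List.forall_mem_cons.2 ⟨(List.forall_mem_singleton.2 ⟨e12, by decide +kernel⟩),
  (List.forall_mem_cons.2 ⟨(List.forall_mem_singleton.2 ⟨e13, by decide +kernel⟩),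
  (List.forall_mem_cons.2 ⟨(List.forall_mem_singleton.2 ⟨e14, by decide +kernel⟩),
  (List.forall_mem_cons.2 ⟨(List.forall_mem_cons.2 ⟨⟨e15, by decide +kernel⟩,
  (List.forall_mem_cons.2 ⟨⟨e16, by decide +kernel⟩,
  (List.forall_mem_cons.2 ⟨⟨e17, by decide +kernel⟩,
  (List.forall_mem_cons.2 ⟨⟨e18, by decide +kernel⟩,
  (List.forall_mem_cons.2 ⟨⟨e19, by decide +kernel⟩,
  (List.forall_mem_cons.2 ⟨⟨e20, by decide +kernel⟩,
  (List.forall_mem_cons.2 ⟨⟨e21, by decide +kernel⟩,
  (List.forall_mem_cons.2 ⟨⟨e22, by decide +kernel⟩,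
  (List.forall_mem_cons.2 ⟨⟨e23, by decide +kernel⟩,
  (List.forall_mem_cons.2 ⟨⟨e24, by decide +kernel⟩,
  (List.forall_mem_cons.2 ⟨⟨e25, by decide +kernel⟩,
  (List.forall_mem_cons.2 ⟨⟨e26, by decide +kernel⟩,
  (List.forall_mem_cons.2 ⟨⟨e27, by decide +kernel⟩,
  (List.forall_mem_singleton.2 ⟨e28, by decide +kernel⟩)⟩)⟩)⟩)⟩)⟩)⟩)⟩)⟩)⟩)⟩)⟩)⟩)⟩),
  (List.forall_mem_cons.2 ⟨(List.forall_mem_singleton.2 ⟨e29, by decide +kernel⟩),
  (List.forall_mem_cons.2 ⟨(List.forall_mem_singleton.2 ⟨e30, by decide +kernel⟩),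
  (List.forall_mem_cons.2 ⟨(List.forall_mem_singleton.2 ⟨e31, by decide +kernel⟩),
  (List.forall_mem_cons.2 ⟨(List.forall_mem_singleton.2 ⟨.leaf, by decide +kernel⟩),
  (List.forall_mem_cons.2 ⟨(List.forall_mem_singleton.2 ⟨e33, by decide +kernel⟩),
  (List.forall_mem_cons.2 ⟨(List.forall_mem_singleton.2 ⟨e34, by decide +kernel⟩),
  (List.forall_mem_cons.2 ⟨(List.forall_mem_singleton.2 ⟨e35, by decide +kernel⟩),
  (List.forall_mem_cons.2 ⟨(List.forall_mem_singleton.2 ⟨e36, by decide +kernel⟩),
  (List.forall_mem_cons.2 ⟨(List.forall_mem_singleton.2 ⟨.leaf, by decide +kernel⟩),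
  (List.forall_mem_cons.2 ⟨(List.forall_mem_singleton.2 ⟨e38, by decide +kernel⟩),
  (List.forall_mem_cons.2 ⟨(List.forall_mem_singleton.2 ⟨e39, by decide +kernel⟩),
  (List.forall_mem_cons.2 ⟨(List.forall_mem_singleton.2 ⟨.leaf, by decide +kernel⟩),
  (List.forall_mem_cons.2 ⟨(List.forall_mem_singleton.2 ⟨.leaf, by decide +kernel⟩),
  (List.forall_mem_cons.2 ⟨(List.forall_mem_cons.2 ⟨⟨e42, by decide +kernel⟩,
  (List.forall_mem_singleton.2 ⟨e43, by decide +kernel⟩)⟩),
  (List.forall_mem_cons.2 ⟨(List.forall_mem_singleton.2 ⟨e44, by decide +kernel⟩),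
  (List.forall_mem_cons.2 ⟨(List.forall_mem_singleton.2 ⟨e45, by decide +kernel⟩),
  (List.forall_mem_cons.2 ⟨(List.forall_mem_cons.2 ⟨⟨e46, by decide +kernel⟩,
  (List.forall_mem_singleton.2 ⟨e47, by decide +kernel⟩)⟩),
  (List.forall_mem_cons.2 ⟨(List.forall_mem_cons.2 ⟨⟨e48, by decide +kernel⟩,
  (List.forall_mem_singleton.2 ⟨e49, by decide +kernel⟩)⟩),
  (List.forall_mem_cons.2 ⟨(List.forall_mem_singleton.2 ⟨e50, by decide +kernel⟩),
  (List.forall_mem_cons.2 ⟨(List.forall_mem_singleton.2 ⟨e51, by decide +kernel⟩),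
  (List.forall_mem_cons.2 ⟨(List.forall_mem_singleton.2 ⟨.leaf, by decide +kernel⟩),
  (List.forall_mem_cons.2 ⟨(List.forall_mem_cons.2 ⟨⟨e53, by decide +kernel⟩,
  (List.forall_mem_singleton.2 ⟨e54, by decide +kernel⟩)⟩),
  (List.forall_mem_cons.2 ⟨(List.forall_mem_singleton.2 ⟨e55, by decide +kernel⟩),
  (List.forall_mem_cons.2 ⟨(List.forall_mem_singleton.2 ⟨e56, by decide +kernel⟩),
  (List.forall_mem_cons.2 ⟨(List.forall_mem_singleton.2 ⟨e57, by decide +kernel⟩),
  (List.forall_mem_cons.2 ⟨(List.forall_mem_singleton.2 ⟨e58, by decide +kernel⟩),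
  (List.forall_mem_cons.2 ⟨(List.forall_mem_singleton.2 ⟨.leaf, by decide +kernel⟩),
  (List.forall_mem_cons.2 ⟨(List.forall_mem_singleton.2 ⟨.leaf, by decide +kernel⟩),
  (List.forall_mem_cons.2 ⟨(List.forall_mem_singleton.2 ⟨e61, by decide +kernel⟩),
  (List.forall_mem_cons.2 ⟨(List.forall_mem_singleton.2 ⟨e62, by decide +kernel⟩),
  (List.forall_mem_cons.2 ⟨(List.forall_mem_singleton.2 ⟨e63, by decide +kernel⟩),
  (List.forall_mem_cons.2 ⟨(List.forall_mem_singleton.2 ⟨e64, by decide +kernel⟩),
  (List.forall_mem_cons.2 ⟨(List.forall_mem_singleton.2 ⟨e65, by decide +kernel⟩),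
  (List.forall_mem_cons.2 ⟨(List.forall_mem_singleton.2 ⟨e66, by decide +kernel⟩),
  (List.forall_mem_cons.2 ⟨(List.forall_mem_singleton.2 ⟨e67, by decide +kernel⟩),
  (List.forall_mem_cons.2 ⟨(List.forall_mem_cons.2 ⟨⟨e68, by decide +kernel⟩,
  (List.forall_mem_cons.2 ⟨⟨e69, by decide +kernel⟩,
  (List.forall_mem_singleton.2 ⟨e70, by decide +kernel⟩)⟩)⟩),
  (List.forall_mem_cons.2 ⟨(List.forall_mem_singleton.2 ⟨.leaf, by decide +kernel⟩),
  (List.forall_mem_cons.2 ⟨(List.forall_mem_singleton.2 ⟨e72, by decide +kernel⟩),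
  (List.forall_mem_cons.2 ⟨(List.forall_mem_singleton.2 ⟨.leaf, by decide +kernel⟩),
  (List.forall_mem_cons.2 ⟨(List.forall_mem_singleton.2 ⟨e74, by decide +kernel⟩),
  (List.forall_mem_cons.2 ⟨(List.forall_mem_singleton.2 ⟨e75, by decide +kernel⟩),
  (List.forall_mem_cons.2 ⟨(List.forall_mem_singleton.2 ⟨e76, by decide +kernel⟩),
  (List.forall_mem_cons.2 ⟨(List.forall_mem_singleton.2 ⟨e77, by decide +kernel⟩),
  (List.forall_mem_cons.2 ⟨(List.forall_mem_cons.2 ⟨⟨e78, by decide +kernel⟩,
  (List.forall_mem_cons.2 ⟨⟨e79, by decide +kernel⟩,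
  (List.forall_mem_singleton.2 ⟨.leaf, by decide +kernel⟩)⟩)⟩),
  (List.forall_mem_cons.2 ⟨(List.forall_mem_singleton.2 ⟨e81, by decide +kernel⟩),
  (List.forall_mem_cons.2 ⟨(List.forall_mem_singleton.2 ⟨e82, by decide +kernel⟩),
  (List.forall_mem_cons.2 ⟨(List.forall_mem_singleton.2 ⟨e83, by decide +kernel⟩),
  (List.forall_mem_cons.2 ⟨(List.forall_mem_singleton.2 ⟨e84, by decide +kernel⟩),
  (List.forall_mem_cons.2 ⟨(List.forall_mem_singleton.2 ⟨e85, by decide +kernel⟩),
  (List.forall_mem_cons.2 ⟨(List.forall_mem_singleton.2 ⟨e86, by decide +kernel⟩),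
  (List.forall_mem_cons.2 ⟨(List.forall_mem_cons.2 ⟨⟨e87, by decide +kernel⟩,
  (List.forall_mem_singleton.2 ⟨e88, by decide +kernel⟩)⟩),
  (List.forall_mem_cons.2 ⟨(List.forall_mem_cons.2 ⟨⟨e89, by decide +kernel⟩,
  (List.forall_mem_singleton.2 ⟨e90, by decide +kernel⟩)⟩),
  (List.forall_mem_cons.2 ⟨(List.forall_mem_singleton.2 ⟨e91, by decide +kernel⟩),
  (List.forall_mem_cons.2 ⟨(List.forall_mem_singleton.2 ⟨e92, by decide +kernel⟩),
  (List.forall_mem_cons.2 ⟨(List.forall_mem_singleton.2 ⟨e93, by decide +kernel⟩),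
  (List.forall_mem_cons.2 ⟨(List.forall_mem_singleton.2 ⟨e94, by decide +kernel⟩),
  (List.forall_mem_cons.2 ⟨(List.forall_mem_singleton.2 ⟨.leaf, by decide +kernel⟩),
  (List.forall_mem_cons.2 ⟨(List.forall_mem_singleton.2 ⟨e96, by decide +kernel⟩),
  (List.forall_mem_cons.2 ⟨(List.forall_mem_cons.2 ⟨⟨e97, by decide +kernel⟩,
  (List.forall_mem_singleton.2 ⟨e98, by decide +kernel⟩)⟩),
  (List.forall_mem_cons.2 ⟨(List.forall_mem_singleton.2 ⟨e99, by decide +kernel⟩),
  (List.forall_mem_cons.2 ⟨(List.forall_mem_cons.2 ⟨⟨e100, by decide +kernel⟩,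
  (List.forall_mem_cons.2 ⟨⟨e101, by decide +kernel⟩,
  (List.forall_mem_singleton.2 ⟨.leaf, by decide +kernel⟩)⟩)⟩),
  (List.forall_mem_cons.2 ⟨(List.forall_mem_cons.2 ⟨⟨e103, by decide +kernel⟩,
  (List.forall_mem_singleton.2 ⟨e104, by decide +kernel⟩)⟩),
  (List.forall_mem_cons.2 ⟨(List.forall_mem_cons.2 ⟨⟨e105, by decide +kernel⟩,
  (List.forall_mem_singleton.2 ⟨e106, by decide +kernel⟩)⟩),
  (List.forall_mem_cons.2 ⟨(List.forall_mem_cons.2 ⟨⟨e107, by decide +kernel⟩,
  (List.forall_mem_cons.2 ⟨⟨e108, by decide +kernel⟩,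
  (List.forall_mem_singleton.2 ⟨e109, by decide +kernel⟩)⟩)⟩),
  (List.forall_mem_singleton.2 (List.forall_mem_singleton.2 ⟨e110, by decide +kernel⟩))⟩)⟩)⟩)⟩)⟩)⟩)⟩)⟩)⟩)⟩)⟩)⟩)⟩)⟩)⟩)⟩)⟩)⟩)⟩)⟩)⟩)⟩)⟩)⟩)⟩)⟩)⟩)⟩)⟩)⟩)⟩)⟩)⟩)⟩)⟩)⟩)⟩)⟩)⟩)⟩)⟩)⟩)⟩)⟩)⟩)⟩)⟩)⟩)⟩)⟩)⟩)⟩)⟩)⟩)⟩)⟩)⟩)⟩)⟩)⟩)⟩)⟩)⟩)⟩)⟩)⟩)⟩)⟩)⟩)⟩)⟩)⟩)⟩)⟩)⟩)⟩)⟩)⟩)⟩)

end

end Pool.Agent.H21.EGZ.S14
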