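import Pool.Agent.H21.EGZ.D15

/-!
# Stage 15 : search, part 0
-/

set_option autoImplicit false
set_option maxRecDepth 100000

namespace Pool.Agent.H21.EGZ.S15

noncomputable section

open Pool.Agent.H74.EGZ Pool.Agent.H94.Lift

/-- refutations 0 -/
def e0 : EX := (.node (.node (.node (.node (.node (.node .leaf (nat_lit 104859953) (.br (nat_lit 2) (.cons (.br (nat_lit 4) (.cons (.rel (nat_lit 1141391361)) .nil)) .nil)) .leaf) (nat_lit 104860403) (.br (nat_lit 0) (.cons (.br (nat_lit 2) (.cons (.rel (nat_lit 71304708)) .nil)) .nil)) (.node .leaf (nat_lit 104921098) (.br (nat_lit 5) (.cons (.br (nat_lit 6) (.cons (.rel (nat_lit 21474838080)) .nil)) .nil)) .leaf)) (nat_lit 105221033) (.br (nat_lit 0) (.cons (.br (nat_lit 1) (.cons (.rel (nat_lit 22089984)) .nil)) .nil)) (.node (.node .leaf (nat_lit 106447603) (.br (nat_lit 0) (.cons (.br (nat_lit 6) (.cons (.rel (nat_lit 17184162816)) .nil)) .nil)) .leaf) (nat_lit 3804236531) (.br (nat_lit 0) (.cons (.br (nat_lit 3) (.cons (.rel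 (nat_lit 272631936)) .nil)) .nil)) (.node .leaf (nat_lit 3807367923) (.br (nat_lit 0) (.cons (.br (nat_lit 1) (.cons (.rel (nat_lit 20971656)) .nil)) .nil)) .leaf))) (nat_lit 5242882809) (.br (nat_lit 0) (.cons (.br (nat_lit 1) (.cons (.rel (nat_lit 37756929)) .nil)) .nil)) (.node (.node (.node .leaf (nat_lit 5246013691) (.br (nat_lit 0) (.cons (.br (nat_lit 1) (.cons (.rel (nat_lit 38010960)) .nil)) .nil)) .leaf) (nat_lit 5246014195) (.br (nat_lit 0) (.cons (.br (nat_lit 1) (.cons (.rel (nat_lit 37756929)) .nil)) .nil)) (.node .leaf (nat_lit 6445585139) (.br (nat_lit 3) (.cons (.br (nat_lit 6) (.cons (.rel (nat_lit 17448345600)) .nil)) .nil)) .leaf)) (nat_lit 86005811960) (.br (nat_lit 2) (.cons (.br (nat_lit 3) (.cons (.rel (nat_lit 335565072)) .nil)) .nil)) (.node (.node .leaf (nat_lit 86453014538) (.br (nat_lit 6) (.cons (.br (nat_lit 0) (.cons (.rel (nat_lit 17184065544)) (.cons (.rel (nat_lit 17184065544)) .nil))) .nil)) .leaf) (nat_lit 86453014705) (.br (nat_lit 0) (.cons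 (.br (nat_lit 2) (.cons (.rel (nat_lit 71335956)) .nil)) .nil)) .leaf))) (nat_lit 86454811430) (.br (nat_lit 0) (.cons (.br (nat_lit 2) (.cons (.rel (nat_lit 71304708)) .nil)) .nil)) (.node (.node (.node (.node .leaf (nat_lit 86454811511) (.br (nat_lit 2) (.cons (.br (nat_lit 6) (.cons (.rel (nat_lit 34494283776)) .nil)) .nil)) .leaf) (nat_lit 91184531633) (.br (nat_lit 0) (.cons (.br (nat_lit 2) (.cons (.rel (nat_lit 71311368)) .nil)) .nil)) (.node .leaf (nat_lit 91185777450) (.br (nat_lit 0) (.cons (.br (nat_lit 1) (.cons (.rel (nat_lit 38339712)) .nil)) .nil)) .leaf)) (nat_lit 91771392010) (.br (nat_lit 5) (.cons (.br (nat_lit 6) (.cons (.rel (nat_lit 21474838080)) .nil)) .nil)) (.node (.node .leaf (nat_lit 91771638545) (.br (nat_lit 2) (.cons (.br (nat_lit 3) (.cons (.rel (nat_lit 335546370)) .nil)) .nil)) .leaf) (nat_lit 92337623050) (.br (nat_lit 2) (.cons (.br (nat_lit 6) (.cons (.rel (nat_lit 17247011136)) .nil)) .nil)) .leaf)) (nat_lit 472446405358) (.br (nat_lit 0)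 (.cons (.br (nat_lit 1) (.cons (.rel (nat_lit 21234948)) .nil)) .nil)) (.node (.node (.node .leaf (nat_lit 472446405369) (.br (nat_lit 0) (.cons (.br (nat_lit 3) (.cons (.rel (nat_lit 273699072)) (.cons (.rel (nat_lit 273678345)) .nil))) .nil)) .leaf) (nat_lit 472446423801) (.br (nat_lit 3) (.cons (.br (nat_lit 5) (.cons (.rel (nat_lit 4563423264)) .nil)) .nil)) (.node .leaf (nat_lit 472446423850) (.br (nat_lit 0) (.cons (.br (nat_lit 4) (.cons (.rel (nat_lit 1083441408)) .nil)) .nil)) .leaf)) (nat_lit 472446466054) (.br (nat_lit 0) (.cons (.br (nat_lit 3) (.cons (.rel (nat_lit 272631936)) (.cons (.rel (nat_lit 273678345)) .nil))) (.cons (.br (nat_lit 3) (.cons (.rel (nat_lit 273699072)) (.cons (.rel (nat_lit 272631936)) .nil))) .nil))) (.node (.node .leaf (nat_lit 472446466058) (.br (nat_lit 1) (.cons (.br (nat_lit 5) (.cons (.rel (nat_lit 4311747072)) .nil)) .nil)) .leaf) (nat_lit 472446466828) (.br (nat_lit 0) (.cons (.br (nat_lit 1) (.cons (.rel (nat_lit 21299217)) .nil))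 .nil)) .leaf)))) (nat_lit 472446466848) (.br (nat_lit 0) (.cons (.br (nat_lit 1) (.cons (.rel (nat_lit 21234948)) .nil)) .nil)) (.node (.node (.node (.node (.node .leaf (nat_lit 472447948810) (.br (nat_lit 0) (.cons (.br (nat_lit 1) (.cons (.rel (nat_lit 21250050)) .nil)) .nil)) .leaf) (nat_lit 472447961098) (.br (nat_lit 3) (.cons (.br (nat_lit 1) (.cons (.rel (nat_lit 285507588)) (.cons (.rel (nat_lit 285540609)) .nil))) .nil)) (.node .leaf (nat_lit 472448040985) (.br (nat_lit 0) (.cons (.br (nat_lit 1) (.cons (.rel (nat_lit 20971656)) .nil)) .nil)) .leaf)) (nat_lit 472448061450) (.br (nat_lit 0) (.cons (.br (nat_lit 2) (.cons (.rel (nat_lit 71368977)) .nil)) .nil)) (.node (.node .leaf (nat_lit 472448062975) (.br (nat_lit 0) (.cons (.br (nat_lit 5) (.cons (.rel (nat_lit 8598405120)) .nil)) .nil)) .leaf) (nat_lit 472448197418) (.br (nat_lit 0) (.cons (.br (nat_lit 1) (.cons (.rel (nat_lit 21234948)) .nil)) .nil)) (.node .leaf (nat_lit 472448207648) (.br (nat_lit 1) (.cons (.br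 (nat_lit 3) (.cons (.rel (nat_lit 285540609)) .nil)) .nil)) .leaf))) (nat_lit 472448978203) (.br (nat_lit 1) (.cons (.br (nat_lit 5) (.cons (.rel (nat_lit 8606973984)) .nil)) .nil)) (.node (.node (.node .leaf (nat_lit 472449241344) (.br (nat_lit 1) (.cons (.br (nat_lit 2) (.cons (.rel (nat_lit 83887125)) .nil)) .nil)) .leaf) (nat_lit 472449580538) (.br (nat_lit 3) (.cons (.br (nat_lit 6) (.cons (.rel (nat_lit 34896629760)) .nil)) .nil)) (.node .leaf (nat_lit 473106725801) (.br (nat_lit 2) (.cons (.br (nat_lit 5) (.cons (.rel (nat_lit 4362076488)) .nil)) .nil)) .leaf)) (nat_lit 475614456558) (.br (nat_lit 2) (.cons (.br (nat_lit 4) (.cons (.rel (nat_lit 1140982848)) .nil)) .nil)) (.node (.node .leaf (nat_lit 475614660618) (.br (nat_lit 1) (.cons (.br (nat_lit 5) (.cons (.rel (nat_lit 4311747072)) .nil)) .nil)) .leaf) (nat_lit 478949212185) (.br (nat_lit 0) (.cons (.br (nat_lit 2) (.cons (.rel (nat_lit 71311368)) .nil)) .nil)) .leaf))) (nat_lit 524195778017) (.br (nat_lit 0) (.cons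 (.br (nat_lit 3) (.cons (.rel (nat_lit 276840453)) .nil)) .nil)) (.node (.node (.node (.node .leaf (nat_lit 524197008272) (.br (nat_lit 0) (.cons (.br (nat_lit 6) (.cons (.rel (nat_lit 17184210948)) .nil)) .nil)) .leaf) (nat_lit 524197272332) (.br (nat_lit 2) (.cons (.br (nat_lit 4) (.cons (.rel (nat_lit 1208057856)) .nil)) .nil)) (.node .leaf (nat_lit 524197272357) (.br (nat_lit 0) (.cons (.br (nat_lit 4) (.cons (.rel (nat_lit 2155873536)) .nil)) .nil)) .leaf)) (nat_lit 524197323507) (.br (nat_lit 0) (.cons (.br (nat_lit 5) (.cons (.rel (nat_lit 4299325440)) .nil)) .nil)) (.node (.node .leaf (nat_lit 524197323532) (.br (nat_lit 0) (.cons (.br (nat_lit 2) (.cons (.rel (nat_lit 142610436)) .nil)) .nil)) .leaf) (nat_lit 524197374603) (.br (nat_lit 0) (.cons (.br (nat_lit 1) (.cons (.rel (nat_lit 21234948)) .nil)) .nil)) .leaf)) (nat_lit 524197374707) (.br (nat_lit 2) (.cons (.br (nat_lit 4) (.cons (.rel (nat_lit 1208057856)) .nil)) .nil)) (.node (.node (.node .leaf (nat_lit 524197374732)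 (.br (nat_lit 6) (.cons (.br (nat_lit 2) (.cons (.br (nat_lit 4) (.cons (.rel (nat_lit 18253612113)) (.cons (.rel (nat_lit 1208057856)) .nil))) (.cons (.rel (nat_lit 34426880001)) .nil))) .nil)) .leaf) (nat_lit 524197374757) (.br (nat_lit 4) (.cons (.br (nat_lit 0) (.cons (.rel (nat_lit 1077938688)) (.cons (.rel (nat_lit 1077968901)) .nil))) .nil)) (.node .leaf (nat_lit 524197542514) (.br (nat_lit 0) (.cons (.br (nat_lit 2) (.cons (.rel (nat_lit 71304708)) .nil)) .nil)) .leaf)) (nat_lit 524197542775) (.br (nat_lit 2) (.cons (.br (nat_lit 4) (.cons (.rel (nat_lit 1208057856)) .nil)) .nil)) (.node (.node .leaf (nat_lit 524197645200) (.br (nat_lit 6) (.cons (.br (nat_lit 0) (.cons (.rel (nat_lit 17184145680)) (.cons (.rel (nat_lit 34368128004)) .nil))) .nil)) .leaf) (nat_lit 524198925825) (.br (nat_lit 1) (.cons (.br (nat_lit 3) (.cons (.rel (nat_lit 285540609)) .nil)) .nil)) .leaf)))))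

/-- refutations 1 -/
def e1 : EX := (.node (.node (.node (.node (.node (.node (.node (.node (.node .leaf (nat_lit 1073787981834) (.br (nat_lit 5) (.cons (.br (nat_lit 4) (.cons (.rel (nat_lit 5368710468)) (.cons (.rel (nat_lit 5368710468)) .nil))) .nil)) .leaf) (nat_lit 1073787983359) (.br (nat_lit 2) (.cons (.br (nat_lit 3) (.cons (.rel (nat_lit 335546370)) .nil)) .nil)) .leaf) (nat_lit 1073789508339) (.br (nat_lit 0) (.cons (.br (nat_lit 1) (.cons (.rel (nat_lit 21366288)) .nil)) .nil)) (.node .leaf (nat_lit 1073789512437) (.br (nat_lit 1) (.cons (.br (nat_lit 6) (.cons (.rel (nat_lit 17196777984)) (.cons (.rel (nat_lit 17196647682)) (.cons (.rel (nat_lit 17196683520)) .nil)))) .nil)) .leaf)) (nat_lit 1073789512441) (.br (nat_lit 0) (.cons (.br (nat_lit 1) (.cons (.rel (nat_lit 20971656)) .nil)) .nil)) (.node (.node .leaf (nat_lit 1073789512480) (.br (nat_lit 1) (.cons (.br (nat_lit 4) (.cons (.rel (nat_lit 1090588929)) (.cons (.rel (nat_lit 1090521105)) .nil))) .nil)) .leaf)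 (nat_lit 1073789559564) (.br (nat_lit 0) (.cons (.br (nat_lit 1) (.cons (.rel (nat_lit 20971656)) .nil)) .nil)) (.node .leaf (nat_lit 1073789610764) (.br (nat_lit 0) (.cons (.br (nat_lit 1) (.cons (.rel (nat_lit 21234948)) .nil)) .nil)) .leaf))) (nat_lit 1073790840164) (.br (nat_lit 1) (.cons (.br (nat_lit 4) (.cons (.rel (nat_lit 1090588929)) .nil)) .nil)) (.node (.node (.node (.node .leaf (nat_lit 1074295474956) (.br (nat_lit 0) (.cons (.br (nat_lit 2) (.cons (.rel (nat_lit 71304708)) .nil)) .nil)) .leaf) (nat_lit 1074295475706) (.br (nat_lit 0) (.cons (.br (nat_lit 1) (.cons (.rel (nat_lit 22089984)) .nil)) .nil)) .leaf) (nat_lit 1074295492618) (.br (nat_lit 5) (.cons (.br (nat_lit 0) (.cons (.rel (nat_lit 4299228168)) (.cons (.rel (nat_lit 4299227169)) (.cons (.rel (nat_lit 8594653248)) .nil)))) (.cons (.br (nat_lit 4) (.cons (.rel (nat_lit 5368774737)) (.cons (.rel (nat_lit 5368725570)) (.cons (.rel (nat_lit 5368774737)) (.cons (.rel (nat_lit 10737680388)) (.cons (.rel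 (nat_lit 10737680388)) .nil)))))) .nil))) (.node .leaf (nat_lit 1074295492864) (.br (nat_lit 0) (.cons (.br (nat_lit 1) (.cons (.rel (nat_lit 22036992)) (.cons (.rel (nat_lit 20971656)) (.cons (.rel (nat_lit 21234948)) .nil)))) (.cons (.br (nat_lit 1) (.cons (.rel (nat_lit 22021125)) (.cons (.rel (nat_lit 21234948)) (.cons (.rel (nat_lit 21234948)) .nil)))) (.cons (.br (nat_lit 1) (.cons (.rel (nat_lit 37756929)) (.cons (.rel (nat_lit 25169922)) (.cons (.rel (nat_lit 41943108)) .nil)))) .nil)))) .leaf)) (nat_lit 1074295523353) (.br (nat_lit 0) (.cons (.br (nat_lit 1) (.cons (.rel (nat_lit 20971656)) .nil)) .nil)) (.node (.node .leaf (nat_lit 1074295524138) (.br (nat_lit 0) (.cons (.br (nat_lit 2) (.cons (.rel (nat_lit 71311368)) .nil)) .nil)) .leaf) (nat_lit 1074296754432) (.br (nat_lit 0) (.cons (.br (nat_lit 2) (.cons (.rel (nat_lit 71304708)) .nil)) .nil)) (.node .leaf (nat_lit 1074296754802) (.br (nat_lit 0) (.cons (.br (nat_lit 2) (.cons (.rel (nat_lit 139460640)) (.cons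 (.rel (nat_lit 71311368)) .nil))) .nil)) .leaf)))) (nat_lit 1074296755063) (.br (nat_lit 2) (.cons (.br (nat_lit 6) (.cons (.rel (nat_lit 34494283776)) .nil)) .nil)) (.node (.node (.node (.node (.node .leaf (nat_lit 1074297018378) (.br (nat_lit 0) (.cons (.br (nat_lit 5) (.cons (.rel (nat_lit 4299227169)) .nil)) .nil)) .leaf) (nat_lit 1074297019019) (.br (nat_lit 0) (.cons (.br (nat_lit 5) (.cons (.rel (nat_lit 4303618176)) (.cons (.rel (nat_lit 4299235584)) (.cons (.rel (nat_lit 4303360320)) .nil)))) .nil)) .leaf) (nat_lit 1074297019123) (.br (nat_lit 0) (.cons (.br (nat_lit 4) (.cons (.rel (nat_lit 1078001922)) .nil)) .nil)) (.node .leaf (nat_lit 1074297019148) (.br (nat_lit 0) (.cons (.br (nat_lit 1) (.cons (.rel (nat_lit 22089984)) (.cons (.rel (nat_lit 37756929)) .nil))) .nil)) .leaf)) (nat_lit 1074297022474) (.br (nat_lit 0) (.cons (.br (nat_lit 1) (.cons (.rel (nat_lit 22022160)) .nil)) .nil)) (.node (.node .leaf (nat_lit 1074297023221) (.br (nat_lit 2) (.cons (.br (nat_lit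 6) (.cons (.rel (nat_lit 17246979168)) .nil)) .nil)) .leaf) (nat_lit 1074297062131) (.br (nat_lit 0) (.cons (.br (nat_lit 1) (.cons (.rel (nat_lit 41943108)) (.cons (.rel (nat_lit 26214720)) .nil))) .nil)) (.node .leaf (nat_lit 1074297063434) (.br (nat_lit 0) (.cons (.br (nat_lit 2) (.cons (.rel (nat_lit 71319810)) .nil)) .nil)) .leaf))) (nat_lit 1074297070194) (.br (nat_lit 0) (.cons (.br (nat_lit 6) (.cons (.rel (nat_lit 17184064545)) (.cons (.rel (nat_lit 34368128004)) .nil))) .nil)) (.node (.node (.node (.node .leaf (nat_lit 1074297070323) (.br (nat_lit 1) (.cons (.br (nat_lit 0) (.cons (.rel (nat_lit 22036992)) (.cons (.rel (nat_lit 21250050)) .nil))) .nil)) .leaf) (nat_lit 1074297110584) (.br (nat_lit 0) (.cons (.br (nat_lit 1) (.cons (.rel (nat_lit 21299217)) .nil)) .nil)) .leaf) (nat_lit 1074297121419) (.br (nat_lit 0) (.cons (.br (nat_lit 6) (.cons (.rel (nat_lit 17184096513)) .nil)) .nil)) (.node .leaf (nat_lit 1074297121548) (.br (nat_lit 0) (.cons (.br (nat_lit 5)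 (.cons (.rel (nat_lit 8594653248)) .nil)) .nil)) .leaf)) (nat_lit 1074297121680) (.br (nat_lit 0) (.cons (.br (nat_lit 6) (.cons (.rel (nat_lit 17184096513)) .nil)) .nil)) (.node (.node .leaf (nat_lit 1074297288831) (.br (nat_lit 0) (.cons (.br (nat_lit 2) (.cons (.rel (nat_lit 71311368)) .nil)) .nil)) .leaf) (nat_lit 1074297289459) (.br (nat_lit 0) (.cons (.br (nat_lit 1) (.cons (.rel (nat_lit 20971656)) .nil)) .nil)) (.node .leaf (nat_lit 1074297289591) (.br (nat_lit 6) (.cons (.br (nat_lit 0) (.cons (.rel (nat_lit 17184198672)) (.cons (.rel (nat_lit 17184065544)) .nil))) .nil)) .leaf))))) (nat_lit 1074297289641) (.br (nat_lit 2) (.cons (.br (nat_lit 6) (.cons (.rel (nat_lit 17314103298)) .nil)) .nil)) (.node (.node (.node (.node (.node (.node .leaf (nat_lit 1074297391755) (.br (nat_lit 0) (.cons (.br (nat_lit 6) (.cons (.rel (nat_lit 17188323408)) (.cons (.rel (nat_lit 17184068100)) .nil))) (.cons (.br (nat_lit 6) (.cons (.rel (nat_lit 17185113168)) (.cons (.rel (nat_lit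 17184145680)) .nil))) .nil))) .leaf) (nat_lit 1074297391884) (.br (nat_lit 0) (.cons (.br (nat_lit 5) (.cons (.rel (nat_lit 4299325440)) .nil)) .nil)) .leaf) (nat_lit 1074297391991) (.br (nat_lit 0) (.cons (.br (nat_lit 1) (.cons (.rel (nat_lit 21234948)) (.cons (.rel (nat_lit 20971656)) .nil))) .nil)) (.node .leaf (nat_lit 1074297392016) (.br (nat_lit 0) (.cons (.br (nat_lit 5) (.cons (.rel (nat_lit 4299325440)) .nil)) .nil)) .leaf)) (nat_lit 1074297392041) (.br (nat_lit 0) (.cons (.br (nat_lit 1) (.cons (.rel (nat_lit 21250050)) (.cons (.rel (nat_lit 22089984)) .nil))) (.cons (.br (nat_lit 1) (.cons (.rel (nat_lit 41943108)) (.cons (.rel (nat_lit 21250050)) .nil))) .nil))) (.node (.node .leaf (nat_lit 1074297392634) (.br (nat_lit 0) (.cons (.br (nat_lit 5) (.cons (.rel (nat_lit 4303618176)) (.cons (.rel (nat_lit 4303618176)) .nil))) (.cons (.br (nat_lit 5) (.cons (.rel (nat_lit 4299178002)) (.cons (.rel (nat_lit 4299227169)) .nil))) .nil))) .leaf) (nat_lit 1074298095098) (.br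 (nat_lit 0) (.cons (.br (nat_lit 6) (.cons (.rel (nat_lit 17184145680)) .nil)) .nil)) (.node .leaf (nat_lit 1074298290933) (.br (nat_lit 0) (.cons (.br (nat_lit 1) (.cons (.rel (nat_lit 20971656)) .nil)) .nil)) .leaf))) (nat_lit 1074298312735) (.br (nat_lit 0) (.cons (.br (nat_lit 5) (.cons (.rel (nat_lit 4299161865)) .nil)) .nil)) (.node (.node (.node (.node .leaf (nat_lit 1074298314234) (.br (nat_lit 0) (.cons (.br (nat_lit 6) (.cons (.rel (nat_lit 17184063510)) (.cons (.rel (nat_lit 17184064545)) .nil))) .nil)) .leaf) (nat_lit 1074298350219) (.br (nat_lit 0) (.cons (.br (nat_lit 1) (.cons (.rel (nat_lit 22036992)) .nil)) .nil)) .leaf) (nat_lit 1074298566118) (.br (nat_lit 5) (.cons (.br (nat_lit 0) (.cons (.rel (nat_lit 4299178002)) (.cons (.rel (nat_lit 4299162900)) .nil))) .nil)) (.node .leaf (nat_lit 1074298607098) (.br (nat_lit 0) (.cons (.br (nat_lit 1) (.cons (.rel (nat_lit 21250050)) (.cons (.rel (nat_lit 25169922)) (.cons (.rel (nat_lit 22089984)) .nil)))) (.cons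 (.br (nat_lit 1) (.cons (.rel (nat_lit 21250050)) (.cons (.rel (nat_lit 22089984)) (.cons (.rel (nat_lit 20971656)) .nil)))) .nil))) .leaf)) (nat_lit 1074298650106) (.br (nat_lit 0) (.cons (.br (nat_lit 2) (.cons (.rel (nat_lit 75497538)) (.cons (.rel (nat_lit 71567424)) (.cons (.rel (nat_lit 142610436)) .nil)))) .nil)) (.node (.node .leaf (nat_lit 1074298656824) (.br (nat_lit 0) (.cons (.br (nat_lit 1) (.cons (.rel (nat_lit 38010960)) .nil)) .nil)) .leaf) (nat_lit 1074298672641) (.br (nat_lit 1) (.cons (.br (nat_lit 5) (.cons (.rel (nat_lit 4328588352)) .nil)) .nil)) (.node .leaf (nat_lit 1074811374373) (.br (nat_lit 1) (.cons (.br (nat_lit 2) (.cons (.rel (nat_lit 167772165)) .nil)) .nil)) .leaf)))) (nat_lit 1074895260428) (.br (nat_lit 0) (.cons (.br (nat_lit 5) (.cons (.rel (nat_lit 4299161865)) .nil)) .nil)) (.node (.node (.node (.node (.node .leaf (nat_lit 1074895321098) (.br (nat_lit 0) (.cons (.br (nat_lit 5) (.cons (.rel (nat_lit 4299325440)) .nil)) .nil)) .leaf) (nat_lit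 1074895620377) (.br (nat_lit 2) (.cons (.br (nat_lit 4) (.cons (.rel (nat_lit 1140982848)) .nil)) .nil)) .leaf) (nat_lit 1074896805367) (.br (nat_lit 0) (.cons (.br (nat_lit 2) (.cons (.rel (nat_lit 71372802)) .nil)) .nil)) (.node .leaf (nat_lit 1074896816138) (.br (nat_lit 0) (.cons (.br (nat_lit 5) (.cons (.rel (nat_lit 4303618176)) .nil)) .nil)) .leaf)) (nat_lit 1074896816278) (.br (nat_lit 3) (.cons (.br (nat_lit 5) (.cons (.rel (nat_lit 4563410952)) .nil)) .nil)) (.node (.node .leaf (nat_lit 1074896816928) (.br (nat_lit 0) (.cons (.br (nat_lit 2) (.cons (.rel (nat_lit 71304708)) (.cons (.rel (nat_lit 72892416)) (.cons (.rel (nat_lit 71435280)) .nil)))) .nil)) .leaf) (nat_lit 1074897072889) (.br (nat_lit 0) (.cons (.br (nat_lit 1) (.cons (.rel (nat_lit 41943108)) .nil)) .nil)) (.node .leaf (nat_lit 1074897073014) (.br (nat_lit 0) (.cons (.br (nat_lit 1) (.cons (.rel (nat_lit 41943108)) (.cons (.rel (nat_lit 21500232)) .nil))) .nil)) .leaf))) (nat_lit 1074897880570) (.br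 (nat_lit 0) (.cons (.br (nat_lit 2) (.cons (.rel (nat_lit 75497538)) (.cons (.rel (nat_lit 71435280)) .nil))) .nil)) (.node (.node (.node .leaf (nat_lit 1076493338649) (.br (nat_lit 0) (.cons (.br (nat_lit 4) (.cons (.rel (nat_lit 1078001922)) .nil)) .nil)) .leaf) (nat_lit 1076494683039) (.br (nat_lit 0) (.cons (.br (nat_lit 1) (.cons (.rel (nat_lit 22021125)) .nil)) .nil)) (.node .leaf (nat_lit 1076510117370) (.br (nat_lit 0) (.cons (.br (nat_lit 5) (.cons (.rel (nat_lit 4299227169)) .nil)) .nil)) .leaf)) (nat_lit 1076510599178) (.br (nat_lit 1) (.cons (.br (nat_lit 5) (.cons (.rel (nat_lit 4311761184)) .nil)) .nil)) (.node (.node .leaf (nat_lit 1076511468900) (.br (nat_lit 2) (.cons (.br (nat_lit 3) (.cons (.rel (nat_lit 335544345)) .nil)) .nil)) .leaf) (nat_lit 1076512686090) (.br (nat_lit 1) (.cons (.br (nat_lit 3) (.cons (.rel (nat_lit 285229185)) .nil)) .nil)) (.node .leaf (nat_lit 1076512903974) (.br (nat_lit 0) (.cons (.br (nat_lit 2) (.cons (.rel (nat_lit 71434245))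 .nil)) .nil)) .leaf)))))) (nat_lit 1076908544010) (.br (nat_lit 0) (.cons (.br (nat_lit 2) (.cons (.rel (nat_lit 71304708)) (.cons (.rel (nat_lit 71311368)) (.cons (.rel (nat_lit 71304708)) (.cons (.rel (nat_lit 71311368)) (.cons (.rel (nat_lit 142610436)) .nil)))))) (.cons (.br (nat_lit 4) (.cons (.rel (nat_lit 1077940488)) (.cons (.rel (nat_lit 1077952800)) (.cons (.rel (nat_lit 1078001922)) (.cons (.rel (nat_lit 1077940488)) .nil))))) (.cons (.br (nat_lit 5) (.cons (.rel (nat_lit 4299182592)) (.cons (.rel (nat_lit 4299235584)) (.cons (.rel (nat_lit 4303360320)) (.cons (.rel (nat_lit 4299228168)) .nil))))) (.cons (.br (nat_lit 5) (.cons (.rel (nat_lit 4299235584)) (.cons (.rel (nat_lit 4299325440)) (.cons (.rel (nat_lit 4299227169)) (.cons (.rel (nat_lit 4299182592)) .nil))))) .nil))))) (.node (.node (.node (.node (.node (.node (.node .leaf (nat_lit 1076908575505) (.br (nat_lit 0) (.cons (.br (nat_lit 1) (.cons (.rel (nat_lit 41943108)) .nil)) .nil)) .leaf) (nat_lit 1076908587018)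 (.br (nat_lit 6) (.cons (.br (nat_lit 5) (.cons (.rel (nat_lit 25769935872)) (.cons (.rel (nat_lit 25769935872)) .nil))) .nil)) .leaf) (nat_lit 1076909099018) (.br (nat_lit 5) (.cons (.br (nat_lit 4) (.cons (.rel (nat_lit 5368774737)) (.cons (.rel (nat_lit 10737680388)) (.cons (.rel (nat_lit 5368774737)) (.cons (.rel (nat_lit 6442459137)) .nil))))) .nil)) (.node .leaf (nat_lit 1076909150218) (.br (nat_lit 0) (.cons (.br (nat_lit 5) (.cons (.rel (nat_lit 4303618176)) .nil)) .nil)) .leaf)) (nat_lit 1076910069770) (.br (nat_lit 0) (.cons (.br (nat_lit 1) (.cons (.rel (nat_lit 22022160)) (.cons (.rel (nat_lit 21234948)) .nil))) (.cons (.br (nat_lit 2) (.cons (.rel (nat_lit 71304708)) (.cons (.rel (nat_lit 138412161)) .nil))) .nil))) (.node (.node .leaf (nat_lit 1076910082058) (.br (nat_lit 4) (.cons (.br (nat_lit 5) (.cons (.rel (nat_lit 5368710468)) (.cons (.rel (nat_lit 5369233416)) .nil))) .nil)) .leaf) (nat_lit 1076910082809) (.br (nat_lit 5) (.cons (.br (nat_lit 6) (.cons (.rel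 (nat_lit 21474838080)) .nil)) .nil)) (.node .leaf (nat_lit 1076910083553) (.br (nat_lit 5) (.cons (.br (nat_lit 1) (.cons (.rel (nat_lit 4311748872)) (.cons (.rel (nat_lit 8607768576)) .nil))) .nil)) .leaf))) (nat_lit 1076910112799) (.br (nat_lit 0) (.cons (.br (nat_lit 2) (.cons (.rel (nat_lit 71311368)) .nil)) .nil)) (.node (.node (.node (.node .leaf (nat_lit 1076911617510) (.br (nat_lit 0) (.cons (.br (nat_lit 6) (.cons (.rel (nat_lit 17184065544)) .nil)) .nil)) .leaf) (nat_lit 1076911718410) (.br (nat_lit 3) (.cons (.br (nat_lit 5) (.cons (.rel (nat_lit 4563419394)) .nil)) .nil)) .leaf) (nat_lit 1076911719960) (.br (nat_lit 1) (.cons (.br (nat_lit 3) (.cons (.rel (nat_lit 286265352)) (.cons (.rel (nat_lit 553649160)) .nil))) .nil)) (.node .leaf (nat_lit 1076937886507) (.br (nat_lit 0) (.cons (.br (nat_lit 3) (.cons (.rel (nat_lit 545260608)) .nil)) .nil)) .leaf)) (nat_lit 1076937990955) (.br (nat_lit 0) (.cons (.br (nat_lit 1) (.cons (.rel (nat_lit 22021125)) .nil)) .nil))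 (.node (.node .leaf (nat_lit 1076937991699) (.br (nat_lit 1) (.cons (.br (nat_lit 2) (.cons (.rel (nat_lit 84213840)) .nil)) .nil)) .leaf) (nat_lit 1076939442937) (.br (nat_lit 5) (.cons (.br (nat_lit 0) (.cons (.rel (nat_lit 4299227169)) (.cons (.rel (nat_lit 8595243012)) .nil))) .nil)) (.node .leaf (nat_lit 1076939442987) (.br (nat_lit 0) (.cons (.br (nat_lit 5) (.cons (.rel (nat_lit 4299162900)) .nil)) .nil)) .leaf)))) (nat_lit 1076940967393) (.br (nat_lit 5) (.cons (.br (nat_lit 0) (.cons (.rel (nat_lit 4299227169)) (.cons (.rel (nat_lit 4299325440)) .nil))) .nil)) (.node (.node (.node (.node (.node .leaf (nat_lit 1076941032199) (.br (nat_lit 0) (.cons (.br (nat_lit 1) (.cons (.rel (nat_lit 22021125)) .nil)) .nil)) .leaf) (nat_lit 1076941069099) (.br (nat_lit 1) (.cons (.br (nat_lit 2) (.cons (.rel (nat_lit 84021252)) .nil)) .nil)) .leaf) (nat_lit 1077139261465) (.br (nat_lit 5) (.cons (.br (nat_lit 2) (.cons (.rel (nat_lit 8658096192)) (.cons (.rel (nat_lit 4362602496))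 .nil))) .nil)) (.node .leaf (nat_lit 1077139262250) (.br (nat_lit 5) (.cons (.br (nat_lit 6) (.cons (.rel (nat_lit 25769824272)) .nil)) .nil)) .leaf)) (nat_lit 1077139477285) (.br (nat_lit 0) (.cons (.br (nat_lit 1) (.cons (.rel (nat_lit 21234948)) .nil)) .nil)) (.node (.node .leaf (nat_lit 1077139572913) (.br (nat_lit 2) (.cons (.br (nat_lit 4) (.cons (.rel (nat_lit 1140871248)) .nil)) .nil)) .leaf) (nat_lit 1077139574041) (.br (nat_lit 3) (.cons (.br (nat_lit 4) (.cons (.rel (nat_lit 2684354565)) .nil)) .nil)) (.node .leaf (nat_lit 1077139776869) (.br (nat_lit 0) (.cons (.br (nat_lit 1) (.cons (.rel (nat_lit 22089984)) .nil)) .nil)) .leaf))) (nat_lit 1077140817945) (.br (nat_lit 5) (.cons (.br (nat_lit 6) (.cons (.rel (nat_lit 21474844740)) .nil)) .nil)) (.node (.node (.node (.node .leaf (nat_lit 1077140818097) (.br (nat_lit 2) (.cons (.br (nat_lit 4) (.cons (.rel (nat_lit 2214739968)) .nil)) .nil)) .leaf) (nat_lit 1077140818730) (.br (nat_lit 0) (.cons (.br (nat_lit 4) (.cons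 (.rel (nat_lit 1077956625)) .nil)) .nil)) .leaf) (nat_lit 1077140820754) (.br (nat_lit 1) (.cons (.br (nat_lit 3) (.cons (.rel (nat_lit 285229185)) .nil)) .nil)) (.node .leaf (nat_lit 1077141054315) (.br (nat_lit 5) (.cons (.br (nat_lit 2) (.cons (.rel (nat_lit 8724415488)) (.cons (.rel (nat_lit 4362141792)) .nil))) .nil)) .leaf)) (nat_lit 1077141843205) (.br (nat_lit 0) (.cons (.br (nat_lit 5) (.cons (.rel (nat_lit 4299178002)) (.cons (.rel (nat_lit 4299161865)) .nil))) .nil)) (.node (.node .leaf (nat_lit 1077142049419) (.br (nat_lit 0) (.cons (.br (nat_lit 5) (.cons (.rel (nat_lit 4299161865)) .nil)) .nil)) .leaf) (nat_lit 1077142293985) (.br (nat_lit 5) (.cons (.br (nat_lit 6) (.cons (.rel (nat_lit 21474838080)) .nil)) .nil)) (.node .leaf (nat_lit 1077142294010) (.br (nat_lit 3) (.cons (.br (nat_lit 2) (.cons (.rel (nat_lit 335822928)) (.cons (.rel (nat_lit 403177536)) .nil))) .nil)) .leaf))))) (nat_lit 1077142294035) (.br (nat_lit 5) (.cons (.br (nat_lit 6) (.cons (.rel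 (nat_lit 21474844740)) .nil)) .nil)) (.node (.node (.node (.node (.node (.node .leaf (nat_lit 1077142343857) (.br (nat_lit 0) (.cons (.br (nat_lit 2) (.cons (.rel (nat_lit 71319810)) .nil)) .nil)) .leaf) (nat_lit 1077142345185) (.br (nat_lit 2) (.cons (.br (nat_lit 5) (.cons (.rel (nat_lit 4362602496)) .nil)) .nil)) .leaf) (nat_lit 1077142345210) (.br (nat_lit 2) (.cons (.br (nat_lit 3) (.cons (.rel (nat_lit 403177536)) .nil)) .nil)) (.node .leaf (nat_lit 1077142345235) (.br (nat_lit 5) (.cons (.br (nat_lit 1) (.cons (.rel (nat_lit 8607768576)) (.cons (.rel (nat_lit 4311876609)) .nil))) .nil)) .leaf)) (nat_lit 1077142394905) (.br (nat_lit 1) (.cons (.br (nat_lit 5) (.cons (.rel (nat_lit 4311810306)) .nil)) .nil)) (.node (.node .leaf (nat_lit 1077142395007) (.br (nat_lit 1) (.cons (.br (nat_lit 3) (.cons (.rel (nat_lit 285495312)) .nil)) .nil)) .leaf) (nat_lit 1077142395640) (.br (nat_lit 5) (.cons (.br (nat_lit 0) (.cons (.rel (nat_lit 4299325440)) (.cons (.rel (nat_lit 4299227169))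 .nil))) .nil)) (.node .leaf (nat_lit 1077142395817) (.br (nat_lit 1) (.cons (.br (nat_lit 4) (.cons (.rel (nat_lit 1090519080)) .nil)) .nil)) .leaf))) (nat_lit 1077142396385) (.br (nat_lit 3) (.cons (.br (nat_lit 1) (.cons (.rel (nat_lit 285229185)) (.cons (.rel (nat_lit 303038529)) .nil))) .nil)) (.node (.node (.node (.node .leaf (nat_lit 1077142396410) (.br (nat_lit 5) (.cons (.br (nat_lit 0) (.cons (.rel (nat_lit 4299161865)) (.cons (.rel (nat_lit 4299162900)) (.cons (.rel (nat_lit 4299161865)) (.cons (.rel (nat_lit 4299325440)) (.cons (.rel (nat_lit 4299325440)) .nil)))))) .nil)) .leaf) (nat_lit 1077142396435) (.br (nat_lit 5) (.cons (.br (nat_lit 1) (.cons (.rel (nat_lit 8607768576)) (.cons (.rel (nat_lit 4311876609)) .nil))) .nil)) .leaf) (nat_lit 1077142398233) (.br (nat_lit 0) (.cons (.br (nat_lit 5) (.cons (.rel (nat_lit 4303618176)) .nil)) .nil)) (.node .leaf (nat_lit 1077516700428) (.br (nat_lit 0) (.cons (.br (nat_lit 5) (.cons (.rel (nat_lit 4299182592)) .nil))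 .nil)) .leaf)) (nat_lit 1077516748825) (.br (nat_lit 0) (.cons (.br (nat_lit 2) (.cons (.rel (nat_lit 71304708)) (.cons (.rel (nat_lit 72417600)) (.cons (.rel (nat_lit 71567424)) .nil)))) (.cons (.br (nat_lit 2) (.cons (.rel (nat_lit 71311368)) (.cons (.rel (nat_lit 71368977)) (.cons (.rel (nat_lit 71311368)) .nil)))) (.cons (.br (nat_lit 5) (.cons (.rel (nat_lit 4299227169)) (.cons (.rel (nat_lit 4299178002)) (.cons (.rel (nat_lit 8598405120)) .nil)))) .nil)))) (.node (.node .leaf (nat_lit 1077516749610) (.br (nat_lit 1) (.cons (.br (nat_lit 2) (.cons (.rel (nat_lit 83886090)) (.cons (.rel (nat_lit 83955984)) (.cons (.rel (nat_lit 84213840)) (.cons (.rel (nat_lit 167772165)) .nil))))) .nil)) .leaf) (nat_lit 1077516749611) (.br (nat_lit 0) (.cons (.br (nat_lit 5) (.cons (.rel (nat_lit 8598405120)) .nil)) .nil)) (.node .leaf (nat_lit 1077516964746) (.br (nat_lit 1) (.cons (.br (nat_lit 3) (.cons (.rel (nat_lit 285606912)) .nil)) .nil)) .leaf)))) (nat_lit 1077517211704) (.br (nat_lit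 1) (.cons (.br (nat_lit 6) (.cons (.rel (nat_lit 17213425728)) .nil)) .nil)) (.node (.node (.node (.node (.node .leaf (nat_lit 1077517263099) (.br (nat_lit 1) (.cons (.br (nat_lit 3) (.cons (.rel (nat_lit 301991940)) .nil)) .nil)) .leaf) (nat_lit 1077517264906) (.br (nat_lit 5) (.cons (.br (nat_lit 0) (.cons (.rel (nat_lit 8594653248)) (.cons (.rel (nat_lit 4299162900)) (.cons (.rel (nat_lit 8598405120)) .nil)))) .nil)) .leaf) (nat_lit 1077517326643) (.br (nat_lit 0) (.cons (.br (nat_lit 2) (.cons (.rel (nat_lit 71368977)) .nil)) .nil)) (.node .leaf (nat_lit 1077517327591) (.br (nat_lit 0) (.cons (.br (nat_lit 3) (.cons (.rel (nat_lit 273679380)) .nil)) .nil)) .leaf)) (nat_lit 1077518052633) (.br (nat_lit 3) (.cons (.br (nat_lit 4) (.cons (.rel (nat_lit 1342177290)) .nil)) .nil)) (.node (.node .leaf (nat_lit 1077518246694) (.br (nat_lit 0) (.cons (.br (nat_lit 2) (.cons (.rel (nat_lit 76812288)) .nil)) .nil)) .leaf) (nat_lit 1077518256939) (.br (nat_lit 1) (.cons (.br (nat_lit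 3) (.cons (.rel (nat_lit 285495312)) .nil)) .nil)) (.node .leaf (nat_lit 1077518288099) (.br (nat_lit 6) (.cons (.br (nat_lit 2) (.cons (.rel (nat_lit 17246978133)) (.cons (.rel (nat_lit 17246979168)) .nil))) .nil)) .leaf))) (nat_lit 1077518295050) (.br (nat_lit 0) (.cons (.br (nat_lit 5) (.cons (.rel (nat_lit 4299162900)) .nil)) .nil)) (.node (.node (.node .leaf (nat_lit 1077518295977) (.br (nat_lit 0) (.cons (.br (nat_lit 4) (.cons (.rel (nat_lit 2151678096)) .nil)) .nil)) .leaf) (nat_lit 1077518308089) (.br (nat_lit 1) (.cons (.br (nat_lit 3) (.cons (.rel (nat_lit 285540609)) .nil)) .nil)) (.node .leaf (nat_lit 1077518347045) (.br (nat_lit 3) (.cons (.br (nat_lit 1) (.cons (.rel (nat_lit 286265352)) (.cons (.rel (nat_lit 286265352)) (.cons (.rel (nat_lit 285229185)) .nil)))) .nil)) .leaf)) (nat_lit 1077518356490) (.br (nat_lit 0) (.cons (.br (nat_lit 5) (.cons (.rel (nat_lit 8594653248)) .nil)) .nil)) (.node (.node .leaf (nat_lit 1077518356505) (.br (nat_lit 1) (.cons (.br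 (nat_lit 0) (.cons (.br (nat_lit 3) (.cons (.rel (nat_lit 285229185)) (.cons (.rel (nat_lit 272908305)) .nil))) (.cons (.rel (nat_lit 22564992)) .nil))) .nil)) .leaf) (nat_lit 1077518356536) (.br (nat_lit 0) (.cons (.br (nat_lit 6) (.cons (.rel (nat_lit 34368128004)) .nil)) .nil)) (.node .leaf (nat_lit 1077518357265) (.br (nat_lit 0) (.cons (.br (nat_lit 1) (.cons (.rel (nat_lit 22347840)) (.cons (.rel (nat_lit 38010960)) .nil))) .nil)) .leaf))))))) (nat_lit 1077518492428) (.br (nat_lit 0) (.cons (.br (nat_lit 5) (.cons (.rel (nat_lit 4299161865)) .nil)) .nil)) (.node (.node (.node (.node (.node (.node (.node (.node .leaf (nat_lit 1077518541675) (.br (nat_lit 5) (.cons (.br (nat_lit 0) (.cons (.rel (nat_lit 4299325440)) (.cons (.rel (nat_lit 4299161865)) .nil))) .nil)) .leaf) (nat_lit 1077518542085) (.br (nat_lit 0) (.cons (.br (nat_lit 5) (.cons (.rel (nat_lit 4303618176)) (.cons (.rel (nat_lit 4299161865)) .nil))) .nil)) .leaf) (nat_lit 1077518618131) (.br (nat_lit 1) (.cons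 (.br (nat_lit 5) (.cons (.rel (nat_lit 4312006728)) .nil)) .nil)) (.node .leaf (nat_lit 1077519279390) (.br (nat_lit 1) (.cons (.br (nat_lit 0) (.cons (.rel (nat_lit 37818372)) (.cons (.rel (nat_lit 41943108)) .nil))) .nil)) .leaf)) (nat_lit 1077519310854) (.br (nat_lit 1) (.cons (.br (nat_lit 3) (.cons (.rel (nat_lit 301991940)) .nil)) .nil)) (.node (.node .leaf (nat_lit 1077519330565) (.br (nat_lit 6) (.cons (.br (nat_lit 5) (.cons (.rel (nat_lit 38654709780)) (.cons (.rel (nat_lit 25769836548)) (.cons (.rel (nat_lit 21474844740)) .nil)))) .nil)) .leaf) (nat_lit 1077519516428) (.br (nat_lit 0) (.cons (.br (nat_lit 5) (.cons (.rel (nat_lit 4299178002)) .nil)) .nil)) (.node .leaf (nat_lit 1077519517203) (.br (nat_lit 0) (.cons (.br (nat_lit 1) (.cons (.rel (nat_lit 20971656)) .nil)) .nil)) .leaf))) (nat_lit 1077519780650) (.br (nat_lit 4) (.cons (.br (nat_lit 1) (.cons (.rel (nat_lit 1090519080)) (.cons (.rel (nat_lit 1090519080)) .nil))) .nil)) (.node (.node (.node (.node .leaf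 (nat_lit 1077519781246) (.br (nat_lit 1) (.cons (.br (nat_lit 2) (.cons (.rel (nat_lit 167772165)) .nil)) .nil)) .leaf) (nat_lit 1077519882265) (.br (nat_lit 5) (.cons (.br (nat_lit 6) (.cons (.rel (nat_lit 21474838080)) .nil)) .nil)) .leaf) (nat_lit 1077562855434) (.br (nat_lit 0) (.cons (.br (nat_lit 5) (.cons (.rel (nat_lit 4299162900)) .nil)) .nil)) (.node .leaf (nat_lit 1077562855730) (.br (nat_lit 0) (.cons (.br (nat_lit 4) (.cons (.rel (nat_lit 1077952800)) .nil)) .nil)) .leaf)) (nat_lit 1077563461938) (.br (nat_lit 0) (.cons (.br (nat_lit 1) (.cons (.rel (nat_lit 20971656)) .nil)) .nil)) (.node (.node .leaf (nat_lit 1077563465207) (.br (nat_lit 0) (.cons (.br (nat_lit 1) (.cons (.rel (nat_lit 37756929)) .nil)) .nil)) .leaf) (nat_lit 1077564652407) (.br (nat_lit 2) (.cons (.br (nat_lit 5) (.cons (.rel (nat_lit 8657043744)) .nil)) .nil)) (.node .leaf (nat_lit 1077564653050) (.br (nat_lit 1) (.cons (.br (nat_lit 3) (.cons (.rel (nat_lit 301989906)) .nil)) .nil)) .leaf))))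 (nat_lit 1077565466634) (.br (nat_lit 0) (.cons (.br (nat_lit 3) (.cons (.rel (nat_lit 272631936)) .nil)) .nil)) (.node (.node (.node (.node (.node .leaf (nat_lit 1077565928181) (.br (nat_lit 0) (.cons (.br (nat_lit 1) (.cons (.rel (nat_lit 25231365)) .nil)) .nil)) .leaf) (nat_lit 1079026650343) (.br (nat_lit 2) (.cons (.br (nat_lit 6) (.cons (.rel (nat_lit 17246979168)) .nil)) .nil)) .leaf) (nat_lit 1079026667530) (.br (nat_lit 3) (.cons (.br (nat_lit 0) (.cons (.rel (nat_lit 272957472)) (.cons (.rel (nat_lit 272631936)) (.cons (.rel (nat_lit 273752064)) .nil)))) .nil)) (.node .leaf (nat_lit 1079026710534) (.br (nat_lit 1) (.cons (.br (nat_lit 2) (.cons (.rel (nat_lit 83955984)) .nil)) .nil)) .leaf)) (nat_lit 1079026710559) (.br (nat_lit 1) (.cons (.br (nat_lit 2) (.cons (.rel (nat_lit 84213840)) .nil)) .nil)) (.node (.node .leaf (nat_lit 1079027222538) (.br (nat_lit 1) (.cons (.br (nat_lit 3) (.cons (.rel (nat_lit 285495312)) .nil)) .nil)) .leaf) (nat_lit 1079028198133) (.br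 (nat_lit 2) (.cons (.br (nat_lit 4) (.cons (.rel (nat_lit 2214597120)) (.cons (.rel (nat_lit 1207960584)) .nil))) .nil)) (.node .leaf (nat_lit 1079029269735) (.br (nat_lit 2) (.cons (.br (nat_lit 1) (.cons (.rel (nat_lit 83959809)) (.cons (.rel (nat_lit 167772165)) (.cons (.rel (nat_lit 84935748)) .nil)))) (.cons (.br (nat_lit 1) (.cons (.rel (nat_lit 84164673)) (.cons (.rel (nat_lit 83906817)) (.cons (.rel (nat_lit 167772165)) .nil)))) .nil))) .leaf))) (nat_lit 1079029280005) (.br (nat_lit 2) (.cons (.br (nat_lit 5) (.cons (.rel (nat_lit 8724415488)) .nil)) .nil)) (.node (.node (.node (.node .leaf (nat_lit 1079029846026) (.br (nat_lit 1) (.cons (.br (nat_lit 2) (.cons (.rel (nat_lit 167772165)) (.cons (.rel (nat_lit 83955984)) .nil))) .nil)) .leaf) (nat_lit 1079135701172) (.br (nat_lit 5) (.cons (.br (nat_lit 2) (.cons (.rel (nat_lit 4362076488)) (.cons (.rel (nat_lit 4362092625)) .nil))) .nil)) .leaf) (nat_lit 1079137093642) (.br (nat_lit 4) (.cons (.br (nat_lit 5) (.cons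 (.rel (nat_lit 5370040320)) .nil)) .nil)) (.node .leaf (nat_lit 1079137309547) (.br (nat_lit 1) (.cons (.br (nat_lit 5) (.cons (.rel (nat_lit 4311814176)) .nil)) .nil)) .leaf)) (nat_lit 1079508994228) (.br (nat_lit 3) (.cons (.br (nat_lit 5) (.cons (.rel (nat_lit 4563419394)) .nil)) .nil)) (.node (.node .leaf (nat_lit 1079508994353) (.br (nat_lit 1) (.cons (.br (nat_lit 0) (.cons (.rel (nat_lit 20971656)) (.cons (.rel (nat_lit 20971656)) .nil))) .nil)) .leaf) (nat_lit 1079508994800) (.br (nat_lit 0) (.cons (.br (nat_lit 3) (.cons (.rel (nat_lit 545260608)) .nil)) .nil)) (.node .leaf (nat_lit 1079508994803) (.br (nat_lit 0) (.cons (.br (nat_lit 1) (.cons (.rel (nat_lit 22036992)) .nil)) .nil)) .leaf))))) (nat_lit 1079508994805) (.br (nat_lit 0) (.cons (.br (nat_lit 1) (.cons (.rel (nat_lit 22022160)) .nil)) .nil)) (.node (.node (.node (.node (.node (.node .leaf (nat_lit 1079508994848) (.br (nat_lit 1) (.cons (.br (nat_lit 0) (.cons (.rel (nat_lit 25166097)) (.cons (.rel (nat_lit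 21250050)) .nil))) .nil)) .leaf) (nat_lit 1079508994853) (.br (nat_lit 1) (.cons (.br (nat_lit 3) (.cons (.rel (nat_lit 286263552)) (.cons (.rel (nat_lit 285540609)) .nil))) (.cons (.br (nat_lit 3) (.cons (.rel (nat_lit 285229185)) (.cons (.rel (nat_lit 285495312)) .nil))) .nil))) .leaf) (nat_lit 1079508994973) (.br (nat_lit 0) (.cons (.br (nat_lit 2) (.cons (.rel (nat_lit 71319810)) .nil)) .nil)) (.node .leaf (nat_lit 1079508995353) (.br (nat_lit 5) (.cons (.br (nat_lit 3) (.cons (.rel (nat_lit 4832362497)) (.cons (.rel (nat_lit 4563472386)) .nil))) .nil)) .leaf)) (nat_lit 1079508995578) (.br (nat_lit 1) (.cons (.br (nat_lit 3) (.cons (.rel (nat_lit 285229185)) (.cons (.rel (nat_lit 285229185)) (.cons (.rel (nat_lit 285229185)) (.cons (.rel (nat_lit 285214086)) (.cons (.rel (nat_lit 553656576)) .nil)))))) .nil)) (.node (.node .leaf (nat_lit 1079509120283) (.br (nat_lit 0) (.cons (.br (nat_lit 2) (.cons (.rel (nat_lit 71311368)) .nil)) .nil)) .leaf) (nat_lit 1079509354673) (.br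 (nat_lit 2) (.cons (.br (nat_lit 4) (.cons (.rel (nat_lit 1207960584)) .nil)) .nil)) (.node .leaf (nat_lit 1079509506058) (.br (nat_lit 3) (.cons (.br (nat_lit 4) (.cons (.rel (nat_lit 2684354565)) .nil)) .nil)) .leaf))) (nat_lit 1079509506079) (.br (nat_lit 0) (.cons (.br (nat_lit 1) (.cons (.rel (nat_lit 20971656)) (.cons (.rel (nat_lit 25169922)) .nil))) (.cons (.br (nat_lit 1) (.cons (.rel (nat_lit 41943108)) (.cons (.rel (nat_lit 21250050)) .nil))) .nil))) (.node (.node (.node (.node .leaf (nat_lit 1079509506299) (.br (nat_lit 3) (.cons (.br (nat_lit 6) (.cons (.rel (nat_lit 17448304902)) .nil)) .nil)) .leaf) (nat_lit 1079509526708) (.br (nat_lit 1) (.cons (.br (nat_lit 3) (.cons (.rel (nat_lit 301991940)) .nil)) .nil)) .leaf) (nat_lit 1079509527413) (.br (nat_lit 1) (.cons (.br (nat_lit 2) (.cons (.rel (nat_lit 83902992)) .nil)) .nil)) (.node .leaf (nat_lit 1079509527913) (.br (nat_lit 3) (.cons (.br (nat_lit 6) (.cons (.rel (nat_lit 34896629760)) .nil)) .nil)) .leaf))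 (nat_lit 1079509527928) (.br (nat_lit 0) (.cons (.br (nat_lit 1) (.cons (.rel (nat_lit 21299217)) .nil)) .nil)) (.node (.node .leaf (nat_lit 1079509557254) (.br (nat_lit 1) (.cons (.br (nat_lit 5) (.cons (.rel (nat_lit 4328588352)) .nil)) .nil)) .leaf) (nat_lit 1079509558753) (.br (nat_lit 3) (.cons (.br (nat_lit 4) (.cons (.rel (nat_lit 1342177290)) .nil)) .nil)) (.node .leaf (nat_lit 1079509567498) (.br (nat_lit 0) (.cons (.br (nat_lit 3) (.cons (.rel (nat_lit 545260608)) .nil)) .nil)) .leaf)))) (nat_lit 1079509567769) (.br (nat_lit 0) (.cons (.br (nat_lit 1) (.cons (.rel (nat_lit 21250050)) .nil)) .nil)) (.node (.node (.node (.node (.node .leaf (nat_lit 1079509568288) (.br (nat_lit 1) (.cons (.br (nat_lit 3) (.cons (.rel (nat_lit 285540609)) (.cons (.rel (nat_lit 285495312)) .nil))) .nil)) .leaf) (nat_lit 1079510538891) (.br (nat_lit 1) (.cons (.br (nat_lit 6) (.cons (.rel (nat_lit 17196683520)) .nil)) .nil)) .leaf) (nat_lit 1079510540939) (.br (nat_lit 0) (.cons (.br (nat_lit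 2) (.cons (.rel (nat_lit 142610436)) .nil)) .nil)) (.node .leaf (nat_lit 1079510541095) (.br (nat_lit 1) (.cons (.br (nat_lit 6) (.cons (.rel (nat_lit 34393358592)) .nil)) .nil)) .leaf)) (nat_lit 1079510543093) (.br (nat_lit 4) (.cons (.br (nat_lit 6) (.cons (.rel (nat_lit 18254925828)) (.cons (.rel (nat_lit 35433611280)) .nil))) (.cons (.br (nat_lit 6) (.cons (.rel (nat_lit 18253611078)) (.cons (.rel (nat_lit 18253612113)) .nil))) .nil))) (.node (.node .leaf (nat_lit 1079510543248) (.br (nat_lit 2) (.cons (.br (nat_lit 4) (.cons (.rel (nat_lit 1142950416)) .nil)) .nil)) .leaf) (nat_lit 1079510543261) (.br (nat_lit 1) (.cons (.br (nat_lit 2) (.cons (.rel (nat_lit 167773200)) .nil)) .nil)) (.node .leaf (nat_lit 1079510550538) (.br (nat_lit 1) (.cons (.br (nat_lit 3) (.cons (.rel (nat_lit 570950913)) .nil)) .nil)) .leaf))) (nat_lit 1079510550678) (.br (nat_lit 1) (.cons (.br (nat_lit 2) (.cons (.rel (nat_lit 83887125)) .nil)) .nil)) (.node (.node (.node .leaf (nat_lit 1079510583306)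 (.br (nat_lit 5) (.cons (.br (nat_lit 6) (.cons (.rel (nat_lit 21474844740)) (.cons (.rel (nat_lit 38654709780)) .nil))) (.cons (.br (nat_lit 6) (.cons (.rel (nat_lit 21475361028)) (.cons (.rel (nat_lit 38654773248)) .nil))) .nil))) .leaf) (nat_lit 1079510599686) (.br (nat_lit 4) (.cons (.br (nat_lit 6) (.cons (.rel (nat_lit 18253611078)) .nil)) .nil)) (.node .leaf (nat_lit 1079510600465) (.br (nat_lit 0) (.cons (.br (nat_lit 6) (.cons (.rel (nat_lit 17185113168)) (.cons (.rel (nat_lit 17184065544)) (.cons (.rel (nat_lit 17184198672)) .nil)))) (.cons (.br (nat_lit 1) (.cons (.rel (nat_lit 41943108)) (.cons (.rel (nat_lit 37753104)) (.cons (.rel (nat_lit 25231365)) (.cons (.rel (nat_lit 20971656)) .nil))))) .nil))) .leaf)) (nat_lit 1079510600987) (.br (nat_lit 2) (.cons (.br (nat_lit 5) (.cons (.rel (nat_lit 4363452672)) .nil)) .nil)) (.node (.node .leaf (nat_lit 1079510601065) (.br (nat_lit 1) (.cons (.br (nat_lit 3) (.cons (.rel (nat_lit 285229185)) .nil)) .nil)) .leaf) (nat_lit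 1079510786803) (.br (nat_lit 0) (.cons (.br (nat_lit 1) (.cons (.rel (nat_lit 22036992)) .nil)) .nil)) (.node .leaf (nat_lit 1079510808756) (.br (nat_lit 1) (.cons (.br (nat_lit 3) (.cons (.rel (nat_lit 553914432)) .nil)) .nil)) .leaf)))))) (nat_lit 1079510809463) (.br (nat_lit 1) (.cons (.br (nat_lit 2) (.cons (.rel (nat_lit 83906817)) (.cons (.rel (nat_lit 83887125)) .nil))) (.cons (.br (nat_lit 2) (.cons (.rel (nat_lit 83888160)) (.cons (.rel (nat_lit 83887125)) .nil))) .nil))) (.node (.node (.node (.node (.node (.node (.node .leaf (nat_lit 1079510835225) (.br (nat_lit 0) (.cons (.br (nat_lit 1) (.cons (.rel (nat_lit 41943108)) .nil)) .nil)) .leaf) (nat_lit 1079510910986) (.br (nat_lit 4) (.cons (.br (nat_lit 6) (.cons (.rel (nat_lit 35433611280)) .nil)) .nil)) .leaf) (nat_lit 1079510911156) (.br (nat_lit 1) (.cons (.br (nat_lit 5) (.cons (.rel (nat_lit 4311748872)) .nil)) .nil)) (.node .leaf (nat_lit 1079510911227) (.br (nat_lit 1) (.cons (.br (nat_lit 4) (.cons (.rel (nat_lit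 2181038100)) .nil)) .nil)) .leaf)) (nat_lit 1079510911913) (.br (nat_lit 3) (.cons (.br (nat_lit 4) (.cons (.rel (nat_lit 1343226948)) (.cons (.rel (nat_lit 1343226948)) (.cons (.rel (nat_lit 1342177290)) .nil)))) (.cons (.br (nat_lit 4) (.cons (.rel (nat_lit 1342178325)) (.cons (.rel (nat_lit 1342455873)) (.cons (.rel (nat_lit 1342312452)) .nil)))) (.cons (.br (nat_lit 4) (.cons (.rel (nat_lit 1342455873)) (.cons (.rel (nat_lit 1342198017)) (.cons (.rel (nat_lit 1342177290)) .nil)))) .nil)))) (.node (.node .leaf (nat_lit 1079510912506) (.br (nat_lit 5) (.cons (.br (nat_lit 1) (.cons (.rel (nat_lit 4311761184)) (.cons (.rel (nat_lit 4312006728)) .nil))) .nil)) .leaf) (nat_lit 1079511554954) (.br (nat_lit 1) (.cons (.br (nat_lit 3) (.cons (.rel (nat_lit 285278352)) .nil)) .nil)) (.node .leaf (nat_lit 1079511555299) (.br (nat_lit 2) (.cons (.br (nat_lit 0) (.cons (.rel (nat_lit 71311368)) (.cons (.rel (nat_lit 71368977)) (.cons (.rel (nat_lit 71323680)) .nil)))) .nil)) .leaf)))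 (nat_lit 1079511606628) (.br (nat_lit 1) (.cons (.br (nat_lit 3) (.cons (.rel (nat_lit 285229185)) .nil)) .nil)) (.node (.node (.node (.node .leaf (nat_lit 1079511613450) (.br (nat_lit 3) (.cons (.br (nat_lit 6) (.cons (.rel (nat_lit 17448304902)) .nil)) .nil)) .leaf) (nat_lit 1079511614825) (.br (nat_lit 3) (.cons (.br (nat_lit 5) (.cons (.rel (nat_lit 4563472386)) .nil)) .nil)) .leaf) (nat_lit 1079511614970) (.br (nat_lit 3) (.cons (.br (nat_lit 1) (.cons (.rel (nat_lit 285278352)) (.cons (.rel (nat_lit 553656576)) .nil))) .nil)) (.node .leaf (nat_lit 1079511623690) (.br (nat_lit 0) (.cons (.br (nat_lit 1) (.cons (.rel (nat_lit 21234948)) (.cons (.rel (nat_lit 22022160)) .nil))) .nil)) .leaf)) (nat_lit 1079511624586) (.br (nat_lit 2) (.cons (.br (nat_lit 3) (.cons (.rel (nat_lit 335546370)) .nil)) .nil)) (.node (.node .leaf (nat_lit 1079511625878) (.br (nat_lit 1) (.cons (.br (nat_lit 3) (.cons (.rel (nat_lit 553656576)) .nil)) .nil)) .leaf) (nat_lit 1079511627233) (.br (nat_lit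 1) (.cons (.br (nat_lit 3) (.cons (.rel (nat_lit 285229185)) .nil)) .nil)) (.node .leaf (nat_lit 1079511810228) (.br (nat_lit 1) (.cons (.br (nat_lit 3) (.cons (.rel (nat_lit 285495312)) .nil)) .nil)) .leaf)))) (nat_lit 1079511810353) (.br (nat_lit 0) (.cons (.br (nat_lit 1) (.cons (.rel (nat_lit 37756929)) .nil)) .nil)) (.node (.node (.node (.node (.node .leaf (nat_lit 1079511810853) (.br (nat_lit 1) (.cons (.br (nat_lit 3) (.cons (.rel (nat_lit 285229185)) .nil)) .nil)) .leaf) (nat_lit 1079511831414) (.br (nat_lit 2) (.cons (.br (nat_lit 0) (.cons (.rel (nat_lit 142610436)) (.cons (.rel (nat_lit 71323680)) .nil))) .nil)) .leaf) (nat_lit 1079511832836) (.br (nat_lit 1) (.cons (.br (nat_lit 2) (.cons (.rel (nat_lit 83887125)) .nil)) .nil)) (.node .leaf (nat_lit 1079511833883) (.br (nat_lit 2) (.cons (.br (nat_lit 0) (.cons (.rel (nat_lit 72892416)) (.cons (.rel (nat_lit 142610436)) .nil))) .nil)) .leaf)) (nat_lit 1079512126252) (.br (nat_lit 3) (.cons (.br (nat_lit 4) (.cons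 (.rel (nat_lit 2684354565)) .nil)) .nil)) (.node (.node .leaf (nat_lit 1079512126846) (.br (nat_lit 1) (.cons (.br (nat_lit 2) (.cons (.rel (nat_lit 83888160)) .nil)) .nil)) .leaf) (nat_lit 1079512126970) (.br (nat_lit 1) (.cons (.br (nat_lit 4) (.cons (.rel (nat_lit 1090519080)) (.cons (.rel (nat_lit 1090519080)) (.cons (.rel (nat_lit 1090535937)) .nil)))) (.cons (.br (nat_lit 4) (.cons (.rel (nat_lit 1090846785)) (.cons (.rel (nat_lit 1090521105)) (.cons (.rel (nat_lit 1090519080)) .nil)))) (.cons (.br (nat_lit 4) (.cons (.rel (nat_lit 1090519080)) (.cons (.rel (nat_lit 1090520070)) (.cons (.rel (nat_lit 1107558528)) .nil)))) .nil)))) (.node .leaf (nat_lit 1080062642987) (.br (nat_lit 0) (.cons (.br (nat_lit 1) (.cons (.rel (nat_lit 41943108)) .nil)) .nil)) .leaf))) (nat_lit 1080062643731) (.br (nat_lit 5) (.cons (.br (nat_lit 0) (.cons (.rel (nat_lit 8594653248)) (.cons (.rel (nat_lit 4299162900)) .nil))) .nil)) (.node (.node (.node .leaf (nat_lit 1080064036321) (.br (nat_lit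 0) (.cons (.br (nat_lit 1) (.cons (.rel (nat_lit 20971656)) .nil)) .nil)) .leaf) (nat_lit 1080064043668) (.br (nat_lit 1) (.cons (.br (nat_lit 3) (.cons (.rel (nat_lit 301994496)) .nil)) .nil)) (.node .leaf (nat_lit 1080064231430) (.br (nat_lit 0) (.cons (.br (nat_lit 4) (.cons (.rel (nat_lit 2155873536)) .nil)) .nil)) .leaf)) (nat_lit 1080064232176) (.br (nat_lit 4) (.cons (.br (nat_lit 0) (.cons (.rel (nat_lit 1077938688)) (.cons (.rel (nat_lit 2155873536)) .nil))) .nil)) (.node (.node .leaf (nat_lit 1080065826298) (.br (nat_lit 1) (.cons (.br (nat_lit 4) (.cons (.rel (nat_lit 1090846785)) .nil)) .nil)) .leaf) (nat_lit 1080159129610) (.br (nat_lit 0) (.cons (.br (nat_lit 3) (.cons (.rel (nat_lit 272631936)) (.cons (.rel (nat_lit 272631936)) (.cons (.rel (nat_lit 273679380)) .nil)))) (.cons (.br (nat_lit 5) (.cons (.rel (nat_lit 4299162900)) (.cons (.rel (nat_lit 4299182592)) .nil))) .nil))) (.node .leaf (nat_lit 1080159130405) (.br (nat_lit 3) (.cons (.br (nat_lit 5) (.cons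 (.rel (nat_lit 4833935616)) .nil)) .nil)) .leaf))))) (nat_lit 1080159160345) (.br (nat_lit 4) (.cons (.br (nat_lit 5) (.cons (.rel (nat_lit 5368774737)) (.cons (.rel (nat_lit 5368774737)) .nil))) .nil)) (.node (.node (.node (.node (.node (.node .leaf (nat_lit 1080159161825) (.br (nat_lit 0) (.cons (.br (nat_lit 5) (.cons (.rel (nat_lit 4299228168)) .nil)) .nil)) .leaf) (nat_lit 1080159161850) (.br (nat_lit 2) (.cons (.br (nat_lit 4) (.cons (.rel (nat_lit 1140916545)) .nil)) .nil)) .leaf) (nat_lit 1080159161875) (.br (nat_lit 5) (.cons (.br (nat_lit 6) (.cons (.rel (nat_lit 38654715408)) .nil)) .nil)) (.node .leaf (nat_lit 1080159172618) (.br (nat_lit 1) (.cons (.br (nat_lit 3) (.cons (.rel (nat_lit 286265352)) .nil)) .nil)) .leaf)) (nat_lit 1080159376285) (.br (nat_lit 3) (.cons (.br (nat_lit 1) (.cons (.rel (nat_lit 285229185)) (.cons (.rel (nat_lit 285278352)) .nil))) .nil)) (.node (.node .leaf (nat_lit 1080159624698) (.br (nat_lit 2) (.cons (.br (nat_lit 4) (.cons (.rel (nat_lit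 1141391361)) .nil)) .nil)) .leaf) (nat_lit 1080160668459) (.br (nat_lit 1) (.cons (.br (nat_lit 4) (.cons (.rel (nat_lit 1092894720)) .nil)) .nil)) (.node .leaf (nat_lit 1080160716825) (.br (nat_lit 6) (.cons (.br (nat_lit 1) (.cons (.rel (nat_lit 17213425728)) (.cons (.rel (nat_lit 17196683520)) (.cons (.rel (nat_lit 34376516736)) (.cons (.rel (nat_lit 17196736512)) .nil))))) .nil)) .leaf))) (nat_lit 1080160717585) (.br (nat_lit 5) (.cons (.br (nat_lit 4) (.cons (.rel (nat_lit 5369233416)) (.cons (.rel (nat_lit 6442459137)) .nil))) .nil)) (.node (.node (.node (.node .leaf (nat_lit 1080160768810) (.br (nat_lit 1) (.cons (.br (nat_lit 0) (.cons (.rel (nat_lit 25232400)) (.cons (.br (nat_lit 6) (.cons (.rel (nat_lit 17184068100)) (.cons (.rel (nat_lit 17196646692)) (.cons (.rel (nat_lit 17196683520)) .nil)))) (.cons (.rel (nat_lit 21250050)) .nil)))) (.cons (.br (nat_lit 5) (.cons (.rel (nat_lit 4330622976)) (.cons (.rel (nat_lit 4311748872)) (.cons (.rel (nat_lit 4311747072))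 .nil)))) .nil))) .leaf) (nat_lit 1080161028248) (.br (nat_lit 4) (.cons (.br (nat_lit 5) (.cons (.rel (nat_lit 5368710468)) .nil)) .nil)) .leaf) (nat_lit 1080161028273) (.br (nat_lit 4) (.cons (.br (nat_lit 6) (.cons (.rel (nat_lit 35433611280)) .nil)) .nil)) (.node .leaf (nat_lit 1080161028856) (.br (nat_lit 1) (.cons (.br (nat_lit 4) (.cons (.rel (nat_lit 1090585104)) .nil)) .nil)) .leaf)) (nat_lit 1080161029033) (.br (nat_lit 6) (.cons (.br (nat_lit 4) (.cons (.rel (nat_lit 35433562113)) (.cons (.rel (nat_lit 36507500544)) .nil))) .nil)) (.node (.node .leaf (nat_lit 1080161691000) (.br (nat_lit 1) (.cons (.br (nat_lit 3) (.cons (.rel (nat_lit 285495312)) .nil)) .nil)) .leaf) (nat_lit 1080162192170) (.br (nat_lit 0) (.cons (.br (nat_lit 2) (.cons (.rel (nat_lit 142869060)) .nil)) .nil)) (.node .leaf (nat_lit 1080162192915) (.br (nat_lit 4) (.cons (.br (nat_lit 5) (.cons (.rel (nat_lit 10737680388)) .nil)) .nil)) .leaf)))) (nat_lit 1080162242811) (.br (nat_lit 4) (.cons (.br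 (nat_lit 5) (.cons (.rel (nat_lit 5368774737)) .nil)) .nil)) (.node (.node (.node (.node (.node .leaf (nat_lit 1080162243372) (.br (nat_lit 0) (.cons (.br (nat_lit 5) (.cons (.rel (nat_lit 4299227169)) .nil)) .nil)) .leaf) (nat_lit 1080162295265) (.br (nat_lit 4) (.cons (.br (nat_lit 5) (.cons (.rel (nat_lit 6442459137)) .nil)) .nil)) .leaf) (nat_lit 1080162304785) (.br (nat_lit 1) (.cons (.br (nat_lit 5) (.cons (.rel (nat_lit 4311747072)) .nil)) .nil)) (.node .leaf (nat_lit 1080184277297) (.br (nat_lit 0) (.cons (.br (nat_lit 2) (.cons (.rel (nat_lit 71434245)) .nil)) .nil)) .leaf)) (nat_lit 1080184277747) (.br (nat_lit 0) (.cons (.br (nat_lit 5) (.cons (.rel (nat_lit 4299161865)) .nil)) .nil)) (.node (.node .leaf (nat_lit 1080184277792) (.br (nat_lit 0) (.cons (.br (nat_lit 4) (.cons (.rel (nat_lit 1077938688)) .nil)) .nil)) .leaf) (nat_lit 1080184326169) (.br (nat_lit 2) (.cons (.br (nat_lit 6) (.cons (.rel (nat_lit 17247064128)) .nil)) .nil)) (.node .leaf (nat_lit 1080185669642)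 (.br (nat_lit 0) (.cons (.br (nat_lit 3) (.cons (.rel (nat_lit 272908305)) .nil)) .nil)) .leaf))) (nat_lit 1080185671013) (.br (nat_lit 0) (.cons (.br (nat_lit 1) (.cons (.rel (nat_lit 22036992)) .nil)) .nil)) (.node (.node (.node .leaf (nat_lit 1080185821939) (.br (nat_lit 3) (.cons (.br (nat_lit 2) (.cons (.rel (nat_lit 337969152)) (.cons (.rel (nat_lit 335546370)) .nil))) .nil)) .leaf) (nat_lit 1080185873139) (.br (nat_lit 3) (.cons (.br (nat_lit 0) (.cons (.rel (nat_lit 272892168)) (.cons (.rel (nat_lit 545260608)) .nil))) .nil)) (.node .leaf (nat_lit 1080185883384) (.br (nat_lit 2) (.cons (.br (nat_lit 4) (.cons (.rel (nat_lit 1140982848)) .nil)) .nil)) .leaf)) (nat_lit 1080185883409) (.br (nat_lit 5) (.cons (.br (nat_lit 6) (.cons (.rel (nat_lit 21474869328)) .nil)) .nil)) (.node (.node .leaf (nat_lit 1080185884030) (.br (nat_lit 2) (.cons (.br (nat_lit 4) (.cons (.rel (nat_lit 1140871248)) .nil)) .nil)) .leaf) (nat_lit 1080186194857) (.br (nat_lit 1) (.cons (.br (nat_lit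 5) (.cons (.rel (nat_lit 4311748872)) .nil)) .nil)) (.node .leaf (nat_lit 1080187115700) (.br (nat_lit 5) (.cons (.br (nat_lit 6) (.cons (.rel (nat_lit 21474918498)) .nil)) .nil)) .leaf))))))))

/-- refutations 2 -/
def e2 : EX := (.node (.node (.node (.node (.node (.node (.node (.node .leaf (nat_lit 1289150241573) (.br (nat_lit 0) (.cons (.br (nat_lit 2) (.cons (.rel (nat_lit 138412161)) (.cons (.rel (nat_lit 138412161)) .nil))) .nil)) .leaf) (nat_lit 1289150292594) (.br (nat_lit 0) (.cons (.br (nat_lit 2) (.cons (.rel (nat_lit 71319810)) .nil)) .nil)) .leaf) (nat_lit 1289150511991) (.br (nat_lit 0) (.cons (.br (nat_lit 5) (.cons (.rel (nat_lit 4299162900)) .nil)) .nil)) (.node (.node .leaf (nat_lit 1289150512041) (.br (nat_lit 4) (.cons (.br (nat_lit 5) (.cons (.rel (nat_lit 6442520580)) .nil)) .nil)) .leaf) (nat_lit 1289151829473) (.br (nat_lit 4) (.cons (.br (nat_lit 1) (.cons (.rel (nat_lit 1090519080)) (.cons (.rel (nat_lit 1090519080)) .nil))) .nil)) .leaf)) (nat_lit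 1289151880673) (.br (nat_lit 2) (.cons (.br (nat_lit 5) (.cons (.rel (nat_lit 4362602496)) .nil)) .nil)) (.node (.node (.node .leaf (nat_lit 1291761797905) (.br (nat_lit 0) (.cons (.br (nat_lit 1) (.cons (.rel (nat_lit 21299217)) .nil)) .nil)) .leaf) (nat_lit 1291761798625) (.br (nat_lit 1) (.cons (.br (nat_lit 5) (.cons (.br (nat_lit 4) (.cons (.rel (nat_lit 6442459137)) (.cons (.rel (nat_lit 5369233416)) .nil))) .nil)) .nil)) .leaf) (nat_lit 1291763353610) (.br (nat_lit 0) (.cons (.br (nat_lit 2) (.cons (.rel (nat_lit 138690564)) .nil)) .nil)) (.node (.node .leaf (nat_lit 1291763664906) (.br (nat_lit 3) (.cons (.br (nat_lit 4) (.cons (.rel (nat_lit 2684354565)) .nil)) .nil)) .leaf) (nat_lit 1292369922853) (.br (nat_lit 0) (.cons (.br (nat_lit 3) (.cons (.rel (nat_lit 272892168)) .nil)) .nil)) .leaf))) (nat_lit 1292369971985) (.br (nat_lit 1) (.cons (.br (nat_lit 6) (.cons (.rel (nat_lit 17196647682)) .nil)) .nil)) (.node (.node (.node (.node .leaf (nat_lit 1292370485254) (.br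 (nat_lit 1) (.cons (.br (nat_lit 5) (.cons (.rel (nat_lit 4311747072)) .nil)) .nil)) .leaf) (nat_lit 1292370486654) (.br (nat_lit 1) (.cons (.br (nat_lit 5) (.cons (.rel (nat_lit 4312006728)) .nil)) .nil)) .leaf) (nat_lit 1292371478538) (.br (nat_lit 0) (.cons (.br (nat_lit 6) (.cons (.rel (nat_lit 34368128004)) .nil)) .nil)) (.node (.node .leaf (nat_lit 1292371568650) (.br (nat_lit 5) (.cons (.br (nat_lit 6) (.cons (.rel (nat_lit 21474844740)) .nil)) .nil)) .leaf) (nat_lit 1292371569420) (.br (nat_lit 1) (.cons (.br (nat_lit 3) (.cons (.rel (nat_lit 553746432)) .nil)) .nil)) .leaf)) (nat_lit 1292372482954) (.br (nat_lit 2) (.cons (.br (nat_lit 6) (.cons (.rel (nat_lit 17247633408)) (.cons (.rel (nat_lit 17247064128)) .nil))) .nil)) (.node (.node (.node .leaf (nat_lit 1292372738828) (.br (nat_lit 0) (.cons (.br (nat_lit 3) (.cons (.rel (nat_lit 277876800)) .nil)) .nil)) .leaf) (nat_lit 1292372738853) (.br (nat_lit 0) (.cons (.br (nat_lit 6) (.cons (.rel (nat_lit 17184068100))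 .nil)) .nil)) .leaf) (nat_lit 1292373003045) (.br (nat_lit 0) (.cons (.br (nat_lit 1) (.cons (.rel (nat_lit 20971656)) .nil)) .nil)) (.node .leaf (nat_lit 1294363874090) (.br (nat_lit 0) (.cons (.br (nat_lit 4) (.cons (.rel (nat_lit 1077938688)) .nil)) .nil)) .leaf)))) (nat_lit 1294364031283) (.br (nat_lit 1) (.cons (.br (nat_lit 3) (.cons (.rel (nat_lit 553648161)) .nil)) .nil)) (.node (.node (.node (.node (.node .leaf (nat_lit 1294364032233) (.br (nat_lit 2) (.cons (.br (nat_lit 6) (.cons (.rel (nat_lit 17247011136)) .nil)) .nil)) .leaf) (nat_lit 1294364057625) (.br (nat_lit 1) (.cons (.br (nat_lit 3) (.cons (.rel (nat_lit 285507588)) .nil)) .nil)) .leaf) (nat_lit 1294364134683) (.br (nat_lit 2) (.cons (.br (nat_lit 3) (.cons (.rel (nat_lit 335546370)) .nil)) .nil)) (.node (.node .leaf (nat_lit 1295012383480) (.br (nat_lit 5) (.cons (.br (nat_lit 0) (.cons (.rel (nat_lit 4299162900)) (.cons (.rel (nat_lit 4299325440)) .nil))) .nil)) .leaf) (nat_lit 1295012383530) (.br (nat_lit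 6) (.cons (.br (nat_lit 0) (.cons (.rel (nat_lit 17184063510)) (.cons (.rel (nat_lit 17184096513)) .nil))) .nil)) .leaf)) (nat_lit 1295012384225) (.br (nat_lit 4) (.cons (.br (nat_lit 5) (.cons (.rel (nat_lit 5368774737)) .nil)) .nil)) (.node (.node (.node .leaf (nat_lit 1295013939960) (.br (nat_lit 0) (.cons (.br (nat_lit 5) (.cons (.rel (nat_lit 4300226625)) .nil)) .nil)) .leaf) (nat_lit 1295013990425) (.br (nat_lit 3) (.cons (.br (nat_lit 5) (.cons (.rel (nat_lit 4563410952)) .nil)) .nil)) .leaf) (nat_lit 1295013991160) (.br (nat_lit 5) (.cons (.br (nat_lit 0) (.cons (.rel (nat_lit 4299180036)) (.cons (.rel (nat_lit 4299325440)) .nil))) .nil)) (.node (.node .leaf (nat_lit 1295013991185) (.br (nat_lit 4) (.cons (.br (nat_lit 0) (.cons (.rel (nat_lit 1077938688)) (.cons (.rel (nat_lit 1077940488)) .nil))) .nil)) .leaf) (nat_lit 1295013991210) (.br (nat_lit 4) (.cons (.br (nat_lit 0) (.cons (.rel (nat_lit 2155873536)) (.cons (.rel (nat_lit 2155873536)) .nil))) .nil)) .leaf)))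 (nat_lit 1295015415265) (.br (nat_lit 4) (.cons (.br (nat_lit 5) (.cons (.rel (nat_lit 6442467588)) .nil)) .nil)) (.node (.node (.node (.node .leaf (nat_lit 1295015466465) (.br (nat_lit 0) (.cons (.br (nat_lit 2) (.cons (.rel (nat_lit 71311368)) (.cons (.rel (nat_lit 71434245)) .nil))) .nil)) .leaf) (nat_lit 1295015517690) (.br (nat_lit 2) (.cons (.br (nat_lit 4) (.cons (.rel (nat_lit 2214594564)) .nil)) .nil)) .leaf) (nat_lit 1295015517715) (.br (nat_lit 4) (.cons (.br (nat_lit 1) (.cons (.rel (nat_lit 1090519080)) (.cons (.rel (nat_lit 1090519080)) .nil))) .nil)) (.node (.node .leaf (nat_lit 1503452465938) (.br (nat_lit 0) (.cons (.br (nat_lit 3) (.cons (.rel (nat_lit 273678345)) .nil)) .nil)) .leaf) (nat_lit 1503454009650) (.br (nat_lit 0) (.cons (.br (nat_lit 3) (.cons (.rel (nat_lit 541069569)) .nil)) .nil)) .leaf)) (nat_lit 1503454010099) (.br (nat_lit 2) (.cons (.br (nat_lit 5) (.cons (.rel (nat_lit 4362602496)) .nil)) .nil)) (.node (.node (.node .leaf (nat_lit 1503454061299)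 (.br (nat_lit 0) (.cons (.br (nat_lit 3) (.cons (.rel (nat_lit 545260608)) .nil)) .nil)) .leaf) (nat_lit 1503454122794) (.br (nat_lit 0) (.cons (.br (nat_lit 4) (.cons (.rel (nat_lit 1078001922)) .nil)) .nil)) .leaf) (nat_lit 1504003199756) (.br (nat_lit 0) (.cons (.br (nat_lit 6) (.cons (.rel (nat_lit 34368128004)) .nil)) .nil)) (.node .leaf (nat_lit 1504003199913) (.br (nat_lit 0) (.cons (.br (nat_lit 3) (.cons (.rel (nat_lit 545260608)) .nil)) .nil)) .leaf))))) (nat_lit 1504003463948) (.br (nat_lit 0) (.cons (.br (nat_lit 4) (.cons (.rel (nat_lit 1077938688)) .nil)) .nil)) (.node (.node (.node (.node (.node (.node .leaf (nat_lit 1504003463973) (.br (nat_lit 0) (.cons (.br (nat_lit 4) (.cons (.rel (nat_lit 1078001922)) .nil)) .nil)) .leaf) (nat_lit 1504003508976) (.br (nat_lit 0) (.cons (.br (nat_lit 2) (.cons (.rel (nat_lit 71371014)) .nil)) .nil)) .leaf) (nat_lit 1504003514994) (.br (nat_lit 0) (.cons (.br (nat_lit 6) (.cons (.rel (nat_lit 17190428928)) .nil)) .nil)) (.node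 (.node .leaf (nat_lit 1504003515123) (.br (nat_lit 4) (.cons (.br (nat_lit 0) (.cons (.rel (nat_lit 1077938688)) (.cons (.rel (nat_lit 1077956625)) .nil))) .nil)) .leaf) (nat_lit 1504003515148) (.br (nat_lit 4) (.cons (.br (nat_lit 2) (.cons (.rel (nat_lit 1140883524)) (.cons (.rel (nat_lit 1140883524)) (.cons (.rel (nat_lit 2214739968)) .nil)))) .nil)) .leaf)) (nat_lit 1504003566323) (.br (nat_lit 0) (.cons (.br (nat_lit 6) (.cons (.rel (nat_lit 34368128004)) .nil)) .nil)) (.node (.node (.node .leaf (nat_lit 1504003567105) (.br (nat_lit 0) (.cons (.br (nat_lit 1) (.cons (.rel (nat_lit 38010960)) .nil)) .nil)) .leaf) (nat_lit 1504003734155) (.br (nat_lit 0) (.cons (.br (nat_lit 2) (.cons (.rel (nat_lit 142606614)) (.cons (.rel (nat_lit 71311368)) .nil))) .nil)) .leaf) (nat_lit 1504003734391) (.br (nat_lit 0) (.cons (.br (nat_lit 2) (.cons (.rel (nat_lit 138678288)) .nil)) .nil)) (.node (.node .leaf (nat_lit 1504003734416) (.br (nat_lit 0) (.cons (.br (nat_lit 6) (.cons (.rel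 (nat_lit 17184063510)) .nil)) .nil)) .leaf) (nat_lit 1504003734441) (.br (nat_lit 6) (.cons (.br (nat_lit 0) (.cons (.rel (nat_lit 17184065544)) (.cons (.br (nat_lit 4) (.cons (.rel (nat_lit 18253612113)) (.cons (.rel (nat_lit 1077940488)) .nil))) .nil))) .nil)) .leaf))) (nat_lit 1504003836530) (.br (nat_lit 0) (.cons (.br (nat_lit 3) (.cons (.rel (nat_lit 272957472)) .nil)) .nil)) (.node (.node (.node (.node .leaf (nat_lit 1504003836684) (.br (nat_lit 0) (.cons (.br (nat_lit 6) (.cons (.rel (nat_lit 17184065544)) .nil)) .nil)) .leaf) (nat_lit 1504394805553) (.br (nat_lit 0) (.cons (.br (nat_lit 1) (.cons (.rel (nat_lit 22036992)) .nil)) .nil)) .leaf) (nat_lit 1504395163658) (.br (nat_lit 1) (.cons (.br (nat_lit 2) (.cons (.rel (nat_lit 167773200)) .nil)) .nil)) (.node (.node .leaf (nat_lit 1505862556899) (.br (nat_lit 0) (.cons (.br (nat_lit 3) (.cons (.rel (nat_lit 272957472)) .nil)) .nil)) .leaf) (nat_lit 1505862557028) (.br (nat_lit 2) (.cons (.br (nat_lit 3) (.cons (.rel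 (nat_lit 335545380)) .nil)) .nil)) .leaf)) (nat_lit 1505863190040) (.br (nat_lit 1) (.cons (.br (nat_lit 0) (.cons (.rel (nat_lit 21299217)) (.cons (.rel (nat_lit 21299217)) .nil))) .nil)) (.node (.node (.node .leaf (nat_lit 1506006858488) (.br (nat_lit 1) (.cons (.br (nat_lit 2) (.cons (.rel (nat_lit 83887125)) .nil)) .nil)) .leaf) (nat_lit 1506531133465) (.br (nat_lit 6) (.cons (.br (nat_lit 4) (.cons (.rel (nat_lit 35433611280)) (.cons (.rel (nat_lit 18253693248)) (.cons (.rel (nat_lit 36507500544)) (.cons (.rel (nat_lit 35433562113)) .nil))))) (.cons (.br (nat_lit 4) (.cons (.rel (nat_lit 18254168064)) (.cons (.rel (nat_lit 19327369233)) (.cons (.rel (nat_lit 19327369233)) (.cons (.rel (nat_lit 36507500544)) .nil))))) .nil))) .leaf) (nat_lit 1506531134200) (.br (nat_lit 4) (.cons (.br (nat_lit 6) (.cons (.rel (nat_lit 35433611280)) .nil)) .nil)) (.node .leaf (nat_lit 1506531134250) (.br (nat_lit 0) (.cons (.br (nat_lit 2) (.cons (.rel (nat_lit 71311368)) .nil)) .nil)) .leaf))))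 (nat_lit 1506531134945) (.br (nat_lit 0) (.cons (.br (nat_lit 4) (.cons (.rel (nat_lit 1077940488)) (.cons (.rel (nat_lit 1077938688)) .nil))) (.cons (.br (nat_lit 4) (.cons (.rel (nat_lit 1077968901)) (.cons (.rel (nat_lit 2155873536)) .nil))) .nil))) (.node (.node (.node (.node (.node .leaf (nat_lit 1506531134970) (.br (nat_lit 3) (.cons (.br (nat_lit 1) (.cons (.rel (nat_lit 286263552)) (.cons (.rel (nat_lit 286265352)) .nil))) .nil)) .leaf) (nat_lit 1506531349765) (.br (nat_lit 0) (.cons (.br (nat_lit 1) (.cons (.rel (nat_lit 22036992)) .nil)) .nil)) .leaf) (nat_lit 1506531597225) (.br (nat_lit 0) (.cons (.br (nat_lit 2) (.cons (.rel (nat_lit 77594640)) .nil)) .nil)) (.node (.node .leaf (nat_lit 1506531597818) (.br (nat_lit 0) (.cons (.br (nat_lit 1) (.cons (.rel (nat_lit 26214720)) .nil)) .nil)) .leaf) (nat_lit 1506532690705) (.br (nat_lit 2) (.cons (.br (nat_lit 4) (.cons (.rel (nat_lit 1140982848)) (.cons (.rel (nat_lit 1207959585)) .nil))) (.cons (.br (nat_lit 4) (.cons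 (.rel (nat_lit 1208057856)) (.cons (.rel (nat_lit 1141391361)) .nil))) .nil))) .leaf)) (nat_lit 1506532692754) (.br (nat_lit 0) (.cons (.br (nat_lit 3) (.cons (.rel (nat_lit 272892168)) .nil)) .nil)) (.node (.node (.node .leaf (nat_lit 1506532692773) (.br (nat_lit 0) (.cons (.br (nat_lit 1) (.cons (.rel (nat_lit 20971656)) .nil)) .nil)) .leaf) (nat_lit 1506532741145) (.br (nat_lit 0) (.cons (.br (nat_lit 4) (.cons (.rel (nat_lit 1077940488)) (.cons (.rel (nat_lit 1077938688)) .nil))) .nil)) .leaf) (nat_lit 1506532741930) (.br (nat_lit 6) (.cons (.br (nat_lit 4) (.cons (.rel (nat_lit 36507500544)) (.cons (.rel (nat_lit 18253611078)) .nil))) .nil)) (.node (.node .leaf (nat_lit 1506533714180) (.br (nat_lit 1) (.cons (.br (nat_lit 5) (.cons (.rel (nat_lit 4311761184)) .nil)) .nil)) .leaf) (nat_lit 1506533901793) (.br (nat_lit 2) (.cons (.br (nat_lit 3) (.cons (.rel (nat_lit 335618064)) .nil)) .nil)) .leaf))) (nat_lit 1506534164505) (.br (nat_lit 0) (.cons (.br (nat_lit 1) (.cons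 (.rel (nat_lit 22021125)) .nil)) .nil)) (.node (.node (.node (.node .leaf (nat_lit 1506534165290) (.br (nat_lit 0) (.cons (.br (nat_lit 4) (.cons (.rel (nat_lit 2155873536)) .nil)) .nil)) .leaf) (nat_lit 1506534165985) (.br (nat_lit 4) (.cons (.br (nat_lit 6) (.cons (.br (nat_lit 1) (.cons (.rel (nat_lit 2181038100)) (.cons (.rel (nat_lit 34393358592)) (.cons (.rel (nat_lit 17196683520)) .nil)))) (.cons (.rel (nat_lit 36507500544)) .nil))) .nil)) .leaf) (nat_lit 1506534166010) (.br (nat_lit 1) (.cons (.br (nat_lit 3) (.cons (.rel (nat_lit 553656576)) (.cons (.rel (nat_lit 286263552)) .nil))) .nil)) (.node (.node .leaf (nat_lit 1506534215705) (.br (nat_lit 3) (.cons (.br (nat_lit 4) (.cons (.rel (nat_lit 2416189440)) .nil)) .nil)) .leaf) (nat_lit 1506534216465) (.br (nat_lit 4) (.cons (.br (nat_lit 0) (.cons (.rel (nat_lit 1077940488)) (.cons (.rel (nat_lit 1078018068)) .nil))) .nil)) .leaf)) (nat_lit 1506534216617) (.br (nat_lit 0) (.cons (.br (nat_lit 2) (.cons (.rel (nat_lit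 77594640)) .nil)) .nil)) (.node (.node (.node .leaf (nat_lit 1506534217185) (.br (nat_lit 4) (.cons (.br (nat_lit 0) (.cons (.rel (nat_lit 1077940488)) (.cons (.rel (nat_lit 1077938688)) (.cons (.rel (nat_lit 1078018068)) .nil)))) (.cons (.br (nat_lit 5) (.cons (.rel (nat_lit 5369823360)) (.cons (.rel (nat_lit 6442455312)) .nil))) .nil))) .leaf) (nat_lit 1506534217210) (.br (nat_lit 4) (.cons (.br (nat_lit 1) (.cons (.rel (nat_lit 1107558528)) (.cons (.rel (nat_lit 1090519080)) .nil))) .nil)) .leaf) (nat_lit 1506534217235) (.br (nat_lit 5) (.cons (.br (nat_lit 3) (.cons (.rel (nat_lit 4832362497)) (.cons (.rel (nat_lit 4563468561)) (.cons (.rel (nat_lit 8858632194)) .nil)))) .nil)) (.node .leaf (nat_lit 1506534268385) (.br (nat_lit 6) (.cons (.br (nat_lit 3) (.cons (.rel (nat_lit 17448372240)) (.cons (.rel (nat_lit 17448371205)) .nil))) .nil)) .leaf)))))) (nat_lit 1506534268410) (.br (nat_lit 6) (.cons (.br (nat_lit 3) (.cons (.rel (nat_lit 17448371205)) (.cons (.rel (nat_lit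 17448440064)) .nil))) .nil)) (.node (.node (.node (.node (.node (.node (.node .leaf (nat_lit 1506534268435) (.br (nat_lit 1) (.cons (.br (nat_lit 4) (.cons (.rel (nat_lit 2181038100)) (.cons (.rel (nat_lit 1091569728)) (.cons (.rel (nat_lit 1090519080)) .nil)))) (.cons (.br (nat_lit 5) (.cons (.br (nat_lit 6) (.cons (.rel (nat_lit 21474869328)) (.cons (.rel (nat_lit 17196683520)) .nil))) (.cons (.rel (nat_lit 4311747072)) .nil))) .nil))) .leaf) (nat_lit 1506615020270) (.br (nat_lit 3) (.cons (.br (nat_lit 5) (.cons (.rel (nat_lit 4563410952)) .nil)) .nil)) .leaf) (nat_lit 1506615031839) (.br (nat_lit 1) (.cons (.br (nat_lit 3) (.cons (.rel (nat_lit 301989906)) .nil)) .nil)) (.node (.node .leaf (nat_lit 1506615595018) (.br (nat_lit 0) (.cons (.br (nat_lit 6) (.cons (.rel (nat_lit 34368128004)) (.cons (.rel (nat_lit 17184063510)) .nil))) (.cons (.br (nat_lit 4) (.cons (.rel (nat_lit 1078005792)) (.cons (.rel (nat_lit 1077940488)) .nil))) .nil))) .leaf) (nat_lit 1506616527609)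 (.br (nat_lit 0) (.cons (.br (nat_lit 2) (.cons (.rel (nat_lit 71323680)) .nil)) .nil)) .leaf)) (nat_lit 1506616559128) (.br (nat_lit 1) (.cons (.br (nat_lit 6) (.cons (.rel (nat_lit 17213425728)) .nil)) .nil)) (.node (.node (.node .leaf (nat_lit 1506616576010) (.br (nat_lit 1) (.cons (.br (nat_lit 2) (.cons (.rel (nat_lit 151257600)) .nil)) .nil)) .leaf) (nat_lit 1506617787873) (.br (nat_lit 5) (.cons (.br (nat_lit 0) (.cons (.rel (nat_lit 4299227169)) (.cons (.rel (nat_lit 4299178002)) .nil))) .nil)) .leaf) (nat_lit 1506618144778) (.br (nat_lit 1) (.cons (.br (nat_lit 2) (.cons (.rel (nat_lit 83886090)) (.cons (.rel (nat_lit 167772165)) (.cons (.br (nat_lit 3) (.cons (.rel (nat_lit 553649160)) (.cons (.rel (nat_lit 671089665)) (.cons (.rel (nat_lit 302137344)) .nil)))) .nil)))) .nil)) (.node (.node .leaf (nat_lit 1506618164760) (.br (nat_lit 1) (.cons (.br (nat_lit 3) (.cons (.rel (nat_lit 553721892)) .nil)) .nil)) .leaf) (nat_lit 1506623360513) (.br (nat_lit 0) (.cons (.br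 (nat_lit 4) (.cons (.rel (nat_lit 1079574528)) .nil)) .nil)) .leaf))) (nat_lit 1506623485409) (.br (nat_lit 0) (.cons (.br (nat_lit 1) (.cons (.rel (nat_lit 21299217)) .nil)) .nil)) (.node (.node (.node (.node .leaf (nat_lit 1506625006373) (.br (nat_lit 0) (.cons (.br (nat_lit 5) (.cons (.rel (nat_lit 4303618176)) .nil)) .nil)) .leaf) (nat_lit 1506626198755) (.br (nat_lit 0) (.cons (.br (nat_lit 1) (.cons (.rel (nat_lit 20971656)) .nil)) .nil)) .leaf) (nat_lit 1506626440673) (.br (nat_lit 2) (.cons (.br (nat_lit 4) (.cons (.rel (nat_lit 1140871248)) (.cons (.rel (nat_lit 1140871248)) .nil))) .nil)) (.node (.node .leaf (nat_lit 1506626505509) (.br (nat_lit 1) (.cons (.br (nat_lit 5) (.cons (.rel (nat_lit 4313382912)) .nil)) .nil)) .leaf) (nat_lit 1506626557441) (.br (nat_lit 1) (.cons (.br (nat_lit 4) (.cons (.rel (nat_lit 2181038100)) .nil)) .nil)) .leaf)) (nat_lit 1506908620825) (.br (nat_lit 5) (.cons (.br (nat_lit 6) (.cons (.rel (nat_lit 38654706945)) (.cons (.rel (nat_lit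 25769824272)) (.cons (.rel (nat_lit 21474967617)) .nil)))) (.cons (.br (nat_lit 6) (.cons (.rel (nat_lit 21474838080)) (.cons (.rel (nat_lit 21474838080)) (.cons (.rel (nat_lit 21474844740)) .nil)))) .nil))) (.node (.node (.node .leaf (nat_lit 1506908622305) (.br (nat_lit 5) (.cons (.br (nat_lit 1) (.cons (.rel (nat_lit 4311747072)) (.cons (.rel (nat_lit 4311777285)) .nil))) .nil)) .leaf) (nat_lit 1506909083704) (.br (nat_lit 1) (.cons (.br (nat_lit 5) (.cons (.rel (nat_lit 4312813632)) .nil)) .nil)) .leaf) (nat_lit 1506909104138) (.br (nat_lit 3) (.cons (.br (nat_lit 6) (.cons (.rel (nat_lit 17718116352)) .nil)) .nil)) (.node .leaf (nat_lit 1506909136906) (.br (nat_lit 0) (.cons (.br (nat_lit 5) (.cons (.rel (nat_lit 4299162900)) (.cons (.rel (nat_lit 4303618176)) .nil))) (.cons (.br (nat_lit 5) (.cons (.rel (nat_lit 4299182592)) (.cons (.rel (nat_lit 4299178002)) .nil))) .nil))) .leaf)))) (nat_lit 1506909196594) (.br (nat_lit 4) (.cons (.br (nat_lit 0) (.cons (.rel (nat_lit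 1077956625)) (.cons (.rel (nat_lit 1079574528)) .nil))) .nil)) (.node (.node (.node (.node (.node .leaf (nat_lit 1506910129678) (.br (nat_lit 0) (.cons (.br (nat_lit 2) (.cons (.rel (nat_lit 71304708)) .nil)) .nil)) .leaf) (nat_lit 1506910167820) (.br (nat_lit 1) (.cons (.br (nat_lit 6) (.cons (.rel (nat_lit 17196683520)) (.cons (.rel (nat_lit 34393358592)) (.cons (.rel (nat_lit 17196650517)) (.cons (.rel (nat_lit 17196647682)) .nil))))) .nil)) .leaf) (nat_lit 1506910177290) (.br (nat_lit 0) (.cons (.br (nat_lit 1) (.cons (.rel (nat_lit 21234948)) .nil)) .nil)) (.node (.node .leaf (nat_lit 1506910178040) (.br (nat_lit 0) (.cons (.br (nat_lit 2) (.cons (.rel (nat_lit 71335956)) (.cons (.rel (nat_lit 71434245)) .nil))) .nil)) .leaf) (nat_lit 1506910228536) (.br (nat_lit 0) (.cons (.br (nat_lit 1) (.cons (.rel (nat_lit 21234948)) .nil)) .nil)) .leaf)) (nat_lit 1506910229290) (.br (nat_lit 6) (.cons (.br (nat_lit 0) (.cons (.br (nat_lit 4) (.cons (.rel (nat_lit 18254660736)) (.cons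 (.rel (nat_lit 1077938688)) (.cons (.rel (nat_lit 35433480708)) .nil)))) (.cons (.rel (nat_lit 17184065544)) (.cons (.rel (nat_lit 34365063168)) .nil)))) (.cons (.br (nat_lit 5) (.cons (.rel (nat_lit 21474838080)) (.cons (.rel (nat_lit 21474844740)) (.cons (.rel (nat_lit 38654706945)) .nil)))) .nil))) (.node (.node (.node .leaf (nat_lit 1506910364428) (.br (nat_lit 0) (.cons (.br (nat_lit 2) (.cons (.rel (nat_lit 71323680)) (.cons (.rel (nat_lit 142610436)) .nil))) (.cons (.br (nat_lit 2) (.cons (.rel (nat_lit 71304708)) (.cons (.rel (nat_lit 71323680)) .nil))) .nil))) .leaf) (nat_lit 1506910364953) (.br (nat_lit 0) (.cons (.br (nat_lit 5) (.cons (.rel (nat_lit 4299325440)) .nil)) .nil)) .leaf) (nat_lit 1506910387681) (.br (nat_lit 1) (.cons (.br (nat_lit 5) (.cons (.rel (nat_lit 8606793864)) .nil)) .nil)) (.node (.node .leaf (nat_lit 1506910488586) (.br (nat_lit 2) (.cons (.br (nat_lit 3) (.cons (.rel (nat_lit 335546370)) .nil)) .nil)) .leaf) (nat_lit 1506911131658) (.br (nat_lit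 0) (.cons (.br (nat_lit 1) (.cons (.rel (nat_lit 43319304)) .nil)) .nil)) .leaf))) (nat_lit 1506911132899) (.br (nat_lit 0) (.cons (.br (nat_lit 4) (.cons (.rel (nat_lit 1077952800)) .nil)) .nil)) (.node (.node (.node (.node .leaf (nat_lit 1506911151390) (.br (nat_lit 0) (.cons (.br (nat_lit 2) (.cons (.rel (nat_lit 71335956)) .nil)) .nil)) .leaf) (nat_lit 1506911201290) (.br (nat_lit 0) (.cons (.br (nat_lit 2) (.cons (.rel (nat_lit 71368977)) .nil)) .nil)) .leaf) (nat_lit 1506911202565) (.br (nat_lit 0) (.cons (.br (nat_lit 1) (.cons (.rel (nat_lit 21234948)) (.cons (.rel (nat_lit 22022160)) (.cons (.rel (nat_lit 22022160)) (.cons (.rel (nat_lit 41943108)) .nil))))) .nil)) (.node (.node .leaf (nat_lit 1506911388428) (.br (nat_lit 0) (.cons (.br (nat_lit 3) (.cons (.rel (nat_lit 541327425)) (.cons (.rel (nat_lit 541065744)) .nil))) .nil)) .leaf) (nat_lit 1506911388953) (.br (nat_lit 0) (.cons (.br (nat_lit 5) (.cons (.rel (nat_lit 4299178002)) .nil)) .nil)) .leaf)) (nat_lit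 1506911651865) (.br (nat_lit 2) (.cons (.br (nat_lit 5) (.cons (.rel (nat_lit 8724415488)) .nil)) .nil)) (.node (.node (.node .leaf (nat_lit 1506911755795) (.br (nat_lit 3) (.cons (.br (nat_lit 5) (.cons (.rel (nat_lit 4563435540)) .nil)) .nil)) .leaf) (nat_lit 1508481436403) (.br (nat_lit 2) (.cons (.br (nat_lit 5) (.cons (.rel (nat_lit 4362141792)) .nil)) .nil)) .leaf) (nat_lit 1508481436953) (.br (nat_lit 2) (.cons (.br (nat_lit 3) (.cons (.rel (nat_lit 335545380)) .nil)) .nil)) (.node .leaf (nat_lit 1508482980595) (.br (nat_lit 3) (.cons (.br (nat_lit 5) (.cons (.rel (nat_lit 9126809604)) (.cons (.rel (nat_lit 4832362497)) .nil))) (.cons (.br (nat_lit 4) (.cons (.rel (nat_lit 2684354565)) (.cons (.rel (nat_lit 1611141120)) .nil))) .nil))) .leaf))))) (nat_lit 1508632431404) (.br (nat_lit 0) (.cons (.br (nat_lit 1) (.cons (.rel (nat_lit 37756929)) .nil)) .nil)) (.node (.node (.node (.node (.node (.node .leaf (nat_lit 1508635563514) (.br (nat_lit 3) (.cons (.br (nat_lit 4)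 (.cons (.rel (nat_lit 1342177290)) .nil)) .nil)) .leaf) (nat_lit 1509215439153) (.br (nat_lit 3) (.cons (.br (nat_lit 5) (.cons (.rel (nat_lit 9126809604)) .nil)) .nil)) .leaf) (nat_lit 1509215439603) (.br (nat_lit 1) (.cons (.br (nat_lit 3) (.cons (.rel (nat_lit 286263552)) .nil)) .nil)) (.node (.node .leaf (nat_lit 1509215439609) (.br (nat_lit 0) (.cons (.br (nat_lit 5) (.cons (.rel (nat_lit 4299178002)) .nil)) .nil)) .leaf) (nat_lit 1509215440153) (.br (nat_lit 0) (.cons (.br (nat_lit 4) (.cons (.rel (nat_lit 1077952800)) (.cons (.rel (nat_lit 1078018068)) .nil))) .nil)) .leaf)) (nat_lit 1509215704325) (.br (nat_lit 1) (.cons (.br (nat_lit 3) (.cons (.rel (nat_lit 285278352)) .nil)) .nil)) (.node (.node (.node .leaf (nat_lit 1509215971338) (.br (nat_lit 1) (.cons (.br (nat_lit 2) (.cons (.rel (nat_lit 167772165)) (.cons (.rel (nat_lit 84021252)) .nil))) .nil)) .leaf) (nat_lit 1509216004348) (.br (nat_lit 0) (.cons (.br (nat_lit 1) (.cons (.rel (nat_lit 21234948)) .nil)) .nil))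 .leaf) (nat_lit 1509216975754) (.br (nat_lit 0) (.cons (.br (nat_lit 2) (.cons (.rel (nat_lit 139460640)) .nil)) .nil)) (.node (.node .leaf (nat_lit 1509217029481) (.br (nat_lit 0) (.cons (.br (nat_lit 1) (.cons (.rel (nat_lit 25169922)) (.cons (.rel (nat_lit 41943108)) .nil))) .nil)) .leaf) (nat_lit 1509217035045) (.br (nat_lit 3) (.cons (.br (nat_lit 0) (.cons (.rel (nat_lit 272957472)) (.cons (.rel (nat_lit 272631936)) (.cons (.rel (nat_lit 272908305)) .nil)))) .nil)) .leaf))) (nat_lit 1509217044486) (.br (nat_lit 6) (.cons (.br (nat_lit 1) (.cons (.rel (nat_lit 17197170822)) (.cons (.rel (nat_lit 17196941376)) .nil))) .nil)) (.node (.node (.node (.node .leaf (nat_lit 1509217046678) (.br (nat_lit 0) (.cons (.br (nat_lit 4) (.cons (.rel (nat_lit 1078198344)) .nil)) .nil)) .leaf) (nat_lit 1509217047333) (.br (nat_lit 1) (.cons (.br (nat_lit 3) (.cons (.rel (nat_lit 285540609)) .nil)) .nil)) .leaf) (nat_lit 1509217096465) (.br (nat_lit 0) (.cons (.br (nat_lit 3) (.cons (.rel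 (nat_lit 541233156)) .nil)) .nil)) (.node (.node .leaf (nat_lit 1509217231153) (.br (nat_lit 0) (.cons (.br (nat_lit 5) (.cons (.rel (nat_lit 8594653248)) .nil)) .nil)) .leaf) (nat_lit 1509217254683) (.br (nat_lit 0) (.cons (.br (nat_lit 3) (.cons (.rel (nat_lit 272908305)) (.cons (.rel (nat_lit 545260608)) .nil))) (.cons (.br (nat_lit 3) (.cons (.rel (nat_lit 273956928)) (.cons (.rel (nat_lit 276840453)) .nil))) .nil))) .leaf)) (nat_lit 1509217356663) (.br (nat_lit 2) (.cons (.br (nat_lit 3) (.cons (.rel (nat_lit 336592968)) .nil)) .nil)) (.node (.node (.node .leaf (nat_lit 1509217998879) (.br (nat_lit 1) (.cons (.br (nat_lit 6) (.cons (.rel (nat_lit 17197699140)) .nil)) .nil)) .leaf) (nat_lit 1509217999754) (.br (nat_lit 0) (.cons (.br (nat_lit 3) (.cons (.rel (nat_lit 545260608)) .nil)) .nil)) .leaf) (nat_lit 1509218018590) (.br (nat_lit 0) (.cons (.br (nat_lit 6) (.cons (.rel (nat_lit 34368128004)) .nil)) .nil)) (.node .leaf (nat_lit 1509218050954) (.br (nat_lit 1) (.cons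 (.br (nat_lit 3) (.cons (.rel (nat_lit 285495312)) .nil)) .nil)) .leaf)))) (nat_lit 1509218059625) (.br (nat_lit 0) (.cons (.br (nat_lit 1) (.cons (.rel (nat_lit 21299217)) .nil)) .nil)) (.node (.node (.node (.node (.node .leaf (nat_lit 1509218068740) (.br (nat_lit 0) (.cons (.br (nat_lit 6) (.cons (.rel (nat_lit 17184064545)) .nil)) .nil)) .leaf) (nat_lit 1509218071928) (.br (nat_lit 0) (.cons (.br (nat_lit 4) (.cons (.rel (nat_lit 1078018068)) .nil)) .nil)) .leaf) (nat_lit 1509218255153) (.br (nat_lit 0) (.cons (.br (nat_lit 3) (.cons (.rel (nat_lit 276824352)) .nil)) .nil)) (.node (.node .leaf (nat_lit 1509218256153) (.br (nat_lit 3) (.cons (.br (nat_lit 0) (.cons (.rel (nat_lit 273678345)) (.cons (.rel (nat_lit 276840453)) .nil))) .nil)) .leaf) (nat_lit 1509218622970) (.br (nat_lit 6) (.cons (.br (nat_lit 1) (.cons (.rel (nat_lit 17196650517)) (.cons (.rel (nat_lit 17196647682)) .nil))) .nil)) .leaf)) (nat_lit 1509739728378) (.br (nat_lit 0) (.cons (.br (nat_lit 4) (.cons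 (.rel (nat_lit 1077938688)) .nil)) .nil)) (.node (.node (.node .leaf (nat_lit 1509740291578) (.br (nat_lit 0) (.cons (.br (nat_lit 4) (.cons (.rel (nat_lit 1077952800)) .nil)) .nil)) .leaf) (nat_lit 1509741007653) (.br (nat_lit 0) (.cons (.br (nat_lit 1) (.cons (.rel (nat_lit 25169922)) .nil)) .nil)) .leaf) (nat_lit 1509742543153) (.br (nat_lit 0) (.cons (.br (nat_lit 2) (.cons (.rel (nat_lit 71311368)) .nil)) .nil)) (.node (.node .leaf (nat_lit 1509742807845) (.br (nat_lit 0) (.cons (.br (nat_lit 1) (.cons (.rel (nat_lit 21299217)) .nil)) .nil)) .leaf) (nat_lit 1509742808545) (.br (nat_lit 1) (.cons (.br (nat_lit 6) (.cons (.rel (nat_lit 17196736512)) .nil)) .nil)) .leaf))) (nat_lit 1509742859745) (.br (nat_lit 0) (.cons (.br (nat_lit 6) (.cons (.rel (nat_lit 17184064545)) .nil)) .nil)) (.node (.node (.node (.node .leaf (nat_lit 1509742859770) (.br (nat_lit 4) (.cons (.br (nat_lit 1) (.cons (.rel (nat_lit 1090521105)) (.cons (.rel (nat_lit 1090519080)) .nil))) .nil)) .leaf)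 (nat_lit 1509742910945) (.br (nat_lit 0) (.cons (.br (nat_lit 1) (.cons (.rel (nat_lit 21299217)) .nil)) .nil)) .leaf) (nat_lit 1509742910970) (.br (nat_lit 0) (.cons (.br (nat_lit 2) (.cons (.rel (nat_lit 71311368)) (.cons (.rel (nat_lit 71434245)) .nil))) .nil)) (.node (.node .leaf (nat_lit 1597833259260) (.br (nat_lit 0) (.cons (.br (nat_lit 3) (.cons (.rel (nat_lit 272908305)) .nil)) .nil)) .leaf) (nat_lit 1597833267210) (.br (nat_lit 0) (.cons (.br (nat_lit 2) (.cons (.rel (nat_lit 71319810)) .nil)) .nil)) .leaf)) (nat_lit 1597834237962) (.br (nat_lit 2) (.cons (.br (nat_lit 5) (.cons (.rel (nat_lit 4429189377)) .nil)) .nil)) (.node (.node (.node .leaf (nat_lit 1597834300152) (.br (nat_lit 1) (.cons (.br (nat_lit 3) (.cons (.rel (nat_lit 286263552)) .nil)) .nil)) .leaf) (nat_lit 1597835511140) (.br (nat_lit 0) (.cons (.br (nat_lit 3) (.cons (.rel (nat_lit 545260608)) .nil)) .nil)) .leaf) (nat_lit 1597835775507) (.br (nat_lit 0) (.cons (.br (nat_lit 3) (.cons (.rel (nat_lit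 545260608)) .nil)) .nil)) (.node .leaf (nat_lit 1601104783370) (.br (nat_lit 2) (.cons (.br (nat_lit 3) (.cons (.rel (nat_lit 335577348)) .nil)) .nil)) .leaf)))))))

/-- refutations 3 -/
def e3 : EX := (.node (.node (.node (.node (.node (.node (.node .leaf (nat_lit 2199023258385) (.br (nat_lit 0) (.cons (.br (nat_lit 3) (.cons (.rel (nat_lit 272631936)) .nil)) .nil)) .leaf) (nat_lit 2199023831050) (.br (nat_lit 5) (.cons (.br (nat_lit 6) (.cons (.rel (nat_lit 38654722056)) .nil)) .nil)) (.node .leaf (nat_lit 2199023831321) (.br (nat_lit 3) (.cons (.br (nat_lit 1) (.cons (.rel (nat_lit 285492489)) (.cons (.rel (nat_lit 285495312)) .nil))) .nil)) .leaf)) (nat_lit 2199023831666) (.br (nat_lit 3) (.cons (.br (nat_lit 6) (.cons (.rel (nat_lit 17448308772)) (.cons (.rel (nat_lit 17448323073)) .nil))) .nil)) (.node (.node .leaf (nat_lit 2199023831845) (.br (nat_lit 0) (.cons (.br (nat_lit 4) (.cons (.rel (nat_lit 1078005792)) .nil)) .nil)) .leaf) (nat_lit 2199024537610) (.br (nat_lit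 3) (.cons (.br (nat_lit 6) (.cons (.rel (nat_lit 34628173956)) (.cons (.rel (nat_lit 17448304902)) .nil))) .nil)) .leaf)) (nat_lit 2199024537777) (.br (nat_lit 0) (.cons (.br (nat_lit 2) (.cons (.rel (nat_lit 77594640)) .nil)) .nil)) (.node (.node (.node .leaf (nat_lit 2199024538226) (.br (nat_lit 2) (.cons (.br (nat_lit 1) (.cons (.rel (nat_lit 83920128)) (.cons (.br (nat_lit 5) (.cons (.rel (nat_lit 8658096192)) (.cons (.rel (nat_lit 4362141792)) (.cons (.rel (nat_lit 4311748872)) .nil)))) .nil))) .nil)) .leaf) (nat_lit 2199024651745) (.br (nat_lit 1) (.cons (.br (nat_lit 2) (.cons (.rel (nat_lit 100671552)) .nil)) .nil)) .leaf) (nat_lit 2199024894727) (.br (nat_lit 2) (.cons (.br (nat_lit 3) (.cons (.rel (nat_lit 335546370)) .nil)) .nil)) (.node (.node .leaf (nat_lit 2199025888737) (.br (nat_lit 1) (.cons (.br (nat_lit 4) (.cons (.rel (nat_lit 1090519080)) .nil)) .nil)) .leaf) (nat_lit 2199026339297) (.br (nat_lit 1) (.cons (.br (nat_lit 2) (.cons (.rel (nat_lit 100671552))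 (.cons (.br (nat_lit 4) (.cons (.rel (nat_lit 2214592530)) (.cons (.rel (nat_lit 1092894720)) .nil))) .nil))) .nil)) .leaf))) (nat_lit 2199026339347) (.br (nat_lit 2) (.cons (.br (nat_lit 1) (.cons (.rel (nat_lit 150999168)) (.cons (.br (nat_lit 4) (.cons (.rel (nat_lit 1207960584)) (.cons (.rel (nat_lit 1090543632)) .nil))) .nil))) .nil)) (.node (.node (.node (.node .leaf (nat_lit 2199026390497) (.br (nat_lit 1) (.cons (.br (nat_lit 5) (.cons (.rel (nat_lit 4311777285)) .nil)) .nil)) .leaf) (nat_lit 2199026390547) (.br (nat_lit 5) (.cons (.br (nat_lit 6) (.cons (.rel (nat_lit 21474869328)) .nil)) .nil)) .leaf) (nat_lit 2199026441697) (.br (nat_lit 1) (.cons (.br (nat_lit 2) (.cons (.rel (nat_lit 100671552)) .nil)) .nil)) (.node (.node .leaf (nat_lit 2199026441747) (.br (nat_lit 0) (.cons (.br (nat_lit 5) (.cons (.rel (nat_lit 4299161865)) .nil)) .nil)) .leaf) (nat_lit 2200223453336) (.br (nat_lit 0) (.cons (.br (nat_lit 2) (.cons (.rel (nat_lit 72892416)) .nil)) .nil)) .leaf))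 (nat_lit 2200224108721) (.br (nat_lit 0) (.cons (.br (nat_lit 1) (.cons (.rel (nat_lit 20971656)) .nil)) .nil)) (.node (.node (.node .leaf (nat_lit 2200224109170) (.br (nat_lit 0) (.cons (.br (nat_lit 5) (.cons (.rel (nat_lit 4299161865)) .nil)) .nil)) .leaf) (nat_lit 2200225910291) (.br (nat_lit 0) (.cons (.br (nat_lit 3) (.cons (.rel (nat_lit 276840453)) .nil)) .nil)) .leaf) (nat_lit 2202191562762) (.br (nat_lit 2) (.cons (.br (nat_lit 3) (.cons (.rel (nat_lit 335610369)) .nil)) .nil)) (.node (.node .leaf (nat_lit 2202694830841) (.br (nat_lit 1) (.cons (.br (nat_lit 2) (.cons (.rel (nat_lit 83902992)) .nil)) .nil)) .leaf) (nat_lit 2413876840625) (.br (nat_lit 0) (.cons (.br (nat_lit 5) (.cons (.rel (nat_lit 4299180036)) (.cons (.rel (nat_lit 4299325440)) .nil))) .nil)) .leaf)))) (nat_lit 2413877053721) (.br (nat_lit 0) (.cons (.br (nat_lit 6) (.cons (.rel (nat_lit 17184065544)) .nil)) .nil)) (.node (.node (.node (.node (.node .leaf (nat_lit 2413878117127) (.br (nat_lit 0)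 (.cons (.br (nat_lit 2) (.cons (.rel (nat_lit 71304708)) (.cons (.rel (nat_lit 71319810)) .nil))) .nil)) .leaf) (nat_lit 2413878127372) (.br (nat_lit 1) (.cons (.br (nat_lit 3) (.cons (.rel (nat_lit 286263552)) .nil)) .nil)) (.node .leaf (nat_lit 2413878295154) (.br (nat_lit 0) (.cons (.br (nat_lit 2) (.cons (.rel (nat_lit 71567424)) .nil)) .nil)) .leaf)) (nat_lit 2413878296058) (.br (nat_lit 2) (.cons (.br (nat_lit 3) (.cons (.rel (nat_lit 335822928)) .nil)) .nil)) (.node (.node .leaf (nat_lit 2413879612922) (.br (nat_lit 0) (.cons (.br (nat_lit 5) (.cons (.rel (nat_lit 4299162900)) .nil)) .nil)) .leaf) (nat_lit 2413879612947) (.br (nat_lit 0) (.cons (.br (nat_lit 2) (.cons (.rel (nat_lit 71319810)) .nil)) .nil)) .leaf)) (nat_lit 2413879664122) (.br (nat_lit 2) (.cons (.br (nat_lit 6) (.cons (.rel (nat_lit 34426856448)) .nil)) .nil)) (.node (.node (.node .leaf (nat_lit 2415076069657) (.br (nat_lit 0) (.cons (.br (nat_lit 2) (.cons (.rel (nat_lit 71372802)) .nil)) .nil)) .leaf)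 (nat_lit 2415076624665) (.br (nat_lit 0) (.cons (.br (nat_lit 3) (.cons (.rel (nat_lit 545260608)) .nil)) .nil)) .leaf) (nat_lit 2423562672933) (.br (nat_lit 0) (.cons (.br (nat_lit 3) (.cons (.rel (nat_lit 272631936)) .nil)) .nil)) (.node (.node .leaf (nat_lit 2423562724108) (.br (nat_lit 0) (.cons (.br (nat_lit 2) (.cons (.rel (nat_lit 71435280)) .nil)) .nil)) .leaf) (nat_lit 2423562943351) (.br (nat_lit 0) (.cons (.br (nat_lit 6) (.cons (.rel (nat_lit 17184162816)) .nil)) .nil)) .leaf))) (nat_lit 2423563045776) (.br (nat_lit 0) (.cons (.br (nat_lit 2) (.cons (.rel (nat_lit 71386113)) .nil)) .nil)) (.node (.node (.node (.node .leaf (nat_lit 2425746378762) (.br (nat_lit 4) (.cons (.br (nat_lit 6) (.cons (.rel (nat_lit 18254168064)) .nil)) .nil)) .leaf) (nat_lit 2428130540407) (.br (nat_lit 0) (.cons (.br (nat_lit 1) (.cons (.rel (nat_lit 22347840)) .nil)) .nil)) .leaf) (nat_lit 2428864543607) (.br (nat_lit 0) (.cons (.br (nat_lit 1) (.cons (.rel (nat_lit 41979984)) .nil)) .nil))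 (.node (.node .leaf (nat_lit 5368709122300) (.br (nat_lit 0) (.cons (.br (nat_lit 2) (.cons (.rel (nat_lit 142610436)) .nil)) .nil)) .leaf) (nat_lit 5368709122353) (.br (nat_lit 3) (.cons (.br (nat_lit 5) (.cons (.rel (nat_lit 4563404292)) .nil)) .nil)) .leaf)) (nat_lit 5368709122803) (.br (nat_lit 1) (.cons (.br (nat_lit 3) (.cons (.rel (nat_lit 286265352)) .nil)) .nil)) (.node (.node (.node .leaf (nat_lit 5368709122808) (.br (nat_lit 0) (.cons (.br (nat_lit 1) (.cons (.rel (nat_lit 25183233)) .nil)) .nil)) .leaf) (nat_lit 5368709122809) (.br (nat_lit 3) (.cons (.br (nat_lit 5) (.cons (.rel (nat_lit 4831854660)) .nil)) .nil)) .leaf) (nat_lit 5368709123578) (.br (nat_lit 0) (.cons (.br (nat_lit 5) (.cons (.rel (nat_lit 4299178002)) .nil)) .nil)) (.node (.node .leaf (nat_lit 5368709183498) (.br (nat_lit 0) (.cons (.br (nat_lit 2) (.cons (.rel (nat_lit 71304708)) (.cons (.rel (nat_lit 71304708)) .nil))) .nil)) .leaf) (nat_lit 5368709184248) (.br (nat_lit 4) (.cons (.br (nat_lit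 5) (.cons (.rel (nat_lit 5368774737)) .nil)) .nil)) .leaf))))) (nat_lit 5368709247783) (.br (nat_lit 1) (.cons (.br (nat_lit 6) (.cons (.rel (nat_lit 17196647682)) .nil)) .nil)) (.node (.node (.node (.node (.node (.node .leaf (nat_lit 5368709654538) (.br (nat_lit 1) (.cons (.br (nat_lit 6) (.cons (.rel (nat_lit 17196646692)) .nil)) .nil)) .leaf) (nat_lit 5368709655413) (.br (nat_lit 1) (.cons (.br (nat_lit 3) (.cons (.rel (nat_lit 302137344)) .nil)) .nil)) (.node .leaf (nat_lit 5368709685254) (.br (nat_lit 3) (.cons (.br (nat_lit 5) (.cons (.rel (nat_lit 4563404292)) .nil)) .nil)) .leaf)) (nat_lit 5368709686629) (.br (nat_lit 3) (.cons (.br (nat_lit 5) (.cons (.rel (nat_lit 4563404292)) .nil)) .nil)) (.node (.node .leaf (nat_lit 5368709687548) (.br (nat_lit 1) (.cons (.br (nat_lit 2) (.cons (.rel (nat_lit 167773200)) .nil)) .nil)) .leaf) (nat_lit 5368709695498) (.br (nat_lit 1) (.cons (.br (nat_lit 6) (.cons (.rel (nat_lit 17196647682)) .nil)) .nil)) .leaf)) (nat_lit 5368709696243)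 (.br (nat_lit 1) (.cons (.br (nat_lit 2) (.cons (.rel (nat_lit 83906817)) .nil)) .nil)) (.node (.node (.node .leaf (nat_lit 5368709746969) (.br (nat_lit 0) (.cons (.br (nat_lit 6) (.cons (.rel (nat_lit 17184065544)) .nil)) .nil)) .leaf) (nat_lit 5368710514698) (.br (nat_lit 2) (.cons (.br (nat_lit 3) (.cons (.rel (nat_lit 671089665)) (.cons (.rel (nat_lit 335545380)) .nil))) .nil)) .leaf) (nat_lit 5368710678553) (.br (nat_lit 0) (.cons (.br (nat_lit 2) (.cons (.rel (nat_lit 72892416)) .nil)) .nil)) (.node (.node .leaf (nat_lit 5368710679339) (.br (nat_lit 1) (.cons (.br (nat_lit 2) (.cons (.rel (nat_lit 84935748)) .nil)) .nil)) .leaf) (nat_lit 5368710679913) (.br (nat_lit 1) (.cons (.br (nat_lit 4) (.cons (.rel (nat_lit 1090519080)) (.cons (.rel (nat_lit 1090519080)) .nil))) .nil)) .leaf))) (nat_lit 5368710717450) (.br (nat_lit 1) (.cons (.br (nat_lit 5) (.cons (.rel (nat_lit 4312334481)) .nil)) .nil)) (.node (.node (.node (.node .leaf (nat_lit 5368710718195) (.br (nat_lit 1)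 (.cons (.br (nat_lit 5) (.cons (.rel (nat_lit 4329046032)) (.cons (.rel (nat_lit 4311747072)) .nil))) (.cons (.br (nat_lit 2) (.cons (.rel (nat_lit 83906817)) (.cons (.rel (nat_lit 83902992)) .nil))) .nil))) .leaf) (nat_lit 5368710729061) (.br (nat_lit 4) (.cons (.br (nat_lit 5) (.cons (.rel (nat_lit 9664725312)) .nil)) .nil)) .leaf) (nat_lit 5368710730489) (.br (nat_lit 3) (.cons (.br (nat_lit 1) (.cons (.rel (nat_lit 285229185)) (.cons (.rel (nat_lit 286265352)) .nil))) .nil)) (.node (.node .leaf (nat_lit 5368710730533) (.br (nat_lit 2) (.cons (.br (nat_lit 3) (.cons (.rel (nat_lit 335544345)) .nil)) .nil)) .leaf) (nat_lit 5368710778905) (.br (nat_lit 1) (.cons (.br (nat_lit 5) (.cons (.rel (nat_lit 4313382912)) .nil)) .nil)) .leaf)) (nat_lit 5368710779665) (.br (nat_lit 0) (.cons (.br (nat_lit 2) (.cons (.rel (nat_lit 142610436)) (.cons (.rel (nat_lit 71304708)) (.cons (.rel (nat_lit 71311368)) .nil)))) (.cons (.br (nat_lit 1) (.cons (.rel (nat_lit 41943108)) (.cons (.rel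 (nat_lit 22347840)) (.cons (.rel (nat_lit 20971656)) (.cons (.rel (nat_lit 21299217)) (.cons (.rel (nat_lit 41943108)) .nil)))))) (.cons (.br (nat_lit 2) (.cons (.rel (nat_lit 71567424)) (.cons (.rel (nat_lit 71311368)) (.cons (.rel (nat_lit 142610436)) .nil)))) .nil)))) (.node (.node (.node .leaf (nat_lit 5368710914353) (.br (nat_lit 0) (.cons (.br (nat_lit 3) (.cons (.rel (nat_lit 273699072)) .nil)) .nil)) .leaf) (nat_lit 5368710914803) (.br (nat_lit 0) (.cons (.br (nat_lit 1) (.cons (.rel (nat_lit 22036992)) .nil)) .nil)) .leaf) (nat_lit 5368710915353) (.br (nat_lit 1) (.cons (.br (nat_lit 3) (.cons (.rel (nat_lit 286277664)) .nil)) .nil)) (.node (.node .leaf (nat_lit 5368710936833) (.br (nat_lit 1) (.cons (.br (nat_lit 3) (.cons (.rel (nat_lit 285278352)) .nil)) .nil)) .leaf) (nat_lit 5368710937883) (.br (nat_lit 2) (.cons (.br (nat_lit 6) (.cons (.rel (nat_lit 17246979168)) .nil)) .nil)) .leaf)))) (nat_lit 5368711682079) (.br (nat_lit 1) (.cons (.br (nat_lit 3) (.cons (.rel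 (nat_lit 302137344)) .nil)) .nil)) (.node (.node (.node (.node (.node .leaf (nat_lit 5368711682954) (.br (nat_lit 0) (.cons (.br (nat_lit 2) (.cons (.rel (nat_lit 138690564)) .nil)) .nil)) .leaf) (nat_lit 5368711701291) (.br (nat_lit 0) (.cons (.br (nat_lit 1) (.cons (.rel (nat_lit 41943108)) .nil)) .nil)) (.node .leaf (nat_lit 5368711701790) (.br (nat_lit 6) (.cons (.br (nat_lit 1) (.cons (.rel (nat_lit 17196736512)) (.cons (.rel (nat_lit 34393358592)) .nil))) .nil)) .leaf)) (nat_lit 5368711701861) (.br (nat_lit 1) (.cons (.br (nat_lit 2) (.cons (.rel (nat_lit 83886090)) .nil)) .nil)) (.node (.node .leaf (nat_lit 5368711734499) (.br (nat_lit 1) (.cons (.br (nat_lit 2) (.cons (.rel (nat_lit 83887125)) .nil)) .nil)) .leaf) (nat_lit 5368711734558) (.br (nat_lit 0) (.cons (.br (nat_lit 1) (.cons (.rel (nat_lit 20971656)) .nil)) .nil)) .leaf)) (nat_lit 5368711938353) (.br (nat_lit 1) (.cons (.br (nat_lit 3) (.cons (.rel (nat_lit 553648161)) .nil)) .nil)) (.node (.node (.node .leaf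 (nat_lit 5368711938803) (.br (nat_lit 0) (.cons (.br (nat_lit 3) (.cons (.rel (nat_lit 272892168)) .nil)) .nil)) .leaf) (nat_lit 5368711939299) (.br (nat_lit 1) (.cons (.br (nat_lit 2) (.cons (.rel (nat_lit 83886090)) .nil)) .nil)) .leaf) (nat_lit 5368711939353) (.br (nat_lit 3) (.cons (.br (nat_lit 5) (.cons (.rel (nat_lit 4563404292)) .nil)) .nil)) (.node (.node .leaf (nat_lit 5368711961383) (.br (nat_lit 4) (.cons (.br (nat_lit 6) (.cons (.rel (nat_lit 19328417856)) .nil)) .nil)) .leaf) (nat_lit 5368712253700) (.br (nat_lit 5) (.cons (.br (nat_lit 0) (.cons (.rel (nat_lit 4299180036)) (.cons (.rel (nat_lit 4299180036)) .nil))) .nil)) .leaf))) (nat_lit 5368712254251) (.br (nat_lit 0) (.cons (.br (nat_lit 1) (.cons (.rel (nat_lit 25166097)) .nil)) .nil)) (.node (.node (.node (.node .leaf (nat_lit 5368712306170) (.br (nat_lit 6) (.cons (.br (nat_lit 2) (.cons (.rel (nat_lit 17246978133)) (.cons (.rel (nat_lit 34494283776)) (.cons (.rel (nat_lit 17246978133)) .nil)))) .nil))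 .leaf) (nat_lit 5368712318986) (.br (nat_lit 0) (.cons (.br (nat_lit 2) (.cons (.rel (nat_lit 142610436)) .nil)) .nil)) .leaf) (nat_lit 5368712320356) (.br (nat_lit 2) (.cons (.br (nat_lit 3) (.cons (.rel (nat_lit 335545380)) .nil)) .nil)) (.node (.node .leaf (nat_lit 5369865372953) (.br (nat_lit 0) (.cons (.br (nat_lit 5) (.cons (.rel (nat_lit 4299325440)) .nil)) .nil)) .leaf) (nat_lit 5370016390650) (.br (nat_lit 0) (.cons (.br (nat_lit 2) (.cons (.rel (nat_lit 71304708)) .nil)) .nil)) .leaf)) (nat_lit 5374582683704) (.br (nat_lit 1) (.cons (.br (nat_lit 3) (.cons (.rel (nat_lit 285540609)) .nil)) .nil)) (.node (.node (.node .leaf (nat_lit 5374582685054) (.br (nat_lit 1) (.cons (.br (nat_lit 2) (.cons (.rel (nat_lit 167772165)) .nil)) .nil)) .leaf) (nat_lit 5374582940953) (.br (nat_lit 0) (.cons (.br (nat_lit 1) (.cons (.rel (nat_lit 25231365)) .nil)) .nil)) .leaf) (nat_lit 5374583964428) (.br (nat_lit 0) (.cons (.br (nat_lit 5) (.cons (.rel (nat_lit 8598405120)) .nil)) .nil))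 (.node (.node .leaf (nat_lit 5374583964459) (.br (nat_lit 0) (.cons (.br (nat_lit 1) (.cons (.rel (nat_lit 21299217)) .nil)) .nil)) .leaf) (nat_lit 5375252237049) (.br (nat_lit 0) (.cons (.br (nat_lit 2) (.cons (.rel (nat_lit 71311368)) .nil)) .nil)) .leaf))))))

/-- refutations 4 -/
def e4 : EX := (.node (.node (.node (.node (.node (.node (.node .leaf (nat_lit 5463246177056) (.br (nat_lit 1) (.cons (.br (nat_lit 2) (.cons (.rel (nat_lit 83886090)) .nil)) .nil)) .leaf) (nat_lit 5466365120522) (.br (nat_lit 1) (.cons (.br (nat_lit 2) (.cons (.rel (nat_lit 101187840)) .nil)) .nil)) .leaf) (nat_lit 5469722102571) (.br (nat_lit 0) (.cons (.br (nat_lit 1) (.cons (.rel (nat_lit 22021125)) .nil)) .nil)) (.node .leaf (nat_lit 5583562345203) (.br (nat_lit 0) (.cons (.br (nat_lit 1) (.cons (.rel (nat_lit 21299217)) .nil)) .nil)) .leaf)) (nat_lit 5583562345248) (.br (nat_lit 0) (.cons (.br (nat_lit 1) (.cons (.rel (nat_lit 21234948)) .nil)) .nil)) (.node (.node .leaf (nat_lit 5583562345753)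 (.br (nat_lit 0) (.cons (.br (nat_lit 1) (.cons (.rel (nat_lit 37765380)) (.cons (.rel (nat_lit 25183233)) .nil))) .nil)) .leaf) (nat_lit 5583562345978) (.br (nat_lit 5) (.cons (.br (nat_lit 0) (.cons (.rel (nat_lit 4299161865)) (.cons (.rel (nat_lit 4299325440)) .nil))) .nil)) (.node .leaf (nat_lit 5583562405919) (.br (nat_lit 5) (.cons (.br (nat_lit 6) (.cons (.rel (nat_lit 25769824272)) .nil)) .nil)) .leaf))) (nat_lit 5583562406673) (.br (nat_lit 2) (.cons (.br (nat_lit 0) (.cons (.rel (nat_lit 71368977)) (.cons (.rel (nat_lit 142607649)) .nil))) .nil)) (.node (.node (.node .leaf (nat_lit 5583562909029) (.br (nat_lit 1) (.cons (.br (nat_lit 2) (.cons (.rel (nat_lit 83886090)) .nil)) .nil)) .leaf) (nat_lit 5583562918169) (.br (nat_lit 6) (.cons (.br (nat_lit 1) (.cons (.rel (nat_lit 17196646692)) (.cons (.rel (nat_lit 17196647682)) .nil))) .nil)) (.node .leaf (nat_lit 5583562969098) (.br (nat_lit 0) (.cons (.br (nat_lit 5) (.cons (.rel (nat_lit 4299162900)) .nil)) .nil)) .leaf))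 (nat_lit 5583563888650) (.br (nat_lit 2) (.cons (.br (nat_lit 4) (.cons (.rel (nat_lit 1140871248)) (.cons (.rel (nat_lit 1207968000)) (.cons (.rel (nat_lit 2214592530)) (.cons (.rel (nat_lit 2214592530)) (.cons (.rel (nat_lit 1140871248)) .nil)))))) (.cons (.br (nat_lit 1) (.cons (.rel (nat_lit 167772165)) (.cons (.rel (nat_lit 84213840)) (.cons (.rel (nat_lit 151257600)) .nil)))) .nil))) (.node (.node .leaf (nat_lit 5583563889395) (.br (nat_lit 1) (.cons (.br (nat_lit 3) (.cons (.rel (nat_lit 301989906)) (.cons (.rel (nat_lit 285278352)) (.cons (.br (nat_lit 5) (.cons (.rel (nat_lit 8623490304)) (.cons (.rel (nat_lit 4312006728)) (.cons (.rel (nat_lit 8623490304)) (.cons (.rel (nat_lit 4563468561)) .nil))))) .nil)))) .nil)) .leaf) (nat_lit 5583563901853) (.br (nat_lit 5) (.cons (.br (nat_lit 0) (.cons (.rel (nat_lit 8594653248)) (.cons (.rel (nat_lit 4299161865)) .nil))) .nil)) (.node .leaf (nat_lit 5583563931679) (.br (nat_lit 1) (.cons (.br (nat_lit 3) (.cons (.rel (nat_lit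 285278352)) .nil)) .nil)) .leaf)))) (nat_lit 5583563933029) (.br (nat_lit 1) (.cons (.br (nat_lit 4) (.cons (.rel (nat_lit 2181318720)) .nil)) .nil)) (.node (.node (.node (.node (.node .leaf (nat_lit 5583563940645) (.br (nat_lit 1) (.cons (.br (nat_lit 3) (.cons (.rel (nat_lit 285495312)) (.cons (.rel (nat_lit 301989906)) .nil))) .nil)) .leaf) (nat_lit 5583563950105) (.br (nat_lit 1) (.cons (.br (nat_lit 3) (.cons (.rel (nat_lit 287588736)) .nil)) .nil)) .leaf) (nat_lit 5583563950865) (.br (nat_lit 2) (.cons (.br (nat_lit 3) (.cons (.rel (nat_lit 335544345)) (.cons (.rel (nat_lit 671089665)) (.cons (.rel (nat_lit 335546370)) .nil)))) (.cons (.br (nat_lit 3) (.cons (.rel (nat_lit 335546370)) (.cons (.rel (nat_lit 671089665)) (.cons (.rel (nat_lit 337969152)) .nil)))) .nil))) (.node .leaf (nat_lit 5583563951007) (.br (nat_lit 1) (.cons (.br (nat_lit 3) (.cons (.rel (nat_lit 285229185)) .nil)) .nil)) .leaf)) (nat_lit 5583564002040) (.br (nat_lit 1) (.cons (.br (nat_lit 4) (.cons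 (.rel (nat_lit 1090521105)) .nil)) .nil)) (.node (.node .leaf (nat_lit 5583564002686) (.br (nat_lit 0) (.cons (.br (nat_lit 2) (.cons (.rel (nat_lit 71311368)) .nil)) .nil)) .leaf) (nat_lit 5583564137203) (.br (nat_lit 1) (.cons (.br (nat_lit 5) (.cons (.rel (nat_lit 4311748872)) .nil)) .nil)) (.node .leaf (nat_lit 5583564137753) (.br (nat_lit 0) (.cons (.br (nat_lit 2) (.cons (.rel (nat_lit 142610436)) (.cons (.rel (nat_lit 72892416)) .nil))) .nil)) .leaf))) (nat_lit 5583564160481) (.br (nat_lit 1) (.cons (.br (nat_lit 3) (.cons (.rel (nat_lit 553914432)) (.cons (.rel (nat_lit 285229185)) .nil))) (.cons (.br (nat_lit 5) (.cons (.rel (nat_lit 4311765009)) (.cons (.rel (nat_lit 4311761184)) .nil))) .nil))) (.node (.node (.node .leaf (nat_lit 5583564160506) (.br (nat_lit 1) (.cons (.br (nat_lit 4) (.cons (.rel (nat_lit 1090519080)) .nil)) .nil)) .leaf) (nat_lit 5583564185625) (.br (nat_lit 1) (.cons (.br (nat_lit 6) (.cons (.rel (nat_lit 17196663828)) .nil)) .nil)) (.node .leaf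 (nat_lit 5583564262906) (.br (nat_lit 5) (.cons (.br (nat_lit 6) (.cons (.rel (nat_lit 21474838080)) .nil)) .nil)) .leaf)) (nat_lit 5583564904479) (.br (nat_lit 0) (.cons (.br (nat_lit 2) (.cons (.rel (nat_lit 71304708)) .nil)) .nil)) (.node (.node .leaf (nat_lit 5583564975365) (.br (nat_lit 0) (.cons (.br (nat_lit 3) (.cons (.rel (nat_lit 276840453)) (.cons (.rel (nat_lit 541082880)) .nil))) .nil)) .leaf) (nat_lit 5583564975486) (.br (nat_lit 6) (.cons (.br (nat_lit 0) (.cons (.rel (nat_lit 17184145680)) (.cons (.rel (nat_lit 17188323408)) (.cons (.rel (nat_lit 34369769472)) .nil)))) .nil)) (.node .leaf (nat_lit 5583564976278) (.br (nat_lit 0) (.cons (.br (nat_lit 1) (.cons (.rel (nat_lit 21234948)) .nil)) .nil)) .leaf))))) (nat_lit 5583565160753) (.br (nat_lit 3) (.cons (.br (nat_lit 1) (.cons (.rel (nat_lit 553649160)) (.cons (.rel (nat_lit 554696784)) .nil))) .nil)) (.node (.node (.node (.node (.node (.node .leaf (nat_lit 5583565161203) (.br (nat_lit 0) (.cons (.br (nat_lit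 1) (.cons (.rel (nat_lit 22089984)) .nil)) .nil)) .leaf) (nat_lit 5583565161978) (.br (nat_lit 1) (.cons (.br (nat_lit 5) (.cons (.rel (nat_lit 8607768576)) .nil)) .nil)) .leaf) (nat_lit 5583565183733) (.br (nat_lit 1) (.cons (.br (nat_lit 2) (.cons (.rel (nat_lit 83959809)) .nil)) .nil)) (.node .leaf (nat_lit 5583565184506) (.br (nat_lit 6) (.cons (.br (nat_lit 5) (.cons (.rel (nat_lit 38654773248)) (.cons (.rel (nat_lit 21474844740)) .nil))) .nil)) .leaf)) (nat_lit 5583565477370) (.br (nat_lit 6) (.cons (.br (nat_lit 1) (.cons (.rel (nat_lit 17196713985)) (.cons (.rel (nat_lit 17196662793)) (.cons (.rel (nat_lit 17196662793)) (.cons (.rel (nat_lit 34376516736)) .nil))))) (.cons (.br (nat_lit 1) (.cons (.rel (nat_lit 17196647682)) (.cons (.rel (nat_lit 17196650517)) (.cons (.rel (nat_lit 17196663828)) (.cons (.rel (nat_lit 17196650517)) .nil))))) (.cons (.br (nat_lit 5) (.cons (.rel (nat_lit 38654722056)) (.cons (.rel (nat_lit 21474869328)) (.cons (.rel (nat_lit 21477015552))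 (.cons (.rel (nat_lit 38654722056)) .nil))))) .nil)))) (.node (.node .leaf (nat_lit 5583565528545) (.br (nat_lit 6) (.cons (.br (nat_lit 2) (.cons (.rel (nat_lit 34426851588)) (.cons (.rel (nat_lit 17315201088)) .nil))) .nil)) .leaf) (nat_lit 5584652925713) (.br (nat_lit 2) (.cons (.br (nat_lit 3) (.cons (.rel (nat_lit 671089665)) .nil)) .nil)) (.node .leaf (nat_lit 5584655996410) (.br (nat_lit 1) (.cons (.br (nat_lit 4) (.cons (.rel (nat_lit 2164785216)) (.cons (.rel (nat_lit 1090519080)) (.cons (.rel (nat_lit 1090585104)) .nil)))) .nil)) .leaf))) (nat_lit 5589434370828) (.br (nat_lit 0) (.cons (.br (nat_lit 5) (.cons (.rel (nat_lit 8594653248)) .nil)) .nil)) (.node (.node (.node .leaf (nat_lit 5589434370859) (.br (nat_lit 0) (.cons (.br (nat_lit 1) (.cons (.rel (nat_lit 26214720)) .nil)) .nil)) .leaf) (nat_lit 5589434371353) (.br (nat_lit 0) (.cons (.br (nat_lit 5) (.cons (.rel (nat_lit 4299325440)) .nil)) .nil)) (.node .leaf (nat_lit 5589434903453) (.br (nat_lit 1) (.cons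 (.br (nat_lit 4) (.cons (.rel (nat_lit 1090602240)) .nil)) .nil)) .leaf)) (nat_lit 5589435966245) (.br (nat_lit 1) (.cons (.br (nat_lit 4) (.cons (.rel (nat_lit 1090521105)) (.cons (.rel (nat_lit 1090520070)) .nil))) (.cons (.br (nat_lit 4) (.cons (.rel (nat_lit 1090519080)) (.cons (.rel (nat_lit 2181038100)) .nil))) .nil))) (.node (.node .leaf (nat_lit 5589436287863) (.br (nat_lit 2) (.cons (.br (nat_lit 3) (.cons (.rel (nat_lit 336592968)) .nil)) .nil)) .leaf) (nat_lit 5589437186828) (.br (nat_lit 0) (.cons (.br (nat_lit 3) (.cons (.rel (nat_lit 541065744)) .nil)) .nil)) (.node .leaf (nat_lit 5589437186853) (.br (nat_lit 3) (.cons (.br (nat_lit 0) (.cons (.rel (nat_lit 273752064)) (.cons (.rel (nat_lit 276889620)) .nil))) .nil)) .leaf)))) (nat_lit 5643797256997) (.br (nat_lit 0) (.cons (.br (nat_lit 1) (.cons (.rel (nat_lit 20971656)) .nil)) .nil)) (.node (.node (.node (.node (.node .leaf (nat_lit 5643797368842) (.br (nat_lit 0) (.cons (.br (nat_lit 1) (.cons (.rel (nat_lit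 22089984)) .nil)) .nil)) .leaf) (nat_lit 5798415568153) (.br (nat_lit 1) (.cons (.br (nat_lit 4) (.cons (.rel (nat_lit 1091569728)) .nil)) .nil)) .leaf) (nat_lit 5798415628294) (.br (nat_lit 2) (.cons (.br (nat_lit 6) (.cons (.rel (nat_lit 34426856448)) .nil)) .nil)) (.node .leaf (nat_lit 5798415629048) (.br (nat_lit 0) (.cons (.br (nat_lit 2) (.cons (.rel (nat_lit 73420929)) .nil)) .nil)) .leaf)) (nat_lit 5798417156106) (.br (nat_lit 2) (.cons (.br (nat_lit 3) (.cons (.rel (nat_lit 335565072)) .nil)) .nil)) (.node (.node .leaf (nat_lit 5798417173240) (.br (nat_lit 1) (.cons (.br (nat_lit 2) (.cons (.rel (nat_lit 83888160)) (.cons (.rel (nat_lit 167772165)) .nil))) (.cons (.br (nat_lit 2) (.cons (.rel (nat_lit 83886090)) (.cons (.rel (nat_lit 83888160)) .nil))) .nil))) .leaf) (nat_lit 5798417173886) (.br (nat_lit 0) (.cons (.br (nat_lit 2) (.cons (.rel (nat_lit 72417600)) .nil)) .nil)) (.node .leaf (nat_lit 5798417360153) (.br (nat_lit 0) (.cons (.br (nat_lit 1) (.cons (.rel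 (nat_lit 21234948)) .nil)) .nil)) .leaf))) (nat_lit 5798418384153) (.br (nat_lit 0) (.cons (.br (nat_lit 3) (.cons (.rel (nat_lit 273752064)) .nil)) .nil)) (.node (.node (.node .leaf (nat_lit 5798418699745) (.br (nat_lit 2) (.cons (.br (nat_lit 3) (.cons (.rel (nat_lit 335546370)) .nil)) .nil)) .leaf) (nat_lit 5799303697889) (.br (nat_lit 0) (.cons (.br (nat_lit 5) (.cons (.rel (nat_lit 8594653248)) .nil)) .nil)) (.node .leaf (nat_lit 5803973553678) (.br (nat_lit 0) (.cons (.br (nat_lit 5) (.cons (.rel (nat_lit 4299162900)) .nil)) .nil)) .leaf)) (nat_lit 5803975630904) (.br (nat_lit 1) (.cons (.br (nat_lit 3) (.cons (.rel (nat_lit 285278352)) .nil)) .nil)) (.node (.node .leaf (nat_lit 5803975652114) (.br (nat_lit 4) (.cons (.br (nat_lit 6) (.cons (.rel (nat_lit 18254925828)) .nil)) .nil)) .leaf) (nat_lit 5803975836453) (.br (nat_lit 0) (.cons (.br (nat_lit 3) (.cons (.rel (nat_lit 276824352)) .nil)) .nil)) (.node .leaf (nat_lit 5844323780618) (.br (nat_lit 0) (.cons (.br (nat_lit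 4) (.cons (.rel (nat_lit 1077938688)) .nil)) .nil)) .leaf))))))

/-- refutations 5 -/
def e5 : EX := (.node (.node (.node (.node (.node .leaf (nat_lit 5858335394097) (.br (nat_lit 0) (.cons (.br (nat_lit 3) (.cons (.rel (nat_lit 272957472)) .nil)) .nil)) .leaf) (nat_lit 5858335957879) (.br (nat_lit 0) (.cons (.br (nat_lit 6) (.cons (.rel (nat_lit 17184063510)) .nil)) .nil)) (.node .leaf (nat_lit 5858335967242) (.br (nat_lit 0) (.cons (.br (nat_lit 2) (.cons (.rel (nat_lit 71304708)) (.cons (.rel (nat_lit 71304708)) .nil))) (.cons (.br (nat_lit 5) (.cons (.rel (nat_lit 4299227169)) (.cons (.rel (nat_lit 8594653248)) .nil))) .nil))) .leaf)) (nat_lit 5858335968032) (.br (nat_lit 0) (.cons (.br (nat_lit 2) (.cons (.rel (nat_lit 71323680)) (.cons (.rel (nat_lit 72417600)) .nil))) .nil)) (.node (.node .leaf (nat_lit 5858336018442) (.br (nat_lit 1) (.cons (.br (nat_lit 0) (.cons (.rel (nat_lit 37756929)) (.cons (.rel (nat_lit 22089984)) .nil))) .nil)) .leaf) (nat_lit 5858336940063)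 (.br (nat_lit 3) (.cons (.br (nat_lit 2) (.cons (.rel (nat_lit 335546370)) (.cons (.rel (nat_lit 671089665)) .nil))) .nil)) (.node .leaf (nat_lit 5858336940959) (.br (nat_lit 5) (.cons (.br (nat_lit 2) (.cons (.rel (nat_lit 4362141792)) (.cons (.rel (nat_lit 4429447233)) .nil))) .nil)) .leaf))) (nat_lit 5858337000311) (.br (nat_lit 0) (.cons (.br (nat_lit 1) (.cons (.rel (nat_lit 21307680)) .nil)) .nil)) (.node (.node (.node .leaf (nat_lit 5858337000351) (.br (nat_lit 0) (.cons (.br (nat_lit 1) (.cons (.rel (nat_lit 37756929)) .nil)) .nil)) .leaf) (nat_lit 5858337000731) (.br (nat_lit 0) (.cons (.br (nat_lit 5) (.cons (.rel (nat_lit 4299182592)) .nil)) .nil)) (.node .leaf (nat_lit 5858337000809) (.br (nat_lit 3) (.cons (.br (nat_lit 6) (.cons (.rel (nat_lit 17448387072)) .nil)) .nil)) .leaf)) (nat_lit 5858338014071) (.br (nat_lit 1) (.cons (.br (nat_lit 2) (.cons (.rel (nat_lit 151257600)) .nil)) .nil)) (.node (.node .leaf (nat_lit 5863838321426) (.br (nat_lit 3) (.cons (.br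 (nat_lit 4) (.cons (.rel (nat_lit 2684354565)) .nil)) .nil)) .leaf) (nat_lit 5863838894090) (.br (nat_lit 4) (.cons (.br (nat_lit 5) (.cons (.rel (nat_lit 5368725570)) .nil)) .nil)) .leaf))) (nat_lit 6442556068645) (.br (nat_lit 0) (.cons (.br (nat_lit 3) (.cons (.rel (nat_lit 272892168)) .nil)) .nil)) (.node (.node (.node (.node .leaf (nat_lit 6442556164248) (.br (nat_lit 1) (.cons (.br (nat_lit 3) (.cons (.rel (nat_lit 286263552)) (.cons (.rel (nat_lit 301994496)) .nil))) .nil)) .leaf) (nat_lit 6442557440025) (.br (nat_lit 1) (.cons (.br (nat_lit 3) (.cons (.rel (nat_lit 285483048)) .nil)) .nil)) (.node .leaf (nat_lit 6442557595953) (.br (nat_lit 0) (.cons (.br (nat_lit 1) (.cons (.rel (nat_lit 41943108)) .nil)) .nil)) .leaf)) (nat_lit 6443650877450) (.br (nat_lit 0) (.cons (.br (nat_lit 2) (.cons (.rel (nat_lit 71323680)) .nil)) .nil)) (.node (.node .leaf (nat_lit 6443651141642) (.br (nat_lit 2) (.cons (.br (nat_lit 5) (.cons (.rel (nat_lit 8657109012)) .nil)) .nil)) .leaf)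 (nat_lit 6528455510193) (.br (nat_lit 0) (.cons (.br (nat_lit 3) (.cons (.rel (nat_lit 272908305)) (.cons (.rel (nat_lit 272631936)) .nil))) .nil)) .leaf)) (nat_lit 6528455723018) (.br (nat_lit 0) (.cons (.br (nat_lit 2) (.cons (.rel (nat_lit 71304708)) .nil)) .nil)) (.node (.node (.node .leaf (nat_lit 6528456501998) (.br (nat_lit 0) (.cons (.br (nat_lit 2) (.cons (.rel (nat_lit 71319810)) .nil)) .nil)) .leaf) (nat_lit 6528458241510) (.br (nat_lit 0) (.cons (.br (nat_lit 1) (.cons (.rel (nat_lit 25169922)) (.cons (.rel (nat_lit 21234948)) .nil))) (.cons (.br (nat_lit 1) (.cons (.rel (nat_lit 21250050)) (.cons (.rel (nat_lit 25232400)) .nil))) .nil))) (.node .leaf (nat_lit 6528904300554) (.br (nat_lit 0) (.cons (.br (nat_lit 2) (.cons (.rel (nat_lit 71311368)) .nil)) .nil)) .leaf)) (nat_lit 6531600878323) (.br (nat_lit 0) (.cons (.br (nat_lit 3) (.cons (.rel (nat_lit 276840453)) .nil)) .nil)) (.node (.node .leaf (nat_lit 6531600878353) (.br (nat_lit 3) (.cons (.br (nat_lit 4)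 (.cons (.rel (nat_lit 2684355600)) .nil)) .nil)) .leaf) (nat_lit 7743413933562) (.br (nat_lit 4) (.cons (.br (nat_lit 1) (.cons (.rel (nat_lit 1090519080)) (.cons (.rel (nat_lit 1090535937)) .nil))) .nil)) .leaf))))

/-- refutations 6 -/
def e6 : EX := (.node (.node (.node (.node (.node (.node (.node .leaf (nat_lit 7817050245880) (.br (nat_lit 4) (.cons (.br (nat_lit 1) (.cons (.rel (nat_lit 1090543632)) (.cons (.rel (nat_lit 1090519080)) .nil))) .nil)) .leaf) (nat_lit 7817050245930) (.br (nat_lit 3) (.cons (.br (nat_lit 4) (.cons (.rel (nat_lit 1342178325)) .nil)) .nil)) (.node .leaf (nat_lit 7817050246625) (.br (nat_lit 0) (.cons (.br (nat_lit 4) (.cons (.rel (nat_lit 1077938688)) .nil)) .nil)) .leaf)) (nat_lit 7817050246675) (.br (nat_lit 3) (.cons (.br (nat_lit 5) (.cons (.rel (nat_lit 4832362497)) .nil)) .nil)) (.node (.node .leaf (nat_lit 7817050556543) (.br (nat_lit 4) (.cons (.br (nat_lit 2) (.cons (.rel (nat_lit 1208057856)) (.cons (.rel (nat_lit 1140883524)) .nil)))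 .nil)) .leaf) (nat_lit 7817050820914) (.br (nat_lit 4) (.cons (.br (nat_lit 0) (.cons (.rel (nat_lit 1077968901)) (.cons (.rel (nat_lit 1078198344)) .nil))) .nil)) (.node .leaf (nat_lit 7817051753323) (.br (nat_lit 1) (.cons (.br (nat_lit 3) (.cons (.rel (nat_lit 303038529)) .nil)) .nil)) .leaf))) (nat_lit 7817051801625) (.br (nat_lit 0) (.cons (.br (nat_lit 2) (.cons (.rel (nat_lit 71311368)) .nil)) .nil)) (.node (.node (.node .leaf (nat_lit 7817052113023) (.br (nat_lit 4) (.cons (.br (nat_lit 6) (.cons (.rel (nat_lit 19327647828)) .nil)) .nil)) .leaf) (nat_lit 7817052113048) (.br (nat_lit 2) (.cons (.br (nat_lit 4) (.cons (.rel (nat_lit 1142964480)) .nil)) .nil)) (.node .leaf (nat_lit 7817053277665) (.br (nat_lit 0) (.cons (.br (nat_lit 4) (.cons (.rel (nat_lit 1079574528)) (.cons (.rel (nat_lit 1077940488)) .nil))) (.cons (.br (nat_lit 4) (.cons (.rel (nat_lit 1079005248)) (.cons (.rel (nat_lit 1077968901)) .nil))) .nil))) .leaf)) (nat_lit 7817053277690) (.br (nat_lit 4)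 (.cons (.br (nat_lit 5) (.cons (.rel (nat_lit 6442455312)) (.cons (.rel (nat_lit 5368710468)) .nil))) .nil)) (.node (.node .leaf (nat_lit 7817053328865) (.br (nat_lit 0) (.cons (.br (nat_lit 4) (.cons (.rel (nat_lit 1077938688)) (.cons (.rel (nat_lit 1077956625)) .nil))) (.cons (.br (nat_lit 4) (.cons (.rel (nat_lit 2151678096)) (.cons (.rel (nat_lit 1077952800)) .nil))) .nil))) .leaf) (nat_lit 7817053328890) (.br (nat_lit 3) (.cons (.br (nat_lit 5) (.cons (.rel (nat_lit 4563404292)) (.cons (.rel (nat_lit 4563404292)) .nil))) .nil)) .leaf))) (nat_lit 7817053328915) (.br (nat_lit 3) (.cons (.br (nat_lit 5) (.cons (.rel (nat_lit 4832362497)) .nil)) .nil)) (.node (.node (.node (.node .leaf (nat_lit 7817053378585) (.br (nat_lit 2) (.cons (.br (nat_lit 3) (.cons (.rel (nat_lit 335544345)) .nil)) .nil)) .leaf) (nat_lit 7817053380065) (.br (nat_lit 3) (.cons (.br (nat_lit 5) (.cons (.rel (nat_lit 4563410952)) (.cons (.rel (nat_lit 4563667008)) (.cons (.rel (nat_lit 4563667008)) .nil))))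 .nil)) (.node .leaf (nat_lit 7817053380090) (.br (nat_lit 5) (.cons (.br (nat_lit 0) (.cons (.rel (nat_lit 4299161865)) (.cons (.rel (nat_lit 4299325440)) (.cons (.rel (nat_lit 4299178002)) .nil)))) (.cons (.br (nat_lit 0) (.cons (.rel (nat_lit 4299161865)) (.cons (.rel (nat_lit 4299325440)) (.cons (.rel (nat_lit 4299493440)) .nil)))) .nil))) .leaf)) (nat_lit 7817053380115) (.br (nat_lit 5) (.cons (.br (nat_lit 1) (.cons (.rel (nat_lit 4311761184)) (.cons (.rel (nat_lit 8606973984)) .nil))) .nil)) (.node (.node .leaf (nat_lit 7820720213273) (.br (nat_lit 0) (.cons (.br (nat_lit 3) (.cons (.rel (nat_lit 272892168)) .nil)) .nil)) .leaf) (nat_lit 7820721858570) (.br (nat_lit 0) (.cons (.br (nat_lit 1) (.cons (.rel (nat_lit 22021125)) .nil)) .nil)) (.node .leaf (nat_lit 8031588845873) (.br (nat_lit 1) (.cons (.br (nat_lit 3) (.cons (.rel (nat_lit 285507588)) .nil)) .nil)) .leaf))) (nat_lit 8031588846353) (.br (nat_lit 1) (.cons (.br (nat_lit 2) (.cons (.rel (nat_lit 167772165))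 .nil)) .nil)) (.node (.node (.node .leaf (nat_lit 8031588846873) (.br (nat_lit 1) (.cons (.br (nat_lit 2) (.cons (.rel (nat_lit 83887125)) (.cons (.rel (nat_lit 83959809)) .nil))) (.cons (.br (nat_lit 2) (.cons (.rel (nat_lit 83886090)) (.cons (.rel (nat_lit 83886090)) .nil))) .nil))) .leaf) (nat_lit 8031588847123) (.br (nat_lit 0) (.cons (.br (nat_lit 3) (.cons (.rel (nat_lit 276828177)) .nil)) .nil)) (.node .leaf (nat_lit 8031588864010) (.br (nat_lit 3) (.cons (.br (nat_lit 5) (.cons (.br (nat_lit 0) (.cons (.rel (nat_lit 8862565377)) (.cons (.rel (nat_lit 273699072)) (.cons (.rel (nat_lit 272957472)) (.cons (.rel (nat_lit 273752064)) (.cons (.rel (nat_lit 272631936)) .nil)))))) (.cons (.rel (nat_lit 4563404292)) (.cons (.rel (nat_lit 4832362497)) .nil)))) (.cons (.br (nat_lit 5) (.cons (.rel (nat_lit 9126809604)) (.cons (.rel (nat_lit 4833935616)) (.cons (.rel (nat_lit 9126809604)) .nil)))) .nil))) .leaf)) (nat_lit 8031588864805) (.br (nat_lit 2) (.cons (.br (nat_lit 3) (.cons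 (.rel (nat_lit 335565072)) (.cons (.rel (nat_lit 335545380)) .nil))) (.cons (.br (nat_lit 3) (.cons (.rel (nat_lit 403719168)) (.cons (.rel (nat_lit 671089665)) .nil))) .nil))) (.node (.node .leaf (nat_lit 8031588894745) (.br (nat_lit 4) (.cons (.br (nat_lit 6) (.cons (.br (nat_lit 3) (.cons (.rel (nat_lit 2684354565)) (.cons (.rel (nat_lit 2684354565)) (.cons (.rel (nat_lit 1342178325)) (.cons (.rel (nat_lit 17716740168)) .nil))))) (.cons (.rel (nat_lit 18253612113)) .nil))) (.cons (.br (nat_lit 6) (.cons (.rel (nat_lit 18253612113)) (.cons (.rel (nat_lit 36507500544)) .nil))) .nil))) .leaf) (nat_lit 8031588895480) (.br (nat_lit 3) (.cons (.br (nat_lit 0) (.cons (.rel (nat_lit 272631936)) (.cons (.rel (nat_lit 273679380)) (.cons (.rel (nat_lit 545260608)) .nil)))) (.cons (.br (nat_lit 1) (.cons (.rel (nat_lit 553649160)) (.cons (.rel (nat_lit 553649160)) (.cons (.rel (nat_lit 285229185)) .nil)))) .nil))) .leaf)))) (nat_lit 8031588895505) (.br (nat_lit 3) (.cons (.br (nat_lit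 6) (.cons (.rel (nat_lit 17448323073)) (.cons (.rel (nat_lit 17448305937)) .nil))) (.cons (.br (nat_lit 2) (.cons (.rel (nat_lit 671089665)) (.cons (.rel (nat_lit 335545380)) (.cons (.rel (nat_lit 335546370)) .nil)))) .nil))) (.node (.node (.node (.node (.node .leaf (nat_lit 8031588895532) (.br (nat_lit 1) (.cons (.br (nat_lit 4) (.cons (.rel (nat_lit 1090543632)) .nil)) .nil)) .leaf) (nat_lit 8031588896250) (.br (nat_lit 2) (.cons (.br (nat_lit 5) (.cons (.rel (nat_lit 8724415488)) (.cons (.rel (nat_lit 8724415488)) .nil))) .nil)) (.node .leaf (nat_lit 8031588896275) (.br (nat_lit 5) (.cons (.br (nat_lit 4) (.cons (.rel (nat_lit 5368774737)) (.cons (.rel (nat_lit 5368710468)) .nil))) .nil)) .leaf)) (nat_lit 8031588907039) (.br (nat_lit 6) (.cons (.br (nat_lit 2) (.cons (.rel (nat_lit 34426851588)) (.cons (.rel (nat_lit 17246978133)) .nil))) .nil)) (.node (.node .leaf (nat_lit 8031589109940) (.br (nat_lit 2) (.cons (.br (nat_lit 3) (.cons (.rel (nat_lit 402919680)) (.cons (.rel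 (nat_lit 671089665)) .nil))) (.cons (.br (nat_lit 5) (.cons (.rel (nat_lit 4362602496)) (.cons (.rel (nat_lit 4364238849)) .nil))) .nil))) .leaf) (nat_lit 8031589110067) (.br (nat_lit 2) (.cons (.br (nat_lit 3) (.cons (.rel (nat_lit 335822928)) .nil)) .nil)) (.node .leaf (nat_lit 8031589110545) (.br (nat_lit 5) (.cons (.br (nat_lit 1) (.cons (.rel (nat_lit 4311748872)) (.cons (.rel (nat_lit 4311761184)) (.cons (.rel (nat_lit 4312006728)) (.cons (.rel (nat_lit 4311777285)) .nil))))) .nil)) .leaf))) (nat_lit 8031589206143) (.br (nat_lit 4) (.cons (.br (nat_lit 5) (.cons (.rel (nat_lit 5368774737)) .nil)) .nil)) (.node (.node (.node .leaf (nat_lit 8031589206168) (.br (nat_lit 4) (.cons (.br (nat_lit 2) (.cons (.rel (nat_lit 2281702785)) (.cons (.rel (nat_lit 1140883524)) (.cons (.rel (nat_lit 1141391361)) (.cons (.rel (nat_lit 1207960584)) .nil))))) .nil)) .leaf) (nat_lit 8031589206827) (.br (nat_lit 1) (.cons (.br (nat_lit 4) (.cons (.rel (nat_lit 1090543632)) .nil)) .nil)) (.node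 .leaf (nat_lit 8031589358949) (.br (nat_lit 2) (.cons (.br (nat_lit 6) (.cons (.rel (nat_lit 17314103298)) .nil)) .nil)) .leaf)) (nat_lit 8031589410273) (.br (nat_lit 2) (.cons (.br (nat_lit 6) (.cons (.rel (nat_lit 17248290048)) .nil)) .nil)) (.node (.node .leaf (nat_lit 8031589470218) (.br (nat_lit 0) (.cons (.br (nat_lit 2) (.cons (.rel (nat_lit 142610436)) .nil)) .nil)) .leaf) (nat_lit 8031590393862) (.br (nat_lit 5) (.cons (.br (nat_lit 0) (.cons (.rel (nat_lit 8598405120)) (.cons (.rel (nat_lit 4299180036)) .nil))) .nil)) .leaf))) (nat_lit 8031590402058) (.br (nat_lit 1) (.cons (.br (nat_lit 2) (.cons (.rel (nat_lit 167773200)) (.cons (.br (nat_lit 3) (.cons (.rel (nat_lit 553649160)) (.cons (.rel (nat_lit 671089665)) .nil))) .nil))) (.cons (.br (nat_lit 2) (.cons (.rel (nat_lit 167772165)) (.cons (.br (nat_lit 3) (.cons (.rel (nat_lit 286277664)) (.cons (.rel (nat_lit 671089665)) .nil))) .nil))) .nil))) (.node (.node (.node (.node .leaf (nat_lit 8031590402853) (.br (nat_lit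 4) (.cons (.br (nat_lit 2) (.cons (.rel (nat_lit 1207959585)) (.cons (.rel (nat_lit 1141391361)) .nil))) .nil)) .leaf) (nat_lit 8031590402973) (.br (nat_lit 0) (.cons (.br (nat_lit 3) (.cons (.rel (nat_lit 541065744)) .nil)) .nil)) (.node .leaf (nat_lit 8031590403578) (.br (nat_lit 5) (.cons (.br (nat_lit 3) (.cons (.br (nat_lit 2) (.cons (.rel (nat_lit 671089665)) (.cons (.rel (nat_lit 335618064)) .nil))) (.cons (.rel (nat_lit 4563410952)) .nil))) .nil)) .leaf)) (nat_lit 8031590433520) (.br (nat_lit 0) (.cons (.br (nat_lit 6) (.cons (.rel (nat_lit 17184198672)) .nil)) .nil)) (.node (.node .leaf (nat_lit 8031590433580) (.br (nat_lit 1) (.cons (.br (nat_lit 2) (.cons (.rel (nat_lit 83959809)) .nil)) .nil)) .leaf) (nat_lit 8031590451225) (.br (nat_lit 4) (.cons (.br (nat_lit 2) (.cons (.rel (nat_lit 2214854976)) (.cons (.rel (nat_lit 2214739968)) .nil))) .nil)) (.node .leaf (nat_lit 8031590451985) (.br (nat_lit 4) (.cons (.br (nat_lit 6) (.cons (.rel (nat_lit 18254660736)) (.cons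 (.rel (nat_lit 36507500544)) (.cons (.rel (nat_lit 35433611280)) .nil)))) .nil)) .leaf))) (nat_lit 8031590452010) (.br (nat_lit 5) (.cons (.br (nat_lit 6) (.cons (.rel (nat_lit 21474869328)) (.cons (.rel (nat_lit 21474838080)) .nil))) .nil)) (.node (.node (.node .leaf (nat_lit 8031590452730) (.br (nat_lit 3) (.cons (.br (nat_lit 5) (.cons (.rel (nat_lit 4563404292)) .nil)) .nil)) .leaf) (nat_lit 8031590482695) (.br (nat_lit 3) (.cons (.br (nat_lit 1) (.cons (.rel (nat_lit 303038529)) (.cons (.rel (nat_lit 285507588)) (.cons (.rel (nat_lit 303038529)) .nil)))) (.cons (.br (nat_lit 4) (.cons (.rel (nat_lit 2684354565)) (.cons (.rel (nat_lit 1342177290)) (.cons (.rel (nat_lit 1342179360)) .nil)))) .nil))) (.node .leaf (nat_lit 8031590502425) (.br (nat_lit 0) (.cons (.br (nat_lit 5) (.cons (.rel (nat_lit 4299325440)) (.cons (.rel (nat_lit 4299178002)) .nil))) (.cons (.br (nat_lit 2) (.cons (.rel (nat_lit 142610436)) (.cons (.rel (nat_lit 142610436)) (.cons (.rel (nat_lit 71304708))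 (.cons (.rel (nat_lit 71567424)) .nil))))) .nil))) .leaf)) (nat_lit 8031590503160) (.br (nat_lit 0) (.cons (.br (nat_lit 5) (.cons (.rel (nat_lit 4299227169)) .nil)) .nil)) (.node (.node .leaf (nat_lit 8031590503185) (.br (nat_lit 5) (.cons (.br (nat_lit 3) (.cons (.rel (nat_lit 9126809604)) (.cons (.rel (nat_lit 4563404292)) .nil))) .nil)) .leaf) (nat_lit 8031590503186) (.br (nat_lit 0) (.cons (.br (nat_lit 1) (.cons (.rel (nat_lit 41943108)) (.cons (.rel (nat_lit 20971656)) .nil))) .nil)) .leaf))))) (nat_lit 8031590649059) (.br (nat_lit 1) (.cons (.br (nat_lit 2) (.cons (.rel (nat_lit 83906817)) .nil)) .nil)) (.node (.node (.node (.node (.node (.node .leaf (nat_lit 8031591405599) (.br (nat_lit 3) (.cons (.br (nat_lit 4) (.cons (.rel (nat_lit 2684354565)) .nil)) .nil)) .leaf) (nat_lit 8031591661593) (.br (nat_lit 0) (.cons (.br (nat_lit 3) (.cons (.rel (nat_lit 272892168)) .nil)) .nil)) (.node .leaf (nat_lit 8031591662493) (.br (nat_lit 0) (.cons (.br (nat_lit 2) (.cons (.rel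 (nat_lit 71319810)) .nil)) .nil)) .leaf)) (nat_lit 8031591662873) (.br (nat_lit 0) (.cons (.br (nat_lit 5) (.cons (.rel (nat_lit 4299325440)) .nil)) .nil)) (.node (.node .leaf (nat_lit 8031591663098) (.br (nat_lit 0) (.cons (.br (nat_lit 3) (.cons (.rel (nat_lit 545260608)) .nil)) .nil)) .leaf) (nat_lit 8031591926517) (.br (nat_lit 0) (.cons (.br (nat_lit 2) (.cons (.rel (nat_lit 71311368)) .nil)) .nil)) (.node .leaf (nat_lit 8031591926570) (.br (nat_lit 0) (.cons (.br (nat_lit 2) (.cons (.rel (nat_lit 71368977)) .nil)) .nil)) .leaf))) (nat_lit 8031591927265) (.br (nat_lit 0) (.cons (.br (nat_lit 1) (.cons (.rel (nat_lit 41943108)) (.cons (.rel (nat_lit 21234948)) (.cons (.rel (nat_lit 22347840)) (.cons (.rel (nat_lit 25169922)) .nil))))) (.cons (.br (nat_lit 6) (.cons (.rel (nat_lit 34365063168)) (.cons (.rel (nat_lit 17184198672)) .nil))) .nil))) (.node (.node (.node .leaf (nat_lit 8031591927290) (.br (nat_lit 5) (.cons (.br (nat_lit 3) (.cons (.rel (nat_lit 4563410952)) (.cons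 (.rel (nat_lit 8858632194)) .nil))) .nil)) .leaf) (nat_lit 8031591927315) (.br (nat_lit 4) (.cons (.br (nat_lit 0) (.cons (.rel (nat_lit 1077938688)) (.cons (.rel (nat_lit 1079574528)) (.cons (.rel (nat_lit 1079005248)) .nil)))) (.cons (.br (nat_lit 2) (.cons (.rel (nat_lit 1142964480)) (.cons (.rel (nat_lit 1208057856)) (.cons (.rel (nat_lit 2214594564)) .nil)))) .nil))) (.node .leaf (nat_lit 8031591976985) (.br (nat_lit 5) (.cons (.br (nat_lit 2) (.cons (.rel (nat_lit 8724415488)) (.cons (.br (nat_lit 0) (.cons (.rel (nat_lit 71304708)) (.cons (.rel (nat_lit 71304708)) (.cons (.rel (nat_lit 4300275792)) .nil)))) (.cons (.rel (nat_lit 4364238849)) .nil)))) .nil)) .leaf)) (nat_lit 8031591977772) (.br (nat_lit 1) (.cons (.br (nat_lit 2) (.cons (.rel (nat_lit 100671552)) .nil)) .nil)) (.node (.node .leaf (nat_lit 8031591978465) (.br (nat_lit 2) (.cons (.br (nat_lit 4) (.cons (.rel (nat_lit 1140883524)) (.cons (.rel (nat_lit 1207994625)) (.cons (.rel (nat_lit 1207968000)) .nil))))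 (.cons (.br (nat_lit 1) (.cons (.rel (nat_lit 83906817)) (.cons (.rel (nat_lit 167773200)) (.cons (.rel (nat_lit 167772165)) (.cons (.rel (nat_lit 150999168)) .nil))))) (.cons (.br (nat_lit 4) (.cons (.rel (nat_lit 1142964480)) (.cons (.rel (nat_lit 1141391361)) (.cons (.rel (nat_lit 2214592530)) .nil)))) .nil)))) .leaf) (nat_lit 8031591978490) (.br (nat_lit 5) (.cons (.br (nat_lit 6) (.cons (.rel (nat_lit 21477015552)) (.cons (.br (nat_lit 0) (.cons (.rel (nat_lit 17184063510)) (.cons (.rel (nat_lit 4300275792)) (.cons (.rel (nat_lit 17184065544)) (.cons (.rel (nat_lit 4300275792)) (.cons (.rel (nat_lit 4299325440)) (.cons (.rel (nat_lit 4300275792)) .nil))))))) (.cons (.br (nat_lit 2) (.cons (.rel (nat_lit 8658096192)) (.cons (.rel (nat_lit 4362141792)) (.cons (.rel (nat_lit 8724415488)) (.cons (.rel (nat_lit 17246979168)) (.cons (.rel (nat_lit 8724415488)) (.cons (.rel (nat_lit 34426851588)) (.cons (.rel (nat_lit 34426929168)) (.cons (.rel (nat_lit 8658096192)) .nil)))))))))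 .nil)))) .nil)) .leaf))) (nat_lit 8031591978515) (.br (nat_lit 0) (.cons (.br (nat_lit 4) (.cons (.rel (nat_lit 1077940488)) (.cons (.rel (nat_lit 1077940488)) (.cons (.rel (nat_lit 1078198344)) .nil)))) (.cons (.br (nat_lit 5) (.cons (.rel (nat_lit 4299325440)) (.cons (.rel (nat_lit 4300275792)) .nil))) .nil))) (.node (.node (.node (.node .leaf (nat_lit 8031592028185) (.br (nat_lit 0) (.cons (.br (nat_lit 5) (.cons (.rel (nat_lit 4299162900)) .nil)) .nil)) .leaf) (nat_lit 8031592029665) (.br (nat_lit 0) (.cons (.br (nat_lit 1) (.cons (.rel (nat_lit 22021125)) (.cons (.rel (nat_lit 20971656)) .nil))) (.cons (.br (nat_lit 4) (.cons (.rel (nat_lit 1079005248)) (.cons (.rel (nat_lit 1077956625)) .nil))) .nil))) (.node .leaf (nat_lit 8031592029690) (.br (nat_lit 0) (.cons (.br (nat_lit 5) (.cons (.rel (nat_lit 8598405120)) (.cons (.rel (nat_lit 4299180036)) (.cons (.rel (nat_lit 4299162900)) .nil)))) (.cons (.br (nat_lit 6) (.cons (.br (nat_lit 3) (.cons (.rel (nat_lit 545260608))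 (.cons (.rel (nat_lit 17448345600)) (.cons (.rel (nat_lit 273956928)) (.cons (.rel (nat_lit 17448323073)) (.cons (.rel (nat_lit 272908305)) .nil)))))) (.cons (.rel (nat_lit 17184198672)) (.cons (.rel (nat_lit 17184149505)) .nil)))) (.cons (.br (nat_lit 5) (.cons (.rel (nat_lit 4299178002)) (.cons (.rel (nat_lit 4299178002)) (.cons (.rel (nat_lit 4300226625)) .nil)))) .nil)))) .leaf)) (nat_lit 8031592029715) (.br (nat_lit 0) (.cons (.br (nat_lit 5) (.cons (.rel (nat_lit 8598405120)) (.cons (.rel (nat_lit 4299325440)) .nil))) (.cons (.br (nat_lit 5) (.cons (.br (nat_lit 4) (.cons (.rel (nat_lit 5370822672)) (.cons (.rel (nat_lit 1077956625)) (.cons (.rel (nat_lit 1077968901)) .nil)))) (.cons (.rel (nat_lit 8598405120)) .nil))) .nil))) (.node (.node .leaf (nat_lit 8031592031013) (.br (nat_lit 6) (.cons (.br (nat_lit 1) (.cons (.rel (nat_lit 17196941376)) (.cons (.rel (nat_lit 34376516736)) .nil))) .nil)) .leaf) (nat_lit 8032142512138) (.br (nat_lit 2) (.cons (.br (nat_lit 0) (.cons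 (.rel (nat_lit 71304708)) (.cons (.rel (nat_lit 71335956)) .nil))) .nil)) (.node .leaf (nat_lit 8032144050937) (.br (nat_lit 2) (.cons (.br (nat_lit 6) (.cons (.rel (nat_lit 34426916904)) .nil)) .nil)) .leaf))) (nat_lit 8035261994465) (.br (nat_lit 1) (.cons (.br (nat_lit 2) (.cons (.rel (nat_lit 167772165)) .nil)) .nil)) (.node (.node (.node .leaf (nat_lit 8035262045715) (.br (nat_lit 0) (.cons (.br (nat_lit 2) (.cons (.rel (nat_lit 142610436)) .nil)) .nil)) .leaf) (nat_lit 8038006179865) (.br (nat_lit 0) (.cons (.br (nat_lit 4) (.cons (.rel (nat_lit 1077940488)) .nil)) .nil)) (.node .leaf (nat_lit 8038006181370) (.br (nat_lit 2) (.cons (.br (nat_lit 3) (.cons (.rel (nat_lit 335546370)) .nil)) .nil)) .leaf)) (nat_lit 8038006181395) (.br (nat_lit 5) (.cons (.br (nat_lit 6) (.cons (.rel (nat_lit 38654715408)) .nil)) .nil)) (.node (.node .leaf (nat_lit 8038009212410) (.br (nat_lit 0) (.cons (.br (nat_lit 2) (.cons (.rel (nat_lit 142610436)) .nil)) .nil)) .leaf) (nat_lit 11227044514597)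 (.br (nat_lit 0) (.cons (.br (nat_lit 1) (.cons (.rel (nat_lit 21250050)) (.cons (.rel (nat_lit 20971656)) .nil))) .nil)) .leaf)))) (nat_lit 11227044532234) (.br (nat_lit 0) (.cons (.br (nat_lit 5) (.cons (.rel (nat_lit 4303360320)) .nil)) .nil)) (.node (.node (.node (.node (.node .leaf (nat_lit 11227044532401) (.br (nat_lit 0) (.cons (.br (nat_lit 5) (.cons (.rel (nat_lit 4299178002)) .nil)) .nil)) .leaf) (nat_lit 11227044532875) (.br (nat_lit 0) (.cons (.br (nat_lit 4) (.cons (.rel (nat_lit 1077940488)) .nil)) .nil)) (.node .leaf (nat_lit 11227044533136) (.br (nat_lit 0) (.cons (.br (nat_lit 3) (.cons (.rel (nat_lit 273699072)) .nil)) .nil)) .leaf)) (nat_lit 11227044533759) (.br (nat_lit 2) (.cons (.br (nat_lit 4) (.cons (.rel (nat_lit 1141391361)) .nil)) .nil)) (.node (.node .leaf (nat_lit 11227044874250) (.br (nat_lit 2) (.cons (.br (nat_lit 5) (.cons (.rel (nat_lit 8724415488)) (.cons (.rel (nat_lit 4362141792)) .nil))) .nil)) .leaf) (nat_lit 11227044874417) (.br (nat_lit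 5) (.cons (.br (nat_lit 6) (.cons (.rel (nat_lit 38654706945)) (.cons (.rel (nat_lit 25769836548)) (.cons (.rel (nat_lit 38654709780)) .nil)))) .nil)) (.node .leaf (nat_lit 11227044874521) (.br (nat_lit 2) (.cons (.br (nat_lit 5) (.cons (.rel (nat_lit 4362141792)) .nil)) .nil)) .leaf))) (nat_lit 11227044874866) (.br (nat_lit 0) (.cons (.br (nat_lit 3) (.cons (.rel (nat_lit 272629914)) (.cons (.rel (nat_lit 272957472)) .nil))) .nil)) (.node (.node (.node .leaf (nat_lit 11227044875152) (.br (nat_lit 4) (.cons (.br (nat_lit 6) (.cons (.rel (nat_lit 36507500544)) .nil)) .nil)) .leaf) (nat_lit 11227046160394) (.br (nat_lit 3) (.cons (.br (nat_lit 4) (.cons (.rel (nat_lit 2416971792)) .nil)) .nil)) (.node .leaf (nat_lit 11227046161010) (.br (nat_lit 3) (.cons (.br (nat_lit 5) (.cons (.rel (nat_lit 4563404292)) .nil)) .nil)) .leaf)) (nat_lit 11227046161189) (.br (nat_lit 0) (.cons (.br (nat_lit 5) (.cons (.rel (nat_lit 4299162900)) (.cons (.rel (nat_lit 4299182592)) .nil))) (.cons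 (.br (nat_lit 4) (.cons (.rel (nat_lit 1078005792)) (.cons (.rel (nat_lit 1078005792)) .nil))) .nil))) (.node (.node .leaf (nat_lit 11227046161641) (.br (nat_lit 1) (.cons (.br (nat_lit 3) (.cons (.rel (nat_lit 285229185)) (.cons (.rel (nat_lit 301991940)) .nil))) .nil)) .leaf) (nat_lit 11227046170649) (.br (nat_lit 3) (.cons (.br (nat_lit 5) (.cons (.rel (nat_lit 4563404292)) .nil)) .nil)) .leaf))) (nat_lit 11227046431657) (.br (nat_lit 0) (.cons (.br (nat_lit 5) (.cons (.rel (nat_lit 4299227169)) .nil)) .nil)) (.node (.node (.node (.node .leaf (nat_lit 11227047134439) (.br (nat_lit 2) (.cons (.br (nat_lit 4) (.cons (.rel (nat_lit 1140871248)) .nil)) .nil)) .leaf) (nat_lit 11227047595489) (.br (nat_lit 0) (.cons (.br (nat_lit 5) (.cons (.rel (nat_lit 4299227169)) (.cons (.rel (nat_lit 4299178002)) .nil))) (.cons (.br (nat_lit 4) (.cons (.rel (nat_lit 1077956625)) (.cons (.rel (nat_lit 1077968901)) (.cons (.rel (nat_lit 1078005792)) (.cons (.rel (nat_lit 1077968901)) .nil)))))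 .nil))) (.node .leaf (nat_lit 11227047661057) (.br (nat_lit 1) (.cons (.br (nat_lit 2) (.cons (.rel (nat_lit 150999168)) .nil)) .nil)) .leaf)) (nat_lit 11227047712257) (.br (nat_lit 5) (.cons (.br (nat_lit 3) (.cons (.rel (nat_lit 4563423264)) (.cons (.rel (nat_lit 4563419394)) .nil))) .nil)) (.node (.node .leaf (nat_lit 11227260080153) (.br (nat_lit 0) (.cons (.br (nat_lit 1) (.cons (.rel (nat_lit 41943108)) .nil)) .nil)) .leaf) (nat_lit 11227599809138) (.br (nat_lit 0) (.cons (.br (nat_lit 2) (.cons (.rel (nat_lit 75497538)) .nil)) .nil)) .leaf)) (nat_lit 11227599809317) (.br (nat_lit 5) (.cons (.br (nat_lit 0) (.cons (.rel (nat_lit 4299182592)) (.cons (.rel (nat_lit 4299161865)) .nil))) .nil)) (.node (.node (.node .leaf (nat_lit 11228140874533) (.br (nat_lit 0) (.cons (.br (nat_lit 1) (.cons (.rel (nat_lit 25231365)) .nil)) .nil)) .leaf) (nat_lit 11228141847783) (.br (nat_lit 0) (.cons (.br (nat_lit 4) (.cons (.rel (nat_lit 2155873536)) .nil)) .nil)) (.node .leaf (nat_lit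 11228142308833) (.br (nat_lit 0) (.cons (.br (nat_lit 1) (.cons (.rel (nat_lit 21299217)) .nil)) .nil)) .leaf)) (nat_lit 11230243655137) (.br (nat_lit 0) (.cons (.br (nat_lit 5) (.cons (.rel (nat_lit 4299178002)) .nil)) .nil)) (.node (.node .leaf (nat_lit 11233545703434) (.br (nat_lit 0) (.cons (.br (nat_lit 5) (.cons (.rel (nat_lit 4299161865)) .nil)) .nil)) .leaf) (nat_lit 11233566674954) (.br (nat_lit 0) (.cons (.br (nat_lit 4) (.cons (.rel (nat_lit 1077956625)) .nil)) .nil)) .leaf))))))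

/-- refutations 7 -/
def e7 : EX := (.node (.node (.node (.node (.node .leaf (nat_lit 11253024083425) (.br (nat_lit 1) (.cons (.br (nat_lit 3) (.cons (.rel (nat_lit 285507588)) .nil)) .nil)) .leaf) (nat_lit 11253024094218) (.br (nat_lit 3) (.cons (.br (nat_lit 2) (.cons (.rel (nat_lit 335546370)) (.cons (.rel (nat_lit 403177536)) .nil))) .nil)) (.node .leaf (nat_lit 11253025641198) (.br (nat_lit 3) (.cons (.br (nat_lit 5) (.cons (.rel (nat_lit 4563533829)) (.cons (.rel (nat_lit 4563435540)) .nil))) .nil)) .leaf)) (nat_lit 11256213248805) (.br (nat_lit 4) (.cons (.br (nat_lit 5) (.cons (.rel (nat_lit 9663680514)) .nil)) .nil)) (.node (.node .leaf (nat_lit 11256214836005) (.br (nat_lit 2) (.cons (.br (nat_lit 5) (.cons (.rel (nat_lit 4362602496)) .nil)) .nil)) .leaf) (nat_lit 11256214836705) (.br (nat_lit 2) (.cons (.br (nat_lit 3) (.cons (.rel (nat_lit 335618064)) .nil)) .nil)) .leaf)) (nat_lit 11261617100257) (.br (nat_lit 5) (.cons (.br (nat_lit 3) (.cons (.rel (nat_lit 4564992000))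 (.cons (.rel (nat_lit 4565581956)) (.cons (.rel (nat_lit 4563435540)) .nil)))) .nil)) (.node (.node (.node .leaf (nat_lit 11261957901593) (.br (nat_lit 0) (.cons (.br (nat_lit 2) (.cons (.rel (nat_lit 142610436)) .nil)) .nil)) .leaf) (nat_lit 11261957901818) (.br (nat_lit 0) (.cons (.br (nat_lit 1) (.cons (.rel (nat_lit 20971656)) .nil)) .nil)) .leaf) (nat_lit 11261959445235) (.br (nat_lit 2) (.cons (.br (nat_lit 3) (.cons (.rel (nat_lit 335565072)) .nil)) .nil)) (.node (.node .leaf (nat_lit 11261961032567) (.br (nat_lit 2) (.cons (.br (nat_lit 3) (.cons (.rel (nat_lit 604242048)) .nil)) .nil)) .leaf) (nat_lit 11811267741028) (.br (nat_lit 2) (.cons (.br (nat_lit 6) (.cons (.rel (nat_lit 17314152465)) .nil)) .nil)) .leaf))) (nat_lit 11814831627045) (.br (nat_lit 1) (.cons (.br (nat_lit 3) (.cons (.rel (nat_lit 285229185)) .nil)) .nil)) (.node (.node (.node (.node .leaf (nat_lit 11905754204340) (.br (nat_lit 0) (.cons (.br (nat_lit 2) (.cons (.rel (nat_lit 71311368)) (.cons (.rel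 (nat_lit 138678288)) .nil))) (.cons (.br (nat_lit 2) (.cons (.rel (nat_lit 71319810)) (.cons (.rel (nat_lit 142610436)) .nil))) .nil))) .leaf) (nat_lit 11905754204972) (.br (nat_lit 0) (.cons (.br (nat_lit 1) (.cons (.rel (nat_lit 37756929)) .nil)) .nil)) (.node .leaf (nat_lit 11905754205690) (.br (nat_lit 0) (.cons (.br (nat_lit 1) (.cons (.rel (nat_lit 37756929)) .nil)) .nil)) .leaf)) (nat_lit 11905755841312) (.br (nat_lit 0) (.cons (.br (nat_lit 2) (.cons (.rel (nat_lit 71304708)) .nil)) .nil)) (.node (.node .leaf (nat_lit 11905756019575) (.br (nat_lit 0) (.cons (.br (nat_lit 2) (.cons (.rel (nat_lit 71372802)) .nil)) .nil)) .leaf) (nat_lit 11905756019993) (.br (nat_lit 0) (.cons (.br (nat_lit 1) (.cons (.rel (nat_lit 20971656)) .nil)) .nil)) .leaf)) (nat_lit 11905757401144) (.br (nat_lit 0) (.cons (.br (nat_lit 2) (.cons (.rel (nat_lit 71386113)) .nil)) .nil)) (.node (.node (.node .leaf (nat_lit 11908819222010) (.br (nat_lit 0) (.cons (.br (nat_lit 1) (.cons (.rel (nat_lit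 20971656)) .nil)) .nil)) .leaf) (nat_lit 11909319926647) (.br (nat_lit 0) (.cons (.br (nat_lit 1) (.cons (.rel (nat_lit 41943108)) .nil)) .nil)) .leaf) (nat_lit 11910934171130) (.br (nat_lit 0) (.cons (.br (nat_lit 2) (.cons (.rel (nat_lit 72417600)) .nil)) .nil)) (.node (.node .leaf (nat_lit 11912195551982) (.br (nat_lit 0) (.cons (.br (nat_lit 3) (.cons (.rel (nat_lit 272892168)) .nil)) .nil)) .leaf) (nat_lit 11912195593722) (.br (nat_lit 2) (.cons (.br (nat_lit 0) (.cons (.rel (nat_lit 71311368)) (.cons (.rel (nat_lit 71304708)) .nil))) .nil)) .leaf))))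

/-- refutations 8 -/
def e8 : EX := (.node (.node (.node (.node (.node (.node (.node .leaf (nat_lit 12885006748428) (.br (nat_lit 0) (.cons (.br (nat_lit 5) (.cons (.rel (nat_lit 4299325440)) .nil)) .nil)) .leaf) (nat_lit 12885006748453) (.br (nat_lit 3) (.cons (.br (nat_lit 5) (.cons (.rel (nat_lit 9126809604)) .nil)) .nil)) (.node .leaf (nat_lit 12885007280153) (.br (nat_lit 0) (.cons (.br (nat_lit 3) (.cons (.rel (nat_lit 273752064)) .nil)) .nil)) .leaf)) (nat_lit 12885007281678) (.br (nat_lit 0) (.cons (.br (nat_lit 2) (.cons (.rel (nat_lit 71386113)) .nil)) .nil)) (.node (.node .leaf (nat_lit 12885007312254) (.br (nat_lit 0) (.cons (.br (nat_lit 3) (.cons (.rel (nat_lit 277876800)) .nil)) .nil)) .leaf) (nat_lit 12885008283704) (.br (nat_lit 0) (.cons (.br (nat_lit 1) (.cons (.rel (nat_lit 20971656)) .nil)) .nil)) .leaf)) (nat_lit 12885008285054) (.br (nat_lit 1) (.cons (.br (nat_lit 3) (.cons (.rel (nat_lit 301989906)) .nil)) .nil)) (.node (.node (.node .leaf (nat_lit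 12885008293944) (.br (nat_lit 0) (.cons (.br (nat_lit 3) (.cons (.rel (nat_lit 273752064)) .nil)) .nil)) .leaf) (nat_lit 12885008304914) (.br (nat_lit 1) (.cons (.br (nat_lit 3) (.cons (.rel (nat_lit 286263552)) .nil)) .nil)) (.node .leaf (nat_lit 12885008305053) (.br (nat_lit 3) (.cons (.br (nat_lit 1) (.cons (.rel (nat_lit 285495312)) (.cons (.rel (nat_lit 301989906)) .nil))) .nil)) .leaf)) (nat_lit 12885008337648) (.br (nat_lit 0) (.cons (.br (nat_lit 6) (.cons (.rel (nat_lit 17184065544)) .nil)) .nil)) (.node (.node .leaf (nat_lit 12885008353305) (.br (nat_lit 3) (.cons (.br (nat_lit 6) (.cons (.rel (nat_lit 34628173956)) .nil)) .nil)) .leaf) (nat_lit 12885008354040) (.br (nat_lit 6) (.cons (.br (nat_lit 2) (.cons (.rel (nat_lit 17248026756)) (.cons (.rel (nat_lit 17248026756)) .nil))) .nil)) .leaf))) (nat_lit 12885008354065) (.br (nat_lit 0) (.cons (.br (nat_lit 2) (.cons (.rel (nat_lit 71323680)) (.cons (.rel (nat_lit 71319810)) (.cons (.rel (nat_lit 142610436)) .nil))))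 (.cons (.br (nat_lit 2) (.cons (.rel (nat_lit 71435280)) (.cons (.rel (nat_lit 71304708)) (.cons (.rel (nat_lit 71386113)) .nil)))) .nil))) (.node (.node (.node (.node .leaf (nat_lit 12885008356078) (.br (nat_lit 0) (.cons (.br (nat_lit 3) (.cons (.rel (nat_lit 272908305)) .nil)) .nil)) .leaf) (nat_lit 12885008356089) (.br (nat_lit 3) (.cons (.br (nat_lit 1) (.cons (.rel (nat_lit 553656576)) (.cons (.rel (nat_lit 285507588)) .nil))) .nil)) (.node .leaf (nat_lit 12885008404660) (.br (nat_lit 3) (.cons (.br (nat_lit 4) (.cons (.rel (nat_lit 2684355600)) .nil)) .nil)) .leaf)) (nat_lit 12885008405290) (.br (nat_lit 6) (.cons (.br (nat_lit 0) (.cons (.rel (nat_lit 17184065544)) (.cons (.rel (nat_lit 34368128004)) .nil))) .nil)) (.node (.node .leaf (nat_lit 12885008405886) (.br (nat_lit 2) (.cons (.br (nat_lit 0) (.cons (.rel (nat_lit 71311368)) (.cons (.rel (nat_lit 71311368)) .nil))) .nil)) .leaf) (nat_lit 12885008540953) (.br (nat_lit 1) (.cons (.br (nat_lit 3) (.cons (.rel (nat_lit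 285229185)) .nil)) .nil)) .leaf)) (nat_lit 12885008562483) (.br (nat_lit 1) (.cons (.br (nat_lit 2) (.cons (.rel (nat_lit 83955984)) .nil)) .nil)) (.node (.node (.node .leaf (nat_lit 12885008563113) (.br (nat_lit 2) (.cons (.br (nat_lit 3) (.cons (.rel (nat_lit 335544345)) (.cons (.rel (nat_lit 335545380)) .nil))) (.cons (.br (nat_lit 3) (.cons (.rel (nat_lit 335544345)) (.cons (.rel (nat_lit 335544345)) .nil))) .nil))) .leaf) (nat_lit 12885008589675) (.br (nat_lit 0) (.cons (.br (nat_lit 3) (.cons (.rel (nat_lit 541082880)) (.cons (.rel (nat_lit 272631936)) (.cons (.rel (nat_lit 276841488)) .nil)))) (.cons (.br (nat_lit 2) (.cons (.rel (nat_lit 75497538)) (.cons (.rel (nat_lit 71304708)) (.cons (.rel (nat_lit 71311368)) .nil)))) .nil))) (.node .leaf (nat_lit 12885009307704) (.br (nat_lit 1) (.cons (.br (nat_lit 2) (.cons (.rel (nat_lit 83886090)) .nil)) .nil)) .leaf)) (nat_lit 12885009308554) (.br (nat_lit 1) (.cons (.br (nat_lit 3) (.cons (.rel (nat_lit 286265352)) .nil))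 .nil)) (.node (.node .leaf (nat_lit 12885009308899) (.br (nat_lit 1) (.cons (.br (nat_lit 2) (.cons (.rel (nat_lit 83886090)) .nil)) .nil)) .leaf) (nat_lit 12885009368295) (.br (nat_lit 1) (.cons (.br (nat_lit 3) (.cons (.rel (nat_lit 286265352)) (.cons (.rel (nat_lit 285495312)) .nil))) (.cons (.br (nat_lit 3) (.cons (.rel (nat_lit 285278352)) (.cons (.rel (nat_lit 285507588)) .nil))) .nil))) .leaf)))) (nat_lit 12885009586356) (.br (nat_lit 1) (.cons (.br (nat_lit 3) (.cons (.rel (nat_lit 285507588)) .nil)) .nil)) (.node (.node (.node (.node (.node .leaf (nat_lit 12885009586933) (.br (nat_lit 6) (.cons (.br (nat_lit 2) (.cons (.rel (nat_lit 17248026756)) (.cons (.rel (nat_lit 17246978133)) .nil))) .nil)) .leaf) (nat_lit 12885009922058) (.br (nat_lit 0) (.cons (.br (nat_lit 2) (.cons (.rel (nat_lit 71567424)) (.cons (.rel (nat_lit 71319810)) .nil))) (.cons (.br (nat_lit 5) (.cons (.rel (nat_lit 4299325440)) (.cons (.rel (nat_lit 4299161865)) .nil))) .nil))) (.node .leaf (nat_lit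 12885561940723) (.br (nat_lit 1) (.cons (.br (nat_lit 3) (.cons (.rel (nat_lit 285278352)) .nil)) .nil)) .leaf)) (nat_lit 12885563528673) (.br (nat_lit 3) (.cons (.br (nat_lit 1) (.cons (.rel (nat_lit 285606912)) (.cons (.rel (nat_lit 285278352)) .nil))) .nil)) (.node (.node .leaf (nat_lit 12886101821721) (.br (nat_lit 2) (.cons (.br (nat_lit 3) (.cons (.rel (nat_lit 335545380)) .nil)) .nil)) .leaf) (nat_lit 12886102034442) (.br (nat_lit 2) (.cons (.br (nat_lit 5) (.cons (.rel (nat_lit 4362141792)) .nil)) .nil)) .leaf)) (nat_lit 12886102034713) (.br (nat_lit 2) (.cons (.br (nat_lit 5) (.cons (.rel (nat_lit 4363141248)) (.cons (.rel (nat_lit 4362141792)) .nil))) .nil)) (.node (.node (.node .leaf (nat_lit 12886103005939) (.br (nat_lit 1) (.cons (.br (nat_lit 3) (.cons (.rel (nat_lit 285606912)) .nil)) .nil)) .leaf) (nat_lit 12886103303019) (.br (nat_lit 2) (.cons (.br (nat_lit 3) (.cons (.rel (nat_lit 335618064)) .nil)) .nil)) (.node .leaf (nat_lit 12886103378571) (.br (nat_lit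 0) (.cons (.br (nat_lit 1) (.cons (.rel (nat_lit 41943108)) .nil)) .nil)) .leaf)) (nat_lit 12886104033561) (.br (nat_lit 0) (.cons (.br (nat_lit 2) (.cons (.rel (nat_lit 77594640)) .nil)) .nil)) (.node (.node .leaf (nat_lit 12886104278547) (.br (nat_lit 0) (.cons (.br (nat_lit 1) (.cons (.rel (nat_lit 20971656)) .nil)) .nil)) .leaf) (nat_lit 12888154082065) (.br (nat_lit 3) (.cons (.br (nat_lit 4) (.cons (.rel (nat_lit 1342247184)) .nil)) .nil)) .leaf))) (nat_lit 12888154291063) (.br (nat_lit 0) (.cons (.br (nat_lit 3) (.cons (.rel (nat_lit 273237057)) .nil)) .nil)) (.node (.node (.node (.node .leaf (nat_lit 12888174020864) (.br (nat_lit 0) (.cons (.br (nat_lit 1) (.cons (.rel (nat_lit 25183233)) .nil)) .nil)) .leaf) (nat_lit 12888175003658) (.br (nat_lit 3) (.cons (.br (nat_lit 5) (.cons (.rel (nat_lit 4563410952)) .nil)) .nil)) (.node .leaf (nat_lit 12888175004398) (.br (nat_lit 1) (.cons (.br (nat_lit 3) (.cons (.rel (nat_lit 302137344)) .nil)) .nil)) .leaf)) (nat_lit 12888571906353)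 (.br (nat_lit 0) (.cons (.br (nat_lit 2) (.cons (.rel (nat_lit 138412161)) .nil)) .nil)) (.node (.node .leaf (nat_lit 12888573512440) (.br (nat_lit 2) (.cons (.br (nat_lit 4) (.cons (.rel (nat_lit 1140871248)) .nil)) .nil)) .leaf) (nat_lit 12888574722353) (.br (nat_lit 1) (.cons (.br (nat_lit 3) (.cons (.rel (nat_lit 554696784)) .nil)) .nil)) .leaf)) (nat_lit 12888575038945) (.br (nat_lit 1) (.cons (.br (nat_lit 4) (.cons (.rel (nat_lit 1090519080)) (.cons (.rel (nat_lit 1090519080)) .nil))) .nil)) (.node (.node (.node .leaf (nat_lit 12888723474713) (.br (nat_lit 1) (.cons (.br (nat_lit 2) (.cons (.rel (nat_lit 83959809)) .nil)) .nil)) .leaf) (nat_lit 12891341703968) (.br (nat_lit 2) (.cons (.br (nat_lit 3) (.cons (.rel (nat_lit 335546370)) .nil)) .nil)) .leaf) (nat_lit 12891343340320) (.br (nat_lit 1) (.cons (.br (nat_lit 3) (.cons (.rel (nat_lit 285278352)) .nil)) .nil)) (.node (.node .leaf (nat_lit 13099859970809) (.br (nat_lit 0) (.cons (.br (nat_lit 1) (.cons (.rel (nat_lit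 21250050)) .nil)) .nil)) .leaf) (nat_lit 13099859970828) (.br (nat_lit 0) (.cons (.br (nat_lit 2) (.cons (.rel (nat_lit 71335956)) (.cons (.rel (nat_lit 138678288)) (.cons (.rel (nat_lit 71434245)) .nil)))) .nil)) .leaf))))) (nat_lit 13099859970833) (.br (nat_lit 0) (.cons (.br (nat_lit 2) (.cons (.rel (nat_lit 75497538)) .nil)) .nil)) (.node (.node (.node (.node (.node (.node .leaf (nat_lit 13099859970853) (.br (nat_lit 0) (.cons (.br (nat_lit 3) (.cons (.rel (nat_lit 272908305)) (.cons (.rel (nat_lit 272908305)) .nil))) .nil)) .leaf) (nat_lit 13099859970859) (.br (nat_lit 0) (.cons (.br (nat_lit 5) (.cons (.rel (nat_lit 4299227169)) .nil)) .nil)) (.node .leaf (nat_lit 13099859971353) (.br (nat_lit 0) (.cons (.br (nat_lit 3) (.cons (.rel (nat_lit 545260608)) .nil)) .nil)) .leaf)) (nat_lit 13099860019950) (.br (nat_lit 0) (.cons (.br (nat_lit 1) (.cons (.rel (nat_lit 21250050)) .nil)) .nil)) (.node (.node .leaf (nat_lit 13099860483454) (.br (nat_lit 1) (.cons (.br (nat_lit 2)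 (.cons (.rel (nat_lit 167772165)) (.cons (.rel (nat_lit 167772165)) .nil))) (.cons (.br (nat_lit 3) (.cons (.rel (nat_lit 285540609)) (.cons (.rel (nat_lit 285229185)) .nil))) .nil))) .leaf) (nat_lit 13099861526538) (.br (nat_lit 0) (.cons (.br (nat_lit 3) (.cons (.rel (nat_lit 272631936)) .nil)) .nil)) .leaf)) (nat_lit 13099861527278) (.br (nat_lit 3) (.cons (.br (nat_lit 6) (.cons (.rel (nat_lit 17448308772)) .nil)) .nil)) (.node (.node (.node .leaf (nat_lit 13099861527289) (.br (nat_lit 3) (.cons (.br (nat_lit 6) (.cons (.rel (nat_lit 17448304902)) .nil)) .nil)) .leaf) (nat_lit 13099861527453) (.br (nat_lit 1) (.cons (.br (nat_lit 0) (.cons (.rel (nat_lit 25166097)) (.cons (.rel (nat_lit 20971656)) .nil))) .nil)) (.node .leaf (nat_lit 13099861576490) (.br (nat_lit 5) (.cons (.br (nat_lit 0) (.cons (.rel (nat_lit 4299178002)) (.cons (.rel (nat_lit 4299180036)) .nil))) .nil)) .leaf)) (nat_lit 13099861617420) (.br (nat_lit 3) (.cons (.br (nat_lit 0) (.cons (.rel (nat_lit 545260608))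 (.cons (.rel (nat_lit 272892168)) (.cons (.rel (nat_lit 273678345)) (.cons (.rel (nat_lit 541082880)) .nil))))) .nil)) (.node (.node .leaf (nat_lit 13099861627665) (.br (nat_lit 0) (.cons (.br (nat_lit 6) (.cons (.rel (nat_lit 17184065544)) .nil)) .nil)) .leaf) (nat_lit 13099861627690) (.br (nat_lit 0) (.cons (.br (nat_lit 5) (.cons (.rel (nat_lit 4299161865)) .nil)) .nil)) .leaf))) (nat_lit 13099861762853) (.br (nat_lit 0) (.cons (.br (nat_lit 3) (.cons (.rel (nat_lit 276889620)) .nil)) .nil)) (.node (.node (.node (.node .leaf (nat_lit 13099861763353) (.br (nat_lit 0) (.cons (.br (nat_lit 3) (.cons (.rel (nat_lit 276840453)) (.cons (.rel (nat_lit 276889620)) .nil))) (.cons (.br (nat_lit 3) (.cons (.rel (nat_lit 541327425)) (.cons (.rel (nat_lit 273752064)) .nil))) .nil))) .leaf) (nat_lit 13099861785488) (.br (nat_lit 3) (.cons (.br (nat_lit 6) (.cons (.rel (nat_lit 34896629760)) .nil)) .nil)) (.node .leaf (nat_lit 13099861785513) (.br (nat_lit 5) (.cons (.br (nat_lit 3) (.cons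 (.rel (nat_lit 4563435540)) (.cons (.rel (nat_lit 4563423264)) .nil))) .nil)) .leaf)) (nat_lit 13099862581254) (.br (nat_lit 1) (.cons (.br (nat_lit 5) (.cons (.rel (nat_lit 4311814176)) .nil)) .nil)) (.node (.node .leaf (nat_lit 13099862581304) (.br (nat_lit 1) (.cons (.br (nat_lit 5) (.cons (.rel (nat_lit 4311777285)) (.cons (.rel (nat_lit 8623490304)) .nil))) .nil)) .leaf) (nat_lit 13099862589450) (.br (nat_lit 1) (.cons (.br (nat_lit 5) (.cons (.rel (nat_lit 8623490304)) .nil)) .nil)) .leaf)) (nat_lit 13099862787353) (.br (nat_lit 0) (.cons (.br (nat_lit 6) (.cons (.rel (nat_lit 34368128004)) .nil)) .nil)) (.node (.node (.node .leaf (nat_lit 13099862787553) (.br (nat_lit 0) (.cons (.br (nat_lit 3) (.cons (.rel (nat_lit 276828177)) .nil)) .nil)) .leaf) (nat_lit 13100415433641) (.br (nat_lit 0) (.cons (.br (nat_lit 3) (.cons (.rel (nat_lit 272908305)) .nil)) .nil)) .leaf) (nat_lit 13102944373547) (.br (nat_lit 5) (.cons (.br (nat_lit 0) (.cons (.rel (nat_lit 8594653248)) (.cons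 (.rel (nat_lit 8594395392)) .nil))) .nil)) (.node (.node .leaf (nat_lit 13102944701303) (.br (nat_lit 2) (.cons (.br (nat_lit 5) (.cons (.rel (nat_lit 4362141792)) .nil)) .nil)) .leaf) (nat_lit 13102944701353) (.br (nat_lit 2) (.cons (.br (nat_lit 3) (.cons (.rel (nat_lit 335546370)) .nil)) .nil)) .leaf)))) (nat_lit 13103028226798) (.br (nat_lit 3) (.cons (.br (nat_lit 5) (.cons (.rel (nat_lit 4563436578)) .nil)) .nil)) (.node (.node (.node (.node (.node .leaf (nat_lit 13103425129209) (.br (nat_lit 0) (.cons (.br (nat_lit 1) (.cons (.br (nat_lit 5) (.cons (.rel (nat_lit 8624555076)) .nil)) .nil)) .nil)) .leaf) (nat_lit 13103425129978) (.br (nat_lit 1) (.cons (.br (nat_lit 2) (.cons (.rel (nat_lit 152043777)) .nil)) .nil)) (.node .leaf (nat_lit 13103426734086) (.br (nat_lit 4) (.cons (.br (nat_lit 5) (.cons (.rel (nat_lit 10737680388)) .nil)) .nil)) .leaf)) (nat_lit 13103426734090) (.br (nat_lit 1) (.cons (.br (nat_lit 5) (.cons (.rel (nat_lit 4311747072)) .nil)) .nil)) (.node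 (.node .leaf (nat_lit 13103426734890) (.br (nat_lit 1) (.cons (.br (nat_lit 5) (.cons (.rel (nat_lit 8623490304)) .nil)) .nil)) .leaf) (nat_lit 13103426735486) (.br (nat_lit 0) (.cons (.br (nat_lit 5) (.cons (.rel (nat_lit 8598405120)) .nil)) .nil)) .leaf)) (nat_lit 13103426735610) (.br (nat_lit 1) (.cons (.br (nat_lit 3) (.cons (.rel (nat_lit 286265352)) .nil)) .nil)) (.node (.node (.node .leaf (nat_lit 13103426786065) (.br (nat_lit 0) (.cons (.br (nat_lit 6) (.cons (.rel (nat_lit 17188274241)) .nil)) .nil)) .leaf) (nat_lit 13103426944506) (.br (nat_lit 3) (.cons (.br (nat_lit 5) (.cons (.rel (nat_lit 8859419136)) .nil)) .nil)) (.node .leaf (nat_lit 13103426970475) (.br (nat_lit 3) (.cons (.br (nat_lit 4) (.cons (.rel (nat_lit 1342178325)) (.cons (.rel (nat_lit 1342247184)) .nil))) .nil)) .leaf)) (nat_lit 13103427689354) (.br (nat_lit 0) (.cons (.br (nat_lit 5) (.cons (.rel (nat_lit 8598405120)) .nil)) .nil)) (.node (.node .leaf (nat_lit 13103427740554) (.br (nat_lit 0) (.cons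 (.br (nat_lit 3) (.cons (.rel (nat_lit 272631936)) .nil)) .nil)) .leaf) (nat_lit 13103427759365) (.br (nat_lit 0) (.cons (.br (nat_lit 4) (.cons (.rel (nat_lit 1077936666)) .nil)) .nil)) .leaf))) (nat_lit 13106193369838) (.br (nat_lit 0) (.cons (.br (nat_lit 4) (.cons (.rel (nat_lit 2155873536)) .nil)) .nil)) (.node (.node (.node (.node .leaf (nat_lit 13186106424826) (.br (nat_lit 0) (.cons (.br (nat_lit 4) (.cons (.rel (nat_lit 1077956625)) .nil)) .nil)) .leaf) (nat_lit 13186703034673) (.br (nat_lit 2) (.cons (.br (nat_lit 3) (.cons (.rel (nat_lit 671089665)) (.cons (.rel (nat_lit 335568897)) .nil))) .nil)) (.node .leaf (nat_lit 13186703052810) (.br (nat_lit 6) (.cons (.br (nat_lit 5) (.cons (.rel (nat_lit 25769935872)) (.cons (.rel (nat_lit 25769836548)) (.cons (.rel (nat_lit 21474838080)) .nil)))) .nil)) .leaf)) (nat_lit 13186703095818) (.br (nat_lit 0) (.cons (.br (nat_lit 2) (.cons (.rel (nat_lit 71311368)) .nil)) .nil)) (.node (.node .leaf (nat_lit 13186703395577) (.br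 (nat_lit 0) (.cons (.br (nat_lit 2) (.cons (.rel (nat_lit 71567424)) .nil)) .nil)) .leaf) (nat_lit 13186704590858) (.br (nat_lit 4) (.cons (.br (nat_lit 5) (.cons (.rel (nat_lit 9663677736)) .nil)) .nil)) .leaf)) (nat_lit 13188822795015) (.br (nat_lit 0) (.cons (.br (nat_lit 2) (.cons (.rel (nat_lit 72892416)) .nil)) .nil)) (.node (.node (.node .leaf (nat_lit 13188824333818) (.br (nat_lit 2) (.cons (.br (nat_lit 3) (.cons (.rel (nat_lit 671089665)) .nil)) .nil)) .leaf) (nat_lit 13189353835251) (.br (nat_lit 1) (.cons (.br (nat_lit 0) (.cons (.rel (nat_lit 41943108)) (.cons (.rel (nat_lit 21299217)) .nil))) .nil)) .leaf) (nat_lit 13189354461491) (.br (nat_lit 0) (.cons (.br (nat_lit 1) (.cons (.rel (nat_lit 21234948)) .nil)) .nil)) (.node (.node .leaf (nat_lit 13189355752361) (.br (nat_lit 0) (.cons (.br (nat_lit 4) (.cons (.rel (nat_lit 1082130528)) .nil)) .nil)) .leaf) (nat_lit 13189355752954) (.br (nat_lit 1) (.cons (.br (nat_lit 4) (.cons (.rel (nat_lit 1090519080)) .nil))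 .nil)) .leaf))))))

/-- refutations 9 -/
def e9 : EX := (.node (.node (.node (.node (.node (.node (.node .leaf (nat_lit 13197527471585) (.br (nat_lit 0) (.cons (.br (nat_lit 1) (.cons (.rel (nat_lit 21250050)) .nil)) .nil)) .leaf) (nat_lit 13197962183456) (.br (nat_lit 1) (.cons (.br (nat_lit 3) (.cons (.rel (nat_lit 285229185)) .nil)) .nil)) .leaf) (nat_lit 13198049251338) (.br (nat_lit 0) (.cons (.br (nat_lit 1) (.cons (.rel (nat_lit 22036992)) .nil)) .nil)) (.node (.node .leaf (nat_lit 13198050233247) (.br (nat_lit 0) (.cons (.br (nat_lit 1) (.cons (.rel (nat_lit 41943108)) .nil)) .nil)) .leaf) (nat_lit 13199906704165) (.br (nat_lit 0) (.cons (.br (nat_lit 2) (.cons (.rel (nat_lit 71304708)) .nil)) .nil)) .leaf)) (nat_lit 13199909333002) (.br (nat_lit 0) (.cons (.br (nat_lit 2) (.cons (.rel (nat_lit 75497538)) .nil)) .nil)) (.node (.node (.node .leaf (nat_lit 13199909333919) (.br (nat_lit 0) (.cons (.br (nat_lit 1) (.cons (.rel (nat_lit 21234948)) .nil)) .nil)) .leaf) (nat_lit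 13200685782497) (.br (nat_lit 0) (.cons (.br (nat_lit 1) (.cons (.rel (nat_lit 21250050)) .nil)) .nil)) .leaf) (nat_lit 13200685782522) (.br (nat_lit 0) (.cons (.br (nat_lit 2) (.cons (.rel (nat_lit 75497538)) .nil)) .nil)) (.node (.node .leaf (nat_lit 13314398619828) (.br (nat_lit 0) (.cons (.br (nat_lit 3) (.cons (.rel (nat_lit 273678345)) .nil)) .nil)) .leaf) (nat_lit 13314398620453) (.br (nat_lit 5) (.cons (.br (nat_lit 3) (.cons (.rel (nat_lit 4563435540)) (.cons (.rel (nat_lit 4563404292)) .nil))) .nil)) .leaf))) (nat_lit 13314398744586) (.br (nat_lit 0) (.cons (.br (nat_lit 1) (.cons (.rel (nat_lit 22089984)) .nil)) .nil)) (.node (.node (.node (.node .leaf (nat_lit 13314399131899) (.br (nat_lit 6) (.cons (.br (nat_lit 0) (.cons (.rel (nat_lit 17184198672)) (.cons (.rel (nat_lit 17184198672)) (.cons (.rel (nat_lit 17188274241)) .nil)))) .nil)) .leaf) (nat_lit 13314399133153) (.br (nat_lit 4) (.cons (.br (nat_lit 6) (.cons (.rel (nat_lit 35433743424)) .nil)) .nil)) .leaf)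 (nat_lit 13314399153678) (.br (nat_lit 0) (.cons (.br (nat_lit 1) (.cons (.rel (nat_lit 25166097)) (.cons (.rel (nat_lit 21234948)) .nil))) .nil)) (.node (.node .leaf (nat_lit 13314399182904) (.br (nat_lit 0) (.cons (.br (nat_lit 5) (.cons (.rel (nat_lit 4299162900)) .nil)) .nil)) .leaf) (nat_lit 13314399184254) (.br (nat_lit 0) (.cons (.br (nat_lit 5) (.cons (.rel (nat_lit 4299227169)) (.cons (.rel (nat_lit 4299235584)) (.cons (.rel (nat_lit 4299162900)) .nil)))) (.cons (.br (nat_lit 4) (.cons (.rel (nat_lit 1077940488)) (.cons (.rel (nat_lit 1077938688)) .nil))) .nil))) .leaf)) (nat_lit 13314399184906) (.br (nat_lit 6) (.cons (.br (nat_lit 0) (.cons (.rel (nat_lit 17184064545)) (.cons (.rel (nat_lit 17184068100)) .nil))) .nil)) (.node (.node (.node .leaf (nat_lit 13314399244298) (.br (nat_lit 2) (.cons (.br (nat_lit 5) (.cons (.rel (nat_lit 4362602496)) .nil)) .nil)) .leaf) (nat_lit 13314400156433) (.br (nat_lit 4) (.cons (.br (nat_lit 5) (.cons (.rel (nat_lit 9663693825))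 .nil)) .nil)) .leaf) (nat_lit 13314400176878) (.br (nat_lit 5) (.cons (.br (nat_lit 0) (.cons (.rel (nat_lit 4299235584)) (.cons (.rel (nat_lit 4299235584)) .nil))) .nil)) (.node .leaf (nat_lit 13314400176939) (.br (nat_lit 0) (.cons (.br (nat_lit 3) (.cons (.rel (nat_lit 272631936)) .nil)) .nil)) .leaf)))) (nat_lit 13314400177003) (.br (nat_lit 0) (.cons (.br (nat_lit 3) (.cons (.rel (nat_lit 272631936)) .nil)) .nil)) (.node (.node (.node (.node (.node .leaf (nat_lit 13314400177678) (.br (nat_lit 0) (.cons (.br (nat_lit 5) (.cons (.rel (nat_lit 4299162900)) .nil)) .nil)) .leaf) (nat_lit 13314400208906) (.br (nat_lit 6) (.cons (.br (nat_lit 5) (.cons (.rel (nat_lit 38654709780)) (.cons (.rel (nat_lit 21474844740)) (.cons (.rel (nat_lit 21476147205)) .nil)))) .nil)) .leaf) (nat_lit 13314400210302) (.br (nat_lit 0) (.cons (.br (nat_lit 2) (.cons (.rel (nat_lit 71335956)) .nil)) .nil)) (.node (.node .leaf (nat_lit 13314400215050) (.br (nat_lit 5) (.cons (.br (nat_lit 3) (.cons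 (.rel (nat_lit 9126809604)) (.cons (.rel (nat_lit 9126809604)) (.cons (.rel (nat_lit 4833935616)) .nil)))) (.cons (.br (nat_lit 3) (.cons (.rel (nat_lit 4563435540)) (.cons (.rel (nat_lit 4563419394)) (.cons (.rel (nat_lit 4833935616)) .nil)))) .nil))) .leaf) (nat_lit 13314400215820) (.br (nat_lit 5) (.cons (.br (nat_lit 1) (.cons (.rel (nat_lit 4311814176)) (.cons (.rel (nat_lit 4311777285)) (.cons (.rel (nat_lit 4328522049)) (.cons (.rel (nat_lit 4311814176)) .nil))))) (.cons (.br (nat_lit 1) (.cons (.rel (nat_lit 4330622976)) (.cons (.rel (nat_lit 4311747072)) (.cons (.rel (nat_lit 4313382912)) (.cons (.rel (nat_lit 4311778320)) .nil))))) (.cons (.br (nat_lit 0) (.cons (.rel (nat_lit 8598405120)) (.cons (.rel (nat_lit 8598405120)) (.cons (.rel (nat_lit 4299325440)) (.cons (.rel (nat_lit 4299325440)) (.cons (.rel (nat_lit 4299180036)) .nil)))))) .nil)))) .leaf)) (nat_lit 13314400226837) (.br (nat_lit 0) (.cons (.br (nat_lit 2) (.cons (.rel (nat_lit 71304708)) .nil)) .nil))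 (.node (.node (.node .leaf (nat_lit 13314400228078) (.br (nat_lit 6) (.cons (.br (nat_lit 1) (.cons (.rel (nat_lit 17213425728)) (.cons (.rel (nat_lit 17196736512)) .nil))) .nil)) .leaf) (nat_lit 13314400228085) (.br (nat_lit 0) (.cons (.br (nat_lit 3) (.cons (.rel (nat_lit 272631936)) .nil)) .nil)) .leaf) (nat_lit 13314400228114) (.br (nat_lit 0) (.cons (.br (nat_lit 6) (.cons (.rel (nat_lit 17184149505)) (.cons (.rel (nat_lit 17184068100)) .nil))) (.cons (.br (nat_lit 1) (.cons (.rel (nat_lit 21299217)) (.cons (.rel (nat_lit 21299217)) .nil))) .nil))) (.node (.node .leaf (nat_lit 13314400228253) (.br (nat_lit 0) (.cons (.br (nat_lit 5) (.cons (.rel (nat_lit 4299180036)) .nil)) .nil)) .leaf) (nat_lit 13314400276505) (.br (nat_lit 5) (.cons (.br (nat_lit 6) (.cons (.rel (nat_lit 25769869569)) .nil)) .nil)) .leaf))) (nat_lit 13314400277240) (.br (nat_lit 0) (.cons (.br (nat_lit 3) (.cons (.rel (nat_lit 272631936)) .nil)) .nil)) (.node (.node (.node (.node .leaf (nat_lit 13314400277265)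 (.br (nat_lit 0) (.cons (.br (nat_lit 2) (.cons (.rel (nat_lit 72892416)) (.cons (.rel (nat_lit 71305746)) .nil))) (.cons (.br (nat_lit 2) (.cons (.rel (nat_lit 71311368)) (.cons (.rel (nat_lit 71311368)) .nil))) .nil))) .leaf) (nat_lit 13314400277985) (.br (nat_lit 5) (.cons (.br (nat_lit 0) (.cons (.rel (nat_lit 4299180036)) (.cons (.rel (nat_lit 4299162900)) .nil))) .nil)) .leaf) (nat_lit 13314400421894) (.br (nat_lit 6) (.cons (.br (nat_lit 0) (.cons (.rel (nat_lit 17184064545)) (.cons (.rel (nat_lit 34368128004)) .nil))) .nil)) (.node (.node .leaf (nat_lit 13314400434483) (.br (nat_lit 4) (.cons (.br (nat_lit 6) (.cons (.rel (nat_lit 18254660736)) (.cons (.rel (nat_lit 35433611280)) .nil))) .nil)) .leaf) (nat_lit 13314400435063) (.br (nat_lit 4) (.cons (.br (nat_lit 3) (.cons (.rel (nat_lit 1342177290)) (.cons (.rel (nat_lit 1342178325)) (.cons (.rel (nat_lit 2684355600)) (.cons (.rel (nat_lit 1611923472)) (.cons (.rel (nat_lit 1611141120)) (.cons (.rel (nat_lit 1342178325))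 .nil))))))) (.cons (.br (nat_lit 6) (.cons (.rel (nat_lit 18255708180)) (.cons (.rel (nat_lit 18254168064)) .nil))) .nil))) .leaf)) (nat_lit 13314400460825) (.br (nat_lit 0) (.cons (.br (nat_lit 6) (.cons (.rel (nat_lit 17184068100)) .nil)) .nil)) (.node (.node (.node .leaf (nat_lit 13314400461561) (.br (nat_lit 0) (.cons (.br (nat_lit 5) (.cons (.rel (nat_lit 4299325440)) .nil)) .nil)) .leaf) (nat_lit 13314400461611) (.br (nat_lit 0) (.cons (.br (nat_lit 1) (.cons (.rel (nat_lit 22022160)) .nil)) .nil)) .leaf) (nat_lit 13314400461675) (.br (nat_lit 1) (.cons (.br (nat_lit 5) (.cons (.rel (nat_lit 4311777285)) .nil)) .nil)) (.node .leaf (nat_lit 13314400536586) (.br (nat_lit 0) (.cons (.br (nat_lit 3) (.cons (.rel (nat_lit 273679380)) .nil)) .nil)) .leaf))))) (nat_lit 13314400536703) (.br (nat_lit 2) (.cons (.br (nat_lit 3) (.cons (.rel (nat_lit 403177536)) .nil)) .nil)) (.node (.node (.node (.node (.node (.node .leaf (nat_lit 13314400536883) (.br (nat_lit 1) (.cons (.br (nat_lit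 2) (.cons (.rel (nat_lit 167772165)) (.cons (.rel (nat_lit 84213840)) .nil))) .nil)) .leaf) (nat_lit 13314400537356) (.br (nat_lit 0) (.cons (.br (nat_lit 5) (.cons (.rel (nat_lit 8598405120)) (.cons (.rel (nat_lit 4299178002)) .nil))) .nil)) .leaf) (nat_lit 13314400537488) (.br (nat_lit 5) (.cons (.br (nat_lit 3) (.cons (.rel (nat_lit 4563407130)) (.cons (.rel (nat_lit 4563423264)) (.cons (.rel (nat_lit 4563410952)) .nil)))) (.cons (.br (nat_lit 3) (.cons (.rel (nat_lit 8860991745)) (.cons (.rel (nat_lit 4563423264)) (.cons (.rel (nat_lit 9126809604)) .nil)))) .nil))) (.node (.node .leaf (nat_lit 13314400538081) (.br (nat_lit 0) (.cons (.br (nat_lit 6) (.cons (.rel (nat_lit 17184063510)) .nil)) .nil)) .leaf) (nat_lit 13314401179658) (.br (nat_lit 0) (.cons (.br (nat_lit 6) (.cons (.rel (nat_lit 17184068100)) .nil)) .nil)) .leaf)) (nat_lit 13314401179704) (.br (nat_lit 0) (.cons (.br (nat_lit 5) (.cons (.rel (nat_lit 8598405120)) .nil)) .nil)) (.node (.node (.node .leaf (nat_lit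 13314401180554) (.br (nat_lit 0) (.cons (.br (nat_lit 3) (.cons (.rel (nat_lit 272908305)) .nil)) .nil)) .leaf) (nat_lit 13314401180899) (.br (nat_lit 1) (.cons (.br (nat_lit 6) (.cons (.rel (nat_lit 17196736512)) (.cons (.rel (nat_lit 17196647682)) .nil))) (.cons (.br (nat_lit 6) (.cons (.rel (nat_lit 17196647682)) (.cons (.rel (nat_lit 17196650517)) .nil))) .nil))) .leaf) (nat_lit 13314401230904) (.br (nat_lit 1) (.cons (.br (nat_lit 5) (.cons (.rel (nat_lit 4311761184)) .nil)) .nil)) (.node (.node .leaf (nat_lit 13314401231754) (.br (nat_lit 3) (.cons (.br (nat_lit 6) (.cons (.rel (nat_lit 17448304902)) .nil)) .nil)) .leaf) (nat_lit 13314401232099) (.br (nat_lit 2) (.cons (.br (nat_lit 5) (.cons (.rel (nat_lit 8724415488)) (.cons (.rel (nat_lit 4362141792)) .nil))) (.cons (.br (nat_lit 1) (.cons (.rel (nat_lit 83888160)) (.cons (.rel (nat_lit 167772165)) (.cons (.rel (nat_lit 83920128)) .nil)))) .nil))) .leaf))) (nat_lit 13314401252114) (.br (nat_lit 0) (.cons (.br (nat_lit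 6) (.cons (.rel (nat_lit 17184068100)) .nil)) .nil)) (.node (.node (.node (.node .leaf (nat_lit 13314401436903) (.br (nat_lit 0) (.cons (.br (nat_lit 1) (.cons (.rel (nat_lit 21250050)) .nil)) .nil)) .leaf) (nat_lit 13314401711590) (.br (nat_lit 0) (.cons (.br (nat_lit 6) (.cons (.rel (nat_lit 34368128004)) .nil)) .nil)) .leaf) (nat_lit 13314401803745) (.br (nat_lit 3) (.cons (.br (nat_lit 5) (.cons (.rel (nat_lit 4563410952)) .nil)) .nil)) (.node (.node .leaf (nat_lit 13314446314283) (.br (nat_lit 0) (.cons (.br (nat_lit 2) (.cons (.rel (nat_lit 142610436)) .nil)) .nil)) .leaf) (nat_lit 13314446347646) (.br (nat_lit 0) (.cons (.br (nat_lit 1) (.cons (.rel (nat_lit 37818372)) .nil)) .nil)) .leaf)) (nat_lit 13314952269081) (.br (nat_lit 0) (.cons (.br (nat_lit 1) (.cons (.rel (nat_lit 21299217)) .nil)) .nil)) (.node (.node (.node .leaf (nat_lit 13314952269306) (.br (nat_lit 1) (.cons (.br (nat_lit 6) (.cons (.rel (nat_lit 34376516736)) .nil)) .nil)) .leaf) (nat_lit 13315495250546)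 (.br (nat_lit 0) (.cons (.br (nat_lit 2) (.cons (.rel (nat_lit 75497538)) .nil)) .nil)) .leaf) (nat_lit 13315495250832) (.br (nat_lit 2) (.cons (.br (nat_lit 3) (.cons (.rel (nat_lit 335577348)) .nil)) .nil)) (.node .leaf (nat_lit 13315496209764) (.br (nat_lit 0) (.cons (.br (nat_lit 1) (.cons (.rel (nat_lit 22089984)) .nil)) .nil)) .leaf)))) (nat_lit 13317566876398) (.br (nat_lit 1) (.cons (.br (nat_lit 3) (.cons (.rel (nat_lit 285495312)) .nil)) .nil)) (.node (.node (.node (.node (.node .leaf (nat_lit 13317797847915) (.br (nat_lit 2) (.cons (.br (nat_lit 0) (.cons (.rel (nat_lit 71304708)) (.cons (.rel (nat_lit 138412161)) .nil))) .nil)) .leaf) (nat_lit 13317799189240) (.br (nat_lit 1) (.cons (.br (nat_lit 3) (.cons (.rel (nat_lit 285229185)) .nil)) .nil)) .leaf) (nat_lit 13318278352153) (.br (nat_lit 0) (.cons (.br (nat_lit 5) (.cons (.rel (nat_lit 4299227169)) .nil)) .nil)) (.node (.node .leaf (nat_lit 13318278476081) (.br (nat_lit 0) (.cons (.br (nat_lit 1) (.cons (.rel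 (nat_lit 38010960)) .nil)) .nil)) .leaf) (nat_lit 13318278864229) (.br (nat_lit 0) (.cons (.br (nat_lit 3) (.cons (.rel (nat_lit 545260608)) .nil)) .nil)) .leaf)) (nat_lit 13318278916106) (.br (nat_lit 0) (.cons (.br (nat_lit 3) (.cons (.rel (nat_lit 272892168)) .nil)) .nil)) (.node (.node (.node .leaf (nat_lit 13318279908128) (.br (nat_lit 3) (.cons (.br (nat_lit 4) (.cons (.rel (nat_lit 1342177290)) .nil)) .nil)) .leaf) (nat_lit 13318279908253) (.br (nat_lit 5) (.cons (.br (nat_lit 0) (.cons (.rel (nat_lit 4299178002)) (.cons (.rel (nat_lit 4299228168)) .nil))) .nil)) .leaf) (nat_lit 13318279940106) (.br (nat_lit 6) (.cons (.br (nat_lit 0) (.cons (.rel (nat_lit 17184064545)) (.cons (.rel (nat_lit 17184145680)) .nil))) .nil)) (.node .leaf (nat_lit 13318279957265) (.br (nat_lit 0) (.cons (.br (nat_lit 1) (.cons (.rel (nat_lit 21299217)) (.cons (.rel (nat_lit 41943108)) .nil))) .nil)) .leaf))) (nat_lit 13318280008440) (.br (nat_lit 0) (.cons (.br (nat_lit 1) (.cons (.rel (nat_lit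 21234948)) .nil)) .nil)) (.node (.node (.node (.node .leaf (nat_lit 13318280267956) (.br (nat_lit 5) (.cons (.br (nat_lit 6) (.cons (.rel (nat_lit 21474844740)) .nil)) .nil)) .leaf) (nat_lit 13318280269281) (.br (nat_lit 2) (.cons (.br (nat_lit 3) (.cons (.rel (nat_lit 335545380)) .nil)) .nil)) .leaf) (nat_lit 13318280269306) (.br (nat_lit 3) (.cons (.br (nat_lit 5) (.cons (.rel (nat_lit 4563410952)) .nil)) .nil)) (.node (.node .leaf (nat_lit 13318280980490) (.br (nat_lit 0) (.cons (.br (nat_lit 1) (.cons (.rel (nat_lit 21299217)) .nil)) .nil)) .leaf) (nat_lit 13318280983453) (.br (nat_lit 0) (.cons (.br (nat_lit 5) (.cons (.rel (nat_lit 4299161865)) .nil)) .nil)) .leaf)) (nat_lit 13319643315063) (.br (nat_lit 0) (.cons (.br (nat_lit 1) (.cons (.rel (nat_lit 21299217)) .nil)) .nil)) (.node (.node (.node .leaf (nat_lit 13319644375691) (.br (nat_lit 0) (.cons (.br (nat_lit 2) (.cons (.rel (nat_lit 142610436)) .nil)) .nil)) .leaf) (nat_lit 13320732643338) (.br (nat_lit 0) (.cons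 (.br (nat_lit 1) (.cons (.rel (nat_lit 22089984)) .nil)) .nil)) .leaf) (nat_lit 13412056205322) (.br (nat_lit 0) (.cons (.br (nat_lit 1) (.cons (.rel (nat_lit 22089984)) .nil)) .nil)) (.node .leaf (nat_lit 13412056256522) (.br (nat_lit 0) (.cons (.br (nat_lit 1) (.cons (.rel (nat_lit 20971656)) .nil)) .nil)) .leaf))))))

/-- refutations 10 -/
def e10 : EX := (.node (.node (.node (.node (.node .leaf (nat_lit 176011115253815) (.br (nat_lit 0) (.cons (.br (nat_lit 5) (.cons (.rel (nat_lit 4299161865)) (.cons (.rel (nat_lit 4299162900)) .nil))) .nil)) .leaf) (nat_lit 176011115284490) (.br (nat_lit 5) (.cons (.br (nat_lit 0) (.cons (.rel (nat_lit 4299162900)) (.cons (.rel (nat_lit 4299161865)) .nil))) .nil)) .leaf) (nat_lit 176011115347470) (.br (nat_lit 1) (.cons (.br (nat_lit 2) (.cons (.rel (nat_lit 167772165)) .nil)) .nil)) (.node .leaf (nat_lit 177276878148364) (.br (nat_lit 1) (.cons (.br (nat_lit 2) (.cons (.rel (nat_lit 167772165)) .nil)) .nil)) .leaf)) (nat_lit 182367603968010)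 (.br (nat_lit 2) (.cons (.br (nat_lit 4) (.cons (.rel (nat_lit 1142162436)) .nil)) .nil)) (.node (.node .leaf (nat_lit 182370833583615) (.br (nat_lit 1) (.cons (.br (nat_lit 4) (.cons (.rel (nat_lit 2164527360)) .nil)) .nil)) .leaf) (nat_lit 182370836705335) (.br (nat_lit 1) (.cons (.br (nat_lit 2) (.cons (.rel (nat_lit 83920128)) (.cons (.rel (nat_lit 83959809)) .nil))) .nil)) (.node .leaf (nat_lit 189024866191370) (.br (nat_lit 3) (.cons (.br (nat_lit 1) (.cons (.rel (nat_lit 285495312)) (.cons (.rel (nat_lit 553648161)) .nil))) .nil)) .leaf))) (nat_lit 189110704230455) (.br (nat_lit 0) (.cons (.br (nat_lit 1) (.cons (.rel (nat_lit 37756929)) .nil)) .nil)) (.node (.node (.node (.node .leaf (nat_lit 189110704231180) (.br (nat_lit 0) (.cons (.br (nat_lit 3) (.cons (.rel (nat_lit 276840453)) .nil)) .nil)) .leaf) (nat_lit 189110765507310) (.br (nat_lit 0) (.cons (.br (nat_lit 1) (.cons (.rel (nat_lit 41943108)) .nil)) .nil)) .leaf) (nat_lit 189110765508065) (.br (nat_lit 0) (.cons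 (.br (nat_lit 1) (.cons (.rel (nat_lit 21234948)) .nil)) .nil)) (.node .leaf (nat_lit 189110767145740) (.br (nat_lit 0) (.cons (.br (nat_lit 3) (.cons (.rel (nat_lit 276840453)) .nil)) .nil)) .leaf)) (nat_lit 189113807893985) (.br (nat_lit 1) (.cons (.br (nat_lit 0) (.cons (.rel (nat_lit 21239808)) (.cons (.rel (nat_lit 20971656)) .nil))) .nil)) (.node (.node .leaf (nat_lit 189113808016140) (.br (nat_lit 1) (.cons (.br (nat_lit 5) (.cons (.rel (nat_lit 4311778320)) .nil)) .nil)) .leaf) (nat_lit 189113932206830) (.br (nat_lit 0) (.cons (.br (nat_lit 2) (.cons (.rel (nat_lit 71304708)) .nil)) .nil)) (.node .leaf (nat_lit 189113935268590) (.br (nat_lit 0) (.cons (.br (nat_lit 1) (.cons (.rel (nat_lit 21234948)) .nil)) .nil)) .leaf))))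

/-- refutations 11 -/
def e11 : EX := (.node (.node (.node (.node (.node (.node .leaf (nat_lit 193989659611146) (.br (nat_lit 0) (.cons (.br (nat_lit 3) (.cons (.rel (nat_lit 273752064)) .nil)) .nil)) .leaf) (nat_lit 194587788333112) (.br (nat_lit 6) (.cons (.br (nat_lit 5) (.cons (.rel (nat_lit 38654722056)) (.cons (.rel (nat_lit 21474844740)) .nil))) .nil)) .leaf) (nat_lit 194587788333312) (.br (nat_lit 0) (.cons (.br (nat_lit 2) (.cons (.rel (nat_lit 71304708)) .nil)) .nil)) (.node .leaf (nat_lit 194587788338678) (.br (nat_lit 0) (.cons (.br (nat_lit 1) (.cons (.rel (nat_lit 25231365)) .nil)) .nil)) .leaf)) (nat_lit 194587788632074) (.br (nat_lit 4) (.cons (.br (nat_lit 6) (.cons (.rel (nat_lit 35433743424)) .nil)) .nil)) (.node (.node (.node .leaf (nat_lit 194587788898561) (.br (nat_lit 0) (.cons (.br (nat_lit 1) (.cons (.rel (nat_lit 38010960)) .nil)) .nil)) .leaf) (nat_lit 194587788931082) (.br (nat_lit 0) (.cons (.br (nat_lit 3) (.cons (.rel (nat_lit 272777352)) (.cons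 (.rel (nat_lit 273678345)) .nil))) .nil)) .leaf) (nat_lit 194587789848586) (.br (nat_lit 0) (.cons (.br (nat_lit 1) (.cons (.rel (nat_lit 22089984)) .nil)) .nil)) (.node .leaf (nat_lit 194587789849387) (.br (nat_lit 1) (.cons (.br (nat_lit 0) (.cons (.rel (nat_lit 41943108)) (.cons (.rel (nat_lit 21234948)) (.cons (.rel (nat_lit 20971656)) .nil)))) .nil)) .leaf))) (nat_lit 194587789921782) (.br (nat_lit 0) (.cons (.br (nat_lit 1) (.cons (.rel (nat_lit 25166097)) .nil)) .nil)) (.node (.node (.node (.node .leaf (nat_lit 194591148005386) (.br (nat_lit 1) (.cons (.br (nat_lit 4) (.cons (.rel (nat_lit 1090519080)) (.cons (.rel (nat_lit 1090521105)) .nil))) .nil)) .leaf) (nat_lit 194591563300891) (.br (nat_lit 3) (.cons (.br (nat_lit 5) (.cons (.rel (nat_lit 4563404292)) .nil)) .nil)) .leaf) (nat_lit 194591564845837) (.br (nat_lit 0) (.cons (.br (nat_lit 1) (.cons (.rel (nat_lit 41943108)) .nil)) .nil)) (.node .leaf (nat_lit 194591564981161) (.br (nat_lit 1) (.cons (.br (nat_lit 3)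 (.cons (.rel (nat_lit 285229185)) .nil)) .nil)) .leaf)) (nat_lit 194593165526527) (.br (nat_lit 2) (.cons (.br (nat_lit 3) (.cons (.rel (nat_lit 402919680)) .nil)) .nil)) (.node (.node .leaf (nat_lit 194593167069194) (.br (nat_lit 0) (.cons (.br (nat_lit 3) (.cons (.rel (nat_lit 541069569)) .nil)) .nil)) .leaf) (nat_lit 194593167069965) (.br (nat_lit 1) (.cons (.br (nat_lit 2) (.cons (.rel (nat_lit 83902992)) .nil)) .nil)) (.node .leaf (nat_lit 195020955172920) (.br (nat_lit 3) (.cons (.br (nat_lit 4) (.cons (.rel (nat_lit 2684354565)) .nil)) .nil)) .leaf)))) (nat_lit 195115549311003) (.br (nat_lit 5) (.cons (.br (nat_lit 1) (.cons (.rel (nat_lit 4311777285)) (.cons (.rel (nat_lit 4311765009)) .nil))) .nil)) (.node (.node (.node (.node (.node .leaf (nat_lit 195115549311786) (.br (nat_lit 0) (.cons (.br (nat_lit 1) (.cons (.rel (nat_lit 37765380)) .nil)) .nil)) .leaf) (nat_lit 195115549454523) (.br (nat_lit 1) (.cons (.br (nat_lit 5) (.cons (.rel (nat_lit 4312006728)) .nil))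 .nil)) .leaf) (nat_lit 195115549782026) (.br (nat_lit 1) (.cons (.br (nat_lit 3) (.cons (.rel (nat_lit 286263552)) .nil)) .nil)) (.node .leaf (nat_lit 195115552374794) (.br (nat_lit 3) (.cons (.br (nat_lit 5) (.cons (.rel (nat_lit 4563404292)) .nil)) .nil)) .leaf)) (nat_lit 195117152962047) (.br (nat_lit 0) (.cons (.br (nat_lit 1) (.cons (.rel (nat_lit 22021125)) .nil)) .nil)) (.node (.node (.node .leaf (nat_lit 195117153080077) (.br (nat_lit 1) (.cons (.br (nat_lit 3) (.cons (.rel (nat_lit 286326786)) (.cons (.rel (nat_lit 285278352)) .nil))) (.cons (.br (nat_lit 3) (.cons (.rel (nat_lit 285495312)) (.cons (.rel (nat_lit 285495312)) .nil))) .nil))) .leaf) (nat_lit 199101279465528) (.br (nat_lit 0) (.cons (.br (nat_lit 1) (.cons (.rel (nat_lit 22022160)) .nil)) .nil)) .leaf) (nat_lit 201343251890203) (.br (nat_lit 0) (.cons (.br (nat_lit 3) (.cons (.rel (nat_lit 545260608)) .nil)) .nil)) (.node .leaf (nat_lit 201343251890986) (.br (nat_lit 0) (.cons (.br (nat_lit 1) (.cons (.rel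 (nat_lit 37756929)) .nil)) .nil)) .leaf))) (nat_lit 201343253435149) (.br (nat_lit 0) (.cons (.br (nat_lit 1) (.cons (.rel (nat_lit 41943108)) .nil)) .nil)) (.node (.node (.node (.node .leaf (nat_lit 206708186042378) (.br (nat_lit 5) (.cons (.br (nat_lit 6) (.cons (.rel (nat_lit 21474838080)) (.cons (.rel (nat_lit 21474844740)) .nil))) (.cons (.br (nat_lit 6) (.cons (.rel (nat_lit 38654709780)) (.cons (.rel (nat_lit 21474838080)) .nil))) .nil))) .leaf) (nat_lit 206708187680824) (.br (nat_lit 0) (.cons (.br (nat_lit 1) (.cons (.rel (nat_lit 21239808)) .nil)) .nil)) .leaf) (nat_lit 206828445221645) (.br (nat_lit 0) (.cons (.br (nat_lit 1) (.cons (.rel (nat_lit 22089984)) .nil)) .nil)) (.node .leaf (nat_lit 206828446642987) (.br (nat_lit 1) (.cons (.br (nat_lit 6) (.cons (.rel (nat_lit 17196646692)) .nil)) .nil)) .leaf)) (nat_lit 206828446646328) (.br (nat_lit 1) (.cons (.br (nat_lit 3) (.cons (.rel (nat_lit 285507588)) (.cons (.rel (nat_lit 553648161)) .nil))) .nil)) (.node (.node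 .leaf (nat_lit 206828446647024) (.br (nat_lit 0) (.cons (.br (nat_lit 4) (.cons (.rel (nat_lit 1077938688)) .nil)) .nil)) .leaf) (nat_lit 206828446705720) (.br (nat_lit 1) (.cons (.br (nat_lit 3) (.cons (.rel (nat_lit 553746432)) .nil)) .nil)) (.node .leaf (nat_lit 206832221639437) (.br (nat_lit 1) (.cons (.br (nat_lit 3) (.cons (.rel (nat_lit 285278352)) .nil)) .nil)) .leaf)))))

/-- refutations 12 -/
def e12 : EX := (.node (.node (.node .leaf (nat_lit 457706180940402) (.br (nat_lit 0) (.cons (.br (nat_lit 1) (.cons (.rel (nat_lit 25169922)) .nil)) .nil)) .leaf) (nat_lit 457706182579602) (.br (nat_lit 0) (.cons (.br (nat_lit 1) (.cons (.rel (nat_lit 25166097)) .nil)) .nil)) .leaf) (nat_lit 457706288766458) (.br (nat_lit 0) (.cons (.br (nat_lit 2) (.cons (.rel (nat_lit 71311368)) .nil)) .nil)) (.node .leaf (nat_lit 470516968249371) (.br (nat_lit 0) (.cons (.br (nat_lit 1) (.cons (.rel (nat_lit 25231365)) .nil)) .nil)) .leaf))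

/-- refutations 13 -/
def e13 : EX := (.node (.node (.node (.node (.node .leaf (nat_lit 563486333931526) (.br (nat_lit 0) (.cons (.br (nat_lit 1) (.cons (.rel (nat_lit 22036992)) .nil)) .nil)) .leaf) (nat_lit 564298678543093) (.br (nat_lit 1) (.cons (.br (nat_lit 6) (.cons (.rel (nat_lit 17196713985)) .nil)) .nil)) .leaf) (nat_lit 564298679549962) (.br (nat_lit 1) (.cons (.br (nat_lit 2) (.cons (.rel (nat_lit 83887125)) .nil)) .nil)) (.node .leaf (nat_lit 564298679558904) (.br (nat_lit 0) (.cons (.br (nat_lit 1) (.cons (.rel (nat_lit 25166097)) .nil)) .nil)) .leaf)) (nat_lit 564298679607306) (.br (nat_lit 5) (.cons (.br (nat_lit 6) (.cons (.rel (nat_lit 21474844740)) .nil)) .nil)) (.node (.node .leaf (nat_lit 564298679649013) (.br (nat_lit 1) (.cons (.br (nat_lit 5) (.cons (.rel (nat_lit 8623490304)) (.cons (.rel (nat_lit 4311747072)) (.cons (.rel (nat_lit 4311748872)) (.cons (.rel (nat_lit 4311810306)) (.cons (.rel (nat_lit 4311753732)) .nil)))))) .nil)) .leaf) (nat_lit 564298679660554)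 (.br (nat_lit 0) (.cons (.br (nat_lit 1) (.cons (.rel (nat_lit 41943108)) (.cons (.rel (nat_lit 25183233)) .nil))) .nil)) (.node .leaf (nat_lit 564298681208842) (.br (nat_lit 6) (.cons (.br (nat_lit 2) (.cons (.rel (nat_lit 17246979168)) (.cons (.rel (nat_lit 34426856448)) .nil))) .nil)) .leaf))) (nat_lit 564298708910090) (.br (nat_lit 0) (.cons (.br (nat_lit 3) (.cons (.rel (nat_lit 541135872)) .nil)) .nil)) (.node (.node (.node (.node .leaf (nat_lit 564298708921081) (.br (nat_lit 0) (.cons (.br (nat_lit 1) (.cons (.rel (nat_lit 25183233)) .nil)) .nil)) .leaf) (nat_lit 564301877268490) (.br (nat_lit 1) (.cons (.br (nat_lit 2) (.cons (.br (nat_lit 4) (.cons (.rel (nat_lit 1207968000)) .nil)) .nil)) .nil)) .leaf) (nat_lit 564304475166730) (.br (nat_lit 1) (.cons (.br (nat_lit 4) (.cons (.rel (nat_lit 1092894720)) .nil)) .nil)) (.node .leaf (nat_lit 568533515776010) (.br (nat_lit 0) (.cons (.br (nat_lit 1) (.cons (.rel (nat_lit 37756929)) (.cons (.rel (nat_lit 41943108)) .nil)))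 .nil)) .leaf)) (nat_lit 568533515825182) (.br (nat_lit 3) (.cons (.br (nat_lit 0) (.cons (.rel (nat_lit 272908305)) (.cons (.rel (nat_lit 272634504)) .nil))) .nil)) (.node (.node .leaf (nat_lit 568533515826653) (.br (nat_lit 1) (.cons (.br (nat_lit 3) (.cons (.rel (nat_lit 285229185)) .nil)) .nil)) .leaf) (nat_lit 568533518436382) (.br (nat_lit 0) (.cons (.br (nat_lit 2) (.cons (.rel (nat_lit 71319810)) .nil)) .nil)) (.node .leaf (nat_lit 568533518656989) (.br (nat_lit 0) (.cons (.br (nat_lit 1) (.cons (.rel (nat_lit 25169922)) .nil)) .nil)) .leaf))))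

/-- refutations 14 -/
def e14 : EX := (.node (.node (.node .leaf (nat_lit 569480950379296) (.br (nat_lit 0) (.cons (.br (nat_lit 1) (.cons (.rel (nat_lit 21299217)) .nil)) .nil)) .leaf) (nat_lit 570941969018890) (.br (nat_lit 0) (.cons (.br (nat_lit 6) (.cons (.rel (nat_lit 17184065544)) .nil)) .nil)) (.node .leaf (nat_lit 573988124291082) (.br (nat_lit 0) (.cons (.br (nat_lit 1) (.cons (.rel (nat_lit 37753104)) .nil)) .nil)) .leaf)) (nat_lit 573988125868042) (.br (nat_lit 0) (.cons (.br (nat_lit 3) (.cons (.rel (nat_lit 272892168)) (.cons (.rel (nat_lit 272957472)) .nil))) (.cons (.br (nat_lit 3) (.cons (.rel (nat_lit 272957472)) (.cons (.rel (nat_lit 272631936)) .nil))) .nil))) (.node (.node .leaf (nat_lit 575895089770506) (.br (nat_lit 1) (.cons (.br (nat_lit 4) (.cons (.rel (nat_lit 1090543632)) .nil)) .nil)) .leaf) (nat_lit 575935142915350) (.br (nat_lit 0) (.cons (.br (nat_lit 1) (.cons (.rel (nat_lit 21299217)) .nil)) .nil)) .leaf))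

/-- refutations 15 -/
def e15 : EX := (.node (.node (.node .leaf (nat_lit 475075476244505) (.br (nat_lit 0) (.cons (.br (nat_lit 1) (.cons (.rel (nat_lit 20971656)) .nil)) .nil)) .leaf) (nat_lit 475075476244637) (.br (nat_lit 0) (.cons (.br (nat_lit 3) (.cons (.rel (nat_lit 272892168)) .nil)) .nil)) (.node .leaf (nat_lit 475076017309853) (.br (nat_lit 0) (.cons (.br (nat_lit 1) (.cons (.rel (nat_lit 37765380)) .nil)) .nil)) .leaf)) (nat_lit 475076017580189) (.br (nat_lit 1) (.cons (.br (nat_lit 2) (.cons (.rel (nat_lit 83888160)) .nil)) .nil)) (.node (.node .leaf (nat_lit 477196636913791) (.br (nat_lit 0) (.cons (.br (nat_lit 1) (.cons (.rel (nat_lit 20971656)) .nil)) .nil)) .leaf) (nat_lit 905027134251793) (.br (nat_lit 0) (.cons (.br (nat_lit 1) (.cons (.rel (nat_lit 41943108)) .nil)) .nil)) .leaf))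

/-- refutations 16 -/
def e16 : EX := (.node (.node (.node (.node (.node .leaf (nat_lit 2201170844420106) (.br (nat_lit 1) (.cons (.br (nat_lit 5) (.cons (.rel (nat_lit 4311810306)) .nil)) .nil)) .leaf) (nat_lit 2201170844420273) (.br (nat_lit 0) (.cons (.br (nat_lit 4) (.cons (.rel (nat_lit 1077940488)) (.cons (.rel (nat_lit 1077969936)) .nil))) .nil)) .leaf) (nat_lit 2201170845360305) (.br (nat_lit 4) (.cons (.br (nat_lit 6) (.cons (.rel (nat_lit 18254660736)) .nil)) .nil)) (.node (.node .leaf (nat_lit 2201170845360764) (.br (nat_lit 1) (.cons (.br (nat_lit 0) (.cons (.rel (nat_lit 22036992)) (.cons (.rel (nat_lit 25183233)) (.cons (.rel (nat_lit 41943108)) .nil)))) .nil)) .leaf) (nat_lit 2201170845361658) (.br (nat_lit 0) (.cons (.br (nat_lit 1) (.cons (.rel (nat_lit 21250050)) .nil)) .nil)) .leaf)) (nat_lit 2201170845696800) (.br (nat_lit 0) (.cons (.br (nat_lit 1) (.cons (.rel (nat_lit 22347840)) .nil)) .nil)) (.node (.node (.node .leaf (nat_lit 2201170846642353) (.br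 (nat_lit 0) (.cons (.br (nat_lit 1) (.cons (.rel (nat_lit 22022160)) .nil)) .nil)) .leaf) (nat_lit 2201170847141345) (.br (nat_lit 1) (.cons (.br (nat_lit 2) (.cons (.rel (nat_lit 83906817)) (.cons (.rel (nat_lit 84164673)) .nil))) .nil)) .leaf) (nat_lit 2201170847191050) (.br (nat_lit 0) (.cons (.br (nat_lit 1) (.cons (.rel (nat_lit 22022160)) .nil)) .nil)) (.node .leaf (nat_lit 2201170847252535) (.br (nat_lit 0) (.cons (.br (nat_lit 5) (.cons (.rel (nat_lit 4299167760)) .nil)) .nil)) .leaf))) (nat_lit 2201171264890890) (.br (nat_lit 0) (.cons (.br (nat_lit 1) (.cons (.rel (nat_lit 22021125)) .nil)) .nil)) (.node (.node (.node (.node .leaf (nat_lit 2201171265303414) (.br (nat_lit 0) (.cons (.br (nat_lit 2) (.cons (.rel (nat_lit 71311368)) .nil)) .nil)) .leaf) (nat_lit 2201171265334053) (.br (nat_lit 0) (.cons (.br (nat_lit 1) (.cons (.rel (nat_lit 22021125)) .nil)) .nil)) .leaf) (nat_lit 2201171266125081) (.br (nat_lit 0) (.cons (.br (nat_lit 4) (.cons (.rel (nat_lit 1077938688))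 .nil)) .nil)) (.node .leaf (nat_lit 2201171266622970) (.br (nat_lit 0) (.cons (.br (nat_lit 1) (.cons (.rel (nat_lit 41943108)) .nil)) .nil)) .leaf)) (nat_lit 2201231422711965) (.br (nat_lit 0) (.cons (.br (nat_lit 5) (.cons (.rel (nat_lit 4299161865)) .nil)) .nil)) (.node (.node (.node .leaf (nat_lit 2204610070088465) (.br (nat_lit 2) (.cons (.br (nat_lit 3) (.cons (.rel (nat_lit 603984192)) .nil)) .nil)) .leaf) (nat_lit 2204610488494090) (.br (nat_lit 3) (.cons (.br (nat_lit 0) (.cons (.rel (nat_lit 545260608)) (.cons (.rel (nat_lit 272897028)) .nil))) .nil)) .leaf) (nat_lit 2205468328254195) (.br (nat_lit 0) (.cons (.br (nat_lit 3) (.cons (.rel (nat_lit 272892168)) .nil)) .nil)) (.node .leaf (nat_lit 2205468328550425) (.br (nat_lit 0) (.cons (.br (nat_lit 1) (.cons (.rel (nat_lit 22089984)) .nil)) .nil)) .leaf))))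

/-- refutations 17 -/
def e17 : EX := (.node (.node (.node .leaf (nat_lit 2206586173450250) (.br (nat_lit 1) (.cons (.br (nat_lit 2) (.cons (.rel (nat_lit 83955984)) .nil)) .nil)) .leaf) (nat_lit 2209761935279365) (.br (nat_lit 0) (.cons (.br (nat_lit 1) (.cons (.rel (nat_lit 21239808)) .nil)) .nil)) .leaf) (nat_lit 2212128779439465) (.br (nat_lit 0) (.cons (.br (nat_lit 1) (.cons (.rel (nat_lit 25166097)) .nil)) .nil)) (.node .leaf (nat_lit 2212432697460913) (.br (nat_lit 1) (.cons (.br (nat_lit 2) (.cons (.rel (nat_lit 83920128)) (.cons (.rel (nat_lit 83959809)) .nil))) .nil)) .leaf))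

/-- refutations 18 -/
def e18 : EX := (.node (.node (.node (.node .leaf (nat_lit 915025816556280) (.br (nat_lit 0) (.cons (.br (nat_lit 3) (.cons (.rel (nat_lit 276824352)) .nil)) .nil)) .leaf) (nat_lit 915103016915724) (.br (nat_lit 0) (.cons (.br (nat_lit 2) (.cons (.rel (nat_lit 138412161)) .nil)) .nil)) (.node .leaf (nat_lit 915103016916474) (.br (nat_lit 0) (.cons (.br (nat_lit 2) (.cons (.rel (nat_lit 138412161)) .nil)) .nil)) .leaf)) (nat_lit 915103018452474) (.br (nat_lit 0) (.cons (.br (nat_lit 3) (.cons (.rel (nat_lit 276828177)) .nil)) .nil)) (.node (.node .leaf (nat_lit 915103019947514) (.br (nat_lit 3) (.cons (.br (nat_lit 5) (.cons (.rel (nat_lit 4563472386)) .nil)) .nil)) .leaf) (nat_lit 915867630146296) (.br (nat_lit 2) (.cons (.br (nat_lit 5) (.cons (.rel (nat_lit 4363141248)) .nil)) .nil)) (.node .leaf (nat_lit 915867631602425) (.br (nat_lit 0) (.cons (.br (nat_lit 2) (.cons (.rel (nat_lit 142611474)) .nil)) .nil)) .leaf))) (nat_lit 916099457717036) (.br (nat_lit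 0) (.cons (.br (nat_lit 3) (.cons (.rel (nat_lit 272892168)) .nil)) .nil)) (.node (.node (.node .leaf (nat_lit 916099558380280) (.br (nat_lit 0) (.cons (.br (nat_lit 2) (.cons (.rel (nat_lit 138412161)) .nil)) .nil)) .leaf) (nat_lit 917217235539207) (.br (nat_lit 4) (.cons (.br (nat_lit 0) (.cons (.rel (nat_lit 2155873536)) (.cons (.rel (nat_lit 2155873536)) .nil))) .nil)) (.node .leaf (nat_lit 917217237304208) (.br (nat_lit 3) (.cons (.br (nat_lit 5) (.cons (.rel (nat_lit 4563667008)) .nil)) .nil)) .leaf)) (nat_lit 917217238021651) (.br (nat_lit 0) (.cons (.br (nat_lit 2) (.cons (.rel (nat_lit 71323680)) .nil)) .nil)) (.node (.node .leaf (nat_lit 922622302421803) (.br (nat_lit 0) (.cons (.br (nat_lit 1) (.cons (.rel (nat_lit 25166097)) .nil)) .nil)) .leaf) (nat_lit 922828662188837) (.br (nat_lit 0) (.cons (.br (nat_lit 1) (.cons (.rel (nat_lit 21239808)) .nil)) .nil)) (.node .leaf (nat_lit 922828662408080) (.br (nat_lit 2) (.cons (.br (nat_lit 4) (.cons (.rel (nat_lit 1207959585))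 .nil)) .nil)) .leaf))))

/-- refutations 19 -/
def e19 : EX := (.node (.node (.node (.node (.node .leaf (nat_lit 2287293531411962) (.br (nat_lit 3) (.cons (.br (nat_lit 6) (.cons (.rel (nat_lit 17448323073)) .nil)) .nil)) .leaf) (nat_lit 2287294073806111) (.br (nat_lit 2) (.cons (.br (nat_lit 3) (.cons (.rel (nat_lit 335545380)) .nil)) .nil)) .leaf) (nat_lit 2287294076405112) (.br (nat_lit 0) (.cons (.br (nat_lit 1) (.cons (.rel (nat_lit 25166097)) .nil)) .nil)) (.node .leaf (nat_lit 2289175378533663) (.br (nat_lit 3) (.cons (.br (nat_lit 0) (.cons (.rel (nat_lit 545260608)) (.cons (.rel (nat_lit 273678345)) .nil))) .nil)) .leaf)) (nat_lit 2289178501961210) (.br (nat_lit 2) (.cons (.br (nat_lit 3) (.cons (.rel (nat_lit 671089665)) .nil)) .nil)) (.node (.node (.node .leaf (nat_lit 2289180386532639) (.br (nat_lit 1) (.cons (.br (nat_lit 3) (.cons (.rel (nat_lit 286326786)) .nil)) .nil)) .leaf) (nat_lit 2289180387547763) (.br (nat_lit 4) (.cons (.br (nat_lit 6) (.cons (.rel (nat_lit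 18253611078)) .nil)) .nil)) .leaf) (nat_lit 2289180389398010) (.br (nat_lit 2) (.cons (.br (nat_lit 3) (.cons (.rel (nat_lit 671089665)) .nil)) .nil)) (.node .leaf (nat_lit 2289621511409146) (.br (nat_lit 0) (.cons (.br (nat_lit 1) (.cons (.rel (nat_lit 37756929)) .nil)) .nil)) .leaf))) (nat_lit 2292782939751185) (.br (nat_lit 2) (.cons (.br (nat_lit 3) (.cons (.rel (nat_lit 335546370)) .nil)) .nil)) (.node (.node (.node (.node .leaf (nat_lit 2293684439881738) (.br (nat_lit 0) (.cons (.br (nat_lit 1) (.cons (.rel (nat_lit 25232400)) .nil)) .nil)) .leaf) (nat_lit 2293684439975946) (.br (nat_lit 0) (.cons (.br (nat_lit 2) (.cons (.rel (nat_lit 71304708)) .nil)) .nil)) .leaf) (nat_lit 2293684442748410) (.br (nat_lit 0) (.cons (.br (nat_lit 3) (.cons (.rel (nat_lit 545260608)) (.cons (.br (nat_lit 2) (.cons (.rel (nat_lit 671089665)) (.cons (.rel (nat_lit 71372802)) (.cons (.rel (nat_lit 71304708)) .nil)))) .nil))) (.cons (.br (nat_lit 3) (.cons (.rel (nat_lit 272631936)) (.cons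 (.rel (nat_lit 276840453)) .nil))) .nil))) (.node .leaf (nat_lit 2293690104792440) (.br (nat_lit 0) (.cons (.br (nat_lit 1) (.cons (.rel (nat_lit 22347840)) .nil)) .nil)) .leaf)) (nat_lit 2293690105058040) (.br (nat_lit 0) (.cons (.br (nat_lit 1) (.cons (.rel (nat_lit 25232400)) .nil)) .nil)) (.node (.node (.node .leaf (nat_lit 2293690105058810) (.br (nat_lit 6) (.cons (.br (nat_lit 0) (.cons (.rel (nat_lit 17184063510)) (.cons (.rel (nat_lit 17184068100)) (.cons (.rel (nat_lit 17188323408)) .nil)))) (.cons (.br (nat_lit 0) (.cons (.rel (nat_lit 34368128004)) (.cons (.rel (nat_lit 17184096513)) (.cons (.rel (nat_lit 17188323408)) .nil)))) .nil))) .leaf) (nat_lit 2293690881005050) (.br (nat_lit 2) (.cons (.br (nat_lit 3) (.cons (.rel (nat_lit 335546370)) .nil)) .nil)) .leaf) (nat_lit 2294586385613585) (.br (nat_lit 0) (.cons (.br (nat_lit 4) (.cons (.rel (nat_lit 1079005248)) .nil)) .nil)) (.node .leaf (nat_lit 2300299129919668) (.br (nat_lit 0) (.cons (.br (nat_lit 2) (.cons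 (.rel (nat_lit 71372802)) .nil)) .nil)) .leaf))))

/-- refutations 20 -/
def e20 : EX := (.node (.node .leaf (nat_lit 2305652970234036) (.br (nat_lit 2) (.cons (.br (nat_lit 3) (.cons (.rel (nat_lit 671089665)) .nil)) .nil)) .leaf) (nat_lit 2305655409537156) (.br (nat_lit 1) (.cons (.br (nat_lit 2) (.cons (.rel (nat_lit 83968260)) .nil)) .nil)) .leaf)

/-- refutations 21 -/
def e21 : EX := (.node (.node (.node (.node (.node (.node .leaf (nat_lit 2744475512264731) (.br (nat_lit 1) (.cons (.br (nat_lit 4) (.cons (.rel (nat_lit 2181038100)) .nil)) .nil)) .leaf) (nat_lit 2744475512469631) (.br (nat_lit 0) (.cons (.br (nat_lit 6) (.cons (.rel (nat_lit 17184210948)) .nil)) .nil)) (.node .leaf (nat_lit 2744475512532499) (.br (nat_lit 5) (.cons (.br (nat_lit 2) (.cons (.rel (nat_lit 8657047569)) (.cons (.br (nat_lit 4) (.cons (.rel (nat_lit 5368774737)) (.cons (.rel (nat_lit 1141440528)) (.cons (.rel (nat_lit 5369823360)) .nil)))) .nil))) .nil)) .leaf)) (nat_lit 2744475513492261) (.br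 (nat_lit 0) (.cons (.br (nat_lit 2) (.cons (.rel (nat_lit 71304708)) .nil)) .nil)) (.node (.node .leaf (nat_lit 2745455318723871) (.br (nat_lit 0) (.cons (.br (nat_lit 1) (.cons (.rel (nat_lit 22036992)) .nil)) .nil)) .leaf) (nat_lit 2745457411618826) (.br (nat_lit 6) (.cons (.br (nat_lit 0) (.cons (.rel (nat_lit 17184330816)) (.cons (.rel (nat_lit 34364195856)) .nil))) .nil)) (.node .leaf (nat_lit 2745457411618943) (.br (nat_lit 0) (.cons (.br (nat_lit 2) (.cons (.rel (nat_lit 139460640)) .nil)) .nil)) .leaf))) (nat_lit 2745457413227122) (.br (nat_lit 1) (.cons (.br (nat_lit 2) (.cons (.rel (nat_lit 83886090)) .nil)) .nil)) (.node (.node (.node .leaf (nat_lit 2745885571973307) (.br (nat_lit 2) (.cons (.br (nat_lit 3) (.cons (.rel (nat_lit 335546370)) .nil)) .nil)) .leaf) (nat_lit 2746572010219677) (.br (nat_lit 0) (.cons (.br (nat_lit 2) (.cons (.rel (nat_lit 71311368)) (.cons (.rel (nat_lit 71304708)) .nil))) .nil)) (.node .leaf (nat_lit 2746572010487186) (.br (nat_lit 0)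 (.cons (.br (nat_lit 1) (.cons (.rel (nat_lit 21234948)) .nil)) .nil)) .leaf)) (nat_lit 2746580046235658) (.br (nat_lit 0) (.cons (.br (nat_lit 6) (.cons (.rel (nat_lit 17184210948)) .nil)) .nil)) (.node (.node .leaf (nat_lit 2746580046235805) (.br (nat_lit 0) (.cons (.br (nat_lit 2) (.cons (.rel (nat_lit 71311368)) .nil)) .nil)) .leaf) (nat_lit 2746580046297143) (.br (nat_lit 2) (.cons (.br (nat_lit 3) (.cons (.rel (nat_lit 335545380)) .nil)) .nil)) (.node .leaf (nat_lit 2746580046297344) (.br (nat_lit 1) (.cons (.br (nat_lit 3) (.cons (.rel (nat_lit 285495312)) .nil)) .nil)) .leaf)))) (nat_lit 2746580046299146) (.br (nat_lit 5) (.cons (.br (nat_lit 6) (.cons (.rel (nat_lit 21474869328)) .nil)) .nil)) (.node (.node (.node (.node .leaf (nat_lit 2746580046299163) (.br (nat_lit 1) (.cons (.br (nat_lit 0) (.cons (.rel (nat_lit 21250050)) (.cons (.rel (nat_lit 21250050)) .nil))) .nil)) .leaf) (nat_lit 2746580046444554) (.br (nat_lit 6) (.cons (.br (nat_lit 3) (.cons (.rel (nat_lit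 17448308772)) (.cons (.br (nat_lit 1) (.cons (.rel (nat_lit 553746432)) (.cons (.rel (nat_lit 553746432)) .nil))) .nil))) .nil)) (.node .leaf (nat_lit 2746580046444671) (.br (nat_lit 0) (.cons (.br (nat_lit 3) (.cons (.br (nat_lit 2) (.cons (.rel (nat_lit 335568897)) (.cons (.rel (nat_lit 71335956)) (.cons (.rel (nat_lit 142610436)) .nil)))) .nil)) .nil)) .leaf)) (nat_lit 2746580046444721) (.br (nat_lit 0) (.cons (.br (nat_lit 1) (.cons (.rel (nat_lit 21239808)) .nil)) .nil)) (.node (.node .leaf (nat_lit 2746580046444800) (.br (nat_lit 6) (.cons (.br (nat_lit 0) (.cons (.rel (nat_lit 17184210948)) (.cons (.rel (nat_lit 17184068100)) (.cons (.rel (nat_lit 17184145680)) .nil)))) .nil)) .leaf) (nat_lit 2746580046450698) (.br (nat_lit 5) (.cons (.br (nat_lit 6) (.cons (.rel (nat_lit 21474844740)) .nil)) .nil)) (.node .leaf (nat_lit 2746580046450875) (.br (nat_lit 6) (.cons (.br (nat_lit 1) (.cons (.rel (nat_lit 17196650517)) (.cons (.rel (nat_lit 17196650517)) .nil))) .nil)) .leaf)))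 (nat_lit 2746580046506039) (.br (nat_lit 0) (.cons (.br (nat_lit 1) (.cons (.rel (nat_lit 22021125)) (.cons (.rel (nat_lit 21299217)) (.cons (.rel (nat_lit 21234948)) .nil)))) .nil)) (.node (.node (.node .leaf (nat_lit 2746580046506111) (.br (nat_lit 1) (.cons (.br (nat_lit 4) (.cons (.rel (nat_lit 1090519080)) .nil)) .nil)) .leaf) (nat_lit 2746580046506141) (.br (nat_lit 3) (.cons (.br (nat_lit 2) (.cons (.rel (nat_lit 403702032)) (.cons (.rel (nat_lit 335577348)) (.cons (.rel (nat_lit 335568897)) .nil)))) .nil)) (.node .leaf (nat_lit 2746580046506241) (.br (nat_lit 3) (.cons (.br (nat_lit 4) (.cons (.rel (nat_lit 1342178325)) .nil)) .nil)) .leaf)) (nat_lit 2746580046506769) (.br (nat_lit 2) (.cons (.br (nat_lit 3) (.cons (.rel (nat_lit 335577348)) (.cons (.rel (nat_lit 671089665)) .nil))) .nil)) (.node (.node .leaf (nat_lit 2746580046506911) (.br (nat_lit 3) (.cons (.br (nat_lit 5) (.cons (.rel (nat_lit 4563423264)) .nil)) .nil)) .leaf) (nat_lit 2746580046507539) (.br (nat_lit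 3) (.cons (.br (nat_lit 5) (.cons (.rel (nat_lit 4563435540)) .nil)) .nil)) (.node .leaf (nat_lit 2746580046565532) (.br (nat_lit 0) (.cons (.br (nat_lit 5) (.cons (.rel (nat_lit 4299166725)) .nil)) .nil)) .leaf))))) (nat_lit 2746580046802971) (.br (nat_lit 1) (.cons (.br (nat_lit 4) (.cons (.rel (nat_lit 1090519080)) .nil)) .nil)) (.node (.node (.node (.node (.node .leaf (nat_lit 2746580047515905) (.br (nat_lit 3) (.cons (.br (nat_lit 4) (.cons (.rel (nat_lit 1342178325)) .nil)) .nil)) .leaf) (nat_lit 2746580047720458) (.br (nat_lit 1) (.cons (.br (nat_lit 3) (.cons (.rel (nat_lit 286265352)) .nil)) .nil)) (.node .leaf (nat_lit 2746580047721198) (.br (nat_lit 2) (.cons (.br (nat_lit 5) (.cons (.rel (nat_lit 8724415488)) .nil)) .nil)) .leaf)) (nat_lit 2746580047732923) (.br (nat_lit 1) (.cons (.br (nat_lit 2) (.cons (.rel (nat_lit 83887125)) .nil)) .nil)) (.node (.node .leaf (nat_lit 2746580048052481) (.br (nat_lit 3) (.cons (.br (nat_lit 4) (.cons (.rel (nat_lit 2684355600))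 .nil)) .nil)) .leaf) (nat_lit 2746580048857098) (.br (nat_lit 3) (.cons (.br (nat_lit 6) (.cons (.rel (nat_lit 17448308772)) .nil)) .nil)) (.node .leaf (nat_lit 2746580048857344) (.br (nat_lit 1) (.cons (.br (nat_lit 4) (.cons (.rel (nat_lit 1090555908)) .nil)) .nil)) .leaf))) (nat_lit 2746580049267438) (.br (nat_lit 0) (.cons (.br (nat_lit 5) (.cons (.rel (nat_lit 4300226625)) .nil)) .nil)) (.node (.node (.node .leaf (nat_lit 2746580049379338) (.br (nat_lit 4) (.cons (.br (nat_lit 6) (.cons (.rel (nat_lit 19327418400)) .nil)) .nil)) .leaf) (nat_lit 2746580260415645) (.br (nat_lit 0) (.cons (.br (nat_lit 3) (.cons (.rel (nat_lit 272908305)) .nil)) .nil)) (.node .leaf (nat_lit 2746580260416913) (.br (nat_lit 2) (.cons (.br (nat_lit 6) (.cons (.rel (nat_lit 17314093056)) .nil)) .nil)) .leaf)) (nat_lit 2746580600092682) (.br (nat_lit 6) (.cons (.br (nat_lit 5) (.cons (.br (nat_lit 3) (.cons (.rel (nat_lit 4563435540)) (.cons (.rel (nat_lit 17448387072)) (.cons (.rel (nat_lit 9126809604))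 .nil)))) (.cons (.rel (nat_lit 25769836548)) .nil))) .nil)) (.node (.node .leaf (nat_lit 2746580600092799) (.br (nat_lit 0) (.cons (.br (nat_lit 1) (.cons (.rel (nat_lit 25166097)) .nil)) .nil)) .leaf) (nat_lit 2746580600092928) (.br (nat_lit 6) (.cons (.br (nat_lit 0) (.cons (.rel (nat_lit 17184330816)) (.cons (.rel (nat_lit 17184068100)) .nil))) .nil)) (.node .leaf (nat_lit 2746580600154269) (.br (nat_lit 0) (.cons (.br (nat_lit 1) (.cons (.rel (nat_lit 25231365)) (.cons (.br (nat_lit 3) (.cons (.rel (nat_lit 541065744)) (.cons (.rel (nat_lit 285507588)) .nil))) .nil))) (.cons (.br (nat_lit 1) (.cons (.rel (nat_lit 21299217)) (.cons (.rel (nat_lit 20971656)) .nil))) .nil))) .leaf)))) (nat_lit 2746581140949002) (.br (nat_lit 2) (.cons (.br (nat_lit 3) (.cons (.rel (nat_lit 335630340)) .nil)) .nil)) (.node (.node (.node (.node .leaf (nat_lit 2746581141010487) (.br (nat_lit 1) (.cons (.br (nat_lit 0) (.cons (.rel (nat_lit 21234948)) (.cons (.rel (nat_lit 20971656)) (.cons (.rel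 (nat_lit 21234948)) .nil)))) .nil)) .leaf) (nat_lit 2746581141158015) (.br (nat_lit 0) (.cons (.br (nat_lit 3) (.cons (.rel (nat_lit 276914184)) .nil)) .nil)) (.node .leaf (nat_lit 2746581141158144) (.br (nat_lit 6) (.cons (.br (nat_lit 0) (.cons (.rel (nat_lit 17184068100)) (.cons (.rel (nat_lit 17184198672)) .nil))) .nil)) .leaf)) (nat_lit 2746582693111965) (.br (nat_lit 0) (.cons (.br (nat_lit 1) (.cons (.rel (nat_lit 41943108)) (.cons (.rel (nat_lit 21299217)) .nil))) .nil)) (.node (.node .leaf (nat_lit 2746582693112593) (.br (nat_lit 2) (.cons (.br (nat_lit 4) (.cons (.rel (nat_lit 2214592530)) (.cons (.rel (nat_lit 1208057856)) .nil))) .nil)) .leaf) (nat_lit 2746582693113233) (.br (nat_lit 0) (.cons (.br (nat_lit 3) (.cons (.rel (nat_lit 276840453)) .nil)) .nil)) (.node .leaf (nat_lit 2746582694073577) (.br (nat_lit 0) (.cons (.br (nat_lit 2) (.cons (.rel (nat_lit 71311368)) .nil)) .nil)) .leaf))) (nat_lit 2746583214419978) (.br (nat_lit 3) (.cons (.br (nat_lit 6) (.cons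 (.rel (nat_lit 17448387072)) .nil)) .nil)) (.node (.node (.node .leaf (nat_lit 2746583214420718) (.br (nat_lit 6) (.cons (.br (nat_lit 1) (.cons (.rel (nat_lit 17196647682)) (.cons (.rel (nat_lit 17196662793)) .nil))) .nil)) .leaf) (nat_lit 2746586572781578) (.br (nat_lit 2) (.cons (.br (nat_lit 4) (.cons (.rel (nat_lit 1140883524)) (.cons (.rel (nat_lit 1140871248)) (.cons (.rel (nat_lit 2214594564)) .nil)))) .nil)) (.node .leaf (nat_lit 2746586572787899) (.br (nat_lit 1) (.cons (.br (nat_lit 3) (.cons (.rel (nat_lit 286263552)) .nil)) .nil)) .leaf)) (nat_lit 2746586572789137) (.br (nat_lit 0) (.cons (.br (nat_lit 3) (.cons (.rel (nat_lit 272957472)) .nil)) .nil)) (.node (.node .leaf (nat_lit 2746586572844433) (.br (nat_lit 4) (.cons (.br (nat_lit 6) (.cons (.rel (nat_lit 18254168064)) .nil)) .nil)) .leaf) (nat_lit 2746586575409162) (.br (nat_lit 6) (.cons (.br (nat_lit 5) (.cons (.rel (nat_lit 21477015552)) (.cons (.rel (nat_lit 21474838080)) (.cons (.rel (nat_lit 38654706945))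 .nil)))) .nil)) .leaf)))))

/-- refutations 22 -/
def e22 : EX := (.node (.node (.node (.node .leaf (nat_lit 2746801218866537) (.br (nat_lit 1) (.cons (.br (nat_lit 2) (.cons (.rel (nat_lit 83888160)) .nil)) .nil)) .leaf) (nat_lit 2746804039117585) (.br (nat_lit 1) (.cons (.br (nat_lit 3) (.cons (.rel (nat_lit 285278352)) .nil)) .nil)) .leaf) (nat_lit 2746831922851177) (.br (nat_lit 2) (.cons (.br (nat_lit 3) (.cons (.rel (nat_lit 335546370)) .nil)) .nil)) (.node (.node .leaf (nat_lit 2746966593501194) (.br (nat_lit 1) (.cons (.br (nat_lit 3) (.cons (.rel (nat_lit 285507588)) .nil)) .nil)) .leaf) (nat_lit 2746966593501311) (.br (nat_lit 0) (.cons (.br (nat_lit 1) (.cons (.rel (nat_lit 20971656)) .nil)) .nil)) .leaf)) (nat_lit 2749749733434870) (.br (nat_lit 0) (.cons (.br (nat_lit 2) (.cons (.rel (nat_lit 71309568)) .nil)) .nil)) (.node (.node (.node .leaf (nat_lit 2750875016054794) (.br (nat_lit 0) (.cons (.br (nat_lit 1) (.cons (.rel (nat_lit 20971656)) .nil)) .nil)) .leaf)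 (nat_lit 2752206667573273) (.br (nat_lit 0) (.cons (.br (nat_lit 3) (.cons (.rel (nat_lit 272897028)) .nil)) .nil)) .leaf) (nat_lit 2752206667574033) (.br (nat_lit 0) (.cons (.br (nat_lit 2) (.cons (.rel (nat_lit 72892416)) .nil)) .nil)) (.node .leaf (nat_lit 2752206667574673) (.br (nat_lit 0) (.cons (.br (nat_lit 2) (.cons (.rel (nat_lit 71304708)) .nil)) .nil)) .leaf)))

/-- refutations 25 -/
def e25 : EX := (.node (.node (.node (.node .leaf (nat_lit 3185262272495626) (.br (nat_lit 0) (.cons (.br (nat_lit 1) (.cons (.rel (nat_lit 21239808)) .nil)) .nil)) .leaf) (nat_lit 3185262272501915) (.br (nat_lit 1) (.cons (.br (nat_lit 3) (.cons (.rel (nat_lit 301994496)) .nil)) .nil)) .leaf) (nat_lit 3185474269458614) (.br (nat_lit 0) (.cons (.br (nat_lit 1) (.cons (.rel (nat_lit 21239808)) .nil)) .nil)) (.node .leaf (nat_lit 3185474270420470) (.br (nat_lit 0) (.cons (.br (nat_lit 2) (.cons (.rel (nat_lit 71567424)) .nil)) .nil)) .leaf)) (nat_lit 3185477021882378) (.br (nat_lit 2) (.cons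 (.br (nat_lit 4) (.cons (.rel (nat_lit 1207960584)) .nil)) .nil)) (.node (.node .leaf (nat_lit 3186600101784437) (.br (nat_lit 0) (.cons (.br (nat_lit 1) (.cons (.rel (nat_lit 37756929)) .nil)) .nil)) .leaf) (nat_lit 3189769237011239) (.br (nat_lit 1) (.cons (.br (nat_lit 2) (.cons (.rel (nat_lit 167773200)) .nil)) .nil)) (.node .leaf (nat_lit 3189772327596042) (.br (nat_lit 1) (.cons (.br (nat_lit 4) (.cons (.rel (nat_lit 1090519080)) .nil)) .nil)) .leaf)))

/-- refutations 26 -/
def e26 : EX := (.node (.node (.node (.node .leaf (nat_lit 3255631326760970) (.br (nat_lit 6) (.cons (.br (nat_lit 1) (.cons (.rel (nat_lit 17196683520)) (.cons (.br (nat_lit 0) (.cons (.rel (nat_lit 17184072960)) (.cons (.rel (nat_lit 17184072960)) (.cons (.rel (nat_lit 25169922)) (.cons (.rel (nat_lit 17184072960)) (.cons (.rel (nat_lit 17184072960)) .nil)))))) (.cons (.rel (nat_lit 17196683520)) (.cons (.rel (nat_lit 17196646692)) .nil))))) (.cons (.br (nat_lit 5) (.cons (.rel (nat_lit 38654706945))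 (.cons (.rel (nat_lit 38654706945)) (.cons (.rel (nat_lit 21474838080)) .nil)))) .nil))) .leaf) (nat_lit 3255633529131033) (.br (nat_lit 0) (.cons (.br (nat_lit 1) (.cons (.rel (nat_lit 21234948)) .nil)) .nil)) .leaf) (nat_lit 3256757350947003) (.br (nat_lit 1) (.cons (.br (nat_lit 5) (.cons (.rel (nat_lit 4312813632)) .nil)) .nil)) (.node .leaf (nat_lit 3257005318198633) (.br (nat_lit 0) (.cons (.br (nat_lit 5) (.cons (.rel (nat_lit 4299162900)) .nil)) .nil)) .leaf)) (nat_lit 3257005716656314) (.br (nat_lit 0) (.cons (.br (nat_lit 1) (.cons (.rel (nat_lit 22022160)) .nil)) .nil)) (.node (.node .leaf (nat_lit 3257005850876091) (.br (nat_lit 1) (.cons (.br (nat_lit 3) (.cons (.rel (nat_lit 301991940)) .nil)) .nil)) .leaf) (nat_lit 3259926797938698) (.br (nat_lit 0) (.cons (.br (nat_lit 4) (.cons (.rel (nat_lit 2155873536)) .nil)) .nil)) (.node .leaf (nat_lit 3260020783337482) (.br (nat_lit 2) (.cons (.br (nat_lit 3) (.cons (.rel (nat_lit 335544345)) .nil)) .nil)) .leaf)))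

/-- refutations 27 -/
def e27 : EX := (.node (.node .leaf (nat_lit 3262562884243642) (.br (nat_lit 1) (.cons (.br (nat_lit 3) (.cons (.rel (nat_lit 553746432)) .nil)) .nil)) .leaf) (nat_lit 3266370821542074) (.br (nat_lit 0) (.cons (.br (nat_lit 2) (.cons (.rel (nat_lit 71386113)) .nil)) .nil)) (.node .leaf (nat_lit 3267746489978890) (.br (nat_lit 0) (.cons (.br (nat_lit 1) (.cons (.rel (nat_lit 21239808)) .nil)) .nil)) .leaf))

/-- refutations 28 -/
def e28 : EX := (.node (.node (.node (.node (.node .leaf (nat_lit 3201872349468049) (.br (nat_lit 0) (.cons (.br (nat_lit 6) (.cons (.rel (nat_lit 17185113168)) .nil)) .nil)) .leaf) (nat_lit 3201872350698277) (.br (nat_lit 0) (.cons (.br (nat_lit 2) (.cons (.rel (nat_lit 71319810)) .nil)) .nil)) (.node .leaf (nat_lit 3201878116901044) (.br (nat_lit 3) (.cons (.br (nat_lit 4) (.cons (.rel (nat_lit 2684355600)) .nil)) .nil)) .leaf)) (nat_lit 3204201422543735) (.br (nat_lit 2) (.cons (.br (nat_lit 3) (.cons (.rel (nat_lit 335546370))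 .nil)) .nil)) (.node (.node .leaf (nat_lit 3204201422858891) (.br (nat_lit 0) (.cons (.br (nat_lit 1) (.cons (.rel (nat_lit 25231365)) .nil)) .nil)) .leaf) (nat_lit 3204201422858995) (.br (nat_lit 0) (.cons (.br (nat_lit 3) (.cons (.rel (nat_lit 272631936)) .nil)) .nil)) (.node .leaf (nat_lit 3204201422859127) (.br (nat_lit 0) (.cons (.br (nat_lit 4) (.cons (.rel (nat_lit 1077952800)) .nil)) .nil)) .leaf))) (nat_lit 3204201423078313) (.br (nat_lit 0) (.cons (.br (nat_lit 6) (.cons (.rel (nat_lit 17184149505)) .nil)) .nil)) (.node (.node (.node .leaf (nat_lit 3204201423129356) (.br (nat_lit 0) (.cons (.br (nat_lit 6) (.cons (.rel (nat_lit 17184096513)) .nil)) .nil)) .leaf) (nat_lit 3204201423129463) (.br (nat_lit 0) (.cons (.br (nat_lit 2) (.cons (.rel (nat_lit 71309568)) .nil)) .nil)) (.node .leaf (nat_lit 3204203606462474) (.br (nat_lit 1) (.cons (.br (nat_lit 3) (.cons (.rel (nat_lit 285229185)) .nil)) .nil)) .leaf)) (nat_lit 3204235345110379) (.br (nat_lit 0) (.cons (.br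 (nat_lit 1) (.cons (.rel (nat_lit 37753104)) .nil)) .nil)) (.node (.node .leaf (nat_lit 3204415622038440) (.br (nat_lit 4) (.cons (.br (nat_lit 6) (.cons (.rel (nat_lit 18254168064)) .nil)) .nil)) .leaf) (nat_lit 3204415729542382) (.br (nat_lit 0) (.cons (.br (nat_lit 2) (.cons (.rel (nat_lit 142610436)) .nil)) .nil)) (.node .leaf (nat_lit 3204416274708615) (.br (nat_lit 0) (.cons (.br (nat_lit 1) (.cons (.rel (nat_lit 25169922)) .nil)) .nil)) .leaf)))) (nat_lit 3204416274801902) (.br (nat_lit 0) (.cons (.br (nat_lit 1) (.cons (.rel (nat_lit 21045378)) (.cons (.rel (nat_lit 22021125)) .nil))) .nil)) (.node (.node (.node (.node .leaf (nat_lit 3204416277017838) (.br (nat_lit 0) (.cons (.br (nat_lit 1) (.cons (.rel (nat_lit 25166097)) (.cons (.rel (nat_lit 20971656)) .nil))) (.cons (.br (nat_lit 1) (.cons (.rel (nat_lit 21045378)) (.cons (.rel (nat_lit 22022160)) .nil))) .nil))) .leaf) (nat_lit 3204416277069038) (.br (nat_lit 0) (.cons (.br (nat_lit 1) (.cons (.rel (nat_lit 21239808))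 .nil)) .nil)) (.node .leaf (nat_lit 3204420738967708) (.br (nat_lit 0) (.cons (.br (nat_lit 1) (.cons (.rel (nat_lit 41943108)) .nil)) .nil)) .leaf)) (nat_lit 3207242363488433) (.br (nat_lit 3) (.cons (.br (nat_lit 5) (.cons (.rel (nat_lit 4563419394)) .nil)) .nil)) (.node (.node .leaf (nat_lit 3209595460307225) (.br (nat_lit 1) (.cons (.br (nat_lit 2) (.cons (.rel (nat_lit 100671552)) .nil)) .nil)) .leaf) (nat_lit 3209603397004019) (.br (nat_lit 0) (.cons (.br (nat_lit 3) (.cons (.rel (nat_lit 541065744)) .nil)) .nil)) (.node .leaf (nat_lit 3209732246022899) (.br (nat_lit 0) (.cons (.br (nat_lit 2) (.cons (.rel (nat_lit 71304708)) .nil)) .nil)) .leaf))) (nat_lit 3209732246190835) (.br (nat_lit 0) (.cons (.br (nat_lit 2) (.cons (.rel (nat_lit 77594640)) .nil)) .nil)) (.node (.node (.node .leaf (nat_lit 3213005458264216) (.br (nat_lit 0) (.cons (.br (nat_lit 5) (.cons (.rel (nat_lit 4299166725)) .nil)) .nil)) .leaf) (nat_lit 3214726276687204) (.br (nat_lit 0) (.cons (.br (nat_lit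 1) (.cons (.rel (nat_lit 21234948)) .nil)) .nil)) (.node .leaf (nat_lit 3214877720363160) (.br (nat_lit 0) (.cons (.br (nat_lit 1) (.cons (.rel (nat_lit 41943108)) .nil)) .nil)) .leaf)) (nat_lit 3215092260086565) (.br (nat_lit 0) (.cons (.br (nat_lit 1) (.cons (.rel (nat_lit 21234948)) .nil)) .nil)) (.node (.node .leaf (nat_lit 3215092260242160) (.br (nat_lit 0) (.cons (.br (nat_lit 2) (.cons (.rel (nat_lit 71309568)) .nil)) .nil)) .leaf) (nat_lit 3215092260621225) (.br (nat_lit 1) (.cons (.br (nat_lit 3) (.cons (.rel (nat_lit 553648161)) .nil)) .nil)) (.node .leaf (nat_lit 3215092261877262) (.br (nat_lit 1) (.cons (.br (nat_lit 2) (.cons (.rel (nat_lit 83955984)) .nil)) .nil)) .leaf)))))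

/-- refutations 29 -/
def e29 : EX := (.node (.node (.node (.node (.node (.node (.node .leaf (nat_lit 4486479887740938) (.br (nat_lit 6) (.cons (.br (nat_lit 2) (.cons (.rel (nat_lit 34494283776)) (.cons (.rel (nat_lit 17247011136)) (.cons (.rel (nat_lit 17314093056)) (.cons (.rel (nat_lit 17314088196)) .nil))))) (.cons (.br (nat_lit 4) (.cons (.rel (nat_lit 18254168064)) (.cons (.rel (nat_lit 18254168064)) (.cons (.rel (nat_lit 35433480708)) (.cons (.rel (nat_lit 18254168064)) .nil))))) .nil))) .leaf) (nat_lit 4486479887779850) (.br (nat_lit 6) (.cons (.br (nat_lit 3) (.cons (.rel (nat_lit 17448321048)) (.cons (.rel (nat_lit 17448321048)) (.cons (.rel (nat_lit 17448697920)) .nil)))) .nil)) .leaf) (nat_lit 4486479887779865) (.br (nat_lit 3) (.cons (.br (nat_lit 1) (.cons (.rel (nat_lit 301994496)) (.cons (.rel (nat_lit 553648161)) (.cons (.rel (nat_lit 553649160)) .nil)))) (.cons (.br (nat_lit 5) (.cons (.rel (nat_lit 4563435540)) (.cons (.rel (nat_lit 4563423264)) .nil)))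 .nil))) (.node (.node .leaf (nat_lit 4486479887779895) (.br (nat_lit 1) (.cons (.br (nat_lit 2) (.cons (.rel (nat_lit 167772165)) .nil)) .nil)) .leaf) (nat_lit 4486479887792138) (.br (nat_lit 3) (.cons (.br (nat_lit 6) (.cons (.br (nat_lit 4) (.cons (.rel (nat_lit 1611141120)) (.cons (.rel (nat_lit 1611141120)) (.cons (.rel (nat_lit 35433480708)) (.cons (.rel (nat_lit 35433480708)) .nil))))) (.cons (.rel (nat_lit 34896629760)) .nil))) .nil)) .leaf)) (nat_lit 4486479887792159) (.br (nat_lit 3) (.cons (.br (nat_lit 0) (.cons (.rel (nat_lit 272908305)) (.cons (.rel (nat_lit 273956928)) .nil))) .nil)) (.node (.node (.node .leaf (nat_lit 4486479887841290) (.br (nat_lit 3) (.cons (.br (nat_lit 5) (.cons (.rel (nat_lit 4563435540)) (.cons (.br (nat_lit 6) (.cons (.rel (nat_lit 22011707424)) (.cons (.rel (nat_lit 17448321048)) (.cons (.rel (nat_lit 17448308772)) .nil)))) (.cons (.rel (nat_lit 9126809604)) .nil)))) (.cons (.br (nat_lit 5) (.cons (.rel (nat_lit 4831854660)) (.cons (.rel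 (nat_lit 4563409152)) (.cons (.rel (nat_lit 4563404292)) .nil)))) (.cons (.br (nat_lit 5) (.cons (.rel (nat_lit 9126809604)) (.cons (.rel (nat_lit 4563404292)) (.cons (.rel (nat_lit 4563404292)) .nil)))) .nil)))) .leaf) (nat_lit 4486479887841305) (.br (nat_lit 5) (.cons (.br (nat_lit 6) (.cons (.rel (nat_lit 25769836548)) .nil)) .nil)) .leaf) (nat_lit 4486479887841335) (.br (nat_lit 1) (.cons (.br (nat_lit 3) (.cons (.rel (nat_lit 285507588)) (.cons (.rel (nat_lit 553648161)) .nil))) .nil)) (.node .leaf (nat_lit 4486479887841437) (.br (nat_lit 0) (.cons (.br (nat_lit 1) (.cons (.rel (nat_lit 21239808)) (.cons (.rel (nat_lit 20971656)) .nil))) (.cons (.br (nat_lit 4) (.cons (.rel (nat_lit 1077938688)) (.cons (.rel (nat_lit 1077940488)) .nil))) .nil))) .leaf))) (nat_lit 4486479888046235) (.br (nat_lit 3) (.cons (.br (nat_lit 5) (.cons (.rel (nat_lit 4563404292)) (.cons (.rel (nat_lit 4563435540)) (.cons (.rel (nat_lit 4563404292)) (.cons (.rel (nat_lit 4563409152)) .nil))))) (.cons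 (.br (nat_lit 6) (.cons (.rel (nat_lit 34896629760)) (.cons (.rel (nat_lit 17448305937)) (.cons (.rel (nat_lit 17448309762)) .nil)))) .nil))) (.node (.node (.node (.node .leaf (nat_lit 4486479888111743) (.br (nat_lit 1) (.cons (.br (nat_lit 6) (.cons (.rel (nat_lit 34376516736)) .nil)) .nil)) .leaf) (nat_lit 4486479888111771) (.br (nat_lit 0) (.cons (.br (nat_lit 3) (.cons (.rel (nat_lit 272892168)) .nil)) .nil)) .leaf) (nat_lit 4486479888252983) (.br (nat_lit 4) (.cons (.br (nat_lit 3) (.cons (.rel (nat_lit 1342177290)) (.cons (.rel (nat_lit 2684354565)) .nil))) .nil)) (.node .leaf (nat_lit 4486479888253055) (.br (nat_lit 0) (.cons (.br (nat_lit 5) (.cons (.br (nat_lit 1) (.cons (.br (nat_lit 3) (.cons (.rel (nat_lit 4563435540)) (.cons (.rel (nat_lit 285229185)) (.cons (.rel (nat_lit 276889620)) .nil)))) (.cons (.rel (nat_lit 4311826452)) .nil))) (.cons (.rel (nat_lit 4299178002)) .nil))) (.cons (.br (nat_lit 1) (.cons (.rel (nat_lit 20971656)) (.cons (.rel (nat_lit 21237786))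 .nil))) .nil))) .leaf)) (nat_lit 4486479888253184) (.br (nat_lit 4) (.cons (.br (nat_lit 0) (.cons (.rel (nat_lit 1082130528)) (.cons (.rel (nat_lit 1077952800)) (.cons (.rel (nat_lit 1077952800)) .nil)))) (.cons (.br (nat_lit 0) (.cons (.rel (nat_lit 1079005248)) (.cons (.rel (nat_lit 1077945348)) (.cons (.rel (nat_lit 1079005248)) .nil)))) .nil))) (.node (.node (.node .leaf (nat_lit 4486479888253678) (.br (nat_lit 3) (.cons (.br (nat_lit 2) (.cons (.rel (nat_lit 335546370)) (.cons (.rel (nat_lit 335546370)) (.cons (.rel (nat_lit 335546370)) .nil)))) (.cons (.br (nat_lit 2) (.cons (.rel (nat_lit 335565072)) (.cons (.br (nat_lit 0) (.cons (.rel (nat_lit 142610436)) (.cons (.rel (nat_lit 545260608)) (.cons (.rel (nat_lit 71319810)) .nil)))) (.cons (.rel (nat_lit 335565072)) .nil)))) .nil))) .leaf) (nat_lit 4486479888254235) (.br (nat_lit 2) (.cons (.br (nat_lit 3) (.cons (.rel (nat_lit 335544345)) .nil)) .nil)) .leaf) (nat_lit 4486479888254478) (.br (nat_lit 5) (.cons (.br (nat_lit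 0) (.cons (.rel (nat_lit 4299161865)) (.cons (.rel (nat_lit 4299227169)) (.cons (.rel (nat_lit 4300226625)) .nil)))) .nil)) (.node .leaf (nat_lit 4486479888347292) (.br (nat_lit 0) (.cons (.br (nat_lit 2) (.cons (.rel (nat_lit 142610436)) .nil)) .nil)) .leaf)))) (nat_lit 4486479888347947) (.br (nat_lit 2) (.cons (.br (nat_lit 6) (.cons (.rel (nat_lit 17247011136)) .nil)) .nil)) (.node (.node (.node (.node (.node .leaf (nat_lit 4486479889010698) (.br (nat_lit 6) (.cons (.br (nat_lit 3) (.cons (.rel (nat_lit 17448697920)) (.cons (.rel (nat_lit 17448308772)) (.cons (.rel (nat_lit 17448321048)) .nil)))) .nil)) .leaf) (nat_lit 4486479889012238) (.br (nat_lit 3) (.cons (.br (nat_lit 5) (.cons (.rel (nat_lit 4563435540)) .nil)) .nil)) .leaf) (nat_lit 4486479889061898) (.br (nat_lit 4) (.cons (.br (nat_lit 0) (.cons (.rel (nat_lit 1077952800)) (.cons (.rel (nat_lit 1077946386)) (.cons (.rel (nat_lit 2155873536)) (.cons (.rel (nat_lit 1077940488)) .nil))))) .nil)) (.node .leaf (nat_lit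 4486479889131530) (.br (nat_lit 2) (.cons (.br (nat_lit 5) (.cons (.rel (nat_lit 4362081348)) (.cons (.rel (nat_lit 4362086976)) .nil))) (.cons (.br (nat_lit 4) (.cons (.rel (nat_lit 1140871248)) (.cons (.rel (nat_lit 2214594564)) .nil))) .nil))) .leaf)) (nat_lit 4486479889266698) (.br (nat_lit 2) (.cons (.br (nat_lit 4) (.cons (.rel (nat_lit 1140916545)) .nil)) .nil)) (.node (.node (.node .leaf (nat_lit 4486479889367840) (.br (nat_lit 3) (.cons (.br (nat_lit 1) (.cons (.rel (nat_lit 285278352)) (.cons (.rel (nat_lit 285229185)) (.cons (.rel (nat_lit 285495312)) .nil)))) (.cons (.br (nat_lit 1) (.cons (.rel (nat_lit 285229185)) (.cons (.rel (nat_lit 285278352)) (.cons (.rel (nat_lit 286263552)) .nil)))) .nil))) .leaf) (nat_lit 4486479889368570) (.br (nat_lit 1) (.cons (.br (nat_lit 3) (.cons (.rel (nat_lit 301991940)) .nil)) .nil)) .leaf) (nat_lit 4486479889522166) (.br (nat_lit 2) (.cons (.br (nat_lit 4) (.cons (.rel (nat_lit 1142162436)) .nil)) .nil)) (.node .leaf (nat_lit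 4486479889573341) (.br (nat_lit 1) (.cons (.br (nat_lit 3) (.cons (.rel (nat_lit 285507588)) .nil)) .nil)) .leaf))) (nat_lit 4486479890309130) (.br (nat_lit 5) (.cons (.br (nat_lit 1) (.cons (.rel (nat_lit 4311826452)) (.cons (.rel (nat_lit 4312006728)) (.cons (.rel (nat_lit 4311777285)) .nil)))) (.cons (.br (nat_lit 2) (.cons (.rel (nat_lit 4362092625)) (.cons (.rel (nat_lit 4362081348)) (.cons (.rel (nat_lit 4364238849)) (.cons (.rel (nat_lit 8657043744)) .nil))))) .nil))) (.node (.node (.node (.node .leaf (nat_lit 4486479890312718) (.br (nat_lit 4) (.cons (.br (nat_lit 5) (.cons (.rel (nat_lit 9663680514)) .nil)) .nil)) .leaf) (nat_lit 4486479890413578) (.br (nat_lit 1) (.cons (.br (nat_lit 5) (.cons (.rel (nat_lit 4311748872)) .nil)) .nil)) .leaf) (nat_lit 4486479890567323) (.br (nat_lit 0) (.cons (.br (nat_lit 1) (.cons (.rel (nat_lit 25169922)) .nil)) .nil)) (.node .leaf (nat_lit 4486479890567424) (.br (nat_lit 2) (.cons (.br (nat_lit 3) (.cons (.rel (nat_lit 335546370))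 .nil)) .nil)) .leaf)) (nat_lit 4486479890567923) (.br (nat_lit 1) (.cons (.br (nat_lit 2) (.cons (.rel (nat_lit 83887125)) .nil)) .nil)) (.node (.node (.node .leaf (nat_lit 4486479890647050) (.br (nat_lit 2) (.cons (.br (nat_lit 5) (.cons (.rel (nat_lit 4362092625)) .nil)) .nil)) .leaf) (nat_lit 4486480518666250) (.br (nat_lit 1) (.cons (.br (nat_lit 3) (.cons (.rel (nat_lit 286265352)) .nil)) .nil)) .leaf) (nat_lit 4486483054440454) (.br (nat_lit 0) (.cons (.br (nat_lit 3) (.cons (.rel (nat_lit 545260608)) .nil)) .nil)) (.node .leaf (nat_lit 4486483054440458) (.br (nat_lit 2) (.cons (.br (nat_lit 3) (.cons (.rel (nat_lit 335546370)) (.cons (.rel (nat_lit 335546370)) .nil))) (.cons (.br (nat_lit 3) (.cons (.rel (nat_lit 337969152)) (.cons (.rel (nat_lit 335546370)) .nil))) .nil))) .leaf))))) (nat_lit 4486483264155658) (.br (nat_lit 0) (.cons (.br (nat_lit 1) (.cons (.rel (nat_lit 21234948)) .nil)) .nil)) (.node (.node (.node (.node (.node (.node .leaf (nat_lit 4486483264206858)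 (.br (nat_lit 3) (.cons (.br (nat_lit 0) (.cons (.rel (nat_lit 276824352)) (.cons (.rel (nat_lit 272892168)) .nil))) .nil)) .leaf) (nat_lit 4486483264206879) (.br (nat_lit 0) (.cons (.br (nat_lit 2) (.cons (.rel (nat_lit 71434245)) .nil)) .nil)) .leaf) (nat_lit 4486483264667904) (.br (nat_lit 0) (.cons (.br (nat_lit 1) (.cons (.rel (nat_lit 21239808)) .nil)) .nil)) (.node .leaf (nat_lit 4486483265783290) (.br (nat_lit 1) (.cons (.br (nat_lit 3) (.cons (.rel (nat_lit 286265352)) .nil)) .nil)) .leaf)) (nat_lit 4486483663947786) (.br (nat_lit 4) (.cons (.br (nat_lit 5) (.cons (.rel (nat_lit 9663680514)) .nil)) .nil)) (.node (.node (.node .leaf (nat_lit 4486483664418971) (.br (nat_lit 2) (.cons (.br (nat_lit 4) (.cons (.rel (nat_lit 1207968000)) .nil)) .nil)) .leaf) (nat_lit 4486483796932765) (.br (nat_lit 0) (.cons (.br (nat_lit 4) (.cons (.rel (nat_lit 1078001922)) .nil)) .nil)) .leaf) (nat_lit 4486483797203131) (.br (nat_lit 0) (.cons (.br (nat_lit 3) (.cons (.rel (nat_lit 272631936))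 .nil)) .nil)) (.node .leaf (nat_lit 4487081183162374) (.br (nat_lit 3) (.cons (.br (nat_lit 6) (.cons (.rel (nat_lit 17448321048)) .nil)) .nil)) .leaf))) (nat_lit 4487081183162378) (.br (nat_lit 5) (.cons (.br (nat_lit 1) (.cons (.rel (nat_lit 4329046032)) (.cons (.rel (nat_lit 4311748872)) .nil))) .nil)) (.node (.node (.node (.node .leaf (nat_lit 4487081183213578) (.br (nat_lit 1) (.cons (.br (nat_lit 5) (.cons (.rel (nat_lit 4311748872)) .nil)) .nil)) .leaf) (nat_lit 4487081183467675) (.br (nat_lit 3) (.cons (.br (nat_lit 5) (.cons (.rel (nat_lit 4831854660)) (.cons (.rel (nat_lit 4563404292)) (.cons (.rel (nat_lit 4563435540)) (.cons (.rel (nat_lit 4563409152)) .nil))))) .nil)) .leaf) (nat_lit 4487081183468331) (.br (nat_lit 0) (.cons (.br (nat_lit 1) (.cons (.rel (nat_lit 21250050)) .nil)) .nil)) (.node .leaf (nat_lit 4487081183468407) (.br (nat_lit 0) (.cons (.br (nat_lit 2) (.cons (.rel (nat_lit 71311368)) .nil)) .nil)) .leaf)) (nat_lit 4487081183674495) (.br (nat_lit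 0) (.cons (.br (nat_lit 1) (.cons (.rel (nat_lit 22021125)) .nil)) .nil)) (.node (.node (.node .leaf (nat_lit 4487081183675118) (.br (nat_lit 4) (.cons (.br (nat_lit 5) (.cons (.rel (nat_lit 5368710468)) (.cons (.rel (nat_lit 9663676689)) .nil))) (.cons (.br (nat_lit 5) (.cons (.rel (nat_lit 5368715328)) (.cons (.rel (nat_lit 5368725570)) .nil))) .nil))) .leaf) (nat_lit 4487081183768586) (.br (nat_lit 0) (.cons (.br (nat_lit 2) (.cons (.rel (nat_lit 71304708)) .nil)) .nil)) .leaf) (nat_lit 4487081183769326) (.br (nat_lit 0) (.cons (.br (nat_lit 2) (.cons (.rel (nat_lit 142610436)) .nil)) .nil)) (.node .leaf (nat_lit 4487081183770106) (.br (nat_lit 1) (.cons (.br (nat_lit 6) (.cons (.rel (nat_lit 17196651552)) .nil)) .nil)) .leaf)))) (nat_lit 4487081183770131) (.br (nat_lit 1) (.cons (.br (nat_lit 2) (.cons (.rel (nat_lit 167773200)) .nil)) .nil)) (.node (.node (.node (.node (.node .leaf (nat_lit 4487081184495626) (.br (nat_lit 0) (.cons (.br (nat_lit 2) (.cons (.rel (nat_lit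 71323680)) (.cons (.rel (nat_lit 142610436)) .nil))) .nil)) .leaf) (nat_lit 4487081184552970) (.br (nat_lit 1) (.cons (.br (nat_lit 4) (.cons (.rel (nat_lit 1090519080)) .nil)) .nil)) .leaf) (nat_lit 4487081184709369) (.br (nat_lit 1) (.cons (.br (nat_lit 5) (.cons (.rel (nat_lit 4311761184)) .nil)) .nil)) (.node .leaf (nat_lit 4487081184967543) (.br (nat_lit 1) (.cons (.br (nat_lit 2) (.cons (.rel (nat_lit 83888160)) .nil)) .nil)) .leaf)) (nat_lit 4487081185045291) (.br (nat_lit 0) (.cons (.br (nat_lit 1) (.cons (.rel (nat_lit 22036992)) .nil)) .nil)) (.node (.node (.node .leaf (nat_lit 4487081186042011) (.br (nat_lit 0) (.cons (.br (nat_lit 3) (.cons (.rel (nat_lit 272892168)) .nil)) .nil)) .leaf) (nat_lit 4487084056565915) (.br (nat_lit 3) (.cons (.br (nat_lit 0) (.cons (.rel (nat_lit 276840453)) (.cons (.rel (nat_lit 272957472)) (.cons (.rel (nat_lit 276840453)) (.cons (.rel (nat_lit 272957472)) (.cons (.rel (nat_lit 541131012)) .nil)))))) (.cons (.br (nat_lit 4) (.cons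 (.rel (nat_lit 2415919488)) (.cons (.rel (nat_lit 1342455873)) (.cons (.rel (nat_lit 1343226948)) (.cons (.rel (nat_lit 1342178325)) .nil))))) .nil))) .leaf) (nat_lit 4487084056866826) (.br (nat_lit 6) (.cons (.br (nat_lit 0) (.cons (.rel (nat_lit 34368128004)) (.cons (.rel (nat_lit 17184210948)) .nil))) .nil)) (.node .leaf (nat_lit 4487084057579530) (.br (nat_lit 0) (.cons (.br (nat_lit 1) (.cons (.rel (nat_lit 21250050)) .nil)) .nil)) .leaf))) (nat_lit 4487084958035978) (.br (nat_lit 2) (.cons (.br (nat_lit 5) (.cons (.rel (nat_lit 4429250820)) (.cons (.rel (nat_lit 8724415488)) .nil))) (.cons (.br (nat_lit 5) (.cons (.rel (nat_lit 8657059845)) (.cons (.rel (nat_lit 4429185552)) .nil))) .nil))) (.node (.node (.node (.node .leaf (nat_lit 4487084959840411) (.br (nat_lit 2) (.cons (.br (nat_lit 0) (.cons (.rel (nat_lit 71309568)) (.cons (.rel (nat_lit 142610436)) .nil))) .nil)) .leaf) (nat_lit 4487084960605085) (.br (nat_lit 1) (.cons (.br (nat_lit 3) (.cons (.rel (nat_lit 285278352))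 .nil)) .nil)) .leaf) (nat_lit 4487085092624394) (.br (nat_lit 1) (.cons (.br (nat_lit 2) (.cons (.rel (nat_lit 167772165)) .nil)) .nil)) (.node .leaf (nat_lit 4487085092767800) (.br (nat_lit 0) (.cons (.br (nat_lit 1) (.cons (.rel (nat_lit 20971656)) .nil)) .nil)) .leaf)) (nat_lit 4487513448645358) (.br (nat_lit 1) (.cons (.br (nat_lit 5) (.cons (.rel (nat_lit 4311753732)) .nil)) .nil)) (.node (.node (.node .leaf (nat_lit 4487517223518958) (.br (nat_lit 3) (.cons (.br (nat_lit 4) (.cons (.rel (nat_lit 1342178325)) .nil)) .nil)) .leaf) (nat_lit 4488458446100635) (.br (nat_lit 0) (.cons (.br (nat_lit 3) (.cons (.rel (nat_lit 276840453)) (.cons (.rel (nat_lit 545260608)) .nil))) (.cons (.br (nat_lit 1) (.cons (.rel (nat_lit 37765380)) (.cons (.rel (nat_lit 20971656)) .nil))) .nil))) .leaf) (nat_lit 4488458741201051) (.br (nat_lit 0) (.cons (.br (nat_lit 4) (.cons (.rel (nat_lit 1077938688)) .nil)) .nil)) (.node .leaf (nat_lit 4488461592856586) (.br (nat_lit 0) (.cons (.br (nat_lit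 2) (.cons (.rel (nat_lit 71311368)) .nil)) .nil)) .leaf))))))

/-- refutations 30 -/
def e30 : EX := (.node (.node (.node (.node .leaf (nat_lit 4491378920019978) (.br (nat_lit 1) (.cons (.br (nat_lit 2) (.cons (.rel (nat_lit 83886090)) .nil)) .nil)) .leaf) (nat_lit 4491378921363466) (.br (nat_lit 0) (.cons (.br (nat_lit 2) (.cons (.rel (nat_lit 71311368)) .nil)) .nil)) (.node .leaf (nat_lit 4491382694893578) (.br (nat_lit 1) (.cons (.br (nat_lit 3) (.cons (.rel (nat_lit 302137344)) .nil)) .nil)) .leaf)) (nat_lit 4493566583831278) (.br (nat_lit 3) (.cons (.br (nat_lit 5) (.cons (.rel (nat_lit 4563410952)) .nil)) .nil)) (.node (.node .leaf (nat_lit 4493566584292078) (.br (nat_lit 1) (.cons (.br (nat_lit 5) (.cons (.rel (nat_lit 4311826452)) (.cons (.rel (nat_lit 8607768576)) .nil))) .nil)) .leaf) (nat_lit 4493569750478858) (.br (nat_lit 3) (.cons (.br (nat_lit 6) (.cons (.rel (nat_lit 17448321048)) .nil)) .nil)) (.node .leaf (nat_lit 4493569750991534) (.br (nat_lit 0) (.cons (.br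 (nat_lit 3) (.cons (.rel (nat_lit 272631936)) .nil)) .nil)) .leaf))) (nat_lit 4493999457436398) (.br (nat_lit 0) (.cons (.br (nat_lit 1) (.cons (.rel (nat_lit 20971656)) .nil)) .nil)) (.node (.node (.node .leaf (nat_lit 4494042722795530) (.br (nat_lit 1) (.cons (.br (nat_lit 3) (.cons (.rel (nat_lit 285229185)) .nil)) .nil)) .leaf) (nat_lit 4497266798768138) (.br (nat_lit 1) (.cons (.br (nat_lit 2) (.cons (.rel (nat_lit 167772165)) .nil)) .nil)) (.node .leaf (nat_lit 4497867424880650) (.br (nat_lit 1) (.cons (.br (nat_lit 2) (.cons (.rel (nat_lit 83906817)) .nil)) .nil)) .leaf)) (nat_lit 4498993255612426) (.br (nat_lit 1) (.cons (.br (nat_lit 4) (.cons (.rel (nat_lit 2165326848)) .nil)) .nil)) (.node (.node .leaf (nat_lit 4499192990988298) (.br (nat_lit 2) (.cons (.br (nat_lit 3) (.cons (.rel (nat_lit 335545380)) .nil)) .nil)) .leaf) (nat_lit 4499192992820125) (.br (nat_lit 0) (.cons (.br (nat_lit 2) (.cons (.rel (nat_lit 71323680)) .nil)) .nil)) .leaf)))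

/-- refutations 31 -/
def e31 : EX := (.node (.node (.node (.node .leaf (nat_lit 3273222967845166) (.br (nat_lit 1) (.cons (.br (nat_lit 5) (.cons (.rel (nat_lit 4311753732)) .nil)) .nil)) .leaf) (nat_lit 3274357468420283) (.br (nat_lit 1) (.cons (.br (nat_lit 2) (.cons (.rel (nat_lit 167772165)) .nil)) .nil)) .leaf) (nat_lit 3274604479248394) (.br (nat_lit 0) (.cons (.br (nat_lit 2) (.cons (.rel (nat_lit 71311368)) (.cons (.rel (nat_lit 71335956)) .nil))) (.cons (.br (nat_lit 2) (.cons (.rel (nat_lit 71434245)) (.cons (.rel (nat_lit 71434245)) .nil))) .nil))) (.node (.node .leaf (nat_lit 3274604482063723) (.br (nat_lit 0) (.cons (.br (nat_lit 2) (.cons (.rel (nat_lit 71323680)) .nil)) .nil)) .leaf) (nat_lit 3274604609062937) (.br (nat_lit 0) (.cons (.br (nat_lit 3) (.cons (.rel (nat_lit 272892168)) .nil)) .nil)) .leaf)) (nat_lit 3274604609271818) (.br (nat_lit 4) (.cons (.br (nat_lit 6) (.cons (.rel (nat_lit 35433485568)) .nil)) .nil)) (.node (.node (.node .leaf (nat_lit 3274604609394698)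 (.br (nat_lit 1) (.cons (.br (nat_lit 4) (.cons (.rel (nat_lit 1090555908)) .nil)) .nil)) .leaf) (nat_lit 3274604609536127) (.br (nat_lit 0) (.cons (.br (nat_lit 2) (.cons (.rel (nat_lit 71434245)) .nil)) .nil)) .leaf) (nat_lit 3274609768386817) (.br (nat_lit 1) (.cons (.br (nat_lit 3) (.cons (.rel (nat_lit 302137344)) .nil)) .nil)) (.node .leaf (nat_lit 3285341897488394) (.br (nat_lit 0) (.cons (.br (nat_lit 2) (.cons (.rel (nat_lit 71323680)) .nil)) .nil)) .leaf)))

/-- refutations 32 -/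
def e32 : EX := (.node (.node (.node (.node .leaf (nat_lit 4837856931963640) (.br (nat_lit 0) (.cons (.br (nat_lit 3) (.cons (.rel (nat_lit 273679380)) .nil)) .nil)) .leaf) (nat_lit 4837856931964390) (.br (nat_lit 0) (.cons (.br (nat_lit 3) (.cons (.rel (nat_lit 272631936)) .nil)) .nil)) (.node .leaf (nat_lit 4838924904605153) (.br (nat_lit 0) (.cons (.br (nat_lit 5) (.cons (.rel (nat_lit 4299325440)) .nil)) .nil)) .leaf)) (nat_lit 4838924904605203) (.br (nat_lit 1) (.cons (.br (nat_lit 5) (.cons (.rel (nat_lit 4311777285)) .nil)) .nil)) (.node (.node .leaf (nat_lit 4838924905444264) (.br (nat_lit 0) (.cons (.br (nat_lit 1) (.cons (.rel (nat_lit 25231365)) .nil)) .nil)) .leaf) (nat_lit 4838924905648278) (.br (nat_lit 0) (.cons (.br (nat_lit 2) (.cons (.rel (nat_lit 71335956)) .nil)) .nil)) (.node .leaf (nat_lit 4838924905700633) (.br (nat_lit 1) (.cons (.br (nat_lit 4) (.cons (.rel (nat_lit 1090555908)) .nil)) .nil)) .leaf))) (nat_lit 4838924906858003) (.br (nat_lit 1) (.cons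 (.br (nat_lit 5) (.cons (.rel (nat_lit 8606720145)) .nil)) .nil)) (.node (.node (.node .leaf (nat_lit 4838925684242713) (.br (nat_lit 0) (.cons (.br (nat_lit 1) (.cons (.rel (nat_lit 37756929)) .nil)) .nil)) .leaf) (nat_lit 4838928049830023) (.br (nat_lit 1) (.cons (.br (nat_lit 6) (.cons (.rel (nat_lit 17196777984)) .nil)) .nil)) (.node .leaf (nat_lit 4838928050333178) (.br (nat_lit 3) (.cons (.br (nat_lit 5) (.cons (.rel (nat_lit 4563423264)) .nil)) .nil)) .leaf)) (nat_lit 4838928052944378) (.br (nat_lit 1) (.cons (.br (nat_lit 4) (.cons (.rel (nat_lit 1107558528)) .nil)) .nil)) (.node (.node .leaf (nat_lit 4838930925487610) (.br (nat_lit 3) (.cons (.br (nat_lit 0) (.cons (.rel (nat_lit 272892168)) (.cons (.rel (nat_lit 545260608)) .nil))) .nil)) .leaf) (nat_lit 4838930926042618) (.br (nat_lit 0) (.cons (.br (nat_lit 2) (.cons (.rel (nat_lit 71319810)) .nil)) .nil)) .leaf)))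

/-- refutations 33 -/
def e33 : EX := (.node (.node (.node (.node .leaf (nat_lit 4843440410419210) (.br (nat_lit 1) (.cons (.br (nat_lit 2) (.cons (.rel (nat_lit 83907864)) .nil)) .nil)) .leaf) (nat_lit 4845674442763000) (.br (nat_lit 1) (.cons (.br (nat_lit 3) (.cons (.rel (nat_lit 301994496)) .nil)) .nil)) .leaf) (nat_lit 4848588580518023) (.br (nat_lit 1) (.cons (.br (nat_lit 2) (.cons (.rel (nat_lit 167772165)) .nil)) .nil)) (.node (.node .leaf (nat_lit 4848588581021203) (.br (nat_lit 1) (.cons (.br (nat_lit 2) (.cons (.rel (nat_lit 150999168)) .nil)) .nil)) .leaf) (nat_lit 4848588583273953) (.br (nat_lit 0) (.cons (.br (nat_lit 1) (.cons (.rel (nat_lit 37756929)) .nil)) .nil)) .leaf)) (nat_lit 4848588583274003) (.br (nat_lit 0) (.cons (.br (nat_lit 2) (.cons (.rel (nat_lit 71323680)) (.cons (.rel (nat_lit 71311368)) (.cons (.rel (nat_lit 71434245)) .nil)))) .nil)) (.node (.node (.node .leaf (nat_lit 4848588583581203) (.br (nat_lit 1) (.cons (.br (nat_lit 0) (.cons (.rel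 (nat_lit 21250050)) (.cons (.rel (nat_lit 25231365)) .nil))) .nil)) .leaf) (nat_lit 4849662322811015) (.br (nat_lit 4) (.cons (.br (nat_lit 5) (.cons (.rel (nat_lit 6442520580)) .nil)) .nil)) .leaf) (nat_lit 4850741833852390) (.br (nat_lit 0) (.cons (.br (nat_lit 3) (.cons (.rel (nat_lit 541131012)) .nil)) .nil)) (.node .leaf (nat_lit 4851165563673838) (.br (nat_lit 0) (.cons (.br (nat_lit 1) (.cons (.rel (nat_lit 25169922)) .nil)) .nil)) .leaf)))

/-- refutations 34 -/
def e34 : EX := (.node (.node (.node (.node .leaf (nat_lit 4609255927771298) (.br (nat_lit 1) (.cons (.br (nat_lit 2) (.cons (.rel (nat_lit 100671552)) .nil)) .nil)) .leaf) (nat_lit 4609255928242436) (.br (nat_lit 0) (.cons (.br (nat_lit 1) (.cons (.rel (nat_lit 21234948)) .nil)) .nil)) (.node .leaf (nat_lit 4609255928243733) (.br (nat_lit 0) (.cons (.br (nat_lit 1) (.cons (.rel (nat_lit 21234948)) (.cons (.rel (nat_lit 20971656)) .nil))) (.cons (.br (nat_lit 2) (.cons (.rel (nat_lit 71323680)) (.cons (.rel (nat_lit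 142610436)) .nil))) .nil))) .leaf)) (nat_lit 4609255929616635) (.br (nat_lit 0) (.cons (.br (nat_lit 1) (.cons (.rel (nat_lit 20971656)) .nil)) .nil)) (.node (.node .leaf (nat_lit 4609255929628682) (.br (nat_lit 0) (.cons (.br (nat_lit 2) (.cons (.rel (nat_lit 77594640)) .nil)) .nil)) .leaf) (nat_lit 4609255930387083) (.br (nat_lit 6) (.cons (.br (nat_lit 3) (.cons (.rel (nat_lit 17448304902)) (.cons (.rel (nat_lit 17448308772)) .nil))) .nil)) .leaf)) (nat_lit 4609255930837643) (.br (nat_lit 0) (.cons (.br (nat_lit 1) (.cons (.rel (nat_lit 25169922)) .nil)) .nil)) (.node (.node (.node .leaf (nat_lit 4609686628225034) (.br (nat_lit 0) (.cons (.br (nat_lit 2) (.cons (.rel (nat_lit 71304708)) .nil)) .nil)) .leaf) (nat_lit 4609686628834165) (.br (nat_lit 1) (.cons (.br (nat_lit 4) (.cons (.rel (nat_lit 1090519080)) .nil)) .nil)) (.node .leaf (nat_lit 4609686630882087) (.br (nat_lit 0) (.cons (.br (nat_lit 1) (.cons (.rel (nat_lit 22021125)) .nil)) .nil)) .leaf)) (nat_lit 4609686630891002)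 (.br (nat_lit 0) (.cons (.br (nat_lit 1) (.cons (.rel (nat_lit 37753104)) .nil)) .nil)) (.node (.node .leaf (nat_lit 4610441341810166) (.br (nat_lit 2) (.cons (.br (nat_lit 3) (.cons (.rel (nat_lit 335554833)) .nil)) .nil)) .leaf) (nat_lit 4614584351874331) (.br (nat_lit 0) (.cons (.br (nat_lit 1) (.cons (.rel (nat_lit 21250050)) .nil)) .nil)) .leaf)))

/-- refutations 35 -/
def e35 : EX := (.node (.node (.node .leaf (nat_lit 4856523424886794) (.br (nat_lit 0) (.cons (.br (nat_lit 2) (.cons (.rel (nat_lit 138690564)) .nil)) .nil)) .leaf) (nat_lit 4856523426564106) (.br (nat_lit 1) (.cons (.br (nat_lit 3) (.cons (.rel (nat_lit 553649160)) .nil)) .nil)) .leaf) (nat_lit 4863008827181066) (.br (nat_lit 1) (.cons (.br (nat_lit 3) (.cons (.rel (nat_lit 553649160)) .nil)) .nil)) (.node (.node .leaf (nat_lit 4863008827182561) (.br (nat_lit 1) (.cons (.br (nat_lit 3) (.cons (.rel (nat_lit 286277664)) .nil)) .nil)) .leaf) (nat_lit 4873270218321930) (.br (nat_lit 0) (.cons (.br (nat_lit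 1) (.cons (.rel (nat_lit 37756929)) .nil)) .nil)) .leaf))

/-- refutations 36 -/
def e36 : EX := (.node (.node (.node (.node (.node (.node (.node .leaf (nat_lit 5013858922024970) (.br (nat_lit 5) (.cons (.br (nat_lit 6) (.cons (.rel (nat_lit 21474869328)) (.cons (.rel (nat_lit 21474967617)) (.cons (.rel (nat_lit 21475361028)) .nil)))) .nil)) .leaf) (nat_lit 5013858922024985) (.br (nat_lit 2) (.cons (.br (nat_lit 6) (.cons (.rel (nat_lit 34426929168)) .nil)) .nil)) .leaf) (nat_lit 5013858922025015) (.br (nat_lit 2) (.cons (.br (nat_lit 3) (.cons (.rel (nat_lit 335546370)) .nil)) .nil)) (.node .leaf (nat_lit 5013858922025087) (.br (nat_lit 0) (.cons (.br (nat_lit 3) (.cons (.rel (nat_lit 272631936)) (.cons (.rel (nat_lit 276861192)) .nil))) .nil)) .leaf)) (nat_lit 5013858922025147) (.br (nat_lit 0) (.cons (.br (nat_lit 1) (.cons (.rel (nat_lit 20971656)) .nil)) .nil)) (.node (.node .leaf (nat_lit 5013858922025216) (.br (nat_lit 3) (.cons (.br (nat_lit 5) (.cons (.rel (nat_lit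 4563435540)) .nil)) .nil)) .leaf) (nat_lit 5013858922055705) (.br (nat_lit 2) (.cons (.br (nat_lit 4) (.cons (.rel (nat_lit 1140883524)) (.cons (.rel (nat_lit 1207968000)) (.cons (.rel (nat_lit 1141391361)) .nil)))) (.cons (.br (nat_lit 4) (.cons (.rel (nat_lit 1142162436)) (.cons (.rel (nat_lit 1207966212)) (.cons (.rel (nat_lit 1141391361)) .nil)))) .nil))) (.node .leaf (nat_lit 5013858922055735) (.br (nat_lit 6) (.cons (.br (nat_lit 2) (.cons (.rel (nat_lit 17314093056)) (.cons (.rel (nat_lit 17246979168)) (.cons (.rel (nat_lit 34426929168)) .nil)))) .nil)) .leaf))) (nat_lit 5013858922055807) (.br (nat_lit 2) (.cons (.br (nat_lit 6) (.cons (.rel (nat_lit 34494283776)) .nil)) .nil)) (.node (.node (.node .leaf (nat_lit 5013858922056465) (.br (nat_lit 1) (.cons (.br (nat_lit 6) (.cons (.rel (nat_lit 17196651552)) .nil)) .nil)) .leaf) (nat_lit 5013858922326041) (.br (nat_lit 1) (.cons (.br (nat_lit 2) (.cons (.rel (nat_lit 167773200)) (.cons (.rel (nat_lit 83886090)) .nil)))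 .nil)) (.node .leaf (nat_lit 5013858922326071) (.br (nat_lit 3) (.cons (.br (nat_lit 2) (.cons (.rel (nat_lit 335847492)) (.cons (.rel (nat_lit 336592968)) .nil))) .nil)) .leaf)) (nat_lit 5013858922326272) (.br (nat_lit 1) (.cons (.br (nat_lit 3) (.cons (.rel (nat_lit 303038529)) .nil)) .nil)) (.node (.node .leaf (nat_lit 5013858922385594) (.br (nat_lit 0) (.cons (.br (nat_lit 6) (.cons (.rel (nat_lit 17184063510)) .nil)) .nil)) .leaf) (nat_lit 5013858922385665) (.br (nat_lit 0) (.cons (.br (nat_lit 2) (.cons (.rel (nat_lit 142610436)) .nil)) .nil)) (.node .leaf (nat_lit 5013858922530971) (.br (nat_lit 2) (.cons (.br (nat_lit 4) (.cons (.rel (nat_lit 1207960584)) .nil)) .nil)) .leaf)))) (nat_lit 5013858922590218) (.br (nat_lit 2) (.cons (.br (nat_lit 4) (.cons (.rel (nat_lit 1141440528)) (.cons (.rel (nat_lit 1140883524)) .nil))) .nil)) (.node (.node (.node (.node (.node .leaf (nat_lit 5013858922590233) (.br (nat_lit 2) (.cons (.br (nat_lit 0) (.cons (.rel (nat_lit 139460640))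 (.cons (.rel (nat_lit 71335956)) (.cons (.rel (nat_lit 71309568)) .nil)))) (.cons (.br (nat_lit 0) (.cons (.rel (nat_lit 142610436)) (.cons (.rel (nat_lit 71335956)) (.cons (.rel (nat_lit 71335956)) .nil)))) .nil))) .leaf) (nat_lit 5013858922590464) (.br (nat_lit 2) (.cons (.br (nat_lit 3) (.cons (.rel (nat_lit 336592968)) .nil)) .nil)) .leaf) (nat_lit 5013858922591018) (.br (nat_lit 0) (.cons (.br (nat_lit 2) (.cons (.rel (nat_lit 142610436)) .nil)) .nil)) (.node .leaf (nat_lit 5013858922622986) (.br (nat_lit 1) (.cons (.br (nat_lit 4) (.cons (.rel (nat_lit 1092894720)) .nil)) .nil)) .leaf)) (nat_lit 5013858923358869) (.br (nat_lit 1) (.cons (.br (nat_lit 4) (.cons (.rel (nat_lit 2181038100)) (.cons (.rel (nat_lit 2165309712)) .nil))) .nil)) (.node (.node .leaf (nat_lit 5013858923399178) (.br (nat_lit 0) (.cons (.br (nat_lit 5) (.cons (.rel (nat_lit 8598405120)) .nil)) .nil)) .leaf) (nat_lit 5013858923409535) (.br (nat_lit 2) (.cons (.br (nat_lit 4) (.cons (.rel (nat_lit 1141440528))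 .nil)) .nil)) (.node .leaf (nat_lit 5013858923410665) (.br (nat_lit 2) (.cons (.br (nat_lit 3) (.cons (.rel (nat_lit 335546370)) .nil)) .nil)) .leaf))) (nat_lit 5013858924823403) (.br (nat_lit 0) (.cons (.br (nat_lit 5) (.cons (.rel (nat_lit 8598405120)) .nil)) .nil)) (.node (.node (.node .leaf (nat_lit 5013858924823453) (.br (nat_lit 0) (.cons (.br (nat_lit 2) (.cons (.rel (nat_lit 142610436)) .nil)) .nil)) .leaf) (nat_lit 5013858924824033) (.br (nat_lit 0) (.cons (.br (nat_lit 3) (.cons (.rel (nat_lit 273678345)) .nil)) .nil)) (.node .leaf (nat_lit 5013858924923755) (.br (nat_lit 2) (.cons (.br (nat_lit 4) (.cons (.rel (nat_lit 1141391361)) .nil)) .nil)) .leaf)) (nat_lit 5013858925191193) (.br (nat_lit 0) (.cons (.br (nat_lit 4) (.cons (.rel (nat_lit 2155873536)) .nil)) .nil)) (.node (.node .leaf (nat_lit 5013859475673098) (.br (nat_lit 6) (.cons (.br (nat_lit 1) (.cons (.rel (nat_lit 17196941376)) (.cons (.rel (nat_lit 17196711960)) (.cons (.rel (nat_lit 17196651552)) .nil))))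 .nil)) .leaf) (nat_lit 5013859475673215) (.br (nat_lit 0) (.cons (.br (nat_lit 3) (.cons (.rel (nat_lit 272892168)) .nil)) .nil)) (.node .leaf (nat_lit 5013859475673344) (.br (nat_lit 6) (.cons (.br (nat_lit 0) (.cons (.rel (nat_lit 17184198672)) (.cons (.br (nat_lit 1) (.cons (.rel (nat_lit 21234948)) (.cons (.rel (nat_lit 17196941376)) .nil))) .nil))) .nil)) .leaf))))) (nat_lit 5013859475703833) (.br (nat_lit 1) (.cons (.br (nat_lit 5) (.cons (.rel (nat_lit 4311747072)) .nil)) .nil)) (.node (.node (.node (.node (.node (.node .leaf (nat_lit 5013859475703965) (.br (nat_lit 2) (.cons (.br (nat_lit 3) (.cons (.rel (nat_lit 335630340)) .nil)) .nil)) .leaf) (nat_lit 5013859475974199) (.br (nat_lit 1) (.cons (.br (nat_lit 2) (.cons (.rel (nat_lit 167772165)) .nil)) .nil)) .leaf) (nat_lit 5013859476238346) (.br (nat_lit 0) (.cons (.br (nat_lit 1) (.cons (.rel (nat_lit 41943108)) .nil)) .nil)) (.node .leaf (nat_lit 5013859476238523) (.br (nat_lit 0) (.cons (.br (nat_lit 1) (.cons (.rel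 (nat_lit 41943108)) .nil)) .nil)) .leaf)) (nat_lit 5013860016738314) (.br (nat_lit 5) (.cons (.br (nat_lit 1) (.cons (.rel (nat_lit 4311761184)) (.cons (.rel (nat_lit 4312006728)) .nil))) .nil)) (.node (.node .leaf (nat_lit 5013860016738431) (.br (nat_lit 0) (.cons (.br (nat_lit 3) (.cons (.rel (nat_lit 272892168)) .nil)) .nil)) .leaf) (nat_lit 5013860016738560) (.br (nat_lit 0) (.cons (.br (nat_lit 1) (.cons (.rel (nat_lit 21234948)) .nil)) .nil)) (.node .leaf (nat_lit 5013860016769079) (.br (nat_lit 0) (.cons (.br (nat_lit 1) (.cons (.rel (nat_lit 20971656)) .nil)) .nil)) .leaf))) (nat_lit 5013862697463833) (.br (nat_lit 2) (.cons (.br (nat_lit 4) (.cons (.rel (nat_lit 1140883524)) .nil)) .nil)) (.node (.node (.node .leaf (nat_lit 5013862699697633) (.br (nat_lit 0) (.cons (.br (nat_lit 6) (.cons (.rel (nat_lit 17184096513)) .nil)) .nil)) .leaf) (nat_lit 5014846764503050) (.br (nat_lit 0) (.cons (.br (nat_lit 6) (.cons (.rel (nat_lit 17184065544)) (.cons (.rel (nat_lit 17184330816))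 .nil))) (.cons (.br (nat_lit 5) (.cons (.rel (nat_lit 4299167760)) (.cons (.rel (nat_lit 4303618176)) (.cons (.rel (nat_lit 4299325440)) (.cons (.rel (nat_lit 4303360320)) .nil))))) .nil))) (.node .leaf (nat_lit 5014846764503167) (.br (nat_lit 0) (.cons (.br (nat_lit 6) (.cons (.rel (nat_lit 17184068100)) .nil)) .nil)) .leaf)) (nat_lit 5014846764504295) (.br (nat_lit 3) (.cons (.br (nat_lit 6) (.cons (.rel (nat_lit 17448308772)) .nil)) .nil)) (.node (.node .leaf (nat_lit 5014846764508663) (.br (nat_lit 2) (.cons (.br (nat_lit 4) (.cons (.rel (nat_lit 1141112970)) .nil)) .nil)) .leaf) (nat_lit 5014846764533785) (.br (nat_lit 5) (.cons (.br (nat_lit 0) (.cons (.rel (nat_lit 4299162900)) (.cons (.rel (nat_lit 4299161865)) (.cons (.rel (nat_lit 4299161865)) (.cons (.rel (nat_lit 4299178002)) .nil))))) (.cons (.br (nat_lit 0) (.cons (.rel (nat_lit 4299493440)) (.cons (.rel (nat_lit 4299167760)) (.cons (.rel (nat_lit 4299166725)) (.cons (.rel (nat_lit 4299162900)) .nil))))) .nil)))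 (.node .leaf (nat_lit 5014846764863674) (.br (nat_lit 5) (.cons (.br (nat_lit 2) (.cons (.rel (nat_lit 4362081348)) (.cons (.rel (nat_lit 8657059845)) .nil))) .nil)) .leaf)))) (nat_lit 5014846765008921) (.br (nat_lit 1) (.cons (.br (nat_lit 2) (.cons (.rel (nat_lit 83887125)) .nil)) .nil)) (.node (.node (.node (.node .leaf (nat_lit 5014846765068298) (.br (nat_lit 0) (.cons (.br (nat_lit 2) (.cons (.rel (nat_lit 138678288)) (.cons (.rel (nat_lit 71311368)) .nil))) .nil)) .leaf) (nat_lit 5014846765068313) (.br (nat_lit 0) (.cons (.br (nat_lit 2) (.cons (.rel (nat_lit 138678288)) (.cons (.rel (nat_lit 71335956)) (.cons (.rel (nat_lit 71311368)) (.cons (.rel (nat_lit 142610436)) .nil))))) .nil)) (.node .leaf (nat_lit 5014846765069213) (.br (nat_lit 0) (.cons (.br (nat_lit 2) (.cons (.rel (nat_lit 71335956)) .nil)) .nil)) .leaf)) (nat_lit 5014846765069714) (.br (nat_lit 2) (.cons (.br (nat_lit 5) (.cons (.rel (nat_lit 8724415488)) .nil)) .nil)) (.node (.node .leaf (nat_lit 5014846765836313)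 (.br (nat_lit 0) (.cons (.br (nat_lit 2) (.cons (.rel (nat_lit 142610436)) .nil)) .nil)) .leaf) (nat_lit 5014846766028810) (.br (nat_lit 6) (.cons (.br (nat_lit 3) (.cons (.rel (nat_lit 17448305937)) (.cons (.rel (nat_lit 17448305937)) .nil))) .nil)) (.node .leaf (nat_lit 5014846766029450) (.br (nat_lit 0) (.cons (.br (nat_lit 5) (.cons (.rel (nat_lit 4299325440)) .nil)) .nil)) .leaf))) (nat_lit 5014846766029580) (.br (nat_lit 0) (.cons (.br (nat_lit 2) (.cons (.rel (nat_lit 71304708)) .nil)) .nil)) (.node (.node (.node .leaf (nat_lit 5014846767302113) (.br (nat_lit 0) (.cons (.br (nat_lit 1) (.cons (.rel (nat_lit 37818372)) .nil)) .nil)) .leaf) (nat_lit 5014850442907658) (.br (nat_lit 0) (.cons (.br (nat_lit 1) (.cons (.rel (nat_lit 21234948)) .nil)) .nil)) (.node .leaf (nat_lit 5014850539407385) (.br (nat_lit 1) (.cons (.br (nat_lit 5) (.cons (.rel (nat_lit 4311826452)) .nil)) .nil)) .leaf)) (nat_lit 5014852744184733) (.br (nat_lit 0) (.cons (.br (nat_lit 1) (.cons (.rel (nat_lit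 21239808)) .nil)) .nil)) (.node (.node .leaf (nat_lit 5015972599883933) (.br (nat_lit 1) (.cons (.br (nat_lit 3) (.cons (.rel (nat_lit 301991940)) (.cons (.rel (nat_lit 302137344)) .nil))) .nil)) .leaf) (nat_lit 5015972600148125) (.br (nat_lit 1) (.cons (.br (nat_lit 3) (.cons (.rel (nat_lit 285606912)) .nil)) .nil)) (.node .leaf (nat_lit 5015973140678681) (.br (nat_lit 0) (.cons (.br (nat_lit 1) (.cons (.rel (nat_lit 22036992)) .nil)) .nil)) .leaf))))))

/-- refutations 37 -/
def e37 : EX := (.node (.node (.node (.node .leaf (nat_lit 5019356480729113) (.br (nat_lit 0) (.cons (.br (nat_lit 1) (.cons (.rel (nat_lit 21250050)) .nil)) .nil)) .leaf) (nat_lit 5019356480779127) (.br (nat_lit 0) (.cons (.br (nat_lit 1) (.cons (.rel (nat_lit 41943108)) .nil)) .nil)) .leaf) (nat_lit 5019359228959475) (.br (nat_lit 3) (.cons (.br (nat_lit 6) (.cons (.rel (nat_lit 17448305937)) .nil)) .nil)) (.node .leaf (nat_lit 5019360255603498) (.br (nat_lit 0) (.cons (.br (nat_lit 1) (.cons (.rel (nat_lit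 21239808)) .nil)) .nil)) .leaf)) (nat_lit 5021593155686410) (.br (nat_lit 0) (.cons (.br (nat_lit 2) (.cons (.rel (nat_lit 71311368)) (.cons (.rel (nat_lit 71309568)) .nil))) .nil)) (.node (.node (.node .leaf (nat_lit 5021593157060618) (.br (nat_lit 0) (.cons (.br (nat_lit 1) (.cons (.rel (nat_lit 25231365)) .nil)) .nil)) .leaf) (nat_lit 5021593157212170) (.br (nat_lit 2) (.cons (.br (nat_lit 4) (.cons (.rel (nat_lit 1208225856)) .nil)) .nil)) .leaf) (nat_lit 5026663693527050) (.br (nat_lit 6) (.cons (.br (nat_lit 2) (.cons (.rel (nat_lit 17247064128)) (.cons (.rel (nat_lit 34426851588)) (.cons (.rel (nat_lit 17247011136)) .nil)))) .nil)) (.node .leaf (nat_lit 5026663694397465) (.br (nat_lit 0) (.cons (.br (nat_lit 1) (.cons (.rel (nat_lit 25169922)) .nil)) .nil)) .leaf)))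

/-- refutations 38 -/
def e38 : EX := (.node (.node (.node (.node (.node (.node (.node (.node .leaf (nat_lit 5031451661717514) (.br (nat_lit 0) (.cons (.br (nat_lit 5) (.cons (.rel (nat_lit 4299161865)) (.cons (.rel (nat_lit 4299325440)) .nil))) .nil)) .leaf) (nat_lit 5031451661717631) (.br (nat_lit 0) (.cons (.br (nat_lit 5) (.cons (.rel (nat_lit 4299161865)) (.cons (.rel (nat_lit 4299325440)) .nil))) .nil)) (.node .leaf (nat_lit 5031451661717681) (.br (nat_lit 0) (.cons (.br (nat_lit 2) (.cons (.rel (nat_lit 71335956)) .nil)) .nil)) .leaf)) (nat_lit 5031451661957376) (.br (nat_lit 0) (.cons (.br (nat_lit 1) (.cons (.rel (nat_lit 41943108)) .nil)) .nil)) (.node (.node .leaf (nat_lit 5031459698003978) (.br (nat_lit 0) (.cons (.br (nat_lit 3) (.cons (.rel (nat_lit 276889620)) (.cons (.rel (nat_lit 272631936)) (.cons (.rel (nat_lit 272631936)) .nil)))) (.cons (.br (nat_lit 3) (.cons (.rel (nat_lit 545260608)) (.cons (.rel (nat_lit 272897028)) (.cons (.rel (nat_lit 272908305))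 .nil)))) (.cons (.br (nat_lit 3) (.cons (.rel (nat_lit 272631936)) (.cons (.rel (nat_lit 276840453)) (.cons (.rel (nat_lit 272892168)) .nil)))) .nil)))) .leaf) (nat_lit 5031459698003995) (.br (nat_lit 0) (.cons (.br (nat_lit 2) (.cons (.rel (nat_lit 71335956)) .nil)) .nil)) .leaf)) (nat_lit 5031459698004095) (.br (nat_lit 0) (.cons (.br (nat_lit 6) (.cons (.rel (nat_lit 17184210948)) .nil)) .nil)) (.node (.node (.node .leaf (nat_lit 5031459698004224) (.br (nat_lit 0) (.cons (.br (nat_lit 2) (.cons (.rel (nat_lit 75497538)) (.cons (.rel (nat_lit 142610436)) (.cons (.rel (nat_lit 71368977)) .nil)))) (.cons (.br (nat_lit 2) (.cons (.rel (nat_lit 71323680)) (.cons (.rel (nat_lit 71319810)) (.cons (.rel (nat_lit 71319810)) .nil)))) .nil))) .leaf) (nat_lit 5031459698038794) (.br (nat_lit 0) (.cons (.br (nat_lit 4) (.cons (.rel (nat_lit 2155937817)) .nil)) .nil)) (.node .leaf (nat_lit 5031459698038811) (.br (nat_lit 3) (.cons (.br (nat_lit 2) (.cons (.rel (nat_lit 335544345)) (.cons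 (.rel (nat_lit 337969152)) .nil))) .nil)) .leaf)) (nat_lit 5031459698098186) (.br (nat_lit 0) (.cons (.br (nat_lit 4) (.cons (.rel (nat_lit 1078018068)) .nil)) .nil)) (.node (.node .leaf (nat_lit 5031459698098232) (.br (nat_lit 2) (.cons (.br (nat_lit 6) (.cons (.rel (nat_lit 17246983761)) .nil)) .nil)) .leaf) (nat_lit 5031459698243594) (.br (nat_lit 4) (.cons (.br (nat_lit 0) (.cons (.rel (nat_lit 1077940488)) (.cons (.rel (nat_lit 2152726530)) (.cons (.rel (nat_lit 1077968901)) (.cons (.br (nat_lit 6) (.cons (.rel (nat_lit 17188274241)) (.cons (.rel (nat_lit 34364014737)) (.cons (.rel (nat_lit 17184064545)) (.cons (.rel (nat_lit 36507500544)) .nil))))) (.cons (.rel (nat_lit 1077968901)) .nil)))))) (.cons (.br (nat_lit 0) (.cons (.rel (nat_lit 1078001922)) (.cons (.rel (nat_lit 1078018068)) (.cons (.rel (nat_lit 1077938688)) (.cons (.rel (nat_lit 1077938688)) (.cons (.rel (nat_lit 1077945348)) .nil)))))) (.cons (.br (nat_lit 0) (.cons (.rel (nat_lit 1077968901)) (.cons (.rel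 (nat_lit 1077945348)) (.cons (.rel (nat_lit 2151940353)) (.cons (.rel (nat_lit 1077945348)) (.cons (.rel (nat_lit 2155873536)) .nil)))))) .nil)))) .leaf))) (nat_lit 5031459698243711) (.br (nat_lit 4) (.cons (.br (nat_lit 0) (.cons (.rel (nat_lit 1077940488)) (.cons (.rel (nat_lit 1077968901)) (.cons (.rel (nat_lit 1077968901)) (.cons (.rel (nat_lit 1077940488)) (.cons (.rel (nat_lit 1077938688)) (.cons (.rel (nat_lit 1077968901)) .nil))))))) .nil)) (.node (.node (.node (.node .leaf (nat_lit 5031459698243840) (.br (nat_lit 0) (.cons (.br (nat_lit 3) (.cons (.rel (nat_lit 272908305)) (.cons (.rel (nat_lit 272908305)) .nil))) (.cons (.br (nat_lit 1) (.cons (.rel (nat_lit 41943108)) (.cons (.rel (nat_lit 21250050)) (.cons (.rel (nat_lit 25166097)) .nil)))) .nil))) .leaf) (nat_lit 5031459698244336) (.br (nat_lit 0) (.cons (.br (nat_lit 3) (.cons (.rel (nat_lit 272892168)) .nil)) .nil)) (.node .leaf (nat_lit 5031459698244339) (.br (nat_lit 0) (.cons (.br (nat_lit 1) (.cons (.rel (nat_lit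 41943108)) .nil)) .nil)) .leaf)) (nat_lit 5031459698244364) (.br (nat_lit 2) (.cons (.br (nat_lit 3) (.cons (.rel (nat_lit 671089665)) .nil)) .nil)) (.node (.node .leaf (nat_lit 5031459698305181) (.br (nat_lit 3) (.cons (.br (nat_lit 2) (.cons (.rel (nat_lit 403702032)) (.cons (.rel (nat_lit 606208008)) .nil))) .nil)) .leaf) (nat_lit 5031459698507786) (.br (nat_lit 4) (.cons (.br (nat_lit 0) (.cons (.rel (nat_lit 2151678096)) (.cons (.rel (nat_lit 1077938688)) .nil))) .nil)) .leaf)) (nat_lit 5031459698507903) (.br (nat_lit 6) (.cons (.br (nat_lit 0) (.cons (.rel (nat_lit 34368128004)) (.cons (.rel (nat_lit 17184065544)) (.cons (.rel (nat_lit 34368128004)) .nil)))) .nil)) (.node (.node (.node .leaf (nat_lit 5031459698508032) (.br (nat_lit 2) (.cons (.br (nat_lit 3) (.cons (.rel (nat_lit 335822928)) .nil)) .nil)) .leaf) (nat_lit 5031459698572176) (.br (nat_lit 0) (.cons (.br (nat_lit 1) (.cons (.rel (nat_lit 21008532)) .nil)) .nil)) .leaf) (nat_lit 5031459698572689) (.br (nat_lit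 5) (.cons (.br (nat_lit 2) (.cons (.rel (nat_lit 4364238849)) (.cons (.br (nat_lit 3) (.cons (.rel (nat_lit 4563435540)) (.cons (.rel (nat_lit 335545380)) .nil))) .nil))) .nil)) (.node (.node .leaf (nat_lit 5031459698598163) (.br (nat_lit 3) (.cons (.br (nat_lit 5) (.cons (.rel (nat_lit 4563667008)) .nil)) .nil)) .leaf) (nat_lit 5031459699265546) (.br (nat_lit 0) (.cons (.br (nat_lit 1) (.cons (.rel (nat_lit 41943108)) (.cons (.rel (nat_lit 21234948)) .nil))) .nil)) .leaf)))) (nat_lit 5031459699266162) (.br (nat_lit 6) (.cons (.br (nat_lit 0) (.cons (.rel (nat_lit 17184065544)) (.cons (.rel (nat_lit 17188274241)) (.cons (.rel (nat_lit 17188299840)) .nil)))) .nil)) (.node (.node (.node (.node (.node .leaf (nat_lit 5031459699266291) (.br (nat_lit 6) (.cons (.br (nat_lit 0) (.cons (.rel (nat_lit 17184063510)) (.cons (.rel (nat_lit 17184210948)) .nil))) .nil)) .leaf) (nat_lit 5031459699266423) (.br (nat_lit 0) (.cons (.br (nat_lit 6) (.cons (.rel (nat_lit 17184210948)) .nil)) .nil))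 (.node .leaf (nat_lit 5031459699316746) (.br (nat_lit 0) (.cons (.br (nat_lit 4) (.cons (.rel (nat_lit 1077938688)) (.cons (.rel (nat_lit 1077945348)) .nil))) .nil)) .leaf)) (nat_lit 5031459699316863) (.br (nat_lit 0) (.cons (.br (nat_lit 1) (.cons (.rel (nat_lit 37765380)) (.cons (.rel (nat_lit 21239808)) .nil))) (.cons (.br (nat_lit 1) (.cons (.rel (nat_lit 21299217)) (.cons (.rel (nat_lit 41943108)) .nil))) .nil))) (.node (.node .leaf (nat_lit 5031459699317516) (.br (nat_lit 0) (.cons (.br (nat_lit 2) (.cons (.rel (nat_lit 71304708)) .nil)) .nil)) .leaf) (nat_lit 5031459699317541) (.br (nat_lit 0) (.cons (.br (nat_lit 1) (.cons (.rel (nat_lit 21250050)) .nil)) .nil)) .leaf)) (nat_lit 5031459699317673) (.br (nat_lit 0) (.cons (.br (nat_lit 4) (.cons (.rel (nat_lit 1077938688)) .nil)) .nil)) (.node (.node (.node .leaf (nat_lit 5031459699368063) (.br (nat_lit 1) (.cons (.br (nat_lit 0) (.cons (.rel (nat_lit 20971656)) (.cons (.rel (nat_lit 22347840)) (.cons (.rel (nat_lit 20971656))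 .nil)))) .nil)) .leaf) (nat_lit 5031459699368587) (.br (nat_lit 2) (.cons (.br (nat_lit 3) (.cons (.rel (nat_lit 671089665)) .nil)) .nil)) .leaf) (nat_lit 5031459699368691) (.br (nat_lit 0) (.cons (.br (nat_lit 2) (.cons (.rel (nat_lit 72417600)) .nil)) .nil)) (.node (.node .leaf (nat_lit 5031459699368716) (.br (nat_lit 0) (.cons (.br (nat_lit 4) (.cons (.rel (nat_lit 2155873536)) .nil)) .nil)) .leaf) (nat_lit 5031459699368823) (.br (nat_lit 0) (.cons (.br (nat_lit 6) (.cons (.rel (nat_lit 17184065544)) .nil)) .nil)) .leaf))) (nat_lit 5031459699530354) (.br (nat_lit 0) (.cons (.br (nat_lit 1) (.cons (.rel (nat_lit 21239808)) .nil)) .nil)) (.node (.node (.node (.node .leaf (nat_lit 5031459699530483) (.br (nat_lit 0) (.cons (.br (nat_lit 1) (.cons (.rel (nat_lit 37756929)) (.cons (.rel (nat_lit 37765380)) (.cons (.rel (nat_lit 21234948)) .nil)))) (.cons (.br (nat_lit 3) (.cons (.rel (nat_lit 272908305)) (.cons (.rel (nat_lit 276889620)) (.cons (.rel (nat_lit 272957472)) .nil))))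 .nil))) .leaf) (nat_lit 5031459699530508) (.br (nat_lit 3) (.cons (.br (nat_lit 1) (.cons (.rel (nat_lit 553656576)) (.cons (.rel (nat_lit 553656576)) .nil))) .nil)) (.node .leaf (nat_lit 5031459699530533) (.br (nat_lit 0) (.cons (.br (nat_lit 5) (.cons (.rel (nat_lit 8598405120)) .nil)) .nil)) .leaf)) (nat_lit 5031459699530615) (.br (nat_lit 6) (.cons (.br (nat_lit 0) (.cons (.rel (nat_lit 17184210948)) (.cons (.rel (nat_lit 17184096513)) .nil))) .nil)) (.node (.node .leaf (nat_lit 5031459699581579) (.br (nat_lit 6) (.cons (.br (nat_lit 3) (.cons (.rel (nat_lit 17448345600)) (.cons (.rel (nat_lit 34896629760)) .nil))) .nil)) .leaf) (nat_lit 5031459699581683) (.br (nat_lit 3) (.cons (.br (nat_lit 2) (.cons (.rel (nat_lit 335546370)) (.cons (.rel (nat_lit 604242048)) .nil))) .nil)) .leaf)) (nat_lit 5031459699581708) (.br (nat_lit 0) (.cons (.br (nat_lit 1) (.cons (.rel (nat_lit 21250050)) (.cons (.rel (nat_lit 37756929)) .nil))) (.cons (.br (nat_lit 4) (.cons (.rel (nat_lit 1078018068))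 (.cons (.rel (nat_lit 1077968901)) .nil))) .nil))) (.node (.node (.node .leaf (nat_lit 5031459699581733) (.br (nat_lit 1) (.cons (.br (nat_lit 5) (.cons (.rel (nat_lit 8606973984)) .nil)) .nil)) .leaf) (nat_lit 5031459699581865) (.br (nat_lit 0) (.cons (.br (nat_lit 2) (.cons (.rel (nat_lit 71368977)) .nil)) .nil)) .leaf) (nat_lit 5031459699788528) (.br (nat_lit 0) (.cons (.br (nat_lit 2) (.cons (.rel (nat_lit 71323680)) (.cons (.rel (nat_lit 142610436)) .nil))) .nil)) (.node (.node .leaf (nat_lit 5031459699789311) (.br (nat_lit 1) (.cons (.br (nat_lit 5) (.cons (.rel (nat_lit 4311777285)) (.cons (.rel (nat_lit 8623490304)) .nil))) .nil)) .leaf) (nat_lit 5031459699851274) (.br (nat_lit 4) (.cons (.br (nat_lit 5) (.cons (.rel (nat_lit 10737680388)) .nil)) .nil)) .leaf))))) (nat_lit 5031459699851890) (.br (nat_lit 1) (.cons (.br (nat_lit 3) (.cons (.rel (nat_lit 285229185)) .nil)) .nil)) (.node (.node (.node (.node (.node (.node .leaf (nat_lit 5031459699851915) (.br (nat_lit 0)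 (.cons (.br (nat_lit 2) (.cons (.rel (nat_lit 71323680)) (.cons (.rel (nat_lit 142610436)) .nil))) (.cons (.br (nat_lit 1) (.cons (.rel (nat_lit 21299217)) (.cons (.rel (nat_lit 21239808)) .nil))) .nil))) .leaf) (nat_lit 5031459700549094) (.br (nat_lit 4) (.cons (.br (nat_lit 6) (.cons (.rel (nat_lit 18254660736)) (.cons (.rel (nat_lit 18253693248)) .nil))) (.cons (.br (nat_lit 0) (.cons (.rel (nat_lit 1077940488)) (.cons (.rel (nat_lit 1077940488)) (.cons (.rel (nat_lit 1077940488)) .nil)))) .nil))) (.node .leaf (nat_lit 5031459701056139) (.br (nat_lit 2) (.cons (.br (nat_lit 5) (.cons (.rel (nat_lit 4362092625)) (.cons (.rel (nat_lit 4362602496)) .nil))) (.cons (.br (nat_lit 5) (.cons (.rel (nat_lit 8724415488)) (.cons (.rel (nat_lit 4429447233)) .nil))) .nil))) .leaf)) (nat_lit 5031459701056375) (.br (nat_lit 1) (.cons (.br (nat_lit 6) (.cons (.rel (nat_lit 17196651552)) .nil)) .nil)) (.node (.node .leaf (nat_lit 5031459701056425) (.br (nat_lit 1) (.cons (.br (nat_lit 2)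 (.cons (.rel (nat_lit 101187840)) .nil)) .nil)) .leaf) (nat_lit 5031459701158514) (.br (nat_lit 1) (.cons (.br (nat_lit 5) (.cons (.rel (nat_lit 4329046032)) .nil)) .nil)) .leaf)) (nat_lit 5031459701158539) (.br (nat_lit 1) (.cons (.br (nat_lit 3) (.cons (.rel (nat_lit 286326786)) (.cons (.rel (nat_lit 285507588)) .nil))) .nil)) (.node (.node (.node .leaf (nat_lit 5031459701159448) (.br (nat_lit 1) (.cons (.br (nat_lit 4) (.cons (.rel (nat_lit 1090519080)) .nil)) .nil)) .leaf) (nat_lit 5031459701161473) (.br (nat_lit 1) (.cons (.br (nat_lit 6) (.cons (.rel (nat_lit 17196651552)) .nil)) .nil)) (.node .leaf (nat_lit 5031460251652106) (.br (nat_lit 0) (.cons (.br (nat_lit 4) (.cons (.rel (nat_lit 1077940488)) .nil)) .nil)) .leaf)) (nat_lit 5031460251652223) (.br (nat_lit 0) (.cons (.br (nat_lit 4) (.cons (.rel (nat_lit 2151678096)) .nil)) .nil)) (.node (.node .leaf (nat_lit 5031460251652352) (.br (nat_lit 0) (.cons (.br (nat_lit 1) (.cons (.rel (nat_lit 21234948)) .nil)) .nil))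 .leaf) (nat_lit 5031460251891722) (.br (nat_lit 0) (.cons (.br (nat_lit 1) (.cons (.rel (nat_lit 21234948)) (.cons (.rel (nat_lit 25169922)) (.cons (.rel (nat_lit 21299217)) .nil)))) .nil)) .leaf))) (nat_lit 5031460251891839) (.br (nat_lit 4) (.cons (.br (nat_lit 1) (.cons (.rel (nat_lit 1090555908)) (.cons (.rel (nat_lit 1090519080)) (.cons (.rel (nat_lit 1090519080)) .nil)))) .nil)) (.node (.node (.node (.node .leaf (nat_lit 5031460252155914) (.br (nat_lit 0) (.cons (.br (nat_lit 2) (.cons (.rel (nat_lit 71304708)) (.cons (.rel (nat_lit 71335956)) .nil))) .nil)) .leaf) (nat_lit 5031460252156031) (.br (nat_lit 0) (.cons (.br (nat_lit 6) (.cons (.rel (nat_lit 17184065544)) .nil)) .nil)) (.node .leaf (nat_lit 5031460252914290) (.br (nat_lit 0) (.cons (.br (nat_lit 1) (.cons (.rel (nat_lit 21397536)) .nil)) .nil)) .leaf)) (nat_lit 5031460252965515) (.br (nat_lit 0) (.cons (.br (nat_lit 1) (.cons (.rel (nat_lit 21299217)) (.cons (.rel (nat_lit 21250050)) .nil))) (.cons (.br (nat_lit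 1) (.cons (.rel (nat_lit 21239808)) (.cons (.rel (nat_lit 21234948)) .nil))) .nil))) (.node (.node .leaf (nat_lit 5031460252965669) (.br (nat_lit 0) (.cons (.br (nat_lit 1) (.cons (.rel (nat_lit 41943108)) .nil)) .nil)) .leaf) (nat_lit 5031460253178611) (.br (nat_lit 0) (.cons (.br (nat_lit 1) (.cons (.rel (nat_lit 20971656)) (.cons (.rel (nat_lit 20971656)) .nil))) .nil)) .leaf)) (nat_lit 5031460253229707) (.br (nat_lit 0) (.cons (.br (nat_lit 4) (.cons (.rel (nat_lit 1077968901)) .nil)) .nil)) (.node (.node (.node .leaf (nat_lit 5031460253500304) (.br (nat_lit 1) (.cons (.br (nat_lit 3) (.cons (.rel (nat_lit 301994496)) .nil)) .nil)) .leaf) (nat_lit 5031460792717322) (.br (nat_lit 0) (.cons (.br (nat_lit 1) (.cons (.rel (nat_lit 22022160)) (.cons (.rel (nat_lit 37765380)) (.cons (.rel (nat_lit 21250050)) .nil)))) (.cons (.br (nat_lit 5) (.cons (.rel (nat_lit 8598405120)) (.cons (.rel (nat_lit 4299161865)) (.cons (.rel (nat_lit 4299325440)) .nil)))) (.cons (.br (nat_lit 1)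 (.cons (.rel (nat_lit 41943108)) (.cons (.rel (nat_lit 22022160)) (.cons (.rel (nat_lit 20971656)) .nil)))) .nil)))) .leaf) (nat_lit 5031460792717439) (.br (nat_lit 6) (.cons (.br (nat_lit 3) (.cons (.rel (nat_lit 17448697920)) (.cons (.rel (nat_lit 34896629760)) .nil))) .nil)) (.node (.node .leaf (nat_lit 5031460792717568) (.br (nat_lit 0) (.cons (.br (nat_lit 1) (.cons (.rel (nat_lit 21234948)) (.cons (.rel (nat_lit 37765380)) (.cons (.rel (nat_lit 21239808)) .nil)))) .nil)) .leaf) (nat_lit 5031460792717963) (.br (nat_lit 0) (.cons (.br (nat_lit 1) (.cons (.rel (nat_lit 20971656)) .nil)) .nil)) .leaf)))) (nat_lit 5031460792956938) (.br (nat_lit 0) (.cons (.br (nat_lit 5) (.cons (.rel (nat_lit 4299161865)) (.cons (.rel (nat_lit 4299235584)) (.cons (.rel (nat_lit 4299161865)) .nil)))) .nil)) (.node (.node (.node (.node (.node .leaf (nat_lit 5031460792957055) (.br (nat_lit 4) (.cons (.br (nat_lit 2) (.cons (.rel (nat_lit 1208057856)) (.cons (.rel (nat_lit 1208057856)) (.cons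 (.rel (nat_lit 1207960584)) .nil)))) .nil)) .leaf) (nat_lit 5031460792957184) (.br (nat_lit 3) (.cons (.br (nat_lit 6) (.cons (.rel (nat_lit 17448345600)) .nil)) .nil)) (.node .leaf (nat_lit 5031460793221130) (.br (nat_lit 0) (.cons (.br (nat_lit 4) (.cons (.rel (nat_lit 1077968901)) .nil)) .nil)) .leaf)) (nat_lit 5031460793221247) (.br (nat_lit 0) (.cons (.br (nat_lit 6) (.cons (.rel (nat_lit 17184065544)) (.cons (.rel (nat_lit 17184096513)) .nil))) .nil)) (.node (.node .leaf (nat_lit 5031460793978890) (.br (nat_lit 0) (.cons (.br (nat_lit 3) (.cons (.rel (nat_lit 272892168)) .nil)) .nil)) .leaf) (nat_lit 5031460793979506) (.br (nat_lit 0) (.cons (.br (nat_lit 5) (.cons (.rel (nat_lit 4299178002)) .nil)) .nil)) .leaf)) (nat_lit 5031460794030731) (.br (nat_lit 0) (.cons (.br (nat_lit 4) (.cons (.rel (nat_lit 1077968901)) (.cons (.rel (nat_lit 1077968901)) .nil))) .nil)) (.node (.node (.node .leaf (nat_lit 5031460794030967) (.br (nat_lit 0) (.cons (.br (nat_lit 4) (.cons (.rel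 (nat_lit 1077940488)) .nil)) .nil)) .leaf) (nat_lit 5031460794082167) (.br (nat_lit 0) (.cons (.br (nat_lit 1) (.cons (.rel (nat_lit 21239808)) .nil)) .nil)) .leaf) (nat_lit 5031460794243827) (.br (nat_lit 0) (.cons (.br (nat_lit 4) (.cons (.rel (nat_lit 1078198344)) (.cons (.rel (nat_lit 1079574528)) (.cons (.rel (nat_lit 1082130528)) (.cons (.rel (nat_lit 1077952800)) (.cons (.rel (nat_lit 1077968901)) (.cons (.rel (nat_lit 1077968901)) .nil))))))) .nil)) (.node (.node .leaf (nat_lit 5031460794243852) (.br (nat_lit 0) (.cons (.br (nat_lit 6) (.cons (.rel (nat_lit 34365063168)) (.cons (.rel (nat_lit 17184210948)) .nil))) .nil)) .leaf) (nat_lit 5031460794243959) (.br (nat_lit 0) (.cons (.br (nat_lit 1) (.cons (.rel (nat_lit 41943108)) .nil)) .nil)) .leaf))) (nat_lit 5031460794295052) (.br (nat_lit 0) (.cons (.br (nat_lit 3) (.cons (.rel (nat_lit 272908305)) (.cons (.rel (nat_lit 272908305)) (.cons (.rel (nat_lit 545260608)) (.cons (.rel (nat_lit 272892168)) .nil))))) .nil))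 (.node (.node (.node (.node .leaf (nat_lit 5031460794501872) (.br (nat_lit 0) (.cons (.br (nat_lit 2) (.cons (.rel (nat_lit 142610436)) .nil)) .nil)) .leaf) (nat_lit 5031460794565388) (.br (nat_lit 0) (.cons (.br (nat_lit 1) (.cons (.rel (nat_lit 25166097)) (.cons (.rel (nat_lit 21250050)) .nil))) .nil)) (.node .leaf (nat_lit 5031460794565545) (.br (nat_lit 0) (.cons (.br (nat_lit 3) (.cons (.rel (nat_lit 545260608)) .nil)) .nil)) .leaf)) (nat_lit 5031460795262438) (.br (nat_lit 1) (.cons (.br (nat_lit 5) (.cons (.rel (nat_lit 4311777285)) .nil)) .nil)) (.node (.node .leaf (nat_lit 5031460795886993) (.br (nat_lit 0) (.cons (.br (nat_lit 2) (.cons (.rel (nat_lit 71311368)) (.cons (.rel (nat_lit 142610436)) .nil))) .nil)) .leaf) (nat_lit 5031465075195960) (.br (nat_lit 0) (.cons (.br (nat_lit 2) (.cons (.rel (nat_lit 71319810)) .nil)) .nil)) .leaf)) (nat_lit 5031674551261240) (.br (nat_lit 1) (.cons (.br (nat_lit 0) (.cons (.rel (nat_lit 21250050)) (.cons (.rel (nat_lit 37756929))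 .nil))) .nil)) (.node (.node (.node .leaf (nat_lit 5031674551568394) (.br (nat_lit 0) (.cons (.br (nat_lit 5) (.cons (.rel (nat_lit 4299161865)) .nil)) .nil)) .leaf) (nat_lit 5031674551569035) (.br (nat_lit 0) (.cons (.br (nat_lit 5) (.cons (.rel (nat_lit 4299161865)) .nil)) .nil)) .leaf) (nat_lit 5031674551569919) (.br (nat_lit 3) (.cons (.br (nat_lit 4) (.cons (.rel (nat_lit 1342179360)) .nil)) .nil)) (.node (.node .leaf (nat_lit 5031674551730303) (.br (nat_lit 4) (.cons (.br (nat_lit 6) (.cons (.rel (nat_lit 19327369233)) .nil)) .nil)) .leaf) (nat_lit 5031674551738499) (.br (nat_lit 0) (.cons (.br (nat_lit 2) (.cons (.rel (nat_lit 138412161)) .nil)) .nil)) .leaf)))))) (nat_lit 5031674551794291) (.br (nat_lit 0) (.cons (.br (nat_lit 1) (.cons (.rel (nat_lit 21250050)) (.cons (.rel (nat_lit 21299217)) .nil))) (.cons (.br (nat_lit 1) (.cons (.rel (nat_lit 20971656)) (.cons (.rel (nat_lit 20971656)) .nil))) .nil))) (.node (.node (.node (.node (.node (.node (.node .leaf (nat_lit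 5031674552488123) (.br (nat_lit 0) (.cons (.br (nat_lit 1) (.cons (.rel (nat_lit 20971656)) .nil)) .nil)) .leaf) (nat_lit 5031674552488562) (.br (nat_lit 4) (.cons (.br (nat_lit 5) (.cons (.br (nat_lit 0) (.cons (.rel (nat_lit 4299227169)) (.cons (.rel (nat_lit 1077938688)) (.cons (.rel (nat_lit 1077969936)) .nil)))) (.cons (.rel (nat_lit 9663742992)) .nil))) .nil)) (.node .leaf (nat_lit 5031674552488741) (.br (nat_lit 0) (.cons (.br (nat_lit 4) (.cons (.rel (nat_lit 1077969936)) .nil)) .nil)) .leaf)) (nat_lit 5031674552488848) (.br (nat_lit 0) (.cons (.br (nat_lit 5) (.cons (.rel (nat_lit 4299167760)) .nil)) .nil)) (.node (.node .leaf (nat_lit 5031674552488873) (.br (nat_lit 0) (.cons (.br (nat_lit 1) (.cons (.rel (nat_lit 41943108)) .nil)) .nil)) .leaf) (nat_lit 5031674552539787) (.br (nat_lit 5) (.cons (.br (nat_lit 6) (.cons (.rel (nat_lit 21474844740)) (.cons (.rel (nat_lit 21474844740)) .nil))) (.cons (.br (nat_lit 0) (.cons (.rel (nat_lit 8594653248)) (.cons (.rel (nat_lit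 4299167760)) (.cons (.rel (nat_lit 4299166725)) (.cons (.rel (nat_lit 4299325440)) (.cons (.rel (nat_lit 8594653248)) .nil)))))) .nil))) .leaf)) (nat_lit 5031674552540023) (.br (nat_lit 0) (.cons (.br (nat_lit 3) (.cons (.rel (nat_lit 272908305)) .nil)) .nil)) (.node (.node (.node .leaf (nat_lit 5031674552540048) (.br (nat_lit 5) (.cons (.br (nat_lit 0) (.cons (.rel (nat_lit 4299227169)) (.cons (.rel (nat_lit 4303360320)) (.cons (.rel (nat_lit 8594653248)) (.cons (.rel (nat_lit 4299325440)) (.cons (.rel (nat_lit 4299182592)) .nil)))))) .nil)) .leaf) (nat_lit 5031674552590962) (.br (nat_lit 0) (.cons (.br (nat_lit 6) (.cons (.rel (nat_lit 17184065544)) .nil)) .nil)) (.node .leaf (nat_lit 5031674552590987) (.br (nat_lit 0) (.cons (.br (nat_lit 3) (.cons (.rel (nat_lit 272957472)) .nil)) .nil)) .leaf)) (nat_lit 5031674552591248) (.br (nat_lit 0) (.cons (.br (nat_lit 5) (.cons (.rel (nat_lit 4299167760)) .nil)) .nil)) (.node (.node .leaf (nat_lit 5031674552591273) (.br (nat_lit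 1) (.cons (.br (nat_lit 3) (.cons (.rel (nat_lit 301994496)) .nil)) .nil)) .leaf) (nat_lit 5031674552752883) (.br (nat_lit 4) (.cons (.br (nat_lit 0) (.cons (.rel (nat_lit 1078198344)) (.cons (.rel (nat_lit 2155873536)) (.cons (.rel (nat_lit 1077945348)) (.cons (.rel (nat_lit 1077969936)) .nil))))) .nil)) .leaf))) (nat_lit 5031674552752933) (.br (nat_lit 0) (.cons (.br (nat_lit 1) (.cons (.rel (nat_lit 37770240)) .nil)) .nil)) (.node (.node (.node (.node .leaf (nat_lit 5031674552753688) (.br (nat_lit 0) (.cons (.br (nat_lit 3) (.cons (.rel (nat_lit 541082880)) .nil)) .nil)) .leaf) (nat_lit 5031674552803979) (.br (nat_lit 5) (.cons (.br (nat_lit 0) (.cons (.rel (nat_lit 4299227169)) (.cons (.rel (nat_lit 4299227169)) (.cons (.rel (nat_lit 4299325440)) (.cons (.rel (nat_lit 8594653248)) .nil))))) .nil)) (.node .leaf (nat_lit 5031674552804083) (.br (nat_lit 0) (.cons (.br (nat_lit 1) (.cons (.rel (nat_lit 37770240)) .nil)) .nil)) .leaf)) (nat_lit 5031674552804133) (.br (nat_lit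 0) (.cons (.br (nat_lit 4) (.cons (.rel (nat_lit 1077956625)) .nil)) .nil)) (.node (.node .leaf (nat_lit 5031674552804240) (.br (nat_lit 5) (.cons (.br (nat_lit 0) (.cons (.br (nat_lit 1) (.cons (.rel (nat_lit 21250050)) (.cons (.rel (nat_lit 25232400)) .nil))) (.cons (.rel (nat_lit 8594653248)) .nil))) .nil)) .leaf) (nat_lit 5031674552804265) (.br (nat_lit 0) (.cons (.br (nat_lit 1) (.cons (.rel (nat_lit 25183233)) .nil)) .nil)) .leaf)) (nat_lit 5031674553010928) (.br (nat_lit 2) (.cons (.br (nat_lit 1) (.cons (.rel (nat_lit 150999168)) (.cons (.rel (nat_lit 83887125)) (.cons (.rel (nat_lit 83920128)) .nil)))) .nil)) (.node (.node (.node .leaf (nat_lit 5031674553074315) (.br (nat_lit 1) (.cons (.br (nat_lit 5) (.cons (.br (nat_lit 0) (.cons (.rel (nat_lit 25232400)) (.cons (.rel (nat_lit 8594653248)) .nil))) .nil)) .nil)) .leaf) (nat_lit 5031674553074576) (.br (nat_lit 5) (.cons (.br (nat_lit 2) (.cons (.rel (nat_lit 4362602496)) (.cons (.br (nat_lit 3) (.cons (.rel (nat_lit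 335546370)) (.cons (.rel (nat_lit 4563423264)) .nil))) .nil))) .nil)) .leaf) (nat_lit 5031674553820673) (.br (nat_lit 1) (.cons (.br (nat_lit 5) (.cons (.rel (nat_lit 4311810306)) (.cons (.rel (nat_lit 4311747072)) .nil))) .nil)) (.node (.node .leaf (nat_lit 5031674553828754) (.br (nat_lit 3) (.cons (.br (nat_lit 1) (.cons (.rel (nat_lit 285499905)) (.cons (.rel (nat_lit 553648161)) .nil))) .nil)) .leaf) (nat_lit 5031674554047890) (.br (nat_lit 0) (.cons (.br (nat_lit 4) (.cons (.rel (nat_lit 1077940488)) .nil)) .nil)) .leaf)))) (nat_lit 5031674554127762) (.br (nat_lit 1) (.cons (.br (nat_lit 6) (.cons (.rel (nat_lit 17196683520)) .nil)) .nil)) (.node (.node (.node (.node (.node .leaf (nat_lit 5031674554278539) (.br (nat_lit 5) (.cons (.br (nat_lit 0) (.cons (.rel (nat_lit 4299227169)) (.cons (.rel (nat_lit 8594653248)) .nil))) .nil)) .leaf) (nat_lit 5031674554278774) (.br (nat_lit 0) (.cons (.br (nat_lit 2) (.cons (.rel (nat_lit 142606614)) .nil)) .nil)) (.node .leaf (nat_lit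 5031674554380544) (.br (nat_lit 0) (.cons (.br (nat_lit 4) (.cons (.rel (nat_lit 2155873536)) .nil)) .nil)) .leaf)) (nat_lit 5031674554380914) (.br (nat_lit 5) (.cons (.br (nat_lit 0) (.cons (.rel (nat_lit 4299325440)) (.cons (.rel (nat_lit 4299182592)) .nil))) .nil)) (.node (.node .leaf (nat_lit 5031675106136690) (.br (nat_lit 0) (.cons (.br (nat_lit 3) (.cons (.rel (nat_lit 272631936)) .nil)) .nil)) .leaf) (nat_lit 5031675106136951) (.br (nat_lit 0) (.cons (.br (nat_lit 5) (.cons (.rel (nat_lit 4299227169)) .nil)) .nil)) .leaf)) (nat_lit 5031675106187915) (.br (nat_lit 5) (.cons (.br (nat_lit 0) (.cons (.rel (nat_lit 4299166725)) (.cons (.rel (nat_lit 8594653248)) (.cons (.rel (nat_lit 8594653248)) .nil)))) .nil)) (.node (.node (.node .leaf (nat_lit 5031675106188044) (.br (nat_lit 1) (.cons (.br (nat_lit 3) (.cons (.rel (nat_lit 286277664)) .nil)) .nil)) .leaf) (nat_lit 5031675106188176) (.br (nat_lit 1) (.cons (.br (nat_lit 5) (.cons (.br (nat_lit 0) (.cons (.rel (nat_lit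 25231365)) (.cons (.rel (nat_lit 4299325440)) (.cons (.rel (nat_lit 25183233)) .nil)))) .nil)) .nil)) .leaf) (nat_lit 5031675106452107) (.br (nat_lit 0) (.cons (.br (nat_lit 1) (.cons (.rel (nat_lit 20971656)) (.cons (.rel (nat_lit 25183233)) .nil))) (.cons (.br (nat_lit 5) (.cons (.rel (nat_lit 4299227169)) (.cons (.rel (nat_lit 4299325440)) .nil))) .nil))) (.node (.node .leaf (nat_lit 5031675106452368) (.br (nat_lit 5) (.cons (.br (nat_lit 0) (.cons (.rel (nat_lit 4299162900)) (.cons (.rel (nat_lit 4299325440)) (.cons (.rel (nat_lit 8594653248)) (.cons (.rel (nat_lit 4299167760)) .nil))))) .nil)) .leaf) (nat_lit 5031675106722443) (.br (nat_lit 1) (.cons (.br (nat_lit 5) (.cons (.br (nat_lit 0) (.cons (.rel (nat_lit 41943108)) (.cons (.rel (nat_lit 4299325440)) (.cons (.rel (nat_lit 25232400)) (.cons (.rel (nat_lit 21239808)) .nil))))) .nil)) .nil)) .leaf))) (nat_lit 5031675106722704) (.br (nat_lit 3) (.cons (.br (nat_lit 2) (.cons (.rel (nat_lit 335546370)) (.cons (.rel (nat_lit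 335546370)) .nil))) .nil)) (.node (.node (.node (.node .leaf (nat_lit 5031675645939968) (.br (nat_lit 5) (.cons (.br (nat_lit 0) (.cons (.rel (nat_lit 4299161865)) (.cons (.rel (nat_lit 4299167760)) (.cons (.rel (nat_lit 4299325440)) .nil)))) .nil)) .leaf) (nat_lit 5031675645940338) (.br (nat_lit 1) (.cons (.br (nat_lit 2) (.cons (.rel (nat_lit 100671552)) .nil)) .nil)) (.node .leaf (nat_lit 5031675646251788) (.br (nat_lit 1) (.cons (.br (nat_lit 2) (.cons (.rel (nat_lit 83920128)) .nil)) .nil)) .leaf)) (nat_lit 5031675646443647) (.br (nat_lit 4) (.cons (.br (nat_lit 1) (.cons (.rel (nat_lit 1090535937)) (.cons (.rel (nat_lit 2181038100)) (.cons (.rel (nat_lit 2181038100)) .nil)))) .nil)) (.node (.node .leaf (nat_lit 5031675646508433) (.br (nat_lit 1) (.cons (.br (nat_lit 3) (.cons (.rel (nat_lit 285540609)) .nil)) .nil)) .leaf) (nat_lit 5031675647201906) (.br (nat_lit 0) (.cons (.br (nat_lit 4) (.cons (.rel (nat_lit 1077969936)) (.cons (.rel (nat_lit 2155873536)) .nil))) .nil))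 .leaf)) (nat_lit 5031675647202085) (.br (nat_lit 0) (.cons (.br (nat_lit 1) (.cons (.rel (nat_lit 21250050)) .nil)) .nil)) (.node (.node (.node .leaf (nat_lit 5031675647202167) (.br (nat_lit 5) (.cons (.br (nat_lit 0) (.cons (.rel (nat_lit 4299325440)) (.cons (.rel (nat_lit 4299166725)) .nil))) .nil)) .leaf) (nat_lit 5031675647202192) (.br (nat_lit 3) (.cons (.br (nat_lit 0) (.cons (.rel (nat_lit 273699072)) (.cons (.rel (nat_lit 276824352)) .nil))) .nil)) .leaf) (nat_lit 5031675647202217) (.br (nat_lit 0) (.cons (.br (nat_lit 4) (.cons (.rel (nat_lit 1077938688)) .nil)) .nil)) (.node (.node .leaf (nat_lit 5031675647253131) (.br (nat_lit 5) (.cons (.br (nat_lit 0) (.cons (.rel (nat_lit 4299235584)) (.cons (.rel (nat_lit 8594653248)) (.cons (.rel (nat_lit 4299325440)) .nil)))) .nil)) .leaf) (nat_lit 5031675647253260) (.br (nat_lit 1) (.cons (.br (nat_lit 3) (.cons (.rel (nat_lit 301994496)) (.cons (.rel (nat_lit 285254784)) .nil))) .nil)) .leaf))))) (nat_lit 5031675647253392)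 (.br (nat_lit 5) (.cons (.br (nat_lit 2) (.cons (.rel (nat_lit 4429189377)) (.cons (.rel (nat_lit 4362081348)) (.cons (.rel (nat_lit 4362092625)) (.cons (.rel (nat_lit 8724415488)) (.cons (.rel (nat_lit 4362602496)) (.cons (.br (nat_lit 0) (.cons (.rel (nat_lit 8598405120)) (.cons (.rel (nat_lit 4299235584)) (.cons (.rel (nat_lit 8594653248)) (.cons (.rel (nat_lit 4366532610)) (.cons (.rel (nat_lit 4299182592)) (.cons (.rel (nat_lit 4370465793)) .nil))))))) .nil))))))) .nil)) (.node (.node (.node (.node (.node (.node .leaf (nat_lit 5031675647253417) (.br (nat_lit 0) (.cons (.br (nat_lit 4) (.cons (.rel (nat_lit 1077945348)) .nil)) .nil)) .leaf) (nat_lit 5031675647265529) (.br (nat_lit 0) (.cons (.br (nat_lit 3) (.cons (.rel (nat_lit 272892168)) .nil)) .nil)) (.node .leaf (nat_lit 5031675647304617) (.br (nat_lit 0) (.cons (.br (nat_lit 3) (.cons (.rel (nat_lit 545260608)) .nil)) .nil)) .leaf)) (nat_lit 5031675647466227) (.br (nat_lit 4) (.cons (.br (nat_lit 5) (.cons (.rel (nat_lit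 5368725570)) (.cons (.rel (nat_lit 5369823360)) .nil))) (.cons (.br (nat_lit 6) (.cons (.rel (nat_lit 18254660736)) (.cons (.rel (nat_lit 18254168064)) .nil))) .nil))) (.node (.node .leaf (nat_lit 5031675647466359) (.br (nat_lit 0) (.cons (.br (nat_lit 1) (.cons (.rel (nat_lit 25169922)) .nil)) .nil)) .leaf) (nat_lit 5031675647466409) (.br (nat_lit 0) (.cons (.br (nat_lit 1) (.cons (.rel (nat_lit 41943108)) (.cons (.rel (nat_lit 22089984)) .nil))) .nil)) .leaf)) (nat_lit 5031675647466858) (.br (nat_lit 0) (.cons (.br (nat_lit 3) (.cons (.rel (nat_lit 272897028)) .nil)) .nil)) (.node (.node (.node .leaf (nat_lit 5031675647517323) (.br (nat_lit 5) (.cons (.br (nat_lit 0) (.cons (.rel (nat_lit 8598405120)) (.cons (.rel (nat_lit 8594653248)) (.cons (.rel (nat_lit 8594653248)) (.cons (.rel (nat_lit 8594653248)) .nil))))) .nil)) .leaf) (nat_lit 5031675647517452) (.br (nat_lit 3) (.cons (.br (nat_lit 5) (.cons (.rel (nat_lit 4563667008)) .nil)) .nil)) (.node .leaf (nat_lit 5031675647517584)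 (.br (nat_lit 5) (.cons (.br (nat_lit 0) (.cons (.rel (nat_lit 4299162900)) (.cons (.br (nat_lit 4) (.cons (.rel (nat_lit 1077969936)) (.cons (.rel (nat_lit 1077969936)) .nil))) (.cons (.rel (nat_lit 4299325440)) .nil)))) .nil)) .leaf)) (nat_lit 5031675647724272) (.br (nat_lit 2) (.cons (.br (nat_lit 5) (.cons (.rel (nat_lit 4364238849)) (.cons (.rel (nat_lit 4429185552)) .nil))) (.cons (.br (nat_lit 1) (.cons (.rel (nat_lit 167772165)) (.cons (.rel (nat_lit 83902992)) (.cons (.rel (nat_lit 167772165)) .nil)))) .nil))) (.node (.node .leaf (nat_lit 5031675647787659) (.br (nat_lit 1) (.cons (.br (nat_lit 5) (.cons (.br (nat_lit 0) (.cons (.rel (nat_lit 41943108)) (.cons (.rel (nat_lit 8594653248)) (.cons (.rel (nat_lit 4299325440)) .nil)))) .nil)) .nil)) .leaf) (nat_lit 5031675647787788) (.br (nat_lit 1) (.cons (.br (nat_lit 3) (.cons (.rel (nat_lit 301994496)) (.cons (.rel (nat_lit 301994496)) (.cons (.rel (nat_lit 302137344)) .nil)))) .nil)) .leaf))) (nat_lit 5031675647787920)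 (.br (nat_lit 3) (.cons (.br (nat_lit 0) (.cons (.rel (nat_lit 541327425)) (.cons (.rel (nat_lit 272631936)) .nil))) .nil)) (.node (.node (.node (.node .leaf (nat_lit 5031675648533232) (.br (nat_lit 1) (.cons (.br (nat_lit 5) (.cons (.rel (nat_lit 4311747072)) .nil)) .nil)) .leaf) (nat_lit 5031675648761063) (.br (nat_lit 4) (.cons (.br (nat_lit 6) (.cons (.rel (nat_lit 18253612113)) .nil)) .nil)) (.node .leaf (nat_lit 5031679841557417) (.br (nat_lit 0) (.cons (.br (nat_lit 1) (.cons (.rel (nat_lit 22022160)) .nil)) .nil)) .leaf)) (nat_lit 5031837655126026) (.br (nat_lit 3) (.cons (.br (nat_lit 4) (.cons (.rel (nat_lit 1342312452)) (.cons (.rel (nat_lit 1342177290)) (.cons (.rel (nat_lit 2684354565)) .nil)))) .nil)) (.node (.node .leaf (nat_lit 5031837655126272) (.br (nat_lit 3) (.cons (.br (nat_lit 0) (.cons (.rel (nat_lit 272957472)) (.cons (.rel (nat_lit 272957472)) .nil))) .nil)) .leaf) (nat_lit 5031837655630080) (.br (nat_lit 0) (.cons (.br (nat_lit 1) (.cons (.rel (nat_lit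 37818372)) (.cons (.rel (nat_lit 20971656)) .nil))) (.cons (.br (nat_lit 3) (.cons (.rel (nat_lit 272957472)) (.cons (.rel (nat_lit 272892168)) .nil))) .nil))) .leaf)) (nat_lit 5031889405762448) (.br (nat_lit 0) (.cons (.br (nat_lit 1) (.cons (.rel (nat_lit 41943108)) .nil)) .nil)) (.node (.node (.node .leaf (nat_lit 5031889405975154) (.br (nat_lit 1) (.cons (.br (nat_lit 3) (.cons (.rel (nat_lit 301994496)) .nil)) .nil)) .leaf) (nat_lit 5031889405975333) (.br (nat_lit 3) (.cons (.br (nat_lit 4) (.cons (.rel (nat_lit 2415919488)) .nil)) .nil)) .leaf) (nat_lit 5031889406026508) (.br (nat_lit 0) (.cons (.br (nat_lit 1) (.cons (.rel (nat_lit 21239808)) .nil)) .nil)) (.node (.node .leaf (nat_lit 5031889406296844) (.br (nat_lit 0) (.cons (.br (nat_lit 2) (.cons (.rel (nat_lit 138690564)) .nil)) .nil)) .leaf) (nat_lit 5031889406335728) (.br (nat_lit 0) (.cons (.br (nat_lit 1) (.cons (.rel (nat_lit 41948736)) .nil)) .nil)) .leaf)))) (nat_lit 5031889959410315) (.br (nat_lit 0) (.cons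 (.br (nat_lit 1) (.cons (.rel (nat_lit 25231365)) .nil)) .nil)) (.node (.node (.node (.node (.node .leaf (nat_lit 5031890499162368) (.br (nat_lit 1) (.cons (.br (nat_lit 0) (.cons (.rel (nat_lit 41943108)) (.cons (.rel (nat_lit 22021125)) (.cons (.rel (nat_lit 21234948)) .nil)))) .nil)) .leaf) (nat_lit 5031890500424306) (.br (nat_lit 0) (.cons (.br (nat_lit 3) (.cons (.rel (nat_lit 273956928)) .nil)) .nil)) (.node .leaf (nat_lit 5031890500475817) (.br (nat_lit 0) (.cons (.br (nat_lit 1) (.cons (.rel (nat_lit 22022160)) .nil)) .nil)) .leaf)) (nat_lit 5031890501010188) (.br (nat_lit 0) (.cons (.br (nat_lit 4) (.cons (.rel (nat_lit 1078068225)) .nil)) .nil)) (.node (.node .leaf (nat_lit 5032868657231882) (.br (nat_lit 4) (.cons (.br (nat_lit 5) (.cons (.rel (nat_lit 9663741957)) .nil)) .nil)) .leaf) (nat_lit 5032868658254711) (.br (nat_lit 0) (.cons (.br (nat_lit 5) (.cons (.rel (nat_lit 4299166725)) .nil)) .nil)) .leaf)) (nat_lit 5032868658305936) (.br (nat_lit 1) (.cons (.br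 (nat_lit 2) (.cons (.rel (nat_lit 167772165)) .nil)) .nil)) (.node (.node (.node .leaf (nat_lit 5032868658356979) (.br (nat_lit 0) (.cons (.br (nat_lit 3) (.cons (.rel (nat_lit 272897028)) .nil)) .nil)) .leaf) (nat_lit 5032868658518642) (.br (nat_lit 5) (.cons (.br (nat_lit 0) (.cons (.rel (nat_lit 4299161865)) (.cons (.rel (nat_lit 4299325440)) .nil))) .nil)) .leaf) (nat_lit 5032868658518771) (.br (nat_lit 0) (.cons (.br (nat_lit 3) (.cons (.rel (nat_lit 541069569)) .nil)) .nil)) (.node (.node .leaf (nat_lit 5032868658518796) (.br (nat_lit 0) (.cons (.br (nat_lit 2) (.cons (.rel (nat_lit 71309568)) .nil)) .nil)) .leaf) (nat_lit 5032868658518821) (.br (nat_lit 0) (.cons (.br (nat_lit 1) (.cons (.rel (nat_lit 41943108)) .nil)) .nil)) .leaf))) (nat_lit 5032868658840178) (.br (nat_lit 0) (.cons (.br (nat_lit 1) (.cons (.rel (nat_lit 21239808)) .nil)) .nil)) (.node (.node (.node (.node .leaf (nat_lit 5032868658840464) (.br (nat_lit 0) (.cons (.br (nat_lit 1) (.cons (.rel (nat_lit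 37765380)) .nil)) .nil)) .leaf) (nat_lit 5032869211902757) (.br (nat_lit 0) (.cons (.br (nat_lit 3) (.cons (.rel (nat_lit 273679380)) .nil)) .nil)) (.node .leaf (nat_lit 5032869211954039) (.br (nat_lit 0) (.cons (.br (nat_lit 2) (.cons (.rel (nat_lit 71304708)) .nil)) .nil)) .leaf)) (nat_lit 5032869212005003) (.br (nat_lit 0) (.cons (.br (nat_lit 3) (.cons (.rel (nat_lit 272908305)) .nil)) .nil)) (.node (.node .leaf (nat_lit 5032869212005107) (.br (nat_lit 0) (.cons (.br (nat_lit 2) (.cons (.rel (nat_lit 71304708)) .nil)) .nil)) .leaf) (nat_lit 5032869212166924) (.br (nat_lit 0) (.cons (.br (nat_lit 2) (.cons (.rel (nat_lit 71309568)) .nil)) .nil)) .leaf)) (nat_lit 5032869212217995) (.br (nat_lit 2) (.cons (.br (nat_lit 3) (.cons (.rel (nat_lit 671089665)) .nil)) .nil)) (.node (.node (.node .leaf (nat_lit 5032869212218099) (.br (nat_lit 2) (.cons (.br (nat_lit 3) (.cons (.rel (nat_lit 671089665)) .nil)) .nil)) .leaf) (nat_lit 5032869212218124) (.br (nat_lit 0) (.cons (.br (nat_lit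 1) (.cons (.rel (nat_lit 37756929)) .nil)) .nil)) .leaf) (nat_lit 5032869752968055) (.br (nat_lit 0) (.cons (.br (nat_lit 5) (.cons (.rel (nat_lit 4299166725)) .nil)) .nil)) (.node (.node .leaf (nat_lit 5032869753019280) (.br (nat_lit 0) (.cons (.br (nat_lit 1) (.cons (.rel (nat_lit 22021125)) .nil)) .nil)) .leaf) (nat_lit 5032869754299905) (.br (nat_lit 1) (.cons (.br (nat_lit 3) (.cons (.rel (nat_lit 285302916)) .nil)) .nil)) .leaf)))))))

/-- refutations 39 -/
def e39 : EX := (.node (.node (.node (.node (.node (.node (.node .leaf (nat_lit 5033572821913610) (.br (nat_lit 2) (.cons (.br (nat_lit 4) (.cons (.rel (nat_lit 1208057856)) .nil)) .nil)) .leaf) (nat_lit 5033572821913856) (.br (nat_lit 4) (.cons (.br (nat_lit 5) (.cons (.rel (nat_lit 5369233416)) (.cons (.rel (nat_lit 9663741957)) (.cons (.rel (nat_lit 10737680388)) (.cons (.rel (nat_lit 5369233416)) .nil))))) .nil)) .leaf) (nat_lit 5033572822153226) (.br (nat_lit 4) (.cons (.br (nat_lit 0) (.cons (.rel (nat_lit 1077940488))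 (.cons (.rel (nat_lit 1077940488)) .nil))) .nil)) (.node (.node .leaf (nat_lit 5033572822153343) (.br (nat_lit 4) (.cons (.br (nat_lit 0) (.cons (.rel (nat_lit 2151678096)) (.cons (.rel (nat_lit 1078018068)) .nil))) .nil)) .leaf) (nat_lit 5033572822417535) (.br (nat_lit 4) (.cons (.br (nat_lit 6) (.cons (.br (nat_lit 0) (.cons (.rel (nat_lit 1078018068)) (.cons (.br (nat_lit 1) (.cons (.rel (nat_lit 1090519080)) (.cons (.rel (nat_lit 22021125)) (.cons (.rel (nat_lit 2165374980)) .nil)))) (.cons (.rel (nat_lit 1078018068)) .nil)))) .nil)) .nil)) .leaf)) (nat_lit 5033572822417664) (.br (nat_lit 0) (.cons (.br (nat_lit 4) (.cons (.rel (nat_lit 1077938688)) .nil)) .nil)) (.node (.node (.node .leaf (nat_lit 5033572822481783) (.br (nat_lit 1) (.cons (.br (nat_lit 2) (.cons (.rel (nat_lit 86007936)) .nil)) .nil)) .leaf) (nat_lit 5033572823176055) (.br (nat_lit 6) (.cons (.br (nat_lit 0) (.cons (.rel (nat_lit 17184063510)) (.cons (.rel (nat_lit 17184210948)) .nil))) .nil)) .leaf) (nat_lit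 5033572823227280) (.br (nat_lit 0) (.cons (.br (nat_lit 2) (.cons (.rel (nat_lit 71323680)) .nil)) .nil)) (.node .leaf (nat_lit 5033572823439986) (.br (nat_lit 1) (.cons (.br (nat_lit 0) (.cons (.rel (nat_lit 21250050)) (.cons (.rel (nat_lit 25329684)) .nil))) .nil)) .leaf))) (nat_lit 5033573375561984) (.br (nat_lit 4) (.cons (.br (nat_lit 2) (.cons (.rel (nat_lit 1208057856)) (.cons (.rel (nat_lit 1208057856)) .nil))) .nil)) (.node (.node (.node (.node .leaf (nat_lit 5033573375801354) (.br (nat_lit 4) (.cons (.br (nat_lit 5) (.cons (.rel (nat_lit 5368807752)) (.cons (.rel (nat_lit 5369233416)) .nil))) .nil)) .leaf) (nat_lit 5033573375801471) (.br (nat_lit 0) (.cons (.br (nat_lit 1) (.cons (.rel (nat_lit 25231365)) (.cons (.rel (nat_lit 22347840)) (.cons (.rel (nat_lit 37756929)) .nil)))) (.cons (.br (nat_lit 4) (.cons (.rel (nat_lit 1077938688)) (.cons (.rel (nat_lit 1077952800)) .nil))) .nil))) .leaf) (nat_lit 5033573376065663) (.br (nat_lit 4) (.cons (.br (nat_lit 1) (.cons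 (.rel (nat_lit 1090519080)) (.cons (.rel (nat_lit 1090555908)) (.cons (.rel (nat_lit 1090519080)) .nil)))) .nil)) (.node .leaf (nat_lit 5033573376065792) (.br (nat_lit 4) (.cons (.br (nat_lit 0) (.cons (.rel (nat_lit 2151678096)) (.cons (.rel (nat_lit 1077940488)) .nil))) .nil)) .leaf)) (nat_lit 5033573376824183) (.br (nat_lit 0) (.cons (.br (nat_lit 2) (.cons (.rel (nat_lit 71335956)) (.cons (.rel (nat_lit 142610436)) (.cons (.rel (nat_lit 71323680)) .nil)))) .nil)) (.node (.node (.node .leaf (nat_lit 5033573377088114) (.br (nat_lit 0) (.cons (.br (nat_lit 3) (.cons (.rel (nat_lit 545260608)) .nil)) .nil)) .leaf) (nat_lit 5033573377088375) (.br (nat_lit 0) (.cons (.br (nat_lit 3) (.cons (.rel (nat_lit 272892168)) .nil)) .nil)) .leaf) (nat_lit 5033573377139600) (.br (nat_lit 0) (.cons (.br (nat_lit 2) (.cons (.rel (nat_lit 71386113)) .nil)) .nil)) (.node .leaf (nat_lit 5033573916626954) (.br (nat_lit 0) (.cons (.br (nat_lit 4) (.cons (.rel (nat_lit 2151678096)) .nil)) .nil))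 .leaf)))) (nat_lit 5033573916627200) (.br (nat_lit 0) (.cons (.br (nat_lit 1) (.cons (.rel (nat_lit 22021125)) (.cons (.rel (nat_lit 41943108)) (.cons (.rel (nat_lit 37756929)) .nil)))) .nil)) (.node (.node (.node (.node (.node .leaf (nat_lit 5033573916866570) (.br (nat_lit 0) (.cons (.br (nat_lit 6) (.cons (.rel (nat_lit 17184065544)) .nil)) .nil)) .leaf) (nat_lit 5033573917130879) (.br (nat_lit 4) (.cons (.br (nat_lit 0) (.cons (.rel (nat_lit 1077968901)) (.cons (.rel (nat_lit 1077940488)) .nil))) .nil)) .leaf) (nat_lit 5033573917131008) (.br (nat_lit 0) (.cons (.br (nat_lit 5) (.cons (.rel (nat_lit 4299161865)) (.cons (.rel (nat_lit 4299161865)) (.cons (.rel (nat_lit 4299166725)) .nil)))) .nil)) (.node (.node .leaf (nat_lit 5033573917889399) (.br (nat_lit 0) (.cons (.br (nat_lit 1) (.cons (.rel (nat_lit 20971656)) .nil)) .nil)) .leaf) (nat_lit 5033573917940363) (.br (nat_lit 0) (.cons (.br (nat_lit 1) (.cons (.rel (nat_lit 21234948)) .nil)) .nil)) .leaf)) (nat_lit 5033573917940624)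 (.br (nat_lit 0) (.cons (.br (nat_lit 4) (.cons (.rel (nat_lit 1078018068)) .nil)) .nil)) (.node (.node (.node .leaf (nat_lit 5033573918153330) (.br (nat_lit 0) (.cons (.br (nat_lit 3) (.cons (.rel (nat_lit 545260608)) .nil)) .nil)) .leaf) (nat_lit 5033573918153459) (.br (nat_lit 1) (.cons (.br (nat_lit 0) (.cons (.rel (nat_lit 21239808)) (.cons (.rel (nat_lit 41943108)) .nil))) .nil)) .leaf) (nat_lit 5033573918153509) (.br (nat_lit 0) (.cons (.br (nat_lit 1) (.cons (.rel (nat_lit 21250050)) .nil)) .nil)) (.node .leaf (nat_lit 5033573918475020) (.br (nat_lit 0) (.cons (.br (nat_lit 2) (.cons (.rel (nat_lit 142610436)) .nil)) .nil)) .leaf))) (nat_lit 5033573919796625) (.br (nat_lit 0) (.cons (.br (nat_lit 2) (.cons (.rel (nat_lit 142610436)) .nil)) .nil)) (.node (.node (.node (.node .leaf (nat_lit 5033575468519680) (.br (nat_lit 0) (.cons (.br (nat_lit 1) (.cons (.rel (nat_lit 25231365)) .nil)) .nil)) .leaf) (nat_lit 5033779085543434) (.br (nat_lit 0) (.cons (.br (nat_lit 2)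 (.cons (.rel (nat_lit 71304708)) .nil)) .nil)) .leaf) (nat_lit 5033779085756426) (.br (nat_lit 0) (.cons (.br (nat_lit 5) (.cons (.rel (nat_lit 4299182592)) .nil)) .nil)) (.node .leaf (nat_lit 5033779533991946) (.br (nat_lit 2) (.cons (.br (nat_lit 0) (.cons (.rel (nat_lit 71319810)) (.cons (.rel (nat_lit 71304708)) .nil))) .nil)) .leaf)) (nat_lit 5033823083450378) (.br (nat_lit 2) (.cons (.br (nat_lit 6) (.cons (.rel (nat_lit 34427109444)) .nil)) .nil)) (.node (.node (.node .leaf (nat_lit 5033823083450624) (.br (nat_lit 0) (.cons (.br (nat_lit 4) (.cons (.rel (nat_lit 2151678096)) .nil)) .nil)) .leaf) (nat_lit 5033823083689994) (.br (nat_lit 0) (.cons (.br (nat_lit 1) (.cons (.rel (nat_lit 37765380)) (.cons (.rel (nat_lit 22036992)) .nil))) (.cons (.br (nat_lit 1) (.cons (.rel (nat_lit 21239808)) (.cons (.rel (nat_lit 41943108)) .nil))) .nil))) .leaf) (nat_lit 5033823083793139) (.br (nat_lit 1) (.cons (.br (nat_lit 2) (.cons (.rel (nat_lit 83888160)) .nil)) .nil)) (.node .leaf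 (nat_lit 5033827307478418) (.br (nat_lit 0) (.cons (.br (nat_lit 1) (.cons (.rel (nat_lit 21299217)) .nil)) .nil)) .leaf))))) (nat_lit 5033827911094282) (.br (nat_lit 0) (.cons (.br (nat_lit 1) (.cons (.rel (nat_lit 21239808)) .nil)) .nil)) (.node (.node (.node (.node (.node (.node .leaf (nat_lit 5033950779035658) (.br (nat_lit 3) (.cons (.br (nat_lit 1) (.cons (.rel (nat_lit 285507588)) (.cons (.rel (nat_lit 285540609)) .nil))) .nil)) .leaf) (nat_lit 5033950779035904) (.br (nat_lit 0) (.cons (.br (nat_lit 1) (.cons (.rel (nat_lit 41943108)) .nil)) .nil)) .leaf) (nat_lit 5033950779275274) (.br (nat_lit 1) (.cons (.br (nat_lit 5) (.cons (.rel (nat_lit 4311777285)) (.cons (.rel (nat_lit 4311765009)) .nil))) .nil)) (.node (.node .leaf (nat_lit 5033950779275520) (.br (nat_lit 1) (.cons (.br (nat_lit 4) (.cons (.rel (nat_lit 2181038100)) .nil)) .nil)) .leaf) (nat_lit 5033950779336861) (.br (nat_lit 0) (.cons (.br (nat_lit 3) (.cons (.rel (nat_lit 276840453)) .nil)) .nil)) .leaf))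 (nat_lit 5033950780348426) (.br (nat_lit 1) (.cons (.br (nat_lit 0) (.cons (.rel (nat_lit 21250050)) (.cons (.rel (nat_lit 22021125)) .nil))) .nil)) (.node (.node (.node .leaf (nat_lit 5033950782087819) (.br (nat_lit 0) (.cons (.br (nat_lit 1) (.cons (.rel (nat_lit 22021125)) .nil)) .nil)) .leaf) (nat_lit 5033950782088554) (.br (nat_lit 2) (.cons (.br (nat_lit 0) (.cons (.rel (nat_lit 142611474)) (.cons (.rel (nat_lit 71304708)) .nil))) .nil)) .leaf) (nat_lit 5033956761425930) (.br (nat_lit 1) (.cons (.br (nat_lit 2) (.cons (.rel (nat_lit 83968260)) .nil)) .nil)) (.node .leaf (nat_lit 5033956761426571) (.br (nat_lit 1) (.cons (.br (nat_lit 6) (.cons (.rel (nat_lit 17196663828)) .nil)) .nil)) .leaf))) (nat_lit 5033956761426832) (.br (nat_lit 1) (.cons (.br (nat_lit 3) (.cons (.rel (nat_lit 286265352)) .nil)) .nil)) (.node (.node (.node (.node .leaf (nat_lit 5036828407123978) (.br (nat_lit 3) (.cons (.br (nat_lit 5) (.cons (.rel (nat_lit 4563410952)) .nil)) .nil)) .leaf) (nat_lit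 5036828407124224) (.br (nat_lit 0) (.cons (.br (nat_lit 2) (.cons (.rel (nat_lit 71434245)) .nil)) .nil)) .leaf) (nat_lit 5036828407627903) (.br (nat_lit 6) (.cons (.br (nat_lit 3) (.cons (.rel (nat_lit 17448345600)) (.cons (.rel (nat_lit 17448323073)) (.cons (.rel (nat_lit 34896629760)) .nil)))) .nil)) (.node .leaf (nat_lit 5036828408498333) (.br (nat_lit 0) (.cons (.br (nat_lit 1) (.cons (.rel (nat_lit 21239808)) .nil)) .nil)) .leaf)) (nat_lit 5036828408701579) (.br (nat_lit 1) (.cons (.br (nat_lit 5) (.cons (.rel (nat_lit 4311826452)) .nil)) .nil)) (.node (.node (.node .leaf (nat_lit 5036828962620304) (.br (nat_lit 0) (.cons (.br (nat_lit 1) (.cons (.rel (nat_lit 37765380)) .nil)) .nil)) .leaf) (nat_lit 5036829501837322) (.br (nat_lit 0) (.cons (.br (nat_lit 4) (.cons (.rel (nat_lit 1082130528)) .nil)) .nil)) .leaf) (nat_lit 5036829501837568) (.br (nat_lit 2) (.cons (.br (nat_lit 5) (.cons (.rel (nat_lit 4362602496)) .nil)) .nil)) (.node .leaf (nat_lit 5036831160435600) (.br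 (nat_lit 0) (.cons (.br (nat_lit 1) (.cons (.rel (nat_lit 21234948)) .nil)) .nil)) .leaf)))) (nat_lit 5037859200802154) (.br (nat_lit 0) (.cons (.br (nat_lit 1) (.cons (.rel (nat_lit 41943108)) .nil)) .nil)) (.node (.node (.node (.node (.node .leaf (nat_lit 5037861846120575) (.br (nat_lit 0) (.cons (.br (nat_lit 2) (.cons (.rel (nat_lit 71567424)) .nil)) .nil)) .leaf) (nat_lit 5043176371381761) (.br (nat_lit 0) (.cons (.br (nat_lit 1) (.cons (.rel (nat_lit 21250050)) .nil)) .nil)) .leaf) (nat_lit 5044250110953482) (.br (nat_lit 1) (.cons (.br (nat_lit 3) (.cons (.rel (nat_lit 553649160)) .nil)) .nil)) (.node (.node .leaf (nat_lit 5044250112396016) (.br (nat_lit 0) (.cons (.br (nat_lit 1) (.cons (.rel (nat_lit 26214720)) .nil)) .nil)) .leaf) (nat_lit 5044250217253616) (.br (nat_lit 0) (.cons (.br (nat_lit 1) (.cons (.rel (nat_lit 21234948)) .nil)) .nil)) .leaf)) (nat_lit 5044250217317289) (.br (nat_lit 1) (.cons (.br (nat_lit 2) (.cons (.rel (nat_lit 83886090)) .nil)) .nil))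 (.node (.node (.node .leaf (nat_lit 5044250218268050) (.br (nat_lit 0) (.cons (.br (nat_lit 1) (.cons (.rel (nat_lit 41943108)) .nil)) .nil)) .leaf) (nat_lit 5044311336651504) (.br (nat_lit 0) (.cons (.br (nat_lit 2) (.cons (.rel (nat_lit 71323680)) .nil)) .nil)) .leaf) (nat_lit 5044316221470730) (.br (nat_lit 0) (.cons (.br (nat_lit 4) (.cons (.rel (nat_lit 1078071828)) .nil)) .nil)) (.node .leaf (nat_lit 5044482146604434) (.br (nat_lit 1) (.cons (.br (nat_lit 3) (.cons (.rel (nat_lit 286263552)) .nil)) .nil)) .leaf))) (nat_lit 5044487432755227) (.br (nat_lit 1) (.cons (.br (nat_lit 2) (.cons (.rel (nat_lit 83887125)) .nil)) .nil)) (.node (.node (.node (.node .leaf (nat_lit 5044488460564490) (.br (nat_lit 1) (.cons (.br (nat_lit 5) (.cons (.rel (nat_lit 4311748872)) .nil)) .nil)) .leaf) (nat_lit 5044488460564607) (.br (nat_lit 6) (.cons (.br (nat_lit 0) (.cons (.br (nat_lit 2) (.cons (.rel (nat_lit 142610436)) (.cons (.rel (nat_lit 34426856448)) .nil))) (.cons (.rel (nat_lit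 17188274241)) .nil))) .nil)) .leaf) (nat_lit 5044488460836995) (.br (nat_lit 0) (.cons (.br (nat_lit 1) (.cons (.rel (nat_lit 21234948)) .nil)) .nil)) (.node .leaf (nat_lit 5044679607580682) (.br (nat_lit 3) (.cons (.br (nat_lit 2) (.cons (.rel (nat_lit 402919680)) (.cons (.rel (nat_lit 402919680)) .nil))) .nil)) .leaf)) (nat_lit 5044679608918796) (.br (nat_lit 0) (.cons (.br (nat_lit 2) (.cons (.rel (nat_lit 77594640)) .nil)) .nil)) (.node (.node (.node .leaf (nat_lit 5044679608918953) (.br (nat_lit 0) (.cons (.br (nat_lit 1) (.cons (.rel (nat_lit 21250050)) .nil)) .nil)) .leaf) (nat_lit 5044679609125616) (.br (nat_lit 1) (.cons (.br (nat_lit 3) (.cons (.rel (nat_lit 285507588)) .nil)) .nil)) .leaf) (nat_lit 5044679610495602) (.br (nat_lit 0) (.cons (.br (nat_lit 1) (.cons (.rel (nat_lit 37765380)) .nil)) .nil)) (.node .leaf (nat_lit 5044679818904178) (.br (nat_lit 0) (.cons (.br (nat_lit 1) (.cons (.rel (nat_lit 21234948)) .nil)) .nil)) .leaf))))))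

/-- refutations 41 -/
def e41 : EX := (.node (.node (.node (.node (.node .leaf (nat_lit 4926889000972298) (.br (nat_lit 3) (.cons (.br (nat_lit 2) (.cons (.rel (nat_lit 403177536)) (.cons (.rel (nat_lit 335546370)) .nil))) .nil)) .leaf) (nat_lit 4926889001535498) (.br (nat_lit 2) (.cons (.br (nat_lit 6) (.cons (.br (nat_lit 5) (.cons (.rel (nat_lit 21475361028)) (.cons (.rel (nat_lit 4429189377)) (.cons (.rel (nat_lit 38654722056)) .nil)))) (.cons (.rel (nat_lit 17314103298)) (.cons (.rel (nat_lit 34426851588)) (.cons (.rel (nat_lit 17247510534)) .nil))))) (.cons (.br (nat_lit 1) (.cons (.rel (nat_lit 83887125)) (.cons (.rel (nat_lit 167772165)) (.cons (.rel (nat_lit 83968260)) (.cons (.rel (nat_lit 83902992)) .nil))))) .nil))) .leaf) (nat_lit 4926889630681098) (.br (nat_lit 1) (.cons (.br (nat_lit 3) (.cons (.rel (nat_lit 285507588)) .nil)) .nil)) (.node .leaf (nat_lit 4926891602003978) (.br (nat_lit 1) (.cons (.br (nat_lit 2) (.cons (.rel (nat_lit 83906817)) (.cons (.rel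 (nat_lit 167772165)) .nil))) .nil)) .leaf)) (nat_lit 4926891602004768) (.br (nat_lit 1) (.cons (.br (nat_lit 2) (.cons (.rel (nat_lit 167772165)) .nil)) .nil)) (.node (.node (.node .leaf (nat_lit 4926891602968586) (.br (nat_lit 0) (.cons (.br (nat_lit 1) (.cons (.rel (nat_lit 41943108)) .nil)) .nil)) .leaf) (nat_lit 4926892167671818) (.br (nat_lit 0) (.cons (.br (nat_lit 2) (.cons (.rel (nat_lit 71309568)) .nil)) .nil)) .leaf) (nat_lit 4927100687495178) (.br (nat_lit 0) (.cons (.br (nat_lit 3) (.cons (.rel (nat_lit 541069569)) .nil)) .nil)) (.node .leaf (nat_lit 4927100687585290) (.br (nat_lit 0) (.cons (.br (nat_lit 5) (.cons (.rel (nat_lit 4299162900)) .nil)) .nil)) .leaf))) (nat_lit 4927100687597578) (.br (nat_lit 0) (.cons (.br (nat_lit 2) (.cons (.rel (nat_lit 71309568)) (.cons (.rel (nat_lit 71309568)) .nil))) .nil)) (.node (.node (.node (.node .leaf (nat_lit 4927100690682762) (.br (nat_lit 0) (.cons (.br (nat_lit 1) (.cons (.rel (nat_lit 22022160)) .nil)) .nil)) .leaf)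 (nat_lit 4931673788042143) (.br (nat_lit 0) (.cons (.br (nat_lit 3) (.cons (.rel (nat_lit 273679380)) .nil)) .nil)) .leaf) (nat_lit 4933589254902565) (.br (nat_lit 1) (.cons (.br (nat_lit 2) (.cons (.rel (nat_lit 167772165)) .nil)) .nil)) (.node .leaf (nat_lit 4936638576734958) (.br (nat_lit 0) (.cons (.br (nat_lit 1) (.cons (.rel (nat_lit 37756929)) .nil)) .nil)) .leaf)) (nat_lit 4936638577297418) (.br (nat_lit 2) (.cons (.br (nat_lit 3) (.cons (.rel (nat_lit 671089665)) .nil)) .nil)) (.node (.node .leaf (nat_lit 4936641743996938) (.br (nat_lit 0) (.cons (.br (nat_lit 2) (.cons (.rel (nat_lit 71304708)) .nil)) .nil)) .leaf) (nat_lit 4937666307606538) (.br (nat_lit 0) (.cons (.br (nat_lit 1) (.cons (.rel (nat_lit 22022160)) .nil)) .nil)) (.node .leaf (nat_lit 4937666307607328) (.br (nat_lit 0) (.cons (.br (nat_lit 5) (.cons (.rel (nat_lit 4299180036)) .nil)) .nil)) .leaf))))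

/-- refutations 42 -/
def e42 : EX := (.node (.node (.node (.node .leaf (nat_lit 5049063775262875) (.br (nat_lit 1) (.cons (.br (nat_lit 3) (.cons (.br (nat_lit 2) (.cons (.rel (nat_lit 335630340)) (.cons (.rel (nat_lit 335577348)) .nil))) .nil)) .nil)) .leaf) (nat_lit 5049063775464686) (.br (nat_lit 1) (.cons (.br (nat_lit 3) (.cons (.rel (nat_lit 286263552)) .nil)) .nil)) .leaf) (nat_lit 5050033888352411) (.br (nat_lit 3) (.cons (.br (nat_lit 5) (.cons (.rel (nat_lit 4831854660)) .nil)) .nil)) (.node .leaf (nat_lit 5050033888618523) (.br (nat_lit 0) (.cons (.br (nat_lit 4) (.cons (.rel (nat_lit 1077940488)) .nil)) .nil)) .leaf)) (nat_lit 5050034332651530) (.br (nat_lit 0) (.cons (.br (nat_lit 3) (.cons (.rel (nat_lit 272892168)) .nil)) .nil)) (.node (.node .leaf (nat_lit 5050034810802186) (.br (nat_lit 0) (.cons (.br (nat_lit 2) (.cons (.rel (nat_lit 71311368)) .nil)) .nil)) .leaf) (nat_lit 5050309924153354) (.br (nat_lit 0) (.cons (.br (nat_lit 3) (.cons (.rel (nat_lit 272897028))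 .nil)) .nil)) (.node .leaf (nat_lit 5054543604279323) (.br (nat_lit 0) (.cons (.br (nat_lit 1) (.cons (.rel (nat_lit 41943108)) .nil)) .nil)) .leaf)))

/-- refutations 44 -/
def e44 : EX := (.node (.node (.node .leaf (nat_lit 10995210768444677) (.br (nat_lit 0) (.cons (.br (nat_lit 2) (.cons (.rel (nat_lit 71323680)) .nil)) .nil)) .leaf) (nat_lit 10996626018111498) (.br (nat_lit 0) (.cons (.br (nat_lit 4) (.cons (.rel (nat_lit 2151940353)) .nil)) .nil)) .leaf) (nat_lit 10996626018767603) (.br (nat_lit 0) (.cons (.br (nat_lit 1) (.cons (.rel (nat_lit 20971656)) (.cons (.rel (nat_lit 25232400)) .nil))) .nil)) (.node (.node .leaf (nat_lit 10996626018768378) (.br (nat_lit 0) (.cons (.br (nat_lit 1) (.cons (.rel (nat_lit 21234948)) .nil)) .nil)) .leaf) (nat_lit 10997570428214753) (.br (nat_lit 3) (.cons (.br (nat_lit 4) (.cons (.rel (nat_lit 1342194192)) .nil)) .nil)) .leaf))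

/-- refutations 45 -/
def e45 : EX := (.node (.node (.node (.node .leaf (nat_lit 11001558833820453) (.br (nat_lit 0) (.cons (.br (nat_lit 5) (.cons (.rel (nat_lit 4299325440)) .nil)) .nil)) .leaf) (nat_lit 11001558835100453) (.br (nat_lit 0) (.cons (.br (nat_lit 1) (.cons (.rel (nat_lit 20971656)) .nil)) .nil)) .leaf) (nat_lit 11001558835200010) (.br (nat_lit 1) (.cons (.br (nat_lit 2) (.cons (.rel (nat_lit 151257600)) (.cons (.rel (nat_lit 151257600)) (.cons (.rel (nat_lit 101974017)) (.cons (.rel (nat_lit 101187840)) (.cons (.rel (nat_lit 167772165)) .nil)))))) .nil)) (.node (.node .leaf (nat_lit 11001558835469073) (.br (nat_lit 0) (.cons (.br (nat_lit 2) (.cons (.rel (nat_lit 71368977)) .nil)) .nil)) .leaf) (nat_lit 11001559253259045) (.br (nat_lit 1) (.cons (.br (nat_lit 3) (.cons (.rel (nat_lit 286263552)) .nil)) .nil)) .leaf)) (nat_lit 11001565173735434) (.br (nat_lit 3) (.cons (.br (nat_lit 4) (.cons (.rel (nat_lit 2684354565)) .nil)) .nil)) (.node (.node (.node .leaf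 (nat_lit 11005853697404165) (.br (nat_lit 0) (.cons (.br (nat_lit 2) (.cons (.rel (nat_lit 142610436)) .nil)) .nil)) .leaf) (nat_lit 11005939596627978) (.br (nat_lit 1) (.cons (.br (nat_lit 6) (.cons (.rel (nat_lit 17198220288)) .nil)) .nil)) .leaf) (nat_lit 11006976891586570) (.br (nat_lit 1) (.cons (.br (nat_lit 4) (.cons (.rel (nat_lit 1090543632)) .nil)) .nil)) (.node (.node .leaf (nat_lit 11007030519670794) (.br (nat_lit 2) (.cons (.br (nat_lit 3) (.cons (.rel (nat_lit 671089665)) .nil)) .nil)) .leaf) (nat_lit 11008061414314789) (.br (nat_lit 0) (.cons (.br (nat_lit 1) (.cons (.rel (nat_lit 22036992)) .nil)) .nil)) .leaf)))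

/-- refutations 47 -/
def e47 : EX := (.node (.node (.node .leaf (nat_lit 11123696862474891) (.br (nat_lit 0) (.cons (.br (nat_lit 1) (.cons (.rel (nat_lit 21250050)) .nil)) .nil)) .leaf) (nat_lit 11124764265777162) (.br (nat_lit 6) (.cons (.br (nat_lit 3) (.cons (.rel (nat_lit 17448372240)) (.cons (.rel (nat_lit 17448308772)) .nil))) .nil)) (.node .leaf (nat_lit 11124764266033412) (.br (nat_lit 2) (.cons (.br (nat_lit 3) (.cons (.rel (nat_lit 335546370)) .nil)) .nil)) .leaf)) (nat_lit 11124764266033812) (.br (nat_lit 0) (.cons (.br (nat_lit 1) (.cons (.rel (nat_lit 21250050)) .nil)) .nil)) (.node (.node .leaf (nat_lit 11124764266706158) (.br (nat_lit 1) (.cons (.br (nat_lit 3) (.cons (.rel (nat_lit 553656576)) (.cons (.rel (nat_lit 285229185)) .nil))) .nil)) .leaf) (nat_lit 11124764266706201) (.br (nat_lit 1) (.cons (.br (nat_lit 2) (.cons (.rel (nat_lit 150999168)) .nil)) .nil)) (.node .leaf (nat_lit 11124764268490009) (.br (nat_lit 2) (.cons (.br (nat_lit 3) (.cons (.rel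 (nat_lit 671089665)) (.cons (.rel (nat_lit 335546370)) .nil))) .nil)) .leaf)))

/-- refutations 48 -/
def e48 : EX := (.node (.node .leaf (nat_lit 11126087777026058) (.br (nat_lit 0) (.cons (.br (nat_lit 2) (.cons (.rel (nat_lit 71304708)) .nil)) .nil)) .leaf) (nat_lit 11130175924570122) (.br (nat_lit 0) (.cons (.br (nat_lit 2) (.cons (.rel (nat_lit 71311368)) .nil)) .nil)) .leaf)

/-- refutations 49 -/
def e49 : EX := (.node (.node (.node .leaf (nat_lit 11540568534438144) (.br (nat_lit 0) (.cons (.br (nat_lit 2) (.cons (.rel (nat_lit 138690564)) .nil)) .nil)) .leaf) (nat_lit 11540569630414057) (.br (nat_lit 2) (.cons (.br (nat_lit 4) (.cons (.rel (nat_lit 1140883524)) .nil)) .nil)) (.node .leaf (nat_lit 11542673069675753) (.br (nat_lit 0) (.cons (.br (nat_lit 3) (.cons (.rel (nat_lit 273699072)) .nil)) .nil)) .leaf)) (nat_lit 11543066161636858) (.br (nat_lit 0) (.cons (.br (nat_lit 1) (.cons (.rel (nat_lit 21234948)) .nil)) .nil)) (.node (.node .leaf (nat_lit 11545937244820713)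 (.br (nat_lit 6) (.cons (.br (nat_lit 0) (.cons (.rel (nat_lit 17184210948)) (.cons (.rel (nat_lit 17184065544)) .nil))) .nil)) .leaf) (nat_lit 11546058707011844) (.br (nat_lit 0) (.cons (.br (nat_lit 1) (.cons (.rel (nat_lit 21234948)) .nil)) .nil)) .leaf))

/-- refutations 50 -/
def e50 : EX := (.node (.node (.node (.node .leaf (nat_lit 11546968036971753) (.br (nat_lit 0) (.cons (.br (nat_lit 1) (.cons (.rel (nat_lit 21250050)) (.cons (.rel (nat_lit 20971656)) .nil))) .nil)) .leaf) (nat_lit 11546968037234698) (.br (nat_lit 0) (.cons (.br (nat_lit 1) (.cons (.rel (nat_lit 41943108)) .nil)) .nil)) (.node .leaf (nat_lit 11546968037607434) (.br (nat_lit 1) (.cons (.br (nat_lit 2) (.cons (.rel (nat_lit 84164673)) .nil)) .nil)) .leaf)) (nat_lit 11546968038762506) (.br (nat_lit 5) (.cons (.br (nat_lit 3) (.cons (.rel (nat_lit 4563410952)) (.cons (.rel (nat_lit 4564992000)) .nil))) .nil)) (.node (.node .leaf (nat_lit 11546970682315378) (.br (nat_lit 1) (.cons (.br (nat_lit 3) (.cons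 (.rel (nat_lit 285495312)) .nil)) .nil)) .leaf) (nat_lit 11546970683577577) (.br (nat_lit 0) (.cons (.br (nat_lit 1) (.cons (.rel (nat_lit 21239808)) .nil)) .nil)) .leaf)) (nat_lit 11548479865723767) (.br (nat_lit 0) (.cons (.br (nat_lit 1) (.cons (.rel (nat_lit 25231365)) .nil)) .nil)) (.node (.node (.node .leaf (nat_lit 11551297362744046) (.br (nat_lit 1) (.cons (.br (nat_lit 3) (.cons (.rel (nat_lit 553649160)) (.cons (.rel (nat_lit 285507588)) .nil))) (.cons (.br (nat_lit 3) (.cons (.rel (nat_lit 553656576)) (.cons (.br (nat_lit 4) (.cons (.rel (nat_lit 1090555908)) (.cons (.rel (nat_lit 1342178325)) .nil))) .nil))) .nil))) .leaf) (nat_lit 11551297362744801) (.br (nat_lit 1) (.cons (.br (nat_lit 3) (.cons (.rel (nat_lit 285507588)) .nil)) .nil)) .leaf) (nat_lit 11551297365542369) (.br (nat_lit 0) (.cons (.br (nat_lit 2) (.cons (.rel (nat_lit 71311368)) .nil)) .nil)) (.node (.node .leaf (nat_lit 11553358949587819) (.br (nat_lit 0) (.cons (.br (nat_lit 1) (.cons (.rel (nat_lit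 37756929)) .nil)) .nil)) .leaf) (nat_lit 11553788446574049) (.br (nat_lit 0) (.cons (.br (nat_lit 3) (.cons (.rel (nat_lit 272897028)) .nil)) .nil)) .leaf)))

/-- refutations 51 -/
def e51 : EX := (.node .leaf (nat_lit 5491400467323807) (.br (nat_lit 0) (.cons (.br (nat_lit 1) (.cons (.rel (nat_lit 41943108)) .nil)) .nil)) .leaf)

/-- refutations 52 -/
def e52 : EX := (.node (.node (.node (.node (.node .leaf (nat_lit 11611916531141419) (.br (nat_lit 1) (.cons (.br (nat_lit 5) (.cons (.rel (nat_lit 4312813632)) .nil)) .nil)) .leaf) (nat_lit 11611916531654113) (.br (nat_lit 0) (.cons (.br (nat_lit 1) (.cons (.rel (nat_lit 22022160)) .nil)) .nil)) .leaf) (nat_lit 11611916532493045) (.br (nat_lit 0) (.cons (.br (nat_lit 4) (.cons (.rel (nat_lit 1077952800)) .nil)) .nil)) (.node .leaf (nat_lit 11611916532493793) (.br (nat_lit 0) (.cons (.br (nat_lit 2) (.cons (.rel (nat_lit 139460640)) (.cons (.rel (nat_lit 72892416)) (.cons (.rel (nat_lit 138690564)) (.cons (.rel (nat_lit 138678288))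 .nil))))) .nil)) .leaf)) (nat_lit 11611916532788705) (.br (nat_lit 1) (.cons (.br (nat_lit 5) (.cons (.rel (nat_lit 4311753732)) .nil)) .nil)) (.node (.node .leaf (nat_lit 11611916533709102) (.br (nat_lit 1) (.cons (.br (nat_lit 4) (.cons (.rel (nat_lit 1090519080)) .nil)) .nil)) .leaf) (nat_lit 11611916533710330) (.br (nat_lit 2) (.cons (.br (nat_lit 3) (.cons (.rel (nat_lit 335545380)) (.cons (.rel (nat_lit 671089665)) .nil))) (.cons (.br (nat_lit 3) (.cons (.rel (nat_lit 335568897)) (.cons (.rel (nat_lit 335544345)) .nil))) .nil))) (.node .leaf (nat_lit 11617377473366193) (.br (nat_lit 1) (.cons (.br (nat_lit 2) (.cons (.rel (nat_lit 83888160)) .nil)) .nil)) .leaf))) (nat_lit 11617377473521142) (.br (nat_lit 1) (.cons (.br (nat_lit 2) (.cons (.rel (nat_lit 83888160)) .nil)) .nil)) (.node (.node (.node (.node .leaf (nat_lit 11617377474358753) (.br (nat_lit 2) (.cons (.br (nat_lit 3) (.cons (.rel (nat_lit 335544345)) .nil)) .nil)) .leaf) (nat_lit 11617377579216353) (.br (nat_lit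 1) (.cons (.br (nat_lit 5) (.cons (.rel (nat_lit 8623490304)) .nil)) .nil)) .leaf) (nat_lit 11618408266509793) (.br (nat_lit 0) (.cons (.br (nat_lit 2) (.cons (.rel (nat_lit 71323680)) .nil)) .nil)) (.node .leaf (nat_lit 11618582321736437) (.br (nat_lit 3) (.cons (.br (nat_lit 5) (.cons (.rel (nat_lit 4831842384)) .nil)) .nil)) .leaf)) (nat_lit 11618582321737185) (.br (nat_lit 1) (.cons (.br (nat_lit 3) (.cons (.rel (nat_lit 553746432)) .nil)) .nil)) (.node (.node .leaf (nat_lit 11621666108255713) (.br (nat_lit 3) (.cons (.br (nat_lit 0) (.cons (.rel (nat_lit 545260608)) (.cons (.rel (nat_lit 276841488)) .nil))) .nil)) .leaf) (nat_lit 11621672441654753) (.br (nat_lit 0) (.cons (.br (nat_lit 5) (.cons (.rel (nat_lit 4299166725)) .nil)) .nil)) (.node .leaf (nat_lit 11624257701588449) (.br (nat_lit 0) (.cons (.br (nat_lit 4) (.cons (.rel (nat_lit 1077945348)) .nil)) .nil)) .leaf))))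

/-- refutations 53 -/
def e53 : EX := (.node (.node (.node .leaf (nat_lit 11876919264257400) (.br (nat_lit 2) (.cons (.br (nat_lit 6) (.cons (.rel (nat_lit 17314103298)) .nil)) .nil)) .leaf) (nat_lit 11880309040285153) (.br (nat_lit 0) (.cons (.br (nat_lit 1) (.cons (.rel (nat_lit 37818372)) .nil)) .nil)) .leaf) (nat_lit 11880524941056775) (.br (nat_lit 0) (.cons (.br (nat_lit 1) (.cons (.rel (nat_lit 20971656)) .nil)) .nil)) (.node .leaf (nat_lit 11882757170473765) (.br (nat_lit 3) (.cons (.br (nat_lit 4) (.cons (.rel (nat_lit 1343226948)) .nil)) .nil)) .leaf))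

/-- refutations 54 -/
def e54 : EX := (.node (.node (.node (.node .leaf (nat_lit 11963765494928010) (.br (nat_lit 1) (.cons (.br (nat_lit 2) (.cons (.rel (nat_lit 83888160)) .nil)) .nil)) .leaf) (nat_lit 11963765630519946) (.br (nat_lit 0) (.cons (.br (nat_lit 2) (.cons (.rel (nat_lit 71311368)) .nil)) .nil)) (.node .leaf (nat_lit 11969387186290698) (.br (nat_lit 2) (.cons (.br (nat_lit 4) (.cons (.rel (nat_lit 1141440528)) .nil)) .nil)) .leaf)) (nat_lit 11969387205838873) (.br (nat_lit 1) (.cons (.br (nat_lit 3) (.cons (.rel (nat_lit 286265352)) .nil)) .nil)) (.node (.node .leaf (nat_lit 11969387812631278) (.br (nat_lit 0) (.cons (.br (nat_lit 2) (.cons (.br (nat_lit 3) (.cons (.rel (nat_lit 671089665)) .nil)) .nil)) .nil)) .leaf) (nat_lit 11969389406474890) (.br (nat_lit 1) (.cons (.br (nat_lit 4) (.cons (.rel (nat_lit 2181038100)) .nil)) .nil)) .leaf)) (nat_lit 11969389407038365) (.br (nat_lit 1) (.cons (.br (nat_lit 2) (.cons (.rel (nat_lit 83902992)) (.cons (.rel (nat_lit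 167772165)) .nil))) .nil)) (.node (.node (.node .leaf (nat_lit 11969389407786265) (.br (nat_lit 6) (.cons (.br (nat_lit 1) (.cons (.rel (nat_lit 34393358592)) (.cons (.rel (nat_lit 17196662793)) .nil))) .nil)) .leaf) (nat_lit 11969389409536010) (.br (nat_lit 3) (.cons (.br (nat_lit 4) (.cons (.rel (nat_lit 1342312452)) .nil)) .nil)) (.node .leaf (nat_lit 11969389954795545) (.br (nat_lit 2) (.cons (.br (nat_lit 5) (.cons (.rel (nat_lit 4429185552)) (.cons (.rel (nat_lit 4429255680)) .nil))) .nil)) .leaf)) (nat_lit 11970506646292505) (.br (nat_lit 1) (.cons (.br (nat_lit 5) (.cons (.rel (nat_lit 4311747072)) .nil)) .nil)) (.node (.node .leaf (nat_lit 12088039979673757) (.br (nat_lit 0) (.cons (.br (nat_lit 1) (.cons (.rel (nat_lit 20971656)) .nil)) .nil)) .leaf) (nat_lit 12088039980756229) (.br (nat_lit 0) (.cons (.br (nat_lit 1) (.cons (.rel (nat_lit 21239808)) .nil)) .nil)) .leaf)))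

/-- refutations 55 -/
def e55 : EX := (.node (.node (.node .leaf (nat_lit 13200588383744025) (.br (nat_lit 0) (.cons (.br (nat_lit 1) (.cons (.rel (nat_lit 37756929)) .nil)) .nil)) .leaf) (nat_lit 13207242434202350) (.br (nat_lit 0) (.cons (.br (nat_lit 1) (.cons (.rel (nat_lit 25169922)) .nil)) .nil)) .leaf) (nat_lit 13207242539059950) (.br (nat_lit 1) (.cons (.br (nat_lit 2) (.cons (.rel (nat_lit 83886090)) (.cons (.rel (nat_lit 83955984)) .nil))) .nil)) (.node .leaf (nat_lit 13207457185691150) (.br (nat_lit 1) (.cons (.br (nat_lit 2) (.cons (.rel (nat_lit 83955984)) .nil)) .nil)) .leaf))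

/-- refutations 56 -/
def e56 : EX := (.node (.node (.node (.node (.node .leaf (nat_lit 13406319507732511) (.br (nat_lit 0) (.cons (.br (nat_lit 4) (.cons (.rel (nat_lit 1077945348)) .nil)) .nil)) .leaf) (nat_lit 13406319507733230) (.br (nat_lit 0) (.cons (.br (nat_lit 1) (.cons (.rel (nat_lit 21250050)) (.cons (.rel (nat_lit 21332232)) .nil))) (.cons (.br (nat_lit 1) (.cons (.rel (nat_lit 21234948)) (.cons (.rel (nat_lit 25199112)) .nil))) .nil))) .leaf) (nat_lit 13406319507772947) (.br (nat_lit 0) (.cons (.br (nat_lit 3) (.cons (.rel (nat_lit 272908305)) .nil)) .nil)) (.node .leaf (nat_lit 13406319507776299) (.br (nat_lit 1) (.cons (.br (nat_lit 0) (.cons (.rel (nat_lit 21250050)) (.cons (.rel (nat_lit 22347840)) .nil))) .nil)) .leaf)) (nat_lit 13406319507777043) (.br (nat_lit 0) (.cons (.br (nat_lit 4) (.cons (.rel (nat_lit 2151940353)) (.cons (.rel (nat_lit 1077968901)) .nil))) .nil)) (.node (.node (.node .leaf (nat_lit 13406319509226232) (.br (nat_lit 0) (.cons (.br (nat_lit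 2) (.cons (.rel (nat_lit 142610436)) (.cons (.rel (nat_lit 75497538)) (.cons (.rel (nat_lit 71372802)) .nil)))) (.cons (.br (nat_lit 5) (.cons (.rel (nat_lit 4299178002)) (.cons (.rel (nat_lit 4299167760)) .nil))) .nil))) .leaf) (nat_lit 13406319509226257) (.br (nat_lit 0) (.cons (.br (nat_lit 3) (.cons (.rel (nat_lit 272892168)) .nil)) .nil)) .leaf) (nat_lit 13406319509226283) (.br (nat_lit 0) (.cons (.br (nat_lit 1) (.cons (.rel (nat_lit 25166097)) .nil)) .nil)) (.node .leaf (nat_lit 13406319509229075) (.br (nat_lit 2) (.cons (.br (nat_lit 5) (.cons (.rel (nat_lit 4429189377)) .nil)) .nil)) .leaf))) (nat_lit 13406319509258271) (.br (nat_lit 0) (.cons (.br (nat_lit 5) (.cons (.rel (nat_lit 8595243012)) .nil)) .nil)) (.node (.node (.node (.node .leaf (nat_lit 13406319509258990) (.br (nat_lit 0) (.cons (.br (nat_lit 1) (.cons (.rel (nat_lit 20971656)) .nil)) .nil)) .leaf) (nat_lit 13406319509259047) (.br (nat_lit 5) (.cons (.br (nat_lit 6) (.cons (.rel (nat_lit 38654722056))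 (.cons (.rel (nat_lit 21474838080)) .nil))) .nil)) .leaf) (nat_lit 13406319509330731) (.br (nat_lit 1) (.cons (.br (nat_lit 3) (.cons (.rel (nat_lit 285229185)) .nil)) .nil)) (.node .leaf (nat_lit 13406319509331475) (.br (nat_lit 2) (.cons (.br (nat_lit 3) (.cons (.rel (nat_lit 335822928)) .nil)) .nil)) .leaf)) (nat_lit 13406319510794250) (.br (nat_lit 2) (.cons (.br (nat_lit 3) (.cons (.rel (nat_lit 335546370)) (.cons (.rel (nat_lit 335544345)) .nil))) (.cons (.br (nat_lit 0) (.cons (.rel (nat_lit 71311368)) (.cons (.rel (nat_lit 71335956)) (.cons (.rel (nat_lit 142610436)) .nil)))) .nil))) (.node (.node .leaf (nat_lit 13406319510803987) (.br (nat_lit 0) (.cons (.br (nat_lit 1) (.cons (.rel (nat_lit 20971656)) .nil)) .nil)) .leaf) (nat_lit 13406319510867999) (.br (nat_lit 3) (.cons (.br (nat_lit 0) (.cons (.rel (nat_lit 272932869)) (.cons (.rel (nat_lit 272631936)) .nil))) .nil)) (.node .leaf (nat_lit 13406751863854611) (.br (nat_lit 0) (.cons (.br (nat_lit 1) (.cons (.rel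 (nat_lit 21239808)) .nil)) .nil)) .leaf))))

/-- refutations 57 -/
def e57 : EX := (.node (.node (.node (.node .leaf (nat_lit 13411745051165298) (.br (nat_lit 0) (.cons (.br (nat_lit 1) (.cons (.rel (nat_lit 22022160)) .nil)) .nil)) .leaf) (nat_lit 13411746164297759) (.br (nat_lit 1) (.cons (.br (nat_lit 2) (.cons (.br (nat_lit 3) (.cons (.rel (nat_lit 335610369)) .nil)) .nil)) .nil)) (.node .leaf (nat_lit 13416472810464043) (.br (nat_lit 0) (.cons (.br (nat_lit 1) (.cons (.rel (nat_lit 21250050)) .nil)) .nil)) .leaf)) (nat_lit 13416472813481994) (.br (nat_lit 2) (.cons (.br (nat_lit 3) (.cons (.rel (nat_lit 671089665)) .nil)) .nil)) (.node (.node .leaf (nat_lit 13417163780627083) (.br (nat_lit 1) (.cons (.br (nat_lit 2) (.cons (.rel (nat_lit 83920128)) .nil)) .nil)) .leaf) (nat_lit 13417165298606090) (.br (nat_lit 0) (.cons (.br (nat_lit 2) (.cons (.rel (nat_lit 71311368)) (.cons (.rel (nat_lit 71372802)) .nil))) .nil)) .leaf)) (nat_lit 13417165301172531) (.br (nat_lit 3) (.cons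 (.br (nat_lit 6) (.cons (.rel (nat_lit 17448321048)) .nil)) .nil)) (.node (.node (.node .leaf (nat_lit 13418194473403304) (.br (nat_lit 0) (.cons (.br (nat_lit 2) (.cons (.rel (nat_lit 71319810)) .nil)) .nil)) .leaf) (nat_lit 13418196093164827) (.br (nat_lit 0) (.cons (.br (nat_lit 1) (.cons (.rel (nat_lit 21239808)) .nil)) .nil)) .leaf) (nat_lit 13418439906936190) (.br (nat_lit 1) (.cons (.br (nat_lit 2) (.cons (.rel (nat_lit 167773200)) .nil)) .nil)) (.node (.node .leaf (nat_lit 13418560166019884) (.br (nat_lit 0) (.cons (.br (nat_lit 1) (.cons (.rel (nat_lit 21250050)) .nil)) .nil)) .leaf) (nat_lit 13418560719667960) (.br (nat_lit 0) (.cons (.br (nat_lit 1) (.cons (.rel (nat_lit 41943108)) .nil)) .nil)) .leaf)))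

/-- refutations 58 -/
def e58 : EX := (.node (.node (.node .leaf (nat_lit 13635018556982060) (.br (nat_lit 0) (.cons (.br (nat_lit 2) (.cons (.rel (nat_lit 71372802)) .nil)) .nil)) .leaf) (nat_lit 13635023169146890) (.br (nat_lit 0) (.cons (.br (nat_lit 3) (.cons (.rel (nat_lit 272892168)) .nil)) .nil)) .leaf) (nat_lit 13635024345139985) (.br (nat_lit 1) (.cons (.br (nat_lit 2) (.cons (.rel (nat_lit 167772165)) .nil)) .nil)) (.node (.node .leaf (nat_lit 13636096913778823) (.br (nat_lit 0) (.cons (.br (nat_lit 2) (.cons (.rel (nat_lit 71304708)) .nil)) .nil)) .leaf) (nat_lit 13639754230894622) (.br (nat_lit 0) (.cons (.br (nat_lit 1) (.cons (.rel (nat_lit 21299217)) .nil)) .nil)) .leaf))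

/-- refutations 59 -/
def e59 : EX := (.node (.node (.node (.node (.node .leaf (nat_lit 13641460377253898) (.br (nat_lit 4) (.cons (.br (nat_lit 6) (.cons (.rel (nat_lit 35433485568)) .nil)) .nil)) .leaf) (nat_lit 13641460377296906) (.br (nat_lit 0) (.cons (.br (nat_lit 1) (.cons (.rel (nat_lit 25231365)) .nil)) .nil)) (.node .leaf (nat_lit 13641460377298406) (.br (nat_lit 0) (.cons (.br (nat_lit 1) (.cons (.rel (nat_lit 41943108)) .nil)) .nil)) .leaf)) (nat_lit 13641460377755678) (.br (nat_lit 0) (.cons (.br (nat_lit 1) (.cons (.rel (nat_lit 21299217)) .nil)) .nil)) (.node (.node .leaf (nat_lit 13641460378747640) (.br (nat_lit 4) (.cons (.br (nat_lit 1) (.cons (.rel (nat_lit 1090543632)) (.cons (.rel (nat_lit 1090519080)) (.cons (.rel (nat_lit 1090521105)) .nil)))) .nil)) .leaf) (nat_lit 13641460378749703) (.br (nat_lit 3) (.cons (.br (nat_lit 5) (.cons (.rel (nat_lit 4563410952)) .nil)) .nil)) .leaf)) (nat_lit 13641460378778375) (.br (nat_lit 0) (.cons (.br (nat_lit 1) (.cons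 (.rel (nat_lit 21239808)) .nil)) .nil)) (.node (.node (.node .leaf (nat_lit 13641460378778407) (.br (nat_lit 0) (.cons (.br (nat_lit 1) (.cons (.rel (nat_lit 20971656)) .nil)) .nil)) .leaf) (nat_lit 13641460378779835) (.br (nat_lit 3) (.cons (.br (nat_lit 4) (.cons (.rel (nat_lit 1342179360)) (.cons (.rel (nat_lit 1342194192)) .nil))) .nil)) (.node .leaf (nat_lit 13641460378780424) (.br (nat_lit 4) (.cons (.br (nat_lit 1) (.cons (.rel (nat_lit 1091569728)) (.cons (.rel (nat_lit 1090519080)) (.cons (.rel (nat_lit 2181038100)) (.cons (.rel (nat_lit 1091569728)) .nil))))) (.cons (.br (nat_lit 0) (.cons (.rel (nat_lit 1077938688)) (.cons (.rel (nat_lit 2155873536)) (.cons (.rel (nat_lit 1077968901)) .nil)))) .nil))) .leaf)) (nat_lit 13641460378780429) (.br (nat_lit 2) (.cons (.br (nat_lit 3) (.cons (.rel (nat_lit 336592968)) (.cons (.rel (nat_lit 335546370)) .nil))) (.cons (.br (nat_lit 4) (.cons (.rel (nat_lit 1140883524)) (.cons (.rel (nat_lit 1140883524)) .nil))) .nil))) (.node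 (.node .leaf (nat_lit 13641460378780455) (.br (nat_lit 5) (.cons (.br (nat_lit 4) (.cons (.rel (nat_lit 5368774737)) (.cons (.rel (nat_lit 5368774737)) .nil))) .nil)) .leaf) (nat_lit 13641460378780899) (.br (nat_lit 1) (.cons (.br (nat_lit 3) (.cons (.rel (nat_lit 285507588)) .nil)) .nil)) .leaf))) (nat_lit 13641460378780959) (.br (nat_lit 3) (.cons (.br (nat_lit 5) (.cons (.rel (nat_lit 4563435540)) .nil)) .nil)) (.node (.node (.node (.node .leaf (nat_lit 13641460378839070) (.br (nat_lit 0) (.cons (.br (nat_lit 1) (.cons (.rel (nat_lit 20971656)) .nil)) .nil)) .leaf) (nat_lit 13641460378839800) (.br (nat_lit 1) (.cons (.br (nat_lit 2) (.cons (.rel (nat_lit 167772165)) .nil)) .nil)) (.node .leaf (nat_lit 13641460379046648) (.br (nat_lit 1) (.cons (.br (nat_lit 2) (.cons (.rel (nat_lit 167773200)) .nil)) .nil)) .leaf)) (nat_lit 13641460380283661) (.br (nat_lit 1) (.cons (.br (nat_lit 4) (.cons (.rel (nat_lit 1090846785)) .nil)) .nil)) (.node (.node .leaf (nat_lit 13641460380390183)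 (.br (nat_lit 0) (.cons (.br (nat_lit 5) (.cons (.rel (nat_lit 4299227169)) .nil)) .nil)) .leaf) (nat_lit 13641461006448695) (.br (nat_lit 2) (.cons (.br (nat_lit 3) (.cons (.rel (nat_lit 336592968)) .nil)) .nil)) .leaf)) (nat_lit 13641461007926024) (.br (nat_lit 6) (.cons (.br (nat_lit 1) (.cons (.rel (nat_lit 17196662793)) (.cons (.rel (nat_lit 34376516736)) .nil))) .nil)) (.node (.node (.node .leaf (nat_lit 13641461007926499) (.br (nat_lit 1) (.cons (.br (nat_lit 3) (.cons (.rel (nat_lit 286263552)) .nil)) .nil)) .leaf) (nat_lit 13641461009223690) (.br (nat_lit 0) (.cons (.br (nat_lit 1) (.cons (.rel (nat_lit 22089984)) .nil)) .nil)) (.node .leaf (nat_lit 13641461638369290) (.br (nat_lit 0) (.cons (.br (nat_lit 2) (.cons (.rel (nat_lit 71311368)) .nil)) .nil)) .leaf)) (nat_lit 13641466821231368) (.br (nat_lit 1) (.cons (.br (nat_lit 5) (.cons (.rel (nat_lit 4311777285)) (.cons (.rel (nat_lit 8623490304)) .nil))) (.cons (.br (nat_lit 0) (.cons (.rel (nat_lit 21299217)) (.cons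 (.rel (nat_lit 41943108)) (.cons (.rel (nat_lit 41943108)) .nil)))) .nil))) (.node (.node .leaf (nat_lit 13641683717079821) (.br (nat_lit 1) (.cons (.br (nat_lit 2) (.cons (.rel (nat_lit 83886090)) .nil)) .nil)) .leaf) (nat_lit 13647129735611175) (.br (nat_lit 4) (.cons (.br (nat_lit 1) (.cons (.rel (nat_lit 1090521105)) (.cons (.rel (nat_lit 1090520070)) .nil))) .nil)) .leaf))))

/-- refutations 60 -/
def e60 : EX := (.node (.node (.node .leaf (nat_lit 13214323816026122) (.br (nat_lit 0) (.cons (.br (nat_lit 1) (.cons (.rel (nat_lit 20971656)) .nil)) .nil)) .leaf) (nat_lit 13219689196389159) (.br (nat_lit 1) (.cons (.br (nat_lit 3) (.cons (.rel (nat_lit 286263552)) .nil)) .nil)) (.node .leaf (nat_lit 13219689196487463) (.br (nat_lit 3) (.cons (.br (nat_lit 4) (.cons (.rel (nat_lit 1342177290)) .nil)) .nil)) .leaf)) (nat_lit 13219689197996839) (.br (nat_lit 2) (.cons (.br (nat_lit 3) (.cons (.rel (nat_lit 603984192)) .nil)) .nil)) (.node (.node .leaf (nat_lit 13222515238853388)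 (.br (nat_lit 1) (.cons (.br (nat_lit 3) (.cons (.rel (nat_lit 285606912)) .nil)) .nil)) .leaf) (nat_lit 13222515240326650) (.br (nat_lit 1) (.cons (.br (nat_lit 2) (.cons (.rel (nat_lit 167772165)) .nil)) .nil)) .leaf))

/-- refutations 61 -/
def e61 : EX := (.node (.node (.node (.node .leaf (nat_lit 13658030364092426) (.br (nat_lit 1) (.cons (.br (nat_lit 4) (.cons (.rel (nat_lit 2165326848)) .nil)) .nil)) .leaf) (nat_lit 13659279202566901) (.br (nat_lit 0) (.cons (.br (nat_lit 4) (.cons (.rel (nat_lit 2155873536)) .nil)) .nil)) (.node .leaf (nat_lit 13659282323129821) (.br (nat_lit 0) (.cons (.br (nat_lit 1) (.cons (.rel (nat_lit 20971656)) .nil)) .nil)) .leaf)) (nat_lit 13659282325891822) (.br (nat_lit 0) (.cons (.br (nat_lit 2) (.cons (.rel (nat_lit 71435280)) .nil)) .nil)) (.node (.node .leaf (nat_lit 13659282326212618) (.br (nat_lit 0) (.cons (.br (nat_lit 3) (.cons (.rel (nat_lit 272631936)) .nil)) .nil)) .leaf) (nat_lit 13659282339914539) (.br (nat_lit 0) (.cons (.br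 (nat_lit 1) (.cons (.rel (nat_lit 20971656)) .nil)) .nil)) .leaf)) (nat_lit 13659316701089249) (.br (nat_lit 0) (.cons (.br (nat_lit 2) (.cons (.rel (nat_lit 142610436)) .nil)) .nil)) (.node (.node (.node .leaf (nat_lit 13659567959323381) (.br (nat_lit 2) (.cons (.br (nat_lit 0) (.cons (.rel (nat_lit 71335956)) (.cons (.rel (nat_lit 142610436)) .nil))) .nil)) .leaf) (nat_lit 13664730510270651) (.br (nat_lit 1) (.cons (.br (nat_lit 4) (.cons (.rel (nat_lit 2181038100)) .nil)) .nil)) .leaf) (nat_lit 13664730510271271) (.br (nat_lit 1) (.cons (.br (nat_lit 4) (.cons (.rel (nat_lit 1090519080)) .nil)) .nil)) (.node (.node .leaf (nat_lit 13664735880301301) (.br (nat_lit 0) (.cons (.br (nat_lit 1) (.cons (.rel (nat_lit 21300264)) (.cons (.rel (nat_lit 25232400)) .nil))) .nil)) .leaf) (nat_lit 13664850770675722) (.br (nat_lit 2) (.cons (.br (nat_lit 5) (.cons (.rel (nat_lit 4362076488)) .nil)) .nil)) .leaf)))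

/-- refutations 62 -/
def e62 : EX := (.node (.node (.node (.node (.node (.node (.node .leaf (nat_lit 13810178585038875) (.br (nat_lit 0) (.cons (.br (nat_lit 1) (.cons (.rel (nat_lit 22022160)) .nil)) .nil)) .leaf) (nat_lit 13810178585039634) (.br (nat_lit 0) (.cons (.br (nat_lit 4) (.cons (.rel (nat_lit 2155873536)) .nil)) .nil)) (.node .leaf (nat_lit 13810178585040378) (.br (nat_lit 0) (.cons (.br (nat_lit 3) (.cons (.rel (nat_lit 276841488)) .nil)) .nil)) .leaf)) (nat_lit 13810181705601810) (.br (nat_lit 4) (.cons (.br (nat_lit 5) (.cons (.br (nat_lit 0) (.cons (.rel (nat_lit 4299167760)) (.cons (.rel (nat_lit 1077969936)) (.cons (.rel (nat_lit 1077969936)) .nil)))) .nil)) .nil)) (.node (.node .leaf (nat_lit 13810181705602554) (.br (nat_lit 1) (.cons (.br (nat_lit 3) (.cons (.rel (nat_lit 303038529)) .nil)) .nil)) .leaf) (nat_lit 13810939786741785) (.br (nat_lit 0) (.cons (.br (nat_lit 4) (.cons (.rel (nat_lit 1077940488)) (.cons (.rel (nat_lit 1077940488)) .nil))) (.cons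 (.br (nat_lit 4) (.cons (.rel (nat_lit 1077938688)) (.cons (.rel (nat_lit 1077952800)) .nil))) .nil))) (.node .leaf (nat_lit 13810939786742545) (.br (nat_lit 5) (.cons (.br (nat_lit 0) (.cons (.rel (nat_lit 8598327588)) (.cons (.rel (nat_lit 8598405120)) (.cons (.rel (nat_lit 4299161865)) .nil)))) .nil)) .leaf))) (nat_lit 13810939786742570) (.br (nat_lit 5) (.cons (.br (nat_lit 0) (.cons (.rel (nat_lit 4299167760)) (.cons (.rel (nat_lit 4299166725)) .nil))) .nil)) (.node (.node (.node .leaf (nat_lit 13810939786743265) (.br (nat_lit 0) (.cons (.br (nat_lit 5) (.cons (.rel (nat_lit 4299167760)) .nil)) .nil)) .leaf) (nat_lit 13810939786743290) (.br (nat_lit 0) (.cons (.br (nat_lit 4) (.cons (.rel (nat_lit 2155873536)) .nil)) .nil)) (.node .leaf (nat_lit 13810939786754058) (.br (nat_lit 1) (.cons (.br (nat_lit 2) (.cons (.rel (nat_lit 150999168)) .nil)) .nil)) .leaf)) (nat_lit 13810939786755574) (.br (nat_lit 0) (.cons (.br (nat_lit 2) (.cons (.rel (nat_lit 138678288)) .nil)) .nil))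 (.node (.node .leaf (nat_lit 13810939786793720) (.br (nat_lit 4) (.cons (.br (nat_lit 5) (.cons (.rel (nat_lit 5369823360)) (.cons (.rel (nat_lit 6442455312)) (.cons (.rel (nat_lit 5368725570)) .nil)))) (.cons (.br (nat_lit 1) (.cons (.rel (nat_lit 1090519080)) (.cons (.rel (nat_lit 2165313537)) (.cons (.rel (nat_lit 1090555908)) (.cons (.rel (nat_lit 1090543632)) (.cons (.rel (nat_lit 1090555908)) .nil)))))) (.cons (.br (nat_lit 5) (.cons (.rel (nat_lit 10737717264)) (.cons (.rel (nat_lit 9663676689)) (.cons (.rel (nat_lit 5369823360)) .nil)))) .nil)))) .leaf) (nat_lit 13810939786793745) (.br (nat_lit 5) (.cons (.br (nat_lit 1) (.cons (.br (nat_lit 3) (.cons (.rel (nat_lit 8858632194)) (.cons (.rel (nat_lit 302252352)) (.cons (.rel (nat_lit 4563435540)) (.cons (.rel (nat_lit 4563435540)) .nil))))) (.cons (.rel (nat_lit 4312006728)) (.cons (.rel (nat_lit 8607768576)) .nil)))) (.cons (.br (nat_lit 1) (.cons (.rel (nat_lit 4330622976)) (.cons (.rel (nat_lit 8607768576)) (.cons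 (.rel (nat_lit 8607768576)) .nil)))) .nil))) (.node .leaf (nat_lit 13810939786793770) (.br (nat_lit 5) (.cons (.br (nat_lit 3) (.cons (.rel (nat_lit 9126809604)) (.cons (.br (nat_lit 0) (.cons (.rel (nat_lit 4303618176)) (.cons (.rel (nat_lit 4299325440)) (.cons (.rel (nat_lit 273752064)) (.cons (.rel (nat_lit 4300505220)) .nil))))) (.cons (.rel (nat_lit 8858632194)) .nil)))) (.cons (.br (nat_lit 4) (.cons (.rel (nat_lit 5368715328)) (.cons (.rel (nat_lit 5368715328)) (.cons (.rel (nat_lit 10737680388)) (.cons (.rel (nat_lit 9663676689)) .nil))))) .nil))) .leaf)))) (nat_lit 13810939786794465) (.br (nat_lit 5) (.cons (.br (nat_lit 0) (.cons (.rel (nat_lit 4300226625)) (.cons (.rel (nat_lit 4299325440)) (.cons (.rel (nat_lit 4299325440)) (.cons (.rel (nat_lit 4299493440)) .nil))))) .nil)) (.node (.node (.node (.node .leaf (nat_lit 13810939786794515) (.br (nat_lit 5) (.cons (.br (nat_lit 0) (.cons (.rel (nat_lit 4303618176)) (.cons (.br (nat_lit 3) (.cons (.rel (nat_lit 8858632194))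 (.cons (.rel (nat_lit 9126809604)) (.cons (.rel (nat_lit 272908305)) .nil)))) .nil))) .nil)) .leaf) (nat_lit 13810939786818448) (.br (nat_lit 2) (.cons (.br (nat_lit 4) (.cons (.rel (nat_lit 1142162436)) .nil)) .nil)) (.node .leaf (nat_lit 13810939786950666) (.br (nat_lit 1) (.cons (.br (nat_lit 2) (.cons (.rel (nat_lit 167772165)) (.cons (.rel (nat_lit 167773200)) (.cons (.rel (nat_lit 151257600)) .nil)))) .nil)) .leaf)) (nat_lit 13810939786950783) (.br (nat_lit 2) (.cons (.br (nat_lit 4) (.cons (.rel (nat_lit 1140871248)) (.cons (.rel (nat_lit 1140883524)) (.cons (.rel (nat_lit 2214594564)) .nil)))) (.cons (.br (nat_lit 5) (.cons (.rel (nat_lit 4362602496)) (.cons (.rel (nat_lit 4362081348)) (.cons (.rel (nat_lit 4362602496)) .nil)))) .nil))) (.node (.node .leaf (nat_lit 13810939786950811) (.br (nat_lit 1) (.cons (.br (nat_lit 3) (.cons (.rel (nat_lit 286277664)) .nil)) .nil)) .leaf) (nat_lit 13810939786951543) (.br (nat_lit 4) (.cons (.br (nat_lit 5) (.cons (.rel (nat_lit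 5368710468)) (.cons (.rel (nat_lit 5368860744)) (.cons (.rel (nat_lit 5370040320)) (.cons (.rel (nat_lit 5368715328)) .nil))))) (.cons (.br (nat_lit 5) (.cons (.rel (nat_lit 5368710468)) (.cons (.rel (nat_lit 5369233416)) (.cons (.rel (nat_lit 5368710468)) (.cons (.rel (nat_lit 5369233416)) .nil))))) .nil))) (.node .leaf (nat_lit 13810939786951568) (.br (nat_lit 4) (.cons (.br (nat_lit 6) (.cons (.rel (nat_lit 18253746240)) (.cons (.rel (nat_lit 18253746240)) .nil))) .nil)) .leaf))) (nat_lit 13810939786951593) (.br (nat_lit 4) (.cons (.br (nat_lit 6) (.cons (.rel (nat_lit 18253612113)) (.cons (.rel (nat_lit 18253611078)) (.cons (.rel (nat_lit 36507500544)) .nil)))) .nil)) (.node (.node (.node .leaf (nat_lit 13810939787008155) (.br (nat_lit 2) (.cons (.br (nat_lit 5) (.cons (.rel (nat_lit 4362092625)) .nil)) .nil)) .leaf) (nat_lit 13810939787008186) (.br (nat_lit 2) (.cons (.br (nat_lit 4) (.cons (.rel (nat_lit 1140859974)) .nil)) .nil)) (.node .leaf (nat_lit 13810939787205393)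 (.br (nat_lit 4) (.cons (.br (nat_lit 5) (.cons (.rel (nat_lit 6442459137)) .nil)) .nil)) .leaf)) (nat_lit 13810939787205418) (.br (nat_lit 4) (.cons (.br (nat_lit 5) (.cons (.rel (nat_lit 5370040320)) .nil)) .nil)) (.node (.node .leaf (nat_lit 13810939787205545) (.br (nat_lit 4) (.cons (.br (nat_lit 6) (.cons (.rel (nat_lit 18253693248)) .nil)) .nil)) .leaf) (nat_lit 13810939787214055) (.br (nat_lit 4) (.cons (.br (nat_lit 1) (.cons (.rel (nat_lit 1090519080)) (.cons (.rel (nat_lit 1090555908)) .nil))) .nil)) (.node .leaf (nat_lit 13810939787255833) (.br (nat_lit 0) (.cons (.br (nat_lit 4) (.cons (.rel (nat_lit 1079005248)) .nil)) .nil)) .leaf))))) (nat_lit 13810939787256720) (.br (nat_lit 4) (.cons (.br (nat_lit 6) (.cons (.rel (nat_lit 36507500544)) .nil)) .nil)) (.node (.node (.node (.node (.node .leaf (nat_lit 13810939787973388) (.br (nat_lit 0) (.cons (.br (nat_lit 1) (.cons (.rel (nat_lit 41943108)) .nil)) .nil)) .leaf) (nat_lit 13810939787973495) (.br (nat_lit 1) (.cons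 (.br (nat_lit 0) (.cons (.rel (nat_lit 20971656)) (.cons (.rel (nat_lit 22347840)) .nil))) .nil)) (.node .leaf (nat_lit 13810939788045818) (.br (nat_lit 4) (.cons (.br (nat_lit 5) (.cons (.rel (nat_lit 5370822672)) (.cons (.rel (nat_lit 10737680388)) .nil))) .nil)) .leaf)) (nat_lit 13810939788045843) (.br (nat_lit 3) (.cons (.br (nat_lit 4) (.cons (.rel (nat_lit 1342177290)) .nil)) .nil)) (.node (.node .leaf (nat_lit 13810939788288010) (.br (nat_lit 0) (.cons (.br (nat_lit 6) (.cons (.rel (nat_lit 17184072960)) .nil)) .nil)) .leaf) (nat_lit 13810939788288780) (.br (nat_lit 0) (.cons (.br (nat_lit 1) (.cons (.rel (nat_lit 22022160)) (.cons (.rel (nat_lit 21234948)) .nil))) (.cons (.br (nat_lit 1) (.cons (.rel (nat_lit 37753104)) (.cons (.rel (nat_lit 21234948)) .nil))) .nil))) (.node .leaf (nat_lit 13810939788288805) (.br (nat_lit 0) (.cons (.br (nat_lit 6) (.cons (.rel (nat_lit 17184068100)) .nil)) .nil)) .leaf))) (nat_lit 13810939788288811) (.br (nat_lit 1) (.cons (.br (nat_lit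 4) (.cons (.rel (nat_lit 1090519080)) .nil)) .nil)) (.node (.node (.node .leaf (nat_lit 13810939788289257) (.br (nat_lit 0) (.cons (.br (nat_lit 2) (.cons (.rel (nat_lit 71323680)) .nil)) .nil)) .leaf) (nat_lit 13810939788299025) (.br (nat_lit 3) (.cons (.br (nat_lit 5) (.cons (.rel (nat_lit 4563409152)) .nil)) .nil)) (.node .leaf (nat_lit 13810939788299152) (.br (nat_lit 3) (.cons (.br (nat_lit 4) (.cons (.rel (nat_lit 1342455873)) .nil)) .nil)) .leaf)) (nat_lit 13810939788299770) (.br (nat_lit 5) (.cons (.br (nat_lit 0) (.cons (.rel (nat_lit 4299325440)) (.cons (.rel (nat_lit 4303360320)) (.cons (.rel (nat_lit 8598405120)) .nil)))) (.cons (.br (nat_lit 0) (.cons (.rel (nat_lit 4299161865)) (.cons (.rel (nat_lit 4299325440)) (.cons (.rel (nat_lit 4299162900)) .nil)))) .nil))) (.node (.node .leaf (nat_lit 13810939788300298) (.br (nat_lit 0) (.cons (.br (nat_lit 2) (.cons (.rel (nat_lit 138678288)) (.cons (.rel (nat_lit 71434245)) .nil))) .nil)) .leaf) (nat_lit 13810939788301048)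 (.br (nat_lit 4) (.cons (.br (nat_lit 5) (.cons (.rel (nat_lit 9663741957)) .nil)) .nil)) (.node .leaf (nat_lit 13810939788301074) (.br (nat_lit 4) (.cons (.br (nat_lit 0) (.cons (.rel (nat_lit 1079574528)) (.cons (.rel (nat_lit 2151678096)) (.cons (.rel (nat_lit 1082130528)) .nil)))) (.cons (.br (nat_lit 1) (.cons (.rel (nat_lit 1090519080)) (.cons (.rel (nat_lit 1090519080)) (.cons (.rel (nat_lit 1090519080)) .nil)))) .nil))) .leaf)))) (nat_lit 13810939788301093) (.br (nat_lit 0) (.cons (.br (nat_lit 2) (.cons (.rel (nat_lit 142610436)) .nil)) .nil)) (.node (.node (.node (.node .leaf (nat_lit 13810939788301099) (.br (nat_lit 3) (.cons (.br (nat_lit 0) (.cons (.rel (nat_lit 273679380)) (.cons (.rel (nat_lit 272892168)) .nil))) .nil)) .leaf) (nat_lit 13810939788301843) (.br (nat_lit 1) (.cons (.br (nat_lit 3) (.cons (.rel (nat_lit 285495312)) .nil)) .nil)) (.node .leaf (nat_lit 13810939788350200) (.br (nat_lit 4) (.cons (.br (nat_lit 2) (.cons (.rel (nat_lit 1142162436)) (.cons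 (.rel (nat_lit 1143017472)) .nil))) .nil)) .leaf)) (nat_lit 13810939788350250) (.br (nat_lit 0) (.cons (.br (nat_lit 6) (.cons (.rel (nat_lit 34364194821)) (.cons (.rel (nat_lit 17184065544)) (.cons (.rel (nat_lit 17184065544)) .nil)))) (.cons (.br (nat_lit 6) (.cons (.rel (nat_lit 17184210948)) (.cons (.rel (nat_lit 17184064545)) (.cons (.rel (nat_lit 17184096513)) .nil)))) .nil))) (.node (.node .leaf (nat_lit 13810939788350377) (.br (nat_lit 4) (.cons (.br (nat_lit 6) (.cons (.rel (nat_lit 18253693248)) .nil)) .nil)) .leaf) (nat_lit 13810939788350945) (.br (nat_lit 0) (.cons (.br (nat_lit 5) (.cons (.rel (nat_lit 4299235584)) (.cons (.rel (nat_lit 4299161865)) (.cons (.rel (nat_lit 4303618176)) .nil)))) (.cons (.br (nat_lit 5) (.cons (.rel (nat_lit 4299182592)) (.cons (.rel (nat_lit 4299167760)) (.cons (.rel (nat_lit 4299325440)) .nil)))) (.cons (.br (nat_lit 2) (.cons (.rel (nat_lit 75497538)) (.cons (.rel (nat_lit 75497538)) (.cons (.rel (nat_lit 77594640)) (.cons (.rel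 (nat_lit 71434245)) .nil))))) .nil)))) (.node .leaf (nat_lit 13810939788507263) (.br (nat_lit 5) (.cons (.br (nat_lit 0) (.cons (.rel (nat_lit 4299325440)) (.cons (.rel (nat_lit 8595181569)) .nil))) .nil)) .leaf))) (nat_lit 13810939788508393) (.br (nat_lit 2) (.cons (.br (nat_lit 4) (.cons (.rel (nat_lit 1143017472)) (.cons (.rel (nat_lit 1142259720)) .nil))) (.cons (.br (nat_lit 6) (.cons (.rel (nat_lit 17247011136)) (.cons (.rel (nat_lit 17247064128)) (.cons (.rel (nat_lit 17246979168)) .nil)))) .nil))) (.node (.node (.node .leaf (nat_lit 13810939788508641) (.br (nat_lit 6) (.cons (.br (nat_lit 1) (.cons (.rel (nat_lit 34393358592)) (.cons (.rel (nat_lit 34393628736)) .nil))) .nil)) .leaf) (nat_lit 13810939788508691) (.br (nat_lit 2) (.cons (.br (nat_lit 6) (.cons (.rel (nat_lit 17314088196)) .nil)) .nil)) (.node .leaf (nat_lit 13810939788535045) (.br (nat_lit 3) (.cons (.br (nat_lit 1) (.cons (.rel (nat_lit 301989906)) (.cons (.rel (nat_lit 285540609)) .nil))) .nil)) .leaf))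 (nat_lit 13810939789265023) (.br (nat_lit 5) (.cons (.br (nat_lit 4) (.cons (.rel (nat_lit 5370040320)) (.cons (.rel (nat_lit 5369233416)) .nil))) .nil)) (.node (.node .leaf (nat_lit 13810939789265783) (.br (nat_lit 6) (.cons (.br (nat_lit 4) (.cons (.rel (nat_lit 35433480708)) (.cons (.rel (nat_lit 18253612113)) .nil))) .nil)) .leaf) (nat_lit 13810939789508618) (.br (nat_lit 2) (.cons (.br (nat_lit 3) (.cons (.rel (nat_lit 335546370)) .nil)) .nil)) (.node .leaf (nat_lit 13810939789509244) (.br (nat_lit 0) (.cons (.br (nat_lit 1) (.cons (.rel (nat_lit 20971656)) .nil)) .nil)) .leaf)))))) (nat_lit 13810939789509368) (.br (nat_lit 0) (.cons (.br (nat_lit 2) (.cons (.rel (nat_lit 142607649)) .nil)) .nil)) (.node (.node (.node (.node (.node (.node .leaf (nat_lit 13810939789772825) (.br (nat_lit 0) (.cons (.br (nat_lit 5) (.cons (.rel (nat_lit 4299325440)) (.cons (.rel (nat_lit 8594653248)) .nil))) .nil)) .leaf) (nat_lit 13810939789774305) (.br (nat_lit 0) (.cons (.br (nat_lit 6)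 (.cons (.rel (nat_lit 17184065544)) (.cons (.rel (nat_lit 17184065544)) (.cons (.rel (nat_lit 17184065544)) .nil)))) (.cons (.br (nat_lit 6) (.cons (.rel (nat_lit 17184096513)) (.cons (.rel (nat_lit 17184063510)) (.cons (.rel (nat_lit 17184064545)) .nil)))) (.cons (.br (nat_lit 1) (.cons (.rel (nat_lit 37765380)) (.cons (.rel (nat_lit 22089984)) (.cons (.rel (nat_lit 20971656)) .nil)))) .nil)))) (.node .leaf (nat_lit 13810939789774330) (.br (nat_lit 0) (.cons (.br (nat_lit 1) (.cons (.rel (nat_lit 22347840)) (.cons (.br (nat_lit 2) (.cons (.rel (nat_lit 100671552)) (.cons (.rel (nat_lit 71567424)) (.cons (.rel (nat_lit 71304708)) .nil)))) .nil))) .nil)) .leaf)) (nat_lit 13810939789774355) (.br (nat_lit 0) (.cons (.br (nat_lit 1) (.cons (.rel (nat_lit 22347840)) (.cons (.rel (nat_lit 41943108)) .nil))) (.cons (.br (nat_lit 1) (.cons (.rel (nat_lit 25166097)) (.cons (.rel (nat_lit 21239808)) .nil))) .nil))) (.node (.node .leaf (nat_lit 13810939901545978) (.br (nat_lit 0) (.cons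 (.br (nat_lit 1) (.cons (.rel (nat_lit 22089984)) .nil)) .nil)) .leaf) (nat_lit 13810940436910840) (.br (nat_lit 0) (.cons (.br (nat_lit 2) (.cons (.rel (nat_lit 71311368)) .nil)) .nil)) (.node .leaf (nat_lit 13810940438418168) (.br (nat_lit 4) (.cons (.br (nat_lit 5) (.cons (.rel (nat_lit 5369233416)) .nil)) .nil)) .leaf))) (nat_lit 13810943184179960) (.br (nat_lit 2) (.cons (.br (nat_lit 5) (.cons (.rel (nat_lit 8657043744)) .nil)) .nil)) (.node (.node (.node .leaf (nat_lit 13810943184180010) (.br (nat_lit 0) (.cons (.br (nat_lit 2) (.cons (.rel (nat_lit 142610436)) .nil)) .nil)) .leaf) (nat_lit 13810943185685985) (.br (nat_lit 0) (.cons (.br (nat_lit 5) (.cons (.rel (nat_lit 4299161865)) .nil)) .nil)) (.node .leaf (nat_lit 13810943185686010) (.br (nat_lit 2) (.cons (.br (nat_lit 4) (.cons (.rel (nat_lit 1143017472)) .nil)) .nil)) .leaf)) (nat_lit 13810943185688058) (.br (nat_lit 1) (.cons (.br (nat_lit 2) (.cons (.rel (nat_lit 167772165)) .nil)) .nil)) (.node (.node .leaf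 (nat_lit 13810943187160570) (.br (nat_lit 2) (.cons (.br (nat_lit 3) (.cons (.rel (nat_lit 403177536)) .nil)) .nil)) .leaf) (nat_lit 13810943187160595) (.br (nat_lit 3) (.cons (.br (nat_lit 4) (.cons (.rel (nat_lit 1342178325)) .nil)) .nil)) (.node .leaf (nat_lit 13810943187222708) (.br (nat_lit 2) (.cons (.br (nat_lit 4) (.cons (.rel (nat_lit 1208484480)) .nil)) .nil)) .leaf)))) (nat_lit 13810943456757785) (.br (nat_lit 0) (.cons (.br (nat_lit 2) (.cons (.rel (nat_lit 71319810)) .nil)) .nil)) (.node (.node (.node (.node .leaf (nat_lit 13810943459389465) (.br (nat_lit 2) (.cons (.br (nat_lit 3) (.cons (.rel (nat_lit 335544345)) .nil)) .nil)) .leaf) (nat_lit 13810943465355274) (.br (nat_lit 0) (.cons (.br (nat_lit 1) (.cons (.rel (nat_lit 25169922)) .nil)) .nil)) (.node .leaf (nat_lit 13810943466705682) (.br (nat_lit 0) (.cons (.br (nat_lit 1) (.cons (.rel (nat_lit 25232400)) .nil)) .nil)) .leaf)) (nat_lit 13810943468167178) (.br (nat_lit 2) (.cons (.br (nat_lit 3) (.cons (.rel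 (nat_lit 335546370)) .nil)) .nil)) (.node (.node .leaf (nat_lit 13810945072089369) (.br (nat_lit 1) (.cons (.br (nat_lit 3) (.cons (.rel (nat_lit 285477378)) .nil)) .nil)) .leaf) (nat_lit 13810945073122065) (.br (nat_lit 2) (.cons (.br (nat_lit 5) (.cons (.rel (nat_lit 4362076488)) .nil)) .nil)) (.node .leaf (nat_lit 13811369493187320) (.br (nat_lit 5) (.cons (.br (nat_lit 2) (.cons (.rel (nat_lit 8658096192)) (.cons (.rel (nat_lit 4362076488)) (.cons (.rel (nat_lit 4362602496)) .nil)))) .nil)) .leaf))) (nat_lit 13811369493187345) (.br (nat_lit 2) (.cons (.br (nat_lit 4) (.cons (.rel (nat_lit 1207968000)) (.cons (.rel (nat_lit 1140916545)) (.cons (.rel (nat_lit 1140883524)) .nil)))) (.cons (.br (nat_lit 4) (.cons (.rel (nat_lit 1207959585)) (.cons (.rel (nat_lit 1208057856)) (.cons (.rel (nat_lit 1143017472)) .nil)))) .nil))) (.node (.node (.node .leaf (nat_lit 13811369493187370) (.br (nat_lit 4) (.cons (.br (nat_lit 5) (.cons (.rel (nat_lit 6442455312)) .nil)) .nil)) .leaf)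 (nat_lit 13811369493188065) (.br (nat_lit 4) (.cons (.br (nat_lit 5) (.cons (.rel (nat_lit 10737680388)) (.cons (.rel (nat_lit 5370040320)) .nil))) .nil)) (.node .leaf (nat_lit 13811369493188090) (.br (nat_lit 3) (.cons (.br (nat_lit 5) (.cons (.rel (nat_lit 4563409152)) .nil)) .nil)) .leaf)) (nat_lit 13811369493238520) (.br (nat_lit 4) (.cons (.br (nat_lit 5) (.cons (.rel (nat_lit 6442467588)) .nil)) .nil)) (.node (.node .leaf (nat_lit 13811369493238545) (.br (nat_lit 2) (.cons (.br (nat_lit 4) (.cons (.rel (nat_lit 1207968000)) (.cons (.rel (nat_lit 1142162436)) .nil))) (.cons (.br (nat_lit 5) (.cons (.rel (nat_lit 8724415488)) (.cons (.rel (nat_lit 4363141248)) .nil))) .nil))) .leaf) (nat_lit 13811369493238570) (.br (nat_lit 0) (.cons (.br (nat_lit 3) (.cons (.rel (nat_lit 276828177)) (.cons (.rel (nat_lit 272631936)) (.cons (.rel (nat_lit 541069569)) .nil)))) (.cons (.br (nat_lit 3) (.cons (.rel (nat_lit 272631936)) (.cons (.rel (nat_lit 541069569)) (.cons (.rel (nat_lit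 272631936)) .nil)))) (.cons (.br (nat_lit 5) (.cons (.rel (nat_lit 4299440448)) (.cons (.rel (nat_lit 4299161865)) (.cons (.rel (nat_lit 4299178002)) .nil)))) .nil)))) (.node .leaf (nat_lit 13811369493239315) (.br (nat_lit 5) (.cons (.br (nat_lit 1) (.cons (.rel (nat_lit 4328588352)) (.cons (.rel (nat_lit 4311778320)) (.cons (.rel (nat_lit 4311747072)) .nil)))) .nil)) .leaf))))) (nat_lit 13811369493396117) (.br (nat_lit 4) (.cons (.br (nat_lit 5) (.cons (.rel (nat_lit 10737680388)) .nil)) .nil)) (.node (.node (.node (.node (.node .leaf (nat_lit 13811369493397011) (.br (nat_lit 4) (.cons (.br (nat_lit 5) (.cons (.rel (nat_lit 5369233416)) .nil)) .nil)) .leaf) (nat_lit 13811369493650193) (.br (nat_lit 4) (.cons (.br (nat_lit 5) (.cons (.rel (nat_lit 5369233416)) .nil)) .nil)) (.node .leaf (nat_lit 13811369493650218) (.br (nat_lit 4) (.cons (.br (nat_lit 5) (.cons (.rel (nat_lit 6442459137)) .nil)) .nil)) .leaf)) (nat_lit 13811369494489749) (.br (nat_lit 5) (.cons (.br (nat_lit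 6) (.cons (.rel (nat_lit 21474844740)) .nil)) .nil)) (.node (.node .leaf (nat_lit 13811369494733580) (.br (nat_lit 2) (.cons (.br (nat_lit 3) (.cons (.rel (nat_lit 335546370)) .nil)) .nil)) .leaf) (nat_lit 13811369494952823) (.br (nat_lit 2) (.cons (.br (nat_lit 4) (.cons (.rel (nat_lit 1140871248)) .nil)) .nil)) (.node .leaf (nat_lit 13811369494953441) (.br (nat_lit 3) (.cons (.br (nat_lit 6) (.cons (.rel (nat_lit 34628437248)) .nil)) .nil)) .leaf))) (nat_lit 13811369496219105) (.br (nat_lit 5) (.cons (.br (nat_lit 0) (.cons (.rel (nat_lit 4299166725)) (.cons (.rel (nat_lit 4303360320)) .nil))) .nil)) (.node (.node (.node .leaf (nat_lit 13811369496219155) (.br (nat_lit 0) (.cons (.br (nat_lit 5) (.cons (.rel (nat_lit 4299162900)) .nil)) .nil)) .leaf) (nat_lit 13811372576000025) (.br (nat_lit 6) (.cons (.br (nat_lit 4) (.cons (.rel (nat_lit 35433611280)) (.cons (.rel (nat_lit 36507500544)) .nil))) .nil)) (.node .leaf (nat_lit 13811372576000760) (.br (nat_lit 2) (.cons (.br (nat_lit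 5) (.cons (.rel (nat_lit 4362602496)) .nil)) .nil)) .leaf)) (nat_lit 13811372576000810) (.br (nat_lit 0) (.cons (.br (nat_lit 6) (.cons (.rel (nat_lit 17184068100)) .nil)) .nil)) (.node (.node .leaf (nat_lit 13811372576001505) (.br (nat_lit 2) (.cons (.br (nat_lit 4) (.cons (.rel (nat_lit 2214739968)) .nil)) .nil)) .leaf) (nat_lit 13811372576051985) (.br (nat_lit 4) (.cons (.br (nat_lit 5) (.cons (.rel (nat_lit 5368774737)) .nil)) .nil)) (.node .leaf (nat_lit 13811372576052755) (.br (nat_lit 4) (.cons (.br (nat_lit 5) (.cons (.rel (nat_lit 5368715328)) .nil)) .nil)) .leaf)))) (nat_lit 13811372577557265) (.br (nat_lit 0) (.cons (.br (nat_lit 5) (.cons (.rel (nat_lit 4299161865)) .nil)) .nil)) (.node (.node (.node (.node .leaf (nat_lit 13811372577607705) (.br (nat_lit 0) (.cons (.br (nat_lit 2) (.cons (.rel (nat_lit 71311368)) .nil)) .nil)) .leaf) (nat_lit 13811372577608490) (.br (nat_lit 0) (.cons (.br (nat_lit 6) (.cons (.rel (nat_lit 34368163845)) .nil)) .nil)) (.node .leaf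 (nat_lit 13811372579031065) (.br (nat_lit 0) (.cons (.br (nat_lit 1) (.cons (.rel (nat_lit 21239808)) .nil)) .nil)) .leaf)) (nat_lit 13811372579032545) (.br (nat_lit 4) (.cons (.br (nat_lit 5) (.cons (.rel (nat_lit 6442455312)) .nil)) .nil)) (.node (.node .leaf (nat_lit 13811372579032595) (.br (nat_lit 4) (.cons (.br (nat_lit 5) (.cons (.rel (nat_lit 5368715328)) .nil)) .nil)) .leaf) (nat_lit 13812451615438975) (.br (nat_lit 6) (.cons (.br (nat_lit 3) (.cons (.rel (nat_lit 17448321048)) (.cons (.rel (nat_lit 17448321048)) .nil))) .nil)) (.node .leaf (nat_lit 13812451615559866) (.br (nat_lit 0) (.cons (.br (nat_lit 1) (.cons (.rel (nat_lit 21234948)) .nil)) .nil)) .leaf))) (nat_lit 13812451616461687) (.br (nat_lit 1) (.cons (.br (nat_lit 4) (.cons (.rel (nat_lit 1092894720)) .nil)) .nil)) (.node (.node (.node .leaf (nat_lit 13812451616996585) (.br (nat_lit 2) (.cons (.br (nat_lit 4) (.cons (.rel (nat_lit 1140871248)) .nil)) .nil)) .leaf) (nat_lit 13812451618250762) (.br (nat_lit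 2) (.cons (.br (nat_lit 3) (.cons (.rel (nat_lit 335544345)) (.cons (.rel (nat_lit 671089665)) .nil))) .nil)) (.node .leaf (nat_lit 13812506552541364) (.br (nat_lit 0) (.cons (.br (nat_lit 2) (.cons (.rel (nat_lit 142610436)) .nil)) .nil)) .leaf)) (nat_lit 13815234754090385) (.br (nat_lit 0) (.cons (.br (nat_lit 2) (.cons (.rel (nat_lit 71304708)) .nil)) .nil)) (.node (.node .leaf (nat_lit 13815234755597173) (.br (nat_lit 2) (.cons (.br (nat_lit 3) (.cons (.rel (nat_lit 335546370)) .nil)) .nil)) .leaf) (nat_lit 13815234755597713) (.br (nat_lit 0) (.cons (.br (nat_lit 4) (.cons (.rel (nat_lit 1078018068)) .nil)) .nil)) .leaf))))))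

/-- refutations 63 -/
def e63 : EX := (.node (.node (.node (.node (.node (.node (.node .leaf (nat_lit 13815672946084017) (.br (nat_lit 0) (.cons (.br (nat_lit 1) (.cons (.rel (nat_lit 21250050)) .nil)) .nil)) .leaf) (nat_lit 13815678822304025) (.br (nat_lit 0) (.cons (.br (nat_lit 1) (.cons (.rel (nat_lit 22089984)) .nil)) .nil)) .leaf) (nat_lit 13816308496173233) (.br (nat_lit 0) (.cons (.br (nat_lit 1) (.cons (.rel (nat_lit 41943108)) .nil)) .nil)) (.node (.node .leaf (nat_lit 13816308498985897) (.br (nat_lit 0) (.cons (.br (nat_lit 1) (.cons (.rel (nat_lit 41943108)) .nil)) .nil)) .leaf) (nat_lit 13816308600720865) (.br (nat_lit 0) (.cons (.br (nat_lit 3) (.cons (.rel (nat_lit 277876800)) .nil)) .nil)) .leaf)) (nat_lit 13816308600792545) (.br (nat_lit 0) (.cons (.br (nat_lit 1) (.cons (.rel (nat_lit 41943108)) .nil)) .nil)) (.node (.node (.node .leaf (nat_lit 13816308602307320) (.br (nat_lit 0) (.cons (.br (nat_lit 1) (.cons (.rel (nat_lit 37756929)) .nil)) .nil)) .leaf)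 (nat_lit 13816308602485993) (.br (nat_lit 3) (.cons (.br (nat_lit 4) (.cons (.rel (nat_lit 2684355600)) .nil)) .nil)) .leaf) (nat_lit 13816566299068593) (.br (nat_lit 6) (.cons (.br (nat_lit 0) (.cons (.rel (nat_lit 17184065544)) (.cons (.rel (nat_lit 17184065544)) (.cons (.rel (nat_lit 17184065544)) .nil)))) .nil)) (.node .leaf (nat_lit 13816566300060309) (.br (nat_lit 1) (.cons (.br (nat_lit 3) (.cons (.rel (nat_lit 553746432)) .nil)) .nil)) .leaf))) (nat_lit 13816566300316434) (.br (nat_lit 0) (.cons (.br (nat_lit 1) (.cons (.rel (nat_lit 41943108)) .nil)) .nil)) (.node (.node (.node (.node .leaf (nat_lit 13816566300317178) (.br (nat_lit 5) (.cons (.br (nat_lit 0) (.cons (.rel (nat_lit 4299180036)) (.cons (.rel (nat_lit 4299167760)) (.cons (.rel (nat_lit 8594395392)) .nil)))) .nil)) .leaf) (nat_lit 13816566300550405) (.br (nat_lit 1) (.cons (.br (nat_lit 6) (.cons (.rel (nat_lit 17196651552)) .nil)) .nil)) .leaf) (nat_lit 13816566301523978) (.br (nat_lit 0) (.cons (.br (nat_lit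 2) (.cons (.rel (nat_lit 138678288)) (.cons (.rel (nat_lit 71311368)) (.cons (.rel (nat_lit 138678288)) .nil)))) .nil)) (.node .leaf (nat_lit 13816566301525223) (.br (nat_lit 0) (.cons (.br (nat_lit 1) (.cons (.rel (nat_lit 21234948)) .nil)) .nil)) .leaf)) (nat_lit 13816566301893368) (.br (nat_lit 0) (.cons (.br (nat_lit 1) (.cons (.rel (nat_lit 21239808)) .nil)) .nil)) (.node (.node (.node .leaf (nat_lit 13816566845575178) (.br (nat_lit 0) (.cons (.br (nat_lit 3) (.cons (.rel (nat_lit 545260608)) .nil)) .nil)) .leaf) (nat_lit 13816569486740713) (.br (nat_lit 0) (.cons (.br (nat_lit 2) (.cons (.rel (nat_lit 71304708)) .nil)) .nil)) .leaf) (nat_lit 13816569487987474) (.br (nat_lit 1) (.cons (.br (nat_lit 2) (.cons (.rel (nat_lit 83902992)) .nil)) .nil)) (.node .leaf (nat_lit 13816569487988218) (.br (nat_lit 1) (.cons (.br (nat_lit 4) (.cons (.rel (nat_lit 1090535937)) .nil)) .nil)) .leaf)))) (nat_lit 13816569488952603) (.br (nat_lit 0) (.cons (.br (nat_lit 2) (.cons (.rel (nat_lit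 72417600)) .nil)) .nil)) (.node (.node (.node (.node (.node .leaf (nat_lit 13816569489459225) (.br (nat_lit 2) (.cons (.br (nat_lit 6) (.cons (.rel (nat_lit 17247064128)) .nil)) .nil)) .leaf) (nat_lit 13816569489460705) (.br (nat_lit 1) (.cons (.br (nat_lit 2) (.cons (.rel (nat_lit 83920128)) (.cons (.rel (nat_lit 167773200)) .nil))) (.cons (.br (nat_lit 2) (.cons (.rel (nat_lit 83973120)) (.cons (.rel (nat_lit 83886090)) .nil))) .nil))) .leaf) (nat_lit 13816569592845074) (.br (nat_lit 0) (.cons (.br (nat_lit 2) (.cons (.rel (nat_lit 71372802)) .nil)) .nil)) (.node (.node .leaf (nat_lit 13816569593810153) (.br (nat_lit 2) (.cons (.br (nat_lit 3) (.cons (.rel (nat_lit 335546370)) .nil)) .nil)) .leaf) (nat_lit 13816569594318305) (.br (nat_lit 1) (.cons (.br (nat_lit 6) (.cons (.rel (nat_lit 17196646692)) .nil)) .nil)) .leaf)) (nat_lit 13816572615691545) (.br (nat_lit 0) (.cons (.br (nat_lit 1) (.cons (.rel (nat_lit 21250050)) .nil)) .nil)) (.node (.node (.node .leaf (nat_lit 13816572616938258)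 (.br (nat_lit 5) (.cons (.br (nat_lit 0) (.cons (.br (nat_lit 1) (.cons (.rel (nat_lit 41943108)) (.cons (.rel (nat_lit 4311778320)) .nil))) (.cons (.rel (nat_lit 4299167760)) .nil))) .nil)) .leaf) (nat_lit 13817468692239122) (.br (nat_lit 1) (.cons (.br (nat_lit 3) (.cons (.rel (nat_lit 285278352)) .nil)) .nil)) .leaf) (nat_lit 13817471807047705) (.br (nat_lit 2) (.cons (.br (nat_lit 5) (.cons (.rel (nat_lit 4362081348)) .nil)) .nil)) (.node .leaf (nat_lit 13817474558720127) (.br (nat_lit 0) (.cons (.br (nat_lit 6) (.cons (.rel (nat_lit 17184065544)) .nil)) .nil)) .leaf))) (nat_lit 13817474558822577) (.br (nat_lit 3) (.cons (.br (nat_lit 6) (.cons (.rel (nat_lit 17448345600)) .nil)) .nil)) (.node (.node (.node (.node .leaf (nat_lit 13817474560070418) (.br (nat_lit 1) (.cons (.br (nat_lit 0) (.cons (.rel (nat_lit 21250050)) (.cons (.rel (nat_lit 21239808)) .nil))) .nil)) .leaf) (nat_lit 13817474561542930) (.br (nat_lit 0) (.cons (.br (nat_lit 6) (.cons (.rel (nat_lit 17184065544))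 .nil)) .nil)) .leaf) (nat_lit 13817474561543649) (.br (nat_lit 3) (.cons (.br (nat_lit 2) (.cons (.br (nat_lit 0) (.cons (.rel (nat_lit 541135872)) (.cons (.rel (nat_lit 71309568)) (.cons (.rel (nat_lit 272892168)) .nil)))) (.cons (.rel (nat_lit 335618064)) .nil))) .nil)) (.node .leaf (nat_lit 13817474659174425) (.br (nat_lit 0) (.cons (.br (nat_lit 4) (.cons (.rel (nat_lit 1077940488)) .nil)) .nil)) .leaf)) (nat_lit 13817474659175210) (.br (nat_lit 4) (.cons (.br (nat_lit 5) (.cons (.rel (nat_lit 6442455312)) .nil)) .nil)) (.node (.node (.node .leaf (nat_lit 13817474659175905) (.br (nat_lit 0) (.cons (.br (nat_lit 1) (.cons (.rel (nat_lit 25231365)) .nil)) .nil)) .leaf) (nat_lit 13817474659226385) (.br (nat_lit 0) (.cons (.br (nat_lit 1) (.cons (.rel (nat_lit 21299217)) .nil)) .nil)) .leaf) (nat_lit 13817474659226410) (.br (nat_lit 4) (.cons (.br (nat_lit 0) (.cons (.rel (nat_lit 1077938688)) (.cons (.rel (nat_lit 1077945348)) .nil))) .nil)) (.node .leaf (nat_lit 13817474659227155)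 (.br (nat_lit 0) (.cons (.br (nat_lit 2) (.cons (.rel (nat_lit 71309568)) .nil)) .nil)) .leaf))))) (nat_lit 13817474659246885) (.br (nat_lit 0) (.cons (.br (nat_lit 5) (.cons (.rel (nat_lit 4299235584)) (.cons (.rel (nat_lit 4299161865)) .nil))) .nil)) (.node (.node (.node (.node (.node (.node .leaf (nat_lit 13817474660732385) (.br (nat_lit 1) (.cons (.br (nat_lit 6) (.cons (.rel (nat_lit 17196713985)) .nil)) .nil)) .leaf) (nat_lit 13817474660783585) (.br (nat_lit 0) (.cons (.br (nat_lit 4) (.cons (.rel (nat_lit 1077952800)) .nil)) .nil)) .leaf) (nat_lit 13817474660783635) (.br (nat_lit 4) (.cons (.br (nat_lit 5) (.cons (.rel (nat_lit 9663676689)) .nil)) .nil)) (.node (.node .leaf (nat_lit 13817474662205465) (.br (nat_lit 4) (.cons (.br (nat_lit 6) (.cons (.rel (nat_lit 36507500544)) .nil)) .nil)) .leaf) (nat_lit 13817474662206225) (.br (nat_lit 6) (.cons (.br (nat_lit 0) (.cons (.rel (nat_lit 17184064545)) (.cons (.rel (nat_lit 17184065544)) .nil))) .nil)) .leaf)) (nat_lit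 13817474662206945) (.br (nat_lit 0) (.cons (.br (nat_lit 4) (.cons (.rel (nat_lit 2155873536)) .nil)) .nil)) (.node (.node (.node .leaf (nat_lit 13817683535565560) (.br (nat_lit 1) (.cons (.br (nat_lit 2) (.cons (.rel (nat_lit 167772165)) .nil)) .nil)) .leaf) (nat_lit 13817683535831220) (.br (nat_lit 2) (.cons (.br (nat_lit 4) (.cons (.rel (nat_lit 1207959585)) .nil)) .nil)) .leaf) (nat_lit 13817683537276135) (.br (nat_lit 2) (.cons (.br (nat_lit 6) (.cons (.rel (nat_lit 17314088196)) .nil)) .nil)) (.node .leaf (nat_lit 13817684082535785) (.br (nat_lit 3) (.cons (.br (nat_lit 5) (.cons (.rel (nat_lit 4563409152)) .nil)) .nil)) .leaf))) (nat_lit 13817686177925145) (.br (nat_lit 0) (.cons (.br (nat_lit 4) (.cons (.rel (nat_lit 1077940488)) (.cons (.rel (nat_lit 1077938688)) (.cons (.rel (nat_lit 1077956625)) .nil)))) .nil)) (.node (.node (.node (.node .leaf (nat_lit 13817686177925880) (.br (nat_lit 2) (.cons (.br (nat_lit 4) (.cons (.rel (nat_lit 1141391361)) .nil)) .nil)) .leaf)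 (nat_lit 13817686177925930) (.br (nat_lit 5) (.cons (.br (nat_lit 2) (.cons (.rel (nat_lit 4363141248)) (.cons (.rel (nat_lit 4362081348)) .nil))) .nil)) .leaf) (nat_lit 13817686177926057) (.br (nat_lit 0) (.cons (.br (nat_lit 1) (.cons (.rel (nat_lit 21250050)) .nil)) .nil)) (.node .leaf (nat_lit 13817686177977080) (.br (nat_lit 2) (.cons (.br (nat_lit 3) (.cons (.rel (nat_lit 335565072)) .nil)) .nil)) .leaf)) (nat_lit 13817686177977105) (.br (nat_lit 0) (.cons (.br (nat_lit 4) (.cons (.rel (nat_lit 1077938688)) .nil)) .nil)) (.node (.node (.node .leaf (nat_lit 13817686177977130) (.br (nat_lit 2) (.cons (.br (nat_lit 4) (.cons (.rel (nat_lit 1207968000)) .nil)) .nil)) .leaf) (nat_lit 13817686178134026) (.br (nat_lit 0) (.cons (.br (nat_lit 3) (.cons (.rel (nat_lit 541082880)) .nil)) .nil)) .leaf) (nat_lit 13817686178135273) (.br (nat_lit 4) (.cons (.br (nat_lit 5) (.cons (.rel (nat_lit 5368710468)) .nil)) .nil)) (.node .leaf (nat_lit 13817686178135521) (.br (nat_lit 2) (.cons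 (.br (nat_lit 4) (.cons (.rel (nat_lit 1207968000)) .nil)) .nil)) .leaf)))) (nat_lit 13817686178135571) (.br (nat_lit 2) (.cons (.br (nat_lit 4) (.cons (.rel (nat_lit 1142162436)) .nil)) .nil)) (.node (.node (.node (.node (.node .leaf (nat_lit 13817686178439829) (.br (nat_lit 4) (.cons (.br (nat_lit 5) (.cons (.rel (nat_lit 10737680388)) .nil)) .nil)) .leaf) (nat_lit 13817686178459658) (.br (nat_lit 0) (.cons (.br (nat_lit 2) (.cons (.rel (nat_lit 71304708)) .nil)) .nil)) .leaf) (nat_lit 13817686178461153) (.br (nat_lit 1) (.cons (.br (nat_lit 3) (.cons (.rel (nat_lit 301994496)) .nil)) .nil)) (.node (.node .leaf (nat_lit 13817686179472140) (.br (nat_lit 0) (.cons (.br (nat_lit 5) (.cons (.rel (nat_lit 4299161865)) (.cons (.rel (nat_lit 4299182592)) .nil))) .nil)) .leaf) (nat_lit 13817686179482360) (.br (nat_lit 5) (.cons (.br (nat_lit 3) (.cons (.rel (nat_lit 4563409152)) (.cons (.rel (nat_lit 4563404292)) .nil))) .nil)) .leaf)) (nat_lit 13817686179483130) (.br (nat_lit 1)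 (.cons (.br (nat_lit 5) (.cons (.rel (nat_lit 8623490304)) .nil)) .nil)) (.node (.node (.node .leaf (nat_lit 13817686179533610) (.br (nat_lit 0) (.cons (.br (nat_lit 1) (.cons (.rel (nat_lit 21239808)) (.cons (.rel (nat_lit 25169922)) .nil))) .nil)) .leaf) (nat_lit 13817686179534305) (.br (nat_lit 4) (.cons (.br (nat_lit 5) (.cons (.rel (nat_lit 6442472448)) .nil)) .nil)) .leaf) (nat_lit 13817686179534355) (.br (nat_lit 1) (.cons (.br (nat_lit 5) (.cons (.rel (nat_lit 4311748872)) .nil)) .nil)) (.node .leaf (nat_lit 13817686179687655) (.br (nat_lit 1) (.cons (.br (nat_lit 4) (.cons (.rel (nat_lit 1090535937)) .nil)) .nil)) .leaf))) (nat_lit 13817686180448383) (.br (nat_lit 1) (.cons (.br (nat_lit 4) (.cons (.rel (nat_lit 1090519080)) (.cons (.rel (nat_lit 1090519080)) .nil))) (.cons (.br (nat_lit 4) (.cons (.rel (nat_lit 1090520070)) (.cons (.rel (nat_lit 1091569728)) .nil))) .nil))) (.node (.node (.node (.node .leaf (nat_lit 13817686180449143) (.br (nat_lit 2) (.cons (.br (nat_lit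 4) (.cons (.rel (nat_lit 1140871248)) (.cons (.rel (nat_lit 1140871248)) .nil))) (.cons (.br (nat_lit 4) (.cons (.rel (nat_lit 1140916545)) (.cons (.rel (nat_lit 1140916545)) .nil))) .nil))) .leaf) (nat_lit 13817686180449513) (.br (nat_lit 3) (.cons (.br (nat_lit 5) (.cons (.rel (nat_lit 4563409152)) (.cons (.rel (nat_lit 4563409152)) .nil))) (.cons (.br (nat_lit 2) (.cons (.rel (nat_lit 335546370)) (.cons (.rel (nat_lit 403177536)) (.cons (.rel (nat_lit 604242048)) (.cons (.rel (nat_lit 604242048)) .nil))))) .nil))) .leaf) (nat_lit 13817686180956185) (.br (nat_lit 2) (.cons (.br (nat_lit 5) (.cons (.rel (nat_lit 8657047569)) (.cons (.rel (nat_lit 4429185552)) .nil))) .nil)) (.node .leaf (nat_lit 13817686180956970) (.br (nat_lit 0) (.cons (.br (nat_lit 5) (.cons (.rel (nat_lit 4299166725)) (.cons (.rel (nat_lit 4299161865)) .nil))) .nil)) .leaf)) (nat_lit 13817686180957417) (.br (nat_lit 4) (.cons (.br (nat_lit 6) (.cons (.rel (nat_lit 36507500544)) .nil)) .nil)) (.node (.node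 (.node .leaf (nat_lit 13817686180957665) (.br (nat_lit 5) (.cons (.br (nat_lit 1) (.cons (.rel (nat_lit 4311747072)) (.cons (.rel (nat_lit 8623755588)) .nil))) .nil)) .leaf) (nat_lit 13817686180957687) (.br (nat_lit 0) (.cons (.br (nat_lit 1) (.cons (.rel (nat_lit 21250050)) .nil)) .nil)) .leaf) (nat_lit 13817686180957715) (.br (nat_lit 1) (.cons (.br (nat_lit 5) (.cons (.rel (nat_lit 4311748872)) .nil)) .nil)) (.node .leaf (nat_lit 13817686181053943) (.br (nat_lit 2) (.cons (.br (nat_lit 6) (.cons (.rel (nat_lit 17314103298)) .nil)) .nil)) .leaf))))))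

/-- refutations 64 -/
def e64 : EX := (.node (.node (.node (.node (.node (.node .leaf (nat_lit 13817694768178577) (.br (nat_lit 0) (.cons (.br (nat_lit 2) (.cons (.rel (nat_lit 142610436)) .nil)) .nil)) .leaf) (nat_lit 13817871864166555) (.br (nat_lit 1) (.cons (.br (nat_lit 2) (.cons (.rel (nat_lit 101974017)) .nil)) .nil)) .leaf) (nat_lit 13817871865724137) (.br (nat_lit 2) (.cons (.br (nat_lit 3) (.cons (.rel (nat_lit 335544345)) .nil)) .nil)) (.node (.node .leaf (nat_lit 13817871866990049) (.br (nat_lit 0) (.cons (.br (nat_lit 4) (.cons (.rel (nat_lit 1078018068)) .nil)) .nil)) .leaf) (nat_lit 13817901031147545) (.br (nat_lit 0) (.cons (.br (nat_lit 2) (.cons (.rel (nat_lit 71372802)) .nil)) .nil)) .leaf)) (nat_lit 13817901031148280) (.br (nat_lit 1) (.cons (.br (nat_lit 5) (.cons (.rel (nat_lit 4311753732)) .nil)) .nil)) (.node (.node (.node .leaf (nat_lit 13817901031357673) (.br (nat_lit 3) (.cons (.br (nat_lit 4) (.cons (.rel (nat_lit 2685440064)) (.cons (.rel (nat_lit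 2416189440)) .nil))) (.cons (.br (nat_lit 0) (.cons (.rel (nat_lit 545260608)) (.cons (.rel (nat_lit 272631936)) (.cons (.rel (nat_lit 273679380)) .nil)))) .nil))) .leaf) (nat_lit 13817901031357723) (.br (nat_lit 4) (.cons (.br (nat_lit 2) (.cons (.rel (nat_lit 2214597120)) (.cons (.rel (nat_lit 1140883524)) .nil))) .nil)) .leaf) (nat_lit 13817901032705505) (.br (nat_lit 2) (.cons (.br (nat_lit 5) (.cons (.rel (nat_lit 4362602496)) .nil)) .nil)) (.node .leaf (nat_lit 13817901032705530) (.br (nat_lit 2) (.cons (.br (nat_lit 5) (.cons (.rel (nat_lit 4362076488)) .nil)) .nil)) .leaf))) (nat_lit 13817901032756755) (.br (nat_lit 0) (.cons (.br (nat_lit 6) (.cons (.rel (nat_lit 17184068100)) (.cons (.rel (nat_lit 17185112133)) (.cons (.rel (nat_lit 17184065544)) .nil)))) (.cons (.br (nat_lit 1) (.cons (.rel (nat_lit 20971656)) (.cons (.rel (nat_lit 38010960)) .nil))) .nil))) (.node (.node (.node (.node .leaf (nat_lit 13817901033670783) (.br (nat_lit 4) (.cons (.br (nat_lit 6) (.cons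 (.rel (nat_lit 18254660736)) .nil)) .nil)) .leaf) (nat_lit 13817901033671913) (.br (nat_lit 3) (.cons (.br (nat_lit 4) (.cons (.rel (nat_lit 1342177290)) .nil)) .nil)) .leaf) (nat_lit 13817901034179370) (.br (nat_lit 0) (.cons (.br (nat_lit 5) (.cons (.rel (nat_lit 4299161865)) .nil)) .nil)) (.node (.node .leaf (nat_lit 13817901034180065) (.br (nat_lit 6) (.cons (.br (nat_lit 5) (.cons (.rel (nat_lit 21474967617)) (.cons (.rel (nat_lit 38654707992)) .nil))) .nil)) .leaf) (nat_lit 13817901034180115) (.br (nat_lit 2) (.cons (.br (nat_lit 3) (.cons (.rel (nat_lit 335544345)) .nil)) .nil)) .leaf)) (nat_lit 13820646622546680) (.br (nat_lit 3) (.cons (.br (nat_lit 5) (.cons (.rel (nat_lit 4831854660)) .nil)) .nil)) (.node (.node (.node .leaf (nat_lit 13820646622547450) (.br (nat_lit 0) (.cons (.br (nat_lit 3) (.cons (.rel (nat_lit 545260608)) .nil)) .nil)) .leaf) (nat_lit 13820646622597880) (.br (nat_lit 5) (.cons (.br (nat_lit 0) (.cons (.rel (nat_lit 8595194880)) (.cons (.rel (nat_lit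 4299325440)) .nil))) .nil)) .leaf) (nat_lit 13820646622597930) (.br (nat_lit 4) (.cons (.br (nat_lit 6) (.cons (.rel (nat_lit 35433480708)) .nil)) .nil)) (.node .leaf (nat_lit 13820646622598675) (.br (nat_lit 0) (.cons (.br (nat_lit 2) (.cons (.rel (nat_lit 142610436)) .nil)) .nil)) .leaf)))) (nat_lit 13820646624103185) (.br (nat_lit 2) (.cons (.br (nat_lit 3) (.cons (.rel (nat_lit 335544345)) .nil)) .nil)) (.node (.node (.node (.node (.node .leaf (nat_lit 13820695785542418) (.br (nat_lit 0) (.cons (.br (nat_lit 2) (.cons (.rel (nat_lit 142610436)) .nil)) .nil)) .leaf) (nat_lit 13820695787015649) (.br (nat_lit 0) (.cons (.br (nat_lit 1) (.cons (.rel (nat_lit 20971656)) .nil)) .nil)) .leaf) (nat_lit 13821093092462049) (.br (nat_lit 0) (.cons (.br (nat_lit 3) (.cons (.rel (nat_lit 272957472)) .nil)) .nil)) (.node (.node .leaf (nat_lit 13821099614604769) (.br (nat_lit 0) (.cons (.br (nat_lit 2) (.cons (.rel (nat_lit 71319810)) .nil)) .nil)) .leaf) (nat_lit 13821125403906058) (.br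 (nat_lit 3) (.cons (.br (nat_lit 4) (.cons (.rel (nat_lit 1342177290)) .nil)) .nil)) .leaf)) (nat_lit 13821133869473802) (.br (nat_lit 2) (.cons (.br (nat_lit 3) (.cons (.rel (nat_lit 335546370)) .nil)) .nil)) (.node (.node (.node .leaf (nat_lit 13821133869474547) (.br (nat_lit 3) (.cons (.br (nat_lit 4) (.cons (.rel (nat_lit 1342196229)) .nil)) .nil)) .leaf) (nat_lit 13822750946881546) (.br (nat_lit 2) (.cons (.br (nat_lit 3) (.cons (.rel (nat_lit 335565072)) .nil)) .nil)) .leaf) (nat_lit 13822750947117208) (.br (nat_lit 2) (.cons (.br (nat_lit 0) (.cons (.rel (nat_lit 71304708)) (.cons (.rel (nat_lit 71304708)) .nil))) .nil)) (.node .leaf (nat_lit 13822750947117993) (.br (nat_lit 3) (.cons (.br (nat_lit 4) (.cons (.rel (nat_lit 1342455873)) .nil)) .nil)) .leaf))) (nat_lit 13822750949329783) (.br (nat_lit 2) (.cons (.br (nat_lit 3) (.cons (.rel (nat_lit 335544345)) .nil)) .nil)) (.node (.node (.node (.node .leaf (nat_lit 13822750949330153) (.br (nat_lit 0) (.cons (.br (nat_lit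 2) (.cons (.rel (nat_lit 71319810)) .nil)) .nil)) .leaf) (nat_lit 13822750949572618) (.br (nat_lit 0) (.cons (.br (nat_lit 1) (.cons (.rel (nat_lit 37756929)) .nil)) .nil)) .leaf) (nat_lit 13822750949574033) (.br (nat_lit 3) (.cons (.br (nat_lit 4) (.cons (.rel (nat_lit 2684354565)) .nil)) .nil)) (.node .leaf (nat_lit 13822965802660020) (.br (nat_lit 1) (.cons (.br (nat_lit 2) (.cons (.rel (nat_lit 151257600)) .nil)) .nil)) .leaf)) (nat_lit 13822965802660715) (.br (nat_lit 5) (.cons (.br (nat_lit 1) (.cons (.rel (nat_lit 4311747072)) (.cons (.rel (nat_lit 4311747072)) .nil))) .nil)) (.node (.node (.node .leaf (nat_lit 13822965803048970) (.br (nat_lit 2) (.cons (.br (nat_lit 5) (.cons (.rel (nat_lit 4362092625)) .nil)) .nil)) .leaf) (nat_lit 13822965803060730) (.br (nat_lit 2) (.cons (.br (nat_lit 3) (.cons (.rel (nat_lit 335544345)) .nil)) .nil)) .leaf) (nat_lit 13822969492575738) (.br (nat_lit 1) (.cons (.br (nat_lit 5) (.cons (.rel (nat_lit 4311748872)) .nil)) .nil)) (.node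 .leaf (nat_lit 13823054890139679) (.br (nat_lit 0) (.cons (.br (nat_lit 1) (.cons (.rel (nat_lit 20971656)) .nil)) .nil)) .leaf)))))

/-- refutations 65 -/
def e65 : EX := (.node (.node .leaf (nat_lit 13757189774346992) (.br (nat_lit 0) (.cons (.br (nat_lit 4) (.cons (.rel (nat_lit 1077945348)) .nil)) .nil)) .leaf) (nat_lit 13758169213849610) (.br (nat_lit 1) (.cons (.br (nat_lit 2) (.cons (.rel (nat_lit 84164673)) .nil)) .nil)) .leaf)

/-- refutations 66 -/
def e66 : EX := (.node (.node (.node (.node .leaf (nat_lit 13846124272132908) (.br (nat_lit 0) (.cons (.br (nat_lit 1) (.cons (.rel (nat_lit 21299217)) .nil)) .nil)) .leaf) (nat_lit 13846126805748338) (.br (nat_lit 1) (.cons (.br (nat_lit 4) (.cons (.rel (nat_lit 1090585104)) .nil)) .nil)) .leaf) (nat_lit 13846126805748969) (.br (nat_lit 1) (.cons (.br (nat_lit 3) (.cons (.rel (nat_lit 285540609)) .nil)) .nil)) (.node .leaf (nat_lit 13846339012014111) (.br (nat_lit 0) (.cons (.br (nat_lit 4) (.cons (.rel (nat_lit 1077945348))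 .nil)) .nil)) .leaf)) (nat_lit 13846339013561825) (.br (nat_lit 0) (.cons (.br (nat_lit 3) (.cons (.rel (nat_lit 276828177)) .nil)) .nil)) (.node (.node (.node .leaf (nat_lit 13852870561170169) (.br (nat_lit 0) (.cons (.br (nat_lit 3) (.cons (.rel (nat_lit 276840453)) .nil)) .nil)) .leaf) (nat_lit 13856969950728202) (.br (nat_lit 0) (.cons (.br (nat_lit 1) (.cons (.rel (nat_lit 20971656)) .nil)) .nil)) .leaf) (nat_lit 13857939201751050) (.br (nat_lit 0) (.cons (.br (nat_lit 1) (.cons (.rel (nat_lit 41943108)) .nil)) .nil)) (.node .leaf (nat_lit 13858150173677050) (.br (nat_lit 3) (.cons (.br (nat_lit 5) (.cons (.rel (nat_lit 9126809604)) (.cons (.rel (nat_lit 9126809604)) .nil))) .nil)) .leaf)))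

/-- refutations 67 -/
def e67 : EX := (.node (.node (.node (.node .leaf (nat_lit 14161713143564298) (.br (nat_lit 2) (.cons (.br (nat_lit 3) (.cons (.rel (nat_lit 335546370)) .nil)) .nil)) .leaf) (nat_lit 14162185378908170) (.br (nat_lit 1) (.cons (.br (nat_lit 5) (.cons (.rel (nat_lit 4330622976)) .nil)) .nil)) .leaf) (nat_lit 14163004652309985) (.br (nat_lit 0) (.cons (.br (nat_lit 5) (.cons (.rel (nat_lit 4299161865)) .nil)) .nil)) (.node (.node .leaf (nat_lit 14163004655330085) (.br (nat_lit 1) (.cons (.br (nat_lit 3) (.cons (.br (nat_lit 5) (.cons (.br (nat_lit 2) (.cons (.rel (nat_lit 4362076488)) (.cons (.rel (nat_lit 4429185552)) .nil))) .nil)) .nil)) .nil)) .leaf) (nat_lit 14163064928702474) (.br (nat_lit 1) (.cons (.br (nat_lit 5) (.cons (.rel (nat_lit 4330622976)) (.cons (.rel (nat_lit 4311747072)) .nil))) .nil)) .leaf)) (nat_lit 14163307600034572) (.br (nat_lit 0) (.cons (.br (nat_lit 1) (.cons (.rel (nat_lit 22036992)) .nil)) .nil)) (.node (.node (.node .leaf (nat_lit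 14168244618867438) (.br (nat_lit 0) (.cons (.br (nat_lit 1) (.cons (.rel (nat_lit 22036992)) .nil)) .nil)) .leaf) (nat_lit 14168410021244958) (.br (nat_lit 1) (.cons (.br (nat_lit 2) (.cons (.rel (nat_lit 151257600)) .nil)) .nil)) .leaf) (nat_lit 14168416460984330) (.br (nat_lit 0) (.cons (.br (nat_lit 3) (.cons (.rel (nat_lit 272908305)) .nil)) .nil)) (.node .leaf (nat_lit 14169490094919690) (.br (nat_lit 1) (.cons (.br (nat_lit 3) (.cons (.rel (nat_lit 285507588)) (.cons (.rel (nat_lit 285507588)) .nil))) .nil)) .leaf)))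

/-- refutations 68 -/
def e68 : EX := (.node (.node (.node (.node .leaf (nat_lit 14169704172197370) (.br (nat_lit 1) (.cons (.br (nat_lit 2) (.cons (.rel (nat_lit 83886090)) .nil)) .nil)) .leaf) (nat_lit 14169704173744158) (.br (nat_lit 0) (.cons (.br (nat_lit 1) (.cons (.rel (nat_lit 25169922)) .nil)) .nil)) (.node .leaf (nat_lit 14169704948090890) (.br (nat_lit 2) (.cons (.br (nat_lit 3) (.cons (.rel (nat_lit 335546370)) .nil)) .nil)) .leaf)) (nat_lit 14169704949585930) (.br (nat_lit 5) (.cons (.br (nat_lit 0) (.cons (.rel (nat_lit 8594395392)) (.cons (.rel (nat_lit 4299162900)) .nil))) .nil)) (.node (.node .leaf (nat_lit 14169704949598218) (.br (nat_lit 5) (.cons (.br (nat_lit 6) (.cons (.rel (nat_lit 21474838080)) .nil)) .nil)) .leaf) (nat_lit 14169704949691618) (.br (nat_lit 3) (.cons (.br (nat_lit 5) (.cons (.rel (nat_lit 4831842384)) .nil)) .nil)) (.node .leaf (nat_lit 14169704951216138) (.br (nat_lit 5) (.cons (.br (nat_lit 6) (.cons (.rel (nat_lit 38654709780)) .nil))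 .nil)) .leaf))) (nat_lit 14169715586354682) (.br (nat_lit 0) (.cons (.br (nat_lit 1) (.cons (.rel (nat_lit 25183233)) .nil)) .nil)) (.node (.node (.node .leaf (nat_lit 14172533086416353) (.br (nat_lit 1) (.cons (.br (nat_lit 4) (.cons (.rel (nat_lit 2164785216)) .nil)) .nil)) .leaf) (nat_lit 14174895316941605) (.br (nat_lit 0) (.cons (.br (nat_lit 1) (.cons (.rel (nat_lit 21299217)) .nil)) .nil)) (.node .leaf (nat_lit 14174895526656805) (.br (nat_lit 0) (.cons (.br (nat_lit 2) (.cons (.rel (nat_lit 71304708)) .nil)) .nil)) .leaf)) (nat_lit 14174895526707955) (.br (nat_lit 2) (.cons (.br (nat_lit 3) (.cons (.rel (nat_lit 403705857)) .nil)) .nil)) (.node (.node .leaf (nat_lit 14174903905558690) (.br (nat_lit 1) (.cons (.br (nat_lit 4) (.cons (.rel (nat_lit 1090543632)) .nil)) .nil)) .leaf) (nat_lit 14175024167448033) (.br (nat_lit 4) (.cons (.br (nat_lit 3) (.cons (.rel (nat_lit 2416189440)) (.cons (.rel (nat_lit 2684355600)) .nil))) .nil)) .leaf)))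

/-- refutations 70 -/
def e70 : EX := (.node (.node .leaf (nat_lit 14084490028707870) (.br (nat_lit 0) (.cons (.br (nat_lit 1) (.cons (.rel (nat_lit 37770240)) .nil)) .nil)) .leaf) (nat_lit 14085010347774007) (.br (nat_lit 0) (.cons (.br (nat_lit 1) (.cons (.rel (nat_lit 25183233)) .nil)) .nil)) (.node .leaf (nat_lit 14086851843901470) (.br (nat_lit 0) (.cons (.br (nat_lit 3) (.cons (.rel (nat_lit 276824352)) .nil)) .nil)) .leaf))

/-- refutations 72 -/
def e72 : EX := (.node (.node (.node (.node (.node (.node .leaf (nat_lit 15393162893724403) (.br (nat_lit 3) (.cons (.br (nat_lit 4) (.cons (.rel (nat_lit 1342194192)) .nil)) .nil)) .leaf) (nat_lit 15393635236825098) (.br (nat_lit 1) (.cons (.br (nat_lit 2) (.cons (.rel (nat_lit 83955984)) .nil)) .nil)) (.node .leaf (nat_lit 15394240200755460) (.br (nat_lit 2) (.cons (.br (nat_lit 4) (.cons (.rel (nat_lit 1142964480)) .nil)) .nil)) .leaf)) (nat_lit 15394240201231093) (.br (nat_lit 0) (.cons (.br (nat_lit 3) (.cons (.rel (nat_lit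 272892168)) .nil)) .nil)) (.node (.node .leaf (nat_lit 15394240201236511) (.br (nat_lit 1) (.cons (.br (nat_lit 2) (.cons (.rel (nat_lit 83886090)) .nil)) .nil)) .leaf) (nat_lit 15394240201269273) (.br (nat_lit 1) (.cons (.br (nat_lit 2) (.cons (.rel (nat_lit 167772165)) .nil)) .nil)) .leaf)) (nat_lit 15394240201287690) (.br (nat_lit 3) (.cons (.br (nat_lit 6) (.cons (.rel (nat_lit 17716740168)) (.cons (.rel (nat_lit 17448372240)) .nil))) .nil)) (.node (.node (.node .leaf (nat_lit 15394240201288465) (.br (nat_lit 1) (.cons (.br (nat_lit 0) (.cons (.rel (nat_lit 20971656)) (.cons (.rel (nat_lit 41943108)) .nil))) .nil)) .leaf) (nat_lit 15394240201288555) (.br (nat_lit 1) (.cons (.br (nat_lit 3) (.cons (.rel (nat_lit 553648161)) (.cons (.rel (nat_lit 285229185)) .nil))) (.cons (.br (nat_lit 2) (.cons (.rel (nat_lit 167772165)) (.cons (.rel (nat_lit 167773200)) .nil))) .nil))) .leaf) (nat_lit 15394240202242923) (.br (nat_lit 1) (.cons (.br (nat_lit 2) (.cons (.rel (nat_lit 167772165))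 .nil)) .nil)) (.node (.node .leaf (nat_lit 15394240202498353) (.br (nat_lit 0) (.cons (.br (nat_lit 1) (.cons (.rel (nat_lit 41943108)) .nil)) .nil)) .leaf) (nat_lit 15394240202623128) (.br (nat_lit 1) (.cons (.br (nat_lit 0) (.cons (.rel (nat_lit 21234948)) (.cons (.rel (nat_lit 21238821)) .nil))) .nil)) .leaf))) (nat_lit 15394240202624361) (.br (nat_lit 1) (.cons (.br (nat_lit 4) (.cons (.rel (nat_lit 1090519080)) .nil)) .nil)) (.node (.node (.node (.node .leaf (nat_lit 15394240203267454) (.br (nat_lit 1) (.cons (.br (nat_lit 3) (.cons (.rel (nat_lit 285278352)) .nil)) .nil)) .leaf) (nat_lit 15394240203335832) (.br (nat_lit 1) (.cons (.br (nat_lit 2) (.cons (.rel (nat_lit 83888160)) .nil)) .nil)) (.node .leaf (nat_lit 15394240203336555) (.br (nat_lit 5) (.cons (.br (nat_lit 0) (.cons (.rel (nat_lit 4299161865)) (.cons (.rel (nat_lit 4299178002)) .nil))) .nil)) .leaf)) (nat_lit 15394240203336586) (.br (nat_lit 2) (.cons (.br (nat_lit 5) (.cons (.rel (nat_lit 4362092625)) .nil))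 .nil)) (.node (.node .leaf (nat_lit 15394240203337061) (.br (nat_lit 2) (.cons (.br (nat_lit 6) (.cons (.rel (nat_lit 17247633408)) .nil)) .nil)) .leaf) (nat_lit 15394240203337878) (.br (nat_lit 3) (.cons (.br (nat_lit 5) (.cons (.rel (nat_lit 4563410952)) .nil)) .nil)) .leaf)) (nat_lit 15394240203386905) (.br (nat_lit 0) (.cons (.br (nat_lit 5) (.cons (.rel (nat_lit 4299161865)) .nil)) .nil)) (.node (.node (.node .leaf (nat_lit 15394240203386911) (.br (nat_lit 0) (.cons (.br (nat_lit 5) (.cons (.rel (nat_lit 4299162900)) .nil)) .nil)) .leaf) (nat_lit 15394240305563828) (.br (nat_lit 1) (.cons (.br (nat_lit 2) (.cons (.rel (nat_lit 83886090)) .nil)) .nil)) .leaf) (nat_lit 15394240305564428) (.br (nat_lit 0) (.cons (.br (nat_lit 3) (.cons (.rel (nat_lit 276828177)) .nil)) .nil)) (.node (.node .leaf (nat_lit 15394240305613675) (.br (nat_lit 6) (.cons (.br (nat_lit 0) (.cons (.rel (nat_lit 17184063510)) (.cons (.rel (nat_lit 17184063510)) (.cons (.rel (nat_lit 17188274241)) .nil))))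 (.cons (.br (nat_lit 0) (.cons (.rel (nat_lit 17184198672)) (.cons (.rel (nat_lit 34368128004)) (.cons (.rel (nat_lit 17184065544)) .nil)))) .nil))) .leaf) (nat_lit 15394240306094890) (.br (nat_lit 1) (.cons (.br (nat_lit 2) (.cons (.rel (nat_lit 167773200)) .nil)) .nil)) .leaf)))) (nat_lit 15394240306128906) (.br (nat_lit 5) (.cons (.br (nat_lit 1) (.cons (.rel (nat_lit 4311747072)) (.cons (.rel (nat_lit 8623490304)) .nil))) .nil)) (.node (.node (.node (.node (.node .leaf (nat_lit 15394240306146040) (.br (nat_lit 0) (.cons (.br (nat_lit 1) (.cons (.rel (nat_lit 21239808)) (.cons (.rel (nat_lit 20971656)) (.cons (.rel (nat_lit 41943108)) .nil)))) .nil)) .leaf) (nat_lit 15394240307356428) (.br (nat_lit 0) (.cons (.br (nat_lit 5) (.cons (.rel (nat_lit 4300275792)) .nil)) .nil)) (.node .leaf (nat_lit 15394240308380428) (.br (nat_lit 0) (.cons (.br (nat_lit 4) (.cons (.rel (nat_lit 1077938688)) (.cons (.rel (nat_lit 1077938688)) .nil))) (.cons (.br (nat_lit 4) (.cons (.rel (nat_lit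 1077956625)) (.cons (.rel (nat_lit 1077968901)) .nil))) .nil))) .leaf)) (nat_lit 15394240308504883) (.br (nat_lit 2) (.cons (.br (nat_lit 4) (.cons (.rel (nat_lit 1140871248)) .nil)) .nil)) (.node (.node .leaf (nat_lit 15394241826719251) (.br (nat_lit 0) (.cons (.br (nat_lit 1) (.cons (.rel (nat_lit 21299217)) .nil)) .nil)) .leaf) (nat_lit 15394241900679918) (.br (nat_lit 1) (.cons (.br (nat_lit 4) (.cons (.rel (nat_lit 1090535937)) .nil)) .nil)) .leaf)) (nat_lit 15394455053978475) (.br (nat_lit 0) (.cons (.br (nat_lit 1) (.cons (.rel (nat_lit 41943108)) .nil)) .nil)) (.node (.node (.node .leaf (nat_lit 15394455055721203) (.br (nat_lit 0) (.cons (.br (nat_lit 1) (.cons (.rel (nat_lit 25169922)) .nil)) .nil)) .leaf) (nat_lit 15394455056593781) (.br (nat_lit 1) (.cons (.br (nat_lit 2) (.cons (.rel (nat_lit 152110080)) .nil)) .nil)) .leaf) (nat_lit 15394455056610590) (.br (nat_lit 0) (.cons (.br (nat_lit 1) (.cons (.rel (nat_lit 22347840)) .nil)) .nil)) (.node (.node .leaf (nat_lit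 15394455056745203) (.br (nat_lit 1) (.cons (.br (nat_lit 3) (.cons (.rel (nat_lit 285229185)) .nil)) .nil)) .leaf) (nat_lit 15394455056745253) (.br (nat_lit 0) (.cons (.br (nat_lit 5) (.cons (.rel (nat_lit 4299178002)) .nil)) .nil)) .leaf))) (nat_lit 15394455158836625) (.br (nat_lit 0) (.cons (.br (nat_lit 1) (.cons (.rel (nat_lit 20971656)) .nil)) .nil)) (.node (.node (.node (.node .leaf (nat_lit 15394455160576875) (.br (nat_lit 0) (.cons (.br (nat_lit 5) (.cons (.rel (nat_lit 4299166725)) .nil)) .nil)) .leaf) (nat_lit 15394455160577285) (.br (nat_lit 1) (.cons (.br (nat_lit 6) (.cons (.rel (nat_lit 17196941376)) .nil)) .nil)) .leaf) (nat_lit 15394455161468190) (.br (nat_lit 0) (.cons (.br (nat_lit 5) (.cons (.rel (nat_lit 4299165738)) .nil)) .nil)) (.node (.node .leaf (nat_lit 15394455161613194) (.br (nat_lit 1) (.cons (.br (nat_lit 6) (.cons (.rel (nat_lit 17196646692)) .nil)) .nil)) .leaf) (nat_lit 15394669697445894) (.br (nat_lit 0) (.cons (.br (nat_lit 6) (.cons (.rel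 (nat_lit 17184068100)) .nil)) .nil)) .leaf)) (nat_lit 15394669697484825) (.br (nat_lit 0) (.cons (.br (nat_lit 1) (.cons (.rel (nat_lit 21234948)) (.cons (.rel (nat_lit 21299217)) .nil))) (.cons (.br (nat_lit 1) (.cons (.rel (nat_lit 21299217)) (.cons (.rel (nat_lit 21250050)) .nil))) .nil))) (.node (.node (.node .leaf (nat_lit 15394669698992889) (.br (nat_lit 1) (.cons (.br (nat_lit 3) (.cons (.rel (nat_lit 285507588)) .nil)) .nil)) .leaf) (nat_lit 15394669907151603) (.br (nat_lit 0) (.cons (.br (nat_lit 1) (.cons (.rel (nat_lit 22036992)) .nil)) .nil)) .leaf) (nat_lit 15394669908942225) (.br (nat_lit 2) (.cons (.br (nat_lit 4) (.cons (.rel (nat_lit 1140871248)) .nil)) .nil)) (.node (.node .leaf (nat_lit 15394669909762079) (.br (nat_lit 1) (.cons (.br (nat_lit 3) (.cons (.rel (nat_lit 285540609)) .nil)) .nil)) .leaf) (nat_lit 15394669909781765) (.br (nat_lit 0) (.cons (.br (nat_lit 1) (.cons (.rel (nat_lit 38010960)) .nil)) .nil)) .leaf)))))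

/-- refutations 73 -/
def e73 : EX := (.node (.node (.node (.node (.node (.node .leaf (nat_lit 15398537265177833) (.br (nat_lit 1) (.cons (.br (nat_lit 2) (.cons (.rel (nat_lit 83959809)) .nil)) .nil)) .leaf) (nat_lit 15398537265718008) (.br (nat_lit 0) (.cons (.br (nat_lit 1) (.cons (.rel (nat_lit 41943108)) .nil)) .nil)) (.node .leaf (nat_lit 15398537266946853) (.br (nat_lit 1) (.cons (.br (nat_lit 3) (.cons (.rel (nat_lit 301991940)) .nil)) .nil)) .leaf)) (nat_lit 15398537266947353) (.br (nat_lit 0) (.cons (.br (nat_lit 1) (.cons (.rel (nat_lit 25169922)) .nil)) .nil)) (.node (.node .leaf (nat_lit 15398537267836190) (.br (nat_lit 1) (.cons (.br (nat_lit 2) (.cons (.rel (nat_lit 83955984)) .nil)) .nil)) .leaf) (nat_lit 15398537370061675) (.br (nat_lit 0) (.cons (.br (nat_lit 4) (.cons (.rel (nat_lit 1078005792)) .nil)) .nil)) .leaf)) (nat_lit 15398537371600099) (.br (nat_lit 0) (.cons (.br (nat_lit 1) (.cons (.rel (nat_lit 20971656)) .nil)) .nil)) (.node (.node (.node .leaf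 (nat_lit 15398537372676106) (.br (nat_lit 1) (.cons (.br (nat_lit 2) (.cons (.rel (nat_lit 167773200)) .nil)) .nil)) .leaf) (nat_lit 15398537372828428) (.br (nat_lit 0) (.cons (.br (nat_lit 1) (.cons (.rel (nat_lit 37756929)) .nil)) .nil)) .leaf) (nat_lit 15398537372850933) (.br (nat_lit 2) (.cons (.br (nat_lit 6) (.cons (.rel (nat_lit 17248026756)) .nil)) .nil)) (.node (.node .leaf (nat_lit 15398752121243000) (.br (nat_lit 0) (.cons (.br (nat_lit 3) (.cons (.rel (nat_lit 276824352)) .nil)) .nil)) .leaf) (nat_lit 15398752223765290) (.br (nat_lit 0) (.cons (.br (nat_lit 5) (.cons (.rel (nat_lit 4299162900)) .nil)) .nil)) .leaf))) (nat_lit 15398752223799306) (.br (nat_lit 1) (.cons (.br (nat_lit 6) (.cons (.rel (nat_lit 34393358592)) .nil)) .nil)) (.node (.node (.node (.node .leaf (nat_lit 15398752225898506) (.br (nat_lit 1) (.cons (.br (nat_lit 5) (.cons (.rel (nat_lit 8623490304)) .nil)) .nil)) .leaf) (nat_lit 15398752226061048) (.br (nat_lit 1) (.cons (.br (nat_lit 2) (.cons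 (.rel (nat_lit 167772165)) .nil)) .nil)) .leaf) (nat_lit 15398964287612305) (.br (nat_lit 1) (.cons (.br (nat_lit 2) (.cons (.rel (nat_lit 83887125)) .nil)) .nil)) (.node (.node .leaf (nat_lit 15398964289035665) (.br (nat_lit 1) (.cons (.br (nat_lit 5) (.cons (.rel (nat_lit 4311748872)) (.cons (.rel (nat_lit 4311747072)) (.cons (.rel (nat_lit 4311748872)) (.cons (.rel (nat_lit 8623490304)) (.cons (.rel (nat_lit 4311810306)) .nil)))))) .nil)) .leaf) (nat_lit 15398964290070584) (.br (nat_lit 0) (.cons (.br (nat_lit 1) (.cons (.rel (nat_lit 38010960)) .nil)) .nil)) .leaf)) (nat_lit 15398966761884953) (.br (nat_lit 1) (.cons (.br (nat_lit 3) (.cons (.rel (nat_lit 285229185)) .nil)) .nil)) (.node (.node (.node .leaf (nat_lit 15398966762414136) (.br (nat_lit 0) (.cons (.br (nat_lit 5) (.cons (.rel (nat_lit 4299162900)) .nil)) .nil)) .leaf) (nat_lit 15398966762415615) (.br (nat_lit 0) (.cons (.br (nat_lit 3) (.cons (.rel (nat_lit 272892168)) .nil)) .nil)) .leaf) (nat_lit 15398966762465290)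 (.br (nat_lit 1) (.cons (.br (nat_lit 5) (.cons (.rel (nat_lit 8623490304)) .nil)) .nil)) (.node (.node .leaf (nat_lit 15398966762466040) (.br (nat_lit 0) (.cons (.br (nat_lit 6) (.cons (.rel (nat_lit 34368128004)) .nil)) .nil)) .leaf) (nat_lit 15398966762466705) (.br (nat_lit 0) (.cons (.br (nat_lit 1) (.cons (.rel (nat_lit 21234948)) .nil)) .nil)) .leaf)))) (nat_lit 15398966763421073) (.br (nat_lit 1) (.cons (.br (nat_lit 3) (.cons (.rel (nat_lit 302137344)) .nil)) .nil)) (.node (.node (.node (.node (.node .leaf (nat_lit 15398966763472906) (.br (nat_lit 0) (.cons (.br (nat_lit 3) (.cons (.rel (nat_lit 276889620)) .nil)) .nil)) .leaf) (nat_lit 15398966763675025) (.br (nat_lit 4) (.cons (.br (nat_lit 5) (.cons (.rel (nat_lit 5368715328)) (.cons (.rel (nat_lit 10737680388)) (.cons (.rel (nat_lit 5368715328)) (.cons (.rel (nat_lit 10738533636)) .nil))))) (.cons (.br (nat_lit 6) (.cons (.rel (nat_lit 18253611078)) (.cons (.rel (nat_lit 19327418400)) .nil))) .nil))) (.node .leaf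 (nat_lit 15398966764443654) (.br (nat_lit 1) (.cons (.br (nat_lit 0) (.cons (.rel (nat_lit 38010960)) (.cons (.rel (nat_lit 21250050)) .nil))) .nil)) .leaf)) (nat_lit 15398966764548106) (.br (nat_lit 0) (.cons (.br (nat_lit 2) (.cons (.rel (nat_lit 71311368)) .nil)) .nil)) (.node (.node .leaf (nat_lit 15398966764700453) (.br (nat_lit 0) (.cons (.br (nat_lit 3) (.cons (.rel (nat_lit 272631936)) .nil)) .nil)) .leaf) (nat_lit 15398966764749560) (.br (nat_lit 0) (.cons (.br (nat_lit 1) (.cons (.rel (nat_lit 41943108)) (.cons (.rel (nat_lit 22022160)) .nil))) .nil)) .leaf)) (nat_lit 15398966971600153) (.br (nat_lit 0) (.cons (.br (nat_lit 1) (.cons (.rel (nat_lit 21234948)) .nil)) .nil)) (.node (.node (.node .leaf (nat_lit 15398966972130090) (.br (nat_lit 2) (.cons (.br (nat_lit 4) (.cons (.rel (nat_lit 1141391361)) .nil)) .nil)) .leaf) (nat_lit 15398966972162954) (.br (nat_lit 0) (.cons (.br (nat_lit 1) (.cons (.rel (nat_lit 20971656)) .nil)) .nil)) .leaf) (nat_lit 15398966972180490)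 (.br (nat_lit 1) (.cons (.br (nat_lit 3) (.cons (.rel (nat_lit 285495312)) .nil)) .nil)) (.node (.node .leaf (nat_lit 15398966972180511) (.br (nat_lit 0) (.cons (.br (nat_lit 1) (.cons (.rel (nat_lit 22089984)) .nil)) .nil)) .leaf) (nat_lit 15398966972181905) (.br (nat_lit 6) (.cons (.br (nat_lit 1) (.cons (.rel (nat_lit 34376781828)) (.cons (.rel (nat_lit 34393358592)) .nil))) .nil)) .leaf))) (nat_lit 15398966973390225) (.br (nat_lit 5) (.cons (.br (nat_lit 0) (.cons (.rel (nat_lit 4299166725)) (.cons (.rel (nat_lit 4299166725)) (.cons (.rel (nat_lit 4299161865)) .nil)))) .nil)) (.node (.node (.node (.node .leaf (nat_lit 15398966973392103) (.br (nat_lit 1) (.cons (.br (nat_lit 3) (.cons (.rel (nat_lit 553746432)) (.cons (.rel (nat_lit 286263552)) .nil))) .nil)) .leaf) (nat_lit 15398966974160254) (.br (nat_lit 0) (.cons (.br (nat_lit 1) (.cons (.rel (nat_lit 20971656)) .nil)) .nil)) .leaf) (nat_lit 15398966974228740) (.br (nat_lit 0) (.cons (.br (nat_lit 1) (.cons (.rel (nat_lit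 22021125)) (.cons (.rel (nat_lit 21239808)) (.cons (.rel (nat_lit 38010960)) .nil)))) .nil)) (.node (.node .leaf (nat_lit 15398966974279705) (.br (nat_lit 1) (.cons (.br (nat_lit 5) (.cons (.rel (nat_lit 4311753732)) .nil)) .nil)) .leaf) (nat_lit 15398966974416153) (.br (nat_lit 0) (.cons (.br (nat_lit 1) (.cons (.rel (nat_lit 21250050)) .nil)) .nil)) .leaf)) (nat_lit 15398966974464785) (.br (nat_lit 0) (.cons (.br (nat_lit 4) (.cons (.rel (nat_lit 2155873536)) .nil)) .nil)) (.node (.node (.node .leaf (nat_lit 15398967419080714) (.br (nat_lit 3) (.cons (.br (nat_lit 1) (.cons (.rel (nat_lit 302137344)) (.cons (.rel (nat_lit 302137344)) .nil))) .nil)) .leaf) (nat_lit 15400764986104593) (.br (nat_lit 0) (.cons (.br (nat_lit 4) (.cons (.rel (nat_lit 2155873536)) .nil)) .nil)) .leaf) (nat_lit 15400764986420075) (.br (nat_lit 0) (.cons (.br (nat_lit 2) (.cons (.rel (nat_lit 71309568)) .nil)) .nil)) (.node (.node .leaf (nat_lit 15400764987631098) (.br (nat_lit 1) (.cons (.br (nat_lit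 4) (.cons (.rel (nat_lit 1090519080)) .nil)) .nil)) .leaf) (nat_lit 15400764988469258) (.br (nat_lit 1) (.cons (.br (nat_lit 2) (.cons (.rel (nat_lit 167773200)) .nil)) .nil)) .leaf)))))

/-- refutations 74 -/
def e74 : EX := (.node (.node (.node (.node (.node (.node .leaf (nat_lit 15404419274478318) (.br (nat_lit 1) (.cons (.br (nat_lit 3) (.cons (.rel (nat_lit 302137344)) .nil)) .nil)) .leaf) (nat_lit 15406047691135138) (.br (nat_lit 1) (.cons (.br (nat_lit 3) (.cons (.rel (nat_lit 286265352)) .nil)) .nil)) .leaf) (nat_lit 15406047692544025) (.br (nat_lit 0) (.cons (.br (nat_lit 3) (.cons (.rel (nat_lit 272957472)) .nil)) .nil)) (.node (.node .leaf (nat_lit 15406047692547353) (.br (nat_lit 0) (.cons (.br (nat_lit 3) (.cons (.rel (nat_lit 272957472)) .nil)) .nil)) .leaf) (nat_lit 15406047693383940) (.br (nat_lit 2) (.cons (.br (nat_lit 5) (.cons (.rel (nat_lit 4362076488)) .nil)) .nil)) .leaf)) (nat_lit 15406047795612953) (.br (nat_lit 1) (.cons (.br (nat_lit 3) (.cons (.rel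 (nat_lit 285229185)) .nil)) .nil)) (.node (.node (.node .leaf (nat_lit 15406047797200906) (.br (nat_lit 3) (.cons (.br (nat_lit 6) (.cons (.br (nat_lit 5) (.cons (.rel (nat_lit 21474838080)) (.cons (.rel (nat_lit 4832362497)) .nil))) .nil)) .nil)) .leaf) (nat_lit 15406047797404953) (.br (nat_lit 0) (.cons (.br (nat_lit 3) (.cons (.rel (nat_lit 272957472)) .nil)) .nil)) .leaf) (nat_lit 15406047797528731) (.br (nat_lit 5) (.cons (.br (nat_lit 0) (.cons (.rel (nat_lit 4299227169)) (.cons (.rel (nat_lit 4299493440)) .nil))) .nil)) (.node (.node .leaf (nat_lit 15406047798192138) (.br (nat_lit 0) (.cons (.br (nat_lit 1) (.cons (.rel (nat_lit 21250050)) .nil)) .nil)) .leaf) (nat_lit 15406047798232295) (.br (nat_lit 1) (.cons (.br (nat_lit 3) (.cons (.rel (nat_lit 286277664)) .nil)) .nil)) .leaf))) (nat_lit 15406047798438673) (.br (nat_lit 0) (.cons (.br (nat_lit 1) (.cons (.rel (nat_lit 22021125)) .nil)) .nil)) (.node (.node (.node (.node .leaf (nat_lit 15406047798450933) (.br (nat_lit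 2) (.cons (.br (nat_lit 6) (.cons (.rel (nat_lit 17246979168)) .nil)) .nil)) .leaf) (nat_lit 15406262543977209) (.br (nat_lit 0) (.cons (.br (nat_lit 1) (.cons (.rel (nat_lit 22036992)) .nil)) .nil)) .leaf) (nat_lit 15406262543977753) (.br (nat_lit 3) (.cons (.br (nat_lit 0) (.cons (.rel (nat_lit 545260608)) (.cons (.rel (nat_lit 272892168)) .nil))) .nil)) (.node (.node .leaf (nat_lit 15406262544489354) (.br (nat_lit 0) (.cons (.br (nat_lit 3) (.cons (.rel (nat_lit 272908305)) .nil)) .nil)) .leaf) (nat_lit 15406262544558865) (.br (nat_lit 0) (.cons (.br (nat_lit 4) (.cons (.rel (nat_lit 1078005792)) .nil)) .nil)) .leaf)) (nat_lit 15406262544558955) (.br (nat_lit 1) (.cons (.br (nat_lit 3) (.cons (.rel (nat_lit 285278352)) .nil)) .nil)) (.node (.node (.node .leaf (nat_lit 15406262545565054) (.br (nat_lit 0) (.cons (.br (nat_lit 3) (.cons (.rel (nat_lit 272631936)) .nil)) .nil)) .leaf) (nat_lit 15406262545565706) (.br (nat_lit 1) (.cons (.br (nat_lit 3) (.cons (.rel (nat_lit 301994496))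 .nil)) .nil)) .leaf) (nat_lit 15406262545626473) (.br (nat_lit 2) (.cons (.br (nat_lit 4) (.cons (.rel (nat_lit 1207959585)) .nil)) .nil)) (.node .leaf (nat_lit 15406262545767275) (.br (nat_lit 2) (.cons (.br (nat_lit 3) (.cons (.rel (nat_lit 671089665)) (.cons (.rel (nat_lit 671089665)) .nil))) .nil)) .leaf)))) (nat_lit 15406262545767710) (.br (nat_lit 2) (.cons (.br (nat_lit 6) (.cons (.rel (nat_lit 34426856448)) .nil)) .nil)) (.node (.node (.node (.node (.node .leaf (nat_lit 15406262545769753) (.br (nat_lit 0) (.cons (.br (nat_lit 3) (.cons (.rel (nat_lit 272908305)) .nil)) .nil)) .leaf) (nat_lit 15406262545769978) (.br (nat_lit 3) (.cons (.br (nat_lit 5) (.cons (.rel (nat_lit 9126809604)) .nil)) .nil)) .leaf) (nat_lit 15406262545830794) (.br (nat_lit 1) (.cons (.br (nat_lit 2) (.cons (.rel (nat_lit 167772165)) .nil)) .nil)) (.node (.node .leaf (nat_lit 15406262546544650) (.br (nat_lit 1) (.cons (.br (nat_lit 3) (.cons (.rel (nat_lit 286326786)) .nil)) .nil)) .leaf) (nat_lit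 15406262546640906) (.br (nat_lit 1) (.cons (.br (nat_lit 5) (.cons (.rel (nat_lit 8623490304)) .nil)) .nil)) .leaf)) (nat_lit 15406262546658155) (.br (nat_lit 3) (.cons (.br (nat_lit 1) (.cons (.rel (nat_lit 285278352)) (.cons (.rel (nat_lit 553648161)) .nil))) .nil)) (.node (.node (.node .leaf (nat_lit 15406262546793753) (.br (nat_lit 0) (.cons (.br (nat_lit 2) (.cons (.rel (nat_lit 144179220)) .nil)) .nil)) .leaf) (nat_lit 15406262648884625) (.br (nat_lit 0) (.cons (.br (nat_lit 6) (.cons (.rel (nat_lit 17184162816)) .nil)) .nil)) .leaf) (nat_lit 15406262649365765) (.br (nat_lit 0) (.cons (.br (nat_lit 2) (.cons (.rel (nat_lit 71311368)) .nil)) .nil)) (.node .leaf (nat_lit 15406262650624875) (.br (nat_lit 6) (.cons (.br (nat_lit 0) (.cons (.rel (nat_lit 17184162816)) (.cons (.rel (nat_lit 17184068100)) .nil))) .nil)) .leaf))) (nat_lit 15406262650626853) (.br (nat_lit 3) (.cons (.br (nat_lit 6) (.cons (.rel (nat_lit 34628173956)) .nil)) .nil)) (.node (.node (.node (.node .leaf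 (nat_lit 15406262651651353) (.br (nat_lit 0) (.cons (.br (nat_lit 6) (.cons (.rel (nat_lit 34368128004)) .nil)) .nil)) .leaf) (nat_lit 15406265691497228) (.br (nat_lit 0) (.cons (.br (nat_lit 1) (.cons (.rel (nat_lit 22021125)) .nil)) .nil)) .leaf) (nat_lit 15406267723992465) (.br (nat_lit 0) (.cons (.br (nat_lit 2) (.cons (.rel (nat_lit 71304708)) .nil)) .nil)) (.node (.node .leaf (nat_lit 15406267725735418) (.br (nat_lit 0) (.cons (.br (nat_lit 1) (.cons (.rel (nat_lit 22036992)) .nil)) .nil)) .leaf) (nat_lit 15406477187597194) (.br (nat_lit 1) (.cons (.br (nat_lit 6) (.cons (.rel (nat_lit 17196647682)) .nil)) .nil)) .leaf)) (nat_lit 15406477188048906) (.br (nat_lit 0) (.cons (.br (nat_lit 1) (.cons (.rel (nat_lit 21299217)) .nil)) .nil)) (.node (.node (.node .leaf (nat_lit 15406477189072906) (.br (nat_lit 1) (.cons (.br (nat_lit 6) (.cons (.rel (nat_lit 17196647682)) .nil)) .nil)) .leaf) (nat_lit 15406477189275025) (.br (nat_lit 6) (.cons (.br (nat_lit 0) (.cons (.rel (nat_lit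 17184064545)) (.cons (.rel (nat_lit 17184065544)) .nil))) .nil)) .leaf) (nat_lit 15406477190065433) (.br (nat_lit 4) (.cons (.br (nat_lit 5) (.cons (.rel (nat_lit 9663741957)) .nil)) .nil)) (.node .leaf (nat_lit 15406477398989675) (.br (nat_lit 5) (.cons (.br (nat_lit 1) (.cons (.rel (nat_lit 8623490304)) (.cons (.rel (nat_lit 8623490304)) .nil))) .nil)) .leaf)))))

/-- refutations 75 -/
def e75 : EX := (.node (.node (.node (.node (.node (.node .leaf (nat_lit 14267790269674777) (.br (nat_lit 3) (.cons (.br (nat_lit 4) (.cons (.rel (nat_lit 2684354565)) .nil)) .nil)) .leaf) (nat_lit 14267790269718553) (.br (nat_lit 0) (.cons (.br (nat_lit 2) (.cons (.rel (nat_lit 72892416)) .nil)) .nil)) .leaf) (nat_lit 14267790271275883) (.br (nat_lit 0) (.cons (.br (nat_lit 1) (.cons (.rel (nat_lit 21250050)) .nil)) .nil)) (.node .leaf (nat_lit 14268336837810203) (.br (nat_lit 0) (.cons (.br (nat_lit 5) (.cons (.rel (nat_lit 4299166725)) .nil)) .nil)) .leaf)) (nat_lit 14268336840933386) (.br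 (nat_lit 0) (.cons (.br (nat_lit 2) (.cons (.rel (nat_lit 71335956)) .nil)) .nil)) (.node (.node (.node .leaf (nat_lit 14268337177497082) (.br (nat_lit 1) (.cons (.br (nat_lit 2) (.cons (.rel (nat_lit 83906817)) .nil)) .nil)) .leaf) (nat_lit 14268337177513994) (.br (nat_lit 3) (.cons (.br (nat_lit 5) (.cons (.rel (nat_lit 4833935616)) (.cons (.rel (nat_lit 4563410952)) .nil))) .nil)) .leaf) (nat_lit 14268337177514736) (.br (nat_lit 1) (.cons (.br (nat_lit 2) (.cons (.rel (nat_lit 83886090)) .nil)) .nil)) (.node .leaf (nat_lit 14268337177514765) (.br (nat_lit 5) (.cons (.br (nat_lit 1) (.cons (.rel (nat_lit 4311747072)) (.cons (.rel (nat_lit 4311753732)) (.cons (.rel (nat_lit 4312006728)) .nil)))) (.cons (.br (nat_lit 1) (.cons (.rel (nat_lit 8623490304)) (.cons (.rel (nat_lit 4311747072)) (.cons (.rel (nat_lit 4311810306)) .nil)))) .nil))) .leaf))) (nat_lit 14268337179157292) (.br (nat_lit 0) (.cons (.br (nat_lit 3) (.cons (.rel (nat_lit 273752064)) (.cons (.rel (nat_lit 272957472))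 .nil))) .nil)) (.node (.node (.node (.node .leaf (nat_lit 14268337179158010) (.br (nat_lit 3) (.cons (.br (nat_lit 5) (.cons (.rel (nat_lit 4563533829)) .nil)) .nil)) .leaf) (nat_lit 14268337404049418) (.br (nat_lit 4) (.cons (.br (nat_lit 5) (.cons (.rel (nat_lit 5368725570)) .nil)) .nil)) .leaf) (nat_lit 14268339381167610) (.br (nat_lit 0) (.cons (.br (nat_lit 1) (.cons (.rel (nat_lit 21250050)) .nil)) .nil)) (.node .leaf (nat_lit 14268340293924870) (.br (nat_lit 0) (.cons (.br (nat_lit 1) (.cons (.rel (nat_lit 21250050)) .nil)) .nil)) .leaf)) (nat_lit 14268342017826847) (.br (nat_lit 3) (.cons (.br (nat_lit 4) (.cons (.rel (nat_lit 1342455873)) .nil)) .nil)) (.node (.node (.node .leaf (nat_lit 14268342019384108) (.br (nat_lit 0) (.cons (.br (nat_lit 1) (.cons (.rel (nat_lit 21299217)) .nil)) .nil)) .leaf) (nat_lit 14268342122633968) (.br (nat_lit 0) (.cons (.br (nat_lit 1) (.cons (.rel (nat_lit 21299217)) .nil)) .nil)) .leaf) (nat_lit 14268342124447001) (.br (nat_lit 0) (.cons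 (.br (nat_lit 3) (.cons (.rel (nat_lit 541065744)) .nil)) .nil)) (.node .leaf (nat_lit 14268617002353945) (.br (nat_lit 1) (.cons (.br (nat_lit 5) (.cons (.rel (nat_lit 4311747072)) .nil)) .nil)) .leaf)))) (nat_lit 14269462120850833) (.br (nat_lit 2) (.cons (.br (nat_lit 4) (.cons (.rel (nat_lit 2214597120)) .nil)) .nil)) (.node (.node (.node (.node (.node .leaf (nat_lit 14269677207310346) (.br (nat_lit 0) (.cons (.br (nat_lit 2) (.cons (.rel (nat_lit 71309568)) (.cons (.rel (nat_lit 71319810)) .nil))) (.cons (.br (nat_lit 1) (.cons (.rel (nat_lit 21239808)) (.cons (.rel (nat_lit 37756929)) .nil))) .nil))) .leaf) (nat_lit 14269683075141642) (.br (nat_lit 0) (.cons (.br (nat_lit 3) (.cons (.rel (nat_lit 272892168)) .nil)) .nil)) .leaf) (nat_lit 14272635264335882) (.br (nat_lit 2) (.cons (.br (nat_lit 4) (.cons (.rel (nat_lit 1142964480)) .nil)) .nil)) (.node .leaf (nat_lit 14275088528007953) (.br (nat_lit 2) (.cons (.br (nat_lit 3) (.cons (.rel (nat_lit 335618064)) .nil)) .nil))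 .leaf)) (nat_lit 14275088528008593) (.br (nat_lit 3) (.cons (.br (nat_lit 0) (.cons (.rel (nat_lit 272957472)) (.cons (.rel (nat_lit 276889620)) .nil))) .nil)) (.node (.node (.node .leaf (nat_lit 14275088866103306) (.br (nat_lit 6) (.cons (.br (nat_lit 5) (.cons (.rel (nat_lit 25769836548)) (.cons (.rel (nat_lit 21474869328)) .nil))) .nil)) .leaf) (nat_lit 14275088867623693) (.br (nat_lit 0) (.cons (.br (nat_lit 4) (.cons (.rel (nat_lit 1077968901)) .nil)) .nil)) .leaf) (nat_lit 14275088867623722) (.br (nat_lit 1) (.cons (.br (nat_lit 3) (.cons (.rel (nat_lit 553648161)) .nil)) .nil)) (.node .leaf (nat_lit 14275091613407242) (.br (nat_lit 0) (.cons (.br (nat_lit 2) (.cons (.rel (nat_lit 142610436)) .nil)) .nil)) .leaf))) (nat_lit 14275091697258506) (.br (nat_lit 4) (.cons (.br (nat_lit 5) (.cons (.rel (nat_lit 10737680388)) .nil)) .nil)) (.node (.node (.node (.node .leaf (nat_lit 14275092087422986) (.br (nat_lit 0) (.cons (.br (nat_lit 2) (.cons (.rel (nat_lit 71309568)) .nil))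 .nil)) .leaf) (nat_lit 14275092087423003) (.br (nat_lit 0) (.cons (.br (nat_lit 1) (.cons (.rel (nat_lit 25166097)) .nil)) .nil)) .leaf) (nat_lit 14275092090486794) (.br (nat_lit 0) (.cons (.br (nat_lit 2) (.cons (.rel (nat_lit 71304708)) (.cons (.rel (nat_lit 71304708)) .nil))) .nil)) (.node .leaf (nat_lit 14275093706416913) (.br (nat_lit 0) (.cons (.br (nat_lit 1) (.cons (.rel (nat_lit 21234948)) .nil)) .nil)) .leaf)) (nat_lit 14279171933575178) (.br (nat_lit 2) (.cons (.br (nat_lit 4) (.cons (.rel (nat_lit 2214614304)) .nil)) .nil)) (.node (.node .leaf (nat_lit 14279171934505721) (.br (nat_lit 0) (.cons (.br (nat_lit 1) (.cons (.rel (nat_lit 21299217)) .nil)) .nil)) .leaf) (nat_lit 14279171934610220) (.br (nat_lit 0) (.cons (.br (nat_lit 3) (.cons (.rel (nat_lit 276824352)) .nil)) .nil)) (.node .leaf (nat_lit 14279171934610833) (.br (nat_lit 0) (.cons (.br (nat_lit 1) (.cons (.rel (nat_lit 22022160)) .nil)) .nil)) .leaf)))))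

/-- refutations 76 -/
def e76 : EX := (.node .leaf (nat_lit 15418792546626823) (.br (nat_lit 0) (.cons (.br (nat_lit 1) (.cons (.rel (nat_lit 21299217)) .nil)) .nil)) .leaf)

/-- refutations 77 -/
def e77 : EX := (.node (.node (.node .leaf (nat_lit 15429423552015621) (.br (nat_lit 0) (.cons (.br (nat_lit 1) (.cons (.rel (nat_lit 21239808)) .nil)) .nil)) .leaf) (nat_lit 15429424578780011) (.br (nat_lit 0) (.cons (.br (nat_lit 2) (.cons (.rel (nat_lit 71335956)) .nil)) .nil)) (.node .leaf (nat_lit 15429426187655195) (.br (nat_lit 0) (.cons (.br (nat_lit 1) (.cons (.rel (nat_lit 41943108)) .nil)) .nil)) .leaf)) (nat_lit 15429426189392747) (.br (nat_lit 0) (.cons (.br (nat_lit 4) (.cons (.rel (nat_lit 1077945348)) .nil)) .nil)) (.node (.node .leaf (nat_lit 15429426407496555) (.br (nat_lit 0) (.cons (.br (nat_lit 4) (.cons (.rel (nat_lit 1078018068)) .nil)) .nil)) .leaf) (nat_lit 15435049958333701) (.br (nat_lit 0) (.cons (.br (nat_lit 2) (.cons (.rel (nat_lit 71386113)) .nil))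 .nil)) (.node .leaf (nat_lit 15435052815701354) (.br (nat_lit 1) (.cons (.br (nat_lit 2) (.cons (.rel (nat_lit 83906817)) .nil)) .nil)) .leaf)))

/-- refutations 78 -/
def e78 : EX := (.node (.node (.node (.node (.node (.node (.node .leaf (nat_lit 15832973208988403) (.br (nat_lit 3) (.cons (.br (nat_lit 5) (.cons (.rel (nat_lit 4563534864)) .nil)) .nil)) .leaf) (nat_lit 15833282073341434) (.br (nat_lit 2) (.cons (.br (nat_lit 5) (.cons (.rel (nat_lit 8724415488)) .nil)) .nil)) (.node .leaf (nat_lit 15833282549665802) (.br (nat_lit 1) (.cons (.br (nat_lit 2) (.cons (.rel (nat_lit 83886090)) .nil)) .nil)) .leaf)) (nat_lit 15834041181810694) (.br (nat_lit 6) (.cons (.br (nat_lit 1) (.cons (.rel (nat_lit 17196736512)) (.cons (.rel (nat_lit 17196646692)) .nil))) .nil)) (.node (.node .leaf (nat_lit 15834041181810948) (.br (nat_lit 1) (.cons (.br (nat_lit 2) (.cons (.rel (nat_lit 167773200)) .nil)) .nil)) .leaf) (nat_lit 15834041181811448) (.br (nat_lit 1) (.cons (.br (nat_lit 4) (.cons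 (.rel (nat_lit 1107300672)) .nil)) .nil)) .leaf)) (nat_lit 15834041181818890) (.br (nat_lit 0) (.cons (.br (nat_lit 6) (.cons (.rel (nat_lit 34368128004)) (.cons (.rel (nat_lit 17184068100)) (.cons (.rel (nat_lit 17184068100)) (.cons (.rel (nat_lit 34368128004)) (.cons (.rel (nat_lit 17184072960)) .nil)))))) (.cons (.br (nat_lit 3) (.cons (.rel (nat_lit 541065744)) (.cons (.rel (nat_lit 541065744)) (.cons (.rel (nat_lit 272634504)) (.cons (.rel (nat_lit 272897028)) .nil))))) (.cons (.br (nat_lit 2) (.cons (.rel (nat_lit 72892416)) (.cons (.rel (nat_lit 139460640)) (.cons (.rel (nat_lit 71304708)) (.cons (.rel (nat_lit 71304708)) (.cons (.rel (nat_lit 71323680)) (.cons (.rel (nat_lit 77594640)) .nil))))))) .nil)))) (.node (.node (.node .leaf (nat_lit 15834041181819132) (.br (nat_lit 0) (.cons (.br (nat_lit 5) (.cons (.rel (nat_lit 4299167760)) .nil)) .nil)) .leaf) (nat_lit 15834041181819140) (.br (nat_lit 0) (.cons (.br (nat_lit 1) (.cons (.rel (nat_lit 38010960)) .nil)) .nil))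 (.node .leaf (nat_lit 15834041181819660) (.br (nat_lit 5) (.cons (.br (nat_lit 0) (.cons (.rel (nat_lit 4299162900)) (.cons (.rel (nat_lit 8594653248)) .nil))) .nil)) .leaf)) (nat_lit 15834041181820185) (.br (nat_lit 3) (.cons (.br (nat_lit 6) (.cons (.rel (nat_lit 17448308772)) .nil)) .nil)) (.node (.node .leaf (nat_lit 15834041181861919) (.br (nat_lit 0) (.cons (.br (nat_lit 1) (.cons (.rel (nat_lit 41943108)) .nil)) .nil)) .leaf) (nat_lit 15834041181862638) (.br (nat_lit 3) (.cons (.br (nat_lit 4) (.cons (.rel (nat_lit 2684354565)) (.cons (.rel (nat_lit 2684355600)) (.cons (.rel (nat_lit 1342179360)) .nil)))) .nil)) .leaf))) (nat_lit 15834041181862643) (.br (nat_lit 1) (.cons (.br (nat_lit 5) (.cons (.rel (nat_lit 4311810306)) .nil)) .nil)) (.node (.node (.node (.node .leaf (nat_lit 15834041181862648) (.br (nat_lit 0) (.cons (.br (nat_lit 1) (.cons (.rel (nat_lit 20971656)) .nil)) .nil)) .leaf) (nat_lit 15834041181862698) (.br (nat_lit 1) (.cons (.br (nat_lit 4) (.cons (.rel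 (nat_lit 1090519080)) .nil)) .nil)) (.node .leaf (nat_lit 15834041182115995) (.br (nat_lit 6) (.cons (.br (nat_lit 1) (.cons (.rel (nat_lit 17196941376)) (.cons (.rel (nat_lit 17196647682)) (.cons (.rel (nat_lit 17196646692)) (.cons (.rel (nat_lit 17196646692)) .nil))))) .nil)) .leaf)) (nat_lit 15834041182117898) (.br (nat_lit 5) (.cons (.br (nat_lit 2) (.cons (.rel (nat_lit 4362358944)) (.cons (.rel (nat_lit 8657043744)) .nil))) .nil)) (.node (.node .leaf (nat_lit 15834041182363654) (.br (nat_lit 1) (.cons (.br (nat_lit 2) (.cons (.rel (nat_lit 84935748)) .nil)) .nil)) .leaf) (nat_lit 15834041182364453) (.br (nat_lit 0) (.cons (.br (nat_lit 3) (.cons (.rel (nat_lit 272892168)) .nil)) .nil)) .leaf)) (nat_lit 15834041182365054) (.br (nat_lit 2) (.cons (.br (nat_lit 5) (.cons (.rel (nat_lit 8657043744)) .nil)) .nil)) (.node (.node (.node .leaf (nat_lit 15834041182382086) (.br (nat_lit 1) (.cons (.br (nat_lit 5) (.cons (.rel (nat_lit 4311747072)) .nil)) .nil)) .leaf) (nat_lit 15834041182382837)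 (.br (nat_lit 5) (.cons (.br (nat_lit 6) (.cons (.rel (nat_lit 21476147205)) .nil)) .nil)) .leaf) (nat_lit 15834041182382865) (.br (nat_lit 1) (.cons (.br (nat_lit 2) (.cons (.rel (nat_lit 83888160)) (.cons (.rel (nat_lit 167772165)) .nil))) .nil)) (.node (.node .leaf (nat_lit 15834041182416906) (.br (nat_lit 1) (.cons (.br (nat_lit 4) (.cons (.rel (nat_lit 1090519080)) (.cons (.rel (nat_lit 2164785216)) (.cons (.rel (nat_lit 1090519080)) .nil)))) (.cons (.br (nat_lit 2) (.cons (.rel (nat_lit 167772165)) (.cons (.rel (nat_lit 83888160)) .nil))) .nil))) .leaf) (nat_lit 15834041182417198) (.br (nat_lit 0) (.cons (.br (nat_lit 5) (.cons (.rel (nat_lit 4299325440)) (.cons (.rel (nat_lit 4299166725)) .nil))) .nil)) .leaf)))) (nat_lit 15834041182418198) (.br (nat_lit 0) (.cons (.br (nat_lit 5) (.cons (.rel (nat_lit 4299167760)) .nil)) .nil)) (.node (.node (.node (.node (.node .leaf (nat_lit 15834041182427443) (.br (nat_lit 2) (.cons (.br (nat_lit 1) (.cons (.rel (nat_lit 83887125))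 (.cons (.rel (nat_lit 167772165)) (.cons (.rel (nat_lit 167773200)) .nil)))) .nil)) .leaf) (nat_lit 15834041182427943) (.br (nat_lit 0) (.cons (.br (nat_lit 2) (.cons (.rel (nat_lit 71434245)) (.cons (.rel (nat_lit 71307546)) .nil))) (.cons (.br (nat_lit 2) (.cons (.rel (nat_lit 71309568)) (.cons (.rel (nat_lit 72417600)) .nil))) .nil))) (.node .leaf (nat_lit 15834041182428443) (.br (nat_lit 4) (.cons (.br (nat_lit 2) (.cons (.rel (nat_lit 1140871248)) (.cons (.rel (nat_lit 1208225856)) .nil))) .nil)) .leaf)) (nat_lit 15834041183131929) (.br (nat_lit 0) (.cons (.br (nat_lit 1) (.cons (.rel (nat_lit 41943108)) .nil)) .nil)) (.node (.node .leaf (nat_lit 15834041183348993) (.br (nat_lit 4) (.cons (.br (nat_lit 1) (.cons (.rel (nat_lit 1090519080)) (.cons (.rel (nat_lit 1090519080)) .nil))) .nil)) .leaf) (nat_lit 15834041183349493) (.br (nat_lit 3) (.cons (.br (nat_lit 2) (.cons (.rel (nat_lit 335546370)) (.cons (.rel (nat_lit 672138336)) (.cons (.rel (nat_lit 335545380)) .nil))))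 .nil)) .leaf)) (nat_lit 15834041183349541) (.br (nat_lit 1) (.cons (.br (nat_lit 3) (.cons (.rel (nat_lit 285507588)) .nil)) .nil)) (.node (.node (.node .leaf (nat_lit 15834041183408388) (.br (nat_lit 0) (.cons (.br (nat_lit 1) (.cons (.rel (nat_lit 41943108)) .nil)) .nil)) .leaf) (nat_lit 15834041183409013) (.br (nat_lit 1) (.cons (.br (nat_lit 3) (.cons (.rel (nat_lit 285495312)) .nil)) .nil)) (.node .leaf (nat_lit 15834041183409513) (.br (nat_lit 3) (.cons (.br (nat_lit 6) (.cons (.rel (nat_lit 17448345600)) .nil)) .nil)) .leaf)) (nat_lit 15834041183615731) (.br (nat_lit 0) (.cons (.br (nat_lit 1) (.cons (.rel (nat_lit 22036992)) .nil)) .nil)) (.node (.node .leaf (nat_lit 15834041183616283) (.br (nat_lit 5) (.cons (.br (nat_lit 6) (.cons (.rel (nat_lit 38654709780)) .nil)) .nil)) .leaf) (nat_lit 15834041183641755) (.br (nat_lit 2) (.cons (.br (nat_lit 3) (.cons (.rel (nat_lit 671089665)) .nil)) .nil)) .leaf))) (nat_lit 15834041183643000) (.br (nat_lit 1) (.cons (.br (nat_lit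 5) (.cons (.rel (nat_lit 4311748872)) (.cons (.rel (nat_lit 4311761184)) .nil))) .nil)) (.node (.node (.node (.node .leaf (nat_lit 15834041183643950) (.br (nat_lit 5) (.cons (.br (nat_lit 0) (.cons (.rel (nat_lit 4299166725)) (.cons (.rel (nat_lit 4299325440)) .nil))) .nil)) .leaf) (nat_lit 15834041183644428) (.br (nat_lit 5) (.cons (.br (nat_lit 0) (.cons (.rel (nat_lit 4299166725)) (.cons (.rel (nat_lit 4299167760)) .nil))) .nil)) (.node .leaf (nat_lit 15834041183644459) (.br (nat_lit 0) (.cons (.br (nat_lit 1) (.cons (.rel (nat_lit 22036992)) .nil)) .nil)) .leaf)) (nat_lit 15834041183644959) (.br (nat_lit 0) (.cons (.br (nat_lit 1) (.cons (.rel (nat_lit 21250050)) (.cons (.rel (nat_lit 20971656)) .nil))) .nil)) (.node (.node .leaf (nat_lit 15834041184362506) (.br (nat_lit 3) (.cons (.br (nat_lit 5) (.cons (.rel (nat_lit 8859419136)) (.cons (.rel (nat_lit 8859419136)) .nil))) .nil)) .leaf) (nat_lit 15834041184362748) (.br (nat_lit 3) (.cons (.br (nat_lit 5) (.cons (.rel (nat_lit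 4563423264)) .nil)) .nil)) .leaf)) (nat_lit 15834041184379140) (.br (nat_lit 0) (.cons (.br (nat_lit 5) (.cons (.rel (nat_lit 4299162900)) .nil)) .nil)) (.node (.node (.node .leaf (nat_lit 15834041184471345) (.br (nat_lit 5) (.cons (.br (nat_lit 2) (.cons (.rel (nat_lit 4362081348)) (.cons (.rel (nat_lit 4429185552)) (.cons (.rel (nat_lit 8657043744)) .nil)))) .nil)) .leaf) (nat_lit 15834041184472345) (.br (nat_lit 1) (.cons (.br (nat_lit 5) (.cons (.rel (nat_lit 4311761184)) (.cons (.rel (nat_lit 4311747072)) (.cons (.rel (nat_lit 4330622976)) (.cons (.rel (nat_lit 4330622976)) .nil))))) .nil)) .leaf) (nat_lit 15834041184676491) (.br (nat_lit 5) (.cons (.br (nat_lit 6) (.cons (.rel (nat_lit 21474967617)) .nil)) .nil)) (.node (.node .leaf (nat_lit 15834041184676590) (.br (nat_lit 5) (.cons (.br (nat_lit 6) (.cons (.rel (nat_lit 21477015552)) .nil)) .nil)) .leaf) (nat_lit 15834041184690182) (.br (nat_lit 1) (.cons (.br (nat_lit 5) (.cons (.rel (nat_lit 8623490304)) .nil)) .nil))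 .leaf))))) (nat_lit 15834041184690433) (.br (nat_lit 1) (.cons (.br (nat_lit 3) (.cons (.rel (nat_lit 303038529)) .nil)) .nil)) (.node (.node (.node (.node (.node (.node .leaf (nat_lit 15834041184690981) (.br (nat_lit 1) (.cons (.br (nat_lit 2) (.cons (.rel (nat_lit 167772165)) .nil)) .nil)) .leaf) (nat_lit 15834041184691483) (.br (nat_lit 2) (.cons (.br (nat_lit 4) (.cons (.rel (nat_lit 1140871248)) .nil)) .nil)) (.node .leaf (nat_lit 15834041184691706) (.br (nat_lit 5) (.cons (.br (nat_lit 1) (.cons (.rel (nat_lit 8623490304)) (.cons (.rel (nat_lit 4311765009)) .nil))) .nil)) .leaf)) (nat_lit 15834041184923658) (.br (nat_lit 1) (.cons (.br (nat_lit 5) (.cons (.rel (nat_lit 8623490304)) .nil)) .nil)) (.node (.node .leaf (nat_lit 15834041184923953) (.br (nat_lit 0) (.cons (.br (nat_lit 2) (.cons (.rel (nat_lit 142610436)) .nil)) .nil)) .leaf) (nat_lit 15834041184924299) (.br (nat_lit 4) (.cons (.br (nat_lit 5) (.cons (.rel (nat_lit 10737680388)) .nil)) .nil)) .leaf)) (nat_lit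 15834041832018845) (.br (nat_lit 2) (.cons (.br (nat_lit 3) (.cons (.rel (nat_lit 671089665)) .nil)) .nil)) (.node (.node (.node .leaf (nat_lit 15834044579205130) (.br (nat_lit 6) (.cons (.br (nat_lit 5) (.cons (.rel (nat_lit 25769836548)) (.cons (.rel (nat_lit 21474869328)) .nil))) .nil)) .leaf) (nat_lit 15834044851917725) (.br (nat_lit 4) (.cons (.br (nat_lit 5) (.cons (.rel (nat_lit 10737680388)) .nil)) .nil)) (.node .leaf (nat_lit 15834044852131995) (.br (nat_lit 4) (.cons (.br (nat_lit 1) (.cons (.rel (nat_lit 1090521105)) (.cons (.rel (nat_lit 1090535937)) .nil))) .nil)) .leaf)) (nat_lit 15834044852398090) (.br (nat_lit 0) (.cons (.br (nat_lit 1) (.cons (.rel (nat_lit 22022160)) .nil)) .nil)) (.node (.node .leaf (nat_lit 15834044852398865) (.br (nat_lit 3) (.cons (.br (nat_lit 1) (.cons (.rel (nat_lit 285229185)) (.cons (.rel (nat_lit 285229185)) .nil))) .nil)) .leaf) (nat_lit 15834044852434281) (.br (nat_lit 1) (.cons (.br (nat_lit 5) (.cons (.rel (nat_lit 8607768576))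 (.cons (.rel (nat_lit 4311826452)) .nil))) .nil)) .leaf))) (nat_lit 15834044853148299) (.br (nat_lit 1) (.cons (.br (nat_lit 4) (.cons (.rel (nat_lit 1090521105)) .nil)) .nil)) (.node (.node (.node (.node .leaf (nat_lit 15834044853365993) (.br (nat_lit 4) (.cons (.br (nat_lit 1) (.cons (.rel (nat_lit 1090519080)) (.cons (.rel (nat_lit 2164785216)) .nil))) .nil)) .leaf) (nat_lit 15834044853455649) (.br (nat_lit 0) (.cons (.br (nat_lit 5) (.cons (.rel (nat_lit 4303360320)) .nil)) .nil)) (.node .leaf (nat_lit 15834044854378506) (.br (nat_lit 1) (.cons (.br (nat_lit 3) (.cons (.rel (nat_lit 286265352)) .nil)) .nil)) .leaf)) (nat_lit 15834044854385895) (.br (nat_lit 1) (.cons (.br (nat_lit 3) (.cons (.rel (nat_lit 286277664)) .nil)) .nil)) (.node (.node .leaf (nat_lit 15834044854693919) (.br (nat_lit 6) (.cons (.br (nat_lit 4) (.cons (.rel (nat_lit 18253611078)) (.cons (.rel (nat_lit 35433480708)) .nil))) .nil)) .leaf) (nat_lit 15834044854694148) (.br (nat_lit 3) (.cons (.br (nat_lit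 4) (.cons (.rel (nat_lit 1343226948)) .nil)) .nil)) .leaf)) (nat_lit 15834044854940953) (.br (nat_lit 0) (.cons (.br (nat_lit 1) (.cons (.rel (nat_lit 21239808)) .nil)) .nil)) (.node (.node (.node .leaf (nat_lit 15834046468171953) (.br (nat_lit 2) (.cons (.br (nat_lit 4) (.cons (.rel (nat_lit 1140916545)) .nil)) .nil)) .leaf) (nat_lit 15834046468172533) (.br (nat_lit 2) (.cons (.br (nat_lit 3) (.cons (.rel (nat_lit 335822928)) .nil)) .nil)) .leaf) (nat_lit 15834046949030148) (.br (nat_lit 2) (.cons (.br (nat_lit 4) (.cons (.rel (nat_lit 1141391361)) .nil)) .nil)) (.node (.node .leaf (nat_lit 15834046949284715) (.br (nat_lit 1) (.cons (.br (nat_lit 2) (.cons (.rel (nat_lit 100671552)) .nil)) .nil)) .leaf) (nat_lit 15834046949285898) (.br (nat_lit 2) (.cons (.br (nat_lit 4) (.cons (.rel (nat_lit 2281972737)) .nil)) .nil)) .leaf)))) (nat_lit 15834046949286148) (.br (nat_lit 2) (.cons (.br (nat_lit 5) (.cons (.rel (nat_lit 8657109012)) .nil)) .nil)) (.node (.node (.node (.node (.node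 .leaf (nat_lit 15834046949492993) (.br (nat_lit 6) (.cons (.br (nat_lit 1) (.cons (.rel (nat_lit 17196662793)) (.cons (.rel (nat_lit 17196651552)) .nil))) .nil)) .leaf) (nat_lit 15834046949550086) (.br (nat_lit 1) (.cons (.br (nat_lit 5) (.cons (.rel (nat_lit 8623490304)) .nil)) .nil)) (.node .leaf (nat_lit 15834046949550090) (.br (nat_lit 1) (.cons (.br (nat_lit 0) (.cons (.rel (nat_lit 21250050)) (.cons (.rel (nat_lit 21234948)) .nil))) .nil)) .leaf)) (nat_lit 15834046949550111) (.br (nat_lit 0) (.cons (.br (nat_lit 2) (.cons (.rel (nat_lit 71323680)) .nil)) .nil)) (.node (.node .leaf (nat_lit 15834046949550840) (.br (nat_lit 0) (.cons (.br (nat_lit 1) (.cons (.rel (nat_lit 20971656)) .nil)) .nil)) .leaf) (nat_lit 15834046949602090) (.br (nat_lit 5) (.cons (.br (nat_lit 1) (.cons (.rel (nat_lit 4311747072)) (.cons (.rel (nat_lit 8623489317)) .nil))) .nil)) .leaf)) (nat_lit 15834046950299658) (.br (nat_lit 1) (.cons (.br (nat_lit 2) (.cons (.rel (nat_lit 84213840)) .nil)) .nil))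 (.node (.node (.node .leaf (nat_lit 15834046950517493) (.br (nat_lit 4) (.cons (.br (nat_lit 2) (.cons (.rel (nat_lit 1207959585)) (.cons (.rel (nat_lit 1140871248)) (.cons (.rel (nat_lit 1141391361)) .nil)))) .nil)) .leaf) (nat_lit 15834046950517611) (.br (nat_lit 5) (.cons (.br (nat_lit 0) (.cons (.rel (nat_lit 4299178002)) (.cons (.rel (nat_lit 4299161865)) .nil))) .nil)) (.node .leaf (nat_lit 15834046950576914) (.br (nat_lit 1) (.cons (.br (nat_lit 3) (.cons (.rel (nat_lit 286277664)) .nil)) .nil)) .leaf)) (nat_lit 15834046950783863) (.br (nat_lit 2) (.cons (.br (nat_lit 5) (.cons (.rel (nat_lit 4362602496)) (.cons (.rel (nat_lit 4362081348)) .nil))) .nil)) (.node (.node .leaf (nat_lit 15834046950784283) (.br (nat_lit 1) (.cons (.br (nat_lit 2) (.cons (.rel (nat_lit 83902992)) .nil)) .nil)) .leaf) (nat_lit 15834046950784502) (.br (nat_lit 1) (.cons (.br (nat_lit 2) (.cons (.rel (nat_lit 151257600)) .nil)) .nil)) .leaf))) (nat_lit 15834046950811828) (.br (nat_lit 3) (.cons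 (.br (nat_lit 5) (.cons (.rel (nat_lit 4563435540)) .nil)) .nil)) (.node (.node (.node (.node .leaf (nat_lit 15834046951530506) (.br (nat_lit 1) (.cons (.br (nat_lit 2) (.cons (.rel (nat_lit 152043777)) .nil)) .nil)) .leaf) (nat_lit 15834046951547140) (.br (nat_lit 4) (.cons (.br (nat_lit 3) (.cons (.rel (nat_lit 1342179360)) (.cons (.rel (nat_lit 1342177290)) (.cons (.rel (nat_lit 1342198017)) .nil)))) (.cons (.br (nat_lit 3) (.cons (.rel (nat_lit 1342505040)) (.cons (.rel (nat_lit 1342179360)) (.cons (.rel (nat_lit 2684354565)) .nil)))) .nil))) (.node .leaf (nat_lit 15834046951639050) (.br (nat_lit 1) (.cons (.br (nat_lit 4) (.cons (.rel (nat_lit 2181038100)) (.cons (.rel (nat_lit 1092894720)) .nil))) .nil)) .leaf)) (nat_lit 15834046951639345) (.br (nat_lit 1) (.cons (.br (nat_lit 5) (.cons (.rel (nat_lit 4311747072)) (.cons (.rel (nat_lit 4311777285)) .nil))) .nil)) (.node (.node .leaf (nat_lit 15834046951639691) (.br (nat_lit 1) (.cons (.br (nat_lit 2) (.cons (.rel (nat_lit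 84164673)) .nil)) .nil)) .leaf) (nat_lit 15834046951639845) (.br (nat_lit 1) (.cons (.br (nat_lit 3) (.cons (.rel (nat_lit 285229185)) .nil)) .nil)) .leaf)) (nat_lit 15834046951649311) (.br (nat_lit 0) (.cons (.br (nat_lit 6) (.cons (.rel (nat_lit 17184064545)) .nil)) .nil)) (.node (.node (.node .leaf (nat_lit 15834046951650590) (.br (nat_lit 5) (.cons (.br (nat_lit 1) (.cons (.rel (nat_lit 8623490304)) (.cons (.rel (nat_lit 4311777285)) (.cons (.rel (nat_lit 4311754770)) .nil)))) .nil)) .leaf) (nat_lit 15834046951859706) (.br (nat_lit 5) (.cons (.br (nat_lit 6) (.cons (.rel (nat_lit 38654722056)) (.cons (.rel (nat_lit 21474838080)) (.cons (.rel (nat_lit 21475365888)) .nil)))) .nil)) .leaf) (nat_lit 15834046952091658) (.br (nat_lit 4) (.cons (.br (nat_lit 5) (.cons (.rel (nat_lit 5368725570)) .nil)) .nil)) (.node (.node .leaf (nat_lit 15834046952093174) (.br (nat_lit 1) (.cons (.br (nat_lit 4) (.cons (.rel (nat_lit 1090519080)) (.cons (.rel (nat_lit 1090519080)) .nil))) (.cons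 (.br (nat_lit 4) (.cons (.rel (nat_lit 1090521105)) (.cons (.rel (nat_lit 1090650372)) .nil))) .nil))) .leaf) (nat_lit 15834047473274890) (.br (nat_lit 3) (.cons (.br (nat_lit 0) (.cons (.rel (nat_lit 272631936)) (.cons (.rel (nat_lit 272957472)) .nil))) .nil)) .leaf))))))

/-- refutations 79 -/
def e79 : EX := (.node (.node (.node (.node (.node (.node (.node .leaf (nat_lit 15834256035033094) (.br (nat_lit 2) (.cons (.br (nat_lit 3) (.cons (.rel (nat_lit 335565072)) .nil)) .nil)) .leaf) (nat_lit 15834256035033098) (.br (nat_lit 0) (.cons (.br (nat_lit 6) (.cons (.rel (nat_lit 34368128004)) .nil)) .nil)) .leaf) (nat_lit 15834256035033848) (.br (nat_lit 5) (.cons (.br (nat_lit 6) (.cons (.rel (nat_lit 25769824272)) .nil)) .nil)) (.node (.node .leaf (nat_lit 15834256035033873) (.br (nat_lit 0) (.cons (.br (nat_lit 2) (.cons (.rel (nat_lit 76812288)) .nil)) .nil)) .leaf) (nat_lit 15834256035084319) (.br (nat_lit 6) (.cons (.br (nat_lit 2) (.cons (.rel (nat_lit 17246978133)) (.cons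 (.rel (nat_lit 17247064128)) (.cons (.rel (nat_lit 17247064128)) (.cons (.rel (nat_lit 17314088196)) .nil))))) .nil)) .leaf)) (nat_lit 15834256035084548) (.br (nat_lit 6) (.cons (.br (nat_lit 0) (.cons (.rel (nat_lit 34368128004)) (.cons (.rel (nat_lit 17185112133)) (.cons (.rel (nat_lit 17184072960)) .nil)))) .nil)) (.node (.node (.node .leaf (nat_lit 15834256035085048) (.br (nat_lit 2) (.cons (.br (nat_lit 4) (.cons (.rel (nat_lit 1140871248)) .nil)) .nil)) .leaf) (nat_lit 15834256035085194) (.br (nat_lit 5) (.cons (.br (nat_lit 4) (.cons (.rel (nat_lit 6442713168)) (.cons (.rel (nat_lit 5368725570)) (.cons (.rel (nat_lit 5368710468)) .nil)))) .nil)) .leaf) (nat_lit 15834256035124007) (.br (nat_lit 1) (.cons (.br (nat_lit 2) (.cons (.rel (nat_lit 100671552)) .nil)) .nil)) (.node .leaf (nat_lit 15834256035545098) (.br (nat_lit 0) (.cons (.br (nat_lit 4) (.cons (.rel (nat_lit 1077938688)) (.cons (.rel (nat_lit 1078198344)) .nil))) (.cons (.br (nat_lit 6) (.cons (.rel (nat_lit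 34368128004)) (.cons (.rel (nat_lit 17184162816)) .nil))) .nil))) .leaf))) (nat_lit 15834256035545344) (.br (nat_lit 2) (.cons (.br (nat_lit 0) (.cons (.rel (nat_lit 71304708)) (.cons (.rel (nat_lit 71386113)) .nil))) .nil)) (.node (.node (.node (.node .leaf (nat_lit 15834256035545714) (.br (nat_lit 2) (.cons (.br (nat_lit 4) (.cons (.rel (nat_lit 1208225856)) .nil)) .nil)) .leaf) (nat_lit 15834256035545873) (.br (nat_lit 1) (.cons (.br (nat_lit 2) (.cons (.rel (nat_lit 83902992)) .nil)) .nil)) .leaf) (nat_lit 15834256035546343) (.br (nat_lit 0) (.cons (.br (nat_lit 1) (.cons (.rel (nat_lit 41943108)) .nil)) .nil)) (.node (.node .leaf (nat_lit 15834256035546589) (.br (nat_lit 0) (.cons (.br (nat_lit 4) (.cons (.rel (nat_lit 1077938688)) .nil)) .nil)) .leaf) (nat_lit 15834256035547893) (.br (nat_lit 1) (.cons (.br (nat_lit 5) (.cons (.rel (nat_lit 4311754770)) (.cons (.rel (nat_lit 4311747072)) .nil))) (.cons (.br (nat_lit 5) (.cons (.rel (nat_lit 4328588352)) (.cons (.rel (nat_lit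 8623490304)) .nil))) .nil))) .leaf)) (nat_lit 15834256035548393) (.br (nat_lit 0) (.cons (.br (nat_lit 1) (.cons (.rel (nat_lit 20971656)) .nil)) .nil)) (.node (.node (.node .leaf (nat_lit 15834256035586054) (.br (nat_lit 1) (.cons (.br (nat_lit 3) (.cons (.rel (nat_lit 553914432)) .nil)) .nil)) .leaf) (nat_lit 15834256035587429) (.br (nat_lit 3) (.cons (.br (nat_lit 5) (.cons (.rel (nat_lit 4563419394)) .nil)) .nil)) .leaf) (nat_lit 15834256035604486) (.br (nat_lit 2) (.cons (.br (nat_lit 6) (.cons (.rel (nat_lit 17247064128)) (.cons (.rel (nat_lit 34427109444)) .nil))) .nil)) (.node .leaf (nat_lit 15834256035604511) (.br (nat_lit 0) (.cons (.br (nat_lit 3) (.cons (.rel (nat_lit 541069569)) .nil)) .nil)) .leaf)))) (nat_lit 15834256035604536) (.br (nat_lit 3) (.cons (.br (nat_lit 1) (.cons (.rel (nat_lit 553649160)) (.cons (.rel (nat_lit 285229185)) .nil))) .nil)) (.node (.node (.node (.node (.node .leaf (nat_lit 15834256035646745) (.br (nat_lit 3) (.cons (.br (nat_lit 4) (.cons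 (.rel (nat_lit 1342198017)) (.cons (.rel (nat_lit 1342177290)) .nil))) (.cons (.br (nat_lit 4) (.cons (.rel (nat_lit 2416971792)) (.cons (.rel (nat_lit 2684354565)) .nil))) .nil))) .leaf) (nat_lit 15834256035650343) (.br (nat_lit 4) (.cons (.br (nat_lit 5) (.cons (.rel (nat_lit 5369823360)) .nil)) .nil)) .leaf) (nat_lit 15834256035656487) (.br (nat_lit 2) (.cons (.br (nat_lit 6) (.cons (.rel (nat_lit 17249076225)) .nil)) .nil)) (.node (.node .leaf (nat_lit 15834256036304349) (.br (nat_lit 5) (.cons (.br (nat_lit 0) (.cons (.rel (nat_lit 4299167760)) (.cons (.rel (nat_lit 4299440448)) .nil))) .nil)) .leaf) (nat_lit 15834256036631314) (.br (nat_lit 1) (.cons (.br (nat_lit 3) (.cons (.rel (nat_lit 302137344)) (.cons (.rel (nat_lit 302137344)) .nil))) .nil)) .leaf)) (nat_lit 15834256036838181) (.br (nat_lit 2) (.cons (.br (nat_lit 5) (.cons (.rel (nat_lit 4362076488)) .nil)) .nil)) (.node (.node (.node .leaf (nat_lit 15834256036865257) (.br (nat_lit 0) (.cons (.br (nat_lit 2) (.cons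 (.rel (nat_lit 142610436)) .nil)) .nil)) .leaf) (nat_lit 15834256036866803) (.br (nat_lit 1) (.cons (.br (nat_lit 5) (.cons (.rel (nat_lit 4311747072)) .nil)) .nil)) .leaf) (nat_lit 15834256036866828) (.br (nat_lit 0) (.cons (.br (nat_lit 5) (.cons (.rel (nat_lit 4299325440)) (.cons (.rel (nat_lit 8598405120)) .nil))) .nil)) (.node .leaf (nat_lit 15834256036867353) (.br (nat_lit 0) (.cons (.br (nat_lit 5) (.cons (.rel (nat_lit 4299178002)) .nil)) .nil)) .leaf))) (nat_lit 15834256036916625) (.br (nat_lit 5) (.cons (.br (nat_lit 6) (.cons (.rel (nat_lit 38654709780)) (.cons (.rel (nat_lit 38654706945)) .nil))) (.cons (.br (nat_lit 6) (.cons (.rel (nat_lit 25769806338)) (.cons (.rel (nat_lit 21474869328)) .nil))) .nil))) (.node (.node (.node (.node .leaf (nat_lit 15834256037591050) (.br (nat_lit 0) (.cons (.br (nat_lit 1) (.cons (.rel (nat_lit 25166097)) .nil)) .nil)) .leaf) (nat_lit 15834256037601540) (.br (nat_lit 5) (.cons (.br (nat_lit 3) (.cons (.rel (nat_lit 4563407130))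 (.cons (.rel (nat_lit 4563409152)) .nil))) .nil)) .leaf) (nat_lit 15834256037687306) (.br (nat_lit 6) (.cons (.br (nat_lit 4) (.cons (.rel (nat_lit 36507500544)) (.cons (.rel (nat_lit 18253611078)) .nil))) .nil)) (.node .leaf (nat_lit 15834256037687352) (.br (nat_lit 1) (.cons (.br (nat_lit 3) (.cons (.rel (nat_lit 285229185)) .nil)) .nil)) .leaf)) (nat_lit 15834256037688677) (.br (nat_lit 2) (.cons (.br (nat_lit 3) (.cons (.rel (nat_lit 335546370)) .nil)) .nil)) (.node (.node (.node .leaf (nat_lit 15834256037693745) (.br (nat_lit 0) (.cons (.br (nat_lit 4) (.cons (.rel (nat_lit 1077969936)) (.cons (.rel (nat_lit 1084227585)) (.cons (.rel (nat_lit 1077938688)) .nil)))) (.cons (.br (nat_lit 4) (.cons (.rel (nat_lit 2151940353)) (.cons (.rel (nat_lit 1079574528)) (.cons (.rel (nat_lit 1077952800)) .nil)))) (.cons (.br (nat_lit 4) (.cons (.rel (nat_lit 1077956625)) (.cons (.rel (nat_lit 2155873536)) (.cons (.rel (nat_lit 1077938688)) .nil)))) .nil)))) .leaf) (nat_lit 15834256037697843)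 (.br (nat_lit 6) (.cons (.br (nat_lit 2) (.cons (.rel (nat_lit 17247633408)) (.cons (.rel (nat_lit 17314088196)) .nil))) .nil)) .leaf) (nat_lit 15834256037698843) (.br (nat_lit 1) (.cons (.br (nat_lit 4) (.cons (.rel (nat_lit 1090519080)) .nil)) .nil)) (.node .leaf (nat_lit 15834256037707153) (.br (nat_lit 0) (.cons (.br (nat_lit 6) (.cons (.rel (nat_lit 17188798992)) .nil)) .nil)) .leaf))))) (nat_lit 15834256037913333) (.br (nat_lit 2) (.cons (.br (nat_lit 6) (.cons (.rel (nat_lit 34494283776)) .nil)) .nil)) (.node (.node (.node (.node (.node (.node .leaf (nat_lit 15834256037913988) (.br (nat_lit 2) (.cons (.br (nat_lit 5) (.cons (.rel (nat_lit 8657043744)) .nil)) .nil)) .leaf) (nat_lit 15834256038146353) (.br (nat_lit 0) (.cons (.br (nat_lit 2) (.cons (.rel (nat_lit 71319810)) .nil)) .nil)) .leaf) (nat_lit 15834259705049098) (.br (nat_lit 2) (.cons (.br (nat_lit 5) (.cons (.rel (nat_lit 4362092625)) .nil)) .nil)) (.node (.node .leaf (nat_lit 15834259705049848) (.br (nat_lit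 1) (.cons (.br (nat_lit 2) (.cons (.rel (nat_lit 150999168)) .nil)) .nil)) .leaf) (nat_lit 15834259705049873) (.br (nat_lit 2) (.cons (.br (nat_lit 6) (.cons (.rel (nat_lit 17247633408)) .nil)) .nil)) .leaf)) (nat_lit 15834259705100319) (.br (nat_lit 2) (.cons (.br (nat_lit 3) (.cons (.rel (nat_lit 335565072)) .nil)) .nil)) (.node (.node (.node .leaf (nat_lit 15834259705101088) (.br (nat_lit 2) (.cons (.br (nat_lit 3) (.cons (.rel (nat_lit 671089665)) .nil)) .nil)) .leaf) (nat_lit 15834259705140125) (.br (nat_lit 1) (.cons (.br (nat_lit 3) (.cons (.rel (nat_lit 570425940)) .nil)) .nil)) .leaf) (nat_lit 15834259705561973) (.br (nat_lit 0) (.cons (.br (nat_lit 1) (.cons (.rel (nat_lit 21239808)) .nil)) .nil)) (.node .leaf (nat_lit 15834259705661450) (.br (nat_lit 1) (.cons (.br (nat_lit 3) (.cons (.rel (nat_lit 285229185)) .nil)) .nil)) .leaf))) (nat_lit 15834259705662745) (.br (nat_lit 1) (.cons (.br (nat_lit 3) (.cons (.rel (nat_lit 285229185)) .nil)) .nil)) (.node (.node (.node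 (.node .leaf (nat_lit 15834259706647314) (.br (nat_lit 1) (.cons (.br (nat_lit 3) (.cons (.rel (nat_lit 285540609)) .nil)) .nil)) .leaf) (nat_lit 15834259706678154) (.br (nat_lit 0) (.cons (.br (nat_lit 1) (.cons (.rel (nat_lit 41943108)) .nil)) .nil)) .leaf) (nat_lit 15834259706854181) (.br (nat_lit 0) (.cons (.br (nat_lit 4) (.cons (.rel (nat_lit 1078198344)) .nil)) .nil)) (.node (.node .leaf (nat_lit 15834259706882853) (.br (nat_lit 0) (.cons (.br (nat_lit 4) (.cons (.rel (nat_lit 1077956625)) .nil)) .nil)) .leaf) (nat_lit 15834261802713873) (.br (nat_lit 0) (.cons (.br (nat_lit 1) (.cons (.rel (nat_lit 20971656)) .nil)) .nil)) .leaf)) (nat_lit 15834261802772486) (.br (nat_lit 2) (.cons (.br (nat_lit 6) (.cons (.rel (nat_lit 34427109444)) .nil)) .nil)) (.node (.node (.node .leaf (nat_lit 15834261802774040) (.br (nat_lit 0) (.cons (.br (nat_lit 2) (.cons (.rel (nat_lit 71304708)) .nil)) .nil)) .leaf) (nat_lit 15834261803472349) (.br (nat_lit 1) (.cons (.br (nat_lit 2) (.cons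 (.rel (nat_lit 150999168)) .nil)) .nil)) .leaf) (nat_lit 15834261804005633) (.br (nat_lit 2) (.cons (.br (nat_lit 3) (.cons (.rel (nat_lit 336592968)) .nil)) .nil)) (.node .leaf (nat_lit 15834261804006263) (.br (nat_lit 2) (.cons (.br (nat_lit 4) (.cons (.rel (nat_lit 1142162436)) .nil)) .nil)) .leaf)))) (nat_lit 15834261804006633) (.br (nat_lit 2) (.cons (.br (nat_lit 3) (.cons (.rel (nat_lit 335610369)) .nil)) .nil)) (.node (.node (.node (.node (.node .leaf (nat_lit 15834261804034353) (.br (nat_lit 0) (.cons (.br (nat_lit 3) (.cons (.rel (nat_lit 272631936)) .nil)) .nil)) .leaf) (nat_lit 15834261804084507) (.br (nat_lit 2) (.cons (.br (nat_lit 3) (.cons (.rel (nat_lit 335610369)) .nil)) .nil)) .leaf) (nat_lit 15834261804856181) (.br (nat_lit 2) (.cons (.br (nat_lit 4) (.cons (.rel (nat_lit 1141440528)) .nil)) .nil)) (.node (.node .leaf (nat_lit 15834261804861745) (.br (nat_lit 3) (.cons (.br (nat_lit 5) (.cons (.rel (nat_lit 4563419394)) (.cons (.rel (nat_lit 4563667008))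 .nil))) .nil)) .leaf) (nat_lit 15834261804865843) (.br (nat_lit 1) (.cons (.br (nat_lit 6) (.cons (.rel (nat_lit 17198220288)) .nil)) .nil)) .leaf)) (nat_lit 15834261804874033) (.br (nat_lit 1) (.cons (.br (nat_lit 2) (.cons (.rel (nat_lit 83920128)) .nil)) .nil)) (.node (.node (.node .leaf (nat_lit 15834470888306698) (.br (nat_lit 1) (.cons (.br (nat_lit 0) (.cons (.rel (nat_lit 20971656)) (.cons (.rel (nat_lit 21239808)) .nil))) .nil)) .leaf) (nat_lit 15834470888307448) (.br (nat_lit 0) (.cons (.br (nat_lit 2) (.cons (.rel (nat_lit 71304708)) .nil)) .nil)) .leaf) (nat_lit 15834470890089228) (.br (nat_lit 0) (.cons (.br (nat_lit 1) (.cons (.rel (nat_lit 22022160)) (.cons (.rel (nat_lit 37756929)) .nil))) .nil)) (.node .leaf (nat_lit 15834470890089753) (.br (nat_lit 0) (.cons (.br (nat_lit 1) (.cons (.rel (nat_lit 25231365)) .nil)) .nil)) .leaf))) (nat_lit 15834474560105753) (.br (nat_lit 0) (.cons (.br (nat_lit 1) (.cons (.rel (nat_lit 21234948)) .nil)) .nil)) (.node (.node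 (.node (.node .leaf (nat_lit 15834476655976454) (.br (nat_lit 0) (.cons (.br (nat_lit 1) (.cons (.rel (nat_lit 21239808)) .nil)) .nil)) .leaf) (nat_lit 15834476657255800) (.br (nat_lit 0) (.cons (.br (nat_lit 2) (.cons (.rel (nat_lit 142610436)) .nil)) .nil)) .leaf) (nat_lit 15834476657256753) (.br (nat_lit 3) (.cons (.br (nat_lit 1) (.cons (.rel (nat_lit 554696784)) (.cons (.rel (nat_lit 286265352)) .nil))) .nil)) (.node .leaf (nat_lit 15834476658095480) (.br (nat_lit 0) (.cons (.br (nat_lit 6) (.cons (.rel (nat_lit 34368128004)) .nil)) .nil)) .leaf)) (nat_lit 15834571193400683) (.br (nat_lit 0) (.cons (.br (nat_lit 1) (.cons (.rel (nat_lit 21239808)) .nil)) .nil)) (.node (.node (.node .leaf (nat_lit 15835121215398773) (.br (nat_lit 0) (.cons (.br (nat_lit 1) (.cons (.rel (nat_lit 41943108)) .nil)) .nil)) .leaf) (nat_lit 15835381212223795) (.br (nat_lit 0) (.cons (.br (nat_lit 1) (.cons (.rel (nat_lit 22089984)) .nil)) .nil)) .leaf) (nat_lit 15835381319288842) (.br (nat_lit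 0) (.cons (.br (nat_lit 1) (.cons (.rel (nat_lit 41943108)) (.cons (.rel (nat_lit 38010960)) .nil))) (.cons (.br (nat_lit 1) (.cons (.rel (nat_lit 20971656)) (.cons (.rel (nat_lit 25183233)) .nil))) .nil))) (.node .leaf (nat_lit 15835381866534922) (.br (nat_lit 0) (.cons (.br (nat_lit 4) (.cons (.rel (nat_lit 2151940353)) .nil)) .nil)) .leaf))))))

/-- refutations 80 -/
def e80 : EX := (.node (.node (.node (.node (.node (.node (.node .leaf (nat_lit 15838336149106694) (.br (nat_lit 1) (.cons (.br (nat_lit 6) (.cons (.rel (nat_lit 17196650517)) (.cons (.rel (nat_lit 17196646692)) .nil))) (.cons (.br (nat_lit 6) (.cons (.rel (nat_lit 17196646692)) (.cons (.rel (nat_lit 17213425728)) .nil))) .nil))) .leaf) (nat_lit 15838336149107448) (.br (nat_lit 1) (.cons (.br (nat_lit 2) (.cons (.rel (nat_lit 100925586)) (.cons (.rel (nat_lit 167772165)) .nil))) .nil)) (.node .leaf (nat_lit 15838336149157898) (.br (nat_lit 4) (.cons (.br (nat_lit 1) (.cons (.rel (nat_lit 2181038100)) (.cons (.rel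 (nat_lit 1090521105)) .nil))) .nil)) .leaf)) (nat_lit 15838336149158148) (.br (nat_lit 4) (.cons (.br (nat_lit 6) (.cons (.rel (nat_lit 18253693248)) .nil)) .nil)) (.node (.node .leaf (nat_lit 15838336149158695) (.br (nat_lit 4) (.cons (.br (nat_lit 6) (.cons (.rel (nat_lit 18253693248)) (.cons (.rel (nat_lit 36507500544)) .nil))) .nil)) .leaf) (nat_lit 15838336149159138) (.br (nat_lit 1) (.cons (.br (nat_lit 4) (.cons (.rel (nat_lit 1090535937)) .nil)) .nil)) (.node .leaf (nat_lit 15838336149198225) (.br (nat_lit 5) (.cons (.br (nat_lit 0) (.cons (.rel (nat_lit 4299182592)) (.cons (.rel (nat_lit 4299161865)) .nil))) .nil)) .leaf))) (nat_lit 15838336149366161) (.br (nat_lit 1) (.cons (.br (nat_lit 0) (.cons (.rel (nat_lit 43257861)) (.cons (.rel (nat_lit 22347840)) .nil))) .nil)) (.node (.node (.node .leaf (nat_lit 15838336149412650) (.br (nat_lit 0) (.cons (.br (nat_lit 5) (.cons (.rel (nat_lit 4299178002)) .nil)) .nil)) .leaf) (nat_lit 15838336149413265) (.br (nat_lit 4) (.cons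 (.br (nat_lit 1) (.cons (.rel (nat_lit 1090519080)) (.cons (.rel (nat_lit 1090519080)) .nil))) .nil)) (.node .leaf (nat_lit 15838336149618698) (.br (nat_lit 6) (.cons (.br (nat_lit 1) (.cons (.rel (nat_lit 17196647682)) (.cons (.rel (nat_lit 17196650517)) .nil))) .nil)) .leaf)) (nat_lit 15838336149621493) (.br (nat_lit 1) (.cons (.br (nat_lit 5) (.cons (.rel (nat_lit 8623490304)) .nil)) .nil)) (.node (.node .leaf (nat_lit 15838336149621543) (.br (nat_lit 1) (.cons (.br (nat_lit 4) (.cons (.rel (nat_lit 1090519080)) .nil)) .nil)) .leaf) (nat_lit 15838336149621993) (.br (nat_lit 3) (.cons (.br (nat_lit 4) (.cons (.rel (nat_lit 1343226948)) (.cons (.rel (nat_lit 2684354565)) .nil))) .nil)) (.node .leaf (nat_lit 15838336149659654) (.br (nat_lit 1) (.cons (.br (nat_lit 6) (.cons (.rel (nat_lit 17213425728)) (.cons (.rel (nat_lit 17197699140)) .nil))) .nil)) .leaf)))) (nat_lit 15838336149678086) (.br (nat_lit 4) (.cons (.br (nat_lit 5) (.cons (.rel (nat_lit 9663676689)) .nil)) .nil))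 (.node (.node (.node (.node .leaf (nat_lit 15838336149678837) (.br (nat_lit 1) (.cons (.br (nat_lit 3) (.cons (.rel (nat_lit 301989906)) .nil)) .nil)) .leaf) (nat_lit 15838336149678865) (.br (nat_lit 3) (.cons (.br (nat_lit 1) (.cons (.rel (nat_lit 285278352)) (.cons (.rel (nat_lit 285229185)) .nil))) .nil)) (.node .leaf (nat_lit 15838336149678992) (.br (nat_lit 1) (.cons (.br (nat_lit 0) (.cons (.rel (nat_lit 20971656)) (.cons (.rel (nat_lit 41943108)) .nil))) .nil)) .leaf)) (nat_lit 15838336149712906) (.br (nat_lit 1) (.cons (.br (nat_lit 5) (.cons (.rel (nat_lit 4329046032)) .nil)) .nil)) (.node (.node .leaf (nat_lit 15838336149713781) (.br (nat_lit 3) (.cons (.br (nat_lit 1) (.cons (.rel (nat_lit 286265352)) (.cons (.rel (nat_lit 286265352)) .nil))) .nil)) .leaf) (nat_lit 15838336149714198) (.br (nat_lit 5) (.cons (.br (nat_lit 6) (.cons (.rel (nat_lit 21474869328)) .nil)) .nil)) (.node .leaf (nat_lit 15838336149714277) (.br (nat_lit 1) (.cons (.br (nat_lit 2) (.cons (.rel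 (nat_lit 83886090)) .nil)) .nil)) .leaf))) (nat_lit 15838336150377203) (.br (nat_lit 2) (.cons (.br (nat_lit 4) (.cons (.rel (nat_lit 1141391361)) .nil)) .nil)) (.node (.node (.node .leaf (nat_lit 15838336150377229) (.br (nat_lit 1) (.cons (.br (nat_lit 2) (.cons (.rel (nat_lit 83886090)) .nil)) .nil)) .leaf) (nat_lit 15838336150377705) (.br (nat_lit 0) (.cons (.br (nat_lit 1) (.cons (.rel (nat_lit 22347840)) (.cons (.rel (nat_lit 20971656)) .nil))) (.cons (.br (nat_lit 1) (.cons (.rel (nat_lit 20971656)) (.cons (.rel (nat_lit 20971656)) .nil))) .nil))) (.node .leaf (nat_lit 15838336150427658) (.br (nat_lit 1) (.cons (.br (nat_lit 4) (.cons (.rel (nat_lit 2181038100)) .nil)) .nil)) .leaf)) (nat_lit 15838336150429174) (.br (nat_lit 1) (.cons (.br (nat_lit 2) (.cons (.rel (nat_lit 83886090)) (.cons (.rel (nat_lit 101187840)) .nil))) (.cons (.br (nat_lit 2) (.cons (.rel (nat_lit 83887125)) (.cons (.rel (nat_lit 83902992)) .nil))) .nil))) (.node (.node .leaf (nat_lit 15838336150480374)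 (.br (nat_lit 2) (.cons (.br (nat_lit 1) (.cons (.rel (nat_lit 167773200)) (.cons (.rel (nat_lit 101187840)) (.cons (.rel (nat_lit 83887125)) .nil)))) (.cons (.br (nat_lit 5) (.cons (.rel (nat_lit 4362081348)) (.cons (.rel (nat_lit 4362076488)) (.cons (.rel (nat_lit 8724415488)) .nil)))) .nil))) .leaf) (nat_lit 15838336150644993) (.br (nat_lit 2) (.cons (.br (nat_lit 5) (.cons (.rel (nat_lit 4362076488)) .nil)) .nil)) .leaf)))) (nat_lit 15838336150645493) (.br (nat_lit 3) (.cons (.br (nat_lit 4) (.cons (.rel (nat_lit 1342177290)) .nil)) .nil)) (.node (.node (.node (.node (.node .leaf (nat_lit 15838336150645541) (.br (nat_lit 2) (.cons (.br (nat_lit 5) (.cons (.rel (nat_lit 4362081348)) .nil)) .nil)) .leaf) (nat_lit 15838336150645991) (.br (nat_lit 1) (.cons (.br (nat_lit 3) (.cons (.rel (nat_lit 285278352)) .nil)) .nil)) (.node .leaf (nat_lit 15838336150705013) (.br (nat_lit 3) (.cons (.br (nat_lit 1) (.cons (.rel (nat_lit 285229185)) (.cons (.rel (nat_lit 286265352)) .nil)))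 .nil)) .leaf)) (nat_lit 15838336150705513) (.br (nat_lit 2) (.cons (.br (nat_lit 3) (.cons (.rel (nat_lit 335546370)) .nil)) .nil)) (.node (.node .leaf (nat_lit 15838336150705553) (.br (nat_lit 1) (.cons (.br (nat_lit 5) (.cons (.rel (nat_lit 4313382912)) .nil)) .nil)) .leaf) (nat_lit 15838336150735754) (.br (nat_lit 1) (.cons (.br (nat_lit 4) (.cons (.rel (nat_lit 2181038100)) .nil)) .nil)) (.node .leaf (nat_lit 15838336150911233) (.br (nat_lit 2) (.cons (.br (nat_lit 4) (.cons (.rel (nat_lit 1141440528)) .nil)) .nil)) .leaf))) (nat_lit 15838336150912283) (.br (nat_lit 1) (.cons (.br (nat_lit 2) (.cons (.rel (nat_lit 84164673)) .nil)) .nil)) (.node (.node (.node .leaf (nat_lit 15838336150912506) (.br (nat_lit 1) (.cons (.br (nat_lit 2) (.cons (.rel (nat_lit 84164673)) (.cons (.rel (nat_lit 167773200)) .nil))) .nil)) .leaf) (nat_lit 15838336150939908) (.br (nat_lit 5) (.cons (.br (nat_lit 1) (.cons (.rel (nat_lit 8623490304)) (.cons (.rel (nat_lit 8623490304)) .nil))) .nil))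 (.node .leaf (nat_lit 15838336150940299) (.br (nat_lit 1) (.cons (.br (nat_lit 2) (.cons (.rel (nat_lit 83968260)) .nil)) .nil)) .leaf)) (nat_lit 15838336150940403) (.br (nat_lit 1) (.cons (.br (nat_lit 3) (.cons (.rel (nat_lit 301989906)) .nil)) .nil)) (.node (.node .leaf (nat_lit 15838336150940950) (.br (nat_lit 1) (.cons (.br (nat_lit 3) (.cons (.rel (nat_lit 286263552)) .nil)) .nil)) .leaf) (nat_lit 15838336150940953) (.br (nat_lit 0) (.cons (.br (nat_lit 1) (.cons (.br (nat_lit 3) (.cons (.rel (nat_lit 553649160)) .nil)) .nil)) .nil)) (.node .leaf (nat_lit 15838336151664942) (.br (nat_lit 1) (.cons (.br (nat_lit 4) (.cons (.rel (nat_lit 1090520070)) .nil)) .nil)) .leaf)))) (nat_lit 15838336151675140) (.br (nat_lit 3) (.cons (.br (nat_lit 1) (.cons (.rel (nat_lit 286263552)) (.cons (.rel (nat_lit 285229185)) (.cons (.rel (nat_lit 286326786)) .nil)))) (.cons (.br (nat_lit 1) (.cons (.rel (nat_lit 553914432)) (.cons (.rel (nat_lit 285229185)) (.cons (.rel (nat_lit 570687621))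 .nil)))) .nil))) (.node (.node (.node (.node .leaf (nat_lit 15838336151676261) (.br (nat_lit 1) (.cons (.br (nat_lit 2) (.cons (.rel (nat_lit 100930176)) .nil)) .nil)) .leaf) (nat_lit 15838336151974148) (.br (nat_lit 0) (.cons (.br (nat_lit 5) (.cons (.rel (nat_lit 4299166725)) .nil)) .nil)) (.node .leaf (nat_lit 15838336151975273) (.br (nat_lit 3) (.cons (.br (nat_lit 6) (.cons (.rel (nat_lit 17448345600)) .nil)) .nil)) .leaf)) (nat_lit 15838336151986981) (.br (nat_lit 6) (.cons (.br (nat_lit 1) (.cons (.rel (nat_lit 17196646692)) (.cons (.rel (nat_lit 17196650517)) .nil))) .nil)) (.node (.node .leaf (nat_lit 15838336151987706) (.br (nat_lit 1) (.cons (.br (nat_lit 3) (.cons (.rel (nat_lit 285229185)) .nil)) .nil)) .leaf) (nat_lit 15838336152219953) (.br (nat_lit 0) (.cons (.br (nat_lit 1) (.cons (.rel (nat_lit 21234948)) (.cons (.rel (nat_lit 41943108)) .nil))) (.cons (.br (nat_lit 1) (.cons (.rel (nat_lit 20971656)) (.cons (.rel (nat_lit 21250050)) .nil))) .nil))) (.node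 .leaf (nat_lit 15838336152220299) (.br (nat_lit 1) (.cons (.br (nat_lit 2) (.cons (.rel (nat_lit 83902992)) .nil)) .nil)) .leaf))) (nat_lit 15838336152220898) (.br (nat_lit 2) (.cons (.br (nat_lit 3) (.cons (.rel (nat_lit 335546370)) .nil)) .nil)) (.node (.node (.node .leaf (nat_lit 15838336805251332) (.br (nat_lit 0) (.cons (.br (nat_lit 1) (.cons (.rel (nat_lit 21299217)) .nil)) .nil)) .leaf) (nat_lit 15838336806242314) (.br (nat_lit 2) (.cons (.br (nat_lit 5) (.cons (.rel (nat_lit 4429255680)) .nil)) .nil)) (.node .leaf (nat_lit 15838337303861258) (.br (nat_lit 0) (.cons (.br (nat_lit 2) (.cons (.rel (nat_lit 72892416)) (.cons (.rel (nat_lit 71319810)) .nil))) .nil)) .leaf)) (nat_lit 15838337305214353) (.br (nat_lit 1) (.cons (.br (nat_lit 2) (.cons (.rel (nat_lit 83888160)) .nil)) .nil)) (.node (.node .leaf (nat_lit 15838338920019978) (.br (nat_lit 1) (.cons (.br (nat_lit 2) (.cons (.rel (nat_lit 167772165)) .nil)) .nil)) .leaf) (nat_lit 15838339347724298) (.br (nat_lit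 1) (.cons (.br (nat_lit 2) (.cons (.rel (nat_lit 167773200)) .nil)) .nil)) .leaf))))) (nat_lit 15838339819122694) (.br (nat_lit 1) (.cons (.br (nat_lit 6) (.cons (.rel (nat_lit 17213425728)) .nil)) .nil)) (.node (.node (.node (.node (.node (.node .leaf (nat_lit 15838339819368503) (.br (nat_lit 1) (.cons (.br (nat_lit 5) (.cons (.rel (nat_lit 4311761184)) .nil)) .nil)) .leaf) (nat_lit 15838339819427995) (.br (nat_lit 4) (.cons (.br (nat_lit 6) (.cons (.rel (nat_lit 18254660736)) (.cons (.rel (nat_lit 35433480708)) .nil))) (.cons (.br (nat_lit 6) (.cons (.rel (nat_lit 19327353096)) (.cons (.rel (nat_lit 19327357956)) .nil))) .nil))) (.node .leaf (nat_lit 15838339819634698) (.br (nat_lit 0) (.cons (.br (nat_lit 6) (.cons (.rel (nat_lit 17184072960)) .nil)) .nil)) .leaf)) (nat_lit 15838339819637493) (.br (nat_lit 5) (.cons (.br (nat_lit 1) (.cons (.rel (nat_lit 8623490304)) (.cons (.rel (nat_lit 4311747072)) .nil))) .nil)) (.node (.node .leaf (nat_lit 15838339819694865) (.br (nat_lit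 5) (.cons (.br (nat_lit 1) (.cons (.rel (nat_lit 4328522049)) (.cons (.rel (nat_lit 8623490304)) (.cons (.rel (nat_lit 4311745050)) .nil)))) (.cons (.br (nat_lit 1) (.cons (.rel (nat_lit 8623490304)) (.cons (.rel (nat_lit 4311748872)) (.cons (.rel (nat_lit 8623490304)) .nil)))) .nil))) .leaf) (nat_lit 15838339819730281) (.br (nat_lit 0) (.cons (.br (nat_lit 6) (.cons (.rel (nat_lit 17184330816)) .nil)) .nil)) (.node .leaf (nat_lit 15838339819735345) (.br (nat_lit 6) (.cons (.br (nat_lit 1) (.cons (.rel (nat_lit 17196941376)) (.cons (.rel (nat_lit 17196662793)) (.cons (.rel (nat_lit 17196646692)) .nil)))) (.cons (.br (nat_lit 3) (.cons (.rel (nat_lit 17448371205)) (.cons (.rel (nat_lit 34628173956)) (.cons (.rel (nat_lit 34896629760)) .nil)))) .nil))) .leaf))) (nat_lit 15838339819735845) (.br (nat_lit 5) (.cons (.br (nat_lit 1) (.cons (.rel (nat_lit 4311810306)) (.cons (.rel (nat_lit 4329046032)) .nil))) .nil)) (.node (.node (.node .leaf (nat_lit 15838339819735925) (.br (nat_lit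 3) (.cons (.br (nat_lit 5) (.cons (.rel (nat_lit 4563667008)) .nil)) .nil)) .leaf) (nat_lit 15838339819746090) (.br (nat_lit 6) (.cons (.br (nat_lit 0) (.cons (.br (nat_lit 5) (.cons (.rel (nat_lit 4299162900)) (.cons (.rel (nat_lit 38654706945)) (.cons (.rel (nat_lit 4299167760)) .nil)))) (.cons (.rel (nat_lit 17184065544)) .nil))) .nil)) (.node .leaf (nat_lit 15838339820393949) (.br (nat_lit 1) (.cons (.br (nat_lit 2) (.cons (.rel (nat_lit 83887125)) (.cons (.rel (nat_lit 84935748)) .nil))) (.cons (.br (nat_lit 2) (.cons (.rel (nat_lit 83886090)) (.cons (.rel (nat_lit 167773200)) .nil))) .nil))) .leaf)) (nat_lit 15838339820443658) (.br (nat_lit 2) (.cons (.br (nat_lit 3) (.cons (.rel (nat_lit 335565072)) .nil)) .nil)) (.node (.node .leaf (nat_lit 15838339820444299) (.br (nat_lit 3) (.cons (.br (nat_lit 4) (.cons (.rel (nat_lit 1343226948)) (.cons (.rel (nat_lit 2684355600)) (.cons (.rel (nat_lit 1343226948)) .nil)))) (.cons (.br (nat_lit 1) (.cons (.rel (nat_lit 286263552))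 (.cons (.rel (nat_lit 302137344)) (.cons (.rel (nat_lit 285495312)) .nil)))) .nil))) .leaf) (nat_lit 15838339820444455) (.br (nat_lit 0) (.cons (.br (nat_lit 2) (.cons (.rel (nat_lit 139460640)) .nil)) .nil)) (.node .leaf (nat_lit 15838339820661993) (.br (nat_lit 0) (.cons (.br (nat_lit 4) (.cons (.rel (nat_lit 1077938688)) (.cons (.rel (nat_lit 1078476930)) .nil))) (.cons (.br (nat_lit 1) (.cons (.rel (nat_lit 20971656)) (.cons (.rel (nat_lit 41943108)) .nil))) .nil))) .leaf)))) (nat_lit 15838339820720878) (.br (nat_lit 1) (.cons (.br (nat_lit 3) (.cons (.rel (nat_lit 285495312)) .nil)) .nil)) (.node (.node (.node (.node .leaf (nat_lit 15838339820721513) (.br (nat_lit 0) (.cons (.br (nat_lit 1) (.cons (.rel (nat_lit 37756929)) .nil)) .nil)) .leaf) (nat_lit 15838339820751649) (.br (nat_lit 1) (.cons (.br (nat_lit 0) (.cons (.rel (nat_lit 41943108)) (.cons (.rel (nat_lit 41943108)) .nil))) .nil)) (.node .leaf (nat_lit 15838339820751754) (.br (nat_lit 1) (.cons (.br (nat_lit 3)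 (.cons (.rel (nat_lit 302252352)) .nil)) .nil)) .leaf)) (nat_lit 15838339820928363) (.br (nat_lit 2) (.cons (.br (nat_lit 4) (.cons (.rel (nat_lit 1140883524)) .nil)) .nil)) (.node (.node .leaf (nat_lit 15838339820928506) (.br (nat_lit 0) (.cons (.br (nat_lit 2) (.cons (.rel (nat_lit 71304708)) (.cons (.rel (nat_lit 71323680)) .nil))) (.cons (.br (nat_lit 2) (.cons (.rel (nat_lit 71309568)) (.cons (.rel (nat_lit 71335956)) .nil))) .nil))) .leaf) (nat_lit 15838339820956403) (.br (nat_lit 0) (.cons (.br (nat_lit 1) (.cons (.rel (nat_lit 37753104)) .nil)) .nil)) (.node .leaf (nat_lit 15838339820956453) (.br (nat_lit 0) (.cons (.br (nat_lit 1) (.cons (.rel (nat_lit 20971656)) .nil)) .nil)) .leaf))) (nat_lit 15838339820956903) (.br (nat_lit 0) (.cons (.br (nat_lit 3) (.cons (.rel (nat_lit 273752064)) .nil)) .nil)) (.node (.node (.node .leaf (nat_lit 15838339821006225) (.br (nat_lit 5) (.cons (.br (nat_lit 0) (.cons (.rel (nat_lit 4299162900)) (.cons (.rel (nat_lit 4299440448)) (.cons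 (.rel (nat_lit 4299178002)) .nil)))) .nil)) .leaf) (nat_lit 15838339821674506) (.br (nat_lit 0) (.cons (.br (nat_lit 1) (.cons (.rel (nat_lit 21239808)) (.cons (.rel (nat_lit 37753104)) .nil))) .nil)) (.node .leaf (nat_lit 15838339821675877) (.br (nat_lit 0) (.cons (.br (nat_lit 1) (.cons (.rel (nat_lit 21234948)) .nil)) .nil)) .leaf)) (nat_lit 15838339821681895) (.br (nat_lit 3) (.cons (.br (nat_lit 4) (.cons (.rel (nat_lit 2684354565)) (.cons (.rel (nat_lit 1610613312)) .nil))) .nil)) (.node (.node .leaf (nat_lit 15838339821776906) (.br (nat_lit 0) (.cons (.br (nat_lit 3) (.cons (.rel (nat_lit 273752064)) (.cons (.rel (nat_lit 273679380)) .nil))) (.cons (.br (nat_lit 6) (.cons (.rel (nat_lit 17184065544)) (.cons (.rel (nat_lit 34368128004)) .nil))) .nil))) .leaf) (nat_lit 15838339821777198) (.br (nat_lit 0) (.cons (.br (nat_lit 1) (.cons (.rel (nat_lit 21234948)) (.cons (.rel (nat_lit 25231365)) .nil))) .nil)) .leaf)))) (nat_lit 15838339821777781) (.br (nat_lit 1) (.cons (.br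 (nat_lit 3) (.cons (.rel (nat_lit 285495312)) (.cons (.rel (nat_lit 285229185)) .nil))) .nil)) (.node (.node (.node (.node (.node .leaf (nat_lit 15838339821778198) (.br (nat_lit 1) (.cons (.br (nat_lit 4) (.cons (.rel (nat_lit 1090519080)) .nil)) .nil)) .leaf) (nat_lit 15838339821778277) (.br (nat_lit 1) (.cons (.br (nat_lit 2) (.cons (.rel (nat_lit 152043777)) .nil)) .nil)) (.node .leaf (nat_lit 15838339821778302) (.br (nat_lit 2) (.cons (.br (nat_lit 3) (.cons (.rel (nat_lit 403177536)) .nil)) .nil)) .leaf)) (nat_lit 15838339821787443) (.br (nat_lit 1) (.cons (.br (nat_lit 2) (.cons (.rel (nat_lit 167773200)) (.cons (.rel (nat_lit 83886090)) .nil))) .nil)) (.node (.node .leaf (nat_lit 15838339821787943) (.br (nat_lit 0) (.cons (.br (nat_lit 1) (.cons (.rel (nat_lit 27267216)) .nil)) .nil)) .leaf) (nat_lit 15838339821788443) (.br (nat_lit 0) (.cons (.br (nat_lit 1) (.cons (.rel (nat_lit 41943108)) .nil)) .nil)) (.node .leaf (nat_lit 15838339821794590) (.br (nat_lit 0) (.cons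 (.br (nat_lit 5) (.cons (.rel (nat_lit 4299166725)) .nil)) .nil)) .leaf))) (nat_lit 15838339821796639) (.br (nat_lit 0) (.cons (.br (nat_lit 5) (.cons (.rel (nat_lit 4299440448)) (.cons (.rel (nat_lit 4299162900)) (.cons (.rel (nat_lit 4299182592)) .nil)))) (.cons (.br (nat_lit 3) (.cons (.rel (nat_lit 273956928)) (.cons (.rel (nat_lit 272631936)) .nil))) .nil))) (.node (.node (.node .leaf (nat_lit 15838339821990148) (.br (nat_lit 2) (.cons (.br (nat_lit 5) (.cons (.rel (nat_lit 4362602496)) .nil)) .nil)) .leaf) (nat_lit 15838339821990638) (.br (nat_lit 1) (.cons (.br (nat_lit 2) (.cons (.rel (nat_lit 83886090)) (.cons (.rel (nat_lit 101716353)) .nil))) .nil)) (.node .leaf (nat_lit 15838339821990648) (.br (nat_lit 0) (.cons (.br (nat_lit 2) (.cons (.rel (nat_lit 72892416)) .nil)) .nil)) .leaf)) (nat_lit 15838339821991398) (.br (nat_lit 2) (.cons (.br (nat_lit 3) (.cons (.rel (nat_lit 671089665)) .nil)) .nil)) (.node (.node .leaf (nat_lit 15838339822002483) (.br (nat_lit 2) (.cons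 (.br (nat_lit 4) (.cons (.rel (nat_lit 1140871248)) .nil)) .nil)) .leaf) (nat_lit 15838339822003588) (.br (nat_lit 2) (.cons (.br (nat_lit 5) (.cons (.rel (nat_lit 4362092625)) .nil)) .nil)) .leaf))) (nat_lit 15838339822236953) (.br (nat_lit 0) (.cons (.br (nat_lit 1) (.cons (.rel (nat_lit 25166097)) .nil)) .nil)) (.node (.node (.node (.node .leaf (nat_lit 15838341916580715) (.br (nat_lit 1) (.cons (.br (nat_lit 2) (.cons (.rel (nat_lit 83888160)) .nil)) .nil)) .leaf) (nat_lit 15838341916888345) (.br (nat_lit 6) (.cons (.br (nat_lit 1) (.cons (.rel (nat_lit 34393358592)) (.cons (.rel (nat_lit 17196647682)) .nil))) .nil)) (.node .leaf (nat_lit 15838341916898090) (.br (nat_lit 2) (.cons (.br (nat_lit 5) (.cons (.rel (nat_lit 8724415488)) .nil)) .nil)) .leaf)) (nat_lit 15838341917595658) (.br (nat_lit 3) (.cons (.br (nat_lit 4) (.cons (.rel (nat_lit 2684354565)) .nil)) .nil)) (.node (.node .leaf (nat_lit 15838341917873003) (.br (nat_lit 0) (.cons (.br (nat_lit 5) (.cons (.rel (nat_lit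 4299161865)) .nil)) .nil)) .leaf) (nat_lit 15838341917873013) (.br (nat_lit 1) (.cons (.br (nat_lit 4) (.cons (.rel (nat_lit 1090521105)) .nil)) .nil)) (.node .leaf (nat_lit 15838341918826506) (.br (nat_lit 0) (.cons (.br (nat_lit 1) (.cons (.rel (nat_lit 41943108)) .nil)) .nil)) .leaf))) (nat_lit 15838341918827881) (.br (nat_lit 0) (.cons (.br (nat_lit 1) (.cons (.rel (nat_lit 21239808)) .nil)) .nil)) (.node (.node (.node .leaf (nat_lit 15838341918843140) (.br (nat_lit 0) (.cons (.br (nat_lit 1) (.cons (.rel (nat_lit 41943108)) .nil)) .nil)) .leaf) (nat_lit 15838341918928906) (.br (nat_lit 4) (.cons (.br (nat_lit 6) (.cons (.rel (nat_lit 18254168064)) .nil)) .nil)) (.node .leaf (nat_lit 15838341918930198) (.br (nat_lit 0) (.cons (.br (nat_lit 1) (.cons (.rel (nat_lit 41943108)) .nil)) .nil)) .leaf)) (nat_lit 15838341918948139) (.br (nat_lit 1) (.cons (.br (nat_lit 3) (.cons (.rel (nat_lit 553649160)) .nil)) .nil)) (.node (.node .leaf (nat_lit 15838341919154933) (.br (nat_lit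 3) (.cons (.br (nat_lit 6) (.cons (.rel (nat_lit 34896629760)) .nil)) .nil)) .leaf) (nat_lit 15838430640221690) (.br (nat_lit 0) (.cons (.br (nat_lit 1) (.cons (.rel (nat_lit 41943108)) .nil)) .nil)) .leaf))))))

/-- refutations 81 -/
def e81 : EX := (.node (.node (.node (.node (.node (.node (.node (.node .leaf (nat_lit 15838551002329098) (.br (nat_lit 1) (.cons (.br (nat_lit 3) (.cons (.rel (nat_lit 301994496)) (.cons (.br (nat_lit 2) (.cons (.rel (nat_lit 335544345)) (.cons (.rel (nat_lit 167772165)) (.cons (.rel (nat_lit 335546370)) .nil)))) .nil))) (.cons (.br (nat_lit 3) (.cons (.rel (nat_lit 285229185)) (.cons (.rel (nat_lit 285540609)) .nil))) .nil))) .leaf) (nat_lit 15838551002329348) (.br (nat_lit 2) (.cons (.br (nat_lit 0) (.cons (.rel (nat_lit 71304708)) (.cons (.rel (nat_lit 142610436)) .nil))) .nil)) .leaf) (nat_lit 15838551002330013) (.br (nat_lit 1) (.cons (.br (nat_lit 5) (.cons (.rel (nat_lit 4311765009)) .nil)) .nil)) (.node .leaf (nat_lit 15838551002380298)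 (.br (nat_lit 5) (.cons (.br (nat_lit 0) (.cons (.rel (nat_lit 4299166725)) (.cons (.rel (nat_lit 4299161865)) .nil))) .nil)) .leaf)) (nat_lit 15838551002380319) (.br (nat_lit 3) (.cons (.br (nat_lit 2) (.cons (.rel (nat_lit 335546370)) (.cons (.rel (nat_lit 335544345)) .nil))) .nil)) (.node (.node .leaf (nat_lit 15838551002380915) (.br (nat_lit 2) (.cons (.br (nat_lit 4) (.cons (.rel (nat_lit 2214739968)) .nil)) .nil)) .leaf) (nat_lit 15838551002381538) (.br (nat_lit 2) (.cons (.br (nat_lit 3) (.cons (.rel (nat_lit 403702032)) .nil)) .nil)) (.node .leaf (nat_lit 15838551002381598) (.br (nat_lit 0) (.cons (.br (nat_lit 2) (.cons (.rel (nat_lit 71319810)) .nil)) .nil)) .leaf))) (nat_lit 15838551002381848) (.br (nat_lit 6) (.cons (.br (nat_lit 0) (.cons (.rel (nat_lit 17184068100)) (.cons (.rel (nat_lit 17184068100)) .nil))) .nil)) (.node (.node (.node (.node .leaf (nat_lit 15838551002420487) (.br (nat_lit 0) (.cons (.br (nat_lit 1) (.cons (.rel (nat_lit 21299217)) .nil)) .nil))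 .leaf) (nat_lit 15838551002420507) (.br (nat_lit 2) (.cons (.br (nat_lit 4) (.cons (.rel (nat_lit 1141916049)) .nil)) .nil)) .leaf) (nat_lit 15838551002420625) (.br (nat_lit 2) (.cons (.br (nat_lit 5) (.cons (.rel (nat_lit 4362092625)) .nil)) .nil)) (.node .leaf (nat_lit 15838551002576349) (.br (nat_lit 3) (.cons (.br (nat_lit 4) (.cons (.rel (nat_lit 2684355600)) .nil)) .nil)) .leaf)) (nat_lit 15838551002841098) (.br (nat_lit 1) (.cons (.br (nat_lit 0) (.cons (.rel (nat_lit 37756929)) (.cons (.rel (nat_lit 21239808)) (.cons (.rel (nat_lit 25169922)) .nil)))) (.cons (.br (nat_lit 2) (.cons (.rel (nat_lit 100671552)) (.cons (.rel (nat_lit 151527744)) .nil))) .nil))) (.node (.node .leaf (nat_lit 15838551002841714) (.br (nat_lit 0) (.cons (.br (nat_lit 2) (.cons (.rel (nat_lit 142610436)) .nil)) .nil)) .leaf) (nat_lit 15838551002841888) (.br (nat_lit 1) (.cons (.br (nat_lit 5) (.cons (.rel (nat_lit 4311747072)) .nil)) .nil)) (.node .leaf (nat_lit 15838551002882808) (.br (nat_lit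 6) (.cons (.br (nat_lit 0) (.cons (.rel (nat_lit 17184065544)) (.cons (.rel (nat_lit 17184068100)) .nil))) .nil)) .leaf)))) (nat_lit 15838551002883429) (.br (nat_lit 3) (.cons (.br (nat_lit 5) (.cons (.rel (nat_lit 4563419394)) .nil)) .nil)) (.node (.node (.node (.node (.node .leaf (nat_lit 15838551002883454) (.br (nat_lit 3) (.cons (.br (nat_lit 0) (.cons (.rel (nat_lit 272631936)) (.cons (.rel (nat_lit 272897028)) .nil))) .nil)) .leaf) (nat_lit 15838551002901237) (.br (nat_lit 0) (.cons (.br (nat_lit 5) (.cons (.rel (nat_lit 4299162900)) .nil)) .nil)) .leaf) (nat_lit 15838551002935306) (.br (nat_lit 2) (.cons (.br (nat_lit 4) (.cons (.rel (nat_lit 1141440528)) (.cons (.rel (nat_lit 1140871248)) .nil))) .nil)) (.node .leaf (nat_lit 15838551002935598) (.br (nat_lit 3) (.cons (.br (nat_lit 4) (.cons (.rel (nat_lit 2684355600)) (.cons (.rel (nat_lit 2684354565)) .nil))) .nil)) .leaf)) (nat_lit 15838551002936181) (.br (nat_lit 3) (.cons (.br (nat_lit 4) (.cons (.rel (nat_lit 1342455873))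 .nil)) .nil)) (.node (.node .leaf (nat_lit 15838551002936681) (.br (nat_lit 3) (.cons (.br (nat_lit 5) (.cons (.rel (nat_lit 8859419136)) (.cons (.rel (nat_lit 9126809604)) (.cons (.rel (nat_lit 4563419394)) .nil)))) .nil)) .leaf) (nat_lit 15838551002942245) (.br (nat_lit 1) (.cons (.br (nat_lit 3) (.cons (.rel (nat_lit 285229185)) (.cons (.rel (nat_lit 285540609)) .nil))) .nil)) (.node .leaf (nat_lit 15838551002945843) (.br (nat_lit 4) (.cons (.br (nat_lit 5) (.cons (.rel (nat_lit 5368715328)) .nil)) .nil)) .leaf))) (nat_lit 15838551002946343) (.br (nat_lit 5) (.cons (.br (nat_lit 6) (.cons (.rel (nat_lit 21475365888)) (.cons (.rel (nat_lit 21474838080)) .nil))) .nil)) (.node (.node (.node .leaf (nat_lit 15838551002946961) (.br (nat_lit 1) (.cons (.br (nat_lit 2) (.cons (.rel (nat_lit 151257600)) .nil)) .nil)) .leaf) (nat_lit 15838551003599474) (.br (nat_lit 4) (.cons (.br (nat_lit 2) (.cons (.rel (nat_lit 2214739968)) (.cons (.rel (nat_lit 1140916545)) .nil))) .nil)) (.node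 .leaf (nat_lit 15838551003599654) (.br (nat_lit 1) (.cons (.br (nat_lit 2) (.cons (.rel (nat_lit 170131716)) .nil)) .nil)) .leaf)) (nat_lit 15838551003600098) (.br (nat_lit 1) (.cons (.br (nat_lit 2) (.cons (.rel (nat_lit 167773200)) .nil)) .nil)) (.node (.node .leaf (nat_lit 15838551003650058) (.br (nat_lit 1) (.cons (.br (nat_lit 3) (.cons (.rel (nat_lit 285278352)) .nil)) .nil)) .leaf) (nat_lit 15838551003927189) (.br (nat_lit 1) (.cons (.br (nat_lit 2) (.cons (.rel (nat_lit 100671552)) .nil)) .nil)) (.node .leaf (nat_lit 15838551004134633) (.br (nat_lit 1) (.cons (.br (nat_lit 2) (.cons (.rel (nat_lit 150999168)) .nil)) .nil)) .leaf))))) (nat_lit 15838551004134683) (.br (nat_lit 2) (.cons (.br (nat_lit 6) (.cons (.rel (nat_lit 17248290048)) .nil)) .nil)) (.node (.node (.node (.node (.node (.node .leaf (nat_lit 15838551004134906) (.br (nat_lit 5) (.cons (.br (nat_lit 4) (.cons (.rel (nat_lit 9663742992)) (.cons (.rel (nat_lit 9663680514)) .nil))) .nil)) .leaf) (nat_lit 15838551004161400)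 (.br (nat_lit 5) (.cons (.br (nat_lit 4) (.cons (.rel (nat_lit 5369233416)) (.cons (.rel (nat_lit 5369233416)) (.cons (.rel (nat_lit 5368710468)) .nil)))) .nil)) .leaf) (nat_lit 15838551004162235) (.br (nat_lit 2) (.cons (.br (nat_lit 3) (.cons (.rel (nat_lit 335546370)) .nil)) .nil)) (.node .leaf (nat_lit 15838551004162308) (.br (nat_lit 5) (.cons (.br (nat_lit 0) (.cons (.rel (nat_lit 8598405120)) (.cons (.rel (nat_lit 4299161865)) .nil))) .nil)) .leaf)) (nat_lit 15838551004162699) (.br (nat_lit 0) (.cons (.br (nat_lit 1) (.cons (.rel (nat_lit 21239808)) .nil)) .nil)) (.node (.node .leaf (nat_lit 15838551004162855) (.br (nat_lit 0) (.cons (.br (nat_lit 2) (.cons (.rel (nat_lit 72417600)) .nil)) .nil)) .leaf) (nat_lit 15838551004163298) (.br (nat_lit 3) (.cons (.br (nat_lit 5) (.cons (.rel (nat_lit 4563404292)) .nil)) .nil)) (.node .leaf (nat_lit 15838551004163303) (.br (nat_lit 3) (.cons (.br (nat_lit 0) (.cons (.rel (nat_lit 272631936)) (.cons (.rel (nat_lit 272897028)) .nil)))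 .nil)) .leaf))) (nat_lit 15838551004163353) (.br (nat_lit 0) (.cons (.br (nat_lit 5) (.cons (.rel (nat_lit 8598405120)) .nil)) .nil)) (.node (.node (.node (.node .leaf (nat_lit 15838551004163549) (.br (nat_lit 1) (.cons (.br (nat_lit 3) (.cons (.rel (nat_lit 285229185)) .nil)) .nil)) .leaf) (nat_lit 15838551004163578) (.br (nat_lit 2) (.cons (.br (nat_lit 5) (.cons (.rel (nat_lit 4362092625)) (.cons (.rel (nat_lit 4362081348)) .nil))) (.cons (.br (nat_lit 5) (.cons (.rel (nat_lit 4362602496)) (.cons (.rel (nat_lit 4362076488)) .nil))) .nil))) .leaf) (nat_lit 15838551004898205) (.br (nat_lit 1) (.cons (.br (nat_lit 3) (.cons (.br (nat_lit 5) (.cons (.rel (nat_lit 4563468561)) (.cons (.rel (nat_lit 4563419394)) .nil))) (.cons (.rel (nat_lit 303038529)) .nil))) (.cons (.br (nat_lit 3) (.cons (.rel (nat_lit 286265352)) (.cons (.rel (nat_lit 285229185)) .nil))) .nil))) (.node .leaf (nat_lit 15838551004898665) (.br (nat_lit 0) (.cons (.br (nat_lit 3) (.cons (.rel (nat_lit 272631936))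 .nil)) .nil)) .leaf)) (nat_lit 15838551004983306) (.br (nat_lit 2) (.cons (.br (nat_lit 3) (.cons (.rel (nat_lit 335545380)) (.cons (.rel (nat_lit 335546370)) .nil))) .nil)) (.node (.node .leaf (nat_lit 15838551004984598) (.br (nat_lit 5) (.cons (.br (nat_lit 1) (.cons (.rel (nat_lit 4311747072)) (.cons (.rel (nat_lit 4311748872)) .nil))) .nil)) .leaf) (nat_lit 15838551004984681) (.br (nat_lit 3) (.cons (.br (nat_lit 5) (.cons (.rel (nat_lit 4832362497)) .nil)) .nil)) (.node .leaf (nat_lit 15838551004984702) (.br (nat_lit 0) (.cons (.br (nat_lit 3) (.cons (.rel (nat_lit 272897028)) .nil)) .nil)) .leaf)))) (nat_lit 15838551004989450) (.br (nat_lit 0) (.cons (.br (nat_lit 3) (.cons (.rel (nat_lit 272892168)) (.cons (.rel (nat_lit 541327425)) .nil))) .nil)) (.node (.node (.node (.node (.node .leaf (nat_lit 15838551004990315) (.br (nat_lit 2) (.cons (.br (nat_lit 3) (.cons (.rel (nat_lit 335544345)) .nil)) .nil)) .leaf) (nat_lit 15838551004993546) (.br (nat_lit 2) (.cons (.br (nat_lit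 5) (.cons (.rel (nat_lit 4362081348)) .nil)) .nil)) .leaf) (nat_lit 15838551004994843) (.br (nat_lit 2) (.cons (.br (nat_lit 5) (.cons (.rel (nat_lit 4363452672)) (.cons (.rel (nat_lit 4362076488)) .nil))) (.cons (.br (nat_lit 5) (.cons (.rel (nat_lit 8724415488)) (.cons (.rel (nat_lit 4362081348)) .nil))) .nil))) (.node .leaf (nat_lit 15838551005000605) (.br (nat_lit 1) (.cons (.br (nat_lit 3) (.cons (.rel (nat_lit 301989906)) .nil)) .nil)) .leaf)) (nat_lit 15838551005000990) (.br (nat_lit 1) (.cons (.br (nat_lit 5) (.cons (.rel (nat_lit 4311761184)) .nil)) .nil)) (.node (.node .leaf (nat_lit 15838551005001908) (.br (nat_lit 1) (.cons (.br (nat_lit 4) (.cons (.rel (nat_lit 1090535937)) .nil)) .nil)) .leaf) (nat_lit 15838551005002978) (.br (nat_lit 3) (.cons (.br (nat_lit 5) (.cons (.rel (nat_lit 4563485697)) .nil)) .nil)) (.node .leaf (nat_lit 15838551005003039) (.br (nat_lit 6) (.cons (.br (nat_lit 3) (.cons (.rel (nat_lit 17448323073)) (.cons (.rel (nat_lit 17448372240))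 .nil))) .nil)) .leaf))) (nat_lit 15838552050956548) (.br (nat_lit 1) (.cons (.br (nat_lit 3) (.cons (.rel (nat_lit 301989906)) .nil)) .nil)) (.node (.node (.node .leaf (nat_lit 15838554094852106) (.br (nat_lit 0) (.cons (.br (nat_lit 3) (.cons (.rel (nat_lit 545260608)) .nil)) .nil)) .leaf) (nat_lit 15838554094853481) (.br (nat_lit 2) (.cons (.br (nat_lit 3) (.cons (.rel (nat_lit 335545380)) .nil)) .nil)) (.node .leaf (nat_lit 15838554672345098) (.br (nat_lit 5) (.cons (.br (nat_lit 0) (.cons (.rel (nat_lit 4299161865)) (.cons (.rel (nat_lit 4299325440)) .nil))) .nil)) .leaf)) (nat_lit 15838554672345348) (.br (nat_lit 2) (.cons (.br (nat_lit 5) (.cons (.rel (nat_lit 4363141248)) .nil)) .nil)) (.node (.node .leaf (nat_lit 15838554672346013) (.br (nat_lit 1) (.cons (.br (nat_lit 4) (.cons (.rel (nat_lit 1090519080)) .nil)) .nil)) .leaf) (nat_lit 15838554672397038) (.br (nat_lit 0) (.cons (.br (nat_lit 6) (.cons (.rel (nat_lit 17184065544)) .nil)) .nil)) (.node .leaf (nat_lit 15838554672397694)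 (.br (nat_lit 5) (.cons (.br (nat_lit 6) (.cons (.rel (nat_lit 21474838080)) (.cons (.rel (nat_lit 38654706945)) .nil))) .nil)) .leaf)))))) (nat_lit 15838554672435460) (.br (nat_lit 4) (.cons (.br (nat_lit 6) (.cons (.rel (nat_lit 35433611280)) .nil)) .nil)) (.node (.node (.node (.node (.node (.node (.node .leaf (nat_lit 15838554672436625) (.br (nat_lit 5) (.cons (.br (nat_lit 0) (.cons (.rel (nat_lit 8598405120)) (.cons (.rel (nat_lit 4299162900)) (.cons (.rel (nat_lit 4299235584)) .nil)))) (.cons (.br (nat_lit 6) (.cons (.rel (nat_lit 21474838080)) (.cons (.rel (nat_lit 42950722836)) .nil))) .nil))) .leaf) (nat_lit 15838554672592349) (.br (nat_lit 5) (.cons (.br (nat_lit 3) (.cons (.rel (nat_lit 8859419136)) (.cons (.rel (nat_lit 4563404292)) .nil))) .nil)) .leaf) (nat_lit 15838554672652298) (.br (nat_lit 5) (.cons (.br (nat_lit 0) (.cons (.rel (nat_lit 4299162900)) (.cons (.rel (nat_lit 4299167760)) .nil))) .nil)) (.node .leaf (nat_lit 15838554672653173) (.br (nat_lit 5)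 (.cons (.br (nat_lit 6) (.cons (.rel (nat_lit 21474869328)) .nil)) .nil)) .leaf)) (nat_lit 15838554672857098) (.br (nat_lit 0) (.cons (.br (nat_lit 2) (.cons (.rel (nat_lit 71372802)) (.cons (.rel (nat_lit 71304708)) .nil))) (.cons (.br (nat_lit 2) (.cons (.rel (nat_lit 71323680)) (.cons (.rel (nat_lit 71309568)) .nil))) .nil))) (.node (.node .leaf (nat_lit 15838554672858598) (.br (nat_lit 3) (.cons (.br (nat_lit 4) (.cons (.rel (nat_lit 1342194192)) .nil)) .nil)) .leaf) (nat_lit 15838554672899454) (.br (nat_lit 0) (.cons (.br (nat_lit 3) (.cons (.rel (nat_lit 272631936)) .nil)) .nil)) (.node .leaf (nat_lit 15838554672917265) (.br (nat_lit 0) (.cons (.br (nat_lit 2) (.cons (.rel (nat_lit 71304708)) (.cons (.rel (nat_lit 71309568)) .nil))) (.cons (.br (nat_lit 2) (.cons (.rel (nat_lit 71304708)) (.cons (.rel (nat_lit 71305746)) .nil))) .nil))) .leaf))) (nat_lit 15838554672957450) (.br (nat_lit 5) (.cons (.br (nat_lit 0) (.cons (.rel (nat_lit 8594653248)) (.cons (.rel (nat_lit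 4299162900)) .nil))) .nil)) (.node (.node (.node (.node .leaf (nat_lit 15838554672958245) (.br (nat_lit 3) (.cons (.br (nat_lit 0) (.cons (.rel (nat_lit 545260608)) (.cons (.rel (nat_lit 541069569)) (.cons (.rel (nat_lit 541065744)) .nil)))) (.cons (.br (nat_lit 0) (.cons (.rel (nat_lit 273752064)) (.cons (.rel (nat_lit 272892168)) (.cons (.rel (nat_lit 272897028)) .nil)))) .nil))) .leaf) (nat_lit 15838554672961796) (.br (nat_lit 2) (.cons (.br (nat_lit 5) (.cons (.rel (nat_lit 4363452672)) .nil)) .nil)) .leaf) (nat_lit 15838554672961843) (.br (nat_lit 5) (.cons (.br (nat_lit 0) (.cons (.rel (nat_lit 4299166725)) (.cons (.rel (nat_lit 4299162900)) .nil))) .nil)) (.node .leaf (nat_lit 15838554672962343) (.br (nat_lit 3) (.cons (.br (nat_lit 4) (.cons (.rel (nat_lit 2684354565)) .nil)) .nil)) .leaf)) (nat_lit 15838554672962936) (.br (nat_lit 6) (.cons (.br (nat_lit 0) (.cons (.rel (nat_lit 17184063510)) (.cons (.rel (nat_lit 17184072960)) .nil))) .nil)) (.node (.node .leaf (nat_lit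 15838554672962961) (.br (nat_lit 0) (.cons (.br (nat_lit 4) (.cons (.rel (nat_lit 2152006656)) .nil)) .nil)) .leaf) (nat_lit 15838554672968490) (.br (nat_lit 5) (.cons (.br (nat_lit 1) (.cons (.rel (nat_lit 4311748872)) (.cons (.rel (nat_lit 4311761184)) .nil))) .nil)) (.node .leaf (nat_lit 15838554673615474) (.br (nat_lit 4) (.cons (.br (nat_lit 1) (.cons (.rel (nat_lit 1090520070)) (.cons (.rel (nat_lit 1090535937)) .nil))) .nil)) .leaf)))) (nat_lit 15838554674149633) (.br (nat_lit 4) (.cons (.br (nat_lit 0) (.cons (.rel (nat_lit 1077938688)) (.cons (.rel (nat_lit 2151940353)) .nil))) .nil)) (.node (.node (.node (.node (.node .leaf (nat_lit 15838554674150633) (.br (nat_lit 2) (.cons (.br (nat_lit 4) (.cons (.rel (nat_lit 1140871248)) .nil)) .nil)) .leaf) (nat_lit 15838554674150761) (.br (nat_lit 0) (.cons (.br (nat_lit 5) (.cons (.rel (nat_lit 4299178002)) .nil)) .nil)) .leaf) (nat_lit 15838554674177285) (.br (nat_lit 0) (.cons (.br (nat_lit 3) (.cons (.rel (nat_lit 272631936))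 .nil)) .nil)) (.node .leaf (nat_lit 15838554674177400) (.br (nat_lit 1) (.cons (.br (nat_lit 5) (.cons (.rel (nat_lit 4312813632)) .nil)) .nil)) .leaf)) (nat_lit 15838554674178305) (.br (nat_lit 0) (.cons (.br (nat_lit 3) (.cons (.rel (nat_lit 273679380)) .nil)) .nil)) (.node (.node .leaf (nat_lit 15838554674178853) (.br (nat_lit 0) (.cons (.br (nat_lit 2) (.cons (.rel (nat_lit 71309568)) (.cons (.rel (nat_lit 71309568)) .nil))) .nil)) .leaf) (nat_lit 15838554674178859) (.br (nat_lit 0) (.cons (.br (nat_lit 1) (.cons (.rel (nat_lit 41943108)) .nil)) .nil)) (.node .leaf (nat_lit 15838554674179303) (.br (nat_lit 0) (.cons (.br (nat_lit 5) (.cons (.rel (nat_lit 4299161865)) .nil)) .nil)) .leaf))) (nat_lit 15838554674179350) (.br (nat_lit 0) (.cons (.br (nat_lit 5) (.cons (.rel (nat_lit 4299161865)) .nil)) .nil)) (.node (.node (.node .leaf (nat_lit 15838554674179433) (.br (nat_lit 0) (.cons (.br (nat_lit 4) (.cons (.rel (nat_lit 1077940488)) .nil)) .nil)) .leaf) (nat_lit 15838554674896906)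 (.br (nat_lit 0) (.cons (.br (nat_lit 3) (.cons (.rel (nat_lit 541069569)) .nil)) .nil)) (.node .leaf (nat_lit 15838554674897148) (.br (nat_lit 0) (.cons (.br (nat_lit 3) (.cons (.rel (nat_lit 545260608)) .nil)) .nil)) .leaf)) (nat_lit 15838554674914205) (.br (nat_lit 1) (.cons (.br (nat_lit 5) (.cons (.rel (nat_lit 8623490304)) .nil)) .nil)) (.node (.node .leaf (nat_lit 15838554674914565) (.br (nat_lit 0) (.cons (.br (nat_lit 5) (.cons (.rel (nat_lit 4299167760)) .nil)) .nil)) .leaf) (nat_lit 15838554674999306) (.br (nat_lit 0) (.cons (.br (nat_lit 5) (.cons (.rel (nat_lit 8598405120)) .nil)) .nil)) (.node .leaf (nat_lit 15838554674999352) (.br (nat_lit 5) (.cons (.br (nat_lit 6) (.cons (.rel (nat_lit 38654709780)) .nil)) .nil)) .leaf))))) (nat_lit 15838554675000677) (.br (nat_lit 0) (.cons (.br (nat_lit 2) (.cons (.rel (nat_lit 71309568)) .nil)) .nil)) (.node (.node (.node (.node (.node (.node .leaf (nat_lit 15838554675000681) (.br (nat_lit 3) (.cons (.br (nat_lit 5) (.cons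 (.rel (nat_lit 9126809604)) .nil)) .nil)) .leaf) (nat_lit 15838554675006745) (.br (nat_lit 6) (.cons (.br (nat_lit 0) (.cons (.rel (nat_lit 17184068100)) (.cons (.rel (nat_lit 17184065544)) (.cons (.rel (nat_lit 17184065544)) (.cons (.rel (nat_lit 17184072960)) (.cons (.br (nat_lit 3) (.cons (.rel (nat_lit 272897028)) (.cons (.rel (nat_lit 272892168)) (.cons (.rel (nat_lit 17448308772)) (.cons (.rel (nat_lit 34628173956)) (.cons (.rel (nat_lit 541135872)) .nil)))))) .nil)))))) (.cons (.br (nat_lit 0) (.cons (.rel (nat_lit 17188274241)) (.cons (.rel (nat_lit 34364195856)) (.cons (.rel (nat_lit 34368128004)) (.cons (.rel (nat_lit 34364194821)) (.cons (.rel (nat_lit 17184064545)) .nil)))))) (.cons (.br (nat_lit 0) (.cons (.rel (nat_lit 17184149505)) (.cons (.rel (nat_lit 34368128004)) (.cons (.rel (nat_lit 17184064545)) (.cons (.rel (nat_lit 17184068100)) (.cons (.rel (nat_lit 17184072960)) .nil)))))) (.cons (.br (nat_lit 5) (.cons (.rel (nat_lit 21474838080)) (.cons (.rel (nat_lit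 21476148240)) (.cons (.rel (nat_lit 21476148240)) (.cons (.rel (nat_lit 25769836548)) (.cons (.rel (nat_lit 25769935872)) .nil)))))) .nil))))) .leaf) (nat_lit 15838554675006825) (.br (nat_lit 0) (.cons (.br (nat_lit 3) (.cons (.rel (nat_lit 541327425)) .nil)) .nil)) (.node .leaf (nat_lit 15838554675010843) (.br (nat_lit 5) (.cons (.br (nat_lit 6) (.cons (.rel (nat_lit 38654773248)) .nil)) .nil)) .leaf)) (nat_lit 15838554675017738) (.br (nat_lit 0) (.cons (.br (nat_lit 5) (.cons (.rel (nat_lit 4299162900)) .nil)) .nil)) (.node (.node .leaf (nat_lit 15838554675019153) (.br (nat_lit 0) (.cons (.br (nat_lit 6) (.cons (.rel (nat_lit 34368128004)) .nil)) .nil)) .leaf) (nat_lit 15838554675210866) (.br (nat_lit 0) (.cons (.br (nat_lit 1) (.cons (.rel (nat_lit 41943108)) .nil)) .nil)) (.node .leaf (nat_lit 15838554675211741) (.br (nat_lit 0) (.cons (.br (nat_lit 1) (.cons (.rel (nat_lit 41943108)) .nil)) .nil)) .leaf))) (nat_lit 15838554675211745) (.br (nat_lit 0) (.cons (.br (nat_lit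 1) (.cons (.rel (nat_lit 21234948)) .nil)) .nil)) (.node (.node (.node (.node .leaf (nat_lit 15838554675212548) (.br (nat_lit 0) (.cons (.br (nat_lit 5) (.cons (.rel (nat_lit 4303618176)) .nil)) .nil)) .leaf) (nat_lit 15838554675213048) (.br (nat_lit 0) (.cons (.br (nat_lit 4) (.cons (.rel (nat_lit 2155873536)) .nil)) .nil)) .leaf) (nat_lit 15838554675213098) (.br (nat_lit 6) (.cons (.br (nat_lit 0) (.cons (.rel (nat_lit 34366554372)) (.cons (.rel (nat_lit 17184065544)) .nil))) .nil)) (.node .leaf (nat_lit 15838554675213793) (.br (nat_lit 5) (.cons (.br (nat_lit 2) (.cons (.rel (nat_lit 4362081348)) (.cons (.rel (nat_lit 4362081348)) .nil))) .nil)) .leaf)) (nat_lit 15838554675224833) (.br (nat_lit 4) (.cons (.br (nat_lit 0) (.cons (.rel (nat_lit 2155873536)) (.cons (.rel (nat_lit 1077946386)) .nil))) .nil)) (.node (.node .leaf (nat_lit 15838554675226081) (.br (nat_lit 1) (.cons (.br (nat_lit 5) (.cons (.rel (nat_lit 4311747072)) .nil)) .nil)) .leaf) (nat_lit 15838556267501578)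 (.br (nat_lit 5) (.cons (.br (nat_lit 2) (.cons (.rel (nat_lit 4362141792)) (.cons (.rel (nat_lit 4362602496)) .nil))) .nil)) (.node .leaf (nat_lit 15838556354868585) (.br (nat_lit 0) (.cons (.br (nat_lit 3) (.cons (.rel (nat_lit 545260608)) .nil)) .nil)) .leaf)))) (nat_lit 15838556770104681) (.br (nat_lit 0) (.cons (.br (nat_lit 3) (.cons (.rel (nat_lit 541082880)) .nil)) .nil)) (.node (.node (.node (.node (.node .leaf (nat_lit 15838556770110245) (.br (nat_lit 3) (.cons (.br (nat_lit 2) (.cons (.rel (nat_lit 335544345)) (.cons (.rel (nat_lit 335546370)) .nil))) .nil)) .leaf) (nat_lit 15838556770113843) (.br (nat_lit 2) (.cons (.br (nat_lit 5) (.cons (.rel (nat_lit 4362602496)) (.cons (.rel (nat_lit 4362141792)) .nil))) .nil)) .leaf) (nat_lit 15838556770114343) (.br (nat_lit 2) (.cons (.br (nat_lit 3) (.cons (.rel (nat_lit 335546370)) .nil)) .nil)) (.node .leaf (nat_lit 15838556770767474) (.br (nat_lit 2) (.cons (.br (nat_lit 3) (.cons (.rel (nat_lit 671089665)) .nil)) .nil))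 .leaf)) (nat_lit 15838556771095413) (.br (nat_lit 1) (.cons (.br (nat_lit 3) (.cons (.rel (nat_lit 285540609)) .nil)) .nil)) (.node (.node .leaf (nat_lit 15838556771330353) (.br (nat_lit 0) (.cons (.br (nat_lit 3) (.cons (.rel (nat_lit 541069569)) .nil)) .nil)) .leaf) (nat_lit 15838556772157450) (.br (nat_lit 1) (.cons (.br (nat_lit 3) (.cons (.rel (nat_lit 285229185)) .nil)) .nil)) (.node .leaf (nat_lit 15838556772365194) (.br (nat_lit 2) (.cons (.br (nat_lit 3) (.cons (.rel (nat_lit 335546370)) .nil)) .nil)) .leaf))) (nat_lit 15838556923147542) (.br (nat_lit 0) (.cons (.br (nat_lit 2) (.cons (.rel (nat_lit 72434784)) .nil)) .nil)) (.node (.node (.node .leaf (nat_lit 15838557425641659) (.br (nat_lit 3) (.cons (.br (nat_lit 5) (.cons (.rel (nat_lit 4563407130)) .nil)) .nil)) .leaf) (nat_lit 15838769526121354) (.br (nat_lit 1) (.cons (.br (nat_lit 3) (.cons (.rel (nat_lit 285495312)) .nil)) .nil)) (.node .leaf (nat_lit 15838769526179850) (.br (nat_lit 0) (.cons (.br (nat_lit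 2) (.cons (.rel (nat_lit 138412161)) .nil)) .nil)) .leaf)) (nat_lit 15838769527401228) (.br (nat_lit 0) (.cons (.br (nat_lit 5) (.cons (.rel (nat_lit 4299162900)) .nil)) .nil)) (.node (.node .leaf (nat_lit 15838769528119306) (.br (nat_lit 0) (.cons (.br (nat_lit 4) (.cons (.rel (nat_lit 1079574528)) (.cons (.rel (nat_lit 1077938688)) .nil))) .nil)) .leaf) (nat_lit 15838769528233193) (.br (nat_lit 0) (.cons (.br (nat_lit 1) (.cons (.rel (nat_lit 37753104)) .nil)) .nil)) (.node .leaf (nat_lit 15838771624553753) (.br (nat_lit 0) (.cons (.br (nat_lit 1) (.cons (.rel (nat_lit 21234948)) .nil)) .nil)) .leaf)))))))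

/-- refutations 82 -/
def e82 : EX := (.node (.node (.node (.node .leaf (nat_lit 15839496861422318) (.br (nat_lit 1) (.cons (.br (nat_lit 3) (.cons (.rel (nat_lit 553649160)) .nil)) .nil)) .leaf) (nat_lit 15840483632762890) (.br (nat_lit 4) (.cons (.br (nat_lit 5) (.cons (.rel (nat_lit 5368715328)) .nil)) .nil)) .leaf) (nat_lit 15840532454461450) (.br (nat_lit 0) (.cons (.br (nat_lit 2) (.cons (.rel (nat_lit 71304708)) .nil)) .nil)) (.node (.node .leaf (nat_lit 15840785477643625) (.br (nat_lit 3) (.cons (.br (nat_lit 5) (.cons (.rel (nat_lit 4833935616)) .nil)) .nil)) .leaf) (nat_lit 15840785477676538) (.br (nat_lit 1) (.cons (.br (nat_lit 2) (.cons (.rel (nat_lit 167772165)) .nil)) .nil)) .leaf)) (nat_lit 15840787037957626) (.br (nat_lit 1) (.cons (.br (nat_lit 2) (.cons (.rel (nat_lit 83959809)) .nil)) .nil)) (.node (.node (.node .leaf (nat_lit 15843707481058565) (.br (nat_lit 1) (.cons (.br (nat_lit 2) (.cons (.rel (nat_lit 101974017)) .nil)) .nil)) .leaf) (nat_lit 15843710730260490)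 (.br (nat_lit 1) (.cons (.br (nat_lit 2) (.cons (.rel (nat_lit 83888160)) .nil)) .nil)) .leaf) (nat_lit 15843748961341450) (.br (nat_lit 1) (.cons (.br (nat_lit 4) (.cons (.rel (nat_lit 1090588929)) .nil)) .nil)) (.node (.node .leaf (nat_lit 15844008276012258) (.br (nat_lit 5) (.cons (.br (nat_lit 6) (.cons (.rel (nat_lit 21475365888)) (.cons (.rel (nat_lit 21475361028)) .nil))) .nil)) .leaf) (nat_lit 15844008276012538) (.br (nat_lit 1) (.cons (.br (nat_lit 2) (.cons (.rel (nat_lit 83902992)) .nil)) .nil)) .leaf)))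

/-- refutations 83 -/
def e83 : EX := (.node (.node (.node (.node (.node (.node (.node .leaf (nat_lit 15844884875943414) (.br (nat_lit 0) (.cons (.br (nat_lit 6) (.cons (.rel (nat_lit 34368128004)) .nil)) .nil)) .leaf) (nat_lit 15845852341925919) (.br (nat_lit 4) (.cons (.br (nat_lit 0) (.cons (.rel (nat_lit 1078198344)) (.cons (.rel (nat_lit 1077940488)) .nil))) .nil)) .leaf) (nat_lit 15845852341926648) (.br (nat_lit 1) (.cons (.br (nat_lit 4) (.cons (.rel (nat_lit 1107300672)) .nil)) .nil)) (.node (.node .leaf (nat_lit 15845852342182763) (.br (nat_lit 1) (.cons (.br (nat_lit 3) (.cons (.rel (nat_lit 553648161)) .nil)) .nil)) .leaf) (nat_lit 15845852342428554) (.br (nat_lit 0) (.cons (.br (nat_lit 1) (.cons (.rel (nat_lit 20971656)) .nil)) .nil)) .leaf)) (nat_lit 15845852344426506) (.br (nat_lit 1) (.cons (.br (nat_lit 3) (.cons (.rel (nat_lit 286265352)) .nil)) .nil)) (.node (.node (.node .leaf (nat_lit 15845856011981725) (.br (nat_lit 4) (.cons (.br (nat_lit 5) (.cons (.rel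 (nat_lit 5368715328)) .nil)) .nil)) .leaf) (nat_lit 15845856012503345) (.br (nat_lit 1) (.cons (.br (nat_lit 5) (.cons (.rel (nat_lit 4311747072)) .nil)) .nil)) .leaf) (nat_lit 15845856012503845) (.br (nat_lit 3) (.cons (.br (nat_lit 1) (.cons (.rel (nat_lit 285229185)) (.cons (.rel (nat_lit 285495312)) .nil))) .nil)) (.node (.node .leaf (nat_lit 15845856013519649) (.br (nat_lit 5) (.cons (.br (nat_lit 6) (.cons (.rel (nat_lit 38654722056)) .nil)) .nil)) .leaf) (nat_lit 15845856013723779) (.br (nat_lit 0) (.cons (.br (nat_lit 3) (.cons (.rel (nat_lit 272631936)) .nil)) .nil)) .leaf))) (nat_lit 15845856013723953) (.br (nat_lit 0) (.cons (.br (nat_lit 1) (.cons (.rel (nat_lit 41943108)) .nil)) .nil)) (.node (.node (.node (.node .leaf (nat_lit 15845856013724403) (.br (nat_lit 0) (.cons (.br (nat_lit 1) (.cons (.rel (nat_lit 20971656)) .nil)) .nil)) .leaf) (nat_lit 15845856013724959) (.br (nat_lit 0) (.cons (.br (nat_lit 1) (.cons (.rel (nat_lit 41943108)) .nil)) .nil)) .leaf) (nat_lit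 15845856014442506) (.br (nat_lit 3) (.cons (.br (nat_lit 1) (.cons (.rel (nat_lit 285495312)) (.cons (.rel (nat_lit 286265352)) .nil))) .nil)) (.node (.node .leaf (nat_lit 15845856014546198) (.br (nat_lit 0) (.cons (.br (nat_lit 1) (.cons (.rel (nat_lit 21239808)) .nil)) .nil)) .leaf) (nat_lit 15845856014757919) (.br (nat_lit 4) (.cons (.br (nat_lit 6) (.cons (.rel (nat_lit 18253611078)) .nil)) .nil)) .leaf)) (nat_lit 15845858109094794) (.br (nat_lit 5) (.cons (.br (nat_lit 6) (.cons (.rel (nat_lit 21474838080)) .nil)) .nil)) (.node (.node (.node .leaf (nat_lit 15845858109289074) (.br (nat_lit 0) (.cons (.br (nat_lit 3) (.cons (.rel (nat_lit 545260608)) .nil)) .nil)) .leaf) (nat_lit 15845858109556993) (.br (nat_lit 3) (.cons (.br (nat_lit 0) (.cons (.rel (nat_lit 541082880)) (.cons (.rel (nat_lit 272892168)) .nil))) .nil)) .leaf) (nat_lit 15845858110672229) (.br (nat_lit 1) (.cons (.br (nat_lit 0) (.cons (.rel (nat_lit 21239808)) (.cons (.rel (nat_lit 41943108)) .nil))) .nil))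 (.node .leaf (nat_lit 15845858110842890) (.br (nat_lit 0) (.cons (.br (nat_lit 5) (.cons (.rel (nat_lit 4299180036)) (.cons (.rel (nat_lit 4299161865)) .nil))) (.cons (.br (nat_lit 5) (.cons (.rel (nat_lit 4299162900)) (.cons (.rel (nat_lit 4299166725)) .nil))) .nil))) .leaf)))) (nat_lit 15845858110847863) (.br (nat_lit 2) (.cons (.br (nat_lit 6) (.cons (.rel (nat_lit 17246979168)) .nil)) .nil)) (.node (.node (.node (.node (.node .leaf (nat_lit 15845858111600650) (.br (nat_lit 3) (.cons (.br (nat_lit 5) (.cons (.rel (nat_lit 4563404292)) .nil)) .nil)) .leaf) (nat_lit 15845858111696906) (.br (nat_lit 5) (.cons (.br (nat_lit 6) (.cons (.rel (nat_lit 21475361028)) .nil)) .nil)) .leaf) (nat_lit 15845858111698198) (.br (nat_lit 0) (.cons (.br (nat_lit 1) (.cons (.rel (nat_lit 37770240)) .nil)) .nil)) (.node (.node .leaf (nat_lit 15845858111703050) (.br (nat_lit 3) (.cons (.br (nat_lit 5) (.cons (.rel (nat_lit 4564992000)) .nil)) .nil)) .leaf) (nat_lit 15845858111703345) (.br (nat_lit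 5) (.cons (.br (nat_lit 6) (.cons (.rel (nat_lit 21476147205)) .nil)) .nil)) .leaf)) (nat_lit 15845858111703845) (.br (nat_lit 1) (.cons (.br (nat_lit 0) (.cons (.rel (nat_lit 21234948)) (.cons (.rel (nat_lit 21250050)) (.cons (.rel (nat_lit 37753104)) .nil)))) (.cons (.br (nat_lit 6) (.cons (.rel (nat_lit 34376516736)) (.cons (.rel (nat_lit 34393358592)) (.cons (.rel (nat_lit 34393358592)) .nil)))) .nil))) (.node (.node (.node .leaf (nat_lit 15845858111716139) (.br (nat_lit 1) (.cons (.br (nat_lit 3) (.cons (.rel (nat_lit 570430800)) .nil)) .nil)) .leaf) (nat_lit 15845858112157174) (.br (nat_lit 2) (.cons (.br (nat_lit 5) (.cons (.rel (nat_lit 4363141248)) (.cons (.rel (nat_lit 4363141248)) .nil))) .nil)) .leaf) (nat_lit 15846067195343474) (.br (nat_lit 2) (.cons (.br (nat_lit 5) (.cons (.rel (nat_lit 4429185552)) .nil)) .nil)) (.node (.node .leaf (nat_lit 15846067195703306) (.br (nat_lit 2) (.cons (.br (nat_lit 3) (.cons (.rel (nat_lit 403702032)) .nil)) .nil)) .leaf) (nat_lit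 15846067195704598) (.br (nat_lit 0) (.cons (.br (nat_lit 3) (.cons (.rel (nat_lit 273679380)) .nil)) .nil)) .leaf))) (nat_lit 15846067195709745) (.br (nat_lit 3) (.cons (.br (nat_lit 2) (.cons (.rel (nat_lit 335545380)) (.cons (.rel (nat_lit 335544345)) .nil))) .nil)) (.node (.node (.node (.node .leaf (nat_lit 15846067196726635) (.br (nat_lit 2) (.cons (.br (nat_lit 3) (.cons (.rel (nat_lit 335822928)) .nil)) .nil)) .leaf) (nat_lit 15846067196929400) (.br (nat_lit 0) (.cons (.br (nat_lit 2) (.cons (.rel (nat_lit 71304708)) (.cons (.rel (nat_lit 71304708)) .nil))) (.cons (.br (nat_lit 5) (.cons (.rel (nat_lit 4299161865)) (.cons (.rel (nat_lit 4299162900)) .nil))) .nil))) .leaf) (nat_lit 15846067196931353) (.br (nat_lit 0) (.cons (.br (nat_lit 3) (.cons (.rel (nat_lit 272908305)) .nil)) .nil)) (.node (.node .leaf (nat_lit 15846067196931578) (.br (nat_lit 1) (.cons (.br (nat_lit 3) (.cons (.rel (nat_lit 285229185)) .nil)) .nil)) .leaf) (nat_lit 15846067197656295) (.br (nat_lit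 1) (.cons (.br (nat_lit 5) (.cons (.rel (nat_lit 4311810306)) .nil)) .nil)) .leaf)) (nat_lit 15846067197665540) (.br (nat_lit 2) (.cons (.br (nat_lit 5) (.cons (.rel (nat_lit 4362076488)) .nil)) .nil)) (.node (.node (.node .leaf (nat_lit 15846067197752081) (.br (nat_lit 0) (.cons (.br (nat_lit 1) (.cons (.rel (nat_lit 21250050)) .nil)) .nil)) .leaf) (nat_lit 15846067197770539) (.br (nat_lit 1) (.cons (.br (nat_lit 3) (.cons (.rel (nat_lit 285540609)) .nil)) .nil)) .leaf) (nat_lit 15846067198210058) (.br (nat_lit 1) (.cons (.br (nat_lit 3) (.cons (.rel (nat_lit 285229185)) .nil)) .nil)) (.node .leaf (nat_lit 15846067198210699) (.br (nat_lit 3) (.cons (.br (nat_lit 0) (.cons (.rel (nat_lit 272897028)) (.cons (.rel (nat_lit 545260608)) .nil))) .nil)) .leaf))))) (nat_lit 15846070865113098) (.br (nat_lit 0) (.cons (.br (nat_lit 2) (.cons (.rel (nat_lit 72892416)) .nil)) .nil)) (.node (.node (.node (.node (.node (.node .leaf (nat_lit 15846070865113848) (.br (nat_lit 0) (.cons (.br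 (nat_lit 3) (.cons (.rel (nat_lit 277876800)) .nil)) .nil)) .leaf) (nat_lit 15846070865113873) (.br (nat_lit 0) (.cons (.br (nat_lit 2) (.cons (.rel (nat_lit 138412161)) .nil)) .nil)) .leaf) (nat_lit 15846070865359474) (.br (nat_lit 0) (.cons (.br (nat_lit 2) (.cons (.rel (nat_lit 71304708)) .nil)) .nil)) (.node (.node .leaf (nat_lit 15846070865420298) (.br (nat_lit 5) (.cons (.br (nat_lit 6) (.cons (.rel (nat_lit 25769869569)) .nil)) .nil)) .leaf) (nat_lit 15846070865625344) (.br (nat_lit 4) (.cons (.br (nat_lit 6) (.cons (.rel (nat_lit 18253693248)) .nil)) .nil)) .leaf)) (nat_lit 15846070865666954) (.br (nat_lit 1) (.cons (.br (nat_lit 5) (.cons (.rel (nat_lit 4311747072)) .nil)) .nil)) (.node (.node (.node .leaf (nat_lit 15846070865685265) (.br (nat_lit 3) (.cons (.br (nat_lit 2) (.cons (.rel (nat_lit 335545380)) (.cons (.rel (nat_lit 603984192)) (.cons (.rel (nat_lit 335544345)) .nil)))) .nil)) .leaf) (nat_lit 15846070865719306) (.br (nat_lit 2) (.cons (.br (nat_lit 3) (.cons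 (.rel (nat_lit 337969152)) .nil)) .nil)) .leaf) (nat_lit 15846070865725745) (.br (nat_lit 3) (.cons (.br (nat_lit 2) (.cons (.rel (nat_lit 335546370)) (.cons (.rel (nat_lit 335546370)) (.cons (.rel (nat_lit 335546370)) .nil)))) (.cons (.br (nat_lit 2) (.cons (.rel (nat_lit 335544345)) (.cons (.rel (nat_lit 671089665)) (.cons (.rel (nat_lit 335546370)) .nil)))) .nil))) (.node (.node .leaf (nat_lit 15846070865729843) (.br (nat_lit 5) (.cons (.br (nat_lit 6) (.cons (.rel (nat_lit 21474869328)) .nil)) .nil)) .leaf) (nat_lit 15846070865730843) (.br (nat_lit 5) (.cons (.br (nat_lit 2) (.cons (.rel (nat_lit 8657047569)) (.cons (.rel (nat_lit 4362602496)) (.cons (.rel (nat_lit 8724415488)) .nil)))) .nil)) .leaf))) (nat_lit 15846070866742053) (.br (nat_lit 0) (.cons (.br (nat_lit 3) (.cons (.rel (nat_lit 272631936)) .nil)) .nil)) (.node (.node (.node (.node .leaf (nat_lit 15846070866742154) (.br (nat_lit 2) (.cons (.br (nat_lit 0) (.cons (.rel (nat_lit 142950465)) (.cons (.rel (nat_lit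 138412161)) .nil))) .nil)) .leaf) (nat_lit 15846070866918681) (.br (nat_lit 3) (.cons (.br (nat_lit 4) (.cons (.rel (nat_lit 2684354565)) .nil)) .nil)) .leaf) (nat_lit 15846070866945400) (.br (nat_lit 2) (.cons (.br (nat_lit 4) (.cons (.rel (nat_lit 2214592530)) .nil)) .nil)) (.node (.node .leaf (nat_lit 15846070866947433) (.br (nat_lit 0) (.cons (.br (nat_lit 3) (.cons (.rel (nat_lit 273679380)) .nil)) .nil)) .leaf) (nat_lit 15846070867664906) (.br (nat_lit 5) (.cons (.br (nat_lit 1) (.cons (.rel (nat_lit 4330622976)) (.cons (.rel (nat_lit 4328522049)) .nil))) .nil)) .leaf)) (nat_lit 15846070867681540) (.br (nat_lit 3) (.cons (.br (nat_lit 2) (.cons (.rel (nat_lit 335544345)) (.cons (.rel (nat_lit 335544345)) .nil))) .nil)) (.node (.node (.node .leaf (nat_lit 15846070867767483) (.br (nat_lit 3) (.cons (.br (nat_lit 5) (.cons (.rel (nat_lit 9126809604)) .nil)) .nil)) .leaf) (nat_lit 15846070867778343) (.br (nat_lit 1) (.cons (.br (nat_lit 6) (.cons (.rel (nat_lit 17213425728))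 .nil)) .nil)) .leaf) (nat_lit 15846070867783711) (.br (nat_lit 5) (.cons (.br (nat_lit 3) (.cons (.rel (nat_lit 4563404292)) (.cons (.rel (nat_lit 4563419394)) .nil))) .nil)) (.node .leaf (nat_lit 15846070867785086) (.br (nat_lit 1) (.cons (.br (nat_lit 5) (.cons (.rel (nat_lit 4329046032)) .nil)) .nil)) .leaf)))) (nat_lit 15846070867785738) (.br (nat_lit 1) (.cons (.br (nat_lit 2) (.cons (.rel (nat_lit 167773200)) (.cons (.rel (nat_lit 83887125)) .nil))) .nil)) (.node (.node (.node (.node (.node .leaf (nat_lit 15846070867978270) (.br (nat_lit 4) (.cons (.br (nat_lit 3) (.cons (.rel (nat_lit 1342211328)) (.cons (.rel (nat_lit 2416189440)) (.cons (.rel (nat_lit 1342198017)) .nil)))) .nil)) .leaf) (nat_lit 15846070867980319) (.br (nat_lit 2) (.cons (.br (nat_lit 4) (.cons (.rel (nat_lit 2214592530)) .nil)) .nil)) .leaf) (nat_lit 15846070867992833) (.br (nat_lit 1) (.cons (.br (nat_lit 2) (.cons (.rel (nat_lit 100671552)) (.cons (.rel (nat_lit 100925586)) .nil))) .nil)) (.node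 (.node .leaf (nat_lit 15846070867993883) (.br (nat_lit 3) (.cons (.br (nat_lit 5) (.cons (.rel (nat_lit 4563404292)) .nil)) .nil)) .leaf) (nat_lit 15846072962777098) (.br (nat_lit 1) (.cons (.br (nat_lit 3) (.cons (.rel (nat_lit 301991940)) .nil)) .nil)) .leaf)) (nat_lit 15846072962881843) (.br (nat_lit 3) (.cons (.br (nat_lit 2) (.cons (.rel (nat_lit 335545380)) (.cons (.rel (nat_lit 335610369)) .nil))) .nil)) (.node (.node (.node .leaf (nat_lit 15846072962882843) (.br (nat_lit 2) (.cons (.br (nat_lit 3) (.cons (.rel (nat_lit 335546370)) .nil)) .nil)) .leaf) (nat_lit 15846072963803393) (.br (nat_lit 1) (.cons (.br (nat_lit 2) (.cons (.rel (nat_lit 83886090)) .nil)) .nil)) .leaf) (nat_lit 15846072964098353) (.br (nat_lit 5) (.cons (.br (nat_lit 0) (.cons (.rel (nat_lit 4299162900)) (.cons (.rel (nat_lit 4299182592)) .nil))) .nil)) (.node (.node .leaf (nat_lit 15846072964099353) (.br (nat_lit 0) (.cons (.br (nat_lit 3) (.cons (.rel (nat_lit 273752064)) .nil)) .nil)) .leaf) (nat_lit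 15846072964148125) (.br (nat_lit 3) (.cons (.br (nat_lit 5) (.cons (.rel (nat_lit 4563409152)) .nil)) .nil)) .leaf))) (nat_lit 15846072964925450) (.br (nat_lit 6) (.cons (.br (nat_lit 5) (.cons (.rel (nat_lit 21474838080)) (.cons (.rel (nat_lit 25769869569)) (.cons (.rel (nat_lit 21474838080)) .nil)))) .nil)) (.node (.node (.node (.node .leaf (nat_lit 15846072964926245) (.br (nat_lit 3) (.cons (.br (nat_lit 2) (.cons (.rel (nat_lit 335544345)) (.cons (.rel (nat_lit 335546370)) .nil))) .nil)) .leaf) (nat_lit 15846072964929843) (.br (nat_lit 1) (.cons (.br (nat_lit 3) (.cons (.rel (nat_lit 286326786)) .nil)) .nil)) .leaf) (nat_lit 15846072965131741) (.br (nat_lit 0) (.cons (.br (nat_lit 2) (.cons (.rel (nat_lit 71434245)) .nil)) .nil)) (.node (.node .leaf (nat_lit 15846072965132319) (.br (nat_lit 4) (.cons (.br (nat_lit 5) (.cons (.rel (nat_lit 5370040320)) .nil)) .nil)) .leaf) (nat_lit 15846072965133694) (.br (nat_lit 4) (.cons (.br (nat_lit 2) (.cons (.rel (nat_lit 1207960584))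 (.cons (.rel (nat_lit 1140883524)) .nil))) .nil)) .leaf)) (nat_lit 15846165357258782) (.br (nat_lit 3) (.cons (.br (nat_lit 5) (.cons (.rel (nat_lit 9126809604)) .nil)) .nil)) (.node (.node (.node .leaf (nat_lit 15846165403355146) (.br (nat_lit 0) (.cons (.br (nat_lit 4) (.cons (.rel (nat_lit 1078001922)) .nil)) .nil)) .leaf) (nat_lit 15846165403411933) (.br (nat_lit 1) (.cons (.br (nat_lit 3) (.cons (.rel (nat_lit 285214086)) .nil)) .nil)) .leaf) (nat_lit 15846167348488473) (.br (nat_lit 0) (.cons (.br (nat_lit 3) (.cons (.rel (nat_lit 272908305)) .nil)) .nil)) (.node .leaf (nat_lit 15846167483579679) (.br (nat_lit 2) (.cons (.br (nat_lit 4) (.cons (.rel (nat_lit 1141391361)) .nil)) .nil)) .leaf))))))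

/-- refutations 84 -/
def e84 : EX := (.node (.node (.node (.node (.node .leaf (nat_lit 15846282048891640) (.br (nat_lit 0) (.cons (.br (nat_lit 1) (.cons (.rel (nat_lit 25231365)) .nil)) .nil)) .leaf) (nat_lit 15846285718889854) (.br (nat_lit 1) (.cons (.br (nat_lit 3) (.cons (.rel (nat_lit 553656576)) .nil)) .nil)) .leaf) (nat_lit 15846285718907640) (.br (nat_lit 1) (.cons (.br (nat_lit 4) (.cons (.rel (nat_lit 1090521105)) .nil)) .nil)) (.node .leaf (nat_lit 15846285720169753) (.br (nat_lit 1) (.cons (.br (nat_lit 0) (.cons (.rel (nat_lit 21234948)) (.cons (.rel (nat_lit 37756929)) .nil))) .nil)) .leaf)) (nat_lit 15846285720169759) (.br (nat_lit 1) (.cons (.br (nat_lit 5) (.cons (.rel (nat_lit 8607768576)) .nil)) .nil)) (.node (.node .leaf (nat_lit 15846285720169978) (.br (nat_lit 5) (.cons (.br (nat_lit 3) (.cons (.rel (nat_lit 4563419394)) (.cons (.rel (nat_lit 4563404292)) (.cons (.rel (nat_lit 9126809604)) .nil)))) (.cons (.br (nat_lit 1) (.cons (.rel (nat_lit 4311747072))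 (.cons (.rel (nat_lit 4330622976)) (.cons (.rel (nat_lit 4311747072)) .nil)))) .nil))) .leaf) (nat_lit 15846285720989706) (.br (nat_lit 5) (.cons (.br (nat_lit 6) (.cons (.rel (nat_lit 38654709780)) .nil)) .nil)) (.node .leaf (nat_lit 15846285721006111) (.br (nat_lit 0) (.cons (.br (nat_lit 3) (.cons (.rel (nat_lit 273699072)) .nil)) .nil)) .leaf))) (nat_lit 15846285721007390) (.br (nat_lit 5) (.cons (.br (nat_lit 1) (.cons (.rel (nat_lit 4313382912)) (.cons (.rel (nat_lit 8623490304)) .nil))) .nil)) (.node (.node (.node (.node .leaf (nat_lit 15846285721007486) (.br (nat_lit 0) (.cons (.br (nat_lit 5) (.cons (.rel (nat_lit 4299162900)) .nil)) .nil)) .leaf) (nat_lit 15846285721203445) (.br (nat_lit 2) (.cons (.br (nat_lit 4) (.cons (.rel (nat_lit 2214592530)) .nil)) .nil)) .leaf) (nat_lit 15846287817321228) (.br (nat_lit 6) (.cons (.br (nat_lit 3) (.cons (.rel (nat_lit 34628437248)) (.cons (.rel (nat_lit 17449877508)) .nil))) .nil)) (.node .leaf (nat_lit 15846287817321259) (.br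 (nat_lit 0) (.cons (.br (nat_lit 4) (.cons (.rel (nat_lit 1079574528)) (.cons (.rel (nat_lit 1077952800)) .nil))) .nil)) .leaf)) (nat_lit 15846287817321753) (.br (nat_lit 3) (.cons (.br (nat_lit 5) (.cons (.rel (nat_lit 9126809604)) .nil)) .nil)) (.node (.node .leaf (nat_lit 15846287818147850) (.br (nat_lit 3) (.cons (.br (nat_lit 4) (.cons (.rel (nat_lit 2684354565)) .nil)) .nil)) .leaf) (nat_lit 15846287818148645) (.br (nat_lit 0) (.cons (.br (nat_lit 1) (.cons (.rel (nat_lit 25169922)) (.cons (.rel (nat_lit 41943108)) .nil))) (.cons (.br (nat_lit 1) (.cons (.rel (nat_lit 22022160)) (.cons (.rel (nat_lit 37770240)) .nil))) .nil))) (.node .leaf (nat_lit 15846287818161383) (.br (nat_lit 0) (.cons (.br (nat_lit 1) (.cons (.rel (nat_lit 38010960)) .nil)) .nil)) .leaf))))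

/-- refutations 85 -/
def e85 : EX := (.node (.node (.node (.node (.node .leaf (nat_lit 15486707179243530) (.br (nat_lit 1) (.cons (.br (nat_lit 2) (.cons (.rel (nat_lit 83886090)) .nil)) .nil)) .leaf) (nat_lit 15486964875134179) (.br (nat_lit 0) (.cons (.br (nat_lit 1) (.cons (.rel (nat_lit 37757976)) .nil)) .nil)) (.node .leaf (nat_lit 15486964875134235) (.br (nat_lit 0) (.cons (.br (nat_lit 1) (.cons (.rel (nat_lit 20971656)) .nil)) .nil)) .leaf)) (nat_lit 15486964875173898) (.br (nat_lit 1) (.cons (.br (nat_lit 3) (.cons (.rel (nat_lit 301989906)) .nil)) .nil)) (.node (.node .leaf (nat_lit 15486964875185053) (.br (nat_lit 2) (.cons (.br (nat_lit 5) (.cons (.rel (nat_lit 4362141792)) .nil)) .nil)) .leaf) (nat_lit 15486964876206355) (.br (nat_lit 0) (.cons (.br (nat_lit 1) (.cons (.rel (nat_lit 38010960)) .nil)) .nil)) .leaf)) (nat_lit 15486964876206731) (.br (nat_lit 1) (.cons (.br (nat_lit 3) (.cons (.rel (nat_lit 286265352)) .nil)) .nil)) (.node (.node (.node .leaf (nat_lit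 15486964876206885) (.br (nat_lit 0) (.cons (.br (nat_lit 1) (.cons (.rel (nat_lit 20971656)) .nil)) .nil)) .leaf) (nat_lit 15486964876413185) (.br (nat_lit 5) (.cons (.br (nat_lit 6) (.cons (.rel (nat_lit 21474869328)) .nil)) .nil)) .leaf) (nat_lit 15486964876413235) (.br (nat_lit 0) (.cons (.br (nat_lit 1) (.cons (.rel (nat_lit 21234948)) .nil)) .nil)) (.node (.node .leaf (nat_lit 15486964876413840) (.br (nat_lit 0) (.cons (.br (nat_lit 6) (.cons (.rel (nat_lit 17188274241)) .nil)) .nil)) .leaf) (nat_lit 15486964876414233) (.br (nat_lit 1) (.cons (.br (nat_lit 3) (.cons (.rel (nat_lit 285507588)) .nil)) .nil)) .leaf))) (nat_lit 15486964877170698) (.br (nat_lit 1) (.cons (.br (nat_lit 2) (.cons (.rel (nat_lit 83886090)) .nil)) .nil)) (.node (.node (.node (.node .leaf (nat_lit 15486964877171613) (.br (nat_lit 0) (.cons (.br (nat_lit 1) (.cons (.rel (nat_lit 22022160)) (.cons (.rel (nat_lit 21234948)) .nil))) (.cons (.br (nat_lit 1) (.cons (.br (nat_lit 3) (.cons (.rel (nat_lit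 272957472)) (.cons (.rel (nat_lit 302137344)) .nil))) (.cons (.rel (nat_lit 41979984)) .nil))) .nil))) .leaf) (nat_lit 15486964877172074) (.br (nat_lit 1) (.cons (.br (nat_lit 2) (.cons (.rel (nat_lit 167772165)) .nil)) .nil)) (.node .leaf (nat_lit 15486964877281290) (.br (nat_lit 1) (.cons (.br (nat_lit 6) (.cons (.rel (nat_lit 17196646692)) .nil)) .nil)) .leaf)) (nat_lit 15486964877282665) (.br (nat_lit 1) (.cons (.br (nat_lit 3) (.cons (.rel (nat_lit 553914432)) .nil)) .nil)) (.node (.node .leaf (nat_lit 15486964877486860) (.br (nat_lit 1) (.cons (.br (nat_lit 3) (.cons (.rel (nat_lit 285229185)) .nil)) .nil)) .leaf) (nat_lit 15486964877783050) (.br (nat_lit 3) (.cons (.br (nat_lit 1) (.cons (.rel (nat_lit 285278352)) (.cons (.rel (nat_lit 553649160)) .nil))) .nil)) .leaf)) (nat_lit 15487566171627675) (.br (nat_lit 1) (.cons (.br (nat_lit 2) (.cons (.rel (nat_lit 83902992)) .nil)) .nil)) (.node (.node (.node .leaf (nat_lit 15487823974535178) (.br (nat_lit 0) (.cons (.br (nat_lit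 2) (.cons (.rel (nat_lit 71304708)) .nil)) .nil)) .leaf) (nat_lit 15487823975598090) (.br (nat_lit 0) (.cons (.br (nat_lit 1) (.cons (.rel (nat_lit 37770240)) .nil)) .nil)) .leaf) (nat_lit 15494008623588203) (.br (nat_lit 1) (.cons (.br (nat_lit 3) (.cons (.rel (nat_lit 285278352)) .nil)) .nil)) (.node (.node .leaf (nat_lit 15939053347953951) (.br (nat_lit 0) (.cons (.br (nat_lit 2) (.cons (.rel (nat_lit 71319810)) .nil)) .nil)) .leaf) (nat_lit 15940038406232870) (.br (nat_lit 0) (.cons (.br (nat_lit 2) (.cons (.rel (nat_lit 75497538)) .nil)) .nil)) .leaf))))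

/-- refutations 86 -/
def e86 : EX := (.node (.node (.node (.node .leaf (nat_lit 15957187742412810) (.br (nat_lit 0) (.cons (.br (nat_lit 1) (.cons (.rel (nat_lit 22192128)) .nil)) .nil)) .leaf) (nat_lit 15961544967604529) (.br (nat_lit 1) (.cons (.br (nat_lit 2) (.cons (.rel (nat_lit 100671552)) .nil)) .nil)) .leaf) (nat_lit 15961579747587350) (.br (nat_lit 0) (.cons (.br (nat_lit 1) (.cons (.rel (nat_lit 22089984)) .nil)) .nil)) (.node .leaf (nat_lit 15961760135204874) (.br (nat_lit 0) (.cons (.br (nat_lit 3) (.cons (.rel (nat_lit 272631936)) .nil)) .nil)) .leaf)) (nat_lit 15961760136111007) (.br (nat_lit 0) (.cons (.br (nat_lit 5) (.cons (.rel (nat_lit 4299162900)) .nil)) .nil)) (.node (.node (.node .leaf (nat_lit 15961760136120330) (.br (nat_lit 1) (.cons (.br (nat_lit 0) (.cons (.rel (nat_lit 37770240)) (.cons (.rel (nat_lit 22029588)) .nil))) .nil)) .leaf) (nat_lit 15961760136213782) (.br (nat_lit 1) (.cons (.br (nat_lit 4) (.cons (.rel (nat_lit 1092894720)) .nil)) .nil))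 .leaf) (nat_lit 15961761727754250) (.br (nat_lit 0) (.cons (.br (nat_lit 2) (.cons (.rel (nat_lit 71311368)) .nil)) .nil)) (.node .leaf (nat_lit 15969063571902474) (.br (nat_lit 0) (.cons (.br (nat_lit 2) (.cons (.rel (nat_lit 71304708)) .nil)) .nil)) .leaf)))

/-- refutations 87 -/
def e87 : EX := (.node (.node (.node (.node .leaf (nat_lit 16361812047974410) (.br (nat_lit 0) (.cons (.br (nat_lit 1) (.cons (.rel (nat_lit 37756929)) .nil)) .nil)) .leaf) (nat_lit 16363321758339082) (.br (nat_lit 0) (.cons (.br (nat_lit 5) (.cons (.rel (nat_lit 4299167760)) .nil)) .nil)) .leaf) (nat_lit 16366577343549450) (.br (nat_lit 1) (.cons (.br (nat_lit 2) (.cons (.rel (nat_lit 84021252)) .nil)) .nil)) (.node .leaf (nat_lit 16366577346114798) (.br (nat_lit 0) (.cons (.br (nat_lit 1) (.cons (.rel (nat_lit 21234948)) .nil)) .nil)) .leaf)) (nat_lit 16366579445196282) (.br (nat_lit 0) (.cons (.br (nat_lit 2) (.cons (.rel (nat_lit 71309568)) .nil)) .nil)) (.node (.node (.node .leaf (nat_lit 16366579446734062)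 (.br (nat_lit 0) (.cons (.br (nat_lit 2) (.cons (.rel (nat_lit 142610436)) .nil)) .nil)) .leaf) (nat_lit 16367433694897658) (.br (nat_lit 0) (.cons (.br (nat_lit 1) (.cons (.rel (nat_lit 21242376)) .nil)) .nil)) .leaf) (nat_lit 16373922263503634) (.br (nat_lit 1) (.cons (.br (nat_lit 2) (.cons (.rel (nat_lit 83920128)) .nil)) .nil)) (.node .leaf (nat_lit 16374047421534218) (.br (nat_lit 0) (.cons (.br (nat_lit 2) (.cons (.rel (nat_lit 138690564)) .nil)) .nil)) .leaf)))

/-- refutations 88 -/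
def e88 : EX := (.node (.node .leaf (nat_lit 16467635835807754) (.br (nat_lit 0) (.cons (.br (nat_lit 1) (.cons (.rel (nat_lit 20971656)) .nil)) .nil)) .leaf) (nat_lit 16471718903696266) (.br (nat_lit 0) (.cons (.br (nat_lit 2) (.cons (.rel (nat_lit 144179220)) .nil)) .nil)) .leaf)

/-- refutations 89 -/
def e89 : EX := (.node (.node .leaf (nat_lit 21991312274810890) (.br (nat_lit 4) (.cons (.br (nat_lit 5) (.cons (.rel (nat_lit 9663680514)) .nil)) .nil)) .leaf) (nat_lit 22003546956699803) (.br (nat_lit 3) (.cons (.br (nat_lit 1) (.cons (.rel (nat_lit 285229185)) (.cons (.rel (nat_lit 553649160)) .nil))) .nil)) .leaf)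

/-- refutations 90 -/
def e90 : EX := (.node (.node (.node .leaf (nat_lit 22086185504460810) (.br (nat_lit 0) (.cons (.br (nat_lit 5) (.cons (.rel (nat_lit 4299166725)) .nil)) .nil)) .leaf) (nat_lit 22090047700658976) (.br (nat_lit 1) (.cons (.br (nat_lit 2) (.cons (.rel (nat_lit 167772165)) .nil)) .nil)) (.node .leaf (nat_lit 22090047702909114) (.br (nat_lit 1) (.cons (.br (nat_lit 0) (.cons (.rel (nat_lit 22022160)) (.cons (.rel (nat_lit 22021125)) .nil))) .nil)) .leaf)) (nat_lit 22090047702909814) (.br (nat_lit 0) (.cons (.br (nat_lit 1) (.cons (.rel (nat_lit 21299217)) .nil)) .nil)) (.node (.node .leaf (nat_lit 22090047702968376) (.br (nat_lit 1) (.cons (.br (nat_lit 3) (.cons (.rel (nat_lit 553648161)) .nil)) .nil)) .leaf) (nat_lit 22090053415551251) (.br (nat_lit 1) (.cons (.br (nat_lit 3) (.cons (.rel (nat_lit 285229185)) .nil)) .nil)) (.node .leaf (nat_lit 22091173534356986) (.br (nat_lit 0) (.cons (.br (nat_lit 5) (.cons (.rel (nat_lit 4299182592)) .nil)) .nil)) .leaf)))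

/-- refutations 91 -/
def e91 : EX := (.node (.node (.node (.node .leaf (nat_lit 22431110948474890) (.br (nat_lit 0) (.cons (.br (nat_lit 1) (.cons (.rel (nat_lit 20971656)) (.cons (.rel (nat_lit 20971656)) .nil))) .nil)) .leaf) (nat_lit 22431110948475136) (.br (nat_lit 0) (.cons (.br (nat_lit 3) (.cons (.rel (nat_lit 272892168)) .nil)) .nil)) (.node .leaf (nat_lit 22431110948774148) (.br (nat_lit 0) (.cons (.br (nat_lit 1) (.cons (.rel (nat_lit 23154756)) .nil)) .nil)) .leaf)) (nat_lit 22431110949995248) (.br (nat_lit 0) (.cons (.br (nat_lit 2) (.cons (.rel (nat_lit 71335956)) .nil)) .nil)) (.node (.node .leaf (nat_lit 22431110951067803) (.br (nat_lit 0) (.cons (.br (nat_lit 3) (.cons (.rel (nat_lit 272894241)) .nil)) .nil)) .leaf) (nat_lit 22431110951067953) (.br (nat_lit 5) (.cons (.br (nat_lit 0) (.cons (.rel (nat_lit 4299167760)) (.cons (.rel (nat_lit 4299178002)) .nil))) .nil)) .leaf)) (nat_lit 22431110951068560) (.br (nat_lit 0) (.cons (.br (nat_lit 3) (.cons (.rel (nat_lit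 272908305)) .nil)) .nil)) (.node (.node (.node .leaf (nat_lit 22431110951086090) (.br (nat_lit 0) (.cons (.br (nat_lit 5) (.cons (.rel (nat_lit 4299167760)) .nil)) .nil)) .leaf) (nat_lit 22431110951603713) (.br (nat_lit 0) (.cons (.br (nat_lit 1) (.cons (.rel (nat_lit 41943108)) .nil)) .nil)) .leaf) (nat_lit 22431112209359153) (.br (nat_lit 0) (.cons (.br (nat_lit 2) (.cons (.rel (nat_lit 142610436)) .nil)) .nil)) (.node (.node .leaf (nat_lit 22431116194212620) (.br (nat_lit 1) (.cons (.br (nat_lit 3) (.cons (.rel (nat_lit 285507588)) .nil)) .nil)) .leaf) (nat_lit 22435500958699530) (.br (nat_lit 0) (.cons (.br (nat_lit 3) (.cons (.rel (nat_lit 273679380)) .nil)) .nil)) .leaf)))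

/-- refutations 92 -/
def e92 : EX := (.node (.node (.node (.node (.node (.node .leaf (nat_lit 22436479660187803) (.br (nat_lit 1) (.cons (.br (nat_lit 5) (.cons (.rel (nat_lit 4311826452)) .nil)) .nil)) .leaf) (nat_lit 22437553400996620) (.br (nat_lit 0) (.cons (.br (nat_lit 1) (.cons (.rel (nat_lit 22089984)) .nil)) .nil)) .leaf) (nat_lit 22440774626427640) (.br (nat_lit 0) (.cons (.br (nat_lit 4) (.cons (.rel (nat_lit 1077969936)) .nil)) .nil)) (.node .leaf (nat_lit 22441848366714890) (.br (nat_lit 3) (.cons (.br (nat_lit 0) (.cons (.rel (nat_lit 541606020)) (.cons (.rel (nat_lit 273699072)) (.cons (.rel (nat_lit 272908305)) .nil)))) .nil)) .leaf)) (nat_lit 22441848366720238) (.br (nat_lit 2) (.cons (.br (nat_lit 3) (.cons (.rel (nat_lit 335545380)) .nil)) .nil)) (.node (.node .leaf (nat_lit 22441848367014044) (.br (nat_lit 1) (.cons (.br (nat_lit 0) (.cons (.rel (nat_lit 37756929)) (.cons (.rel (nat_lit 22022160)) .nil))) .nil)) .leaf) (nat_lit 22441848367014148) (.br (nat_lit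 0) (.cons (.br (nat_lit 1) (.cons (.rel (nat_lit 21299217)) .nil)) .nil)) (.node .leaf (nat_lit 22441848367075483) (.br (nat_lit 1) (.cons (.br (nat_lit 2) (.cons (.rel (nat_lit 167772165)) .nil)) .nil)) .leaf))) (nat_lit 22441848367227765) (.br (nat_lit 1) (.cons (.br (nat_lit 2) (.cons (.rel (nat_lit 83886090)) .nil)) .nil)) (.node (.node (.node .leaf (nat_lit 22441848367269898) (.br (nat_lit 1) (.cons (.br (nat_lit 2) (.cons (.rel (nat_lit 83902992)) (.cons (.rel (nat_lit 167772165)) .nil))) .nil)) .leaf) (nat_lit 22441848368235248) (.br (nat_lit 0) (.cons (.br (nat_lit 2) (.cons (.rel (nat_lit 71311368)) .nil)) .nil)) (.node .leaf (nat_lit 22441848368291850) (.br (nat_lit 2) (.cons (.br (nat_lit 3) (.cons (.rel (nat_lit 335568897)) .nil)) .nil)) .leaf)) (nat_lit 22441848368292620) (.br (nat_lit 3) (.cons (.br (nat_lit 0) (.cons (.rel (nat_lit 545260608)) (.cons (.rel (nat_lit 272908305)) .nil))) .nil)) (.node (.node .leaf (nat_lit 22441848368488610) (.br (nat_lit 1) (.cons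 (.br (nat_lit 2) (.cons (.rel (nat_lit 84935748)) .nil)) .nil)) .leaf) (nat_lit 22441848368550169) (.br (nat_lit 0) (.cons (.br (nat_lit 1) (.cons (.rel (nat_lit 22347840)) .nil)) .nil)) (.node .leaf (nat_lit 22441848369307803) (.br (nat_lit 5) (.cons (.br (nat_lit 0) (.cons (.rel (nat_lit 4299161865)) (.cons (.rel (nat_lit 4299162900)) .nil))) .nil)) .leaf)))) (nat_lit 22441848369572620) (.br (nat_lit 1) (.cons (.br (nat_lit 5) (.cons (.rel (nat_lit 4311747072)) .nil)) .nil)) (.node (.node (.node (.node .leaf (nat_lit 22441848369843713) (.br (nat_lit 0) (.cons (.br (nat_lit 1) (.cons (.rel (nat_lit 37765380)) .nil)) .nil)) .leaf) (nat_lit 22441848369869580) (.br (nat_lit 4) (.cons (.br (nat_lit 1) (.cons (.rel (nat_lit 1090535937)) (.cons (.rel (nat_lit 1090519080)) .nil))) .nil)) (.node .leaf (nat_lit 22441848369870350) (.br (nat_lit 1) (.cons (.br (nat_lit 4) (.cons (.rel (nat_lit 1090519080)) (.cons (.rel (nat_lit 2181038100)) .nil))) .nil)) .leaf)) (nat_lit 22441849520148490)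 (.br (nat_lit 0) (.cons (.br (nat_lit 3) (.cons (.rel (nat_lit 273699072)) .nil)) .nil)) (.node (.node .leaf (nat_lit 22441849522742553) (.br (nat_lit 0) (.cons (.br (nat_lit 1) (.cons (.rel (nat_lit 21299217)) .nil)) .nil)) .leaf) (nat_lit 22441849523304603) (.br (nat_lit 0) (.cons (.br (nat_lit 3) (.cons (.rel (nat_lit 276840453)) .nil)) .nil)) (.node .leaf (nat_lit 22441853609594890) (.br (nat_lit 0) (.cons (.br (nat_lit 2) (.cons (.rel (nat_lit 71309568)) .nil)) .nil)) .leaf))) (nat_lit 22441853611115248) (.br (nat_lit 0) (.cons (.br (nat_lit 2) (.cons (.rel (nat_lit 71304708)) .nil)) .nil)) (.node (.node (.node .leaf (nat_lit 22441853611472906) (.br (nat_lit 0) (.cons (.br (nat_lit 1) (.cons (.rel (nat_lit 37756929)) .nil)) .nil)) .leaf) (nat_lit 22441853612723713) (.br (nat_lit 0) (.cons (.br (nat_lit 1) (.cons (.rel (nat_lit 37756929)) .nil)) .nil)) (.node .leaf (nat_lit 22441854166100123) (.br (nat_lit 1) (.cons (.br (nat_lit 2) (.cons (.rel (nat_lit 151257600)) .nil))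 .nil)) .leaf)) (nat_lit 22442922109051011) (.br (nat_lit 0) (.cons (.br (nat_lit 1) (.cons (.rel (nat_lit 20971656)) .nil)) .nil)) (.node (.node .leaf (nat_lit 22442927877339943) (.br (nat_lit 0) (.cons (.br (nat_lit 1) (.cons (.rel (nat_lit 21234948)) .nil)) .nil)) .leaf) (nat_lit 22443222759378433) (.br (nat_lit 1) (.cons (.br (nat_lit 2) (.cons (.rel (nat_lit 83886090)) .nil)) .nil)) (.node .leaf (nat_lit 22443223909683210) (.br (nat_lit 2) (.cons (.br (nat_lit 3) (.cons (.rel (nat_lit 403702032)) .nil)) .nil)) .leaf)))))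

/-- refutations 93 -/
def e93 : EX := (.node (.node (.node (.node (.node .leaf (nat_lit 22167228158373345) (.br (nat_lit 2) (.cons (.br (nat_lit 4) (.cons (.rel (nat_lit 2214739968)) (.cons (.rel (nat_lit 1140883524)) (.cons (.rel (nat_lit 1140871248)) .nil)))) (.cons (.br (nat_lit 5) (.cons (.br (nat_lit 4) (.cons (.rel (nat_lit 5369233416)) (.cons (.rel (nat_lit 1140883524)) (.cons (.rel (nat_lit 5369258016)) .nil)))) (.cons (.rel (nat_lit 4429189377)) .nil))) .nil))) .leaf) (nat_lit 22167228159092193) (.br (nat_lit 4) (.cons (.br (nat_lit 0) (.cons (.rel (nat_lit 1077952800)) (.cons (.rel (nat_lit 1077952800)) .nil))) .nil)) .leaf) (nat_lit 22167228159119370) (.br (nat_lit 1) (.cons (.br (nat_lit 6) (.cons (.rel (nat_lit 17198220288)) (.cons (.br (nat_lit 2) (.cons (.rel (nat_lit 83886090)) (.cons (.rel (nat_lit 17249076225)) (.cons (.rel (nat_lit 17248290048)) .nil)))) (.cons (.rel (nat_lit 17196683520)) .nil)))) .nil)) (.node (.node .leaf (nat_lit 22167228159141898) (.br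 (nat_lit 0) (.cons (.br (nat_lit 4) (.cons (.rel (nat_lit 1077956625)) .nil)) .nil)) .leaf) (nat_lit 22167228159143418) (.br (nat_lit 4) (.cons (.br (nat_lit 5) (.cons (.rel (nat_lit 10737815553)) .nil)) .nil)) .leaf)) (nat_lit 22167228159437105) (.br (nat_lit 5) (.cons (.br (nat_lit 6) (.cons (.rel (nat_lit 38654706945)) .nil)) .nil)) (.node (.node (.node .leaf (nat_lit 22167228159437685) (.br (nat_lit 1) (.cons (.br (nat_lit 2) (.cons (.rel (nat_lit 83886090)) .nil)) .nil)) .leaf) (nat_lit 22167228159631385) (.br (nat_lit 0) (.cons (.br (nat_lit 2) (.cons (.rel (nat_lit 72892416)) .nil)) .nil)) .leaf) (nat_lit 22167228159631620) (.br (nat_lit 5) (.cons (.br (nat_lit 4) (.cons (.rel (nat_lit 5368715328)) (.cons (.rel (nat_lit 6442520580)) .nil))) .nil)) (.node .leaf (nat_lit 22167228160370698) (.br (nat_lit 1) (.cons (.br (nat_lit 2) (.cons (.rel (nat_lit 150999168)) .nil)) .nil)) .leaf))) (nat_lit 22167228160461450) (.br (nat_lit 1) (.cons (.br (nat_lit 6) (.cons (.rel (nat_lit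 34393358592)) (.cons (.rel (nat_lit 17198220288)) .nil))) (.cons (.br (nat_lit 6) (.cons (.rel (nat_lit 17196647682)) (.cons (.rel (nat_lit 17196941376)) .nil))) .nil))) (.node (.node (.node (.node .leaf (nat_lit 22167228160606218) (.br (nat_lit 0) (.cons (.br (nat_lit 6) (.cons (.rel (nat_lit 17184068100)) .nil)) .nil)) .leaf) (nat_lit 22167228160606513) (.br (nat_lit 1) (.cons (.br (nat_lit 3) (.cons (.rel (nat_lit 553914432)) .nil)) .nil)) .leaf) (nat_lit 22167228808275205) (.br (nat_lit 0) (.cons (.br (nat_lit 1) (.cons (.rel (nat_lit 21299217)) .nil)) .nil)) (.node (.node .leaf (nat_lit 22167234135256545) (.br (nat_lit 0) (.cons (.br (nat_lit 2) (.cons (.rel (nat_lit 71309568)) .nil)) .nil)) .leaf) (nat_lit 22171737874780170) (.br (nat_lit 1) (.cons (.br (nat_lit 6) (.cons (.rel (nat_lit 34393358592)) .nil)) .nil)) .leaf)) (nat_lit 22176977734903818) (.br (nat_lit 0) (.cons (.br (nat_lit 4) (.cons (.rel (nat_lit 1077938688)) .nil)) .nil)) (.node (.node (.node .leaf (nat_lit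 22179468815166945) (.br (nat_lit 4) (.cons (.br (nat_lit 0) (.cons (.rel (nat_lit 1077968901)) (.cons (.rel (nat_lit 1077938688)) .nil))) .nil)) .leaf) (nat_lit 22179469362423818) (.br (nat_lit 0) (.cons (.br (nat_lit 1) (.cons (.rel (nat_lit 20971656)) .nil)) .nil)) .leaf) (nat_lit 22179474792050145) (.br (nat_lit 0) (.cons (.br (nat_lit 5) (.cons (.rel (nat_lit 8595243012)) .nil)) .nil)) (.node .leaf (nat_lit 22179474793308970) (.br (nat_lit 0) (.cons (.br (nat_lit 2) (.cons (.rel (nat_lit 71311368)) .nil)) .nil)) .leaf))))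

/-- refutations 94 -/
def e94 : EX := (.node (.node (.node .leaf (nat_lit 22554256296923146) (.br (nat_lit 0) (.cons (.br (nat_lit 1) (.cons (.rel (nat_lit 22089984)) .nil)) .nil)) .leaf) (nat_lit 22554260074399226) (.br (nat_lit 0) (.cons (.br (nat_lit 1) (.cons (.rel (nat_lit 41943108)) .nil)) .nil)) .leaf) (nat_lit 22554262542736890) (.br (nat_lit 0) (.cons (.br (nat_lit 5) (.cons (.rel (nat_lit 4299178002)) .nil)) .nil)) (.node (.node .leaf (nat_lit 22554262544844282) (.br (nat_lit 0) (.cons (.br (nat_lit 4) (.cons (.rel (nat_lit 1082130528)) (.cons (.rel (nat_lit 2155873536)) .nil))) .nil)) .leaf) (nat_lit 22555820925912570) (.br (nat_lit 0) (.cons (.br (nat_lit 2) (.cons (.rel (nat_lit 138412161)) (.cons (.rel (nat_lit 71309568)) .nil))) .nil)) .leaf))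

/-- refutations 95 -/
def e95 : EX := (.node (.node (.node (.node .leaf (nat_lit 22607036481485685) (.br (nat_lit 4) (.cons (.br (nat_lit 5) (.cons (.rel (nat_lit 5370040320)) .nil)) .nil)) .leaf) (nat_lit 22607036481549048) (.br (nat_lit 0) (.cons (.br (nat_lit 1) (.cons (.rel (nat_lit 21234948)) .nil)) .nil)) .leaf) (nat_lit 22607247662757150) (.br (nat_lit 1) (.cons (.br (nat_lit 3) (.cons (.rel (nat_lit 285229185)) .nil)) .nil)) (.node (.node .leaf (nat_lit 22607247662757370) (.br (nat_lit 1) (.cons (.br (nat_lit 4) (.cons (.rel (nat_lit 1090521105)) .nil)) .nil)) .leaf) (nat_lit 22607247664691210) (.br (nat_lit 1) (.cons (.br (nat_lit 2) (.cons (.rel (nat_lit 101187840)) .nil)) .nil)) .leaf)) (nat_lit 22616997238458378) (.br (nat_lit 6) (.cons (.br (nat_lit 2) (.cons (.br (nat_lit 4) (.cons (.rel (nat_lit 1207968000)) (.cons (.rel (nat_lit 35433611280)) .nil))) (.cons (.rel (nat_lit 34494283776)) .nil))) .nil)) (.node (.node (.node .leaf (nat_lit 22616997240516618) (.br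 (nat_lit 0) (.cons (.br (nat_lit 1) (.cons (.rel (nat_lit 21239808)) .nil)) .nil)) .leaf) (nat_lit 22618846716539685) (.br (nat_lit 2) (.cons (.br (nat_lit 3) (.cons (.rel (nat_lit 335546370)) .nil)) .nil)) .leaf) (nat_lit 22618849736706058) (.br (nat_lit 0) (.cons (.br (nat_lit 2) (.cons (.rel (nat_lit 71304708)) .nil)) .nil)) (.node (.node .leaf (nat_lit 22618849737973785) (.br (nat_lit 1) (.cons (.br (nat_lit 5) (.cons (.rel (nat_lit 4311748872)) .nil)) .nil)) .leaf) (nat_lit 22618849738700810) (.br (nat_lit 2) (.cons (.br (nat_lit 3) (.cons (.rel (nat_lit 671089665)) .nil)) .nil)) .leaf)))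

/-- refutations 96 -/
def e96 : EX := (.node (.node (.node (.node (.node .leaf (nat_lit 22623645743997579) (.br (nat_lit 1) (.cons (.br (nat_lit 2) (.cons (.rel (nat_lit 83959809)) .nil)) .nil)) .leaf) (nat_lit 22623645744216819) (.br (nat_lit 1) (.cons (.br (nat_lit 0) (.cons (.rel (nat_lit 37770240)) (.cons (.rel (nat_lit 21250050)) .nil))) .nil)) .leaf) (nat_lit 22623645744216951) (.br (nat_lit 0) (.cons (.br (nat_lit 6) (.cons (.rel (nat_lit 17184149505)) .nil)) .nil)) (.node .leaf (nat_lit 22623646837125126) (.br (nat_lit 0) (.cons (.br (nat_lit 3) (.cons (.rel (nat_lit 272897028)) .nil)) .nil)) .leaf)) (nat_lit 22623646837125130) (.br (nat_lit 2) (.cons (.br (nat_lit 3) (.cons (.rel (nat_lit 335546370)) .nil)) .nil)) (.node (.node (.node .leaf (nat_lit 22624624994955270) (.br (nat_lit 1) (.cons (.br (nat_lit 6) (.cons (.rel (nat_lit 17196941376)) .nil)) .nil)) .leaf) (nat_lit 22624624994955516) (.br (nat_lit 0) (.cons (.br (nat_lit 2) (.cons (.rel (nat_lit 142610436))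 .nil)) .nil)) .leaf) (nat_lit 22624624995264768) (.br (nat_lit 0) (.cons (.br (nat_lit 1) (.cons (.rel (nat_lit 41943108)) .nil)) .nil)) (.node .leaf (nat_lit 22624624996328336) (.br (nat_lit 2) (.cons (.br (nat_lit 3) (.cons (.rel (nat_lit 335822928)) .nil)) .nil)) .leaf))) (nat_lit 22624624996541196) (.br (nat_lit 5) (.cons (.br (nat_lit 0) (.cons (.rel (nat_lit 4299178002)) (.cons (.rel (nat_lit 4299325440)) .nil))) .nil)) (.node (.node (.node (.node .leaf (nat_lit 22624624996760439) (.br (nat_lit 1) (.cons (.br (nat_lit 2) (.cons (.rel (nat_lit 167773200)) .nil)) .nil)) .leaf) (nat_lit 22624624997579033) (.br (nat_lit 2) (.cons (.br (nat_lit 3) (.cons (.rel (nat_lit 671089665)) .nil)) .nil)) .leaf) (nat_lit 22624624997580309) (.br (nat_lit 0) (.cons (.br (nat_lit 1) (.cons (.rel (nat_lit 21237786)) .nil)) .nil)) (.node .leaf (nat_lit 22624626091295520) (.br (nat_lit 1) (.cons (.br (nat_lit 4) (.cons (.rel (nat_lit 1090588929)) .nil)) .nil)) .leaf)) (nat_lit 22624626092292983)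 (.br (nat_lit 0) (.cons (.br (nat_lit 1) (.cons (.rel (nat_lit 20971656)) .nil)) .nil)) (.node (.node (.node .leaf (nat_lit 22625974274841387) (.br (nat_lit 0) (.cons (.br (nat_lit 3) (.cons (.rel (nat_lit 272892168)) .nil)) .nil)) .leaf) (nat_lit 22625978994408711) (.br (nat_lit 1) (.cons (.br (nat_lit 5) (.cons (.rel (nat_lit 8623490304)) .nil)) .nil)) .leaf) (nat_lit 22628919962354966) (.br (nat_lit 0) (.cons (.br (nat_lit 1) (.cons (.rel (nat_lit 25183233)) .nil)) .nil)) (.node .leaf (nat_lit 22635458163391990) (.br (nat_lit 2) (.cons (.br (nat_lit 3) (.cons (.br (nat_lit 1) (.cons (.rel (nat_lit 554696784)) (.cons (.br (nat_lit 0) (.cons (.rel (nat_lit 75497538)) (.cons (.rel (nat_lit 71435280)) (.cons (.rel (nat_lit 71319810)) (.cons (.rel (nat_lit 155222034)) .nil))))) .nil))) .nil)) .nil)) .leaf))))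

/-- refutations 97 -/
def e97 : EX := (.node (.node (.node .leaf (nat_lit 22889887632306988) (.br (nat_lit 0) (.cons (.br (nat_lit 1) (.cons (.rel (nat_lit 22089984)) .nil)) .nil)) .leaf) (nat_lit 22893296290934794) (.br (nat_lit 0) (.cons (.br (nat_lit 2) (.cons (.rel (nat_lit 71309568)) .nil)) .nil)) (.node .leaf (nat_lit 22898472217260042) (.br (nat_lit 2) (.cons (.br (nat_lit 3) (.cons (.rel (nat_lit 335545380)) (.cons (.rel (nat_lit 671089665)) .nil))) (.cons (.br (nat_lit 3) (.cons (.rel (nat_lit 335546370)) (.cons (.rel (nat_lit 335546370)) .nil))) .nil))) .leaf)) (nat_lit 22898472217261438) (.br (nat_lit 1) (.cons (.br (nat_lit 3) (.cons (.rel (nat_lit 285507588)) .nil)) .nil)) (.node (.node .leaf (nat_lit 22900843039207434) (.br (nat_lit 3) (.cons (.br (nat_lit 4) (.cons (.rel (nat_lit 1342194192)) .nil)) .nil)) .leaf) (nat_lit 22900848957370378) (.br (nat_lit 0) (.cons (.br (nat_lit 2) (.cons (.rel (nat_lit 72892416)) .nil)) .nil)) .leaf))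

/-- refutations 98 -/
def e98 : EX := (.node (.node (.node (.node (.node (.node (.node (.node .leaf (nat_lit 24189350303171822) (.br (nat_lit 4) (.cons (.br (nat_lit 0) (.cons (.rel (nat_lit 1078018068)) (.cons (.rel (nat_lit 1077952800)) (.cons (.rel (nat_lit 1077968901)) .nil)))) .nil)) .leaf) (nat_lit 24189350303172115) (.br (nat_lit 1) (.cons (.br (nat_lit 5) (.cons (.rel (nat_lit 8607768576)) .nil)) .nil)) .leaf) (nat_lit 24189351396451241) (.br (nat_lit 0) (.cons (.br (nat_lit 1) (.cons (.rel (nat_lit 22036992)) .nil)) .nil)) (.node .leaf (nat_lit 24189351397885166) (.br (nat_lit 1) (.cons (.br (nat_lit 3) (.cons (.br (nat_lit 5) (.cons (.rel (nat_lit 4563410952)) .nil)) .nil)) .nil)) .leaf)) (nat_lit 24190329552898353) (.br (nat_lit 5) (.cons (.br (nat_lit 0) (.cons (.rel (nat_lit 8594653248)) (.cons (.rel (nat_lit 4299161865)) .nil))) .nil)) (.node (.node (.node .leaf (nat_lit 24190329552898828) (.br (nat_lit 0) (.cons (.br (nat_lit 5) (.cons (.rel (nat_lit 4299178002))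 (.cons (.rel (nat_lit 8595181569)) (.cons (.rel (nat_lit 8594653248)) .nil)))) .nil)) .leaf) (nat_lit 24190329552898933) (.br (nat_lit 0) (.cons (.br (nat_lit 5) (.cons (.rel (nat_lit 8594653248)) (.cons (.rel (nat_lit 8594653248)) .nil))) (.cons (.br (nat_lit 5) (.cons (.rel (nat_lit 4299325440)) (.cons (.rel (nat_lit 4303618176)) .nil))) .nil))) .leaf) (nat_lit 24190329552899353) (.br (nat_lit 0) (.cons (.br (nat_lit 1) (.cons (.br (nat_lit 5) (.cons (.rel (nat_lit 4311747072)) .nil)) .nil)) .nil)) (.node .leaf (nat_lit 24190329552920883) (.br (nat_lit 4) (.cons (.br (nat_lit 0) (.cons (.rel (nat_lit 1077968901)) (.cons (.rel (nat_lit 2155873536)) .nil))) .nil)) .leaf))) (nat_lit 24190329553023736) (.br (nat_lit 1) (.cons (.br (nat_lit 2) (.cons (.rel (nat_lit 83886090)) .nil)) .nil)) (.node (.node (.node (.node .leaf (nat_lit 24190329553410104) (.br (nat_lit 0) (.cons (.br (nat_lit 3) (.cons (.rel (nat_lit 272908305)) (.cons (.rel (nat_lit 273752064)) .nil))) .nil)) .leaf)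 (nat_lit 24190329553410684) (.br (nat_lit 6) (.cons (.br (nat_lit 4) (.cons (.rel (nat_lit 18253612113)) (.cons (.rel (nat_lit 18253611078)) .nil))) .nil)) .leaf) (nat_lit 24190329553410853) (.br (nat_lit 1) (.cons (.br (nat_lit 3) (.cons (.rel (nat_lit 286326786)) .nil)) .nil)) (.node .leaf (nat_lit 24190329553410858) (.br (nat_lit 0) (.cons (.br (nat_lit 1) (.cons (.rel (nat_lit 20971656)) .nil)) .nil)) .leaf)) (nat_lit 24190329553410935) (.br (nat_lit 2) (.cons (.br (nat_lit 4) (.cons (.rel (nat_lit 1207959585)) (.cons (.rel (nat_lit 1208225856)) .nil))) .nil)) (.node (.node (.node .leaf (nat_lit 24190329553410985) (.br (nat_lit 3) (.cons (.br (nat_lit 0) (.cons (.rel (nat_lit 272908305)) (.cons (.rel (nat_lit 272631936)) .nil))) .nil)) .leaf) (nat_lit 24190329553411305) (.br (nat_lit 4) (.cons (.br (nat_lit 2) (.cons (.rel (nat_lit 2214739968)) (.cons (.rel (nat_lit 1142964480)) .nil))) .nil)) .leaf) (nat_lit 24190329553411429) (.br (nat_lit 5) (.cons (.br (nat_lit 6) (.cons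 (.rel (nat_lit 21474844740)) (.cons (.rel (nat_lit 21474844740)) .nil))) (.cons (.br (nat_lit 0) (.cons (.rel (nat_lit 4303618176)) (.cons (.rel (nat_lit 8598405120)) (.cons (.rel (nat_lit 8598405120)) .nil)))) .nil))) (.node .leaf (nat_lit 24190329553411553) (.br (nat_lit 2) (.cons (.br (nat_lit 4) (.cons (.rel (nat_lit 1207960584)) .nil)) .nil)) .leaf)))) (nat_lit 24190329553419625) (.br (nat_lit 3) (.cons (.br (nat_lit 5) (.cons (.rel (nat_lit 4563409152)) .nil)) .nil)) (.node (.node (.node (.node (.node .leaf (nat_lit 24190329553423143) (.br (nat_lit 2) (.cons (.br (nat_lit 5) (.cons (.rel (nat_lit 4362081348)) .nil)) .nil)) .leaf) (nat_lit 24190329553430538) (.br (nat_lit 0) (.cons (.br (nat_lit 2) (.cons (.rel (nat_lit 71311368)) (.cons (.rel (nat_lit 142610436)) .nil))) (.cons (.br (nat_lit 2) (.cons (.rel (nat_lit 71304708)) (.cons (.rel (nat_lit 142610436)) .nil))) .nil))) .leaf) (nat_lit 24190329553431178) (.br (nat_lit 1) (.cons (.br (nat_lit 0) (.cons (.rel (nat_lit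 20971656)) (.cons (.rel (nat_lit 22021125)) .nil))) .nil)) (.node .leaf (nat_lit 24190329553462008) (.br (nat_lit 6) (.cons (.br (nat_lit 3) (.cons (.rel (nat_lit 17448321048)) (.cons (.rel (nat_lit 17448309762)) .nil))) .nil)) .leaf)) (nat_lit 24190329553462185) (.br (nat_lit 2) (.cons (.br (nat_lit 0) (.cons (.rel (nat_lit 71311368)) (.cons (.rel (nat_lit 142610436)) .nil))) .nil)) (.node (.node (.node .leaf (nat_lit 24190329553462654) (.br (nat_lit 1) (.cons (.br (nat_lit 5) (.cons (.rel (nat_lit 4329046032)) .nil)) .nil)) .leaf) (nat_lit 24190329553462803) (.br (nat_lit 1) (.cons (.br (nat_lit 3) (.cons (.rel (nat_lit 286265352)) (.cons (.rel (nat_lit 302137344)) .nil))) .nil)) .leaf) (nat_lit 24190329553463306) (.br (nat_lit 6) (.cons (.br (nat_lit 1) (.cons (.br (nat_lit 0) (.cons (.rel (nat_lit 17184325956)) (.cons (.rel (nat_lit 34368454722)) (.cons (.rel (nat_lit 34368128004)) (.cons (.rel (nat_lit 25169922)) (.cons (.rel (nat_lit 17184065544)) .nil)))))) (.cons (.rel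 (nat_lit 34376781828)) (.cons (.rel (nat_lit 17196941376)) .nil)))) (.cons (.br (nat_lit 3) (.cons (.rel (nat_lit 17448387072)) (.cons (.rel (nat_lit 17448304902)) (.cons (.rel (nat_lit 34896629760)) .nil)))) .nil))) (.node .leaf (nat_lit 24190329553479686) (.br (nat_lit 2) (.cons (.br (nat_lit 6) (.cons (.rel (nat_lit 34494283776)) (.cons (.rel (nat_lit 17247511569)) .nil))) (.cons (.br (nat_lit 3) (.cons (.rel (nat_lit 335544345)) (.cons (.rel (nat_lit 335544345)) .nil))) .nil))) .leaf))) (nat_lit 24190329553479690) (.br (nat_lit 6) (.cons (.br (nat_lit 1) (.cons (.rel (nat_lit 17196650517)) (.cons (.rel (nat_lit 17196647682)) .nil))) .nil)) (.node (.node (.node (.node .leaf (nat_lit 24190329553479711) (.br (nat_lit 2) (.cons (.br (nat_lit 6) (.cons (.rel (nat_lit 34494283776)) .nil)) .nil)) .leaf) (nat_lit 24190329553479931) (.br (nat_lit 0) (.cons (.br (nat_lit 3) (.cons (.rel (nat_lit 545260608)) .nil)) .nil)) .leaf) (nat_lit 24190329553480605) (.br (nat_lit 1) (.cons (.br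 (nat_lit 5) (.cons (.rel (nat_lit 4330622976)) .nil)) .nil)) (.node .leaf (nat_lit 24190329553481185) (.br (nat_lit 2) (.cons (.br (nat_lit 0) (.cons (.rel (nat_lit 71309568)) (.cons (.rel (nat_lit 142610436)) (.cons (.rel (nat_lit 71311368)) .nil)))) .nil)) .leaf)) (nat_lit 24190329553481753) (.br (nat_lit 0) (.cons (.br (nat_lit 2) (.cons (.rel (nat_lit 71335956)) .nil)) .nil)) (.node (.node (.node .leaf (nat_lit 24190329553482508) (.br (nat_lit 1) (.cons (.br (nat_lit 4) (.cons (.rel (nat_lit 1090521105)) (.cons (.rel (nat_lit 1090519080)) (.cons (.rel (nat_lit 1090535937)) (.cons (.rel (nat_lit 1090519080)) .nil))))) .nil)) .leaf) (nat_lit 24190329553482653) (.br (nat_lit 3) (.cons (.br (nat_lit 5) (.cons (.rel (nat_lit 9126809604)) .nil)) .nil)) .leaf) (nat_lit 24190329553530886) (.br (nat_lit 2) (.cons (.br (nat_lit 6) (.cons (.rel (nat_lit 34494283776)) .nil)) .nil)) (.node .leaf (nat_lit 24190329553530936) (.br (nat_lit 2) (.cons (.br (nat_lit 6) (.cons (.rel (nat_lit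 34494283776)) .nil)) .nil)) .leaf))))) (nat_lit 24190329553531641) (.br (nat_lit 3) (.cons (.br (nat_lit 6) (.cons (.rel (nat_lit 17448304902)) .nil)) .nil)) (.node (.node (.node (.node (.node (.node .leaf (nat_lit 24190329553531687) (.br (nat_lit 2) (.cons (.br (nat_lit 4) (.cons (.rel (nat_lit 1208057856)) (.cons (.rel (nat_lit 1141391361)) .nil))) .nil)) .leaf) (nat_lit 24190329553532265) (.br (nat_lit 3) (.cons (.br (nat_lit 5) (.cons (.rel (nat_lit 4563404292)) .nil)) .nil)) .leaf) (nat_lit 24190329553532435) (.br (nat_lit 2) (.cons (.br (nat_lit 3) (.cons (.rel (nat_lit 335545380)) .nil)) .nil)) (.node .leaf (nat_lit 24190329554198559) (.br (nat_lit 2) (.cons (.br (nat_lit 6) (.cons (.rel (nat_lit 17246978133)) .nil)) .nil)) .leaf)) (nat_lit 24190329554198779) (.br (nat_lit 2) (.cons (.br (nat_lit 3) (.cons (.rel (nat_lit 335568897)) (.cons (.rel (nat_lit 335546370)) .nil))) .nil)) (.node (.node (.node .leaf (nat_lit 24190329554200083) (.br (nat_lit 2) (.cons (.br (nat_lit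 5) (.cons (.rel (nat_lit 8724415488)) .nil)) .nil)) .leaf) (nat_lit 24190329554281253) (.br (nat_lit 0) (.cons (.br (nat_lit 5) (.cons (.rel (nat_lit 4299178002)) .nil)) .nil)) .leaf) (nat_lit 24190329554281335) (.br (nat_lit 0) (.cons (.br (nat_lit 3) (.cons (.rel (nat_lit 545260608)) .nil)) .nil)) (.node .leaf (nat_lit 24190329554434853) (.br (nat_lit 0) (.cons (.br (nat_lit 1) (.cons (.rel (nat_lit 20971656)) .nil)) .nil)) .leaf))) (nat_lit 24190329554447143) (.br (nat_lit 5) (.cons (.br (nat_lit 0) (.cons (.rel (nat_lit 4299162900)) (.cons (.rel (nat_lit 4299167760)) .nil))) .nil)) (.node (.node (.node (.node .leaf (nat_lit 24190329554452511) (.br (nat_lit 6) (.cons (.br (nat_lit 0) (.cons (.rel (nat_lit 17184063510)) (.cons (.rel (nat_lit 17184065544)) .nil))) .nil)) .leaf) (nat_lit 24190329554453367) (.br (nat_lit 5) (.cons (.br (nat_lit 3) (.cons (.rel (nat_lit 4563435540)) (.cons (.rel (nat_lit 4563410952)) .nil))) .nil)) .leaf) (nat_lit 24190329554453737) (.br (nat_lit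 5) (.cons (.br (nat_lit 1) (.cons (.rel (nat_lit 4312813632)) (.cons (.rel (nat_lit 4311777285)) .nil))) .nil)) (.node .leaf (nat_lit 24190329554453787) (.br (nat_lit 3) (.cons (.br (nat_lit 5) (.cons (.rel (nat_lit 4563404292)) .nil)) .nil)) .leaf)) (nat_lit 24190329554485279) (.br (nat_lit 0) (.cons (.br (nat_lit 1) (.cons (.rel (nat_lit 20971656)) (.cons (.rel (nat_lit 22347840)) .nil))) (.cons (.br (nat_lit 1) (.cons (.rel (nat_lit 22347840)) (.cons (.rel (nat_lit 20971656)) .nil))) .nil))) (.node (.node (.node .leaf (nat_lit 24190329554486003) (.br (nat_lit 0) (.cons (.br (nat_lit 1) (.cons (.rel (nat_lit 20971656)) .nil)) .nil)) .leaf) (nat_lit 24190329554486055) (.br (nat_lit 5) (.cons (.br (nat_lit 6) (.cons (.rel (nat_lit 38654722056)) .nil)) .nil)) .leaf) (nat_lit 24190329554493450) (.br (nat_lit 0) (.cons (.br (nat_lit 2) (.cons (.rel (nat_lit 71335956)) (.cons (.rel (nat_lit 71311368)) (.cons (.rel (nat_lit 71309568)) .nil)))) (.cons (.br (nat_lit 2) (.cons (.rel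 (nat_lit 138678288)) (.cons (.rel (nat_lit 138412161)) (.cons (.rel (nat_lit 71319810)) .nil)))) (.cons (.br (nat_lit 2) (.cons (.rel (nat_lit 71311368)) (.cons (.rel (nat_lit 71372802)) (.cons (.rel (nat_lit 71304708)) .nil)))) .nil)))) (.node .leaf (nat_lit 24190329554494195) (.br (nat_lit 1) (.cons (.br (nat_lit 2) (.cons (.rel (nat_lit 83888160)) (.cons (.rel (nat_lit 83902992)) .nil))) (.cons (.br (nat_lit 2) (.cons (.rel (nat_lit 167772165)) (.cons (.rel (nat_lit 83886090)) .nil))) .nil))) .leaf)))) (nat_lit 24190329554494200) (.br (nat_lit 1) (.cons (.br (nat_lit 2) (.cons (.rel (nat_lit 167772165)) (.cons (.rel (nat_lit 83888160)) .nil))) .nil)) (.node (.node (.node (.node (.node .leaf (nat_lit 24190329554494325) (.br (nat_lit 3) (.cons (.br (nat_lit 6) (.cons (.rel (nat_lit 17448305937)) .nil)) .nil)) .leaf) (nat_lit 24190329554503705) (.br (nat_lit 6) (.cons (.br (nat_lit 0) (.cons (.rel (nat_lit 17184064545)) (.cons (.rel (nat_lit 17184065544)) .nil))) .nil)) .leaf)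 (nat_lit 24190329554503835) (.br (nat_lit 2) (.cons (.br (nat_lit 3) (.cons (.rel (nat_lit 335545380)) .nil)) .nil)) (.node .leaf (nat_lit 24190329554504490) (.br (nat_lit 5) (.cons (.br (nat_lit 0) (.cons (.rel (nat_lit 4299178002)) (.cons (.rel (nat_lit 4299167760)) .nil))) .nil)) .leaf)) (nat_lit 24190329554505061) (.br (nat_lit 0) (.cons (.br (nat_lit 2) (.cons (.rel (nat_lit 71567424)) .nil)) .nil)) (.node (.node (.node .leaf (nat_lit 24190329554505086) (.br (nat_lit 0) (.cons (.br (nat_lit 3) (.cons (.rel (nat_lit 273688833)) (.cons (.rel (nat_lit 545260608)) .nil))) (.cons (.br (nat_lit 5) (.cons (.rel (nat_lit 4299161865)) (.cons (.rel (nat_lit 4299166725)) .nil))) .nil))) .leaf) (nat_lit 24190329554690353) (.br (nat_lit 2) (.cons (.br (nat_lit 0) (.cons (.rel (nat_lit 142610436)) (.cons (.rel (nat_lit 71304708)) (.cons (.rel (nat_lit 71372802)) .nil)))) .nil)) .leaf) (nat_lit 24190329554690803) (.br (nat_lit 3) (.cons (.br (nat_lit 5) (.cons (.rel (nat_lit 4563472386))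 .nil)) .nil)) (.node .leaf (nat_lit 24190329554690828) (.br (nat_lit 0) (.cons (.br (nat_lit 3) (.cons (.rel (nat_lit 276828177)) (.cons (.rel (nat_lit 276840453)) .nil))) (.cons (.br (nat_lit 5) (.cons (.rel (nat_lit 4299178002)) (.cons (.rel (nat_lit 4303360320)) (.cons (.rel (nat_lit 4299162900)) .nil)))) .nil))) .leaf))) (nat_lit 24190329554691303) (.br (nat_lit 3) (.cons (.br (nat_lit 0) (.cons (.rel (nat_lit 272631936)) (.cons (.rel (nat_lit 273679380)) .nil))) .nil)) (.node (.node (.node (.node .leaf (nat_lit 24190329554691603) (.br (nat_lit 1) (.cons (.br (nat_lit 3) (.cons (.rel (nat_lit 285229185)) .nil)) .nil)) .leaf) (nat_lit 24190329554700545) (.br (nat_lit 4) (.cons (.br (nat_lit 6) (.cons (.rel (nat_lit 19327357956)) .nil)) .nil)) .leaf) (nat_lit 24190329554701040) (.br (nat_lit 0) (.cons (.br (nat_lit 3) (.cons (.rel (nat_lit 272892168)) .nil)) .nil)) (.node .leaf (nat_lit 24190329554712731) (.br (nat_lit 1) (.cons (.br (nat_lit 5) (.cons (.rel (nat_lit 4311777285))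 (.cons (.rel (nat_lit 4311748872)) .nil))) (.cons (.br (nat_lit 5) (.cons (.rel (nat_lit 4312006728)) (.cons (.rel (nat_lit 8623490304)) .nil))) .nil))) .leaf)) (nat_lit 24190329554713212) (.br (nat_lit 2) (.cons (.br (nat_lit 3) (.cons (.rel (nat_lit 335546370)) .nil)) .nil)) (.node (.node (.node .leaf (nat_lit 24190329554713883) (.br (nat_lit 2) (.cons (.br (nat_lit 3) (.cons (.rel (nat_lit 335546370)) (.cons (.rel (nat_lit 335546370)) .nil))) .nil)) .leaf) (nat_lit 24190329554714081) (.br (nat_lit 5) (.cons (.br (nat_lit 0) (.cons (.rel (nat_lit 4299178002)) (.cons (.rel (nat_lit 4299325440)) (.cons (.rel (nat_lit 4299178002)) (.cons (.rel (nat_lit 8598405120)) .nil))))) .nil)) .leaf) (nat_lit 24190329554740600) (.br (nat_lit 1) (.cons (.br (nat_lit 0) (.cons (.rel (nat_lit 41943108)) (.cons (.rel (nat_lit 41943108)) (.cons (.rel (nat_lit 37756929)) .nil)))) .nil)) (.node .leaf (nat_lit 24190329555458104) (.br (nat_lit 0) (.cons (.br (nat_lit 3) (.cons (.rel (nat_lit 545260608))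 (.cons (.rel (nat_lit 273678345)) .nil))) (.cons (.br (nat_lit 3) (.cons (.rel (nat_lit 272908305)) (.cons (.rel (nat_lit 273956928)) .nil))) .nil))) .leaf)))))) (nat_lit 24190329555458203) (.br (nat_lit 3) (.cons (.br (nat_lit 6) (.cons (.rel (nat_lit 17716740168)) .nil)) .nil)) (.node (.node (.node (.node (.node (.node (.node .leaf (nat_lit 24190329555458954) (.br (nat_lit 1) (.cons (.br (nat_lit 3) (.cons (.rel (nat_lit 285229185)) .nil)) .nil)) .leaf) (nat_lit 24190329555478553) (.br (nat_lit 1) (.cons (.br (nat_lit 3) (.cons (.br (nat_lit 6) (.cons (.rel (nat_lit 17718116352)) .nil)) .nil)) .nil)) .leaf) (nat_lit 24190329555478833) (.br (nat_lit 3) (.cons (.br (nat_lit 1) (.cons (.rel (nat_lit 285495312)) (.cons (.rel (nat_lit 553746432)) .nil))) .nil)) (.node .leaf (nat_lit 24190329555480882) (.br (nat_lit 1) (.cons (.br (nat_lit 3) (.cons (.rel (nat_lit 286265352)) (.cons (.rel (nat_lit 553914432)) .nil))) .nil)) .leaf)) (nat_lit 24190329555509304) (.br (nat_lit 1) (.cons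 (.br (nat_lit 3) (.cons (.rel (nat_lit 285507588)) (.cons (.rel (nat_lit 302137344)) .nil))) .nil)) (.node (.node (.node .leaf (nat_lit 24190329555510499) (.br (nat_lit 5) (.cons (.br (nat_lit 0) (.cons (.rel (nat_lit 4299493440)) (.cons (.rel (nat_lit 8594653248)) .nil))) .nil)) .leaf) (nat_lit 24190329555714058) (.br (nat_lit 0) (.cons (.br (nat_lit 2) (.cons (.rel (nat_lit 71319810)) (.cons (.rel (nat_lit 71304708)) (.cons (.br (nat_lit 4) (.cons (.rel (nat_lit 1143017472)) (.cons (.rel (nat_lit 1077940488)) (.cons (.rel (nat_lit 1077938688)) (.cons (.rel (nat_lit 1077968901)) (.cons (.rel (nat_lit 1083441408)) (.cons (.rel (nat_lit 1077968901)) .nil))))))) (.cons (.rel (nat_lit 71319810)) (.cons (.rel (nat_lit 142610436)) (.cons (.rel (nat_lit 142610436)) .nil))))))) (.cons (.br (nat_lit 2) (.cons (.rel (nat_lit 71372802)) (.cons (.br (nat_lit 4) (.cons (.rel (nat_lit 1140883524)) (.cons (.rel (nat_lit 2152726530)) (.cons (.rel (nat_lit 2214739968)) (.cons (.rel (nat_lit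 1084227585)) (.cons (.rel (nat_lit 1141391361)) (.cons (.rel (nat_lit 1140871248)) .nil))))))) (.cons (.rel (nat_lit 142610436)) (.cons (.rel (nat_lit 71311368)) (.cons (.rel (nat_lit 71311368)) (.cons (.br (nat_lit 1) (.cons (.rel (nat_lit 109117440)) (.cons (.rel (nat_lit 83887125)) (.cons (.rel (nat_lit 25169922)) (.cons (.rel (nat_lit 25231365)) (.cons (.rel (nat_lit 167773200)) (.cons (.rel (nat_lit 167772165)) (.cons (.rel (nat_lit 83886090)) .nil)))))))) .nil))))))) .nil))) .leaf) (nat_lit 24190329555714203) (.br (nat_lit 0) (.cons (.br (nat_lit 5) (.cons (.rel (nat_lit 4299178002)) (.cons (.rel (nat_lit 4299325440)) (.cons (.rel (nat_lit 4299166725)) (.cons (.rel (nat_lit 4303360320)) .nil))))) (.cons (.br (nat_lit 5) (.cons (.rel (nat_lit 4299325440)) (.cons (.rel (nat_lit 8598405120)) (.cons (.rel (nat_lit 4303618176)) (.cons (.rel (nat_lit 4303618176)) .nil))))) (.cons (.br (nat_lit 5) (.cons (.rel (nat_lit 4303618176)) (.cons (.rel (nat_lit 4299161865)) (.cons (.rel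 (nat_lit 4299167760)) (.cons (.rel (nat_lit 4299162900)) .nil))))) .nil)))) (.node .leaf (nat_lit 24190329555714210) (.br (nat_lit 0) (.cons (.br (nat_lit 3) (.cons (.rel (nat_lit 276840453)) .nil)) .nil)) .leaf))) (nat_lit 24190329555714800) (.br (nat_lit 1) (.cons (.br (nat_lit 2) (.cons (.rel (nat_lit 83888160)) (.cons (.rel (nat_lit 84935748)) .nil))) .nil)) (.node (.node (.node (.node .leaf (nat_lit 24190329555714803) (.br (nat_lit 0) (.cons (.br (nat_lit 1) (.cons (.rel (nat_lit 21239808)) .nil)) .nil)) .leaf) (nat_lit 24190329555714809) (.br (nat_lit 4) (.cons (.br (nat_lit 2) (.cons (.rel (nat_lit 1140871248)) (.cons (.rel (nat_lit 1140871248)) .nil))) .nil)) .leaf) (nat_lit 24190329555714828) (.br (nat_lit 0) (.cons (.br (nat_lit 5) (.cons (.rel (nat_lit 4299325440)) (.cons (.rel (nat_lit 8595243012)) (.cons (.rel (nat_lit 8598405120)) .nil)))) .nil)) (.node .leaf (nat_lit 24190329555714834) (.br (nat_lit 1) (.cons (.br (nat_lit 3) (.cons (.rel (nat_lit 286326786))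 (.cons (.rel (nat_lit 302137344)) (.cons (.rel (nat_lit 285507588)) .nil)))) (.cons (.br (nat_lit 2) (.cons (.rel (nat_lit 167772165)) (.cons (.rel (nat_lit 83959809)) (.cons (.rel (nat_lit 100671552)) (.cons (.rel (nat_lit 101974017)) .nil))))) .nil))) .leaf)) (nat_lit 24190329555714853) (.br (nat_lit 1) (.cons (.br (nat_lit 0) (.cons (.br (nat_lit 6) (.cons (.rel (nat_lit 17184063510)) (.cons (.rel (nat_lit 34368128004)) (.cons (.rel (nat_lit 17201430528)) (.cons (.rel (nat_lit 17198220288)) (.cons (.rel (nat_lit 17201430528)) (.cons (.rel (nat_lit 17214750720)) (.cons (.rel (nat_lit 34376781828)) (.cons (.rel (nat_lit 34368128004)) .nil))))))))) (.cons (.rel (nat_lit 41943108)) .nil))) .nil)) (.node (.node (.node .leaf (nat_lit 24190329555714973) (.br (nat_lit 5) (.cons (.br (nat_lit 4) (.cons (.rel (nat_lit 5369823360)) (.cons (.rel (nat_lit 5370822672)) .nil))) .nil)) .leaf) (nat_lit 24190329555715303) (.br (nat_lit 0) (.cons (.br (nat_lit 1) (.cons (.rel (nat_lit 22036992))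 (.cons (.rel (nat_lit 20971656)) .nil))) (.cons (.br (nat_lit 2) (.cons (.rel (nat_lit 72892416)) (.cons (.rel (nat_lit 142610436)) (.cons (.rel (nat_lit 71335956)) (.cons (.rel (nat_lit 71372802)) (.cons (.rel (nat_lit 142610436)) (.cons (.rel (nat_lit 71335956)) (.cons (.rel (nat_lit 71311368)) .nil)))))))) .nil))) .leaf) (nat_lit 24190329555715305) (.br (nat_lit 0) (.cons (.br (nat_lit 6) (.cons (.rel (nat_lit 17184096513)) .nil)) .nil)) (.node .leaf (nat_lit 24190329555715310) (.br (nat_lit 1) (.cons (.br (nat_lit 2) (.cons (.rel (nat_lit 83886090)) (.cons (.rel (nat_lit 167772165)) (.cons (.rel (nat_lit 83886090)) .nil)))) .nil)) .leaf)))) (nat_lit 24190329555715353) (.br (nat_lit 1) (.cons (.br (nat_lit 3) (.cons (.br (nat_lit 4) (.cons (.rel (nat_lit 2416189440)) (.cons (.rel (nat_lit 1611141120)) (.cons (.rel (nat_lit 2684354565)) (.cons (.rel (nat_lit 1090519080)) .nil))))) (.cons (.br (nat_lit 5) (.cons (.rel (nat_lit 9126809604)) (.cons (.rel (nat_lit 8623490304))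 (.cons (.rel (nat_lit 4563410952)) .nil)))) .nil))) (.cons (.br (nat_lit 5) (.cons (.rel (nat_lit 4311747072)) (.cons (.rel (nat_lit 4311747072)) (.cons (.br (nat_lit 3) (.cons (.rel (nat_lit 9126809604)) (.cons (.rel (nat_lit 4563410952)) .nil))) .nil)))) .nil))) (.node (.node (.node (.node (.node .leaf (nat_lit 24190329555715553) (.br (nat_lit 5) (.cons (.br (nat_lit 3) (.cons (.rel (nat_lit 4563472386)) (.cons (.rel (nat_lit 4563410952)) (.cons (.rel (nat_lit 9126809604)) (.cons (.rel (nat_lit 4831842384)) (.cons (.rel (nat_lit 4563410952)) (.cons (.rel (nat_lit 9126809604)) .nil))))))) (.cons (.br (nat_lit 3) (.cons (.rel (nat_lit 4563472386)) (.cons (.rel (nat_lit 9126809604)) (.cons (.rel (nat_lit 4563404292)) (.cons (.rel (nat_lit 4563419394)) (.cons (.rel (nat_lit 4563410952)) (.cons (.rel (nat_lit 4563435540)) .nil))))))) .nil))) .leaf) (nat_lit 24190329555715603) (.br (nat_lit 1) (.cons (.br (nat_lit 3) (.cons (.rel (nat_lit 286277664)) (.cons (.rel (nat_lit 286263552))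 .nil))) .nil)) .leaf) (nat_lit 24190329555776273) (.br (nat_lit 0) (.cons (.br (nat_lit 3) (.cons (.rel (nat_lit 545260608)) .nil)) .nil)) (.node .leaf (nat_lit 24190329555838986) (.br (nat_lit 2) (.cons (.br (nat_lit 4) (.cons (.rel (nat_lit 1140871248)) .nil)) .nil)) .leaf)) (nat_lit 24190329555839032) (.br (nat_lit 4) (.cons (.br (nat_lit 2) (.cons (.rel (nat_lit 2282755089)) (.cons (.rel (nat_lit 1207968000)) .nil))) .nil)) (.node (.node (.node .leaf (nat_lit 24190329555839283) (.br (nat_lit 0) (.cons (.br (nat_lit 5) (.cons (.rel (nat_lit 4299325440)) .nil)) .nil)) .leaf) (nat_lit 24190329555839736) (.br (nat_lit 1) (.cons (.br (nat_lit 2) (.cons (.rel (nat_lit 83886090)) .nil)) .nil)) .leaf) (nat_lit 24190329555840481) (.br (nat_lit 4) (.cons (.br (nat_lit 2) (.cons (.rel (nat_lit 1207960584)) (.cons (.rel (nat_lit 1140883524)) (.cons (.rel (nat_lit 1140883524)) .nil)))) (.cons (.br (nat_lit 2) (.cons (.rel (nat_lit 1141391361)) (.cons (.rel (nat_lit 1140871248)) (.cons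 (.rel (nat_lit 1140871248)) .nil)))) .nil))) (.node .leaf (nat_lit 24190329555970058) (.br (nat_lit 0) (.cons (.br (nat_lit 1) (.cons (.rel (nat_lit 21234948)) .nil)) .nil)) .leaf))) (nat_lit 24190329556022029) (.br (nat_lit 4) (.cons (.br (nat_lit 6) (.cons (.rel (nat_lit 18253693248)) .nil)) .nil)) (.node (.node (.node (.node .leaf (nat_lit 24190329556022510) (.br (nat_lit 3) (.cons (.br (nat_lit 1) (.cons (.rel (nat_lit 301989906)) (.cons (.rel (nat_lit 285229185)) .nil))) .nil)) .leaf) (nat_lit 24190329556041759) (.br (nat_lit 4) (.cons (.br (nat_lit 6) (.cons (.rel (nat_lit 18254925828)) .nil)) .nil)) .leaf) (nat_lit 24190332428813793) (.br (nat_lit 5) (.cons (.br (nat_lit 0) (.cons (.rel (nat_lit 4299166725)) (.cons (.rel (nat_lit 4299162900)) .nil))) .nil)) (.node .leaf (nat_lit 24190332699138853) (.br (nat_lit 1) (.cons (.br (nat_lit 2) (.cons (.rel (nat_lit 150999168)) .nil)) .nil)) .leaf)) (nat_lit 24190332699139553) (.br (nat_lit 0) (.cons (.br (nat_lit 5) (.cons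 (.rel (nat_lit 4299325440)) .nil)) .nil)) (.node (.node (.node .leaf (nat_lit 24190332699190753) (.br (nat_lit 1) (.cons (.br (nat_lit 2) (.cons (.rel (nat_lit 83959809)) .nil)) .nil)) .leaf) (nat_lit 24190332701442853) (.br (nat_lit 0) (.cons (.br (nat_lit 5) (.cons (.rel (nat_lit 4299325440)) .nil)) .nil)) .leaf) (nat_lit 24190333327772428) (.br (nat_lit 0) (.cons (.br (nat_lit 5) (.cons (.rel (nat_lit 8598405120)) (.cons (.rel (nat_lit 8594653248)) .nil))) .nil)) (.node .leaf (nat_lit 24190333327772953) (.br (nat_lit 0) (.cons (.br (nat_lit 5) (.cons (.rel (nat_lit 4299325440)) .nil)) .nil)) .leaf))))) (nat_lit 24190333327896731) (.br (nat_lit 5) (.cons (.br (nat_lit 0) (.cons (.rel (nat_lit 4299227169)) (.cons (.rel (nat_lit 4299440448)) .nil))) .nil)) (.node (.node (.node (.node (.node (.node .leaf (nat_lit 24190333328336906) (.br (nat_lit 6) (.cons (.br (nat_lit 2) (.cons (.rel (nat_lit 34426856448)) (.cons (.rel (nat_lit 17246978133)) (.cons (.rel (nat_lit 34427109444))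 .nil)))) .nil)) .leaf) (nat_lit 24190333328353286) (.br (nat_lit 5) (.cons (.br (nat_lit 6) (.cons (.rel (nat_lit 38654706945)) .nil)) .nil)) .leaf) (nat_lit 24190333328354040) (.br (nat_lit 0) (.cons (.br (nat_lit 6) (.cons (.rel (nat_lit 17184072960)) (.cons (.rel (nat_lit 34368128004)) .nil))) (.cons (.br (nat_lit 6) (.cons (.rel (nat_lit 17184065544)) (.cons (.rel (nat_lit 17188323408)) .nil))) .nil))) (.node .leaf (nat_lit 24190333328356253) (.br (nat_lit 0) (.cons (.br (nat_lit 2) (.cons (.rel (nat_lit 142610436)) .nil)) .nil)) .leaf)) (nat_lit 24190333329367050) (.br (nat_lit 1) (.cons (.br (nat_lit 4) (.cons (.rel (nat_lit 1092894720)) (.cons (.rel (nat_lit 1090585104)) .nil))) (.cons (.br (nat_lit 4) (.cons (.rel (nat_lit 2183401476)) (.cons (.rel (nat_lit 1090519080)) .nil))) .nil))) (.node (.node (.node .leaf (nat_lit 24190333329368295) (.br (nat_lit 1) (.cons (.br (nat_lit 3) (.cons (.rel (nat_lit 286277664)) .nil)) .nil)) .leaf) (nat_lit 24190333329378090) (.br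 (nat_lit 0) (.cons (.br (nat_lit 1) (.cons (.rel (nat_lit 22021125)) .nil)) .nil)) .leaf) (nat_lit 24190333329564428) (.br (nat_lit 0) (.cons (.br (nat_lit 1) (.cons (.rel (nat_lit 25231365)) .nil)) .nil)) (.node .leaf (nat_lit 24190333329586331) (.br (nat_lit 5) (.cons (.br (nat_lit 1) (.cons (.rel (nat_lit 4311748872)) (.cons (.rel (nat_lit 4311765009)) .nil))) .nil)) .leaf))) (nat_lit 24190333329587461) (.br (nat_lit 2) (.cons (.br (nat_lit 3) (.cons (.rel (nat_lit 335545380)) .nil)) .nil)) (.node (.node (.node (.node .leaf (nat_lit 24190333330331704) (.br (nat_lit 1) (.cons (.br (nat_lit 2) (.cons (.rel (nat_lit 83886090)) .nil)) .nil)) .leaf) (nat_lit 24190333330332554) (.br (nat_lit 1) (.cons (.br (nat_lit 2) (.cons (.rel (nat_lit 167773200)) .nil)) .nil)) .leaf) (nat_lit 24190333330333054) (.br (nat_lit 0) (.cons (.br (nat_lit 1) (.cons (.rel (nat_lit 41943108)) .nil)) .nil)) (.node .leaf (nat_lit 24190333330352153) (.br (nat_lit 0) (.cons (.br (nat_lit 2) (.cons (.rel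 (nat_lit 71311368)) .nil)) .nil)) .leaf)) (nat_lit 24190333330587803) (.br (nat_lit 3) (.cons (.br (nat_lit 5) (.cons (.rel (nat_lit 9126809604)) (.cons (.rel (nat_lit 4563410952)) .nil))) (.cons (.br (nat_lit 5) (.cons (.rel (nat_lit 4563410952)) (.cons (.rel (nat_lit 4563410952)) .nil))) .nil))) (.node (.node (.node .leaf (nat_lit 24190333330588428) (.br (nat_lit 1) (.cons (.br (nat_lit 3) (.cons (.rel (nat_lit 285229185)) (.cons (.rel (nat_lit 286265352)) .nil))) .nil)) .leaf) (nat_lit 24190333330588953) (.br (nat_lit 0) (.cons (.br (nat_lit 5) (.cons (.rel (nat_lit 4299325440)) (.cons (.rel (nat_lit 8598405120)) .nil))) .nil)) .leaf) (nat_lit 24190333330589153) (.br (nat_lit 5) (.cons (.br (nat_lit 0) (.cons (.rel (nat_lit 4299161865)) (.cons (.rel (nat_lit 4299325440)) (.cons (.rel (nat_lit 8598405120)) .nil)))) (.cons (.br (nat_lit 0) (.cons (.rel (nat_lit 8598405120)) (.cons (.rel (nat_lit 8598405120)) (.cons (.rel (nat_lit 4299161865)) .nil)))) .nil))) (.node .leaf (nat_lit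 24190335058641051) (.br (nat_lit 0) (.cons (.br (nat_lit 1) (.cons (.rel (nat_lit 22021125)) .nil)) .nil)) .leaf)))) (nat_lit 24190335529906331) (.br (nat_lit 1) (.cons (.br (nat_lit 5) (.cons (.rel (nat_lit 4311748872)) .nil)) .nil)) (.node (.node (.node (.node (.node .leaf (nat_lit 24190335530293304) (.br (nat_lit 1) (.cons (.br (nat_lit 6) (.cons (.rel (nat_lit 17196736512)) .nil)) .nil)) .leaf) (nat_lit 24190335530344454) (.br (nat_lit 1) (.cons (.br (nat_lit 2) (.cons (.rel (nat_lit 83888160)) .nil)) .nil)) .leaf) (nat_lit 24190335530346506) (.br (nat_lit 6) (.cons (.br (nat_lit 0) (.cons (.rel (nat_lit 34368128004)) (.cons (.rel (nat_lit 17184065544)) .nil))) .nil)) (.node .leaf (nat_lit 24190335530364385) (.br (nat_lit 1) (.cons (.br (nat_lit 2) (.cons (.rel (nat_lit 83955984)) .nil)) .nil)) .leaf)) (nat_lit 24190335530365853) (.br (nat_lit 1) (.cons (.br (nat_lit 5) (.cons (.rel (nat_lit 4312006728)) .nil)) .nil)) (.node (.node (.node .leaf (nat_lit 24190335531174043)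 (.br (nat_lit 0) (.cons (.br (nat_lit 1) (.cons (.rel (nat_lit 25169922)) .nil)) .nil)) .leaf) (nat_lit 24190335531318654) (.br (nat_lit 3) (.cons (.br (nat_lit 5) (.cons (.rel (nat_lit 4563410952)) .nil)) .nil)) .leaf) (nat_lit 24190335531574028) (.br (nat_lit 0) (.cons (.br (nat_lit 1) (.cons (.rel (nat_lit 22089984)) .nil)) .nil)) (.node .leaf (nat_lit 24190335531595931) (.br (nat_lit 1) (.cons (.br (nat_lit 5) (.cons (.rel (nat_lit 4311748872)) .nil)) .nil)) .leaf))) (nat_lit 24190335531597302) (.br (nat_lit 1) (.cons (.br (nat_lit 2) (.cons (.rel (nat_lit 84935748)) .nil)) .nil)) (.node (.node (.node (.node .leaf (nat_lit 24190335531623325) (.br (nat_lit 1) (.cons (.br (nat_lit 5) (.cons (.rel (nat_lit 8623490304)) .nil)) .nil)) .leaf) (nat_lit 24190335532597258) (.br (nat_lit 4) (.cons (.br (nat_lit 2) (.cons (.rel (nat_lit 1140982848)) (.cons (.rel (nat_lit 1143017472)) (.cons (.rel (nat_lit 1140883524)) .nil)))) (.cons (.br (nat_lit 2) (.cons (.rel (nat_lit 1141391361))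 (.cons (.rel (nat_lit 2282815497)) (.cons (.rel (nat_lit 1140916545)) .nil)))) .nil))) .leaf) (nat_lit 24190335532597403) (.br (nat_lit 0) (.cons (.br (nat_lit 3) (.cons (.rel (nat_lit 272892168)) (.cons (.rel (nat_lit 272892168)) (.cons (.br (nat_lit 5) (.cons (.rel (nat_lit 9126809604)) (.cons (.rel (nat_lit 4299161865)) (.cons (.rel (nat_lit 8598405120)) .nil)))) .nil)))) (.cons (.br (nat_lit 5) (.cons (.rel (nat_lit 4299227169)) (.cons (.rel (nat_lit 4299166725)) (.cons (.rel (nat_lit 4299162900)) .nil)))) .nil))) (.node .leaf (nat_lit 24190335532598000) (.br (nat_lit 0) (.cons (.br (nat_lit 3) (.cons (.rel (nat_lit 276840453)) (.cons (.rel (nat_lit 272892168)) .nil))) .nil)) .leaf)) (nat_lit 24190335532598028) (.br (nat_lit 5) (.cons (.br (nat_lit 6) (.cons (.rel (nat_lit 21474844740)) .nil)) .nil)) (.node (.node (.node .leaf (nat_lit 24190335532598553) (.br (nat_lit 0) (.cons (.br (nat_lit 1) (.cons (.rel (nat_lit 25231365)) .nil)) .nil)) .leaf) (nat_lit 24190335532598559)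 (.br (nat_lit 0) (.cons (.br (nat_lit 1) (.cons (.rel (nat_lit 20971656)) .nil)) .nil)) .leaf) (nat_lit 24190335532598753) (.br (nat_lit 1) (.cons (.br (nat_lit 5) (.cons (.rel (nat_lit 4311777285)) (.cons (.rel (nat_lit 8623490304)) .nil))) .nil)) (.node .leaf (nat_lit 24190335532723681) (.br (nat_lit 2) (.cons (.br (nat_lit 4) (.cons (.rel (nat_lit 1141391361)) .nil)) .nil)) .leaf)))))))

/-- refutations 99 -/
def e99 : EX := (.node (.node (.node (.node (.node (.node (.node .leaf (nat_lit 24190544406121203) (.br (nat_lit 0) (.cons (.br (nat_lit 1) (.cons (.rel (nat_lit 26214720)) .nil)) .nil)) .leaf) (nat_lit 24190544406121253) (.br (nat_lit 0) (.cons (.br (nat_lit 2) (.cons (.rel (nat_lit 138678288)) (.cons (.rel (nat_lit 142610436)) (.cons (.rel (nat_lit 71335956)) .nil)))) .nil)) .leaf) (nat_lit 24190544406121333) (.br (nat_lit 2) (.cons (.br (nat_lit 5) (.cons (.rel (nat_lit 8657047569)) .nil)) .nil)) (.node (.node .leaf (nat_lit 24190544406121703) (.br (nat_lit 0) (.cons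 (.br (nat_lit 3) (.cons (.rel (nat_lit 276824352)) .nil)) .nil)) .leaf) (nat_lit 24190544406653813) (.br (nat_lit 0) (.cons (.br (nat_lit 1) (.cons (.rel (nat_lit 22036992)) .nil)) .nil)) .leaf)) (nat_lit 24190544406683654) (.br (nat_lit 3) (.cons (.br (nat_lit 0) (.cons (.rel (nat_lit 272908305)) (.cons (.rel (nat_lit 545260608)) (.cons (.rel (nat_lit 272892168)) .nil)))) .nil)) (.node (.node (.node .leaf (nat_lit 24190544406684408) (.br (nat_lit 5) (.cons (.br (nat_lit 6) (.cons (.rel (nat_lit 21474844740)) .nil)) .nil)) .leaf) (nat_lit 24190544406684433) (.br (nat_lit 0) (.cons (.br (nat_lit 2) (.cons (.rel (nat_lit 75497538)) (.cons (.rel (nat_lit 142610436)) .nil))) .nil)) .leaf) (nat_lit 24190544406684585) (.br (nat_lit 3) (.cons (.br (nat_lit 5) (.cons (.rel (nat_lit 9126809604)) .nil)) .nil)) (.node (.node .leaf (nat_lit 24190544406685054) (.br (nat_lit 1) (.cons (.br (nat_lit 3) (.cons (.rel (nat_lit 285495312)) .nil)) .nil)) .leaf) (nat_lit 24190544406685706) (.br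 (nat_lit 1) (.cons (.br (nat_lit 5) (.cons (.rel (nat_lit 8607768576)) (.cons (.br (nat_lit 3) (.cons (.rel (nat_lit 4563409152)) (.cons (.rel (nat_lit 4831854660)) .nil))) (.cons (.rel (nat_lit 8623490304)) .nil)))) (.cons (.br (nat_lit 3) (.cons (.rel (nat_lit 302137344)) (.cons (.rel (nat_lit 553656576)) .nil))) .nil))) .leaf))) (nat_lit 24190544406686581) (.br (nat_lit 3) (.cons (.br (nat_lit 6) (.cons (.rel (nat_lit 17448321048)) .nil)) .nil)) (.node (.node (.node (.node .leaf (nat_lit 24190544406702086) (.br (nat_lit 2) (.cons (.br (nat_lit 6) (.cons (.rel (nat_lit 34494283776)) .nil)) .nil)) .leaf) (nat_lit 24190544406702111) (.br (nat_lit 6) (.cons (.br (nat_lit 5) (.cons (.rel (nat_lit 25769824272)) (.cons (.rel (nat_lit 21474869328)) .nil))) .nil)) .leaf) (nat_lit 24190544406703365) (.br (nat_lit 0) (.cons (.br (nat_lit 3) (.cons (.rel (nat_lit 272631936)) (.cons (.rel (nat_lit 273679380)) .nil))) .nil)) (.node (.node .leaf (nat_lit 24190544406707603) (.br (nat_lit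 0) (.cons (.br (nat_lit 1) (.cons (.rel (nat_lit 22036992)) .nil)) .nil)) .leaf) (nat_lit 24190544406754087) (.br (nat_lit 2) (.cons (.br (nat_lit 5) (.cons (.rel (nat_lit 8724415488)) .nil)) .nil)) .leaf)) (nat_lit 24190544406754090) (.br (nat_lit 0) (.cons (.br (nat_lit 1) (.cons (.rel (nat_lit 21234948)) .nil)) .nil)) (.node (.node (.node .leaf (nat_lit 24190544407420984) (.br (nat_lit 2) (.cons (.br (nat_lit 4) (.cons (.rel (nat_lit 1142964480)) .nil)) .nil)) .leaf) (nat_lit 24190544407422483) (.br (nat_lit 2) (.cons (.br (nat_lit 6) (.cons (.rel (nat_lit 34426880001)) .nil)) .nil)) .leaf) (nat_lit 24190544407503785) (.br (nat_lit 0) (.cons (.br (nat_lit 1) (.cons (.rel (nat_lit 21250050)) .nil)) .nil)) (.node (.node .leaf (nat_lit 24190544407675690) (.br (nat_lit 0) (.cons (.br (nat_lit 1) (.cons (.rel (nat_lit 22036992)) (.cons (.rel (nat_lit 41943108)) .nil))) .nil)) .leaf) (nat_lit 24190544407676137) (.br (nat_lit 3) (.cons (.br (nat_lit 5) (.cons (.rel (nat_lit 9126805782))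 .nil)) .nil)) .leaf)))) (nat_lit 24190544407716595) (.br (nat_lit 3) (.cons (.br (nat_lit 2) (.cons (.rel (nat_lit 402919680)) (.cons (.rel (nat_lit 335546370)) .nil))) .nil)) (.node (.node (.node (.node (.node .leaf (nat_lit 24190544407727461) (.br (nat_lit 5) (.cons (.br (nat_lit 6) (.cons (.rel (nat_lit 21475361028)) .nil)) .nil)) .leaf) (nat_lit 24190544407912753) (.br (nat_lit 0) (.cons (.br (nat_lit 3) (.cons (.rel (nat_lit 273699072)) .nil)) .nil)) .leaf) (nat_lit 24190544407913203) (.br (nat_lit 1) (.cons (.br (nat_lit 3) (.cons (.rel (nat_lit 553656576)) (.cons (.rel (nat_lit 301989906)) .nil))) (.cons (.br (nat_lit 3) (.cons (.rel (nat_lit 302252352)) (.cons (.rel (nat_lit 285495312)) .nil))) .nil))) (.node (.node .leaf (nat_lit 24190544407913228) (.br (nat_lit 0) (.cons (.br (nat_lit 1) (.cons (.rel (nat_lit 22021125)) (.cons (.rel (nat_lit 37756929)) .nil))) (.cons (.br (nat_lit 4) (.cons (.rel (nat_lit 1077956625)) (.cons (.rel (nat_lit 1079574528)) (.cons (.rel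 (nat_lit 1082130528)) .nil)))) .nil))) .leaf) (nat_lit 24190544407913253) (.br (nat_lit 0) (.cons (.br (nat_lit 2) (.cons (.rel (nat_lit 71335956)) (.cons (.rel (nat_lit 142610436)) (.cons (.rel (nat_lit 138678288)) .nil)))) .nil)) .leaf)) (nat_lit 24190544407913703) (.br (nat_lit 0) (.cons (.br (nat_lit 1) (.cons (.rel (nat_lit 22022160)) .nil)) .nil)) (.node (.node (.node .leaf (nat_lit 24190544407913753) (.br (nat_lit 3) (.cons (.br (nat_lit 5) (.cons (.rel (nat_lit 4563485697)) (.cons (.rel (nat_lit 9126809604)) .nil))) (.cons (.br (nat_lit 0) (.cons (.rel (nat_lit 545260608)) (.cons (.rel (nat_lit 272631936)) (.cons (.rel (nat_lit 541069569)) .nil)))) .nil))) .leaf) (nat_lit 24190544407923973) (.br (nat_lit 0) (.cons (.br (nat_lit 6) (.cons (.rel (nat_lit 17184325956)) .nil)) .nil)) .leaf) (nat_lit 24190544407924069) (.br (nat_lit 1) (.cons (.br (nat_lit 2) (.cons (.rel (nat_lit 167772165)) .nil)) .nil)) (.node (.node .leaf (nat_lit 24190544407962857) (.br (nat_lit 2) (.cons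 (.br (nat_lit 4) (.cons (.rel (nat_lit 1143017472)) .nil)) .nil)) .leaf) (nat_lit 24190544408680454) (.br (nat_lit 3) (.cons (.br (nat_lit 0) (.cons (.rel (nat_lit 545260608)) (.cons (.rel (nat_lit 272908305)) (.cons (.rel (nat_lit 541069569)) .nil)))) .nil)) .leaf))) (nat_lit 24190544408680708) (.br (nat_lit 2) (.cons (.br (nat_lit 3) (.cons (.rel (nat_lit 335546370)) .nil)) .nil)) (.node (.node (.node (.node .leaf (nat_lit 24190544408681835) (.br (nat_lit 2) (.cons (.br (nat_lit 0) (.cons (.rel (nat_lit 75497538)) (.cons (.rel (nat_lit 138690564)) .nil))) .nil)) .leaf) (nat_lit 24190544408704288) (.br (nat_lit 2) (.cons (.br (nat_lit 3) (.cons (.rel (nat_lit 335546370)) .nil)) .nil)) .leaf) (nat_lit 24190544408731679) (.br (nat_lit 0) (.cons (.br (nat_lit 1) (.cons (.rel (nat_lit 41943108)) .nil)) .nil)) (.node (.node .leaf (nat_lit 24190544408936458) (.br (nat_lit 0) (.cons (.br (nat_lit 5) (.cons (.rel (nat_lit 4299325440)) (.cons (.rel (nat_lit 8594653248)) (.cons (.rel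 (nat_lit 8594653248)) .nil)))) .nil)) .leaf) (nat_lit 24190544408936708) (.br (nat_lit 0) (.cons (.br (nat_lit 1) (.cons (.rel (nat_lit 20971656)) .nil)) .nil)) .leaf)) (nat_lit 24190544408937203) (.br (nat_lit 0) (.cons (.br (nat_lit 5) (.cons (.rel (nat_lit 8595181569)) .nil)) .nil)) (.node (.node (.node .leaf (nat_lit 24190544408937253) (.br (nat_lit 0) (.cons (.br (nat_lit 3) (.cons (.rel (nat_lit 276824352)) .nil)) .nil)) .leaf) (nat_lit 24190544408937703) (.br (nat_lit 3) (.cons (.br (nat_lit 5) (.cons (.br (nat_lit 0) (.cons (.rel (nat_lit 276824352)) (.cons (.rel (nat_lit 8598405120)) .nil))) .nil)) .nil)) .leaf) (nat_lit 24190544408938003) (.br (nat_lit 0) (.cons (.br (nat_lit 1) (.cons (.rel (nat_lit 41943108)) .nil)) .nil)) (.node (.node .leaf (nat_lit 24190544409062133) (.br (nat_lit 1) (.cons (.br (nat_lit 2) (.cons (.rel (nat_lit 167773200)) .nil)) .nil)) .leaf) (nat_lit 24190547553232353) (.br (nat_lit 0) (.cons (.br (nat_lit 1) (.cons (.rel (nat_lit 21250050))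 .nil)) .nil)) .leaf))))) (nat_lit 24190547554665253) (.br (nat_lit 0) (.cons (.br (nat_lit 1) (.cons (.rel (nat_lit 21239808)) .nil)) .nil)) (.node (.node (.node (.node (.node (.node .leaf (nat_lit 24190548180994853) (.br (nat_lit 0) (.cons (.br (nat_lit 3) (.cons (.rel (nat_lit 272892168)) .nil)) .nil)) .leaf) (nat_lit 24190548181558654) (.br (nat_lit 1) (.cons (.br (nat_lit 3) (.cons (.rel (nat_lit 285278352)) .nil)) .nil)) .leaf) (nat_lit 24190548182549290) (.br (nat_lit 0) (.cons (.br (nat_lit 6) (.cons (.rel (nat_lit 17184065544)) .nil)) .nil)) (.node (.node .leaf (nat_lit 24190548183554954) (.br (nat_lit 1) (.cons (.br (nat_lit 3) (.cons (.rel (nat_lit 285278352)) .nil)) .nil)) .leaf) (nat_lit 24190548183810853) (.br (nat_lit 0) (.cons (.br (nat_lit 3) (.cons (.rel (nat_lit 276824352)) .nil)) .nil)) .leaf)) (nat_lit 24190550068432153) (.br (nat_lit 0) (.cons (.br (nat_lit 1) (.cons (.rel (nat_lit 41943108)) .nil)) .nil)) (.node (.node (.node .leaf (nat_lit 24190550068454763)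 (.br (nat_lit 1) (.cons (.br (nat_lit 3) (.cons (.rel (nat_lit 285495312)) .nil)) .nil)) .leaf) (nat_lit 24190550068994054) (.br (nat_lit 1) (.cons (.br (nat_lit 3) (.cons (.rel (nat_lit 286263552)) .nil)) .nil)) .leaf) (nat_lit 24190550069064490) (.br (nat_lit 0) (.cons (.br (nat_lit 1) (.cons (.rel (nat_lit 37756929)) .nil)) .nil)) (.node (.node .leaf (nat_lit 24190550070224153) (.br (nat_lit 1) (.cons (.br (nat_lit 4) (.cons (.rel (nat_lit 1090521105)) (.cons (.rel (nat_lit 2181038100)) (.cons (.rel (nat_lit 1090588929)) .nil)))) .nil)) .leaf) (nat_lit 24190604567838726) (.br (nat_lit 0) (.cons (.br (nat_lit 1) (.cons (.rel (nat_lit 25166097)) .nil)) .nil)) .leaf))) (nat_lit 24190759259343153) (.br (nat_lit 0) (.cons (.br (nat_lit 5) (.cons (.rel (nat_lit 4299162900)) .nil)) .nil)) (.node (.node (.node (.node .leaf (nat_lit 24190759259343603) (.br (nat_lit 0) (.cons (.br (nat_lit 1) (.cons (.rel (nat_lit 21234948)) .nil)) .nil)) .leaf) (nat_lit 24190759259343653) (.br (nat_lit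 3) (.cons (.br (nat_lit 0) (.cons (.rel (nat_lit 276828177)) (.cons (.rel (nat_lit 272892168)) .nil))) .nil)) .leaf) (nat_lit 24190759259855735) (.br (nat_lit 5) (.cons (.br (nat_lit 0) (.cons (.rel (nat_lit 4299162900)) (.cons (.rel (nat_lit 4299167760)) .nil))) .nil)) (.node (.node .leaf (nat_lit 24190759259856353) (.br (nat_lit 1) (.cons (.br (nat_lit 2) (.cons (.rel (nat_lit 152110080)) .nil)) .nil)) .leaf) (nat_lit 24190759259906078) (.br (nat_lit 0) (.cons (.br (nat_lit 1) (.cons (.rel (nat_lit 21239808)) .nil)) .nil)) .leaf)) (nat_lit 24190759259908106) (.br (nat_lit 1) (.cons (.br (nat_lit 6) (.cons (.br (nat_lit 3) (.cons (.rel (nat_lit 553649160)) (.cons (.rel (nat_lit 17449877508)) .nil))) .nil)) .nil)) (.node (.node (.node .leaf (nat_lit 24190759259975686) (.br (nat_lit 2) (.cons (.br (nat_lit 5) (.cons (.rel (nat_lit 4429189377)) .nil)) .nil)) .leaf) (nat_lit 24190759259975736) (.br (nat_lit 4) (.cons (.br (nat_lit 0) (.cons (.rel (nat_lit 1078198344)) (.cons (.rel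 (nat_lit 2155873536)) .nil))) .nil)) .leaf) (nat_lit 24190759260725278) (.br (nat_lit 2) (.cons (.br (nat_lit 6) (.cons (.rel (nat_lit 17248290048)) .nil)) .nil)) (.node (.node .leaf (nat_lit 24190759260898537) (.br (nat_lit 5) (.cons (.br (nat_lit 6) (.cons (.rel (nat_lit 21474838080)) .nil)) .nil)) .leaf) (nat_lit 24190759260898686) (.br (nat_lit 0) (.cons (.br (nat_lit 1) (.cons (.rel (nat_lit 22036992)) .nil)) .nil)) .leaf)))) (nat_lit 24190759260938250) (.br (nat_lit 3) (.cons (.br (nat_lit 2) (.cons (.rel (nat_lit 603984192)) (.cons (.rel (nat_lit 335546370)) .nil))) .nil)) (.node (.node (.node (.node (.node .leaf (nat_lit 24190759260938995) (.br (nat_lit 3) (.cons (.br (nat_lit 2) (.cons (.rel (nat_lit 402919680)) (.cons (.rel (nat_lit 671089665)) (.cons (.rel (nat_lit 403767300)) .nil)))) (.cons (.br (nat_lit 0) (.cons (.rel (nat_lit 541065744)) (.cons (.rel (nat_lit 273752064)) (.cons (.rel (nat_lit 276840453)) .nil)))) .nil))) .leaf) (nat_lit 24190759260949290) (.br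 (nat_lit 0) (.cons (.br (nat_lit 2) (.cons (.rel (nat_lit 71311368)) (.cons (.rel (nat_lit 71309568)) .nil))) .nil)) .leaf) (nat_lit 24190759261136103) (.br (nat_lit 0) (.cons (.br (nat_lit 3) (.cons (.rel (nat_lit 545260608)) .nil)) .nil)) (.node (.node .leaf (nat_lit 24190759261902854) (.br (nat_lit 3) (.cons (.br (nat_lit 0) (.cons (.rel (nat_lit 272908305)) (.cons (.rel (nat_lit 273956928)) .nil))) .nil)) .leaf) (nat_lit 24190759261954954) (.br (nat_lit 3) (.cons (.br (nat_lit 6) (.cons (.rel (nat_lit 17448321048)) .nil)) .nil)) .leaf)) (nat_lit 24190759262158858) (.br (nat_lit 0) (.cons (.br (nat_lit 5) (.cons (.rel (nat_lit 4299162900)) (.cons (.rel (nat_lit 4299235584)) .nil))) .nil)) (.node (.node (.node .leaf (nat_lit 24190759262159153) (.br (nat_lit 0) (.cons (.br (nat_lit 1) (.cons (.rel (nat_lit 22036992)) .nil)) .nil)) .leaf) (nat_lit 24190759262160353) (.br (nat_lit 0) (.cons (.br (nat_lit 1) (.cons (.rel (nat_lit 21239808)) .nil)) .nil)) .leaf) (nat_lit 24190762720208254)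 (.br (nat_lit 1) (.cons (.br (nat_lit 2) (.cons (.rel (nat_lit 101974017)) .nil)) .nil)) (.node (.node .leaf (nat_lit 24190762720228833) (.br (nat_lit 0) (.cons (.br (nat_lit 1) (.cons (.rel (nat_lit 41943108)) .nil)) .nil)) .leaf) (nat_lit 24190762721436953) (.br (nat_lit 0) (.cons (.br (nat_lit 1) (.cons (.rel (nat_lit 20971656)) .nil)) .nil)) .leaf))) (nat_lit 24190762722459828) (.br (nat_lit 0) (.cons (.br (nat_lit 3) (.cons (.rel (nat_lit 545260608)) .nil)) .nil)) (.node (.node (.node (.node .leaf (nat_lit 24190764921654028) (.br (nat_lit 0) (.cons (.br (nat_lit 3) (.cons (.rel (nat_lit 273679380)) .nil)) .nil)) .leaf) (nat_lit 24190764922216504) (.br (nat_lit 2) (.cons (.br (nat_lit 3) (.cons (.rel (nat_lit 603984192)) .nil)) .nil)) .leaf) (nat_lit 24190764922217854) (.br (nat_lit 1) (.cons (.br (nat_lit 3) (.cons (.rel (nat_lit 285278352)) .nil)) .nil)) (.node (.node .leaf (nat_lit 24190764923189304) (.br (nat_lit 0) (.cons (.br (nat_lit 3) (.cons (.rel (nat_lit 545260608))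 .nil)) .nil)) .leaf) (nat_lit 24191409798710753) (.br (nat_lit 0) (.cons (.br (nat_lit 2) (.cons (.rel (nat_lit 71335956)) .nil)) .nil)) .leaf)) (nat_lit 24191446790239713) (.br (nat_lit 1) (.cons (.br (nat_lit 2) (.cons (.rel (nat_lit 83902992)) .nil)) .nil)) (.node (.node (.node .leaf (nat_lit 24191447440405880) (.br (nat_lit 0) (.cons (.br (nat_lit 2) (.cons (.rel (nat_lit 71309568)) .nil)) .nil)) .leaf) (nat_lit 24191448994480308) (.br (nat_lit 0) (.cons (.br (nat_lit 4) (.cons (.rel (nat_lit 1084227585)) .nil)) .nil)) .leaf) (nat_lit 24191448994481553) (.br (nat_lit 0) (.cons (.br (nat_lit 6) (.cons (.rel (nat_lit 17184162816)) .nil)) .nil)) (.node .leaf (nat_lit 24191449497798008) (.br (nat_lit 0) (.cons (.br (nat_lit 1) (.cons (.br (nat_lit 3) (.cons (.rel (nat_lit 285278352)) .nil)) .nil)) .nil)) .leaf))))))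

/-- refutations 100 -/
def e100 : EX := (.node (.node (.node (.node (.node (.node (.node .leaf (nat_lit 24194624731702553) (.br (nat_lit 0) (.cons (.br (nat_lit 3) (.cons (.rel (nat_lit 276889620)) .nil)) .nil)) .leaf) (nat_lit 24194624732726553) (.br (nat_lit 0) (.cons (.br (nat_lit 1) (.cons (.rel (nat_lit 25169922)) .nil)) .nil)) .leaf) (nat_lit 24194628190210353) (.br (nat_lit 3) (.cons (.br (nat_lit 5) (.cons (.rel (nat_lit 4563410952)) .nil)) .nil)) (.node .leaf (nat_lit 24194628192002353) (.br (nat_lit 0) (.cons (.br (nat_lit 1) (.cons (.rel (nat_lit 22036992)) .nil)) .nil)) .leaf)) (nat_lit 24194628192003353) (.br (nat_lit 0) (.cons (.br (nat_lit 1) (.cons (.rel (nat_lit 25166097)) .nil)) .nil)) (.node (.node (.node .leaf (nat_lit 24194628192025883) (.br (nat_lit 0) (.cons (.br (nat_lit 1) (.cons (.rel (nat_lit 20971656)) .nil)) .nil)) .leaf) (nat_lit 24194628192790538) (.br (nat_lit 1) (.cons (.br (nat_lit 3) (.cons (.rel (nat_lit 286265352)) .nil)) .nil)) .leaf) (nat_lit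 24194628193027353) (.br (nat_lit 0) (.cons (.br (nat_lit 3) (.cons (.rel (nat_lit 545260608)) .nil)) .nil)) (.node .leaf (nat_lit 24194630392842250) (.br (nat_lit 1) (.cons (.br (nat_lit 3) (.cons (.rel (nat_lit 285540609)) .nil)) .nil)) .leaf))) (nat_lit 24194630395036428) (.br (nat_lit 0) (.cons (.br (nat_lit 3) (.cons (.rel (nat_lit 545260608)) .nil)) .nil)) (.node (.node (.node (.node .leaf (nat_lit 24194630395097268) (.br (nat_lit 1) (.cons (.br (nat_lit 2) (.cons (.rel (nat_lit 84935748)) .nil)) .nil)) .leaf) (nat_lit 24194630395160883) (.br (nat_lit 1) (.cons (.br (nat_lit 2) (.cons (.rel (nat_lit 83888160)) .nil)) .nil)) .leaf) (nat_lit 24194839268559628) (.br (nat_lit 0) (.cons (.br (nat_lit 5) (.cons (.rel (nat_lit 4299178002)) (.cons (.rel (nat_lit 8594653248)) .nil))) .nil)) (.node .leaf (nat_lit 24194839269092753) (.br (nat_lit 0) (.cons (.br (nat_lit 2) (.cons (.rel (nat_lit 71311368)) (.cons (.rel (nat_lit 76054536)) .nil))) .nil)) .leaf)) (nat_lit 24194839269141765)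 (.br (nat_lit 0) (.cons (.br (nat_lit 2) (.cons (.rel (nat_lit 142610436)) (.cons (.rel (nat_lit 142610436)) .nil))) .nil)) (.node (.node .leaf (nat_lit 24194839269144033) (.br (nat_lit 0) (.cons (.br (nat_lit 1) (.cons (.rel (nat_lit 22347840)) .nil)) .nil)) .leaf) (nat_lit 24194839270094904) (.br (nat_lit 0) (.cons (.br (nat_lit 1) (.cons (.rel (nat_lit 37818372)) .nil)) .nil)) (.node .leaf (nat_lit 24194839270167953) (.br (nat_lit 0) (.cons (.br (nat_lit 5) (.cons (.rel (nat_lit 4299178002)) .nil)) .nil)) .leaf)))) (nat_lit 24194839270351628) (.br (nat_lit 0) (.cons (.br (nat_lit 1) (.cons (.rel (nat_lit 22347840)) .nil)) .nil)) (.node (.node (.node (.node (.node .leaf (nat_lit 24194839270373531) (.br (nat_lit 1) (.cons (.br (nat_lit 3) (.cons (.rel (nat_lit 285229185)) (.cons (.rel (nat_lit 553649160)) (.cons (.rel (nat_lit 285507588)) (.cons (.rel (nat_lit 286265352)) .nil))))) .nil)) .leaf) (nat_lit 24194839270400025) (.br (nat_lit 0) (.cons (.br (nat_lit 1) (.cons (.rel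 (nat_lit 22347840)) .nil)) .nil)) .leaf) (nat_lit 24194839271118854) (.br (nat_lit 0) (.cons (.br (nat_lit 1) (.cons (.rel (nat_lit 20971656)) .nil)) .nil)) (.node .leaf (nat_lit 24194839271375003) (.br (nat_lit 1) (.cons (.br (nat_lit 3) (.cons (.rel (nat_lit 286265352)) (.cons (.rel (nat_lit 553656576)) (.cons (.rel (nat_lit 302137344)) .nil)))) .nil)) .leaf)) (nat_lit 24194839271376153) (.br (nat_lit 0) (.cons (.br (nat_lit 6) (.cons (.rel (nat_lit 34368128004)) .nil)) .nil)) (.node (.node (.node .leaf (nat_lit 24194839271376353) (.br (nat_lit 1) (.cons (.br (nat_lit 5) (.cons (.br (nat_lit 3) (.cons (.rel (nat_lit 285229185)) (.cons (.rel (nat_lit 4563410952)) .nil))) .nil)) .nil)) .leaf) (nat_lit 24194842017116420) (.br (nat_lit 0) (.cons (.br (nat_lit 1) (.cons (.rel (nat_lit 21250050)) .nil)) .nil)) .leaf) (nat_lit 24194843043432753) (.br (nat_lit 0) (.cons (.br (nat_lit 5) (.cons (.rel (nat_lit 4299325440)) .nil)) .nil)) (.node .leaf (nat_lit 24194843043433228) (.br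 (nat_lit 0) (.cons (.br (nat_lit 1) (.cons (.rel (nat_lit 21250050)) .nil)) .nil)) .leaf))) (nat_lit 24194843043433703) (.br (nat_lit 0) (.cons (.br (nat_lit 1) (.cons (.rel (nat_lit 22347840)) .nil)) .nil)) (.node (.node (.node (.node .leaf (nat_lit 24194843043995654) (.br (nat_lit 5) (.cons (.br (nat_lit 0) (.cons (.rel (nat_lit 4299178002)) (.cons (.rel (nat_lit 8598405120)) .nil))) .nil)) .leaf) (nat_lit 24194843043996554) (.br (nat_lit 3) (.cons (.br (nat_lit 5) (.cons (.rel (nat_lit 4563404292)) .nil)) .nil)) .leaf) (nat_lit 24194843044066090) (.br (nat_lit 1) (.cons (.br (nat_lit 5) (.cons (.rel (nat_lit 4311748872)) .nil)) .nil)) (.node .leaf (nat_lit 24194843045021029) (.br (nat_lit 0) (.cons (.br (nat_lit 1) (.cons (.rel (nat_lit 41943108)) .nil)) .nil)) .leaf)) (nat_lit 24194843045225253) (.br (nat_lit 0) (.cons (.br (nat_lit 1) (.cons (.rel (nat_lit 25166097)) (.cons (.rel (nat_lit 25231365)) .nil))) .nil)) (.node (.node .leaf (nat_lit 24194843046248603) (.br (nat_lit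 1) (.cons (.br (nat_lit 3) (.cons (.rel (nat_lit 286265352)) (.cons (.rel (nat_lit 553649160)) .nil))) .nil)) .leaf) (nat_lit 24194843046249253) (.br (nat_lit 0) (.cons (.br (nat_lit 2) (.cons (.rel (nat_lit 72892416)) (.cons (.rel (nat_lit 71335956)) (.cons (.rel (nat_lit 76812288)) .nil)))) .nil)) (.node .leaf (nat_lit 24194843046249703) (.br (nat_lit 0) (.cons (.br (nat_lit 1) (.cons (.rel (nat_lit 25169922)) .nil)) .nil)) .leaf))))) (nat_lit 24194843046249953) (.br (nat_lit 1) (.cons (.br (nat_lit 5) (.cons (.rel (nat_lit 8623490304)) .nil)) .nil)) (.node (.node (.node (.node (.node (.node .leaf (nat_lit 24194845245442828) (.br (nat_lit 0) (.cons (.br (nat_lit 5) (.cons (.rel (nat_lit 8594653248)) .nil)) .nil)) .leaf) (nat_lit 24194845245443353) (.br (nat_lit 0) (.cons (.br (nat_lit 5) (.cons (.rel (nat_lit 4299227169)) (.cons (.rel (nat_lit 4299325440)) .nil))) .nil)) .leaf) (nat_lit 24194845245567131) (.br (nat_lit 5) (.cons (.br (nat_lit 0) (.cons (.rel (nat_lit 4299178002))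 (.cons (.rel (nat_lit 8598405120)) .nil))) .nil)) (.node .leaf (nat_lit 24194845245975953) (.br (nat_lit 0) (.cons (.br (nat_lit 5) (.cons (.rel (nat_lit 8598405120)) .nil)) .nil)) .leaf)) (nat_lit 24194845246005254) (.br (nat_lit 1) (.cons (.br (nat_lit 2) (.cons (.rel (nat_lit 83886090)) .nil)) .nil)) (.node (.node (.node .leaf (nat_lit 24194845246007306) (.br (nat_lit 2) (.cons (.br (nat_lit 6) (.cons (.rel (nat_lit 17247633408)) .nil)) .nil)) .leaf) (nat_lit 24194845246027233) (.br (nat_lit 0) (.cons (.br (nat_lit 3) (.cons (.rel (nat_lit 272897028)) .nil)) .nil)) .leaf) (nat_lit 24194845247051153) (.br (nat_lit 0) (.cons (.br (nat_lit 5) (.cons (.rel (nat_lit 4299161865)) .nil)) .nil)) (.node .leaf (nat_lit 24194845247256731) (.br (nat_lit 5) (.cons (.br (nat_lit 6) (.cons (.rel (nat_lit 21474967617)) .nil)) .nil)) .leaf))) (nat_lit 24194845248258203) (.br (nat_lit 0) (.cons (.br (nat_lit 5) (.cons (.rel (nat_lit 4299325440)) (.cons (.rel (nat_lit 4299161865)) .nil))) (.cons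 (.br (nat_lit 5) (.cons (.rel (nat_lit 4299227169)) (.cons (.rel (nat_lit 4299166725)) .nil))) .nil))) (.node (.node (.node (.node .leaf (nat_lit 24194845248258834) (.br (nat_lit 0) (.cons (.br (nat_lit 2) (.cons (.rel (nat_lit 71311368)) .nil)) .nil)) .leaf) (nat_lit 24194845248258853) (.br (nat_lit 0) (.cons (.br (nat_lit 1) (.cons (.rel (nat_lit 25231365)) (.cons (.rel (nat_lit 25169922)) .nil))) (.cons (.br (nat_lit 3) (.cons (.rel (nat_lit 272892168)) (.cons (.rel (nat_lit 276889620)) .nil))) .nil))) .leaf) (nat_lit 24194845248258973) (.br (nat_lit 0) (.cons (.br (nat_lit 1) (.cons (.rel (nat_lit 25183233)) .nil)) .nil)) (.node .leaf (nat_lit 24194845248259353) (.br (nat_lit 0) (.cons (.br (nat_lit 3) (.cons (.rel (nat_lit 272892168)) (.cons (.rel (nat_lit 276889620)) .nil))) .nil)) .leaf)) (nat_lit 24194845248259553) (.br (nat_lit 1) (.cons (.br (nat_lit 5) (.cons (.rel (nat_lit 8624603208)) (.cons (.rel (nat_lit 4311748872)) (.cons (.rel (nat_lit 4311826452)) .nil))))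 .nil)) (.node (.node .leaf (nat_lit 24194845248308625) (.br (nat_lit 0) (.cons (.br (nat_lit 1) (.cons (.rel (nat_lit 20971656)) .nil)) .nil)) .leaf) (nat_lit 24195054121782028) (.br (nat_lit 0) (.cons (.br (nat_lit 3) (.cons (.rel (nat_lit 273752064)) .nil)) .nil)) (.node .leaf (nat_lit 24195054122364305) (.br (nat_lit 0) (.cons (.br (nat_lit 1) (.cons (.rel (nat_lit 21239808)) (.cons (.rel (nat_lit 21234948)) .nil))) .nil)) .leaf)))) (nat_lit 24195054123574028) (.br (nat_lit 0) (.cons (.br (nat_lit 5) (.cons (.rel (nat_lit 8598405120)) .nil)) .nil)) (.node (.node (.node (.node (.node .leaf (nat_lit 24195054124341254) (.br (nat_lit 0) (.cons (.br (nat_lit 3) (.cons (.rel (nat_lit 545260608)) .nil)) .nil)) .leaf) (nat_lit 24195054124392504) (.br (nat_lit 1) (.cons (.br (nat_lit 3) (.cons (.rel (nat_lit 303038529)) .nil)) .nil)) .leaf) (nat_lit 24195055114454497) (.br (nat_lit 0) (.cons (.br (nat_lit 1) (.cons (.rel (nat_lit 21239808)) .nil)) .nil)) (.node .leaf (nat_lit 24195057897167754)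 (.br (nat_lit 0) (.cons (.br (nat_lit 5) (.cons (.rel (nat_lit 4299162900)) .nil)) .nil)) .leaf)) (nat_lit 24195057897237905) (.br (nat_lit 0) (.cons (.br (nat_lit 1) (.cons (.rel (nat_lit 21234948)) .nil)) .nil)) (.node (.node .leaf (nat_lit 24195057898447153) (.br (nat_lit 0) (.cons (.br (nat_lit 3) (.cons (.rel (nat_lit 273752064)) (.cons (.rel (nat_lit 272892168)) .nil))) .nil)) .leaf) (nat_lit 24195059784654904) (.br (nat_lit 1) (.cons (.br (nat_lit 3) (.cons (.rel (nat_lit 285495312)) .nil)) .nil)) (.node .leaf (nat_lit 24195059784674040) (.br (nat_lit 0) (.cons (.br (nat_lit 6) (.cons (.rel (nat_lit 17188323408)) .nil)) .nil)) .leaf))) (nat_lit 24195059784674705) (.br (nat_lit 1) (.cons (.br (nat_lit 5) (.cons (.rel (nat_lit 4311747072)) (.cons (.rel (nat_lit 8606973984)) .nil))) .nil)) (.node (.node (.node (.node .leaf (nat_lit 24195059784725241) (.br (nat_lit 0) (.cons (.br (nat_lit 1) (.cons (.rel (nat_lit 41943108)) .nil)) .nil)) .leaf) (nat_lit 24195059784725290)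 (.br (nat_lit 0) (.cons (.br (nat_lit 6) (.cons (.rel (nat_lit 17185113168)) (.cons (.rel (nat_lit 17184063510)) .nil))) .nil)) .leaf) (nat_lit 24195059785680254) (.br (nat_lit 0) (.cons (.br (nat_lit 1) (.cons (.rel (nat_lit 20971656)) .nil)) .nil)) (.node .leaf (nat_lit 24195059785680906) (.br (nat_lit 0) (.cons (.br (nat_lit 3) (.cons (.rel (nat_lit 273679380)) .nil)) .nil)) .leaf)) (nat_lit 24195059785698205) (.br (nat_lit 0) (.cons (.br (nat_lit 3) (.cons (.rel (nat_lit 545260608)) .nil)) .nil)) (.node (.node .leaf (nat_lit 24195059785883828) (.br (nat_lit 0) (.cons (.br (nat_lit 1) (.cons (.rel (nat_lit 21250050)) .nil)) .nil)) .leaf) (nat_lit 24195059785884453) (.br (nat_lit 0) (.cons (.br (nat_lit 1) (.cons (.rel (nat_lit 25166097)) .nil)) .nil)) (.node .leaf (nat_lit 24195059785997694) (.br (nat_lit 0) (.cons (.br (nat_lit 1) (.cons (.rel (nat_lit 41943108)) (.cons (.rel (nat_lit 41943108)) .nil))) .nil)) .leaf))))))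

/-- refutations 101 -/
def e101 : EX := (.node (.node (.node (.node .leaf (nat_lit 24195114146467347) (.br (nat_lit 0) (.cons (.br (nat_lit 3) (.cons (.rel (nat_lit 272892168)) .nil)) .nil)) .leaf) (nat_lit 24195749802969849) (.br (nat_lit 0) (.cons (.br (nat_lit 2) (.cons (.rel (nat_lit 71372802)) .nil)) .nil)) .leaf) (nat_lit 24195749804441732) (.br (nat_lit 0) (.cons (.br (nat_lit 2) (.cons (.rel (nat_lit 71309568)) .nil)) .nil)) (.node .leaf (nat_lit 24196775152386803) (.br (nat_lit 1) (.cons (.br (nat_lit 0) (.cons (.rel (nat_lit 41943108)) (.cons (.rel (nat_lit 25166097)) .nil))) .nil)) .leaf)) (nat_lit 24196777983542753) (.br (nat_lit 0) (.cons (.br (nat_lit 1) (.cons (.rel (nat_lit 21385224)) .nil)) .nil)) (.node (.node .leaf (nat_lit 24197076428021770) (.br (nat_lit 1) (.cons (.br (nat_lit 2) (.cons (.rel (nat_lit 167772165)) .nil)) .nil)) .leaf) (nat_lit 24197291070446949) (.br (nat_lit 0) (.cons (.br (nat_lit 1) (.cons (.rel (nat_lit 22021125)) .nil)) .nil)) (.node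 .leaf (nat_lit 24197293167709465) (.br (nat_lit 1) (.cons (.br (nat_lit 4) (.cons (.rel (nat_lit 1090520070)) .nil)) .nil)) .leaf)))

/-- refutations 102 -/
def e102 : EX := (.node (.node (.node (.node (.node (.node (.node .leaf (nat_lit 24200079129241610) (.br (nat_lit 1) (.cons (.br (nat_lit 2) (.cons (.rel (nat_lit 83886090)) .nil)) .nil)) .leaf) (nat_lit 24200079131475978) (.br (nat_lit 5) (.cons (.br (nat_lit 0) (.cons (.rel (nat_lit 4299227169)) (.cons (.rel (nat_lit 4299325440)) .nil))) .nil)) .leaf) (nat_lit 24200079131477473) (.br (nat_lit 0) (.cons (.br (nat_lit 5) (.cons (.rel (nat_lit 4299161865)) (.cons (.rel (nat_lit 4299178002)) .nil))) (.cons (.br (nat_lit 5) (.cons (.rel (nat_lit 4299325440)) (.cons (.rel (nat_lit 8595181569)) .nil))) .nil))) (.node .leaf (nat_lit 24200079131731978) (.br (nat_lit 1) (.cons (.br (nat_lit 2) (.cons (.rel (nat_lit 167772165)) .nil)) .nil)) .leaf)) (nat_lit 24200085464875018) (.br (nat_lit 0) (.cons (.br (nat_lit 5) (.cons (.rel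 (nat_lit 4299161865)) (.cons (.rel (nat_lit 4299325440)) .nil))) .nil)) (.node (.node (.node .leaf (nat_lit 24200085465131018) (.br (nat_lit 0) (.cons (.br (nat_lit 1) (.cons (.rel (nat_lit 20971656)) .nil)) .nil)) .leaf) (nat_lit 24200508837920778) (.br (nat_lit 0) (.cons (.br (nat_lit 2) (.cons (.rel (nat_lit 71304708)) .nil)) .nil)) .leaf) (nat_lit 24202140817819899) (.br (nat_lit 1) (.cons (.br (nat_lit 2) (.cons (.rel (nat_lit 83886090)) .nil)) .nil)) (.node .leaf (nat_lit 24202140817820953) (.br (nat_lit 0) (.cons (.br (nat_lit 1) (.cons (.rel (nat_lit 21234948)) .nil)) .nil)) .leaf))) (nat_lit 24202140818352903) (.br (nat_lit 1) (.cons (.br (nat_lit 3) (.cons (.rel (nat_lit 286557249)) .nil)) .nil)) (.node (.node (.node (.node .leaf (nat_lit 24202140818382854) (.br (nat_lit 1) (.cons (.br (nat_lit 3) (.cons (.rel (nat_lit 553656576)) .nil)) .nil)) .leaf) (nat_lit 24202140818383608) (.br (nat_lit 1) (.cons (.br (nat_lit 2) (.cons (.rel (nat_lit 83888160)) .nil)) .nil))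 .leaf) (nat_lit 24202140818383754) (.br (nat_lit 5) (.cons (.br (nat_lit 0) (.cons (.rel (nat_lit 4299227169)) (.cons (.rel (nat_lit 4299162900)) .nil))) .nil)) (.node .leaf (nat_lit 24202140818384254) (.br (nat_lit 0) (.cons (.br (nat_lit 5) (.cons (.rel (nat_lit 4299162900)) .nil)) .nil)) .leaf)) (nat_lit 24202140818402565) (.br (nat_lit 0) (.cons (.br (nat_lit 3) (.cons (.rel (nat_lit 276841488)) .nil)) .nil)) (.node (.node (.node .leaf (nat_lit 24202140818402705) (.br (nat_lit 1) (.cons (.br (nat_lit 0) (.cons (.rel (nat_lit 41943108)) (.cons (.rel (nat_lit 25166097)) .nil))) .nil)) .leaf) (nat_lit 24202140818443545) (.br (nat_lit 6) (.cons (.br (nat_lit 0) (.cons (.rel (nat_lit 17184065544)) (.cons (.br (nat_lit 1) (.cons (.rel (nat_lit 21299217)) (.cons (.rel (nat_lit 22022160)) (.cons (.rel (nat_lit 34377564180)) .nil)))) .nil))) .nil)) .leaf) (nat_lit 24202140819109125) (.br (nat_lit 0) (.cons (.br (nat_lit 4) (.cons (.rel (nat_lit 1077956625)) .nil)) .nil)) (.node .leaf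 (nat_lit 24202140819355704) (.br (nat_lit 1) (.cons (.br (nat_lit 6) (.cons (.rel (nat_lit 17213425728)) .nil)) .nil)) .leaf)))) (nat_lit 24202140819409802) (.br (nat_lit 0) (.cons (.br (nat_lit 1) (.cons (.rel (nat_lit 21234948)) .nil)) .nil)) (.node (.node (.node (.node (.node .leaf (nat_lit 24202140819426041) (.br (nat_lit 4) (.cons (.br (nat_lit 1) (.cons (.rel (nat_lit 1090519080)) (.cons (.rel (nat_lit 1090519080)) .nil))) .nil)) .leaf) (nat_lit 24202140819428138) (.br (nat_lit 0) (.cons (.br (nat_lit 1) (.cons (.rel (nat_lit 37770240)) .nil)) .nil)) .leaf) (nat_lit 24202140819470346) (.br (nat_lit 1) (.cons (.br (nat_lit 5) (.cons (.rel (nat_lit 4311753732)) .nil)) .nil)) (.node .leaf (nat_lit 24202140819470643) (.br (nat_lit 6) (.cons (.br (nat_lit 0) (.cons (.rel (nat_lit 17184096513)) (.cons (.rel (nat_lit 17184065544)) .nil))) .nil)) .leaf)) (nat_lit 24202140819471761) (.br (nat_lit 1) (.cons (.br (nat_lit 5) (.cons (.rel (nat_lit 4311747072)) .nil)) .nil)) (.node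 (.node (.node .leaf (nat_lit 24202140819612428) (.br (nat_lit 0) (.cons (.br (nat_lit 5) (.cons (.rel (nat_lit 4303360320)) .nil)) .nil)) .leaf) (nat_lit 24202140819612453) (.br (nat_lit 0) (.cons (.br (nat_lit 1) (.cons (.rel (nat_lit 21239808)) .nil)) .nil)) .leaf) (nat_lit 24202140819621894) (.br (nat_lit 5) (.cons (.br (nat_lit 6) (.cons (.rel (nat_lit 38654706945)) .nil)) .nil)) (.node .leaf (nat_lit 24202140819622648) (.br (nat_lit 5) (.cons (.br (nat_lit 0) (.cons (.rel (nat_lit 4303360320)) (.cons (.rel (nat_lit 4299227169)) .nil))) .nil)) .leaf))) (nat_lit 24202140819623173) (.br (nat_lit 4) (.cons (.br (nat_lit 6) (.cons (.rel (nat_lit 18253612113)) .nil)) .nil)) (.node (.node (.node (.node .leaf (nat_lit 24202140819623423) (.br (nat_lit 3) (.cons (.br (nat_lit 4) (.cons (.rel (nat_lit 2684355600)) .nil)) .nil)) .leaf) (nat_lit 24202140819725073) (.br (nat_lit 0) (.cons (.br (nat_lit 1) (.cons (.rel (nat_lit 20971656)) .nil)) .nil)) .leaf) (nat_lit 24202140820380554)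 (.br (nat_lit 5) (.cons (.br (nat_lit 1) (.cons (.rel (nat_lit 4311748872)) (.cons (.rel (nat_lit 4311747072)) .nil))) .nil)) (.node .leaf (nat_lit 24202140820432099) (.br (nat_lit 0) (.cons (.br (nat_lit 1) (.cons (.rel (nat_lit 20971656)) .nil)) .nil)) .leaf)) (nat_lit 24202144593276305) (.br (nat_lit 0) (.cons (.br (nat_lit 1) (.cons (.rel (nat_lit 25166097)) .nil)) .nil)) (.node (.node .leaf (nat_lit 24202144594248490) (.br (nat_lit 6) (.cons (.br (nat_lit 4) (.cons (.rel (nat_lit 36507500544)) (.cons (.rel (nat_lit 18254660736)) .nil))) .nil)) .leaf) (nat_lit 24202144594486503) (.br (nat_lit 0) (.cons (.br (nat_lit 1) (.cons (.rel (nat_lit 22022160)) .nil)) .nil)) (.node .leaf (nat_lit 24202146480130803) (.br (nat_lit 0) (.cons (.br (nat_lit 1) (.cons (.rel (nat_lit 37753104)) .nil)) .nil)) .leaf))))) (nat_lit 24202146480130828) (.br (nat_lit 0) (.cons (.br (nat_lit 5) (.cons (.rel (nat_lit 4303360320)) .nil)) .nil)) (.node (.node (.node (.node (.node (.node .leaf (nat_lit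 24202146480655273) (.br (nat_lit 0) (.cons (.br (nat_lit 1) (.cons (.rel (nat_lit 22021125)) .nil)) .nil)) .leaf) (nat_lit 24202146480655593) (.br (nat_lit 0) (.cons (.br (nat_lit 3) (.cons (.rel (nat_lit 273699072)) (.cons (.rel (nat_lit 541327425)) .nil))) (.cons (.br (nat_lit 1) (.cons (.rel (nat_lit 25166097)) (.cons (.rel (nat_lit 20971656)) .nil))) .nil))) .leaf) (nat_lit 24202146480655717) (.br (nat_lit 1) (.cons (.br (nat_lit 5) (.cons (.rel (nat_lit 4329046032)) .nil)) .nil)) (.node .leaf (nat_lit 24202146480655761) (.br (nat_lit 0) (.cons (.br (nat_lit 1) (.cons (.rel (nat_lit 41943108)) .nil)) .nil)) .leaf)) (nat_lit 24202146480712931) (.br (nat_lit 1) (.cons (.br (nat_lit 2) (.cons (.rel (nat_lit 167773200)) .nil)) .nil)) (.node (.node (.node .leaf (nat_lit 24202146480712965) (.br (nat_lit 0) (.cons (.br (nat_lit 5) (.cons (.rel (nat_lit 4299440448)) .nil)) .nil)) .leaf) (nat_lit 24202146480713105) (.br (nat_lit 1) (.cons (.br (nat_lit 0) (.cons (.rel (nat_lit 20971656))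 (.cons (.rel (nat_lit 25166097)) (.cons (.br (nat_lit 3) (.cons (.rel (nat_lit 285229185)) (.cons (.rel (nat_lit 553649160)) (.cons (.rel (nat_lit 272897028)) .nil)))) .nil)))) .nil)) .leaf) (nat_lit 24202146480715113) (.br (nat_lit 0) (.cons (.br (nat_lit 1) (.cons (.rel (nat_lit 21239808)) .nil)) .nil)) (.node .leaf (nat_lit 24202146480763786) (.br (nat_lit 1) (.cons (.br (nat_lit 4) (.cons (.rel (nat_lit 1107558528)) .nil)) .nil)) .leaf))) (nat_lit 24202146480764286) (.br (nat_lit 0) (.cons (.br (nat_lit 1) (.cons (.rel (nat_lit 41943108)) .nil)) .nil)) (.node (.node (.node (.node .leaf (nat_lit 24202146481666058) (.br (nat_lit 2) (.cons (.br (nat_lit 5) (.cons (.rel (nat_lit 4362076488)) .nil)) .nil)) .leaf) (nat_lit 24202146481666104) (.br (nat_lit 5) (.cons (.br (nat_lit 6) (.cons (.rel (nat_lit 38654709780)) (.cons (.rel (nat_lit 38654706945)) .nil))) .nil)) .leaf) (nat_lit 24202146481667429) (.br (nat_lit 5) (.cons (.br (nat_lit 1) (.cons (.rel (nat_lit 8623490304))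 (.cons (.rel (nat_lit 4311747072)) .nil))) .nil)) (.node .leaf (nat_lit 24202146481667454) (.br (nat_lit 1) (.cons (.br (nat_lit 5) (.cons (.rel (nat_lit 4311747072)) (.cons (.rel (nat_lit 4311748872)) .nil))) .nil)) .leaf)) (nat_lit 24202146481679593) (.br (nat_lit 3) (.cons (.br (nat_lit 4) (.cons (.rel (nat_lit 1342177290)) .nil)) .nil)) (.node (.node .leaf (nat_lit 24202146481737738) (.br (nat_lit 0) (.cons (.br (nat_lit 1) (.cons (.rel (nat_lit 25166097)) (.cons (.rel (nat_lit 20971656)) .nil))) .nil)) .leaf) (nat_lit 24202146481738488) (.br (nat_lit 0) (.cons (.br (nat_lit 1) (.cons (.rel (nat_lit 41943108)) .nil)) .nil)) (.node .leaf (nat_lit 24202146481738538) (.br (nat_lit 1) (.cons (.br (nat_lit 3) (.cons (.rel (nat_lit 553914432)) .nil)) .nil)) .leaf)))) (nat_lit 24202146481922353) (.br (nat_lit 5) (.cons (.br (nat_lit 1) (.cons (.rel (nat_lit 8623490304)) (.cons (.rel (nat_lit 8623490304)) .nil))) .nil)) (.node (.node (.node (.node (.node .leaf (nat_lit 24202146481922803)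 (.br (nat_lit 1) (.cons (.br (nat_lit 0) (.cons (.rel (nat_lit 21234948)) (.cons (.rel (nat_lit 37753104)) .nil))) .nil)) .leaf) (nat_lit 24202146481932294) (.br (nat_lit 5) (.cons (.br (nat_lit 1) (.cons (.rel (nat_lit 8623490304)) (.cons (.rel (nat_lit 4311747072)) .nil))) .nil)) .leaf) (nat_lit 24202146481933573) (.br (nat_lit 0) (.cons (.br (nat_lit 3) (.cons (.rel (nat_lit 273678345)) .nil)) .nil)) (.node .leaf (nat_lit 24202146481944833) (.br (nat_lit 1) (.cons (.br (nat_lit 3) (.cons (.rel (nat_lit 553648161)) .nil)) .nil)) .leaf)) (nat_lit 24202146481944883) (.br (nat_lit 2) (.cons (.br (nat_lit 4) (.cons (.rel (nat_lit 1140871248)) .nil)) .nil)) (.node (.node (.node .leaf (nat_lit 24202146481971225) (.br (nat_lit 0) (.cons (.br (nat_lit 4) (.cons (.rel (nat_lit 2155873536)) (.cons (.rel (nat_lit 1077945348)) (.cons (.rel (nat_lit 1077938688)) .nil)))) (.cons (.br (nat_lit 4) (.cons (.rel (nat_lit 1077945348)) (.cons (.rel (nat_lit 1077940488)) (.cons (.rel (nat_lit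 1077940488)) .nil)))) (.cons (.br (nat_lit 4) (.cons (.rel (nat_lit 2155873536)) (.cons (.rel (nat_lit 1077940488)) (.cons (.rel (nat_lit 1082130528)) .nil)))) .nil)))) .leaf) (nat_lit 24202146481972010) (.br (nat_lit 1) (.cons (.br (nat_lit 6) (.cons (.rel (nat_lit 17196647682)) .nil)) .nil)) .leaf) (nat_lit 24202146481972755) (.br (nat_lit 1) (.cons (.br (nat_lit 5) (.cons (.rel (nat_lit 4311753732)) (.cons (.rel (nat_lit 8623490304)) .nil))) .nil)) (.node .leaf (nat_lit 24202146482690353) (.br (nat_lit 0) (.cons (.br (nat_lit 4) (.cons (.rel (nat_lit 2155873536)) .nil)) .nil)) .leaf))) (nat_lit 24202146482690954) (.br (nat_lit 1) (.cons (.br (nat_lit 6) (.cons (.rel (nat_lit 34376516736)) .nil)) .nil)) (.node (.node (.node (.node .leaf (nat_lit 24202146482710538) (.br (nat_lit 3) (.cons (.br (nat_lit 1) (.cons (.rel (nat_lit 286265352)) (.cons (.rel (nat_lit 286277664)) .nil))) .nil)) .leaf) (nat_lit 24202146482710553) (.br (nat_lit 0) (.cons (.br (nat_lit 1) (.cons (.rel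 (nat_lit 21234948)) .nil)) .nil)) .leaf) (nat_lit 24202146482711913) (.br (nat_lit 3) (.cons (.br (nat_lit 5) (.cons (.rel (nat_lit 4563404292)) .nil)) .nil)) (.node .leaf (nat_lit 24202146482741499) (.br (nat_lit 4) (.cons (.br (nat_lit 5) (.cons (.rel (nat_lit 5368709481)) (.cons (.rel (nat_lit 10737680388)) .nil))) (.cons (.br (nat_lit 0) (.cons (.rel (nat_lit 1077938688)) (.cons (.rel (nat_lit 2155873536)) (.cons (.rel (nat_lit 2155873536)) .nil)))) .nil))) .leaf)) (nat_lit 24202146482946353) (.br (nat_lit 0) (.cons (.br (nat_lit 3) (.cons (.rel (nat_lit 272892168)) .nil)) .nil)) (.node (.node .leaf (nat_lit 24202146482946853) (.br (nat_lit 0) (.cons (.br (nat_lit 1) (.cons (.rel (nat_lit 20971656)) .nil)) .nil)) .leaf) (nat_lit 24202146483071736) (.br (nat_lit 1) (.cons (.br (nat_lit 2) (.cons (.rel (nat_lit 152043777)) .nil)) .nil)) (.node .leaf (nat_lit 24202147136092170) (.br (nat_lit 3) (.cons (.br (nat_lit 6) (.cons (.rel (nat_lit 34628173956)) .nil)) .nil)) .leaf))))))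

/-- refutations 103 -/
def e103 : EX := (.node (.node (.node (.node (.node (.node (.node (.node .leaf (nat_lit 24202355672631306) (.br (nat_lit 3) (.cons (.br (nat_lit 6) (.cons (.rel (nat_lit 34896629760)) .nil)) .nil)) .leaf) (nat_lit 24202355672648490) (.br (nat_lit 3) (.cons (.br (nat_lit 6) (.cons (.rel (nat_lit 34896629760)) .nil)) .nil)) (.node .leaf (nat_lit 24202355672834853) (.br (nat_lit 0) (.cons (.br (nat_lit 3) (.cons (.rel (nat_lit 272897028)) .nil)) .nil)) .leaf)) (nat_lit 24202355673654154) (.br (nat_lit 3) (.cons (.br (nat_lit 5) (.cons (.rel (nat_lit 4563410952)) .nil)) .nil)) (.node (.node .leaf (nat_lit 24202355673859303) (.br (nat_lit 1) (.cons (.br (nat_lit 3) (.cons (.rel (nat_lit 285229185)) .nil)) .nil)) .leaf) (nat_lit 24202359131925905) (.br (nat_lit 3) (.cons (.br (nat_lit 5) (.cons (.rel (nat_lit 4563405330)) .nil)) .nil)) .leaf)) (nat_lit 24202359133157683) (.br (nat_lit 1) (.cons (.br (nat_lit 3) (.cons (.rel (nat_lit 285278352)) .nil)) .nil))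 (.node (.node (.node .leaf (nat_lit 24202361333353228) (.br (nat_lit 0) (.cons (.br (nat_lit 1) (.cons (.rel (nat_lit 21234948)) (.cons (.rel (nat_lit 22036992)) .nil))) .nil)) .leaf) (nat_lit 24202361333353703) (.br (nat_lit 0) (.cons (.br (nat_lit 5) (.cons (.rel (nat_lit 8598405120)) .nil)) .nil)) .leaf) (nat_lit 24202361334889829) (.br (nat_lit 3) (.cons (.br (nat_lit 1) (.cons (.rel (nat_lit 553656576)) (.cons (.rel (nat_lit 302252352)) .nil))) .nil)) (.node (.node .leaf (nat_lit 24202361334906911) (.br (nat_lit 4) (.cons (.br (nat_lit 0) (.cons (.rel (nat_lit 1077940488)) (.cons (.rel (nat_lit 1077945348)) .nil))) .nil)) .leaf) (nat_lit 24202361334906936) (.br (nat_lit 3) (.cons (.br (nat_lit 6) (.cons (.rel (nat_lit 34628437248)) .nil)) .nil)) .leaf))) (nat_lit 24202361334941029) (.br (nat_lit 1) (.cons (.br (nat_lit 5) (.cons (.rel (nat_lit 8623490304)) .nil)) .nil)) (.node (.node (.node (.node .leaf (nat_lit 24202361334958086) (.br (nat_lit 1) (.cons (.br (nat_lit 4)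 (.cons (.rel (nat_lit 1090519080)) .nil)) .nil)) .leaf) (nat_lit 24202361335144753) (.br (nat_lit 0) (.cons (.br (nat_lit 3) (.cons (.rel (nat_lit 273679380)) .nil)) .nil)) (.node .leaf (nat_lit 24202361335145253) (.br (nat_lit 0) (.cons (.br (nat_lit 5) (.cons (.rel (nat_lit 4299162900)) .nil)) .nil)) .leaf)) (nat_lit 24202361335145703) (.br (nat_lit 0) (.cons (.br (nat_lit 3) (.cons (.rel (nat_lit 541069569)) .nil)) .nil)) (.node (.node .leaf (nat_lit 24202361335154694) (.br (nat_lit 2) (.cons (.br (nat_lit 6) (.cons (.rel (nat_lit 34426851588)) .nil)) .nil)) .leaf) (nat_lit 24202361335155448) (.br (nat_lit 0) (.cons (.br (nat_lit 1) (.cons (.rel (nat_lit 22021125)) .nil)) .nil)) .leaf)) (nat_lit 24202361336168603) (.br (nat_lit 2) (.cons (.br (nat_lit 3) (.cons (.rel (nat_lit 335544345)) .nil)) .nil)) (.node (.node (.node .leaf (nat_lit 24202449953423370) (.br (nat_lit 3) (.cons (.br (nat_lit 1) (.cons (.rel (nat_lit 553649160)) (.cons (.rel (nat_lit 285540609)) .nil))) .nil))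 .leaf) (nat_lit 24202449953423547) (.br (nat_lit 1) (.cons (.br (nat_lit 2) (.cons (.rel (nat_lit 83886090)) (.cons (.rel (nat_lit 100671552)) (.cons (.rel (nat_lit 150999168)) (.cons (.rel (nat_lit 167772165)) .nil))))) .nil)) .leaf) (nat_lit 24202449953424112) (.br (nat_lit 0) (.cons (.br (nat_lit 3) (.cons (.rel (nat_lit 272897028)) .nil)) .nil)) (.node (.node .leaf (nat_lit 24202452700817418) (.br (nat_lit 0) (.cons (.br (nat_lit 1) (.cons (.rel (nat_lit 21239808)) .nil)) .nil)) .leaf) (nat_lit 24202570209691673) (.br (nat_lit 6) (.cons (.br (nat_lit 1) (.cons (.rel (nat_lit 17196662793)) (.cons (.rel (nat_lit 17196683520)) .nil))) .nil)) .leaf)))) (nat_lit 24202570209692428) (.br (nat_lit 0) (.cons (.br (nat_lit 5) (.cons (.rel (nat_lit 4299178002)) (.cons (.rel (nat_lit 8598405120)) (.cons (.rel (nat_lit 8598405120)) (.cons (.rel (nat_lit 4299325440)) .nil))))) (.cons (.br (nat_lit 3) (.cons (.rel (nat_lit 272892168)) (.cons (.rel (nat_lit 541131012)) .nil))) .nil))) (.node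 (.node (.node (.node (.node .leaf (nat_lit 24202570209693198) (.br (nat_lit 1) (.cons (.br (nat_lit 2) (.cons (.rel (nat_lit 101974017)) .nil)) .nil)) .leaf) (nat_lit 24202570209715731) (.br (nat_lit 1) (.cons (.br (nat_lit 2) (.cons (.rel (nat_lit 83886090)) .nil)) .nil)) (.node .leaf (nat_lit 24202570209960717) (.br (nat_lit 1) (.cons (.br (nat_lit 2) (.cons (.rel (nat_lit 167773200)) .nil)) .nil)) .leaf)) (nat_lit 24202570210205153) (.br (nat_lit 2) (.cons (.br (nat_lit 4) (.cons (.rel (nat_lit 1207960584)) .nil)) .nil)) (.node (.node .leaf (nat_lit 24202570210225553) (.br (nat_lit 0) (.cons (.br (nat_lit 5) (.cons (.rel (nat_lit 8598405120)) .nil)) .nil)) .leaf) (nat_lit 24202570210254858) (.br (nat_lit 1) (.cons (.br (nat_lit 2) (.cons (.rel (nat_lit 84213840)) .nil)) .nil)) .leaf)) (nat_lit 24202570210254904) (.br (nat_lit 1) (.cons (.br (nat_lit 3) (.cons (.rel (nat_lit 285229185)) .nil)) .nil)) (.node (.node (.node .leaf (nat_lit 24202570210255754) (.br (nat_lit 1) (.cons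 (.br (nat_lit 3) (.cons (.rel (nat_lit 285507588)) .nil)) .nil)) .leaf) (nat_lit 24202570210256906) (.br (nat_lit 0) (.cons (.br (nat_lit 3) (.cons (.rel (nat_lit 273678345)) (.cons (.rel (nat_lit 541131012)) (.cons (.rel (nat_lit 272892168)) .nil)))) (.cons (.br (nat_lit 1) (.cons (.rel (nat_lit 21239808)) (.cons (.rel (nat_lit 20971656)) .nil))) .nil))) .leaf) (nat_lit 24202570210258308) (.br (nat_lit 0) (.cons (.br (nat_lit 3) (.cons (.rel (nat_lit 545260608)) .nil)) .nil)) (.node (.node .leaf (nat_lit 24202570210268421) (.br (nat_lit 1) (.cons (.br (nat_lit 6) (.cons (.rel (nat_lit 17196662793)) .nil)) .nil)) .leaf) (nat_lit 24202570210273286) (.br (nat_lit 3) (.cons (.br (nat_lit 6) (.cons (.rel (nat_lit 34628437248)) .nil)) .nil)) .leaf))) (nat_lit 24202570210273290) (.br (nat_lit 3) (.cons (.br (nat_lit 1) (.cons (.rel (nat_lit 285540609)) (.cons (.rel (nat_lit 553649160)) .nil))) .nil)) (.node (.node (.node (.node .leaf (nat_lit 24202570210274565) (.br (nat_lit 1) (.cons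 (.br (nat_lit 0) (.cons (.rel (nat_lit 37765380)) (.cons (.rel (nat_lit 41943108)) (.cons (.rel (nat_lit 21234948)) .nil)))) .nil)) .leaf) (nat_lit 24202570210274590) (.br (nat_lit 0) (.cons (.br (nat_lit 1) (.cons (.rel (nat_lit 21234948)) .nil)) .nil)) (.node .leaf (nat_lit 24202570210274785) (.br (nat_lit 6) (.cons (.br (nat_lit 3) (.cons (.rel (nat_lit 17448309762)) (.cons (.rel (nat_lit 17448321048)) (.cons (.rel (nat_lit 17716740168)) .nil)))) .nil)) .leaf)) (nat_lit 24202570210275353) (.br (nat_lit 0) (.cons (.br (nat_lit 5) (.cons (.rel (nat_lit 4299325440)) (.cons (.rel (nat_lit 8598405120)) .nil))) .nil)) (.node (.node .leaf (nat_lit 24202570210276108) (.br (nat_lit 0) (.cons (.br (nat_lit 2) (.cons (.rel (nat_lit 71319810)) .nil)) .nil)) .leaf) (nat_lit 24202570210276253) (.br (nat_lit 0) (.cons (.br (nat_lit 5) (.cons (.rel (nat_lit 4299325440)) .nil)) .nil)) .leaf)) (nat_lit 24202570210276833) (.br (nat_lit 3) (.cons (.br (nat_lit 5) (.cons (.rel (nat_lit 9126809604))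 (.cons (.rel (nat_lit 4563468561)) .nil))) .nil)) (.node (.node (.node .leaf (nat_lit 24202570210278002) (.br (nat_lit 0) (.cons (.br (nat_lit 1) (.cons (.rel (nat_lit 38010960)) .nil)) .nil)) .leaf) (nat_lit 24202570210325892) (.br (nat_lit 2) (.cons (.br (nat_lit 3) (.cons (.rel (nat_lit 335544345)) .nil)) .nil)) .leaf) (nat_lit 24202570210992430) (.br (nat_lit 2) (.cons (.br (nat_lit 5) (.cons (.rel (nat_lit 8724415488)) .nil)) .nil)) (.node (.node .leaf (nat_lit 24202570210993678) (.br (nat_lit 2) (.cons (.br (nat_lit 4) (.cons (.rel (nat_lit 1208225856)) .nil)) .nil)) .leaf) (nat_lit 24202570211035163) (.br (nat_lit 2) (.cons (.br (nat_lit 4) (.cons (.rel (nat_lit 2282045457)) .nil)) .nil)) .leaf))))) (nat_lit 24202570211036398) (.br (nat_lit 0) (.cons (.br (nat_lit 1) (.cons (.rel (nat_lit 41943108)) .nil)) .nil)) (.node (.node (.node (.node (.node (.node .leaf (nat_lit 24202570211074853) (.br (nat_lit 1) (.cons (.br (nat_lit 2) (.cons (.rel (nat_lit 83906817)) .nil))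 .nil)) .leaf) (nat_lit 24202570211074935) (.br (nat_lit 2) (.cons (.br (nat_lit 4) (.cons (.rel (nat_lit 1140871248)) .nil)) .nil)) (.node .leaf (nat_lit 24202570211075310) (.br (nat_lit 0) (.cons (.br (nat_lit 1) (.cons (.rel (nat_lit 22347840)) .nil)) .nil)) .leaf)) (nat_lit 24202570211084298) (.br (nat_lit 0) (.cons (.br (nat_lit 2) (.cons (.rel (nat_lit 71309568)) .nil)) .nil)) (.node (.node .leaf (nat_lit 24202570211084313) (.br (nat_lit 0) (.cons (.br (nat_lit 2) (.cons (.rel (nat_lit 71567424)) (.cons (.rel (nat_lit 142610436)) .nil))) (.cons (.br (nat_lit 2) (.cons (.rel (nat_lit 71335956)) (.cons (.rel (nat_lit 71304708)) .nil))) .nil))) .leaf) (nat_lit 24202570211085838) (.br (nat_lit 2) (.cons (.br (nat_lit 6) (.cons (.rel (nat_lit 17246979168)) (.cons (.rel (nat_lit 17247011136)) .nil))) (.cons (.br (nat_lit 6) (.cons (.rel (nat_lit 17247633408)) (.cons (.rel (nat_lit 34427109444)) .nil))) .nil))) .leaf)) (nat_lit 24202570211228953) (.br (nat_lit 1) (.cons (.br (nat_lit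 6) (.cons (.rel (nat_lit 17198220288)) .nil)) .nil)) (.node (.node (.node .leaf (nat_lit 24202570211239942) (.br (nat_lit 2) (.cons (.br (nat_lit 6) (.cons (.rel (nat_lit 17249076225)) .nil)) .nil)) .leaf) (nat_lit 24202570211241348) (.br (nat_lit 1) (.cons (.br (nat_lit 2) (.cons (.rel (nat_lit 83888160)) .nil)) .nil)) .leaf) (nat_lit 24202570211246890) (.br (nat_lit 6) (.cons (.br (nat_lit 2) (.cons (.rel (nat_lit 34426851588)) (.cons (.rel (nat_lit 34494283776)) .nil))) .nil)) (.node (.node .leaf (nat_lit 24202570211280902) (.br (nat_lit 2) (.cons (.br (nat_lit 3) (.cons (.rel (nat_lit 671089665)) .nil)) .nil)) .leaf) (nat_lit 24202570211280906) (.br (nat_lit 6) (.cons (.br (nat_lit 5) (.cons (.rel (nat_lit 21474844740)) (.cons (.rel (nat_lit 21475361028)) (.cons (.rel (nat_lit 21476147205)) .nil)))) (.cons (.br (nat_lit 1) (.cons (.rel (nat_lit 17198220288)) (.cons (.rel (nat_lit 17196647682)) (.cons (.rel (nat_lit 17196646692)) .nil)))) .nil))) .leaf))) (nat_lit 24202570211280952)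 (.br (nat_lit 0) (.cons (.br (nat_lit 2) (.cons (.rel (nat_lit 139460640)) .nil)) .nil)) (.node (.node (.node (.node .leaf (nat_lit 24202570211281802) (.br (nat_lit 0) (.cons (.br (nat_lit 2) (.cons (.rel (nat_lit 142610436)) .nil)) .nil)) .leaf) (nat_lit 24202570211287050) (.br (nat_lit 4) (.cons (.br (nat_lit 0) (.cons (.rel (nat_lit 1077940488)) (.cons (.rel (nat_lit 1079574528)) (.cons (.rel (nat_lit 1082130528)) (.cons (.rel (nat_lit 1077940488)) (.cons (.rel (nat_lit 2155873536)) (.cons (.rel (nat_lit 2151678096)) .nil))))))) .nil)) (.node .leaf (nat_lit 24202570211287065) (.br (nat_lit 1) (.cons (.br (nat_lit 4) (.cons (.rel (nat_lit 2181038100)) .nil)) .nil)) .leaf)) (nat_lit 24202570211297435) (.br (nat_lit 3) (.cons (.br (nat_lit 5) (.cons (.rel (nat_lit 4563404292)) .nil)) .nil)) (.node (.node .leaf (nat_lit 24202570211298686) (.br (nat_lit 6) (.cons (.br (nat_lit 4) (.cons (.rel (nat_lit 18253611078)) (.cons (.rel (nat_lit 18253612113)) .nil))) .nil)) .leaf) (nat_lit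 24202570211300138) (.br (nat_lit 0) (.cons (.br (nat_lit 4) (.cons (.rel (nat_lit 1078198344)) (.cons (.rel (nat_lit 1084227585)) .nil))) .nil)) .leaf)) (nat_lit 24202570211340298) (.br (nat_lit 0) (.cons (.br (nat_lit 1) (.cons (.rel (nat_lit 41943108)) (.cons (.rel (nat_lit 20971656)) .nil))) (.cons (.br (nat_lit 1) (.cons (.rel (nat_lit 20971656)) (.cons (.rel (nat_lit 20971656)) .nil))) .nil))) (.node (.node (.node .leaf (nat_lit 24202570211340315) (.br (nat_lit 0) (.cons (.br (nat_lit 4) (.cons (.rel (nat_lit 1079574528)) .nil)) .nil)) .leaf) (nat_lit 24202570211484400) (.br (nat_lit 0) (.cons (.br (nat_lit 1) (.cons (.rel (nat_lit 21239808)) .nil)) .nil)) .leaf) (nat_lit 24202570211484428) (.br (nat_lit 0) (.cons (.br (nat_lit 2) (.cons (.rel (nat_lit 71304708)) (.cons (.rel (nat_lit 71319810)) .nil))) .nil)) (.node (.node .leaf (nat_lit 24202570211484953) (.br (nat_lit 0) (.cons (.br (nat_lit 3) (.cons (.rel (nat_lit 272957472)) .nil)) .nil)) .leaf) (nat_lit 24202570211493894)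 (.br (nat_lit 6) (.cons (.br (nat_lit 3) (.cons (.rel (nat_lit 17448309762)) (.cons (.rel (nat_lit 17448304902)) (.cons (.rel (nat_lit 17448309762)) (.cons (.rel (nat_lit 17448305937)) .nil))))) (.cons (.br (nat_lit 0) (.cons (.rel (nat_lit 17184064545)) (.cons (.rel (nat_lit 34365063168)) (.cons (.rel (nat_lit 34365063168)) (.cons (.rel (nat_lit 17184065544)) .nil))))) .nil))) .leaf)))) (nat_lit 24202570211494195) (.br (nat_lit 1) (.cons (.br (nat_lit 2) (.cons (.rel (nat_lit 150999168)) .nil)) .nil)) (.node (.node (.node (.node (.node .leaf (nat_lit 24202570211494640) (.br (nat_lit 0) (.cons (.br (nat_lit 1) (.cons (.rel (nat_lit 38010960)) .nil)) .nil)) .leaf) (nat_lit 24202570211506328) (.br (nat_lit 1) (.cons (.br (nat_lit 2) (.cons (.rel (nat_lit 83906817)) .nil)) .nil)) (.node .leaf (nat_lit 24202570211506331) (.br (nat_lit 5) (.cons (.br (nat_lit 0) (.cons (.rel (nat_lit 4299227169)) (.cons (.rel (nat_lit 4299227169)) (.cons (.rel (nat_lit 4300226625)) (.cons (.rel (nat_lit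 4299325440)) .nil))))) .nil)) .leaf)) (nat_lit 24202570211507681) (.br (nat_lit 5) (.cons (.br (nat_lit 6) (.cons (.rel (nat_lit 21474869328)) .nil)) .nil)) (.node (.node .leaf (nat_lit 24202570211507731) (.br (nat_lit 1) (.cons (.br (nat_lit 3) (.cons (.rel (nat_lit 553649160)) .nil)) .nil)) .leaf) (nat_lit 24202570211532825) (.br (nat_lit 0) (.cons (.br (nat_lit 1) (.cons (.rel (nat_lit 37756929)) (.cons (.rel (nat_lit 20971656)) .nil))) (.cons (.br (nat_lit 1) (.cons (.rel (nat_lit 22022160)) (.cons (.rel (nat_lit 21250050)) .nil))) .nil))) .leaf)) (nat_lit 24202570211533561) (.br (nat_lit 0) (.cons (.br (nat_lit 1) (.cons (.rel (nat_lit 25166097)) .nil)) .nil)) (.node (.node (.node .leaf (nat_lit 24202570211533575) (.br (nat_lit 0) (.cons (.br (nat_lit 3) (.cons (.rel (nat_lit 276828177)) .nil)) .nil)) .leaf) (nat_lit 24202570211534055) (.br (nat_lit 0) (.cons (.br (nat_lit 1) (.cons (.rel (nat_lit 41943108)) .nil)) .nil)) .leaf) (nat_lit 24202570211596924) (.br (nat_lit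 2) (.cons (.br (nat_lit 3) (.cons (.rel (nat_lit 335568897)) .nil)) .nil)) (.node (.node .leaf (nat_lit 24202570211597694) (.br (nat_lit 4) (.cons (.br (nat_lit 0) (.cons (.rel (nat_lit 1082130528)) (.cons (.rel (nat_lit 1077968901)) .nil))) .nil)) .leaf) (nat_lit 24202570212251654) (.br (nat_lit 2) (.cons (.br (nat_lit 1) (.cons (.rel (nat_lit 84935748)) (.cons (.rel (nat_lit 83886090)) .nil))) .nil)) .leaf))) (nat_lit 24202570212251704) (.br (nat_lit 2) (.cons (.br (nat_lit 0) (.cons (.rel (nat_lit 71335956)) (.cons (.rel (nat_lit 138412161)) .nil))) .nil)) (.node (.node (.node (.node .leaf (nat_lit 24202570212252554) (.br (nat_lit 3) (.cons (.br (nat_lit 5) (.cons (.rel (nat_lit 4563404292)) .nil)) .nil)) .leaf) (nat_lit 24202570212252573) (.br (nat_lit 4) (.cons (.br (nat_lit 5) (.cons (.rel (nat_lit 5368774737)) .nil)) .nil)) (.node .leaf (nat_lit 24202570212272153) (.br (nat_lit 0) (.cons (.br (nat_lit 2) (.cons (.rel (nat_lit 142610436)) .nil)) .nil)) .leaf)) (nat_lit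 24202570212273053) (.br (nat_lit 1) (.cons (.br (nat_lit 6) (.cons (.rel (nat_lit 17213425728)) .nil)) .nil)) (.node (.node .leaf (nat_lit 24202570212302904) (.br (nat_lit 1) (.cons (.br (nat_lit 2) (.cons (.rel (nat_lit 83886090)) (.cons (.rel (nat_lit 100671552)) .nil))) .nil)) .leaf) (nat_lit 24202570212303028) (.br (nat_lit 4) (.cons (.br (nat_lit 3) (.cons (.rel (nat_lit 1343815968)) (.cons (.rel (nat_lit 2416189440)) .nil))) .nil)) .leaf)) (nat_lit 24202570212303754) (.br (nat_lit 1) (.cons (.br (nat_lit 3) (.cons (.rel (nat_lit 285507588)) .nil)) .nil)) (.node (.node (.node .leaf (nat_lit 24202570212304099) (.br (nat_lit 1) (.cons (.br (nat_lit 2) (.cons (.rel (nat_lit 167773200)) (.cons (.rel (nat_lit 167772165)) .nil))) .nil)) .leaf) (nat_lit 24202570212507658) (.br (nat_lit 2) (.cons (.br (nat_lit 0) (.cons (.rel (nat_lit 71434245)) (.cons (.rel (nat_lit 71304708)) (.cons (.rel (nat_lit 142610436)) (.cons (.rel (nat_lit 142610436)) .nil))))) (.cons (.br (nat_lit 0)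 (.cons (.rel (nat_lit 142610436)) (.cons (.rel (nat_lit 71309568)) (.cons (.rel (nat_lit 71434245)) (.cons (.rel (nat_lit 71304708)) .nil))))) (.cons (.br (nat_lit 0) (.cons (.rel (nat_lit 71304708)) (.cons (.rel (nat_lit 71304708)) (.cons (.rel (nat_lit 71304708)) (.cons (.rel (nat_lit 77594640)) .nil))))) .nil)))) .leaf) (nat_lit 24202570212507675) (.br (nat_lit 3) (.cons (.br (nat_lit 0) (.cons (.rel (nat_lit 545260608)) (.cons (.rel (nat_lit 541065744)) (.cons (.rel (nat_lit 272892168)) .nil)))) .nil)) (.node (.node .leaf (nat_lit 24202570212507803) (.br (nat_lit 5) (.cons (.br (nat_lit 3) (.cons (.rel (nat_lit 9126809604)) (.cons (.rel (nat_lit 9126809604)) (.cons (.rel (nat_lit 4563533829)) .nil)))) (.cons (.br (nat_lit 2) (.cons (.rel (nat_lit 4362141792)) (.cons (.rel (nat_lit 4362076488)) (.cons (.rel (nat_lit 4362602496)) (.cons (.rel (nat_lit 4362092625)) (.cons (.rel (nat_lit 4429185552)) (.cons (.rel (nat_lit 4362141792)) (.cons (.rel (nat_lit 4362076488)) (.cons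 (.rel (nat_lit 4362081348)) .nil))))))))) .nil))) .leaf) (nat_lit 24202570212507835) (.br (nat_lit 3) (.cons (.br (nat_lit 1) (.cons (.rel (nat_lit 285278352)) (.cons (.rel (nat_lit 285540609)) .nil))) .nil)) .leaf)))))) (nat_lit 24202570212507954) (.br (nat_lit 1) (.cons (.br (nat_lit 0) (.cons (.rel (nat_lit 21234948)) (.cons (.rel (nat_lit 21299217)) .nil))) .nil)) (.node (.node (.node (.node (.node (.node (.node .leaf (nat_lit 24202570212508400) (.br (nat_lit 0) (.cons (.br (nat_lit 3) (.cons (.rel (nat_lit 272631936)) (.cons (.rel (nat_lit 272629914)) .nil))) (.cons (.br (nat_lit 3) (.cons (.rel (nat_lit 276889620)) (.cons (.rel (nat_lit 272957472)) .nil))) .nil))) .leaf) (nat_lit 24202570212508408) (.br (nat_lit 0) (.cons (.br (nat_lit 3) (.cons (.rel (nat_lit 272892168)) (.cons (.rel (nat_lit 273678345)) .nil))) .nil)) (.node .leaf (nat_lit 24202570212508409) (.br (nat_lit 0) (.cons (.br (nat_lit 3) (.cons (.rel (nat_lit 276840453)) .nil)) .nil)) .leaf)) (nat_lit 24202570212508423)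 (.br (nat_lit 1) (.cons (.br (nat_lit 3) (.cons (.rel (nat_lit 553649160)) (.cons (.rel (nat_lit 285229185)) .nil))) (.cons (.br (nat_lit 3) (.cons (.rel (nat_lit 285229185)) (.cons (.rel (nat_lit 285495312)) .nil))) .nil))) (.node (.node .leaf (nat_lit 24202570212508428) (.br (nat_lit 2) (.cons (.br (nat_lit 3) (.cons (.rel (nat_lit 402919680)) (.cons (.rel (nat_lit 335546370)) (.cons (.rel (nat_lit 335546370)) .nil)))) (.cons (.br (nat_lit 0) (.cons (.rel (nat_lit 75497538)) (.cons (.rel (nat_lit 71368977)) (.cons (.rel (nat_lit 71434245)) .nil)))) .nil))) .leaf) (nat_lit 24202570212508458) (.br (nat_lit 5) (.cons (.br (nat_lit 3) (.cons (.rel (nat_lit 9126809604)) (.cons (.rel (nat_lit 4563435540)) (.cons (.rel (nat_lit 9126809604)) (.cons (.rel (nat_lit 9126809604)) .nil))))) .nil)) .leaf)) (nat_lit 24202570212508573) (.br (nat_lit 2) (.cons (.br (nat_lit 3) (.cons (.rel (nat_lit 671089665)) (.cons (.rel (nat_lit 335544345)) (.cons (.rel (nat_lit 671089665)) .nil)))) (.cons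 (.br (nat_lit 5) (.cons (.rel (nat_lit 8657059845)) (.cons (.rel (nat_lit 4429217802)) .nil))) .nil))) (.node (.node (.node .leaf (nat_lit 24202570212508910) (.br (nat_lit 3) (.cons (.br (nat_lit 1) (.cons (.rel (nat_lit 286265352)) (.cons (.rel (nat_lit 303038529)) .nil))) .nil)) .leaf) (nat_lit 24202570212508953) (.br (nat_lit 0) (.cons (.br (nat_lit 1) (.cons (.br (nat_lit 3) (.cons (.rel (nat_lit 272892168)) (.cons (.rel (nat_lit 272897028)) (.cons (.rel (nat_lit 285507588)) .nil)))) (.cons (.rel (nat_lit 25166097)) .nil))) .nil)) .leaf) (nat_lit 24202570212508959) (.br (nat_lit 0) (.cons (.br (nat_lit 1) (.cons (.rel (nat_lit 25231365)) .nil)) .nil)) (.node (.node .leaf (nat_lit 24202570212509073) (.br (nat_lit 2) (.cons (.br (nat_lit 6) (.cons (.rel (nat_lit 34494283776)) .nil)) .nil)) .leaf) (nat_lit 24202570212509153) (.br (nat_lit 3) (.cons (.br (nat_lit 5) (.cons (.rel (nat_lit 9126809604)) (.cons (.rel (nat_lit 4563404292)) (.cons (.rel (nat_lit 4563404292)) .nil))))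 (.cons (.br (nat_lit 1) (.cons (.rel (nat_lit 553746432)) (.cons (.rel (nat_lit 286265352)) (.cons (.rel (nat_lit 285540609)) (.cons (.rel (nat_lit 553649160)) .nil))))) .nil))) .leaf))) (nat_lit 24202570212568566) (.br (nat_lit 4) (.cons (.br (nat_lit 5) (.cons (.rel (nat_lit 10737680388)) .nil)) .nil)) (.node (.node (.node (.node .leaf (nat_lit 24202570212569873) (.br (nat_lit 3) (.cons (.br (nat_lit 0) (.cons (.rel (nat_lit 273679380)) (.cons (.rel (nat_lit 273679380)) .nil))) .nil)) .leaf) (nat_lit 24202570212632586) (.br (nat_lit 4) (.cons (.br (nat_lit 6) (.cons (.rel (nat_lit 18253611078)) .nil)) .nil)) (.node .leaf (nat_lit 24202570212632632) (.br (nat_lit 1) (.cons (.br (nat_lit 5) (.cons (.rel (nat_lit 4311777285)) (.cons (.rel (nat_lit 4311777285)) .nil))) (.cons (.br (nat_lit 2) (.cons (.rel (nat_lit 83887125)) (.cons (.rel (nat_lit 83906817)) .nil))) .nil))) .leaf)) (nat_lit 24202570212632883) (.br (nat_lit 1) (.cons (.br (nat_lit 2) (.cons (.rel (nat_lit 167772165))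 .nil)) .nil)) (.node (.node .leaf (nat_lit 24202570212633357) (.br (nat_lit 3) (.cons (.br (nat_lit 6) (.cons (.rel (nat_lit 34628437248)) .nil)) .nil)) .leaf) (nat_lit 24202570212633361) (.br (nat_lit 3) (.cons (.br (nat_lit 4) (.cons (.rel (nat_lit 1342177290)) .nil)) .nil)) .leaf)) (nat_lit 24202570212633386) (.br (nat_lit 5) (.cons (.br (nat_lit 1) (.cons (.rel (nat_lit 8606973984)) (.cons (.rel (nat_lit 4313382912)) .nil))) .nil)) (.node (.node (.node .leaf (nat_lit 24202570212634081) (.br (nat_lit 5) (.cons (.br (nat_lit 0) (.cons (.rel (nat_lit 4299325440)) (.cons (.rel (nat_lit 4300275792)) (.cons (.rel (nat_lit 4299325440)) .nil)))) .nil)) .leaf) (nat_lit 24202570212815629) (.br (nat_lit 0) (.cons (.br (nat_lit 2) (.cons (.rel (nat_lit 142610436)) .nil)) .nil)) .leaf) (nat_lit 24202570212816398) (.br (nat_lit 0) (.cons (.br (nat_lit 1) (.cons (.rel (nat_lit 41943108)) .nil)) .nil)) (.node (.node .leaf (nat_lit 24202570212865535) (.br (nat_lit 1) (.cons (.br (nat_lit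 2) (.cons (.rel (nat_lit 167773200)) (.cons (.rel (nat_lit 167772165)) .nil))) (.cons (.br (nat_lit 3) (.cons (.rel (nat_lit 285278352)) (.cons (.rel (nat_lit 285229185)) .nil))) .nil))) .leaf) (nat_lit 24202570212867574) (.br (nat_lit 0) (.cons (.br (nat_lit 3) (.cons (.rel (nat_lit 277875012)) .nil)) .nil)) .leaf)))) (nat_lit 24202570736796428) (.br (nat_lit 0) (.cons (.br (nat_lit 2) (.cons (.rel (nat_lit 71368977)) .nil)) .nil)) (.node (.node (.node (.node (.node .leaf (nat_lit 24202570757767178) (.br (nat_lit 0) (.cons (.br (nat_lit 1) (.cons (.rel (nat_lit 20971656)) .nil)) .nil)) .leaf) (nat_lit 24202571304988697) (.br (nat_lit 0) (.cons (.br (nat_lit 1) (.cons (.rel (nat_lit 20971656)) .nil)) .nil)) (.node .leaf (nat_lit 24202571306246930) (.br (nat_lit 0) (.cons (.br (nat_lit 1) (.cons (.rel (nat_lit 37765380)) .nil)) .nil)) .leaf)) (nat_lit 24202571307222254) (.br (nat_lit 0) (.cons (.br (nat_lit 1) (.cons (.rel (nat_lit 21234948)) (.cons (.rel (nat_lit 41943108))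 (.cons (.rel (nat_lit 21239808)) .nil)))) (.cons (.br (nat_lit 3) (.cons (.rel (nat_lit 272892168)) (.cons (.rel (nat_lit 272908305)) (.cons (.rel (nat_lit 272957472)) .nil)))) .nil))) (.node (.node .leaf (nat_lit 24202573984566009) (.br (nat_lit 0) (.cons (.br (nat_lit 2) (.cons (.rel (nat_lit 142610436)) .nil)) .nil)) .leaf) (nat_lit 24202573984566028) (.br (nat_lit 0) (.cons (.br (nat_lit 5) (.cons (.rel (nat_lit 8598405120)) (.cons (.rel (nat_lit 8594653248)) .nil))) (.cons (.br (nat_lit 3) (.cons (.rel (nat_lit 272892168)) (.cons (.rel (nat_lit 276824352)) .nil))) .nil))) .leaf)) (nat_lit 24202573984566503) (.br (nat_lit 1) (.cons (.br (nat_lit 3) (.cons (.rel (nat_lit 285278352)) .nil)) .nil)) (.node (.node (.node .leaf (nat_lit 24202573984566553) (.br (nat_lit 0) (.cons (.br (nat_lit 5) (.cons (.rel (nat_lit 4299178002)) .nil)) .nil)) .leaf) (nat_lit 24202573984690331) (.br (nat_lit 0) (.cons (.br (nat_lit 1) (.cons (.rel (nat_lit 21299217)) .nil)) .nil)) .leaf) (nat_lit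 24202573985099278) (.br (nat_lit 0) (.cons (.br (nat_lit 1) (.cons (.rel (nat_lit 21299217)) .nil)) .nil)) (.node (.node .leaf (nat_lit 24202573985130506) (.br (nat_lit 0) (.cons (.br (nat_lit 5) (.cons (.rel (nat_lit 8595177744)) (.cons (.rel (nat_lit 4299161865)) (.cons (.rel (nat_lit 4299228168)) (.cons (.rel (nat_lit 4299162900)) .nil))))) (.cons (.br (nat_lit 1) (.cons (.rel (nat_lit 37756929)) (.cons (.rel (nat_lit 21234948)) .nil))) .nil))) .leaf) (nat_lit 24202573985147640) (.br (nat_lit 0) (.cons (.br (nat_lit 2) (.cons (.rel (nat_lit 71304708)) (.cons (.rel (nat_lit 142610436)) .nil))) .nil)) .leaf))) (nat_lit 24202573985148953) (.br (nat_lit 2) (.cons (.br (nat_lit 6) (.cons (.rel (nat_lit 17247633408)) .nil)) .nil)) (.node (.node (.node (.node .leaf (nat_lit 24202573985949174) (.br (nat_lit 1) (.cons (.br (nat_lit 2) (.cons (.rel (nat_lit 83888160)) .nil)) .nil)) .leaf) (nat_lit 24202573985958698) (.br (nat_lit 1) (.cons (.br (nat_lit 0) (.cons (.rel (nat_lit 26214720))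 (.cons (.rel (nat_lit 41943108)) .nil))) .nil)) (.node .leaf (nat_lit 24202573985959198) (.br (nat_lit 5) (.cons (.br (nat_lit 6) (.cons (.rel (nat_lit 21474869328)) .nil)) .nil)) .leaf)) (nat_lit 24202573986160650) (.br (nat_lit 1) (.cons (.br (nat_lit 0) (.cons (.rel (nat_lit 41943108)) (.cons (.rel (nat_lit 25166097)) (.cons (.rel (nat_lit 37756929)) (.cons (.rel (nat_lit 20971656)) (.cons (.rel (nat_lit 37818372)) (.cons (.rel (nat_lit 21234948)) .nil))))))) (.cons (.br (nat_lit 3) (.cons (.rel (nat_lit 286265352)) (.cons (.br (nat_lit 6) (.cons (.rel (nat_lit 17718116352)) (.cons (.rel (nat_lit 17718116352)) .nil))) .nil))) .nil))) (.node (.node .leaf (nat_lit 24202573986161895) (.br (nat_lit 1) (.cons (.br (nat_lit 3) (.cons (.rel (nat_lit 286263552)) .nil)) .nil)) .leaf) (nat_lit 24202573986358553) (.br (nat_lit 0) (.cons (.br (nat_lit 1) (.cons (.rel (nat_lit 20971656)) .nil)) .nil)) .leaf)) (nat_lit 24202573987125254) (.br (nat_lit 1) (.cons (.br (nat_lit 3) (.cons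 (.rel (nat_lit 285495312)) .nil)) .nil)) (.node (.node (.node .leaf (nat_lit 24202573987126173) (.br (nat_lit 0) (.cons (.br (nat_lit 2) (.cons (.rel (nat_lit 142610436)) .nil)) .nil)) .leaf) (nat_lit 24202573987145753) (.br (nat_lit 0) (.cons (.br (nat_lit 2) (.cons (.rel (nat_lit 71368977)) .nil)) .nil)) .leaf) (nat_lit 24202573987381403) (.br (nat_lit 0) (.cons (.br (nat_lit 3) (.cons (.rel (nat_lit 272892168)) (.cons (.rel (nat_lit 272892168)) .nil))) (.cons (.br (nat_lit 1) (.cons (.rel (nat_lit 25169922)) (.cons (.rel (nat_lit 20971656)) .nil))) .nil))) (.node (.node .leaf (nat_lit 24202573987382009) (.br (nat_lit 0) (.cons (.br (nat_lit 2) (.cons (.rel (nat_lit 142610436)) .nil)) .nil)) .leaf) (nat_lit 24202573987382023) (.br (nat_lit 1) (.cons (.br (nat_lit 3) (.cons (.rel (nat_lit 285278352)) .nil)) .nil)) .leaf))))) (nat_lit 24202573987382028) (.br (nat_lit 2) (.cons (.br (nat_lit 3) (.cons (.rel (nat_lit 402919680)) .nil)) .nil)) (.node (.node (.node (.node (.node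 (.node .leaf (nat_lit 24202573987382503) (.br (nat_lit 0) (.cons (.br (nat_lit 3) (.cons (.rel (nat_lit 276889620)) .nil)) .nil)) .leaf) (nat_lit 24202573987382510) (.br (nat_lit 0) (.cons (.br (nat_lit 6) (.cons (.rel (nat_lit 17184145680)) .nil)) .nil)) (.node .leaf (nat_lit 24202573987382553) (.br (nat_lit 0) (.cons (.br (nat_lit 3) (.cons (.rel (nat_lit 276889620)) (.cons (.rel (nat_lit 272897028)) .nil))) .nil)) .leaf)) (nat_lit 24202573987382753) (.br (nat_lit 3) (.cons (.br (nat_lit 0) (.cons (.rel (nat_lit 272892168)) (.cons (.rel (nat_lit 272897028)) .nil))) .nil)) (.node (.node .leaf (nat_lit 24202573987441415) (.br (nat_lit 1) (.cons (.br (nat_lit 2) (.cons (.rel (nat_lit 83886090)) .nil)) .nil)) .leaf) (nat_lit 24202576186575628) (.br (nat_lit 0) (.cons (.br (nat_lit 5) (.cons (.rel (nat_lit 4299178002)) (.cons (.rel (nat_lit 8598405120)) (.cons (.rel (nat_lit 8594653248)) .nil)))) (.cons (.br (nat_lit 1) (.cons (.rel (nat_lit 22089984)) (.cons (.rel (nat_lit 38010960))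 .nil))) .nil))) .leaf)) (nat_lit 24202576186576103) (.br (nat_lit 3) (.cons (.br (nat_lit 5) (.cons (.rel (nat_lit 4563435540)) .nil)) .nil)) (.node (.node (.node .leaf (nat_lit 24202576186576153) (.br (nat_lit 0) (.cons (.br (nat_lit 5) (.cons (.rel (nat_lit 8598405120)) .nil)) .nil)) .leaf) (nat_lit 24202576186701281) (.br (nat_lit 1) (.cons (.br (nat_lit 6) (.cons (.rel (nat_lit 17196662793)) .nil)) .nil)) .leaf) (nat_lit 24202576187096425) (.br (nat_lit 1) (.cons (.br (nat_lit 2) (.cons (.rel (nat_lit 169426944)) .nil)) .nil)) (.node (.node .leaf (nat_lit 24202576187108253) (.br (nat_lit 0) (.cons (.br (nat_lit 1) (.cons (.rel (nat_lit 21250050)) .nil)) .nil)) .leaf) (nat_lit 24202576187108753) (.br (nat_lit 0) (.cons (.br (nat_lit 3) (.cons (.br (nat_lit 5) (.cons (.rel (nat_lit 4299178002)) (.cons (.rel (nat_lit 4831854660)) .nil))) (.cons (.rel (nat_lit 276840453)) .nil))) .nil)) .leaf))) (nat_lit 24202576187138954) (.br (nat_lit 3) (.cons (.br (nat_lit 5) (.cons (.rel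 (nat_lit 4563435540)) .nil)) .nil)) (.node (.node (.node (.node .leaf (nat_lit 24202576187156490) (.br (nat_lit 0) (.cons (.br (nat_lit 3) (.cons (.rel (nat_lit 273688833)) .nil)) .nil)) .leaf) (nat_lit 24202576187157405) (.br (nat_lit 1) (.cons (.br (nat_lit 3) (.cons (.rel (nat_lit 285507588)) .nil)) .nil)) (.node .leaf (nat_lit 24202576187157905) (.br (nat_lit 1) (.cons (.br (nat_lit 0) (.cons (.rel (nat_lit 20971656)) (.cons (.rel (nat_lit 41943108)) .nil))) .nil)) .leaf)) (nat_lit 24202576187157985) (.br (nat_lit 1) (.cons (.br (nat_lit 4) (.cons (.rel (nat_lit 1090519080)) .nil)) .nil)) (.node (.node .leaf (nat_lit 24202576187159453) (.br (nat_lit 1) (.cons (.br (nat_lit 3) (.cons (.rel (nat_lit 286265352)) .nil)) .nil)) .leaf) (nat_lit 24202576187968298) (.br (nat_lit 0) (.cons (.br (nat_lit 3) (.cons (.rel (nat_lit 277876800)) .nil)) .nil)) .leaf)) (nat_lit 24202576188162079) (.br (nat_lit 3) (.cons (.br (nat_lit 5) (.cons (.rel (nat_lit 4563409152)) .nil)) .nil)) (.node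 (.node (.node .leaf (nat_lit 24202576188163303) (.br (nat_lit 1) (.cons (.br (nat_lit 3) (.cons (.rel (nat_lit 285507588)) .nil)) .nil)) .leaf) (nat_lit 24202576188163454) (.br (nat_lit 1) (.cons (.br (nat_lit 5) (.cons (.rel (nat_lit 4311748872)) .nil)) .nil)) .leaf) (nat_lit 24202576188171495) (.br (nat_lit 4) (.cons (.br (nat_lit 6) (.cons (.rel (nat_lit 19327353096)) (.cons (.rel (nat_lit 18254925828)) .nil))) (.cons (.br (nat_lit 1) (.cons (.rel (nat_lit 2166882321)) (.cons (.rel (nat_lit 2181038100)) (.cons (.rel (nat_lit 1090519080)) .nil)))) .nil))) (.node (.node .leaf (nat_lit 24202576188181365) (.br (nat_lit 4) (.cons (.br (nat_lit 6) (.cons (.rel (nat_lit 35433611280)) .nil)) .nil)) .leaf) (nat_lit 24202576188183953) (.br (nat_lit 0) (.cons (.br (nat_lit 2) (.cons (.rel (nat_lit 71434245)) (.cons (.rel (nat_lit 71304708)) .nil))) (.cons (.br (nat_lit 2) (.cons (.rel (nat_lit 142610436)) (.cons (.rel (nat_lit 142610436)) .nil))) .nil))) .leaf)))) (nat_lit 24202576188367153)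 (.br (nat_lit 0) (.cons (.br (nat_lit 5) (.cons (.rel (nat_lit 8598405120)) (.cons (.rel (nat_lit 4299325440)) (.cons (.rel (nat_lit 8594653248)) .nil)))) .nil)) (.node (.node (.node (.node (.node .leaf (nat_lit 24202576188367603) (.br (nat_lit 0) (.cons (.br (nat_lit 1) (.cons (.rel (nat_lit 25166097)) .nil)) .nil)) .leaf) (nat_lit 24202576188368103) (.br (nat_lit 1) (.cons (.br (nat_lit 0) (.cons (.rel (nat_lit 21250050)) (.cons (.rel (nat_lit 37753104)) .nil))) .nil)) (.node .leaf (nat_lit 24202576188377094) (.br (nat_lit 0) (.cons (.br (nat_lit 1) (.cons (.rel (nat_lit 41943108)) (.cons (.rel (nat_lit 20971656)) (.cons (.rel (nat_lit 20971656)) .nil)))) (.cons (.br (nat_lit 1) (.cons (.rel (nat_lit 20971656)) (.cons (.rel (nat_lit 41943108)) (.cons (.rel (nat_lit 41943108)) .nil)))) .nil))) .leaf)) (nat_lit 24202576188377344) (.br (nat_lit 2) (.cons (.br (nat_lit 3) (.cons (.rel (nat_lit 335546370)) .nil)) .nil)) (.node (.node .leaf (nat_lit 24202576188377345) (.br (nat_lit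 1) (.cons (.br (nat_lit 4) (.cons (.rel (nat_lit 1090521105)) .nil)) .nil)) .leaf) (nat_lit 24202576188389531) (.br (nat_lit 6) (.cons (.br (nat_lit 0) (.cons (.rel (nat_lit 17184063510)) (.cons (.rel (nat_lit 34368128004)) (.cons (.rel (nat_lit 34364194821)) (.cons (.rel (nat_lit 17184064545)) .nil))))) (.cons (.br (nat_lit 5) (.cons (.rel (nat_lit 21474967617)) (.cons (.rel (nat_lit 21474869328)) (.cons (.rel (nat_lit 38654706945)) .nil)))) .nil))) .leaf)) (nat_lit 24202576188390902) (.br (nat_lit 1) (.cons (.br (nat_lit 2) (.cons (.rel (nat_lit 167772165)) .nil)) .nil)) (.node (.node (.node .leaf (nat_lit 24202576188416810) (.br (nat_lit 1) (.cons (.br (nat_lit 6) (.cons (.rel (nat_lit 17196646692)) .nil)) .nil)) .leaf) (nat_lit 24202576189134854) (.br (nat_lit 0) (.cons (.br (nat_lit 1) (.cons (.rel (nat_lit 37765380)) (.cons (.rel (nat_lit 20971656)) .nil))) .nil)) .leaf) (nat_lit 24202576189135754) (.br (nat_lit 0) (.cons (.br (nat_lit 5) (.cons (.rel (nat_lit 4299161865))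 .nil)) .nil)) (.node (.node .leaf (nat_lit 24202576189186954) (.br (nat_lit 0) (.cons (.br (nat_lit 1) (.cons (.rel (nat_lit 38010960)) .nil)) .nil)) .leaf) (nat_lit 24202576189391003) (.br (nat_lit 0) (.cons (.br (nat_lit 3) (.cons (.rel (nat_lit 272631936)) (.cons (.rel (nat_lit 545260608)) (.cons (.rel (nat_lit 273699072)) (.cons (.rel (nat_lit 541131012)) .nil))))) (.cons (.br (nat_lit 2) (.cons (.rel (nat_lit 71335956)) (.cons (.rel (nat_lit 72892416)) (.cons (.rel (nat_lit 142610436)) (.cons (.rel (nat_lit 139460640)) (.cons (.rel (nat_lit 142610436)) .nil)))))) (.cons (.br (nat_lit 3) (.cons (.rel (nat_lit 273699072)) (.cons (.rel (nat_lit 273678345)) (.cons (.rel (nat_lit 545260608)) (.cons (.rel (nat_lit 541131012)) .nil))))) (.cons (.br (nat_lit 1) (.cons (.rel (nat_lit 20971656)) (.cons (.rel (nat_lit 41943108)) (.cons (.rel (nat_lit 41943108)) (.cons (.rel (nat_lit 41943108)) (.cons (.rel (nat_lit 20971656)) .nil)))))) .nil))))) .leaf))) (nat_lit 24202576189391153)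 (.br (nat_lit 0) (.cons (.br (nat_lit 3) (.cons (.rel (nat_lit 272892168)) .nil)) .nil)) (.node (.node (.node (.node .leaf (nat_lit 24202576189391600) (.br (nat_lit 1) (.cons (.br (nat_lit 5) (.cons (.rel (nat_lit 8623490304)) .nil)) .nil)) .leaf) (nat_lit 24202576189391603) (.br (nat_lit 0) (.cons (.br (nat_lit 1) (.cons (.rel (nat_lit 21250050)) .nil)) .nil)) (.node .leaf (nat_lit 24202576189391628) (.br (nat_lit 5) (.cons (.br (nat_lit 2) (.cons (.rel (nat_lit 4362092625)) (.cons (.rel (nat_lit 4364238849)) .nil))) .nil)) .leaf)) (nat_lit 24202576189391653) (.br (nat_lit 0) (.cons (.br (nat_lit 5) (.cons (.rel (nat_lit 4299325440)) (.cons (.rel (nat_lit 4299178002)) (.cons (.rel (nat_lit 8598405120)) .nil)))) .nil)) (.node (.node .leaf (nat_lit 24202576189391658) (.br (nat_lit 6) (.cons (.br (nat_lit 0) (.cons (.rel (nat_lit 17185112133)) (.cons (.rel (nat_lit 17184149505)) .nil))) .nil)) .leaf) (nat_lit 24202576189392103) (.br (nat_lit 0) (.cons (.br (nat_lit 4) (.cons (.rel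 (nat_lit 1083441408)) (.cons (.rel (nat_lit 1077968901)) (.cons (.rel (nat_lit 2155873536)) .nil)))) .nil)) .leaf)) (nat_lit 24202576189392159) (.br (nat_lit 0) (.cons (.br (nat_lit 4) (.cons (.rel (nat_lit 2155873536)) .nil)) .nil)) (.node (.node (.node .leaf (nat_lit 24202576189392260) (.br (nat_lit 0) (.cons (.br (nat_lit 2) (.cons (.rel (nat_lit 71335956)) (.cons (.rel (nat_lit 142610436)) .nil))) .nil)) .leaf) (nat_lit 24202576189392353) (.br (nat_lit 5) (.cons (.br (nat_lit 1) (.cons (.rel (nat_lit 8624603208)) (.cons (.rel (nat_lit 4311761184)) .nil))) .nil)) .leaf) (nat_lit 24202576189517281) (.br (nat_lit 2) (.cons (.br (nat_lit 1) (.cons (.rel (nat_lit 167772165)) (.cons (.rel (nat_lit 83888160)) .nil))) .nil)) (.node (.node .leaf (nat_lit 24202576545906698) (.br (nat_lit 0) (.cons (.br (nat_lit 2) (.cons (.rel (nat_lit 142610436)) .nil)) .nil)) .leaf) (nat_lit 24202576546163488) (.br (nat_lit 1) (.cons (.br (nat_lit 2) (.cons (.rel (nat_lit 167772165)) .nil)) .nil))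 .leaf)))))))

/-- refutations 105 -/
def e105 : EX := (.node (.node (.node .leaf (nat_lit 23083147116212251) (.br (nat_lit 0) (.cons (.br (nat_lit 4) (.cons (.rel (nat_lit 1077968901)) .nil)) .nil)) .leaf) (nat_lit 23083147753952659) (.br (nat_lit 0) (.cons (.br (nat_lit 1) (.cons (.rel (nat_lit 41943108)) .nil)) .nil)) .leaf) (nat_lit 23086752720490506) (.br (nat_lit 1) (.cons (.br (nat_lit 3) (.cons (.rel (nat_lit 302137344)) .nil)) .nil)) (.node .leaf (nat_lit 23087653742504863) (.br (nat_lit 0) (.cons (.br (nat_lit 1) (.cons (.rel (nat_lit 41943108)) .nil)) .nil)) .leaf))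

/-- refutations 106 -/
def e106 : EX := (.node .leaf (nat_lit 24282803976338833) (.br (nat_lit 1) (.cons (.br (nat_lit 2) (.cons (.rel (nat_lit 101187840)) .nil)) .nil)) .leaf)

/-- refutations 107 -/
def e107 : EX := (.node (.node (.node (.node (.node .leaf (nat_lit 24313749779827474) (.br (nat_lit 1) (.cons (.br (nat_lit 3) (.cons (.rel (nat_lit 301994496)) .nil)) .nil)) .leaf) (nat_lit 24314004637769915) (.br (nat_lit 0) (.cons (.br (nat_lit 1) (.cons (.rel (nat_lit 25169922)) .nil)) .nil)) .leaf) (nat_lit 24318265247934474) (.br (nat_lit 2) (.cons (.br (nat_lit 4) (.cons (.rel (nat_lit 1143017472)) .nil)) .nil)) (.node .leaf (nat_lit 24325346250033162) (.br (nat_lit 2) (.cons (.br (nat_lit 4) (.cons (.rel (nat_lit 2214739968)) .nil)) .nil)) .leaf)) (nat_lit 24325346250033329) (.br (nat_lit 3) (.cons (.br (nat_lit 2) (.cons (.rel (nat_lit 335545380)) (.cons (.rel (nat_lit 671089665)) .nil))) .nil)) (.node (.node .leaf (nat_lit 24325346250203146) (.br (nat_lit 0) (.cons (.br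 (nat_lit 2) (.cons (.rel (nat_lit 71368977)) .nil)) .nil)) .leaf) (nat_lit 24325346250246154) (.br (nat_lit 0) (.cons (.br (nat_lit 2) (.cons (.rel (nat_lit 71319810)) (.cons (.rel (nat_lit 71309568)) .nil))) (.cons (.br (nat_lit 2) (.cons (.rel (nat_lit 71323680)) (.cons (.rel (nat_lit 72892416)) .nil))) .nil))) (.node .leaf (nat_lit 24325346250246425) (.br (nat_lit 3) (.cons (.br (nat_lit 5) (.cons (.rel (nat_lit 8859419136)) (.cons (.rel (nat_lit 4563409152)) .nil))) (.cons (.br (nat_lit 4) (.cons (.rel (nat_lit 1342177290)) (.cons (.rel (nat_lit 1342194192)) (.cons (.rel (nat_lit 1342211328)) .nil)))) .nil))) .leaf))) (nat_lit 24325346251488119) (.br (nat_lit 0) (.cons (.br (nat_lit 3) (.cons (.rel (nat_lit 272654466)) .nil)) .nil)) (.node (.node (.node .leaf (nat_lit 24325346251488159) (.br (nat_lit 0) (.cons (.br (nat_lit 1) (.cons (.rel (nat_lit 21299217)) .nil)) .nil)) .leaf) (nat_lit 24325346251569912) (.br (nat_lit 0) (.cons (.br (nat_lit 2) (.cons (.rel (nat_lit 71304708))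 .nil)) .nil)) (.node .leaf (nat_lit 24325346251570058) (.br (nat_lit 0) (.cons (.br (nat_lit 2) (.cons (.rel (nat_lit 71311368)) .nil)) .nil)) .leaf)) (nat_lit 24325346252303621) (.br (nat_lit 0) (.cons (.br (nat_lit 5) (.cons (.rel (nat_lit 4299167760)) .nil)) .nil)) (.node (.node .leaf (nat_lit 24325346252498276) (.br (nat_lit 0) (.cons (.br (nat_lit 1) (.cons (.rel (nat_lit 21239808)) .nil)) .nil)) .leaf) (nat_lit 24325347449817369) (.br (nat_lit 0) (.cons (.br (nat_lit 2) (.cons (.rel (nat_lit 142610436)) .nil)) .nil)) (.node .leaf (nat_lit 24325506561755146) (.br (nat_lit 0) (.cons (.br (nat_lit 2) (.cons (.rel (nat_lit 71323680)) .nil)) .nil)) .leaf))))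

/-- refutations 108 -/
def e108 : EX := (.node (.node .leaf (nat_lit 24366684603694343) (.br (nat_lit 0) (.cons (.br (nat_lit 1) (.cons (.rel (nat_lit 41943108)) .nil)) .nil)) .leaf) (nat_lit 24367766629471594) (.br (nat_lit 0) (.cons (.br (nat_lit 1) (.cons (.rel (nat_lit 21235986)) .nil)) .nil)) (.node .leaf (nat_lit 24372785785295003) (.br (nat_lit 2) (.cons (.br (nat_lit 4) (.cons (.rel (nat_lit 1140871248)) .nil)) .nil)) .leaf))

/-- refutations 110 -/
def e110 : EX := (.node (.node (.node (.node .leaf (nat_lit 24758649310468251) (.br (nat_lit 1) (.cons (.br (nat_lit 2) (.cons (.rel (nat_lit 83886090)) .nil)) .nil)) .leaf) (nat_lit 24765150933019376) (.br (nat_lit 0) (.cons (.br (nat_lit 3) (.cons (.rel (nat_lit 272908305)) .nil)) .nil)) (.node .leaf (nat_lit 24765150933020129) (.br (nat_lit 5) (.cons (.br (nat_lit 0) (.cons (.rel (nat_lit 4299227169)) (.cons (.br (nat_lit 2) (.cons (.rel (nat_lit 4362076488)) (.cons (.rel (nat_lit 71311368)) .nil))) .nil))) .nil)) .leaf))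 (nat_lit 24765150933084940) (.br (nat_lit 1) (.cons (.br (nat_lit 2) (.cons (.rel (nat_lit 167772165)) .nil)) .nil)) (.node (.node .leaf (nat_lit 24765154707892379) (.br (nat_lit 2) (.cons (.br (nat_lit 3) (.cons (.rel (nat_lit 336592968)) .nil)) .nil)) .leaf) (nat_lit 24765156594256624) (.br (nat_lit 0) (.cons (.br (nat_lit 6) (.cons (.rel (nat_lit 17184065544)) .nil)) .nil)) (.node .leaf (nat_lit 24765156595269787) (.br (nat_lit 2) (.cons (.br (nat_lit 4) (.cons (.rel (nat_lit 1141391361)) (.cons (.rel (nat_lit 1140883524)) .nil))) .nil)) .leaf))) (nat_lit 24765156595270937) (.br (nat_lit 1) (.cons (.br (nat_lit 3) (.cons (.rel (nat_lit 285540609)) .nil)) .nil)) (.node (.node (.node .leaf (nat_lit 24765156595329179) (.br (nat_lit 3) (.cons (.br (nat_lit 5) (.cons (.rel (nat_lit 9126809604)) .nil)) .nil)) .leaf) (nat_lit 24765156595329675) (.br (nat_lit 1) (.cons (.br (nat_lit 2) (.cons (.rel (nat_lit 151257600)) (.cons (.rel (nat_lit 101187840)) .nil))) .nil)) (.node .leaf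 (nat_lit 24765156595330529) (.br (nat_lit 1) (.cons (.br (nat_lit 2) (.cons (.rel (nat_lit 101187840)) .nil)) .nil)) .leaf)) (nat_lit 24765156595396065) (.br (nat_lit 0) (.cons (.br (nat_lit 5) (.cons (.rel (nat_lit 4299325440)) .nil)) .nil)) (.node (.node .leaf (nat_lit 24765405823994608) (.br (nat_lit 0) (.cons (.br (nat_lit 2) (.cons (.rel (nat_lit 71304708)) .nil)) .nil)) .leaf) (nat_lit 24765405824002058) (.br (nat_lit 0) (.cons (.br (nat_lit 2) (.cons (.rel (nat_lit 71311368)) .nil)) .nil)) (.node .leaf (nat_lit 24765405824770058) (.br (nat_lit 0) (.cons (.br (nat_lit 1) (.cons (.rel (nat_lit 37765380)) .nil)) .nil)) .leaf))))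

/-- refutations 111 -/
def e111 : EX := (.node (.node (.node (.node (.node (.node .leaf (nat_lit 25069392770875417) (.br (nat_lit 0) (.cons (.br (nat_lit 1) (.cons (.rel (nat_lit 21299217)) .nil)) .nil)) .leaf) (nat_lit 25069939487183153) (.br (nat_lit 2) (.cons (.br (nat_lit 5) (.cons (.rel (nat_lit 8657043744)) .nil)) .nil)) (.node .leaf (nat_lit 25069939487184274) (.br (nat_lit 0) (.cons (.br (nat_lit 5) (.cons (.rel (nat_lit 8598405120)) .nil)) .nil)) .leaf)) (nat_lit 25069939487389174) (.br (nat_lit 1) (.cons (.br (nat_lit 3) (.cons (.rel (nat_lit 285229185)) .nil)) .nil)) (.node (.node .leaf (nat_lit 25069940158273018) (.br (nat_lit 0) (.cons (.br (nat_lit 4) (.cons (.rel (nat_lit 1078068225)) .nil)) .nil)) .leaf) (nat_lit 25069942254295915) (.br (nat_lit 0) (.cons (.br (nat_lit 1) (.cons (.rel (nat_lit 21397536)) (.cons (.rel (nat_lit 21299217)) .nil))) .nil)) .leaf)) (nat_lit 25069942255424914) (.br (nat_lit 0) (.cons (.br (nat_lit 2) (.cons (.rel (nat_lit 142610436))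 .nil)) .nil)) (.node (.node (.node .leaf (nat_lit 25069944141732715) (.br (nat_lit 1) (.cons (.br (nat_lit 0) (.cons (.rel (nat_lit 25166097)) (.cons (.rel (nat_lit 21250050)) .nil))) .nil)) .leaf) (nat_lit 25069944624077675) (.br (nat_lit 0) (.cons (.br (nat_lit 1) (.cons (.rel (nat_lit 41943108)) (.cons (.rel (nat_lit 20971656)) .nil))) (.cons (.br (nat_lit 1) (.cons (.rel (nat_lit 38010960)) (.cons (.rel (nat_lit 21234948)) .nil))) .nil))) .leaf) (nat_lit 25069944625205258) (.br (nat_lit 5) (.cons (.br (nat_lit 0) (.cons (.rel (nat_lit 4299161865)) (.cons (.rel (nat_lit 4299166725)) .nil))) .nil)) (.node (.node .leaf (nat_lit 25069944625206674) (.br (nat_lit 5) (.cons (.br (nat_lit 0) (.cons (.rel (nat_lit 4299161865)) (.cons (.rel (nat_lit 4299162900)) .nil))) .nil)) .leaf) (nat_lit 25069944832115594) (.br (nat_lit 5) (.cons (.br (nat_lit 6) (.cons (.rel (nat_lit 25769869569)) .nil)) .nil)) .leaf))) (nat_lit 25069944832523495) (.br (nat_lit 1) (.cons (.br (nat_lit 3) (.cons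 (.rel (nat_lit 301994496)) .nil)) .nil)) (.node (.node (.node (.node .leaf (nat_lit 25069944833540106) (.br (nat_lit 6) (.cons (.br (nat_lit 4) (.cons (.rel (nat_lit 18254168064)) (.cons (.rel (nat_lit 18255708180)) .nil))) .nil)) .leaf) (nat_lit 25069944833557265) (.br (nat_lit 0) (.cons (.br (nat_lit 5) (.cons (.rel (nat_lit 4299440448)) (.cons (.rel (nat_lit 4299161865)) .nil))) .nil)) (.node .leaf (nat_lit 25069944833601023) (.br (nat_lit 0) (.cons (.br (nat_lit 3) (.cons (.rel (nat_lit 545260608)) .nil)) .nil)) .leaf)) (nat_lit 25069944833640504) (.br (nat_lit 1) (.cons (.br (nat_lit 3) (.cons (.rel (nat_lit 285278352)) .nil)) .nil)) (.node (.node .leaf (nat_lit 25069944833641854) (.br (nat_lit 0) (.cons (.br (nat_lit 5) (.cons (.rel (nat_lit 4299162900)) .nil)) .nil)) .leaf) (nat_lit 25069944833659655) (.br (nat_lit 0) (.cons (.br (nat_lit 1) (.cons (.rel (nat_lit 21234948)) .nil)) .nil)) .leaf)) (nat_lit 25069944833907473) (.br (nat_lit 0) (.cons (.br (nat_lit 1) (.cons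 (.rel (nat_lit 22022160)) .nil)) .nil)) (.node (.node (.node .leaf (nat_lit 25069944834563454) (.br (nat_lit 0) (.cons (.br (nat_lit 1) (.cons (.rel (nat_lit 21239808)) .nil)) .nil)) .leaf) (nat_lit 25069944834685739) (.br (nat_lit 0) (.cons (.br (nat_lit 1) (.cons (.rel (nat_lit 22021125)) .nil)) .nil)) .leaf) (nat_lit 25069944834919160) (.br (nat_lit 6) (.cons (.br (nat_lit 1) (.cons (.rel (nat_lit 17197170822)) (.cons (.rel (nat_lit 17196941376)) .nil))) .nil)) (.node (.node .leaf (nat_lit 25069944834921209) (.br (nat_lit 2) (.cons (.br (nat_lit 3) (.cons (.rel (nat_lit 671089665)) .nil)) .nil)) .leaf) (nat_lit 25069944834921253) (.br (nat_lit 3) (.cons (.br (nat_lit 5) (.cons (.rel (nat_lit 9126809604)) .nil)) .nil)) .leaf)))) (nat_lit 25069944834921259) (.br (nat_lit 0) (.cons (.br (nat_lit 1) (.cons (.rel (nat_lit 21299217)) .nil)) .nil)) (.node (.node (.node (.node (.node .leaf (nat_lit 25069944834921753) (.br (nat_lit 0) (.cons (.br (nat_lit 5) (.cons (.rel (nat_lit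 4299325440)) .nil)) .nil)) .leaf) (nat_lit 25070159372556294) (.br (nat_lit 4) (.cons (.br (nat_lit 2) (.cons (.rel (nat_lit 1140871248)) (.cons (.rel (nat_lit 2214597120)) .nil))) .nil)) (.node .leaf (nat_lit 25070159476797595) (.br (nat_lit 1) (.cons (.br (nat_lit 2) (.cons (.rel (nat_lit 83959809)) .nil)) .nil)) .leaf)) (nat_lit 25070159477299225) (.br (nat_lit 0) (.cons (.br (nat_lit 1) (.cons (.rel (nat_lit 41943108)) .nil)) .nil)) (.node (.node .leaf (nat_lit 25070159477413894) (.br (nat_lit 2) (.cons (.br (nat_lit 5) (.cons (.rel (nat_lit 8657043744)) .nil)) .nil)) .leaf) (nat_lit 25070374225531690) (.br (nat_lit 0) (.cons (.br (nat_lit 2) (.cons (.rel (nat_lit 71304708)) .nil)) .nil)) .leaf)) (nat_lit 25070374225727544) (.br (nat_lit 3) (.cons (.br (nat_lit 4) (.cons (.rel (nat_lit 1342264320)) (.cons (.rel (nat_lit 2684354565)) .nil))) (.cons (.br (nat_lit 5) (.cons (.rel (nat_lit 4563404292)) (.cons (.rel (nat_lit 4563409152)) .nil))) .nil))) (.node (.node (.node .leaf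 (nat_lit 25070374226557689) (.br (nat_lit 1) (.cons (.br (nat_lit 3) (.cons (.rel (nat_lit 285495312)) .nil)) .nil)) .leaf) (nat_lit 25070374328844548) (.br (nat_lit 0) (.cons (.br (nat_lit 2) (.cons (.rel (nat_lit 138412161)) .nil)) .nil)) .leaf) (nat_lit 25070374329314590) (.br (nat_lit 0) (.cons (.br (nat_lit 2) (.cons (.rel (nat_lit 71304708)) (.cons (.rel (nat_lit 71304708)) .nil))) .nil)) (.node (.node .leaf (nat_lit 25070374330286865) (.br (nat_lit 0) (.cons (.br (nat_lit 1) (.cons (.rel (nat_lit 22347840)) (.cons (.rel (nat_lit 21234948)) .nil))) (.cons (.br (nat_lit 1) (.cons (.rel (nat_lit 21239808)) (.cons (.rel (nat_lit 21234948)) .nil))) .nil))) .leaf) (nat_lit 25070374330287461) (.br (nat_lit 2) (.cons (.br (nat_lit 4) (.cons (.rel (nat_lit 1141391361)) .nil)) .nil)) .leaf))) (nat_lit 25070374330370054) (.br (nat_lit 0) (.cons (.br (nat_lit 1) (.cons (.rel (nat_lit 41943108)) .nil)) .nil)) (.node (.node (.node (.node .leaf (nat_lit 25070374330388740) (.br (nat_lit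 0) (.cons (.br (nat_lit 1) (.cons (.rel (nat_lit 22021125)) (.cons (.rel (nat_lit 22089984)) .nil))) .nil)) .leaf) (nat_lit 25070374330521860) (.br (nat_lit 0) (.cons (.br (nat_lit 3) (.cons (.rel (nat_lit 273752064)) .nil)) .nil)) .leaf) (nat_lit 25070374330523025) (.br (nat_lit 0) (.cons (.br (nat_lit 5) (.cons (.rel (nat_lit 4299167760)) .nil)) .nil)) (.node (.node .leaf (nat_lit 25070374331292554) (.br (nat_lit 0) (.cons (.br (nat_lit 1) (.cons (.rel (nat_lit 21234948)) .nil)) .nil)) .leaf) (nat_lit 25070374331415289) (.br (nat_lit 1) (.cons (.br (nat_lit 3) (.cons (.rel (nat_lit 286263552)) .nil)) .nil)) .leaf)) (nat_lit 25070374331622183) (.br (nat_lit 2) (.cons (.br (nat_lit 3) (.cons (.rel (nat_lit 335544345)) .nil)) .nil)) (.node (.node (.node .leaf (nat_lit 25070374331622681) (.br (nat_lit 1) (.cons (.br (nat_lit 2) (.cons (.rel (nat_lit 83887125)) .nil)) .nil)) .leaf) (nat_lit 25070374331650803) (.br (nat_lit 1) (.cons (.br (nat_lit 3) (.cons (.rel (nat_lit 286263552))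 .nil)) .nil)) .leaf) (nat_lit 25070374331650809) (.br (nat_lit 1) (.cons (.br (nat_lit 3) (.cons (.rel (nat_lit 286263552)) .nil)) .nil)) (.node (.node .leaf (nat_lit 25070374331651353) (.br (nat_lit 0) (.cons (.br (nat_lit 3) (.cons (.rel (nat_lit 276824352)) .nil)) .nil)) .leaf) (nat_lit 25071013904291322) (.br (nat_lit 0) (.cons (.br (nat_lit 1) (.cons (.rel (nat_lit 37756929)) .nil)) .nil)) .leaf)))))

/-- refutations 112 -/
def e112 : EX := (.node (.node (.node (.node (.node (.node .leaf (nat_lit 25074233822980106) (.br (nat_lit 1) (.cons (.br (nat_lit 5) (.cons (.rel (nat_lit 4311753732)) .nil)) .nil)) .leaf) (nat_lit 25074233822981398) (.br (nat_lit 0) (.cons (.br (nat_lit 1) (.cons (.rel (nat_lit 25166097)) .nil)) .nil)) .leaf) (nat_lit 25074233822997237) (.br (nat_lit 1) (.cons (.br (nat_lit 2) (.cons (.rel (nat_lit 83886090)) .nil)) .nil)) (.node .leaf (nat_lit 25074233823970040) (.br (nat_lit 5) (.cons (.br (nat_lit 6) (.cons (.rel (nat_lit 25769824272)) .nil)) .nil))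 .leaf)) (nat_lit 25074233823970705) (.br (nat_lit 1) (.cons (.br (nat_lit 0) (.cons (.rel (nat_lit 21299217)) (.cons (.rel (nat_lit 21234948)) .nil))) .nil)) (.node (.node .leaf (nat_lit 25074233824071940) (.br (nat_lit 0) (.cons (.br (nat_lit 1) (.cons (.rel (nat_lit 26214720)) .nil)) .nil)) .leaf) (nat_lit 25074233825332075) (.br (nat_lit 2) (.cons (.br (nat_lit 4) (.cons (.rel (nat_lit 2214739968)) .nil)) .nil)) (.node .leaf (nat_lit 25074233825332485) (.br (nat_lit 0) (.cons (.br (nat_lit 2) (.cons (.rel (nat_lit 71309568)) .nil)) .nil)) .leaf))) (nat_lit 25074234033786905) (.br (nat_lit 1) (.cons (.br (nat_lit 3) (.cons (.rel (nat_lit 285540609)) .nil)) .nil)) (.node (.node (.node .leaf (nat_lit 25074234035049753) (.br (nat_lit 0) (.cons (.br (nat_lit 1) (.cons (.rel (nat_lit 25169922)) (.cons (.rel (nat_lit 22036992)) .nil))) .nil)) .leaf) (nat_lit 25074448570892344) (.br (nat_lit 0) (.cons (.br (nat_lit 5) (.cons (.rel (nat_lit 4299161865)) .nil)) .nil)) (.node .leaf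 (nat_lit 25074448572436740) (.br (nat_lit 5) (.cons (.br (nat_lit 1) (.cons (.rel (nat_lit 4311745050)) (.cons (.rel (nat_lit 4311747072)) .nil))) .nil)) .leaf)) (nat_lit 25074448573696875) (.br (nat_lit 3) (.cons (.br (nat_lit 4) (.cons (.rel (nat_lit 2684354565)) .nil)) .nil)) (.node (.node .leaf (nat_lit 25074448675751173) (.br (nat_lit 0) (.cons (.br (nat_lit 2) (.cons (.rel (nat_lit 71372802)) .nil)) .nil)) .leaf) (nat_lit 25074448676167940) (.br (nat_lit 0) (.cons (.br (nat_lit 5) (.cons (.rel (nat_lit 4299167760)) .nil)) .nil)) (.node .leaf (nat_lit 25074448676264243) (.br (nat_lit 2) (.cons (.br (nat_lit 4) (.cons (.rel (nat_lit 1207959585)) .nil)) .nil)) .leaf)))) (nat_lit 25074448678321439) (.br (nat_lit 1) (.cons (.br (nat_lit 3) (.cons (.rel (nat_lit 570507345)) .nil)) .nil)) (.node (.node (.node (.node .leaf (nat_lit 25074448678464798) (.br (nat_lit 0) (.cons (.br (nat_lit 4) (.cons (.rel (nat_lit 2155873536)) .nil)) .nil)) .leaf) (nat_lit 25074448678555828) (.br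 (nat_lit 1) (.cons (.br (nat_lit 3) (.cons (.rel (nat_lit 301989906)) .nil)) .nil)) (.node .leaf (nat_lit 25074448678557074) (.br (nat_lit 0) (.cons (.br (nat_lit 1) (.cons (.rel (nat_lit 25166097)) (.cons (.rel (nat_lit 20971656)) .nil))) (.cons (.br (nat_lit 1) (.cons (.rel (nat_lit 21250050)) (.cons (.rel (nat_lit 41943108)) .nil))) .nil))) .leaf)) (nat_lit 25074448678557178) (.br (nat_lit 0) (.cons (.br (nat_lit 1) (.cons (.rel (nat_lit 21250050)) .nil)) .nil)) (.node (.node .leaf (nat_lit 25074663424567306) (.br (nat_lit 3) (.cons (.br (nat_lit 5) (.cons (.rel (nat_lit 4563404292)) .nil)) .nil)) .leaf) (nat_lit 25074663424585105) (.br (nat_lit 0) (.cons (.br (nat_lit 5) (.cons (.rel (nat_lit 4299162900)) .nil)) .nil)) (.node .leaf (nat_lit 25074663425556505) (.br (nat_lit 5) (.cons (.br (nat_lit 6) (.cons (.rel (nat_lit 42950727696)) .nil)) .nil)) .leaf))) (nat_lit 25074663425557265) (.br (nat_lit 0) (.cons (.br (nat_lit 3) (.cons (.rel (nat_lit 272892168)) (.cons (.rel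 (nat_lit 545260608)) .nil))) .nil)) (.node (.node (.node .leaf (nat_lit 25074663425907473) (.br (nat_lit 1) (.cons (.br (nat_lit 3) (.cons (.rel (nat_lit 285278352)) .nil)) .nil)) .leaf) (nat_lit 25074663426562054) (.br (nat_lit 2) (.cons (.br (nat_lit 5) (.cons (.rel (nat_lit 8724415488)) .nil)) .nil)) (.node .leaf (nat_lit 25074663426563460) (.br (nat_lit 1) (.cons (.br (nat_lit 2) (.cons (.rel (nat_lit 83887125)) .nil)) .nil)) .leaf)) (nat_lit 25074663426921703) (.br (nat_lit 1) (.cons (.br (nat_lit 3) (.cons (.rel (nat_lit 285278352)) .nil)) .nil)) (.node (.node .leaf (nat_lit 25074663530414865) (.br (nat_lit 1) (.cons (.br (nat_lit 2) (.cons (.rel (nat_lit 83888160)) .nil)) .nil)) .leaf) (nat_lit 25074664621168665) (.br (nat_lit 1) (.cons (.br (nat_lit 0) (.cons (.rel (nat_lit 20971656)) (.cons (.rel (nat_lit 22347840)) .nil))) .nil)) (.node .leaf (nat_lit 25076642930275054) (.br (nat_lit 0) (.cons (.br (nat_lit 1) (.cons (.rel (nat_lit 41943108)) .nil)) .nil)) .leaf)))))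

/-- refutations 113 -/
def e113 : EX := (.node (.node (.node (.node (.node (.node .leaf (nat_lit 25076819395618298) (.br (nat_lit 2) (.cons (.br (nat_lit 3) (.cons (.rel (nat_lit 335544345)) .nil)) .nil)) .leaf) (nat_lit 25079602531553290) (.br (nat_lit 3) (.cons (.br (nat_lit 4) (.cons (.rel (nat_lit 1342177290)) .nil)) .nil)) .leaf) (nat_lit 25079602532068753) (.br (nat_lit 1) (.cons (.br (nat_lit 3) (.cons (.rel (nat_lit 553649160)) .nil)) .nil)) (.node .leaf (nat_lit 25079906453875438) (.br (nat_lit 1) (.cons (.br (nat_lit 2) (.cons (.rel (nat_lit 167773200)) .nil)) .nil)) .leaf)) (nat_lit 25080119230763018) (.br (nat_lit 0) (.cons (.br (nat_lit 2) (.cons (.rel (nat_lit 71335956)) .nil)) .nil)) (.node (.node .leaf (nat_lit 25081751317207065) (.br (nat_lit 2) (.cons (.br (nat_lit 5) (.cons (.rel (nat_lit 4362141792)) .nil)) .nil)) .leaf) (nat_lit 25081753685729540) (.br (nat_lit 0) (.cons (.br (nat_lit 1) (.cons (.rel (nat_lit 41943108)) .nil)) .nil)) (.node .leaf (nat_lit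 25081753686856490) (.br (nat_lit 0) (.cons (.br (nat_lit 3) (.cons (.rel (nat_lit 272892168)) .nil)) .nil)) .leaf))) (nat_lit 25081753897830425) (.br (nat_lit 5) (.cons (.br (nat_lit 6) (.cons (.rel (nat_lit 38654722056)) .nil)) .nil)) (.node (.node (.node (.node .leaf (nat_lit 25081968434146155) (.br (nat_lit 1) (.cons (.br (nat_lit 0) (.cons (.rel (nat_lit 38010960)) (.cons (.rel (nat_lit 21299217)) .nil))) .nil)) .leaf) (nat_lit 25081968435119505) (.br (nat_lit 1) (.cons (.br (nat_lit 5) (.cons (.rel (nat_lit 4311747072)) .nil)) .nil)) .leaf) (nat_lit 25081968436480760) (.br (nat_lit 6) (.cons (.br (nat_lit 5) (.cons (.rel (nat_lit 38654706945)) (.cons (.rel (nat_lit 21474838080)) .nil))) .nil)) (.node .leaf (nat_lit 25081968436482203) (.br (nat_lit 1) (.cons (.br (nat_lit 5) (.cons (.rel (nat_lit 4311747072)) .nil)) .nil)) .leaf)) (nat_lit 25081968436482828) (.br (nat_lit 0) (.cons (.br (nat_lit 5) (.cons (.rel (nat_lit 4299167760)) .nil)) .nil)) (.node (.node .leaf (nat_lit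 25081968436482853) (.br (nat_lit 1) (.cons (.br (nat_lit 5) (.cons (.rel (nat_lit 4311765009)) .nil)) .nil)) .leaf) (nat_lit 25081968538952555) (.br (nat_lit 5) (.cons (.br (nat_lit 1) (.cons (.rel (nat_lit 8623490304)) (.cons (.rel (nat_lit 4311747072)) .nil))) .nil)) (.node .leaf (nat_lit 25081968538954533) (.br (nat_lit 3) (.cons (.br (nat_lit 6) (.cons (.rel (nat_lit 17449877508)) .nil)) .nil)) .leaf)))) (nat_lit 25081968538955153) (.br (nat_lit 0) (.cons (.br (nat_lit 1) (.cons (.rel (nat_lit 21250050)) .nil)) .nil)) (.node (.node (.node (.node (.node .leaf (nat_lit 25081968539045225) (.br (nat_lit 1) (.cons (.br (nat_lit 2) (.cons (.rel (nat_lit 167773200)) .nil)) .nil)) .leaf) (nat_lit 25081968539977105) (.br (nat_lit 0) (.cons (.br (nat_lit 3) (.cons (.rel (nat_lit 545260608)) .nil)) .nil)) .leaf) (nat_lit 25081968540981254) (.br (nat_lit 0) (.cons (.br (nat_lit 1) (.cons (.rel (nat_lit 41943108)) .nil)) .nil)) (.node .leaf (nat_lit 25081968541311736) (.br (nat_lit 1)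 (.cons (.br (nat_lit 2) (.cons (.rel (nat_lit 167772165)) .nil)) .nil)) .leaf)) (nat_lit 25081968541338475) (.br (nat_lit 3) (.cons (.br (nat_lit 5) (.cons (.rel (nat_lit 4563409152)) .nil)) .nil)) (.node (.node .leaf (nat_lit 25081987713504658) (.br (nat_lit 1) (.cons (.br (nat_lit 2) (.cons (.rel (nat_lit 83959809)) .nil)) .nil)) .leaf) (nat_lit 25082179560940946) (.br (nat_lit 2) (.cons (.br (nat_lit 0) (.cons (.rel (nat_lit 71309568)) (.cons (.rel (nat_lit 71372802)) .nil))) .nil)) (.node .leaf (nat_lit 25082183289703275) (.br (nat_lit 0) (.cons (.br (nat_lit 5) (.cons (.rel (nat_lit 4299235584)) .nil)) .nil)) .leaf))) (nat_lit 25082183392175461) (.br (nat_lit 0) (.cons (.br (nat_lit 1) (.cons (.rel (nat_lit 41943108)) .nil)) .nil)) (.node (.node (.node .leaf (nat_lit 25082183392209781) (.br (nat_lit 1) (.cons (.br (nat_lit 2) (.cons (.rel (nat_lit 167772165)) .nil)) .nil)) .leaf) (nat_lit 25082183393434475) (.br (nat_lit 0) (.cons (.br (nat_lit 2) (.cons (.rel (nat_lit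 71304708)) (.cons (.rel (nat_lit 71309568)) .nil))) (.cons (.br (nat_lit 2) (.cons (.rel (nat_lit 142610436)) (.cons (.rel (nat_lit 71304708)) .nil))) .nil))) (.node .leaf (nat_lit 25082183394560025) (.br (nat_lit 0) (.cons (.br (nat_lit 1) (.cons (.rel (nat_lit 37756929)) .nil)) .nil)) .leaf)) (nat_lit 25082183394560875) (.br (nat_lit 0) (.cons (.br (nat_lit 1) (.cons (.rel (nat_lit 21299217)) .nil)) .nil)) (.node (.node .leaf (nat_lit 25082183394562353) (.br (nat_lit 0) (.cons (.br (nat_lit 1) (.cons (.rel (nat_lit 41943108)) .nil)) .nil)) .leaf) (nat_lit 25082183394563333) (.br (nat_lit 0) (.cons (.br (nat_lit 1) (.cons (.rel (nat_lit 22021125)) .nil)) .nil)) (.node .leaf (nat_lit 25082185537852818) (.br (nat_lit 1) (.cons (.br (nat_lit 3) (.cons (.rel (nat_lit 285278352)) .nil)) .nil)) .leaf)))))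

/-- refutations 114 -/
def e114 : EX := (.node (.node .leaf (nat_lit 24812584456796215) (.br (nat_lit 0) (.cons (.br (nat_lit 3) (.cons (.rel (nat_lit 545260608)) .nil)) .nil)) .leaf) (nat_lit 24812584456960135) (.br (nat_lit 0) (.cons (.br (nat_lit 1) (.cons (.rel (nat_lit 21299217)) .nil)) .nil)) (.node .leaf (nat_lit 24818169025722378) (.br (nat_lit 0) (.cons (.br (nat_lit 2) (.cons (.rel (nat_lit 71304708)) .nil)) .nil)) .leaf))

/-- refutations 115 -/
def e115 : EX := (.node (.node (.node (.node (.node .leaf (nat_lit 25263452901668874) (.br (nat_lit 0) (.cons (.br (nat_lit 2) (.cons (.rel (nat_lit 71304708)) .nil)) .nil)) .leaf) (nat_lit 25263452901668920) (.br (nat_lit 6) (.cons (.br (nat_lit 2) (.cons (.rel (nat_lit 17246979168)) (.cons (.rel (nat_lit 17246978133)) (.cons (.rel (nat_lit 17247011136)) .nil)))) .nil)) (.node .leaf (nat_lit 25263452901669671) (.br (nat_lit 2) (.cons (.br (nat_lit 3) (.cons (.rel (nat_lit 335545380)) .nil)) .nil)) .leaf)) (nat_lit 25263452904170878)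 (.br (nat_lit 0) (.cons (.br (nat_lit 1) (.cons (.rel (nat_lit 21332232)) .nil)) .nil)) (.node (.node .leaf (nat_lit 25263452904424686) (.br (nat_lit 0) (.cons (.br (nat_lit 3) (.cons (.rel (nat_lit 272892168)) (.cons (.rel (nat_lit 272631936)) .nil))) .nil)) .leaf) (nat_lit 25263452904549614) (.br (nat_lit 0) (.cons (.br (nat_lit 1) (.cons (.rel (nat_lit 22022160)) .nil)) .nil)) (.node .leaf (nat_lit 25263456811315210) (.br (nat_lit 0) (.cons (.br (nat_lit 1) (.cons (.rel (nat_lit 21234948)) .nil)) .nil)) .leaf))) (nat_lit 25263456813260810) (.br (nat_lit 0) (.cons (.br (nat_lit 3) (.cons (.rel (nat_lit 272957472)) .nil)) .nil)) (.node (.node (.node .leaf (nat_lit 25263458881431562) (.br (nat_lit 0) (.cons (.br (nat_lit 1) (.cons (.rel (nat_lit 21239808)) .nil)) .nil)) .leaf) (nat_lit 25263667754934528) (.br (nat_lit 0) (.cons (.br (nat_lit 1) (.cons (.rel (nat_lit 41943108)) .nil)) .nil)) (.node .leaf (nat_lit 25263667754935798) (.br (nat_lit 2) (.cons (.br (nat_lit 0) (.cons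 (.rel (nat_lit 142610436)) (.cons (.rel (nat_lit 71335956)) .nil))) .nil)) .leaf)) (nat_lit 25263667755360412) (.br (nat_lit 0) (.cons (.br (nat_lit 1) (.cons (.rel (nat_lit 37756929)) .nil)) .nil)) (.node (.node .leaf (nat_lit 25263667755403570) (.br (nat_lit 0) (.cons (.br (nat_lit 1) (.cons (.rel (nat_lit 22089984)) .nil)) .nil)) .leaf) (nat_lit 25263667756131054) (.br (nat_lit 1) (.cons (.br (nat_lit 3) (.cons (.rel (nat_lit 553656576)) .nil)) .nil)) .leaf))) (nat_lit 25263667756376871) (.br (nat_lit 0) (.cons (.br (nat_lit 1) (.cons (.rel (nat_lit 21239808)) .nil)) .nil)) (.node (.node (.node (.node .leaf (nat_lit 25263667756385662) (.br (nat_lit 0) (.cons (.br (nat_lit 1) (.cons (.rel (nat_lit 37756929)) .nil)) .nil)) .leaf) (nat_lit 25263667757409683) (.br (nat_lit 0) (.cons (.br (nat_lit 1) (.cons (.rel (nat_lit 21242376)) .nil)) .nil)) (.node .leaf (nat_lit 25263667757647136) (.br (nat_lit 0) (.cons (.br (nat_lit 1) (.cons (.rel (nat_lit 37756929)) .nil)) .nil)) .leaf))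 (nat_lit 25267808103876618) (.br (nat_lit 0) (.cons (.br (nat_lit 1) (.cons (.rel (nat_lit 25183233)) .nil)) .nil)) (.node (.node .leaf (nat_lit 25267808104858527) (.br (nat_lit 0) (.cons (.br (nat_lit 2) (.cons (.rel (nat_lit 142610436)) .nil)) .nil)) .leaf) (nat_lit 25267814021735150) (.br (nat_lit 2) (.cons (.br (nat_lit 3) (.cons (.rel (nat_lit 335822928)) .nil)) .nil)) .leaf)) (nat_lit 25267814022039562) (.br (nat_lit 0) (.cons (.br (nat_lit 5) (.cons (.rel (nat_lit 4303618176)) (.cons (.rel (nat_lit 4299325440)) .nil))) .nil)) (.node (.node (.node .leaf (nat_lit 25267814022040479) (.br (nat_lit 0) (.cons (.br (nat_lit 3) (.cons (.rel (nat_lit 272631936)) .nil)) .nil)) .leaf) (nat_lit 25267814023021950) (.br (nat_lit 0) (.cons (.br (nat_lit 3) (.cons (.rel (nat_lit 272957472)) .nil)) .nil)) (.node .leaf (nat_lit 25267814024029587) (.br (nat_lit 0) (.cons (.br (nat_lit 4) (.cons (.rel (nat_lit 1077945348)) .nil)) .nil)) .leaf)) (nat_lit 25267848335598453) (.br (nat_lit 0)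 (.cons (.br (nat_lit 3) (.cons (.rel (nat_lit 276828177)) .nil)) .nil)) (.node (.node .leaf (nat_lit 25267962617886078) (.br (nat_lit 1) (.cons (.br (nat_lit 3) (.cons (.rel (nat_lit 553746432)) .nil)) .nil)) .leaf) (nat_lit 25267968597092362) (.br (nat_lit 0) (.cons (.br (nat_lit 1) (.cons (.rel (nat_lit 41943108)) .nil)) .nil)) .leaf))))

/-- refutations 116 -/
def e116 : EX := (.node (.node (.node (.node (.node (.node (.node .leaf (nat_lit 25268821613305866) (.br (nat_lit 2) (.cons (.br (nat_lit 4) (.cons (.rel (nat_lit 2214594564)) .nil)) .nil)) .leaf) (nat_lit 25275358763483146) (.br (nat_lit 3) (.cons (.br (nat_lit 6) (.cons (.rel (nat_lit 17448321048)) .nil)) .nil)) .leaf) (nat_lit 25275573299585774) (.br (nat_lit 0) (.cons (.br (nat_lit 2) (.cons (.rel (nat_lit 138412161)) (.cons (.rel (nat_lit 71434245)) (.cons (.rel (nat_lit 75497538)) .nil)))) .nil)) (.node .leaf (nat_lit 25275573299626171) (.br (nat_lit 0) (.cons (.br (nat_lit 1) (.cons (.rel (nat_lit 22036992))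 .nil)) .nil)) .leaf)) (nat_lit 25275573299699070) (.br (nat_lit 1) (.cons (.br (nat_lit 3) (.cons (.rel (nat_lit 286263552)) .nil)) .nil)) (.node (.node (.node .leaf (nat_lit 25275573299829496) (.br (nat_lit 0) (.cons (.br (nat_lit 1) (.cons (.rel (nat_lit 41943108)) .nil)) .nil)) .leaf) (nat_lit 25275573299829663) (.br (nat_lit 3) (.cons (.br (nat_lit 4) (.cons (.rel (nat_lit 1610613312)) .nil)) .nil)) .leaf) (nat_lit 25275573299830023) (.br (nat_lit 0) (.cons (.br (nat_lit 3) (.cons (.rel (nat_lit 272631936)) (.cons (.rel (nat_lit 272908305)) .nil))) (.cons (.br (nat_lit 1) (.cons (.rel (nat_lit 22021125)) (.cons (.rel (nat_lit 25169922)) (.cons (.rel (nat_lit 21299217)) .nil)))) .nil))) (.node .leaf (nat_lit 25275573299847303) (.br (nat_lit 1) (.cons (.br (nat_lit 2) (.cons (.rel (nat_lit 101974017)) .nil)) .nil)) .leaf))) (nat_lit 25275573299880746) (.br (nat_lit 0) (.cons (.br (nat_lit 6) (.cons (.rel (nat_lit 17185636884)) .nil)) .nil)) (.node (.node (.node (.node .leaf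 (nat_lit 25275573299881198) (.br (nat_lit 0) (.cons (.br (nat_lit 1) (.cons (.rel (nat_lit 21250050)) .nil)) .nil)) .leaf) (nat_lit 25275573299933194) (.br (nat_lit 0) (.cons (.br (nat_lit 2) (.cons (.rel (nat_lit 71304708)) .nil)) .nil)) .leaf) (nat_lit 25275573299934111) (.br (nat_lit 1) (.cons (.br (nat_lit 4) (.cons (.rel (nat_lit 1090519080)) .nil)) .nil)) (.node .leaf (nat_lit 25275573300647946) (.br (nat_lit 1) (.cons (.br (nat_lit 6) (.cons (.rel (nat_lit 17196683520)) .nil)) .nil)) .leaf)) (nat_lit 25275573300648123) (.br (nat_lit 1) (.cons (.br (nat_lit 4) (.cons (.rel (nat_lit 1090519080)) (.cons (.br (nat_lit 5) (.cons (.rel (nat_lit 10737680388)) (.cons (.rel (nat_lit 4311748872)) .nil))) .nil))) (.cons (.br (nat_lit 4) (.cons (.rel (nat_lit 1090846785)) (.cons (.rel (nat_lit 1090519080)) .nil))) .nil))) (.node (.node .leaf (nat_lit 25275573300649198) (.br (nat_lit 1) (.cons (.br (nat_lit 2) (.cons (.rel (nat_lit 84164673)) .nil)) .nil)) .leaf) (nat_lit 25275573300872574)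 (.br (nat_lit 2) (.cons (.br (nat_lit 3) (.cons (.rel (nat_lit 335577348)) (.cons (.rel (nat_lit 335546370)) .nil))) .nil)) (.node .leaf (nat_lit 25275573300902673) (.br (nat_lit 1) (.cons (.br (nat_lit 3) (.cons (.rel (nat_lit 553746432)) .nil)) .nil)) .leaf)))) (nat_lit 25275573300902695) (.br (nat_lit 1) (.cons (.br (nat_lit 3) (.cons (.rel (nat_lit 301994496)) .nil)) .nil)) (.node (.node (.node (.node (.node .leaf (nat_lit 25275573300954350) (.br (nat_lit 0) (.cons (.br (nat_lit 1) (.cons (.rel (nat_lit 21239808)) .nil)) .nil)) .leaf) (nat_lit 25275573300966136) (.br (nat_lit 0) (.cons (.br (nat_lit 5) (.cons (.rel (nat_lit 4299227169)) .nil)) .nil)) .leaf) (nat_lit 25275573301878794) (.br (nat_lit 0) (.cons (.br (nat_lit 3) (.cons (.rel (nat_lit 272892168)) .nil)) .nil)) (.node .leaf (nat_lit 25275573301879569) (.br (nat_lit 1) (.cons (.br (nat_lit 2) (.cons (.rel (nat_lit 101187840)) .nil)) .nil)) .leaf)) (nat_lit 25275573301879669) (.br (nat_lit 2) (.cons (.br (nat_lit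 3) (.cons (.rel (nat_lit 336592968)) (.cons (.rel (nat_lit 671089665)) .nil))) .nil)) (.node (.node .leaf (nat_lit 25275573301879711) (.br (nat_lit 0) (.cons (.br (nat_lit 1) (.cons (.rel (nat_lit 21239808)) .nil)) .nil)) .leaf) (nat_lit 25275573301895178) (.br (nat_lit 6) (.cons (.br (nat_lit 4) (.cons (.rel (nat_lit 18253612113)) (.cons (.rel (nat_lit 35433480708)) (.cons (.rel (nat_lit 36507500544)) .nil)))) .nil)) (.node .leaf (nat_lit 25275573301895428) (.br (nat_lit 0) (.cons (.br (nat_lit 1) (.cons (.rel (nat_lit 44040213)) .nil)) .nil)) .leaf))) (nat_lit 25275573301895949) (.br (nat_lit 3) (.cons (.br (nat_lit 1) (.cons (.rel (nat_lit 286263552)) (.cons (.rel (nat_lit 285229185)) .nil))) .nil)) (.node (.node (.node (.node .leaf (nat_lit 25275573302001674) (.br (nat_lit 1) (.cons (.br (nat_lit 2) (.cons (.rel (nat_lit 83887125)) .nil)) .nil)) .leaf) (nat_lit 25275573302132746) (.br (nat_lit 3) (.cons (.br (nat_lit 0) (.cons (.rel (nat_lit 272908305)) (.cons (.rel (nat_lit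 272631936)) (.cons (.rel (nat_lit 541065744)) (.cons (.rel (nat_lit 545260608)) .nil))))) .nil)) .leaf) (nat_lit 25275573302132763) (.br (nat_lit 4) (.cons (.br (nat_lit 6) (.cons (.rel (nat_lit 18253611078)) .nil)) .nil)) (.node .leaf (nat_lit 25275573302132923) (.br (nat_lit 1) (.cons (.br (nat_lit 3) (.cons (.rel (nat_lit 302137344)) (.cons (.rel (nat_lit 553649160)) .nil))) .nil)) .leaf)) (nat_lit 25275573302133998) (.br (nat_lit 0) (.cons (.br (nat_lit 1) (.cons (.rel (nat_lit 21250050)) .nil)) .nil)) (.node (.node .leaf (nat_lit 25275573302134273) (.br (nat_lit 1) (.cons (.br (nat_lit 3) (.cons (.rel (nat_lit 301994496)) .nil)) .nil)) .leaf) (nat_lit 25275573302257674) (.br (nat_lit 3) (.cons (.br (nat_lit 6) (.cons (.rel (nat_lit 17448345600)) (.cons (.rel (nat_lit 34896629760)) .nil))) (.cons (.br (nat_lit 2) (.cons (.rel (nat_lit 403702032)) (.cons (.rel (nat_lit 335546370)) (.cons (.rel (nat_lit 335546370)) (.cons (.rel (nat_lit 403702032)) .nil))))) .nil))) (.node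 .leaf (nat_lit 25275573302257720) (.br (nat_lit 3) (.cons (.br (nat_lit 0) (.cons (.rel (nat_lit 272897028)) (.cons (.rel (nat_lit 272631936)) .nil))) .nil)) .leaf))))) (nat_lit 25275573302257851) (.br (nat_lit 5) (.cons (.br (nat_lit 0) (.cons (.rel (nat_lit 4300275792)) (.cons (.br (nat_lit 4) (.cons (.rel (nat_lit 9663741957)) (.cons (.rel (nat_lit 5369823360)) (.cons (.rel (nat_lit 1079574528)) .nil)))) .nil))) .nil)) (.node (.node (.node (.node (.node (.node .leaf (nat_lit 25275573302258314) (.br (nat_lit 0) (.cons (.br (nat_lit 1) (.cons (.rel (nat_lit 26214720)) (.cons (.rel (nat_lit 25166097)) .nil))) .nil)) .leaf) (nat_lit 25275573302258439) (.br (nat_lit 2) (.cons (.br (nat_lit 3) (.cons (.rel (nat_lit 335544345)) .nil)) .nil)) .leaf) (nat_lit 25275573302258976) (.br (nat_lit 0) (.cons (.br (nat_lit 3) (.cons (.rel (nat_lit 272892168)) .nil)) .nil)) (.node .leaf (nat_lit 25275573302259201) (.br (nat_lit 2) (.cons (.br (nat_lit 0) (.cons (.rel (nat_lit 71304708)) (.cons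 (.rel (nat_lit 142610436)) .nil))) .nil)) .leaf)) (nat_lit 25275576496962343) (.br (nat_lit 1) (.cons (.br (nat_lit 3) (.cons (.rel (nat_lit 301994496)) (.cons (.rel (nat_lit 553648161)) .nil))) .nil)) (.node (.node (.node .leaf (nat_lit 25275577210304522) (.br (nat_lit 1) (.cons (.br (nat_lit 4) (.cons (.rel (nat_lit 1090585104)) .nil)) .nil)) .leaf) (nat_lit 25275578677745851) (.br (nat_lit 5) (.cons (.br (nat_lit 6) (.cons (.rel (nat_lit 21475361028)) .nil)) .nil)) .leaf) (nat_lit 25275578679100147) (.br (nat_lit 0) (.cons (.br (nat_lit 2) (.cons (.rel (nat_lit 71567424)) .nil)) .nil)) (.node .leaf (nat_lit 25275579218780910) (.br (nat_lit 3) (.cons (.br (nat_lit 4) (.cons (.rel (nat_lit 1342312452)) .nil)) .nil)) .leaf))) (nat_lit 25275579219376138) (.br (nat_lit 6) (.cons (.br (nat_lit 0) (.cons (.rel (nat_lit 17184063510)) (.cons (.rel (nat_lit 17184065544)) .nil))) .nil)) (.node (.node (.node (.node .leaf (nat_lit 25275579220042655) (.br (nat_lit 0) (.cons (.br (nat_lit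 1) (.cons (.rel (nat_lit 41979984)) .nil)) .nil)) .leaf) (nat_lit 25275579220043109) (.br (nat_lit 3) (.cons (.br (nat_lit 5) (.cons (.rel (nat_lit 4563472386)) .nil)) .nil)) .leaf) (nat_lit 25275579220043134) (.br (nat_lit 0) (.cons (.br (nat_lit 1) (.cons (.rel (nat_lit 25166097)) (.cons (.rel (nat_lit 21234948)) .nil))) .nil)) (.node .leaf (nat_lit 25275579220058122) (.br (nat_lit 1) (.cons (.br (nat_lit 6) (.cons (.rel (nat_lit 17196713985)) .nil)) .nil)) .leaf)) (nat_lit 25275579220155118) (.br (nat_lit 1) (.cons (.br (nat_lit 3) (.cons (.rel (nat_lit 285229185)) .nil)) .nil)) (.node (.node .leaf (nat_lit 25275693561217034) (.br (nat_lit 3) (.cons (.br (nat_lit 0) (.cons (.rel (nat_lit 272892168)) (.cons (.rel (nat_lit 272957472)) .nil))) .nil)) .leaf) (nat_lit 25275693561217776) (.br (nat_lit 0) (.cons (.br (nat_lit 4) (.cons (.rel (nat_lit 1078018068)) .nil)) .nil)) (.node .leaf (nat_lit 25275699536831891) (.br (nat_lit 0) (.cons (.br (nat_lit 1) (.cons (.rel (nat_lit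 37818372)) .nil)) .nil)) .leaf)))) (nat_lit 25275699537847699) (.br (nat_lit 1) (.cons (.br (nat_lit 2) (.cons (.rel (nat_lit 167772165)) .nil)) .nil)) (.node (.node (.node (.node (.node .leaf (nat_lit 25275788152600054) (.br (nat_lit 1) (.cons (.br (nat_lit 6) (.cons (.rel (nat_lit 17196647682)) .nil)) .nil)) .leaf) (nat_lit 25275788153103146) (.br (nat_lit 1) (.cons (.br (nat_lit 2) (.cons (.rel (nat_lit 167773200)) (.cons (.rel (nat_lit 167772165)) .nil))) .nil)) .leaf) (nat_lit 25275788153112586) (.br (nat_lit 5) (.cons (.br (nat_lit 0) (.cons (.rel (nat_lit 8598405120)) (.cons (.rel (nat_lit 4299166725)) .nil))) .nil)) (.node .leaf (nat_lit 25275788153113326) (.br (nat_lit 1) (.cons (.br (nat_lit 0) (.cons (.rel (nat_lit 22022160)) (.cons (.rel (nat_lit 41943108)) .nil))) .nil)) .leaf)) (nat_lit 25275788154094974) (.br (nat_lit 0) (.cons (.br (nat_lit 1) (.cons (.rel (nat_lit 21239808)) .nil)) .nil)) (.node (.node .leaf (nat_lit 25275788154175498) (.br (nat_lit 0) (.cons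 (.br (nat_lit 1) (.cons (.rel (nat_lit 41943108)) (.cons (.rel (nat_lit 41943108)) .nil))) .nil)) .leaf) (nat_lit 25275788155118818) (.br (nat_lit 0) (.cons (.br (nat_lit 1) (.cons (.rel (nat_lit 21250050)) .nil)) .nil)) (.node .leaf (nat_lit 25275788155355146) (.br (nat_lit 3) (.cons (.br (nat_lit 5) (.cons (.rel (nat_lit 4563404292)) .nil)) .nil)) .leaf))) (nat_lit 25275788155355323) (.br (nat_lit 0) (.cons (.br (nat_lit 1) (.cons (.rel (nat_lit 37756929)) .nil)) .nil)) (.node (.node (.node (.node .leaf (nat_lit 25275788155356398) (.br (nat_lit 0) (.cons (.br (nat_lit 1) (.cons (.rel (nat_lit 37756929)) .nil)) .nil)) .leaf) (nat_lit 25275788155480095) (.br (nat_lit 1) (.cons (.br (nat_lit 3) (.cons (.rel (nat_lit 553649160)) .nil)) .nil)) .leaf) (nat_lit 25275788155480874) (.br (nat_lit 3) (.cons (.br (nat_lit 1) (.cons (.rel (nat_lit 285540609)) (.cons (.rel (nat_lit 286326786)) .nil))) .nil)) (.node .leaf (nat_lit 25275788155481590) (.br (nat_lit 0) (.cons (.br (nat_lit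 3) (.cons (.rel (nat_lit 272957472)) (.cons (.rel (nat_lit 272892168)) .nil))) (.cons (.br (nat_lit 3) (.cons (.rel (nat_lit 272663952)) (.cons (.rel (nat_lit 272957472)) .nil))) .nil))) .leaf)) (nat_lit 25275794071275530) (.br (nat_lit 0) (.cons (.br (nat_lit 1) (.cons (.rel (nat_lit 22022160)) .nil)) .nil)) (.node (.node .leaf (nat_lit 25275794073265385) (.br (nat_lit 1) (.cons (.br (nat_lit 3) (.cons (.rel (nat_lit 285495312)) .nil)) .nil)) .leaf) (nat_lit 25275794073265509) (.br (nat_lit 5) (.cons (.br (nat_lit 1) (.cons (.rel (nat_lit 4311747072)) (.cons (.rel (nat_lit 4311753732)) .nil))) .nil)) (.node .leaf (nat_lit 25275794073265534) (.br (nat_lit 1) (.cons (.br (nat_lit 5) (.cons (.rel (nat_lit 4312813632)) .nil)) .nil)) .leaf))))))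

/-- refutations 118 -/
def e118 : EX := (.node (.node (.node (.node (.node .leaf (nat_lit 26388365519721205) (.br (nat_lit 0) (.cons (.br (nat_lit 2) (.cons (.rel (nat_lit 71372802)) .nil)) .nil)) .leaf) (nat_lit 26389567662255365) (.br (nat_lit 0) (.cons (.br (nat_lit 2) (.cons (.rel (nat_lit 71309568)) .nil)) .nil)) .leaf) (nat_lit 26389567663216695) (.br (nat_lit 3) (.cons (.br (nat_lit 0) (.cons (.rel (nat_lit 541327425)) (.cons (.rel (nat_lit 272631936)) (.cons (.rel (nat_lit 272892168)) .nil)))) .nil)) (.node (.node .leaf (nat_lit 26390426656675895) (.br (nat_lit 0) (.cons (.br (nat_lit 2) (.cons (.rel (nat_lit 142610436)) .nil)) .nil)) .leaf) (nat_lit 26390426657692953) (.br (nat_lit 0) (.cons (.br (nat_lit 1) (.cons (.rel (nat_lit 22089984)) .nil)) .nil)) .leaf)) (nat_lit 26390427077122058) (.br (nat_lit 4) (.cons (.br (nat_lit 6) (.cons (.rel (nat_lit 18255708180)) .nil)) .nil)) (.node (.node (.node .leaf (nat_lit 26390427077123353) (.br (nat_lit 3) (.cons (.br (nat_lit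 5) (.cons (.rel (nat_lit 4563409152)) .nil)) .nil)) .leaf) (nat_lit 26390427077634203) (.br (nat_lit 0) (.cons (.br (nat_lit 2) (.cons (.rel (nat_lit 72892416)) .nil)) .nil)) .leaf) (nat_lit 26390429824391178) (.br (nat_lit 2) (.cons (.br (nat_lit 3) (.cons (.rel (nat_lit 671089665)) .nil)) .nil)) (.node .leaf (nat_lit 26390429824391818) (.br (nat_lit 1) (.cons (.br (nat_lit 6) (.cons (.rel (nat_lit 34393358592)) .nil)) .nil)) .leaf))) (nat_lit 26393866301615365) (.br (nat_lit 1) (.cons (.br (nat_lit 3) (.cons (.rel (nat_lit 285229185)) .nil)) .nil)) (.node (.node (.node (.node .leaf (nat_lit 26393866301615465) (.br (nat_lit 0) (.cons (.br (nat_lit 3) (.cons (.rel (nat_lit 272892168)) .nil)) .nil)) .leaf) (nat_lit 26393868815626270) (.br (nat_lit 0) (.cons (.br (nat_lit 3) (.cons (.rel (nat_lit 546588672)) .nil)) .nil)) .leaf) (nat_lit 26396056230533175) (.br (nat_lit 1) (.cons (.br (nat_lit 2) (.cons (.rel (nat_lit 167773200)) .nil)) .nil)) (.node .leaf (nat_lit 26396267747851025)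 (.br (nat_lit 1) (.cons (.br (nat_lit 2) (.cons (.rel (nat_lit 83920128)) .nil)) .nil)) .leaf)) (nat_lit 26396267747851770) (.br (nat_lit 1) (.cons (.br (nat_lit 6) (.cons (.rel (nat_lit 17196647682)) .nil)) .nil)) (.node (.node (.node .leaf (nat_lit 26399022776382225) (.br (nat_lit 0) (.cons (.br (nat_lit 1) (.cons (.rel (nat_lit 41943108)) .nil)) .nil)) .leaf) (nat_lit 26399022776935800) (.br (nat_lit 0) (.cons (.br (nat_lit 1) (.cons (.rel (nat_lit 20971656)) .nil)) .nil)) .leaf) (nat_lit 26399022779413290) (.br (nat_lit 0) (.cons (.br (nat_lit 1) (.cons (.rel (nat_lit 25166097)) .nil)) .nil)) (.node .leaf (nat_lit 26401599758254840) (.br (nat_lit 0) (.cons (.br (nat_lit 1) (.cons (.rel (nat_lit 42549264)) .nil)) .nil)) .leaf))))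

/-- refutations 119 -/
def e119 : EX := (.node (.node (.node (.node (.node (.node .leaf (nat_lit 26511949121392097) (.br (nat_lit 3) (.cons (.br (nat_lit 6) (.cons (.rel (nat_lit 17448305937)) .nil)) .nil)) .leaf) (nat_lit 26512498110823210) (.br (nat_lit 0) (.cons (.br (nat_lit 1) (.cons (.rel (nat_lit 41943108)) .nil)) .nil)) (.node .leaf (nat_lit 26512498110823910) (.br (nat_lit 2) (.cons (.br (nat_lit 3) (.cons (.rel (nat_lit 335546370)) (.cons (.rel (nat_lit 335577348)) .nil))) (.cons (.br (nat_lit 3) (.cons (.rel (nat_lit 336592968)) (.cons (.rel (nat_lit 403177536)) .nil))) .nil))) .leaf)) (nat_lit 26512498110865439) (.br (nat_lit 0) (.cons (.br (nat_lit 1) (.cons (.rel (nat_lit 20971656)) .nil)) .nil)) (.node (.node .leaf (nat_lit 26512498110866189) (.br (nat_lit 1) (.cons (.br (nat_lit 4) (.cons (.rel (nat_lit 1090521105)) .nil)) .nil)) .leaf) (nat_lit 26512498110866194) (.br (nat_lit 0) (.cons (.br (nat_lit 3) (.cons (.rel (nat_lit 272631936)) .nil)) .nil)) (.node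 .leaf (nat_lit 26512498110886669) (.br (nat_lit 0) (.cons (.br (nat_lit 2) (.cons (.rel (nat_lit 71311368)) .nil)) .nil)) .leaf))) (nat_lit 26512498111326218) (.br (nat_lit 3) (.cons (.br (nat_lit 4) (.cons (.rel (nat_lit 2684355600)) .nil)) .nil)) (.node (.node (.node .leaf (nat_lit 26512498111377535) (.br (nat_lit 0) (.cons (.br (nat_lit 1) (.cons (.rel (nat_lit 20971656)) .nil)) .nil)) .leaf) (nat_lit 26512498111377710) (.br (nat_lit 1) (.cons (.br (nat_lit 2) (.cons (.rel (nat_lit 167773200)) (.cons (.rel (nat_lit 168857664)) .nil))) .nil)) (.node .leaf (nat_lit 26512498111378814) (.br (nat_lit 1) (.cons (.br (nat_lit 3) (.cons (.rel (nat_lit 286326786)) (.cons (.rel (nat_lit 285540609)) .nil))) .nil)) .leaf)) (nat_lit 26512498111378938) (.br (nat_lit 1) (.cons (.br (nat_lit 3) (.cons (.rel (nat_lit 286277664)) .nil)) .nil)) (.node (.node .leaf (nat_lit 26512498112040970) (.br (nat_lit 0) (.cons (.br (nat_lit 1) (.cons (.rel (nat_lit 41943108)) .nil)) .nil)) .leaf) (nat_lit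 26512498112041241) (.br (nat_lit 0) (.cons (.br (nat_lit 2) (.cons (.rel (nat_lit 71304708)) .nil)) .nil)) .leaf))) (nat_lit 26512498112041586) (.br (nat_lit 0) (.cons (.br (nat_lit 1) (.cons (.rel (nat_lit 20971656)) (.cons (.rel (nat_lit 21239808)) .nil))) (.cons (.br (nat_lit 1) (.cons (.rel (nat_lit 20977284)) (.cons (.rel (nat_lit 21239808)) .nil))) .nil))) (.node (.node (.node (.node .leaf (nat_lit 26512498112041847) (.br (nat_lit 0) (.cons (.br (nat_lit 1) (.cons (.rel (nat_lit 20971656)) .nil)) .nil)) .leaf) (nat_lit 26512498112358410) (.br (nat_lit 2) (.cons (.br (nat_lit 0) (.cons (.rel (nat_lit 138690564)) (.cons (.rel (nat_lit 71311368)) (.cons (.rel (nat_lit 71311368)) (.cons (.rel (nat_lit 71434245)) (.cons (.rel (nat_lit 71311368)) .nil)))))) (.cons (.br (nat_lit 0) (.cons (.rel (nat_lit 71311368)) (.cons (.rel (nat_lit 71319810)) (.cons (.rel (nat_lit 71319810)) (.cons (.rel (nat_lit 71309568)) (.cons (.rel (nat_lit 71307546)) .nil)))))) (.cons (.br (nat_lit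 0) (.cons (.rel (nat_lit 71311368)) (.cons (.rel (nat_lit 71323680)) (.cons (.rel (nat_lit 71304708)) (.cons (.rel (nat_lit 71304708)) (.cons (.rel (nat_lit 71311368)) .nil)))))) .nil)))) (.node .leaf (nat_lit 26512498112359181) (.br (nat_lit 0) (.cons (.br (nat_lit 2) (.cons (.rel (nat_lit 71335956)) (.cons (.rel (nat_lit 71323680)) .nil))) .nil)) .leaf)) (nat_lit 26512498112359285) (.br (nat_lit 0) (.cons (.br (nat_lit 4) (.cons (.rel (nat_lit 2155873536)) .nil)) .nil)) (.node (.node .leaf (nat_lit 26512498112359781) (.br (nat_lit 4) (.cons (.br (nat_lit 6) (.cons (.rel (nat_lit 18254925828)) .nil)) .nil)) .leaf) (nat_lit 26512498112359957) (.br (nat_lit 0) (.cons (.br (nat_lit 2) (.cons (.rel (nat_lit 142610436)) .nil)) .nil)) (.node .leaf (nat_lit 26512498112369390) (.br (nat_lit 0) (.cons (.br (nat_lit 1) (.cons (.rel (nat_lit 42471684)) .nil)) .nil)) .leaf))) (nat_lit 26512498112407562) (.br (nat_lit 0) (.cons (.br (nat_lit 3) (.cons (.rel (nat_lit 545260608)) .nil)) .nil))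 (.node (.node (.node .leaf (nat_lit 26512498112408357) (.br (nat_lit 0) (.cons (.br (nat_lit 3) (.cons (.rel (nat_lit 273699072)) .nil)) .nil)) .leaf) (nat_lit 26512498112408464) (.br (nat_lit 0) (.cons (.br (nat_lit 3) (.cons (.rel (nat_lit 272897028)) .nil)) .nil)) (.node .leaf (nat_lit 26512498112602898) (.br (nat_lit 0) (.cons (.br (nat_lit 1) (.cons (.rel (nat_lit 20971656)) .nil)) .nil)) .leaf)) (nat_lit 26512498113330089) (.br (nat_lit 0) (.cons (.br (nat_lit 1) (.cons (.rel (nat_lit 21250050)) .nil)) .nil)) (.node (.node .leaf (nat_lit 26512498113330682) (.br (nat_lit 0) (.cons (.br (nat_lit 3) (.cons (.rel (nat_lit 545260608)) .nil)) .nil)) .leaf) (nat_lit 26512498113339694) (.br (nat_lit 0) (.cons (.br (nat_lit 4) (.cons (.rel (nat_lit 1077936666)) .nil)) .nil)) .leaf)))) (nat_lit 26512498113340319) (.br (nat_lit 0) (.cons (.br (nat_lit 1) (.cons (.rel (nat_lit 20971656)) .nil)) .nil)) (.node (.node (.node (.node (.node .leaf (nat_lit 26512498113432464) (.br (nat_lit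 0) (.cons (.br (nat_lit 1) (.cons (.rel (nat_lit 41943108)) (.cons (.rel (nat_lit 21250050)) .nil))) .nil)) .leaf) (nat_lit 26512498113841902) (.br (nat_lit 0) (.cons (.br (nat_lit 5) (.cons (.rel (nat_lit 4299178002)) (.cons (.rel (nat_lit 4299161865)) .nil))) .nil)) (.node .leaf (nat_lit 26512498113841933) (.br (nat_lit 0) (.cons (.br (nat_lit 3) (.cons (.rel (nat_lit 272631936)) .nil)) .nil)) .leaf)) (nat_lit 26512498113842064) (.br (nat_lit 3) (.cons (.br (nat_lit 5) (.cons (.rel (nat_lit 4831842384)) .nil)) .nil)) (.node (.node .leaf (nat_lit 26512498113842079) (.br (nat_lit 0) (.cons (.br (nat_lit 3) (.cons (.rel (nat_lit 273678345)) .nil)) .nil)) .leaf) (nat_lit 26512498113842578) (.br (nat_lit 5) (.cons (.br (nat_lit 0) (.cons (.rel (nat_lit 4299161865)) (.cons (.rel (nat_lit 4299162900)) .nil))) .nil)) (.node .leaf (nat_lit 26512498113842657) (.br (nat_lit 0) (.cons (.br (nat_lit 5) (.cons (.br (nat_lit 3) (.cons (.rel (nat_lit 272892168)) (.cons (.rel (nat_lit 272892168))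 (.cons (.rel (nat_lit 4563410952)) .nil)))) (.cons (.rel (nat_lit 4299161865)) .nil))) (.cons (.br (nat_lit 5) (.cons (.rel (nat_lit 4299325440)) (.cons (.rel (nat_lit 4299182592)) .nil))) .nil))) .leaf))) (nat_lit 26512498113904671) (.br (nat_lit 0) (.cons (.br (nat_lit 2) (.cons (.rel (nat_lit 142610436)) .nil)) .nil)) (.node (.node (.node .leaf (nat_lit 26512498113905390) (.br (nat_lit 6) (.cons (.br (nat_lit 1) (.cons (.rel (nat_lit 17196647682)) (.cons (.rel (nat_lit 17196647682)) .nil))) .nil)) .leaf) (nat_lit 26512498113937418) (.br (nat_lit 0) (.cons (.br (nat_lit 1) (.cons (.rel (nat_lit 22021125)) (.cons (.rel (nat_lit 21234948)) .nil))) .nil)) (.node .leaf (nat_lit 26512498113938189) (.br (nat_lit 0) (.cons (.br (nat_lit 1) (.cons (.rel (nat_lit 37753104)) (.cons (.rel (nat_lit 41943108)) .nil))) .nil)) .leaf)) (nat_lit 26512501309902305) (.br (nat_lit 0) (.cons (.br (nat_lit 4) (.cons (.rel (nat_lit 1077938688)) .nil)) .nil)) (.node (.node .leaf (nat_lit 26512501885747952)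 (.br (nat_lit 0) (.cons (.br (nat_lit 1) (.cons (.rel (nat_lit 25329684)) .nil)) .nil)) .leaf) (nat_lit 26512501888306457) (.br (nat_lit 0) (.cons (.br (nat_lit 2) (.cons (.rel (nat_lit 71309568)) .nil)) .nil)) .leaf))) (nat_lit 26512501888811789) (.br (nat_lit 1) (.cons (.br (nat_lit 4) (.cons (.rel (nat_lit 1090521105)) (.cons (.rel (nat_lit 2165374980)) .nil))) .nil)) (.node (.node (.node (.node .leaf (nat_lit 26512503609597962) (.br (nat_lit 0) (.cons (.br (nat_lit 2) (.cons (.rel (nat_lit 71304708)) .nil)) .nil)) .leaf) (nat_lit 26512503611090954) (.br (nat_lit 1) (.cons (.br (nat_lit 0) (.cons (.rel (nat_lit 25169922)) (.cons (.rel (nat_lit 21299217)) (.cons (.rel (nat_lit 22036992)) .nil)))) .nil)) (.node .leaf (nat_lit 26512503611091725) (.br (nat_lit 1) (.cons (.br (nat_lit 5) (.cons (.rel (nat_lit 8623490304)) .nil)) .nil)) .leaf)) (nat_lit 26512503611092325) (.br (nat_lit 1) (.cons (.br (nat_lit 2) (.cons (.rel (nat_lit 83906817)) .nil)) .nil)) (.node (.node .leaf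 (nat_lit 26512503611151146) (.br (nat_lit 3) (.cons (.br (nat_lit 6) (.cons (.rel (nat_lit 17448440064)) .nil)) .nil)) .leaf) (nat_lit 26512503612635888) (.br (nat_lit 0) (.cons (.br (nat_lit 3) (.cons (.rel (nat_lit 276840453)) .nil)) .nil)) .leaf)) (nat_lit 26512773126062090) (.br (nat_lit 1) (.cons (.br (nat_lit 2) (.cons (.rel (nat_lit 83968260)) .nil)) .nil)) (.node (.node (.node .leaf (nat_lit 26512776289697802) (.br (nat_lit 0) (.cons (.br (nat_lit 3) (.cons (.rel (nat_lit 272631936)) .nil)) .nil)) .leaf) (nat_lit 26512928915000826) (.br (nat_lit 0) (.cons (.br (nat_lit 1) (.cons (.rel (nat_lit 41943108)) .nil)) .nil)) (.node .leaf (nat_lit 26514062243500042) (.br (nat_lit 1) (.cons (.br (nat_lit 3) (.cons (.rel (nat_lit 285229185)) (.cons (.rel (nat_lit 285495312)) .nil))) .nil)) .leaf)) (nat_lit 26514062243500658) (.br (nat_lit 5) (.cons (.br (nat_lit 1) (.cons (.rel (nat_lit 4311753732)) (.cons (.rel (nat_lit 4311747072)) .nil))) .nil)) (.node (.node .leaf (nat_lit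 26514062243867429) (.br (nat_lit 0) (.cons (.br (nat_lit 3) (.cons (.rel (nat_lit 273699072)) .nil)) .nil)) .leaf) (nat_lit 26514062243867536) (.br (nat_lit 2) (.cons (.br (nat_lit 3) (.cons (.rel (nat_lit 335544345)) (.cons (.rel (nat_lit 335568897)) .nil))) .nil)) .leaf)))))

/-- refutations 120 -/
def e120 : EX := (.node (.node (.node (.node (.node (.node (.node .leaf (nat_lit 26516793081234189) (.br (nat_lit 1) (.cons (.br (nat_lit 4) (.cons (.rel (nat_lit 2181038100)) .nil)) .nil)) .leaf) (nat_lit 26516798951680010) (.br (nat_lit 0) (.cons (.br (nat_lit 2) (.cons (.rel (nat_lit 71311368)) .nil)) .nil)) .leaf) (nat_lit 26519255299681037) (.br (nat_lit 1) (.cons (.br (nat_lit 5) (.cons (.rel (nat_lit 8607768576)) .nil)) .nil)) (.node (.node .leaf (nat_lit 26519255299740458) (.br (nat_lit 0) (.cons (.br (nat_lit 3) (.cons (.rel (nat_lit 541065744)) .nil)) .nil)) .leaf) (nat_lit 26519455958141589) (.br (nat_lit 1) (.cons (.br (nat_lit 2) (.cons (.rel (nat_lit 167772165)) .nil))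 .nil)) .leaf)) (nat_lit 26522651413510805) (.br (nat_lit 1) (.cons (.br (nat_lit 3) (.cons (.rel (nat_lit 286263552)) .nil)) .nil)) (.node (.node (.node .leaf (nat_lit 26522651413511654) (.br (nat_lit 4) (.cons (.br (nat_lit 5) (.cons (.rel (nat_lit 9663680514)) (.cons (.rel (nat_lit 5370040320)) .nil))) .nil)) .leaf) (nat_lit 26522651413553933) (.br (nat_lit 1) (.cons (.br (nat_lit 6) (.cons (.rel (nat_lit 34376516736)) .nil)) .nil)) .leaf) (nat_lit 26522651413553938) (.br (nat_lit 1) (.cons (.br (nat_lit 3) (.cons (.rel (nat_lit 301991940)) (.cons (.rel (nat_lit 285540609)) .nil))) (.cons (.br (nat_lit 3) (.cons (.rel (nat_lit 553656576)) (.cons (.rel (nat_lit 285507588)) .nil))) .nil))) (.node .leaf (nat_lit 26522651413554682) (.br (nat_lit 1) (.cons (.br (nat_lit 3) (.cons (.rel (nat_lit 301989906)) .nil)) .nil)) .leaf))) (nat_lit 26522651413561375) (.br (nat_lit 1) (.cons (.br (nat_lit 3) (.cons (.rel (nat_lit 286326786)) .nil)) .nil)) (.node (.node (.node (.node .leaf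 (nat_lit 26522651413573642) (.br (nat_lit 0) (.cons (.br (nat_lit 1) (.cons (.rel (nat_lit 22021125)) .nil)) .nil)) .leaf) (nat_lit 26522651413575158) (.br (nat_lit 1) (.cons (.br (nat_lit 2) (.cons (.rel (nat_lit 167772165)) .nil)) .nil)) .leaf) (nat_lit 26522651413713833) (.br (nat_lit 0) (.cons (.br (nat_lit 1) (.cons (.rel (nat_lit 41943108)) .nil)) .nil)) (.node .leaf (nat_lit 26522651413768217) (.br (nat_lit 0) (.cons (.br (nat_lit 1) (.cons (.rel (nat_lit 20971656)) .nil)) .nil)) .leaf)) (nat_lit 26522651413768942) (.br (nat_lit 0) (.cons (.br (nat_lit 2) (.cons (.rel (nat_lit 71335956)) .nil)) .nil)) (.node (.node (.node .leaf (nat_lit 26522651413809279) (.br (nat_lit 6) (.cons (.br (nat_lit 0) (.cons (.rel (nat_lit 17184063510)) (.cons (.rel (nat_lit 17184072960)) .nil))) .nil)) .leaf) (nat_lit 26522651413809329) (.br (nat_lit 1) (.cons (.br (nat_lit 3) (.cons (.rel (nat_lit 285495312)) (.cons (.rel (nat_lit 285229185)) (.cons (.rel (nat_lit 286265352)) .nil)))) (.cons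 (.br (nat_lit 3) (.cons (.rel (nat_lit 286265352)) (.cons (.br (nat_lit 2) (.cons (.rel (nat_lit 352322112)) (.cons (.rel (nat_lit 335546370)) (.cons (.rel (nat_lit 100671552)) (.cons (.rel (nat_lit 83886090)) .nil))))) (.cons (.rel (nat_lit 285229185)) .nil)))) .nil))) .leaf) (nat_lit 26522651413809433) (.br (nat_lit 1) (.cons (.br (nat_lit 2) (.cons (.rel (nat_lit 167772165)) (.cons (.rel (nat_lit 83887125)) .nil))) .nil)) (.node .leaf (nat_lit 26522651413809813) (.br (nat_lit 2) (.cons (.br (nat_lit 1) (.cons (.rel (nat_lit 83886090)) (.cons (.rel (nat_lit 83886090)) .nil))) .nil)) .leaf)))) (nat_lit 26522651413810464) (.br (nat_lit 6) (.cons (.br (nat_lit 4) (.cons (.rel (nat_lit 18253612113)) (.cons (.rel (nat_lit 18253693248)) .nil))) .nil)) (.node (.node (.node (.node (.node .leaf (nat_lit 26522651413810533) (.br (nat_lit 0) (.cons (.br (nat_lit 2) (.cons (.rel (nat_lit 76812288)) .nil)) .nil)) .leaf) (nat_lit 26522651413810678) (.br (nat_lit 2) (.cons (.br (nat_lit 4)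 (.cons (.rel (nat_lit 1207959585)) .nil)) .nil)) .leaf) (nat_lit 26522651413981845) (.br (nat_lit 1) (.cons (.br (nat_lit 2) (.cons (.rel (nat_lit 167772165)) .nil)) .nil)) (.node (.node .leaf (nat_lit 26522651413982565) (.br (nat_lit 1) (.cons (.br (nat_lit 0) (.cons (.rel (nat_lit 20971656)) (.cons (.rel (nat_lit 41943108)) .nil))) .nil)) .leaf) (nat_lit 26522651414065454) (.br (nat_lit 2) (.cons (.br (nat_lit 1) (.cons (.rel (nat_lit 83886090)) (.cons (.rel (nat_lit 83886090)) .nil))) .nil)) .leaf)) (nat_lit 26522651414066558) (.br (nat_lit 3) (.cons (.br (nat_lit 4) (.cons (.rel (nat_lit 1610613312)) .nil)) .nil)) (.node (.node (.node .leaf (nat_lit 26522651414841369) (.br (nat_lit 2) (.cons (.br (nat_lit 4) (.cons (.rel (nat_lit 1142162436)) .nil)) .nil)) .leaf) (nat_lit 26522651415046154) (.br (nat_lit 0) (.cons (.br (nat_lit 2) (.cons (.rel (nat_lit 71319810)) (.cons (.rel (nat_lit 71567424)) (.cons (.rel (nat_lit 72892416)) (.cons (.rel (nat_lit 71319810)) .nil)))))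 (.cons (.br (nat_lit 2) (.cons (.rel (nat_lit 142610436)) (.cons (.rel (nat_lit 71319810)) (.cons (.rel (nat_lit 71304708)) (.cons (.rel (nat_lit 71309568)) .nil))))) (.cons (.br (nat_lit 2) (.cons (.rel (nat_lit 71335956)) (.cons (.rel (nat_lit 71323680)) (.cons (.rel (nat_lit 71309568)) (.cons (.rel (nat_lit 71309568)) .nil))))) (.cons (.br (nat_lit 3) (.cons (.rel (nat_lit 272897028)) (.cons (.rel (nat_lit 272892168)) (.cons (.rel (nat_lit 273699072)) (.cons (.rel (nat_lit 541069569)) .nil))))) .nil))))) .leaf) (nat_lit 26522651415057170) (.br (nat_lit 3) (.cons (.br (nat_lit 6) (.cons (.rel (nat_lit 17449354560)) (.cons (.rel (nat_lit 17448309762)) (.cons (.rel (nat_lit 34896629760)) .nil)))) .nil)) (.node .leaf (nat_lit 26522651415057889) (.br (nat_lit 6) (.cons (.br (nat_lit 2) (.cons (.rel (nat_lit 17314088196)) (.cons (.rel (nat_lit 17248026756)) .nil))) .nil)) .leaf))) (nat_lit 26522651415095473) (.br (nat_lit 1) (.cons (.br (nat_lit 2) (.cons (.rel (nat_lit 83888160))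 .nil)) .nil)) (.node (.node (.node (.node .leaf (nat_lit 26522651415096101) (.br (nat_lit 3) (.cons (.br (nat_lit 0) (.cons (.rel (nat_lit 541328472)) (.cons (.rel (nat_lit 272892168)) (.cons (.rel (nat_lit 272957472)) .nil)))) .nil)) .leaf) (nat_lit 26522651415096208) (.br (nat_lit 3) (.cons (.br (nat_lit 5) (.cons (.rel (nat_lit 4563435540)) (.cons (.rel (nat_lit 9126809604)) .nil))) (.cons (.br (nat_lit 0) (.cons (.rel (nat_lit 545260608)) (.cons (.rel (nat_lit 545260608)) (.cons (.rel (nat_lit 273956928)) .nil)))) .nil))) .leaf) (nat_lit 26522651415096801) (.br (nat_lit 1) (.cons (.br (nat_lit 2) (.cons (.rel (nat_lit 151257600)) .nil)) .nil)) (.node .leaf (nat_lit 26522651415106317) (.br (nat_lit 1) (.cons (.br (nat_lit 5) (.cons (.rel (nat_lit 4311753732)) .nil)) .nil)) .leaf)) (nat_lit 26522651415106448) (.br (nat_lit 0) (.cons (.br (nat_lit 1) (.cons (.rel (nat_lit 21299217)) .nil)) .nil)) (.node (.node (.node .leaf (nat_lit 26522651415107609) (.br (nat_lit 3) (.cons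 (.br (nat_lit 1) (.cons (.rel (nat_lit 285218946)) (.cons (.rel (nat_lit 285507588)) .nil))) .nil)) .leaf) (nat_lit 26522651415108370) (.br (nat_lit 0) (.cons (.br (nat_lit 3) (.cons (.rel (nat_lit 276824352)) .nil)) .nil)) .leaf) (nat_lit 26522651416017833) (.br (nat_lit 0) (.cons (.br (nat_lit 1) (.cons (.rel (nat_lit 41943108)) .nil)) .nil)) (.node .leaf (nat_lit 26522651416119423) (.br (nat_lit 2) (.cons (.br (nat_lit 6) (.cons (.rel (nat_lit 17247633408)) .nil)) .nil)) .leaf))))) (nat_lit 26522651416120601) (.br (nat_lit 2) (.cons (.br (nat_lit 6) (.cons (.rel (nat_lit 34494283776)) .nil)) .nil)) (.node (.node (.node (.node (.node (.node .leaf (nat_lit 26522651416528923) (.br (nat_lit 0) (.cons (.br (nat_lit 1) (.cons (.rel (nat_lit 41943108)) (.cons (.rel (nat_lit 21299217)) .nil))) (.cons (.br (nat_lit 5) (.cons (.rel (nat_lit 4299178002)) (.cons (.rel (nat_lit 8598405120)) .nil))) .nil))) .leaf) (nat_lit 26522651416529073) (.br (nat_lit 2) (.cons (.br (nat_lit 1) (.cons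 (.rel (nat_lit 100671552)) (.cons (.rel (nat_lit 83886090)) .nil))) .nil)) .leaf) (nat_lit 26522651416529557) (.br (nat_lit 1) (.cons (.br (nat_lit 3) (.cons (.rel (nat_lit 285507588)) .nil)) .nil)) (.node (.node .leaf (nat_lit 26522651416529646) (.br (nat_lit 0) (.cons (.br (nat_lit 2) (.cons (.rel (nat_lit 72892416)) (.cons (.rel (nat_lit 71304708)) (.cons (.rel (nat_lit 71309568)) (.cons (.rel (nat_lit 76812288)) .nil))))) (.cons (.br (nat_lit 4) (.cons (.rel (nat_lit 1078018068)) (.cons (.rel (nat_lit 1084227585)) (.cons (.br (nat_lit 2) (.cons (.rel (nat_lit 2214592530)) (.cons (.rel (nat_lit 2214592530)) (.cons (.rel (nat_lit 139460640)) (.cons (.rel (nat_lit 71335956)) .nil))))) .nil)))) .nil))) .leaf) (nat_lit 26522651416529707) (.br (nat_lit 1) (.cons (.br (nat_lit 3) (.cons (.rel (nat_lit 285278352)) (.cons (.rel (nat_lit 286277664)) .nil))) .nil)) .leaf)) (nat_lit 26522651416529808) (.br (nat_lit 3) (.cons (.br (nat_lit 5) (.cons (.rel (nat_lit 4563435540)) .nil))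 .nil)) (.node (.node (.node .leaf (nat_lit 26522651416530401) (.br (nat_lit 3) (.cons (.br (nat_lit 1) (.cons (.rel (nat_lit 553648161)) (.cons (.rel (nat_lit 285278352)) (.cons (.rel (nat_lit 286263552)) (.cons (.rel (nat_lit 285278352)) (.cons (.rel (nat_lit 301994496)) .nil)))))) (.cons (.br (nat_lit 4) (.cons (.rel (nat_lit 1342178325)) (.cons (.rel (nat_lit 2684354565)) (.cons (.rel (nat_lit 1342177290)) (.cons (.rel (nat_lit 2684355600)) (.cons (.rel (nat_lit 1342194192)) (.cons (.rel (nat_lit 1343226948)) .nil))))))) (.cons (.br (nat_lit 6) (.cons (.rel (nat_lit 17448321048)) (.cons (.rel (nat_lit 17448305937)) (.cons (.rel (nat_lit 17716740168)) (.cons (.rel (nat_lit 17716740168)) .nil))))) (.cons (.br (nat_lit 6) (.cons (.rel (nat_lit 17448321048)) (.cons (.rel (nat_lit 17448304902)) (.cons (.rel (nat_lit 17716740168)) (.cons (.rel (nat_lit 17716740168)) .nil))))) .nil))))) .leaf) (nat_lit 26522651416530406) (.br (nat_lit 2) (.cons (.br (nat_lit 5) (.cons (.rel (nat_lit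 8657043744)) .nil)) .nil)) .leaf) (nat_lit 26522651416530453) (.br (nat_lit 0) (.cons (.br (nat_lit 4) (.cons (.rel (nat_lit 1079574528)) .nil)) .nil)) (.node .leaf (nat_lit 26522651416591871) (.br (nat_lit 2) (.cons (.br (nat_lit 3) (.cons (.rel (nat_lit 335546370)) (.cons (.rel (nat_lit 335546370)) (.cons (.br (nat_lit 6) (.cons (.rel (nat_lit 34494283776)) (.cons (.rel (nat_lit 17247011136)) (.cons (.rel (nat_lit 34628173956)) .nil)))) .nil)))) (.cons (.br (nat_lit 3) (.cons (.rel (nat_lit 335544345)) (.cons (.rel (nat_lit 335546370)) (.cons (.rel (nat_lit 335545380)) .nil)))) .nil))) .leaf))) (nat_lit 26522651416593045) (.br (nat_lit 1) (.cons (.br (nat_lit 3) (.cons (.rel (nat_lit 285229185)) .nil)) .nil)) (.node (.node (.node (.node .leaf (nat_lit 26522651416593134) (.br (nat_lit 6) (.cons (.br (nat_lit 1) (.cons (.rel (nat_lit 17196651552)) (.cons (.rel (nat_lit 17197699140)) (.cons (.rel (nat_lit 17196941376)) (.cons (.rel (nat_lit 17196647682)) .nil))))) .nil)) .leaf)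 (nat_lit 26522651416625162) (.br (nat_lit 2) (.cons (.br (nat_lit 6) (.cons (.rel (nat_lit 17247011136)) (.cons (.rel (nat_lit 17247011136)) .nil))) .nil)) .leaf) (nat_lit 26522651416625933) (.br (nat_lit 0) (.cons (.br (nat_lit 3) (.cons (.rel (nat_lit 545260608)) (.cons (.rel (nat_lit 272631936)) (.cons (.rel (nat_lit 272631936)) .nil)))) (.cons (.br (nat_lit 3) (.cons (.rel (nat_lit 545260608)) (.cons (.rel (nat_lit 541065744)) (.cons (.rel (nat_lit 545260608)) .nil)))) .nil))) (.node .leaf (nat_lit 26522651416626687) (.br (nat_lit 0) (.cons (.br (nat_lit 1) (.cons (.rel (nat_lit 41943108)) .nil)) .nil)) .leaf)) (nat_lit 26522651416626709) (.br (nat_lit 0) (.cons (.br (nat_lit 1) (.cons (.rel (nat_lit 21234948)) .nil)) .nil)) (.node (.node (.node .leaf (nat_lit 26522651416633646) (.br (nat_lit 1) (.cons (.br (nat_lit 2) (.cons (.rel (nat_lit 83886090)) .nil)) .nil)) .leaf) (nat_lit 26522651967713582) (.br (nat_lit 1) (.cons (.br (nat_lit 2) (.cons (.rel (nat_lit 83886090))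 .nil)) .nil)) .leaf) (nat_lit 26522651968755737) (.br (nat_lit 0) (.cons (.br (nat_lit 1) (.cons (.rel (nat_lit 21299217)) .nil)) .nil)) (.node .leaf (nat_lit 26522651969768729) (.br (nat_lit 0) (.cons (.br (nat_lit 2) (.cons (.rel (nat_lit 71434245)) .nil)) .nil)) .leaf)))) (nat_lit 26522651970177051) (.br (nat_lit 0) (.cons (.br (nat_lit 1) (.cons (.rel (nat_lit 41943108)) .nil)) .nil)) (.node (.node (.node (.node (.node .leaf (nat_lit 26522651970177834) (.br (nat_lit 0) (.cons (.br (nat_lit 1) (.cons (.rel (nat_lit 21250050)) .nil)) .nil)) .leaf) (nat_lit 26522652177172657) (.br (nat_lit 1) (.cons (.br (nat_lit 3) (.cons (.rel (nat_lit 553746432)) .nil)) .nil)) .leaf) (nat_lit 26522652177172761) (.br (nat_lit 1) (.cons (.br (nat_lit 2) (.cons (.rel (nat_lit 83888160)) (.cons (.rel (nat_lit 150999168)) .nil))) .nil)) (.node (.node .leaf (nat_lit 26522652177173237) (.br (nat_lit 0) (.cons (.br (nat_lit 1) (.cons (.rel (nat_lit 21239808)) .nil)) .nil)) .leaf) (nat_lit 26522652177333750)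 (.br (nat_lit 2) (.cons (.br (nat_lit 3) (.cons (.rel (nat_lit 335822928)) .nil)) .nil)) .leaf)) (nat_lit 26522652177428511) (.br (nat_lit 0) (.cons (.br (nat_lit 1) (.cons (.rel (nat_lit 37756929)) .nil)) .nil)) (.node (.node (.node .leaf (nat_lit 26522652178458905) (.br (nat_lit 0) (.cons (.br (nat_lit 1) (.cons (.rel (nat_lit 20971656)) .nil)) .nil)) .leaf) (nat_lit 26522652178459536) (.br (nat_lit 2) (.cons (.br (nat_lit 1) (.cons (.rel (nat_lit 100671552)) (.cons (.rel (nat_lit 83955984)) .nil))) .nil)) .leaf) (nat_lit 26522652179893729) (.br (nat_lit 1) (.cons (.br (nat_lit 3) (.cons (.rel (nat_lit 553648161)) (.cons (.rel (nat_lit 285507588)) .nil))) .nil)) (.node .leaf (nat_lit 26522652699986670) (.br (nat_lit 0) (.cons (.br (nat_lit 2) (.cons (.rel (nat_lit 77594640)) (.cons (.rel (nat_lit 71335956)) .nil))) .nil)) .leaf))) (nat_lit 26522654611117537) (.br (nat_lit 1) (.cons (.br (nat_lit 2) (.cons (.rel (nat_lit 150999168)) .nil)) .nil)) (.node (.node (.node (.node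 .leaf (nat_lit 26522654612077230) (.br (nat_lit 2) (.cons (.br (nat_lit 3) (.cons (.rel (nat_lit 335546370)) .nil)) .nil)) .leaf) (nat_lit 26522654612179605) (.br (nat_lit 4) (.cons (.br (nat_lit 1) (.cons (.rel (nat_lit 2165309712)) (.cons (.rel (nat_lit 1090519080)) .nil))) .nil)) .leaf) (nat_lit 26522654612588571) (.br (nat_lit 0) (.cons (.br (nat_lit 2) (.cons (.rel (nat_lit 71319810)) .nil)) .nil)) (.node .leaf (nat_lit 26522654799850253) (.br (nat_lit 0) (.cons (.br (nat_lit 4) (.cons (.rel (nat_lit 1077968901)) .nil)) .nil)) .leaf)) (nat_lit 26522654801333729) (.br (nat_lit 1) (.cons (.br (nat_lit 3) (.cons (.rel (nat_lit 285507588)) .nil)) .nil)) (.node (.node (.node .leaf (nat_lit 26522655189979163) (.br (nat_lit 0) (.cons (.br (nat_lit 3) (.cons (.rel (nat_lit 272957472)) .nil)) .nil)) .leaf) (nat_lit 26522655189980671) (.br (nat_lit 0) (.cons (.br (nat_lit 1) (.cons (.rel (nat_lit 22347840)) .nil)) .nil)) .leaf) (nat_lit 26522655191498762) (.br (nat_lit 4) (.cons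 (.br (nat_lit 6) (.cons (.rel (nat_lit 35433743424)) .nil)) .nil)) (.node .leaf (nat_lit 26522655191499533) (.br (nat_lit 5) (.cons (.br (nat_lit 6) (.cons (.rel (nat_lit 38654709780)) .nil)) .nil)) .leaf))))))

/-- refutations 121 -/
def e121 : EX := (.node .leaf (nat_lit 26524624008800266) (.br (nat_lit 0) (.cons (.br (nat_lit 2) (.cons (.rel (nat_lit 142610436)) .nil)) .nil)) .leaf)

/-- refutations 122 -/
def e122 : EX := (.node (.node (.node (.node (.node .leaf (nat_lit 26424755288602655) (.br (nat_lit 1) (.cons (.br (nat_lit 5) (.cons (.rel (nat_lit 4330622976)) (.cons (.rel (nat_lit 4311778320)) .nil))) (.cons (.br (nat_lit 5) (.cons (.rel (nat_lit 8623490304)) (.cons (.br (nat_lit 2) (.cons (.rel (nat_lit 4362602496)) (.cons (.rel (nat_lit 8724415488)) .nil))) .nil))) .nil))) .leaf) (nat_lit 26424755288604129) (.br (nat_lit 3) (.cons (.br (nat_lit 5) (.cons (.rel (nat_lit 4563409152)) (.cons (.rel (nat_lit 4563404292)) .nil))) .nil)) .leaf) (nat_lit 26424755288604154)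 (.br (nat_lit 1) (.cons (.br (nat_lit 2) (.cons (.rel (nat_lit 152110080)) .nil)) .nil)) (.node .leaf (nat_lit 26424755290191903) (.br (nat_lit 1) (.cons (.br (nat_lit 3) (.cons (.rel (nat_lit 553746432)) .nil)) .nil)) .leaf)) (nat_lit 26425064362671585) (.br (nat_lit 2) (.cons (.br (nat_lit 4) (.cons (.rel (nat_lit 1207960584)) .nil)) .nil)) (.node (.node .leaf (nat_lit 26425064364216330) (.br (nat_lit 1) (.cons (.br (nat_lit 2) (.cons (.rel (nat_lit 83968260)) .nil)) .nil)) .leaf) (nat_lit 26425067466455826) (.br (nat_lit 0) (.cons (.br (nat_lit 5) (.cons (.rel (nat_lit 4299166725)) .nil)) .nil)) (.node .leaf (nat_lit 26431069212303370) (.br (nat_lit 2) (.cons (.br (nat_lit 3) (.cons (.rel (nat_lit 403767300)) .nil)) .nil)) .leaf))) (nat_lit 26431424018053151) (.br (nat_lit 5) (.cons (.br (nat_lit 2) (.cons (.rel (nat_lit 4429202688)) (.cons (.rel (nat_lit 8657047569)) .nil))) .nil)) (.node (.node (.node .leaf (nat_lit 26431424018054625) (.br (nat_lit 1) (.cons (.br (nat_lit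 2) (.cons (.rel (nat_lit 100671552)) .nil)) .nil)) .leaf) (nat_lit 26431424018608159) (.br (nat_lit 0) (.cons (.br (nat_lit 1) (.cons (.rel (nat_lit 22036992)) .nil)) .nil)) (.node .leaf (nat_lit 26431424019642399) (.br (nat_lit 3) (.cons (.br (nat_lit 5) (.cons (.rel (nat_lit 4832362497)) .nil)) .nil)) .leaf)) (nat_lit 26431424019643873) (.br (nat_lit 2) (.cons (.br (nat_lit 3) (.cons (.rel (nat_lit 335546370)) .nil)) .nil)) (.node (.node .leaf (nat_lit 26431426350129928) (.br (nat_lit 1) (.cons (.br (nat_lit 2) (.cons (.rel (nat_lit 84021252)) .nil)) .nil)) .leaf) (nat_lit 26436449237657082) (.br (nat_lit 1) (.cons (.br (nat_lit 2) (.cons (.rel (nat_lit 83886090)) .nil)) .nil)) (.node .leaf (nat_lit 26606904878318344) (.br (nat_lit 2) (.cons (.br (nat_lit 0) (.cons (.rel (nat_lit 142610436)) (.cons (.rel (nat_lit 71335956)) .nil))) .nil)) .leaf))))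

/-- refutations 123 -/
def e123 : EX := (.node (.node .leaf (nat_lit 26829160605350648) (.br (nat_lit 3) (.cons (.br (nat_lit 4) (.cons (.br (nat_lit 6) (.cons (.rel (nat_lit 18254168064)) .nil)) .nil)) .nil)) .leaf) (nat_lit 26829162702458890) (.br (nat_lit 2) (.cons (.br (nat_lit 3) (.cons (.rel (nat_lit 671089665)) .nil)) .nil)) .leaf)

/-- refutations 124 -/
def e124 : EX := (.node (.node (.node .leaf (nat_lit 26951235465630451) (.br (nat_lit 0) (.cons (.br (nat_lit 2) (.cons (.rel (nat_lit 139460640)) .nil)) .nil)) .leaf) (nat_lit 26952303318652410) (.br (nat_lit 0) (.cons (.br (nat_lit 6) (.cons (.rel (nat_lit 17184063510)) (.cons (.rel (nat_lit 17184096513)) (.cons (.rel (nat_lit 17184065544)) .nil)))) .nil)) .leaf) (nat_lit 26952306439214586) (.br (nat_lit 0) (.cons (.br (nat_lit 3) (.cons (.rel (nat_lit 545260608)) .nil)) .nil)) (.node (.node .leaf (nat_lit 26953437189723498) (.br (nat_lit 0) (.cons (.br (nat_lit 1) (.cons (.rel (nat_lit 22089984)) .nil)) .nil)) .leaf)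 (nat_lit 26953657808558090) (.br (nat_lit 1) (.cons (.br (nat_lit 2) (.cons (.rel (nat_lit 167773200)) .nil)) .nil)) .leaf))

/-- refutations 125 -/
def e125 : EX := (.node (.node (.node (.node .leaf (nat_lit 26953872557198073) (.br (nat_lit 2) (.cons (.br (nat_lit 3) (.cons (.rel (nat_lit 335546370)) .nil)) .nil)) .leaf) (nat_lit 26956812585522682) (.br (nat_lit 3) (.cons (.br (nat_lit 2) (.cons (.rel (nat_lit 335546370)) (.cons (.rel (nat_lit 335545380)) .nil))) .nil)) (.node .leaf (nat_lit 26957932472616970) (.br (nat_lit 0) (.cons (.br (nat_lit 5) (.cons (.rel (nat_lit 4303618176)) .nil)) .nil)) .leaf)) (nat_lit 26957932473078546) (.br (nat_lit 0) (.cons (.br (nat_lit 3) (.cons (.rel (nat_lit 276828177)) .nil)) .nil)) (.node (.node .leaf (nat_lit 26957932473079290) (.br (nat_lit 0) (.cons (.br (nat_lit 1) (.cons (.rel (nat_lit 21299217)) .nil)) .nil)) .leaf) (nat_lit 26957935593641466) (.br (nat_lit 3) (.cons (.br (nat_lit 5) (.cons (.br (nat_lit 1) (.cons (.br (nat_lit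 2) (.cons (.rel (nat_lit 335546370)) (.cons (.rel (nat_lit 167772165)) (.cons (.rel (nat_lit 335546370)) .nil)))) (.cons (.rel (nat_lit 553648161)) (.cons (.rel (nat_lit 4330622976)) .nil)))) (.cons (.rel (nat_lit 4563419394)) .nil))) .nil)) .leaf)) (nat_lit 26958831218668326) (.br (nat_lit 2) (.cons (.br (nat_lit 3) (.cons (.rel (nat_lit 335544345)) .nil)) .nil)) (.node (.node (.node .leaf (nat_lit 26959049156187642) (.br (nat_lit 0) (.cons (.br (nat_lit 1) (.cons (.rel (nat_lit 25169922)) .nil)) .nil)) .leaf) (nat_lit 26959051257533946) (.br (nat_lit 1) (.cons (.br (nat_lit 2) (.cons (.rel (nat_lit 167772165)) .nil)) .nil)) (.node .leaf (nat_lit 26964119691673610) (.br (nat_lit 0) (.cons (.br (nat_lit 4) (.cons (.rel (nat_lit 1077945348)) .nil)) .nil)) .leaf)) (nat_lit 26964345958159866) (.br (nat_lit 1) (.cons (.br (nat_lit 4) (.cons (.rel (nat_lit 2181038100)) (.cons (.rel (nat_lit 1090520070)) .nil))) (.cons (.br (nat_lit 3) (.cons (.rel (nat_lit 285278352)) (.cons (.rel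 (nat_lit 285229185)) .nil))) .nil))) (.node (.node .leaf (nat_lit 26964351247177210) (.br (nat_lit 3) (.cons (.br (nat_lit 1) (.cons (.rel (nat_lit 285507588)) (.cons (.rel (nat_lit 285229185)) .nil))) .nil)) .leaf) (nat_lit 26964352274781690) (.br (nat_lit 0) (.cons (.br (nat_lit 1) (.cons (.rel (nat_lit 21299217)) .nil)) .nil)) .leaf)))

/-- refutations 126 -/
def e126 : EX := (.node .leaf (nat_lit 26964638464726522) (.br (nat_lit 0) (.cons (.br (nat_lit 1) (.cons (.rel (nat_lit 20971656)) .nil)) .nil)) .leaf)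

/-- refutations 127 -/
def e127 : EX := (.node (.node (.node (.node (.node (.node (.node .leaf (nat_lit 27004091477545015) (.br (nat_lit 1) (.cons (.br (nat_lit 4) (.cons (.rel (nat_lit 1090519080)) .nil)) .nil)) .leaf) (nat_lit 27004097915893770) (.br (nat_lit 1) (.cons (.br (nat_lit 6) (.cons (.rel (nat_lit 17196647682)) .nil)) .nil)) .leaf) (nat_lit 27004097917419530) (.br (nat_lit 2) (.cons (.br (nat_lit 3) (.cons (.rel (nat_lit 335546370)) .nil)) .nil)) (.node (.node .leaf (nat_lit 27005509028007443) (.br (nat_lit 1) (.cons (.br (nat_lit 6) (.cons (.rel (nat_lit 17196736512)) .nil)) .nil)) .leaf) (nat_lit 27005512194705418) (.br (nat_lit 1) (.cons (.br (nat_lit 3) (.cons (.rel (nat_lit 302137344)) (.cons (.rel (nat_lit 285278352)) .nil))) .nil)) .leaf)) (nat_lit 27005515359910638) (.br (nat_lit 1) (.cons (.br (nat_lit 6) (.cons (.rel (nat_lit 17198220288)) .nil)) .nil)) (.node (.node (.node .leaf (nat_lit 27010534033440778) (.br (nat_lit 0) (.cons (.br (nat_lit 2) (.cons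 (.rel (nat_lit 71311368)) .nil)) .nil)) .leaf) (nat_lit 27010534036471818) (.br (nat_lit 0) (.cons (.br (nat_lit 1) (.cons (.rel (nat_lit 21239808)) .nil)) .nil)) .leaf) (nat_lit 27010540261971480) (.br (nat_lit 0) (.cons (.br (nat_lit 1) (.cons (.rel (nat_lit 20977284)) .nil)) .nil)) (.node (.node .leaf (nat_lit 27011564720641505) (.br (nat_lit 1) (.cons (.br (nat_lit 3) (.cons (.rel (nat_lit 553649160)) (.cons (.rel (nat_lit 301991940)) .nil))) .nil)) .leaf) (nat_lit 27011564722155530) (.br (nat_lit 1) (.cons (.br (nat_lit 5) (.cons (.rel (nat_lit 4311761184)) (.cons (.rel (nat_lit 4311747072)) .nil))) (.cons (.br (nat_lit 5) (.cons (.rel (nat_lit 4311748872)) (.cons (.rel (nat_lit 4311826452)) .nil))) .nil))) .leaf))) (nat_lit 27011564723702510) (.br (nat_lit 1) (.cons (.br (nat_lit 5) (.cons (.rel (nat_lit 4311826452)) (.cons (.rel (nat_lit 4311753732)) .nil))) (.cons (.br (nat_lit 5) (.cons (.rel (nat_lit 4311826452)) (.cons (.rel (nat_lit 4311747072)) .nil))) .nil))) (.node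 (.node (.node (.node .leaf (nat_lit 27011564723765998) (.br (nat_lit 2) (.cons (.br (nat_lit 6) (.cons (.rel (nat_lit 17246979168)) .nil)) .nil)) .leaf) (nat_lit 27011567887341025) (.br (nat_lit 1) (.cons (.br (nat_lit 3) (.cons (.rel (nat_lit 286265352)) (.cons (.rel (nat_lit 285495312)) .nil))) .nil)) .leaf) (nat_lit 27011567888855050) (.br (nat_lit 1) (.cons (.br (nat_lit 5) (.cons (.rel (nat_lit 4311748872)) (.cons (.rel (nat_lit 4311753732)) (.cons (.rel (nat_lit 4312006728)) .nil)))) .nil)) (.node (.node .leaf (nat_lit 27011567890402030) (.br (nat_lit 1) (.cons (.br (nat_lit 3) (.cons (.rel (nat_lit 285507588)) (.cons (.rel (nat_lit 553656576)) .nil))) .nil)) .leaf) (nat_lit 27011571054040545) (.br (nat_lit 1) (.cons (.br (nat_lit 4) (.cons (.br (nat_lit 5) (.cons (.rel (nat_lit 6442459137)) (.cons (.rel (nat_lit 5368710468)) (.cons (.rel (nat_lit 4311777285)) (.cons (.rel (nat_lit 4311747072)) (.cons (.rel (nat_lit 4312006728)) (.cons (.rel (nat_lit 6442455312)) .nil)))))))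 (.cons (.rel (nat_lit 1090555908)) (.cons (.br (nat_lit 5) (.cons (.rel (nat_lit 5368715328)) (.cons (.rel (nat_lit 6442467588)) (.cons (.rel (nat_lit 4311777285)) (.cons (.rel (nat_lit 4311747072)) (.cons (.rel (nat_lit 4312006728)) (.cons (.rel (nat_lit 5368710468)) .nil))))))) .nil)))) (.cons (.br (nat_lit 4) (.cons (.rel (nat_lit 1090555908)) (.cons (.rel (nat_lit 1090650372)) (.cons (.rel (nat_lit 1090519080)) .nil)))) (.cons (.br (nat_lit 4) (.cons (.rel (nat_lit 1090519080)) (.cons (.rel (nat_lit 1090521105)) (.cons (.rel (nat_lit 1090543632)) .nil)))) .nil)))) .leaf)) (nat_lit 27011571055554570) (.br (nat_lit 1) (.cons (.br (nat_lit 5) (.cons (.rel (nat_lit 4329046032)) (.cons (.br (nat_lit 2) (.cons (.rel (nat_lit 4362081348)) (.cons (.rel (nat_lit 8724415488)) (.cons (.rel (nat_lit 83984409)) .nil)))) .nil))) .nil)) (.node (.node (.node .leaf (nat_lit 27011571055577098) (.br (nat_lit 3) (.cons (.br (nat_lit 2) (.cons (.rel (nat_lit 335546370)) (.cons (.rel (nat_lit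 403177536)) .nil))) .nil)) .leaf) (nat_lit 27011571057101550) (.br (nat_lit 1) (.cons (.br (nat_lit 3) (.cons (.rel (nat_lit 553746432)) (.cons (.rel (nat_lit 285540609)) (.cons (.rel (nat_lit 285229185)) .nil)))) (.cons (.br (nat_lit 5) (.cons (.rel (nat_lit 4311826452)) (.cons (.rel (nat_lit 8623490304)) (.cons (.br (nat_lit 4) (.cons (.rel (nat_lit 10738487304)) (.cons (.rel (nat_lit 5368715328)) (.cons (.rel (nat_lit 1090555908)) .nil)))) (.cons (.rel (nat_lit 4311748872)) .nil))))) (.cons (.br (nat_lit 3) (.cons (.rel (nat_lit 285495312)) (.cons (.rel (nat_lit 553649160)) (.cons (.rel (nat_lit 285278352)) .nil)))) .nil)))) .leaf) (nat_lit 27011610838528010) (.br (nat_lit 4) (.cons (.br (nat_lit 5) (.cons (.rel (nat_lit 9663676689)) (.cons (.rel (nat_lit 5368710468)) .nil))) (.cons (.br (nat_lit 5) (.cons (.rel (nat_lit 9663680514)) (.cons (.rel (nat_lit 6442459137)) .nil))) .nil))) (.node (.node .leaf (nat_lit 27011745110781962) (.br (nat_lit 1) (.cons (.br (nat_lit 3)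 (.cons (.rel (nat_lit 301991940)) (.cons (.rel (nat_lit 286265352)) .nil))) (.cons (.br (nat_lit 3) (.cons (.rel (nat_lit 285495312)) (.cons (.rel (nat_lit 285495312)) .nil))) .nil))) .leaf) (nat_lit 27011745112328942) (.br (nat_lit 3) (.cons (.br (nat_lit 4) (.cons (.rel (nat_lit 1342312452)) .nil)) .nil)) .leaf)))) (nat_lit 27011751532261386) (.br (nat_lit 4) (.cons (.br (nat_lit 3) (.cons (.rel (nat_lit 2684355600)) (.cons (.rel (nat_lit 1342194192)) (.cons (.rel (nat_lit 2684355600)) (.cons (.rel (nat_lit 2684354565)) .nil))))) (.cons (.br (nat_lit 0) (.cons (.rel (nat_lit 1079574528)) (.cons (.rel (nat_lit 1077938688)) (.cons (.rel (nat_lit 2155873536)) .nil)))) .nil))) (.node (.node (.node (.node (.node .leaf (nat_lit 27011751533904684) (.br (nat_lit 0) (.cons (.br (nat_lit 2) (.cons (.rel (nat_lit 71304708)) .nil)) .nil)) .leaf) (nat_lit 27011968447566636) (.br (nat_lit 1) (.cons (.br (nat_lit 4) (.cons (.rel (nat_lit 2181038100)) .nil)) .nil)) .leaf) (nat_lit 27011968449081354)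 (.br (nat_lit 5) (.cons (.br (nat_lit 1) (.cons (.rel (nat_lit 4311777285)) (.cons (.rel (nat_lit 4330622976)) (.cons (.br (nat_lit 4) (.cons (.rel (nat_lit 6442520580)) (.cons (.rel (nat_lit 1090543632)) (.cons (.rel (nat_lit 5368725570)) (.cons (.rel (nat_lit 2165374980)) (.cons (.rel (nat_lit 2181038100)) .nil)))))) .nil)))) (.cons (.br (nat_lit 1) (.cons (.rel (nat_lit 4311777285)) (.cons (.rel (nat_lit 4311765009)) (.cons (.rel (nat_lit 4312006728)) .nil)))) .nil))) (.node (.node .leaf (nat_lit 27011968450691082) (.br (nat_lit 0) (.cons (.br (nat_lit 4) (.cons (.rel (nat_lit 1079574528)) .nil)) .nil)) .leaf) (nat_lit 27011968450721279) (.br (nat_lit 0) (.cons (.br (nat_lit 2) (.cons (.rel (nat_lit 142610436)) .nil)) .nil)) .leaf)) (nat_lit 27012037167044065) (.br (nat_lit 0) (.cons (.br (nat_lit 3) (.cons (.rel (nat_lit 545260608)) .nil)) .nil)) (.node (.node (.node .leaf (nat_lit 27012039915849738) (.br (nat_lit 0) (.cons (.br (nat_lit 2) (.cons (.rel (nat_lit 72892416))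 .nil)) .nil)) .leaf) (nat_lit 27012040544972810) (.br (nat_lit 0) (.cons (.br (nat_lit 3) (.cons (.rel (nat_lit 272631936)) .nil)) .nil)) .leaf) (nat_lit 27014828895785715) (.br (nat_lit 1) (.cons (.br (nat_lit 3) (.cons (.rel (nat_lit 286263552)) .nil)) .nil)) (.node (.node .leaf (nat_lit 27014828895785746) (.br (nat_lit 1) (.cons (.br (nat_lit 2) (.cons (.rel (nat_lit 83886090)) .nil)) .nil)) .leaf) (nat_lit 27014828895785772) (.br (nat_lit 3) (.cons (.br (nat_lit 4) (.cons (.rel (nat_lit 2684354565)) .nil)) .nil)) .leaf))) (nat_lit 27014828895786265) (.br (nat_lit 1) (.cons (.br (nat_lit 3) (.cons (.rel (nat_lit 301994496)) .nil)) .nil)) (.node (.node (.node (.node .leaf (nat_lit 27014828895786465) (.br (nat_lit 1) (.cons (.br (nat_lit 3) (.cons (.rel (nat_lit 285229185)) (.cons (.rel (nat_lit 285278352)) (.cons (.rel (nat_lit 301994496)) .nil)))) (.cons (.br (nat_lit 3) (.cons (.rel (nat_lit 286265352)) (.cons (.br (nat_lit 2) (.cons (.rel (nat_lit 335544345)) (.cons (.rel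 (nat_lit 83886090)) (.cons (.rel (nat_lit 335545380)) (.cons (.rel (nat_lit 335568897)) (.cons (.rel (nat_lit 83886090)) .nil)))))) (.cons (.rel (nat_lit 553649160)) .nil)))) .nil))) .leaf) (nat_lit 27014828895815690) (.br (nat_lit 1) (.cons (.br (nat_lit 3) (.cons (.rel (nat_lit 285507588)) (.cons (.br (nat_lit 2) (.cons (.rel (nat_lit 83886090)) (.cons (.rel (nat_lit 335577348)) (.cons (.rel (nat_lit 335546370)) .nil)))) (.cons (.rel (nat_lit 553649160)) .nil)))) (.cons (.br (nat_lit 2) (.cons (.rel (nat_lit 83888160)) (.cons (.rel (nat_lit 83888160)) (.cons (.rel (nat_lit 83886090)) .nil)))) .nil))) .leaf) (nat_lit 27014828895817215) (.br (nat_lit 1) (.cons (.br (nat_lit 3) (.cons (.rel (nat_lit 285507588)) .nil)) .nil)) (.node (.node .leaf (nat_lit 27014828895827978) (.br (nat_lit 5) (.cons (.br (nat_lit 1) (.cons (.rel (nat_lit 4311777285)) (.cons (.rel (nat_lit 4311826452)) .nil))) .nil)) .leaf) (nat_lit 27014828895829525) (.br (nat_lit 0) (.cons (.br (nat_lit 1) (.cons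 (.rel (nat_lit 41943108)) .nil)) .nil)) .leaf)) (nat_lit 27014828895866890) (.br (nat_lit 2) (.cons (.br (nat_lit 3) (.cons (.rel (nat_lit 335565072)) (.cons (.rel (nat_lit 671089665)) .nil))) .nil)) (.node (.node (.node .leaf (nat_lit 27014828895877875) (.br (nat_lit 0) (.cons (.br (nat_lit 1) (.cons (.rel (nat_lit 41943108)) .nil)) .nil)) .leaf) (nat_lit 27014828896034826) (.br (nat_lit 5) (.cons (.br (nat_lit 1) (.cons (.rel (nat_lit 4311777285)) (.cons (.rel (nat_lit 4311826452)) .nil))) .nil)) .leaf) (nat_lit 27014828896035566) (.br (nat_lit 1) (.cons (.br (nat_lit 5) (.cons (.rel (nat_lit 4311747072)) .nil)) .nil)) (.node (.node .leaf (nat_lit 27014828897046538) (.br (nat_lit 1) (.cons (.br (nat_lit 4) (.cons (.rel (nat_lit 1090519080)) (.cons (.rel (nat_lit 1090521105)) (.cons (.rel (nat_lit 1090519080)) .nil)))) .nil)) .leaf) (nat_lit 27014828897095690) (.br (nat_lit 5) (.cons (.br (nat_lit 2) (.cons (.rel (nat_lit 4362076488)) (.cons (.rel (nat_lit 4362076488)) (.cons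 (.rel (nat_lit 4362081348)) .nil)))) .nil)) .leaf))))) (nat_lit 27014828897110026) (.br (nat_lit 1) (.cons (.br (nat_lit 5) (.cons (.rel (nat_lit 4329046032)) .nil)) .nil)) (.node (.node (.node (.node (.node (.node .leaf (nat_lit 27014828897118218) (.br (nat_lit 4) (.cons (.br (nat_lit 1) (.cons (.rel (nat_lit 2164527360)) (.cons (.rel (nat_lit 1090543632)) (.cons (.rel (nat_lit 1090521105)) (.cons (.rel (nat_lit 1090519080)) .nil))))) .nil)) .leaf) (nat_lit 27014828897300490) (.br (nat_lit 5) (.cons (.br (nat_lit 1) (.cons (.rel (nat_lit 4311777285)) (.cons (.rel (nat_lit 4311777285)) (.cons (.rel (nat_lit 4311777285)) (.cons (.rel (nat_lit 4329046032)) .nil))))) (.cons (.br (nat_lit 1) (.cons (.rel (nat_lit 4311777285)) (.cons (.rel (nat_lit 4311761184)) (.cons (.rel (nat_lit 4311810306)) (.cons (.rel (nat_lit 4311761184)) .nil))))) (.cons (.br (nat_lit 1) (.cons (.rel (nat_lit 4311747072)) (.cons (.rel (nat_lit 4311747072)) (.cons (.rel (nat_lit 4311761184)) (.cons (.rel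 (nat_lit 4311747072)) .nil))))) .nil)))) .leaf) (nat_lit 27014828897302006) (.br (nat_lit 0) (.cons (.br (nat_lit 3) (.cons (.rel (nat_lit 272892168)) .nil)) .nil)) (.node (.node .leaf (nat_lit 27014828897311470) (.br (nat_lit 0) (.cons (.br (nat_lit 5) (.cons (.rel (nat_lit 4299166725)) .nil)) .nil)) .leaf) (nat_lit 27014828898345147) (.br (nat_lit 1) (.cons (.br (nat_lit 4) (.cons (.rel (nat_lit 1090519080)) .nil)) .nil)) .leaf)) (nat_lit 27014828898398218) (.br (nat_lit 3) (.cons (.br (nat_lit 5) (.cons (.br (nat_lit 2) (.cons (.rel (nat_lit 335546370)) (.cons (.rel (nat_lit 4362076488)) (.cons (.rel (nat_lit 4630790148)) .nil)))) (.cons (.rel (nat_lit 4563410952)) .nil))) .nil)) (.node (.node (.node .leaf (nat_lit 27014828898437770) (.br (nat_lit 4) (.cons (.br (nat_lit 5) (.cons (.rel (nat_lit 6442713168)) .nil)) .nil)) .leaf) (nat_lit 27014828898685115) (.br (nat_lit 0) (.cons (.br (nat_lit 4) (.cons (.rel (nat_lit 1077940488)) .nil)) .nil)) .leaf) (nat_lit 27014828898685678)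 (.br (nat_lit 0) (.cons (.br (nat_lit 5) (.cons (.rel (nat_lit 4299325440)) .nil)) .nil)) (.node (.node .leaf (nat_lit 27014828898847470) (.br (nat_lit 3) (.cons (.br (nat_lit 5) (.cons (.rel (nat_lit 4563423264)) (.cons (.rel (nat_lit 4563468561)) (.cons (.rel (nat_lit 4563423264)) (.cons (.rel (nat_lit 4563419394)) .nil))))) (.cons (.br (nat_lit 5) (.cons (.rel (nat_lit 8858632194)) (.cons (.rel (nat_lit 4563409152)) (.cons (.rel (nat_lit 4564992000)) (.cons (.rel (nat_lit 4563410952)) .nil))))) (.cons (.br (nat_lit 5) (.cons (.rel (nat_lit 4563410952)) (.cons (.rel (nat_lit 9126809604)) (.cons (.rel (nat_lit 4563533829)) (.cons (.rel (nat_lit 4563404292)) .nil))))) (.cons (.br (nat_lit 5) (.cons (.rel (nat_lit 4563423264)) (.cons (.rel (nat_lit 4563435540)) (.cons (.rel (nat_lit 4563409152)) (.cons (.rel (nat_lit 4563404292)) .nil))))) .nil))))) .leaf) (nat_lit 27014828898848280) (.br (nat_lit 1) (.cons (.br (nat_lit 3) (.cons (.rel (nat_lit 285229185)) .nil)) .nil)) .leaf)))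 (nat_lit 27014828898908170) (.br (nat_lit 1) (.cons (.br (nat_lit 5) (.cons (.rel (nat_lit 4311747072)) .nil)) .nil)) (.node (.node (.node (.node .leaf (nat_lit 27014828898909710) (.br (nat_lit 5) (.cons (.br (nat_lit 1) (.cons (.rel (nat_lit 8623490304)) (.cons (.rel (nat_lit 4311765009)) .nil))) .nil)) .leaf) (nat_lit 27014828898910218) (.br (nat_lit 4) (.cons (.br (nat_lit 2) (.cons (.rel (nat_lit 1140871248)) (.cons (.rel (nat_lit 2214597120)) (.cons (.rel (nat_lit 1208057856)) (.cons (.rel (nat_lit 2214594564)) .nil))))) (.cons (.br (nat_lit 5) (.cons (.rel (nat_lit 9663741957)) (.cons (.rel (nat_lit 5368725570)) (.cons (.rel (nat_lit 5370040320)) .nil)))) (.cons (.br (nat_lit 2) (.cons (.rel (nat_lit 1141391361)) (.cons (.rel (nat_lit 1141391361)) (.cons (.rel (nat_lit 1208057856)) (.cons (.rel (nat_lit 1140916545)) .nil))))) .nil)))) .leaf) (nat_lit 27014828898910958) (.br (nat_lit 3) (.cons (.br (nat_lit 4) (.cons (.rel (nat_lit 2416189440)) .nil)) .nil)) (.node (.node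 .leaf (nat_lit 27014828898911020) (.br (nat_lit 3) (.cons (.br (nat_lit 4) (.cons (.rel (nat_lit 2684354565)) (.cons (.rel (nat_lit 1342179360)) .nil))) .nil)) .leaf) (nat_lit 27014828898938890) (.br (nat_lit 3) (.cons (.br (nat_lit 4) (.cons (.rel (nat_lit 1342177290)) .nil)) .nil)) .leaf)) (nat_lit 27014828898940415) (.br (nat_lit 0) (.cons (.br (nat_lit 1) (.cons (.rel (nat_lit 21234948)) .nil)) .nil)) (.node (.node (.node .leaf (nat_lit 27014828898943788) (.br (nat_lit 5) (.cons (.br (nat_lit 3) (.cons (.rel (nat_lit 4563410952)) (.cons (.rel (nat_lit 4563435540)) .nil))) .nil)) .leaf) (nat_lit 27014828898960785) (.br (nat_lit 2) (.cons (.br (nat_lit 3) (.cons (.rel (nat_lit 335546370)) .nil)) .nil)) .leaf) (nat_lit 27014828898960865) (.br (nat_lit 3) (.cons (.br (nat_lit 1) (.cons (.rel (nat_lit 285507588)) (.cons (.rel (nat_lit 553649160)) .nil))) .nil)) (.node (.node .leaf (nat_lit 27014831517255735) (.br (nat_lit 2) (.cons (.br (nat_lit 3) (.cons (.rel (nat_lit 335546370))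 .nil)) .nil)) .leaf) (nat_lit 27014832062485985) (.br (nat_lit 1) (.cons (.br (nat_lit 3) (.cons (.rel (nat_lit 553656576)) (.cons (.rel (nat_lit 286265352)) .nil))) .nil)) .leaf)))) (nat_lit 27014832062528238) (.br (nat_lit 1) (.cons (.br (nat_lit 4) (.cons (.rel (nat_lit 1090543632)) .nil)) .nil)) (.node (.node (.node (.node (.node .leaf (nat_lit 27014832062734346) (.br (nat_lit 1) (.cons (.br (nat_lit 3) (.cons (.rel (nat_lit 302137344)) .nil)) .nil)) .leaf) (nat_lit 27014832063817738) (.br (nat_lit 0) (.cons (.br (nat_lit 3) (.cons (.rel (nat_lit 545260608)) .nil)) .nil)) .leaf) (nat_lit 27014832064000010) (.br (nat_lit 5) (.cons (.br (nat_lit 1) (.cons (.rel (nat_lit 4311785748)) (.cons (.rel (nat_lit 4313382912)) (.cons (.rel (nat_lit 4311810306)) .nil)))) .nil)) (.node (.node .leaf (nat_lit 27014832064000786) (.br (nat_lit 4) (.cons (.br (nat_lit 5) (.cons (.rel (nat_lit 5369233416)) .nil)) .nil)) .leaf) (nat_lit 27014832064001510) (.br (nat_lit 0) (.cons (.br (nat_lit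 1) (.cons (.rel (nat_lit 25166097)) .nil)) .nil)) .leaf)) (nat_lit 27014832065546990) (.br (nat_lit 5) (.cons (.br (nat_lit 3) (.cons (.rel (nat_lit 4563472386)) (.cons (.rel (nat_lit 4563435540)) .nil))) .nil)) (.node (.node (.node .leaf (nat_lit 27014832065609738) (.br (nat_lit 5) (.cons (.br (nat_lit 6) (.cons (.rel (nat_lit 21474869328)) .nil)) .nil)) .leaf) (nat_lit 27014835229184025) (.br (nat_lit 0) (.cons (.br (nat_lit 1) (.cons (.rel (nat_lit 20971656)) .nil)) .nil)) .leaf) (nat_lit 27014835229185505) (.br (nat_lit 1) (.cons (.br (nat_lit 3) (.cons (.br (nat_lit 2) (.cons (.br (nat_lit 0) (.cons (.rel (nat_lit 71335956)) (.cons (.rel (nat_lit 41943108)) (.cons (.rel (nat_lit 71309568)) (.cons (.rel (nat_lit 37765380)) (.cons (.rel (nat_lit 71304708)) (.cons (.rel (nat_lit 41943108)) (.cons (.rel (nat_lit 71304708)) .nil)))))))) (.cons (.rel (nat_lit 83968260)) (.cons (.br (nat_lit 4) (.cons (.rel (nat_lit 1509949440)) (.cons (.rel (nat_lit 2684354565)) (.cons (.rel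 (nat_lit 1140883524)) (.cons (.rel (nat_lit 2164785216)) (.cons (.rel (nat_lit 1090555908)) (.cons (.rel (nat_lit 1610613312)) (.cons (.rel (nat_lit 1090519080)) (.cons (.rel (nat_lit 1207968000)) .nil))))))))) (.cons (.rel (nat_lit 403177536)) (.cons (.rel (nat_lit 150999168)) .nil)))))) (.cons (.rel (nat_lit 301991940)) (.cons (.br (nat_lit 2) (.cons (.rel (nat_lit 335546370)) (.cons (.rel (nat_lit 83968260)) (.cons (.rel (nat_lit 335546370)) (.cons (.rel (nat_lit 335610369)) (.cons (.rel (nat_lit 150999168)) .nil)))))) (.cons (.rel (nat_lit 553649160)) .nil))))) .nil)) (.node (.node .leaf (nat_lit 27014835229227018) (.br (nat_lit 3) (.cons (.br (nat_lit 5) (.cons (.rel (nat_lit 4563410952)) .nil)) .nil)) .leaf) (nat_lit 27014835229227758) (.br (nat_lit 1) (.cons (.br (nat_lit 5) (.cons (.rel (nat_lit 4311747072)) .nil)) .nil)) .leaf))) (nat_lit 27014835229292053) (.br (nat_lit 3) (.cons (.br (nat_lit 4) (.cons (.rel (nat_lit 1342177290)) .nil)) .nil)) (.node (.node (.node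 (.node .leaf (nat_lit 27014835229789585) (.br (nat_lit 1) (.cons (.br (nat_lit 5) (.cons (.rel (nat_lit 4311747072)) .nil)) .nil)) .leaf) (nat_lit 27014835230699530) (.br (nat_lit 5) (.cons (.br (nat_lit 1) (.cons (.rel (nat_lit 4311761184)) (.cons (.rel (nat_lit 8623490304)) (.cons (.rel (nat_lit 8623490304)) (.cons (.rel (nat_lit 4311777285)) .nil))))) (.cons (.br (nat_lit 2) (.cons (.rel (nat_lit 4362076488)) (.cons (.rel (nat_lit 4362602496)) (.cons (.rel (nat_lit 4362076488)) (.cons (.rel (nat_lit 8657043744)) (.cons (.rel (nat_lit 4429250820)) .nil)))))) .nil))) .leaf) (nat_lit 27014835230710510) (.br (nat_lit 1) (.cons (.br (nat_lit 5) (.cons (.rel (nat_lit 4311761184)) .nil)) .nil)) (.node (.node .leaf (nat_lit 27014835230711317) (.br (nat_lit 0) (.cons (.br (nat_lit 3) (.cons (.rel (nat_lit 276840453)) .nil)) .nil)) .leaf) (nat_lit 27014835230822455) (.br (nat_lit 0) (.cons (.br (nat_lit 1) (.cons (.rel (nat_lit 21234948)) .nil)) .nil)) .leaf)) (nat_lit 27014835230823806)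 (.br (nat_lit 0) (.cons (.br (nat_lit 1) (.cons (.rel (nat_lit 20971656)) .nil)) .nil)) (.node (.node (.node .leaf (nat_lit 27014835232246510) (.br (nat_lit 3) (.cons (.br (nat_lit 1) (.cons (.rel (nat_lit 286265352)) (.cons (.rel (nat_lit 553914432)) (.cons (.rel (nat_lit 285495312)) .nil)))) (.cons (.br (nat_lit 5) (.cons (.rel (nat_lit 4563410952)) (.cons (.rel (nat_lit 9126809604)) .nil))) .nil))) .leaf) (nat_lit 27014835232309258) (.br (nat_lit 2) (.cons (.br (nat_lit 5) (.cons (.rel (nat_lit 4363452672)) (.cons (.rel (nat_lit 4429185552)) .nil))) .nil)) .leaf) (nat_lit 27014835232310060) (.br (nat_lit 0) (.cons (.br (nat_lit 4) (.cons (.rel (nat_lit 2152726530)) .nil)) .nil)) (.node (.node .leaf (nat_lit 27014835317308918) (.br (nat_lit 1) (.cons (.br (nat_lit 3) (.cons (.rel (nat_lit 285507588)) .nil)) .nil)) .leaf) (nat_lit 27014835318779914) (.br (nat_lit 5) (.cons (.br (nat_lit 3) (.cons (.rel (nat_lit 4563410952)) (.cons (.rel (nat_lit 9126805782)) .nil))) .nil))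 .leaf))))))

/-- refutations 128 -/
def e128 : EX := (.node (.node (.node (.node (.node (.node (.node .leaf (nat_lit 27015043749038090) (.br (nat_lit 1) (.cons (.br (nat_lit 5) (.cons (.br (nat_lit 2) (.cons (.rel (nat_lit 4379119617)) (.cons (.rel (nat_lit 151257600)) .nil))) .nil)) .nil)) .leaf) (nat_lit 27015043749050378) (.br (nat_lit 5) (.cons (.br (nat_lit 4) (.cons (.rel (nat_lit 5368717896)) (.cons (.rel (nat_lit 6442459137)) (.cons (.rel (nat_lit 6442459137)) (.cons (.rel (nat_lit 9663680514)) .nil))))) (.cons (.br (nat_lit 6) (.cons (.rel (nat_lit 25769824272)) (.cons (.rel (nat_lit 25769869569)) (.cons (.rel (nat_lit 21474838080)) .nil)))) .nil))) .leaf) (nat_lit 27015043749051293) (.br (nat_lit 4) (.cons (.br (nat_lit 5) (.cons (.rel (nat_lit 5368710468)) .nil)) .nil)) (.node .leaf (nat_lit 27015043749089290) (.br (nat_lit 2) (.cons (.br (nat_lit 5) (.cons (.rel (nat_lit 4429189377)) (.cons (.rel (nat_lit 4362081348)) .nil))) .nil)) .leaf)) (nat_lit 27015043749090030)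 (.br (nat_lit 1) (.cons (.br (nat_lit 2) (.cons (.rel (nat_lit 83888160)) .nil)) .nil)) (.node (.node .leaf (nat_lit 27015043749101578) (.br (nat_lit 1) (.cons (.br (nat_lit 2) (.cons (.br (nat_lit 3) (.cons (.rel (nat_lit 335546370)) (.cons (.rel (nat_lit 335545380)) (.cons (.rel (nat_lit 553656576)) .nil)))) (.cons (.br (nat_lit 3) (.cons (.rel (nat_lit 403177536)) (.cons (.rel (nat_lit 335822928)) (.cons (.rel (nat_lit 553656576)) .nil)))) (.cons (.rel (nat_lit 101187840)) .nil)))) (.cons (.br (nat_lit 2) (.cons (.rel (nat_lit 83888160)) (.cons (.rel (nat_lit 83920128)) (.cons (.rel (nat_lit 83902992)) .nil)))) (.cons (.br (nat_lit 2) (.cons (.rel (nat_lit 83888160)) (.cons (.rel (nat_lit 167772165)) (.cons (.rel (nat_lit 167772165)) .nil)))) .nil)))) .leaf) (nat_lit 27015043749102318) (.br (nat_lit 1) (.cons (.br (nat_lit 3) (.cons (.rel (nat_lit 553649160)) .nil)) .nil)) (.node .leaf (nat_lit 27015043749103069) (.br (nat_lit 1) (.cons (.br (nat_lit 3) (.cons (.rel (nat_lit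 285229185)) .nil)) .nil)) .leaf))) (nat_lit 27015043749519366) (.br (nat_lit 1) (.cons (.br (nat_lit 2) (.cons (.rel (nat_lit 83888160)) .nil)) .nil)) (.node (.node (.node (.node .leaf (nat_lit 27015043749519370) (.br (nat_lit 5) (.cons (.br (nat_lit 0) (.cons (.rel (nat_lit 4299166725)) (.cons (.rel (nat_lit 8594653248)) .nil))) .nil)) .leaf) (nat_lit 27015043749520285) (.br (nat_lit 5) (.cons (.br (nat_lit 6) (.cons (.rel (nat_lit 21474838080)) .nil)) .nil)) .leaf) (nat_lit 27015043749615073) (.br (nat_lit 4) (.cons (.br (nat_lit 5) (.cons (.rel (nat_lit 5368774737)) .nil)) .nil)) (.node .leaf (nat_lit 27015043750341358) (.br (nat_lit 5) (.cons (.br (nat_lit 0) (.cons (.rel (nat_lit 4299325440)) (.cons (.rel (nat_lit 4299325440)) .nil))) .nil)) .leaf)) (nat_lit 27015043750533870) (.br (nat_lit 3) (.cons (.br (nat_lit 5) (.cons (.rel (nat_lit 4563423264)) .nil)) .nil)) (.node (.node .leaf (nat_lit 27015043750546333) (.br (nat_lit 1) (.cons (.br (nat_lit 5) (.cons (.rel (nat_lit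 4311778320)) .nil)) .nil)) .leaf) (nat_lit 27015043750625290) (.br (nat_lit 1) (.cons (.br (nat_lit 5) (.cons (.rel (nat_lit 4311747072)) (.cons (.rel (nat_lit 8623490304)) (.cons (.rel (nat_lit 4311778320)) (.cons (.rel (nat_lit 4311765009)) .nil))))) (.cons (.br (nat_lit 5) (.cons (.rel (nat_lit 4311753732)) (.cons (.rel (nat_lit 4311748872)) (.cons (.rel (nat_lit 4311761184)) (.cons (.rel (nat_lit 4311747072)) .nil))))) (.cons (.br (nat_lit 5) (.cons (.rel (nat_lit 4329046032)) (.cons (.rel (nat_lit 4311747072)) (.cons (.rel (nat_lit 8623490304)) (.cons (.rel (nat_lit 4311747072)) .nil))))) .nil)))) (.node .leaf (nat_lit 27015043750625311) (.br (nat_lit 0) (.cons (.br (nat_lit 1) (.cons (.rel (nat_lit 20971656)) .nil)) .nil)) .leaf)))) (nat_lit 27015043750626041) (.br (nat_lit 1) (.cons (.br (nat_lit 6) (.cons (.rel (nat_lit 17196777984)) .nil)) .nil)) (.node (.node (.node (.node (.node .leaf (nat_lit 27015043751568785) (.br (nat_lit 1) (.cons (.br (nat_lit 2) (.cons (.rel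 (nat_lit 167772165)) (.cons (.rel (nat_lit 101187840)) .nil))) .nil)) .leaf) (nat_lit 27015043751620618) (.br (nat_lit 1) (.cons (.br (nat_lit 5) (.cons (.rel (nat_lit 4311761184)) .nil)) .nil)) .leaf) (nat_lit 27015043751671818) (.br (nat_lit 6) (.cons (.br (nat_lit 1) (.cons (.rel (nat_lit 17196650517)) (.cons (.rel (nat_lit 17196646692)) .nil))) .nil)) (.node .leaf (nat_lit 27015043751673058) (.br (nat_lit 1) (.cons (.br (nat_lit 3) (.cons (.rel (nat_lit 286263552)) .nil)) .nil)) .leaf)) (nat_lit 27015043751877363) (.br (nat_lit 1) (.cons (.br (nat_lit 5) (.cons (.rel (nat_lit 4311810306)) .nil)) .nil)) (.node (.node .leaf (nat_lit 27015043751907338) (.br (nat_lit 2) (.cons (.br (nat_lit 6) (.cons (.rel (nat_lit 34426851588)) (.cons (.rel (nat_lit 17314103298)) (.cons (.rel (nat_lit 17246978133)) .nil)))) (.cons (.br (nat_lit 6) (.cons (.rel (nat_lit 34427109444)) (.cons (.rel (nat_lit 17247011136)) (.cons (.rel (nat_lit 17247011136)) .nil)))) (.cons (.br (nat_lit 6) (.cons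 (.rel (nat_lit 34494283776)) (.cons (.rel (nat_lit 17247011136)) (.cons (.rel (nat_lit 17246978133)) .nil)))) .nil)))) .leaf) (nat_lit 27015043752132614) (.br (nat_lit 0) (.cons (.br (nat_lit 1) (.cons (.rel (nat_lit 20971656)) .nil)) .nil)) (.node .leaf (nat_lit 27015043752132618) (.br (nat_lit 5) (.cons (.br (nat_lit 0) (.cons (.rel (nat_lit 4299182592)) (.cons (.rel (nat_lit 4299162900)) .nil))) .nil)) .leaf))) (nat_lit 27015043752133545) (.br (nat_lit 0) (.cons (.br (nat_lit 1) (.cons (.rel (nat_lit 25166097)) .nil)) .nil)) (.node (.node (.node .leaf (nat_lit 27015043752133858) (.br (nat_lit 3) (.cons (.br (nat_lit 4) (.cons (.rel (nat_lit 1342178325)) (.cons (.rel (nat_lit 1342211328)) .nil))) .nil)) .leaf) (nat_lit 27015043752163338) (.br (nat_lit 1) (.cons (.br (nat_lit 2) (.cons (.rel (nat_lit 83886090)) (.cons (.rel (nat_lit 83888160)) .nil))) (.cons (.br (nat_lit 2) (.cons (.rel (nat_lit 83886090)) (.cons (.rel (nat_lit 83888160)) .nil))) .nil))) (.node .leaf (nat_lit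 27015043752164833) (.br (nat_lit 1) (.cons (.br (nat_lit 5) (.cons (.rel (nat_lit 4311747072)) (.cons (.br (nat_lit 2) (.cons (.rel (nat_lit 4362081348)) (.cons (.rel (nat_lit 4362602496)) (.cons (.rel (nat_lit 8740945920)) .nil)))) .nil))) .nil)) .leaf)) (nat_lit 27015043752181770) (.br (nat_lit 2) (.cons (.br (nat_lit 0) (.cons (.br (nat_lit 1) (.cons (.rel (nat_lit 83888160)) (.cons (.rel (nat_lit 21234948)) .nil))) (.cons (.rel (nat_lit 75497538)) .nil))) .nil)) (.node (.node .leaf (nat_lit 27015046415516898) (.br (nat_lit 5) (.cons (.br (nat_lit 1) (.cons (.rel (nat_lit 4311748872)) (.cons (.rel (nat_lit 4311753732)) .nil))) .nil)) .leaf) (nat_lit 27015046915749898) (.br (nat_lit 6) (.cons (.br (nat_lit 5) (.cons (.rel (nat_lit 21474844740)) (.cons (.rel (nat_lit 21474844740)) .nil))) .nil)) (.node .leaf (nat_lit 27015046917040878) (.br (nat_lit 5) (.cons (.br (nat_lit 6) (.cons (.rel (nat_lit 21474844740)) .nil)) .nil)) .leaf))))) (nat_lit 27015046917244938) (.br (nat_lit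 1) (.cons (.br (nat_lit 5) (.cons (.rel (nat_lit 4311747072)) .nil)) .nil)) (.node (.node (.node (.node (.node (.node .leaf (nat_lit 27015050068190611) (.br (nat_lit 0) (.cons (.br (nat_lit 2) (.cons (.rel (nat_lit 75497538)) .nil)) .nil)) .leaf) (nat_lit 27015050082449418) (.br (nat_lit 0) (.cons (.br (nat_lit 2) (.cons (.rel (nat_lit 71311368)) (.cons (.rel (nat_lit 71304708)) .nil))) (.cons (.br (nat_lit 2) (.cons (.rel (nat_lit 71304708)) (.cons (.rel (nat_lit 71309568)) .nil))) .nil))) .leaf) (nat_lit 27015050083731466) (.br (nat_lit 0) (.cons (.br (nat_lit 1) (.cons (.rel (nat_lit 38010960)) .nil)) .nil)) (.node .leaf (nat_lit 27015050083933690) (.br (nat_lit 2) (.cons (.br (nat_lit 4) (.cons (.rel (nat_lit 1207968000)) .nil)) .nil)) .leaf)) (nat_lit 27015050083933715) (.br (nat_lit 1) (.cons (.br (nat_lit 5) (.cons (.rel (nat_lit 4311876609)) .nil)) .nil)) (.node (.node .leaf (nat_lit 27015050083944458) (.br (nat_lit 5) (.cons (.br (nat_lit 1) (.cons (.rel (nat_lit 4311753732))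 (.cons (.rel (nat_lit 4311761184)) (.cons (.rel (nat_lit 4311747072)) .nil)))) (.cons (.br (nat_lit 0) (.cons (.rel (nat_lit 4299325440)) (.cons (.rel (nat_lit 4299325440)) (.cons (.rel (nat_lit 4299167760)) .nil)))) .nil))) .leaf) (nat_lit 27015050085266218) (.br (nat_lit 0) (.cons (.br (nat_lit 1) (.cons (.rel (nat_lit 21234948)) .nil)) .nil)) (.node .leaf (nat_lit 27015050085531955) (.br (nat_lit 2) (.cons (.br (nat_lit 3) (.cons (.rel (nat_lit 335545380)) .nil)) .nil)) .leaf))) (nat_lit 27015232625773294) (.br (nat_lit 0) (.cons (.br (nat_lit 2) (.cons (.rel (nat_lit 71335956)) (.cons (.rel (nat_lit 71311368)) .nil))) .nil)) (.node (.node (.node .leaf (nat_lit 27015232625836782) (.br (nat_lit 0) (.cons (.br (nat_lit 1) (.cons (.rel (nat_lit 41943108)) .nil)) .nil)) .leaf) (nat_lit 27015258602260490) (.br (nat_lit 3) (.cons (.br (nat_lit 5) (.cons (.rel (nat_lit 4563409152)) .nil)) .nil)) (.node .leaf (nat_lit 27015258602323978) (.br (nat_lit 0) (.cons (.br (nat_lit 3) (.cons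 (.rel (nat_lit 276824352)) .nil)) .nil)) .leaf)) (nat_lit 27015258603756270) (.br (nat_lit 0) (.cons (.br (nat_lit 1) (.cons (.rel (nat_lit 22021125)) .nil)) .nil)) (.node (.node .leaf (nat_lit 27015258605385738) (.br (nat_lit 0) (.cons (.br (nat_lit 1) (.cons (.rel (nat_lit 20971656)) .nil)) .nil)) .leaf) (nat_lit 27015264937207315) (.br (nat_lit 1) (.cons (.br (nat_lit 5) (.cons (.br (nat_lit 0) (.cons (.rel (nat_lit 21239808)) (.cons (.rel (nat_lit 4299180036)) .nil))) .nil)) .nil)) (.node .leaf (nat_lit 27015862458789898) (.br (nat_lit 1) (.cons (.br (nat_lit 2) (.cons (.rel (nat_lit 83886090)) .nil)) .nil)) .leaf)))) (nat_lit 27016890481625098) (.br (nat_lit 1) (.cons (.br (nat_lit 6) (.cons (.rel (nat_lit 17196662793)) .nil)) .nil)) (.node (.node (.node (.node (.node .leaf (nat_lit 27017191127798540) (.br (nat_lit 0) (.cons (.br (nat_lit 1) (.cons (.rel (nat_lit 21250050)) .nil)) .nil)) .leaf) (nat_lit 27017191127799265) (.br (nat_lit 5) (.cons (.br (nat_lit 1) (.cons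 (.rel (nat_lit 4311814176)) (.cons (.rel (nat_lit 4313382912)) .nil))) .nil)) .leaf) (nat_lit 27017191127840778) (.br (nat_lit 0) (.cons (.br (nat_lit 1) (.cons (.rel (nat_lit 41943108)) .nil)) .nil)) (.node .leaf (nat_lit 27017191129313290) (.br (nat_lit 1) (.cons (.br (nat_lit 2) (.cons (.rel (nat_lit 167773200)) (.cons (.rel (nat_lit 167772165)) .nil))) (.cons (.br (nat_lit 2) (.cons (.rel (nat_lit 83920128)) (.cons (.rel (nat_lit 167772165)) .nil))) .nil))) .leaf)) (nat_lit 27017191130923018) (.br (nat_lit 1) (.cons (.br (nat_lit 2) (.cons (.rel (nat_lit 83886090)) .nil)) .nil)) (.node (.node .leaf (nat_lit 27017192281232865) (.br (nat_lit 6) (.cons (.br (nat_lit 1) (.cons (.rel (nat_lit 17196711960)) (.cons (.rel (nat_lit 34376516736)) .nil))) .nil)) .leaf) (nat_lit 27017192281274378) (.br (nat_lit 0) (.cons (.br (nat_lit 2) (.cons (.rel (nat_lit 71304708)) .nil)) .nil)) (.node .leaf (nat_lit 27017192282746890) (.br (nat_lit 6) (.cons (.br (nat_lit 3) (.cons (.rel (nat_lit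 17448345600)) (.cons (.rel (nat_lit 34896629760)) (.cons (.rel (nat_lit 17448321048)) .nil)))) .nil)) .leaf))) (nat_lit 27017319978332170) (.br (nat_lit 5) (.cons (.br (nat_lit 1) (.cons (.rel (nat_lit 4311814176)) (.cons (.rel (nat_lit 4311747072)) .nil))) .nil)) (.node (.node (.node .leaf (nat_lit 27017319978393625) (.br (nat_lit 1) (.cons (.br (nat_lit 4) (.cons (.rel (nat_lit 1090519080)) .nil)) .nil)) .leaf) (nat_lit 27017319979615614) (.br (nat_lit 1) (.cons (.br (nat_lit 2) (.cons (.rel (nat_lit 83886090)) .nil)) .nil)) (.node .leaf (nat_lit 27017319979972095) (.br (nat_lit 0) (.cons (.br (nat_lit 2) (.cons (.rel (nat_lit 142610436)) .nil)) .nil)) .leaf)) (nat_lit 27017319979972618) (.br (nat_lit 1) (.cons (.br (nat_lit 3) (.cons (.rel (nat_lit 286263552)) .nil)) .nil)) (.node (.node .leaf (nat_lit 27017323143609100) (.br (nat_lit 0) (.cons (.br (nat_lit 1) (.cons (.rel (nat_lit 20971656)) .nil)) .nil)) .leaf) (nat_lit 27017323146641418) (.br (nat_lit 4) (.cons (.br (nat_lit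 5) (.cons (.rel (nat_lit 5368774737)) .nil)) .nil)) (.node .leaf (nat_lit 27017323146673633) (.br (nat_lit 0) (.cons (.br (nat_lit 1) (.cons (.rel (nat_lit 21299217)) .nil)) .nil)) .leaf))))))

/-- refutations 129 -/
def e129 : EX := (.node (.node (.node (.node .leaf (nat_lit 27268202877712415) (.br (nat_lit 0) (.cons (.br (nat_lit 2) (.cons (.rel (nat_lit 71434245)) .nil)) .nil)) .leaf) (nat_lit 27268360815361505) (.br (nat_lit 0) (.cons (.br (nat_lit 5) (.cons (.rel (nat_lit 4299166725)) .nil)) .nil)) .leaf) (nat_lit 27268363981967370) (.br (nat_lit 2) (.cons (.br (nat_lit 3) (.cons (.rel (nat_lit 335544345)) .nil)) .nil)) (.node (.node .leaf (nat_lit 27268363981998090) (.br (nat_lit 1) (.cons (.br (nat_lit 3) (.cons (.rel (nat_lit 553656576)) .nil)) .nil)) .leaf) (nat_lit 27268962665857051) (.br (nat_lit 3) (.cons (.br (nat_lit 4) (.cons (.rel (nat_lit 1610613312)) .nil)) .nil)) .leaf)) (nat_lit 27268962665857776) (.br (nat_lit 0) (.cons (.br (nat_lit 3) (.cons (.rel (nat_lit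 272892168)) .nil)) .nil)) (.node (.node (.node .leaf (nat_lit 27268964986942990) (.br (nat_lit 1) (.cons (.br (nat_lit 3) (.cons (.rel (nat_lit 285507588)) .nil)) .nil)) .leaf) (nat_lit 27268965277388810) (.br (nat_lit 1) (.cons (.br (nat_lit 5) (.cons (.br (nat_lit 0) (.cons (.rel (nat_lit 4299167760)) (.cons (.rel (nat_lit 4299172353)) .nil))) .nil)) .nil)) .leaf) (nat_lit 27268967489426943) (.br (nat_lit 1) (.cons (.br (nat_lit 3) (.cons (.rel (nat_lit 301989906)) .nil)) .nil)) (.node .leaf (nat_lit 27269180133768673) (.br (nat_lit 0) (.cons (.br (nat_lit 1) (.cons (.rel (nat_lit 22022160)) .nil)) .nil)) .leaf)))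

/-- refutations 130 -/
def e130 : EX := (.node (.node (.node (.node .leaf (nat_lit 27274330819841550) (.br (nat_lit 3) (.cons (.br (nat_lit 2) (.cons (.rel (nat_lit 335618064)) (.cons (.rel (nat_lit 335618064)) (.cons (.rel (nat_lit 403767300)) .nil)))) .nil)) .leaf) (nat_lit 27274330822964750) (.br (nat_lit 1) (.cons (.br (nat_lit 5) (.cons (.rel (nat_lit 4311753732)) (.cons (.rel (nat_lit 4312813632)) .nil))) .nil)) (.node .leaf (nat_lit 27278626417829944) (.br (nat_lit 0) (.cons (.br (nat_lit 1) (.cons (.rel (nat_lit 41943108)) .nil)) .nil)) .leaf)) (nat_lit 27278626419374090) (.br (nat_lit 0) (.cons (.br (nat_lit 1) (.cons (.rel (nat_lit 22036992)) .nil)) .nil)) (.node (.node .leaf (nat_lit 27278626419374890) (.br (nat_lit 4) (.cons (.br (nat_lit 5) (.cons (.rel (nat_lit 5369233416)) .nil)) .nil)) .leaf) (nat_lit 27278714854667745) (.br (nat_lit 0) (.cons (.br (nat_lit 1) (.cons (.rel (nat_lit 22036992)) .nil)) .nil)) .leaf)) (nat_lit 27279115416536575) (.br (nat_lit 2)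 (.cons (.br (nat_lit 3) (.cons (.rel (nat_lit 335546370)) .nil)) .nil)) (.node (.node (.node .leaf (nat_lit 27279115967025162) (.br (nat_lit 3) (.cons (.br (nat_lit 5) (.cons (.rel (nat_lit 4563409152)) .nil)) .nil)) .leaf) (nat_lit 27279699532084750) (.br (nat_lit 1) (.cons (.br (nat_lit 2) (.cons (.rel (nat_lit 167772165)) .nil)) .nil)) .leaf) (nat_lit 27281202768998425) (.br (nat_lit 0) (.cons (.br (nat_lit 1) (.cons (.rel (nat_lit 21250050)) .nil)) .nil)) (.node (.node .leaf (nat_lit 27281202769059895) (.br (nat_lit 0) (.cons (.br (nat_lit 1) (.cons (.rel (nat_lit 22347840)) .nil)) .nil)) .leaf) (nat_lit 27281202770638350) (.br (nat_lit 0) (.cons (.br (nat_lit 1) (.cons (.rel (nat_lit 20971656)) .nil)) .nil)) .leaf)))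

/-- refutations 131 -/
def e131 : EX := (.node (.node (.node (.node .leaf (nat_lit 27021692255398813) (.br (nat_lit 0) (.cons (.br (nat_lit 1) (.cons (.rel (nat_lit 20971656)) .nil)) .nil)) .leaf) (nat_lit 27021695616290305) (.br (nat_lit 0) (.cons (.br (nat_lit 1) (.cons (.rel (nat_lit 22089984)) .nil)) .nil)) (.node .leaf (nat_lit 27022946519831338) (.br (nat_lit 1) (.cons (.br (nat_lit 2) (.cons (.rel (nat_lit 83906817)) .nil)) .nil)) .leaf)) (nat_lit 27022946521320961) (.br (nat_lit 0) (.cons (.br (nat_lit 5) (.cons (.rel (nat_lit 4299180036)) .nil)) .nil)) (.node (.node .leaf (nat_lit 27023200736477194) (.br (nat_lit 0) (.cons (.br (nat_lit 2) (.cons (.rel (nat_lit 71311368)) (.cons (.rel (nat_lit 142610436)) .nil))) .nil)) .leaf) (nat_lit 27024026569878309) (.br (nat_lit 0) (.cons (.br (nat_lit 1) (.cons (.rel (nat_lit 21250050)) .nil)) .nil)) (.node .leaf (nat_lit 27027060965203978) (.br (nat_lit 0) (.cons (.br (nat_lit 1) (.cons (.rel (nat_lit 20971656)) .nil)) .nil))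 .leaf))) (nat_lit 27027066208652801) (.br (nat_lit 0) (.cons (.br (nat_lit 1) (.cons (.rel (nat_lit 22022160)) .nil)) .nil)) (.node (.node (.node .leaf (nat_lit 27028040218316289) (.br (nat_lit 1) (.cons (.br (nat_lit 3) (.cons (.rel (nat_lit 285278352)) .nil)) .nil)) .leaf) (nat_lit 27029113960140289) (.br (nat_lit 0) (.cons (.br (nat_lit 1) (.cons (.rel (nat_lit 22022160)) .nil)) .nil)) (.node .leaf (nat_lit 27029552045195274) (.br (nat_lit 0) (.cons (.br (nat_lit 5) (.cons (.rel (nat_lit 8595181569)) .nil)) .nil)) .leaf)) (nat_lit 27029555404832778) (.br (nat_lit 0) (.cons (.br (nat_lit 1) (.cons (.rel (nat_lit 22089984)) .nil)) .nil)) (.node (.node .leaf (nat_lit 27029555406185259) (.br (nat_lit 0) (.cons (.br (nat_lit 1) (.cons (.rel (nat_lit 20971656)) .nil)) .nil)) .leaf) (nat_lit 27029555406441985) (.br (nat_lit 0) (.cons (.br (nat_lit 1) (.cons (.rel (nat_lit 20971656)) .nil)) .nil)) .leaf)))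

/-- refutations 132 -/
def e132 : EX := (.node (.node (.node (.node (.node .leaf (nat_lit 27356923692800875) (.br (nat_lit 2) (.cons (.br (nat_lit 0) (.cons (.rel (nat_lit 71304708)) (.cons (.rel (nat_lit 72892416)) .nil))) .nil)) .leaf) (nat_lit 27356923694182410) (.br (nat_lit 0) (.cons (.br (nat_lit 5) (.cons (.rel (nat_lit 4299228168)) .nil)) .nil)) (.node .leaf (nat_lit 27356926438297610) (.br (nat_lit 0) (.cons (.br (nat_lit 3) (.cons (.rel (nat_lit 272892168)) .nil)) .nil)) .leaf)) (nat_lit 27356926438298405) (.br (nat_lit 3) (.cons (.br (nat_lit 0) (.cons (.rel (nat_lit 273678345)) (.cons (.rel (nat_lit 272892168)) .nil))) .nil)) (.node (.node .leaf (nat_lit 27356926438328345) (.br (nat_lit 0) (.cons (.br (nat_lit 2) (.cons (.rel (nat_lit 71567424)) .nil)) .nil)) .leaf) (nat_lit 27356926438329875) (.br (nat_lit 1) (.cons (.br (nat_lit 4) (.cons (.rel (nat_lit 1090521105)) (.cons (.rel (nat_lit 1090519080)) .nil))) .nil)) .leaf)) (nat_lit 27356926438588568) (.br (nat_lit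 0) (.cons (.br (nat_lit 4) (.cons (.rel (nat_lit 1079005248)) .nil)) .nil)) (.node (.node (.node .leaf (nat_lit 27356926438639793) (.br (nat_lit 6) (.cons (.br (nat_lit 4) (.cons (.rel (nat_lit 18254168064)) (.cons (.rel (nat_lit 18253612113)) .nil))) .nil)) .leaf) (nat_lit 27356926439827466) (.br (nat_lit 4) (.cons (.br (nat_lit 6) (.cons (.rel (nat_lit 18253611078)) .nil)) .nil)) .leaf) (nat_lit 27356926439833625) (.br (nat_lit 3) (.cons (.br (nat_lit 4) (.cons (.rel (nat_lit 1342177290)) .nil)) .nil)) (.node (.node .leaf (nat_lit 27356926439834360) (.br (nat_lit 3) (.cons (.br (nat_lit 1) (.cons (.rel (nat_lit 301991940)) (.cons (.rel (nat_lit 285278352)) (.cons (.rel (nat_lit 286263552)) .nil)))) (.cons (.br (nat_lit 6) (.cons (.rel (nat_lit 17448697920)) (.cons (.rel (nat_lit 17448304902)) .nil))) .nil))) .leaf) (nat_lit 27356926439936025) (.br (nat_lit 0) (.cons (.br (nat_lit 1) (.cons (.rel (nat_lit 38010960)) .nil)) .nil)) .leaf))) (nat_lit 27356926439936785) (.br (nat_lit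 1) (.cons (.br (nat_lit 3) (.cons (.rel (nat_lit 285507588)) .nil)) .nil)) (.node (.node (.node (.node .leaf (nat_lit 27356926439936810) (.br (nat_lit 0) (.cons (.br (nat_lit 1) (.cons (.rel (nat_lit 25232400)) (.cons (.rel (nat_lit 22347840)) .nil))) .nil)) .leaf) (nat_lit 27356926440145073) (.br (nat_lit 4) (.cons (.br (nat_lit 1) (.cons (.rel (nat_lit 1090519080)) (.cons (.rel (nat_lit 1090543632)) (.cons (.rel (nat_lit 2165374980)) .nil)))) .nil)) .leaf) (nat_lit 27356926440963333) (.br (nat_lit 2) (.cons (.br (nat_lit 5) (.cons (.rel (nat_lit 4364238849)) .nil)) .nil)) (.node (.node .leaf (nat_lit 27356926441360865) (.br (nat_lit 4) (.cons (.br (nat_lit 5) (.cons (.rel (nat_lit 9663676689)) .nil)) .nil)) .leaf) (nat_lit 27356926441370375) (.br (nat_lit 1) (.cons (.br (nat_lit 3) (.cons (.rel (nat_lit 303038529)) .nil)) .nil)) .leaf)) (nat_lit 27356926441462520) (.br (nat_lit 5) (.cons (.br (nat_lit 6) (.cons (.rel (nat_lit 21474844740)) (.cons (.rel (nat_lit 38654706945))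 (.cons (.rel (nat_lit 21477015552)) .nil)))) (.cons (.br (nat_lit 6) (.cons (.rel (nat_lit 38654722056)) (.cons (.rel (nat_lit 21474838080)) (.cons (.rel (nat_lit 21474844740)) .nil)))) .nil))) (.node (.node (.node .leaf (nat_lit 27356926441462570) (.br (nat_lit 6) (.cons (.br (nat_lit 5) (.cons (.rel (nat_lit 38654706945)) (.cons (.rel (nat_lit 21477015552)) .nil))) .nil)) .leaf) (nat_lit 27356926441463290) (.br (nat_lit 4) (.cons (.br (nat_lit 5) (.cons (.rel (nat_lit 6442455312)) .nil)) .nil)) .leaf) (nat_lit 27356926441464613) (.br (nat_lit 3) (.cons (.br (nat_lit 5) (.cons (.rel (nat_lit 4563533829)) .nil)) .nil)) (.node (.node .leaf (nat_lit 27356928809669394) (.br (nat_lit 0) (.cons (.br (nat_lit 1) (.cons (.rel (nat_lit 21234948)) .nil)) .nil)) .leaf) (nat_lit 27362298272420727) (.br (nat_lit 0) (.cons (.br (nat_lit 2) (.cons (.rel (nat_lit 71304708)) .nil)) .nil)) .leaf))))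

/-- refutations 133 -/
def e133 : EX := (.node (.node (.node (.node (.node .leaf (nat_lit 27362549553268913) (.br (nat_lit 2) (.cons (.br (nat_lit 6) (.cons (.rel (nat_lit 17247011136)) .nil)) .nil)) .leaf) (nat_lit 27362549555589995) (.br (nat_lit 1) (.cons (.br (nat_lit 6) (.cons (.rel (nat_lit 17196650517)) .nil)) .nil)) .leaf) (nat_lit 27362555215523990) (.br (nat_lit 1) (.cons (.br (nat_lit 2) (.cons (.rel (nat_lit 84935748)) .nil)) .nil)) (.node (.node .leaf (nat_lit 27363457913344010) (.br (nat_lit 0) (.cons (.br (nat_lit 2) (.cons (.rel (nat_lit 71304708)) (.cons (.rel (nat_lit 142610436)) .nil))) .nil)) .leaf) (nat_lit 27363457913344805) (.br (nat_lit 0) (.cons (.br (nat_lit 2) (.cons (.rel (nat_lit 71309568)) .nil)) .nil)) .leaf)) (nat_lit 27363457913374745) (.br (nat_lit 0) (.cons (.br (nat_lit 1) (.cons (.rel (nat_lit 37770240)) (.cons (.rel (nat_lit 21239808)) .nil))) .nil)) (.node (.node (.node .leaf (nat_lit 27363457913375530) (.br (nat_lit 0) (.cons (.br (nat_lit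 5) (.cons (.rel (nat_lit 4303618176)) (.cons (.rel (nat_lit 4299325440)) .nil))) (.cons (.br (nat_lit 4) (.cons (.rel (nat_lit 1077938688)) (.cons (.rel (nat_lit 1077952800)) .nil))) .nil))) .leaf) (nat_lit 27363457913376225) (.br (nat_lit 0) (.cons (.br (nat_lit 1) (.cons (.rel (nat_lit 22036992)) .nil)) .nil)) .leaf) (nat_lit 27363457913385735) (.br (nat_lit 1) (.cons (.br (nat_lit 4) (.cons (.rel (nat_lit 1090519080)) .nil)) .nil)) (.node (.node .leaf (nat_lit 27363457914677909) (.br (nat_lit 0) (.cons (.br (nat_lit 4) (.cons (.rel (nat_lit 1077952800)) .nil)) .nil)) .leaf) (nat_lit 27363457914880785) (.br (nat_lit 5) (.cons (.br (nat_lit 0) (.cons (.rel (nat_lit 4299161865)) (.cons (.rel (nat_lit 4299178002)) .nil))) .nil)) .leaf))) (nat_lit 27363457914881530) (.br (nat_lit 4) (.cons (.br (nat_lit 5) (.cons (.rel (nat_lit 10737680388)) .nil)) .nil)) (.node (.node (.node (.node .leaf (nat_lit 27363457914982425) (.br (nat_lit 0) (.cons (.br (nat_lit 1) (.cons (.rel (nat_lit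 20971656)) .nil)) .nil)) .leaf) (nat_lit 27363457914983210) (.br (nat_lit 0) (.cons (.br (nat_lit 2) (.cons (.rel (nat_lit 71368977)) (.cons (.rel (nat_lit 71319810)) .nil))) (.cons (.br (nat_lit 2) (.cons (.rel (nat_lit 71435280)) (.cons (.rel (nat_lit 71311368)) .nil))) .nil))) .leaf) (nat_lit 27363457916405785) (.br (nat_lit 4) (.cons (.br (nat_lit 1) (.cons (.rel (nat_lit 1090555908)) (.cons (.rel (nat_lit 1090520070)) .nil))) .nil)) (.node (.node .leaf (nat_lit 27363457916508970) (.br (nat_lit 2) (.cons (.br (nat_lit 6) (.cons (.rel (nat_lit 17246978133)) (.cons (.rel (nat_lit 17246978133)) .nil))) .nil)) .leaf) (nat_lit 27363670022462200) (.br (nat_lit 2) (.cons (.br (nat_lit 4) (.cons (.rel (nat_lit 1207960584)) .nil)) .nil)) .leaf)) (nat_lit 27366629876747770) (.br (nat_lit 2) (.cons (.br (nat_lit 4) (.cons (.rel (nat_lit 2214597120)) .nil)) .nil)) (.node (.node (.node .leaf (nat_lit 27366629878251545) (.br (nat_lit 3) (.cons (.br (nat_lit 6) (.cons (.rel (nat_lit 17448403221))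 .nil)) .nil)) .leaf) (nat_lit 27366629879778810) (.br (nat_lit 0) (.cons (.br (nat_lit 4) (.cons (.rel (nat_lit 1077938688)) .nil)) .nil)) .leaf) (nat_lit 27366629879880490) (.br (nat_lit 2) (.cons (.br (nat_lit 5) (.cons (.rel (nat_lit 4362081348)) .nil)) .nil)) (.node .leaf (nat_lit 27366629879881235) (.br (nat_lit 4) (.cons (.br (nat_lit 0) (.cons (.rel (nat_lit 1077940488)) (.cons (.rel (nat_lit 1077940488)) .nil))) .nil)) .leaf))))

/-- refutations 134 -/
def e134 : EX := (.node (.node (.node .leaf (nat_lit 27304151987502363) (.br (nat_lit 0) (.cons (.br (nat_lit 1) (.cons (.rel (nat_lit 41943108)) .nil)) .nil)) .leaf) (nat_lit 27304151988858890) (.br (nat_lit 2) (.cons (.br (nat_lit 4) (.cons (.rel (nat_lit 1207968000)) .nil)) .nil)) .leaf) (nat_lit 27313896061693962) (.br (nat_lit 1) (.cons (.br (nat_lit 5) (.cons (.rel (nat_lit 4311765009)) .nil)) .nil)) (.node .leaf (nat_lit 27316052772810762) (.br (nat_lit 2) (.cons (.br (nat_lit 3) (.cons (.rel (nat_lit 335546370))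 .nil)) .nil)) .leaf))

/-- refutations 135 -/
def e135 : EX := (.node (.node (.node .leaf (nat_lit 27374517978420726) (.br (nat_lit 1) (.cons (.br (nat_lit 2) (.cons (.rel (nat_lit 167772165)) .nil)) .nil)) .leaf) (nat_lit 27375643158162193) (.br (nat_lit 0) (.cons (.br (nat_lit 1) (.cons (.rel (nat_lit 22036992)) .nil)) .nil)) (.node .leaf (nat_lit 27375855911063562) (.br (nat_lit 0) (.cons (.br (nat_lit 1) (.cons (.rel (nat_lit 21234948)) (.cons (.rel (nat_lit 41943108)) .nil))) .nil)) .leaf)) (nat_lit 27375855912856437) (.br (nat_lit 0) (.cons (.br (nat_lit 2) (.cons (.rel (nat_lit 71311368)) .nil)) .nil)) (.node (.node .leaf (nat_lit 27379938122289162) (.br (nat_lit 0) (.cons (.br (nat_lit 2) (.cons (.rel (nat_lit 71319810)) .nil)) .nil)) .leaf) (nat_lit 27381218647495406) (.br (nat_lit 1) (.cons (.br (nat_lit 0) (.cons (.rel (nat_lit 21250050)) (.cons (.rel (nat_lit 20971656)) .nil))) .nil)) (.node .leaf (nat_lit 27381218647496182) (.br (nat_lit 1) (.cons (.br (nat_lit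 3) (.cons (.rel (nat_lit 302137344)) .nil)) .nil)) .leaf)))

/-- refutations 136 -/
def e136 : EX := (.node (.node (.node (.node .leaf (nat_lit 27462478803783690) (.br (nat_lit 0) (.cons (.br (nat_lit 3) (.cons (.rel (nat_lit 541131012)) .nil)) .nil)) .leaf) (nat_lit 27462482599736801) (.br (nat_lit 2) (.cons (.br (nat_lit 5) (.cons (.rel (nat_lit 4362747912)) .nil)) .nil)) .leaf) (nat_lit 27462482599925915) (.br (nat_lit 5) (.cons (.br (nat_lit 6) (.cons (.rel (nat_lit 21474967617)) .nil)) .nil)) (.node (.node .leaf (nat_lit 27472663924547719) (.br (nat_lit 2) (.cons (.br (nat_lit 3) (.cons (.rel (nat_lit 335546370)) .nil)) .nil)) .leaf) (nat_lit 27472663924569569) (.br (nat_lit 3) (.cons (.br (nat_lit 4) (.cons (.rel (nat_lit 2684354565)) .nil)) .nil)) .leaf)) (nat_lit 27472663924803719) (.br (nat_lit 0) (.cons (.br (nat_lit 2) (.cons (.rel (nat_lit 142610436)) .nil)) .nil)) (.node (.node (.node .leaf (nat_lit 27472663927640074) (.br (nat_lit 1) (.cons (.br (nat_lit 5) (.cons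 (.rel (nat_lit 4311778320)) .nil)) .nil)) .leaf) (nat_lit 27472663927641490) (.br (nat_lit 0) (.cons (.br (nat_lit 1) (.cons (.rel (nat_lit 20971656)) (.cons (.rel (nat_lit 21234948)) .nil))) .nil)) .leaf) (nat_lit 27472664373252106) (.br (nat_lit 0) (.cons (.br (nat_lit 5) (.cons (.rel (nat_lit 4299182592)) .nil)) .nil)) (.node (.node .leaf (nat_lit 27472665124032522) (.br (nat_lit 0) (.cons (.br (nat_lit 2) (.cons (.rel (nat_lit 71304708)) (.cons (.rel (nat_lit 75497538)) .nil))) .nil)) .leaf) (nat_lit 27472665127212538) (.br (nat_lit 1) (.cons (.br (nat_lit 2) (.cons (.rel (nat_lit 83906817)) .nil)) .nil)) .leaf)))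

/-- list of the parts -/
def L0 : List (ℕ × List ℕ) := [(nat_lit 0x10, [Nat.sub (Nat.pow 2 66) (Nat.pow 2 0), Nat.sub (Nat.pow 2 154) (Nat.pow 2 66), Nat.sub (Nat.pow 2 260) (Nat.pow 2 154), Nat.sub (Nat.pow 2 640) (Nat.pow 2 260), Nat.sub (Nat.pow 2 686) (Nat.pow 2 640), Nat.sub (Nat.pow 2 909) (Nat.pow 2 686), Nat.sub (Nat.pow 2 1314) (Nat.pow 2 909), Nat.sub (Nat.pow 2 1504) (Nat.pow 2 1314), Nat.sub (Nat.pow 2 1540) (Nat.pow 2 1504), Nat.sub (Nat.pow 2 3136) (Nat.pow 2 1540)]),
  (nat_lit 0x4000, [cP]),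
  (nat_lit 0x8000, [cP]),
  (nat_lit 0x40000000, [cP]),
  (nat_lit 0x1000000000, [Nat.sub (Nat.pow 2 686) (Nat.pow 2 0), Nat.sub (Nat.pow 2 3136) (Nat.pow 2 686)]),
  (nat_lit 0x80000080000000, [cP]),
  (nat_lit 0x200000000000000000000000000000000, [Nat.sub (Nat.pow 2 760) (Nat.pow 2 0), Nat.sub (Nat.pow 2 3136) (Nat.pow 2 760)]),
  (nat_lit 0x40100000000000000, [cP]),
  (nat_lit 0x4000000000000000000000000000000000, [cP]),
  (nat_lit 0x800208000000000000000000000000000000000, [cP]),
  (nat_lit 0x10000000000000000000000000000000000000000, [Nat.sub (Nat.pow 2 285) (Nat.pow 2 0), Nat.sub (Nat.pow 2 1565) (Nat.pow 2 285), Nat.sub (Nat.pow 2 3136) (Nat.pow 2 1565)]),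
  (nat_lit 0x1000000000000000000000000000000000000000, [cP]),
  (nat_lit 0x20000000000000000000000000000000000000000000000, [cP]),
  (nat_lit 0x200000000000000000000000000000000000000000000000, [Nat.sub (Nat.pow 2 889) (Nat.pow 2 0), Nat.sub (Nat.pow 2 3136) (Nat.pow 2 889)]),
  (nat_lit 0x40000000000000000000000000000000000000000000000, [cP]),
  (nat_lit 0x80000000000000000000000000000000000000000000000000000000000000000, [Nat.sub (Nat.pow 2 629) (Nat.pow 2 0), Nat.sub (Nat.pow 2 3136) (Nat.pow 2 629)]),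
  (nat_lit 0x200000000000000000400000000000000000000000000000000000000000000000, [cP]),
  (nat_lit 0x8000000000000000000000000000000000000000000000000000000000000000000000, [Nat.sub (Nat.pow 2 654) (Nat.pow 2 0), Nat.sub (Nat.pow 2 3136) (Nat.pow 2 654)]),
  (nat_lit 0x4000000000000000000000000000000000000000000000000000000000000000000, [cP]),
  (nat_lit 0x30000000000000000000000000000000000000000000000000000000000000000000000, [cP]),
  (nat_lit 0x2000000000000000000000000000000000000000000000000000000000000000000000000, [Nat.sub (Nat.pow 2 654) (Nat.pow 2 0), Nat.sub (Nat.pow 2 3136) (Nat.pow 2 654)]),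
  (nat_lit 0x4000000000000000000000000000000000000000000000000000000000000000000000000, [Nat.sub (Nat.pow 2 261) (Nat.pow 2 0), Nat.sub (Nat.pow 2 1565) (Nat.pow 2 261), Nat.sub (Nat.pow 2 3136) (Nat.pow 2 1565)]),
  (nat_lit 0x100000000000000000000000000000000000000000000000000000000000000000000000, [cP]),
  (nat_lit 0x8000000000000000000000000000000000000000000000000000000000000000000000000, [cP]),
  (nat_lit 0x440000000000000000000000000000000000000000000000000000000000000000000000000000, [cP]),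
  (nat_lit 0x20000000000000000000000000000000000000000000000000000000000000000000000000000000000000000000000000000000000000000000000000000000000000000000000000000000000000, [Nat.sub (Nat.pow 2 754) (Nat.pow 2 0), Nat.sub (Nat.pow 2 1565) (Nat.pow 2 754), Nat.sub (Nat.pow 2 3136) (Nat.pow 2 1565)]),
  (nat_lit 0x1000000000000000000000000000000000000000000000000000000000000000000000000000000000000000000000000000000000000000000000000000000000000000000000000000000000000000, [Nat.sub (Nat.pow 2 784) (Nat.pow 2 0), Nat.sub (Nat.pow 2 3136) (Nat.pow 2 784)]),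
  (nat_lit 0x1000000000000000000000000000000000000000000000000000000000000000000000000000000000000000000000000000000000000000000000000000000000000000000000000000000000000000000000, [Nat.sub (Nat.pow 2 760) (Nat.pow 2 0), Nat.sub (Nat.pow 2 3136) (Nat.pow 2 760)]),
  (nat_lit 0x10000000000000000000000000000000000000000000000000000000000000000000000000000000, [cP]),
  (nat_lit 0x10000000000000000000000000000000000000000000000000000000000000000000000000000000000000000000000000000000000000000000000000000000000000000000000000000000000000000000000, [cP]),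
  (nat_lit 0x80000000000000000000000000000000000000000000000000000000000000000000000000000000000000000000000000000000000000000000000000000000000000000000000000000000000000000000000000, [cP]),
  (nat_lit 0x81000000000000000000000000000000000000000000000000000000000000000000000000000000000000000000000000000000000000000000000000000000000000000000000000000000000000000000000000000, [cP]),
  (nat_lit 0x400000000000000000000000000000000000000000000000000000000000000000000000000000000000000000000000000000000000000000000000000000000000000000000000000000000000000000000000000000000000000000000, [cP]),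
  (nat_lit 0x400000000000000000000000000000000000000000000000000000000000000000000000000000000000000000000000000000000000000000000000000000000000000000000000000000000000000000000000000000000000000000000000, [Nat.sub (Nat.pow 2 654) (Nat.pow 2 0), Nat.sub (Nat.pow 2 3136) (Nat.pow 2 654)]),
  (nat_lit 0x800000000000000000000000000000000000000000000000000000000000000000000000000000000000000000000000000000000000000000000000000000000000000000000000000000000000000000000000000000000000000000000000000, [Nat.sub (Nat.pow 2 879) (Nat.pow 2 0), Nat.sub (Nat.pow 2 3136) (Nat.pow 2 879)]),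
  (nat_lit 0x10800000000000000000000000000000000000000000000000000000000000000000000000000000000000000000000000000000000000000000000000000000000000000000000000000000000000000000000000000000000000000000000, [cP]),
  (nat_lit 0x3000000000000000000000000000000000000000000000000000000000000000000000000000000000000000000000000000000000000000000000000000000000000000000000000000000000000000000000000000000000000000000000000000, [cP]),
  (nat_lit 0x200000000000000000000000000000000000000000000000000000000000000000000000000000000000000000000000000000000000000000000000000000000000000000000000000000000000000000000000000000000000000000000000000000, [Nat.sub (Nat.pow 2 680) (Nat.pow 2 0), Nat.sub (Nat.pow 2 915) (Nat.pow 2 680), Nat.sub (Nat.pow 2 3136) (Nat.pow 2 915)]),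
  (nat_lit 0x40000000000000000000000000000000000000000000000000000000000000000000000000000000000000000000000000000000000000000000000000000000000000000000000000000000000000000000000000000000000000000000000000000, [cP]),
  (nat_lit 0x800000000000000000000000000000000000000000000000000000000000000000000000000000000000000000000000000000000000000000000000000000000000000000000000000000000000000000000000000000000000000000000000000000, [cP]),
  (nat_lit 0x20000000000000000000000000000000000000000000000000000000000000000000000000000000000000000000000000000000000000000000000000000000000000000000000000000000000000000000000000000000000000000000000000000000000, [Nat.sub (Nat.pow 2 934) (Nat.pow 2 0), Nat.sub (Nat.pow 2 1565) (Nat.pow 2 934), Nat.sub (Nat.pow 2 3136) (Nat.pow 2 1565)]),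
  (nat_lit 0x41000000000000000000000000000000000000000000000000000000000000000000000000000000000000000000000000000000000000000000000000000000000000000000000000000000000000000000000000000000000000000000000000000000000, [cP]),
  (nat_lit 0x80000000000000000000000000000000000000000000000000000000000000000000000000000000000000000000000000000000000000000000000000000000000000000000000000000000000000000000000000000000000000000000000000000000000, [cP]),
  (nat_lit 0x8000000000000000000000000000000000000000000000000000000000000000000000000000000000000000000000000000000000000000000000000000000000000000000000000000000000000000000000000000000000000000000000000000000000000000000000000000, [Nat.sub (Nat.pow 2 629) (Nat.pow 2 0), Nat.sub (Nat.pow 2 909) (Nat.pow 2 629), Nat.sub (Nat.pow 2 3136) (Nat.pow 2 909)]),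
  (nat_lit 0x800000000000000000000000000000000000000000000000000000000000000000000000000000000000000000000000000000000000000000000000000000000000000000000000000000000000000000000000000000000000000000000000000000000000, [cP]),
  (nat_lit 0x10000000000000000000000000000000000000000000000000000000000000000000000000000000000000000000000000000000000000000000000000000000000000000000000000000000000000000000000000000000000000000000000000000000000000000000000000000, [cP]),
  (nat_lit 0x20000000000000000000000000000000000000000000000000000000000000000000000000000000000000000000000000000000000000000000000000000000000000000000000000000000000000000000000000000000000000000000000000000000000000000000000000000, [cP]),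
  (nat_lit 0x10000000000000000000000000000000000000000000000000000000000000000000000000000000000000000000000000000000000000000000000000000000000000000000000000000000000000000000000000000000000000000000000000000000000000000000000000000000000, [Nat.sub (Nat.pow 2 154) (Nat.pow 2 0), Nat.sub (Nat.pow 2 629) (Nat.pow 2 154), Nat.sub (Nat.pow 2 654) (Nat.pow 2 629), Nat.sub (Nat.pow 2 754) (Nat.pow 2 654), Nat.sub (Nat.pow 2 1391) (Nat.pow 2 754), Nat.sub (Nat.pow 2 1554) (Nat.pow 2 1391), Nat.sub (Nat.pow 2 3136) (Nat.pow 2 1554)]),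
  (nat_lit 0x400000100000000000000000000000000000000000000000000000000000000000000000000000000000000000000000000000000000000000000000000000000000000000000000000000000000000000000000000000000000000000000000000000000000000000000000000000000000, [cP]),
  (nat_lit 0x800000000000000000000000000000000000000000000000000000000000000000000000000000000000000000000000000000000000000000000000000000000000000000000000000000000000000000000000000000000000000000000000000000000000000000000000000000000000, [cP]),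
  (nat_lit 0x400000000000000000000000000000000000000000000000000000000000000000000000000000000000000000000000000000000000000000000000000000000000000000000000000000000000000000000000000000000000000000000000000000000000000000000000000000000000000000, [cP]),
  (nat_lit 0x18000000000000000000000000000000000000000000000000000000000000000000000000000000000000000000000000000000000000000000000000000000000000000000000000000000000000000000000000000000000000000000000000000000000000000000000000000000000000000000, [cP]),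
  (nat_lit 0x40000000000000000000000000000000000000000000000000000000000000000000000000000000000000000000000000000000000000000000000000000000000000000000000000000000000000000000000000000000000000000000000000000000000000000000000000000000000000000000000000000000000000000000000000000000000000000000000000000000000000000000000000, [cP]),
  (nat_lit 0x800000000000000000000000000000000000000000000000000000000000000000000000000000000000000000000000000000000000000000000000000000000000000000000000000000000000000000000000000000000000000000000000000000000000000000000000000000000000000000000000000000000000000000000000000000000000000000000000000000000000000000000000000, [cP]),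
  (nat_lit 0x80000000000000000000000000000000000000000000000000000000000000000000000000000000000000000000000000000000000000000000000000000000000000000000000000000000000000000000000000000000000000000000000000000000000000000000000000000000000000000000000000000000000000000000000000000000000000000000000000000000000000000000000000000000, [Nat.sub (Nat.pow 2 686) (Nat.pow 2 0), Nat.sub (Nat.pow 2 3136) (Nat.pow 2 686)]),
  (nat_lit 0x10000000000000000000000000000000000000000000000000000000000000000000000000000000000000000000000000000000000000000000000000000000000000000000000000000000000000000000000000000000000000000000000000000000000000000000000000000000000000000000000000000000000000000000000000000000000000000000000000000000000000000000000000000, [cP]),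
  (nat_lit 0x4000000000000000000000000000000000000000000000000000000000000000000000000000000000000000000000000000000000000000000000000000000000000000000000000000000000000000000000000000000000000000000000000000000000000000000000000000000000000000000000000000000000000000000000000000000000000000000000000000000000000000000000000000000000, [cP]),
  (nat_lit 0x20000000000000000000000000000000000000000000000000000000000000000000000000000000000000000000000000000000000000000000000000000000000000000000000000000000000000000000000000000000000000000000000000000000000000000000000000000000000000000000000000000000000000000000000000000000000000000000000000000000000000000000000000000000000, [cP]),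
  (nat_lit 0x40000000000000000000000000000000000000000000000000000000000000000000000000000000000000000000000000000000000000000000000000000000000000000000000000000000000000000000000000000000000000000000000000000000000000000000000000000000000000000000000000000000000000000000000000000000000000000000000000000000000000000000000000000000000, [cP]),
  (nat_lit 0x200000000000000000000000000000000000000000000000000000000000000000000000000000000000000000000000000000000000000000000000000000000000000000000000000000000000000000000000000000000000000000000000000000000000000000000000000000000000000000000000000000000000000000000000000000000000000000000000000000000000000000000000000000000000000, [cP]),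
  (nat_lit 0x800000000000000000000000000000000000000000000000000000000000000000000000000000000000000000000000000000000000000000000000000000000000000000000000000000000000000000000000000000000000000000000000000000000000000000000000000000000000000000000000000000000000000000000000000000000000000000000000000000000000000000000000000000000000000000000000000000000, [Nat.sub (Nat.pow 2 154) (Nat.pow 2 0), Nat.sub (Nat.pow 2 286) (Nat.pow 2 154), Nat.sub (Nat.pow 2 686) (Nat.pow 2 286), Nat.sub (Nat.pow 2 1264) (Nat.pow 2 686), Nat.sub (Nat.pow 2 1529) (Nat.pow 2 1264), Nat.sub (Nat.pow 2 1565) (Nat.pow 2 1529), Nat.sub (Nat.pow 2 3136) (Nat.pow 2 1565)]),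
  (nat_lit 0x100000000000000000000000000000000000000000000000000000000000000000000000000000000000000000000000000000000000000000000000000000000000000000000000000000000000000000000000000000000000000000000000000000000000000000000000000000000000000000000000000000000000000000000000000000000000000000000000000000000000000000000000000000000000000000, [cP]),
  (nat_lit 0x10000000000000000000000000000000000000000000000000000000000000000000000000000000000000000000000000000000000000000000000000000000000000000000000000000000000000000000000000000000000000000000000000000000000000000000000000000000000000000000000000000000000000000000000000000000000000000000000000000000000000000000000000000000000000000000000000000000000, [cP]),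
  (nat_lit 0x40000000000000000000000000000000000000000000000000000000000000000000000000000000000000000000000000000000000000000000000000000000000000000000000000000000000000000000000000000000000000000000000000000000000000000000000000000000000000000000000000000000000000000000000000000000000000000000000000000000000000000000000000000000000000000000000000000000000, [cP]),
  (nat_lit 0x200000000000000000000000000000000000000000000000000000000000000000000000000000000000000000000000000000000000000000000000000000000000000000000000000000000000000000000000000000000000000000000000000000000000000000000000000000000000000000000000000000000000000000000000000000000000000000000000000000000000000000000000000000000000000000000000000000000000, [cP]),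
  (nat_lit 0x80000000000000000000000000000000000000000000000000000000000000000000000000000000000000000000000000000000000000000000000000000000000000000000000000000000000000000000000000000000000000000000000000000000000000000000000000000000000000000000000000000000000000000000000000000000000000000000000000000000000000000000000000000000000000000000000000000000000000000, [Nat.sub (Nat.pow 2 754) (Nat.pow 2 0), Nat.sub (Nat.pow 2 3136) (Nat.pow 2 754)]),
  (nat_lit 0x2000000000000000000000000000000000000000000000000000000000000000000000000000000000000000000000000000000000000000000000000000000000000000000000000000000000000000000000000000000000000000000000000000000000000000000000000000000000000000000000000000000000000000000000000000000000000000000000000000000000000000000000000000000000000000000000000000000000000000000000, [Nat.sub (Nat.pow 2 261) (Nat.pow 2 0), Nat.sub (Nat.pow 2 915) (Nat.pow 2 261), Nat.sub (Nat.pow 2 3136) (Nat.pow 2 915)]),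
  (nat_lit 0x400000800000000000000000000000000000000000000000000000000000000000000000000000000000000000000000000000000000000000000000000000000000000000000000000000000000000000000000000000000000000000000000000000000000000000000000000000000000000000000000000000000000000000000000000000000000000000000000000000000000000000000000000000000000000000000000000000000000000000, [cP]),
  (nat_lit 0x1000000000000000000000000000000000000000000000000000000000000000000000000000000000000000000000000000000000000000000000000000000000000000000000000000000000000000000000000000000000000000000000000000000000000000000000000000000000000000000000000000000000000000000000000000000000000000000000000000000000000000000000000000000000000000000000000000000000000000000000000, [Nat.sub (Nat.pow 2 754) (Nat.pow 2 0), Nat.sub (Nat.pow 2 3136) (Nat.pow 2 754)]),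
  (nat_lit 0x4000000000000000000000000000000000000000000000000000000000000000000000000000000000000000000000000000000000000000000000000000000000000000000000000000000000000000000000000000000000000000000000000000000000000000000000000000000000000000000000000000000000000000000000000000000000000000000000000000000000000000000000000000000000000000000000000000000000000000000000, [cP]),
  (nat_lit 0x10000000000000000000000000000000000000000000000000000000000000000000000000000000000000000000000000000000000000000000000000000000000000000000000000000000000000000000000000000000000000000000000000000000000000000000000000000000000000000000000000000000000000000000000000000000000000000000000000000000000000000000000000000000000000000000000000000000000000000000000000000000000000000, [cP]),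
  (nat_lit 0x800000000000000000000000000000000000000000000000000000000000000000000000000000000000000000000000000000000000000000000000000000000000000000000000000000000000000000000000000000000000000000000000000000000000000000000000000000000000000000000000000000000000000000000000000000000000000000000000000000000000000000000000000000000000000000000000000000000000000000000000000000000000000000, [Nat.sub (Nat.pow 2 629) (Nat.pow 2 0), Nat.sub (Nat.pow 2 1540) (Nat.pow 2 629), Nat.sub (Nat.pow 2 3136) (Nat.pow 2 1540)]),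
  (nat_lit 0x10040000000000000000000000000000000000000000000000000000000000000000000000000000000000000000000000000000000000000000000000000000000000000000000000000000000000000000000000000000000000000000000000000000000000000000000000000000000000000000000000000000000000000000000000000000000000000000000000000000000000000000000000000000000000000000000000000000000000000000000000000000000000000000, [cP]),
  (nat_lit 0x20000000000000000000000000000000000000000000000000000000000000000000000000000000000000000000000000000000000000000000000000000000000000000000000000000000000000000000000000000000000000000000000000000000000000000000000000000000000000000000000000000000000000000000000000000000000000000000000000000000000000000000000000000000000000000000000000000000000000000000000000000000000000000000000, [cP]),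
  (nat_lit 0x1000000000000000000000000000000000000000000000000000000000000000000000000000000000000000000000000000000000000000000000000000000000000000000000000000000000000000000000000000000000000000000000000000000000000000000000000000000000000000000000000000000000000000000000000000000000000000000000000000000000000000000000000000000000000000000000000000000000000000000000000000000000000000000000000, [Nat.sub (Nat.pow 2 311) (Nat.pow 2 0), Nat.sub (Nat.pow 2 1565) (Nat.pow 2 311), Nat.sub (Nat.pow 2 3136) (Nat.pow 2 1565)]),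
  (nat_lit 0x8000000000000000000000000000000000000000000000000000000000000000000000000000000000000000000000000000000000000000000000000000000000000000000000000000000000000000000000000000000000000000000000000000000000000000000000000000000000000000000000000000000000000000000000000000000000000000000000000000000000000000000000000000000000000000000000000000000000000000000000000000000000000000000000000, [Nat.sub (Nat.pow 2 1289) (Nat.pow 2 0), Nat.sub (Nat.pow 2 3136) (Nat.pow 2 1289)]),
  (nat_lit 0x40000000000000000000000000000000000000000000000000000000000000000000000000000000000000000000000000000000000000000000000000000000000000000000000000000000000000000000000000000000000000000000000000000000000000000000000000000000000000000000000000000000000000000000000000000000000000000000000000000000000000000000000000000000000000000000000000000000000000000000000000000000000000000000000000000, [Nat.sub (Nat.pow 2 754) (Nat.pow 2 0), Nat.sub (Nat.pow 2 3136) (Nat.pow 2 754)]),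
  (nat_lit 0x10040000000000000000000000000000000000000000000000000000000000000000000000000000000000000000000000000000000000000000000000000000000000000000000000000000000000000000000000000000000000000000000000000000000000000000000000000000000000000000000000000000000000000000000000000000000000000000000000000000000000000000000000000000000000000000000000000000000000000000000000000000000000000000000000, [cP]),
  (nat_lit 0x800000000000000000000000000000000000000000000000000000000000000000000000000000000000000000000000000000000000000000000000000000000000000000000000000000000000000000000000000000000000000000000000000000000000000000000000000000000000000000000000000000000000000000000000000000000000000000000000000000000000000000000000000000000000000000000000000000000000000000000000000000000000000000000000000000, [Nat.sub (Nat.pow 2 764) (Nat.pow 2 0), Nat.sub (Nat.pow 2 3136) (Nat.pow 2 764)]),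
  (nat_lit 0x180000000000000000000000000000000000000000000000000000000000000000000000000000000000000000000000000000000000000000000000000000000000000000000000000000000000000000000000000000000000000000000000000000000000000000000000000000000000000000000000000000000000000000000000000000000000000000000000000000000000000000000000000000000000000000000000000000000000000000000000000000000000000000000000000000, [cP]),
  (nat_lit 0x1000000000000000000000000000000000000000000000000000000000000000000000000000000000000000000000000000000000000000000000000000000000000000000000000000000000000000000000000000000000000000000000000000000000000000000000000000000000000000000000000000000000000000000000000000000000000000000000000000000000000000000000000000000000000000000000000000000000000000000000000000000000000000000000000000000, [cP]),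
  (nat_lit 0x60000000000000000000000000000000000000000000000000000000000000000000000000000000000000000000000000000000000000000000000000000000000000000000000000000000000000000000000000000000000000000000000000000000000000000000000000000000000000000000000000000000000000000000000000000000000000000000000000000000000000000000000000000000000000000000000000000000000000000000000000000000000000000000000000000000, [cP])]

theorem hp0 : ∀ p ∈ L0, ∀ D2 ∈ p.2, ∃ e,
    search ext94 (Pool.Agent.H74.EGZ.vio sb) G Uc A0 p.1 D2 e = true :=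
  (List.forall_mem_cons.2 ⟨(List.forall_mem_cons.2 ⟨⟨e0, by decide +kernel⟩,
  (List.forall_mem_cons.2 ⟨⟨e1, by decide +kernel⟩,
  (List.forall_mem_cons.2 ⟨⟨e2, by decide +kernel⟩,
  (List.forall_mem_cons.2 ⟨⟨e3, by decide +kernel⟩,
  (List.forall_mem_cons.2 ⟨⟨e4, by decide +kernel⟩,
  (List.forall_mem_cons.2 ⟨⟨e5, by decide +kernel⟩,
  (List.forall_mem_cons.2 ⟨⟨e6, by decide +kernel⟩,
  (List.forall_mem_cons.2 ⟨⟨e7, by decide +kernel⟩,
  (List.forall_mem_cons.2 ⟨⟨e8, by decide +kernel⟩,
  (List.forall_mem_singleton.2 ⟨e9, by decide +kernel⟩)⟩)⟩)⟩)⟩)⟩)⟩)⟩)⟩)⟩),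
  (List.forall_mem_cons.2 ⟨(List.forall_mem_singleton.2 ⟨e10, by decide +kernel⟩),
  (List.forall_mem_cons.2 ⟨(List.forall_mem_singleton.2 ⟨e11, by decide +kernel⟩),
  (List.forall_mem_cons.2 ⟨(List.forall_mem_singleton.2 ⟨e12, by decide +kernel⟩),
  (List.forall_mem_cons.2 ⟨(List.forall_mem_cons.2 ⟨⟨e13, by decide +kernel⟩,
  (List.forall_mem_singleton.2 ⟨e14, by decide +kernel⟩)⟩),
  (List.forall_mem_cons.2 ⟨(List.forall_mem_singleton.2 ⟨e15, by decide +kernel⟩),
  (List.forall_mem_cons.2 ⟨(List.forall_mem_cons.2 ⟨⟨e16, by decide +kernel⟩,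
  (List.forall_mem_singleton.2 ⟨e17, by decide +kernel⟩)⟩),
  (List.forall_mem_cons.2 ⟨(List.forall_mem_singleton.2 ⟨e18, by decide +kernel⟩),
  (List.forall_mem_cons.2 ⟨(List.forall_mem_singleton.2 ⟨e19, by decide +kernel⟩),
  (List.forall_mem_cons.2 ⟨(List.forall_mem_singleton.2 ⟨e20, by decide +kernel⟩),
  (List.forall_mem_cons.2 ⟨(List.forall_mem_cons.2 ⟨⟨e21, by decide +kernel⟩,
  (List.forall_mem_cons.2 ⟨⟨e22, by decide +kernel⟩,
  (List.forall_mem_singleton.2 ⟨.leaf, by decide +kernel⟩)⟩)⟩),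
  (List.forall_mem_cons.2 ⟨(List.forall_mem_singleton.2 ⟨.leaf, by decide +kernel⟩),
  (List.forall_mem_cons.2 ⟨(List.forall_mem_singleton.2 ⟨e25, by decide +kernel⟩),
  (List.forall_mem_cons.2 ⟨(List.forall_mem_cons.2 ⟨⟨e26, by decide +kernel⟩,
  (List.forall_mem_singleton.2 ⟨e27, by decide +kernel⟩)⟩),
  (List.forall_mem_cons.2 ⟨(List.forall_mem_singleton.2 ⟨e28, by decide +kernel⟩),
  (List.forall_mem_cons.2 ⟨(List.forall_mem_cons.2 ⟨⟨e29, by decide +kernel⟩,
  (List.forall_mem_singleton.2 ⟨e30, by decide +kernel⟩)⟩),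
  (List.forall_mem_cons.2 ⟨(List.forall_mem_singleton.2 ⟨e31, by decide +kernel⟩),
  (List.forall_mem_cons.2 ⟨(List.forall_mem_cons.2 ⟨⟨e32, by decide +kernel⟩,
  (List.forall_mem_singleton.2 ⟨e33, by decide +kernel⟩)⟩),
  (List.forall_mem_cons.2 ⟨(List.forall_mem_singleton.2 ⟨e34, by decide +kernel⟩),
  (List.forall_mem_cons.2 ⟨(List.forall_mem_singleton.2 ⟨e35, by decide +kernel⟩),
  (List.forall_mem_cons.2 ⟨(List.forall_mem_cons.2 ⟨⟨e36, by decide +kernel⟩,
  (List.forall_mem_singleton.2 ⟨e37, by decide +kernel⟩)⟩),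
  (List.forall_mem_cons.2 ⟨(List.forall_mem_cons.2 ⟨⟨e38, by decide +kernel⟩,
  (List.forall_mem_cons.2 ⟨⟨e39, by decide +kernel⟩,
  (List.forall_mem_singleton.2 ⟨.leaf, by decide +kernel⟩)⟩)⟩),
  (List.forall_mem_cons.2 ⟨(List.forall_mem_singleton.2 ⟨e41, by decide +kernel⟩),
  (List.forall_mem_cons.2 ⟨(List.forall_mem_singleton.2 ⟨e42, by decide +kernel⟩),
  (List.forall_mem_cons.2 ⟨(List.forall_mem_singleton.2 ⟨.leaf, by decide +kernel⟩),
  (List.forall_mem_cons.2 ⟨(List.forall_mem_cons.2 ⟨⟨e44, by decide +kernel⟩,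
  (List.forall_mem_cons.2 ⟨⟨e45, by decide +kernel⟩,
  (List.forall_mem_singleton.2 ⟨.leaf, by decide +kernel⟩)⟩)⟩),
  (List.forall_mem_cons.2 ⟨(List.forall_mem_cons.2 ⟨⟨e47, by decide +kernel⟩,
  (List.forall_mem_singleton.2 ⟨e48, by decide +kernel⟩)⟩),
  (List.forall_mem_cons.2 ⟨(List.forall_mem_cons.2 ⟨⟨e49, by decide +kernel⟩,
  (List.forall_mem_singleton.2 ⟨e50, by decide +kernel⟩)⟩),
  (List.forall_mem_cons.2 ⟨(List.forall_mem_singleton.2 ⟨e51, by decide +kernel⟩),
  (List.forall_mem_cons.2 ⟨(List.forall_mem_singleton.2 ⟨e52, by decide +kernel⟩),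
  (List.forall_mem_cons.2 ⟨(List.forall_mem_singleton.2 ⟨e53, by decide +kernel⟩),
  (List.forall_mem_cons.2 ⟨(List.forall_mem_singleton.2 ⟨e54, by decide +kernel⟩),
  (List.forall_mem_cons.2 ⟨(List.forall_mem_singleton.2 ⟨e55, by decide +kernel⟩),
  (List.forall_mem_cons.2 ⟨(List.forall_mem_cons.2 ⟨⟨e56, by decide +kernel⟩,
  (List.forall_mem_singleton.2 ⟨e57, by decide +kernel⟩)⟩),
  (List.forall_mem_cons.2 ⟨(List.forall_mem_cons.2 ⟨⟨e58, by decide +kernel⟩,
  (List.forall_mem_singleton.2 ⟨e59, by decide +kernel⟩)⟩),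
  (List.forall_mem_cons.2 ⟨(List.forall_mem_singleton.2 ⟨e60, by decide +kernel⟩),
  (List.forall_mem_cons.2 ⟨(List.forall_mem_singleton.2 ⟨e61, by decide +kernel⟩),
  (List.forall_mem_cons.2 ⟨(List.forall_mem_cons.2 ⟨⟨e62, by decide +kernel⟩,
  (List.forall_mem_cons.2 ⟨⟨e63, by decide +kernel⟩,
  (List.forall_mem_singleton.2 ⟨e64, by decide +kernel⟩)⟩)⟩),
  (List.forall_mem_cons.2 ⟨(List.forall_mem_singleton.2 ⟨e65, by decide +kernel⟩),
  (List.forall_mem_cons.2 ⟨(List.forall_mem_singleton.2 ⟨e66, by decide +kernel⟩),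
  (List.forall_mem_cons.2 ⟨(List.forall_mem_cons.2 ⟨⟨e67, by decide +kernel⟩,
  (List.forall_mem_cons.2 ⟨⟨e68, by decide +kernel⟩,
  (List.forall_mem_singleton.2 ⟨.leaf, by decide +kernel⟩)⟩)⟩),
  (List.forall_mem_cons.2 ⟨(List.forall_mem_singleton.2 ⟨e70, by decide +kernel⟩),
  (List.forall_mem_cons.2 ⟨(List.forall_mem_singleton.2 ⟨.leaf, by decide +kernel⟩),
  (List.forall_mem_cons.2 ⟨(List.forall_mem_cons.2 ⟨⟨e72, by decide +kernel⟩,
  (List.forall_mem_cons.2 ⟨⟨e73, by decide +kernel⟩,
  (List.forall_mem_singleton.2 ⟨e74, by decide +kernel⟩)⟩)⟩),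
  (List.forall_mem_cons.2 ⟨(List.forall_mem_singleton.2 ⟨e75, by decide +kernel⟩),
  (List.forall_mem_cons.2 ⟨(List.forall_mem_singleton.2 ⟨e76, by decide +kernel⟩),
  (List.forall_mem_cons.2 ⟨(List.forall_mem_singleton.2 ⟨e77, by decide +kernel⟩),
  (List.forall_mem_cons.2 ⟨(List.forall_mem_cons.2 ⟨⟨e78, by decide +kernel⟩,
  (List.forall_mem_cons.2 ⟨⟨e79, by decide +kernel⟩,
  (List.forall_mem_cons.2 ⟨⟨e80, by decide +kernel⟩,
  (List.forall_mem_cons.2 ⟨⟨e81, by decide +kernel⟩,
  (List.forall_mem_cons.2 ⟨⟨e82, by decide +kernel⟩,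
  (List.forall_mem_cons.2 ⟨⟨e83, by decide +kernel⟩,
  (List.forall_mem_singleton.2 ⟨e84, by decide +kernel⟩)⟩)⟩)⟩)⟩)⟩)⟩),
  (List.forall_mem_cons.2 ⟨(List.forall_mem_singleton.2 ⟨e85, by decide +kernel⟩),
  (List.forall_mem_cons.2 ⟨(List.forall_mem_singleton.2 ⟨e86, by decide +kernel⟩),
  (List.forall_mem_cons.2 ⟨(List.forall_mem_singleton.2 ⟨e87, by decide +kernel⟩),
  (List.forall_mem_cons.2 ⟨(List.forall_mem_singleton.2 ⟨e88, by decide +kernel⟩),
  (List.forall_mem_cons.2 ⟨(List.forall_mem_singleton.2 ⟨e89, by decide +kernel⟩),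
  (List.forall_mem_cons.2 ⟨(List.forall_mem_singleton.2 ⟨e90, by decide +kernel⟩),
  (List.forall_mem_cons.2 ⟨(List.forall_mem_cons.2 ⟨⟨e91, by decide +kernel⟩,
  (List.forall_mem_singleton.2 ⟨e92, by decide +kernel⟩)⟩),
  (List.forall_mem_cons.2 ⟨(List.forall_mem_singleton.2 ⟨e93, by decide +kernel⟩),
  (List.forall_mem_cons.2 ⟨(List.forall_mem_singleton.2 ⟨e94, by decide +kernel⟩),
  (List.forall_mem_cons.2 ⟨(List.forall_mem_singleton.2 ⟨e95, by decide +kernel⟩),
  (List.forall_mem_cons.2 ⟨(List.forall_mem_singleton.2 ⟨e96, by decide +kernel⟩),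
  (List.forall_mem_cons.2 ⟨(List.forall_mem_singleton.2 ⟨e97, by decide +kernel⟩),
  (List.forall_mem_cons.2 ⟨(List.forall_mem_cons.2 ⟨⟨e98, by decide +kernel⟩,
  (List.forall_mem_cons.2 ⟨⟨e99, by decide +kernel⟩,
  (List.forall_mem_cons.2 ⟨⟨e100, by decide +kernel⟩,
  (List.forall_mem_cons.2 ⟨⟨e101, by decide +kernel⟩,
  (List.forall_mem_cons.2 ⟨⟨e102, by decide +kernel⟩,
  (List.forall_mem_cons.2 ⟨⟨e103, by decide +kernel⟩,
  (List.forall_mem_singleton.2 ⟨.leaf, by decide +kernel⟩)⟩)⟩)⟩)⟩)⟩)⟩),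
  (List.forall_mem_cons.2 ⟨(List.forall_mem_singleton.2 ⟨e105, by decide +kernel⟩),
  (List.forall_mem_cons.2 ⟨(List.forall_mem_singleton.2 ⟨e106, by decide +kernel⟩),
  (List.forall_mem_cons.2 ⟨(List.forall_mem_singleton.2 ⟨e107, by decide +kernel⟩),
  (List.forall_mem_cons.2 ⟨(List.forall_mem_singleton.2 ⟨e108, by decide +kernel⟩),
  (List.forall_mem_cons.2 ⟨(List.forall_mem_cons.2 ⟨⟨.leaf, by decide +kernel⟩,
  (List.forall_mem_singleton.2 ⟨e110, by decide +kernel⟩)⟩),
  (List.forall_mem_cons.2 ⟨(List.forall_mem_cons.2 ⟨⟨e111, by decide +kernel⟩,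
  (List.forall_mem_cons.2 ⟨⟨e112, by decide +kernel⟩,
  (List.forall_mem_singleton.2 ⟨e113, by decide +kernel⟩)⟩)⟩),
  (List.forall_mem_cons.2 ⟨(List.forall_mem_singleton.2 ⟨e114, by decide +kernel⟩),
  (List.forall_mem_cons.2 ⟨(List.forall_mem_cons.2 ⟨⟨e115, by decide +kernel⟩,
  (List.forall_mem_singleton.2 ⟨e116, by decide +kernel⟩)⟩),
  (List.forall_mem_cons.2 ⟨(List.forall_mem_singleton.2 ⟨.leaf, by decide +kernel⟩),
  (List.forall_mem_cons.2 ⟨(List.forall_mem_singleton.2 ⟨e118, by decide +kernel⟩),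
  (List.forall_mem_cons.2 ⟨(List.forall_mem_cons.2 ⟨⟨e119, by decide +kernel⟩,
  (List.forall_mem_cons.2 ⟨⟨e120, by decide +kernel⟩,
  (List.forall_mem_singleton.2 ⟨e121, by decide +kernel⟩)⟩)⟩),
  (List.forall_mem_cons.2 ⟨(List.forall_mem_singleton.2 ⟨e122, by decide +kernel⟩),
  (List.forall_mem_cons.2 ⟨(List.forall_mem_singleton.2 ⟨e123, by decide +kernel⟩),
  (List.forall_mem_cons.2 ⟨(List.forall_mem_cons.2 ⟨⟨e124, by decide +kernel⟩,
  (List.forall_mem_cons.2 ⟨⟨e125, by decide +kernel⟩,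
  (List.forall_mem_singleton.2 ⟨e126, by decide +kernel⟩)⟩)⟩),
  (List.forall_mem_cons.2 ⟨(List.forall_mem_cons.2 ⟨⟨e127, by decide +kernel⟩,
  (List.forall_mem_singleton.2 ⟨e128, by decide +kernel⟩)⟩),
  (List.forall_mem_cons.2 ⟨(List.forall_mem_cons.2 ⟨⟨e129, by decide +kernel⟩,
  (List.forall_mem_singleton.2 ⟨e130, by decide +kernel⟩)⟩),
  (List.forall_mem_cons.2 ⟨(List.forall_mem_singleton.2 ⟨e131, by decide +kernel⟩),
  (List.forall_mem_cons.2 ⟨(List.forall_mem_cons.2 ⟨⟨e132, by decide +kernel⟩,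
  (List.forall_mem_singleton.2 ⟨e133, by decide +kernel⟩)⟩),
  (List.forall_mem_cons.2 ⟨(List.forall_mem_singleton.2 ⟨e134, by decide +kernel⟩),
  (List.forall_mem_cons.2 ⟨(List.forall_mem_singleton.2 ⟨e135, by decide +kernel⟩),
  (List.forall_mem_singleton.2 (List.forall_mem_singleton.2 ⟨e136, by decide +kernel⟩))⟩)⟩)⟩)⟩)⟩)⟩)⟩)⟩)⟩)⟩)⟩)⟩)⟩)⟩)⟩)⟩)⟩)⟩)⟩)⟩)⟩)⟩)⟩)⟩)⟩)⟩)⟩)⟩)⟩)⟩)⟩)⟩)⟩)⟩)⟩)⟩)⟩)⟩)⟩)⟩)⟩)⟩)⟩)⟩)⟩)⟩)⟩)⟩)⟩)⟩)⟩)⟩)⟩)⟩)⟩)⟩)⟩)⟩)⟩)⟩)⟩)⟩)⟩)⟩)⟩)⟩)⟩)⟩)⟩)⟩)⟩)⟩)⟩)⟩)⟩)⟩)⟩)⟩)⟩)⟩)⟩)

end

end Pool.Agent.H21.EGZ.S15
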