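import Pool.Agent.H21.EGZ.D16

/-!
# Stage 16 : search, part 0
-/

set_option autoImplicit false
set_option maxRecDepth 100000

namespace Pool.Agent.H21.EGZ.S16

noncomputable section

open Pool.Agent.H74.EGZ Pool.Agent.H94.Lift

/-- refutations 0 -/
def e0 : EX := (.node (.node (.node .leaf (nat_lit 2668857243803) (.br (nat_lit 0) (.cons (.br (nat_lit 2) (.cons (.rel (nat_lit 71565318)) .nil)) .nil)) .leaf) (nat_lit 5374505957678) (.br (nat_lit 0) (.cons (.br (nat_lit 2) (.cons (.rel (nat_lit 71369280)) .nil)) .nil)) (.node .leaf (nat_lit 5374508527871) (.br (nat_lit 0) (.cons (.br (nat_lit 2) (.cons (.rel (nat_lit 71565318)) .nil)) .nil)) .leaf)) (nat_lit 5374508774902) (.br (nat_lit 0) (.cons (.br (nat_lit 4) (.cons (.rel (nat_lit 2157970497)) .nil)) .nil)) (.node (.node .leaf (nat_lit 5374686007597) (.br (nat_lit 0) (.cons (.br (nat_lit 2) (.cons (.rel (nat_lit 75501570)) .nil)) .nil)) .leaf) (nat_lit 5374687285549) (.br (nat_lit 1) (.cons (.br (nat_lit 4) (.cons (.rel (nat_lit 2181039360)) .nil))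 .nil)) (.node .leaf (nat_lit 5374687344895) (.br (nat_lit 3) (.cons (.br (nat_lit 6) (.cons (.rel (nat_lit 17448374784)) .nil)) .nil)) .leaf)))

/-- refutations 1 -/
def e1 : EX := (.node (.node .leaf (nat_lit 6448430953199) (.br (nat_lit 0) (.cons (.br (nat_lit 1) (.cons (.rel (nat_lit 20988432)) .nil)) .nil)) .leaf) (nat_lit 13102379677174) (.br (nat_lit 0) (.cons (.br (nat_lit 2) (.cons (.rel (nat_lit 71369280)) .nil)) .nil)) .leaf)

/-- refutations 2 -/
def e2 : EX := (.node (.node .leaf (nat_lit 88003986364422) (.br (nat_lit 0) (.cons (.br (nat_lit 2) (.cons (.rel (nat_lit 71565318)) .nil)) .nil)) .leaf) (nat_lit 93330290032825) (.br (nat_lit 0) (.cons (.br (nat_lit 1) (.cons (.rel (nat_lit 25251840)) .nil)) .nil)) .leaf)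

/-- refutations 3 -/
def e3 : EX := (.node (.node (.node (.node .leaf (nat_lit 213512194874754) (.br (nat_lit 1) (.cons (.br (nat_lit 3) (.cons (.rel (nat_lit 285495360)) .nil)) .nil)) .leaf) (nat_lit 216478320648822) (.br (nat_lit 0) (.cons (.br (nat_lit 3) (.cons (.rel (nat_lit 272891922)) .nil)) .nil)) .leaf) (nat_lit 216478642330855) (.br (nat_lit 3) (.cons (.br (nat_lit 4) (.cons (.rel (nat_lit 1342245396)) .nil)) .nil)) (.node .leaf (nat_lit 216916729099546) (.br (nat_lit 0) (.cons (.br (nat_lit 5) (.cons (.rel (nat_lit 4299182082)) .nil)) .nil)) .leaf)) (nat_lit 218857731251732) (.br (nat_lit 0) (.cons (.br (nat_lit 3) (.cons (.rel (nat_lit 272928768)) .nil)) .nil)) (.node (.node .leaf (nat_lit 218857732533101) (.br (nat_lit 0) (.cons (.br (nat_lit 2) (.cons (.rel (nat_lit 72369153)) .nil)) .nil)) .leaf) (nat_lit 218860341678856) (.br (nat_lit 0) (.cons (.br (nat_lit 2) (.cons (.rel (nat_lit 71590914)) .nil)) .nil)) (.node .leaf (nat_lit 224306360210945) (.br (nat_lit 0) (.cons (.br (nat_lit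 2) (.cons (.rel (nat_lit 75497541)) .nil)) .nil)) .leaf)))

/-- refutations 5 -/
def e5 : EX := (.node (.node (.node (.node .leaf (nat_lit 879610560616449) (.br (nat_lit 0) (.cons (.br (nat_lit 2) (.cons (.rel (nat_lit 71566368)) .nil)) .nil)) .leaf) (nat_lit 880689470079861) (.br (nat_lit 0) (.cons (.br (nat_lit 3) (.cons (.rel (nat_lit 272892936)) .nil)) .nil)) .leaf) (nat_lit 880689470343299) (.br (nat_lit 0) (.cons (.br (nat_lit 1) (.cons (.rel (nat_lit 21266433)) .nil)) .nil)) (.node (.node .leaf (nat_lit 880689472340145) (.br (nat_lit 0) (.cons (.br (nat_lit 1) (.cons (.rel (nat_lit 22020114)) .nil)) .nil)) .leaf) (nat_lit 881172806454654) (.br (nat_lit 1) (.cons (.br (nat_lit 3) (.cons (.rel (nat_lit 553668624)) .nil)) .nil)) .leaf)) (nat_lit 882015031073649) (.br (nat_lit 0) (.cons (.br (nat_lit 2) (.cons (.rel (nat_lit 71369280)) .nil)) .nil)) (.node (.node (.node .leaf (nat_lit 882015032049048) (.br (nat_lit 1) (.cons (.br (nat_lit 3) (.cons (.br (nat_lit 5) (.cons (.rel (nat_lit 4563403812))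 .nil)) .nil)) .nil)) .leaf) (nat_lit 882017232775798) (.br (nat_lit 2) (.cons (.br (nat_lit 3) (.cons (.rel (nat_lit 603979812)) .nil)) .nil)) .leaf) (nat_lit 884978223720508) (.br (nat_lit 0) (.cons (.br (nat_lit 2) (.cons (.rel (nat_lit 71712768)) .nil)) .nil)) (.node .leaf (nat_lit 884983254589725) (.br (nat_lit 4) (.cons (.br (nat_lit 5) (.cons (.rel (nat_lit 5368714245)) (.cons (.rel (nat_lit 5368727553)) .nil))) .nil)) .leaf)))

/-- refutations 6 -/
def e6 : EX := (.node (.node (.node (.node .leaf (nat_lit 887125601129700) (.br (nat_lit 0) (.cons (.br (nat_lit 1) (.cons (.rel (nat_lit 25300998)) .nil)) .nil)) .leaf) (nat_lit 887126275644202) (.br (nat_lit 2) (.cons (.br (nat_lit 4) (.cons (.rel (nat_lit 1207959648)) .nil)) .nil)) (.node .leaf (nat_lit 887128852329999) (.br (nat_lit 0) (.cons (.br (nat_lit 3) (.cons (.rel (nat_lit 272891922)) .nil)) .nil)) .leaf)) (nat_lit 887128852994049) (.br (nat_lit 0) (.cons (.br (nat_lit 2) (.cons (.rel (nat_lit 72368148)) .nil)) .nil)) (.node (.node .leaf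 (nat_lit 887131788342799) (.br (nat_lit 0) (.cons (.br (nat_lit 2) (.cons (.rel (nat_lit 75563028)) .nil)) .nil)) .leaf) (nat_lit 887131789006849) (.br (nat_lit 0) (.cons (.br (nat_lit 2) (.cons (.rel (nat_lit 71566368)) .nil)) .nil)) (.node .leaf (nat_lit 887131922560532) (.br (nat_lit 2) (.cons (.br (nat_lit 3) (.cons (.rel (nat_lit 336601104)) .nil)) .nil)) .leaf))) (nat_lit 887228680976660) (.br (nat_lit 1) (.cons (.br (nat_lit 2) (.cons (.rel (nat_lit 84185088)) .nil)) .nil)) (.node (.node (.node .leaf (nat_lit 887649586370841) (.br (nat_lit 1) (.cons (.br (nat_lit 4) (.cons (.rel (nat_lit 2164277250)) .nil)) .nil)) .leaf) (nat_lit 887649587725225) (.br (nat_lit 0) (.cons (.br (nat_lit 2) (.cons (.rel (nat_lit 72368148)) .nil)) .nil)) (.node .leaf (nat_lit 887649587776894) (.br (nat_lit 0) (.cons (.br (nat_lit 4) (.cons (.rel (nat_lit 2151695376)) .nil)) .nil)) .leaf)) (nat_lit 887652779637621) (.br (nat_lit 2) (.cons (.br (nat_lit 4) (.cons (.rel (nat_lit 1140852288)) .nil)) .nil)) (.node (.node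 .leaf (nat_lit 887652780387110) (.br (nat_lit 1) (.cons (.br (nat_lit 2) (.cons (.rel (nat_lit 84935745)) .nil)) .nil)) .leaf) (nat_lit 887652780387560) (.br (nat_lit 2) (.cons (.br (nat_lit 3) (.cons (.rel (nat_lit 603979812)) .nil)) .nil)) .leaf)))

/-- refutations 7 -/
def e7 : EX := (.node (.node (.node (.node .leaf (nat_lit 890395467186457) (.br (nat_lit 0) (.cons (.br (nat_lit 1) (.cons (.rel (nat_lit 37765248)) .nil)) .nil)) .leaf) (nat_lit 890395468262182) (.br (nat_lit 1) (.cons (.br (nat_lit 2) (.cons (.rel (nat_lit 150996096)) .nil)) .nil)) (.node .leaf (nat_lit 891701768693117) (.br (nat_lit 2) (.cons (.br (nat_lit 3) (.cons (.rel (nat_lit 335544834)) .nil)) .nil)) .leaf)) (nat_lit 892557689462914) (.br (nat_lit 0) (.cons (.br (nat_lit 1) (.cons (.rel (nat_lit 37765248)) .nil)) .nil)) (.node (.node .leaf (nat_lit 892560150142180) (.br (nat_lit 0) (.cons (.br (nat_lit 1) (.cons (.rel (nat_lit 22020114)) .nil)) .nil)) .leaf) (nat_lit 892774378311162) (.br (nat_lit 3) (.cons (.br (nat_lit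 4) (.cons (.rel (nat_lit 1342509072)) .nil)) .nil)) (.node .leaf (nat_lit 892774878619704) (.br (nat_lit 4) (.cons (.br (nat_lit 5) (.cons (.rel (nat_lit 5368774689)) .nil)) .nil)) .leaf))) (nat_lit 892774878619929) (.br (nat_lit 0) (.cons (.br (nat_lit 3) (.cons (.rel (nat_lit 272638464)) .nil)) .nil)) (.node (.node (.node .leaf (nat_lit 892774878862118) (.br (nat_lit 0) (.cons (.br (nat_lit 1) (.cons (.rel (nat_lit 21038592)) .nil)) .nil)) .leaf) (nat_lit 892774879849704) (.br (nat_lit 0) (.cons (.br (nat_lit 4) (.cons (.rel (nat_lit 2151679044)) (.cons (.rel (nat_lit 1079067648)) .nil))) .nil)) (.node .leaf (nat_lit 892774880464404) (.br (nat_lit 0) (.cons (.br (nat_lit 1) (.cons (.rel (nat_lit 21238848)) .nil)) .nil)) .leaf)) (nat_lit 892774881627642) (.br (nat_lit 0) (.cons (.br (nat_lit 2) (.cons (.rel (nat_lit 75497541)) (.cons (.rel (nat_lit 139984896)) .nil))) .nil)) (.node (.node .leaf (nat_lit 892809316876550) (.br (nat_lit 0) (.cons (.br (nat_lit 1) (.cons (.rel (nat_lit 22020114)) .nil))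 .nil)) .leaf) (nat_lit 892809316905236) (.br (nat_lit 0) (.cons (.br (nat_lit 1) (.cons (.rel (nat_lit 37749777)) .nil)) .nil)) (.node .leaf (nat_lit 892929575989524) (.br (nat_lit 3) (.cons (.br (nat_lit 5) (.cons (.rel (nat_lit 9126805509)) .nil)) .nil)) .leaf))))

/-- refutations 9 -/
def e9 : EX := (.node (.node (.node (.node .leaf (nat_lit 633419163879460) (.br (nat_lit 2) (.cons (.br (nat_lit 3) (.cons (.rel (nat_lit 336625665)) .nil)) .nil)) .leaf) (nat_lit 634610963044503) (.br (nat_lit 2) (.cons (.br (nat_lit 3) (.cons (.rel (nat_lit 336674820)) .nil)) .nil)) (.node .leaf (nat_lit 634610965744376) (.br (nat_lit 1) (.cons (.br (nat_lit 5) (.cons (.rel (nat_lit 4311748674)) .nil)) .nil)) .leaf)) (nat_lit 639120813845156) (.br (nat_lit 0) (.cons (.br (nat_lit 1) (.cons (.rel (nat_lit 21238848)) .nil)) .nil)) (.node (.node .leaf (nat_lit 639764821181101) (.br (nat_lit 0) (.cons (.br (nat_lit 1) (.cons (.rel (nat_lit 21038592)) .nil)) .nil)) .leaf) (nat_lit 640199341970184) (.br (nat_lit 0) (.cons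 (.br (nat_lit 2) (.cons (.rel (nat_lit 71565318)) .nil)) .nil)) (.node .leaf (nat_lit 641145329488784) (.br (nat_lit 0) (.cons (.br (nat_lit 2) (.cons (.rel (nat_lit 138420225)) .nil)) .nil)) .leaf))) (nat_lit 646264929173766) (.br (nat_lit 0) (.cons (.br (nat_lit 1) (.cons (.rel (nat_lit 21038592)) .nil)) .nil)) (.node (.node (.node .leaf (nat_lit 646264930006274) (.br (nat_lit 0) (.cons (.br (nat_lit 1) (.cons (.rel (nat_lit 25241604)) .nil)) .nil)) .leaf) (nat_lit 646264931726817) (.br (nat_lit 1) (.cons (.br (nat_lit 2) (.cons (.rel (nat_lit 85001232)) .nil)) .nil)) (.node .leaf (nat_lit 646269542908166) (.br (nat_lit 0) (.cons (.br (nat_lit 2) (.cons (.rel (nat_lit 71566368)) .nil)) .nil)) .leaf)) (nat_lit 646269544203116) (.br (nat_lit 0) (.cons (.br (nat_lit 1) (.cons (.rel (nat_lit 21241872)) .nil)) .nil)) (.node (.node .leaf (nat_lit 646269545461217) (.br (nat_lit 2) (.cons (.br (nat_lit 3) (.cons (.rel (nat_lit 335544834)) .nil)) .nil)) .leaf) (nat_lit 646518712284398) (.br (nat_lit 6)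 (.cons (.br (nat_lit 0) (.cons (.rel (nat_lit 17185112097)) (.cons (.rel (nat_lit 34363932693)) .nil))) .nil)) (.node .leaf (nat_lit 646518712344065) (.br (nat_lit 0) (.cons (.br (nat_lit 3) (.cons (.rel (nat_lit 545263872)) .nil)) .nil)) .leaf))))

/-- refutations 10 -/
def e10 : EX := (.node (.node (.node (.node (.node .leaf (nat_lit 2200098152151970) (.br (nat_lit 0) (.cons (.br (nat_lit 4) (.cons (.rel (nat_lit 2151679044)) .nil)) .nil)) .leaf) (nat_lit 2200098153739125) (.br (nat_lit 1) (.cons (.br (nat_lit 2) (.cons (.rel (nat_lit 84938769)) .nil)) .nil)) .leaf) (nat_lit 2200526599272575) (.br (nat_lit 4) (.cons (.br (nat_lit 6) (.cons (.rel (nat_lit 18253873233)) (.cons (.rel (nat_lit 18253873233)) .nil))) .nil)) (.node .leaf (nat_lit 2200526599580929) (.br (nat_lit 0) (.cons (.br (nat_lit 2) (.cons (.rel (nat_lit 71566368)) .nil)) .nil)) .leaf)) (nat_lit 2200526600264617) (.br (nat_lit 0) (.cons (.br (nat_lit 2) (.cons (.rel (nat_lit 71712768)) .nil)) .nil)) (.node (.node .leaf (nat_lit 2200526600860424)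 (.br (nat_lit 0) (.cons (.br (nat_lit 1) (.cons (.rel (nat_lit 37818432)) .nil)) .nil)) .leaf) (nat_lit 2200527019010985) (.br (nat_lit 0) (.cons (.br (nat_lit 2) (.cons (.rel (nat_lit 71369280)) .nil)) .nil)) (.node .leaf (nat_lit 2200527021214572) (.br (nat_lit 0) (.cons (.br (nat_lit 6) (.cons (.rel (nat_lit 17184346113)) (.cons (.rel (nat_lit 17184346113)) .nil))) .nil)) .leaf))) (nat_lit 2200530164738224) (.br (nat_lit 1) (.cons (.br (nat_lit 6) (.cons (.rel (nat_lit 17196712449)) .nil)) .nil)) (.node (.node (.node .leaf (nat_lit 2200532920140661) (.br (nat_lit 3) (.cons (.br (nat_lit 4) (.cons (.rel (nat_lit 1342439556)) .nil)) .nil)) .leaf) (nat_lit 2200533016864944) (.br (nat_lit 2) (.cons (.br (nat_lit 4) (.cons (.rel (nat_lit 1141195776)) .nil)) .nil)) (.node .leaf (nat_lit 2200587718875263) (.br (nat_lit 0) (.cons (.br (nat_lit 3) (.cons (.rel (nat_lit 276842496)) .nil)) .nil)) .leaf)) (nat_lit 2200590551422338) (.br (nat_lit 2) (.cons (.br (nat_lit 4) (.cons (.rel (nat_lit 1140852288))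 .nil)) .nil)) (.node (.node .leaf (nat_lit 2200591890075006) (.br (nat_lit 0) (.cons (.br (nat_lit 1) (.cons (.rel (nat_lit 20976129)) .nil)) .nil)) .leaf) (nat_lit 2200593148927358) (.br (nat_lit 0) (.cons (.br (nat_lit 2) (.cons (.rel (nat_lit 72368148)) .nil)) .nil)) (.node .leaf (nat_lit 2200622079997155) (.br (nat_lit 0) (.cons (.br (nat_lit 1) (.cons (.rel (nat_lit 21315588)) .nil)) .nil)) .leaf))))

/-- refutations 11 -/
def e11 : EX := (.node (.node (.node (.node (.node .leaf (nat_lit 2204394796341375) (.br (nat_lit 1) (.cons (.br (nat_lit 3) (.cons (.rel (nat_lit 286326786)) .nil)) .nil)) .leaf) (nat_lit 2204395216540900) (.br (nat_lit 4) (.cons (.br (nat_lit 5) (.cons (.rel (nat_lit 5368709202)) .nil)) .nil)) .leaf) (nat_lit 2204395216559490) (.br (nat_lit 0) (.cons (.br (nat_lit 6) (.cons (.rel (nat_lit 17184408576)) .nil)) .nil)) (.node (.node .leaf (nat_lit 2204395216796274) (.br (nat_lit 4) (.cons (.br (nat_lit 6) (.cons (.rel (nat_lit 18253873233)) (.cons (.rel (nat_lit 35433497664))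 (.cons (.rel (nat_lit 18253938720)) (.cons (.rel (nat_lit 19327356930)) .nil))))) .nil)) .leaf) (nat_lit 2204395216797174) (.br (nat_lit 4) (.cons (.br (nat_lit 3) (.cons (.rel (nat_lit 1610616849)) (.cons (.rel (nat_lit 1342506048)) (.cons (.rel (nat_lit 1342506048)) (.cons (.rel (nat_lit 1610613825)) .nil))))) .nil)) .leaf)) (nat_lit 2204395217052399) (.br (nat_lit 4) (.cons (.br (nat_lit 6) (.cons (.rel (nat_lit 18253878276)) .nil)) .nil)) (.node (.node (.node .leaf (nat_lit 2204395217163495) (.br (nat_lit 3) (.cons (.br (nat_lit 4) (.cons (.rel (nat_lit 1343227920)) .nil)) .nil)) .leaf) (nat_lit 2204395217163650) (.br (nat_lit 6) (.cons (.br (nat_lit 0) (.cons (.rel (nat_lit 17188520256)) (.cons (.rel (nat_lit 17184068112)) (.cons (.rel (nat_lit 17184342084)) .nil)))) .nil)) .leaf) (nat_lit 2204395217871103) (.br (nat_lit 0) (.cons (.br (nat_lit 1) (.cons (.rel (nat_lit 21238848)) .nil)) .nil)) (.node (.node .leaf (nat_lit 2204395217872374) (.br (nat_lit 0) (.cons (.br (nat_lit 2) (.cons (.rel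 (nat_lit 71369280)) (.cons (.rel (nat_lit 71565318)) (.cons (.rel (nat_lit 71566368)) .nil)))) (.cons (.br (nat_lit 2) (.cons (.rel (nat_lit 71565318)) (.cons (.rel (nat_lit 71566368)) (.cons (.rel (nat_lit 77856768)) .nil)))) .nil))) .leaf) (nat_lit 2204395217945828) (.br (nat_lit 4) (.cons (.br (nat_lit 6) (.cons (.rel (nat_lit 18254663760)) .nil)) .nil)) .leaf))) (nat_lit 2204395218076899) (.br (nat_lit 2) (.cons (.br (nat_lit 3) (.cons (.rel (nat_lit 603980817)) .nil)) .nil)) (.node (.node (.node (.node .leaf (nat_lit 2204395218084725) (.br (nat_lit 1) (.cons (.br (nat_lit 4) (.cons (.rel (nat_lit 1107378180)) .nil)) .nil)) .leaf) (nat_lit 2204395218138614) (.br (nat_lit 2) (.cons (.br (nat_lit 3) (.cons (.rel (nat_lit 402981120)) .nil)) .nil)) .leaf) (nat_lit 2204395218402690) (.br (nat_lit 2) (.cons (.br (nat_lit 1) (.cons (.rel (nat_lit 83894784)) (.cons (.rel (nat_lit 100665408)) .nil))) .nil)) (.node (.node .leaf (nat_lit 2204395636594050) (.br (nat_lit 0) (.cons (.br (nat_lit 1) (.cons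 (.rel (nat_lit 22056960)) .nil)) .nil)) .leaf) (nat_lit 2204397762607359) (.br (nat_lit 1) (.cons (.br (nat_lit 4) (.cons (.rel (nat_lit 2164277250)) .nil)) .nil)) .leaf)) (nat_lit 2204709898717844) (.br (nat_lit 2) (.cons (.br (nat_lit 5) (.cons (.rel (nat_lit 8658223104)) .nil)) .nil)) (.node (.node (.node .leaf (nat_lit 2204824609957341) (.br (nat_lit 0) (.cons (.br (nat_lit 1) (.cons (.rel (nat_lit 22041681)) .nil)) .nil)) .leaf) (nat_lit 2205898454326658) (.br (nat_lit 0) (.cons (.br (nat_lit 1) (.cons (.rel (nat_lit 25251840)) .nil)) .nil)) .leaf) (nat_lit 2205898873346075) (.br (nat_lit 1) (.cons (.br (nat_lit 2) (.cons (.rel (nat_lit 84934740)) .nil)) .nil)) (.node (.node .leaf (nat_lit 2205898874832258) (.br (nat_lit 0) (.cons (.br (nat_lit 2) (.cons (.rel (nat_lit 71569536)) .nil)) .nil)) .leaf) (nat_lit 2205901000268582) (.br (nat_lit 0) (.cons (.br (nat_lit 1) (.cons (.rel (nat_lit 25165848)) .nil)) .nil)) .leaf))))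

/-- refutations 12 -/
def e12 : EX := (.node (.node (.node (.node (.node .leaf (nat_lit 2206539553689725) (.br (nat_lit 1) (.cons (.br (nat_lit 2) (.cons (.rel (nat_lit 84148242)) .nil)) .nil)) .leaf) (nat_lit 2206545875276056) (.br (nat_lit 1) (.cons (.br (nat_lit 3) (.cons (.rel (nat_lit 285295104)) .nil)) .nil)) .leaf) (nat_lit 2206588272942358) (.br (nat_lit 0) (.cons (.br (nat_lit 1) (.cons (.rel (nat_lit 20976129)) .nil)) .nil)) (.node .leaf (nat_lit 2206842970483599) (.br (nat_lit 3) (.cons (.br (nat_lit 4) (.cons (.rel (nat_lit 1342455888)) (.cons (.rel (nat_lit 1343227920)) .nil))) .nil)) .leaf)) (nat_lit 2206842970944793) (.br (nat_lit 2) (.cons (.br (nat_lit 4) (.cons (.rel (nat_lit 1140855312)) .nil)) .nil)) (.node (.node .leaf (nat_lit 2206842971813400) (.br (nat_lit 0) (.cons (.br (nat_lit 1) (.cons (.rel (nat_lit 22020114)) .nil)) .nil)) .leaf) (nat_lit 2206842971966700) (.br (nat_lit 4) (.cons (.br (nat_lit 6) (.cons (.rel (nat_lit 18254790660)) .nil)) .nil)) (.node .leaf (nat_lit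 2206842972267903) (.br (nat_lit 2) (.cons (.br (nat_lit 0) (.cons (.rel (nat_lit 71369280)) (.cons (.rel (nat_lit 71369280)) .nil))) .nil)) .leaf))) (nat_lit 2207031726685041) (.br (nat_lit 2) (.cons (.br (nat_lit 3) (.cons (.rel (nat_lit 335822880)) .nil)) .nil)) (.node (.node (.node (.node .leaf (nat_lit 2207031726785814) (.br (nat_lit 0) (.cons (.br (nat_lit 1) (.cons (.rel (nat_lit 20988432)) .nil)) .nil)) .leaf) (nat_lit 2207031726785892) (.br (nat_lit 0) (.cons (.br (nat_lit 4) (.cons (.rel (nat_lit 1077936657)) (.cons (.rel (nat_lit 1078202400)) .nil))) .nil)) .leaf) (nat_lit 2207031728079504) (.br (nat_lit 5) (.cons (.br (nat_lit 0) (.cons (.rel (nat_lit 8598327312)) (.cons (.rel (nat_lit 4299243540)) .nil))) .nil)) (.node .leaf (nat_lit 2207031728210797) (.br (nat_lit 0) (.cons (.br (nat_lit 4) (.cons (.rel (nat_lit 1077936657)) .nil)) .nil)) .leaf)) (nat_lit 2207031728210801) (.br (nat_lit 0) (.cons (.br (nat_lit 2) (.cons (.rel (nat_lit 71565318)) .nil)) .nil)) (.node (.node .leaf (nat_lit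 2207034575230338) (.br (nat_lit 0) (.cons (.br (nat_lit 4) (.cons (.rel (nat_lit 2151682068)) .nil)) .nil)) .leaf) (nat_lit 2207069232266521) (.br (nat_lit 0) (.cons (.br (nat_lit 2) (.cons (.rel (nat_lit 138420225)) .nil)) .nil)) (.node .leaf (nat_lit 2209763925771167) (.br (nat_lit 0) (.cons (.br (nat_lit 1) (.cons (.rel (nat_lit 25166853)) .nil)) .nil)) .leaf))))

/-- refutations 13 -/
def e13 : EX := (.node (.node (.node (.node (.node .leaf (nat_lit 2210256096602367) (.br (nat_lit 0) (.cons (.br (nat_lit 1) (.cons (.rel (nat_lit 21238848)) (.cons (.rel (nat_lit 21238848)) .nil))) .nil)) .leaf) (nat_lit 2210256097103997) (.br (nat_lit 2) (.cons (.br (nat_lit 0) (.cons (.rel (nat_lit 72369153)) (.cons (.rel (nat_lit 75513873)) (.cons (.rel (nat_lit 71369280)) (.cons (.rel (nat_lit 71712768)) (.cons (.rel (nat_lit 138674448)) (.cons (.rel (nat_lit 71566368)) .nil))))))) (.cons (.br (nat_lit 4) (.cons (.rel (nat_lit 1207959648)) (.cons (.rel (nat_lit 1141899297)) (.cons (.rel (nat_lit 2214592656))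 (.cons (.rel (nat_lit 1208025090)) .nil))))) (.cons (.br (nat_lit 4) (.cons (.rel (nat_lit 1141129284)) (.cons (.rel (nat_lit 1141129284)) (.cons (.rel (nat_lit 2214625284)) (.cons (.rel (nat_lit 2214625284)) .nil))))) .nil)))) (.node .leaf (nat_lit 2210256097103999) (.br (nat_lit 2) (.cons (.br (nat_lit 5) (.cons (.rel (nat_lit 4362338628)) .nil)) .nil)) .leaf)) (nat_lit 2210256097106045) (.br (nat_lit 2) (.cons (.br (nat_lit 3) (.cons (.rel (nat_lit 335806548)) .nil)) .nil)) (.node (.node .leaf (nat_lit 2210256097106175) (.br (nat_lit 2) (.cons (.br (nat_lit 3) (.cons (.rel (nat_lit 335544834)) (.cons (.rel (nat_lit 336598080)) .nil))) .nil)) .leaf) (nat_lit 2210256097107225) (.br (nat_lit 3) (.cons (.br (nat_lit 6) (.cons (.rel (nat_lit 17448568848)) .nil)) .nil)) (.node .leaf (nat_lit 2210256097117040) (.br (nat_lit 0) (.cons (.br (nat_lit 3) (.cons (.rel (nat_lit 272891922)) .nil)) .nil)) .leaf))) (nat_lit 2210256097946511) (.br (nat_lit 0) (.cons (.br (nat_lit 2) (.cons (.rel (nat_lit 71569536))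 .nil)) .nil)) (.node (.node (.node .leaf (nat_lit 2210256097984643) (.br (nat_lit 0) (.cons (.br (nat_lit 1) (.cons (.rel (nat_lit 21241872)) .nil)) .nil)) .leaf) (nat_lit 2210256098192016) (.br (nat_lit 2) (.cons (.br (nat_lit 0) (.cons (.rel (nat_lit 75497541)) (.cons (.rel (nat_lit 71369280)) .nil))) .nil)) (.node .leaf (nat_lit 2210256098205204) (.br (nat_lit 3) (.cons (.br (nat_lit 0) (.cons (.rel (nat_lit 272892936)) (.cons (.rel (nat_lit 272928768)) (.cons (.rel (nat_lit 272928768)) .nil)))) (.cons (.br (nat_lit 0) (.cons (.rel (nat_lit 276829188)) (.cons (.rel (nat_lit 541085700)) (.cons (.rel (nat_lit 541099008)) .nil)))) .nil))) .leaf)) (nat_lit 2210256098496574) (.br (nat_lit 2) (.cons (.br (nat_lit 3) (.cons (.rel (nat_lit 337658112)) .nil)) .nil)) (.node (.node .leaf (nat_lit 2210256098497449) (.br (nat_lit 2) (.cons (.br (nat_lit 3) (.cons (.rel (nat_lit 335810577)) .nil)) .nil)) .leaf) (nat_lit 2210256099472641) (.br (nat_lit 4) (.cons (.br (nat_lit 2) (.cons (.rel (nat_lit 1141901316))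 (.cons (.rel (nat_lit 1207959648)) .nil))) .nil)) (.node .leaf (nat_lit 2210256099675668) (.br (nat_lit 0) (.cons (.br (nat_lit 1) (.cons (.rel (nat_lit 25198656)) (.cons (.rel (nat_lit 25165848)) .nil))) .nil)) .leaf)))) (nat_lit 2210256726120729) (.br (nat_lit 0) (.cons (.br (nat_lit 1) (.cons (.rel (nat_lit 20972100)) .nil)) .nil)) (.node (.node (.node (.node .leaf (nat_lit 2210256822718589) (.br (nat_lit 1) (.cons (.br (nat_lit 2) (.cons (.rel (nat_lit 84148242)) .nil)) .nil)) .leaf) (nat_lit 2210256825136409) (.br (nat_lit 1) (.cons (.br (nat_lit 2) (.cons (.rel (nat_lit 84148242)) .nil)) .nil)) (.node .leaf (nat_lit 2211096042659198) (.br (nat_lit 0) (.cons (.br (nat_lit 1) (.cons (.rel (nat_lit 42468432)) .nil)) .nil)) .leaf)) (nat_lit 2211097380081022) (.br (nat_lit 0) (.cons (.br (nat_lit 1) (.cons (.rel (nat_lit 20976129)) .nil)) .nil)) (.node (.node .leaf (nat_lit 2211098638933374) (.br (nat_lit 2) (.cons (.br (nat_lit 4) (.cons (.rel (nat_lit 1140852288)) (.cons (.rel (nat_lit 1141901316))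 .nil))) .nil)) .leaf) (nat_lit 2211962347911449) (.br (nat_lit 1) (.cons (.br (nat_lit 2) (.cons (.rel (nat_lit 84185088)) .nil)) .nil)) (.node .leaf (nat_lit 2211962349241250) (.br (nat_lit 1) (.cons (.br (nat_lit 3) (.cons (.rel (nat_lit 553652292)) .nil)) .nil)) .leaf))) (nat_lit 2211962350423523) (.br (nat_lit 2) (.cons (.br (nat_lit 4) (.cons (.rel (nat_lit 1141195776)) .nil)) .nil)) (.node (.node (.node .leaf (nat_lit 2211965493852415) (.br (nat_lit 1) (.cons (.br (nat_lit 2) (.cons (.rel (nat_lit 84185088)) .nil)) .nil)) .leaf) (nat_lit 2211965493946669) (.br (nat_lit 1) (.cons (.br (nat_lit 2) (.cons (.rel (nat_lit 83894784)) .nil)) .nil)) (.node .leaf (nat_lit 2211965496151422) (.br (nat_lit 1) (.cons (.br (nat_lit 2) (.cons (.rel (nat_lit 84279360)) .nil)) .nil)) .leaf)) (nat_lit 2212217500253435) (.br (nat_lit 0) (.cons (.br (nat_lit 2) (.cons (.rel (nat_lit 71569536)) .nil)) .nil)) (.node (.node .leaf (nat_lit 2212222895723906) (.br (nat_lit 2) (.cons (.br (nat_lit 4) (.cons (.rel (nat_lit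 1208025090)) .nil)) .nil)) .leaf) (nat_lit 2212222896454543) (.br (nat_lit 2) (.cons (.br (nat_lit 4) (.cons (.rel (nat_lit 1141964928)) .nil)) .nil)) .leaf))))

/-- refutations 15 -/
def e15 : EX := (.node (.node (.node .leaf (nat_lit 2323460722569516) (.br (nat_lit 1) (.cons (.br (nat_lit 4) (.cons (.rel (nat_lit 1090798596)) .nil)) .nil)) .leaf) (nat_lit 2323735601452260) (.br (nat_lit 0) (.cons (.br (nat_lit 4) (.cons (.rel (nat_lit 1078202400)) .nil)) .nil)) (.node .leaf (nat_lit 2327542510436537) (.br (nat_lit 2) (.cons (.br (nat_lit 3) (.cons (.rel (nat_lit 402686016)) .nil)) .nil)) .leaf)) (nat_lit 2327542511504290) (.br (nat_lit 0) (.cons (.br (nat_lit 2) (.cons (.rel (nat_lit 72351816)) .nil)) .nil)) (.node (.node .leaf (nat_lit 2327542766341026) (.br (nat_lit 0) (.cons (.br (nat_lit 4) (.cons (.rel (nat_lit 1078214658)) .nil)) .nil)) .leaf) (nat_lit 2333401999202431) (.br (nat_lit 0) (.cons (.br (nat_lit 1) (.cons (.rel (nat_lit 20972100)) .nil)) .nil)) (.node .leaf (nat_lit 2333402001507181)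 (.br (nat_lit 4) (.cons (.br (nat_lit 5) (.cons (.rel (nat_lit 5368808514)) .nil)) .nil)) .leaf)))

/-- refutations 17 -/
def e17 : EX := (.node (.node (.node (.node (.node .leaf (nat_lit 2393715281076359) (.br (nat_lit 0) (.cons (.br (nat_lit 3) (.cons (.rel (nat_lit 272638464)) .nil)) .nil)) .leaf) (nat_lit 2393715281332359) (.br (nat_lit 0) (.cons (.br (nat_lit 1) (.cons (.rel (nat_lit 37749777)) (.cons (.rel (nat_lit 37749777)) .nil))) .nil)) .leaf) (nat_lit 2393715282092913) (.br (nat_lit 1) (.cons (.br (nat_lit 2) (.cons (.rel (nat_lit 151126020)) .nil)) .nil)) (.node (.node .leaf (nat_lit 2393715282368647) (.br (nat_lit 1) (.cons (.br (nat_lit 4) (.cons (.rel (nat_lit 2181039360)) .nil)) .nil)) .leaf) (nat_lit 2393719922425987) (.br (nat_lit 0) (.cons (.br (nat_lit 1) (.cons (.rel (nat_lit 20976129)) .nil)) .nil)) .leaf)) (nat_lit 2393921540326252) (.br (nat_lit 2) (.cons (.br (nat_lit 3) (.cons (.rel (nat_lit 335873040)) .nil)) .nil)) (.node (.node (.node .leaf (nat_lit 2394041619067007)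 (.br (nat_lit 0) (.cons (.br (nat_lit 4) (.cons (.rel (nat_lit 2157970497)) .nil)) .nil)) .leaf) (nat_lit 2394041619835015) (.br (nat_lit 3) (.cons (.br (nat_lit 5) (.cons (.rel (nat_lit 8858648577)) .nil)) .nil)) .leaf) (nat_lit 2394041619835510) (.br (nat_lit 0) (.cons (.br (nat_lit 2) (.cons (.rel (nat_lit 138420225)) .nil)) .nil)) (.node .leaf (nat_lit 2394041619835757) (.br (nat_lit 0) (.cons (.br (nat_lit 4) (.cons (.rel (nat_lit 1078214658)) .nil)) .nil)) .leaf))) (nat_lit 2394041619836140) (.br (nat_lit 1) (.cons (.br (nat_lit 4) (.cons (.rel (nat_lit 1107329025)) .nil)) .nil)) (.node (.node (.node (.node .leaf (nat_lit 2394041620121104) (.br (nat_lit 1) (.cons (.br (nat_lit 3) (.cons (.rel (nat_lit 301989957)) .nil)) .nil)) .leaf) (nat_lit 2394041620427689) (.br (nat_lit 4) (.cons (.br (nat_lit 0) (.cons (.rel (nat_lit 1078202400)) (.cons (.rel (nat_lit 1078202400)) .nil))) .nil)) .leaf) (nat_lit 2394041621217932) (.br (nat_lit 0) (.cons (.br (nat_lit 4) (.cons (.rel (nat_lit 1079005185))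 .nil)) .nil)) (.node (.node .leaf (nat_lit 2394140827693937) (.br (nat_lit 0) (.cons (.br (nat_lit 1) (.cons (.rel (nat_lit 21241872)) .nil)) .nil)) .leaf) (nat_lit 2400365566436580) (.br (nat_lit 0) (.cons (.br (nat_lit 2) (.cons (.rel (nat_lit 75564033)) .nil)) .nil)) .leaf)) (nat_lit 2405479133842915) (.br (nat_lit 0) (.cons (.br (nat_lit 1) (.cons (.rel (nat_lit 37749777)) .nil)) .nil)) (.node (.node (.node .leaf (nat_lit 2405640234904812) (.br (nat_lit 1) (.cons (.br (nat_lit 2) (.cons (.rel (nat_lit 83894784)) .nil)) .nil)) .leaf) (nat_lit 2405857095839247) (.br (nat_lit 0) (.cons (.br (nat_lit 1) (.cons (.rel (nat_lit 37749777)) .nil)) .nil)) .leaf) (nat_lit 2405857154597764) (.br (nat_lit 1) (.cons (.br (nat_lit 2) (.cons (.rel (nat_lit 84427008)) .nil)) .nil)) (.node .leaf (nat_lit 2405857155941004) (.br (nat_lit 1) (.cons (.br (nat_lit 2) (.cons (.rel (nat_lit 83894784)) .nil)) .nil)) .leaf))))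

/-- refutations 18 -/
def e18 : EX := (.node (.node (.node (.node .leaf (nat_lit 2833512911126713) (.br (nat_lit 1) (.cons (.br (nat_lit 2) (.cons (.rel (nat_lit 84938769)) .nil)) .nil)) .leaf) (nat_lit 2833512911127833) (.br (nat_lit 0) (.cons (.br (nat_lit 2) (.cons (.rel (nat_lit 73401600)) .nil)) .nil)) (.node .leaf (nat_lit 2833516000174757) (.br (nat_lit 0) (.cons (.br (nat_lit 1) (.cons (.rel (nat_lit 21241872)) .nil)) .nil)) .leaf)) (nat_lit 2833516523461285) (.br (nat_lit 0) (.cons (.br (nat_lit 2) (.cons (.rel (nat_lit 71566368)) .nil)) .nil)) (.node (.node .leaf (nat_lit 2837711189172874) (.br (nat_lit 1) (.cons (.br (nat_lit 2) (.cons (.rel (nat_lit 84938769)) .nil)) .nil)) .leaf) (nat_lit 2837711189172901) (.br (nat_lit 0) (.cons (.br (nat_lit 2) (.cons (.rel (nat_lit 76546320)) .nil)) .nil)) .leaf)) (nat_lit 2837711189173780) (.br (nat_lit 1) (.cons (.br (nat_lit 4) (.cons (.rel (nat_lit 1090846737)) .nil)) .nil)) (.node (.node (.node .leaf (nat_lit 2837711293078154) (.br (nat_lit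 2) (.cons (.br (nat_lit 4) (.cons (.rel (nat_lit 1141195776)) .nil)) .nil)) .leaf) (nat_lit 2837713389142201) (.br (nat_lit 2) (.cons (.br (nat_lit 0) (.cons (.rel (nat_lit 71566368)) (.cons (.rel (nat_lit 72355845)) .nil))) .nil)) .leaf) (nat_lit 2837714363260281) (.br (nat_lit 0) (.cons (.br (nat_lit 2) (.cons (.rel (nat_lit 71566368)) .nil)) .nil)) (.node (.node .leaf (nat_lit 2837716162616852) (.br (nat_lit 4) (.cons (.br (nat_lit 5) (.cons (.rel (nat_lit 6442483968)) .nil)) .nil)) .leaf) (nat_lit 2837716686647608) (.br (nat_lit 2) (.cons (.br (nat_lit 3) (.cons (.rel (nat_lit 603980817)) .nil)) .nil)) .leaf)))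

/-- refutations 20 -/
def e20 : EX := (.node .leaf (nat_lit 2415938935193737) (.br (nat_lit 3) (.cons (.br (nat_lit 4) (.cons (.rel (nat_lit 1342509072)) .nil)) .nil)) .leaf)

/-- refutations 21 -/
def e21 : EX := (.node (.node (.node .leaf (nat_lit 2851117294211207) (.br (nat_lit 2) (.cons (.br (nat_lit 5) (.cons (.rel (nat_lit 4362141825)) .nil)) .nil)) .leaf) (nat_lit 2857942832618402) (.br (nat_lit 2) (.cons (.br (nat_lit 3) (.cons (.rel (nat_lit 603980817)) .nil)) .nil)) (.node .leaf (nat_lit 2857942833894932) (.br (nat_lit 2) (.cons (.br (nat_lit 3) (.cons (.rel (nat_lit 335810577)) .nil)) .nil)) .leaf)) (nat_lit 2860717160776936) (.br (nat_lit 0) (.cons (.br (nat_lit 1) (.cons (.rel (nat_lit 21241872)) .nil)) .nil)) (.node (.node .leaf (nat_lit 2863037512480246) (.br (nat_lit 0) (.cons (.br (nat_lit 2) (.cons (.rel (nat_lit 77856768)) .nil)) .nil)) .leaf) (nat_lit 2863039794181622) (.br (nat_lit 0) (.cons (.br (nat_lit 2) (.cons (.rel (nat_lit 72369153)) .nil)) .nil)) .leaf))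

/-- refutations 22 -/
def e22 : EX := (.node (.node (.node .leaf (nat_lit 4399123025366397) (.br (nat_lit 0) (.cons (.br (nat_lit 2) (.cons (.rel (nat_lit 72369153)) .nil)) .nil)) .leaf) (nat_lit 4399549854619824) (.br (nat_lit 0) (.cons (.br (nat_lit 2) (.cons (.rel (nat_lit 138416196)) .nil)) .nil)) (.node .leaf (nat_lit 4399549856432428) (.br (nat_lit 0) (.cons (.br (nat_lit 2) (.cons (.rel (nat_lit 138420225)) .nil)) .nil)) .leaf)) (nat_lit 4399550275339045) (.br (nat_lit 2) (.cons (.br (nat_lit 0) (.cons (.rel (nat_lit 71566368)) (.cons (.rel (nat_lit 71569536)) .nil))) .nil)) (.node (.node .leaf (nat_lit 4399550277072124) (.br (nat_lit 0) (.cons (.br (nat_lit 2) (.cons (.rel (nat_lit 138420225)) .nil)) .nil)) .leaf) (nat_lit 4400194102284539) (.br (nat_lit 0) (.cons (.br (nat_lit 1) (.cons (.rel (nat_lit 20972100)) .nil)) .nil)) (.node .leaf (nat_lit 4403417946532590) (.br (nat_lit 0) (.cons (.br (nat_lit 3) (.cons (.rel (nat_lit 273170688)) .nil)) .nil)) .leaf)))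

/-- refutations 23 -/
def e23 : EX := (.node (.node (.node .leaf (nat_lit 4409274083089689) (.br (nat_lit 2) (.cons (.br (nat_lit 4) (.cons (.rel (nat_lit 1141901316)) .nil)) .nil)) .leaf) (nat_lit 4409276329458969) (.br (nat_lit 0) (.cons (.br (nat_lit 1) (.cons (.rel (nat_lit 22056960)) .nil)) .nil)) .leaf) (nat_lit 4409276331236633) (.br (nat_lit 2) (.cons (.br (nat_lit 4) (.cons (.rel (nat_lit 1140855312)) .nil)) .nil)) (.node (.node .leaf (nat_lit 4409279984475417) (.br (nat_lit 0) (.cons (.br (nat_lit 2) (.cons (.rel (nat_lit 71369280)) .nil)) .nil)) .leaf) (nat_lit 4410937812123674) (.br (nat_lit 0) (.cons (.br (nat_lit 1) (.cons (.rel (nat_lit 20988432)) .nil)) .nil)) .leaf))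

/-- refutations 24 -/
def e24 : EX := (.node (.node .leaf (nat_lit 3115321326607236) (.br (nat_lit 2) (.cons (.br (nat_lit 4) (.cons (.rel (nat_lit 2282229777)) .nil)) .nil)) .leaf) (nat_lit 3125050402622377) (.br (nat_lit 0) (.cons (.br (nat_lit 3) (.cons (.rel (nat_lit 272892936)) .nil)) .nil)) .leaf)

/-- refutations 25 -/
def e25 : EX := (.node (.node .leaf (nat_lit 4438605928376972) (.br (nat_lit 0) (.cons (.br (nat_lit 2) (.cons (.rel (nat_lit 71566368)) .nil)) .nil)) .leaf) (nat_lit 4444011796483304) (.br (nat_lit 0) (.cons (.br (nat_lit 1) (.cons (.rel (nat_lit 42532869)) .nil)) .nil)) (.node .leaf (nat_lit 4444017047685170) (.br (nat_lit 0) (.cons (.br (nat_lit 1) (.cons (.rel (nat_lit 21241872)) .nil)) .nil)) .leaf))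

/-- refutations 26 -/
def e26 : EX := (.node (.node .leaf (nat_lit 4579337715823218) (.br (nat_lit 0) (.cons (.br (nat_lit 1) (.cons (.rel (nat_lit 20976129)) .nil)) .nil)) .leaf) (nat_lit 4579343058833709) (.br (nat_lit 0) (.cons (.br (nat_lit 1) (.cons (.rel (nat_lit 25166853)) .nil)) .nil)) .leaf)

/-- refutations 27 -/
def e27 : EX := (.node (.node .leaf (nat_lit 4585196069356296) (.br (nat_lit 2) (.cons (.br (nat_lit 3) (.cons (.rel (nat_lit 335807553)) .nil)) .nil)) .leaf) (nat_lit 4585782830919008) (.br (nat_lit 1) (.cons (.br (nat_lit 5) (.cons (.rel (nat_lit 4311745698)) .nil)) .nil)) .leaf)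

/-- refutations 28 -/
def e28 : EX := (.node .leaf (nat_lit 4526996358763172) (.br (nat_lit 0) (.cons (.br (nat_lit 1) (.cons (.rel (nat_lit 41947461)) .nil)) .nil)) .leaf)

/-- refutations 29 -/
def e29 : EX := (.node (.node (.node .leaf (nat_lit 4838927632204413) (.br (nat_lit 0) (.cons (.br (nat_lit 1) (.cons (.rel (nat_lit 22020114)) .nil)) .nil)) .leaf) (nat_lit 4838927633433888) (.br (nat_lit 0) (.cons (.br (nat_lit 1) (.cons (.rel (nat_lit 20972100)) .nil)) .nil)) (.node .leaf (nat_lit 4839140282114225) (.br (nat_lit 0) (.cons (.br (nat_lit 2) (.cons (.rel (nat_lit 71369280)) .nil)) .nil)) .leaf)) (nat_lit 4839999170408699) (.br (nat_lit 0) (.cons (.br (nat_lit 2) (.cons (.rel (nat_lit 71369280)) .nil)) .nil)) (.node (.node .leaf (nat_lit 4840002368126485) (.br (nat_lit 0) (.cons (.br (nat_lit 2) (.cons (.rel (nat_lit 72351816)) .nil)) .nil)) .leaf) (nat_lit 4840262771369313) (.br (nat_lit 0) (.cons (.br (nat_lit 5) (.cons (.rel (nat_lit 4299231237)) .nil)) .nil)) (.node .leaf (nat_lit 4843437346355255)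 (.br (nat_lit 0) (.cons (.br (nat_lit 1) (.cons (.rel (nat_lit 21241872)) .nil)) .nil)) .leaf)))

/-- refutations 30 -/
def e30 : EX := (.node (.node (.node .leaf (nat_lit 4849078732623379) (.br (nat_lit 0) (.cons (.br (nat_lit 2) (.cons (.rel (nat_lit 72351816)) .nil)) .nil)) .leaf) (nat_lit 4849079284738104) (.br (nat_lit 3) (.cons (.br (nat_lit 4) (.cons (.rel (nat_lit 1610629152)) .nil)) .nil)) (.node .leaf (nat_lit 4849084003330104) (.br (nat_lit 1) (.cons (.br (nat_lit 6) (.cons (.rel (nat_lit 17213423634)) .nil)) .nil)) .leaf)) (nat_lit 4849084004867604) (.br (nat_lit 4) (.cons (.br (nat_lit 0) (.cons (.rel (nat_lit 1079001156)) (.cons (.rel (nat_lit 2155946244)) .nil))) .nil)) (.node (.node .leaf (nat_lit 4849920232707454) (.br (nat_lit 0) (.cons (.br (nat_lit 2) (.cons (.rel (nat_lit 72418308)) .nil)) .nil)) .leaf) (nat_lit 4849926448665982) (.br (nat_lit 0) (.cons (.br (nat_lit 4) (.cons (.rel (nat_lit 2151683073)) .nil)) .nil)) .leaf))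

/-- refutations 31 -/
def e31 : EX := (.node .leaf (nat_lit 4875189546964345) (.br (nat_lit 0) (.cons (.br (nat_lit 1) (.cons (.rel (nat_lit 21241872)) .nil)) .nil)) .leaf)

/-- refutations 32 -/
def e32 : EX := (.node (.node (.node .leaf (nat_lit 4931180910981897) (.br (nat_lit 1) (.cons (.br (nat_lit 4) (.cons (.rel (nat_lit 1091567748)) .nil)) .nil)) .leaf) (nat_lit 4931184473478530) (.br (nat_lit 0) (.cons (.br (nat_lit 2) (.cons (.rel (nat_lit 73401600)) (.cons (.rel (nat_lit 71369280)) .nil))) .nil)) .leaf) (nat_lit 4931186067264114) (.br (nat_lit 4) (.cons (.br (nat_lit 0) (.cons (.rel (nat_lit 1078199376)) (.cons (.rel (nat_lit 1082200065)) .nil))) .nil)) (.node .leaf (nat_lit 4937626398305056) (.br (nat_lit 0) (.cons (.br (nat_lit 1) (.cons (.rel (nat_lit 20988432)) .nil)) .nil)) .leaf))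

/-- refutations 33 -/
def e33 : EX := (.node (.node (.node .leaf (nat_lit 4962500904547556) (.br (nat_lit 0) (.cons (.br (nat_lit 1) (.cons (.rel (nat_lit 20988432)) .nil)) .nil)) .leaf) (nat_lit 4962598072092859) (.br (nat_lit 0) (.cons (.br (nat_lit 3) (.cons (.rel (nat_lit 545263872)) .nil)) .nil)) (.node .leaf (nat_lit 4962598072093973) (.br (nat_lit 4) (.cons (.br (nat_lit 6) (.cons (.rel (nat_lit 18253878276)) .nil)) .nil)) .leaf)) (nat_lit 4963401751145700) (.br (nat_lit 0) (.cons (.br (nat_lit 4) (.cons (.rel (nat_lit 1079005185)) .nil)) .nil)) (.node (.node .leaf (nat_lit 4966365433963126) (.br (nat_lit 0) (.cons (.br (nat_lit 3) (.cons (.rel (nat_lit 272928768)) .nil)) .nil)) .leaf) (nat_lit 4966366253180436) (.br (nat_lit 0) (.cons (.br (nat_lit 1) (.cons (.rel (nat_lit 22020114)) .nil)) .nil)) .leaf))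

/-- refutations 34 -/
def e34 : EX := (.node (.node (.node (.node .leaf (nat_lit 4967877108551064) (.br (nat_lit 0) (.cons (.br (nat_lit 1) (.cons (.rel (nat_lit 22298880)) .nil)) .nil)) .leaf) (nat_lit 4967932452423184) (.br (nat_lit 0) (.cons (.br (nat_lit 1) (.cons (.rel (nat_lit 20976129)) .nil)) .nil)) (.node .leaf (nat_lit 4968518111487204) (.br (nat_lit 0) (.cons (.br (nat_lit 4) (.cons (.rel (nat_lit 1078263813)) .nil)) .nil)) .leaf)) (nat_lit 4968518472197348) (.br (nat_lit 0) (.cons (.br (nat_lit 3) (.cons (.rel (nat_lit 276889632)) .nil)) .nil)) (.node (.node .leaf (nat_lit 4969040000285609) (.br (nat_lit 0) (.cons (.br (nat_lit 1) (.cons (.rel (nat_lit 22151232)) .nil)) .nil)) .leaf) (nat_lit 4972808702601272) (.br (nat_lit 0) (.cons (.br (nat_lit 3) (.cons (.rel (nat_lit 272892936)) .nil)) .nil)) .leaf)) (nat_lit 4972813496690818) (.br (nat_lit 1) (.cons (.br (nat_lit 3) (.cons (.rel (nat_lit 304349184)) .nil)) .nil)) (.node (.node (.node .leaf (nat_lit 4972813499236614) (.br (nat_lit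 0) (.cons (.br (nat_lit 1) (.cons (.rel (nat_lit 22020114)) .nil)) .nil)) .leaf) (nat_lit 4972814174520672) (.br (nat_lit 0) (.cons (.br (nat_lit 1) (.cons (.rel (nat_lit 21315588)) .nil)) .nil)) .leaf) (nat_lit 4972814174586237) (.br (nat_lit 0) (.cons (.br (nat_lit 3) (.cons (.rel (nat_lit 545263872)) .nil)) .nil)) (.node (.node .leaf (nat_lit 4973941602117808) (.br (nat_lit 0) (.cons (.br (nat_lit 1) (.cons (.rel (nat_lit 37748772)) .nil)) .nil)) .leaf) (nat_lit 4973941603705708) (.br (nat_lit 0) (.cons (.br (nat_lit 2) (.cons (.rel (nat_lit 71565318)) .nil)) .nil)) .leaf)))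

/-- refutations 37 -/
def e37 : EX := (.node (.node (.node (.node .leaf (nat_lit 5032746120497313) (.br (nat_lit 1) (.cons (.br (nat_lit 2) (.cons (.rel (nat_lit 84279360)) .nil)) .nil)) .leaf) (nat_lit 5032931828667620) (.br (nat_lit 0) (.cons (.br (nat_lit 1) (.cons (.rel (nat_lit 21315588)) .nil)) .nil)) .leaf) (nat_lit 5032931830203245) (.br (nat_lit 0) (.cons (.br (nat_lit 4) (.cons (.rel (nat_lit 2151683073)) .nil)) .nil)) (.node .leaf (nat_lit 5036733918141167) (.br (nat_lit 0) (.cons (.br (nat_lit 1) (.cons (.rel (nat_lit 20972100)) .nil)) .nil)) .leaf)) (nat_lit 5036740257029652) (.br (nat_lit 0) (.cons (.br (nat_lit 4) (.cons (.rel (nat_lit 1078214658)) .nil)) .nil)) (.node (.node (.node .leaf (nat_lit 5038248398413031) (.br (nat_lit 2) (.cons (.br (nat_lit 3) (.cons (.rel (nat_lit 337658112)) .nil)) .nil)) .leaf) (nat_lit 5043177149276445) (.br (nat_lit 1) (.cons (.br (nat_lit 3) (.cons (.rel (nat_lit 302006289)) .nil)) .nil)) .leaf) (nat_lit 5043177150813570) (.br (nat_lit 0) (.cons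 (.br (nat_lit 4) (.cons (.rel (nat_lit 1079017488)) .nil)) .nil)) (.node .leaf (nat_lit 5043182890981503) (.br (nat_lit 1) (.cons (.br (nat_lit 4) (.cons (.rel (nat_lit 1091567748)) .nil)) .nil)) .leaf)))

/-- refutations 38 -/
def e38 : EX := (.node (.node .leaf (nat_lit 5283027804287602) (.br (nat_lit 0) (.cons (.br (nat_lit 3) (.cons (.rel (nat_lit 272892936)) .nil)) .nil)) .leaf) (nat_lit 5283028192768300) (.br (nat_lit 2) (.cons (.br (nat_lit 4) (.cons (.rel (nat_lit 1207975944)) .nil)) .nil)) (.node .leaf (nat_lit 5283028194357874) (.br (nat_lit 0) (.cons (.br (nat_lit 2) (.cons (.rel (nat_lit 75497541)) .nil)) .nil)) .leaf))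

/-- refutations 39 -/
def e39 : EX := (.node (.node (.node (.node .leaf (nat_lit 5296848602217085) (.br (nat_lit 1) (.cons (.br (nat_lit 2) (.cons (.rel (nat_lit 84148242)) .nil)) .nil)) .leaf) (nat_lit 5296852062517885) (.br (nat_lit 3) (.cons (.br (nat_lit 5) (.cons (.rel (nat_lit 4563403812)) .nil)) .nil)) (.node .leaf (nat_lit 5297653206491766) (.br (nat_lit 2) (.cons (.br (nat_lit 0) (.cons (.rel (nat_lit 72368148)) (.cons (.rel (nat_lit 71566368)) (.cons (.rel (nat_lit 71566368)) .nil)))) .nil)) .leaf)) (nat_lit 5297653206528300) (.br (nat_lit 0) (.cons (.br (nat_lit 1) (.cons (.rel (nat_lit 20972100)) .nil)) .nil)) (.node (.node .leaf (nat_lit 5297653835673900) (.br (nat_lit 1) (.cons (.br (nat_lit 4) (.cons (.rel (nat_lit 1090521600)) (.cons (.rel (nat_lit 1107301440)) .nil))) .nil)) .leaf) (nat_lit 5297656855342308) (.br (nat_lit 1) (.cons (.br (nat_lit 4) (.cons (.rel (nat_lit 1107378180)) .nil)) .nil)) (.node .leaf (nat_lit 5300941060027028) (.br (nat_lit 0) (.cons (.br (nat_lit 2) (.cons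 (.rel (nat_lit 72368148)) .nil)) .nil)) .leaf))) (nat_lit 5303253845175029) (.br (nat_lit 0) (.cons (.br (nat_lit 2) (.cons (.rel (nat_lit 75497541)) .nil)) .nil)) (.node (.node (.node .leaf (nat_lit 5306475148812588) (.br (nat_lit 1) (.cons (.br (nat_lit 2) (.cons (.rel (nat_lit 84185088)) .nil)) .nil)) .leaf) (nat_lit 5306475151875353) (.br (nat_lit 0) (.cons (.br (nat_lit 2) (.cons (.rel (nat_lit 71369280)) .nil)) .nil)) (.node .leaf (nat_lit 5306481567429890) (.br (nat_lit 1) (.cons (.br (nat_lit 2) (.cons (.rel (nat_lit 84427008)) .nil)) .nil)) .leaf)) (nat_lit 5306481569160473) (.br (nat_lit 1) (.cons (.br (nat_lit 2) (.cons (.rel (nat_lit 84935745)) .nil)) .nil)) (.node (.node .leaf (nat_lit 5306481569160574) (.br (nat_lit 0) (.cons (.br (nat_lit 1) (.cons (.rel (nat_lit 22020114)) .nil)) .nil)) .leaf) (nat_lit 5307319628287358) (.br (nat_lit 0) (.cons (.br (nat_lit 1) (.cons (.rel (nat_lit 21266433)) .nil)) .nil)) (.node .leaf (nat_lit 5320658310906767) (.br (nat_lit 2) (.cons (.br (nat_lit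 3) (.cons (.rel (nat_lit 402686016)) .nil)) .nil)) .leaf))))

/-- refutations 40 -/
def e40 : EX := (.node (.node (.node .leaf (nat_lit 5368021969756790) (.br (nat_lit 0) (.cons (.br (nat_lit 3) (.cons (.rel (nat_lit 273023040)) .nil)) .nil)) .leaf) (nat_lit 5368021970263268) (.br (nat_lit 1) (.cons (.br (nat_lit 2) (.cons (.rel (nat_lit 84148242)) .nil)) .nil)) (.node .leaf (nat_lit 5368025220342390) (.br (nat_lit 0) (.cons (.br (nat_lit 4) (.cons (.rel (nat_lit 2151745536)) .nil)) .nil)) .leaf)) (nat_lit 5368025602641277) (.br (nat_lit 0) (.cons (.br (nat_lit 1) (.cons (.rel (nat_lit 22020114)) .nil)) .nil)) (.node (.node .leaf (nat_lit 5368028267299102) (.br (nat_lit 0) (.cons (.br (nat_lit 3) (.cons (.rel (nat_lit 273679425)) .nil)) .nil)) .leaf) (nat_lit 5370991252074751) (.br (nat_lit 0) (.cons (.br (nat_lit 1) (.cons (.rel (nat_lit 21266433)) .nil)) .nil)) (.node .leaf (nat_lit 5377702826041974) (.br (nat_lit 2) (.cons (.br (nat_lit 3) (.cons (.rel (nat_lit 603979812)) .nil)) .nil)) .leaf)))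

/-- refutations 42 -/
def e42 : EX := (.node (.node (.node .leaf (nat_lit 5453801038591258) (.br (nat_lit 0) (.cons (.br (nat_lit 3) (.cons (.rel (nat_lit 272891922)) .nil)) .nil)) .leaf) (nat_lit 5458952361128562) (.br (nat_lit 0) (.cons (.br (nat_lit 1) (.cons (.rel (nat_lit 20976129)) .nil)) .nil)) .leaf) (nat_lit 5459381857807012) (.br (nat_lit 3) (.cons (.br (nat_lit 5) (.cons (.rel (nat_lit 4563404817)) .nil)) .nil)) (.node (.node .leaf (nat_lit 5460023502740762) (.br (nat_lit 1) (.cons (.br (nat_lit 2) (.cons (.rel (nat_lit 151126020)) .nil)) .nil)) .leaf) (nat_lit 5460023502741012) (.br (nat_lit 0) (.cons (.br (nat_lit 1) (.cons (.rel (nat_lit 25165848)) .nil)) .nil)) .leaf))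

/-- refutations 45 -/
def e45 : EX := (.node (.node (.node (.node .leaf (nat_lit 11101846321461383) (.br (nat_lit 2) (.cons (.br (nat_lit 3) (.cons (.rel (nat_lit 335822880)) (.cons (.rel (nat_lit 335822880)) .nil))) (.cons (.br (nat_lit 5) (.cons (.rel (nat_lit 4362076194)) (.cons (.rel (nat_lit 4362076194)) .nil))) .nil))) .leaf) (nat_lit 11103077954708086) (.br (nat_lit 0) (.cons (.br (nat_lit 2) (.cons (.rel (nat_lit 71569536)) .nil)) .nil)) (.node .leaf (nat_lit 11103080562267364) (.br (nat_lit 0) (.cons (.br (nat_lit 2) (.cons (.rel (nat_lit 138420225)) .nil)) .nil)) .leaf)) (nat_lit 11103080563569271) (.br (nat_lit 4) (.cons (.br (nat_lit 5) (.cons (.rel (nat_lit 9663693312)) .nil)) .nil)) (.node (.node .leaf (nat_lit 11106521914503799) (.br (nat_lit 4) (.cons (.br (nat_lit 0) (.cons (.rel (nat_lit 1082146881)) (.cons (.rel (nat_lit 2155909392)) .nil))) .nil)) .leaf) (nat_lit 11108489391750031) (.br (nat_lit 0) (.cons (.br (nat_lit 1) (.cons (.rel (nat_lit 21266433)) .nil)) .nil)) .leaf))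 (nat_lit 11108492571032463) (.br (nat_lit 1) (.cons (.br (nat_lit 2) (.cons (.rel (nat_lit 150996096)) (.cons (.rel (nat_lit 167776512)) .nil))) (.cons (.br (nat_lit 2) (.cons (.rel (nat_lit 84951072)) (.cons (.rel (nat_lit 84934740)) .nil))) .nil))) (.node (.node (.node .leaf (nat_lit 11113866910539265) (.br (nat_lit 0) (.cons (.br (nat_lit 1) (.cons (.rel (nat_lit 21241872)) .nil)) .nil)) .leaf) (nat_lit 11113866910539284) (.br (nat_lit 1) (.cons (.br (nat_lit 3) (.cons (.rel (nat_lit 555220992)) .nil)) .nil)) (.node .leaf (nat_lit 11113866912641676) (.br (nat_lit 1) (.cons (.br (nat_lit 4) (.cons (.rel (nat_lit 1090781250)) .nil)) .nil)) .leaf)) (nat_lit 11113866912641710) (.br (nat_lit 1) (.cons (.br (nat_lit 2) (.cons (.rel (nat_lit 167776512)) .nil)) .nil)) (.node (.node .leaf (nat_lit 11113866912642456) (.br (nat_lit 2) (.cons (.br (nat_lit 3) (.cons (.rel (nat_lit 335822880)) .nil)) .nil)) .leaf) (nat_lit 11113866913103106) (.br (nat_lit 1) (.cons (.br (nat_lit 4) (.cons (.rel (nat_lit 2181039360))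 .nil)) .nil)) .leaf)))

/-- refutations 46 -/
def e46 : EX := (.node .leaf (nat_lit 11434924226108329) (.br (nat_lit 0) (.cons (.br (nat_lit 2) (.cons (.rel (nat_lit 75513873)) .nil)) .nil)) .leaf)

/-- refutations 47 -/
def e47 : EX := (.node (.node (.node (.node .leaf (nat_lit 11436091811350036) (.br (nat_lit 0) (.cons (.br (nat_lit 1) (.cons (.rel (nat_lit 22021128)) .nil)) .nil)) .leaf) (nat_lit 11436091811399865) (.br (nat_lit 0) (.cons (.br (nat_lit 1) (.cons (.rel (nat_lit 25198656)) .nil)) .nil)) .leaf) (nat_lit 11436091887568249) (.br (nat_lit 0) (.cons (.br (nat_lit 1) (.cons (.rel (nat_lit 22056960)) .nil)) .nil)) (.node (.node .leaf (nat_lit 11436091887884473) (.br (nat_lit 0) (.cons (.br (nat_lit 6) (.cons (.rel (nat_lit 34363932693)) .nil)) .nil)) .leaf) (nat_lit 11436091887933625) (.br (nat_lit 0) (.cons (.br (nat_lit 1) (.cons (.rel (nat_lit 21038592)) .nil)) .nil)) .leaf)) (nat_lit 11436095184607417) (.br (nat_lit 0) (.cons (.br (nat_lit 3) (.cons (.rel (nat_lit 272891922)) .nil))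 .nil)) (.node (.node (.node .leaf (nat_lit 11436100402322964) (.br (nat_lit 4) (.cons (.br (nat_lit 2) (.cons (.rel (nat_lit 1141195776)) (.cons (.rel (nat_lit 1140852288)) .nil))) .nil)) .leaf) (nat_lit 11436101631248519) (.br (nat_lit 1) (.cons (.br (nat_lit 2) (.cons (.rel (nat_lit 83894784)) .nil)) .nil)) .leaf) (nat_lit 11436103564822663) (.br (nat_lit 0) (.cons (.br (nat_lit 3) (.cons (.rel (nat_lit 541085700)) .nil)) .nil)) (.node (.node .leaf (nat_lit 11436210680232612) (.br (nat_lit 4) (.cons (.br (nat_lit 0) (.cons (.rel (nat_lit 2151695376)) (.cons (.rel (nat_lit 2151682068)) .nil))) .nil)) .leaf) (nat_lit 11436485374978104) (.br (nat_lit 2) (.cons (.br (nat_lit 0) (.cons (.rel (nat_lit 138674448)) (.cons (.rel (nat_lit 73401600)) .nil))) .nil)) .leaf)))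

/-- refutations 48 -/
def e48 : EX := (.node (.node (.node .leaf (nat_lit 11436518919878018) (.br (nat_lit 3) (.cons (.br (nat_lit 4) (.cons (.rel (nat_lit 1610629152)) .nil)) .nil)) .leaf) (nat_lit 11436521953796748) (.br (nat_lit 4) (.cons (.br (nat_lit 5) (.cons (.rel (nat_lit 5368710216)) .nil)) .nil)) (.node .leaf (nat_lit 11436521955026456) (.br (nat_lit 2) (.cons (.br (nat_lit 4) (.cons (.rel (nat_lit 1141195776)) .nil)) .nil)) .leaf)) (nat_lit 11436522537997218) (.br (nat_lit 0) (.cons (.br (nat_lit 3) (.cons (.rel (nat_lit 273694752)) .nil)) .nil)) (.node (.node .leaf (nat_lit 11436522537997589) (.br (nat_lit 0) (.cons (.br (nat_lit 1) (.cons (.rel (nat_lit 25166853)) (.cons (.rel (nat_lit 22021128)) .nil))) .nil)) .leaf) (nat_lit 11437071063394360) (.br (nat_lit 2) (.cons (.br (nat_lit 4) (.cons (.rel (nat_lit 1141964928)) .nil)) .nil)) (.node .leaf (nat_lit 11437332424891780) (.br (nat_lit 0) (.cons (.br (nat_lit 1) (.cons (.rel (nat_lit 20988432)) .nil)) .nil)) .leaf)))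

/-- refutations 49 -/
def e49 : EX := (.node (.node (.node (.node (.node .leaf (nat_lit 11440289850368650) (.br (nat_lit 3) (.cons (.br (nat_lit 4) (.cons (.rel (nat_lit 1342506048)) (.cons (.rel (nat_lit 1342509072)) .nil))) (.cons (.br (nat_lit 4) (.cons (.rel (nat_lit 1343324160)) (.cons (.rel (nat_lit 1342439556)) .nil))) .nil))) .leaf) (nat_lit 11440289850831500) (.br (nat_lit 0) (.cons (.br (nat_lit 2) (.cons (.rel (nat_lit 71369280)) .nil)) .nil)) (.node .leaf (nat_lit 11440290163890853) (.br (nat_lit 0) (.cons (.br (nat_lit 1) (.cons (.rel (nat_lit 21266433)) .nil)) .nil)) .leaf)) (nat_lit 11440290163940884) (.br (nat_lit 1) (.cons (.br (nat_lit 3) (.cons (.rel (nat_lit 302055444)) .nil)) .nil)) (.node (.node .leaf (nat_lit 11440290164892274) (.br (nat_lit 0) (.cons (.br (nat_lit 3) (.cons (.rel (nat_lit 272928768)) .nil)) .nil)) .leaf) (nat_lit 11440290164892325) (.br (nat_lit 0) (.cons (.br (nat_lit 6) (.cons (.rel (nat_lit 17188259841)) .nil)) .nil)) .leaf)) (nat_lit 11440290183764643)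 (.br (nat_lit 0) (.cons (.br (nat_lit 1) (.cons (.rel (nat_lit 22021128)) .nil)) .nil)) (.node (.node (.node .leaf (nat_lit 11440290185938457) (.br (nat_lit 1) (.cons (.br (nat_lit 2) (.cons (.rel (nat_lit 84934740)) .nil)) .nil)) .leaf) (nat_lit 11440290716440711) (.br (nat_lit 0) (.cons (.br (nat_lit 4) (.cons (.rel (nat_lit 1079247105)) .nil)) .nil)) .leaf) (nat_lit 11440290717525524) (.br (nat_lit 3) (.cons (.br (nat_lit 0) (.cons (.rel (nat_lit 273170688)) (.cons (.rel (nat_lit 272928768)) .nil))) .nil)) (.node (.node .leaf (nat_lit 11440290717539860) (.br (nat_lit 4) (.cons (.br (nat_lit 0) (.cons (.br (nat_lit 5) (.cons (.rel (nat_lit 8598327312)) (.cons (.rel (nat_lit 4299163776)) .nil))) (.cons (.rel (nat_lit 1079054340)) .nil))) .nil)) .leaf) (nat_lit 11440290718540402) (.br (nat_lit 0) (.cons (.br (nat_lit 2) (.cons (.rel (nat_lit 71566368)) .nil)) .nil)) .leaf))) (nat_lit 11440292364861625) (.br (nat_lit 0) (.cons (.br (nat_lit 5) (.cons (.rel (nat_lit 8598327312)) (.cons (.rel (nat_lit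 8598324288)) .nil))) .nil)) (.node (.node (.node (.node .leaf (nat_lit 11440292365571449) (.br (nat_lit 0) (.cons (.br (nat_lit 1) (.cons (.rel (nat_lit 21266433)) (.cons (.rel (nat_lit 21038592)) .nil))) .nil)) .leaf) (nat_lit 11440292365899961) (.br (nat_lit 0) (.cons (.br (nat_lit 1) (.cons (.rel (nat_lit 22021128)) .nil)) .nil)) (.node .leaf (nat_lit 11440292366901433) (.br (nat_lit 0) (.cons (.br (nat_lit 5) (.cons (.rel (nat_lit 4299163776)) (.cons (.rel (nat_lit 4299163776)) .nil))) .nil)) .leaf)) (nat_lit 11440292366901925) (.br (nat_lit 2) (.cons (.br (nat_lit 1) (.cons (.rel (nat_lit 167776512)) (.cons (.rel (nat_lit 100679685)) .nil))) .nil)) (.node (.node .leaf (nat_lit 11440295090947604) (.br (nat_lit 2) (.cons (.br (nat_lit 3) (.cons (.rel (nat_lit 671088897)) .nil)) .nil)) .leaf) (nat_lit 11440295092123824) (.br (nat_lit 6) (.cons (.br (nat_lit 2) (.cons (.rel (nat_lit 17247506688)) (.cons (.rel (nat_lit 34426914816)) (.cons (.rel (nat_lit 17247240225)) .nil)))) .nil)) .leaf)) (nat_lit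 11440295093199024) (.br (nat_lit 2) (.cons (.br (nat_lit 4) (.cons (.rel (nat_lit 1140852288)) .nil)) .nil)) (.node (.node (.node .leaf (nat_lit 11440295093199474) (.br (nat_lit 0) (.cons (.br (nat_lit 4) (.cons (.rel (nat_lit 1082196036)) .nil)) .nil)) .leaf) (nat_lit 11440295973295490) (.br (nat_lit 0) (.cons (.br (nat_lit 2) (.cons (.rel (nat_lit 71369280)) .nil)) .nil)) .leaf) (nat_lit 11440295974054514) (.br (nat_lit 0) (.cons (.br (nat_lit 2) (.cons (.rel (nat_lit 75497541)) .nil)) .nil)) (.node (.node .leaf (nat_lit 11440296064239124) (.br (nat_lit 2) (.cons (.br (nat_lit 6) (.cons (.rel (nat_lit 17247240225)) .nil)) .nil)) .leaf) (nat_lit 11440296065277460) (.br (nat_lit 4) (.cons (.br (nat_lit 0) (.cons (.rel (nat_lit 1077936657)) (.cons (.rel (nat_lit 1078263813)) .nil))) .nil)) .leaf))))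

/-- refutations 50 -/
def e50 : EX := (.node (.node .leaf (nat_lit 11440722490532125) (.br (nat_lit 0) (.cons (.br (nat_lit 2) (.cons (.rel (nat_lit 72351816)) .nil)) .nil)) .leaf) (nat_lit 11440722491469327) (.br (nat_lit 0) (.cons (.br (nat_lit 1) (.cons (.rel (nat_lit 25165848)) .nil)) .nil)) .leaf)

/-- refutations 51 -/
def e51 : EX := (.node (.node (.node (.node .leaf (nat_lit 11441638283451125) (.br (nat_lit 0) (.cons (.br (nat_lit 2) (.cons (.rel (nat_lit 75563028)) .nil)) .nil)) .leaf) (nat_lit 11441793535052577) (.br (nat_lit 6) (.cons (.br (nat_lit 0) (.cons (.rel (nat_lit 17185136640)) (.cons (.rel (nat_lit 34363933698)) .nil))) .nil)) .leaf) (nat_lit 11441793537868077) (.br (nat_lit 2) (.cons (.br (nat_lit 3) (.cons (.rel (nat_lit 336625665)) .nil)) .nil)) (.node .leaf (nat_lit 11441796757668641) (.br (nat_lit 0) (.cons (.br (nat_lit 1) (.cons (.rel (nat_lit 37818432)) .nil)) .nil)) .leaf)) (nat_lit 11441796798589215) (.br (nat_lit 1) (.cons (.br (nat_lit 2) (.cons (.rel (nat_lit 150996096))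 .nil)) .nil)) (.node (.node .leaf (nat_lit 11441796801036573) (.br (nat_lit 0) (.cons (.br (nat_lit 3) (.cons (.rel (nat_lit 273694752)) .nil)) .nil)) .leaf) (nat_lit 11441858460219568) (.br (nat_lit 0) (.cons (.br (nat_lit 2) (.cons (.rel (nat_lit 71565318)) .nil)) .nil)) (.node .leaf (nat_lit 11441859433555297) (.br (nat_lit 2) (.cons (.br (nat_lit 5) (.cons (.rel (nat_lit 4362113040)) .nil)) .nil)) .leaf)))

/-- refutations 52 -/
def e52 : EX := (.node (.node (.node (.node .leaf (nat_lit 11442442516088289) (.br (nat_lit 1) (.cons (.br (nat_lit 2) (.cons (.rel (nat_lit 83894784)) .nil)) .nil)) .leaf) (nat_lit 11442442575627745) (.br (nat_lit 0) (.cons (.br (nat_lit 1) (.cons (.rel (nat_lit 21241872)) .nil)) .nil)) .leaf) (nat_lit 11442442575771824) (.br (nat_lit 3) (.cons (.br (nat_lit 1) (.cons (.rel (nat_lit 570427713)) (.cons (.rel (nat_lit 285295104)) .nil))) .nil)) (.node .leaf (nat_lit 11442442576816134) (.br (nat_lit 0) (.cons (.br (nat_lit 1) (.cons (.rel (nat_lit 20988432)) .nil)) .nil))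 .leaf)) (nat_lit 11442442576898700) (.br (nat_lit 0) (.cons (.br (nat_lit 1) (.cons (.rel (nat_lit 22056960)) .nil)) .nil)) (.node (.node .leaf (nat_lit 11442741691095820) (.br (nat_lit 1) (.cons (.br (nat_lit 5) (.cons (.rel (nat_lit 8607776769)) .nil)) .nil)) .leaf) (nat_lit 11442744104043407) (.br (nat_lit 1) (.cons (.br (nat_lit 2) (.cons (.rel (nat_lit 84149256)) .nil)) .nil)) (.node .leaf (nat_lit 11442744104616236) (.br (nat_lit 1) (.cons (.br (nat_lit 5) (.cons (.rel (nat_lit 4314103872)) .nil)) .nil)) .leaf)))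

/-- refutations 53 -/
def e53 : EX := (.node (.node (.node (.node .leaf (nat_lit 11442927008029482) (.br (nat_lit 0) (.cons (.br (nat_lit 1) (.cons (.rel (nat_lit 21038592)) .nil)) .nil)) .leaf) (nat_lit 11442927950607146) (.br (nat_lit 0) (.cons (.br (nat_lit 3) (.cons (.rel (nat_lit 545263872)) (.cons (.rel (nat_lit 545263872)) .nil))) .nil)) (.node .leaf (nat_lit 11442930045002380) (.br (nat_lit 0) (.cons (.br (nat_lit 4) (.cons (.rel (nat_lit 2151682068)) .nil)) .nil)) .leaf)) (nat_lit 11442930045169795) (.br (nat_lit 2) (.cons (.br (nat_lit 4) (.cons (.rel (nat_lit 1141901316)) .nil)) .nil)) (.node (.node .leaf (nat_lit 11442930124429339) (.br (nat_lit 0) (.cons (.br (nat_lit 1) (.cons (.rel (nat_lit 25493760)) .nil)) .nil)) .leaf) (nat_lit 11442930127143789) (.br (nat_lit 2) (.cons (.br (nat_lit 4) (.cons (.rel (nat_lit 1141145616)) .nil)) .nil)) .leaf)) (nat_lit 11442930127450764) (.br (nat_lit 1) (.cons (.br (nat_lit 2) (.cons (.rel (nat_lit 83894784)) .nil)) .nil)) (.node (.node (.node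 .leaf (nat_lit 11442930127523896) (.br (nat_lit 0) (.cons (.br (nat_lit 1) (.cons (.rel (nat_lit 20988432)) .nil)) .nil)) .leaf) (nat_lit 11442932249725115) (.br (nat_lit 3) (.cons (.br (nat_lit 6) (.cons (.rel (nat_lit 17448568848)) .nil)) .nil)) (.node .leaf (nat_lit 11442932563135870) (.br (nat_lit 0) (.cons (.br (nat_lit 1) (.cons (.rel (nat_lit 21038592)) .nil)) .nil)) .leaf)) (nat_lit 11442932564341546) (.br (nat_lit 0) (.cons (.br (nat_lit 1) (.cons (.rel (nat_lit 21315588)) .nil)) .nil)) (.node (.node .leaf (nat_lit 11442933176667042) (.br (nat_lit 0) (.cons (.br (nat_lit 2) (.cons (.rel (nat_lit 75564033)) (.cons (.rel (nat_lit 72368148)) .nil))) .nil)) .leaf) (nat_lit 11442966561549788) (.br (nat_lit 2) (.cons (.br (nat_lit 4) (.cons (.rel (nat_lit 1141923840)) .nil)) .nil)) .leaf)))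

/-- refutations 54 -/
def e54 : EX := (.node (.node (.node .leaf (nat_lit 11446818200658570) (.br (nat_lit 0) (.cons (.br (nat_lit 3) (.cons (.rel (nat_lit 272891922)) .nil)) .nil)) .leaf) (nat_lit 11446824322973753) (.br (nat_lit 0) (.cons (.br (nat_lit 1) (.cons (.rel (nat_lit 22020114)) .nil)) .nil)) (.node .leaf (nat_lit 11446824323033099) (.br (nat_lit 0) (.cons (.br (nat_lit 2) (.cons (.rel (nat_lit 71569536)) .nil)) .nil)) .leaf)) (nat_lit 11446824323585410) (.br (nat_lit 0) (.cons (.br (nat_lit 3) (.cons (.rel (nat_lit 272928768)) .nil)) .nil)) (.node (.node .leaf (nat_lit 11446824323586329) (.br (nat_lit 0) (.cons (.br (nat_lit 4) (.cons (.rel (nat_lit 1079067648)) .nil)) .nil)) .leaf) (nat_lit 11446824323587458) (.br (nat_lit 0) (.cons (.br (nat_lit 1) (.cons (.rel (nat_lit 21266433)) .nil)) .nil)) (.node .leaf (nat_lit 11447207912021399) (.br (nat_lit 0) (.cons (.br (nat_lit 3) (.cons (.rel (nat_lit 272638464)) .nil)) .nil)) .leaf)))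

/-- refutations 55 -/
def e55 : EX := (.node (.node (.node (.node .leaf (nat_lit 11447806356658361) (.br (nat_lit 0) (.cons (.br (nat_lit 1) (.cons (.rel (nat_lit 21315588)) .nil)) .nil)) .leaf) (nat_lit 11447858028947512) (.br (nat_lit 2) (.cons (.br (nat_lit 3) (.cons (.rel (nat_lit 335544834)) .nil)) .nil)) .leaf) (nat_lit 11447860747354374) (.br (nat_lit 0) (.cons (.br (nat_lit 1) (.cons (.rel (nat_lit 21241872)) .nil)) .nil)) (.node (.node .leaf (nat_lit 11447860747356347) (.br (nat_lit 2) (.cons (.br (nat_lit 5) (.cons (.rel (nat_lit 4362076194)) .nil)) .nil)) .leaf) (nat_lit 11447868611674789) (.br (nat_lit 0) (.cons (.br (nat_lit 4) (.cons (.rel (nat_lit 1078263813)) .nil)) .nil)) .leaf)) (nat_lit 11447868612712633) (.br (nat_lit 1) (.cons (.br (nat_lit 2) (.cons (.rel (nat_lit 152109312)) .nil)) .nil)) (.node (.node (.node .leaf (nat_lit 11447868612714004) (.br (nat_lit 1) (.cons (.br (nat_lit 4) (.cons (.rel (nat_lit 1090798596)) .nil)) .nil)) .leaf) (nat_lit 11447868613714105) (.br (nat_lit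 1) (.cons (.br (nat_lit 4) (.cons (.rel (nat_lit 1090798596)) .nil)) .nil)) .leaf) (nat_lit 11447872387571769) (.br (nat_lit 0) (.cons (.br (nat_lit 1) (.cons (.rel (nat_lit 22021128)) .nil)) .nil)) (.node (.node .leaf (nat_lit 11447872387842810) (.br (nat_lit 0) (.cons (.br (nat_lit 1) (.cons (.rel (nat_lit 22021128)) .nil)) .nil)) .leaf) (nat_lit 11447872388597217) (.br (nat_lit 0) (.cons (.br (nat_lit 1) (.cons (.rel (nat_lit 21241872)) .nil)) .nil)) .leaf)))

/-- refutations 56 -/
def e56 : EX := (.node (.node (.node (.node .leaf (nat_lit 11448024354614774) (.br (nat_lit 0) (.cons (.br (nat_lit 3) (.cons (.rel (nat_lit 545263872)) .nil)) .nil)) .leaf) (nat_lit 11448115726912289) (.br (nat_lit 1) (.cons (.br (nat_lit 2) (.cons (.rel (nat_lit 167776512)) .nil)) .nil)) (.node .leaf (nat_lit 11448115728704289) (.br (nat_lit 1) (.cons (.br (nat_lit 2) (.cons (.rel (nat_lit 84148242)) .nil)) .nil)) .leaf)) (nat_lit 11448116268548358) (.br (nat_lit 0) (.cons (.br (nat_lit 2) (.cons (.rel (nat_lit 71566368))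 .nil)) .nil)) (.node (.node .leaf (nat_lit 11448116269308166) (.br (nat_lit 2) (.cons (.br (nat_lit 4) (.cons (.rel (nat_lit 1141145616)) .nil)) .nil)) .leaf) (nat_lit 11448116269309431) (.br (nat_lit 0) (.cons (.br (nat_lit 2) (.cons (.rel (nat_lit 71602212)) .nil)) .nil)) (.node .leaf (nat_lit 11448116271100166) (.br (nat_lit 2) (.cons (.br (nat_lit 3) (.cons (.rel (nat_lit 335806548)) .nil)) .nil)) .leaf))) (nat_lit 11448236110466434) (.br (nat_lit 2) (.cons (.br (nat_lit 3) (.cons (.rel (nat_lit 671088897)) .nil)) .nil)) (.node (.node (.node .leaf (nat_lit 11448239207222549) (.br (nat_lit 0) (.cons (.br (nat_lit 4) (.cons (.rel (nat_lit 1078214658)) .nil)) .nil)) .leaf) (nat_lit 11448239209841270) (.br (nat_lit 0) (.cons (.br (nat_lit 1) (.cons (.rel (nat_lit 21235872)) .nil)) .nil)) (.node .leaf (nat_lit 11448240782770832) (.br (nat_lit 5) (.cons (.br (nat_lit 3) (.cons (.rel (nat_lit 4563403812)) (.cons (.rel (nat_lit 4563501057)) .nil))) .nil)) .leaf)) (nat_lit 11448280928486932) (.br (nat_lit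 0) (.cons (.br (nat_lit 5) (.cons (.rel (nat_lit 8598324288)) .nil)) .nil)) (.node (.node .leaf (nat_lit 11448282157417378) (.br (nat_lit 0) (.cons (.br (nat_lit 3) (.cons (.rel (nat_lit 273694752)) .nil)) .nil)) .leaf) (nat_lit 11448283730086064) (.br (nat_lit 0) (.cons (.br (nat_lit 1) (.cons (.rel (nat_lit 20988432)) .nil)) .nil)) (.node .leaf (nat_lit 11448283730130303) (.br (nat_lit 0) (.cons (.br (nat_lit 2) (.cons (.rel (nat_lit 73401600)) .nil)) .nil)) .leaf))))

/-- refutations 57 -/
def e57 : EX := (.node .leaf (nat_lit 11178663208326677) (.br (nat_lit 2) (.cons (.br (nat_lit 4) (.cons (.rel (nat_lit 1141129284)) .nil)) .nil)) .leaf)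

/-- refutations 58 -/
def e58 : EX := (.node (.node (.node .leaf (nat_lit 11628745291016248) (.br (nat_lit 0) (.cons (.br (nat_lit 2) (.cons (.rel (nat_lit 73401600)) .nil)) .nil)) .leaf) (nat_lit 11628748139241757) (.br (nat_lit 1) (.cons (.br (nat_lit 2) (.cons (.rel (nat_lit 84279360)) .nil)) .nil)) (.node .leaf (nat_lit 11629509347940478) (.br (nat_lit 2) (.cons (.br (nat_lit 3) (.cons (.rel (nat_lit 603979812)) .nil)) .nil)) .leaf)) (nat_lit 11629511491231101) (.br (nat_lit 0) (.cons (.br (nat_lit 2) (.cons (.rel (nat_lit 71565318)) .nil)) .nil)) (.node (.node .leaf (nat_lit 11629514532101652) (.br (nat_lit 0) (.cons (.br (nat_lit 2) (.cons (.rel (nat_lit 72368148)) .nil)) .nil)) .leaf) (nat_lit 11630588257403131) (.br (nat_lit 0) (.cons (.br (nat_lit 2) (.cons (.rel (nat_lit 71369280)) .nil)) .nil)) .leaf))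

/-- refutations 59 -/
def e59 : EX := (.node (.node (.node (.node (.node .leaf (nat_lit 11633804260711956) (.br (nat_lit 1) (.cons (.br (nat_lit 4) (.cons (.rel (nat_lit 1090785288)) .nil)) .nil)) .leaf) (nat_lit 11633804340451380) (.br (nat_lit 0) (.cons (.br (nat_lit 1) (.cons (.rel (nat_lit 21238848)) .nil)) .nil)) .leaf) (nat_lit 11633804763696656) (.br (nat_lit 0) (.cons (.br (nat_lit 4) (.cons (.rel (nat_lit 1082262528)) .nil)) .nil)) (.node .leaf (nat_lit 11633804764005162) (.br (nat_lit 0) (.cons (.br (nat_lit 2) (.cons (.rel (nat_lit 75497541)) .nil)) .nil)) .leaf)) (nat_lit 11633804764005904) (.br (nat_lit 0) (.cons (.br (nat_lit 2) (.cons (.rel (nat_lit 75563028)) .nil)) .nil)) (.node (.node .leaf (nat_lit 11633804764014096) (.br (nat_lit 0) (.cons (.br (nat_lit 2) (.cons (.rel (nat_lit 73401600)) .nil)) .nil)) .leaf) (nat_lit 11633806411351417) (.br (nat_lit 0) (.cons (.br (nat_lit 1) (.cons (.rel (nat_lit 21038592)) .nil)) .nil)) (.node .leaf (nat_lit 11633806413646450) (.br (nat_lit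 0) (.cons (.br (nat_lit 2) (.cons (.rel (nat_lit 71566368)) .nil)) .nil)) .leaf))) (nat_lit 11633806964938879) (.br (nat_lit 0) (.cons (.br (nat_lit 2) (.cons (.rel (nat_lit 72351816)) .nil)) .nil)) (.node (.node (.node .leaf (nat_lit 11633806966036492) (.br (nat_lit 0) (.cons (.br (nat_lit 1) (.cons (.rel (nat_lit 20976129)) .nil)) .nil)) .leaf) (nat_lit 11633807610716445) (.br (nat_lit 4) (.cons (.br (nat_lit 6) (.cons (.rel (nat_lit 18253873233)) .nil)) .nil)) (.node .leaf (nat_lit 11633810081161501) (.br (nat_lit 4) (.cons (.br (nat_lit 5) (.cons (.rel (nat_lit 5368710216)) .nil)) .nil)) .leaf)) (nat_lit 11633810083373686) (.br (nat_lit 3) (.cons (.br (nat_lit 5) (.cons (.rel (nat_lit 4563406980)) .nil)) .nil)) (.node (.node .leaf (nat_lit 11634121617226035) (.br (nat_lit 0) (.cons (.br (nat_lit 1) (.cons (.rel (nat_lit 20972100)) .nil)) .nil)) .leaf) (nat_lit 11635321328949909) (.br (nat_lit 1) (.cons (.br (nat_lit 3) (.cons (.rel (nat_lit 285548544)) .nil)) .nil)) (.node .leaf (nat_lit 11636263181393377)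 (.br (nat_lit 0) (.cons (.br (nat_lit 1) (.cons (.rel (nat_lit 22021128)) .nil)) .nil)) .leaf))))

/-- refutations 60 -/
def e60 : EX := (.node .leaf (nat_lit 11641634911934591) (.br (nat_lit 0) (.cons (.br (nat_lit 1) (.cons (.rel (nat_lit 22056960)) .nil)) .nil)) .leaf)

/-- refutations 61 -/
def e61 : EX := (.node (.node .leaf (nat_lit 11880099790498418) (.br (nat_lit 1) (.cons (.br (nat_lit 4) (.cons (.rel (nat_lit 2181039360)) .nil)) .nil)) .leaf) (nat_lit 11880100626974083) (.br (nat_lit 0) (.cons (.br (nat_lit 3) (.cons (.rel (nat_lit 273678420)) .nil)) .nil)) (.node .leaf (nat_lit 11880100629310117) (.br (nat_lit 5) (.cons (.br (nat_lit 2) (.cons (.rel (nat_lit 8724152337)) (.cons (.rel (nat_lit 4362100737)) .nil))) .nil)) .leaf))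

/-- refutations 62 -/
def e62 : EX := (.node .leaf (nat_lit 11880315016141435) (.br (nat_lit 0) (.cons (.br (nat_lit 1) (.cons (.rel (nat_lit 21266433)) .nil)) .nil)) .leaf)

/-- refutations 65 -/
def e65 : EX := (.node (.node (.node (.node .leaf (nat_lit 11898811798888733) (.br (nat_lit 0) (.cons (.br (nat_lit 3) (.cons (.rel (nat_lit 541130817)) .nil)) .nil)) .leaf) (nat_lit 11898811989879460) (.br (nat_lit 1) (.cons (.br (nat_lit 0) (.cons (.rel (nat_lit 20976129)) (.cons (.rel (nat_lit 22021128)) .nil))) .nil)) .leaf) (nat_lit 11898811990192885) (.br (nat_lit 0) (.cons (.br (nat_lit 4) (.cons (.rel (nat_lit 2151679044)) .nil)) .nil)) (.node (.node .leaf (nat_lit 11903102044630248) (.br (nat_lit 2) (.cons (.br (nat_lit 3) (.cons (.rel (nat_lit 603979812)) .nil)) .nil)) .leaf) (nat_lit 11904389276208354) (.br (nat_lit 2) (.cons (.br (nat_lit 4) (.cons (.rel (nat_lit 1140855312)) (.cons (.rel (nat_lit 1140852288)) .nil))) .nil)) .leaf)) (nat_lit 11904389276527998) (.br (nat_lit 0) (.cons (.br (nat_lit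 1) (.cons (.rel (nat_lit 20976129)) .nil)) .nil)) (.node (.node (.node .leaf (nat_lit 11904389277614736) (.br (nat_lit 2) (.cons (.br (nat_lit 3) (.cons (.rel (nat_lit 335812644)) .nil)) .nil)) .leaf) (nat_lit 11905256859602146) (.br (nat_lit 1) (.cons (.br (nat_lit 2) (.cons (.rel (nat_lit 84149256)) .nil)) .nil)) .leaf) (nat_lit 11905478091605498) (.br (nat_lit 0) (.cons (.br (nat_lit 2) (.cons (.rel (nat_lit 72351816)) .nil)) .nil)) (.node .leaf (nat_lit 11905478094162827) (.br (nat_lit 0) (.cons (.br (nat_lit 2) (.cons (.rel (nat_lit 138674448)) .nil)) .nil)) .leaf)))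

/-- refutations 66 -/
def e66 : EX := (.node (.node .leaf (nat_lit 12087338773022896) (.br (nat_lit 0) (.cons (.br (nat_lit 2) (.cons (.rel (nat_lit 75563028)) .nil)) .nil)) .leaf) (nat_lit 12091524351571969) (.br (nat_lit 1) (.cons (.br (nat_lit 2) (.cons (.rel (nat_lit 84185088)) .nil)) .nil)) (.node .leaf (nat_lit 12099192458092033) (.br (nat_lit 0) (.cons (.br (nat_lit 2) (.cons (.rel (nat_lit 72368148)) .nil)) .nil)) .leaf))

/-- refutations 67 -/
def e67 : EX := (.node (.node (.node .leaf (nat_lit 13283481377056929) (.br (nat_lit 1) (.cons (.br (nat_lit 2) (.cons (.rel (nat_lit 167776512)) .nil)) .nil)) .leaf) (nat_lit 13287469750369141) (.br (nat_lit 0) (.cons (.br (nat_lit 1) (.cons (.rel (nat_lit 21038592)) .nil)) .nil)) .leaf) (nat_lit 13289848847205252) (.br (nat_lit 0) (.cons (.br (nat_lit 1) (.cons (.rel (nat_lit 21238848)) .nil)) .nil)) (.node .leaf (nat_lit 13289854606234376) (.br (nat_lit 0) (.cons (.br (nat_lit 1) (.cons (.rel (nat_lit 20976129)) .nil)) .nil)) .leaf))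

/-- refutations 68 -/
def e68 : EX := (.node (.node .leaf (nat_lit 13636397706817697) (.br (nat_lit 1) (.cons (.br (nat_lit 3) (.cons (.rel (nat_lit 285295104)) .nil)) .nil)) .leaf) (nat_lit 13639313420650783) (.br (nat_lit 0) (.cons (.br (nat_lit 2) (.cons (.rel (nat_lit 71369280)) .nil)) .nil)) (.node .leaf (nat_lit 13639316795650334) (.br (nat_lit 1) (.cons (.br (nat_lit 2) (.cons (.rel (nat_lit 101712132)) .nil)) .nil)) .leaf))

/-- refutations 69 -/
def e69 : EX := (.node (.node .leaf (nat_lit 13640392615424775) (.br (nat_lit 5) (.cons (.br (nat_lit 6) (.cons (.rel (nat_lit 21475136772)) .nil)) .nil)) .leaf) (nat_lit 13644744458820839) (.br (nat_lit 0) (.cons (.br (nat_lit 1) (.cons (.rel (nat_lit 21238848)) .nil)) .nil)) .leaf)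

/-- refutations 70 -/
def e70 : EX := (.node (.node (.node .leaf (nat_lit 13670306458665736) (.br (nat_lit 3) (.cons (.br (nat_lit 5) (.cons (.rel (nat_lit 4563411009)) .nil)) .nil)) .leaf) (nat_lit 13670311710963723) (.br (nat_lit 2) (.cons (.br (nat_lit 4) (.cons (.rel (nat_lit 1141133313)) .nil)) .nil)) (.node .leaf (nat_lit 13674729219301637) (.br (nat_lit 1) (.cons (.br (nat_lit 2) (.cons (.rel (nat_lit 84934740)) .nil)) .nil)) .leaf)) (nat_lit 13675623625001717) (.br (nat_lit 2) (.cons (.br (nat_lit 3) (.cons (.rel (nat_lit 402653208)) .nil)) .nil)) (.node (.node .leaf (nat_lit 13675623625001841) (.br (nat_lit 1) (.cons (.br (nat_lit 2) (.cons (.rel (nat_lit 84427008)) .nil)) .nil)) .leaf) (nat_lit 13675623626597128) (.br (nat_lit 1) (.cons (.br (nat_lit 2) (.cons (.rel (nat_lit 167776512)) .nil)) .nil)) (.node .leaf (nat_lit 13675623626597908) (.br (nat_lit 0) (.cons (.br (nat_lit 1) (.cons (.rel (nat_lit 25165848)) .nil)) .nil)) .leaf)))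

/-- refutations 71 -/
def e71 : EX := (.node (.node (.node (.node (.node .leaf (nat_lit 13677135033042276) (.br (nat_lit 1) (.cons (.br (nat_lit 4) (.cons (.rel (nat_lit 1090781250)) .nil)) .nil)) .leaf) (nat_lit 13679910208199912) (.br (nat_lit 1) (.cons (.br (nat_lit 2) (.cons (.rel (nat_lit 85001232)) .nil)) .nil)) .leaf) (nat_lit 13679912095636712) (.br (nat_lit 0) (.cons (.br (nat_lit 4) (.cons (.rel (nat_lit 2151680097)) .nil)) .nil)) (.node .leaf (nat_lit 13680358978062992) (.br (nat_lit 1) (.cons (.br (nat_lit 3) (.cons (.rel (nat_lit 286261344)) .nil)) .nil)) .leaf)) (nat_lit 13680358978782496) (.br (nat_lit 0) (.cons (.br (nat_lit 2) (.cons (.rel (nat_lit 71369280)) (.cons (.rel (nat_lit 71712768)) .nil))) (.cons (.br (nat_lit 5) (.cons (.rel (nat_lit 8594392065)) (.cons (.rel (nat_lit 4299424002)) (.cons (.rel (nat_lit 8594391060)) .nil)))) .nil))) (.node (.node .leaf (nat_lit 13680358979046688) (.br (nat_lit 0) (.cons (.br (nat_lit 1) (.cons (.rel (nat_lit 20988432)) .nil)) .nil)) .leaf)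 (nat_lit 13681198492918637) (.br (nat_lit 1) (.cons (.br (nat_lit 4) (.cons (.rel (nat_lit 1090787346)) .nil)) .nil)) (.node .leaf (nat_lit 13681200067055095) (.br (nat_lit 0) (.cons (.br (nat_lit 1) (.cons (.rel (nat_lit 20988432)) .nil)) .nil)) .leaf))) (nat_lit 13682067648871176) (.br (nat_lit 0) (.cons (.br (nat_lit 1) (.cons (.rel (nat_lit 21241872)) .nil)) .nil)) (.node (.node (.node (.node .leaf (nat_lit 13682067648871330) (.br (nat_lit 1) (.cons (.br (nat_lit 5) (.cons (.rel (nat_lit 4329046032)) .nil)) .nil)) .leaf) (nat_lit 13682067648871831) (.br (nat_lit 2) (.cons (.br (nat_lit 6) (.cons (.rel (nat_lit 17248043010)) .nil)) .nil)) .leaf) (nat_lit 13682067649077904) (.br (nat_lit 1) (.cons (.br (nat_lit 2) (.cons (.rel (nat_lit 150996096)) .nil)) .nil)) (.node .leaf (nat_lit 13682068374692770) (.br (nat_lit 1) (.cons (.br (nat_lit 2) (.cons (.rel (nat_lit 100679685)) .nil)) .nil)) .leaf)) (nat_lit 13682289118047618) (.br (nat_lit 0) (.cons (.br (nat_lit 3) (.cons (.rel (nat_lit 276842496))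 .nil)) .nil)) (.node (.node .leaf (nat_lit 13682291086458362) (.br (nat_lit 0) (.cons (.br (nat_lit 2) (.cons (.rel (nat_lit 71566368)) .nil)) .nil)) .leaf) (nat_lit 13682291086458384) (.br (nat_lit 1) (.cons (.br (nat_lit 3) (.cons (.rel (nat_lit 302006289)) .nil)) .nil)) (.node .leaf (nat_lit 13682444036242185) (.br (nat_lit 0) (.cons (.br (nat_lit 6) (.cons (.rel (nat_lit 17188278336)) .nil)) .nil)) .leaf))))

/-- refutations 72 -/
def e72 : EX := (.node (.node (.node .leaf (nat_lit 13405560989069612) (.br (nat_lit 3) (.cons (.br (nat_lit 5) (.cons (.rel (nat_lit 8858638341)) .nil)) .nil)) .leaf) (nat_lit 13412130232408825) (.br (nat_lit 1) (.cons (.br (nat_lit 3) (.cons (.rel (nat_lit 286261344)) .nil)) .nil)) .leaf) (nat_lit 13417058006932217) (.br (nat_lit 0) (.cons (.br (nat_lit 1) (.cons (.rel (nat_lit 21315588)) .nil)) .nil)) (.node .leaf (nat_lit 13745997296433909) (.br (nat_lit 0) (.cons (.br (nat_lit 1) (.cons (.rel (nat_lit 21038592)) .nil)) .nil)) .leaf))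

/-- refutations 73 -/
def e73 : EX := (.node (.node (.node (.node .leaf (nat_lit 14197204157535618) (.br (nat_lit 0) (.cons (.br (nat_lit 1) (.cons (.rel (nat_lit 20972100)) .nil)) .nil)) .leaf) (nat_lit 14199041726863487) (.br (nat_lit 1) (.cons (.br (nat_lit 4) (.cons (.rel (nat_lit 1090798596)) .nil)) .nil)) (.node .leaf (nat_lit 14202263518331791) (.br (nat_lit 2) (.cons (.br (nat_lit 4) (.cons (.rel (nat_lit 1140855312)) .nil)) .nil)) .leaf)) (nat_lit 14202268645105172) (.br (nat_lit 0) (.cons (.br (nat_lit 1) (.cons (.rel (nat_lit 22056960)) .nil)) .nil)) (.node (.node .leaf (nat_lit 14202268645398032) (.br (nat_lit 0) (.cons (.br (nat_lit 1) (.cons (.rel (nat_lit 25198656)) .nil)) .nil)) .leaf) (nat_lit 14202268646156543) (.br (nat_lit 0) (.cons (.br (nat_lit 1) (.cons (.rel (nat_lit 25198656)) .nil)) .nil)) (.node .leaf (nat_lit 14202268646157173) (.br (nat_lit 0) (.cons (.br (nat_lit 2) (.cons (.rel (nat_lit 75497541)) .nil)) .nil)) .leaf))) (nat_lit 14202268646371583) (.br (nat_lit 3)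 (.cons (.br (nat_lit 1) (.cons (.rel (nat_lit 285475860)) (.cons (.rel (nat_lit 286261344)) .nil))) .nil)) (.node (.node (.node .leaf (nat_lit 14202268646421106) (.br (nat_lit 6) (.cons (.br (nat_lit 0) (.cons (.rel (nat_lit 17184408576)) (.cons (.rel (nat_lit 17184395268)) .nil))) .nil)) .leaf) (nat_lit 14203614853402800) (.br (nat_lit 0) (.cons (.br (nat_lit 2) (.cons (.rel (nat_lit 138429504)) .nil)) .nil)) (.node .leaf (nat_lit 14203614853418515) (.br (nat_lit 0) (.cons (.br (nat_lit 2) (.cons (.rel (nat_lit 75563028)) .nil)) .nil)) .leaf)) (nat_lit 14203615137996003) (.br (nat_lit 3) (.cons (.br (nat_lit 2) (.cons (.rel (nat_lit 335682048)) (.cons (.rel (nat_lit 335807553)) .nil))) .nil)) (.node (.node .leaf (nat_lit 14203617265128976) (.br (nat_lit 0) (.cons (.br (nat_lit 2) (.cons (.rel (nat_lit 71712768)) .nil)) .nil)) .leaf) (nat_lit 14203617893651684) (.br (nat_lit 0) (.cons (.br (nat_lit 3) (.cons (.rel (nat_lit 545263872)) .nil)) .nil)) (.node .leaf (nat_lit 14203617893981716) (.br (nat_lit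 0) (.cons (.br (nat_lit 3) (.cons (.rel (nat_lit 272891922)) .nil)) .nil)) .leaf))))

/-- refutations 74 -/
def e74 : EX := (.node (.node (.node .leaf (nat_lit 14209993894858764) (.br (nat_lit 0) (.cons (.br (nat_lit 1) (.cons (.rel (nat_lit 20988432)) .nil)) .nil)) .leaf) (nat_lit 14210088382236859) (.br (nat_lit 0) (.cons (.br (nat_lit 2) (.cons (.rel (nat_lit 71569536)) .nil)) .nil)) .leaf) (nat_lit 14210088384139391) (.br (nat_lit 0) (.cons (.br (nat_lit 1) (.cons (.rel (nat_lit 22056960)) .nil)) .nil)) (.node (.node .leaf (nat_lit 14210088384139920) (.br (nat_lit 0) (.cons (.br (nat_lit 4) (.cons (.rel (nat_lit 1079054340)) .nil)) .nil)) .leaf) (nat_lit 14210093776185400) (.br (nat_lit 1) (.cons (.br (nat_lit 4) (.cons (.rel (nat_lit 1091584080)) .nil)) .nil)) .leaf))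

/-- refutations 75 -/
def e75 : EX := (.node (.node (.node .leaf (nat_lit 13757094881903222) (.br (nat_lit 1) (.cons (.br (nat_lit 2) (.cons (.rel (nat_lit 83894784)) .nil)) .nil)) .leaf) (nat_lit 13765101283295533) (.br (nat_lit 0) (.cons (.br (nat_lit 4) (.cons (.rel (nat_lit 1079017488)) .nil)) .nil)) .leaf) (nat_lit 13765101283946797) (.br (nat_lit 0) (.cons (.br (nat_lit 2) (.cons (.rel (nat_lit 138420225)) .nil)) .nil)) (.node .leaf (nat_lit 14180476606277769) (.br (nat_lit 0) (.cons (.br (nat_lit 2) (.cons (.rel (nat_lit 77856768)) .nil)) .nil)) .leaf))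

/-- refutations 76 -/
def e76 : EX := (.node (.node .leaf (nat_lit 14250959291332910) (.br (nat_lit 0) (.cons (.br (nat_lit 2) (.cons (.rel (nat_lit 75497541)) .nil)) .nil)) .leaf) (nat_lit 14256164794565384) (.br (nat_lit 2) (.cons (.br (nat_lit 1) (.cons (.rel (nat_lit 83894784)) (.cons (.rel (nat_lit 83894784)) .nil))) .nil)) .leaf)

/-- refutations 77 -/
def e77 : EX := (.node (.node (.node (.node .leaf (nat_lit 15517817144317156) (.br (nat_lit 5) (.cons (.br (nat_lit 0) (.cons (.rel (nat_lit 4300214529)) (.cons (.rel (nat_lit 4299293700)) .nil))) .nil)) .leaf) (nat_lit 15517817144325356) (.br (nat_lit 0) (.cons (.br (nat_lit 4) (.cons (.rel (nat_lit 1077973506)) .nil)) .nil)) (.node .leaf (nat_lit 15517817144339684) (.br (nat_lit 3) (.cons (.br (nat_lit 6) (.cons (.rel (nat_lit 17448566793)) .nil)) .nil)) .leaf)) (nat_lit 15517817144426631) (.br (nat_lit 0) (.cons (.br (nat_lit 1) (.cons (.rel (nat_lit 21238848)) .nil)) .nil)) (.node (.node .leaf (nat_lit 15517817145861348) (.br (nat_lit 0)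 (.cons (.br (nat_lit 6) (.cons (.rel (nat_lit 17184358416)) .nil)) .nil)) .leaf) (nat_lit 15517871564642431) (.br (nat_lit 0) (.cons (.br (nat_lit 1) (.cons (.rel (nat_lit 21266433)) .nil)) .nil)) (.node .leaf (nat_lit 15517871565411185) (.br (nat_lit 0) (.cons (.br (nat_lit 1) (.cons (.rel (nat_lit 20988432)) .nil)) .nil)) .leaf))) (nat_lit 15521677377733485) (.br (nat_lit 0) (.cons (.br (nat_lit 2) (.cons (.rel (nat_lit 71566368)) .nil)) .nil)) (.node (.node (.node .leaf (nat_lit 15521677959227444) (.br (nat_lit 0) (.cons (.br (nat_lit 4) (.cons (.rel (nat_lit 1077936657)) .nil)) .nil)) .leaf) (nat_lit 15521677959228644) (.br (nat_lit 1) (.cons (.br (nat_lit 2) (.cons (.rel (nat_lit 83894784)) .nil)) .nil)) (.node .leaf (nat_lit 15521677960611044) (.br (nat_lit 0) (.cons (.br (nat_lit 1) (.cons (.rel (nat_lit 20976129)) .nil)) .nil)) .leaf)) (nat_lit 15521682254173412) (.br (nat_lit 0) (.cons (.br (nat_lit 4) (.cons (.rel (nat_lit 1078202400)) .nil)) .nil)) (.node (.node .leaf (nat_lit 15521683227251940)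 (.br (nat_lit 4) (.cons (.br (nat_lit 0) (.cons (.rel (nat_lit 2155897089)) (.cons (.rel (nat_lit 1078222917)) .nil))) .nil)) .leaf) (nat_lit 15521683227274468) (.br (nat_lit 0) (.cons (.br (nat_lit 4) (.cons (.rel (nat_lit 2155897089)) .nil)) .nil)) (.node .leaf (nat_lit 15521683227274472) (.br (nat_lit 0) (.cons (.br (nat_lit 4) (.cons (.rel (nat_lit 2155874565)) .nil)) .nil)) .leaf))))

/-- refutations 78 -/
def e78 : EX := (.node (.node (.node (.node .leaf (nat_lit 15523867341151089) (.br (nat_lit 0) (.cons (.br (nat_lit 2) (.cons (.rel (nat_lit 71569536)) .nil)) .nil)) .leaf) (nat_lit 15523868394369676) (.br (nat_lit 0) (.cons (.br (nat_lit 1) (.cons (.rel (nat_lit 22151232)) .nil)) .nil)) (.node .leaf (nat_lit 15523933177000821) (.br (nat_lit 0) (.cons (.br (nat_lit 1) (.cons (.rel (nat_lit 25166853)) .nil)) .nil)) .leaf)) (nat_lit 15523933177746668) (.br (nat_lit 0) (.cons (.br (nat_lit 2) (.cons (.rel (nat_lit 75501570)) .nil)) .nil)) (.node (.node .leaf (nat_lit 15524316639455359) (.br (nat_lit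 0) (.cons (.br (nat_lit 1) (.cons (.rel (nat_lit 25165848)) .nil)) .nil)) .leaf) (nat_lit 15524319724057453) (.br (nat_lit 0) (.cons (.br (nat_lit 3) (.cons (.rel (nat_lit 272891922)) .nil)) .nil)) .leaf)) (nat_lit 15524319724803300) (.br (nat_lit 0) (.cons (.br (nat_lit 5) (.cons (.rel (nat_lit 4299163776)) (.cons (.rel (nat_lit 4299182082)) .nil))) .nil)) (.node (.node (.node .leaf (nat_lit 15524319725118692) (.br (nat_lit 0) (.cons (.br (nat_lit 2) (.cons (.rel (nat_lit 71567385)) .nil)) .nil)) .leaf) (nat_lit 15527108365791363) (.br (nat_lit 4) (.cons (.br (nat_lit 6) (.cons (.rel (nat_lit 18253611528)) .nil)) .nil)) .leaf) (nat_lit 15528119356172340) (.br (nat_lit 0) (.cons (.br (nat_lit 2) (.cons (.rel (nat_lit 71712768)) .nil)) .nil)) (.node (.node .leaf (nat_lit 15528400554895495) (.br (nat_lit 0) (.cons (.br (nat_lit 1) (.cons (.rel (nat_lit 21315588)) .nil)) .nil)) .leaf) (nat_lit 15529506139876138) (.br (nat_lit 2) (.cons (.br (nat_lit 4) (.cons (.rel (nat_lit 1141964928)) .nil)) .nil))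 .leaf)))

/-- refutations 80 -/
def e80 : EX := (.node (.node (.node (.node .leaf (nat_lit 15587856310009991) (.br (nat_lit 0) (.cons (.br (nat_lit 1) (.cons (.rel (nat_lit 21238848)) .nil)) .nil)) .leaf) (nat_lit 15588183372036272) (.br (nat_lit 0) (.cons (.br (nat_lit 5) (.cons (.rel (nat_lit 4299166800)) .nil)) .nil)) .leaf) (nat_lit 15588274669350124) (.br (nat_lit 3) (.cons (.br (nat_lit 5) (.cons (.rel (nat_lit 8858697732)) .nil)) .nil)) (.node .leaf (nat_lit 15588278445745013) (.br (nat_lit 0) (.cons (.br (nat_lit 3) (.cons (.rel (nat_lit 541099008)) .nil)) .nil)) .leaf)) (nat_lit 15592051447141604) (.br (nat_lit 0) (.cons (.br (nat_lit 2) (.cons (.rel (nat_lit 75564033)) .nil)) .nil)) (.node (.node .leaf (nat_lit 15592051447164136) (.br (nat_lit 0) (.cons (.br (nat_lit 1) (.cons (.rel (nat_lit 20976129)) .nil)) .nil)) .leaf) (nat_lit 15592051448956132) (.br (nat_lit 0) (.cons (.br (nat_lit 1) (.cons (.rel (nat_lit 25198656)) .nil)) .nil)) (.node .leaf (nat_lit 15592051988206820) (.br (nat_lit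 3) (.cons (.br (nat_lit 4) (.cons (.br (nat_lit 0) (.cons (.rel (nat_lit 1083179328)) (.cons (.rel (nat_lit 1078199376)) .nil))) .nil)) .nil)) .leaf)))

/-- refutations 81 -/
def e81 : EX := (.node (.node (.node .leaf (nat_lit 15594717120293040) (.br (nat_lit 0) (.cons (.br (nat_lit 5) (.cons (.rel (nat_lit 4299178053)) .nil)) .nil)) .leaf) (nat_lit 15594717120293749) (.br (nat_lit 0) (.cons (.br (nat_lit 1) (.cons (.rel (nat_lit 20976129)) .nil)) .nil)) (.node .leaf (nat_lit 15594717120600874) (.br (nat_lit 0) (.cons (.br (nat_lit 1) (.cons (.rel (nat_lit 20976129)) .nil)) .nil)) .leaf)) (nat_lit 15594720686811788) (.br (nat_lit 0) (.cons (.br (nat_lit 2) (.cons (.rel (nat_lit 72418308)) .nil)) .nil)) (.node (.node .leaf (nat_lit 15594723457873132) (.br (nat_lit 1) (.cons (.br (nat_lit 3) (.cons (.rel (nat_lit 286267392)) .nil)) .nil)) .leaf) (nat_lit 15599871080112904) (.br (nat_lit 1) (.cons (.br (nat_lit 4) (.cons (.rel (nat_lit 1091637264)) .nil)) .nil)) .leaf))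

/-- refutations 83 -/
def e83 : EX := (.node .leaf (nat_lit 15869329901394595) (.br (nat_lit 0) (.cons (.br (nat_lit 2) (.cons (.rel (nat_lit 71569536)) .nil)) .nil)) .leaf)

/-- refutations 84 -/
def e84 : EX := (.node (.node .leaf (nat_lit 15923597773601428) (.br (nat_lit 0) (.cons (.br (nat_lit 4) (.cons (.rel (nat_lit 1079017488)) .nil)) .nil)) .leaf) (nat_lit 15926297121628921) (.br (nat_lit 2) (.cons (.br (nat_lit 3) (.cons (.rel (nat_lit 335807553)) .nil)) .nil)) (.node .leaf (nat_lit 15926297124078445) (.br (nat_lit 2) (.cons (.br (nat_lit 3) (.cons (.rel (nat_lit 671088897)) .nil)) .nil)) .leaf))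

/-- refutations 85 -/
def e85 : EX := (.node .leaf (nat_lit 16021825855471917) (.br (nat_lit 2) (.cons (.br (nat_lit 4) (.cons (.rel (nat_lit 1208025090)) (.cons (.rel (nat_lit 1141133313)) .nil))) (.cons (.br (nat_lit 4) (.cons (.rel (nat_lit 1208025090)) (.cons (.rel (nat_lit 1141145616)) .nil))) .nil))) .leaf)

/-- refutations 86 -/
def e86 : EX := (.node (.node (.node (.node (.node .leaf (nat_lit 16027864572081388) (.br (nat_lit 0) (.cons (.br (nat_lit 2) (.cons (.rel (nat_lit 138432528)) .nil)) .nil)) .leaf) (nat_lit 16027864572123398) (.br (nat_lit 0) (.cons (.br (nat_lit 2) (.cons (.rel (nat_lit 75513873)) .nil)) .nil)) (.node .leaf (nat_lit 16027864572583991) (.br (nat_lit 0) (.cons (.br (nat_lit 2) (.cons (.rel (nat_lit 71566368)) .nil)) .nil)) .leaf)) (nat_lit 16027864572585237) (.br (nat_lit 0) (.cons (.br (nat_lit 6) (.cons (.rel (nat_lit 17185112097)) .nil)) .nil)) (.node (.node .leaf (nat_lit 16027864573682540) (.br (nat_lit 2) (.cons (.br (nat_lit 4) (.cons (.rel (nat_lit 1141145616))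 .nil)) .nil)) .leaf) (nat_lit 16027864573872888) (.br (nat_lit 0) (.cons (.br (nat_lit 2) (.cons (.rel (nat_lit 75563028)) .nil)) .nil)) (.node .leaf (nat_lit 16027864573873429) (.br (nat_lit 0) (.cons (.br (nat_lit 2) (.cons (.rel (nat_lit 75563028)) (.cons (.rel (nat_lit 75513873)) .nil))) .nil)) .leaf))) (nat_lit 16028044962500066) (.br (nat_lit 0) (.cons (.br (nat_lit 1) (.cons (.rel (nat_lit 20988432)) .nil)) .nil)) (.node (.node (.node .leaf (nat_lit 16034307021788516) (.br (nat_lit 0) (.cons (.br (nat_lit 2) (.cons (.rel (nat_lit 71369280)) .nil)) .nil)) .leaf) (nat_lit 16034307024663440) (.br (nat_lit 0) (.cons (.br (nat_lit 2) (.cons (.rel (nat_lit 71369280)) .nil)) .nil)) (.node .leaf (nat_lit 16038292751460652) (.br (nat_lit 1) (.cons (.br (nat_lit 3) (.cons (.rel (nat_lit 285476865)) .nil)) .nil)) .leaf)) (nat_lit 16038292752719200) (.br (nat_lit 0) (.cons (.br (nat_lit 1) (.cons (.rel (nat_lit 20972100)) .nil)) .nil)) (.node (.node .leaf (nat_lit 16038567629397373) (.br (nat_lit 2) (.cons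 (.br (nat_lit 6) (.cons (.rel (nat_lit 17248043010)) .nil)) .nil)) .leaf) (nat_lit 16038567630625030) (.br (nat_lit 2) (.cons (.br (nat_lit 4) (.cons (.rel (nat_lit 1140855312)) .nil)) .nil)) (.node .leaf (nat_lit 16038567632374447) (.br (nat_lit 0) (.cons (.br (nat_lit 2) (.cons (.rel (nat_lit 138432528)) .nil)) .nil)) .leaf)))) (nat_lit 16038567632375061) (.br (nat_lit 0) (.cons (.br (nat_lit 1) (.cons (.rel (nat_lit 25165848)) .nil)) .nil)) (.node (.node (.node (.node .leaf (nat_lit 16039427042491873) (.br (nat_lit 0) (.cons (.br (nat_lit 2) (.cons (.rel (nat_lit 72368148)) .nil)) .nil)) .leaf) (nat_lit 16039427045073772) (.br (nat_lit 0) (.cons (.br (nat_lit 1) (.cons (.rel (nat_lit 22020114)) .nil)) .nil)) (.node .leaf (nat_lit 16039430293077473) (.br (nat_lit 1) (.cons (.br (nat_lit 2) (.cons (.rel (nat_lit 84148242)) .nil)) .nil)) .leaf)) (nat_lit 16039431912078817) (.br (nat_lit 0) (.cons (.br (nat_lit 5) (.cons (.rel (nat_lit 4299169824)) .nil)) .nil)) (.node (.node .leaf (nat_lit 16039675730856123)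 (.br (nat_lit 0) (.cons (.br (nat_lit 2) (.cons (.rel (nat_lit 72355845)) .nil)) .nil)) .leaf) (nat_lit 16039675730931040) (.br (nat_lit 0) (.cons (.br (nat_lit 4) (.cons (.rel (nat_lit 2151682068)) .nil)) .nil)) (.node .leaf (nat_lit 16039675731163398) (.br (nat_lit 0) (.cons (.br (nat_lit 1) (.cons (.rel (nat_lit 37748772)) .nil)) .nil)) .leaf))) (nat_lit 16039675731163898) (.br (nat_lit 0) (.cons (.br (nat_lit 6) (.cons (.rel (nat_lit 17188257834)) .nil)) .nil)) (.node (.node (.node .leaf (nat_lit 16039675732145388) (.br (nat_lit 0) (.cons (.br (nat_lit 3) (.cons (.rel (nat_lit 545263872)) .nil)) .nil)) .leaf) (nat_lit 16039675732187898) (.br (nat_lit 0) (.cons (.br (nat_lit 2) (.cons (.rel (nat_lit 72368148)) .nil)) .nil)) (.node .leaf (nat_lit 16039675732258049) (.br (nat_lit 2) (.cons (.br (nat_lit 4) (.cons (.rel (nat_lit 1140855312)) .nil)) .nil)) .leaf)) (nat_lit 16039675732721665) (.br (nat_lit 0) (.cons (.br (nat_lit 4) (.cons (.rel (nat_lit 1077936657)) .nil)) .nil)) (.node (.node .leaf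 (nat_lit 16039675733783288) (.br (nat_lit 0) (.cons (.br (nat_lit 1) (.cons (.rel (nat_lit 25493760)) .nil)) .nil)) .leaf) (nat_lit 16039675733979398) (.br (nat_lit 0) (.cons (.br (nat_lit 4) (.cons (.rel (nat_lit 1079017488)) .nil)) .nil)) .leaf))))

/-- refutations 87 -/
def e87 : EX := (.node (.node (.node (.node .leaf (nat_lit 16449876758147372) (.br (nat_lit 1) (.cons (.br (nat_lit 2) (.cons (.rel (nat_lit 84148242)) (.cons (.rel (nat_lit 84148242)) .nil))) .nil)) .leaf) (nat_lit 16449876759122696) (.br (nat_lit 0) (.cons (.br (nat_lit 1) (.cons (.rel (nat_lit 20976129)) .nil)) .nil)) (.node .leaf (nat_lit 16449876759134370) (.br (nat_lit 4) (.cons (.br (nat_lit 5) (.cons (.rel (nat_lit 10737483840)) .nil)) .nil)) .leaf)) (nat_lit 16449876759183660) (.br (nat_lit 3) (.cons (.br (nat_lit 1) (.cons (.rel (nat_lit 570427713)) (.cons (.rel (nat_lit 286261344)) .nil))) .nil)) (.node (.node .leaf (nat_lit 16449876759232647) (.br (nat_lit 1) (.cons (.br (nat_lit 2) (.cons (.rel (nat_lit 84149256))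 .nil)) .nil)) .leaf) (nat_lit 16449876759736620) (.br (nat_lit 0) (.cons (.br (nat_lit 1) (.cons (.br (nat_lit 2) (.cons (.rel (nat_lit 72369153)) (.cons (.rel (nat_lit 167776512)) .nil))) (.cons (.rel (nat_lit 21241872)) .nil))) .nil)) (.node .leaf (nat_lit 16449876760719660) (.br (nat_lit 3) (.cons (.br (nat_lit 0) (.cons (.rel (nat_lit 545263872)) (.cons (.rel (nat_lit 276824145)) (.cons (.rel (nat_lit 272891922)) .nil)))) .nil)) .leaf))) (nat_lit 16450197295454384) (.br (nat_lit 0) (.cons (.br (nat_lit 2) (.cons (.rel (nat_lit 142672161)) .nil)) .nil)) (.node (.node (.node .leaf (nat_lit 16450197296603137) (.br (nat_lit 0) (.cons (.br (nat_lit 2) (.cons (.rel (nat_lit 71565318)) .nil)) .nil)) .leaf) (nat_lit 16451105467127819) (.br (nat_lit 0) (.cons (.br (nat_lit 4) (.cons (.rel (nat_lit 1079005185)) .nil)) .nil)) (.node .leaf (nat_lit 16451105468152089) (.br (nat_lit 0) (.cons (.br (nat_lit 3) (.cons (.rel (nat_lit 272891922)) .nil)) .nil)) .leaf)) (nat_lit 16454062891615014) (.br (nat_lit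 1) (.cons (.br (nat_lit 4) (.cons (.rel (nat_lit 1090785288)) .nil)) .nil)) (.node (.node .leaf (nat_lit 16454062891643180) (.br (nat_lit 0) (.cons (.br (nat_lit 2) (.cons (.rel (nat_lit 71369280)) .nil)) .nil)) .leaf) (nat_lit 16454062891643516) (.br (nat_lit 0) (.cons (.br (nat_lit 2) (.cons (.rel (nat_lit 138420225)) .nil)) .nil)) .leaf)))

/-- refutations 88 -/
def e88 : EX := (.node (.node (.node (.node .leaf (nat_lit 16456443151084776) (.br (nat_lit 1) (.cons (.br (nat_lit 2) (.cons (.rel (nat_lit 152109312)) .nil)) .nil)) .leaf) (nat_lit 16456443153304182) (.br (nat_lit 0) (.cons (.br (nat_lit 2) (.cons (.rel (nat_lit 75513873)) .nil)) .nil)) .leaf) (nat_lit 16456443153304452) (.br (nat_lit 0) (.cons (.br (nat_lit 6) (.cons (.rel (nat_lit 34368132432)) .nil)) .nil)) (.node .leaf (nat_lit 16456510896869377) (.br (nat_lit 0) (.cons (.br (nat_lit 3) (.cons (.rel (nat_lit 272638464)) .nil)) .nil)) .leaf)) (nat_lit 16456514462648480) (.br (nat_lit 5) (.cons (.br (nat_lit 6) (.cons (.rel (nat_lit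 42949689348)) .nil)) .nil)) (.node (.node (.node .leaf (nat_lit 16456735288052364) (.br (nat_lit 1) (.cons (.br (nat_lit 3) (.cons (.rel (nat_lit 285737280)) .nil)) .nil)) .leaf) (nat_lit 16456735289338767) (.br (nat_lit 0) (.cons (.br (nat_lit 1) (.cons (.rel (nat_lit 22298880)) .nil)) .nil)) .leaf) (nat_lit 16456735289338793) (.br (nat_lit 0) (.cons (.br (nat_lit 2) (.cons (.rel (nat_lit 72368148)) .nil)) .nil)) (.node .leaf (nat_lit 16459474426216449) (.br (nat_lit 0) (.cons (.br (nat_lit 1) (.cons (.rel (nat_lit 20972100)) .nil)) .nil)) .leaf)))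

/-- refutations 90 -/
def e90 : EX := (.node (.node (.node (.node .leaf (nat_lit 21990232662940424) (.br (nat_lit 0) (.cons (.br (nat_lit 5) (.cons (.rel (nat_lit 4299178053)) .nil)) .nil)) .leaf) (nat_lit 21991309025027349) (.br (nat_lit 0) (.cons (.br (nat_lit 1) (.cons (.rel (nat_lit 21038592)) .nil)) .nil)) .leaf) (nat_lit 21991798574491704) (.br (nat_lit 4) (.cons (.br (nat_lit 0) (.cons (.rel (nat_lit 1079005185)) (.cons (.rel (nat_lit 1078202400)) .nil))) .nil)) (.node .leaf (nat_lit 21991798574931300) (.br (nat_lit 0) (.cons (.br (nat_lit 2) (.cons (.rel (nat_lit 71565318)) .nil)) .nil)) .leaf)) (nat_lit 21991798574991547) (.br (nat_lit 0) (.cons (.br (nat_lit 2) (.cons (.rel (nat_lit 71565318)) .nil)) .nil)) (.node (.node (.node .leaf (nat_lit 21991798577080976) (.br (nat_lit 0) (.cons (.br (nat_lit 1) (.cons (.rel (nat_lit 20988432)) .nil)) .nil)) .leaf) (nat_lit 21991798577235476) (.br (nat_lit 0) (.cons (.br (nat_lit 4) (.cons (.rel (nat_lit 2151682068)) .nil)) .nil)) .leaf) (nat_lit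 21992640389289188) (.br (nat_lit 0) (.cons (.br (nat_lit 4) (.cons (.rel (nat_lit 2151679044)) .nil)) .nil)) (.node .leaf (nat_lit 21992643723760868) (.br (nat_lit 1) (.cons (.br (nat_lit 4) (.cons (.rel (nat_lit 1091634240)) .nil)) .nil)) .leaf)))

/-- refutations 91 -/
def e91 : EX := (.node (.node (.node (.node .leaf (nat_lit 21995603990940274) (.br (nat_lit 0) (.cons (.br (nat_lit 3) (.cons (.rel (nat_lit 545407296)) .nil)) .nil)) .leaf) (nat_lit 21995606507888925) (.br (nat_lit 0) (.cons (.br (nat_lit 4) (.cons (.rel (nat_lit 2151683073)) (.cons (.rel (nat_lit 1080037632)) .nil))) (.cons (.br (nat_lit 4) (.cons (.rel (nat_lit 1082196036)) (.cons (.rel (nat_lit 1079005185)) .nil))) .nil))) .leaf) (nat_lit 21995607137948900) (.br (nat_lit 1) (.cons (.br (nat_lit 2) (.cons (.rel (nat_lit 100728840)) .nil)) .nil)) (.node .leaf (nat_lit 21995607661323045) (.br (nat_lit 5) (.cons (.br (nat_lit 6) (.cons (.rel (nat_lit 21474836628)) .nil)) .nil)) .leaf)) (nat_lit 21995607661486965) (.br (nat_lit 2)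 (.cons (.br (nat_lit 4) (.cons (.rel (nat_lit 1140852288)) .nil)) .nil)) (.node (.node (.node .leaf (nat_lit 21995607662236904) (.br (nat_lit 0) (.cons (.br (nat_lit 3) (.cons (.rel (nat_lit 273744912)) .nil)) .nil)) .leaf) (nat_lit 21995607663534710) (.br (nat_lit 0) (.cons (.br (nat_lit 3) (.cons (.rel (nat_lit 272638464)) .nil)) .nil)) .leaf) (nat_lit 21995607663566874) (.br (nat_lit 2) (.cons (.br (nat_lit 4) (.cons (.rel (nat_lit 1140852288)) .nil)) .nil)) (.node .leaf (nat_lit 21995607663780725) (.br (nat_lit 0) (.cons (.br (nat_lit 3) (.cons (.rel (nat_lit 273678420)) .nil)) .nil)) .leaf)))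

/-- refutations 92 -/
def e92 : EX := (.node (.node (.node .leaf (nat_lit 21996953164853379) (.br (nat_lit 1) (.cons (.br (nat_lit 4) (.cons (.rel (nat_lit 1090521600)) .nil)) .nil)) .leaf) (nat_lit 21997168542195993) (.br (nat_lit 1) (.cons (.br (nat_lit 2) (.cons (.rel (nat_lit 83894784)) .nil)) .nil)) (.node .leaf (nat_lit 21997754620692615) (.br (nat_lit 0) (.cons (.br (nat_lit 2) (.cons (.rel (nat_lit 71565318)) .nil)) .nil)) .leaf)) (nat_lit 21997754620827924) (.br (nat_lit 0) (.cons (.br (nat_lit 2) (.cons (.rel (nat_lit 71324166)) .nil)) .nil)) (.node (.node .leaf (nat_lit 21997754621605100) (.br (nat_lit 0) (.cons (.br (nat_lit 2) (.cons (.rel (nat_lit 71565318)) .nil)) .nil)) .leaf) (nat_lit 21997798097100930) (.br (nat_lit 0) (.cons (.br (nat_lit 1) (.cons (.rel (nat_lit 22151232)) .nil)) .nil)) .leaf))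

/-- refutations 93 -/
def e93 : EX := (.node (.node (.node (.node (.node .leaf (nat_lit 21997986663077092) (.br (nat_lit 0) (.cons (.br (nat_lit 2) (.cons (.rel (nat_lit 71566368)) .nil)) .nil)) .leaf) (nat_lit 21997986663079140) (.br (nat_lit 2) (.cons (.br (nat_lit 3) (.cons (.rel (nat_lit 671088897)) .nil)) .nil)) .leaf) (nat_lit 21998239155981538) (.br (nat_lit 2) (.cons (.br (nat_lit 3) (.cons (.rel (nat_lit 671088897)) .nil)) .nil)) (.node (.node .leaf (nat_lit 21998239157579932) (.br (nat_lit 0) (.cons (.br (nat_lit 3) (.cons (.rel (nat_lit 273220896)) .nil)) .nil)) .leaf) (nat_lit 21998275490595753) (.br (nat_lit 1) (.cons (.br (nat_lit 2) (.cons (.rel (nat_lit 84148242)) .nil)) .nil)) .leaf)) (nat_lit 21998278548243369) (.br (nat_lit 0) (.cons (.br (nat_lit 2) (.cons (.rel (nat_lit 71565318)) .nil)) .nil)) (.node (.node (.node .leaf (nat_lit 21998278548886760) (.br (nat_lit 0) (.cons (.br (nat_lit 4) (.cons (.rel (nat_lit 1079017488)) (.cons (.rel (nat_lit 2151683073)) .nil))) .nil)) .leaf)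 (nat_lit 21998278549501314) (.br (nat_lit 0) (.cons (.br (nat_lit 2) (.cons (.rel (nat_lit 75564033)) .nil)) .nil)) .leaf) (nat_lit 22001014002660588) (.br (nat_lit 0) (.cons (.br (nat_lit 2) (.cons (.rel (nat_lit 138429504)) .nil)) .nil)) (.node (.node .leaf (nat_lit 22001031304229770) (.br (nat_lit 0) (.cons (.br (nat_lit 1) (.cons (.rel (nat_lit 21319809)) .nil)) .nil)) .leaf) (nat_lit 22001460125601848) (.br (nat_lit 2) (.cons (.br (nat_lit 4) (.cons (.rel (nat_lit 2214625284)) .nil)) .nil)) .leaf))) (nat_lit 22001460678043704) (.br (nat_lit 0) (.cons (.br (nat_lit 4) (.cons (.rel (nat_lit 1079067648)) .nil)) .nil)) (.node (.node (.node (.node .leaf (nat_lit 22001460678043929) (.br (nat_lit 0) (.cons (.br (nat_lit 3) (.cons (.rel (nat_lit 273694752)) .nil)) .nil)) .leaf) (nat_lit 22001460679273704) (.br (nat_lit 0) (.cons (.br (nat_lit 1) (.cons (.rel (nat_lit 22151232)) .nil)) .nil)) .leaf) (nat_lit 22001460679361393) (.br (nat_lit 0) (.cons (.br (nat_lit 1) (.cons (.rel (nat_lit 21266433))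 .nil)) .nil)) (.node (.node .leaf (nat_lit 22001460679361817) (.br (nat_lit 1) (.cons (.br (nat_lit 2) (.cons (.rel (nat_lit 83894784)) .nil)) .nil)) .leaf) (nat_lit 22001460680787232) (.br (nat_lit 3) (.cons (.br (nat_lit 4) (.cons (.rel (nat_lit 1342443585)) .nil)) .nil)) .leaf)) (nat_lit 22001460681054838) (.br (nat_lit 1) (.cons (.br (nat_lit 3) (.cons (.rel (nat_lit 285737280)) .nil)) .nil)) (.node (.node (.node .leaf (nat_lit 22001460681144621) (.br (nat_lit 4) (.cons (.br (nat_lit 0) (.cons (.rel (nat_lit 1078199376)) (.cons (.rel (nat_lit 1078202400)) .nil))) .nil)) .leaf) (nat_lit 22001465473340644) (.br (nat_lit 1) (.cons (.br (nat_lit 6) (.cons (.rel (nat_lit 17197703232)) .nil)) .nil)) .leaf) (nat_lit 22001465473451289) (.br (nat_lit 1) (.cons (.br (nat_lit 2) (.cons (.rel (nat_lit 83894784)) .nil)) .nil)) (.node .leaf (nat_lit 22001465997628644) (.br (nat_lit 0) (.cons (.br (nat_lit 4) (.cons (.rel (nat_lit 1077936657)) .nil)) .nil)) .leaf))))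

/-- refutations 94 -/
def e94 : EX := (.node (.node (.node (.node .leaf (nat_lit 22002302493158782) (.br (nat_lit 1) (.cons (.br (nat_lit 2) (.cons (.rel (nat_lit 83894784)) .nil)) .nil)) .leaf) (nat_lit 22003427475562781) (.br (nat_lit 0) (.cons (.br (nat_lit 4) (.cons (.rel (nat_lit 1079067648)) .nil)) .nil)) (.node .leaf (nat_lit 22003427475833769) (.br (nat_lit 0) (.cons (.br (nat_lit 3) (.cons (.rel (nat_lit 545263872)) .nil)) .nil)) .leaf)) (nat_lit 22003547479065236) (.br (nat_lit 0) (.cons (.br (nat_lit 2) (.cons (.rel (nat_lit 71565318)) .nil)) .nil)) (.node (.node .leaf (nat_lit 22003547480323599) (.br (nat_lit 0) (.cons (.br (nat_lit 2) (.cons (.rel (nat_lit 71369280)) .nil)) .nil)) .leaf) (nat_lit 22003547736176143) (.br (nat_lit 0) (.cons (.br (nat_lit 2) (.cons (.rel (nat_lit 71566368)) .nil)) .nil)) .leaf)) (nat_lit 22003548032713641) (.br (nat_lit 2) (.cons (.br (nat_lit 3) (.cons (.rel (nat_lit 335544834)) (.cons (.rel (nat_lit 336625665)) .nil))) (.cons (.br (nat_lit 0) (.cons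 (.rel (nat_lit 138416196)) (.cons (.rel (nat_lit 138420225)) (.cons (.rel (nat_lit 72368148)) .nil)))) .nil))) (.node (.node (.node .leaf (nat_lit 22003548033354978) (.br (nat_lit 0) (.cons (.br (nat_lit 4) (.cons (.rel (nat_lit 1078199376)) .nil)) .nil)) .leaf) (nat_lit 22003548033379860) (.br (nat_lit 0) (.cons (.br (nat_lit 2) (.cons (.rel (nat_lit 75513873)) .nil)) .nil)) (.node .leaf (nat_lit 22003548033971727) (.br (nat_lit 0) (.cons (.br (nat_lit 1) (.cons (.rel (nat_lit 37818432)) (.cons (.rel (nat_lit 21238848)) .nil))) (.cons (.br (nat_lit 1) (.cons (.rel (nat_lit 21038592)) (.cons (.rel (nat_lit 20988432)) .nil))) .nil))) .leaf)) (nat_lit 22003548033981972) (.br (nat_lit 0) (.cons (.br (nat_lit 3) (.cons (.rel (nat_lit 276955266)) .nil)) .nil)) (.node (.node .leaf (nat_lit 22003548035250477) (.br (nat_lit 0) (.cons (.br (nat_lit 1) (.cons (.rel (nat_lit 21241872)) .nil)) .nil)) .leaf) (nat_lit 22003548035259919) (.br (nat_lit 0) (.cons (.br (nat_lit 1) (.cons (.rel (nat_lit 21238848))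 (.cons (.rel (nat_lit 21238848)) .nil))) .nil)) .leaf)))

/-- refutations 95 -/
def e95 : EX := (.node (.node (.node (.node .leaf (nat_lit 22113688190572825) (.br (nat_lit 1) (.cons (.br (nat_lit 3) (.cons (.rel (nat_lit 302056449)) .nil)) .nil)) .leaf) (nat_lit 22114554785010916) (.br (nat_lit 6) (.cons (.br (nat_lit 3) (.cons (.rel (nat_lit 17716748304)) (.cons (.rel (nat_lit 17448575040)) .nil))) .nil)) .leaf) (nat_lit 22114554785032327) (.br (nat_lit 2) (.cons (.br (nat_lit 4) (.cons (.rel (nat_lit 1141375233)) .nil)) .nil)) (.node .leaf (nat_lit 22115529268960788) (.br (nat_lit 4) (.cons (.br (nat_lit 0) (.cons (.rel (nat_lit 1078263813)) (.cons (.rel (nat_lit 1078199376)) .nil))) .nil)) .leaf)) (nat_lit 22119872943609987) (.br (nat_lit 0) (.cons (.br (nat_lit 1) (.cons (.rel (nat_lit 20976129)) .nil)) .nil)) (.node (.node .leaf (nat_lit 22120999902763135) (.br (nat_lit 0) (.cons (.br (nat_lit 4) (.cons (.rel (nat_lit 1082200065)) (.cons (.rel (nat_lit 1082146881)) .nil))) .nil)) .leaf) (nat_lit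 22121114823597438) (.br (nat_lit 0) (.cons (.br (nat_lit 2) (.cons (.rel (nat_lit 72369153)) .nil)) .nil)) (.node .leaf (nat_lit 22124158331227368) (.br (nat_lit 2) (.cons (.br (nat_lit 3) (.cons (.rel (nat_lit 336601104)) .nil)) .nil)) .leaf)))

/-- refutations 96 -/
def e96 : EX := (.node (.node (.node (.node (.node (.node .leaf (nat_lit 22124605007715241) (.br (nat_lit 6) (.cons (.br (nat_lit 0) (.cons (.rel (nat_lit 17185136640)) (.cons (.rel (nat_lit 17184342084)) .nil))) .nil)) .leaf) (nat_lit 22124605008483566) (.br (nat_lit 0) (.cons (.br (nat_lit 3) (.cons (.rel (nat_lit 273023040)) .nil)) .nil)) .leaf) (nat_lit 22124605008607982) (.br (nat_lit 0) (.cons (.br (nat_lit 1) (.cons (.rel (nat_lit 20972100)) .nil)) .nil)) (.node .leaf (nat_lit 22124605008608513) (.br (nat_lit 2) (.cons (.br (nat_lit 3) (.cons (.rel (nat_lit 671088897)) (.cons (.rel (nat_lit 671088897)) .nil))) .nil)) .leaf)) (nat_lit 22124605009120488) (.br (nat_lit 0) (.cons (.br (nat_lit 1) (.cons (.rel (nat_lit 21241872))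 .nil)) .nil)) (.node (.node .leaf (nat_lit 22124605009120638) (.br (nat_lit 0) (.cons (.br (nat_lit 4) (.cons (.rel (nat_lit 1077936657)) .nil)) .nil)) .leaf) (nat_lit 22124605009120787) (.br (nat_lit 0) (.cons (.br (nat_lit 2) (.cons (.rel (nat_lit 71566368)) .nil)) .nil)) (.node .leaf (nat_lit 22124607675139329) (.br (nat_lit 1) (.cons (.br (nat_lit 3) (.cons (.rel (nat_lit 302056449)) .nil)) .nil)) .leaf))) (nat_lit 22124607675292529) (.br (nat_lit 0) (.cons (.br (nat_lit 1) (.cons (.rel (nat_lit 20972100)) .nil)) .nil)) (.node (.node (.node (.node .leaf (nat_lit 22124607675344153) (.br (nat_lit 1) (.cons (.br (nat_lit 5) (.cons (.rel (nat_lit 4311779328)) .nil)) .nil)) .leaf) (nat_lit 22124607675402400) (.br (nat_lit 4) (.cons (.br (nat_lit 5) (.cons (.rel (nat_lit 5368713240)) .nil)) .nil)) .leaf) (nat_lit 22124607675417503) (.br (nat_lit 0) (.cons (.br (nat_lit 3) (.cons (.rel (nat_lit 272891922)) .nil)) .nil)) (.node .leaf (nat_lit 22124607676080429) (.br (nat_lit 3) (.cons (.br (nat_lit 4)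 (.cons (.rel (nat_lit 1342509072)) .nil)) .nil)) .leaf)) (nat_lit 22124607676081064) (.br (nat_lit 2) (.cons (.br (nat_lit 3) (.cons (.rel (nat_lit 335544834)) .nil)) .nil)) (.node (.node .leaf (nat_lit 22124607676185857) (.br (nat_lit 1) (.cons (.br (nat_lit 4) (.cons (.rel (nat_lit 1091567748)) .nil)) .nil)) .leaf) (nat_lit 22124607676185881) (.br (nat_lit 0) (.cons (.br (nat_lit 2) (.cons (.rel (nat_lit 71566368)) .nil)) .nil)) (.node .leaf (nat_lit 22124607676186132) (.br (nat_lit 0) (.cons (.br (nat_lit 4) (.cons (.rel (nat_lit 2151679044)) .nil)) .nil)) .leaf)))) (nat_lit 22124607676683652) (.br (nat_lit 0) (.cons (.br (nat_lit 3) (.cons (.rel (nat_lit 545263872)) .nil)) .nil)) (.node (.node (.node (.node (.node .leaf (nat_lit 22124607677660072) (.br (nat_lit 3) (.cons (.br (nat_lit 5) (.cons (.rel (nat_lit 4563501057)) (.cons (.rel (nat_lit 4563402762)) .nil))) (.cons (.br (nat_lit 6) (.cons (.rel (nat_lit 17449353282)) (.cons (.rel (nat_lit 17448575040)) .nil))) .nil))) .leaf) (nat_lit 22124607677962877)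 (.br (nat_lit 0) (.cons (.br (nat_lit 2) (.cons (.rel (nat_lit 71566368)) .nil)) .nil)) .leaf) (nat_lit 22124607677963545) (.br (nat_lit 6) (.cons (.br (nat_lit 0) (.cons (.rel (nat_lit 17185177728)) (.cons (.rel (nat_lit 17184346113)) .nil))) .nil)) (.node .leaf (nat_lit 22124608288429587) (.br (nat_lit 0) (.cons (.br (nat_lit 4) (.cons (.rel (nat_lit 1079005185)) .nil)) .nil)) .leaf)) (nat_lit 22124610905798832) (.br (nat_lit 0) (.cons (.br (nat_lit 1) (.cons (.rel (nat_lit 25166853)) .nil)) .nil)) (.node (.node .leaf (nat_lit 22124611329322216) (.br (nat_lit 0) (.cons (.br (nat_lit 1) (.cons (.rel (nat_lit 21241872)) .nil)) .nil)) .leaf) (nat_lit 22124611329607044) (.br (nat_lit 2) (.cons (.br (nat_lit 3) (.cons (.rel (nat_lit 335544834)) .nil)) .nil)) (.node .leaf (nat_lit 22125467823283457) (.br (nat_lit 0) (.cons (.br (nat_lit 1) (.cons (.rel (nat_lit 21241872)) (.cons (.rel (nat_lit 21266433)) .nil))) (.cons (.br (nat_lit 4) (.cons (.rel (nat_lit 2151679044)) (.cons (.rel (nat_lit 1079001156))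 .nil))) .nil))) .leaf))) (nat_lit 22125467823283732) (.br (nat_lit 3) (.cons (.br (nat_lit 4) (.cons (.br (nat_lit 0) (.cons (.rel (nat_lit 272892936)) (.cons (.rel (nat_lit 1082262528)) .nil))) .nil)) .nil)) (.node (.node (.node (.node .leaf (nat_lit 22126322995936513) (.br (nat_lit 1) (.cons (.br (nat_lit 3) (.cons (.rel (nat_lit 301993986)) .nil)) .nil)) .leaf) (nat_lit 22126323520224117) (.br (nat_lit 1) (.cons (.br (nat_lit 2) (.cons (.rel (nat_lit 167776512)) .nil)) .nil)) .leaf) (nat_lit 22126325663513857) (.br (nat_lit 2) (.cons (.br (nat_lit 6) (.cons (.rel (nat_lit 17248030752)) .nil)) .nil)) (.node .leaf (nat_lit 22126325663514132) (.br (nat_lit 2) (.cons (.br (nat_lit 6) (.cons (.rel (nat_lit 34493972736)) .nil)) .nil)) .leaf)) (nat_lit 22126326816947457) (.br (nat_lit 2) (.cons (.br (nat_lit 0) (.cons (.rel (nat_lit 72369153)) (.cons (.rel (nat_lit 71566368)) .nil))) .nil)) (.node (.node .leaf (nat_lit 22126574769802772) (.br (nat_lit 0) (.cons (.br (nat_lit 1) (.cons (.rel (nat_lit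 22021128)) .nil)) .nil)) .leaf) (nat_lit 22126574771645953) (.br (nat_lit 0) (.cons (.br (nat_lit 2) (.cons (.rel (nat_lit 71712768)) .nil)) .nil)) (.node .leaf (nat_lit 22126575375392276) (.br (nat_lit 2) (.cons (.br (nat_lit 4) (.cons (.rel (nat_lit 1141145616)) .nil)) .nil)) .leaf)))))

/-- refutations 97 -/
def e97 : EX := (.node .leaf (nat_lit 22126752492768787) (.br (nat_lit 0) (.cons (.br (nat_lit 6) (.cons (.rel (nat_lit 17184358416)) .nil)) .nil)) .leaf)

/-- refutations 98 -/
def e98 : EX := (.node (.node .leaf (nat_lit 16049442614219378) (.br (nat_lit 0) (.cons (.br (nat_lit 1) (.cons (.rel (nat_lit 22056960)) .nil)) .nil)) .leaf) (nat_lit 16379705394699515) (.br (nat_lit 2) (.cons (.br (nat_lit 3) (.cons (.rel (nat_lit 335544834)) .nil)) .nil)) (.node .leaf (nat_lit 22103795170512098) (.br (nat_lit 1) (.cons (.br (nat_lit 3) (.cons (.rel (nat_lit 285548544)) (.cons (.rel (nat_lit 301993986)) .nil))) .nil)) .leaf))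

/-- refutations 99 -/
def e99 : EX := (.node (.node (.node .leaf (nat_lit 22634781683717003) (.br (nat_lit 2) (.cons (.br (nat_lit 3) (.cons (.rel (nat_lit 336601104)) .nil)) .nil)) .leaf) (nat_lit 22634781683717623) (.br (nat_lit 0) (.cons (.br (nat_lit 1) (.cons (.rel (nat_lit 22020114)) .nil)) .nil)) .leaf) (nat_lit 22634781973124324) (.br (nat_lit 5) (.cons (.br (nat_lit 2) (.cons (.rel (nat_lit 8724152337)) (.cons (.rel (nat_lit 4362076194)) .nil))) .nil)) (.node (.node .leaf (nat_lit 22634782224065793) (.br (nat_lit 0) (.cons (.br (nat_lit 1) (.cons (.rel (nat_lit 20972100)) .nil)) .nil)) .leaf) (nat_lit 22635641096965348) (.br (nat_lit 0) (.cons (.br (nat_lit 1) (.cons (.rel (nat_lit 21266433)) .nil)) .nil)) .leaf))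

/-- refutations 100 -/
def e100 : EX := (.node (.node (.node (.node .leaf (nat_lit 22983148908839589) (.br (nat_lit 0) (.cons (.br (nat_lit 2) (.cons (.rel (nat_lit 71712768)) .nil)) .nil)) .leaf) (nat_lit 22983438449838256) (.br (nat_lit 0) (.cons (.br (nat_lit 1) (.cons (.rel (nat_lit 22021128)) .nil)) .nil)) .leaf) (nat_lit 22986622123376940) (.br (nat_lit 2) (.cons (.br (nat_lit 4) (.cons (.rel (nat_lit 1141182468)) .nil)) .nil)) (.node .leaf (nat_lit 22986622123891993) (.br (nat_lit 2) (.cons (.br (nat_lit 3) (.cons (.rel (nat_lit 335807553)) .nil)) .nil)) .leaf)) (nat_lit 22986622124731673) (.br (nat_lit 0) (.cons (.br (nat_lit 2) (.cons (.rel (nat_lit 138429504)) .nil)) .nil)) (.node (.node .leaf (nat_lit 22986622126512428) (.br (nat_lit 0) (.cons (.br (nat_lit 1) (.cons (.rel (nat_lit 21238848)) .nil)) .nil)) .leaf) (nat_lit 22986628006663449) (.br (nat_lit 0) (.cons (.br (nat_lit 3) (.cons (.rel (nat_lit 272928768)) .nil)) .nil)) (.node .leaf (nat_lit 22987481119718313) (.br (nat_lit 0)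 (.cons (.br (nat_lit 1) (.cons (.rel (nat_lit 20988432)) .nil)) .nil)) .leaf)))

/-- refutations 102 -/
def e102 : EX := (.node .leaf (nat_lit 24202419291586042) (.br (nat_lit 0) (.cons (.br (nat_lit 2) (.cons (.rel (nat_lit 75563028)) .nil)) .nil)) .leaf)

/-- refutations 103 -/
def e103 : EX := (.node (.node (.node .leaf (nat_lit 23053384085506208) (.br (nat_lit 0) (.cons (.br (nat_lit 2) (.cons (.rel (nat_lit 71569536)) .nil)) .nil)) .leaf) (nat_lit 23057832618506495) (.br (nat_lit 3) (.cons (.br (nat_lit 5) (.cons (.rel (nat_lit 4563402762)) .nil)) .nil)) .leaf) (nat_lit 23059121739172740) (.br (nat_lit 0) (.cons (.br (nat_lit 2) (.cons (.rel (nat_lit 72368148)) .nil)) .nil)) (.node (.node .leaf (nat_lit 23059121739410964) (.br (nat_lit 4) (.cons (.br (nat_lit 0) (.cons (.rel (nat_lit 2155874565)) (.cons (.rel (nat_lit 1077936657)) .nil))) .nil)) .leaf) (nat_lit 23059121739459240) (.br (nat_lit 0) (.cons (.br (nat_lit 1) (.cons (.rel (nat_lit 20976129)) .nil)) .nil)) .leaf))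

/-- refutations 104 -/
def e104 : EX := (.node .leaf (nat_lit 24227106236461367) (.br (nat_lit 0) (.cons (.br (nat_lit 1) (.cons (.rel (nat_lit 21238848)) .nil)) .nil)) .leaf)

/-- refutations 105 -/
def e105 : EX := (.node (.node .leaf (nat_lit 24295120915340644) (.br (nat_lit 0) (.cons (.br (nat_lit 1) (.cons (.rel (nat_lit 22056960)) .nil)) .nil)) .leaf) (nat_lit 24300180824703161) (.br (nat_lit 0) (.cons (.br (nat_lit 4) (.cons (.rel (nat_lit 2151683073)) .nil)) .nil)) .leaf)

/-- refutations 106 -/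
def e106 : EX := (.node (.node .leaf (nat_lit 24630627742187651) (.br (nat_lit 0) (.cons (.br (nat_lit 3) (.cons (.rel (nat_lit 272892936)) .nil)) .nil)) .leaf) (nat_lit 24631471440714358) (.br (nat_lit 1) (.cons (.br (nat_lit 2) (.cons (.rel (nat_lit 150996096)) .nil)) .nil)) (.node .leaf (nat_lit 24631471441997032) (.br (nat_lit 1) (.cons (.br (nat_lit 3) (.cons (.rel (nat_lit 301993986)) .nil)) .nil)) .leaf))

/-- refutations 107 -/
def e107 : EX := (.node (.node (.node (.node .leaf (nat_lit 24634432841395427) (.br (nat_lit 3) (.cons (.br (nat_lit 5) (.cons (.rel (nat_lit 4563476496)) .nil)) .nil)) .leaf) (nat_lit 24634432841943666) (.br (nat_lit 0) (.cons (.br (nat_lit 1) (.cons (.rel (nat_lit 21238848)) .nil)) .nil)) .leaf) (nat_lit 24634432843224291) (.br (nat_lit 0) (.cons (.br (nat_lit 2) (.cons (.rel (nat_lit 71369280)) .nil)) .nil)) (.node .leaf (nat_lit 24634432843955427) (.br (nat_lit 0) (.cons (.br (nat_lit 1) (.cons (.rel (nat_lit 20976129)) .nil)) .nil)) .leaf)) (nat_lit 24634434417308458)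 (.br (nat_lit 0) (.cons (.br (nat_lit 3) (.cons (.rel (nat_lit 272638464)) .nil)) .nil)) (.node (.node (.node .leaf (nat_lit 24634434967906360) (.br (nat_lit 0) (.cons (.br (nat_lit 2) (.cons (.rel (nat_lit 75563028)) .nil)) .nil)) .leaf) (nat_lit 24634649793589899) (.br (nat_lit 0) (.cons (.br (nat_lit 5) (.cons (.rel (nat_lit 4299293700)) .nil)) .nil)) .leaf) (nat_lit 24636685530769464) (.br (nat_lit 2) (.cons (.br (nat_lit 4) (.cons (.rel (nat_lit 1141129284)) .nil)) .nil)) (.node .leaf (nat_lit 24637072077826104) (.br (nat_lit 0) (.cons (.br (nat_lit 2) (.cons (.rel (nat_lit 71565318)) .nil)) .nil)) .leaf)))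

/-- refutations 108 -/
def e108 : EX := (.node (.node (.node (.node (.node .leaf (nat_lit 24639846628224232) (.br (nat_lit 0) (.cons (.br (nat_lit 4) (.cons (.rel (nat_lit 1082146881)) .nil)) .nil)) .leaf) (nat_lit 24640290280742420) (.br (nat_lit 0) (.cons (.br (nat_lit 2) (.cons (.rel (nat_lit 75497541)) .nil)) .nil)) .leaf) (nat_lit 24640290339397140) (.br (nat_lit 0) (.cons (.br (nat_lit 2) (.cons (.rel (nat_lit 75564033)) .nil)) .nil)) (.node (.node .leaf (nat_lit 24640290339462676) (.br (nat_lit 1) (.cons (.br (nat_lit 2) (.cons (.rel (nat_lit 84148242)) .nil)) .nil)) .leaf) (nat_lit 24640875009671853) (.br (nat_lit 0) (.cons (.br (nat_lit 2) (.cons (.rel (nat_lit 72355845)) .nil)) .nil)) .leaf)) (nat_lit 24640875294158200) (.br (nat_lit 0) (.cons (.br (nat_lit 4) (.cons (.rel (nat_lit 2155909392)) .nil)) .nil)) (.node (.node (.node .leaf (nat_lit 24640876868252458) (.br (nat_lit 0) (.cons (.br (nat_lit 2) (.cons (.rel (nat_lit 73401600)) .nil)) .nil)) .leaf) (nat_lit 24640877923702945) (.br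 (nat_lit 0) (.cons (.br (nat_lit 1) (.cons (.rel (nat_lit 21315588)) .nil)) .nil)) .leaf) (nat_lit 24641131971599142) (.br (nat_lit 0) (.cons (.br (nat_lit 3) (.cons (.rel (nat_lit 272638464)) .nil)) .nil)) (.node .leaf (nat_lit 24641131972726263) (.br (nat_lit 0) (.cons (.br (nat_lit 1) (.cons (.rel (nat_lit 21038592)) .nil)) .nil)) .leaf))) (nat_lit 24641131972992356) (.br (nat_lit 1) (.cons (.br (nat_lit 2) (.cons (.rel (nat_lit 84148242)) .nil)) .nil)) (.node (.node (.node (.node .leaf (nat_lit 24642220376270979) (.br (nat_lit 0) (.cons (.br (nat_lit 2) (.cons (.rel (nat_lit 71565318)) .nil)) .nil)) .leaf) (nat_lit 24642220376555655) (.br (nat_lit 2) (.cons (.br (nat_lit 4) (.cons (.rel (nat_lit 1141129284)) .nil)) .nil)) .leaf) (nat_lit 24642220376563764) (.br (nat_lit 0) (.cons (.br (nat_lit 1) (.cons (.rel (nat_lit 21266433)) .nil)) .nil)) (.node .leaf (nat_lit 24642220376578179) (.br (nat_lit 1) (.cons (.br (nat_lit 3) (.cons (.rel (nat_lit 286277640)) .nil)) .nil)) .leaf)) (nat_lit 24642220376578329)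 (.br (nat_lit 0) (.cons (.br (nat_lit 4) (.cons (.rel (nat_lit 2151679044)) .nil)) .nil)) (.node (.node (.node .leaf (nat_lit 24642220376731779) (.br (nat_lit 0) (.cons (.br (nat_lit 4) (.cons (.rel (nat_lit 2151679044)) .nil)) .nil)) .leaf) (nat_lit 24642220377795816) (.br (nat_lit 1) (.cons (.br (nat_lit 2) (.cons (.rel (nat_lit 84148242)) .nil)) .nil)) .leaf) (nat_lit 24642226038888729) (.br (nat_lit 0) (.cons (.br (nat_lit 3) (.cons (.rel (nat_lit 272638464)) .nil)) .nil)) (.node .leaf (nat_lit 24642226039042179) (.br (nat_lit 0) (.cons (.br (nat_lit 1) (.cons (.rel (nat_lit 20976129)) .nil)) .nil)) .leaf))))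

/-- refutations 110 -/
def e110 : EX := (.node .leaf (nat_lit 24370546614203174) (.br (nat_lit 2) (.cons (.br (nat_lit 3) (.cons (.rel (nat_lit 335810577)) .nil)) .nil)) .leaf)

/-- refutations 112 -/
def e112 : EX := (.node .leaf (nat_lit 24727801867091325) (.br (nat_lit 0) (.cons (.br (nat_lit 2) (.cons (.rel (nat_lit 71369280)) (.cons (.rel (nat_lit 71325216)) .nil))) .nil)) .leaf)

/-- refutations 113 -/
def e113 : EX := (.node (.node (.node (.node (.node .leaf (nat_lit 24822574615396633) (.br (nat_lit 0) (.cons (.br (nat_lit 1) (.cons (.rel (nat_lit 21266433)) .nil)) .nil)) .leaf) (nat_lit 24822574616421614) (.br (nat_lit 2) (.cons (.br (nat_lit 3) (.cons (.rel (nat_lit 335806548)) .nil)) .nil)) (.node .leaf (nat_lit 24822884528362882) (.br (nat_lit 0) (.cons (.br (nat_lit 1) (.cons (.rel (nat_lit 20988432)) (.cons (.rel (nat_lit 21038592)) .nil))) .nil)) .leaf)) (nat_lit 24822884947793282) (.br (nat_lit 0) (.cons (.br (nat_lit 4) (.cons (.rel (nat_lit 1079054340)) .nil)) .nil)) (.node (.node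 .leaf (nat_lit 24822886998502636) (.br (nat_lit 0) (.cons (.br (nat_lit 2) (.cons (.rel (nat_lit 72369153)) .nil)) .nil)) .leaf) (nat_lit 24822886998807938) (.br (nat_lit 0) (.cons (.br (nat_lit 4) (.cons (.rel (nat_lit 2151682068)) .nil)) .nil)) .leaf)) (nat_lit 24822886998808054) (.br (nat_lit 3) (.cons (.br (nat_lit 2) (.cons (.rel (nat_lit 335544834)) (.cons (.rel (nat_lit 335544834)) .nil))) .nil)) (.node (.node (.node .leaf (nat_lit 24822886999720813) (.br (nat_lit 0) (.cons (.br (nat_lit 4) (.cons (.rel (nat_lit 1078214658)) .nil)) .nil)) .leaf) (nat_lit 24822887125549933) (.br (nat_lit 0) (.cons (.br (nat_lit 4) (.cons (.rel (nat_lit 2151682068)) .nil)) .nil)) (.node .leaf (nat_lit 24822887423455269) (.br (nat_lit 1) (.cons (.br (nat_lit 2) (.cons (.rel (nat_lit 84185088)) .nil)) .nil)) .leaf)) (nat_lit 24823961263089794) (.br (nat_lit 2) (.cons (.br (nat_lit 3) (.cons (.rel (nat_lit 335822880)) .nil)) .nil)) (.node (.node .leaf (nat_lit 24823961263089945) (.br (nat_lit 0) (.cons (.br (nat_lit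 2) (.cons (.rel (nat_lit 71712768)) .nil)) .nil)) .leaf) (nat_lit 24823961263323898) (.br (nat_lit 0) (.cons (.br (nat_lit 1) (.cons (.rel (nat_lit 25165848)) .nil)) .nil)) .leaf))) (nat_lit 24823961263324398) (.br (nat_lit 2) (.cons (.br (nat_lit 4) (.cons (.rel (nat_lit 1208025090)) .nil)) .nil)) (.node (.node (.node (.node .leaf (nat_lit 24823961263393049) (.br (nat_lit 3) (.cons (.br (nat_lit 1) (.cons (.rel (nat_lit 553656321)) (.cons (.rel (nat_lit 302055444)) (.cons (.rel (nat_lit 285495360)) .nil)))) .nil)) .leaf) (nat_lit 24823961264305388) (.br (nat_lit 0) (.cons (.br (nat_lit 4) (.cons (.rel (nat_lit 2151682068)) .nil)) .nil)) (.node .leaf (nat_lit 24823961266139266) (.br (nat_lit 0) (.cons (.br (nat_lit 1) (.cons (.rel (nat_lit 25165848)) .nil)) .nil)) .leaf)) (nat_lit 24823961266140398) (.br (nat_lit 4) (.cons (.br (nat_lit 6) (.cons (.rel (nat_lit 36507222276)) .nil)) .nil)) (.node (.node .leaf (nat_lit 24823961266198690) (.br (nat_lit 4) (.cons (.br (nat_lit 6) (.cons (.rel (nat_lit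 19329712128)) (.cons (.rel (nat_lit 19327418388)) .nil))) .nil)) .leaf) (nat_lit 24824081657621732) (.br (nat_lit 2) (.cons (.br (nat_lit 4) (.cons (.rel (nat_lit 1141899297)) .nil)) .nil)) .leaf)) (nat_lit 24824081657621890) (.br (nat_lit 0) (.cons (.br (nat_lit 4) (.cons (.rel (nat_lit 1079001156)) .nil)) .nil)) (.node (.node (.node .leaf (nat_lit 24824176116615449) (.br (nat_lit 1) (.cons (.br (nat_lit 4) (.cons (.rel (nat_lit 2164264992)) .nil)) .nil)) .leaf) (nat_lit 24824176119318715) (.br (nat_lit 0) (.cons (.br (nat_lit 1) (.cons (.rel (nat_lit 43286544)) .nil)) .nil)) .leaf) (nat_lit 24824176119319829) (.br (nat_lit 1) (.cons (.br (nat_lit 3) (.cons (.rel (nat_lit 286277640)) .nil)) .nil)) (.node (.node .leaf (nat_lit 24824722097229876) (.br (nat_lit 4) (.cons (.br (nat_lit 5) (.cons (.rel (nat_lit 5368746048)) .nil)) .nil)) .leaf) (nat_lit 24824724646062856) (.br (nat_lit 0) (.cons (.br (nat_lit 2) (.cons (.rel (nat_lit 72369153)) .nil)) .nil)) .leaf))))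

/-- refutations 114 -/
def e114 : EX := (.node (.node (.node (.node (.node .leaf (nat_lit 24830582978586754) (.br (nat_lit 1) (.cons (.br (nat_lit 2) (.cons (.rel (nat_lit 84148242)) .nil)) .nil)) .leaf) (nat_lit 24830582981330452) (.br (nat_lit 0) (.cons (.br (nat_lit 1) (.cons (.rel (nat_lit 20976129)) .nil)) .nil)) (.node .leaf (nat_lit 24830585826445499) (.br (nat_lit 5) (.cons (.br (nat_lit 1) (.cons (.rel (nat_lit 4311752712)) (.cons (.rel (nat_lit 4311752712)) .nil))) .nil)) .leaf)) (nat_lit 24830585826519852) (.br (nat_lit 3) (.cons (.br (nat_lit 5) (.cons (.rel (nat_lit 4563402762)) .nil)) .nil)) (.node (.node .leaf (nat_lit 24830585826812189) (.br (nat_lit 3) (.cons (.br (nat_lit 4) (.cons (.rel (nat_lit 1342506048)) .nil)) .nil)) .leaf) (nat_lit 24830585827069314) (.br (nat_lit 0) (.cons (.br (nat_lit 6) (.cons (.rel (nat_lit 17184068112)) .nil)) .nil)) (.node .leaf (nat_lit 24830585828349314) (.br (nat_lit 0) (.cons (.br (nat_lit 6) (.cons (.rel (nat_lit 17185136640)) .nil)) .nil)) .leaf)))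 (nat_lit 24830586833079573) (.br (nat_lit 0) (.cons (.br (nat_lit 1) (.cons (.rel (nat_lit 23659536)) .nil)) .nil)) (.node (.node (.node .leaf (nat_lit 24833802333326242) (.br (nat_lit 0) (.cons (.br (nat_lit 1) (.cons (.rel (nat_lit 20976129)) .nil)) .nil)) .leaf) (nat_lit 24833802333399096) (.br (nat_lit 4) (.cons (.br (nat_lit 1) (.cons (.rel (nat_lit 1091634240)) (.cons (.rel (nat_lit 2181039360)) .nil))) .nil)) (.node .leaf (nat_lit 24833802333838722) (.br (nat_lit 4) (.cons (.br (nat_lit 0) (.cons (.rel (nat_lit 2151682068)) (.cons (.rel (nat_lit 1077936657)) .nil))) .nil)) .leaf)) (nat_lit 24833802335229314) (.br (nat_lit 0) (.cons (.br (nat_lit 4) (.cons (.rel (nat_lit 2151682068)) .nil)) .nil)) (.node (.node .leaf (nat_lit 24833802335908500) (.br (nat_lit 0) (.cons (.br (nat_lit 2) (.cons (.rel (nat_lit 71566368)) .nil)) .nil)) .leaf) (nat_lit 24833808100853122) (.br (nat_lit 0) (.cons (.br (nat_lit 1) (.cons (.rel (nat_lit 37748772)) .nil)) .nil)) .leaf))) (nat_lit 24834386327316536) (.br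 (nat_lit 0) (.cons (.br (nat_lit 2) (.cons (.rel (nat_lit 71565318)) .nil)) .nil)) (.node (.node (.node (.node .leaf (nat_lit 24834386330059629) (.br (nat_lit 1) (.cons (.br (nat_lit 4) (.cons (.rel (nat_lit 1107304464)) .nil)) .nil)) .leaf) (nat_lit 24834386747203640) (.br (nat_lit 0) (.cons (.br (nat_lit 2) (.cons (.rel (nat_lit 138416196)) .nil)) .nil)) (.node .leaf (nat_lit 24834386749490029) (.br (nat_lit 4) (.cons (.br (nat_lit 3) (.cons (.rel (nat_lit 1342443585)) (.cons (.rel (nat_lit 1343324160)) (.cons (.rel (nat_lit 1342243329)) .nil)))) .nil)) .leaf)) (nat_lit 24834386870211970) (.br (nat_lit 0) (.cons (.br (nat_lit 4) (.cons (.rel (nat_lit 1079054340)) .nil)) .nil)) (.node (.node .leaf (nat_lit 24834391543447828) (.br (nat_lit 0) (.cons (.br (nat_lit 3) (.cons (.rel (nat_lit 272891922)) .nil)) .nil)) .leaf) (nat_lit 24834392004952941) (.br (nat_lit 1) (.cons (.br (nat_lit 6) (.cons (.rel (nat_lit 34376515617)) .nil)) .nil)) (.node .leaf (nat_lit 24835735070204185) (.br (nat_lit 1) (.cons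 (.br (nat_lit 2) (.cons (.rel (nat_lit 84951072)) .nil)) .nil)) .leaf))) (nat_lit 24835889986530831) (.br (nat_lit 0) (.cons (.br (nat_lit 2) (.cons (.rel (nat_lit 71566368)) .nil)) .nil)) (.node (.node (.node .leaf (nat_lit 24835889986530836) (.br (nat_lit 1) (.cons (.br (nat_lit 4) (.cons (.rel (nat_lit 2164326405)) .nil)) .nil)) .leaf) (nat_lit 24835892788325157) (.br (nat_lit 0) (.cons (.br (nat_lit 1) (.cons (.rel (nat_lit 37748772)) .nil)) .nil)) (.node .leaf (nat_lit 24835892788325903) (.br (nat_lit 0) (.cons (.br (nat_lit 2) (.cons (.rel (nat_lit 72368148)) .nil)) .nil)) .leaf)) (nat_lit 24835892788927874) (.br (nat_lit 0) (.cons (.br (nat_lit 1) (.cons (.rel (nat_lit 20972100)) .nil)) .nil)) (.node (.node .leaf (nat_lit 24835935768880356) (.br (nat_lit 0) (.cons (.br (nat_lit 2) (.cons (.rel (nat_lit 75501570)) .nil)) .nil)) .leaf) (nat_lit 24835937356979732) (.br (nat_lit 0) (.cons (.br (nat_lit 3) (.cons (.rel (nat_lit 541130817)) .nil)) .nil)) .leaf))))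

/-- refutations 115 -/
def e115 : EX := (.node (.node (.node .leaf (nat_lit 24807435845571970) (.br (nat_lit 0) (.cons (.br (nat_lit 1) (.cons (.rel (nat_lit 20972100)) .nil)) .nil)) .leaf) (nat_lit 24815811031799170) (.br (nat_lit 0) (.cons (.br (nat_lit 3) (.cons (.rel (nat_lit 545263872)) .nil)) .nil)) (.node .leaf (nat_lit 24816883053958530) (.br (nat_lit 0) (.cons (.br (nat_lit 4) (.cons (.rel (nat_lit 1083179328)) .nil)) .nil)) .leaf)) (nat_lit 24816885904558360) (.br (nat_lit 3) (.cons (.br (nat_lit 4) (.cons (.rel (nat_lit 1342443585)) .nil)) .nil)) (.node (.node .leaf (nat_lit 24816885904559480) (.br (nat_lit 0) (.cons (.br (nat_lit 3) (.cons (.rel (nat_lit 273023040)) .nil)) .nil)) .leaf) (nat_lit 24816885904691325) (.br (nat_lit 0) (.cons (.br (nat_lit 3) (.cons (.rel (nat_lit 272638464)) .nil)) .nil)) (.node .leaf (nat_lit 24816885908752664) (.br (nat_lit 3) (.cons (.br (nat_lit 4) (.cons (.rel (nat_lit 1342243329)) .nil)) .nil)) .leaf)))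

/-- refutations 116 -/
def e116 : EX := (.node (.node (.node .leaf (nat_lit 25088862714284313) (.br (nat_lit 4) (.cons (.br (nat_lit 0) (.cons (.rel (nat_lit 1077936657)) (.cons (.rel (nat_lit 2151682068)) .nil))) .nil)) .leaf) (nat_lit 25099393972095608) (.br (nat_lit 0) (.cons (.br (nat_lit 1) (.cons (.rel (nat_lit 22020114)) .nil)) .nil)) .leaf) (nat_lit 25099393972913635) (.br (nat_lit 2) (.cons (.br (nat_lit 4) (.cons (.rel (nat_lit 1141133313)) .nil)) .nil)) (.node (.node .leaf (nat_lit 25099393974602534) (.br (nat_lit 2) (.cons (.br (nat_lit 4) (.cons (.rel (nat_lit 1140855312)) .nil)) .nil)) .leaf) (nat_lit 25099393974696713) (.br (nat_lit 1) (.cons (.br (nat_lit 2) (.cons (.rel (nat_lit 83894784)) (.cons (.rel (nat_lit 84185088)) .nil))) .nil)) .leaf))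

/-- refutations 117 -/
def e117 : EX := (.node (.node (.node (.node .leaf (nat_lit 25192323460300837) (.br (nat_lit 0) (.cons (.br (nat_lit 6) (.cons (.rel (nat_lit 17185114116)) .nil)) .nil)) .leaf) (nat_lit 25192323581935653) (.br (nat_lit 0) (.cons (.br (nat_lit 3) (.cons (.rel (nat_lit 272891922)) .nil)) .nil)) (.node .leaf (nat_lit 25194418892399222) (.br (nat_lit 1) (.cons (.br (nat_lit 6) (.cons (.rel (nat_lit 34376517636)) (.cons (.rel (nat_lit 17197793280)) .nil))) .nil)) .leaf)) (nat_lit 25194418892400024) (.br (nat_lit 1) (.cons (.br (nat_lit 5) (.cons (.rel (nat_lit 8607776769)) .nil)) .nil)) (.node (.node .leaf (nat_lit 25194421940943129) (.br (nat_lit 1) (.cons (.br (nat_lit 2) (.cons (.rel (nat_lit 150996096)) .nil)) .nil)) .leaf) (nat_lit 25194421940944225) (.br (nat_lit 1) (.cons (.br (nat_lit 2) (.cons (.rel (nat_lit 167776512)) .nil)) .nil)) (.node .leaf (nat_lit 25194421941657751) (.br (nat_lit 1) (.cons (.br (nat_lit 2) (.cons (.rel (nat_lit 84934740)) .nil)) .nil)) .leaf)))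 (nat_lit 25194421941657881) (.br (nat_lit 2) (.cons (.br (nat_lit 0) (.cons (.rel (nat_lit 72351816)) (.cons (.rel (nat_lit 72351816)) .nil))) .nil)) (.node (.node (.node .leaf (nat_lit 25194421941658230) (.br (nat_lit 1) (.cons (.br (nat_lit 6) (.cons (.rel (nat_lit 34376517636)) (.cons (.rel (nat_lit 17197697040)) .nil))) (.cons (.br (nat_lit 2) (.cons (.rel (nat_lit 84148242)) (.cons (.rel (nat_lit 83894784)) .nil))) .nil))) .leaf) (nat_lit 25197383050901806) (.br (nat_lit 0) (.cons (.br (nat_lit 1) (.cons (.rel (nat_lit 25166853)) .nil)) .nil)) (.node .leaf (nat_lit 25197385147746434) (.br (nat_lit 2) (.cons (.br (nat_lit 6) (.cons (.rel (nat_lit 34493972736)) .nil)) .nil)) .leaf)) (nat_lit 25197385149649583) (.br (nat_lit 0) (.cons (.br (nat_lit 2) (.cons (.rel (nat_lit 72351816)) .nil)) .nil)) (.node (.node .leaf (nat_lit 25197385150943362) (.br (nat_lit 1) (.cons (.br (nat_lit 4) (.cons (.rel (nat_lit 2164277250)) .nil)) .nil)) .leaf) (nat_lit 25198542692377337) (.br (nat_lit 0) (.cons (.br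 (nat_lit 1) (.cons (.rel (nat_lit 21305352)) .nil)) .nil)) (.node .leaf (nat_lit 25198542694580854) (.br (nat_lit 1) (.cons (.br (nat_lit 2) (.cons (.rel (nat_lit 100728840)) .nil)) .nil)) .leaf))))

/-- refutations 118 -/
def e118 : EX := (.node (.node (.node (.node .leaf (nat_lit 25199838620065300) (.br (nat_lit 1) (.cons (.br (nat_lit 2) (.cons (.rel (nat_lit 84148242)) (.cons (.rel (nat_lit 84148242)) .nil))) .nil)) .leaf) (nat_lit 25199841869039876) (.br (nat_lit 0) (.cons (.br (nat_lit 2) (.cons (.rel (nat_lit 71566368)) .nil)) .nil)) (.node .leaf (nat_lit 25199842190385782) (.br (nat_lit 1) (.cons (.br (nat_lit 6) (.cons (.rel (nat_lit 17196925008)) .nil)) .nil)) .leaf)) (nat_lit 25203240233175200) (.br (nat_lit 0) (.cons (.br (nat_lit 1) (.cons (.rel (nat_lit 22151232)) .nil)) .nil)) (.node (.node .leaf (nat_lit 25203240234163457) (.br (nat_lit 0) (.cons (.br (nat_lit 1) (.cons (.rel (nat_lit 37749777)) .nil)) .nil)) .leaf) (nat_lit 25203240234163732) (.br (nat_lit 1) (.cons (.br (nat_lit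 2) (.cons (.rel (nat_lit 84148242)) .nil)) .nil)) .leaf)) (nat_lit 25203240235432872) (.br (nat_lit 0) (.cons (.br (nat_lit 6) (.cons (.rel (nat_lit 17188259841)) (.cons (.rel (nat_lit 34363932693)) .nil))) .nil)) (.node (.node (.node .leaf (nat_lit 25203827869029128) (.br (nat_lit 0) (.cons (.br (nat_lit 3) (.cons (.rel (nat_lit 276889632)) .nil)) .nil)) .leaf) (nat_lit 25204099226012929) (.br (nat_lit 1) (.cons (.br (nat_lit 2) (.cons (.rel (nat_lit 84149256)) .nil)) .nil)) (.node .leaf (nat_lit 25204102747593331) (.br (nat_lit 0) (.cons (.br (nat_lit 1) (.cons (.rel (nat_lit 37818432)) .nil)) .nil)) .leaf)) (nat_lit 25204959374310657) (.br (nat_lit 6) (.cons (.br (nat_lit 1) (.cons (.rel (nat_lit 17213424648)) (.cons (.rel (nat_lit 17213424648)) (.cons (.rel (nat_lit 17213423634)) (.cons (.rel (nat_lit 34376540160)) .nil))))) (.cons (.br (nat_lit 2) (.cons (.rel (nat_lit 17314152516)) (.cons (.rel (nat_lit 34493972736)) (.cons (.rel (nat_lit 17248030752)) .nil)))) .nil))) (.node (.node .leaf (nat_lit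 25204961471462657) (.br (nat_lit 4) (.cons (.br (nat_lit 5) (.cons (.rel (nat_lit 5368709202)) .nil)) .nil)) .leaf) (nat_lit 25205170195658234) (.br (nat_lit 0) (.cons (.br (nat_lit 2) (.cons (.rel (nat_lit 72351816)) .nil)) .nil)) .leaf)))

/-- refutations 121 -/
def e121 : EX := (.node (.node (.node .leaf (nat_lit 25157341544755500) (.br (nat_lit 4) (.cons (.br (nat_lit 5) (.cons (.rel (nat_lit 5368799232)) .nil)) .nil)) .leaf) (nat_lit 25157341544827160) (.br (nat_lit 3) (.cons (.br (nat_lit 4) (.cons (.rel (nat_lit 1342443585)) .nil)) .nil)) .leaf) (nat_lit 25158973634695419) (.br (nat_lit 0) (.cons (.br (nat_lit 2) (.cons (.rel (nat_lit 75501570)) (.cons (.rel (nat_lit 138420225)) .nil))) .nil)) (.node (.node .leaf (nat_lit 25168895006474540) (.br (nat_lit 0) (.cons (.br (nat_lit 2) (.cons (.rel (nat_lit 142607688)) .nil)) .nil)) .leaf) (nat_lit 25168895006784118) (.br (nat_lit 0) (.cons (.br (nat_lit 3) (.cons (.rel (nat_lit 276824145)) .nil)) .nil)) .leaf))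

/-- refutations 122 -/
def e122 : EX := (.node (.node (.node .leaf (nat_lit 26481609230828170) (.br (nat_lit 2) (.cons (.br (nat_lit 6) (.cons (.rel (nat_lit 17248092165)) .nil)) .nil)) .leaf) (nat_lit 26481609230829076) (.br (nat_lit 1) (.cons (.br (nat_lit 3) (.cons (.rel (nat_lit 285548544)) .nil)) .nil)) .leaf) (nat_lit 26481614098467692) (.br (nat_lit 0) (.cons (.br (nat_lit 3) (.cons (.rel (nat_lit 545263872)) .nil)) .nil)) (.node .leaf (nat_lit 26481614098847073) (.br (nat_lit 0) (.cons (.br (nat_lit 4) (.cons (.rel (nat_lit 1078214658)) .nil)) .nil)) .leaf))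

/-- refutations 123 -/
def e123 : EX := (.node (.node .leaf (nat_lit 26489177597531619) (.br (nat_lit 4) (.cons (.br (nat_lit 0) (.cons (.rel (nat_lit 2151679044)) (.cons (.rel (nat_lit 2151683073)) .nil))) .nil)) .leaf) (nat_lit 26489601142644244) (.br (nat_lit 0) (.cons (.br (nat_lit 1) (.cons (.rel (nat_lit 37818432)) .nil)) .nil)) .leaf)

/-- refutations 124 -/
def e124 : EX := (.node (.node (.node .leaf (nat_lit 26829469994003194) (.br (nat_lit 0) (.cons (.br (nat_lit 1) (.cons (.rel (nat_lit 25165848)) .nil)) .nil)) .leaf) (nat_lit 26829469996549601) (.br (nat_lit 0) (.cons (.br (nat_lit 2) (.cons (.rel (nat_lit 75497541)) .nil)) .nil)) .leaf) (nat_lit 26829590312268552) (.br (nat_lit 0) (.cons (.br (nat_lit 3) (.cons (.rel (nat_lit 273678420)) .nil)) .nil)) (.node .leaf (nat_lit 26834961645468278) (.br (nat_lit 0) (.cons (.br (nat_lit 1) (.cons (.rel (nat_lit 37749777)) .nil)) .nil)) .leaf))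

/-- refutations 125 -/
def e125 : EX := (.node (.node (.node .leaf (nat_lit 26835606202267649) (.br (nat_lit 1) (.cons (.br (nat_lit 2) (.cons (.rel (nat_lit 84279360)) .nil)) .nil)) .leaf) (nat_lit 26835606204521224) (.br (nat_lit 0) (.cons (.br (nat_lit 2) (.cons (.rel (nat_lit 142610712)) .nil)) .nil)) .leaf) (nat_lit 26839895537638752) (.br (nat_lit 0) (.cons (.br (nat_lit 1) (.cons (.rel (nat_lit 20972100)) .nil)) .nil)) (.node (.node .leaf (nat_lit 26841031505395842) (.br (nat_lit 1) (.cons (.br (nat_lit 2) (.cons (.rel (nat_lit 84934740)) .nil)) .nil)) .leaf) (nat_lit 26841399376549120) (.br (nat_lit 0) (.cons (.br (nat_lit 1) (.cons (.rel (nat_lit 41947461)) .nil)) .nil)) .leaf))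

/-- refutations 127 -/
def e127 : EX := (.node (.node .leaf (nat_lit 26921416545321145) (.br (nat_lit 2) (.cons (.br (nat_lit 3) (.cons (.rel (nat_lit 335806548)) .nil)) .nil)) .leaf) (nat_lit 26926825561246952) (.br (nat_lit 2) (.cons (.br (nat_lit 3) (.cons (.rel (nat_lit 603979812)) .nil)) .nil)) .leaf)

/-- refutations 128 -/
def e128 : EX := (.node (.node (.node .leaf (nat_lit 26952309188108465) (.br (nat_lit 0) (.cons (.br (nat_lit 2) (.cons (.rel (nat_lit 72351816)) .nil)) .nil)) .leaf) (nat_lit 26952399904563877) (.br (nat_lit 1) (.cons (.br (nat_lit 4) (.cons (.rel (nat_lit 1090785288)) .nil)) .nil)) .leaf) (nat_lit 26956601656645658) (.br (nat_lit 0) (.cons (.br (nat_lit 2) (.cons (.rel (nat_lit 71566368)) .nil)) .nil)) (.node (.node .leaf (nat_lit 26956604155414036) (.br (nat_lit 0) (.cons (.br (nat_lit 2) (.cons (.rel (nat_lit 71566368)) .nil)) .nil)) .leaf) (nat_lit 26956604156452372) (.br (nat_lit 0) (.cons (.br (nat_lit 1) (.cons (.rel (nat_lit 22021128)) .nil)) .nil)) .leaf))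

/-- refutations 129 -/
def e129 : EX := (.node (.node (.node (.node (.node .leaf (nat_lit 26962459990428953) (.br (nat_lit 1) (.cons (.br (nat_lit 2) (.cons (.rel (nat_lit 83894784)) .nil)) .nil)) .leaf) (nat_lit 26962459990942357) (.br (nat_lit 0) (.cons (.br (nat_lit 1) (.cons (.rel (nat_lit 25198656)) .nil)) .nil)) .leaf) (nat_lit 26962459990943252) (.br (nat_lit 0) (.cons (.br (nat_lit 1) (.cons (.rel (nat_lit 21238848)) .nil)) .nil)) (.node .leaf (nat_lit 26963317831859732) (.br (nat_lit 1) (.cons (.br (nat_lit 6) (.cons (.rel (nat_lit 17213424648)) (.cons (.rel (nat_lit 17197697040)) .nil))) .nil)) .leaf)) (nat_lit 26963318984451453) (.br (nat_lit 0) (.cons (.br (nat_lit 3) (.cons (.rel (nat_lit 547619073)) .nil)) .nil)) (.node (.node .leaf (nat_lit 26963318985293057) (.br (nat_lit 2) (.cons (.br (nat_lit 6) (.cons (.rel (nat_lit 17314168848)) .nil)) .nil)) .leaf) (nat_lit 26963318985293332) (.br (nat_lit 3) (.cons (.br (nat_lit 1) (.cons (.rel (nat_lit 555220992)) (.cons (.rel (nat_lit 285476865))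 (.cons (.rel (nat_lit 285548544)) .nil)))) .nil)) (.node .leaf (nat_lit 26963321484051937) (.br (nat_lit 0) (.cons (.br (nat_lit 2) (.cons (.rel (nat_lit 71566368)) .nil)) .nil)) .leaf))) (nat_lit 26964174262803713) (.br (nat_lit 0) (.cons (.br (nat_lit 2) (.cons (.rel (nat_lit 71566368)) .nil)) .nil)) (.node (.node (.node .leaf (nat_lit 26964176824485252) (.br (nat_lit 0) (.cons (.br (nat_lit 1) (.cons (.rel (nat_lit 21038592)) .nil)) .nil)) .leaf) (nat_lit 26964176825523457) (.br (nat_lit 4) (.cons (.br (nat_lit 0) (.cons (.rel (nat_lit 1082262528)) (.cons (.rel (nat_lit 1083179328)) .nil))) .nil)) (.node .leaf (nat_lit 26964176825523732) (.br (nat_lit 0) (.cons (.br (nat_lit 2) (.cons (.rel (nat_lit 71712768)) .nil)) .nil)) .leaf)) (nat_lit 26964176826532525) (.br (nat_lit 1) (.cons (.br (nat_lit 2) (.cons (.rel (nat_lit 167776512)) .nil)) .nil)) (.node (.node .leaf (nat_lit 26964176826997497) (.br (nat_lit 0) (.cons (.br (nat_lit 2) (.cons (.rel (nat_lit 72353874)) .nil)) .nil)) .leaf) (nat_lit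 26964179851090681) (.br (nat_lit 0) (.cons (.br (nat_lit 5) (.cons (.rel (nat_lit 8598324288)) .nil)) .nil)) (.node .leaf (nat_lit 26964180478762516) (.br (nat_lit 2) (.cons (.br (nat_lit 6) (.cons (.rel (nat_lit 17247011328)) (.cons (.rel (nat_lit 17247240225)) (.cons (.rel (nat_lit 17248030752)) .nil)))) .nil)) .leaf))))

/-- refutations 130 -/
def e130 : EX := (.node (.node (.node (.node .leaf (nat_lit 26933725387275620) (.br (nat_lit 1) (.cons (.br (nat_lit 3) (.cons (.rel (nat_lit 285295104)) .nil)) .nil)) .leaf) (nat_lit 26935140179986608) (.br (nat_lit 1) (.cons (.br (nat_lit 2) (.cons (.rel (nat_lit 84951072)) .nil)) .nil)) (.node .leaf (nat_lit 26935237940811284) (.br (nat_lit 1) (.cons (.br (nat_lit 4) (.cons (.rel (nat_lit 1090846737)) .nil)) .nil)) .leaf)) (nat_lit 26939006827100837) (.br (nat_lit 1) (.cons (.br (nat_lit 3) (.cons (.rel (nat_lit 301989957)) .nil)) .nil)) (.node (.node .leaf (nat_lit 26945708461626755) (.br (nat_lit 1) (.cons (.br (nat_lit 4) (.cons (.rel (nat_lit 1091567748))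 .nil)) .nil)) .leaf) (nat_lit 26945708461751172) (.br (nat_lit 1) (.cons (.br (nat_lit 5) (.cons (.rel (nat_lit 4311752712)) .nil)) .nil)) .leaf)) (nat_lit 26945708461952531) (.br (nat_lit 0) (.cons (.br (nat_lit 1) (.cons (.rel (nat_lit 21301314)) .nil)) .nil)) (.node (.node (.node .leaf (nat_lit 26946573380354048) (.br (nat_lit 0) (.cons (.br (nat_lit 1) (.cons (.rel (nat_lit 21266433)) .nil)) .nil)) .leaf) (nat_lit 26946573380355304) (.br (nat_lit 0) (.cons (.br (nat_lit 1) (.cons (.rel (nat_lit 20976129)) .nil)) .nil)) .leaf) (nat_lit 26946574543787540) (.br (nat_lit 0) (.cons (.br (nat_lit 1) (.cons (.rel (nat_lit 25166853)) .nil)) .nil)) (.node (.node .leaf (nat_lit 26946579279154708) (.br (nat_lit 0) (.cons (.br (nat_lit 2) (.cons (.rel (nat_lit 71712768)) .nil)) .nil)) .leaf) (nat_lit 26946579280735764) (.br (nat_lit 0) (.cons (.br (nat_lit 1) (.cons (.rel (nat_lit 37748772)) (.cons (.rel (nat_lit 22298880)) .nil))) (.cons (.br (nat_lit 1) (.cons (.rel (nat_lit 21241872)) (.cons (.rel (nat_lit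 21315588)) .nil))) .nil))) .leaf)))

/-- refutations 131 -/
def e131 : EX := (.node (.node (.node .leaf (nat_lit 27268968537955860) (.br (nat_lit 2) (.cons (.br (nat_lit 3) (.cons (.rel (nat_lit 337658112)) .nil)) .nil)) .leaf) (nat_lit 27269395280027824) (.br (nat_lit 0) (.cons (.br (nat_lit 1) (.cons (.rel (nat_lit 20972100)) .nil)) .nil)) .leaf) (nat_lit 27269487194058110) (.br (nat_lit 3) (.cons (.br (nat_lit 6) (.cons (.rel (nat_lit 17448566793)) .nil)) .nil)) (.node (.node .leaf (nat_lit 27269489396039068) (.br (nat_lit 0) (.cons (.br (nat_lit 1) (.cons (.rel (nat_lit 22020114)) .nil)) .nil)) .leaf) (nat_lit 27269489768307939) (.br (nat_lit 0) (.cons (.br (nat_lit 1) (.cons (.rel (nat_lit 25165848)) .nil)) .nil)) .leaf))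

/-- refutations 132 -/
def e132 : EX := (.node (.node .leaf (nat_lit 27273477069724299) (.br (nat_lit 0) (.cons (.br (nat_lit 1) (.cons (.rel (nat_lit 21241872)) .nil)) .nil)) .leaf) (nat_lit 27274337322829207) (.br (nat_lit 0) (.cons (.br (nat_lit 1) (.cons (.rel (nat_lit 21037590)) .nil)) .nil)) (.node .leaf (nat_lit 27278626883695843) (.br (nat_lit 2) (.cons (.br (nat_lit 4) (.cons (.rel (nat_lit 1140869637)) .nil)) .nil)) .leaf))

/-- refutations 133 -/
def e133 : EX := (.node (.node (.node (.node (.node .leaf (nat_lit 27278691895416039) (.br (nat_lit 2) (.cons (.br (nat_lit 3) (.cons (.rel (nat_lit 335806548)) .nil)) .nil)) .leaf) (nat_lit 27279118161931646) (.br (nat_lit 0) (.cons (.br (nat_lit 1) (.cons (.rel (nat_lit 21241872)) .nil)) .nil)) .leaf) (nat_lit 27279121285443644) (.br (nat_lit 4) (.cons (.br (nat_lit 3) (.cons (.rel (nat_lit 1343225865)) (.cons (.rel (nat_lit 1610613825)) (.cons (.rel (nat_lit 2415951888)) .nil)))) .nil)) (.node .leaf (nat_lit 27280774531637924) (.br (nat_lit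 2) (.cons (.br (nat_lit 4) (.cons (.rel (nat_lit 1143488514)) .nil)) .nil)) .leaf)) (nat_lit 27280988123955200) (.br (nat_lit 3) (.cons (.br (nat_lit 4) (.cons (.rel (nat_lit 1342243329)) .nil)) .nil)) (.node (.node .leaf (nat_lit 27280988124016700) (.br (nat_lit 2) (.cons (.br (nat_lit 4) (.cons (.rel (nat_lit 1208025090)) (.cons (.rel (nat_lit 1141129284)) .nil))) .nil)) .leaf) (nat_lit 27280988124477575) (.br (nat_lit 0) (.cons (.br (nat_lit 2) (.cons (.rel (nat_lit 71369280)) .nil)) .nil)) (.node .leaf (nat_lit 27280988125554195) (.br (nat_lit 0) (.cons (.br (nat_lit 4) (.cons (.rel (nat_lit 1082196036)) .nil)) .nil)) .leaf))) (nat_lit 27280988127129600) (.br (nat_lit 4) (.cons (.br (nat_lit 6) (.cons (.rel (nat_lit 35433578625)) .nil)) .nil)) (.node (.node (.node (.node .leaf (nat_lit 27280988228866849) (.br (nat_lit 0) (.cons (.br (nat_lit 2) (.cons (.rel (nat_lit 71566368)) .nil)) .nil)) .leaf) (nat_lit 27280988230718850) (.br (nat_lit 0) (.cons (.br (nat_lit 4) (.cons (.rel (nat_lit 2156134980))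 .nil)) .nil)) .leaf) (nat_lit 27280990746983950) (.br (nat_lit 4) (.cons (.br (nat_lit 0) (.cons (.rel (nat_lit 1078263813)) (.cons (.rel (nat_lit 2155909392)) .nil))) .nil)) (.node .leaf (nat_lit 27280994331528098) (.br (nat_lit 0) (.cons (.br (nat_lit 1) (.cons (.rel (nat_lit 20972100)) .nil)) .nil)) .leaf)) (nat_lit 27280994333113870) (.br (nat_lit 6) (.cons (.br (nat_lit 0) (.cons (.rel (nat_lit 17188278336)) (.cons (.rel (nat_lit 17184342084)) .nil))) .nil)) (.node (.node .leaf (nat_lit 27280994334699526) (.br (nat_lit 0) (.cons (.br (nat_lit 4) (.cons (.rel (nat_lit 2151679044)) .nil)) .nil)) .leaf) (nat_lit 27281083603152956) (.br (nat_lit 0) (.cons (.br (nat_lit 3) (.cons (.rel (nat_lit 276842496)) .nil)) .nil)) (.node .leaf (nat_lit 27281083605728769) (.br (nat_lit 0) (.cons (.br (nat_lit 3) (.cons (.rel (nat_lit 272891922)) .nil)) .nil)) .leaf))))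

/-- refutations 135 -/
def e135 : EX := (.node .leaf (nat_lit 27034485394021853) (.br (nat_lit 0) (.cons (.br (nat_lit 1) (.cons (.rel (nat_lit 20972100)) .nil)) .nil)) .leaf)

/-- refutations 136 -/
def e136 : EX := (.node (.node (.node (.node (.node .leaf (nat_lit 27392537016231393) (.br (nat_lit 0) (.cons (.br (nat_lit 1) (.cons (.rel (nat_lit 22021128)) .nil)) .nil)) .leaf) (nat_lit 27392537017188528) (.br (nat_lit 2) (.cons (.br (nat_lit 4) (.cons (.rel (nat_lit 1141182468)) .nil)) .nil)) .leaf) (nat_lit 27392540206815359) (.br (nat_lit 0) (.cons (.br (nat_lit 2) (.cons (.rel (nat_lit 71565318)) .nil)) .nil)) (.node .leaf (nat_lit 27392540206946966) (.br (nat_lit 2) (.cons (.br (nat_lit 3) (.cons (.rel (nat_lit 671088897)) .nil)) .nil)) .leaf)) (nat_lit 27392540206996142) (.br (nat_lit 0) (.cons (.br (nat_lit 2) (.cons (.rel (nat_lit 72418308)) .nil)) .nil)) (.node (.node .leaf (nat_lit 27392540208031252) (.br (nat_lit 3) (.cons (.br (nat_lit 4) (.cons (.rel (nat_lit 1343227920)) .nil)) .nil))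 .leaf) (nat_lit 27392540208351894) (.br (nat_lit 0) (.cons (.br (nat_lit 4) (.cons (.rel (nat_lit 1078214658)) .nil)) .nil)) (.node .leaf (nat_lit 27392540209053872) (.br (nat_lit 1) (.cons (.br (nat_lit 2) (.cons (.rel (nat_lit 167776512)) .nil)) .nil)) .leaf))) (nat_lit 27392540209107071) (.br (nat_lit 4) (.cons (.br (nat_lit 5) (.cons (.rel (nat_lit 9663946752)) .nil)) .nil)) (.node (.node (.node (.node .leaf (nat_lit 27392600289914084) (.br (nat_lit 0) (.cons (.br (nat_lit 4) (.cons (.rel (nat_lit 1077936657)) .nil)) .nil)) .leaf) (nat_lit 27392600290351231) (.br (nat_lit 0) (.cons (.br (nat_lit 5) (.cons (.rel (nat_lit 4299182082)) (.cons (.rel (nat_lit 4299169824)) (.cons (.rel (nat_lit 4299424002)) .nil)))) .nil)) .leaf) (nat_lit 27392600290352514) (.br (nat_lit 0) (.cons (.br (nat_lit 4) (.cons (.br (nat_lit 1) (.cons (.rel (nat_lit 2181039360)) (.cons (.rel (nat_lit 1107378180)) .nil))) .nil)) .nil)) (.node .leaf (nat_lit 27392600292655981) (.br (nat_lit 0) (.cons (.br (nat_lit 1) (.cons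 (.rel (nat_lit 22020114)) (.cons (.rel (nat_lit 25165848)) .nil))) (.cons (.br (nat_lit 4) (.cons (.br (nat_lit 1) (.cons (.rel (nat_lit 2181039360)) (.cons (.rel (nat_lit 2185494528)) .nil))) (.cons (.rel (nat_lit 1079005185)) .nil))) .nil))) .leaf)) (nat_lit 27396402926160498) (.br (nat_lit 1) (.cons (.br (nat_lit 4) (.cons (.rel (nat_lit 2164277250)) .nil)) .nil)) (.node (.node .leaf (nat_lit 27397965854533684) (.br (nat_lit 1) (.cons (.br (nat_lit 2) (.cons (.rel (nat_lit 84149256)) .nil)) .nil)) .leaf) (nat_lit 27398782873273096) (.br (nat_lit 3) (.cons (.br (nat_lit 4) (.cons (.rel (nat_lit 1342455888)) .nil)) .nil)) (.node .leaf (nat_lit 27398788125571083) (.br (nat_lit 2) (.cons (.br (nat_lit 3) (.cons (.rel (nat_lit 335544834)) .nil)) .nil)) .leaf))))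

/-- refutations 137 -/
def e137 : EX := (.node (.node (.node (.node (.node (.node .leaf (nat_lit 27402845611436088) (.br (nat_lit 4) (.cons (.br (nat_lit 6) (.cons (.rel (nat_lit 18253878276)) .nil)) .nil)) .leaf) (nat_lit 27402845611729181) (.br (nat_lit 0) (.cons (.br (nat_lit 4) (.cons (.rel (nat_lit 2151683073)) .nil)) .nil)) .leaf) (nat_lit 27402845611875714) (.br (nat_lit 4) (.cons (.br (nat_lit 3) (.cons (.rel (nat_lit 2415939585)) (.cons (.rel (nat_lit 1610616849)) .nil))) .nil)) (.node .leaf (nat_lit 27402845614187377) (.br (nat_lit 1) (.cons (.br (nat_lit 3) (.cons (.rel (nat_lit 285737280)) .nil)) .nil)) .leaf)) (nat_lit 27402851378897026) (.br (nat_lit 1) (.cons (.br (nat_lit 3) (.cons (.rel (nat_lit 286277640)) .nil)) .nil)) (.node (.node (.node .leaf (nat_lit 27403119813995272) (.br (nat_lit 0) (.cons (.br (nat_lit 4) (.cons (.rel (nat_lit 1078202400)) .nil)) .nil)) .leaf) (nat_lit 27403119814061583) (.br (nat_lit 3) (.cons (.br (nat_lit 4) (.cons (.rel (nat_lit 2416181505)) .nil))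 .nil)) .leaf) (nat_lit 27403119815593341) (.br (nat_lit 0) (.cons (.br (nat_lit 2) (.cons (.rel (nat_lit 71565318)) .nil)) .nil)) (.node .leaf (nat_lit 27403119815595541) (.br (nat_lit 0) (.cons (.br (nat_lit 1) (.cons (.rel (nat_lit 21315588)) (.cons (.rel (nat_lit 20976129)) .nil))) .nil)) .leaf))) (nat_lit 27403120233425672) (.br (nat_lit 4) (.cons (.br (nat_lit 6) (.cons (.rel (nat_lit 18254660736)) .nil)) .nil)) (.node (.node (.node (.node .leaf (nat_lit 27403120233788797) (.br (nat_lit 0) (.cons (.br (nat_lit 1) (.cons (.rel (nat_lit 22151232)) .nil)) .nil)) .leaf) (nat_lit 27403120234720637) (.br (nat_lit 2) (.cons (.br (nat_lit 3) (.cons (.rel (nat_lit 603979812)) .nil)) .nil)) .leaf) (nat_lit 27403120235027988) (.br (nat_lit 0) (.cons (.br (nat_lit 1) (.cons (.rel (nat_lit 21266433)) .nil)) .nil)) (.node .leaf (nat_lit 27403120236092268) (.br (nat_lit 2) (.cons (.br (nat_lit 3) (.cons (.rel (nat_lit 671088897)) .nil)) .nil)) .leaf)) (nat_lit 27403120787702390) (.br (nat_lit 0) (.cons (.br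 (nat_lit 1) (.cons (.rel (nat_lit 25165848)) .nil)) .nil)) (.node (.node (.node .leaf (nat_lit 27403120788367495) (.br (nat_lit 0) (.cons (.br (nat_lit 2) (.cons (.rel (nat_lit 72369153)) .nil)) .nil)) .leaf) (nat_lit 27403120788368765) (.br (nat_lit 1) (.cons (.br (nat_lit 3) (.cons (.rel (nat_lit 285475860)) .nil)) .nil)) .leaf) (nat_lit 27403978809107937) (.br (nat_lit 0) (.cons (.br (nat_lit 1) (.cons (.rel (nat_lit 41959764)) (.cons (.rel (nat_lit 21238848)) .nil))) .nil)) (.node .leaf (nat_lit 27403979227388566) (.br (nat_lit 1) (.cons (.br (nat_lit 4) (.cons (.rel (nat_lit 1107301440)) .nil)) .nil)) .leaf)))) (nat_lit 27403979228538337) (.br (nat_lit 1) (.cons (.br (nat_lit 0) (.cons (.rel (nat_lit 22021128)) (.cons (.rel (nat_lit 21238848)) .nil))) .nil)) (.node (.node (.node (.node (.node .leaf (nat_lit 27403979229458587) (.br (nat_lit 0) (.cons (.br (nat_lit 1) (.cons (.rel (nat_lit 21241872)) .nil)) .nil)) .leaf) (nat_lit 27403979960879891) (.br (nat_lit 3) (.cons (.br (nat_lit 4) (.cons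 (.rel (nat_lit 1342243329)) .nil)) .nil)) .leaf) (nat_lit 27403979962488341) (.br (nat_lit 0) (.cons (.br (nat_lit 5) (.cons (.rel (nat_lit 8598327312)) (.cons (.rel (nat_lit 8598327312)) .nil))) .nil)) (.node .leaf (nat_lit 27403979962541537) (.br (nat_lit 1) (.cons (.br (nat_lit 2) (.cons (.rel (nat_lit 100665408)) .nil)) .nil)) .leaf)) (nat_lit 27403979963820287) (.br (nat_lit 0) (.cons (.br (nat_lit 1) (.cons (.rel (nat_lit 25165848)) .nil)) .nil)) (.node (.node (.node .leaf (nat_lit 27404193998898033) (.br (nat_lit 2) (.cons (.br (nat_lit 4) (.cons (.rel (nat_lit 2214592656)) .nil)) .nil)) .leaf) (nat_lit 27404193998898562) (.br (nat_lit 0) (.cons (.br (nat_lit 1) (.cons (.rel (nat_lit 37748772)) .nil)) .nil)) .leaf) (nat_lit 27404199249040147) (.br (nat_lit 0) (.cons (.br (nat_lit 2) (.cons (.rel (nat_lit 71565318)) .nil)) .nil)) (.node .leaf (nat_lit 27404199249040890) (.br (nat_lit 0) (.cons (.br (nat_lit 1) (.cons (.rel (nat_lit 21038592)) .nil)) .nil)) .leaf))) (nat_lit 27404199794349589)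 (.br (nat_lit 4) (.cons (.br (nat_lit 0) (.cons (.rel (nat_lit 1078085124)) (.cons (.rel (nat_lit 1078214658)) .nil))) .nil)) (.node (.node (.node (.node .leaf (nat_lit 27404199878186490) (.br (nat_lit 4) (.cons (.br (nat_lit 0) (.cons (.rel (nat_lit 1079067648)) (.cons (.rel (nat_lit 1077936657)) .nil))) .nil)) .leaf) (nat_lit 27404228888700984) (.br (nat_lit 4) (.cons (.br (nat_lit 6) (.cons (.rel (nat_lit 18253891584)) .nil)) .nil)) .leaf) (nat_lit 27404228888995348) (.br (nat_lit 0) (.cons (.br (nat_lit 4) (.cons (.rel (nat_lit 2151695376)) .nil)) .nil)) (.node .leaf (nat_lit 27404228890238484) (.br (nat_lit 3) (.cons (.br (nat_lit 4) (.cons (.rel (nat_lit 1343227920)) (.cons (.rel (nat_lit 1342443585)) .nil))) (.cons (.br (nat_lit 4) (.cons (.rel (nat_lit 1343234112)) (.cons (.rel (nat_lit 1610613825)) .nil))) .nil))) .leaf)) (nat_lit 27404228891443487) (.br (nat_lit 1) (.cons (.br (nat_lit 6) (.cons (.rel (nat_lit 17213554752)) (.cons (.rel (nat_lit 34376540160)) .nil))) (.cons (.br (nat_lit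 6) (.cons (.rel (nat_lit 17196975168)) (.cons (.rel (nat_lit 17196712449)) .nil))) .nil))) (.node (.node .leaf (nat_lit 27404392178370068) (.br (nat_lit 0) (.cons (.br (nat_lit 6) (.cons (.rel (nat_lit 34363932693)) .nil)) .nil)) .leaf) (nat_lit 27404392178683386) (.br (nat_lit 0) (.cons (.br (nat_lit 4) (.cons (.rel (nat_lit 2151695376)) .nil)) .nil)) (.node .leaf (nat_lit 27404394317778452) (.br (nat_lit 0) (.cons (.br (nat_lit 1) (.cons (.rel (nat_lit 21238848)) .nil)) .nil)) .leaf)))))

/-- refutations 138 -/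
def e138 : EX := (.node .leaf (nat_lit 27404408305786387) (.br (nat_lit 2) (.cons (.br (nat_lit 4) (.cons (.rel (nat_lit 1207959648)) .nil)) .nil)) .leaf)

/-- refutations 139 -/
def e139 : EX := (.node (.node (.node .leaf (nat_lit 27373484542840838) (.br (nat_lit 0) (.cons (.br (nat_lit 1) (.cons (.rel (nat_lit 21238848)) .nil)) .nil)) .leaf) (nat_lit 27374616056422585) (.br (nat_lit 5) (.cons (.br (nat_lit 6) (.cons (.rel (nat_lit 21474846753)) .nil)) .nil)) (.node .leaf (nat_lit 27374616056472202) (.br (nat_lit 0) (.cons (.br (nat_lit 1) (.cons (.rel (nat_lit 21038592)) .nil)) .nil)) .leaf)) (nat_lit 27379342875599533) (.br (nat_lit 5) (.cons (.br (nat_lit 0) (.cons (.rel (nat_lit 4299163776)) (.cons (.rel (nat_lit 4299227208)) .nil))) .nil)) (.node (.node .leaf (nat_lit 27380328362926265) (.br (nat_lit 0) (.cons (.br (nat_lit 2) (.cons (.rel (nat_lit 71566368)) .nil)) .nil)) .leaf) (nat_lit 27380964116508958) (.br (nat_lit 4) (.cons (.br (nat_lit 5) (.cons (.rel (nat_lit 5368726548)) .nil)) .nil))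 (.node .leaf (nat_lit 27381067283743021) (.br (nat_lit 1) (.cons (.br (nat_lit 2) (.cons (.rel (nat_lit 150996096)) .nil)) .nil)) .leaf)))

/-- refutations 141 -/
def e141 : EX := (.node (.node (.node (.node .leaf (nat_lit 27466772202903679) (.br (nat_lit 4) (.cons (.br (nat_lit 5) (.cons (.rel (nat_lit 5368714245)) .nil)) .nil)) .leaf) (nat_lit 27466772205279393) (.br (nat_lit 0) (.cons (.br (nat_lit 2) (.cons (.rel (nat_lit 72369153)) .nil)) .nil)) .leaf) (nat_lit 27466772284745784) (.br (nat_lit 0) (.cons (.br (nat_lit 2) (.cons (.rel (nat_lit 71369280)) .nil)) .nil)) (.node .leaf (nat_lit 27474350099205623) (.br (nat_lit 0) (.cons (.br (nat_lit 1) (.cons (.rel (nat_lit 20972100)) .nil)) .nil)) .leaf)) (nat_lit 27474599805988991) (.br (nat_lit 0) (.cons (.br (nat_lit 1) (.cons (.rel (nat_lit 21266433)) .nil)) .nil)) (.node (.node (.node .leaf (nat_lit 27474600226495401) (.br (nat_lit 0) (.cons (.br (nat_lit 1) (.cons (.rel (nat_lit 22056960)) .nil)) .nil)) .leaf) (nat_lit 27474602368708739) (.br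 (nat_lit 3) (.cons (.br (nat_lit 4) (.cons (.rel (nat_lit 1343227920)) (.cons (.rel (nat_lit 1342439556)) .nil))) .nil)) .leaf) (nat_lit 27474602368709860) (.br (nat_lit 4) (.cons (.br (nat_lit 1) (.cons (.rel (nat_lit 2164277250)) (.cons (.rel (nat_lit 1107329025)) .nil))) .nil)) (.node .leaf (nat_lit 27474602369454211) (.br (nat_lit 2) (.cons (.br (nat_lit 4) (.cons (.rel (nat_lit 1141375233)) .nil)) .nil)) .leaf)))

/-- list of the parts -/
def L0 : List (ℕ × List ℕ) := [(nat_lit 0x10, [Nat.sub (Nat.pow 2 654) (Nat.pow 2 0), Nat.sub (Nat.pow 2 3136) (Nat.pow 2 654)]),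
  (nat_lit 0x200, [cP]),
  (nat_lit 0x10000, [cP]),
  (nat_lit 0x8000000000, [cP]),
  (nat_lit 0x40000000000000, [Nat.sub (Nat.pow 2 654) (Nat.pow 2 0), Nat.sub (Nat.pow 2 1254) (Nat.pow 2 654), Nat.sub (Nat.pow 2 1559) (Nat.pow 2 1254), Nat.sub (Nat.pow 2 3136) (Nat.pow 2 1559)]),
  (nat_lit 0x10000000000, [cP]),
  (nat_lit 0x200000000000000000000000000000000, [Nat.sub (Nat.pow 2 284) (Nat.pow 2 0), Nat.sub (Nat.pow 2 811) (Nat.pow 2 284), Nat.sub (Nat.pow 2 1259) (Nat.pow 2 811), Nat.sub (Nat.pow 2 3136) (Nat.pow 2 1259)]),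
  (nat_lit 0x40000000000000000, [cP]),
  (nat_lit 0x10000000000000000000000000000000000, [cP]),
  (nat_lit 0x80000000000000000000000000000000000, [cP]),
  (nat_lit 0x100000000000000000000000000000000000, [cP]),
  (nat_lit 0x200000000000000000000000000000000000000000, [Nat.sub (Nat.pow 2 680) (Nat.pow 2 0), Nat.sub (Nat.pow 2 3136) (Nat.pow 2 680)]),
  (nat_lit 0x200000000000000000000000000000000000, [cP]),
  (nat_lit 0x1000400000000000000000000000000000000000000000, [cP]),
  (nat_lit 0x4000000000000000000000000000000000000000000000000000000000000000, [Nat.sub (Nat.pow 2 754) (Nat.pow 2 0), Nat.sub (Nat.pow 2 3136) (Nat.pow 2 754)]),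
  (nat_lit 0x2000000000000000000000000000000000000000000000, [cP]),
  (nat_lit 0x10000000000000000000000000000000000000000000000000000000000000000, [cP]),
  (nat_lit 0x1000000000000000000000000000000000000000000000000000000000000000000, [Nat.sub (Nat.pow 2 654) (Nat.pow 2 0), Nat.sub (Nat.pow 2 3136) (Nat.pow 2 654)]),
  (nat_lit 0x200000000000000000000000000000000000000000000000000000000000000000, [cP]),
  (nat_lit 0x8000000000000000000000000000000000000000000000000000000000000000000000, [Nat.sub (Nat.pow 2 754) (Nat.pow 2 0), Nat.sub (Nat.pow 2 3136) (Nat.pow 2 754)]),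
  (nat_lit 0x30004000000000000000000000000000000000000000000000000000000000000000000, [cP]),
  (nat_lit 0x100000000000000000000000000000000000000000000000000000000000000000000000, [cP]),
  (nat_lit 0x400000000000000000000000000000000000000000000000000000000000000000000000, [Nat.sub (Nat.pow 2 754) (Nat.pow 2 0), Nat.sub (Nat.pow 2 1536) (Nat.pow 2 754), Nat.sub (Nat.pow 2 3136) (Nat.pow 2 1536)]),
  (nat_lit 0x200000000000000000000000000000000000000000000000000000000000000000000000, [cP]),
  (nat_lit 0x4000000000000000000000000000000000000000000000000000000000000000000000000, [cP]),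
  (nat_lit 0x10000000000000000000000000000000000000000000000000000000000000000000000000000, [cP]),
  (nat_lit 0x60000000000000000000000000000000000000000000000000000000000000000000000000000, [cP]),
  (nat_lit 0x200000000000000000000000000000000000000000000000000000000000000000000000000000, [cP]),
  (nat_lit 0x400000000000000000000000000000000000000000000000000000000000000000000000000000, [cP]),
  (nat_lit 0x4000000000000000000000000000000000000000000000000000000000000000000000000000000, [cP]),
  (nat_lit 0x8000000000000000000000000000000000000000000000000000000000000000000000000000000, [cP]),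
  (nat_lit 0x10000000000000000000000000000000000000000000000000000000000000000000000000000000, [cP]),
  (nat_lit 0x800000000000000000000000000000000000000000000000000000000000000000000000000000000000000000000000000000000000000000000000000000000000000000000000000000000000000, [cP]),
  (nat_lit 0x40000000000000000000000000000000000000000000000000000000000000000000000000000000000000000000000000000000000000000000000000000000000000000000000000000000000000000000, [Nat.sub (Nat.pow 2 140) (Nat.pow 2 0), Nat.sub (Nat.pow 2 190) (Nat.pow 2 140), Nat.sub (Nat.pow 2 629) (Nat.pow 2 190), Nat.sub (Nat.pow 2 654) (Nat.pow 2 629), Nat.sub (Nat.pow 2 764) (Nat.pow 2 654), Nat.sub (Nat.pow 2 879) (Nat.pow 2 764), Nat.sub (Nat.pow 2 915) (Nat.pow 2 879), Nat.sub (Nat.pow 2 1311) (Nat.pow 2 915), Nat.sub (Nat.pow 2 1504) (Nat.pow 2 1311), Nat.sub (Nat.pow 2 1529) (Nat.pow 2 1504), Nat.sub (Nat.pow 2 3136) (Nat.pow 2 1529)]),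
  (nat_lit 0x80028000000000000000000000000000000000000000000000000000000000000000000000000000000000000000000000000000000000000000000000000000000000000000000000000000000000000000, [cP]),
  (nat_lit 0x20000000000000000000000000000000000000000000000000000000000000000000000000000000000000000000000000000000000000000000000000000000000000000000000000000000000000000000000, [Nat.sub (Nat.pow 2 629) (Nat.pow 2 0), Nat.sub (Nat.pow 2 1511) (Nat.pow 2 629), Nat.sub (Nat.pow 2 3136) (Nat.pow 2 1511)]),
  (nat_lit 0x80000000000000000000000000000000000000000000000000000000000000000000000000000000000000000000000000000000000000000000000000000000000000000000000000000000000000000000000000, [Nat.sub (Nat.pow 2 654) (Nat.pow 2 0), Nat.sub (Nat.pow 2 1554) (Nat.pow 2 654), Nat.sub (Nat.pow 2 3136) (Nat.pow 2 1554)]),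
  (nat_lit 0x100000000000000000000000000000000000000000000000000000000000000000000000000000000000000000000000000000000000000000000000000000000000000000000000000000000000000000000, [cP]),
  (nat_lit 0x100000000000000000000000000000000000000000000000000000000000000000000000000000000000000000000000000000000000000000000000000000000000000000000000000000000000000000000000000, [cP]),
  (nat_lit 0x80000000000000000000000000000000000000000000000000000000000000000000000000000000000000000000000000000000000000000000000000000000000000000000000000000000000000000000000000000, [cP]),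
  (nat_lit 0x18000000000000000000000000000000000000000000000000000000000000000000000000000000000000000000000000000000000000000000000000000000000000000000000000000000000000000000000000000000000000000000000, [cP]),
  (nat_lit 0x800000000000000000000000000000000000000000000000000000000000000000000000000000000000000000000000000000000000000000000000000000000000000000000000000000000000000000000000000000000000000000000000000, [Nat.sub (Nat.pow 2 754) (Nat.pow 2 0), Nat.sub (Nat.pow 2 3136) (Nat.pow 2 754)]),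
  (nat_lit 0x2000000000000000000000000000000000000000000000000000000000000000000000000000000000000000000000000000000000000000000000000000000000000000000000000000000000000000000000000000000000000000000000000000, [Nat.sub (Nat.pow 2 914) (Nat.pow 2 0), Nat.sub (Nat.pow 2 3136) (Nat.pow 2 914)]),
  (nat_lit 0x20000400000000000000000000000000000000000000000000000000000000000000000000000000000000000000000000000000000000000000000000000000000000000000000000000000000000000000000000000000000000000000000000000, [cP]),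
  (nat_lit 0x80000000000000000000000000000000000000000000000000000000000000000000000000000000000000000000000000000000000000000000000000000000000000000000000000000000000000000000000000000000000000000000000000000000000, [Nat.sub (Nat.pow 2 891) (Nat.pow 2 0), Nat.sub (Nat.pow 2 3136) (Nat.pow 2 891)]),
  (nat_lit 0x40000040000000000000000000000000000000000000000000000000000000000000000000000000000000000000000000000000000000000000000000000000000000000000000000000000000000000000000000000000000000000000000000000000000, [cP]),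
  (nat_lit 0x400000000000000000000000000000000000000000000000000000000000000000000000000000000000000000000000000000000000000000000000000000000000000000000000000000000000000000000000000000000000000000000000000000000000, [cP]),
  (nat_lit 0x400000000000000000000000000000000000000000000000000000000000000000000000000000000000000000000000000000000000000000000000000000000000000000000000000000000000000000000000000000000000000000000000000000000000000000000000000000, [Nat.sub (Nat.pow 2 666) (Nat.pow 2 0), Nat.sub (Nat.pow 2 1561) (Nat.pow 2 666), Nat.sub (Nat.pow 2 3136) (Nat.pow 2 1561)]),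
  (nat_lit 0x4000000000000000000000000000000000000000000000000000000000000000000000000000000000000000000000000000000000000000000000000000000000000000000000000000000000000000000000000000000000000000000000000000000000000000000000000000000, [Nat.sub (Nat.pow 2 764) (Nat.pow 2 0), Nat.sub (Nat.pow 2 1561) (Nat.pow 2 764), Nat.sub (Nat.pow 2 3136) (Nat.pow 2 1561)]),
  (nat_lit 0x40000100000000000000000000000000000000000000000000000000000000000000000000000000000000000000000000000000000000000000000000000000000000000000000000000000000000000000000000000000000000000000000000000000000000000000000000000000000, [cP]),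
  (nat_lit 0x200000000000000000000000000000000000000000000000000000000000000000000000000000000000000000000000000000000000000000000000000000000000000000000000000000000000000000000000000000000000000000000000000000000000000000000000000000000000, [cP]),
  (nat_lit 0x4000000000000000000000000000000000000000000000000000000000000000000000000000000000000000000000000000000000000000000000000000000000000000000000000000000000000000000000000000000000000000000000000000000000000000000000000000000000000, [cP]),
  (nat_lit 0x8000000000000000000000000000000000000000000000000000000000000000000000000000000000000000000000000000000000000000000000000000000000000000000000000000000000000000000000000000000000000000000000000000000000000000000000000000000000000, [cP]),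
  (nat_lit 0x8000000000000000000000000000000000000000000000000000000000000000000000000000000000000000000000000000000000000000000000000000000000000000000000000000000000000000000000000000000000000000000000000000000000000000000000000000000000000000000, [Nat.sub (Nat.pow 2 760) (Nat.pow 2 0), Nat.sub (Nat.pow 2 1559) (Nat.pow 2 760), Nat.sub (Nat.pow 2 3136) (Nat.pow 2 1559)]),
  (nat_lit 0x40000000000000000000000000000000000000000000000000000000000000000000000000000000000000000000000000000000000000000000000000000000000000000000000000000000000000000000000000000000000000000000000000000000000000000000000000000000000000000000000000000000000000000000000000000000000000000000000000000000000000000000000000, [Nat.sub (Nat.pow 2 629) (Nat.pow 2 0), Nat.sub (Nat.pow 2 754) (Nat.pow 2 629), Nat.sub (Nat.pow 2 904) (Nat.pow 2 754), Nat.sub (Nat.pow 2 1389) (Nat.pow 2 904), Nat.sub (Nat.pow 2 3136) (Nat.pow 2 1389)]),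
  (nat_lit 0x2000000000000000000000000000000000000000000000000000000000000000000000000000000000000000000000000000000000000000000000000000000000000000000000000000000000000000000000000000000000000000000000000000000000000000000000000000000000000000000000000000000000000000000000000000000000000000000000000000000000000000000000000000, [Nat.sub (Nat.pow 2 1311) (Nat.pow 2 0), Nat.sub (Nat.pow 2 1561) (Nat.pow 2 1311), Nat.sub (Nat.pow 2 3136) (Nat.pow 2 1561)]),
  (nat_lit 0x1000000000000000000000000000000000000000000000000000000000000000000000000000000020800010000000000000000000000000000000000000000000000000000000000000000000000000000000000000000000000000000000000000000000000000000000000000000000000000000000000000000000000000000000000000000000000000000000000000000000000000000000000000, [cP]),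
  (nat_lit 0x40000000000000000000000000000000000000000000000000000000000000000000000000000000000000000000000000000000000000000000000000000000000000000000000000000000000000000000000000000000000000000000000000000000000000000000000000000000000000000000000000000000000000000000000000000000000000000000000000000000000000000000000000000000000, [cP]),
  (nat_lit 0x4000000000000000000000000000000000000000000000000000000000000000000000000000000000000000000000000000000000000000000000000000000000000000000000000000000000000000000000000000000000000000000000000000000000000000000000000000000000000000000000000000000000000000000000000000000000000000000000000000000000000000000000000000000000000000, [cP]),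
  (nat_lit 0x800000000000000000000000000000000000000000000000000000000000000000000000000000000000000000000000000000000000000000000000000000000000000000000000000000000000000000000000000000000000000000000000000000000000000000000000000000000000000000000000000000000000000000000000000000000000000000000000000000000000000000000000000000000000000000000000000000000, [Nat.sub (Nat.pow 2 656) (Nat.pow 2 0), Nat.sub (Nat.pow 2 3136) (Nat.pow 2 656)]),
  (nat_lit 0x1000000000000000040000000000000000000000000000000000000000000000000000000000000000000000000000000000000000000000000000000000000000000000000000000000000000000000000000000000000000000000000000000000000000000000000000000000000000000000000000000000000000000000000000000000000000000000000000000000000000000000000000000000000000000000000000000000000000, [cP]),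
  (nat_lit 0x2000000000000000000000000000000000000000000000000000000000000000000000000000000000000000000000000000000000000000000000000000000000000000000000000000000000000000000000000000000000000000000000000000000000000000000000000000000000000000000000000000000000000000000000000000000000000000000000000000000000000000000000000000000000000000000000000000000000, [cP]),
  (nat_lit 0x20000000000000000000000000000000000000000000000000000000000000000000000000000000000000000000000000000000000000000000000000000000000000000000000000000000000000000000000000000000000000000000000000000000000000000000000000000000000000000000000000000000000000000000000000000000000000000000000000000000000000000000000000000000000000000000000000000000000, [cP]),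
  (nat_lit 0x1000000000000000000000000000000000000000000000000000000000000000000000000000000000000000000000000000000000000000000000000000000000000000000000000000000000000000000000000000000000000000000000000000000000000000000000000000000000000000000000000000000000000000000000000000000000000000000000000000000000000000000000000000000000000000000000000000000000000000, [Nat.sub (Nat.pow 2 629) (Nat.pow 2 0), Nat.sub (Nat.pow 2 1259) (Nat.pow 2 629), Nat.sub (Nat.pow 2 1554) (Nat.pow 2 1259), Nat.sub (Nat.pow 2 3136) (Nat.pow 2 1554)]),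
  (nat_lit 0x200000000000000000000000000000000000000000000000000000000000000000000000000000000000000000000000000000000000000000000000000000000000000000000000000000000000000000000000000000000000000000000000000000000000000000000000000000000000000000000000000000000000000000000000000000000000000000000000000000000000000000000000000000000000000000000000000000000000, [cP]),
  (nat_lit 0x2000000000000000000000000000000000000000000000000000000000000000000000000000000000000000000000000000000000000000000000000000000000000000000000000000000000000000000000000000000000000000000000000000000000000000000000000000000000000000000000000000000000000000000000000000000000000000000000000000000000000000000000000000000000000000000000000000000000000000, [cP]),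
  (nat_lit 0x20000000000000000000000000000000000000000000000000000000000000000000000000000000000000000000000000000000000000000000000000000000000000000000000000000000000000000000000000000000000000000000000000000000000000000000000000000000000000000000000000000000000000000000000000000000000000000000000000000000000000000000000000000000000000000000000000000000000000000, [cP]),
  (nat_lit 0x800000000000000000000000000000000000000000000000000000000000000000000000000000000000000000000000000000000000000000000000000000000000000000000000000000000000000000000000000000000000000000000000000000000000000000000000000000000000000000000000000000000000000000000000000000000000000000000000000000000000000000000000000000000000000000000000000000000000000000, [Nat.sub (Nat.pow 2 914) (Nat.pow 2 0), Nat.sub (Nat.pow 2 3136) (Nat.pow 2 914)]),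
  (nat_lit 0x400000000000000000000000000000000000000000000000000000000000000000000000000000000000000000000000000000000000000000000000000000000000000000000000000000000000000000000000000000000000000000000000000000000000000000000000000000000000000000000000000000000000000000000000000000000000000000000000000000000000000000000000000000000000000000000000000000000000000000, [cP]),
  (nat_lit 0x4000000000000000000000000000000000000000000000000000000000000000000000000000000000000000000000000000000000000000000000000000000000000000000000000000000000000000000000000000000000000000000000000000000000000000000000000000000000000000000000000000000000000000000000000000000000000000000000000000000000000000000000000000000000000000000000000000000000000000000000, [cP]),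
  (nat_lit 0x100000000000000000000000000000000000000000000000000000000000000000000000000000000000000000000000000000000000000000000000000000000000000000000000000000000000000000000000000000000000000000000000000000000000000000000000000000000000000000000000000000000000000000000000000000000000000000000000000000000000000000000000000000000000000000000000000000000000000000000000, [Nat.sub (Nat.pow 2 906) (Nat.pow 2 0), Nat.sub (Nat.pow 2 3136) (Nat.pow 2 906)]),
  (nat_lit 0x10000000000000000000000000000000000000000000000000000000000000000000000000000000000000000000000000000000000000000000000000000000000000000000000000000000000000000000000000000000000000000000000000000000000000000000000000000000000000000000000000000000000000000000000000000000000000000000000000000000000000000000000000000000000000000000000000000000000000000000000000000000000000000, [Nat.sub (Nat.pow 2 879) (Nat.pow 2 0), Nat.sub (Nat.pow 2 3136) (Nat.pow 2 879)]),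
  (nat_lit 0x40000000000000000000000000000000000000000000000000000000000000000000000000000000000000000000000000000000000000000000000000000000000000000000000000000000000000000000000000000000000000000000000000000000000000000000000000000000000000000000000000000000000000000000000000000000000000000000000000000000000000000000000000000000000000000000000000000000000000000000000, [cP]),
  (nat_lit 0x200000000000000000000000000000000000000000000000000000000000000000000000000000000000000000000000000000000000000000000000000000000000000000000000000000000000000000000000000000000000000000000000000000000000000000000000000000000000000000000000000000000000000000000000000000000000000000000000000000000000000000000000000000000000000000000000000000000000000000000000000000000000000000, [Nat.sub (Nat.pow 2 764) (Nat.pow 2 0), Nat.sub (Nat.pow 2 3136) (Nat.pow 2 764)]),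
  (nat_lit 0x20000000000000000000000000000000000000000000000000000000000000000000000000000000000000000000000000000000000000000000000000000000000000000000000000000000000000000000000000000000000000000000000000000000000000000000000000000000000000000000000000000000000000000000000000000000000000000000000000000000000000000000000000000000000000000000000000000000000000000000000000000000000000000000000, [Nat.sub (Nat.pow 2 811) (Nat.pow 2 0), Nat.sub (Nat.pow 2 3136) (Nat.pow 2 811)]),
  (nat_lit 0x60000000000000000000000000000000000000000000000000000000000000000000000000000000000000000000000000000000000000000000000000000000000000000000000000000000000000000000000000000000000000000000000000000000000000000000000000000000000000000000000000000000000000000000000000000000000000000000000000000000000000000000000000000000000000000000000000000000000000000000000000000000000000000, [cP]),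
  (nat_lit 0x400000000000000000000000000000000000000000000000000000000000000000000000000000000000000000000000000000000000000000000000000000000000000000000000000000000000000000000000000000000000000000000000000000000000000000000000000000000000000000000000000000000000000000000000000000000000000000000000000000000000000000000000000000000000000000000000000000000000000000000000000000000000000000000000, [cP]),
  (nat_lit 0x1000000000000000000000000000000000000000000000000000000000000000000000000000000000000000000000000000000000000000000000000000000000000000000000000000000000000000000000000000000000000000000000000000000000000000000000000000000000000000000000000000000000000000000000000000000000000000000000000000000000000000000000000000000000000000000000000000000000000000000000000000000000000000000000000, [Nat.sub (Nat.pow 2 1261) (Nat.pow 2 0), Nat.sub (Nat.pow 2 3136) (Nat.pow 2 1261)]),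
  (nat_lit 0x800000000000000000000000000000000000000000000000000000000000000000000000000000000000000000000000000000000000000000000000000000000000000000000000000000000000000000000000000000000000000000000000000000000000000000000000000000000000000000000000000000000000000000000000000000000000000000000000000000000000000000000000000000000000000000000000000000000000000000000000000000000000000000000000, [cP]),
  (nat_lit 0x40000000000000000000000000000000000000000000000000000000000000000000000000000000000000000000000000000000000000000000000000000000000000000000000000000000000000000000000000000000000000000000000000000000000000000000000000000000000000000000000000000000000000000000000000000000000000000000000000000000000000000000000000000000000000000000000000000000000000000000000000000000000000000000000000000, [Nat.sub (Nat.pow 2 654) (Nat.pow 2 0), Nat.sub (Nat.pow 2 1261) (Nat.pow 2 654), Nat.sub (Nat.pow 2 1561) (Nat.pow 2 1261), Nat.sub (Nat.pow 2 3136) (Nat.pow 2 1561)]),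
  (nat_lit 0x10000000000000000000000000000000000000000000000000000000000000000000000000000000000000000000000000000000000000000000000000000000000000000000000000000000000000000000000000000000000000000000000000000000000000000000000000000000000000000000000000000000000000000000000000000000000000000000000000000000000000000000000000000000000000000000000000000000000000000000000000000000000000000000000000, [cP]),
  (nat_lit 0x2000000000000000000000000000000000000000000000000000000000000000000000000000000000000000000000000000000000000000000000000000000000000000000000000000000000000000000000000000000000000000000000000000000000000000000000000000000000000000000000000000000000000000000000000000000000000000000000000000000000000000000000000000000000000000000000000000000000000000000000000000000000000000000000000000000, [Nat.sub (Nat.pow 2 1379) (Nat.pow 2 0), Nat.sub (Nat.pow 2 1561) (Nat.pow 2 1379), Nat.sub (Nat.pow 2 3136) (Nat.pow 2 1561)]),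
  (nat_lit 0x1000000000000000000000000000000000000000000000000000000000000000000000000000000000000000000000000000000000000000000000000000000000000000000000000000000000000000000000000000000000000000000000000000000000000000000000000000000000000000000000000000000000000000000000000000000000000000000000000000000000000000000000000000000000000000000000000000000000000000000000000000000000000000000000000000000, [cP]),
  (nat_lit 0x10000000000000000000000000000000000000000000000000000000000000000000000000000000000000000000000000000000000000000000000000000000000000000000000000000000000000000000000000000000000000000000000000000000000000000000000000000000000000000000000000000000000000000000000000000000000000000000000000000000000000000000000000000000000000000000000000000000000000000000000000000000000000000000000000000000, [cP]),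
  (nat_lit 0x20000000000000000000000000000000000000000000000000000000000000000000000000000000000000000000000000000000000000000000000000000000000000000000000000000000000000000000000000000000000000000000000000000000000000000000000000000000000000000000000000000000000000000000000000000000000000000000000000000000000000000000000000000000000000000000000000000000000000000000000000000000000000000000000000000000, [cP])]

theorem hp0 : ∀ p ∈ L0, ∀ D2 ∈ p.2, ∃ e,
    search ext94 (Pool.Agent.H74.EGZ.vio sb) G Uc A0 p.1 D2 e = true :=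
  (List.forall_mem_cons.2 ⟨(List.forall_mem_cons.2 ⟨⟨e0, by decide +kernel⟩,
  (List.forall_mem_singleton.2 ⟨e1, by decide +kernel⟩)⟩),
  (List.forall_mem_cons.2 ⟨(List.forall_mem_singleton.2 ⟨e2, by decide +kernel⟩),
  (List.forall_mem_cons.2 ⟨(List.forall_mem_singleton.2 ⟨e3, by decide +kernel⟩),
  (List.forall_mem_cons.2 ⟨(List.forall_mem_singleton.2 ⟨.leaf, by decide +kernel⟩),
  (List.forall_mem_cons.2 ⟨(List.forall_mem_cons.2 ⟨⟨e5, by decide +kernel⟩,
  (List.forall_mem_cons.2 ⟨⟨e6, by decide +kernel⟩,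
  (List.forall_mem_cons.2 ⟨⟨e7, by decide +kernel⟩,
  (List.forall_mem_singleton.2 ⟨.leaf, by decide +kernel⟩)⟩)⟩)⟩),
  (List.forall_mem_cons.2 ⟨(List.forall_mem_singleton.2 ⟨e9, by decide +kernel⟩),
  (List.forall_mem_cons.2 ⟨(List.forall_mem_cons.2 ⟨⟨e10, by decide +kernel⟩,
  (List.forall_mem_cons.2 ⟨⟨e11, by decide +kernel⟩,
  (List.forall_mem_cons.2 ⟨⟨e12, by decide +kernel⟩,
  (List.forall_mem_singleton.2 ⟨e13, by decide +kernel⟩)⟩)⟩)⟩),
  (List.forall_mem_cons.2 ⟨(List.forall_mem_singleton.2 ⟨.leaf, by decide +kernel⟩),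
  (List.forall_mem_cons.2 ⟨(List.forall_mem_singleton.2 ⟨e15, by decide +kernel⟩),
  (List.forall_mem_cons.2 ⟨(List.forall_mem_singleton.2 ⟨.leaf, by decide +kernel⟩),
  (List.forall_mem_cons.2 ⟨(List.forall_mem_singleton.2 ⟨e17, by decide +kernel⟩),
  (List.forall_mem_cons.2 ⟨(List.forall_mem_cons.2 ⟨⟨e18, by decide +kernel⟩,
  (List.forall_mem_singleton.2 ⟨.leaf, by decide +kernel⟩)⟩),
  (List.forall_mem_cons.2 ⟨(List.forall_mem_singleton.2 ⟨e20, by decide +kernel⟩),
  (List.forall_mem_cons.2 ⟨(List.forall_mem_singleton.2 ⟨e21, by decide +kernel⟩),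
  (List.forall_mem_cons.2 ⟨(List.forall_mem_cons.2 ⟨⟨e22, by decide +kernel⟩,
  (List.forall_mem_singleton.2 ⟨e23, by decide +kernel⟩)⟩),
  (List.forall_mem_cons.2 ⟨(List.forall_mem_singleton.2 ⟨e24, by decide +kernel⟩),
  (List.forall_mem_cons.2 ⟨(List.forall_mem_singleton.2 ⟨e25, by decide +kernel⟩),
  (List.forall_mem_cons.2 ⟨(List.forall_mem_cons.2 ⟨⟨e26, by decide +kernel⟩,
  (List.forall_mem_singleton.2 ⟨e27, by decide +kernel⟩)⟩),
  (List.forall_mem_cons.2 ⟨(List.forall_mem_singleton.2 ⟨e28, by decide +kernel⟩),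
  (List.forall_mem_cons.2 ⟨(List.forall_mem_cons.2 ⟨⟨e29, by decide +kernel⟩,
  (List.forall_mem_singleton.2 ⟨e30, by decide +kernel⟩)⟩),
  (List.forall_mem_cons.2 ⟨(List.forall_mem_singleton.2 ⟨e31, by decide +kernel⟩),
  (List.forall_mem_cons.2 ⟨(List.forall_mem_singleton.2 ⟨e32, by decide +kernel⟩),
  (List.forall_mem_cons.2 ⟨(List.forall_mem_cons.2 ⟨⟨e33, by decide +kernel⟩,
  (List.forall_mem_cons.2 ⟨⟨e34, by decide +kernel⟩,
  (List.forall_mem_singleton.2 ⟨.leaf, by decide +kernel⟩)⟩)⟩),
  (List.forall_mem_cons.2 ⟨(List.forall_mem_singleton.2 ⟨.leaf, by decide +kernel⟩),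
  (List.forall_mem_cons.2 ⟨(List.forall_mem_singleton.2 ⟨e37, by decide +kernel⟩),
  (List.forall_mem_cons.2 ⟨(List.forall_mem_singleton.2 ⟨e38, by decide +kernel⟩),
  (List.forall_mem_cons.2 ⟨(List.forall_mem_singleton.2 ⟨e39, by decide +kernel⟩),
  (List.forall_mem_cons.2 ⟨(List.forall_mem_singleton.2 ⟨e40, by decide +kernel⟩),
  (List.forall_mem_cons.2 ⟨(List.forall_mem_singleton.2 ⟨.leaf, by decide +kernel⟩),
  (List.forall_mem_cons.2 ⟨(List.forall_mem_singleton.2 ⟨e42, by decide +kernel⟩),
  (List.forall_mem_cons.2 ⟨(List.forall_mem_singleton.2 ⟨.leaf, by decide +kernel⟩),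
  (List.forall_mem_cons.2 ⟨(List.forall_mem_singleton.2 ⟨.leaf, by decide +kernel⟩),
  (List.forall_mem_cons.2 ⟨(List.forall_mem_singleton.2 ⟨e45, by decide +kernel⟩),
  (List.forall_mem_cons.2 ⟨(List.forall_mem_cons.2 ⟨⟨e46, by decide +kernel⟩,
  (List.forall_mem_cons.2 ⟨⟨e47, by decide +kernel⟩,
  (List.forall_mem_cons.2 ⟨⟨e48, by decide +kernel⟩,
  (List.forall_mem_cons.2 ⟨⟨e49, by decide +kernel⟩,
  (List.forall_mem_cons.2 ⟨⟨e50, by decide +kernel⟩,
  (List.forall_mem_cons.2 ⟨⟨e51, by decide +kernel⟩,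
  (List.forall_mem_cons.2 ⟨⟨e52, by decide +kernel⟩,
  (List.forall_mem_cons.2 ⟨⟨e53, by decide +kernel⟩,
  (List.forall_mem_cons.2 ⟨⟨e54, by decide +kernel⟩,
  (List.forall_mem_cons.2 ⟨⟨e55, by decide +kernel⟩,
  (List.forall_mem_singleton.2 ⟨e56, by decide +kernel⟩)⟩)⟩)⟩)⟩)⟩)⟩)⟩)⟩)⟩)⟩),
  (List.forall_mem_cons.2 ⟨(List.forall_mem_singleton.2 ⟨e57, by decide +kernel⟩),
  (List.forall_mem_cons.2 ⟨(List.forall_mem_cons.2 ⟨⟨e58, by decide +kernel⟩,
  (List.forall_mem_cons.2 ⟨⟨e59, by decide +kernel⟩,
  (List.forall_mem_singleton.2 ⟨e60, by decide +kernel⟩)⟩)⟩),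
  (List.forall_mem_cons.2 ⟨(List.forall_mem_cons.2 ⟨⟨e61, by decide +kernel⟩,
  (List.forall_mem_cons.2 ⟨⟨e62, by decide +kernel⟩,
  (List.forall_mem_singleton.2 ⟨.leaf, by decide +kernel⟩)⟩)⟩),
  (List.forall_mem_cons.2 ⟨(List.forall_mem_singleton.2 ⟨.leaf, by decide +kernel⟩),
  (List.forall_mem_cons.2 ⟨(List.forall_mem_singleton.2 ⟨e65, by decide +kernel⟩),
  (List.forall_mem_cons.2 ⟨(List.forall_mem_singleton.2 ⟨e66, by decide +kernel⟩),
  (List.forall_mem_cons.2 ⟨(List.forall_mem_singleton.2 ⟨e67, by decide +kernel⟩),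
  (List.forall_mem_cons.2 ⟨(List.forall_mem_cons.2 ⟨⟨e68, by decide +kernel⟩,
  (List.forall_mem_singleton.2 ⟨e69, by decide +kernel⟩)⟩),
  (List.forall_mem_cons.2 ⟨(List.forall_mem_cons.2 ⟨⟨e70, by decide +kernel⟩,
  (List.forall_mem_singleton.2 ⟨e71, by decide +kernel⟩)⟩),
  (List.forall_mem_cons.2 ⟨(List.forall_mem_singleton.2 ⟨e72, by decide +kernel⟩),
  (List.forall_mem_cons.2 ⟨(List.forall_mem_cons.2 ⟨⟨e73, by decide +kernel⟩,
  (List.forall_mem_singleton.2 ⟨e74, by decide +kernel⟩)⟩),
  (List.forall_mem_cons.2 ⟨(List.forall_mem_singleton.2 ⟨e75, by decide +kernel⟩),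
  (List.forall_mem_cons.2 ⟨(List.forall_mem_singleton.2 ⟨e76, by decide +kernel⟩),
  (List.forall_mem_cons.2 ⟨(List.forall_mem_cons.2 ⟨⟨e77, by decide +kernel⟩,
  (List.forall_mem_cons.2 ⟨⟨e78, by decide +kernel⟩,
  (List.forall_mem_singleton.2 ⟨.leaf, by decide +kernel⟩)⟩)⟩),
  (List.forall_mem_cons.2 ⟨(List.forall_mem_cons.2 ⟨⟨e80, by decide +kernel⟩,
  (List.forall_mem_cons.2 ⟨⟨e81, by decide +kernel⟩,
  (List.forall_mem_singleton.2 ⟨.leaf, by decide +kernel⟩)⟩)⟩),
  (List.forall_mem_cons.2 ⟨(List.forall_mem_singleton.2 ⟨e83, by decide +kernel⟩),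
  (List.forall_mem_cons.2 ⟨(List.forall_mem_singleton.2 ⟨e84, by decide +kernel⟩),
  (List.forall_mem_cons.2 ⟨(List.forall_mem_singleton.2 ⟨e85, by decide +kernel⟩),
  (List.forall_mem_cons.2 ⟨(List.forall_mem_singleton.2 ⟨e86, by decide +kernel⟩),
  (List.forall_mem_cons.2 ⟨(List.forall_mem_cons.2 ⟨⟨e87, by decide +kernel⟩,
  (List.forall_mem_cons.2 ⟨⟨e88, by decide +kernel⟩,
  (List.forall_mem_singleton.2 ⟨.leaf, by decide +kernel⟩)⟩)⟩),
  (List.forall_mem_cons.2 ⟨(List.forall_mem_cons.2 ⟨⟨e90, by decide +kernel⟩,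
  (List.forall_mem_cons.2 ⟨⟨e91, by decide +kernel⟩,
  (List.forall_mem_cons.2 ⟨⟨e92, by decide +kernel⟩,
  (List.forall_mem_cons.2 ⟨⟨e93, by decide +kernel⟩,
  (List.forall_mem_singleton.2 ⟨e94, by decide +kernel⟩)⟩)⟩)⟩)⟩),
  (List.forall_mem_cons.2 ⟨(List.forall_mem_cons.2 ⟨⟨e95, by decide +kernel⟩,
  (List.forall_mem_cons.2 ⟨⟨e96, by decide +kernel⟩,
  (List.forall_mem_singleton.2 ⟨e97, by decide +kernel⟩)⟩)⟩),
  (List.forall_mem_cons.2 ⟨(List.forall_mem_singleton.2 ⟨e98, by decide +kernel⟩),
  (List.forall_mem_cons.2 ⟨(List.forall_mem_singleton.2 ⟨e99, by decide +kernel⟩),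
  (List.forall_mem_cons.2 ⟨(List.forall_mem_singleton.2 ⟨e100, by decide +kernel⟩),
  (List.forall_mem_cons.2 ⟨(List.forall_mem_cons.2 ⟨⟨.leaf, by decide +kernel⟩,
  (List.forall_mem_singleton.2 ⟨e102, by decide +kernel⟩)⟩),
  (List.forall_mem_cons.2 ⟨(List.forall_mem_singleton.2 ⟨e103, by decide +kernel⟩),
  (List.forall_mem_cons.2 ⟨(List.forall_mem_singleton.2 ⟨e104, by decide +kernel⟩),
  (List.forall_mem_cons.2 ⟨(List.forall_mem_singleton.2 ⟨e105, by decide +kernel⟩),
  (List.forall_mem_cons.2 ⟨(List.forall_mem_cons.2 ⟨⟨e106, by decide +kernel⟩,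
  (List.forall_mem_cons.2 ⟨⟨e107, by decide +kernel⟩,
  (List.forall_mem_cons.2 ⟨⟨e108, by decide +kernel⟩,
  (List.forall_mem_singleton.2 ⟨.leaf, by decide +kernel⟩)⟩)⟩)⟩),
  (List.forall_mem_cons.2 ⟨(List.forall_mem_singleton.2 ⟨e110, by decide +kernel⟩),
  (List.forall_mem_cons.2 ⟨(List.forall_mem_singleton.2 ⟨.leaf, by decide +kernel⟩),
  (List.forall_mem_cons.2 ⟨(List.forall_mem_singleton.2 ⟨e112, by decide +kernel⟩),
  (List.forall_mem_cons.2 ⟨(List.forall_mem_cons.2 ⟨⟨e113, by decide +kernel⟩,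
  (List.forall_mem_singleton.2 ⟨e114, by decide +kernel⟩)⟩),
  (List.forall_mem_cons.2 ⟨(List.forall_mem_singleton.2 ⟨e115, by decide +kernel⟩),
  (List.forall_mem_cons.2 ⟨(List.forall_mem_singleton.2 ⟨e116, by decide +kernel⟩),
  (List.forall_mem_cons.2 ⟨(List.forall_mem_cons.2 ⟨⟨e117, by decide +kernel⟩,
  (List.forall_mem_singleton.2 ⟨e118, by decide +kernel⟩)⟩),
  (List.forall_mem_cons.2 ⟨(List.forall_mem_cons.2 ⟨⟨.leaf, by decide +kernel⟩,
  (List.forall_mem_singleton.2 ⟨.leaf, by decide +kernel⟩)⟩),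
  (List.forall_mem_cons.2 ⟨(List.forall_mem_singleton.2 ⟨e121, by decide +kernel⟩),
  (List.forall_mem_cons.2 ⟨(List.forall_mem_cons.2 ⟨⟨e122, by decide +kernel⟩,
  (List.forall_mem_singleton.2 ⟨e123, by decide +kernel⟩)⟩),
  (List.forall_mem_cons.2 ⟨(List.forall_mem_cons.2 ⟨⟨e124, by decide +kernel⟩,
  (List.forall_mem_singleton.2 ⟨e125, by decide +kernel⟩)⟩),
  (List.forall_mem_cons.2 ⟨(List.forall_mem_singleton.2 ⟨.leaf, by decide +kernel⟩),
  (List.forall_mem_cons.2 ⟨(List.forall_mem_singleton.2 ⟨e127, by decide +kernel⟩),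
  (List.forall_mem_cons.2 ⟨(List.forall_mem_cons.2 ⟨⟨e128, by decide +kernel⟩,
  (List.forall_mem_singleton.2 ⟨e129, by decide +kernel⟩)⟩),
  (List.forall_mem_cons.2 ⟨(List.forall_mem_singleton.2 ⟨e130, by decide +kernel⟩),
  (List.forall_mem_cons.2 ⟨(List.forall_mem_cons.2 ⟨⟨e131, by decide +kernel⟩,
  (List.forall_mem_cons.2 ⟨⟨e132, by decide +kernel⟩,
  (List.forall_mem_cons.2 ⟨⟨e133, by decide +kernel⟩,
  (List.forall_mem_singleton.2 ⟨.leaf, by decide +kernel⟩)⟩)⟩)⟩),
  (List.forall_mem_cons.2 ⟨(List.forall_mem_singleton.2 ⟨e135, by decide +kernel⟩),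
  (List.forall_mem_cons.2 ⟨(List.forall_mem_cons.2 ⟨⟨e136, by decide +kernel⟩,
  (List.forall_mem_cons.2 ⟨⟨e137, by decide +kernel⟩,
  (List.forall_mem_singleton.2 ⟨e138, by decide +kernel⟩)⟩)⟩),
  (List.forall_mem_cons.2 ⟨(List.forall_mem_singleton.2 ⟨e139, by decide +kernel⟩),
  (List.forall_mem_cons.2 ⟨(List.forall_mem_singleton.2 ⟨.leaf, by decide +kernel⟩),
  (List.forall_mem_singleton.2 (List.forall_mem_singleton.2 ⟨e141, by decide +kernel⟩))⟩)⟩)⟩)⟩)⟩)⟩)⟩)⟩)⟩)⟩)⟩)⟩)⟩)⟩)⟩)⟩)⟩)⟩)⟩)⟩)⟩)⟩)⟩)⟩)⟩)⟩)⟩)⟩)⟩)⟩)⟩)⟩)⟩)⟩)⟩)⟩)⟩)⟩)⟩)⟩)⟩)⟩)⟩)⟩)⟩)⟩)⟩)⟩)⟩)⟩)⟩)⟩)⟩)⟩)⟩)⟩)⟩)⟩)⟩)⟩)⟩)⟩)⟩)⟩)⟩)⟩)⟩)⟩)⟩)⟩)⟩)⟩)⟩)⟩)⟩)⟩)⟩)⟩)⟩)⟩)⟩)⟩)⟩)⟩)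

end

end Pool.Agent.H21.EGZ.S16
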