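import Pool.Agent.H21.EGZ.D17

/-!
# Stage 17 : search, part 0
-/

set_option autoImplicit false
set_option maxRecDepth 100000

namespace Pool.Agent.H21.EGZ.S17

noncomputable section

open Pool.Agent.H74.EGZ Pool.Agent.H94.Lift

/-- refutations 0 -/
def e0 : EX := (.node (.node (.node (.node .leaf (nat_lit 89530278336793) (.br (nat_lit 0) (.cons (.br (nat_lit 1) (.cons (.rel (nat_lit 25166337)) .nil)) .nil)) .leaf) (nat_lit 89564635451673) (.br (nat_lit 1) (.cons (.br (nat_lit 2) (.cons (.rel (nat_lit 167772420)) (.cons (.rel (nat_lit 83886600)) .nil))) .nil)) .leaf) (nat_lit 89564637780249) (.br (nat_lit 3) (.cons (.br (nat_lit 4) (.cons (.rel (nat_lit 1342244352)) .nil)) .nil)) (.node .leaf (nat_lit 99795172170030) (.br (nat_lit 2) (.cons (.br (nat_lit 3) (.cons (.rel (nat_lit 336593424)) .nil)) .nil)) .leaf)) (nat_lit 99795174719790) (.br (nat_lit 6) (.cons (.br (nat_lit 2) (.cons (.rel (nat_lit 17247109128)) (.cons (.rel (nat_lit 17247045909)) .nil))) .nil)) (.node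 (.node (.node .leaf (nat_lit 99795247042865) (.br (nat_lit 1) (.cons (.br (nat_lit 4) (.cons (.rel (nat_lit 1091633472)) .nil)) .nil)) .leaf) (nat_lit 99795249957145) (.br (nat_lit 2) (.cons (.br (nat_lit 4) (.cons (.rel (nat_lit 1140852744)) .nil)) .nil)) .leaf) (nat_lit 99795694553263) (.br (nat_lit 4) (.cons (.br (nat_lit 5) (.cons (.rel (nat_lit 5368718340)) .nil)) .nil)) (.node .leaf (nat_lit 100001408653593) (.br (nat_lit 0) (.cons (.br (nat_lit 1) (.cons (.rel (nat_lit 37753872)) .nil)) .nil)) .leaf)))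

/-- refutations 1 -/
def e1 : EX := (.node (.node .leaf (nat_lit 112525530743564) (.br (nat_lit 1) (.cons (.br (nat_lit 3) (.cons (.rel (nat_lit 285235200)) .nil)) .nil)) .leaf) (nat_lit 112525533293479) (.br (nat_lit 0) (.cons (.br (nat_lit 1) (.cons (.rel (nat_lit 37765140)) .nil)) .nil)) .leaf)

/-- refutations 2 -/
def e2 : EX := (.node (.node (.node (.node (.node (.node .leaf (nat_lit 176243390230809) (.br (nat_lit 2) (.cons (.br (nat_lit 4) (.cons (.rel (nat_lit 1140852744)) .nil)) .nil)) .leaf) (nat_lit 176245665188592) (.br (nat_lit 0) (.cons (.br (nat_lit 3) (.cons (.rel (nat_lit 277905408)) .nil)) .nil)) .leaf) (nat_lit 176245666773273) (.br (nat_lit 3) (.cons (.br (nat_lit 0) (.cons (.rel (nat_lit 272630808)) (.cons (.rel (nat_lit 272629794)) .nil))) .nil)) (.node .leaf (nat_lit 176245667737881) (.br (nat_lit 0) (.cons (.br (nat_lit 2) (.cons (.rel (nat_lit 71304228)) .nil)) .nil)) .leaf)) (nat_lit 176245667738910) (.br (nat_lit 3) (.cons (.br (nat_lit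 4) (.cons (.rel (nat_lit 1342177305)) .nil)) .nil)) (.node (.node .leaf (nat_lit 183481153983216) (.br (nat_lit 0) (.cons (.br (nat_lit 1) (.cons (.rel (nat_lit 20975745)) .nil)) .nil)) .leaf) (nat_lit 183481156711710) (.br (nat_lit 0) (.cons (.br (nat_lit 2) (.cons (.rel (nat_lit 71376912)) .nil)) .nil)) (.node .leaf (nat_lit 183481575112954) (.br (nat_lit 1) (.cons (.br (nat_lit 3) (.cons (.rel (nat_lit 285213216)) .nil)) .nil)) .leaf))) (nat_lit 183484154143600) (.br (nat_lit 1) (.cons (.br (nat_lit 2) (.cons (.rel (nat_lit 83957760)) .nil)) .nil)) (.node (.node (.node (.node .leaf (nat_lit 183484154144146) (.br (nat_lit 0) (.cons (.br (nat_lit 1) (.cons (.rel (nat_lit 21233700)) .nil)) .nil)) .leaf) (nat_lit 183484155370854) (.br (nat_lit 0) (.cons (.br (nat_lit 6) (.cons (.rel (nat_lit 34363950084)) .nil)) .nil)) .leaf) (nat_lit 183484155900784) (.br (nat_lit 0) (.cons (.br (nat_lit 3) (.cons (.rel (nat_lit 272646660)) .nil)) .nil)) (.node .leaf (nat_lit 183486797021434)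 (.br (nat_lit 3) (.cons (.br (nat_lit 1) (.cons (.rel (nat_lit 285213216)) (.cons (.rel (nat_lit 285213216)) (.cons (.rel (nat_lit 570425616)) .nil)))) .nil)) .leaf)) (nat_lit 183486979871001) (.br (nat_lit 0) (.cons (.br (nat_lit 3) (.cons (.br (nat_lit 1) (.cons (.rel (nat_lit 21233700)) (.cons (.rel (nat_lit 302022720)) .nil))) .nil)) .nil)) (.node (.node .leaf (nat_lit 183486979872030) (.br (nat_lit 0) (.cons (.br (nat_lit 4) (.cons (.rel (nat_lit 1077956736)) .nil)) .nil)) .leaf) (nat_lit 183486980049648) (.br (nat_lit 0) (.cons (.br (nat_lit 3) (.cons (.rel (nat_lit 272703492)) .nil)) .nil)) (.node .leaf (nat_lit 183486980050278) (.br (nat_lit 0) (.cons (.br (nat_lit 6) (.cons (.rel (nat_lit 17184064896)) (.cons (.rel (nat_lit 17188323588)) .nil))) .nil)) .leaf)))) (nat_lit 183486982599408) (.br (nat_lit 3) (.cons (.br (nat_lit 1) (.cons (.rel (nat_lit 285213216)) (.cons (.rel (nat_lit 570425616)) .nil))) .nil)) (.node (.node (.node (.node (.node .leaf (nat_lit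 187796300485488) (.br (nat_lit 0) (.cons (.br (nat_lit 3) (.cons (.rel (nat_lit 272631813)) .nil)) .nil)) .leaf) (nat_lit 187796303065968) (.br (nat_lit 0) (.cons (.br (nat_lit 6) (.cons (.br (nat_lit 1) (.cons (.rel (nat_lit 34380726336)) (.cons (.rel (nat_lit 37748994)) .nil))) .nil)) .nil)) .leaf) (nat_lit 187799127036185) (.br (nat_lit 1) (.cons (.br (nat_lit 6) (.cons (.rel (nat_lit 17213425680)) .nil)) .nil)) (.node .leaf (nat_lit 187799127036584) (.br (nat_lit 0) (.cons (.br (nat_lit 1) (.cons (.rel (nat_lit 21242112)) .nil)) .nil)) .leaf)) (nat_lit 187799127215380) (.br (nat_lit 0) (.cons (.br (nat_lit 3) (.cons (.rel (nat_lit 272703492)) .nil)) .nil)) (.node (.node .leaf (nat_lit 187799127215462) (.br (nat_lit 6) (.cons (.br (nat_lit 0) (.cons (.rel (nat_lit 34363932933)) (.cons (.rel (nat_lit 34363938816)) .nil))) .nil)) .leaf) (nat_lit 187799127572761) (.br (nat_lit 0) (.cons (.br (nat_lit 6) (.cons (.rel (nat_lit 17184325665)) (.cons (.rel (nat_lit 34363932933))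 .nil))) .nil)) (.node .leaf (nat_lit 187799128799513) (.br (nat_lit 3) (.cons (.br (nat_lit 6) (.cons (.rel (nat_lit 17448312837)) .nil)) .nil)) .leaf))) (nat_lit 187799128799984) (.br (nat_lit 3) (.cons (.br (nat_lit 6) (.cons (.rel (nat_lit 17448321282)) .nil)) .nil)) (.node (.node (.node (.node .leaf (nat_lit 187799128800133) (.br (nat_lit 0) (.cons (.br (nat_lit 6) (.cons (.rel (nat_lit 17188323588)) .nil)) .nil)) .leaf) (nat_lit 187799129616665) (.br (nat_lit 5) (.cons (.br (nat_lit 6) (.cons (.rel (nat_lit 21474861312)) .nil)) .nil)) .leaf) (nat_lit 187799129854233) (.br (nat_lit 2) (.cons (.br (nat_lit 6) (.cons (.rel (nat_lit 17246986257)) .nil)) .nil)) (.node .leaf (nat_lit 189036077796710) (.br (nat_lit 0) (.cons (.br (nat_lit 5) (.cons (.rel (nat_lit 4299169824)) .nil)) .nil)) .leaf)) (nat_lit 189036079055600) (.br (nat_lit 2) (.cons (.br (nat_lit 4) (.cons (.rel (nat_lit 1140852744)) .nil)) .nil)) (.node (.node .leaf (nat_lit 189036080345840) (.br (nat_lit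 0) (.cons (.br (nat_lit 1) (.cons (.rel (nat_lit 37753872)) .nil)) .nil)) .leaf) (nat_lit 189036080346470) (.br (nat_lit 0) (.cons (.br (nat_lit 2) (.cons (.rel (nat_lit 71312640)) .nil)) .nil)) (.node .leaf (nat_lit 189297028700310) (.br (nat_lit 2) (.cons (.br (nat_lit 0) (.cons (.rel (nat_lit 138690561)) (.cons (.rel (nat_lit 71304228)) .nil))) .nil)) .leaf)))))

/-- refutations 3 -/
def e3 : EX := (.node (.node (.node (.node .leaf (nat_lit 457655824123930) (.br (nat_lit 2) (.cons (.br (nat_lit 3) (.cons (.rel (nat_lit 402653220)) .nil)) .nil)) .leaf) (nat_lit 457660512096537) (.br (nat_lit 1) (.cons (.br (nat_lit 2) (.cons (.rel (nat_lit 83886600)) .nil)) .nil)) .leaf) (nat_lit 457714917778694) (.br (nat_lit 0) (.cons (.br (nat_lit 1) (.cons (.rel (nat_lit 21234705)) .nil)) .nil)) (.node (.node .leaf (nat_lit 457714918196486) (.br (nat_lit 1) (.cons (.br (nat_lit 3) (.cons (.rel (nat_lit 285218049)) .nil)) .nil)) .leaf) (nat_lit 458686066116869) (.br (nat_lit 1)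 (.cons (.br (nat_lit 0) (.cons (.rel (nat_lit 21234705)) (.cons (.rel (nat_lit 21381120)) .nil))) .nil)) .leaf)) (nat_lit 458686068617526) (.br (nat_lit 0) (.cons (.br (nat_lit 1) (.cons (.rel (nat_lit 25296900)) .nil)) .nil)) (.node (.node (.node .leaf (nat_lit 458686068618143) (.br (nat_lit 0) (.cons (.br (nat_lit 1) (.cons (.rel (nat_lit 25247760)) .nil)) .nil)) .leaf) (nat_lit 458686068618746) (.br (nat_lit 1) (.cons (.br (nat_lit 2) (.cons (.rel (nat_lit 83895297)) .nil)) .nil)) .leaf) (nat_lit 458691304740342) (.br (nat_lit 1) (.cons (.br (nat_lit 2) (.cons (.rel (nat_lit 167772420)) .nil)) .nil)) (.node .leaf (nat_lit 458691305562162) (.br (nat_lit 0) (.cons (.br (nat_lit 1) (.cons (.br (nat_lit 6) (.cons (.rel (nat_lit 34363932933)) (.cons (.rel (nat_lit 34394357760)) .nil))) .nil)) .nil)) .leaf)))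

/-- refutations 4 -/
def e4 : EX := (.node (.node (.node (.node (.node .leaf (nat_lit 459811246885014) (.br (nat_lit 6) (.cons (.br (nat_lit 0) (.cons (.rel (nat_lit 17184325665)) (.cons (.rel (nat_lit 34363932933)) .nil))) .nil)) .leaf) (nat_lit 459811248176661) (.br (nat_lit 1) (.cons (.br (nat_lit 6) (.cons (.rel (nat_lit 17213554944)) .nil)) .nil)) (.node .leaf (nat_lit 459811249139862) (.br (nat_lit 0) (.cons (.br (nat_lit 1) (.cons (.rel (nat_lit 21234705)) (.cons (.rel (nat_lit 25166337)) (.cons (.rel (nat_lit 21381120)) .nil)))) .nil)) .leaf)) (nat_lit 459811896550637) (.br (nat_lit 0) (.cons (.br (nat_lit 2) (.cons (.rel (nat_lit 142606341)) .nil)) .nil)) (.node (.node .leaf (nat_lit 459811897055287) (.br (nat_lit 0) (.cons (.br (nat_lit 4) (.cons (.rel (nat_lit 1080033540)) .nil)) .nil)) .leaf) (nat_lit 459811897772033) (.br (nat_lit 0) (.cons (.br (nat_lit 6) (.cons (.rel (nat_lit 17184362496)) .nil)) .nil)) (.node .leaf (nat_lit 459811898293475) (.br (nat_lit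 0) (.cons (.br (nat_lit 4) (.cons (.rel (nat_lit 2151813120)) .nil)) .nil)) .leaf))) (nat_lit 459811899258268) (.br (nat_lit 0) (.cons (.br (nat_lit 4) (.cons (.rel (nat_lit 2151677973)) .nil)) .nil)) (.node (.node (.node .leaf (nat_lit 459811899265811) (.br (nat_lit 0) (.cons (.br (nat_lit 1) (.cons (.rel (nat_lit 37765140)) .nil)) .nil)) .leaf) (nat_lit 459811899605047) (.br (nat_lit 0) (.cons (.br (nat_lit 6) (.cons (.rel (nat_lit 17184064896)) .nil)) .nil)) (.node .leaf (nat_lit 459811899605867) (.br (nat_lit 0) (.cons (.br (nat_lit 4) (.cons (.rel (nat_lit 2151813120)) .nil)) .nil)) .leaf)) (nat_lit 459813889092511) (.br (nat_lit 0) (.cons (.br (nat_lit 2) (.cons (.rel (nat_lit 71305233)) .nil)) .nil)) (.node (.node .leaf (nat_lit 459813889296534) (.br (nat_lit 3) (.cons (.br (nat_lit 6) (.cons (.rel (nat_lit 17448307200)) .nil)) .nil)) .leaf) (nat_lit 459813890057119) (.br (nat_lit 0) (.cons (.br (nat_lit 4) (.cons (.rel (nat_lit 1082132481)) .nil)) .nil)) .leaf)))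 (nat_lit 459813890262549) (.br (nat_lit 0) (.cons (.br (nat_lit 4) (.cons (.rel (nat_lit 1082147328)) .nil)) .nil)) (.node (.node (.node (.node .leaf (nat_lit 459813890587875) (.br (nat_lit 0) (.cons (.br (nat_lit 5) (.cons (.rel (nat_lit 4299194370)) .nil)) .nil)) .leaf) (nat_lit 459813890588034) (.br (nat_lit 0) (.cons (.br (nat_lit 3) (.cons (.rel (nat_lit 545259537)) .nil)) .nil)) (.node .leaf (nat_lit 459814509758625) (.br (nat_lit 3) (.cons (.br (nat_lit 4) (.cons (.rel (nat_lit 1342263312)) .nil)) .nil)) .leaf)) (nat_lit 459814512316577) (.br (nat_lit 0) (.cons (.br (nat_lit 3) (.cons (.rel (nat_lit 272654352)) .nil)) .nil)) (.node (.node .leaf (nat_lit 459814539155588) (.br (nat_lit 0) (.cons (.br (nat_lit 1) (.cons (.rel (nat_lit 37748994)) .nil)) .nil)) .leaf) (nat_lit 459815881296022) (.br (nat_lit 0) (.cons (.br (nat_lit 1) (.cons (.rel (nat_lit 41944656)) .nil)) .nil)) (.node .leaf (nat_lit 459815882881026) (.br (nat_lit 0) (.cons (.br (nat_lit 1) (.cons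 (.rel (nat_lit 25247760)) .nil)) .nil)) .leaf))) (nat_lit 459816585940244) (.br (nat_lit 0) (.cons (.br (nat_lit 6) (.cons (.rel (nat_lit 17188323588)) .nil)) .nil)) (.node (.node (.node .leaf (nat_lit 459816586994449) (.br (nat_lit 0) (.cons (.br (nat_lit 2) (.cons (.rel (nat_lit 142606341)) (.cons (.rel (nat_lit 75513924)) .nil))) .nil)) .leaf) (nat_lit 459816588489484) (.br (nat_lit 2) (.cons (.br (nat_lit 0) (.cons (.rel (nat_lit 71304228)) (.cons (.rel (nat_lit 71305233)) (.cons (.rel (nat_lit 71305233)) .nil)))) .nil)) (.node .leaf (nat_lit 463892116766222) (.br (nat_lit 0) (.cons (.br (nat_lit 1) (.cons (.rel (nat_lit 25166337)) .nil)) .nil)) .leaf)) (nat_lit 463892117224675) (.br (nat_lit 0) (.cons (.br (nat_lit 2) (.cons (.rel (nat_lit 75513924)) .nil)) .nil)) (.node (.node .leaf (nat_lit 463894109519354) (.br (nat_lit 0) (.cons (.br (nat_lit 1) (.cons (.rel (nat_lit 20975745)) .nil)) .nil)) .leaf) (nat_lit 465189198320403) (.br (nat_lit 1) (.cons (.br (nat_lit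 2) (.cons (.rel (nat_lit 83886600)) .nil)) .nil)) .leaf))))

/-- refutations 5 -/
def e5 : EX := (.node (.node (.node (.node (.node (.node .leaf (nat_lit 465223025373869) (.br (nat_lit 1) (.cons (.br (nat_lit 2) (.cons (.rel (nat_lit 83895297)) .nil)) .nil)) .leaf) (nat_lit 465226197687572) (.br (nat_lit 0) (.cons (.br (nat_lit 4) (.cons (.rel (nat_lit 2151813120)) .nil)) .nil)) .leaf) (nat_lit 465226198259972) (.br (nat_lit 0) (.cons (.br (nat_lit 4) (.cons (.rel (nat_lit 1082131476)) .nil)) .nil)) (.node .leaf (nat_lit 465226198261012) (.br (nat_lit 0) (.cons (.br (nat_lit 4) (.cons (.rel (nat_lit 1082132481)) .nil)) .nil)) .leaf)) (nat_lit 465226200461572) (.br (nat_lit 1) (.cons (.br (nat_lit 6) (.cons (.br (nat_lit 4) (.cons (.rel (nat_lit 18253971456)) (.cons (.rel (nat_lit 1090782216)) .nil))) .nil)) .nil)) (.node (.node .leaf (nat_lit 465226200470291) (.br (nat_lit 0) (.cons (.br (nat_lit 1) (.cons (.rel (nat_lit 37748994)) .nil)) .nil)) .leaf) (nat_lit 468148822494484)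 (.br (nat_lit 0) (.cons (.br (nat_lit 2) (.cons (.rel (nat_lit 142606341)) .nil)) .nil)) (.node .leaf (nat_lit 468148823548689) (.br (nat_lit 0) (.cons (.br (nat_lit 2) (.cons (.rel (nat_lit 142606341)) .nil)) .nil)) .leaf))) (nat_lit 468148825133337) (.br (nat_lit 0) (.cons (.br (nat_lit 6) (.cons (.rel (nat_lit 34363932933)) .nil)) .nil)) (.node (.node (.node (.node .leaf (nat_lit 468148825134438) (.br (nat_lit 0) (.cons (.br (nat_lit 1) (.cons (.rel (nat_lit 23069700)) .nil)) .nil)) .leaf) (nat_lit 468229479308769) (.br (nat_lit 0) (.cons (.br (nat_lit 1) (.cons (.rel (nat_lit 25296900)) .nil)) .nil)) .leaf) (nat_lit 468230032955447) (.br (nat_lit 0) (.cons (.br (nat_lit 4) (.cons (.rel (nat_lit 2151813120)) .nil)) .nil)) (.node .leaf (nat_lit 468230035505207) (.br (nat_lit 1) (.cons (.br (nat_lit 6) (.cons (.rel (nat_lit 17196925188)) (.cons (.rel (nat_lit 17197696320)) .nil))) .nil)) .leaf)) (nat_lit 468230035506027) (.br (nat_lit 4) (.cons (.br (nat_lit 0) (.cons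 (.rel (nat_lit 1080033540)) (.cons (.rel (nat_lit 1080098817)) .nil))) .nil)) (.node (.node .leaf (nat_lit 468232675366967) (.br (nat_lit 0) (.cons (.br (nat_lit 4) (.cons (.rel (nat_lit 1082132481)) .nil)) .nil)) .leaf) (nat_lit 468232675368212) (.br (nat_lit 0) (.cons (.br (nat_lit 4) (.cons (.rel (nat_lit 1082132481)) .nil)) .nil)) (.node .leaf (nat_lit 468232677568772) (.br (nat_lit 0) (.cons (.br (nat_lit 4) (.cons (.rel (nat_lit 2151825441)) .nil)) .nil)) .leaf)))) (nat_lit 468444234314628) (.br (nat_lit 0) (.cons (.br (nat_lit 1) (.cons (.rel (nat_lit 20975745)) .nil)) .nil)) (.node (.node (.node (.node (.node .leaf (nat_lit 468446372917908) (.br (nat_lit 3) (.cons (.br (nat_lit 6) (.cons (.rel (nat_lit 17448337428)) .nil)) .nil)) .leaf) (nat_lit 468616580791822) (.br (nat_lit 0) (.cons (.br (nat_lit 1) (.cons (.rel (nat_lit 42991653)) .nil)) .nil)) .leaf) (nat_lit 468616582531697) (.br (nat_lit 0) (.cons (.br (nat_lit 3) (.cons (.rel (nat_lit 272703492)) .nil))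 .nil)) (.node .leaf (nat_lit 468620565356546) (.br (nat_lit 0) (.cons (.br (nat_lit 1) (.cons (.rel (nat_lit 21038208)) .nil)) .nil)) .leaf)) (nat_lit 469509283849749) (.br (nat_lit 0) (.cons (.br (nat_lit 2) (.cons (.rel (nat_lit 71320080)) .nil)) .nil)) (.node (.node .leaf (nat_lit 469509284062741) (.br (nat_lit 1) (.cons (.br (nat_lit 2) (.cons (.rel (nat_lit 167772420)) .nil)) .nil)) .leaf) (nat_lit 469509284330723) (.br (nat_lit 1) (.cons (.br (nat_lit 3) (.cons (.rel (nat_lit 285217044)) .nil)) .nil)) (.node .leaf (nat_lit 469509284331029) (.br (nat_lit 4) (.cons (.br (nat_lit 1) (.cons (.rel (nat_lit 2164262400)) (.cons (.rel (nat_lit 1107300369)) .nil))) .nil)) .leaf))) (nat_lit 469509284380181) (.br (nat_lit 2) (.cons (.br (nat_lit 4) (.cons (.rel (nat_lit 1140918789)) .nil)) .nil)) (.node (.node (.node (.node .leaf (nat_lit 469509383653661) (.br (nat_lit 3) (.cons (.br (nat_lit 5) (.cons (.rel (nat_lit 4564467714)) .nil)) .nil)) .leaf) (nat_lit 469509384945146)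 (.br (nat_lit 2) (.cons (.br (nat_lit 1) (.cons (.rel (nat_lit 83890464)) (.cons (.rel (nat_lit 153092112)) .nil))) .nil)) .leaf) (nat_lit 469509385043450) (.br (nat_lit 0) (.cons (.br (nat_lit 1) (.cons (.rel (nat_lit 21234705)) .nil)) .nil)) (.node .leaf (nat_lit 469509386204036) (.br (nat_lit 2) (.cons (.br (nat_lit 4) (.cons (.rel (nat_lit 1140883728)) .nil)) .nil)) .leaf)) (nat_lit 469509386219805) (.br (nat_lit 2) (.cons (.br (nat_lit 3) (.cons (.rel (nat_lit 336593424)) .nil)) .nil)) (.node (.node .leaf (nat_lit 469514623616358) (.br (nat_lit 0) (.cons (.br (nat_lit 1) (.cons (.rel (nat_lit 22024512)) .nil)) .nil)) .leaf) (nat_lit 469514624643353) (.br (nat_lit 2) (.cons (.br (nat_lit 3) (.cons (.rel (nat_lit 336089088)) .nil)) .nil)) (.node .leaf (nat_lit 469514624905497) (.br (nat_lit 2) (.cons (.br (nat_lit 4) (.cons (.rel (nat_lit 1140851730)) .nil)) .nil)) .leaf)))))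

/-- refutations 6 -/
def e6 : EX := (.node (.node .leaf (nat_lit 470370918910102) (.br (nat_lit 2) (.cons (.br (nat_lit 4) (.cons (.rel (nat_lit 1140932868)) .nil)) .nil)) .leaf) (nat_lit 470372912226485) (.br (nat_lit 2) (.cons (.br (nat_lit 3) (.cons (.rel (nat_lit 335560806)) .nil)) .nil)) .leaf)

/-- refutations 7 -/
def e7 : EX := (.node (.node (.node (.node .leaf (nat_lit 529114988475275) (.br (nat_lit 1) (.cons (.br (nat_lit 2) (.cons (.rel (nat_lit 101711904)) .nil)) .nil)) .leaf) (nat_lit 529117034780698) (.br (nat_lit 1) (.cons (.br (nat_lit 3) (.cons (.rel (nat_lit 285217044)) .nil)) .nil)) (.node .leaf (nat_lit 529117453205654) (.br (nat_lit 0) (.cons (.br (nat_lit 2) (.cons (.rel (nat_lit 71320080)) .nil)) .nil)) .leaf)) (nat_lit 529118085095574) (.br (nat_lit 0) (.cons (.br (nat_lit 2) (.cons (.rel (nat_lit 71305233)) .nil)) .nil)) (.node (.node .leaf (nat_lit 529118086545558) (.br (nat_lit 1) (.cons (.br (nat_lit 3) (.cons (.rel (nat_lit 285491280))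 (.cons (.rel (nat_lit 302022720)) .nil))) (.cons (.br (nat_lit 3) (.cons (.rel (nat_lit 302022720)) (.cons (.rel (nat_lit 285217044)) .nil))) .nil))) .leaf) (nat_lit 529118086546818) (.br (nat_lit 1) (.cons (.br (nat_lit 5) (.cons (.rel (nat_lit 4311762945)) .nil)) .nil)) (.node .leaf (nat_lit 529118087805078) (.br (nat_lit 3) (.cons (.br (nat_lit 1) (.cons (.rel (nat_lit 302022720)) (.cons (.rel (nat_lit 553664640)) .nil))) .nil)) .leaf))) (nat_lit 529118087805708) (.br (nat_lit 1) (.cons (.br (nat_lit 3) (.cons (.rel (nat_lit 302022720)) .nil)) .nil)) (.node (.node (.node .leaf (nat_lit 529120207833365) (.br (nat_lit 0) (.cons (.br (nat_lit 5) (.cons (.rel (nat_lit 4299162132)) .nil)) .nil)) .leaf) (nat_lit 529120207834625) (.br (nat_lit 0) (.cons (.br (nat_lit 2) (.cons (.rel (nat_lit 71303178)) .nil)) .nil)) (.node .leaf (nat_lit 533437770622214) (.br (nat_lit 0) (.cons (.br (nat_lit 1) (.cons (.rel (nat_lit 25247760)) .nil)) .nil)) .leaf)) (nat_lit 533437771881104)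 (.br (nat_lit 3) (.cons (.br (nat_lit 0) (.cons (.rel (nat_lit 272630808)) (.cons (.rel (nat_lit 272629794)) .nil))) .nil)) (.node (.node .leaf (nat_lit 534744492517526) (.br (nat_lit 0) (.cons (.br (nat_lit 2) (.cons (.rel (nat_lit 71305233)) .nil)) .nil)) .leaf) (nat_lit 534744494962838) (.br (nat_lit 0) (.cons (.br (nat_lit 1) (.cons (.rel (nat_lit 25247760)) (.cons (.rel (nat_lit 21234705)) .nil))) .nil)) (.node .leaf (nat_lit 534744494963468) (.br (nat_lit 0) (.cons (.br (nat_lit 4) (.cons (.rel (nat_lit 1082147328)) .nil)) .nil)) .leaf))))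

/-- refutations 8 -/
def e8 : EX := (.node (.node (.node (.node .leaf (nat_lit 535591263417606) (.br (nat_lit 5) (.cons (.br (nat_lit 1) (.cons (.rel (nat_lit 4311761940)) (.cons (.rel (nat_lit 4311750672)) .nil))) .nil)) .leaf) (nat_lit 535594897227926) (.br (nat_lit 1) (.cons (.br (nat_lit 6) (.cons (.rel (nat_lit 17213425680)) .nil)) .nil)) .leaf) (nat_lit 535594898487446) (.br (nat_lit 1) (.cons (.br (nat_lit 2) (.cons (.rel (nat_lit 83886600)) (.cons (.rel (nat_lit 83895297)) (.cons (.rel (nat_lit 85229568)) (.cons (.rel (nat_lit 101711904)) .nil))))) (.cons (.br (nat_lit 0) (.cons (.rel (nat_lit 21234705)) (.cons (.rel (nat_lit 37765140)) (.cons (.rel (nat_lit 25247760)) .nil)))) .nil))) (.node .leaf (nat_lit 535594898488706) (.br (nat_lit 1) (.cons (.br (nat_lit 2) (.cons (.rel (nat_lit 101711904)) .nil)) .nil)) .leaf)) (nat_lit 538778616190458) (.br (nat_lit 1) (.cons (.br (nat_lit 4) (.cons (.rel (nat_lit 2181071952)) .nil)) .nil)) (.node (.node .leaf (nat_lit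 539808922592518) (.br (nat_lit 0) (.cons (.br (nat_lit 3) (.cons (.rel (nat_lit 272631813)) (.cons (.rel (nat_lit 545259537)) .nil))) .nil)) .leaf) (nat_lit 539814676401665) (.br (nat_lit 0) (.cons (.br (nat_lit 1) (.cons (.rel (nat_lit 21038208)) .nil)) .nil)) (.node .leaf (nat_lit 539878127818234) (.br (nat_lit 4) (.cons (.br (nat_lit 5) (.cons (.rel (nat_lit 10737418497)) .nil)) .nil)) .leaf)))

/-- refutations 9 -/
def e9 : EX := (.node .leaf (nat_lit 223404408902507) (.br (nat_lit 0) (.cons (.br (nat_lit 3) (.cons (.rel (nat_lit 272629794)) .nil)) .nil)) .leaf)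

/-- refutations 10 -/
def e10 : EX := (.node (.node .leaf (nat_lit 617275470635694) (.br (nat_lit 0) (.cons (.br (nat_lit 2) (.cons (.rel (nat_lit 71305233)) .nil)) .nil)) .leaf) (nat_lit 627813221180953) (.br (nat_lit 0) (.cons (.br (nat_lit 2) (.cons (.rel (nat_lit 71305233)) .nil)) .nil)) .leaf)

/-- refutations 11 -/
def e11 : EX := (.node .leaf (nat_lit 652007782786584) (.br (nat_lit 0) (.cons (.br (nat_lit 1) (.cons (.rel (nat_lit 37753872)) .nil)) .nil)) .leaf)

/-- refutations 12 -/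
def e12 : EX := (.node (.node (.node (.node .leaf (nat_lit 653325913619838) (.br (nat_lit 0) (.cons (.br (nat_lit 2) (.cons (.rel (nat_lit 138678288)) .nil)) .nil)) .leaf) (nat_lit 653325913619982) (.br (nat_lit 0) (.cons (.br (nat_lit 1) (.cons (.rel (nat_lit 22544385)) .nil)) .nil)) (.node .leaf (nat_lit 653325913836926) (.br (nat_lit 1) (.cons (.br (nat_lit 6) (.cons (.rel (nat_lit 34394357760)) (.cons (.br (nat_lit 2) (.cons (.rel (nat_lit 17246984448)) (.cons (.rel (nat_lit 167772420)) (.cons (.rel (nat_lit 34493972496)) .nil)))) .nil))) (.cons (.br (nat_lit 6) (.cons (.rel (nat_lit 17196913920)) (.cons (.rel (nat_lit 17196990465)) .nil))) .nil))) .leaf)) (nat_lit 653325914948990) (.br (nat_lit 0) (.cons (.br (nat_lit 5) (.cons (.rel (nat_lit 8594460672)) .nil)) .nil)) (.node (.node .leaf (nat_lit 653325915095201) (.br (nat_lit 3) (.cons (.br (nat_lit 6) (.cons (.rel (nat_lit 17448386568)) .nil)) .nil)) .leaf) (nat_lit 653325915096446) (.br (nat_lit 3) (.cons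 (.br (nat_lit 6) (.cons (.rel (nat_lit 17448567108)) .nil)) .nil)) .leaf)) (nat_lit 653325916140926) (.br (nat_lit 2) (.cons (.br (nat_lit 3) (.cons (.rel (nat_lit 671353104)) (.cons (.rel (nat_lit 671170689)) .nil))) (.cons (.br (nat_lit 3) (.cons (.br (nat_lit 5) (.cons (.rel (nat_lit 4363130880)) (.cons (.rel (nat_lit 4563404865)) .nil))) (.cons (.rel (nat_lit 336593424)) .nil))) .nil))) (.node (.node (.node .leaf (nat_lit 653328540492556) (.br (nat_lit 1) (.cons (.br (nat_lit 2) (.cons (.rel (nat_lit 85229568)) .nil)) .nil)) .leaf) (nat_lit 653328542028556) (.br (nat_lit 1) (.cons (.br (nat_lit 2) (.cons (.rel (nat_lit 83890464)) .nil)) .nil)) (.node .leaf (nat_lit 653328556247201) (.br (nat_lit 1) (.cons (.br (nat_lit 6) (.cons (.rel (nat_lit 34376515590)) .nil)) .nil)) .leaf)) (nat_lit 653328556248446) (.br (nat_lit 1) (.cons (.br (nat_lit 4) (.cons (.br (nat_lit 2) (.cons (.rel (nat_lit 1140851730)) (.cons (.rel (nat_lit 1140850725)) .nil))) (.cons (.rel (nat_lit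 1107312642)) .nil))) .nil)) (.node (.node .leaf (nat_lit 656298032465278) (.br (nat_lit 0) (.cons (.br (nat_lit 2) (.cons (.rel (nat_lit 71320080)) .nil)) .nil)) .leaf) (nat_lit 656769896173080) (.br (nat_lit 0) (.cons (.br (nat_lit 4) (.cons (.rel (nat_lit 1078215696)) .nil)) .nil)) .leaf)))

/-- refutations 13 -/
def e13 : EX := (.node (.node (.node .leaf (nat_lit 662994308567321) (.br (nat_lit 1) (.cons (.br (nat_lit 2) (.cons (.rel (nat_lit 84017154)) .nil)) .nil)) .leaf) (nat_lit 662994309843724) (.br (nat_lit 1) (.cons (.br (nat_lit 2) (.cons (.rel (nat_lit 84017154)) (.cons (.rel (nat_lit 83902737)) .nil))) .nil)) .leaf) (nat_lit 662994310379801) (.br (nat_lit 1) (.cons (.br (nat_lit 3) (.cons (.rel (nat_lit 285220872)) (.cons (.rel (nat_lit 570425616)) .nil))) (.cons (.br (nat_lit 2) (.cons (.rel (nat_lit 83957760)) (.cons (.rel (nat_lit 83919888)) .nil))) .nil))) (.node .leaf (nat_lit 662994311639321) (.br (nat_lit 4) (.cons (.br (nat_lit 1) (.cons (.rel (nat_lit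 1090805760)) (.cons (.rel (nat_lit 1090519428)) .nil))) .nil)) .leaf))

/-- refutations 15 -/
def e15 : EX := (.node (.node (.node .leaf (nat_lit 915885334828538) (.br (nat_lit 0) (.cons (.br (nat_lit 3) (.cons (.rel (nat_lit 272654352)) .nil)) .nil)) .leaf) (nat_lit 915887333261493) (.br (nat_lit 0) (.cons (.br (nat_lit 5) (.cons (.rel (nat_lit 4299165960)) .nil)) .nil)) (.node .leaf (nat_lit 916085542726559) (.br (nat_lit 0) (.cons (.br (nat_lit 6) (.cons (.rel (nat_lit 17188388865)) (.cons (.rel (nat_lit 34363998210)) .nil))) .nil)) .leaf)) (nat_lit 916085544092575) (.br (nat_lit 0) (.cons (.br (nat_lit 1) (.cons (.rel (nat_lit 21381120)) .nil)) .nil)) (.node (.node .leaf (nat_lit 916142846679947) (.br (nat_lit 0) (.cons (.br (nat_lit 4) (.cons (.rel (nat_lit 1082132481)) .nil)) .nil)) .leaf) (nat_lit 916306132519592) (.br (nat_lit 0) (.cons (.br (nat_lit 2) (.cons (.rel (nat_lit 71320080)) .nil)) .nil)) (.node .leaf (nat_lit 916396866306103) (.br (nat_lit 0) (.cons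 (.br (nat_lit 2) (.cons (.rel (nat_lit 142606341)) .nil)) .nil)) .leaf)))

/-- refutations 16 -/
def e16 : EX := (.node (.node (.node (.node (.node .leaf (nat_lit 917208212232194) (.br (nat_lit 0) (.cons (.br (nat_lit 1) (.cons (.rel (nat_lit 23069700)) .nil)) .nil)) .leaf) (nat_lit 917208515549864) (.br (nat_lit 2) (.cons (.br (nat_lit 4) (.cons (.br (nat_lit 0) (.cons (.rel (nat_lit 1078198545)) (.cons (.rel (nat_lit 139460688)) .nil))) .nil)) .nil)) .leaf) (nat_lit 917208515603112) (.br (nat_lit 1) (.cons (.br (nat_lit 4) (.cons (.rel (nat_lit 1107298560)) .nil)) .nil)) (.node .leaf (nat_lit 917208515848342) (.br (nat_lit 5) (.cons (.br (nat_lit 6) (.cons (.rel (nat_lit 21474837768)) .nil)) .nil)) .leaf)) (nat_lit 917208516813727) (.br (nat_lit 0) (.cons (.br (nat_lit 2) (.cons (.rel (nat_lit 75502656)) .nil)) .nil)) (.node (.node (.node .leaf (nat_lit 917208517290911) (.br (nat_lit 0) (.cons (.br (nat_lit 1) (.cons (.rel (nat_lit 39845952)) .nil)) .nil)) .leaf)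 (nat_lit 917208517343912) (.br (nat_lit 0) (.cons (.br (nat_lit 1) (.cons (.rel (nat_lit 25166337)) .nil)) .nil)) .leaf) (nat_lit 917208518419217) (.br (nat_lit 4) (.cons (.br (nat_lit 3) (.cons (.br (nat_lit 5) (.cons (.rel (nat_lit 5368778784)) (.cons (.rel (nat_lit 4563476544)) .nil))) (.cons (.rel (nat_lit 1342179360)) .nil))) .nil)) (.node .leaf (nat_lit 917208518656260) (.br (nat_lit 0) (.cons (.br (nat_lit 4) (.cons (.br (nat_lit 5) (.cons (.rel (nat_lit 5368718340)) .nil)) .nil)) .nil)) .leaf))) (nat_lit 917210824157186) (.br (nat_lit 1) (.cons (.br (nat_lit 2) (.cons (.rel (nat_lit 83886600)) .nil)) .nil)) (.node (.node (.node (.node .leaf (nat_lit 917210824158111) (.br (nat_lit 0) (.cons (.br (nat_lit 1) (.cons (.rel (nat_lit 25247760)) .nil)) .nil)) .leaf) (nat_lit 917210825018024) (.br (nat_lit 1) (.cons (.br (nat_lit 0) (.cons (.rel (nat_lit 37886208)) (.cons (.rel (nat_lit 37765140)) .nil))) .nil)) .leaf) (nat_lit 921287778631189) (.br (nat_lit 3) (.cons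 (.br (nat_lit 5) (.cons (.rel (nat_lit 8858371332)) .nil)) .nil)) (.node .leaf (nat_lit 921288198061589) (.br (nat_lit 0) (.cons (.br (nat_lit 5) (.cons (.rel (nat_lit 4299194370)) .nil)) .nil)) .leaf)) (nat_lit 921288198822148) (.br (nat_lit 0) (.cons (.br (nat_lit 1) (.cons (.rel (nat_lit 20975745)) .nil)) .nil)) (.node (.node .leaf (nat_lit 921288734771382) (.br (nat_lit 0) (.cons (.br (nat_lit 1) (.cons (.rel (nat_lit 21242112)) .nil)) .nil)) .leaf) (nat_lit 921288736222111) (.br (nat_lit 0) (.cons (.br (nat_lit 1) (.cons (.rel (nat_lit 37765140)) .nil)) .nil)) (.node .leaf (nat_lit 921291043089311) (.br (nat_lit 0) (.cons (.br (nat_lit 1) (.cons (.rel (nat_lit 25183488)) .nil)) .nil)) .leaf))))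

/-- refutations 17 -/
def e17 : EX := (.node (.node .leaf (nat_lit 925854209670677) (.br (nat_lit 0) (.cons (.br (nat_lit 4) (.cons (.rel (nat_lit 1078198545)) .nil)) .nil)) .leaf) (nat_lit 925854210960796) (.br (nat_lit 0) (.cons (.br (nat_lit 2) (.cons (.rel (nat_lit 71304228)) .nil)) .nil)) (.node .leaf (nat_lit 926017497668870) (.br (nat_lit 0) (.cons (.br (nat_lit 1) (.cons (.rel (nat_lit 25166337)) .nil)) .nil)) .leaf))

/-- refutations 19 -/
def e19 : EX := (.node (.node (.node (.node .leaf (nat_lit 633419163829524) (.br (nat_lit 1) (.cons (.br (nat_lit 4) (.cons (.rel (nat_lit 1107298560)) .nil)) .nil)) .leaf) (nat_lit 633419166952299) (.br (nat_lit 1) (.cons (.br (nat_lit 2) (.cons (.rel (nat_lit 83906565)) .nil)) .nil)) .leaf) (nat_lit 634879454542105) (.br (nat_lit 0) (.cons (.br (nat_lit 2) (.cons (.rel (nat_lit 138678288)) .nil)) .nil)) (.node .leaf (nat_lit 640291112075545) (.br (nat_lit 1) (.cons (.br (nat_lit 3) (.cons (.rel (nat_lit 285213216)) .nil))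 .nil)) .leaf)) (nat_lit 640291112076139) (.br (nat_lit 0) (.cons (.br (nat_lit 3) (.cons (.rel (nat_lit 272630808)) .nil)) .nil)) (.node (.node (.node .leaf (nat_lit 640291113335065) (.br (nat_lit 3) (.cons (.br (nat_lit 4) (.cons (.rel (nat_lit 1342181889)) .nil)) .nil)) .leaf) (nat_lit 640291113336310) (.br (nat_lit 0) (.cons (.br (nat_lit 2) (.cons (.rel (nat_lit 71305233)) .nil)) .nil)) .leaf) (nat_lit 640291114625704) (.br (nat_lit 0) (.cons (.br (nat_lit 2) (.cons (.rel (nat_lit 71434497)) .nil)) .nil)) (.node .leaf (nat_lit 640291114625804) (.br (nat_lit 0) (.cons (.br (nat_lit 4) (.cons (.rel (nat_lit 1082131476)) .nil)) .nil)) .leaf)))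

/-- refutations 20 -/
def e20 : EX := (.node (.node (.node .leaf (nat_lit 986290468697614) (.br (nat_lit 0) (.cons (.br (nat_lit 4) (.cons (.rel (nat_lit 1082147328)) .nil)) .nil)) .leaf) (nat_lit 986709363583151) (.br (nat_lit 0) (.cons (.br (nat_lit 1) (.cons (.rel (nat_lit 21233700)) .nil)) .nil)) .leaf) (nat_lit 986726550320514) (.br (nat_lit 5) (.cons (.br (nat_lit 6) (.cons (.rel (nat_lit 21474836754)) .nil)) .nil)) (.node .leaf (nat_lit 986726552869495) (.br (nat_lit 0) (.cons (.br (nat_lit 3) (.cons (.rel (nat_lit 277905408)) .nil)) .nil)) .leaf))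

/-- refutations 21 -/
def e21 : EX := (.node (.node (.node .leaf (nat_lit 987577289117823) (.br (nat_lit 1) (.cons (.br (nat_lit 3) (.cons (.rel (nat_lit 285213216)) .nil)) .nil)) .leaf) (nat_lit 987577289631102) (.br (nat_lit 0) (.cons (.br (nat_lit 6) (.cons (.rel (nat_lit 17184129168)) .nil)) .nil)) .leaf) (nat_lit 987577289639962) (.br (nat_lit 2) (.cons (.br (nat_lit 4) (.cons (.rel (nat_lit 1140851730)) .nil)) .nil)) (.node (.node .leaf (nat_lit 987577290418856) (.br (nat_lit 0) (.cons (.br (nat_lit 2) (.cons (.rel (nat_lit 138678288)) .nil)) .nil)) .leaf) (nat_lit 987577291579418) (.br (nat_lit 0) (.cons (.br (nat_lit 2) (.cons (.rel (nat_lit 138678288)) .nil)) .nil)) .leaf))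

/-- refutations 22 -/
def e22 : EX := (.node (.node (.node (.node .leaf (nat_lit 997403611104109) (.br (nat_lit 0) (.cons (.br (nat_lit 1) (.cons (.rel (nat_lit 25296900)) .nil)) .nil)) .leaf) (nat_lit 997409053561482) (.br (nat_lit 0) (.cons (.br (nat_lit 1) (.cons (.rel (nat_lit 37766145)) .nil)) .nil)) .leaf) (nat_lit 997409053825806) (.br (nat_lit 0) (.cons (.br (nat_lit 1) (.cons (.rel (nat_lit 39845952)) .nil)) .nil)) (.node .leaf (nat_lit 997409054851722) (.br (nat_lit 0) (.cons (.br (nat_lit 1) (.cons (.rel (nat_lit 37748994)) .nil)) .nil)) .leaf)) (nat_lit 997409055239021) (.br (nat_lit 1) (.cons (.br (nat_lit 4) (.cons (.rel (nat_lit 2164293633)) .nil)) .nil)) (.node (.node .leaf (nat_lit 997409055288197) (.br (nat_lit 0) (.cons (.br (nat_lit 1) (.cons (.rel (nat_lit 21038208)) .nil)) .nil)) .leaf) (nat_lit 997409055349611) (.br (nat_lit 0) (.cons (.br (nat_lit 3) (.cons (.rel (nat_lit 272631813)) .nil)) .nil)) (.node .leaf (nat_lit 997409055351661) (.br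 (nat_lit 0) (.cons (.br (nat_lit 2) (.cons (.rel (nat_lit 71320080)) .nil)) .nil)) .leaf)))

/-- refutations 23 -/
def e23 : EX := (.node .leaf (nat_lit 998520524676598) (.br (nat_lit 0) (.cons (.br (nat_lit 2) (.cons (.rel (nat_lit 71323908)) .nil)) .nil)) .leaf)

/-- refutations 24 -/
def e24 : EX := (.node (.node (.node (.node (.node .leaf (nat_lit 1002810028436236) (.br (nat_lit 0) (.cons (.br (nat_lit 2) (.cons (.rel (nat_lit 71303178)) .nil)) .nil)) .leaf) (nat_lit 1004309594069142) (.br (nat_lit 0) (.cons (.br (nat_lit 2) (.cons (.rel (nat_lit 71434497)) .nil)) .nil)) (.node .leaf (nat_lit 1004309602189964) (.br (nat_lit 1) (.cons (.br (nat_lit 3) (.cons (.rel (nat_lit 285294594)) .nil)) .nil)) .leaf)) (nat_lit 1004309603479589) (.br (nat_lit 0) (.cons (.br (nat_lit 3) (.cons (.rel (nat_lit 545259537)) .nil)) .nil)) (.node (.node .leaf (nat_lit 1004310474872982) (.br (nat_lit 0) (.cons (.br (nat_lit 4) (.cons (.rel (nat_lit 2151677973)) (.cons (.rel (nat_lit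 1077956736)) .nil))) .nil)) .leaf) (nat_lit 1004310476133132) (.br (nat_lit 0) (.cons (.br (nat_lit 3) (.cons (.rel (nat_lit 273023040)) .nil)) .nil)) (.node .leaf (nat_lit 1004313268279446) (.br (nat_lit 0) (.cons (.br (nat_lit 4) (.cons (.rel (nat_lit 1078002048)) (.cons (.rel (nat_lit 1078198545)) (.cons (.rel (nat_lit 2151710976)) (.cons (.rel (nat_lit 1082132481)) .nil))))) (.cons (.br (nat_lit 1) (.cons (.rel (nat_lit 23069700)) (.cons (.rel (nat_lit 25166337)) (.cons (.rel (nat_lit 25183488)) (.cons (.rel (nat_lit 25247760)) .nil))))) .nil))) .leaf))) (nat_lit 1004313269539596) (.br (nat_lit 0) (.cons (.br (nat_lit 5) (.cons (.rel (nat_lit 4299163137)) (.cons (.rel (nat_lit 4299165960)) .nil))) .nil)) (.node (.node (.node .leaf (nat_lit 1004315175602426) (.br (nat_lit 3) (.cons (.br (nat_lit 2) (.cons (.rel (nat_lit 336089088)) (.cons (.rel (nat_lit 603979800)) .nil))) .nil)) .leaf) (nat_lit 1004315178152186) (.br (nat_lit 2) (.cons (.br (nat_lit 0) (.cons (.rel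 (nat_lit 71320080)) (.cons (.rel (nat_lit 71303178)) (.cons (.rel (nat_lit 138678288)) .nil)))) .nil)) (.node .leaf (nat_lit 1004315362496793) (.br (nat_lit 0) (.cons (.br (nat_lit 1) (.cons (.rel (nat_lit 37748994)) .nil)) .nil)) .leaf)) (nat_lit 1004315362766326) (.br (nat_lit 0) (.cons (.br (nat_lit 1) (.cons (.rel (nat_lit 37765140)) .nil)) .nil)) (.node (.node .leaf (nat_lit 1005169132787862) (.br (nat_lit 1) (.cons (.br (nat_lit 2) (.cons (.rel (nat_lit 83890464)) (.cons (.rel (nat_lit 100745280)) .nil))) .nil)) .leaf) (nat_lit 1005171775438110) (.br (nat_lit 0) (.cons (.br (nat_lit 1) (.cons (.rel (nat_lit 39845952)) .nil)) .nil)) .leaf))) (nat_lit 1005171776165150) (.br (nat_lit 0) (.cons (.br (nat_lit 1) (.cons (.rel (nat_lit 21234705)) .nil)) .nil)) (.node (.node (.node (.node .leaf (nat_lit 1005172260449036) (.br (nat_lit 0) (.cons (.br (nat_lit 3) (.cons (.rel (nat_lit 272630808)) .nil)) .nil)) .leaf) (nat_lit 1008595979550757) (.br (nat_lit 5) (.cons (.br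 (nat_lit 1) (.cons (.rel (nat_lit 4311750672)) (.cons (.rel (nat_lit 4311750672)) .nil))) .nil)) (.node .leaf (nat_lit 1008595980840997) (.br (nat_lit 0) (.cons (.br (nat_lit 5) (.cons (.rel (nat_lit 4299227409)) .nil)) .nil)) .leaf)) (nat_lit 1008595981078809) (.br (nat_lit 1) (.cons (.br (nat_lit 2) (.cons (.rel (nat_lit 83919888)) (.cons (.rel (nat_lit 83919888)) .nil))) .nil)) (.node (.node .leaf (nat_lit 1008596516690070) (.br (nat_lit 2) (.cons (.br (nat_lit 1) (.cons (.rel (nat_lit 83890464)) (.cons (.rel (nat_lit 83890464)) .nil))) .nil)) .leaf) (nat_lit 1008596516927769) (.br (nat_lit 0) (.cons (.br (nat_lit 4) (.cons (.rel (nat_lit 1082131476)) (.cons (.rel (nat_lit 2151678978)) .nil))) .nil)) .leaf)) (nat_lit 1008596517713398) (.br (nat_lit 0) (.cons (.br (nat_lit 1) (.cons (.rel (nat_lit 21242112)) .nil)) .nil)) (.node (.node (.node .leaf (nat_lit 1008599644350614) (.br (nat_lit 0) (.cons (.br (nat_lit 1) (.cons (.rel (nat_lit 37753872)) .nil)) .nil)) .leaf)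 (nat_lit 1008599645640854) (.br (nat_lit 1) (.cons (.br (nat_lit 2) (.cons (.rel (nat_lit 83894292)) (.cons (.rel (nat_lit 168058944)) .nil))) (.cons (.br (nat_lit 2) (.cons (.rel (nat_lit 83890464)) (.cons (.rel (nat_lit 83951877)) .nil))) .nil))) (.node .leaf (nat_lit 1008599645879052) (.br (nat_lit 1) (.cons (.br (nat_lit 6) (.cons (.rel (nat_lit 17213423625)) .nil)) .nil)) .leaf)) (nat_lit 1008601738836249) (.br (nat_lit 5) (.cons (.br (nat_lit 4) (.cons (.rel (nat_lit 5368714512)) (.cons (.rel (nat_lit 5368709634)) .nil))) .nil)) (.node (.node .leaf (nat_lit 1008601739858201) (.br (nat_lit 1) (.cons (.br (nat_lit 3) (.cons (.rel (nat_lit 285235200)) (.cons (.rel (nat_lit 285235200)) .nil))) (.cons (.br (nat_lit 3) (.cons (.rel (nat_lit 285280512)) (.cons (.rel (nat_lit 285213216)) .nil))) .nil))) .leaf) (nat_lit 1008601739858700) (.br (nat_lit 3) (.cons (.br (nat_lit 1) (.cons (.rel (nat_lit 285235200)) (.cons (.rel (nat_lit 570429444)) .nil))) .nil)) .leaf))))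

/-- refutations 25 -/
def e25 : EX := (.node (.node (.node (.node (.node .leaf (nat_lit 1009455511678454) (.br (nat_lit 0) (.cons (.br (nat_lit 1) (.cons (.rel (nat_lit 21233700)) .nil)) .nil)) .leaf) (nat_lit 1009721612488166) (.br (nat_lit 2) (.cons (.br (nat_lit 3) (.cons (.rel (nat_lit 603979800)) .nil)) .nil)) .leaf) (nat_lit 1009721613777776) (.br (nat_lit 2) (.cons (.br (nat_lit 4) (.cons (.rel (nat_lit 1140851730)) .nil)) .nil)) (.node .leaf (nat_lit 1009721613778406) (.br (nat_lit 0) (.cons (.br (nat_lit 2) (.cons (.rel (nat_lit 71389185)) (.cons (.rel (nat_lit 71305233)) .nil))) .nil)) .leaf)) (nat_lit 1009721615037296) (.br (nat_lit 0) (.cons (.br (nat_lit 2) (.cons (.rel (nat_lit 71305233)) .nil)) .nil)) (.node (.node .leaf (nat_lit 1009721805219990) (.br (nat_lit 1) (.cons (.br (nat_lit 5) (.cons (.rel (nat_lit 8623505664)) .nil)) .nil)) .leaf) (nat_lit 1009721806510230) (.br (nat_lit 0) (.cons (.br (nat_lit 5) (.cons (.rel (nat_lit 4299194370)) .nil))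 .nil)) (.node .leaf (nat_lit 1010720871656834) (.br (nat_lit 1) (.cons (.br (nat_lit 2) (.cons (.rel (nat_lit 83887653)) (.cons (.rel (nat_lit 101711904)) .nil))) .nil)) .leaf))) (nat_lit 1010723452061957) (.br (nat_lit 0) (.cons (.br (nat_lit 1) (.cons (.rel (nat_lit 21234705)) .nil)) .nil)) (.node (.node (.node (.node .leaf (nat_lit 1010723452680473) (.br (nat_lit 4) (.cons (.br (nat_lit 0) (.cons (.rel (nat_lit 1078002048)) (.cons (.rel (nat_lit 2151678978)) (.cons (.rel (nat_lit 2151710976)) .nil)))) .nil)) .leaf) (nat_lit 1010723453702425) (.br (nat_lit 2) (.cons (.br (nat_lit 4) (.cons (.rel (nat_lit 1140876288)) .nil)) .nil)) .leaf) (nat_lit 1010723453702924) (.br (nat_lit 3) (.cons (.br (nat_lit 4) (.cons (.rel (nat_lit 1342178310)) .nil)) .nil)) (.node .leaf (nat_lit 1014872391088409) (.br (nat_lit 2) (.cons (.br (nat_lit 5) (.cons (.rel (nat_lit 8657044752)) .nil)) .nil)) .leaf)) (nat_lit 1015863415721446) (.br (nat_lit 0) (.cons (.br (nat_lit 2) (.cons (.rel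 (nat_lit 71312640)) .nil)) .nil)) (.node (.node .leaf (nat_lit 1015863416684725) (.br (nat_lit 0) (.cons (.br (nat_lit 3) (.cons (.rel (nat_lit 272631813)) .nil)) .nil)) .leaf) (nat_lit 1015868637628666) (.br (nat_lit 2) (.cons (.br (nat_lit 5) (.cons (.rel (nat_lit 8657044752)) .nil)) .nil)) (.node .leaf (nat_lit 1015868637629068) (.br (nat_lit 0) (.cons (.br (nat_lit 1) (.cons (.rel (nat_lit 23069700)) .nil)) .nil)) .leaf))))

/-- refutations 26 -/
def e26 : EX := (.node (.node .leaf (nat_lit 1057945988860831) (.br (nat_lit 1) (.cons (.br (nat_lit 4) (.cons (.rel (nat_lit 1090805760)) .nil)) .nil)) .leaf) (nat_lit 1057945989978122) (.br (nat_lit 1) (.cons (.br (nat_lit 4) (.cons (.rel (nat_lit 2164330500)) .nil)) .nil)) .leaf)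

/-- refutations 28 -/
def e28 : EX := (.node (.node (.node .leaf (nat_lit 968009077000342) (.br (nat_lit 0) (.cons (.br (nat_lit 1) (.cons (.rel (nat_lit 37748994)) .nil)) .nil)) .leaf) (nat_lit 975516679833750) (.br (nat_lit 0) (.cons (.br (nat_lit 1) (.cons (.br (nat_lit 2) (.cons (.rel (nat_lit 83902737)) (.cons (.rel (nat_lit 83919888)) .nil))) (.cons (.br (nat_lit 4) (.cons (.rel (nat_lit 1107298560)) (.cons (.rel (nat_lit 1107298560)) .nil))) .nil))) .nil)) .leaf) (nat_lit 978394645112169) (.br (nat_lit 0) (.cons (.br (nat_lit 3) (.cons (.rel (nat_lit 541327620)) .nil)) .nil)) (.node .leaf (nat_lit 980945515948182) (.br (nat_lit 1) (.cons (.br (nat_lit 0) (.cons (.rel (nat_lit 25166337)) (.cons (.rel (nat_lit 21242112)) .nil))) .nil)) .leaf))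

/-- refutations 29 -/
def e29 : EX := (.node (.node (.node .leaf (nat_lit 2201437157463316) (.br (nat_lit 0) (.cons (.br (nat_lit 1) (.cons (.rel (nat_lit 22024512)) .nil)) .nil)) .leaf) (nat_lit 2201437157467412) (.br (nat_lit 0) (.cons (.br (nat_lit 6) (.cons (.rel (nat_lit 17184325665)) .nil)) .nil)) (.node .leaf (nat_lit 2201440181865330) (.br (nat_lit 0) (.cons (.br (nat_lit 3) (.cons (.rel (nat_lit 541327620)) .nil)) .nil)) .leaf)) (nat_lit 2201440182829308) (.br (nat_lit 0) (.cons (.br (nat_lit 4) (.cons (.br (nat_lit 5) (.cons (.rel (nat_lit 5368718340)) .nil)) .nil)) .nil)) (.node (.node .leaf (nat_lit 2201440183853938) (.br (nat_lit 0) (.cons (.br (nat_lit 1) (.cons (.rel (nat_lit 25166337)) .nil)) .nil)) .leaf) (nat_lit 2201440404125078) (.br (nat_lit 0) (.cons (.br (nat_lit 1) (.cons (.rel (nat_lit 22024512)) .nil)) .nil)) (.node .leaf (nat_lit 2204867788843943) (.br (nat_lit 0) (.cons (.br (nat_lit 3) (.cons (.rel (nat_lit 272629794)) .nil)) .nil)) .leaf)))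

/-- refutations 30 -/
def e30 : EX := (.node (.node (.node .leaf (nat_lit 2217907081811346) (.br (nat_lit 2) (.cons (.br (nat_lit 3) (.cons (.rel (nat_lit 603980805)) .nil)) .nil)) .leaf) (nat_lit 2217907631800601) (.br (nat_lit 0) (.cons (.br (nat_lit 3) (.cons (.rel (nat_lit 272629794)) .nil)) .nil)) (.node .leaf (nat_lit 2217907633724144) (.br (nat_lit 3) (.cons (.br (nat_lit 5) (.cons (.rel (nat_lit 8858386464)) .nil)) .nil)) .leaf)) (nat_lit 2228733226893593) (.br (nat_lit 0) (.cons (.br (nat_lit 3) (.cons (.rel (nat_lit 272635392)) .nil)) .nil)) (.node (.node .leaf (nat_lit 2229589944769264) (.br (nat_lit 6) (.cons (.br (nat_lit 3) (.cons (.rel (nat_lit 34896610560)) (.cons (.rel (nat_lit 17448371472)) (.cons (.rel (nat_lit 17448307200)) .nil)))) .nil)) .leaf) (nat_lit 2229990123313433) (.br (nat_lit 1) (.cons (.br (nat_lit 2) (.cons (.rel (nat_lit 167772420)) .nil)) .nil)) .leaf))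

/-- refutations 33 -/
def e33 : EX := (.node (.node (.node (.node (.node (.node (.node (.node .leaf (nat_lit 2287302169118901) (.br (nat_lit 0) (.cons (.br (nat_lit 2) (.cons (.rel (nat_lit 71320080)) .nil)) .nil)) .leaf) (nat_lit 2300092476820718) (.br (nat_lit 0) (.cons (.br (nat_lit 1) (.cons (.rel (nat_lit 25166337)) (.cons (.rel (nat_lit 25183488)) (.cons (.rel (nat_lit 25247760)) .nil)))) .nil)) .leaf) (nat_lit 2300092476918440) (.br (nat_lit 0) (.cons (.br (nat_lit 1) (.cons (.rel (nat_lit 21233700)) .nil)) .nil)) (.node .leaf (nat_lit 2300092476919070) (.br (nat_lit 0) (.cons (.br (nat_lit 2) (.cons (.rel (nat_lit 71303178)) .nil)) .nil)) .leaf)) (nat_lit 2300092478209262) (.br (nat_lit 0) (.cons (.br (nat_lit 5) (.cons (.rel (nat_lit 8598327312)) .nil)) .nil)) (.node (.node .leaf (nat_lit 2300092479419048) (.br (nat_lit 0) (.cons (.br (nat_lit 1) (.cons (.rel (nat_lit 21242112)) .nil)) .nil)) .leaf) (nat_lit 2300092479419630) (.br (nat_lit 0) (.cons (.br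 (nat_lit 2) (.cons (.rel (nat_lit 71304228)) .nil)) .nil)) (.node .leaf (nat_lit 2300092479468152) (.br (nat_lit 0) (.cons (.br (nat_lit 1) (.cons (.rel (nat_lit 25168404)) .nil)) .nil)) .leaf))) (nat_lit 2300092577482778) (.br (nat_lit 0) (.cons (.br (nat_lit 1) (.cons (.rel (nat_lit 25432128)) .nil)) .nil)) (.node (.node (.node (.node .leaf (nat_lit 2300092577531906) (.br (nat_lit 0) (.cons (.br (nat_lit 1) (.cons (.rel (nat_lit 20975745)) .nil)) .nil)) .leaf) (nat_lit 2300092577532584) (.br (nat_lit 0) (.cons (.br (nat_lit 2) (.cons (.rel (nat_lit 71304228)) (.cons (.rel (nat_lit 71305233)) .nil))) (.cons (.br (nat_lit 2) (.cons (.rel (nat_lit 71312640)) (.cons (.rel (nat_lit 71320080)) .nil))) .nil))) .leaf) (nat_lit 2300092577581688) (.br (nat_lit 0) (.cons (.br (nat_lit 3) (.cons (.rel (nat_lit 272635392)) .nil)) .nil)) (.node .leaf (nat_lit 2300092577581736) (.br (nat_lit 1) (.cons (.br (nat_lit 2) (.cons (.rel (nat_lit 83902737)) .nil)) .nil)) .leaf)) (nat_lit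 2300092578772994) (.br (nat_lit 1) (.cons (.br (nat_lit 0) (.cons (.rel (nat_lit 43024656)) (.cons (.rel (nat_lit 37748994)) .nil))) .nil)) (.node (.node .leaf (nat_lit 2300092578822146) (.br (nat_lit 2) (.cons (.br (nat_lit 3) (.cons (.rel (nat_lit 336597252)) .nil)) .nil)) .leaf) (nat_lit 2300092578822170) (.br (nat_lit 0) (.cons (.br (nat_lit 6) (.cons (.rel (nat_lit 17184129168)) .nil)) .nil)) (.node .leaf (nat_lit 2300092578822824) (.br (nat_lit 0) (.cons (.br (nat_lit 2) (.cons (.rel (nat_lit 71312640)) (.cons (.rel (nat_lit 71320080)) .nil))) .nil)) .leaf)))) (nat_lit 2300092578823430) (.br (nat_lit 0) (.cons (.br (nat_lit 3) (.cons (.rel (nat_lit 272703492)) (.cons (.rel (nat_lit 272635392)) .nil))) .nil)) (.node (.node (.node (.node (.node .leaf (nat_lit 2300092578823699) (.br (nat_lit 0) (.cons (.br (nat_lit 2) (.cons (.rel (nat_lit 71305233)) .nil)) .nil)) .leaf) (nat_lit 2300092578871298) (.br (nat_lit 1) (.cons (.br (nat_lit 4) (.cons (.rel (nat_lit 2164262400))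 .nil)) .nil)) .leaf) (nat_lit 2300092578871346) (.br (nat_lit 0) (.cons (.br (nat_lit 1) (.cons (.rel (nat_lit 43024656)) .nil)) .nil)) (.node .leaf (nat_lit 2300092578871952) (.br (nat_lit 0) (.cons (.br (nat_lit 1) (.cons (.rel (nat_lit 37748994)) .nil)) .nil)) .leaf)) (nat_lit 2300092578872582) (.br (nat_lit 0) (.cons (.br (nat_lit 1) (.cons (.rel (nat_lit 25166337)) .nil)) .nil)) (.node (.node .leaf (nat_lit 2300092578872606) (.br (nat_lit 1) (.cons (.br (nat_lit 2) (.cons (.rel (nat_lit 167772420)) .nil)) .nil)) .leaf) (nat_lit 2300092580081714) (.br (nat_lit 5) (.cons (.br (nat_lit 0) (.cons (.rel (nat_lit 4299162132)) (.cons (.rel (nat_lit 4299163137)) .nil))) .nil)) (.node .leaf (nat_lit 2300092580082296) (.br (nat_lit 0) (.cons (.br (nat_lit 1) (.cons (.rel (nat_lit 37748994)) (.cons (.rel (nat_lit 25166337)) .nil))) .nil)) .leaf))) (nat_lit 2300092580082320) (.br (nat_lit 0) (.cons (.br (nat_lit 5) (.cons (.rel (nat_lit 4299163137)) .nil)) .nil)) (.node (.node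 (.node .leaf (nat_lit 2300092580082926) (.br (nat_lit 0) (.cons (.br (nat_lit 5) (.cons (.rel (nat_lit 4299162132)) .nil)) .nil)) .leaf) (nat_lit 2300092580082950) (.br (nat_lit 0) (.cons (.br (nat_lit 4) (.cons (.rel (nat_lit 2151678978)) (.cons (.rel (nat_lit 2151677973)) (.cons (.rel (nat_lit 1082131476)) .nil)))) .nil)) (.node .leaf (nat_lit 2300092580082974) (.br (nat_lit 0) (.cons (.br (nat_lit 4) (.cons (.rel (nat_lit 1082131476)) (.cons (.rel (nat_lit 2151677973)) .nil))) .nil)) .leaf)) (nat_lit 2300092580131448) (.br (nat_lit 0) (.cons (.br (nat_lit 3) (.cons (.rel (nat_lit 272646660)) .nil)) .nil)) (.node (.node .leaf (nat_lit 2300092678147310) (.br (nat_lit 0) (.cons (.br (nat_lit 1) (.cons (.rel (nat_lit 25166337)) (.cons (.rel (nat_lit 25296900)) .nil))) .nil)) .leaf) (nat_lit 2300092678147334) (.br (nat_lit 0) (.cons (.br (nat_lit 2) (.cons (.rel (nat_lit 71303178)) .nil)) .nil)) (.node .leaf (nat_lit 2300092678195226) (.br (nat_lit 0) (.cons (.br (nat_lit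 1) (.cons (.rel (nat_lit 21381120)) .nil)) .nil)) .leaf))))) (nat_lit 2300092678195832) (.br (nat_lit 0) (.cons (.br (nat_lit 1) (.cons (.rel (nat_lit 21381120)) .nil)) .nil)) (.node (.node (.node (.node (.node (.node .leaf (nat_lit 2300092678196462) (.br (nat_lit 0) (.cons (.br (nat_lit 2) (.cons (.rel (nat_lit 71369220)) .nil)) .nil)) .leaf) (nat_lit 2300092678196510) (.br (nat_lit 0) (.cons (.br (nat_lit 3) (.cons (.rel (nat_lit 272629794)) .nil)) .nil)) .leaf) (nat_lit 2300092678245638) (.br (nat_lit 0) (.cons (.br (nat_lit 3) (.cons (.rel (nat_lit 272646660)) .nil)) .nil)) (.node .leaf (nat_lit 2300092679436314) (.br (nat_lit 0) (.cons (.br (nat_lit 1) (.cons (.rel (nat_lit 25166337)) .nil)) .nil)) .leaf)) (nat_lit 2300092679436920) (.br (nat_lit 0) (.cons (.br (nat_lit 1) (.cons (.rel (nat_lit 21242112)) .nil)) .nil)) (.node (.node .leaf (nat_lit 2300092679437550) (.br (nat_lit 1) (.cons (.br (nat_lit 5) (.cons (.rel (nat_lit 4311750672)) .nil)) .nil)) .leaf)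 (nat_lit 2300092679437574) (.br (nat_lit 0) (.cons (.br (nat_lit 3) (.cons (.rel (nat_lit 272629794)) .nil)) .nil)) (.node .leaf (nat_lit 2300092679437598) (.br (nat_lit 0) (.cons (.br (nat_lit 1) (.cons (.rel (nat_lit 21233700)) (.cons (.rel (nat_lit 25166337)) .nil))) .nil)) .leaf))) (nat_lit 2300092679485466) (.br (nat_lit 0) (.cons (.br (nat_lit 1) (.cons (.rel (nat_lit 25166337)) .nil)) .nil)) (.node (.node (.node .leaf (nat_lit 2300092679486120) (.br (nat_lit 0) (.cons (.br (nat_lit 1) (.cons (.rel (nat_lit 21242112)) .nil)) .nil)) .leaf) (nat_lit 2300095257643034) (.br (nat_lit 0) (.cons (.br (nat_lit 1) (.cons (.rel (nat_lit 37765140)) .nil)) .nil)) (.node .leaf (nat_lit 2300095257643688) (.br (nat_lit 0) (.cons (.br (nat_lit 1) (.cons (.rel (nat_lit 37748994)) (.cons (.rel (nat_lit 37765140)) .nil))) .nil)) .leaf)) (nat_lit 2300095257644270) (.br (nat_lit 0) (.cons (.br (nat_lit 3) (.cons (.rel (nat_lit 272629794)) .nil)) .nil)) (.node (.node .leaf (nat_lit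 2300095257644294) (.br (nat_lit 0) (.cons (.br (nat_lit 1) (.cons (.rel (nat_lit 37748994)) .nil)) .nil)) .leaf) (nat_lit 2300095257692792) (.br (nat_lit 0) (.cons (.br (nat_lit 1) (.cons (.rel (nat_lit 37753872)) .nil)) .nil)) (.node .leaf (nat_lit 2300095257692816) (.br (nat_lit 0) (.cons (.br (nat_lit 1) (.cons (.rel (nat_lit 37748994)) .nil)) .nil)) .leaf)))) (nat_lit 2300095257693422) (.br (nat_lit 0) (.cons (.br (nat_lit 1) (.cons (.rel (nat_lit 37748994)) .nil)) .nil)) (.node (.node (.node (.node (.node .leaf (nat_lit 2300095257693470) (.br (nat_lit 0) (.cons (.br (nat_lit 5) (.cons (.rel (nat_lit 4299162132)) .nil)) .nil)) .leaf) (nat_lit 2300095257741314) (.br (nat_lit 0) (.cons (.br (nat_lit 5) (.cons (.rel (nat_lit 4299163137)) .nil)) .nil)) .leaf) (nat_lit 2300095257741362) (.br (nat_lit 0) (.cons (.br (nat_lit 1) (.cons (.rel (nat_lit 21038208)) .nil)) .nil)) (.node .leaf (nat_lit 2300095257741944) (.br (nat_lit 0) (.cons (.br (nat_lit 3) (.cons (.rel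 (nat_lit 272629794)) .nil)) .nil)) .leaf)) (nat_lit 2300095257741992) (.br (nat_lit 0) (.cons (.br (nat_lit 1) (.cons (.rel (nat_lit 37753872)) .nil)) .nil)) (.node (.node .leaf (nat_lit 2300095257742598) (.br (nat_lit 0) (.cons (.br (nat_lit 1) (.cons (.rel (nat_lit 37753872)) (.cons (.rel (nat_lit 25166337)) .nil))) .nil)) .leaf) (nat_lit 2300095257742622) (.br (nat_lit 0) (.cons (.br (nat_lit 5) (.cons (.rel (nat_lit 8598327312)) .nil)) .nil)) (.node .leaf (nat_lit 2300095258982402) (.br (nat_lit 0) (.cons (.br (nat_lit 1) (.cons (.rel (nat_lit 43024656)) .nil)) .nil)) .leaf))) (nat_lit 2300095259031602) (.br (nat_lit 0) (.cons (.br (nat_lit 1) (.cons (.rel (nat_lit 43024656)) .nil)) .nil)) (.node (.node (.node .leaf (nat_lit 2300095260242576) (.br (nat_lit 0) (.cons (.br (nat_lit 5) (.cons (.rel (nat_lit 4299165960)) .nil)) .nil)) .leaf) (nat_lit 2300095260243206) (.br (nat_lit 0) (.cons (.br (nat_lit 1) (.cons (.rel (nat_lit 21381120)) (.cons (.rel (nat_lit 25166337))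 .nil))) .nil)) (.node .leaf (nat_lit 2300298635250950) (.br (nat_lit 0) (.cons (.br (nat_lit 1) (.cons (.rel (nat_lit 21233700)) (.cons (.rel (nat_lit 21038208)) .nil))) .nil)) .leaf)) (nat_lit 2300298635300078) (.br (nat_lit 0) (.cons (.br (nat_lit 1) (.cons (.rel (nat_lit 20975745)) (.cons (.rel (nat_lit 21242112)) .nil))) .nil)) (.node (.node .leaf (nat_lit 2300298635349254) (.br (nat_lit 0) (.cons (.br (nat_lit 1) (.cons (.rel (nat_lit 21234705)) (.cons (.rel (nat_lit 23069700)) .nil))) .nil)) .leaf) (nat_lit 2300298636638234) (.br (nat_lit 0) (.cons (.br (nat_lit 1) (.cons (.rel (nat_lit 21242112)) .nil)) .nil)) (.node .leaf (nat_lit 2300298637799450) (.br (nat_lit 0) (.cons (.br (nat_lit 4) (.cons (.rel (nat_lit 1078264836)) .nil)) .nil)) .leaf)))))) (nat_lit 2300298637800686) (.br (nat_lit 0) (.cons (.br (nat_lit 4) (.cons (.rel (nat_lit 1078215696)) .nil)) .nil)) (.node (.node (.node (.node (.node (.node (.node .leaf (nat_lit 2300298637848578) (.br (nat_lit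 0) (.cons (.br (nat_lit 1) (.cons (.rel (nat_lit 37748994)) .nil)) .nil)) .leaf) (nat_lit 2300298735913592) (.br (nat_lit 0) (.cons (.br (nat_lit 2) (.cons (.rel (nat_lit 71369220)) .nil)) .nil)) .leaf) (nat_lit 2300298735962114) (.br (nat_lit 1) (.cons (.br (nat_lit 4) (.cons (.rel (nat_lit 1090781202)) .nil)) .nil)) (.node .leaf (nat_lit 2300298735962768) (.br (nat_lit 0) (.cons (.br (nat_lit 1) (.cons (.rel (nat_lit 25183488)) .nil)) .nil)) .leaf)) (nat_lit 2300298735962792) (.br (nat_lit 1) (.cons (.br (nat_lit 3) (.cons (.rel (nat_lit 285213216)) .nil)) .nil)) (.node (.node .leaf (nat_lit 2300298736011896) (.br (nat_lit 0) (.cons (.br (nat_lit 3) (.cons (.rel (nat_lit 272635392)) .nil)) .nil)) .leaf) (nat_lit 2300298736012550) (.br (nat_lit 0) (.cons (.br (nat_lit 1) (.cons (.rel (nat_lit 21381120)) (.cons (.rel (nat_lit 23134740)) .nil))) .nil)) (.node .leaf (nat_lit 2300298736012574) (.br (nat_lit 0) (.cons (.br (nat_lit 1) (.cons (.rel (nat_lit 37748994)) (.cons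 (.rel (nat_lit 20975745)) .nil))) .nil)) .leaf))) (nat_lit 2300298737203202) (.br (nat_lit 0) (.cons (.br (nat_lit 2) (.cons (.rel (nat_lit 71369220)) (.cons (.rel (nat_lit 71312640)) .nil))) .nil)) (.node (.node (.node .leaf (nat_lit 2300298737204510) (.br (nat_lit 0) (.cons (.br (nat_lit 1) (.cons (.rel (nat_lit 25183488)) (.cons (.rel (nat_lit 41944656)) .nil))) .nil)) .leaf) (nat_lit 2300298737252354) (.br (nat_lit 0) (.cons (.br (nat_lit 2) (.cons (.rel (nat_lit 71312640)) .nil)) .nil)) (.node .leaf (nat_lit 2300298737252402) (.br (nat_lit 0) (.cons (.br (nat_lit 1) (.cons (.rel (nat_lit 21233700)) .nil)) .nil)) .leaf)) (nat_lit 2300298737252984) (.br (nat_lit 1) (.cons (.br (nat_lit 2) (.cons (.rel (nat_lit 83902737)) .nil)) .nil)) (.node (.node .leaf (nat_lit 2300298737253638) (.br (nat_lit 1) (.cons (.br (nat_lit 0) (.cons (.rel (nat_lit 23134740)) (.cons (.rel (nat_lit 37753872)) .nil))) .nil)) .leaf) (nat_lit 2300298737301506) (.br (nat_lit 4) (.cons (.br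 (nat_lit 1) (.cons (.rel (nat_lit 1107300369)) (.cons (.rel (nat_lit 1090781202)) .nil))) .nil)) (.node .leaf (nat_lit 2300298737301530) (.br (nat_lit 0) (.cons (.br (nat_lit 1) (.cons (.rel (nat_lit 21233700)) .nil)) .nil)) .leaf)))) (nat_lit 2300298737301554) (.br (nat_lit 0) (.cons (.br (nat_lit 1) (.cons (.rel (nat_lit 25168404)) .nil)) .nil)) (.node (.node (.node (.node (.node .leaf (nat_lit 2300298737302790) (.br (nat_lit 0) (.cons (.br (nat_lit 1) (.cons (.rel (nat_lit 21234705)) (.cons (.rel (nat_lit 25166337)) .nil))) .nil)) .leaf) (nat_lit 2300298737302814) (.br (nat_lit 1) (.cons (.br (nat_lit 5) (.cons (.rel (nat_lit 4311745794)) .nil)) .nil)) .leaf) (nat_lit 2300298738306334) (.br (nat_lit 0) (.cons (.br (nat_lit 3) (.cons (.rel (nat_lit 272711937)) .nil)) .nil)) (.node .leaf (nat_lit 2300298738462722) (.br (nat_lit 0) (.cons (.br (nat_lit 2) (.cons (.rel (nat_lit 142606341)) .nil)) .nil)) .leaf)) (nat_lit 2300298738462746) (.br (nat_lit 1) (.cons (.br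 (nat_lit 4) (.cons (.rel (nat_lit 1090781202)) .nil)) .nil)) (.node (.node .leaf (nat_lit 2300298738463376) (.br (nat_lit 0) (.cons (.br (nat_lit 1) (.cons (.rel (nat_lit 20988066)) (.cons (.rel (nat_lit 20975745)) .nil))) .nil)) .leaf) (nat_lit 2300298738464030) (.br (nat_lit 0) (.cons (.br (nat_lit 4) (.cons (.rel (nat_lit 2151678978)) .nil)) .nil)) (.node .leaf (nat_lit 2300298738511874) (.br (nat_lit 0) (.cons (.br (nat_lit 1) (.cons (.rel (nat_lit 25183488)) .nil)) .nil)) .leaf))) (nat_lit 2300298738512504) (.br (nat_lit 0) (.cons (.br (nat_lit 1) (.cons (.rel (nat_lit 37766145)) .nil)) .nil)) (.node (.node (.node .leaf (nat_lit 2300298738512528) (.br (nat_lit 1) (.cons (.br (nat_lit 4) (.cons (.rel (nat_lit 1107298560)) .nil)) .nil)) .leaf) (nat_lit 2300298738512552) (.br (nat_lit 0) (.cons (.br (nat_lit 1) (.cons (.rel (nat_lit 25166337)) .nil)) .nil)) (.node .leaf (nat_lit 2300298738513158) (.br (nat_lit 4) (.cons (.br (nat_lit 0) (.cons (.rel (nat_lit 1078002048))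 (.cons (.rel (nat_lit 2151678978)) .nil))) .nil)) .leaf)) (nat_lit 2300298738513182) (.br (nat_lit 0) (.cons (.br (nat_lit 4) (.cons (.rel (nat_lit 1082131476)) .nil)) .nil)) (.node (.node .leaf (nat_lit 2300298836577542) (.br (nat_lit 1) (.cons (.br (nat_lit 3) (.cons (.rel (nat_lit 285213216)) (.cons (.rel (nat_lit 285217044)) .nil))) .nil)) .leaf) (nat_lit 2300298836626670) (.br (nat_lit 1) (.cons (.br (nat_lit 0) (.cons (.rel (nat_lit 20975745)) (.cons (.rel (nat_lit 37766145)) .nil))) .nil)) (.node .leaf (nat_lit 2300298836675870) (.br (nat_lit 0) (.cons (.br (nat_lit 1) (.cons (.rel (nat_lit 37766145)) .nil)) .nil)) .leaf))))) (nat_lit 2300298837866522) (.br (nat_lit 0) (.cons (.br (nat_lit 1) (.cons (.rel (nat_lit 25166337)) .nil)) .nil)) (.node (.node (.node (.node (.node (.node .leaf (nat_lit 2300298837867128) (.br (nat_lit 0) (.cons (.br (nat_lit 3) (.cons (.rel (nat_lit 272635392)) .nil)) .nil)) .leaf) (nat_lit 2300298837867758) (.br (nat_lit 0) (.cons (.br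 (nat_lit 1) (.cons (.rel (nat_lit 37753872)) (.cons (.rel (nat_lit 37766145)) .nil))) .nil)) .leaf) (nat_lit 2300298837867782) (.br (nat_lit 0) (.cons (.br (nat_lit 1) (.cons (.rel (nat_lit 25166337)) .nil)) .nil)) (.node .leaf (nat_lit 2300298837867806) (.br (nat_lit 1) (.cons (.br (nat_lit 0) (.cons (.rel (nat_lit 37748994)) (.cons (.rel (nat_lit 41944656)) .nil))) .nil)) .leaf)) (nat_lit 2300298837916934) (.br (nat_lit 0) (.cons (.br (nat_lit 3) (.cons (.rel (nat_lit 276889680)) .nil)) .nil)) (.node (.node .leaf (nat_lit 2300298837964802) (.br (nat_lit 0) (.cons (.br (nat_lit 3) (.cons (.rel (nat_lit 272630808)) .nil)) .nil)) .leaf) (nat_lit 2300298837966062) (.br (nat_lit 1) (.cons (.br (nat_lit 3) (.cons (.rel (nat_lit 285213216)) .nil)) .nil)) (.node .leaf (nat_lit 2300298839126018) (.br (nat_lit 0) (.cons (.br (nat_lit 2) (.cons (.rel (nat_lit 71320080)) .nil)) .nil)) .leaf))) (nat_lit 2300298839126042) (.br (nat_lit 1) (.cons (.br (nat_lit 3) (.cons (.rel (nat_lit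 285213216)) .nil)) .nil)) (.node (.node (.node .leaf (nat_lit 2300298839126648) (.br (nat_lit 0) (.cons (.br (nat_lit 3) (.cons (.rel (nat_lit 277905408)) .nil)) .nil)) .leaf) (nat_lit 2300298839126672) (.br (nat_lit 0) (.cons (.br (nat_lit 1) (.cons (.rel (nat_lit 25166337)) .nil)) .nil)) (.node .leaf (nat_lit 2300298839126696) (.br (nat_lit 0) (.cons (.br (nat_lit 1) (.cons (.rel (nat_lit 25166337)) .nil)) .nil)) .leaf)) (nat_lit 2300298839127278) (.br (nat_lit 0) (.cons (.br (nat_lit 4) (.cons (.rel (nat_lit 1078215696)) .nil)) .nil)) (.node (.node .leaf (nat_lit 2300298839127302) (.br (nat_lit 0) (.cons (.br (nat_lit 1) (.cons (.rel (nat_lit 25166337)) (.cons (.rel (nat_lit 25166337)) .nil))) .nil)) .leaf) (nat_lit 2300298839127326) (.br (nat_lit 0) (.cons (.br (nat_lit 3) (.cons (.rel (nat_lit 272631813)) .nil)) .nil)) (.node .leaf (nat_lit 2300298839175170) (.br (nat_lit 0) (.cons (.br (nat_lit 1) (.cons (.rel (nat_lit 21381120)) .nil)) .nil)) .leaf)))) (nat_lit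 2300298839175800) (.br (nat_lit 0) (.cons (.br (nat_lit 1) (.cons (.rel (nat_lit 37766145)) .nil)) .nil)) (.node (.node (.node (.node (.node .leaf (nat_lit 2300298839175824) (.br (nat_lit 1) (.cons (.br (nat_lit 4) (.cons (.rel (nat_lit 1107298560)) .nil)) .nil)) .leaf) (nat_lit 2300298839176478) (.br (nat_lit 0) (.cons (.br (nat_lit 4) (.cons (.rel (nat_lit 1078215696)) .nil)) .nil)) .leaf) (nat_lit 2300301416073848) (.br (nat_lit 0) (.cons (.br (nat_lit 2) (.cons (.rel (nat_lit 71320080)) .nil)) .nil)) (.node .leaf (nat_lit 2300301416074478) (.br (nat_lit 0) (.cons (.br (nat_lit 2) (.cons (.rel (nat_lit 71320080)) .nil)) .nil)) .leaf)) (nat_lit 2300301416074502) (.br (nat_lit 0) (.cons (.br (nat_lit 3) (.cons (.rel (nat_lit 272629794)) (.cons (.rel (nat_lit 272629794)) .nil))) (.cons (.br (nat_lit 1) (.cons (.rel (nat_lit 25183488)) (.cons (.rel (nat_lit 21233700)) .nil))) .nil))) (.node (.node .leaf (nat_lit 2300301416123048) (.br (nat_lit 0) (.cons (.br (nat_lit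 1) (.cons (.rel (nat_lit 37753872)) .nil)) .nil)) .leaf) (nat_lit 2300301416123630) (.br (nat_lit 1) (.cons (.br (nat_lit 3) (.cons (.rel (nat_lit 570425616)) .nil)) .nil)) (.node .leaf (nat_lit 2300301416123678) (.br (nat_lit 0) (.cons (.br (nat_lit 3) (.cons (.rel (nat_lit 541392897)) .nil)) .nil)) .leaf))) (nat_lit 2300301416172176) (.br (nat_lit 0) (.cons (.br (nat_lit 1) (.cons (.rel (nat_lit 37753872)) .nil)) .nil)) (.node (.node (.node .leaf (nat_lit 2300301416172806) (.br (nat_lit 0) (.cons (.br (nat_lit 1) (.cons (.rel (nat_lit 37753872)) (.cons (.rel (nat_lit 37766145)) .nil))) .nil)) .leaf) (nat_lit 2300301416172830) (.br (nat_lit 0) (.cons (.br (nat_lit 1) (.cons (.rel (nat_lit 37748994)) (.cons (.rel (nat_lit 21038208)) .nil))) (.cons (.br (nat_lit 1) (.cons (.rel (nat_lit 37766145)) (.cons (.rel (nat_lit 20975745)) .nil))) .nil))) (.node .leaf (nat_lit 2300301417412610) (.br (nat_lit 0) (.cons (.br (nat_lit 2) (.cons (.rel (nat_lit 71312640)) .nil)) .nil))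 .leaf)) (nat_lit 2300301417461810) (.br (nat_lit 0) (.cons (.br (nat_lit 1) (.cons (.rel (nat_lit 25168404)) .nil)) .nil)) (.node (.node .leaf (nat_lit 2300301418622978) (.br (nat_lit 0) (.cons (.br (nat_lit 2) (.cons (.rel (nat_lit 71305233)) .nil)) .nil)) .leaf) (nat_lit 2300301418623632) (.br (nat_lit 0) (.cons (.br (nat_lit 1) (.cons (.rel (nat_lit 21234705)) .nil)) .nil)) (.node .leaf (nat_lit 2300301418624238) (.br (nat_lit 0) (.cons (.br (nat_lit 2) (.cons (.rel (nat_lit 71305233)) .nil)) .nil)) .leaf)))))))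

/-- refutations 34 -/
def e34 : EX := (.node (.node (.node (.node (.node .leaf (nat_lit 2392546005277298) (.br (nat_lit 0) (.cons (.br (nat_lit 1) (.cons (.rel (nat_lit 37814280)) .nil)) .nil)) .leaf) (nat_lit 2392546005502212) (.br (nat_lit 0) (.cons (.br (nat_lit 6) (.cons (.rel (nat_lit 17188323588)) .nil)) .nil)) .leaf) (nat_lit 2392546006567692) (.br (nat_lit 0) (.cons (.br (nat_lit 1) (.cons (.rel (nat_lit 23069700)) (.cons (.rel (nat_lit 37765140)) .nil))) .nil)) (.node (.node .leaf (nat_lit 2392546008052492) (.br (nat_lit 1) (.cons (.br (nat_lit 4) (.cons (.rel (nat_lit 1107298560)) (.cons (.rel (nat_lit 1090519428)) .nil))) .nil)) .leaf) (nat_lit 2392546008400132) (.br (nat_lit 0) (.cons (.br (nat_lit 6) (.cons (.rel (nat_lit 17184327684)) .nil)) .nil)) .leaf)) (nat_lit 2392546008400652) (.br (nat_lit 0) (.cons (.br (nat_lit 4) (.cons (.rel (nat_lit 2151825441)) .nil)) .nil)) (.node (.node (.node .leaf (nat_lit 2394141540976097) (.br (nat_lit 0) (.cons (.br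 (nat_lit 6) (.cons (.rel (nat_lit 17188267008)) .nil)) .nil)) .leaf) (nat_lit 2394954227832887) (.br (nat_lit 4) (.cons (.br (nat_lit 6) (.cons (.rel (nat_lit 36508270593)) .nil)) .nil)) .leaf) (nat_lit 2394954228353174) (.br (nat_lit 0) (.cons (.br (nat_lit 3) (.cons (.rel (nat_lit 541392897)) .nil)) .nil)) (.node (.node .leaf (nat_lit 2394954230608022) (.br (nat_lit 1) (.cons (.br (nat_lit 0) (.cons (.rel (nat_lit 25296900)) (.cons (.br (nat_lit 6) (.cons (.rel (nat_lit 17188267008)) (.cons (.rel (nat_lit 17196647553)) .nil))) .nil))) .nil)) .leaf) (nat_lit 2394954230956087) (.br (nat_lit 0) (.cons (.br (nat_lit 4) (.cons (.rel (nat_lit 1082204160)) .nil)) .nil)) .leaf))) (nat_lit 2397964061869537) (.br (nat_lit 0) (.cons (.br (nat_lit 6) (.cons (.rel (nat_lit 17188267008)) .nil)) .nil)) (.node (.node (.node (.node .leaf (nat_lit 2398379223849110) (.br (nat_lit 0) (.cons (.br (nat_lit 1) (.cons (.rel (nat_lit 25166337)) .nil)) .nil)) .leaf) (nat_lit 2400483748172082)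 (.br (nat_lit 1) (.cons (.br (nat_lit 3) (.cons (.rel (nat_lit 285213216)) .nil)) .nil)) .leaf) (nat_lit 2404829611743492) (.br (nat_lit 0) (.cons (.br (nat_lit 4) (.cons (.rel (nat_lit 2151678978)) .nil)) .nil)) (.node (.node .leaf (nat_lit 2404829611968772) (.br (nat_lit 6) (.cons (.br (nat_lit 4) (.cons (.rel (nat_lit 19327484928)) (.cons (.rel (nat_lit 19327357188)) .nil))) .nil)) .leaf) (nat_lit 2404829612316932) (.br (nat_lit 0) (.cons (.br (nat_lit 2) (.cons (.rel (nat_lit 71303178)) .nil)) .nil)) .leaf)) (nat_lit 2404829613034252) (.br (nat_lit 0) (.cons (.br (nat_lit 1) (.cons (.rel (nat_lit 23069700)) .nil)) .nil)) (.node (.node (.node .leaf (nat_lit 2404829614519147) (.br (nat_lit 6) (.cons (.br (nat_lit 1) (.cons (.rel (nat_lit 17196646548)) (.cons (.rel (nat_lit 17196647553)) .nil))) .nil)) .leaf) (nat_lit 2404829614866692) (.br (nat_lit 0) (.cons (.br (nat_lit 4) (.cons (.rel (nat_lit 1080033540)) (.cons (.rel (nat_lit 2151710976)) .nil))) (.cons (.br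 (nat_lit 4) (.cons (.rel (nat_lit 1078202373)) (.cons (.rel (nat_lit 2151710976)) .nil))) .nil))) .leaf) (nat_lit 2404829614867212) (.br (nat_lit 4) (.cons (.br (nat_lit 6) (.cons (.rel (nat_lit 18255708162)) .nil)) .nil)) (.node .leaf (nat_lit 2405680016558860) (.br (nat_lit 0) (.cons (.br (nat_lit 1) (.cons (.rel (nat_lit 23093256)) .nil)) .nil)) .leaf))))

/-- refutations 36 -/
def e36 : EX := (.node (.node .leaf (nat_lit 2644498019747990) (.br (nat_lit 3) (.cons (.br (nat_lit 5) (.cons (.rel (nat_lit 8858435604)) (.cons (.rel (nat_lit 8858435604)) (.cons (.rel (nat_lit 4831906053)) (.cons (.rel (nat_lit 8858371332)) (.cons (.rel (nat_lit 4564517904)) .nil)))))) (.cons (.br (nat_lit 4) (.cons (.rel (nat_lit 2685665280)) (.cons (.rel (nat_lit 1342177305)) (.cons (.rel (nat_lit 2684355600)) .nil)))) .nil))) .leaf) (nat_lit 2644498021038230) (.br (nat_lit 4) (.cons (.br (nat_lit 6) (.cons (.rel (nat_lit 35433496581)) (.cons (.rel (nat_lit 18253877760)) .nil))) .nil))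 .leaf)

/-- refutations 38 -/
def e38 : EX := (.node (.node (.node (.node .leaf (nat_lit 2676432029927484) (.br (nat_lit 0) (.cons (.br (nat_lit 1) (.cons (.rel (nat_lit 25166337)) .nil)) .nil)) .leaf) (nat_lit 2679856286771350) (.br (nat_lit 0) (.cons (.br (nat_lit 2) (.cons (.rel (nat_lit 71312640)) .nil)) .nil)) .leaf) (nat_lit 2679856286771831) (.br (nat_lit 0) (.cons (.br (nat_lit 3) (.cons (.rel (nat_lit 545259537)) .nil)) .nil)) (.node .leaf (nat_lit 2679856289472662) (.br (nat_lit 0) (.cons (.br (nat_lit 4) (.cons (.rel (nat_lit 1078002048)) .nil)) .nil)) .leaf)) (nat_lit 2679856289473143) (.br (nat_lit 0) (.cons (.br (nat_lit 4) (.cons (.rel (nat_lit 1078002048)) .nil)) .nil)) (.node (.node .leaf (nat_lit 2679859414341913) (.br (nat_lit 1) (.cons (.br (nat_lit 6) (.cons (.rel (nat_lit 34376515590)) .nil)) .nil)) .leaf) (nat_lit 2679897159907580) (.br (nat_lit 0) (.cons (.br (nat_lit 1) (.cons (.rel (nat_lit 20975745)) .nil)) .nil)) (.node .leaf (nat_lit 2679897159908864)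 (.br (nat_lit 0) (.cons (.br (nat_lit 3) (.cons (.rel (nat_lit 272646660)) .nil)) .nil)) .leaf)))

/-- refutations 39 -/
def e39 : EX := (.node (.node .leaf (nat_lit 2681978550070123) (.br (nat_lit 0) (.cons (.br (nat_lit 3) (.cons (.rel (nat_lit 541327620)) (.cons (.rel (nat_lit 272729088)) .nil))) .nil)) .leaf) (nat_lit 2681978551554329) (.br (nat_lit 0) (.cons (.br (nat_lit 3) (.cons (.rel (nat_lit 272631813)) .nil)) .nil)) (.node .leaf (nat_lit 2687206550163737) (.br (nat_lit 0) (.cons (.br (nat_lit 1) (.cons (.rel (nat_lit 25247760)) .nil)) .nil)) .leaf))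

/-- refutations 40 -/
def e40 : EX := (.node (.node (.node (.node (.node (.node (.node .leaf (nat_lit 2762291776082052) (.br (nat_lit 2) (.cons (.br (nat_lit 3) (.cons (.rel (nat_lit 335610948)) .nil)) .nil)) .leaf) (nat_lit 2763264980706207) (.br (nat_lit 0) (.cons (.br (nat_lit 3) (.cons (.rel (nat_lit 277905408)) (.cons (.rel (nat_lit 272631813)) .nil))) .nil)) (.node .leaf (nat_lit 2764163799299360) (.br (nat_lit 0) (.cons (.br (nat_lit 1) (.cons (.rel (nat_lit 21038208)) .nil)) .nil)) .leaf)) (nat_lit 2764387232778290) (.br (nat_lit 0) (.cons (.br (nat_lit 3) (.cons (.rel (nat_lit 272703492)) (.cons (.rel (nat_lit 545259537)) .nil))) .nil)) (.node (.node .leaf (nat_lit 2764387232778920) (.br (nat_lit 0) (.cons (.br (nat_lit 3) (.cons (.rel (nat_lit 272703492)) .nil)) .nil)) .leaf) (nat_lit 2764387232828048) (.br (nat_lit 0) (.cons (.br (nat_lit 1) (.cons (.rel (nat_lit 22024512)) .nil)) .nil)) .leaf)) (nat_lit 2764387232828072) (.br (nat_lit 0) (.cons (.br (nat_lit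 3) (.cons (.rel (nat_lit 273940488)) (.cons (.rel (nat_lit 272631813)) .nil))) .nil)) (.node (.node (.node .leaf (nat_lit 2764387232828279) (.br (nat_lit 0) (.cons (.br (nat_lit 3) (.cons (.rel (nat_lit 272630808)) .nil)) .nil)) .leaf) (nat_lit 2764387232828702) (.br (nat_lit 0) (.cons (.br (nat_lit 1) (.cons (.rel (nat_lit 25247760)) (.cons (.rel (nat_lit 21234705)) .nil))) .nil)) (.node .leaf (nat_lit 2764387232876594) (.br (nat_lit 0) (.cons (.br (nat_lit 5) (.cons (.rel (nat_lit 4299162132)) (.cons (.rel (nat_lit 4299169824)) .nil))) .nil)) .leaf)) (nat_lit 2764387232877200) (.br (nat_lit 0) (.cons (.br (nat_lit 1) (.cons (.rel (nat_lit 21233700)) .nil)) .nil)) (.node (.node .leaf (nat_lit 2764387232877224) (.br (nat_lit 0) (.cons (.br (nat_lit 5) (.cons (.rel (nat_lit 4299162132)) .nil)) .nil)) .leaf) (nat_lit 2764387232877830) (.br (nat_lit 0) (.cons (.br (nat_lit 3) (.cons (.rel (nat_lit 272703492)) (.cons (.rel (nat_lit 272666625)) .nil))) .nil)) .leaf))) (nat_lit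 2764387233891590) (.br (nat_lit 0) (.cons (.br (nat_lit 1) (.cons (.rel (nat_lit 21233700)) .nil)) .nil)) (.node (.node (.node (.node .leaf (nat_lit 2764387234117658) (.br (nat_lit 0) (.cons (.br (nat_lit 1) (.cons (.rel (nat_lit 21234705)) .nil)) .nil)) .leaf) (nat_lit 2764387234118312) (.br (nat_lit 0) (.cons (.br (nat_lit 1) (.cons (.rel (nat_lit 21381120)) (.cons (.rel (nat_lit 25166337)) .nil))) .nil)) (.node .leaf (nat_lit 2764387234118894) (.br (nat_lit 0) (.cons (.br (nat_lit 3) (.cons (.rel (nat_lit 272630808)) (.cons (.rel (nat_lit 545259537)) .nil))) .nil)) .leaf)) (nat_lit 2764387234118918) (.br (nat_lit 0) (.cons (.br (nat_lit 1) (.cons (.rel (nat_lit 20975745)) (.cons (.rel (nat_lit 21233700)) .nil))) .nil)) (.node (.node .leaf (nat_lit 2764387234166834) (.br (nat_lit 0) (.cons (.br (nat_lit 1) (.cons (.rel (nat_lit 21242112)) .nil)) .nil)) .leaf) (nat_lit 2764387234168070) (.br (nat_lit 3) (.cons (.br (nat_lit 0) (.cons (.rel (nat_lit 272703492)) (.cons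 (.rel (nat_lit 272630808)) .nil))) .nil)) .leaf)) (nat_lit 2764387234168094) (.br (nat_lit 0) (.cons (.br (nat_lit 1) (.cons (.rel (nat_lit 21242112)) (.cons (.rel (nat_lit 37753872)) .nil))) .nil)) (.node (.node (.node .leaf (nat_lit 2764387235082896) (.br (nat_lit 1) (.cons (.br (nat_lit 4) (.cons (.rel (nat_lit 1092616197)) .nil)) .nil)) .leaf) (nat_lit 2764387235193512) (.br (nat_lit 0) (.cons (.br (nat_lit 1) (.cons (.rel (nat_lit 20975745)) .nil)) .nil)) .leaf) (nat_lit 2764387235328002) (.br (nat_lit 3) (.cons (.br (nat_lit 0) (.cons (.rel (nat_lit 272631813)) (.cons (.rel (nat_lit 272629794)) .nil))) .nil)) (.node (.node .leaf (nat_lit 2764387235328310) (.br (nat_lit 0) (.cons (.br (nat_lit 2) (.cons (.rel (nat_lit 71303178)) .nil)) .nil)) .leaf) (nat_lit 2764387235328656) (.br (nat_lit 1) (.cons (.br (nat_lit 3) (.cons (.rel (nat_lit 570425616)) (.cons (.rel (nat_lit 285213216)) .nil))) .nil)) .leaf)))) (nat_lit 2764387235328680) (.br (nat_lit 0) (.cons (.br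 (nat_lit 1) (.cons (.rel (nat_lit 25166337)) .nil)) .nil)) (.node (.node (.node (.node (.node .leaf (nat_lit 2764387235328882) (.br (nat_lit 0) (.cons (.br (nat_lit 2) (.cons (.rel (nat_lit 76627968)) .nil)) .nil)) .leaf) (nat_lit 2764387235329286) (.br (nat_lit 1) (.cons (.br (nat_lit 2) (.cons (.rel (nat_lit 83894292)) (.cons (.rel (nat_lit 83886600)) (.cons (.rel (nat_lit 83886600)) .nil)))) (.cons (.br (nat_lit 2) (.cons (.rel (nat_lit 83894292)) (.cons (.br (nat_lit 3) (.cons (.rel (nat_lit 603980805)) (.cons (.rel (nat_lit 285220872)) (.cons (.rel (nat_lit 285217044)) .nil)))) (.cons (.rel (nat_lit 83894292)) .nil)))) .nil))) (.node .leaf (nat_lit 2764387235329310) (.br (nat_lit 0) (.cons (.br (nat_lit 1) (.cons (.rel (nat_lit 37753872)) .nil)) .nil)) .leaf)) (nat_lit 2764387235377808) (.br (nat_lit 0) (.cons (.br (nat_lit 1) (.cons (.rel (nat_lit 25166337)) .nil)) .nil)) (.node (.node .leaf (nat_lit 2764387235377809) (.br (nat_lit 0) (.cons (.br (nat_lit 6)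 (.cons (.rel (nat_lit 34363935000)) .nil)) .nil)) .leaf) (nat_lit 2764387235378414) (.br (nat_lit 1) (.cons (.br (nat_lit 5) (.cons (.rel (nat_lit 8623505664)) .nil)) .nil)) .leaf)) (nat_lit 2764387235378438) (.br (nat_lit 1) (.cons (.br (nat_lit 0) (.cons (.rel (nat_lit 21234705)) (.cons (.rel (nat_lit 37748994)) .nil))) .nil)) (.node (.node (.node .leaf (nat_lit 2764389812275226) (.br (nat_lit 0) (.cons (.br (nat_lit 1) (.cons (.br (nat_lit 5) (.cons (.rel (nat_lit 8598339585)) (.cons (.rel (nat_lit 4328538192)) .nil))) (.cons (.rel (nat_lit 37753872)) .nil))) .nil)) .leaf) (nat_lit 2764389812275250) (.br (nat_lit 6) (.cons (.br (nat_lit 0) (.cons (.rel (nat_lit 17184129168)) (.cons (.rel (nat_lit 17186160660)) .nil))) .nil)) (.node .leaf (nat_lit 2764389812275856) (.br (nat_lit 1) (.cons (.br (nat_lit 3) (.cons (.rel (nat_lit 285213216)) (.cons (.rel (nat_lit 303038484)) .nil))) .nil)) .leaf)) (nat_lit 2764389812275880) (.br (nat_lit 1) (.cons (.br (nat_lit 5) (.cons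 (.rel (nat_lit 4311750672)) .nil)) .nil)) (.node (.node .leaf (nat_lit 2764389812276462) (.br (nat_lit 0) (.cons (.br (nat_lit 3) (.cons (.rel (nat_lit 272629794)) .nil)) .nil)) .leaf) (nat_lit 2764389812276486) (.br (nat_lit 0) (.cons (.br (nat_lit 3) (.cons (.rel (nat_lit 272630808)) (.cons (.rel (nat_lit 272629794)) (.cons (.rel (nat_lit 272629794)) (.cons (.rel (nat_lit 272629794)) .nil))))) .nil)) .leaf))) (nat_lit 2764389812324354) (.br (nat_lit 0) (.cons (.br (nat_lit 3) (.cons (.rel (nat_lit 273023040)) (.cons (.rel (nat_lit 272629794)) (.cons (.rel (nat_lit 541392897)) .nil)))) .nil)) (.node (.node (.node (.node .leaf (nat_lit 2764389812324378) (.br (nat_lit 1) (.cons (.br (nat_lit 3) (.cons (.rel (nat_lit 570425616)) .nil)) .nil)) .leaf) (nat_lit 2764389812325008) (.br (nat_lit 0) (.cons (.br (nat_lit 1) (.cons (.rel (nat_lit 22024512)) .nil)) .nil)) (.node .leaf (nat_lit 2764389812325032) (.br (nat_lit 0) (.cons (.br (nat_lit 1) (.cons (.rel (nat_lit 25166337))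 .nil)) .nil)) .leaf)) (nat_lit 2764389812325614) (.br (nat_lit 0) (.cons (.br (nat_lit 3) (.cons (.rel (nat_lit 541392897)) .nil)) .nil)) (.node (.node .leaf (nat_lit 2764389812325662) (.br (nat_lit 0) (.cons (.br (nat_lit 5) (.cons (.rel (nat_lit 4304470020)) (.cons (.rel (nat_lit 4299162132)) .nil))) .nil)) .leaf) (nat_lit 2764389812373554) (.br (nat_lit 5) (.cons (.br (nat_lit 0) (.cons (.rel (nat_lit 4299163137)) (.cons (.rel (nat_lit 4299162132)) .nil))) .nil)) .leaf)) (nat_lit 2764389812374160) (.br (nat_lit 0) (.cons (.br (nat_lit 1) (.cons (.rel (nat_lit 21233700)) .nil)) .nil)) (.node (.node (.node .leaf (nat_lit 2764389812374184) (.br (nat_lit 5) (.cons (.br (nat_lit 0) (.cons (.rel (nat_lit 8598327312)) (.cons (.rel (nat_lit 4299162132)) .nil))) .nil)) .leaf) (nat_lit 2764389812374814) (.br (nat_lit 0) (.cons (.br (nat_lit 5) (.cons (.rel (nat_lit 4299163137)) .nil)) .nil)) .leaf) (nat_lit 2764389813349857) (.br (nat_lit 1) (.cons (.br (nat_lit 2) (.cons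 (.rel (nat_lit 83886600)) .nil)) .nil)) (.node (.node .leaf (nat_lit 2764389813663794) (.br (nat_lit 0) (.cons (.br (nat_lit 1) (.cons (.rel (nat_lit 21242112)) (.cons (.rel (nat_lit 21037206)) .nil))) .nil)) .leaf) (nat_lit 2764389813664400) (.br (nat_lit 0) (.cons (.br (nat_lit 1) (.cons (.rel (nat_lit 21233700)) (.cons (.rel (nat_lit 25432128)) .nil))) .nil)) .leaf))))) (nat_lit 2764389813665006) (.br (nat_lit 0) (.cons (.br (nat_lit 1) (.cons (.rel (nat_lit 25247760)) .nil)) .nil)) (.node (.node (.node (.node (.node (.node .leaf (nat_lit 2764389813665054) (.br (nat_lit 0) (.cons (.br (nat_lit 1) (.cons (.rel (nat_lit 21242112)) .nil)) .nil)) .leaf) (nat_lit 2764389814825616) (.br (nat_lit 0) (.cons (.br (nat_lit 1) (.cons (.br (nat_lit 2) (.cons (.rel (nat_lit 83894292)) (.cons (.rel (nat_lit 167772420)) (.cons (.rel (nat_lit 83886600)) (.cons (.rel (nat_lit 71305233)) .nil))))) .nil)) .nil)) (.node .leaf (nat_lit 2764389814826222) (.br (nat_lit 0) (.cons (.br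 (nat_lit 1) (.cons (.rel (nat_lit 21233700)) .nil)) .nil)) .leaf)) (nat_lit 2764389814826246) (.br (nat_lit 0) (.cons (.br (nat_lit 1) (.cons (.br (nat_lit 3) (.cons (.rel (nat_lit 272630808)) (.cons (.rel (nat_lit 272631813)) (.cons (.rel (nat_lit 285220872)) (.cons (.rel (nat_lit 545259537)) .nil))))) .nil)) .nil)) (.node (.node .leaf (nat_lit 2764389814826270) (.br (nat_lit 0) (.cons (.br (nat_lit 1) (.cons (.rel (nat_lit 22544385)) .nil)) .nil)) .leaf) (nat_lit 2764389814874768) (.br (nat_lit 0) (.cons (.br (nat_lit 1) (.cons (.rel (nat_lit 21242112)) .nil)) .nil)) .leaf)) (nat_lit 2764389814923920) (.br (nat_lit 0) (.cons (.br (nat_lit 1) (.cons (.rel (nat_lit 21233700)) (.cons (.rel (nat_lit 25166337)) .nil))) .nil)) (.node (.node (.node .leaf (nat_lit 2764390344691989) (.br (nat_lit 0) (.cons (.br (nat_lit 2) (.cons (.rel (nat_lit 142606341)) .nil)) .nil)) .leaf) (nat_lit 2764390345780107) (.br (nat_lit 0) (.cons (.br (nat_lit 3) (.cons (.rel (nat_lit 272631813))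 .nil)) .nil)) (.node .leaf (nat_lit 2764390347051915) (.br (nat_lit 2) (.cons (.br (nat_lit 4) (.cons (.rel (nat_lit 2281702404)) .nil)) .nil)) .leaf)) (nat_lit 2764390347242379) (.br (nat_lit 1) (.cons (.br (nat_lit 6) (.cons (.rel (nat_lit 17213425680)) (.cons (.rel (nat_lit 17213554944)) .nil))) .nil)) (.node (.node .leaf (nat_lit 2764392253360130) (.br (nat_lit 0) (.cons (.br (nat_lit 3) (.cons (.rel (nat_lit 273940488)) (.cons (.rel (nat_lit 272635392)) .nil))) .nil)) .leaf) (nat_lit 2764392253360154) (.br (nat_lit 1) (.cons (.br (nat_lit 3) (.cons (.rel (nat_lit 285280512)) .nil)) .nil)) .leaf))) (nat_lit 2764392253409306) (.br (nat_lit 0) (.cons (.br (nat_lit 1) (.cons (.rel (nat_lit 22024512)) .nil)) .nil)) (.node (.node (.node (.node .leaf (nat_lit 2764392253409330) (.br (nat_lit 0) (.cons (.br (nat_lit 1) (.cons (.rel (nat_lit 25166337)) (.cons (.rel (nat_lit 21234705)) .nil))) .nil)) .leaf) (nat_lit 2764392253458458) (.br (nat_lit 0) (.cons (.br (nat_lit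 4) (.cons (.rel (nat_lit 1082147328)) .nil)) .nil)) (.node .leaf (nat_lit 2764392253458482) (.br (nat_lit 0) (.cons (.br (nat_lit 3) (.cons (.rel (nat_lit 272631813)) .nil)) .nil)) .leaf)) (nat_lit 2764392254699522) (.br (nat_lit 0) (.cons (.br (nat_lit 1) (.cons (.rel (nat_lit 25166337)) .nil)) .nil)) (.node (.node .leaf (nat_lit 2764392254699546) (.br (nat_lit 0) (.cons (.br (nat_lit 1) (.cons (.rel (nat_lit 21234705)) .nil)) .nil)) .leaf) (nat_lit 2764392254699570) (.br (nat_lit 6) (.cons (.br (nat_lit 0) (.cons (.rel (nat_lit 17188274448)) (.cons (.br (nat_lit 5) (.cons (.rel (nat_lit 21474841632)) (.cons (.rel (nat_lit 4299162132)) .nil))) .nil))) .nil)) .leaf)) (nat_lit 2764392254700200) (.br (nat_lit 5) (.cons (.br (nat_lit 3) (.cons (.rel (nat_lit 4564517904)) (.cons (.rel (nat_lit 4563927312)) .nil))) .nil)) (.node (.node (.node .leaf (nat_lit 2764392254700782) (.br (nat_lit 0) (.cons (.br (nat_lit 1) (.cons (.rel (nat_lit 25166337)) .nil)) .nil)) .leaf) (nat_lit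 2764392254748698) (.br (nat_lit 0) (.cons (.br (nat_lit 3) (.cons (.rel (nat_lit 541392897)) .nil)) .nil)) .leaf) (nat_lit 2764392254748722) (.br (nat_lit 0) (.cons (.br (nat_lit 1) (.cons (.rel (nat_lit 25166337)) .nil)) .nil)) (.node (.node .leaf (nat_lit 2764392254749328) (.br (nat_lit 0) (.cons (.br (nat_lit 1) (.cons (.rel (nat_lit 21234705)) .nil)) .nil)) .leaf) (nat_lit 2764392254749934) (.br (nat_lit 1) (.cons (.br (nat_lit 5) (.cons (.rel (nat_lit 4311744789)) .nil)) .nil)) .leaf)))) (nat_lit 2764392254749982) (.br (nat_lit 0) (.cons (.br (nat_lit 1) (.cons (.rel (nat_lit 25166337)) .nil)) .nil)) (.node (.node (.node (.node (.node .leaf (nat_lit 2764392255910544) (.br (nat_lit 0) (.cons (.br (nat_lit 1) (.cons (.rel (nat_lit 37753872)) .nil)) .nil)) .leaf) (nat_lit 2764392256008218) (.br (nat_lit 0) (.cons (.br (nat_lit 1) (.cons (.rel (nat_lit 25247760)) .nil)) .nil)) (.node .leaf (nat_lit 2764392256008848) (.br (nat_lit 0) (.cons (.br (nat_lit 1) (.cons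 (.rel (nat_lit 21233700)) .nil)) .nil)) .leaf)) (nat_lit 2764392256008872) (.br (nat_lit 0) (.cons (.br (nat_lit 3) (.cons (.rel (nat_lit 272666625)) .nil)) .nil)) (.node (.node .leaf (nat_lit 2764392454686722) (.br (nat_lit 3) (.cons (.br (nat_lit 0) (.cons (.rel (nat_lit 273940488)) (.cons (.rel (nat_lit 273023040)) .nil))) .nil)) .leaf) (nat_lit 2764392454686746) (.br (nat_lit 0) (.cons (.br (nat_lit 3) (.cons (.rel (nat_lit 272703492)) (.cons (.rel (nat_lit 272631813)) .nil))) (.cons (.br (nat_lit 3) (.cons (.br (nat_lit 1) (.cons (.rel (nat_lit 553664640)) (.cons (.rel (nat_lit 285220872)) (.cons (.rel (nat_lit 21233700)) .nil)))) (.cons (.rel (nat_lit 545259537)) .nil))) .nil))) .leaf)) (nat_lit 2764392454686770) (.br (nat_lit 0) (.cons (.br (nat_lit 4) (.cons (.rel (nat_lit 1078202373)) .nil)) .nil)) (.node (.node (.node .leaf (nat_lit 2764392454687376) (.br (nat_lit 1) (.cons (.br (nat_lit 0) (.cons (.rel (nat_lit 21234705)) (.cons (.rel (nat_lit 21038208))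 .nil))) .nil)) .leaf) (nat_lit 2764392454687400) (.br (nat_lit 3) (.cons (.br (nat_lit 5) (.cons (.br (nat_lit 1) (.cons (.rel (nat_lit 285217044)) (.cons (.rel (nat_lit 4311750672)) .nil))) .nil)) .nil)) (.node .leaf (nat_lit 2764392454688006) (.br (nat_lit 5) (.cons (.br (nat_lit 0) (.cons (.rel (nat_lit 4299163137)) (.cons (.rel (nat_lit 4299163137)) (.cons (.rel (nat_lit 4299227409)) .nil)))) (.cons (.br (nat_lit 1) (.cons (.rel (nat_lit 4328538192)) (.cons (.rel (nat_lit 4311810066)) (.cons (.rel (nat_lit 4311777792)) .nil)))) .nil))) .leaf)) (nat_lit 2764392454785680) (.br (nat_lit 0) (.cons (.br (nat_lit 5) (.cons (.rel (nat_lit 4299169824)) .nil)) .nil)) (.node (.node .leaf (nat_lit 2764392456026114) (.br (nat_lit 0) (.cons (.br (nat_lit 3) (.cons (.rel (nat_lit 541392897)) (.cons (.rel (nat_lit 272629794)) .nil))) .nil)) .leaf) (nat_lit 2764392456026138) (.br (nat_lit 3) (.cons (.br (nat_lit 0) (.cons (.rel (nat_lit 272703492)) (.cons (.rel (nat_lit 272629794))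 .nil))) .nil)) .leaf))) (nat_lit 2764392456027422) (.br (nat_lit 1) (.cons (.br (nat_lit 0) (.cons (.rel (nat_lit 37748994)) (.cons (.rel (nat_lit 21233700)) .nil))) .nil)) (.node (.node (.node (.node .leaf (nat_lit 2764392456075266) (.br (nat_lit 0) (.cons (.br (nat_lit 3) (.cons (.rel (nat_lit 272629794)) .nil)) .nil)) .leaf) (nat_lit 2764392456075314) (.br (nat_lit 0) (.cons (.br (nat_lit 6) (.cons (.rel (nat_lit 17184325665)) (.cons (.rel (nat_lit 17184325665)) (.cons (.rel (nat_lit 17188274448)) .nil)))) .nil)) (.node .leaf (nat_lit 2764392456076550) (.br (nat_lit 0) (.cons (.br (nat_lit 3) (.cons (.rel (nat_lit 541392897)) (.cons (.rel (nat_lit 273023040)) .nil))) .nil)) .leaf)) (nat_lit 2764392456076574) (.br (nat_lit 0) (.cons (.br (nat_lit 3) (.cons (.rel (nat_lit 272629794)) (.cons (.rel (nat_lit 273023040)) (.cons (.rel (nat_lit 272711937)) .nil)))) .nil)) (.node (.node .leaf (nat_lit 2764392457236506) (.br (nat_lit 0) (.cons (.br (nat_lit 1) (.cons (.rel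 (nat_lit 25236504)) .nil)) .nil)) .leaf) (nat_lit 2764392457237136) (.br (nat_lit 0) (.cons (.br (nat_lit 1) (.cons (.rel (nat_lit 37765140)) (.cons (.rel (nat_lit 37753872)) (.cons (.rel (nat_lit 25236504)) .nil)))) .nil)) .leaf)) (nat_lit 2764392457237766) (.br (nat_lit 0) (.cons (.br (nat_lit 2) (.cons (.rel (nat_lit 71303178)) (.cons (.rel (nat_lit 71305233)) .nil))) .nil)) (.node (.node (.node .leaf (nat_lit 2764392457237790) (.br (nat_lit 0) (.cons (.br (nat_lit 1) (.cons (.rel (nat_lit 21038208)) .nil)) .nil)) .leaf) (nat_lit 2764392457286288) (.br (nat_lit 0) (.cons (.br (nat_lit 4) (.cons (.rel (nat_lit 1078198545)) .nil)) .nil)) .leaf) (nat_lit 2764392457286918) (.br (nat_lit 0) (.cons (.br (nat_lit 1) (.cons (.rel (nat_lit 21381120)) (.cons (.rel (nat_lit 21234705)) .nil))) .nil)) (.node (.node .leaf (nat_lit 2764392457335440) (.br (nat_lit 0) (.cons (.br (nat_lit 1) (.cons (.rel (nat_lit 20975745)) (.cons (.rel (nat_lit 21233700)) .nil))) .nil)) .leaf)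 (nat_lit 2764393283515024) (.br (nat_lit 0) (.cons (.br (nat_lit 1) (.cons (.rel (nat_lit 25296900)) .nil)) .nil)) .leaf))))))

/-- refutations 41 -/
def e41 : EX := (.node (.node (.node (.node (.node (.node (.node .leaf (nat_lit 2767642817989264) (.br (nat_lit 0) (.cons (.br (nat_lit 5) (.cons (.rel (nat_lit 4299162132)) .nil)) .nil)) .leaf) (nat_lit 2767642819278874) (.br (nat_lit 0) (.cons (.br (nat_lit 3) (.cons (.rel (nat_lit 545259537)) .nil)) .nil)) (.node .leaf (nat_lit 2767642819279504) (.br (nat_lit 3) (.cons (.br (nat_lit 4) (.cons (.rel (nat_lit 1342177305)) .nil)) .nil)) .leaf)) (nat_lit 2767645397486224) (.br (nat_lit 0) (.cons (.br (nat_lit 2) (.cons (.rel (nat_lit 71303178)) .nil)) .nil)) (.node (.node .leaf (nat_lit 2767645398775834) (.br (nat_lit 0) (.cons (.br (nat_lit 2) (.cons (.rel (nat_lit 71303178)) .nil)) .nil)) .leaf) (nat_lit 2767645398776464) (.br (nat_lit 0) (.cons (.br (nat_lit 3) (.cons (.rel (nat_lit 272699664)) .nil)) .nil)) .leaf))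 (nat_lit 2767645931193227) (.br (nat_lit 2) (.cons (.br (nat_lit 3) (.cons (.rel (nat_lit 603980805)) (.cons (.rel (nat_lit 402654225)) .nil))) .nil)) (.node (.node (.node .leaf (nat_lit 2767645932452747) (.br (nat_lit 0) (.cons (.br (nat_lit 3) (.cons (.rel (nat_lit 545259537)) (.cons (.rel (nat_lit 272631813)) .nil))) .nil)) .leaf) (nat_lit 2768642900835854) (.br (nat_lit 0) (.cons (.br (nat_lit 3) (.cons (.rel (nat_lit 272629794)) .nil)) .nil)) (.node .leaf (nat_lit 2768674114323958) (.br (nat_lit 0) (.cons (.br (nat_lit 1) (.cons (.rel (nat_lit 26214528)) .nil)) .nil)) .leaf)) (nat_lit 2769798790957712) (.br (nat_lit 0) (.cons (.br (nat_lit 4) (.cons (.rel (nat_lit 1078202373)) .nil)) .nil)) (.node (.node .leaf (nat_lit 2769798790957736) (.br (nat_lit 1) (.cons (.br (nat_lit 3) (.cons (.rel (nat_lit 570425616)) .nil)) .nil)) .leaf) (nat_lit 2769798790958366) (.br (nat_lit 1) (.cons (.br (nat_lit 3) (.cons (.rel (nat_lit 285217044)) (.cons (.rel (nat_lit 285217044))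 (.cons (.rel (nat_lit 570425616)) .nil)))) .nil)) .leaf))) (nat_lit 2769798791007494) (.br (nat_lit 0) (.cons (.br (nat_lit 1) (.cons (.rel (nat_lit 20975745)) .nil)) .nil)) (.node (.node (.node (.node .leaf (nat_lit 2769798791980318) (.br (nat_lit 0) (.cons (.br (nat_lit 1) (.cons (.rel (nat_lit 41963616)) .nil)) .nil)) .leaf) (nat_lit 2769798792296450) (.br (nat_lit 0) (.cons (.br (nat_lit 4) (.cons (.rel (nat_lit 1082131476)) .nil)) .nil)) (.node .leaf (nat_lit 2769798792297104) (.br (nat_lit 0) (.cons (.br (nat_lit 4) (.cons (.rel (nat_lit 1082147328)) (.cons (.rel (nat_lit 1082132481)) .nil))) (.cons (.br (nat_lit 4) (.cons (.rel (nat_lit 1078215696)) (.cons (.rel (nat_lit 1077956736)) .nil))) .nil))) .leaf)) (nat_lit 2769798792297128) (.br (nat_lit 0) (.cons (.br (nat_lit 1) (.cons (.rel (nat_lit 25166337)) .nil)) .nil)) (.node (.node .leaf (nat_lit 2769798792297758) (.br (nat_lit 0) (.cons (.br (nat_lit 1) (.cons (.rel (nat_lit 21234705)) (.cons (.rel (nat_lit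 21234705)) .nil))) .nil)) .leaf) (nat_lit 2769798793457666) (.br (nat_lit 0) (.cons (.br (nat_lit 1) (.cons (.rel (nat_lit 21234705)) .nil)) .nil)) .leaf)) (nat_lit 2769798793507448) (.br (nat_lit 0) (.cons (.br (nat_lit 1) (.cons (.rel (nat_lit 21234705)) .nil)) .nil)) (.node (.node (.node .leaf (nat_lit 2769798793507472) (.br (nat_lit 1) (.cons (.br (nat_lit 0) (.cons (.rel (nat_lit 21233700)) (.cons (.rel (nat_lit 37748994)) .nil))) .nil)) .leaf) (nat_lit 2769798793508102) (.br (nat_lit 1) (.cons (.br (nat_lit 0) (.cons (.rel (nat_lit 21233700)) (.cons (.rel (nat_lit 20975745)) (.cons (.rel (nat_lit 20975745)) .nil)))) .nil)) (.node .leaf (nat_lit 2769798793508126) (.br (nat_lit 1) (.cons (.br (nat_lit 3) (.cons (.rel (nat_lit 285344784)) (.cons (.rel (nat_lit 285218049)) .nil))) (.cons (.br (nat_lit 3) (.cons (.rel (nat_lit 285217044)) (.cons (.rel (nat_lit 570425616)) .nil))) .nil))) .leaf)) (nat_lit 2769798793555994) (.br (nat_lit 0) (.cons (.br (nat_lit 1) (.cons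 (.rel (nat_lit 25166337)) .nil)) .nil)) (.node (.node .leaf (nat_lit 2769798793557254) (.br (nat_lit 0) (.cons (.br (nat_lit 1) (.cons (.rel (nat_lit 20975745)) .nil)) .nil)) .leaf) (nat_lit 2769798891620984) (.br (nat_lit 0) (.cons (.br (nat_lit 1) (.cons (.rel (nat_lit 23069700)) .nil)) .nil)) .leaf)))) (nat_lit 2769798891621032) (.br (nat_lit 0) (.cons (.br (nat_lit 1) (.cons (.rel (nat_lit 21234705)) .nil)) .nil)) (.node (.node (.node (.node (.node .leaf (nat_lit 2769798891621662) (.br (nat_lit 0) (.cons (.br (nat_lit 6) (.cons (.rel (nat_lit 17188274448)) (.cons (.rel (nat_lit 17188267008)) .nil))) .nil)) .leaf) (nat_lit 2769798891669554) (.br (nat_lit 0) (.cons (.br (nat_lit 1) (.cons (.rel (nat_lit 20971929)) (.cons (.rel (nat_lit 21242112)) .nil))) .nil)) (.node .leaf (nat_lit 2769798891670184) (.br (nat_lit 0) (.cons (.br (nat_lit 1) (.cons (.rel (nat_lit 21242112)) .nil)) .nil)) .leaf)) (nat_lit 2769798892861466) (.br (nat_lit 0) (.cons (.br (nat_lit 1) (.cons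 (.rel (nat_lit 20975745)) (.cons (.br (nat_lit 2) (.cons (.rel (nat_lit 71305233)) (.cons (.rel (nat_lit 83894292)) .nil))) .nil))) (.cons (.br (nat_lit 5) (.cons (.rel (nat_lit 4299163137)) (.cons (.rel (nat_lit 4299162132)) .nil))) .nil))) (.node (.node .leaf (nat_lit 2769798892862096) (.br (nat_lit 0) (.cons (.br (nat_lit 1) (.cons (.br (nat_lit 3) (.cons (.rel (nat_lit 272630808)) (.cons (.rel (nat_lit 285220872)) (.cons (.rel (nat_lit 545259537)) .nil)))) .nil)) .nil)) .leaf) (nat_lit 2769798892862726) (.br (nat_lit 1) (.cons (.br (nat_lit 3) (.cons (.rel (nat_lit 285282321)) (.cons (.rel (nat_lit 285220872)) .nil))) .nil)) .leaf)) (nat_lit 2769798892910618) (.br (nat_lit 0) (.cons (.br (nat_lit 1) (.cons (.rel (nat_lit 21242112)) .nil)) .nil)) (.node (.node (.node .leaf (nat_lit 2769798892911272) (.br (nat_lit 0) (.cons (.br (nat_lit 3) (.cons (.rel (nat_lit 546643968)) .nil)) .nil)) .leaf) (nat_lit 2769798892911902) (.br (nat_lit 0) (.cons (.br (nat_lit 3) (.cons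 (.rel (nat_lit 272630808)) .nil)) .nil)) (.node .leaf (nat_lit 2769798892959794) (.br (nat_lit 0) (.cons (.br (nat_lit 3) (.cons (.rel (nat_lit 545259537)) (.cons (.rel (nat_lit 543178752)) .nil))) .nil)) .leaf)) (nat_lit 2769798892960400) (.br (nat_lit 0) (.cons (.br (nat_lit 3) (.cons (.rel (nat_lit 545259537)) .nil)) .nil)) (.node (.node .leaf (nat_lit 2769798892961054) (.br (nat_lit 0) (.cons (.br (nat_lit 1) (.cons (.rel (nat_lit 21242112)) (.cons (.rel (nat_lit 21381120)) .nil))) .nil)) .leaf) (nat_lit 2769798894121616) (.br (nat_lit 0) (.cons (.br (nat_lit 3) (.cons (.rel (nat_lit 272629794)) (.cons (.rel (nat_lit 272629794)) (.cons (.rel (nat_lit 272629794)) (.cons (.rel (nat_lit 272630808)) .nil))))) .nil)) .leaf))) (nat_lit 2769798894122246) (.br (nat_lit 1) (.cons (.br (nat_lit 2) (.cons (.rel (nat_lit 83894292)) (.cons (.rel (nat_lit 83886600)) (.cons (.rel (nat_lit 83886600)) .nil)))) (.cons (.br (nat_lit 3) (.cons (.rel (nat_lit 302022720)) (.cons (.rel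 (nat_lit 285220872)) (.cons (.rel (nat_lit 285217044)) .nil)))) .nil))) (.node (.node (.node (.node .leaf (nat_lit 2769798894170768) (.br (nat_lit 0) (.cons (.br (nat_lit 1) (.cons (.rel (nat_lit 20975745)) .nil)) .nil)) .leaf) (nat_lit 2769798894170792) (.br (nat_lit 0) (.cons (.br (nat_lit 2) (.cons (.rel (nat_lit 72613908)) (.cons (.rel (nat_lit 71304228)) (.cons (.rel (nat_lit 138678288)) .nil)))) .nil)) (.node .leaf (nat_lit 2769798894171398) (.br (nat_lit 3) (.cons (.br (nat_lit 0) (.cons (.rel (nat_lit 272630808)) (.cons (.rel (nat_lit 272703492)) .nil))) .nil)) .leaf)) (nat_lit 2769798894219314) (.br (nat_lit 0) (.cons (.br (nat_lit 1) (.cons (.rel (nat_lit 21242112)) .nil)) .nil)) (.node (.node .leaf (nat_lit 2769801471117314) (.br (nat_lit 0) (.cons (.br (nat_lit 4) (.cons (.rel (nat_lit 1082131476)) .nil)) .nil)) .leaf) (nat_lit 2769801471117338) (.br (nat_lit 0) (.cons (.br (nat_lit 1) (.cons (.rel (nat_lit 21242112)) .nil)) .nil)) .leaf)) (nat_lit 2769801471117968)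 (.br (nat_lit 4) (.cons (.br (nat_lit 0) (.cons (.rel (nat_lit 1078215696)) (.cons (.rel (nat_lit 2151710976)) .nil))) .nil)) (.node (.node (.node .leaf (nat_lit 2769801471117992) (.br (nat_lit 0) (.cons (.br (nat_lit 1) (.cons (.rel (nat_lit 25166337)) .nil)) .nil)) .leaf) (nat_lit 2769801471118622) (.br (nat_lit 0) (.cons (.br (nat_lit 1) (.cons (.rel (nat_lit 25166337)) (.cons (.rel (nat_lit 21038208)) .nil))) .nil)) .leaf) (nat_lit 2769801471166514) (.br (nat_lit 0) (.cons (.br (nat_lit 1) (.cons (.rel (nat_lit 20971929)) (.cons (.rel (nat_lit 21242112)) .nil))) .nil)) (.node (.node .leaf (nat_lit 2769801471167144) (.br (nat_lit 0) (.cons (.br (nat_lit 1) (.cons (.rel (nat_lit 21242112)) .nil)) .nil)) .leaf) (nat_lit 2769801471167750) (.br (nat_lit 0) (.cons (.br (nat_lit 1) (.cons (.rel (nat_lit 21038208)) .nil)) .nil)) .leaf))))) (nat_lit 2769801472358426) (.br (nat_lit 0) (.cons (.br (nat_lit 2) (.cons (.rel (nat_lit 71305233)) (.cons (.rel (nat_lit 71303178))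 .nil))) .nil)) (.node (.node (.node (.node (.node (.node .leaf (nat_lit 2769801472359686) (.br (nat_lit 0) (.cons (.br (nat_lit 1) (.cons (.rel (nat_lit 37765140)) .nil)) .nil)) .leaf) (nat_lit 2769801472407554) (.br (nat_lit 0) (.cons (.br (nat_lit 1) (.cons (.rel (nat_lit 21242112)) .nil)) .nil)) (.node .leaf (nat_lit 2769801472456706) (.br (nat_lit 0) (.cons (.br (nat_lit 4) (.cons (.rel (nat_lit 2151710976)) .nil)) .nil)) .leaf)) (nat_lit 2769801472456754) (.br (nat_lit 0) (.cons (.br (nat_lit 3) (.cons (.rel (nat_lit 545259537)) (.cons (.rel (nat_lit 276889680)) .nil))) .nil)) (.node (.node .leaf (nat_lit 2769801472457360) (.br (nat_lit 0) (.cons (.br (nat_lit 3) (.cons (.rel (nat_lit 272646660)) (.cons (.rel (nat_lit 272635392)) .nil))) .nil)) .leaf) (nat_lit 2769801472458014) (.br (nat_lit 0) (.cons (.br (nat_lit 4) (.cons (.rel (nat_lit 1082147328)) .nil)) .nil)) .leaf)) (nat_lit 2769801473617922) (.br (nat_lit 1) (.cons (.br (nat_lit 0) (.cons (.rel (nat_lit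 21233700)) (.cons (.rel (nat_lit 25166337)) .nil))) .nil)) (.node (.node (.node .leaf (nat_lit 2769801473618576) (.br (nat_lit 0) (.cons (.br (nat_lit 1) (.cons (.br (nat_lit 2) (.cons (.rel (nat_lit 83886600)) (.cons (.rel (nat_lit 83894292)) (.cons (.rel (nat_lit 83886600)) (.cons (.rel (nat_lit 71305233)) .nil))))) .nil)) .nil)) .leaf) (nat_lit 2769801473619206) (.br (nat_lit 0) (.cons (.br (nat_lit 1) (.cons (.br (nat_lit 3) (.cons (.rel (nat_lit 272631813)) (.cons (.rel (nat_lit 285220872)) (.cons (.rel (nat_lit 545259537)) .nil)))) .nil)) .nil)) (.node .leaf (nat_lit 2769801473619230) (.br (nat_lit 0) (.cons (.br (nat_lit 4) (.cons (.rel (nat_lit 1078215696)) .nil)) .nil)) .leaf)) (nat_lit 2769801473667728) (.br (nat_lit 0) (.cons (.br (nat_lit 4) (.cons (.rel (nat_lit 1078198545)) .nil)) .nil)) (.node (.node .leaf (nat_lit 2769801473717510) (.br (nat_lit 0) (.cons (.br (nat_lit 3) (.cons (.rel (nat_lit 545259537)) .nil)) .nil)) .leaf) (nat_lit 2769803912202242)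 (.br (nat_lit 0) (.cons (.br (nat_lit 1) (.cons (.rel (nat_lit 41975889)) .nil)) .nil)) .leaf))) (nat_lit 2769803912202896) (.br (nat_lit 0) (.cons (.br (nat_lit 4) (.cons (.rel (nat_lit 2151710976)) .nil)) .nil)) (.node (.node (.node (.node .leaf (nat_lit 2769803912251394) (.br (nat_lit 0) (.cons (.br (nat_lit 4) (.cons (.rel (nat_lit 1077956736)) .nil)) .nil)) .leaf) (nat_lit 2769803912251442) (.br (nat_lit 0) (.cons (.br (nat_lit 1) (.cons (.rel (nat_lit 21381120)) .nil)) .nil)) (.node .leaf (nat_lit 2769803913443330) (.br (nat_lit 0) (.cons (.br (nat_lit 4) (.cons (.rel (nat_lit 1082132481)) .nil)) .nil)) .leaf)) (nat_lit 2769803913443354) (.br (nat_lit 0) (.cons (.br (nat_lit 3) (.cons (.rel (nat_lit 272630808)) .nil)) .nil)) (.node (.node .leaf (nat_lit 2769803913443378) (.br (nat_lit 0) (.cons (.br (nat_lit 3) (.cons (.rel (nat_lit 541392897)) .nil)) .nil)) .leaf) (nat_lit 2769803913443960) (.br (nat_lit 0) (.cons (.br (nat_lit 3) (.cons (.rel (nat_lit 541392897))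 .nil)) .nil)) .leaf)) (nat_lit 2769803913443984) (.br (nat_lit 0) (.cons (.br (nat_lit 1) (.cons (.rel (nat_lit 25296900)) .nil)) .nil)) (.node (.node (.node .leaf (nat_lit 2769803913444638) (.br (nat_lit 0) (.cons (.br (nat_lit 1) (.cons (.rel (nat_lit 37748994)) .nil)) .nil)) .leaf) (nat_lit 2769803913492506) (.br (nat_lit 1) (.cons (.br (nat_lit 0) (.cons (.rel (nat_lit 21242112)) (.cons (.rel (nat_lit 25166337)) .nil))) .nil)) .leaf) (nat_lit 2769803913492530) (.br (nat_lit 3) (.cons (.br (nat_lit 0) (.cons (.rel (nat_lit 545259537)) (.cons (.rel (nat_lit 272629794)) .nil))) .nil)) (.node (.node .leaf (nat_lit 2769803913541634) (.br (nat_lit 4) (.cons (.br (nat_lit 0) (.cons (.rel (nat_lit 2151710976)) (.cons (.rel (nat_lit 2151678978)) (.cons (.rel (nat_lit 1078264836)) .nil)))) .nil)) .leaf) (nat_lit 2769803913541658) (.br (nat_lit 0) (.cons (.br (nat_lit 3) (.cons (.rel (nat_lit 541392897)) .nil)) .nil)) .leaf)))) (nat_lit 2769803913542288) (.br (nat_lit 4)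 (.cons (.br (nat_lit 0) (.cons (.rel (nat_lit 1078198545)) (.cons (.rel (nat_lit 1078215696)) .nil))) .nil)) (.node (.node (.node (.node (.node .leaf (nat_lit 2769803913542894) (.br (nat_lit 0) (.cons (.br (nat_lit 1) (.cons (.rel (nat_lit 20975745)) .nil)) .nil)) .leaf) (nat_lit 2769803913542942) (.br (nat_lit 0) (.cons (.br (nat_lit 1) (.cons (.rel (nat_lit 25166337)) .nil)) .nil)) (.node .leaf (nat_lit 2769803914702850) (.br (nat_lit 0) (.cons (.br (nat_lit 1) (.cons (.rel (nat_lit 21233700)) .nil)) .nil)) .leaf)) (nat_lit 2769803914703504) (.br (nat_lit 0) (.cons (.br (nat_lit 1) (.cons (.rel (nat_lit 37753872)) .nil)) .nil)) (.node (.node .leaf (nat_lit 2769804113528858) (.br (nat_lit 0) (.cons (.br (nat_lit 1) (.cons (.rel (nat_lit 21242112)) .nil)) .nil)) .leaf) (nat_lit 2769804113529464) (.br (nat_lit 0) (.cons (.br (nat_lit 1) (.cons (.rel (nat_lit 23069700)) .nil)) .nil)) .leaf)) (nat_lit 2769804113578640) (.br (nat_lit 0) (.cons (.br (nat_lit 3) (.cons (.rel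 (nat_lit 545259537)) .nil)) .nil)) (.node (.node (.node .leaf (nat_lit 2769804114769922) (.br (nat_lit 0) (.cons (.br (nat_lit 1) (.cons (.rel (nat_lit 25166337)) .nil)) .nil)) .leaf) (nat_lit 2769804114769946) (.br (nat_lit 0) (.cons (.br (nat_lit 3) (.cons (.rel (nat_lit 272629794)) (.cons (.rel (nat_lit 272629794)) .nil))) .nil)) (.node .leaf (nat_lit 2769804114770576) (.br (nat_lit 0) (.cons (.br (nat_lit 1) (.cons (.br (nat_lit 3) (.cons (.rel (nat_lit 545259537)) (.cons (.rel (nat_lit 285220872)) (.cons (.rel (nat_lit 272635392)) .nil)))) .nil)) .nil)) .leaf)) (nat_lit 2769804114771206) (.br (nat_lit 0) (.cons (.br (nat_lit 3) (.cons (.rel (nat_lit 545259537)) .nil)) .nil)) (.node (.node .leaf (nat_lit 2769804114819074) (.br (nat_lit 1) (.cons (.br (nat_lit 0) (.cons (.rel (nat_lit 21242112)) (.cons (.br (nat_lit 3) (.cons (.rel (nat_lit 541392897)) (.cons (.rel (nat_lit 285213216)) .nil))) .nil))) .nil)) .leaf) (nat_lit 2769804114819098) (.br (nat_lit 0) (.cons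 (.br (nat_lit 3) (.cons (.rel (nat_lit 272703492)) .nil)) .nil)) .leaf))) (nat_lit 2769804114819122) (.br (nat_lit 0) (.cons (.br (nat_lit 1) (.cons (.rel (nat_lit 37748994)) (.cons (.rel (nat_lit 25166337)) .nil))) (.cons (.br (nat_lit 1) (.cons (.rel (nat_lit 21233700)) (.cons (.rel (nat_lit 25166337)) .nil))) .nil))) (.node (.node (.node (.node .leaf (nat_lit 2769804114819704) (.br (nat_lit 0) (.cons (.br (nat_lit 4) (.cons (.rel (nat_lit 2151677973)) .nil)) .nil)) .leaf) (nat_lit 2769804114820382) (.br (nat_lit 0) (.cons (.br (nat_lit 1) (.cons (.rel (nat_lit 37748994)) .nil)) .nil)) (.node .leaf (nat_lit 2769804114868250) (.br (nat_lit 0) (.cons (.br (nat_lit 1) (.cons (.rel (nat_lit 25166337)) .nil)) .nil)) .leaf)) (nat_lit 2769804114868274) (.br (nat_lit 0) (.cons (.br (nat_lit 3) (.cons (.rel (nat_lit 272629794)) (.cons (.rel (nat_lit 541392897)) (.cons (.rel (nat_lit 273023040)) .nil)))) .nil)) (.node (.node .leaf (nat_lit 2769804114868904) (.br (nat_lit 0)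 (.cons (.br (nat_lit 3) (.cons (.rel (nat_lit 541392897)) (.cons (.rel (nat_lit 272629794)) .nil))) .nil)) .leaf) (nat_lit 2769804114869510) (.br (nat_lit 0) (.cons (.br (nat_lit 1) (.cons (.rel (nat_lit 21234705)) (.cons (.rel (nat_lit 21233700)) .nil))) .nil)) .leaf)) (nat_lit 2769804114869534) (.br (nat_lit 0) (.cons (.br (nat_lit 3) (.cons (.rel (nat_lit 272629794)) (.cons (.rel (nat_lit 273023040)) .nil))) .nil)) (.node (.node (.node .leaf (nat_lit 2769804116030096) (.br (nat_lit 0) (.cons (.br (nat_lit 1) (.cons (.rel (nat_lit 37753872)) .nil)) .nil)) .leaf) (nat_lit 2769804116030726) (.br (nat_lit 0) (.cons (.br (nat_lit 1) (.cons (.rel (nat_lit 23069700)) .nil)) .nil)) .leaf) (nat_lit 2769804116079248) (.br (nat_lit 1) (.cons (.br (nat_lit 0) (.cons (.rel (nat_lit 21242112)) (.cons (.rel (nat_lit 20975745)) .nil))) .nil)) (.node (.node .leaf (nat_lit 2769804116079878) (.br (nat_lit 3) (.cons (.br (nat_lit 0) (.cons (.rel (nat_lit 272699664)) (.cons (.rel (nat_lit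 545259537)) .nil))) .nil)) .leaf) (nat_lit 2773025844671144) (.br (nat_lit 0) (.cons (.br (nat_lit 1) (.cons (.rel (nat_lit 37748994)) .nil)) .nil)) .leaf))))))

/-- refutations 42 -/
def e42 : EX := (.node (.node (.node (.node (.node (.node (.node (.node .leaf (nat_lit 2773845254948342) (.br (nat_lit 0) (.cons (.br (nat_lit 6) (.cons (.rel (nat_lit 17186160660)) .nil)) .nil)) .leaf) (nat_lit 2773850478145663) (.br (nat_lit 0) (.cons (.br (nat_lit 1) (.cons (.rel (nat_lit 21381120)) .nil)) .nil)) .leaf) (nat_lit 2774949989773439) (.br (nat_lit 2) (.cons (.br (nat_lit 3) (.cons (.br (nat_lit 5) (.cons (.rel (nat_lit 4564467714)) .nil)) .nil)) .nil)) (.node (.node .leaf (nat_lit 2775081500018690) (.br (nat_lit 0) (.cons (.br (nat_lit 1) (.cons (.rel (nat_lit 21233700)) (.cons (.rel (nat_lit 21233700)) .nil))) .nil)) .leaf) (nat_lit 2775081500019974) (.br (nat_lit 0) (.cons (.br (nat_lit 1) (.cons (.rel (nat_lit 25247760)) .nil)) .nil)) .leaf)) (nat_lit 2775081500069102)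 (.br (nat_lit 0) (.cons (.br (nat_lit 1) (.cons (.rel (nat_lit 25166337)) .nil)) .nil)) (.node (.node (.node .leaf (nat_lit 2775081500069150) (.br (nat_lit 0) (.cons (.br (nat_lit 1) (.cons (.rel (nat_lit 25166337)) .nil)) .nil)) .leaf) (nat_lit 2775081500118302) (.br (nat_lit 1) (.cons (.br (nat_lit 5) (.cons (.rel (nat_lit 8606974224)) .nil)) .nil)) .leaf) (nat_lit 2775081501310190) (.br (nat_lit 0) (.cons (.br (nat_lit 1) (.cons (.rel (nat_lit 21233700)) .nil)) .nil)) (.node (.node .leaf (nat_lit 2775081501358130) (.br (nat_lit 0) (.cons (.br (nat_lit 1) (.cons (.rel (nat_lit 25166337)) .nil)) .nil)) .leaf) (nat_lit 2775081501359390) (.br (nat_lit 0) (.cons (.br (nat_lit 1) (.cons (.rel (nat_lit 25166337)) .nil)) .nil)) .leaf))) (nat_lit 2775081501407258) (.br (nat_lit 0) (.cons (.br (nat_lit 1) (.cons (.rel (nat_lit 25166337)) .nil)) .nil)) (.node (.node (.node (.node .leaf (nat_lit 2775081502666802) (.br (nat_lit 1) (.cons (.br (nat_lit 0) (.cons (.rel (nat_lit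 25166337)) (.cons (.rel (nat_lit 25247760)) .nil))) .nil)) .leaf) (nat_lit 2775081600682010) (.br (nat_lit 0) (.cons (.br (nat_lit 1) (.cons (.rel (nat_lit 37766145)) .nil)) .nil)) .leaf) (nat_lit 2775081600683246) (.br (nat_lit 0) (.cons (.br (nat_lit 6) (.cons (.rel (nat_lit 17184129168)) .nil)) .nil)) (.node (.node .leaf (nat_lit 2775081600731138) (.br (nat_lit 0) (.cons (.br (nat_lit 1) (.cons (.rel (nat_lit 22024512)) .nil)) .nil)) .leaf) (nat_lit 2775081600731816) (.br (nat_lit 0) (.cons (.br (nat_lit 1) (.cons (.rel (nat_lit 37814280)) .nil)) .nil)) .leaf)) (nat_lit 2775081600732446) (.br (nat_lit 1) (.cons (.br (nat_lit 0) (.cons (.rel (nat_lit 37748994)) (.cons (.rel (nat_lit 21242112)) (.cons (.rel (nat_lit 37753872)) .nil)))) (.cons (.br (nat_lit 3) (.cons (.rel (nat_lit 285280512)) (.cons (.rel (nat_lit 285217044)) (.cons (.rel (nat_lit 570425616)) .nil)))) .nil))) (.node (.node (.node .leaf (nat_lit 2775081601754398) (.br (nat_lit 2) (.cons (.br (nat_lit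 1) (.cons (.rel (nat_lit 83919888)) (.cons (.rel (nat_lit 167772420)) .nil))) .nil)) .leaf) (nat_lit 2775081601973486) (.br (nat_lit 0) (.cons (.br (nat_lit 1) (.cons (.rel (nat_lit 21242112)) (.cons (.rel (nat_lit 21242112)) .nil))) .nil)) .leaf) (nat_lit 2775081601973534) (.br (nat_lit 0) (.cons (.br (nat_lit 1) (.cons (.rel (nat_lit 37766145)) .nil)) .nil)) (.node .leaf (nat_lit 2775081602021402) (.br (nat_lit 0) (.cons (.br (nat_lit 1) (.cons (.rel (nat_lit 25168404)) .nil)) .nil)) .leaf)))) (nat_lit 2775081602021426) (.br (nat_lit 0) (.cons (.br (nat_lit 3) (.cons (.rel (nat_lit 276825408)) .nil)) .nil)) (.node (.node (.node (.node (.node .leaf (nat_lit 2775081602070530) (.br (nat_lit 1) (.cons (.br (nat_lit 5) (.cons (.rel (nat_lit 4328538192)) (.cons (.rel (nat_lit 4311745794)) .nil))) .nil)) .leaf) (nat_lit 2775081602071184) (.br (nat_lit 1) (.cons (.br (nat_lit 0) (.cons (.rel (nat_lit 21233700)) (.cons (.rel (nat_lit 21242112)) .nil))) .nil)) .leaf) (nat_lit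 2775081602071814) (.br (nat_lit 3) (.cons (.br (nat_lit 1) (.cons (.rel (nat_lit 285217044)) (.cons (.rel (nat_lit 285217044)) .nil))) .nil)) (.node (.node .leaf (nat_lit 2775081602071838) (.br (nat_lit 1) (.cons (.br (nat_lit 5) (.cons (.rel (nat_lit 8623505664)) .nil)) .nil)) .leaf) (nat_lit 2775081602986121) (.br (nat_lit 2) (.cons (.br (nat_lit 5) (.cons (.rel (nat_lit 8657044752)) .nil)) .nil)) .leaf)) (nat_lit 2775081602987294) (.br (nat_lit 6) (.cons (.br (nat_lit 0) (.cons (.rel (nat_lit 17184407808)) (.cons (.rel (nat_lit 17184407808)) .nil))) .nil)) (.node (.node (.node .leaf (nat_lit 2775081603281528) (.br (nat_lit 0) (.cons (.br (nat_lit 1) (.cons (.rel (nat_lit 37748994)) .nil)) .nil)) .leaf) (nat_lit 2775081603281552) (.br (nat_lit 0) (.cons (.br (nat_lit 5) (.cons (.rel (nat_lit 4299163137)) .nil)) .nil)) .leaf) (nat_lit 2775081603281576) (.br (nat_lit 3) (.cons (.br (nat_lit 4) (.cons (.rel (nat_lit 1342179360)) .nil)) .nil)) (.node .leaf (nat_lit 2775081603282182)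 (.br (nat_lit 1) (.cons (.br (nat_lit 2) (.cons (.rel (nat_lit 83894292)) (.cons (.rel (nat_lit 167772420)) (.cons (.rel (nat_lit 83886600)) .nil)))) .nil)) .leaf))) (nat_lit 2775081603282206) (.br (nat_lit 0) (.cons (.br (nat_lit 4) (.cons (.rel (nat_lit 1078002048)) (.cons (.rel (nat_lit 1077956736)) .nil))) (.cons (.br (nat_lit 4) (.cons (.rel (nat_lit 1078202373)) (.cons (.rel (nat_lit 1078198545)) .nil))) .nil))) (.node (.node (.node (.node .leaf (nat_lit 2775081603330074) (.br (nat_lit 0) (.cons (.br (nat_lit 3) (.cons (.rel (nat_lit 276889680)) .nil)) .nil)) .leaf) (nat_lit 2775081603331334) (.br (nat_lit 0) (.cons (.br (nat_lit 3) (.cons (.rel (nat_lit 545259537)) (.cons (.rel (nat_lit 276889680)) .nil))) .nil)) .leaf) (nat_lit 2775081701129478) (.br (nat_lit 1) (.cons (.br (nat_lit 3) (.cons (.rel (nat_lit 285217044)) .nil)) .nil)) (.node (.node .leaf (nat_lit 2775081701345936) (.br (nat_lit 1) (.cons (.br (nat_lit 3) (.cons (.rel (nat_lit 553664640)) .nil))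 .nil)) .leaf) (nat_lit 2775081701345960) (.br (nat_lit 0) (.cons (.br (nat_lit 1) (.cons (.rel (nat_lit 20975745)) .nil)) .nil)) .leaf)) (nat_lit 2775081701346566) (.br (nat_lit 0) (.cons (.br (nat_lit 2) (.cons (.rel (nat_lit 71304228)) (.cons (.rel (nat_lit 72614913)) (.cons (.rel (nat_lit 71320080)) .nil)))) .nil)) (.node (.node (.node .leaf (nat_lit 2775081701395694) (.br (nat_lit 0) (.cons (.br (nat_lit 1) (.cons (.rel (nat_lit 21381120)) .nil)) .nil)) .leaf) (nat_lit 2775081702635546) (.br (nat_lit 1) (.cons (.br (nat_lit 5) (.cons (.rel (nat_lit 4311745794)) (.cons (.rel (nat_lit 4311750672)) (.cons (.rel (nat_lit 4328538192)) .nil)))) .nil)) .leaf) (nat_lit 2775081702636176) (.br (nat_lit 1) (.cons (.br (nat_lit 3) (.cons (.rel (nat_lit 285220872)) (.cons (.rel (nat_lit 285217044)) .nil))) .nil)) (.node .leaf (nat_lit 2775081702636782) (.br (nat_lit 3) (.cons (.br (nat_lit 0) (.cons (.rel (nat_lit 273023040)) (.cons (.rel (nat_lit 272630808)) .nil))) .nil))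 .leaf))))) (nat_lit 2775081702636806) (.br (nat_lit 0) (.cons (.br (nat_lit 1) (.cons (.rel (nat_lit 21381120)) (.cons (.rel (nat_lit 21234705)) .nil))) (.cons (.br (nat_lit 3) (.cons (.rel (nat_lit 545259537)) (.cons (.rel (nat_lit 272629794)) (.cons (.rel (nat_lit 273023040)) .nil)))) .nil))) (.node (.node (.node (.node (.node (.node .leaf (nat_lit 2775081702636830) (.br (nat_lit 1) (.cons (.br (nat_lit 0) (.cons (.rel (nat_lit 21233700)) (.cons (.rel (nat_lit 21381120)) .nil))) .nil)) .leaf) (nat_lit 2775081702684698) (.br (nat_lit 0) (.cons (.br (nat_lit 1) (.cons (.rel (nat_lit 21242112)) .nil)) .nil)) .leaf) (nat_lit 2775081702733826) (.br (nat_lit 0) (.cons (.br (nat_lit 1) (.cons (.rel (nat_lit 43024656)) .nil)) .nil)) (.node (.node .leaf (nat_lit 2775081702733874) (.br (nat_lit 0) (.cons (.br (nat_lit 1) (.cons (.rel (nat_lit 21242112)) .nil)) .nil)) .leaf) (nat_lit 2775081702734504) (.br (nat_lit 0) (.cons (.br (nat_lit 1) (.cons (.rel (nat_lit 21242112))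 .nil)) .nil)) .leaf)) (nat_lit 2775081702735110) (.br (nat_lit 0) (.cons (.br (nat_lit 3) (.cons (.rel (nat_lit 272630808)) .nil)) .nil)) (.node (.node (.node .leaf (nat_lit 2775081702735134) (.br (nat_lit 0) (.cons (.br (nat_lit 1) (.cons (.rel (nat_lit 21381120)) .nil)) .nil)) .leaf) (nat_lit 2775081703650566) (.br (nat_lit 1) (.cons (.br (nat_lit 2) (.cons (.rel (nat_lit 83894292)) .nil)) .nil)) .leaf) (nat_lit 2775081703944848) (.br (nat_lit 0) (.cons (.br (nat_lit 1) (.cons (.rel (nat_lit 25166337)) .nil)) .nil)) (.node .leaf (nat_lit 2775081703945478) (.br (nat_lit 1) (.cons (.br (nat_lit 0) (.cons (.rel (nat_lit 21242112)) (.cons (.rel (nat_lit 21233700)) .nil))) .nil)) .leaf))) (nat_lit 2775081703993394) (.br (nat_lit 0) (.cons (.br (nat_lit 4) (.cons (.rel (nat_lit 2151678978)) .nil)) .nil)) (.node (.node (.node (.node .leaf (nat_lit 2775081703994654) (.br (nat_lit 0) (.cons (.br (nat_lit 4) (.cons (.rel (nat_lit 2151678978)) .nil)) .nil)) .leaf) (nat_lit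 2775084280842266) (.br (nat_lit 0) (.cons (.br (nat_lit 1) (.cons (.br (nat_lit 3) (.cons (.rel (nat_lit 545259537)) (.cons (.rel (nat_lit 285220872)) (.cons (.rel (nat_lit 272635392)) (.cons (.rel (nat_lit 272729088)) (.cons (.rel (nat_lit 545259537)) .nil)))))) (.cons (.rel (nat_lit 37753872)) .nil))) .nil)) .leaf) (nat_lit 2775084280842896) (.br (nat_lit 1) (.cons (.br (nat_lit 0) (.cons (.rel (nat_lit 37753872)) (.cons (.rel (nat_lit 37748994)) .nil))) .nil)) (.node (.node .leaf (nat_lit 2775084280843502) (.br (nat_lit 1) (.cons (.br (nat_lit 5) (.cons (.rel (nat_lit 4311744789)) (.cons (.rel (nat_lit 4312006752)) .nil))) .nil)) .leaf) (nat_lit 2775084280843526) (.br (nat_lit 0) (.cons (.br (nat_lit 3) (.cons (.rel (nat_lit 545259537)) (.cons (.rel (nat_lit 272729088)) (.cons (.rel (nat_lit 272629794)) (.cons (.rel (nat_lit 272629794)) .nil))))) .nil)) .leaf)) (nat_lit 2775084280891394) (.br (nat_lit 0) (.cons (.br (nat_lit 3) (.cons (.rel (nat_lit 273023040))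 (.cons (.rel (nat_lit 272629794)) (.cons (.rel (nat_lit 541392897)) .nil)))) .nil)) (.node (.node (.node .leaf (nat_lit 2775084280891418) (.br (nat_lit 1) (.cons (.br (nat_lit 3) (.cons (.rel (nat_lit 570425616)) .nil)) .nil)) .leaf) (nat_lit 2775084280892654) (.br (nat_lit 1) (.cons (.br (nat_lit 3) (.cons (.br (nat_lit 0) (.cons (.rel (nat_lit 541392897)) (.cons (.rel (nat_lit 37748994)) .nil))) .nil)) .nil)) .leaf) (nat_lit 2775084280892702) (.br (nat_lit 1) (.cons (.br (nat_lit 5) (.cons (.br (nat_lit 0) (.cons (.rel (nat_lit 25166337)) (.cons (.rel (nat_lit 4304470020)) .nil))) .nil)) .nil)) (.node .leaf (nat_lit 2775084280940594) (.br (nat_lit 0) (.cons (.br (nat_lit 3) (.cons (.rel (nat_lit 272629794)) (.cons (.rel (nat_lit 541392897)) .nil))) .nil)) .leaf)))) (nat_lit 2775084280941224) (.br (nat_lit 0) (.cons (.br (nat_lit 1) (.cons (.rel (nat_lit 20975745)) .nil)) .nil)) (.node (.node (.node (.node (.node .leaf (nat_lit 2775084280941830) (.br (nat_lit 0) (.cons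 (.br (nat_lit 1) (.cons (.rel (nat_lit 25166337)) .nil)) .nil)) .leaf) (nat_lit 2775084280941854) (.br (nat_lit 0) (.cons (.br (nat_lit 3) (.cons (.rel (nat_lit 273023040)) (.cons (.rel (nat_lit 272629794)) (.cons (.rel (nat_lit 541392897)) .nil)))) .nil)) .leaf) (nat_lit 2775084282133790) (.br (nat_lit 0) (.cons (.br (nat_lit 1) (.cons (.rel (nat_lit 21038208)) .nil)) .nil)) (.node (.node .leaf (nat_lit 2775084282181634) (.br (nat_lit 0) (.cons (.br (nat_lit 1) (.cons (.rel (nat_lit 21242112)) .nil)) .nil)) .leaf) (nat_lit 2775084282230786) (.br (nat_lit 0) (.cons (.br (nat_lit 1) (.cons (.rel (nat_lit 21233700)) (.cons (.rel (nat_lit 37748994)) .nil))) .nil)) .leaf)) (nat_lit 2775084282231440) (.br (nat_lit 0) (.cons (.br (nat_lit 1) (.cons (.rel (nat_lit 41944656)) (.cons (.rel (nat_lit 20975745)) .nil))) (.cons (.br (nat_lit 1) (.cons (.rel (nat_lit 21242112)) (.cons (.rel (nat_lit 21233700)) .nil))) .nil))) (.node (.node (.node .leaf (nat_lit 2775084282232046)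 (.br (nat_lit 0) (.cons (.br (nat_lit 1) (.cons (.rel (nat_lit 21233700)) .nil)) .nil)) .leaf) (nat_lit 2775084283441808) (.br (nat_lit 2) (.cons (.br (nat_lit 5) (.cons (.rel (nat_lit 8657044752)) .nil)) .nil)) .leaf) (nat_lit 2775084283442438) (.br (nat_lit 0) (.cons (.br (nat_lit 3) (.cons (.rel (nat_lit 272635392)) .nil)) .nil)) (.node .leaf (nat_lit 2775086923253762) (.br (nat_lit 0) (.cons (.br (nat_lit 1) (.cons (.rel (nat_lit 25166337)) (.cons (.rel (nat_lit 21233700)) .nil))) .nil)) .leaf))) (nat_lit 2775086923253786) (.br (nat_lit 0) (.cons (.br (nat_lit 2) (.cons (.rel (nat_lit 139460688)) (.cons (.rel (nat_lit 71305233)) (.cons (.rel (nat_lit 71320080)) (.cons (.rel (nat_lit 142606341)) .nil))))) (.cons (.br (nat_lit 5) (.cons (.rel (nat_lit 4299163137)) (.cons (.br (nat_lit 3) (.cons (.rel (nat_lit 8858386464)) (.cons (.rel (nat_lit 545259537)) (.cons (.rel (nat_lit 545259537)) (.cons (.rel (nat_lit 272630808)) .nil))))) .nil))) .nil))) (.node (.node (.node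 (.node .leaf (nat_lit 2775086923254392) (.br (nat_lit 0) (.cons (.br (nat_lit 1) (.cons (.rel (nat_lit 37748994)) (.cons (.rel (nat_lit 21233700)) .nil))) .nil)) .leaf) (nat_lit 2775086923254416) (.br (nat_lit 0) (.cons (.br (nat_lit 1) (.cons (.rel (nat_lit 21038208)) .nil)) .nil)) .leaf) (nat_lit 2775086923254440) (.br (nat_lit 3) (.cons (.br (nat_lit 0) (.cons (.br (nat_lit 5) (.cons (.rel (nat_lit 4299163137)) (.cons (.rel (nat_lit 8858386464)) .nil))) (.cons (.rel (nat_lit 543178752)) .nil))) .nil)) (.node (.node .leaf (nat_lit 2775086923255046) (.br (nat_lit 0) (.cons (.br (nat_lit 2) (.cons (.rel (nat_lit 142606341)) (.cons (.rel (nat_lit 71320080)) (.cons (.rel (nat_lit 71312640)) .nil)))) (.cons (.br (nat_lit 1) (.cons (.br (nat_lit 2) (.cons (.rel (nat_lit 71305233)) (.cons (.rel (nat_lit 83894292)) (.cons (.rel (nat_lit 71320080)) .nil)))) (.cons (.rel (nat_lit 21233700)) (.cons (.rel (nat_lit 21038208)) .nil)))) .nil))) .leaf) (nat_lit 2775086923302962)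 (.br (nat_lit 0) (.cons (.br (nat_lit 1) (.cons (.rel (nat_lit 37766145)) (.cons (.rel (nat_lit 41944656)) .nil))) .nil)) .leaf)) (nat_lit 2775086923352720) (.br (nat_lit 0) (.cons (.br (nat_lit 1) (.cons (.rel (nat_lit 21234705)) .nil)) .nil)) (.node (.node (.node .leaf (nat_lit 2775086924544002) (.br (nat_lit 0) (.cons (.br (nat_lit 3) (.cons (.rel (nat_lit 272629794)) .nil)) .nil)) .leaf) (nat_lit 2775086924544026) (.br (nat_lit 1) (.cons (.br (nat_lit 5) (.cons (.rel (nat_lit 4311750672)) (.cons (.rel (nat_lit 4311750672)) (.cons (.rel (nat_lit 4328538192)) .nil)))) .nil)) .leaf) (nat_lit 2775086924544656) (.br (nat_lit 0) (.cons (.br (nat_lit 1) (.cons (.br (nat_lit 5) (.cons (.rel (nat_lit 4299180288)) (.cons (.rel (nat_lit 4328538192)) .nil))) .nil)) .nil)) (.node .leaf (nat_lit 2775086924545286) (.br (nat_lit 0) (.cons (.br (nat_lit 1) (.cons (.rel (nat_lit 20975745)) (.cons (.rel (nat_lit 37753872)) .nil))) .nil)) .leaf)))))) (nat_lit 2775086924593154) (.br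 (nat_lit 0) (.cons (.br (nat_lit 1) (.cons (.rel (nat_lit 21381120)) (.cons (.rel (nat_lit 21242112)) .nil))) (.cons (.br (nat_lit 3) (.cons (.rel (nat_lit 541392897)) (.cons (.rel (nat_lit 545259537)) (.cons (.rel (nat_lit 272629794)) .nil)))) .nil))) (.node (.node (.node (.node (.node (.node (.node .leaf (nat_lit 2775086924593178) (.br (nat_lit 1) (.cons (.br (nat_lit 0) (.cons (.rel (nat_lit 21242112)) (.cons (.rel (nat_lit 37748994)) .nil))) .nil)) .leaf) (nat_lit 2775086924593202) (.br (nat_lit 0) (.cons (.br (nat_lit 1) (.cons (.rel (nat_lit 37748994)) (.cons (.rel (nat_lit 25166337)) .nil))) .nil)) .leaf) (nat_lit 2775086924593784) (.br (nat_lit 0) (.cons (.br (nat_lit 3) (.cons (.rel (nat_lit 541392897)) (.cons (.rel (nat_lit 273023040)) .nil))) .nil)) (.node (.node .leaf (nat_lit 2775086924594414) (.br (nat_lit 0) (.cons (.br (nat_lit 1) (.cons (.rel (nat_lit 25166337)) .nil)) .nil)) .leaf) (nat_lit 2775086924594462) (.br (nat_lit 0) (.cons (.br (nat_lit 1)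 (.cons (.rel (nat_lit 25168404)) .nil)) .nil)) .leaf)) (nat_lit 2775086924642306) (.br (nat_lit 0) (.cons (.br (nat_lit 3) (.cons (.rel (nat_lit 272631813)) .nil)) .nil)) (.node (.node (.node .leaf (nat_lit 2775086924642330) (.br (nat_lit 0) (.cons (.br (nat_lit 3) (.cons (.rel (nat_lit 272666625)) .nil)) .nil)) .leaf) (nat_lit 2775086924642354) (.br (nat_lit 0) (.cons (.br (nat_lit 1) (.cons (.rel (nat_lit 21242112)) .nil)) .nil)) .leaf) (nat_lit 2775086924642984) (.br (nat_lit 0) (.cons (.br (nat_lit 1) (.cons (.rel (nat_lit 21242112)) .nil)) .nil)) (.node (.node .leaf (nat_lit 2775086924643590) (.br (nat_lit 0) (.cons (.br (nat_lit 3) (.cons (.rel (nat_lit 272703492)) (.cons (.rel (nat_lit 272729088)) .nil))) .nil)) .leaf) (nat_lit 2775086925853328) (.br (nat_lit 0) (.cons (.br (nat_lit 1) (.cons (.rel (nat_lit 21234705)) .nil)) .nil)) .leaf))) (nat_lit 2775086925853958) (.br (nat_lit 1) (.cons (.br (nat_lit 5) (.cons (.rel (nat_lit 4311750672)) .nil)) .nil)) (.node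 (.node (.node (.node .leaf (nat_lit 2775086925901874) (.br (nat_lit 0) (.cons (.br (nat_lit 4) (.cons (.rel (nat_lit 2151678978)) .nil)) .nil)) .leaf) (nat_lit 2775086925902456) (.br (nat_lit 0) (.cons (.br (nat_lit 1) (.cons (.rel (nat_lit 21234705)) (.cons (.rel (nat_lit 23069700)) .nil))) .nil)) .leaf) (nat_lit 2775086925902480) (.br (nat_lit 0) (.cons (.br (nat_lit 1) (.cons (.rel (nat_lit 25166337)) .nil)) .nil)) (.node (.node .leaf (nat_lit 2775086925903134) (.br (nat_lit 0) (.cons (.br (nat_lit 4) (.cons (.rel (nat_lit 2151678978)) .nil)) .nil)) .leaf) (nat_lit 2775287658450182) (.br (nat_lit 0) (.cons (.br (nat_lit 1) (.cons (.rel (nat_lit 37765140)) .nil)) .nil)) .leaf)) (nat_lit 2775287658499310) (.br (nat_lit 0) (.cons (.br (nat_lit 3) (.cons (.rel (nat_lit 545259537)) .nil)) .nil)) (.node (.node (.node .leaf (nat_lit 2775287658548486) (.br (nat_lit 0) (.cons (.br (nat_lit 1) (.cons (.rel (nat_lit 21233700)) .nil)) .nil)) .leaf) (nat_lit 2775287660998658)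 (.br (nat_lit 0) (.cons (.br (nat_lit 1) (.cons (.rel (nat_lit 21233700)) .nil)) .nil)) .leaf) (nat_lit 2775287759112218) (.br (nat_lit 0) (.cons (.br (nat_lit 3) (.cons (.rel (nat_lit 272630808)) .nil)) .nil)) (.node .leaf (nat_lit 2775287759161346) (.br (nat_lit 0) (.cons (.br (nat_lit 1) (.cons (.rel (nat_lit 22024512)) (.cons (.rel (nat_lit 21233700)) .nil))) .nil)) .leaf)))) (nat_lit 2775287759211806) (.br (nat_lit 0) (.cons (.br (nat_lit 1) (.cons (.rel (nat_lit 21242112)) .nil)) .nil)) (.node (.node (.node (.node (.node .leaf (nat_lit 2775287760500738) (.br (nat_lit 1) (.cons (.br (nat_lit 0) (.cons (.rel (nat_lit 37766145)) (.cons (.rel (nat_lit 43024656)) .nil))) .nil)) .leaf) (nat_lit 2775287760501392) (.br (nat_lit 0) (.cons (.br (nat_lit 1) (.cons (.rel (nat_lit 25166337)) (.cons (.rel (nat_lit 25166337)) .nil))) .nil)) .leaf) (nat_lit 2775287760501416) (.br (nat_lit 1) (.cons (.br (nat_lit 0) (.cons (.rel (nat_lit 21234705)) (.cons (.rel (nat_lit 37748994))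 .nil))) .nil)) (.node (.node .leaf (nat_lit 2775287760502022) (.br (nat_lit 0) (.cons (.br (nat_lit 1) (.cons (.rel (nat_lit 39063552)) (.cons (.rel (nat_lit 25166337)) .nil))) .nil)) .leaf) (nat_lit 2775287760502046) (.br (nat_lit 1) (.cons (.br (nat_lit 5) (.cons (.rel (nat_lit 4311745794)) .nil)) .nil)) .leaf)) (nat_lit 2775287761662608) (.br (nat_lit 0) (.cons (.br (nat_lit 5) (.cons (.rel (nat_lit 8598421776)) .nil)) .nil)) (.node (.node (.node .leaf (nat_lit 2775287761663262) (.br (nat_lit 0) (.cons (.br (nat_lit 1) (.cons (.rel (nat_lit 43024656)) .nil)) .nil)) .leaf) (nat_lit 2775287761711106) (.br (nat_lit 0) (.cons (.br (nat_lit 1) (.cons (.rel (nat_lit 25166337)) (.cons (.rel (nat_lit 37748994)) .nil))) .nil)) .leaf) (nat_lit 2775287761711154) (.br (nat_lit 0) (.cons (.br (nat_lit 3) (.cons (.rel (nat_lit 545259537)) .nil)) .nil)) (.node .leaf (nat_lit 2775287761711736) (.br (nat_lit 0) (.cons (.br (nat_lit 1) (.cons (.rel (nat_lit 37748994)) .nil)) .nil))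 .leaf))) (nat_lit 2775287761711760) (.br (nat_lit 0) (.cons (.br (nat_lit 1) (.cons (.rel (nat_lit 25183488)) .nil)) .nil)) (.node (.node (.node (.node .leaf (nat_lit 2775287761711784) (.br (nat_lit 0) (.cons (.br (nat_lit 3) (.cons (.rel (nat_lit 272629794)) .nil)) .nil)) .leaf) (nat_lit 2775287761712390) (.br (nat_lit 0) (.cons (.br (nat_lit 1) (.cons (.rel (nat_lit 37766145)) .nil)) .nil)) .leaf) (nat_lit 2775287859775538) (.br (nat_lit 0) (.cons (.br (nat_lit 1) (.cons (.rel (nat_lit 25183488)) (.cons (.rel (nat_lit 38010969)) .nil))) .nil)) (.node (.node .leaf (nat_lit 2775287859776774) (.br (nat_lit 0) (.cons (.br (nat_lit 1) (.cons (.rel (nat_lit 37765140)) (.cons (.rel (nat_lit 21242112)) .nil))) .nil)) .leaf) (nat_lit 2775287859825950) (.br (nat_lit 0) (.cons (.br (nat_lit 5) (.cons (.rel (nat_lit 4299180288)) .nil)) .nil)) .leaf)) (nat_lit 2775287859875102) (.br (nat_lit 0) (.cons (.br (nat_lit 1) (.cons (.rel (nat_lit 21242112)) .nil)) .nil)) (.node (.node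 (.node .leaf (nat_lit 2775287861065754) (.br (nat_lit 0) (.cons (.br (nat_lit 1) (.cons (.rel (nat_lit 25183488)) (.cons (.rel (nat_lit 37766145)) .nil))) (.cons (.br (nat_lit 3) (.cons (.rel (nat_lit 272646660)) (.cons (.rel (nat_lit 543178752)) .nil))) .nil))) .leaf) (nat_lit 2775287861065778) (.br (nat_lit 0) (.cons (.br (nat_lit 1) (.cons (.rel (nat_lit 37814280)) .nil)) .nil)) .leaf) (nat_lit 2775287861066360) (.br (nat_lit 0) (.cons (.br (nat_lit 1) (.cons (.rel (nat_lit 25166337)) .nil)) .nil)) (.node .leaf (nat_lit 2775287861067014) (.br (nat_lit 0) (.cons (.br (nat_lit 1) (.cons (.rel (nat_lit 25183488)) (.cons (.rel (nat_lit 25183488)) .nil))) .nil)) .leaf))))) (nat_lit 2775287861067038) (.br (nat_lit 0) (.cons (.br (nat_lit 1) (.cons (.rel (nat_lit 21233700)) .nil)) .nil)) (.node (.node (.node (.node (.node (.node .leaf (nat_lit 2775287861115560) (.br (nat_lit 0) (.cons (.br (nat_lit 1) (.cons (.rel (nat_lit 37766145)) .nil)) .nil)) .leaf) (nat_lit 2775287861116166)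 (.br (nat_lit 0) (.cons (.br (nat_lit 1) (.cons (.rel (nat_lit 21233700)) (.cons (.rel (nat_lit 22024512)) .nil))) .nil)) .leaf) (nat_lit 2775287861164712) (.br (nat_lit 0) (.cons (.br (nat_lit 1) (.cons (.rel (nat_lit 21234705)) .nil)) .nil)) (.node (.node .leaf (nat_lit 2775287862325250) (.br (nat_lit 0) (.cons (.br (nat_lit 3) (.cons (.rel (nat_lit 272629794)) .nil)) .nil)) .leaf) (nat_lit 2775287862325904) (.br (nat_lit 0) (.cons (.br (nat_lit 3) (.cons (.rel (nat_lit 272629794)) .nil)) .nil)) .leaf)) (nat_lit 2775287862325928) (.br (nat_lit 0) (.cons (.br (nat_lit 1) (.cons (.rel (nat_lit 25166337)) .nil)) .nil)) (.node (.node (.node .leaf (nat_lit 2775287862326534) (.br (nat_lit 2) (.cons (.br (nat_lit 3) (.cons (.rel (nat_lit 336593424)) .nil)) .nil)) .leaf) (nat_lit 2775290439272498) (.br (nat_lit 0) (.cons (.br (nat_lit 1) (.cons (.rel (nat_lit 25166337)) .nil)) .nil)) .leaf) (nat_lit 2775290439273710) (.br (nat_lit 0) (.cons (.br (nat_lit 1) (.cons (.rel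 (nat_lit 25166337)) .nil)) .nil)) (.node .leaf (nat_lit 2775290439273734) (.br (nat_lit 0) (.cons (.br (nat_lit 3) (.cons (.rel (nat_lit 272629794)) .nil)) .nil)) .leaf))) (nat_lit 2775290439321602) (.br (nat_lit 0) (.cons (.br (nat_lit 4) (.cons (.rel (nat_lit 1078215696)) .nil)) .nil)) (.node (.node (.node (.node .leaf (nat_lit 2775290439322256) (.br (nat_lit 0) (.cons (.br (nat_lit 1) (.cons (.rel (nat_lit 21234705)) .nil)) .nil)) .leaf) (nat_lit 2775290439322862) (.br (nat_lit 3) (.cons (.br (nat_lit 0) (.cons (.rel (nat_lit 541392897)) (.cons (.rel (nat_lit 545259537)) .nil))) .nil)) .leaf) (nat_lit 2775290439322910) (.br (nat_lit 0) (.cons (.br (nat_lit 5) (.cons (.rel (nat_lit 4299162132)) .nil)) .nil)) (.node (.node .leaf (nat_lit 2775290439370802) (.br (nat_lit 0) (.cons (.br (nat_lit 4) (.cons (.rel (nat_lit 2151677973)) .nil)) .nil)) .leaf) (nat_lit 2775290439371408) (.br (nat_lit 0) (.cons (.br (nat_lit 4) (.cons (.rel (nat_lit 2151678978)) .nil)) .nil))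 .leaf)) (nat_lit 2775290439372038) (.br (nat_lit 0) (.cons (.br (nat_lit 3) (.cons (.rel (nat_lit 541392897)) .nil)) .nil)) (.node (.node (.node .leaf (nat_lit 2775290439372062) (.br (nat_lit 0) (.cons (.br (nat_lit 1) (.cons (.rel (nat_lit 25183488)) .nil)) .nil)) .leaf) (nat_lit 2775290440662254) (.br (nat_lit 0) (.cons (.br (nat_lit 3) (.cons (.rel (nat_lit 277905408)) .nil)) .nil)) .leaf) (nat_lit 2775290441822210) (.br (nat_lit 0) (.cons (.br (nat_lit 5) (.cons (.rel (nat_lit 4299162132)) .nil)) .nil)) (.node .leaf (nat_lit 2775290441822864) (.br (nat_lit 0) (.cons (.br (nat_lit 1) (.cons (.rel (nat_lit 37766145)) (.cons (.rel (nat_lit 25183488)) .nil))) .nil)) .leaf)))) (nat_lit 2775290441823470) (.br (nat_lit 0) (.cons (.br (nat_lit 1) (.cons (.rel (nat_lit 21233700)) .nil)) .nil)) (.node (.node (.node (.node (.node .leaf (nat_lit 2775290441823518) (.br (nat_lit 0) (.cons (.br (nat_lit 1) (.cons (.rel (nat_lit 21234705)) .nil)) .nil)) .leaf) (nat_lit 2775290441872016)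 (.br (nat_lit 0) (.cons (.br (nat_lit 4) (.cons (.rel (nat_lit 1082131476)) .nil)) .nil)) .leaf) (nat_lit 2775290889135007) (.br (nat_lit 0) (.cons (.br (nat_lit 4) (.cons (.rel (nat_lit 1082147328)) .nil)) .nil)) (.node (.node .leaf (nat_lit 2775292880357378) (.br (nat_lit 0) (.cons (.br (nat_lit 1) (.cons (.rel (nat_lit 25166337)) .nil)) .nil)) .leaf) (nat_lit 2775292880406530) (.br (nat_lit 0) (.cons (.br (nat_lit 5) (.cons (.rel (nat_lit 8598339585)) (.cons (.rel (nat_lit 4299169824)) .nil))) .nil)) .leaf)) (nat_lit 2775292880406554) (.br (nat_lit 0) (.cons (.br (nat_lit 1) (.cons (.rel (nat_lit 22024512)) .nil)) .nil)) (.node (.node (.node .leaf (nat_lit 2775292880455706) (.br (nat_lit 0) (.cons (.br (nat_lit 1) (.cons (.rel (nat_lit 22024512)) .nil)) .nil)) .leaf) (nat_lit 2775292881647642) (.br (nat_lit 0) (.cons (.br (nat_lit 3) (.cons (.rel (nat_lit 272630808)) .nil)) .nil)) .leaf) (nat_lit 2775292881648878) (.br (nat_lit 0) (.cons (.br (nat_lit 1) (.cons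 (.rel (nat_lit 21242112)) .nil)) .nil)) (.node .leaf (nat_lit 2775292881696770) (.br (nat_lit 0) (.cons (.br (nat_lit 1) (.cons (.rel (nat_lit 25166337)) (.cons (.rel (nat_lit 37748994)) .nil))) .nil)) .leaf))) (nat_lit 2775292881696818) (.br (nat_lit 0) (.cons (.br (nat_lit 1) (.cons (.rel (nat_lit 25183488)) .nil)) .nil)) (.node (.node (.node (.node .leaf (nat_lit 2775292881698054) (.br (nat_lit 0) (.cons (.br (nat_lit 1) (.cons (.rel (nat_lit 25166337)) .nil)) .nil)) .leaf) (nat_lit 2775292881745922) (.br (nat_lit 1) (.cons (.br (nat_lit 0) (.cons (.rel (nat_lit 43024656)) (.cons (.rel (nat_lit 25166337)) .nil))) .nil)) .leaf) (nat_lit 2775292881745946) (.br (nat_lit 0) (.cons (.br (nat_lit 1) (.cons (.rel (nat_lit 25183488)) .nil)) .nil)) (.node (.node .leaf (nat_lit 2775292881745970) (.br (nat_lit 0) (.cons (.br (nat_lit 3) (.cons (.rel (nat_lit 272629794)) .nil)) .nil)) .leaf) (nat_lit 2775292881746576) (.br (nat_lit 0) (.cons (.br (nat_lit 3) (.cons (.rel (nat_lit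 541392897)) (.cons (.rel (nat_lit 273023040)) .nil))) .nil)) .leaf)) (nat_lit 2775292881747182) (.br (nat_lit 1) (.cons (.br (nat_lit 3) (.cons (.rel (nat_lit 570429444)) .nil)) .nil)) (.node (.node (.node .leaf (nat_lit 2775292881747230) (.br (nat_lit 1) (.cons (.br (nat_lit 5) (.cons (.rel (nat_lit 4311745794)) .nil)) .nil)) .leaf) (nat_lit 2775292882401282) (.br (nat_lit 2) (.cons (.br (nat_lit 3) (.cons (.rel (nat_lit 335610948)) .nil)) .nil)) .leaf) (nat_lit 2775292882907162) (.br (nat_lit 0) (.cons (.br (nat_lit 3) (.cons (.rel (nat_lit 272630808)) .nil)) .nil)) (.node .leaf (nat_lit 2775292882908446) (.br (nat_lit 0) (.cons (.br (nat_lit 1) (.cons (.rel (nat_lit 43024656)) .nil)) .nil)) .leaf)))))))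

/-- refutations 43 -/
def e43 : EX := (.node (.node (.node .leaf (nat_lit 2412806936287537) (.br (nat_lit 0) (.cons (.br (nat_lit 1) (.cons (.rel (nat_lit 25296900)) .nil)) .nil)) .leaf) (nat_lit 2418093115347879) (.br (nat_lit 0) (.cons (.br (nat_lit 1) (.cons (.rel (nat_lit 37753872)) .nil)) .nil)) .leaf) (nat_lit 2418098337255705) (.br (nat_lit 2) (.cons (.br (nat_lit 3) (.cons (.rel (nat_lit 335544657)) .nil)) .nil)) (.node .leaf (nat_lit 2422178555061774) (.br (nat_lit 0) (.cons (.br (nat_lit 1) (.cons (.rel (nat_lit 21233700)) .nil)) .nil)) .leaf))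

/-- refutations 44 -/
def e44 : EX := (.node (.node (.node (.node (.node .leaf (nat_lit 3166911848513045) (.br (nat_lit 0) (.cons (.br (nat_lit 2) (.cons (.rel (nat_lit 71451648)) .nil)) .nil)) .leaf) (nat_lit 3166911851387030) (.br (nat_lit 1) (.cons (.br (nat_lit 3) (.cons (.rel (nat_lit 285229317)) .nil)) .nil)) .leaf) (nat_lit 3169007306024417) (.br (nat_lit 0) (.cons (.br (nat_lit 2) (.cons (.rel (nat_lit 71598144)) .nil)) .nil)) (.node .leaf (nat_lit 3169007306123540) (.br (nat_lit 0) (.cons (.br (nat_lit 3) (.cons (.rel (nat_lit 543178752)) .nil)) .nil)) .leaf)) (nat_lit 3169007306285218) (.br (nat_lit 0) (.cons (.br (nat_lit 1) (.cons (.rel (nat_lit 22544385)) .nil)) .nil)) (.node (.node (.node .leaf (nat_lit 3169007306285983) (.br (nat_lit 2) (.cons (.br (nat_lit 4) (.cons (.rel (nat_lit 1140985872)) .nil)) .nil)) .leaf) (nat_lit 3169007306382599) (.br (nat_lit 2) (.cons (.br (nat_lit 1) (.cons (.rel (nat_lit 167772420)) (.cons (.rel (nat_lit 101188608))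 .nil))) .nil)) .leaf) (nat_lit 3169007308593809) (.br (nat_lit 0) (.cons (.br (nat_lit 1) (.cons (.rel (nat_lit 37748994)) .nil)) .nil)) (.node .leaf (nat_lit 3169007308621036) (.br (nat_lit 0) (.cons (.br (nat_lit 2) (.cons (.rel (nat_lit 71312640)) .nil)) .nil)) .leaf))) (nat_lit 3169007308931073) (.br (nat_lit 2) (.cons (.br (nat_lit 3) (.cons (.br (nat_lit 0) (.cons (.rel (nat_lit 545259537)) (.cons (.rel (nat_lit 71598144)) (.cons (.rel (nat_lit 76627968)) .nil)))) .nil)) .nil)) (.node (.node (.node (.node .leaf (nat_lit 3169007308931729) (.br (nat_lit 0) (.cons (.br (nat_lit 6) (.cons (.rel (nat_lit 17184325665)) (.cons (.rel (nat_lit 17184129168)) .nil))) .nil)) .leaf) (nat_lit 3169007308931752) (.br (nat_lit 0) (.cons (.br (nat_lit 6) (.cons (.rel (nat_lit 17184129168)) .nil)) .nil)) .leaf) (nat_lit 3169007308932359) (.br (nat_lit 0) (.cons (.br (nat_lit 6) (.cons (.rel (nat_lit 17186161665)) (.cons (.rel (nat_lit 17188388865)) .nil))) (.cons (.br (nat_lit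 2) (.cons (.rel (nat_lit 71320080)) (.cons (.rel (nat_lit 71305233)) .nil))) .nil))) (.node .leaf (nat_lit 3169010102338193) (.br (nat_lit 1) (.cons (.br (nat_lit 4) (.cons (.rel (nat_lit 1090781202)) .nil)) .nil)) .leaf)) (nat_lit 3169012529474463) (.br (nat_lit 0) (.cons (.br (nat_lit 1) (.cons (.rel (nat_lit 25166337)) .nil)) .nil)) (.node (.node .leaf (nat_lit 3169230753679361) (.br (nat_lit 0) (.cons (.br (nat_lit 2) (.cons (.rel (nat_lit 71305233)) .nil)) .nil)) .leaf) (nat_lit 3169230756229777) (.br (nat_lit 0) (.cons (.br (nat_lit 2) (.cons (.rel (nat_lit 71328789)) .nil)) .nil)) (.node .leaf (nat_lit 3172199601589009) (.br (nat_lit 0) (.cons (.br (nat_lit 4) (.cons (.rel (nat_lit 1082147328)) .nil)) .nil)) .leaf))))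

/-- refutations 45 -/
def e45 : EX := (.node (.node (.node .leaf (nat_lit 3174215602700945) (.br (nat_lit 1) (.cons (.br (nat_lit 2) (.cons (.rel (nat_lit 83886600)) .nil)) .nil)) .leaf) (nat_lit 3174421544303249) (.br (nat_lit 0) (.cons (.br (nat_lit 3) (.cons (.rel (nat_lit 273023040)) .nil)) .nil)) .leaf) (nat_lit 3179926139101234) (.br (nat_lit 0) (.cons (.br (nat_lit 4) (.cons (.rel (nat_lit 1082204160)) .nil)) .nil)) (.node (.node .leaf (nat_lit 3179927803033601) (.br (nat_lit 0) (.cons (.br (nat_lit 3) (.cons (.rel (nat_lit 272635392)) .nil)) .nil)) .leaf) (nat_lit 3179927909204625) (.br (nat_lit 0) (.cons (.br (nat_lit 1) (.cons (.br (nat_lit 6) (.cons (.rel (nat_lit 17184129168)) (.cons (.rel (nat_lit 17198776320)) (.cons (.rel (nat_lit 17184129168)) .nil)))) .nil)) .nil)) .leaf))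

/-- refutations 46 -/
def e46 : EX := (.node (.node (.node (.node (.node .leaf (nat_lit 3256109417671308) (.br (nat_lit 1) (.cons (.br (nat_lit 3) (.cons (.rel (nat_lit 285344784)) .nil)) .nil)) .leaf) (nat_lit 3256109834014870) (.br (nat_lit 0) (.cons (.br (nat_lit 3) (.cons (.rel (nat_lit 272646660)) .nil)) .nil)) .leaf) (nat_lit 3256109955649817) (.br (nat_lit 5) (.cons (.br (nat_lit 0) (.cons (.br (nat_lit 1) (.cons (.br (nat_lit 4) (.cons (.rel (nat_lit 1107558468)) (.cons (.rel (nat_lit 5368778784)) .nil))) (.cons (.rel (nat_lit 8608874496)) .nil))) (.cons (.rel (nat_lit 8598339585)) .nil))) .nil)) (.node (.node .leaf (nat_lit 3256109958467865) (.br (nat_lit 0) (.cons (.br (nat_lit 1) (.cons (.rel (nat_lit 25183488)) .nil)) .nil)) .leaf) (nat_lit 3256112346314130) (.br (nat_lit 0) (.cons (.br (nat_lit 1) (.cons (.rel (nat_lit 37766145)) .nil)) .nil)) .leaf)) (nat_lit 3256112595425561) (.br (nat_lit 2) (.cons (.br (nat_lit 1) (.cons (.rel (nat_lit 101711904))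 (.cons (.rel (nat_lit 167772420)) .nil))) .nil)) (.node (.node (.node .leaf (nat_lit 3256121672921868) (.br (nat_lit 0) (.cons (.br (nat_lit 1) (.cons (.rel (nat_lit 37753872)) .nil)) .nil)) .leaf) (nat_lit 3257226098165910) (.br (nat_lit 0) (.cons (.br (nat_lit 1) (.cons (.rel (nat_lit 21233700)) .nil)) .nil)) .leaf) (nat_lit 3257229294022134) (.br (nat_lit 0) (.cons (.br (nat_lit 1) (.cons (.rel (nat_lit 20975745)) .nil)) .nil)) (.node (.node .leaf (nat_lit 3259934344298646) (.br (nat_lit 3) (.cons (.br (nat_lit 0) (.cons (.rel (nat_lit 543178752)) (.cons (.rel (nat_lit 272635392)) .nil))) .nil)) .leaf) (nat_lit 3260399457767574) (.br (nat_lit 3) (.cons (.br (nat_lit 1) (.cons (.rel (nat_lit 285217044)) (.cons (.rel (nat_lit 285229317)) .nil))) .nil)) .leaf))) (nat_lit 3260399457768204) (.br (nat_lit 0) (.cons (.br (nat_lit 1) (.cons (.rel (nat_lit 37753872)) .nil)) .nil)) (.node (.node (.node (.node .leaf (nat_lit 3260399458240662) (.br (nat_lit 5) (.cons (.br (nat_lit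 1) (.cons (.rel (nat_lit 8606978052)) (.cons (.rel (nat_lit 4329701376)) .nil))) .nil)) .leaf) (nat_lit 3260399458241763) (.br (nat_lit 0) (.cons (.br (nat_lit 3) (.cons (.rel (nat_lit 272711937)) .nil)) .nil)) .leaf) (nat_lit 3260399459057814) (.br (nat_lit 0) (.cons (.br (nat_lit 4) (.cons (.rel (nat_lit 1082132481)) (.cons (.br (nat_lit 3) (.cons (.rel (nat_lit 2684355600)) (.cons (.rel (nat_lit 1342179360)) .nil))) .nil))) (.cons (.br (nat_lit 3) (.cons (.rel (nat_lit 272711937)) (.cons (.rel (nat_lit 272703492)) .nil))) .nil))) (.node (.node .leaf (nat_lit 3260399459059074) (.br (nat_lit 0) (.cons (.br (nat_lit 1) (.cons (.br (nat_lit 3) (.cons (.rel (nat_lit 285246468)) (.cons (.rel (nat_lit 272666625)) .nil))) (.cons (.rel (nat_lit 37753872)) .nil))) .nil)) .leaf) (nat_lit 3260399460348684) (.br (nat_lit 0) (.cons (.br (nat_lit 1) (.cons (.rel (nat_lit 37753872)) (.cons (.br (nat_lit 3) (.cons (.rel (nat_lit 570429444)) (.cons (.rel (nat_lit 272629794)) (.cons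 (.rel (nat_lit 272630808)) .nil)))) .nil))) .nil)) .leaf)) (nat_lit 3261524258412825) (.br (nat_lit 0) (.cons (.br (nat_lit 2) (.cons (.br (nat_lit 5) (.cons (.rel (nat_lit 8657044752)) .nil)) .nil)) .nil)) (.node (.node (.node .leaf (nat_lit 3261526832156953) (.br (nat_lit 0) (.cons (.br (nat_lit 1) (.cons (.rel (nat_lit 21038208)) (.cons (.rel (nat_lit 25166337)) .nil))) .nil)) .leaf) (nat_lit 3261526832426486) (.br (nat_lit 1) (.cons (.br (nat_lit 2) (.cons (.rel (nat_lit 83894292)) (.cons (.rel (nat_lit 167772420)) .nil))) (.cons (.br (nat_lit 2) (.cons (.rel (nat_lit 83919888)) (.cons (.rel (nat_lit 83894292)) .nil))) .nil))) .leaf) (nat_lit 3261526833715481) (.br (nat_lit 4) (.cons (.br (nat_lit 6) (.cons (.rel (nat_lit 18255708162)) (.cons (.rel (nat_lit 35433480480)) (.cons (.rel (nat_lit 18255708162)) (.cons (.rel (nat_lit 19327353360)) .nil))))) .nil)) (.node .leaf (nat_lit 3261526834737433) (.br (nat_lit 0) (.cons (.br (nat_lit 1) (.cons (.rel (nat_lit 23069700))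 .nil)) .nil)) .leaf))))

/-- refutations 47 -/
def e47 : EX := (.node (.node (.node (.node (.node (.node .leaf (nat_lit 3262517507348761) (.br (nat_lit 0) (.cons (.br (nat_lit 1) (.cons (.rel (nat_lit 25247760)) .nil)) .nil)) .leaf) (nat_lit 3262517507586085) (.br (nat_lit 0) (.cons (.br (nat_lit 5) (.cons (.br (nat_lit 1) (.cons (.rel (nat_lit 4312006752)) (.cons (.rel (nat_lit 37748994)) .nil))) .nil)) .nil)) .leaf) (nat_lit 3262520685342198) (.br (nat_lit 0) (.cons (.br (nat_lit 3) (.cons (.rel (nat_lit 545259537)) .nil)) .nil)) (.node .leaf (nat_lit 3262520687890713) (.br (nat_lit 0) (.cons (.br (nat_lit 2) (.cons (.rel (nat_lit 71305233)) .nil)) .nil)) .leaf)) (nat_lit 3262523264839158) (.br (nat_lit 1) (.cons (.br (nat_lit 3) (.cons (.rel (nat_lit 570425616)) (.cons (.rel (nat_lit 285213216)) .nil))) .nil)) (.node (.node (.node .leaf (nat_lit 3262523266128153) (.br (nat_lit 4) (.cons (.br (nat_lit 0) (.cons (.rel (nat_lit 2151678978)) (.cons (.rel (nat_lit 1078198545))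 (.cons (.rel (nat_lit 2151677973)) .nil)))) (.cons (.br (nat_lit 6) (.cons (.br (nat_lit 0) (.cons (.rel (nat_lit 34363998210)) (.cons (.rel (nat_lit 1078002048)) (.cons (.rel (nat_lit 34363932933)) .nil)))) (.cons (.rel (nat_lit 35433480480)) (.cons (.rel (nat_lit 18255708162)) (.cons (.rel (nat_lit 18255708162)) .nil))))) .nil))) .leaf) (nat_lit 3262523267029273) (.br (nat_lit 1) (.cons (.br (nat_lit 2) (.cons (.rel (nat_lit 167837697)) .nil)) .nil)) .leaf) (nat_lit 3262523267387673) (.br (nat_lit 1) (.cons (.br (nat_lit 6) (.cons (.rel (nat_lit 17213423625)) (.cons (.rel (nat_lit 17213423625)) (.cons (.rel (nat_lit 17213425680)) .nil)))) .nil)) (.node .leaf (nat_lit 3265306403787504) (.br (nat_lit 0) (.cons (.br (nat_lit 1) (.cons (.rel (nat_lit 25166337)) .nil)) .nil)) .leaf))) (nat_lit 3265570112122358) (.br (nat_lit 2) (.cons (.br (nat_lit 3) (.cons (.rel (nat_lit 335610948)) .nil)) .nil)) (.node (.node (.node (.node .leaf (nat_lit 3266426345932950) (.br (nat_lit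 0) (.cons (.br (nat_lit 3) (.cons (.rel (nat_lit 272654352)) .nil)) .nil)) .leaf) (nat_lit 3266431685218585) (.br (nat_lit 0) (.cons (.br (nat_lit 3) (.cons (.rel (nat_lit 272631813)) .nil)) .nil)) .leaf) (nat_lit 3266431687332592) (.br (nat_lit 2) (.cons (.br (nat_lit 3) (.cons (.rel (nat_lit 335544657)) .nil)) .nil)) (.node .leaf (nat_lit 3266672203387161) (.br (nat_lit 3) (.cons (.br (nat_lit 5) (.cons (.rel (nat_lit 4831846401)) (.cons (.rel (nat_lit 4564455441)) .nil))) .nil)) .leaf)) (nat_lit 3267929156668643) (.br (nat_lit 2) (.cons (.br (nat_lit 3) (.cons (.rel (nat_lit 336724992)) .nil)) .nil)) (.node (.node (.node .leaf (nat_lit 3267932345424153) (.br (nat_lit 1) (.cons (.br (nat_lit 2) (.cons (.rel (nat_lit 84017154)) .nil)) .nil)) .leaf) (nat_lit 3267932346683442) (.br (nat_lit 1) (.cons (.br (nat_lit 3) (.cons (.rel (nat_lit 285213216)) .nil)) .nil)) .leaf) (nat_lit 3267932346683673) (.br (nat_lit 1) (.cons (.br (nat_lit 3) (.cons (.rel (nat_lit 285280512))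 .nil)) .nil)) (.node .leaf (nat_lit 3267932346684918) (.br (nat_lit 0) (.cons (.br (nat_lit 3) (.cons (.rel (nat_lit 272654352)) (.cons (.rel (nat_lit 272654352)) .nil))) .nil)) .leaf)))) (nat_lit 3267932348059929) (.br (nat_lit 0) (.cons (.br (nat_lit 1) (.cons (.rel (nat_lit 23069700)) .nil)) .nil)) (.node (.node (.node (.node (.node .leaf (nat_lit 3267932349618457) (.br (nat_lit 1) (.cons (.br (nat_lit 0) (.cons (.rel (nat_lit 25296900)) (.cons (.rel (nat_lit 20975745)) .nil))) .nil)) .leaf) (nat_lit 3267932352254233) (.br (nat_lit 5) (.cons (.br (nat_lit 0) (.cons (.rel (nat_lit 8595243072)) (.cons (.rel (nat_lit 4300211328)) .nil))) .nil)) .leaf) (nat_lit 3267932354838809) (.br (nat_lit 0) (.cons (.br (nat_lit 5) (.cons (.rel (nat_lit 4300211328)) .nil)) .nil)) (.node .leaf (nat_lit 3267932354839440) (.br (nat_lit 1) (.cons (.br (nat_lit 6) (.cons (.rel (nat_lit 17213425680)) .nil)) .nil)) .leaf)) (nat_lit 3267934923362585) (.br (nat_lit 6) (.cons (.br (nat_lit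 2) (.cons (.rel (nat_lit 17247010848)) (.cons (.rel (nat_lit 34429206528)) (.cons (.rel (nat_lit 34493972496)) .nil)))) .nil)) (.node (.node (.node .leaf (nat_lit 3267934923363866) (.br (nat_lit 0) (.cons (.br (nat_lit 1) (.cons (.rel (nat_lit 39845952)) .nil)) .nil)) .leaf) (nat_lit 3267934923630602) (.br (nat_lit 1) (.cons (.br (nat_lit 3) (.cons (.rel (nat_lit 570425616)) .nil)) .nil)) .leaf) (nat_lit 3267934923631344) (.br (nat_lit 3) (.cons (.br (nat_lit 1) (.cons (.rel (nat_lit 570425616)) (.cons (.rel (nat_lit 285213216)) .nil))) .nil)) (.node .leaf (nat_lit 3267934923632118) (.br (nat_lit 2) (.cons (.br (nat_lit 1) (.cons (.rel (nat_lit 83886600)) (.cons (.rel (nat_lit 83886600)) (.cons (.rel (nat_lit 83886600)) .nil)))) (.cons (.br (nat_lit 0) (.cons (.rel (nat_lit 142606341)) (.cons (.br (nat_lit 1) (.cons (.rel (nat_lit 153092112)) (.cons (.rel (nat_lit 167837697)) (.cons (.br (nat_lit 3) (.cons (.rel (nat_lit 272729088)) (.cons (.rel (nat_lit 336724992))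 (.cons (.rel (nat_lit 570425616)) .nil)))) .nil)))) (.cons (.rel (nat_lit 71305233)) .nil)))) .nil))) .leaf))) (nat_lit 3267934923772185) (.br (nat_lit 5) (.cons (.br (nat_lit 1) (.cons (.rel (nat_lit 8623505664)) (.cons (.rel (nat_lit 4311762945)) .nil))) .nil)) (.node (.node (.node (.node .leaf (nat_lit 3267934923772656) (.br (nat_lit 0) (.cons (.br (nat_lit 1) (.cons (.rel (nat_lit 25166337)) .nil)) .nil)) .leaf) (nat_lit 3267934924921113) (.br (nat_lit 1) (.cons (.br (nat_lit 2) (.cons (.rel (nat_lit 167772420)) (.cons (.rel (nat_lit 167837697)) (.cons (.rel (nat_lit 167772420)) .nil)))) .nil)) .leaf) (nat_lit 3267934925886966) (.br (nat_lit 0) (.cons (.br (nat_lit 3) (.cons (.rel (nat_lit 272729088)) .nil)) .nil)) (.node .leaf (nat_lit 3267934925943065) (.br (nat_lit 0) (.cons (.br (nat_lit 1) (.cons (.rel (nat_lit 39063552)) (.cons (.rel (nat_lit 20975745)) .nil))) .nil)) .leaf)) (nat_lit 3267934925943564) (.br (nat_lit 0) (.cons (.br (nat_lit 2) (.cons (.rel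 (nat_lit 71312640)) .nil)) .nil)) (.node (.node .leaf (nat_lit 3267934925947161) (.br (nat_lit 1) (.cons (.br (nat_lit 5) (.cons (.rel (nat_lit 4313842752)) .nil)) .nil)) .leaf) (nat_lit 3267934926180633) (.br (nat_lit 1) (.cons (.br (nat_lit 6) (.cons (.rel (nat_lit 17213423625)) (.cons (.rel (nat_lit 17196990465)) (.cons (.rel (nat_lit 17213425680)) .nil)))) .nil)) (.node .leaf (nat_lit 3267934926181878) (.br (nat_lit 0) (.cons (.br (nat_lit 3) (.cons (.rel (nat_lit 543178752)) (.cons (.rel (nat_lit 272630808)) .nil))) .nil)) .leaf)))))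

/-- refutations 48 -/
def e48 : EX := (.node (.node (.node (.node (.node .leaf (nat_lit 2849942939421972) (.br (nat_lit 1) (.cons (.br (nat_lit 3) (.cons (.rel (nat_lit 285213216)) .nil)) .nil)) .leaf) (nat_lit 2849942940710967) (.br (nat_lit 0) (.cons (.br (nat_lit 1) (.cons (.br (nat_lit 6) (.cons (.rel (nat_lit 17200844832)) .nil)) .nil)) .nil)) (.node .leaf (nat_lit 2851489128465036) (.br (nat_lit 1) (.cons (.br (nat_lit 3) (.cons (.rel (nat_lit 285220872)) .nil)) .nil)) .leaf)) (nat_lit 2851532106628349) (.br (nat_lit 0) (.cons (.br (nat_lit 1) (.cons (.rel (nat_lit 21233700)) .nil)) .nil)) (.node (.node .leaf (nat_lit 2852348666366002) (.br (nat_lit 1) (.cons (.br (nat_lit 6) (.cons (.rel (nat_lit 17196978192)) .nil)) .nil)) .leaf) (nat_lit 2852348666367262) (.br (nat_lit 3) (.cons (.br (nat_lit 6) (.cons (.rel (nat_lit 17448309009)) .nil)) .nil)) .leaf)) (nat_lit 2852348667183154) (.br (nat_lit 0) (.cons (.br (nat_lit 1) (.cons (.rel (nat_lit 37814280)) .nil))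 .nil)) (.node (.node (.node .leaf (nat_lit 2852348668621552) (.br (nat_lit 0) (.cons (.br (nat_lit 6) (.cons (.rel (nat_lit 17188323588)) .nil)) .nil)) .leaf) (nat_lit 2852349211625522) (.br (nat_lit 2) (.cons (.br (nat_lit 4) (.cons (.rel (nat_lit 1140850725)) .nil)) .nil)) (.node .leaf (nat_lit 2852351161976982) (.br (nat_lit 4) (.cons (.br (nat_lit 0) (.cons (.rel (nat_lit 1082132481)) (.cons (.rel (nat_lit 1077956736)) .nil))) .nil)) .leaf)) (nat_lit 2852351163267127) (.br (nat_lit 0) (.cons (.br (nat_lit 1) (.cons (.rel (nat_lit 37753872)) .nil)) .nil)) (.node (.node .leaf (nat_lit 2855354598214932) (.br (nat_lit 0) (.cons (.br (nat_lit 1) (.cons (.rel (nat_lit 37753872)) .nil)) .nil)) .leaf) (nat_lit 2855354599278742) (.br (nat_lit 0) (.cons (.br (nat_lit 5) (.cons (.rel (nat_lit 4299169824)) .nil)) .nil)) .leaf))) (nat_lit 2855354599503927) (.br (nat_lit 0) (.cons (.br (nat_lit 1) (.cons (.rel (nat_lit 25247760)) .nil)) .nil)) (.node (.node (.node (.node .leaf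 (nat_lit 2855354599504557) (.br (nat_lit 0) (.cons (.br (nat_lit 1) (.cons (.rel (nat_lit 37766145)) .nil)) .nil)) .leaf) (nat_lit 2855776050269686) (.br (nat_lit 0) (.cons (.br (nat_lit 4) (.cons (.rel (nat_lit 1078202373)) .nil)) .nil)) (.node .leaf (nat_lit 2855776051085462) (.br (nat_lit 1) (.cons (.br (nat_lit 6) (.cons (.rel (nat_lit 17196978192)) .nil)) .nil)) .leaf)) (nat_lit 2855776051353750) (.br (nat_lit 0) (.cons (.br (nat_lit 5) (.cons (.rel (nat_lit 4299163137)) .nil)) .nil)) (.node (.node .leaf (nat_lit 2861805639093106) (.br (nat_lit 2) (.cons (.br (nat_lit 3) (.cons (.rel (nat_lit 335561808)) (.cons (.rel (nat_lit 402800640)) (.cons (.rel (nat_lit 336593424)) .nil)))) .nil)) .leaf) (nat_lit 2861805639909556) (.br (nat_lit 1) (.cons (.br (nat_lit 5) (.cons (.rel (nat_lit 4311750672)) .nil)) .nil)) .leaf)) (nat_lit 2861805639910303) (.br (nat_lit 4) (.cons (.br (nat_lit 5) (.cons (.rel (nat_lit 5368729608)) .nil)) .nil)) (.node (.node (.node .leaf (nat_lit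 2861805639910627) (.br (nat_lit 4) (.cons (.br (nat_lit 0) (.cons (.rel (nat_lit 1080098817)) (.cons (.rel (nat_lit 2151813120)) .nil))) .nil)) .leaf) (nat_lit 2863042589674354) (.br (nat_lit 0) (.cons (.br (nat_lit 3) (.cons (.rel (nat_lit 272654352)) .nil)) .nil)) (.node .leaf (nat_lit 2863042592224532) (.br (nat_lit 1) (.cons (.br (nat_lit 3) (.cons (.rel (nat_lit 285213216)) .nil)) .nil)) .leaf)) (nat_lit 2863291697739009) (.br (nat_lit 0) (.cons (.br (nat_lit 1) (.cons (.rel (nat_lit 21381120)) (.cons (.rel (nat_lit 37753872)) .nil))) (.cons (.br (nat_lit 2) (.cons (.rel (nat_lit 142606341)) (.cons (.rel (nat_lit 142606341)) .nil))) .nil))) (.node (.node .leaf (nat_lit 2863291700385852) (.br (nat_lit 0) (.cons (.br (nat_lit 2) (.cons (.rel (nat_lit 76627968)) .nil)) .nil)) .leaf) (nat_lit 2863291700387318) (.br (nat_lit 0) (.cons (.br (nat_lit 4) (.cons (.rel (nat_lit 2151813120)) .nil)) .nil)) .leaf))))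

/-- refutations 49 -/
def e49 : EX := (.node (.node (.node .leaf (nat_lit 3292407649597721) (.br (nat_lit 0) (.cons (.br (nat_lit 3) (.cons (.rel (nat_lit 277905408)) .nil)) .nil)) .leaf) (nat_lit 3295119264554370) (.br (nat_lit 1) (.cons (.br (nat_lit 3) (.cons (.rel (nat_lit 285213216)) .nil)) .nil)) .leaf) (nat_lit 3295603105768074) (.br (nat_lit 0) (.cons (.br (nat_lit 1) (.cons (.rel (nat_lit 22544385)) .nil)) .nil)) (.node (.node .leaf (nat_lit 3303106031453571) (.br (nat_lit 0) (.cons (.br (nat_lit 4) (.cons (.rel (nat_lit 2151710976)) .nil)) .nil)) .leaf) (nat_lit 3303108131505540) (.br (nat_lit 0) (.cons (.br (nat_lit 1) (.cons (.rel (nat_lit 37753872)) .nil)) .nil)) .leaf))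

/-- refutations 50 -/
def e50 : EX := (.node (.node (.node (.node (.node .leaf (nat_lit 4400460937139726) (.br (nat_lit 0) (.cons (.br (nat_lit 4) (.cons (.rel (nat_lit 1078202373)) .nil)) .nil)) .leaf) (nat_lit 4400460937317234) (.br (nat_lit 0) (.cons (.br (nat_lit 4) (.cons (.rel (nat_lit 1082132481)) .nil)) .nil)) (.node .leaf (nat_lit 4400460937660697) (.br (nat_lit 0) (.cons (.br (nat_lit 3) (.cons (.rel (nat_lit 272646660)) .nil)) .nil)) .leaf)) (nat_lit 4400460937661048) (.br (nat_lit 0) (.cons (.br (nat_lit 1) (.cons (.rel (nat_lit 25247760)) .nil)) .nil)) (.node (.node .leaf (nat_lit 4400460938903054) (.br (nat_lit 0) (.cons (.br (nat_lit 1) (.cons (.rel (nat_lit 37753872)) (.cons (.rel (nat_lit 37748994)) .nil))) (.cons (.br (nat_lit 1) (.cons (.rel (nat_lit 21234705)) (.cons (.rel (nat_lit 23069700)) .nil))) .nil))) .leaf) (nat_lit 4400460939866744) (.br (nat_lit 0) (.cons (.br (nat_lit 1) (.cons (.rel (nat_lit 25176096)) (.cons (.rel (nat_lit 37753872))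 .nil))) .nil)) .leaf)) (nat_lit 4400460939874940) (.br (nat_lit 0) (.cons (.br (nat_lit 1) (.cons (.rel (nat_lit 25247760)) .nil)) .nil)) (.node (.node (.node .leaf (nat_lit 4400463481369463) (.br (nat_lit 2) (.cons (.br (nat_lit 0) (.cons (.rel (nat_lit 71312640)) (.cons (.rel (nat_lit 71312640)) .nil))) .nil)) .leaf) (nat_lit 4400463481370126) (.br (nat_lit 0) (.cons (.br (nat_lit 1) (.cons (.rel (nat_lit 23069700)) .nil)) .nil)) (.node .leaf (nat_lit 4400464185294350) (.br (nat_lit 0) (.cons (.br (nat_lit 1) (.cons (.rel (nat_lit 37748994)) .nil)) .nil)) .leaf)) (nat_lit 4400464186257569) (.br (nat_lit 0) (.cons (.br (nat_lit 4) (.cons (.rel (nat_lit 1078198545)) .nil)) .nil)) (.node (.node .leaf (nat_lit 4400464186258335) (.br (nat_lit 4) (.cons (.br (nat_lit 2) (.cons (.rel (nat_lit 1140850725)) (.cons (.rel (nat_lit 2281702404)) .nil))) .nil)) .leaf) (nat_lit 4400466259710233) (.br (nat_lit 0) (.cons (.br (nat_lit 2) (.cons (.rel (nat_lit 71304228)) .nil)) .nil))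 .leaf))) (nat_lit 4403888322281753) (.br (nat_lit 0) (.cons (.br (nat_lit 3) (.cons (.rel (nat_lit 277905408)) .nil)) .nil)) (.node (.node (.node (.node .leaf (nat_lit 4403888322805262) (.br (nat_lit 0) (.cons (.br (nat_lit 3) (.cons (.rel (nat_lit 272699664)) .nil)) .nil)) .leaf) (nat_lit 4403888323622414) (.br (nat_lit 0) (.cons (.br (nat_lit 3) (.cons (.rel (nat_lit 545281284)) .nil)) .nil)) (.node .leaf (nat_lit 4403891570013095) (.br (nat_lit 0) (.cons (.br (nat_lit 1) (.cons (.rel (nat_lit 23069700)) .nil)) .nil)) .leaf)) (nat_lit 4403892939147414) (.br (nat_lit 0) (.cons (.br (nat_lit 1) (.cons (.rel (nat_lit 25166337)) .nil)) .nil)) (.node (.node .leaf (nat_lit 4403892957200394) (.br (nat_lit 3) (.cons (.br (nat_lit 5) (.cons (.rel (nat_lit 8858436609)) .nil)) .nil)) .leaf) (nat_lit 4405671760073591) (.br (nat_lit 1) (.cons (.br (nat_lit 3) (.cons (.rel (nat_lit 285220872)) .nil)) .nil)) .leaf)) (nat_lit 4405671760595225) (.br (nat_lit 0) (.cons (.br (nat_lit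 2) (.cons (.rel (nat_lit 71305233)) .nil)) .nil)) (.node (.node (.node .leaf (nat_lit 4409099146457975) (.br (nat_lit 0) (.cons (.br (nat_lit 6) (.cons (.rel (nat_lit 17188274448)) .nil)) .nil)) .leaf) (nat_lit 4409918455598307) (.br (nat_lit 0) (.cons (.br (nat_lit 1) (.cons (.rel (nat_lit 25247760)) .nil)) .nil)) (.node .leaf (nat_lit 4409923073230998) (.br (nat_lit 0) (.cons (.br (nat_lit 1) (.cons (.rel (nat_lit 21242112)) .nil)) .nil)) .leaf)) (nat_lit 4409923074506902) (.br (nat_lit 0) (.cons (.br (nat_lit 3) (.cons (.rel (nat_lit 273023040)) .nil)) .nil)) (.node (.node .leaf (nat_lit 4409923074793622) (.br (nat_lit 1) (.cons (.br (nat_lit 3) (.cons (.rel (nat_lit 285213216)) .nil)) .nil)) .leaf) (nat_lit 4411361564314482) (.br (nat_lit 0) (.cons (.br (nat_lit 1) (.cons (.rel (nat_lit 23069700)) .nil)) .nil)) .leaf))))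

/-- refutations 55 -/
def e55 : EX := (.node (.node (.node (.node (.node .leaf (nat_lit 4521204332354321) (.br (nat_lit 1) (.cons (.br (nat_lit 5) (.cons (.rel (nat_lit 4311745794)) .nil)) .nil)) .leaf) (nat_lit 4521247052770032) (.br (nat_lit 0) (.cons (.br (nat_lit 1) (.cons (.rel (nat_lit 21242112)) .nil)) .nil)) .leaf) (nat_lit 4521247055491824) (.br (nat_lit 2) (.cons (.br (nat_lit 5) (.cons (.br (nat_lit 0) (.cons (.rel (nat_lit 4299162132)) (.cons (.rel (nat_lit 71320080)) .nil))) .nil)) .nil)) (.node (.node .leaf (nat_lit 4521249146659066) (.br (nat_lit 0) (.cons (.br (nat_lit 5) (.cons (.rel (nat_lit 4299182097)) .nil)) .nil)) .leaf) (nat_lit 4521249146659696) (.br (nat_lit 0) (.cons (.br (nat_lit 1) (.cons (.rel (nat_lit 37748994)) .nil)) .nil)) .leaf)) (nat_lit 4522749744061296) (.br (nat_lit 0) (.cons (.br (nat_lit 6) (.cons (.rel (nat_lit 17184064896)) .nil)) .nil)) (.node (.node (.node .leaf (nat_lit 4522750292288240) (.br (nat_lit 0) (.cons (.br (nat_lit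 3) (.cons (.rel (nat_lit 272654352)) (.cons (.rel (nat_lit 277905408)) .nil))) .nil)) .leaf) (nat_lit 4522790215168055) (.br (nat_lit 0) (.cons (.br (nat_lit 2) (.cons (.rel (nat_lit 71389185)) .nil)) .nil)) .leaf) (nat_lit 4522790215168150) (.br (nat_lit 0) (.cons (.br (nat_lit 3) (.cons (.rel (nat_lit 272703492)) .nil)) .nil)) (.node .leaf (nat_lit 4523606157327237) (.br (nat_lit 0) (.cons (.br (nat_lit 1) (.cons (.rel (nat_lit 37748994)) .nil)) .nil)) .leaf))) (nat_lit 4523606158649599) (.br (nat_lit 0) (.cons (.br (nat_lit 1) (.cons (.rel (nat_lit 39845952)) .nil)) .nil)) (.node (.node (.node (.node .leaf (nat_lit 4523606222672022) (.br (nat_lit 0) (.cons (.br (nat_lit 5) (.cons (.rel (nat_lit 4299169824)) .nil)) .nil)) .leaf) (nat_lit 4523606222673429) (.br (nat_lit 0) (.cons (.br (nat_lit 3) (.cons (.rel (nat_lit 272654352)) (.cons (.rel (nat_lit 272630808)) .nil))) .nil)) .leaf) (nat_lit 4523606222850198) (.br (nat_lit 0) (.cons (.br (nat_lit 1) (.cons (.rel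 (nat_lit 37753872)) .nil)) .nil)) (.node .leaf (nat_lit 4523606224436757) (.br (nat_lit 0) (.cons (.br (nat_lit 1) (.cons (.rel (nat_lit 25166337)) .nil)) .nil)) .leaf)) (nat_lit 4523606225400444) (.br (nat_lit 0) (.cons (.br (nat_lit 3) (.cons (.rel (nat_lit 277905408)) .nil)) .nil)) (.node (.node (.node .leaf (nat_lit 4523608736293744) (.br (nat_lit 0) (.cons (.br (nat_lit 3) (.cons (.rel (nat_lit 272629794)) .nil)) .nil)) .leaf) (nat_lit 4523608737520496) (.br (nat_lit 0) (.cons (.br (nat_lit 3) (.cons (.rel (nat_lit 272629794)) .nil)) .nil)) .leaf) (nat_lit 4523611562430719) (.br (nat_lit 2) (.cons (.br (nat_lit 3) (.cons (.rel (nat_lit 336089088)) .nil)) .nil)) (.node .leaf (nat_lit 4523611563254041) (.br (nat_lit 3) (.cons (.br (nat_lit 0) (.cons (.rel (nat_lit 545259537)) (.cons (.rel (nat_lit 545259537)) .nil))) .nil)) .leaf))))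

/-- refutations 56 -/
def e56 : EX := (.node (.node (.node (.node (.node .leaf (nat_lit 4528751593494037) (.br (nat_lit 0) (.cons (.br (nat_lit 1) (.cons (.rel (nat_lit 37766145)) .nil)) .nil)) .leaf) (nat_lit 4528756933251353) (.br (nat_lit 0) (.cons (.br (nat_lit 1) (.cons (.rel (nat_lit 21242112)) .nil)) .nil)) (.node .leaf (nat_lit 4528756933251824) (.br (nat_lit 0) (.cons (.br (nat_lit 1) (.cons (.rel (nat_lit 25166337)) .nil)) .nil)) .leaf)) (nat_lit 4528756934074649) (.br (nat_lit 0) (.cons (.br (nat_lit 3) (.cons (.rel (nat_lit 272703492)) .nil)) .nil)) (.node (.node .leaf (nat_lit 4528756934542064) (.br (nat_lit 0) (.cons (.br (nat_lit 2) (.cons (.rel (nat_lit 71305233)) .nil)) .nil)) .leaf) (nat_lit 4531938392028646) (.br (nat_lit 6) (.cons (.br (nat_lit 0) (.cons (.rel (nat_lit 34363938816)) (.cons (.rel (nat_lit 34363932933)) (.cons (.rel (nat_lit 17184129168)) .nil)))) .nil)) (.node .leaf (nat_lit 4531938392118758) (.br (nat_lit 0) (.cons (.br (nat_lit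 6) (.cons (.rel (nat_lit 17185144896)) .nil)) .nil)) .leaf))) (nat_lit 4531938395203839) (.br (nat_lit 0) (.cons (.br (nat_lit 1) (.cons (.rel (nat_lit 39845952)) .nil)) .nil)) (.node (.node (.node .leaf (nat_lit 4531940971524976) (.br (nat_lit 6) (.cons (.br (nat_lit 0) (.cons (.rel (nat_lit 17184325665)) (.cons (.rel (nat_lit 17184325665)) .nil))) .nil)) .leaf) (nat_lit 4531940972151664) (.br (nat_lit 0) (.cons (.br (nat_lit 3) (.cons (.rel (nat_lit 545259537)) .nil)) .nil)) (.node .leaf (nat_lit 4531940972847984) (.br (nat_lit 0) (.cons (.br (nat_lit 4) (.cons (.rel (nat_lit 1077956736)) (.cons (.rel (nat_lit 2151710976)) .nil))) .nil)) .leaf)) (nat_lit 4531940973110128) (.br (nat_lit 3) (.cons (.br (nat_lit 6) (.cons (.rel (nat_lit 17448371472)) .nil)) .nil)) (.node (.node .leaf (nat_lit 4531941521337072) (.br (nat_lit 3) (.cons (.br (nat_lit 5) (.cons (.rel (nat_lit 4564453632)) .nil)) .nil)) .leaf) (nat_lit 4531941524058864) (.br (nat_lit 6) (.cons (.br (nat_lit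 4) (.cons (.rel (nat_lit 19327353360)) (.cons (.rel (nat_lit 18255708162)) (.cons (.rel (nat_lit 18255708162)) .nil)))) .nil)) (.node .leaf (nat_lit 4531941748077926) (.br (nat_lit 1) (.cons (.br (nat_lit 2) (.cons (.rel (nat_lit 83951877)) .nil)) .nil)) .leaf)))) (nat_lit 4531941750594321) (.br (nat_lit 1) (.cons (.br (nat_lit 2) (.cons (.rel (nat_lit 83951877)) .nil)) .nil)) (.node (.node (.node (.node .leaf (nat_lit 4531943798486502) (.br (nat_lit 1) (.cons (.br (nat_lit 6) (.cons (.rel (nat_lit 34376536320)) .nil)) .nil)) .leaf) (nat_lit 4531943798575385) (.br (nat_lit 6) (.cons (.br (nat_lit 2) (.cons (.rel (nat_lit 17247043842)) (.cons (.rel (nat_lit 17246978565)) (.cons (.rel (nat_lit 17247109128)) .nil)))) .nil)) (.node .leaf (nat_lit 4531943798843673) (.br (nat_lit 3) (.cons (.br (nat_lit 6) (.cons (.rel (nat_lit 34896610560)) .nil)) .nil)) .leaf)) (nat_lit 4531943798984985) (.br (nat_lit 3) (.cons (.br (nat_lit 5) (.cons (.rel (nat_lit 4831870992)) .nil))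 .nil)) (.node (.node .leaf (nat_lit 4531943799808281) (.br (nat_lit 6) (.cons (.br (nat_lit 0) (.cons (.rel (nat_lit 34363932933)) (.cons (.rel (nat_lit 17184362496)) .nil))) .nil)) .leaf) (nat_lit 4531943800276470) (.br (nat_lit 1) (.cons (.br (nat_lit 3) (.cons (.rel (nat_lit 570425616)) .nil)) .nil)) (.node .leaf (nat_lit 4531943801393433) (.br (nat_lit 0) (.cons (.br (nat_lit 6) (.cons (.rel (nat_lit 34363932933)) .nil)) .nil)) .leaf))) (nat_lit 4531943801394534) (.br (nat_lit 0) (.cons (.br (nat_lit 1) (.cons (.rel (nat_lit 25166337)) .nil)) .nil)) (.node (.node (.node .leaf (nat_lit 4531943801394678) (.br (nat_lit 0) (.cons (.br (nat_lit 1) (.cons (.rel (nat_lit 21381120)) .nil)) .nil)) .leaf) (nat_lit 4531943801565936) (.br (nat_lit 0) (.cons (.br (nat_lit 4) (.cons (.rel (nat_lit 1077956736)) .nil)) .nil)) (.node .leaf (nat_lit 4533309598585113) (.br (nat_lit 1) (.cons (.br (nat_lit 3) (.cons (.rel (nat_lit 285213216)) .nil)) .nil)) .leaf)) (nat_lit 4534566979212821)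 (.br (nat_lit 0) (.cons (.br (nat_lit 2) (.cons (.rel (nat_lit 71434497)) .nil)) .nil)) (.node (.node .leaf (nat_lit 4534572318970137) (.br (nat_lit 3) (.cons (.br (nat_lit 5) (.cons (.rel (nat_lit 4831846401)) .nil)) .nil)) .leaf) (nat_lit 4534572319793433) (.br (nat_lit 2) (.cons (.br (nat_lit 6) (.cons (.rel (nat_lit 17247240528)) .nil)) .nil)) .leaf))))

/-- refutations 57 -/
def e57 : EX := (.node .leaf (nat_lit 4503665553455356) (.br (nat_lit 0) (.cons (.br (nat_lit 1) (.cons (.rel (nat_lit 37766145)) .nil)) .nil)) .leaf)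

/-- refutations 58 -/
def e58 : EX := (.node .leaf (nat_lit 4931656100651158) (.br (nat_lit 4) (.cons (.br (nat_lit 5) (.cons (.rel (nat_lit 9664069632)) .nil)) .nil)) .leaf)

/-- refutations 59 -/
def e59 : EX := (.node (.node (.node .leaf (nat_lit 4932779293125239) (.br (nat_lit 0) (.cons (.br (nat_lit 4) (.cons (.rel (nat_lit 2151813120)) .nil)) .nil)) .leaf) (nat_lit 4932781931342699) (.br (nat_lit 0) (.cons (.br (nat_lit 4) (.cons (.rel (nat_lit 2151813120)) .nil)) .nil)) .leaf) (nat_lit 4932781932326949) (.br (nat_lit 1) (.cons (.br (nat_lit 2) (.cons (.rel (nat_lit 83886600)) .nil)) .nil)) (.node .leaf (nat_lit 4932781932327193) (.br (nat_lit 0) (.cons (.br (nat_lit 3) (.cons (.rel (nat_lit 272729088)) .nil)) .nil)) .leaf))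

/-- refutations 60 -/
def e60 : EX := (.node (.node (.node .leaf (nat_lit 4576388061640754) (.br (nat_lit 0) (.cons (.br (nat_lit 2) (.cons (.rel (nat_lit 71369220)) .nil)) .nil)) .leaf) (nat_lit 4576388062990646) (.br (nat_lit 0) (.cons (.br (nat_lit 2) (.cons (.rel (nat_lit 71303178)) .nil)) .nil)) .leaf) (nat_lit 4576631384214189) (.br (nat_lit 1) (.cons (.br (nat_lit 4) (.cons (.rel (nat_lit 2164392966)) .nil)) .nil)) (.node (.node .leaf (nat_lit 4576634106317485) (.br (nat_lit 0) (.cons (.br (nat_lit 4) (.cons (.rel (nat_lit 2151678978)) .nil)) .nil)) .leaf) (nat_lit 4587283303103726) (.br (nat_lit 0) (.cons (.br (nat_lit 4) (.cons (.rel (nat_lit 1082147328)) .nil)) .nil)) .leaf))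

/-- refutations 61 -/
def e61 : EX := (.node (.node (.node (.node .leaf (nat_lit 5014092138518710) (.br (nat_lit 0) (.cons (.br (nat_lit 1) (.cons (.rel (nat_lit 21038208)) .nil)) .nil)) .leaf) (nat_lit 5015964086722610) (.br (nat_lit 1) (.cons (.br (nat_lit 3) (.cons (.rel (nat_lit 285229317)) .nil)) .nil)) (.node .leaf (nat_lit 5015964086723870) (.br (nat_lit 1) (.cons (.br (nat_lit 4) (.cons (.rel (nat_lit 1107298560)) .nil)) .nil)) .leaf)) (nat_lit 5016187012485301) (.br (nat_lit 0) (.cons (.br (nat_lit 5) (.cons (.rel (nat_lit 4299163137)) .nil)) .nil)) (.node (.node .leaf (nat_lit 5016187013923468) (.br (nat_lit 1) (.cons (.br (nat_lit 2) (.cons (.rel (nat_lit 85229568)) .nil)) .nil)) .leaf) (nat_lit 5016187014249100) (.br (nat_lit 0) (.cons (.br (nat_lit 1) (.cons (.rel (nat_lit 23069700)) .nil)) .nil)) .leaf)) (nat_lit 5016187532498426) (.br (nat_lit 1) (.cons (.br (nat_lit 5) (.cons (.rel (nat_lit 4311745794)) .nil)) .nil)) (.node (.node (.node .leaf (nat_lit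 5016187532743543) (.br (nat_lit 0) (.cons (.br (nat_lit 1) (.cons (.rel (nat_lit 20975745)) .nil)) .nil)) .leaf) (nat_lit 5016187532989343) (.br (nat_lit 2) (.cons (.br (nat_lit 3) (.cons (.rel (nat_lit 336089088)) .nil)) .nil)) (.node .leaf (nat_lit 5016187533813242) (.br (nat_lit 3) (.cons (.br (nat_lit 4) (.cons (.rel (nat_lit 2684355600)) (.cons (.rel (nat_lit 1342178310)) .nil))) .nil)) .leaf)) (nat_lit 5016187535102879) (.br (nat_lit 0) (.cons (.br (nat_lit 1) (.cons (.rel (nat_lit 41975889)) .nil)) .nil)) (.node (.node .leaf (nat_lit 5016187535365653) (.br (nat_lit 0) (.cons (.br (nat_lit 1) (.cons (.rel (nat_lit 25166337)) .nil)) .nil)) .leaf) (nat_lit 5016190160778123) (.br (nat_lit 1) (.cons (.br (nat_lit 2) (.cons (.rel (nat_lit 85229568)) .nil)) .nil)) .leaf)))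

/-- refutations 62 -/
def e62 : EX := (.node (.node .leaf (nat_lit 5019377544451458) (.br (nat_lit 2) (.cons (.br (nat_lit 5) (.cons (.rel (nat_lit 4362142272)) .nil)) .nil)) .leaf) (nat_lit 5019379452923282) (.br (nat_lit 1) (.cons (.br (nat_lit 0) (.cons (.rel (nat_lit 37814280)) (.cons (.rel (nat_lit 21233700)) .nil))) .nil)) .leaf)

/-- refutations 63 -/
def e63 : EX := (.node (.node (.node (.node .leaf (nat_lit 5024785948528018) (.br (nat_lit 0) (.cons (.br (nat_lit 1) (.cons (.br (nat_lit 5) (.cons (.rel (nat_lit 4311834624)) .nil)) .nil)) .nil)) .leaf) (nat_lit 5024786073794038) (.br (nat_lit 2) (.cons (.br (nat_lit 6) (.cons (.br (nat_lit 5) (.cons (.rel (nat_lit 21474836754)) (.cons (.br (nat_lit 1) (.cons (.rel (nat_lit 17330864385)) (.cons (.rel (nat_lit 167772420)) (.cons (.rel (nat_lit 4447010817)) (.cons (.rel (nat_lit 83951877)) .nil))))) .nil))) .nil)) .nil)) .leaf) (nat_lit 5024786607097234) (.br (nat_lit 0) (.cons (.br (nat_lit 2) (.cons (.rel (nat_lit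 142606341)) .nil)) .nil)) (.node (.node .leaf (nat_lit 5024791111716242) (.br (nat_lit 1) (.cons (.br (nat_lit 3) (.cons (.rel (nat_lit 285280512)) .nil)) .nil)) .leaf) (nat_lit 5024791112532218) (.br (nat_lit 0) (.cons (.br (nat_lit 3) (.cons (.rel (nat_lit 545259537)) .nil)) .nil)) .leaf)) (nat_lit 5024791112533394) (.br (nat_lit 0) (.cons (.br (nat_lit 1) (.cons (.rel (nat_lit 37748994)) .nil)) .nil)) (.node (.node (.node .leaf (nat_lit 5024791113970316) (.br (nat_lit 0) (.cons (.br (nat_lit 1) (.cons (.rel (nat_lit 23069700)) (.cons (.rel (nat_lit 20975745)) .nil))) .nil)) .leaf) (nat_lit 5024791295702518) (.br (nat_lit 0) (.cons (.br (nat_lit 6) (.cons (.br (nat_lit 1) (.cons (.rel (nat_lit 17200906245)) (.cons (.rel (nat_lit 34376581632)) (.cons (.rel (nat_lit 37766145)) .nil)))) .nil)) .nil)) .leaf) (nat_lit 5025645067253238) (.br (nat_lit 0) (.cons (.br (nat_lit 1) (.cons (.rel (nat_lit 25166337)) (.cons (.rel (nat_lit 21038208)) (.cons (.rel (nat_lit 22544385))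 .nil)))) .nil)) (.node (.node .leaf (nat_lit 5025645069801753) (.br (nat_lit 0) (.cons (.br (nat_lit 1) (.cons (.rel (nat_lit 37753872)) .nil)) .nil)) .leaf) (nat_lit 5025650291710233) (.br (nat_lit 1) (.cons (.br (nat_lit 6) (.cons (.rel (nat_lit 17196990465)) .nil)) .nil)) .leaf)))

/-- refutations 64 -/
def e64 : EX := (.node .leaf (nat_lit 5027148307693046) (.br (nat_lit 0) (.cons (.br (nat_lit 2) (.cons (.rel (nat_lit 71323908)) .nil)) .nil)) .leaf)

/-- refutations 65 -/
def e65 : EX := (.node (.node (.node (.node (.node .leaf (nat_lit 4943662760916505) (.br (nat_lit 0) (.cons (.br (nat_lit 2) (.cons (.rel (nat_lit 71305233)) .nil)) .nil)) .leaf) (nat_lit 4943662763416459) (.br (nat_lit 1) (.cons (.br (nat_lit 3) (.cons (.rel (nat_lit 302022720)) (.cons (.rel (nat_lit 285213216)) .nil))) .nil)) (.node .leaf (nat_lit 4943662763417089) (.br (nat_lit 1) (.cons (.br (nat_lit 3) (.cons (.rel (nat_lit 302022720)) .nil)) .nil)) .leaf)) (nat_lit 4943665342913419) (.br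 (nat_lit 0) (.cons (.br (nat_lit 3) (.cons (.rel (nat_lit 272630808)) .nil)) .nil)) (.node (.node .leaf (nat_lit 4943665862261516) (.br (nat_lit 3) (.cons (.br (nat_lit 1) (.cons (.rel (nat_lit 302022720)) (.cons (.rel (nat_lit 285213216)) (.cons (.rel (nat_lit 285344784)) .nil)))) (.cons (.br (nat_lit 1) (.cons (.rel (nat_lit 285220872)) (.cons (.rel (nat_lit 285213216)) (.cons (.rel (nat_lit 285344784)) .nil)))) .nil))) .leaf) (nat_lit 4943665863521036) (.br (nat_lit 0) (.cons (.br (nat_lit 3) (.cons (.rel (nat_lit 272629794)) (.cons (.br (nat_lit 6) (.cons (.rel (nat_lit 34896674832)) (.cons (.rel (nat_lit 17448435744)) .nil))) .nil))) (.cons (.br (nat_lit 3) (.cons (.rel (nat_lit 272630808)) (.cons (.rel (nat_lit 272646660)) .nil))) .nil))) .leaf)) (nat_lit 4948782647610754) (.br (nat_lit 0) (.cons (.br (nat_lit 2) (.cons (.rel (nat_lit 71305233)) .nil)) .nil)) (.node (.node (.node .leaf (nat_lit 4949074419709465) (.br (nat_lit 0) (.cons (.br (nat_lit 1) (.cons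 (.rel (nat_lit 21233700)) .nil)) .nil)) .leaf) (nat_lit 4949074420950529) (.br (nat_lit 3) (.cons (.br (nat_lit 5) (.cons (.rel (nat_lit 4563419712)) .nil)) .nil)) (.node .leaf (nat_lit 4949074421204481) (.br (nat_lit 2) (.cons (.br (nat_lit 3) (.cons (.rel (nat_lit 335561808)) .nil)) .nil)) .leaf)) (nat_lit 4949076999206425) (.br (nat_lit 0) (.cons (.br (nat_lit 2) (.cons (.rel (nat_lit 71320080)) .nil)) .nil)) (.node (.node .leaf (nat_lit 4949077000446229) (.br (nat_lit 0) (.cons (.br (nat_lit 1) (.cons (.rel (nat_lit 25247760)) .nil)) .nil)) .leaf) (nat_lit 4949079642857749) (.br (nat_lit 0) (.cons (.br (nat_lit 3) (.cons (.rel (nat_lit 272654352)) (.cons (.rel (nat_lit 272630808)) (.cons (.rel (nat_lit 272629794)) .nil)))) .nil)) .leaf))) (nat_lit 4949079642858379) (.br (nat_lit 1) (.cons (.br (nat_lit 3) (.cons (.rel (nat_lit 285213216)) .nil)) .nil)) (.node (.node (.node (.node .leaf (nat_lit 4949079642859009) (.br (nat_lit 0) (.cons (.br (nat_lit 5) (.cons (.rel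 (nat_lit 4299162132)) .nil)) .nil)) .leaf) (nat_lit 4951233594637068) (.br (nat_lit 2) (.cons (.br (nat_lit 3) (.cons (.rel (nat_lit 603980805)) .nil)) .nil)) (.node .leaf (nat_lit 4951233595895958) (.br (nat_lit 1) (.cons (.br (nat_lit 5) (.cons (.rel (nat_lit 4328538192)) .nil)) .nil)) .leaf)) (nat_lit 4955448152417793) (.br (nat_lit 5) (.cons (.br (nat_lit 1) (.cons (.rel (nat_lit 4311762945)) (.cons (.rel (nat_lit 4311744789)) .nil))) .nil)) (.node (.node .leaf (nat_lit 4955453374325643) (.br (nat_lit 0) (.cons (.br (nat_lit 3) (.cons (.rel (nat_lit 272630808)) .nil)) .nil)) .leaf) (nat_lit 4955453374326273) (.br (nat_lit 0) (.cons (.br (nat_lit 5) (.cons (.rel (nat_lit 8598327312)) .nil)) .nil)) .leaf)) (nat_lit 4956513303016331) (.br (nat_lit 0) (.cons (.br (nat_lit 5) (.cons (.rel (nat_lit 4300211328)) .nil)) .nil)) (.node (.node (.node .leaf (nat_lit 4956513303016961) (.br (nat_lit 5) (.cons (.br (nat_lit 6) (.cons (.rel (nat_lit 21474852900)) .nil)) .nil))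 .leaf) (nat_lit 4956513305565461) (.br (nat_lit 1) (.cons (.br (nat_lit 5) (.cons (.rel (nat_lit 4311745794)) .nil)) .nil)) (.node .leaf (nat_lit 4956513305566091) (.br (nat_lit 0) (.cons (.br (nat_lit 5) (.cons (.rel (nat_lit 4299163137)) (.cons (.rel (nat_lit 8598327312)) .nil))) (.cons (.br (nat_lit 5) (.cons (.rel (nat_lit 4299180288)) (.cons (.rel (nat_lit 4299182097)) .nil))) .nil))) .leaf)) (nat_lit 4956516403120278) (.br (nat_lit 2) (.cons (.br (nat_lit 3) (.cons (.rel (nat_lit 603980805)) .nil)) .nil)) (.node (.node .leaf (nat_lit 4956516404134668) (.br (nat_lit 0) (.cons (.br (nat_lit 2) (.cons (.rel (nat_lit 71305233)) .nil)) .nil)) .leaf) (nat_lit 4956516404411148) (.br (nat_lit 1) (.cons (.br (nat_lit 2) (.cons (.rel (nat_lit 101711904)) .nil)) .nil)) .leaf))))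

/-- refutations 66 -/
def e66 : EX := (.node (.node .leaf (nat_lit 5280333259970037) (.br (nat_lit 0) (.cons (.br (nat_lit 1) (.cons (.rel (nat_lit 25166337)) .nil)) .nil)) .leaf) (nat_lit 5283025593886870) (.br (nat_lit 0) (.cons (.br (nat_lit 2) (.cons (.rel (nat_lit 71303178)) .nil)) .nil)) (.node .leaf (nat_lit 5291033750183414) (.br (nat_lit 0) (.cons (.br (nat_lit 2) (.cons (.rel (nat_lit 139460688)) .nil)) .nil)) .leaf))

/-- refutations 67 -/
def e67 : EX := (.node (.node (.node (.node (.node .leaf (nat_lit 5384807232673942) (.br (nat_lit 4) (.cons (.br (nat_lit 1) (.cons (.rel (nat_lit 1107312642)) (.cons (.rel (nat_lit 2164262400)) (.cons (.rel (nat_lit 2164330500)) (.cons (.rel (nat_lit 1090805760)) (.cons (.rel (nat_lit 1107558468)) (.cons (.rel (nat_lit 1090781202)) .nil))))))) .nil)) .leaf) (nat_lit 5384807234875542) (.br (nat_lit 0) (.cons (.br (nat_lit 6) (.cons (.rel (nat_lit 17188323588)) .nil)) .nil)) .leaf) (nat_lit 5384807234876077) (.br (nat_lit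 0) (.cons (.br (nat_lit 1) (.cons (.br (nat_lit 4) (.cons (.br (nat_lit 2) (.cons (.rel (nat_lit 71303178)) (.cons (.rel (nat_lit 1140883728)) .nil))) .nil)) .nil)) .nil)) (.node (.node .leaf (nat_lit 5385379391176956) (.br (nat_lit 0) (.cons (.br (nat_lit 2) (.cons (.rel (nat_lit 71598144)) .nil)) .nil)) .leaf) (nat_lit 5385623272973798) (.br (nat_lit 3) (.cons (.br (nat_lit 6) (.cons (.rel (nat_lit 17448386568)) .nil)) .nil)) .leaf)) (nat_lit 5385623273503531) (.br (nat_lit 0) (.cons (.br (nat_lit 3) (.cons (.rel (nat_lit 272629794)) .nil)) .nil)) (.node (.node (.node .leaf (nat_lit 5385623273504230) (.br (nat_lit 6) (.cons (.br (nat_lit 0) (.cons (.rel (nat_lit 34363938816)) (.cons (.rel (nat_lit 34363932933)) .nil))) .nil)) .leaf) (nat_lit 5385623274827238) (.br (nat_lit 6) (.cons (.br (nat_lit 0) (.cons (.rel (nat_lit 17185144896)) (.cons (.rel (nat_lit 34363938816)) .nil))) .nil)) .leaf) (nat_lit 5385625855958402) (.br (nat_lit 6) (.cons (.br (nat_lit 2) (.cons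 (.rel (nat_lit 17247010848)) (.cons (.rel (nat_lit 34493972496)) .nil))) .nil)) (.node .leaf (nat_lit 5385625856869234) (.br (nat_lit 0) (.cons (.br (nat_lit 4) (.cons (.rel (nat_lit 1078264836)) (.cons (.rel (nat_lit 1082132481)) .nil))) .nil)) .leaf))) (nat_lit 5385625856869762) (.br (nat_lit 0) (.cons (.br (nat_lit 1) (.cons (.rel (nat_lit 23069700)) (.cons (.rel (nat_lit 37753872)) .nil))) .nil)) (.node (.node (.node (.node .leaf (nat_lit 5385625858158742) (.br (nat_lit 0) (.cons (.br (nat_lit 6) (.cons (.rel (nat_lit 17184327684)) .nil)) .nil)) .leaf) (nat_lit 5385626631555332) (.br (nat_lit 0) (.cons (.br (nat_lit 4) (.cons (.rel (nat_lit 1082204160)) .nil)) .nil)) .leaf) (nat_lit 5385628498021652) (.br (nat_lit 0) (.cons (.br (nat_lit 4) (.cons (.br (nat_lit 1) (.cons (.rel (nat_lit 1090519428)) (.cons (.rel (nat_lit 1092616197)) (.cons (.rel (nat_lit 43139073)) .nil)))) .nil)) .nil)) (.node (.node .leaf (nat_lit 5385628498369922) (.br (nat_lit 0) (.cons (.br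 (nat_lit 4) (.cons (.rel (nat_lit 1082131476)) (.cons (.rel (nat_lit 1082132481)) .nil))) .nil)) .leaf) (nat_lit 5385628499086092) (.br (nat_lit 0) (.cons (.br (nat_lit 4) (.cons (.rel (nat_lit 2151710976)) .nil)) .nil)) .leaf)) (nat_lit 5385628500570892) (.br (nat_lit 0) (.cons (.br (nat_lit 6) (.cons (.rel (nat_lit 17184327684)) .nil)) .nil)) (.node (.node (.node .leaf (nat_lit 5385628500919052) (.br (nat_lit 6) (.cons (.br (nat_lit 2) (.cons (.rel (nat_lit 17247010848)) (.cons (.rel (nat_lit 34493972496)) (.cons (.rel (nat_lit 17247010848)) (.cons (.rel (nat_lit 17247048720)) .nil))))) .nil)) .leaf) (nat_lit 5385629022141952) (.br (nat_lit 3) (.cons (.br (nat_lit 5) (.cons (.rel (nat_lit 8858371332)) .nil)) .nil)) .leaf) (nat_lit 5385629023381631) (.br (nat_lit 0) (.cons (.br (nat_lit 2) (.cons (.rel (nat_lit 71304228)) .nil)) .nil)) (.node .leaf (nat_lit 5385629024847999) (.br (nat_lit 0) (.cons (.br (nat_lit 1) (.cons (.rel (nat_lit 37753872)) .nil)) .nil)) .leaf))))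

/-- refutations 68 -/
def e68 : EX := (.node (.node (.node (.node (.node (.node .leaf (nat_lit 5388629753471126) (.br (nat_lit 0) (.cons (.br (nat_lit 2) (.cons (.rel (nat_lit 142606341)) .nil)) .nil)) .leaf) (nat_lit 5388629753567382) (.br (nat_lit 4) (.cons (.br (nat_lit 6) (.cons (.rel (nat_lit 35433484308)) (.cons (.rel (nat_lit 18253971456)) .nil))) .nil)) .leaf) (nat_lit 5388629755768982) (.br (nat_lit 0) (.cons (.br (nat_lit 6) (.cons (.rel (nat_lit 34363932933)) .nil)) .nil)) (.node (.node .leaf (nat_lit 5388629755769517) (.br (nat_lit 0) (.cons (.br (nat_lit 6) (.cons (.rel (nat_lit 17184327684)) .nil)) .nil)) .leaf) (nat_lit 5388629852090495) (.br (nat_lit 0) (.cons (.br (nat_lit 3) (.cons (.rel (nat_lit 277905408)) .nil)) .nil)) .leaf)) (nat_lit 5388892675498866) (.br (nat_lit 0) (.cons (.br (nat_lit 2) (.cons (.rel (nat_lit 71305233)) (.cons (.rel (nat_lit 71376912)) .nil))) .nil)) (.node (.node (.node .leaf (nat_lit 5390187111950588) (.br (nat_lit 0)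 (.cons (.br (nat_lit 1) (.cons (.rel (nat_lit 21242112)) .nil)) .nil)) .leaf) (nat_lit 5391034934904982) (.br (nat_lit 6) (.cons (.br (nat_lit 2) (.cons (.rel (nat_lit 17247010848)) (.cons (.rel (nat_lit 34493972496)) (.cons (.rel (nat_lit 17247010848)) (.cons (.rel (nat_lit 17247010848)) .nil))))) .nil)) .leaf) (nat_lit 5391034935253142) (.br (nat_lit 6) (.cons (.br (nat_lit 2) (.cons (.rel (nat_lit 34493972496)) (.cons (.rel (nat_lit 17247010848)) .nil))) .nil)) (.node .leaf (nat_lit 5391034936165037) (.br (nat_lit 0) (.cons (.br (nat_lit 4) (.cons (.br (nat_lit 6) (.cons (.br (nat_lit 2) (.cons (.rel (nat_lit 2214592836)) (.cons (.rel (nat_lit 17247109128)) (.cons (.br (nat_lit 3) (.cons (.br (nat_lit 5) (.cons (.rel (nat_lit 38923141128)) (.cons (.rel (nat_lit 5368718340)) (.cons (.rel (nat_lit 21474902040)) (.cons (.rel (nat_lit 21474902040)) (.cons (.rel (nat_lit 5368729608)) (.cons (.rel (nat_lit 38923141128)) .nil))))))) (.cons (.rel (nat_lit 17851039776))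 (.cons (.rel (nat_lit 17448435744)) (.cons (.rel (nat_lit 272631813)) (.cons (.rel (nat_lit 272631813)) .nil)))))) .nil)))) (.cons (.rel (nat_lit 19331547204)) .nil))) .nil)) .nil)) .leaf))) (nat_lit 5391034936165253) (.br (nat_lit 0) (.cons (.br (nat_lit 3) (.cons (.rel (nat_lit 272703492)) .nil)) .nil)) (.node (.node (.node (.node .leaf (nat_lit 5391034937454742) (.br (nat_lit 0) (.cons (.br (nat_lit 4) (.cons (.rel (nat_lit 2151678978)) .nil)) .nil)) .leaf) (nat_lit 5391034937455277) (.br (nat_lit 4) (.cons (.br (nat_lit 0) (.cons (.rel (nat_lit 1083441156)) (.cons (.rel (nat_lit 1078202373)) .nil))) .nil)) .leaf) (nat_lit 5391034937803437) (.br (nat_lit 0) (.cons (.br (nat_lit 1) (.cons (.rel (nat_lit 23069700)) .nil)) .nil)) (.node (.node .leaf (nat_lit 5391037086932354) (.br (nat_lit 0) (.cons (.br (nat_lit 1) (.cons (.rel (nat_lit 37753872)) .nil)) .nil)) .leaf) (nat_lit 5391040156814612) (.br (nat_lit 0) (.cons (.br (nat_lit 4) (.cons (.br (nat_lit 6) (.cons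 (.rel (nat_lit 36508352784)) (.cons (.rel (nat_lit 36508270593)) .nil))) .nil)) .nil)) .leaf)) (nat_lit 5391040156814722) (.br (nat_lit 0) (.cons (.br (nat_lit 4) (.cons (.rel (nat_lit 1078202373)) (.cons (.rel (nat_lit 1078264836)) .nil))) .nil)) (.node (.node (.node .leaf (nat_lit 5391040157162772) (.br (nat_lit 0) (.cons (.br (nat_lit 4) (.cons (.rel (nat_lit 1078202373)) .nil)) .nil)) .leaf) (nat_lit 5391040157879052) (.br (nat_lit 0) (.cons (.br (nat_lit 1) (.cons (.br (nat_lit 2) (.cons (.rel (nat_lit 167772420)) (.cons (.rel (nat_lit 84149568)) .nil))) .nil)) .nil)) .leaf) (nat_lit 5391040159363852) (.br (nat_lit 0) (.cons (.br (nat_lit 1) (.cons (.rel (nat_lit 23069700)) (.cons (.rel (nat_lit 23069700)) (.cons (.rel (nat_lit 37753872)) .nil)))) .nil)) (.node .leaf (nat_lit 5391040159712012) (.br (nat_lit 0) (.cons (.br (nat_lit 4) (.cons (.rel (nat_lit 1082131476)) (.cons (.rel (nat_lit 1082131476)) (.cons (.rel (nat_lit 2151813120)) .nil)))) .nil)) .leaf))))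 (nat_lit 5396317744453782) (.br (nat_lit 0) (.cons (.br (nat_lit 6) (.cons (.rel (nat_lit 17186161665)) .nil)) .nil)) (.node (.node (.node (.node (.node .leaf (nat_lit 5396317744679062) (.br (nat_lit 6) (.cons (.br (nat_lit 4) (.cons (.rel (nat_lit 18253874181)) (.cons (.rel (nat_lit 18253874181)) (.cons (.rel (nat_lit 18253873176)) .nil)))) .nil)) .leaf) (nat_lit 5396317744679098) (.br (nat_lit 0) (.cons (.br (nat_lit 2) (.cons (.rel (nat_lit 75502656)) .nil)) .nil)) .leaf) (nat_lit 5396317744679794) (.br (nat_lit 0) (.cons (.br (nat_lit 4) (.cons (.rel (nat_lit 2151813120)) .nil)) .nil)) (.node (.node .leaf (nat_lit 5396317745027222) (.br (nat_lit 0) (.cons (.br (nat_lit 4) (.cons (.br (nat_lit 2) (.cons (.rel (nat_lit 2281702404)) (.cons (.rel (nat_lit 71303178)) (.cons (.br (nat_lit 6) (.cons (.rel (nat_lit 17246995716)) (.cons (.rel (nat_lit 17247010848)) .nil))) .nil)))) (.cons (.rel (nat_lit 2151677973)) .nil))) (.cons (.br (nat_lit 4) (.cons (.rel (nat_lit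 1082131476)) (.cons (.br (nat_lit 1) (.cons (.rel (nat_lit 37766145)) (.cons (.rel (nat_lit 1094721540)) (.cons (.rel (nat_lit 25296900)) (.cons (.rel (nat_lit 1107558468)) (.cons (.rel (nat_lit 37753872)) .nil)))))) .nil))) .nil))) .leaf) (nat_lit 5396317745939117) (.br (nat_lit 0) (.cons (.br (nat_lit 4) (.cons (.br (nat_lit 6) (.cons (.br (nat_lit 2) (.cons (.rel (nat_lit 2214592836)) (.cons (.rel (nat_lit 17247109128)) (.cons (.br (nat_lit 3) (.cons (.br (nat_lit 5) (.cons (.rel (nat_lit 38923141128)) (.cons (.rel (nat_lit 5368718340)) (.cons (.rel (nat_lit 21474902040)) (.cons (.rel (nat_lit 4299194370)) (.cons (.rel (nat_lit 21474902040)) (.cons (.rel (nat_lit 4299163137)) (.cons (.rel (nat_lit 42949754880)) (.cons (.rel (nat_lit 8657059848)) .nil))))))))) (.cons (.rel (nat_lit 402800640)) (.cons (.rel (nat_lit 17448435744)) (.cons (.rel (nat_lit 272631813)) (.cons (.rel (nat_lit 272631813)) .nil)))))) .nil)))) (.cons (.rel (nat_lit 19331547204)) .nil))) .nil))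 .nil)) .leaf)) (nat_lit 5396317745939212) (.br (nat_lit 0) (.cons (.br (nat_lit 4) (.cons (.rel (nat_lit 2151677973)) (.cons (.rel (nat_lit 2151710976)) .nil))) (.cons (.br (nat_lit 6) (.cons (.rel (nat_lit 17184064896)) (.cons (.rel (nat_lit 17186160660)) .nil))) .nil))) (.node (.node (.node .leaf (nat_lit 5396317747228822) (.br (nat_lit 0) (.cons (.br (nat_lit 4) (.cons (.rel (nat_lit 2151710976)) (.cons (.rel (nat_lit 2151677973)) .nil))) (.cons (.br (nat_lit 4) (.cons (.rel (nat_lit 2151813120)) (.cons (.rel (nat_lit 2151678978)) .nil))) .nil))) .leaf) (nat_lit 5396317747229357) (.br (nat_lit 4) (.cons (.br (nat_lit 0) (.cons (.rel (nat_lit 1083441156)) (.cons (.rel (nat_lit 1078202373)) (.cons (.rel (nat_lit 1078202373)) .nil)))) (.cons (.br (nat_lit 6) (.cons (.rel (nat_lit 19327353360)) (.cons (.rel (nat_lit 36507291744)) (.cons (.rel (nat_lit 18253873176)) .nil)))) .nil))) .leaf) (nat_lit 5396317747288749) (.br (nat_lit 0) (.cons (.br (nat_lit 3) (.cons (.rel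 (nat_lit 277905408)) .nil)) .nil)) (.node .leaf (nat_lit 5396317747490966) (.br (nat_lit 1) (.cons (.br (nat_lit 2) (.cons (.rel (nat_lit 83890464)) .nil)) .nil)) .leaf))) (nat_lit 5396317747577517) (.br (nat_lit 6) (.cons (.br (nat_lit 2) (.cons (.rel (nat_lit 17247010848)) (.cons (.rel (nat_lit 17247109128)) .nil))) .nil)) (.node (.node (.node (.node .leaf (nat_lit 5396317747577612) (.br (nat_lit 6) (.cons (.br (nat_lit 0) (.cons (.rel (nat_lit 17186160660)) (.cons (.rel (nat_lit 17184064896)) .nil))) .nil)) .leaf) (nat_lit 5396320324176022) (.br (nat_lit 0) (.cons (.br (nat_lit 1) (.cons (.rel (nat_lit 37753872)) (.cons (.rel (nat_lit 25296900)) (.cons (.rel (nat_lit 37765140)) .nil)))) .nil)) .leaf) (nat_lit 5396320324177282) (.br (nat_lit 0) (.cons (.br (nat_lit 4) (.cons (.rel (nat_lit 1078202373)) (.cons (.rel (nat_lit 2151825441)) (.cons (.rel (nat_lit 1078202373)) (.cons (.rel (nat_lit 1078202373)) .nil))))) .nil)) (.node .leaf (nat_lit 5396320324525442) (.br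 (nat_lit 4) (.cons (.br (nat_lit 0) (.cons (.rel (nat_lit 2151677973)) (.cons (.rel (nat_lit 1082132481)) .nil))) .nil)) .leaf)) (nat_lit 5396320325436274) (.br (nat_lit 2) (.cons (.br (nat_lit 5) (.cons (.rel (nat_lit 8658354432)) .nil)) .nil)) (.node (.node (.node .leaf (nat_lit 5396320325436802) (.br (nat_lit 0) (.cons (.br (nat_lit 4) (.cons (.rel (nat_lit 1078264836)) .nil)) .nil)) .leaf) (nat_lit 5396320326725687) (.br (nat_lit 0) (.cons (.br (nat_lit 4) (.cons (.br (nat_lit 6) (.cons (.rel (nat_lit 18255778080)) (.cons (.rel (nat_lit 17184327684)) .nil))) .nil)) .nil)) .leaf) (nat_lit 5396320326725782) (.br (nat_lit 6) (.cons (.br (nat_lit 0) (.cons (.rel (nat_lit 17184327684)) (.cons (.rel (nat_lit 34363932933)) .nil))) .nil)) (.node .leaf (nat_lit 5396320327073942) (.br (nat_lit 6) (.cons (.br (nat_lit 2) (.cons (.rel (nat_lit 34493972496)) (.cons (.rel (nat_lit 34493972496)) (.cons (.rel (nat_lit 17246978565)) .nil)))) .nil)) .leaf)))))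

/-- refutations 70 -/
def e70 : EX := (.node (.node (.node (.node .leaf (nat_lit 5471265639923867) (.br (nat_lit 0) (.cons (.br (nat_lit 4) (.cons (.rel (nat_lit 1078264836)) .nil)) .nil)) .leaf) (nat_lit 5471265639924497) (.br (nat_lit 2) (.cons (.br (nat_lit 4) (.cons (.rel (nat_lit 1140883728)) .nil)) .nil)) .leaf) (nat_lit 5471270861832977) (.br (nat_lit 0) (.cons (.br (nat_lit 2) (.cons (.rel (nat_lit 72613908)) (.cons (.rel (nat_lit 71305233)) .nil))) (.cons (.br (nat_lit 2) (.cons (.rel (nat_lit 71369220)) (.cons (.rel (nat_lit 71303178)) .nil))) .nil))) (.node (.node .leaf (nat_lit 5471270861833592) (.br (nat_lit 0) (.cons (.br (nat_lit 4) (.cons (.rel (nat_lit 1082131476)) .nil)) .nil)) .leaf) (nat_lit 5471491616441131) (.br (nat_lit 0) (.cons (.br (nat_lit 1) (.cons (.rel (nat_lit 21038208)) .nil)) .nil)) .leaf)) (nat_lit 5473366299639070) (.br (nat_lit 0) (.cons (.br (nat_lit 2) (.cons (.rel (nat_lit 71320080)) .nil)) .nil)) (.node (.node (.node .leaf (nat_lit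 5473584165923077) (.br (nat_lit 0) (.cons (.br (nat_lit 2) (.cons (.rel (nat_lit 71303178)) .nil)) .nil)) .leaf) (nat_lit 5473584166783903) (.br (nat_lit 0) (.cons (.br (nat_lit 3) (.cons (.rel (nat_lit 273023040)) .nil)) .nil)) .leaf) (nat_lit 5473584166951592) (.br (nat_lit 0) (.cons (.br (nat_lit 2) (.cons (.rel (nat_lit 71304228)) .nil)) .nil)) (.node .leaf (nat_lit 5473584166978216) (.br (nat_lit 1) (.cons (.br (nat_lit 2) (.cons (.rel (nat_lit 84213840)) .nil)) .nil)) .leaf)))

/-- refutations 71 -/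
def e71 : EX := (.node (.node (.node (.node (.node .leaf (nat_lit 5476548447148187) (.br (nat_lit 0) (.cons (.br (nat_lit 1) (.cons (.br (nat_lit 3) (.cons (.rel (nat_lit 570429444)) (.cons (.rel (nat_lit 272631813)) .nil))) .nil)) .nil)) .leaf) (nat_lit 5476548447148817) (.br (nat_lit 0) (.cons (.br (nat_lit 2) (.cons (.rel (nat_lit 71305233)) .nil)) .nil)) .leaf) (nat_lit 5476551089559707) (.br (nat_lit 0) (.cons (.br (nat_lit 1) (.cons (.br (nat_lit 2) (.cons (.rel (nat_lit 83886600)) (.cons (.rel (nat_lit 71305233)) .nil))) .nil)) .nil)) (.node .leaf (nat_lit 5476551092109467) (.br (nat_lit 0) (.cons (.br (nat_lit 5) (.cons (.rel (nat_lit 8594129028)) .nil)) .nil)) .leaf)) (nat_lit 5476551092110712) (.br (nat_lit 1) (.cons (.br (nat_lit 4) (.cons (.br (nat_lit 5) (.cons (.rel (nat_lit 4328538192)) (.cons (.rel (nat_lit 9680453652)) .nil))) .nil)) .nil)) (.node (.node .leaf (nat_lit 5476553671607057) (.br (nat_lit 0) (.cons (.br (nat_lit 4) (.cons (.br (nat_lit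 3) (.cons (.rel (nat_lit 272631813)) (.cons (.rel (nat_lit 2424307716)) .nil))) .nil)) .nil)) .leaf) (nat_lit 5476553671607672) (.br (nat_lit 0) (.cons (.br (nat_lit 5) (.cons (.rel (nat_lit 8594129028)) .nil)) .nil)) (.node .leaf (nat_lit 5482380257138147) (.br (nat_lit 1) (.cons (.br (nat_lit 2) (.cons (.rel (nat_lit 167772420)) .nil)) .nil)) .leaf))) (nat_lit 5482380257512931) (.br (nat_lit 1) (.cons (.br (nat_lit 6) (.cons (.rel (nat_lit 17213423625)) .nil)) .nil)) (.node (.node (.node .leaf (nat_lit 5482380258940387) (.br (nat_lit 2) (.cons (.br (nat_lit 6) (.cons (.rel (nat_lit 17247043842)) .nil)) .nil)) .leaf) (nat_lit 5482380258998453) (.br (nat_lit 0) (.cons (.br (nat_lit 1) (.cons (.rel (nat_lit 39063552)) .nil)) .nil)) (.node .leaf (nat_lit 5482380259806085) (.br (nat_lit 1) (.cons (.br (nat_lit 4) (.cons (.br (nat_lit 6) (.cons (.rel (nat_lit 18255708162)) .nil)) .nil)) .nil)) .leaf)) (nat_lit 5482380826509444) (.br (nat_lit 0) (.cons (.br (nat_lit 3)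 (.cons (.rel (nat_lit 276825408)) .nil)) .nil)) (.node (.node .leaf (nat_lit 5482383653503761) (.br (nat_lit 4) (.cons (.br (nat_lit 0) (.cons (.rel (nat_lit 1078202373)) (.cons (.rel (nat_lit 1082204160)) (.cons (.rel (nat_lit 1078202373)) .nil)))) (.cons (.br (nat_lit 0) (.cons (.rel (nat_lit 1082131476)) (.cons (.br (nat_lit 2) (.cons (.rel (nat_lit 1140852744)) (.cons (.rel (nat_lit 1140985872)) (.cons (.rel (nat_lit 71389185)) .nil)))) (.cons (.rel (nat_lit 2151677973)) .nil)))) .nil))) .leaf) (nat_lit 5484484791368942) (.br (nat_lit 0) (.cons (.br (nat_lit 1) (.cons (.rel (nat_lit 25183488)) .nil)) .nil)) (.node .leaf (nat_lit 5484490179434498) (.br (nat_lit 0) (.cons (.br (nat_lit 1) (.cons (.rel (nat_lit 37753872)) .nil)) .nil)) .leaf))))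

/-- refutations 72 -/
def e72 : EX := (.node (.node (.node (.node .leaf (nat_lit 10995436883510180) (.br (nat_lit 0) (.cons (.br (nat_lit 1) (.cons (.rel (nat_lit 21038208)) .nil)) .nil)) .leaf) (nat_lit 10996404923241128) (.br (nat_lit 0) (.cons (.br (nat_lit 1) (.cons (.rel (nat_lit 25247760)) .nil)) .nil)) .leaf) (nat_lit 10996407920965094) (.br (nat_lit 0) (.cons (.br (nat_lit 3) (.cons (.rel (nat_lit 272654352)) .nil)) .nil)) (.node .leaf (nat_lit 10997532927043765) (.br (nat_lit 0) (.cons (.br (nat_lit 3) (.cons (.rel (nat_lit 272646660)) .nil)) .nil)) .leaf)) (nat_lit 10997533199673525) (.br (nat_lit 0) (.cons (.br (nat_lit 5) (.cons (.rel (nat_lit 4299162132)) .nil)) .nil)) (.node (.node .leaf (nat_lit 10997533749037808) (.br (nat_lit 0) (.cons (.br (nat_lit 3) (.cons (.rel (nat_lit 272630808)) .nil)) .nil)) .leaf) (nat_lit 10997533751588198) (.br (nat_lit 0) (.cons (.br (nat_lit 1) (.cons (.rel (nat_lit 20975745)) (.cons (.rel (nat_lit 22544385)) .nil)))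 .nil)) (.node .leaf (nat_lit 10997533852251494) (.br (nat_lit 0) (.cons (.br (nat_lit 5) (.cons (.rel (nat_lit 4299169824)) (.cons (.rel (nat_lit 4299231237)) .nil))) .nil)) .leaf)))

/-- refutations 73 -/
def e73 : EX := (.node (.node (.node .leaf (nat_lit 11002675574026521) (.br (nat_lit 1) (.cons (.br (nat_lit 2) (.cons (.rel (nat_lit 83886600)) .nil)) .nil)) .leaf) (nat_lit 11006329945587844) (.br (nat_lit 0) (.cons (.br (nat_lit 1) (.cons (.rel (nat_lit 37753872)) .nil)) .nil)) .leaf) (nat_lit 11008090232010214) (.br (nat_lit 0) (.cons (.br (nat_lit 1) (.cons (.rel (nat_lit 37766145)) .nil)) .nil)) (.node (.node .leaf (nat_lit 11008092872990182) (.br (nat_lit 0) (.cons (.br (nat_lit 1) (.cons (.rel (nat_lit 37748994)) .nil)) .nil)) .leaf) (nat_lit 11008092874421734) (.br (nat_lit 0) (.cons (.br (nat_lit 3) (.cons (.br (nat_lit 4) (.cons (.rel (nat_lit 2684355600)) (.cons (.br (nat_lit 2) (.cons (.rel (nat_lit 1744830465)) (.cons (.rel (nat_lit 1145111616)) .nil)))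 .nil))) .nil)) .nil)) .leaf))

/-- refutations 74 -/
def e74 : EX := (.node (.node (.node (.node (.node (.node .leaf (nat_lit 11084168662454422) (.br (nat_lit 0) (.cons (.br (nat_lit 1) (.cons (.rel (nat_lit 25166337)) .nil)) .nil)) .leaf) (nat_lit 11084168662455147) (.br (nat_lit 0) (.cons (.br (nat_lit 1) (.cons (.rel (nat_lit 37753872)) .nil)) .nil)) .leaf) (nat_lit 11084168662874372) (.br (nat_lit 0) (.cons (.br (nat_lit 4) (.cons (.rel (nat_lit 2151710976)) .nil)) .nil)) (.node .leaf (nat_lit 11084168662875669) (.br (nat_lit 0) (.cons (.br (nat_lit 3) (.cons (.rel (nat_lit 273023040)) .nil)) .nil)) .leaf)) (nat_lit 11084168663707798) (.br (nat_lit 0) (.cons (.br (nat_lit 3) (.cons (.rel (nat_lit 277905408)) .nil)) .nil)) (.node (.node .leaf (nat_lit 11084168664169325) (.br (nat_lit 0) (.cons (.br (nat_lit 1) (.cons (.rel (nat_lit 23069700)) .nil)) .nil)) .leaf) (nat_lit 11084168665193079) (.br (nat_lit 4) (.cons (.br (nat_lit 0) (.cons (.rel (nat_lit 2151677973))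 (.cons (.rel (nat_lit 2151710976)) .nil))) .nil)) (.node .leaf (nat_lit 11084168665424022) (.br (nat_lit 2) (.cons (.br (nat_lit 4) (.cons (.rel (nat_lit 2214658113)) .nil)) .nil)) .leaf))) (nat_lit 11084168665540758) (.br (nat_lit 2) (.cons (.br (nat_lit 4) (.cons (.rel (nat_lit 1140876288)) .nil)) .nil)) (.node (.node (.node .leaf (nat_lit 11084169395029373) (.br (nat_lit 1) (.cons (.br (nat_lit 4) (.cons (.rel (nat_lit 2164293633)) .nil)) .nil)) .leaf) (nat_lit 11084173604577937) (.br (nat_lit 0) (.cons (.br (nat_lit 3) (.cons (.rel (nat_lit 272629794)) .nil)) .nil)) (.node .leaf (nat_lit 11084174106625562) (.br (nat_lit 1) (.cons (.br (nat_lit 2) (.cons (.rel (nat_lit 83890464)) .nil)) .nil)) .leaf)) (nat_lit 11084174107123993) (.br (nat_lit 1) (.cons (.br (nat_lit 6) (.cons (.rel (nat_lit 17198776320)) .nil)) .nil)) (.node (.node .leaf (nat_lit 11084174107125012) (.br (nat_lit 0) (.cons (.br (nat_lit 1) (.cons (.rel (nat_lit 25296900)) .nil)) .nil)) .leaf) (nat_lit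 11084174109683993) (.br (nat_lit 0) (.cons (.br (nat_lit 3) (.cons (.rel (nat_lit 272654352)) .nil)) .nil)) (.node .leaf (nat_lit 11085331592214708) (.br (nat_lit 0) (.cons (.br (nat_lit 1) (.cons (.rel (nat_lit 20975745)) .nil)) .nil)) .leaf)))) (nat_lit 11085659463175406) (.br (nat_lit 0) (.cons (.br (nat_lit 1) (.cons (.rel (nat_lit 37766145)) .nil)) .nil)) (.node (.node (.node (.node (.node .leaf (nat_lit 11088457132931204) (.br (nat_lit 1) (.cons (.br (nat_lit 6) (.cons (.rel (nat_lit 17196990465)) .nil)) .nil)) .leaf) (nat_lit 11088469399893345) (.br (nat_lit 0) (.cons (.br (nat_lit 1) (.cons (.rel (nat_lit 21233700)) .nil)) .nil)) .leaf) (nat_lit 11088918495383833) (.br (nat_lit 1) (.cons (.br (nat_lit 4) (.cons (.rel (nat_lit 1108672512)) .nil)) .nil)) (.node .leaf (nat_lit 11088921215733910) (.br (nat_lit 0) (.cons (.br (nat_lit 1) (.cons (.rel (nat_lit 20975745)) .nil)) .nil)) .leaf)) (nat_lit 11088921216002198) (.br (nat_lit 0) (.cons (.br (nat_lit 1) (.cons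 (.rel (nat_lit 21234705)) .nil)) .nil)) (.node (.node .leaf (nat_lit 11088921218551958) (.br (nat_lit 0) (.cons (.br (nat_lit 4) (.cons (.rel (nat_lit 1078215696)) .nil)) .nil)) .leaf) (nat_lit 11088921643731094) (.br (nat_lit 0) (.cons (.br (nat_lit 3) (.cons (.rel (nat_lit 272666625)) (.cons (.rel (nat_lit 543178752)) (.cons (.rel (nat_lit 272666625)) .nil)))) .nil)) (.node .leaf (nat_lit 11088921645316997) (.br (nat_lit 0) (.cons (.br (nat_lit 1) (.cons (.rel (nat_lit 20975745)) (.cons (.rel (nat_lit 37814280)) .nil))) .nil)) .leaf))) (nat_lit 11088921645317347) (.br (nat_lit 0) (.cons (.br (nat_lit 3) (.cons (.rel (nat_lit 277905408)) .nil)) .nil)) (.node (.node (.node .leaf (nat_lit 11088924340669716) (.br (nat_lit 0) (.cons (.br (nat_lit 4) (.cons (.rel (nat_lit 1082204160)) .nil)) .nil)) .leaf) (nat_lit 11088924340669798) (.br (nat_lit 0) (.cons (.br (nat_lit 5) (.cons (.rel (nat_lit 4299194370)) .nil)) .nil)) (.node .leaf (nat_lit 11088924342049049) (.br (nat_lit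 0) (.cons (.br (nat_lit 1) (.cons (.rel (nat_lit 37748994)) .nil)) .nil)) .leaf)) (nat_lit 11088924342049548) (.br (nat_lit 0) (.cons (.br (nat_lit 1) (.cons (.rel (nat_lit 37753872)) .nil)) .nil)) (.node (.node .leaf (nat_lit 11088924342253849) (.br (nat_lit 5) (.cons (.br (nat_lit 6) (.cons (.rel (nat_lit 21474836754)) .nil)) .nil)) .leaf) (nat_lit 11088924343072246) (.br (nat_lit 3) (.cons (.br (nat_lit 5) (.cons (.rel (nat_lit 4563403860)) .nil)) .nil)) (.node .leaf (nat_lit 11088924343308569) (.br (nat_lit 3) (.cons (.br (nat_lit 6) (.cons (.rel (nat_lit 17448567108)) .nil)) .nil)) .leaf)))))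

/-- refutations 75 -/
def e75 : EX := (.node (.node .leaf (nat_lit 11095413089926021) (.br (nat_lit 0) (.cons (.br (nat_lit 1) (.cons (.rel (nat_lit 25247760)) .nil)) .nil)) .leaf) (nat_lit 11096412068281221) (.br (nat_lit 0) (.cons (.br (nat_lit 1) (.cons (.rel (nat_lit 37814280)) .nil)) .nil)) .leaf)

/-- refutations 76 -/
def e76 : EX := (.node (.node (.node (.node (.node (.node .leaf (nat_lit 5296540375382166) (.br (nat_lit 2) (.cons (.br (nat_lit 5) (.cons (.rel (nat_lit 4362077280)) .nil)) .nil)) .leaf) (nat_lit 5296540376672406) (.br (nat_lit 0) (.cons (.br (nat_lit 2) (.cons (.rel (nat_lit 142606341)) .nil)) .nil)) .leaf) (nat_lit 5296806175556994) (.br (nat_lit 6) (.cons (.br (nat_lit 4) (.cons (.rel (nat_lit 35433547776)) (.cons (.rel (nat_lit 18255708162)) .nil))) .nil)) (.node .leaf (nat_lit 5296806478243102) (.br (nat_lit 0) (.cons (.br (nat_lit 2) (.cons (.rel (nat_lit 71305233)) .nil)) .nil)) .leaf)) (nat_lit 5296808755052825) (.br (nat_lit 1) (.cons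 (.br (nat_lit 2) (.cons (.rel (nat_lit 100745280)) .nil)) .nil)) (.node (.node .leaf (nat_lit 5296808755750174) (.br (nat_lit 0) (.cons (.br (nat_lit 2) (.cons (.br (nat_lit 6) (.cons (.rel (nat_lit 17314091136)) .nil)) .nil)) .nil)) .leaf) (nat_lit 5296808755806489) (.br (nat_lit 1) (.cons (.br (nat_lit 3) (.cons (.rel (nat_lit 285213216)) .nil)) .nil)) (.node .leaf (nat_lit 5296808757245214) (.br (nat_lit 0) (.cons (.br (nat_lit 3) (.cons (.br (nat_lit 5) (.cons (.rel (nat_lit 4831920132)) .nil)) .nil)) .nil)) .leaf))) (nat_lit 5296808757603084) (.br (nat_lit 5) (.cons (.br (nat_lit 2) (.cons (.br (nat_lit 4) (.cons (.rel (nat_lit 1140850725)) (.cons (.rel (nat_lit 1140851730)) .nil))) (.cons (.br (nat_lit 4) (.cons (.br (nat_lit 6) (.cons (.rel (nat_lit 18255708162)) (.cons (.rel (nat_lit 35433547776)) .nil))) (.cons (.rel (nat_lit 2214592836)) .nil))) .nil))) .nil)) (.node (.node (.node .leaf (nat_lit 5297916856345511) (.br (nat_lit 0) (.cons (.br (nat_lit 1) (.cons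 (.rel (nat_lit 25432128)) .nil)) .nil)) .leaf) (nat_lit 5300854613710326) (.br (nat_lit 0) (.cons (.br (nat_lit 1) (.cons (.rel (nat_lit 23069700)) .nil)) .nil)) (.node .leaf (nat_lit 5301092854844774) (.br (nat_lit 0) (.cons (.br (nat_lit 5) (.cons (.rel (nat_lit 4299169824)) .nil)) .nil)) .leaf)) (nat_lit 5301095131878902) (.br (nat_lit 0) (.cons (.br (nat_lit 1) (.cons (.rel (nat_lit 23069700)) (.cons (.rel (nat_lit 25166337)) (.cons (.rel (nat_lit 37748994)) .nil)))) .nil)) (.node (.node .leaf (nat_lit 5301095133167897) (.br (nat_lit 4) (.cons (.br (nat_lit 0) (.cons (.rel (nat_lit 1078198545)) (.cons (.rel (nat_lit 1078002048)) (.cons (.rel (nat_lit 1078198545)) (.cons (.rel (nat_lit 2151677973)) (.cons (.rel (nat_lit 2151678978)) .nil)))))) (.cons (.br (nat_lit 5) (.cons (.rel (nat_lit 10737418497)) (.cons (.br (nat_lit 1) (.cons (.rel (nat_lit 2164293633)) (.cons (.rel (nat_lit 2164330500)) (.cons (.rel (nat_lit 4311745794)) (.cons (.rel (nat_lit 2164281360))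 .nil))))) .nil))) .nil))) .leaf) (nat_lit 5301095133169118) (.br (nat_lit 5) (.cons (.br (nat_lit 1) (.cons (.rel (nat_lit 4311762945)) (.cons (.rel (nat_lit 4311761940)) .nil))) .nil)) (.node .leaf (nat_lit 5301095133169166) (.br (nat_lit 0) (.cons (.br (nat_lit 4) (.cons (.rel (nat_lit 1078198545)) .nil)) .nil)) .leaf)))) (nat_lit 5301095134458137) (.br (nat_lit 4) (.cons (.br (nat_lit 5) (.cons (.rel (nat_lit 5368714512)) (.cons (.rel (nat_lit 10737418497)) (.cons (.rel (nat_lit 5368709634)) .nil)))) .nil)) (.node (.node (.node (.node .leaf (nat_lit 5301095134459382) (.br (nat_lit 0) (.cons (.br (nat_lit 1) (.cons (.br (nat_lit 4) (.cons (.rel (nat_lit 1094721540)) .nil)) .nil)) .nil)) .leaf) (nat_lit 5301095134960873) (.br (nat_lit 0) (.cons (.br (nat_lit 2) (.cons (.rel (nat_lit 71598144)) .nil)) .nil)) (.node .leaf (nat_lit 5302215193196694) (.br (nat_lit 4) (.cons (.br (nat_lit 6) (.cons (.rel (nat_lit 18253873176)) (.cons (.rel (nat_lit 19327353360)) (.cons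 (.rel (nat_lit 36508270593)) .nil)))) (.cons (.br (nat_lit 2) (.cons (.rel (nat_lit 1140887556)) (.cons (.rel (nat_lit 1140876288)) (.cons (.rel (nat_lit 1140876288)) (.cons (.rel (nat_lit 1140850725)) .nil))))) .nil))) .leaf)) (nat_lit 5302215193981209) (.br (nat_lit 0) (.cons (.br (nat_lit 1) (.cons (.rel (nat_lit 22024512)) .nil)) .nil)) (.node (.node .leaf (nat_lit 5302215194486934) (.br (nat_lit 2) (.cons (.br (nat_lit 6) (.cons (.rel (nat_lit 17246978565)) .nil)) .nil)) .leaf) (nat_lit 5302220413846284) (.br (nat_lit 5) (.cons (.br (nat_lit 2) (.cons (.rel (nat_lit 4362076230)) (.cons (.rel (nat_lit 4429217796)) (.cons (.rel (nat_lit 4362077280)) .nil)))) (.cons (.br (nat_lit 6) (.cons (.br (nat_lit 1) (.cons (.rel (nat_lit 17213423625)) (.cons (.rel (nat_lit 34376516640)) (.cons (.rel (nat_lit 4311761940)) .nil)))) (.cons (.rel (nat_lit 21474837768)) .nil))) .nil))) (.node .leaf (nat_lit 5302220414599449) (.br (nat_lit 4) (.cons (.br (nat_lit 2) (.cons (.rel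 (nat_lit 1140876288)) (.cons (.rel (nat_lit 1140921600)) (.cons (.rel (nat_lit 1140851730)) .nil)))) .nil)) .leaf))) (nat_lit 5302220415889689) (.br (nat_lit 0) (.cons (.br (nat_lit 1) (.cons (.rel (nat_lit 22024512)) .nil)) .nil)) (.node (.node (.node .leaf (nat_lit 5302220416396044) (.br (nat_lit 0) (.cons (.br (nat_lit 2) (.cons (.br (nat_lit 5) (.cons (.rel (nat_lit 4299162132)) (.cons (.rel (nat_lit 4363142148)) (.cons (.rel (nat_lit 4299162132)) (.cons (.rel (nat_lit 4299165960)) .nil))))) (.cons (.rel (nat_lit 142606341)) (.cons (.rel (nat_lit 71304228)) .nil)))) (.cons (.br (nat_lit 2) (.cons (.rel (nat_lit 71304228)) (.cons (.br (nat_lit 4) (.cons (.rel (nat_lit 1140859137)) (.cons (.rel (nat_lit 2283802944)) (.cons (.rel (nat_lit 1140876288)) .nil)))) (.cons (.rel (nat_lit 142606341)) .nil)))) (.cons (.br (nat_lit 5) (.cons (.rel (nat_lit 4299162132)) (.cons (.br (nat_lit 2) (.cons (.rel (nat_lit 4363142148)) (.cons (.rel (nat_lit 4363130880)) (.cons (.rel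 (nat_lit 71304228)) .nil)))) (.cons (.rel (nat_lit 4299163137)) (.cons (.rel (nat_lit 4299293700)) .nil))))) .nil)))) .leaf) (nat_lit 5306266272680616) (.br (nat_lit 0) (.cons (.br (nat_lit 3) (.cons (.rel (nat_lit 545259537)) .nil)) .nil)) (.node .leaf (nat_lit 5308359637223479) (.br (nat_lit 0) (.cons (.br (nat_lit 2) (.cons (.rel (nat_lit 71303178)) (.cons (.rel (nat_lit 71369220)) .nil))) .nil)) .leaf)) (nat_lit 5308359638484244) (.br (nat_lit 0) (.cons (.br (nat_lit 3) (.cons (.rel (nat_lit 272646660)) (.cons (.rel (nat_lit 543178752)) .nil))) .nil)) (.node (.node .leaf (nat_lit 5308362217980584) (.br (nat_lit 0) (.cons (.br (nat_lit 3) (.cons (.rel (nat_lit 545259537)) .nil)) .nil)) .leaf) (nat_lit 5308362217981204) (.br (nat_lit 0) (.cons (.br (nat_lit 6) (.cons (.rel (nat_lit 17188278276)) .nil)) .nil)) (.node .leaf (nat_lit 5308606104533142) (.br (nat_lit 4) (.cons (.br (nat_lit 5) (.cons (.br (nat_lit 2) (.cons (.rel (nat_lit 4362076230)) (.cons (.rel (nat_lit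 1140887556)) (.cons (.rel (nat_lit 1140850725)) .nil)))) .nil)) .nil)) .leaf)))))

/-- refutations 77 -/
def e77 : EX := (.node .leaf (nat_lit 11207350939370402) (.br (nat_lit 0) (.cons (.br (nat_lit 2) (.cons (.rel (nat_lit 71304228)) .nil)) .nil)) .leaf)

/-- refutations 78 -/
def e78 : EX := (.node .leaf (nat_lit 11218271578661145) (.br (nat_lit 0) (.cons (.br (nat_lit 1) (.cons (.rel (nat_lit 21038208)) .nil)) .nil)) .leaf)

/-- refutations 79 -/
def e79 : EX := (.node (.node .leaf (nat_lit 11106060549438701) (.br (nat_lit 0) (.cons (.br (nat_lit 1) (.cons (.rel (nat_lit 25183488)) .nil)) .nil)) .leaf) (nat_lit 11106060549705729) (.br (nat_lit 1) (.cons (.br (nat_lit 2) (.cons (.rel (nat_lit 84017154)) .nil)) .nil)) .leaf)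

/-- refutations 81 -/
def e81 : EX := (.node (.node (.node (.node .leaf (nat_lit 11472522353857439) (.br (nat_lit 0) (.cons (.br (nat_lit 3) (.cons (.rel (nat_lit 276889680)) .nil)) .nil)) .leaf) (nat_lit 11472522973563041) (.br (nat_lit 0) (.cons (.br (nat_lit 3) (.cons (.rel (nat_lit 272703492)) (.cons (.rel (nat_lit 545259537)) (.cons (.rel (nat_lit 272631813)) .nil)))) (.cons (.br (nat_lit 3) (.cons (.rel (nat_lit 272703492)) (.cons (.rel (nat_lit 272703492)) (.cons (.rel (nat_lit 272629794)) .nil)))) .nil))) .leaf) (nat_lit 11472522973602727) (.br (nat_lit 0) (.cons (.br (nat_lit 1) (.cons (.rel (nat_lit 21233700)) .nil)) .nil)) (.node (.node .leaf (nat_lit 11472522975149582) (.br (nat_lit 0) (.cons (.br (nat_lit 1) (.cons (.rel (nat_lit 25168404)) (.cons (.rel (nat_lit 39845952)) .nil))) .nil)) .leaf) (nat_lit 11472522976112801) (.br (nat_lit 3) (.cons (.br (nat_lit 0) (.cons (.rel (nat_lit 545259537)) (.cons (.rel (nat_lit 273940488)) .nil))) .nil)) .leaf))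 (nat_lit 11472522976120993) (.br (nat_lit 0) (.cons (.br (nat_lit 3) (.cons (.rel (nat_lit 272630808)) .nil)) .nil)) (.node (.node (.node .leaf (nat_lit 11472522976212494) (.br (nat_lit 0) (.cons (.br (nat_lit 2) (.cons (.rel (nat_lit 142606341)) .nil)) .nil)) .leaf) (nat_lit 11472522976407554) (.br (nat_lit 0) (.cons (.br (nat_lit 1) (.cons (.rel (nat_lit 21233700)) .nil)) .nil)) .leaf) (nat_lit 11472522976430705) (.br (nat_lit 0) (.cons (.br (nat_lit 6) (.cons (.rel (nat_lit 17185144896)) .nil)) .nil)) (.node (.node .leaf (nat_lit 11475950360332913) (.br (nat_lit 0) (.cons (.br (nat_lit 1) (.cons (.rel (nat_lit 22024512)) .nil)) .nil)) .leaf) (nat_lit 11475951730588910) (.br (nat_lit 0) (.cons (.br (nat_lit 1) (.cons (.rel (nat_lit 20975745)) .nil)) .nil)) .leaf)))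

/-- refutations 82 -/
def e82 : EX := (.node (.node (.node .leaf (nat_lit 11476777068880808) (.br (nat_lit 0) (.cons (.br (nat_lit 1) (.cons (.rel (nat_lit 25166337)) .nil)) .nil)) .leaf) (nat_lit 11476777068903926) (.br (nat_lit 1) (.cons (.br (nat_lit 4) (.cons (.rel (nat_lit 1092616197)) (.cons (.rel (nat_lit 1090519428)) .nil))) .nil)) .leaf) (nat_lit 11476806204929526) (.br (nat_lit 2) (.cons (.br (nat_lit 3) (.cons (.rel (nat_lit 336089088)) .nil)) .nil)) (.node .leaf (nat_lit 11481152210418344) (.br (nat_lit 0) (.cons (.br (nat_lit 4) (.cons (.rel (nat_lit 2151678978)) .nil)) .nil)) .leaf))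

/-- refutations 84 -/
def e84 : EX := (.node (.node .leaf (nat_lit 11453888175640726) (.br (nat_lit 1) (.cons (.br (nat_lit 4) (.cons (.rel (nat_lit 1107300369)) .nil)) .nil)) .leaf) (nat_lit 11465894175461657) (.br (nat_lit 0) (.cons (.br (nat_lit 1) (.cons (.rel (nat_lit 20975745)) .nil)) .nil)) .leaf)

/-- refutations 85 -/
def e85 : EX := (.node (.node .leaf (nat_lit 11911513155316587) (.br (nat_lit 1) (.cons (.br (nat_lit 2) (.cons (.rel (nat_lit 101711904)) .nil)) .nil)) .leaf) (nat_lit 11916615576464235) (.br (nat_lit 0) (.cons (.br (nat_lit 5) (.cons (.rel (nat_lit 4299231237)) .nil)) .nil)) .leaf)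

/-- refutations 86 -/
def e86 : EX := (.node (.node (.node .leaf (nat_lit 12069785971753261) (.br (nat_lit 0) (.cons (.br (nat_lit 1) (.cons (.rel (nat_lit 25166337)) .nil)) .nil)) .leaf) (nat_lit 12069786569777802) (.br (nat_lit 0) (.cons (.br (nat_lit 4) (.cons (.rel (nat_lit 1080098817)) .nil)) .nil)) .leaf) (nat_lit 12069786571332865) (.br (nat_lit 0) (.cons (.br (nat_lit 1) (.cons (.rel (nat_lit 26214528)) .nil)) .nil)) (.node (.node .leaf (nat_lit 12070659719225471) (.br (nat_lit 0) (.cons (.br (nat_lit 2) (.cons (.rel (nat_lit 142606341)) .nil)) .nil)) .leaf) (nat_lit 12070819967114121) (.br (nat_lit 0) (.cons (.br (nat_lit 1) (.cons (.rel (nat_lit 23069700)) .nil)) .nil)) .leaf))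

/-- refutations 87 -/
def e87 : EX := (.node (.node .leaf (nat_lit 12074082085144726) (.br (nat_lit 0) (.cons (.br (nat_lit 2) (.cons (.br (nat_lit 1) (.cons (.rel (nat_lit 83886600)) (.cons (.rel (nat_lit 37814280)) (.cons (.rel (nat_lit 25247760)) .nil)))) .nil)) .nil)) .leaf) (nat_lit 12074082085145987) (.br (nat_lit 0) (.cons (.br (nat_lit 1) (.cons (.rel (nat_lit 37814280)) .nil)) .nil)) (.node .leaf (nat_lit 12081608963740429) (.br (nat_lit 0) (.cons (.br (nat_lit 1) (.cons (.br (nat_lit 2) (.cons (.rel (nat_lit 167772420)) .nil)) .nil)) .nil)) .leaf))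

/-- refutations 88 -/
def e88 : EX := (.node .leaf (nat_lit 11999386089061253) (.br (nat_lit 1) (.cons (.br (nat_lit 3) (.cons (.rel (nat_lit 285217044)) .nil)) .nil)) .leaf)

/-- refutations 89 -/
def e89 : EX := (.node (.node (.node .leaf (nat_lit 13301250709283743) (.br (nat_lit 0) (.cons (.br (nat_lit 5) (.cons (.rel (nat_lit 4304420880)) .nil)) .nil)) .leaf) (nat_lit 13301250710311839) (.br (nat_lit 5) (.cons (.br (nat_lit 2) (.cons (.rel (nat_lit 8657059848)) (.cons (.rel (nat_lit 4362604560)) .nil))) .nil)) (.node .leaf (nat_lit 13301253221466362) (.br (nat_lit 1) (.cons (.br (nat_lit 3) (.cons (.rel (nat_lit 570429444)) .nil)) .nil)) .leaf)) (nat_lit 13302106641169036) (.br (nat_lit 0) (.cons (.br (nat_lit 5) (.cons (.rel (nat_lit 4299165960)) .nil)) .nil)) (.node (.node .leaf (nat_lit 13302109199368993) (.br (nat_lit 1) (.cons (.br (nat_lit 5) (.cons (.rel (nat_lit 4311777792)) .nil)) .nil)) .leaf) (nat_lit 13302109199694481) (.br (nat_lit 1) (.cons (.br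 (nat_lit 3) (.cons (.rel (nat_lit 285213216)) .nil)) .nil)) .leaf))

/-- refutations 90 -/
def e90 : EX := (.node (.node (.node .leaf (nat_lit 13311564509892070) (.br (nat_lit 1) (.cons (.br (nat_lit 3) (.cons (.rel (nat_lit 285280512)) .nil)) .nil)) .leaf) (nat_lit 13311567091938790) (.br (nat_lit 1) (.cons (.br (nat_lit 5) (.cons (.rel (nat_lit 8606974224)) .nil)) .nil)) .leaf) (nat_lit 13311567638573808) (.br (nat_lit 3) (.cons (.br (nat_lit 1) (.cons (.rel (nat_lit 570425616)) (.cons (.rel (nat_lit 285344784)) .nil))) .nil)) (.node (.node .leaf (nat_lit 13311567641124198) (.br (nat_lit 1) (.cons (.br (nat_lit 5) (.cons (.rel (nat_lit 4311811080)) .nil)) .nil)) .leaf) (nat_lit 13313072970648204) (.br (nat_lit 0) (.cons (.br (nat_lit 2) (.cons (.rel (nat_lit 71376912)) .nil)) .nil)) .leaf))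

/-- refutations 91 -/
def e91 : EX := (.node (.node (.node (.node .leaf (nat_lit 13387917255049497) (.br (nat_lit 1) (.cons (.br (nat_lit 4) (.cons (.rel (nat_lit 1090782216)) .nil)) .nil)) .leaf) (nat_lit 13389844059781121) (.br (nat_lit 0) (.cons (.br (nat_lit 4) (.cons (.rel (nat_lit 1077956736)) (.cons (.rel (nat_lit 1080033540)) (.cons (.rel (nat_lit 2151813120)) .nil)))) (.cons (.br (nat_lit 2) (.cons (.rel (nat_lit 71369220)) (.cons (.rel (nat_lit 71369220)) .nil))) .nil))) (.node .leaf (nat_lit 13389844062100087) (.br (nat_lit 0) (.cons (.br (nat_lit 2) (.cons (.rel (nat_lit 71451648)) .nil)) .nil)) .leaf)) (nat_lit 13389846639279342) (.br (nat_lit 0) (.cons (.br (nat_lit 1) (.cons (.rel (nat_lit 25166337)) .nil)) .nil)) (.node (.node .leaf (nat_lit 13389846640048278) (.br (nat_lit 0) (.cons (.br (nat_lit 3) (.cons (.rel (nat_lit 277905408)) .nil)) .nil)) .leaf) (nat_lit 13389846641830518) (.br (nat_lit 1) (.cons (.br (nat_lit 2) (.cons (.rel (nat_lit 84017154))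 .nil)) .nil)) (.node .leaf (nat_lit 13390067922127659) (.br (nat_lit 0) (.cons (.br (nat_lit 3) (.cons (.rel (nat_lit 272629794)) .nil)) .nil)) .leaf))) (nat_lit 13390070086682674) (.br (nat_lit 2) (.cons (.br (nat_lit 3) (.cons (.rel (nat_lit 402800640)) .nil)) .nil)) (.node (.node (.node .leaf (nat_lit 13390070087443114) (.br (nat_lit 2) (.cons (.br (nat_lit 4) (.cons (.rel (nat_lit 1140851730)) .nil)) .nil)) .leaf) (nat_lit 13390070087443858) (.br (nat_lit 0) (.cons (.br (nat_lit 3) (.cons (.rel (nat_lit 277905408)) .nil)) .nil)) (.node .leaf (nat_lit 13390070087500428) (.br (nat_lit 1) (.cons (.br (nat_lit 2) (.cons (.rel (nat_lit 167772420)) .nil)) .nil)) .leaf)) (nat_lit 13390070087500533) (.br (nat_lit 1) (.cons (.br (nat_lit 2) (.cons (.rel (nat_lit 83894292)) .nil)) .nil)) (.node (.node .leaf (nat_lit 13390070089179818) (.br (nat_lit 0) (.cons (.br (nat_lit 1) (.cons (.rel (nat_lit 21242112)) .nil)) .nil)) .leaf) (nat_lit 13390070089235114) (.br (nat_lit 2)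 (.cons (.br (nat_lit 6) (.cons (.rel (nat_lit 17248026756)) .nil)) .nil)) (.node .leaf (nat_lit 13390072615901185) (.br (nat_lit 0) (.cons (.br (nat_lit 1) (.cons (.rel (nat_lit 37765140)) .nil)) .nil)) .leaf))))

/-- refutations 92 -/
def e92 : EX := (.node (.node (.node (.node .leaf (nat_lit 13393517892178201) (.br (nat_lit 1) (.cons (.br (nat_lit 2) (.cons (.rel (nat_lit 101711904)) (.cons (.rel (nat_lit 83894292)) .nil))) .nil)) .leaf) (nat_lit 13393517893613849) (.br (nat_lit 1) (.cons (.br (nat_lit 4) (.cons (.rel (nat_lit 1092616197)) .nil)) .nil)) .leaf) (nat_lit 13393517894762777) (.br (nat_lit 2) (.cons (.br (nat_lit 5) (.cons (.rel (nat_lit 4363124997)) .nil)) .nil)) (.node .leaf (nat_lit 13395258298071041) (.br (nat_lit 0) (.cons (.br (nat_lit 4) (.cons (.rel (nat_lit 1082147328)) (.cons (.rel (nat_lit 1082131476)) .nil))) (.cons (.br (nat_lit 2) (.cons (.rel (nat_lit 71304228)) (.cons (.rel (nat_lit 71305233)) .nil))) .nil))) .leaf)) (nat_lit 13395278118473989)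 (.br (nat_lit 0) (.cons (.br (nat_lit 1) (.cons (.rel (nat_lit 37748994)) .nil)) .nil)) (.node (.node (.node .leaf (nat_lit 13395278831505669) (.br (nat_lit 0) (.cons (.br (nat_lit 1) (.cons (.rel (nat_lit 21242112)) .nil)) .nil)) .leaf) (nat_lit 13395481745475634) (.br (nat_lit 0) (.cons (.br (nat_lit 3) (.cons (.rel (nat_lit 543178752)) .nil)) .nil)) .leaf) (nat_lit 13395622426421529) (.br (nat_lit 0) (.cons (.br (nat_lit 1) (.cons (.rel (nat_lit 25296900)) .nil)) .nil)) (.node .leaf (nat_lit 13395622428971289) (.br (nat_lit 6) (.cons (.br (nat_lit 0) (.cons (.rel (nat_lit 34363932933)) (.cons (.rel (nat_lit 17188267008)) .nil))) .nil)) .leaf)))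

/-- refutations 94 -/
def e94 : EX := (.node (.node (.node (.node .leaf (nat_lit 13405291441827990) (.br (nat_lit 0) (.cons (.br (nat_lit 3) (.cons (.rel (nat_lit 272654352)) .nil)) .nil)) .leaf) (nat_lit 13405291442444339) (.br (nat_lit 0) (.cons (.br (nat_lit 1) (.cons (.rel (nat_lit 37765140)) .nil)) .nil)) (.node .leaf (nat_lit 13405291444437142) (.br (nat_lit 0) (.cons (.br (nat_lit 2) (.cons (.rel (nat_lit 71312640)) .nil)) .nil)) .leaf)) (nat_lit 13407662264391731) (.br (nat_lit 0) (.cons (.br (nat_lit 1) (.cons (.rel (nat_lit 20975745)) (.cons (.rel (nat_lit 25166337)) .nil))) (.cons (.br (nat_lit 1) (.cons (.rel (nat_lit 25432128)) (.cons (.rel (nat_lit 37748994)) .nil))) .nil))) (.node (.node .leaf (nat_lit 13407662265095649) (.br (nat_lit 1) (.cons (.br (nat_lit 2) (.cons (.rel (nat_lit 83890464)) .nil)) .nil)) .leaf) (nat_lit 13407662266593331) (.br (nat_lit 0) (.cons (.br (nat_lit 1) (.cons (.rel (nat_lit 23069700)) .nil)) .nil)) .leaf)) (nat_lit 13407662266942751)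 (.br (nat_lit 0) (.cons (.br (nat_lit 1) (.cons (.rel (nat_lit 21234705)) (.cons (.rel (nat_lit 21233700)) .nil))) (.cons (.br (nat_lit 4) (.cons (.rel (nat_lit 1082132481)) (.cons (.rel (nat_lit 1082132481)) .nil))) .nil))) (.node (.node (.node .leaf (nat_lit 13407664906803251) (.br (nat_lit 2) (.cons (.br (nat_lit 3) (.cons (.rel (nat_lit 603980805)) (.cons (.rel (nat_lit 336593424)) (.cons (.rel (nat_lit 402653220)) .nil)))) .nil)) .leaf) (nat_lit 13407664909004851) (.br (nat_lit 0) (.cons (.br (nat_lit 1) (.cons (.rel (nat_lit 23069700)) (.cons (.rel (nat_lit 21038208)) .nil))) .nil)) .leaf) (nat_lit 13412853127817848) (.br (nat_lit 2) (.cons (.br (nat_lit 4) (.cons (.rel (nat_lit 1140851730)) .nil)) .nil)) (.node (.node .leaf (nat_lit 13413076565596211) (.br (nat_lit 2) (.cons (.br (nat_lit 6) (.cons (.rel (nat_lit 17246978565)) .nil)) .nil)) .leaf) (nat_lit 13413076670402586) (.br (nat_lit 0) (.cons (.br (nat_lit 3) (.cons (.rel (nat_lit 272629794)) .nil)) .nil))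 .leaf)))

/-- refutations 95 -/
def e95 : EX := (.node (.node .leaf (nat_lit 13722228919120153) (.br (nat_lit 2) (.cons (.br (nat_lit 5) (.cons (.rel (nat_lit 4363130880)) .nil)) .nil)) .leaf) (nat_lit 13727580449639180) (.br (nat_lit 4) (.cons (.br (nat_lit 6) (.cons (.rel (nat_lit 18255708162)) .nil)) .nil)) .leaf)

/-- refutations 96 -/
def e96 : EX := (.node (.node .leaf (nat_lit 13733949491128346) (.br (nat_lit 1) (.cons (.br (nat_lit 3) (.cons (.rel (nat_lit 285218049)) .nil)) .nil)) .leaf) (nat_lit 13734020806447884) (.br (nat_lit 0) (.cons (.br (nat_lit 4) (.cons (.rel (nat_lit 1082132481)) .nil)) .nil)) .leaf)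

/-- list of the parts -/
def L0 : List (ℕ × List ℕ) := [(nat_lit 0x200, [cP]),
  (nat_lit 0x400, [cP]),
  (nat_lit 0x4000, [cP]),
  (nat_lit 0x40000000, [Nat.sub (Nat.pow 2 285) (Nat.pow 2 0), Nat.sub (Nat.pow 2 915) (Nat.pow 2 285), Nat.sub (Nat.pow 2 1514) (Nat.pow 2 915), Nat.sub (Nat.pow 2 3136) (Nat.pow 2 1514)]),
  (nat_lit 0x400000000, [Nat.sub (Nat.pow 2 915) (Nat.pow 2 0), Nat.sub (Nat.pow 2 3136) (Nat.pow 2 915)]),
  (nat_lit 0x10000, [cP]),
  (nat_lit 0x8000000000, [cP]),
  (nat_lit 0x20000000000, [Nat.sub (Nat.pow 2 285) (Nat.pow 2 0), Nat.sub (Nat.pow 2 929) (Nat.pow 2 285), Nat.sub (Nat.pow 2 1534) (Nat.pow 2 929), Nat.sub (Nat.pow 2 3136) (Nat.pow 2 1534)]),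
  (nat_lit 0x100000000000000, [Nat.sub (Nat.pow 2 285) (Nat.pow 2 0), Nat.sub (Nat.pow 2 911) (Nat.pow 2 285), Nat.sub (Nat.pow 2 1509) (Nat.pow 2 911), Nat.sub (Nat.pow 2 3136) (Nat.pow 2 1509)]),
  (nat_lit 0x10000000000, [cP]),
  (nat_lit 0x1000000000000000, [Nat.sub (Nat.pow 2 285) (Nat.pow 2 0), Nat.sub (Nat.pow 2 1254) (Nat.pow 2 285), Nat.sub (Nat.pow 2 1559) (Nat.pow 2 1254), Nat.sub (Nat.pow 2 3136) (Nat.pow 2 1559)]),
  (nat_lit 0x2000000000000000, [Nat.sub (Nat.pow 2 784) (Nat.pow 2 0), Nat.sub (Nat.pow 2 3136) (Nat.pow 2 784)]),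
  (nat_lit 0x10000000000000000, [Nat.sub (Nat.pow 2 754) (Nat.pow 2 0), Nat.sub (Nat.pow 2 3136) (Nat.pow 2 754)]),
  (nat_lit 0x800000000000000, [cP]),
  (nat_lit 0x200000000000000000000000000000000, [cP]),
  (nat_lit 0x400000000000000000000000000000000, [cP]),
  (nat_lit 0x80000000000000000000000000000000000, [Nat.sub (Nat.pow 2 315) (Nat.pow 2 0), Nat.sub (Nat.pow 2 3136) (Nat.pow 2 315)]),
  (nat_lit 0x4000000000000000000000000000000000, [cP]),
  (nat_lit 0x100000000000000000000000000000000000, [cP]),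
  (nat_lit 0x400000000000000000000000000000000000000, [Nat.sub (Nat.pow 2 664) (Nat.pow 2 0), Nat.sub (Nat.pow 2 1561) (Nat.pow 2 664), Nat.sub (Nat.pow 2 3136) (Nat.pow 2 1561)]),
  (nat_lit 0x1000000000000000000000000000000000000000, [Nat.sub (Nat.pow 2 761) (Nat.pow 2 0), Nat.sub (Nat.pow 2 3136) (Nat.pow 2 761)]),
  (nat_lit 0x20000000000000000000000000000000000000000, [Nat.sub (Nat.pow 2 304) (Nat.pow 2 0), Nat.sub (Nat.pow 2 1386) (Nat.pow 2 304), Nat.sub (Nat.pow 2 3136) (Nat.pow 2 1386)]),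
  (nat_lit 0x200000000000000000000000000000000000, [cP]),
  (nat_lit 0x10000000000000000000000000000000000000000000000, [Nat.sub (Nat.pow 2 761) (Nat.pow 2 0), Nat.sub (Nat.pow 2 3136) (Nat.pow 2 761)]),
  (nat_lit 0x200000000000000000000000000000000000000000000000, [Nat.sub (Nat.pow 2 889) (Nat.pow 2 0), Nat.sub (Nat.pow 2 3136) (Nat.pow 2 889)]),
  (nat_lit 0x400000000000000000000000000000000000000000, [cP]),
  (nat_lit 0x800000000000000000000000000000000000000000000000, [cP]),
  (nat_lit 0x4000000000000000000000000000000000000000000000000000000000000000, [cP]),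
  (nat_lit 0x80000000000000000000000000000000000000000000000000000000000000000, [Nat.sub (Nat.pow 2 660) (Nat.pow 2 0), Nat.sub (Nat.pow 2 1561) (Nat.pow 2 660), Nat.sub (Nat.pow 2 3136) (Nat.pow 2 1561)]),
  (nat_lit 0x10000000000000000000000000000000000000000000000000000000000000000, [cP]),
  (nat_lit 0x200000000000000000000000000000000000000000000000000000000000000000, [Nat.sub (Nat.pow 2 884) (Nat.pow 2 0), Nat.sub (Nat.pow 2 3136) (Nat.pow 2 884)]),
  (nat_lit 0x100000000000000000000000000000000000000000000000000000000000000000, [cP]),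
  (nat_lit 0x100000000000000000000000000000000000000000000000000000000000000000000000, [Nat.sub (Nat.pow 2 754) (Nat.pow 2 0), Nat.sub (Nat.pow 2 3136) (Nat.pow 2 754)]),
  (nat_lit 0x1000000000000000000000000000000000000000000000000000000000000000000, [cP]),
  (nat_lit 0x2000000000000000000000000000000000000000000000000000000000000000000000000, [Nat.sub (Nat.pow 2 311) (Nat.pow 2 0), Nat.sub (Nat.pow 2 1286) (Nat.pow 2 311), Nat.sub (Nat.pow 2 1561) (Nat.pow 2 1286), Nat.sub (Nat.pow 2 3136) (Nat.pow 2 1561)]),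
  (nat_lit 0x200000000000000000000000000000000000000000000000000000000000000000000000, [cP]),
  (nat_lit 0x10000000000000000000000000000000000000000000000000000000000000000000000000000, [cP]),
  (nat_lit 0x400000000000000000000000000000000000000000000000000000000000000000000000000000, [Nat.sub (Nat.pow 2 314) (Nat.pow 2 0), Nat.sub (Nat.pow 2 1561) (Nat.pow 2 314), Nat.sub (Nat.pow 2 3136) (Nat.pow 2 1561)]),
  (nat_lit 0x8000000000000000000000000000000000000000000000000000000000000000000000000000000, [Nat.sub (Nat.pow 2 630) (Nat.pow 2 0), Nat.sub (Nat.pow 2 3136) (Nat.pow 2 630)]),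
  (nat_lit 0x20000000000000000000000000000000000000000000000000000000000000000000000000000000000000000000000000000000000000000000000000000000000000000000000000000000000000, [Nat.sub (Nat.pow 2 656) (Nat.pow 2 0), Nat.sub (Nat.pow 2 3136) (Nat.pow 2 656)]),
  (nat_lit 0x400000000000000000000000000000000000000000000000000000000000000000000000000000000000000000000000000000000000000000000000000000000000000000000000000000000000000, [Nat.sub (Nat.pow 2 686) (Nat.pow 2 0), Nat.sub (Nat.pow 2 3136) (Nat.pow 2 686)]),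
  (nat_lit 0x20000000000000000000000000000000000000000000000000000000000000000000000000000, [cP]),
  (nat_lit 0x20000000000000000000000000000000000000000000000000000000000000000000000000000000000000000000000000000000000000000000000000000000000000000000000000000000000000000, [Nat.sub (Nat.pow 2 760) (Nat.pow 2 0), Nat.sub (Nat.pow 2 3136) (Nat.pow 2 760)]),
  (nat_lit 0x800000000000000000000000000000000000000000000000000000000000000000000000000000000000000000000000000000000000000000000000000000000000000000000000000000000000000, [cP]),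
  (nat_lit 0x100000000000000000000000000000000000000000000000000000000000000000000000000000000000000000000000000000000000000000000000000000000000000000000000000000000000000000000, [Nat.sub (Nat.pow 2 285) (Nat.pow 2 0), Nat.sub (Nat.pow 2 780) (Nat.pow 2 285), Nat.sub (Nat.pow 2 1516) (Nat.pow 2 780), Nat.sub (Nat.pow 2 3136) (Nat.pow 2 1516)]),
  (nat_lit 0x80000000000000000000000000000000000000000000000000000000000000000000000000000000000000000000000000000000000000000000000000000000000000000000000000000000000000000000, [cP]),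
  (nat_lit 0x200000000000000000000000000000000000000000000000000000000000000000000000000000000000000000000000000000000000000000000000000000000000000000000000000000000000000000000000000, [cP]),
  (nat_lit 0x40000000000000000000000000000000000000000000000000000000000000000000000000000000000000000000000000000000000000000000000000000000000000000000000000000000000000000000000000000, [Nat.sub (Nat.pow 2 631) (Nat.pow 2 0), Nat.sub (Nat.pow 2 3136) (Nat.pow 2 631)]),
  (nat_lit 0x4000000000000000000000000000000000000000000000000000000000000000000000000000000000000000000000000000000000000000000000000000000000000000000000000000000000000000000000000000, [cP]),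
  (nat_lit 0x10000000000000000000000000000000000000000000000000000000000000000000000000000000000000000000000000000000000000000000000000000000000000000000000000000000000000000000000000000000000000000000000, [Nat.sub (Nat.pow 2 685) (Nat.pow 2 0), Nat.sub (Nat.pow 2 3136) (Nat.pow 2 685)]),
  (nat_lit 0x200000000000000000000000000000000000000000000000000000000000000000000000000000000000000000000000000000000000000000000000000000000000000000000000000000000000000000000000000000000000000000000000, [Nat.sub (Nat.pow 2 686) (Nat.pow 2 0), Nat.sub (Nat.pow 2 3136) (Nat.pow 2 686)]),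
  (nat_lit 0x400000000000000000000000000000000000000000000000000000000000000000000000000000000000000000000000000000000000000000000000000000000000000000000000000000000000000000000000000000000000000000000, [cP]),
  (nat_lit 0x400000000000000000000000000000000000000000000000000000000000000000000000000000000000000000000000000000000000000000000000000000000000000000000000000000000000000000000000000000000000000000000000, [cP]),
  (nat_lit 0x10000000000000000000000000000000000000000000000000000000000000000000000000000000000000000000000000000000000000000000000000000000000000000000000000000000000000000000000000000000000000000000000000000, [Nat.sub (Nat.pow 2 761) (Nat.pow 2 0), Nat.sub (Nat.pow 2 3136) (Nat.pow 2 761)])]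

theorem hp0 : ∀ p ∈ L0, ∀ D2 ∈ p.2, ∃ e,
    search ext94 (Pool.Agent.H74.EGZ.vio sb) G Uc A0 p.1 D2 e = true :=
  (List.forall_mem_cons.2 ⟨(List.forall_mem_singleton.2 ⟨e0, by decide +kernel⟩),
  (List.forall_mem_cons.2 ⟨(List.forall_mem_singleton.2 ⟨e1, by decide +kernel⟩),
  (List.forall_mem_cons.2 ⟨(List.forall_mem_singleton.2 ⟨e2, by decide +kernel⟩),
  (List.forall_mem_cons.2 ⟨(List.forall_mem_cons.2 ⟨⟨e3, by decide +kernel⟩,
  (List.forall_mem_cons.2 ⟨⟨e4, by decide +kernel⟩,
  (List.forall_mem_cons.2 ⟨⟨e5, by decide +kernel⟩,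
  (List.forall_mem_singleton.2 ⟨e6, by decide +kernel⟩)⟩)⟩)⟩),
  (List.forall_mem_cons.2 ⟨(List.forall_mem_cons.2 ⟨⟨e7, by decide +kernel⟩,
  (List.forall_mem_singleton.2 ⟨e8, by decide +kernel⟩)⟩),
  (List.forall_mem_cons.2 ⟨(List.forall_mem_singleton.2 ⟨e9, by decide +kernel⟩),
  (List.forall_mem_cons.2 ⟨(List.forall_mem_singleton.2 ⟨e10, by decide +kernel⟩),
  (List.forall_mem_cons.2 ⟨(List.forall_mem_cons.2 ⟨⟨e11, by decide +kernel⟩,
  (List.forall_mem_cons.2 ⟨⟨e12, by decide +kernel⟩,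
  (List.forall_mem_cons.2 ⟨⟨e13, by decide +kernel⟩,
  (List.forall_mem_singleton.2 ⟨.leaf, by decide +kernel⟩)⟩)⟩)⟩),
  (List.forall_mem_cons.2 ⟨(List.forall_mem_cons.2 ⟨⟨e15, by decide +kernel⟩,
  (List.forall_mem_cons.2 ⟨⟨e16, by decide +kernel⟩,
  (List.forall_mem_cons.2 ⟨⟨e17, by decide +kernel⟩,
  (List.forall_mem_singleton.2 ⟨.leaf, by decide +kernel⟩)⟩)⟩)⟩),
  (List.forall_mem_cons.2 ⟨(List.forall_mem_singleton.2 ⟨e19, by decide +kernel⟩),
  (List.forall_mem_cons.2 ⟨(List.forall_mem_cons.2 ⟨⟨e20, by decide +kernel⟩,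
  (List.forall_mem_cons.2 ⟨⟨e21, by decide +kernel⟩,
  (List.forall_mem_cons.2 ⟨⟨e22, by decide +kernel⟩,
  (List.forall_mem_singleton.2 ⟨e23, by decide +kernel⟩)⟩)⟩)⟩),
  (List.forall_mem_cons.2 ⟨(List.forall_mem_cons.2 ⟨⟨e24, by decide +kernel⟩,
  (List.forall_mem_singleton.2 ⟨e25, by decide +kernel⟩)⟩),
  (List.forall_mem_cons.2 ⟨(List.forall_mem_cons.2 ⟨⟨e26, by decide +kernel⟩,
  (List.forall_mem_singleton.2 ⟨.leaf, by decide +kernel⟩)⟩),
  (List.forall_mem_cons.2 ⟨(List.forall_mem_singleton.2 ⟨e28, by decide +kernel⟩),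
  (List.forall_mem_cons.2 ⟨(List.forall_mem_singleton.2 ⟨e29, by decide +kernel⟩),
  (List.forall_mem_cons.2 ⟨(List.forall_mem_singleton.2 ⟨e30, by decide +kernel⟩),
  (List.forall_mem_cons.2 ⟨(List.forall_mem_cons.2 ⟨⟨.leaf, by decide +kernel⟩,
  (List.forall_mem_singleton.2 ⟨.leaf, by decide +kernel⟩)⟩),
  (List.forall_mem_cons.2 ⟨(List.forall_mem_singleton.2 ⟨e33, by decide +kernel⟩),
  (List.forall_mem_cons.2 ⟨(List.forall_mem_singleton.2 ⟨e34, by decide +kernel⟩),
  (List.forall_mem_cons.2 ⟨(List.forall_mem_cons.2 ⟨⟨.leaf, by decide +kernel⟩,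
  (List.forall_mem_cons.2 ⟨⟨e36, by decide +kernel⟩,
  (List.forall_mem_singleton.2 ⟨.leaf, by decide +kernel⟩)⟩)⟩),
  (List.forall_mem_cons.2 ⟨(List.forall_mem_cons.2 ⟨⟨e38, by decide +kernel⟩,
  (List.forall_mem_singleton.2 ⟨e39, by decide +kernel⟩)⟩),
  (List.forall_mem_cons.2 ⟨(List.forall_mem_cons.2 ⟨⟨e40, by decide +kernel⟩,
  (List.forall_mem_cons.2 ⟨⟨e41, by decide +kernel⟩,
  (List.forall_mem_singleton.2 ⟨e42, by decide +kernel⟩)⟩)⟩),
  (List.forall_mem_cons.2 ⟨(List.forall_mem_singleton.2 ⟨e43, by decide +kernel⟩),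
  (List.forall_mem_cons.2 ⟨(List.forall_mem_cons.2 ⟨⟨e44, by decide +kernel⟩,
  (List.forall_mem_singleton.2 ⟨e45, by decide +kernel⟩)⟩),
  (List.forall_mem_cons.2 ⟨(List.forall_mem_cons.2 ⟨⟨e46, by decide +kernel⟩,
  (List.forall_mem_singleton.2 ⟨e47, by decide +kernel⟩)⟩),
  (List.forall_mem_cons.2 ⟨(List.forall_mem_singleton.2 ⟨e48, by decide +kernel⟩),
  (List.forall_mem_cons.2 ⟨(List.forall_mem_singleton.2 ⟨e49, by decide +kernel⟩),
  (List.forall_mem_cons.2 ⟨(List.forall_mem_singleton.2 ⟨e50, by decide +kernel⟩),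
  (List.forall_mem_cons.2 ⟨(List.forall_mem_cons.2 ⟨⟨.leaf, by decide +kernel⟩,
  (List.forall_mem_cons.2 ⟨⟨.leaf, by decide +kernel⟩,
  (List.forall_mem_singleton.2 ⟨.leaf, by decide +kernel⟩)⟩)⟩),
  (List.forall_mem_cons.2 ⟨(List.forall_mem_singleton.2 ⟨.leaf, by decide +kernel⟩),
  (List.forall_mem_cons.2 ⟨(List.forall_mem_cons.2 ⟨⟨e55, by decide +kernel⟩,
  (List.forall_mem_singleton.2 ⟨e56, by decide +kernel⟩)⟩),
  (List.forall_mem_cons.2 ⟨(List.forall_mem_singleton.2 ⟨e57, by decide +kernel⟩),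
  (List.forall_mem_cons.2 ⟨(List.forall_mem_cons.2 ⟨⟨e58, by decide +kernel⟩,
  (List.forall_mem_singleton.2 ⟨e59, by decide +kernel⟩)⟩),
  (List.forall_mem_cons.2 ⟨(List.forall_mem_singleton.2 ⟨e60, by decide +kernel⟩),
  (List.forall_mem_cons.2 ⟨(List.forall_mem_cons.2 ⟨⟨e61, by decide +kernel⟩,
  (List.forall_mem_cons.2 ⟨⟨e62, by decide +kernel⟩,
  (List.forall_mem_cons.2 ⟨⟨e63, by decide +kernel⟩,
  (List.forall_mem_singleton.2 ⟨e64, by decide +kernel⟩)⟩)⟩)⟩),
  (List.forall_mem_cons.2 ⟨(List.forall_mem_singleton.2 ⟨e65, by decide +kernel⟩),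
  (List.forall_mem_cons.2 ⟨(List.forall_mem_singleton.2 ⟨e66, by decide +kernel⟩),
  (List.forall_mem_cons.2 ⟨(List.forall_mem_cons.2 ⟨⟨e67, by decide +kernel⟩,
  (List.forall_mem_cons.2 ⟨⟨e68, by decide +kernel⟩,
  (List.forall_mem_singleton.2 ⟨.leaf, by decide +kernel⟩)⟩)⟩),
  (List.forall_mem_cons.2 ⟨(List.forall_mem_cons.2 ⟨⟨e70, by decide +kernel⟩,
  (List.forall_mem_singleton.2 ⟨e71, by decide +kernel⟩)⟩),
  (List.forall_mem_cons.2 ⟨(List.forall_mem_cons.2 ⟨⟨e72, by decide +kernel⟩,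
  (List.forall_mem_singleton.2 ⟨e73, by decide +kernel⟩)⟩),
  (List.forall_mem_cons.2 ⟨(List.forall_mem_cons.2 ⟨⟨e74, by decide +kernel⟩,
  (List.forall_mem_singleton.2 ⟨e75, by decide +kernel⟩)⟩),
  (List.forall_mem_cons.2 ⟨(List.forall_mem_singleton.2 ⟨e76, by decide +kernel⟩),
  (List.forall_mem_cons.2 ⟨(List.forall_mem_cons.2 ⟨⟨e77, by decide +kernel⟩,
  (List.forall_mem_singleton.2 ⟨e78, by decide +kernel⟩)⟩),
  (List.forall_mem_cons.2 ⟨(List.forall_mem_singleton.2 ⟨e79, by decide +kernel⟩),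
  (List.forall_mem_cons.2 ⟨(List.forall_mem_cons.2 ⟨⟨.leaf, by decide +kernel⟩,
  (List.forall_mem_cons.2 ⟨⟨e81, by decide +kernel⟩,
  (List.forall_mem_cons.2 ⟨⟨e82, by decide +kernel⟩,
  (List.forall_mem_singleton.2 ⟨.leaf, by decide +kernel⟩)⟩)⟩)⟩),
  (List.forall_mem_cons.2 ⟨(List.forall_mem_singleton.2 ⟨e84, by decide +kernel⟩),
  (List.forall_mem_cons.2 ⟨(List.forall_mem_singleton.2 ⟨e85, by decide +kernel⟩),
  (List.forall_mem_cons.2 ⟨(List.forall_mem_cons.2 ⟨⟨e86, by decide +kernel⟩,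
  (List.forall_mem_singleton.2 ⟨e87, by decide +kernel⟩)⟩),
  (List.forall_mem_cons.2 ⟨(List.forall_mem_singleton.2 ⟨e88, by decide +kernel⟩),
  (List.forall_mem_cons.2 ⟨(List.forall_mem_cons.2 ⟨⟨e89, by decide +kernel⟩,
  (List.forall_mem_singleton.2 ⟨e90, by decide +kernel⟩)⟩),
  (List.forall_mem_cons.2 ⟨(List.forall_mem_cons.2 ⟨⟨e91, by decide +kernel⟩,
  (List.forall_mem_singleton.2 ⟨e92, by decide +kernel⟩)⟩),
  (List.forall_mem_cons.2 ⟨(List.forall_mem_singleton.2 ⟨.leaf, by decide +kernel⟩),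
  (List.forall_mem_cons.2 ⟨(List.forall_mem_singleton.2 ⟨e94, by decide +kernel⟩),
  (List.forall_mem_singleton.2 (List.forall_mem_cons.2 ⟨⟨e95, by decide +kernel⟩,
  (List.forall_mem_singleton.2 ⟨e96, by decide +kernel⟩)⟩))⟩)⟩)⟩)⟩)⟩)⟩)⟩)⟩)⟩)⟩)⟩)⟩)⟩)⟩)⟩)⟩)⟩)⟩)⟩)⟩)⟩)⟩)⟩)⟩)⟩)⟩)⟩)⟩)⟩)⟩)⟩)⟩)⟩)⟩)⟩)⟩)⟩)⟩)⟩)⟩)⟩)⟩)⟩)⟩)⟩)⟩)⟩)⟩)⟩)⟩)⟩)⟩)⟩)

end

end Pool.Agent.H21.EGZ.S17
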