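import Pool.Agent.H21.EGZ.D17

/-!
# Stage 17 : search, part 1
-/

set_option autoImplicit false
set_option maxRecDepth 100000

namespace Pool.Agent.H21.EGZ.S17

noncomputable section

open Pool.Agent.H74.EGZ Pool.Agent.H94.Lift

/-- refutations 97 -/
def e97 : EX := (.node (.node (.node .leaf (nat_lit 13671545182124284) (.br (nat_lit 0) (.cons (.br (nat_lit 1) (.cons (.rel (nat_lit 37753872)) .nil)) .nil)) .leaf) (nat_lit 13671545183384852) (.br (nat_lit 0) (.cons (.br (nat_lit 4) (.cons (.rel (nat_lit 1080098817)) .nil)) .nil)) .leaf) (nat_lit 13671792737054780) (.br (nat_lit 0) (.cons (.br (nat_lit 1) (.cons (.rel (nat_lit 43017216)) .nil)) .nil)) (.node (.node .leaf (nat_lit 13677097404423670) (.br (nat_lit 3) (.cons (.br (nat_lit 6) (.cons (.rel (nat_lit 34896610560)) .nil)) .nil)) .leaf) (nat_lit 13679963316734827) (.br (nat_lit 0) (.cons (.br (nat_lit 1) (.cons (.rel (nat_lit 21234705)) .nil)) .nil)) .leaf))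

/-- refutations 98 -/
def e98 : EX := (.node .leaf (nat_lit 13763753127444666) (.br (nat_lit 2) (.cons (.br (nat_lit 4) (.cons (.rel (nat_lit 1140883728)) .nil)) .nil)) .leaf)

/-- refutations 99 -/
def e99 : EX := (.node (.node (.node .leaf (nat_lit 14111605435178486) (.br (nat_lit 0) (.cons (.br (nat_lit 4) (.cons (.rel (nat_lit 1078202373)) (.cons (.rel (nat_lit 1082131476)) (.cons (.rel (nat_lit 1078264836)) .nil)))) .nil)) .leaf) (nat_lit 14115905622854412) (.br (nat_lit 0) (.cons (.br (nat_lit 5) (.cons (.rel (nat_lit 4299165960)) .nil)) .nil)) .leaf) (nat_lit 14116879652199926) (.br (nat_lit 0) (.cons (.br (nat_lit 2) (.cons (.rel (nat_lit 71304228)) .nil)) .nil)) (.node (.node .leaf (nat_lit 14116879655017974) (.br (nat_lit 0) (.cons (.br (nat_lit 2) (.cons (.rel (nat_lit 71305233)) (.cons (.rel (nat_lit 71304228)) .nil))) .nil)) .leaf) (nat_lit 14116884875397900) (.br (nat_lit 2) (.cons (.br (nat_lit 4) (.cons (.rel (nat_lit 1140887556)) .nil)) .nil)) .leaf))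

/-- refutations 100 -/
def e100 : EX := (.node (.node (.node .leaf (nat_lit 15393211656823094) (.br (nat_lit 0) (.cons (.br (nat_lit 1) (.cons (.rel (nat_lit 21233700)) .nil)) .nil)) .leaf) (nat_lit 15393211659618614) (.br (nat_lit 0) (.cons (.br (nat_lit 1) (.cons (.rel (nat_lit 37766145)) .nil)) .nil)) .leaf) (nat_lit 15395333373462838) (.br (nat_lit 0) (.cons (.br (nat_lit 2) (.cons (.rel (nat_lit 71312640)) (.cons (.rel (nat_lit 71304228)) .nil))) (.cons (.br (nat_lit 3) (.cons (.rel (nat_lit 277905408)) (.cons (.rel (nat_lit 277905408)) .nil))) .nil))) (.node (.node .leaf (nat_lit 15395333373463415) (.br (nat_lit 0) (.cons (.br (nat_lit 1) (.cons (.rel (nat_lit 39845952)) .nil)) .nil)) .leaf) (nat_lit 15395831589640502) (.br (nat_lit 0) (.cons (.br (nat_lit 4) (.cons (.rel (nat_lit 2151677973)) (.cons (.rel (nat_lit 1078984773)) .nil))) .nil)) .leaf))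

/-- refutations 101 -/
def e101 : EX := (.node .leaf (nat_lit 15401112299388161) (.br (nat_lit 0) (.cons (.br (nat_lit 2) (.cons (.rel (nat_lit 72613908)) .nil)) .nil)) .leaf)

/-- refutations 102 -/
def e102 : EX := (.node (.node (.node (.node .leaf (nat_lit 14250963070666753) (.br (nat_lit 1) (.cons (.br (nat_lit 4) (.cons (.rel (nat_lit 1090781202)) .nil)) .nil)) .leaf) (nat_lit 14252310645708976) (.br (nat_lit 1) (.cons (.br (nat_lit 2) (.cons (.rel (nat_lit 83886600)) .nil)) .nil)) .leaf) (nat_lit 14252310645964851) (.br (nat_lit 1) (.cons (.br (nat_lit 2) (.cons (.rel (nat_lit 84017154)) .nil)) .nil)) (.node .leaf (nat_lit 14252310645965457) (.br (nat_lit 0) (.cons (.br (nat_lit 1) (.cons (.rel (nat_lit 25166337)) .nil)) .nil)) .leaf)) (nat_lit 14252310648564369) (.br (nat_lit 2) (.cons (.br (nat_lit 4) (.cons (.rel (nat_lit 2281702404)) .nil)) .nil)) (.node (.node (.node .leaf (nat_lit 14252310648619665) (.br (nat_lit 0) (.cons (.br (nat_lit 1) (.cons (.rel (nat_lit 21242112)) .nil))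 .nil)) .leaf) (nat_lit 14257498755203729) (.br (nat_lit 0) (.cons (.br (nat_lit 6) (.cons (.rel (nat_lit 17186161665)) .nil)) .nil)) .leaf) (nat_lit 14262781562428679) (.br (nat_lit 0) (.cons (.br (nat_lit 2) (.cons (.rel (nat_lit 71320080)) .nil)) .nil)) (.node .leaf (nat_lit 14262781564977809) (.br (nat_lit 0) (.cons (.br (nat_lit 2) (.cons (.rel (nat_lit 71303178)) .nil)) .nil)) .leaf)))

/-- refutations 103 -/
def e103 : EX := (.node (.node (.node .leaf (nat_lit 15428442722622315) (.br (nat_lit 0) (.cons (.br (nat_lit 2) (.cons (.rel (nat_lit 71305233)) .nil)) .nil)) .leaf) (nat_lit 15428611306201238) (.br (nat_lit 1) (.cons (.br (nat_lit 5) (.cons (.rel (nat_lit 4311744789)) (.cons (.rel (nat_lit 4311761940)) .nil))) .nil)) .leaf) (nat_lit 15434020322583308) (.br (nat_lit 1) (.cons (.br (nat_lit 2) (.cons (.rel (nat_lit 101711904)) (.cons (.rel (nat_lit 101711904)) .nil))) .nil)) (.node (.node .leaf (nat_lit 15440207249171742) (.br (nat_lit 0) (.cons (.br (nat_lit 4) (.cons (.rel (nat_lit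 1077956736)) .nil)) .nil)) .leaf) (nat_lit 15440686129904401) (.br (nat_lit 0) (.cons (.br (nat_lit 4) (.cons (.rel (nat_lit 1077956736)) .nil)) .nil)) .leaf))

/-- refutations 104 -/
def e104 : EX := (.node (.node (.node (.node (.node .leaf (nat_lit 15604320712371486) (.br (nat_lit 0) (.cons (.br (nat_lit 1) (.cons (.rel (nat_lit 25183488)) (.cons (.rel (nat_lit 22544385)) .nil))) (.cons (.br (nat_lit 2) (.cons (.rel (nat_lit 138690561)) (.cons (.rel (nat_lit 71320080)) .nil))) .nil))) .leaf) (nat_lit 15604320714625161) (.br (nat_lit 1) (.cons (.br (nat_lit 2) (.cons (.rel (nat_lit 83902737)) .nil)) .nil)) .leaf) (nat_lit 15604323710939386) (.br (nat_lit 0) (.cons (.br (nat_lit 1) (.cons (.rel (nat_lit 37814280)) (.cons (.rel (nat_lit 37748994)) .nil))) .nil)) (.node (.node .leaf (nat_lit 15604323710940016) (.br (nat_lit 0) (.cons (.br (nat_lit 6) (.cons (.rel (nat_lit 17184129168)) .nil)) .nil)) .leaf) (nat_lit 15604323713489077) (.br (nat_lit 1) (.cons (.br (nat_lit 3) (.cons (.rel (nat_lit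 303038484)) .nil)) .nil)) .leaf)) (nat_lit 15604323713489776) (.br (nat_lit 3) (.cons (.br (nat_lit 0) (.cons (.rel (nat_lit 272635392)) (.cons (.rel (nat_lit 273023040)) .nil))) .nil)) (.node (.node (.node .leaf (nat_lit 15604323713490406) (.br (nat_lit 4) (.cons (.br (nat_lit 5) (.cons (.rel (nat_lit 6442451025)) .nil)) .nil)) .leaf) (nat_lit 15604323811692546) (.br (nat_lit 0) (.cons (.br (nat_lit 2) (.cons (.rel (nat_lit 71305233)) .nil)) .nil)) .leaf) (nat_lit 15604324260752112) (.br (nat_lit 2) (.cons (.br (nat_lit 3) (.cons (.rel (nat_lit 402800640)) .nil)) .nil)) (.node .leaf (nat_lit 15604324260892809) (.br (nat_lit 2) (.cons (.br (nat_lit 3) (.cons (.rel (nat_lit 336134400)) .nil)) .nil)) .leaf))) (nat_lit 15604324263473904) (.br (nat_lit 3) (.cons (.br (nat_lit 6) (.cons (.rel (nat_lit 17448307200)) .nil)) .nil)) (.node (.node (.node (.node .leaf (nat_lit 15604324263474534) (.br (nat_lit 2) (.cons (.br (nat_lit 3) (.cons (.rel (nat_lit 336134400)) .nil)) .nil)) .leaf) (nat_lit 15604324492870384)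 (.br (nat_lit 0) (.cons (.br (nat_lit 6) (.cons (.rel (nat_lit 34363932933)) (.cons (.rel (nat_lit 17188274448)) .nil))) .nil)) .leaf) (nat_lit 15604326355141360) (.br (nat_lit 0) (.cons (.br (nat_lit 1) (.cons (.rel (nat_lit 21234705)) .nil)) .nil)) (.node .leaf (nat_lit 15604326355900666) (.br (nat_lit 0) (.cons (.br (nat_lit 1) (.cons (.rel (nat_lit 21234705)) (.cons (.rel (nat_lit 25183488)) .nil))) (.cons (.br (nat_lit 1) (.cons (.rel (nat_lit 21234705)) (.cons (.rel (nat_lit 25296900)) .nil))) .nil))) .leaf)) (nat_lit 15604326355901926) (.br (nat_lit 6) (.cons (.br (nat_lit 3) (.cons (.rel (nat_lit 34896610560)) (.cons (.rel (nat_lit 17448307200)) .nil))) .nil)) (.node (.node (.node .leaf (nat_lit 15604326356168954) (.br (nat_lit 0) (.cons (.br (nat_lit 3) (.cons (.rel (nat_lit 272631813)) .nil)) .nil)) .leaf) (nat_lit 15605823952215326) (.br (nat_lit 0) (.cons (.br (nat_lit 2) (.cons (.rel (nat_lit 71320080)) .nil)) .nil)) .leaf) (nat_lit 15605826949493616) (.br (nat_lit 0) (.cons (.br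 (nat_lit 3) (.cons (.rel (nat_lit 272629794)) .nil)) .nil)) (.node .leaf (nat_lit 15605827499447024) (.br (nat_lit 0) (.cons (.br (nat_lit 5) (.cons (.rel (nat_lit 4304420880)) .nil)) .nil)) .leaf))))

/-- refutations 105 -/
def e105 : EX := (.node (.node (.node (.node (.node .leaf (nat_lit 15606683430654732) (.br (nat_lit 0) (.cons (.br (nat_lit 1) (.cons (.rel (nat_lit 37753872)) .nil)) .nil)) .leaf) (nat_lit 15606683431945443) (.br (nat_lit 0) (.cons (.br (nat_lit 3) (.cons (.rel (nat_lit 272629794)) .nil)) .nil)) .leaf) (nat_lit 15606683433383139) (.br (nat_lit 0) (.cons (.br (nat_lit 4) (.cons (.rel (nat_lit 2151678978)) .nil)) .nil)) (.node .leaf (nat_lit 15606683433677580) (.br (nat_lit 0) (.cons (.br (nat_lit 1) (.cons (.rel (nat_lit 37753872)) .nil)) .nil)) .leaf)) (nat_lit 15606686045470082) (.br (nat_lit 0) (.cons (.br (nat_lit 1) (.cons (.rel (nat_lit 25166337)) .nil)) .nil)) (.node (.node .leaf (nat_lit 15615015180938526) (.br (nat_lit 6) (.cons (.br (nat_lit 1) (.cons (.rel (nat_lit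 34376516640)) (.cons (.rel (nat_lit 34376516640)) .nil))) .nil)) .leaf) (nat_lit 15615015600010726) (.br (nat_lit 0) (.cons (.br (nat_lit 3) (.cons (.rel (nat_lit 272711937)) .nil)) .nil)) (.node .leaf (nat_lit 15615015600509065) (.br (nat_lit 1) (.cons (.br (nat_lit 4) (.cons (.rel (nat_lit 1090805760)) .nil)) .nil)) .leaf))) (nat_lit 15615018182056816) (.br (nat_lit 6) (.cons (.br (nat_lit 1) (.cons (.rel (nat_lit 34376516640)) (.cons (.rel (nat_lit 34376516640)) .nil))) .nil)) (.node (.node (.node .leaf (nat_lit 15615018182057446) (.br (nat_lit 5) (.cons (.br (nat_lit 6) (.cons (.rel (nat_lit 21474837768)) (.cons (.rel (nat_lit 25771901184)) (.cons (.rel (nat_lit 21474853905)) .nil)))) .nil)) .leaf) (nat_lit 15615018182587750) (.br (nat_lit 0) (.cons (.br (nat_lit 1) (.cons (.rel (nat_lit 25247760)) .nil)) .nil)) (.node .leaf (nat_lit 15615018729459849) (.br (nat_lit 2) (.cons (.br (nat_lit 4) (.cons (.rel (nat_lit 1140851730)) .nil)) .nil)) .leaf)) (nat_lit 15615018732040944) (.br (nat_lit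 4) (.cons (.br (nat_lit 1) (.cons (.rel (nat_lit 1107312642)) (.cons (.rel (nat_lit 2164326672)) .nil))) .nil)) (.node (.node .leaf (nat_lit 15615018732041574) (.br (nat_lit 2) (.cons (.br (nat_lit 1) (.cons (.rel (nat_lit 83951877)) (.cons (.br (nat_lit 3) (.cons (.rel (nat_lit 285213216)) (.cons (.rel (nat_lit 285344784)) .nil))) .nil))) .nil)) .leaf) (nat_lit 15616143591073802) (.br (nat_lit 1) (.cons (.br (nat_lit 6) (.cons (.rel (nat_lit 17213425680)) .nil)) .nil)) (.node .leaf (nat_lit 15616564469676907) (.br (nat_lit 0) (.cons (.br (nat_lit 1) (.cons (.rel (nat_lit 22544385)) .nil)) .nil)) .leaf))))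

/-- refutations 107 -/
def e107 : EX := (.node (.node (.node (.node .leaf (nat_lit 15833286022541593) (.br (nat_lit 5) (.cons (.br (nat_lit 0) (.cons (.rel (nat_lit 4299169824)) (.cons (.rel (nat_lit 4299162132)) .nil))) .nil)) .leaf) (nat_lit 15833288109771409) (.br (nat_lit 0) (.cons (.br (nat_lit 3) (.cons (.rel (nat_lit 272629794)) .nil)) .nil)) (.node .leaf (nat_lit 15833289153282828) (.br (nat_lit 2) (.cons (.br (nat_lit 4) (.cons (.rel (nat_lit 1140851730)) .nil)) .nil)) .leaf)) (nat_lit 15833289193956139) (.br (nat_lit 2) (.cons (.br (nat_lit 5) (.cons (.rel (nat_lit 4362142272)) .nil)) .nil)) (.node (.node .leaf (nat_lit 15833289196602155) (.br (nat_lit 1) (.cons (.br (nat_lit 3) (.cons (.rel (nat_lit 285491280)) .nil)) .nil)) .leaf) (nat_lit 15833289197673709) (.br (nat_lit 0) (.cons (.br (nat_lit 3) (.cons (.rel (nat_lit 272630808)) .nil)) .nil)) .leaf)) (nat_lit 15833289198193451) (.br (nat_lit 0) (.cons (.br (nat_lit 4) (.cons (.br (nat_lit 6) (.cons (.rel (nat_lit 19327353360))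 (.cons (.rel (nat_lit 17184129168)) .nil))) (.cons (.rel (nat_lit 2151677973)) .nil))) .nil)) (.node (.node (.node .leaf (nat_lit 15833289199431032) (.br (nat_lit 0) (.cons (.br (nat_lit 1) (.cons (.rel (nat_lit 37748994)) .nil)) .nil)) .leaf) (nat_lit 15838394110800027) (.br (nat_lit 0) (.cons (.br (nat_lit 1) (.cons (.rel (nat_lit 37765140)) .nil)) .nil)) (.node .leaf (nat_lit 15838394111722124) (.br (nat_lit 0) (.cons (.br (nat_lit 4) (.cons (.rel (nat_lit 2151677973)) .nil)) .nil)) .leaf)) (nat_lit 15838855429608204) (.br (nat_lit 2) (.cons (.br (nat_lit 5) (.cons (.rel (nat_lit 4363130880)) (.cons (.rel (nat_lit 4429316112)) .nil))) .nil)) (.node (.node .leaf (nat_lit 15838855430897814) (.br (nat_lit 2) (.cons (.br (nat_lit 3) (.cons (.rel (nat_lit 335561808)) .nil)) .nil)) .leaf) (nat_lit 15838855430898444) (.br (nat_lit 5) (.cons (.br (nat_lit 6) (.cons (.rel (nat_lit 21474841632)) .nil)) .nil)) .leaf)))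

/-- refutations 108 -/
def e108 : EX := (.node (.node (.node (.node .leaf (nat_lit 15839667741549854) (.br (nat_lit 6) (.cons (.br (nat_lit 1) (.cons (.rel (nat_lit 17213554944)) (.cons (.rel (nat_lit 34376516640)) .nil))) .nil)) .leaf) (nat_lit 15840793022981406) (.br (nat_lit 2) (.cons (.br (nat_lit 0) (.cons (.rel (nat_lit 71320080)) (.cons (.rel (nat_lit 71369220)) .nil))) .nil)) .leaf) (nat_lit 15840793024271646) (.br (nat_lit 1) (.cons (.br (nat_lit 3) (.cons (.rel (nat_lit 570425616)) .nil)) .nil)) (.node (.node .leaf (nat_lit 15840931065619958) (.br (nat_lit 0) (.cons (.br (nat_lit 1) (.cons (.rel (nat_lit 21234705)) .nil)) .nil)) .leaf) (nat_lit 15840933708627446) (.br (nat_lit 0) (.cons (.br (nat_lit 3) (.cons (.rel (nat_lit 545259537)) .nil)) .nil)) .leaf)) (nat_lit 15843716728107289) (.br (nat_lit 1) (.cons (.br (nat_lit 2) (.cons (.rel (nat_lit 83894292)) .nil)) .nil)) (.node (.node (.node .leaf (nat_lit 15843719769583743) (.br (nat_lit 0) (.cons (.br (nat_lit 1) (.cons (.rel (nat_lit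 25166337)) .nil)) .nil)) .leaf) (nat_lit 15845083133477644) (.br (nat_lit 3) (.cons (.br (nat_lit 6) (.cons (.rel (nat_lit 34896610560)) .nil)) .nil)) .leaf) (nat_lit 15846075832755486) (.br (nat_lit 3) (.cons (.br (nat_lit 6) (.cons (.rel (nat_lit 34896674832)) .nil)) .nil)) (.node .leaf (nat_lit 15846076419640826) (.br (nat_lit 1) (.cons (.br (nat_lit 2) (.cons (.rel (nat_lit 167772420)) .nil)) .nil)) .leaf)))

/-- refutations 109 -/
def e109 : EX := (.node (.node (.node (.node (.node .leaf (nat_lit 15958527270480499) (.br (nat_lit 0) (.cons (.br (nat_lit 2) (.cons (.rel (nat_lit 71598144)) .nil)) .nil)) .leaf) (nat_lit 15958527271710775) (.br (nat_lit 0) (.cons (.br (nat_lit 2) (.cons (.rel (nat_lit 71369220)) .nil)) .nil)) .leaf) (nat_lit 15958527271809074) (.br (nat_lit 0) (.cons (.br (nat_lit 2) (.cons (.rel (nat_lit 71303178)) .nil)) .nil)) (.node (.node .leaf (nat_lit 15958529911572535) (.br (nat_lit 0) (.cons (.br (nat_lit 2) (.cons (.rel (nat_lit 71303178)) .nil)) .nil)) .leaf) (nat_lit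 15958529911572617) (.br (nat_lit 2) (.cons (.br (nat_lit 4) (.cons (.rel (nat_lit 1140851730)) .nil)) .nil)) .leaf)) (nat_lit 15958529912833382) (.br (nat_lit 1) (.cons (.br (nat_lit 3) (.cons (.rel (nat_lit 570429444)) .nil)) .nil)) (.node (.node (.node .leaf (nat_lit 15958529912891404) (.br (nat_lit 0) (.cons (.br (nat_lit 2) (.cons (.rel (nat_lit 71303178)) .nil)) .nil)) .leaf) (nat_lit 15958529912952334) (.br (nat_lit 0) (.cons (.br (nat_lit 2) (.cons (.rel (nat_lit 142606341)) .nil)) .nil)) .leaf) (nat_lit 15958529914172072) (.br (nat_lit 0) (.cons (.br (nat_lit 1) (.cons (.rel (nat_lit 22024512)) .nil)) .nil)) (.node .leaf (nat_lit 15958529914181644) (.br (nat_lit 0) (.cons (.br (nat_lit 2) (.cons (.rel (nat_lit 142606341)) .nil)) .nil)) .leaf))) (nat_lit 15958529914221224) (.br (nat_lit 0) (.cons (.br (nat_lit 1) (.cons (.rel (nat_lit 20975745)) .nil)) .nil)) (.node (.node (.node (.node .leaf (nat_lit 15958530444250374) (.br (nat_lit 0) (.cons (.br (nat_lit 6) (.cons (.rel (nat_lit 17188323588))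 .nil)) .nil)) .leaf) (nat_lit 15958530446799635) (.br (nat_lit 3) (.cons (.br (nat_lit 0) (.cons (.rel (nat_lit 272631813)) (.cons (.rel (nat_lit 543178752)) .nil))) .nil)) .leaf) (nat_lit 15958530446800134) (.br (nat_lit 2) (.cons (.br (nat_lit 0) (.cons (.rel (nat_lit 71304228)) (.cons (.rel (nat_lit 71304228)) .nil))) .nil)) (.node (.node .leaf (nat_lit 15958532491167794) (.br (nat_lit 0) (.cons (.br (nat_lit 1) (.cons (.rel (nat_lit 23069700)) .nil)) .nil)) .leaf) (nat_lit 15958532493619250) (.br (nat_lit 0) (.cons (.br (nat_lit 5) (.cons (.rel (nat_lit 8598324501)) .nil)) .nil)) .leaf)) (nat_lit 15958532493620510) (.br (nat_lit 3) (.cons (.br (nat_lit 5) (.cons (.rel (nat_lit 4563403860)) .nil)) .nil)) (.node (.node (.node .leaf (nat_lit 15958532493669032) (.br (nat_lit 0) (.cons (.br (nat_lit 5) (.cons (.rel (nat_lit 4299163137)) .nil)) .nil)) .leaf) (nat_lit 15958532493679849) (.br (nat_lit 0) (.cons (.br (nat_lit 2) (.cons (.rel (nat_lit 71598144)) .nil)) .nil)) .leaf) (nat_lit 15961754252030109)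 (.br (nat_lit 2) (.cons (.br (nat_lit 6) (.cons (.rel (nat_lit 17248026756)) .nil)) .nil)) (.node .leaf (nat_lit 15961782856676854) (.br (nat_lit 2) (.cons (.br (nat_lit 3) (.cons (.rel (nat_lit 335561808)) .nil)) .nil)) .leaf))))

/-- refutations 110 -/
def e110 : EX := (.node (.node (.node (.node (.node .leaf (nat_lit 15963938930503735) (.br (nat_lit 0) (.cons (.br (nat_lit 2) (.cons (.rel (nat_lit 71369220)) .nil)) .nil)) .leaf) (nat_lit 15963941570365495) (.br (nat_lit 0) (.cons (.br (nat_lit 2) (.cons (.rel (nat_lit 71304228)) .nil)) .nil)) (.node .leaf (nat_lit 15963941570366750) (.br (nat_lit 0) (.cons (.br (nat_lit 3) (.cons (.rel (nat_lit 273023040)) .nil)) .nil)) .leaf)) (nat_lit 15963941571428489) (.br (nat_lit 0) (.cons (.br (nat_lit 1) (.cons (.rel (nat_lit 21233700)) .nil)) .nil)) (.node (.node .leaf (nat_lit 15963941571626342) (.br (nat_lit 0) (.cons (.br (nat_lit 4) (.cons (.rel (nat_lit 1077956736)) (.cons (.rel (nat_lit 1080033540)) .nil))) .nil)) .leaf) (nat_lit 15963941572974604)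 (.br (nat_lit 0) (.cons (.br (nat_lit 2) (.cons (.rel (nat_lit 142606341)) .nil)) .nil)) (.node .leaf (nat_lit 15963944149863080) (.br (nat_lit 0) (.cons (.br (nat_lit 2) (.cons (.rel (nat_lit 71303178)) .nil)) .nil)) .leaf))) (nat_lit 15963944149863152) (.br (nat_lit 0) (.cons (.br (nat_lit 4) (.cons (.rel (nat_lit 1080033540)) .nil)) .nil)) (.node (.node (.node .leaf (nat_lit 15963944152472809) (.br (nat_lit 0) (.cons (.br (nat_lit 2) (.cons (.rel (nat_lit 71598144)) .nil)) .nil)) .leaf) (nat_lit 15964059187067507) (.br (nat_lit 0) (.cons (.br (nat_lit 2) (.cons (.rel (nat_lit 71369220)) .nil)) .nil)) (.node .leaf (nat_lit 15964059187127798) (.br (nat_lit 0) (.cons (.br (nat_lit 2) (.cons (.rel (nat_lit 71598144)) .nil)) .nil)) .leaf)) (nat_lit 15964059188417139) (.br (nat_lit 2) (.cons (.br (nat_lit 0) (.cons (.rel (nat_lit 71320080)) (.cons (.rel (nat_lit 71303178)) .nil))) .nil)) (.node (.node .leaf (nat_lit 15964059188417793) (.br (nat_lit 0) (.cons (.br (nat_lit 1) (.cons (.rel (nat_lit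 26214528)) .nil)) .nil)) .leaf) (nat_lit 15964059188654230) (.br (nat_lit 0) (.cons (.br (nat_lit 1) (.cons (.rel (nat_lit 21038208)) .nil)) .nil)) (.node .leaf (nat_lit 15964059189588023) (.br (nat_lit 0) (.cons (.br (nat_lit 2) (.cons (.rel (nat_lit 71320080)) .nil)) .nil)) .leaf)))) (nat_lit 15964059189676659) (.br (nat_lit 0) (.cons (.br (nat_lit 2) (.cons (.rel (nat_lit 71320080)) .nil)) .nil)) (.node (.node (.node (.node .leaf (nat_lit 15964059189676967) (.br (nat_lit 0) (.cons (.br (nat_lit 2) (.cons (.rel (nat_lit 71305233)) .nil)) .nil)) .leaf) (nat_lit 15968161809262094) (.br (nat_lit 0) (.cons (.br (nat_lit 3) (.cons (.rel (nat_lit 272631813)) .nil)) .nil)) (.node .leaf (nat_lit 15969104121143308) (.br (nat_lit 0) (.cons (.br (nat_lit 3) (.cons (.rel (nat_lit 272630808)) (.cons (.rel (nat_lit 272631813)) .nil))) .nil)) .leaf)) (nat_lit 15969104121143351) (.br (nat_lit 0) (.cons (.br (nat_lit 2) (.cons (.rel (nat_lit 71323908)) .nil)) .nil)) (.node (.node .leaf (nat_lit 15969221739047539)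 (.br (nat_lit 0) (.cons (.br (nat_lit 2) (.cons (.rel (nat_lit 71598144)) .nil)) .nil)) .leaf) (nat_lit 15969221740277897) (.br (nat_lit 0) (.cons (.br (nat_lit 2) (.cons (.rel (nat_lit 75513924)) .nil)) .nil)) (.node .leaf (nat_lit 15969221740279070) (.br (nat_lit 5) (.cons (.br (nat_lit 0) (.cons (.rel (nat_lit 4299162132)) (.cons (.rel (nat_lit 4299162132)) .nil))) .nil)) .leaf))) (nat_lit 15969224380139532) (.br (nat_lit 0) (.cons (.br (nat_lit 2) (.cons (.rel (nat_lit 71369220)) .nil)) .nil)) (.node (.node (.node .leaf (nat_lit 15969224380139657) (.br (nat_lit 2) (.cons (.br (nat_lit 4) (.cons (.rel (nat_lit 1142161410)) .nil)) .nil)) .leaf) (nat_lit 15969224380140830) (.br (nat_lit 0) (.cons (.br (nat_lit 4) (.cons (.rel (nat_lit 1082131476)) .nil)) .nil)) (.node .leaf (nat_lit 15969224380168247) (.br (nat_lit 2) (.cons (.br (nat_lit 3) (.cons (.rel (nat_lit 402661632)) (.cons (.rel (nat_lit 336593424)) .nil))) .nil)) .leaf)) (nat_lit 15969224380227596) (.br (nat_lit 0) (.cons (.br (nat_lit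 2) (.cons (.rel (nat_lit 71434497)) .nil)) .nil)) (.node (.node .leaf (nat_lit 15969224381458444) (.br (nat_lit 0) (.cons (.br (nat_lit 2) (.cons (.rel (nat_lit 71303178)) .nil)) .nil)) .leaf) (nat_lit 15969224381459732) (.br (nat_lit 0) (.cons (.br (nat_lit 4) (.cons (.rel (nat_lit 1080033540)) .nil)) .nil)) .leaf))))

/-- refutations 111 -/
def e111 : EX := (.node .leaf (nat_lit 15504353656553509) (.br (nat_lit 0) (.cons (.br (nat_lit 1) (.cons (.rel (nat_lit 25166337)) .nil)) .nil)) .leaf)

/-- refutations 112 -/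
def e112 : EX := (.node (.node (.node (.node (.node .leaf (nat_lit 16026742015922202) (.br (nat_lit 1) (.cons (.br (nat_lit 3) (.cons (.rel (nat_lit 285213216)) .nil)) .nil)) .leaf) (nat_lit 16026742018472592) (.br (nat_lit 1) (.cons (.br (nat_lit 2) (.cons (.rel (nat_lit 101711904)) .nil)) .nil)) (.node .leaf (nat_lit 16026742334435605) (.br (nat_lit 0) (.cons (.br (nat_lit 1) (.cons (.rel (nat_lit 25172232)) .nil)) .nil)) .leaf)) (nat_lit 16026742435457026) (.br (nat_lit 2) (.cons (.br (nat_lit 3) (.cons (.rel (nat_lit 336593424)) .nil)) .nil)) (.node (.node .leaf (nat_lit 16026742436438166) (.br (nat_lit 2) (.cons (.br (nat_lit 1) (.cons (.rel (nat_lit 83957760)) (.cons (.rel (nat_lit 83919888)) .nil))) .nil)) .leaf) (nat_lit 16026742436438947) (.br (nat_lit 0) (.cons (.br (nat_lit 2) (.cons (.rel (nat_lit 71451648)) .nil)) .nil)) .leaf)) (nat_lit 16026742437697837) (.br (nat_lit 0) (.cons (.br (nat_lit 2) (.cons (.rel (nat_lit 71451648)) .nil)) .nil)) (.node (.node (.node .leaf (nat_lit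 16026742548345109) (.br (nat_lit 3) (.cons (.br (nat_lit 2) (.cons (.rel (nat_lit 335561808)) (.cons (.rel (nat_lit 603980805)) (.cons (.rel (nat_lit 603979800)) .nil)))) .nil)) .leaf) (nat_lit 16026743068447500) (.br (nat_lit 1) (.cons (.br (nat_lit 2) (.cons (.rel (nat_lit 167772420)) .nil)) .nil)) .leaf) (nat_lit 16026743068487981) (.br (nat_lit 0) (.cons (.br (nat_lit 6) (.cons (.rel (nat_lit 17184327684)) .nil)) .nil)) (.node (.node .leaf (nat_lit 16026743070243596) (.br (nat_lit 2) (.cons (.br (nat_lit 5) (.cons (.rel (nat_lit 4363127064)) (.cons (.br (nat_lit 6) (.cons (.rel (nat_lit 34493972496)) (.cons (.rel (nat_lit 21474836754)) (.cons (.rel (nat_lit 34493972496)) .nil)))) .nil))) (.cons (.br (nat_lit 5) (.cons (.rel (nat_lit 4362076230)) (.cons (.rel (nat_lit 4362076230)) .nil))) .nil))) .leaf) (nat_lit 16026743071502486) (.br (nat_lit 5) (.cons (.br (nat_lit 1) (.cons (.rel (nat_lit 4312006752)) (.cons (.rel (nat_lit 4311744789)) .nil))) .nil)) .leaf))) (nat_lit 16026743071503116)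 (.br (nat_lit 0) (.cons (.br (nat_lit 3) (.cons (.rel (nat_lit 272629794)) (.cons (.rel (nat_lit 272629794)) .nil))) (.cons (.br (nat_lit 3) (.cons (.rel (nat_lit 272666625)) (.cons (.rel (nat_lit 272630808)) .nil))) .nil))) (.node (.node (.node (.node .leaf (nat_lit 16026743071570070) (.br (nat_lit 0) (.cons (.br (nat_lit 1) (.cons (.rel (nat_lit 20975745)) .nil)) .nil)) .leaf) (nat_lit 16026743071574796) (.br (nat_lit 0) (.cons (.br (nat_lit 3) (.cons (.rel (nat_lit 272631813)) .nil)) .nil)) .leaf) (nat_lit 16026745190756629) (.br (nat_lit 3) (.cons (.br (nat_lit 5) (.cons (.rel (nat_lit 4563403860)) (.cons (.rel (nat_lit 4563476544)) .nil))) .nil)) (.node (.node .leaf (nat_lit 16026745193306389) (.br (nat_lit 3) (.cons (.br (nat_lit 5) (.cons (.rel (nat_lit 4563419712)) .nil)) .nil)) .leaf) (nat_lit 16027830890542593) (.br (nat_lit 1) (.cons (.br (nat_lit 3) (.cons (.rel (nat_lit 285344784)) .nil)) .nil)) .leaf)) (nat_lit 16027832938906256) (.br (nat_lit 3) (.cons (.br (nat_lit 1) (.cons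 (.rel (nat_lit 285217044)) (.cons (.rel (nat_lit 285282321)) .nil))) .nil)) (.node (.node (.node .leaf (nat_lit 16027832940165146) (.br (nat_lit 1) (.cons (.br (nat_lit 2) (.cons (.rel (nat_lit 101711904)) .nil)) .nil)) .leaf) (nat_lit 16027832940165776) (.br (nat_lit 2) (.cons (.br (nat_lit 5) (.cons (.rel (nat_lit 8657044752)) .nil)) .nil)) .leaf) (nat_lit 16027833472588683) (.br (nat_lit 1) (.cons (.br (nat_lit 5) (.cons (.rel (nat_lit 4311761940)) .nil)) .nil)) (.node (.node .leaf (nat_lit 16027833993195670) (.br (nat_lit 0) (.cons (.br (nat_lit 5) (.cons (.rel (nat_lit 4299244560)) .nil)) .nil)) .leaf) (nat_lit 16027833993196300) (.br (nat_lit 3) (.cons (.br (nat_lit 5) (.cons (.rel (nat_lit 4563419712)) .nil)) .nil)) .leaf))))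

/-- refutations 113 -/
def e113 : EX := (.node (.node (.node (.node (.node .leaf (nat_lit 16028895509867782) (.br (nat_lit 0) (.cons (.br (nat_lit 1) (.cons (.rel (nat_lit 23068698)) .nil)) .nil)) .leaf) (nat_lit 16028895510009094) (.br (nat_lit 5) (.cons (.br (nat_lit 0) (.cons (.rel (nat_lit 4299162132)) (.cons (.rel (nat_lit 4299165960)) .nil))) .nil)) .leaf) (nat_lit 16028895512558224) (.br (nat_lit 0) (.cons (.br (nat_lit 2) (.cons (.rel (nat_lit 71598144)) .nil)) .nil)) (.node (.node .leaf (nat_lit 16028898089504794) (.br (nat_lit 6) (.cons (.br (nat_lit 5) (.cons (.br (nat_lit 2) (.cons (.rel (nat_lit 8657109024)) (.cons (.rel (nat_lit 4429217796)) .nil))) (.cons (.rel (nat_lit 21474852900)) .nil))) .nil)) .leaf) (nat_lit 16028898089519760) (.br (nat_lit 1) (.cons (.br (nat_lit 3) (.cons (.rel (nat_lit 285213216)) .nil)) .nil)) .leaf)) (nat_lit 16028898092054554) (.br (nat_lit 1) (.cons (.br (nat_lit 5) (.cons (.rel (nat_lit 4311750672)) .nil)) .nil)) (.node (.node (.node .leaf (nat_lit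 16028898092055184) (.br (nat_lit 5) (.cons (.br (nat_lit 6) (.cons (.rel (nat_lit 21474852900)) .nil)) .nil)) .leaf) (nat_lit 16028898509195414) (.br (nat_lit 0) (.cons (.br (nat_lit 3) (.cons (.rel (nat_lit 272630808)) .nil)) .nil)) .leaf) (nat_lit 16028898621977483) (.br (nat_lit 0) (.cons (.br (nat_lit 1) (.cons (.rel (nat_lit 21234705)) .nil)) .nil)) (.node (.node .leaf (nat_lit 16028898622017797) (.br (nat_lit 2) (.cons (.br (nat_lit 3) (.cons (.rel (nat_lit 335548485)) .nil)) .nil)) .leaf) (nat_lit 16028898623218571) (.br (nat_lit 5) (.cons (.br (nat_lit 1) (.cons (.rel (nat_lit 4311745794)) (.cons (.rel (nat_lit 4311748617)) .nil))) .nil)) .leaf))) (nat_lit 16028898623515531) (.br (nat_lit 0) (.cons (.br (nat_lit 2) (.cons (.rel (nat_lit 76022292)) .nil)) .nil)) (.node (.node (.node (.node .leaf (nat_lit 16028898624478091) (.br (nat_lit 0) (.cons (.br (nat_lit 5) (.cons (.rel (nat_lit 4299162132)) (.cons (.rel (nat_lit 8598339585)) .nil))) .nil)) .leaf) (nat_lit 16028898624478721) (.br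 (nat_lit 3) (.cons (.br (nat_lit 5) (.cons (.rel (nat_lit 4564455441)) .nil)) .nil)) .leaf) (nat_lit 16028899142070573) (.br (nat_lit 0) (.cons (.br (nat_lit 4) (.cons (.rel (nat_lit 1080098817)) .nil)) .nil)) (.node (.node .leaf (nat_lit 16028899142535318) (.br (nat_lit 6) (.cons (.br (nat_lit 3) (.cons (.rel (nat_lit 34896610560)) (.cons (.rel (nat_lit 17448309009)) .nil))) .nil)) .leaf) (nat_lit 16028899145085078) (.br (nat_lit 3) (.cons (.br (nat_lit 5) (.cons (.rel (nat_lit 8858435604)) .nil)) .nil)) .leaf)) (nat_lit 16028899145085708) (.br (nat_lit 3) (.cons (.br (nat_lit 2) (.cons (.rel (nat_lit 603979800)) (.cons (.rel (nat_lit 402654225)) .nil))) .nil)) (.node (.node (.node .leaf (nat_lit 16028901234987289) (.br (nat_lit 3) (.cons (.br (nat_lit 4) (.cons (.rel (nat_lit 1342177305)) .nil)) .nil)) .leaf) (nat_lit 16028901235069189) (.br (nat_lit 0) (.cons (.br (nat_lit 2) (.cons (.rel (nat_lit 142606341)) .nil)) .nil)) .leaf) (nat_lit 16033150153280148) (.br (nat_lit 2) (.cons (.br (nat_lit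 3) (.cons (.rel (nat_lit 402653220)) .nil)) .nil)) (.node .leaf (nat_lit 16033150155584148) (.br (nat_lit 3) (.cons (.br (nat_lit 4) (.cons (.rel (nat_lit 1342263312)) .nil)) .nil)) .leaf))))

/-- refutations 114 -/
def e114 : EX := (.node (.node (.node (.node (.node .leaf (nat_lit 16034278534041881) (.br (nat_lit 3) (.cons (.br (nat_lit 0) (.cons (.rel (nat_lit 272630808)) (.cons (.rel (nat_lit 272631813)) .nil))) .nil)) .leaf) (nat_lit 16038524826685466) (.br (nat_lit 0) (.cons (.br (nat_lit 3) (.cons (.rel (nat_lit 545259537)) .nil)) .nil)) .leaf) (nat_lit 16038524826686726) (.br (nat_lit 2) (.cons (.br (nat_lit 3) (.cons (.rel (nat_lit 403963905)) .nil)) .nil)) (.node .leaf (nat_lit 16038527938605963) (.br (nat_lit 1) (.cons (.br (nat_lit 5) (.cons (.rel (nat_lit 4311750672)) (.cons (.rel (nat_lit 4311745794)) .nil))) .nil)) .leaf)) (nat_lit 16038527939896203) (.br (nat_lit 0) (.cons (.br (nat_lit 5) (.cons (.rel (nat_lit 4299169824)) (.cons (.rel (nat_lit 8598327312)) .nil))) .nil)) (.node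 (.node .leaf (nat_lit 16038530581016853) (.br (nat_lit 3) (.cons (.br (nat_lit 6) (.cons (.rel (nat_lit 17448338433)) .nil)) .nil)) .leaf) (nat_lit 16038530582307093) (.br (nat_lit 0) (.cons (.br (nat_lit 1) (.cons (.rel (nat_lit 22024512)) .nil)) .nil)) (.node .leaf (nat_lit 16038530582307723) (.br (nat_lit 0) (.cons (.br (nat_lit 3) (.cons (.rel (nat_lit 272654352)) (.cons (.rel (nat_lit 272630808)) .nil))) .nil)) .leaf))) (nat_lit 16038530582308353) (.br (nat_lit 0) (.cons (.br (nat_lit 3) (.cons (.rel (nat_lit 272629794)) .nil)) .nil)) (.node (.node (.node (.node .leaf (nat_lit 16039590510997781) (.br (nat_lit 0) (.cons (.br (nat_lit 5) (.cons (.rel (nat_lit 8598327312)) .nil)) .nil)) .leaf) (nat_lit 16039590510998411) (.br (nat_lit 0) (.cons (.br (nat_lit 5) (.cons (.rel (nat_lit 4300211328)) .nil)) .nil)) .leaf) (nat_lit 16039590510999041) (.br (nat_lit 1) (.cons (.br (nat_lit 5) (.cons (.rel (nat_lit 4311750672)) .nil)) .nil)) (.node .leaf (nat_lit 16039590513547541) (.br (nat_lit 1)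 (.cons (.br (nat_lit 3) (.cons (.rel (nat_lit 285213216)) .nil)) .nil)) .leaf)) (nat_lit 16039590513548801) (.br (nat_lit 5) (.cons (.br (nat_lit 1) (.cons (.rel (nat_lit 4311748617)) (.cons (.rel (nat_lit 4311744789)) .nil))) .nil)) (.node (.node .leaf (nat_lit 16039592558073094) (.br (nat_lit 1) (.cons (.br (nat_lit 5) (.cons (.rel (nat_lit 4311745794)) .nil)) .nil)) .leaf) (nat_lit 16039592559362704) (.br (nat_lit 1) (.cons (.br (nat_lit 2) (.cons (.rel (nat_lit 167837697)) .nil)) .nil)) (.node .leaf (nat_lit 16039593612393228) (.br (nat_lit 0) (.cons (.br (nat_lit 3) (.cons (.rel (nat_lit 545259537)) (.cons (.rel (nat_lit 272629794)) .nil))) .nil)) .leaf))))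

/-- refutations 116 -/
def e116 : EX := (.node (.node (.node (.node (.node .leaf (nat_lit 16290460057239707) (.br (nat_lit 0) (.cons (.br (nat_lit 2) (.cons (.rel (nat_lit 71305233)) .nil)) .nil)) .leaf) (nat_lit 16290460057240337) (.br (nat_lit 0) (.cons (.br (nat_lit 4) (.cons (.rel (nat_lit 1078264836)) .nil)) .nil)) .leaf) (nat_lit 16290465279148817) (.br (nat_lit 0) (.cons (.br (nat_lit 2) (.cons (.rel (nat_lit 71305233)) .nil)) .nil)) (.node .leaf (nat_lit 16290465279149432) (.br (nat_lit 0) (.cons (.br (nat_lit 2) (.cons (.rel (nat_lit 71305233)) .nil)) .nil)) .leaf)) (nat_lit 16290883497342305) (.br (nat_lit 0) (.cons (.br (nat_lit 1) (.cons (.rel (nat_lit 25296900)) .nil)) .nil)) (.node (.node (.node .leaf (nat_lit 16292781223951718) (.br (nat_lit 0) (.cons (.br (nat_lit 3) (.cons (.rel (nat_lit 272630808)) .nil)) .nil)) .leaf) (nat_lit 16292781226412909) (.br (nat_lit 2) (.cons (.br (nat_lit 5) (.cons (.rel (nat_lit 4429217796)) .nil)) .nil)) .leaf) (nat_lit 16292781226965869) (.br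 (nat_lit 0) (.cons (.br (nat_lit 1) (.cons (.rel (nat_lit 22024512)) .nil)) .nil)) (.node .leaf (nat_lit 16292781428103824) (.br (nat_lit 0) (.cons (.br (nat_lit 2) (.cons (.rel (nat_lit 71303178)) .nil)) .nil)) .leaf))) (nat_lit 16295742864464027) (.br (nat_lit 0) (.cons (.br (nat_lit 2) (.cons (.rel (nat_lit 71389185)) (.cons (.rel (nat_lit 71305233)) .nil))) .nil)) (.node (.node (.node (.node .leaf (nat_lit 16295742864464657) (.br (nat_lit 0) (.cons (.br (nat_lit 2) (.cons (.rel (nat_lit 71305233)) .nil)) .nil)) .leaf) (nat_lit 16295742864464683) (.br (nat_lit 0) (.cons (.br (nat_lit 1) (.cons (.rel (nat_lit 21234705)) .nil)) .nil)) .leaf) (nat_lit 16295745506875547) (.br (nat_lit 0) (.cons (.br (nat_lit 2) (.cons (.rel (nat_lit 71305233)) .nil)) .nil)) (.node .leaf (nat_lit 16295745506876792) (.br (nat_lit 1) (.cons (.br (nat_lit 4) (.cons (.rel (nat_lit 1090781202)) .nil)) .nil)) .leaf)) (nat_lit 16295745509425307) (.br (nat_lit 0) (.cons (.br (nat_lit 5) (.cons (.rel (nat_lit 8594129028))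 .nil)) .nil)) (.node (.node .leaf (nat_lit 16295745509426552) (.br (nat_lit 1) (.cons (.br (nat_lit 4) (.cons (.br (nat_lit 5) (.cons (.rel (nat_lit 9680453652)) .nil)) .nil)) .nil)) .leaf) (nat_lit 16295748088922897) (.br (nat_lit 0) (.cons (.br (nat_lit 5) (.cons (.rel (nat_lit 8594129028)) .nil)) .nil)) (.node .leaf (nat_lit 16295748088923512) (.br (nat_lit 0) (.cons (.br (nat_lit 1) (.cons (.br (nat_lit 2) (.cons (.rel (nat_lit 83890464)) .nil)) .nil)) .nil)) .leaf))))

/-- refutations 118 -/
def e118 : EX := (.node .leaf (nat_lit 16361182553218434) (.br (nat_lit 0) (.cons (.br (nat_lit 6) (.cons (.rel (nat_lit 17188323588)) (.cons (.rel (nat_lit 17186161665)) .nil))) .nil)) .leaf)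

/-- refutations 119 -/
def e119 : EX := (.node .leaf (nat_lit 16372006902603138) (.br (nat_lit 5) (.cons (.br (nat_lit 1) (.cons (.rel (nat_lit 4311745794)) (.cons (.rel (nat_lit 4312006752)) .nil))) .nil)) .leaf)

/-- refutations 120 -/
def e120 : EX := (.node (.node (.node (.node (.node (.node .leaf (nat_lit 16378643192029995) (.br (nat_lit 0) (.cons (.br (nat_lit 4) (.cons (.rel (nat_lit 1082131476)) .nil)) .nil)) .leaf) (nat_lit 16378646185225618) (.br (nat_lit 2) (.cons (.br (nat_lit 6) (.cons (.rel (nat_lit 17246984448)) .nil)) .nil)) (.node .leaf (nat_lit 16378646736173808) (.br (nat_lit 2) (.cons (.br (nat_lit 5) (.cons (.rel (nat_lit 4363130880)) (.cons (.rel (nat_lit 4429316112)) .nil))) .nil)) .leaf)) (nat_lit 16378646836869900) (.br (nat_lit 0) (.cons (.br (nat_lit 1) (.cons (.rel (nat_lit 25247760)) .nil)) .nil)) (.node (.node .leaf (nat_lit 16378646920755980) (.br (nat_lit 5) (.cons (.br (nat_lit 6) (.cons (.rel (nat_lit 21474841632)) .nil)) .nil)) .leaf) (nat_lit 16378649012096276)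 (.br (nat_lit 0) (.cons (.br (nat_lit 3) (.cons (.rel (nat_lit 272630808)) (.cons (.rel (nat_lit 272666625)) .nil))) .nil)) .leaf)) (nat_lit 16378649012096286) (.br (nat_lit 1) (.cons (.br (nat_lit 2) (.cons (.rel (nat_lit 101188608)) .nil)) .nil)) (.node (.node (.node .leaf (nat_lit 16378649013680880) (.br (nat_lit 0) (.cons (.br (nat_lit 2) (.cons (.rel (nat_lit 75502656)) .nil)) .nil)) .leaf) (nat_lit 16378649013681029) (.br (nat_lit 3) (.cons (.br (nat_lit 5) (.cons (.rel (nat_lit 4564455441)) .nil)) .nil)) (.node .leaf (nat_lit 16378649013713177) (.br (nat_lit 0) (.cons (.br (nat_lit 2) (.cons (.rel (nat_lit 138690561)) .nil)) .nil)) .leaf)) (nat_lit 16378649014440191) (.br (nat_lit 0) (.cons (.br (nat_lit 1) (.cons (.rel (nat_lit 39845952)) .nil)) .nil)) (.node (.node .leaf (nat_lit 16378649014645017) (.br (nat_lit 2) (.cons (.br (nat_lit 6) (.cons (.rel (nat_lit 17247010848)) .nil)) .nil)) .leaf) (nat_lit 16378649014646046) (.br (nat_lit 0) (.cons (.br (nat_lit 5) (.cons (.rel (nat_lit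 8598324501)) .nil)) .nil)) .leaf))) (nat_lit 16380739619069461) (.br (nat_lit 2) (.cons (.br (nat_lit 5) (.cons (.rel (nat_lit 4362604560)) .nil)) .nil)) (.node (.node (.node (.node .leaf (nat_lit 16380739619393686) (.br (nat_lit 0) (.cons (.br (nat_lit 1) (.cons (.rel (nat_lit 20975745)) .nil)) .nil)) .leaf) (nat_lit 16380739636114040) (.br (nat_lit 0) (.cons (.br (nat_lit 2) (.cons (.rel (nat_lit 142606341)) .nil)) .nil)) (.node .leaf (nat_lit 16380739734522608) (.br (nat_lit 0) (.cons (.br (nat_lit 1) (.cons (.rel (nat_lit 25296900)) .nil)) .nil)) .leaf)) (nat_lit 16380739735486745) (.br (nat_lit 1) (.cons (.br (nat_lit 3) (.cons (.br (nat_lit 0) (.cons (.rel (nat_lit 25296900)) (.cons (.rel (nat_lit 273023040)) .nil))) .nil)) .nil)) (.node (.node .leaf (nat_lit 16380739736777456) (.br (nat_lit 0) (.cons (.br (nat_lit 1) (.cons (.rel (nat_lit 37814280)) .nil)) .nil)) .leaf) (nat_lit 16380742129266066) (.br (nat_lit 3) (.cons (.br (nat_lit 5) (.cons (.rel (nat_lit 4831846401)) .nil)) .nil))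 .leaf)) (nat_lit 16380742130230128) (.br (nat_lit 2) (.cons (.br (nat_lit 3) (.cons (.rel (nat_lit 402653220)) .nil)) .nil)) (.node (.node (.node .leaf (nat_lit 16380742175133977) (.br (nat_lit 3) (.cons (.br (nat_lit 0) (.cons (.rel (nat_lit 543178752)) (.cons (.rel (nat_lit 545259537)) (.cons (.rel (nat_lit 273940488)) .nil)))) .nil)) .leaf) (nat_lit 16380742175350839) (.br (nat_lit 0) (.cons (.br (nat_lit 2) (.cons (.rel (nat_lit 71320080)) .nil)) .nil)) (.node .leaf (nat_lit 16380742175410202) (.br (nat_lit 3) (.cons (.br (nat_lit 5) (.cons (.rel (nat_lit 4563927312)) .nil)) .nil)) .leaf)) (nat_lit 16380742175410457) (.br (nat_lit 2) (.cons (.br (nat_lit 3) (.cons (.br (nat_lit 0) (.cons (.rel (nat_lit 273940488)) (.cons (.rel (nat_lit 142606341)) .nil))) .nil)) .nil)) (.node (.node .leaf (nat_lit 16380742175607060) (.br (nat_lit 2) (.cons (.br (nat_lit 5) (.cons (.rel (nat_lit 4362096960)) .nil)) .nil)) .leaf) (nat_lit 16380742175608286) (.br (nat_lit 0) (.cons (.br (nat_lit 1) (.cons (.rel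 (nat_lit 20975745)) .nil)) .nil)) .leaf)))) (nat_lit 16380742176334751) (.br (nat_lit 1) (.cons (.br (nat_lit 6) (.cons (.rel (nat_lit 17196646548)) .nil)) .nil)) (.node (.node (.node (.node (.node .leaf (nat_lit 16380742176426871) (.br (nat_lit 3) (.cons (.br (nat_lit 4) (.cons (.rel (nat_lit 2684355600)) .nil)) .nil)) .leaf) (nat_lit 16380742176571673) (.br (nat_lit 0) (.cons (.br (nat_lit 3) (.cons (.rel (nat_lit 543178752)) .nil)) .nil)) (.node .leaf (nat_lit 16380742176631671) (.br (nat_lit 0) (.cons (.br (nat_lit 1) (.cons (.rel (nat_lit 39845952)) .nil)) .nil)) .leaf)) (nat_lit 16380742176897911) (.br (nat_lit 4) (.cons (.br (nat_lit 6) (.cons (.rel (nat_lit 18253611393)) .nil)) .nil)) (.node (.node .leaf (nat_lit 16380742177616759) (.br (nat_lit 4) (.cons (.br (nat_lit 6) (.cons (.rel (nat_lit 18253877760)) (.cons (.rel (nat_lit 35433480480)) (.cons (.rel (nat_lit 18255708162)) .nil)))) .nil)) .leaf) (nat_lit 16380742177616799) (.br (nat_lit 3) (.cons (.br (nat_lit 2) (.cons (.rel (nat_lit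 336593424)) (.cons (.rel (nat_lit 402800640)) .nil))) .nil)) .leaf)) (nat_lit 16380742177705222) (.br (nat_lit 0) (.cons (.br (nat_lit 1) (.cons (.rel (nat_lit 22544385)) .nil)) .nil)) (.node (.node (.node .leaf (nat_lit 16380742177862288) (.br (nat_lit 0) (.cons (.br (nat_lit 1) (.cons (.rel (nat_lit 20975745)) .nil)) .nil)) .leaf) (nat_lit 16380742177862519) (.br (nat_lit 2) (.cons (.br (nat_lit 6) (.cons (.rel (nat_lit 17246979618)) (.cons (.rel (nat_lit 17246984448)) (.cons (.rel (nat_lit 34429206528)) .nil)))) (.cons (.br (nat_lit 4) (.cons (.rel (nat_lit 1140998145)) (.cons (.rel (nat_lit 1140850725)) (.cons (.rel (nat_lit 1140883728)) .nil)))) .nil))) (.node .leaf (nat_lit 16380742177862559) (.br (nat_lit 1) (.cons (.br (nat_lit 6) (.cons (.rel (nat_lit 34376536320)) .nil)) .nil)) .leaf)) (nat_lit 16380742178108279) (.br (nat_lit 2) (.cons (.br (nat_lit 6) (.cons (.rel (nat_lit 17246998530)) .nil)) .nil)) (.node (.node .leaf (nat_lit 16380744955916549) (.br (nat_lit 0) (.cons (.br (nat_lit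 2) (.cons (.rel (nat_lit 71303178)) .nil)) .nil)) .leaf) (nat_lit 16380744955957375) (.br (nat_lit 1) (.cons (.br (nat_lit 0) (.cons (.rel (nat_lit 21233700)) (.cons (.rel (nat_lit 21234705)) .nil))) .nil)) .leaf))) (nat_lit 16380744955957529) (.br (nat_lit 0) (.cons (.br (nat_lit 3) (.cons (.rel (nat_lit 272666625)) (.cons (.rel (nat_lit 272635392)) .nil))) (.cons (.br (nat_lit 3) (.cons (.rel (nat_lit 272711937)) (.cons (.rel (nat_lit 272646660)) .nil))) .nil))) (.node (.node (.node (.node .leaf (nat_lit 16380744955957928) (.br (nat_lit 0) (.cons (.br (nat_lit 2) (.cons (.rel (nat_lit 138690561)) .nil)) .nil)) .leaf) (nat_lit 16380744955958033) (.br (nat_lit 1) (.cons (.br (nat_lit 3) (.cons (.rel (nat_lit 286654464)) .nil)) .nil)) (.node .leaf (nat_lit 16380744955958548) (.br (nat_lit 0) (.cons (.br (nat_lit 6) (.cons (.rel (nat_lit 17186160660)) .nil)) .nil)) .leaf)) (nat_lit 16380744956136176) (.br (nat_lit 0) (.cons (.br (nat_lit 5) (.cons (.rel (nat_lit 4299162132)) .nil)) .nil)) (.node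 (.node .leaf (nat_lit 16380744957395225) (.br (nat_lit 1) (.cons (.br (nat_lit 3) (.cons (.br (nat_lit 5) (.cons (.rel (nat_lit 4831870992)) .nil)) .nil)) .nil)) .leaf) (nat_lit 16380744957396244) (.br (nat_lit 4) (.cons (.br (nat_lit 0) (.cons (.br (nat_lit 6) (.cons (.rel (nat_lit 17184362496)) (.cons (.rel (nat_lit 18255708162)) .nil))) (.cons (.rel (nat_lit 1078264836)) .nil))) .nil)) .leaf)) (nat_lit 16380744958685869) (.br (nat_lit 0) (.cons (.br (nat_lit 4) (.cons (.br (nat_lit 6) (.cons (.rel (nat_lit 18255708162)) .nil)) .nil)) .nil)) (.node (.node (.node .leaf (nat_lit 16380744958685936) (.br (nat_lit 5) (.cons (.br (nat_lit 0) (.cons (.rel (nat_lit 4299162132)) (.cons (.rel (nat_lit 4299163137)) .nil))) .nil)) .leaf) (nat_lit 16380744958686071) (.br (nat_lit 1) (.cons (.br (nat_lit 2) (.cons (.rel (nat_lit 83890464)) .nil)) .nil)) .leaf) (nat_lit 16380991487651202) (.br (nat_lit 4) (.cons (.br (nat_lit 2) (.cons (.rel (nat_lit 1140887556)) (.cons (.rel (nat_lit 1140850725)) .nil)))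 .nil)) (.node (.node .leaf (nat_lit 16380994065352985) (.br (nat_lit 1) (.cons (.br (nat_lit 5) (.cons (.rel (nat_lit 4311745794)) .nil)) .nil)) .leaf) (nat_lit 16380994065857292) (.br (nat_lit 4) (.cons (.br (nat_lit 2) (.cons (.rel (nat_lit 1140852744)) (.cons (.rel (nat_lit 1140850725)) .nil))) .nil)) .leaf)))))

/-- refutations 121 -/
def e121 : EX := (.node (.node (.node (.node (.node (.node (.node .leaf (nat_lit 16384166581080345) (.br (nat_lit 0) (.cons (.br (nat_lit 1) (.cons (.br (nat_lit 3) (.cons (.rel (nat_lit 285213216)) .nil)) .nil)) .nil)) .leaf) (nat_lit 16384166582370585) (.br (nat_lit 0) (.cons (.br (nat_lit 2) (.cons (.rel (nat_lit 71369220)) .nil)) .nil)) .leaf) (nat_lit 16384167117951257) (.br (nat_lit 0) (.cons (.br (nat_lit 4) (.cons (.br (nat_lit 1) (.cons (.rel (nat_lit 43017216)) (.cons (.rel (nat_lit 2164293633)) (.cons (.rel (nat_lit 37814280)) .nil)))) (.cons (.rel (nat_lit 2151678978)) .nil))) .nil)) (.node (.node .leaf (nat_lit 16384167118425590) (.br (nat_lit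 1) (.cons (.br (nat_lit 6) (.cons (.rel (nat_lit 17196646548)) (.cons (.rel (nat_lit 17198776320)) .nil))) .nil)) .leaf) (nat_lit 16384167118487702) (.br (nat_lit 5) (.cons (.br (nat_lit 2) (.cons (.br (nat_lit 3) (.cons (.rel (nat_lit 8858386464)) (.cons (.rel (nat_lit 8858386464)) (.cons (.rel (nat_lit 8858435604)) (.cons (.rel (nat_lit 335561808)) .nil))))) (.cons (.rel (nat_lit 4363130880)) .nil))) .nil)) .leaf)) (nat_lit 16384167119241497) (.br (nat_lit 0) (.cons (.br (nat_lit 1) (.cons (.br (nat_lit 4) (.cons (.rel (nat_lit 1107362832)) .nil)) .nil)) .nil)) (.node (.node (.node .leaf (nat_lit 16384167119241521) (.br (nat_lit 0) (.cons (.br (nat_lit 1) (.cons (.rel (nat_lit 20975745)) .nil)) .nil)) .leaf) (nat_lit 16384167119242742) (.br (nat_lit 1) (.cons (.br (nat_lit 4) (.cons (.rel (nat_lit 2164326672)) .nil)) .nil)) .leaf) (nat_lit 16384167119743126) (.br (nat_lit 0) (.cons (.br (nat_lit 1) (.cons (.rel (nat_lit 37765140)) (.cons (.rel (nat_lit 21233700)) .nil))) .nil)) (.node .leaf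 (nat_lit 16384167119747222) (.br (nat_lit 2) (.cons (.br (nat_lit 6) (.cons (.rel (nat_lit 17247043842)) .nil)) .nil)) .leaf))) (nat_lit 16384167120532982) (.br (nat_lit 0) (.cons (.br (nat_lit 4) (.cons (.br (nat_lit 1) (.cons (.rel (nat_lit 2164262400)) (.cons (.rel (nat_lit 25247760)) .nil))) .nil)) .nil)) (.node (.node (.node (.node .leaf (nat_lit 16384169216895126) (.br (nat_lit 4) (.cons (.br (nat_lit 5) (.cons (.rel (nat_lit 5368729608)) .nil)) .nil)) .leaf) (nat_lit 16384169216899222) (.br (nat_lit 0) (.cons (.br (nat_lit 1) (.cons (.rel (nat_lit 23069700)) .nil)) .nil)) .leaf) (nat_lit 16384169218146454) (.br (nat_lit 2) (.cons (.br (nat_lit 3) (.cons (.rel (nat_lit 335544657)) .nil)) .nil)) (.node (.node .leaf (nat_lit 16384169558987639) (.br (nat_lit 2) (.cons (.br (nat_lit 6) (.cons (.rel (nat_lit 17246978565)) .nil)) .nil)) .leaf) (nat_lit 16384170062826998) (.br (nat_lit 0) (.cons (.br (nat_lit 1) (.cons (.rel (nat_lit 37753872)) (.cons (.rel (nat_lit 25296900)) .nil))) .nil))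 .leaf)) (nat_lit 16384170063642674) (.br (nat_lit 0) (.cons (.br (nat_lit 2) (.cons (.rel (nat_lit 71376912)) .nil)) .nil)) (.node (.node (.node .leaf (nat_lit 16384170063642905) (.br (nat_lit 0) (.cons (.br (nat_lit 1) (.cons (.rel (nat_lit 25432128)) .nil)) .nil)) .leaf) (nat_lit 16384170063644150) (.br (nat_lit 1) (.cons (.br (nat_lit 6) (.cons (.rel (nat_lit 34394357760)) .nil)) .nil)) .leaf) (nat_lit 16384170247438486) (.br (nat_lit 4) (.cons (.br (nat_lit 3) (.cons (.rel (nat_lit 1342178310)) (.cons (.rel (nat_lit 1342178310)) (.cons (.rel (nat_lit 1342263312)) (.cons (.rel (nat_lit 1342179360)) .nil))))) (.cons (.br (nat_lit 5) (.cons (.rel (nat_lit 5368725780)) (.cons (.rel (nat_lit 5368729608)) (.cons (.rel (nat_lit 10737418497)) .nil)))) .nil))) (.node .leaf (nat_lit 16384170247439116) (.br (nat_lit 2) (.cons (.br (nat_lit 5) (.cons (.rel (nat_lit 4363130880)) (.cons (.rel (nat_lit 4429189377)) .nil))) (.cons (.br (nat_lit 5) (.cons (.rel (nat_lit 8657044752)) (.cons (.rel (nat_lit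 4363124997)) .nil))) .nil))) .leaf)))) (nat_lit 16384170247439746) (.br (nat_lit 3) (.cons (.br (nat_lit 5) (.cons (.rel (nat_lit 4563403860)) (.cons (.rel (nat_lit 4563404865)) .nil))) .nil)) (.node (.node (.node (.node (.node .leaf (nat_lit 16384170248693910) (.br (nat_lit 2) (.cons (.br (nat_lit 3) (.cons (.rel (nat_lit 335544657)) .nil)) .nil)) .leaf) (nat_lit 16384170248698006) (.br (nat_lit 5) (.cons (.br (nat_lit 2) (.cons (.rel (nat_lit 4362077280)) (.cons (.rel (nat_lit 4363142148)) .nil))) .nil)) .leaf) (nat_lit 16384170248698636) (.br (nat_lit 5) (.cons (.br (nat_lit 0) (.cons (.rel (nat_lit 4299227409)) (.cons (.rel (nat_lit 4299293700)) (.cons (.rel (nat_lit 4299162132)) .nil)))) .nil)) (.node (.node .leaf (nat_lit 16384170248699266) (.br (nat_lit 5) (.cons (.br (nat_lit 2) (.cons (.rel (nat_lit 4363142148)) (.cons (.rel (nat_lit 4362077280)) .nil))) .nil)) .leaf) (nat_lit 16384172339859737) (.br (nat_lit 0) (.cons (.br (nat_lit 1) (.cons (.br (nat_lit 4) (.cons (.rel (nat_lit 1107312642))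 (.cons (.rel (nat_lit 1082204160)) (.cons (.rel (nat_lit 1094747136)) (.cons (.rel (nat_lit 2151678978)) .nil))))) (.cons (.br (nat_lit 3) (.cons (.rel (nat_lit 285220872)) (.cons (.rel (nat_lit 285213216)) (.cons (.br (nat_lit 4) (.cons (.rel (nat_lit 1342179360)) (.cons (.rel (nat_lit 1082204160)) (.cons (.rel (nat_lit 1107298560)) (.cons (.rel (nat_lit 2151678978)) .nil))))) .nil)))) .nil))) .nil)) .leaf)) (nat_lit 16384172339860343) (.br (nat_lit 0) (.cons (.br (nat_lit 1) (.cons (.rel (nat_lit 23069700)) (.cons (.rel (nat_lit 37814280)) .nil))) .nil)) (.node (.node (.node .leaf (nat_lit 16384172339860357) (.br (nat_lit 0) (.cons (.br (nat_lit 3) (.cons (.rel (nat_lit 272629794)) .nil)) .nil)) .leaf) (nat_lit 16384172341100825) (.br (nat_lit 0) (.cons (.br (nat_lit 3) (.cons (.rel (nat_lit 272635392)) .nil)) .nil)) .leaf) (nat_lit 16384172341102070) (.br (nat_lit 0) (.cons (.br (nat_lit 1) (.cons (.rel (nat_lit 25166337)) .nil)) .nil)) (.node .leaf (nat_lit 16384172341149977) (.br (nat_lit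 0) (.cons (.br (nat_lit 4) (.cons (.rel (nat_lit 1078198545)) (.cons (.rel (nat_lit 2151813120)) .nil))) (.cons (.br (nat_lit 1) (.cons (.rel (nat_lit 21038208)) (.cons (.br (nat_lit 3) (.cons (.rel (nat_lit 285220872)) (.cons (.rel (nat_lit 277905408)) (.cons (.rel (nat_lit 272646660)) (.cons (.rel (nat_lit 285220872)) (.cons (.rel (nat_lit 285217044)) .nil)))))) (.cons (.rel (nat_lit 22024512)) .nil)))) .nil))) .leaf))) (nat_lit 16384172341151198) (.br (nat_lit 0) (.cons (.br (nat_lit 4) (.cons (.rel (nat_lit 1080033540)) .nil)) .nil)) (.node (.node (.node (.node .leaf (nat_lit 16384172341151222) (.br (nat_lit 0) (.cons (.br (nat_lit 1) (.cons (.rel (nat_lit 39845952)) .nil)) .nil)) .leaf) (nat_lit 16384172341655833) (.br (nat_lit 1) (.cons (.br (nat_lit 5) (.cons (.rel (nat_lit 4311750672)) (.cons (.rel (nat_lit 4311761940)) .nil))) (.cons (.br (nat_lit 5) (.cons (.rel (nat_lit 4313060352)) (.cons (.rel (nat_lit 4311744789)) .nil))) .nil))) .leaf) (nat_lit 16384172342440063) (.br (nat_lit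 4) (.cons (.br (nat_lit 5) (.cons (.rel (nat_lit 5368709634)) (.cons (.rel (nat_lit 5368729608)) (.cons (.rel (nat_lit 5368774920)) .nil)))) .nil)) (.node .leaf (nat_lit 16384172342440823) (.br (nat_lit 0) (.cons (.br (nat_lit 6) (.cons (.rel (nat_lit 17186161665)) .nil)) .nil)) .leaf)) (nat_lit 16384172342441462) (.br (nat_lit 1) (.cons (.br (nat_lit 0) (.cons (.br (nat_lit 4) (.cons (.rel (nat_lit 1107298560)) (.cons (.rel (nat_lit 1080033540)) .nil))) (.cons (.rel (nat_lit 21038208)) .nil))) .nil)) (.node (.node (.node .leaf (nat_lit 16384189521525516) (.br (nat_lit 0) (.cons (.br (nat_lit 4) (.cons (.br (nat_lit 2) (.cons (.rel (nat_lit 1140887556)) (.cons (.rel (nat_lit 142606341)) .nil))) .nil)) .nil)) .leaf) (nat_lit 16384190075173644) (.br (nat_lit 0) (.cons (.br (nat_lit 1) (.cons (.rel (nat_lit 37814280)) .nil)) .nil)) .leaf) (nat_lit 16385025994506390) (.br (nat_lit 0) (.cons (.br (nat_lit 3) (.cons (.rel (nat_lit 277905408)) (.cons (.rel (nat_lit 272635392)) .nil))) .nil)) (.node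 .leaf (nat_lit 16385025994507797) (.br (nat_lit 0) (.cons (.br (nat_lit 2) (.cons (.rel (nat_lit 71320080)) (.cons (.rel (nat_lit 71305233)) .nil))) .nil)) .leaf))))) (nat_lit 16385025996429462) (.br (nat_lit 0) (.cons (.br (nat_lit 3) (.cons (.rel (nat_lit 277905408)) .nil)) .nil)) (.node (.node (.node (.node (.node (.node .leaf (nat_lit 16385029057575664) (.br (nat_lit 1) (.cons (.br (nat_lit 3) (.cons (.rel (nat_lit 285213216)) .nil)) .nil)) .leaf) (nat_lit 16385292399382809) (.br (nat_lit 0) (.cons (.br (nat_lit 1) (.cons (.rel (nat_lit 25166337)) .nil)) .nil)) .leaf) (nat_lit 16385292399561384) (.br (nat_lit 3) (.cons (.br (nat_lit 5) (.cons (.rel (nat_lit 4831920132)) (.cons (.rel (nat_lit 4563403860)) .nil))) .nil)) (.node (.node .leaf (nat_lit 16385292399919254) (.br (nat_lit 4) (.cons (.br (nat_lit 2) (.cons (.rel (nat_lit 2214592836)) (.cons (.rel (nat_lit 1140859137)) .nil))) .nil)) .leaf) (nat_lit 16385292400674294) (.br (nat_lit 1) (.cons (.br (nat_lit 6) (.cons (.rel (nat_lit 17198776320))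 .nil)) .nil)) .leaf)) (nat_lit 16385292400941736) (.br (nat_lit 0) (.cons (.br (nat_lit 2) (.cons (.rel (nat_lit 138678288)) .nil)) .nil)) (.node (.node (.node .leaf (nat_lit 16385292401178774) (.br (nat_lit 2) (.cons (.br (nat_lit 4) (.cons (.rel (nat_lit 1140851730)) .nil)) .nil)) .leaf) (nat_lit 16385292401180150) (.br (nat_lit 0) (.cons (.br (nat_lit 4) (.cons (.rel (nat_lit 1082131476)) .nil)) .nil)) .leaf) (nat_lit 16385292401964534) (.br (nat_lit 0) (.cons (.br (nat_lit 1) (.cons (.br (nat_lit 2) (.cons (.rel (nat_lit 101711904)) (.cons (.rel (nat_lit 83890464)) .nil))) .nil)) .nil)) (.node .leaf (nat_lit 16385297621291289) (.br (nat_lit 0) (.cons (.br (nat_lit 1) (.cons (.rel (nat_lit 25166337)) (.cons (.rel (nat_lit 25166337)) .nil))) .nil)) .leaf))) (nat_lit 16385297621469864) (.br (nat_lit 0) (.cons (.br (nat_lit 3) (.cons (.br (nat_lit 2) (.cons (.rel (nat_lit 71312640)) (.cons (.br (nat_lit 5) (.cons (.rel (nat_lit 8657059848)) (.cons (.rel (nat_lit 4300211328)) (.cons (.rel (nat_lit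 8594129028)) .nil)))) .nil))) .nil)) .nil)) (.node (.node (.node (.node .leaf (nat_lit 16385297621470484) (.br (nat_lit 3) (.cons (.br (nat_lit 6) (.cons (.rel (nat_lit 34896610560)) (.cons (.rel (nat_lit 17448386568)) .nil))) .nil)) .leaf) (nat_lit 16385297622581529) (.br (nat_lit 0) (.cons (.br (nat_lit 1) (.cons (.rel (nat_lit 22024512)) .nil)) .nil)) .leaf) (nat_lit 16385297623087385) (.br (nat_lit 4) (.cons (.br (nat_lit 5) (.cons (.rel (nat_lit 5368714512)) .nil)) .nil)) (.node (.node .leaf (nat_lit 16385297623087884) (.br (nat_lit 5) (.cons (.br (nat_lit 2) (.cons (.rel (nat_lit 4362076230)) (.cons (.rel (nat_lit 4362077280)) (.cons (.br (nat_lit 6) (.cons (.rel (nat_lit 34494021636)) (.cons (.br (nat_lit 4) (.cons (.rel (nat_lit 2214592836)) (.cons (.rel (nat_lit 35433480480)) (.cons (.rel (nat_lit 1140850725)) .nil)))) .nil))) .nil)))) (.cons (.br (nat_lit 6) (.cons (.rel (nat_lit 21474853905)) (.cons (.rel (nat_lit 21474841632)) .nil))) .nil))) .leaf) (nat_lit 16385297623871615) (.br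 (nat_lit 2) (.cons (.br (nat_lit 4) (.cons (.br (nat_lit 5) (.cons (.rel (nat_lit 10737418497)) .nil)) .nil)) .nil)) .leaf)) (nat_lit 16385297624377599) (.br (nat_lit 3) (.cons (.br (nat_lit 6) (.cons (.rel (nat_lit 17448337428)) .nil)) .nil)) (.node (.node (.node .leaf (nat_lit 16385298175476492) (.br (nat_lit 2) (.cons (.br (nat_lit 4) (.cons (.rel (nat_lit 1140852744)) .nil)) .nil)) .leaf) (nat_lit 16385298175477122) (.br (nat_lit 0) (.cons (.br (nat_lit 2) (.cons (.rel (nat_lit 71434497)) (.cons (.rel (nat_lit 71304228)) .nil))) (.cons (.br (nat_lit 6) (.cons (.rel (nat_lit 17184327684)) (.cons (.rel (nat_lit 17188278276)) (.cons (.rel (nat_lit 17184327684)) .nil)))) .nil))) .leaf) (nat_lit 16385298176736012) (.br (nat_lit 4) (.cons (.br (nat_lit 0) (.cons (.rel (nat_lit 1080098817)) (.cons (.rel (nat_lit 1080098817)) .nil))) .nil)) (.node .leaf (nat_lit 16385298176736642) (.br (nat_lit 4) (.cons (.br (nat_lit 5) (.cons (.rel (nat_lit 5368774920)) .nil)) .nil)) .leaf)))) (nat_lit 16385298177519653)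 (.br (nat_lit 0) (.cons (.br (nat_lit 1) (.cons (.rel (nat_lit 37814280)) .nil)) .nil)) (.node (.node (.node (.node (.node .leaf (nat_lit 16385298178026882) (.br (nat_lit 2) (.cons (.br (nat_lit 5) (.cons (.rel (nat_lit 8657048580)) (.cons (.rel (nat_lit 4363142148)) (.cons (.rel (nat_lit 4363142148)) .nil)))) .nil)) .leaf) (nat_lit 16385884500890352) (.br (nat_lit 0) (.cons (.br (nat_lit 1) (.cons (.rel (nat_lit 22024512)) .nil)) .nil)) .leaf) (nat_lit 16385890326778137) (.br (nat_lit 0) (.cons (.br (nat_lit 3) (.cons (.rel (nat_lit 272629794)) .nil)) .nil)) (.node (.node .leaf (nat_lit 16385890326779166) (.br (nat_lit 2) (.cons (.br (nat_lit 3) (.cons (.rel (nat_lit 336089088)) .nil)) .nil)) .leaf) (nat_lit 16385945136526574) (.br (nat_lit 0) (.cons (.br (nat_lit 2) (.cons (.rel (nat_lit 71376912)) .nil)) .nil)) .leaf)) (nat_lit 16385947675724432) (.br (nat_lit 0) (.cons (.br (nat_lit 2) (.cons (.rel (nat_lit 71303178)) .nil)) .nil)) (.node (.node (.node .leaf (nat_lit 16385947675725062) (.br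 (nat_lit 0) (.cons (.br (nat_lit 1) (.cons (.rel (nat_lit 37748994)) .nil)) .nil)) .leaf) (nat_lit 16385950456222583) (.br (nat_lit 0) (.cons (.br (nat_lit 4) (.cons (.rel (nat_lit 1078198545)) .nil)) .nil)) .leaf) (nat_lit 16385950456320281) (.br (nat_lit 0) (.cons (.br (nat_lit 3) (.cons (.rel (nat_lit 272629794)) (.cons (.rel (nat_lit 277905408)) .nil))) .nil)) (.node .leaf (nat_lit 16385950456320887) (.br (nat_lit 1) (.cons (.br (nat_lit 0) (.cons (.br (nat_lit 2) (.cons (.rel (nat_lit 101711904)) (.cons (.rel (nat_lit 139460688)) .nil))) (.cons (.rel (nat_lit 23069700)) .nil))) .nil)) .leaf))) (nat_lit 16385950456499702) (.br (nat_lit 0) (.cons (.br (nat_lit 2) (.cons (.rel (nat_lit 71320080)) .nil)) .nil)) (.node (.node (.node (.node .leaf (nat_lit 16385950456547609) (.br (nat_lit 3) (.cons (.br (nat_lit 4) (.cons (.rel (nat_lit 1342178310)) .nil)) .nil)) .leaf) (nat_lit 16385950458083609) (.br (nat_lit 2) (.cons (.br (nat_lit 6) (.cons (.rel (nat_lit 17246984448)) .nil)) .nil)) .leaf)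 (nat_lit 16385950458084080) (.br (nat_lit 1) (.cons (.br (nat_lit 2) (.cons (.rel (nat_lit 101711904)) .nil)) .nil)) (.node .leaf (nat_lit 16385950458084215) (.br (nat_lit 0) (.cons (.br (nat_lit 2) (.cons (.rel (nat_lit 71305233)) .nil)) .nil)) .leaf)) (nat_lit 16385950458793496) (.br (nat_lit 1) (.cons (.br (nat_lit 5) (.cons (.rel (nat_lit 4311761940)) .nil)) .nil)) (.node (.node (.node .leaf (nat_lit 16385950459293977) (.br (nat_lit 0) (.cons (.br (nat_lit 3) (.cons (.rel (nat_lit 542115906)) (.cons (.rel (nat_lit 272631813)) .nil))) (.cons (.br (nat_lit 1) (.cons (.rel (nat_lit 25166337)) (.cons (.rel (nat_lit 25200642)) .nil))) .nil))) .leaf) (nat_lit 16385950459294583) (.br (nat_lit 0) (.cons (.br (nat_lit 3) (.cons (.rel (nat_lit 272635392)) .nil)) .nil)) .leaf) (nat_lit 16385950459294996) (.br (nat_lit 0) (.cons (.br (nat_lit 1) (.cons (.rel (nat_lit 37765140)) .nil)) .nil)) (.node .leaf (nat_lit 16385950459365637) (.br (nat_lit 1) (.cons (.br (nat_lit 6) (.cons (.rel (nat_lit 34376536320))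 .nil)) .nil)) .leaf))))))

/-- refutations 122 -/
def e122 : EX := (.node (.node (.node (.node (.node (.node .leaf (nat_lit 16389338259867126) (.br (nat_lit 0) (.cons (.br (nat_lit 1) (.cons (.rel (nat_lit 21038208)) .nil)) .nil)) .leaf) (nat_lit 16389372520134158) (.br (nat_lit 0) (.cons (.br (nat_lit 3) (.cons (.rel (nat_lit 272635392)) .nil)) .nil)) .leaf) (nat_lit 16389377840222489) (.br (nat_lit 0) (.cons (.br (nat_lit 3) (.cons (.rel (nat_lit 272646660)) .nil)) .nil)) (.node .leaf (nat_lit 16389377842804214) (.br (nat_lit 0) (.cons (.br (nat_lit 4) (.cons (.rel (nat_lit 1082147328)) .nil)) .nil)) .leaf)) (nat_lit 16390160079714585) (.br (nat_lit 0) (.cons (.br (nat_lit 1) (.cons (.br (nat_lit 2) (.cons (.rel (nat_lit 167772420)) .nil)) .nil)) .nil)) (.node (.node .leaf (nat_lit 16390160079715084) (.br (nat_lit 0) (.cons (.br (nat_lit 3) (.cons (.rel (nat_lit 272646660)) (.cons (.rel (nat_lit 272711937)) .nil))) .nil)) .leaf) (nat_lit 16391640261584398) (.br (nat_lit 0) (.cons (.br (nat_lit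 1) (.cons (.rel (nat_lit 37748994)) .nil)) .nil)) (.node .leaf (nat_lit 16391640261871118) (.br (nat_lit 0) (.cons (.br (nat_lit 4) (.cons (.rel (nat_lit 1080033540)) .nil)) .nil)) .leaf))) (nat_lit 16391699945598454) (.br (nat_lit 0) (.cons (.br (nat_lit 1) (.cons (.rel (nat_lit 21233700)) .nil)) .nil)) (.node (.node (.node .leaf (nat_lit 16391700375607446) (.br (nat_lit 0) (.cons (.br (nat_lit 1) (.cons (.rel (nat_lit 21234705)) (.cons (.rel (nat_lit 37753872)) .nil))) .nil)) .leaf) (nat_lit 16391700375608853) (.br (nat_lit 0) (.cons (.br (nat_lit 1) (.cons (.rel (nat_lit 37766145)) .nil)) .nil)) (.node .leaf (nat_lit 16391703620075670) (.br (nat_lit 5) (.cons (.br (nat_lit 2) (.cons (.rel (nat_lit 4363130880)) (.cons (.rel (nat_lit 4363142148)) (.cons (.rel (nat_lit 4362077280)) .nil)))) .nil)) .leaf)) (nat_lit 16391703620076300) (.br (nat_lit 4) (.cons (.br (nat_lit 6) (.cons (.rel (nat_lit 19327353360)) .nil)) .nil)) (.node (.node .leaf (nat_lit 16391703620076930) (.br (nat_lit 3) (.cons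 (.br (nat_lit 4) (.cons (.rel (nat_lit 1342210308)) .nil)) .nil)) .leaf) (nat_lit 16391703621335190) (.br (nat_lit 4) (.cons (.br (nat_lit 1) (.cons (.rel (nat_lit 2164281360)) (.cons (.rel (nat_lit 1107298560)) .nil))) .nil)) (.node .leaf (nat_lit 16391703621335820) (.br (nat_lit 5) (.cons (.br (nat_lit 1) (.cons (.rel (nat_lit 4311748617)) (.cons (.rel (nat_lit 4311761940)) (.cons (.rel (nat_lit 4311762945)) .nil)))) (.cons (.br (nat_lit 6) (.cons (.rel (nat_lit 21474852900)) (.cons (.rel (nat_lit 21474841632)) .nil))) .nil))) .leaf)))) (nat_lit 16391703621336450) (.br (nat_lit 4) (.cons (.br (nat_lit 2) (.cons (.rel (nat_lit 1140883728)) (.cons (.rel (nat_lit 2281702404)) .nil))) .nil)) (.node (.node (.node (.node .leaf (nat_lit 16391703622625430) (.br (nat_lit 3) (.cons (.br (nat_lit 5) (.cons (.rel (nat_lit 4831908864)) .nil)) .nil)) .leaf) (nat_lit 16391703622626060) (.br (nat_lit 3) (.cons (.br (nat_lit 4) (.cons (.rel (nat_lit 2684355600)) (.cons (.rel (nat_lit 1342179360)) .nil))) .nil))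 (.node .leaf (nat_lit 16391703622626690) (.br (nat_lit 6) (.cons (.br (nat_lit 3) (.cons (.rel (nat_lit 17448307200)) (.cons (.rel (nat_lit 17448307200)) .nil))) .nil)) .leaf)) (nat_lit 16391705712496921) (.br (nat_lit 0) (.cons (.br (nat_lit 1) (.cons (.rel (nat_lit 37748994)) (.cons (.br (nat_lit 3) (.cons (.rel (nat_lit 272654352)) (.cons (.rel (nat_lit 285294594)) .nil))) .nil))) .nil)) (.node (.node .leaf (nat_lit 16391705712766454) (.br (nat_lit 0) (.cons (.br (nat_lit 2) (.cons (.rel (nat_lit 71451648)) (.cons (.rel (nat_lit 71451648)) (.cons (.rel (nat_lit 71434497)) .nil)))) .nil)) .leaf) (nat_lit 16391705714293017) (.br (nat_lit 1) (.cons (.br (nat_lit 2) (.cons (.rel (nat_lit 83902737)) (.cons (.rel (nat_lit 83894292)) .nil))) .nil)) (.node .leaf (nat_lit 16391705714293516) (.br (nat_lit 6) (.cons (.br (nat_lit 5) (.cons (.rel (nat_lit 21474853905)) (.cons (.rel (nat_lit 21474841632)) .nil))) .nil)) .leaf))) (nat_lit 16391705715078646) (.br (nat_lit 0) (.cons (.br (nat_lit 1) (.cons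 (.br (nat_lit 4) (.cons (.rel (nat_lit 1094729985)) .nil)) .nil)) .nil)) (.node (.node (.node .leaf (nat_lit 16391705715583756) (.br (nat_lit 2) (.cons (.br (nat_lit 4) (.cons (.rel (nat_lit 1140850725)) .nil)) .nil)) .leaf) (nat_lit 16391706267941145) (.br (nat_lit 0) (.cons (.br (nat_lit 5) (.cons (.rel (nat_lit 8598327312)) (.cons (.rel (nat_lit 4299180288)) .nil))) .nil)) (.node .leaf (nat_lit 16391706267941644) (.br (nat_lit 5) (.cons (.br (nat_lit 1) (.cons (.rel (nat_lit 4329701376)) (.cons (.rel (nat_lit 4311762945)) (.cons (.rel (nat_lit 8623505664)) (.cons (.rel (nat_lit 4311762945)) .nil))))) .nil)) .leaf)) (nat_lit 16391706267942390) (.br (nat_lit 0) (.cons (.br (nat_lit 3) (.cons (.rel (nat_lit 272711937)) (.cons (.rel (nat_lit 272630808)) (.cons (.rel (nat_lit 272729088)) (.cons (.rel (nat_lit 272666625)) .nil))))) .nil)) (.node (.node .leaf (nat_lit 16391706268725285) (.br (nat_lit 0) (.cons (.br (nat_lit 1) (.cons (.rel (nat_lit 21038208)) .nil)) .nil)) .leaf) (nat_lit 16391706269189622)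 (.br (nat_lit 0) (.cons (.br (nat_lit 1) (.cons (.rel (nat_lit 22024512)) .nil)) .nil)) (.node .leaf (nat_lit 16391706269231884) (.br (nat_lit 3) (.cons (.br (nat_lit 4) (.cons (.rel (nat_lit 2684355600)) (.cons (.rel (nat_lit 1342179360)) .nil))) .nil)) .leaf)))))

/-- refutations 123 -/
def e123 : EX := (.node (.node (.node (.node .leaf (nat_lit 16395929171058141) (.br (nat_lit 0) (.cons (.br (nat_lit 1) (.cons (.rel (nat_lit 26214528)) .nil)) .nil)) .leaf) (nat_lit 16396356236428790) (.br (nat_lit 1) (.cons (.br (nat_lit 2) (.cons (.rel (nat_lit 83894292)) .nil)) .nil)) .leaf) (nat_lit 16396356780666357) (.br (nat_lit 0) (.cons (.br (nat_lit 1) (.cons (.rel (nat_lit 23069700)) .nil)) .nil)) (.node .leaf (nat_lit 16396356780930435) (.br (nat_lit 4) (.cons (.br (nat_lit 0) (.cons (.rel (nat_lit 1079525376)) (.cons (.rel (nat_lit 1077956736)) .nil))) .nil)) .leaf)) (nat_lit 16396362012486414) (.br (nat_lit 0) (.cons (.br (nat_lit 1) (.cons (.rel (nat_lit 23069700)) (.cons (.rel (nat_lit 23069700))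 .nil))) .nil)) (.node (.node .leaf (nat_lit 16396362013777284) (.br (nat_lit 0) (.cons (.br (nat_lit 1) (.cons (.rel (nat_lit 25166337)) .nil)) .nil)) .leaf) (nat_lit 16398171145773968) (.br (nat_lit 0) (.cons (.br (nat_lit 1) (.cons (.rel (nat_lit 20975745)) .nil)) .nil)) (.node .leaf (nat_lit 16398334447885170) (.br (nat_lit 0) (.cons (.br (nat_lit 1) (.cons (.rel (nat_lit 20975745)) .nil)) .nil)) .leaf)))

/-- refutations 124 -/
def e124 : EX := (.node (.node (.node (.node .leaf (nat_lit 16401759314178198) (.br (nat_lit 0) (.cons (.br (nat_lit 1) (.cons (.rel (nat_lit 37753872)) (.cons (.br (nat_lit 5) (.cons (.rel (nat_lit 4299163137)) (.cons (.rel (nat_lit 8606974224)) .nil))) .nil))) .nil)) .leaf) (nat_lit 16401759314862230) (.br (nat_lit 0) (.cons (.br (nat_lit 1) (.cons (.rel (nat_lit 21242112)) .nil)) .nil)) .leaf) (nat_lit 16401761402939542) (.br (nat_lit 1) (.cons (.br (nat_lit 2) (.cons (.br (nat_lit 5) (.cons (.rel (nat_lit 4429217796)) .nil)) .nil)) .nil)) (.node (.node .leaf (nat_lit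 16401761402941590) (.br (nat_lit 0) (.cons (.br (nat_lit 1) (.cons (.br (nat_lit 2) (.cons (.br (nat_lit 4) (.cons (.rel (nat_lit 1140887556)) (.cons (.rel (nat_lit 1078202373)) .nil))) .nil)) .nil)) .nil)) .leaf) (nat_lit 16401761402942220) (.br (nat_lit 0) (.cons (.br (nat_lit 1) (.cons (.rel (nat_lit 23069700)) .nil)) .nil)) .leaf)) (nat_lit 16401761402943638) (.br (nat_lit 1) (.cons (.br (nat_lit 6) (.cons (.rel (nat_lit 17196647553)) .nil)) .nil)) (.node (.node (.node .leaf (nat_lit 16401761404233230) (.br (nat_lit 0) (.cons (.br (nat_lit 1) (.cons (.rel (nat_lit 25166337)) .nil)) .nil)) .leaf) (nat_lit 16402892631896214) (.br (nat_lit 0) (.cons (.br (nat_lit 1) (.cons (.rel (nat_lit 25183488)) .nil)) .nil)) .leaf) (nat_lit 16402892631896844) (.br (nat_lit 0) (.cons (.br (nat_lit 1) (.cons (.rel (nat_lit 23069700)) .nil)) .nil)) (.node .leaf (nat_lit 16403863843458549) (.br (nat_lit 0) (.cons (.br (nat_lit 5) (.cons (.rel (nat_lit 4300211328)) .nil)) .nil)) .leaf)))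

/-- refutations 126 -/
def e126 : EX := (.node (.node (.node .leaf (nat_lit 16049551257385842) (.br (nat_lit 0) (.cons (.br (nat_lit 2) (.cons (.rel (nat_lit 71320080)) .nil)) .nil)) .leaf) (nat_lit 16049551258675452) (.br (nat_lit 0) (.cons (.br (nat_lit 3) (.cons (.rel (nat_lit 272630808)) .nil)) .nil)) (.node .leaf (nat_lit 16049551259984754) (.br (nat_lit 0) (.cons (.br (nat_lit 3) (.cons (.rel (nat_lit 273940488)) .nil)) .nil)) .leaf)) (nat_lit 16049917683076334) (.br (nat_lit 1) (.cons (.br (nat_lit 5) (.cons (.rel (nat_lit 4311744789)) (.cons (.rel (nat_lit 4311745794)) .nil))) .nil)) (.node (.node .leaf (nat_lit 16051696200929282) (.br (nat_lit 0) (.cons (.br (nat_lit 3) (.cons (.rel (nat_lit 272630808)) .nil)) .nil)) .leaf) (nat_lit 16051698219345283) (.br (nat_lit 0) (.cons (.br (nat_lit 1) (.cons (.rel (nat_lit 25166337)) .nil)) .nil)) (.node .leaf (nat_lit 16056315629639043) (.br (nat_lit 0) (.cons (.br (nat_lit 4) (.cons (.rel (nat_lit 1078215696)) .nil)) .nil)) .leaf)))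

/-- refutations 127 -/
def e127 : EX := (.node (.node (.node .leaf (nat_lit 16451110873352848) (.br (nat_lit 4) (.cons (.br (nat_lit 1) (.cons (.rel (nat_lit 2164330500)) (.cons (.rel (nat_lit 2164330500)) .nil))) .nil)) .leaf) (nat_lit 16451110873442485) (.br (nat_lit 2) (.cons (.br (nat_lit 0) (.cons (.rel (nat_lit 71303178)) (.cons (.rel (nat_lit 71303178)) .nil))) .nil)) .leaf) (nat_lit 16451110875634544) (.br (nat_lit 0) (.cons (.br (nat_lit 2) (.cons (.rel (nat_lit 71312640)) .nil)) .nil)) (.node .leaf (nat_lit 16451110875903334) (.br (nat_lit 2) (.cons (.br (nat_lit 6) (.cons (.rel (nat_lit 17246998530)) .nil)) .nil)) .leaf))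

/-- refutations 128 -/
def e128 : EX := (.node .leaf (nat_lit 16489550829003053) (.br (nat_lit 0) (.cons (.br (nat_lit 2) (.cons (.rel (nat_lit 71434497)) .nil)) .nil)) .leaf)

/-- refutations 129 -/
def e129 : EX := (.node (.node (.node (.node .leaf (nat_lit 21991802348171439) (.br (nat_lit 2) (.cons (.br (nat_lit 0) (.cons (.rel (nat_lit 71304228)) (.cons (.rel (nat_lit 71376912)) .nil))) .nil)) .leaf) (nat_lit 21991802348230831) (.br (nat_lit 0) (.cons (.br (nat_lit 1) (.cons (.rel (nat_lit 21234705)) .nil)) .nil)) (.node .leaf (nat_lit 21992646482600616) (.br (nat_lit 0) (.cons (.br (nat_lit 1) (.cons (.rel (nat_lit 21381120)) .nil)) .nil)) .leaf)) (nat_lit 21992652650776703) (.br (nat_lit 2) (.cons (.br (nat_lit 6) (.cons (.rel (nat_lit 17315659776)) (.cons (.rel (nat_lit 17247010848)) .nil))) .nil)) (.node (.node .leaf (nat_lit 21992652748939439) (.br (nat_lit 1) (.cons (.br (nat_lit 3) (.cons (.rel (nat_lit 285213216)) .nil)) .nil)) .leaf) (nat_lit 21992652748940800) (.br (nat_lit 0)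 (.cons (.br (nat_lit 2) (.cons (.rel (nat_lit 142606341)) .nil)) .nil)) .leaf)) (nat_lit 21992652750024192) (.br (nat_lit 0) (.cons (.br (nat_lit 2) (.cons (.rel (nat_lit 142606341)) .nil)) .nil)) (.node (.node (.node .leaf (nat_lit 21992652751183260) (.br (nat_lit 2) (.cons (.br (nat_lit 4) (.cons (.rel (nat_lit 1208287248)) .nil)) .nil)) .leaf) (nat_lit 21992652751696047) (.br (nat_lit 2) (.cons (.br (nat_lit 6) (.cons (.rel (nat_lit 17314091136)) .nil)) .nil)) .leaf) (nat_lit 21992652751696754) (.br (nat_lit 0) (.cons (.br (nat_lit 2) (.cons (.rel (nat_lit 71303178)) .nil)) .nil)) (.node (.node .leaf (nat_lit 21992652751697158) (.br (nat_lit 0) (.cons (.br (nat_lit 2) (.cons (.rel (nat_lit 76627968)) .nil)) .nil)) .leaf) (nat_lit 22003166831123063) (.br (nat_lit 0) (.cons (.br (nat_lit 4) (.cons (.rel (nat_lit 1082147328)) .nil)) .nil)) .leaf)))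

/-- refutations 130 -/
def e130 : EX := (.node (.node (.node .leaf (nat_lit 22168571342277490) (.br (nat_lit 3) (.cons (.br (nat_lit 1) (.cons (.rel (nat_lit 285220872)) (.cons (.rel (nat_lit 285220872)) .nil))) .nil)) .leaf) (nat_lit 22168571343094397) (.br (nat_lit 0) (.cons (.br (nat_lit 2) (.cons (.rel (nat_lit 142606341)) .nil)) .nil)) .leaf) (nat_lit 22168571344532093) (.br (nat_lit 0) (.cons (.br (nat_lit 2) (.cons (.rel (nat_lit 142606341)) .nil)) .nil)) (.node .leaf (nat_lit 22168571344532737) (.br (nat_lit 1) (.cons (.br (nat_lit 4) (.cons (.rel (nat_lit 1107300369)) (.cons (.rel (nat_lit 2164326672)) .nil))) .nil)) .leaf))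

/-- refutations 131 -/
def e131 : EX := (.node .leaf (nat_lit 22172660173352417) (.br (nat_lit 1) (.cons (.br (nat_lit 2) (.cons (.rel (nat_lit 83894292)) .nil)) .nil)) .leaf)

/-- refutations 133 -/
def e133 : EX := (.node .leaf (nat_lit 22097383641618612) (.br (nat_lit 0) (.cons (.br (nat_lit 1) (.cons (.rel (nat_lit 25168404)) .nil)) .nil)) .leaf)

/-- refutations 134 -/
def e134 : EX := (.node (.node .leaf (nat_lit 22447953199822182) (.br (nat_lit 0) (.cons (.br (nat_lit 3) (.cons (.rel (nat_lit 272635392)) .nil)) .nil)) .leaf) (nat_lit 22447953200327336) (.br (nat_lit 2) (.cons (.br (nat_lit 5) (.cons (.rel (nat_lit 4362207561)) .nil)) .nil)) (.node .leaf (nat_lit 22454596400068070) (.br (nat_lit 0) (.cons (.br (nat_lit 3) (.cons (.rel (nat_lit 272631813)) .nil)) .nil)) .leaf))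

/-- refutations 135 -/
def e135 : EX := (.node (.node (.node .leaf (nat_lit 22458375971287851) (.br (nat_lit 0) (.cons (.br (nat_lit 6) (.cons (.rel (nat_lit 34363998210)) .nil)) .nil)) .leaf) (nat_lit 22458375971288550) (.br (nat_lit 3) (.cons (.br (nat_lit 6) (.cons (.rel (nat_lit 17448309009)) .nil)) .nil)) .leaf) (nat_lit 22458375971556838) (.br (nat_lit 3) (.cons (.br (nat_lit 6) (.cons (.rel (nat_lit 34628178240)) .nil)) .nil)) (.node .leaf (nat_lit 22458375974464998) (.br (nat_lit 3) (.cons (.br (nat_lit 6) (.cons (.rel (nat_lit 17448307200)) .nil)) .nil)) .leaf))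

/-- refutations 136 -/
def e136 : EX := (.node (.node (.node .leaf (nat_lit 22554786781431166) (.br (nat_lit 0) (.cons (.br (nat_lit 3) (.cons (.rel (nat_lit 272635392)) (.cons (.rel (nat_lit 272630808)) .nil))) .nil)) .leaf) (nat_lit 22555439618054305) (.br (nat_lit 0) (.cons (.br (nat_lit 1) (.cons (.rel (nat_lit 25174041)) .nil)) .nil)) (.node .leaf (nat_lit 22555848243977699) (.br (nat_lit 0) (.cons (.br (nat_lit 1) (.cons (.rel (nat_lit 26214528)) .nil)) .nil)) .leaf)) (nat_lit 22558574943875233) (.br (nat_lit 0) (.cons (.br (nat_lit 4) (.cons (.rel (nat_lit 1078198545)) .nil)) .nil)) (.node (.node .leaf (nat_lit 22559854200185109) (.br (nat_lit 0) (.cons (.br (nat_lit 2) (.cons (.rel (nat_lit 142606341)) .nil)) .nil)) .leaf) (nat_lit 22559854276658678) (.br (nat_lit 1) (.cons (.br (nat_lit 2) (.cons (.rel (nat_lit 83895297)) .nil)) .nil)) (.node .leaf (nat_lit 22559854276886006) (.br (nat_lit 2) (.cons (.br (nat_lit 4) (.cons (.rel (nat_lit 1140852744)) (.cons (.rel (nat_lit 1140859137))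 .nil))) .nil)) .leaf)))

/-- refutations 137 -/
def e137 : EX := (.node (.node .leaf (nat_lit 22561014484010366) (.br (nat_lit 0) (.cons (.br (nat_lit 1) (.cons (.rel (nat_lit 37766145)) (.cons (.rel (nat_lit 37748994)) .nil))) (.cons (.br (nat_lit 3) (.cons (.rel (nat_lit 272635392)) (.cons (.rel (nat_lit 272630808)) .nil))) .nil))) .leaf) (nat_lit 22565429143253869) (.br (nat_lit 0) (.cons (.br (nat_lit 4) (.cons (.rel (nat_lit 1082132481)) .nil)) .nil)) (.node .leaf (nat_lit 22566297295073441) (.br (nat_lit 6) (.cons (.br (nat_lit 0) (.cons (.rel (nat_lit 17188278276)) (.cons (.rel (nat_lit 17184407808)) (.cons (.rel (nat_lit 17184129168)) .nil)))) .nil)) .leaf))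

/-- refutations 138 -/
def e138 : EX := (.node (.node (.node (.node (.node .leaf (nat_lit 22623566354154157) (.br (nat_lit 4) (.cons (.br (nat_lit 6) (.cons (.rel (nat_lit 18253874181)) .nil)) .nil)) .leaf) (nat_lit 22624839895639326) (.br (nat_lit 4) (.cons (.br (nat_lit 1) (.cons (.rel (nat_lit 2164326672)) (.cons (.rel (nat_lit 1107362832)) .nil))) .nil)) (.node .leaf (nat_lit 22624842895792165) (.br (nat_lit 0) (.cons (.br (nat_lit 1) (.cons (.rel (nat_lit 37766145)) .nil)) .nil)) .leaf)) (nat_lit 22624843023829919) (.br (nat_lit 0) (.cons (.br (nat_lit 1) (.cons (.rel (nat_lit 22544385)) .nil)) .nil)) (.node (.node .leaf (nat_lit 22624843143786777) (.br (nat_lit 2) (.cons (.br (nat_lit 0) (.cons (.rel (nat_lit 71434497)) (.cons (.rel (nat_lit 71305233)) .nil))) .nil)) .leaf) (nat_lit 22624845720703257) (.br (nat_lit 2) (.cons (.br (nat_lit 4) (.cons (.rel (nat_lit 1140850725)) (.cons (.rel (nat_lit 1140850725)) .nil))) .nil)) (.node .leaf (nat_lit 22624845721852185) (.br (nat_lit 3) (.cons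 (.br (nat_lit 6) (.cons (.rel (nat_lit 17448326160)) .nil)) .nil)) .leaf))) (nat_lit 22624845723283737) (.br (nat_lit 2) (.cons (.br (nat_lit 4) (.cons (.rel (nat_lit 1140851730)) (.cons (.rel (nat_lit 1140921600)) .nil))) .nil)) (.node (.node (.node .leaf (nat_lit 22625745509318165) (.br (nat_lit 0) (.cons (.br (nat_lit 3) (.cons (.rel (nat_lit 272666625)) .nil)) .nil)) .leaf) (nat_lit 22625965662376086) (.br (nat_lit 5) (.cons (.br (nat_lit 4) (.cons (.br (nat_lit 6) (.cons (.rel (nat_lit 19327422465)) (.cons (.rel (nat_lit 21474852900)) (.cons (.rel (nat_lit 36508270593)) .nil)))) (.cons (.rel (nat_lit 5368718340)) (.cons (.rel (nat_lit 6443503620)) .nil)))) .nil)) (.node .leaf (nat_lit 22625965662377493) (.br (nat_lit 0) (.cons (.br (nat_lit 1) (.cons (.rel (nat_lit 20975745)) (.cons (.rel (nat_lit 21242112)) .nil))) (.cons (.br (nat_lit 1) (.cons (.br (nat_lit 3) (.cons (.rel (nat_lit 302022720)) (.cons (.rel (nat_lit 285344784)) (.cons (.rel (nat_lit 272703492)) .nil)))) (.cons (.br (nat_lit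 4) (.cons (.rel (nat_lit 2151813120)) (.cons (.rel (nat_lit 1107298560)) (.cons (.rel (nat_lit 1090782216)) (.cons (.rel (nat_lit 1094721540)) (.cons (.rel (nat_lit 1094721540)) .nil)))))) .nil))) .nil))) .leaf)) (nat_lit 22625965662849174) (.br (nat_lit 0) (.cons (.br (nat_lit 4) (.cons (.rel (nat_lit 2151710976)) .nil)) .nil)) (.node (.node .leaf (nat_lit 22625965662849951) (.br (nat_lit 0) (.cons (.br (nat_lit 1) (.cons (.rel (nat_lit 22544385)) (.cons (.rel (nat_lit 20975745)) .nil))) .nil)) .leaf) (nat_lit 22625965664140821) (.br (nat_lit 1) (.cons (.br (nat_lit 2) (.cons (.rel (nat_lit 83894292)) (.cons (.rel (nat_lit 101711904)) (.cons (.rel (nat_lit 83895297)) (.cons (.br (nat_lit 5) (.cons (.rel (nat_lit 4311811080)) (.cons (.rel (nat_lit 4362616833)) (.cons (.rel (nat_lit 4311745794)) (.cons (.rel (nat_lit 4362616833)) .nil))))) .nil))))) (.cons (.br (nat_lit 4) (.cons (.rel (nat_lit 1107298560)) (.cons (.rel (nat_lit 1107298560)) (.cons (.rel (nat_lit 1107362832)) .nil)))) .nil)))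 (.node .leaf (nat_lit 22625965665104022) (.br (nat_lit 5) (.cons (.br (nat_lit 4) (.cons (.br (nat_lit 6) (.cons (.rel (nat_lit 19327422465)) (.cons (.rel (nat_lit 18253873176)) (.cons (.rel (nat_lit 19327353360)) .nil)))) (.cons (.rel (nat_lit 5368718340)) (.cons (.rel (nat_lit 6443503620)) .nil)))) .nil)) .leaf)))) (nat_lit 22625965665104799) (.br (nat_lit 1) (.cons (.br (nat_lit 0) (.cons (.rel (nat_lit 20975745)) (.cons (.rel (nat_lit 37748994)) .nil))) .nil)) (.node (.node (.node (.node .leaf (nat_lit 22625968179137922) (.br (nat_lit 0) (.cons (.br (nat_lit 1) (.cons (.rel (nat_lit 37814280)) .nil)) .nil)) .leaf) (nat_lit 22625968181686422) (.br (nat_lit 1) (.cons (.br (nat_lit 0) (.cons (.rel (nat_lit 37814280)) (.cons (.br (nat_lit 4) (.cons (.rel (nat_lit 1107298560)) (.cons (.rel (nat_lit 1107298560)) (.cons (.rel (nat_lit 1094721540)) (.cons (.rel (nat_lit 1090519428)) .nil))))) (.cons (.rel (nat_lit 37814280)) .nil)))) (.cons (.br (nat_lit 2) (.cons (.rel (nat_lit 101711904)) (.cons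 (.rel (nat_lit 83890464)) (.cons (.rel (nat_lit 83895297)) (.cons (.rel (nat_lit 84149568)) .nil))))) .nil))) (.node .leaf (nat_lit 22625968182034487) (.br (nat_lit 0) (.cons (.br (nat_lit 4) (.cons (.rel (nat_lit 2151813120)) .nil)) .nil)) .leaf)) (nat_lit 22625968908767382) (.br (nat_lit 0) (.cons (.br (nat_lit 2) (.cons (.rel (nat_lit 71305233)) (.cons (.rel (nat_lit 71312640)) .nil))) .nil)) (.node (.node .leaf (nat_lit 22625968908945558) (.br (nat_lit 0) (.cons (.br (nat_lit 6) (.cons (.rel (nat_lit 17184129168)) .nil)) .nil)) .leaf) (nat_lit 22625968909240470) (.br (nat_lit 0) (.cons (.br (nat_lit 1) (.cons (.br (nat_lit 4) (.cons (.rel (nat_lit 1107298560)) (.cons (.rel (nat_lit 2151677973)) (.cons (.rel (nat_lit 1082132481)) .nil)))) (.cons (.rel (nat_lit 37748994)) .nil))) .nil)) (.node .leaf (nat_lit 22625968909241247) (.br (nat_lit 0) (.cons (.br (nat_lit 1) (.cons (.rel (nat_lit 37753872)) (.cons (.rel (nat_lit 21234705)) .nil))) .nil)) .leaf))) (nat_lit 22625968910205708) (.br (nat_lit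 0) (.cons (.br (nat_lit 6) (.cons (.rel (nat_lit 17186160660)) (.cons (.rel (nat_lit 17184129168)) .nil))) .nil)) (.node (.node (.node .leaf (nat_lit 22625968911495948) (.br (nat_lit 0) (.cons (.br (nat_lit 1) (.cons (.rel (nat_lit 21234705)) (.cons (.rel (nat_lit 37748994)) .nil))) (.cons (.br (nat_lit 1) (.cons (.rel (nat_lit 21234705)) (.cons (.rel (nat_lit 21233700)) .nil))) .nil))) .leaf) (nat_lit 22625968956134163) (.br (nat_lit 0) (.cons (.br (nat_lit 3) (.cons (.rel (nat_lit 272631813)) .nil)) .nil)) (.node .leaf (nat_lit 22625968957640861) (.br (nat_lit 1) (.cons (.br (nat_lit 4) (.cons (.rel (nat_lit 1107300369)) .nil)) .nil)) .leaf)) (nat_lit 22625968957980932) (.br (nat_lit 1) (.cons (.br (nat_lit 0) (.cons (.br (nat_lit 4) (.cons (.rel (nat_lit 1090519428)) (.cons (.rel (nat_lit 1094721540)) .nil))) (.cons (.rel (nat_lit 25166337)) .nil))) .nil)) (.node (.node .leaf (nat_lit 22625970297000592) (.br (nat_lit 1) (.cons (.br (nat_lit 2) (.cons (.rel (nat_lit 83886600)) .nil)) .nil))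 .leaf) (nat_lit 22625971002958105) (.br (nat_lit 2) (.cons (.br (nat_lit 0) (.cons (.rel (nat_lit 143000640)) (.cons (.rel (nat_lit 71320080)) (.cons (.rel (nat_lit 71303178)) .nil)))) (.cons (.br (nat_lit 3) (.cons (.rel (nat_lit 336597252)) (.cons (.rel (nat_lit 603979800)) (.cons (.rel (nat_lit 335610948)) .nil)))) .nil))) (.node .leaf (nat_lit 22625971003283737) (.br (nat_lit 3) (.cons (.br (nat_lit 4) (.cons (.rel (nat_lit 1342178310)) .nil)) .nil)) .leaf)))))

/-- refutations 139 -/
def e139 : EX := (.node (.node (.node (.node (.node (.node .leaf (nat_lit 22628978012699924) (.br (nat_lit 0) (.cons (.br (nat_lit 1) (.cons (.rel (nat_lit 21234705)) .nil)) .nil)) .leaf) (nat_lit 22628978012947117) (.br (nat_lit 0) (.cons (.br (nat_lit 6) (.cons (.rel (nat_lit 34363950084)) .nil)) .nil)) .leaf) (nat_lit 22629395688689814) (.br (nat_lit 0) (.cons (.br (nat_lit 1) (.cons (.rel (nat_lit 25166337)) .nil)) .nil)) (.node .leaf (nat_lit 22629395689162902) (.br (nat_lit 0) (.cons (.br (nat_lit 3)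 (.cons (.rel (nat_lit 272654352)) .nil)) .nil)) .leaf)) (nat_lit 22629395689163679) (.br (nat_lit 0) (.cons (.br (nat_lit 3) (.cons (.rel (nat_lit 545259537)) .nil)) .nil)) (.node (.node (.node .leaf (nat_lit 22629396292669590) (.br (nat_lit 0) (.cons (.br (nat_lit 3) (.cons (.rel (nat_lit 272654352)) .nil)) .nil)) .leaf) (nat_lit 22629396293142678) (.br (nat_lit 3) (.cons (.br (nat_lit 5) (.cons (.rel (nat_lit 4563931140)) .nil)) .nil)) .leaf) (nat_lit 22630045769776634) (.br (nat_lit 0) (.cons (.br (nat_lit 1) (.cons (.rel (nat_lit 25247760)) .nil)) .nil)) (.node .leaf (nat_lit 22630048524192671) (.br (nat_lit 0) (.cons (.br (nat_lit 1) (.cons (.rel (nat_lit 21234705)) .nil)) .nil)) .leaf))) (nat_lit 22630251553466649) (.br (nat_lit 0) (.cons (.br (nat_lit 3) (.cons (.rel (nat_lit 545259537)) .nil)) .nil)) (.node (.node (.node (.node .leaf (nat_lit 22630251553607817) (.br (nat_lit 0) (.cons (.br (nat_lit 3) (.cons (.rel (nat_lit 272711937)) .nil)) .nil)) .leaf) (nat_lit 22630251554432286)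 (.br (nat_lit 0) (.cons (.br (nat_lit 2) (.cons (.br (nat_lit 4) (.cons (.rel (nat_lit 1077956736)) (.cons (.rel (nat_lit 1140883728)) (.cons (.rel (nat_lit 1140876288)) .nil)))) (.cons (.rel (nat_lit 71389185)) (.cons (.rel (nat_lit 71305233)) (.cons (.rel (nat_lit 71369220)) (.cons (.rel (nat_lit 71320080)) .nil)))))) .nil)) .leaf) (nat_lit 22630251554897970) (.br (nat_lit 2) (.cons (.br (nat_lit 5) (.cons (.rel (nat_lit 4429316112)) .nil)) .nil)) (.node .leaf (nat_lit 22630251555722526) (.br (nat_lit 0) (.cons (.br (nat_lit 2) (.cons (.rel (nat_lit 71320080)) .nil)) .nil)) .leaf)) (nat_lit 22630251556188441) (.br (nat_lit 0) (.cons (.br (nat_lit 3) (.cons (.rel (nat_lit 545259537)) .nil)) .nil)) (.node (.node .leaf (nat_lit 22630252039737494) (.br (nat_lit 1) (.cons (.br (nat_lit 4) (.cons (.rel (nat_lit 1090805760)) (.cons (.rel (nat_lit 1091588160)) (.cons (.rel (nat_lit 1091588160)) .nil)))) .nil)) .leaf) (nat_lit 22630252039738901) (.br (nat_lit 1) (.cons (.br (nat_lit 6) (.cons (.rel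 (nat_lit 34394357760)) .nil)) .nil)) (.node .leaf (nat_lit 22630252041502229) (.br (nat_lit 0) (.cons (.br (nat_lit 1) (.cons (.rel (nat_lit 37814280)) (.cons (.br (nat_lit 3) (.cons (.rel (nat_lit 272629794)) (.cons (.rel (nat_lit 272631813)) (.cons (.rel (nat_lit 285220872)) .nil)))) .nil))) (.cons (.br (nat_lit 3) (.cons (.rel (nat_lit 272629794)) (.cons (.rel (nat_lit 545259537)) (.cons (.br (nat_lit 2) (.cons (.rel (nat_lit 336593424)) (.cons (.rel (nat_lit 603984384)) (.cons (.rel (nat_lit 71320080)) (.cons (.rel (nat_lit 71451648)) .nil))))) .nil)))) .nil))) .leaf)))) (nat_lit 22630252041545237) (.br (nat_lit 1) (.cons (.br (nat_lit 2) (.cons (.rel (nat_lit 101711904)) .nil)) .nil)) (.node (.node (.node (.node (.node .leaf (nat_lit 22630252041551381) (.br (nat_lit 1) (.cons (.br (nat_lit 3) (.cons (.rel (nat_lit 285220872)) .nil)) .nil)) .leaf) (nat_lit 22630254138590710) (.br (nat_lit 0) (.cons (.br (nat_lit 2) (.cons (.rel (nat_lit 71303178)) .nil)) .nil)) .leaf) (nat_lit 22630254138653329)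 (.br (nat_lit 3) (.cons (.br (nat_lit 4) (.cons (.rel (nat_lit 1342177305)) .nil)) .nil)) (.node .leaf (nat_lit 22630254556588182) (.br (nat_lit 0) (.cons (.br (nat_lit 3) (.cons (.rel (nat_lit 541327620)) .nil)) .nil)) .leaf)) (nat_lit 22630254799999257) (.br (nat_lit 0) (.cons (.br (nat_lit 3) (.cons (.rel (nat_lit 272629794)) .nil)) .nil)) (.node (.node .leaf (nat_lit 22630254801290742) (.br (nat_lit 0) (.cons (.br (nat_lit 2) (.cons (.rel (nat_lit 142606341)) (.cons (.rel (nat_lit 71304228)) .nil))) .nil)) .leaf) (nat_lit 22630257379354674) (.br (nat_lit 1) (.cons (.br (nat_lit 2) (.cons (.rel (nat_lit 83957760)) .nil)) .nil)) (.node .leaf (nat_lit 22630257379354905) (.br (nat_lit 2) (.cons (.br (nat_lit 6) (.cons (.rel (nat_lit 17246986257)) (.cons (.rel (nat_lit 17246998530)) .nil))) .nil)) .leaf))) (nat_lit 22630257379496217) (.br (nat_lit 1) (.cons (.br (nat_lit 3) (.cons (.rel (nat_lit 285213216)) (.cons (.rel (nat_lit 285491280)) (.cons (.rel (nat_lit 302022720)) .nil)))) (.cons (.br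 (nat_lit 3) (.cons (.rel (nat_lit 302022720)) (.cons (.rel (nat_lit 285217044)) (.cons (.rel (nat_lit 570425616)) .nil)))) .nil))) (.node (.node (.node (.node .leaf (nat_lit 22630257379497462) (.br (nat_lit 1) (.cons (.br (nat_lit 3) (.cons (.rel (nat_lit 285294594)) .nil)) .nil)) .leaf) (nat_lit 22630257379571190) (.br (nat_lit 1) (.cons (.br (nat_lit 4) (.cons (.rel (nat_lit 1090519428)) .nil)) .nil)) .leaf) (nat_lit 22630257380319984) (.br (nat_lit 1) (.cons (.br (nat_lit 3) (.cons (.rel (nat_lit 285213216)) .nil)) .nil)) (.node .leaf (nat_lit 22630257380524313) (.br (nat_lit 2) (.cons (.br (nat_lit 6) (.cons (.rel (nat_lit 34429206528)) .nil)) .nil)) .leaf)) (nat_lit 22630257380786226) (.br (nat_lit 0) (.cons (.br (nat_lit 2) (.cons (.rel (nat_lit 71305233)) .nil)) .nil)) (.node (.node .leaf (nat_lit 22630257380787702) (.br (nat_lit 6) (.cons (.br (nat_lit 0) (.cons (.rel (nat_lit 17184325665)) (.cons (.rel (nat_lit 17186160660)) (.cons (.rel (nat_lit 17186161665)) (.cons (.rel (nat_lit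 17184325665)) (.cons (.rel (nat_lit 17184325665)) .nil)))))) (.cons (.br (nat_lit 2) (.cons (.br (nat_lit 1) (.cons (.rel (nat_lit 101711904)) (.cons (.rel (nat_lit 17196647553)) (.cons (.rel (nat_lit 34376581632)) (.cons (.rel (nat_lit 34376581632)) (.cons (.rel (nat_lit 83886600)) .nil)))))) (.cons (.br (nat_lit 4) (.cons (.rel (nat_lit 1140851730)) (.cons (.rel (nat_lit 35433480480)) (.cons (.rel (nat_lit 1140851730)) .nil)))) (.cons (.rel (nat_lit 17247109128)) .nil)))) .nil))) .leaf) (nat_lit 22630257380849945) (.br (nat_lit 5) (.cons (.br (nat_lit 6) (.cons (.rel (nat_lit 21474837768)) .nil)) .nil)) (.node .leaf (nat_lit 22630257382076697) (.br (nat_lit 1) (.cons (.br (nat_lit 2) (.cons (.rel (nat_lit 101711904)) .nil)) .nil)) .leaf)))))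

/-- refutations 140 -/
def e140 : EX := (.node (.node (.node (.node .leaf (nat_lit 22631348834902803) (.br (nat_lit 1) (.cons (.br (nat_lit 3) (.cons (.rel (nat_lit 285213216)) .nil)) .nil)) .leaf) (nat_lit 22631348836192413) (.br (nat_lit 1) (.cons (.br (nat_lit 6) (.cons (.rel (nat_lit 17196913920)) .nil)) .nil)) (.node .leaf (nat_lit 22634567433767839) (.br (nat_lit 0) (.cons (.br (nat_lit 4) (.cons (.rel (nat_lit 1083441156)) .nil)) .nil)) .leaf)) (nat_lit 22635843564112747) (.br (nat_lit 1) (.cons (.br (nat_lit 2) (.cons (.rel (nat_lit 167772420)) .nil)) .nil)) (.node (.node .leaf (nat_lit 22635843564307212) (.br (nat_lit 0) (.cons (.br (nat_lit 4) (.cons (.rel (nat_lit 1082204160)) .nil)) .nil)) .leaf) (nat_lit 22635843565597547) (.br (nat_lit 1) (.cons (.br (nat_lit 2) (.cons (.rel (nat_lit 84149568)) (.cons (.rel (nat_lit 167772420)) (.cons (.rel (nat_lit 101711904)) .nil)))) .nil)) (.node .leaf (nat_lit 22635843565945612) (.br (nat_lit 0) (.cons (.br (nat_lit 6) (.cons (.rel (nat_lit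 17188267008)) .nil)) .nil)) .leaf))) (nat_lit 22636522694717590) (.br (nat_lit 1) (.cons (.br (nat_lit 5) (.cons (.br (nat_lit 6) (.cons (.rel (nat_lit 17213509632)) (.cons (.rel (nat_lit 21475000320)) (.cons (.rel (nat_lit 34376515590)) .nil)))) .nil)) .nil)) (.node (.node (.node .leaf (nat_lit 22636525205873520) (.br (nat_lit 0) (.cons (.br (nat_lit 1) (.cons (.rel (nat_lit 22544385)) .nil)) .nil)) .leaf) (nat_lit 22636525206837285) (.br (nat_lit 0) (.cons (.br (nat_lit 3) (.cons (.rel (nat_lit 272630808)) .nil)) .nil)) (.node .leaf (nat_lit 22636528034328857) (.br (nat_lit 0) (.cons (.br (nat_lit 6) (.cons (.rel (nat_lit 17184325665)) .nil)) .nil)) .leaf)) (nat_lit 22636662775878559) (.br (nat_lit 0) (.cons (.br (nat_lit 1) (.cons (.rel (nat_lit 37748994)) .nil)) .nil)) (.node (.node .leaf (nat_lit 22636663377512598) (.br (nat_lit 0) (.cons (.br (nat_lit 6) (.cons (.rel (nat_lit 17184325665)) .nil)) .nil)) .leaf) (nat_lit 22636663378773378) (.br (nat_lit 0) (.cons (.br (nat_lit 4) (.cons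 (.rel (nat_lit 1077956736)) (.cons (.rel (nat_lit 1080033540)) .nil))) .nil)) (.node .leaf (nat_lit 22636666004406957) (.br (nat_lit 0) (.cons (.br (nat_lit 6) (.cons (.rel (nat_lit 34363998210)) .nil)) .nil)) .leaf))))

/-- refutations 141 -/
def e141 : EX := (.node (.node (.node (.node (.node .leaf (nat_lit 22888530942382137) (.br (nat_lit 1) (.cons (.br (nat_lit 2) (.cons (.rel (nat_lit 83895297)) .nil)) .nil)) .leaf) (nat_lit 22889847945492732) (.br (nat_lit 0) (.cons (.br (nat_lit 3) (.cons (.rel (nat_lit 543178752)) .nil)) .nil)) .leaf) (nat_lit 22889850646831760) (.br (nat_lit 0) (.cons (.br (nat_lit 1) (.cons (.rel (nat_lit 21242112)) .nil)) .nil)) (.node .leaf (nat_lit 22889854136492688) (.br (nat_lit 0) (.cons (.br (nat_lit 3) (.cons (.rel (nat_lit 272629794)) .nil)) .nil)) .leaf)) (nat_lit 22889854136493592) (.br (nat_lit 0) (.cons (.br (nat_lit 1) (.cons (.rel (nat_lit 21233700)) .nil)) .nil)) (.node (.node .leaf (nat_lit 22889854136541311) (.br (nat_lit 2) (.cons (.br (nat_lit 6)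 (.cons (.rel (nat_lit 17246986257)) .nil)) .nil)) .leaf) (nat_lit 22889854136758897) (.br (nat_lit 4) (.cons (.br (nat_lit 6) (.cons (.rel (nat_lit 18255708162)) .nil)) .nil)) (.node .leaf (nat_lit 22889854137575551) (.br (nat_lit 1) (.cons (.br (nat_lit 0) (.cons (.rel (nat_lit 25166337)) (.cons (.rel (nat_lit 20975745)) .nil))) .nil)) .leaf))) (nat_lit 22889854137576080) (.br (nat_lit 0) (.cons (.br (nat_lit 1) (.cons (.rel (nat_lit 22544385)) .nil)) .nil)) (.node (.node (.node (.node .leaf (nat_lit 22889854139052159) (.br (nat_lit 0) (.cons (.br (nat_lit 1) (.cons (.rel (nat_lit 21234705)) (.cons (.rel (nat_lit 21381120)) .nil))) .nil)) .leaf) (nat_lit 22889854139052193) (.br (nat_lit 0) (.cons (.br (nat_lit 1) (.cons (.rel (nat_lit 20975745)) (.cons (.rel (nat_lit 21234705)) .nil))) .nil)) .leaf) (nat_lit 22889854139091071) (.br (nat_lit 3) (.cons (.br (nat_lit 0) (.cons (.rel (nat_lit 272703492)) (.cons (.rel (nat_lit 545259537)) .nil))) .nil)) (.node .leaf (nat_lit 22889854139109503) (.br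 (nat_lit 1) (.cons (.br (nat_lit 2) (.cons (.rel (nat_lit 167772420)) .nil)) .nil)) .leaf)) (nat_lit 22889854139160737) (.br (nat_lit 0) (.cons (.br (nat_lit 1) (.cons (.rel (nat_lit 21234705)) (.cons (.rel (nat_lit 20975745)) .nil))) .nil)) (.node (.node .leaf (nat_lit 22889854139161876) (.br (nat_lit 0) (.cons (.br (nat_lit 1) (.cons (.rel (nat_lit 37753872)) .nil)) .nil)) .leaf) (nat_lit 22889854139396223) (.br (nat_lit 0) (.cons (.br (nat_lit 6) (.cons (.rel (nat_lit 17184336144)) .nil)) .nil)) (.node .leaf (nat_lit 22889854139397656) (.br (nat_lit 0) (.cons (.br (nat_lit 1) (.cons (.rel (nat_lit 21242112)) .nil)) .nil)) .leaf))))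

/-- refutations 142 -/
def e142 : EX := (.node (.node (.node .leaf (nat_lit 22892857021989014) (.br (nat_lit 1) (.cons (.br (nat_lit 2) (.cons (.rel (nat_lit 83886600)) .nil)) .nil)) .leaf) (nat_lit 22893112042167572) (.br (nat_lit 0) (.cons (.br (nat_lit 2) (.cons (.rel (nat_lit 142606341)) .nil)) .nil)) (.node .leaf (nat_lit 22893276499646614) (.br (nat_lit 0) (.cons (.br (nat_lit 1) (.cons (.rel (nat_lit 20975745)) (.cons (.rel (nat_lit 21038208)) .nil))) (.cons (.br (nat_lit 5) (.cons (.rel (nat_lit 4299163137)) (.cons (.rel (nat_lit 4299163137)) .nil))) .nil))) .leaf)) (nat_lit 22893276501437303) (.br (nat_lit 0) (.cons (.br (nat_lit 3) (.cons (.rel (nat_lit 545259537)) .nil)) .nil)) (.node (.node .leaf (nat_lit 22893281520662030) (.br (nat_lit 4) (.cons (.br (nat_lit 0) (.cons (.rel (nat_lit 2151678978)) (.cons (.rel (nat_lit 2151678978)) .nil))) .nil)) .leaf) (nat_lit 22895383140717955) (.br (nat_lit 0) (.cons (.br (nat_lit 1) (.cons (.rel (nat_lit 43028484)) .nil)) .nil)) .leaf))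

/-- refutations 143 -/
def e143 : EX := (.node (.node (.node (.node .leaf (nat_lit 22898704250373377) (.br (nat_lit 0) (.cons (.br (nat_lit 1) (.cons (.rel (nat_lit 25166337)) .nil)) .nil)) .leaf) (nat_lit 22899305463952622) (.br (nat_lit 0) (.cons (.br (nat_lit 1) (.cons (.rel (nat_lit 21038208)) .nil)) .nil)) .leaf) (nat_lit 22899308712942469) (.br (nat_lit 0) (.cons (.br (nat_lit 2) (.cons (.rel (nat_lit 71323908)) .nil)) .nil)) (.node .leaf (nat_lit 22899514669832342) (.br (nat_lit 1) (.cons (.br (nat_lit 3) (.cons (.rel (nat_lit 285220872)) .nil)) .nil)) .leaf)) (nat_lit 22899517470522904) (.br (nat_lit 0) (.cons (.br (nat_lit 1) (.cons (.rel (nat_lit 23069700)) .nil)) .nil)) (.node (.node (.node .leaf (nat_lit 22899676003633279) (.br (nat_lit 0) (.cons (.br (nat_lit 3) (.cons (.rel (nat_lit 272666625)) .nil)) .nil)) .leaf) (nat_lit 22899680678102517) (.br (nat_lit 0) (.cons (.br (nat_lit 1) (.cons (.rel (nat_lit 21038208)) .nil)) .nil)) .leaf) (nat_lit 22899680679121826) (.br (nat_lit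 3) (.cons (.br (nat_lit 4) (.cons (.rel (nat_lit 2684355600)) .nil)) .nil)) (.node .leaf (nat_lit 22900803390707075) (.br (nat_lit 0) (.cons (.br (nat_lit 1) (.cons (.br (nat_lit 4) (.cons (.rel (nat_lit 1090519428)) .nil)) .nil)) .nil)) .leaf)))

/-- refutations 144 -/
def e144 : EX := (.node (.node (.node (.node (.node (.node .leaf (nat_lit 22906315476893174) (.br (nat_lit 1) (.cons (.br (nat_lit 2) (.cons (.rel (nat_lit 100745280)) .nil)) .nil)) .leaf) (nat_lit 22911992885258521) (.br (nat_lit 1) (.cons (.br (nat_lit 2) (.cons (.rel (nat_lit 101711904)) .nil)) .nil)) .leaf) (nat_lit 22911992886548761) (.br (nat_lit 0) (.cons (.br (nat_lit 3) (.cons (.rel (nat_lit 272666625)) (.cons (.rel (nat_lit 272629794)) (.cons (.rel (nat_lit 273023040)) (.cons (.rel (nat_lit 272654352)) .nil))))) .nil)) (.node .leaf (nat_lit 22911992887570469) (.br (nat_lit 1) (.cons (.br (nat_lit 5) (.cons (.rel (nat_lit 4311745794)) .nil)) .nil)) .leaf)) (nat_lit 22911995520571542) (.br (nat_lit 0) (.cons (.br (nat_lit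 5) (.cons (.rel (nat_lit 8598327312)) .nil)) .nil)) (.node (.node (.node .leaf (nat_lit 22911995817283046) (.br (nat_lit 2) (.cons (.br (nat_lit 5) (.cons (.rel (nat_lit 4429206528)) .nil)) .nil)) .leaf) (nat_lit 22911995818572656) (.br (nat_lit 0) (.cons (.br (nat_lit 3) (.cons (.rel (nat_lit 272629794)) .nil)) .nil)) .leaf) (nat_lit 22911995818573286) (.br (nat_lit 0) (.cons (.br (nat_lit 1) (.cons (.rel (nat_lit 37748994)) (.cons (.rel (nat_lit 21038208)) .nil))) (.cons (.br (nat_lit 1) (.cons (.rel (nat_lit 21234705)) (.cons (.rel (nat_lit 21038208)) .nil))) .nil))) (.node .leaf (nat_lit 22911995819832176) (.br (nat_lit 5) (.cons (.br (nat_lit 0) (.cons (.rel (nat_lit 4299182097)) (.cons (.rel (nat_lit 4299169824)) .nil))) .nil)) .leaf))) (nat_lit 22911995946741910) (.br (nat_lit 0) (.cons (.br (nat_lit 5) (.cons (.rel (nat_lit 4299165960)) .nil)) .nil)) (.node (.node (.node (.node .leaf (nat_lit 22911995948064918) (.br (nat_lit 1) (.cons (.br (nat_lit 0) (.cons (.rel (nat_lit 37814280))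 (.cons (.rel (nat_lit 21242112)) .nil))) .nil)) .leaf) (nat_lit 22911996068430476) (.br (nat_lit 0) (.cons (.br (nat_lit 1) (.cons (.rel (nat_lit 20975745)) .nil)) .nil)) .leaf) (nat_lit 22911996068735257) (.br (nat_lit 0) (.cons (.br (nat_lit 3) (.cons (.rel (nat_lit 545259537)) .nil)) .nil)) (.node .leaf (nat_lit 22911996068735756) (.br (nat_lit 0) (.cons (.br (nat_lit 1) (.cons (.br (nat_lit 2) (.cons (.rel (nat_lit 72614913)) (.cons (.rel (nat_lit 101711904)) .nil))) (.cons (.rel (nat_lit 20975745)) .nil))) (.cons (.br (nat_lit 1) (.cons (.rel (nat_lit 21233700)) (.cons (.rel (nat_lit 21381120)) .nil))) .nil))) .leaf)) (nat_lit 22911996068735851) (.br (nat_lit 0) (.cons (.br (nat_lit 1) (.cons (.br (nat_lit 2) (.cons (.rel (nat_lit 101711904)) (.cons (.rel (nat_lit 101188608)) .nil))) .nil)) .nil)) (.node (.node .leaf (nat_lit 22911996069003301) (.br (nat_lit 0) (.cons (.br (nat_lit 6) (.cons (.rel (nat_lit 17184407808)) .nil)) .nil)) .leaf) (nat_lit 22911996069004139) (.br (nat_lit 0) (.cons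 (.br (nat_lit 1) (.cons (.rel (nat_lit 25183488)) .nil)) .nil)) (.node .leaf (nat_lit 22911996069720101) (.br (nat_lit 1) (.cons (.br (nat_lit 3) (.cons (.rel (nat_lit 285491280)) .nil)) .nil)) .leaf)))) (nat_lit 22911996070025497) (.br (nat_lit 0) (.cons (.br (nat_lit 1) (.cons (.rel (nat_lit 21234705)) .nil)) .nil)) (.node (.node (.node (.node (.node .leaf (nat_lit 22911996070025866) (.br (nat_lit 0) (.cons (.br (nat_lit 1) (.cons (.rel (nat_lit 26214528)) .nil)) .nil)) .leaf) (nat_lit 22911996070025996) (.br (nat_lit 2) (.cons (.br (nat_lit 1) (.cons (.rel (nat_lit 83890464)) (.cons (.rel (nat_lit 84017154)) .nil))) .nil)) .leaf) (nat_lit 22911996070220057) (.br (nat_lit 2) (.cons (.br (nat_lit 3) (.cons (.rel (nat_lit 336134400)) .nil)) .nil)) (.node .leaf (nat_lit 22911996070262821) (.br (nat_lit 0) (.cons (.br (nat_lit 1) (.cons (.rel (nat_lit 22544385)) (.cons (.rel (nat_lit 21233700)) (.cons (.rel (nat_lit 21234705)) .nil)))) .nil)) .leaf)) (nat_lit 22911996070937451) (.br (nat_lit 0)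 (.cons (.br (nat_lit 3) (.cons (.rel (nat_lit 272631813)) .nil)) .nil)) (.node (.node (.node .leaf (nat_lit 22911998643679513) (.br (nat_lit 2) (.cons (.br (nat_lit 5) (.cons (.rel (nat_lit 4362077280)) .nil)) .nil)) .leaf) (nat_lit 22911998644037913) (.br (nat_lit 0) (.cons (.br (nat_lit 3) (.cons (.rel (nat_lit 541392897)) (.cons (.rel (nat_lit 545259537)) .nil))) (.cons (.br (nat_lit 3) (.cons (.rel (nat_lit 272630808)) (.cons (.rel (nat_lit 272729088)) .nil))) .nil))) .leaf) (nat_lit 22911998644305970) (.br (nat_lit 1) (.cons (.br (nat_lit 2) (.cons (.rel (nat_lit 101711904)) .nil)) .nil)) (.node .leaf (nat_lit 22911998644306795) (.br (nat_lit 0) (.cons (.br (nat_lit 1) (.cons (.rel (nat_lit 21381120)) .nil)) .nil)) .leaf))) (nat_lit 22911998645328153) (.br (nat_lit 2) (.cons (.br (nat_lit 6) (.cons (.br (nat_lit 1) (.cons (.rel (nat_lit 17198776320)) (.cons (.rel (nat_lit 34376516640)) .nil))) .nil)) .nil)) (.node (.node (.node (.node .leaf (nat_lit 22911998645470694) (.br (nat_lit 0) (.cons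 (.br (nat_lit 3) (.cons (.rel (nat_lit 272654352)) .nil)) .nil)) .leaf) (nat_lit 22911998645566352) (.br (nat_lit 0) (.cons (.br (nat_lit 1) (.cons (.rel (nat_lit 21038208)) .nil)) .nil)) .leaf) (nat_lit 22911998645566966) (.br (nat_lit 0) (.cons (.br (nat_lit 1) (.cons (.rel (nat_lit 25183488)) (.cons (.rel (nat_lit 21234705)) (.cons (.rel (nat_lit 41963616)) .nil)))) (.cons (.br (nat_lit 1) (.cons (.rel (nat_lit 21381120)) (.cons (.rel (nat_lit 25166337)) (.cons (.rel (nat_lit 22544385)) .nil)))) .nil))) (.node .leaf (nat_lit 22911998646555304) (.br (nat_lit 1) (.cons (.br (nat_lit 3) (.cons (.rel (nat_lit 570425616)) .nil)) .nil)) .leaf)) (nat_lit 22911998646813972) (.br (nat_lit 1) (.cons (.br (nat_lit 2) (.cons (.rel (nat_lit 168035400)) .nil)) .nil)) (.node (.node .leaf (nat_lit 22911998646856360) (.br (nat_lit 2) (.cons (.br (nat_lit 6) (.cons (.rel (nat_lit 17247109128)) .nil)) .nil)) .leaf) (nat_lit 22911999199213870) (.br (nat_lit 1) (.cons (.br (nat_lit 2) (.cons (.rel (nat_lit 83894292))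 .nil)) .nil)) (.node .leaf (nat_lit 22911999199214348) (.br (nat_lit 5) (.cons (.br (nat_lit 1) (.cons (.rel (nat_lit 4311750672)) (.cons (.rel (nat_lit 4311834624)) .nil))) .nil)) .leaf)))))

/-- refutations 145 -/
def e145 : EX := (.node (.node (.node (.node .leaf (nat_lit 22912645552671982) (.br (nat_lit 0) (.cons (.br (nat_lit 3) (.cons (.rel (nat_lit 272629794)) .nil)) .nil)) .leaf) (nat_lit 22915775391052026) (.br (nat_lit 0) (.cons (.br (nat_lit 3) (.cons (.rel (nat_lit 272629794)) .nil)) .nil)) .leaf) (nat_lit 22918140262454674) (.br (nat_lit 0) (.cons (.br (nat_lit 1) (.cons (.rel (nat_lit 21381120)) .nil)) .nil)) (.node .leaf (nat_lit 22918404157275638) (.br (nat_lit 0) (.cons (.br (nat_lit 3) (.cons (.rel (nat_lit 272729088)) (.cons (.rel (nat_lit 272699664)) .nil))) .nil)) .leaf)) (nat_lit 22918406735243545) (.br (nat_lit 2) (.cons (.br (nat_lit 6) (.cons (.rel (nat_lit 17248026756)) .nil)) .nil)) (.node (.node (.node .leaf (nat_lit 22918406735244044) (.br (nat_lit 1) (.cons (.br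 (nat_lit 0) (.cons (.rel (nat_lit 37765140)) (.cons (.rel (nat_lit 21233700)) .nil))) .nil)) .leaf) (nat_lit 22918406736534284) (.br (nat_lit 1) (.cons (.br (nat_lit 6) (.cons (.rel (nat_lit 17213425680)) .nil)) .nil)) .leaf) (nat_lit 22918406736772598) (.br (nat_lit 0) (.cons (.br (nat_lit 3) (.cons (.rel (nat_lit 277905408)) .nil)) .nil)) (.node .leaf (nat_lit 22918407291203621) (.br (nat_lit 1) (.cons (.br (nat_lit 2) (.cons (.rel (nat_lit 83957760)) .nil)) .nil)) .leaf)))

/-- refutations 146 -/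
def e146 : EX := (.node (.node (.node .leaf (nat_lit 24189568750924528) (.br (nat_lit 0) (.cons (.br (nat_lit 3) (.cons (.rel (nat_lit 277905408)) .nil)) .nil)) .leaf) (nat_lit 24189570969710902) (.br (nat_lit 0) (.cons (.br (nat_lit 1) (.cons (.rel (nat_lit 25247760)) .nil)) .nil)) .leaf) (nat_lit 24194925839052950) (.br (nat_lit 0) (.cons (.br (nat_lit 3) (.cons (.rel (nat_lit 272629794)) .nil)) .nil)) (.node .leaf (nat_lit 24194925839054361) (.br (nat_lit 0) (.cons (.br (nat_lit 2) (.cons (.rel (nat_lit 71304228)) .nil)) .nil)) .leaf))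

/-- refutations 147 -/
def e147 : EX := (.node (.node (.node (.node (.node (.node (.node (.node .leaf (nat_lit 24196875133408494) (.br (nat_lit 0) (.cons (.br (nat_lit 1) (.cons (.rel (nat_lit 21234705)) .nil)) .nil)) .leaf) (nat_lit 24196875133448342) (.br (nat_lit 0) (.cons (.br (nat_lit 3) (.cons (.rel (nat_lit 272630808)) .nil)) .nil)) .leaf) (nat_lit 24196875133448972) (.br (nat_lit 1) (.cons (.br (nat_lit 6) (.cons (.rel (nat_lit 34394357760)) .nil)) .nil)) (.node .leaf (nat_lit 24196875133757741) (.br (nat_lit 0) (.cons (.br (nat_lit 3) (.cons (.rel (nat_lit 277905408)) .nil)) .nil)) .leaf)) (nat_lit 24196875133913090) (.br (nat_lit 0) (.cons (.br (nat_lit 1) (.cons (.rel (nat_lit 21242112)) (.cons (.rel (nat_lit 37748994)) .nil))) .nil)) (.node (.node .leaf (nat_lit 24196875133913389) (.br (nat_lit 6) (.cons (.br (nat_lit 0) (.cons (.rel (nat_lit 17186161665)) (.cons (.rel (nat_lit 17184327684)) .nil))) .nil)) .leaf) (nat_lit 24196875133914350) (.br (nat_lit 0) (.cons (.br (nat_lit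 1) (.cons (.rel (nat_lit 25166337)) (.cons (.rel (nat_lit 21233700)) .nil))) (.cons (.br (nat_lit 1) (.cons (.rel (nat_lit 25166337)) (.cons (.rel (nat_lit 21242112)) .nil))) .nil))) (.node .leaf (nat_lit 24196875134012678) (.br (nat_lit 0) (.cons (.br (nat_lit 1) (.cons (.rel (nat_lit 21242112)) .nil)) .nil)) .leaf))) (nat_lit 24196875135204638) (.br (nat_lit 0) (.cons (.br (nat_lit 1) (.cons (.rel (nat_lit 25166337)) .nil)) .nil)) (.node (.node (.node (.node .leaf (nat_lit 24196875135253160) (.br (nat_lit 0) (.cons (.br (nat_lit 1) (.cons (.rel (nat_lit 21038208)) .nil)) .nil)) .leaf) (nat_lit 24196875135253742) (.br (nat_lit 0) (.cons (.br (nat_lit 3) (.cons (.rel (nat_lit 272630808)) (.cons (.rel (nat_lit 272629794)) .nil))) .nil)) .leaf) (nat_lit 24196875135253766) (.br (nat_lit 0) (.cons (.br (nat_lit 4) (.cons (.rel (nat_lit 1080033540)) (.cons (.rel (nat_lit 2151710976)) (.cons (.rel (nat_lit 2151710976)) (.cons (.rel (nat_lit 1082204160)) .nil))))) .nil)) (.node .leaf (nat_lit 24196875135301634)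 (.br (nat_lit 0) (.cons (.br (nat_lit 1) (.cons (.rel (nat_lit 20975745)) (.cons (.rel (nat_lit 41948484)) .nil))) .nil)) .leaf)) (nat_lit 24196875135302918) (.br (nat_lit 0) (.cons (.br (nat_lit 1) (.cons (.rel (nat_lit 21242112)) .nil)) .nil)) (.node (.node .leaf (nat_lit 24196875136226542) (.br (nat_lit 0) (.cons (.br (nat_lit 3) (.cons (.rel (nat_lit 272729088)) .nil)) .nil)) .leaf) (nat_lit 24196875136462850) (.br (nat_lit 0) (.cons (.br (nat_lit 1) (.cons (.rel (nat_lit 25166337)) .nil)) .nil)) (.node .leaf (nat_lit 24196875136464110) (.br (nat_lit 0) (.cons (.br (nat_lit 4) (.cons (.rel (nat_lit 1078200612)) (.cons (.rel (nat_lit 2151677973)) (.cons (.rel (nat_lit 1080033540)) .nil)))) (.cons (.br (nat_lit 1) (.cons (.rel (nat_lit 21233700)) (.cons (.rel (nat_lit 21234705)) .nil))) .nil))) .leaf)))) (nat_lit 24196875136561178) (.br (nat_lit 0) (.cons (.br (nat_lit 1) (.cons (.rel (nat_lit 20975745)) .nil)) .nil)) (.node (.node (.node (.node (.node .leaf (nat_lit 24196875136561784) (.br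 (nat_lit 0) (.cons (.br (nat_lit 1) (.cons (.rel (nat_lit 20975745)) .nil)) .nil)) .leaf) (nat_lit 24196875136562414) (.br (nat_lit 4) (.cons (.br (nat_lit 1) (.cons (.rel (nat_lit 1090519428)) (.cons (.rel (nat_lit 1090781202)) .nil))) .nil)) .leaf) (nat_lit 24196875136562462) (.br (nat_lit 0) (.cons (.br (nat_lit 1) (.cons (.rel (nat_lit 21242112)) .nil)) .nil)) (.node .leaf (nat_lit 24196875335073030) (.br (nat_lit 1) (.cons (.br (nat_lit 2) (.cons (.rel (nat_lit 84017154)) .nil)) .nil)) .leaf)) (nat_lit 24196875335240336) (.br (nat_lit 1) (.cons (.br (nat_lit 2) (.cons (.rel (nat_lit 84213840)) .nil)) .nil)) (.node (.node .leaf (nat_lit 24196875335240360) (.br (nat_lit 0) (.cons (.br (nat_lit 1) (.cons (.rel (nat_lit 22544385)) .nil)) .nil)) .leaf) (nat_lit 24196875335240942) (.br (nat_lit 0) (.cons (.br (nat_lit 4) (.cons (.rel (nat_lit 1078198545)) (.cons (.rel (nat_lit 1078215696)) .nil))) .nil)) (.node .leaf (nat_lit 24196875335240966) (.br (nat_lit 0) (.cons (.br (nat_lit 2) (.cons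 (.rel (nat_lit 142606341)) (.cons (.rel (nat_lit 71320080)) .nil))) .nil)) .leaf))) (nat_lit 24196875335338034) (.br (nat_lit 0) (.cons (.br (nat_lit 1) (.cons (.rel (nat_lit 21038208)) .nil)) .nil)) (.node (.node (.node .leaf (nat_lit 24196875335338640) (.br (nat_lit 1) (.cons (.br (nat_lit 0) (.cons (.rel (nat_lit 21234705)) (.cons (.rel (nat_lit 21234705)) .nil))) .nil)) .leaf) (nat_lit 24196875335338664) (.br (nat_lit 0) (.cons (.br (nat_lit 1) (.cons (.rel (nat_lit 25168404)) .nil)) .nil)) (.node .leaf (nat_lit 24196875336629510) (.br (nat_lit 0) (.cons (.br (nat_lit 1) (.cons (.rel (nat_lit 41944656)) (.cons (.rel (nat_lit 21233700)) .nil))) .nil)) .leaf)) (nat_lit 24196875337789442) (.br (nat_lit 0) (.cons (.br (nat_lit 1) (.cons (.rel (nat_lit 25183488)) .nil)) .nil)) (.node (.node .leaf (nat_lit 24196875337790096) (.br (nat_lit 0) (.cons (.br (nat_lit 1) (.cons (.rel (nat_lit 20975745)) .nil)) .nil)) .leaf) (nat_lit 24196875337790120) (.br (nat_lit 0) (.cons (.br (nat_lit 1) (.cons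 (.rel (nat_lit 25166337)) .nil)) .nil)) (.node .leaf (nat_lit 24196875337790726) (.br (nat_lit 0) (.cons (.br (nat_lit 3) (.cons (.rel (nat_lit 272630808)) .nil)) .nil)) .leaf))))) (nat_lit 24196875337839272) (.br (nat_lit 0) (.cons (.br (nat_lit 1) (.cons (.rel (nat_lit 21242112)) .nil)) .nil)) (.node (.node (.node (.node (.node (.node .leaf (nat_lit 24196875337839878) (.br (nat_lit 1) (.cons (.br (nat_lit 2) (.cons (.rel (nat_lit 83890464)) .nil)) .nil)) .leaf) (nat_lit 24196875617015958) (.br (nat_lit 0) (.cons (.br (nat_lit 4) (.cons (.rel (nat_lit 1078002048)) .nil)) .nil)) .leaf) (nat_lit 24196875617017315) (.br (nat_lit 4) (.cons (.br (nat_lit 6) (.cons (.rel (nat_lit 18255708162)) .nil)) .nil)) (.node .leaf (nat_lit 24196875617598726) (.br (nat_lit 0) (.cons (.br (nat_lit 3) (.cons (.rel (nat_lit 276825408)) .nil)) .nil)) .leaf)) (nat_lit 24196875618303459) (.br (nat_lit 0) (.cons (.br (nat_lit 4) (.cons (.rel (nat_lit 1080033540)) .nil)) .nil)) (.node (.node .leaf (nat_lit 24196875618571502)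 (.br (nat_lit 0) (.cons (.br (nat_lit 1) (.cons (.rel (nat_lit 23069700)) .nil)) .nil)) .leaf) (nat_lit 24196879006645534) (.br (nat_lit 0) (.cons (.br (nat_lit 1) (.cons (.rel (nat_lit 25183488)) .nil)) .nil)) (.node .leaf (nat_lit 24196880355821570) (.br (nat_lit 0) (.cons (.br (nat_lit 1) (.cons (.rel (nat_lit 21242112)) (.cons (.rel (nat_lit 37748994)) (.cons (.rel (nat_lit 20975745)) .nil)))) (.cons (.br (nat_lit 1) (.cons (.rel (nat_lit 25166337)) (.cons (.rel (nat_lit 25166337)) (.cons (.rel (nat_lit 21233700)) .nil)))) .nil))) .leaf))) (nat_lit 24196880355822200) (.br (nat_lit 0) (.cons (.br (nat_lit 1) (.cons (.rel (nat_lit 22544385)) .nil)) .nil)) (.node (.node (.node .leaf (nat_lit 24196880355822830) (.br (nat_lit 1) (.cons (.br (nat_lit 0) (.cons (.rel (nat_lit 21234705)) (.cons (.rel (nat_lit 21242112)) .nil))) .nil)) .leaf) (nat_lit 24196880355919874) (.br (nat_lit 0) (.cons (.br (nat_lit 1) (.cons (.rel (nat_lit 25166337)) .nil)) .nil)) (.node .leaf (nat_lit 24196880355920552)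 (.br (nat_lit 0) (.cons (.br (nat_lit 1) (.cons (.rel (nat_lit 37753872)) .nil)) .nil)) .leaf)) (nat_lit 24196880355921158) (.br (nat_lit 1) (.cons (.br (nat_lit 3) (.cons (.rel (nat_lit 285213216)) .nil)) .nil)) (.node (.node .leaf (nat_lit 24196880356575234) (.br (nat_lit 0) (.cons (.br (nat_lit 4) (.cons (.rel (nat_lit 1077956736)) .nil)) .nil)) .leaf) (nat_lit 24196880357111810) (.br (nat_lit 0) (.cons (.br (nat_lit 1) (.cons (.rel (nat_lit 20975745)) (.cons (.rel (nat_lit 21242112)) (.cons (.rel (nat_lit 25296900)) .nil)))) .nil)) (.node .leaf (nat_lit 24196880357111834) (.br (nat_lit 0) (.cons (.br (nat_lit 1) (.cons (.rel (nat_lit 25296900)) .nil)) .nil)) .leaf)))) (nat_lit 24196880357112440) (.br (nat_lit 1) (.cons (.br (nat_lit 4) (.cons (.rel (nat_lit 1107300369)) .nil)) .nil)) (.node (.node (.node (.node (.node .leaf (nat_lit 24196880357113094) (.br (nat_lit 0) (.cons (.br (nat_lit 1) (.cons (.rel (nat_lit 37748994)) (.cons (.rel (nat_lit 25166337)) .nil))) .nil)) .leaf) (nat_lit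 24196880357113118) (.br (nat_lit 1) (.cons (.br (nat_lit 0) (.cons (.rel (nat_lit 21038208)) (.cons (.rel (nat_lit 37766145)) .nil))) .nil)) .leaf) (nat_lit 24196880357160962) (.br (nat_lit 0) (.cons (.br (nat_lit 1) (.cons (.rel (nat_lit 21242112)) (.cons (.rel (nat_lit 21038208)) .nil))) (.cons (.br (nat_lit 1) (.cons (.rel (nat_lit 25166337)) (.cons (.rel (nat_lit 20975745)) .nil))) .nil))) (.node .leaf (nat_lit 24196880357161640) (.br (nat_lit 0) (.cons (.br (nat_lit 1) (.cons (.rel (nat_lit 25166337)) .nil)) .nil)) .leaf)) (nat_lit 24196880357162222) (.br (nat_lit 0) (.cons (.br (nat_lit 1) (.cons (.rel (nat_lit 37748994)) (.cons (.rel (nat_lit 25166337)) .nil))) .nil)) (.node (.node .leaf (nat_lit 24196880357162510) (.br (nat_lit 0) (.cons (.br (nat_lit 1) (.cons (.rel (nat_lit 23069700)) .nil)) .nil)) .leaf) (nat_lit 24196880357211374) (.br (nat_lit 0) (.cons (.br (nat_lit 1) (.cons (.rel (nat_lit 21038208)) (.cons (.rel (nat_lit 25183488)) .nil))) .nil)) (.node .leaf (nat_lit 24196880357211398)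 (.br (nat_lit 0) (.cons (.br (nat_lit 1) (.cons (.rel (nat_lit 21242112)) .nil)) .nil)) .leaf))) (nat_lit 24196880357211422) (.br (nat_lit 0) (.cons (.br (nat_lit 1) (.cons (.rel (nat_lit 25166337)) .nil)) .nil)) (.node (.node (.node .leaf (nat_lit 24196880358174722) (.br (nat_lit 1) (.cons (.br (nat_lit 2) (.cons (.rel (nat_lit 100745280)) .nil)) .nil)) .leaf) (nat_lit 24196880358371330) (.br (nat_lit 0) (.cons (.br (nat_lit 1) (.cons (.rel (nat_lit 25166337)) (.cons (.rel (nat_lit 25166337)) (.cons (.rel (nat_lit 20977812)) (.cons (.rel (nat_lit 20975745)) .nil))))) .nil)) (.node .leaf (nat_lit 24196880358372614) (.br (nat_lit 0) (.cons (.br (nat_lit 2) (.cons (.rel (nat_lit 71303178)) .nil)) .nil)) .leaf)) (nat_lit 24196880358420482) (.br (nat_lit 0) (.cons (.br (nat_lit 1) (.cons (.rel (nat_lit 25166337)) .nil)) .nil)) (.node (.node .leaf (nat_lit 24196880358470312) (.br (nat_lit 0) (.cons (.br (nat_lit 1) (.cons (.rel (nat_lit 21242112)) (.cons (.rel (nat_lit 22024512)) .nil))) .nil)) .leaf)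 (nat_lit 24196880358470942) (.br (nat_lit 0) (.cons (.br (nat_lit 1) (.cons (.rel (nat_lit 21038208)) .nil)) .nil)) (.node .leaf (nat_lit 24196881059959544) (.br (nat_lit 1) (.cons (.br (nat_lit 2) (.cons (.rel (nat_lit 100745280)) .nil)) .nil)) .leaf)))))) (nat_lit 24196881060000524) (.br (nat_lit 0) (.cons (.br (nat_lit 1) (.cons (.rel (nat_lit 21233700)) .nil)) .nil)) (.node (.node (.node (.node (.node (.node (.node .leaf (nat_lit 24196881060268313) (.br (nat_lit 4) (.cons (.br (nat_lit 6) (.cons (.rel (nat_lit 18255708162)) .nil)) .nil)) .leaf) (nat_lit 24196881062777093) (.br (nat_lit 1) (.cons (.br (nat_lit 2) (.cons (.rel (nat_lit 101711904)) .nil)) .nil)) .leaf) (nat_lit 24196881062777113) (.br (nat_lit 1) (.cons (.br (nat_lit 3) (.cons (.rel (nat_lit 553910277)) .nil)) .nil)) (.node .leaf (nat_lit 24196881086921966) (.br (nat_lit 1) (.cons (.br (nat_lit 2) (.cons (.rel (nat_lit 101711904)) .nil)) .nil)) .leaf)) (nat_lit 24197052861313305) (.br (nat_lit 0) (.cons (.br (nat_lit 1) (.cons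 (.rel (nat_lit 21233700)) .nil)) .nil)) (.node (.node .leaf (nat_lit 24197081293634168) (.br (nat_lit 0) (.cons (.br (nat_lit 1) (.cons (.rel (nat_lit 21038208)) .nil)) .nil)) .leaf) (nat_lit 24197081294893058) (.br (nat_lit 0) (.cons (.br (nat_lit 1) (.cons (.rel (nat_lit 25166337)) .nil)) .nil)) (.node .leaf (nat_lit 24197081294893082) (.br (nat_lit 0) (.cons (.br (nat_lit 1) (.cons (.rel (nat_lit 20975745)) .nil)) .nil)) .leaf))) (nat_lit 24197081294893688) (.br (nat_lit 0) (.cons (.br (nat_lit 1) (.cons (.rel (nat_lit 21233700)) .nil)) .nil)) (.node (.node (.node (.node .leaf (nat_lit 24197081294894318) (.br (nat_lit 1) (.cons (.br (nat_lit 4) (.cons (.rel (nat_lit 1090781202)) (.cons (.rel (nat_lit 1090781202)) .nil))) .nil)) .leaf) (nat_lit 24197081294992622) (.br (nat_lit 0) (.cons (.br (nat_lit 1) (.cons (.rel (nat_lit 21238296)) .nil)) .nil)) .leaf) (nat_lit 24197081393056424) (.br (nat_lit 5) (.cons (.br (nat_lit 4) (.cons (.rel (nat_lit 5368778784)) (.cons (.rel (nat_lit 5368714512))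 .nil))) .nil)) (.node .leaf (nat_lit 24197081393057054) (.br (nat_lit 0) (.cons (.br (nat_lit 2) (.cons (.rel (nat_lit 71303178)) (.cons (.rel (nat_lit 71320080)) .nil))) .nil)) .leaf)) (nat_lit 24197081393106206) (.br (nat_lit 0) (.cons (.br (nat_lit 1) (.cons (.rel (nat_lit 25296900)) .nil)) .nil)) (.node (.node .leaf (nat_lit 24197081394346034) (.br (nat_lit 1) (.cons (.br (nat_lit 3) (.cons (.rel (nat_lit 285220872)) .nil)) .nil)) .leaf) (nat_lit 24197081394346664) (.br (nat_lit 0) (.cons (.br (nat_lit 1) (.cons (.rel (nat_lit 21242112)) .nil)) .nil)) (.node .leaf (nat_lit 24197081394347294) (.br (nat_lit 3) (.cons (.br (nat_lit 2) (.cons (.rel (nat_lit 336597252)) (.cons (.rel (nat_lit 336593424)) .nil))) .nil)) .leaf)))) (nat_lit 24197081394395138) (.br (nat_lit 0) (.cons (.br (nat_lit 1) (.cons (.rel (nat_lit 25166337)) .nil)) .nil)) (.node (.node (.node (.node (.node .leaf (nat_lit 24197081394395792) (.br (nat_lit 0) (.cons (.br (nat_lit 1) (.cons (.rel (nat_lit 20975745)) (.cons (.rel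 (nat_lit 21234705)) .nil))) .nil)) .leaf) (nat_lit 24197081394396398) (.br (nat_lit 0) (.cons (.br (nat_lit 3) (.cons (.rel (nat_lit 273023040)) .nil)) .nil)) .leaf) (nat_lit 24197081394396422) (.br (nat_lit 0) (.cons (.br (nat_lit 1) (.cons (.rel (nat_lit 25166337)) .nil)) .nil)) (.node .leaf (nat_lit 24197081394396446) (.br (nat_lit 0) (.cons (.br (nat_lit 1) (.cons (.rel (nat_lit 37753872)) .nil)) .nil)) .leaf)) (nat_lit 24197081395557662) (.br (nat_lit 1) (.cons (.br (nat_lit 0) (.cons (.rel (nat_lit 20975745)) (.cons (.rel (nat_lit 21038208)) .nil))) .nil)) (.node (.node .leaf (nat_lit 24197081395605506) (.br (nat_lit 0) (.cons (.br (nat_lit 1) (.cons (.rel (nat_lit 21233700)) .nil)) .nil)) .leaf) (nat_lit 24197081395605554) (.br (nat_lit 1) (.cons (.br (nat_lit 4) (.cons (.rel (nat_lit 1090584705)) .nil)) .nil)) (.node .leaf (nat_lit 24197081395606160) (.br (nat_lit 0) (.cons (.br (nat_lit 1) (.cons (.rel (nat_lit 25166337)) .nil)) .nil)) .leaf))) (nat_lit 24197081395606184) (.br (nat_lit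 4) (.cons (.br (nat_lit 1) (.cons (.rel (nat_lit 1090782216)) (.cons (.rel (nat_lit 1090659456)) .nil))) .nil)) (.node (.node (.node .leaf (nat_lit 24197081395606790) (.br (nat_lit 0) (.cons (.br (nat_lit 1) (.cons (.rel (nat_lit 25166337)) .nil)) .nil)) .leaf) (nat_lit 24197081395606814) (.br (nat_lit 0) (.cons (.br (nat_lit 1) (.cons (.rel (nat_lit 20975745)) (.cons (.rel (nat_lit 21309456)) .nil))) (.cons (.br (nat_lit 1) (.cons (.rel (nat_lit 21381120)) (.cons (.rel (nat_lit 21234705)) .nil))) .nil))) (.node .leaf (nat_lit 24197084073216002) (.br (nat_lit 0) (.cons (.br (nat_lit 1) (.cons (.rel (nat_lit 21234705)) .nil)) .nil)) .leaf)) (nat_lit 24197084073216656) (.br (nat_lit 0) (.cons (.br (nat_lit 1) (.cons (.rel (nat_lit 25166337)) .nil)) .nil)) (.node (.node .leaf (nat_lit 24197084073217262) (.br (nat_lit 0) (.cons (.br (nat_lit 1) (.cons (.rel (nat_lit 25166337)) .nil)) .nil)) .leaf) (nat_lit 24197084073217310) (.br (nat_lit 0) (.cons (.br (nat_lit 1) (.cons (.rel (nat_lit 37753872))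 .nil)) .nil)) (.node .leaf (nat_lit 24197084074507526) (.br (nat_lit 0) (.cons (.br (nat_lit 3) (.cons (.rel (nat_lit 272711937)) .nil)) .nil)) .leaf))))) (nat_lit 24197084075716610) (.br (nat_lit 0) (.cons (.br (nat_lit 1) (.cons (.rel (nat_lit 37753872)) .nil)) .nil)) (.node (.node (.node (.node (.node (.node .leaf (nat_lit 24197084075717264) (.br (nat_lit 0) (.cons (.br (nat_lit 1) (.cons (.rel (nat_lit 21234705)) .nil)) .nil)) .leaf) (nat_lit 24197084075717918) (.br (nat_lit 0) (.cons (.br (nat_lit 1) (.cons (.rel (nat_lit 25166337)) .nil)) .nil)) .leaf) (nat_lit 24197086514350130) (.br (nat_lit 0) (.cons (.br (nat_lit 1) (.cons (.rel (nat_lit 21234705)) .nil)) .nil)) (.node .leaf (nat_lit 24197086515542018) (.br (nat_lit 0) (.cons (.br (nat_lit 4) (.cons (.rel (nat_lit 1082132481)) .nil)) .nil)) .leaf)) (nat_lit 24197086515542042) (.br (nat_lit 1) (.cons (.br (nat_lit 2) (.cons (.rel (nat_lit 101711904)) .nil)) .nil)) (.node (.node .leaf (nat_lit 24197086515542066) (.br (nat_lit 0) (.cons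 (.br (nat_lit 1) (.cons (.rel (nat_lit 20975745)) (.cons (.rel (nat_lit 21381120)) .nil))) (.cons (.br (nat_lit 1) (.cons (.rel (nat_lit 21038208)) (.cons (.rel (nat_lit 21381120)) .nil))) .nil))) .leaf) (nat_lit 24197086515543302) (.br (nat_lit 0) (.cons (.br (nat_lit 1) (.cons (.rel (nat_lit 25166337)) .nil)) .nil)) (.node .leaf (nat_lit 24197086515543326) (.br (nat_lit 0) (.cons (.br (nat_lit 3) (.cons (.rel (nat_lit 541392897)) (.cons (.rel (nat_lit 273023040)) .nil))) .nil)) .leaf))) (nat_lit 24197086515591218) (.br (nat_lit 6) (.cons (.br (nat_lit 1) (.cons (.rel (nat_lit 17196647553)) (.cons (.rel (nat_lit 17198776320)) .nil))) .nil)) (.node (.node (.node .leaf (nat_lit 24197086515592069) (.br (nat_lit 0) (.cons (.br (nat_lit 3) (.cons (.rel (nat_lit 272697858)) .nil)) .nil)) .leaf) (nat_lit 24197086515592430) (.br (nat_lit 0) (.cons (.br (nat_lit 1) (.cons (.rel (nat_lit 37748994)) (.cons (.rel (nat_lit 25166337)) .nil))) .nil)) (.node .leaf (nat_lit 24197086515640322) (.br (nat_lit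 0) (.cons (.br (nat_lit 4) (.cons (.rel (nat_lit 2151678978)) .nil)) .nil)) .leaf)) (nat_lit 24197086515640346) (.br (nat_lit 1) (.cons (.br (nat_lit 0) (.cons (.rel (nat_lit 21038208)) (.cons (.rel (nat_lit 21381120)) .nil))) .nil)) (.node (.node .leaf (nat_lit 24197086515640370) (.br (nat_lit 2) (.cons (.br (nat_lit 1) (.cons (.rel (nat_lit 83919888)) (.cons (.rel (nat_lit 101711904)) .nil))) .nil)) .leaf) (nat_lit 24197086515640976) (.br (nat_lit 0) (.cons (.br (nat_lit 1) (.cons (.rel (nat_lit 25166337)) .nil)) .nil)) (.node .leaf (nat_lit 24197086515641582) (.br (nat_lit 0) (.cons (.br (nat_lit 3) (.cons (.rel (nat_lit 273023040)) .nil)) .nil)) .leaf)))) (nat_lit 24197086515641606) (.br (nat_lit 3) (.cons (.br (nat_lit 1) (.cons (.rel (nat_lit 285220872)) (.cons (.rel (nat_lit 285213216)) .nil))) .nil)) (.node (.node (.node (.node (.node .leaf (nat_lit 24197086515641630) (.br (nat_lit 1) (.cons (.br (nat_lit 0) (.cons (.rel (nat_lit 25166337)) (.cons (.rel (nat_lit 25166337)) .nil))) .nil))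 .leaf) (nat_lit 24197086516801538) (.br (nat_lit 0) (.cons (.br (nat_lit 4) (.cons (.rel (nat_lit 2151678978)) (.cons (.rel (nat_lit 2151813120)) .nil))) .nil)) .leaf) (nat_lit 24197086516850690) (.br (nat_lit 0) (.cons (.br (nat_lit 1) (.cons (.rel (nat_lit 25166337)) .nil)) .nil)) (.node .leaf (nat_lit 24197086715628176) (.br (nat_lit 0) (.cons (.br (nat_lit 1) (.cons (.rel (nat_lit 25166337)) .nil)) .nil)) .leaf)) (nat_lit 24197086715628782) (.br (nat_lit 0) (.cons (.br (nat_lit 1) (.cons (.rel (nat_lit 21038208)) .nil)) .nil)) (.node (.node .leaf (nat_lit 24197086716869264) (.br (nat_lit 0) (.cons (.br (nat_lit 1) (.cons (.rel (nat_lit 25166337)) .nil)) .nil)) .leaf) (nat_lit 24197086716869894) (.br (nat_lit 2) (.cons (.br (nat_lit 3) (.cons (.br (nat_lit 0) (.cons (.rel (nat_lit 343934976)) (.cons (.rel (nat_lit 71312640)) .nil))) .nil)) .nil)) (.node .leaf (nat_lit 24197086716917810) (.br (nat_lit 1) (.cons (.br (nat_lit 0) (.cons (.rel (nat_lit 21234705)) (.cons (.rel (nat_lit 20975745))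 .nil))) .nil)) .leaf))) (nat_lit 24197086716919022) (.br (nat_lit 0) (.cons (.br (nat_lit 1) (.cons (.rel (nat_lit 20975745)) (.cons (.rel (nat_lit 37748994)) .nil))) .nil)) (.node (.node (.node .leaf (nat_lit 24197086716919046) (.br (nat_lit 0) (.cons (.br (nat_lit 1) (.cons (.rel (nat_lit 21038208)) (.cons (.rel (nat_lit 25166337)) .nil))) .nil)) .leaf) (nat_lit 24197086716919070) (.br (nat_lit 0) (.cons (.br (nat_lit 3) (.cons (.rel (nat_lit 272629794)) (.cons (.rel (nat_lit 273023040)) .nil))) (.cons (.br (nat_lit 2) (.cons (.rel (nat_lit 71323908)) (.cons (.rel (nat_lit 71312640)) .nil))) .nil))) (.node .leaf (nat_lit 24197086716966914) (.br (nat_lit 0) (.cons (.br (nat_lit 1) (.cons (.rel (nat_lit 21233700)) .nil)) .nil)) .leaf)) (nat_lit 24197086716968198) (.br (nat_lit 0) (.cons (.br (nat_lit 3) (.cons (.rel (nat_lit 541392897)) (.cons (.rel (nat_lit 273023040)) .nil))) .nil)) (.node (.node .leaf (nat_lit 24197086716968222) (.br (nat_lit 0) (.cons (.br (nat_lit 1) (.cons (.rel (nat_lit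 37748994)) .nil)) .nil)) .leaf) (nat_lit 24197086718177936) (.br (nat_lit 0) (.cons (.br (nat_lit 1) (.cons (.rel (nat_lit 25166337)) .nil)) .nil)) (.node .leaf (nat_lit 24197086718178566) (.br (nat_lit 0) (.cons (.br (nat_lit 1) (.cons (.rel (nat_lit 21381120)) .nil)) .nil)) .leaf)))))))

/-- refutations 148 -/
def e148 : EX := (.node (.node (.node (.node (.node (.node (.node .leaf (nat_lit 24201127352912528) (.br (nat_lit 0) (.cons (.br (nat_lit 1) (.cons (.rel (nat_lit 25296900)) .nil)) .nil)) .leaf) (nat_lit 24201127355462918) (.br (nat_lit 0) (.cons (.br (nat_lit 3) (.cons (.rel (nat_lit 543178752)) .nil)) .nil)) .leaf) (nat_lit 24201130802616601) (.br (nat_lit 0) (.cons (.br (nat_lit 1) (.cons (.rel (nat_lit 21233700)) .nil)) .nil)) (.node .leaf (nat_lit 24202570361260082) (.br (nat_lit 0) (.cons (.br (nat_lit 1) (.cons (.rel (nat_lit 21233700)) .nil)) .nil)) .leaf)) (nat_lit 24202570361260688) (.br (nat_lit 0) (.cons (.br (nat_lit 1) (.cons (.rel (nat_lit 37753872)) .nil)) .nil)) (.node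 (.node .leaf (nat_lit 24202570361260712) (.br (nat_lit 0) (.cons (.br (nat_lit 1) (.cons (.rel (nat_lit 21242112)) .nil)) .nil)) .leaf) (nat_lit 24202570361261294) (.br (nat_lit 0) (.cons (.br (nat_lit 1) (.cons (.rel (nat_lit 21242112)) .nil)) .nil)) (.node .leaf (nat_lit 24202570361261342) (.br (nat_lit 0) (.cons (.br (nat_lit 5) (.cons (.rel (nat_lit 4299165960)) .nil)) .nil)) .leaf))) (nat_lit 24202570361310494) (.br (nat_lit 0) (.cons (.br (nat_lit 4) (.cons (.rel (nat_lit 1082131476)) .nil)) .nil)) (.node (.node (.node (.node .leaf (nat_lit 24202570362550322) (.br (nat_lit 0) (.cons (.br (nat_lit 1) (.cons (.rel (nat_lit 21233700)) .nil)) .nil)) .leaf) (nat_lit 24202570362550952) (.br (nat_lit 0) (.cons (.br (nat_lit 1) (.cons (.rel (nat_lit 21233700)) .nil)) .nil)) .leaf) (nat_lit 24202570362599426) (.br (nat_lit 0) (.cons (.br (nat_lit 4) (.cons (.rel (nat_lit 2151678978)) .nil)) .nil)) (.node .leaf (nat_lit 24202570362600080) (.br (nat_lit 0) (.cons (.br (nat_lit 4) (.cons (.rel (nat_lit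 1078215696)) .nil)) .nil)) .leaf)) (nat_lit 24202570362600686) (.br (nat_lit 0) (.cons (.br (nat_lit 3) (.cons (.rel (nat_lit 273023040)) .nil)) .nil)) (.node (.node .leaf (nat_lit 24202570362600734) (.br (nat_lit 1) (.cons (.br (nat_lit 4) (.cons (.rel (nat_lit 1107298560)) .nil)) .nil)) .leaf) (nat_lit 24202570363809794) (.br (nat_lit 1) (.cons (.br (nat_lit 4) (.cons (.rel (nat_lit 1090781202)) .nil)) .nil)) (.node .leaf (nat_lit 24202570363809842) (.br (nat_lit 0) (.cons (.br (nat_lit 1) (.cons (.rel (nat_lit 37748994)) .nil)) .nil)) .leaf)))) (nat_lit 24202570363810424) (.br (nat_lit 0) (.cons (.br (nat_lit 4) (.cons (.rel (nat_lit 1078198545)) .nil)) .nil)) (.node (.node (.node (.node (.node .leaf (nat_lit 24202570363810448) (.br (nat_lit 1) (.cons (.br (nat_lit 4) (.cons (.rel (nat_lit 1107298560)) .nil)) .nil)) .leaf) (nat_lit 24202570363810472) (.br (nat_lit 0) (.cons (.br (nat_lit 1) (.cons (.rel (nat_lit 21242112)) .nil)) .nil)) .leaf) (nat_lit 24202570363811078) (.br (nat_lit 0)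 (.cons (.br (nat_lit 4) (.cons (.rel (nat_lit 2151678978)) .nil)) .nil)) (.node .leaf (nat_lit 24202570461874178) (.br (nat_lit 0) (.cons (.br (nat_lit 2) (.cons (.rel (nat_lit 71304228)) .nil)) .nil)) .leaf)) (nat_lit 24202570461875462) (.br (nat_lit 0) (.cons (.br (nat_lit 1) (.cons (.rel (nat_lit 25183488)) .nil)) .nil)) (.node (.node .leaf (nat_lit 24202570461923354) (.br (nat_lit 0) (.cons (.br (nat_lit 1) (.cons (.rel (nat_lit 21233700)) .nil)) .nil)) .leaf) (nat_lit 24202570461923984) (.br (nat_lit 0) (.cons (.br (nat_lit 1) (.cons (.rel (nat_lit 25183488)) .nil)) .nil)) (.node .leaf (nat_lit 24202570461924590) (.br (nat_lit 0) (.cons (.br (nat_lit 1) (.cons (.rel (nat_lit 21234705)) .nil)) .nil)) .leaf))) (nat_lit 24202570461973136) (.br (nat_lit 4) (.cons (.br (nat_lit 0) (.cons (.rel (nat_lit 1080033540)) (.cons (.rel (nat_lit 1080033540)) .nil))) .nil)) (.node (.node (.node (.node .leaf (nat_lit 24202570461973160) (.br (nat_lit 0) (.cons (.br (nat_lit 1) (.cons (.rel (nat_lit 25168404))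 .nil)) .nil)) .leaf) (nat_lit 24202570463164442) (.br (nat_lit 0) (.cons (.br (nat_lit 1) (.cons (.rel (nat_lit 25166337)) .nil)) .nil)) .leaf) (nat_lit 24202570463165048) (.br (nat_lit 0) (.cons (.br (nat_lit 1) (.cons (.rel (nat_lit 25183488)) (.cons (.rel (nat_lit 25183488)) .nil))) .nil)) (.node .leaf (nat_lit 24202570463165678) (.br (nat_lit 0) (.cons (.br (nat_lit 1) (.cons (.rel (nat_lit 25183488)) (.cons (.rel (nat_lit 37753872)) .nil))) .nil)) .leaf)) (nat_lit 24202570463165702) (.br (nat_lit 0) (.cons (.br (nat_lit 1) (.cons (.rel (nat_lit 37766145)) (.cons (.rel (nat_lit 25166337)) .nil))) .nil)) (.node (.node .leaf (nat_lit 24202570463262746) (.br (nat_lit 0) (.cons (.br (nat_lit 1) (.cons (.rel (nat_lit 21242112)) .nil)) .nil)) .leaf) (nat_lit 24202570463264006) (.br (nat_lit 0) (.cons (.br (nat_lit 1) (.cons (.rel (nat_lit 21233700)) (.cons (.rel (nat_lit 41944656)) .nil))) (.cons (.br (nat_lit 1) (.cons (.rel (nat_lit 21238296)) (.cons (.rel (nat_lit 37753872)) .nil))) .nil)))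 (.node .leaf (nat_lit 24202570464423938) (.br (nat_lit 0) (.cons (.br (nat_lit 2) (.cons (.rel (nat_lit 71320080)) .nil)) .nil)) .leaf))))) (nat_lit 24202570464424568) (.br (nat_lit 0) (.cons (.br (nat_lit 5) (.cons (.rel (nat_lit 4299163137)) .nil)) .nil)) (.node (.node (.node (.node (.node (.node .leaf (nat_lit 24202570464424592) (.br (nat_lit 0) (.cons (.br (nat_lit 1) (.cons (.rel (nat_lit 25166337)) .nil)) .nil)) .leaf) (nat_lit 24202570464425222) (.br (nat_lit 0) (.cons (.br (nat_lit 1) (.cons (.rel (nat_lit 22024512)) (.cons (.rel (nat_lit 41944656)) .nil))) (.cons (.br (nat_lit 1) (.cons (.rel (nat_lit 25166337)) (.cons (.rel (nat_lit 25166337)) .nil))) .nil))) .leaf) (nat_lit 24202570464473744) (.br (nat_lit 0) (.cons (.br (nat_lit 1) (.cons (.rel (nat_lit 21234705)) .nil)) .nil)) (.node .leaf (nat_lit 24202570464473768) (.br (nat_lit 1) (.cons (.br (nat_lit 0) (.cons (.rel (nat_lit 37753872)) (.cons (.rel (nat_lit 21242112)) .nil))) .nil)) .leaf)) (nat_lit 24202570464474374) (.br (nat_lit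 0) (.cons (.br (nat_lit 4) (.cons (.rel (nat_lit 1082131476)) .nil)) .nil)) (.node (.node .leaf (nat_lit 24202573041372398) (.br (nat_lit 0) (.cons (.br (nat_lit 2) (.cons (.rel (nat_lit 71320080)) .nil)) .nil)) .leaf) (nat_lit 24202573041372422) (.br (nat_lit 1) (.cons (.br (nat_lit 4) (.cons (.rel (nat_lit 1107312642)) .nil)) .nil)) (.node .leaf (nat_lit 24202573041420290) (.br (nat_lit 0) (.cons (.br (nat_lit 1) (.cons (.rel (nat_lit 21234705)) .nil)) .nil)) .leaf))) (nat_lit 24202573041420944) (.br (nat_lit 4) (.cons (.br (nat_lit 0) (.cons (.rel (nat_lit 1082131476)) (.cons (.rel (nat_lit 1082131476)) .nil))) .nil)) (.node (.node (.node (.node .leaf (nat_lit 24202573041420968) (.br (nat_lit 0) (.cons (.br (nat_lit 1) (.cons (.rel (nat_lit 25183488)) .nil)) .nil)) .leaf) (nat_lit 24202573041421550) (.br (nat_lit 0) (.cons (.br (nat_lit 1) (.cons (.rel (nat_lit 37748994)) .nil)) .nil)) .leaf) (nat_lit 24202573041421598) (.br (nat_lit 5) (.cons (.br (nat_lit 0) (.cons (.rel (nat_lit 4299162132))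 (.cons (.rel (nat_lit 4299165960)) .nil))) .nil)) (.node .leaf (nat_lit 24202573041470072) (.br (nat_lit 0) (.cons (.br (nat_lit 3) (.cons (.rel (nat_lit 273023040)) .nil)) .nil)) .leaf)) (nat_lit 24202573041470096) (.br (nat_lit 0) (.cons (.br (nat_lit 3) (.cons (.rel (nat_lit 541392897)) (.cons (.rel (nat_lit 273023040)) .nil))) .nil)) (.node (.node .leaf (nat_lit 24202573041470726) (.br (nat_lit 0) (.cons (.br (nat_lit 1) (.cons (.rel (nat_lit 25183488)) (.cons (.rel (nat_lit 37753872)) .nil))) .nil)) .leaf) (nat_lit 24202573041470750) (.br (nat_lit 0) (.cons (.br (nat_lit 1) (.cons (.rel (nat_lit 37748994)) .nil)) .nil)) (.node .leaf (nat_lit 24202573042760990) (.br (nat_lit 0) (.cons (.br (nat_lit 4) (.cons (.rel (nat_lit 1078198545)) .nil)) .nil)) .leaf)))) (nat_lit 24202573043714704) (.br (nat_lit 0) (.cons (.br (nat_lit 1) (.cons (.rel (nat_lit 21381120)) .nil)) .nil)) (.node (.node (.node (.node (.node .leaf (nat_lit 24202573043920898) (.br (nat_lit 0) (.cons (.br (nat_lit 2) (.cons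 (.rel (nat_lit 71305233)) .nil)) .nil)) .leaf) (nat_lit 24202573043921552) (.br (nat_lit 0) (.cons (.br (nat_lit 5) (.cons (.rel (nat_lit 4299162132)) .nil)) .nil)) .leaf) (nat_lit 24202573043922158) (.br (nat_lit 0) (.cons (.br (nat_lit 2) (.cons (.rel (nat_lit 71305233)) .nil)) .nil)) (.node .leaf (nat_lit 24202573043922206) (.br (nat_lit 0) (.cons (.br (nat_lit 5) (.cons (.rel (nat_lit 4299162132)) .nil)) .nil)) .leaf)) (nat_lit 24202573043970704) (.br (nat_lit 0) (.cons (.br (nat_lit 1) (.cons (.rel (nat_lit 25166337)) .nil)) .nil)) (.node (.node .leaf (nat_lit 24202575482456066) (.br (nat_lit 0) (.cons (.br (nat_lit 4) (.cons (.rel (nat_lit 1082147328)) .nil)) .nil)) .leaf) (nat_lit 24202575482505266) (.br (nat_lit 0) (.cons (.br (nat_lit 1) (.cons (.rel (nat_lit 21233700)) .nil)) .nil)) (.node .leaf (nat_lit 24202575482555048) (.br (nat_lit 0) (.cons (.br (nat_lit 1) (.cons (.rel (nat_lit 37753872)) .nil)) .nil)) .leaf))) (nat_lit 24202575483795506) (.br (nat_lit 0) (.cons (.br (nat_lit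 1) (.cons (.rel (nat_lit 37748994)) .nil)) .nil)) (.node (.node (.node (.node .leaf (nat_lit 24202575483796136) (.br (nat_lit 0) (.cons (.br (nat_lit 1) (.cons (.rel (nat_lit 25166337)) .nil)) .nil)) .leaf) (nat_lit 24202575483796718) (.br (nat_lit 0) (.cons (.br (nat_lit 2) (.cons (.rel (nat_lit 71304228)) .nil)) .nil)) .leaf) (nat_lit 24202575483844610) (.br (nat_lit 0) (.cons (.br (nat_lit 4) (.cons (.rel (nat_lit 1078215696)) .nil)) .nil)) (.node .leaf (nat_lit 24202575483844634) (.br (nat_lit 0) (.cons (.br (nat_lit 1) (.cons (.rel (nat_lit 37748994)) .nil)) .nil)) .leaf)) (nat_lit 24202575483845264) (.br (nat_lit 0) (.cons (.br (nat_lit 1) (.cons (.rel (nat_lit 25166337)) .nil)) .nil)) (.node (.node .leaf (nat_lit 24202575483845894) (.br (nat_lit 0) (.cons (.br (nat_lit 1) (.cons (.rel (nat_lit 43024656)) (.cons (.rel (nat_lit 21242112)) .nil))) .nil)) .leaf) (nat_lit 24202575483845918) (.br (nat_lit 0) (.cons (.br (nat_lit 1) (.cons (.rel (nat_lit 25166337)) .nil)) .nil)) (.node .leaf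 (nat_lit 24202575485007110) (.br (nat_lit 0) (.cons (.br (nat_lit 3) (.cons (.rel (nat_lit 272646660)) .nil)) .nil)) .leaf))))))

/-- refutations 150 -/
def e150 : EX := (.node (.node (.node (.node .leaf (nat_lit 22202885027892462) (.br (nat_lit 2) (.cons (.br (nat_lit 6) (.cons (.rel (nat_lit 17247010848)) .nil)) .nil)) .leaf) (nat_lit 22207180163340569) (.br (nat_lit 0) (.cons (.br (nat_lit 4) (.cons (.rel (nat_lit 2151686433)) (.cons (.rel (nat_lit 1082204160)) .nil))) .nil)) .leaf) (nat_lit 22207185217715737) (.br (nat_lit 4) (.cons (.br (nat_lit 5) (.cons (.rel (nat_lit 10737418497)) .nil)) .nil)) (.node (.node .leaf (nat_lit 22207833305731202) (.br (nat_lit 1) (.cons (.br (nat_lit 4) (.cons (.rel (nat_lit 1107298560)) .nil)) .nil)) .leaf) (nat_lit 22207833518620154) (.br (nat_lit 1) (.cons (.br (nat_lit 2) (.cons (.rel (nat_lit 83895297)) .nil)) .nil)) .leaf)) (nat_lit 22207835546866350) (.br (nat_lit 0) (.cons (.br (nat_lit 1) (.cons (.rel (nat_lit 37753872)) .nil)) .nil)) (.node (.node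 (.node .leaf (nat_lit 22208005249666286) (.br (nat_lit 0) (.cons (.br (nat_lit 1) (.cons (.rel (nat_lit 21242112)) .nil)) .nil)) .leaf) (nat_lit 22208005249666550) (.br (nat_lit 0) (.cons (.br (nat_lit 1) (.cons (.rel (nat_lit 25166337)) .nil)) .nil)) .leaf) (nat_lit 22213419487955094) (.br (nat_lit 0) (.cons (.br (nat_lit 2) (.cons (.rel (nat_lit 71305233)) .nil)) .nil)) (.node .leaf (nat_lit 22213419489555363) (.br (nat_lit 2) (.cons (.br (nat_lit 3) (.cons (.rel (nat_lit 671094144)) .nil)) .nil)) .leaf)))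

/-- refutations 151 -/
def e151 : EX := (.node (.node .leaf (nat_lit 24214452716677121) (.br (nat_lit 0) (.cons (.br (nat_lit 2) (.cons (.rel (nat_lit 71369220)) .nil)) .nil)) .leaf) (nat_lit 24214452716678381) (.br (nat_lit 0) (.cons (.br (nat_lit 2) (.cons (.rel (nat_lit 71369220)) (.cons (.rel (nat_lit 71312640)) .nil))) .nil)) (.node .leaf (nat_lit 24214452717938690) (.br (nat_lit 0) (.cons (.br (nat_lit 1) (.cons (.rel (nat_lit 21234705)) .nil)) .nil)) .leaf))

/-- refutations 152 -/
def e152 : EX := (.node (.node (.node (.node .leaf (nat_lit 24296412054588267) (.br (nat_lit 0) (.cons (.br (nat_lit 2) (.cons (.rel (nat_lit 71303178)) .nil)) .nil)) .leaf) (nat_lit 24297226629302532) (.br (nat_lit 0) (.cons (.br (nat_lit 4) (.cons (.rel (nat_lit 1082204160)) .nil)) .nil)) (.node .leaf (nat_lit 24297226631852292) (.br (nat_lit 0) (.cons (.br (nat_lit 4) (.cons (.rel (nat_lit 1082204160)) .nil)) .nil)) .leaf)) (nat_lit 24297226632200247) (.br (nat_lit 0) (.cons (.br (nat_lit 6) (.cons (.rel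 (nat_lit 17188267008)) .nil)) .nil)) (.node (.node .leaf (nat_lit 24297228097310082) (.br (nat_lit 0) (.cons (.br (nat_lit 4) (.cons (.rel (nat_lit 2151813120)) .nil)) .nil)) .leaf) (nat_lit 24297228098375042) (.br (nat_lit 0) (.cons (.br (nat_lit 1) (.cons (.rel (nat_lit 21233700)) (.cons (.br (nat_lit 2) (.cons (.rel (nat_lit 75502656)) (.cons (.rel (nat_lit 84149568)) .nil))) .nil))) (.cons (.br (nat_lit 1) (.cons (.rel (nat_lit 21307401)) (.cons (.rel (nat_lit 21233700)) .nil))) .nil))) .leaf)) (nat_lit 24297228677177625) (.br (nat_lit 1) (.cons (.br (nat_lit 2) (.cons (.rel (nat_lit 101711904)) .nil)) .nil)) (.node (.node (.node .leaf (nat_lit 24305646234275202) (.br (nat_lit 0) (.cons (.br (nat_lit 6) (.cons (.rel (nat_lit 34363932933)) .nil)) .nil)) .leaf) (nat_lit 24307105054083332) (.br (nat_lit 0) (.cons (.br (nat_lit 6) (.cons (.rel (nat_lit 17188267008)) .nil)) .nil)) .leaf) (nat_lit 24307105056633092) (.br (nat_lit 6) (.cons (.br (nat_lit 0) (.cons (.rel (nat_lit 34363938816)) (.cons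 (.rel (nat_lit 34363932933)) .nil))) .nil)) (.node (.node .leaf (nat_lit 24307105056981047) (.br (nat_lit 0) (.cons (.br (nat_lit 4) (.cons (.rel (nat_lit 1082131476)) (.cons (.rel (nat_lit 1082131476)) .nil))) .nil)) .leaf) (nat_lit 24308186864197110) (.br (nat_lit 0) (.cons (.br (nat_lit 3) (.cons (.rel (nat_lit 272703492)) .nil)) .nil)) .leaf)))

/-- refutations 153 -/
def e153 : EX := (.node (.node (.node (.node (.node (.node (.node .leaf (nat_lit 24664506418796694) (.br (nat_lit 1) (.cons (.br (nat_lit 2) (.cons (.rel (nat_lit 83895297)) .nil)) .nil)) .leaf) (nat_lit 24664508007693574) (.br (nat_lit 2) (.cons (.br (nat_lit 5) (.cons (.rel (nat_lit 8657109024)) .nil)) .nil)) .leaf) (nat_lit 24664508008953094) (.br (nat_lit 0) (.cons (.br (nat_lit 2) (.cons (.rel (nat_lit 71303178)) .nil)) .nil)) (.node .leaf (nat_lit 24664566363094302) (.br (nat_lit 0) (.cons (.br (nat_lit 3) (.cons (.rel (nat_lit 272703492)) .nil)) .nil)) .leaf)) (nat_lit 24664566364058352) (.br (nat_lit 0) (.cons (.br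 (nat_lit 1) (.cons (.rel (nat_lit 20975745)) .nil)) .nil)) (.node (.node (.node .leaf (nat_lit 24664568638746905) (.br (nat_lit 2) (.cons (.br (nat_lit 6) (.cons (.rel (nat_lit 17246984448)) .nil)) .nil)) .leaf) (nat_lit 24664568640127257) (.br (nat_lit 0) (.cons (.br (nat_lit 2) (.cons (.br (nat_lit 3) (.cons (.rel (nat_lit 402800640)) .nil)) .nil)) .nil)) .leaf) (nat_lit 24664568640600345) (.br (nat_lit 2) (.cons (.br (nat_lit 3) (.cons (.rel (nat_lit 336089088)) .nil)) .nil)) (.node .leaf (nat_lit 24665534080010920) (.br (nat_lit 0) (.cons (.br (nat_lit 2) (.cons (.rel (nat_lit 71323908)) .nil)) .nil)) .leaf))) (nat_lit 24666658858076816) (.br (nat_lit 0) (.cons (.br (nat_lit 5) (.cons (.rel (nat_lit 4299227409)) (.cons (.rel (nat_lit 4304420880)) .nil))) (.cons (.br (nat_lit 2) (.cons (.rel (nat_lit 71389185)) (.cons (.rel (nat_lit 71304228)) .nil))) .nil))) (.node (.node (.node (.node .leaf (nat_lit 24666658858077446) (.br (nat_lit 0) (.cons (.br (nat_lit 2) (.cons (.rel (nat_lit 72613908))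 (.cons (.rel (nat_lit 72613908)) (.cons (.rel (nat_lit 71303178)) .nil)))) (.cons (.br (nat_lit 1) (.cons (.rel (nat_lit 21234705)) (.cons (.rel (nat_lit 25166337)) .nil))) .nil))) .leaf) (nat_lit 24666658858125968) (.br (nat_lit 0) (.cons (.br (nat_lit 2) (.cons (.rel (nat_lit 142606341)) .nil)) .nil)) .leaf) (nat_lit 24666658858126622) (.br (nat_lit 0) (.cons (.br (nat_lit 1) (.cons (.rel (nat_lit 20975745)) (.cons (.rel (nat_lit 21234705)) .nil))) .nil)) (.node .leaf (nat_lit 24666658858174514) (.br (nat_lit 0) (.cons (.br (nat_lit 5) (.cons (.rel (nat_lit 4304420880)) .nil)) .nil)) .leaf)) (nat_lit 24666658858175120) (.br (nat_lit 0) (.cons (.br (nat_lit 1) (.cons (.rel (nat_lit 21233700)) .nil)) .nil)) (.node (.node (.node .leaf (nat_lit 24666658858175774) (.br (nat_lit 0) (.cons (.br (nat_lit 2) (.cons (.rel (nat_lit 142606341)) .nil)) .nil)) .leaf) (nat_lit 24666658860625922) (.br (nat_lit 0) (.cons (.br (nat_lit 1) (.cons (.rel (nat_lit 25166337)) .nil)) .nil)) .leaf) (nat_lit 24666658860625946)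 (.br (nat_lit 2) (.cons (.br (nat_lit 3) (.cons (.rel (nat_lit 336724992)) .nil)) .nil)) (.node .leaf (nat_lit 24666658860626576) (.br (nat_lit 0) (.cons (.br (nat_lit 1) (.cons (.rel (nat_lit 25296900)) .nil)) .nil)) .leaf)))) (nat_lit 24666658860627206) (.br (nat_lit 1) (.cons (.br (nat_lit 2) (.cons (.rel (nat_lit 153092112)) (.cons (.rel (nat_lit 167772420)) .nil))) (.cons (.br (nat_lit 2) (.cons (.rel (nat_lit 84017154)) (.cons (.rel (nat_lit 83902737)) .nil))) .nil))) (.node (.node (.node (.node (.node .leaf (nat_lit 24666658860627230) (.br (nat_lit 2) (.cons (.br (nat_lit 3) (.cons (.br (nat_lit 0) (.cons (.rel (nat_lit 545259537)) (.cons (.rel (nat_lit 71598144)) .nil))) .nil)) .nil)) .leaf) (nat_lit 24666658860675074) (.br (nat_lit 0) (.cons (.br (nat_lit 1) (.cons (.rel (nat_lit 21381120)) .nil)) .nil)) .leaf) (nat_lit 24666658860676358) (.br (nat_lit 0) (.cons (.br (nat_lit 2) (.cons (.rel (nat_lit 142606341)) .nil)) .nil)) (.node .leaf (nat_lit 24666658860676382) (.br (nat_lit 0)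 (.cons (.br (nat_lit 2) (.cons (.rel (nat_lit 142606341)) .nil)) .nil)) .leaf)) (nat_lit 24666661437573146) (.br (nat_lit 0) (.cons (.br (nat_lit 2) (.cons (.rel (nat_lit 71305233)) .nil)) .nil)) (.node (.node (.node .leaf (nat_lit 24666661437573776) (.br (nat_lit 0) (.cons (.br (nat_lit 3) (.cons (.rel (nat_lit 272630808)) (.cons (.rel (nat_lit 272629794)) (.cons (.rel (nat_lit 272654352)) .nil)))) .nil)) .leaf) (nat_lit 24666661437574406) (.br (nat_lit 0) (.cons (.br (nat_lit 1) (.cons (.rel (nat_lit 37748994)) .nil)) .nil)) .leaf) (nat_lit 24666661437622274) (.br (nat_lit 0) (.cons (.br (nat_lit 2) (.cons (.rel (nat_lit 71305233)) .nil)) .nil)) (.node .leaf (nat_lit 24666661437622952) (.br (nat_lit 0) (.cons (.br (nat_lit 2) (.cons (.rel (nat_lit 71320080)) .nil)) .nil)) .leaf))) (nat_lit 24666661437623534) (.br (nat_lit 0) (.cons (.br (nat_lit 1) (.cons (.rel (nat_lit 37748994)) .nil)) .nil)) (.node (.node (.node (.node .leaf (nat_lit 24666661437671474) (.br (nat_lit 0) (.cons (.br (nat_lit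 2) (.cons (.rel (nat_lit 71305233)) .nil)) .nil)) .leaf) (nat_lit 24666661437672080) (.br (nat_lit 0) (.cons (.br (nat_lit 2) (.cons (.rel (nat_lit 71320080)) .nil)) .nil)) .leaf) (nat_lit 24666661437672734) (.br (nat_lit 2) (.cons (.br (nat_lit 5) (.cons (.br (nat_lit 0) (.cons (.rel (nat_lit 4299163137)) (.cons (.rel (nat_lit 142606341)) .nil))) .nil)) .nil)) (.node .leaf (nat_lit 24666661440122906) (.br (nat_lit 3) (.cons (.br (nat_lit 0) (.cons (.rel (nat_lit 545259537)) (.cons (.rel (nat_lit 272629794)) (.cons (.rel (nat_lit 273023040)) .nil)))) .nil)) .leaf)) (nat_lit 24666661440123536) (.br (nat_lit 1) (.cons (.br (nat_lit 2) (.cons (.rel (nat_lit 84017154)) .nil)) .nil)) (.node (.node (.node .leaf (nat_lit 24666661440124166) (.br (nat_lit 0) (.cons (.br (nat_lit 2) (.cons (.br (nat_lit 1) (.cons (.rel (nat_lit 153092112)) (.cons (.rel (nat_lit 25296900)) .nil))) .nil)) .nil)) .leaf) (nat_lit 24666661440124190) (.br (nat_lit 0) (.cons (.br (nat_lit 3) (.cons (.rel (nat_lit 272646660))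 (.cons (.rel (nat_lit 545259537)) .nil))) .nil)) .leaf) (nat_lit 24666662492379286) (.br (nat_lit 5) (.cons (.br (nat_lit 0) (.cons (.rel (nat_lit 8598339585)) (.cons (.rel (nat_lit 4299170841)) .nil))) .nil)) (.node .leaf (nat_lit 24666662492379916) (.br (nat_lit 2) (.cons (.br (nat_lit 5) (.cons (.rel (nat_lit 8724546564)) .nil)) .nil)) .leaf))))) (nat_lit 24666664079837210) (.br (nat_lit 2) (.cons (.br (nat_lit 4) (.cons (.rel (nat_lit 1140850725)) .nil)) .nil)) (.node (.node (.node (.node (.node (.node .leaf (nat_lit 24666664079984642) (.br (nat_lit 0) (.cons (.br (nat_lit 2) (.cons (.rel (nat_lit 71320080)) .nil)) .nil)) .leaf) (nat_lit 24666664079984666) (.br (nat_lit 0) (.cons (.br (nat_lit 2) (.cons (.rel (nat_lit 139460688)) (.cons (.rel (nat_lit 71303178)) .nil))) (.cons (.br (nat_lit 2) (.cons (.br (nat_lit 1) (.cons (.rel (nat_lit 153092112)) (.cons (.rel (nat_lit 25166337)) (.cons (.rel (nat_lit 21233700)) .nil)))) (.cons (.rel (nat_lit 71303178)) .nil))) .nil))) .leaf) (nat_lit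 24666664079985296) (.br (nat_lit 0) (.cons (.br (nat_lit 3) (.cons (.rel (nat_lit 272629794)) (.cons (.rel (nat_lit 273023040)) (.cons (.rel (nat_lit 272630808)) .nil)))) .nil)) (.node .leaf (nat_lit 24666664079985320) (.br (nat_lit 0) (.cons (.br (nat_lit 1) (.cons (.rel (nat_lit 21234705)) (.cons (.rel (nat_lit 25166337)) .nil))) .nil)) .leaf)) (nat_lit 24666664079985570) (.br (nat_lit 0) (.cons (.br (nat_lit 3) (.cons (.rel (nat_lit 272630808)) .nil)) .nil)) (.node (.node (.node .leaf (nat_lit 24666664079985926) (.br (nat_lit 0) (.cons (.br (nat_lit 1) (.cons (.rel (nat_lit 21234705)) (.cons (.rel (nat_lit 21233700)) .nil))) (.cons (.br (nat_lit 2) (.cons (.rel (nat_lit 71303178)) (.cons (.rel (nat_lit 71304228)) .nil))) .nil))) .leaf) (nat_lit 24666664080033818) (.br (nat_lit 0) (.cons (.br (nat_lit 3) (.cons (.rel (nat_lit 545529924)) .nil)) .nil)) .leaf) (nat_lit 24666664080033842) (.br (nat_lit 0) (.cons (.br (nat_lit 1) (.cons (.rel (nat_lit 25296900)) (.cons (.rel (nat_lit 37753872))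 .nil))) .nil)) (.node .leaf (nat_lit 24666664080033977) (.br (nat_lit 0) (.cons (.br (nat_lit 2) (.cons (.rel (nat_lit 138678288)) .nil)) .nil)) .leaf))) (nat_lit 24666664080035102) (.br (nat_lit 0) (.cons (.br (nat_lit 3) (.cons (.rel (nat_lit 272666625)) (.cons (.rel (nat_lit 546643968)) .nil))) .nil)) (.node (.node (.node (.node .leaf (nat_lit 24666664080037126) (.br (nat_lit 4) (.cons (.br (nat_lit 6) (.cons (.rel (nat_lit 18253971456)) .nil)) .nil)) .leaf) (nat_lit 24666664080082970) (.br (nat_lit 2) (.cons (.br (nat_lit 5) (.cons (.rel (nat_lit 8657044752)) .nil)) .nil)) .leaf) (nat_lit 24666664080084254) (.br (nat_lit 0) (.cons (.br (nat_lit 2) (.cons (.rel (nat_lit 142606341)) .nil)) .nil)) (.node .leaf (nat_lit 24666664081272858) (.br (nat_lit 0) (.cons (.br (nat_lit 1) (.cons (.rel (nat_lit 20975745)) .nil)) .nil)) .leaf)) (nat_lit 24666664081324034) (.br (nat_lit 1) (.cons (.br (nat_lit 2) (.cons (.rel (nat_lit 153092112)) .nil)) .nil)) (.node (.node (.node .leaf (nat_lit 24666664081324058)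 (.br (nat_lit 2) (.cons (.br (nat_lit 5) (.cons (.rel (nat_lit 4363124997)) (.cons (.rel (nat_lit 4363124997)) (.cons (.rel (nat_lit 8657044752)) (.cons (.rel (nat_lit 4363158048)) .nil))))) .nil)) .leaf) (nat_lit 24666664081324082) (.br (nat_lit 1) (.cons (.br (nat_lit 2) (.cons (.rel (nat_lit 153092112)) .nil)) .nil)) .leaf) (nat_lit 24666664081324689) (.br (nat_lit 0) (.cons (.br (nat_lit 2) (.cons (.rel (nat_lit 71323908)) (.cons (.rel (nat_lit 71320080)) .nil))) (.cons (.br (nat_lit 2) (.cons (.br (nat_lit 3) (.cons (.rel (nat_lit 277905408)) (.cons (.rel (nat_lit 336597252)) .nil))) (.cons (.rel (nat_lit 71312640)) .nil))) .nil))) (.node .leaf (nat_lit 24666664081325294) (.br (nat_lit 1) (.cons (.br (nat_lit 0) (.cons (.rel (nat_lit 21233700)) (.cons (.rel (nat_lit 37748994)) .nil))) .nil)) .leaf)))) (nat_lit 24666664081325318) (.br (nat_lit 0) (.cons (.br (nat_lit 3) (.cons (.rel (nat_lit 543178752)) .nil)) .nil)) (.node (.node (.node (.node (.node .leaf (nat_lit 24666664081325342) (.br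 (nat_lit 2) (.cons (.br (nat_lit 0) (.cons (.rel (nat_lit 76627968)) (.cons (.rel (nat_lit 72613908)) (.cons (.rel (nat_lit 71320080)) (.cons (.br (nat_lit 3) (.cons (.rel (nat_lit 272703492)) (.cons (.rel (nat_lit 272630808)) (.cons (.rel (nat_lit 272630808)) (.cons (.rel (nat_lit 272703492)) .nil))))) (.cons (.rel (nat_lit 76627968)) .nil)))))) .nil)) .leaf) (nat_lit 24666664081373186) (.br (nat_lit 0) (.cons (.br (nat_lit 1) (.cons (.rel (nat_lit 25166337)) (.cons (.rel (nat_lit 37765140)) .nil))) .nil)) .leaf) (nat_lit 24666664081373210) (.br (nat_lit 0) (.cons (.br (nat_lit 2) (.cons (.rel (nat_lit 71303178)) .nil)) .nil)) (.node .leaf (nat_lit 24666664081373234) (.br (nat_lit 0) (.cons (.br (nat_lit 3) (.cons (.rel (nat_lit 541392897)) (.cons (.rel (nat_lit 272629794)) (.cons (.rel (nat_lit 272666625)) .nil)))) .nil)) .leaf)) (nat_lit 24666664081373864) (.br (nat_lit 1) (.cons (.br (nat_lit 2) (.cons (.br (nat_lit 0) (.cons (.rel (nat_lit 41963616)) (.cons (.rel (nat_lit 71305233)) .nil)))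 .nil)) .nil)) (.node (.node (.node .leaf (nat_lit 24666664081374470) (.br (nat_lit 0) (.cons (.br (nat_lit 3) (.cons (.rel (nat_lit 273023040)) .nil)) .nil)) .leaf) (nat_lit 24666664081374494) (.br (nat_lit 0) (.cons (.br (nat_lit 1) (.cons (.rel (nat_lit 25166337)) (.cons (.rel (nat_lit 37765140)) .nil))) .nil)) .leaf) (nat_lit 24666664082130970) (.br (nat_lit 2) (.cons (.br (nat_lit 4) (.cons (.rel (nat_lit 2281702404)) .nil)) .nil)) (.node .leaf (nat_lit 24666664082289950) (.br (nat_lit 1) (.cons (.br (nat_lit 2) (.cons (.rel (nat_lit 83886600)) .nil)) .nil)) .leaf))) (nat_lit 24666664082534402) (.br (nat_lit 0) (.cons (.br (nat_lit 2) (.cons (.rel (nat_lit 71304228)) .nil)) .nil)) (.node (.node (.node (.node .leaf (nat_lit 24666664082534426) (.br (nat_lit 2) (.cons (.br (nat_lit 3) (.cons (.rel (nat_lit 335544657)) (.cons (.rel (nat_lit 335544657)) .nil))) (.cons (.br (nat_lit 0) (.cons (.rel (nat_lit 71304228)) (.cons (.rel (nat_lit 71320080)) (.cons (.rel (nat_lit 71305233)) (.cons (.rel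 (nat_lit 142606341)) .nil))))) .nil))) .leaf) (nat_lit 24666664082535057) (.br (nat_lit 1) (.cons (.br (nat_lit 2) (.cons (.rel (nat_lit 83894292)) .nil)) .nil)) .leaf) (nat_lit 24666664082535287) (.br (nat_lit 0) (.cons (.br (nat_lit 2) (.cons (.rel (nat_lit 138678288)) (.cons (.rel (nat_lit 71305233)) .nil))) (.cons (.br (nat_lit 2) (.cons (.rel (nat_lit 139460688)) (.cons (.rel (nat_lit 142606341)) .nil))) .nil))) (.node .leaf (nat_lit 24666664082535686) (.br (nat_lit 1) (.cons (.br (nat_lit 2) (.cons (.rel (nat_lit 153092112)) .nil)) .nil)) .leaf)) (nat_lit 24666664082535710) (.br (nat_lit 3) (.cons (.br (nat_lit 0) (.cons (.rel (nat_lit 543178752)) (.cons (.rel (nat_lit 545259537)) (.cons (.rel (nat_lit 545259537)) (.cons (.rel (nat_lit 272703492)) .nil))))) .nil)) (.node (.node (.node .leaf (nat_lit 24666664082583602) (.br (nat_lit 0) (.cons (.br (nat_lit 2) (.cons (.rel (nat_lit 72613908)) .nil)) .nil)) .leaf) (nat_lit 24666664082584232) (.br (nat_lit 0) (.cons (.br (nat_lit 2) (.cons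 (.rel (nat_lit 72613908)) .nil)) .nil)) .leaf) (nat_lit 24666664082632730) (.br (nat_lit 0) (.cons (.br (nat_lit 2) (.cons (.rel (nat_lit 71304228)) .nil)) .nil)) (.node .leaf (nat_lit 24666664082633990) (.br (nat_lit 0) (.cons (.br (nat_lit 2) (.cons (.rel (nat_lit 71305233)) .nil)) .nil)) .leaf))))))

/-- refutations 154 -/
def e154 : EX := (.node (.node (.node (.node (.node (.node (.node (.node .leaf (nat_lit 24669880588924406) (.br (nat_lit 1) (.cons (.br (nat_lit 3) (.cons (.rel (nat_lit 285213216)) .nil)) .nil)) .leaf) (nat_lit 24669914976994817) (.br (nat_lit 0) (.cons (.br (nat_lit 2) (.cons (.rel (nat_lit 71303178)) .nil)) .nil)) .leaf) (nat_lit 24669917022783514) (.br (nat_lit 0) (.cons (.br (nat_lit 2) (.cons (.rel (nat_lit 71305233)) .nil)) .nil)) (.node .leaf (nat_lit 24669917024074384) (.br (nat_lit 0) (.cons (.br (nat_lit 2) (.cons (.rel (nat_lit 71303178)) .nil)) .nil)) .leaf)) (nat_lit 24671804127810846) (.br (nat_lit 1) (.cons (.br (nat_lit 5) (.cons (.rel (nat_lit 4311777792))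 .nil)) .nil)) (.node (.node .leaf (nat_lit 24671804130538782) (.br (nat_lit 0) (.cons (.br (nat_lit 1) (.cons (.rel (nat_lit 20975745)) .nil)) .nil)) .leaf) (nat_lit 24671804130596126) (.br (nat_lit 2) (.cons (.br (nat_lit 6) (.cons (.rel (nat_lit 17247059988)) .nil)) .nil)) (.node .leaf (nat_lit 24671809953699102) (.br (nat_lit 0) (.cons (.br (nat_lit 2) (.cons (.rel (nat_lit 138690561)) (.cons (.rel (nat_lit 138678288)) .nil))) .nil)) .leaf))) (nat_lit 24671864257775642) (.br (nat_lit 0) (.cons (.br (nat_lit 1) (.cons (.rel (nat_lit 21233700)) .nil)) .nil)) (.node (.node (.node .leaf (nat_lit 24671864257776248) (.br (nat_lit 0) (.cons (.br (nat_lit 1) (.cons (.rel (nat_lit 41944656)) .nil)) .nil)) .leaf) (nat_lit 24671864257873946) (.br (nat_lit 0) (.cons (.br (nat_lit 3) (.cons (.rel (nat_lit 277905408)) .nil)) .nil)) (.node .leaf (nat_lit 24671864259115034) (.br (nat_lit 1) (.cons (.br (nat_lit 4) (.cons (.rel (nat_lit 1090781202)) .nil)) .nil)) .leaf)) (nat_lit 24671864259115640) (.br (nat_lit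 0) (.cons (.br (nat_lit 2) (.cons (.rel (nat_lit 72613908)) .nil)) .nil)) (.node (.node .leaf (nat_lit 24671864259164162) (.br (nat_lit 0) (.cons (.br (nat_lit 1) (.cons (.rel (nat_lit 21233700)) .nil)) .nil)) .leaf) (nat_lit 24671864259164840) (.br (nat_lit 0) (.cons (.br (nat_lit 1) (.cons (.rel (nat_lit 20975745)) (.cons (.rel (nat_lit 25166337)) .nil))) .nil)) (.node .leaf (nat_lit 24671864259165422) (.br (nat_lit 0) (.cons (.br (nat_lit 1) (.cons (.rel (nat_lit 37765140)) .nil)) .nil)) .leaf)))) (nat_lit 24671864259165446) (.br (nat_lit 0) (.cons (.br (nat_lit 1) (.cons (.rel (nat_lit 21038208)) (.cons (.rel (nat_lit 25166337)) .nil))) .nil)) (.node (.node (.node (.node .leaf (nat_lit 24671864260325402) (.br (nat_lit 0) (.cons (.br (nat_lit 6) (.cons (.rel (nat_lit 17184129168)) .nil)) .nil)) .leaf) (nat_lit 24671864260326008) (.br (nat_lit 0) (.cons (.br (nat_lit 4) (.cons (.rel (nat_lit 2151678978)) .nil)) .nil)) (.node .leaf (nat_lit 24671864260374530) (.br (nat_lit 0) (.cons (.br (nat_lit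 1) (.cons (.rel (nat_lit 25166337)) .nil)) .nil)) .leaf)) (nat_lit 24671864260375814) (.br (nat_lit 0) (.cons (.br (nat_lit 2) (.cons (.rel (nat_lit 71305233)) .nil)) .nil)) (.node (.node .leaf (nat_lit 24671867929083118) (.br (nat_lit 0) (.cons (.br (nat_lit 1) (.cons (.rel (nat_lit 25183488)) .nil)) .nil)) .leaf) (nat_lit 24672041881932057) (.br (nat_lit 2) (.cons (.br (nat_lit 3) (.cons (.rel (nat_lit 603979800)) .nil)) .nil)) (.node .leaf (nat_lit 24672041884659993) (.br (nat_lit 2) (.cons (.br (nat_lit 3) (.cons (.rel (nat_lit 603979800)) .nil)) .nil)) .leaf))) (nat_lit 24672070416255002) (.br (nat_lit 0) (.cons (.br (nat_lit 1) (.cons (.rel (nat_lit 43024656)) .nil)) .nil)) (.node (.node (.node .leaf (nat_lit 24672070416255632) (.br (nat_lit 0) (.cons (.br (nat_lit 1) (.cons (.rel (nat_lit 21233700)) .nil)) .nil)) .leaf) (nat_lit 24672070416255656) (.br (nat_lit 2) (.cons (.br (nat_lit 4) (.cons (.rel (nat_lit 1140850725)) (.cons (.rel (nat_lit 1140850725)) (.cons (.rel (nat_lit 1140851730))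 .nil)))) .nil)) (.node .leaf (nat_lit 24672070416256286) (.br (nat_lit 2) (.cons (.br (nat_lit 1) (.cons (.rel (nat_lit 153092112)) (.cons (.br (nat_lit 0) (.cons (.rel (nat_lit 37814280)) (.cons (.rel (nat_lit 37748994)) .nil))) .nil))) .nil)) .leaf)) (nat_lit 24672070416304154) (.br (nat_lit 0) (.cons (.br (nat_lit 2) (.cons (.rel (nat_lit 139460688)) .nil)) .nil)) (.node (.node .leaf (nat_lit 24672070416304760) (.br (nat_lit 0) (.cons (.br (nat_lit 1) (.cons (.rel (nat_lit 37748994)) .nil)) .nil)) .leaf) (nat_lit 24672070416304808) (.br (nat_lit 0) (.cons (.br (nat_lit 1) (.cons (.rel (nat_lit 23069700)) .nil)) .nil)) (.node .leaf (nat_lit 24672070416305414) (.br (nat_lit 0) (.cons (.br (nat_lit 2) (.cons (.rel (nat_lit 71305233)) .nil)) .nil)) .leaf))))) (nat_lit 24672070416305438) (.br (nat_lit 0) (.cons (.br (nat_lit 2) (.cons (.rel (nat_lit 72613908)) (.cons (.rel (nat_lit 71451648)) .nil))) .nil)) (.node (.node (.node (.node (.node (.node .leaf (nat_lit 24672070416319774) (.br (nat_lit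 6) (.cons (.br (nat_lit 1) (.cons (.rel (nat_lit 34376515590)) (.cons (.rel (nat_lit 34376516640)) .nil))) .nil)) .leaf) (nat_lit 24672070417496114) (.br (nat_lit 0) (.cons (.br (nat_lit 3) (.cons (.rel (nat_lit 543178752)) (.cons (.rel (nat_lit 272703492)) .nil))) .nil)) .leaf) (nat_lit 24672070417545242) (.br (nat_lit 1) (.cons (.br (nat_lit 2) (.cons (.rel (nat_lit 151259136)) .nil)) .nil)) (.node .leaf (nat_lit 24672070417545266) (.br (nat_lit 3) (.cons (.br (nat_lit 1) (.cons (.rel (nat_lit 285217044)) (.cons (.rel (nat_lit 285220872)) .nil))) .nil)) .leaf)) (nat_lit 24672070417545896) (.br (nat_lit 2) (.cons (.br (nat_lit 3) (.cons (.rel (nat_lit 336593424)) (.cons (.rel (nat_lit 335544657)) .nil))) .nil)) (.node (.node .leaf (nat_lit 24672070417545968) (.br (nat_lit 0) (.cons (.br (nat_lit 1) (.cons (.rel (nat_lit 22024512)) .nil)) .nil)) .leaf) (nat_lit 24672070417546502) (.br (nat_lit 0) (.cons (.br (nat_lit 2) (.cons (.rel (nat_lit 71303178)) .nil)) .nil)) (.node .leaf (nat_lit 24672070417546526)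 (.br (nat_lit 1) (.cons (.br (nat_lit 3) (.cons (.rel (nat_lit 285294594)) (.cons (.rel (nat_lit 553910277)) .nil))) (.cons (.br (nat_lit 3) (.cons (.rel (nat_lit 285217044)) (.cons (.rel (nat_lit 285220872)) .nil))) .nil))) .leaf))) (nat_lit 24672070417594394) (.br (nat_lit 0) (.cons (.br (nat_lit 2) (.cons (.rel (nat_lit 139460688)) .nil)) .nil)) (.node (.node (.node .leaf (nat_lit 24672070417595024) (.br (nat_lit 0) (.cons (.br (nat_lit 1) (.cons (.rel (nat_lit 37766145)) (.cons (.rel (nat_lit 25166337)) .nil))) (.cons (.br (nat_lit 1) (.cons (.rel (nat_lit 37753872)) (.cons (.rel (nat_lit 21381120)) .nil))) .nil))) .leaf) (nat_lit 24672070417595048) (.br (nat_lit 0) (.cons (.br (nat_lit 4) (.cons (.rel (nat_lit 1078215696)) .nil)) .nil)) (.node .leaf (nat_lit 24672070417595654) (.br (nat_lit 0) (.cons (.br (nat_lit 5) (.cons (.rel (nat_lit 4299162132)) (.cons (.rel (nat_lit 4299244560)) (.cons (.rel (nat_lit 8598327312)) .nil)))) .nil)) .leaf)) (nat_lit 24672070417595678) (.br (nat_lit 0)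 (.cons (.br (nat_lit 1) (.cons (.rel (nat_lit 25166337)) (.cons (.rel (nat_lit 21234705)) .nil))) .nil)) (.node (.node .leaf (nat_lit 24672070418509879) (.br (nat_lit 3) (.cons (.br (nat_lit 4) (.cons (.rel (nat_lit 1342177305)) .nil)) .nil)) .leaf) (nat_lit 24672070418510576) (.br (nat_lit 0) (.cons (.br (nat_lit 1) (.cons (.rel (nat_lit 25432128)) .nil)) .nil)) (.node .leaf (nat_lit 24672070418511134) (.br (nat_lit 6) (.cons (.br (nat_lit 0) (.cons (.rel (nat_lit 17188323588)) (.cons (.rel (nat_lit 34363932933)) .nil))) .nil)) .leaf)))) (nat_lit 24672070418568478) (.br (nat_lit 0) (.cons (.br (nat_lit 2) (.cons (.rel (nat_lit 71304228)) (.cons (.rel (nat_lit 71305233)) .nil))) (.cons (.br (nat_lit 1) (.cons (.rel (nat_lit 25183488)) (.cons (.rel (nat_lit 37748994)) (.cons (.rel (nat_lit 21234705)) .nil)))) .nil))) (.node (.node (.node (.node .leaf (nat_lit 24672070418755610) (.br (nat_lit 0) (.cons (.br (nat_lit 2) (.cons (.rel (nat_lit 72613908)) .nil)) .nil)) .leaf) (nat_lit 24672070418804786)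 (.br (nat_lit 2) (.cons (.br (nat_lit 1) (.cons (.rel (nat_lit 153092112)) (.cons (.rel (nat_lit 101188608)) .nil))) .nil)) (.node .leaf (nat_lit 24672070418805416) (.br (nat_lit 0) (.cons (.br (nat_lit 4) (.cons (.rel (nat_lit 1077956736)) .nil)) .nil)) .leaf)) (nat_lit 24672070418806022) (.br (nat_lit 2) (.cons (.br (nat_lit 0) (.cons (.rel (nat_lit 71305233)) (.cons (.rel (nat_lit 71305233)) .nil))) .nil)) (.node (.node .leaf (nat_lit 24672070418806046) (.br (nat_lit 1) (.cons (.br (nat_lit 4) (.cons (.rel (nat_lit 1107298560)) (.cons (.rel (nat_lit 1107362832)) (.cons (.rel (nat_lit 1107312642)) .nil)))) .nil)) .leaf) (nat_lit 24672070418853914) (.br (nat_lit 0) (.cons (.br (nat_lit 2) (.cons (.rel (nat_lit 71434497)) .nil)) .nil)) (.node .leaf (nat_lit 24672070418853938) (.br (nat_lit 0) (.cons (.br (nat_lit 2) (.cons (.rel (nat_lit 72613908)) .nil)) .nil)) .leaf))) (nat_lit 24672070418854544) (.br (nat_lit 0) (.cons (.br (nat_lit 1) (.cons (.rel (nat_lit 22024512)) .nil)) .nil)) (.node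 (.node (.node .leaf (nat_lit 24672070516918928) (.br (nat_lit 0) (.cons (.br (nat_lit 1) (.cons (.rel (nat_lit 21234705)) .nil)) .nil)) .leaf) (nat_lit 24672070516918952) (.br (nat_lit 0) (.cons (.br (nat_lit 2) (.cons (.rel (nat_lit 71305233)) .nil)) .nil)) (.node .leaf (nat_lit 24672070516919582) (.br (nat_lit 0) (.cons (.br (nat_lit 1) (.cons (.rel (nat_lit 21234705)) .nil)) .nil)) .leaf)) (nat_lit 24672070516967474) (.br (nat_lit 0) (.cons (.br (nat_lit 1) (.cons (.rel (nat_lit 25183488)) .nil)) .nil)) (.node (.node .leaf (nat_lit 24672070516968056) (.br (nat_lit 0) (.cons (.br (nat_lit 2) (.cons (.rel (nat_lit 142606341)) .nil)) .nil)) .leaf) (nat_lit 24672070516968080) (.br (nat_lit 0) (.cons (.br (nat_lit 1) (.cons (.rel (nat_lit 22024512)) .nil)) .nil)) (.node .leaf (nat_lit 24672070518159410) (.br (nat_lit 0) (.cons (.br (nat_lit 1) (.cons (.rel (nat_lit 21233700)) .nil)) .nil)) .leaf)))))) (nat_lit 24672070518159991) (.br (nat_lit 0) (.cons (.br (nat_lit 4) (.cons (.rel (nat_lit 1078204440))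 .nil)) .nil)) (.node (.node (.node (.node (.node (.node (.node .leaf (nat_lit 24672070518159992) (.br (nat_lit 1) (.cons (.br (nat_lit 0) (.cons (.rel (nat_lit 37748994)) (.cons (.rel (nat_lit 22024512)) .nil))) .nil)) .leaf) (nat_lit 24672070518160016) (.br (nat_lit 2) (.cons (.br (nat_lit 1) (.cons (.rel (nat_lit 167837697)) (.cons (.rel (nat_lit 153092112)) (.cons (.rel (nat_lit 84017154)) .nil)))) .nil)) .leaf) (nat_lit 24672070518160646) (.br (nat_lit 3) (.cons (.br (nat_lit 0) (.cons (.rel (nat_lit 273023040)) (.cons (.rel (nat_lit 545259537)) (.cons (.rel (nat_lit 273940488)) (.cons (.rel (nat_lit 543178752)) .nil))))) .nil)) (.node .leaf (nat_lit 24672070518160670) (.br (nat_lit 0) (.cons (.br (nat_lit 2) (.cons (.rel (nat_lit 142606341)) .nil)) .nil)) .leaf)) (nat_lit 24672070518209144) (.br (nat_lit 0) (.cons (.br (nat_lit 1) (.cons (.rel (nat_lit 37748994)) .nil)) .nil)) (.node (.node .leaf (nat_lit 24672070518209192) (.br (nat_lit 0) (.cons (.br (nat_lit 2) (.cons (.rel (nat_lit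 139460688)) .nil)) .nil)) .leaf) (nat_lit 24672070518209798) (.br (nat_lit 0) (.cons (.br (nat_lit 1) (.cons (.rel (nat_lit 20975745)) .nil)) .nil)) (.node .leaf (nat_lit 24672070518257714) (.br (nat_lit 0) (.cons (.br (nat_lit 1) (.cons (.rel (nat_lit 22544385)) .nil)) .nil)) .leaf))) (nat_lit 24672070518258320) (.br (nat_lit 0) (.cons (.br (nat_lit 1) (.cons (.rel (nat_lit 20975745)) .nil)) .nil)) (.node (.node (.node .leaf (nat_lit 24672070518258344) (.br (nat_lit 0) (.cons (.br (nat_lit 4) (.cons (.rel (nat_lit 2151678978)) .nil)) .nil)) .leaf) (nat_lit 24672070519418906) (.br (nat_lit 1) (.cons (.br (nat_lit 5) (.cons (.rel (nat_lit 4311745794)) (.cons (.rel (nat_lit 4311744789)) (.cons (.rel (nat_lit 4328538192)) .nil)))) .nil)) (.node .leaf (nat_lit 24672070519419512) (.br (nat_lit 0) (.cons (.br (nat_lit 1) (.cons (.rel (nat_lit 37748994)) .nil)) .nil)) .leaf)) (nat_lit 24672070519420142) (.br (nat_lit 0) (.cons (.br (nat_lit 2) (.cons (.rel (nat_lit 72613908)) .nil)) .nil)) (.node (.node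 .leaf (nat_lit 24672070519420166) (.br (nat_lit 2) (.cons (.br (nat_lit 1) (.cons (.rel (nat_lit 153092112)) (.cons (.rel (nat_lit 84017154)) .nil))) .nil)) .leaf) (nat_lit 24672070519468034) (.br (nat_lit 0) (.cons (.br (nat_lit 1) (.cons (.rel (nat_lit 23069700)) .nil)) .nil)) (.node .leaf (nat_lit 24672070519468082) (.br (nat_lit 0) (.cons (.br (nat_lit 4) (.cons (.rel (nat_lit 1080033540)) .nil)) .nil)) .leaf)))) (nat_lit 24672070519469318) (.br (nat_lit 1) (.cons (.br (nat_lit 2) (.cons (.rel (nat_lit 153092112)) .nil)) .nil)) (.node (.node (.node (.node .leaf (nat_lit 24672070519517210) (.br (nat_lit 0) (.cons (.br (nat_lit 1) (.cons (.rel (nat_lit 20975745)) .nil)) .nil)) .leaf) (nat_lit 24672070519517234) (.br (nat_lit 0) (.cons (.br (nat_lit 1) (.cons (.rel (nat_lit 21381120)) .nil)) .nil)) (.node .leaf (nat_lit 24672070519518470) (.br (nat_lit 0) (.cons (.br (nat_lit 2) (.cons (.rel (nat_lit 71305233)) .nil)) .nil)) .leaf)) (nat_lit 24672070519518494) (.br (nat_lit 0) (.cons (.br (nat_lit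 1) (.cons (.rel (nat_lit 20975745)) .nil)) .nil)) (.node (.node .leaf (nat_lit 24672073096415864) (.br (nat_lit 0) (.cons (.br (nat_lit 4) (.cons (.rel (nat_lit 1078198545)) (.cons (.rel (nat_lit 1082131476)) (.cons (.rel (nat_lit 2151677973)) .nil)))) .nil)) .leaf) (nat_lit 24672073096415888) (.br (nat_lit 0) (.cons (.br (nat_lit 1) (.cons (.rel (nat_lit 25166337)) .nil)) .nil)) (.node .leaf (nat_lit 24672073096415912) (.br (nat_lit 0) (.cons (.br (nat_lit 1) (.cons (.rel (nat_lit 25166337)) (.cons (.rel (nat_lit 25166337)) .nil))) .nil)) .leaf))) (nat_lit 24672073096416494) (.br (nat_lit 0) (.cons (.br (nat_lit 2) (.cons (.rel (nat_lit 138690561)) .nil)) .nil)) (.node (.node (.node .leaf (nat_lit 24672073096416542) (.br (nat_lit 0) (.cons (.br (nat_lit 1) (.cons (.rel (nat_lit 21038208)) (.cons (.rel (nat_lit 25166337)) .nil))) .nil)) .leaf) (nat_lit 24672073096465670) (.br (nat_lit 0) (.cons (.br (nat_lit 2) (.cons (.rel (nat_lit 71305233)) .nil)) .nil)) (.node .leaf (nat_lit 24672073097656370)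 (.br (nat_lit 0) (.cons (.br (nat_lit 1) (.cons (.rel (nat_lit 21233700)) .nil)) .nil)) .leaf)) (nat_lit 24672073097656976) (.br (nat_lit 0) (.cons (.br (nat_lit 1) (.cons (.rel (nat_lit 37753872)) (.cons (.rel (nat_lit 22544385)) .nil))) .nil)) (.node (.node .leaf (nat_lit 24672073097705498) (.br (nat_lit 0) (.cons (.br (nat_lit 1) (.cons (.rel (nat_lit 21381120)) .nil)) .nil)) .leaf) (nat_lit 24672073097706104) (.br (nat_lit 0) (.cons (.br (nat_lit 1) (.cons (.rel (nat_lit 37748994)) .nil)) .nil)) (.node .leaf (nat_lit 24672073097755910) (.br (nat_lit 0) (.cons (.br (nat_lit 2) (.cons (.rel (nat_lit 71369220)) .nil)) .nil)) .leaf))))) (nat_lit 24672073098915866) (.br (nat_lit 1) (.cons (.br (nat_lit 5) (.cons (.rel (nat_lit 4311745794)) (.cons (.rel (nat_lit 4311744789)) (.cons (.rel (nat_lit 4328538192)) .nil)))) .nil)) (.node (.node (.node (.node (.node .leaf (nat_lit 24672073098917126) (.br (nat_lit 0) (.cons (.br (nat_lit 2) (.cons (.br (nat_lit 1) (.cons (.rel (nat_lit 153092112)) (.cons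 (.rel (nat_lit 25296900)) .nil))) .nil)) .nil)) .leaf) (nat_lit 24672073098917150) (.br (nat_lit 0) (.cons (.br (nat_lit 1) (.cons (.rel (nat_lit 22544385)) .nil)) .nil)) (.node .leaf (nat_lit 24672073099015430) (.br (nat_lit 0) (.cons (.br (nat_lit 2) (.cons (.rel (nat_lit 71305233)) .nil)) .nil)) .leaf)) (nat_lit 24672074087032210) (.br (nat_lit 0) (.cons (.br (nat_lit 3) (.cons (.rel (nat_lit 277905408)) .nil)) .nil)) (.node (.node .leaf (nat_lit 24672074087562001) (.br (nat_lit 0) (.cons (.br (nat_lit 1) (.cons (.rel (nat_lit 26214528)) .nil)) .nil)) .leaf) (nat_lit 24672075738323204) (.br (nat_lit 1) (.cons (.br (nat_lit 2) (.cons (.rel (nat_lit 84017154)) .nil)) .nil)) (.node .leaf (nat_lit 24672075738774161) (.br (nat_lit 0) (.cons (.br (nat_lit 3) (.cons (.rel (nat_lit 272711937)) .nil)) .nil)) .leaf))) (nat_lit 24672075738875930) (.br (nat_lit 2) (.cons (.br (nat_lit 5) (.cons (.rel (nat_lit 8657044752)) .nil)) .nil)) (.node (.node (.node .leaf (nat_lit 24672075738875954) (.br (nat_lit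 0) (.cons (.br (nat_lit 1) (.cons (.rel (nat_lit 21381120)) .nil)) .nil)) .leaf) (nat_lit 24672075738876536) (.br (nat_lit 0) (.cons (.br (nat_lit 2) (.cons (.rel (nat_lit 142606341)) .nil)) .nil)) (.node .leaf (nat_lit 24672075740065818) (.br (nat_lit 0) (.cons (.br (nat_lit 1) (.cons (.rel (nat_lit 25247760)) .nil)) .nil)) .leaf)) (nat_lit 24672075740067890) (.br (nat_lit 1) (.cons (.br (nat_lit 2) (.cons (.rel (nat_lit 153092112)) .nil)) .nil)) (.node (.node .leaf (nat_lit 24672075740068496) (.br (nat_lit 2) (.cons (.br (nat_lit 1) (.cons (.rel (nat_lit 167772420)) (.cons (.rel (nat_lit 153092112)) .nil))) .nil)) .leaf) (nat_lit 24672075740117042) (.br (nat_lit 0) (.cons (.br (nat_lit 1) (.cons (.rel (nat_lit 37748994)) (.cons (.rel (nat_lit 21233700)) .nil))) .nil)) (.node .leaf (nat_lit 24672075740117624) (.br (nat_lit 1) (.cons (.br (nat_lit 2) (.cons (.rel (nat_lit 153092112)) .nil)) .nil)) .leaf)))) (nat_lit 24672075740118254) (.br (nat_lit 0) (.cons (.br (nat_lit 2) (.cons (.rel (nat_lit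 71304228)) .nil)) .nil)) (.node (.node (.node (.node .leaf (nat_lit 24672075740118278) (.br (nat_lit 1) (.cons (.br (nat_lit 2) (.cons (.rel (nat_lit 83886600)) .nil)) .nil)) .leaf) (nat_lit 24672075740118302) (.br (nat_lit 1) (.cons (.br (nat_lit 0) (.cons (.rel (nat_lit 22544385)) (.cons (.rel (nat_lit 21242112)) (.cons (.rel (nat_lit 20975745)) .nil)))) (.cons (.br (nat_lit 0) (.cons (.rel (nat_lit 25166337)) (.cons (.rel (nat_lit 37748994)) (.cons (.br (nat_lit 3) (.cons (.rel (nat_lit 285217044)) (.cons (.rel (nat_lit 285220872)) (.cons (.rel (nat_lit 277905408)) .nil)))) .nil)))) .nil))) (.node .leaf (nat_lit 24672075740166170) (.br (nat_lit 2) (.cons (.br (nat_lit 0) (.cons (.rel (nat_lit 72613908)) (.cons (.br (nat_lit 4) (.cons (.rel (nat_lit 1140851730)) (.cons (.rel (nat_lit 1212153888)) .nil))) .nil))) .nil)) .leaf)) (nat_lit 24672075740166194) (.br (nat_lit 2) (.cons (.br (nat_lit 4) (.cons (.br (nat_lit 0) (.cons (.rel (nat_lit 1079525376)) (.cons (.rel (nat_lit 2222981136)) .nil)))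 .nil)) .nil)) (.node (.node .leaf (nat_lit 24672075740166824) (.br (nat_lit 2) (.cons (.br (nat_lit 4) (.cons (.rel (nat_lit 1140851730)) .nil)) .nil)) .leaf) (nat_lit 24672075740167430) (.br (nat_lit 0) (.cons (.br (nat_lit 3) (.cons (.rel (nat_lit 272631813)) (.cons (.rel (nat_lit 272654352)) .nil))) (.cons (.br (nat_lit 3) (.cons (.rel (nat_lit 272631813)) (.cons (.rel (nat_lit 273023040)) .nil))) .nil))) (.node .leaf (nat_lit 24672075740167454) (.br (nat_lit 0) (.cons (.br (nat_lit 6) (.cons (.rel (nat_lit 17184325665)) (.cons (.rel (nat_lit 17184325665)) (.cons (.rel (nat_lit 17188388865)) .nil)))) .nil)) .leaf))) (nat_lit 24672075741327386) (.br (nat_lit 1) (.cons (.br (nat_lit 0) (.cons (.rel (nat_lit 37748994)) (.cons (.rel (nat_lit 37753872)) (.cons (.rel (nat_lit 43024656)) .nil)))) .nil)) (.node (.node (.node .leaf (nat_lit 24672075741328646) (.br (nat_lit 1) (.cons (.br (nat_lit 2) (.cons (.rel (nat_lit 153092112)) .nil)) .nil)) .leaf) (nat_lit 24672075741425690) (.br (nat_lit 0)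 (.cons (.br (nat_lit 2) (.cons (.rel (nat_lit 71304228)) .nil)) .nil)) (.node .leaf (nat_lit 24672075741425714) (.br (nat_lit 0) (.cons (.br (nat_lit 3) (.cons (.rel (nat_lit 273940488)) (.cons (.rel (nat_lit 545259537)) .nil))) .nil)) .leaf)) (nat_lit 24672075741426320) (.br (nat_lit 0) (.cons (.br (nat_lit 2) (.cons (.rel (nat_lit 139460688)) .nil)) .nil)) (.node (.node .leaf (nat_lit 24672075741426950) (.br (nat_lit 0) (.cons (.br (nat_lit 2) (.cons (.rel (nat_lit 71305233)) .nil)) .nil)) .leaf) (nat_lit 24672075741426974) (.br (nat_lit 0) (.cons (.br (nat_lit 1) (.cons (.rel (nat_lit 20975745)) .nil)) .nil)) (.node .leaf (nat_lit 24672076054691102) (.br (nat_lit 2) (.cons (.br (nat_lit 3) (.cons (.rel (nat_lit 336593424)) .nil)) .nil)) .leaf)))))))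

/-- refutations 155 -/
def e155 : EX := (.node (.node (.node (.node (.node (.node .leaf (nat_lit 24674990994081054) (.br (nat_lit 0) (.cons (.br (nat_lit 3) (.cons (.rel (nat_lit 272629794)) .nil)) .nil)) .leaf) (nat_lit 24676326184805627) (.br (nat_lit 1) (.cons (.br (nat_lit 2) (.cons (.rel (nat_lit 167772420)) .nil)) .nil)) (.node .leaf (nat_lit 24676360042263838) (.br (nat_lit 0) (.cons (.br (nat_lit 1) (.cons (.rel (nat_lit 39845952)) .nil)) .nil)) .leaf)) (nat_lit 24677353226029736) (.br (nat_lit 0) (.cons (.br (nat_lit 3) (.cons (.rel (nat_lit 541327620)) (.cons (.rel (nat_lit 272703492)) (.cons (.rel (nat_lit 545259537)) .nil)))) (.cons (.br (nat_lit 2) (.cons (.rel (nat_lit 71303178)) (.cons (.rel (nat_lit 71369220)) .nil))) .nil))) (.node (.node .leaf (nat_lit 24677353226030366) (.br (nat_lit 0) (.cons (.br (nat_lit 3) (.cons (.rel (nat_lit 541327620)) (.cons (.rel (nat_lit 545259537)) (.cons (.rel (nat_lit 272646660)) .nil)))) .nil)) .leaf) (nat_lit 24677353226078888) (.br (nat_lit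 0) (.cons (.br (nat_lit 2) (.cons (.rel (nat_lit 71369220)) .nil)) .nil)) .leaf)) (nat_lit 24677353226079494) (.br (nat_lit 0) (.cons (.br (nat_lit 2) (.cons (.rel (nat_lit 71305233)) .nil)) .nil)) (.node (.node (.node .leaf (nat_lit 24677353227319322) (.br (nat_lit 0) (.cons (.br (nat_lit 1) (.cons (.rel (nat_lit 23134740)) .nil)) .nil)) .leaf) (nat_lit 24677353227319346) (.br (nat_lit 0) (.cons (.br (nat_lit 3) (.cons (.rel (nat_lit 272646660)) .nil)) .nil)) (.node .leaf (nat_lit 24677353227319976) (.br (nat_lit 2) (.cons (.br (nat_lit 3) (.cons (.rel (nat_lit 336593424)) .nil)) .nil)) .leaf)) (nat_lit 24677353227320606) (.br (nat_lit 2) (.cons (.br (nat_lit 3) (.cons (.rel (nat_lit 336593424)) .nil)) .nil)) (.node (.node .leaf (nat_lit 24677353227369104) (.br (nat_lit 2) (.cons (.br (nat_lit 0) (.cons (.br (nat_lit 1) (.cons (.rel (nat_lit 37748994)) (.cons (.rel (nat_lit 153092112)) .nil))) (.cons (.rel (nat_lit 71305233)) .nil))) .nil)) .leaf) (nat_lit 24677353227369710) (.br (nat_lit 0)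 (.cons (.br (nat_lit 2) (.cons (.rel (nat_lit 71376912)) .nil)) .nil)) .leaf))) (nat_lit 24677353227369758) (.br (nat_lit 0) (.cons (.br (nat_lit 1) (.cons (.rel (nat_lit 25166337)) .nil)) .nil)) (.node (.node (.node (.node .leaf (nat_lit 24677353228579448) (.br (nat_lit 0) (.cons (.br (nat_lit 4) (.cons (.rel (nat_lit 1078198545)) .nil)) .nil)) .leaf) (nat_lit 24677353228580126) (.br (nat_lit 2) (.cons (.br (nat_lit 5) (.cons (.br (nat_lit 4) (.cons (.rel (nat_lit 5368725780)) (.cons (.rel (nat_lit 1140850725)) .nil))) .nil)) .nil)) (.node .leaf (nat_lit 24677353228627994) (.br (nat_lit 0) (.cons (.br (nat_lit 2) (.cons (.rel (nat_lit 71434497)) .nil)) .nil)) .leaf)) (nat_lit 24677353228628624) (.br (nat_lit 0) (.cons (.br (nat_lit 2) (.cons (.rel (nat_lit 71451648)) .nil)) .nil)) (.node (.node .leaf (nat_lit 24677353228629278) (.br (nat_lit 0) (.cons (.br (nat_lit 2) (.cons (.rel (nat_lit 71369220)) .nil)) .nil)) .leaf) (nat_lit 24677353326643856) (.br (nat_lit 0) (.cons (.br (nat_lit 2) (.cons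 (.rel (nat_lit 142606341)) .nil)) .nil)) .leaf)) (nat_lit 24677353326644486) (.br (nat_lit 2) (.cons (.br (nat_lit 1) (.cons (.rel (nat_lit 83886600)) (.cons (.rel (nat_lit 84017154)) (.cons (.rel (nat_lit 153092112)) .nil)))) .nil)) (.node (.node (.node .leaf (nat_lit 24677353327933466) (.br (nat_lit 1) (.cons (.br (nat_lit 0) (.cons (.rel (nat_lit 25166337)) (.cons (.rel (nat_lit 21233700)) .nil))) .nil)) .leaf) (nat_lit 24677353327934096) (.br (nat_lit 0) (.cons (.br (nat_lit 2) (.cons (.br (nat_lit 1) (.cons (.rel (nat_lit 153092112)) (.cons (.rel (nat_lit 21233700)) .nil))) .nil)) .nil)) (.node .leaf (nat_lit 24677353327934702) (.br (nat_lit 0) (.cons (.br (nat_lit 1) (.cons (.rel (nat_lit 25166337)) .nil)) .nil)) .leaf)) (nat_lit 24677353327934726) (.br (nat_lit 0) (.cons (.br (nat_lit 3) (.cons (.rel (nat_lit 272631813)) (.cons (.rel (nat_lit 272629794)) (.cons (.rel (nat_lit 273023040)) .nil)))) .nil)) (.node (.node .leaf (nat_lit 24677353327983878) (.br (nat_lit 0) (.cons (.br (nat_lit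 2) (.cons (.rel (nat_lit 142606341)) .nil)) .nil)) .leaf) (nat_lit 24677353329243374) (.br (nat_lit 0) (.cons (.br (nat_lit 2) (.cons (.rel (nat_lit 71304228)) .nil)) .nil)) .leaf)))) (nat_lit 24677355906140186) (.br (nat_lit 0) (.cons (.br (nat_lit 2) (.cons (.rel (nat_lit 71305233)) .nil)) .nil)) (.node (.node (.node (.node (.node .leaf (nat_lit 24677355906141422) (.br (nat_lit 2) (.cons (.br (nat_lit 0) (.cons (.rel (nat_lit 71320080)) (.cons (.rel (nat_lit 71304228)) .nil))) .nil)) .leaf) (nat_lit 24677355906141446) (.br (nat_lit 0) (.cons (.br (nat_lit 1) (.cons (.rel (nat_lit 37748994)) (.cons (.rel (nat_lit 25296900)) .nil))) .nil)) (.node .leaf (nat_lit 24677355906189944) (.br (nat_lit 0) (.cons (.br (nat_lit 4) (.cons (.rel (nat_lit 1082131476)) (.cons (.rel (nat_lit 1078198545)) .nil))) .nil)) .leaf)) (nat_lit 24677355906189968) (.br (nat_lit 1) (.cons (.br (nat_lit 2) (.cons (.rel (nat_lit 151259136)) .nil)) .nil)) (.node (.node .leaf (nat_lit 24677355906190574) (.br (nat_lit 0) (.cons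 (.br (nat_lit 1) (.cons (.rel (nat_lit 37748994)) .nil)) .nil)) .leaf) (nat_lit 24677355906190622) (.br (nat_lit 0) (.cons (.br (nat_lit 2) (.cons (.rel (nat_lit 71320080)) .nil)) .nil)) .leaf)) (nat_lit 24677355906238514) (.br (nat_lit 0) (.cons (.br (nat_lit 2) (.cons (.rel (nat_lit 71305233)) .nil)) .nil)) (.node (.node (.node .leaf (nat_lit 24677355906239144) (.br (nat_lit 0) (.cons (.br (nat_lit 3) (.cons (.rel (nat_lit 273023040)) (.cons (.rel (nat_lit 272729088)) (.cons (.rel (nat_lit 541392897)) .nil)))) .nil)) .leaf) (nat_lit 24677355906239750) (.br (nat_lit 0) (.cons (.br (nat_lit 2) (.cons (.rel (nat_lit 71320080)) .nil)) .nil)) (.node .leaf (nat_lit 24677355906239774) (.br (nat_lit 0) (.cons (.br (nat_lit 1) (.cons (.rel (nat_lit 37748994)) .nil)) .nil)) .leaf)) (nat_lit 24677355906243240) (.br (nat_lit 0) (.cons (.br (nat_lit 3) (.cons (.rel (nat_lit 272631813)) .nil)) .nil)) (.node (.node .leaf (nat_lit 24677355907529360) (.br (nat_lit 0) (.cons (.br (nat_lit 2) (.cons (.rel (nat_lit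 71305233)) .nil)) .nil)) .leaf) (nat_lit 24677355908740334) (.br (nat_lit 0) (.cons (.br (nat_lit 2) (.cons (.rel (nat_lit 71304228)) .nil)) .nil)) .leaf))) (nat_lit 24677358548551706) (.br (nat_lit 0) (.cons (.br (nat_lit 2) (.cons (.rel (nat_lit 71320080)) (.cons (.rel (nat_lit 71303178)) .nil))) (.cons (.br (nat_lit 1) (.cons (.br (nat_lit 2) (.cons (.rel (nat_lit 153092112)) (.cons (.rel (nat_lit 101711904)) .nil))) (.cons (.rel (nat_lit 21381120)) (.cons (.rel (nat_lit 21233700)) .nil)))) .nil))) (.node (.node (.node (.node .leaf (nat_lit 24677358548552312) (.br (nat_lit 0) (.cons (.br (nat_lit 2) (.cons (.rel (nat_lit 71320080)) .nil)) .nil)) .leaf) (nat_lit 24677358548552336) (.br (nat_lit 2) (.cons (.br (nat_lit 3) (.cons (.br (nat_lit 0) (.cons (.rel (nat_lit 71320080)) (.cons (.rel (nat_lit 273023040)) .nil))) .nil)) .nil)) (.node .leaf (nat_lit 24677358548552966) (.br (nat_lit 0) (.cons (.br (nat_lit 2) (.cons (.rel (nat_lit 71305233)) .nil)) .nil)) .leaf)) (nat_lit 24677358549841946)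 (.br (nat_lit 1) (.cons (.br (nat_lit 2) (.cons (.rel (nat_lit 83886600)) .nil)) .nil)) (.node (.node .leaf (nat_lit 24677358549842576) (.br (nat_lit 0) (.cons (.br (nat_lit 2) (.cons (.rel (nat_lit 71305233)) .nil)) .nil)) .leaf) (nat_lit 24677358549843206) (.br (nat_lit 1) (.cons (.br (nat_lit 5) (.cons (.rel (nat_lit 4311761940)) (.cons (.rel (nat_lit 4328538192)) .nil))) .nil)) .leaf)) (nat_lit 24677358549891122) (.br (nat_lit 0) (.cons (.br (nat_lit 2) (.cons (.rel (nat_lit 71320080)) .nil)) .nil)) (.node (.node (.node .leaf (nat_lit 24677358549891704) (.br (nat_lit 0) (.cons (.br (nat_lit 2) (.cons (.rel (nat_lit 71305233)) .nil)) .nil)) .leaf) (nat_lit 24677358551151854) (.br (nat_lit 0) (.cons (.br (nat_lit 2) (.cons (.rel (nat_lit 71304228)) .nil)) .nil)) .leaf) (nat_lit 24677358551199770) (.br (nat_lit 0) (.cons (.br (nat_lit 2) (.cons (.rel (nat_lit 71304228)) .nil)) .nil)) (.node (.node .leaf (nat_lit 24677358551201030) (.br (nat_lit 0) (.cons (.br (nat_lit 2) (.cons (.rel (nat_lit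 71305233)) .nil)) .nil)) .leaf) (nat_lit 24677358551201054) (.br (nat_lit 0) (.cons (.br (nat_lit 2) (.cons (.rel (nat_lit 71434497)) .nil)) .nil)) .leaf)))))

/-- refutations 156 -/
def e156 : EX := (.node (.node (.node .leaf (nat_lit 24734937384319106) (.br (nat_lit 0) (.cons (.br (nat_lit 1) (.cons (.rel (nat_lit 23069700)) .nil)) .nil)) .leaf) (nat_lit 24734937385599101) (.br (nat_lit 0) (.cons (.br (nat_lit 4) (.cons (.rel (nat_lit 2151678978)) .nil)) .nil)) (.node .leaf (nat_lit 24734937386100991) (.br (nat_lit 2) (.cons (.br (nat_lit 5) (.cons (.rel (nat_lit 4429189377)) .nil)) .nil)) .leaf)) (nat_lit 24734937386101516) (.br (nat_lit 0) (.cons (.br (nat_lit 1) (.cons (.rel (nat_lit 37753872)) .nil)) .nil)) (.node (.node .leaf (nat_lit 24740220193325337) (.br (nat_lit 1) (.cons (.br (nat_lit 2) (.cons (.rel (nat_lit 83890464)) .nil)) .nil)) .leaf) (nat_lit 24740220195813657) (.br (nat_lit 0) (.cons (.br (nat_lit 3) (.cons (.rel (nat_lit 272629794)) .nil)) .nil)) (.node .leaf (nat_lit 24740286300392830)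 (.br (nat_lit 0) (.cons (.br (nat_lit 5) (.cons (.rel (nat_lit 4299180288)) .nil)) .nil)) .leaf)))

/-- refutations 157 -/
def e157 : EX := (.node (.node (.node .leaf (nat_lit 24741585992567464) (.br (nat_lit 1) (.cons (.br (nat_lit 2) (.cons (.rel (nat_lit 83890464)) (.cons (.rel (nat_lit 151259136)) (.cons (.rel (nat_lit 83890464)) .nil)))) .nil)) .leaf) (nat_lit 24741585992657177) (.br (nat_lit 0) (.cons (.br (nat_lit 3) (.cons (.rel (nat_lit 545259537)) .nil)) .nil)) (.node .leaf (nat_lit 24741585992925465) (.br (nat_lit 1) (.cons (.br (nat_lit 6) (.cons (.rel (nat_lit 17196913920)) .nil)) .nil)) .leaf)) (nat_lit 24741585992925964) (.br (nat_lit 1) (.cons (.br (nat_lit 6) (.cons (.rel (nat_lit 34376516640)) .nil)) .nil)) (.node (.node .leaf (nat_lit 24741585993621785) (.br (nat_lit 3) (.cons (.br (nat_lit 6) (.cons (.rel (nat_lit 34896610560)) .nil)) .nil)) .leaf) (nat_lit 24741585995476454) (.br (nat_lit 0) (.cons (.br (nat_lit 3) (.cons (.rel (nat_lit 545259537)) .nil)) .nil)) .leaf))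

/-- refutations 158 -/
def e158 : EX := (.node (.node (.node (.node .leaf (nat_lit 24805245997568281) (.br (nat_lit 1) (.cons (.br (nat_lit 6) (.cons (.rel (nat_lit 17198776320)) .nil)) .nil)) .leaf) (nat_lit 24805245997568780) (.br (nat_lit 1) (.cons (.br (nat_lit 4) (.cons (.br (nat_lit 3) (.cons (.rel (nat_lit 1342178310)) (.cons (.rel (nat_lit 1342179360)) .nil))) (.cons (.rel (nat_lit 1090519428)) .nil))) (.cons (.br (nat_lit 3) (.cons (.br (nat_lit 4) (.cons (.rel (nat_lit 1342178310)) (.cons (.rel (nat_lit 2684355600)) .nil))) (.cons (.br (nat_lit 4) (.cons (.rel (nat_lit 1342179360)) (.cons (.rel (nat_lit 1342210308)) .nil))) .nil))) .nil))) .leaf) (nat_lit 24805245998828300) (.br (nat_lit 4) (.cons (.br (nat_lit 6) (.cons (.rel (nat_lit 18253873176)) (.cons (.rel (nat_lit 18253877760)) .nil))) .nil)) (.node .leaf (nat_lit 24805246000386329) (.br (nat_lit 1) (.cons (.br (nat_lit 5) (.cons (.rel (nat_lit 8623505664)) .nil)) .nil)) .leaf)) (nat_lit 24806334874215686) (.br (nat_lit 1)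 (.cons (.br (nat_lit 2) (.cons (.rel (nat_lit 83906565)) .nil)) .nil)) (.node (.node .leaf (nat_lit 24810583699459578) (.br (nat_lit 2) (.cons (.br (nat_lit 3) (.cons (.rel (nat_lit 402654225)) .nil)) .nil)) .leaf) (nat_lit 24810583700749818) (.br (nat_lit 1) (.cons (.br (nat_lit 2) (.cons (.rel (nat_lit 83951877)) .nil)) .nil)) (.node .leaf (nat_lit 24810586845708438) (.br (nat_lit 3) (.cons (.br (nat_lit 4) (.cons (.rel (nat_lit 1342178310)) .nil)) .nil)) .leaf)))

/-- refutations 159 -/
def e159 : EX := (.node (.node .leaf (nat_lit 24817029342782726) (.br (nat_lit 1) (.cons (.br (nat_lit 2) (.cons (.br (nat_lit 6) (.cons (.rel (nat_lit 17247059988)) .nil)) .nil)) .nil)) .leaf) (nat_lit 24818093440619156) (.br (nat_lit 0) (.cons (.br (nat_lit 2) (.cons (.rel (nat_lit 71304228)) .nil)) .nil)) (.node .leaf (nat_lit 24818093441648129) (.br (nat_lit 1) (.cons (.br (nat_lit 2) (.cons (.br (nat_lit 6) (.cons (.rel (nat_lit 17247059988)) .nil)) .nil)) .nil)) .leaf))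

/-- refutations 162 -/
def e162 : EX := (.node (.node .leaf (nat_lit 25071284153588999) (.br (nat_lit 0) (.cons (.br (nat_lit 1) (.cons (.rel (nat_lit 25166337)) .nil)) .nil)) .leaf) (nat_lit 25071284156137499) (.br (nat_lit 0) (.cons (.br (nat_lit 1) (.cons (.rel (nat_lit 37765140)) .nil)) .nil)) (.node .leaf (nat_lit 25071284156139029) (.br (nat_lit 0) (.cons (.br (nat_lit 1) (.cons (.rel (nat_lit 21242112)) .nil)) .nil)) .leaf))

/-- refutations 164 -/
def e164 : EX := (.node (.node .leaf (nat_lit 24841544887361537) (.br (nat_lit 0) (.cons (.br (nat_lit 3) (.cons (.rel (nat_lit 272631813)) .nil)) .nil)) .leaf) (nat_lit 24846833785851906) (.br (nat_lit 0) (.cons (.br (nat_lit 1) (.cons (.rel (nat_lit 25166337)) .nil)) .nil)) .leaf)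

/-- refutations 165 -/
def e165 : EX := (.node (.node (.node (.node (.node .leaf (nat_lit 25158381042700569) (.br (nat_lit 0) (.cons (.br (nat_lit 1) (.cons (.rel (nat_lit 22544385)) .nil)) .nil)) .leaf) (nat_lit 25158381581173017) (.br (nat_lit 0) (.cons (.br (nat_lit 1) (.cons (.rel (nat_lit 22024512)) .nil)) .nil)) .leaf) (nat_lit 25158381584034444) (.br (nat_lit 2) (.cons (.br (nat_lit 1) (.cons (.rel (nat_lit 83906565)) (.cons (.rel (nat_lit 83886600)) .nil))) .nil)) (.node (.node .leaf (nat_lit 25158384705704086) (.br (nat_lit 1) (.cons (.br (nat_lit 6) (.cons (.rel (nat_lit 34376581632)) .nil)) .nil)) .leaf) (nat_lit 25158384705704716) (.br (nat_lit 0) (.cons (.br (nat_lit 1) (.cons (.br (nat_lit 3) (.cons (.rel (nat_lit 272646660)) (.cons (.rel (nat_lit 285344784)) .nil))) .nil)) .nil)) .leaf)) (nat_lit 25158384706994326) (.br (nat_lit 0) (.cons (.br (nat_lit 1) (.cons (.rel (nat_lit 37753872)) .nil)) .nil)) (.node (.node (.node .leaf (nat_lit 25158384706995586) (.br (nat_lit 0) (.cons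 (.br (nat_lit 1) (.cons (.rel (nat_lit 37765140)) .nil)) .nil)) .leaf) (nat_lit 25158384708285196) (.br (nat_lit 0) (.cons (.br (nat_lit 1) (.cons (.br (nat_lit 4) (.cons (.rel (nat_lit 1107362832)) .nil)) .nil)) .nil)) .leaf) (nat_lit 25158386800221686) (.br (nat_lit 1) (.cons (.br (nat_lit 0) (.cons (.rel (nat_lit 25166337)) (.cons (.rel (nat_lit 20975745)) .nil))) .nil)) (.node .leaf (nat_lit 25158386801479961) (.br (nat_lit 0) (.cons (.br (nat_lit 1) (.cons (.rel (nat_lit 37765140)) .nil)) .nil)) .leaf))) (nat_lit 25159017549224086) (.br (nat_lit 2) (.cons (.br (nat_lit 3) (.cons (.rel (nat_lit 603980805)) .nil)) .nil)) (.node (.node (.node (.node .leaf (nat_lit 25159022454090009) (.br (nat_lit 1) (.cons (.br (nat_lit 3) (.cons (.rel (nat_lit 285229317)) .nil)) .nil)) .leaf) (nat_lit 25159081897239783) (.br (nat_lit 1) (.cons (.br (nat_lit 0) (.cons (.rel (nat_lit 37751061)) (.cons (.rel (nat_lit 42222720)) .nil))) .nil)) .leaf) (nat_lit 25159240579892610) (.br (nat_lit 0) (.cons (.br (nat_lit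 1) (.cons (.rel (nat_lit 21038208)) .nil)) .nil)) (.node (.node .leaf (nat_lit 25159243095183510) (.br (nat_lit 0) (.cons (.br (nat_lit 3) (.cons (.rel (nat_lit 272666625)) .nil)) .nil)) .leaf) (nat_lit 25159243097764476) (.br (nat_lit 0) (.cons (.br (nat_lit 1) (.cons (.rel (nat_lit 21038208)) (.cons (.rel (nat_lit 37748994)) .nil))) .nil)) .leaf)) (nat_lit 25163804350451862) (.br (nat_lit 0) (.cons (.br (nat_lit 1) (.cons (.rel (nat_lit 21234705)) .nil)) .nil)) (.node (.node (.node .leaf (nat_lit 25163804954432268) (.br (nat_lit 0) (.cons (.br (nat_lit 1) (.cons (.rel (nat_lit 25183488)) .nil)) .nil)) .leaf) (nat_lit 25163804954699926) (.br (nat_lit 0) (.cons (.br (nat_lit 1) (.cons (.rel (nat_lit 21242112)) .nil)) .nil)) .leaf) (nat_lit 25163804955721878) (.br (nat_lit 0) (.cons (.br (nat_lit 3) (.cons (.rel (nat_lit 272630808)) .nil)) .nil)) (.node .leaf (nat_lit 25163804955723138) (.br (nat_lit 0) (.cons (.br (nat_lit 1) (.cons (.rel (nat_lit 25183488)) .nil)) .nil)) .leaf))))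

/-- refutations 166 -/
def e166 : EX := (.node (.node (.node (.node (.node (.node .leaf (nat_lit 25164655295042836) (.br (nat_lit 0) (.cons (.br (nat_lit 4) (.cons (.rel (nat_lit 1082204160)) .nil)) .nil)) .leaf) (nat_lit 25164655295221012) (.br (nat_lit 1) (.cons (.br (nat_lit 0) (.cons (.rel (nat_lit 21233700)) (.cons (.rel (nat_lit 21038208)) .nil))) .nil)) .leaf) (nat_lit 25164655358429334) (.br (nat_lit 1) (.cons (.br (nat_lit 3) (.cons (.rel (nat_lit 570425616)) .nil)) .nil)) (.node (.node .leaf (nat_lit 25164789667958934) (.br (nat_lit 0) (.cons (.br (nat_lit 5) (.cons (.rel (nat_lit 8598327312)) .nil)) .nil)) .leaf) (nat_lit 25164789668228598) (.br (nat_lit 1) (.cons (.br (nat_lit 2) (.cons (.rel (nat_lit 83951877)) (.cons (.rel (nat_lit 83895297)) .nil))) .nil)) .leaf)) (nat_lit 25164789669517462) (.br (nat_lit 1) (.cons (.br (nat_lit 4) (.cons (.rel (nat_lit 1107312642)) (.cons (.rel (nat_lit 2164326672)) .nil))) .nil)) (.node (.node (.node .leaf (nat_lit 25164789669518838) (.br (nat_lit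 2) (.cons (.br (nat_lit 0) (.cons (.rel (nat_lit 71304228)) (.cons (.rel (nat_lit 71312640)) (.cons (.rel (nat_lit 71320080)) .nil)))) (.cons (.br (nat_lit 1) (.cons (.rel (nat_lit 83895297)) (.cons (.rel (nat_lit 153092112)) (.cons (.rel (nat_lit 167837697)) .nil)))) .nil))) .leaf) (nat_lit 25164789670777113) (.br (nat_lit 1) (.cons (.br (nat_lit 2) (.cons (.rel (nat_lit 83894292)) (.cons (.rel (nat_lit 83895297)) .nil))) (.cons (.br (nat_lit 4) (.cons (.rel (nat_lit 1107298560)) (.cons (.rel (nat_lit 1090781202)) .nil))) .nil))) .leaf) (nat_lit 25164791765111659) (.br (nat_lit 0) (.cons (.br (nat_lit 3) (.cons (.rel (nat_lit 272729088)) .nil)) .nil)) (.node .leaf (nat_lit 25164791765379222) (.br (nat_lit 1) (.cons (.br (nat_lit 2) (.cons (.rel (nat_lit 101188608)) .nil)) .nil)) .leaf))) (nat_lit 25164791766364197) (.br (nat_lit 1) (.cons (.br (nat_lit 2) (.cons (.rel (nat_lit 83886600)) .nil)) .nil)) (.node (.node (.node (.node .leaf (nat_lit 25164791766401174) (.br (nat_lit 1) (.cons (.br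 (nat_lit 5) (.cons (.rel (nat_lit 4311777792)) .nil)) .nil)) .leaf) (nat_lit 25164791766402434) (.br (nat_lit 0) (.cons (.br (nat_lit 1) (.cons (.rel (nat_lit 21038208)) .nil)) .nil)) .leaf) (nat_lit 25164794889777433) (.br (nat_lit 3) (.cons (.br (nat_lit 6) (.cons (.rel (nat_lit 17448321282)) (.cons (.rel (nat_lit 34896610560)) .nil))) (.cons (.br (nat_lit 6) (.cons (.rel (nat_lit 34896610560)) (.cons (.rel (nat_lit 17448307200)) .nil))) .nil))) (.node (.node .leaf (nat_lit 25164794889868044) (.br (nat_lit 0) (.cons (.br (nat_lit 1) (.cons (.rel (nat_lit 21381120)) .nil)) .nil)) .leaf) (nat_lit 25164794890135833) (.br (nat_lit 1) (.cons (.br (nat_lit 4) (.cons (.rel (nat_lit 1090805760)) (.cons (.rel (nat_lit 1091588160)) (.cons (.rel (nat_lit 2181071952)) .nil)))) .nil)) .leaf)) (nat_lit 25164794890277145) (.br (nat_lit 2) (.cons (.br (nat_lit 6) (.cons (.rel (nat_lit 17246986257)) .nil)) .nil)) (.node (.node (.node .leaf (nat_lit 25164794890277544) (.br (nat_lit 1) (.cons (.br (nat_lit 5)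 (.cons (.rel (nat_lit 4311811080)) .nil)) .nil)) .leaf) (nat_lit 25164794891100441) (.br (nat_lit 5) (.cons (.br (nat_lit 3) (.cons (.br (nat_lit 6) (.cons (.rel (nat_lit 34629223428)) (.cons (.rel (nat_lit 34896610560)) .nil))) (.cons (.rel (nat_lit 4831870992)) .nil))) .nil)) .leaf) (nat_lit 25164794891157785) (.br (nat_lit 6) (.cons (.br (nat_lit 1) (.cons (.rel (nat_lit 17213425680)) (.cons (.rel (nat_lit 17198776320)) .nil))) .nil)) (.node .leaf (nat_lit 25164794891427318) (.br (nat_lit 3) (.cons (.br (nat_lit 1) (.cons (.rel (nat_lit 570425616)) (.cons (.rel (nat_lit 570429444)) .nil))) .nil)) .leaf)))) (nat_lit 25164794892391926) (.br (nat_lit 1) (.cons (.br (nat_lit 2) (.cons (.rel (nat_lit 101188608)) .nil)) .nil)) (.node (.node (.node (.node (.node .leaf (nat_lit 25164794892606315) (.br (nat_lit 1) (.cons (.br (nat_lit 3) (.cons (.rel (nat_lit 570425616)) .nil)) .nil)) .leaf) (nat_lit 25164794892685593) (.br (nat_lit 1) (.cons (.br (nat_lit 2) (.cons (.rel (nat_lit 83894292)) (.cons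 (.rel (nat_lit 83895297)) .nil))) (.cons (.br (nat_lit 2) (.cons (.rel (nat_lit 101711904)) (.cons (.rel (nat_lit 167837697)) .nil))) .nil))) .leaf) (nat_lit 25164794892686247) (.br (nat_lit 0) (.cons (.br (nat_lit 1) (.cons (.rel (nat_lit 22024512)) .nil)) .nil)) (.node (.node .leaf (nat_lit 25164794892686694) (.br (nat_lit 0) (.cons (.br (nat_lit 1) (.cons (.rel (nat_lit 21038208)) .nil)) .nil)) .leaf) (nat_lit 25164794892955126) (.br (nat_lit 0) (.cons (.br (nat_lit 1) (.cons (.rel (nat_lit 21233700)) .nil)) .nil)) .leaf)) (nat_lit 25170194835260802) (.br (nat_lit 0) (.cons (.br (nat_lit 1) (.cons (.rel (nat_lit 21038208)) .nil)) .nil)) (.node (.node (.node .leaf (nat_lit 25170200789881113) (.br (nat_lit 0) (.cons (.br (nat_lit 1) (.cons (.rel (nat_lit 25166337)) .nil)) .nil)) .leaf) (nat_lit 25170200792967205) (.br (nat_lit 3) (.cons (.br (nat_lit 5) (.cons (.rel (nat_lit 4831920132)) .nil)) .nil)) .leaf) (nat_lit 25170200792967820) (.br (nat_lit 0) (.cons (.br (nat_lit 3) (.cons (.rel (nat_lit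 272711937)) .nil)) .nil)) (.node .leaf (nat_lit 25170201328310422) (.br (nat_lit 1) (.cons (.br (nat_lit 4) (.cons (.rel (nat_lit 1107312642)) .nil)) .nil)) .leaf))) (nat_lit 25170201328311798) (.br (nat_lit 0) (.cons (.br (nat_lit 1) (.cons (.br (nat_lit 4) (.cons (.rel (nat_lit 2151678978)) (.cons (.rel (nat_lit 1107298560)) .nil))) .nil)) .nil)) (.node (.node (.node (.node .leaf (nat_lit 25170201329570073) (.br (nat_lit 0) (.cons (.br (nat_lit 1) (.cons (.rel (nat_lit 25166337)) (.cons (.br (nat_lit 2) (.cons (.rel (nat_lit 83895297)) (.cons (.rel (nat_lit 83906565)) .nil))) .nil))) (.cons (.br (nat_lit 2) (.cons (.rel (nat_lit 71305233)) (.cons (.rel (nat_lit 71320080)) .nil))) .nil))) .leaf) (nat_lit 25170204455702678) (.br (nat_lit 1) (.cons (.br (nat_lit 4) (.cons (.rel (nat_lit 1090781202)) .nil)) .nil)) .leaf) (nat_lit 25170204458283788) (.br (nat_lit 0) (.cons (.br (nat_lit 1) (.cons (.rel (nat_lit 37765140)) .nil)) .nil)) (.node .leaf (nat_lit 25170204458521356) (.br (nat_lit 3) (.cons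 (.br (nat_lit 5) (.cons (.rel (nat_lit 8858371332)) .nil)) .nil)) .leaf)) (nat_lit 25170204458789644) (.br (nat_lit 0) (.cons (.br (nat_lit 1) (.cons (.rel (nat_lit 21234705)) .nil)) .nil)) (.node (.node (.node .leaf (nat_lit 25170206548660505) (.br (nat_lit 0) (.cons (.br (nat_lit 2) (.cons (.rel (nat_lit 71303178)) .nil)) .nil)) .leaf) (nat_lit 25170206550220278) (.br (nat_lit 3) (.cons (.br (nat_lit 0) (.cons (.rel (nat_lit 272654352)) (.cons (.rel (nat_lit 272666625)) .nil))) .nil)) .leaf) (nat_lit 25170206551478553) (.br (nat_lit 1) (.cons (.br (nat_lit 6) (.cons (.rel (nat_lit 17213425680)) (.cons (.rel (nat_lit 17213423625)) .nil))) .nil)) (.node .leaf (nat_lit 25170207102534412) (.br (nat_lit 0) (.cons (.br (nat_lit 1) (.cons (.rel (nat_lit 21242112)) .nil)) .nil)) .leaf)))))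

/-- refutations 167 -/
def e167 : EX := (.node (.node (.node .leaf (nat_lit 25105652480000001) (.br (nat_lit 0) (.cons (.br (nat_lit 1) (.cons (.rel (nat_lit 23068698)) .nil)) .nil)) .leaf) (nat_lit 25106468522722842) (.br (nat_lit 2) (.cons (.br (nat_lit 3) (.cons (.rel (nat_lit 336625674)) .nil)) .nil)) .leaf) (nat_lit 25106469056397564) (.br (nat_lit 2) (.cons (.br (nat_lit 3) (.cons (.rel (nat_lit 336593424)) .nil)) .nil)) (.node .leaf (nat_lit 25109939909812349) (.br (nat_lit 0) (.cons (.br (nat_lit 2) (.cons (.rel (nat_lit 142606341)) .nil)) .nil)) .leaf))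

/-- refutations 168 -/
def e168 : EX := (.node (.node (.node (.node .leaf (nat_lit 25180262237315222) (.br (nat_lit 1) (.cons (.br (nat_lit 5) (.cons (.rel (nat_lit 4311750672)) .nil)) .nil)) .leaf) (nat_lit 25182364674401782) (.br (nat_lit 0) (.cons (.br (nat_lit 1) (.cons (.rel (nat_lit 25247760)) .nil)) .nil)) (.node .leaf (nat_lit 25182364675691123) (.br (nat_lit 1) (.cons (.br (nat_lit 0) (.cons (.rel (nat_lit 23069700)) (.cons (.rel (nat_lit 21233700)) .nil))) .nil)) .leaf)) (nat_lit 25182364676863478) (.br (nat_lit 0) (.cons (.br (nat_lit 1) (.cons (.rel (nat_lit 43000065)) .nil)) .nil)) (.node (.node .leaf (nat_lit 25182364677220502) (.br (nat_lit 1) (.cons (.br (nat_lit 2) (.cons (.rel (nat_lit 83886600)) .nil)) .nil)) .leaf) (nat_lit 25182369184568171) (.br (nat_lit 2) (.cons (.br (nat_lit 3) (.cons (.rel (nat_lit 603979800)) .nil)) .nil)) .leaf)) (nat_lit 25186665418280324) (.br (nat_lit 0) (.cons (.br (nat_lit 1) (.cons (.rel (nat_lit 25166337)) .nil)) .nil)) (.node (.node (.node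 .leaf (nat_lit 25187778430083222) (.br (nat_lit 1) (.cons (.br (nat_lit 5) (.cons (.rel (nat_lit 4311750672)) .nil)) .nil)) .leaf) (nat_lit 25187793512796310) (.br (nat_lit 0) (.cons (.br (nat_lit 1) (.cons (.rel (nat_lit 25166337)) (.cons (.rel (nat_lit 21233700)) .nil))) .nil)) .leaf) (nat_lit 25187793512798358) (.br (nat_lit 0) (.cons (.br (nat_lit 1) (.cons (.rel (nat_lit 25166337)) .nil)) .nil)) (.node (.node .leaf (nat_lit 25187793512800406) (.br (nat_lit 1) (.cons (.br (nat_lit 0) (.cons (.rel (nat_lit 25166337)) (.cons (.rel (nat_lit 21038208)) .nil))) .nil)) .leaf) (nat_lit 25187799289646468) (.br (nat_lit 0) (.cons (.br (nat_lit 4) (.cons (.rel (nat_lit 1077956736)) .nil)) .nil)) .leaf)))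

/-- refutations 169 -/
def e169 : EX := (.node .leaf (nat_lit 25268014692745468) (.br (nat_lit 0) (.cons (.br (nat_lit 2) (.cons (.rel (nat_lit 71598144)) .nil)) .nil)) .leaf)

/-- refutations 170 -/
def e170 : EX := (.node .leaf (nat_lit 25273589560237539) (.br (nat_lit 0) (.cons (.br (nat_lit 1) (.cons (.rel (nat_lit 21038208)) .nil)) .nil)) .leaf)

/-- refutations 172 -/
def e172 : EX := (.node (.node (.node .leaf (nat_lit 25194685291406224) (.br (nat_lit 0) (.cons (.br (nat_lit 1) (.cons (.rel (nat_lit 20975745)) .nil)) .nil)) .leaf) (nat_lit 25204254478275472) (.br (nat_lit 0) (.cons (.br (nat_lit 4) (.cons (.rel (nat_lit 2151710976)) .nil)) .nil)) (.node .leaf (nat_lit 25204257049652725) (.br (nat_lit 0) (.cons (.br (nat_lit 1) (.cons (.rel (nat_lit 21233700)) .nil)) .nil)) .leaf)) (nat_lit 25205368518971542) (.br (nat_lit 0) (.cons (.br (nat_lit 1) (.cons (.br (nat_lit 6) (.cons (.rel (nat_lit 17188278276)) (.cons (.rel (nat_lit 17200840968)) .nil))) .nil)) .nil)) (.node (.node .leaf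 (nat_lit 25205368518973590) (.br (nat_lit 2) (.cons (.br (nat_lit 4) (.cons (.rel (nat_lit 1140887556)) .nil)) .nil)) .leaf) (nat_lit 25205368518975638) (.br (nat_lit 0) (.cons (.br (nat_lit 5) (.cons (.rel (nat_lit 4300211328)) .nil)) .nil)) .leaf))

/-- refutations 173 -/
def e173 : EX := (.node .leaf (nat_lit 26393957590573962) (.br (nat_lit 0) (.cons (.br (nat_lit 2) (.cons (.rel (nat_lit 71369220)) .nil)) .nil)) .leaf)

/-- refutations 174 -/
def e174 : EX := (.node (.node (.node .leaf (nat_lit 26511688514183318) (.br (nat_lit 1) (.cons (.br (nat_lit 5) (.cons (.rel (nat_lit 4311744789)) .nil)) .nil)) .leaf) (nat_lit 26512520558944406) (.br (nat_lit 0) (.cons (.br (nat_lit 1) (.cons (.rel (nat_lit 21038208)) .nil)) .nil)) (.node .leaf (nat_lit 26512520561246468) (.br (nat_lit 0) (.cons (.br (nat_lit 2) (.cons (.rel (nat_lit 71451648)) .nil)) .nil)) .leaf)) (nat_lit 26516802737909217) (.br (nat_lit 0) (.cons (.br (nat_lit 1) (.cons (.rel (nat_lit 37748994)) .nil)) .nil)) (.node (.node .leaf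 (nat_lit 26516802740611202) (.br (nat_lit 1) (.cons (.br (nat_lit 3) (.cons (.rel (nat_lit 285217044)) .nil)) .nil)) .leaf) (nat_lit 26516802740736150) (.br (nat_lit 0) (.cons (.br (nat_lit 1) (.cons (.rel (nat_lit 39063552)) .nil)) .nil)) .leaf))

/-- refutations 175 -/
def e175 : EX := (.node (.node .leaf (nat_lit 26516845711327382) (.br (nat_lit 0) (.cons (.br (nat_lit 1) (.cons (.rel (nat_lit 25166337)) .nil)) .nil)) .leaf) (nat_lit 26517094888153238) (.br (nat_lit 0) (.cons (.br (nat_lit 2) (.cons (.rel (nat_lit 71305233)) (.cons (.rel (nat_lit 71305233)) .nil))) .nil)) (.node .leaf (nat_lit 26519370814802070) (.br (nat_lit 1) (.cons (.br (nat_lit 3) (.cons (.rel (nat_lit 285213216)) .nil)) .nil)) .leaf))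

/-- refutations 176 -/
def e176 : EX := (.node (.node (.node .leaf (nat_lit 26600676632025238) (.br (nat_lit 0) (.cons (.br (nat_lit 1) (.cons (.rel (nat_lit 25296900)) .nil)) .nil)) .leaf) (nat_lit 26604806812280189) (.br (nat_lit 0) (.cons (.br (nat_lit 1) (.cons (.rel (nat_lit 21242112)) .nil)) .nil)) .leaf) (nat_lit 26604806813496701) (.br (nat_lit 1) (.cons (.br (nat_lit 4) (.cons (.rel (nat_lit 2164293633)) .nil)) .nil)) (.node .leaf (nat_lit 26604806813559039) (.br (nat_lit 3) (.cons (.br (nat_lit 4) (.cons (.rel (nat_lit 1342275585)) .nil)) .nil)) .leaf))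

/-- refutations 177 -/
def e177 : EX := (.node (.node .leaf (nat_lit 26610445944705651) (.br (nat_lit 0) (.cons (.br (nat_lit 2) (.cons (.rel (nat_lit 71434497)) .nil)) .nil)) .leaf) (nat_lit 26610445945913381) (.br (nat_lit 0) (.cons (.br (nat_lit 3) (.cons (.rel (nat_lit 272711937)) .nil)) .nil)) .leaf)

/-- refutations 178 -/
def e178 : EX := (.node (.node (.node (.node (.node .leaf (nat_lit 26845724860997909) (.br (nat_lit 0) (.cons (.br (nat_lit 3) (.cons (.rel (nat_lit 272629794)) .nil)) .nil)) .leaf) (nat_lit 26845771465683094) (.br (nat_lit 1) (.cons (.br (nat_lit 4) (.cons (.br (nat_lit 5) (.cons (.br (nat_lit 3) (.cons (.rel (nat_lit 1342202916)) (.cons (.rel (nat_lit 2684355600)) (.cons (.rel (nat_lit 4831870992)) (.cons (.rel (nat_lit 1342178310)) .nil))))) .nil)) .nil)) .nil)) .leaf) (nat_lit 26847025310408193) (.br (nat_lit 0) (.cons (.br (nat_lit 1) (.cons (.rel (nat_lit 37753872)) .nil)) .nil)) (.node (.node .leaf (nat_lit 26847030532315413) (.br (nat_lit 0) (.cons (.br (nat_lit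 3) (.cons (.rel (nat_lit 272699664)) .nil)) .nil)) .leaf) (nat_lit 26848093040534411) (.br (nat_lit 0) (.cons (.br (nat_lit 1) (.cons (.rel (nat_lit 37753872)) .nil)) .nil)) .leaf)) (nat_lit 26848093041793301) (.br (nat_lit 0) (.cons (.br (nat_lit 5) (.cons (.rel (nat_lit 4299231237)) .nil)) .nil)) (.node (.node (.node .leaf (nat_lit 26848093041794561) (.br (nat_lit 1) (.cons (.br (nat_lit 5) (.cons (.rel (nat_lit 4311777792)) .nil)) .nil)) .leaf) (nat_lit 26851345931761177) (.br (nat_lit 2) (.cons (.br (nat_lit 0) (.cons (.rel (nat_lit 71304228)) (.cons (.rel (nat_lit 71304228)) .nil))) .nil)) .leaf) (nat_lit 26851345932224662) (.br (nat_lit 0) (.cons (.br (nat_lit 3) (.cons (.rel (nat_lit 545259537)) .nil)) .nil)) (.node (.node .leaf (nat_lit 26851345932978326) (.br (nat_lit 0) (.cons (.br (nat_lit 1) (.cons (.rel (nat_lit 21242112)) .nil)) .nil)) .leaf) (nat_lit 26851345933051417) (.br (nat_lit 0) (.cons (.br (nat_lit 5) (.cons (.rel (nat_lit 8598339585)) (.cons (.rel (nat_lit 4299180288))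 (.cons (.rel (nat_lit 4299180288)) (.cons (.rel (nat_lit 4299163137)) .nil))))) .nil)) .leaf))) (nat_lit 26851346046247819) (.br (nat_lit 0) (.cons (.br (nat_lit 3) (.cons (.rel (nat_lit 272629794)) .nil)) .nil)) (.node (.node (.node (.node .leaf (nat_lit 26851346046248449) (.br (nat_lit 1) (.cons (.br (nat_lit 2) (.cons (.rel (nat_lit 101711904)) (.cons (.rel (nat_lit 83919888)) (.cons (.rel (nat_lit 101711904)) .nil)))) .nil)) .leaf) (nat_lit 26851346047507969) (.br (nat_lit 0) (.cons (.br (nat_lit 1) (.cons (.rel (nat_lit 37753872)) .nil)) .nil)) .leaf) (nat_lit 26851348624503691) (.br (nat_lit 0) (.cons (.br (nat_lit 1) (.cons (.rel (nat_lit 21233700)) .nil)) .nil)) (.node (.node .leaf (nat_lit 26851348625998731) (.br (nat_lit 2) (.cons (.br (nat_lit 3) (.cons (.rel (nat_lit 336597252)) .nil)) .nil)) .leaf) (nat_lit 26851348627004299) (.br (nat_lit 0) (.cons (.br (nat_lit 5) (.cons (.rel (nat_lit 4299165960)) .nil)) .nil)) .leaf)) (nat_lit 26851351268155669) (.br (nat_lit 1) (.cons (.br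 (nat_lit 3) (.cons (.rel (nat_lit 285213216)) .nil)) .nil)) (.node (.node (.node .leaf (nat_lit 26851351268156299) (.br (nat_lit 1) (.cons (.br (nat_lit 3) (.cons (.rel (nat_lit 285213216)) (.cons (.rel (nat_lit 285213216)) .nil))) .nil)) .leaf) (nat_lit 26851351268156929) (.br (nat_lit 1) (.cons (.br (nat_lit 2) (.cons (.rel (nat_lit 101711904)) (.cons (.rel (nat_lit 83919888)) (.cons (.rel (nat_lit 101711904)) .nil)))) .nil)) .leaf) (nat_lit 26851351268204821) (.br (nat_lit 0) (.cons (.br (nat_lit 1) (.cons (.rel (nat_lit 25166337)) .nil)) .nil)) (.node (.node .leaf (nat_lit 26851351269415189) (.br (nat_lit 0) (.cons (.br (nat_lit 4) (.cons (.rel (nat_lit 1082131476)) (.cons (.rel (nat_lit 1078202373)) .nil))) (.cons (.br (nat_lit 4) (.cons (.rel (nat_lit 2151678978)) (.cons (.rel (nat_lit 1078198545)) .nil))) .nil))) .leaf) (nat_lit 26851351269720341) (.br (nat_lit 0) (.cons (.br (nat_lit 3) (.cons (.rel (nat_lit 272654352)) .nil)) .nil)) .leaf))))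

/-- refutations 179 -/
def e179 : EX := (.node (.node .leaf (nat_lit 26853506809316614) (.br (nat_lit 0) (.cons (.br (nat_lit 1) (.cons (.rel (nat_lit 37765140)) .nil)) .nil)) .leaf) (nat_lit 26853506810574874) (.br (nat_lit 2) (.cons (.br (nat_lit 6) (.cons (.rel (nat_lit 17247059988)) .nil)) .nil)) .leaf)

/-- refutations 180 -/
def e180 : EX := (.node (.node (.node (.node (.node .leaf (nat_lit 26916099888537650) (.br (nat_lit 0) (.cons (.br (nat_lit 1) (.cons (.rel (nat_lit 21234705)) .nil)) .nil)) .leaf) (nat_lit 26917333290738974) (.br (nat_lit 2) (.cons (.br (nat_lit 3) (.cons (.br (nat_lit 6) (.cons (.rel (nat_lit 17448307200)) (.cons (.rel (nat_lit 34896610560)) .nil))) (.cons (.rel (nat_lit 336134400)) .nil))) .nil)) (.node .leaf (nat_lit 26917333291702952) (.br (nat_lit 0) (.cons (.br (nat_lit 3) (.cons (.rel (nat_lit 272631813)) .nil)) .nil)) .leaf)) (nat_lit 26917333291703024) (.br (nat_lit 0) (.cons (.br (nat_lit 1) (.cons (.rel (nat_lit 37753872)) .nil)) .nil)) (.node (.node .leaf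 (nat_lit 26917333292029214) (.br (nat_lit 1) (.cons (.br (nat_lit 6) (.cons (.rel (nat_lit 17213554944)) .nil)) .nil)) .leaf) (nat_lit 26917337025163414) (.br (nat_lit 3) (.cons (.br (nat_lit 5) (.cons (.rel (nat_lit 4563403860)) .nil)) .nil)) (.node .leaf (nat_lit 26918459057634837) (.br (nat_lit 0) (.cons (.br (nat_lit 2) (.cons (.rel (nat_lit 71303178)) .nil)) .nil)) .leaf))) (nat_lit 26918459057687779) (.br (nat_lit 0) (.cons (.br (nat_lit 1) (.cons (.rel (nat_lit 20975745)) .nil)) .nil)) (.node (.node (.node .leaf (nat_lit 26918459058772118) (.br (nat_lit 1) (.cons (.br (nat_lit 2) (.cons (.rel (nat_lit 83886600)) .nil)) .nil)) .leaf) (nat_lit 26918461569602962) (.br (nat_lit 0) (.cons (.br (nat_lit 1) (.cons (.rel (nat_lit 25247760)) .nil)) .nil)) (.node .leaf (nat_lit 26918461570891813) (.br (nat_lit 0) (.cons (.br (nat_lit 1) (.cons (.rel (nat_lit 25166337)) .nil)) .nil)) .leaf)) (nat_lit 26918461572329509) (.br (nat_lit 0) (.cons (.br (nat_lit 6) (.cons (.rel (nat_lit 17188267008))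 .nil)) .nil)) (.node (.node .leaf (nat_lit 26918461572330898) (.br (nat_lit 0) (.cons (.br (nat_lit 3) (.cons (.rel (nat_lit 272703492)) .nil)) .nil)) .leaf) (nat_lit 26918462121515289) (.br (nat_lit 0) (.cons (.br (nat_lit 2) (.cons (.rel (nat_lit 75502656)) .nil)) .nil)) .leaf))) (nat_lit 26918464399022361) (.br (nat_lit 2) (.cons (.br (nat_lit 3) (.cons (.rel (nat_lit 336597252)) .nil)) .nil)) (.node (.node (.node (.node .leaf (nat_lit 26921645922948629) (.br (nat_lit 0) (.cons (.br (nat_lit 3) (.cons (.rel (nat_lit 545259537)) .nil)) .nil)) .leaf) (nat_lit 26921645923215510) (.br (nat_lit 0) (.cons (.br (nat_lit 3) (.cons (.rel (nat_lit 272654352)) (.cons (.rel (nat_lit 272729088)) .nil))) .nil)) (.node .leaf (nat_lit 26921645924180118) (.br (nat_lit 0) (.cons (.br (nat_lit 2) (.cons (.rel (nat_lit 71303178)) (.cons (.rel (nat_lit 71305233)) .nil))) (.cons (.br (nat_lit 1) (.cons (.rel (nat_lit 21234705)) (.cons (.rel (nat_lit 22544385)) .nil))) .nil))) .leaf)) (nat_lit 26921645924181525)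 (.br (nat_lit 0) (.cons (.br (nat_lit 2) (.cons (.br (nat_lit 3) (.cons (.rel (nat_lit 335544657)) (.cons (.rel (nat_lit 272703492)) .nil))) (.cons (.rel (nat_lit 71320080)) .nil))) (.cons (.br (nat_lit 6) (.cons (.rel (nat_lit 34363938816)) (.cons (.rel (nat_lit 17184129168)) .nil))) .nil))) (.node (.node .leaf (nat_lit 26921648683999482) (.br (nat_lit 0) (.cons (.br (nat_lit 3) (.cons (.rel (nat_lit 545259537)) .nil)) .nil)) .leaf) (nat_lit 26921648684000758) (.br (nat_lit 1) (.cons (.br (nat_lit 5) (.cons (.rel (nat_lit 4311744789)) .nil)) .nil)) (.node .leaf (nat_lit 26921648685259033) (.br (nat_lit 2) (.cons (.br (nat_lit 1) (.cons (.rel (nat_lit 84017154)) (.cons (.rel (nat_lit 83951877)) .nil))) .nil)) .leaf))) (nat_lit 26921651262832921) (.br (nat_lit 5) (.cons (.br (nat_lit 6) (.cons (.rel (nat_lit 42949754880)) (.cons (.rel (nat_lit 21475100736)) .nil))) .nil)) (.node (.node (.node .leaf (nat_lit 26921651263529241) (.br (nat_lit 2) (.cons (.br (nat_lit 6) (.cons (.rel (nat_lit 34493972496))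 .nil)) .nil)) .leaf) (nat_lit 26921651263792414) (.br (nat_lit 6) (.cons (.br (nat_lit 3) (.cons (.rel (nat_lit 34896610560)) (.cons (.rel (nat_lit 17448326160)) .nil))) .nil)) (.node .leaf (nat_lit 26921651264755993) (.br (nat_lit 5) (.cons (.br (nat_lit 0) (.cons (.br (nat_lit 1) (.cons (.rel (nat_lit 21233700)) (.cons (.rel (nat_lit 41975889)) (.cons (.rel (nat_lit 41963616)) .nil)))) (.cons (.br (nat_lit 1) (.cons (.rel (nat_lit 37766145)) (.cons (.rel (nat_lit 37748994)) (.cons (.br (nat_lit 6) (.cons (.rel (nat_lit 34363932933)) (.cons (.rel (nat_lit 34376515590)) (.cons (.rel (nat_lit 17188267008)) (.cons (.rel (nat_lit 17200842021)) .nil))))) .nil)))) (.cons (.br (nat_lit 1) (.cons (.rel (nat_lit 21233700)) (.cons (.rel (nat_lit 23069700)) (.cons (.rel (nat_lit 22544385)) .nil)))) .nil)))) (.cons (.br (nat_lit 0) (.cons (.rel (nat_lit 4299162132)) (.cons (.rel (nat_lit 4299169824)) (.cons (.rel (nat_lit 4299162132)) .nil)))) .nil))) .leaf)) (nat_lit 26921651264756464) (.br (nat_lit 6)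 (.cons (.br (nat_lit 3) (.cons (.rel (nat_lit 17717002242)) (.cons (.rel (nat_lit 17448307200)) .nil))) .nil)) (.node (.node .leaf (nat_lit 26921651265329433) (.br (nat_lit 3) (.cons (.br (nat_lit 6) (.cons (.rel (nat_lit 17448309009)) .nil)) .nil)) .leaf) (nat_lit 26921651795446391) (.br (nat_lit 0) (.cons (.br (nat_lit 1) (.cons (.rel (nat_lit 25166337)) .nil)) .nil)) .leaf))))

/-- refutations 181 -/
def e181 : EX := (.node (.node (.node (.node .leaf (nat_lit 26923609768878832) (.br (nat_lit 2) (.cons (.br (nat_lit 5) (.cons (.rel (nat_lit 4429189377)) .nil)) .nil)) .leaf) (nat_lit 26923609769842969) (.br (nat_lit 1) (.cons (.br (nat_lit 5) (.cons (.rel (nat_lit 4311762945)) .nil)) .nil)) .leaf) (nat_lit 26923841697308953) (.br (nat_lit 1) (.cons (.br (nat_lit 2) (.cons (.rel (nat_lit 167772420)) .nil)) .nil)) (.node .leaf (nat_lit 26927921914458393) (.br (nat_lit 1) (.cons (.br (nat_lit 2) (.cons (.rel (nat_lit 83951877)) .nil)) .nil)) .leaf)) (nat_lit 26927921915749878) (.br (nat_lit 0)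 (.cons (.br (nat_lit 5) (.cons (.rel (nat_lit 4299169824)) .nil)) .nil)) (.node (.node .leaf (nat_lit 26927921917008153) (.br (nat_lit 3) (.cons (.br (nat_lit 1) (.cons (.rel (nat_lit 285280512)) (.cons (.rel (nat_lit 285220872)) (.cons (.rel (nat_lit 285220872)) .nil)))) (.cons (.br (nat_lit 1) (.cons (.rel (nat_lit 285213216)) (.cons (.rel (nat_lit 570425616)) (.cons (.rel (nat_lit 285229317)) .nil)))) .nil))) .leaf) (nat_lit 26929425154597616) (.br (nat_lit 3) (.cons (.br (nat_lit 4) (.cons (.rel (nat_lit 1342199040)) .nil)) .nil)) (.node .leaf (nat_lit 26929425155561753) (.br (nat_lit 2) (.cons (.br (nat_lit 3) (.cons (.rel (nat_lit 336593424)) .nil)) .nil)) .leaf)))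

/-- refutations 182 -/
def e182 : EX := (.node (.node (.node (.node (.node (.node .leaf (nat_lit 27285494941633922) (.br (nat_lit 0) (.cons (.br (nat_lit 4) (.cons (.rel (nat_lit 1080033540)) .nil)) .nil)) .leaf) (nat_lit 27285494941981972) (.br (nat_lit 0) (.cons (.br (nat_lit 6) (.cons (.rel (nat_lit 17184327684)) (.cons (.rel (nat_lit 34363950084)) .nil))) .nil)) .leaf) (nat_lit 27285494942893332) (.br (nat_lit 0) (.cons (.br (nat_lit 6) (.cons (.rel (nat_lit 17186161665)) (.cons (.rel (nat_lit 17188267008)) .nil))) (.cons (.br (nat_lit 2) (.cons (.rel (nat_lit 71304228)) (.cons (.rel (nat_lit 71598144)) .nil))) .nil))) (.node (.node .leaf (nat_lit 27285494944531212) (.br (nat_lit 0) (.cons (.br (nat_lit 4) (.cons (.rel (nat_lit 2151710976)) .nil)) .nil)) .leaf) (nat_lit 27287049722126588) (.br (nat_lit 0) (.cons (.br (nat_lit 5) (.cons (.rel (nat_lit 4299162132)) .nil)) .nil)) .leaf)) (nat_lit 27287078858689197) (.br (nat_lit 0) (.cons (.br (nat_lit 2) (.cons (.rel (nat_lit 71303178)) .nil))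 .nil)) (.node (.node (.node .leaf (nat_lit 27287078858883757) (.br (nat_lit 0) (.cons (.br (nat_lit 4) (.cons (.br (nat_lit 1) (.cons (.rel (nat_lit 1090782216)) (.cons (.rel (nat_lit 2164326672)) .nil))) .nil)) .nil)) .leaf) (nat_lit 27287078860173462) (.br (nat_lit 0) (.cons (.br (nat_lit 4) (.cons (.rel (nat_lit 2151710976)) .nil)) .nil)) .leaf) (nat_lit 27287078956642359) (.br (nat_lit 0) (.cons (.br (nat_lit 1) (.cons (.rel (nat_lit 37748994)) .nil)) .nil)) (.node .leaf (nat_lit 27287895103859568) (.br (nat_lit 0) (.cons (.br (nat_lit 1) (.cons (.rel (nat_lit 37753872)) .nil)) .nil)) .leaf))) (nat_lit 27287897482167682) (.br (nat_lit 0) (.cons (.br (nat_lit 4) (.cons (.rel (nat_lit 2151813120)) .nil)) .nil)) (.node (.node (.node (.node .leaf (nat_lit 27287897482286342) (.br (nat_lit 0) (.cons (.br (nat_lit 4) (.cons (.rel (nat_lit 1082131476)) (.cons (.rel (nat_lit 2156929044)) .nil))) .nil)) .leaf) (nat_lit 27287897483456567) (.br (nat_lit 0) (.cons (.br (nat_lit 4) (.cons (.br (nat_lit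 6) (.cons (.br (nat_lit 2) (.cons (.br (nat_lit 3) (.cons (.br (nat_lit 5) (.cons (.rel (nat_lit 21474902040)) (.cons (.rel (nat_lit 4299194370)) (.cons (.rel (nat_lit 5368718340)) (.cons (.rel (nat_lit 8594129028)) (.cons (.rel (nat_lit 5368718340)) (.cons (.rel (nat_lit 8657059848)) (.cons (.rel (nat_lit 38923141128)) (.cons (.rel (nat_lit 5368774920)) .nil))))))))) (.cons (.rel (nat_lit 336593424)) (.cons (.rel (nat_lit 402800640)) (.cons (.rel (nat_lit 272703492)) (.cons (.rel (nat_lit 2424307716)) (.cons (.rel (nat_lit 2424307716)) .nil))))))) (.cons (.rel (nat_lit 142606341)) (.cons (.br (nat_lit 1) (.cons (.rel (nat_lit 167772420)) (.cons (.rel (nat_lit 1094721540)) (.cons (.br (nat_lit 3) (.cons (.br (nat_lit 5) (.cons (.rel (nat_lit 21474902040)) (.cons (.rel (nat_lit 4299194370)) (.cons (.rel (nat_lit 5368718340)) (.cons (.rel (nat_lit 8594129028)) (.cons (.rel (nat_lit 5368718340)) (.cons (.rel (nat_lit 38923141128)) (.cons (.rel (nat_lit 38923141128)) (.cons (.rel (nat_lit 5368774920))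 .nil))))))))) (.cons (.rel (nat_lit 336593424)) (.cons (.rel (nat_lit 603979800)) (.cons (.rel (nat_lit 272703492)) (.cons (.rel (nat_lit 2424307716)) (.cons (.rel (nat_lit 2424307716)) .nil))))))) (.cons (.rel (nat_lit 25247760)) (.cons (.rel (nat_lit 83890464)) .nil)))))) .nil)))) (.cons (.rel (nat_lit 19331547204)) .nil))) .nil)) .nil)) .leaf) (nat_lit 27287897483456662) (.br (nat_lit 0) (.cons (.br (nat_lit 4) (.cons (.rel (nat_lit 1078264836)) .nil)) .nil)) (.node .leaf (nat_lit 27287897483457798) (.br (nat_lit 0) (.cons (.br (nat_lit 2) (.cons (.rel (nat_lit 71303178)) .nil)) .nil)) .leaf)) (nat_lit 27287897483515930) (.br (nat_lit 0) (.cons (.br (nat_lit 2) (.cons (.rel (nat_lit 71598144)) .nil)) .nil)) (.node (.node (.node .leaf (nat_lit 27287897483804727) (.br (nat_lit 0) (.cons (.br (nat_lit 1) (.cons (.br (nat_lit 4) (.cons (.rel (nat_lit 2164293633)) .nil)) .nil)) .nil)) .leaf) (nat_lit 27287897483804822) (.br (nat_lit 0) (.cons (.br (nat_lit 4) (.cons (.rel (nat_lit 1082131476))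 (.cons (.rel (nat_lit 2151677973)) .nil))) .nil)) .leaf) (nat_lit 27287898210715798) (.br (nat_lit 0) (.cons (.br (nat_lit 2) (.cons (.rel (nat_lit 71304228)) .nil)) .nil)) (.node .leaf (nat_lit 27287899593228289) (.br (nat_lit 5) (.cons (.br (nat_lit 3) (.cons (.rel (nat_lit 4563419712)) (.cons (.rel (nat_lit 4563419712)) .nil))) .nil)) .leaf)))) (nat_lit 27287900123309568) (.br (nat_lit 0) (.cons (.br (nat_lit 1) (.cons (.rel (nat_lit 21233700)) (.cons (.rel (nat_lit 25166337)) .nil))) .nil)) (.node (.node (.node (.node (.node .leaf (nat_lit 27287900123319572) (.br (nat_lit 0) (.cons (.br (nat_lit 4) (.cons (.br (nat_lit 2) (.cons (.rel (nat_lit 1140850725)) (.cons (.rel (nat_lit 1140850725)) (.cons (.rel (nat_lit 1212153888)) .nil)))) .nil)) .nil)) .leaf) (nat_lit 27287900123409946) (.br (nat_lit 0) (.cons (.br (nat_lit 2) (.cons (.rel (nat_lit 72614913)) .nil)) .nil)) .leaf) (nat_lit 27287900123574524) (.br (nat_lit 0) (.cons (.br (nat_lit 4) (.cons (.rel (nat_lit 1083441156)) .nil)) .nil))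 (.node (.node .leaf (nat_lit 27287900123575808) (.br (nat_lit 0) (.cons (.br (nat_lit 1) (.cons (.rel (nat_lit 21242112)) .nil)) .nil)) .leaf) (nat_lit 27287900124384012) (.br (nat_lit 1) (.cons (.br (nat_lit 2) (.cons (.rel (nat_lit 84149568)) .nil)) .nil)) .leaf)) (nat_lit 27287900124384532) (.br (nat_lit 0) (.cons (.br (nat_lit 1) (.cons (.rel (nat_lit 23069700)) (.cons (.rel (nat_lit 43139073)) .nil))) .nil)) (.node (.node (.node .leaf (nat_lit 27287900124575996) (.br (nat_lit 1) (.cons (.br (nat_lit 3) (.cons (.rel (nat_lit 285218049)) .nil)) .nil)) .leaf) (nat_lit 27287900124578448) (.br (nat_lit 0) (.cons (.br (nat_lit 2) (.cons (.rel (nat_lit 72613908)) .nil)) .nil)) .leaf) (nat_lit 27287900124578572) (.br (nat_lit 0) (.cons (.br (nat_lit 6) (.cons (.rel (nat_lit 17184327684)) .nil)) .nil)) (.node .leaf (nat_lit 27287900124579092) (.br (nat_lit 4) (.cons (.br (nat_lit 0) (.cons (.rel (nat_lit 1083441156)) (.cons (.rel (nat_lit 1078202373)) .nil))) .nil)) .leaf))) (nat_lit 27287900124579328)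 (.br (nat_lit 0) (.cons (.br (nat_lit 2) (.cons (.rel (nat_lit 139460688)) (.cons (.rel (nat_lit 142606341)) .nil))) .nil)) (.node (.node (.node (.node .leaf (nat_lit 27287900124638484) (.br (nat_lit 0) (.cons (.br (nat_lit 3) (.cons (.rel (nat_lit 276825408)) .nil)) .nil)) .leaf) (nat_lit 27287900125868688) (.br (nat_lit 2) (.cons (.br (nat_lit 4) (.cons (.rel (nat_lit 1140850725)) .nil)) .nil)) .leaf) (nat_lit 27287900125868812) (.br (nat_lit 0) (.cons (.br (nat_lit 4) (.cons (.rel (nat_lit 2151678978)) .nil)) .nil)) (.node .leaf (nat_lit 27287900125928080) (.br (nat_lit 0) (.cons (.br (nat_lit 2) (.cons (.rel (nat_lit 142606341)) .nil)) .nil)) .leaf)) (nat_lit 27287900126216972) (.br (nat_lit 6) (.cons (.br (nat_lit 2) (.cons (.rel (nat_lit 34493972496)) (.cons (.rel (nat_lit 17247010848)) (.cons (.rel (nat_lit 17247010848)) .nil)))) .nil)) (.node (.node (.node .leaf (nat_lit 27287900126217093) (.br (nat_lit 0) (.cons (.br (nat_lit 3) (.cons (.rel (nat_lit 277905408)) .nil)) .nil)) .leaf)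 (nat_lit 27288149232741652) (.br (nat_lit 0) (.cons (.br (nat_lit 2) (.cons (.rel (nat_lit 71323908)) .nil)) .nil)) .leaf) (nat_lit 27288149232801030) (.br (nat_lit 0) (.cons (.br (nat_lit 4) (.cons (.rel (nat_lit 1080098817)) .nil)) .nil)) (.node .leaf (nat_lit 27288149234059920) (.br (nat_lit 0) (.cons (.br (nat_lit 4) (.cons (.rel (nat_lit 2151677973)) (.cons (.rel (nat_lit 1080098817)) .nil))) .nil)) .leaf)))))

/-- refutations 183 -/
def e183 : EX := (.node (.node (.node (.node (.node (.node .leaf (nat_lit 27291367814265084) (.br (nat_lit 0) (.cons (.br (nat_lit 1) (.cons (.rel (nat_lit 25247760)) .nil)) .nil)) .leaf) (nat_lit 27291369926803457) (.br (nat_lit 2) (.cons (.br (nat_lit 0) (.cons (.rel (nat_lit 72614913)) (.cons (.rel (nat_lit 71303178)) (.cons (.rel (nat_lit 71369220)) (.cons (.rel (nat_lit 142606341)) .nil))))) .nil)) .leaf) (nat_lit 27291985888243200) (.br (nat_lit 0) (.cons (.br (nat_lit 4) (.cons (.rel (nat_lit 1078002048)) .nil)) .nil)) (.node .leaf (nat_lit 27293220863307264)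 (.br (nat_lit 1) (.cons (.br (nat_lit 4) (.cons (.rel (nat_lit 1090781202)) (.cons (.rel (nat_lit 2164262400)) .nil))) .nil)) .leaf)) (nat_lit 27293306560202902) (.br (nat_lit 0) (.cons (.br (nat_lit 4) (.cons (.rel (nat_lit 1078264836)) .nil)) .nil)) (.node (.node .leaf (nat_lit 27293306561268397) (.br (nat_lit 0) (.cons (.br (nat_lit 2) (.cons (.rel (nat_lit 71303178)) .nil)) .nil)) .leaf) (nat_lit 27293306562752662) (.br (nat_lit 0) (.cons (.br (nat_lit 4) (.cons (.rel (nat_lit 1078202373)) (.cons (.rel (nat_lit 1078198545)) .nil))) .nil)) (.node .leaf (nat_lit 27293306562753292) (.br (nat_lit 0) (.cons (.br (nat_lit 4) (.cons (.rel (nat_lit 2151678978)) .nil)) .nil)) .leaf))) (nat_lit 27293306563100822) (.br (nat_lit 0) (.cons (.br (nat_lit 4) (.cons (.rel (nat_lit 2151710976)) (.cons (.rel (nat_lit 2151809304)) (.cons (.rel (nat_lit 2151677973)) (.cons (.rel (nat_lit 1082131476)) (.cons (.rel (nat_lit 2151710976)) .nil)))))) .nil)) (.node (.node (.node (.node .leaf (nat_lit 27293311782112642)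 (.br (nat_lit 4) (.cons (.br (nat_lit 0) (.cons (.rel (nat_lit 2151677973)) (.cons (.rel (nat_lit 1080033540)) .nil))) .nil)) .leaf) (nat_lit 27293311782460692) (.br (nat_lit 1) (.cons (.br (nat_lit 4) (.cons (.br (nat_lit 0) (.cons (.rel (nat_lit 23069700)) (.cons (.rel (nat_lit 1080033540)) .nil))) .nil)) .nil)) .leaf) (nat_lit 27293311783176972) (.br (nat_lit 1) (.cons (.br (nat_lit 4) (.cons (.rel (nat_lit 1090519428)) .nil)) .nil)) (.node .leaf (nat_lit 27293311783177492) (.br (nat_lit 1) (.cons (.br (nat_lit 2) (.cons (.rel (nat_lit 167772420)) (.cons (.rel (nat_lit 84149568)) .nil))) .nil)) .leaf)) (nat_lit 27293311783371408) (.br (nat_lit 0) (.cons (.br (nat_lit 2) (.cons (.rel (nat_lit 72613908)) .nil)) .nil)) (.node (.node .leaf (nat_lit 27293311783371532) (.br (nat_lit 0) (.cons (.br (nat_lit 4) (.cons (.rel (nat_lit 1082131476)) (.cons (.rel (nat_lit 2151678978)) .nil))) (.cons (.br (nat_lit 4) (.cons (.rel (nat_lit 2151710976)) (.cons (.rel (nat_lit 2151677973)) .nil))) .nil)))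 .leaf) (nat_lit 27293311783372052) (.br (nat_lit 4) (.cons (.br (nat_lit 6) (.cons (.br (nat_lit 0) (.cons (.rel (nat_lit 1083441156)) (.cons (.rel (nat_lit 1080098817)) (.cons (.rel (nat_lit 1078202373)) (.cons (.rel (nat_lit 34363932933)) .nil))))) (.cons (.rel (nat_lit 18253874181)) (.cons (.rel (nat_lit 18253877760)) .nil)))) (.cons (.br (nat_lit 0) (.cons (.rel (nat_lit 2151710976)) (.cons (.rel (nat_lit 1080033540)) (.cons (.rel (nat_lit 1078202373)) (.cons (.rel (nat_lit 2151678978)) .nil))))) .nil))) (.node .leaf (nat_lit 27293311784444156) (.br (nat_lit 4) (.cons (.br (nat_lit 5) (.cons (.rel (nat_lit 5368709634)) .nil)) .nil)) .leaf)))) (nat_lit 27293311784661772) (.br (nat_lit 0) (.cons (.br (nat_lit 4) (.cons (.rel (nat_lit 1078202373)) (.cons (.rel (nat_lit 2151678978)) (.cons (.rel (nat_lit 2151813120)) .nil)))) .nil)) (.node (.node (.node (.node (.node .leaf (nat_lit 27293311784749308) (.br (nat_lit 0) (.cons (.br (nat_lit 2) (.cons (.rel (nat_lit 71323908)) .nil)) .nil)) .leaf)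 (nat_lit 27293311784749712) (.br (nat_lit 2) (.cons (.br (nat_lit 3) (.cons (.rel (nat_lit 402661632)) .nil)) .nil)) .leaf) (nat_lit 27293311785009932) (.br (nat_lit 6) (.cons (.br (nat_lit 2) (.cons (.rel (nat_lit 17247010848)) (.cons (.rel (nat_lit 34493972496)) (.cons (.rel (nat_lit 17247010848)) .nil)))) .nil)) (.node .leaf (nat_lit 27293429400163590) (.br (nat_lit 0) (.cons (.br (nat_lit 2) (.cons (.rel (nat_lit 71376912)) .nil)) .nil)) .leaf)) (nat_lit 27293432041284865) (.br (nat_lit 0) (.cons (.br (nat_lit 1) (.cons (.rel (nat_lit 26214528)) .nil)) .nil)) (.node (.node .leaf (nat_lit 27293432043834644) (.br (nat_lit 0) (.cons (.br (nat_lit 2) (.cons (.rel (nat_lit 71303178)) .nil)) .nil)) .leaf) (nat_lit 27297312052117654) (.br (nat_lit 0) (.cons (.br (nat_lit 2) (.cons (.rel (nat_lit 71598144)) .nil)) .nil)) (.node .leaf (nat_lit 27298469113531053) (.br (nat_lit 0) (.cons (.br (nat_lit 2) (.cons (.rel (nat_lit 71312640)) .nil)) .nil)) .leaf))) (nat_lit 27298589369751702) (.br (nat_lit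 0) (.cons (.br (nat_lit 1) (.cons (.rel (nat_lit 23069700)) (.cons (.rel (nat_lit 23069700)) .nil))) .nil)) (.node (.node (.node .leaf (nat_lit 27298589369976982) (.br (nat_lit 0) (.cons (.br (nat_lit 4) (.cons (.rel (nat_lit 1078264836)) .nil)) .nil)) .leaf) (nat_lit 27298589371042477) (.br (nat_lit 0) (.cons (.br (nat_lit 2) (.cons (.rel (nat_lit 71303178)) .nil)) .nil)) (.node .leaf (nat_lit 27298589372874902) (.br (nat_lit 0) (.cons (.br (nat_lit 6) (.cons (.br (nat_lit 4) (.cons (.rel (nat_lit 2151813120)) (.cons (.rel (nat_lit 1082131476)) (.cons (.rel (nat_lit 36508270593)) .nil)))) .nil)) .nil)) .leaf)) (nat_lit 27298591949502490) (.br (nat_lit 0) (.cons (.br (nat_lit 2) (.cons (.rel (nat_lit 71303178)) .nil)) .nil)) (.node (.node .leaf (nat_lit 27298591952023607) (.br (nat_lit 0) (.cons (.br (nat_lit 4) (.cons (.br (nat_lit 6) (.cons (.rel (nat_lit 18257838096)) (.cons (.rel (nat_lit 18253971456)) .nil))) (.cons (.br (nat_lit 6) (.cons (.br (nat_lit 2) (.cons (.rel (nat_lit 1140852744))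 (.cons (.br (nat_lit 3) (.cons (.br (nat_lit 5) (.cons (.rel (nat_lit 21474902040)) (.cons (.rel (nat_lit 5368718340)) (.cons (.rel (nat_lit 5368718340)) (.cons (.rel (nat_lit 38923141128)) (.cons (.rel (nat_lit 38923141128)) (.cons (.rel (nat_lit 5368729608)) .nil))))))) (.cons (.rel (nat_lit 336593424)) (.cons (.rel (nat_lit 17851039776)) (.cons (.rel (nat_lit 272703492)) (.cons (.rel (nat_lit 2424307716)) (.cons (.rel (nat_lit 2424307716)) .nil))))))) (.cons (.rel (nat_lit 142606341)) (.cons (.br (nat_lit 1) (.cons (.rel (nat_lit 167772420)) (.cons (.rel (nat_lit 1094721540)) (.cons (.br (nat_lit 3) (.cons (.br (nat_lit 5) (.cons (.rel (nat_lit 21474902040)) (.cons (.rel (nat_lit 5368718340)) (.cons (.rel (nat_lit 5368718340)) (.cons (.rel (nat_lit 38923141128)) (.cons (.rel (nat_lit 8657059848)) (.cons (.rel (nat_lit 5368729608)) .nil))))))) (.cons (.rel (nat_lit 336593424)) (.cons (.rel (nat_lit 603979800)) (.cons (.rel (nat_lit 272703492)) (.cons (.rel (nat_lit 2424307716)) (.cons (.rel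 (nat_lit 2424307716)) .nil))))))) (.cons (.rel (nat_lit 43139073)) (.cons (.rel (nat_lit 83890464)) .nil)))))) .nil))))) (.cons (.rel (nat_lit 19331547204)) .nil))) .nil))) .nil)) .leaf) (nat_lit 27298591952286628) (.br (nat_lit 1) (.cons (.br (nat_lit 3) (.cons (.rel (nat_lit 285213216)) .nil)) .nil)) (.node .leaf (nat_lit 27298591952371862) (.br (nat_lit 6) (.cons (.br (nat_lit 2) (.cons (.rel (nat_lit 34493972496)) (.cons (.rel (nat_lit 17247010848)) (.cons (.rel (nat_lit 17247010848)) .nil)))) .nil)) .leaf)))))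

/-- refutations 185 -/
def e185 : EX := (.node (.node .leaf (nat_lit 27444260311770000) (.br (nat_lit 1) (.cons (.br (nat_lit 6) (.cons (.rel (nat_lit 17198776320)) (.cons (.rel (nat_lit 17213554944)) .nil))) .nil)) .leaf) (nat_lit 27449672449241868) (.br (nat_lit 2) (.cons (.br (nat_lit 0) (.cons (.br (nat_lit 5) (.cons (.rel (nat_lit 8657044752)) (.cons (.rel (nat_lit 4299163137)) (.cons (.rel (nat_lit 4299162132)) .nil)))) (.cons (.rel (nat_lit 71305233)) .nil))) .nil)) .leaf)

/-- refutations 186 -/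
def e186 : EX := (.node (.node (.node .leaf (nat_lit 27450514076575879) (.br (nat_lit 2) (.cons (.br (nat_lit 3) (.cons (.rel (nat_lit 402653220)) .nil)) .nil)) .leaf) (nat_lit 27454562214986009) (.br (nat_lit 0) (.cons (.br (nat_lit 5) (.cons (.rel (nat_lit 4299169824)) (.cons (.rel (nat_lit 8598339585)) .nil))) .nil)) .leaf) (nat_lit 27455083625158133) (.br (nat_lit 0) (.cons (.br (nat_lit 1) (.cons (.rel (nat_lit 26214528)) .nil)) .nil)) (.node (.node .leaf (nat_lit 27455086203275914) (.br (nat_lit 0) (.cons (.br (nat_lit 4) (.cons (.rel (nat_lit 1078002048)) .nil)) .nil)) .leaf) (nat_lit 27457182147316362) (.br (nat_lit 0) (.cons (.br (nat_lit 1) (.cons (.rel (nat_lit 26214528)) .nil)) .nil)) .leaf))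

/-- refutations 187 -/
def e187 : EX := (.node (.node (.node (.node (.node .leaf (nat_lit 27461726222479641) (.br (nat_lit 0) (.cons (.br (nat_lit 1) (.cons (.rel (nat_lit 37814280)) .nil)) .nil)) .leaf) (nat_lit 27462960592274934) (.br (nat_lit 0) (.cons (.br (nat_lit 1) (.cons (.rel (nat_lit 25247760)) .nil)) .nil)) .leaf) (nat_lit 27462960592780674) (.br (nat_lit 2) (.cons (.br (nat_lit 4) (.cons (.rel (nat_lit 1140859137)) (.cons (.rel (nat_lit 1140876288)) .nil))) (.cons (.br (nat_lit 5) (.cons (.rel (nat_lit 4363130880)) (.cons (.rel (nat_lit 4363142148)) .nil))) .nil))) (.node (.node .leaf (nat_lit 27462960594070914) (.br (nat_lit 2) (.cons (.br (nat_lit 6) (.cons (.rel (nat_lit 17246978565)) .nil)) .nil)) .leaf) (nat_lit 27462963171017484) (.br (nat_lit 2) (.cons (.br (nat_lit 6) (.cons (.rel (nat_lit 17246978565)) (.cons (.rel (nat_lit 17247010848)) (.cons (.rel (nat_lit 17314091136)) .nil)))) (.cons (.br (nat_lit 5) (.cons (.rel (nat_lit 4429217796)) (.cons (.rel (nat_lit 4363142148))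 .nil))) .nil))) .leaf)) (nat_lit 27462963171771894) (.br (nat_lit 0) (.cons (.br (nat_lit 1) (.cons (.rel (nat_lit 37748994)) (.cons (.rel (nat_lit 37766145)) .nil))) .nil)) (.node (.node (.node .leaf (nat_lit 27462963171918105) (.br (nat_lit 1) (.cons (.br (nat_lit 3) (.cons (.rel (nat_lit 285213216)) .nil)) .nil)) .leaf) (nat_lit 27462963172276505) (.br (nat_lit 1) (.cons (.br (nat_lit 0) (.cons (.rel (nat_lit 39845952)) (.cons (.rel (nat_lit 37765140)) .nil))) .nil)) .leaf) (nat_lit 27462963172277004) (.br (nat_lit 6) (.cons (.br (nat_lit 1) (.cons (.rel (nat_lit 17213423625)) (.cons (.rel (nat_lit 34376516640)) (.cons (.rel (nat_lit 17213425680)) .nil)))) .nil)) (.node .leaf (nat_lit 27462963173060889) (.br (nat_lit 0) (.cons (.br (nat_lit 2) (.cons (.rel (nat_lit 71305233)) (.cons (.rel (nat_lit 71320080)) .nil))) .nil)) .leaf))) (nat_lit 27462963173061388) (.br (nat_lit 0) (.cons (.br (nat_lit 1) (.cons (.rel (nat_lit 22544385)) .nil)) .nil)) (.node (.node (.node (.node .leaf (nat_lit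 27466776397973506) (.br (nat_lit 0) (.cons (.br (nat_lit 1) (.cons (.rel (nat_lit 25166337)) .nil)) .nil)) .leaf) (nat_lit 27467006939801750) (.br (nat_lit 0) (.cons (.br (nat_lit 5) (.cons (.rel (nat_lit 4299169824)) .nil)) .nil)) .leaf) (nat_lit 27467038066742183) (.br (nat_lit 0) (.cons (.br (nat_lit 6) (.cons (.rel (nat_lit 34363932933)) .nil)) .nil)) (.node .leaf (nat_lit 27467038713295629) (.br (nat_lit 0) (.cons (.br (nat_lit 1) (.cons (.rel (nat_lit 37748994)) .nil)) .nil)) .leaf)) (nat_lit 27467043389411633) (.br (nat_lit 0) (.cons (.br (nat_lit 2) (.cons (.rel (nat_lit 71305233)) .nil)) .nil)) (.node (.node (.node .leaf (nat_lit 27467043389412854) (.br (nat_lit 0) (.cons (.br (nat_lit 1) (.cons (.rel (nat_lit 25183488)) .nil)) .nil)) .leaf) (nat_lit 27467043391207705) (.br (nat_lit 1) (.cons (.br (nat_lit 2) (.cons (.rel (nat_lit 83919888)) .nil)) .nil)) .leaf) (nat_lit 27467043391992089) (.br (nat_lit 0) (.cons (.br (nat_lit 3) (.cons (.rel (nat_lit 272666625)) .nil)) .nil)) (.node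 .leaf (nat_lit 27467043392444697) (.br (nat_lit 0) (.cons (.br (nat_lit 1) (.cons (.rel (nat_lit 37765140)) .nil)) .nil)) .leaf))))

/-- refutations 188 -/
def e188 : EX := (.node (.node (.node (.node (.node .leaf (nat_lit 27467243789331084) (.br (nat_lit 0) (.cons (.br (nat_lit 1) (.cons (.br (nat_lit 2) (.cons (.rel (nat_lit 83895297)) .nil)) .nil)) .nil)) .leaf) (nat_lit 27467243790858521) (.br (nat_lit 1) (.cons (.br (nat_lit 2) (.cons (.br (nat_lit 4) (.cons (.rel (nat_lit 1107312642)) (.cons (.rel (nat_lit 1140852744)) (.cons (.rel (nat_lit 1107298560)) (.cons (.rel (nat_lit 1107362832)) .nil))))) .nil)) .nil)) (.node .leaf (nat_lit 27467243791642905) (.br (nat_lit 1) (.cons (.br (nat_lit 0) (.cons (.rel (nat_lit 37753872)) (.cons (.rel (nat_lit 25166337)) .nil))) .nil)) .leaf)) (nat_lit 27467244325884791) (.br (nat_lit 0) (.cons (.br (nat_lit 2) (.cons (.rel (nat_lit 142606341)) .nil)) .nil)) (.node (.node .leaf (nat_lit 27467244325933337) (.br (nat_lit 0) (.cons (.br (nat_lit 1) (.cons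 (.rel (nat_lit 21038208)) (.cons (.rel (nat_lit 23069700)) .nil))) .nil)) .leaf) (nat_lit 27467244325934582) (.br (nat_lit 0) (.cons (.br (nat_lit 1) (.cons (.rel (nat_lit 25166337)) (.cons (.rel (nat_lit 25296900)) .nil))) (.cons (.br (nat_lit 3) (.cons (.rel (nat_lit 276889680)) (.cons (.rel (nat_lit 545259537)) (.cons (.rel (nat_lit 272654352)) .nil)))) .nil))) (.node .leaf (nat_lit 27467244326202870) (.br (nat_lit 0) (.cons (.br (nat_lit 3) (.cons (.rel (nat_lit 273023040)) (.cons (.rel (nat_lit 272729088)) .nil))) (.cons (.br (nat_lit 3) (.cons (.rel (nat_lit 272699664)) (.cons (.rel (nat_lit 272631813)) .nil))) .nil))) .leaf))) (nat_lit 27467244326469782) (.br (nat_lit 2) (.cons (.br (nat_lit 5) (.cons (.rel (nat_lit 4362077280)) .nil)) .nil)) (.node (.node (.node .leaf (nat_lit 27467244327166632) (.br (nat_lit 1) (.cons (.br (nat_lit 2) (.cons (.rel (nat_lit 83886600)) .nil)) .nil)) .leaf) (nat_lit 27467244327223446) (.br (nat_lit 1) (.cons (.br (nat_lit 0) (.cons (.rel (nat_lit 22544385))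 (.cons (.br (nat_lit 5) (.cons (.rel (nat_lit 4312006752)) (.cons (.rel (nat_lit 4336911360)) .nil))) .nil))) .nil)) (.node .leaf (nat_lit 27467244327224822) (.br (nat_lit 0) (.cons (.br (nat_lit 1) (.cons (.rel (nat_lit 21234705)) (.cons (.rel (nat_lit 25296900)) (.cons (.rel (nat_lit 21038208)) .nil)))) (.cons (.br (nat_lit 1) (.cons (.rel (nat_lit 21233700)) (.cons (.rel (nat_lit 21233700)) (.cons (.rel (nat_lit 22544385)) .nil)))) (.cons (.br (nat_lit 4) (.cons (.rel (nat_lit 2151677973)) (.cons (.rel (nat_lit 2151677973)) (.cons (.rel (nat_lit 1082204160)) (.cons (.br (nat_lit 1) (.cons (.rel (nat_lit 23069700)) (.cons (.rel (nat_lit 1107362832)) (.cons (.rel (nat_lit 2164326672)) .nil)))) .nil))))) .nil)))) .leaf)) (nat_lit 27467244328513817) (.br (nat_lit 0) (.cons (.br (nat_lit 1) (.cons (.rel (nat_lit 25166337)) (.cons (.rel (nat_lit 37814280)) .nil))) (.cons (.br (nat_lit 1) (.cons (.rel (nat_lit 23069700)) (.cons (.rel (nat_lit 37814280)) .nil))) .nil))) (.node (.node .leaf (nat_lit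 27467244328662518) (.br (nat_lit 2) (.cons (.br (nat_lit 4) (.cons (.rel (nat_lit 1140850725)) .nil)) .nil)) .leaf) (nat_lit 27467244871726467) (.br (nat_lit 0) (.cons (.br (nat_lit 1) (.cons (.rel (nat_lit 37753872)) .nil)) .nil)) (.node .leaf (nat_lit 27467244872750467) (.br (nat_lit 0) (.cons (.br (nat_lit 1) (.cons (.rel (nat_lit 22024512)) .nil)) .nil)) .leaf)))) (nat_lit 27467246851172502) (.br (nat_lit 0) (.cons (.br (nat_lit 4) (.cons (.rel (nat_lit 1082204160)) (.cons (.rel (nat_lit 1082204160)) .nil))) .nil)) (.node (.node (.node (.node .leaf (nat_lit 27467246852399254) (.br (nat_lit 5) (.cons (.br (nat_lit 0) (.cons (.rel (nat_lit 8598327312)) (.cons (.rel (nat_lit 4299169824)) .nil))) .nil)) .leaf) (nat_lit 27467246852400031) (.br (nat_lit 0) (.cons (.br (nat_lit 5) (.cons (.rel (nat_lit 4299194370)) .nil)) .nil)) (.node .leaf (nat_lit 27467246853428127) (.br (nat_lit 3) (.cons (.br (nat_lit 6) (.cons (.rel (nat_lit 17448567108)) .nil)) .nil)) .leaf)) (nat_lit 27467246972540406)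 (.br (nat_lit 0) (.cons (.br (nat_lit 3) (.cons (.rel (nat_lit 272711937)) .nil)) .nil)) (.node (.node .leaf (nat_lit 27467246972807449) (.br (nat_lit 0) (.cons (.br (nat_lit 3) (.cons (.rel (nat_lit 272654352)) .nil)) .nil)) .leaf) (nat_lit 27467246972807820) (.br (nat_lit 0) (.cons (.br (nat_lit 1) (.cons (.rel (nat_lit 37753872)) .nil)) .nil)) (.node .leaf (nat_lit 27467246973792537) (.br (nat_lit 0) (.cons (.br (nat_lit 3) (.cons (.rel (nat_lit 272631813)) .nil)) .nil)) .leaf))) (nat_lit 27467246973830646) (.br (nat_lit 0) (.cons (.br (nat_lit 3) (.cons (.rel (nat_lit 272629794)) .nil)) .nil)) (.node (.node (.node .leaf (nat_lit 27467247270744245) (.br (nat_lit 1) (.cons (.br (nat_lit 2) (.cons (.rel (nat_lit 167837697)) .nil)) .nil)) .leaf) (nat_lit 27467248843116694) (.br (nat_lit 2) (.cons (.br (nat_lit 3) (.cons (.rel (nat_lit 335610948)) .nil)) .nil)) (.node .leaf (nat_lit 27469348860176534) (.br (nat_lit 0) (.cons (.br (nat_lit 1) (.cons (.rel (nat_lit 37748994)) .nil)) .nil)) .leaf))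 (nat_lit 27469348860177910) (.br (nat_lit 1) (.cons (.br (nat_lit 4) (.cons (.rel (nat_lit 1107312642)) (.cons (.rel (nat_lit 1090782216)) .nil))) .nil)) (.node (.node .leaf (nat_lit 27469348861465203) (.br (nat_lit 0) (.cons (.br (nat_lit 3) (.cons (.rel (nat_lit 272630808)) .nil)) .nil)) .leaf) (nat_lit 27469348862994582) (.br (nat_lit 4) (.cons (.br (nat_lit 5) (.cons (.br (nat_lit 2) (.cons (.rel (nat_lit 1140850725)) (.cons (.rel (nat_lit 1140852744)) (.cons (.rel (nat_lit 4363130880)) (.cons (.rel (nat_lit 4362077280)) .nil))))) .nil)) .nil)) .leaf))))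

/-- refutations 189 -/
def e189 : EX := (.node (.node (.node (.node .leaf (nat_lit 27474597087645846) (.br (nat_lit 0) (.cons (.br (nat_lit 2) (.cons (.rel (nat_lit 71304228)) .nil)) .nil)) .leaf) (nat_lit 27474597088899222) (.br (nat_lit 0) (.cons (.br (nat_lit 2) (.cons (.rel (nat_lit 71451648)) .nil)) .nil)) (.node .leaf (nat_lit 27474602531852569) (.br (nat_lit 0) (.cons (.br (nat_lit 1) (.cons (.rel (nat_lit 23069700)) .nil)) .nil)) .leaf)) (nat_lit 27474760519237782) (.br (nat_lit 2) (.cons (.br (nat_lit 4) (.cons (.rel (nat_lit 1140852744)) .nil)) .nil)) (.node (.node .leaf (nat_lit 27474763162670356) (.br (nat_lit 0) (.cons (.br (nat_lit 1) (.cons (.rel (nat_lit 21233700)) .nil)) .nil)) .leaf) (nat_lit 27474763162910082) (.br (nat_lit 2) (.cons (.br (nat_lit 4) (.cons (.rel (nat_lit 1140876288)) (.cons (.rel (nat_lit 1140852744)) .nil))) .nil)) (.node .leaf (nat_lit 27474763164197645) (.br (nat_lit 0) (.cons (.br (nat_lit 2) (.cons (.rel (nat_lit 75502656)) .nil)) .nil)) .leaf))) (nat_lit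 27474780828058380) (.br (nat_lit 5) (.cons (.br (nat_lit 3) (.cons (.rel (nat_lit 8858374146)) (.cons (.rel (nat_lit 4831908864)) .nil))) .nil)) (.node (.node (.node .leaf (nat_lit 27474780828059010) (.br (nat_lit 1) (.cons (.br (nat_lit 3) (.cons (.rel (nat_lit 570429444)) .nil)) .nil)) .leaf) (nat_lit 27474780829317270) (.br (nat_lit 3) (.cons (.br (nat_lit 5) (.cons (.rel (nat_lit 4563403860)) .nil)) .nil)) (.node .leaf (nat_lit 27474780829317900) (.br (nat_lit 6) (.cons (.br (nat_lit 3) (.cons (.rel (nat_lit 17448307200)) (.cons (.rel (nat_lit 17448307200)) .nil))) .nil)) .leaf)) (nat_lit 27474780830102284) (.br (nat_lit 0) (.cons (.br (nat_lit 3) (.cons (.rel (nat_lit 272699664)) (.cons (.rel (nat_lit 272629794)) .nil))) .nil)) (.node (.node .leaf (nat_lit 27474780830607510) (.br (nat_lit 0) (.cons (.br (nat_lit 1) (.cons (.rel (nat_lit 37765140)) (.cons (.rel (nat_lit 25166337)) .nil))) (.cons (.br (nat_lit 6) (.cons (.rel (nat_lit 17188274448)) (.cons (.rel (nat_lit 34363998210)) .nil)))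 .nil))) .leaf) (nat_lit 27474780830608140) (.br (nat_lit 4) (.cons (.br (nat_lit 5) (.cons (.rel (nat_lit 5368709634)) (.cons (.rel (nat_lit 5368718340)) .nil))) .nil)) (.node .leaf (nat_lit 27474780830608770) (.br (nat_lit 3) (.cons (.br (nat_lit 6) (.cons (.rel (nat_lit 17448307200)) .nil)) .nil)) .leaf))))

/-- refutations 190 -/
def e190 : EX := (.node (.node (.node .leaf (nat_lit 26499201564493337) (.br (nat_lit 1) (.cons (.br (nat_lit 2) (.cons (.rel (nat_lit 83902737)) .nil)) .nil)) .leaf) (nat_lit 26499201968828546) (.br (nat_lit 0) (.cons (.br (nat_lit 1) (.cons (.rel (nat_lit 25432128)) .nil)) .nil)) (.node .leaf (nat_lit 26501658252704380) (.br (nat_lit 0) (.cons (.br (nat_lit 1) (.cons (.rel (nat_lit 25166337)) .nil)) .nil)) .leaf)) (nat_lit 26501658252705301) (.br (nat_lit 0) (.cons (.br (nat_lit 3) (.cons (.rel (nat_lit 545259537)) .nil)) .nil)) (.node (.node .leaf (nat_lit 26501664157959399) (.br (nat_lit 0) (.cons (.br (nat_lit 3) (.cons (.rel (nat_lit 272699664)) .nil)) .nil))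 .leaf) (nat_lit 26505054568106771) (.br (nat_lit 0) (.cons (.br (nat_lit 1) (.cons (.rel (nat_lit 20975745)) (.cons (.rel (nat_lit 20975745)) .nil))) .nil)) .leaf))

/-- list of the parts -/
def L1 : List (ℕ × List ℕ) := [(nat_lit 0x2000000000000000000000000000000000000000000000000000000000000000000000000000000000000000000000000000000000000000000000000000000000000000000000000000000000000000000000000000000000000000000000000000, [cP]),
  (nat_lit 0x40000000000000000000000000000000000000000000000000000000000000000000000000000000000000000000000000000000000000000000000000000000000000000000000000000000000000000000000000000000000000000000000000000, [cP]),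
  (nat_lit 0x4000000000000000000000000000000000000000000000000000000000000000000000000000000000000000000000000000000000000000000000000000000000000000000000000000000000000000000000000000000000000000000000000000000000, [cP]),
  (nat_lit 0x8000000000000000000000000000000000000000000000000000000000000000000000000000000000000000000000000000000000000000000000000000000000000000000000000000000000000000000000000000000000000000000000000000000000000000000000000000, [Nat.sub (Nat.pow 2 915) (Nat.pow 2 0), Nat.sub (Nat.pow 2 3136) (Nat.pow 2 915)]),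
  (nat_lit 0x400000000000000000000000000000000000000000000000000000000000000000000000000000000000000000000000000000000000000000000000000000000000000000000000000000000000000000000000000000000000000000000000000000000000, [cP]),
  (nat_lit 0x20000000000000000000000000000000000000000000000000000000000000000000000000000000000000000000000000000000000000000000000000000000000000000000000000000000000000000000000000000000000000000000000000000000000000000000000000000, [cP]),
  (nat_lit 0x8000000000000000000000000000000000000000000000000000000000000000000000000000000000000000000000000000000000000000000000000000000000000000000000000000000000000000000000000000000000000000000000000000000000000000000000000000000, [Nat.sub (Nat.pow 2 259) (Nat.pow 2 0), Nat.sub (Nat.pow 2 1556) (Nat.pow 2 259), Nat.sub (Nat.pow 2 3136) (Nat.pow 2 1556)]),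
  (nat_lit 0x10000000000000000000000000000000000000000000000000000000000000000000000000000000000000000000000000000000000000000000000000000000000000000000000000000000000000000000000000000000000000000000000000000000000000000000000000000000000, [Nat.sub (Nat.pow 2 754) (Nat.pow 2 0), Nat.sub (Nat.pow 2 3136) (Nat.pow 2 754)]),
  (nat_lit 0x800000000000000000000000000000000000000000000000000000000000000000000000000000000000000000000000000000000000000000000000000000000000000000000000000000000000000000000000000000000000000000000000000000000000000000000000000000000000, [Nat.sub (Nat.pow 2 780) (Nat.pow 2 0), Nat.sub (Nat.pow 2 3136) (Nat.pow 2 780)]),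
  (nat_lit 0x20000200000000000000000000000000000000000000000000000000000000000000000000000000000000000000000000000000000000000000000000000000000000000000000000000000000000000000000000000000000000000000000000000000000000000000000000000000000, [cP]),
  (nat_lit 0x8000000000000000000000000000000000000000000000000000000000000000000000000000000000000000000000000000000000000000000000000000000000000000000000000000000000000000000000000000000000000000000000000000000000000000000000000000000000000, [Nat.sub (Nat.pow 2 285) (Nat.pow 2 0), Nat.sub (Nat.pow 2 911) (Nat.pow 2 285), Nat.sub (Nat.pow 2 3136) (Nat.pow 2 911)]),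
  (nat_lit 0x4000000000000000000000000000000000000000000000000000000000000000000000000000000000000000000000000000000000000000000000000000000000000000000000000000000000000000000000000000000000000000000000000000000000000000000000000000000000000, [cP]),
  (nat_lit 0x40000000000000000000000000000000000000000000000000000000000000000000000000000000000000000000000000000000000000000000000000000000000000000000000000000000000000000000000000000000000000000000000000000000000000000000000000000000000000000, [Nat.sub (Nat.pow 2 641) (Nat.pow 2 0), Nat.sub (Nat.pow 2 3136) (Nat.pow 2 641)]),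
  (nat_lit 0x400000000000000000000000000000000000000000000000000000000000000000000000000000000000000000000000000000000000000000000000000000000000000000000000000000000000000000000000000000000000000000000000000000000000000000000000000000000000000000, [Nat.sub (Nat.pow 2 686) (Nat.pow 2 0), Nat.sub (Nat.pow 2 3136) (Nat.pow 2 686)]),
  (nat_lit 0x800000000000000000000000000000000000000000000000000000000000000000000000000000000000000000000000000000000000000000000000000000000000000000000000000000000000000000000000000000000000000000000000000000000000000000000000000000000000000000, [Nat.sub (Nat.pow 2 684) (Nat.pow 2 0), Nat.sub (Nat.pow 2 929) (Nat.pow 2 684), Nat.sub (Nat.pow 2 3136) (Nat.pow 2 929)]),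
  (nat_lit 0x1000000000000000000000000000000000000000000000000000000000000000000000000000000000000000000000000000000000000000000000000000000000000000000000000000000000000000000000000000000000000000000000000000000000000000000000000000000000000000000, [Nat.sub (Nat.pow 2 629) (Nat.pow 2 0), Nat.sub (Nat.pow 2 1559) (Nat.pow 2 629), Nat.sub (Nat.pow 2 3136) (Nat.pow 2 1559)]),
  (nat_lit 0x10000000000000000000000000000000000000000000000000000000000000000000000000000000000000000000000000000000000000000000000000000000000000000000000000000000000000000000000000000000000000000000000000000000000000000000000000000000000000, [cP]),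
  (nat_lit 0x8000000000000000000000000000000000000000000000000000000000000000000000000000000000000000000000000000000000000000000000000000000000000000000000000000000000000000000000000000000000000000000000000000000000000000000000000000000000000000000, [cP]),
  (nat_lit 0x20000000000000000000000000000000000000000000000000000000000000000000000000000000000000000000000000000000000000000000000000000000000000000000000000000000000000000000000000000000000000000000000000000000000000000000000000000000000000000000, [cP]),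
  (nat_lit 0x40000000000000000000000000000000000000000000000000000000000000000000000000000000000000000000000000000000000000000000000000000000000000000000000000000000000000000000000000000000000000000000000000000000000000000000000000000000000000000000000000000000000000000000000000000000000000000000000000000000000000000000000000, [cP]),
  (nat_lit 0x10000000000000000000000000000000000000000000000000000000000000000000000000000000000000000000000000000000000000000000000000000000000000000000000000000000000000000000000000000000000000000000000000000000000000000000000000000000000000000000000000000000000000000000000000000000000000000000000000000000000000000000000000000, [Nat.sub (Nat.pow 2 761) (Nat.pow 2 0), Nat.sub (Nat.pow 2 1439) (Nat.pow 2 761), Nat.sub (Nat.pow 2 3136) (Nat.pow 2 1439)]),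
  (nat_lit 0x1000000000000000000000000000000000000000000000000000000000000000000000000000000000000000000000000000000000000000000000000000000000000000000000000000000000000000000000000000000000000000000000000000000000000000000000000000000000000000000000000000000000000000000000000000000000000000000000000000000000000000000000000000, [cP]),
  (nat_lit 0x100000000000000000000000000000000000000000000000000000000000000000000000000000000000000000000000000000000000000000000000000000000000000000000000000000000000000000000000000000000000000000000000000000000000000000000000000000000000000000000000000000000000000000000000000000000000000000000000000000000000000000000000000000000, [Nat.sub (Nat.pow 2 889) (Nat.pow 2 0), Nat.sub (Nat.pow 2 3136) (Nat.pow 2 889)]),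
  (nat_lit 0x4000000000000000000000000000000000000000000000000000000000000000000000000000000000000000000000000000000000000000000000000000000000000000000000000000000000000000000000000000000000000000000000000000000000000000000000000000000000000000000000000000000000000000000000000000000000000000000000000000000000000000000000000000000000, [Nat.sub (Nat.pow 2 784) (Nat.pow 2 0), Nat.sub (Nat.pow 2 3136) (Nat.pow 2 784)]),
  (nat_lit 0x40000000000000000000000000000000000000000000000000000000000000000000000000000000000000000000000000000000000000000000000000000000000000000000000000000000000000000000000000000000000000000000000000000000000000000000000000000000000000000000000000000000000000000000000000000000000000000000000000000000000000000000000000000000000, [Nat.sub (Nat.pow 2 315) (Nat.pow 2 0), Nat.sub (Nat.pow 2 911) (Nat.pow 2 315), Nat.sub (Nat.pow 2 3136) (Nat.pow 2 911)]),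
  (nat_lit 0x200000000000000000000000000000000000000000000000000000000000000000000000000000000000000000000000000000000000000000000000000000000000000000000000000000000000000000000000000000000000000000000000000000000000000000000000000000000000000000000000000000000000000000000000000000000000000000000000000000000000000000000000000000000000000, [Nat.sub (Nat.pow 2 315) (Nat.pow 2 0), Nat.sub (Nat.pow 2 1309) (Nat.pow 2 315), Nat.sub (Nat.pow 2 3136) (Nat.pow 2 1309)]),
  (nat_lit 0x400000000000000000000000000000000000000000000000000000000000000000000000000000000000000000000000000000000000000000000000000000000000000000000000000000000000000000000000000000000000000000000000000000000000000000000000000000000000000000000000000000000000000000000000000000000000000000000000000000000000000000000000000000000000000, [Nat.sub (Nat.pow 2 884) (Nat.pow 2 0), Nat.sub (Nat.pow 2 3136) (Nat.pow 2 884)]),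
  (nat_lit 0x800000000000000000000000000000000000000000000000000000000000000000000000000000000000000000000000000000000000000000000000000000000000000000000000000000000000000000000000000000000000000000000000000000000000000000000000000000000000000000000000000000000000000000000000000000000000000000000000000000000000000000000000000000000000000000000000000000000, [Nat.sub (Nat.pow 2 815) (Nat.pow 2 0), Nat.sub (Nat.pow 2 1286) (Nat.pow 2 815), Nat.sub (Nat.pow 2 1559) (Nat.pow 2 1286), Nat.sub (Nat.pow 2 3136) (Nat.pow 2 1559)]),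
  (nat_lit 0x40000000000000000000000000000000000000000000000000000000000000000000000000000000000000000000000000000000000000000000000000000000000000000000000000000000000000000000000000000000000000000000000000000000000000000000000000000000000000000000000000000000000000000000000000000000000000000000000000000000000000000000000000000, [cP]),
  (nat_lit 0x1000000000000000000000000000000000000000000000000000000000000000000000000000000000000000000000000000000000000000000000000000000000000000000000000000000000000000000000000000000000000000000000000000000000000000000000000000000000000000000000000000000000000000000000000000000000000000000000000000000000000000000000000000000000000000000000000000000000, [cP]),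
  (nat_lit 0x20000000000000000000000000000000000000000000000000000000000000000000000000000000000000000000000000000000000000000000000000000000000000000000000000000000000000000000000000000000000000000000000000000000000000000000000000000000000000000000000000000000000000000000000000000000000000000000000000000000000000000000000000000000000000000000000000000000000, [cP]),
  (nat_lit 0x4000000000000000000000000000000000000000000000000000000000000000000000000000000000000000000000000000000000000000000000000000000000000000000000000000000000000000000000000000000000000000000000000000000000000000000000000000000000000000000000000000000000000000000000000000000000000000000000000000000000000000000000000000000000000000000000000000000000000000, [Nat.sub (Nat.pow 2 655) (Nat.pow 2 0), Nat.sub (Nat.pow 2 931) (Nat.pow 2 655), Nat.sub (Nat.pow 2 3136) (Nat.pow 2 931)]),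
  (nat_lit 0x40000000000000000000000000000000000000000000000000000000000000000000000000000000000000000000000000000000000000000000000000000000000000000000000000000000000000000000000000000000000000000000000000000000000000000000000000000000000000000000000000000000000000000000000000000000000000000000000000000000000000000000000000000000000000000000000000000000000000000, [Nat.sub (Nat.pow 2 815) (Nat.pow 2 0), Nat.sub (Nat.pow 2 3136) (Nat.pow 2 815)]),
  (nat_lit 0x400000000000000000000000000000000000000000000000000000000000000000000000000000000000000000000000000000000000000000000000000000000000000000000000000000000000000000000000000000000000000000000000000000000000000000000000000000000000000000000000000000000000000000000000000000000000000000000000000000000000000000000000000000000000000000000000000000000000000000, [Nat.sub (Nat.pow 2 761) (Nat.pow 2 0), Nat.sub (Nat.pow 2 3136) (Nat.pow 2 761)]),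
  (nat_lit 0x20000800000000000000000000000000000000000000000000000000000000000000000000000000000000000000000000000000000000000000000000000000000000000000000000000000000000000000000000000000000000000000000000000000000000000000000000000000000000000000000000000000000000000000000000000000000000000000000000000000000000000000000000000000000000000000000000000000000000000, [cP]),
  (nat_lit 0x800000000000000000000000000000000000000000000000000000000000000000000000000000000000000000000000000000000000000000000000000000000000000000000000000000000000000000000000000000000000000000000000000000000000000000000000000000000000000000000000000000000000000000000000000000000000000000000000000000000000000000000000000000000000000000000000000000000000000000, [cP]),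
  (nat_lit 0x2000000000000000000000000000000000000000000000000000000000000000000000000000000000000000000000000000000000000000000000000000000000000000000000000000000000000000000000000000000000000000000000000000000000000000000000000000000000000000000000000000000000000000000000000000000000000000000000000000000000000000000000000000000000000000000000000000000000000000000000, [Nat.sub (Nat.pow 2 641) (Nat.pow 2 0), Nat.sub (Nat.pow 2 3136) (Nat.pow 2 641)]),
  (nat_lit 0x1000000000000000000000000000000000000000000000000000000000000000000000000000000000000000000000000000000000000000000000000000000000000000000000000000000000000000000000000000000000000000000000000000000000000000000000000000000000000000000000000000000000000000000000000000000000000000000000000000000000000000000000000000000000000000000000000000000000000000000, [cP]),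
  (nat_lit 0x40000000000000000000000000000000000000000000000000000000000000000000000000000000000000000000000000000000000000000000000000000000000000000000000000000000000000000000000000000000000000000000000000000000000000000000000000000000000000000000000000000000000000000000000000000000000000000000000000000000000000000000000000000000000000000000000000000000000000000000000, [Nat.sub (Nat.pow 2 891) (Nat.pow 2 0), Nat.sub (Nat.pow 2 3136) (Nat.pow 2 891)]),
  (nat_lit 0x8000000000000000000000000000000000000000000000000000000000000000000000000000000000000000000000000000000000000000000000000000000000000000000000000000000000000000000000000000000000000000000000000000000000000000000000000000000000000000000000000000000000000000000000000000000000000000000000000000000000000000000000000000000000000000000000000000000000000000000000, [cP]),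
  (nat_lit 0x80000000000000000000000000000000000000000000000000000000000000000000000000000000000000000000000000000000000000000000000000000000000000000000000000000000000000000000000000000000000000000000000000000000000000000000000000000000000000000000000000000000000000000000000000000000000000000000000000000000000000000000000000000000000000000000000000000000000000000000000, [cP]),
  (nat_lit 0x1000000000000000000000000000000000000000000000000000000000000000000000000000000000000000000000000000000000000000000000000000000000000000000000000000000000000000000000000000000000000000000000000000000000000000000000000000000000000000000000000000000000000000000000000000000000000000000000000000000000000000000000000000000000000000000000000000000000000000000000000, [Nat.sub (Nat.pow 2 780) (Nat.pow 2 0), Nat.sub (Nat.pow 2 1554) (Nat.pow 2 780), Nat.sub (Nat.pow 2 3136) (Nat.pow 2 1554)]),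
  (nat_lit 0x100000000000000000000000000000000000000000000000000000000000000000000000000000000000000000000000000000000000000000000000000000000000000000000000000000000000000000000000000000000000000000000000000000000000000000000000000000000000000000000000000000000000000000000000000000000000000000000000000000000000000000000000000000000000000000000000000000000000000000000000, [cP]),
  (nat_lit 0x10000000000000000000000000000000000000000000000000000000000000000000000000000000000000000000000000000000000000000000000000000000000000000000000000000000000000000000000000000000000000000000000000000000000000000000000000000000000000000000000000000000000000000000000000000000000000000000000000000000000000000000000000000000000000000000000000000000000000000000000000000000000000000, [cP]),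
  (nat_lit 0x800000000000000000000000000000000000000000000000000000000000000000000000000000000000000000000000000000000000000000000000000000000000000000000000000000000000000000000000000000000000000000000000000000000000000000000000000000000000000000000000000000000000000000000000000000000000000000000000000000000000000000000000000000000000000000000000000000000000000000000000000000000000000000, [Nat.sub (Nat.pow 2 635) (Nat.pow 2 0), Nat.sub (Nat.pow 2 3136) (Nat.pow 2 635)]),
  (nat_lit 0x10000000000000000000000000000000000000000000000000000000000000000000000000000000000000000000000000000000000000000000000000000000000000000000000000000000000000000000000000000000000000000000000000000000000000000000000000000000000000000000000000000000000000000000000000000000000000000000000000000000000000000000000000000000000000000000000000000000000000000000000000000000000000000000, [Nat.sub (Nat.pow 2 659) (Nat.pow 2 0), Nat.sub (Nat.pow 2 3136) (Nat.pow 2 659)]),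
  (nat_lit 0x40000000000000000000000000000000000000000000000000000000000000000000000000000000000000000000000000000000000000000000000000000000000000000000000000000000000000000000000000000000000000000000000000000000000000000000000000000000000000000000000000000000000000000000000000000000000000000000000000000000000000000000000000000000000000000000000000000000000000000000000000000000000000000000000, [Nat.sub (Nat.pow 2 684) (Nat.pow 2 0), Nat.sub (Nat.pow 2 3136) (Nat.pow 2 684)]),
  (nat_lit 0x400000000000000000000000000000000000000000000000000000000000000000000000000000000000000000000000000000000000000000000000000000000000000000000000000000000000000000000000000000000000000000000000000000000000000000000000000000000000000000000000000000000000000000000000000000000000000000000000000000000000000000000000000000000000000000000000000000000000000000000000000000000000000000000000, [Nat.sub (Nat.pow 2 664) (Nat.pow 2 0), Nat.sub (Nat.pow 2 3136) (Nat.pow 2 664)]),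
  (nat_lit 0x80000000000000000000000000000000000000000000000000000000000000000000000000000000000000000000000000000000000000000000000000000000000000000000000000000000000000000000000000000000000000000000000000000000000000000000000000000000000000000000000000000000000000000000000000000000000000000000000000000000000000000000000000000000000000000000000000000000000000000000000000000000000000000000000000000, [Nat.sub (Nat.pow 2 689) (Nat.pow 2 0), Nat.sub (Nat.pow 2 1554) (Nat.pow 2 689), Nat.sub (Nat.pow 2 3136) (Nat.pow 2 1554)]),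
  (nat_lit 0x10000000000000000000000000000000000000000000000000000000000000000000000000000000000000000000000000000000000000000000000000000000000000000000000000000000000000000000000000000000000000000000000000000000000000000000000000000000000000000000000000000000000000000000000000000000000000000000000000000000000000000000000000000000000000000000000000000000000000000000000000000000000000000000000000000000, [Nat.sub (Nat.pow 2 761) (Nat.pow 2 0), Nat.sub (Nat.pow 2 3136) (Nat.pow 2 761)]),
  (nat_lit 0x20000000000000000000000000000000000000000000000000000000000000000000000000000000000000000000000000000000000000000000000000000000000000000000000000000000000000000000000000000000000000000000000000000000000000000000000000000000000000000000000000000000000000000000000000000000000000000000000000000000000000000000000000000000000000000000000000000000000000000000000000000000000000000000000000000000, [Nat.sub (Nat.pow 2 684) (Nat.pow 2 0), Nat.sub (Nat.pow 2 1439) (Nat.pow 2 684), Nat.sub (Nat.pow 2 3136) (Nat.pow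 2 1439)]),
  (nat_lit 0x400000000000000000000000000000000000000000000000000000000000000000000000000000000000000000000000000000000000000000000000000000000000000000000000000000000000000000000000000000000000000000000000000000000000000000000000000000000000000000000000000000000000000000000000000000000000000000000000000000000000000000000000000000000000000000000000000000000000000000000000000000000000000000, [cP])]

theorem hp1 : ∀ p ∈ L1, ∀ D2 ∈ p.2, ∃ e,
    search ext94 (Pool.Agent.H74.EGZ.vio sb) G Uc A0 p.1 D2 e = true :=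
  (List.forall_mem_cons.2 ⟨(List.forall_mem_singleton.2 ⟨e97, by decide +kernel⟩),
  (List.forall_mem_cons.2 ⟨(List.forall_mem_singleton.2 ⟨e98, by decide +kernel⟩),
  (List.forall_mem_cons.2 ⟨(List.forall_mem_singleton.2 ⟨e99, by decide +kernel⟩),
  (List.forall_mem_cons.2 ⟨(List.forall_mem_cons.2 ⟨⟨e100, by decide +kernel⟩,
  (List.forall_mem_singleton.2 ⟨e101, by decide +kernel⟩)⟩),
  (List.forall_mem_cons.2 ⟨(List.forall_mem_singleton.2 ⟨e102, by decide +kernel⟩),
  (List.forall_mem_cons.2 ⟨(List.forall_mem_singleton.2 ⟨e103, by decide +kernel⟩),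
  (List.forall_mem_cons.2 ⟨(List.forall_mem_cons.2 ⟨⟨e104, by decide +kernel⟩,
  (List.forall_mem_cons.2 ⟨⟨e105, by decide +kernel⟩,
  (List.forall_mem_singleton.2 ⟨.leaf, by decide +kernel⟩)⟩)⟩),
  (List.forall_mem_cons.2 ⟨(List.forall_mem_cons.2 ⟨⟨e107, by decide +kernel⟩,
  (List.forall_mem_singleton.2 ⟨e108, by decide +kernel⟩)⟩),
  (List.forall_mem_cons.2 ⟨(List.forall_mem_cons.2 ⟨⟨e109, by decide +kernel⟩,
  (List.forall_mem_singleton.2 ⟨e110, by decide +kernel⟩)⟩),
  (List.forall_mem_cons.2 ⟨(List.forall_mem_singleton.2 ⟨e111, by decide +kernel⟩),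
  (List.forall_mem_cons.2 ⟨(List.forall_mem_cons.2 ⟨⟨e112, by decide +kernel⟩,
  (List.forall_mem_cons.2 ⟨⟨e113, by decide +kernel⟩,
  (List.forall_mem_singleton.2 ⟨e114, by decide +kernel⟩)⟩)⟩),
  (List.forall_mem_cons.2 ⟨(List.forall_mem_singleton.2 ⟨.leaf, by decide +kernel⟩),
  (List.forall_mem_cons.2 ⟨(List.forall_mem_cons.2 ⟨⟨e116, by decide +kernel⟩,
  (List.forall_mem_singleton.2 ⟨.leaf, by decide +kernel⟩)⟩),
  (List.forall_mem_cons.2 ⟨(List.forall_mem_cons.2 ⟨⟨e118, by decide +kernel⟩,
  (List.forall_mem_singleton.2 ⟨e119, by decide +kernel⟩)⟩),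
  (List.forall_mem_cons.2 ⟨(List.forall_mem_cons.2 ⟨⟨e120, by decide +kernel⟩,
  (List.forall_mem_cons.2 ⟨⟨e121, by decide +kernel⟩,
  (List.forall_mem_singleton.2 ⟨e122, by decide +kernel⟩)⟩)⟩),
  (List.forall_mem_cons.2 ⟨(List.forall_mem_cons.2 ⟨⟨e123, by decide +kernel⟩,
  (List.forall_mem_cons.2 ⟨⟨e124, by decide +kernel⟩,
  (List.forall_mem_singleton.2 ⟨.leaf, by decide +kernel⟩)⟩)⟩),
  (List.forall_mem_cons.2 ⟨(List.forall_mem_singleton.2 ⟨e126, by decide +kernel⟩),
  (List.forall_mem_cons.2 ⟨(List.forall_mem_singleton.2 ⟨e127, by decide +kernel⟩),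
  (List.forall_mem_cons.2 ⟨(List.forall_mem_singleton.2 ⟨e128, by decide +kernel⟩),
  (List.forall_mem_cons.2 ⟨(List.forall_mem_singleton.2 ⟨e129, by decide +kernel⟩),
  (List.forall_mem_cons.2 ⟨(List.forall_mem_cons.2 ⟨⟨e130, by decide +kernel⟩,
  (List.forall_mem_cons.2 ⟨⟨e131, by decide +kernel⟩,
  (List.forall_mem_singleton.2 ⟨.leaf, by decide +kernel⟩)⟩)⟩),
  (List.forall_mem_cons.2 ⟨(List.forall_mem_singleton.2 ⟨e133, by decide +kernel⟩),
  (List.forall_mem_cons.2 ⟨(List.forall_mem_cons.2 ⟨⟨e134, by decide +kernel⟩,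
  (List.forall_mem_singleton.2 ⟨e135, by decide +kernel⟩)⟩),
  (List.forall_mem_cons.2 ⟨(List.forall_mem_cons.2 ⟨⟨e136, by decide +kernel⟩,
  (List.forall_mem_singleton.2 ⟨e137, by decide +kernel⟩)⟩),
  (List.forall_mem_cons.2 ⟨(List.forall_mem_cons.2 ⟨⟨e138, by decide +kernel⟩,
  (List.forall_mem_cons.2 ⟨⟨e139, by decide +kernel⟩,
  (List.forall_mem_singleton.2 ⟨e140, by decide +kernel⟩)⟩)⟩),
  (List.forall_mem_cons.2 ⟨(List.forall_mem_cons.2 ⟨⟨e141, by decide +kernel⟩,
  (List.forall_mem_cons.2 ⟨⟨e142, by decide +kernel⟩,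
  (List.forall_mem_singleton.2 ⟨e143, by decide +kernel⟩)⟩)⟩),
  (List.forall_mem_cons.2 ⟨(List.forall_mem_cons.2 ⟨⟨e144, by decide +kernel⟩,
  (List.forall_mem_singleton.2 ⟨e145, by decide +kernel⟩)⟩),
  (List.forall_mem_cons.2 ⟨(List.forall_mem_cons.2 ⟨⟨e146, by decide +kernel⟩,
  (List.forall_mem_cons.2 ⟨⟨e147, by decide +kernel⟩,
  (List.forall_mem_cons.2 ⟨⟨e148, by decide +kernel⟩,
  (List.forall_mem_singleton.2 ⟨.leaf, by decide +kernel⟩)⟩)⟩)⟩),
  (List.forall_mem_cons.2 ⟨(List.forall_mem_singleton.2 ⟨e150, by decide +kernel⟩),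
  (List.forall_mem_cons.2 ⟨(List.forall_mem_singleton.2 ⟨e151, by decide +kernel⟩),
  (List.forall_mem_cons.2 ⟨(List.forall_mem_singleton.2 ⟨e152, by decide +kernel⟩),
  (List.forall_mem_cons.2 ⟨(List.forall_mem_cons.2 ⟨⟨e153, by decide +kernel⟩,
  (List.forall_mem_cons.2 ⟨⟨e154, by decide +kernel⟩,
  (List.forall_mem_singleton.2 ⟨e155, by decide +kernel⟩)⟩)⟩),
  (List.forall_mem_cons.2 ⟨(List.forall_mem_cons.2 ⟨⟨e156, by decide +kernel⟩,
  (List.forall_mem_singleton.2 ⟨e157, by decide +kernel⟩)⟩),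
  (List.forall_mem_cons.2 ⟨(List.forall_mem_cons.2 ⟨⟨e158, by decide +kernel⟩,
  (List.forall_mem_singleton.2 ⟨e159, by decide +kernel⟩)⟩),
  (List.forall_mem_cons.2 ⟨(List.forall_mem_singleton.2 ⟨.leaf, by decide +kernel⟩),
  (List.forall_mem_cons.2 ⟨(List.forall_mem_singleton.2 ⟨.leaf, by decide +kernel⟩),
  (List.forall_mem_cons.2 ⟨(List.forall_mem_cons.2 ⟨⟨e162, by decide +kernel⟩,
  (List.forall_mem_singleton.2 ⟨.leaf, by decide +kernel⟩)⟩),
  (List.forall_mem_cons.2 ⟨(List.forall_mem_singleton.2 ⟨e164, by decide +kernel⟩),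
  (List.forall_mem_cons.2 ⟨(List.forall_mem_cons.2 ⟨⟨e165, by decide +kernel⟩,
  (List.forall_mem_singleton.2 ⟨e166, by decide +kernel⟩)⟩),
  (List.forall_mem_cons.2 ⟨(List.forall_mem_singleton.2 ⟨e167, by decide +kernel⟩),
  (List.forall_mem_cons.2 ⟨(List.forall_mem_singleton.2 ⟨e168, by decide +kernel⟩),
  (List.forall_mem_cons.2 ⟨(List.forall_mem_cons.2 ⟨⟨e169, by decide +kernel⟩,
  (List.forall_mem_cons.2 ⟨⟨e170, by decide +kernel⟩,
  (List.forall_mem_singleton.2 ⟨.leaf, by decide +kernel⟩)⟩)⟩),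
  (List.forall_mem_cons.2 ⟨(List.forall_mem_singleton.2 ⟨e172, by decide +kernel⟩),
  (List.forall_mem_cons.2 ⟨(List.forall_mem_singleton.2 ⟨e173, by decide +kernel⟩),
  (List.forall_mem_cons.2 ⟨(List.forall_mem_cons.2 ⟨⟨e174, by decide +kernel⟩,
  (List.forall_mem_singleton.2 ⟨e175, by decide +kernel⟩)⟩),
  (List.forall_mem_cons.2 ⟨(List.forall_mem_cons.2 ⟨⟨e176, by decide +kernel⟩,
  (List.forall_mem_singleton.2 ⟨e177, by decide +kernel⟩)⟩),
  (List.forall_mem_cons.2 ⟨(List.forall_mem_cons.2 ⟨⟨e178, by decide +kernel⟩,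
  (List.forall_mem_singleton.2 ⟨e179, by decide +kernel⟩)⟩),
  (List.forall_mem_cons.2 ⟨(List.forall_mem_cons.2 ⟨⟨e180, by decide +kernel⟩,
  (List.forall_mem_singleton.2 ⟨e181, by decide +kernel⟩)⟩),
  (List.forall_mem_cons.2 ⟨(List.forall_mem_cons.2 ⟨⟨e182, by decide +kernel⟩,
  (List.forall_mem_cons.2 ⟨⟨e183, by decide +kernel⟩,
  (List.forall_mem_singleton.2 ⟨.leaf, by decide +kernel⟩)⟩)⟩),
  (List.forall_mem_cons.2 ⟨(List.forall_mem_cons.2 ⟨⟨e185, by decide +kernel⟩,
  (List.forall_mem_singleton.2 ⟨e186, by decide +kernel⟩)⟩),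
  (List.forall_mem_cons.2 ⟨(List.forall_mem_cons.2 ⟨⟨e187, by decide +kernel⟩,
  (List.forall_mem_cons.2 ⟨⟨e188, by decide +kernel⟩,
  (List.forall_mem_singleton.2 ⟨e189, by decide +kernel⟩)⟩)⟩),
  (List.forall_mem_singleton.2 (List.forall_mem_singleton.2 ⟨e190, by decide +kernel⟩))⟩)⟩)⟩)⟩)⟩)⟩)⟩)⟩)⟩)⟩)⟩)⟩)⟩)⟩)⟩)⟩)⟩)⟩)⟩)⟩)⟩)⟩)⟩)⟩)⟩)⟩)⟩)⟩)⟩)⟩)⟩)⟩)⟩)⟩)⟩)⟩)⟩)⟩)⟩)⟩)⟩)⟩)⟩)⟩)⟩)⟩)⟩)⟩)⟩)⟩)⟩)

end

end Pool.Agent.H21.EGZ.S17
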