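import Pool.Agent.H21.EGZ.D18

/-!
# Stage 18 : search, part 0
-/

set_option autoImplicit false
set_option maxRecDepth 100000

namespace Pool.Agent.H21.EGZ.S18

noncomputable section

open Pool.Agent.H74.EGZ Pool.Agent.H94.Lift

/-- refutations 0 -/
def e0 : EX := (.node (.node (.node .leaf (nat_lit 223589960931) (.br (nat_lit 1) (.cons (.br (nat_lit 3) (.cons (.rel (nat_lit 285216777)) .nil)) .nil)) .leaf) (nat_lit 5417033037854) (.br (nat_lit 0) (.cons (.br (nat_lit 1) (.cons (.rel (nat_lit 41943297)) .nil)) .nil)) .leaf) (nat_lit 5809679841910) (.br (nat_lit 3) (.cons (.br (nat_lit 5) (.cons (.rel (nat_lit 9126821904)) (.cons (.rel (nat_lit 4563419394)) .nil))) .nil)) (.node (.node .leaf (nat_lit 10783136156578) (.br (nat_lit 0) (.cons (.br (nat_lit 1) (.cons (.rel (nat_lit 20980752)) .nil)) .nil)) .leaf) (nat_lit 10966213332244) (.br (nat_lit 0) (.cons (.br (nat_lit 1) (.cons (.rel (nat_lit 41943297)) .nil)) .nil)) .leaf))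

/-- refutations 1 -/
def e1 : EX := (.node (.node .leaf (nat_lit 28566996190485) (.br (nat_lit 0) (.cons (.br (nat_lit 1) (.cons (.rel (nat_lit 20972034)) .nil)) .nil)) .leaf) (nat_lit 29878441738921) (.br (nat_lit 1) (.cons (.br (nat_lit 3) (.cons (.rel (nat_lit 570507264)) (.cons (.rel (nat_lit 285230088)) .nil))) .nil)) .leaf)

/-- refutations 3 -/
def e3 : EX := (.node (.node (.node (.node (.node .leaf (nat_lit 106036820184291) (.br (nat_lit 4) (.cons (.br (nat_lit 6) (.cons (.rel (nat_lit 18253611288)) .nil)) .nil)) .leaf) (nat_lit 106068726254819) (.br (nat_lit 3) (.cons (.br (nat_lit 4) (.cons (.rel (nat_lit 2684355600)) .nil)) .nil)) .leaf) (nat_lit 110967442638878) (.br (nat_lit 3) (.cons (.br (nat_lit 1) (.cons (.rel (nat_lit 286343232)) (.cons (.rel (nat_lit 285230088)) .nil))) .nil)) (.node .leaf (nat_lit 110967442638908) (.br (nat_lit 0) (.cons (.br (nat_lit 6) (.cons (.rel (nat_lit 17184068688)) (.cons (.rel (nat_lit 17184079941)) .nil))) .nil)) .leaf)) (nat_lit 110967442639529) (.br (nat_lit 4) (.cons (.br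 (nat_lit 0) (.cons (.rel (nat_lit 2153250816)) (.cons (.rel (nat_lit 2151944193)) .nil))) .nil)) (.node (.node .leaf (nat_lit 110967442640108) (.br (nat_lit 4) (.cons (.br (nat_lit 3) (.cons (.rel (nat_lit 1342179360)) (.cons (.rel (nat_lit 1342194180)) (.cons (.rel (nat_lit 1342199040)) .nil)))) (.cons (.br (nat_lit 1) (.cons (.rel (nat_lit 2181103680)) (.cons (.rel (nat_lit 1091572224)) (.cons (.rel (nat_lit 2181103680)) .nil)))) .nil))) .leaf) (nat_lit 110967442688801) (.br (nat_lit 0) (.cons (.br (nat_lit 3) (.cons (.rel (nat_lit 272703552)) .nil)) .nil)) (.node .leaf (nat_lit 110967445263842) (.br (nat_lit 3) (.cons (.br (nat_lit 4) (.cons (.rel (nat_lit 1342178313)) .nil)) .nil)) .leaf))) (nat_lit 111233730715675) (.br (nat_lit 0) (.cons (.br (nat_lit 3) (.cons (.rel (nat_lit 272646720)) .nil)) .nil)) (.node (.node (.node .leaf (nat_lit 111233732007145) (.br (nat_lit 1) (.cons (.br (nat_lit 2) (.cons (.rel (nat_lit 100664352)) .nil)) .nil)) .leaf) (nat_lit 111233733241513) (.br (nat_lit 0) (.cons (.br (nat_lit 3) (.cons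 (.rel (nat_lit 272896020)) .nil)) .nil)) (.node .leaf (nat_lit 113287857490601) (.br (nat_lit 1) (.cons (.br (nat_lit 3) (.cons (.rel (nat_lit 285216777)) .nil)) .nil)) .leaf)) (nat_lit 113287858073756) (.br (nat_lit 0) (.cons (.br (nat_lit 1) (.cons (.rel (nat_lit 41943297)) .nil)) .nil)) (.node (.node .leaf (nat_lit 113287860071081) (.br (nat_lit 1) (.cons (.br (nat_lit 3) (.cons (.rel (nat_lit 285229077)) .nil)) .nil)) .leaf) (nat_lit 116785657932403) (.br (nat_lit 3) (.cons (.br (nat_lit 6) (.cons (.rel (nat_lit 17716745217)) .nil)) .nil)) (.node .leaf (nat_lit 118547390413427) (.br (nat_lit 0) (.cons (.br (nat_lit 1) (.cons (.rel (nat_lit 41943297)) .nil)) .nil)) .leaf))))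

/-- refutations 4 -/
def e4 : EX := (.node (.node .leaf (nat_lit 196102284381415) (.br (nat_lit 0) (.cons (.br (nat_lit 2) (.cons (.rel (nat_lit 71303688)) .nil)) .nil)) .leaf) (nat_lit 198885424478889) (.br (nat_lit 0) (.cons (.br (nat_lit 2) (.cons (.rel (nat_lit 142606596)) .nil)) .nil)) .leaf)

/-- refutations 5 -/
def e5 : EX := (.node (.node (.node (.node .leaf (nat_lit 211364045221127) (.br (nat_lit 2) (.cons (.br (nat_lit 4) (.cons (.rel (nat_lit 1207992324)) .nil)) .nil)) .leaf) (nat_lit 211621867685924) (.br (nat_lit 0) (.cons (.br (nat_lit 4) (.cons (.rel (nat_lit 1077969408)) .nil)) .nil)) .leaf) (nat_lit 211621867687145) (.br (nat_lit 0) (.cons (.br (nat_lit 3) (.cons (.rel (nat_lit 276907008)) .nil)) .nil)) (.node .leaf (nat_lit 216574831665179) (.br (nat_lit 0) (.cons (.br (nat_lit 1) (.cons (.rel (nat_lit 20980752)) .nil)) .nil)) .leaf)) (nat_lit 221866120991405) (.br (nat_lit 1) (.cons (.br (nat_lit 5) (.cons (.rel (nat_lit 4328525826)) .nil)) .nil)) (.node (.node .leaf (nat_lit 222293062061283) (.br (nat_lit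 1) (.cons (.br (nat_lit 2) (.cons (.rel (nat_lit 83887236)) .nil)) .nil)) .leaf) (nat_lit 224048966051891) (.br (nat_lit 0) (.cons (.br (nat_lit 1) (.cons (.rel (nat_lit 21005316)) .nil)) .nil)) (.node .leaf (nat_lit 224057555742232) (.br (nat_lit 0) (.cons (.br (nat_lit 1) (.cons (.rel (nat_lit 20988192)) .nil)) .nil)) .leaf)))

/-- refutations 6 -/
def e6 : EX := (.node (.node (.node (.node .leaf (nat_lit 475246960314374) (.br (nat_lit 1) (.cons (.br (nat_lit 3) (.cons (.rel (nat_lit 285214977)) .nil)) .nil)) .leaf) (nat_lit 475246962944660) (.br (nat_lit 1) (.cons (.br (nat_lit 3) (.cons (.rel (nat_lit 285229077)) .nil)) .nil)) (.node .leaf (nat_lit 475246962945275) (.br (nat_lit 1) (.cons (.br (nat_lit 3) (.cons (.rel (nat_lit 285279249)) .nil)) .nil)) .leaf)) (nat_lit 480360402571945) (.br (nat_lit 1) (.cons (.br (nat_lit 3) (.cons (.rel (nat_lit 285237504)) .nil)) .nil)) (.node (.node .leaf (nat_lit 480455103138452) (.br (nat_lit 0) (.cons (.br (nat_lit 2) (.cons (.rel (nat_lit 71336961)) .nil)) .nil)) .leaf) (nat_lit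 480626689161222) (.br (nat_lit 0) (.cons (.br (nat_lit 3) (.cons (.rel (nat_lit 276856836)) .nil)) .nil)) .leaf)) (nat_lit 480626690544297) (.br (nat_lit 0) (.cons (.br (nat_lit 2) (.cons (.rel (nat_lit 76677120)) (.cons (.rel (nat_lit 71303688)) (.cons (.rel (nat_lit 75513984)) .nil)))) .nil)) (.node (.node (.node .leaf (nat_lit 480850655643010) (.br (nat_lit 0) (.cons (.br (nat_lit 3) (.cons (.rel (nat_lit 541130769)) .nil)) .nil)) .leaf) (nat_lit 481537851639287) (.br (nat_lit 0) (.cons (.br (nat_lit 1) (.cons (.rel (nat_lit 20988192)) .nil)) .nil)) .leaf) (nat_lit 481540014345617) (.br (nat_lit 0) (.cons (.br (nat_lit 3) (.cons (.rel (nat_lit 541066497)) .nil)) .nil)) (.node (.node .leaf (nat_lit 482723852780947) (.br (nat_lit 0) (.cons (.br (nat_lit 1) (.cons (.rel (nat_lit 20980752)) .nil)) .nil)) .leaf) (nat_lit 485789216068265) (.br (nat_lit 0) (.cons (.br (nat_lit 1) (.cons (.rel (nat_lit 20972034)) .nil)) .nil)) .leaf)))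

/-- refutations 7 -/
def e7 : EX := (.node (.node (.node .leaf (nat_lit 528283644987419) (.br (nat_lit 0) (.cons (.br (nat_lit 3) (.cons (.rel (nat_lit 274731264)) .nil)) .nil)) .leaf) (nat_lit 528283647648419) (.br (nat_lit 1) (.cons (.br (nat_lit 3) (.cons (.rel (nat_lit 285212964)) .nil)) .nil)) .leaf) (nat_lit 538591528750307) (.br (nat_lit 0) (.cons (.br (nat_lit 1) (.cons (.rel (nat_lit 21055488)) .nil)) .nil)) (.node .leaf (nat_lit 538591566498704) (.br (nat_lit 0) (.cons (.br (nat_lit 1) (.cons (.rel (nat_lit 22298628)) .nil)) .nil)) .leaf))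

/-- refutations 8 -/
def e8 : EX := (.node (.node (.node (.node .leaf (nat_lit 633834220901609) (.br (nat_lit 0) (.cons (.br (nat_lit 2) (.cons (.rel (nat_lit 71336961)) .nil)) .nil)) .leaf) (nat_lit 633836763116921) (.br (nat_lit 1) (.cons (.br (nat_lit 6) (.cons (.rel (nat_lit 17196664065)) .nil)) .nil)) (.node .leaf (nat_lit 638910872244281) (.br (nat_lit 0) (.cons (.br (nat_lit 3) (.cons (.rel (nat_lit 541066497)) .nil)) .nil)) .leaf)) (nat_lit 638913412597922) (.br (nat_lit 0) (.cons (.br (nat_lit 4) (.cons (.rel (nat_lit 1077940230)) (.cons (.rel (nat_lit 1077952530)) (.cons (.rel (nat_lit 1077952530)) .nil)))) .nil)) (.node (.node .leaf (nat_lit 638913412599017) (.br (nat_lit 3) (.cons (.br (nat_lit 0) (.cons (.rel (nat_lit 276856836)) (.cons (.rel (nat_lit 272629842)) .nil))) .nil)) .leaf) (nat_lit 638913413992505) (.br (nat_lit 0) (.cons (.br (nat_lit 2) (.cons (.rel (nat_lit 71336961)) .nil)) .nil)) .leaf)) (nat_lit 638917039659938) (.br (nat_lit 1) (.cons (.br (nat_lit 3) (.cons (.rel (nat_lit 285229077)) .nil))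 .nil)) (.node (.node (.node .leaf (nat_lit 640236262525810) (.br (nat_lit 3) (.cons (.br (nat_lit 0) (.cons (.rel (nat_lit 272629842)) (.cons (.rel (nat_lit 541102338)) .nil))) .nil)) .leaf) (nat_lit 640236262526183) (.br (nat_lit 3) (.cons (.br (nat_lit 0) (.cons (.rel (nat_lit 272629842)) (.cons (.rel (nat_lit 276907008)) .nil))) .nil)) .leaf) (nat_lit 640236262526329) (.br (nat_lit 0) (.cons (.br (nat_lit 3) (.cons (.rel (nat_lit 272629842)) (.cons (.rel (nat_lit 276832272)) .nil))) .nil)) (.node (.node .leaf (nat_lit 640236867808633) (.br (nat_lit 0) (.cons (.br (nat_lit 4) (.cons (.rel (nat_lit 1082130564)) .nil)) .nil)) .leaf) (nat_lit 640236867808792) (.br (nat_lit 0) (.cons (.br (nat_lit 6) (.cons (.rel (nat_lit 17184130113)) .nil)) .nil)) .leaf)))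

/-- refutations 9 -/
def e9 : EX := (.node (.node (.node (.node .leaf (nat_lit 644588943445225) (.br (nat_lit 3) (.cons (.br (nat_lit 4) (.cons (.rel (nat_lit 1342194180)) .nil)) .nil)) .leaf) (nat_lit 644591359363107) (.br (nat_lit 1) (.cons (.br (nat_lit 3) (.cons (.rel (nat_lit 571473984)) .nil)) .nil)) .leaf) (nat_lit 644591359363707) (.br (nat_lit 2) (.cons (.br (nat_lit 3) (.cons (.rel (nat_lit 335545620)) .nil)) .nil)) (.node (.node .leaf (nat_lit 644591359363709) (.br (nat_lit 0) (.cons (.br (nat_lit 4) (.cons (.rel (nat_lit 1079246853)) .nil)) .nil)) .leaf) (nat_lit 644591359364327) (.br (nat_lit 6) (.cons (.br (nat_lit 1) (.cons (.rel (nat_lit 17196647952)) (.cons (.rel (nat_lit 17196654612)) .nil))) .nil)) .leaf)) (nat_lit 644591359364354) (.br (nat_lit 1) (.cons (.br (nat_lit 0) (.cons (.rel (nat_lit 20980752)) (.cons (.rel (nat_lit 21512256)) .nil))) .nil)) (.node (.node (.node .leaf (nat_lit 644591361997437) (.br (nat_lit 5) (.cons (.br (nat_lit 0) (.cons (.rel (nat_lit 8594423808)) (.cons (.rel (nat_lit 8594129217))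 .nil))) .nil)) .leaf) (nat_lit 644594165875315) (.br (nat_lit 0) (.cons (.br (nat_lit 4) (.cons (.rel (nat_lit 1077942288)) .nil)) .nil)) .leaf) (nat_lit 644594986425250) (.br (nat_lit 2) (.cons (.br (nat_lit 1) (.cons (.rel (nat_lit 150994950)) (.cons (.rel (nat_lit 83886225)) .nil))) .nil)) (.node .leaf (nat_lit 646467592166306) (.br (nat_lit 1) (.cons (.br (nat_lit 3) (.cons (.rel (nat_lit 285230088)) .nil)) .nil)) .leaf)))

/-- refutations 10 -/
def e10 : EX := (.node (.node (.node (.node .leaf (nat_lit 879838011851407) (.br (nat_lit 3) (.cons (.br (nat_lit 6) (.cons (.rel (nat_lit 34628304900)) .nil)) .nil)) .leaf) (nat_lit 880090390296638) (.br (nat_lit 1) (.cons (.br (nat_lit 2) (.cons (.rel (nat_lit 150997008)) .nil)) .nil)) (.node .leaf (nat_lit 880090468583430) (.br (nat_lit 1) (.cons (.br (nat_lit 3) (.cons (.rel (nat_lit 285216777)) .nil)) .nil)) .leaf)) (nat_lit 880090468584060) (.br (nat_lit 1) (.cons (.br (nat_lit 3) (.cons (.rel (nat_lit 285280260)) .nil)) .nil)) (.node (.node .leaf (nat_lit 880090468584079)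 (.br (nat_lit 1) (.cons (.br (nat_lit 4) (.cons (.rel (nat_lit 1091109888)) .nil)) .nil)) .leaf) (nat_lit 880090470377724) (.br (nat_lit 1) (.cons (.br (nat_lit 6) (.cons (.rel (nat_lit 17196650754)) .nil)) .nil)) .leaf)) (nat_lit 880090471213088) (.br (nat_lit 0) (.cons (.br (nat_lit 1) (.cons (.rel (nat_lit 20988192)) .nil)) .nil)) (.node (.node (.node .leaf (nat_lit 880093006137350) (.br (nat_lit 1) (.cons (.br (nat_lit 3) (.cons (.rel (nat_lit 285216777)) (.cons (.rel (nat_lit 285229077)) .nil))) .nil)) .leaf) (nat_lit 880093007427590) (.br (nat_lit 1) (.cons (.br (nat_lit 3) (.cons (.rel (nat_lit 285217824)) .nil)) .nil)) (.node .leaf (nat_lit 880093190686782) (.br (nat_lit 3) (.cons (.br (nat_lit 4) (.cons (.rel (nat_lit 1342194180)) .nil)) .nil)) .leaf)) (nat_lit 880726748694590) (.br (nat_lit 1) (.cons (.br (nat_lit 3) (.cons (.rel (nat_lit 285216777)) .nil)) .nil)) (.node (.node .leaf (nat_lit 885289917857799) (.br (nat_lit 0) (.cons (.br (nat_lit 2) (.cons (.rel (nat_lit 142606596)) (.cons (.rel (nat_lit 71323650))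 .nil))) .nil)) .leaf) (nat_lit 885427356910249) (.br (nat_lit 0) (.cons (.br (nat_lit 1) (.cons (.rel (nat_lit 20992005)) .nil)) .nil)) .leaf)))

/-- refutations 11 -/
def e11 : EX := (.node (.node (.node (.node .leaf (nat_lit 886148910025385) (.br (nat_lit 0) (.cons (.br (nat_lit 1) (.cons (.rel (nat_lit 21005316)) .nil)) .nil)) .leaf) (nat_lit 886154964985862) (.br (nat_lit 1) (.cons (.br (nat_lit 2) (.cons (.rel (nat_lit 100663305)) .nil)) .nil)) (.node .leaf (nat_lit 886158241250565) (.br (nat_lit 0) (.cons (.br (nat_lit 2) (.cons (.rel (nat_lit 71323650)) .nil)) .nil)) .leaf)) (nat_lit 890409517582386) (.br (nat_lit 1) (.cons (.br (nat_lit 4) (.cons (.rel (nat_lit 1091059716)) .nil)) .nil)) (.node (.node .leaf (nat_lit 890409517583146) (.br (nat_lit 1) (.cons (.br (nat_lit 3) (.cons (.rel (nat_lit 285282816)) .nil)) .nil)) .leaf) (nat_lit 890438116967055) (.br (nat_lit 3) (.cons (.br (nat_lit 1) (.cons (.rel (nat_lit 285230088)) (.cons (.rel (nat_lit 553910352)) .nil))) .nil)) (.node .leaf (nat_lit 890455296836239) (.br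 (nat_lit 0) (.cons (.br (nat_lit 6) (.cons (.rel (nat_lit 17188356096)) .nil)) .nil)) .leaf))) (nat_lit 890881963984926) (.br (nat_lit 0) (.cons (.br (nat_lit 1) (.cons (.rel (nat_lit 20972034)) .nil)) .nil)) (.node (.node (.node .leaf (nat_lit 890881963984958) (.br (nat_lit 0) (.cons (.br (nat_lit 1) (.cons (.rel (nat_lit 20972034)) .nil)) .nil)) .leaf) (nat_lit 890881963985533) (.br (nat_lit 1) (.cons (.br (nat_lit 0) (.cons (.rel (nat_lit 20975892)) (.cons (.rel (nat_lit 20972034)) .nil))) .nil)) (.node .leaf (nat_lit 890884749003389) (.br (nat_lit 0) (.cons (.br (nat_lit 1) (.cons (.rel (nat_lit 20975892)) .nil)) .nil)) .leaf)) (nat_lit 892711620102151) (.br (nat_lit 0) (.cons (.br (nat_lit 1) (.cons (.rel (nat_lit 20980752)) .nil)) .nil)) (.node (.node .leaf (nat_lit 892714449595303) (.br (nat_lit 1) (.cons (.br (nat_lit 2) (.cons (.rel (nat_lit 84934917)) .nil)) .nil)) .leaf) (nat_lit 892714449633935) (.br (nat_lit 1) (.cons (.br (nat_lit 2) (.cons (.rel (nat_lit 84953088)) .nil)) .nil)) .leaf)))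

/-- refutations 12 -/
def e12 : EX := (.node (.node (.node .leaf (nat_lit 545675805964294) (.br (nat_lit 2) (.cons (.br (nat_lit 4) (.cons (.rel (nat_lit 1207967760)) .nil)) .nil)) .leaf) (nat_lit 552232965894305) (.br (nat_lit 0) (.cons (.br (nat_lit 2) (.cons (.rel (nat_lit 71336961)) .nil)) .nil)) (.node .leaf (nat_lit 553364849266067) (.br (nat_lit 0) (.cons (.br (nat_lit 1) (.cons (.rel (nat_lit 26280192)) .nil)) .nil)) .leaf)) (nat_lit 556100666002064) (.br (nat_lit 0) (.cons (.br (nat_lit 2) (.cons (.rel (nat_lit 142606596)) .nil)) .nil)) (.node (.node .leaf (nat_lit 556404665021101) (.br (nat_lit 0) (.cons (.br (nat_lit 2) (.cons (.rel (nat_lit 142611456)) .nil)) .nil)) .leaf) (nat_lit 556590096837919) (.br (nat_lit 3) (.cons (.br (nat_lit 5) (.cons (.rel (nat_lit 4563435552)) .nil)) .nil)) (.node .leaf (nat_lit 556590099276428) (.br (nat_lit 1) (.cons (.br (nat_lit 3) (.cons (.rel (nat_lit 285217824)) .nil)) .nil)) .leaf)))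

/-- refutations 13 -/
def e13 : EX := (.node (.node (.node (.node .leaf (nat_lit 897427494144060) (.br (nat_lit 4) (.cons (.br (nat_lit 2) (.cons (.br (nat_lit 1) (.cons (.rel (nat_lit 1107312912)) (.cons (.rel (nat_lit 1091059716)) (.cons (.rel (nat_lit 152047680)) .nil)))) (.cons (.rel (nat_lit 1141391361)) .nil))) .nil)) .leaf) (nat_lit 897427494145301) (.br (nat_lit 0) (.cons (.br (nat_lit 3) (.cons (.rel (nat_lit 272630853)) (.cons (.rel (nat_lit 277873728)) .nil))) (.cons (.br (nat_lit 3) (.cons (.rel (nat_lit 272630853)) (.cons (.rel (nat_lit 272630853)) .nil))) .nil))) (.node .leaf (nat_lit 897430279163157) (.br (nat_lit 0) (.cons (.br (nat_lit 4) (.cons (.rel (nat_lit 1077942288)) .nil)) .nil)) .leaf)) (nat_lit 903735293786272) (.br (nat_lit 1) (.cons (.br (nat_lit 4) (.cons (.rel (nat_lit 1090783296)) .nil)) .nil)) (.node (.node .leaf (nat_lit 903735302165137) (.br (nat_lit 0) (.cons (.br (nat_lit 4) (.cons (.rel (nat_lit 1077953541)) .nil)) .nil)) .leaf) (nat_lit 905251001995921) (.br (nat_lit 3) (.cons (.br (nat_lit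 4) (.cons (.rel (nat_lit 1342199040)) .nil)) .nil)) .leaf)) (nat_lit 905254074158488) (.br (nat_lit 0) (.cons (.br (nat_lit 1) (.cons (.rel (nat_lit 41943297)) .nil)) .nil)) (.node (.node (.node .leaf (nat_lit 907961538971708) (.br (nat_lit 1) (.cons (.br (nat_lit 5) (.cons (.rel (nat_lit 4312039488)) .nil)) .nil)) .leaf) (nat_lit 907961538972898) (.br (nat_lit 1) (.cons (.br (nat_lit 2) (.cons (.rel (nat_lit 84213828)) .nil)) .nil)) (.node .leaf (nat_lit 907961541606028) (.br (nat_lit 1) (.cons (.br (nat_lit 4) (.cons (.rel (nat_lit 2181103680)) (.cons (.rel (nat_lit 1090650240)) .nil))) .nil)) .leaf)) (nat_lit 907961541606632) (.br (nat_lit 0) (.cons (.br (nat_lit 1) (.cons (.rel (nat_lit 20988192)) (.cons (.rel (nat_lit 20972034)) .nil))) (.cons (.br (nat_lit 1) (.cons (.rel (nat_lit 26234880)) (.cons (.rel (nat_lit 21004305)) .nil))) .nil))) (.node (.node .leaf (nat_lit 908030304585788) (.br (nat_lit 1) (.cons (.br (nat_lit 3) (.cons (.rel (nat_lit 285230088)) .nil)) .nil)) .leaf) (nat_lit 908030304696956) (.br (nat_lit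 0) (.cons (.br (nat_lit 4) (.cons (.rel (nat_lit 2155888896)) .nil)) .nil)) .leaf)))

/-- refutations 14 -/
def e14 : EX := (.node (.node (.node (.node .leaf (nat_lit 1096610897463352) (.br (nat_lit 0) (.cons (.br (nat_lit 2) (.cons (.rel (nat_lit 71307537)) .nil)) .nil)) .leaf) (nat_lit 1096610897464556) (.br (nat_lit 0) (.cons (.br (nat_lit 4) (.cons (.rel (nat_lit 1077942288)) .nil)) .nil)) .leaf) (nat_lit 1101498570246200) (.br (nat_lit 3) (.cons (.br (nat_lit 1) (.cons (.rel (nat_lit 285217824)) (.cons (.rel (nat_lit 285229077)) .nil))) .nil)) (.node .leaf (nat_lit 1101498570246205) (.br (nat_lit 0) (.cons (.br (nat_lit 3) (.cons (.rel (nat_lit 272908320)) .nil)) .nil)) .leaf)) (nat_lit 1101541519919155) (.br (nat_lit 0) (.cons (.br (nat_lit 1) (.cons (.rel (nat_lit 20972034)) .nil)) .nil)) (.node (.node .leaf (nat_lit 1101541519919165) (.br (nat_lit 0) (.cons (.br (nat_lit 3) (.cons (.rel (nat_lit 276832272)) .nil)) .nil)) .leaf) (nat_lit 1101541519920359) (.br (nat_lit 4) (.cons (.br (nat_lit 5) (.cons (.rel (nat_lit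 6442582020)) .nil)) .nil)) (.node .leaf (nat_lit 1101541519920364) (.br (nat_lit 6) (.cons (.br (nat_lit 4) (.cons (.rel (nat_lit 18253615137)) (.cons (.rel (nat_lit 18253611288)) .nil))) .nil)) .leaf)))

/-- refutations 15 -/
def e15 : EX := (.node (.node (.node (.node .leaf (nat_lit 2222210156595206) (.br (nat_lit 2) (.cons (.br (nat_lit 3) (.cons (.rel (nat_lit 335545620)) .nil)) .nil)) .leaf) (nat_lit 2223155049401722) (.br (nat_lit 0) (.cons (.br (nat_lit 1) (.cons (.rel (nat_lit 41943297)) .nil)) .nil)) .leaf) (nat_lit 2223361207831185) (.br (nat_lit 0) (.cons (.br (nat_lit 1) (.cons (.rel (nat_lit 20972034)) .nil)) .nil)) (.node (.node .leaf (nat_lit 2224432395346832) (.br (nat_lit 1) (.cons (.br (nat_lit 4) (.cons (.rel (nat_lit 1107305472)) .nil)) .nil)) .leaf) (nat_lit 2224435453584910) (.br (nat_lit 0) (.cons (.br (nat_lit 2) (.cons (.rel (nat_lit 142606596)) .nil)) .nil)) .leaf)) (nat_lit 2224435455909091) (.br (nat_lit 0) (.cons (.br (nat_lit 3) (.cons (.rel (nat_lit 272630853)) .nil)) .nil)) (.node (.node (.node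 .leaf (nat_lit 2224437758267692) (.br (nat_lit 0) (.cons (.br (nat_lit 1) (.cons (.rel (nat_lit 41943297)) .nil)) .nil)) .leaf) (nat_lit 2224438573890418) (.br (nat_lit 1) (.cons (.br (nat_lit 3) (.cons (.rel (nat_lit 570507264)) .nil)) .nil)) .leaf) (nat_lit 2224438575134222) (.br (nat_lit 0) (.cons (.br (nat_lit 4) (.cons (.rel (nat_lit 1077940230)) (.cons (.rel (nat_lit 1078003713)) .nil))) .nil)) (.node (.node .leaf (nat_lit 2224438576206706) (.br (nat_lit 0) (.cons (.br (nat_lit 1) (.cons (.rel (nat_lit 20975892)) .nil)) .nil)) .leaf) (nat_lit 2229721384597760) (.br (nat_lit 0) (.cons (.br (nat_lit 1) (.cons (.rel (nat_lit 20992005)) .nil)) .nil)) .leaf)))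

/-- refutations 16 -/
def e16 : EX := (.node (.node (.node (.node (.node .leaf (nat_lit 2656644173400224) (.br (nat_lit 1) (.cons (.br (nat_lit 2) (.cons (.rel (nat_lit 151126272)) .nil)) .nil)) .leaf) (nat_lit 2656644173400239) (.br (nat_lit 0) (.cons (.br (nat_lit 6) (.cons (.rel (nat_lit 17184395280)) .nil)) .nil)) .leaf) (nat_lit 2656644173400871) (.br (nat_lit 0) (.cons (.br (nat_lit 1) (.cons (.rel (nat_lit 41943297)) .nil)) .nil)) (.node .leaf (nat_lit 2656644175261871) (.br (nat_lit 0) (.cons (.br (nat_lit 1) (.cons (.rel (nat_lit 20972034)) (.cons (.rel (nat_lit 21055488)) .nil))) .nil)) .leaf)) (nat_lit 2656644175261981) (.br (nat_lit 1) (.cons (.br (nat_lit 3) (.cons (.rel (nat_lit 285217824)) .nil)) .nil)) (.node (.node .leaf (nat_lit 2656646098585775) (.br (nat_lit 0) (.cons (.br (nat_lit 6) (.cons (.rel (nat_lit 17184068688)) .nil)) .nil)) .leaf) (nat_lit 2656646098586237) (.br (nat_lit 1) (.cons (.br (nat_lit 6) (.cons (.rel (nat_lit 17196779520)) .nil)) .nil)) (.node .leaf (nat_lit 2664452423945723) (.br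 (nat_lit 0) (.cons (.br (nat_lit 4) (.cons (.rel (nat_lit 1077942288)) .nil)) .nil)) .leaf))) (nat_lit 2664454349129903) (.br (nat_lit 1) (.cons (.br (nat_lit 5) (.cons (.rel (nat_lit 8623752213)) (.cons (.rel (nat_lit 8623521873)) .nil))) (.cons (.br (nat_lit 5) (.cons (.rel (nat_lit 4312801296)) (.cons (.rel (nat_lit 4312801296)) .nil))) .nil))) (.node (.node (.node (.node .leaf (nat_lit 2664454349130365) (.br (nat_lit 1) (.cons (.br (nat_lit 4) (.cons (.rel (nat_lit 1091665920)) .nil)) .nil)) .leaf) (nat_lit 2664454349130979) (.br (nat_lit 1) (.cons (.br (nat_lit 5) (.cons (.rel (nat_lit 4312862721)) .nil)) .nil)) .leaf) (nat_lit 2664454349131130) (.br (nat_lit 0) (.cons (.br (nat_lit 3) (.cons (.rel (nat_lit 541069344)) .nil)) .nil)) (.node .leaf (nat_lit 2664454349131229) (.br (nat_lit 0) (.cons (.br (nat_lit 1) (.cons (.rel (nat_lit 21042177)) (.cons (.rel (nat_lit 21042177)) .nil))) (.cons (.br (nat_lit 1) (.cons (.rel (nat_lit 20975892)) (.cons (.rel (nat_lit 20975892)) .nil))) .nil))) .leaf)) (nat_lit 2664454349131259)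 (.br (nat_lit 1) (.cons (.br (nat_lit 5) (.cons (.rel (nat_lit 8623522884)) (.cons (.rel (nat_lit 4311810180)) .nil))) (.cons (.br (nat_lit 6) (.cons (.rel (nat_lit 17196679176)) (.cons (.rel (nat_lit 17196650754)) .nil))) .nil))) (.node (.node .leaf (nat_lit 2664455062162659) (.br (nat_lit 1) (.cons (.br (nat_lit 2) (.cons (.rel (nat_lit 151080960)) .nil)) .nil)) .leaf) (nat_lit 2668680596949152) (.br (nat_lit 0) (.cons (.br (nat_lit 1) (.cons (.rel (nat_lit 20975892)) (.cons (.rel (nat_lit 20973093)) .nil))) .nil)) (.node .leaf (nat_lit 2669353317174499) (.br (nat_lit 3) (.cons (.br (nat_lit 5) (.cons (.rel (nat_lit 4563404292)) .nil)) .nil)) .leaf))))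

/-- refutations 17 -/
def e17 : EX := (.node (.node .leaf (nat_lit 2680972793351550) (.br (nat_lit 1) (.cons (.br (nat_lit 3) (.cons (.rel (nat_lit 285229077)) .nil)) .nil)) .leaf) (nat_lit 2682063715404686) (.br (nat_lit 0) (.cons (.br (nat_lit 1) (.cons (.rel (nat_lit 20975892)) .nil)) .nil)) .leaf)

/-- refutations 19 -/
def e19 : EX := (.node .leaf (nat_lit 3086255751742847) (.br (nat_lit 1) (.cons (.br (nat_lit 0) (.cons (.rel (nat_lit 21005316)) (.cons (.rel (nat_lit 21037317)) .nil))) .nil)) .leaf)

/-- refutations 20 -/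
def e20 : EX := (.node (.node (.node (.node .leaf (nat_lit 4434579756181681) (.br (nat_lit 0) (.cons (.br (nat_lit 3) (.cons (.rel (nat_lit 272892162)) .nil)) .nil)) .leaf) (nat_lit 4438909386791842) (.br (nat_lit 2) (.cons (.br (nat_lit 3) (.cons (.rel (nat_lit 335544609)) .nil)) .nil)) (.node .leaf (nat_lit 4438910141766562) (.br (nat_lit 0) (.cons (.br (nat_lit 1) (.cons (.rel (nat_lit 20980752)) (.cons (.rel (nat_lit 21055488)) .nil))) (.cons (.br (nat_lit 1) (.cons (.rel (nat_lit 20972034)) (.cons (.rel (nat_lit 21037317)) .nil))) .nil))) .leaf)) (nat_lit 4438912718603746) (.br (nat_lit 0) (.cons (.br (nat_lit 2) (.cons (.rel (nat_lit 71368962)) (.cons (.rel (nat_lit 76677120)) (.cons (.rel (nat_lit 142606596)) .nil)))) .nil)) (.node (.node .leaf (nat_lit 4438912718646808) (.br (nat_lit 0) (.cons (.br (nat_lit 2) (.cons (.rel (nat_lit 142606596)) (.cons (.rel (nat_lit 71368962)) (.cons (.rel (nat_lit 142606596)) (.cons (.rel (nat_lit 76677120)) .nil))))) .nil)) .leaf) (nat_lit 4438912719973753) (.br (nat_lit 0) (.cons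 (.br (nat_lit 3) (.cons (.rel (nat_lit 276832272)) .nil)) .nil)) (.node .leaf (nat_lit 4438912719973912) (.br (nat_lit 0) (.cons (.br (nat_lit 2) (.cons (.rel (nat_lit 76677120)) .nil)) .nil)) .leaf))) (nat_lit 4438915121939938) (.br (nat_lit 1) (.cons (.br (nat_lit 3) (.cons (.rel (nat_lit 285212964)) (.cons (.rel (nat_lit 302252544)) .nil))) .nil)) (.node (.node (.node .leaf (nat_lit 4438915123309456) (.br (nat_lit 0) (.cons (.br (nat_lit 1) (.cons (.rel (nat_lit 20980752)) .nil)) .nil)) .leaf) (nat_lit 4438915124599714) (.br (nat_lit 2) (.cons (.br (nat_lit 4) (.cons (.rel (nat_lit 1141375248)) .nil)) .nil)) (.node .leaf (nat_lit 4446331088952571) (.br (nat_lit 0) (.cons (.br (nat_lit 2) (.cons (.rel (nat_lit 142606596)) .nil)) .nil)) .leaf)) (nat_lit 4446331089658483) (.br (nat_lit 1) (.cons (.br (nat_lit 3) (.cons (.rel (nat_lit 302252544)) (.cons (.rel (nat_lit 285214977)) .nil))) .nil)) (.node (.node .leaf (nat_lit 4446333202820332) (.br (nat_lit 0) (.cons (.br (nat_lit 1) (.cons (.rel (nat_lit 20988192)) .nil)) .nil))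 .leaf) (nat_lit 4446336538059379) (.br (nat_lit 3) (.cons (.br (nat_lit 1) (.cons (.rel (nat_lit 302252544)) (.cons (.rel (nat_lit 285214977)) .nil))) .nil)) .leaf)))

/-- refutations 21 -/
def e21 : EX := (.node (.node (.node .leaf (nat_lit 4486231958227599) (.br (nat_lit 1) (.cons (.br (nat_lit 2) (.cons (.rel (nat_lit 84166728)) .nil)) .nil)) .leaf) (nat_lit 4488378918152243) (.br (nat_lit 0) (.cons (.br (nat_lit 1) (.cons (.rel (nat_lit 21005316)) .nil)) .nil)) (.node .leaf (nat_lit 4496833426491674) (.br (nat_lit 2) (.cons (.br (nat_lit 3) (.cons (.rel (nat_lit 335550480)) .nil)) .nil)) .leaf)) (nat_lit 4496837053184636) (.br (nat_lit 1) (.cons (.br (nat_lit 6) (.cons (.rel (nat_lit 17196779520)) .nil)) .nil)) (.node (.node .leaf (nat_lit 4496837053184750) (.br (nat_lit 2) (.cons (.br (nat_lit 6) (.cons (.rel (nat_lit 17246980608)) (.cons (.rel (nat_lit 17314349064)) .nil))) .nil)) .leaf) (nat_lit 4498253574503150) (.br (nat_lit 2) (.cons (.br (nat_lit 4) (.cons (.rel (nat_lit 1207967760)) .nil)) .nil)) .leaf))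

/-- refutations 22 -/
def e22 : EX := (.node (.node (.node (.node (.node .leaf (nat_lit 4855927052175645) (.br (nat_lit 1) (.cons (.br (nat_lit 3) (.cons (.rel (nat_lit 285212964)) .nil)) .nil)) .leaf) (nat_lit 4855927052176012) (.br (nat_lit 0) (.cons (.br (nat_lit 2) (.cons (.rel (nat_lit 142611456)) .nil)) .nil)) .leaf) (nat_lit 4858074535824167) (.br (nat_lit 1) (.cons (.br (nat_lit 3) (.cons (.rel (nat_lit 285216777)) .nil)) .nil)) (.node (.node .leaf (nat_lit 4858074535824611) (.br (nat_lit 2) (.cons (.br (nat_lit 5) (.cons (.rel (nat_lit 8657060097)) .nil)) .nil)) .leaf) (nat_lit 4858074749783291) (.br (nat_lit 2) (.cons (.br (nat_lit 3) (.cons (.rel (nat_lit 335548422)) .nil)) .nil)) .leaf)) (nat_lit 4861330221697834) (.br (nat_lit 0) (.cons (.br (nat_lit 1) (.cons (.rel (nat_lit 20972034)) .nil)) .nil)) (.node (.node (.node .leaf (nat_lit 4861338811632867) (.br (nat_lit 2) (.cons (.br (nat_lit 4) (.cons (.rel (nat_lit 2281701696)) .nil)) .nil)) .leaf) (nat_lit 4861339231063267) (.br (nat_lit 0) (.cons (.br (nat_lit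 2) (.cons (.rel (nat_lit 142631184)) .nil)) .nil)) .leaf) (nat_lit 4862403862857983) (.br (nat_lit 4) (.cons (.br (nat_lit 5) (.cons (.rel (nat_lit 5368987713)) .nil)) .nil)) (.node .leaf (nat_lit 4862403862858488) (.br (nat_lit 0) (.cons (.br (nat_lit 2) (.cons (.rel (nat_lit 71307537)) .nil)) .nil)) .leaf))) (nat_lit 4862403862859134) (.br (nat_lit 5) (.cons (.br (nat_lit 0) (.cons (.rel (nat_lit 4299166209)) (.cons (.rel (nat_lit 8598323220)) .nil))) .nil)) (.node (.node (.node (.node .leaf (nat_lit 4862403862908155) (.br (nat_lit 0) (.cons (.br (nat_lit 2) (.cons (.rel (nat_lit 71323650)) .nil)) .nil)) .leaf) (nat_lit 4862403864253202) (.br (nat_lit 2) (.cons (.br (nat_lit 4) (.cons (.rel (nat_lit 1207992324)) .nil)) .nil)) .leaf) (nat_lit 4862403864406148) (.br (nat_lit 2) (.cons (.br (nat_lit 4) (.cons (.rel (nat_lit 2214596640)) (.cons (.rel (nat_lit 1207967760)) (.cons (.rel (nat_lit 1207967760)) .nil)))) .nil)) (.node .leaf (nat_lit 4862403864406823) (.br (nat_lit 0) (.cons (.br (nat_lit 3) (.cons (.rel (nat_lit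 272908320)) .nil)) .nil)) .leaf)) (nat_lit 4862403865789223) (.br (nat_lit 1) (.cons (.br (nat_lit 3) (.cons (.rel (nat_lit 287309952)) (.cons (.rel (nat_lit 285230088)) .nil))) .nil)) (.node (.node (.node .leaf (nat_lit 4863177649295516) (.br (nat_lit 1) (.cons (.br (nat_lit 6) (.cons (.rel (nat_lit 34393309188)) (.cons (.rel (nat_lit 17196679176)) .nil))) .nil)) .leaf) (nat_lit 4866226383751219) (.br (nat_lit 1) (.cons (.br (nat_lit 0) (.cons (.rel (nat_lit 21005316)) (.cons (.rel (nat_lit 41943297)) .nil))) .nil)) .leaf) (nat_lit 4867689253469666) (.br (nat_lit 1) (.cons (.br (nat_lit 2) (.cons (.rel (nat_lit 168050688)) .nil)) .nil)) (.node .leaf (nat_lit 4867689254759906) (.br (nat_lit 0) (.cons (.br (nat_lit 1) (.cons (.rel (nat_lit 20975892)) .nil)) .nil)) .leaf))))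

/-- refutations 23 -/
def e23 : EX := (.node (.node (.node .leaf (nat_lit 4878928868524167) (.br (nat_lit 0) (.cons (.br (nat_lit 1) (.cons (.rel (nat_lit 21055488)) .nil)) .nil)) .leaf) (nat_lit 4878928902070403) (.br (nat_lit 0) (.cons (.br (nat_lit 2) (.cons (.rel (nat_lit 71372820)) .nil)) .nil)) (.node .leaf (nat_lit 4878934249808003) (.br (nat_lit 0) (.cons (.br (nat_lit 5) (.cons (.rel (nat_lit 4299163653)) (.cons (.rel (nat_lit 4299166209)) .nil))) .nil)) .leaf)) (nat_lit 4880658728273279) (.br (nat_lit 0) (.cons (.br (nat_lit 1) (.cons (.rel (nat_lit 41943297)) .nil)) .nil)) (.node (.node .leaf (nat_lit 4928400330328115) (.br (nat_lit 1) (.cons (.br (nat_lit 2) (.cons (.rel (nat_lit 151126272)) .nil)) .nil)) .leaf) (nat_lit 4928400330328120) (.br (nat_lit 0) (.cons (.br (nat_lit 2) (.cons (.rel (nat_lit 71303688)) .nil)) .nil)) .leaf))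

/-- refutations 24 -/
def e24 : EX := (.node .leaf (nat_lit 4972865194535812) (.br (nat_lit 0) (.cons (.br (nat_lit 3) (.cons (.rel (nat_lit 272703552)) .nil)) .nil)) .leaf)

/-- refutations 25 -/
def e25 : EX := (.node (.node .leaf (nat_lit 5284207637561406) (.br (nat_lit 0) (.cons (.br (nat_lit 1) (.cons (.rel (nat_lit 41943297)) .nil)) .nil)) .leaf) (nat_lit 5284573378250907) (.br (nat_lit 0) (.cons (.br (nat_lit 3) (.cons (.rel (nat_lit 276893697)) .nil)) .nil)) .leaf)

/-- refutations 27 -/
def e27 : EX := (.node (.node (.node .leaf (nat_lit 5383434935470866) (.br (nat_lit 2) (.cons (.br (nat_lit 4) (.cons (.rel (nat_lit 1140851328)) .nil)) .nil)) .leaf) (nat_lit 5388580306924201) (.br (nat_lit 0) (.cons (.br (nat_lit 5) (.cons (.rel (nat_lit 4299186180)) .nil)) .nil)) .leaf) (nat_lit 5388583014290089) (.br (nat_lit 0) (.cons (.br (nat_lit 1) (.cons (.rel (nat_lit 20972034)) .nil)) .nil)) (.node .leaf (nat_lit 5394395693871281) (.br (nat_lit 0) (.cons (.br (nat_lit 3) (.cons (.rel (nat_lit 541081608)) .nil)) .nil))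 .leaf))

/-- refutations 28 -/
def e28 : EX := (.node (.node .leaf (nat_lit 5406182315395848) (.br (nat_lit 1) (.cons (.br (nat_lit 5) (.cons (.rel (nat_lit 4314169344)) (.cons (.rel (nat_lit 4312268817)) .nil))) .nil)) .leaf) (nat_lit 5411850623713331) (.br (nat_lit 1) (.cons (.br (nat_lit 3) (.cons (.rel (nat_lit 570507264)) .nil)) .nil)) .leaf)

/-- refutations 29 -/
def e29 : EX := (.node .leaf (nat_lit 5495294284802109) (.br (nat_lit 0) (.cons (.br (nat_lit 3) (.cons (.rel (nat_lit 272646720)) .nil)) .nil)) .leaf)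

/-- refutations 30 -/
def e30 : EX := (.node (.node (.node (.node (.node .leaf (nat_lit 11035892823100643) (.br (nat_lit 0) (.cons (.br (nat_lit 2) (.cons (.rel (nat_lit 71336961)) .nil)) .nil)) .leaf) (nat_lit 11035895364848868) (.br (nat_lit 3) (.cons (.br (nat_lit 4) (.cons (.rel (nat_lit 1342177302)) .nil)) .nil)) .leaf) (nat_lit 11035938314520626) (.br (nat_lit 5) (.cons (.br (nat_lit 0) (.cons (.rel (nat_lit 4299161640)) (.cons (.rel (nat_lit 4299162642)) .nil))) .nil)) (.node .leaf (nat_lit 11041100865210418) (.br (nat_lit 1) (.cons (.br (nat_lit 6) (.cons (.rel (nat_lit 17196654612)) .nil)) .nil)) .leaf)) (nat_lit 11041100865211178) (.br (nat_lit 3) (.cons (.br (nat_lit 4) (.cons (.rel (nat_lit 1342194180)) .nil)) .nil)) (.node (.node .leaf (nat_lit 11041100865211619) (.br (nat_lit 5) (.cons (.br (nat_lit 1) (.cons (.rel (nat_lit 4328525826)) (.cons (.rel (nat_lit 4328540196)) (.cons (.rel (nat_lit 8606733312)) (.cons (.rel (nat_lit 4311810180)) (.cons (.rel (nat_lit 8606728452)) (.cons (.rel (nat_lit 4328525826))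 .nil))))))) .nil)) .leaf) (nat_lit 11041100866611260) (.br (nat_lit 2) (.cons (.br (nat_lit 3) (.cons (.rel (nat_lit 335548422)) .nil)) .nil)) (.node .leaf (nat_lit 11041100868393890) (.br (nat_lit 1) (.cons (.br (nat_lit 2) (.cons (.rel (nat_lit 100729344)) .nil)) .nil)) .leaf))) (nat_lit 11041141275759249) (.br (nat_lit 1) (.cons (.br (nat_lit 6) (.cons (.rel (nat_lit 17196666912)) .nil)) .nil)) (.node (.node (.node .leaf (nat_lit 11041313071828195) (.br (nat_lit 0) (.cons (.br (nat_lit 3) (.cons (.rel (nat_lit 272646720)) .nil)) .nil)) .leaf) (nat_lit 11041318950609523) (.br (nat_lit 0) (.cons (.br (nat_lit 1) (.cons (.rel (nat_lit 26234880)) .nil)) .nil)) (.node .leaf (nat_lit 11042421174790204) (.br (nat_lit 0) (.cons (.br (nat_lit 3) (.cons (.rel (nat_lit 272629842)) .nil)) .nil)) .leaf)) (nat_lit 11042421790580248) (.br (nat_lit 0) (.cons (.br (nat_lit 5) (.cons (.rel (nat_lit 8594129217)) .nil)) .nil)) (.node (.node .leaf (nat_lit 11042427340562688) (.br (nat_lit 0) (.cons (.br (nat_lit 1) (.cons (.rel (nat_lit 20972034))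 .nil)) .nil)) .leaf) (nat_lit 11042427342142371) (.br (nat_lit 0) (.cons (.br (nat_lit 1) (.cons (.rel (nat_lit 21055488)) .nil)) .nil)) (.node .leaf (nat_lit 11043406116494062) (.br (nat_lit 1) (.cons (.br (nat_lit 2) (.cons (.rel (nat_lit 83887236)) .nil)) .nil)) .leaf))))

/-- refutations 31 -/
def e31 : EX := (.node (.node (.node .leaf (nat_lit 11083524011806777) (.br (nat_lit 0) (.cons (.br (nat_lit 4) (.cons (.rel (nat_lit 1077936417)) .nil)) .nil)) .leaf) (nat_lit 11088543177256187) (.br (nat_lit 0) (.cons (.br (nat_lit 1) (.cons (.rel (nat_lit 21055488)) .nil)) .nil)) (.node .leaf (nat_lit 11088671885251820) (.br (nat_lit 0) (.cons (.br (nat_lit 3) (.cons (.rel (nat_lit 276832272)) .nil)) .nil)) .leaf)) (nat_lit 11093877385613942) (.br (nat_lit 1) (.cons (.br (nat_lit 3) (.cons (.rel (nat_lit 285214977)) .nil)) .nil)) (.node (.node .leaf (nat_lit 11093903193166631) (.br (nat_lit 1) (.cons (.br (nat_lit 4) (.cons (.rel (nat_lit 1107329025)) .nil)) .nil)) .leaf) (nat_lit 11093903194542137) (.br (nat_lit 0) (.cons (.br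 (nat_lit 2) (.cons (.rel (nat_lit 71434245)) .nil)) .nil)) .leaf))

/-- refutations 33 -/
def e33 : EX := (.node (.node .leaf (nat_lit 11123888019174013) (.br (nat_lit 0) (.cons (.br (nat_lit 2) (.cons (.rel (nat_lit 71303688)) .nil)) .nil)) .leaf) (nat_lit 11129534350987916) (.br (nat_lit 1) (.cons (.br (nat_lit 0) (.cons (.rel (nat_lit 21102600)) (.cons (.rel (nat_lit 42008580)) .nil))) .nil)) .leaf)

/-- refutations 34 -/
def e34 : EX := (.node (.node .leaf (nat_lit 11437555469548326) (.br (nat_lit 1) (.cons (.br (nat_lit 2) (.cons (.rel (nat_lit 152047680)) .nil)) .nil)) .leaf) (nat_lit 11445703964362803) (.br (nat_lit 1) (.cons (.br (nat_lit 0) (.cons (.rel (nat_lit 25714689)) (.cons (.rel (nat_lit 20992005)) .nil))) .nil)) .leaf)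

/-- refutations 35 -/
def e35 : EX := (.node (.node (.node .leaf (nat_lit 11453031178583273) (.br (nat_lit 3) (.cons (.br (nat_lit 4) (.cons (.rel (nat_lit 1342251012)) .nil)) .nil)) .leaf) (nat_lit 11453031181193273) (.br (nat_lit 0) (.cons (.br (nat_lit 3) (.cons (.rel (nat_lit 272908320)) .nil)) .nil)) (.node .leaf (nat_lit 11453031181194473) (.br (nat_lit 0) (.cons (.br (nat_lit 2) (.cons (.rel (nat_lit 142606596)) .nil)) .nil)) .leaf)) (nat_lit 11453031181230755) (.br (nat_lit 1) (.cons (.br (nat_lit 3) (.cons (.rel (nat_lit 285376512)) .nil)) .nil)) (.node (.node .leaf (nat_lit 11463313330289315) (.br (nat_lit 0) (.cons (.br (nat_lit 2) (.cons (.rel (nat_lit 142606596)) .nil)) .nil)) .leaf) (nat_lit 11463336584898611) (.br (nat_lit 0) (.cons (.br (nat_lit 1) (.cons (.rel (nat_lit 21055488)) .nil)) .nil)) .leaf))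

/-- refutations 36 -/
def e36 : EX := (.node (.node (.node (.node (.node .leaf (nat_lit 11523363021261435) (.br (nat_lit 0) (.cons (.br (nat_lit 1) (.cons (.rel (nat_lit 41943297)) .nil)) .nil)) .leaf) (nat_lit 11523363022551046) (.br (nat_lit 1) (.cons (.br (nat_lit 2) (.cons (.rel (nat_lit 84148545)) .nil)) .nil)) (.node .leaf (nat_lit 11523363022655520) (.br (nat_lit 0) (.cons (.br (nat_lit 2) (.cons (.rel (nat_lit 71368962)) .nil)) .nil)) .leaf)) (nat_lit 11523365563009029) (.br (nat_lit 3) (.cons (.br (nat_lit 0) (.cons (.rel (nat_lit 272646720)) (.cons (.rel (nat_lit 272630853)) .nil))) .nil)) (.node (.node .leaf (nat_lit 11523365563009054) (.br (nat_lit 3) (.cons (.br (nat_lit 0) (.cons (.rel (nat_lit 272630853)) (.cons (.rel (nat_lit 272630853)) .nil))) .nil)) .leaf) (nat_lit 11523365563009084) (.br (nat_lit 1) (.cons (.br (nat_lit 4) (.cons (.rel (nat_lit 1091049477)) .nil)) .nil)) .leaf)) (nat_lit 11523365563009186) (.br (nat_lit 0) (.cons (.br (nat_lit 5) (.cons (.rel (nat_lit 4299161640)) (.cons (.rel (nat_lit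 4299163653)) .nil))) .nil)) (.node (.node (.node .leaf (nat_lit 11523365563009659) (.br (nat_lit 3) (.cons (.br (nat_lit 2) (.cons (.br (nat_lit 6) (.cons (.rel (nat_lit 17314349064)) (.cons (.rel (nat_lit 17716740357)) .nil))) (.cons (.rel (nat_lit 335548422)) .nil))) .nil)) .leaf) (nat_lit 11523365563009661) (.br (nat_lit 1) (.cons (.br (nat_lit 5) (.cons (.rel (nat_lit 4312825860)) (.cons (.rel (nat_lit 4312269828)) .nil))) (.cons (.br (nat_lit 5) (.cons (.rel (nat_lit 4312801296)) (.cons (.rel (nat_lit 4312269828)) .nil))) .nil))) (.node .leaf (nat_lit 11523365563009676) (.br (nat_lit 0) (.cons (.br (nat_lit 2) (.cons (.rel (nat_lit 71313408)) .nil)) .nil)) .leaf)) (nat_lit 11523365563009686) (.br (nat_lit 0) (.cons (.br (nat_lit 4) (.cons (.rel (nat_lit 1077952530)) .nil)) .nil)) (.node (.node .leaf (nat_lit 11523365563009906) (.br (nat_lit 0) (.cons (.br (nat_lit 3) (.cons (.rel (nat_lit 272630853)) .nil)) .nil)) .leaf) (nat_lit 11523365563009956) (.br (nat_lit 0) (.cons (.br (nat_lit 1) (.cons (.rel (nat_lit 41943297))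 .nil)) .nil)) .leaf))) (nat_lit 11523365563010274) (.br (nat_lit 5) (.cons (.br (nat_lit 3) (.cons (.rel (nat_lit 4563665025)) (.cons (.rel (nat_lit 4564451397)) .nil))) .nil)) (.node (.node (.node (.node .leaf (nat_lit 11523365563010431) (.br (nat_lit 3) (.cons (.br (nat_lit 0) (.cons (.rel (nat_lit 272630853)) (.cons (.rel (nat_lit 272629842)) .nil))) .nil)) .leaf) (nat_lit 11523365563134884) (.br (nat_lit 0) (.cons (.br (nat_lit 4) (.cons (.rel (nat_lit 1077936417)) .nil)) .nil)) (.node .leaf (nat_lit 11523365564297222) (.br (nat_lit 0) (.cons (.br (nat_lit 2) (.cons (.rel (nat_lit 142611456)) .nil)) .nil)) .leaf)) (nat_lit 11523365564299270) (.br (nat_lit 3) (.cons (.br (nat_lit 0) (.cons (.rel (nat_lit 541069344)) (.cons (.rel (nat_lit 272957445)) (.cons (.rel (nat_lit 272892162)) .nil)))) .nil)) (.node (.node .leaf (nat_lit 11523365564301319) (.br (nat_lit 0) (.cons (.br (nat_lit 6) (.cons (.rel (nat_lit 17184130113)) .nil)) .nil)) .leaf) (nat_lit 11523365564403744) (.br (nat_lit 1) (.cons (.br (nat_lit 3) (.cons (.rel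 (nat_lit 302252544)) .nil)) .nil)) .leaf)) (nat_lit 11523365564409916) (.br (nat_lit 0) (.cons (.br (nat_lit 2) (.cons (.rel (nat_lit 71307537)) .nil)) .nil)) (.node (.node (.node .leaf (nat_lit 11523365565587462) (.br (nat_lit 0) (.cons (.br (nat_lit 2) (.cons (.rel (nat_lit 76677120)) .nil)) .nil)) .leaf) (nat_lit 11523365565588706) (.br (nat_lit 3) (.cons (.br (nat_lit 6) (.cons (.rel (nat_lit 17450409984)) .nil)) .nil)) (.node .leaf (nat_lit 11523365565591557) (.br (nat_lit 0) (.cons (.br (nat_lit 1) (.cons (.rel (nat_lit 41943297)) .nil)) .nil)) .leaf)) (nat_lit 11533621944911877) (.br (nat_lit 0) (.cons (.br (nat_lit 1) (.cons (.rel (nat_lit 20992005)) .nil)) .nil)) (.node (.node .leaf (nat_lit 11533621944911933) (.br (nat_lit 0) (.cons (.br (nat_lit 4) (.cons (.rel (nat_lit 1083183105)) .nil)) .nil)) .leaf) (nat_lit 11535142363334816) (.br (nat_lit 6) (.cons (.br (nat_lit 3) (.cons (.rel (nat_lit 17448304713)) (.cons (.rel (nat_lit 17716745217)) .nil))) .nil)) .leaf))))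

/-- refutations 37 -/
def e37 : EX := (.node (.node .leaf (nat_lit 11548297179746439) (.br (nat_lit 0) (.cons (.br (nat_lit 1) (.cons (.rel (nat_lit 20988192)) .nil)) .nil)) .leaf) (nat_lit 11552715252983964) (.br (nat_lit 3) (.cons (.br (nat_lit 5) (.cons (.rel (nat_lit 8858648580)) .nil)) .nil)) .leaf)

/-- refutations 38 -/
def e38 : EX := (.node (.node (.node (.node .leaf (nat_lit 11611326451308569) (.br (nat_lit 0) (.cons (.br (nat_lit 1) (.cons (.rel (nat_lit 41943297)) .nil)) .nil)) .leaf) (nat_lit 11611326451309201) (.br (nat_lit 1) (.cons (.br (nat_lit 3) (.cons (.rel (nat_lit 285212964)) (.cons (.rel (nat_lit 285216777)) .nil))) .nil)) .leaf) (nat_lit 11611326452617216) (.br (nat_lit 0) (.cons (.br (nat_lit 1) (.cons (.rel (nat_lit 21055488)) .nil)) .nil)) (.node .leaf (nat_lit 11611326452688956) (.br (nat_lit 0) (.cons (.br (nat_lit 3) (.cons (.rel (nat_lit 272629842)) .nil)) .nil)) .leaf)) (nat_lit 11616257115686939) (.br (nat_lit 1) (.cons (.br (nat_lit 4) (.cons (.rel (nat_lit 1107329025)) .nil)) .nil)) (.node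 (.node (.node .leaf (nat_lit 11616257115706604) (.br (nat_lit 0) (.cons (.br (nat_lit 1) (.cons (.rel (nat_lit 41943297)) .nil)) .nil)) .leaf) (nat_lit 11616257117087804) (.br (nat_lit 1) (.cons (.br (nat_lit 3) (.cons (.rel (nat_lit 285230088)) .nil)) .nil)) .leaf) (nat_lit 11616257118347939) (.br (nat_lit 1) (.cons (.br (nat_lit 2) (.cons (.rel (nat_lit 84153417)) .nil)) .nil)) (.node .leaf (nat_lit 11621642979510929) (.br (nat_lit 5) (.cons (.br (nat_lit 6) (.cons (.rel (nat_lit 21474853380)) .nil)) .nil)) .leaf)))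

/-- refutations 39 -/
def e39 : EX := (.node (.node .leaf (nat_lit 11628918641527439) (.br (nat_lit 1) (.cons (.br (nat_lit 3) (.cons (.rel (nat_lit 285237504)) .nil)) .nil)) .leaf) (nat_lit 11630809728761907) (.br (nat_lit 2) (.cons (.br (nat_lit 3) (.cons (.rel (nat_lit 335550480)) .nil)) .nil)) .leaf)

/-- refutations 40 -/
def e40 : EX := (.node (.node (.node (.node .leaf (nat_lit 11963167757547526) (.br (nat_lit 1) (.cons (.br (nat_lit 3) (.cons (.rel (nat_lit 285229077)) .nil)) .nil)) .leaf) (nat_lit 11973441347390102) (.br (nat_lit 1) (.cons (.br (nat_lit 4) (.cons (.rel (nat_lit 1091569668)) (.cons (.rel (nat_lit 1091665920)) .nil))) .nil)) .leaf) (nat_lit 11973441350023830) (.br (nat_lit 0) (.cons (.br (nat_lit 2) (.cons (.rel (nat_lit 71320848)) .nil)) .nil)) (.node .leaf (nat_lit 11985744776137955) (.br (nat_lit 3) (.cons (.br (nat_lit 0) (.cons (.rel (nat_lit 276856836)) (.cons (.rel (nat_lit 541066497)) .nil))) .nil)) .leaf)) (nat_lit 11986096749651222) (.br (nat_lit 1) (.cons (.br (nat_lit 3) (.cons (.rel (nat_lit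 285280260)) .nil)) .nil)) (.node (.node .leaf (nat_lit 11991294882070834) (.br (nat_lit 1) (.cons (.br (nat_lit 3) (.cons (.rel (nat_lit 285212964)) .nil)) .nil)) .leaf) (nat_lit 11991328019713305) (.br (nat_lit 1) (.cons (.br (nat_lit 3) (.cons (.rel (nat_lit 285280260)) .nil)) .nil)) (.node .leaf (nat_lit 11991328022293785) (.br (nat_lit 0) (.cons (.br (nat_lit 2) (.cons (.rel (nat_lit 138444864)) .nil)) .nil)) .leaf)))

/-- refutations 41 -/
def e41 : EX := (.node (.node (.node (.node (.node .leaf (nat_lit 12085918872673186) (.br (nat_lit 4) (.cons (.br (nat_lit 6) (.cons (.rel (nat_lit 18253616148)) .nil)) .nil)) .leaf) (nat_lit 12085920379439139) (.br (nat_lit 1) (.cons (.br (nat_lit 4) (.cons (.rel (nat_lit 1090650240)) .nil)) .nil)) .leaf) (nat_lit 12085920379439155) (.br (nat_lit 0) (.cons (.br (nat_lit 1) (.cons (.rel (nat_lit 20972034)) .nil)) .nil)) (.node (.node .leaf (nat_lit 12085920379439166) (.br (nat_lit 1) (.cons (.br (nat_lit 0) (.cons (.rel (nat_lit 20973093)) (.cons (.rel (nat_lit 20972034)) .nil))) .nil))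 .leaf) (nat_lit 12085920379439266) (.br (nat_lit 0) (.cons (.br (nat_lit 2) (.cons (.rel (nat_lit 76677120)) .nil)) .nil)) .leaf)) (nat_lit 12085920379439739) (.br (nat_lit 2) (.cons (.br (nat_lit 3) (.cons (.rel (nat_lit 335545620)) (.cons (.rel (nat_lit 605028369)) (.cons (.rel (nat_lit 335560722)) .nil)))) (.cons (.br (nat_lit 3) (.cons (.rel (nat_lit 671105280)) (.cons (.rel (nat_lit 336068673)) (.cons (.rel (nat_lit 402719808)) .nil)))) .nil))) (.node (.node (.node .leaf (nat_lit 12085920379439766) (.br (nat_lit 1) (.cons (.br (nat_lit 4) (.cons (.rel (nat_lit 1090650240)) .nil)) .nil)) .leaf) (nat_lit 12085920379439779) (.br (nat_lit 3) (.cons (.br (nat_lit 6) (.cons (.rel (nat_lit 34897661952)) (.cons (.rel (nat_lit 17716745217)) .nil))) .nil)) .leaf) (nat_lit 12085920379439785) (.br (nat_lit 3) (.cons (.br (nat_lit 0) (.cons (.rel (nat_lit 541066497)) (.cons (.rel (nat_lit 272908320)) (.cons (.rel (nat_lit 541069344)) (.cons (.rel (nat_lit 272629842)) (.cons (.rel (nat_lit 274731264)) (.cons (.rel (nat_lit 272629842))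 .nil))))))) (.cons (.br (nat_lit 4) (.cons (.rel (nat_lit 1342179360)) (.cons (.rel (nat_lit 2418081792)) (.cons (.rel (nat_lit 1342178313)) .nil)))) (.cons (.br (nat_lit 4) (.cons (.rel (nat_lit 1342177302)) (.cons (.rel (nat_lit 1611792384)) (.cons (.rel (nat_lit 1342178313)) .nil)))) .nil)))) (.node (.node .leaf (nat_lit 12085920379439986) (.br (nat_lit 3) (.cons (.br (nat_lit 4) (.cons (.rel (nat_lit 1611792384)) .nil)) .nil)) .leaf) (nat_lit 12085920379440386) (.br (nat_lit 3) (.cons (.br (nat_lit 6) (.cons (.rel (nat_lit 17448572952)) .nil)) .nil)) .leaf))) (nat_lit 12085920379440414) (.br (nat_lit 1) (.cons (.br (nat_lit 3) (.cons (.rel (nat_lit 287309952)) .nil)) .nil)) (.node (.node (.node (.node .leaf (nat_lit 12085920379440506) (.br (nat_lit 3) (.cons (.br (nat_lit 5) (.cons (.rel (nat_lit 4563404292)) .nil)) .nil)) .leaf) (nat_lit 12085920380790820) (.br (nat_lit 3) (.cons (.br (nat_lit 4) (.cons (.rel (nat_lit 1342178313)) .nil)) .nil)) .leaf) (nat_lit 12085920382621747) (.br (nat_lit 2) (.cons (.br (nat_lit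 3) (.cons (.rel (nat_lit 335545620)) .nil)) .nil)) (.node (.node .leaf (nat_lit 12085920480206880) (.br (nat_lit 3) (.cons (.br (nat_lit 6) (.cons (.rel (nat_lit 17450409984)) .nil)) .nil)) .leaf) (nat_lit 12085920480208154) (.br (nat_lit 2) (.cons (.br (nat_lit 4) (.cons (.rel (nat_lit 1140851328)) .nil)) .nil)) .leaf)) (nat_lit 12085920899533605) (.br (nat_lit 0) (.cons (.br (nat_lit 2) (.cons (.rel (nat_lit 140574720)) .nil)) .nil)) (.node (.node (.node .leaf (nat_lit 12085921600308112) (.br (nat_lit 3) (.cons (.br (nat_lit 4) (.cons (.rel (nat_lit 1342263312)) .nil)) .nil)) .leaf) (nat_lit 12085921612884868) (.br (nat_lit 1) (.cons (.br (nat_lit 3) (.cons (.rel (nat_lit 285216777)) .nil)) .nil)) .leaf) (nat_lit 12087380668320425) (.br (nat_lit 1) (.cons (.br (nat_lit 3) (.cons (.rel (nat_lit 285217824)) .nil)) .nil)) (.node .leaf (nat_lit 12087380668320520) (.br (nat_lit 1) (.cons (.br (nat_lit 2) (.cons (.rel (nat_lit 83887236)) .nil)) .nil)) .leaf))))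

/-- refutations 42 -/
def e42 : EX := (.node (.node (.node (.node .leaf (nat_lit 12093883248806820) (.br (nat_lit 0) (.cons (.br (nat_lit 3) (.cons (.rel (nat_lit 276832272)) .nil)) .nil)) .leaf) (nat_lit 12093883248807418) (.br (nat_lit 4) (.cons (.br (nat_lit 0) (.cons (.rel (nat_lit 1082130564)) (.cons (.rel (nat_lit 2155888896)) .nil))) .nil)) .leaf) (nat_lit 12093884485115233) (.br (nat_lit 4) (.cons (.br (nat_lit 6) (.cons (.rel (nat_lit 19327631364)) (.cons (.rel (nat_lit 18253611288)) .nil))) .nil)) (.node (.node .leaf (nat_lit 12093886586461090) (.br (nat_lit 1) (.cons (.br (nat_lit 6) (.cons (.rel (nat_lit 17196779520)) .nil)) .nil)) .leaf) (nat_lit 12096571898333235) (.br (nat_lit 3) (.cons (.br (nat_lit 4) (.cons (.rel (nat_lit 1342194180)) .nil)) .nil)) .leaf)) (nat_lit 12096614848006195) (.br (nat_lit 0) (.cons (.br (nat_lit 1) (.cons (.rel (nat_lit 20972034)) (.cons (.rel (nat_lit 20992005)) .nil))) (.cons (.br (nat_lit 1) (.cons (.rel (nat_lit 20980752)) (.cons (.rel (nat_lit 20980752)) .nil))) .nil))) (.node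 (.node (.node .leaf (nat_lit 12096845267845255) (.br (nat_lit 0) (.cons (.br (nat_lit 4) (.cons (.rel (nat_lit 1077969408)) .nil)) .nil)) .leaf) (nat_lit 12097694765197348) (.br (nat_lit 0) (.cons (.br (nat_lit 3) (.cons (.rel (nat_lit 272703552)) .nil)) .nil)) .leaf) (nat_lit 12097699913341810) (.br (nat_lit 0) (.cons (.br (nat_lit 2) (.cons (.rel (nat_lit 71303688)) .nil)) .nil)) (.node .leaf (nat_lit 12097700517419938) (.br (nat_lit 1) (.cons (.br (nat_lit 6) (.cons (.rel (nat_lit 17196654612)) (.cons (.rel (nat_lit 17196712224)) .nil))) .nil)) .leaf)))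

/-- refutations 43 -/
def e43 : EX := (.node (.node .leaf (nat_lit 11997916500939414) (.br (nat_lit 0) (.cons (.br (nat_lit 1) (.cons (.rel (nat_lit 21004305)) .nil)) .nil)) .leaf) (nat_lit 11997916502127254) (.br (nat_lit 0) (.cons (.br (nat_lit 1) (.cons (.rel (nat_lit 21004305)) .nil)) .nil)) (.node .leaf (nat_lit 11997916502228997) (.br (nat_lit 0) (.cons (.br (nat_lit 1) (.cons (.rel (nat_lit 20988192)) .nil)) .nil)) .leaf))

/-- refutations 44 -/
def e44 : EX := (.node (.node (.node (.node .leaf (nat_lit 13300177091693294) (.br (nat_lit 3) (.cons (.br (nat_lit 6) (.cons (.rel (nat_lit 17448304713)) .nil)) .nil)) .leaf) (nat_lit 13300177091693946) (.br (nat_lit 4) (.cons (.br (nat_lit 6) (.cons (.rel (nat_lit 18253611288)) .nil)) .nil)) (.node .leaf (nat_lit 13300177091694045) (.br (nat_lit 1) (.cons (.br (nat_lit 3) (.cons (.rel (nat_lit 285214977)) .nil)) .nil)) .leaf)) (nat_lit 13300177093596686) (.br (nat_lit 1) (.cons (.br (nat_lit 2) (.cons (.rel (nat_lit 100663305)) .nil)) .nil)) (.node (.node .leaf (nat_lit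 13300179501888890) (.br (nat_lit 1) (.cons (.br (nat_lit 2) (.cons (.rel (nat_lit 100729344)) .nil)) .nil)) .leaf) (nat_lit 13300179980039546) (.br (nat_lit 0) (.cons (.br (nat_lit 1) (.cons (.rel (nat_lit 21005316)) .nil)) .nil)) (.node .leaf (nat_lit 13301041522524295) (.br (nat_lit 3) (.cons (.br (nat_lit 4) (.cons (.rel (nat_lit 1342179360)) .nil)) .nil)) .leaf))) (nat_lit 13301044542423175) (.br (nat_lit 0) (.cons (.br (nat_lit 2) (.cons (.rel (nat_lit 142611456)) .nil)) .nil)) (.node (.node (.node .leaf (nat_lit 13301045157757609) (.br (nat_lit 3) (.cons (.br (nat_lit 5) (.cons (.rel (nat_lit 9126806805)) .nil)) .nil)) .leaf) (nat_lit 13301045157757738) (.br (nat_lit 3) (.cons (.br (nat_lit 6) (.cons (.rel (nat_lit 17450409984)) .nil)) .nil)) (.node .leaf (nat_lit 13302323837143322) (.br (nat_lit 2) (.cons (.br (nat_lit 6) (.cons (.rel (nat_lit 17247047682)) (.cons (.rel (nat_lit 17246999568)) .nil))) .nil)) .leaf)) (nat_lit 13302323837143346) (.br (nat_lit 2) (.cons (.br (nat_lit 3) (.cons (.rel (nat_lit 335544609))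 .nil)) .nil)) (.node (.node .leaf (nat_lit 13302327461072123) (.br (nat_lit 1) (.cons (.br (nat_lit 3) (.cons (.rel (nat_lit 285376512)) .nil)) .nil)) .leaf) (nat_lit 13305374485032472) (.br (nat_lit 0) (.cons (.br (nat_lit 1) (.cons (.rel (nat_lit 20980752)) .nil)) .nil)) .leaf)))

/-- refutations 45 -/
def e45 : EX := (.node (.node (.node (.node .leaf (nat_lit 13306240847317247) (.br (nat_lit 0) (.cons (.br (nat_lit 3) (.cons (.rel (nat_lit 272908320)) .nil)) .nil)) .leaf) (nat_lit 13306656788106491) (.br (nat_lit 2) (.cons (.br (nat_lit 3) (.cons (.br (nat_lit 6) (.cons (.rel (nat_lit 34628207616)) (.cons (.rel (nat_lit 17448304713)) (.cons (.rel (nat_lit 17716758528)) .nil)))) (.cons (.rel (nat_lit 402669636)) .nil))) (.cons (.br (nat_lit 3) (.cons (.rel (nat_lit 335550480)) (.cons (.rel (nat_lit 335561733)) .nil))) .nil))) .leaf) (nat_lit 13312792553090584) (.br (nat_lit 0) (.cons (.br (nat_lit 1) (.cons (.rel (nat_lit 20980752)) .nil)) .nil)) (.node .leaf (nat_lit 13312795708801959) (.br (nat_lit 1) (.cons (.br (nat_lit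 2) (.cons (.rel (nat_lit 150994950)) .nil)) .nil)) .leaf)) (nat_lit 13312798304445043) (.br (nat_lit 0) (.cons (.br (nat_lit 2) (.cons (.rel (nat_lit 71323650)) (.cons (.rel (nat_lit 71303688)) (.cons (.rel (nat_lit 142606596)) .nil)))) .nil)) (.node (.node .leaf (nat_lit 13312798592579836) (.br (nat_lit 0) (.cons (.br (nat_lit 3) (.cons (.rel (nat_lit 272976384)) .nil)) .nil)) .leaf) (nat_lit 13312798592929948) (.br (nat_lit 0) (.cons (.br (nat_lit 3) (.cons (.rel (nat_lit 541069344)) .nil)) .nil)) (.node .leaf (nat_lit 13312798593151282) (.br (nat_lit 0) (.cons (.br (nat_lit 1) (.cons (.rel (nat_lit 20980752)) .nil)) .nil)) .leaf)))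

/-- refutations 47 -/
def e47 : EX := (.node .leaf (nat_lit 13400798956459534) (.br (nat_lit 0) (.cons (.br (nat_lit 1) (.cons (.rel (nat_lit 20975892)) .nil)) .nil)) .leaf)

/-- refutations 48 -/
def e48 : EX := (.node (.node (.node .leaf (nat_lit 13728864144510203) (.br (nat_lit 0) (.cons (.br (nat_lit 2) (.cons (.rel (nat_lit 71336961)) .nil)) .nil)) .leaf) (nat_lit 13728869255014700) (.br (nat_lit 3) (.cons (.br (nat_lit 6) (.cons (.rel (nat_lit 17716745217)) .nil)) .nil)) .leaf) (nat_lit 13728869256305570) (.br (nat_lit 6) (.cons (.br (nat_lit 2) (.cons (.rel (nat_lit 34427371524)) (.cons (.rel (nat_lit 17246987268)) .nil))) .nil)) (.node (.node .leaf (nat_lit 13728869256306200) (.br (nat_lit 0) (.cons (.br (nat_lit 4) (.cons (.rel (nat_lit 1077942288)) .nil)) .nil)) .leaf) (nat_lit 13733092090973411) (.br (nat_lit 2) (.cons (.br (nat_lit 4) (.cons (.rel (nat_lit 1141969152)) .nil)) .nil)) .leaf))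

/-- refutations 49 -/
def e49 : EX := (.node (.node (.node .leaf (nat_lit 13829065644931132) (.br (nat_lit 0) (.cons (.br (nat_lit 1) (.cons (.rel (nat_lit 20975892)) .nil)) .nil)) .leaf) (nat_lit 13829830248237938) (.br (nat_lit 1) (.cons (.br (nat_lit 4) (.cons (.rel (nat_lit 1091568657)) .nil)) .nil)) .leaf) (nat_lit 13834004503465187) (.br (nat_lit 1) (.cons (.br (nat_lit 2) (.cons (.rel (nat_lit 168050688)) .nil)) .nil)) (.node (.node .leaf (nat_lit 13838733626299869) (.br (nat_lit 0) (.cons (.br (nat_lit 3) (.cons (.rel (nat_lit 276907008)) .nil)) .nil)) .leaf) (nat_lit 13840400966538098) (.br (nat_lit 0) (.cons (.br (nat_lit 1) (.cons (.rel (nat_lit 20975892)) .nil)) .nil)) .leaf))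

/-- refutations 51 -/
def e51 : EX := (.node (.node (.node (.node .leaf (nat_lit 14098258586503918) (.br (nat_lit 0) (.cons (.br (nat_lit 1) (.cons (.rel (nat_lit 20975892)) .nil)) .nil)) .leaf) (nat_lit 14102141236940009) (.br (nat_lit 3) (.cons (.br (nat_lit 5) (.cons (.rel (nat_lit 4563409152)) .nil)) .nil)) .leaf) (nat_lit 14102141238333572) (.br (nat_lit 1) (.cons (.br (nat_lit 3) (.cons (.rel (nat_lit 287309952)) .nil)) .nil)) (.node (.node .leaf (nat_lit 14102611267422889) (.br (nat_lit 0) (.cons (.br (nat_lit 2) (.cons (.rel (nat_lit 71303688)) .nil)) .nil)) .leaf) (nat_lit 14102611572595618) (.br (nat_lit 1) (.cons (.br (nat_lit 2) (.cons (.rel (nat_lit 168050688)) (.cons (.rel (nat_lit 150994950)) .nil))) .nil)) .leaf)) (nat_lit 14102617307786128) (.br (nat_lit 2) (.cons (.br (nat_lit 4) (.cons (.rel (nat_lit 1141391361)) .nil)) .nil)) (.node (.node (.node .leaf (nat_lit 14102617310292880) (.br (nat_lit 0) (.cons (.br (nat_lit 3) (.cons (.rel (nat_lit 274731264)) .nil)) .nil)) .leaf) (nat_lit 14102617310402842)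 (.br (nat_lit 2) (.cons (.br (nat_lit 3) (.cons (.rel (nat_lit 335679744)) .nil)) .nil)) .leaf) (nat_lit 14102617310403490) (.br (nat_lit 1) (.cons (.br (nat_lit 2) (.cons (.rel (nat_lit 84443136)) .nil)) .nil)) (.node .leaf (nat_lit 14103204275465104) (.br (nat_lit 0) (.cons (.br (nat_lit 1) (.cons (.rel (nat_lit 20972034)) .nil)) .nil)) .leaf)))

/-- refutations 52 -/
def e52 : EX := (.node (.node (.node .leaf (nat_lit 14197412201499875) (.br (nat_lit 2) (.cons (.br (nat_lit 3) (.cons (.rel (nat_lit 335561733)) .nil)) .nil)) .leaf) (nat_lit 14199482375735547) (.br (nat_lit 0) (.cons (.br (nat_lit 2) (.cons (.rel (nat_lit 71303688)) .nil)) .nil)) .leaf) (nat_lit 14199482375736551) (.br (nat_lit 0) (.cons (.br (nat_lit 2) (.cons (.rel (nat_lit 71336961)) .nil)) .nil)) (.node (.node .leaf (nat_lit 14199482375759079) (.br (nat_lit 0) (.cons (.br (nat_lit 1) (.cons (.rel (nat_lit 20975892)) .nil)) .nil)) .leaf) (nat_lit 14202523212582115) (.br (nat_lit 4) (.cons (.br (nat_lit 5) (.cons (.rel (nat_lit 5369266194)) (.cons (.rel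 (nat_lit 9663692838)) .nil))) .nil)) .leaf))

/-- refutations 53 -/
def e53 : EX := (.node (.node (.node (.node (.node .leaf (nat_lit 14250841597592359) (.br (nat_lit 1) (.cons (.br (nat_lit 2) (.cons (.rel (nat_lit 84443136)) .nil)) .nil)) .leaf) (nat_lit 14255567291813091) (.br (nat_lit 3) (.cons (.br (nat_lit 4) (.cons (.rel (nat_lit 1342178313)) (.cons (.rel (nat_lit 1342186788)) .nil))) .nil)) .leaf) (nat_lit 14257704952401123) (.br (nat_lit 4) (.cons (.br (nat_lit 5) (.cons (.rel (nat_lit 5369824257)) .nil)) .nil)) (.node .leaf (nat_lit 14260470911338546) (.br (nat_lit 0) (.cons (.br (nat_lit 5) (.cons (.rel (nat_lit 4304406528)) (.cons (.rel (nat_lit 8594129217)) .nil))) (.cons (.br (nat_lit 3) (.cons (.rel (nat_lit 272646720)) (.cons (.rel (nat_lit 272630853)) .nil))) .nil))) .leaf)) (nat_lit 14260470911339303) (.br (nat_lit 4) (.cons (.br (nat_lit 5) (.cons (.rel (nat_lit 5369757972)) .nil)) .nil)) (.node (.node .leaf (nat_lit 14260470911339747) (.br (nat_lit 3) (.cons (.br (nat_lit 5) (.cons (.rel (nat_lit 4563409152))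 (.cons (.rel (nat_lit 4563410952)) .nil))) (.cons (.br (nat_lit 5) (.cons (.rel (nat_lit 4563409152)) (.cons (.rel (nat_lit 4563403281)) .nil))) .nil))) .leaf) (nat_lit 14260470913918363) (.br (nat_lit 0) (.cons (.br (nat_lit 2) (.cons (.rel (nat_lit 71303688)) .nil)) .nil)) (.node .leaf (nat_lit 14260496681143523) (.br (nat_lit 6) (.cons (.br (nat_lit 3) (.cons (.rel (nat_lit 17450409984)) (.cons (.rel (nat_lit 17448305760)) .nil))) .nil)) .leaf))) (nat_lit 14261915154409628) (.br (nat_lit 1) (.cons (.br (nat_lit 3) (.cons (.rel (nat_lit 285376512)) .nil)) .nil)) (.node (.node (.node .leaf (nat_lit 14262616257753373) (.br (nat_lit 0) (.cons (.br (nat_lit 1) (.cons (.rel (nat_lit 21005316)) .nil)) .nil)) .leaf) (nat_lit 14262616258515004) (.br (nat_lit 0) (.cons (.br (nat_lit 2) (.cons (.rel (nat_lit 71307537)) .nil)) .nil)) (.node .leaf (nat_lit 14262618394986796) (.br (nat_lit 0) (.cons (.br (nat_lit 6) (.cons (.rel (nat_lit 17184068688)) (.cons (.rel (nat_lit 34363932693)) (.cons (.rel (nat_lit 17186160672)) .nil)))) (.cons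 (.br (nat_lit 3) (.cons (.rel (nat_lit 272629842)) (.cons (.rel (nat_lit 541066497)) .nil))) .nil))) .leaf)) (nat_lit 14262618395620888) (.br (nat_lit 0) (.cons (.br (nat_lit 3) (.cons (.rel (nat_lit 272646720)) (.cons (.rel (nat_lit 272629842)) .nil))) .nil)) (.node (.node .leaf (nat_lit 14262618396849688) (.br (nat_lit 0) (.cons (.br (nat_lit 3) (.cons (.rel (nat_lit 272646720)) .nil)) .nil)) .leaf) (nat_lit 14262618397856044) (.br (nat_lit 1) (.cons (.br (nat_lit 3) (.cons (.rel (nat_lit 302006337)) .nil)) .nil)) (.node .leaf (nat_lit 14262618398078488) (.br (nat_lit 0) (.cons (.br (nat_lit 1) (.cons (.rel (nat_lit 20973093)) (.cons (.rel (nat_lit 21005316)) .nil))) .nil)) .leaf))))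

/-- refutations 54 -/
def e54 : EX := (.node (.node (.node .leaf (nat_lit 14267351969041189) (.br (nat_lit 0) (.cons (.br (nat_lit 3) (.cons (.rel (nat_lit 272629842)) .nil)) .nil)) .leaf) (nat_lit 14268812849318569) (.br (nat_lit 0) (.cons (.br (nat_lit 1) (.cons (.rel (nat_lit 20988192)) .nil)) .nil)) .leaf) (nat_lit 14280190947494820) (.br (nat_lit 0) (.cons (.br (nat_lit 1) (.cons (.rel (nat_lit 20977953)) .nil)) .nil)) (.node (.node .leaf (nat_lit 14280196507814664) (.br (nat_lit 0) (.cons (.br (nat_lit 1) (.cons (.rel (nat_lit 22022208)) (.cons (.rel (nat_lit 21102600)) .nil))) .nil)) .leaf) (nat_lit 14280196508040054) (.br (nat_lit 0) (.cons (.br (nat_lit 2) (.cons (.rel (nat_lit 142611456)) .nil)) .nil)) .leaf))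

/-- refutations 55 -/
def e55 : EX := (.node .leaf (nat_lit 14291392680936079) (.br (nat_lit 0) (.cons (.br (nat_lit 1) (.cons (.rel (nat_lit 20980752)) .nil)) .nil)) .leaf)

/-- refutations 56 -/
def e56 : EX := (.node (.node .leaf (nat_lit 15401212821672097) (.br (nat_lit 2) (.cons (.br (nat_lit 3) (.cons (.rel (nat_lit 335544609)) .nil)) .nil)) .leaf) (nat_lit 15416650337618582) (.br (nat_lit 0) (.cons (.br (nat_lit 2) (.cons (.rel (nat_lit 71368962)) .nil)) .nil)) .leaf)

/-- refutations 57 -/
def e57 : EX := (.node (.node (.node .leaf (nat_lit 15428435727878779) (.br (nat_lit 0) (.cons (.br (nat_lit 1) (.cons (.rel (nat_lit 41943297)) .nil)) .nil)) .leaf) (nat_lit 15428435727878825) (.br (nat_lit 1) (.cons (.br (nat_lit 4) (.cons (.rel (nat_lit 1090783296)) .nil)) .nil)) .leaf) (nat_lit 15428435728003707) (.br (nat_lit 0) (.cons (.br (nat_lit 1) (.cons (.rel (nat_lit 20980752)) .nil)) .nil)) (.node (.node .leaf (nat_lit 15428830864870057) (.br (nat_lit 1) (.cons (.br (nat_lit 4) (.cons (.rel (nat_lit 1091059716)) .nil))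 .nil)) .leaf) (nat_lit 15439399313992361) (.br (nat_lit 0) (.cons (.br (nat_lit 1) (.cons (.rel (nat_lit 20975892)) .nil)) .nil)) .leaf))

/-- refutations 59 -/
def e59 : EX := (.node .leaf (nat_lit 15523225656102265) (.br (nat_lit 0) (.cons (.br (nat_lit 1) (.cons (.rel (nat_lit 41943297)) .nil)) .nil)) .leaf)

/-- refutations 60 -/
def e60 : EX := (.node (.node (.node (.node .leaf (nat_lit 15571672887200656) (.br (nat_lit 0) (.cons (.br (nat_lit 3) (.cons (.rel (nat_lit 276856836)) .nil)) .nil)) .leaf) (nat_lit 15571672887464686) (.br (nat_lit 0) (.cons (.br (nat_lit 1) (.cons (.rel (nat_lit 21004305)) .nil)) .nil)) .leaf) (nat_lit 15580100118255643) (.br (nat_lit 0) (.cons (.br (nat_lit 4) (.cons (.rel (nat_lit 1078026240)) .nil)) .nil)) (.node (.node .leaf (nat_lit 15580100119281018) (.br (nat_lit 6) (.cons (.br (nat_lit 0) (.cons (.rel (nat_lit 34363933704)) (.cons (.rel (nat_lit 17184079941)) .nil))) .nil)) .leaf) (nat_lit 15580103239533426) (.br (nat_lit 1) (.cons (.br (nat_lit 0) (.cons (.rel (nat_lit 26234880)) (.cons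 (.rel (nat_lit 20980752)) .nil))) .nil)) .leaf)) (nat_lit 15580103239534094) (.br (nat_lit 4) (.cons (.br (nat_lit 0) (.cons (.rel (nat_lit 1078992960)) (.cons (.rel (nat_lit 2155873797)) .nil))) .nil)) (.node (.node (.node .leaf (nat_lit 15580103239841927) (.br (nat_lit 0) (.cons (.br (nat_lit 1) (.cons (.rel (nat_lit 20980752)) .nil)) .nil)) .leaf) (nat_lit 15580103239843194) (.br (nat_lit 0) (.cons (.br (nat_lit 2) (.cons (.rel (nat_lit 142611456)) (.cons (.rel (nat_lit 142606596)) .nil))) .nil)) .leaf) (nat_lit 15580953641003689) (.br (nat_lit 0) (.cons (.br (nat_lit 6) (.cons (.rel (nat_lit 34363933704)) (.cons (.rel (nat_lit 34369175568)) .nil))) .nil)) (.node (.node .leaf (nat_lit 15581211339041449) (.br (nat_lit 0) (.cons (.br (nat_lit 5) (.cons (.rel (nat_lit 4299166209)) (.cons (.rel (nat_lit 8596227072)) (.cons (.rel (nat_lit 8594129217)) .nil)))) .nil)) .leaf) (nat_lit 15582190591584937) (.br (nat_lit 0) (.cons (.br (nat_lit 4) (.cons (.rel (nat_lit 1082130564)) .nil)) .nil)) .leaf)))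

/-- refutations 61 -/
def e61 : EX := (.node (.node (.node (.node .leaf (nat_lit 15835344553903586) (.br (nat_lit 0) (.cons (.br (nat_lit 2) (.cons (.rel (nat_lit 71307537)) .nil)) .nil)) .leaf) (nat_lit 15835555677866035) (.br (nat_lit 0) (.cons (.br (nat_lit 2) (.cons (.rel (nat_lit 72630273)) (.cons (.rel (nat_lit 71323650)) (.cons (.rel (nat_lit 76677120)) (.cons (.rel (nat_lit 71323650)) .nil))))) .nil)) .leaf) (nat_lit 15835555677866735) (.br (nat_lit 6) (.cons (.br (nat_lit 3) (.cons (.rel (nat_lit 17448370752)) (.cons (.rel (nat_lit 17448304713)) .nil))) .nil)) (.node (.node .leaf (nat_lit 15835555677866896) (.br (nat_lit 4) (.cons (.br (nat_lit 6) (.cons (.rel (nat_lit 18253750272)) (.cons (.rel (nat_lit 18253616148)) (.cons (.rel (nat_lit 18253627401)) .nil)))) .nil)) .leaf) (nat_lit 15835555677867239) (.br (nat_lit 0) (.cons (.br (nat_lit 5) (.cons (.rel (nat_lit 4299186180)) (.cons (.rel (nat_lit 4300210512)) .nil))) .nil)) .leaf)) (nat_lit 15835555677867391) (.br (nat_lit 0) (.cons (.br (nat_lit 1) (.cons (.rel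 (nat_lit 41943297)) .nil)) .nil)) (.node (.node (.node .leaf (nat_lit 15835555677889267) (.br (nat_lit 0) (.cons (.br (nat_lit 1) (.cons (.rel (nat_lit 21512256)) .nil)) .nil)) .leaf) (nat_lit 15835555679420551) (.br (nat_lit 1) (.cons (.br (nat_lit 2) (.cons (.rel (nat_lit 100664352)) .nil)) .nil)) .leaf) (nat_lit 15835555679658235) (.br (nat_lit 2) (.cons (.br (nat_lit 3) (.cons (.rel (nat_lit 335544609)) .nil)) .nil)) (.node .leaf (nat_lit 15839515637713051) (.br (nat_lit 0) (.cons (.br (nat_lit 1) (.cons (.rel (nat_lit 41943297)) .nil)) .nil)) .leaf)))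

/-- refutations 62 -/
def e62 : EX := (.node (.node (.node .leaf (nat_lit 15844238594972578) (.br (nat_lit 2) (.cons (.br (nat_lit 3) (.cons (.rel (nat_lit 335544609)) .nil)) .nil)) .leaf) (nat_lit 15844241322846469) (.br (nat_lit 0) (.cons (.br (nat_lit 3) (.cons (.rel (nat_lit 272703552)) .nil)) .nil)) (.node .leaf (nat_lit 15844241322847120) (.br (nat_lit 0) (.cons (.br (nat_lit 3) (.cons (.rel (nat_lit 541066497)) .nil)) .nil)) .leaf)) (nat_lit 15844241324136730) (.br (nat_lit 4) (.cons (.br (nat_lit 6) (.cons (.rel (nat_lit 18253616148)) .nil)) .nil)) (.node (.node .leaf (nat_lit 15844243726140322) (.br (nat_lit 0) (.cons (.br (nat_lit 2) (.cons (.rel (nat_lit 71303688)) .nil)) .nil)) .leaf) (nat_lit 15844243728690064) (.br (nat_lit 0) (.cons (.br (nat_lit 3) (.cons (.rel (nat_lit 272646720)) .nil)) .nil)) (.node .leaf (nat_lit 15844243728800674) (.br (nat_lit 1) (.cons (.br (nat_lit 3) (.cons (.rel (nat_lit 285376512)) .nil)) .nil)) .leaf)))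

/-- refutations 64 -/
def e64 : EX := (.node (.node (.node (.node (.node .leaf (nat_lit 15593225033092502) (.br (nat_lit 1) (.cons (.br (nat_lit 4) (.cons (.rel (nat_lit 2164262148)) .nil)) .nil)) .leaf) (nat_lit 15938609123166889) (.br (nat_lit 4) (.cons (.br (nat_lit 0) (.cons (.rel (nat_lit 1077936417)) (.cons (.rel (nat_lit 1077936417)) (.cons (.rel (nat_lit 1077936417)) .nil)))) (.cons (.br (nat_lit 0) (.cons (.rel (nat_lit 1077936417)) (.cons (.rel (nat_lit 1077937428)) (.cons (.rel (nat_lit 2155888896)) .nil)))) .nil))) .leaf) (nat_lit 15938609123799721) (.br (nat_lit 0) (.cons (.br (nat_lit 1) (.cons (.rel (nat_lit 20980752)) .nil)) .nil)) (.node .leaf (nat_lit 15940069412047529) (.br (nat_lit 1) (.cons (.br (nat_lit 3) (.cons (.rel (nat_lit 285217824)) (.cons (.rel (nat_lit 285737028)) .nil))) .nil)) .leaf)) (nat_lit 15940069412047624) (.br (nat_lit 0) (.cons (.br (nat_lit 3) (.cons (.rel (nat_lit 272908320)) .nil)) .nil)) (.node (.node .leaf (nat_lit 15940069412048158) (.br (nat_lit 1) (.cons (.br (nat_lit 3) (.cons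 (.rel (nat_lit 285237504)) .nil)) .nil)) .leaf) (nat_lit 15940069412096876) (.br (nat_lit 0) (.cons (.br (nat_lit 3) (.cons (.rel (nat_lit 272896020)) .nil)) .nil)) (.node .leaf (nat_lit 15940069412680361) (.br (nat_lit 0) (.cons (.br (nat_lit 4) (.cons (.rel (nat_lit 1077942288)) .nil)) .nil)) .leaf))) (nat_lit 15940069413940511) (.br (nat_lit 1) (.cons (.br (nat_lit 5) (.cons (.rel (nat_lit 4312269828)) .nil)) .nil)) (.node (.node (.node .leaf (nat_lit 15940069414626811) (.br (nat_lit 0) (.cons (.br (nat_lit 1) (.cons (.rel (nat_lit 42008580)) .nil)) .nil)) .leaf) (nat_lit 15940069414677986) (.br (nat_lit 0) (.cons (.br (nat_lit 3) (.cons (.rel (nat_lit 272896020)) .nil)) .nil)) (.node .leaf (nat_lit 15940069414862201) (.br (nat_lit 1) (.cons (.br (nat_lit 3) (.cons (.rel (nat_lit 571473984)) .nil)) .nil)) .leaf)) (nat_lit 15940069414916777) (.br (nat_lit 0) (.cons (.br (nat_lit 1) (.cons (.rel (nat_lit 41943297)) .nil)) .nil)) (.node (.node .leaf (nat_lit 15941160925770409) (.br (nat_lit 0) (.cons (.br (nat_lit 1) (.cons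 (.rel (nat_lit 20975892)) (.cons (.rel (nat_lit 20980752)) .nil))) .nil)) .leaf) (nat_lit 15943891934833951) (.br (nat_lit 1) (.cons (.br (nat_lit 2) (.cons (.br (nat_lit 4) (.cons (.rel (nat_lit 1141375248)) .nil)) .nil)) .nil)) (.node .leaf (nat_lit 15950644214216989) (.br (nat_lit 0) (.cons (.br (nat_lit 3) (.cons (.rel (nat_lit 541069344)) (.cons (.rel (nat_lit 272896020)) .nil))) .nil)) .leaf))))

/-- refutations 66 -/
def e66 : EX := (.node (.node (.node .leaf (nat_lit 16363364424072419) (.br (nat_lit 0) (.cons (.br (nat_lit 1) (.cons (.rel (nat_lit 20972034)) .nil)) .nil)) .leaf) (nat_lit 16372601726114473) (.br (nat_lit 0) (.cons (.br (nat_lit 3) (.cons (.rel (nat_lit 276907008)) .nil)) .nil)) .leaf) (nat_lit 16372602012559996) (.br (nat_lit 0) (.cons (.br (nat_lit 3) (.cons (.rel (nat_lit 541130769)) .nil)) .nil)) (.node (.node .leaf (nat_lit 16372602013789072) (.br (nat_lit 0) (.cons (.br (nat_lit 4) (.cons (.rel (nat_lit 1077937428)) .nil)) .nil)) .leaf) (nat_lit 16372973805326468) (.br (nat_lit 0) (.cons (.br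 (nat_lit 2) (.cons (.rel (nat_lit 71336961)) .nil)) .nil)) .leaf))

/-- refutations 67 -/
def e67 : EX := (.node (.node (.node (.node .leaf (nat_lit 22166640909146118) (.br (nat_lit 0) (.cons (.br (nat_lit 1) (.cons (.rel (nat_lit 21512256)) .nil)) .nil)) .leaf) (nat_lit 22166640909147389) (.br (nat_lit 1) (.cons (.br (nat_lit 2) (.cons (.rel (nat_lit 84148545)) (.cons (.rel (nat_lit 83887236)) .nil))) (.cons (.br (nat_lit 2) (.cons (.rel (nat_lit 84939777)) (.cons (.rel (nat_lit 86246400)) .nil))) .nil))) .leaf) (nat_lit 22166640909147412) (.br (nat_lit 0) (.cons (.br (nat_lit 1) (.cons (.rel (nat_lit 41943297)) .nil)) .nil)) (.node .leaf (nat_lit 22167505703275246) (.br (nat_lit 3) (.cons (.br (nat_lit 6) (.cons (.rel (nat_lit 17448584193)) .nil)) .nil)) .leaf)) (nat_lit 22167505703275378) (.br (nat_lit 3) (.cons (.br (nat_lit 5) (.cons (.rel (nat_lit 4563419394)) .nil)) .nil)) (.node (.node (.node .leaf (nat_lit 22168353967808569) (.br (nat_lit 0) (.cons (.br (nat_lit 1) (.cons (.rel (nat_lit 21005316)) .nil)) .nil)) .leaf)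 (nat_lit 22171620382608611) (.br (nat_lit 0) (.cons (.br (nat_lit 4) (.cons (.rel (nat_lit 1077937428)) .nil)) .nil)) .leaf) (nat_lit 22171620382713110) (.br (nat_lit 1) (.cons (.br (nat_lit 3) (.cons (.rel (nat_lit 285229077)) .nil)) .nil)) (.node .leaf (nat_lit 22171792080740358) (.br (nat_lit 0) (.cons (.br (nat_lit 3) (.cons (.rel (nat_lit 272646720)) .nil)) .nil)) .leaf)))

/-- refutations 68 -/
def e68 : EX := (.node (.node (.node (.node (.node .leaf (nat_lit 22171832495385828) (.br (nat_lit 0) (.cons (.br (nat_lit 1) (.cons (.rel (nat_lit 20975892)) .nil)) .nil)) .leaf) (nat_lit 22171835031601159) (.br (nat_lit 6) (.cons (.br (nat_lit 2) (.cons (.rel (nat_lit 34493957376)) (.cons (.rel (nat_lit 17246982408)) .nil))) .nil)) .leaf) (nat_lit 22171835032939177) (.br (nat_lit 0) (.cons (.br (nat_lit 3) (.cons (.rel (nat_lit 541069344)) .nil)) .nil)) (.node (.node .leaf (nat_lit 22171837861483756) (.br (nat_lit 0) (.cons (.br (nat_lit 3) (.cons (.rel (nat_lit 272630853)) .nil)) .nil)) .leaf) (nat_lit 22171838654711266) (.br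 (nat_lit 1) (.cons (.br (nat_lit 2) (.cons (.rel (nat_lit 151126272)) .nil)) .nil)) .leaf)) (nat_lit 22171838655582469) (.br (nat_lit 0) (.cons (.br (nat_lit 1) (.cons (.rel (nat_lit 20992005)) .nil)) .nil)) (.node (.node (.node .leaf (nat_lit 22171967631966514) (.br (nat_lit 2) (.cons (.br (nat_lit 3) (.cons (.rel (nat_lit 335545620)) .nil)) .nil)) .leaf) (nat_lit 22172015519704342) (.br (nat_lit 3) (.cons (.br (nat_lit 4) (.cons (.rel (nat_lit 1342177302)) .nil)) .nil)) .leaf) (nat_lit 22173114930563354) (.br (nat_lit 2) (.cons (.br (nat_lit 4) (.cons (.rel (nat_lit 1141969152)) .nil)) .nil)) (.node .leaf (nat_lit 22173114930613499) (.br (nat_lit 1) (.cons (.br (nat_lit 3) (.cons (.rel (nat_lit 285376512)) (.cons (.rel (nat_lit 285214977)) .nil))) .nil)) .leaf))) (nat_lit 22177129221862036) (.br (nat_lit 1) (.cons (.br (nat_lit 4) (.cons (.rel (nat_lit 1107300612)) .nil)) .nil)) (.node (.node (.node (.node .leaf (nat_lit 22177206318927075) (.br (nat_lit 2) (.cons (.br (nat_lit 4) (.cons (.rel (nat_lit 1207967760)) .nil))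 .nil)) .leaf) (nat_lit 22177206320265891) (.br (nat_lit 0) (.cons (.br (nat_lit 2) (.cons (.rel (nat_lit 142631184)) .nil)) .nil)) .leaf) (nat_lit 22177341178382342) (.br (nat_lit 3) (.cons (.br (nat_lit 4) (.cons (.rel (nat_lit 1342178313)) .nil)) .nil)) (.node .leaf (nat_lit 22177341178382366) (.br (nat_lit 3) (.cons (.br (nat_lit 0) (.cons (.rel (nat_lit 276856836)) (.cons (.rel (nat_lit 272629842)) .nil))) .nil)) .leaf)) (nat_lit 22177341178382971) (.br (nat_lit 3) (.cons (.br (nat_lit 6) (.cons (.rel (nat_lit 17448570882)) .nil)) .nil)) (.node (.node (.node .leaf (nat_lit 22177341178383017) (.br (nat_lit 0) (.cons (.br (nat_lit 1) (.cons (.rel (nat_lit 41943297)) .nil)) .nil)) .leaf) (nat_lit 22177341178383122) (.br (nat_lit 1) (.cons (.br (nat_lit 2) (.cons (.rel (nat_lit 100729344)) .nil)) .nil)) .leaf) (nat_lit 22177341178383587) (.br (nat_lit 4) (.cons (.br (nat_lit 0) (.cons (.rel (nat_lit 1077936417)) (.cons (.rel (nat_lit 1077937428)) (.cons (.rel (nat_lit 1077940230)) .nil)))) (.cons (.br (nat_lit 6) (.cons (.rel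 (nat_lit 18253628448)) (.cons (.rel (nat_lit 18253628448)) .nil))) .nil))) (.node .leaf (nat_lit 22177341178383593) (.br (nat_lit 3) (.cons (.br (nat_lit 6) (.cons (.rel (nat_lit 17448304713)) .nil)) .nil)) .leaf))))

/-- refutations 70 -/
def e70 : EX := (.node .leaf (nat_lit 16454323026267363) (.br (nat_lit 5) (.cons (.br (nat_lit 6) (.cons (.rel (nat_lit 21474853380)) .nil)) .nil)) .leaf)

/-- refutations 71 -/
def e71 : EX := (.node (.node (.node (.node (.node .leaf (nat_lit 22183972607887997) (.br (nat_lit 0) (.cons (.br (nat_lit 4) (.cons (.rel (nat_lit 1077953541)) (.cons (.rel (nat_lit 1077940230)) .nil))) (.cons (.br (nat_lit 2) (.cons (.rel (nat_lit 71308548)) (.cons (.rel (nat_lit 71307537)) (.cons (.rel (nat_lit 142611456)) .nil)))) .nil))) .leaf) (nat_lit 22183972607888611) (.br (nat_lit 2) (.cons (.br (nat_lit 0) (.cons (.rel (nat_lit 71307537)) (.cons (.rel (nat_lit 71336961)) (.cons (.rel (nat_lit 71307537)) .nil)))) (.cons (.br (nat_lit 0) (.cons (.rel (nat_lit 71311398)) (.cons (.rel (nat_lit 71336961))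 (.cons (.rel (nat_lit 71307537)) .nil)))) .nil))) (.node .leaf (nat_lit 22183972609178851) (.br (nat_lit 0) (.cons (.br (nat_lit 1) (.cons (.rel (nat_lit 21037317)) .nil)) .nil)) .leaf)) (nat_lit 22184069798370591) (.br (nat_lit 0) (.cons (.br (nat_lit 2) (.cons (.rel (nat_lit 71308548)) .nil)) .nil)) (.node (.node .leaf (nat_lit 22184069891980575) (.br (nat_lit 1) (.cons (.br (nat_lit 0) (.cons (.rel (nat_lit 20992005)) (.cons (.rel (nat_lit 38011905)) .nil))) .nil)) .leaf) (nat_lit 22184230305926371) (.br (nat_lit 1) (.cons (.br (nat_lit 3) (.cons (.rel (nat_lit 285280260)) .nil)) .nil)) (.node .leaf (nat_lit 22184233099331635) (.br (nat_lit 0) (.cons (.br (nat_lit 1) (.cons (.rel (nat_lit 22022208)) .nil)) .nil)) .leaf))) (nat_lit 22184233099332220) (.br (nat_lit 1) (.cons (.br (nat_lit 2) (.cons (.rel (nat_lit 83886225)) .nil)) .nil)) (.node (.node (.node .leaf (nat_lit 22184233099332839) (.br (nat_lit 0) (.cons (.br (nat_lit 3) (.cons (.rel (nat_lit 276856836)) .nil)) .nil)) .leaf) (nat_lit 22184233099332861) (.br (nat_lit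 0) (.cons (.br (nat_lit 2) (.cons (.rel (nat_lit 71321862)) (.cons (.rel (nat_lit 71303688)) .nil))) (.cons (.br (nat_lit 2) (.cons (.rel (nat_lit 71307537)) (.cons (.rel (nat_lit 71308548)) .nil))) .nil))) (.node .leaf (nat_lit 22184233100623101) (.br (nat_lit 1) (.cons (.br (nat_lit 6) (.cons (.rel (nat_lit 34393359360)) .nil)) .nil)) .leaf)) (nat_lit 22184233100736563) (.br (nat_lit 0) (.cons (.br (nat_lit 1) (.cons (.rel (nat_lit 21055488)) .nil)) .nil)) (.node (.node .leaf (nat_lit 22184233100737174) (.br (nat_lit 0) (.cons (.br (nat_lit 1) (.cons (.rel (nat_lit 21005316)) .nil)) .nil)) .leaf) (nat_lit 22184233100737823) (.br (nat_lit 1) (.cons (.br (nat_lit 3) (.cons (.rel (nat_lit 285216777)) .nil)) .nil)) (.node .leaf (nat_lit 22184233101962471) (.br (nat_lit 2) (.cons (.br (nat_lit 3) (.cons (.rel (nat_lit 335545620)) .nil)) .nil)) .leaf)))) (nat_lit 22185959709762798) (.br (nat_lit 0) (.cons (.br (nat_lit 1) (.cons (.rel (nat_lit 41943297)) .nil)) .nil)) (.node (.node (.node (.node .leaf (nat_lit 22186334839901072)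 (.br (nat_lit 1) (.cons (.br (nat_lit 2) (.cons (.rel (nat_lit 84443136)) .nil)) .nil)) .leaf) (nat_lit 22186334839901415) (.br (nat_lit 0) (.cons (.br (nat_lit 6) (.cons (.rel (nat_lit 17184063828)) .nil)) .nil)) (.node .leaf (nat_lit 22189375676746365) (.br (nat_lit 2) (.cons (.br (nat_lit 0) (.cons (.rel (nat_lit 75513984)) (.cons (.rel (nat_lit 142606596)) .nil))) .nil)) .leaf)) (nat_lit 22189375676746979) (.br (nat_lit 0) (.cons (.br (nat_lit 1) (.cons (.rel (nat_lit 41943297)) (.cons (.rel (nat_lit 41947158)) .nil))) (.cons (.br (nat_lit 1) (.cons (.rel (nat_lit 41947158)) (.cons (.rel (nat_lit 21004305)) .nil))) .nil))) (.node (.node .leaf (nat_lit 22189375678033925) (.br (nat_lit 0) (.cons (.br (nat_lit 1) (.cons (.rel (nat_lit 20992005)) .nil)) .nil)) .leaf) (nat_lit 22189375679329507) (.br (nat_lit 0) (.cons (.br (nat_lit 1) (.cons (.rel (nat_lit 41947158)) .nil)) .nil)) (.node .leaf (nat_lit 22189558790139936) (.br (nat_lit 0) (.cons (.br (nat_lit 1) (.cons (.rel (nat_lit 20975892)) .nil)) .nil)) .leaf))) (nat_lit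 22189567388459069) (.br (nat_lit 0) (.cons (.br (nat_lit 1) (.cons (.rel (nat_lit 20980752)) .nil)) .nil)) (.node (.node (.node .leaf (nat_lit 22194486687827973) (.br (nat_lit 1) (.cons (.br (nat_lit 3) (.cons (.rel (nat_lit 285229077)) .nil)) .nil)) .leaf) (nat_lit 22194486687829269) (.br (nat_lit 0) (.cons (.br (nat_lit 3) (.cons (.rel (nat_lit 272703552)) .nil)) .nil)) (.node .leaf (nat_lit 22194707405968622) (.br (nat_lit 1) (.cons (.br (nat_lit 6) (.cons (.rel (nat_lit 17196650754)) .nil)) .nil)) .leaf)) (nat_lit 22195016730413086) (.br (nat_lit 0) (.cons (.br (nat_lit 1) (.cons (.rel (nat_lit 20980752)) .nil)) .nil)) (.node (.node .leaf (nat_lit 22195019263772702) (.br (nat_lit 0) (.cons (.br (nat_lit 1) (.cons (.rel (nat_lit 20980752)) .nil)) .nil)) .leaf) (nat_lit 22197107754558702) (.br (nat_lit 0) (.cons (.br (nat_lit 1) (.cons (.rel (nat_lit 21004305)) .nil)) .nil)) .leaf))))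

/-- refutations 72 -/
def e72 : EX := (.node (.node (.node .leaf (nat_lit 22435454329038848) (.br (nat_lit 0) (.cons (.br (nat_lit 2) (.cons (.rel (nat_lit 71308548)) .nil)) .nil)) .leaf) (nat_lit 22435454329040108) (.br (nat_lit 0) (.cons (.br (nat_lit 2) (.cons (.rel (nat_lit 71336961)) .nil)) .nil)) (.node .leaf (nat_lit 22435849466030080) (.br (nat_lit 5) (.cons (.br (nat_lit 6) (.cons (.rel (nat_lit 21474837513)) (.cons (.rel (nat_lit 21474836502)) .nil))) .nil)) .leaf)) (nat_lit 22435849818794260) (.br (nat_lit 1) (.cons (.br (nat_lit 2) (.cons (.rel (nat_lit 84934917)) .nil)) .nil)) (.node (.node .leaf (nat_lit 22435850422632754) (.br (nat_lit 2) (.cons (.br (nat_lit 3) (.cons (.rel (nat_lit 335548422)) .nil)) .nil)) .leaf) (nat_lit 22436957920356628) (.br (nat_lit 0) (.cons (.br (nat_lit 6) (.cons (.rel (nat_lit 17184326148)) .nil)) .nil)) .leaf))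

/-- refutations 73 -/
def e73 : EX := (.node (.node (.node .leaf (nat_lit 22518321254782183) (.br (nat_lit 0) (.cons (.br (nat_lit 1) (.cons (.rel (nat_lit 20972034)) .nil)) .nil)) .leaf) (nat_lit 22518321426824479) (.br (nat_lit 0) (.cons (.br (nat_lit 4) (.cons (.rel (nat_lit 1077942288)) (.cons (.rel (nat_lit 1082130564)) .nil))) .nil)) .leaf) (nat_lit 22518484463539453) (.br (nat_lit 1) (.cons (.br (nat_lit 6) (.cons (.rel (nat_lit 34393309188)) .nil)) .nil)) (.node .leaf (nat_lit 22518484634176765) (.br (nat_lit 0) (.cons (.br (nat_lit 1) (.cons (.rel (nat_lit 21005316)) .nil)) .nil)) .leaf))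

/-- refutations 74 -/
def e74 : EX := (.node (.node .leaf (nat_lit 22541270937251047) (.br (nat_lit 0) (.cons (.br (nat_lit 3) (.cons (.rel (nat_lit 272896020)) .nil)) .nil)) .leaf) (nat_lit 22541452546934242) (.br (nat_lit 0) (.cons (.br (nat_lit 3) (.cons (.rel (nat_lit 272703552)) .nil)) .nil)) .leaf)

/-- refutations 75 -/
def e75 : EX := (.node (.node .leaf (nat_lit 22647027784776307) (.br (nat_lit 6) (.cons (.br (nat_lit 0) (.cons (.rel (nat_lit 34369175568)) (.cons (.rel (nat_lit 17184130113)) .nil))) .nil)) .leaf) (nat_lit 22647027786017404) (.br (nat_lit 0) (.cons (.br (nat_lit 4) (.cons (.rel (nat_lit 1084489728)) .nil)) .nil)) (.node .leaf (nat_lit 22647032831746078) (.br (nat_lit 1) (.cons (.br (nat_lit 3) (.cons (.rel (nat_lit 285212964)) .nil)) .nil)) .leaf))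

/-- refutations 76 -/
def e76 : EX := (.node (.node (.node (.node (.node .leaf (nat_lit 22905509933806220) (.br (nat_lit 0) (.cons (.br (nat_lit 2) (.cons (.rel (nat_lit 71323650)) .nil)) .nil)) .leaf) (nat_lit 22905509935037727) (.br (nat_lit 0) (.cons (.br (nat_lit 1) (.cons (.rel (nat_lit 20972034)) .nil)) .nil)) .leaf) (nat_lit 22905512635390109) (.br (nat_lit 0) (.cons (.br (nat_lit 4) (.cons (.rel (nat_lit 1077952530)) .nil)) .nil)) (.node (.node .leaf (nat_lit 22905512636169503) (.br (nat_lit 1) (.cons (.br (nat_lit 6) (.cons (.rel (nat_lit 17196666912)) .nil)) .nil)) .leaf) (nat_lit 22905512636208359) (.br (nat_lit 0) (.cons (.br (nat_lit 1) (.cons (.rel (nat_lit 41943297)) .nil)) .nil)) .leaf)) (nat_lit 22906194575976583) (.br (nat_lit 0) (.cons (.br (nat_lit 1) (.cons (.rel (nat_lit 20992005)) .nil)) .nil)) (.node (.node (.node .leaf (nat_lit 22906198174536361) (.br (nat_lit 0) (.cons (.br (nat_lit 3) (.cons (.rel (nat_lit 272896020)) .nil)) .nil)) .leaf) (nat_lit 22906200755065513) (.br (nat_lit 0) (.cons (.br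 (nat_lit 1) (.cons (.rel (nat_lit 41943297)) (.cons (.rel (nat_lit 20975892)) .nil))) .nil)) .leaf) (nat_lit 22906200755066113) (.br (nat_lit 0) (.cons (.br (nat_lit 5) (.cons (.rel (nat_lit 4300226625)) .nil)) .nil)) (.node (.node .leaf (nat_lit 22906423716092039) (.br (nat_lit 0) (.cons (.br (nat_lit 1) (.cons (.rel (nat_lit 20975892)) .nil)) .nil)) .leaf) (nat_lit 22906423716382199) (.br (nat_lit 0) (.cons (.br (nat_lit 3) (.cons (.rel (nat_lit 276856836)) .nil)) .nil)) .leaf))) (nat_lit 22907197185371639) (.br (nat_lit 1) (.cons (.br (nat_lit 5) (.cons (.rel (nat_lit 4328523024)) .nil)) .nil)) (.node (.node (.node (.node .leaf (nat_lit 22907403343297793) (.br (nat_lit 1) (.cons (.br (nat_lit 6) (.cons (.rel (nat_lit 17196650754)) .nil)) .nil)) .leaf) (nat_lit 22907666599359145) (.br (nat_lit 1) (.cons (.br (nat_lit 3) (.cons (.rel (nat_lit 285216777)) .nil)) .nil)) .leaf) (nat_lit 22910395092619945) (.br (nat_lit 0) (.cons (.br (nat_lit 4) (.cons (.rel (nat_lit 2155888896)) .nil)) .nil)) (.node (.node .leaf (nat_lit 22910395610674712)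 (.br (nat_lit 0) (.cons (.br (nat_lit 1) (.cons (.rel (nat_lit 20988192)) .nil)) .nil)) .leaf) (nat_lit 22910397607819945) (.br (nat_lit 0) (.cons (.br (nat_lit 1) (.cons (.rel (nat_lit 41943297)) .nil)) .nil)) .leaf)) (nat_lit 22910397607820791) (.br (nat_lit 0) (.cons (.br (nat_lit 1) (.cons (.rel (nat_lit 26280192)) .nil)) .nil)) (.node (.node (.node .leaf (nat_lit 22910398198560280) (.br (nat_lit 0) (.cons (.br (nat_lit 1) (.cons (.rel (nat_lit 21042177)) .nil)) .nil)) .leaf) (nat_lit 22910398739557879) (.br (nat_lit 3) (.cons (.br (nat_lit 1) (.cons (.rel (nat_lit 302252544)) (.cons (.rel (nat_lit 285212964)) .nil))) .nil)) .leaf) (nat_lit 22910398739625442) (.br (nat_lit 3) (.cons (.br (nat_lit 6) (.cons (.rel (nat_lit 34897661952)) .nil)) .nil)) (.node .leaf (nat_lit 22910400308951721) (.br (nat_lit 0) (.cons (.br (nat_lit 1) (.cons (.rel (nat_lit 41943297)) .nil)) .nil)) .leaf))))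

/-- refutations 77 -/
def e77 : EX := (.node (.node (.node (.node .leaf (nat_lit 22910438129039387) (.br (nat_lit 0) (.cons (.br (nat_lit 3) (.cons (.rel (nat_lit 276856836)) .nil)) .nil)) .leaf) (nat_lit 22910438130384896) (.br (nat_lit 0) (.cons (.br (nat_lit 1) (.cons (.rel (nat_lit 20992005)) .nil)) .nil)) .leaf) (nat_lit 22910438130385577) (.br (nat_lit 0) (.cons (.br (nat_lit 1) (.cons (.rel (nat_lit 20972034)) .nil)) .nil)) (.node .leaf (nat_lit 22910658137122867) (.br (nat_lit 0) (.cons (.br (nat_lit 1) (.cons (.rel (nat_lit 21512256)) .nil)) .nil)) .leaf)) (nat_lit 22910890856742145) (.br (nat_lit 0) (.cons (.br (nat_lit 6) (.cons (.rel (nat_lit 34363941120)) .nil)) .nil)) (.node (.node (.node .leaf (nat_lit 22915783664619545) (.br (nat_lit 1) (.cons (.br (nat_lit 4) (.cons (.rel (nat_lit 1107300612)) .nil)) .nil)) .leaf) (nat_lit 22915852215014636) (.br (nat_lit 0) (.cons (.br (nat_lit 1) (.cons (.rel (nat_lit 41943297)) .nil)) .nil)) .leaf) (nat_lit 22915852216550261) (.br (nat_lit 0) (.cons (.br (nat_lit 2) (.cons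 (.rel (nat_lit 71313408)) .nil)) .nil)) (.node .leaf (nat_lit 22917975062857111) (.br (nat_lit 0) (.cons (.br (nat_lit 1) (.cons (.rel (nat_lit 20972034)) .nil)) .nil)) .leaf)))

/-- refutations 79 -/
def e79 : EX := (.node (.node (.node (.node .leaf (nat_lit 22958318311265513) (.br (nat_lit 0) (.cons (.br (nat_lit 3) (.cons (.rel (nat_lit 276893697)) .nil)) .nil)) .leaf) (nat_lit 22958320851631337) (.br (nat_lit 1) (.cons (.br (nat_lit 4) (.cons (.rel (nat_lit 1091059716)) .nil)) .nil)) (.node .leaf (nat_lit 22960257210829460) (.br (nat_lit 0) (.cons (.br (nat_lit 1) (.cons (.rel (nat_lit 21055488)) .nil)) .nil)) .leaf)) (nat_lit 22960257210830075) (.br (nat_lit 1) (.cons (.br (nat_lit 2) (.cons (.rel (nat_lit 84443136)) (.cons (.rel (nat_lit 84953088)) .nil))) .nil)) (.node (.node .leaf (nat_lit 22960391630462185) (.br (nat_lit 1) (.cons (.br (nat_lit 3) (.cons (.rel (nat_lit 286343232)) .nil)) .nil)) .leaf) (nat_lit 22960394361629353) (.br (nat_lit 3) (.cons (.br (nat_lit 4) (.cons (.rel (nat_lit 1610629248)) .nil)) .nil))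 .leaf)) (nat_lit 22963223187737851) (.br (nat_lit 4) (.cons (.br (nat_lit 6) (.cons (.rel (nat_lit 18253627401)) .nil)) .nil)) (.node (.node (.node .leaf (nat_lit 22963268628790559) (.br (nat_lit 2) (.cons (.br (nat_lit 3) (.cons (.rel (nat_lit 335560722)) .nil)) .nil)) .leaf) (nat_lit 22963480987722409) (.br (nat_lit 4) (.cons (.br (nat_lit 6) (.cons (.rel (nat_lit 18253611288)) .nil)) .nil)) .leaf) (nat_lit 22963486198343740) (.br (nat_lit 0) (.cons (.br (nat_lit 3) (.cons (.rel (nat_lit 272896020)) .nil)) .nil)) (.node (.node .leaf (nat_lit 22963620816107571) (.br (nat_lit 0) (.cons (.br (nat_lit 1) (.cons (.rel (nat_lit 20992005)) .nil)) .nil)) .leaf) (nat_lit 22968603004720361) (.br (nat_lit 0) (.cons (.br (nat_lit 2) (.cons (.rel (nat_lit 71307537)) .nil)) .nil)) .leaf)))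

/-- refutations 81 -/
def e81 : EX := (.node (.node (.node (.node .leaf (nat_lit 23063679205453063) (.br (nat_lit 3) (.cons (.br (nat_lit 4) (.cons (.rel (nat_lit 1342178313)) .nil)) .nil)) .leaf) (nat_lit 23063679208002838) (.br (nat_lit 0) (.cons (.br (nat_lit 3) (.cons (.rel (nat_lit 541069344)) .nil)) .nil)) .leaf) (nat_lit 23068948104046652) (.br (nat_lit 0) (.cons (.br (nat_lit 1) (.cons (.rel (nat_lit 41943297)) .nil)) .nil)) (.node .leaf (nat_lit 23068950594063587) (.br (nat_lit 1) (.cons (.br (nat_lit 3) (.cons (.rel (nat_lit 570507264)) .nil)) .nil)) .leaf)) (nat_lit 23069167947195670) (.br (nat_lit 1) (.cons (.br (nat_lit 4) (.cons (.rel (nat_lit 2164261137)) .nil)) .nil)) (.node (.node .leaf (nat_lit 23074184682802403) (.br (nat_lit 1) (.cons (.br (nat_lit 3) (.cons (.rel (nat_lit 285279249)) .nil)) .nil)) .leaf) (nat_lit 23074542880558307) (.br (nat_lit 1) (.cons (.br (nat_lit 6) (.cons (.rel (nat_lit 17196716037)) (.cons (.rel (nat_lit 17196679176)) (.cons (.rel (nat_lit 17196728337)) (.cons (.rel (nat_lit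 17196779520)) .nil))))) .nil)) (.node .leaf (nat_lit 23074542881848547) (.br (nat_lit 3) (.cons (.br (nat_lit 6) (.cons (.rel (nat_lit 17448304713)) .nil)) .nil)) .leaf)))

/-- refutations 83 -/
def e83 : EX := (.node (.node (.node .leaf (nat_lit 24225791472025735) (.br (nat_lit 0) (.cons (.br (nat_lit 1) (.cons (.rel (nat_lit 20980752)) .nil)) .nil)) .leaf) (nat_lit 24282586648884085) (.br (nat_lit 0) (.cons (.br (nat_lit 2) (.cons (.rel (nat_lit 71307537)) .nil)) .nil)) .leaf) (nat_lit 24285268177587427) (.br (nat_lit 1) (.cons (.br (nat_lit 5) (.cons (.rel (nat_lit 4312039488)) .nil)) .nil)) (.node .leaf (nat_lit 24288001009912093) (.br (nat_lit 5) (.cons (.br (nat_lit 0) (.cons (.rel (nat_lit 4299161640)) (.cons (.rel (nat_lit 8598323220)) .nil))) .nil)) .leaf))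

/-- refutations 84 -/
def e84 : EX := (.node (.node (.node .leaf (nat_lit 24312888171674976) (.br (nat_lit 1) (.cons (.br (nat_lit 2) (.cons (.rel (nat_lit 84443136)) .nil)) .nil)) .leaf) (nat_lit 24314777304042373) (.br (nat_lit 0) (.cons (.br (nat_lit 1) (.cons (.rel (nat_lit 20973093)) .nil)) .nil)) .leaf) (nat_lit 24314777304042374) (.br (nat_lit 0) (.cons (.br (nat_lit 5) (.cons (.rel (nat_lit 4299161640)) .nil)) .nil)) (.node .leaf (nat_lit 24320450097359733) (.br (nat_lit 0) (.cons (.br (nat_lit 3) (.cons (.rel (nat_lit 272629842)) .nil)) .nil)) .leaf))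

/-- refutations 85 -/
def e85 : EX := (.node (.node .leaf (nat_lit 24384322337294996) (.br (nat_lit 0) (.cons (.br (nat_lit 2) (.cons (.rel (nat_lit 71368962)) .nil)) .nil)) .leaf) (nat_lit 24384322338536174) (.br (nat_lit 3) (.cons (.br (nat_lit 4) (.cons (.rel (nat_lit 1342178313)) .nil)) .nil)) .leaf)

/-- refutations 86 -/
def e86 : EX := (.node (.node (.node (.node .leaf (nat_lit 24754376722282757) (.br (nat_lit 0) (.cons (.br (nat_lit 1) (.cons (.rel (nat_lit 20992005)) .nil)) .nil)) .leaf) (nat_lit 24754794002385778) (.br (nat_lit 0) (.cons (.br (nat_lit 3) (.cons (.rel (nat_lit 272703552)) .nil)) .nil)) .leaf) (nat_lit 24754794002385808) (.br (nat_lit 0) (.cons (.br (nat_lit 3) (.cons (.rel (nat_lit 272646720)) .nil)) .nil)) (.node .leaf (nat_lit 24754796808375673) (.br (nat_lit 0) (.cons (.br (nat_lit 1) (.cons (.rel (nat_lit 21055488)) .nil)) .nil)) .leaf)) (nat_lit 24754796809678201) (.br (nat_lit 0) (.cons (.br (nat_lit 3) (.cons (.rel (nat_lit 272646720)) .nil)) .nil)) (.node (.node (.node .leaf (nat_lit 24754797628884494)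 (.br (nat_lit 0) (.cons (.br (nat_lit 2) (.cons (.rel (nat_lit 142606596)) .nil)) .nil)) .leaf) (nat_lit 24757631414222908) (.br (nat_lit 1) (.cons (.br (nat_lit 2) (.cons (.rel (nat_lit 150997008)) .nil)) .nil)) .leaf) (nat_lit 24757800479492258) (.br (nat_lit 3) (.cons (.br (nat_lit 1) (.cons (.rel (nat_lit 285212964)) (.cons (.rel (nat_lit 285212964)) .nil))) .nil)) (.node .leaf (nat_lit 24757800482116241) (.br (nat_lit 2) (.cons (.br (nat_lit 3) (.cons (.rel (nat_lit 335548422)) .nil)) .nil)) .leaf)))

/-- refutations 87 -/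
def e87 : EX := (.node .leaf (nat_lit 24759126956369950) (.br (nat_lit 1) (.cons (.br (nat_lit 3) (.cons (.rel (nat_lit 285214977)) (.cons (.rel (nat_lit 285214977)) .nil))) .nil)) .leaf)

/-- refutations 90 -/
def e90 : EX := (.node (.node (.node (.node (.node .leaf (nat_lit 24805497872329364) (.br (nat_lit 0) (.cons (.br (nat_lit 2) (.cons (.rel (nat_lit 71307537)) .nil)) .nil)) .leaf) (nat_lit 24806290660264098) (.br (nat_lit 0) (.cons (.br (nat_lit 3) (.cons (.rel (nat_lit 272629842)) .nil)) .nil)) .leaf) (nat_lit 24806531178432674) (.br (nat_lit 4) (.cons (.br (nat_lit 3) (.cons (.rel (nat_lit 1342199040)) (.cons (.rel (nat_lit 1342324737)) .nil))) .nil)) (.node .leaf (nat_lit 24806531178433442) (.br (nat_lit 2) (.cons (.br (nat_lit 6) (.cons (.rel (nat_lit 17246994708)) .nil)) .nil)) .leaf)) (nat_lit 24806531180042402) (.br (nat_lit 2) (.cons (.br (nat_lit 6) (.cons (.rel (nat_lit 17247060993)) .nil)) .nil)) (.node (.node .leaf (nat_lit 24806531181616034) (.br (nat_lit 3) (.cons (.br (nat_lit 4) (.cons (.rel (nat_lit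 1342324737)) .nil)) .nil)) .leaf) (nat_lit 24806534803602068) (.br (nat_lit 0) (.cons (.br (nat_lit 3) (.cons (.rel (nat_lit 276907008)) .nil)) .nil)) (.node .leaf (nat_lit 24806534803951793) (.br (nat_lit 1) (.cons (.br (nat_lit 2) (.cons (.rel (nat_lit 84953088)) .nil)) .nil)) .leaf))) (nat_lit 24806534804205080) (.br (nat_lit 4) (.cons (.br (nat_lit 0) (.cons (.rel (nat_lit 1077942288)) (.cons (.rel (nat_lit 1077942288)) .nil))) .nil)) (.node (.node (.node (.node .leaf (nat_lit 24806534805494690) (.br (nat_lit 2) (.cons (.br (nat_lit 6) (.cons (.rel (nat_lit 17247060993)) (.cons (.rel (nat_lit 34493957376)) .nil))) (.cons (.br (nat_lit 3) (.cons (.rel (nat_lit 335548422)) (.cons (.rel (nat_lit 335611905)) .nil))) .nil))) .leaf) (nat_lit 24807625724065969) (.br (nat_lit 0) (.cons (.br (nat_lit 1) (.cons (.rel (nat_lit 20980752)) .nil)) .nil)) .leaf) (nat_lit 24807625725644977) (.br (nat_lit 5) (.cons (.br (nat_lit 1) (.cons (.rel (nat_lit 4311744897)) (.cons (.rel (nat_lit 4312039488)) .nil))) .nil)) (.node .leaf (nat_lit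 24815782537989347) (.br (nat_lit 3) (.cons (.br (nat_lit 5) (.cons (.rel (nat_lit 4563403281)) .nil)) .nil)) .leaf)) (nat_lit 24815782537989656) (.br (nat_lit 0) (.cons (.br (nat_lit 1) (.cons (.rel (nat_lit 42008580)) .nil)) .nil)) (.node (.node .leaf (nat_lit 24815782541171618) (.br (nat_lit 2) (.cons (.br (nat_lit 3) (.cons (.rel (nat_lit 335544609)) .nil)) .nil)) .leaf) (nat_lit 24817226692015640) (.br (nat_lit 0) (.cons (.br (nat_lit 4) (.cons (.rel (nat_lit 1077936417)) .nil)) .nil)) (.node .leaf (nat_lit 24817226694564140) (.br (nat_lit 0) (.cons (.br (nat_lit 3) (.cons (.br (nat_lit 6) (.cons (.rel (nat_lit 17452631040)) .nil)) .nil)) .nil)) .leaf))))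

/-- refutations 91 -/
def e91 : EX := (.node (.node (.node .leaf (nat_lit 24842375486608246) (.br (nat_lit 0) (.cons (.br (nat_lit 1) (.cons (.rel (nat_lit 21055488)) .nil)) .nil)) .leaf) (nat_lit 24842797949388975) (.br (nat_lit 0) (.cons (.br (nat_lit 5) (.cons (.rel (nat_lit 8594129217)) .nil)) .nil)) (.node .leaf (nat_lit 24842801236655331) (.br (nat_lit 0) (.cons (.br (nat_lit 1) (.cons (.rel (nat_lit 38011905)) .nil)) .nil)) .leaf)) (nat_lit 24846062241974403) (.br (nat_lit 0) (.cons (.br (nat_lit 1) (.cons (.rel (nat_lit 42008580)) .nil)) .nil)) (.node (.node .leaf (nat_lit 24846062245067638) (.br (nat_lit 5) (.cons (.br (nat_lit 0) (.cons (.rel (nat_lit 4299163653)) (.cons (.rel (nat_lit 4299163653)) .nil))) .nil)) .leaf) (nat_lit 24847127209314439) (.br (nat_lit 0) (.cons (.br (nat_lit 4) (.cons (.rel (nat_lit 1077940230)) (.cons (.rel (nat_lit 2155888896)) .nil))) .nil)) (.node .leaf (nat_lit 24847127209315710) (.br (nat_lit 5) (.cons (.br (nat_lit 0) (.cons (.rel (nat_lit 4299186180)) (.cons (.rel (nat_lit 8596227072))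 (.cons (.rel (nat_lit 4299161640)) .nil)))) .nil)) .leaf)))

/-- refutations 92 -/
def e92 : EX := (.node (.node .leaf (nat_lit 25182236230753507) (.br (nat_lit 0) (.cons (.br (nat_lit 1) (.cons (.rel (nat_lit 21005316)) .nil)) .nil)) .leaf) (nat_lit 25182452485983459) (.br (nat_lit 1) (.cons (.br (nat_lit 3) (.cons (.rel (nat_lit 285229077)) .nil)) .nil)) (.node .leaf (nat_lit 25187563498619015) (.br (nat_lit 0) (.cons (.br (nat_lit 1) (.cons (.rel (nat_lit 20988192)) .nil)) .nil)) .leaf))

/-- refutations 93 -/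
def e93 : EX := (.node .leaf (nat_lit 25286506116333700) (.br (nat_lit 2) (.cons (.br (nat_lit 3) (.cons (.rel (nat_lit 335609892)) .nil)) .nil)) .leaf)

/-- refutations 94 -/
def e94 : EX := (.node .leaf (nat_lit 26582051050229114) (.br (nat_lit 1) (.cons (.br (nat_lit 5) (.cons (.rel (nat_lit 4328523024)) .nil)) .nil)) .leaf)

/-- refutations 95 -/
def e95 : EX := (.node .leaf (nat_lit 26612530569347357) (.br (nat_lit 1) (.cons (.br (nat_lit 3) (.cons (.rel (nat_lit 285212964)) .nil)) .nil)) .leaf)

/-- refutations 96 -/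
def e96 : EX := (.node (.node .leaf (nat_lit 26851088741243766) (.br (nat_lit 0) (.cons (.br (nat_lit 1) (.cons (.rel (nat_lit 21005316)) .nil)) .nil)) .leaf) (nat_lit 26851088742503286) (.br (nat_lit 0) (.cons (.br (nat_lit 1) (.cons (.rel (nat_lit 20975892)) .nil)) .nil)) (.node .leaf (nat_lit 26851088742517622) (.br (nat_lit 1) (.cons (.br (nat_lit 3) (.cons (.rel (nat_lit 285214977)) .nil)) .nil)) .leaf))

/-- refutations 97 -/
def e97 : EX := (.node .leaf (nat_lit 27009375484318581) (.br (nat_lit 0) (.cons (.br (nat_lit 2) (.cons (.rel (nat_lit 71307537)) .nil)) .nil)) .leaf)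

/-- refutations 98 -/
def e98 : EX := (.node (.node (.node (.node .leaf (nat_lit 27039673654185463) (.br (nat_lit 0) (.cons (.br (nat_lit 1) (.cons (.rel (nat_lit 37831749)) .nil)) .nil)) .leaf) (nat_lit 27039676481146083) (.br (nat_lit 5) (.cons (.br (nat_lit 1) (.cons (.rel (nat_lit 8606728452)) (.cons (.rel (nat_lit 4312801296)) .nil))) .nil)) .leaf) (nat_lit 27039677278372627) (.br (nat_lit 1) (.cons (.br (nat_lit 4) (.cons (.rel (nat_lit 1107329025)) .nil)) .nil)) (.node .leaf (nat_lit 27039677279662716) (.br (nat_lit 0) (.cons (.br (nat_lit 1) (.cons (.br (nat_lit 6) (.cons (.rel (nat_lit 17197236288)) .nil)) .nil)) .nil)) .leaf)) (nat_lit 27039677279699580) (.br (nat_lit 0) (.cons (.br (nat_lit 1) (.cons (.rel (nat_lit 41948169)) .nil)) .nil)) (.node (.node (.node .leaf (nat_lit 27039677279925600) (.br (nat_lit 2) (.cons (.br (nat_lit 3) (.cons (.rel (nat_lit 604243008)) .nil)) .nil)) .leaf) (nat_lit 27039677280683515) (.br (nat_lit 1) (.cons (.br (nat_lit 2) (.cons (.rel (nat_lit 84939777)) .nil)) .nil)) .leaf) (nat_lit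 27044821851966691) (.br (nat_lit 0) (.cons (.br (nat_lit 1) (.cons (.rel (nat_lit 38011905)) .nil)) .nil)) (.node .leaf (nat_lit 27047224206690309) (.br (nat_lit 1) (.cons (.br (nat_lit 3) (.cons (.rel (nat_lit 285216777)) .nil)) .nil)) .leaf)))

/-- refutations 99 -/
def e99 : EX := (.node (.node (.node .leaf (nat_lit 27444981820567603) (.br (nat_lit 0) (.cons (.br (nat_lit 1) (.cons (.rel (nat_lit 20972034)) (.cons (.rel (nat_lit 21037317)) .nil))) .nil)) .leaf) (nat_lit 27444981823117363) (.br (nat_lit 0) (.cons (.br (nat_lit 1) (.cons (.rel (nat_lit 20972034)) .nil)) .nil)) (.node .leaf (nat_lit 27445164312636823) (.br (nat_lit 0) (.cons (.br (nat_lit 3) (.cons (.rel (nat_lit 272646720)) .nil)) .nil)) .leaf)) (nat_lit 27454862348789772) (.br (nat_lit 1) (.cons (.br (nat_lit 2) (.cons (.rel (nat_lit 151126272)) .nil)) .nil)) (.node (.node .leaf (nat_lit 27454863178038134) (.br (nat_lit 1) (.cons (.br (nat_lit 2) (.cons (.rel (nat_lit 150997008)) .nil)) .nil)) .leaf) (nat_lit 27455678328825907) (.br (nat_lit 3) (.cons (.br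 (nat_lit 6) (.cons (.rel (nat_lit 17450409984)) .nil)) .nil)) (.node .leaf (nat_lit 27456074358958266) (.br (nat_lit 0) (.cons (.br (nat_lit 2) (.cons (.rel (nat_lit 76677120)) .nil)) .nil)) .leaf)))

/-- list of the parts -/
def L0 : List (ℕ × List ℕ) := [(nat_lit 0x10, [cP]),
  (nat_lit 0x20, [cP]),
  (nat_lit 0x40, [cP]),
  (nat_lit 0x400, [cP]),
  (nat_lit 0x8000, [cP]),
  (nat_lit 0x10000, [cP]),
  (nat_lit 0x80000000, [cP]),
  (nat_lit 0x400000000, [cP]),
  (nat_lit 0x10000000000, [Nat.sub (Nat.pow 2 905) (Nat.pow 2 0), Nat.sub (Nat.pow 2 3136) (Nat.pow 2 905)]),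
  (nat_lit 0x40000000000000, [Nat.sub (Nat.pow 2 689) (Nat.pow 2 0), Nat.sub (Nat.pow 2 3136) (Nat.pow 2 689)]),
  (nat_lit 0x800000000, [cP]),
  (nat_lit 0x80000000000000, [cP]),
  (nat_lit 0x200000000000000040000000000000000, [cP]),
  (nat_lit 0x400000000000000000000000000000000, [cP]),
  (nat_lit 0x800008000000000000000000000000000000000, [cP]),
  (nat_lit 0x1000000000000000000000000000000000000000, [cP]),
  (nat_lit 0x100000000000000000000000000000000000000000, [cP]),
  (nat_lit 0x2800000000000000000000000000000000000000000000, [cP]),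
  (nat_lit 0x10000000000000000000000000000000000000000000000000000000000000000, [cP]),
  (nat_lit 0x80000000000000000000000000000000000000000000000000000000000000000, [cP]),
  (nat_lit 0x10000000000000000000000000000000000000000000000000000000000000000000000, [cP]),
  (nat_lit 0x120000000000000000000000000000000000000000000000000000000000000000000000, [cP]),
  (nat_lit 0x400000000000000000000000000000000000000000000000000000000000000000000000, [cP]),
  (nat_lit 0x30000000000000000000000000000000000000000000000000000000000000000000000000000, [cP]),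
  (nat_lit 0x40000000000000000000000000000000000000000000000000000000000000000000000000000, [cP]),
  (nat_lit 0x400000000000000000000000000000000000000000000000000000000000000000000000000000, [cP]),
  (nat_lit 0x800000000000000000000000000000000000000000000000000000000000000000000000000000, [cP]),
  (nat_lit 0x10000000000000000000000000000000000000000000000000000000000000000000000000000000, [cP]),
  (nat_lit 0x80000000000000000000000000000000000000000000000000000000000000000000000000000000000000000000000000000000000000000000000000000000000000000000000000000000000000, [cP]),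
  (nat_lit 0x400000000000000000000000000000000000000000000000000000000000000000000000000000000000000000000000000000000000000000000000000000000000000000000000000000000000000, [cP]),
  (nat_lit 0x800000000000000000000000000000000000000000000000000000000000000000000000000000000000000000000000000000000000000000000000000000000000000000000000000000000000000, [cP]),
  (nat_lit 0x1000000000000000000000000000000000000000000000000000000000000000000000000000000000000000000000000000000000000000000000000000000000000000000000000000000000000000, [cP]),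
  (nat_lit 0x40000000000000000000000000000000000000000000000000000000000000000000000000000000000000000000000000000000000000000000000000000000000000000000000000000000000000000000, [cP]),
  (nat_lit 0x80000000000000000000000000000000000000000000000000000000000000000000000000000000000000000000000000000000000000000000000000000000000000000000000000000000000000000000, [cP]),
  (nat_lit 0x800000000000000000000000000000000000000000000000000000000000000000000000000000000000000000000000000000000000000000000000000000000000000000000000000000000000000000000, [cP]),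
  (nat_lit 0x1000000000000000000000000000000000000000000000000000000000000000000000000000000000000000000000000000000000000000000000000000000000000000000000000000000000000000000000, [cP]),
  (nat_lit 0x10000000000000000000000000000000000000000000000000000000000000000000000000000000000000000000000000000000000000000000000000000000000000000000000000000000000000000000000, [cP]),
  (nat_lit 0x20000000000000000000000000000000000000000000000000000000000000000000000000000000000000000000000000000000000000000000000000000000000000000000000000000000000000000000000, [cP]),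
  (nat_lit 0x3000000000000000000000000000000000000000000000000000000000000000000000000000000000000000000000000000000000000000000000000000000000000000000000000000000000000000000000000000, [cP]),
  (nat_lit 0x80000000000000000000000000000000000000000000000000000000000000000000000000000000000000000000000000000000000000000000000000000000000000000000000000000000000000000000000000000, [Nat.sub (Nat.pow 2 680) (Nat.pow 2 0), Nat.sub (Nat.pow 2 3136) (Nat.pow 2 680)]),
  (nat_lit 0x4000000000000000000000000000000000000000000000000000000000000000000000000000000000000000000000000000000000000000000000000000000000000000000000000000000000000000000000000000, [cP]),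
  (nat_lit 0x10000000000000000000000000000000000000000000000000000000000000000000000000000000000000000000000000000000000000000000000000000000000000000000000000000000000000000000000000000000000000000000000, [Nat.sub (Nat.pow 2 766) (Nat.pow 2 0), Nat.sub (Nat.pow 2 3136) (Nat.pow 2 766)]),
  (nat_lit 0x800000000000000000000000000000000000000000000000000000000000000000000000000000000000000000000000000000000000000000000000000000000000000000000000000000000000000000000000000000000000000000000, [cP]),
  (nat_lit 0x200000000000000000000000000000000000000000000000000000000000000000000000000000000000000000000000000000000000000000000000000000000000000000000000000000000000000000000000000000000000000000000000, [cP]),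
  (nat_lit 0x10000000000000000000000000000000000000000000000000000000000000000000000000000000000000000000000000000000000000000000000000000000000000000000000000000000000000000000000000000000000000000000000000000, [cP]),
  (nat_lit 0x400000000000000000000000000000000000000000000000000000000000000000000000000000000000000000000000000000000000000000000000000000000000000000000000000000000000000000000000000000000000000000000000000000, [cP]),
  (nat_lit 0x1000000000000000000000000000000000000000000000000000000000000000000000000000000000000000000000000000000000000000000000000000000000000000000000000000000000000000000000000000000000000000000000000000000000, [cP]),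
  (nat_lit 0x2000000000000000000000000000000000000000000000000000000000000000000000000000000000000000000000000000000000000000000000000000000000000000000000000000000000000000000000000000000000000000000000000000000000, [cP]),
  (nat_lit 0xe0000000000000000000000000000000000000000000000000000000000000000000000000000000000000000000000000000000000000000000000000000000000000000000000000000000000000000000000000000000000000000000000000000000000, [cP]),
  (nat_lit 0x400000000000000000000000000000000000000000000000000000000000000000000000000000000000000000000000000000000000000000000000000000000000000000000000000000000000000000000000000000000000000000000000000000000000, [cP]),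
  (nat_lit 0x800000000000000000000000000000000000000000000000000000000000000000000000000000000000000000000000000000000000000000000000000000000000000000000000000000000000000000000000000000000000000000000000000000000000, [cP]),
  (nat_lit 0x1000000000000000000000000000000000000000000000000000000000000000000000000000000000000000000000000000000000000000000000000000000000000000000000000000000000000000000000000000000000000000000000000000000000000, [cP]),
  (nat_lit 0x18000000000000000000000000000000000000000000000000000000000000000000000000000000000000000000000000000000000000000000000000000000000000000000000000000000000000000000000000000000000000000000000000000000000000000000000000000, [cP]),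
  (nat_lit 0x20000000000000000000000000000000000000000000000000000000000000000000000000000000000000000000000000000000000000000000000000000000000000000000000000000000000000000000000000000000000000000000000000000000000000000000000000000, [cP]),
  (nat_lit 0x300000000000000000000000000000000000000000000000000000000000000000000000000000000000000000000000000000000000000000000000000000000000000000000000000000000000000000000000000000000000000000000000000000000000000000000000000000, [cP]),
  (nat_lit 0x400000000000000000000000000000000000000000000000000000000000000000000000000000000000000000000000000000000000000000000000000000000000000000000000000000000000000000000000000000000000000000000000000000000000000000000000000000, [cP]),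
  (nat_lit 0x2000000000000000000000000000000000000000000000000000000000000000000000000000000000000000000000000000000000000000000000000000000000000000000000000000000000000000000000000000000000000000000000000000000000000000000000000000000, [cP]),
  (nat_lit 0x10000000000000000000000000000000000000000000000000000000000000000000000000000000000000000000000000000000000000000000000000000000000000000000000000000000000000000000000000000000000000000000000000000000000000000000000000000000000, [Nat.sub (Nat.pow 2 809) (Nat.pow 2 0), Nat.sub (Nat.pow 2 1559) (Nat.pow 2 809), Nat.sub (Nat.pow 2 3136) (Nat.pow 2 1559)]),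
  (nat_lit 0x400004000000000000000000000000000000000000000000000000000000000000000000000000000000000000000000000000000000000000000000000000000000000000000000000000000000000000000000000000000000000000000000000000000000000000000000000000000000, [cP]),
  (nat_lit 0x20000000000000000000000000000000000000000000000000000000000000000000000000000000000000000000000000000000000000000000000000000000000000000000000000000000000000000000000000000000000000000000000000000000000000000000000000000000000000000, [cP]),
  (nat_lit 0x400000000000000000000000000000000000000000000000000000000000000000000000000000000000000000000000000000000000000000000000000000000000000000000000000000000000000000000000000000000000000000000000000000000000000000000000000000000000000000, [cP]),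
  (nat_lit 0x10000000000000000000000000000000000000000000000000000000000000000000000000000000000000000000000000000000000000000000000000000000000000000000000000000000000000000000000000000000000000000000000000000000000000000000000000000000000000000000000000000000000000000000000000000000000000000000000000000000000000000000000000000, [Nat.sub (Nat.pow 2 665) (Nat.pow 2 0), Nat.sub (Nat.pow 2 1529) (Nat.pow 2 665), Nat.sub (Nat.pow 2 3136) (Nat.pow 2 1529)]),
  (nat_lit 0x100000000000000000000000000000000000000000000000000000000000000000000000000000008000000000000000000000000000000000000000000000000000000000000000000000000000000000000000000000000000000000000000000000000000000000000000000000000000000000000000000000000000000000000000000000000000000000000000000000000000000000000000000, [cP]),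
  (nat_lit 0x20000000000000000000000000000000000000000000000000000000000000000000000000000000000000000000000000000000000000000000000000000000000000000000000000000000000000000000000000000000000000000000000000000000000000000000000000000000000000000000000000000000000000000000000000000000000000000000000000000000000000000000000000000, [cP]),
  (nat_lit 0x80000000000000000000000000000000000000000000000000000000000000000000000000000000000000000000000000000000000000000000000000000000000000000000000000000000000000000000000000000000000000000000000000000000000000000000000000000000000000000000000000000000000000000000000000000000000000000000000000000000000000000000000000000000, [cP]),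
  (nat_lit 0x1000000000000000000000000000000000000000000000000000000000000000000000000000000000000000000000000000000000000000000000000000000000000000000000000000000000000000000000000000000000000000000000000000000000000000000000000000000000000000000000000000000000000000000000000000000000000000000000000000000000000000000000000000000000, [cP]),
  (nat_lit 0x2000000000000000000000000000000000000000000000000000000000000000000000000000000000000000000000000000000000000000000000000000000000000000000000000000000000000000000000000000000000000000000000000000000000000000000000000000000000000000000000000000000000000000000000000000000000000000000000000000000000000000000000000000000000, [cP]),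
  (nat_lit 0x80000000000000000000000000000000000000000000000000000000000000000000000000000000000000000000000000000000000000000000000000000000000000000000000000000000000000000000000000000000000000000000000000000000000000000000000000000000000000000000000000000000000000000000000000000000000000000000000000000000000000000000000000000000000, [cP]),
  (nat_lit 0x400000000000000000000000000000000000000000000000000000000000000000000000000000000000000000000000000000000000000000000000000000000000000000000000000000000000000000000000000000000000000000000000000000000000000000000000000000000000000000000000000000000000000000000000000000000000000000000000000000000000000000000000000000000000000, [Nat.sub (Nat.pow 2 634) (Nat.pow 2 0), Nat.sub (Nat.pow 2 3136) (Nat.pow 2 634)]),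
  (nat_lit 0x100000000000000000000000000000000000000000000000000000000000000000000000000000000000000000000000000000000000000000000000000000000000000000000000000000000000000000000000000000000000000000000000000000000000000000000000000000000000000000000000000000000000000000000000000000000000000000000000000000000000000000000000000000000000000, [cP]),
  (nat_lit 0x2000000000000000000000000000000000000000000000000000000000000000000000000000000000000000000000000000000000000000000000000000000000000000000000000000000000000000000000000000000000000000000000000000000000000000000000000000000000000000000000000000000000000000000000000000000000000000000000000000000000000000000000000000000000000000, [cP]),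
  (nat_lit 0x40000000000000000000000000000000000000000000000000000000000000000000000000000000000000000000000000000000000000000000000000000000000000000000000000000000000000000000000000000000000000000000000000000000000000000000000000000000000000000000000000000000000000000000000000000000000000000000000000000000000000000000000000000000000000000, [cP]),
  (nat_lit 0x80000000000000000000000000000000000000000000000000000000000000000000000000000000000000000000000000000000000000000000000000000000000000000000000000000000000000000000000000000000000000000000000000000000000000000000000000000000000000000000000000000000000000000000000000000000000000000000000000000000000000000000000000000000000000000, [cP]),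
  (nat_lit 0x100000000000000000000000000000000000000000000000000000000000000000000000000000000000000000000000000000000000000000000000000000000000000000000000000000000000000000000000000000000000000000000000000000000000000000000000000000000000000000000000000000000000000000000000000000000000000000000000000000000000000000000000000000000000000000, [cP]),
  (nat_lit 0x12000000000000000000000000000000000000000000000000000000000000000000000000000000000000000000000000000000000000000000000000000000000000000000000000000000000000000000000000000000000000000000000000000000000000000000000000000000000000000000000000000000000000000000000000000000000000000000000000000000000000000000000000000000000000000000000000000000000, [cP]),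
  (nat_lit 0x240000000000000000000000000000000000000000000000000000000000000000000000000000000000000000000000000000000000000000000000000000000000000000000000000000000000000000000000000000000000000000000000000000000000000000000000000000000000000000000000000000000000000000000000000000000000000000000000000000000000000000000000000000000000000000000000000000000000, [cP]),
  (nat_lit 0x400000000000000000000000000000000000000000000000000000000000000000000000000000000000000000000000000000000000000000000000000000000000000000000000000000000000000000000000000000000000000000000000000000000000000000000000000000000000000000000000000000000000000000000000000000000000000000000000000000000000000000000000000000000000000000000000000000000000, [cP]),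
  (nat_lit 0x80000000000000000000000000000000000000000000000000000000000000000000000000000000000000000000000000000000000000000000000000000000000000000000000000000000000000000000000000000000000000000000000000000000000000000000000000000000000000000000000000000000000000000000000000000000000000000000000000000000000000000000000000000000000000000000000000000000000000000, [Nat.sub (Nat.pow 2 766) (Nat.pow 2 0), Nat.sub (Nat.pow 2 1510) (Nat.pow 2 766), Nat.sub (Nat.pow 2 3136) (Nat.pow 2 1510)]),
  (nat_lit 0x40000800000000000000000000000000000000000000000000000000000000000000000000000000000000000000000000000000000000000000000000000000000000000000000000000000000000000000000000000000000000000000000000000000000000000000000000000000000000000000000000000000000000000000000000000000000000000000000000000000000000000000000000000000000000000000000000000000000000000, [cP]),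
  (nat_lit 0x400000000000000000000000000000000000000000000000000000000000000000000000000000000000000000000000000000000000000000000000000000000000000000000000000000000000000000000000000000000000000000000000000000000000000000000000000000000000000000000000000000000000000000000000000000000000000000000000000000000000000000000000000000000000000000000000000000000000000000, [cP]),
  (nat_lit 0x1000000000000000000000000000000000000000000000000000000000000000000000000000000000000000000000000000000000000000000000000000000000000000000000000000000000000000000000000000000000000000000000000000000000000000000000000000000000000000000000000000000000000000000000000000000000000000000000000000000000000000000000000000000000000000000000000000000000000000000, [cP]),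
  (nat_lit 0x80000000000000000000000000000000000000000000000000000000000000000000000000000000000000000000000000000000000000000000000000000000000000000000000000000000000000000000000000000000000000000000000000000000000000000000000000000000000000000000000000000000000000000000000000000000000000000000000000000000000000000000000000000000000000000000000000000000000000000000000, [cP]),
  (nat_lit 0x2000000000000000000000000000000000000000000000000000000000000000000000000000000000000000000000000000000000000000000000000000000000000000000000000000000000000000000000000000000000000000000000000000000000000000000000000000000000000000000000000000000000000000000000000000000000000000000000000000000000000000000000000000000000000000000000000000000000000000000000000, [cP]),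
  (nat_lit 0x8000000000000000000000000000000000000000000000000000000000000000000000000000000000000000000000000000000000000000000000000000000000000000000000000000000000000000000000000000000000000000000000000000000000000000000000000000000000000000000000000000000000000000000000000000000000000000000000000000000000000000000000000000000000000000000000000000000000000000000000000000000000000000000, [cP]),
  (nat_lit 0x10000000000000000000000000000000000000000000000000000000000000000000000000000000000000000000000000000000000000000000000000000000000000000000000000000000000000000000000000000000000000000000000000000000000000000000000000000000000000000000000000000000000000000000000000000000000000000000000000000000000000000000000000000000000000000000000000000000000000000000000000000000000000000000, [cP]),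
  (nat_lit 0x40000000000000000000000000000000000000000000000000000000000000000000000000000000000000000000000000000000000000000000000000000000000000000000000000000000000000000000000000000000000000000000000000000000000000000000000000000000000000000000000000000000000000000000000000000000000000000000000000000000000000000000000000000000000000000000000000000000000000000000000000000000000000000000000, [cP]),
  (nat_lit 0x8000000000000000000000000000000000000000000000000000000000000000000000000000000000000000000000000000000000000000000000000000000000000000000000000000000000000000000000000000000000000000000000000000000000000000000000000000000000000000000000000000000000000000000000000000000000000000000000000000000000000000000000000000000000000000000000000000000000000000000000000000000000000000000000000, [cP]),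
  (nat_lit 0x20000000000000000000000000000000000000000000000000000000000000000000000000000000000000000000000000000000000000000000000000000000000000000000000000000000000000000000000000000000000000000000000000000000000000000000000000000000000000000000000000000000000000000000000000000000000000000000000000000000000000000000000000000000000000000000000000000000000000000000000000000000000000000000000000, [cP]),
  (nat_lit 0x10800000000000000000000000000000000000000000000000000000000000000000000000000000000000000000000000000000000000000000000000000000000000000000000000000000000000000000000000000000000000000000000000000000000000000000000000000000000000000000000000000000000000000000000000000000000000000000000000000000000000000000000000000000000000000000000000000000000000000000000000000000000000000000000000000000, [cP]),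
  (nat_lit 0x20000000000000000000000000000000000000000000000000000000000000000000000000000000000000000000000000000000000000000000000000000000000000000000000000000000000000000000000000000000000000000000000000000000000000000000000000000000000000000000000000000000000000000000000000000000000000000000000000000000000000000000000000000000000000000000000000000000000000000000000000000000000000000000000000000000, [cP])]

theorem hp0 : ∀ p ∈ L0, ∀ D2 ∈ p.2, ∃ e,
    search ext94 (Pool.Agent.H74.EGZ.vio sb) G Uc A0 p.1 D2 e = true :=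
  (List.forall_mem_cons.2 ⟨(List.forall_mem_singleton.2 ⟨e0, by decide +kernel⟩),
  (List.forall_mem_cons.2 ⟨(List.forall_mem_singleton.2 ⟨e1, by decide +kernel⟩),
  (List.forall_mem_cons.2 ⟨(List.forall_mem_singleton.2 ⟨.leaf, by decide +kernel⟩),
  (List.forall_mem_cons.2 ⟨(List.forall_mem_singleton.2 ⟨e3, by decide +kernel⟩),
  (List.forall_mem_cons.2 ⟨(List.forall_mem_singleton.2 ⟨e4, by decide +kernel⟩),
  (List.forall_mem_cons.2 ⟨(List.forall_mem_singleton.2 ⟨e5, by decide +kernel⟩),
  (List.forall_mem_cons.2 ⟨(List.forall_mem_singleton.2 ⟨e6, by decide +kernel⟩),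
  (List.forall_mem_cons.2 ⟨(List.forall_mem_singleton.2 ⟨e7, by decide +kernel⟩),
  (List.forall_mem_cons.2 ⟨(List.forall_mem_cons.2 ⟨⟨e8, by decide +kernel⟩,
  (List.forall_mem_singleton.2 ⟨e9, by decide +kernel⟩)⟩),
  (List.forall_mem_cons.2 ⟨(List.forall_mem_cons.2 ⟨⟨e10, by decide +kernel⟩,
  (List.forall_mem_singleton.2 ⟨e11, by decide +kernel⟩)⟩),
  (List.forall_mem_cons.2 ⟨(List.forall_mem_singleton.2 ⟨e12, by decide +kernel⟩),
  (List.forall_mem_cons.2 ⟨(List.forall_mem_singleton.2 ⟨e13, by decide +kernel⟩),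
  (List.forall_mem_cons.2 ⟨(List.forall_mem_singleton.2 ⟨e14, by decide +kernel⟩),
  (List.forall_mem_cons.2 ⟨(List.forall_mem_singleton.2 ⟨e15, by decide +kernel⟩),
  (List.forall_mem_cons.2 ⟨(List.forall_mem_singleton.2 ⟨e16, by decide +kernel⟩),
  (List.forall_mem_cons.2 ⟨(List.forall_mem_singleton.2 ⟨e17, by decide +kernel⟩),
  (List.forall_mem_cons.2 ⟨(List.forall_mem_singleton.2 ⟨.leaf, by decide +kernel⟩),
  (List.forall_mem_cons.2 ⟨(List.forall_mem_singleton.2 ⟨e19, by decide +kernel⟩),
  (List.forall_mem_cons.2 ⟨(List.forall_mem_singleton.2 ⟨e20, by decide +kernel⟩),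
  (List.forall_mem_cons.2 ⟨(List.forall_mem_singleton.2 ⟨e21, by decide +kernel⟩),
  (List.forall_mem_cons.2 ⟨(List.forall_mem_singleton.2 ⟨e22, by decide +kernel⟩),
  (List.forall_mem_cons.2 ⟨(List.forall_mem_singleton.2 ⟨e23, by decide +kernel⟩),
  (List.forall_mem_cons.2 ⟨(List.forall_mem_singleton.2 ⟨e24, by decide +kernel⟩),
  (List.forall_mem_cons.2 ⟨(List.forall_mem_singleton.2 ⟨e25, by decide +kernel⟩),
  (List.forall_mem_cons.2 ⟨(List.forall_mem_singleton.2 ⟨.leaf, by decide +kernel⟩),
  (List.forall_mem_cons.2 ⟨(List.forall_mem_singleton.2 ⟨e27, by decide +kernel⟩),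
  (List.forall_mem_cons.2 ⟨(List.forall_mem_singleton.2 ⟨e28, by decide +kernel⟩),
  (List.forall_mem_cons.2 ⟨(List.forall_mem_singleton.2 ⟨e29, by decide +kernel⟩),
  (List.forall_mem_cons.2 ⟨(List.forall_mem_singleton.2 ⟨e30, by decide +kernel⟩),
  (List.forall_mem_cons.2 ⟨(List.forall_mem_singleton.2 ⟨e31, by decide +kernel⟩),
  (List.forall_mem_cons.2 ⟨(List.forall_mem_singleton.2 ⟨.leaf, by decide +kernel⟩),
  (List.forall_mem_cons.2 ⟨(List.forall_mem_singleton.2 ⟨e33, by decide +kernel⟩),
  (List.forall_mem_cons.2 ⟨(List.forall_mem_singleton.2 ⟨e34, by decide +kernel⟩),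
  (List.forall_mem_cons.2 ⟨(List.forall_mem_singleton.2 ⟨e35, by decide +kernel⟩),
  (List.forall_mem_cons.2 ⟨(List.forall_mem_singleton.2 ⟨e36, by decide +kernel⟩),
  (List.forall_mem_cons.2 ⟨(List.forall_mem_singleton.2 ⟨e37, by decide +kernel⟩),
  (List.forall_mem_cons.2 ⟨(List.forall_mem_singleton.2 ⟨e38, by decide +kernel⟩),
  (List.forall_mem_cons.2 ⟨(List.forall_mem_singleton.2 ⟨e39, by decide +kernel⟩),
  (List.forall_mem_cons.2 ⟨(List.forall_mem_singleton.2 ⟨e40, by decide +kernel⟩),
  (List.forall_mem_cons.2 ⟨(List.forall_mem_cons.2 ⟨⟨e41, by decide +kernel⟩,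
  (List.forall_mem_singleton.2 ⟨e42, by decide +kernel⟩)⟩),
  (List.forall_mem_cons.2 ⟨(List.forall_mem_singleton.2 ⟨e43, by decide +kernel⟩),
  (List.forall_mem_cons.2 ⟨(List.forall_mem_cons.2 ⟨⟨e44, by decide +kernel⟩,
  (List.forall_mem_singleton.2 ⟨e45, by decide +kernel⟩)⟩),
  (List.forall_mem_cons.2 ⟨(List.forall_mem_singleton.2 ⟨.leaf, by decide +kernel⟩),
  (List.forall_mem_cons.2 ⟨(List.forall_mem_singleton.2 ⟨e47, by decide +kernel⟩),
  (List.forall_mem_cons.2 ⟨(List.forall_mem_singleton.2 ⟨e48, by decide +kernel⟩),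
  (List.forall_mem_cons.2 ⟨(List.forall_mem_singleton.2 ⟨e49, by decide +kernel⟩),
  (List.forall_mem_cons.2 ⟨(List.forall_mem_singleton.2 ⟨.leaf, by decide +kernel⟩),
  (List.forall_mem_cons.2 ⟨(List.forall_mem_singleton.2 ⟨e51, by decide +kernel⟩),
  (List.forall_mem_cons.2 ⟨(List.forall_mem_singleton.2 ⟨e52, by decide +kernel⟩),
  (List.forall_mem_cons.2 ⟨(List.forall_mem_singleton.2 ⟨e53, by decide +kernel⟩),
  (List.forall_mem_cons.2 ⟨(List.forall_mem_singleton.2 ⟨e54, by decide +kernel⟩),
  (List.forall_mem_cons.2 ⟨(List.forall_mem_singleton.2 ⟨e55, by decide +kernel⟩),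
  (List.forall_mem_cons.2 ⟨(List.forall_mem_singleton.2 ⟨e56, by decide +kernel⟩),
  (List.forall_mem_cons.2 ⟨(List.forall_mem_singleton.2 ⟨e57, by decide +kernel⟩),
  (List.forall_mem_cons.2 ⟨(List.forall_mem_singleton.2 ⟨.leaf, by decide +kernel⟩),
  (List.forall_mem_cons.2 ⟨(List.forall_mem_singleton.2 ⟨e59, by decide +kernel⟩),
  (List.forall_mem_cons.2 ⟨(List.forall_mem_singleton.2 ⟨e60, by decide +kernel⟩),
  (List.forall_mem_cons.2 ⟨(List.forall_mem_cons.2 ⟨⟨e61, by decide +kernel⟩,
  (List.forall_mem_cons.2 ⟨⟨e62, by decide +kernel⟩,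
  (List.forall_mem_singleton.2 ⟨.leaf, by decide +kernel⟩)⟩)⟩),
  (List.forall_mem_cons.2 ⟨(List.forall_mem_singleton.2 ⟨e64, by decide +kernel⟩),
  (List.forall_mem_cons.2 ⟨(List.forall_mem_singleton.2 ⟨.leaf, by decide +kernel⟩),
  (List.forall_mem_cons.2 ⟨(List.forall_mem_singleton.2 ⟨e66, by decide +kernel⟩),
  (List.forall_mem_cons.2 ⟨(List.forall_mem_cons.2 ⟨⟨e67, by decide +kernel⟩,
  (List.forall_mem_cons.2 ⟨⟨e68, by decide +kernel⟩,
  (List.forall_mem_singleton.2 ⟨.leaf, by decide +kernel⟩)⟩)⟩),
  (List.forall_mem_cons.2 ⟨(List.forall_mem_singleton.2 ⟨e70, by decide +kernel⟩),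
  (List.forall_mem_cons.2 ⟨(List.forall_mem_singleton.2 ⟨e71, by decide +kernel⟩),
  (List.forall_mem_cons.2 ⟨(List.forall_mem_singleton.2 ⟨e72, by decide +kernel⟩),
  (List.forall_mem_cons.2 ⟨(List.forall_mem_singleton.2 ⟨e73, by decide +kernel⟩),
  (List.forall_mem_cons.2 ⟨(List.forall_mem_singleton.2 ⟨e74, by decide +kernel⟩),
  (List.forall_mem_cons.2 ⟨(List.forall_mem_singleton.2 ⟨e75, by decide +kernel⟩),
  (List.forall_mem_cons.2 ⟨(List.forall_mem_cons.2 ⟨⟨e76, by decide +kernel⟩,
  (List.forall_mem_singleton.2 ⟨e77, by decide +kernel⟩)⟩),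
  (List.forall_mem_cons.2 ⟨(List.forall_mem_singleton.2 ⟨.leaf, by decide +kernel⟩),
  (List.forall_mem_cons.2 ⟨(List.forall_mem_singleton.2 ⟨e79, by decide +kernel⟩),
  (List.forall_mem_cons.2 ⟨(List.forall_mem_singleton.2 ⟨.leaf, by decide +kernel⟩),
  (List.forall_mem_cons.2 ⟨(List.forall_mem_singleton.2 ⟨e81, by decide +kernel⟩),
  (List.forall_mem_cons.2 ⟨(List.forall_mem_singleton.2 ⟨.leaf, by decide +kernel⟩),
  (List.forall_mem_cons.2 ⟨(List.forall_mem_singleton.2 ⟨e83, by decide +kernel⟩),
  (List.forall_mem_cons.2 ⟨(List.forall_mem_singleton.2 ⟨e84, by decide +kernel⟩),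
  (List.forall_mem_cons.2 ⟨(List.forall_mem_singleton.2 ⟨e85, by decide +kernel⟩),
  (List.forall_mem_cons.2 ⟨(List.forall_mem_cons.2 ⟨⟨e86, by decide +kernel⟩,
  (List.forall_mem_cons.2 ⟨⟨e87, by decide +kernel⟩,
  (List.forall_mem_singleton.2 ⟨.leaf, by decide +kernel⟩)⟩)⟩),
  (List.forall_mem_cons.2 ⟨(List.forall_mem_singleton.2 ⟨.leaf, by decide +kernel⟩),
  (List.forall_mem_cons.2 ⟨(List.forall_mem_singleton.2 ⟨e90, by decide +kernel⟩),
  (List.forall_mem_cons.2 ⟨(List.forall_mem_singleton.2 ⟨e91, by decide +kernel⟩),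
  (List.forall_mem_cons.2 ⟨(List.forall_mem_singleton.2 ⟨e92, by decide +kernel⟩),
  (List.forall_mem_cons.2 ⟨(List.forall_mem_singleton.2 ⟨e93, by decide +kernel⟩),
  (List.forall_mem_cons.2 ⟨(List.forall_mem_singleton.2 ⟨e94, by decide +kernel⟩),
  (List.forall_mem_cons.2 ⟨(List.forall_mem_singleton.2 ⟨e95, by decide +kernel⟩),
  (List.forall_mem_cons.2 ⟨(List.forall_mem_singleton.2 ⟨e96, by decide +kernel⟩),
  (List.forall_mem_cons.2 ⟨(List.forall_mem_singleton.2 ⟨e97, by decide +kernel⟩),
  (List.forall_mem_cons.2 ⟨(List.forall_mem_singleton.2 ⟨e98, by decide +kernel⟩),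
  (List.forall_mem_cons.2 ⟨(List.forall_mem_singleton.2 ⟨e99, by decide +kernel⟩),
  (List.forall_mem_singleton.2 (List.forall_mem_singleton.2 ⟨.leaf, by decide +kernel⟩))⟩)⟩)⟩)⟩)⟩)⟩)⟩)⟩)⟩)⟩)⟩)⟩)⟩)⟩)⟩)⟩)⟩)⟩)⟩)⟩)⟩)⟩)⟩)⟩)⟩)⟩)⟩)⟩)⟩)⟩)⟩)⟩)⟩)⟩)⟩)⟩)⟩)⟩)⟩)⟩)⟩)⟩)⟩)⟩)⟩)⟩)⟩)⟩)⟩)⟩)⟩)⟩)⟩)⟩)⟩)⟩)⟩)⟩)⟩)⟩)⟩)⟩)⟩)⟩)⟩)⟩)⟩)⟩)⟩)⟩)⟩)⟩)⟩)⟩)⟩)⟩)⟩)⟩)⟩)⟩)⟩)⟩)⟩)⟩)⟩)⟩)⟩)⟩)⟩)

end

end Pool.Agent.H21.EGZ.S18
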