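import Pool.Agent.H21.EGZ.D19

/-!
# Stage 19 : search, part 0
-/

set_option autoImplicit false
set_option maxRecDepth 100000

namespace Pool.Agent.H21.EGZ.S19

noncomputable section

open Pool.Agent.H74.EGZ Pool.Agent.H94.Lift

/-- refutations 0 -/
def e0 : EX := (.node (.node (.node (.node (.node .leaf (nat_lit 211407405064322) (.br (nat_lit 0) (.cons (.br (nat_lit 2) (.cons (.rel (nat_lit 71303745)) .nil)) .nil)) .leaf) (nat_lit 211407931648887) (.br (nat_lit 0) (.cons (.br (nat_lit 1) (.cons (.rel (nat_lit 25182216)) .nil)) .nil)) .leaf) (nat_lit 211639467313459) (.br (nat_lit 0) (.cons (.br (nat_lit 3) (.cons (.rel (nat_lit 272633928)) .nil)) .nil)) (.node .leaf (nat_lit 211641983587680) (.br (nat_lit 0) (.cons (.br (nat_lit 1) (.cons (.rel (nat_lit 22545408)) .nil)) .nil)) .leaf)) (nat_lit 211641985155354) (.br (nat_lit 0) (.cons (.br (nat_lit 1) (.cons (.rel (nat_lit 25232400)) .nil)) .nil)) (.node (.node .leaf (nat_lit 211641985411202) (.br (nat_lit 2) (.cons (.br (nat_lit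 6) (.cons (.rel (nat_lit 17247306768)) .nil)) .nil)) .leaf) (nat_lit 211641986394999) (.br (nat_lit 2) (.cons (.br (nat_lit 5) (.cons (.rel (nat_lit 4362078210)) .nil)) .nil)) (.node .leaf (nat_lit 216526508986993) (.br (nat_lit 3) (.cons (.br (nat_lit 0) (.cons (.rel (nat_lit 272640000)) (.cons (.rel (nat_lit 272633928)) .nil))) .nil)) .leaf))) (nat_lit 216689952690857) (.br (nat_lit 1) (.cons (.br (nat_lit 2) (.cons (.rel (nat_lit 84230208)) .nil)) .nil)) (.node (.node (.node .leaf (nat_lit 216695612705075) (.br (nat_lit 6) (.cons (.br (nat_lit 0) (.cons (.rel (nat_lit 17184330768)) (.cons (.rel (nat_lit 17188388865)) .nil))) .nil)) .leaf) (nat_lit 216695613010076) (.br (nat_lit 4) (.cons (.br (nat_lit 2) (.cons (.rel (nat_lit 2214597120)) (.cons (.rel (nat_lit 1140851733)) .nil))) .nil)) (.node .leaf (nat_lit 216695615254659) (.br (nat_lit 0) (.cons (.br (nat_lit 1) (.cons (.rel (nat_lit 21234693)) .nil)) .nil)) .leaf)) (nat_lit 216695615513387) (.br (nat_lit 2) (.cons (.br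 (nat_lit 4) (.cons (.rel (nat_lit 2281701393)) .nil)) .nil)) (.node (.node .leaf (nat_lit 216695615513978) (.br (nat_lit 0) (.cons (.br (nat_lit 4) (.cons (.rel (nat_lit 1078001808)) .nil)) .nil)) .leaf) (nat_lit 216965092233272) (.br (nat_lit 6) (.cons (.br (nat_lit 1) (.cons (.rel (nat_lit 17196651024)) (.cons (.rel (nat_lit 17197696260)) .nil))) .nil)) (.node .leaf (nat_lit 217007625130646) (.br (nat_lit 1) (.cons (.br (nat_lit 2) (.cons (.rel (nat_lit 100732944)) .nil)) .nil)) .leaf))))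

/-- refutations 1 -/
def e1 : EX := (.node (.node (.node .leaf (nat_lit 217549207786872) (.br (nat_lit 0) (.cons (.br (nat_lit 1) (.cons (.rel (nat_lit 25169952)) .nil)) .nil)) .leaf) (nat_lit 217549208297602) (.br (nat_lit 2) (.cons (.br (nat_lit 0) (.cons (.rel (nat_lit 71303745)) (.cons (.rel (nat_lit 75530304)) (.cons (.rel (nat_lit 71585793)) .nil)))) .nil)) (.node .leaf (nat_lit 217549209147522) (.br (nat_lit 2) (.cons (.br (nat_lit 6) (.cons (.rel (nat_lit 34493957376)) .nil)) .nil)) .leaf)) (nat_lit 217781136019512) (.br (nat_lit 1) (.cons (.br (nat_lit 3) (.cons (.rel (nat_lit 285348864)) .nil)) .nil)) (.node (.node .leaf (nat_lit 223393016916855) (.br (nat_lit 1) (.cons (.br (nat_lit 3) (.cons (.rel (nat_lit 285214752)) .nil)) .nil)) .leaf) (nat_lit 224100136018731) (.br (nat_lit 0) (.cons (.br (nat_lit 1) (.cons (.rel (nat_lit 21254208)) .nil)) .nil)) .leaf))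

/-- refutations 3 -/
def e3 : EX := (.node (.node (.node (.node .leaf (nat_lit 193826564717945) (.br (nat_lit 0) (.cons (.br (nat_lit 5) (.cons (.rel (nat_lit 8594399232)) .nil)) .nil)) .leaf) (nat_lit 193828785543223) (.br (nat_lit 3) (.cons (.br (nat_lit 6) (.cons (.rel (nat_lit 17448308769)) .nil)) .nil)) .leaf) (nat_lit 199120705345718) (.br (nat_lit 2) (.cons (.br (nat_lit 6) (.cons (.rel (nat_lit 17247242322)) .nil)) .nil)) (.node .leaf (nat_lit 199375655335290) (.br (nat_lit 0) (.cons (.br (nat_lit 2) (.cons (.rel (nat_lit 75499536)) (.cons (.rel (nat_lit 75499536)) .nil))) .nil)) .leaf)) (nat_lit 199375655337338) (.br (nat_lit 1) (.cons (.br (nat_lit 2) (.cons (.rel (nat_lit 100732944)) .nil)) .nil)) (.node (.node (.node .leaf (nat_lit 200185337141303) (.br (nat_lit 2) (.cons (.br (nat_lit 1) (.cons (.rel (nat_lit 100663425)) (.cons (.rel (nat_lit 100732944)) (.cons (.rel (nat_lit 100795392)) .nil)))) (.cons (.br (nat_lit 6) (.cons (.rel (nat_lit 17247240261)) (.cons (.rel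 (nat_lit 17247306768)) .nil))) .nil))) .leaf) (nat_lit 201087154690975) (.br (nat_lit 0) (.cons (.br (nat_lit 2) (.cons (.rel (nat_lit 71599104)) .nil)) .nil)) .leaf) (nat_lit 205390834898999) (.br (nat_lit 5) (.cons (.br (nat_lit 6) (.cons (.rel (nat_lit 21474840642)) (.cons (.rel (nat_lit 21474902088)) .nil))) .nil)) (.node .leaf (nat_lit 205390837657655) (.br (nat_lit 0) (.cons (.br (nat_lit 6) (.cons (.rel (nat_lit 17185652736)) .nil)) .nil)) .leaf)))

/-- refutations 4 -/
def e4 : EX := (.node (.node (.node (.node .leaf (nat_lit 463258432056101) (.br (nat_lit 3) (.cons (.br (nat_lit 6) (.cons (.rel (nat_lit 17448337536)) .nil)) .nil)) .leaf) (nat_lit 463261095267181) (.br (nat_lit 0) (.cons (.br (nat_lit 1) (.cons (.rel (nat_lit 21254208)) .nil)) .nil)) (.node .leaf (nat_lit 463261095418641) (.br (nat_lit 0) (.cons (.br (nat_lit 1) (.cons (.rel (nat_lit 25165893)) .nil)) .nil)) .leaf)) (nat_lit 463261096187956) (.br (nat_lit 1) (.cons (.br (nat_lit 2) (.cons (.rel (nat_lit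 84148245)) .nil)) .nil)) (.node (.node .leaf (nat_lit 463261096207593) (.br (nat_lit 0) (.cons (.br (nat_lit 4) (.cons (.rel (nat_lit 2155906116)) .nil)) .nil)) .leaf) (nat_lit 463261096238358) (.br (nat_lit 0) (.cons (.br (nat_lit 4) (.cons (.rel (nat_lit 1077973008)) .nil)) .nil)) (.node .leaf (nat_lit 463261096697183) (.br (nat_lit 2) (.cons (.br (nat_lit 5) (.cons (.rel (nat_lit 4362078210)) .nil)) .nil)) .leaf))) (nat_lit 463261097589393) (.br (nat_lit 0) (.cons (.br (nat_lit 5) (.cons (.rel (nat_lit 8598324228)) .nil)) .nil)) (.node (.node (.node .leaf (nat_lit 463261097827205) (.br (nat_lit 0) (.cons (.br (nat_lit 1) (.cons (.rel (nat_lit 20972160)) .nil)) .nil)) .leaf) (nat_lit 463261097997719) (.br (nat_lit 3) (.cons (.br (nat_lit 0) (.cons (.rel (nat_lit 272640000)) (.cons (.rel (nat_lit 272640000)) .nil))) .nil)) (.node .leaf (nat_lit 463842151445781) (.br (nat_lit 4) (.cons (.br (nat_lit 5) (.cons (.rel (nat_lit 5368729857)) .nil)) .nil)) .leaf)) (nat_lit 469443187561253)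 (.br (nat_lit 0) (.cons (.br (nat_lit 1) (.cons (.rel (nat_lit 21234693)) .nil)) .nil)) (.node (.node .leaf (nat_lit 470508957446770) (.br (nat_lit 0) (.cons (.br (nat_lit 3) (.cons (.rel (nat_lit 272699424)) .nil)) .nil)) .leaf) (nat_lit 470508958406686) (.br (nat_lit 0) (.cons (.br (nat_lit 5) (.cons (.rel (nat_lit 8598323217)) .nil)) .nil)) .leaf)))

/-- refutations 5 -/
def e5 : EX := (.node (.node (.node (.node (.node .leaf (nat_lit 475007398506556) (.br (nat_lit 1) (.cons (.br (nat_lit 5) (.cons (.rel (nat_lit 4311762948)) .nil)) .nil)) .leaf) (nat_lit 475007398977666) (.br (nat_lit 1) (.cons (.br (nat_lit 5) (.cons (.rel (nat_lit 4311762948)) .nil)) .nil)) .leaf) (nat_lit 475008833515795) (.br (nat_lit 1) (.cons (.br (nat_lit 4) (.cons (.rel (nat_lit 1090524162)) .nil)) .nil)) (.node (.node .leaf (nat_lit 475009505800454) (.br (nat_lit 1) (.cons (.br (nat_lit 3) (.cons (.rel (nat_lit 285294657)) .nil)) .nil)) .leaf) (nat_lit 475518934661932) (.br (nat_lit 2) (.cons (.br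 (nat_lit 4) (.cons (.rel (nat_lit 2281702404)) .nil)) .nil)) .leaf)) (nat_lit 476105945397259) (.br (nat_lit 2) (.cons (.br (nat_lit 6) (.cons (.rel (nat_lit 17314092096)) (.cons (.rel (nat_lit 17247256584)) (.cons (.rel (nat_lit 34493957376)) .nil)))) .nil)) (.node (.node (.node .leaf (nat_lit 476544371800075) (.br (nat_lit 2) (.cons (.br (nat_lit 3) (.cons (.rel (nat_lit 335548482)) .nil)) .nil)) .leaf) (nat_lit 477137031149579) (.br (nat_lit 4) (.cons (.br (nat_lit 2) (.cons (.rel (nat_lit 1140850722)) (.cons (.rel (nat_lit 2214597120)) .nil))) .nil)) .leaf) (nat_lit 477139279296523) (.br (nat_lit 0) (.cons (.br (nat_lit 3) (.cons (.rel (nat_lit 272663553)) .nil)) .nil)) (.node (.node .leaf (nat_lit 477222637201468) (.br (nat_lit 1) (.cons (.br (nat_lit 2) (.cons (.rel (nat_lit 150997080)) .nil)) .nil)) .leaf) (nat_lit 477222637202040) (.br (nat_lit 1) (.cons (.br (nat_lit 2) (.cons (.rel (nat_lit 84149256)) .nil)) .nil)) .leaf))) (nat_lit 477222637259027) (.br (nat_lit 3) (.cons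 (.br (nat_lit 6) (.cons (.rel (nat_lit 17448321033)) (.cons (.rel (nat_lit 17717264640)) .nil))) .nil)) (.node (.node (.node (.node .leaf (nat_lit 477437678860299) (.br (nat_lit 0) (.cons (.br (nat_lit 1) (.cons (.rel (nat_lit 25169952)) .nil)) .nil)) .leaf) (nat_lit 480796033200779) (.br (nat_lit 1) (.cons (.br (nat_lit 4) (.cons (.rel (nat_lit 1107821568)) .nil)) .nil)) .leaf) (nat_lit 480796033200813) (.br (nat_lit 0) (.cons (.br (nat_lit 2) (.cons (.rel (nat_lit 71599104)) .nil)) .nil)) (.node (.node .leaf (nat_lit 480796033201385) (.br (nat_lit 0) (.cons (.br (nat_lit 1) (.cons (.rel (nat_lit 41943360)) .nil)) .nil)) .leaf) (nat_lit 480796033201505) (.br (nat_lit 0) (.cons (.br (nat_lit 1) (.cons (.rel (nat_lit 41949444)) .nil)) .nil)) .leaf)) (nat_lit 480796035734880) (.br (nat_lit 0) (.cons (.br (nat_lit 1) (.cons (.rel (nat_lit 21233682)) .nil)) .nil)) (.node (.node (.node .leaf (nat_lit 482737375246347) (.br (nat_lit 0) (.cons (.br (nat_lit 3) (.cons (.rel (nat_lit 277348356))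 .nil)) .nil)) .leaf) (nat_lit 482737375246611) (.br (nat_lit 1) (.cons (.br (nat_lit 3) (.cons (.rel (nat_lit 285310980)) (.cons (.rel (nat_lit 285214752)) .nil))) .nil)) .leaf) (nat_lit 482737376702475) (.br (nat_lit 3) (.cons (.br (nat_lit 4) (.cons (.rel (nat_lit 1343227908)) .nil)) .nil)) (.node (.node .leaf (nat_lit 487121313625470) (.br (nat_lit 1) (.cons (.br (nat_lit 2) (.cons (.rel (nat_lit 84152448)) .nil)) .nil)) .leaf) (nat_lit 488403807227915) (.br (nat_lit 0) (.cons (.br (nat_lit 1) (.cons (.rel (nat_lit 25169952)) .nil)) .nil)) .leaf))))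

/-- refutations 6 -/
def e6 : EX := (.node (.node (.node (.node (.node (.node .leaf (nat_lit 545409831398138) (.br (nat_lit 4) (.cons (.br (nat_lit 0) (.cons (.rel (nat_lit 1077938181)) (.cons (.rel (nat_lit 1077936168)) (.cons (.rel (nat_lit 1077936168)) .nil)))) (.cons (.br (nat_lit 3) (.cons (.rel (nat_lit 1342193925)) (.cons (.rel (nat_lit 2684616720)) (.cons (.rel (nat_lit 2416181508)) (.cons (.rel (nat_lit 1610613825)) (.cons (.rel (nat_lit 2415985728)) (.cons (.rel (nat_lit 1342193925)) .nil))))))) .nil))) .leaf) (nat_lit 545409831787872) (.br (nat_lit 1) (.cons (.br (nat_lit 5) (.cons (.rel (nat_lit 4311769152)) .nil)) .nil)) .leaf) (nat_lit 545409831899898) (.br (nat_lit 4) (.cons (.br (nat_lit 5) (.cons (.rel (nat_lit 5369763840)) .nil)) .nil)) (.node (.node .leaf (nat_lit 545409831900013) (.br (nat_lit 6) (.cons (.br (nat_lit 2) (.cons (.rel (nat_lit 17247240261)) (.cons (.rel (nat_lit 17248047360)) .nil))) .nil)) .leaf) (nat_lit 545409832657028) (.br (nat_lit 3) (.cons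 (.br (nat_lit 6) (.cons (.rel (nat_lit 17448306768)) .nil)) .nil)) .leaf)) (nat_lit 545409832658202) (.br (nat_lit 0) (.cons (.br (nat_lit 1) (.cons (.rel (nat_lit 21254208)) .nil)) .nil)) (.node (.node (.node .leaf (nat_lit 545409832860410) (.br (nat_lit 4) (.cons (.br (nat_lit 5) (.cons (.rel (nat_lit 5369233473)) .nil)) .nil)) .leaf) (nat_lit 545409832861079) (.br (nat_lit 0) (.cons (.br (nat_lit 4) (.cons (.rel (nat_lit 2152202496)) .nil)) .nil)) .leaf) (nat_lit 545409833064448) (.br (nat_lit 0) (.cons (.br (nat_lit 1) (.cons (.rel (nat_lit 37781508)) (.cons (.rel (nat_lit 41943360)) .nil))) (.cons (.br (nat_lit 1) (.cons (.rel (nat_lit 21233682)) (.cons (.rel (nat_lit 25232400)) .nil))) .nil))) (.node (.node .leaf (nat_lit 545409833170298) (.br (nat_lit 4) (.cons (.br (nat_lit 2) (.cons (.rel (nat_lit 1207968000)) (.cons (.rel (nat_lit 1140850722)) .nil))) .nil)) .leaf) (nat_lit 545409833857911) (.br (nat_lit 2) (.cons (.br (nat_lit 3) (.cons (.rel (nat_lit 335544468)) .nil))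 .nil)) .leaf))) (nat_lit 545409833939004) (.br (nat_lit 1) (.cons (.br (nat_lit 3) (.cons (.rel (nat_lit 285230208)) .nil)) .nil)) (.node (.node (.node (.node .leaf (nat_lit 545409833940201) (.br (nat_lit 4) (.cons (.br (nat_lit 5) (.cons (.rel (nat_lit 5368709520)) .nil)) .nil)) .leaf) (nat_lit 545409834113299) (.br (nat_lit 3) (.cons (.br (nat_lit 4) (.cons (.rel (nat_lit 1343227908)) .nil)) .nil)) .leaf) (nat_lit 545409834113786) (.br (nat_lit 0) (.cons (.br (nat_lit 6) (.cons (.rel (nat_lit 34368161088)) (.cons (.rel (nat_lit 34368127248)) .nil))) (.cons (.br (nat_lit 6) (.cons (.rel (nat_lit 17184325698)) (.cons (.rel (nat_lit 17184342021)) .nil))) .nil))) (.node (.node .leaf (nat_lit 545409834114335) (.br (nat_lit 6) (.cons (.br (nat_lit 1) (.cons (.rel (nat_lit 17196908676)) (.cons (.rel (nat_lit 17196941313)) .nil))) .nil)) .leaf) (nat_lit 545409834470303) (.br (nat_lit 1) (.cons (.br (nat_lit 4) (.cons (.rel (nat_lit 2164547586)) .nil)) .nil)) .leaf)) (nat_lit 545413027856384)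 (.br (nat_lit 0) (.cons (.br (nat_lit 3) (.cons (.rel (nat_lit 272640000)) .nil)) .nil)) (.node (.node (.node .leaf (nat_lit 545414576679593) (.br (nat_lit 6) (.cons (.br (nat_lit 3) (.cons (.rel (nat_lit 17448378432)) (.cons (.rel (nat_lit 17448337536)) .nil))) .nil)) .leaf) (nat_lit 545414576680199) (.br (nat_lit 5) (.cons (.br (nat_lit 4) (.cons (.rel (nat_lit 9663692928)) (.cons (.rel (nat_lit 6442450950)) (.cons (.rel (nat_lit 9663811584)) .nil)))) (.cons (.br (nat_lit 2) (.cons (.rel (nat_lit 4362078210)) (.cons (.rel (nat_lit 4362080400)) (.cons (.rel (nat_lit 4362223620)) .nil)))) .nil))) .leaf) (nat_lit 545414576822272) (.br (nat_lit 2) (.cons (.br (nat_lit 5) (.cons (.rel (nat_lit 4362076197)) .nil)) .nil)) (.node .leaf (nat_lit 545414577713807) (.br (nat_lit 1) (.cons (.br (nat_lit 6) (.cons (.rel (nat_lit 17197695249)) .nil)) .nil)) .leaf)))) (nat_lit 545414577974154) (.br (nat_lit 0) (.cons (.br (nat_lit 1) (.cons (.rel (nat_lit 21331968)) .nil)) .nil)) (.node (.node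 (.node (.node (.node .leaf (nat_lit 545414577974509) (.br (nat_lit 0) (.cons (.br (nat_lit 3) (.cons (.rel (nat_lit 273695232)) .nil)) .nil)) .leaf) (nat_lit 545414578102558) (.br (nat_lit 0) (.cons (.br (nat_lit 1) (.cons (.rel (nat_lit 22545408)) .nil)) .nil)) .leaf) (nat_lit 545638023676584) (.br (nat_lit 1) (.cons (.br (nat_lit 2) (.cons (.rel (nat_lit 84148245)) .nil)) .nil)) (.node (.node .leaf (nat_lit 545638024030888) (.br (nat_lit 0) (.cons (.br (nat_lit 5) (.cons (.rel (nat_lit 4299247620)) .nil)) .nil)) .leaf) (nat_lit 545844074446848) (.br (nat_lit 3) (.cons (.br (nat_lit 5) (.cons (.rel (nat_lit 4563403077)) .nil)) .nil)) .leaf)) (nat_lit 546474719434879) (.br (nat_lit 6) (.cons (.br (nat_lit 3) (.cons (.rel (nat_lit 17448322080)) (.cons (.rel (nat_lit 17448308769)) (.cons (.rel (nat_lit 17448309780)) .nil)))) .nil)) (.node (.node (.node .leaf (nat_lit 546474720211601) (.br (nat_lit 0) (.cons (.br (nat_lit 1) (.cons (.rel (nat_lit 25169952)) .nil)) .nil)) .leaf) (nat_lit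 546474721759257) (.br (nat_lit 0) (.cons (.br (nat_lit 2) (.cons (.rel (nat_lit 75571200)) .nil)) .nil)) .leaf) (nat_lit 546477186821383) (.br (nat_lit 6) (.cons (.br (nat_lit 3) (.cons (.rel (nat_lit 17448337536)) (.cons (.rel (nat_lit 17448321033)) (.cons (.br (nat_lit 1) (.cons (.rel (nat_lit 285216897)) (.cons (.rel (nat_lit 285348864)) (.cons (.rel (nat_lit 285286416)) .nil)))) (.cons (.rel (nat_lit 17448321033)) .nil))))) .nil)) (.node .leaf (nat_lit 546478238455935) (.br (nat_lit 6) (.cons (.br (nat_lit 4) (.cons (.rel (nat_lit 35434659840)) (.cons (.rel (nat_lit 18253612164)) .nil))) .nil)) .leaf))) (nat_lit 546478238456740) (.br (nat_lit 6) (.cons (.br (nat_lit 4) (.cons (.rel (nat_lit 18253644801)) (.cons (.rel (nat_lit 18253676613)) .nil))) .nil)) (.node (.node (.node (.node .leaf (nat_lit 546478383641458) (.br (nat_lit 0) (.cons (.br (nat_lit 4) (.cons (.rel (nat_lit 1077937170)) .nil)) .nil)) .leaf) (nat_lit 546480247527551) (.br (nat_lit 6) (.cons (.br (nat_lit 3)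 (.cons (.rel (nat_lit 17448308769)) (.cons (.rel (nat_lit 17448372228)) (.cons (.rel (nat_lit 17448304710)) .nil)))) .nil)) .leaf) (nat_lit 546480247528229) (.br (nat_lit 6) (.cons (.br (nat_lit 1) (.cons (.rel (nat_lit 17196917760)) (.cons (.rel (nat_lit 34376581188)) .nil))) .nil)) (.node (.node .leaf (nat_lit 546480248882583) (.br (nat_lit 0) (.cons (.br (nat_lit 1) (.cons (.rel (nat_lit 21233682)) .nil)) .nil)) .leaf) (nat_lit 546480248911226) (.br (nat_lit 1) (.cons (.br (nat_lit 2) (.cons (.rel (nat_lit 83919360)) (.cons (.rel (nat_lit 84149256)) .nil))) .nil)) .leaf)) (nat_lit 546480250211115) (.br (nat_lit 1) (.cons (.br (nat_lit 5) (.cons (.rel (nat_lit 4311761937)) .nil)) .nil)) (.node (.node (.node .leaf (nat_lit 546480382585582) (.br (nat_lit 1) (.cons (.br (nat_lit 2) (.cons (.rel (nat_lit 167788800)) .nil)) .nil)) .leaf) (nat_lit 546480382586263) (.br (nat_lit 1) (.cons (.br (nat_lit 2) (.cons (.rel (nat_lit 85458960)) (.cons (.rel (nat_lit 83919360)) .nil))) .nil))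 .leaf) (nat_lit 546480384303854) (.br (nat_lit 1) (.cons (.br (nat_lit 5) (.cons (.rel (nat_lit 4311769152)) .nil)) .nil)) (.node .leaf (nat_lit 546480384304535) (.br (nat_lit 3) (.cons (.br (nat_lit 0) (.cons (.rel (nat_lit 272629905)) (.cons (.rel (nat_lit 545264640)) .nil))) .nil)) .leaf)))))

/-- refutations 7 -/
def e7 : EX := (.node (.node (.node (.node .leaf (nat_lit 546918550735000) (.br (nat_lit 0) (.cons (.br (nat_lit 3) (.cons (.rel (nat_lit 545264640)) .nil)) .nil)) .leaf) (nat_lit 547737440863018) (.br (nat_lit 0) (.cons (.br (nat_lit 2) (.cons (.rel (nat_lit 71630916)) .nil)) .nil)) .leaf) (nat_lit 547737440863135) (.br (nat_lit 0) (.cons (.br (nat_lit 4) (.cons (.rel (nat_lit 2155872276)) .nil)) .nil)) (.node .leaf (nat_lit 547937475702023) (.br (nat_lit 3) (.cons (.br (nat_lit 4) (.cons (.rel (nat_lit 1343226897)) (.cons (.rel (nat_lit 2416050177)) .nil))) .nil)) .leaf)) (nat_lit 547940017450247) (.br (nat_lit 1) (.cons (.br (nat_lit 2) (.cons (.rel (nat_lit 84152448))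 (.cons (.rel (nat_lit 100732944)) (.cons (.rel (nat_lit 84230208)) (.cons (.rel (nat_lit 152322048)) .nil))))) (.cons (.br (nat_lit 3) (.cons (.br (nat_lit 5) (.cons (.rel (nat_lit 8858390544)) (.cons (.rel (nat_lit 4311769152)) .nil))) (.cons (.rel (nat_lit 570426384)) .nil))) .nil))) (.node (.node .leaf (nat_lit 547940018743951) (.br (nat_lit 1) (.cons (.br (nat_lit 3) (.cons (.rel (nat_lit 285214752)) .nil)) .nil)) .leaf) (nat_lit 550830080626690) (.br (nat_lit 2) (.cons (.br (nat_lit 5) (.cons (.rel (nat_lit 4362142848)) .nil)) .nil)) (.node .leaf (nat_lit 550830082841387) (.br (nat_lit 3) (.cons (.br (nat_lit 5) (.cons (.rel (nat_lit 8858378244)) .nil)) .nil)) .leaf)))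

/-- refutations 8 -/
def e8 : EX := (.node (.node (.node (.node (.node (.node (.node .leaf (nat_lit 551259312508928) (.br (nat_lit 0) (.cons (.br (nat_lit 3) (.cons (.rel (nat_lit 273695232)) .nil)) .nil)) .leaf) (nat_lit 551259312541748) (.br (nat_lit 4) (.cons (.br (nat_lit 1) (.cons (.rel (nat_lit 1090560000)) (.cons (.rel (nat_lit 1090560000)) .nil))) .nil)) .leaf) (nat_lit 551259312542351) (.br (nat_lit 0) (.cons (.br (nat_lit 5) (.cons (.rel (nat_lit 8598324228)) (.cons (.rel (nat_lit 8595177732)) .nil))) .nil)) (.node .leaf (nat_lit 551259312796303) (.br (nat_lit 3) (.cons (.br (nat_lit 6) (.cons (.rel (nat_lit 17448337536)) .nil)) .nil)) .leaf)) (nat_lit 551259312869687) (.br (nat_lit 2) (.cons (.br (nat_lit 3) (.cons (.rel (nat_lit 336593472)) .nil)) .nil)) (.node (.node (.node .leaf (nat_lit 551259313002623) (.br (nat_lit 6) (.cons (.br (nat_lit 1) (.cons (.rel (nat_lit 34376536065)) (.cons (.rel (nat_lit 17196941313)) .nil))) .nil)) .leaf) (nat_lit 551259313004032)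 (.br (nat_lit 0) (.cons (.br (nat_lit 1) (.cons (.rel (nat_lit 23068692)) .nil)) .nil)) .leaf) (nat_lit 551259313778739) (.br (nat_lit 0) (.cons (.br (nat_lit 1) (.cons (.rel (nat_lit 41943360)) .nil)) .nil)) (.node .leaf (nat_lit 551259313779345) (.br (nat_lit 0) (.cons (.br (nat_lit 1) (.cons (.rel (nat_lit 21254208)) .nil)) .nil)) .leaf))) (nat_lit 551259313843437) (.br (nat_lit 1) (.cons (.br (nat_lit 2) (.cons (.rel (nat_lit 84149256)) .nil)) .nil)) (.node (.node (.node (.node .leaf (nat_lit 551259314044988) (.br (nat_lit 0) (.cons (.br (nat_lit 4) (.cons (.rel (nat_lit 1077936168)) .nil)) .nil)) .leaf) (nat_lit 551259314137769) (.br (nat_lit 3) (.cons (.br (nat_lit 6) (.cons (.rel (nat_lit 17449615425)) (.cons (.rel (nat_lit 17448337536)) .nil))) (.cons (.br (nat_lit 6) (.cons (.rel (nat_lit 17448306768)) (.cons (.rel (nat_lit 17448304710)) .nil))) .nil))) .leaf) (nat_lit 551259314138375) (.br (nat_lit 4) (.cons (.br (nat_lit 5) (.cons (.br (nat_lit 3) (.cons (.rel (nat_lit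 1610613825)) (.cons (.rel (nat_lit 4831839300)) (.cons (.rel (nat_lit 1343311872)) (.cons (.rel (nat_lit 1342701600)) .nil))))) (.cons (.rel (nat_lit 9663692928)) .nil))) (.cons (.br (nat_lit 6) (.cons (.rel (nat_lit 36507227136)) (.cons (.rel (nat_lit 35434659840)) .nil))) .nil))) (.node .leaf (nat_lit 551259315155595) (.br (nat_lit 1) (.cons (.br (nat_lit 3) (.cons (.rel (nat_lit 570426384)) .nil)) .nil)) .leaf)) (nat_lit 551259315171380) (.br (nat_lit 1) (.cons (.br (nat_lit 3) (.cons (.rel (nat_lit 570426384)) .nil)) .nil)) (.node (.node .leaf (nat_lit 551259315327001) (.br (nat_lit 1) (.cons (.br (nat_lit 3) (.cons (.rel (nat_lit 285216897)) .nil)) .nil)) .leaf) (nat_lit 551259315329299) (.br (nat_lit 3) (.cons (.br (nat_lit 4) (.cons (.rel (nat_lit 1342177602)) .nil)) .nil)) (.node .leaf (nat_lit 551259315368812) (.br (nat_lit 1) (.cons (.br (nat_lit 3) (.cons (.rel (nat_lit 570426384)) .nil)) .nil)) .leaf)))) (nat_lit 551259315380224) (.br (nat_lit 4) (.cons (.br (nat_lit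 6) (.cons (.rel (nat_lit 18254676480)) .nil)) .nil)) (.node (.node (.node (.node (.node .leaf (nat_lit 551259315612329) (.br (nat_lit 3) (.cons (.br (nat_lit 6) (.cons (.rel (nat_lit 17448337536)) .nil)) .nil)) .leaf) (nat_lit 551259315612575) (.br (nat_lit 5) (.cons (.br (nat_lit 0) (.cons (.rel (nat_lit 4299169860)) (.cons (.rel (nat_lit 4299166848)) (.cons (.rel (nat_lit 4299247620)) .nil)))) .nil)) .leaf) (nat_lit 551259315613178) (.br (nat_lit 0) (.cons (.br (nat_lit 3) (.cons (.rel (nat_lit 272699424)) (.cons (.rel (nat_lit 545264640)) .nil))) .nil)) (.node .leaf (nat_lit 551259315685552) (.br (nat_lit 0) (.cons (.br (nat_lit 1) (.cons (.rel (nat_lit 37781508)) .nil)) .nil)) .leaf)) (nat_lit 551259315686753) (.br (nat_lit 1) (.cons (.br (nat_lit 2) (.cons (.rel (nat_lit 84149256)) .nil)) .nil)) (.node (.node (.node .leaf (nat_lit 551261683565805) (.br (nat_lit 1) (.cons (.br (nat_lit 2) (.cons (.rel (nat_lit 84148245)) .nil)) .nil)) .leaf) (nat_lit 551262832023679) (.br (nat_lit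 6) (.cons (.br (nat_lit 1) (.cons (.rel (nat_lit 17213489172)) (.cons (.rel (nat_lit 17197039632)) .nil))) .nil)) .leaf) (nat_lit 551262832024484) (.br (nat_lit 4) (.cons (.br (nat_lit 3) (.cons (.rel (nat_lit 2416050177)) (.cons (.rel (nat_lit 1343311872)) .nil))) .nil)) (.node .leaf (nat_lit 551264841095295) (.br (nat_lit 1) (.cons (.br (nat_lit 2) (.cons (.rel (nat_lit 151000080)) (.cons (.rel (nat_lit 150995010)) (.cons (.rel (nat_lit 100795392)) .nil)))) (.cons (.br (nat_lit 2) (.cons (.rel (nat_lit 83919360)) (.cons (.rel (nat_lit 151000080)) (.cons (.rel (nat_lit 151000080)) .nil)))) .nil))) .leaf))) (nat_lit 551264841095973) (.br (nat_lit 1) (.cons (.br (nat_lit 2) (.cons (.rel (nat_lit 100795392)) (.cons (.rel (nat_lit 150995010)) .nil))) (.cons (.br (nat_lit 2) (.cons (.rel (nat_lit 100732944)) (.cons (.rel (nat_lit 100795392)) .nil))) .nil))) (.node (.node (.node (.node .leaf (nat_lit 551264842230441) (.br (nat_lit 3) (.cons (.br (nat_lit 6) (.cons (.rel (nat_lit 17448337536))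 .nil)) .nil)) .leaf) (nat_lit 551264842438783) (.br (nat_lit 4) (.cons (.br (nat_lit 5) (.cons (.rel (nat_lit 5368709520)) .nil)) .nil)) .leaf) (nat_lit 551264842440031) (.br (nat_lit 0) (.cons (.br (nat_lit 5) (.cons (.rel (nat_lit 8598324228)) .nil)) .nil)) (.node .leaf (nat_lit 551264975181854) (.br (nat_lit 1) (.cons (.br (nat_lit 2) (.cons (.rel (nat_lit 150995010)) .nil)) .nil)) .leaf)) (nat_lit 551264975324542) (.br (nat_lit 1) (.cons (.br (nat_lit 3) (.cons (.rel (nat_lit 285233220)) .nil)) .nil)) (.node (.node .leaf (nat_lit 551264975324666) (.br (nat_lit 1) (.cons (.br (nat_lit 3) (.cons (.rel (nat_lit 285233220)) .nil)) .nil)) .leaf) (nat_lit 551264975435115) (.br (nat_lit 0) (.cons (.br (nat_lit 1) (.cons (.rel (nat_lit 37756944)) .nil)) .nil)) (.node .leaf (nat_lit 551264976142366) (.br (nat_lit 2) (.cons (.br (nat_lit 3) (.cons (.rel (nat_lit 605094144)) .nil)) .nil)) .leaf))))) (nat_lit 551264976152837) (.br (nat_lit 1) (.cons (.br (nat_lit 4) (.cons (.rel (nat_lit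 1090523160)) .nil)) .nil)) (.node (.node (.node (.node (.node (.node .leaf (nat_lit 551264976154007) (.br (nat_lit 1) (.cons (.br (nat_lit 3) (.cons (.rel (nat_lit 285541632)) .nil)) .nil)) .leaf) (nat_lit 551264977870875) (.br (nat_lit 2) (.cons (.br (nat_lit 3) (.cons (.rel (nat_lit 335544468)) .nil)) .nil)) .leaf) (nat_lit 551264977871030) (.br (nat_lit 4) (.cons (.br (nat_lit 5) (.cons (.rel (nat_lit 5368729857)) (.cons (.rel (nat_lit 9664987140)) .nil))) .nil)) (.node .leaf (nat_lit 551264977871129) (.br (nat_lit 5) (.cons (.br (nat_lit 0) (.cons (.rel (nat_lit 4299161634)) (.cons (.rel (nat_lit 8598323217)) .nil))) .nil)) .leaf)) (nat_lit 551264977871598) (.br (nat_lit 1) (.cons (.br (nat_lit 2) (.cons (.rel (nat_lit 151062528)) .nil)) .nil)) (.node (.node (.node .leaf (nat_lit 551264977871653) (.br (nat_lit 5) (.cons (.br (nat_lit 3) (.cons (.rel (nat_lit 4564521024)) (.cons (.br (nat_lit 6) (.cons (.rel (nat_lit 17448337536)) (.cons (.rel (nat_lit 21474902088)) .nil)))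 .nil))) .nil)) .leaf) (nat_lit 551264977871725) (.br (nat_lit 3) (.cons (.br (nat_lit 6) (.cons (.rel (nat_lit 17449631748)) .nil)) .nil)) .leaf) (nat_lit 551264977872224) (.br (nat_lit 6) (.cons (.br (nat_lit 3) (.cons (.rel (nat_lit 17448337536)) (.cons (.rel (nat_lit 34628436480)) (.cons (.rel (nat_lit 17448337536)) .nil)))) .nil)) (.node .leaf (nat_lit 551264977872279) (.br (nat_lit 0) (.cons (.br (nat_lit 1) (.cons (.br (nat_lit 4) (.cons (.rel (nat_lit 2181058560)) (.cons (.rel (nat_lit 1077960708)) .nil))) .nil)) .nil)) .leaf))) (nat_lit 551264977924252) (.br (nat_lit 0) (.cons (.br (nat_lit 1) (.cons (.rel (nat_lit 22085904)) .nil)) .nil)) (.node (.node (.node (.node .leaf (nat_lit 551800742734586) (.br (nat_lit 3) (.cons (.br (nat_lit 4) (.cons (.rel (nat_lit 1610616837)) (.cons (.rel (nat_lit 2415985728)) .nil))) (.cons (.br (nat_lit 6) (.cons (.rel (nat_lit 17448308769)) (.cons (.rel (nat_lit 17448309780)) .nil))) .nil))) .leaf) (nat_lit 551800742735135) (.br (nat_lit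 1) (.cons (.br (nat_lit 2) (.cons (.rel (nat_lit 167788800)) .nil)) .nil)) .leaf) (nat_lit 551800743124454) (.br (nat_lit 0) (.cons (.br (nat_lit 2) (.cons (.rel (nat_lit 138412041)) .nil)) .nil)) (.node .leaf (nat_lit 551800743233536) (.br (nat_lit 4) (.cons (.br (nat_lit 5) (.cons (.rel (nat_lit 9664004352)) .nil)) .nil)) .leaf)) (nat_lit 551800743235586) (.br (nat_lit 2) (.cons (.br (nat_lit 3) (.cons (.rel (nat_lit 604241922)) .nil)) .nil)) (.node (.node .leaf (nat_lit 551800743236345) (.br (nat_lit 2) (.cons (.br (nat_lit 3) (.cons (.rel (nat_lit 335544468)) .nil)) .nil)) .leaf) (nat_lit 551800743237114) (.br (nat_lit 4) (.cons (.br (nat_lit 6) (.cons (.rel (nat_lit 18253615176)) .nil)) .nil)) (.node .leaf (nat_lit 551800744196096) (.br (nat_lit 1) (.cons (.br (nat_lit 3) (.cons (.rel (nat_lit 285214752)) .nil)) .nil)) .leaf)))) (nat_lit 551800744400896) (.br (nat_lit 2) (.cons (.br (nat_lit 4) (.cons (.rel (nat_lit 1140850722)) (.cons (.rel (nat_lit 1140850722)) .nil))) .nil))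 (.node (.node (.node (.node (.node .leaf (nat_lit 551800744506254) (.br (nat_lit 1) (.cons (.br (nat_lit 4) (.cons (.rel (nat_lit 1090560000)) .nil)) .nil)) .leaf) (nat_lit 551800744506775) (.br (nat_lit 4) (.cons (.br (nat_lit 5) (.cons (.rel (nat_lit 5369757768)) .nil)) .nil)) .leaf) (nat_lit 551800744506874) (.br (nat_lit 1) (.cons (.br (nat_lit 5) (.cons (.rel (nat_lit 4312039680)) .nil)) .nil)) (.node .leaf (nat_lit 551800745193472) (.br (nat_lit 1) (.cons (.br (nat_lit 5) (.cons (.rel (nat_lit 4311746625)) .nil)) .nil)) .leaf)) (nat_lit 551800745194234) (.br (nat_lit 3) (.cons (.br (nat_lit 5) (.cons (.rel (nat_lit 4563929088)) .nil)) .nil)) (.node (.node .leaf (nat_lit 551800745276043) (.br (nat_lit 5) (.cons (.br (nat_lit 6) (.cons (.rel (nat_lit 21474845712)) .nil)) .nil)) .leaf) (nat_lit 551800745295872) (.br (nat_lit 1) (.cons (.br (nat_lit 5) (.cons (.rel (nat_lit 4311769152)) (.cons (.br (nat_lit 3) (.cons (.rel (nat_lit 4563407136)) (.cons (.rel (nat_lit 8858375232))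 (.cons (.rel (nat_lit 4563469584)) .nil)))) .nil))) .nil)) (.node .leaf (nat_lit 551800745449747) (.br (nat_lit 5) (.cons (.br (nat_lit 3) (.cons (.rel (nat_lit 9127068672)) (.cons (.rel (nat_lit 4831839300)) .nil))) .nil)) .leaf))) (nat_lit 551800745450234) (.br (nat_lit 6) (.cons (.br (nat_lit 3) (.cons (.rel (nat_lit 17448306768)) (.cons (.rel (nat_lit 17448306768)) (.cons (.rel (nat_lit 17448304710)) .nil)))) .nil)) (.node (.node (.node (.node .leaf (nat_lit 551800745450283) (.br (nat_lit 5) (.cons (.br (nat_lit 6) (.cons (.rel (nat_lit 21474869265)) (.cons (.rel (nat_lit 21474845712)) .nil))) .nil)) .leaf) (nat_lit 551805487923260) (.br (nat_lit 0) (.cons (.br (nat_lit 5) (.cons (.rel (nat_lit 4299169860)) .nil)) .nil)) .leaf) (nat_lit 551805487964937) (.br (nat_lit 0) (.cons (.br (nat_lit 5) (.cons (.rel (nat_lit 8598323217)) .nil)) .nil)) (.node .leaf (nat_lit 551805488159622) (.br (nat_lit 0) (.cons (.br (nat_lit 1) (.cons (.rel (nat_lit 26476608)) .nil)) .nil)) .leaf))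 (nat_lit 551805489053696) (.br (nat_lit 1) (.cons (.br (nat_lit 5) (.cons (.rel (nat_lit 4311769152)) (.cons (.br (nat_lit 2) (.cons (.rel (nat_lit 167788800)) (.cons (.rel (nat_lit 151000080)) (.cons (.rel (nat_lit 4362076197)) .nil)))) .nil))) .nil)) (.node (.node .leaf (nat_lit 551805489310957) (.br (nat_lit 0) (.cons (.br (nat_lit 1) (.cons (.rel (nat_lit 22545408)) .nil)) .nil)) .leaf) (nat_lit 552029482049718) (.br (nat_lit 3) (.cons (.br (nat_lit 4) (.cons (.rel (nat_lit 1342245120)) .nil)) .nil)) (.node .leaf (nat_lit 552926026625786) (.br (nat_lit 1) (.cons (.br (nat_lit 2) (.cons (.rel (nat_lit 151000080)) .nil)) .nil)) .leaf))))))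

/-- refutations 9 -/
def e9 : EX := (.node (.node (.node (.node .leaf (nat_lit 553346666614784) (.br (nat_lit 0) (.cons (.br (nat_lit 1) (.cons (.rel (nat_lit 41943360)) .nil)) .nil)) .leaf) (nat_lit 553363849147023) (.br (nat_lit 1) (.cons (.br (nat_lit 3) (.cons (.rel (nat_lit 285216897)) (.cons (.rel (nat_lit 553910337)) .nil))) .nil)) (.node .leaf (nat_lit 553392084167943) (.br (nat_lit 5) (.cons (.br (nat_lit 2) (.cons (.rel (nat_lit 8657375232)) (.cons (.rel (nat_lit 4362078210)) (.cons (.rel (nat_lit 4362078210)) .nil)))) (.cons (.br (nat_lit 6) (.cons (.rel (nat_lit 21474908160)) (.cons (.br (nat_lit 2) (.cons (.rel (nat_lit 4362078210)) (.cons (.rel (nat_lit 4362080400)) (.cons (.rel (nat_lit 25836929088)) .nil)))) .nil))) .nil))) .leaf)) (nat_lit 553394834496420) (.br (nat_lit 1) (.cons (.br (nat_lit 2) (.cons (.rel (nat_lit 100732944)) .nil)) .nil)) (.node (.node .leaf (nat_lit 556106403871377) (.br (nat_lit 0) (.cons (.br (nat_lit 2) (.cons (.rel (nat_lit 72353040))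 .nil)) .nil)) .leaf) (nat_lit 556106403871980) (.br (nat_lit 0) (.cons (.br (nat_lit 3) (.cons (.rel (nat_lit 272630916)) .nil)) .nil)) .leaf)) (nat_lit 556312661929223) (.br (nat_lit 1) (.cons (.br (nat_lit 3) (.cons (.rel (nat_lit 285286416)) (.cons (.rel (nat_lit 285212694)) (.cons (.rel (nat_lit 570426384)) .nil)))) (.cons (.br (nat_lit 3) (.cons (.rel (nat_lit 285286416)) (.cons (.rel (nat_lit 285216897)) (.cons (.rel (nat_lit 285214752)) .nil)))) (.cons (.br (nat_lit 3) (.cons (.rel (nat_lit 285310980)) (.cons (.rel (nat_lit 285213705)) (.cons (.rel (nat_lit 570426384)) .nil)))) .nil)))) (.node (.node (.node .leaf (nat_lit 556313314644020) (.br (nat_lit 0) (.cons (.br (nat_lit 1) (.cons (.rel (nat_lit 21254208)) .nil)) .nil)) .leaf) (nat_lit 556313316459246) (.br (nat_lit 0) (.cons (.br (nat_lit 1) (.cons (.rel (nat_lit 21254208)) .nil)) .nil)) .leaf) (nat_lit 556315722635391) (.br (nat_lit 6) (.cons (.br (nat_lit 1) (.cons (.rel (nat_lit 34376549376)) (.cons (.rel (nat_lit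 17196917760)) (.cons (.rel (nat_lit 34376515728)) .nil)))) (.cons (.br (nat_lit 3) (.cons (.br (nat_lit 2) (.cons (.rel (nat_lit 34493957376)) (.cons (.rel (nat_lit 17247256584)) (.cons (.rel (nat_lit 335548482)) (.cons (.rel (nat_lit 335544468)) (.cons (.rel (nat_lit 671154192)) (.cons (.rel (nat_lit 17314107408)) .nil))))))) (.cons (.rel (nat_lit 34896625728)) (.cons (.rel (nat_lit 34628436480)) .nil)))) .nil))) (.node (.node .leaf (nat_lit 556315722636069) (.br (nat_lit 6) (.cons (.br (nat_lit 4) (.cons (.rel (nat_lit 19329515520)) (.cons (.rel (nat_lit 35434659840)) .nil))) .nil)) .leaf) (nat_lit 556315723770537) (.br (nat_lit 4) (.cons (.br (nat_lit 6) (.cons (.rel (nat_lit 18253621248)) .nil)) .nil)) .leaf)))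

/-- refutations 10 -/
def e10 : EX := (.node (.node (.node (.node (.node .leaf (nat_lit 556370590899727) (.br (nat_lit 0) (.cons (.br (nat_lit 2) (.cons (.rel (nat_lit 142676241)) .nil)) .nil)) .leaf) (nat_lit 557401116235903) (.br (nat_lit 6) (.cons (.br (nat_lit 3) (.cons (.rel (nat_lit 17448337536)) (.cons (.rel (nat_lit 17448337536)) .nil))) .nil)) .leaf) (nat_lit 557401117371049) (.br (nat_lit 6) (.cons (.br (nat_lit 3) (.cons (.br (nat_lit 2) (.cons (.rel (nat_lit 335544468)) (.cons (.rel (nat_lit 17248047360)) (.cons (.rel (nat_lit 335675424)) (.cons (.rel (nat_lit 17249091585)) (.cons (.rel (nat_lit 335548482)) .nil)))))) (.cons (.rel (nat_lit 17448337536)) .nil))) .nil)) (.node (.node .leaf (nat_lit 557406125370631) (.br (nat_lit 6) (.cons (.br (nat_lit 2) (.cons (.rel (nat_lit 17314169856)) (.cons (.rel (nat_lit 34493957376)) .nil))) .nil)) .leaf) (nat_lit 557492238564878) (.br (nat_lit 0) (.cons (.br (nat_lit 2) (.cons (.rel (nat_lit 75763968)) .nil)) .nil)) .leaf))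 (nat_lit 558251492553355) (.br (nat_lit 0) (.cons (.br (nat_lit 4) (.cons (.rel (nat_lit 1082200320)) .nil)) .nil)) (.node (.node (.node .leaf (nat_lit 558346011209780) (.br (nat_lit 0) (.cons (.br (nat_lit 4) (.cons (.rel (nat_lit 1078067268)) .nil)) .nil)) .leaf) (nat_lit 558346011650729) (.br (nat_lit 1) (.cons (.br (nat_lit 2) (.cons (.rel (nat_lit 84230208)) .nil)) .nil)) .leaf) (nat_lit 558346272893690) (.br (nat_lit 0) (.cons (.br (nat_lit 1) (.cons (.rel (nat_lit 21254208)) (.cons (.rel (nat_lit 20972160)) .nil))) (.cons (.br (nat_lit 6) (.cons (.rel (nat_lit 34363950084)) (.cons (.rel (nat_lit 34368127248)) .nil))) .nil))) (.node (.node .leaf (nat_lit 558349469351936) (.br (nat_lit 0) (.cons (.br (nat_lit 6) (.cons (.rel (nat_lit 34368127248)) .nil)) .nil)) .leaf) (nat_lit 558349469362308) (.br (nat_lit 5) (.cons (.br (nat_lit 0) (.cons (.rel (nat_lit 4299161634)) (.cons (.rel (nat_lit 4299163656)) .nil))) .nil)) .leaf))) (nat_lit 558349470119936) (.br (nat_lit 1) (.cons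 (.br (nat_lit 2) (.cons (.rel (nat_lit 84152448)) .nil)) .nil)) (.node (.node (.node (.node .leaf (nat_lit 558349471412986) (.br (nat_lit 0) (.cons (.br (nat_lit 1) (.cons (.rel (nat_lit 41943360)) .nil)) .nil)) .leaf) (nat_lit 558349471413660) (.br (nat_lit 0) (.cons (.br (nat_lit 2) (.cons (.rel (nat_lit 71565456)) .nil)) .nil)) .leaf) (nat_lit 558466267626153) (.br (nat_lit 1) (.cons (.br (nat_lit 3) (.cons (.rel (nat_lit 285245520)) .nil)) .nil)) (.node (.node .leaf (nat_lit 558466269260457) (.br (nat_lit 6) (.cons (.br (nat_lit 3) (.cons (.rel (nat_lit 17448337536)) (.cons (.rel (nat_lit 17448337536)) (.cons (.rel (nat_lit 17448304710)) .nil)))) .nil)) .leaf) (nat_lit 558466269261063) (.br (nat_lit 4) (.cons (.br (nat_lit 5) (.cons (.rel (nat_lit 6442483776)) (.cons (.rel (nat_lit 9663692928)) .nil))) (.cons (.br (nat_lit 5) (.cons (.rel (nat_lit 5368743168)) (.cons (.rel (nat_lit 6442453008)) .nil))) .nil))) .leaf)) (nat_lit 558466270450345) (.br (nat_lit 2) (.cons (.br (nat_lit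 3) (.cons (.rel (nat_lit 335553552)) (.cons (.rel (nat_lit 335548482)) .nil))) (.cons (.br (nat_lit 1) (.cons (.rel (nat_lit 150995010)) (.cons (.rel (nat_lit 84152448)) (.cons (.rel (nat_lit 100663425)) .nil)))) .nil))) (.node (.node (.node .leaf (nat_lit 558469787147172) (.br (nat_lit 4) (.cons (.br (nat_lit 6) (.cons (.rel (nat_lit 35434659840)) (.cons (.rel (nat_lit 18253644801)) .nil))) (.cons (.br (nat_lit 1) (.cons (.rel (nat_lit 1090666560)) (.cons (.rel (nat_lit 2181058560)) (.cons (.br (nat_lit 3) (.cons (.rel (nat_lit 1342182672)) (.cons (.rel (nat_lit 285214752)) (.cons (.rel (nat_lit 285286416)) .nil)))) .nil)))) .nil))) .leaf) (nat_lit 558471796217983) (.br (nat_lit 6) (.cons (.br (nat_lit 3) (.cons (.rel (nat_lit 17448321033)) (.cons (.rel (nat_lit 17448337536)) (.cons (.br (nat_lit 1) (.cons (.rel (nat_lit 285216897)) (.cons (.rel (nat_lit 285286416)) .nil))) .nil)))) .nil)) .leaf) (nat_lit 558471796218661) (.br (nat_lit 1) (.cons (.br (nat_lit 2) (.cons (.rel (nat_lit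 100795392)) (.cons (.rel (nat_lit 84152448)) (.cons (.rel (nat_lit 150995010)) .nil)))) (.cons (.br (nat_lit 3) (.cons (.rel (nat_lit 285214752)) (.cons (.rel (nat_lit 285286416)) .nil))) .nil))) (.node .leaf (nat_lit 558514879977502) (.br (nat_lit 0) (.cons (.br (nat_lit 2) (.cons (.rel (nat_lit 75497478)) .nil)) .nil)) .leaf))))

/-- refutations 12 -/
def e12 : EX := (.node (.node (.node .leaf (nat_lit 528045839177754) (.br (nat_lit 0) (.cons (.br (nat_lit 1) (.cons (.rel (nat_lit 23070753)) .nil)) .nil)) .leaf) (nat_lit 528290247335993) (.br (nat_lit 1) (.cons (.br (nat_lit 5) (.cons (.rel (nat_lit 4311744612)) (.cons (.rel (nat_lit 4311761937)) .nil))) .nil)) (.node .leaf (nat_lit 529154958674600) (.br (nat_lit 1) (.cons (.br (nat_lit 3) (.cons (.rel (nat_lit 553910337)) .nil)) .nil)) .leaf)) (nat_lit 534211754519928) (.br (nat_lit 0) (.cons (.br (nat_lit 1) (.cons (.rel (nat_lit 38012160)) .nil)) .nil)) (.node (.node .leaf (nat_lit 920177416194328) (.br (nat_lit 4) (.cons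 (.br (nat_lit 6) (.cons (.rel (nat_lit 36507227136)) .nil)) .nil)) .leaf) (nat_lit 921238957753632) (.br (nat_lit 0) (.cons (.br (nat_lit 2) (.cons (.rel (nat_lit 71565456)) .nil)) .nil)) .leaf))

/-- refutations 13 -/
def e13 : EX := (.node (.node (.node (.node .leaf (nat_lit 967588607947027) (.br (nat_lit 1) (.cons (.br (nat_lit 4) (.cons (.rel (nat_lit 1090524162)) .nil)) .nil)) .leaf) (nat_lit 967627141117979) (.br (nat_lit 6) (.cons (.br (nat_lit 2) (.cons (.rel (nat_lit 17247256584)) (.cons (.rel (nat_lit 17314095108)) .nil))) .nil)) .leaf) (nat_lit 968730092355611) (.br (nat_lit 0) (.cons (.br (nat_lit 1) (.cons (.rel (nat_lit 37781508)) .nil)) .nil)) (.node (.node .leaf (nat_lit 969803846502675) (.br (nat_lit 2) (.cons (.br (nat_lit 3) (.cons (.rel (nat_lit 335578116)) .nil)) .nil)) .leaf) (nat_lit 969946539289231) (.br (nat_lit 1) (.cons (.br (nat_lit 2) (.cons (.rel (nat_lit 85458960)) .nil)) .nil)) .leaf)) (nat_lit 978757167185183) (.br (nat_lit 2) (.cons (.br (nat_lit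 6) (.cons (.rel (nat_lit 34428223488)) .nil)) .nil)) (.node (.node (.node .leaf (nat_lit 978757168426271) (.br (nat_lit 0) (.cons (.br (nat_lit 6) (.cons (.rel (nat_lit 34363936773)) .nil)) .nil)) .leaf) (nat_lit 978757169667359) (.br (nat_lit 0) (.cons (.br (nat_lit 3) (.cons (.rel (nat_lit 272646228)) .nil)) .nil)) .leaf) (nat_lit 978757708015772) (.br (nat_lit 0) (.cons (.br (nat_lit 1) (.cons (.rel (nat_lit 25182216)) .nil)) .nil)) (.node (.node .leaf (nat_lit 978757708519580) (.br (nat_lit 0) (.cons (.br (nat_lit 1) (.cons (.rel (nat_lit 20972160)) .nil)) .nil)) .leaf) (nat_lit 978757708520849) (.br (nat_lit 1) (.cons (.br (nat_lit 0) (.cons (.rel (nat_lit 21254208)) (.cons (.rel (nat_lit 20972160)) .nil))) .nil)) .leaf)))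

/-- refutations 14 -/
def e14 : EX := (.node (.node (.node (.node .leaf (nat_lit 2304629169987042) (.br (nat_lit 0) (.cons (.br (nat_lit 2) (.cons (.rel (nat_lit 71320068)) .nil)) .nil)) .leaf) (nat_lit 2304633833838767) (.br (nat_lit 0) (.cons (.br (nat_lit 2) (.cons (.rel (nat_lit 71565456)) .nil)) .nil)) (.node .leaf (nat_lit 2305049497753775) (.br (nat_lit 0) (.cons (.br (nat_lit 2) (.cons (.rel (nat_lit 71585793)) .nil)) .nil)) .leaf)) (nat_lit 2305101037408313) (.br (nat_lit 1) (.cons (.br (nat_lit 2) (.cons (.rel (nat_lit 100663425)) .nil)) .nil)) (.node (.node .leaf (nat_lit 2306137152336527) (.br (nat_lit 2) (.cons (.br (nat_lit 5) (.cons (.rel (nat_lit 4363129416)) .nil)) .nil)) .leaf) (nat_lit 2306137153319087) (.br (nat_lit 6) (.cons (.br (nat_lit 5) (.cons (.rel (nat_lit 21474836628)) (.cons (.rel (nat_lit 38654705922)) .nil))) .nil)) .leaf)) (nat_lit 2307202825664001) (.br (nat_lit 0) (.cons (.br (nat_lit 2) (.cons (.rel (nat_lit 71320068)) .nil)) .nil)) (.node (.node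 (.node .leaf (nat_lit 2310202905442604) (.br (nat_lit 6) (.cons (.br (nat_lit 0) (.cons (.rel (nat_lit 34363949073)) (.cons (.rel (nat_lit 17188324416)) .nil))) .nil)) .leaf) (nat_lit 2310202906157356) (.br (nat_lit 1) (.cons (.br (nat_lit 2) (.cons (.rel (nat_lit 84149256)) .nil)) .nil)) .leaf) (nat_lit 2310203458555961) (.br (nat_lit 3) (.cons (.br (nat_lit 5) (.cons (.br (nat_lit 1) (.cons (.rel (nat_lit 4311749637)) (.cons (.rel (nat_lit 4580180544)) (.cons (.rel (nat_lit 285213705)) .nil)))) (.cons (.rel (nat_lit 4831838289)) .nil))) .nil)) (.node (.node .leaf (nat_lit 2310203458556715) (.br (nat_lit 0) (.cons (.br (nat_lit 1) (.cons (.rel (nat_lit 20972160)) (.cons (.rel (nat_lit 20972160)) (.cons (.rel (nat_lit 21234693)) .nil)))) .nil)) .leaf) (nat_lit 2310203458722717) (.br (nat_lit 0) (.cons (.br (nat_lit 5) (.cons (.rel (nat_lit 8598323217)) .nil)) .nil)) .leaf)))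

/-- refutations 15 -/
def e15 : EX := (.node (.node (.node (.node (.node (.node .leaf (nat_lit 2310483660222639) (.br (nat_lit 5) (.cons (.br (nat_lit 6) (.cons (.rel (nat_lit 21474856965)) .nil)) .nil)) .leaf) (nat_lit 2310483661618539) (.br (nat_lit 2) (.cons (.br (nat_lit 3) (.cons (.rel (nat_lit 402718980)) .nil)) .nil)) .leaf) (nat_lit 2311018930295446) (.br (nat_lit 1) (.cons (.br (nat_lit 2) (.cons (.rel (nat_lit 100732944)) .nil)) .nil)) (.node .leaf (nat_lit 2311019347114746) (.br (nat_lit 4) (.cons (.br (nat_lit 1) (.cons (.rel (nat_lit 2181058560)) (.cons (.rel (nat_lit 2165309760)) .nil))) .nil)) .leaf)) (nat_lit 2311019347675913) (.br (nat_lit 1) (.cons (.br (nat_lit 5) (.cons (.rel (nat_lit 4313060352)) .nil)) .nil)) (.node (.node .leaf (nat_lit 2311019348340911) (.br (nat_lit 6) (.cons (.br (nat_lit 1) (.cons (.rel (nat_lit 34376515728)) (.cons (.rel (nat_lit 17213427738)) .nil))) .nil)) .leaf) (nat_lit 2311019348948470) (.br (nat_lit 0) (.cons (.br (nat_lit 3)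 (.cons (.rel (nat_lit 276828417)) .nil)) .nil)) (.node .leaf (nat_lit 2311019349635883) (.br (nat_lit 1) (.cons (.br (nat_lit 2) (.cons (.rel (nat_lit 84148245)) .nil)) .nil)) .leaf))) (nat_lit 2311019349666554) (.br (nat_lit 3) (.cons (.br (nat_lit 5) (.cons (.rel (nat_lit 8858390544)) .nil)) .nil)) (.node (.node (.node (.node .leaf (nat_lit 2311019349727407) (.br (nat_lit 0) (.cons (.br (nat_lit 1) (.cons (.rel (nat_lit 20972160)) .nil)) .nil)) .leaf) (nat_lit 2311019349728039) (.br (nat_lit 2) (.cons (.br (nat_lit 4) (.cons (.rel (nat_lit 1140852744)) .nil)) .nil)) .leaf) (nat_lit 2311019350135546) (.br (nat_lit 6) (.cons (.br (nat_lit 1) (.cons (.rel (nat_lit 34376536065)) (.cons (.rel (nat_lit 17196941313)) .nil))) .nil)) (.node .leaf (nat_lit 2311019350239407) (.br (nat_lit 1) (.cons (.br (nat_lit 6) (.cons (.rel (nat_lit 17196908676)) .nil)) .nil)) .leaf)) (nat_lit 2311024323349392) (.br (nat_lit 1) (.cons (.br (nat_lit 2) (.cons (.rel (nat_lit 100795392)) .nil)) .nil))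 (.node (.node .leaf (nat_lit 2311337329923309) (.br (nat_lit 3) (.cons (.br (nat_lit 4) (.cons (.rel (nat_lit 1342193925)) .nil)) .nil)) .leaf) (nat_lit 2311337330088212) (.br (nat_lit 0) (.cons (.br (nat_lit 2) (.cons (.rel (nat_lit 138412041)) .nil)) .nil)) (.node .leaf (nat_lit 2311337331110669) (.br (nat_lit 0) (.cons (.br (nat_lit 4) (.cons (.rel (nat_lit 1077936168)) (.cons (.rel (nat_lit 1077936168)) .nil))) (.cons (.br (nat_lit 4) (.cons (.rel (nat_lit 1077936168)) (.cons (.rel (nat_lit 1077936168)) .nil))) .nil))) .leaf)))) (nat_lit 2311337331172109) (.br (nat_lit 0) (.cons (.br (nat_lit 2) (.cons (.rel (nat_lit 75497478)) .nil)) .nil)) (.node (.node (.node (.node (.node .leaf (nat_lit 2311337331369462) (.br (nat_lit 0) (.cons (.br (nat_lit 1) (.cons (.rel (nat_lit 21234693)) .nil)) .nil)) .leaf) (nat_lit 2311337331673868) (.br (nat_lit 0) (.cons (.br (nat_lit 3) (.cons (.rel (nat_lit 272650242)) .nil)) .nil)) .leaf) (nat_lit 2311337331673869) (.br (nat_lit 0) (.cons (.br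 (nat_lit 3) (.cons (.rel (nat_lit 273695232)) .nil)) .nil)) (.node .leaf (nat_lit 2311337331674465) (.br (nat_lit 1) (.cons (.br (nat_lit 3) (.cons (.rel (nat_lit 285212694)) .nil)) .nil)) .leaf)) (nat_lit 2311337331674523) (.br (nat_lit 4) (.cons (.br (nat_lit 2) (.cons (.rel (nat_lit 2281702404)) (.cons (.rel (nat_lit 1140850722)) .nil))) .nil)) (.node (.node .leaf (nat_lit 2311337331676573) (.br (nat_lit 1) (.cons (.br (nat_lit 2) (.cons (.rel (nat_lit 83919360)) .nil)) .nil)) .leaf) (nat_lit 2311337332913564) (.br (nat_lit 2) (.cons (.br (nat_lit 5) (.cons (.rel (nat_lit 4362076197)) .nil)) .nil)) (.node .leaf (nat_lit 2311337908689071) (.br (nat_lit 0) (.cons (.br (nat_lit 3) (.cons (.rel (nat_lit 272629905)) .nil)) .nil)) .leaf))) (nat_lit 2311337908901899) (.br (nat_lit 0) (.cons (.br (nat_lit 2) (.cons (.rel (nat_lit 75497478)) (.cons (.rel (nat_lit 71565456)) .nil))) (.cons (.br (nat_lit 2) (.cons (.rel (nat_lit 138412041)) (.cons (.rel (nat_lit 78118920)) .nil))) .nil)))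 (.node (.node (.node (.node .leaf (nat_lit 2311339953074351) (.br (nat_lit 0) (.cons (.br (nat_lit 2) (.cons (.rel (nat_lit 143657028)) .nil)) .nil)) .leaf) (nat_lit 2311342572967947) (.br (nat_lit 0) (.cons (.br (nat_lit 1) (.cons (.rel (nat_lit 21254208)) .nil)) .nil)) .leaf) (nat_lit 2311342574044538) (.br (nat_lit 0) (.cons (.br (nat_lit 2) (.cons (.rel (nat_lit 138412041)) .nil)) .nil)) (.node .leaf (nat_lit 2311342575362234) (.br (nat_lit 5) (.cons (.br (nat_lit 6) (.cons (.rel (nat_lit 21474869265)) .nil)) .nil)) .leaf)) (nat_lit 2311342575362859) (.br (nat_lit 3) (.cons (.br (nat_lit 5) (.cons (.rel (nat_lit 4831839300)) .nil)) .nil)) (.node (.node .leaf (nat_lit 2312196743223471) (.br (nat_lit 3) (.cons (.br (nat_lit 1) (.cons (.rel (nat_lit 285286416)) (.cons (.rel (nat_lit 285245520)) .nil))) .nil)) .leaf) (nat_lit 2312196743224228) (.br (nat_lit 0) (.cons (.br (nat_lit 1) (.cons (.rel (nat_lit 25165893)) .nil)) .nil)) (.node .leaf (nat_lit 2312317060888078) (.br (nat_lit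 2) (.cons (.br (nat_lit 3) (.cons (.rel (nat_lit 402653520)) .nil)) .nil)) .leaf)))))

/-- refutations 16 -/
def e16 : EX := (.node (.node (.node (.node (.node .leaf (nat_lit 2312523319875759) (.br (nat_lit 0) (.cons (.br (nat_lit 5) (.cons (.rel (nat_lit 4299169860)) .nil)) .nil)) .leaf) (nat_lit 2315325555146080) (.br (nat_lit 0) (.cons (.br (nat_lit 1) (.cons (.rel (nat_lit 25182216)) .nil)) .nil)) .leaf) (nat_lit 2315325556434272) (.br (nat_lit 3) (.cons (.br (nat_lit 6) (.cons (.rel (nat_lit 17717264640)) .nil)) .nil)) (.node (.node .leaf (nat_lit 2315325556641120) (.br (nat_lit 3) (.cons (.br (nat_lit 0) (.cons (.rel (nat_lit 272633928)) (.cons (.rel (nat_lit 273948705)) .nil))) .nil)) .leaf) (nat_lit 2315841078368431) (.br (nat_lit 1) (.cons (.br (nat_lit 2) (.cons (.rel (nat_lit 84149256)) .nil)) .nil)) .leaf)) (nat_lit 2315841078369692) (.br (nat_lit 0) (.cons (.br (nat_lit 3) (.cons (.rel (nat_lit 272650242)) .nil)) .nil)) (.node (.node (.node .leaf (nat_lit 2315841078782127)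 (.br (nat_lit 2) (.cons (.br (nat_lit 5) (.cons (.rel (nat_lit 4362076197)) .nil)) .nil)) .leaf) (nat_lit 2316450288350444) (.br (nat_lit 0) (.cons (.br (nat_lit 3) (.cons (.rel (nat_lit 272633928)) .nil)) .nil)) .leaf) (nat_lit 2316706042016524) (.br (nat_lit 0) (.cons (.br (nat_lit 1) (.cons (.rel (nat_lit 37756944)) .nil)) .nil)) (.node .leaf (nat_lit 2316706618022164) (.br (nat_lit 0) (.cons (.br (nat_lit 2) (.cons (.rel (nat_lit 72499464)) .nil)) .nil)) .leaf))) (nat_lit 2316707992368016) (.br (nat_lit 0) (.cons (.br (nat_lit 1) (.cons (.rel (nat_lit 25182216)) .nil)) .nil)) (.node (.node (.node (.node .leaf (nat_lit 2316708660504751) (.br (nat_lit 2) (.cons (.br (nat_lit 6) (.cons (.rel (nat_lit 34493957376)) .nil)) .nil)) .leaf) (nat_lit 2316708661762059) (.br (nat_lit 2) (.cons (.br (nat_lit 3) (.cons (.rel (nat_lit 335609928)) .nil)) .nil)) .leaf) (nat_lit 2316708661762234) (.br (nat_lit 0) (.cons (.br (nat_lit 2) (.cons (.rel (nat_lit 73404480)) .nil)) .nil)) (.node .leaf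 (nat_lit 2316708661762730) (.br (nat_lit 0) (.cons (.br (nat_lit 2) (.cons (.rel (nat_lit 71585793)) .nil)) .nil)) .leaf)) (nat_lit 2316708661763454) (.br (nat_lit 3) (.cons (.br (nat_lit 4) (.cons (.rel (nat_lit 1610613825)) .nil)) .nil)) (.node (.node (.node .leaf (nat_lit 2316708662175919) (.br (nat_lit 5) (.cons (.br (nat_lit 2) (.cons (.rel (nat_lit 8724153345)) (.cons (.rel (nat_lit 4362145860)) .nil))) .nil)) .leaf) (nat_lit 2316708662177120) (.br (nat_lit 0) (.cons (.br (nat_lit 2) (.cons (.rel (nat_lit 75571200)) .nil)) .nil)) .leaf) (nat_lit 2316710628891306) (.br (nat_lit 0) (.cons (.br (nat_lit 1) (.cons (.rel (nat_lit 25232400)) .nil)) .nil)) (.node .leaf (nat_lit 2317892028995595) (.br (nat_lit 0) (.cons (.br (nat_lit 1) (.cons (.rel (nat_lit 22085904)) .nil)) .nil)) .leaf))))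

/-- refutations 17 -/
def e17 : EX := (.node (.node (.node (.node .leaf (nat_lit 2639902172876860) (.br (nat_lit 3) (.cons (.br (nat_lit 6) (.cons (.rel (nat_lit 34629223488)) .nil)) .nil)) .leaf) (nat_lit 2639902172876985) (.br (nat_lit 0) (.cons (.br (nat_lit 3) (.cons (.rel (nat_lit 272633928)) .nil)) .nil)) (.node .leaf (nat_lit 2639902172877555) (.br (nat_lit 0) (.cons (.br (nat_lit 2) (.cons (.rel (nat_lit 71320068)) .nil)) .nil)) .leaf)) (nat_lit 2639902172877611) (.br (nat_lit 0) (.cons (.br (nat_lit 4) (.cons (.rel (nat_lit 1083183108)) (.cons (.rel (nat_lit 1077960708)) .nil))) .nil)) (.node (.node .leaf (nat_lit 2639902172878330) (.br (nat_lit 0) (.cons (.br (nat_lit 4) (.cons (.rel (nat_lit 1077936168)) .nil)) .nil)) .leaf) (nat_lit 2639902173042699) (.br (nat_lit 0) (.cons (.br (nat_lit 2) (.cons (.rel (nat_lit 138413088)) .nil)) .nil)) (.node .leaf (nat_lit 2639902174323990) (.br (nat_lit 0) (.cons (.br (nat_lit 2) (.cons (.rel (nat_lit 72946704)) .nil)) .nil)) .leaf)))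 (nat_lit 2639902174373152) (.br (nat_lit 0) (.cons (.br (nat_lit 1) (.cons (.rel (nat_lit 23068692)) .nil)) .nil)) (.node (.node (.node .leaf (nat_lit 2639902175898400) (.br (nat_lit 0) (.cons (.br (nat_lit 5) (.cons (.rel (nat_lit 8594194944)) .nil)) .nil)) .leaf) (nat_lit 2639907416178825) (.br (nat_lit 6) (.cons (.br (nat_lit 3) (.cons (.rel (nat_lit 17448306768)) (.cons (.rel (nat_lit 17448337536)) .nil))) .nil)) (.node .leaf (nat_lit 2639907417574176) (.br (nat_lit 1) (.cons (.br (nat_lit 3) (.cons (.rel (nat_lit 285214752)) .nil)) .nil)) .leaf)) (nat_lit 2639907418318180) (.br (nat_lit 0) (.cons (.br (nat_lit 2) (.cons (.rel (nat_lit 71599104)) .nil)) .nil)) (.node (.node .leaf (nat_lit 2639907418778400) (.br (nat_lit 3) (.cons (.br (nat_lit 6) (.cons (.rel (nat_lit 34629226500)) .nil)) .nil)) .leaf) (nat_lit 2641454361733770) (.br (nat_lit 0) (.cons (.br (nat_lit 2) (.cons (.rel (nat_lit 138428544)) .nil)) .nil)) .leaf)))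

/-- refutations 18 -/
def e18 : EX := (.node (.node (.node (.node (.node .leaf (nat_lit 2644729454897289) (.br (nat_lit 1) (.cons (.br (nat_lit 4) (.cons (.rel (nat_lit 1090535460)) .nil)) .nil)) .leaf) (nat_lit 2644734959419529) (.br (nat_lit 0) (.cons (.br (nat_lit 1) (.cons (.rel (nat_lit 20972160)) .nil)) .nil)) .leaf) (nat_lit 2645270882263077) (.br (nat_lit 0) (.cons (.br (nat_lit 2) (.cons (.rel (nat_lit 72353040)) .nil)) .nil)) (.node (.node .leaf (nat_lit 2645276125042699) (.br (nat_lit 1) (.cons (.br (nat_lit 2) (.cons (.rel (nat_lit 83919360)) .nil)) .nil)) .leaf) (nat_lit 2645276125403411) (.br (nat_lit 1) (.cons (.br (nat_lit 3) (.cons (.rel (nat_lit 285216897)) .nil)) .nil)) .leaf)) (nat_lit 2645276126680577) (.br (nat_lit 0) (.cons (.br (nat_lit 1) (.cons (.rel (nat_lit 21254208)) .nil)) .nil)) (.node (.node (.node .leaf (nat_lit 2645276126681843) (.br (nat_lit 1) (.cons (.br (nat_lit 3) (.cons (.rel (nat_lit 285212694)) .nil)) .nil)) .leaf) (nat_lit 2645276126682590)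 (.br (nat_lit 0) (.cons (.br (nat_lit 3) (.cons (.rel (nat_lit 272630916)) .nil)) .nil)) .leaf) (nat_lit 2645276127437555) (.br (nat_lit 2) (.cons (.br (nat_lit 5) (.cons (.rel (nat_lit 8724185172)) (.cons (.rel (nat_lit 8724153345)) .nil))) (.cons (.br (nat_lit 1) (.cons (.rel (nat_lit 151062528)) (.cons (.rel (nat_lit 167788800)) (.cons (.rel (nat_lit 100663425)) (.cons (.rel (nat_lit 83919360)) (.cons (.rel (nat_lit 151062528)) .nil)))))) .nil))) (.node (.node .leaf (nat_lit 2645276127441547) (.br (nat_lit 0) (.cons (.br (nat_lit 1) (.cons (.rel (nat_lit 23068692)) .nil)) .nil)) .leaf) (nat_lit 2645752153177344) (.br (nat_lit 0) (.cons (.br (nat_lit 4) (.cons (.rel (nat_lit 1077936168)) .nil)) .nil)) .leaf))) (nat_lit 2645752153637001) (.br (nat_lit 3) (.cons (.br (nat_lit 6) (.cons (.rel (nat_lit 17448308769)) .nil)) .nil)) (.node (.node (.node (.node .leaf (nat_lit 2645752153637664) (.br (nat_lit 3) (.cons (.br (nat_lit 6) (.cons (.rel (nat_lit 17448304710)) (.cons (.rel (nat_lit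 17448456192)) .nil))) .nil)) .leaf) (nat_lit 2645752154670366) (.br (nat_lit 0) (.cons (.br (nat_lit 1) (.cons (.rel (nat_lit 21254208)) .nil)) .nil)) .leaf) (nat_lit 2645752155009161) (.br (nat_lit 3) (.cons (.br (nat_lit 4) (.cons (.rel (nat_lit 1343311872)) .nil)) .nil)) (.node (.node .leaf (nat_lit 2645752155031689) (.br (nat_lit 2) (.cons (.br (nat_lit 6) (.cons (.rel (nat_lit 17246980608)) (.cons (.rel (nat_lit 17314092096)) .nil))) (.cons (.br (nat_lit 3) (.cons (.rel (nat_lit 335548482)) (.cons (.rel (nat_lit 336593472)) .nil))) .nil))) .leaf) (nat_lit 2645752155032352) (.br (nat_lit 3) (.cons (.br (nat_lit 6) (.cons (.rel (nat_lit 17448337536)) .nil)) .nil)) .leaf)) (nat_lit 2645752155697907) (.br (nat_lit 4) (.cons (.br (nat_lit 1) (.cons (.rel (nat_lit 1090523160)) (.cons (.rel (nat_lit 1090560000)) .nil))) .nil)) (.node (.node (.node .leaf (nat_lit 2645752155728672) (.br (nat_lit 6) (.cons (.br (nat_lit 0) (.cons (.rel (nat_lit 17188388865)) (.cons (.rel (nat_lit 17184342021))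 .nil))) .nil)) .leaf) (nat_lit 2645752156235913) (.br (nat_lit 3) (.cons (.br (nat_lit 6) (.cons (.rel (nat_lit 17448309780)) (.cons (.rel (nat_lit 34896625728)) .nil))) .nil)) .leaf) (nat_lit 2645752156236576) (.br (nat_lit 3) (.cons (.br (nat_lit 6) (.cons (.rel (nat_lit 17448309780)) .nil)) .nil)) (.node .leaf (nat_lit 2645752156237182) (.br (nat_lit 1) (.cons (.br (nat_lit 3) (.cons (.rel (nat_lit 285216897)) .nil)) .nil)) .leaf))))

/-- refutations 19 -/
def e19 : EX := (.node (.node .leaf (nat_lit 2646774854758430) (.br (nat_lit 0) (.cons (.br (nat_lit 2) (.cons (.rel (nat_lit 71585793)) .nil)) .nil)) .leaf) (nat_lit 2649785997543561) (.br (nat_lit 0) (.cons (.br (nat_lit 2) (.cons (.rel (nat_lit 138412041)) .nil)) .nil)) .leaf)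

/-- refutations 20 -/
def e20 : EX := (.node (.node (.node (.node (.node .leaf (nat_lit 2201256869554236) (.br (nat_lit 2) (.cons (.br (nat_lit 1) (.cons (.rel (nat_lit 150997080)) (.cons (.rel (nat_lit 84149256)) .nil))) .nil)) .leaf) (nat_lit 2411295054287029) (.br (nat_lit 0) (.cons (.br (nat_lit 1) (.cons (.rel (nat_lit 41943360)) .nil)) .nil)) .leaf) (nat_lit 2411509792176309) (.br (nat_lit 1) (.cons (.br (nat_lit 2) (.cons (.br (nat_lit 3) (.cons (.rel (nat_lit 402653520)) .nil)) .nil)) .nil)) (.node .leaf (nat_lit 2411739527495138) (.br (nat_lit 0) (.cons (.br (nat_lit 1) (.cons (.rel (nat_lit 21233682)) .nil)) .nil)) .leaf)) (nat_lit 2412707100795667) (.br (nat_lit 3) (.cons (.br (nat_lit 6) (.cons (.rel (nat_lit 17448322080)) (.cons (.rel (nat_lit 17448337536)) .nil))) .nil)) (.node (.node .leaf (nat_lit 2415727459705644) (.br (nat_lit 0) (.cons (.br (nat_lit 1) (.cons (.rel (nat_lit 25169952)) .nil)) .nil)) .leaf) (nat_lit 2416573117987446) (.br (nat_lit 0) (.cons (.br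 (nat_lit 1) (.cons (.rel (nat_lit 25165893)) .nil)) .nil)) (.node .leaf (nat_lit 2416578230753542) (.br (nat_lit 0) (.cons (.br (nat_lit 1) (.cons (.rel (nat_lit 21233682)) .nil)) .nil)) .leaf))) (nat_lit 2416578231777542) (.br (nat_lit 0) (.cons (.br (nat_lit 1) (.cons (.rel (nat_lit 25232400)) .nil)) .nil)) (.node (.node (.node (.node .leaf (nat_lit 2421342206443802) (.br (nat_lit 0) (.cons (.br (nat_lit 2) (.cons (.rel (nat_lit 71565456)) .nil)) .nil)) .leaf) (nat_lit 2422210638583011) (.br (nat_lit 0) (.cons (.br (nat_lit 1) (.cons (.rel (nat_lit 37756944)) .nil)) .nil)) .leaf) (nat_lit 2422212312109237) (.br (nat_lit 1) (.cons (.br (nat_lit 4) (.cons (.rel (nat_lit 1090524162)) .nil)) .nil)) (.node .leaf (nat_lit 2422212312110307) (.br (nat_lit 0) (.cons (.br (nat_lit 1) (.cons (.rel (nat_lit 25169952)) .nil)) .nil)) .leaf)) (nat_lit 2422212859066549) (.br (nat_lit 1) (.cons (.br (nat_lit 4) (.cons (.rel (nat_lit 1090524162)) .nil)) .nil)) (.node (.node .leaf (nat_lit 2423123392133301)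 (.br (nat_lit 0) (.cons (.br (nat_lit 2) (.cons (.rel (nat_lit 75571200)) .nil)) .nil)) .leaf) (nat_lit 2423332846826897) (.br (nat_lit 0) (.cons (.br (nat_lit 1) (.cons (.rel (nat_lit 21233682)) .nil)) .nil)) (.node .leaf (nat_lit 2423337593540789) (.br (nat_lit 1) (.cons (.br (nat_lit 0) (.cons (.rel (nat_lit 25232400)) (.cons (.rel (nat_lit 37819392)) .nil))) .nil)) .leaf))))

/-- refutations 22 -/
def e22 : EX := (.node (.node (.node (.node .leaf (nat_lit 3096277480450955) (.br (nat_lit 0) (.cons (.br (nat_lit 1) (.cons (.rel (nat_lit 25169952)) .nil)) .nil)) .leaf) (nat_lit 3096277481925408) (.br (nat_lit 0) (.cons (.br (nat_lit 3) (.cons (.rel (nat_lit 272892192)) .nil)) .nil)) (.node .leaf (nat_lit 3096282162768672) (.br (nat_lit 1) (.cons (.br (nat_lit 3) (.cons (.rel (nat_lit 285348864)) .nil)) .nil)) .leaf)) (nat_lit 3097522348231962) (.br (nat_lit 0) (.cons (.br (nat_lit 5) (.cons (.rel (nat_lit 4303487232)) (.cons (.rel (nat_lit 4299163656)) .nil))) .nil)) (.node (.node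 .leaf (nat_lit 3097522348303098) (.br (nat_lit 1) (.cons (.br (nat_lit 5) (.cons (.rel (nat_lit 4311744612)) .nil)) .nil)) .leaf) (nat_lit 3097522348497658) (.br (nat_lit 1) (.cons (.br (nat_lit 2) (.cons (.rel (nat_lit 151000080)) .nil)) .nil)) (.node .leaf (nat_lit 3097522348498176) (.br (nat_lit 1) (.cons (.br (nat_lit 2) (.cons (.rel (nat_lit 151062528)) .nil)) .nil)) .leaf))) (nat_lit 3097522348744032) (.br (nat_lit 3) (.cons (.br (nat_lit 4) (.cons (.rel (nat_lit 1343504640)) .nil)) .nil)) (.node (.node (.node .leaf (nat_lit 3097522350087449) (.br (nat_lit 3) (.cons (.br (nat_lit 5) (.cons (.rel (nat_lit 4563407136)) .nil)) .nil)) .leaf) (nat_lit 3097522350895866) (.br (nat_lit 0) (.cons (.br (nat_lit 3) (.cons (.rel (nat_lit 272633928)) .nil)) .nil)) (.node .leaf (nat_lit 3097522351110906) (.br (nat_lit 1) (.cons (.br (nat_lit 5) (.cons (.rel (nat_lit 4311744612)) (.cons (.rel (nat_lit 8623554624)) (.cons (.rel (nat_lit 4311746625)) .nil)))) .nil)) .leaf)) (nat_lit 3097522351111450)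 (.br (nat_lit 0) (.cons (.br (nat_lit 5) (.cons (.rel (nat_lit 4300473360)) .nil)) .nil)) (.node (.node .leaf (nat_lit 3097785526704303) (.br (nat_lit 0) (.cons (.br (nat_lit 1) (.cons (.rel (nat_lit 21234693)) .nil)) .nil)) .leaf) (nat_lit 3097785526704935) (.br (nat_lit 1) (.cons (.br (nat_lit 4) (.cons (.rel (nat_lit 1108344852)) .nil)) .nil)) (.node .leaf (nat_lit 3101679879709483) (.br (nat_lit 2) (.cons (.br (nat_lit 4) (.cons (.rel (nat_lit 2281702404)) .nil)) .nil)) .leaf))))

/-- refutations 23 -/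
def e23 : EX := (.node (.node (.node (.node (.node .leaf (nat_lit 3102667719051295) (.br (nat_lit 2) (.cons (.br (nat_lit 6) (.cons (.rel (nat_lit 34426848324)) .nil)) .nil)) .leaf) (nat_lit 3102667719052670) (.br (nat_lit 0) (.cons (.br (nat_lit 2) (.cons (.rel (nat_lit 73482240)) .nil)) .nil)) .leaf) (nat_lit 3102667719318266) (.br (nat_lit 2) (.cons (.br (nat_lit 3) (.cons (.rel (nat_lit 335616000)) .nil)) .nil)) (.node .leaf (nat_lit 3102667720401658) (.br (nat_lit 6) (.cons (.br (nat_lit 0) (.cons (.rel (nat_lit 17185652736)) (.cons (.rel (nat_lit 17184393216)) .nil))) .nil)) .leaf)) (nat_lit 3102667720402201) (.br (nat_lit 5) (.cons (.br (nat_lit 0) (.cons (.rel (nat_lit 8598324228)) (.cons (.rel (nat_lit 8594194944)) .nil))) .nil)) (.node (.node (.node .leaf (nat_lit 3102667720908057) (.br (nat_lit 1) (.cons (.br (nat_lit 5) (.cons (.rel (nat_lit 4311769152)) .nil)) .nil)) .leaf) (nat_lit 3102667721635097) (.br (nat_lit 0) (.cons (.br (nat_lit 2) (.cons (.rel (nat_lit 71585793))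 .nil)) .nil)) .leaf) (nat_lit 3102667721717248) (.br (nat_lit 2) (.cons (.br (nat_lit 3) (.cons (.rel (nat_lit 402653520)) .nil)) .nil)) (.node .leaf (nat_lit 3102667721931514) (.br (nat_lit 0) (.cons (.br (nat_lit 1) (.cons (.rel (nat_lit 21254208)) .nil)) .nil)) .leaf))) (nat_lit 3102667722173216) (.br (nat_lit 5) (.cons (.br (nat_lit 6) (.cons (.rel (nat_lit 21474853953)) .nil)) .nil)) (.node (.node (.node (.node .leaf (nat_lit 3102667722195751) (.br (nat_lit 1) (.cons (.br (nat_lit 3) (.cons (.rel (nat_lit 285214752)) .nil)) .nil)) .leaf) (nat_lit 3102668391738906) (.br (nat_lit 0) (.cons (.br (nat_lit 4) (.cons (.rel (nat_lit 2155872276)) .nil)) .nil)) .leaf) (nat_lit 3102668393261856) (.br (nat_lit 1) (.cons (.br (nat_lit 6) (.cons (.rel (nat_lit 34376549376)) (.cons (.rel (nat_lit 34376549376)) (.cons (.rel (nat_lit 17196651024)) .nil)))) .nil)) (.node .leaf (nat_lit 3102668393276203) (.br (nat_lit 2) (.cons (.br (nat_lit 3) (.cons (.rel (nat_lit 335675424)) .nil)) .nil))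 .leaf)) (nat_lit 3102669950493434) (.br (nat_lit 2) (.cons (.br (nat_lit 5) (.cons (.rel (nat_lit 4362076197)) (.cons (.rel (nat_lit 8657568000)) .nil))) .nil)) (.node (.node (.node .leaf (nat_lit 3108098790935834) (.br (nat_lit 0) (.cons (.br (nat_lit 1) (.cons (.rel (nat_lit 21233682)) .nil)) .nil)) .leaf) (nat_lit 3108101956295936) (.br (nat_lit 0) (.cons (.br (nat_lit 3) (.cons (.rel (nat_lit 272761872)) .nil)) .nil)) .leaf) (nat_lit 3109215482179098) (.br (nat_lit 0) (.cons (.br (nat_lit 1) (.cons (.rel (nat_lit 20972160)) .nil)) .nil)) (.node .leaf (nat_lit 3109215482432794) (.br (nat_lit 3) (.cons (.br (nat_lit 4) (.cons (.rel (nat_lit 2415923280)) .nil)) .nil)) .leaf))))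

/-- refutations 24 -/
def e24 : EX := (.node (.node .leaf (nat_lit 3109602155379994) (.br (nat_lit 0) (.cons (.br (nat_lit 3) (.cons (.rel (nat_lit 272650242)) .nil)) .nil)) .leaf) (nat_lit 3109602156346106) (.br (nat_lit 0) (.cons (.br (nat_lit 2) (.cons (.rel (nat_lit 138413088)) .nil)) .nil)) .leaf)

/-- refutations 25 -/
def e25 : EX := (.node (.node (.node (.node (.node .leaf (nat_lit 2850420994367619) (.br (nat_lit 1) (.cons (.br (nat_lit 3) (.cons (.rel (nat_lit 285348864)) .nil)) .nil)) .leaf) (nat_lit 2851544388627718) (.br (nat_lit 2) (.cons (.br (nat_lit 3) (.cons (.rel (nat_lit 335626242)) .nil)) .nil)) (.node .leaf (nat_lit 2852306119047225) (.br (nat_lit 1) (.cons (.br (nat_lit 2) (.cons (.rel (nat_lit 100663425)) .nil)) .nil)) .leaf)) (nat_lit 2852306119047354) (.br (nat_lit 0) (.cons (.br (nat_lit 1) (.cons (.rel (nat_lit 25182216)) .nil)) .nil)) (.node (.node .leaf (nat_lit 2852511855470723) (.br (nat_lit 0) (.cons (.br (nat_lit 2) (.cons (.rel (nat_lit 138428544))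 .nil)) .nil)) .leaf) (nat_lit 2855529360593027) (.br (nat_lit 0) (.cons (.br (nat_lit 1) (.cons (.rel (nat_lit 25169952)) .nil)) .nil)) .leaf)) (nat_lit 2856377248647170) (.br (nat_lit 1) (.cons (.br (nat_lit 3) (.cons (.rel (nat_lit 285214752)) .nil)) .nil)) (.node (.node (.node .leaf (nat_lit 2856377251769247) (.br (nat_lit 0) (.cons (.br (nat_lit 2) (.cons (.rel (nat_lit 138739968)) .nil)) .nil)) .leaf) (nat_lit 2856377251783467) (.br (nat_lit 6) (.cons (.br (nat_lit 0) (.cons (.rel (nat_lit 34363936773)) (.cons (.rel (nat_lit 17184393216)) .nil))) .nil)) .leaf) (nat_lit 2856377664157753) (.br (nat_lit 4) (.cons (.br (nat_lit 5) (.cons (.rel (nat_lit 5368709520)) .nil)) .nil)) (.node (.node .leaf (nat_lit 2856377664239747) (.br (nat_lit 1) (.cons (.br (nat_lit 3) (.cons (.rel (nat_lit 285212694)) .nil)) .nil)) .leaf) (nat_lit 2856379346073855) (.br (nat_lit 0) (.cons (.br (nat_lit 1) (.cons (.rel (nat_lit 20972160)) .nil)) .nil)) .leaf))) (nat_lit 2856379346176280) (.br (nat_lit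 1) (.cons (.br (nat_lit 2) (.cons (.rel (nat_lit 100795392)) .nil)) .nil)) (.node (.node (.node (.node .leaf (nat_lit 2856382407967482) (.br (nat_lit 0) (.cons (.br (nat_lit 4) (.cons (.rel (nat_lit 2155872276)) .nil)) .nil)) .leaf) (nat_lit 2856382408222772) (.br (nat_lit 2) (.cons (.br (nat_lit 3) (.cons (.rel (nat_lit 335577105)) .nil)) .nil)) .leaf) (nat_lit 2856382408974467) (.br (nat_lit 1) (.cons (.br (nat_lit 3) (.cons (.rel (nat_lit 285212694)) (.cons (.rel (nat_lit 285213705)) .nil))) .nil)) (.node (.node .leaf (nat_lit 2856382409025667) (.br (nat_lit 5) (.cons (.br (nat_lit 6) (.cons (.rel (nat_lit 21474836628)) .nil)) .nil)) .leaf) (nat_lit 2856382409025717) (.br (nat_lit 3) (.cons (.br (nat_lit 5) (.cons (.rel (nat_lit 4563929088)) .nil)) .nil)) .leaf)) (nat_lit 2856382409483002) (.br (nat_lit 1) (.cons (.br (nat_lit 4) (.cons (.rel (nat_lit 1090781568)) .nil)) .nil)) (.node (.node (.node .leaf (nat_lit 2856382410264707) (.br (nat_lit 0) (.cons (.br (nat_lit 2) (.cons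 (.rel (nat_lit 71585793)) .nil)) .nil)) .leaf) (nat_lit 2857502948502290) (.br (nat_lit 1) (.cons (.br (nat_lit 6) (.cons (.rel (nat_lit 17196908676)) .nil)) .nil)) .leaf) (nat_lit 2861201466437788) (.br (nat_lit 1) (.cons (.br (nat_lit 2) (.cons (.rel (nat_lit 84149256)) .nil)) .nil)) (.node (.node .leaf (nat_lit 2861808056351980) (.br (nat_lit 1) (.cons (.br (nat_lit 3) (.cons (.rel (nat_lit 285214752)) .nil)) .nil)) .leaf) (nat_lit 2862014969684099) (.br (nat_lit 1) (.cons (.br (nat_lit 3) (.cons (.rel (nat_lit 570426384)) .nil)) .nil)) .leaf))))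

/-- refutations 26 -/
def e26 : EX := (.node (.node (.node (.node (.node (.node (.node .leaf (nat_lit 3289757165613116) (.br (nat_lit 1) (.cons (.br (nat_lit 5) (.cons (.rel (nat_lit 4329046032)) .nil)) .nil)) .leaf) (nat_lit 3289757166073986) (.br (nat_lit 0) (.cons (.br (nat_lit 2) (.cons (.rel (nat_lit 138412041)) .nil)) .nil)) .leaf) (nat_lit 3289758601819388) (.br (nat_lit 2) (.cons (.br (nat_lit 4) (.cons (.rel (nat_lit 1140998145)) .nil)) .nil)) (.node .leaf (nat_lit 3289761863695612) (.br (nat_lit 0) (.cons (.br (nat_lit 1) (.cons (.rel (nat_lit 37781508)) .nil)) .nil)) .leaf)) (nat_lit 3289761865787522) (.br (nat_lit 1) (.cons (.br (nat_lit 3) (.cons (.rel (nat_lit 285245520)) .nil)) .nil)) (.node (.node .leaf (nat_lit 3289761865788192) (.br (nat_lit 1) (.cons (.br (nat_lit 3) (.cons (.rel (nat_lit 285212694)) (.cons (.rel (nat_lit 285216897)) .nil))) .nil)) .leaf) (nat_lit 3289790854327034) (.br (nat_lit 4) (.cons (.br (nat_lit 3) (.cons (.rel (nat_lit 1610613825)) (.cons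 (.rel (nat_lit 2684616720)) (.cons (.rel (nat_lit 1342182672)) (.cons (.rel (nat_lit 1610629137)) (.cons (.rel (nat_lit 1342193925)) .nil)))))) (.cons (.br (nat_lit 3) (.cons (.rel (nat_lit 1342193925)) (.cons (.rel (nat_lit 2684616720)) (.cons (.rel (nat_lit 1342701600)) (.cons (.rel (nat_lit 1342193925)) (.cons (.rel (nat_lit 1610613825)) .nil)))))) .nil))) (.node .leaf (nat_lit 3289790854788448) (.br (nat_lit 1) (.cons (.br (nat_lit 3) (.cons (.rel (nat_lit 285216897)) (.cons (.rel (nat_lit 285213705)) .nil))) .nil)) .leaf))) (nat_lit 3289790855790051) (.br (nat_lit 2) (.cons (.br (nat_lit 1) (.cons (.rel (nat_lit 83919360)) (.cons (.rel (nat_lit 84230208)) .nil))) .nil)) (.node (.node (.node .leaf (nat_lit 3289790856097948) (.br (nat_lit 1) (.cons (.br (nat_lit 3) (.cons (.br (nat_lit 6) (.cons (.rel (nat_lit 17196917760)) (.cons (.rel (nat_lit 17448337536)) .nil))) (.cons (.rel (nat_lit 285286416)) .nil))) .nil)) .leaf) (nat_lit 3289790856098554) (.br (nat_lit 1) (.cons (.br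 (nat_lit 5) (.cons (.rel (nat_lit 4311875712)) .nil)) .nil)) (.node .leaf (nat_lit 3289790856098603) (.br (nat_lit 6) (.cons (.br (nat_lit 4) (.cons (.rel (nat_lit 18253873440)) (.cons (.rel (nat_lit 18253621248)) (.cons (.rel (nat_lit 18253621248)) .nil)))) .nil)) .leaf)) (nat_lit 3289790856771740) (.br (nat_lit 6) (.cons (.br (nat_lit 4) (.cons (.rel (nat_lit 18253616226)) (.cons (.rel (nat_lit 18253873440)) .nil))) .nil)) (.node (.node .leaf (nat_lit 3289790856877307) (.br (nat_lit 0) (.cons (.br (nat_lit 1) (.cons (.rel (nat_lit 21331968)) .nil)) .nil)) .leaf) (nat_lit 3289790857042195) (.br (nat_lit 3) (.cons (.br (nat_lit 4) (.cons (.rel (nat_lit 2684616720)) .nil)) .nil)) (.node .leaf (nat_lit 3289790857042600) (.br (nat_lit 3) (.cons (.br (nat_lit 6) (.cons (.rel (nat_lit 17448321033)) .nil)) .nil)) .leaf)))) (nat_lit 3289790857043231) (.br (nat_lit 0) (.cons (.br (nat_lit 1) (.cons (.rel (nat_lit 21254208)) .nil)) .nil)) (.node (.node (.node (.node .leaf (nat_lit 3289791494859552)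 (.br (nat_lit 1) (.cons (.br (nat_lit 2) (.cons (.rel (nat_lit 100925712)) .nil)) .nil)) .leaf) (nat_lit 3289791508820020) (.br (nat_lit 0) (.cons (.br (nat_lit 4) (.cons (.rel (nat_lit 1082200320)) (.cons (.rel (nat_lit 1077936168)) .nil))) .nil)) (.node .leaf (nat_lit 3289791508820225) (.br (nat_lit 4) (.cons (.br (nat_lit 6) (.cons (.rel (nat_lit 18253680672)) .nil)) .nil)) .leaf)) (nat_lit 3289791508821504) (.br (nat_lit 4) (.cons (.br (nat_lit 5) (.cons (.rel (nat_lit 5369249796)) .nil)) .nil)) (.node (.node .leaf (nat_lit 3289791511137067) (.br (nat_lit 0) (.cons (.br (nat_lit 2) (.cons (.rel (nat_lit 71320068)) (.cons (.rel (nat_lit 75530304)) .nil))) .nil)) .leaf) (nat_lit 3289791511636895) (.br (nat_lit 1) (.cons (.br (nat_lit 3) (.cons (.rel (nat_lit 285213705)) (.cons (.rel (nat_lit 285213705)) .nil))) (.cons (.br (nat_lit 3) (.cons (.rel (nat_lit 301991172)) (.cons (.rel (nat_lit 285229209)) .nil))) .nil))) (.node .leaf (nat_lit 3289793711859089) (.br (nat_lit 6) (.cons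 (.br (nat_lit 0) (.cons (.rel (nat_lit 17188261968)) (.cons (.rel (nat_lit 34368127248)) .nil))) .nil)) .leaf))) (nat_lit 3289793712420218) (.br (nat_lit 3) (.cons (.br (nat_lit 5) (.cons (.rel (nat_lit 8858378244)) .nil)) .nil)) (.node (.node (.node .leaf (nat_lit 3289795600799771) (.br (nat_lit 0) (.cons (.br (nat_lit 1) (.cons (.rel (nat_lit 22085904)) .nil)) .nil)) .leaf) (nat_lit 3289796252854452) (.br (nat_lit 1) (.cons (.br (nat_lit 3) (.cons (.rel (nat_lit 285214752)) .nil)) .nil)) (.node .leaf (nat_lit 3289796253607313) (.br (nat_lit 3) (.cons (.br (nat_lit 6) (.cons (.rel (nat_lit 34896625728)) (.cons (.rel (nat_lit 17448321033)) .nil))) (.cons (.br (nat_lit 6) (.cons (.rel (nat_lit 17717264640)) (.cons (.rel (nat_lit 17717264640)) .nil))) .nil))) .leaf)) (nat_lit 3289796254167196) (.br (nat_lit 0) (.cons (.br (nat_lit 4) (.cons (.rel (nat_lit 1082200320)) (.cons (.rel (nat_lit 2155872276)) .nil))) .nil)) (.node (.node .leaf (nat_lit 3289796254167802) (.br (nat_lit 1)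 (.cons (.br (nat_lit 5) (.cons (.rel (nat_lit 4311875712)) .nil)) .nil)) .leaf) (nat_lit 3289796254894891) (.br (nat_lit 0) (.cons (.br (nat_lit 6) (.cons (.rel (nat_lit 34368127248)) (.cons (.rel (nat_lit 17184330768)) .nil))) (.cons (.br (nat_lit 5) (.cons (.rel (nat_lit 4303884288)) (.cons (.rel (nat_lit 8594194944)) (.cons (.rel (nat_lit 8598324228)) .nil)))) .nil))) (.node .leaf (nat_lit 3290039650355887) (.br (nat_lit 4) (.cons (.br (nat_lit 0) (.cons (.rel (nat_lit 1077957696)) (.cons (.rel (nat_lit 1077938181)) .nil))) .nil)) .leaf))))) (nat_lit 3290039650394762) (.br (nat_lit 0) (.cons (.br (nat_lit 1) (.cons (.rel (nat_lit 21235752)) .nil)) .nil)) (.node (.node (.node (.node (.node .leaf (nat_lit 3290039962330498) (.br (nat_lit 1) (.cons (.br (nat_lit 6) (.cons (.rel (nat_lit 34393294209)) .nil)) .nil)) .leaf) (nat_lit 3290039962366012) (.br (nat_lit 1) (.cons (.br (nat_lit 6) (.cons (.rel (nat_lit 17196651024)) .nil)) .nil)) (.node .leaf (nat_lit 3290039962430202) (.br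 (nat_lit 4) (.cons (.br (nat_lit 0) (.cons (.rel (nat_lit 1077936168)) (.cons (.rel (nat_lit 1077936168)) (.cons (.rel (nat_lit 1082200320)) (.cons (.rel (nat_lit 1077936168)) .nil))))) (.cons (.br (nat_lit 0) (.cons (.rel (nat_lit 1078214913)) (.cons (.rel (nat_lit 1077957696)) (.cons (.rel (nat_lit 1077973008)) (.cons (.rel (nat_lit 1077944385)) .nil))))) .nil))) .leaf)) (nat_lit 3290039962683672) (.br (nat_lit 6) (.cons (.br (nat_lit 1) (.cons (.rel (nat_lit 17196908676)) (.cons (.rel (nat_lit 17197039632)) (.cons (.rel (nat_lit 17196917760)) (.cons (.rel (nat_lit 17196651024)) (.cons (.rel (nat_lit 17196778113)) (.cons (.rel (nat_lit 17196908676)) .nil))))))) (.cons (.br (nat_lit 0) (.cons (.rel (nat_lit 17184330768)) (.cons (.rel (nat_lit 17188339728)) (.cons (.rel (nat_lit 17184325698)) .nil)))) .nil))) (.node (.node .leaf (nat_lit 3290039962684179) (.br (nat_lit 0) (.cons (.br (nat_lit 2) (.cons (.rel (nat_lit 71303745)) .nil)) .nil)) .leaf) (nat_lit 3290039962837122) (.br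 (nat_lit 4) (.cons (.br (nat_lit 6) (.cons (.rel (nat_lit 18253631490)) .nil)) .nil)) (.node .leaf (nat_lit 3290039962837803) (.br (nat_lit 5) (.cons (.br (nat_lit 6) (.cons (.rel (nat_lit 21474853953)) .nil)) .nil)) .leaf))) (nat_lit 3290039962838418) (.br (nat_lit 0) (.cons (.br (nat_lit 1) (.cons (.rel (nat_lit 21234693)) .nil)) .nil)) (.node (.node (.node .leaf (nat_lit 3290039962943644) (.br (nat_lit 6) (.cons (.br (nat_lit 4) (.cons (.rel (nat_lit 18253680672)) (.cons (.rel (nat_lit 18253611153)) .nil))) .nil)) .leaf) (nat_lit 3290039962944250) (.br (nat_lit 4) (.cons (.br (nat_lit 5) (.cons (.rel (nat_lit 5369763840)) (.cons (.rel (nat_lit 9663676425)) (.cons (.rel (nat_lit 6442483776)) .nil)))) .nil)) (.node .leaf (nat_lit 3290039962944275) (.br (nat_lit 0) (.cons (.br (nat_lit 2) (.cons (.rel (nat_lit 71303745)) .nil)) .nil)) .leaf)) (nat_lit 3290039963585198) (.br (nat_lit 0) (.cons (.br (nat_lit 1) (.cons (.rel (nat_lit 37765185)) .nil)) .nil)) (.node (.node .leaf (nat_lit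 3290039963639964) (.br (nat_lit 4) (.cons (.br (nat_lit 6) (.cons (.rel (nat_lit 18253644801)) (.cons (.rel (nat_lit 18253631490)) .nil))) .nil)) .leaf) (nat_lit 3290039964199068) (.br (nat_lit 1) (.cons (.br (nat_lit 4) (.cons (.rel (nat_lit 1090535460)) .nil)) .nil)) (.node .leaf (nat_lit 3290039964967722) (.br (nat_lit 0) (.cons (.br (nat_lit 1) (.cons (.rel (nat_lit 38012160)) .nil)) .nil)) .leaf)))) (nat_lit 3290039965183328) (.br (nat_lit 0) (.cons (.br (nat_lit 1) (.cons (.rel (nat_lit 25182216)) .nil)) .nil)) (.node (.node (.node (.node .leaf (nat_lit 3290039965442859) (.br (nat_lit 1) (.cons (.br (nat_lit 6) (.cons (.rel (nat_lit 17213442048)) .nil)) .nil)) .leaf) (nat_lit 3290039965451047) (.br (nat_lit 0) (.cons (.br (nat_lit 1) (.cons (.rel (nat_lit 25169952)) .nil)) .nil)) (.node .leaf (nat_lit 3290039965491987) (.br (nat_lit 0) (.cons (.br (nat_lit 3) (.cons (.rel (nat_lit 542118144)) .nil)) .nil)) .leaf)) (nat_lit 3290040595718201) (.br (nat_lit 1) (.cons (.br (nat_lit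 2) (.cons (.rel (nat_lit 100795392)) .nil)) .nil)) (.node (.node .leaf (nat_lit 3290042609549468) (.br (nat_lit 6) (.cons (.br (nat_lit 1) (.cons (.rel (nat_lit 34376515728)) (.cons (.rel (nat_lit 17196941313)) .nil))) .nil)) .leaf) (nat_lit 3290042610804892) (.br (nat_lit 4) (.cons (.br (nat_lit 6) (.cons (.rel (nat_lit 18253612164)) .nil)) .nil)) (.node .leaf (nat_lit 3290042612097180) (.br (nat_lit 1) (.cons (.br (nat_lit 3) (.cons (.rel (nat_lit 285214752)) .nil)) .nil)) .leaf))) (nat_lit 3290211761058443) (.br (nat_lit 1) (.cons (.br (nat_lit 2) (.cons (.rel (nat_lit 83919360)) .nil)) .nil)) (.node (.node (.node .leaf (nat_lit 3290211761625743) (.br (nat_lit 0) (.cons (.br (nat_lit 5) (.cons (.rel (nat_lit 4303884288)) .nil)) .nil)) .leaf) (nat_lit 3290211761635484) (.br (nat_lit 1) (.cons (.br (nat_lit 6) (.cons (.rel (nat_lit 17197039632)) .nil)) .nil)) (.node .leaf (nat_lit 3290211761635510) (.br (nat_lit 3) (.cons (.br (nat_lit 6) (.cons (.rel (nat_lit 34896625728)) .nil))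 .nil)) .leaf)) (nat_lit 3290211761636753) (.br (nat_lit 1) (.cons (.br (nat_lit 4) (.cons (.rel (nat_lit 1090535460)) (.cons (.rel (nat_lit 1107821568)) (.cons (.rel (nat_lit 1090588800)) .nil)))) .nil)) (.node (.node .leaf (nat_lit 3290211763628218) (.br (nat_lit 0) (.cons (.br (nat_lit 2) (.cons (.rel (nat_lit 71565456)) .nil)) .nil)) .leaf) (nat_lit 3290211763837114) (.br (nat_lit 4) (.cons (.br (nat_lit 5) (.cons (.rel (nat_lit 5369233473)) .nil)) .nil)) (.node .leaf (nat_lit 3290211763837690) (.br (nat_lit 4) (.cons (.br (nat_lit 1) (.cons (.rel (nat_lit 1090588800)) (.cons (.rel (nat_lit 1090537473)) (.cons (.rel (nat_lit 2165309760)) (.cons (.rel (nat_lit 1090524162)) .nil))))) (.cons (.br (nat_lit 0) (.cons (.rel (nat_lit 1077937170)) (.cons (.rel (nat_lit 2152202496)) (.cons (.rel (nat_lit 1077957696)) .nil)))) .nil))) .leaf))))))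

/-- refutations 27 -/
def e27 : EX := (.node (.node (.node (.node .leaf (nat_lit 3290272625126777) (.br (nat_lit 0) (.cons (.br (nat_lit 1) (.cons (.rel (nat_lit 25169952)) .nil)) .nil)) .leaf) (nat_lit 3290812557924508) (.br (nat_lit 1) (.cons (.br (nat_lit 2) (.cons (.rel (nat_lit 100732944)) .nil)) .nil)) .leaf) (nat_lit 3290818454612124) (.br (nat_lit 2) (.cons (.br (nat_lit 4) (.cons (.rel (nat_lit 1140850722)) .nil)) .nil)) (.node .leaf (nat_lit 3290818455019676) (.br (nat_lit 1) (.cons (.br (nat_lit 4) (.cons (.rel (nat_lit 1090524162)) .nil)) .nil)) .leaf)) (nat_lit 3291253481206017) (.br (nat_lit 0) (.cons (.br (nat_lit 1) (.cons (.rel (nat_lit 41943360)) .nil)) .nil)) (.node (.node (.node .leaf (nat_lit 3291259236455025) (.br (nat_lit 1) (.cons (.br (nat_lit 4) (.cons (.rel (nat_lit 2181058560)) .nil)) .nil)) .leaf) (nat_lit 3291351612189302) (.br (nat_lit 4) (.cons (.br (nat_lit 3) (.cons (.rel (nat_lit 1610613825)) (.cons (.rel (nat_lit 1342701600)) .nil))) .nil))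 .leaf) (nat_lit 3291896043062148) (.br (nat_lit 1) (.cons (.br (nat_lit 4) (.cons (.rel (nat_lit 1090524162)) .nil)) .nil)) (.node .leaf (nat_lit 3291896043126940) (.br (nat_lit 0) (.cons (.br (nat_lit 3) (.cons (.rel (nat_lit 272761872)) .nil)) .nil)) .leaf)))

/-- refutations 28 -/
def e28 : EX := (.node (.node (.node (.node (.node (.node .leaf (nat_lit 3291989571656366) (.br (nat_lit 1) (.cons (.br (nat_lit 2) (.cons (.rel (nat_lit 84152448)) .nil)) .nil)) .leaf) (nat_lit 3291989878096057) (.br (nat_lit 1) (.cons (.br (nat_lit 2) (.cons (.rel (nat_lit 83919360)) .nil)) .nil)) .leaf) (nat_lit 3291989879300252) (.br (nat_lit 6) (.cons (.br (nat_lit 2) (.cons (.rel (nat_lit 17247240261)) (.cons (.rel (nat_lit 17247240261)) .nil))) .nil)) (.node .leaf (nat_lit 3291989880594588) (.br (nat_lit 1) (.cons (.br (nat_lit 3) (.cons (.rel (nat_lit 285286416)) .nil)) .nil)) .leaf)) (nat_lit 3291995696291094) (.br (nat_lit 2) (.cons (.br (nat_lit 3) (.cons (.rel (nat_lit 335544468)) .nil))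 .nil)) (.node (.node .leaf (nat_lit 3291995697785137) (.br (nat_lit 2) (.cons (.br (nat_lit 3) (.cons (.rel (nat_lit 335553552)) .nil)) .nil)) .leaf) (nat_lit 3292316031357805) (.br (nat_lit 3) (.cons (.br (nat_lit 6) (.cons (.rel (nat_lit 17448321033)) .nil)) .nil)) (.node .leaf (nat_lit 3292316033404984) (.br (nat_lit 1) (.cons (.br (nat_lit 6) (.cons (.rel (nat_lit 17196651024)) .nil)) .nil)) .leaf))) (nat_lit 3292316294996098) (.br (nat_lit 0) (.cons (.br (nat_lit 2) (.cons (.rel (nat_lit 71599104)) .nil)) .nil)) (.node (.node (.node .leaf (nat_lit 3292316295279247) (.br (nat_lit 0) (.cons (.br (nat_lit 4) (.cons (.rel (nat_lit 1077936168)) (.cons (.rel (nat_lit 1078001808)) .nil))) .nil)) .leaf) (nat_lit 3292316296251448) (.br (nat_lit 1) (.cons (.br (nat_lit 2) (.cons (.rel (nat_lit 84152448)) .nil)) .nil)) (.node .leaf (nat_lit 3292316297542508) (.br (nat_lit 1) (.cons (.br (nat_lit 2) (.cons (.rel (nat_lit 167788800)) .nil)) .nil)) .leaf)) (nat_lit 3292316297812598) (.br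 (nat_lit 1) (.cons (.br (nat_lit 3) (.cons (.rel (nat_lit 570426384)) .nil)) .nil)) (.node (.node .leaf (nat_lit 3292316297812730) (.br (nat_lit 0) (.cons (.br (nat_lit 1) (.cons (.rel (nat_lit 25182216)) .nil)) .nil)) .leaf) (nat_lit 3292316298109058) (.br (nat_lit 1) (.cons (.br (nat_lit 3) (.cons (.br (nat_lit 4) (.cons (.rel (nat_lit 1342193925)) .nil)) .nil)) .nil)) (.node .leaf (nat_lit 3292316298110330) (.br (nat_lit 1) (.cons (.br (nat_lit 5) (.cons (.rel (nat_lit 8607777024)) (.cons (.rel (nat_lit 4328527104)) .nil))) .nil)) .leaf)))) (nat_lit 3295118717864092) (.br (nat_lit 0) (.cons (.br (nat_lit 6) (.cons (.rel (nat_lit 17184064032)) .nil)) .nil)) (.node (.node (.node (.node .leaf (nat_lit 3295118717864863) (.br (nat_lit 2) (.cons (.br (nat_lit 3) (.cons (.rel (nat_lit 335544468)) .nil)) .nil)) .leaf) (nat_lit 3295119473053852) (.br (nat_lit 4) (.cons (.br (nat_lit 6) (.cons (.rel (nat_lit 19327353348)) .nil)) .nil)) (.node .leaf (nat_lit 3295121967392924) (.br (nat_lit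 0) (.cons (.br (nat_lit 4) (.cons (.rel (nat_lit 1077936168)) .nil)) .nil)) .leaf)) (nat_lit 3295122011820162) (.br (nat_lit 0) (.cons (.br (nat_lit 3) (.cons (.rel (nat_lit 272663553)) .nil)) .nil)) (.node (.node .leaf (nat_lit 3295122011842716) (.br (nat_lit 4) (.cons (.br (nat_lit 6) (.cons (.rel (nat_lit 35434659840)) (.cons (.rel (nat_lit 18254676480)) (.cons (.rel (nat_lit 36507227136)) .nil)))) (.cons (.br (nat_lit 6) (.cons (.rel (nat_lit 18253680672)) (.cons (.br (nat_lit 0) (.cons (.rel (nat_lit 1077936168)) (.cons (.rel (nat_lit 2155872276)) (.cons (.rel (nat_lit 1077936168)) (.cons (.br (nat_lit 3) (.cons (.rel (nat_lit 2415985728)) (.cons (.rel (nat_lit 2415985728)) (.cons (.rel (nat_lit 545264640)) (.cons (.rel (nat_lit 272646228)) (.cons (.rel (nat_lit 2684616720)) .nil)))))) (.cons (.rel (nat_lit 2155872276)) .nil)))))) (.cons (.rel (nat_lit 18253631490)) .nil)))) (.cons (.br (nat_lit 6) (.cons (.br (nat_lit 0) (.cons (.rel (nat_lit 1077936168)) (.cons (.rel (nat_lit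 1078067268)) (.cons (.rel (nat_lit 1077936168)) (.cons (.rel (nat_lit 17184330768)) (.cons (.rel (nat_lit 1077936168)) .nil)))))) (.cons (.rel (nat_lit 35433480456)) (.cons (.rel (nat_lit 18253644801)) .nil)))) .nil)))) .leaf) (nat_lit 3295122012356764) (.br (nat_lit 6) (.cons (.br (nat_lit 0) (.cons (.rel (nat_lit 17184064032)) (.cons (.rel (nat_lit 17184393216)) (.cons (.rel (nat_lit 34363949073)) (.cons (.rel (nat_lit 34363938834)) (.cons (.rel (nat_lit 17184393216)) .nil)))))) (.cons (.br (nat_lit 4) (.cons (.rel (nat_lit 18254676480)) (.cons (.br (nat_lit 3) (.cons (.rel (nat_lit 17448337536)) (.cons (.rel (nat_lit 17448337536)) (.cons (.rel (nat_lit 17448304710)) (.cons (.br (nat_lit 0) (.cons (.rel (nat_lit 17184064032)) (.cons (.rel (nat_lit 272640000)) (.cons (.rel (nat_lit 17188520196)) (.cons (.rel (nat_lit 545264640)) (.cons (.rel (nat_lit 17184064032)) .nil)))))) (.cons (.rel (nat_lit 17717264640)) (.cons (.rel (nat_lit 17448308769)) .nil))))))) (.cons (.rel (nat_lit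 35433480456)) (.cons (.rel (nat_lit 35433480456)) (.cons (.rel (nat_lit 35433480456)) .nil)))))) .nil))) (.node .leaf (nat_lit 3295122012357868) (.br (nat_lit 1) (.cons (.br (nat_lit 3) (.cons (.rel (nat_lit 285214752)) .nil)) .nil)) .leaf))) (nat_lit 3295122014288028) (.br (nat_lit 3) (.cons (.br (nat_lit 4) (.cons (.rel (nat_lit 1342177602)) (.cons (.rel (nat_lit 2416050177)) .nil))) (.cons (.br (nat_lit 6) (.cons (.rel (nat_lit 17448337536)) (.cons (.rel (nat_lit 17717264640)) (.cons (.rel (nat_lit 17448322080)) .nil)))) .nil))) (.node (.node (.node .leaf (nat_lit 3295122014802076) (.br (nat_lit 4) (.cons (.br (nat_lit 3) (.cons (.rel (nat_lit 1343234112)) (.cons (.rel (nat_lit 1342182672)) (.cons (.rel (nat_lit 1343234112)) (.cons (.rel (nat_lit 1342177602)) .nil))))) (.cons (.br (nat_lit 6) (.cons (.rel (nat_lit 18253611153)) (.cons (.rel (nat_lit 18253611153)) (.cons (.rel (nat_lit 36507227136)) (.cons (.rel (nat_lit 18253612164)) .nil))))) .nil))) .leaf) (nat_lit 3295122014855298)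 (.br (nat_lit 3) (.cons (.br (nat_lit 4) (.cons (.rel (nat_lit 1342245120)) .nil)) .nil)) (.node .leaf (nat_lit 3295122014855819) (.br (nat_lit 0) (.cons (.br (nat_lit 1) (.cons (.rel (nat_lit 22160640)) .nil)) .nil)) .leaf)) (nat_lit 3295122532190488) (.br (nat_lit 6) (.cons (.br (nat_lit 0) (.cons (.rel (nat_lit 17184325698)) (.cons (.rel (nat_lit 17184330768)) (.cons (.rel (nat_lit 17184064032)) (.cons (.rel (nat_lit 17184064032)) .nil))))) .nil)) (.node (.node .leaf (nat_lit 3295122534895896) (.br (nat_lit 4) (.cons (.br (nat_lit 6) (.cons (.rel (nat_lit 18253627476)) (.cons (.rel (nat_lit 18253611153)) .nil))) .nil)) .leaf) (nat_lit 3295122534949675) (.br (nat_lit 0) (.cons (.br (nat_lit 1) (.cons (.rel (nat_lit 23068692)) .nil)) .nil)) (.node .leaf (nat_lit 3295196673014417) (.br (nat_lit 0) (.cons (.br (nat_lit 1) (.cons (.rel (nat_lit 41943360)) .nil)) .nil)) .leaf)))))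

/-- refutations 29 -/
def e29 : EX := (.node (.node (.node (.node (.node (.node .leaf (nat_lit 3295328170272924) (.br (nat_lit 4) (.cons (.br (nat_lit 6) (.cons (.rel (nat_lit 18253631490)) .nil)) .nil)) .leaf) (nat_lit 3295328170273530) (.br (nat_lit 6) (.cons (.br (nat_lit 0) (.cons (.rel (nat_lit 34368201984)) (.cons (.rel (nat_lit 17184342021)) .nil))) .nil)) .leaf) (nat_lit 3295328171483292) (.br (nat_lit 2) (.cons (.br (nat_lit 4) (.cons (.rel (nat_lit 2281701393)) .nil)) .nil)) (.node (.node .leaf (nat_lit 3295369128817900) (.br (nat_lit 0) (.cons (.br (nat_lit 1) (.cons (.rel (nat_lit 25182216)) .nil)) .nil)) .leaf) (nat_lit 3295545801853805) (.br (nat_lit 0) (.cons (.br (nat_lit 3) (.cons (.rel (nat_lit 272630916)) .nil)) .nil)) .leaf)) (nat_lit 3295545802838172) (.br (nat_lit 3) (.cons (.br (nat_lit 4) (.cons (.rel (nat_lit 1342182672)) .nil)) .nil)) (.node (.node (.node .leaf (nat_lit 3295552119459996) (.br (nat_lit 3) (.cons (.br (nat_lit 5) (.cons (.rel (nat_lit 4831839300))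 .nil)) .nil)) .leaf) (nat_lit 3295597650011414) (.br (nat_lit 2) (.cons (.br (nat_lit 4) (.cons (.rel (nat_lit 2281701393)) .nil)) .nil)) .leaf) (nat_lit 3295597653109663) (.br (nat_lit 1) (.cons (.br (nat_lit 2) (.cons (.rel (nat_lit 100679748)) .nil)) .nil)) (.node .leaf (nat_lit 3295640127046944) (.br (nat_lit 3) (.cons (.br (nat_lit 4) (.cons (.rel (nat_lit 1342245120)) .nil)) .nil)) .leaf))) (nat_lit 3295640338084491) (.br (nat_lit 0) (.cons (.br (nat_lit 1) (.cons (.rel (nat_lit 21254208)) .nil)) .nil)) (.node (.node (.node (.node .leaf (nat_lit 3295640338084520) (.br (nat_lit 0) (.cons (.br (nat_lit 4) (.cons (.rel (nat_lit 1077936168)) .nil)) .nil)) .leaf) (nat_lit 3295640599683702) (.br (nat_lit 3) (.cons (.br (nat_lit 6) (.cons (.rel (nat_lit 17448321033)) .nil)) .nil)) .leaf) (nat_lit 3295640599683849) (.br (nat_lit 2) (.cons (.br (nat_lit 3) (.cons (.rel (nat_lit 403177473)) .nil)) .nil)) (.node .leaf (nat_lit 3295640599683883) (.br (nat_lit 3) (.cons (.br (nat_lit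 6) (.cons (.rel (nat_lit 17448321033)) .nil)) .nil)) .leaf)) (nat_lit 3295640599684347) (.br (nat_lit 3) (.cons (.br (nat_lit 1) (.cons (.rel (nat_lit 285216897)) (.cons (.rel (nat_lit 303054912)) .nil))) .nil)) (.node (.node (.node .leaf (nat_lit 3295640599783580) (.br (nat_lit 5) (.cons (.br (nat_lit 2) (.cons (.rel (nat_lit 4362078210)) (.cons (.rel (nat_lit 4362080400)) (.cons (.rel (nat_lit 4362080400)) .nil)))) (.cons (.br (nat_lit 2) (.cons (.rel (nat_lit 4362078210)) (.cons (.br (nat_lit 3) (.cons (.rel (nat_lit 335561793)) (.cons (.rel (nat_lit 4697636928)) (.cons (.rel (nat_lit 335553552)) .nil)))) (.cons (.rel (nat_lit 4362078210)) .nil)))) .nil))) .leaf) (nat_lit 3295640600183584) (.br (nat_lit 1) (.cons (.br (nat_lit 3) (.cons (.rel (nat_lit 570426384)) (.cons (.rel (nat_lit 285212694)) .nil))) .nil)) .leaf) (nat_lit 3295640600184190) (.br (nat_lit 2) (.cons (.br (nat_lit 3) (.cons (.rel (nat_lit 335675424)) .nil)) .nil)) (.node .leaf (nat_lit 3295640600191106) (.br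 (nat_lit 3) (.cons (.br (nat_lit 6) (.cons (.br (nat_lit 0) (.cons (.rel (nat_lit 34363950084)) (.cons (.rel (nat_lit 17186160708)) (.cons (.rel (nat_lit 277348356)) .nil)))) .nil)) .nil)) .leaf)))) (nat_lit 3295640600191738) (.br (nat_lit 0) (.cons (.br (nat_lit 4) (.cons (.rel (nat_lit 1083244545)) (.cons (.rel (nat_lit 1077936168)) .nil))) .nil)) (.node (.node (.node (.node (.node .leaf (nat_lit 3295640600192378) (.br (nat_lit 0) (.cons (.br (nat_lit 3) (.cons (.br (nat_lit 6) (.cons (.rel (nat_lit 34896625728)) .nil)) .nil)) .nil)) .leaf) (nat_lit 3295640601002140) (.br (nat_lit 5) (.cons (.br (nat_lit 6) (.cons (.rel (nat_lit 21474845712)) .nil)) .nil)) .leaf) (nat_lit 3295640601003296) (.br (nat_lit 6) (.cons (.br (nat_lit 2) (.cons (.rel (nat_lit 34426848324)) (.cons (.rel (nat_lit 34493957376)) .nil))) .nil)) (.node .leaf (nat_lit 3295640601055362) (.br (nat_lit 6) (.cons (.br (nat_lit 3) (.cons (.rel (nat_lit 17448304710)) (.cons (.rel (nat_lit 34896625728)) .nil))) .nil))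 .leaf)) (nat_lit 3295640601056544) (.br (nat_lit 0) (.cons (.br (nat_lit 1) (.cons (.rel (nat_lit 21234693)) .nil)) .nil)) (.node (.node (.node .leaf (nat_lit 3295640601056642) (.br (nat_lit 1) (.cons (.br (nat_lit 6) (.cons (.rel (nat_lit 17213423712)) .nil)) .nil)) .leaf) (nat_lit 3295640602230161) (.br (nat_lit 3) (.cons (.br (nat_lit 5) (.cons (.rel (nat_lit 4831839300)) (.cons (.rel (nat_lit 4563403077)) .nil))) .nil)) .leaf) (nat_lit 3295640602331923) (.br (nat_lit 3) (.cons (.br (nat_lit 1) (.cons (.rel (nat_lit 285213705)) (.cons (.rel (nat_lit 285212694)) .nil))) .nil)) (.node .leaf (nat_lit 3295640602499248) (.br (nat_lit 1) (.cons (.br (nat_lit 3) (.cons (.rel (nat_lit 285230208)) .nil)) .nil)) .leaf))) (nat_lit 3295640602499702) (.br (nat_lit 6) (.cons (.br (nat_lit 3) (.cons (.rel (nat_lit 17448321033)) (.cons (.rel (nat_lit 17448322080)) .nil))) .nil)) (.node (.node (.node (.node .leaf (nat_lit 3295640602782496) (.br (nat_lit 6) (.cons (.br (nat_lit 1) (.cons (.rel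 (nat_lit 34376549376)) (.cons (.rel (nat_lit 17196908676)) .nil))) .nil)) .leaf) (nat_lit 3295640602782623) (.br (nat_lit 3) (.cons (.br (nat_lit 6) (.cons (.rel (nat_lit 17448322080)) .nil)) .nil)) .leaf) (nat_lit 3295643357132129) (.br (nat_lit 1) (.cons (.br (nat_lit 3) (.cons (.rel (nat_lit 285286416)) .nil)) .nil)) (.node .leaf (nat_lit 3295643358403347) (.br (nat_lit 0) (.cons (.br (nat_lit 3) (.cons (.rel (nat_lit 272640000)) .nil)) .nil)) .leaf)) (nat_lit 3295645968392992) (.br (nat_lit 4) (.cons (.br (nat_lit 5) (.cons (.rel (nat_lit 6442450950)) .nil)) .nil)) (.node (.node (.node .leaf (nat_lit 3295646576900252) (.br (nat_lit 1) (.cons (.br (nat_lit 3) (.cons (.rel (nat_lit 570426384)) .nil)) .nil)) .leaf) (nat_lit 3295646577885340) (.br (nat_lit 0) (.cons (.br (nat_lit 3) (.cons (.rel (nat_lit 541327368)) .nil)) .nil)) .leaf) (nat_lit 3295646578140691) (.br (nat_lit 1) (.cons (.br (nat_lit 2) (.cons (.rel (nat_lit 100732944)) .nil)) .nil)) (.node .leaf (nat_lit 3295646579485327)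 (.br (nat_lit 6) (.cons (.br (nat_lit 3) (.cons (.rel (nat_lit 34896625728)) (.cons (.rel (nat_lit 17448308769)) .nil))) .nil)) .leaf)))))

/-- refutations 30 -/
def e30 : EX := (.node (.node (.node (.node (.node (.node (.node .leaf (nat_lit 3296181922114812) (.br (nat_lit 1) (.cons (.br (nat_lit 4) (.cons (.rel (nat_lit 1090666560)) .nil)) .nil)) .leaf) (nat_lit 3296181922520542) (.br (nat_lit 0) (.cons (.br (nat_lit 4) (.cons (.rel (nat_lit 2155872276)) .nil)) .nil)) .leaf) (nat_lit 3296181922539557) (.br (nat_lit 0) (.cons (.br (nat_lit 1) (.cons (.rel (nat_lit 21233682)) .nil)) .nil)) (.node (.node .leaf (nat_lit 3296181923670671) (.br (nat_lit 4) (.cons (.br (nat_lit 0) (.cons (.rel (nat_lit 1077936168)) (.cons (.rel (nat_lit 1077936168)) .nil))) .nil)) .leaf) (nat_lit 3296181923916557) (.br (nat_lit 1) (.cons (.br (nat_lit 6) (.cons (.rel (nat_lit 17213423712)) .nil)) .nil)) .leaf)) (nat_lit 3296182000522723) (.br (nat_lit 0) (.cons (.br (nat_lit 1) (.cons (.rel (nat_lit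 21233682)) .nil)) .nil)) (.node (.node (.node .leaf (nat_lit 3296182001754268) (.br (nat_lit 0) (.cons (.br (nat_lit 2) (.cons (.rel (nat_lit 71303745)) .nil)) .nil)) .leaf) (nat_lit 3296182003104544) (.br (nat_lit 0) (.cons (.br (nat_lit 6) (.cons (.rel (nat_lit 17184330768)) .nil)) .nil)) .leaf) (nat_lit 3296182315248271) (.br (nat_lit 1) (.cons (.br (nat_lit 5) (.cons (.rel (nat_lit 4311769152)) .nil)) .nil)) (.node .leaf (nat_lit 3296182316539931) (.br (nat_lit 0) (.cons (.br (nat_lit 1) (.cons (.rel (nat_lit 37781508)) .nil)) .nil)) .leaf))) (nat_lit 3296182316889594) (.br (nat_lit 1) (.cons (.br (nat_lit 3) (.cons (.rel (nat_lit 285216897)) .nil)) .nil)) (.node (.node (.node (.node .leaf (nat_lit 3296182317861515) (.br (nat_lit 0) (.cons (.br (nat_lit 1) (.cons (.rel (nat_lit 41943360)) .nil)) .nil)) .leaf) (nat_lit 3296182419974300) (.br (nat_lit 3) (.cons (.br (nat_lit 6) (.cons (.rel (nat_lit 17448306768)) (.cons (.rel (nat_lit 34628243712)) (.cons (.rel (nat_lit 17448337536))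 (.cons (.rel (nat_lit 17448308769)) (.cons (.rel (nat_lit 17448337536)) .nil)))))) .nil)) .leaf) (nat_lit 3296182420107516) (.br (nat_lit 0) (.cons (.br (nat_lit 2) (.cons (.rel (nat_lit 73482240)) .nil)) .nil)) (.node (.node .leaf (nat_lit 3296182420156443) (.br (nat_lit 0) (.cons (.br (nat_lit 4) (.cons (.rel (nat_lit 1077936168)) .nil)) .nil)) .leaf) (nat_lit 3296182420156468) (.br (nat_lit 3) (.cons (.br (nat_lit 6) (.cons (.rel (nat_lit 17448337536)) .nil)) .nil)) .leaf)) (nat_lit 3296182420476781) (.br (nat_lit 0) (.cons (.br (nat_lit 1) (.cons (.rel (nat_lit 22545408)) .nil)) .nil)) (.node (.node (.node .leaf (nat_lit 3296182420488348) (.br (nat_lit 6) (.cons (.br (nat_lit 1) (.cons (.rel (nat_lit 17197039632)) (.cons (.rel (nat_lit 17196713472)) (.cons (.rel (nat_lit 17196713472)) .nil)))) (.cons (.br (nat_lit 1) (.cons (.rel (nat_lit 34376515728)) (.cons (.rel (nat_lit 17213423712)) (.cons (.rel (nat_lit 17197039632)) .nil)))) .nil))) .leaf) (nat_lit 3296182420488472)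 (.br (nat_lit 1) (.cons (.br (nat_lit 6) (.cons (.rel (nat_lit 17213423712)) (.cons (.rel (nat_lit 17198760000)) .nil))) (.cons (.br (nat_lit 3) (.cons (.rel (nat_lit 570426384)) (.cons (.rel (nat_lit 285213705)) .nil))) .nil))) .leaf) (nat_lit 3296182420488877) (.br (nat_lit 0) (.cons (.br (nat_lit 1) (.cons (.rel (nat_lit 25232400)) .nil)) .nil)) (.node .leaf (nat_lit 3296182420489568) (.br (nat_lit 1) (.cons (.br (nat_lit 2) (.cons (.rel (nat_lit 151062528)) .nil)) .nil)) .leaf)))) (nat_lit 3296182421153978) (.br (nat_lit 1) (.cons (.br (nat_lit 2) (.cons (.rel (nat_lit 84148245)) .nil)) .nil)) (.node (.node (.node (.node (.node .leaf (nat_lit 3296182421155077) (.br (nat_lit 1) (.cons (.br (nat_lit 4) (.cons (.rel (nat_lit 2164525056)) .nil)) .nil)) .leaf) (nat_lit 3296182422523960) (.br (nat_lit 3) (.cons (.br (nat_lit 6) (.cons (.rel (nat_lit 17448304710)) .nil)) .nil)) .leaf) (nat_lit 3296182422525306) (.br (nat_lit 1) (.cons (.br (nat_lit 4) (.cons (.rel (nat_lit 1090560000))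 .nil)) .nil)) (.node (.node .leaf (nat_lit 3296182422690422) (.br (nat_lit 3) (.cons (.br (nat_lit 6) (.cons (.rel (nat_lit 17448337536)) .nil)) .nil)) .leaf) (nat_lit 3296182422690668) (.br (nat_lit 0) (.cons (.br (nat_lit 4) (.cons (.rel (nat_lit 2155872276)) .nil)) .nil)) .leaf)) (nat_lit 3296182422973343) (.br (nat_lit 3) (.cons (.br (nat_lit 1) (.cons (.rel (nat_lit 285213705)) (.cons (.rel (nat_lit 285212694)) .nil))) .nil)) (.node (.node (.node .leaf (nat_lit 3296182422973971) (.br (nat_lit 1) (.cons (.br (nat_lit 4) (.cons (.rel (nat_lit 1090666560)) .nil)) .nil)) .leaf) (nat_lit 3296182422986908) (.br (nat_lit 1) (.cons (.br (nat_lit 4) (.cons (.rel (nat_lit 1090585608)) (.cons (.rel (nat_lit 1090560000)) (.cons (.rel (nat_lit 1090560000)) .nil)))) .nil)) .leaf) (nat_lit 3296182422987432) (.br (nat_lit 0) (.cons (.br (nat_lit 1) (.cons (.rel (nat_lit 21254208)) .nil)) .nil)) (.node .leaf (nat_lit 3296182422987563) (.br (nat_lit 6) (.cons (.br (nat_lit 3) (.cons (.rel (nat_lit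 17448337536)) (.cons (.rel (nat_lit 17448304710)) (.cons (.rel (nat_lit 17448371217)) (.cons (.rel (nat_lit 17448308769)) .nil))))) .nil)) .leaf))) (nat_lit 3296182422988129) (.br (nat_lit 0) (.cons (.br (nat_lit 1) (.cons (.rel (nat_lit 21331968)) .nil)) .nil)) (.node (.node (.node (.node .leaf (nat_lit 3296183888495377) (.br (nat_lit 1) (.cons (.br (nat_lit 3) (.cons (.rel (nat_lit 285214752)) .nil)) .nil)) .leaf) (nat_lit 3296183889647921) (.br (nat_lit 1) (.cons (.br (nat_lit 6) (.cons (.rel (nat_lit 34376515728)) .nil)) .nil)) .leaf) (nat_lit 3296183967599879) (.br (nat_lit 1) (.cons (.br (nat_lit 3) (.cons (.rel (nat_lit 285214752)) .nil)) .nil)) (.node .leaf (nat_lit 3296183967854644) (.br (nat_lit 0) (.cons (.br (nat_lit 3) (.cons (.rel (nat_lit 272640000)) .nil)) .nil)) .leaf)) (nat_lit 3296184093398294) (.br (nat_lit 1) (.cons (.br (nat_lit 4) (.cons (.rel (nat_lit 1090588800)) .nil)) .nil)) (.node (.node (.node .leaf (nat_lit 3296184095190398) (.br (nat_lit 1) (.cons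 (.br (nat_lit 4) (.cons (.rel (nat_lit 2181058560)) .nil)) .nil)) .leaf) (nat_lit 3296184096564502) (.br (nat_lit 0) (.cons (.br (nat_lit 1) (.cons (.rel (nat_lit 20972160)) .nil)) .nil)) .leaf) (nat_lit 3296184102093485) (.br (nat_lit 3) (.cons (.br (nat_lit 4) (.cons (.rel (nat_lit 1343226897)) .nil)) .nil)) (.node .leaf (nat_lit 3296184102144280) (.br (nat_lit 4) (.cons (.br (nat_lit 6) (.cons (.rel (nat_lit 36507227136)) (.cons (.rel (nat_lit 18253743120)) .nil))) (.cons (.br (nat_lit 6) (.cons (.rel (nat_lit 36507227136)) (.cons (.rel (nat_lit 18253631490)) .nil))) .nil))) .leaf))))) (nat_lit 3296184102145301) (.br (nat_lit 4) (.cons (.br (nat_lit 0) (.cons (.rel (nat_lit 1077936168)) (.cons (.rel (nat_lit 1077973008)) (.cons (.rel (nat_lit 1077944385)) (.cons (.rel (nat_lit 1078001808)) (.cons (.rel (nat_lit 1077936168)) .nil)))))) .nil)) (.node (.node (.node (.node (.node (.node .leaf (nat_lit 3296184103100471) (.br (nat_lit 1) (.cons (.br (nat_lit 3) (.cons (.rel (nat_lit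 285214752)) .nil)) .nil)) .leaf) (nat_lit 3296184103101078) (.br (nat_lit 2) (.cons (.br (nat_lit 3) (.cons (.rel (nat_lit 335553552)) .nil)) .nil)) .leaf) (nat_lit 3296184103101717) (.br (nat_lit 6) (.cons (.br (nat_lit 4) (.cons (.rel (nat_lit 35434659840)) (.cons (.rel (nat_lit 18253680672)) (.cons (.rel (nat_lit 18253631490)) .nil)))) .nil)) (.node (.node .leaf (nat_lit 3296184104389909) (.br (nat_lit 0) (.cons (.br (nat_lit 2) (.cons (.rel (nat_lit 71630916)) .nil)) .nil)) .leaf) (nat_lit 3296184104963560) (.br (nat_lit 0) (.cons (.br (nat_lit 2) (.cons (.rel (nat_lit 71565456)) .nil)) .nil)) .leaf)) (nat_lit 3296184512828794) (.br (nat_lit 0) (.cons (.br (nat_lit 2) (.cons (.rel (nat_lit 75530304)) .nil)) .nil)) (.node (.node (.node .leaf (nat_lit 3296184513134897) (.br (nat_lit 0) (.cons (.br (nat_lit 6) (.cons (.rel (nat_lit 17184064032)) .nil)) .nil)) .leaf) (nat_lit 3296184514142364) (.br (nat_lit 3) (.cons (.br (nat_lit 5) (.cons (.rel (nat_lit 9127068672)) .nil)) .nil))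 .leaf) (nat_lit 3296184514192736) (.br (nat_lit 1) (.cons (.br (nat_lit 2) (.cons (.rel (nat_lit 85458960)) .nil)) .nil)) (.node .leaf (nat_lit 3296184514703516) (.br (nat_lit 2) (.cons (.br (nat_lit 3) (.cons (.rel (nat_lit 402653520)) (.cons (.rel (nat_lit 335577105)) .nil))) (.cons (.br (nat_lit 4) (.cons (.rel (nat_lit 1140855936)) (.cons (.rel (nat_lit 1140871248)) (.cons (.rel (nat_lit 1140949008)) (.cons (.rel (nat_lit 2281701393)) (.cons (.rel (nat_lit 1140871248)) (.cons (.rel (nat_lit 2281701393)) (.cons (.rel (nat_lit 1140855936)) .nil)))))))) .nil))) .leaf))) (nat_lit 3296184514704762) (.br (nat_lit 6) (.cons (.br (nat_lit 2) (.cons (.rel (nat_lit 17247240261)) (.cons (.rel (nat_lit 17247306768)) .nil))) .nil)) (.node (.node (.node (.node .leaf (nat_lit 3296184514704785) (.br (nat_lit 5) (.cons (.br (nat_lit 3) (.cons (.rel (nat_lit 4564521024)) (.cons (.rel (nat_lit 4831903749)) (.cons (.rel (nat_lit 4563407136)) .nil)))) .nil)) .leaf) (nat_lit 3296184515431802) (.br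 (nat_lit 3) (.cons (.br (nat_lit 6) (.cons (.rel (nat_lit 17448337536)) .nil)) .nil)) .leaf) (nat_lit 3296184515490447) (.br (nat_lit 1) (.cons (.br (nat_lit 6) (.cons (.rel (nat_lit 17196917760)) .nil)) .nil)) (.node (.node .leaf (nat_lit 3296184961661705) (.br (nat_lit 6) (.cons (.br (nat_lit 2) (.cons (.rel (nat_lit 17248550976)) (.cons (.rel (nat_lit 17248550976)) .nil))) .nil)) .leaf) (nat_lit 3296184961854095) (.br (nat_lit 1) (.cons (.br (nat_lit 3) (.cons (.rel (nat_lit 285212694)) .nil)) .nil)) .leaf)) (nat_lit 3296184964283025) (.br (nat_lit 2) (.cons (.br (nat_lit 5) (.cons (.rel (nat_lit 4362078210)) .nil)) .nil)) (.node (.node (.node .leaf (nat_lit 3296184964439327) (.br (nat_lit 3) (.cons (.br (nat_lit 6) (.cons (.rel (nat_lit 17448304710)) .nil)) .nil)) .leaf) (nat_lit 3296184964795679) (.br (nat_lit 1) (.cons (.br (nat_lit 3) (.cons (.rel (nat_lit 570426384)) .nil)) .nil)) .leaf) (nat_lit 3296186509678722) (.br (nat_lit 0) (.cons (.br (nat_lit 1) (.cons (.rel (nat_lit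 21643584)) .nil)) .nil)) (.node .leaf (nat_lit 3296186510575676) (.br (nat_lit 0) (.cons (.br (nat_lit 1) (.cons (.rel (nat_lit 38339088)) .nil)) .nil)) .leaf)))) (nat_lit 3296186512166912) (.br (nat_lit 2) (.cons (.br (nat_lit 1) (.cons (.rel (nat_lit 83919360)) (.cons (.rel (nat_lit 151000080)) .nil))) .nil)) (.node (.node (.node (.node (.node .leaf (nat_lit 3296186512167838) (.br (nat_lit 2) (.cons (.br (nat_lit 4) (.cons (.rel (nat_lit 1140920385)) (.cons (.rel (nat_lit 1140851733)) .nil))) (.cons (.br (nat_lit 4) (.cons (.rel (nat_lit 2281701393)) (.cons (.rel (nat_lit 1140851733)) .nil))) .nil))) .leaf) (nat_lit 3296187583367205) (.br (nat_lit 1) (.cons (.br (nat_lit 5) (.cons (.rel (nat_lit 4311744612)) .nil)) .nil)) .leaf) (nat_lit 3296187584343301) (.br (nat_lit 1) (.cons (.br (nat_lit 2) (.cons (.rel (nat_lit 85984257)) .nil)) .nil)) (.node (.node .leaf (nat_lit 3296187585867130) (.br (nat_lit 0) (.cons (.br (nat_lit 2) (.cons (.rel (nat_lit 71630916)) .nil)) .nil)) .leaf)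 (nat_lit 3296187742472348) (.br (nat_lit 1) (.cons (.br (nat_lit 3) (.cons (.rel (nat_lit 285214752)) .nil)) .nil)) .leaf)) (nat_lit 3296187742779667) (.br (nat_lit 0) (.cons (.br (nat_lit 1) (.cons (.rel (nat_lit 21331968)) .nil)) .nil)) (.node (.node (.node .leaf (nat_lit 3296187745364623) (.br (nat_lit 0) (.cons (.br (nat_lit 3) (.cons (.rel (nat_lit 276828417)) .nil)) .nil)) .leaf) (nat_lit 3296187771842716) (.br (nat_lit 1) (.cons (.br (nat_lit 2) (.cons (.rel (nat_lit 84152448)) .nil)) .nil)) .leaf) (nat_lit 3296187773084299) (.br (nat_lit 3) (.cons (.br (nat_lit 5) (.cons (.rel (nat_lit 4563469584)) .nil)) .nil)) (.node .leaf (nat_lit 3296187773084905) (.br (nat_lit 6) (.cons (.br (nat_lit 0) (.cons (.rel (nat_lit 17184064032)) (.cons (.rel (nat_lit 34368127248)) .nil))) .nil)) .leaf))) (nat_lit 3296187773677724) (.br (nat_lit 1) (.cons (.br (nat_lit 2) (.cons (.rel (nat_lit 167788800)) (.cons (.rel (nat_lit 84230208)) .nil))) .nil)) (.node (.node (.node (.node .leaf (nat_lit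 3296187773678379) (.br (nat_lit 1) (.cons (.br (nat_lit 6) (.cons (.rel (nat_lit 17196651024)) .nil)) .nil)) .leaf) (nat_lit 3296187774342050) (.br (nat_lit 1) (.cons (.br (nat_lit 2) (.cons (.rel (nat_lit 100663425)) .nil)) .nil)) .leaf) (nat_lit 3296187774622507) (.br (nat_lit 4) (.cons (.br (nat_lit 6) (.cons (.rel (nat_lit 18253676613)) .nil)) .nil)) (.node .leaf (nat_lit 3296187774703080) (.br (nat_lit 0) (.cons (.br (nat_lit 1) (.cons (.rel (nat_lit 21062208)) .nil)) .nil)) .leaf)) (nat_lit 3296413696905348) (.br (nat_lit 0) (.cons (.br (nat_lit 2) (.cons (.rel (nat_lit 138413088)) .nil)) .nil)) (.node (.node (.node .leaf (nat_lit 3296413696906026) (.br (nat_lit 1) (.cons (.br (nat_lit 3) (.cons (.rel (nat_lit 285212694)) .nil)) .nil)) .leaf) (nat_lit 3296456643506178) (.br (nat_lit 2) (.cons (.br (nat_lit 6) (.cons (.rel (nat_lit 17247240261)) .nil)) .nil)) .leaf) (nat_lit 3296456645344662) (.br (nat_lit 1) (.cons (.br (nat_lit 6) (.cons (.rel (nat_lit 17196941313)) .nil))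 .nil)) (.node .leaf (nat_lit 3296456646286222) (.br (nat_lit 3) (.cons (.br (nat_lit 6) (.cons (.rel (nat_lit 17448306768)) .nil)) .nil)) .leaf))))))

/-- refutations 31 -/
def e31 : EX := (.node (.node (.node (.node (.node (.node .leaf (nat_lit 3296499593758097) (.br (nat_lit 0) (.cons (.br (nat_lit 3) (.cons (.rel (nat_lit 272640000)) .nil)) .nil)) .leaf) (nat_lit 3296499748370584) (.br (nat_lit 2) (.cons (.br (nat_lit 3) (.cons (.rel (nat_lit 336953472)) .nil)) .nil)) .leaf) (nat_lit 3296662801899650) (.br (nat_lit 2) (.cons (.br (nat_lit 5) (.cons (.rel (nat_lit 4362078210)) .nil)) .nil)) (.node .leaf (nat_lit 3296662802449920) (.br (nat_lit 3) (.cons (.br (nat_lit 4) (.cons (.rel (nat_lit 1342193925)) .nil)) .nil)) .leaf)) (nat_lit 3296662802460854) (.br (nat_lit 1) (.cons (.br (nat_lit 3) (.cons (.rel (nat_lit 285216897)) .nil)) .nil)) (.node (.node .leaf (nat_lit 3296662802460947) (.br (nat_lit 1) (.cons (.br (nat_lit 5) (.cons (.rel (nat_lit 4311761937)) .nil)) .nil)) .leaf)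 (nat_lit 3296662802503836) (.br (nat_lit 1) (.cons (.br (nat_lit 5) (.cons (.rel (nat_lit 4311761937)) .nil)) .nil)) (.node .leaf (nat_lit 3296662803718906) (.br (nat_lit 1) (.cons (.br (nat_lit 3) (.cons (.rel (nat_lit 570426384)) .nil)) .nil)) .leaf))) (nat_lit 3296662803719569) (.br (nat_lit 1) (.cons (.br (nat_lit 2) (.cons (.rel (nat_lit 84152448)) .nil)) .nil)) (.node (.node (.node .leaf (nat_lit 3296662803732636) (.br (nat_lit 2) (.cons (.br (nat_lit 3) (.cons (.rel (nat_lit 335561793)) .nil)) .nil)) .leaf) (nat_lit 3296662804998944) (.br (nat_lit 2) (.cons (.br (nat_lit 3) (.cons (.rel (nat_lit 604241922)) .nil)) .nil)) (.node .leaf (nat_lit 3296664903324459) (.br (nat_lit 0) (.cons (.br (nat_lit 2) (.cons (.rel (nat_lit 71565456)) .nil)) .nil)) .leaf)) (nat_lit 3296664906091756) (.br (nat_lit 1) (.cons (.br (nat_lit 3) (.cons (.rel (nat_lit 285230208)) .nil)) .nil)) (.node (.node .leaf (nat_lit 3297273341921560) (.br (nat_lit 1) (.cons (.br (nat_lit 3) (.cons (.rel (nat_lit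 285230208)) .nil)) .nil)) .leaf) (nat_lit 3297273342181532) (.br (nat_lit 3) (.cons (.br (nat_lit 6) (.cons (.rel (nat_lit 17448308769)) (.cons (.rel (nat_lit 17448321033)) (.cons (.rel (nat_lit 17448337536)) .nil)))) .nil)) (.node .leaf (nat_lit 3297273342181656) (.br (nat_lit 5) (.cons (.br (nat_lit 6) (.cons (.rel (nat_lit 21474845712)) .nil)) .nil)) .leaf)))) (nat_lit 3297273344420527) (.br (nat_lit 1) (.cons (.br (nat_lit 3) (.cons (.rel (nat_lit 286524420)) .nil)) .nil)) (.node (.node (.node (.node .leaf (nat_lit 3297275543677084) (.br (nat_lit 3) (.cons (.br (nat_lit 4) (.cons (.rel (nat_lit 1342316832)) (.cons (.rel (nat_lit 1343234112)) .nil))) .nil)) .leaf) (nat_lit 3297359161198774) (.br (nat_lit 1) (.cons (.br (nat_lit 2) (.cons (.rel (nat_lit 152322048)) .nil)) .nil)) (.node .leaf (nat_lit 3297490311377551) (.br (nat_lit 1) (.cons (.br (nat_lit 6) (.cons (.rel (nat_lit 17196651024)) .nil)) .nil)) .leaf)) (nat_lit 3297522449660804) (.br (nat_lit 0) (.cons (.br (nat_lit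 5) (.cons (.rel (nat_lit 4299259920)) (.cons (.rel (nat_lit 8598357057)) .nil))) (.cons (.br (nat_lit 5) (.cons (.rel (nat_lit 4299424065)) (.cons (.rel (nat_lit 8599670784)) .nil))) .nil))) (.node (.node .leaf (nat_lit 3297522450219908) (.br (nat_lit 6) (.cons (.br (nat_lit 0) (.cons (.rel (nat_lit 17184064032)) (.cons (.rel (nat_lit 17188388865)) .nil))) .nil)) .leaf) (nat_lit 3297522451437724) (.br (nat_lit 0) (.cons (.br (nat_lit 1) (.cons (.rel (nat_lit 37781508)) .nil)) .nil)) (.node .leaf (nat_lit 3297522452321633) (.br (nat_lit 0) (.cons (.br (nat_lit 4) (.cons (.rel (nat_lit 1077936168)) .nil)) .nil)) .leaf))) (nat_lit 3297522452487020) (.br (nat_lit 2) (.cons (.br (nat_lit 3) (.cons (.rel (nat_lit 335577105)) .nil)) .nil)) (.node (.node (.node .leaf (nat_lit 3297522452783260) (.br (nat_lit 1) (.cons (.br (nat_lit 3) (.cons (.rel (nat_lit 286524420)) .nil)) .nil)) .leaf) (nat_lit 3297522452783915) (.br (nat_lit 2) (.cons (.br (nat_lit 6) (.cons (.rel (nat_lit 17314107408))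 .nil)) .nil)) (.node .leaf (nat_lit 3297522452784506) (.br (nat_lit 1) (.cons (.br (nat_lit 3) (.cons (.rel (nat_lit 301991172)) .nil)) .nil)) .leaf)) (nat_lit 3297526541934106) (.br (nat_lit 0) (.cons (.br (nat_lit 1) (.cons (.rel (nat_lit 22085904)) .nil)) .nil)) (.node (.node .leaf (nat_lit 3297527194738844) (.br (nat_lit 3) (.cons (.br (nat_lit 6) (.cons (.rel (nat_lit 17448306768)) .nil)) .nil)) .leaf) (nat_lit 3297527195195548) (.br (nat_lit 2) (.cons (.br (nat_lit 3) (.cons (.rel (nat_lit 335544468)) .nil)) .nil)) (.node .leaf (nat_lit 3297527196346420) (.br (nat_lit 0) (.cons (.br (nat_lit 1) (.cons (.rel (nat_lit 41943360)) .nil)) .nil)) .leaf)))))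

/-- refutations 32 -/
def e32 : EX := (.node (.node (.node (.node (.node .leaf (nat_lit 3297685004470578) (.br (nat_lit 1) (.cons (.br (nat_lit 3) (.cons (.rel (nat_lit 285230208)) .nil)) .nil)) .leaf) (nat_lit 3297685005934748) (.br (nat_lit 6) (.cons (.br (nat_lit 3) (.cons (.rel (nat_lit 17448306768)) (.cons (.rel (nat_lit 17448308769)) .nil))) .nil)) .leaf) (nat_lit 3297685005935968) (.br (nat_lit 0) (.cons (.br (nat_lit 2) (.cons (.rel (nat_lit 71565456)) .nil)) .nil)) (.node .leaf (nat_lit 3297685005985948) (.br (nat_lit 0) (.cons (.br (nat_lit 3) (.cons (.rel (nat_lit 276841728)) .nil)) .nil)) .leaf)) (nat_lit 3297685006908019) (.br (nat_lit 1) (.cons (.br (nat_lit 2) (.cons (.rel (nat_lit 84149256)) .nil)) .nil)) (.node (.node .leaf (nat_lit 3297685578979380) (.br (nat_lit 0) (.cons (.br (nat_lit 3) (.cons (.rel (nat_lit 272711688)) .nil)) .nil)) .leaf) (nat_lit 3300490822129820) (.br (nat_lit 2) (.cons (.br (nat_lit 3) (.cons (.rel (nat_lit 671421696)) .nil)) .nil)) (.node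 .leaf (nat_lit 3300496661307548) (.br (nat_lit 0) (.cons (.br (nat_lit 2) (.cons (.rel (nat_lit 71585793)) (.cons (.rel (nat_lit 71303745)) (.cons (.rel (nat_lit 73482240)) (.cons (.rel (nat_lit 71320068)) .nil))))) .nil)) .leaf))) (nat_lit 3300499310874780) (.br (nat_lit 0) (.cons (.br (nat_lit 1) (.cons (.rel (nat_lit 25169952)) .nil)) .nil)) (.node (.node (.node (.node .leaf (nat_lit 3300499312056372) (.br (nat_lit 0) (.cons (.br (nat_lit 1) (.cons (.rel (nat_lit 21331968)) .nil)) .nil)) .leaf) (nat_lit 3300499313847697) (.br (nat_lit 1) (.cons (.br (nat_lit 3) (.cons (.br (nat_lit 4) (.cons (.rel (nat_lit 1342177602)) .nil)) .nil)) .nil)) .leaf) (nat_lit 3300499689910428) (.br (nat_lit 0) (.cons (.br (nat_lit 4) (.cons (.rel (nat_lit 1077936168)) .nil)) .nil)) (.node .leaf (nat_lit 3300528272466225) (.br (nat_lit 0) (.cons (.br (nat_lit 2) (.cons (.rel (nat_lit 71565456)) .nil)) .nil)) .leaf)) (nat_lit 3300528272466731) (.br (nat_lit 2) (.cons (.br (nat_lit 5) (.cons (.rel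 (nat_lit 4362080400)) .nil)) .nil)) (.node (.node .leaf (nat_lit 3300528272467222) (.br (nat_lit 2) (.cons (.br (nat_lit 5) (.cons (.rel (nat_lit 4362078210)) .nil)) .nil)) .leaf) (nat_lit 3300528275103900) (.br (nat_lit 0) (.cons (.br (nat_lit 2) (.cons (.rel (nat_lit 71585793)) .nil)) .nil)) (.node .leaf (nat_lit 3300528275574916) (.br (nat_lit 0) (.cons (.br (nat_lit 1) (.cons (.rel (nat_lit 25182216)) .nil)) .nil)) .leaf))))

/-- refutations 33 -/
def e33 : EX := (.node (.node (.node (.node (.node (.node .leaf (nat_lit 3300573958615077) (.br (nat_lit 0) (.cons (.br (nat_lit 1) (.cons (.rel (nat_lit 20972160)) .nil)) .nil)) .leaf) (nat_lit 3300573958616316) (.br (nat_lit 1) (.cons (.br (nat_lit 5) (.cons (.rel (nat_lit 4311811074)) .nil)) .nil)) .leaf) (nat_lit 3300576680248608) (.br (nat_lit 0) (.cons (.br (nat_lit 4) (.cons (.rel (nat_lit 1077936168)) .nil)) .nil)) (.node (.node .leaf (nat_lit 3300691482542236) (.br (nat_lit 0) (.cons (.br (nat_lit 3) (.cons (.rel (nat_lit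 272630916)) .nil)) .nil)) .leaf) (nat_lit 3300691483769594) (.br (nat_lit 3) (.cons (.br (nat_lit 4) (.cons (.rel (nat_lit 1342193925)) (.cons (.rel (nat_lit 1610630148)) (.cons (.rel (nat_lit 1610613825)) .nil)))) .nil)) .leaf)) (nat_lit 3300691484015354) (.br (nat_lit 1) (.cons (.br (nat_lit 6) (.cons (.rel (nat_lit 17213428737)) (.cons (.rel (nat_lit 17196941313)) .nil))) .nil)) (.node (.node (.node .leaf (nat_lit 3300691484322719) (.br (nat_lit 1) (.cons (.br (nat_lit 3) (.cons (.rel (nat_lit 285230208)) (.cons (.rel (nat_lit 285230208)) .nil))) .nil)) .leaf) (nat_lit 3300691484336939) (.br (nat_lit 0) (.cons (.br (nat_lit 4) (.cons (.rel (nat_lit 2155872276)) (.cons (.rel (nat_lit 1082200320)) (.cons (.rel (nat_lit 1077936168)) .nil)))) .nil)) .leaf) (nat_lit 3300691484337055) (.br (nat_lit 1) (.cons (.br (nat_lit 2) (.cons (.rel (nat_lit 151000080)) .nil)) .nil)) (.node (.node .leaf (nat_lit 3300691484337505) (.br (nat_lit 0) (.cons (.br (nat_lit 1) (.cons (.rel (nat_lit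 21254208)) .nil)) .nil)) .leaf) (nat_lit 3300691484337553) (.br (nat_lit 1) (.cons (.br (nat_lit 0) (.cons (.rel (nat_lit 21234693)) (.cons (.rel (nat_lit 23068692)) (.cons (.rel (nat_lit 41943360)) .nil)))) .nil)) .leaf))) (nat_lit 3300694338855068) (.br (nat_lit 0) (.cons (.br (nat_lit 3) (.cons (.rel (nat_lit 272630916)) .nil)) .nil)) (.node (.node (.node (.node .leaf (nat_lit 3300694340657308) (.br (nat_lit 0) (.cons (.br (nat_lit 4) (.cons (.rel (nat_lit 2155872276)) .nil)) .nil)) .leaf) (nat_lit 3300696879270568) (.br (nat_lit 2) (.cons (.br (nat_lit 3) (.cons (.rel (nat_lit 335561793)) .nil)) .nil)) .leaf) (nat_lit 3300696879536284) (.br (nat_lit 1) (.cons (.br (nat_lit 6) (.cons (.rel (nat_lit 17197039632)) .nil)) .nil)) (.node (.node .leaf (nat_lit 3300696880552092) (.br (nat_lit 4) (.cons (.br (nat_lit 0) (.cons (.rel (nat_lit 1078035456)) (.cons (.rel (nat_lit 1077936168)) (.cons (.rel (nat_lit 2155872276)) .nil)))) .nil)) .leaf) (nat_lit 3300696880552117) (.br (nat_lit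 1) (.cons (.br (nat_lit 4) (.cons (.rel (nat_lit 1090520148)) .nil)) .nil)) .leaf)) (nat_lit 3300696880603292) (.br (nat_lit 6) (.cons (.br (nat_lit 3) (.cons (.rel (nat_lit 17448322080)) (.cons (.rel (nat_lit 17448308769)) (.cons (.rel (nat_lit 17448322080)) .nil)))) (.cons (.br (nat_lit 3) (.cons (.rel (nat_lit 34896625728)) (.cons (.rel (nat_lit 17448337536)) (.cons (.rel (nat_lit 17448337536)) .nil)))) .nil))) (.node (.node (.node .leaf (nat_lit 3300696881174780) (.br (nat_lit 0) (.cons (.br (nat_lit 4) (.cons (.rel (nat_lit 1077936168)) .nil)) .nil)) .leaf) (nat_lit 3300696881892705) (.br (nat_lit 1) (.cons (.br (nat_lit 2) (.cons (.rel (nat_lit 84148245)) .nil)) .nil)) .leaf) (nat_lit 3300696882405532) (.br (nat_lit 6) (.cons (.br (nat_lit 3) (.cons (.rel (nat_lit 17448308769)) (.cons (.rel (nat_lit 17717264640)) .nil))) .nil)) (.node (.node .leaf (nat_lit 3300696882406187) (.br (nat_lit 0) (.cons (.br (nat_lit 4) (.cons (.rel (nat_lit 2152202496)) .nil)) .nil)) .leaf) (nat_lit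 3300696882406801) (.br (nat_lit 3) (.cons (.br (nat_lit 6) (.cons (.rel (nat_lit 17449615425)) .nil)) .nil)) .leaf)))) (nat_lit 3300713954304761) (.br (nat_lit 2) (.cons (.br (nat_lit 3) (.cons (.rel (nat_lit 335553552)) .nil)) .nil)) (.node (.node (.node (.node (.node .leaf (nat_lit 3300751610766722) (.br (nat_lit 3) (.cons (.br (nat_lit 6) (.cons (.rel (nat_lit 34896625728)) (.cons (.rel (nat_lit 34896625728)) .nil))) (.cons (.br (nat_lit 4) (.cons (.rel (nat_lit 1610630148)) (.cons (.rel (nat_lit 1342193925)) (.cons (.rel (nat_lit 1342193925)) .nil)))) .nil))) .leaf) (nat_lit 3300751611381137) (.br (nat_lit 1) (.cons (.br (nat_lit 6) (.cons (.rel (nat_lit 17196908676)) .nil)) .nil)) .leaf) (nat_lit 3300751612137602) (.br (nat_lit 5) (.cons (.br (nat_lit 4) (.cons (.rel (nat_lit 6442450950)) (.cons (.rel (nat_lit 5369249796)) (.cons (.rel (nat_lit 9663677472)) .nil)))) .nil)) (.node (.node .leaf (nat_lit 3300751612381946) (.br (nat_lit 4) (.cons (.br (nat_lit 0) (.cons (.rel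 (nat_lit 2155872276)) (.cons (.rel (nat_lit 1077936168)) .nil))) .nil)) .leaf) (nat_lit 3300751612635292) (.br (nat_lit 5) (.cons (.br (nat_lit 6) (.cons (.rel (nat_lit 21474870276)) .nil)) .nil)) .leaf)) (nat_lit 3300751612635898) (.br (nat_lit 4) (.cons (.br (nat_lit 1) (.cons (.rel (nat_lit 1090560000)) (.cons (.rel (nat_lit 1107821568)) .nil))) .nil)) (.node (.node (.node .leaf (nat_lit 3300751612635923) (.br (nat_lit 0) (.cons (.br (nat_lit 1) (.cons (.rel (nat_lit 37756944)) .nil)) .nil)) .leaf) (nat_lit 3300751612636536) (.br (nat_lit 0) (.cons (.br (nat_lit 4) (.cons (.rel (nat_lit 1077957696)) .nil)) .nil)) .leaf) (nat_lit 3300751612640042) (.br (nat_lit 0) (.cons (.br (nat_lit 6) (.cons (.rel (nat_lit 17188261968)) .nil)) .nil)) (.node (.node .leaf (nat_lit 3300751613582074) (.br (nat_lit 4) (.cons (.br (nat_lit 6) (.cons (.rel (nat_lit 36507227136)) .nil)) .nil)) .leaf) (nat_lit 3300751613825180) (.br (nat_lit 4) (.cons (.br (nat_lit 6) (.cons (.rel (nat_lit 18253627476))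 .nil)) .nil)) .leaf))) (nat_lit 3300751613825786) (.br (nat_lit 6) (.cons (.br (nat_lit 3) (.cons (.rel (nat_lit 17448306768)) (.cons (.rel (nat_lit 17448322080)) .nil))) .nil)) (.node (.node (.node (.node .leaf (nat_lit 3300751613826300) (.br (nat_lit 3) (.cons (.br (nat_lit 5) (.cons (.rel (nat_lit 8858439681)) .nil)) .nil)) .leaf) (nat_lit 3300751613874986) (.br (nat_lit 0) (.cons (.br (nat_lit 5) (.cons (.rel (nat_lit 8594654496)) .nil)) .nil)) .leaf) (nat_lit 3300751613927580) (.br (nat_lit 1) (.cons (.br (nat_lit 4) (.cons (.rel (nat_lit 1090588800)) (.cons (.rel (nat_lit 1090588800)) .nil))) (.cons (.br (nat_lit 4) (.cons (.br (nat_lit 0) (.cons (.rel (nat_lit 23068692)) (.cons (.rel (nat_lit 1077937170)) (.cons (.rel (nat_lit 21331968)) (.cons (.rel (nat_lit 1077944385)) .nil))))) (.cons (.rel (nat_lit 1090535460)) .nil))) .nil))) (.node (.node .leaf (nat_lit 3300751613928725) (.br (nat_lit 1) (.cons (.br (nat_lit 4) (.cons (.rel (nat_lit 1090588800)) .nil)) .nil)) .leaf)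 (nat_lit 3300754486522511) (.br (nat_lit 1) (.cons (.br (nat_lit 4) (.cons (.rel (nat_lit 1090519137)) .nil)) .nil)) .leaf)) (nat_lit 3300756905339036) (.br (nat_lit 4) (.cons (.br (nat_lit 6) (.cons (.rel (nat_lit 18253611153)) .nil)) .nil)) (.node (.node (.node .leaf (nat_lit 3301550474709898) (.br (nat_lit 1) (.cons (.br (nat_lit 3) (.cons (.rel (nat_lit 570426384)) .nil)) .nil)) .leaf) (nat_lit 3301550475243826) (.br (nat_lit 1) (.cons (.br (nat_lit 2) (.cons (.rel (nat_lit 167788800)) .nil)) .nil)) .leaf) (nat_lit 3301550477320947) (.br (nat_lit 0) (.cons (.br (nat_lit 2) (.cons (.rel (nat_lit 71303745)) .nil)) .nil)) (.node (.node .leaf (nat_lit 3301551050833980) (.br (nat_lit 0) (.cons (.br (nat_lit 1) (.cons (.rel (nat_lit 21233682)) .nil)) .nil)) .leaf) (nat_lit 3301555221489042) (.br (nat_lit 0) (.cons (.br (nat_lit 2) (.cons (.rel (nat_lit 75499536)) .nil)) .nil)) .leaf)))))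

/-- refutations 34 -/
def e34 : EX := (.node (.node (.node (.node (.node (.node .leaf (nat_lit 3301787248607914) (.br (nat_lit 0) (.cons (.br (nat_lit 1) (.cons (.rel (nat_lit 20972160)) .nil)) .nil)) .leaf) (nat_lit 3301819409361052) (.br (nat_lit 4) (.cons (.br (nat_lit 3) (.cons (.rel (nat_lit 1342177602)) (.cons (.rel (nat_lit 1342198176)) .nil))) .nil)) .leaf) (nat_lit 3301819411130549) (.br (nat_lit 0) (.cons (.br (nat_lit 1) (.cons (.rel (nat_lit 21233682)) .nil)) .nil)) (.node .leaf (nat_lit 3301819411131768) (.br (nat_lit 3) (.cons (.br (nat_lit 6) (.cons (.rel (nat_lit 17448308769)) .nil)) .nil)) .leaf)) (nat_lit 3301821614369695) (.br (nat_lit 0) (.cons (.br (nat_lit 3) (.cons (.rel (nat_lit 272650242)) .nil)) .nil)) (.node (.node .leaf (nat_lit 3302635054624828) (.br (nat_lit 4) (.cons (.br (nat_lit 6) (.cons (.rel (nat_lit 18253611153)) .nil)) .nil)) .leaf) (nat_lit 3302727295721602) (.br (nat_lit 5) (.cons (.br (nat_lit 6) (.cons (.rel (nat_lit 38654705922)) .nil))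 .nil)) (.node .leaf (nat_lit 3302727295822109) (.br (nat_lit 0) (.cons (.br (nat_lit 3) (.cons (.rel (nat_lit 272630916)) .nil)) .nil)) .leaf))) (nat_lit 3302727296221984) (.br (nat_lit 1) (.cons (.br (nat_lit 4) (.cons (.rel (nat_lit 1107821568)) .nil)) .nil)) (.node (.node (.node .leaf (nat_lit 3302727296229532) (.br (nat_lit 1) (.cons (.br (nat_lit 2) (.cons (.rel (nat_lit 167788800)) .nil)) .nil)) .leaf) (nat_lit 3302727296230137) (.br (nat_lit 1) (.cons (.br (nat_lit 3) (.cons (.rel (nat_lit 570426384)) (.cons (.rel (nat_lit 301991172)) .nil))) .nil)) (.node .leaf (nat_lit 3302727297348490) (.br (nat_lit 0) (.cons (.br (nat_lit 1) (.cons (.rel (nat_lit 41943360)) .nil)) .nil)) .leaf)) (nat_lit 3302727297595524) (.br (nat_lit 1) (.cons (.br (nat_lit 3) (.cons (.rel (nat_lit 285230208)) .nil)) .nil)) (.node (.node .leaf (nat_lit 3302727298370323) (.br (nat_lit 3) (.cons (.br (nat_lit 0) (.cons (.rel (nat_lit 272629905)) (.cons (.rel (nat_lit 272646228)) .nil))) .nil)) .leaf)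 (nat_lit 3302727298380431) (.br (nat_lit 1) (.cons (.br (nat_lit 6) (.cons (.rel (nat_lit 17196941313)) (.cons (.rel (nat_lit 17213423712)) .nil))) .nil)) (.node .leaf (nat_lit 3302727298883740) (.br (nat_lit 2) (.cons (.br (nat_lit 4) (.cons (.rel (nat_lit 2281701393)) (.cons (.rel (nat_lit 1140850722)) .nil))) .nil)) .leaf)))) (nat_lit 3302729498013748) (.br (nat_lit 0) (.cons (.br (nat_lit 3) (.cons (.rel (nat_lit 276841728)) .nil)) .nil)) (.node (.node (.node (.node .leaf (nat_lit 3302729498065052) (.br (nat_lit 6) (.cons (.br (nat_lit 3) (.cons (.rel (nat_lit 17448337536)) (.cons (.rel (nat_lit 34896625728)) (.cons (.rel (nat_lit 34896625728)) .nil)))) .nil)) .leaf) (nat_lit 3302729498229537) (.br (nat_lit 1) (.cons (.br (nat_lit 3) (.cons (.rel (nat_lit 285212694)) .nil)) .nil)) (.node .leaf (nat_lit 3302729499575827) (.br (nat_lit 6) (.cons (.br (nat_lit 0) (.cons (.rel (nat_lit 17188261968)) (.cons (.rel (nat_lit 17185177920)) .nil))) .nil)) .leaf)) (nat_lit 3302729500893340)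 (.br (nat_lit 0) (.cons (.br (nat_lit 2) (.cons (.rel (nat_lit 75497478)) .nil)) .nil)) (.node (.node .leaf (nat_lit 3302732696904491) (.br (nat_lit 1) (.cons (.br (nat_lit 3) (.cons (.rel (nat_lit 285213705)) .nil)) .nil)) .leaf) (nat_lit 3303096663523484) (.br (nat_lit 6) (.cons (.br (nat_lit 4) (.cons (.rel (nat_lit 18253611153)) (.cons (.rel (nat_lit 35433480456)) .nil))) .nil)) (.node .leaf (nat_lit 3303096663524090) (.br (nat_lit 4) (.cons (.br (nat_lit 0) (.cons (.rel (nat_lit 1082393088)) (.cons (.rel (nat_lit 2155872276)) (.cons (.rel (nat_lit 2155872276)) (.cons (.rel (nat_lit 2155872276)) (.cons (.rel (nat_lit 1077957696)) .nil)))))) (.cons (.br (nat_lit 6) (.cons (.rel (nat_lit 36507227136)) (.cons (.rel (nat_lit 18253627476)) .nil))) .nil))) .leaf))) (nat_lit 3303096665456017) (.br (nat_lit 3) (.cons (.br (nat_lit 4) (.cons (.rel (nat_lit 2684616720)) .nil)) .nil)) (.node (.node (.node .leaf (nat_lit 3303096665701114) (.br (nat_lit 6) (.cons (.br (nat_lit 0) (.cons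 (.rel (nat_lit 34368127248)) (.cons (.rel (nat_lit 17184588177)) (.cons (.rel (nat_lit 17185177920)) .nil)))) .nil)) .leaf) (nat_lit 3303096665725690) (.br (nat_lit 3) (.cons (.br (nat_lit 4) (.cons (.rel (nat_lit 1342178661)) .nil)) .nil)) (.node .leaf (nat_lit 3303096665969402) (.br (nat_lit 0) (.cons (.br (nat_lit 4) (.cons (.rel (nat_lit 1078022145)) (.cons (.rel (nat_lit 1077936168)) (.cons (.rel (nat_lit 2155872276)) .nil)))) (.cons (.br (nat_lit 3) (.cons (.rel (nat_lit 543162369)) (.cons (.rel (nat_lit 272629905)) (.cons (.rel (nat_lit 541327368)) .nil)))) .nil))) .leaf)) (nat_lit 3303096666019193) (.br (nat_lit 0) (.cons (.br (nat_lit 1) (.cons (.rel (nat_lit 21331968)) .nil)) .nil)) (.node (.node .leaf (nat_lit 3303102061592732) (.br (nat_lit 6) (.cons (.br (nat_lit 3) (.cons (.rel (nat_lit 34628436480)) (.cons (.rel (nat_lit 17448337536)) (.cons (.br (nat_lit 5) (.cons (.rel (nat_lit 4831854612)) (.cons (.rel (nat_lit 4563407136)) (.cons (.rel (nat_lit 21474840642))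 .nil)))) (.cons (.rel (nat_lit 17448337536)) .nil))))) (.cons (.br (nat_lit 5) (.cons (.rel (nat_lit 21474840642)) (.cons (.rel (nat_lit 21474840642)) (.cons (.rel (nat_lit 21474967584)) .nil)))) .nil))) .leaf) (nat_lit 3303102061593338) (.br (nat_lit 3) (.cons (.br (nat_lit 4) (.cons (.rel (nat_lit 1342193925)) .nil)) .nil)) (.node .leaf (nat_lit 3303102062289052) (.br (nat_lit 4) (.cons (.br (nat_lit 6) (.cons (.br (nat_lit 3) (.cons (.rel (nat_lit 34628436480)) (.cons (.rel (nat_lit 2416001040)) (.cons (.rel (nat_lit 17448308769)) .nil)))) (.cons (.rel (nat_lit 18253621248)) .nil))) (.cons (.br (nat_lit 6) (.cons (.rel (nat_lit 36507227136)) (.cons (.rel (nat_lit 18253631490)) .nil))) .nil))) .leaf)))))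

/-- refutations 35 -/
def e35 : EX := (.node (.node .leaf (nat_lit 3303150309848316) (.br (nat_lit 1) (.cons (.br (nat_lit 2) (.cons (.rel (nat_lit 84149256)) .nil)) .nil)) .leaf) (nat_lit 3303150311219330) (.br (nat_lit 0) (.cons (.br (nat_lit 3) (.cons (.rel (nat_lit 277422081)) .nil)) .nil)) .leaf)

/-- refutations 36 -/
def e36 : EX := (.node (.node (.node (.node .leaf (nat_lit 4398098578122889) (.br (nat_lit 1) (.cons (.br (nat_lit 4) (.cons (.rel (nat_lit 1090524162)) .nil)) .nil)) .leaf) (nat_lit 4400624017061100) (.br (nat_lit 1) (.cons (.br (nat_lit 6) (.cons (.rel (nat_lit 17196713472)) (.cons (.rel (nat_lit 17213428737)) .nil))) (.cons (.br (nat_lit 5) (.cons (.rel (nat_lit 4312793616)) (.cons (.rel (nat_lit 4311746625)) .nil))) .nil))) .leaf) (nat_lit 4400624017633565) (.br (nat_lit 1) (.cons (.br (nat_lit 2) (.cons (.rel (nat_lit 83919360)) .nil)) .nil)) (.node .leaf (nat_lit 4400624018892937) (.br (nat_lit 1) (.cons (.br (nat_lit 4) (.cons (.rel (nat_lit 1090524162))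 .nil)) .nil)) .leaf)) (nat_lit 4400624018916135) (.br (nat_lit 4) (.cons (.br (nat_lit 0) (.cons (.rel (nat_lit 1077944385)) (.cons (.rel (nat_lit 2155872276)) .nil))) .nil)) (.node (.node .leaf (nat_lit 4400629993288441) (.br (nat_lit 0) (.cons (.br (nat_lit 1) (.cons (.rel (nat_lit 20972160)) .nil)) .nil)) .leaf) (nat_lit 4400629995799335) (.br (nat_lit 1) (.cons (.br (nat_lit 4) (.cons (.rel (nat_lit 1090524162)) .nil)) .nil)) (.node .leaf (nat_lit 4403953720445855) (.br (nat_lit 0) (.cons (.br (nat_lit 1) (.cons (.rel (nat_lit 25182216)) .nil)) .nil)) .leaf)))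

/-- refutations 37 -/
def e37 : EX := (.node (.node (.node (.node (.node .leaf (nat_lit 4404489486351712) (.br (nat_lit 1) (.cons (.br (nat_lit 3) (.cons (.rel (nat_lit 285212694)) .nil)) .nil)) .leaf) (nat_lit 4404489486643375) (.br (nat_lit 0) (.cons (.br (nat_lit 1) (.cons (.rel (nat_lit 21233682)) .nil)) .nil)) (.node .leaf (nat_lit 4404489486643855) (.br (nat_lit 0) (.cons (.br (nat_lit 1) (.cons (.rel (nat_lit 41943360)) .nil)) .nil)) .leaf)) (nat_lit 4404489486643957) (.br (nat_lit 0) (.cons (.br (nat_lit 2) (.cons (.rel (nat_lit 71303745)) .nil)) .nil)) (.node (.node .leaf (nat_lit 4404489486644110) (.br (nat_lit 2) (.cons (.br (nat_lit 5) (.cons (.rel (nat_lit 8724185172)) .nil)) .nil)) .leaf) (nat_lit 4404489486644707) (.br (nat_lit 0) (.cons (.br (nat_lit 3) (.cons (.rel (nat_lit 277872642)) .nil)) .nil)) (.node .leaf (nat_lit 4404489486910120) (.br (nat_lit 1) (.cons (.br (nat_lit 2) (.cons (.rel (nat_lit 83919360)) .nil)) .nil)) .leaf))) (nat_lit 4404489487627500)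 (.br (nat_lit 2) (.cons (.br (nat_lit 5) (.cons (.rel (nat_lit 4429254912)) .nil)) .nil)) (.node (.node (.node .leaf (nat_lit 4404489487631093) (.br (nat_lit 0) (.cons (.br (nat_lit 2) (.cons (.rel (nat_lit 72353040)) .nil)) .nil)) .leaf) (nat_lit 4404489489012065) (.br (nat_lit 1) (.cons (.br (nat_lit 2) (.cons (.rel (nat_lit 150995010)) .nil)) .nil)) (.node .leaf (nat_lit 4404489489176861) (.br (nat_lit 0) (.cons (.br (nat_lit 3) (.cons (.rel (nat_lit 272630916)) .nil)) .nil)) .leaf)) (nat_lit 4404489489177887) (.br (nat_lit 0) (.cons (.br (nat_lit 1) (.cons (.rel (nat_lit 41948433)) .nil)) .nil)) (.node (.node .leaf (nat_lit 4404489489474347) (.br (nat_lit 1) (.cons (.br (nat_lit 2) (.cons (.rel (nat_lit 167788800)) .nil)) .nil)) .leaf) (nat_lit 4404489489482535) (.br (nat_lit 1) (.cons (.br (nat_lit 2) (.cons (.rel (nat_lit 84149256)) (.cons (.rel (nat_lit 84149256)) .nil))) .nil)) (.node .leaf (nat_lit 4404495466365735) (.br (nat_lit 1) (.cons (.br (nat_lit 3) (.cons (.rel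 (nat_lit 285216897)) .nil)) .nil)) .leaf)))) (nat_lit 4405829621349663) (.br (nat_lit 1) (.cons (.br (nat_lit 3) (.cons (.rel (nat_lit 285214752)) .nil)) .nil)) (.node (.node (.node (.node .leaf (nat_lit 4405829622782133) (.br (nat_lit 0) (.cons (.br (nat_lit 2) (.cons (.rel (nat_lit 73482240)) .nil)) .nil)) .leaf) (nat_lit 4405830171018116) (.br (nat_lit 0) (.cons (.br (nat_lit 3) (.cons (.rel (nat_lit 272640000)) .nil)) .nil)) (.node .leaf (nat_lit 4405830171070640) (.br (nat_lit 0) (.cons (.br (nat_lit 2) (.cons (.rel (nat_lit 71585793)) .nil)) .nil)) .leaf)) (nat_lit 4405830171071341) (.br (nat_lit 2) (.cons (.br (nat_lit 0) (.cons (.rel (nat_lit 138412041)) (.cons (.rel (nat_lit 71585793)) .nil))) .nil)) (.node (.node .leaf (nat_lit 4405830171072019) (.br (nat_lit 0) (.cons (.br (nat_lit 2) (.cons (.rel (nat_lit 138428544)) .nil)) .nil)) .leaf) (nat_lit 4405830172362889) (.br (nat_lit 0) (.cons (.br (nat_lit 1) (.cons (.rel (nat_lit 41943360)) .nil)) .nil)) (.node .leaf (nat_lit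 4405830173119841) (.br (nat_lit 0) (.cons (.br (nat_lit 1) (.cons (.rel (nat_lit 41943360)) .nil)) .nil)) .leaf))) (nat_lit 4405830173567113) (.br (nat_lit 1) (.cons (.br (nat_lit 6) (.cons (.rel (nat_lit 17196651024)) .nil)) .nil)) (.node (.node (.node .leaf (nat_lit 4405830173623058) (.br (nat_lit 1) (.cons (.br (nat_lit 2) (.cons (.rel (nat_lit 167788800)) .nil)) .nil)) .leaf) (nat_lit 4405834914560285) (.br (nat_lit 0) (.cons (.br (nat_lit 1) (.cons (.rel (nat_lit 22085904)) .nil)) .nil)) (.node .leaf (nat_lit 4405834914831088) (.br (nat_lit 1) (.cons (.br (nat_lit 3) (.cons (.rel (nat_lit 285479184)) .nil)) .nil)) .leaf)) (nat_lit 4405834916098178) (.br (nat_lit 1) (.cons (.br (nat_lit 3) (.cons (.rel (nat_lit 285233220)) .nil)) .nil)) (.node (.node .leaf (nat_lit 4405834916120713) (.br (nat_lit 0) (.cons (.br (nat_lit 1) (.cons (.rel (nat_lit 41943360)) .nil)) .nil)) .leaf) (nat_lit 4405834917071775) (.br (nat_lit 1) (.cons (.br (nat_lit 2) (.cons (.rel (nat_lit 168951873))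 (.cons (.rel (nat_lit 100663425)) .nil))) (.cons (.br (nat_lit 2) (.cons (.rel (nat_lit 167788800)) (.cons (.rel (nat_lit 100679748)) .nil))) .nil))) .leaf))))

/-- refutations 38 -/
def e38 : EX := (.node (.node (.node .leaf (nat_lit 4408795146204396) (.br (nat_lit 0) (.cons (.br (nat_lit 2) (.cons (.rel (nat_lit 75530304)) .nil)) .nil)) .leaf) (nat_lit 4408795146728684) (.br (nat_lit 1) (.cons (.br (nat_lit 2) (.cons (.rel (nat_lit 151062528)) .nil)) .nil)) (.node .leaf (nat_lit 4408838351744261) (.br (nat_lit 1) (.cons (.br (nat_lit 2) (.cons (.rel (nat_lit 84152448)) .nil)) .nil)) .leaf)) (nat_lit 4408999858227337) (.br (nat_lit 0) (.cons (.br (nat_lit 1) (.cons (.rel (nat_lit 21233682)) .nil)) .nil)) (.node (.node .leaf (nat_lit 4409001404366111) (.br (nat_lit 4) (.cons (.br (nat_lit 0) (.cons (.rel (nat_lit 1077936168)) (.cons (.rel (nat_lit 1077936168)) .nil))) .nil)) .leaf) (nat_lit 4409004600425325) (.br (nat_lit 1) (.cons (.br (nat_lit 3) (.cons (.rel (nat_lit 285310980))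 .nil)) .nil)) (.node .leaf (nat_lit 4409308544859398) (.br (nat_lit 0) (.cons (.br (nat_lit 1) (.cons (.rel (nat_lit 20972160)) .nil)) .nil)) .leaf)))

/-- refutations 40 -/
def e40 : EX := (.node (.node (.node (.node (.node (.node .leaf (nat_lit 3166894706234099) (.br (nat_lit 3) (.cons (.br (nat_lit 0) (.cons (.rel (nat_lit 545264640)) (.cons (.rel (nat_lit 272640000)) .nil))) .nil)) .leaf) (nat_lit 3166894706747544) (.br (nat_lit 0) (.cons (.br (nat_lit 1) (.cons (.rel (nat_lit 37781508)) (.cons (.rel (nat_lit 25169952)) .nil))) (.cons (.br (nat_lit 1) (.cons (.rel (nat_lit 21331968)) (.cons (.rel (nat_lit 21233682)) .nil))) .nil))) (.node .leaf (nat_lit 3166894706747573) (.br (nat_lit 0) (.cons (.br (nat_lit 1) (.cons (.rel (nat_lit 25169952)) .nil)) .nil)) .leaf)) (nat_lit 3166894706748147) (.br (nat_lit 4) (.cons (.br (nat_lit 6) (.cons (.rel (nat_lit 36507223125)) .nil)) .nil)) (.node (.node .leaf (nat_lit 3166894707474584) (.br (nat_lit 5) (.cons (.br (nat_lit 3) (.cons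 (.rel (nat_lit 4831842312)) (.cons (.rel (nat_lit 4563419400)) (.cons (.rel (nat_lit 4831842312)) .nil)))) .nil)) .leaf) (nat_lit 3169018682049824) (.br (nat_lit 0) (.cons (.br (nat_lit 5) (.cons (.rel (nat_lit 8598458388)) .nil)) .nil)) .leaf)) (nat_lit 3172500666159256) (.br (nat_lit 0) (.cons (.br (nat_lit 2) (.cons (.rel (nat_lit 75571200)) (.cons (.rel (nat_lit 138413088)) .nil))) (.cons (.br (nat_lit 1) (.cons (.rel (nat_lit 41943360)) (.cons (.rel (nat_lit 37756944)) .nil))) .nil))) (.node (.node (.node .leaf (nat_lit 3172500666673304) (.br (nat_lit 2) (.cons (.br (nat_lit 5) (.cons (.rel (nat_lit 4362142848)) .nil)) .nil)) .leaf) (nat_lit 3172500667400344) (.br (nat_lit 3) (.cons (.br (nat_lit 4) (.cons (.rel (nat_lit 1342182672)) .nil)) .nil)) .leaf) (nat_lit 3172500667401628) (.br (nat_lit 6) (.cons (.br (nat_lit 0) (.cons (.rel (nat_lit 17184064032)) (.cons (.rel (nat_lit 34368127248)) .nil))) .nil)) (.node (.node .leaf (nat_lit 3172500668642035) (.br (nat_lit 2) (.cons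 (.br (nat_lit 3) (.cons (.rel (nat_lit 335616000)) .nil)) .nil)) .leaf) (nat_lit 3172500668689191) (.br (nat_lit 0) (.cons (.br (nat_lit 3) (.cons (.rel (nat_lit 272650242)) .nil)) .nil)) .leaf))) (nat_lit 3173130453919896) (.br (nat_lit 0) (.cons (.br (nat_lit 3) (.cons (.rel (nat_lit 272633928)) .nil)) .nil)) (.node (.node (.node (.node .leaf (nat_lit 3173130455034492) (.br (nat_lit 2) (.cons (.br (nat_lit 5) (.cons (.rel (nat_lit 8724153345)) .nil)) .nil)) .leaf) (nat_lit 3173130456000664) (.br (nat_lit 0) (.cons (.br (nat_lit 1) (.cons (.rel (nat_lit 25165893)) .nil)) .nil)) (.node .leaf (nat_lit 3173130456001148) (.br (nat_lit 1) (.cons (.br (nat_lit 2) (.cons (.rel (nat_lit 151062528)) .nil)) .nil)) .leaf)) (nat_lit 3173130998747288) (.br (nat_lit 4) (.cons (.br (nat_lit 2) (.cons (.rel (nat_lit 1140949008)) (.cons (.rel (nat_lit 2281701393)) .nil))) .nil)) (.node (.node .leaf (nat_lit 3173130999007508) (.br (nat_lit 4) (.cons (.br (nat_lit 5) (.cons (.rel (nat_lit 6442524672))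 (.cons (.rel (nat_lit 9663811584)) .nil))) .nil)) .leaf) (nat_lit 3173130999008012) (.br (nat_lit 0) (.cons (.br (nat_lit 1) (.cons (.rel (nat_lit 21331968)) .nil)) .nil)) .leaf)) (nat_lit 3173130999008032) (.br (nat_lit 1) (.cons (.br (nat_lit 3) (.cons (.rel (nat_lit 285245520)) .nil)) .nil)) (.node (.node (.node .leaf (nat_lit 3173130999008039) (.br (nat_lit 4) (.cons (.br (nat_lit 6) (.cons (.rel (nat_lit 18253617237)) .nil)) .nil)) .leaf) (nat_lit 3173130999233174) (.br (nat_lit 0) (.cons (.br (nat_lit 1) (.cons (.rel (nat_lit 20972160)) .nil)) .nil)) .leaf) (nat_lit 3173130999261336) (.br (nat_lit 4) (.cons (.br (nat_lit 5) (.cons (.rel (nat_lit 5369757768)) (.cons (.rel (nat_lit 5368709520)) .nil))) (.cons (.br (nat_lit 5) (.cons (.rel (nat_lit 5368729857)) (.cons (.rel (nat_lit 5369233473)) .nil))) .nil))) (.node (.node .leaf (nat_lit 3173130999261460) (.br (nat_lit 6) (.cons (.br (nat_lit 0) (.cons (.rel (nat_lit 17186160708)) (.cons (.rel (nat_lit 34368127248)) .nil)))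 .nil)) .leaf) (nat_lit 3173131000502424) (.br (nat_lit 4) (.cons (.br (nat_lit 3) (.cons (.rel (nat_lit 1342182672)) (.cons (.rel (nat_lit 1342177602)) (.cons (.rel (nat_lit 1342193925)) .nil)))) .nil)) .leaf)))) (nat_lit 3173131000503708) (.br (nat_lit 3) (.cons (.br (nat_lit 4) (.cons (.rel (nat_lit 1342193925)) .nil)) .nil)) (.node (.node (.node (.node (.node .leaf (nat_lit 3173131001230067) (.br (nat_lit 5) (.cons (.br (nat_lit 3) (.cons (.rel (nat_lit 4563407136)) (.cons (.rel (nat_lit 4563407136)) .nil))) .nil)) .leaf) (nat_lit 3173131001260184) (.br (nat_lit 0) (.cons (.br (nat_lit 4) (.cons (.rel (nat_lit 1077936168)) .nil)) .nil)) (.node .leaf (nat_lit 3173131001260214) (.br (nat_lit 0) (.cons (.br (nat_lit 4) (.cons (.rel (nat_lit 1077936168)) .nil)) .nil)) .leaf)) (nat_lit 3173131001260832) (.br (nat_lit 4) (.cons (.br (nat_lit 1) (.cons (.rel (nat_lit 1090519137)) (.cons (.rel (nat_lit 1090523160)) .nil))) .nil)) (.node (.node .leaf (nat_lit 3173131590363196) (.br (nat_lit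 1) (.cons (.br (nat_lit 2) (.cons (.rel (nat_lit 167788800)) .nil)) .nil)) .leaf) (nat_lit 3173131590658200) (.br (nat_lit 6) (.cons (.br (nat_lit 0) (.cons (.rel (nat_lit 34363949073)) (.cons (.rel (nat_lit 17184330768)) .nil))) .nil)) .leaf)) (nat_lit 3173133583984792) (.br (nat_lit 0) (.cons (.br (nat_lit 5) (.cons (.rel (nat_lit 8598323217)) .nil)) .nil)) (.node (.node (.node .leaf (nat_lit 3173134308485272) (.br (nat_lit 0) (.cons (.br (nat_lit 2) (.cons (.rel (nat_lit 71569482)) .nil)) .nil)) .leaf) (nat_lit 3173134309599384) (.br (nat_lit 0) (.cons (.br (nat_lit 1) (.cons (.rel (nat_lit 25169952)) (.cons (.rel (nat_lit 21233682)) .nil))) .nil)) .leaf) (nat_lit 3174201473208472) (.br (nat_lit 2) (.cons (.br (nat_lit 5) (.cons (.rel (nat_lit 4362142848)) .nil)) .nil)) (.node (.node .leaf (nat_lit 3174201473722520) (.br (nat_lit 4) (.cons (.br (nat_lit 5) (.cons (.rel (nat_lit 6442483776)) (.cons (.rel (nat_lit 5368709520)) .nil))) (.cons (.br (nat_lit 5) (.cons (.rel (nat_lit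 5369249796)) (.cons (.rel (nat_lit 5368774980)) .nil))) .nil))) .leaf) (nat_lit 3177546225387796) (.br (nat_lit 1) (.cons (.br (nat_lit 3) (.cons (.rel (nat_lit 285310980)) .nil)) .nil)) .leaf))) (nat_lit 3177546227610355) (.br (nat_lit 5) (.cons (.br (nat_lit 1) (.cons (.rel (nat_lit 4311744612)) (.cons (.rel (nat_lit 4311761937)) .nil))) .nil)) (.node (.node (.node (.node .leaf (nat_lit 3177606356473218) (.br (nat_lit 1) (.cons (.br (nat_lit 2) (.cons (.rel (nat_lit 84152448)) .nil)) .nil)) .leaf) (nat_lit 3177803923679384) (.br (nat_lit 1) (.cons (.br (nat_lit 3) (.cons (.rel (nat_lit 285230208)) (.cons (.rel (nat_lit 553926660)) .nil))) .nil)) (.node .leaf (nat_lit 3177803923679987) (.br (nat_lit 1) (.cons (.br (nat_lit 2) (.cons (.rel (nat_lit 84149256)) .nil)) .nil)) .leaf)) (nat_lit 3177803925678232) (.br (nat_lit 0) (.cons (.br (nat_lit 1) (.cons (.rel (nat_lit 20972160)) .nil)) .nil)) (.node (.node .leaf (nat_lit 3177807234984088) (.br (nat_lit 0) (.cons (.br (nat_lit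 1) (.cons (.rel (nat_lit 37756944)) .nil)) .nil)) .leaf) (nat_lit 3177809276644615) (.br (nat_lit 1) (.cons (.br (nat_lit 2) (.cons (.rel (nat_lit 84148245)) .nil)) .nil)) .leaf)) (nat_lit 3177809276792160) (.br (nat_lit 0) (.cons (.br (nat_lit 2) (.cons (.rel (nat_lit 71585793)) .nil)) .nil)) (.node (.node (.node .leaf (nat_lit 3177809277610784) (.br (nat_lit 0) (.cons (.br (nat_lit 1) (.cons (.rel (nat_lit 26476608)) .nil)) .nil)) .leaf) (nat_lit 3178725777838232) (.br (nat_lit 0) (.cons (.br (nat_lit 1) (.cons (.rel (nat_lit 23068692)) .nil)) .nil)) .leaf) (nat_lit 3178725778352280) (.br (nat_lit 3) (.cons (.br (nat_lit 4) (.cons (.rel (nat_lit 1610613825)) .nil)) .nil)) (.node (.node .leaf (nat_lit 3179489738672403) (.br (nat_lit 0) (.cons (.br (nat_lit 1) (.cons (.rel (nat_lit 21233682)) .nil)) .nil)) .leaf) (nat_lit 3179492904790816) (.br (nat_lit 0) (.cons (.br (nat_lit 1) (.cons (.rel (nat_lit 21233682)) .nil)) .nil)) .leaf)))))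

/-- refutations 41 -/
def e41 : EX := (.node (.node (.node .leaf (nat_lit 4418010703702326) (.br (nat_lit 1) (.cons (.br (nat_lit 3) (.cons (.rel (nat_lit 285212694)) .nil)) .nil)) .leaf) (nat_lit 4422314260916534) (.br (nat_lit 0) (.cons (.br (nat_lit 2) (.cons (.rel (nat_lit 71599104)) .nil)) .nil)) .leaf) (nat_lit 4427511171361078) (.br (nat_lit 2) (.cons (.br (nat_lit 3) (.cons (.rel (nat_lit 335544468)) .nil)) .nil)) (.node (.node .leaf (nat_lit 4427513917403446) (.br (nat_lit 0) (.cons (.br (nat_lit 2) (.cons (.rel (nat_lit 71630916)) .nil)) .nil)) .leaf) (nat_lit 4427720077060406) (.br (nat_lit 4) (.cons (.br (nat_lit 0) (.cons (.rel (nat_lit 1077938181)) (.cons (.rel (nat_lit 1078022145)) .nil))) .nil)) .leaf))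

/-- refutations 42 -/
def e42 : EX := (.node (.node (.node (.node (.node .leaf (nat_lit 4487519320201218) (.br (nat_lit 0) (.cons (.br (nat_lit 2) (.cons (.rel (nat_lit 71320068)) .nil)) .nil)) .leaf) (nat_lit 4487525250912261) (.br (nat_lit 0) (.cons (.br (nat_lit 1) (.cons (.rel (nat_lit 37765185)) .nil)) .nil)) .leaf) (nat_lit 4488627895689478) (.br (nat_lit 2) (.cons (.br (nat_lit 6) (.cons (.rel (nat_lit 17246980608)) .nil)) .nil)) (.node (.node .leaf (nat_lit 4488627895690027) (.br (nat_lit 3) (.cons (.br (nat_lit 4) (.cons (.rel (nat_lit 1342177602)) .nil)) .nil)) .leaf) (nat_lit 4488627895721338) (.br (nat_lit 1) (.cons (.br (nat_lit 5) (.cons (.rel (nat_lit 4311749637)) .nil)) .nil)) .leaf)) (nat_lit 4488627895982355) (.br (nat_lit 0) (.cons (.br (nat_lit 1) (.cons (.rel (nat_lit 20972160)) .nil)) .nil)) (.node (.node (.node .leaf (nat_lit 4488627895983331) (.br (nat_lit 0) (.cons (.br (nat_lit 2) (.cons (.rel (nat_lit 71320068)) .nil)) .nil)) .leaf) (nat_lit 4488627895983482)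 (.br (nat_lit 3) (.cons (.br (nat_lit 4) (.cons (.rel (nat_lit 1342193925)) .nil)) .nil)) .leaf) (nat_lit 4488627896970467) (.br (nat_lit 0) (.cons (.br (nat_lit 1) (.cons (.rel (nat_lit 25165893)) .nil)) .nil)) (.node (.node .leaf (nat_lit 4488627898862205) (.br (nat_lit 0) (.cons (.br (nat_lit 2) (.cons (.rel (nat_lit 139722756)) .nil)) .nil)) .leaf) (nat_lit 4488627898862350) (.br (nat_lit 3) (.cons (.br (nat_lit 4) (.cons (.rel (nat_lit 1610614884)) .nil)) .nil)) .leaf))) (nat_lit 4491823047988082) (.br (nat_lit 0) (.cons (.br (nat_lit 2) (.cons (.rel (nat_lit 75530304)) .nil)) .nil)) (.node (.node (.node (.node .leaf (nat_lit 4492450416826630) (.br (nat_lit 0) (.cons (.br (nat_lit 2) (.cons (.rel (nat_lit 75497478)) .nil)) .nil)) .leaf) (nat_lit 4492450416875830) (.br (nat_lit 6) (.cons (.br (nat_lit 0) (.cons (.rel (nat_lit 17184064032)) (.cons (.rel (nat_lit 17184064032)) (.cons (.rel (nat_lit 17185120545)) .nil)))) .nil)) .leaf) (nat_lit 4492450417892630) (.br (nat_lit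 2) (.cons (.br (nat_lit 3) (.cons (.rel (nat_lit 336593472)) .nil)) .nil)) (.node (.node .leaf (nat_lit 4492453038123770) (.br (nat_lit 1) (.cons (.br (nat_lit 2) (.cons (.rel (nat_lit 100766784)) .nil)) .nil)) .leaf) (nat_lit 4492456414466310) (.br (nat_lit 0) (.cons (.br (nat_lit 2) (.cons (.rel (nat_lit 71630916)) .nil)) .nil)) .leaf)) (nat_lit 4492456415747350) (.br (nat_lit 0) (.cons (.br (nat_lit 6) (.cons (.rel (nat_lit 17185177920)) .nil)) .nil)) (.node (.node (.node .leaf (nat_lit 4492456415952379) (.br (nat_lit 3) (.cons (.br (nat_lit 4) (.cons (.rel (nat_lit 1610616837)) .nil)) .nil)) .leaf) (nat_lit 4492456417505540) (.br (nat_lit 0) (.cons (.br (nat_lit 3) (.cons (.rel (nat_lit 541327368)) .nil)) .nil)) .leaf) (nat_lit 4496799048917803) (.br (nat_lit 0) (.cons (.br (nat_lit 1) (.cons (.rel (nat_lit 25232400)) .nil)) .nil)) (.node (.node .leaf (nat_lit 4496842231618787) (.br (nat_lit 0) (.cons (.br (nat_lit 6) (.cons (.rel (nat_lit 17184393216)) (.cons (.rel (nat_lit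 17184195144)) .nil))) .nil)) .leaf) (nat_lit 4496842231618816) (.br (nat_lit 0) (.cons (.br (nat_lit 1) (.cons (.rel (nat_lit 25182216)) .nil)) .nil)) .leaf))))

/-- refutations 43 -/
def e43 : EX := (.node (.node (.node (.node .leaf (nat_lit 4857599463910138) (.br (nat_lit 1) (.cons (.br (nat_lit 6) (.cons (.rel (nat_lit 17196941313)) .nil)) .nil)) .leaf) (nat_lit 4857819549874988) (.br (nat_lit 0) (.cons (.br (nat_lit 3) (.cons (.rel (nat_lit 272650242)) (.cons (.rel (nat_lit 272695365)) .nil))) .nil)) .leaf) (nat_lit 4857823503823659) (.br (nat_lit 0) (.cons (.br (nat_lit 1) (.cons (.rel (nat_lit 25182216)) .nil)) .nil)) (.node .leaf (nat_lit 4863449293139978) (.br (nat_lit 0) (.cons (.br (nat_lit 1) (.cons (.rel (nat_lit 41943360)) .nil)) .nil)) .leaf)) (nat_lit 4863449293140643) (.br (nat_lit 0) (.cons (.br (nat_lit 1) (.cons (.rel (nat_lit 21233682)) .nil)) .nil)) (.node (.node (.node .leaf (nat_lit 4863449912582404) (.br (nat_lit 0) (.cons (.br (nat_lit 3) (.cons (.rel (nat_lit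 272630916)) .nil)) .nil)) .leaf) (nat_lit 4863450241669380) (.br (nat_lit 1) (.cons (.br (nat_lit 2) (.cons (.rel (nat_lit 84230208)) .nil)) .nil)) .leaf) (nat_lit 4867317814750560) (.br (nat_lit 3) (.cons (.br (nat_lit 1) (.cons (.rel (nat_lit 570426384)) (.cons (.rel (nat_lit 285214752)) .nil))) .nil)) (.node .leaf (nat_lit 4868821178892970) (.br (nat_lit 0) (.cons (.br (nat_lit 1) (.cons (.rel (nat_lit 23068692)) .nil)) .nil)) .leaf)))

/-- refutations 44 -/
def e44 : EX := (.node (.node (.node (.node .leaf (nat_lit 5051208482281532) (.br (nat_lit 3) (.cons (.br (nat_lit 6) (.cons (.rel (nat_lit 17448337536)) .nil)) .nil)) .leaf) (nat_lit 5051208482282158) (.br (nat_lit 1) (.cons (.br (nat_lit 2) (.cons (.rel (nat_lit 100663425)) .nil)) .nil)) .leaf) (nat_lit 5051208482282784) (.br (nat_lit 3) (.cons (.br (nat_lit 6) (.cons (.rel (nat_lit 34896625728)) .nil)) .nil)) (.node (.node .leaf (nat_lit 5051208484971403) (.br (nat_lit 0) (.cons (.br (nat_lit 6) (.cons (.rel (nat_lit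 17184330768)) .nil)) .nil)) .leaf) (nat_lit 5051540717447424) (.br (nat_lit 4) (.cons (.br (nat_lit 6) (.cons (.rel (nat_lit 18253873440)) .nil)) .nil)) .leaf)) (nat_lit 5055406187858200) (.br (nat_lit 2) (.cons (.br (nat_lit 5) (.cons (.rel (nat_lit 4362078210)) .nil)) .nil)) (.node (.node (.node .leaf (nat_lit 5055406188013824) (.br (nat_lit 6) (.cons (.br (nat_lit 1) (.cons (.rel (nat_lit 17213428737)) (.cons (.rel (nat_lit 34376515728)) .nil))) .nil)) .leaf) (nat_lit 5055406189377792) (.br (nat_lit 2) (.cons (.br (nat_lit 0) (.cons (.rel (nat_lit 71303745)) (.cons (.rel (nat_lit 142674240)) .nil))) .nil)) .leaf) (nat_lit 5055406190664465) (.br (nat_lit 1) (.cons (.br (nat_lit 2) (.cons (.rel (nat_lit 84152448)) .nil)) .nil)) (.node .leaf (nat_lit 5055406190664491) (.br (nat_lit 0) (.cons (.br (nat_lit 1) (.cons (.rel (nat_lit 21254208)) .nil)) .nil)) .leaf)))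

/-- refutations 45 -/
def e45 : EX := (.node (.node (.node (.node (.node .leaf (nat_lit 5056903193317538) (.br (nat_lit 2) (.cons (.br (nat_lit 0) (.cons (.rel (nat_lit 71565456)) (.cons (.rel (nat_lit 71320068)) .nil))) .nil)) .leaf) (nat_lit 5056904343070976) (.br (nat_lit 4) (.cons (.br (nat_lit 3) (.cons (.rel (nat_lit 1342701600)) (.cons (.rel (nat_lit 2684616720)) .nil))) .nil)) .leaf) (nat_lit 5056904343072121) (.br (nat_lit 3) (.cons (.br (nat_lit 5) (.cons (.rel (nat_lit 4563403077)) .nil)) .nil)) (.node .leaf (nat_lit 5056904343123998) (.br (nat_lit 2) (.cons (.br (nat_lit 5) (.cons (.rel (nat_lit 4429254912)) .nil)) .nil)) .leaf)) (nat_lit 5056904343819616) (.br (nat_lit 2) (.cons (.br (nat_lit 3) (.cons (.rel (nat_lit 336875520)) .nil)) .nil)) (.node (.node .leaf (nat_lit 5056904344436089) (.br (nat_lit 0) (.cons (.br (nat_lit 3) (.cons (.rel (nat_lit 272699424)) .nil)) .nil)) .leaf) (nat_lit 5056904344436218) (.br (nat_lit 3) (.cons (.br (nat_lit 4) (.cons (.rel (nat_lit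 1342701600)) .nil)) .nil)) (.node .leaf (nat_lit 5056904345660768) (.br (nat_lit 0) (.cons (.br (nat_lit 1) (.cons (.rel (nat_lit 25169952)) .nil)) .nil)) .leaf))) (nat_lit 5056906966845696) (.br (nat_lit 1) (.cons (.br (nat_lit 2) (.cons (.rel (nat_lit 84149256)) .nil)) .nil)) (.node (.node (.node .leaf (nat_lit 5060170113312798) (.br (nat_lit 0) (.cons (.br (nat_lit 1) (.cons (.rel (nat_lit 41943360)) .nil)) .nil)) .leaf) (nat_lit 5060829209973498) (.br (nat_lit 0) (.cons (.br (nat_lit 1) (.cons (.rel (nat_lit 21233682)) .nil)) .nil)) (.node .leaf (nat_lit 5061090263990528) (.br (nat_lit 0) (.cons (.br (nat_lit 1) (.cons (.rel (nat_lit 25165893)) .nil)) .nil)) .leaf)) (nat_lit 5061090264951040) (.br (nat_lit 1) (.cons (.br (nat_lit 2) (.cons (.rel (nat_lit 167788800)) .nil)) .nil)) (.node (.node .leaf (nat_lit 5061090264992000) (.br (nat_lit 1) (.cons (.br (nat_lit 2) (.cons (.rel (nat_lit 84149256)) .nil)) .nil)) .leaf) (nat_lit 5061090265245952) (.br (nat_lit 1) (.cons (.br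 (nat_lit 2) (.cons (.rel (nat_lit 100663425)) (.cons (.rel (nat_lit 84148245)) .nil))) .nil)) (.node .leaf (nat_lit 5061092304852231) (.br (nat_lit 1) (.cons (.br (nat_lit 2) (.cons (.rel (nat_lit 150995010)) .nil)) .nil)) .leaf))))

/-- refutations 47 -/
def e47 : EX := (.node (.node (.node (.node (.node .leaf (nat_lit 5296546128583563) (.br (nat_lit 0) (.cons (.br (nat_lit 1) (.cons (.rel (nat_lit 41943360)) .nil)) .nil)) .leaf) (nat_lit 5297624303857970) (.br (nat_lit 1) (.cons (.br (nat_lit 2) (.cons (.rel (nat_lit 84940032)) .nil)) .nil)) .leaf) (nat_lit 5300669011829021) (.br (nat_lit 1) (.cons (.br (nat_lit 2) (.cons (.rel (nat_lit 84152448)) .nil)) .nil)) (.node .leaf (nat_lit 5300831561766250) (.br (nat_lit 0) (.cons (.br (nat_lit 4) (.cons (.rel (nat_lit 1077936168)) .nil)) .nil)) .leaf)) (nat_lit 5306434933805838) (.br (nat_lit 1) (.cons (.br (nat_lit 2) (.cons (.rel (nat_lit 84152448)) .nil)) .nil)) (.node (.node (.node .leaf (nat_lit 5306434933825821) (.br (nat_lit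 1) (.cons (.br (nat_lit 2) (.cons (.rel (nat_lit 100663425)) .nil)) .nil)) .leaf) (nat_lit 5306434933825846) (.br (nat_lit 0) (.cons (.br (nat_lit 1) (.cons (.rel (nat_lit 21254208)) .nil)) .nil)) .leaf) (nat_lit 5306434933877021) (.br (nat_lit 1) (.cons (.br (nat_lit 6) (.cons (.rel (nat_lit 34376549376)) .nil)) .nil)) (.node .leaf (nat_lit 5306434933877498) (.br (nat_lit 1) (.cons (.br (nat_lit 2) (.cons (.rel (nat_lit 100795392)) .nil)) .nil)) .leaf))) (nat_lit 5306434934110493) (.br (nat_lit 1) (.cons (.br (nat_lit 2) (.cons (.rel (nat_lit 100663425)) (.cons (.rel (nat_lit 100663425)) .nil))) .nil)) (.node (.node (.node (.node .leaf (nat_lit 5306434935615773) (.br (nat_lit 0) (.cons (.br (nat_lit 1) (.cons (.rel (nat_lit 37756944)) (.cons (.rel (nat_lit 25182216)) .nil))) (.cons (.br (nat_lit 1) (.cons (.rel (nat_lit 41943360)) (.cons (.rel (nat_lit 41943360)) .nil))) .nil))) .leaf) (nat_lit 5306434935615788) (.br (nat_lit 0) (.cons (.br (nat_lit 1) (.cons (.rel (nat_lit 20972160))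 .nil)) .nil)) .leaf) (nat_lit 5306434935616250) (.br (nat_lit 0) (.cons (.br (nat_lit 1) (.cons (.rel (nat_lit 21254208)) (.cons (.rel (nat_lit 20972160)) .nil))) .nil)) (.node .leaf (nat_lit 5306434935616799) (.br (nat_lit 6) (.cons (.br (nat_lit 2) (.cons (.rel (nat_lit 17248550976)) (.cons (.br (nat_lit 5) (.cons (.rel (nat_lit 4362080400)) (.cons (.rel (nat_lit 38654705922)) (.cons (.rel (nat_lit 21474870276)) (.cons (.rel (nat_lit 21475100928)) .nil))))) .nil))) .nil)) .leaf)) (nat_lit 5306434935646493) (.br (nat_lit 0) (.cons (.br (nat_lit 1) (.cons (.rel (nat_lit 41943360)) .nil)) .nil)) (.node (.node .leaf (nat_lit 5306434936322678) (.br (nat_lit 1) (.cons (.br (nat_lit 2) (.cons (.rel (nat_lit 150995010)) .nil)) .nil)) .leaf) (nat_lit 5306434936623916) (.br (nat_lit 0) (.cons (.br (nat_lit 1) (.cons (.rel (nat_lit 41943360)) .nil)) .nil)) (.node .leaf (nat_lit 5306434936950242) (.br (nat_lit 0) (.cons (.br (nat_lit 1) (.cons (.rel (nat_lit 21233682)) .nil)) .nil)) .leaf))))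

/-- refutations 48 -/
def e48 : EX := (.node (.node (.node (.node (.node .leaf (nat_lit 11083100176267391) (.br (nat_lit 1) (.cons (.br (nat_lit 3) (.cons (.rel (nat_lit 285214752)) .nil)) .nil)) .leaf) (nat_lit 11083129273774891) (.br (nat_lit 2) (.cons (.br (nat_lit 5) (.cons (.rel (nat_lit 4430237700)) .nil)) .nil)) .leaf) (nat_lit 11083129274718483) (.br (nat_lit 2) (.cons (.br (nat_lit 5) (.cons (.rel (nat_lit 4430237700)) .nil)) .nil)) (.node .leaf (nat_lit 11084374519061157) (.br (nat_lit 1) (.cons (.br (nat_lit 4) (.cons (.rel (nat_lit 1090523160)) .nil)) .nil)) .leaf)) (nat_lit 11084374520083109) (.br (nat_lit 0) (.cons (.br (nat_lit 2) (.cons (.rel (nat_lit 71585793)) .nil)) .nil)) (.node (.node (.node .leaf (nat_lit 11085225216544930) (.br (nat_lit 0) (.cons (.br (nat_lit 1) (.cons (.rel (nat_lit 25169952)) .nil)) .nil)) .leaf) (nat_lit 11088884219265709) (.br (nat_lit 1) (.cons (.br (nat_lit 3) (.cons (.rel (nat_lit 570426384)) .nil)) .nil)) .leaf) (nat_lit 11089519889881765)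 (.br (nat_lit 1) (.cons (.br (nat_lit 5) (.cons (.rel (nat_lit 4311748626)) .nil)) .nil)) (.node .leaf (nat_lit 11089519890903717) (.br (nat_lit 4) (.cons (.br (nat_lit 5) (.cons (.rel (nat_lit 5368709520)) .nil)) .nil)) .leaf))) (nat_lit 11089519891169957) (.br (nat_lit 3) (.cons (.br (nat_lit 5) (.cons (.rel (nat_lit 4831838289)) .nil)) .nil)) (.node (.node (.node (.node .leaf (nat_lit 11089519892185725) (.br (nat_lit 1) (.cons (.br (nat_lit 2) (.cons (.rel (nat_lit 167788800)) .nil)) .nil)) .leaf) (nat_lit 11089519892791973) (.br (nat_lit 5) (.cons (.br (nat_lit 0) (.cons (.rel (nat_lit 8598323217)) (.cons (.rel (nat_lit 4299162645)) .nil))) .nil)) .leaf) (nat_lit 11089519892810003) (.br (nat_lit 0) (.cons (.br (nat_lit 2) (.cons (.rel (nat_lit 75571200)) .nil)) .nil)) (.node .leaf (nat_lit 11089520183277698) (.br (nat_lit 1) (.cons (.br (nat_lit 2) (.cons (.rel (nat_lit 84148245)) .nil)) .nil)) .leaf)) (nat_lit 11089520186095616) (.br (nat_lit 1) (.cons (.br (nat_lit 3) (.cons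 (.rel (nat_lit 570426384)) .nil)) .nil)) (.node (.node .leaf (nat_lit 11089520186402946) (.br (nat_lit 0) (.cons (.br (nat_lit 1) (.cons (.rel (nat_lit 25169952)) .nil)) .nil)) .leaf) (nat_lit 11089522417415420) (.br (nat_lit 4) (.cons (.br (nat_lit 5) (.cons (.rel (nat_lit 6442453008)) .nil)) .nil)) (.node .leaf (nat_lit 11089524929853440) (.br (nat_lit 1) (.cons (.br (nat_lit 5) (.cons (.rel (nat_lit 4311748626)) .nil)) .nil)) .leaf))))

/-- refutations 49 -/
def e49 : EX := (.node (.node (.node .leaf (nat_lit 11090828103316713) (.br (nat_lit 4) (.cons (.br (nat_lit 5) (.cons (.rel (nat_lit 6442483776)) .nil)) .nil)) .leaf) (nat_lit 11091023129457317) (.br (nat_lit 4) (.cons (.br (nat_lit 5) (.cons (.rel (nat_lit 6442453008)) .nil)) .nil)) (.node .leaf (nat_lit 11091041346911144) (.br (nat_lit 2) (.cons (.br (nat_lit 3) (.cons (.rel (nat_lit 335548482)) .nil)) .nil)) .leaf)) (nat_lit 11091085802018025) (.br (nat_lit 0) (.cons (.br (nat_lit 1) (.cons (.rel (nat_lit 41943360))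 .nil)) .nil)) (.node (.node .leaf (nat_lit 11093834579829993) (.br (nat_lit 0) (.cons (.br (nat_lit 1) (.cons (.rel (nat_lit 41943360)) .nil)) .nil)) .leaf) (nat_lit 11094095380976493) (.br (nat_lit 0) (.cons (.br (nat_lit 2) (.cons (.rel (nat_lit 75571200)) .nil)) .nil)) (.node .leaf (nat_lit 11094095380977047) (.br (nat_lit 0) (.cons (.br (nat_lit 1) (.cons (.rel (nat_lit 21233682)) .nil)) .nil)) .leaf)))

/-- refutations 50 -/
def e50 : EX := (.node (.node (.node (.node .leaf (nat_lit 11206279318254829) (.br (nat_lit 4) (.cons (.br (nat_lit 0) (.cons (.rel (nat_lit 1077944385)) (.cons (.rel (nat_lit 2152009728)) .nil))) .nil)) .leaf) (nat_lit 11206279319595689) (.br (nat_lit 2) (.cons (.br (nat_lit 5) (.cons (.rel (nat_lit 4362078210)) (.cons (.br (nat_lit 1) (.cons (.rel (nat_lit 167788800)) (.cons (.rel (nat_lit 83919360)) (.cons (.rel (nat_lit 4311846912)) .nil)))) .nil))) (.cons (.br (nat_lit 1) (.cons (.rel (nat_lit 151000080)) (.cons (.rel (nat_lit 151134240)) (.cons (.rel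 (nat_lit 151000080)) .nil)))) .nil))) (.node .leaf (nat_lit 11206279319596295) (.br (nat_lit 2) (.cons (.br (nat_lit 1) (.cons (.rel (nat_lit 151000080)) (.cons (.rel (nat_lit 84152448)) (.cons (.rel (nat_lit 151134240)) .nil)))) .nil)) .leaf)) (nat_lit 11206708919585700) (.br (nat_lit 0) (.cons (.br (nat_lit 1) (.cons (.rel (nat_lit 21233682)) .nil)) .nil)) (.node (.node .leaf (nat_lit 11207339463486121) (.br (nat_lit 1) (.cons (.br (nat_lit 3) (.cons (.rel (nat_lit 285310980)) (.cons (.rel (nat_lit 285214752)) (.cons (.rel (nat_lit 285286416)) .nil)))) (.cons (.br (nat_lit 3) (.cons (.rel (nat_lit 285214752)) (.cons (.rel (nat_lit 285212694)) (.cons (.rel (nat_lit 285348864)) .nil)))) (.cons (.br (nat_lit 3) (.cons (.rel (nat_lit 285348864)) (.cons (.br (nat_lit 4) (.cons (.rel (nat_lit 1343504640)) (.cons (.rel (nat_lit 1343234112)) (.cons (.rel (nat_lit 1343311872)) .nil)))) (.cons (.rel (nat_lit 285348864)) .nil)))) .nil)))) .leaf) (nat_lit 11207341929736873) (.br (nat_lit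 6) (.cons (.br (nat_lit 4) (.cons (.rel (nat_lit 18253631490)) (.cons (.rel (nat_lit 18253621248)) .nil))) .nil)) (.node .leaf (nat_lit 11207341929737479) (.br (nat_lit 6) (.cons (.br (nat_lit 3) (.cons (.rel (nat_lit 17448337536)) (.cons (.rel (nat_lit 17448337536)) (.cons (.rel (nat_lit 17448321033)) (.cons (.br (nat_lit 2) (.cons (.rel (nat_lit 335544468)) (.cons (.rel (nat_lit 17247256584)) (.cons (.rel (nat_lit 671154192)) .nil)))) .nil))))) .nil)) .leaf))) (nat_lit 11207345124774050) (.br (nat_lit 0) (.cons (.br (nat_lit 2) (.cons (.rel (nat_lit 71599104)) .nil)) .nil)) (.node (.node (.node .leaf (nat_lit 11207345124774693) (.br (nat_lit 0) (.cons (.br (nat_lit 1) (.cons (.rel (nat_lit 37756944)) .nil)) .nil)) .leaf) (nat_lit 11208376495137030) (.br (nat_lit 1) (.cons (.br (nat_lit 3) (.cons (.rel (nat_lit 285286416)) .nil)) .nil)) (.node .leaf (nat_lit 11208607296371369) (.br (nat_lit 0) (.cons (.br (nat_lit 2) (.cons (.rel (nat_lit 71630916)) (.cons (.rel (nat_lit 75530304))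 .nil))) .nil)) .leaf)) (nat_lit 11208799752265780) (.br (nat_lit 0) (.cons (.br (nat_lit 2) (.cons (.rel (nat_lit 75530304)) .nil)) .nil)) (.node (.node .leaf (nat_lit 11208802218618119) (.br (nat_lit 2) (.cons (.br (nat_lit 4) (.cons (.rel (nat_lit 1141129476)) .nil)) .nil)) .leaf) (nat_lit 11211698022060794) (.br (nat_lit 3) (.cons (.br (nat_lit 4) (.cons (.rel (nat_lit 1342245120)) .nil)) .nil)) .leaf)))

/-- refutations 51 -/
def e51 : EX := (.node (.node (.node (.node (.node .leaf (nat_lit 11212124057053865) (.br (nat_lit 3) (.cons (.br (nat_lit 1) (.cons (.rel (nat_lit 285348864)) (.cons (.rel (nat_lit 285214752)) (.cons (.rel (nat_lit 570426384)) (.cons (.rel (nat_lit 570426384)) (.cons (.rel (nat_lit 285348864)) .nil)))))) (.cons (.br (nat_lit 6) (.cons (.rel (nat_lit 17448306768)) (.cons (.rel (nat_lit 17448321033)) (.cons (.rel (nat_lit 17448309780)) .nil)))) (.cons (.br (nat_lit 0) (.cons (.rel (nat_lit 272629905)) (.cons (.rel (nat_lit 545264640)) (.cons (.rel (nat_lit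 272630916)) (.cons (.rel (nat_lit 272640000)) (.cons (.rel (nat_lit 272640000)) .nil)))))) .nil)))) .leaf) (nat_lit 11212124057054471) (.br (nat_lit 5) (.cons (.br (nat_lit 4) (.cons (.rel (nat_lit 6442524672)) (.cons (.rel (nat_lit 9663692928)) .nil))) .nil)) (.node .leaf (nat_lit 11212124319914246) (.br (nat_lit 0) (.cons (.br (nat_lit 3) (.cons (.rel (nat_lit 545264640)) (.cons (.rel (nat_lit 272630916)) .nil))) .nil)) .leaf)) (nat_lit 11212124319914665) (.br (nat_lit 2) (.cons (.br (nat_lit 6) (.cons (.rel (nat_lit 17247256584)) .nil)) .nil)) (.node (.node .leaf (nat_lit 11212124320004156) (.br (nat_lit 1) (.cons (.br (nat_lit 4) (.cons (.rel (nat_lit 1090519137)) .nil)) .nil)) .leaf) (nat_lit 11212124320168066) (.br (nat_lit 1) (.cons (.br (nat_lit 2) (.cons (.rel (nat_lit 167788800)) .nil)) .nil)) .leaf)) (nat_lit 11212124320178306) (.br (nat_lit 1) (.cons (.br (nat_lit 0) (.cons (.rel (nat_lit 23068692)) (.cons (.rel (nat_lit 41943360)) .nil))) .nil)) (.node (.node (.node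 .leaf (nat_lit 11212124321513634) (.br (nat_lit 3) (.cons (.br (nat_lit 6) (.cons (.rel (nat_lit 17448337536)) .nil)) .nil)) .leaf) (nat_lit 11212124321514102) (.br (nat_lit 3) (.cons (.br (nat_lit 5) (.cons (.rel (nat_lit 4831839300)) .nil)) .nil)) (.node .leaf (nat_lit 11212124321515027) (.br (nat_lit 3) (.cons (.br (nat_lit 6) (.cons (.rel (nat_lit 17448321033)) .nil)) .nil)) .leaf)) (nat_lit 11212124322769696) (.br (nat_lit 1) (.cons (.br (nat_lit 6) (.cons (.rel (nat_lit 17196941313)) (.cons (.rel (nat_lit 17196917760)) .nil))) (.cons (.br (nat_lit 3) (.cons (.rel (nat_lit 285479184)) (.cons (.rel (nat_lit 285541632)) (.cons (.rel (nat_lit 285230208)) (.cons (.rel (nat_lit 285286416)) .nil))))) .nil))) (.node (.node .leaf (nat_lit 11212124322769823) (.br (nat_lit 5) (.cons (.br (nat_lit 2) (.cons (.rel (nat_lit 4429254912)) (.cons (.rel (nat_lit 4362080400)) (.cons (.rel (nat_lit 4429254912)) (.cons (.rel (nat_lit 4362207297)) (.cons (.rel (nat_lit 4362078210)) (.cons (.rel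 (nat_lit 4362100737)) .nil))))))) .nil)) .leaf) (nat_lit 11212126679673739) (.br (nat_lit 0) (.cons (.br (nat_lit 3) (.cons (.rel (nat_lit 272695365)) .nil)) .nil)) .leaf))) (nat_lit 11212130299201837) (.br (nat_lit 6) (.cons (.br (nat_lit 0) (.cons (.rel (nat_lit 17184393216)) (.cons (.rel (nat_lit 17184064032)) .nil))) .nil)) (.node (.node (.node (.node .leaf (nat_lit 11212665486057602) (.br (nat_lit 2) (.cons (.br (nat_lit 0) (.cons (.rel (nat_lit 75763968)) (.cons (.rel (nat_lit 71585793)) (.cons (.rel (nat_lit 138547200)) .nil)))) (.cons (.br (nat_lit 6) (.cons (.rel (nat_lit 17247244320)) (.cons (.rel (nat_lit 17247240261)) .nil))) .nil))) .leaf) (nat_lit 11212665486057733) (.br (nat_lit 1) (.cons (.br (nat_lit 3) (.cons (.rel (nat_lit 286524420)) .nil)) .nil)) (.node .leaf (nat_lit 11212665486058874) (.br (nat_lit 3) (.cons (.br (nat_lit 4) (.cons (.rel (nat_lit 1343504640)) .nil)) .nil)) .leaf)) (nat_lit 11212665487393695) (.br (nat_lit 3) (.cons (.br (nat_lit 4) (.cons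 (.rel (nat_lit 1610613825)) .nil)) .nil)) (.node (.node .leaf (nat_lit 11212665487394323) (.br (nat_lit 3) (.cons (.br (nat_lit 5) (.cons (.rel (nat_lit 4831839300)) .nil)) .nil)) .leaf) (nat_lit 11212665488341754) (.br (nat_lit 1) (.cons (.br (nat_lit 4) (.cons (.rel (nat_lit 2164525056)) .nil)) .nil)) .leaf)) (nat_lit 11212665488395167) (.br (nat_lit 1) (.cons (.br (nat_lit 3) (.cons (.rel (nat_lit 285479184)) (.cons (.rel (nat_lit 570426384)) .nil))) .nil)) (.node (.node (.node .leaf (nat_lit 11212665488610042) (.br (nat_lit 6) (.cons (.br (nat_lit 4) (.cons (.rel (nat_lit 18253611153)) (.cons (.rel (nat_lit 18253612164)) .nil))) .nil)) .leaf) (nat_lit 11214006169901737) (.br (nat_lit 4) (.cons (.br (nat_lit 5) (.cons (.rel (nat_lit 5368729857)) .nil)) .nil)) (.node .leaf (nat_lit 11214006172502943) (.br (nat_lit 1) (.cons (.br (nat_lit 3) (.cons (.rel (nat_lit 553926660)) .nil)) .nil)) .leaf)) (nat_lit 11214007720275181) (.br (nat_lit 2) (.cons (.br (nat_lit 4) (.cons (.rel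 (nat_lit 1140858948)) .nil)) .nil)) (.node (.node .leaf (nat_lit 11214213878387369) (.br (nat_lit 0) (.cons (.br (nat_lit 1) (.cons (.rel (nat_lit 25182216)) (.cons (.rel (nat_lit 41943360)) .nil))) (.cons (.br (nat_lit 1) (.cons (.rel (nat_lit 41943360)) (.cons (.rel (nat_lit 25182216)) .nil))) .nil))) .leaf) (nat_lit 11214259368832263) (.br (nat_lit 5) (.cons (.br (nat_lit 6) (.cons (.rel (nat_lit 21474845712)) .nil)) .nil)) .leaf))))

/-- refutations 52 -/
def e52 : EX := (.node (.node (.node (.node (.node .leaf (nat_lit 11217174833472169) (.br (nat_lit 1) (.cons (.br (nat_lit 2) (.cons (.rel (nat_lit 150995010)) .nil)) .nil)) .leaf) (nat_lit 11217175306351853) (.br (nat_lit 0) (.cons (.br (nat_lit 1) (.cons (.rel (nat_lit 20972160)) .nil)) .nil)) (.node .leaf (nat_lit 11217175307963295) (.br (nat_lit 1) (.cons (.br (nat_lit 3) (.cons (.rel (nat_lit 285212694)) .nil)) .nil)) .leaf)) (nat_lit 11217175855856927) (.br (nat_lit 1) (.cons (.br (nat_lit 2) (.cons (.rel (nat_lit 83957256))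 .nil)) .nil)) (.node (.node .leaf (nat_lit 11217177404844713) (.br (nat_lit 5) (.cons (.br (nat_lit 0) (.cons (.rel (nat_lit 8598323217)) (.cons (.rel (nat_lit 4299161634)) (.cons (.rel (nat_lit 8598324228)) .nil)))) (.cons (.br (nat_lit 0) (.cons (.rel (nat_lit 4299166848)) (.cons (.rel (nat_lit 4304470020)) (.cons (.br (nat_lit 3) (.cons (.rel (nat_lit 545264640)) (.cons (.rel (nat_lit 4564521024)) (.cons (.rel (nat_lit 276828417)) .nil)))) .nil)))) .nil))) .leaf) (nat_lit 11217177404845319) (.br (nat_lit 2) (.cons (.br (nat_lit 3) (.cons (.rel (nat_lit 671154192)) (.cons (.rel (nat_lit 335675424)) (.cons (.rel (nat_lit 335675424)) (.cons (.rel (nat_lit 335548482)) .nil))))) (.cons (.br (nat_lit 3) (.cons (.rel (nat_lit 335553552)) (.cons (.rel (nat_lit 335548482)) (.cons (.rel (nat_lit 402718980)) (.cons (.rel (nat_lit 335544468)) .nil))))) .nil))) (.node .leaf (nat_lit 11217177405090047) (.br (nat_lit 1) (.cons (.br (nat_lit 3) (.cons (.rel (nat_lit 285214752)) .nil)) .nil))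 .leaf))) (nat_lit 11217177405091079) (.br (nat_lit 1) (.cons (.br (nat_lit 6) (.cons (.rel (nat_lit 34376515728)) (.cons (.rel (nat_lit 17196917760)) .nil))) .nil)) (.node (.node (.node .leaf (nat_lit 11217177405878324) (.br (nat_lit 0) (.cons (.br (nat_lit 3) (.cons (.rel (nat_lit 272711688)) .nil)) .nil)) .leaf) (nat_lit 11217177405878927) (.br (nat_lit 1) (.cons (.br (nat_lit 3) (.cons (.rel (nat_lit 570426384)) .nil)) .nil)) (.node .leaf (nat_lit 11217178503998971) (.br (nat_lit 1) (.cons (.br (nat_lit 4) (.cons (.rel (nat_lit 1090519137)) .nil)) .nil)) .leaf)) (nat_lit 11217180599882605) (.br (nat_lit 2) (.cons (.br (nat_lit 3) (.cons (.rel (nat_lit 335564805)) (.cons (.rel (nat_lit 335577105)) .nil))) (.cons (.br (nat_lit 3) (.cons (.rel (nat_lit 335616000)) (.cons (.rel (nat_lit 335675424)) .nil))) .nil))) (.node (.node .leaf (nat_lit 11217180599883159) (.br (nat_lit 2) (.cons (.br (nat_lit 1) (.cons (.rel (nat_lit 167788800)) (.cons (.rel (nat_lit 83919360)) .nil))) .nil))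 .leaf) (nat_lit 11217180600639670) (.br (nat_lit 1) (.cons (.br (nat_lit 3) (.cons (.rel (nat_lit 285212694)) .nil)) .nil)) .leaf))) (nat_lit 11217180600842521) (.br (nat_lit 0) (.cons (.br (nat_lit 1) (.cons (.rel (nat_lit 21254208)) .nil)) .nil)) (.node (.node (.node (.node .leaf (nat_lit 11217180601174153) (.br (nat_lit 1) (.cons (.br (nat_lit 5) (.cons (.rel (nat_lit 8606713476)) .nil)) .nil)) .leaf) (nat_lit 11217180601174277) (.br (nat_lit 1) (.cons (.br (nat_lit 3) (.cons (.rel (nat_lit 285233220)) .nil)) .nil)) (.node .leaf (nat_lit 11217180601840873) (.br (nat_lit 0) (.cons (.br (nat_lit 2) (.cons (.rel (nat_lit 71565456)) .nil)) .nil)) .leaf)) (nat_lit 11217180601921596) (.br (nat_lit 0) (.cons (.br (nat_lit 1) (.cons (.rel (nat_lit 21254208)) .nil)) .nil)) (.node (.node .leaf (nat_lit 11217180602430995) (.br (nat_lit 1) (.cons (.br (nat_lit 3) (.cons (.rel (nat_lit 285212694)) .nil)) .nil)) .leaf) (nat_lit 11218094324720378) (.br (nat_lit 0) (.cons (.br (nat_lit 1) (.cons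 (.rel (nat_lit 20972160)) .nil)) .nil)) (.node .leaf (nat_lit 11218094326082298) (.br (nat_lit 1) (.cons (.br (nat_lit 2) (.cons (.rel (nat_lit 100732944)) .nil)) .nil)) .leaf))) (nat_lit 11218099724052662) (.br (nat_lit 1) (.cons (.br (nat_lit 2) (.cons (.rel (nat_lit 167788800)) .nil)) .nil)) (.node (.node (.node .leaf (nat_lit 11218265860287145) (.br (nat_lit 5) (.cons (.br (nat_lit 6) (.cons (.br (nat_lit 4) (.cons (.rel (nat_lit 18254676480)) (.cons (.rel (nat_lit 9663692928)) (.cons (.rel (nat_lit 35433480456)) (.cons (.rel (nat_lit 9663692928)) (.cons (.rel (nat_lit 9663811584)) .nil)))))) .nil)) .nil)) .leaf) (nat_lit 11218265860287751) (.br (nat_lit 6) (.cons (.br (nat_lit 3) (.cons (.rel (nat_lit 17448309780)) (.cons (.rel (nat_lit 17448322080)) .nil))) .nil)) (.node .leaf (nat_lit 11218270868286727) (.br (nat_lit 2) (.cons (.br (nat_lit 6) (.cons (.rel (nat_lit 17314169856)) (.cons (.rel (nat_lit 17247244320)) (.cons (.rel (nat_lit 17247306768)) .nil)))) (.cons (.br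 (nat_lit 4) (.cons (.rel (nat_lit 1140858948)) (.cons (.rel (nat_lit 1140920385)) .nil))) .nil))) .leaf)) (nat_lit 11219213219292448) (.br (nat_lit 0) (.cons (.br (nat_lit 3) (.cons (.rel (nat_lit 545264640)) (.cons (.rel (nat_lit 272630916)) .nil))) .nil)) (.node (.node .leaf (nat_lit 11219213220637327) (.br (nat_lit 6) (.cons (.br (nat_lit 2) (.cons (.rel (nat_lit 17249091585)) (.cons (.rel (nat_lit 34426912773)) .nil))) .nil)) .leaf) (nat_lit 11219215762124852) (.br (nat_lit 0) (.cons (.br (nat_lit 2) (.cons (.rel (nat_lit 138428544)) .nil)) .nil)) .leaf))))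

/-- refutations 53 -/
def e53 : EX := (.node (.node .leaf (nat_lit 11454027805302789) (.br (nat_lit 0) (.cons (.br (nat_lit 1) (.cons (.rel (nat_lit 37756944)) .nil)) .nil)) .leaf) (nat_lit 11457896859093272) (.br (nat_lit 0) (.cons (.br (nat_lit 4) (.cons (.rel (nat_lit 1077960708)) .nil)) .nil)) (.node .leaf (nat_lit 11458962008689941) (.br (nat_lit 0) (.cons (.br (nat_lit 4) (.cons (.rel (nat_lit 1077938181)) .nil)) .nil)) .leaf))

/-- refutations 54 -/
def e54 : EX := (.node (.node .leaf (nat_lit 11460049348193557) (.br (nat_lit 4) (.cons (.br (nat_lit 0) (.cons (.rel (nat_lit 2155872276)) (.cons (.rel (nat_lit 2155872276)) (.cons (.rel (nat_lit 1077936168)) .nil)))) .nil)) .leaf) (nat_lit 11460083710637333) (.br (nat_lit 5) (.cons (.br (nat_lit 6) (.cons (.rel (nat_lit 21475100928)) .nil)) .nil)) (.node .leaf (nat_lit 11465870987750056) (.br (nat_lit 0) (.cons (.br (nat_lit 1) (.cons (.rel (nat_lit 21331968)) .nil)) .nil)) .leaf))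

/-- refutations 55 -/
def e55 : EX := (.node (.node (.node (.node (.node .leaf (nat_lit 5401102854228244) (.br (nat_lit 2) (.cons (.br (nat_lit 4) (.cons (.rel (nat_lit 1140850722)) (.cons (.rel (nat_lit 1140858948)) .nil))) .nil)) .leaf) (nat_lit 5401102854228850) (.br (nat_lit 3) (.cons (.br (nat_lit 4) (.cons (.rel (nat_lit 1610616837)) .nil)) .nil)) (.node .leaf (nat_lit 5402098304936212) (.br (nat_lit 0) (.cons (.br (nat_lit 2) (.cons (.rel (nat_lit 71599104)) (.cons (.rel (nat_lit 75497478)) .nil))) (.cons (.br (nat_lit 2) (.cons (.rel (nat_lit 71585793)) (.cons (.rel (nat_lit 71303745)) .nil))) .nil))) .leaf)) (nat_lit 5402098305173780) (.br (nat_lit 2) (.cons (.br (nat_lit 0) (.cons (.rel (nat_lit 71599104)) (.cons (.rel (nat_lit 75499536)) .nil))) .nil)) (.node (.node .leaf (nat_lit 5403035589664923) (.br (nat_lit 1) (.cons (.br (nat_lit 2) (.cons (.rel (nat_lit 100732944)) .nil)) .nil)) .leaf) (nat_lit 5403035589666178) (.br (nat_lit 0) (.cons (.br (nat_lit 2) (.cons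 (.rel (nat_lit 71599104)) .nil)) .nil)) (.node .leaf (nat_lit 5406273013125125) (.br (nat_lit 0) (.cons (.br (nat_lit 2) (.cons (.rel (nat_lit 75499536)) .nil)) .nil)) .leaf))) (nat_lit 5406273013125145) (.br (nat_lit 1) (.cons (.br (nat_lit 2) (.cons (.rel (nat_lit 100679748)) .nil)) .nil)) (.node (.node (.node .leaf (nat_lit 5406273013385492) (.br (nat_lit 0) (.cons (.br (nat_lit 4) (.cons (.rel (nat_lit 1077936168)) .nil)) .nil)) .leaf) (nat_lit 5406393272168724) (.br (nat_lit 2) (.cons (.br (nat_lit 3) (.cons (.rel (nat_lit 335675424)) .nil)) .nil)) (.node .leaf (nat_lit 5406393275304573) (.br (nat_lit 1) (.cons (.br (nat_lit 5) (.cons (.rel (nat_lit 4311746625)) .nil)) .nil)) .leaf)) (nat_lit 5407343428866073) (.br (nat_lit 2) (.cons (.br (nat_lit 6) (.cons (.rel (nat_lit 34493957376)) (.cons (.rel (nat_lit 34493957376)) .nil))) .nil)) (.node (.node .leaf (nat_lit 5407343428866679) (.br (nat_lit 0) (.cons (.br (nat_lit 3) (.cons (.rel (nat_lit 545264640)) .nil)) .nil)) .leaf)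 (nat_lit 5407343431395353) (.br (nat_lit 2) (.cons (.br (nat_lit 5) (.cons (.rel (nat_lit 4362078210)) .nil)) .nil)) .leaf))) (nat_lit 5408368958395898) (.br (nat_lit 0) (.cons (.br (nat_lit 4) (.cons (.rel (nat_lit 1077960708)) .nil)) .nil)) (.node (.node (.node (.node .leaf (nat_lit 5408758168834685) (.br (nat_lit 0) (.cons (.br (nat_lit 2) (.cons (.rel (nat_lit 138412041)) .nil)) .nil)) .leaf) (nat_lit 5408758168835305) (.br (nat_lit 0) (.cons (.br (nat_lit 2) (.cons (.rel (nat_lit 71565456)) .nil)) .nil)) (.node .leaf (nat_lit 5411635795913961) (.br (nat_lit 1) (.cons (.br (nat_lit 3) (.cons (.rel (nat_lit 285213705)) .nil)) .nil)) .leaf)) (nat_lit 5412845294970362) (.br (nat_lit 1) (.cons (.br (nat_lit 6) (.cons (.rel (nat_lit 17197039632)) .nil)) .nil)) (.node (.node .leaf (nat_lit 5412845296050452) (.br (nat_lit 3) (.cons (.br (nat_lit 0) (.cons (.rel (nat_lit 272640000)) (.cons (.rel (nat_lit 272629905)) .nil))) .nil)) .leaf) (nat_lit 5412845296051058) (.br (nat_lit 3)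 (.cons (.br (nat_lit 6) (.cons (.rel (nat_lit 17448322080)) (.cons (.rel (nat_lit 17448309780)) .nil))) (.cons (.br (nat_lit 4) (.cons (.br (nat_lit 6) (.cons (.rel (nat_lit 36507227136)) (.cons (.rel (nat_lit 18253644801)) .nil))) (.cons (.rel (nat_lit 2684616720)) (.cons (.rel (nat_lit 1343234112)) .nil)))) .nil))) (.node .leaf (nat_lit 5412845296051736) (.br (nat_lit 3) (.cons (.br (nat_lit 0) (.cons (.br (nat_lit 6) (.cons (.rel (nat_lit 17448378432)) (.cons (.rel (nat_lit 17188339728)) (.cons (.rel (nat_lit 17448322080)) .nil)))) (.cons (.rel (nat_lit 272640000)) .nil))) .nil)) .leaf))) (nat_lit 5412845297291540) (.br (nat_lit 4) (.cons (.br (nat_lit 6) (.cons (.rel (nat_lit 36507227136)) (.cons (.rel (nat_lit 18253621248)) (.cons (.rel (nat_lit 36507227136)) (.cons (.rel (nat_lit 19327353348)) .nil))))) .nil)) (.node (.node (.node .leaf (nat_lit 5412845297292146) (.br (nat_lit 3) (.cons (.br (nat_lit 5) (.cons (.rel (nat_lit 4564598784)) (.cons (.rel (nat_lit 4564598784))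 .nil))) .nil)) .leaf) (nat_lit 5412845297546098) (.br (nat_lit 2) (.cons (.br (nat_lit 5) (.cons (.rel (nat_lit 8724153345)) .nil)) .nil)) (.node .leaf (nat_lit 5413694716571924) (.br (nat_lit 1) (.cons (.br (nat_lit 3) (.cons (.rel (nat_lit 285213705)) .nil)) .nil)) .leaf)) (nat_lit 5413694716872980) (.br (nat_lit 0) (.cons (.br (nat_lit 4) (.cons (.rel (nat_lit 1077936168)) .nil)) .nil)) (.node (.node .leaf (nat_lit 5413700532685727) (.br (nat_lit 2) (.cons (.br (nat_lit 3) (.cons (.rel (nat_lit 335548482)) .nil)) .nil)) .leaf) (nat_lit 5414161090850818) (.br (nat_lit 0) (.cons (.br (nat_lit 2) (.cons (.rel (nat_lit 71585793)) .nil)) .nil)) .leaf))))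

/-- refutations 56 -/
def e56 : EX := (.node (.node (.node (.node .leaf (nat_lit 11874780423180950) (.br (nat_lit 0) (.cons (.br (nat_lit 4) (.cons (.rel (nat_lit 1078001808)) .nil)) .nil)) .leaf) (nat_lit 11874782390260374) (.br (nat_lit 0) (.cons (.br (nat_lit 1) (.cons (.rel (nat_lit 21234693)) .nil)) .nil)) .leaf) (nat_lit 11874782390782087) (.br (nat_lit 0) (.cons (.br (nat_lit 1) (.cons (.rel (nat_lit 22545408)) .nil)) .nil)) (.node (.node .leaf (nat_lit 11874782390782614) (.br (nat_lit 0) (.cons (.br (nat_lit 2) (.cons (.rel (nat_lit 71320068)) (.cons (.rel (nat_lit 73410564)) .nil))) .nil)) .leaf) (nat_lit 11875032210105621) (.br (nat_lit 0) (.cons (.br (nat_lit 1) (.cons (.rel (nat_lit 25232400)) .nil)) .nil)) .leaf)) (nat_lit 11875893918618262) (.br (nat_lit 3) (.cons (.br (nat_lit 4) (.cons (.rel (nat_lit 1342193925)) .nil)) .nil)) (.node (.node (.node .leaf (nat_lit 11875899625773186) (.br (nat_lit 0) (.cons (.br (nat_lit 2) (.cons (.rel (nat_lit 73404480)) .nil))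 .nil)) .leaf) (nat_lit 11876108665950870) (.br (nat_lit 2) (.cons (.br (nat_lit 5) (.cons (.rel (nat_lit 4362142848)) .nil)) .nil)) .leaf) (nat_lit 11877110369282710) (.br (nat_lit 0) (.cons (.br (nat_lit 2) (.cons (.rel (nat_lit 71303745)) .nil)) .nil)) (.node (.node .leaf (nat_lit 11877305207040662) (.br (nat_lit 0) (.cons (.br (nat_lit 3) (.cons (.rel (nat_lit 272629905)) .nil)) .nil)) .leaf) (nat_lit 11877305209639574) (.br (nat_lit 0) (.cons (.br (nat_lit 3) (.cons (.rel (nat_lit 272630916)) .nil)) .nil)) .leaf)))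

/-- refutations 57 -/
def e57 : EX := (.node (.node (.node (.node (.node .leaf (nat_lit 11880309142602033) (.br (nat_lit 0) (.cons (.br (nat_lit 2) (.cons (.rel (nat_lit 75530304)) .nil)) .nil)) .leaf) (nat_lit 11880309142603254) (.br (nat_lit 0) (.cons (.br (nat_lit 6) (.cons (.rel (nat_lit 17184330768)) .nil)) .nil)) .leaf) (nat_lit 11880309143603862) (.br (nat_lit 0) (.cons (.br (nat_lit 4) (.cons (.rel (nat_lit 1077936168)) .nil)) .nil)) (.node .leaf (nat_lit 11880309144949398) (.br (nat_lit 1) (.cons (.br (nat_lit 0) (.cons (.rel (nat_lit 21254208)) (.cons (.rel (nat_lit 25169952)) .nil))) .nil)) .leaf)) (nat_lit 11880314851303554) (.br (nat_lit 2) (.cons (.br (nat_lit 5) (.cons (.rel (nat_lit 4362078210)) .nil)) .nil)) (.node (.node .leaf (nat_lit 11880314852153474) (.br (nat_lit 0) (.cons (.br (nat_lit 2) (.cons (.rel (nat_lit 73404480)) .nil)) .nil)) .leaf) (nat_lit 11880541186429614) (.br (nat_lit 1) (.cons (.br (nat_lit 5) (.cons (.rel (nat_lit 4312039680)) .nil)) .nil))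 (.node .leaf (nat_lit 11881168074425596) (.br (nat_lit 0) (.cons (.br (nat_lit 1) (.cons (.rel (nat_lit 21331968)) .nil)) .nil)) .leaf))) (nat_lit 11881168135844115) (.br (nat_lit 0) (.cons (.br (nat_lit 1) (.cons (.rel (nat_lit 21233682)) .nil)) .nil)) (.node (.node (.node (.node .leaf (nat_lit 11881168136051350) (.br (nat_lit 0) (.cons (.br (nat_lit 4) (.cons (.rel (nat_lit 2155872276)) .nil)) .nil)) .leaf) (nat_lit 11881168137321110) (.br (nat_lit 1) (.cons (.br (nat_lit 3) (.cons (.rel (nat_lit 285214752)) .nil)) .nil)) .leaf) (nat_lit 11881168138408598) (.br (nat_lit 1) (.cons (.br (nat_lit 2) (.cons (.rel (nat_lit 100732944)) (.cons (.rel (nat_lit 84152448)) .nil))) .nil)) (.node .leaf (nat_lit 11881168138457750) (.br (nat_lit 6) (.cons (.br (nat_lit 1) (.cons (.rel (nat_lit 17196917760)) (.cons (.rel (nat_lit 17196647013)) .nil))) .nil)) .leaf)) (nat_lit 11881168557005105) (.br (nat_lit 0) (.cons (.br (nat_lit 2) (.cons (.rel (nat_lit 75497478)) .nil)) .nil)) (.node (.node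 .leaf (nat_lit 11881168558346396) (.br (nat_lit 1) (.cons (.br (nat_lit 2) (.cons (.rel (nat_lit 100732944)) .nil)) .nil)) .leaf) (nat_lit 11881173299032124) (.br (nat_lit 0) (.cons (.br (nat_lit 1) (.cons (.rel (nat_lit 41943360)) .nil)) .nil)) (.node .leaf (nat_lit 11882672528088542) (.br (nat_lit 0) (.cons (.br (nat_lit 1) (.cons (.rel (nat_lit 21233682)) .nil)) .nil)) .leaf))))

/-- refutations 58 -/
def e58 : EX := (.node (.node (.node (.node .leaf (nat_lit 11885517184764566) (.br (nat_lit 1) (.cons (.br (nat_lit 2) (.cons (.rel (nat_lit 168824976)) .nil)) .nil)) .leaf) (nat_lit 11885517187263275) (.br (nat_lit 0) (.cons (.br (nat_lit 2) (.cons (.rel (nat_lit 71574552)) .nil)) .nil)) .leaf) (nat_lit 11885517187312278) (.br (nat_lit 0) (.cons (.br (nat_lit 2) (.cons (.rel (nat_lit 71303745)) .nil)) .nil)) (.node .leaf (nat_lit 11885517841420950) (.br (nat_lit 0) (.cons (.br (nat_lit 1) (.cons (.rel (nat_lit 25232400)) .nil)) .nil)) .leaf)) (nat_lit 11886539888845730) (.br (nat_lit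 0) (.cons (.br (nat_lit 1) (.cons (.rel (nat_lit 20972160)) .nil)) .nil)) (.node (.node (.node .leaf (nat_lit 11886859838819810) (.br (nat_lit 0) (.cons (.br (nat_lit 5) (.cons (.rel (nat_lit 8598324228)) .nil)) .nil)) .leaf) (nat_lit 11888046480405165) (.br (nat_lit 0) (.cons (.br (nat_lit 1) (.cons (.rel (nat_lit 22085904)) .nil)) .nil)) .leaf) (nat_lit 11888100213277334) (.br (nat_lit 0) (.cons (.br (nat_lit 2) (.cons (.rel (nat_lit 71585793)) .nil)) .nil)) (.node .leaf (nat_lit 11888100214278806) (.br (nat_lit 0) (.cons (.br (nat_lit 2) (.cons (.rel (nat_lit 73482240)) .nil)) .nil)) .leaf)))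

/-- refutations 59 -/
def e59 : EX := (.node (.node (.node (.node (.node (.node .leaf (nat_lit 11646078752994566) (.br (nat_lit 0) (.cons (.br (nat_lit 1) (.cons (.rel (nat_lit 37756944)) .nil)) .nil)) .leaf) (nat_lit 11646081874743927) (.br (nat_lit 2) (.cons (.br (nat_lit 3) (.cons (.rel (nat_lit 335544468)) (.cons (.rel (nat_lit 335553552)) .nil))) .nil)) (.node .leaf (nat_lit 11646083969159799) (.br (nat_lit 0) (.cons (.br (nat_lit 1) (.cons (.rel (nat_lit 41943360)) .nil)) .nil)) .leaf)) (nat_lit 11646083972231799) (.br (nat_lit 0) (.cons (.br (nat_lit 1) (.cons (.rel (nat_lit 41943360)) .nil)) .nil)) (.node (.node .leaf (nat_lit 11646513677299201) (.br (nat_lit 0) (.cons (.br (nat_lit 1) (.cons (.rel (nat_lit 41943360)) .nil)) .nil)) .leaf) (nat_lit 11647143903334425) (.br (nat_lit 3) (.cons (.br (nat_lit 4) (.cons (.rel (nat_lit 1342177602)) .nil)) .nil)) (.node .leaf (nat_lit 11647143903595127) (.br (nat_lit 4) (.cons (.br (nat_lit 5) (.cons (.rel (nat_lit 9663676425))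 .nil)) .nil)) .leaf))) (nat_lit 11647143904884225) (.br (nat_lit 0) (.cons (.br (nat_lit 1) (.cons (.rel (nat_lit 25169952)) .nil)) .nil)) (.node (.node (.node .leaf (nat_lit 11647143905817207) (.br (nat_lit 5) (.cons (.br (nat_lit 1) (.cons (.rel (nat_lit 8623554624)) (.cons (.rel (nat_lit 4328784513)) (.cons (.rel (nat_lit 4312039680)) .nil)))) (.cons (.br (nat_lit 1) (.cons (.rel (nat_lit 4329046032)) (.cons (.rel (nat_lit 4328527104)) (.cons (.rel (nat_lit 4311746625)) .nil)))) .nil))) .leaf) (nat_lit 11648174697033055) (.br (nat_lit 2) (.cons (.br (nat_lit 4) (.cons (.rel (nat_lit 1140852744)) .nil)) .nil)) (.node .leaf (nat_lit 11648180021039735) (.br (nat_lit 0) (.cons (.br (nat_lit 1) (.cons (.rel (nat_lit 22545408)) .nil)) .nil)) .leaf)) (nat_lit 11648452354476663) (.br (nat_lit 1) (.cons (.br (nat_lit 3) (.cons (.rel (nat_lit 285216897)) .nil)) .nil)) (.node (.node .leaf (nat_lit 11651499212370551) (.br (nat_lit 3) (.cons (.br (nat_lit 6) (.cons (.rel (nat_lit 17448304710))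 .nil)) .nil)) .leaf) (nat_lit 11651499212601975) (.br (nat_lit 1) (.cons (.br (nat_lit 3) (.cons (.rel (nat_lit 285310980)) .nil)) .nil)) .leaf))) (nat_lit 11651504218142850) (.br (nat_lit 1) (.cons (.br (nat_lit 3) (.cons (.rel (nat_lit 285216897)) .nil)) .nil)) (.node (.node (.node (.node .leaf (nat_lit 11651928496802423) (.br (nat_lit 1) (.cons (.br (nat_lit 3) (.cons (.rel (nat_lit 285286416)) .nil)) .nil)) .leaf) (nat_lit 11651928496903674) (.br (nat_lit 0) (.cons (.br (nat_lit 2) (.cons (.rel (nat_lit 73532436)) .nil)) .nil)) (.node .leaf (nat_lit 11651928498143863) (.br (nat_lit 4) (.cons (.br (nat_lit 5) (.cons (.rel (nat_lit 5368743168)) .nil)) .nil)) .leaf)) (nat_lit 11651928498397815) (.br (nat_lit 0) (.cons (.br (nat_lit 3) (.cons (.rel (nat_lit 272629905)) .nil)) .nil)) (.node (.node .leaf (nat_lit 11651931277726327) (.br (nat_lit 2) (.cons (.br (nat_lit 3) (.cons (.rel (nat_lit 335675424)) .nil)) .nil)) .leaf) (nat_lit 11651931277985817) (.br (nat_lit 0) (.cons (.br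 (nat_lit 4) (.cons (.rel (nat_lit 1079248896)) .nil)) .nil)) .leaf)) (nat_lit 11651931278968096) (.br (nat_lit 3) (.cons (.br (nat_lit 6) (.cons (.rel (nat_lit 17448571200)) .nil)) .nil)) (.node (.node (.node .leaf (nat_lit 11651931280208503) (.br (nat_lit 3) (.cons (.br (nat_lit 4) (.cons (.rel (nat_lit 1342182672)) .nil)) .nil)) .leaf) (nat_lit 11651931280209184) (.br (nat_lit 0) (.cons (.br (nat_lit 6) (.cons (.rel (nat_lit 34363936773)) (.cons (.rel (nat_lit 34368127248)) .nil))) .nil)) (.node .leaf (nat_lit 11651931280256288) (.br (nat_lit 0) (.cons (.br (nat_lit 3) (.cons (.rel (nat_lit 272633928)) .nil)) .nil)) .leaf)) (nat_lit 11651931280515752) (.br (nat_lit 0) (.cons (.br (nat_lit 3) (.cons (.rel (nat_lit 272711688)) (.cons (.rel (nat_lit 272630916)) .nil))) .nil)) (.node (.node .leaf (nat_lit 11651931280516358) (.br (nat_lit 3) (.cons (.br (nat_lit 4) (.cons (.rel (nat_lit 1610678274)) .nil)) .nil)) .leaf) (nat_lit 11652469662806646) (.br (nat_lit 0) (.cons (.br (nat_lit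 1) (.cons (.rel (nat_lit 22545408)) .nil)) .nil)) .leaf)))) (nat_lit 11652469663042167) (.br (nat_lit 5) (.cons (.br (nat_lit 6) (.cons (.rel (nat_lit 21474838689)) (.cons (.rel (nat_lit 21474869265)) .nil))) .nil)) (.node (.node (.node (.node (.node .leaf (nat_lit 11652469663264950) (.br (nat_lit 2) (.cons (.br (nat_lit 1) (.cons (.rel (nat_lit 167788800)) (.cons (.rel (nat_lit 84152448)) .nil))) .nil)) .leaf) (nat_lit 11652469663265078) (.br (nat_lit 0) (.cons (.br (nat_lit 2) (.cons (.rel (nat_lit 71585793)) .nil)) .nil)) (.node .leaf (nat_lit 11652469664023840) (.br (nat_lit 2) (.cons (.br (nat_lit 3) (.cons (.rel (nat_lit 335808768)) .nil)) .nil)) .leaf)) (nat_lit 11652469664075906) (.br (nat_lit 2) (.cons (.br (nat_lit 3) (.cons (.rel (nat_lit 335616000)) .nil)) .nil)) (.node (.node .leaf (nat_lit 11652469664329780) (.br (nat_lit 2) (.cons (.br (nat_lit 3) (.cons (.rel (nat_lit 335553552)) .nil)) .nil)) .leaf) (nat_lit 11652469664330538) (.br (nat_lit 2) (.cons (.br (nat_lit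 5) (.cons (.rel (nat_lit 4362114048)) .nil)) .nil)) (.node .leaf (nat_lit 11652469664331265) (.br (nat_lit 1) (.cons (.br (nat_lit 0) (.cons (.rel (nat_lit 25169952)) (.cons (.rel (nat_lit 25232400)) .nil))) .nil)) .leaf))) (nat_lit 11652469664543351) (.br (nat_lit 2) (.cons (.br (nat_lit 1) (.cons (.rel (nat_lit 84940032)) (.cons (.rel (nat_lit 84152448)) .nil))) .nil)) (.node (.node (.node .leaf (nat_lit 11652469665264247) (.br (nat_lit 1) (.cons (.br (nat_lit 6) (.cons (.rel (nat_lit 17213423712)) (.cons (.rel (nat_lit 17213423712)) (.cons (.rel (nat_lit 34376515728)) .nil)))) (.cons (.br (nat_lit 2) (.cons (.rel (nat_lit 167788800)) (.cons (.rel (nat_lit 84172833)) (.cons (.rel (nat_lit 151033920)) .nil)))) (.cons (.br (nat_lit 2) (.cons (.rel (nat_lit 83919360)) (.cons (.rel (nat_lit 83919360)) (.cons (.rel (nat_lit 83919360)) .nil)))) .nil)))) .leaf) (nat_lit 11652469665495671) (.br (nat_lit 1) (.cons (.br (nat_lit 5) (.cons (.br (nat_lit 2) (.cons (.rel (nat_lit 84152448))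 (.cons (.rel (nat_lit 4395909120)) .nil))) .nil)) .nil)) (.node .leaf (nat_lit 11652469665548919) (.br (nat_lit 1) (.cons (.br (nat_lit 4) (.cons (.rel (nat_lit 1091895312)) .nil)) .nil)) .leaf)) (nat_lit 11652469665549215) (.br (nat_lit 5) (.cons (.br (nat_lit 3) (.cons (.rel (nat_lit 4563407136)) (.cons (.rel (nat_lit 4563469584)) .nil))) .nil)) (.node (.node .leaf (nat_lit 11652469665763959) (.br (nat_lit 1) (.cons (.br (nat_lit 5) (.cons (.rel (nat_lit 4311769152)) .nil)) .nil)) .leaf) (nat_lit 11652469665817207) (.br (nat_lit 1) (.cons (.br (nat_lit 2) (.cons (.rel (nat_lit 84149256)) .nil)) .nil)) .leaf))) (nat_lit 11652469665818106) (.br (nat_lit 2) (.cons (.br (nat_lit 6) (.cons (.rel (nat_lit 17247240261)) .nil)) .nil)) (.node (.node (.node (.node .leaf (nat_lit 11652472786420343) (.br (nat_lit 3) (.cons (.br (nat_lit 5) (.cons (.rel (nat_lit 4564598784)) .nil)) .nil)) .leaf) (nat_lit 11652566935876339) (.br (nat_lit 4) (.cons (.br (nat_lit 5) (.cons (.rel (nat_lit 5369774082))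 .nil)) .nil)) (.node .leaf (nat_lit 11652747322806952) (.br (nat_lit 0) (.cons (.br (nat_lit 1) (.cons (.rel (nat_lit 21062208)) .nil)) .nil)) .leaf)) (nat_lit 11653595967838518) (.br (nat_lit 0) (.cons (.br (nat_lit 2) (.cons (.rel (nat_lit 138413088)) .nil)) .nil)) (.node (.node .leaf (nat_lit 11653598067757687) (.br (nat_lit 5) (.cons (.br (nat_lit 0) (.cons (.rel (nat_lit 4299161634)) (.cons (.rel (nat_lit 8598323217)) .nil))) .nil)) .leaf) (nat_lit 11656982160762144) (.br (nat_lit 3) (.cons (.br (nat_lit 4) (.cons (.rel (nat_lit 1342701600)) (.cons (.rel (nat_lit 1342194984)) .nil))) .nil)) .leaf)) (nat_lit 11656982161748723) (.br (nat_lit 0) (.cons (.br (nat_lit 2) (.cons (.rel (nat_lit 138547200)) .nil)) .nil)) (.node (.node (.node .leaf (nat_lit 11656982162256627) (.br (nat_lit 0) (.cons (.br (nat_lit 1) (.cons (.rel (nat_lit 25182216)) .nil)) .nil)) .leaf) (nat_lit 11656984702256416) (.br (nat_lit 3) (.cons (.br (nat_lit 4) (.cons (.rel (nat_lit 2416050177)) .nil)) .nil))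 (.node .leaf (nat_lit 11659015195423351) (.br (nat_lit 4) (.cons (.br (nat_lit 5) (.cons (.rel (nat_lit 5368729857)) .nil)) .nil)) .leaf)) (nat_lit 11659018315050335) (.br (nat_lit 4) (.cons (.br (nat_lit 5) (.cons (.rel (nat_lit 9664004352)) .nil)) .nil)) (.node (.node .leaf (nat_lit 11659021434231046) (.br (nat_lit 2) (.cons (.br (nat_lit 6) (.cons (.rel (nat_lit 17247256584)) (.cons (.rel (nat_lit 17246980608)) .nil))) (.cons (.br (nat_lit 6) (.cons (.rel (nat_lit 17247240261)) (.cons (.rel (nat_lit 17247240261)) .nil))) .nil))) .leaf) (nat_lit 11659021437141254) (.br (nat_lit 4) (.cons (.br (nat_lit 5) (.cons (.rel (nat_lit 5369233473)) .nil)) .nil)) .leaf)))))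

/-- refutations 60 -/
def e60 : EX := (.node (.node (.node (.node (.node (.node .leaf (nat_lit 13194419790109352) (.br (nat_lit 0) (.cons (.br (nat_lit 2) (.cons (.rel (nat_lit 73482240)) .nil)) .nil)) .leaf) (nat_lit 13199769202029955) (.br (nat_lit 1) (.cons (.br (nat_lit 3) (.cons (.rel (nat_lit 570426384)) .nil)) .nil)) .leaf) (nat_lit 13199952253246252) (.br (nat_lit 1) (.cons (.br (nat_lit 6) (.cons (.rel (nat_lit 34376515728)) .nil)) .nil)) (.node .leaf (nat_lit 13200582718384388) (.br (nat_lit 0) (.cons (.br (nat_lit 1) (.cons (.rel (nat_lit 41943360)) .nil)) .nil)) .leaf)) (nat_lit 13200582719544547) (.br (nat_lit 2) (.cons (.br (nat_lit 4) (.cons (.rel (nat_lit 1207968000)) .nil)) .nil)) (.node (.node (.node .leaf (nat_lit 13200582719594627) (.br (nat_lit 4) (.cons (.br (nat_lit 5) (.cons (.rel (nat_lit 5368743168)) .nil)) .nil)) .leaf) (nat_lit 13200582719595797) (.br (nat_lit 2) (.cons (.br (nat_lit 4) (.cons (.rel (nat_lit 1140850722)) .nil)) .nil)) .leaf) (nat_lit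 13200582719646001) (.br (nat_lit 0) (.cons (.br (nat_lit 4) (.cons (.br (nat_lit 6) (.cons (.rel (nat_lit 19329515520)) .nil)) .nil)) .nil)) (.node .leaf (nat_lit 13200582719646458) (.br (nat_lit 4) (.cons (.br (nat_lit 5) (.cons (.rel (nat_lit 6442453008)) .nil)) .nil)) .leaf))) (nat_lit 13200582719646972) (.br (nat_lit 3) (.cons (.br (nat_lit 5) (.cons (.rel (nat_lit 4563929088)) .nil)) .nil)) (.node (.node (.node (.node .leaf (nat_lit 13200582720052476) (.br (nat_lit 4) (.cons (.br (nat_lit 6) (.cons (.rel (nat_lit 18253615176)) .nil)) .nil)) .leaf) (nat_lit 13200582720153781) (.br (nat_lit 0) (.cons (.br (nat_lit 1) (.cons (.rel (nat_lit 41943360)) .nil)) .nil)) .leaf) (nat_lit 13200582720154362) (.br (nat_lit 1) (.cons (.br (nat_lit 4) (.cons (.rel (nat_lit 1090588800)) (.cons (.rel (nat_lit 1090537473)) (.cons (.rel (nat_lit 1090537473)) .nil)))) (.cons (.br (nat_lit 4) (.cons (.rel (nat_lit 1090588800)) (.cons (.br (nat_lit 2) (.cons (.rel (nat_lit 167788800)) (.cons (.rel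 (nat_lit 151062528)) (.cons (.rel (nat_lit 1140858948)) (.cons (.rel (nat_lit 100795392)) .nil))))) (.cons (.rel (nat_lit 1090537473)) .nil)))) .nil))) (.node .leaf (nat_lit 13200582720155000) (.br (nat_lit 3) (.cons (.br (nat_lit 5) (.cons (.rel (nat_lit 4563929088)) .nil)) .nil)) .leaf)) (nat_lit 13200582720943480) (.br (nat_lit 1) (.cons (.br (nat_lit 2) (.cons (.rel (nat_lit 84148245)) .nil)) .nil)) (.node (.node .leaf (nat_lit 13200588380928002) (.br (nat_lit 3) (.cons (.br (nat_lit 4) (.cons (.rel (nat_lit 1610616837)) .nil)) .nil)) .leaf) (nat_lit 13200588380929261) (.br (nat_lit 3) (.cons (.br (nat_lit 4) (.cons (.rel (nat_lit 1610629137)) .nil)) .nil)) (.node .leaf (nat_lit 13200588380929286) (.br (nat_lit 3) (.cons (.br (nat_lit 4) (.cons (.rel (nat_lit 1610616837)) .nil)) .nil)) .leaf)))) (nat_lit 13200588380929562) (.br (nat_lit 1) (.cons (.br (nat_lit 3) (.cons (.rel (nat_lit 570426384)) .nil)) .nil)) (.node (.node (.node (.node (.node .leaf (nat_lit 13200806058351404)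 (.br (nat_lit 1) (.cons (.br (nat_lit 2) (.cons (.rel (nat_lit 84152448)) .nil)) .nil)) .leaf) (nat_lit 13201707793060602) (.br (nat_lit 3) (.cons (.br (nat_lit 6) (.cons (.rel (nat_lit 17448308769)) .nil)) .nil)) .leaf) (nat_lit 13202174383715715) (.br (nat_lit 0) (.cons (.br (nat_lit 1) (.cons (.rel (nat_lit 37756944)) .nil)) .nil)) (.node .leaf (nat_lit 13205152355539756) (.br (nat_lit 4) (.cons (.br (nat_lit 6) (.cons (.rel (nat_lit 18253612164)) .nil)) .nil)) .leaf)) (nat_lit 13205152355540220) (.br (nat_lit 0) (.cons (.br (nat_lit 1) (.cons (.rel (nat_lit 25165893)) .nil)) .nil)) (.node (.node (.node .leaf (nat_lit 13205152355590906) (.br (nat_lit 0) (.cons (.br (nat_lit 6) (.cons (.rel (nat_lit 34363936773)) .nil)) .nil)) .leaf) (nat_lit 13205152460448556) (.br (nat_lit 4) (.cons (.br (nat_lit 1) (.cons (.rel (nat_lit 1090519137)) (.cons (.rel (nat_lit 1090535460)) .nil))) .nil)) .leaf) (nat_lit 13205152460499731) (.br (nat_lit 4) (.cons (.br (nat_lit 6) (.cons (.rel (nat_lit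 18253621248)) (.cons (.rel (nat_lit 18253621248)) (.cons (.rel (nat_lit 18253621248)) .nil)))) (.cons (.br (nat_lit 0) (.cons (.rel (nat_lit 1077936168)) (.cons (.rel (nat_lit 2155872276)) (.cons (.rel (nat_lit 1077937170)) .nil)))) .nil))) (.node .leaf (nat_lit 13205158271983871) (.br (nat_lit 4) (.cons (.br (nat_lit 5) (.cons (.rel (nat_lit 6442717440)) .nil)) .nil)) .leaf))) (nat_lit 13205158271984428) (.br (nat_lit 0) (.cons (.br (nat_lit 1) (.cons (.rel (nat_lit 25165893)) .nil)) .nil)) (.node (.node (.node (.node .leaf (nat_lit 13205158272237873) (.br (nat_lit 1) (.cons (.br (nat_lit 5) (.cons (.rel (nat_lit 4311748626)) .nil)) .nil)) .leaf) (nat_lit 13205158272238330) (.br (nat_lit 1) (.cons (.br (nat_lit 3) (.cons (.rel (nat_lit 285233220)) .nil)) .nil)) .leaf) (nat_lit 13206222903831340) (.br (nat_lit 4) (.cons (.br (nat_lit 5) (.cons (.rel (nat_lit 5368774980)) .nil)) .nil)) (.node .leaf (nat_lit 13206222904034092) (.br (nat_lit 1) (.cons (.br (nat_lit 5) (.cons (.rel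 (nat_lit 4311875712)) .nil)) .nil)) .leaf)) (nat_lit 13206222904293557) (.br (nat_lit 6) (.cons (.br (nat_lit 2) (.cons (.rel (nat_lit 17247244320)) (.cons (.rel (nat_lit 17314095108)) .nil))) .nil)) (.node (.node .leaf (nat_lit 13206222905603473) (.br (nat_lit 1) (.cons (.br (nat_lit 3) (.cons (.rel (nat_lit 285348864)) .nil)) .nil)) .leaf) (nat_lit 13207036958038018) (.br (nat_lit 2) (.cons (.br (nat_lit 6) (.cons (.rel (nat_lit 17246980608)) .nil)) .nil)) (.node .leaf (nat_lit 13207552348728851) (.br (nat_lit 0) (.cons (.br (nat_lit 3) (.cons (.rel (nat_lit 272640000)) .nil)) .nil)) .leaf)))))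

/-- refutations 61 -/
def e61 : EX := (.node (.node (.node (.node (.node (.node .leaf (nat_lit 14091398483614481) (.br (nat_lit 1) (.cons (.br (nat_lit 5) (.cons (.rel (nat_lit 4328527104)) .nil)) .nil)) .leaf) (nat_lit 14091398485410577) (.br (nat_lit 1) (.cons (.br (nat_lit 4) (.cons (.rel (nat_lit 1090535460)) .nil)) .nil)) .leaf) (nat_lit 14091398486168337) (.br (nat_lit 0) (.cons (.br (nat_lit 2) (.cons (.rel (nat_lit 71599104)) .nil)) .nil)) (.node .leaf (nat_lit 14091619075855712) (.br (nat_lit 5) (.cons (.br (nat_lit 2) (.cons (.rel (nat_lit 4362207297)) (.cons (.rel (nat_lit 4362078210)) .nil))) .nil)) .leaf)) (nat_lit 14091619076415670) (.br (nat_lit 0) (.cons (.br (nat_lit 1) (.cons (.rel (nat_lit 21234693)) .nil)) .nil)) (.node (.node .leaf (nat_lit 14091619076416273) (.br (nat_lit 1) (.cons (.br (nat_lit 6) (.cons (.br (nat_lit 3) (.cons (.rel (nat_lit 34896625728)) (.cons (.rel (nat_lit 17448309780)) .nil))) .nil)) .nil)) .leaf) (nat_lit 14091619076416913) (.br (nat_lit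 0) (.cons (.br (nat_lit 6) (.cons (.rel (nat_lit 34363950084)) .nil)) .nil)) (.node .leaf (nat_lit 14091868183261314) (.br (nat_lit 0) (.cons (.br (nat_lit 1) (.cons (.rel (nat_lit 21233682)) .nil)) .nil)) .leaf))) (nat_lit 14091868183261969) (.br (nat_lit 3) (.cons (.br (nat_lit 4) (.cons (.rel (nat_lit 1343227908)) .nil)) .nil)) (.node (.node (.node .leaf (nat_lit 14091868183262560) (.br (nat_lit 2) (.cons (.br (nat_lit 6) (.cons (.rel (nat_lit 17314156545)) .nil)) .nil)) .leaf) (nat_lit 14091868183313760) (.br (nat_lit 1) (.cons (.br (nat_lit 2) (.cons (.rel (nat_lit 84152448)) .nil)) .nil)) (.node .leaf (nat_lit 14091868184472928) (.br (nat_lit 2) (.cons (.br (nat_lit 5) (.cons (.rel (nat_lit 4362078210)) (.cons (.rel (nat_lit 4362207297)) (.cons (.rel (nat_lit 4429447680)) .nil)))) (.cons (.br (nat_lit 6) (.cons (.rel (nat_lit 17247240261)) (.cons (.rel (nat_lit 17247244320)) .nil))) .nil))) .leaf)) (nat_lit 14091868184520032) (.br (nat_lit 0) (.cons (.br (nat_lit 1) (.cons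 (.rel (nat_lit 37765185)) .nil)) .nil)) (.node (.node .leaf (nat_lit 14091870930460055) (.br (nat_lit 1) (.cons (.br (nat_lit 4) (.cons (.rel (nat_lit 1090524162)) .nil)) .nil)) .leaf) (nat_lit 14091870931742048) (.br (nat_lit 4) (.cons (.br (nat_lit 6) (.cons (.rel (nat_lit 36507227136)) .nil)) .nil)) (.node .leaf (nat_lit 14096796264022172) (.br (nat_lit 3) (.cons (.br (nat_lit 4) (.cons (.rel (nat_lit 1342177602)) .nil)) .nil)) .leaf)))) (nat_lit 14097243050849041) (.br (nat_lit 1) (.cons (.br (nat_lit 2) (.cons (.rel (nat_lit 83919360)) .nil)) .nil)) (.node (.node (.node (.node .leaf (nat_lit 14097245481833259) (.br (nat_lit 0) (.cons (.br (nat_lit 2) (.cons (.rel (nat_lit 78118920)) .nil)) .nil)) .leaf) (nat_lit 14097245481833824) (.br (nat_lit 0) (.cons (.br (nat_lit 1) (.cons (.rel (nat_lit 21234693)) (.cons (.rel (nat_lit 21254208)) .nil))) (.cons (.br (nat_lit 1) (.cons (.rel (nat_lit 25169952)) (.cons (.rel (nat_lit 21233682)) .nil))) .nil))) (.node .leaf (nat_lit 14097245484914870)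 (.br (nat_lit 0) (.cons (.br (nat_lit 4) (.cons (.rel (nat_lit 2155872276)) .nil)) .nil)) .leaf)) (nat_lit 14097245484915473) (.br (nat_lit 1) (.cons (.br (nat_lit 6) (.cons (.br (nat_lit 4) (.cons (.rel (nat_lit 1090523160)) (.cons (.rel (nat_lit 18253611153)) .nil))) .nil)) .nil)) (.node (.node .leaf (nat_lit 14097245484915499) (.br (nat_lit 0) (.cons (.br (nat_lit 1) (.cons (.rel (nat_lit 22545408)) (.cons (.rel (nat_lit 20972160)) .nil))) (.cons (.br (nat_lit 4) (.cons (.rel (nat_lit 1077944385)) (.cons (.rel (nat_lit 2155872276)) (.cons (.rel (nat_lit 2155872276)) (.cons (.rel (nat_lit 2155872276)) .nil))))) .nil))) .leaf) (nat_lit 14097248229514001) (.br (nat_lit 3) (.cons (.br (nat_lit 6) (.cons (.rel (nat_lit 17448304710)) .nil)) .nil)) (.node .leaf (nat_lit 14097248229514647) (.br (nat_lit 1) (.cons (.br (nat_lit 4) (.cons (.rel (nat_lit 1090535460)) .nil)) .nil)) .leaf))) (nat_lit 14097248230867729) (.br (nat_lit 3) (.cons (.br (nat_lit 6) (.cons (.rel (nat_lit 17448306768))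 .nil)) .nil)) (.node (.node (.node .leaf (nat_lit 14098007444232977) (.br (nat_lit 3) (.cons (.br (nat_lit 2) (.cons (.rel (nat_lit 335616000)) (.cons (.rel (nat_lit 335675424)) (.cons (.rel (nat_lit 335564805)) .nil)))) .nil)) .leaf) (nat_lit 14098007445957393) (.br (nat_lit 2) (.cons (.br (nat_lit 5) (.cons (.rel (nat_lit 4362223620)) (.cons (.rel (nat_lit 4362078210)) .nil))) .nil)) (.node .leaf (nat_lit 14098007445958010) (.br (nat_lit 2) (.cons (.br (nat_lit 4) (.cons (.rel (nat_lit 1140936708)) .nil)) .nil)) .leaf)) (nat_lit 14098007446004474) (.br (nat_lit 3) (.cons (.br (nat_lit 6) (.cons (.rel (nat_lit 34628436480)) .nil)) .nil)) (.node (.node .leaf (nat_lit 14098007447245585) (.br (nat_lit 2) (.cons (.br (nat_lit 3) (.cons (.rel (nat_lit 335553552)) .nil)) .nil)) .leaf) (nat_lit 14098007447345334) (.br (nat_lit 3) (.cons (.br (nat_lit 4) (.cons (.rel (nat_lit 1342177602)) .nil)) .nil)) (.node .leaf (nat_lit 14098007447345937) (.br (nat_lit 2) (.cons (.br (nat_lit 6) (.cons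 (.rel (nat_lit 34493957376)) (.cons (.rel (nat_lit 17246980608)) .nil))) .nil)) .leaf)))))

/-- refutations 62 -/
def e62 : EX := (.node (.node (.node (.node (.node (.node .leaf (nat_lit 14098230891514166) (.br (nat_lit 1) (.cons (.br (nat_lit 3) (.cons (.rel (nat_lit 285233220)) .nil)) .nil)) .leaf) (nat_lit 14098230893308715) (.br (nat_lit 1) (.cons (.br (nat_lit 3) (.cons (.rel (nat_lit 285230208)) (.cons (.rel (nat_lit 285348864)) .nil))) (.cons (.br (nat_lit 2) (.cons (.rel (nat_lit 85458960)) (.cons (.rel (nat_lit 150995010)) .nil))) .nil))) (.node .leaf (nat_lit 14098230893309280) (.br (nat_lit 6) (.cons (.br (nat_lit 1) (.cons (.rel (nat_lit 17196713472)) (.cons (.rel (nat_lit 17196713472)) .nil))) .nil)) .leaf)) (nat_lit 14098230893309306) (.br (nat_lit 5) (.cons (.br (nat_lit 1) (.cons (.rel (nat_lit 4311761937)) (.cons (.rel (nat_lit 4328527104)) .nil))) .nil)) (.node (.node .leaf (nat_lit 14098230894650106) (.br (nat_lit 1) (.cons (.br (nat_lit 2) (.cons (.rel (nat_lit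 100679748)) .nil)) .nil)) .leaf) (nat_lit 14098230894650155) (.br (nat_lit 1) (.cons (.br (nat_lit 3) (.cons (.rel (nat_lit 285230208)) .nil)) .nil)) (.node .leaf (nat_lit 14098233326005626) (.br (nat_lit 1) (.cons (.br (nat_lit 3) (.cons (.rel (nat_lit 285214752)) .nil)) .nil)) .leaf))) (nat_lit 14098233326052704) (.br (nat_lit 6) (.cons (.br (nat_lit 2) (.cons (.rel (nat_lit 17247240261)) (.cons (.rel (nat_lit 17247240261)) .nil))) .nil)) (.node (.node (.node .leaf (nat_lit 14102098796618490) (.br (nat_lit 0) (.cons (.br (nat_lit 5) (.cons (.rel (nat_lit 4299259920)) .nil)) .nil)) .leaf) (nat_lit 14102098796619104) (.br (nat_lit 0) (.cons (.br (nat_lit 5) (.cons (.rel (nat_lit 8598324228)) (.cons (.rel (nat_lit 8598324228)) .nil))) .nil)) (.node .leaf (nat_lit 14102098796619153) (.br (nat_lit 3) (.cons (.br (nat_lit 6) (.cons (.rel (nat_lit 34896625728)) .nil)) .nil)) .leaf)) (nat_lit 14102098796640386) (.br (nat_lit 1) (.cons (.br (nat_lit 2) (.cons (.rel (nat_lit 83919360))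 .nil)) .nil)) (.node (.node .leaf (nat_lit 14102101542116835) (.br (nat_lit 1) (.cons (.br (nat_lit 3) (.cons (.rel (nat_lit 285216897)) .nil)) .nil)) .leaf) (nat_lit 14102101543334044) (.br (nat_lit 0) (.cons (.br (nat_lit 4) (.cons (.rel (nat_lit 1082393088)) (.cons (.br (nat_lit 6) (.cons (.rel (nat_lit 36507227136)) (.cons (.rel (nat_lit 17185652736)) .nil))) .nil))) (.cons (.br (nat_lit 1) (.cons (.rel (nat_lit 25182216)) (.cons (.rel (nat_lit 38012160)) .nil))) .nil))) (.node .leaf (nat_lit 14102101543335264) (.br (nat_lit 2) (.cons (.br (nat_lit 0) (.cons (.br (nat_lit 6) (.cons (.rel (nat_lit 34426851336)) (.cons (.rel (nat_lit 17188520196)) .nil))) (.cons (.rel (nat_lit 138412041)) .nil))) .nil)) .leaf)))) (nat_lit 14102101545169052) (.br (nat_lit 0) (.cons (.br (nat_lit 3) (.cons (.rel (nat_lit 272640000)) .nil)) .nil)) (.node (.node (.node (.node .leaf (nat_lit 14102127410112694) (.br (nat_lit 2) (.cons (.br (nat_lit 4) (.cons (.rel (nat_lit 1140933696)) .nil)) .nil))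 .leaf) (nat_lit 14103215486343223) (.br (nat_lit 6) (.cons (.br (nat_lit 1) (.cons (.rel (nat_lit 17196910737)) (.cons (.rel (nat_lit 17196908676)) (.cons (.rel (nat_lit 17197039632)) .nil)))) .nil)) (.node .leaf (nat_lit 14103215486343469) (.br (nat_lit 0) (.cons (.br (nat_lit 5) (.cons (.rel (nat_lit 4303487232)) .nil)) .nil)) .leaf)) (nat_lit 14103215486343953) (.br (nat_lit 6) (.cons (.br (nat_lit 4) (.cons (.rel (nat_lit 18253621248)) (.cons (.rel (nat_lit 18253611153)) .nil))) .nil)) (.node (.node .leaf (nat_lit 14103215486786341) (.br (nat_lit 1) (.cons (.br (nat_lit 5) (.cons (.rel (nat_lit 4311769152)) .nil)) .nil)) .leaf) (nat_lit 14103215486909792) (.br (nat_lit 2) (.cons (.br (nat_lit 6) (.cons (.rel (nat_lit 17246980608)) .nil)) .nil)) (.node .leaf (nat_lit 14103215488067714) (.br (nat_lit 2) (.cons (.br (nat_lit 3) (.cons (.rel (nat_lit 335564805)) .nil)) .nil)) .leaf))) (nat_lit 14103215488067766) (.br (nat_lit 2) (.cons (.br (nat_lit 3) (.cons (.rel (nat_lit 335548482))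 (.cons (.rel (nat_lit 335675424)) .nil))) .nil)) (.node (.node (.node .leaf (nat_lit 14103215488068960) (.br (nat_lit 3) (.cons (.br (nat_lit 0) (.cons (.rel (nat_lit 272630916)) (.cons (.rel (nat_lit 272629905)) (.cons (.rel (nat_lit 272640000)) (.cons (.rel (nat_lit 272711688)) (.cons (.rel (nat_lit 272630916)) (.cons (.rel (nat_lit 272646228)) (.cons (.rel (nat_lit 272629905)) .nil)))))))) .nil)) .leaf) (nat_lit 14103215488114844) (.br (nat_lit 3) (.cons (.br (nat_lit 1) (.cons (.rel (nat_lit 285213705)) (.cons (.rel (nat_lit 285233220)) .nil))) .nil)) (.node .leaf (nat_lit 14103215488898425) (.br (nat_lit 0) (.cons (.br (nat_lit 1) (.cons (.rel (nat_lit 25169952)) .nil)) .nil)) .leaf)) (nat_lit 14103215489456179) (.br (nat_lit 1) (.cons (.br (nat_lit 4) (.cons (.br (nat_lit 5) (.cons (.rel (nat_lit 5369823264)) .nil)) .nil)) .nil)) (.node (.node .leaf (nat_lit 14103215489456913) (.br (nat_lit 3) (.cons (.br (nat_lit 5) (.cons (.rel (nat_lit 4564521024)) (.cons (.rel (nat_lit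 8858378244)) (.cons (.rel (nat_lit 4563419400)) .nil)))) (.cons (.br (nat_lit 6) (.cons (.rel (nat_lit 34896625728)) (.cons (.rel (nat_lit 17448308769)) (.cons (.rel (nat_lit 17448321033)) .nil)))) .nil))) .leaf) (nat_lit 14103215489457029) (.br (nat_lit 0) (.cons (.br (nat_lit 2) (.cons (.rel (nat_lit 75530304)) .nil)) .nil)) .leaf)))) (nat_lit 14103215489457504) (.br (nat_lit 6) (.cons (.br (nat_lit 3) (.cons (.rel (nat_lit 17448304710)) (.cons (.rel (nat_lit 17448337536)) (.cons (.rel (nat_lit 17448309780)) .nil)))) (.cons (.br (nat_lit 3) (.cons (.rel (nat_lit 17448337536)) (.cons (.rel (nat_lit 17448306768)) (.cons (.rel (nat_lit 17448337536)) .nil)))) .nil))) (.node (.node (.node (.node (.node .leaf (nat_lit 14103217691354593) (.br (nat_lit 0) (.cons (.br (nat_lit 3) (.cons (.rel (nat_lit 272629905)) .nil)) .nil)) .leaf) (nat_lit 14103217809987639) (.br (nat_lit 0) (.cons (.br (nat_lit 6) (.cons (.br (nat_lit 1) (.cons (.rel (nat_lit 34376515728)) (.cons (.rel (nat_lit 25169952))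 (.cons (.rel (nat_lit 37756944)) .nil)))) (.cons (.rel (nat_lit 17188327428)) .nil))) (.cons (.br (nat_lit 1) (.cons (.rel (nat_lit 25169952)) (.cons (.rel (nat_lit 25232400)) (.cons (.rel (nat_lit 37819392)) .nil)))) .nil))) (.node .leaf (nat_lit 14103218233613073) (.br (nat_lit 5) (.cons (.br (nat_lit 2) (.cons (.rel (nat_lit 8724153345)) (.cons (.rel (nat_lit 4362080400)) (.cons (.rel (nat_lit 4362078210)) .nil)))) (.cons (.br (nat_lit 1) (.cons (.rel (nat_lit 4311744612)) (.cons (.rel (nat_lit 4311744612)) (.cons (.rel (nat_lit 4311744612)) .nil)))) .nil))) .leaf)) (nat_lit 14103218233613175) (.br (nat_lit 0) (.cons (.br (nat_lit 1) (.cons (.rel (nat_lit 25182216)) .nil)) .nil)) (.node (.node .leaf (nat_lit 14103218233613575) (.br (nat_lit 0) (.cons (.br (nat_lit 1) (.cons (.rel (nat_lit 20972160)) .nil)) .nil)) .leaf) (nat_lit 14103218233613690) (.br (nat_lit 1) (.cons (.br (nat_lit 2) (.cons (.rel (nat_lit 85984257)) .nil)) .nil)) (.node .leaf (nat_lit 14103218233665566)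 (.br (nat_lit 1) (.cons (.br (nat_lit 2) (.cons (.rel (nat_lit 151000080)) .nil)) .nil)) .leaf))) (nat_lit 14103218233900515) (.br (nat_lit 3) (.cons (.br (nat_lit 5) (.cons (.rel (nat_lit 9127068672)) .nil)) .nil)) (.node (.node (.node .leaf (nat_lit 14103218234055461) (.br (nat_lit 1) (.cons (.br (nat_lit 3) (.cons (.rel (nat_lit 570426384)) .nil)) .nil)) .leaf) (nat_lit 14103218234055936) (.br (nat_lit 0) (.cons (.br (nat_lit 2) (.cons (.rel (nat_lit 138412041)) .nil)) .nil)) (.node .leaf (nat_lit 14103218234056087) (.br (nat_lit 1) (.cons (.br (nat_lit 3) (.cons (.br (nat_lit 0) (.cons (.rel (nat_lit 545264640)) (.cons (.rel (nat_lit 37781508)) (.cons (.rel (nat_lit 37765185)) .nil)))) .nil)) .nil)) .leaf)) (nat_lit 14103218234179740) (.br (nat_lit 1) (.cons (.br (nat_lit 3) (.cons (.br (nat_lit 6) (.cons (.rel (nat_lit 34896625728)) (.cons (.rel (nat_lit 17448321033)) (.cons (.rel (nat_lit 17448337536)) (.cons (.rel (nat_lit 34896871704)) .nil))))) (.cons (.rel (nat_lit 285233220))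 .nil))) (.cons (.br (nat_lit 0) (.cons (.rel (nat_lit 25169952)) (.cons (.rel (nat_lit 21254208)) (.cons (.rel (nat_lit 41943360)) (.cons (.rel (nat_lit 25165893)) (.cons (.rel (nat_lit 20972160)) (.cons (.rel (nat_lit 22026528)) (.cons (.rel (nat_lit 21233682)) .nil)))))))) .nil))) (.node (.node .leaf (nat_lit 14103218234180369) (.br (nat_lit 1) (.cons (.br (nat_lit 3) (.cons (.rel (nat_lit 570426384)) (.cons (.br (nat_lit 2) (.cons (.br (nat_lit 5) (.cons (.rel (nat_lit 4697636928)) (.cons (.rel (nat_lit 4831838289)) (.cons (.rel (nat_lit 4313060352)) .nil)))) (.cons (.rel (nat_lit 335577105)) .nil))) (.cons (.rel (nat_lit 285233220)) .nil)))) .nil)) .leaf) (nat_lit 14103218234180466) (.br (nat_lit 2) (.cons (.br (nat_lit 3) (.cons (.rel (nat_lit 402653520)) .nil)) .nil)) .leaf))) (nat_lit 14103218234877406) (.br (nat_lit 0) (.cons (.br (nat_lit 4) (.cons (.rel (nat_lit 1080033600)) .nil)) .nil)) (.node (.node (.node (.node .leaf (nat_lit 14103218235099921) (.br (nat_lit 0) (.cons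 (.br (nat_lit 2) (.cons (.rel (nat_lit 71598105)) (.cons (.rel (nat_lit 138412041)) .nil))) .nil)) .leaf) (nat_lit 14103218235338080) (.br (nat_lit 2) (.cons (.br (nat_lit 3) (.cons (.rel (nat_lit 335808768)) (.cons (.rel (nat_lit 335544468)) .nil))) .nil)) (.node .leaf (nat_lit 14103218235409169) (.br (nat_lit 5) (.cons (.br (nat_lit 4) (.cons (.rel (nat_lit 5368774980)) (.cons (.rel (nat_lit 9663692928)) (.cons (.rel (nat_lit 9663692928)) .nil)))) .nil)) .leaf)) (nat_lit 14103218235409671) (.br (nat_lit 0) (.cons (.br (nat_lit 5) (.cons (.rel (nat_lit 4299161634)) .nil)) .nil)) (.node (.node .leaf (nat_lit 14103218236167545) (.br (nat_lit 0) (.cons (.br (nat_lit 1) (.cons (.rel (nat_lit 25169952)) .nil)) .nil)) .leaf) (nat_lit 14103218236226193) (.br (nat_lit 1) (.cons (.br (nat_lit 3) (.cons (.rel (nat_lit 285216897)) .nil)) .nil)) (.node .leaf (nat_lit 14103218236226796) (.br (nat_lit 2) (.cons (.br (nat_lit 3) (.cons (.rel (nat_lit 606076932)) .nil)) .nil)) .leaf))) (nat_lit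 14103218236633349) (.br (nat_lit 2) (.cons (.br (nat_lit 4) (.cons (.rel (nat_lit 1141129476)) .nil)) .nil)) (.node (.node (.node .leaf (nat_lit 14103218236633389) (.br (nat_lit 0) (.cons (.br (nat_lit 3) (.cons (.rel (nat_lit 272633928)) .nil)) .nil)) .leaf) (nat_lit 14103218236634519) (.br (nat_lit 3) (.cons (.br (nat_lit 5) (.cons (.rel (nat_lit 4563405138)) .nil)) .nil)) (.node .leaf (nat_lit 14103424392485649) (.br (nat_lit 1) (.cons (.br (nat_lit 2) (.cons (.rel (nat_lit 84152448)) .nil)) .nil)) .leaf)) (nat_lit 14104282961877047) (.br (nat_lit 2) (.cons (.br (nat_lit 3) (.cons (.rel (nat_lit 335675424)) .nil)) .nil)) (.node (.node .leaf (nat_lit 14104283482484918) (.br (nat_lit 0) (.cons (.br (nat_lit 3) (.cons (.rel (nat_lit 272761872)) .nil)) .nil)) .leaf) (nat_lit 14104283483182432) (.br (nat_lit 0) (.cons (.br (nat_lit 2) (.cons (.rel (nat_lit 71303745)) .nil)) .nil)) .leaf)))))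

/-- refutations 64 -/
def e64 : EX := (.node (.node (.node (.node (.node .leaf (nat_lit 13229605126386475) (.br (nat_lit 1) (.cons (.br (nat_lit 3) (.cons (.rel (nat_lit 285212694)) .nil)) .nil)) .leaf) (nat_lit 13229630366949506) (.br (nat_lit 0) (.cons (.br (nat_lit 2) (.cons (.rel (nat_lit 138547200)) .nil)) .nil)) (.node .leaf (nat_lit 13229796878776977) (.br (nat_lit 0) (.cons (.br (nat_lit 4) (.cons (.rel (nat_lit 1077957696)) .nil)) .nil)) .leaf)) (nat_lit 13229797095992081) (.br (nat_lit 3) (.cons (.br (nat_lit 4) (.cons (.rel (nat_lit 1343234112)) .nil)) .nil)) (.node (.node .leaf (nat_lit 13229797095992107) (.br (nat_lit 0) (.cons (.br (nat_lit 5) (.cons (.br (nat_lit 4) (.cons (.rel (nat_lit 5368709520)) (.cons (.rel (nat_lit 1077936168)) .nil))) .nil)) .nil)) .leaf) (nat_lit 13229797095992672) (.br (nat_lit 4) (.cons (.br (nat_lit 5) (.cons (.rel (nat_lit 5369233473)) .nil)) .nil)) (.node .leaf (nat_lit 13229799625157419) (.br (nat_lit 1) (.cons (.br (nat_lit 5) (.cons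 (.rel (nat_lit 4311875712)) (.cons (.rel (nat_lit 4311875712)) (.cons (.rel (nat_lit 8606973984)) (.cons (.rel (nat_lit 4311846912)) .nil))))) .nil)) .leaf))) (nat_lit 13229859753435947) (.br (nat_lit 2) (.cons (.br (nat_lit 3) (.cons (.rel (nat_lit 335609928)) .nil)) .nil)) (.node (.node (.node .leaf (nat_lit 13230398390149931) (.br (nat_lit 2) (.cons (.br (nat_lit 4) (.cons (.rel (nat_lit 1140851733)) .nil)) .nil)) .leaf) (nat_lit 13230497950343298) (.br (nat_lit 2) (.cons (.br (nat_lit 1) (.cons (.rel (nat_lit 84230208)) (.cons (.rel (nat_lit 167788800)) .nil))) .nil)) (.node .leaf (nat_lit 13230497950343979) (.br (nat_lit 2) (.cons (.br (nat_lit 5) (.cons (.rel (nat_lit 4362158160)) .nil)) .nil)) .leaf)) (nat_lit 13230497952949035) (.br (nat_lit 6) (.cons (.br (nat_lit 1) (.cons (.rel (nat_lit 17196908676)) (.cons (.rel (nat_lit 17196941313)) .nil))) .nil)) (.node (.node .leaf (nat_lit 13230497952996113) (.br (nat_lit 1) (.cons (.br (nat_lit 6) (.cons (.rel (nat_lit 17196941313))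 .nil)) .nil)) .leaf) (nat_lit 13235766881968890) (.br (nat_lit 2) (.cons (.br (nat_lit 4) (.cons (.rel (nat_lit 1140850722)) .nil)) .nil)) .leaf))) (nat_lit 13235766882016043) (.br (nat_lit 2) (.cons (.br (nat_lit 4) (.cons (.rel (nat_lit 1140858948)) .nil)) .nil)) (.node (.node (.node (.node .leaf (nat_lit 13235766882529567) (.br (nat_lit 2) (.cons (.br (nat_lit 0) (.cons (.rel (nat_lit 138412041)) (.cons (.rel (nat_lit 71599104)) .nil))) .nil)) .leaf) (nat_lit 13235766882530042) (.br (nat_lit 2) (.cons (.br (nat_lit 6) (.cons (.rel (nat_lit 17314095108)) .nil)) .nil)) (.node .leaf (nat_lit 13235766882530066) (.br (nat_lit 0) (.cons (.br (nat_lit 1) (.cons (.rel (nat_lit 22085904)) .nil)) .nil)) .leaf)) (nat_lit 13235766883717905) (.br (nat_lit 3) (.cons (.br (nat_lit 1) (.cons (.rel (nat_lit 285286416)) (.cons (.rel (nat_lit 285214752)) .nil))) .nil)) (.node (.node .leaf (nat_lit 13235767538082603) (.br (nat_lit 0) (.cons (.br (nat_lit 3) (.cons (.rel (nat_lit 272892192)) .nil))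 .nil)) .leaf) (nat_lit 13235999027556534) (.br (nat_lit 0) (.cons (.br (nat_lit 2) (.cons (.rel (nat_lit 73404480)) .nil)) .nil)) (.node .leaf (nat_lit 13235999027557163) (.br (nat_lit 0) (.cons (.br (nat_lit 2) (.cons (.rel (nat_lit 75530304)) .nil)) .nil)) .leaf))) (nat_lit 13235999030108971) (.br (nat_lit 3) (.cons (.br (nat_lit 5) (.cons (.rel (nat_lit 4831863888)) .nil)) .nil)) (.node (.node (.node .leaf (nat_lit 13237075301098283) (.br (nat_lit 2) (.cons (.br (nat_lit 3) (.cons (.rel (nat_lit 335548482)) .nil)) .nil)) .leaf) (nat_lit 13237107565122347) (.br (nat_lit 0) (.cons (.br (nat_lit 3) (.cons (.rel (nat_lit 272699424)) .nil)) .nil)) (.node .leaf (nat_lit 13240116792255275) (.br (nat_lit 0) (.cons (.br (nat_lit 4) (.cons (.rel (nat_lit 1082200320)) .nil)) .nil)) .leaf)) (nat_lit 13240279345360250) (.br (nat_lit 3) (.cons (.br (nat_lit 6) (.cons (.rel (nat_lit 17448378432)) .nil)) .nil)) (.node (.node .leaf (nat_lit 13242735440286507) (.br (nat_lit 0) (.cons (.br (nat_lit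 1) (.cons (.rel (nat_lit 20972160)) .nil)) .nil)) .leaf) (nat_lit 13242736720964395) (.br (nat_lit 1) (.cons (.br (nat_lit 6) (.cons (.rel (nat_lit 17213442048)) (.cons (.rel (nat_lit 34376549376)) .nil))) .nil)) .leaf))))

/-- refutations 65 -/
def e65 : EX := (.node (.node (.node .leaf (nat_lit 14196949456826625) (.br (nat_lit 0) (.cons (.br (nat_lit 2) (.cons (.rel (nat_lit 138412041)) .nil)) .nil)) .leaf) (nat_lit 14196949457902875) (.br (nat_lit 0) (.cons (.br (nat_lit 1) (.cons (.rel (nat_lit 25169952)) .nil)) .nil)) (.node .leaf (nat_lit 14199270330153885) (.br (nat_lit 0) (.cons (.br (nat_lit 1) (.cons (.rel (nat_lit 41943360)) .nil)) .nil)) .leaf)) (nat_lit 14199516910625520) (.br (nat_lit 1) (.cons (.br (nat_lit 3) (.cons (.rel (nat_lit 285214752)) .nil)) .nil)) (.node (.node .leaf (nat_lit 14207685745390323) (.br (nat_lit 0) (.cons (.br (nat_lit 1) (.cons (.rel (nat_lit 21331968)) .nil)) .nil)) .leaf) (nat_lit 14207726706442877) (.br (nat_lit 0) (.cons (.br (nat_lit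 1) (.cons (.rel (nat_lit 21234693)) .nil)) .nil)) (.node .leaf (nat_lit 14208084755209694) (.br (nat_lit 0) (.cons (.br (nat_lit 2) (.cons (.rel (nat_lit 138412041)) .nil)) .nil)) .leaf)))

/-- refutations 66 -/
def e66 : EX := (.node (.node (.node .leaf (nat_lit 15430495914163112) (.br (nat_lit 4) (.cons (.br (nat_lit 5) (.cons (.rel (nat_lit 5368729857)) .nil)) .nil)) .leaf) (nat_lit 15433949067869096) (.br (nat_lit 1) (.cons (.br (nat_lit 2) (.cons (.rel (nat_lit 84152448)) .nil)) .nil)) .leaf) (nat_lit 15433977366838184) (.br (nat_lit 3) (.cons (.br (nat_lit 6) (.cons (.rel (nat_lit 17448337536)) .nil)) .nil)) (.node (.node .leaf (nat_lit 15434251705505919) (.br (nat_lit 1) (.cons (.br (nat_lit 2) (.cons (.rel (nat_lit 100795392)) .nil)) .nil)) .leaf) (nat_lit 15441708308181892) (.br (nat_lit 0) (.cons (.br (nat_lit 1) (.cons (.rel (nat_lit 21254208)) .nil)) .nil)) .leaf))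

/-- refutations 67 -/
def e67 : EX := (.node (.node (.node (.node (.node (.node .leaf (nat_lit 15569137489664932) (.br (nat_lit 6) (.cons (.br (nat_lit 1) (.cons (.rel (nat_lit 17196917760)) (.cons (.rel (nat_lit 34393297221)) (.cons (.rel (nat_lit 17198760000)) (.cons (.rel (nat_lit 34376515728)) (.cons (.rel (nat_lit 34376515728)) .nil)))))) (.cons (.br (nat_lit 1) (.cons (.rel (nat_lit 34376515728)) (.cons (.rel (nat_lit 17196917760)) (.cons (.rel (nat_lit 17196917760)) (.cons (.rel (nat_lit 17197039632)) (.cons (.rel (nat_lit 17196713472)) .nil)))))) (.cons (.br (nat_lit 3) (.cons (.rel (nat_lit 17448337536)) (.cons (.rel (nat_lit 17448321033)) (.cons (.br (nat_lit 1) (.cons (.rel (nat_lit 285216897)) (.cons (.rel (nat_lit 285216897)) (.cons (.rel (nat_lit 285286416)) (.cons (.rel (nat_lit 285214752)) (.cons (.rel (nat_lit 285233220)) .nil)))))) (.cons (.rel (nat_lit 17448337536)) (.cons (.rel (nat_lit 17448304710)) .nil)))))) .nil)))) .leaf) (nat_lit 15569137491991460) (.br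 (nat_lit 0) (.cons (.br (nat_lit 2) (.cons (.rel (nat_lit 142611792)) .nil)) .nil)) .leaf) (nat_lit 15569139343547300) (.br (nat_lit 1) (.cons (.br (nat_lit 3) (.cons (.rel (nat_lit 285216897)) .nil)) .nil)) (.node .leaf (nat_lit 15569139968497791) (.br (nat_lit 1) (.cons (.br (nat_lit 0) (.cons (.rel (nat_lit 25169952)) (.cons (.rel (nat_lit 37756944)) (.cons (.rel (nat_lit 37756944)) (.cons (.rel (nat_lit 21331968)) (.cons (.rel (nat_lit 21254208)) (.cons (.rel (nat_lit 25169952)) .nil))))))) (.cons (.br (nat_lit 6) (.cons (.br (nat_lit 4) (.cons (.rel (nat_lit 19329515520)) (.cons (.rel (nat_lit 18254676480)) .nil))) (.cons (.rel (nat_lit 34376515728)) .nil))) .nil))) .leaf)) (nat_lit 15569139968498596) (.br (nat_lit 4) (.cons (.br (nat_lit 6) (.cons (.rel (nat_lit 18253873440)) (.cons (.br (nat_lit 1) (.cons (.rel (nat_lit 17197039632)) (.cons (.rel (nat_lit 17213428737)) (.cons (.rel (nat_lit 34376515728)) .nil)))) .nil))) .nil)) (.node (.node .leaf (nat_lit 15569142111787813)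 (.br (nat_lit 1) (.cons (.br (nat_lit 2) (.cons (.br (nat_lit 5) (.cons (.rel (nat_lit 4362145860)) (.cons (.rel (nat_lit 8623554624)) .nil))) .nil)) .nil)) .leaf) (nat_lit 15569142112628119) (.br (nat_lit 1) (.cons (.br (nat_lit 2) (.cons (.rel (nat_lit 83919360)) .nil)) .nil)) (.node .leaf (nat_lit 15570201602501289) (.br (nat_lit 6) (.cons (.br (nat_lit 2) (.cons (.rel (nat_lit 34493957376)) (.cons (.rel (nat_lit 17314156545)) .nil))) .nil)) .leaf))) (nat_lit 15570201602501895) (.br (nat_lit 4) (.cons (.br (nat_lit 6) (.cons (.rel (nat_lit 18253676613)) (.cons (.rel (nat_lit 36507227136)) .nil))) (.cons (.br (nat_lit 6) (.cons (.rel (nat_lit 18253621248)) (.cons (.rel (nat_lit 18253680672)) .nil))) .nil))) (.node (.node (.node .leaf (nat_lit 15570202641554340) (.br (nat_lit 6) (.cons (.br (nat_lit 3) (.cons (.rel (nat_lit 17448304710)) (.cons (.rel (nat_lit 17448304710)) (.cons (.rel (nat_lit 34629238800)) (.cons (.rel (nat_lit 17448378432)) .nil))))) .nil)) .leaf) (nat_lit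 15570205120387199) (.br (nat_lit 1) (.cons (.br (nat_lit 6) (.cons (.rel (nat_lit 17213423712)) (.cons (.rel (nat_lit 17197039632)) .nil))) (.cons (.br (nat_lit 6) (.cons (.br (nat_lit 2) (.cons (.rel (nat_lit 151000080)) (.cons (.rel (nat_lit 34493957376)) (.cons (.rel (nat_lit 34493957376)) .nil)))) (.cons (.rel (nat_lit 34376515728)) .nil))) .nil))) (.node .leaf (nat_lit 15570205120388004) (.br (nat_lit 1) (.cons (.br (nat_lit 6) (.cons (.br (nat_lit 4) (.cons (.rel (nat_lit 18253611153)) (.cons (.rel (nat_lit 35434659840)) (.cons (.rel (nat_lit 18253611153)) .nil)))) (.cons (.rel (nat_lit 17197039632)) (.cons (.rel (nat_lit 17196917760)) .nil)))) (.cons (.br (nat_lit 6) (.cons (.rel (nat_lit 17196908676)) (.cons (.rel (nat_lit 17213428737)) (.cons (.rel (nat_lit 17196917760)) .nil)))) (.cons (.br (nat_lit 6) (.cons (.rel (nat_lit 17213489172)) (.cons (.rel (nat_lit 34376515728)) (.cons (.rel (nat_lit 17196917760)) .nil)))) .nil)))) .leaf)) (nat_lit 15570207129458815) (.br (nat_lit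 6) (.cons (.br (nat_lit 2) (.cons (.rel (nat_lit 17248047360)) (.cons (.rel (nat_lit 34493957376)) (.cons (.rel (nat_lit 34493957376)) .nil)))) (.cons (.br (nat_lit 2) (.cons (.rel (nat_lit 17247240261)) (.cons (.rel (nat_lit 17314169856)) (.cons (.rel (nat_lit 34426847313)) .nil)))) .nil))) (.node (.node .leaf (nat_lit 15570207129459493) (.br (nat_lit 4) (.cons (.br (nat_lit 6) (.cons (.rel (nat_lit 18253621248)) .nil)) .nil)) .leaf) (nat_lit 15570207130593961) (.br (nat_lit 6) (.cons (.br (nat_lit 4) (.cons (.rel (nat_lit 18253644801)) (.cons (.rel (nat_lit 18253631490)) .nil))) .nil)) (.node .leaf (nat_lit 15570207263535390) (.br (nat_lit 0) (.cons (.br (nat_lit 1) (.cons (.rel (nat_lit 20972160)) .nil)) .nil)) .leaf)))) (nat_lit 15570207263677221) (.br (nat_lit 1) (.cons (.br (nat_lit 4) (.cons (.rel (nat_lit 1090560000)) (.cons (.br (nat_lit 0) (.cons (.rel (nat_lit 25169952)) (.cons (.rel (nat_lit 37781508)) (.cons (.rel (nat_lit 1077960708)) .nil)))) .nil))) .nil)) (.node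 (.node (.node (.node .leaf (nat_lit 15570602459447481) (.br (nat_lit 1) (.cons (.br (nat_lit 5) (.cons (.rel (nat_lit 8623554624)) .nil)) .nil)) .leaf) (nat_lit 15571461872400684) (.br (nat_lit 2) (.cons (.br (nat_lit 3) (.cons (.rel (nat_lit 335577105)) .nil)) .nil)) (.node .leaf (nat_lit 15571461874604317) (.br (nat_lit 1) (.cons (.br (nat_lit 5) (.cons (.rel (nat_lit 4311762948)) .nil)) .nil)) .leaf)) (nat_lit 15574462211330359) (.br (nat_lit 0) (.cons (.br (nat_lit 1) (.cons (.rel (nat_lit 41943360)) .nil)) .nil)) (.node (.node .leaf (nat_lit 15574986196069033) (.br (nat_lit 6) (.cons (.br (nat_lit 3) (.cons (.br (nat_lit 1) (.cons (.rel (nat_lit 285348864)) (.cons (.rel (nat_lit 285214752)) (.cons (.rel (nat_lit 285286416)) .nil)))) (.cons (.rel (nat_lit 17448321033)) (.cons (.rel (nat_lit 17448337536)) (.cons (.rel (nat_lit 17448304710)) .nil))))) .nil)) .leaf) (nat_lit 15574986196069639) (.br (nat_lit 6) (.cons (.br (nat_lit 4) (.cons (.rel (nat_lit 19329515520)) (.cons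 (.rel (nat_lit 35434659840)) .nil))) .nil)) (.node .leaf (nat_lit 15574989713954943) (.br (nat_lit 1) (.cons (.br (nat_lit 6) (.cons (.rel (nat_lit 17196917760)) (.cons (.rel (nat_lit 17197039632)) .nil))) (.cons (.br (nat_lit 6) (.cons (.rel (nat_lit 17197039632)) (.cons (.rel (nat_lit 34376515728)) .nil))) .nil))) .leaf))) (nat_lit 15574989713955748) (.br (nat_lit 4) (.cons (.br (nat_lit 6) (.cons (.rel (nat_lit 18253627476)) (.cons (.rel (nat_lit 18253621248)) .nil))) .nil)) (.node (.node (.node .leaf (nat_lit 15574989715090089) (.br (nat_lit 6) (.cons (.br (nat_lit 2) (.cons (.rel (nat_lit 17314095108)) (.cons (.rel (nat_lit 34426847313)) .nil))) .nil)) .leaf) (nat_lit 15574989715299679) (.br (nat_lit 1) (.cons (.br (nat_lit 3) (.cons (.rel (nat_lit 285230208)) .nil)) .nil)) (.node .leaf (nat_lit 15574991723026559) (.br (nat_lit 6) (.cons (.br (nat_lit 4) (.cons (.br (nat_lit 3) (.cons (.rel (nat_lit 17448304710)) (.cons (.rel (nat_lit 17448308769)) (.cons (.br (nat_lit 1)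 (.cons (.rel (nat_lit 285216897)) (.cons (.rel (nat_lit 17196651024)) (.cons (.rel (nat_lit 285214752)) .nil)))) (.cons (.rel (nat_lit 17448337536)) (.cons (.rel (nat_lit 17448337536)) (.cons (.rel (nat_lit 2415988740)) .nil))))))) (.cons (.rel (nat_lit 19329515520)) (.cons (.rel (nat_lit 18253692936)) .nil)))) .nil)) .leaf)) (nat_lit 15574991723027237) (.br (nat_lit 1) (.cons (.br (nat_lit 0) (.cons (.rel (nat_lit 37756944)) (.cons (.rel (nat_lit 25232400)) (.cons (.rel (nat_lit 37819392)) .nil)))) (.cons (.br (nat_lit 0) (.cons (.rel (nat_lit 25169952)) (.cons (.rel (nat_lit 37819392)) (.cons (.rel (nat_lit 37819392)) .nil)))) .nil))) (.node (.node .leaf (nat_lit 15574991857244965) (.br (nat_lit 1) (.cons (.br (nat_lit 4) (.cons (.rel (nat_lit 1090588800)) (.cons (.rel (nat_lit 2181058560)) .nil))) .nil)) .leaf) (nat_lit 15575805760425448) (.br (nat_lit 2) (.cons (.br (nat_lit 0) (.cons (.rel (nat_lit 71585793)) (.cons (.rel (nat_lit 71303745)) .nil))) .nil)) (.node .leaf (nat_lit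 15576687834780530) (.br (nat_lit 0) (.cons (.br (nat_lit 3) (.cons (.rel (nat_lit 272699424)) (.cons (.rel (nat_lit 272633928)) .nil))) .nil)) .leaf)))))

/-- refutations 68 -/
def e68 : EX := (.node (.node (.node (.node (.node .leaf (nat_lit 15576827962641934) (.br (nat_lit 2) (.cons (.br (nat_lit 3) (.cons (.rel (nat_lit 335553552)) .nil)) .nil)) .leaf) (nat_lit 15577117436472202) (.br (nat_lit 0) (.cons (.br (nat_lit 1) (.cons (.rel (nat_lit 41943360)) .nil)) .nil)) (.node .leaf (nat_lit 15577120063871103) (.br (nat_lit 0) (.cons (.br (nat_lit 1) (.cons (.rel (nat_lit 41943360)) .nil)) .nil)) .leaf)) (nat_lit 15577120066045435) (.br (nat_lit 1) (.cons (.br (nat_lit 3) (.cons (.rel (nat_lit 285348864)) .nil)) .nil)) (.node (.node .leaf (nat_lit 15577122026806053) (.br (nat_lit 6) (.cons (.br (nat_lit 1) (.cons (.rel (nat_lit 34376515728)) (.cons (.rel (nat_lit 17196908676)) .nil))) .nil)) .leaf) (nat_lit 15580038116662180) (.br (nat_lit 6) (.cons (.br (nat_lit 1) (.cons (.rel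 (nat_lit 17196917760)) (.cons (.rel (nat_lit 17213423712)) (.cons (.rel (nat_lit 17196713472)) (.cons (.rel (nat_lit 34376515728)) (.cons (.rel (nat_lit 17197039632)) .nil)))))) (.cons (.br (nat_lit 2) (.cons (.rel (nat_lit 34493957376)) (.cons (.rel (nat_lit 34426950672)) (.cons (.rel (nat_lit 17246980608)) (.cons (.rel (nat_lit 34426851336)) (.cons (.rel (nat_lit 17247256584)) .nil)))))) .nil))) (.node .leaf (nat_lit 15581129038355364) (.br (nat_lit 6) (.cons (.br (nat_lit 1) (.cons (.rel (nat_lit 34394492928)) (.cons (.rel (nat_lit 17196917760)) (.cons (.rel (nat_lit 17197039632)) .nil)))) (.cons (.br (nat_lit 1) (.cons (.rel (nat_lit 34376536065)) (.cons (.rel (nat_lit 17197039632)) (.cons (.rel (nat_lit 17213423712)) .nil)))) .nil))) .leaf))) (nat_lit 15582193149644825) (.br (nat_lit 0) (.cons (.br (nat_lit 2) (.cons (.rel (nat_lit 138428544)) .nil)) .nil)) (.node (.node (.node .leaf (nat_lit 15582193151191721) (.br (nat_lit 5) (.cons (.br (nat_lit 6) (.cons (.rel (nat_lit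 21474845712)) (.cons (.br (nat_lit 3) (.cons (.rel (nat_lit 4563419400)) (.cons (.rel (nat_lit 4564598784)) (.cons (.rel (nat_lit 17448337536)) (.cons (.rel (nat_lit 17448337536)) .nil))))) .nil))) (.cons (.br (nat_lit 2) (.cons (.rel (nat_lit 8724153345)) (.cons (.rel (nat_lit 4430299137)) (.cons (.rel (nat_lit 4362078210)) (.cons (.rel (nat_lit 4362142848)) .nil))))) .nil))) .leaf) (nat_lit 15582193151192327) (.br (nat_lit 4) (.cons (.br (nat_lit 5) (.cons (.rel (nat_lit 6442483776)) (.cons (.rel (nat_lit 9663692928)) .nil))) .nil)) (.node .leaf (nat_lit 15582196668937069) (.br (nat_lit 0) (.cons (.br (nat_lit 1) (.cons (.rel (nat_lit 23068692)) .nil)) .nil)) .leaf)) (nat_lit 15582196668937697) (.br (nat_lit 1) (.cons (.br (nat_lit 3) (.cons (.rel (nat_lit 301991172)) .nil)) .nil)) (.node (.node .leaf (nat_lit 15582196669077631) (.br (nat_lit 6) (.cons (.br (nat_lit 1) (.cons (.rel (nat_lit 17197039632)) (.cons (.rel (nat_lit 17197039632)) (.cons (.rel (nat_lit 34376515728))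 .nil)))) .nil)) .leaf) (nat_lit 15582196669077805) (.br (nat_lit 1) (.cons (.br (nat_lit 2) (.cons (.rel (nat_lit 100732944)) (.cons (.rel (nat_lit 84148245)) .nil))) .nil)) .leaf))) (nat_lit 15582196669078436) (.br (nat_lit 1) (.cons (.br (nat_lit 4) (.cons (.rel (nat_lit 1090524162)) (.cons (.br (nat_lit 6) (.cons (.rel (nat_lit 17196917760)) (.cons (.rel (nat_lit 17196917760)) (.cons (.rel (nat_lit 35434659840)) (.cons (.rel (nat_lit 17197039632)) (.cons (.rel (nat_lit 17196917760)) .nil)))))) (.cons (.rel (nat_lit 1090666560)) (.cons (.rel (nat_lit 1090588800)) .nil))))) (.cons (.br (nat_lit 3) (.cons (.rel (nat_lit 553910337)) (.cons (.rel (nat_lit 285233220)) (.cons (.rel (nat_lit 285213705)) (.cons (.rel (nat_lit 285233220)) .nil))))) (.cons (.br (nat_lit 3) (.cons (.rel (nat_lit 285286416)) (.cons (.rel (nat_lit 570426384)) (.cons (.br (nat_lit 4) (.cons (.rel (nat_lit 1090519137)) (.cons (.rel (nat_lit 1090666560)) (.cons (.rel (nat_lit 2415988740)) (.cons (.rel (nat_lit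 1090535460)) .nil))))) (.cons (.rel (nat_lit 285216897)) .nil))))) (.cons (.br (nat_lit 6) (.cons (.rel (nat_lit 17197039632)) (.cons (.rel (nat_lit 17196917760)) (.cons (.br (nat_lit 3) (.cons (.rel (nat_lit 285214752)) (.cons (.rel (nat_lit 285214752)) (.cons (.br (nat_lit 4) (.cons (.rel (nat_lit 1090520148)) (.cons (.rel (nat_lit 35434659840)) (.cons (.rel (nat_lit 2415988740)) (.cons (.rel (nat_lit 1090520148)) .nil))))) (.cons (.rel (nat_lit 34896625728)) .nil))))) (.cons (.rel (nat_lit 34376515728)) (.cons (.rel (nat_lit 17196917760)) .nil)))))) .nil))))) (.node (.node (.node (.node .leaf (nat_lit 15582196669858474) (.br (nat_lit 0) (.cons (.br (nat_lit 1) (.cons (.rel (nat_lit 21233682)) .nil)) .nil)) .leaf) (nat_lit 15582196669859067) (.br (nat_lit 0) (.cons (.br (nat_lit 3) (.cons (.rel (nat_lit 545264640)) .nil)) .nil)) (.node .leaf (nat_lit 15582196669859167) (.br (nat_lit 0) (.cons (.br (nat_lit 1) (.cons (.rel (nat_lit 21234693)) .nil)) .nil)) .leaf)) (nat_lit 15582196670212777)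 (.br (nat_lit 5) (.cons (.br (nat_lit 6) (.cons (.rel (nat_lit 21474845712)) (.cons (.rel (nat_lit 42949738512)) .nil))) (.cons (.br (nat_lit 2) (.cons (.rel (nat_lit 8724153345)) (.cons (.rel (nat_lit 4362078210)) (.cons (.rel (nat_lit 4430234688)) (.cons (.rel (nat_lit 4362076197)) .nil))))) .nil))) (.node (.node .leaf (nat_lit 15582196671400618) (.br (nat_lit 0) (.cons (.br (nat_lit 1) (.cons (.rel (nat_lit 41943360)) .nil)) .nil)) .leaf) (nat_lit 15582196671656818) (.br (nat_lit 1) (.cons (.br (nat_lit 2) (.cons (.rel (nat_lit 85197441)) .nil)) .nil)) .leaf)) (nat_lit 15582196671761064) (.br (nat_lit 5) (.cons (.br (nat_lit 6) (.cons (.rel (nat_lit 21474836628)) .nil)) .nil)) (.node (.node (.node .leaf (nat_lit 15582196671761896) (.br (nat_lit 2) (.cons (.br (nat_lit 3) (.cons (.rel (nat_lit 335544468)) .nil)) .nil)) .leaf) (nat_lit 15582196671761934) (.br (nat_lit 2) (.cons (.br (nat_lit 3) (.cons (.rel (nat_lit 335675424)) .nil)) .nil)) (.node .leaf (nat_lit 15582198678149247)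 (.br (nat_lit 6) (.cons (.br (nat_lit 3) (.cons (.rel (nat_lit 17448337536)) (.cons (.br (nat_lit 1) (.cons (.rel (nat_lit 285348864)) (.cons (.rel (nat_lit 17196908676)) (.cons (.rel (nat_lit 285286416)) .nil)))) (.cons (.rel (nat_lit 34896625728)) .nil)))) .nil)) .leaf)) (nat_lit 15582198678149925) (.br (nat_lit 6) (.cons (.br (nat_lit 4) (.cons (.rel (nat_lit 18253692936)) (.cons (.br (nat_lit 3) (.cons (.rel (nat_lit 17448337536)) (.cons (.rel (nat_lit 2415988740)) (.cons (.rel (nat_lit 34896625728)) .nil)))) .nil))) .nil)) (.node (.node .leaf (nat_lit 15582198678928140) (.br (nat_lit 1) (.cons (.br (nat_lit 6) (.cons (.rel (nat_lit 17197039632)) .nil)) .nil)) .leaf) (nat_lit 15582198678928796) (.br (nat_lit 3) (.cons (.br (nat_lit 4) (.cons (.rel (nat_lit 1342193925)) .nil)) .nil)) .leaf))))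

/-- refutations 69 -/
def e69 : EX := (.node (.node (.node (.node (.node .leaf (nat_lit 15482197988321417) (.br (nat_lit 0) (.cons (.br (nat_lit 4) (.cons (.rel (nat_lit 1077936168)) .nil)) .nil)) .leaf) (nat_lit 15482198743042975) (.br (nat_lit 3) (.cons (.br (nat_lit 5) (.cons (.rel (nat_lit 4564521024)) (.cons (.rel (nat_lit 4563425664)) .nil))) (.cons (.br (nat_lit 0) (.cons (.rel (nat_lit 272640000)) (.cons (.rel (nat_lit 272630916)) (.cons (.rel (nat_lit 272761872)) .nil)))) .nil))) .leaf) (nat_lit 15482246333303060) (.br (nat_lit 1) (.cons (.br (nat_lit 2) (.cons (.rel (nat_lit 83919360)) .nil)) .nil)) (.node (.node .leaf (nat_lit 15482246334231455) (.br (nat_lit 1) (.cons (.br (nat_lit 5) (.cons (.rel (nat_lit 8606973984)) .nil)) .nil)) .leaf) (nat_lit 15482246334589855) (.br (nat_lit 3) (.cons (.br (nat_lit 4) (.cons (.rel (nat_lit 2684616720)) .nil)) .nil)) .leaf)) (nat_lit 15482246334737815) (.br (nat_lit 0) (.cons (.br (nat_lit 1) (.cons (.rel (nat_lit 25165893)) .nil))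 .nil)) (.node (.node (.node .leaf (nat_lit 15482246334860191) (.br (nat_lit 0) (.cons (.br (nat_lit 1) (.cons (.rel (nat_lit 41943360)) .nil)) .nil)) .leaf) (nat_lit 15483509054680327) (.br (nat_lit 0) (.cons (.br (nat_lit 3) (.cons (.rel (nat_lit 272629905)) .nil)) .nil)) .leaf) (nat_lit 15483509055122335) (.br (nat_lit 1) (.cons (.br (nat_lit 6) (.cons (.rel (nat_lit 17196941313)) .nil)) .nil)) (.node (.node .leaf (nat_lit 15488907481009055) (.br (nat_lit 3) (.cons (.br (nat_lit 6) (.cons (.rel (nat_lit 17448337536)) .nil)) .nil)) .leaf) (nat_lit 15488907481959327) (.br (nat_lit 1) (.cons (.br (nat_lit 0) (.cons (.rel (nat_lit 37819392)) (.cons (.rel (nat_lit 21331968)) .nil))) .nil)) .leaf))) (nat_lit 15488907482213279) (.br (nat_lit 3) (.cons (.br (nat_lit 4) (.cons (.rel (nat_lit 1342193925)) .nil)) .nil)) (.node (.node (.node (.node .leaf (nat_lit 15489115085938688) (.br (nat_lit 0) (.cons (.br (nat_lit 1) (.cons (.rel (nat_lit 21254208)) .nil)) .nil)) .leaf) (nat_lit 15489115087180457)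 (.br (nat_lit 1) (.cons (.br (nat_lit 0) (.cons (.rel (nat_lit 43077633)) (.cons (.rel (nat_lit 25165893)) .nil))) .nil)) .leaf) (nat_lit 15492162312448927) (.br (nat_lit 0) (.cons (.br (nat_lit 2) (.cons (.rel (nat_lit 71585793)) .nil)) .nil)) (.node (.node .leaf (nat_lit 15492163067169695) (.br (nat_lit 2) (.cons (.br (nat_lit 3) (.cons (.rel (nat_lit 335553552)) (.cons (.rel (nat_lit 335561793)) .nil))) .nil)) .leaf) (nat_lit 15492163067423647) (.br (nat_lit 0) (.cons (.br (nat_lit 2) (.cons (.rel (nat_lit 71303745)) (.cons (.rel (nat_lit 71599104)) .nil))) (.cons (.br (nat_lit 2) (.cons (.rel (nat_lit 71320068)) (.cons (.rel (nat_lit 71565456)) .nil))) .nil))) .leaf)) (nat_lit 15493168089516959) (.br (nat_lit 0) (.cons (.br (nat_lit 1) (.cons (.rel (nat_lit 21233682)) .nil)) .nil)) (.node (.node (.node .leaf (nat_lit 15493253988862108) (.br (nat_lit 0) (.cons (.br (nat_lit 3) (.cons (.rel (nat_lit 272699424)) .nil)) .nil)) .leaf) (nat_lit 15493253988862879) (.br (nat_lit 1)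 (.cons (.br (nat_lit 3) (.cons (.rel (nat_lit 285348864)) .nil)) .nil)) .leaf) (nat_lit 15493253989131167) (.br (nat_lit 2) (.cons (.br (nat_lit 5) (.cons (.rel (nat_lit 8724153345)) .nil)) .nil)) (.node (.node .leaf (nat_lit 15493258630377628) (.br (nat_lit 1) (.cons (.br (nat_lit 6) (.cons (.rel (nat_lit 34376549376)) .nil)) .nil)) .leaf) (nat_lit 15493258630378399) (.br (nat_lit 3) (.cons (.br (nat_lit 4) (.cons (.rel (nat_lit 1342177602)) .nil)) .nil)) .leaf))))

/-- refutations 70 -/
def e70 : EX := (.node (.node (.node .leaf (nat_lit 15939007410436123) (.br (nat_lit 1) (.cons (.br (nat_lit 3) (.cons (.rel (nat_lit 285212694)) .nil)) .nil)) .leaf) (nat_lit 15940691521460500) (.br (nat_lit 1) (.cons (.br (nat_lit 3) (.cons (.rel (nat_lit 285310980)) .nil)) .nil)) (.node .leaf (nat_lit 15944116536920846) (.br (nat_lit 1) (.cons (.br (nat_lit 5) (.cons (.rel (nat_lit 4311748626)) .nil)) .nil)) .leaf)) (nat_lit 15944211024336250) (.br (nat_lit 3) (.cons (.br (nat_lit 5) (.cons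 (.rel (nat_lit 4831903749)) .nil)) .nil)) (.node (.node .leaf (nat_lit 15944425224500625) (.br (nat_lit 0) (.cons (.br (nat_lit 1) (.cons (.rel (nat_lit 37756944)) .nil)) .nil)) .leaf) (nat_lit 15944425774491650) (.br (nat_lit 0) (.cons (.br (nat_lit 1) (.cons (.rel (nat_lit 20972160)) .nil)) .nil)) (.node .leaf (nat_lit 15944425774492575) (.br (nat_lit 2) (.cons (.br (nat_lit 4) (.cons (.rel (nat_lit 2281701393)) .nil)) .nil)) .leaf)))

/-- refutations 71 -/
def e71 : EX := (.node (.node (.node (.node .leaf (nat_lit 15944964083558402) (.br (nat_lit 1) (.cons (.br (nat_lit 2) (.cons (.rel (nat_lit 83919360)) .nil)) .nil)) .leaf) (nat_lit 15946088812920166) (.br (nat_lit 5) (.cons (.br (nat_lit 6) (.cons (.rel (nat_lit 21474967584)) .nil)) .nil)) .leaf) (nat_lit 15946088813029652) (.br (nat_lit 0) (.cons (.br (nat_lit 1) (.cons (.rel (nat_lit 26476608)) .nil)) .nil)) (.node (.node .leaf (nat_lit 15946088813030138) (.br (nat_lit 5) (.cons (.br (nat_lit 4) (.cons (.rel (nat_lit 5368743168))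 (.cons (.rel (nat_lit 9663677472)) .nil))) .nil)) .leaf) (nat_lit 15946088813490227) (.br (nat_lit 0) (.cons (.br (nat_lit 6) (.cons (.rel (nat_lit 34363950084)) .nil)) .nil)) .leaf)) (nat_lit 15946088814763289) (.br (nat_lit 0) (.cons (.br (nat_lit 1) (.cons (.rel (nat_lit 25169952)) .nil)) .nil)) (.node (.node (.node .leaf (nat_lit 15946088815489786) (.br (nat_lit 1) (.cons (.br (nat_lit 5) (.cons (.rel (nat_lit 4311746625)) (.cons (.rel (nat_lit 4311748626)) .nil))) (.cons (.br (nat_lit 2) (.cons (.rel (nat_lit 83919360)) (.cons (.rel (nat_lit 83919360)) .nil))) .nil))) .leaf) (nat_lit 15946088815721210) (.br (nat_lit 0) (.cons (.br (nat_lit 5) (.cons (.rel (nat_lit 4299298818)) (.cons (.rel (nat_lit 4299231297)) .nil))) (.cons (.br (nat_lit 5) (.cons (.rel (nat_lit 4299166848)) (.cons (.rel (nat_lit 4299166848)) .nil))) .nil))) .leaf) (nat_lit 15946088815783163) (.br (nat_lit 0) (.cons (.br (nat_lit 1) (.cons (.rel (nat_lit 41943360)) .nil)) .nil)) (.node (.node .leaf (nat_lit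 15946088815989498) (.br (nat_lit 0) (.cons (.br (nat_lit 5) (.cons (.rel (nat_lit 4299161634)) .nil)) .nil)) .leaf) (nat_lit 15951419837535019) (.br (nat_lit 1) (.cons (.br (nat_lit 2) (.cons (.rel (nat_lit 151000080)) .nil)) .nil)) .leaf)))

/-- refutations 72 -/
def e72 : EX := (.node .leaf (nat_lit 15951878428945146) (.br (nat_lit 2) (.cons (.br (nat_lit 3) (.cons (.rel (nat_lit 604241922)) (.cons (.rel (nat_lit 335675424)) .nil))) (.cons (.br (nat_lit 3) (.cons (.rel (nat_lit 402653520)) (.cons (.rel (nat_lit 335553552)) .nil))) .nil))) .leaf)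

/-- refutations 73 -/
def e73 : EX := (.node (.node (.node (.node .leaf (nat_lit 15858300316510394) (.br (nat_lit 0) (.cons (.br (nat_lit 1) (.cons (.rel (nat_lit 23068692)) .nil)) .nil)) .leaf) (nat_lit 15858300316511610) (.br (nat_lit 0) (.cons (.br (nat_lit 1) (.cons (.rel (nat_lit 37765185)) .nil)) .nil)) .leaf) (nat_lit 15863940076865692) (.br (nat_lit 1) (.cons (.br (nat_lit 2) (.cons (.rel (nat_lit 85458960)) .nil)) .nil)) (.node (.node .leaf (nat_lit 15863940077069173) (.br (nat_lit 1) (.cons (.br (nat_lit 3) (.cons (.rel (nat_lit 285214752)) .nil)) .nil)) .leaf) (nat_lit 15863940077174286) (.br (nat_lit 0) (.cons (.br (nat_lit 4) (.cons (.rel (nat_lit 1077960708)) .nil)) .nil)) .leaf)) (nat_lit 15863940078123164) (.br (nat_lit 5) (.cons (.br (nat_lit 6) (.cons (.rel (nat_lit 21474967584)) .nil)) .nil)) (.node (.node (.node .leaf (nat_lit 15863940078124268) (.br (nat_lit 0) (.cons (.br (nat_lit 1) (.cons (.rel (nat_lit 20972160)) .nil)) .nil)) .leaf) (nat_lit 15863940078381941)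 (.br (nat_lit 2) (.cons (.br (nat_lit 3) (.cons (.rel (nat_lit 402718980)) .nil)) .nil)) .leaf) (nat_lit 15863940078452238) (.br (nat_lit 0) (.cons (.br (nat_lit 5) (.cons (.rel (nat_lit 4299440388)) .nil)) .nil)) (.node .leaf (nat_lit 15863940079364981) (.br (nat_lit 1) (.cons (.br (nat_lit 2) (.cons (.rel (nat_lit 151000080)) .nil)) .nil)) .leaf)))

/-- refutations 74 -/
def e74 : EX := (.node (.node (.node (.node .leaf (nat_lit 15957628495576571) (.br (nat_lit 0) (.cons (.br (nat_lit 1) (.cons (.rel (nat_lit 37765185)) .nil)) .nil)) .leaf) (nat_lit 15962014288732922) (.br (nat_lit 0) (.cons (.br (nat_lit 5) (.cons (.rel (nat_lit 4299163656)) .nil)) .nil)) .leaf) (nat_lit 15962555718105850) (.br (nat_lit 0) (.cons (.br (nat_lit 1) (.cons (.rel (nat_lit 25169952)) .nil)) .nil)) (.node (.node .leaf (nat_lit 15962555718852764) (.br (nat_lit 1) (.cons (.br (nat_lit 3) (.cons (.rel (nat_lit 285216897)) .nil)) .nil)) .leaf) (nat_lit 15962555719170308) (.br (nat_lit 1) (.cons (.br (nat_lit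 5) (.cons (.rel (nat_lit 4311744612)) .nil)) .nil)) .leaf)) (nat_lit 15962555719170723) (.br (nat_lit 0) (.cons (.br (nat_lit 1) (.cons (.rel (nat_lit 21254208)) .nil)) .nil)) (.node (.node (.node .leaf (nat_lit 15962555719171584) (.br (nat_lit 1) (.cons (.br (nat_lit 3) (.cons (.rel (nat_lit 285212694)) .nil)) .nil)) .leaf) (nat_lit 15962555720203002) (.br (nat_lit 1) (.cons (.br (nat_lit 4) (.cons (.rel (nat_lit 1107821568)) .nil)) .nil)) .leaf) (nat_lit 15962556475577247) (.br (nat_lit 0) (.cons (.br (nat_lit 1) (.cons (.rel (nat_lit 21233682)) .nil)) .nil)) (.node (.node .leaf (nat_lit 15964121336834800) (.br (nat_lit 0) (.cons (.br (nat_lit 1) (.cons (.rel (nat_lit 25165893)) .nil)) .nil)) .leaf) (nat_lit 15967085468066668) (.br (nat_lit 1) (.cons (.br (nat_lit 4) (.cons (.rel (nat_lit 1090588800)) .nil)) .nil)) .leaf)))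

/-- refutations 75 -/
def e75 : EX := (.node (.node (.node (.node .leaf (nat_lit 21990284859118329) (.br (nat_lit 1) (.cons (.br (nat_lit 2) (.cons (.rel (nat_lit 167788800)) .nil)) .nil)) .leaf) (nat_lit 21990289468393497) (.br (nat_lit 2) (.cons (.br (nat_lit 3) (.cons (.rel (nat_lit 335548482)) .nil)) .nil)) .leaf) (nat_lit 21990289469682344) (.br (nat_lit 0) (.cons (.br (nat_lit 2) (.cons (.rel (nat_lit 138412041)) .nil)) .nil)) (.node (.node .leaf (nat_lit 21992467030891378) (.br (nat_lit 1) (.cons (.br (nat_lit 2) (.cons (.rel (nat_lit 151000080)) .nil)) .nil)) .leaf) (nat_lit 21992471312707586) (.br (nat_lit 1) (.cons (.br (nat_lit 3) (.cons (.rel (nat_lit 301990161)) .nil)) .nil)) .leaf)) (nat_lit 21992471313068843) (.br (nat_lit 0) (.cons (.br (nat_lit 1) (.cons (.rel (nat_lit 21233682)) .nil)) .nil)) (.node (.node (.node .leaf (nat_lit 21992471313275762) (.br (nat_lit 3) (.cons (.br (nat_lit 6) (.cons (.rel (nat_lit 17448304710)) .nil)) .nil)) .leaf) (nat_lit 21992608750734624)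 (.br (nat_lit 0) (.cons (.br (nat_lit 4) (.cons (.rel (nat_lit 1078022145)) .nil)) .nil)) .leaf) (nat_lit 21992608751723307) (.br (nat_lit 0) (.cons (.br (nat_lit 1) (.cons (.rel (nat_lit 25165893)) .nil)) .nil)) (.node .leaf (nat_lit 21992617341956776) (.br (nat_lit 2) (.cons (.br (nat_lit 4) (.cons (.rel (nat_lit 2281702404)) .nil)) .nil)) .leaf)))

/-- refutations 76 -/
def e76 : EX := (.node (.node (.node (.node .leaf (nat_lit 21996136671842329) (.br (nat_lit 3) (.cons (.br (nat_lit 4) (.cons (.rel (nat_lit 1342182672)) .nil)) .nil)) .leaf) (nat_lit 21996136674324505) (.br (nat_lit 0) (.cons (.br (nat_lit 5) (.cons (.rel (nat_lit 8598323217)) .nil)) .nil)) (.node .leaf (nat_lit 21996677837875450) (.br (nat_lit 0) (.cons (.br (nat_lit 2) (.cons (.rel (nat_lit 71630916)) .nil)) .nil)) .leaf)) (nat_lit 21996677837876511) (.br (nat_lit 0) (.cons (.br (nat_lit 2) (.cons (.rel (nat_lit 71370264)) .nil)) .nil)) (.node (.node .leaf (nat_lit 21996677838964000) (.br (nat_lit 4) (.cons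 (.br (nat_lit 5) (.cons (.rel (nat_lit 5368709520)) .nil)) .nil)) .leaf) (nat_lit 21996677839515909) (.br (nat_lit 3) (.cons (.br (nat_lit 6) (.cons (.rel (nat_lit 17448337536)) .nil)) .nil)) (.node .leaf (nat_lit 21996677839516410) (.br (nat_lit 1) (.cons (.br (nat_lit 3) (.cons (.rel (nat_lit 285216897)) .nil)) .nil)) .leaf))) (nat_lit 21996774870506153) (.br (nat_lit 0) (.cons (.br (nat_lit 1) (.cons (.rel (nat_lit 20972160)) .nil)) .nil)) (.node (.node (.node .leaf (nat_lit 22001187555865888) (.br (nat_lit 0) (.cons (.br (nat_lit 3) (.cons (.rel (nat_lit 272640000)) .nil)) .nil)) .leaf) (nat_lit 22001190095412576) (.br (nat_lit 1) (.cons (.br (nat_lit 3) (.cons (.rel (nat_lit 285214752)) .nil)) .nil)) (.node .leaf (nat_lit 22001190096373148) (.br (nat_lit 0) (.cons (.br (nat_lit 1) (.cons (.rel (nat_lit 20972160)) .nil)) .nil)) .leaf)) (nat_lit 22001190096424985) (.br (nat_lit 0) (.cons (.br (nat_lit 1) (.cons (.rel (nat_lit 22545408)) .nil)) .nil)) (.node (.node .leaf (nat_lit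 22001190096678914) (.br (nat_lit 0) (.cons (.br (nat_lit 2) (.cons (.rel (nat_lit 138412041)) .nil)) .nil)) .leaf) (nat_lit 22002310160090400) (.br (nat_lit 1) (.cons (.br (nat_lit 3) (.cons (.rel (nat_lit 570426384)) .nil)) .nil)) .leaf)))

/-- refutations 77 -/
def e77 : EX := (.node (.node (.node (.node (.node .leaf (nat_lit 22025955292984607) (.br (nat_lit 1) (.cons (.br (nat_lit 2) (.cons (.rel (nat_lit 83919360)) .nil)) .nil)) .leaf) (nat_lit 22026539544333215) (.br (nat_lit 2) (.cons (.br (nat_lit 1) (.cons (.rel (nat_lit 167788800)) (.cons (.rel (nat_lit 167907648)) .nil))) .nil)) .leaf) (nat_lit 22027668017887394) (.br (nat_lit 0) (.cons (.br (nat_lit 1) (.cons (.rel (nat_lit 21233682)) .nil)) .nil)) (.node (.node .leaf (nat_lit 22027793118624029) (.br (nat_lit 0) (.cons (.br (nat_lit 2) (.cons (.rel (nat_lit 71565456)) .nil)) .nil)) .leaf) (nat_lit 22027793118894365) (.br (nat_lit 0) (.cons (.br (nat_lit 1) (.cons (.rel (nat_lit 41943360)) .nil)) .nil)) .leaf)) (nat_lit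 22027793119919630) (.br (nat_lit 0) (.cons (.br (nat_lit 2) (.cons (.rel (nat_lit 71585793)) (.cons (.rel (nat_lit 71585793)) .nil))) .nil)) (.node (.node (.node .leaf (nat_lit 22027793733296778) (.br (nat_lit 0) (.cons (.br (nat_lit 1) (.cons (.rel (nat_lit 25165893)) .nil)) .nil)) .leaf) (nat_lit 22027794150189083) (.br (nat_lit 5) (.cons (.br (nat_lit 2) (.cons (.rel (nat_lit 8724153345)) (.cons (.rel (nat_lit 4362145860)) .nil))) .nil)) .leaf) (nat_lit 22027794150189341) (.br (nat_lit 2) (.cons (.br (nat_lit 5) (.cons (.rel (nat_lit 4362338628)) (.cons (.rel (nat_lit 4362078210)) (.cons (.rel (nat_lit 4362114048)) .nil)))) .nil)) (.node (.node .leaf (nat_lit 22027794150189818) (.br (nat_lit 6) (.cons (.br (nat_lit 0) (.cons (.br (nat_lit 1) (.cons (.rel (nat_lit 25169952)) (.cons (.rel (nat_lit 17213428737)) .nil))) (.cons (.rel (nat_lit 17184393216)) .nil))) .nil)) .leaf) (nat_lit 22027794150190367) (.br (nat_lit 1) (.cons (.br (nat_lit 0) (.cons (.rel (nat_lit 37781508))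 (.cons (.rel (nat_lit 41943360)) (.cons (.rel (nat_lit 21234693)) .nil)))) (.cons (.br (nat_lit 0) (.cons (.rel (nat_lit 20972160)) (.cons (.rel (nat_lit 21234693)) (.cons (.rel (nat_lit 22545408)) .nil)))) .nil))) .leaf))) (nat_lit 22027794150333727) (.br (nat_lit 1) (.cons (.br (nat_lit 4) (.cons (.rel (nat_lit 1090585608)) .nil)) .nil)) (.node (.node (.node (.node .leaf (nat_lit 22027794150422813) (.br (nat_lit 1) (.cons (.br (nat_lit 0) (.cons (.rel (nat_lit 21233682)) (.cons (.rel (nat_lit 41943360)) .nil))) .nil)) .leaf) (nat_lit 22027794151447209) (.br (nat_lit 0) (.cons (.br (nat_lit 1) (.cons (.rel (nat_lit 37819392)) .nil)) .nil)) .leaf) (nat_lit 22027794151447280) (.br (nat_lit 0) (.cons (.br (nat_lit 2) (.cons (.rel (nat_lit 71565456)) .nil)) .nil)) (.node (.node .leaf (nat_lit 22027794151447835) (.br (nat_lit 2) (.cons (.br (nat_lit 0) (.cons (.rel (nat_lit 71303745)) (.cons (.rel (nat_lit 72353040)) .nil))) .nil)) .leaf) (nat_lit 22027794151447964) (.br (nat_lit 2)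 (.cons (.br (nat_lit 3) (.cons (.rel (nat_lit 335553552)) .nil)) .nil)) .leaf)) (nat_lit 22027794151451910) (.br (nat_lit 0) (.cons (.br (nat_lit 1) (.cons (.rel (nat_lit 20972160)) .nil)) .nil)) (.node (.node (.node .leaf (nat_lit 22027794151929119) (.br (nat_lit 1) (.cons (.br (nat_lit 3) (.cons (.rel (nat_lit 285214752)) (.cons (.rel (nat_lit 285348864)) (.cons (.rel (nat_lit 570426384)) (.cons (.rel (nat_lit 285214752)) (.cons (.rel (nat_lit 285214752)) .nil)))))) .nil)) .leaf) (nat_lit 22027794152936061) (.br (nat_lit 3) (.cons (.br (nat_lit 6) (.cons (.rel (nat_lit 17448304710)) .nil)) .nil)) .leaf) (nat_lit 22028037538990861) (.br (nat_lit 0) (.cons (.br (nat_lit 4) (.cons (.rel (nat_lit 1077944385)) .nil)) .nil)) (.node (.node .leaf (nat_lit 22028042647089833) (.br (nat_lit 0) (.cons (.br (nat_lit 5) (.cons (.rel (nat_lit 8598323217)) .nil)) .nil)) .leaf) (nat_lit 22028043200801449) (.br (nat_lit 0) (.cons (.br (nat_lit 2) (.cons (.rel (nat_lit 71599104)) .nil)) .nil))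 .leaf))))

/-- refutations 78 -/
def e78 : EX := (.node (.node (.node (.node .leaf (nat_lit 22031048705129998) (.br (nat_lit 0) (.cons (.br (nat_lit 2) (.cons (.rel (nat_lit 138547200)) (.cons (.rel (nat_lit 71565456)) .nil))) .nil)) .leaf) (nat_lit 22031318474369705) (.br (nat_lit 0) (.cons (.br (nat_lit 2) (.cons (.rel (nat_lit 75499536)) .nil)) .nil)) .leaf) (nat_lit 22031860557278495) (.br (nat_lit 0) (.cons (.br (nat_lit 1) (.cons (.rel (nat_lit 37819392)) (.cons (.rel (nat_lit 21233682)) .nil))) (.cons (.br (nat_lit 1) (.cons (.rel (nat_lit 23068692)) (.cons (.rel (nat_lit 41943360)) .nil))) .nil))) (.node .leaf (nat_lit 22031860557781754) (.br (nat_lit 0) (.cons (.br (nat_lit 1) (.cons (.rel (nat_lit 41943360)) .nil)) .nil)) .leaf)) (nat_lit 22031860559825772) (.br (nat_lit 1) (.cons (.br (nat_lit 3) (.cons (.rel (nat_lit 285214752)) .nil)) .nil)) (.node (.node (.node .leaf (nat_lit 22036165562709228) (.br (nat_lit 2) (.cons (.br (nat_lit 6) (.cons (.rel (nat_lit 17247244320))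 .nil)) .nil)) .leaf) (nat_lit 22036371935358239) (.br (nat_lit 3) (.cons (.br (nat_lit 4) (.cons (.rel (nat_lit 1343311872)) (.cons (.rel (nat_lit 1610616837)) .nil))) .nil)) .leaf) (nat_lit 22036603750036767) (.br (nat_lit 1) (.cons (.br (nat_lit 2) (.cons (.rel (nat_lit 83919360)) .nil)) .nil)) (.node .leaf (nat_lit 22036603750591775) (.br (nat_lit 0) (.cons (.br (nat_lit 1) (.cons (.rel (nat_lit 41943360)) .nil)) .nil)) .leaf)))

/-- refutations 80 -/
def e80 : EX := (.node (.node (.node .leaf (nat_lit 16315704815388947) (.br (nat_lit 3) (.cons (.br (nat_lit 4) (.cons (.rel (nat_lit 2416050177)) .nil)) .nil)) .leaf) (nat_lit 16315704816259347) (.br (nat_lit 1) (.cons (.br (nat_lit 6) (.cons (.rel (nat_lit 17196651024)) .nil)) .nil)) (.node .leaf (nat_lit 16315705634548599) (.br (nat_lit 0) (.cons (.br (nat_lit 2) (.cons (.rel (nat_lit 138428544)) .nil)) .nil)) .leaf)) (nat_lit 16315919564625158) (.br (nat_lit 0) (.cons (.br (nat_lit 2) (.cons (.rel (nat_lit 71303745)) .nil))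 .nil)) (.node (.node .leaf (nat_lit 16318975261111682) (.br (nat_lit 1) (.cons (.br (nat_lit 5) (.cons (.rel (nat_lit 4311749637)) .nil)) .nil)) .leaf) (nat_lit 16320850064109628) (.br (nat_lit 3) (.cons (.br (nat_lit 4) (.cons (.rel (nat_lit 1342177602)) .nil)) .nil)) (.node .leaf (nat_lit 16320852729032218) (.br (nat_lit 0) (.cons (.br (nat_lit 2) (.cons (.rel (nat_lit 71565456)) .nil)) .nil)) .leaf)))

/-- refutations 81 -/
def e81 : EX := (.node (.node (.node (.node (.node .leaf (nat_lit 22080450391727382) (.br (nat_lit 0) (.cons (.br (nat_lit 1) (.cons (.rel (nat_lit 20972160)) .nil)) .nil)) .leaf) (nat_lit 22084000495456941) (.br (nat_lit 0) (.cons (.br (nat_lit 1) (.cons (.rel (nat_lit 25169952)) .nil)) .nil)) (.node .leaf (nat_lit 22084637133396730) (.br (nat_lit 0) (.cons (.br (nat_lit 1) (.cons (.rel (nat_lit 20972160)) .nil)) .nil)) .leaf)) (nat_lit 22084638789195030) (.br (nat_lit 1) (.cons (.br (nat_lit 5) (.cons (.rel (nat_lit 4311744612)) .nil)) .nil)) (.node (.node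 .leaf (nat_lit 22084638790098147) (.br (nat_lit 1) (.cons (.br (nat_lit 5) (.cons (.rel (nat_lit 4312039680)) .nil)) .nil)) .leaf) (nat_lit 22084638790146303) (.br (nat_lit 1) (.cons (.br (nat_lit 5) (.cons (.rel (nat_lit 4311746625)) (.cons (.rel (nat_lit 4311761937)) .nil))) .nil)) (.node .leaf (nat_lit 22084638790146810) (.br (nat_lit 1) (.cons (.br (nat_lit 2) (.cons (.rel (nat_lit 85984257)) .nil)) .nil)) .leaf))) (nat_lit 22084638791490838) (.br (nat_lit 2) (.cons (.br (nat_lit 3) (.cons (.rel (nat_lit 335561793)) .nil)) .nil)) (.node (.node (.node .leaf (nat_lit 22084638791734550) (.br (nat_lit 1) (.cons (.br (nat_lit 2) (.cons (.rel (nat_lit 84152448)) .nil)) .nil)) .leaf) (nat_lit 22084862128446742) (.br (nat_lit 3) (.cons (.br (nat_lit 6) (.cons (.rel (nat_lit 17448306768)) .nil)) .nil)) (.node .leaf (nat_lit 22089403874693375) (.br (nat_lit 0) (.cons (.br (nat_lit 1) (.cons (.rel (nat_lit 25165893)) .nil)) .nil)) .leaf)) (nat_lit 22089403875258674) (.br (nat_lit 2) (.cons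 (.br (nat_lit 4) (.cons (.rel (nat_lit 2281701393)) .nil)) .nil)) (.node (.node .leaf (nat_lit 22089403875259153) (.br (nat_lit 0) (.cons (.br (nat_lit 4) (.cons (.rel (nat_lit 1077936168)) .nil)) .nil)) .leaf) (nat_lit 22089403875957498) (.br (nat_lit 1) (.cons (.br (nat_lit 2) (.cons (.rel (nat_lit 84148245)) .nil)) .nil)) .leaf))) (nat_lit 22089403876007190) (.br (nat_lit 1) (.cons (.br (nat_lit 5) (.cons (.rel (nat_lit 4311746625)) .nil)) .nil)) (.node (.node (.node (.node .leaf (nat_lit 22089403877245108) (.br (nat_lit 4) (.cons (.br (nat_lit 6) (.cons (.rel (nat_lit 18253615176)) .nil)) .nil)) .leaf) (nat_lit 22089403877245190) (.br (nat_lit 0) (.cons (.br (nat_lit 2) (.cons (.rel (nat_lit 71565456)) .nil)) .nil)) (.node .leaf (nat_lit 22089403877550136) (.br (nat_lit 0) (.cons (.br (nat_lit 1) (.cons (.rel (nat_lit 38012160)) .nil)) .nil)) .leaf)) (nat_lit 22089403877551605) (.br (nat_lit 0) (.cons (.br (nat_lit 1) (.cons (.rel (nat_lit 20972160)) .nil)) .nil)) (.node (.node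 .leaf (nat_lit 22089403877760353) (.br (nat_lit 0) (.cons (.br (nat_lit 1) (.cons (.rel (nat_lit 20972160)) .nil)) .nil)) .leaf) (nat_lit 22089403877806140) (.br (nat_lit 6) (.cons (.br (nat_lit 0) (.cons (.rel (nat_lit 17184393216)) (.cons (.rel (nat_lit 34363933761)) .nil))) .nil)) (.node .leaf (nat_lit 22089403877806207) (.br (nat_lit 0) (.cons (.br (nat_lit 2) (.cons (.rel (nat_lit 71599104)) .nil)) .nil)) .leaf))) (nat_lit 22089403877806386) (.br (nat_lit 5) (.cons (.br (nat_lit 6) (.cons (.rel (nat_lit 21474853953)) (.cons (.rel (nat_lit 21474856965)) .nil))) .nil)) (.node (.node (.node .leaf (nat_lit 22089403877806890) (.br (nat_lit 1) (.cons (.br (nat_lit 0) (.cons (.rel (nat_lit 20972160)) (.cons (.rel (nat_lit 20972160)) .nil))) .nil)) .leaf) (nat_lit 22089403877807331) (.br (nat_lit 0) (.cons (.br (nat_lit 4) (.cons (.rel (nat_lit 1077936168)) .nil)) .nil)) (.node .leaf (nat_lit 22089403877807506) (.br (nat_lit 0) (.cons (.br (nat_lit 2) (.cons (.rel (nat_lit 75571200))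 .nil)) .nil)) .leaf)) (nat_lit 22089403877807605) (.br (nat_lit 6) (.cons (.br (nat_lit 2) (.cons (.rel (nat_lit 34426848324)) (.cons (.rel (nat_lit 17247240261)) .nil))) .nil)) (.node (.node .leaf (nat_lit 22089403986594093) (.br (nat_lit 0) (.cons (.br (nat_lit 4) (.cons (.rel (nat_lit 1078071330)) .nil)) .nil)) .leaf) (nat_lit 22089403986910486) (.br (nat_lit 3) (.cons (.br (nat_lit 4) (.cons (.rel (nat_lit 1610613825)) .nil)) .nil)) .leaf))))

/-- refutations 82 -/
def e82 : EX := (.node (.node (.node (.node (.node .leaf (nat_lit 22113684488421552) (.br (nat_lit 1) (.cons (.br (nat_lit 4) (.cons (.rel (nat_lit 1090666560)) .nil)) .nil)) .leaf) (nat_lit 22114893619213589) (.br (nat_lit 0) (.cons (.br (nat_lit 1) (.cons (.rel (nat_lit 25169952)) .nil)) .nil)) .leaf) (nat_lit 22118758537620881) (.br (nat_lit 0) (.cons (.br (nat_lit 4) (.cons (.rel (nat_lit 1077944385)) .nil)) .nil)) (.node (.node .leaf (nat_lit 22118758539339153) (.br (nat_lit 0) (.cons (.br (nat_lit 4) (.cons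 (.rel (nat_lit 1077973008)) .nil)) .nil)) .leaf) (nat_lit 22119823169416469) (.br (nat_lit 6) (.cons (.br (nat_lit 4) (.cons (.rel (nat_lit 18253612164)) (.cons (.rel (nat_lit 18253611153)) .nil))) .nil)) .leaf)) (nat_lit 22119823169568021) (.br (nat_lit 4) (.cons (.br (nat_lit 6) (.cons (.rel (nat_lit 18253621248)) (.cons (.rel (nat_lit 18253743120)) .nil))) .nil)) (.node (.node (.node .leaf (nat_lit 22119823169570069) (.br (nat_lit 6) (.cons (.br (nat_lit 0) (.cons (.rel (nat_lit 34363933761)) (.cons (.rel (nat_lit 34368127248)) .nil))) .nil)) .leaf) (nat_lit 22119823169669400) (.br (nat_lit 6) (.cons (.br (nat_lit 4) (.cons (.rel (nat_lit 18253621248)) (.cons (.rel (nat_lit 18253644801)) .nil))) .nil)) .leaf) (nat_lit 22119823169670396) (.br (nat_lit 6) (.cons (.br (nat_lit 4) (.cons (.rel (nat_lit 18253621248)) (.cons (.rel (nat_lit 18253611153)) .nil))) .nil)) (.node (.node .leaf (nat_lit 22119823169670421) (.br (nat_lit 6) (.cons (.br (nat_lit 4) (.cons (.rel (nat_lit 18253611153))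 (.cons (.rel (nat_lit 18253615176)) .nil))) .nil)) .leaf) (nat_lit 22119823170626837) (.br (nat_lit 6) (.cons (.br (nat_lit 4) (.cons (.rel (nat_lit 18253631490)) (.cons (.rel (nat_lit 36507227136)) (.cons (.rel (nat_lit 18253621248)) (.cons (.rel (nat_lit 18253873440)) (.cons (.rel (nat_lit 18253611153)) .nil)))))) .nil)) .leaf))) (nat_lit 22119823170880789) (.br (nat_lit 4) (.cons (.br (nat_lit 0) (.cons (.rel (nat_lit 1082200320)) (.cons (.rel (nat_lit 2152009728)) (.cons (.rel (nat_lit 1077936168)) .nil)))) .nil)) (.node (.node (.node (.node .leaf (nat_lit 22119823172120633) (.br (nat_lit 0) (.cons (.br (nat_lit 2) (.cons (.rel (nat_lit 75499536)) .nil)) .nil)) .leaf) (nat_lit 22119823172120856) (.br (nat_lit 4) (.cons (.br (nat_lit 6) (.cons (.br (nat_lit 1) (.cons (.rel (nat_lit 34376515728)) (.cons (.rel (nat_lit 17196908676)) (.cons (.rel (nat_lit 2181058560)) (.cons (.rel (nat_lit 17197039632)) (.cons (.rel (nat_lit 17196917760)) .nil)))))) .nil)) .nil)) .leaf) (nat_lit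 22119823172121852) (.br (nat_lit 4) (.cons (.br (nat_lit 6) (.cons (.rel (nat_lit 18253621248)) .nil)) .nil)) (.node (.node .leaf (nat_lit 22119823172121877) (.br (nat_lit 6) (.cons (.br (nat_lit 5) (.cons (.rel (nat_lit 21474836628)) (.cons (.rel (nat_lit 21475885632)) (.cons (.rel (nat_lit 21474836628)) (.cons (.rel (nat_lit 21474840642)) (.cons (.rel (nat_lit 21474902088)) (.cons (.br (nat_lit 4) (.cons (.rel (nat_lit 6442524672)) (.cons (.rel (nat_lit 5369763840)) .nil))) (.cons (.rel (nat_lit 21474869265)) .nil)))))))) .nil)) .leaf) (nat_lit 22119823172476181) (.br (nat_lit 0) (.cons (.br (nat_lit 1) (.cons (.rel (nat_lit 25232400)) (.cons (.rel (nat_lit 25165893)) .nil))) .nil)) .leaf)) (nat_lit 22120917532156666) (.br (nat_lit 0) (.cons (.br (nat_lit 1) (.cons (.rel (nat_lit 21254208)) .nil)) .nil)) (.node (.node (.node .leaf (nat_lit 22120983880633621) (.br (nat_lit 1) (.cons (.br (nat_lit 3) (.cons (.rel (nat_lit 301991172)) .nil)) .nil)) .leaf) (nat_lit 22124172798092565)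 (.br (nat_lit 0) (.cons (.br (nat_lit 2) (.cons (.rel (nat_lit 71599104)) .nil)) .nil)) .leaf) (nat_lit 22124390783198485) (.br (nat_lit 4) (.cons (.br (nat_lit 5) (.cons (.rel (nat_lit 6442453008)) .nil)) .nil)) (.node (.node .leaf (nat_lit 22124390784967418) (.br (nat_lit 4) (.cons (.br (nat_lit 6) (.cons (.rel (nat_lit 19327353348)) .nil)) .nil)) .leaf) (nat_lit 22124390785018643) (.br (nat_lit 0) (.cons (.br (nat_lit 2) (.cons (.rel (nat_lit 71565456)) (.cons (.rel (nat_lit 138428544)) (.cons (.rel (nat_lit 71565456)) (.cons (.rel (nat_lit 71303745)) .nil))))) (.cons (.br (nat_lit 1) (.cons (.rel (nat_lit 25232400)) (.cons (.rel (nat_lit 25169952)) .nil))) .nil))) .leaf))))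

/-- refutations 83 -/
def e83 : EX := (.node (.node (.node (.node .leaf (nat_lit 22554562813827882) (.br (nat_lit 0) (.cons (.br (nat_lit 1) (.cons (.rel (nat_lit 25169952)) .nil)) .nil)) .leaf) (nat_lit 22554562814241578) (.br (nat_lit 0) (.cons (.br (nat_lit 1) (.cons (.rel (nat_lit 20972160)) .nil)) .nil)) (.node .leaf (nat_lit 22554794641909890) (.br (nat_lit 0) (.cons (.br (nat_lit 3) (.cons (.rel (nat_lit 272663553)) .nil)) .nil)) .leaf)) (nat_lit 22554794641910522) (.br (nat_lit 1) (.cons (.br (nat_lit 2) (.cons (.rel (nat_lit 85984257)) .nil)) .nil)) (.node (.node .leaf (nat_lit 22558809044769068) (.br (nat_lit 0) (.cons (.br (nat_lit 1) (.cons (.rel (nat_lit 21233682)) (.cons (.rel (nat_lit 41943360)) .nil))) .nil)) .leaf) (nat_lit 22559625010343967) (.br (nat_lit 1) (.cons (.br (nat_lit 2) (.cons (.rel (nat_lit 84149256)) .nil)) .nil)) (.node .leaf (nat_lit 22559630775085186) (.br (nat_lit 1) (.cons (.br (nat_lit 0) (.cons (.rel (nat_lit 21233682)) (.cons (.rel (nat_lit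 21331968)) .nil))) .nil)) .leaf))) (nat_lit 22559630775086432) (.br (nat_lit 3) (.cons (.br (nat_lit 5) (.cons (.rel (nat_lit 4564451361)) .nil)) .nil)) (.node (.node (.node .leaf (nat_lit 22560784728236914) (.br (nat_lit 0) (.cons (.br (nat_lit 1) (.cons (.rel (nat_lit 37765185)) .nil)) .nil)) .leaf) (nat_lit 22564195540740908) (.br (nat_lit 1) (.cons (.br (nat_lit 6) (.cons (.rel (nat_lit 17197039632)) .nil)) .nil)) (.node .leaf (nat_lit 22564195540884268) (.br (nat_lit 6) (.cons (.br (nat_lit 4) (.cons (.rel (nat_lit 36507227136)) (.cons (.rel (nat_lit 18253621248)) .nil))) .nil)) .leaf)) (nat_lit 22564195540935418) (.br (nat_lit 4) (.cons (.br (nat_lit 6) (.cons (.rel (nat_lit 18253611153)) .nil)) .nil)) (.node (.node .leaf (nat_lit 22564195540935468) (.br (nat_lit 2) (.cons (.br (nat_lit 4) (.cons (.rel (nat_lit 1140850722)) .nil)) .nil)) .leaf) (nat_lit 22564195542229804) (.br (nat_lit 0) (.cons (.br (nat_lit 1) (.cons (.rel (nat_lit 25169952)) .nil)) .nil)) .leaf)))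

/-- refutations 84 -/
def e84 : EX := (.node (.node (.node (.node (.node (.node .leaf (nat_lit 22869893424383239) (.br (nat_lit 0) (.cons (.br (nat_lit 4) (.cons (.rel (nat_lit 1078067268)) .nil)) .nil)) .leaf) (nat_lit 22869894561785916) (.br (nat_lit 0) (.cons (.br (nat_lit 3) (.cons (.rel (nat_lit 272629905)) .nil)) .nil)) (.node .leaf (nat_lit 22869894576516383) (.br (nat_lit 0) (.cons (.br (nat_lit 1) (.cons (.rel (nat_lit 41943360)) .nil)) .nil)) .leaf)) (nat_lit 22869896045604103) (.br (nat_lit 0) (.cons (.br (nat_lit 3) (.cons (.rel (nat_lit 272630916)) .nil)) .nil)) (.node (.node .leaf (nat_lit 22869896045823507) (.br (nat_lit 0) (.cons (.br (nat_lit 1) (.cons (.rel (nat_lit 21331968)) .nil)) .nil)) .leaf) (nat_lit 22869898665448079) (.br (nat_lit 0) (.cons (.br (nat_lit 1) (.cons (.rel (nat_lit 25692672)) .nil)) .nil)) (.node .leaf (nat_lit 22869898665448711) (.br (nat_lit 1) (.cons (.br (nat_lit 2) (.cons (.br (nat_lit 3) (.cons (.rel (nat_lit 606076932)) (.cons (.rel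 (nat_lit 285286416)) .nil))) .nil)) .nil)) .leaf))) (nat_lit 22869898665448735) (.br (nat_lit 0) (.cons (.br (nat_lit 1) (.cons (.rel (nat_lit 25692672)) .nil)) .nil)) (.node (.node (.node .leaf (nat_lit 22869898665455676) (.br (nat_lit 1) (.cons (.br (nat_lit 3) (.cons (.rel (nat_lit 285214752)) .nil)) .nil)) .leaf) (nat_lit 22869898665456252) (.br (nat_lit 1) (.cons (.br (nat_lit 3) (.cons (.rel (nat_lit 570426384)) .nil)) .nil)) (.node .leaf (nat_lit 22869898665497863) (.br (nat_lit 5) (.cons (.br (nat_lit 0) (.cons (.rel (nat_lit 4299162645)) (.cons (.rel (nat_lit 8598324228)) .nil))) .nil)) .leaf)) (nat_lit 22869898665650458) (.br (nat_lit 1) (.cons (.br (nat_lit 3) (.cons (.rel (nat_lit 570426384)) .nil)) .nil)) (.node (.node .leaf (nat_lit 22869898665754138) (.br (nat_lit 3) (.cons (.br (nat_lit 4) (.cons (.rel (nat_lit 1343234112)) .nil)) .nil)) .leaf) (nat_lit 22869898665918725) (.br (nat_lit 3) (.cons (.br (nat_lit 5) (.cons (.rel (nat_lit 4831839300)) .nil)) .nil)) .leaf)))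 (nat_lit 22869898665919264) (.br (nat_lit 2) (.cons (.br (nat_lit 6) (.cons (.rel (nat_lit 34493957376)) .nil)) .nil)) (.node (.node (.node (.node .leaf (nat_lit 22869898666943119) (.br (nat_lit 0) (.cons (.br (nat_lit 3) (.cons (.rel (nat_lit 272633928)) (.cons (.rel (nat_lit 272629905)) (.cons (.rel (nat_lit 545264640)) .nil)))) (.cons (.br (nat_lit 1) (.cons (.rel (nat_lit 21254208)) (.cons (.rel (nat_lit 21254208)) .nil))) .nil))) .leaf) (nat_lit 22869898666943990) (.br (nat_lit 2) (.cons (.br (nat_lit 0) (.cons (.rel (nat_lit 138412041)) (.cons (.rel (nat_lit 71303745)) .nil))) .nil)) (.node .leaf (nat_lit 22869898667043497) (.br (nat_lit 5) (.cons (.br (nat_lit 4) (.cons (.rel (nat_lit 9663692928)) (.cons (.rel (nat_lit 9663692928)) .nil))) .nil)) .leaf)) (nat_lit 22869898667043723) (.br (nat_lit 3) (.cons (.br (nat_lit 5) (.cons (.rel (nat_lit 4563929088)) .nil)) .nil)) (.node (.node .leaf (nat_lit 22869898667044103) (.br (nat_lit 2) (.cons (.br (nat_lit 3) (.cons (.rel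 (nat_lit 335675424)) (.cons (.rel (nat_lit 335675424)) (.cons (.br (nat_lit 0) (.cons (.rel (nat_lit 138428544)) (.cons (.rel (nat_lit 138412041)) (.cons (.rel (nat_lit 71565456)) (.cons (.rel (nat_lit 545264640)) (.cons (.rel (nat_lit 75499536)) .nil)))))) .nil)))) (.cons (.br (nat_lit 0) (.cons (.rel (nat_lit 75499536)) (.cons (.rel (nat_lit 138547200)) (.cons (.rel (nat_lit 138413088)) (.cons (.rel (nat_lit 75571200)) (.cons (.rel (nat_lit 75530304)) .nil)))))) .nil))) .leaf) (nat_lit 22869898667262238) (.br (nat_lit 0) (.cons (.br (nat_lit 1) (.cons (.rel (nat_lit 41943360)) .nil)) .nil)) (.node .leaf (nat_lit 22869898668081413) (.br (nat_lit 1) (.cons (.br (nat_lit 2) (.cons (.rel (nat_lit 100732944)) .nil)) .nil)) .leaf))) (nat_lit 22869898668081808) (.br (nat_lit 1) (.cons (.br (nat_lit 2) (.cons (.rel (nat_lit 84152448)) .nil)) .nil)) (.node (.node (.node .leaf (nat_lit 22869898668234779) (.br (nat_lit 1) (.cons (.br (nat_lit 0) (.cons (.rel (nat_lit 21254208)) (.cons (.rel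 (nat_lit 41943360)) .nil))) .nil)) .leaf) (nat_lit 22869898668542712) (.br (nat_lit 0) (.cons (.br (nat_lit 1) (.cons (.rel (nat_lit 21233682)) .nil)) .nil)) (.node .leaf (nat_lit 22869899206983941) (.br (nat_lit 0) (.cons (.br (nat_lit 2) (.cons (.rel (nat_lit 138428544)) .nil)) .nil)) .leaf)) (nat_lit 22869899319758900) (.br (nat_lit 0) (.cons (.br (nat_lit 3) (.cons (.rel (nat_lit 272761872)) (.cons (.rel (nat_lit 272630916)) .nil))) .nil)) (.node (.node .leaf (nat_lit 22869899319760135) (.br (nat_lit 1) (.cons (.br (nat_lit 4) (.cons (.rel (nat_lit 1090585608)) (.cons (.rel (nat_lit 1090560000)) .nil))) .nil)) .leaf) (nat_lit 22869899319767042) (.br (nat_lit 4) (.cons (.br (nat_lit 6) (.cons (.rel (nat_lit 19327353348)) .nil)) .nil)) .leaf)))) (nat_lit 22869899319767840) (.br (nat_lit 1) (.cons (.br (nat_lit 5) (.cons (.rel (nat_lit 4311746625)) .nil)) .nil)) (.node (.node (.node (.node (.node .leaf (nat_lit 22869899319778065) (.br (nat_lit 4) (.cons (.br (nat_lit 5) (.cons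 (.rel (nat_lit 9663692928)) .nil)) .nil)) .leaf) (nat_lit 22869899319808800) (.br (nat_lit 5) (.cons (.br (nat_lit 0) (.cons (.rel (nat_lit 8598323217)) (.cons (.rel (nat_lit 4299161634)) .nil))) .nil)) (.node .leaf (nat_lit 22869899320065562) (.br (nat_lit 3) (.cons (.br (nat_lit 4) (.cons (.rel (nat_lit 1342245120)) .nil)) .nil)) .leaf)) (nat_lit 22869899320078622) (.br (nat_lit 1) (.cons (.br (nat_lit 0) (.cons (.rel (nat_lit 20972160)) (.cons (.rel (nat_lit 21233682)) .nil))) .nil)) (.node (.node .leaf (nat_lit 22869899320231443) (.br (nat_lit 1) (.cons (.br (nat_lit 3) (.cons (.rel (nat_lit 285212694)) .nil)) .nil)) .leaf) (nat_lit 22869899321088130) (.br (nat_lit 0) (.cons (.br (nat_lit 2) (.cons (.rel (nat_lit 76808193)) .nil)) .nil)) (.node .leaf (nat_lit 22869899321355020) (.br (nat_lit 2) (.cons (.br (nat_lit 4) (.cons (.rel (nat_lit 1142162448)) .nil)) .nil)) .leaf))) (nat_lit 22869899321355167) (.br (nat_lit 0) (.cons (.br (nat_lit 1) (.cons (.rel (nat_lit 20972160))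 .nil)) .nil)) (.node (.node (.node .leaf (nat_lit 22869899321355527) (.br (nat_lit 5) (.cons (.br (nat_lit 3) (.cons (.rel (nat_lit 4563929088)) (.cons (.rel (nat_lit 4564452372)) (.cons (.rel (nat_lit 4831842312)) (.cons (.rel (nat_lit 4563929088)) (.cons (.rel (nat_lit 4563407136)) .nil)))))) (.cons (.br (nat_lit 3) (.cons (.rel (nat_lit 4563419400)) (.cons (.rel (nat_lit 4563419400)) (.cons (.rel (nat_lit 8858378244)) (.cons (.br (nat_lit 1) (.cons (.rel (nat_lit 285286416)) (.cons (.rel (nat_lit 8623554624)) (.cons (.rel (nat_lit 285214752)) (.cons (.rel (nat_lit 4311769152)) .nil))))) (.cons (.rel (nat_lit 4563419400)) .nil)))))) .nil))) .leaf) (nat_lit 22869899321355795) (.br (nat_lit 3) (.cons (.br (nat_lit 4) (.cons (.rel (nat_lit 1342198176)) .nil)) .nil)) (.node .leaf (nat_lit 22869899321573538) (.br (nat_lit 0) (.cons (.br (nat_lit 3) (.cons (.rel (nat_lit 272699424)) (.cons (.rel (nat_lit 272633928)) .nil))) (.cons (.br (nat_lit 3) (.cons (.rel (nat_lit 272629905))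 (.cons (.rel (nat_lit 545264640)) .nil))) .nil))) .leaf)) (nat_lit 22869899321573662) (.br (nat_lit 1) (.cons (.br (nat_lit 5) (.cons (.rel (nat_lit 8607777024)) (.cons (.rel (nat_lit 8623554624)) .nil))) .nil)) (.node (.node .leaf (nat_lit 22869899321574161) (.br (nat_lit 4) (.cons (.br (nat_lit 3) (.cons (.br (nat_lit 5) (.cons (.rel (nat_lit 4563469584)) (.cons (.rel (nat_lit 5369233473)) .nil))) (.cons (.rel (nat_lit 2684616720)) .nil))) .nil)) .leaf) (nat_lit 22869899321574181) (.br (nat_lit 2) (.cons (.br (nat_lit 3) (.cons (.rel (nat_lit 335616000)) .nil)) .nil)) .leaf))) (nat_lit 22869899321574663) (.br (nat_lit 6) (.cons (.br (nat_lit 3) (.cons (.rel (nat_lit 17448337536)) (.cons (.rel (nat_lit 17448304710)) (.cons (.rel (nat_lit 17448337536)) (.cons (.br (nat_lit 5) (.cons (.rel (nat_lit 4563407136)) (.cons (.rel (nat_lit 4563469584)) .nil))) .nil))))) .nil)) (.node (.node (.node (.node .leaf (nat_lit 22869899321574761) (.br (nat_lit 5) (.cons (.br (nat_lit 2) (.cons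 (.rel (nat_lit 4362142848)) (.cons (.rel (nat_lit 4362078210)) .nil))) .nil)) .leaf) (nat_lit 22869899321574931) (.br (nat_lit 3) (.cons (.br (nat_lit 5) (.cons (.rel (nat_lit 4563407136)) (.cons (.rel (nat_lit 4563469584)) (.cons (.rel (nat_lit 8858390544)) .nil)))) (.cons (.br (nat_lit 1) (.cons (.rel (nat_lit 285213705)) (.cons (.rel (nat_lit 285212694)) (.cons (.rel (nat_lit 286524420)) (.cons (.rel (nat_lit 285212694)) (.cons (.rel (nat_lit 553650696)) .nil)))))) .nil))) (.node .leaf (nat_lit 22869899322332537) (.br (nat_lit 1) (.cons (.br (nat_lit 0) (.cons (.rel (nat_lit 25165893)) (.cons (.rel (nat_lit 20972160)) .nil))) .nil)) .leaf)) (nat_lit 22869899322534020) (.br (nat_lit 2) (.cons (.br (nat_lit 4) (.cons (.rel (nat_lit 1140850722)) .nil)) .nil)) (.node (.node .leaf (nat_lit 22869899694648583) (.br (nat_lit 0) (.cons (.br (nat_lit 1) (.cons (.rel (nat_lit 25169952)) .nil)) .nil)) .leaf) (nat_lit 22870958810933929) (.br (nat_lit 6) (.cons (.br (nat_lit 3) (.cons (.rel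 (nat_lit 17448308769)) (.cons (.rel (nat_lit 17448309780)) .nil))) .nil)) .leaf)) (nat_lit 22870961275899143) (.br (nat_lit 4) (.cons (.br (nat_lit 1) (.cons (.rel (nat_lit 1090520148)) (.cons (.rel (nat_lit 1090519137)) .nil))) .nil)) (.node (.node (.node .leaf (nat_lit 22870961277184681) (.br (nat_lit 6) (.cons (.br (nat_lit 3) (.cons (.rel (nat_lit 17448308769)) (.cons (.rel (nat_lit 17448345621)) .nil))) .nil)) .leaf) (nat_lit 22870961277185287) (.br (nat_lit 6) (.cons (.br (nat_lit 1) (.cons (.rel (nat_lit 17213423712)) (.cons (.rel (nat_lit 34376515728)) (.cons (.rel (nat_lit 17196917760)) .nil)))) (.cons (.br (nat_lit 3) (.cons (.rel (nat_lit 17448337536)) (.cons (.br (nat_lit 1) (.cons (.rel (nat_lit 285286416)) (.cons (.rel (nat_lit 285286416)) (.cons (.rel (nat_lit 285216897)) .nil)))) (.cons (.rel (nat_lit 17448321033)) .nil)))) .nil))) (.node .leaf (nat_lit 22870962345144380) (.br (nat_lit 0) (.cons (.br (nat_lit 1) (.cons (.rel (nat_lit 25169952)) (.cons (.rel (nat_lit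 25232400)) .nil))) .nil)) .leaf)) (nat_lit 22872012821123333) (.br (nat_lit 2) (.cons (.br (nat_lit 6) (.cons (.rel (nat_lit 17246980608)) .nil)) .nil)) (.node (.node .leaf (nat_lit 22872012821124359) (.br (nat_lit 0) (.cons (.br (nat_lit 1) (.cons (.rel (nat_lit 25182216)) .nil)) .nil)) .leaf) (nat_lit 22872012822386949) (.br (nat_lit 1) (.cons (.br (nat_lit 3) (.cons (.rel (nat_lit 285214752)) .nil)) .nil)) .leaf)))))

/-- refutations 85 -/
def e85 : EX := (.node (.node (.node (.node (.node (.node .leaf (nat_lit 22872419100060935) (.br (nat_lit 3) (.cons (.br (nat_lit 4) (.cons (.rel (nat_lit 1343227908)) .nil)) .nil)) .leaf) (nat_lit 22872424106688773) (.br (nat_lit 1) (.cons (.br (nat_lit 3) (.cons (.rel (nat_lit 285216897)) .nil)) .nil)) .leaf) (nat_lit 22872424107814151) (.br (nat_lit 5) (.cons (.br (nat_lit 1) (.cons (.rel (nat_lit 4311744612)) (.cons (.rel (nat_lit 4311749637)) .nil))) .nil)) (.node .leaf (nat_lit 22872425342423850) (.br (nat_lit 1) (.cons (.br (nat_lit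 2) (.cons (.rel (nat_lit 167788800)) .nil)) .nil)) .leaf)) (nat_lit 22875313697034501) (.br (nat_lit 0) (.cons (.br (nat_lit 3) (.cons (.rel (nat_lit 272699424)) .nil)) .nil)) (.node (.node (.node .leaf (nat_lit 22875313699248758) (.br (nat_lit 0) (.cons (.br (nat_lit 4) (.cons (.rel (nat_lit 2155872276)) .nil)) .nil)) .leaf) (nat_lit 22875313699249504) (.br (nat_lit 3) (.cons (.br (nat_lit 5) (.cons (.rel (nat_lit 8858378244)) .nil)) .nil)) .leaf) (nat_lit 22875313699249538) (.br (nat_lit 0) (.cons (.br (nat_lit 3) (.cons (.rel (nat_lit 272629905)) .nil)) .nil)) (.node .leaf (nat_lit 22875319570301835) (.br (nat_lit 2) (.cons (.br (nat_lit 3) (.cons (.rel (nat_lit 335553552)) .nil)) .nil)) .leaf))) (nat_lit 22875319571570844) (.br (nat_lit 0) (.cons (.br (nat_lit 2) (.cons (.rel (nat_lit 71599104)) (.cons (.rel (nat_lit 71320068)) .nil))) .nil)) (.node (.node (.node (.node .leaf (nat_lit 22875319571571499) (.br (nat_lit 3) (.cons (.br (nat_lit 4) (.cons (.rel (nat_lit 2415988740))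 .nil)) .nil)) .leaf) (nat_lit 22875468391091063) (.br (nat_lit 0) (.cons (.br (nat_lit 2) (.cons (.rel (nat_lit 139722756)) .nil)) .nil)) .leaf) (nat_lit 22875743404501673) (.br (nat_lit 5) (.cons (.br (nat_lit 1) (.cons (.rel (nat_lit 4311769152)) (.cons (.rel (nat_lit 4311746625)) (.cons (.rel (nat_lit 4311769152)) .nil)))) (.cons (.br (nat_lit 3) (.cons (.rel (nat_lit 4563419400)) (.cons (.rel (nat_lit 4564598784)) (.cons (.rel (nat_lit 4563929088)) .nil)))) .nil))) (.node .leaf (nat_lit 22875743404502279) (.br (nat_lit 5) (.cons (.br (nat_lit 4) (.cons (.rel (nat_lit 9663692928)) (.cons (.rel (nat_lit 9663811584)) .nil))) .nil)) .leaf)) (nat_lit 22876284833341725) (.br (nat_lit 0) (.cons (.br (nat_lit 3) (.cons (.rel (nat_lit 272699424)) .nil)) .nil)) (.node (.node .leaf (nat_lit 22876284834276585) (.br (nat_lit 1) (.cons (.br (nat_lit 5) (.cons (.rel (nat_lit 4311769152)) .nil)) .nil)) .leaf) (nat_lit 22876284834276614) (.br (nat_lit 3) (.cons (.br (nat_lit 5) (.cons (.rel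 (nat_lit 8858452992)) .nil)) .nil)) (.node .leaf (nat_lit 22876284835814927) (.br (nat_lit 1) (.cons (.br (nat_lit 4) (.cons (.rel (nat_lit 1090523160)) .nil)) .nil)) .leaf)))) (nat_lit 22876284836045081) (.br (nat_lit 4) (.cons (.br (nat_lit 5) (.cons (.rel (nat_lit 5369757768)) .nil)) .nil)) (.node (.node (.node (.node (.node .leaf (nat_lit 22876284970328875) (.br (nat_lit 1) (.cons (.br (nat_lit 2) (.cons (.rel (nat_lit 83919360)) (.cons (.rel (nat_lit 167788800)) .nil))) .nil)) .leaf) (nat_lit 22876285490422571) (.br (nat_lit 1) (.cons (.br (nat_lit 0) (.cons (.rel (nat_lit 37819392)) (.cons (.rel (nat_lit 25232400)) .nil))) .nil)) .leaf) (nat_lit 22876287035004167) (.br (nat_lit 0) (.cons (.br (nat_lit 6) (.cons (.rel (nat_lit 17184346272)) (.cons (.rel (nat_lit 17184064032)) .nil))) (.cons (.br (nat_lit 6) (.cons (.rel (nat_lit 34368127248)) (.cons (.rel (nat_lit 34363933761)) .nil))) .nil))) (.node .leaf (nat_lit 22876287035034887) (.br (nat_lit 1) (.cons (.br (nat_lit 3)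 (.cons (.rel (nat_lit 285216897)) (.cons (.rel (nat_lit 285214752)) .nil))) (.cons (.br (nat_lit 3) (.cons (.rel (nat_lit 285230208)) (.cons (.rel (nat_lit 285214752)) .nil))) .nil))) .leaf)) (nat_lit 22876287035054736) (.br (nat_lit 0) (.cons (.br (nat_lit 1) (.cons (.rel (nat_lit 20972160)) .nil)) .nil)) (.node (.node .leaf (nat_lit 22876287035289652) (.br (nat_lit 3) (.cons (.br (nat_lit 6) (.cons (.rel (nat_lit 17448337536)) .nil)) .nil)) .leaf) (nat_lit 22876287035290861) (.br (nat_lit 0) (.cons (.br (nat_lit 5) (.cons (.rel (nat_lit 8598323217)) .nil)) .nil)) (.node .leaf (nat_lit 22876287035291136) (.br (nat_lit 0) (.cons (.br (nat_lit 2) (.cons (.rel (nat_lit 71630916)) .nil)) .nil)) .leaf))) (nat_lit 22876287036336389) (.br (nat_lit 0) (.cons (.br (nat_lit 1) (.cons (.rel (nat_lit 21005856)) .nil)) .nil)) (.node (.node (.node (.node .leaf (nat_lit 22876287036777234) (.br (nat_lit 0) (.cons (.br (nat_lit 2) (.cons (.rel (nat_lit 72353040)) .nil)) .nil)) .leaf) (nat_lit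 22876287036777709) (.br (nat_lit 1) (.cons (.br (nat_lit 6) (.cons (.rel (nat_lit 17196713472)) .nil)) .nil)) .leaf) (nat_lit 22876287036878176) (.br (nat_lit 0) (.cons (.br (nat_lit 1) (.cons (.rel (nat_lit 41943360)) .nil)) .nil)) (.node .leaf (nat_lit 22876287036890375) (.br (nat_lit 1) (.cons (.br (nat_lit 6) (.cons (.rel (nat_lit 17196651024)) .nil)) .nil)) .leaf)) (nat_lit 22876287037567036) (.br (nat_lit 0) (.cons (.br (nat_lit 1) (.cons (.rel (nat_lit 21233682)) .nil)) .nil)) (.node (.node .leaf (nat_lit 22876287037861127) (.br (nat_lit 1) (.cons (.br (nat_lit 6) (.cons (.rel (nat_lit 17196926049)) (.cons (.rel (nat_lit 17196908676)) .nil))) (.cons (.br (nat_lit 6) (.cons (.rel (nat_lit 17196910737)) (.cons (.rel (nat_lit 17213431941)) .nil))) .nil))) .leaf) (nat_lit 22876287582927659) (.br (nat_lit 0) (.cons (.br (nat_lit 1) (.cons (.rel (nat_lit 21234693)) .nil)) .nil)) (.node .leaf (nat_lit 22876290812995066) (.br (nat_lit 1) (.cons (.br (nat_lit 2) (.cons (.rel (nat_lit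 83919360)) .nil)) .nil)) .leaf)))))

/-- refutations 86 -/
def e86 : EX := (.node (.node (.node .leaf (nat_lit 22877627064833287) (.br (nat_lit 3) (.cons (.br (nat_lit 6) (.cons (.rel (nat_lit 17448337536)) .nil)) .nil)) .leaf) (nat_lit 22877629606602932) (.br (nat_lit 1) (.cons (.br (nat_lit 5) (.cons (.rel (nat_lit 4311769152)) (.cons (.rel (nat_lit 4311749637)) .nil))) .nil)) .leaf) (nat_lit 22877630262173852) (.br (nat_lit 0) (.cons (.br (nat_lit 5) (.cons (.rel (nat_lit 8598324228)) .nil)) .nil)) (.node (.node .leaf (nat_lit 22877794050058876) (.br (nat_lit 0) (.cons (.br (nat_lit 1) (.cons (.rel (nat_lit 21254208)) .nil)) .nil)) .leaf) (nat_lit 22877874748713892) (.br (nat_lit 3) (.cons (.br (nat_lit 4) (.cons (.rel (nat_lit 1343234112)) .nil)) .nil)) .leaf))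

/-- refutations 87 -/
def e87 : EX := (.node (.node (.node (.node (.node (.node .leaf (nat_lit 22880794548655337) (.br (nat_lit 1) (.cons (.br (nat_lit 3) (.cons (.rel (nat_lit 553910337)) .nil)) .nil)) .leaf) (nat_lit 22880794549017387) (.br (nat_lit 0) (.cons (.br (nat_lit 2) (.cons (.rel (nat_lit 71565456)) .nil)) .nil)) .leaf) (nat_lit 22880794549937385) (.br (nat_lit 1) (.cons (.br (nat_lit 5) (.cons (.rel (nat_lit 4311769152)) .nil)) .nil)) (.node .leaf (nat_lit 22880794549978638) (.br (nat_lit 1) (.cons (.br (nat_lit 2) (.cons (.rel (nat_lit 85458960)) .nil)) .nil)) .leaf)) (nat_lit 22880794551706350) (.br (nat_lit 2) (.cons (.br (nat_lit 6) (.cons (.rel (nat_lit 34493957376)) (.cons (.rel (nat_lit 34426848324)) .nil))) (.cons (.br (nat_lit 4) (.cons (.rel (nat_lit 1140855936)) (.cons (.rel (nat_lit 2214985728)) (.cons (.rel (nat_lit 1140855936)) .nil)))) .nil))) (.node (.node .leaf (nat_lit 22880794551706976) (.br (nat_lit 6) (.cons (.br (nat_lit 3) (.cons (.rel (nat_lit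 34628436480)) (.cons (.rel (nat_lit 17448337536)) (.cons (.rel (nat_lit 17448306768)) .nil)))) .nil)) .leaf) (nat_lit 22880794551761697) (.br (nat_lit 1) (.cons (.br (nat_lit 2) (.cons (.rel (nat_lit 167788800)) .nil)) .nil)) (.node .leaf (nat_lit 22880794596639495) (.br (nat_lit 1) (.cons (.br (nat_lit 3) (.cons (.rel (nat_lit 553910337)) .nil)) .nil)) .leaf))) (nat_lit 22880795206083371) (.br (nat_lit 0) (.cons (.br (nat_lit 1) (.cons (.rel (nat_lit 20972160)) .nil)) .nil)) (.node (.node (.node .leaf (nat_lit 22880796750695687) (.br (nat_lit 5) (.cons (.br (nat_lit 3) (.cons (.rel (nat_lit 4831838289)) (.cons (.rel (nat_lit 4831839300)) (.cons (.rel (nat_lit 4831839300)) .nil)))) .nil)) .leaf) (nat_lit 22880796750697103) (.br (nat_lit 1) (.cons (.br (nat_lit 2) (.cons (.rel (nat_lit 84152448)) (.cons (.rel (nat_lit 167788800)) (.cons (.rel (nat_lit 85458960)) .nil)))) .nil)) (.node .leaf (nat_lit 22880796750697735) (.br (nat_lit 1) (.cons (.br (nat_lit 3) (.cons (.rel (nat_lit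 285230208)) (.cons (.rel (nat_lit 285214752)) .nil))) .nil)) .leaf)) (nat_lit 22880796750715665) (.br (nat_lit 1) (.cons (.br (nat_lit 3) (.cons (.rel (nat_lit 285310980)) .nil)) .nil)) (.node (.node .leaf (nat_lit 22880796750951055) (.br (nat_lit 6) (.cons (.br (nat_lit 3) (.cons (.rel (nat_lit 17448304710)) (.cons (.rel (nat_lit 17448321033)) .nil))) .nil)) .leaf) (nat_lit 22880796751025415) (.br (nat_lit 1) (.cons (.br (nat_lit 3) (.cons (.rel (nat_lit 285213705)) .nil)) .nil)) (.node .leaf (nat_lit 22880796751938166) (.br (nat_lit 0) (.cons (.br (nat_lit 1) (.cons (.rel (nat_lit 20972160)) .nil)) .nil)) .leaf)))) (nat_lit 22880796752292521) (.br (nat_lit 3) (.cons (.br (nat_lit 4) (.cons (.rel (nat_lit 2415923280)) (.cons (.rel (nat_lit 1343234112)) .nil))) (.cons (.br (nat_lit 4) (.cons (.rel (nat_lit 1342701600)) (.cons (.rel (nat_lit 1343311872)) .nil))) .nil))) (.node (.node (.node (.node (.node .leaf (nat_lit 22880796752293127) (.br (nat_lit 3) (.cons (.br (nat_lit 5)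 (.cons (.rel (nat_lit 4563407136)) (.cons (.rel (nat_lit 4563407136)) (.cons (.rel (nat_lit 4564521024)) .nil)))) (.cons (.br (nat_lit 5) (.cons (.rel (nat_lit 4563407136)) (.cons (.rel (nat_lit 4563407136)) (.cons (.rel (nat_lit 4831839300)) .nil)))) (.cons (.br (nat_lit 5) (.cons (.rel (nat_lit 4563403077)) (.cons (.rel (nat_lit 4563929088)) (.cons (.rel (nat_lit 4564713792)) .nil)))) .nil)))) .leaf) (nat_lit 22880796752538887) (.br (nat_lit 1) (.cons (.br (nat_lit 6) (.cons (.rel (nat_lit 34376515728)) (.cons (.rel (nat_lit 17213423712)) (.cons (.rel (nat_lit 17198760000)) .nil)))) (.cons (.br (nat_lit 6) (.cons (.rel (nat_lit 17197039632)) (.cons (.rel (nat_lit 17196917760)) (.cons (.rel (nat_lit 34393297221)) .nil)))) .nil))) .leaf) (nat_lit 22880796752538976) (.br (nat_lit 0) (.cons (.br (nat_lit 1) (.cons (.rel (nat_lit 41943360)) .nil)) .nil)) (.node .leaf (nat_lit 22880796753229063) (.br (nat_lit 0) (.cons (.br (nat_lit 1) (.cons (.rel (nat_lit 41943360)) (.cons (.rel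 (nat_lit 25169952)) .nil))) (.cons (.br (nat_lit 1) (.cons (.rel (nat_lit 21254208)) (.cons (.rel (nat_lit 25307136)) .nil))) .nil))) .leaf)) (nat_lit 22880796753326735) (.br (nat_lit 1) (.cons (.br (nat_lit 6) (.cons (.rel (nat_lit 34376515728)) .nil)) .nil)) (.node (.node .leaf (nat_lit 22880796753482029) (.br (nat_lit 0) (.cons (.br (nat_lit 1) (.cons (.rel (nat_lit 25182216)) .nil)) .nil)) .leaf) (nat_lit 22880796906215551) (.br (nat_lit 0) (.cons (.br (nat_lit 4) (.cons (.rel (nat_lit 2155872276)) .nil)) .nil)) (.node .leaf (nat_lit 22881885207734953) (.br (nat_lit 5) (.cons (.br (nat_lit 6) (.cons (.br (nat_lit 4) (.cons (.rel (nat_lit 18254676480)) (.cons (.rel (nat_lit 9663692928)) (.cons (.rel (nat_lit 35433480456)) (.cons (.rel (nat_lit 19327353348)) (.cons (.rel (nat_lit 9663692928)) .nil)))))) .nil)) .nil)) .leaf))) (nat_lit 22881885207735559) (.br (nat_lit 6) (.cons (.br (nat_lit 2) (.cons (.rel (nat_lit 34493957376)) (.cons (.rel (nat_lit 17247244320)) .nil))) .nil))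 (.node (.node (.node .leaf (nat_lit 22881890215733929) (.br (nat_lit 3) (.cons (.br (nat_lit 6) (.cons (.rel (nat_lit 17448337536)) .nil)) .nil)) .leaf) (nat_lit 22881890215734535) (.br (nat_lit 2) (.cons (.br (nat_lit 6) (.cons (.rel (nat_lit 34493957376)) (.cons (.rel (nat_lit 34493957376)) (.cons (.rel (nat_lit 17314107408)) .nil)))) (.cons (.br (nat_lit 6) (.cons (.rel (nat_lit 17247244320)) (.cons (.rel (nat_lit 17247244320)) (.cons (.rel (nat_lit 17314095108)) .nil)))) .nil))) (.node .leaf (nat_lit 22882832567765803) (.br (nat_lit 0) (.cons (.br (nat_lit 1) (.cons (.rel (nat_lit 20972160)) .nil)) .nil)) .leaf)) (nat_lit 22882835108438068) (.br (nat_lit 0) (.cons (.br (nat_lit 2) (.cons (.rel (nat_lit 71585793)) .nil)) .nil)) (.node (.node .leaf (nat_lit 22882955367623337) (.br (nat_lit 2) (.cons (.br (nat_lit 3) (.cons (.rel (nat_lit 335577105)) .nil)) .nil)) .leaf) (nat_lit 22882955367623943) (.br (nat_lit 5) (.cons (.br (nat_lit 1) (.cons (.rel (nat_lit 4311744612)) (.cons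 (.rel (nat_lit 4311875712)) (.cons (.rel (nat_lit 4311749637)) .nil)))) (.cons (.br (nat_lit 4) (.cons (.rel (nat_lit 5368709520)) (.cons (.rel (nat_lit 9663692928)) (.cons (.rel (nat_lit 9663692928)) (.cons (.rel (nat_lit 5368774980)) .nil))))) .nil))) (.node .leaf (nat_lit 22883047315401991) (.br (nat_lit 1) (.cons (.br (nat_lit 6) (.cons (.rel (nat_lit 17197039632)) .nil)) .nil)) .leaf)))))

/-- refutations 88 -/
def e88 : EX := (.node (.node (.node (.node (.node (.node .leaf (nat_lit 22993039224072954) (.br (nat_lit 0) (.cons (.br (nat_lit 1) (.cons (.rel (nat_lit 20972160)) .nil)) .nil)) .leaf) (nat_lit 22993043970587560) (.br (nat_lit 0) (.cons (.br (nat_lit 2) (.cons (.rel (nat_lit 138413088)) .nil)) .nil)) .leaf) (nat_lit 22993044575955000) (.br (nat_lit 1) (.cons (.br (nat_lit 6) (.cons (.rel (nat_lit 34376549376)) .nil)) .nil)) (.node .leaf (nat_lit 22993044579003168) (.br (nat_lit 0) (.cons (.br (nat_lit 2) (.cons (.rel (nat_lit 75571200)) .nil)) .nil)) .leaf)) (nat_lit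 22994286997482748) (.br (nat_lit 1) (.cons (.br (nat_lit 2) (.cons (.rel (nat_lit 84152448)) .nil)) .nil)) (.node (.node .leaf (nat_lit 22994286997732604) (.br (nat_lit 0) (.cons (.br (nat_lit 1) (.cons (.rel (nat_lit 21250197)) .nil)) .nil)) .leaf) (nat_lit 22994286999012604) (.br (nat_lit 2) (.cons (.br (nat_lit 5) (.cons (.rel (nat_lit 4362077208)) .nil)) .nil)) (.node .leaf (nat_lit 22998573795507552) (.br (nat_lit 0) (.cons (.br (nat_lit 1) (.cons (.rel (nat_lit 25182216)) .nil)) .nil)) .leaf))) (nat_lit 22999429843069233) (.br (nat_lit 1) (.cons (.br (nat_lit 3) (.cons (.rel (nat_lit 285245520)) .nil)) .nil)) (.node (.node (.node (.node .leaf (nat_lit 22999429844625468) (.br (nat_lit 0) (.cons (.br (nat_lit 1) (.cons (.rel (nat_lit 22545408)) .nil)) .nil)) .leaf) (nat_lit 22999429844767025) (.br (nat_lit 0) (.cons (.br (nat_lit 1) (.cons (.rel (nat_lit 41943360)) .nil)) .nil)) .leaf) (nat_lit 22999429844808482) (.br (nat_lit 1) (.cons (.br (nat_lit 4) (.cons (.rel (nat_lit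 1090588800)) .nil)) .nil)) (.node .leaf (nat_lit 22999430809496352) (.br (nat_lit 1) (.cons (.br (nat_lit 2) (.cons (.rel (nat_lit 151000080)) .nil)) .nil)) .leaf)) (nat_lit 22999432366727930) (.br (nat_lit 3) (.cons (.br (nat_lit 5) (.cons (.rel (nat_lit 8858378244)) .nil)) .nil)) (.node (.node .leaf (nat_lit 22999432366930707) (.br (nat_lit 0) (.cons (.br (nat_lit 1) (.cons (.rel (nat_lit 21233682)) .nil)) .nil)) .leaf) (nat_lit 22999432366931171) (.br (nat_lit 0) (.cons (.br (nat_lit 6) (.cons (.rel (nat_lit 17184393216)) .nil)) .nil)) (.node .leaf (nat_lit 22999432366931221) (.br (nat_lit 2) (.cons (.br (nat_lit 6) (.cons (.rel (nat_lit 34426848324)) .nil)) .nil)) .leaf)))) (nat_lit 22999432366981425) (.br (nat_lit 0) (.cons (.br (nat_lit 6) (.cons (.br (nat_lit 4) (.cons (.rel (nat_lit 18253621248)) (.cons (.rel (nat_lit 1078067268)) .nil))) .nil)) .nil)) (.node (.node (.node (.node (.node .leaf (nat_lit 22999432366982396) (.br (nat_lit 0) (.cons (.br (nat_lit 6) (.cons (.br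 (nat_lit 3) (.cons (.rel (nat_lit 17448306768)) (.cons (.rel (nat_lit 17448322080)) (.cons (.rel (nat_lit 17448309780)) .nil)))) (.cons (.rel (nat_lit 17184393216)) .nil))) (.cons (.br (nat_lit 6) (.cons (.rel (nat_lit 17184393216)) (.cons (.rel (nat_lit 17184330768)) .nil))) .nil))) .leaf) (nat_lit 22999432367033596) (.br (nat_lit 4) (.cons (.br (nat_lit 1) (.cons (.rel (nat_lit 2181058560)) (.cons (.rel (nat_lit 1090560000)) .nil))) .nil)) .leaf) (nat_lit 22999432367934716) (.br (nat_lit 0) (.cons (.br (nat_lit 3) (.cons (.rel (nat_lit 272633928)) .nil)) .nil)) (.node .leaf (nat_lit 22999432367985451) (.br (nat_lit 2) (.cons (.br (nat_lit 3) (.cons (.rel (nat_lit 335808768)) .nil)) .nil)) .leaf)) (nat_lit 22999432368040698) (.br (nat_lit 0) (.cons (.br (nat_lit 3) (.cons (.rel (nat_lit 272699424)) (.cons (.rel (nat_lit 272650242)) .nil))) .nil)) (.node (.node .leaf (nat_lit 22999432368040723) (.br (nat_lit 1) (.cons (.br (nat_lit 3) (.cons (.rel (nat_lit 285286416)) .nil)) .nil))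 .leaf) (nat_lit 22999432368041212) (.br (nat_lit 5) (.cons (.br (nat_lit 6) (.cons (.rel (nat_lit 21474853953)) (.cons (.rel (nat_lit 21474908160)) (.cons (.rel (nat_lit 21474902088)) .nil)))) (.cons (.br (nat_lit 6) (.cons (.rel (nat_lit 38654705922)) (.cons (.rel (nat_lit 21474853953)) (.cons (.rel (nat_lit 21474908160)) .nil)))) (.cons (.br (nat_lit 3) (.cons (.rel (nat_lit 8858378244)) (.cons (.rel (nat_lit 4563407136)) (.cons (.rel (nat_lit 8858375232)) (.cons (.rel (nat_lit 8858632449)) .nil))))) .nil)))) (.node .leaf (nat_lit 22999432368295164) (.br (nat_lit 0) (.cons (.br (nat_lit 2) (.cons (.rel (nat_lit 72353040)) (.cons (.rel (nat_lit 75571200)) .nil))) .nil)) .leaf))) (nat_lit 22999432368303356) (.br (nat_lit 1) (.cons (.br (nat_lit 4) (.cons (.rel (nat_lit 1090524162)) (.cons (.rel (nat_lit 2181058560)) .nil))) .nil)) (.node (.node (.node .leaf (nat_lit 22999432368445745) (.br (nat_lit 2) (.cons (.br (nat_lit 4) (.cons (.rel (nat_lit 2214597120)) .nil)) .nil)) .leaf)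 (nat_lit 22999432368446716) (.br (nat_lit 4) (.cons (.br (nat_lit 0) (.cons (.rel (nat_lit 1077936168)) (.cons (.rel (nat_lit 1082393088)) (.cons (.rel (nat_lit 1077936168)) .nil)))) .nil)) (.node .leaf (nat_lit 22999432369224956) (.br (nat_lit 4) (.cons (.br (nat_lit 5) (.cons (.rel (nat_lit 5368709520)) (.cons (.rel (nat_lit 5368709520)) .nil))) .nil)) .leaf)) (nat_lit 22999432369485052) (.br (nat_lit 4) (.cons (.br (nat_lit 6) (.cons (.rel (nat_lit 18253621248)) (.cons (.rel (nat_lit 18253615176)) .nil))) .nil)) (.node (.node .leaf (nat_lit 22999432369535281) (.br (nat_lit 0) (.cons (.br (nat_lit 4) (.cons (.rel (nat_lit 1077936168)) .nil)) .nil)) .leaf) (nat_lit 22999432369536227) (.br (nat_lit 6) (.cons (.br (nat_lit 0) (.cons (.rel (nat_lit 17184393216)) (.cons (.rel (nat_lit 34368127248)) .nil))) .nil)) (.node .leaf (nat_lit 22999432369596468) (.br (nat_lit 0) (.cons (.br (nat_lit 2) (.cons (.rel (nat_lit 71565456)) .nil)) .nil)) .leaf)))))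

/-- refutations 89 -/
def e89 : EX := (.node (.node (.node (.node (.node (.node .leaf (nat_lit 23000736026633468) (.br (nat_lit 0) (.cons (.br (nat_lit 2) (.cons (.rel (nat_lit 71565456)) .nil)) .nil)) .leaf) (nat_lit 23000738679059087) (.br (nat_lit 1) (.cons (.br (nat_lit 0) (.cons (.rel (nat_lit 25232400)) (.cons (.rel (nat_lit 25169952)) .nil))) .nil)) .leaf) (nat_lit 23003999563938097) (.br (nat_lit 0) (.cons (.br (nat_lit 5) (.cons (.rel (nat_lit 8598323217)) .nil)) .nil)) (.node (.node .leaf (nat_lit 23003999980612346) (.br (nat_lit 0) (.cons (.br (nat_lit 4) (.cons (.rel (nat_lit 1077937170)) .nil)) .nil)) .leaf) (nat_lit 23003999980612860) (.br (nat_lit 4) (.cons (.br (nat_lit 0) (.cons (.br (nat_lit 5) (.cons (.rel (nat_lit 4299162645)) (.cons (.rel (nat_lit 4299424065)) .nil))) (.cons (.rel (nat_lit 2152202496)) .nil))) .nil)) .leaf)) (nat_lit 23003999980814598) (.br (nat_lit 1) (.cons (.br (nat_lit 4) (.cons (.rel (nat_lit 1090560000)) .nil)) .nil)) (.node (.node (.node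 .leaf (nat_lit 23003999980814641) (.br (nat_lit 1) (.cons (.br (nat_lit 4) (.cons (.rel (nat_lit 1090588800)) (.cons (.br (nat_lit 6) (.cons (.rel (nat_lit 17196917760)) (.cons (.rel (nat_lit 18255775104)) .nil))) .nil))) .nil)) .leaf) (nat_lit 23003999980815098) (.br (nat_lit 4) (.cons (.br (nat_lit 6) (.cons (.rel (nat_lit 18253612164)) (.cons (.rel (nat_lit 18253621248)) .nil))) (.cons (.br (nat_lit 6) (.cons (.rel (nat_lit 18253621248)) (.cons (.rel (nat_lit 36507227136)) .nil))) .nil))) .leaf) (nat_lit 23003999980815612) (.br (nat_lit 0) (.cons (.br (nat_lit 1) (.cons (.rel (nat_lit 25165893)) (.cons (.rel (nat_lit 21234693)) .nil))) .nil)) (.node (.node .leaf (nat_lit 23003999981106707) (.br (nat_lit 0) (.cons (.br (nat_lit 6) (.cons (.rel (nat_lit 34363936773)) .nil)) .nil)) .leaf) (nat_lit 23003999981781267) (.br (nat_lit 1) (.cons (.br (nat_lit 5) (.cons (.rel (nat_lit 4311749637)) (.cons (.rel (nat_lit 4311744612)) .nil))) .nil)) .leaf))) (nat_lit 23003999981782253) (.br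 (nat_lit 1) (.cons (.br (nat_lit 2) (.cons (.rel (nat_lit 100663425)) .nil)) .nil)) (.node (.node (.node (.node .leaf (nat_lit 23003999982278961) (.br (nat_lit 0) (.cons (.br (nat_lit 2) (.cons (.rel (nat_lit 71303745)) .nil)) .nil)) .leaf) (nat_lit 23003999982279932) (.br (nat_lit 2) (.cons (.br (nat_lit 0) (.cons (.rel (nat_lit 72353040)) (.cons (.rel (nat_lit 75499536)) .nil))) .nil)) .leaf) (nat_lit 23003999982381336) (.br (nat_lit 0) (.cons (.br (nat_lit 1) (.cons (.rel (nat_lit 21233682)) (.cons (.rel (nat_lit 41943360)) .nil))) .nil)) (.node (.node .leaf (nat_lit 23003999982381817) (.br (nat_lit 3) (.cons (.br (nat_lit 5) (.cons (.rel (nat_lit 4563407136)) .nil)) .nil)) .leaf) (nat_lit 23003999982381818) (.br (nat_lit 4) (.cons (.br (nat_lit 1) (.cons (.rel (nat_lit 1090588800)) (.cons (.rel (nat_lit 2181058560)) .nil))) .nil)) .leaf)) (nat_lit 23003999982381843) (.br (nat_lit 4) (.cons (.br (nat_lit 1) (.cons (.br (nat_lit 6) (.cons (.rel (nat_lit 17196917760)) (.cons (.rel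 (nat_lit 19327619073)) (.cons (.rel (nat_lit 17213423712)) .nil)))) (.cons (.br (nat_lit 6) (.cons (.rel (nat_lit 17213423712)) (.cons (.rel (nat_lit 19327619073)) (.cons (.rel (nat_lit 35467034625)) .nil)))) (.cons (.rel (nat_lit 1090524162)) .nil)))) (.cons (.br (nat_lit 1) (.cons (.rel (nat_lit 1090523160)) (.cons (.rel (nat_lit 1090523160)) (.cons (.rel (nat_lit 1107821568)) .nil)))) .nil))) (.node (.node (.node .leaf (nat_lit 23003999983409427) (.br (nat_lit 4) (.cons (.br (nat_lit 6) (.cons (.rel (nat_lit 18253680672)) .nil)) .nil)) .leaf) (nat_lit 23003999983571075) (.br (nat_lit 0) (.cons (.br (nat_lit 4) (.cons (.rel (nat_lit 1077936168)) .nil)) .nil)) .leaf) (nat_lit 23003999983571100) (.br (nat_lit 4) (.cons (.br (nat_lit 5) (.cons (.rel (nat_lit 5369823264)) .nil)) .nil)) (.node .leaf (nat_lit 23003999983571706) (.br (nat_lit 4) (.cons (.br (nat_lit 1) (.cons (.br (nat_lit 5) (.cons (.br (nat_lit 6) (.cons (.rel (nat_lit 18253612164)) (.cons (.rel (nat_lit 36507227136))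 (.cons (.rel (nat_lit 42949738512)) (.cons (.rel (nat_lit 18253612164)) .nil))))) (.cons (.rel (nat_lit 5369763840)) (.cons (.rel (nat_lit 8606973984)) .nil)))) (.cons (.rel (nat_lit 1107362064)) (.cons (.rel (nat_lit 1090520148)) (.cons (.rel (nat_lit 1090520148)) .nil))))) (.cons (.br (nat_lit 5) (.cons (.rel (nat_lit 5369774082)) (.cons (.rel (nat_lit 5368729857)) (.cons (.rel (nat_lit 5369763840)) .nil)))) (.cons (.br (nat_lit 1) (.cons (.rel (nat_lit 1090588800)) (.cons (.rel (nat_lit 1090537473)) (.cons (.br (nat_lit 6) (.cons (.rel (nat_lit 18253621248)) (.cons (.rel (nat_lit 18253612164)) (.cons (.rel (nat_lit 18253612164)) (.cons (.rel (nat_lit 17196917760)) .nil))))) (.cons (.rel (nat_lit 2181058560)) .nil))))) .nil)))) .leaf)))) (nat_lit 23003999983572220) (.br (nat_lit 6) (.cons (.br (nat_lit 4) (.cons (.rel (nat_lit 36507227136)) (.cons (.rel (nat_lit 18253621248)) .nil))) .nil)) (.node (.node (.node (.node (.node .leaf (nat_lit 23003999983573267) (.br (nat_lit 1)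 (.cons (.br (nat_lit 5) (.cons (.rel (nat_lit 4329571329)) (.cons (.rel (nat_lit 4311746625)) .nil))) (.cons (.br (nat_lit 5) (.cons (.rel (nat_lit 4311811074)) (.cons (.rel (nat_lit 4311769152)) .nil))) .nil))) .leaf) (nat_lit 23003999983574543) (.br (nat_lit 0) (.cons (.br (nat_lit 2) (.cons (.rel (nat_lit 73404480)) .nil)) .nil)) .leaf) (nat_lit 23003999983610656) (.br (nat_lit 2) (.cons (.br (nat_lit 4) (.cons (.rel (nat_lit 2214597120)) .nil)) .nil)) (.node (.node .leaf (nat_lit 23003999983621372) (.br (nat_lit 0) (.cons (.br (nat_lit 3) (.cons (.rel (nat_lit 272699424)) .nil)) .nil)) .leaf) (nat_lit 23003999983674131) (.br (nat_lit 4) (.cons (.br (nat_lit 2) (.cons (.rel (nat_lit 1207968000)) (.cons (.rel (nat_lit 2281702404)) .nil))) .nil)) .leaf)) (nat_lit 23003999983683740) (.br (nat_lit 0) (.cons (.br (nat_lit 4) (.cons (.rel (nat_lit 1077936168)) .nil)) .nil)) (.node (.node (.node .leaf (nat_lit 23003999983684366) (.br (nat_lit 1) (.cons (.br (nat_lit 0) (.cons (.rel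 (nat_lit 41943360)) (.cons (.rel (nat_lit 25169952)) .nil))) .nil)) .leaf) (nat_lit 23003999983685139) (.br (nat_lit 1) (.cons (.br (nat_lit 5) (.cons (.rel (nat_lit 4311744612)) .nil)) .nil)) .leaf) (nat_lit 23004005332544764) (.br (nat_lit 2) (.cons (.br (nat_lit 3) (.cons (.rel (nat_lit 335548482)) .nil)) .nil)) (.node (.node .leaf (nat_lit 23004005332746545) (.br (nat_lit 3) (.cons (.br (nat_lit 4) (.cons (.rel (nat_lit 2416050177)) .nil)) .nil)) .leaf) (nat_lit 23004005333805361) (.br (nat_lit 1) (.cons (.br (nat_lit 3) (.cons (.rel (nat_lit 285541632)) .nil)) .nil)) .leaf))) (nat_lit 23004005333806332) (.br (nat_lit 4) (.cons (.br (nat_lit 2) (.cons (.rel (nat_lit 2281701393)) (.cons (.rel (nat_lit 1140998145)) .nil))) .nil)) (.node (.node (.node (.node .leaf (nat_lit 23004005334313747) (.br (nat_lit 1) (.cons (.br (nat_lit 3) (.cons (.rel (nat_lit 285294657)) .nil)) .nil)) .leaf) (nat_lit 23004005957728531) (.br (nat_lit 1) (.cons (.br (nat_lit 4) (.cons (.rel (nat_lit 1090519137))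 .nil)) .nil)) .leaf) (nat_lit 23004005957742878) (.br (nat_lit 0) (.cons (.br (nat_lit 2) (.cons (.rel (nat_lit 71303745)) .nil)) .nil)) (.node (.node .leaf (nat_lit 23004005958766722) (.br (nat_lit 1) (.cons (.br (nat_lit 3) (.cons (.rel (nat_lit 285230208)) .nil)) .nil)) .leaf) (nat_lit 23004005958767247) (.br (nat_lit 1) (.cons (.br (nat_lit 6) (.cons (.rel (nat_lit 17196651024)) .nil)) .nil)) .leaf)) (nat_lit 23004858975841018) (.br (nat_lit 1) (.cons (.br (nat_lit 4) (.cons (.rel (nat_lit 1090523160)) .nil)) .nil)) (.node (.node (.node .leaf (nat_lit 23004861206703356) (.br (nat_lit 4) (.cons (.br (nat_lit 5) (.cons (.rel (nat_lit 5368774980)) (.cons (.rel (nat_lit 5368973832)) (.cons (.rel (nat_lit 5368729857)) .nil)))) .nil)) .leaf) (nat_lit 23006362946628860) (.br (nat_lit 0) (.cons (.br (nat_lit 3) (.cons (.rel (nat_lit 272650242)) .nil)) .nil)) .leaf) (nat_lit 23006362949334268) (.br (nat_lit 0) (.cons (.br (nat_lit 1) (.cons (.rel (nat_lit 21233682)) .nil)) .nil)) (.node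 .leaf (nat_lit 23006362949681282) (.br (nat_lit 0) (.cons (.br (nat_lit 1) (.cons (.rel (nat_lit 22545408)) .nil)) .nil)) .leaf)))))

/-- refutations 90 -/
def e90 : EX := (.node (.node (.node (.node .leaf (nat_lit 22626171707518978) (.br (nat_lit 0) (.cons (.br (nat_lit 2) (.cons (.rel (nat_lit 75497478)) .nil)) .nil)) .leaf) (nat_lit 22626171708741782) (.br (nat_lit 0) (.cons (.br (nat_lit 1) (.cons (.rel (nat_lit 37781508)) .nil)) .nil)) .leaf) (nat_lit 22630226157869331) (.br (nat_lit 0) (.cons (.br (nat_lit 2) (.cons (.rel (nat_lit 71570529)) .nil)) .nil)) (.node (.node .leaf (nat_lit 22630228514102499) (.br (nat_lit 0) (.cons (.br (nat_lit 2) (.cons (.rel (nat_lit 75571200)) .nil)) .nil)) .leaf) (nat_lit 22631119512980093) (.br (nat_lit 1) (.cons (.br (nat_lit 6) (.cons (.rel (nat_lit 17196941313)) .nil)) .nil)) .leaf)) (nat_lit 22631119512980861) (.br (nat_lit 1) (.cons (.br (nat_lit 2) (.cons (.rel (nat_lit 150995010)) .nil)) .nil)) (.node (.node (.node .leaf (nat_lit 22634386045014798)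 (.br (nat_lit 0) (.cons (.br (nat_lit 2) (.cons (.rel (nat_lit 75530304)) .nil)) .nil)) .leaf) (nat_lit 22634389606287635) (.br (nat_lit 1) (.cons (.br (nat_lit 2) (.cons (.rel (nat_lit 151062528)) .nil)) .nil)) .leaf) (nat_lit 22636445838135451) (.br (nat_lit 0) (.cons (.br (nat_lit 1) (.cons (.rel (nat_lit 25169952)) .nil)) .nil)) (.node .leaf (nat_lit 22636450536278798) (.br (nat_lit 1) (.cons (.br (nat_lit 4) (.cons (.rel (nat_lit 1090781568)) (.cons (.rel (nat_lit 1090560000)) .nil))) .nil)) .leaf)))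

/-- refutations 91 -/
def e91 : EX := (.node (.node (.node (.node (.node (.node .leaf (nat_lit 24752486021313914) (.br (nat_lit 0) (.cons (.br (nat_lit 2) (.cons (.rel (nat_lit 138413088)) .nil)) .nil)) .leaf) (nat_lit 24752486662509920) (.br (nat_lit 2) (.cons (.br (nat_lit 4) (.cons (.rel (nat_lit 2281701393)) (.cons (.rel (nat_lit 1140850722)) .nil))) (.cons (.br (nat_lit 4) (.cons (.rel (nat_lit 1140850722)) (.cons (.rel (nat_lit 1140871248)) .nil))) .nil))) .leaf) (nat_lit 24752486662563217) (.br (nat_lit 4) (.cons (.br (nat_lit 6) (.cons (.rel (nat_lit 18253680672)) .nil)) .nil)) (.node (.node .leaf (nat_lit 24752518179024224) (.br (nat_lit 6) (.cons (.br (nat_lit 3) (.cons (.rel (nat_lit 17448337536)) (.cons (.rel (nat_lit 17448337536)) .nil))) .nil)) .leaf) (nat_lit 24752518179853664) (.br (nat_lit 2) (.cons (.br (nat_lit 5) (.cons (.rel (nat_lit 4362078210)) .nil)) .nil)) .leaf)) (nat_lit 24752518180105568) (.br (nat_lit 0) (.cons (.br (nat_lit 3) (.cons (.rel (nat_lit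 272629905)) .nil)) .nil)) (.node (.node (.node .leaf (nat_lit 24752684231058833) (.br (nat_lit 3) (.cons (.br (nat_lit 5) (.cons (.rel (nat_lit 4563419400)) .nil)) .nil)) .leaf) (nat_lit 24752684231518993) (.br (nat_lit 1) (.cons (.br (nat_lit 4) (.cons (.rel (nat_lit 1090524162)) (.cons (.rel (nat_lit 2181058560)) .nil))) .nil)) .leaf) (nat_lit 24752684231519584) (.br (nat_lit 1) (.cons (.br (nat_lit 4) (.cons (.rel (nat_lit 1090524162)) (.cons (.rel (nat_lit 2181058560)) (.cons (.rel (nat_lit 1090560000)) .nil)))) .nil)) (.node .leaf (nat_lit 24754368135376224) (.br (nat_lit 6) (.cons (.br (nat_lit 3) (.cons (.rel (nat_lit 17449631748)) (.cons (.rel (nat_lit 34628436480)) .nil))) .nil)) .leaf))) (nat_lit 24754590651225440) (.br (nat_lit 1) (.cons (.br (nat_lit 3) (.cons (.rel (nat_lit 285213705)) .nil)) .nil)) (.node (.node (.node (.node .leaf (nat_lit 24754590651225619) (.br (nat_lit 3) (.cons (.br (nat_lit 4) (.cons (.rel (nat_lit 1342182672)) .nil)) .nil)) .leaf) (nat_lit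 24754590651809852) (.br (nat_lit 1) (.cons (.br (nat_lit 2) (.cons (.rel (nat_lit 167788800)) .nil)) .nil)) .leaf) (nat_lit 24754590651811079) (.br (nat_lit 1) (.cons (.br (nat_lit 0) (.cons (.rel (nat_lit 21254208)) (.cons (.rel (nat_lit 22545408)) .nil))) .nil)) (.node .leaf (nat_lit 24754590651811168) (.br (nat_lit 1) (.cons (.br (nat_lit 4) (.cons (.rel (nat_lit 1090519137)) .nil)) .nil)) .leaf)) (nat_lit 24757663548687712) (.br (nat_lit 3) (.cons (.br (nat_lit 6) (.cons (.rel (nat_lit 17448304710)) .nil)) .nil)) (.node (.node (.node .leaf (nat_lit 24757663548687891) (.br (nat_lit 3) (.cons (.br (nat_lit 4) (.cons (.rel (nat_lit 1343234112)) .nil)) .nil)) .leaf) (nat_lit 24757663551227232) (.br (nat_lit 5) (.cons (.br (nat_lit 0) (.cons (.rel (nat_lit 4299244608)) (.cons (.rel (nat_lit 8598323217)) .nil))) .nil)) .leaf) (nat_lit 24757806929220346) (.br (nat_lit 1) (.cons (.br (nat_lit 0) (.cons (.rel (nat_lit 38012160)) (.cons (.rel (nat_lit 25169952)) .nil))) .nil)) (.node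 .leaf (nat_lit 24757806929220960) (.br (nat_lit 2) (.cons (.br (nat_lit 4) (.cons (.rel (nat_lit 1140933696)) .nil)) .nil)) .leaf)))) (nat_lit 24757809578731650) (.br (nat_lit 2) (.cons (.br (nat_lit 0) (.cons (.rel (nat_lit 138428544)) (.cons (.rel (nat_lit 71599104)) .nil))) .nil)) (.node (.node (.node (.node (.node .leaf (nat_lit 24757809578732896) (.br (nat_lit 6) (.cons (.br (nat_lit 2) (.cons (.rel (nat_lit 34493957376)) (.cons (.rel (nat_lit 17249223744)) (.cons (.rel (nat_lit 34494038340)) .nil)))) (.cons (.br (nat_lit 5) (.cons (.rel (nat_lit 21474853953)) (.cons (.rel (nat_lit 21474869265)) (.cons (.rel (nat_lit 21474853953)) .nil)))) .nil))) .leaf) (nat_lit 24757809579521376) (.br (nat_lit 4) (.cons (.br (nat_lit 5) (.cons (.rel (nat_lit 5368709520)) .nil)) .nil)) .leaf) (nat_lit 24757809579562336) (.br (nat_lit 3) (.cons (.br (nat_lit 6) (.cons (.rel (nat_lit 17448337536)) .nil)) .nil)) (.node (.node .leaf (nat_lit 24757809580020474) (.br (nat_lit 0) (.cons (.br (nat_lit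 1) (.cons (.rel (nat_lit 38012160)) .nil)) .nil)) .leaf) (nat_lit 24757809580021088) (.br (nat_lit 4) (.cons (.br (nat_lit 2) (.cons (.rel (nat_lit 1209025536)) (.cons (.rel (nat_lit 1140858948)) .nil))) .nil)) .leaf)) (nat_lit 24757809580121440) (.br (nat_lit 5) (.cons (.br (nat_lit 6) (.cons (.rel (nat_lit 21474856965)) (.cons (.rel (nat_lit 21474840642)) .nil))) .nil)) (.node (.node (.node .leaf (nat_lit 24758648321883488) (.br (nat_lit 0) (.cons (.br (nat_lit 1) (.cons (.rel (nat_lit 41943360)) .nil)) .nil)) .leaf) (nat_lit 24758648739727362) (.br (nat_lit 1) (.cons (.br (nat_lit 6) (.cons (.rel (nat_lit 17213442048)) .nil)) .nil)) .leaf) (nat_lit 24758648740363002) (.br (nat_lit 1) (.cons (.br (nat_lit 3) (.cons (.rel (nat_lit 285213705)) .nil)) .nil)) (.node .leaf (nat_lit 24758648741077754) (.br (nat_lit 0) (.cons (.br (nat_lit 1) (.cons (.rel (nat_lit 25169952)) .nil)) .nil)) .leaf))) (nat_lit 24758648741583023) (.br (nat_lit 1) (.cons (.br (nat_lit 5) (.cons (.rel (nat_lit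 4311816336)) .nil)) .nil)) (.node (.node (.node (.node .leaf (nat_lit 24758648741622571) (.br (nat_lit 3) (.cons (.br (nat_lit 4) (.cons (.rel (nat_lit 1342245120)) .nil)) .nil)) .leaf) (nat_lit 24758648742299107) (.br (nat_lit 0) (.cons (.br (nat_lit 3) (.cons (.rel (nat_lit 273695232)) .nil)) .nil)) .leaf) (nat_lit 24758648742402078) (.br (nat_lit 0) (.cons (.br (nat_lit 3) (.cons (.rel (nat_lit 277348356)) .nil)) .nil)) (.node .leaf (nat_lit 24758648742402223) (.br (nat_lit 0) (.cons (.br (nat_lit 6) (.cons (.rel (nat_lit 17184325698)) .nil)) .nil)) .leaf)) (nat_lit 24758648742403299) (.br (nat_lit 1) (.cons (.br (nat_lit 3) (.cons (.rel (nat_lit 570426384)) .nil)) .nil)) (.node (.node (.node .leaf (nat_lit 24758648742810976) (.br (nat_lit 3) (.cons (.br (nat_lit 4) (.cons (.rel (nat_lit 1343227908)) (.cons (.br (nat_lit 5) (.cons (.rel (nat_lit 8858632449)) (.cons (.rel (nat_lit 5368743168)) .nil))) .nil))) .nil)) .leaf) (nat_lit 24758648742915424) (.br (nat_lit 1) (.cons (.br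 (nat_lit 3) (.cons (.rel (nat_lit 553910337)) (.cons (.rel (nat_lit 285348864)) .nil))) (.cons (.br (nat_lit 2) (.cons (.rel (nat_lit 83919360)) (.cons (.rel (nat_lit 167788800)) .nil))) .nil))) .leaf) (nat_lit 24758651487581536) (.br (nat_lit 2) (.cons (.br (nat_lit 5) (.cons (.rel (nat_lit 4362114048)) .nil)) .nil)) (.node .leaf (nat_lit 24758654508185862) (.br (nat_lit 0) (.cons (.br (nat_lit 4) (.cons (.rel (nat_lit 1077936168)) .nil)) .nil)) .leaf)))))

/-- refutations 92 -/
def e92 : EX := (.node (.node (.node (.node (.node (.node .leaf (nat_lit 24758743277806944) (.br (nat_lit 4) (.cons (.br (nat_lit 5) (.cons (.rel (nat_lit 5368729857)) .nil)) .nil)) .leaf) (nat_lit 24758872190262033) (.br (nat_lit 2) (.cons (.br (nat_lit 5) (.cons (.rel (nat_lit 4362078210)) .nil)) .nil)) (.node .leaf (nat_lit 24758872190262059) (.br (nat_lit 2) (.cons (.br (nat_lit 5) (.cons (.rel (nat_lit 4362158160)) .nil)) .nil)) .leaf)) (nat_lit 24759725132475744) (.br (nat_lit 0) (.cons (.br (nat_lit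 2) (.cons (.rel (nat_lit 71303745)) .nil)) .nil)) (.node (.node .leaf (nat_lit 24759725134146912) (.br (nat_lit 3) (.cons (.br (nat_lit 1) (.cons (.rel (nat_lit 285348864)) (.cons (.rel (nat_lit 285212694)) (.cons (.rel (nat_lit 285230208)) .nil)))) (.cons (.br (nat_lit 6) (.cons (.rel (nat_lit 17448378432)) (.cons (.rel (nat_lit 17717264640)) (.cons (.rel (nat_lit 17448306768)) .nil)))) .nil))) .leaf) (nat_lit 24759725134935392) (.br (nat_lit 5) (.cons (.br (nat_lit 1) (.cons (.rel (nat_lit 4311748626)) (.cons (.rel (nat_lit 4311746625)) .nil))) .nil)) .leaf)) (nat_lit 24759725134966112) (.br (nat_lit 3) (.cons (.br (nat_lit 0) (.cons (.rel (nat_lit 272630916)) (.cons (.rel (nat_lit 272640000)) .nil))) .nil)) (.node (.node (.node .leaf (nat_lit 24759955049114976) (.br (nat_lit 2) (.cons (.br (nat_lit 3) (.cons (.rel (nat_lit 335578116)) .nil)) .nil)) .leaf) (nat_lit 24759955050507616) (.br (nat_lit 2) (.cons (.br (nat_lit 4) (.cons (.rel (nat_lit 1140851733)) .nil)) .nil)) (.node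 .leaf (nat_lit 24760154209723255) (.br (nat_lit 0) (.cons (.br (nat_lit 1) (.cons (.rel (nat_lit 37756944)) .nil)) .nil)) .leaf)) (nat_lit 24760154630638944) (.br (nat_lit 1) (.cons (.br (nat_lit 4) (.cons (.rel (nat_lit 2181058560)) .nil)) .nil)) (.node (.node .leaf (nat_lit 24760154630876512) (.br (nat_lit 5) (.cons (.br (nat_lit 3) (.cons (.rel (nat_lit 4563407136)) (.cons (.rel (nat_lit 8858378244)) .nil))) .nil)) .leaf) (nat_lit 24760154631705952) (.br (nat_lit 6) (.cons (.br (nat_lit 0) (.cons (.rel (nat_lit 17184330768)) (.cons (.rel (nat_lit 17184330768)) (.cons (.rel (nat_lit 34368127248)) .nil)))) (.cons (.br (nat_lit 0) (.cons (.rel (nat_lit 17185267968)) (.cons (.rel (nat_lit 17184325698)) (.cons (.rel (nat_lit 17184325698)) .nil)))) .nil))) .leaf))) (nat_lit 24762963539535200) (.br (nat_lit 1) (.cons (.br (nat_lit 3) (.cons (.rel (nat_lit 570426384)) .nil)) .nil)) (.node (.node (.node (.node .leaf (nat_lit 24762986767543648) (.br (nat_lit 3) (.cons (.br (nat_lit 6)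 (.cons (.rel (nat_lit 17448304710)) .nil)) .nil)) .leaf) (nat_lit 24763158457301754) (.br (nat_lit 0) (.cons (.br (nat_lit 3) (.cons (.rel (nat_lit 272663553)) .nil)) .nil)) (.node .leaf (nat_lit 24763163949996817) (.br (nat_lit 4) (.cons (.br (nat_lit 5) (.cons (.rel (nat_lit 5368709520)) .nil)) .nil)) .leaf)) (nat_lit 24763163951721233) (.br (nat_lit 0) (.cons (.br (nat_lit 6) (.cons (.rel (nat_lit 34365247488)) .nil)) .nil)) (.node (.node .leaf (nat_lit 24763163951721824) (.br (nat_lit 1) (.cons (.br (nat_lit 3) (.cons (.rel (nat_lit 285230208)) (.cons (.br (nat_lit 4) (.cons (.rel (nat_lit 1107821568)) (.cons (.rel (nat_lit 1090588800)) (.cons (.rel (nat_lit 1090535460)) (.cons (.rel (nat_lit 1610613825)) (.cons (.rel (nat_lit 1090666560)) .nil)))))) (.cons (.rel (nat_lit 302546952)) .nil)))) .nil)) .leaf) (nat_lit 24763163951721850) (.br (nat_lit 3) (.cons (.br (nat_lit 6) (.cons (.br (nat_lit 4) (.cons (.rel (nat_lit 1610616837)) (.cons (.rel (nat_lit 1343234112)) (.cons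 (.rel (nat_lit 18253644801)) .nil)))) .nil)) .nil)) .leaf)) (nat_lit 24763163952609937) (.br (nat_lit 0) (.cons (.br (nat_lit 3) (.cons (.rel (nat_lit 272663553)) .nil)) .nil)) (.node (.node (.node .leaf (nat_lit 24763218587605022) (.br (nat_lit 0) (.cons (.br (nat_lit 3) (.cons (.rel (nat_lit 277348356)) .nil)) .nil)) .leaf) (nat_lit 24764077578973366) (.br (nat_lit 2) (.cons (.br (nat_lit 3) (.cons (.rel (nat_lit 606076932)) .nil)) .nil)) (.node .leaf (nat_lit 24764077578973969) (.br (nat_lit 2) (.cons (.br (nat_lit 3) (.cons (.rel (nat_lit 335553552)) .nil)) .nil)) .leaf)) (nat_lit 24764077578973995) (.br (nat_lit 5) (.cons (.br (nat_lit 1) (.cons (.rel (nat_lit 4311769152)) (.cons (.rel (nat_lit 4313060352)) .nil))) .nil)) (.node (.node .leaf (nat_lit 24764077578975994) (.br (nat_lit 1) (.cons (.br (nat_lit 0) (.cons (.br (nat_lit 6) (.cons (.rel (nat_lit 34363950084)) (.cons (.rel (nat_lit 17184342021)) .nil))) (.cons (.rel (nat_lit 37756944)) .nil))) .nil)) .leaf) (nat_lit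 24764077579025146) (.br (nat_lit 0) (.cons (.br (nat_lit 1) (.cons (.rel (nat_lit 21254208)) (.cons (.rel (nat_lit 41943360)) .nil))) (.cons (.br (nat_lit 1) (.cons (.rel (nat_lit 21233682)) (.cons (.rel (nat_lit 21234693)) .nil))) .nil))) .leaf)))) (nat_lit 24764077579678503) (.br (nat_lit 0) (.cons (.br (nat_lit 1) (.cons (.rel (nat_lit 21254208)) .nil)) .nil)) (.node (.node (.node (.node (.node .leaf (nat_lit 24764077579679072) (.br (nat_lit 5) (.cons (.br (nat_lit 1) (.cons (.rel (nat_lit 4311811074)) (.cons (.rel (nat_lit 4311744612)) .nil))) .nil)) .leaf) (nat_lit 24764077579719418) (.br (nat_lit 4) (.cons (.br (nat_lit 5) (.cons (.rel (nat_lit 5368743168)) .nil)) .nil)) (.node .leaf (nat_lit 24764077579719543) (.br (nat_lit 0) (.cons (.br (nat_lit 1) (.cons (.rel (nat_lit 25169952)) .nil)) .nil)) .leaf)) (nat_lit 24764077579724053) (.br (nat_lit 1) (.cons (.br (nat_lit 2) (.cons (.rel (nat_lit 100679748)) .nil)) .nil)) (.node (.node .leaf (nat_lit 24764077580251292) (.br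 (nat_lit 0) (.cons (.br (nat_lit 2) (.cons (.rel (nat_lit 71565456)) .nil)) .nil)) .leaf) (nat_lit 24764077580303098) (.br (nat_lit 1) (.cons (.br (nat_lit 5) (.cons (.rel (nat_lit 4311749637)) .nil)) .nil)) .leaf)) (nat_lit 24764077580959900) (.br (nat_lit 0) (.cons (.br (nat_lit 6) (.cons (.rel (nat_lit 17184064032)) .nil)) .nil)) (.node (.node (.node .leaf (nat_lit 24764077581228342) (.br (nat_lit 1) (.cons (.br (nat_lit 2) (.cons (.rel (nat_lit 83886726)) .nil)) .nil)) .leaf) (nat_lit 24764077581472050) (.br (nat_lit 3) (.cons (.br (nat_lit 6) (.cons (.rel (nat_lit 17717264640)) .nil)) .nil)) (.node .leaf (nat_lit 24764077581472506) (.br (nat_lit 3) (.cons (.br (nat_lit 1) (.cons (.rel (nat_lit 285230208)) (.cons (.rel (nat_lit 570426384)) .nil))) .nil)) .leaf)) (nat_lit 24764077581473120) (.br (nat_lit 4) (.cons (.br (nat_lit 1) (.cons (.br (nat_lit 3) (.cons (.rel (nat_lit 1342177602)) (.cons (.rel (nat_lit 285230208)) (.cons (.rel (nat_lit 1342182672)) .nil)))) (.cons (.rel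 (nat_lit 1090520148)) .nil))) .nil)) (.node (.node .leaf (nat_lit 24764077581577568) (.br (nat_lit 2) (.cons (.br (nat_lit 3) (.cons (.rel (nat_lit 335553552)) .nil)) .nil)) .leaf) (nat_lit 24764080229312668) (.br (nat_lit 0) (.cons (.br (nat_lit 2) (.cons (.rel (nat_lit 71320068)) .nil)) .nil)) .leaf))) (nat_lit 24764080230479200) (.br (nat_lit 1) (.cons (.br (nat_lit 5) (.cons (.rel (nat_lit 4311744612)) .nil)) .nil)) (.node (.node (.node (.node .leaf (nat_lit 24764080230983810) (.br (nat_lit 3) (.cons (.br (nat_lit 2) (.cons (.rel (nat_lit 335561793)) (.cons (.rel (nat_lit 335578116)) .nil))) .nil)) .leaf) (nat_lit 24764080230984567) (.br (nat_lit 0) (.cons (.br (nat_lit 3) (.cons (.rel (nat_lit 272630916)) .nil)) .nil)) (.node .leaf (nat_lit 24764080230985056) (.br (nat_lit 3) (.cons (.br (nat_lit 6) (.cons (.rel (nat_lit 17448308769)) (.cons (.rel (nat_lit 34629223488)) (.cons (.rel (nat_lit 17448306768)) .nil)))) (.cons (.br (nat_lit 6) (.cons (.rel (nat_lit 17448337536))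 (.cons (.rel (nat_lit 17448337536)) (.cons (.rel (nat_lit 17448304710)) .nil)))) .nil))) .leaf)) (nat_lit 24764080231083360) (.br (nat_lit 3) (.cons (.br (nat_lit 1) (.cons (.rel (nat_lit 285286416)) (.cons (.rel (nat_lit 285230208)) (.cons (.rel (nat_lit 285212694)) .nil)))) (.cons (.br (nat_lit 1) (.cons (.rel (nat_lit 570426384)) (.cons (.rel (nat_lit 285286416)) (.cons (.rel (nat_lit 285286416)) .nil)))) .nil))) (.node (.node .leaf (nat_lit 24764080231773536) (.br (nat_lit 3) (.cons (.br (nat_lit 5) (.cons (.rel (nat_lit 4832004096)) (.cons (.rel (nat_lit 4831839300)) .nil))) (.cons (.br (nat_lit 4) (.cons (.rel (nat_lit 1610613825)) (.cons (.rel (nat_lit 1343311872)) .nil))) .nil))) .leaf) (nat_lit 24764080231804256) (.br (nat_lit 6) (.cons (.br (nat_lit 2) (.cons (.rel (nat_lit 34426851336)) (.cons (.rel (nat_lit 34426847313)) .nil))) .nil)) .leaf)) (nat_lit 24764080232272634) (.br (nat_lit 1) (.cons (.br (nat_lit 3) (.cons (.rel (nat_lit 285230208)) .nil)) .nil)) (.node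 (.node (.node .leaf (nat_lit 24764080232273248) (.br (nat_lit 1) (.cons (.br (nat_lit 3) (.cons (.rel (nat_lit 285230208)) (.cons (.rel (nat_lit 285230208)) .nil))) .nil)) .leaf) (nat_lit 24764080232322400) (.br (nat_lit 2) (.cons (.br (nat_lit 4) (.cons (.rel (nat_lit 1140936708)) (.cons (.rel (nat_lit 1140855936)) (.cons (.rel (nat_lit 2214597120)) .nil)))) (.cons (.br (nat_lit 5) (.cons (.rel (nat_lit 4362078210)) (.cons (.rel (nat_lit 4362078210)) (.cons (.rel (nat_lit 4362078210)) .nil)))) (.cons (.br (nat_lit 5) (.cons (.rel (nat_lit 4362078210)) (.cons (.rel (nat_lit 4362078210)) (.cons (.br (nat_lit 1) (.cons (.rel (nat_lit 4313060352)) (.cons (.rel (nat_lit 8673821760)) (.cons (.rel (nat_lit 84230208)) (.cons (.rel (nat_lit 4311746625)) .nil))))) .nil)))) .nil)))) (.node .leaf (nat_lit 24764286590741856) (.br (nat_lit 0) (.cons (.br (nat_lit 1) (.cons (.rel (nat_lit 25169952)) .nil)) .nil)) .leaf)) (nat_lit 24764286590840160) (.br (nat_lit 0) (.cons (.br (nat_lit 1) (.cons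 (.rel (nat_lit 25169952)) .nil)) .nil)) (.node (.node .leaf (nat_lit 24764490640212904) (.br (nat_lit 0) (.cons (.br (nat_lit 2) (.cons (.rel (nat_lit 71585793)) .nil)) .nil)) .leaf) (nat_lit 24765618581100555) (.br (nat_lit 1) (.cons (.br (nat_lit 2) (.cons (.rel (nat_lit 84149256)) .nil)) .nil)) .leaf)))))

/-- refutations 93 -/
def e93 : EX := (.node (.node (.node (.node (.node (.node .leaf (nat_lit 25104104284477567) (.br (nat_lit 6) (.cons (.br (nat_lit 4) (.cons (.rel (nat_lit 19329515520)) (.cons (.rel (nat_lit 35434659840)) (.cons (.rel (nat_lit 18254676480)) .nil)))) .nil)) .leaf) (nat_lit 25104104284478245) (.br (nat_lit 1) (.cons (.br (nat_lit 3) (.cons (.rel (nat_lit 285286416)) (.cons (.rel (nat_lit 285230208)) (.cons (.rel (nat_lit 285348864)) .nil)))) (.cons (.br (nat_lit 3) (.cons (.rel (nat_lit 285214752)) (.cons (.rel (nat_lit 285286416)) (.cons (.rel (nat_lit 285348864)) .nil)))) .nil))) .leaf) (nat_lit 25104104284550531) (.br (nat_lit 1) (.cons (.br (nat_lit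 4) (.cons (.rel (nat_lit 1090519137)) .nil)) .nil)) (.node (.node .leaf (nat_lit 25104104285765657) (.br (nat_lit 0) (.cons (.br (nat_lit 1) (.cons (.rel (nat_lit 21234693)) .nil)) .nil)) .leaf) (nat_lit 25104104285832599) (.br (nat_lit 2) (.cons (.br (nat_lit 3) (.cons (.rel (nat_lit 335578116)) .nil)) .nil)) .leaf)) (nat_lit 25104104804571263) (.br (nat_lit 6) (.cons (.br (nat_lit 4) (.cons (.rel (nat_lit 19329515520)) (.cons (.rel (nat_lit 18254676480)) .nil))) .nil)) (.node (.node (.node .leaf (nat_lit 25104533782562199) (.br (nat_lit 0) (.cons (.br (nat_lit 1) (.cons (.rel (nat_lit 21254208)) .nil)) .nil)) .leaf) (nat_lit 25104533783278979) (.br (nat_lit 1) (.cons (.br (nat_lit 6) (.cons (.rel (nat_lit 17196908676)) .nil)) .nil)) .leaf) (nat_lit 25104587851260714) (.br (nat_lit 0) (.cons (.br (nat_lit 1) (.cons (.rel (nat_lit 20972160)) .nil)) .nil)) (.node .leaf (nat_lit 25105166302722059) (.br (nat_lit 0) (.cons (.br (nat_lit 2) (.cons (.rel (nat_lit 71630916)) .nil)) .nil))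 .leaf))) (nat_lit 25105166437439615) (.br (nat_lit 6) (.cons (.br (nat_lit 1) (.cons (.rel (nat_lit 17197039632)) (.cons (.rel (nat_lit 17196917760)) .nil))) .nil)) (.node (.node (.node (.node .leaf (nat_lit 25105166438574761) (.br (nat_lit 5) (.cons (.br (nat_lit 6) (.cons (.rel (nat_lit 21474902088)) (.cons (.rel (nat_lit 21474967584)) .nil))) (.cons (.br (nat_lit 6) (.cons (.rel (nat_lit 21474869265)) (.cons (.rel (nat_lit 21474967584)) .nil))) .nil))) .leaf) (nat_lit 25105166438575367) (.br (nat_lit 6) (.cons (.br (nat_lit 4) (.cons (.rel (nat_lit 35434659840)) (.cons (.rel (nat_lit 19329515520)) .nil))) .nil)) .leaf) (nat_lit 25105169331359107) (.br (nat_lit 2) (.cons (.br (nat_lit 3) (.cons (.rel (nat_lit 671154192)) .nil)) .nil)) (.node (.node .leaf (nat_lit 25105169331510053) (.br (nat_lit 1) (.cons (.br (nat_lit 2) (.cons (.rel (nat_lit 100795392)) .nil)) .nil)) .leaf) (nat_lit 25105169956253748) (.br (nat_lit 0) (.cons (.br (nat_lit 1) (.cons (.rel (nat_lit 37756944))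 .nil)) .nil)) .leaf)) (nat_lit 25105169956253953) (.br (nat_lit 1) (.cons (.br (nat_lit 2) (.cons (.rel (nat_lit 85458960)) .nil)) .nil)) (.node (.node (.node .leaf (nat_lit 25105169956309874) (.br (nat_lit 0) (.cons (.br (nat_lit 2) (.cons (.rel (nat_lit 73482240)) .nil)) .nil)) .leaf) (nat_lit 25105169956460671) (.br (nat_lit 6) (.cons (.br (nat_lit 1) (.cons (.rel (nat_lit 17213489172)) (.cons (.rel (nat_lit 17196917760)) .nil))) .nil)) .leaf) (nat_lit 25105169956461476) (.br (nat_lit 6) (.cons (.br (nat_lit 4) (.cons (.rel (nat_lit 18253621248)) (.cons (.rel (nat_lit 18253621248)) .nil))) .nil)) (.node .leaf (nat_lit 25105169957242217) (.br (nat_lit 0) (.cons (.br (nat_lit 1) (.cons (.rel (nat_lit 23068692)) .nil)) .nil)) .leaf)))) (nat_lit 25105171965079612) (.br (nat_lit 6) (.cons (.br (nat_lit 1) (.cons (.rel (nat_lit 17197039632)) (.cons (.rel (nat_lit 17196908676)) .nil))) .nil)) (.node (.node (.node (.node (.node .leaf (nat_lit 25105171965080963) (.br (nat_lit 2) (.cons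 (.br (nat_lit 0) (.cons (.rel (nat_lit 75499536)) (.cons (.rel (nat_lit 71630916)) .nil))) .nil)) .leaf) (nat_lit 25105171965326824) (.br (nat_lit 0) (.cons (.br (nat_lit 1) (.cons (.rel (nat_lit 37781508)) .nil)) .nil)) .leaf) (nat_lit 25105171965532287) (.br (nat_lit 1) (.cons (.br (nat_lit 2) (.cons (.br (nat_lit 6) (.cons (.rel (nat_lit 17263824960)) (.cons (.rel (nat_lit 17213428737)) (.cons (.rel (nat_lit 34376515728)) (.cons (.rel (nat_lit 17196917760)) .nil))))) (.cons (.rel (nat_lit 150995010)) (.cons (.rel (nat_lit 100732944)) .nil)))) (.cons (.br (nat_lit 6) (.cons (.rel (nat_lit 17213489172)) (.cons (.rel (nat_lit 34376515728)) (.cons (.rel (nat_lit 17196917760)) (.cons (.rel (nat_lit 17197039632)) .nil))))) .nil))) (.node (.node .leaf (nat_lit 25105171965532965) (.br (nat_lit 1) (.cons (.br (nat_lit 6) (.cons (.rel (nat_lit 17196908676)) (.cons (.rel (nat_lit 17213428737)) .nil))) (.cons (.br (nat_lit 6) (.cons (.rel (nat_lit 17196917760)) (.cons (.rel (nat_lit 17197696260))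 .nil))) .nil))) .leaf) (nat_lit 25105171966349619) (.br (nat_lit 5) (.cons (.br (nat_lit 6) (.cons (.rel (nat_lit 21474845712)) .nil)) .nil)) .leaf)) (nat_lit 25105171966349949) (.br (nat_lit 1) (.cons (.br (nat_lit 3) (.cons (.rel (nat_lit 285286416)) (.cons (.rel (nat_lit 285212694)) (.cons (.rel (nat_lit 285212694)) .nil)))) .nil)) (.node (.node (.node .leaf (nat_lit 25105171966350569) (.br (nat_lit 1) (.cons (.br (nat_lit 4) (.cons (.rel (nat_lit 1090560000)) .nil)) .nil)) .leaf) (nat_lit 25105171966350612) (.br (nat_lit 1) (.cons (.br (nat_lit 2) (.cons (.rel (nat_lit 150995010)) .nil)) .nil)) .leaf) (nat_lit 25105171966667532) (.br (nat_lit 4) (.cons (.br (nat_lit 5) (.cons (.rel (nat_lit 6442524672)) .nil)) .nil)) (.node .leaf (nat_lit 25105171966821737) (.br (nat_lit 1) (.cons (.br (nat_lit 2) (.cons (.rel (nat_lit 167778561)) .nil)) .nil)) .leaf))) (nat_lit 25105171967684668) (.br (nat_lit 1) (.cons (.br (nat_lit 2) (.cons (.rel (nat_lit 167788800)) .nil)) .nil)) (.node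 (.node (.node (.node .leaf (nat_lit 25105171967685989) (.br (nat_lit 1) (.cons (.br (nat_lit 2) (.cons (.rel (nat_lit 84230208)) .nil)) .nil)) .leaf) (nat_lit 25105171968090894) (.br (nat_lit 1) (.cons (.br (nat_lit 3) (.cons (.rel (nat_lit 553910337)) (.cons (.rel (nat_lit 570426384)) .nil))) .nil)) .leaf) (nat_lit 25105171968215822) (.br (nat_lit 2) (.cons (.br (nat_lit 6) (.cons (.rel (nat_lit 17248047360)) .nil)) .nil)) (.node .leaf (nat_lit 25105172519957407) (.br (nat_lit 0) (.cons (.br (nat_lit 4) (.cons (.rel (nat_lit 1082200320)) .nil)) .nil)) .leaf)) (nat_lit 25106675758511007) (.br (nat_lit 0) (.cons (.br (nat_lit 4) (.cons (.rel (nat_lit 1077936168)) .nil)) .nil)) (.node (.node (.node .leaf (nat_lit 25109426912058719) (.br (nat_lit 0) (.cons (.br (nat_lit 1) (.cons (.rel (nat_lit 21233682)) .nil)) .nil)) .leaf) (nat_lit 25109430563518475) (.br (nat_lit 1) (.cons (.br (nat_lit 3) (.cons (.rel (nat_lit 285233220)) .nil)) .nil)) .leaf) (nat_lit 25109430563811380) (.br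 (nat_lit 6) (.cons (.br (nat_lit 0) (.cons (.rel (nat_lit 17184342021)) (.cons (.rel (nat_lit 17184064032)) .nil))) .nil)) (.node .leaf (nat_lit 25109430566343538) (.br (nat_lit 1) (.cons (.br (nat_lit 6) (.cons (.rel (nat_lit 17196713472)) .nil)) .nil)) .leaf)))))

/-- refutations 94 -/
def e94 : EX := (.node (.node (.node (.node (.node (.node .leaf (nat_lit 25109681680781369) (.br (nat_lit 0) (.cons (.br (nat_lit 3) (.cons (.rel (nat_lit 272663553)) .nil)) .nil)) .leaf) (nat_lit 25109681680955519) (.br (nat_lit 3) (.cons (.br (nat_lit 4) (.cons (.rel (nat_lit 1610629137)) .nil)) .nil)) .leaf) (nat_lit 25109951032142505) (.br (nat_lit 5) (.cons (.br (nat_lit 6) (.cons (.br (nat_lit 3) (.cons (.rel (nat_lit 17448456192)) (.cons (.rel (nat_lit 17448337536)) (.cons (.rel (nat_lit 17448304710)) .nil)))) (.cons (.rel (nat_lit 21474967584)) .nil))) (.cons (.br (nat_lit 3) (.cons (.rel (nat_lit 4563929088)) (.cons (.rel (nat_lit 4564598784)) (.cons (.rel (nat_lit 4563403077)) .nil))))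 .nil))) (.node (.node .leaf (nat_lit 25109951032143111) (.br (nat_lit 4) (.cons (.br (nat_lit 6) (.cons (.rel (nat_lit 18253627476)) (.cons (.rel (nat_lit 19329515520)) .nil))) (.cons (.br (nat_lit 6) (.cons (.rel (nat_lit 18253621248)) (.cons (.rel (nat_lit 35434659840)) .nil))) .nil))) .leaf) (nat_lit 25109954029934719) (.br (nat_lit 6) (.cons (.br (nat_lit 4) (.cons (.rel (nat_lit 19329515520)) (.cons (.rel (nat_lit 35434659840)) (.cons (.rel (nat_lit 18253627476)) .nil)))) .nil)) .leaf)) (nat_lit 25109954029935397) (.br (nat_lit 6) (.cons (.br (nat_lit 4) (.cons (.rel (nat_lit 35434659840)) (.cons (.br (nat_lit 1) (.cons (.br (nat_lit 3) (.cons (.rel (nat_lit 285286416)) (.cons (.rel (nat_lit 285348864)) .nil))) (.cons (.rel (nat_lit 17196941313)) (.cons (.rel (nat_lit 1090666560)) .nil)))) .nil))) .nil)) (.node (.node (.node .leaf (nat_lit 25109954029935524) (.br (nat_lit 3) (.cons (.br (nat_lit 4) (.cons (.rel (nat_lit 1343311872)) (.cons (.rel (nat_lit 1610613825)) .nil)))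 (.cons (.br (nat_lit 1) (.cons (.rel (nat_lit 285286416)) (.cons (.rel (nat_lit 285348864)) (.cons (.rel (nat_lit 285348864)) .nil)))) .nil))) .leaf) (nat_lit 25109954550029220) (.br (nat_lit 4) (.cons (.br (nat_lit 6) (.cons (.rel (nat_lit 18253676613)) (.cons (.rel (nat_lit 18253621248)) .nil))) .nil)) .leaf) (nat_lit 25109956559100031) (.br (nat_lit 1) (.cons (.br (nat_lit 6) (.cons (.br (nat_lit 2) (.cons (.rel (nat_lit 34493957376)) (.cons (.rel (nat_lit 150995010)) (.cons (.rel (nat_lit 151000080)) (.cons (.rel (nat_lit 100732944)) (.cons (.rel (nat_lit 84152448)) .nil)))))) (.cons (.rel (nat_lit 17196917760)) .nil))) (.cons (.br (nat_lit 0) (.cons (.rel (nat_lit 41943360)) (.cons (.rel (nat_lit 37781508)) (.cons (.rel (nat_lit 37756944)) (.cons (.rel (nat_lit 25169952)) (.cons (.rel (nat_lit 25169952)) (.cons (.rel (nat_lit 37756944)) (.cons (.rel (nat_lit 21254208)) (.cons (.rel (nat_lit 37756944)) .nil))))))))) .nil))) (.node .leaf (nat_lit 25109956559100709) (.br (nat_lit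 6) (.cons (.br (nat_lit 4) (.cons (.rel (nat_lit 19329515520)) (.cons (.rel (nat_lit 35434659840)) .nil))) .nil)) .leaf))) (nat_lit 25110770593609192) (.br (nat_lit 0) (.cons (.br (nat_lit 2) (.cons (.rel (nat_lit 71565456)) .nil)) .nil)) (.node (.node (.node (.node .leaf (nat_lit 25111652670854002) (.br (nat_lit 3) (.cons (.br (nat_lit 5) (.cons (.rel (nat_lit 4564451361)) .nil)) .nil)) .leaf) (nat_lit 25111654836522371) (.br (nat_lit 5) (.cons (.br (nat_lit 6) (.cons (.rel (nat_lit 21474853953)) .nil)) .nil)) .leaf) (nat_lit 25111654839055747) (.br (nat_lit 5) (.cons (.br (nat_lit 1) (.cons (.rel (nat_lit 4311746625)) (.cons (.rel (nat_lit 4311875712)) (.cons (.rel (nat_lit 4311749637)) .nil)))) .nil)) (.node .leaf (nat_lit 25115007440640127) (.br (nat_lit 1) (.cons (.br (nat_lit 2) (.cons (.rel (nat_lit 84230208)) (.cons (.rel (nat_lit 150995010)) (.cons (.rel (nat_lit 151000080)) (.cons (.rel (nat_lit 100732944)) .nil))))) (.cons (.br (nat_lit 2) (.cons (.rel (nat_lit 100732944))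 (.cons (.br (nat_lit 3) (.cons (.rel (nat_lit 285214752)) (.cons (.rel (nat_lit 335548482)) (.cons (.rel (nat_lit 335561793)) .nil)))) (.cons (.rel (nat_lit 100732944)) (.cons (.rel (nat_lit 151000080)) .nil))))) (.cons (.br (nat_lit 3) (.cons (.rel (nat_lit 285230208)) (.cons (.rel (nat_lit 285213705)) (.cons (.rel (nat_lit 285294657)) .nil)))) .nil)))) .leaf)) (nat_lit 25115007440640805) (.br (nat_lit 6) (.cons (.br (nat_lit 1) (.cons (.rel (nat_lit 17196908676)) (.cons (.rel (nat_lit 17196917760)) (.cons (.rel (nat_lit 17196651024)) .nil)))) (.cons (.br (nat_lit 4) (.cons (.rel (nat_lit 19329515520)) (.cons (.rel (nat_lit 35434659840)) (.cons (.rel (nat_lit 18253627476)) .nil)))) .nil))) (.node (.node (.node .leaf (nat_lit 25115090322697603) (.br (nat_lit 1) (.cons (.br (nat_lit 2) (.cons (.rel (nat_lit 167788800)) .nil)) .nil)) .leaf) (nat_lit 25116092834240639) (.br (nat_lit 2) (.cons (.br (nat_lit 1) (.cons (.rel (nat_lit 150995010)) (.cons (.rel (nat_lit 151062528)) .nil)))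 .nil)) .leaf) (nat_lit 25116092835375785) (.br (nat_lit 5) (.cons (.br (nat_lit 6) (.cons (.br (nat_lit 2) (.cons (.rel (nat_lit 4362142848)) (.cons (.rel (nat_lit 8724153345)) (.cons (.rel (nat_lit 17248047360)) (.cons (.rel (nat_lit 4362078210)) (.cons (.rel (nat_lit 25836929088)) .nil)))))) (.cons (.rel (nat_lit 21474967584)) .nil))) (.cons (.br (nat_lit 6) (.cons (.br (nat_lit 4) (.cons (.rel (nat_lit 18254676480)) (.cons (.rel (nat_lit 9663692928)) (.cons (.rel (nat_lit 35433480456)) (.cons (.rel (nat_lit 6442524672)) (.cons (.rel (nat_lit 9663692928)) .nil)))))) (.cons (.rel (nat_lit 21474967584)) .nil))) .nil))) (.node .leaf (nat_lit 25116092835376391) (.br (nat_lit 6) (.cons (.br (nat_lit 4) (.cons (.rel (nat_lit 35434659840)) (.cons (.rel (nat_lit 19329515520)) .nil))) .nil)) .leaf)))) (nat_lit 25116093665551218) (.br (nat_lit 3) (.cons (.br (nat_lit 0) (.cons (.rel (nat_lit 545264640)) (.cons (.rel (nat_lit 272629905)) .nil))) .nil)) (.node (.node (.node (.node (.node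 .leaf (nat_lit 25116093665848178) (.br (nat_lit 3) (.cons (.br (nat_lit 4) (.cons (.rel (nat_lit 1342177602)) (.cons (.rel (nat_lit 2416050177)) .nil))) (.cons (.br (nat_lit 0) (.cons (.rel (nat_lit 545264640)) (.cons (.rel (nat_lit 272630916)) (.cons (.rel (nat_lit 543162369)) .nil)))) .nil))) .leaf) (nat_lit 25116093667037460) (.br (nat_lit 4) (.cons (.br (nat_lit 5) (.cons (.rel (nat_lit 5369763840)) .nil)) .nil)) .leaf) (nat_lit 25116093667038066) (.br (nat_lit 3) (.cons (.br (nat_lit 6) (.cons (.rel (nat_lit 17448321033)) (.cons (.rel (nat_lit 17448337536)) .nil))) .nil)) (.node (.node .leaf (nat_lit 25116095832707854) (.br (nat_lit 0) (.cons (.br (nat_lit 2) (.cons (.rel (nat_lit 71565456)) .nil)) .nil)) .leaf) (nat_lit 25116095832780831) (.br (nat_lit 0) (.cons (.br (nat_lit 1) (.cons (.rel (nat_lit 41943360)) .nil)) .nil)) .leaf)) (nat_lit 25116095833167999) (.br (nat_lit 1) (.cons (.br (nat_lit 2) (.cons (.rel (nat_lit 150995010)) (.cons (.rel (nat_lit 100795392)) .nil)))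 (.cons (.br (nat_lit 2) (.cons (.rel (nat_lit 100795392)) (.cons (.rel (nat_lit 151000080)) .nil))) .nil))) (.node (.node (.node .leaf (nat_lit 25116095833168804) (.br (nat_lit 6) (.cons (.br (nat_lit 3) (.cons (.rel (nat_lit 17448337536)) (.cons (.rel (nat_lit 17448337536)) (.cons (.rel (nat_lit 17448571200)) .nil)))) .nil)) .leaf) (nat_lit 25116095833935235) (.br (nat_lit 0) (.cons (.br (nat_lit 1) (.cons (.rel (nat_lit 41943360)) .nil)) .nil)) .leaf) (nat_lit 25116095835850928) (.br (nat_lit 1) (.cons (.br (nat_lit 2) (.cons (.rel (nat_lit 83919360)) .nil)) .nil)) (.node .leaf (nat_lit 25116095835851534) (.br (nat_lit 1) (.cons (.br (nat_lit 5) (.cons (.rel (nat_lit 4311846912)) .nil)) .nil)) .leaf))) (nat_lit 25117157987265193) (.br (nat_lit 3) (.cons (.br (nat_lit 6) (.cons (.rel (nat_lit 17448337536)) .nil)) .nil)) (.node (.node (.node (.node .leaf (nat_lit 25117157987265799) (.br (nat_lit 4) (.cons (.br (nat_lit 5) (.cons (.rel (nat_lit 6442483776)) (.cons (.rel (nat_lit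 9663692928)) .nil))) .nil)) .leaf) (nat_lit 25117161505151103) (.br (nat_lit 6) (.cons (.br (nat_lit 2) (.cons (.rel (nat_lit 17248047360)) (.cons (.rel (nat_lit 34493957376)) .nil))) .nil)) .leaf) (nat_lit 25117161505151908) (.br (nat_lit 1) (.cons (.br (nat_lit 3) (.cons (.rel (nat_lit 285348864)) (.cons (.rel (nat_lit 285230208)) (.cons (.rel (nat_lit 285286416)) (.cons (.rel (nat_lit 285286416)) .nil))))) (.cons (.br (nat_lit 3) (.cons (.rel (nat_lit 285233220)) (.cons (.rel (nat_lit 285310980)) (.cons (.rel (nat_lit 285286416)) (.cons (.rel (nat_lit 285230208)) .nil))))) (.cons (.br (nat_lit 3) (.cons (.rel (nat_lit 570426384)) (.cons (.rel (nat_lit 285214752)) (.cons (.rel (nat_lit 285286416)) (.cons (.rel (nat_lit 285348864)) .nil))))) .nil)))) (.node .leaf (nat_lit 25117161506236691) (.br (nat_lit 0) (.cons (.br (nat_lit 1) (.cons (.rel (nat_lit 21234693)) .nil)) .nil)) .leaf)) (nat_lit 25117161506286249) (.br (nat_lit 6) (.cons (.br (nat_lit 4) (.cons (.rel (nat_lit 18253743120))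 (.cons (.rel (nat_lit 18253612164)) .nil))) .nil)) (.node (.node (.node .leaf (nat_lit 25117163513811001) (.br (nat_lit 3) (.cons (.br (nat_lit 0) (.cons (.rel (nat_lit 272633928)) (.cons (.rel (nat_lit 272695365)) .nil))) .nil)) .leaf) (nat_lit 25117163513811071) (.br (nat_lit 2) (.cons (.br (nat_lit 3) (.cons (.rel (nat_lit 335548482)) .nil)) .nil)) .leaf) (nat_lit 25117163514222719) (.br (nat_lit 1) (.cons (.br (nat_lit 2) (.cons (.rel (nat_lit 150995010)) (.cons (.rel (nat_lit 151000080)) (.cons (.rel (nat_lit 100732944)) .nil)))) (.cons (.br (nat_lit 2) (.cons (.br (nat_lit 3) (.cons (.rel (nat_lit 285214752)) (.cons (.rel (nat_lit 570426384)) (.cons (.rel (nat_lit 335548482)) (.cons (.rel (nat_lit 285213705)) (.cons (.rel (nat_lit 285310980)) .nil)))))) (.cons (.rel (nat_lit 100732944)) (.cons (.rel (nat_lit 151000080)) .nil)))) .nil))) (.node .leaf (nat_lit 25117163514223397) (.br (nat_lit 1) (.cons (.br (nat_lit 2) (.cons (.rel (nat_lit 100732944)) (.cons (.rel (nat_lit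 100732944)) (.cons (.rel (nat_lit 150995010)) .nil)))) (.cons (.br (nat_lit 0) (.cons (.rel (nat_lit 20972160)) (.cons (.rel (nat_lit 21331968)) (.cons (.rel (nat_lit 37756944)) (.cons (.rel (nat_lit 37756944)) .nil))))) .nil))) .leaf)))))

/-- refutations 95 -/
def e95 : EX := (.node (.node (.node (.node (.node .leaf (nat_lit 24734668290743647) (.br (nat_lit 5) (.cons (.br (nat_lit 3) (.cons (.rel (nat_lit 4564521024)) (.cons (.rel (nat_lit 8858452992)) .nil))) .nil)) .leaf) (nat_lit 24734671411305823) (.br (nat_lit 0) (.cons (.br (nat_lit 1) (.cons (.rel (nat_lit 21254208)) .nil)) .nil)) .leaf) (nat_lit 24734917398846815) (.br (nat_lit 0) (.cons (.br (nat_lit 6) (.cons (.rel (nat_lit 34368127248)) .nil)) .nil)) (.node .leaf (nat_lit 24736226398988340) (.br (nat_lit 1) (.cons (.br (nat_lit 2) (.cons (.rel (nat_lit 84149256)) .nil)) .nil)) .leaf)) (nat_lit 24741059200360629) (.br (nat_lit 3) (.cons (.br (nat_lit 4) (.cons (.rel (nat_lit 1342245120)) .nil)) .nil)) (.node (.node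 .leaf (nat_lit 24741059200413023) (.br (nat_lit 4) (.cons (.br (nat_lit 3) (.cons (.rel (nat_lit 1342177602)) (.cons (.rel (nat_lit 1342245120)) .nil))) .nil)) .leaf) (nat_lit 24741059201572191) (.br (nat_lit 4) (.cons (.br (nat_lit 6) (.cons (.rel (nat_lit 18253615176)) .nil)) .nil)) (.node .leaf (nat_lit 24741059202080095) (.br (nat_lit 2) (.cons (.br (nat_lit 3) (.cons (.rel (nat_lit 335675424)) .nil)) .nil)) .leaf))) (nat_lit 24741059202183195) (.br (nat_lit 0) (.cons (.br (nat_lit 1) (.cons (.rel (nat_lit 41943360)) .nil)) .nil)) (.node (.node (.node .leaf (nat_lit 24741062322134367) (.br (nat_lit 3) (.cons (.br (nat_lit 0) (.cons (.rel (nat_lit 545264640)) (.cons (.rel (nat_lit 272629905)) .nil))) .nil)) .leaf) (nat_lit 24741062322497798) (.br (nat_lit 4) (.cons (.br (nat_lit 5) (.cons (.rel (nat_lit 9664004352)) .nil)) .nil)) (.node .leaf (nat_lit 24741062322642271) (.br (nat_lit 0) (.cons (.br (nat_lit 1) (.cons (.rel (nat_lit 25169952)) .nil)) .nil)) .leaf)) (nat_lit 24742399230672223)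 (.br (nat_lit 0) (.cons (.br (nat_lit 3) (.cons (.rel (nat_lit 272761872)) .nil)) .nil)) (.node (.node .leaf (nat_lit 24742399231876447) (.br (nat_lit 3) (.cons (.br (nat_lit 4) (.cons (.rel (nat_lit 1342193925)) .nil)) .nil)) .leaf) (nat_lit 24747601612468224) (.br (nat_lit 1) (.cons (.br (nat_lit 5) (.cons (.rel (nat_lit 4311811074)) .nil)) .nil)) (.node .leaf (nat_lit 24747601612468855) (.br (nat_lit 0) (.cons (.br (nat_lit 3) (.cons (.rel (nat_lit 277348356)) .nil)) .nil)) .leaf))))

/-- refutations 96 -/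
def e96 : EX := (.node (.node (.node (.node (.node .leaf (nat_lit 25280023409847034) (.br (nat_lit 3) (.cons (.br (nat_lit 6) (.cons (.rel (nat_lit 17448337536)) .nil)) .nil)) .leaf) (nat_lit 25280026186415486) (.br (nat_lit 0) (.cons (.br (nat_lit 2) (.cons (.rel (nat_lit 71599104)) .nil)) .nil)) (.node .leaf (nat_lit 25280026186876286) (.br (nat_lit 0) (.cons (.br (nat_lit 1) (.cons (.rel (nat_lit 21233682)) .nil)) .nil)) .leaf)) (nat_lit 25280026188270974) (.br (nat_lit 0) (.cons (.br (nat_lit 2) (.cons (.rel (nat_lit 71630916)) .nil)) .nil)) (.node (.node .leaf (nat_lit 25280026189473929) (.br (nat_lit 0) (.cons (.br (nat_lit 1) (.cons (.rel (nat_lit 21233682)) .nil)) .nil)) .leaf) (nat_lit 25280026189475198) (.br (nat_lit 0) (.cons (.br (nat_lit 4) (.cons (.rel (nat_lit 2155872276)) .nil)) .nil)) (.node .leaf (nat_lit 25281051010532210) (.br (nat_lit 0) (.cons (.br (nat_lit 1) (.cons (.rel (nat_lit 21234693)) .nil)) .nil)) .leaf))) (nat_lit 25281051010532734) (.br (nat_lit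 1) (.cons (.br (nat_lit 3) (.cons (.rel (nat_lit 285216897)) .nil)) .nil)) (.node (.node (.node .leaf (nat_lit 25281051010635932) (.br (nat_lit 1) (.cons (.br (nat_lit 2) (.cons (.rel (nat_lit 100679748)) .nil)) .nil)) .leaf) (nat_lit 25281051011350658) (.br (nat_lit 0) (.cons (.br (nat_lit 4) (.cons (.rel (nat_lit 1077936168)) .nil)) .nil)) (.node .leaf (nat_lit 25281051011350710) (.br (nat_lit 0) (.cons (.br (nat_lit 1) (.cons (.rel (nat_lit 25169952)) .nil)) .nil)) .leaf)) (nat_lit 25281051011563580) (.br (nat_lit 0) (.cons (.br (nat_lit 1) (.cons (.rel (nat_lit 21233682)) .nil)) .nil)) (.node (.node .leaf (nat_lit 25281051013100807) (.br (nat_lit 1) (.cons (.br (nat_lit 2) (.cons (.rel (nat_lit 84149256)) .nil)) .nil)) .leaf) (nat_lit 25281145392031874) (.br (nat_lit 3) (.cons (.br (nat_lit 5) (.cons (.rel (nat_lit 4563407136)) .nil)) .nil)) .leaf))) (nat_lit 25281145393051778) (.br (nat_lit 0) (.cons (.br (nat_lit 1) (.cons (.rel (nat_lit 21233682)) .nil)) .nil)) (.node (.node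 (.node (.node .leaf (nat_lit 25281532126048266) (.br (nat_lit 1) (.cons (.br (nat_lit 2) (.cons (.rel (nat_lit 151000080)) .nil)) .nil)) .leaf) (nat_lit 25281532127419774) (.br (nat_lit 0) (.cons (.br (nat_lit 2) (.cons (.rel (nat_lit 75499536)) .nil)) .nil)) (.node .leaf (nat_lit 25281532127832239) (.br (nat_lit 2) (.cons (.br (nat_lit 3) (.cons (.rel (nat_lit 335548482)) .nil)) .nil)) .leaf)) (nat_lit 25281532128652670) (.br (nat_lit 6) (.cons (.br (nat_lit 3) (.cons (.rel (nat_lit 17448571200)) (.cons (.rel (nat_lit 17448308769)) .nil))) .nil)) (.node (.node .leaf (nat_lit 25281532128713511) (.br (nat_lit 5) (.cons (.br (nat_lit 6) (.cons (.rel (nat_lit 21474870276)) .nil)) .nil)) .leaf) (nat_lit 25286414321060101) (.br (nat_lit 0) (.cons (.br (nat_lit 1) (.cons (.rel (nat_lit 25169952)) .nil)) .nil)) .leaf)) (nat_lit 25286414321122057) (.br (nat_lit 0) (.cons (.br (nat_lit 1) (.cons (.rel (nat_lit 25232400)) (.cons (.rel (nat_lit 21254208)) .nil))) .nil)) (.node (.node (.node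 .leaf (nat_lit 25286414321183482) (.br (nat_lit 6) (.cons (.br (nat_lit 3) (.cons (.rel (nat_lit 34628192577)) (.cons (.rel (nat_lit 17448337536)) .nil))) .nil)) .leaf) (nat_lit 25286414322440322) (.br (nat_lit 3) (.cons (.br (nat_lit 6) (.cons (.rel (nat_lit 34629223488)) .nil)) .nil)) (.node .leaf (nat_lit 25286414322708482) (.br (nat_lit 0) (.cons (.br (nat_lit 1) (.cons (.rel (nat_lit 25165893)) .nil)) .nil)) .leaf)) (nat_lit 25286414324204926) (.br (nat_lit 0) (.cons (.br (nat_lit 1) (.cons (.rel (nat_lit 25165893)) .nil)) .nil)) (.node (.node .leaf (nat_lit 25286419066607616) (.br (nat_lit 0) (.cons (.br (nat_lit 6) (.cons (.rel (nat_lit 17184325698)) .nil)) .nil)) .leaf) (nat_lit 25286419610660994) (.br (nat_lit 0) (.cons (.br (nat_lit 1) (.cons (.rel (nat_lit 41943360)) .nil)) .nil)) .leaf))))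

/-- refutations 97 -/
def e97 : EX := (.node (.node (.node (.node (.node .leaf (nat_lit 25286895595399968) (.br (nat_lit 3) (.cons (.br (nat_lit 5) (.cons (.rel (nat_lit 9127068672)) .nil)) .nil)) .leaf) (nat_lit 25286895595400574) (.br (nat_lit 1) (.cons (.br (nat_lit 3) (.cons (.rel (nat_lit 285214752)) .nil)) .nil)) .leaf) (nat_lit 25287919918398746) (.br (nat_lit 0) (.cons (.br (nat_lit 2) (.cons (.rel (nat_lit 142677252)) .nil)) .nil)) (.node .leaf (nat_lit 25287919919396122) (.br (nat_lit 3) (.cons (.br (nat_lit 4) (.cons (.rel (nat_lit 1610630148)) (.cons (.rel (nat_lit 1610613825)) (.cons (.rel (nat_lit 1343234112)) .nil)))) .nil)) .leaf)) (nat_lit 25287965752688777) (.br (nat_lit 0) (.cons (.br (nat_lit 2) (.cons (.rel (nat_lit 71303745)) (.cons (.rel (nat_lit 71630916)) .nil))) .nil)) (.node (.node .leaf (nat_lit 25292100439710358) (.br (nat_lit 4) (.cons (.br (nat_lit 1) (.cons (.rel (nat_lit 1090524162)) (.cons (.rel (nat_lit 1090523160)) .nil))) .nil)) .leaf) (nat_lit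 25292103216811290) (.br (nat_lit 0) (.cons (.br (nat_lit 1) (.cons (.rel (nat_lit 21254208)) .nil)) .nil)) (.node .leaf (nat_lit 25292103634902398) (.br (nat_lit 1) (.cons (.br (nat_lit 6) (.cons (.rel (nat_lit 17196908676)) (.cons (.rel (nat_lit 17196917760)) .nil))) (.cons (.br (nat_lit 3) (.cons (.rel (nat_lit 285348864)) (.cons (.rel (nat_lit 285216897)) .nil))) .nil))) .leaf))) (nat_lit 25292103634912638) (.br (nat_lit 0) (.cons (.br (nat_lit 2) (.cons (.rel (nat_lit 138547200)) (.cons (.rel (nat_lit 71303745)) (.cons (.rel (nat_lit 75571200)) .nil)))) (.cons (.br (nat_lit 2) (.cons (.rel (nat_lit 71303745)) (.cons (.rel (nat_lit 71303745)) (.cons (.rel (nat_lit 138428544)) .nil)))) .nil))) (.node (.node (.node .leaf (nat_lit 25292103635678590) (.br (nat_lit 2) (.cons (.br (nat_lit 6) (.cons (.rel (nat_lit 34493957376)) .nil)) .nil)) .leaf) (nat_lit 25292103636252030) (.br (nat_lit 1) (.cons (.br (nat_lit 6) (.cons (.rel (nat_lit 17196651024)) .nil)) .nil)) (.node .leaf (nat_lit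 25292103636307326) (.br (nat_lit 6) (.cons (.br (nat_lit 3) (.cons (.rel (nat_lit 17448308769)) (.cons (.rel (nat_lit 17448306768)) .nil))) .nil)) .leaf)) (nat_lit 25292103637003646) (.br (nat_lit 2) (.cons (.br (nat_lit 6) (.cons (.rel (nat_lit 17314092096)) .nil)) .nil)) (.node (.node .leaf (nat_lit 25292103637065086) (.br (nat_lit 3) (.cons (.br (nat_lit 0) (.cons (.rel (nat_lit 272629905)) (.cons (.rel (nat_lit 272640000)) .nil))) .nil)) .leaf) (nat_lit 25292103637511550) (.br (nat_lit 3) (.cons (.br (nat_lit 6) (.cons (.rel (nat_lit 17448306768)) .nil)) .nil)) (.node .leaf (nat_lit 25293291511684508) (.br (nat_lit 0) (.cons (.br (nat_lit 1) (.cons (.rel (nat_lit 26476608)) .nil)) .nil)) .leaf))))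

/-- refutations 98 -/
def e98 : EX := (.node (.node (.node .leaf (nat_lit 26516881858890490) (.br (nat_lit 0) (.cons (.br (nat_lit 4) (.cons (.rel (nat_lit 2155872276)) .nil)) .nil)) .leaf) (nat_lit 26516881861769491) (.br (nat_lit 1) (.cons (.br (nat_lit 3) (.cons (.rel (nat_lit 285213705)) .nil)) .nil)) .leaf) (nat_lit 26516881861770467) (.br (nat_lit 0) (.cons (.br (nat_lit 6) (.cons (.rel (nat_lit 17185652736)) .nil)) .nil)) (.node .leaf (nat_lit 26517007931608591) (.br (nat_lit 2) (.cons (.br (nat_lit 6) (.cons (.rel (nat_lit 17314349313)) .nil)) .nil)) .leaf))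

/-- refutations 99 -/
def e99 : EX := (.node (.node (.node (.node (.node .leaf (nat_lit 26519370585603424) (.br (nat_lit 1) (.cons (.br (nat_lit 4) (.cons (.rel (nat_lit 1090523160)) .nil)) .nil)) .leaf) (nat_lit 26519373236403552) (.br (nat_lit 6) (.cons (.br (nat_lit 0) (.cons (.rel (nat_lit 17184393216)) (.cons (.rel (nat_lit 17184325698)) .nil))) .nil)) .leaf) (nat_lit 26522436772616854) (.br (nat_lit 0) (.cons (.br (nat_lit 2) (.cons (.rel (nat_lit 71320068)) .nil)) .nil)) (.node .leaf (nat_lit 26522437190957818) (.br (nat_lit 0) (.cons (.br (nat_lit 1) (.cons (.rel (nat_lit 25169952)) .nil)) .nil)) .leaf)) (nat_lit 26522694888995578) (.br (nat_lit 3) (.cons (.br (nat_lit 6) (.cons (.rel (nat_lit 17449615425)) .nil)) .nil)) (.node (.node (.node .leaf (nat_lit 26523296184417018) (.br (nat_lit 3) (.cons (.br (nat_lit 5) (.cons (.rel (nat_lit 4563929088)) .nil)) .nil)) .leaf) (nat_lit 26523296185710722) (.br (nat_lit 0) (.cons (.br (nat_lit 5) (.cons (.rel (nat_lit 4299309057))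 .nil)) .nil)) .leaf) (nat_lit 26523296919918767) (.br (nat_lit 0) (.cons (.br (nat_lit 5) (.cons (.rel (nat_lit 4299182160)) .nil)) .nil)) (.node .leaf (nat_lit 26524799003335318) (.br (nat_lit 3) (.cons (.br (nat_lit 4) (.cons (.rel (nat_lit 1610613825)) .nil)) .nil)) .leaf))) (nat_lit 26524799004627606) (.br (nat_lit 2) (.cons (.br (nat_lit 3) (.cons (.rel (nat_lit 335578116)) .nil)) .nil)) (.node (.node (.node (.node .leaf (nat_lit 26524800158472322) (.br (nat_lit 0) (.cons (.br (nat_lit 4) (.cons (.rel (nat_lit 2155872276)) .nil)) .nil)) .leaf) (nat_lit 26524801778584314) (.br (nat_lit 0) (.cons (.br (nat_lit 3) (.cons (.rel (nat_lit 277872642)) .nil)) .nil)) .leaf) (nat_lit 26524801780497146) (.br (nat_lit 3) (.cons (.br (nat_lit 5) (.cons (.rel (nat_lit 4563403077)) .nil)) .nil)) (.node .leaf (nat_lit 26524801781463802) (.br (nat_lit 0) (.cons (.br (nat_lit 1) (.cons (.rel (nat_lit 41943360)) .nil)) .nil)) .leaf)) (nat_lit 26524804710658178) (.br (nat_lit 2) (.cons (.br (nat_lit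 4) (.cons (.rel (nat_lit 2281702404)) .nil)) .nil)) (.node (.node .leaf (nat_lit 26524804710985858) (.br (nat_lit 0) (.cons (.br (nat_lit 4) (.cons (.rel (nat_lit 1082393088)) .nil)) .nil)) .leaf) (nat_lit 26524804711732602) (.br (nat_lit 1) (.cons (.br (nat_lit 2) (.cons (.rel (nat_lit 84148245)) .nil)) .nil)) (.node .leaf (nat_lit 26524804713074818) (.br (nat_lit 3) (.cons (.br (nat_lit 5) (.cons (.rel (nat_lit 4564713792)) .nil)) .nil)) .leaf))))

/-- refutations 100 -/
def e100 : EX := (.node (.node (.node (.node .leaf (nat_lit 25156883397013634) (.br (nat_lit 1) (.cons (.br (nat_lit 3) (.cons (.rel (nat_lit 285216897)) (.cons (.rel (nat_lit 285294657)) .nil))) (.cons (.br (nat_lit 3) (.cons (.rel (nat_lit 285216897)) (.cons (.rel (nat_lit 570426384)) .nil))) .nil))) .leaf) (nat_lit 25156883397013686) (.br (nat_lit 6) (.cons (.br (nat_lit 4) (.cons (.rel (nat_lit 18253873440)) (.cons (.rel (nat_lit 18253680672)) .nil))) .nil)) (.node .leaf (nat_lit 25156883397711200) (.br (nat_lit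 2) (.cons (.br (nat_lit 3) (.cons (.rel (nat_lit 335548482)) .nil)) .nil)) .leaf)) (nat_lit 25156883397811578) (.br (nat_lit 1) (.cons (.br (nat_lit 5) (.cons (.rel (nat_lit 8606973984)) .nil)) .nil)) (.node (.node .leaf (nat_lit 25157304305020256) (.br (nat_lit 0) (.cons (.br (nat_lit 3) (.cons (.rel (nat_lit 272640000)) .nil)) .nil)) .leaf) (nat_lit 25157994911144721) (.br (nat_lit 1) (.cons (.br (nat_lit 3) (.cons (.br (nat_lit 6) (.cons (.rel (nat_lit 17717264640)) (.cons (.rel (nat_lit 17448337536)) (.cons (.rel (nat_lit 17448337536)) .nil)))) (.cons (.rel (nat_lit 570426384)) .nil))) .nil)) .leaf)) (nat_lit 25157994911145338) (.br (nat_lit 1) (.cons (.br (nat_lit 3) (.cons (.rel (nat_lit 570426384)) (.cons (.br (nat_lit 2) (.cons (.br (nat_lit 5) (.cons (.rel (nat_lit 4697636928)) (.cons (.rel (nat_lit 4362080400)) .nil))) (.cons (.rel (nat_lit 335577105)) .nil))) .nil))) .nil)) (.node (.node (.node .leaf (nat_lit 25158123760163601) (.br (nat_lit 0) (.cons (.br (nat_lit 1)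 (.cons (.rel (nat_lit 37756944)) .nil)) .nil)) .leaf) (nat_lit 25162283926223659) (.br (nat_lit 0) (.cons (.br (nat_lit 3) (.cons (.rel (nat_lit 272761872)) .nil)) .nil)) (.node .leaf (nat_lit 25162283926676267) (.br (nat_lit 3) (.cons (.br (nat_lit 4) (.cons (.rel (nat_lit 1343234112)) .nil)) .nil)) .leaf)) (nat_lit 25163715915246970) (.br (nat_lit 2) (.cons (.br (nat_lit 5) (.cons (.rel (nat_lit 4362145860)) .nil)) .nil)) (.node (.node .leaf (nat_lit 25167586456773984) (.br (nat_lit 1) (.cons (.br (nat_lit 4) (.cons (.rel (nat_lit 2181058560)) (.cons (.rel (nat_lit 2165309760)) (.cons (.rel (nat_lit 1090524162)) .nil)))) .nil)) .leaf) (nat_lit 25167781483474298) (.br (nat_lit 1) (.cons (.br (nat_lit 3) (.cons (.rel (nat_lit 285214752)) .nil)) .nil)) .leaf)))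

/-- refutations 101 -/
def e101 : EX := (.node (.node (.node (.node (.node (.node .leaf (nat_lit 26581848052722951) (.br (nat_lit 0) (.cons (.br (nat_lit 4) (.cons (.rel (nat_lit 1077936168)) .nil)) .nil)) .leaf) (nat_lit 26581850576432535) (.br (nat_lit 1) (.cons (.br (nat_lit 3) (.cons (.rel (nat_lit 285212694)) (.cons (.rel (nat_lit 285212694)) .nil))) .nil)) .leaf) (nat_lit 26581850576727392) (.br (nat_lit 0) (.cons (.br (nat_lit 4) (.cons (.rel (nat_lit 1077936168)) .nil)) .nil)) (.node (.node .leaf (nat_lit 26581850576727571) (.br (nat_lit 1) (.cons (.br (nat_lit 3) (.cons (.rel (nat_lit 572539140)) .nil)) .nil)) .leaf) (nat_lit 26584172550695064) (.br (nat_lit 2) (.cons (.br (nat_lit 3) (.cons (.rel (nat_lit 335544468)) .nil)) .nil)) .leaf)) (nat_lit 26584172551809176) (.br (nat_lit 0) (.cons (.br (nat_lit 3) (.cons (.rel (nat_lit 272633928)) .nil)) .nil)) (.node (.node (.node .leaf (nat_lit 26584172551809660) (.br (nat_lit 0) (.cons (.br (nat_lit 5) (.cons (.rel (nat_lit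 8598323217)) .nil)) .nil)) .leaf) (nat_lit 26584173268738859) (.br (nat_lit 1) (.cons (.br (nat_lit 2) (.cons (.rel (nat_lit 84149256)) .nil)) .nil)) .leaf) (nat_lit 26584177999844883) (.br (nat_lit 3) (.cons (.br (nat_lit 4) (.cons (.rel (nat_lit 1342193925)) .nil)) .nil)) (.node (.node .leaf (nat_lit 26584178000430611) (.br (nat_lit 3) (.cons (.br (nat_lit 6) (.cons (.rel (nat_lit 17448321033)) .nil)) .nil)) .leaf) (nat_lit 26584178447478291) (.br (nat_lit 0) (.cons (.br (nat_lit 1) (.cons (.rel (nat_lit 25169952)) .nil)) .nil)) .leaf))) (nat_lit 26584178447715859) (.br (nat_lit 2) (.cons (.br (nat_lit 4) (.cons (.rel (nat_lit 1140852744)) .nil)) .nil)) (.node (.node (.node (.node .leaf (nat_lit 26584178447886972) (.br (nat_lit 0) (.cons (.br (nat_lit 4) (.cons (.rel (nat_lit 2155872276)) (.cons (.rel (nat_lit 1077937170)) .nil))) .nil)) .leaf) (nat_lit 26584178447887891) (.br (nat_lit 0) (.cons (.br (nat_lit 1) (.cons (.rel (nat_lit 37756944)) .nil)) .nil)) .leaf) (nat_lit 26584178447935644)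 (.br (nat_lit 0) (.cons (.br (nat_lit 1) (.cons (.rel (nat_lit 21233682)) .nil)) .nil)) (.node (.node .leaf (nat_lit 26584178448706967) (.br (nat_lit 1) (.cons (.br (nat_lit 3) (.cons (.rel (nat_lit 285213705)) (.cons (.rel (nat_lit 285212694)) .nil))) .nil)) .leaf) (nat_lit 26584178448738460) (.br (nat_lit 1) (.cons (.br (nat_lit 5) (.cons (.rel (nat_lit 4311744612)) .nil)) .nil)) .leaf)) (nat_lit 26584178448739115) (.br (nat_lit 1) (.cons (.br (nat_lit 5) (.cons (.rel (nat_lit 4329571329)) .nil)) .nil)) (.node (.node (.node .leaf (nat_lit 26584178448739231) (.br (nat_lit 1) (.cons (.br (nat_lit 4) (.cons (.rel (nat_lit 1090523160)) .nil)) .nil)) .leaf) (nat_lit 26584178449001084) (.br (nat_lit 0) (.cons (.br (nat_lit 3) (.cons (.rel (nat_lit 272650242)) (.cons (.rel (nat_lit 543162369)) (.cons (.rel (nat_lit 272630916)) (.cons (.rel (nat_lit 272629905)) (.cons (.rel (nat_lit 541327368)) .nil)))))) (.cons (.br (nat_lit 4) (.cons (.rel (nat_lit 1077937170)) (.cons (.rel (nat_lit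 1077936168)) .nil))) .nil))) .leaf) (nat_lit 26584178449001128) (.br (nat_lit 1) (.cons (.br (nat_lit 2) (.cons (.rel (nat_lit 84149256)) (.cons (.rel (nat_lit 83919360)) .nil))) .nil)) (.node .leaf (nat_lit 26584178449001259) (.br (nat_lit 1) (.cons (.br (nat_lit 2) (.cons (.rel (nat_lit 85458960)) (.cons (.rel (nat_lit 151062528)) .nil))) .nil)) .leaf)))) (nat_lit 26584178449001260) (.br (nat_lit 5) (.cons (.br (nat_lit 0) (.cons (.rel (nat_lit 4299169860)) (.cons (.rel (nat_lit 4299169860)) .nil))) .nil)) (.node (.node (.node (.node (.node .leaf (nat_lit 26584178449001375) (.br (nat_lit 1) (.cons (.br (nat_lit 2) (.cons (.rel (nat_lit 85458960)) .nil)) .nil)) .leaf) (nat_lit 26584178449001735) (.br (nat_lit 1) (.cons (.br (nat_lit 4) (.cons (.rel (nat_lit 1090585608)) (.cons (.rel (nat_lit 1090560000)) .nil))) .nil)) .leaf) (nat_lit 26584178449002003) (.br (nat_lit 0) (.cons (.br (nat_lit 4) (.cons (.rel (nat_lit 1077936168)) (.cons (.rel (nat_lit 1077936168)) (.cons (.rel (nat_lit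 1077936168)) .nil)))) (.cons (.br (nat_lit 5) (.cons (.rel (nat_lit 4299163656)) (.cons (.br (nat_lit 3) (.cons (.rel (nat_lit 272646228)) (.cons (.rel (nat_lit 272629905)) (.cons (.rel (nat_lit 9130999872)) (.cons (.rel (nat_lit 4563929088)) .nil))))) .nil))) .nil))) (.node (.node .leaf (nat_lit 26584178449221015) (.br (nat_lit 2) (.cons (.br (nat_lit 4) (.cons (.rel (nat_lit 1140855936)) .nil)) .nil)) .leaf) (nat_lit 26584178449221139) (.br (nat_lit 3) (.cons (.br (nat_lit 4) (.cons (.rel (nat_lit 1342177602)) .nil)) .nil)) .leaf)) (nat_lit 26584178449967740) (.br (nat_lit 0) (.cons (.br (nat_lit 4) (.cons (.rel (nat_lit 1077937170)) .nil)) .nil)) (.node (.node (.node .leaf (nat_lit 26584178449967760) (.br (nat_lit 1) (.cons (.br (nat_lit 2) (.cons (.rel (nat_lit 100925712)) .nil)) .nil)) .leaf) (nat_lit 26584178449967904) (.br (nat_lit 0) (.cons (.br (nat_lit 2) (.cons (.rel (nat_lit 71585793)) .nil)) .nil)) .leaf) (nat_lit 26584178450526844) (.br (nat_lit 0) (.cons (.br (nat_lit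 1) (.cons (.rel (nat_lit 25169952)) .nil)) .nil)) (.node .leaf (nat_lit 26587213934181103) (.br (nat_lit 0) (.cons (.br (nat_lit 2) (.cons (.rel (nat_lit 71303745)) .nil)) .nil)) .leaf))) (nat_lit 26588330080151704) (.br (nat_lit 0) (.cons (.br (nat_lit 4) (.cons (.rel (nat_lit 1077936168)) .nil)) .nil)) (.node (.node (.node (.node .leaf (nat_lit 26588333933603072) (.br (nat_lit 0) (.cons (.br (nat_lit 4) (.cons (.rel (nat_lit 1083195408)) .nil)) .nil)) .leaf) (nat_lit 26588333933604371) (.br (nat_lit 4) (.cons (.br (nat_lit 0) (.cons (.rel (nat_lit 2155872276)) (.cons (.rel (nat_lit 1077936168)) .nil))) .nil)) .leaf) (nat_lit 26588333934718483) (.br (nat_lit 0) (.cons (.br (nat_lit 4) (.cons (.rel (nat_lit 2155872276)) .nil)) .nil)) (.node (.node .leaf (nat_lit 26588333935683736) (.br (nat_lit 0) (.cons (.br (nat_lit 5) (.cons (.rel (nat_lit 8598323217)) .nil)) .nil)) .leaf) (nat_lit 26588333935684384) (.br (nat_lit 0) (.cons (.br (nat_lit 2) (.cons (.rel (nat_lit 76808193)) .nil))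 .nil)) .leaf)) (nat_lit 26588682984399659) (.br (nat_lit 1) (.cons (.br (nat_lit 4) (.cons (.rel (nat_lit 1090585608)) .nil)) .nil)) (.node (.node (.node .leaf (nat_lit 26588682984841371) (.br (nat_lit 0) (.cons (.br (nat_lit 2) (.cons (.rel (nat_lit 71585793)) .nil)) .nil)) .leaf) (nat_lit 26592748007298311) (.br (nat_lit 0) (.cons (.br (nat_lit 1) (.cons (.rel (nat_lit 41943360)) .nil)) .nil)) .leaf) (nat_lit 26594999769075219) (.br (nat_lit 1) (.cons (.br (nat_lit 3) (.cons (.rel (nat_lit 285230208)) .nil)) .nil)) (.node .leaf (nat_lit 26594999770318355) (.br (nat_lit 0) (.cons (.br (nat_lit 3) (.cons (.rel (nat_lit 272633928)) .nil)) .nil)) .leaf)))))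

/-- refutations 102 -/
def e102 : EX := (.node (.node (.node (.node .leaf (nat_lit 26599666101072552) (.br (nat_lit 0) (.cons (.br (nat_lit 1) (.cons (.rel (nat_lit 20972160)) .nil)) .nil)) .leaf) (nat_lit 26600774198438700) (.br (nat_lit 0) (.cons (.br (nat_lit 1) (.cons (.rel (nat_lit 22545408)) .nil)) .nil)) .leaf) (nat_lit 26605292509246120) (.br (nat_lit 0) (.cons (.br (nat_lit 1) (.cons (.rel (nat_lit 20972160)) .nil)) .nil)) (.node .leaf (nat_lit 26605292509246367) (.br (nat_lit 0) (.cons (.br (nat_lit 1) (.cons (.rel (nat_lit 20972160)) .nil)) .nil)) .leaf)) (nat_lit 26605828485948154) (.br (nat_lit 2) (.cons (.br (nat_lit 3) (.cons (.rel (nat_lit 335548482)) .nil)) .nil)) (.node (.node .leaf (nat_lit 26606988484629362) (.br (nat_lit 3) (.cons (.br (nat_lit 5) (.cons (.rel (nat_lit 4563419400)) .nil)) .nil)) .leaf) (nat_lit 26610343391256706) (.br (nat_lit 0) (.cons (.br (nat_lit 1) (.cons (.rel (nat_lit 21254208)) .nil)) .nil)) (.node .leaf (nat_lit 26611466129646993)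 (.br (nat_lit 1) (.cons (.br (nat_lit 2) (.cons (.rel (nat_lit 100795392)) .nil)) .nil)) .leaf)))

/-- refutations 103 -/
def e103 : EX := (.node (.node (.node (.node (.node (.node .leaf (nat_lit 27039242014288634) (.br (nat_lit 6) (.cons (.br (nat_lit 3) (.cons (.rel (nat_lit 17448309780)) (.cons (.rel (nat_lit 17448321033)) .nil))) .nil)) .leaf) (nat_lit 27039242015750906) (.br (nat_lit 0) (.cons (.br (nat_lit 1) (.cons (.rel (nat_lit 21254208)) .nil)) .nil)) .leaf) (nat_lit 27039246757993710) (.br (nat_lit 1) (.cons (.br (nat_lit 2) (.cons (.rel (nat_lit 83919360)) .nil)) .nil)) (.node .leaf (nat_lit 27039246757994553) (.br (nat_lit 2) (.cons (.br (nat_lit 4) (.cons (.rel (nat_lit 1140855936)) .nil)) .nil)) .leaf)) (nat_lit 27039246757996724) (.br (nat_lit 1) (.cons (.br (nat_lit 5) (.cons (.rel (nat_lit 4311749637)) .nil)) .nil)) (.node (.node .leaf (nat_lit 27039246758279195) (.br (nat_lit 3) (.cons (.br (nat_lit 6) (.cons (.rel (nat_lit 17448309780)) .nil)) .nil)) .leaf)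 (nat_lit 27039246758293790) (.br (nat_lit 0) (.cons (.br (nat_lit 6) (.cons (.rel (nat_lit 17184064032)) .nil)) .nil)) (.node .leaf (nat_lit 27039246758294381) (.br (nat_lit 1) (.cons (.br (nat_lit 3) (.cons (.rel (nat_lit 301991172)) .nil)) .nil)) .leaf))) (nat_lit 27039246758445056) (.br (nat_lit 6) (.cons (.br (nat_lit 0) (.cons (.rel (nat_lit 17184342021)) (.cons (.rel (nat_lit 34368161088)) .nil))) .nil)) (.node (.node (.node (.node .leaf (nat_lit 27039246758548333) (.br (nat_lit 0) (.cons (.br (nat_lit 1) (.cons (.rel (nat_lit 22545408)) .nil)) .nil)) .leaf) (nat_lit 27039246759303453) (.br (nat_lit 2) (.cons (.br (nat_lit 4) (.cons (.rel (nat_lit 1140850722)) .nil)) .nil)) .leaf) (nat_lit 27039246759304570) (.br (nat_lit 2) (.cons (.br (nat_lit 6) (.cons (.rel (nat_lit 17247306768)) .nil)) .nil)) (.node .leaf (nat_lit 27039246759304673) (.br (nat_lit 2) (.cons (.br (nat_lit 3) (.cons (.rel (nat_lit 335578116)) .nil)) .nil)) .leaf)) (nat_lit 27039246759469108) (.br (nat_lit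 0) (.cons (.br (nat_lit 2) (.cons (.rel (nat_lit 75530304)) .nil)) .nil)) (.node (.node .leaf (nat_lit 27039246759570315) (.br (nat_lit 2) (.cons (.br (nat_lit 4) (.cons (.rel (nat_lit 1140850722)) .nil)) .nil)) .leaf) (nat_lit 27039246759570335) (.br (nat_lit 0) (.cons (.br (nat_lit 1) (.cons (.rel (nat_lit 25232400)) .nil)) .nil)) (.node .leaf (nat_lit 27039246760506106) (.br (nat_lit 2) (.cons (.br (nat_lit 3) (.cons (.rel (nat_lit 335544468)) .nil)) .nil)) .leaf)))) (nat_lit 27039246760603700) (.br (nat_lit 1) (.cons (.br (nat_lit 3) (.cons (.rel (nat_lit 285214752)) .nil)) .nil)) (.node (.node (.node (.node (.node .leaf (nat_lit 27039246761068679) (.br (nat_lit 0) (.cons (.br (nat_lit 1) (.cons (.rel (nat_lit 20972160)) .nil)) .nil)) .leaf) (nat_lit 27041337961020898) (.br (nat_lit 1) (.cons (.br (nat_lit 2) (.cons (.br (nat_lit 3) (.cons (.rel (nat_lit 335548482)) (.cons (.rel (nat_lit 285233220)) (.cons (.rel (nat_lit 285286416)) .nil)))) .nil)) .nil)) .leaf) (nat_lit 27041337961146643)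 (.br (nat_lit 0) (.cons (.br (nat_lit 1) (.cons (.rel (nat_lit 37781508)) .nil)) .nil)) (.node .leaf (nat_lit 27041767190768402) (.br (nat_lit 1) (.cons (.br (nat_lit 3) (.cons (.rel (nat_lit 285212694)) .nil)) .nil)) .leaf)) (nat_lit 27041769686891283) (.br (nat_lit 2) (.cons (.br (nat_lit 3) (.cons (.rel (nat_lit 335548482)) .nil)) .nil)) (.node (.node .leaf (nat_lit 27041772199065058) (.br (nat_lit 0) (.cons (.br (nat_lit 1) (.cons (.rel (nat_lit 21254208)) .nil)) .nil)) .leaf) (nat_lit 27041772200073346) (.br (nat_lit 1) (.cons (.br (nat_lit 2) (.cons (.rel (nat_lit 84230208)) .nil)) .nil)) (.node .leaf (nat_lit 27041772200506850) (.br (nat_lit 1) (.cons (.br (nat_lit 3) (.cons (.rel (nat_lit 570426384)) (.cons (.rel (nat_lit 285245520)) .nil))) (.cons (.br (nat_lit 2) (.cons (.rel (nat_lit 83919360)) (.cons (.rel (nat_lit 83903049)) .nil))) .nil))) .leaf))) (nat_lit 27041773432174619) (.br (nat_lit 1) (.cons (.br (nat_lit 3) (.cons (.rel (nat_lit 570426384)) .nil)) .nil))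 (.node (.node (.node (.node .leaf (nat_lit 27041773432174867) (.br (nat_lit 1) (.cons (.br (nat_lit 5) (.cons (.rel (nat_lit 4311875712)) .nil)) .nil)) .leaf) (nat_lit 27041773432190434) (.br (nat_lit 1) (.cons (.br (nat_lit 0) (.cons (.rel (nat_lit 21254208)) (.cons (.rel (nat_lit 25169952)) .nil))) .nil)) .leaf) (nat_lit 27041773432390532) (.br (nat_lit 3) (.cons (.br (nat_lit 5) (.cons (.rel (nat_lit 8858375232)) .nil)) .nil)) (.node .leaf (nat_lit 27041773433632226) (.br (nat_lit 1) (.cons (.br (nat_lit 2) (.cons (.rel (nat_lit 151000080)) (.cons (.rel (nat_lit 84152448)) .nil))) (.cons (.br (nat_lit 2) (.cons (.rel (nat_lit 83886726)) (.cons (.rel (nat_lit 83919360)) .nil))) .nil))) .leaf)) (nat_lit 27041773433684254) (.br (nat_lit 3) (.cons (.br (nat_lit 5) (.cons (.rel (nat_lit 8858378244)) .nil)) .nil)) (.node (.node .leaf (nat_lit 27044662263016186) (.br (nat_lit 4) (.cons (.br (nat_lit 5) (.cons (.rel (nat_lit 5368729857)) .nil)) .nil)) .leaf) (nat_lit 27044662265707258)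 (.br (nat_lit 1) (.cons (.br (nat_lit 5) (.cons (.rel (nat_lit 4311875712)) (.cons (.rel (nat_lit 4311769152)) .nil))) (.cons (.br (nat_lit 5) (.cons (.rel (nat_lit 4311746625)) (.cons (.rel (nat_lit 4311762948)) .nil))) .nil))) (.node .leaf (nat_lit 27044667009233658) (.br (nat_lit 2) (.cons (.br (nat_lit 3) (.cons (.rel (nat_lit 335544468)) .nil)) .nil)) .leaf)))))

/-- refutations 104 -/
def e104 : EX := (.node (.node (.node (.node (.node .leaf (nat_lit 27045091761219091) (.br (nat_lit 1) (.cons (.br (nat_lit 3) (.cons (.rel (nat_lit 553926660)) .nil)) .nil)) .leaf) (nat_lit 27045097737025666) (.br (nat_lit 1) (.cons (.br (nat_lit 3) (.cons (.rel (nat_lit 553926660)) .nil)) .nil)) (.node .leaf (nat_lit 27045097738372627) (.br (nat_lit 2) (.cons (.br (nat_lit 3) (.cons (.rel (nat_lit 403177473)) .nil)) .nil)) .leaf)) (nat_lit 27045632925625082) (.br (nat_lit 3) (.cons (.br (nat_lit 6) (.cons (.rel (nat_lit 17448309780)) (.cons (.rel (nat_lit 17448308769)) .nil))) .nil)) (.node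 (.node .leaf (nat_lit 27045632926886650) (.br (nat_lit 1) (.cons (.br (nat_lit 2) (.cons (.rel (nat_lit 167788800)) .nil)) .nil)) .leaf) (nat_lit 27045632927394554) (.br (nat_lit 2) (.cons (.br (nat_lit 3) (.cons (.rel (nat_lit 335616000)) (.cons (.rel (nat_lit 335548482)) .nil))) (.cons (.br (nat_lit 3) (.cons (.rel (nat_lit 335548482)) (.cons (.rel (nat_lit 335577105)) .nil))) .nil))) .leaf)) (nat_lit 27045632927395298) (.br (nat_lit 5) (.cons (.br (nat_lit 1) (.cons (.br (nat_lit 4) (.cons (.rel (nat_lit 9663676425)) (.cons (.rel (nat_lit 1091895312)) (.cons (.rel (nat_lit 5368729857)) .nil)))) (.cons (.rel (nat_lit 4311846912)) (.cons (.rel (nat_lit 4311748626)) .nil)))) .nil)) (.node (.node (.node .leaf (nat_lit 27045632928443023) (.br (nat_lit 6) (.cons (.br (nat_lit 0) (.cons (.rel (nat_lit 17184330768)) (.cons (.rel (nat_lit 17188388865)) .nil))) .nil)) .leaf) (nat_lit 27045632928584442) (.br (nat_lit 3) (.cons (.br (nat_lit 6) (.cons (.rel (nat_lit 17717264640)) (.cons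 (.rel (nat_lit 17448337536)) .nil))) .nil)) (.node .leaf (nat_lit 27045636121631376) (.br (nat_lit 3) (.cons (.br (nat_lit 5) (.cons (.rel (nat_lit 4563407136)) .nil)) .nil)) .leaf)) (nat_lit 27045636121631607) (.br (nat_lit 0) (.cons (.br (nat_lit 1) (.cons (.rel (nat_lit 25169952)) .nil)) .nil)) (.node (.node .leaf (nat_lit 27045636121933282) (.br (nat_lit 0) (.cons (.br (nat_lit 1) (.cons (.rel (nat_lit 41949444)) .nil)) .nil)) .leaf) (nat_lit 27045636122185980) (.br (nat_lit 2) (.cons (.br (nat_lit 3) (.cons (.rel (nat_lit 335544468)) .nil)) .nil)) .leaf))) (nat_lit 27045636122186605) (.br (nat_lit 3) (.cons (.br (nat_lit 6) (.cons (.rel (nat_lit 17448337536)) .nil)) .nil)) (.node (.node (.node (.node .leaf (nat_lit 27045636122852834) (.br (nat_lit 6) (.cons (.br (nat_lit 0) (.cons (.rel (nat_lit 34368127248)) (.cons (.rel (nat_lit 34368127248)) .nil))) .nil)) .leaf) (nat_lit 27045636124143616) (.br (nat_lit 5) (.cons (.br (nat_lit 2) (.cons (.rel (nat_lit 4429447680)) (.cons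 (.rel (nat_lit 4362142848)) .nil))) .nil)) (.node .leaf (nat_lit 27045636124144378) (.br (nat_lit 3) (.cons (.br (nat_lit 5) (.cons (.rel (nat_lit 4831842312)) .nil)) .nil)) .leaf)) (nat_lit 27045636124737716) (.br (nat_lit 0) (.cons (.br (nat_lit 1) (.cons (.rel (nat_lit 20972160)) .nil)) .nil)) (.node (.node .leaf (nat_lit 27045637671841792) (.br (nat_lit 1) (.cons (.br (nat_lit 6) (.cons (.rel (nat_lit 34376549376)) .nil)) .nil)) .leaf) (nat_lit 27045637671842423) (.br (nat_lit 0) (.cons (.br (nat_lit 2) (.cons (.rel (nat_lit 75571200)) .nil)) .nil)) .leaf)) (nat_lit 27045637671842554) (.br (nat_lit 3) (.cons (.br (nat_lit 5) (.cons (.rel (nat_lit 4563407136)) .nil)) .nil)) (.node (.node (.node .leaf (nat_lit 27046760856621687) (.br (nat_lit 0) (.cons (.br (nat_lit 1) (.cons (.rel (nat_lit 37756944)) (.cons (.rel (nat_lit 25165893)) .nil))) (.cons (.br (nat_lit 3) (.cons (.rel (nat_lit 272640000)) (.cons (.rel (nat_lit 272699424)) .nil))) .nil))) .leaf) (nat_lit 27046762952504802)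 (.br (nat_lit 1) (.cons (.br (nat_lit 2) (.cons (.rel (nat_lit 83919360)) .nil)) .nil)) (.node .leaf (nat_lit 27046977699129524) (.br (nat_lit 1) (.cons (.br (nat_lit 3) (.cons (.rel (nat_lit 285212694)) .nil)) .nil)) .leaf)) (nat_lit 27046977700869602) (.br (nat_lit 1) (.cons (.br (nat_lit 6) (.cons (.rel (nat_lit 17213428737)) (.cons (.rel (nat_lit 34376549376)) .nil))) .nil)) (.node (.node .leaf (nat_lit 27047138940951190) (.br (nat_lit 1) (.cons (.br (nat_lit 3) (.cons (.rel (nat_lit 286524420)) .nil)) .nil)) .leaf) (nat_lit 27047140910960098) (.br (nat_lit 4) (.cons (.br (nat_lit 5) (.cons (.rel (nat_lit 5368774980)) .nil)) .nil)) .leaf))))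

/-- refutations 105 -/
def e105 : EX := (.node (.node (.node (.node (.node .leaf (nat_lit 27050202772597498) (.br (nat_lit 4) (.cons (.br (nat_lit 5) (.cons (.rel (nat_lit 5368743168)) .nil)) .nil)) .leaf) (nat_lit 27051320196472290) (.br (nat_lit 3) (.cons (.br (nat_lit 5) (.cons (.rel (nat_lit 8858378244)) .nil)) .nil)) (.node .leaf (nat_lit 27051320196472310) (.br (nat_lit 1) (.cons (.br (nat_lit 2) (.cons (.rel (nat_lit 151000080)) .nil)) .nil)) .leaf)) (nat_lit 27051320197585578) (.br (nat_lit 0) (.cons (.br (nat_lit 2) (.cons (.rel (nat_lit 75499536)) .nil)) .nil)) (.node (.node .leaf (nat_lit 27051320199350447) (.br (nat_lit 1) (.cons (.br (nat_lit 5) (.cons (.rel (nat_lit 8623554624)) .nil)) .nil)) .leaf) (nat_lit 27051320199351778) (.br (nat_lit 2) (.cons (.br (nat_lit 5) (.cons (.rel (nat_lit 4362076197)) .nil)) .nil)) (.node .leaf (nat_lit 27052178455723490) (.br (nat_lit 0) (.cons (.br (nat_lit 1) (.cons (.rel (nat_lit 41943360)) .nil)) .nil)) .leaf))) (nat_lit 27052178455784186)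 (.br (nat_lit 5) (.cons (.br (nat_lit 6) (.cons (.rel (nat_lit 21474840642)) (.cons (.rel (nat_lit 21474845712)) (.cons (.rel (nat_lit 21474836628)) .nil)))) (.cons (.br (nat_lit 4) (.cons (.rel (nat_lit 6442450950)) (.cons (.rel (nat_lit 5369774082)) (.cons (.rel (nat_lit 6442524672)) (.cons (.rel (nat_lit 9663692928)) .nil))))) (.cons (.br (nat_lit 6) (.cons (.rel (nat_lit 21474845712)) (.cons (.rel (nat_lit 21475100928)) (.cons (.rel (nat_lit 21474908160)) .nil)))) .nil)))) (.node (.node (.node .leaf (nat_lit 27052178455927046) (.br (nat_lit 2) (.cons (.br (nat_lit 1) (.cons (.rel (nat_lit 150995010)) (.cons (.rel (nat_lit 84149256)) (.cons (.rel (nat_lit 85984257)) .nil)))) .nil)) .leaf) (nat_lit 27052178455928290) (.br (nat_lit 3) (.cons (.br (nat_lit 1) (.cons (.rel (nat_lit 285214752)) (.cons (.rel (nat_lit 570446913)) (.cons (.rel (nat_lit 285214752)) .nil)))) .nil)) (.node .leaf (nat_lit 27052178455981587) (.br (nat_lit 0) (.cons (.br (nat_lit 6) (.cons (.rel (nat_lit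 17188388865)) .nil)) .nil)) .leaf)) (nat_lit 27052178456170507) (.br (nat_lit 2) (.cons (.br (nat_lit 4) (.cons (.rel (nat_lit 1140850722)) .nil)) .nil)) (.node (.node .leaf (nat_lit 27052178456246453) (.br (nat_lit 0) (.cons (.br (nat_lit 3) (.cons (.rel (nat_lit 273170949)) .nil)) .nil)) .leaf) (nat_lit 27052178456940002) (.br (nat_lit 3) (.cons (.br (nat_lit 6) (.cons (.rel (nat_lit 17448321033)) .nil)) .nil)) .leaf))) (nat_lit 27052178457041026) (.br (nat_lit 0) (.cons (.br (nat_lit 1) (.cons (.rel (nat_lit 37781508)) .nil)) .nil)) (.node (.node (.node (.node .leaf (nat_lit 27052178457450496) (.br (nat_lit 2) (.cons (.br (nat_lit 5) (.cons (.rel (nat_lit 4362076197)) .nil)) .nil)) .leaf) (nat_lit 27052178457452002) (.br (nat_lit 2) (.cons (.br (nat_lit 5) (.cons (.rel (nat_lit 4362076197)) .nil)) .nil)) (.node .leaf (nat_lit 27052178458342031) (.br (nat_lit 1) (.cons (.br (nat_lit 4) (.cons (.rel (nat_lit 1090560000)) .nil)) .nil)) .leaf)) (nat_lit 27052178458601472) (.br (nat_lit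 4) (.cons (.br (nat_lit 5) (.cons (.rel (nat_lit 5368729857)) .nil)) .nil)) (.node (.node .leaf (nat_lit 27052178458601747) (.br (nat_lit 1) (.cons (.br (nat_lit 6) (.cons (.rel (nat_lit 17196917760)) .nil)) .nil)) .leaf) (nat_lit 27052178458602127) (.br (nat_lit 6) (.cons (.br (nat_lit 2) (.cons (.rel (nat_lit 34426851336)) (.cons (.rel (nat_lit 34493957376)) (.cons (.rel (nat_lit 34426848324)) .nil)))) .nil)) (.node .leaf (nat_lit 27052178458602249) (.br (nat_lit 4) (.cons (.br (nat_lit 5) (.cons (.rel (nat_lit 5369757768)) .nil)) .nil)) .leaf))) (nat_lit 27052180657692802) (.br (nat_lit 0) (.cons (.br (nat_lit 2) (.cons (.rel (nat_lit 75497478)) (.cons (.br (nat_lit 6) (.cons (.rel (nat_lit 34426848324)) (.cons (.rel (nat_lit 17184064032)) .nil))) .nil))) (.cons (.br (nat_lit 2) (.cons (.rel (nat_lit 76808193)) (.cons (.rel (nat_lit 71585793)) .nil))) .nil))) (.node (.node (.node .leaf (nat_lit 27052180660855571) (.br (nat_lit 0) (.cons (.br (nat_lit 2) (.cons (.rel (nat_lit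 75763968)) .nil)) .nil)) .leaf) (nat_lit 27052181652092386) (.br (nat_lit 0) (.cons (.br (nat_lit 3) (.cons (.rel (nat_lit 272650242)) .nil)) .nil)) (.node .leaf (nat_lit 27052181652345709) (.br (nat_lit 0) (.cons (.br (nat_lit 3) (.cons (.rel (nat_lit 272633928)) .nil)) .nil)) .leaf)) (nat_lit 27052181654867426) (.br (nat_lit 2) (.cons (.br (nat_lit 5) (.cons (.rel (nat_lit 4429447680)) .nil)) .nil)) (.node (.node .leaf (nat_lit 27052183199789933) (.br (nat_lit 0) (.cons (.br (nat_lit 1) (.cons (.rel (nat_lit 23068692)) .nil)) .nil)) .leaf) (nat_lit 27052183202565602) (.br (nat_lit 1) (.cons (.br (nat_lit 2) (.cons (.rel (nat_lit 100795392)) .nil)) .nil)) .leaf))))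

/-- refutations 106 -/
def e106 : EX := (.node (.node (.node (.node .leaf (nat_lit 27374564518930688) (.br (nat_lit 0) (.cons (.br (nat_lit 5) (.cons (.rel (nat_lit 4299231297)) .nil)) .nil)) .leaf) (nat_lit 27375694696168209) (.br (nat_lit 0) (.cons (.br (nat_lit 3) (.cons (.rel (nat_lit 272629905)) .nil)) .nil)) .leaf) (nat_lit 27375697418038058) (.br (nat_lit 0) (.cons (.br (nat_lit 1) (.cons (.rel (nat_lit 25182216)) .nil)) .nil)) (.node (.node .leaf (nat_lit 27375697970661532) (.br (nat_lit 1) (.cons (.br (nat_lit 3) (.cons (.rel (nat_lit 570426384)) .nil)) .nil)) .leaf) (nat_lit 27375697971665681) (.br (nat_lit 2) (.cons (.br (nat_lit 4) (.cons (.rel (nat_lit 1140871248)) .nil)) .nil)) .leaf)) (nat_lit 27375697971919484) (.br (nat_lit 0) (.cons (.br (nat_lit 2) (.cons (.rel (nat_lit 71303745)) .nil)) .nil)) (.node (.node (.node .leaf (nat_lit 27375697971919775) (.br (nat_lit 1) (.cons (.br (nat_lit 3) (.cons (.rel (nat_lit 285214752)) .nil)) .nil)) .leaf) (nat_lit 27375697971920250)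 (.br (nat_lit 0) (.cons (.br (nat_lit 3) (.cons (.rel (nat_lit 545264640)) .nil)) .nil)) .leaf) (nat_lit 27375697971920398) (.br (nat_lit 0) (.cons (.br (nat_lit 1) (.cons (.rel (nat_lit 25169952)) .nil)) .nil)) (.node (.node .leaf (nat_lit 27375698390399232) (.br (nat_lit 3) (.cons (.br (nat_lit 4) (.cons (.rel (nat_lit 1342193925)) .nil)) .nil)) .leaf) (nat_lit 27375698391557008) (.br (nat_lit 0) (.cons (.br (nat_lit 1) (.cons (.rel (nat_lit 21233682)) .nil)) .nil)) .leaf)))

/-- refutations 107 -/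
def e107 : EX := (.node (.node (.node .leaf (nat_lit 27379884463213471) (.br (nat_lit 0) (.cons (.br (nat_lit 1) (.cons (.rel (nat_lit 21234693)) .nil)) .nil)) .leaf) (nat_lit 27379884463222261) (.br (nat_lit 0) (.cons (.br (nat_lit 1) (.cons (.rel (nat_lit 41943360)) .nil)) .nil)) .leaf) (nat_lit 27379884463532818) (.br (nat_lit 2) (.cons (.br (nat_lit 5) (.cons (.rel (nat_lit 4362114048)) .nil)) .nil)) (.node (.node .leaf (nat_lit 27384712006669713) (.br (nat_lit 0) (.cons (.br (nat_lit 1) (.cons (.rel (nat_lit 20972160)) .nil)) .nil)) .leaf) (nat_lit 27386435811135744) (.br (nat_lit 2) (.cons (.br (nat_lit 5) (.cons (.rel (nat_lit 4362109026)) .nil)) .nil)) .leaf))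

/-- refutations 109 -/
def e109 : EX := (.node (.node (.node (.node (.node .leaf (nat_lit 26863569263419403) (.br (nat_lit 0) (.cons (.br (nat_lit 1) (.cons (.rel (nat_lit 37819392)) .nil)) .nil)) .leaf) (nat_lit 26864390704968607) (.br (nat_lit 0) (.cons (.br (nat_lit 5) (.cons (.rel (nat_lit 4299161634)) .nil)) .nil)) .leaf) (nat_lit 26864825494910188) (.br (nat_lit 2) (.cons (.br (nat_lit 3) (.cons (.rel (nat_lit 335609928)) .nil)) .nil)) (.node .leaf (nat_lit 26865507270635796) (.br (nat_lit 1) (.cons (.br (nat_lit 3) (.cons (.rel (nat_lit 285214752)) .nil)) .nil)) .leaf)) (nat_lit 26865507270636301) (.br (nat_lit 1) (.cons (.br (nat_lit 2) (.cons (.rel (nat_lit 100679748)) .nil)) .nil)) (.node (.node (.node .leaf (nat_lit 26865888700642061) (.br (nat_lit 0) (.cons (.br (nat_lit 6) (.cons (.rel (nat_lit 17185177920)) .nil)) .nil)) .leaf) (nat_lit 26865889299776748) (.br (nat_lit 0) (.cons (.br (nat_lit 2) (.cons (.rel (nat_lit 71720964)) .nil)) .nil)) .leaf) (nat_lit 26865889302274335)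 (.br (nat_lit 0) (.cons (.br (nat_lit 1) (.cons (.rel (nat_lit 37756944)) .nil)) .nil)) (.node .leaf (nat_lit 26865890646147228) (.br (nat_lit 0) (.cons (.br (nat_lit 2) (.cons (.rel (nat_lit 142614804)) .nil)) .nil)) .leaf))) (nat_lit 26865890646147999) (.br (nat_lit 0) (.cons (.br (nat_lit 2) (.cons (.rel (nat_lit 142614804)) .nil)) .nil)) (.node (.node (.node (.node .leaf (nat_lit 26865890646798612) (.br (nat_lit 0) (.cons (.br (nat_lit 2) (.cons (.rel (nat_lit 142677252)) .nil)) .nil)) .leaf) (nat_lit 26865890646799596) (.br (nat_lit 0) (.cons (.br (nat_lit 6) (.cons (.rel (nat_lit 17184325698)) .nil)) .nil)) .leaf) (nat_lit 26868864067891475) (.br (nat_lit 1) (.cons (.br (nat_lit 3) (.cons (.rel (nat_lit 285245520)) .nil)) .nil)) (.node .leaf (nat_lit 26871263251670278) (.br (nat_lit 1) (.cons (.br (nat_lit 2) (.cons (.rel (nat_lit 150995010)) .nil)) .nil)) .leaf)) (nat_lit 26871263252995598) (.br (nat_lit 0) (.cons (.br (nat_lit 2) (.cons (.rel (nat_lit 139722756)) .nil))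 .nil)) (.node (.node .leaf (nat_lit 26874016723734585) (.br (nat_lit 0) (.cons (.br (nat_lit 1) (.cons (.rel (nat_lit 41943360)) .nil)) .nil)) .leaf) (nat_lit 26874016724923628) (.br (nat_lit 0) (.cons (.br (nat_lit 1) (.cons (.rel (nat_lit 25198722)) (.cons (.rel (nat_lit 21331968)) (.cons (.rel (nat_lit 21331968)) (.cons (.rel (nat_lit 21331968)) (.cons (.rel (nat_lit 21254208)) .nil)))))) (.cons (.br (nat_lit 6) (.cons (.rel (nat_lit 17188520196)) (.cons (.rel (nat_lit 17188261968)) .nil))) .nil))) (.node .leaf (nat_lit 26874020622982030) (.br (nat_lit 6) (.cons (.br (nat_lit 2) (.cons (.rel (nat_lit 17314095108)) (.cons (.rel (nat_lit 17246980608)) (.cons (.rel (nat_lit 17247256584)) (.cons (.rel (nat_lit 17314095108)) .nil))))) .nil)) .leaf))))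

/-- refutations 110 -/
def e110 : EX := (.node (.node (.node .leaf (nat_lit 27391056775278767) (.br (nat_lit 1) (.cons (.br (nat_lit 2) (.cons (.rel (nat_lit 84940032)) .nil)) .nil)) .leaf) (nat_lit 27393272851193982) (.br (nat_lit 0) (.cons (.br (nat_lit 2) (.cons (.rel (nat_lit 138412041)) .nil)) .nil)) .leaf) (nat_lit 27393272977890682) (.br (nat_lit 3) (.cons (.br (nat_lit 4) (.cons (.rel (nat_lit 2684616720)) .nil)) .nil)) (.node .leaf (nat_lit 27393272979192465) (.br (nat_lit 0) (.cons (.br (nat_lit 5) (.cons (.rel (nat_lit 4299161634)) .nil)) .nil)) .leaf))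

/-- list of the parts -/
def L0 : List (ℕ × List ℕ) := [(nat_lit 0x10000, [Nat.sub (Nat.pow 2 754) (Nat.pow 2 0), Nat.sub (Nat.pow 2 1565) (Nat.pow 2 754), Nat.sub (Nat.pow 2 3136) (Nat.pow 2 1565)]),
  (nat_lit 0x8000, [cP]),
  (nat_lit 0x40000000, [cP]),
  (nat_lit 0x80000000, [cP]),
  (nat_lit 0x800000000, [Nat.sub (Nat.pow 2 185) (Nat.pow 2 0), Nat.sub (Nat.pow 2 691) (Nat.pow 2 185), Nat.sub (Nat.pow 2 891) (Nat.pow 2 691), Nat.sub (Nat.pow 2 1286) (Nat.pow 2 891), Nat.sub (Nat.pow 2 1559) (Nat.pow 2 1286), Nat.sub (Nat.pow 2 3136) (Nat.pow 2 1559)]),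
  (nat_lit 0x100000400000000, [cP]),
  (nat_lit 0x800000000000000, [cP]),
  (nat_lit 0x8000000000000000000000000000000000, [Nat.sub (Nat.pow 2 681) (Nat.pow 2 0), Nat.sub (Nat.pow 2 929) (Nat.pow 2 681), Nat.sub (Nat.pow 2 3136) (Nat.pow 2 929)]),
  (nat_lit 0x400000000000000000000000000000000000000, [Nat.sub (Nat.pow 2 654) (Nat.pow 2 0), Nat.sub (Nat.pow 2 890) (Nat.pow 2 654), Nat.sub (Nat.pow 2 3136) (Nat.pow 2 890)]),
  (nat_lit 0x200200000000000000000000000000000000, [cP]),
  (nat_lit 0x10000000000000000000000000000000000000000, [cP]),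
  (nat_lit 0x1000000000000000000000000000000000000000000000, [Nat.sub (Nat.pow 2 754) (Nat.pow 2 0), Nat.sub (Nat.pow 2 1554) (Nat.pow 2 754), Nat.sub (Nat.pow 2 3136) (Nat.pow 2 1554)]),
  (nat_lit 0x400000000000000000000000000000000000000000, [cP]),
  (nat_lit 0x800000000000000000000000000000000000000000000000, [Nat.sub (Nat.pow 2 60) (Nat.pow 2 0), Nat.sub (Nat.pow 2 266) (Nat.pow 2 60), Nat.sub (Nat.pow 2 654) (Nat.pow 2 266), Nat.sub (Nat.pow 2 754) (Nat.pow 2 654), Nat.sub (Nat.pow 2 791) (Nat.pow 2 754), Nat.sub (Nat.pow 2 929) (Nat.pow 2 791), Nat.sub (Nat.pow 2 1265) (Nat.pow 2 929), Nat.sub (Nat.pow 2 1406) (Nat.pow 2 1265), Nat.sub (Nat.pow 2 1561) (Nat.pow 2 1406), Nat.sub (Nat.pow 2 3136) (Nat.pow 2 1561)]),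
  (nat_lit 0x4000000000000000000000000000000000000000000000000000000000000000, [Nat.sub (Nat.pow 2 754) (Nat.pow 2 0), Nat.sub (Nat.pow 2 929) (Nat.pow 2 754), Nat.sub (Nat.pow 2 1559) (Nat.pow 2 929), Nat.sub (Nat.pow 2 3136) (Nat.pow 2 1559)]),
  (nat_lit 0x10000000000000000000000000000000000000000000000, [cP]),
  (nat_lit 0x8000000000000000000000000000000000000000000000000000000000000000, [cP]),
  (nat_lit 0x80000000000000000000000000000000000000000000000000000000000000000, [cP]),
  (nat_lit 0x10000000000000000000000000000000000000000000000000000000000000000000000, [cP]),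
  (nat_lit 0x8000000000000000000000000000000000000000000000000000000000000000000000000, [Nat.sub (Nat.pow 2 791) (Nat.pow 2 0), Nat.sub (Nat.pow 2 3136) (Nat.pow 2 791)]),
  (nat_lit 0x2000000000000000000000000000000000000000000000000000000000000000000000000, [cP]),
  (nat_lit 0x20000000000000000000000000000000000000000000000000000000000000000000000000000, [cP]),
  (nat_lit 0x400000000000000000000000000000000000000000000000000000000000000000000000000000000000000000000000000000000000000000000000000000000000000000000000000000000000000, [Nat.sub (Nat.pow 2 791) (Nat.pow 2 0), Nat.sub (Nat.pow 2 3136) (Nat.pow 2 791)]),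
  (nat_lit 0x20000000000000000000000000000000000000000000000000000000000000000000000000000000000000000000000000000000000000000000000000000000000000000000000000000000000000000, [Nat.sub (Nat.pow 2 691) (Nat.pow 2 0), Nat.sub (Nat.pow 2 1279) (Nat.pow 2 691), Nat.sub (Nat.pow 2 3136) (Nat.pow 2 1279)]),
  (nat_lit 0x80000000000000000000000000000000000000000000000000000000000000000000000000000000000000000000000000000000000000000000000000000000000000000000000000000000000000000000, [Nat.sub (Nat.pow 2 786) (Nat.pow 2 0), Nat.sub (Nat.pow 2 3136) (Nat.pow 2 786)]),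
  (nat_lit 0x800000000000000000000000000000000000000000000000000000000000000000000000000000, [cP]),
  (nat_lit 0x80000000000000000000000000000000000000000000000000000000000000000000000000000000000000000000000000000000000000000000000000000000000000000000000000000000000000000000000000, [Nat.sub (Nat.pow 2 635) (Nat.pow 2 0), Nat.sub (Nat.pow 2 1260) (Nat.pow 2 635), Nat.sub (Nat.pow 2 3136) (Nat.pow 2 1260)]),
  (nat_lit 0x40000000000000000000000000000000000000000000000000000000000000000000000000000000000000000000000000000000000000000000000000000000000000000000000000000000000000000000000, [cP]),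
  (nat_lit 0x400000000000000000000000000000000000000000000000000000000000000000000000000000000000000000000000000000000000000000000000000000000000000000000000000000000000000000000000000000000000000000000, [cP]),
  (nat_lit 0x2000000000000000000000000000000000000000000000000000000000000000000000000000000000000000000000000000000000000000000000000000000000000000000000000000000000000000000000000000000000000000000000000000000000, [Nat.sub (Nat.pow 2 806) (Nat.pow 2 0), Nat.sub (Nat.pow 2 1565) (Nat.pow 2 806), Nat.sub (Nat.pow 2 3136) (Nat.pow 2 1565)]),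
  (nat_lit 0x1000000000000000000000000000000000000000000000000000000000000000000000000000000000000000000000000000000000000000000000000000000000000000000000000000000000000000000000000000000000000000000000, [cP]),
  (nat_lit 0x80000000000000000000000000000000000000000000000000000000000000000000000000000000000000000000000000000000000000000000000000000000000000000000000000000000000000000000000000000000000000000000000000000000000, [cP]),
  (nat_lit 0x20000000000000000000000000000000000000000000000000000000000000000000000000000000000000000000000000000000000000000000000000000000000000000000000000000000000000000000000000000000000000000000000000000000000000000000000000000, [cP]),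
  (nat_lit 0x2000000000000000000000000000000000000000000000000000000000000000000000000000000000000000000000000000000000000000000000000000000000000000000000000000000000000000000000000000000000000000000000000000000000000000000000000000000, [Nat.sub (Nat.pow 2 890) (Nat.pow 2 0), Nat.sub (Nat.pow 2 3136) (Nat.pow 2 890)]),
  (nat_lit 0x100000000000000000000000000000000000000000000000000000000000000000000000000000000000000000000000000000000000000000000000000000000000000000000000000000000000000000000000000000000000000000000000000000000000000000000000000000, [cP]),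
  (nat_lit 0x400000000000000000000000000000000000000000000000000000000000000000000000000000000000000000000000000000000000000000000000000000000000000000000000000000000000000000000000000000000000000000000000000000000000000000000000000000000000, [Nat.sub (Nat.pow 2 754) (Nat.pow 2 0), Nat.sub (Nat.pow 2 1559) (Nat.pow 2 754), Nat.sub (Nat.pow 2 3136) (Nat.pow 2 1559)]),
  (nat_lit 0x20000000000000000000000000000000000000000000000000000000000000000000000000000000000000000000000000000000000000000000000000000000000000000000000000000000000000000000000000000000000000000000000000000000000000000000000000000000000, [cP]),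
  (nat_lit 0x800000000000000000000000000000000000000000000000000000000000000000000000000000000000000000000000000000000000000000000000000000000000000000000000000000000000000000000000000000000000000000000000000000000000000000000000000000000000, [cP]),
  (nat_lit 0x40000000000000000000000000000000000000000000000000000000000000000000000000000000000000000000000000000000000000000000000000000000000000000000000000000000000000000000000000000000000000000000000000000000000000000000000000000000000000000000000000000000000000000000000000000000000000000000000000000000000000000000000000, [Nat.sub (Nat.pow 2 686) (Nat.pow 2 0), Nat.sub (Nat.pow 2 3136) (Nat.pow 2 686)]),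
  (nat_lit 0x100000000000000000000000000000000000000000000000000000000000000000000000000000000000000000000000000000000000000000000000000000000000000000000000000000000000000000000000000000000000000000000000000000000000000000000000000000000000000000000000000000000000000000000000000000000000000000000000000000000000000000000000000, [Nat.sub (Nat.pow 2 659) (Nat.pow 2 0), Nat.sub (Nat.pow 2 1565) (Nat.pow 2 659), Nat.sub (Nat.pow 2 3136) (Nat.pow 2 1565)]),
  (nat_lit 0x80000000000000000000000000000000000000000000000000000000000000000000000000000000000000000000000000000000000000000000000000000000000000000000000000000000000000000000000000000000000000000000000000000000000000000000000000000000000000000, [cP]),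
  (nat_lit 0x800000000000000000000000000000000000000000000000000000000000000000000000000000000000000000000000000000000000000000000000000000000000000000000000000000000000000000000000000000000000000000000000000000000000000000000000000000000000000000000000000000000000000000000000000000000000000000000000000000000000000000000000000, [cP]),
  (nat_lit 0x2000000000000000000000000000000000000000000000000000000000000000000000000000000000000000000000000000000000000000000000000000000000000000000000000000000000000000000000000000000000000000000000000000000000000000000000000000000000000000000000000000000000000000000000000000000000000000000000000000000000000000000000000000, [cP]),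
  (nat_lit 0x4000000000000000000000000000000000000000000000000000000000000000000000000000000000000000000000000000000000000000000000000000000000000000000000000000000000000000000000000000000000000000000000000000000000000000000000000000000000000000000000000000000000000000000000000000000000000000000000000000000000000000000000000000000000, [cP]),
  (nat_lit 0x100000000000000000000000000000000000000000000000000000000000000000000000000000000000000000000000000000000000000000000000000000000000000000000000000000000000000000000000000000000000000000000000000000000000000000000000000000000000000000000000000000000000000000000000000000000000000000000000000000000000000000000000000000000000000, [Nat.sub (Nat.pow 2 304) (Nat.pow 2 0), Nat.sub (Nat.pow 2 765) (Nat.pow 2 304), Nat.sub (Nat.pow 2 1279) (Nat.pow 2 765), Nat.sub (Nat.pow 2 3136) (Nat.pow 2 1279)]),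
  (nat_lit 0x8000000000000000000000000000000000000000000000000000000000000000000000000000000000000000000000000000000000000000000000000000000000000000000000000000000000000000000000000000000000000000000000000000000000000000000000000000000000000000000000000000000000000000000000000000000000000000000000000000000000000000000000000000000000000000, [Nat.sub (Nat.pow 2 906) (Nat.pow 2 0), Nat.sub (Nat.pow 2 3136) (Nat.pow 2 906)]),
  (nat_lit 0x40000000000000000000000000000000000000000000000000000000000000000000000000000000000000000000000000000000000000000000000000000000000000000000000000000000000000000000000000000000000000000000000000000000000000000000000000000000000000000000000000000000000000000000000000000000000000000000000000000000000000000000000000000000000, [cP]),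
  (nat_lit 0x80000000000000000000000000000000000000000000000000000000000000000000000000000000000000000000000000000000000000000000000000000000000000000000000000000000000000000000000000000000000000000000000000000000000000000000000000000000000000000000000000000000000000000000000000000000000000000000000000000000000000000000000000000000000000000000000000000000000000000, [Nat.sub (Nat.pow 2 765) (Nat.pow 2 0), Nat.sub (Nat.pow 2 3136) (Nat.pow 2 765)]),
  (nat_lit 0x8000000000000000000000000000000000000000000000000000000000000000000000000000000000000000000000000000000000000000000000000000000000000000000000000000000000000000000000000000000000000000000000000000000000000000000000000000000000000000000000000000000000000000000000000000000000000000000000000000000000000000000000000000000000000000000000000000000000000000000000, [Nat.sub (Nat.pow 2 659) (Nat.pow 2 0), Nat.sub (Nat.pow 2 3136) (Nat.pow 2 659)]),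
  (nat_lit 0x40000000000000000000000000000000000000000000000000000000000000000000000000000000000000000000000000000000000000000000000000000000000000000000000000000000000000000000000000000000000000000000000000000000000000000000000000000000000000000000000000000000000000000000000000000000000000000000000000000000000000000000000000000000000000000000000000000000000000000, [cP]),
  (nat_lit 0x2000000000000000000000000000000000000000000000000000000000000000000000000000000000000000000000000000000000000000000000000000000000000000000000000000000000000000000000000000000000000000000000000000000000000000000000000000000000000000000000000000000000000000000000000000000000000000000000000000000000000000000000000000000000000000000000000000000000000000000000000, [Nat.sub (Nat.pow 2 780) (Nat.pow 2 0), Nat.sub (Nat.pow 2 3136) (Nat.pow 2 780)]),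
  (nat_lit 0x800000000000000000000000000000000000000000000000000000000000000000000000000000000000000000000000000000000000000000000000000000000000000000000000000000000000000000000000000000000000000000000000000000000000000000000000000000000000000000000000000000000000000000000000000000000000000000000000000000000000000000000000000000000000000000000000000000000000000000000000000000000000000000, [Nat.sub (Nat.pow 2 810) (Nat.pow 2 0), Nat.sub (Nat.pow 2 3136) (Nat.pow 2 810)]),
  (nat_lit 0x40000000000000000000000000000000000000000000000000000000000000000000000000000000000000000000000000000000000000000000000000000000000000000000000000000000000000000000000000000000000000000000000000000000000000000000000000000000000000000000000000000000000000000000000000000000000000000000000000000000000000000000000000000000000000000000000000000000000000000000000, [cP]),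
  (nat_lit 0x8000000000000000000000000000000000000000000000000000000000000000000000000000000000000000000000000000000000000000000000000000000000000000000000000000000000000000000000000000000000000000000000000000000000000000000000000000000000000000000000000000000000000000000000000000000000000000000000000000000000000000000000000000000000000000000000000000000000000000000000000000000000000000000, [cP]),
  (nat_lit 0x10000000000000000000000000000000000000000000000000000000000000000000000000000000000000000000000000000000000000000000000000000000000000000000000000000000000000000000000000000000000000000000000000000000000000000000000000000000000000000000000000000000000000000000000000000000000000000000000000000000000000000000000000000000000000000000000000000000000000000000000000000000000000000000, [cP]),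
  (nat_lit 0x20000000000000000000000000000000000000000000000000000000000000000000000000000000000000000000000000000000000000000000000000000000000000000000000000000000000000000000000000000000000000000000000000000000000000000000000000000000000000000000000000000000000000000000000000000000000000000000000000000000000000000000000000000000000000000000000000000000000000000000000000000000000000000000000000, [Nat.sub (Nat.pow 2 654) (Nat.pow 2 0), Nat.sub (Nat.pow 2 1256) (Nat.pow 2 654), Nat.sub (Nat.pow 2 3136) (Nat.pow 2 1256)]),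
  (nat_lit 0x1000000000000000000000000000000000000000000000000000000000000000000000000000000000000000000000000000000000000000000000000000000000000000000000000000000000000000000000000000000000000000000000000000000000000000000000000000000000000000000000000000000000000000000000000000000000000000000000000000000000000000000000000000000000000000000000000000000000000000000000000000000000000000000000000000000, [Nat.sub (Nat.pow 2 691) (Nat.pow 2 0), Nat.sub (Nat.pow 2 1561) (Nat.pow 2 691), Nat.sub (Nat.pow 2 3136) (Nat.pow 2 1561)]),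
  (nat_lit 0x80000000000000000000000000000000000000000000000000000000000000000000000000000000000000000000000000000000000000000000000000000000000000000000000000000000000000000000000000000000000000000000000000000000000000000000000000000000000000000000000000000000000000000000000000000000000000000000000000000000000000000000000000000000000000000000000000000000000000000000000000000000000000000000000, [cP]),
  (nat_lit 0x2000000000000000000000000000000000000000000000000000000000000000000000000000000000000000000000000000000000000000000000000000000000000000000000000000000000000000000000000000000000000000000000000000000000000000000000000000000000000000000000000000000000000000000000000000000000000000000000000000000000000000000000000000000000000000000000000000000000000000000000000000000000000000000000000000000, [cP])]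

theorem hp0 : ∀ p ∈ L0, ∀ D2 ∈ p.2, ∃ e,
    search ext94 (Pool.Agent.H74.EGZ.vio sb) G Uc A0 p.1 D2 e = true :=
  (List.forall_mem_cons.2 ⟨(List.forall_mem_cons.2 ⟨⟨e0, by decide +kernel⟩,
  (List.forall_mem_cons.2 ⟨⟨e1, by decide +kernel⟩,
  (List.forall_mem_singleton.2 ⟨.leaf, by decide +kernel⟩)⟩)⟩),
  (List.forall_mem_cons.2 ⟨(List.forall_mem_singleton.2 ⟨e3, by decide +kernel⟩),
  (List.forall_mem_cons.2 ⟨(List.forall_mem_singleton.2 ⟨e4, by decide +kernel⟩),
  (List.forall_mem_cons.2 ⟨(List.forall_mem_singleton.2 ⟨e5, by decide +kernel⟩),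
  (List.forall_mem_cons.2 ⟨(List.forall_mem_cons.2 ⟨⟨e6, by decide +kernel⟩,
  (List.forall_mem_cons.2 ⟨⟨e7, by decide +kernel⟩,
  (List.forall_mem_cons.2 ⟨⟨e8, by decide +kernel⟩,
  (List.forall_mem_cons.2 ⟨⟨e9, by decide +kernel⟩,
  (List.forall_mem_cons.2 ⟨⟨e10, by decide +kernel⟩,
  (List.forall_mem_singleton.2 ⟨.leaf, by decide +kernel⟩)⟩)⟩)⟩)⟩)⟩),
  (List.forall_mem_cons.2 ⟨(List.forall_mem_singleton.2 ⟨e12, by decide +kernel⟩),
  (List.forall_mem_cons.2 ⟨(List.forall_mem_singleton.2 ⟨e13, by decide +kernel⟩),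
  (List.forall_mem_cons.2 ⟨(List.forall_mem_cons.2 ⟨⟨e14, by decide +kernel⟩,
  (List.forall_mem_cons.2 ⟨⟨e15, by decide +kernel⟩,
  (List.forall_mem_singleton.2 ⟨e16, by decide +kernel⟩)⟩)⟩),
  (List.forall_mem_cons.2 ⟨(List.forall_mem_cons.2 ⟨⟨e17, by decide +kernel⟩,
  (List.forall_mem_cons.2 ⟨⟨e18, by decide +kernel⟩,
  (List.forall_mem_singleton.2 ⟨e19, by decide +kernel⟩)⟩)⟩),
  (List.forall_mem_cons.2 ⟨(List.forall_mem_singleton.2 ⟨e20, by decide +kernel⟩),
  (List.forall_mem_cons.2 ⟨(List.forall_mem_singleton.2 ⟨.leaf, by decide +kernel⟩),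
  (List.forall_mem_cons.2 ⟨(List.forall_mem_cons.2 ⟨⟨e22, by decide +kernel⟩,
  (List.forall_mem_cons.2 ⟨⟨e23, by decide +kernel⟩,
  (List.forall_mem_singleton.2 ⟨e24, by decide +kernel⟩)⟩)⟩),
  (List.forall_mem_cons.2 ⟨(List.forall_mem_singleton.2 ⟨e25, by decide +kernel⟩),
  (List.forall_mem_cons.2 ⟨(List.forall_mem_cons.2 ⟨⟨e26, by decide +kernel⟩,
  (List.forall_mem_cons.2 ⟨⟨e27, by decide +kernel⟩,
  (List.forall_mem_cons.2 ⟨⟨e28, by decide +kernel⟩,
  (List.forall_mem_cons.2 ⟨⟨e29, by decide +kernel⟩,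
  (List.forall_mem_cons.2 ⟨⟨e30, by decide +kernel⟩,
  (List.forall_mem_cons.2 ⟨⟨e31, by decide +kernel⟩,
  (List.forall_mem_cons.2 ⟨⟨e32, by decide +kernel⟩,
  (List.forall_mem_cons.2 ⟨⟨e33, by decide +kernel⟩,
  (List.forall_mem_cons.2 ⟨⟨e34, by decide +kernel⟩,
  (List.forall_mem_singleton.2 ⟨e35, by decide +kernel⟩)⟩)⟩)⟩)⟩)⟩)⟩)⟩)⟩)⟩),
  (List.forall_mem_cons.2 ⟨(List.forall_mem_cons.2 ⟨⟨e36, by decide +kernel⟩,
  (List.forall_mem_cons.2 ⟨⟨e37, by decide +kernel⟩,
  (List.forall_mem_cons.2 ⟨⟨e38, by decide +kernel⟩,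
  (List.forall_mem_singleton.2 ⟨.leaf, by decide +kernel⟩)⟩)⟩)⟩),
  (List.forall_mem_cons.2 ⟨(List.forall_mem_singleton.2 ⟨e40, by decide +kernel⟩),
  (List.forall_mem_cons.2 ⟨(List.forall_mem_singleton.2 ⟨e41, by decide +kernel⟩),
  (List.forall_mem_cons.2 ⟨(List.forall_mem_singleton.2 ⟨e42, by decide +kernel⟩),
  (List.forall_mem_cons.2 ⟨(List.forall_mem_singleton.2 ⟨e43, by decide +kernel⟩),
  (List.forall_mem_cons.2 ⟨(List.forall_mem_cons.2 ⟨⟨e44, by decide +kernel⟩,
  (List.forall_mem_singleton.2 ⟨e45, by decide +kernel⟩)⟩),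
  (List.forall_mem_cons.2 ⟨(List.forall_mem_singleton.2 ⟨.leaf, by decide +kernel⟩),
  (List.forall_mem_cons.2 ⟨(List.forall_mem_singleton.2 ⟨e47, by decide +kernel⟩),
  (List.forall_mem_cons.2 ⟨(List.forall_mem_cons.2 ⟨⟨e48, by decide +kernel⟩,
  (List.forall_mem_singleton.2 ⟨e49, by decide +kernel⟩)⟩),
  (List.forall_mem_cons.2 ⟨(List.forall_mem_cons.2 ⟨⟨e50, by decide +kernel⟩,
  (List.forall_mem_cons.2 ⟨⟨e51, by decide +kernel⟩,
  (List.forall_mem_singleton.2 ⟨e52, by decide +kernel⟩)⟩)⟩),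
  (List.forall_mem_cons.2 ⟨(List.forall_mem_cons.2 ⟨⟨e53, by decide +kernel⟩,
  (List.forall_mem_singleton.2 ⟨e54, by decide +kernel⟩)⟩),
  (List.forall_mem_cons.2 ⟨(List.forall_mem_singleton.2 ⟨e55, by decide +kernel⟩),
  (List.forall_mem_cons.2 ⟨(List.forall_mem_cons.2 ⟨⟨e56, by decide +kernel⟩,
  (List.forall_mem_cons.2 ⟨⟨e57, by decide +kernel⟩,
  (List.forall_mem_singleton.2 ⟨e58, by decide +kernel⟩)⟩)⟩),
  (List.forall_mem_cons.2 ⟨(List.forall_mem_singleton.2 ⟨e59, by decide +kernel⟩),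
  (List.forall_mem_cons.2 ⟨(List.forall_mem_singleton.2 ⟨e60, by decide +kernel⟩),
  (List.forall_mem_cons.2 ⟨(List.forall_mem_cons.2 ⟨⟨e61, by decide +kernel⟩,
  (List.forall_mem_cons.2 ⟨⟨e62, by decide +kernel⟩,
  (List.forall_mem_singleton.2 ⟨.leaf, by decide +kernel⟩)⟩)⟩),
  (List.forall_mem_cons.2 ⟨(List.forall_mem_singleton.2 ⟨e64, by decide +kernel⟩),
  (List.forall_mem_cons.2 ⟨(List.forall_mem_singleton.2 ⟨e65, by decide +kernel⟩),
  (List.forall_mem_cons.2 ⟨(List.forall_mem_singleton.2 ⟨e66, by decide +kernel⟩),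
  (List.forall_mem_cons.2 ⟨(List.forall_mem_cons.2 ⟨⟨e67, by decide +kernel⟩,
  (List.forall_mem_singleton.2 ⟨e68, by decide +kernel⟩)⟩),
  (List.forall_mem_cons.2 ⟨(List.forall_mem_singleton.2 ⟨e69, by decide +kernel⟩),
  (List.forall_mem_cons.2 ⟨(List.forall_mem_cons.2 ⟨⟨e70, by decide +kernel⟩,
  (List.forall_mem_cons.2 ⟨⟨e71, by decide +kernel⟩,
  (List.forall_mem_singleton.2 ⟨e72, by decide +kernel⟩)⟩)⟩),
  (List.forall_mem_cons.2 ⟨(List.forall_mem_singleton.2 ⟨e73, by decide +kernel⟩),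
  (List.forall_mem_cons.2 ⟨(List.forall_mem_singleton.2 ⟨e74, by decide +kernel⟩),
  (List.forall_mem_cons.2 ⟨(List.forall_mem_cons.2 ⟨⟨e75, by decide +kernel⟩,
  (List.forall_mem_singleton.2 ⟨e76, by decide +kernel⟩)⟩),
  (List.forall_mem_cons.2 ⟨(List.forall_mem_cons.2 ⟨⟨e77, by decide +kernel⟩,
  (List.forall_mem_cons.2 ⟨⟨e78, by decide +kernel⟩,
  (List.forall_mem_singleton.2 ⟨.leaf, by decide +kernel⟩)⟩)⟩),
  (List.forall_mem_cons.2 ⟨(List.forall_mem_singleton.2 ⟨e80, by decide +kernel⟩),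
  (List.forall_mem_cons.2 ⟨(List.forall_mem_singleton.2 ⟨e81, by decide +kernel⟩),
  (List.forall_mem_cons.2 ⟨(List.forall_mem_singleton.2 ⟨e82, by decide +kernel⟩),
  (List.forall_mem_cons.2 ⟨(List.forall_mem_singleton.2 ⟨e83, by decide +kernel⟩),
  (List.forall_mem_cons.2 ⟨(List.forall_mem_cons.2 ⟨⟨e84, by decide +kernel⟩,
  (List.forall_mem_cons.2 ⟨⟨e85, by decide +kernel⟩,
  (List.forall_mem_cons.2 ⟨⟨e86, by decide +kernel⟩,
  (List.forall_mem_singleton.2 ⟨e87, by decide +kernel⟩)⟩)⟩)⟩),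
  (List.forall_mem_cons.2 ⟨(List.forall_mem_cons.2 ⟨⟨e88, by decide +kernel⟩,
  (List.forall_mem_singleton.2 ⟨e89, by decide +kernel⟩)⟩),
  (List.forall_mem_cons.2 ⟨(List.forall_mem_singleton.2 ⟨e90, by decide +kernel⟩),
  (List.forall_mem_cons.2 ⟨(List.forall_mem_cons.2 ⟨⟨e91, by decide +kernel⟩,
  (List.forall_mem_singleton.2 ⟨e92, by decide +kernel⟩)⟩),
  (List.forall_mem_cons.2 ⟨(List.forall_mem_cons.2 ⟨⟨e93, by decide +kernel⟩,
  (List.forall_mem_singleton.2 ⟨e94, by decide +kernel⟩)⟩),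
  (List.forall_mem_cons.2 ⟨(List.forall_mem_singleton.2 ⟨e95, by decide +kernel⟩),
  (List.forall_mem_cons.2 ⟨(List.forall_mem_cons.2 ⟨⟨e96, by decide +kernel⟩,
  (List.forall_mem_singleton.2 ⟨e97, by decide +kernel⟩)⟩),
  (List.forall_mem_cons.2 ⟨(List.forall_mem_cons.2 ⟨⟨e98, by decide +kernel⟩,
  (List.forall_mem_singleton.2 ⟨e99, by decide +kernel⟩)⟩),
  (List.forall_mem_cons.2 ⟨(List.forall_mem_singleton.2 ⟨e100, by decide +kernel⟩),
  (List.forall_mem_cons.2 ⟨(List.forall_mem_singleton.2 ⟨e101, by decide +kernel⟩),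
  (List.forall_mem_cons.2 ⟨(List.forall_mem_singleton.2 ⟨e102, by decide +kernel⟩),
  (List.forall_mem_cons.2 ⟨(List.forall_mem_cons.2 ⟨⟨e103, by decide +kernel⟩,
  (List.forall_mem_cons.2 ⟨⟨e104, by decide +kernel⟩,
  (List.forall_mem_singleton.2 ⟨e105, by decide +kernel⟩)⟩)⟩),
  (List.forall_mem_cons.2 ⟨(List.forall_mem_cons.2 ⟨⟨e106, by decide +kernel⟩,
  (List.forall_mem_cons.2 ⟨⟨e107, by decide +kernel⟩,
  (List.forall_mem_singleton.2 ⟨.leaf, by decide +kernel⟩)⟩)⟩),
  (List.forall_mem_cons.2 ⟨(List.forall_mem_singleton.2 ⟨e109, by decide +kernel⟩),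
  (List.forall_mem_singleton.2 (List.forall_mem_singleton.2 ⟨e110, by decide +kernel⟩))⟩)⟩)⟩)⟩)⟩)⟩)⟩)⟩)⟩)⟩)⟩)⟩)⟩)⟩)⟩)⟩)⟩)⟩)⟩)⟩)⟩)⟩)⟩)⟩)⟩)⟩)⟩)⟩)⟩)⟩)⟩)⟩)⟩)⟩)⟩)⟩)⟩)⟩)⟩)⟩)⟩)⟩)⟩)⟩)⟩)⟩)⟩)⟩)⟩)⟩)⟩)⟩)⟩)⟩)⟩)⟩)⟩)⟩)

end

end Pool.Agent.H21.EGZ.S19
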