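import Pool.Agent.H21.EGZ.D1

/-!
# Stage 1 : search, part 0
-/

set_option autoImplicit false
set_option maxRecDepth 100000

namespace Pool.Agent.H21.EGZ.S1

noncomputable section

open Pool.Agent.H74.EGZ Pool.Agent.H94.Lift

/-- refutations 0 -/
def e0 : EX := (.node (.node (.node (.node .leaf (nat_lit 89138296546806) (.br (nat_lit 1) (.cons (.br (nat_lit 3) (.cons (.rel (nat_lit 286261764)) .nil)) .nil)) .leaf) (nat_lit 89138297826181) (.br (nat_lit 0) (.cons (.br (nat_lit 2) (.cons (.rel (nat_lit 71305344)) .nil)) .nil)) .leaf) (nat_lit 90331760582791) (.br (nat_lit 1) (.cons (.br (nat_lit 2) (.cons (.rel (nat_lit 84217920)) .nil)) .nil)) (.node (.node .leaf (nat_lit 90367269560455) (.br (nat_lit 2) (.cons (.br (nat_lit 6) (.cons (.rel (nat_lit 17248108800)) .nil)) .nil)) .leaf) (nat_lit 90367269561632) (.br (nat_lit 1) (.cons (.br (nat_lit 6) (.cons (.rel (nat_lit 17196908625)) .nil)) .nil)) .leaf)) (nat_lit 94664334009232) (.br (nat_lit 1) (.cons (.br (nat_lit 2)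 (.cons (.rel (nat_lit 100664580)) .nil)) .nil)) (.node (.node (.node .leaf (nat_lit 94678267486343) (.br (nat_lit 2) (.cons (.br (nat_lit 4) (.cons (.rel (nat_lit 1140932736)) .nil)) .nil)) .leaf) (nat_lit 94681509683335) (.br (nat_lit 6) (.cons (.br (nat_lit 1) (.cons (.rel (nat_lit 34376519712)) (.cons (.rel (nat_lit 17197761792)) (.cons (.rel (nat_lit 17197711617)) .nil)))) .nil)) .leaf) (nat_lit 94681509683511) (.br (nat_lit 1) (.cons (.br (nat_lit 2) (.cons (.rel (nat_lit 151028736)) .nil)) .nil)) (.node .leaf (nat_lit 94684764463239) (.br (nat_lit 1) (.cons (.br (nat_lit 3) (.cons (.rel (nat_lit 286331904)) .nil)) .nil)) .leaf)))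

/-- refutations 1 -/
def e1 : EX := (.node (.node (.node .leaf (nat_lit 95480377795472) (.br (nat_lit 0) (.cons (.br (nat_lit 1) (.cons (.rel (nat_lit 23330817)) .nil)) .nil)) .leaf) (nat_lit 95970629017731) (.br (nat_lit 0) (.cons (.br (nat_lit 2) (.cons (.rel (nat_lit 72385536)) .nil)) .nil)) .leaf) (nat_lit 101069715693703) (.br (nat_lit 2) (.cons (.br (nat_lit 3) (.cons (.rel (nat_lit 335822928)) .nil)) .nil)) (.node .leaf (nat_lit 101324783902855) (.br (nat_lit 1) (.cons (.br (nat_lit 3) (.cons (.rel (nat_lit 286261764)) .nil)) .nil)) .leaf))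

/-- refutations 2 -/
def e2 : EX := (.node (.node .leaf (nat_lit 213482872350750) (.br (nat_lit 0) (.cons (.br (nat_lit 1) (.cons (.rel (nat_lit 21004416)) .nil)) .nil)) .leaf) (nat_lit 213483580819591) (.br (nat_lit 1) (.cons (.br (nat_lit 2) (.cons (.rel (nat_lit 84217920)) .nil)) .nil)) .leaf)

/-- refutations 4 -/
def e4 : EX := (.node (.node (.node (.node .leaf (nat_lit 527817167077431) (.br (nat_lit 0) (.cons (.br (nat_lit 2) (.cons (.rel (nat_lit 71566401)) .nil)) .nil)) .leaf) (nat_lit 527817167078011) (.br (nat_lit 0) (.cons (.br (nat_lit 5) (.cons (.rel (nat_lit 4299162240)) .nil)) .nil)) .leaf) (nat_lit 527817167078177) (.br (nat_lit 0) (.cons (.br (nat_lit 1) (.cons (.rel (nat_lit 26218560)) .nil)) .nil)) (.node .leaf (nat_lit 527817772441053) (.br (nat_lit 1) (.cons (.br (nat_lit 2) (.cons (.rel (nat_lit 151126017)) .nil)) .nil)) .leaf)) (nat_lit 527817772618033) (.br (nat_lit 0) (.cons (.br (nat_lit 4) (.cons (.rel (nat_lit 2151683076)) .nil)) .nil)) (.node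 (.node .leaf (nat_lit 527817774256263) (.br (nat_lit 1) (.cons (.br (nat_lit 2) (.cons (.rel (nat_lit 84476160)) .nil)) .nil)) .leaf) (nat_lit 527818389263611) (.br (nat_lit 0) (.cons (.br (nat_lit 3) (.cons (.rel (nat_lit 278134800)) .nil)) .nil)) (.node .leaf (nat_lit 529372551075293) (.br (nat_lit 1) (.cons (.br (nat_lit 3) (.cons (.rel (nat_lit 570425412)) .nil)) .nil)) .leaf)))

/-- refutations 5 -/
def e5 : EX := (.node (.node .leaf (nat_lit 535754268539185) (.br (nat_lit 0) (.cons (.br (nat_lit 5) (.cons (.rel (nat_lit 4299162240)) .nil)) .nil)) .leaf) (nat_lit 535754268539782) (.br (nat_lit 1) (.cons (.br (nat_lit 2) (.cons (.rel (nat_lit 151126017)) .nil)) .nil)) (.node .leaf (nat_lit 535754268540407) (.br (nat_lit 0) (.cons (.br (nat_lit 3) (.cons (.rel (nat_lit 272646273)) .nil)) .nil)) .leaf))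

/-- refutations 6 -/
def e6 : EX := (.node .leaf (nat_lit 546520685650055) (.br (nat_lit 0) (.cons (.br (nat_lit 1) (.cons (.rel (nat_lit 42210336)) .nil)) .nil)) .leaf)

/-- refutations 7 -/
def e7 : EX := (.node (.node .leaf (nat_lit 558692622966919) (.br (nat_lit 1) (.cons (.br (nat_lit 5) (.cons (.rel (nat_lit 4312940544)) .nil)) .nil)) .leaf) (nat_lit 558758739306631) (.br (nat_lit 0) (.cons (.br (nat_lit 1) (.cons (.rel (nat_lit 22038528)) .nil)) .nil)) .leaf)

/-- refutations 8 -/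
def e8 : EX := (.node (.node .leaf (nat_lit 569455931349777) (.br (nat_lit 1) (.cons (.br (nat_lit 2) (.cons (.rel (nat_lit 84940800)) .nil)) .nil)) .leaf) (nat_lit 569702301821828) (.br (nat_lit 1) (.cons (.br (nat_lit 3) (.cons (.rel (nat_lit 286261764)) .nil)) .nil)) .leaf)

/-- refutations 9 -/
def e9 : EX := (.node (.node .leaf (nat_lit 570956431040674) (.br (nat_lit 0) (.cons (.br (nat_lit 3) (.cons (.rel (nat_lit 272896068)) .nil)) .nil)) .leaf) (nat_lit 576265013230378) (.br (nat_lit 1) (.cons (.br (nat_lit 3) (.cons (.rel (nat_lit 570425412)) .nil)) .nil)) .leaf)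

/-- refutations 10 -/
def e10 : EX := (.node (.node (.node (.node .leaf (nat_lit 615778076338428) (.br (nat_lit 5) (.cons (.br (nat_lit 1) (.cons (.rel (nat_lit 8623522881)) (.cons (.rel (nat_lit 4312794114)) .nil))) .nil)) .leaf) (nat_lit 615778076338838) (.br (nat_lit 0) (.cons (.br (nat_lit 1) (.cons (.rel (nat_lit 41959488)) .nil)) .nil)) .leaf) (nat_lit 615778078247092) (.br (nat_lit 0) (.cons (.br (nat_lit 2) (.cons (.rel (nat_lit 73416768)) .nil)) .nil)) (.node .leaf (nat_lit 615781847062663) (.br (nat_lit 0) (.cons (.br (nat_lit 2) (.cons (.rel (nat_lit 71305344)) .nil)) .nil)) .leaf)) (nat_lit 615781956115064) (.br (nat_lit 0) (.cons (.br (nat_lit 2) (.cons (.rel (nat_lit 71305344)) .nil)) .nil)) (.node (.node (.node .leaf (nat_lit 615781958938077) (.br (nat_lit 2) (.cons (.br (nat_lit 6) (.cons (.rel (nat_lit 17314103298)) .nil)) .nil)) .leaf) (nat_lit 616854652184836) (.br (nat_lit 0) (.cons (.br (nat_lit 1) (.cons (.rel (nat_lit 25170180)) .nil)) .nil))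 .leaf) (nat_lit 616857040117013) (.br (nat_lit 0) (.cons (.br (nat_lit 2) (.cons (.rel (nat_lit 75534336)) .nil)) .nil)) (.node .leaf (nat_lit 616886890977415) (.br (nat_lit 0) (.cons (.br (nat_lit 1) (.cons (.rel (nat_lit 41959488)) .nil)) .nil)) .leaf)))

/-- refutations 11 -/
def e11 : EX := (.node (.node (.node (.node (.node .leaf (nat_lit 618321342945415) (.br (nat_lit 2) (.cons (.br (nat_lit 3) (.cons (.rel (nat_lit 603987984)) (.cons (.rel (nat_lit 402653445)) (.cons (.rel (nat_lit 402657312)) .nil)))) (.cons (.br (nat_lit 3) (.cons (.rel (nat_lit 336625920)) (.cons (.rel (nat_lit 336134160)) (.cons (.rel (nat_lit 336134160)) .nil)))) .nil))) .leaf) (nat_lit 618321342946211) (.br (nat_lit 0) (.cons (.br (nat_lit 3) (.cons (.rel (nat_lit 273686784)) .nil)) .nil)) .leaf) (nat_lit 618321343146864) (.br (nat_lit 1) (.cons (.br (nat_lit 2) (.cons (.rel (nat_lit 101712960)) .nil)) .nil)) (.node .leaf (nat_lit 618321343146886) (.br (nat_lit 1) (.cons (.br (nat_lit 3)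 (.cons (.rel (nat_lit 285212808)) .nil)) .nil)) .leaf)) (nat_lit 618321343209528) (.br (nat_lit 4) (.cons (.br (nat_lit 1) (.cons (.rel (nat_lit 1091060736)) (.cons (.rel (nat_lit 2164343040)) (.cons (.rel (nat_lit 1091569665)) .nil)))) .nil)) (.node (.node (.node .leaf (nat_lit 618321343209607) (.br (nat_lit 2) (.cons (.br (nat_lit 5) (.cons (.br (nat_lit 1) (.cons (.rel (nat_lit 4312285185)) (.cons (.rel (nat_lit 4446228480)) .nil))) .nil)) .nil)) .leaf) (nat_lit 618321344702599) (.br (nat_lit 5) (.cons (.br (nat_lit 6) (.cons (.rel (nat_lit 21475362816)) .nil)) .nil)) .leaf) (nat_lit 618321346078855) (.br (nat_lit 1) (.cons (.br (nat_lit 5) (.cons (.rel (nat_lit 4311748740)) (.cons (.rel (nat_lit 4328521761)) (.cons (.rel (nat_lit 4311748740)) .nil)))) .nil)) (.node .leaf (nat_lit 618321346089016) (.br (nat_lit 1) (.cons (.br (nat_lit 2) (.cons (.rel (nat_lit 86262276)) .nil)) .nil)) .leaf))) (nat_lit 622255532988551) (.br (nat_lit 1) (.cons (.br (nat_lit 3) (.cons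 (.rel (nat_lit 286278912)) .nil)) .nil)) (.node (.node (.node (.node .leaf (nat_lit 622398813546631) (.br (nat_lit 0) (.cons (.br (nat_lit 1) (.cons (.rel (nat_lit 37752849)) .nil)) .nil)) .leaf) (nat_lit 622473517687561) (.br (nat_lit 0) (.cons (.br (nat_lit 3) (.cons (.rel (nat_lit 272696448)) .nil)) .nil)) .leaf) (nat_lit 623246609275041) (.br (nat_lit 0) (.cons (.br (nat_lit 2) (.cons (.rel (nat_lit 72368388)) .nil)) .nil)) (.node .leaf (nat_lit 623246609276381) (.br (nat_lit 1) (.cons (.br (nat_lit 2) (.cons (.rel (nat_lit 84940800)) (.cons (.rel (nat_lit 84940800)) .nil))) (.cons (.br (nat_lit 2) (.cons (.rel (nat_lit 100681728)) (.cons (.rel (nat_lit 150999312)) .nil))) .nil))) .leaf)) (nat_lit 623246612097159) (.br (nat_lit 0) (.cons (.br (nat_lit 4) (.cons (.rel (nat_lit 1077940608)) (.cons (.rel (nat_lit 2151683076)) .nil))) .nil)) (.node (.node .leaf (nat_lit 623246612097656) (.br (nat_lit 0) (.cons (.br (nat_lit 1) (.cons (.rel (nat_lit 42270720)) (.cons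 (.rel (nat_lit 25231617)) .nil))) (.cons (.br (nat_lit 1) (.cons (.rel (nat_lit 22021380)) (.cons (.rel (nat_lit 42270720)) .nil))) .nil))) .leaf) (nat_lit 623248681261191) (.br (nat_lit 2) (.cons (.br (nat_lit 1) (.cons (.rel (nat_lit 100664580)) (.cons (.rel (nat_lit 150999312)) .nil))) .nil)) (.node .leaf (nat_lit 623248681261931) (.br (nat_lit 2) (.cons (.br (nat_lit 5) (.cons (.rel (nat_lit 4363190292)) .nil)) .nil)) .leaf))))

/-- refutations 12 -/
def e12 : EX := (.node (.node (.node .leaf (nat_lit 623458123831431) (.br (nat_lit 1) (.cons (.br (nat_lit 0) (.cons (.rel (nat_lit 42222612)) (.cons (.rel (nat_lit 41959488)) .nil))) .nil)) .leaf) (nat_lit 623693176821895) (.br (nat_lit 0) (.cons (.br (nat_lit 3) (.cons (.rel (nat_lit 272696448)) .nil)) .nil)) (.node .leaf (nat_lit 623693176821911) (.br (nat_lit 1) (.cons (.br (nat_lit 2) (.cons (.rel (nat_lit 85001232)) .nil)) .nil)) .leaf)) (nat_lit 623693176822441) (.br (nat_lit 0) (.cons (.br (nat_lit 2) (.cons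 (.rel (nat_lit 75498513)) (.cons (.rel (nat_lit 71566401)) .nil))) .nil)) (.node (.node .leaf (nat_lit 627001853533435) (.br (nat_lit 1) (.cons (.br (nat_lit 3) (.cons (.rel (nat_lit 286281729)) .nil)) .nil)) .leaf) (nat_lit 627844090748387) (.br (nat_lit 1) (.cons (.br (nat_lit 3) (.cons (.rel (nat_lit 570425412)) .nil)) .nil)) (.node .leaf (nat_lit 627844090748407) (.br (nat_lit 5) (.cons (.br (nat_lit 0) (.cons (.rel (nat_lit 4299162240)) (.cons (.rel (nat_lit 4300227588)) .nil))) .nil)) .leaf)))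

/-- refutations 13 -/
def e13 : EX := (.node (.node (.node .leaf (nat_lit 627856170342535) (.br (nat_lit 1) (.cons (.br (nat_lit 5) (.cons (.rel (nat_lit 4312285185)) .nil)) .nil)) .leaf) (nat_lit 627856172144098) (.br (nat_lit 1) (.cons (.br (nat_lit 3) (.cons (.rel (nat_lit 287310144)) .nil)) .nil)) (.node .leaf (nat_lit 627856173164679) (.br (nat_lit 0) (.cons (.br (nat_lit 1) (.cons (.rel (nat_lit 23330817)) .nil)) .nil)) .leaf)) (nat_lit 628712412338311) (.br (nat_lit 2) (.cons (.br (nat_lit 3) (.cons (.rel (nat_lit 671094081)) .nil)) .nil)) (.node (.node .leaf (nat_lit 629127480662151) (.br (nat_lit 0) (.cons (.br (nat_lit 2) (.cons (.rel (nat_lit 72356112)) .nil)) .nil)) .leaf) (nat_lit 629127483484295) (.br (nat_lit 3) (.cons (.br (nat_lit 6) (.cons (.rel (nat_lit 34628321280)) (.cons (.rel (nat_lit 17449419792)) (.cons (.rel (nat_lit 17716838400)) .nil)))) .nil)) (.node .leaf (nat_lit 629130717293846) (.br (nat_lit 0) (.cons (.br (nat_lit 3) (.cons (.rel (nat_lit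 273680385)) .nil)) .nil)) .leaf)))

/-- refutations 14 -/
def e14 : EX := (.node (.node (.node .leaf (nat_lit 879833739544711) (.br (nat_lit 1) (.cons (.br (nat_lit 5) (.cons (.rel (nat_lit 4312285185)) .nil)) .nil)) .leaf) (nat_lit 879833742366855) (.br (nat_lit 1) (.cons (.br (nat_lit 2) (.cons (.rel (nat_lit 167772489)) .nil)) .nil)) .leaf) (nat_lit 879922442466781) (.br (nat_lit 0) (.cons (.br (nat_lit 1) (.cons (.rel (nat_lit 42270720)) .nil)) .nil)) (.node .leaf (nat_lit 886052487539488) (.br (nat_lit 0) (.cons (.br (nat_lit 2) (.cons (.rel (nat_lit 73416768)) .nil)) .nil)) .leaf))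

/-- refutations 15 -/
def e15 : EX := (.node (.node (.node .leaf (nat_lit 887383738402951) (.br (nat_lit 0) (.cons (.br (nat_lit 3) (.cons (.rel (nat_lit 276826368)) .nil)) .nil)) .leaf) (nat_lit 892589427509383) (.br (nat_lit 1) (.cons (.br (nat_lit 2) (.cons (.rel (nat_lit 84940800)) .nil)) .nil)) (.node .leaf (nat_lit 892589427764000) (.br (nat_lit 1) (.cons (.br (nat_lit 3) (.cons (.rel (nat_lit 285212808)) .nil)) .nil)) .leaf)) (nat_lit 892589428954393) (.br (nat_lit 1) (.cons (.br (nat_lit 4) (.cons (.rel (nat_lit 2164262928)) (.cons (.rel (nat_lit 1091043588)) .nil))) .nil)) (.node (.node .leaf (nat_lit 892589794871421) (.br (nat_lit 1) (.cons (.br (nat_lit 2) (.cons (.rel (nat_lit 167788632)) .nil)) .nil)) .leaf) (nat_lit 892718090606727) (.br (nat_lit 1) (.cons (.br (nat_lit 2) (.cons (.rel (nat_lit 151011588)) .nil)) .nil)) .leaf))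

/-- refutations 16 -/
def e16 : EX := (.node (.node .leaf (nat_lit 1055586498489121) (.br (nat_lit 1) (.cons (.br (nat_lit 2) (.cons (.rel (nat_lit 84164928)) .nil)) .nil)) .leaf) (nat_lit 1055588576216552) (.br (nat_lit 1) (.cons (.br (nat_lit 4) (.cons (.rel (nat_lit 1091665920)) .nil)) .nil)) .leaf)

/-- refutations 18 -/
def e18 : EX := (.node .leaf (nat_lit 1063497818176143) (.br (nat_lit 0) (.cons (.br (nat_lit 1) (.cons (.rel (nat_lit 41959488)) .nil)) .nil)) .leaf)

/-- refutations 19 -/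
def e19 : EX := (.node .leaf (nat_lit 1080642944977532) (.br (nat_lit 1) (.cons (.br (nat_lit 6) (.cons (.rel (nat_lit 17197170696)) .nil)) .nil)) .leaf)

/-- refutations 21 -/
def e21 : EX := (.node (.node (.node (.node .leaf (nat_lit 2216668164370593) (.br (nat_lit 3) (.cons (.br (nat_lit 0) (.cons (.rel (nat_lit 273679380)) (.cons (.rel (nat_lit 276889617)) .nil))) .nil)) .leaf) (nat_lit 2216670903136383) (.br (nat_lit 1) (.cons (.br (nat_lit 3) (.cons (.rel (nat_lit 286392336)) .nil)) .nil)) .leaf) (nat_lit 2216670905759871) (.br (nat_lit 1) (.cons (.br (nat_lit 0) (.cons (.rel (nat_lit 37750032)) (.cons (.rel (nat_lit 23069760)) .nil))) .nil)) (.node .leaf (nat_lit 2216672905460649) (.br (nat_lit 1) (.cons (.br (nat_lit 3) (.cons (.rel (nat_lit 301990416)) .nil)) .nil)) .leaf)) (nat_lit 2216673408487559) (.br (nat_lit 1) (.cons (.br (nat_lit 3) (.cons (.rel (nat_lit 285212808)) .nil)) .nil)) (.node (.node (.node .leaf (nat_lit 2216673510480007) (.br (nat_lit 0)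 (.cons (.br (nat_lit 2) (.cons (.rel (nat_lit 75497508)) .nil)) .nil)) .leaf) (nat_lit 2216839962949758) (.br (nat_lit 0) (.cons (.br (nat_lit 6) (.cons (.rel (nat_lit 17185116672)) .nil)) .nil)) .leaf) (nat_lit 2216845078372487) (.br (nat_lit 0) (.cons (.br (nat_lit 1) (.cons (.rel (nat_lit 42270720)) .nil)) .nil)) (.node .leaf (nat_lit 2216876962304175) (.br (nat_lit 0) (.cons (.br (nat_lit 2) (.cons (.rel (nat_lit 72356112)) .nil)) .nil)) .leaf)))

/-- refutations 22 -/
def e22 : EX := (.node .leaf (nat_lit 2224349235471742) (.br (nat_lit 1) (.cons (.br (nat_lit 2) (.cons (.rel (nat_lit 83906688)) .nil)) .nil)) .leaf)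

/-- refutations 24 -/
def e24 : EX := (.node (.node (.node (.node (.node .leaf (nat_lit 2374947955800199) (.br (nat_lit 0) (.cons (.br (nat_lit 2) (.cons (.rel (nat_lit 142607424)) .nil)) .nil)) .leaf) (nat_lit 2374947955800995) (.br (nat_lit 1) (.cons (.br (nat_lit 2) (.cons (.rel (nat_lit 100664580)) .nil)) .nil)) (.node .leaf (nat_lit 2374954784127111) (.br (nat_lit 0) (.cons (.br (nat_lit 4) (.cons (.rel (nat_lit 1082130960)) (.cons (.rel (nat_lit 1082130960)) (.cons (.rel (nat_lit 1078984977)) .nil)))) .nil)) .leaf)) (nat_lit 2374954784127133) (.br (nat_lit 1) (.cons (.br (nat_lit 2) (.cons (.rel (nat_lit 85001232)) .nil)) .nil)) (.node (.node .leaf (nat_lit 2374956545734791) (.br (nat_lit 0) (.cons (.br (nat_lit 1) (.cons (.rel (nat_lit 25247760)) .nil)) .nil)) .leaf) (nat_lit 2374963596470403) (.br (nat_lit 0) (.cons (.br (nat_lit 3) (.cons (.rel (nat_lit 541069569)) .nil)) .nil)) .leaf)) (nat_lit 2374997754769543) (.br (nat_lit 1) (.cons (.br (nat_lit 5) (.cons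 (.rel (nat_lit 4328523780)) (.cons (.br (nat_lit 2) (.cons (.rel (nat_lit 8657048577)) (.cons (.rel (nat_lit 150999312)) (.cons (.rel (nat_lit 4363190292)) .nil)))) (.cons (.rel (nat_lit 4312794114)) .nil)))) .nil)) (.node (.node (.node .leaf (nat_lit 2374997754771582) (.br (nat_lit 6) (.cons (.br (nat_lit 2) (.cons (.rel (nat_lit 17314087200)) (.cons (.rel (nat_lit 17314103298)) (.cons (.rel (nat_lit 34426847760)) (.cons (.rel (nat_lit 17248026633)) .nil))))) .nil)) .leaf) (nat_lit 2374997754771586) (.br (nat_lit 1) (.cons (.br (nat_lit 3) (.cons (.rel (nat_lit 570425412)) .nil)) .nil)) (.node .leaf (nat_lit 2374997754771591) (.br (nat_lit 0) (.cons (.br (nat_lit 2) (.cons (.rel (nat_lit 72356112)) (.cons (.rel (nat_lit 75498513)) (.cons (.rel (nat_lit 138436608)) (.cons (.rel (nat_lit 138412056)) .nil))))) (.cons (.br (nat_lit 1) (.cons (.rel (nat_lit 41959488)) (.cons (.rel (nat_lit 22085634)) (.cons (.rel (nat_lit 37750032)) (.cons (.rel (nat_lit 37750032)) (.cons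 (.rel (nat_lit 21004416)) .nil)))))) (.cons (.br (nat_lit 2) (.cons (.rel (nat_lit 142868481)) (.cons (.rel (nat_lit 142607424)) (.cons (.rel (nat_lit 142607424)) (.cons (.rel (nat_lit 71566401)) .nil))))) (.cons (.br (nat_lit 2) (.cons (.rel (nat_lit 138413061)) (.cons (.rel (nat_lit 71566401)) (.cons (.rel (nat_lit 138412056)) (.cons (.rel (nat_lit 142607424)) .nil))))) .nil))))) .leaf)) (nat_lit 2374997754771608) (.br (nat_lit 1) (.cons (.br (nat_lit 0) (.cons (.rel (nat_lit 22085634)) (.cons (.rel (nat_lit 41959488)) .nil))) .nil)) (.node (.node .leaf (nat_lit 2374997754771616) (.br (nat_lit 0) (.cons (.br (nat_lit 1) (.cons (.rel (nat_lit 41959488)) .nil)) .nil)) .leaf) (nat_lit 2374997754771637) (.br (nat_lit 1) (.cons (.br (nat_lit 2) (.cons (.rel (nat_lit 84951057)) .nil)) .nil)) .leaf))) (nat_lit 2374997754842013) (.br (nat_lit 2) (.cons (.br (nat_lit 3) (.cons (.rel (nat_lit 671094081)) .nil)) .nil)) (.node (.node (.node (.node .leaf (nat_lit 2374997755095175)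 (.br (nat_lit 1) (.cons (.br (nat_lit 4) (.cons (.rel (nat_lit 1107296262)) .nil)) .nil)) .leaf) (nat_lit 2374997922654343) (.br (nat_lit 0) (.cons (.br (nat_lit 1) (.cons (.rel (nat_lit 21004416)) .nil)) .nil)) (.node .leaf (nat_lit 2374999826755719) (.br (nat_lit 0) (.cons (.br (nat_lit 2) (.cons (.rel (nat_lit 71305344)) .nil)) .nil)) .leaf)) (nat_lit 2374999826757767) (.br (nat_lit 0) (.cons (.br (nat_lit 4) (.cons (.rel (nat_lit 1082196228)) .nil)) .nil)) (.node (.node .leaf (nat_lit 2375002642165895) (.br (nat_lit 0) (.cons (.br (nat_lit 3) (.cons (.rel (nat_lit 272696448)) .nil)) .nil)) .leaf) (nat_lit 2375246921595015) (.br (nat_lit 2) (.cons (.br (nat_lit 0) (.cons (.rel (nat_lit 142607424)) (.cons (.rel (nat_lit 142627152)) (.cons (.rel (nat_lit 142607424)) .nil)))) (.cons (.br (nat_lit 4) (.cons (.rel (nat_lit 1141903392)) (.cons (.rel (nat_lit 2214593793)) (.cons (.rel (nat_lit 1141903392)) (.cons (.rel (nat_lit 1141407744)) .nil))))) .nil))) .leaf)) (nat_lit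 2375246921595037) (.br (nat_lit 0) (.cons (.br (nat_lit 2) (.cons (.rel (nat_lit 71827458)) .nil)) .nil)) (.node (.node (.node .leaf (nat_lit 2375418720284807) (.br (nat_lit 0) (.cons (.br (nat_lit 2) (.cons (.rel (nat_lit 75628800)) .nil)) .nil)) .leaf) (nat_lit 2375418720334011) (.br (nat_lit 0) (.cons (.br (nat_lit 5) (.cons (.rel (nat_lit 8598323520)) .nil)) .nil)) (.node .leaf (nat_lit 2375427314413703) (.br (nat_lit 0) (.cons (.br (nat_lit 4) (.cons (.rel (nat_lit 1078988808)) .nil)) .nil)) .leaf)) (nat_lit 2375427461216441) (.br (nat_lit 0) (.cons (.br (nat_lit 6) (.cons (.rel (nat_lit 17188259073)) (.cons (.rel (nat_lit 17185112085)) .nil))) .nil)) (.node (.node .leaf (nat_lit 2375427461217782) (.br (nat_lit 3) (.cons (.br (nat_lit 4) (.cons (.rel (nat_lit 1343357952)) .nil)) .nil)) .leaf) (nat_lit 2375427463782535) (.br (nat_lit 2) (.cons (.br (nat_lit 3) (.cons (.rel (nat_lit 402720768)) .nil)) .nil)) .leaf))))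

/-- refutations 25 -/
def e25 : EX := (.node (.node .leaf (nat_lit 2381914392755101) (.br (nat_lit 0) (.cons (.br (nat_lit 2) (.cons (.rel (nat_lit 72482817)) .nil)) .nil)) .leaf) (nat_lit 2387079451637785) (.br (nat_lit 0) (.cons (.br (nat_lit 3) (.cons (.rel (nat_lit 541066752)) .nil)) .nil)) (.node .leaf (nat_lit 2387079451637895) (.br (nat_lit 0) (.cons (.br (nat_lit 1) (.cons (.rel (nat_lit 25231617)) .nil)) .nil)) .leaf))

/-- refutations 26 -/
def e26 : EX := (.node (.node (.node (.node (.node .leaf (nat_lit 2392546970167431) (.br (nat_lit 0) (.cons (.br (nat_lit 4) (.cons (.rel (nat_lit 1078468608)) .nil)) .nil)) .leaf) (nat_lit 2392547200854151) (.br (nat_lit 2) (.cons (.br (nat_lit 0) (.cons (.rel (nat_lit 142607424)) (.cons (.rel (nat_lit 75498513)) .nil))) .nil)) .leaf) (nat_lit 2392547200854942) (.br (nat_lit 2) (.cons (.br (nat_lit 4) (.cons (.rel (nat_lit 1142947905)) .nil)) .nil)) (.node .leaf (nat_lit 2392547200856249) (.br (nat_lit 0) (.cons (.br (nat_lit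 2) (.cons (.rel (nat_lit 72356112)) .nil)) .nil)) .leaf)) (nat_lit 2392548647889031) (.br (nat_lit 0) (.cons (.br (nat_lit 1) (.cons (.rel (nat_lit 21004416)) .nil)) .nil)) (.node (.node .leaf (nat_lit 2392847617879302) (.br (nat_lit 0) (.cons (.br (nat_lit 1) (.cons (.rel (nat_lit 42270720)) .nil)) .nil)) .leaf) (nat_lit 2392847848564871) (.br (nat_lit 0) (.cons (.br (nat_lit 2) (.cons (.rel (nat_lit 142868481)) .nil)) .nil)) (.node .leaf (nat_lit 2392850230929543) (.br (nat_lit 0) (.cons (.br (nat_lit 1) (.cons (.rel (nat_lit 37752849)) .nil)) .nil)) .leaf))) (nat_lit 2392850449033351) (.br (nat_lit 1) (.cons (.br (nat_lit 2) (.cons (.rel (nat_lit 84217920)) .nil)) .nil)) (.node (.node (.node .leaf (nat_lit 2393010906327175) (.br (nat_lit 2) (.cons (.br (nat_lit 5) (.cons (.rel (nat_lit 4363125024)) .nil)) .nil)) .leaf) (nat_lit 2393010907631751) (.br (nat_lit 0) (.cons (.br (nat_lit 2) (.cons (.rel (nat_lit 75628800)) .nil)) .nil)) (.node .leaf (nat_lit 2393019500456071)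 (.br (nat_lit 6) (.cons (.br (nat_lit 0) (.cons (.rel (nat_lit 17185116672)) (.cons (.rel (nat_lit 34368159828)) (.cons (.rel (nat_lit 34363938048)) .nil)))) .nil)) .leaf)) (nat_lit 2393019500458119) (.br (nat_lit 0) (.cons (.br (nat_lit 6) (.cons (.rel (nat_lit 17185116672)) .nil)) .nil)) (.node (.node .leaf (nat_lit 2393019501760697) (.br (nat_lit 2) (.cons (.br (nat_lit 4) (.cons (.rel (nat_lit 2281979904)) .nil)) .nil)) .leaf) (nat_lit 2397907311650951) (.br (nat_lit 0) (.cons (.br (nat_lit 1) (.cons (.rel (nat_lit 37765125)) .nil)) .nil)) (.node .leaf (nat_lit 2397915909974151) (.br (nat_lit 2) (.cons (.br (nat_lit 4) (.cons (.rel (nat_lit 2214609936)) .nil)) .nil)) .leaf))))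

/-- refutations 27 -/
def e27 : EX := (.node (.node (.node (.node .leaf (nat_lit 2400057187102173) (.br (nat_lit 0) (.cons (.br (nat_lit 2) (.cons (.rel (nat_lit 142868481)) .nil)) .nil)) .leaf) (nat_lit 2400058746333319) (.br (nat_lit 0) (.cons (.br (nat_lit 4) (.cons (.rel (nat_lit 2156138496)) .nil)) .nil)) .leaf) (nat_lit 2400058749162104) (.br (nat_lit 0) (.cons (.br (nat_lit 3) (.cons (.rel (nat_lit 541066752)) .nil)) .nil)) (.node .leaf (nat_lit 2400501471897735) (.br (nat_lit 3) (.cons (.br (nat_lit 4) (.cons (.rel (nat_lit 2415984897)) .nil)) .nil)) .leaf)) (nat_lit 2400501471898232) (.br (nat_lit 2) (.cons (.br (nat_lit 3) (.cons (.rel (nat_lit 402720768)) .nil)) .nil)) (.node (.node .leaf (nat_lit 2400505943025799) (.br (nat_lit 0) (.cons (.br (nat_lit 1) (.cons (.rel (nat_lit 37752849)) .nil)) .nil)) .leaf) (nat_lit 2403381490739335) (.br (nat_lit 0) (.cons (.br (nat_lit 2) (.cons (.rel (nat_lit 71565396)) .nil)) .nil)) (.node .leaf (nat_lit 2403381492045152)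 (.br (nat_lit 3) (.cons (.br (nat_lit 2) (.cons (.rel (nat_lit 336678912)) (.cons (.rel (nat_lit 335822928)) .nil))) .nil)) .leaf)))

/-- refutations 28 -/
def e28 : EX := (.node .leaf (nat_lit 2404454709323911) (.br (nat_lit 0) (.cons (.br (nat_lit 4) (.cons (.rel (nat_lit 1078468608)) .nil)) .nil)) .leaf)

/-- refutations 29 -/
def e29 : EX := (.node (.node (.node (.node .leaf (nat_lit 2410139386900615) (.br (nat_lit 0) (.cons (.br (nat_lit 2) (.cons (.rel (nat_lit 142868481)) (.cons (.rel (nat_lit 71385504)) .nil))) .nil)) .leaf) (nat_lit 2410139386970288) (.br (nat_lit 0) (.cons (.br (nat_lit 1) (.cons (.rel (nat_lit 21004416)) .nil)) .nil)) (.node .leaf (nat_lit 2410147968446599) (.br (nat_lit 0) (.cons (.br (nat_lit 2) (.cons (.rel (nat_lit 72368388)) .nil)) .nil)) .leaf)) (nat_lit 2410150573109383) (.br (nat_lit 0) (.cons (.br (nat_lit 2) (.cons (.rel (nat_lit 75628800)) .nil)) .nil)) (.node (.node .leaf (nat_lit 2410182126858375) (.br (nat_lit 0) (.cons (.br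 (nat_lit 1) (.cons (.rel (nat_lit 22021380)) .nil)) .nil)) .leaf) (nat_lit 2410184198844551) (.br (nat_lit 0) (.cons (.br (nat_lit 2) (.cons (.rel (nat_lit 71305344)) (.cons (.rel (nat_lit 72368388)) .nil))) .nil)) .leaf)) (nat_lit 2410353560645767) (.br (nat_lit 1) (.cons (.br (nat_lit 3) (.cons (.rel (nat_lit 285212808)) .nil)) .nil)) (.node (.node (.node .leaf (nat_lit 2410353925550215) (.br (nat_lit 2) (.cons (.br (nat_lit 4) (.cons (.rel (nat_lit 1141901592)) (.cons (.rel (nat_lit 1141243968)) (.cons (.rel (nat_lit 2214609936)) (.cons (.rel (nat_lit 1208025360)) .nil))))) (.cons (.br (nat_lit 0) (.cons (.rel (nat_lit 142607424)) (.cons (.rel (nat_lit 71305344)) (.cons (.rel (nat_lit 72356112)) .nil)))) .nil))) .leaf) (nat_lit 2410353925550231) (.br (nat_lit 1) (.cons (.br (nat_lit 5) (.cons (.rel (nat_lit 4328523780)) .nil)) .nil)) (.node .leaf (nat_lit 2410353925550262) (.br (nat_lit 3) (.cons (.br (nat_lit 0) (.cons (.rel (nat_lit 541069569)) (.cons (.rel (nat_lit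 276826368)) .nil))) .nil)) .leaf)) (nat_lit 2410353926883479) (.br (nat_lit 0) (.cons (.br (nat_lit 2) (.cons (.rel (nat_lit 142607424)) .nil)) .nil)) (.node (.node .leaf (nat_lit 2410353927191190) (.br (nat_lit 0) (.cons (.br (nat_lit 1) (.cons (.rel (nat_lit 21004416)) .nil)) .nil)) .leaf) (nat_lit 2410388344008839) (.br (nat_lit 0) (.cons (.br (nat_lit 2) (.cons (.rel (nat_lit 142868481)) .nil)) .nil)) .leaf)))

/-- refutations 30 -/
def e30 : EX := (.node (.node (.node (.node .leaf (nat_lit 2410448385470599) (.br (nat_lit 4) (.cons (.br (nat_lit 0) (.cons (.rel (nat_lit 1082163201)) (.cons (.rel (nat_lit 1079001120)) .nil))) .nil)) .leaf) (nat_lit 2410448469358727) (.br (nat_lit 0) (.cons (.br (nat_lit 2) (.cons (.rel (nat_lit 142868481)) (.cons (.rel (nat_lit 142607424)) .nil))) .nil)) .leaf) (nat_lit 2410603092371591) (.br (nat_lit 0) (.cons (.br (nat_lit 1) (.cons (.rel (nat_lit 25170180)) .nil)) .nil)) (.node (.node .leaf (nat_lit 2410603092373639) (.br (nat_lit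 0) (.cons (.br (nat_lit 6) (.cons (.rel (nat_lit 17185116672)) .nil)) .nil)) .leaf) (nat_lit 2410611686502535) (.br (nat_lit 0) (.cons (.br (nat_lit 2) (.cons (.rel (nat_lit 71305344)) (.cons (.rel (nat_lit 75628800)) (.cons (.rel (nat_lit 72368388)) .nil)))) (.cons (.br (nat_lit 2) (.cons (.rel (nat_lit 142607424)) (.cons (.rel (nat_lit 75628800)) (.cons (.rel (nat_lit 75498513)) .nil)))) .nil))) .leaf)) (nat_lit 2410613385195655) (.br (nat_lit 0) (.cons (.br (nat_lit 3) (.cons (.rel (nat_lit 273686784)) .nil)) .nil)) (.node (.node (.node .leaf (nat_lit 2411427667374215) (.br (nat_lit 3) (.cons (.br (nat_lit 6) (.cons (.rel (nat_lit 34898723088)) .nil)) .nil)) .leaf) (nat_lit 2411427670209138) (.br (nat_lit 0) (.cons (.br (nat_lit 1) (.cons (.rel (nat_lit 21496356)) .nil)) .nil)) .leaf) (nat_lit 2416023282380935) (.br (nat_lit 5) (.cons (.br (nat_lit 6) (.cons (.rel (nat_lit 21474836628)) .nil)) .nil)) (.node .leaf (nat_lit 2416796376494215) (.br (nat_lit 3) (.cons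 (.br (nat_lit 6) (.cons (.rel (nat_lit 17449353474)) .nil)) .nil)) .leaf)))

/-- refutations 31 -/
def e31 : EX := (.node (.node (.node .leaf (nat_lit 2417646780018823) (.br (nat_lit 5) (.cons (.br (nat_lit 0) (.cons (.rel (nat_lit 4299162240)) (.cons (.rel (nat_lit 8594129157)) (.cons (.rel (nat_lit 4299432000)) .nil)))) .nil)) .leaf) (nat_lit 2421168862916743) (.br (nat_lit 0) (.cons (.br (nat_lit 3) (.cons (.rel (nat_lit 272646273)) .nil)) .nil)) .leaf) (nat_lit 2422259574894727) (.br (nat_lit 0) (.cons (.br (nat_lit 4) (.cons (.rel (nat_lit 1077940608)) (.cons (.rel (nat_lit 1077940608)) .nil))) .nil)) (.node .leaf (nat_lit 2423109978419335) (.br (nat_lit 0) (.cons (.br (nat_lit 2) (.cons (.rel (nat_lit 72368388)) (.cons (.rel (nat_lit 72368388)) .nil))) .nil)) .leaf))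

/-- refutations 32 -/
def e32 : EX := (.node (.node .leaf (nat_lit 2639086888530105) (.br (nat_lit 1) (.cons (.br (nat_lit 2) (.cons (.rel (nat_lit 84940800)) .nil)) .nil)) .leaf) (nat_lit 2639092132696199) (.br (nat_lit 0) (.cons (.br (nat_lit 3) (.cons (.rel (nat_lit 276826368)) .nil)) .nil)) .leaf)

/-- refutations 33 -/
def e33 : EX := (.node .leaf (nat_lit 2649786371744531) (.br (nat_lit 1) (.cons (.br (nat_lit 6) (.cons (.br (nat_lit 0) (.cons (.rel (nat_lit 17184343104)) (.cons (.rel (nat_lit 17184654336)) .nil))) .nil)) .nil)) .leaf)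

/-- refutations 35 -/
def e35 : EX := (.node (.node (.node (.node (.node .leaf (nat_lit 2814802468796576) (.br (nat_lit 1) (.cons (.br (nat_lit 3) (.cons (.rel (nat_lit 302022657)) .nil)) .nil)) .leaf) (nat_lit 2814802573713568) (.br (nat_lit 0) (.cons (.br (nat_lit 1) (.cons (.rel (nat_lit 21004416)) .nil)) .nil)) .leaf) (nat_lit 2814802573721761) (.br (nat_lit 1) (.cons (.br (nat_lit 0) (.cons (.rel (nat_lit 26218560)) (.cons (.rel (nat_lit 22085634)) .nil))) .nil)) (.node .leaf (nat_lit 2814802576266026) (.br (nat_lit 0) (.cons (.br (nat_lit 1) (.cons (.rel (nat_lit 37752849)) .nil)) .nil)) .leaf)) (nat_lit 2814802616948064) (.br (nat_lit 4) (.cons (.br (nat_lit 6) (.cons (.rel (nat_lit 19327373313)) .nil)) .nil)) (.node (.node (.node .leaf (nat_lit 2814802618164006) (.br (nat_lit 0) (.cons (.br (nat_lit 4) (.cons (.rel (nat_lit 1077940608)) .nil)) .nil)) .leaf) (nat_lit 2814802618167457) (.br (nat_lit 0) (.cons (.br (nat_lit 2) (.cons (.rel (nat_lit 142607424))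 .nil)) .nil)) .leaf) (nat_lit 2814802618214580) (.br (nat_lit 0) (.cons (.br (nat_lit 1) (.cons (.rel (nat_lit 22024197)) .nil)) .nil)) (.node .leaf (nat_lit 2814805213220999) (.br (nat_lit 0) (.cons (.br (nat_lit 3) (.cons (.rel (nat_lit 276889617)) .nil)) .nil)) .leaf))) (nat_lit 2814805213221621) (.br (nat_lit 4) (.cons (.br (nat_lit 0) (.cons (.rel (nat_lit 2156138496)) (.cons (.rel (nat_lit 2156150820)) .nil))) .nil)) (.node (.node (.node (.node .leaf (nat_lit 2814805214488711) (.br (nat_lit 3) (.cons (.br (nat_lit 0) (.cons (.rel (nat_lit 276889617)) (.cons (.rel (nat_lit 541066752)) (.cons (.br (nat_lit 6) (.cons (.rel (nat_lit 17184604161)) (.cons (.rel (nat_lit 17716748544)) (.cons (.rel (nat_lit 17452568592)) .nil)))) .nil)))) (.cons (.br (nat_lit 0) (.cons (.rel (nat_lit 276829185)) (.cons (.rel (nat_lit 276889617)) (.cons (.rel (nat_lit 545529873)) .nil)))) .nil))) .leaf) (nat_lit 2814805214489333) (.br (nat_lit 0) (.cons (.br (nat_lit 3) (.cons (.rel (nat_lit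 276829185)) .nil)) .nil)) .leaf) (nat_lit 2814807834611964) (.br (nat_lit 0) (.cons (.br (nat_lit 1) (.cons (.rel (nat_lit 42270720)) .nil)) .nil)) (.node .leaf (nat_lit 2814807835877407) (.br (nat_lit 1) (.cons (.br (nat_lit 2) (.cons (.rel (nat_lit 101712960)) .nil)) .nil)) .leaf)) (nat_lit 2814807835928711) (.br (nat_lit 0) (.cons (.br (nat_lit 1) (.cons (.rel (nat_lit 25170180)) (.cons (.rel (nat_lit 25231617)) .nil))) (.cons (.br (nat_lit 6) (.cons (.rel (nat_lit 17184604161)) (.cons (.rel (nat_lit 17185116672)) .nil))) .nil))) (.node (.node .leaf (nat_lit 2814807835990151) (.br (nat_lit 2) (.cons (.br (nat_lit 6) (.cons (.rel (nat_lit 34426847760)) .nil)) .nil)) .leaf) (nat_lit 2820122382733447) (.br (nat_lit 0) (.cons (.br (nat_lit 3) (.cons (.rel (nat_lit 276889617)) .nil)) .nil)) (.node .leaf (nat_lit 2820122384001781) (.br (nat_lit 3) (.cons (.br (nat_lit 4) (.cons (.rel (nat_lit 1343307777)) .nil)) .nil)) .leaf))))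

/-- refutations 36 -/
def e36 : EX := (.node (.node .leaf (nat_lit 2825591574795616) (.br (nat_lit 0) (.cons (.br (nat_lit 4) (.cons (.rel (nat_lit 1078198848)) (.cons (.rel (nat_lit 1078468608)) .nil))) .nil)) .leaf) (nat_lit 2825591576062087) (.br (nat_lit 0) (.cons (.br (nat_lit 4) (.cons (.rel (nat_lit 2151683076)) .nil)) .nil)) (.node .leaf (nat_lit 2825794131533959) (.br (nat_lit 3) (.cons (.br (nat_lit 6) (.cons (.rel (nat_lit 17717264448)) .nil)) .nil)) .leaf))

/-- refutations 37 -/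
def e37 : EX := (.node (.node (.node (.node .leaf (nat_lit 3078633715773575) (.br (nat_lit 1) (.cons (.br (nat_lit 6) (.cons (.rel (nat_lit 17213444100)) (.cons (.rel (nat_lit 34393554948)) (.cons (.rel (nat_lit 17197170696)) .nil)))) (.cons (.br (nat_lit 6) (.cons (.rel (nat_lit 17197703172)) (.cons (.rel (nat_lit 34376532993)) (.cons (.rel (nat_lit 34376519712)) .nil)))) (.cons (.br (nat_lit 6) (.cons (.rel (nat_lit 17213431824)) (.cons (.br (nat_lit 2) (.cons (.rel (nat_lit 17314087200)) (.cons (.rel (nat_lit 151011588)) (.cons (.rel (nat_lit 150999312)) (.cons (.rel (nat_lit 100672032)) .nil))))) (.cons (.rel (nat_lit 34376532993)) .nil)))) .nil)))) .leaf) (nat_lit 3078942957609095) (.br (nat_lit 0) (.cons (.br (nat_lit 2) (.cons (.rel (nat_lit 138436608)) .nil)) .nil)) (.node .leaf (nat_lit 3078943104370823) (.br (nat_lit 0) (.cons (.br (nat_lit 4) (.cons (.rel (nat_lit 2155873620)) .nil)) .nil)) .leaf)) (nat_lit 3078943104413831) (.br (nat_lit 0) (.cons (.br (nat_lit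 6) (.cons (.rel (nat_lit 17188259073)) (.cons (.rel (nat_lit 17185116672)) .nil))) (.cons (.br (nat_lit 6) (.cons (.rel (nat_lit 17185113090)) (.cons (.rel (nat_lit 17184067716)) .nil))) .nil))) (.node (.node .leaf (nat_lit 3078943104414001) (.br (nat_lit 2) (.cons (.br (nat_lit 4) (.cons (.rel (nat_lit 1141915668)) .nil)) .nil)) .leaf) (nat_lit 3078943104415222) (.br (nat_lit 2) (.cons (.br (nat_lit 3) (.cons (.rel (nat_lit 335560869)) .nil)) .nil)) (.node .leaf (nat_lit 3078947571347591) (.br (nat_lit 0) (.cons (.br (nat_lit 2) (.cons (.rel (nat_lit 71325072)) .nil)) .nil)) .leaf))) (nat_lit 3078956161282183) (.br (nat_lit 1) (.cons (.br (nat_lit 2) (.cons (.rel (nat_lit 151126017)) .nil)) .nil)) (.node (.node (.node .leaf (nat_lit 3079107760205959) (.br (nat_lit 1) (.cons (.br (nat_lit 2) (.cons (.rel (nat_lit 84217920)) .nil)) .nil)) .leaf) (nat_lit 3079107760206735) (.br (nat_lit 0) (.cons (.br (nat_lit 1) (.cons (.rel (nat_lit 42270720)) .nil)) .nil)) (.node .leaf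 (nat_lit 3079114672418951) (.br (nat_lit 0) (.cons (.br (nat_lit 4) (.cons (.rel (nat_lit 1077940608)) (.cons (.rel (nat_lit 1079001120)) (.cons (.rel (nat_lit 2156138496)) (.cons (.rel (nat_lit 2151678240)) .nil))))) .nil)) .leaf)) (nat_lit 3079114672418973) (.br (nat_lit 0) (.cons (.br (nat_lit 1) (.cons (.rel (nat_lit 22021380)) .nil)) .nil)) (.node (.node .leaf (nat_lit 3084001314335025) (.br (nat_lit 1) (.cons (.br (nat_lit 4) (.cons (.rel (nat_lit 1091568660)) .nil)) .nil)) .leaf) (nat_lit 3085170765049991) (.br (nat_lit 0) (.cons (.br (nat_lit 1) (.cons (.rel (nat_lit 41959488)) .nil)) .nil)) .leaf)))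

/-- refutations 38 -/
def e38 : EX := (.node (.node (.node (.node .leaf (nat_lit 3085299425325191) (.br (nat_lit 1) (.cons (.br (nat_lit 2) (.cons (.rel (nat_lit 85001232)) .nil)) .nil)) .leaf) (nat_lit 3085301186932761) (.br (nat_lit 0) (.cons (.br (nat_lit 1) (.cons (.rel (nat_lit 41959488)) .nil)) .nil)) .leaf) (nat_lit 3085301187942425) (.br (nat_lit 0) (.cons (.br (nat_lit 2) (.cons (.rel (nat_lit 71305344)) .nil)) .nil)) (.node .leaf (nat_lit 3090466245816345) (.br (nat_lit 0) (.cons (.br (nat_lit 3) (.cons (.rel (nat_lit 272646273)) .nil)) .nil)) .leaf)) (nat_lit 3090466245816450) (.br (nat_lit 0) (.cons (.br (nat_lit 6) (.cons (.rel (nat_lit 17185113090)) .nil)) .nil)) (.node (.node (.node .leaf (nat_lit 3090466245816455) (.br (nat_lit 0) (.cons (.br (nat_lit 1) (.cons (.rel (nat_lit 22038528)) .nil)) .nil)) .leaf) (nat_lit 3090466245816471) (.br (nat_lit 0) (.cons (.br (nat_lit 1) (.cons (.rel (nat_lit 22024197)) (.cons (.rel (nat_lit 22038528)) .nil))) .nil))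 .leaf) (nat_lit 3091965294258311) (.br (nat_lit 1) (.cons (.br (nat_lit 4) (.cons (.rel (nat_lit 1107369984)) .nil)) .nil)) (.node .leaf (nat_lit 3091970679399807) (.br (nat_lit 1) (.cons (.br (nat_lit 5) (.cons (.rel (nat_lit 8606750721)) .nil)) .nil)) .leaf)))

/-- refutations 39 -/
def e39 : EX := (.node (.node (.node (.node .leaf (nat_lit 3096234411948208) (.br (nat_lit 0) (.cons (.br (nat_lit 2) (.cons (.rel (nat_lit 72356112)) .nil)) .nil)) .leaf) (nat_lit 3096234412056711) (.br (nat_lit 0) (.cons (.br (nat_lit 2) (.cons (.rel (nat_lit 142607424)) .nil)) .nil)) (.node .leaf (nat_lit 3096234642745479) (.br (nat_lit 2) (.cons (.br (nat_lit 1) (.cons (.rel (nat_lit 100728834)) (.cons (.rel (nat_lit 150999312)) (.cons (.rel (nat_lit 150999312)) .nil)))) .nil)) .leaf)) (nat_lit 3096239839486087) (.br (nat_lit 1) (.cons (.br (nat_lit 2) (.cons (.rel (nat_lit 84940800)) .nil)) .nil)) (.node (.node .leaf (nat_lit 3096535059767431) (.br (nat_lit 1) (.cons (.br (nat_lit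 5) (.cons (.rel (nat_lit 4312024128)) .nil)) .nil)) .leaf) (nat_lit 3096535143653511) (.br (nat_lit 4) (.cons (.br (nat_lit 0) (.cons (.rel (nat_lit 1079050245)) (.cons (.rel (nat_lit 1077940608)) .nil))) .nil)) .leaf)) (nat_lit 3096543725199495) (.br (nat_lit 2) (.cons (.br (nat_lit 0) (.cons (.rel (nat_lit 75534336)) (.cons (.rel (nat_lit 138436608)) .nil))) .nil)) (.node (.node (.node .leaf (nat_lit 3096706858459271) (.br (nat_lit 4) (.cons (.br (nat_lit 5) (.cons (.rel (nat_lit 10737451089)) .nil)) .nil)) .leaf) (nat_lit 3096706942345351) (.br (nat_lit 0) (.cons (.br (nat_lit 5) (.cons (.rel (nat_lit 4300210440)) (.cons (.rel (nat_lit 8598323520)) .nil))) (.cons (.br (nat_lit 5) (.cons (.rel (nat_lit 8598603792)) (.cons (.rel (nat_lit 8594146305)) .nil))) .nil))) .leaf) (nat_lit 3096707089145991) (.br (nat_lit 0) (.cons (.br (nat_lit 5) (.cons (.rel (nat_lit 4300227588)) .nil)) .nil)) (.node (.node .leaf (nat_lit 3096711786766471) (.br (nat_lit 2) (.cons (.br (nat_lit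 3) (.cons (.rel (nat_lit 336134160)) .nil)) .nil)) .leaf) (nat_lit 3102762313556103) (.br (nat_lit 0) (.cons (.br (nat_lit 1) (.cons (.rel (nat_lit 21626880)) .nil)) .nil)) .leaf)))

/-- refutations 40 -/
def e40 : EX := (.node (.node .leaf (nat_lit 3109334146195591) (.br (nat_lit 0) (.cons (.br (nat_lit 2) (.cons (.rel (nat_lit 71305344)) .nil)) .nil)) .leaf) (nat_lit 3109540443037831) (.br (nat_lit 1) (.cons (.br (nat_lit 3) (.cons (.rel (nat_lit 285212808)) .nil)) .nil)) .leaf)

/-- refutations 41 -/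
def e41 : EX := (.node (.node (.node (.node (.node (.node (.node .leaf (nat_lit 3113835263537287) (.br (nat_lit 0) (.cons (.br (nat_lit 1) (.cons (.rel (nat_lit 22021380)) (.cons (.rel (nat_lit 22021380)) .nil))) (.cons (.br (nat_lit 1) (.cons (.rel (nat_lit 22085634)) (.cons (.rel (nat_lit 23330817)) .nil))) .nil))) .leaf) (nat_lit 3113835376926851) (.br (nat_lit 0) (.cons (.br (nat_lit 4) (.cons (.rel (nat_lit 1078468608)) .nil)) .nil)) (.node .leaf (nat_lit 3113835379609727) (.br (nat_lit 0) (.cons (.br (nat_lit 1) (.cons (.rel (nat_lit 42270720)) .nil)) .nil)) .leaf)) (nat_lit 3113835393558655) (.br (nat_lit 1) (.cons (.br (nat_lit 2) (.cons (.rel (nat_lit 83906688)) .nil)) .nil)) (.node (.node .leaf (nat_lit 3113835396364423) (.br (nat_lit 1) (.cons (.br (nat_lit 0) (.cons (.rel (nat_lit 25187328)) (.cons (.rel (nat_lit 22085634)) .nil))) .nil)) .leaf) (nat_lit 3113835409967861) (.br (nat_lit 0) (.cons (.br (nat_lit 1) (.cons (.rel (nat_lit 42270720)) .nil)) .nil))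 .leaf)) (nat_lit 3113835410335875) (.br (nat_lit 2) (.cons (.br (nat_lit 4) (.cons (.rel (nat_lit 1141903392)) .nil)) .nil)) (.node (.node (.node .leaf (nat_lit 3113835410335879) (.br (nat_lit 2) (.cons (.br (nat_lit 3) (.cons (.rel (nat_lit 604111872)) (.cons (.rel (nat_lit 603987984)) (.cons (.rel (nat_lit 402657312)) .nil)))) (.cons (.br (nat_lit 3) (.cons (.rel (nat_lit 336593928)) (.cons (.rel (nat_lit 336073728)) (.cons (.rel (nat_lit 336592914)) .nil)))) .nil))) .leaf) (nat_lit 3113835411884342) (.br (nat_lit 2) (.cons (.br (nat_lit 4) (.cons (.rel (nat_lit 1207967745)) .nil)) .nil)) (.node .leaf (nat_lit 3113837801089159) (.br (nat_lit 1) (.cons (.br (nat_lit 2) (.cons (.rel (nat_lit 151064580)) .nil)) .nil)) .leaf)) (nat_lit 3113837926918279) (.br (nat_lit 2) (.cons (.br (nat_lit 5) (.cons (.rel (nat_lit 4363125024)) .nil)) .nil)) (.node (.node .leaf (nat_lit 3113837999769910) (.br (nat_lit 1) (.cons (.br (nat_lit 2) (.cons (.rel (nat_lit 84476160)) .nil)) .nil))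 .leaf) (nat_lit 3113840619661447) (.br (nat_lit 1) (.cons (.br (nat_lit 2) (.cons (.rel (nat_lit 83906688)) .nil)) .nil)) .leaf))) (nat_lit 3113840621209910) (.br (nat_lit 0) (.cons (.br (nat_lit 1) (.cons (.rel (nat_lit 23330817)) .nil)) .nil)) (.node (.node (.node (.node .leaf (nat_lit 3113869120213678) (.br (nat_lit 0) (.cons (.br (nat_lit 1) (.cons (.rel (nat_lit 21004416)) .nil)) .nil)) .leaf) (nat_lit 3113869120214252) (.br (nat_lit 1) (.cons (.br (nat_lit 2) (.cons (.rel (nat_lit 100667397)) .nil)) .nil)) (.node .leaf (nat_lit 3113869631551673) (.br (nat_lit 0) (.cons (.br (nat_lit 1) (.cons (.rel (nat_lit 22085634)) .nil)) .nil)) .leaf)) (nat_lit 3113869736151292) (.br (nat_lit 0) (.cons (.br (nat_lit 4) (.cons (.rel (nat_lit 1078468608)) .nil)) .nil)) (.node (.node .leaf (nat_lit 3113869736151340) (.br (nat_lit 1) (.cons (.br (nat_lit 4) (.cons (.rel (nat_lit 1107296262)) .nil)) .nil)) .leaf) (nat_lit 3113869736151727) (.br (nat_lit 0) (.cons (.br (nat_lit 3)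 (.cons (.rel (nat_lit 273776640)) .nil)) .nil)) .leaf)) (nat_lit 3113869736159882) (.br (nat_lit 0) (.cons (.br (nat_lit 1) (.cons (.rel (nat_lit 23069760)) .nil)) .nil)) (.node (.node (.node .leaf (nat_lit 3113869736159894) (.br (nat_lit 0) (.cons (.br (nat_lit 1) (.cons (.rel (nat_lit 22021380)) .nil)) .nil)) .leaf) (nat_lit 3113869736160793) (.br (nat_lit 3) (.cons (.br (nat_lit 4) (.cons (.rel (nat_lit 2684354625)) .nil)) .nil)) (.node .leaf (nat_lit 3113869736174473) (.br (nat_lit 0) (.cons (.br (nat_lit 1) (.cons (.rel (nat_lit 22021380)) .nil)) .nil)) .leaf)) (nat_lit 3113869736204565) (.br (nat_lit 5) (.cons (.br (nat_lit 1) (.cons (.rel (nat_lit 4312793109)) (.cons (.rel (nat_lit 4312793109)) .nil))) .nil)) (.node (.node .leaf (nat_lit 3113869736205190) (.br (nat_lit 5) (.cons (.br (nat_lit 6) (.cons (.rel (nat_lit 25770856512)) .nil)) .nil)) .leaf) (nat_lit 3113869736266355) (.br (nat_lit 1) (.cons (.br (nat_lit 3) (.cons (.rel (nat_lit 553653252)) .nil)) .nil))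 .leaf)))) (nat_lit 3113869736405177) (.br (nat_lit 2) (.cons (.br (nat_lit 0) (.cons (.rel (nat_lit 142607424)) (.cons (.rel (nat_lit 75497508)) .nil))) .nil)) (.node (.node (.node (.node (.node .leaf (nat_lit 3113869736405654) (.br (nat_lit 1) (.cons (.br (nat_lit 5) (.cons (.rel (nat_lit 4312794114)) .nil)) .nil)) .leaf) (nat_lit 3113869736405673) (.br (nat_lit 0) (.cons (.br (nat_lit 4) (.cons (.rel (nat_lit 1077940608)) .nil)) .nil)) (.node .leaf (nat_lit 3113869736406519) (.br (nat_lit 2) (.cons (.br (nat_lit 5) (.cons (.rel (nat_lit 4362207360)) .nil)) .nil)) .leaf)) (nat_lit 3113869736468615) (.br (nat_lit 6) (.cons (.br (nat_lit 0) (.cons (.rel (nat_lit 34363940865)) (.cons (.rel (nat_lit 34363938048)) .nil))) .nil)) (.node (.node .leaf (nat_lit 3113869736476799) (.br (nat_lit 1) (.cons (.br (nat_lit 3) (.cons (.rel (nat_lit 285475920)) .nil)) .nil)) .leaf) (nat_lit 3113869736476803) (.br (nat_lit 0) (.cons (.br (nat_lit 2) (.cons (.rel (nat_lit 71305344)) .nil))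 .nil)) .leaf)) (nat_lit 3113869736518512) (.br (nat_lit 1) (.cons (.br (nat_lit 2) (.cons (.rel (nat_lit 84418593)) .nil)) .nil)) (.node (.node (.node .leaf (nat_lit 3113869736519807) (.br (nat_lit 2) (.cons (.br (nat_lit 3) (.cons (.rel (nat_lit 603987984)) (.cons (.rel (nat_lit 336593928)) .nil))) .nil)) .leaf) (nat_lit 3113869736519815) (.br (nat_lit 2) (.cons (.br (nat_lit 0) (.cons (.rel (nat_lit 71565396)) (.cons (.rel (nat_lit 71827458)) (.cons (.rel (nat_lit 71566401)) (.cons (.rel (nat_lit 142607424)) .nil))))) (.cons (.br (nat_lit 0) (.cons (.rel (nat_lit 71305344)) (.cons (.rel (nat_lit 142607424)) (.cons (.rel (nat_lit 71565396)) (.cons (.rel (nat_lit 71566401)) .nil))))) .nil))) (.node .leaf (nat_lit 3113869736519831) (.br (nat_lit 2) (.cons (.br (nat_lit 1) (.cons (.rel (nat_lit 83887776)) (.cons (.rel (nat_lit 152371200)) .nil))) .nil)) .leaf)) (nat_lit 3113869736519861) (.br (nat_lit 2) (.cons (.br (nat_lit 5) (.cons (.rel (nat_lit 4429186560)) .nil))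 .nil)) (.node (.node .leaf (nat_lit 3113869736519865) (.br (nat_lit 2) (.cons (.br (nat_lit 6) (.cons (.rel (nat_lit 17314087200)) (.cons (.rel (nat_lit 17246994576)) .nil))) .nil)) .leaf) (nat_lit 3113869736519932) (.br (nat_lit 2) (.cons (.br (nat_lit 4) (.cons (.rel (nat_lit 1141899525)) .nil)) .nil)) .leaf))) (nat_lit 3113869736520305) (.br (nat_lit 1) (.cons (.br (nat_lit 2) (.cons (.rel (nat_lit 84951057)) .nil)) .nil)) (.node (.node (.node (.node .leaf (nat_lit 3113869736520361) (.br (nat_lit 2) (.cons (.br (nat_lit 4) (.cons (.rel (nat_lit 2283275265)) (.cons (.rel (nat_lit 1141243968)) .nil))) (.cons (.br (nat_lit 0) (.cons (.rel (nat_lit 71566401)) (.cons (.rel (nat_lit 71566401)) (.cons (.rel (nat_lit 71565396)) .nil)))) .nil))) .leaf) (nat_lit 3113869736520555) (.br (nat_lit 5) (.cons (.br (nat_lit 2) (.cons (.rel (nat_lit 4363125024)) (.cons (.rel (nat_lit 4429217796)) .nil))) .nil)) (.node .leaf (nat_lit 3113869736520606) (.br (nat_lit 1) (.cons (.br (nat_lit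 4) (.cons (.rel (nat_lit 1090535553)) .nil)) .nil)) .leaf)) (nat_lit 3113869736521241) (.br (nat_lit 1) (.cons (.br (nat_lit 4) (.cons (.rel (nat_lit 1091665920)) .nil)) .nil)) (.node (.node .leaf (nat_lit 3113869736665144) (.br (nat_lit 1) (.cons (.br (nat_lit 6) (.cons (.rel (nat_lit 34393554948)) .nil)) .nil)) .leaf) (nat_lit 3113869736665223) (.br (nat_lit 2) (.cons (.br (nat_lit 6) (.cons (.rel (nat_lit 17248026633)) .nil)) .nil)) .leaf)) (nat_lit 3113869736665269) (.br (nat_lit 4) (.cons (.br (nat_lit 5) (.cons (.rel (nat_lit 5368709520)) .nil)) .nil)) (.node (.node (.node .leaf (nat_lit 3113869736726583) (.br (nat_lit 1) (.cons (.br (nat_lit 5) (.cons (.rel (nat_lit 4311748740)) .nil)) .nil)) .leaf) (nat_lit 3113869736727430) (.br (nat_lit 1) (.cons (.br (nat_lit 6) (.cons (.rel (nat_lit 17196908625)) (.cons (.rel (nat_lit 17199009792)) .nil))) .nil)) .leaf) (nat_lit 3113869736775690) (.br (nat_lit 1) (.cons (.br (nat_lit 3) (.cons (.rel (nat_lit 570425412)) (.cons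 (.rel (nat_lit 286261764)) .nil))) .nil)) (.node (.node .leaf (nat_lit 3113869736776366) (.br (nat_lit 0) (.cons (.br (nat_lit 3) (.cons (.rel (nat_lit 276840456)) .nil)) .nil)) .leaf) (nat_lit 3113869737431095) (.br (nat_lit 1) (.cons (.br (nat_lit 3) (.cons (.rel (nat_lit 285475920)) .nil)) .nil)) .leaf))))) (nat_lit 3113869737431167) (.br (nat_lit 1) (.cons (.br (nat_lit 3) (.cons (.rel (nat_lit 287310144)) .nil)) .nil)) (.node (.node (.node (.node (.node (.node .leaf (nat_lit 3113869737431721) (.br (nat_lit 2) (.cons (.br (nat_lit 4) (.cons (.rel (nat_lit 1207964928)) (.cons (.rel (nat_lit 1208090628)) .nil))) .nil)) .leaf) (nat_lit 3113869737433273) (.br (nat_lit 4) (.cons (.br (nat_lit 5) (.cons (.rel (nat_lit 5369823744)) .nil)) .nil)) (.node .leaf (nat_lit 3113869737433738) (.br (nat_lit 2) (.cons (.br (nat_lit 4) (.cons (.rel (nat_lit 1140932736)) .nil)) .nil)) .leaf)) (nat_lit 3113869737451655) (.br (nat_lit 1) (.cons (.br (nat_lit 2) (.cons (.rel (nat_lit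 84217920)) (.cons (.br (nat_lit 4) (.cons (.rel (nat_lit 1090535553)) (.cons (.rel (nat_lit 2281979904)) .nil))) .nil))) .nil)) (.node (.node .leaf (nat_lit 3113869737453021) (.br (nat_lit 1) (.cons (.br (nat_lit 3) (.cons (.rel (nat_lit 286392336)) .nil)) .nil)) .leaf) (nat_lit 3113869737494658) (.br (nat_lit 1) (.cons (.br (nat_lit 5) (.cons (.rel (nat_lit 4312269090)) .nil)) .nil)) .leaf)) (nat_lit 3113869737496065) (.br (nat_lit 0) (.cons (.br (nat_lit 1) (.cons (.rel (nat_lit 22021380)) .nil)) .nil)) (.node (.node (.node .leaf (nat_lit 3113869737709703) (.br (nat_lit 4) (.cons (.br (nat_lit 5) (.cons (.rel (nat_lit 5368709520)) .nil)) .nil)) .leaf) (nat_lit 3113869737740419) (.br (nat_lit 6) (.cons (.br (nat_lit 1) (.cons (.rel (nat_lit 17213431824)) (.cons (.rel (nat_lit 17197727760)) .nil))) .nil)) (.node .leaf (nat_lit 3113869737748607) (.br (nat_lit 3) (.cons (.br (nat_lit 0) (.cons (.rel (nat_lit 273154308)) (.cons (.rel (nat_lit 276826368)) (.cons (.rel (nat_lit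 273680385)) .nil)))) .nil)) .leaf)) (nat_lit 3113869737748760) (.br (nat_lit 1) (.cons (.br (nat_lit 2) (.cons (.rel (nat_lit 167772489)) .nil)) .nil)) (.node (.node .leaf (nat_lit 3113869737749887) (.br (nat_lit 1) (.cons (.br (nat_lit 4) (.cons (.rel (nat_lit 1090785348)) .nil)) .nil)) .leaf) (nat_lit 3113869737962907) (.br (nat_lit 4) (.cons (.br (nat_lit 0) (.cons (.rel (nat_lit 1078984977)) (.cons (.rel (nat_lit 1080295428)) .nil))) .nil)) .leaf))) (nat_lit 3113869738068095) (.br (nat_lit 3) (.cons (.br (nat_lit 4) (.cons (.rel (nat_lit 1342441536)) .nil)) .nil)) (.node (.node (.node (.node .leaf (nat_lit 3113869738068769) (.br (nat_lit 0) (.cons (.br (nat_lit 4) (.cons (.rel (nat_lit 1077940608)) .nil)) .nil)) .leaf) (nat_lit 3113869738711095) (.br (nat_lit 1) (.cons (.br (nat_lit 2) (.cons (.rel (nat_lit 84217920)) .nil)) .nil)) (.node .leaf (nat_lit 3113869738720793) (.br (nat_lit 0) (.cons (.br (nat_lit 1) (.cons (.rel (nat_lit 22021380)) .nil)) .nil)) .leaf))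 (nat_lit 3113869739016327) (.br (nat_lit 2) (.cons (.br (nat_lit 4) (.cons (.rel (nat_lit 1208090628)) .nil)) .nil)) (.node (.node .leaf (nat_lit 3113869739016343) (.br (nat_lit 1) (.cons (.br (nat_lit 4) (.cons (.rel (nat_lit 1091568660)) .nil)) .nil)) .leaf) (nat_lit 3113869739021089) (.br (nat_lit 1) (.cons (.br (nat_lit 2) (.cons (.rel (nat_lit 100664580)) .nil)) .nil)) .leaf)) (nat_lit 3113869739030659) (.br (nat_lit 0) (.cons (.br (nat_lit 1) (.cons (.rel (nat_lit 41959488)) .nil)) .nil)) (.node (.node (.node .leaf (nat_lit 3113869739031283) (.br (nat_lit 1) (.cons (.br (nat_lit 6) (.cons (.rel (nat_lit 34376519712)) .nil)) .nil)) .leaf) (nat_lit 3113869739092718) (.br (nat_lit 6) (.cons (.br (nat_lit 4) (.cons (.rel (nat_lit 36507223104)) (.cons (.rel (nat_lit 18254676228)) .nil))) .nil)) .leaf) (nat_lit 3113869739093469) (.br (nat_lit 2) (.cons (.br (nat_lit 4) (.cons (.rel (nat_lit 1141383204)) .nil)) .nil)) (.node (.node .leaf (nat_lit 3113869739296255) (.br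 (nat_lit 1) (.cons (.br (nat_lit 4) (.cons (.rel (nat_lit 1090535553)) .nil)) .nil)) .leaf) (nat_lit 3113869739325471) (.br (nat_lit 0) (.cons (.br (nat_lit 1) (.cons (.rel (nat_lit 21315648)) .nil)) .nil)) .leaf)))) (nat_lit 3113869739325571) (.br (nat_lit 3) (.cons (.br (nat_lit 5) (.cons (.rel (nat_lit 4565827584)) (.cons (.rel (nat_lit 4565516352)) .nil))) .nil)) (.node (.node (.node (.node (.node .leaf (nat_lit 3113869739326065) (.br (nat_lit 1) (.cons (.br (nat_lit 5) (.cons (.rel (nat_lit 4312794114)) .nil)) .nil)) .leaf) (nat_lit 3113869739337784) (.br (nat_lit 1) (.cons (.br (nat_lit 0) (.cons (.rel (nat_lit 37752849)) (.cons (.rel (nat_lit 21626880)) .nil))) .nil)) (.node .leaf (nat_lit 3113869739337853) (.br (nat_lit 0) (.cons (.br (nat_lit 4) (.cons (.rel (nat_lit 1080295428)) .nil)) .nil)) .leaf)) (nat_lit 3113869739337855) (.br (nat_lit 1) (.cons (.br (nat_lit 2) (.cons (.rel (nat_lit 84164928)) .nil)) .nil)) (.node (.node .leaf (nat_lit 3113869739337913)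 (.br (nat_lit 0) (.cons (.br (nat_lit 2) (.cons (.rel (nat_lit 71565396)) .nil)) .nil)) .leaf) (nat_lit 3113869739344047) (.br (nat_lit 1) (.cons (.br (nat_lit 4) (.cons (.rel (nat_lit 1091043588)) .nil)) .nil)) .leaf)) (nat_lit 3113869739348103) (.br (nat_lit 6) (.cons (.br (nat_lit 1) (.cons (.rel (nat_lit 17213431824)) (.cons (.rel (nat_lit 34393554948)) (.cons (.rel (nat_lit 17197727760)) (.cons (.rel (nat_lit 34376519712)) .nil))))) .nil)) (.node (.node (.node .leaf (nat_lit 3113869739348873) (.br (nat_lit 6) (.cons (.br (nat_lit 0) (.cons (.rel (nat_lit 17185259520)) (.cons (.rel (nat_lit 34363940865)) .nil))) .nil)) .leaf) (nat_lit 3113869739349518) (.br (nat_lit 0) (.cons (.br (nat_lit 1) (.cons (.rel (nat_lit 21004416)) .nil)) .nil)) (.node .leaf (nat_lit 3113869755542410) (.br (nat_lit 1) (.cons (.br (nat_lit 2) (.cons (.rel (nat_lit 100667397)) .nil)) .nil)) .leaf)) (nat_lit 3113869770074243) (.br (nat_lit 1) (.cons (.br (nat_lit 2) (.cons (.rel (nat_lit 83887776))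 .nil)) .nil)) (.node (.node .leaf (nat_lit 3113869770074247) (.br (nat_lit 6) (.cons (.br (nat_lit 1) (.cons (.br (nat_lit 2) (.cons (.rel (nat_lit 83887776)) (.cons (.rel (nat_lit 34426880001)) .nil))) (.cons (.rel (nat_lit 17213431824)) .nil))) .nil)) .leaf) (nat_lit 3113869770987033) (.br (nat_lit 1) (.cons (.br (nat_lit 4) (.cons (.rel (nat_lit 1090535553)) .nil)) .nil)) .leaf))) (nat_lit 3113869772880003) (.br (nat_lit 0) (.cons (.br (nat_lit 1) (.cons (.rel (nat_lit 42270720)) .nil)) .nil)) (.node (.node (.node (.node .leaf (nat_lit 3113871762368647) (.br (nat_lit 3) (.cons (.br (nat_lit 4) (.cons (.rel (nat_lit 1342177410)) .nil)) .nil)) .leaf) (nat_lit 3113871765174303) (.br (nat_lit 0) (.cons (.br (nat_lit 2) (.cons (.rel (nat_lit 72482817)) (.cons (.rel (nat_lit 142607424)) .nil))) .nil)) (.node .leaf (nat_lit 3113871868242055) (.br (nat_lit 0) (.cons (.br (nat_lit 4) (.cons (.rel (nat_lit 1078198848)) .nil)) .nil)) .leaf)) (nat_lit 3113871869472130) (.br (nat_lit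 1) (.cons (.br (nat_lit 2) (.cons (.rel (nat_lit 100664580)) .nil)) .nil)) (.node (.node .leaf (nat_lit 3113872160827519) (.br (nat_lit 0) (.cons (.br (nat_lit 2) (.cons (.rel (nat_lit 142607424)) .nil)) .nil)) .leaf) (nat_lit 3113872160827527) (.br (nat_lit 2) (.cons (.br (nat_lit 4) (.cons (.rel (nat_lit 2281979904)) .nil)) .nil)) .leaf)) (nat_lit 3113872359138715) (.br (nat_lit 0) (.cons (.br (nat_lit 2) (.cons (.rel (nat_lit 75498513)) .nil)) .nil)) (.node (.node (.node .leaf (nat_lit 3113872360160793) (.br (nat_lit 1) (.cons (.br (nat_lit 4) (.cons (.rel (nat_lit 1090535553)) .nil)) .nil)) .leaf) (nat_lit 3113872360457719) (.br (nat_lit 0) (.cons (.br (nat_lit 1) (.cons (.rel (nat_lit 21004416)) .nil)) .nil)) .leaf) (nat_lit 3113873863714951) (.br (nat_lit 2) (.cons (.br (nat_lit 4) (.cons (.rel (nat_lit 1140932736)) (.cons (.rel (nat_lit 1140932736)) .nil))) (.cons (.br (nat_lit 4) (.cons (.rel (nat_lit 1141243968)) (.cons (.rel (nat_lit 1141966848)) .nil))) .nil)))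 (.node (.node .leaf (nat_lit 3113873863716127) (.br (nat_lit 0) (.cons (.br (nat_lit 1) (.cons (.rel (nat_lit 42270720)) .nil)) .nil)) .leaf) (nat_lit 3113874979399815) (.br (nat_lit 2) (.cons (.br (nat_lit 3) (.cons (.rel (nat_lit 402657312)) (.cons (.rel (nat_lit 335822928)) .nil))) .nil)) .leaf))))))

/-- refutations 42 -/
def e42 : EX := (.node (.node (.node (.node (.node .leaf (nat_lit 3113904096258183) (.br (nat_lit 1) (.cons (.br (nat_lit 2) (.cons (.rel (nat_lit 84934914)) .nil)) .nil)) .leaf) (nat_lit 3113904096258199) (.br (nat_lit 1) (.cons (.br (nat_lit 2) (.cons (.rel (nat_lit 84934914)) .nil)) .nil)) (.node .leaf (nat_lit 3113904097806463) (.br (nat_lit 0) (.cons (.br (nat_lit 3) (.cons (.rel (nat_lit 272896068)) .nil)) .nil)) .leaf)) (nat_lit 3113904098519946) (.br (nat_lit 1) (.cons (.br (nat_lit 3) (.cons (.rel (nat_lit 285212808)) (.cons (.rel (nat_lit 303104064)) .nil))) .nil)) (.node (.node .leaf (nat_lit 3113904113035391) (.br (nat_lit 1) (.cons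 (.br (nat_lit 2) (.cons (.rel (nat_lit 100664580)) (.cons (.rel (nat_lit 84217920)) .nil))) (.cons (.br (nat_lit 2) (.cons (.rel (nat_lit 83887776)) (.cons (.rel (nat_lit 84217920)) .nil))) .nil))) .leaf) (nat_lit 3113904113035399) (.br (nat_lit 1) (.cons (.br (nat_lit 3) (.cons (.rel (nat_lit 286278912)) .nil)) .nil)) .leaf)) (nat_lit 3113904115841159) (.br (nat_lit 4) (.cons (.br (nat_lit 6) (.cons (.rel (nat_lit 36507223104)) .nil)) .nil)) (.node (.node (.node .leaf (nat_lit 3113904132618371) (.br (nat_lit 3) (.cons (.br (nat_lit 4) (.cons (.rel (nat_lit 1342702593)) .nil)) .nil)) .leaf) (nat_lit 3113904132640903) (.br (nat_lit 3) (.cons (.br (nat_lit 5) (.cons (.rel (nat_lit 9126806592)) .nil)) .nil)) (.node .leaf (nat_lit 3113909341399946) (.br (nat_lit 1) (.cons (.br (nat_lit 4) (.cons (.rel (nat_lit 1090535553)) .nil)) .nil)) .leaf)) (nat_lit 3114118735460487) (.br (nat_lit 4) (.cons (.br (nat_lit 1) (.cons (.rel (nat_lit 2183135253)) (.cons (.rel (nat_lit 1107297312))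 .nil))) .nil)) (.node (.node .leaf (nat_lit 3114120434264199) (.br (nat_lit 0) (.cons (.br (nat_lit 2) (.cons (.rel (nat_lit 71565396)) .nil)) .nil)) .leaf) (nat_lit 3114127245813895) (.br (nat_lit 2) (.cons (.br (nat_lit 5) (.cons (.rel (nat_lit 4363125024)) .nil)) .nil)) .leaf))) (nat_lit 3114127248642183) (.br (nat_lit 1) (.cons (.br (nat_lit 3) (.cons (.rel (nat_lit 554959872)) .nil)) .nil)) (.node (.node (.node (.node .leaf (nat_lit 3114129858865287) (.br (nat_lit 1) (.cons (.br (nat_lit 5) (.cons (.rel (nat_lit 4312793109)) (.cons (.rel (nat_lit 8606711826)) .nil))) .nil)) .leaf) (nat_lit 3114129985884310) (.br (nat_lit 0) (.cons (.br (nat_lit 2) (.cons (.rel (nat_lit 75497508)) .nil)) .nil)) (.node .leaf (nat_lit 3114135911135367) (.br (nat_lit 1) (.cons (.br (nat_lit 4) (.cons (.rel (nat_lit 1091568660)) .nil)) .nil)) .leaf)) (nat_lit 3114135911245959) (.br (nat_lit 0) (.cons (.br (nat_lit 3) (.cons (.rel (nat_lit 276826368)) (.cons (.rel (nat_lit 273686784))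 .nil))) .nil)) (.node (.node .leaf (nat_lit 3114141267372167) (.br (nat_lit 0) (.cons (.br (nat_lit 1) (.cons (.rel (nat_lit 41959488)) .nil)) .nil)) .leaf) (nat_lit 3114290534260871) (.br (nat_lit 0) (.cons (.br (nat_lit 5) (.cons (.rel (nat_lit 4300275744)) .nil)) .nil)) .leaf)) (nat_lit 3114290534262919) (.br (nat_lit 0) (.cons (.br (nat_lit 2) (.cons (.rel (nat_lit 71385504)) (.cons (.rel (nat_lit 72385536)) .nil))) .nil)) (.node (.node (.node .leaf (nat_lit 3114299128340615) (.br (nat_lit 0) (.cons (.br (nat_lit 3) (.cons (.rel (nat_lit 272646273)) .nil)) .nil)) .leaf) (nat_lit 3114342182811833) (.br (nat_lit 0) (.cons (.br (nat_lit 1) (.cons (.rel (nat_lit 25187328)) .nil)) .nil)) (.node .leaf (nat_lit 3114342182812533) (.br (nat_lit 1) (.cons (.br (nat_lit 2) (.cons (.rel (nat_lit 100667397)) .nil)) .nil)) .leaf)) (nat_lit 3114342182922365) (.br (nat_lit 0) (.cons (.br (nat_lit 1) (.cons (.rel (nat_lit 37752849)) .nil)) .nil)) (.node (.node .leaf (nat_lit 3114344067176598)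 (.br (nat_lit 1) (.cons (.br (nat_lit 3) (.cons (.rel (nat_lit 570425412)) .nil)) .nil)) .leaf) (nat_lit 3114346310117511) (.br (nat_lit 1) (.cons (.br (nat_lit 3) (.cons (.rel (nat_lit 286392336)) .nil)) .nil)) .leaf))))

/-- refutations 43 -/
def e43 : EX := (.node (.node (.node (.node .leaf (nat_lit 3115192586087150) (.br (nat_lit 0) (.cons (.br (nat_lit 1) (.cons (.rel (nat_lit 21626880)) .nil)) .nil)) .leaf) (nat_lit 3115193985656984) (.br (nat_lit 1) (.cons (.br (nat_lit 2) (.cons (.rel (nat_lit 100728834)) .nil)) .nil)) (.node .leaf (nat_lit 3119444495018119) (.br (nat_lit 2) (.cons (.br (nat_lit 5) (.cons (.rel (nat_lit 4362207360)) .nil)) .nil)) .leaf)) (nat_lit 3119444637624455) (.br (nat_lit 0) (.cons (.br (nat_lit 1) (.cons (.rel (nat_lit 44044560)) .nil)) .nil)) (.node (.node .leaf (nat_lit 3119447029567623) (.br (nat_lit 0) (.cons (.br (nat_lit 2) (.cons (.rel (nat_lit 142868481)) .nil)) .nil)) .leaf) (nat_lit 3119667833317511) (.br (nat_lit 2) (.cons (.br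 (nat_lit 0) (.cons (.rel (nat_lit 142868481)) (.cons (.rel (nat_lit 72368388)) (.cons (.rel (nat_lit 142607424)) .nil)))) .nil)) .leaf)) (nat_lit 3119667942369415) (.br (nat_lit 2) (.cons (.br (nat_lit 5) (.cons (.rel (nat_lit 4429186560)) .nil)) .nil)) (.node (.node (.node .leaf (nat_lit 3119672447051911) (.br (nat_lit 0) (.cons (.br (nat_lit 3) (.cons (.rel (nat_lit 272663184)) .nil)) .nil)) .leaf) (nat_lit 3119672449876248) (.br (nat_lit 0) (.cons (.br (nat_lit 3) (.cons (.rel (nat_lit 273680385)) .nil)) .nil)) .leaf) (nat_lit 3119719481977582) (.br (nat_lit 0) (.cons (.br (nat_lit 2) (.cons (.rel (nat_lit 71566401)) .nil)) .nil)) (.node (.node .leaf (nat_lit 3119723604978544) (.br (nat_lit 0) (.cons (.br (nat_lit 2) (.cons (.rel (nat_lit 142607424)) .nil)) .nil)) .leaf) (nat_lit 3119724660244615) (.br (nat_lit 0) (.cons (.br (nat_lit 4) (.cons (.rel (nat_lit 1078198848)) .nil)) .nil)) .leaf)))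

/-- refutations 44 -/
def e44 : EX := (.node (.node (.node .leaf (nat_lit 3120349168642183) (.br (nat_lit 1) (.cons (.br (nat_lit 3) (.cons (.rel (nat_lit 553713684)) .nil)) .nil)) .leaf) (nat_lit 3120356730972962) (.br (nat_lit 3) (.cons (.br (nat_lit 5) (.cons (.rel (nat_lit 9126806592)) .nil)) .nil)) .leaf) (nat_lit 3120476797118599) (.br (nat_lit 1) (.cons (.br (nat_lit 5) (.cons (.rel (nat_lit 4312793109)) .nil)) .nil)) (.node (.node .leaf (nat_lit 3120569270169735) (.br (nat_lit 1) (.cons (.br (nat_lit 2) (.cons (.rel (nat_lit 83895429)) .nil)) .nil)) .leaf) (nat_lit 3121591492126855) (.br (nat_lit 0) (.cons (.br (nat_lit 1) (.cons (.rel (nat_lit 22038528)) .nil)) .nil)) .leaf))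

/-- refutations 45 -/
def e45 : EX := (.node (.node (.node (.node .leaf (nat_lit 3121805617068284) (.br (nat_lit 6) (.cons (.br (nat_lit 0) (.cons (.rel (nat_lit 17188258068)) (.cons (.br (nat_lit 1) (.cons (.rel (nat_lit 37765125)) (.cons (.rel (nat_lit 17196647568)) .nil))) .nil))) .nil)) .leaf) (nat_lit 3121805617068713) (.br (nat_lit 0) (.cons (.br (nat_lit 5) (.cons (.rel (nat_lit 4300210440)) .nil)) .nil)) .leaf) (nat_lit 3121806837014713) (.br (nat_lit 3) (.cons (.br (nat_lit 4) (.cons (.rel (nat_lit 1342702593)) .nil)) .nil)) (.node .leaf (nat_lit 3121806837015430) (.br (nat_lit 1) (.cons (.br (nat_lit 2) (.cons (.rel (nat_lit 84951057)) .nil)) .nil)) .leaf)) (nat_lit 3121806837610748) (.br (nat_lit 0) (.cons (.br (nat_lit 4) (.cons (.br (nat_lit 1) (.cons (.rel (nat_lit 37765125)) (.cons (.rel (nat_lit 23330817)) (.cons (.rel (nat_lit 1107316992)) .nil)))) .nil)) .nil)) (.node (.node (.node .leaf (nat_lit 3124770363517063) (.br (nat_lit 1) (.cons (.br (nat_lit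 3) (.cons (.rel (nat_lit 286331904)) (.cons (.rel (nat_lit 286278912)) .nil))) .nil)) .leaf) (nat_lit 3124770363518489) (.br (nat_lit 0) (.cons (.br (nat_lit 1) (.cons (.rel (nat_lit 25187328)) .nil)) .nil)) .leaf) (nat_lit 3124821903124615) (.br (nat_lit 1) (.cons (.br (nat_lit 3) (.cons (.rel (nat_lit 286331904)) .nil)) .nil)) (.node .leaf (nat_lit 3125642183159265) (.br (nat_lit 1) (.cons (.br (nat_lit 4) (.cons (.rel (nat_lit 1091568660)) .nil)) .nil)) .leaf)))

/-- refutations 47 -/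
def e47 : EX := (.node (.node (.node (.node (.node (.node .leaf (nat_lit 3184204123764871) (.br (nat_lit 3) (.cons (.br (nat_lit 5) (.cons (.rel (nat_lit 9126806592)) .nil)) .nil)) .leaf) (nat_lit 3184204137390391) (.br (nat_lit 4) (.cons (.br (nat_lit 6) (.cons (.rel (nat_lit 18254135298)) .nil)) .nil)) (.node .leaf (nat_lit 3184204137736319) (.br (nat_lit 1) (.cons (.br (nat_lit 2) (.cons (.rel (nat_lit 84217920)) (.cons (.rel (nat_lit 167777361)) .nil))) .nil)) .leaf)) (nat_lit 3184204137881735) (.br (nat_lit 2) (.cons (.br (nat_lit 3) (.cons (.br (nat_lit 6) (.cons (.rel (nat_lit 17784111108)) .nil)) .nil)) .nil)) (.node (.node .leaf (nat_lit 3184204139169927) (.br (nat_lit 1) (.cons (.br (nat_lit 4) (.cons (.rel (nat_lit 1107296262)) (.cons (.rel (nat_lit 2164260873)) (.cons (.rel (nat_lit 2164262928)) .nil)))) .nil)) .leaf) (nat_lit 3184204139262083) (.br (nat_lit 2) (.cons (.br (nat_lit 6) (.cons (.rel (nat_lit 17247506433)) .nil)) .nil)) .leaf)) (nat_lit 3184204140542079)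 (.br (nat_lit 3) (.cons (.br (nat_lit 5) (.cons (.rel (nat_lit 4564485120)) .nil)) .nil)) (.node (.node (.node .leaf (nat_lit 3184204140550275) (.br (nat_lit 5) (.cons (.br (nat_lit 3) (.cons (.rel (nat_lit 4563927042)) (.cons (.rel (nat_lit 4564467972)) .nil))) .nil)) .leaf) (nat_lit 3184204140550279) (.br (nat_lit 0) (.cons (.br (nat_lit 2) (.cons (.rel (nat_lit 142607424)) (.cons (.rel (nat_lit 75534336)) .nil))) (.cons (.br (nat_lit 2) (.cons (.rel (nat_lit 71827458)) (.cons (.rel (nat_lit 142607424)) .nil))) .nil))) .leaf) (nat_lit 3184204154513543) (.br (nat_lit 1) (.cons (.br (nat_lit 3) (.cons (.rel (nat_lit 553648416)) .nil)) .nil)) (.node (.node .leaf (nat_lit 3184204156039299) (.br (nat_lit 3) (.cons (.br (nat_lit 6) (.cons (.rel (nat_lit 17448894720)) .nil)) .nil)) .leaf) (nat_lit 3184204157327495) (.br (nat_lit 1) (.cons (.br (nat_lit 6) (.cons (.rel (nat_lit 17213431824)) .nil)) .nil)) .leaf))) (nat_lit 3184209383422079) (.br (nat_lit 0) (.cons (.br (nat_lit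 4) (.cons (.rel (nat_lit 1077940608)) .nil)) .nil)) (.node (.node (.node (.node .leaf (nat_lit 3184209383422087) (.br (nat_lit 2) (.cons (.br (nat_lit 5) (.cons (.rel (nat_lit 4364436480)) .nil)) .nil)) .leaf) (nat_lit 3184209383430275) (.br (nat_lit 0) (.cons (.br (nat_lit 1) (.cons (.rel (nat_lit 22024197)) (.cons (.rel (nat_lit 23330817)) (.cons (.rel (nat_lit 23330817)) .nil)))) .nil)) .leaf) (nat_lit 3184238480584886) (.br (nat_lit 0) (.cons (.br (nat_lit 2) (.cons (.rel (nat_lit 73416768)) .nil)) .nil)) (.node (.node .leaf (nat_lit 3184238480697479) (.br (nat_lit 6) (.cons (.br (nat_lit 3) (.cons (.rel (nat_lit 17449369617)) (.cons (.rel (nat_lit 34628173845)) .nil))) .nil)) .leaf) (nat_lit 3184238497106231) (.br (nat_lit 4) (.cons (.br (nat_lit 0) (.cons (.rel (nat_lit 1082196228)) (.cons (.rel (nat_lit 1077940608)) .nil))) .nil)) .leaf)) (nat_lit 3184238497114423) (.br (nat_lit 0) (.cons (.br (nat_lit 4) (.cons (.rel (nat_lit 1078198848)) .nil)) .nil)) (.node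 (.node (.node .leaf (nat_lit 3184238498395662) (.br (nat_lit 4) (.cons (.br (nat_lit 6) (.cons (.rel (nat_lit 35434528836)) .nil)) .nil)) .leaf) (nat_lit 3184238498746499) (.br (nat_lit 0) (.cons (.br (nat_lit 1) (.cons (.rel (nat_lit 22024197)) .nil)) .nil)) .leaf) (nat_lit 3184238498908295) (.br (nat_lit 2) (.cons (.br (nat_lit 6) (.cons (.rel (nat_lit 17248026633)) .nil)) .nil)) (.node (.node .leaf (nat_lit 3184238499000451) (.br (nat_lit 1) (.cons (.br (nat_lit 3) (.cons (.rel (nat_lit 570425412)) .nil)) .nil)) .leaf) (nat_lit 3184238499001195) (.br (nat_lit 0) (.cons (.br (nat_lit 1) (.cons (.rel (nat_lit 22026264)) .nil)) .nil)) .leaf)))) (nat_lit 3184238499675662) (.br (nat_lit 3) (.cons (.br (nat_lit 4) (.cons (.rel (nat_lit 1343234064)) .nil)) .nil)) (.node (.node (.node (.node (.node .leaf (nat_lit 3184238499688759) (.br (nat_lit 0) (.cons (.br (nat_lit 2) (.cons (.rel (nat_lit 142868481)) .nil)) .nil)) .leaf) (nat_lit 3184238500288647) (.br (nat_lit 0) (.cons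 (.br (nat_lit 1) (.cons (.rel (nat_lit 25175064)) .nil)) .nil)) .leaf) (nat_lit 3184238500291187) (.br (nat_lit 1) (.cons (.br (nat_lit 3) (.cons (.rel (nat_lit 553648416)) (.cons (.rel (nat_lit 285212808)) .nil))) (.cons (.br (nat_lit 2) (.cons (.rel (nat_lit 83906688)) (.cons (.rel (nat_lit 83906688)) .nil))) .nil))) (.node (.node .leaf (nat_lit 3184238513905975) (.br (nat_lit 0) (.cons (.br (nat_lit 1) (.cons (.rel (nat_lit 21004416)) .nil)) .nil)) .leaf) (nat_lit 3184238514251911) (.br (nat_lit 1) (.cons (.br (nat_lit 3) (.cons (.rel (nat_lit 553648416)) .nil)) .nil)) .leaf)) (nat_lit 3184238515777667) (.br (nat_lit 1) (.cons (.br (nat_lit 2) (.cons (.rel (nat_lit 84476160)) .nil)) .nil)) (.node (.node (.node .leaf (nat_lit 3184241119835662) (.br (nat_lit 1) (.cons (.br (nat_lit 2) (.cons (.rel (nat_lit 152059968)) .nil)) .nil)) .leaf) (nat_lit 3184241121115662) (.br (nat_lit 1) (.cons (.br (nat_lit 2) (.cons (.rel (nat_lit 152059968)) .nil)) .nil)) .leaf) (nat_lit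 3184243720611975) (.br (nat_lit 0) (.cons (.br (nat_lit 1) (.cons (.rel (nat_lit 21626880)) .nil)) .nil)) (.node (.node .leaf (nat_lit 3184243741788295) (.br (nat_lit 1) (.cons (.br (nat_lit 4) (.cons (.rel (nat_lit 1091043588)) .nil)) .nil)) .leaf) (nat_lit 3184243742600074) (.br (nat_lit 2) (.cons (.br (nat_lit 4) (.cons (.rel (nat_lit 1141899525)) .nil)) .nil)) .leaf))) (nat_lit 3184243742608262) (.br (nat_lit 1) (.cons (.br (nat_lit 2) (.cons (.rel (nat_lit 100667397)) .nil)) .nil)) (.node (.node (.node (.node .leaf (nat_lit 3184243743168647) (.br (nat_lit 1) (.cons (.br (nat_lit 4) (.cons (.rel (nat_lit 1090535553)) (.cons (.rel (nat_lit 2164260873)) .nil))) .nil)) .leaf) (nat_lit 3184243762555015) (.br (nat_lit 0) (.cons (.br (nat_lit 1) (.cons (.rel (nat_lit 23330817)) .nil)) .nil)) .leaf) (nat_lit 3184272843241607) (.br (nat_lit 3) (.cons (.br (nat_lit 5) (.cons (.rel (nat_lit 9126806592)) .nil)) .nil)) (.node (.node .leaf (nat_lit 3184272857359142) (.br (nat_lit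 0) (.cons (.br (nat_lit 1) (.cons (.rel (nat_lit 22021380)) .nil)) .nil)) .leaf) (nat_lit 3184272857482723) (.br (nat_lit 1) (.cons (.br (nat_lit 2) (.cons (.rel (nat_lit 100664580)) .nil)) .nil)) .leaf)) (nat_lit 3184272858433671) (.br (nat_lit 1) (.cons (.br (nat_lit 6) (.cons (.rel (nat_lit 17197727760)) .nil)) .nil)) (.node (.node (.node .leaf (nat_lit 3184272858484867) (.br (nat_lit 1) (.cons (.br (nat_lit 5) (.cons (.rel (nat_lit 4311748740)) .nil)) .nil)) .leaf) (nat_lit 3184272859414030) (.br (nat_lit 3) (.cons (.br (nat_lit 4) (.cons (.rel (nat_lit 2684354625)) (.cons (.rel (nat_lit 1343234064)) .nil))) .nil)) .leaf) (nat_lit 3184272859781255) (.br (nat_lit 0) (.cons (.br (nat_lit 1) (.cons (.rel (nat_lit 25247760)) .nil)) .nil)) (.node (.node .leaf (nat_lit 3184272860018823) (.br (nat_lit 5) (.cons (.br (nat_lit 6) (.cons (.rel (nat_lit 21475098690)) .nil)) .nil)) .leaf) (nat_lit 3184272860027011) (.br (nat_lit 3) (.cons (.br (nat_lit 4) (.cons (.rel (nat_lit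 1342701588)) .nil)) .nil)) .leaf)))))

/-- refutations 48 -/
def e48 : EX := (.node .leaf (nat_lit 3184710759329918) (.br (nat_lit 0) (.cons (.br (nat_lit 2) (.cons (.rel (nat_lit 72385536)) .nil)) .nil)) .leaf)

/-- refutations 50 -/
def e50 : EX := (.node (.node (.node (.node (.node (.node (.node .leaf (nat_lit 3254572866326663) (.br (nat_lit 0) (.cons (.br (nat_lit 1) (.cons (.rel (nat_lit 22085634)) .nil)) .nil)) .leaf) (nat_lit 3254572881568055) (.br (nat_lit 1) (.cons (.br (nat_lit 3) (.cons (.rel (nat_lit 285212808)) .nil)) .nil)) .leaf) (nat_lit 3254572883447935) (.br (nat_lit 0) (.cons (.br (nat_lit 2) (.cons (.rel (nat_lit 71305344)) .nil)) .nil)) (.node .leaf (nat_lit 3254572884742275) (.br (nat_lit 1) (.cons (.br (nat_lit 6) (.cons (.rel (nat_lit 17213431824)) .nil)) .nil)) .leaf)) (nat_lit 3254572898322743) (.br (nat_lit 0) (.cons (.br (nat_lit 1) (.cons (.rel (nat_lit 41959488)) .nil)) .nil)) (.node (.node .leaf (nat_lit 3254572898345271) (.br (nat_lit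 0) (.cons (.br (nat_lit 1) (.cons (.rel (nat_lit 41959488)) .nil)) .nil)) .leaf) (nat_lit 3254572898627739) (.br (nat_lit 1) (.cons (.br (nat_lit 2) (.cons (.rel (nat_lit 83906688)) .nil)) .nil)) (.node .leaf (nat_lit 3254572898689179) (.br (nat_lit 0) (.cons (.br (nat_lit 1) (.cons (.rel (nat_lit 22021380)) .nil)) .nil)) .leaf))) (nat_lit 3254572898691203) (.br (nat_lit 1) (.cons (.br (nat_lit 4) (.cons (.rel (nat_lit 1091569665)) .nil)) .nil)) (.node (.node (.node .leaf (nat_lit 3254572899881095) (.br (nat_lit 1) (.cons (.br (nat_lit 3) (.cons (.rel (nat_lit 570425412)) .nil)) .nil)) .leaf) (nat_lit 3254572899920007) (.br (nat_lit 3) (.cons (.br (nat_lit 6) (.cons (.rel (nat_lit 17448894720)) .nil)) .nil)) (.node .leaf (nat_lit 3254572900132999) (.br (nat_lit 0) (.cons (.br (nat_lit 3) (.cons (.rel (nat_lit 273154308)) .nil)) .nil)) .leaf)) (nat_lit 3254572900225151) (.br (nat_lit 6) (.cons (.br (nat_lit 0) (.cons (.rel (nat_lit 17185116672)) (.cons (.rel (nat_lit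 17188258068)) .nil))) .nil)) (.node (.node .leaf (nat_lit 3254575520376963) (.br (nat_lit 0) (.cons (.br (nat_lit 1) (.cons (.rel (nat_lit 25187328)) .nil)) .nil)) .leaf) (nat_lit 3254578144399491) (.br (nat_lit 1) (.cons (.br (nat_lit 3) (.cons (.rel (nat_lit 304613376)) .nil)) .nil)) (.node .leaf (nat_lit 3254607056992416) (.br (nat_lit 0) (.cons (.br (nat_lit 1) (.cons (.rel (nat_lit 22024197)) .nil)) .nil)) .leaf)))) (nat_lit 3254607056992438) (.br (nat_lit 1) (.cons (.br (nat_lit 5) (.cons (.rel (nat_lit 4313055360)) .nil)) .nil)) (.node (.node (.node (.node .leaf (nat_lit 3254607120017543) (.br (nat_lit 0) (.cons (.br (nat_lit 1) (.cons (.rel (nat_lit 25231617)) .nil)) .nil)) .leaf) (nat_lit 3254607224823968) (.br (nat_lit 1) (.cons (.br (nat_lit 3) (.cons (.rel (nat_lit 301990416)) .nil)) .nil)) (.node .leaf (nat_lit 3254607224832127) (.br (nat_lit 1) (.cons (.br (nat_lit 3) (.cons (.rel (nat_lit 287310144)) .nil)) .nil)) .leaf)) (nat_lit 3254607224875139) (.br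 (nat_lit 1) (.cons (.br (nat_lit 3) (.cons (.rel (nat_lit 285475920)) (.cons (.rel (nat_lit 287310144)) .nil))) .nil)) (.node (.node .leaf (nat_lit 3254607224875143) (.br (nat_lit 1) (.cons (.br (nat_lit 2) (.cons (.rel (nat_lit 84217920)) .nil)) .nil)) .leaf) (nat_lit 3254607226065031) (.br (nat_lit 3) (.cons (.br (nat_lit 4) (.cons (.rel (nat_lit 1343307777)) (.cons (.rel (nat_lit 2417230080)) .nil))) (.cons (.br (nat_lit 5) (.cons (.rel (nat_lit 4563927042)) (.cons (.rel (nat_lit 9127067649)) .nil))) .nil))) (.node .leaf (nat_lit 3254607226409091) (.br (nat_lit 3) (.cons (.br (nat_lit 4) (.cons (.rel (nat_lit 1342702593)) .nil)) .nil)) .leaf))) (nat_lit 3254607227067293) (.br (nat_lit 1) (.cons (.br (nat_lit 6) (.cons (.rel (nat_lit 17197727760)) .nil)) .nil)) (.node (.node (.node .leaf (nat_lit 3254607227128714) (.br (nat_lit 1) (.cons (.br (nat_lit 4) (.cons (.rel (nat_lit 1091569665)) .nil)) .nil)) .leaf) (nat_lit 3254607227689087) (.br (nat_lit 3) (.cons (.br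 (nat_lit 5) (.cons (.rel (nat_lit 4563927042)) (.cons (.rel (nat_lit 9127067649)) .nil))) .nil)) (.node .leaf (nat_lit 3254607227703431) (.br (nat_lit 5) (.cons (.br (nat_lit 6) (.cons (.rel (nat_lit 21475362816)) .nil)) .nil)) .leaf)) (nat_lit 3254607242587662) (.br (nat_lit 1) (.cons (.br (nat_lit 3) (.cons (.rel (nat_lit 304087188)) .nil)) .nil)) (.node (.node .leaf (nat_lit 3254607242842247) (.br (nat_lit 5) (.cons (.br (nat_lit 2) (.cons (.rel (nat_lit 8724217920)) (.cons (.rel (nat_lit 4363129860)) .nil))) .nil)) .leaf) (nat_lit 3254607243186303) (.br (nat_lit 1) (.cons (.br (nat_lit 3) (.cons (.rel (nat_lit 304613376)) .nil)) .nil)) (.node .leaf (nat_lit 3254607244466311) (.br (nat_lit 1) (.cons (.br (nat_lit 0) (.cons (.rel (nat_lit 21626880)) (.cons (.rel (nat_lit 21626880)) (.cons (.rel (nat_lit 22021380)) .nil)))) (.cons (.br (nat_lit 5) (.cons (.rel (nat_lit 4328521761)) (.cons (.rel (nat_lit 8606712840)) .nil))) .nil))) .leaf))))) (nat_lit 3254607244467736)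 (.br (nat_lit 3) (.cons (.br (nat_lit 5) (.cons (.rel (nat_lit 9127067649)) .nil)) .nil)) (.node (.node (.node (.node (.node .leaf (nat_lit 3254607244480643) (.br (nat_lit 1) (.cons (.br (nat_lit 4) (.cons (.rel (nat_lit 1092091968)) (.cons (.rel (nat_lit 1091043588)) .nil))) .nil)) .leaf) (nat_lit 3254607258061100) (.br (nat_lit 0) (.cons (.br (nat_lit 4) (.cons (.rel (nat_lit 2151683076)) .nil)) .nil)) (.node .leaf (nat_lit 3254607258318983) (.br (nat_lit 0) (.cons (.br (nat_lit 1) (.cons (.rel (nat_lit 42270720)) .nil)) .nil)) .leaf)) (nat_lit 3254607258366114) (.br (nat_lit 0) (.cons (.br (nat_lit 1) (.cons (.rel (nat_lit 42270720)) (.cons (.rel (nat_lit 23069760)) .nil))) .nil)) (.node (.node .leaf (nat_lit 3254607258429571) (.br (nat_lit 6) (.cons (.br (nat_lit 1) (.cons (.rel (nat_lit 17197711617)) (.cons (.br (nat_lit 4) (.cons (.rel (nat_lit 36507484161)) (.cons (.rel (nat_lit 18287169600)) (.cons (.rel (nat_lit 36507484161)) .nil)))) .nil))) .nil)) .leaf) (nat_lit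 3254607258430975) (.br (nat_lit 1) (.cons (.br (nat_lit 2) (.cons (.rel (nat_lit 85001232)) .nil)) .nil)) (.node .leaf (nat_lit 3254607258676760) (.br (nat_lit 0) (.cons (.br (nat_lit 5) (.cons (.rel (nat_lit 4299690240)) .nil)) .nil)) .leaf))) (nat_lit 3254607259411959) (.br (nat_lit 0) (.cons (.br (nat_lit 2) (.cons (.rel (nat_lit 71566401)) .nil)) .nil)) (.node (.node (.node .leaf (nat_lit 3254607259619463) (.br (nat_lit 1) (.cons (.br (nat_lit 2) (.cons (.rel (nat_lit 84217920)) (.cons (.rel (nat_lit 84934914)) .nil))) (.cons (.br (nat_lit 2) (.cons (.rel (nat_lit 100667397)) (.cons (.rel (nat_lit 100667397)) .nil))) .nil))) .leaf) (nat_lit 3254607259963519) (.br (nat_lit 1) (.cons (.br (nat_lit 2) (.cons (.rel (nat_lit 84476160)) .nil)) .nil)) (.node .leaf (nat_lit 3254607259963523) (.br (nat_lit 5) (.cons (.br (nat_lit 6) (.cons (.rel (nat_lit 21475362816)) (.cons (.rel (nat_lit 38654722053)) .nil))) .nil)) .leaf)) (nat_lit 3254607260622361) (.br (nat_lit 1) (.cons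 (.br (nat_lit 2) (.cons (.rel (nat_lit 83906688)) .nil)) .nil)) (.node (.node .leaf (nat_lit 3254607260629924) (.br (nat_lit 1) (.cons (.br (nat_lit 3) (.cons (.rel (nat_lit 286331904)) (.cons (.rel (nat_lit 285212808)) .nil))) .nil)) .leaf) (nat_lit 3254607260889250) (.br (nat_lit 1) (.cons (.br (nat_lit 2) (.cons (.rel (nat_lit 83906688)) .nil)) .nil)) (.node .leaf (nat_lit 3254607261243519) (.br (nat_lit 3) (.cons (.br (nat_lit 5) (.cons (.rel (nat_lit 9127067649)) .nil)) .nil)) .leaf)))) (nat_lit 3254607261243527) (.br (nat_lit 0) (.cons (.br (nat_lit 1) (.cons (.rel (nat_lit 37765125)) (.cons (.rel (nat_lit 23330817)) .nil))) (.cons (.br (nat_lit 1) (.cons (.rel (nat_lit 41959488)) (.cons (.rel (nat_lit 41959488)) .nil))) .nil))) (.node (.node (.node (.node .leaf (nat_lit 3254607261257859) (.br (nat_lit 1) (.cons (.br (nat_lit 0) (.cons (.rel (nat_lit 41959488)) (.cons (.rel (nat_lit 23069760)) .nil))) .nil)) .leaf) (nat_lit 3254607261257863) (.br (nat_lit 4) (.cons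 (.br (nat_lit 3) (.cons (.rel (nat_lit 1342701588)) (.cons (.rel (nat_lit 1342701588)) .nil))) .nil)) (.node .leaf (nat_lit 3254609879826563) (.br (nat_lit 1) (.cons (.br (nat_lit 6) (.cons (.rel (nat_lit 34376519712)) .nil)) .nil)) .leaf)) (nat_lit 3254609879869571) (.br (nat_lit 2) (.cons (.br (nat_lit 5) (.cons (.rel (nat_lit 8724217920)) .nil)) .nil)) (.node (.node .leaf (nat_lit 3254609882060935) (.br (nat_lit 1) (.cons (.br (nat_lit 2) (.cons (.rel (nat_lit 83906688)) .nil)) .nil)) .leaf) (nat_lit 3254609882062361) (.br (nat_lit 1) (.cons (.br (nat_lit 2) (.cons (.rel (nat_lit 83906688)) .nil)) .nil)) (.node .leaf (nat_lit 3254609882325127) (.br (nat_lit 5) (.cons (.br (nat_lit 6) (.cons (.rel (nat_lit 42949936128)) .nil)) .nil)) .leaf))) (nat_lit 3254609882376469) (.br (nat_lit 2) (.cons (.br (nat_lit 5) (.cons (.rel (nat_lit 8724156486)) .nil)) .nil)) (.node (.node (.node .leaf (nat_lit 3254609882684323) (.br (nat_lit 4) (.cons (.br (nat_lit 5) (.cons (.rel (nat_lit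 5368709520)) .nil)) .nil)) .leaf) (nat_lit 3254609882684952) (.br (nat_lit 1) (.cons (.br (nat_lit 6) (.cons (.rel (nat_lit 17199009792)) .nil)) .nil)) (.node .leaf (nat_lit 3254611350331527) (.br (nat_lit 0) (.cons (.br (nat_lit 1) (.cons (.rel (nat_lit 41959488)) .nil)) .nil)) .leaf)) (nat_lit 3254611350700659) (.br (nat_lit 0) (.cons (.br (nat_lit 1) (.cons (.rel (nat_lit 25247760)) .nil)) .nil)) (.node (.node .leaf (nat_lit 3254612502530175) (.br (nat_lit 0) (.cons (.br (nat_lit 2) (.cons (.rel (nat_lit 142868481)) .nil)) .nil)) .leaf) (nat_lit 3254612504123519) (.br (nat_lit 0) (.cons (.br (nat_lit 6) (.cons (.rel (nat_lit 17184654336)) .nil)) .nil)) (.node .leaf (nat_lit 3254612504137863) (.br (nat_lit 2) (.cons (.br (nat_lit 3) (.cons (.rel (nat_lit 606602241)) .nil)) .nil)) .leaf))))))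

/-- refutations 51 -/
def e51 : EX := (.node (.node (.node (.node (.node .leaf (nat_lit 3254641586147459) (.br (nat_lit 3) (.cons (.br (nat_lit 4) (.cons (.rel (nat_lit 1342702593)) .nil)) .nil)) .leaf) (nat_lit 3254641587427455) (.br (nat_lit 0) (.cons (.br (nat_lit 1) (.cons (.rel (nat_lit 25187328)) .nil)) .nil)) .leaf) (nat_lit 3254641601390719) (.br (nat_lit 1) (.cons (.br (nat_lit 2) (.cons (.rel (nat_lit 84476160)) .nil)) .nil)) (.node .leaf (nat_lit 3254641601390723) (.br (nat_lit 2) (.cons (.br (nat_lit 3) (.cons (.rel (nat_lit 335822928)) .nil)) .nil)) .leaf)) (nat_lit 3254641602326030) (.br (nat_lit 1) (.cons (.br (nat_lit 3) (.cons (.rel (nat_lit 304087188)) .nil)) .nil)) (.node (.node .leaf (nat_lit 3254641619103246) (.br (nat_lit 1) (.cons (.br (nat_lit 2) (.cons (.rel (nat_lit 84164928)) .nil)) .nil)) .leaf) (nat_lit 3254641619601535) (.br (nat_lit 2) (.cons (.br (nat_lit 6) (.cons (.rel (nat_lit 17247506433)) .nil)) .nil)) (.node .leaf (nat_lit 3254641619609735)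 (.br (nat_lit 0) (.cons (.br (nat_lit 2) (.cons (.rel (nat_lit 142607424)) .nil)) .nil)) .leaf))) (nat_lit 3254641620981887) (.br (nat_lit 1) (.cons (.br (nat_lit 4) (.cons (.rel (nat_lit 1091060736)) .nil)) .nil)) (.node (.node (.node (.node .leaf (nat_lit 3254641620996231) (.br (nat_lit 1) (.cons (.br (nat_lit 3) (.cons (.rel (nat_lit 554959872)) .nil)) .nil)) .leaf) (nat_lit 3254644242176127) (.br (nat_lit 0) (.cons (.br (nat_lit 1) (.cons (.rel (nat_lit 23330817)) .nil)) .nil)) .leaf) (nat_lit 3254646861047939) (.br (nat_lit 1) (.cons (.br (nat_lit 2) (.cons (.rel (nat_lit 83906688)) .nil)) .nil)) (.node .leaf (nat_lit 3254646863861887) (.br (nat_lit 0) (.cons (.br (nat_lit 1) (.cons (.rel (nat_lit 23330817)) .nil)) .nil)) .leaf)) (nat_lit 3254813416859779) (.br (nat_lit 1) (.cons (.br (nat_lit 2) (.cons (.rel (nat_lit 151028736)) .nil)) .nil)) (.node (.node .leaf (nat_lit 3254813418038679) (.br (nat_lit 0) (.cons (.br (nat_lit 1) (.cons (.rel (nat_lit 25171233))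 .nil)) .nil)) .leaf) (nat_lit 3254985198663865) (.br (nat_lit 0) (.cons (.br (nat_lit 1) (.cons (.rel (nat_lit 22021380)) .nil)) .nil)) (.node .leaf (nat_lit 3255036618188935) (.br (nat_lit 0) (.cons (.br (nat_lit 1) (.cons (.rel (nat_lit 21626880)) .nil)) .nil)) .leaf))))

/-- refutations 52 -/
def e52 : EX := (.node .leaf (nat_lit 3261298819011462) (.br (nat_lit 1) (.cons (.br (nat_lit 3) (.cons (.rel (nat_lit 286331904)) (.cons (.rel (nat_lit 285212808)) .nil))) .nil)) .leaf)

/-- refutations 53 -/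
def e53 : EX := (.node (.node .leaf (nat_lit 3266471936432263) (.br (nat_lit 0) (.cons (.br (nat_lit 1) (.cons (.rel (nat_lit 22024197)) .nil)) .nil)) .leaf) (nat_lit 3267535112244075) (.br (nat_lit 2) (.cons (.br (nat_lit 4) (.cons (.rel (nat_lit 1141407744)) .nil)) .nil)) .leaf)

/-- refutations 55 -/
def e55 : EX := (.node .leaf (nat_lit 4403476022754840) (.br (nat_lit 0) (.cons (.br (nat_lit 2) (.cons (.rel (nat_lit 71305344)) .nil)) .nil)) .leaf)

/-- refutations 56 -/
def e56 : EX := (.node .leaf (nat_lit 4404965204869307) (.br (nat_lit 2) (.cons (.br (nat_lit 3) (.cons (.rel (nat_lit 336678912)) .nil)) .nil)) .leaf)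

/-- refutations 59 -/
def e59 : EX := (.node .leaf (nat_lit 4445343977623614) (.br (nat_lit 0) (.cons (.br (nat_lit 1) (.cons (.rel (nat_lit 22021380)) .nil)) .nil)) .leaf)

/-- refutations 60 -/
def e60 : EX := (.node (.node .leaf (nat_lit 4573988830346742) (.br (nat_lit 0) (.cons (.br (nat_lit 3) (.cons (.rel (nat_lit 273171456)) .nil)) .nil)) .leaf) (nat_lit 4574021178206343) (.br (nat_lit 0) (.cons (.br (nat_lit 1) (.cons (.rel (nat_lit 21626880)) .nil)) .nil)) (.node .leaf (nat_lit 4574023309928583) (.br (nat_lit 1) (.cons (.br (nat_lit 3) (.cons (.rel (nat_lit 553713684)) .nil)) .nil)) .leaf))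

/-- refutations 61 -/
def e61 : EX := (.node (.node .leaf (nat_lit 4580640670868387) (.br (nat_lit 0) (.cons (.br (nat_lit 1) (.cons (.rel (nat_lit 21626880)) .nil)) .nil)) .leaf) (nat_lit 4586049095852167) (.br (nat_lit 3) (.cons (.br (nat_lit 5) (.cons (.rel (nat_lit 4563404928)) .nil)) .nil)) .leaf)

/-- refutations 62 -/
def e62 : EX := (.node (.node (.node .leaf (nat_lit 4837949447917703) (.br (nat_lit 0) (.cons (.br (nat_lit 1) (.cons (.rel (nat_lit 21626880)) .nil)) .nil)) .leaf) (nat_lit 4844357643980935) (.br (nat_lit 2) (.cons (.br (nat_lit 3) (.cons (.rel (nat_lit 402720768)) .nil)) .nil)) (.node .leaf (nat_lit 4844357643981582) (.br (nat_lit 0) (.cons (.br (nat_lit 2) (.cons (.rel (nat_lit 71305344)) .nil)) .nil)) .leaf)) (nat_lit 4844357643981680) (.br (nat_lit 1) (.cons (.br (nat_lit 0) (.cons (.rel (nat_lit 22152720)) (.cons (.rel (nat_lit 22021380)) .nil))) .nil)) (.node (.node .leaf (nat_lit 4844357643982075) (.br (nat_lit 1) (.cons (.br (nat_lit 3)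 (.cons (.rel (nat_lit 285475920)) .nil)) .nil)) .leaf) (nat_lit 4844522299773063) (.br (nat_lit 3) (.cons (.br (nat_lit 0) (.cons (.rel (nat_lit 272646273)) (.cons (.rel (nat_lit 541085712)) .nil))) .nil)) .leaf))

/-- refutations 63 -/
def e63 : EX := (.node (.node (.node .leaf (nat_lit 4849677422350471) (.br (nat_lit 0) (.cons (.br (nat_lit 2) (.cons (.rel (nat_lit 71566401)) (.cons (.rel (nat_lit 138413061)) .nil))) (.cons (.br (nat_lit 2) (.cons (.rel (nat_lit 71566401)) (.cons (.rel (nat_lit 71305344)) .nil))) .nil))) .leaf) (nat_lit 4849677422351248) (.br (nat_lit 1) (.cons (.br (nat_lit 6) (.cons (.rel (nat_lit 17197761792)) .nil)) .nil)) .leaf) (nat_lit 4851188089016455) (.br (nat_lit 1) (.cons (.br (nat_lit 3) (.cons (.rel (nat_lit 570425412)) (.cons (.rel (nat_lit 285475920)) .nil))) .nil)) (.node .leaf (nat_lit 4851188089017595) (.br (nat_lit 1) (.cons (.br (nat_lit 3) (.cons (.rel (nat_lit 286281729)) .nil)) .nil)) .leaf))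

/-- refutations 64 -/
def e64 : EX := (.node (.node (.node .leaf (nat_lit 4927109913381651) (.br (nat_lit 0) (.cons (.br (nat_lit 1) (.cons (.br (nat_lit 2) (.cons (.rel (nat_lit 151028736)) .nil)) .nil)) .nil)) .leaf) (nat_lit 4927110273364905) (.br (nat_lit 0) (.cons (.br (nat_lit 1) (.cons (.rel (nat_lit 23330817)) .nil)) .nil)) .leaf) (nat_lit 4927110274294415) (.br (nat_lit 0) (.cons (.br (nat_lit 3) (.cons (.rel (nat_lit 272957505)) .nil)) .nil)) (.node .leaf (nat_lit 4932352942379165) (.br (nat_lit 0) (.cons (.br (nat_lit 1) (.cons (.rel (nat_lit 41947224)) .nil)) .nil)) .leaf))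

/-- refutations 66 -/
def e66 : EX := (.node (.node .leaf (nat_lit 4943458989566087) (.br (nat_lit 0) (.cons (.br (nat_lit 1) (.cons (.rel (nat_lit 21043332)) .nil)) .nil)) .leaf) (nat_lit 4943462330843946) (.br (nat_lit 1) (.cons (.br (nat_lit 3) (.cons (.rel (nat_lit 286261764)) .nil)) .nil)) .leaf)

/-- refutations 67 -/
def e67 : EX := (.node (.node .leaf (nat_lit 4949936412649654) (.br (nat_lit 0) (.cons (.br (nat_lit 1) (.cons (.rel (nat_lit 37750032)) .nil)) .nil)) .leaf) (nat_lit 4950921570740359) (.br (nat_lit 2) (.cons (.br (nat_lit 3) (.cons (.rel (nat_lit 402669588)) .nil)) .nil)) .leaf)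

/-- refutations 68 -/
def e68 : EX := (.node (.node .leaf (nat_lit 3300520466897526) (.br (nat_lit 0) (.cons (.br (nat_lit 3) (.cons (.rel (nat_lit 541066752)) .nil)) .nil)) .leaf) (nat_lit 3300580599262560) (.br (nat_lit 4) (.cons (.br (nat_lit 6) (.cons (.rel (nat_lit 18254663952)) .nil)) .nil)) .leaf)

/-- refutations 69 -/
def e69 : EX := (.node .leaf (nat_lit 5295305463233449) (.br (nat_lit 0) (.cons (.br (nat_lit 2) (.cons (.rel (nat_lit 71827458)) .nil)) .nil)) .leaf)

/-- refutations 70 -/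
def e70 : EX := (.node .leaf (nat_lit 5302003610257543) (.br (nat_lit 0) (.cons (.br (nat_lit 2) (.cons (.rel (nat_lit 71827458)) .nil)) .nil)) .leaf)

/-- refutations 72 -/
def e72 : EX := (.node (.node (.node .leaf (nat_lit 11083130049130009) (.br (nat_lit 0) (.cons (.br (nat_lit 1) (.cons (.rel (nat_lit 21004416)) .nil)) .nil)) .leaf) (nat_lit 11083131915593765) (.br (nat_lit 0) (.cons (.br (nat_lit 1) (.cons (.rel (nat_lit 37750032)) .nil)) .nil)) (.node .leaf (nat_lit 11083131915593863) (.br (nat_lit 2) (.cons (.br (nat_lit 0) (.cons (.rel (nat_lit 71565396)) (.cons (.rel (nat_lit 72368388)) .nil))) .nil)) .leaf)) (nat_lit 11083131917374941) (.br (nat_lit 1) (.cons (.br (nat_lit 2) (.cons (.rel (nat_lit 151028736)) (.cons (.rel (nat_lit 151028736)) .nil))) (.cons (.br (nat_lit 2) (.cons (.rel (nat_lit 84951057)) (.cons (.rel (nat_lit 85001232)) .nil))) .nil))) (.node (.node .leaf (nat_lit 11083134000162951) (.br (nat_lit 2) (.cons (.br (nat_lit 6) (.cons (.rel (nat_lit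 17246978433)) (.cons (.rel (nat_lit 17246994576)) .nil))) (.cons (.br (nat_lit 6) (.cons (.rel (nat_lit 17248108800)) (.cons (.rel (nat_lit 17246994576)) .nil))) .nil))) .leaf) (nat_lit 11083134000163121) (.br (nat_lit 0) (.cons (.br (nat_lit 2) (.cons (.rel (nat_lit 71827458)) .nil)) .nil)) (.node .leaf (nat_lit 11083134000163448) (.br (nat_lit 6) (.cons (.br (nat_lit 2) (.cons (.rel (nat_lit 34426847760)) (.cons (.rel (nat_lit 34426880001)) .nil))) .nil)) .leaf)))

/-- refutations 73 -/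
def e73 : EX := (.node (.node (.node (.node .leaf (nat_lit 11085451197933703) (.br (nat_lit 1) (.cons (.br (nat_lit 3) (.cons (.rel (nat_lit 553648416)) .nil)) .nil)) .leaf) (nat_lit 11085451199713467) (.br (nat_lit 4) (.cons (.br (nat_lit 6) (.cons (.rel (nat_lit 35433497604)) .nil)) .nil)) .leaf) (nat_lit 11085451199824002) (.br (nat_lit 0) (.cons (.br (nat_lit 2) (.cons (.rel (nat_lit 142607424)) .nil)) .nil)) (.node (.node .leaf (nat_lit 11085485557672071) (.br (nat_lit 0) (.cons (.br (nat_lit 2) (.cons (.rel (nat_lit 72356112)) .nil)) .nil)) .leaf) (nat_lit 11085485559244935) (.br (nat_lit 0) (.cons (.br (nat_lit 4) (.cons (.rel (nat_lit 1082152992)) .nil)) .nil)) .leaf)) (nat_lit 11085703644703975) (.br (nat_lit 0) (.cons (.br (nat_lit 1) (.cons (.rel (nat_lit 22021380)) .nil)) .nil)) (.node (.node (.node .leaf (nat_lit 11089522826931552) (.br (nat_lit 2) (.cons (.br (nat_lit 3) (.cons (.rel (nat_lit 336678912)) .nil)) .nil)) .leaf) (nat_lit 11089829556382621)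 (.br (nat_lit 3) (.cons (.br (nat_lit 0) (.cons (.rel (nat_lit 272646273)) (.cons (.rel (nat_lit 541069569)) .nil))) .nil)) .leaf) (nat_lit 11089829556383098) (.br (nat_lit 0) (.cons (.br (nat_lit 4) (.cons (.rel (nat_lit 2156138496)) .nil)) .nil)) (.node .leaf (nat_lit 11089838146316294) (.br (nat_lit 0) (.cons (.br (nat_lit 2) (.cons (.rel (nat_lit 72368388)) .nil)) .nil)) .leaf)))

/-- refutations 74 -/
def e74 : EX := (.node (.node (.node (.node (.node .leaf (nat_lit 11091041378888330) (.br (nat_lit 0) (.cons (.br (nat_lit 2) (.cons (.rel (nat_lit 71565396)) .nil)) .nil)) .leaf) (nat_lit 11091043371182215) (.br (nat_lit 1) (.cons (.br (nat_lit 2) (.cons (.rel (nat_lit 84934914)) .nil)) .nil)) .leaf) (nat_lit 11094994614216839) (.br (nat_lit 3) (.cons (.br (nat_lit 4) (.cons (.rel (nat_lit 1342441536)) .nil)) .nil)) (.node .leaf (nat_lit 11094994614545321) (.br (nat_lit 0) (.cons (.br (nat_lit 3) (.cons (.rel (nat_lit 273171456)) .nil)) .nil)) .leaf)) (nat_lit 11094994615264733)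 (.br (nat_lit 0) (.cons (.br (nat_lit 1) (.cons (.rel (nat_lit 42270720)) .nil)) .nil)) (.node (.node .leaf (nat_lit 11094994615265317) (.br (nat_lit 3) (.cons (.br (nat_lit 4) (.cons (.rel (nat_lit 1343234064)) (.cons (.rel (nat_lit 1343357952)) .nil))) .nil)) .leaf) (nat_lit 11094994615265410) (.br (nat_lit 0) (.cons (.br (nat_lit 5) (.cons (.rel (nat_lit 4299162240)) .nil)) .nil)) (.node .leaf (nat_lit 11094994615265415) (.br (nat_lit 6) (.cons (.br (nat_lit 0) (.cons (.rel (nat_lit 17188275216)) (.cons (.rel (nat_lit 34363938048)) (.cons (.rel (nat_lit 17188261890)) .nil)))) (.cons (.br (nat_lit 0) (.cons (.rel (nat_lit 17185259520)) (.cons (.rel (nat_lit 17184604161)) (.cons (.rel (nat_lit 17188258068)) .nil)))) .nil))) .leaf))) (nat_lit 11094994615265430) (.br (nat_lit 1) (.cons (.br (nat_lit 6) (.cons (.rel (nat_lit 34376519712)) (.cons (.rel (nat_lit 17197727760)) .nil))) .nil)) (.node (.node (.node .leaf (nat_lit 11094994615265935) (.br (nat_lit 3) (.cons (.br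 (nat_lit 5) (.cons (.rel (nat_lit 4564455696)) (.cons (.rel (nat_lit 9127067649)) .nil))) .nil)) .leaf) (nat_lit 11094994615266535) (.br (nat_lit 6) (.cons (.br (nat_lit 3) (.cons (.rel (nat_lit 17716807176)) (.cons (.rel (nat_lit 17716741140)) .nil))) .nil)) (.node .leaf (nat_lit 11094994615266716) (.br (nat_lit 0) (.cons (.br (nat_lit 1) (.cons (.rel (nat_lit 41945412)) .nil)) .nil)) .leaf)) (nat_lit 11094994615266781) (.br (nat_lit 3) (.cons (.br (nat_lit 2) (.cons (.rel (nat_lit 336625920)) (.cons (.rel (nat_lit 402657312)) .nil))) .nil)) (.node (.node .leaf (nat_lit 11094994615266806) (.br (nat_lit 0) (.cons (.br (nat_lit 3) (.cons (.rel (nat_lit 276829185)) .nil)) .nil)) .leaf) (nat_lit 11094994617046493) (.br (nat_lit 3) (.cons (.br (nat_lit 2) (.cons (.rel (nat_lit 335806785)) (.cons (.rel (nat_lit 336592914)) .nil))) .nil)) (.node .leaf (nat_lit 11095149322168982) (.br (nat_lit 0) (.cons (.br (nat_lit 6) (.cons (.rel (nat_lit 34368193860)) .nil)) .nil)) .leaf))))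

/-- refutations 76 -/
def e76 : EX := (.node (.node (.node (.node .leaf (nat_lit 5367215549956231) (.br (nat_lit 1) (.cons (.br (nat_lit 2) (.cons (.rel (nat_lit 85001232)) .nil)) .nil)) .leaf) (nat_lit 5367215549957472) (.br (nat_lit 1) (.cons (.br (nat_lit 3) (.cons (.rel (nat_lit 570425412)) .nil)) .nil)) (.node .leaf (nat_lit 5370997293813895) (.br (nat_lit 0) (.cons (.br (nat_lit 3) (.cons (.rel (nat_lit 541085712)) .nil)) .nil)) .leaf)) (nat_lit 5371048833433735) (.br (nat_lit 0) (.cons (.br (nat_lit 2) (.cons (.rel (nat_lit 71566401)) .nil)) .nil)) (.node (.node .leaf (nat_lit 5372337952768135) (.br (nat_lit 5) (.cons (.br (nat_lit 4) (.cons (.rel (nat_lit 5369249796)) (.cons (.rel (nat_lit 5368774788)) .nil))) .nil)) .leaf) (nat_lit 5372337952768152) (.br (nat_lit 1) (.cons (.br (nat_lit 5) (.cons (.rel (nat_lit 4312794114)) (.cons (.rel (nat_lit 4312793109)) .nil))) .nil)) .leaf)) (nat_lit 5372337952768632) (.br (nat_lit 0) (.cons (.br (nat_lit 5) (.cons (.rel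 (nat_lit 8598323520)) .nil)) .nil)) (.node (.node (.node .leaf (nat_lit 5372535315742855) (.br (nat_lit 1) (.cons (.br (nat_lit 0) (.cons (.rel (nat_lit 37752849)) (.cons (.rel (nat_lit 25231617)) .nil))) .nil)) .leaf) (nat_lit 5376368674717831) (.br (nat_lit 0) (.cons (.br (nat_lit 1) (.cons (.rel (nat_lit 37753866)) .nil)) .nil)) .leaf) (nat_lit 5376368674719251) (.br (nat_lit 3) (.cons (.br (nat_lit 6) (.cons (.rel (nat_lit 17716742145)) (.cons (.rel (nat_lit 34628321280)) .nil))) .nil)) (.node (.node .leaf (nat_lit 5377751653559827) (.br (nat_lit 0) (.cons (.br (nat_lit 1) (.cons (.rel (nat_lit 37750032)) .nil)) .nil)) .leaf) (nat_lit 5377906646302855) (.br (nat_lit 2) (.cons (.br (nat_lit 0) (.cons (.rel (nat_lit 71305344)) (.cons (.rel (nat_lit 142868481)) .nil))) .nil)) .leaf)))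

/-- refutations 77 -/
def e77 : EX := (.node .leaf (nat_lit 11112584735301085) (.br (nat_lit 0) (.cons (.br (nat_lit 1) (.cons (.rel (nat_lit 22021380)) .nil)) .nil)) .leaf)

/-- refutations 78 -/
def e78 : EX := (.node (.node (.node .leaf (nat_lit 11452567912497183) (.br (nat_lit 1) (.cons (.br (nat_lit 5) (.cons (.rel (nat_lit 4312797696)) .nil)) .nil)) .leaf) (nat_lit 11452567912497282) (.br (nat_lit 2) (.cons (.br (nat_lit 4) (.cons (.rel (nat_lit 1141407744)) .nil)) .nil)) (.node .leaf (nat_lit 11452567912497327) (.br (nat_lit 1) (.cons (.br (nat_lit 6) (.cons (.rel (nat_lit 34393554948)) .nil)) .nil)) .leaf)) (nat_lit 11452567912498464) (.br (nat_lit 0) (.cons (.br (nat_lit 6) (.cons (.rel (nat_lit 17185113090)) .nil)) .nil)) (.node (.node .leaf (nat_lit 11452567912498562) (.br (nat_lit 0) (.cons (.br (nat_lit 1) (.cons (.br (nat_lit 2) (.cons (.rel (nat_lit 101187936)) (.cons (.rel (nat_lit 71305344)) (.cons (.rel (nat_lit 150999312)) .nil)))) .nil)) .nil)) .leaf)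 (nat_lit 11452567912498707) (.br (nat_lit 0) (.cons (.br (nat_lit 4) (.cons (.rel (nat_lit 1078988808)) .nil)) .nil)) (.node .leaf (nat_lit 11452568576823431) (.br (nat_lit 0) (.cons (.br (nat_lit 2) (.cons (.rel (nat_lit 71305344)) .nil)) .nil)) .leaf)))

/-- refutations 80 -/
def e80 : EX := (.node (.node (.node .leaf (nat_lit 11464430522199517) (.br (nat_lit 0) (.cons (.br (nat_lit 2) (.cons (.rel (nat_lit 72368388)) .nil)) .nil)) .leaf) (nat_lit 11464550765764090) (.br (nat_lit 6) (.cons (.br (nat_lit 3) (.cons (.rel (nat_lit 17448325248)) (.cons (.rel (nat_lit 34628173845)) .nil))) .nil)) .leaf) (nat_lit 11464550766347770) (.br (nat_lit 0) (.cons (.br (nat_lit 6) (.cons (.rel (nat_lit 34363940865)) .nil)) .nil)) (.node (.node .leaf (nat_lit 11464585229101207) (.br (nat_lit 0) (.cons (.br (nat_lit 1) (.cons (.rel (nat_lit 22094100)) .nil)) .nil)) .leaf) (nat_lit 11464585229102593) (.br (nat_lit 2) (.cons (.br (nat_lit 3) (.cons (.rel (nat_lit 336593928)) .nil)) .nil))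 .leaf))

/-- refutations 81 -/
def e81 : EX := (.node (.node (.node (.node (.node .leaf (nat_lit 11540752201881079) (.br (nat_lit 0) (.cons (.br (nat_lit 2) (.cons (.rel (nat_lit 142607424)) .nil)) .nil)) .leaf) (nat_lit 11540754175664263) (.br (nat_lit 1) (.cons (.br (nat_lit 2) (.cons (.rel (nat_lit 84934914)) .nil)) .nil)) .leaf) (nat_lit 11540951840628871) (.br (nat_lit 1) (.cons (.br (nat_lit 3) (.cons (.rel (nat_lit 286261764)) .nil)) .nil)) (.node (.node .leaf (nat_lit 11540951840629368) (.br (nat_lit 3) (.cons (.br (nat_lit 2) (.cons (.rel (nat_lit 603987984)) (.cons (.rel (nat_lit 336593928)) .nil))) .nil)) .leaf) (nat_lit 11540951840629667) (.br (nat_lit 0) (.cons (.br (nat_lit 3) (.cons (.rel (nat_lit 273679380)) .nil)) .nil)) .leaf)) (nat_lit 11540958358577287) (.br (nat_lit 0) (.cons (.br (nat_lit 2) (.cons (.rel (nat_lit 75497508)) (.cons (.rel (nat_lit 138412056)) .nil))) .nil)) (.node (.node (.node .leaf (nat_lit 11542839554758018) (.br (nat_lit 1) (.cons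 (.br (nat_lit 3) (.cons (.rel (nat_lit 570425412)) .nil)) .nil)) .leaf) (nat_lit 11543071481159736) (.br (nat_lit 0) (.cons (.br (nat_lit 1) (.cons (.rel (nat_lit 21004416)) .nil)) .nil)) .leaf) (nat_lit 11543071481395335) (.br (nat_lit 0) (.cons (.br (nat_lit 4) (.cons (.rel (nat_lit 2152989696)) .nil)) .nil)) (.node (.node .leaf (nat_lit 11543071481651335) (.br (nat_lit 0) (.cons (.br (nat_lit 4) (.cons (.rel (nat_lit 2152989696)) .nil)) .nil)) .leaf) (nat_lit 11543071481749639) (.br (nat_lit 0) (.cons (.br (nat_lit 4) (.cons (.rel (nat_lit 2156138496)) .nil)) .nil)) .leaf))) (nat_lit 11543071482486916) (.br (nat_lit 4) (.cons (.br (nat_lit 6) (.cons (.rel (nat_lit 18253613184)) .nil)) .nil)) (.node (.node (.node (.node .leaf (nat_lit 11543071482486919) (.br (nat_lit 1) (.cons (.br (nat_lit 0) (.cons (.rel (nat_lit 37750032)) (.cons (.rel (nat_lit 22021380)) (.cons (.rel (nat_lit 42270720)) .nil)))) (.cons (.br (nat_lit 5) (.cons (.rel (nat_lit 4328523780)) (.cons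 (.rel (nat_lit 8606712840)) .nil))) .nil))) .leaf) (nat_lit 11543071482777656) (.br (nat_lit 0) (.cons (.br (nat_lit 2) (.cons (.rel (nat_lit 71827458)) .nil)) .nil)) .leaf) (nat_lit 11543071484022919) (.br (nat_lit 0) (.cons (.br (nat_lit 5) (.cons (.rel (nat_lit 4299162240)) (.cons (.rel (nat_lit 4299162240)) .nil))) .nil)) (.node (.node .leaf (nat_lit 11545906160177279) (.br (nat_lit 1) (.cons (.br (nat_lit 2) (.cons (.rel (nat_lit 83906688)) .nil)) .nil)) .leaf) (nat_lit 11545906160177287) (.br (nat_lit 2) (.cons (.br (nat_lit 6) (.cons (.rel (nat_lit 17247503616)) (.cons (.rel (nat_lit 17314103298)) .nil))) (.cons (.br (nat_lit 0) (.cons (.rel (nat_lit 142607424)) (.cons (.rel (nat_lit 72421380)) (.cons (.rel (nat_lit 138436608)) .nil)))) .nil))) .leaf)) (nat_lit 11545906160178663) (.br (nat_lit 0) (.cons (.br (nat_lit 2) (.cons (.rel (nat_lit 71305344)) .nil)) .nil)) (.node (.node (.node .leaf (nat_lit 11547143110131847) (.br (nat_lit 0) (.cons (.br (nat_lit 4)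 (.cons (.br (nat_lit 5) (.cons (.rel (nat_lit 4300227588)) (.cons (.rel (nat_lit 6442451988)) (.cons (.rel (nat_lit 8598329409)) .nil)))) (.cons (.rel (nat_lit 1080295428)) .nil))) .nil)) .leaf) (nat_lit 11547143111483527) (.br (nat_lit 1) (.cons (.br (nat_lit 5) (.cons (.rel (nat_lit 8606712840)) .nil)) .nil)) .leaf) (nat_lit 11547143111483553) (.br (nat_lit 1) (.cons (.br (nat_lit 2) (.cons (.rel (nat_lit 85213320)) .nil)) .nil)) (.node .leaf (nat_lit 11547143111484667) (.br (nat_lit 1) (.cons (.br (nat_lit 0) (.cons (.rel (nat_lit 21004416)) (.cons (.rel (nat_lit 41959488)) .nil))) .nil)) .leaf))))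

/-- refutations 82 -/
def e82 : EX := (.node (.node .leaf (nat_lit 11547993640837255) (.br (nat_lit 1) (.cons (.br (nat_lit 3) (.cons (.rel (nat_lit 285212808)) .nil)) .nil)) .leaf) (nat_lit 11548440208337031) (.br (nat_lit 0) (.cons (.br (nat_lit 2) (.cons (.rel (nat_lit 72421380)) .nil)) .nil)) .leaf)

/-- refutations 83 -/
def e83 : EX := (.node (.node (.node .leaf (nat_lit 11552554644447483) (.br (nat_lit 2) (.cons (.br (nat_lit 3) (.cons (.rel (nat_lit 335822928)) .nil)) .nil)) .leaf) (nat_lit 11552554770276532) (.br (nat_lit 2) (.cons (.br (nat_lit 3) (.cons (.rel (nat_lit 335577732)) .nil)) .nil)) .leaf) (nat_lit 11552589020962951) (.br (nat_lit 2) (.cons (.br (nat_lit 3) (.cons (.rel (nat_lit 336625920)) .nil)) .nil)) (.node .leaf (nat_lit 11553792261922951) (.br (nat_lit 0) (.cons (.br (nat_lit 2) (.cons (.rel (nat_lit 71305344)) .nil)) .nil)) .leaf))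

/-- refutations 84 -/
def e84 : EX := (.node (.node .leaf (nat_lit 11909933119064874) (.br (nat_lit 0) (.cons (.br (nat_lit 3) (.cons (.rel (nat_lit 273776640)) .nil)) .nil)) .leaf) (nat_lit 11911072870385799) (.br (nat_lit 0) (.cons (.br (nat_lit 6) (.cons (.rel (nat_lit 17184129153)) .nil)) .nil)) .leaf)

/-- refutations 85 -/
def e85 : EX := (.node (.node .leaf (nat_lit 11916656931850375) (.br (nat_lit 0) (.cons (.br (nat_lit 1) (.cons (.rel (nat_lit 41943393)) .nil)) .nil)) .leaf) (nat_lit 11916656957016199) (.br (nat_lit 1) (.cons (.br (nat_lit 2) (.cons (.rel (nat_lit 100728834)) .nil)) .nil)) .leaf)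

/-- refutations 86 -/
def e86 : EX := (.node (.node .leaf (nat_lit 11917919677401223) (.br (nat_lit 3) (.cons (.br (nat_lit 4) (.cons (.rel (nat_lit 1610629125)) .nil)) .nil)) .leaf) (nat_lit 11921732979214471) (.br (nat_lit 0) (.cons (.br (nat_lit 1) (.cons (.rel (nat_lit 25231617)) .nil)) .nil)) .leaf)

/-- refutations 87 -/
def e87 : EX := (.node .leaf (nat_lit 11982446741776519) (.br (nat_lit 2) (.cons (.br (nat_lit 3) (.cons (.rel (nat_lit 335822928)) .nil)) .nil)) .leaf)

/-- refutations 88 -/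
def e88 : EX := (.node .leaf (nat_lit 11993219060043911) (.br (nat_lit 0) (.cons (.br (nat_lit 5) (.cons (.rel (nat_lit 8594129157)) .nil)) .nil)) .leaf)

/-- refutations 90 -/
def e90 : EX := (.node (.node (.node (.node .leaf (nat_lit 11997927771041817) (.br (nat_lit 5) (.cons (.br (nat_lit 6) (.cons (.rel (nat_lit 25769808132)) .nil)) .nil)) .leaf) (nat_lit 11997927771041854) (.br (nat_lit 0) (.cons (.br (nat_lit 6) (.cons (.rel (nat_lit 17189306448)) .nil)) .nil)) .leaf) (nat_lit 11997927771041927) (.br (nat_lit 1) (.cons (.br (nat_lit 6) (.cons (.rel (nat_lit 17196908625)) (.cons (.rel (nat_lit 34376515845)) .nil))) .nil)) (.node (.node .leaf (nat_lit 11997927771042424) (.br (nat_lit 1) (.cons (.br (nat_lit 3) (.cons (.rel (nat_lit 570426465)) (.cons (.rel (nat_lit 553653252)) .nil))) .nil)) .leaf) (nat_lit 11997927771042447) (.br (nat_lit 0) (.cons (.br (nat_lit 1) (.cons (.rel (nat_lit 22024197)) .nil)) .nil)) .leaf)) (nat_lit 11997927771042722) (.br (nat_lit 0)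 (.cons (.br (nat_lit 1) (.cons (.rel (nat_lit 22021380)) .nil)) .nil)) (.node (.node (.node .leaf (nat_lit 11997927771043047) (.br (nat_lit 3) (.cons (.br (nat_lit 6) (.cons (.rel (nat_lit 17450926224)) .nil)) .nil)) .leaf) (nat_lit 11997927771043302) (.br (nat_lit 2) (.cons (.br (nat_lit 6) (.cons (.rel (nat_lit 17248026633)) .nil)) .nil)) .leaf) (nat_lit 12000282574942245) (.br (nat_lit 0) (.cons (.br (nat_lit 1) (.cons (.rel (nat_lit 41959488)) .nil)) .nil)) (.node (.node .leaf (nat_lit 12000282574942270) (.br (nat_lit 0) (.cons (.br (nat_lit 1) (.cons (.rel (nat_lit 41959488)) .nil)) .nil)) .leaf) (nat_lit 12000282574942343) (.br (nat_lit 0) (.cons (.br (nat_lit 1) (.cons (.rel (nat_lit 37815300)) .nil)) .nil)) .leaf)))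

/-- refutations 91 -/
def e91 : EX := (.node (.node (.node .leaf (nat_lit 12004408474038407) (.br (nat_lit 1) (.cons (.br (nat_lit 6) (.cons (.rel (nat_lit 34393554948)) .nil)) .nil)) .leaf) (nat_lit 12009985967122614) (.br (nat_lit 1) (.cons (.br (nat_lit 2) (.cons (.rel (nat_lit 151028736)) .nil)) .nil)) .leaf) (nat_lit 12010768192336007) (.br (nat_lit 0) (.cons (.br (nat_lit 2) (.cons (.rel (nat_lit 142607424)) .nil)) .nil)) (.node .leaf (nat_lit 12011246720479367) (.br (nat_lit 0) (.cons (.br (nat_lit 2) (.cons (.rel (nat_lit 72482817)) .nil)) .nil)) .leaf))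

/-- refutations 92 -/
def e92 : EX := (.node (.node (.node .leaf (nat_lit 12068466367731847) (.br (nat_lit 0) (.cons (.br (nat_lit 2) (.cons (.rel (nat_lit 142868481)) (.cons (.rel (nat_lit 142607424)) .nil))) .nil)) .leaf) (nat_lit 12074682728913031) (.br (nat_lit 1) (.cons (.br (nat_lit 6) (.cons (.rel (nat_lit 17197761792)) .nil)) .nil)) .leaf) (nat_lit 12075155091430282) (.br (nat_lit 0) (.cons (.br (nat_lit 1) (.cons (.rel (nat_lit 37765125)) .nil)) .nil)) (.node .leaf (nat_lit 12075155091430301) (.br (nat_lit 0) (.cons (.br (nat_lit 1) (.cons (.rel (nat_lit 22038528)) .nil)) .nil)) .leaf))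

/-- refutations 93 -/
def e93 : EX := (.node (.node (.node .leaf (nat_lit 12075759221189240) (.br (nat_lit 0) (.cons (.br (nat_lit 1) (.cons (.rel (nat_lit 37750032)) .nil)) .nil)) .leaf) (nat_lit 12075759222200455) (.br (nat_lit 1) (.cons (.br (nat_lit 2) (.cons (.rel (nat_lit 84951057)) .nil)) .nil)) (.node .leaf (nat_lit 12076013564795015) (.br (nat_lit 0) (.cons (.br (nat_lit 1) (.cons (.rel (nat_lit 25187328)) .nil)) .nil)) .leaf)) (nat_lit 12076016668579975) (.br (nat_lit 2) (.cons (.br (nat_lit 3) (.cons (.rel (nat_lit 336592914)) .nil)) .nil)) (.node (.node .leaf (nat_lit 12080354711378055) (.br (nat_lit 1) (.cons (.br (nat_lit 2) (.cons (.rel (nat_lit 84943380)) .nil)) .nil)) .leaf) (nat_lit 12080577923848342) (.br (nat_lit 3) (.cons (.br (nat_lit 0) (.cons (.rel (nat_lit 273679380)) (.cons (.rel (nat_lit 272646273)) .nil))) .nil)) .leaf))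

/-- refutations 95 -/
def e95 : EX := (.node .leaf (nat_lit 12097903817695367) (.br (nat_lit 0) (.cons (.br (nat_lit 1) (.cons (.rel (nat_lit 22038528)) .nil)) .nil)) .leaf)

/-- refutations 96 -/
def e96 : EX := (.node (.node .leaf (nat_lit 13196385178820111) (.br (nat_lit 0) (.cons (.br (nat_lit 2) (.cons (.rel (nat_lit 142868481)) .nil)) .nil)) .leaf) (nat_lit 13200047242743943) (.br (nat_lit 0) (.cons (.br (nat_lit 2) (.cons (.rel (nat_lit 75534336)) .nil)) .nil)) .leaf)

/-- refutations 100 -/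
def e100 : EX := (.node (.node (.node (.node (.node .leaf (nat_lit 13282124154523783) (.br (nat_lit 1) (.cons (.br (nat_lit 5) (.cons (.rel (nat_lit 4312335360)) .nil)) .nil)) .leaf) (nat_lit 13282152050839687) (.br (nat_lit 2) (.cons (.br (nat_lit 4) (.cons (.rel (nat_lit 1207967745)) .nil)) .nil)) (.node .leaf (nat_lit 13282152050840309) (.br (nat_lit 0) (.cons (.br (nat_lit 2) (.cons (.rel (nat_lit 72482817)) .nil)) .nil)) .leaf)) (nat_lit 13282153204273287) (.br (nat_lit 0) (.cons (.br (nat_lit 1) (.cons (.rel (nat_lit 37752849)) .nil)) .nil)) (.node (.node .leaf (nat_lit 13282153270192263) (.br (nat_lit 0) (.cons (.br (nat_lit 1) (.cons (.rel (nat_lit 21315648)) .nil)) .nil)) .leaf) (nat_lit 13282153271382151) (.br (nat_lit 4) (.cons (.br (nat_lit 0) (.cons (.rel (nat_lit 1078468608)) (.cons (.rel (nat_lit 2151678240)) (.cons (.rel (nat_lit 2156138496)) .nil)))) .nil)) .leaf)) (nat_lit 13282153272688775) (.br (nat_lit 4) (.cons (.br (nat_lit 5) (.cons (.rel (nat_lit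 5368774788)) .nil)) .nil)) (.node (.node (.node .leaf (nat_lit 13282153288159367) (.br (nat_lit 3) (.cons (.br (nat_lit 5) (.cons (.rel (nat_lit 4563664980)) .nil)) .nil)) .leaf) (nat_lit 13282155695689863) (.br (nat_lit 0) (.cons (.br (nat_lit 2) (.cons (.rel (nat_lit 142607424)) .nil)) .nil)) (.node .leaf (nat_lit 13282155695690515) (.br (nat_lit 0) (.cons (.br (nat_lit 1) (.cons (.rel (nat_lit 37752849)) .nil)) .nil)) .leaf)) (nat_lit 13282155696027678) (.br (nat_lit 1) (.cons (.br (nat_lit 3) (.cons (.rel (nat_lit 285212808)) (.cons (.rel (nat_lit 570425412)) .nil))) .nil)) (.node (.node .leaf (nat_lit 13282158304547102) (.br (nat_lit 1) (.cons (.br (nat_lit 3) (.cons (.rel (nat_lit 570688536)) .nil)) .nil)) .leaf) (nat_lit 13282158304547573) (.br (nat_lit 2) (.cons (.br (nat_lit 0) (.cons (.rel (nat_lit 71566401)) (.cons (.rel (nat_lit 71566401)) (.cons (.rel (nat_lit 142607424)) (.cons (.rel (nat_lit 71827458)) .nil))))) .nil)) .leaf))) (nat_lit 13282327494381703)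 (.br (nat_lit 1) (.cons (.br (nat_lit 2) (.cons (.rel (nat_lit 83906688)) (.cons (.rel (nat_lit 83906688)) (.cons (.rel (nat_lit 83906688)) .nil)))) (.cons (.br (nat_lit 0) (.cons (.rel (nat_lit 21004416)) (.cons (.rel (nat_lit 25170180)) (.cons (.rel (nat_lit 22021380)) .nil)))) .nil))) (.node (.node (.node (.node .leaf (nat_lit 13282327494719518) (.br (nat_lit 3) (.cons (.br (nat_lit 0) (.cons (.rel (nat_lit 272696448)) (.cons (.rel (nat_lit 273679380)) .nil))) .nil)) .leaf) (nat_lit 13282327495998945) (.br (nat_lit 0) (.cons (.br (nat_lit 1) (.cons (.rel (nat_lit 21004416)) .nil)) .nil)) (.node .leaf (nat_lit 13282358209269895) (.br (nat_lit 0) (.cons (.br (nat_lit 2) (.cons (.rel (nat_lit 142607424)) .nil)) .nil)) .leaf)) (nat_lit 13282574067820679) (.br (nat_lit 0) (.cons (.br (nat_lit 3) (.cons (.rel (nat_lit 545329248)) .nil)) .nil)) (.node (.node .leaf (nat_lit 13282574069125255) (.br (nat_lit 0) (.cons (.br (nat_lit 3) (.cons (.rel (nat_lit 273776640)) (.cons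 (.rel (nat_lit 276826368)) .nil))) (.cons (.br (nat_lit 2) (.cons (.rel (nat_lit 142868481)) (.cons (.rel (nat_lit 71305344)) .nil))) .nil))) .leaf) (nat_lit 13282576585707655) (.br (nat_lit 0) (.cons (.br (nat_lit 1) (.cons (.rel (nat_lit 21315648)) .nil)) .nil)) .leaf)) (nat_lit 13282579416862855) (.br (nat_lit 3) (.cons (.br (nat_lit 0) (.cons (.rel (nat_lit 276828180)) (.cons (.rel (nat_lit 273679380)) .nil))) .nil)) (.node (.node (.node .leaf (nat_lit 13282579416901767) (.br (nat_lit 1) (.cons (.br (nat_lit 3) (.cons (.rel (nat_lit 285475920)) .nil)) .nil)) .leaf) (nat_lit 13282588010991751) (.br (nat_lit 1) (.cons (.br (nat_lit 0) (.cons (.rel (nat_lit 22085634)) (.cons (.rel (nat_lit 37765125)) .nil))) .nil)) .leaf) (nat_lit 13282588010991801) (.br (nat_lit 0) (.cons (.br (nat_lit 1) (.cons (.rel (nat_lit 37765125)) .nil)) .nil)) (.node (.node .leaf (nat_lit 13283229439038691) (.br (nat_lit 0) (.cons (.br (nat_lit 2) (.cons (.rel (nat_lit 71565396)) .nil)) .nil))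 .leaf) (nat_lit 13283230997795102) (.br (nat_lit 2) (.cons (.br (nat_lit 3) (.cons (.rel (nat_lit 336593928)) .nil)) .nil)) .leaf))))

/-- refutations 101 -/
def e101 : EX := (.node (.node (.node (.node .leaf (nat_lit 13283265374310652) (.br (nat_lit 3) (.cons (.br (nat_lit 4) (.cons (.rel (nat_lit 2686468116)) .nil)) .nil)) .leaf) (nat_lit 13283693293981831) (.br (nat_lit 1) (.cons (.br (nat_lit 0) (.cons (.rel (nat_lit 42270720)) (.cons (.rel (nat_lit 21626880)) .nil))) .nil)) (.node .leaf (nat_lit 13287728029880455) (.br (nat_lit 0) (.cons (.br (nat_lit 1) (.cons (.rel (nat_lit 41959488)) .nil)) .nil)) .leaf)) (nat_lit 13287728029881107) (.br (nat_lit 1) (.cons (.br (nat_lit 5) (.cons (.rel (nat_lit 4312797696)) (.cons (.rel (nat_lit 4312793109)) .nil))) (.cons (.br (nat_lit 2) (.cons (.rel (nat_lit 84940800)) (.cons (.rel (nat_lit 151011588)) .nil))) .nil))) (.node (.node .leaf (nat_lit 13287728029881756) (.br (nat_lit 1) (.cons (.br (nat_lit 2) (.cons (.rel (nat_lit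 101712960)) .nil)) .nil)) .leaf) (nat_lit 13287728029920619) (.br (nat_lit 2) (.cons (.br (nat_lit 4) (.cons (.rel (nat_lit 1142947905)) .nil)) .nil)) .leaf)) (nat_lit 13287730546463507) (.br (nat_lit 0) (.cons (.br (nat_lit 1) (.cons (.rel (nat_lit 22021380)) .nil)) .nil)) (.node (.node (.node .leaf (nat_lit 13287730563240723) (.br (nat_lit 0) (.cons (.br (nat_lit 3) (.cons (.rel (nat_lit 273171456)) .nil)) .nil)) .leaf) (nat_lit 13287730563241342) (.br (nat_lit 1) (.cons (.br (nat_lit 2) (.cons (.rel (nat_lit 84934914)) .nil)) .nil)) .leaf) (nat_lit 13287730564546695) (.br (nat_lit 1) (.cons (.br (nat_lit 5) (.cons (.rel (nat_lit 8623490640)) .nil)) .nil)) (.node (.node .leaf (nat_lit 13288862027075715) (.br (nat_lit 0) (.cons (.br (nat_lit 1) (.cons (.rel (nat_lit 41959488)) .nil)) .nil)) .leaf) (nat_lit 13289616704000135) (.br (nat_lit 0) (.cons (.br (nat_lit 1) (.cons (.rel (nat_lit 21004416)) .nil)) .nil)) .leaf)))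

/-- refutations 102 -/
def e102 : EX := (.node (.node (.node (.node (.node .leaf (nat_lit 13289926554052643) (.br (nat_lit 1) (.cons (.br (nat_lit 3) (.cons (.rel (nat_lit 285212808)) .nil)) .nil)) .leaf) (nat_lit 13292884507218051) (.br (nat_lit 1) (.cons (.br (nat_lit 3) (.cons (.rel (nat_lit 553648416)) .nil)) .nil)) .leaf) (nat_lit 13292884507218055) (.br (nat_lit 1) (.cons (.br (nat_lit 2) (.cons (.rel (nat_lit 85001232)) .nil)) .nil)) (.node (.node .leaf (nat_lit 13292887338373372) (.br (nat_lit 0) (.cons (.br (nat_lit 1) (.cons (.rel (nat_lit 21004416)) .nil)) .nil)) .leaf) (nat_lit 13292942262784135) (.br (nat_lit 0) (.cons (.br (nat_lit 1) (.cons (.rel (nat_lit 42013248)) .nil)) .nil)) .leaf)) (nat_lit 13292944652232839) (.br (nat_lit 0) (.cons (.br (nat_lit 2) (.cons (.rel (nat_lit 71565396)) .nil)) .nil)) (.node (.node (.node .leaf (nat_lit 13292944653537415) (.br (nat_lit 0) (.cons (.br (nat_lit 5) (.cons (.rel (nat_lit 4299162240)) (.cons (.rel (nat_lit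 8594133024)) .nil))) (.cons (.br (nat_lit 5) (.cons (.rel (nat_lit 8594133024)) (.cons (.rel (nat_lit 4299179400)) .nil))) .nil))) .leaf) (nat_lit 13292944653537462) (.br (nat_lit 1) (.cons (.br (nat_lit 2) (.cons (.rel (nat_lit 84940800)) .nil)) .nil)) .leaf) (nat_lit 13292944653537935) (.br (nat_lit 3) (.cons (.br (nat_lit 0) (.cons (.rel (nat_lit 272646273)) (.cons (.rel (nat_lit 276826368)) .nil))) .nil)) (.node .leaf (nat_lit 13292944653538656) (.br (nat_lit 1) (.cons (.br (nat_lit 3) (.cons (.br (nat_lit 6) (.cons (.rel (nat_lit 17199009792)) (.cons (.rel (nat_lit 34376519712)) (.cons (.rel (nat_lit 17716741140)) .nil)))) (.cons (.rel (nat_lit 286261764)) (.cons (.rel (nat_lit 301990416)) .nil)))) (.cons (.br (nat_lit 3) (.cons (.rel (nat_lit 570425412)) (.cons (.rel (nat_lit 286281729)) (.cons (.rel (nat_lit 286392336)) .nil)))) (.cons (.br (nat_lit 3) (.cons (.rel (nat_lit 553664514)) (.cons (.rel (nat_lit 285212808)) (.cons (.rel (nat_lit 286281729)) .nil))))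 .nil)))) .leaf))) (nat_lit 13292944653538660) (.br (nat_lit 0) (.cons (.br (nat_lit 1) (.cons (.rel (nat_lit 23330817)) (.cons (.rel (nat_lit 22038528)) .nil))) (.cons (.br (nat_lit 1) (.cons (.rel (nat_lit 25170180)) (.cons (.rel (nat_lit 22024197)) .nil))) .nil))) (.node (.node (.node (.node .leaf (nat_lit 13292944653538785) (.br (nat_lit 3) (.cons (.br (nat_lit 0) (.cons (.rel (nat_lit 272646273)) (.cons (.rel (nat_lit 273679380)) (.cons (.rel (nat_lit 272635014)) .nil)))) (.cons (.br (nat_lit 0) (.cons (.rel (nat_lit 273171456)) (.cons (.rel (nat_lit 273171456)) (.cons (.rel (nat_lit 276826368)) .nil)))) .nil))) .leaf) (nat_lit 13292944653538841) (.br (nat_lit 1) (.cons (.br (nat_lit 3) (.cons (.rel (nat_lit 285212808)) .nil)) .nil)) .leaf) (nat_lit 13292944655061168) (.br (nat_lit 0) (.cons (.br (nat_lit 1) (.cons (.rel (nat_lit 41959488)) .nil)) .nil)) (.node (.node .leaf (nat_lit 13292946213819744) (.br (nat_lit 2) (.cons (.br (nat_lit 3) (.cons (.rel (nat_lit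 603987984)) .nil)) .nil)) .leaf) (nat_lit 13293374359982265) (.br (nat_lit 4) (.cons (.br (nat_lit 0) (.cons (.rel (nat_lit 2156138496)) (.cons (.rel (nat_lit 1077940608)) (.cons (.rel (nat_lit 2155873620)) .nil)))) .nil)) .leaf)) (nat_lit 13293374359983506) (.br (nat_lit 6) (.cons (.br (nat_lit 0) (.cons (.rel (nat_lit 34363940865)) (.cons (.rel (nat_lit 17185112085)) .nil))) .nil)) (.node (.node (.node .leaf (nat_lit 13293975445688455) (.br (nat_lit 1) (.cons (.br (nat_lit 2) (.cons (.rel (nat_lit 83906688)) .nil)) .nil)) .leaf) (nat_lit 13294015270604925) (.br (nat_lit 1) (.cons (.br (nat_lit 3) (.cons (.rel (nat_lit 302022657)) .nil)) .nil)) .leaf) (nat_lit 13294018395362781) (.br (nat_lit 1) (.cons (.br (nat_lit 0) (.cons (.rel (nat_lit 22024197)) (.cons (.rel (nat_lit 37752849)) (.cons (.rel (nat_lit 22021380)) .nil)))) .nil)) (.node .leaf (nat_lit 13294021146824839) (.br (nat_lit 0) (.cons (.br (nat_lit 1) (.cons (.rel (nat_lit 21004416)) .nil)) .nil)) .leaf))))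

/-- refutations 103 -/
def e103 : EX := (.node (.node (.node .leaf (nat_lit 13299747587958919) (.br (nat_lit 0) (.cons (.br (nat_lit 1) (.cons (.rel (nat_lit 22024197)) .nil)) .nil)) .leaf) (nat_lit 13299750484954624) (.br (nat_lit 0) (.cons (.br (nat_lit 1) (.cons (.rel (nat_lit 22021380)) .nil)) .nil)) .leaf) (nat_lit 13300174847996039) (.br (nat_lit 0) (.cons (.br (nat_lit 3) (.cons (.rel (nat_lit 545329248)) .nil)) .nil)) (.node (.node .leaf (nat_lit 13300174848057479) (.br (nat_lit 1) (.cons (.br (nat_lit 3) (.cons (.rel (nat_lit 301990416)) .nil)) .nil)) .leaf) (nat_lit 13300180197036167) (.br (nat_lit 0) (.cons (.br (nat_lit 1) (.cons (.rel (nat_lit 22085634)) .nil)) .nil)) .leaf))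

/-- refutations 106 -/
def e106 : EX := (.node .leaf (nat_lit 13390064677351461) (.br (nat_lit 1) (.cons (.br (nat_lit 2) (.cons (.rel (nat_lit 151028736)) .nil)) .nil)) .leaf)

/-- refutations 107 -/
def e107 : EX := (.node .leaf (nat_lit 13398406121334116) (.br (nat_lit 1) (.cons (.br (nat_lit 3) (.cons (.rel (nat_lit 286261764)) .nil)) .nil)) .leaf)

/-- refutations 108 -/
def e108 : EX := (.node (.node (.node .leaf (nat_lit 13633954042638471) (.br (nat_lit 1) (.cons (.br (nat_lit 2) (.cons (.rel (nat_lit 85001232)) .nil)) .nil)) .leaf) (nat_lit 13634171299197063) (.br (nat_lit 2) (.cons (.br (nat_lit 4) (.cons (.rel (nat_lit 1140932736)) .nil)) .nil)) .leaf) (nat_lit 13634471946907783) (.br (nat_lit 1) (.cons (.br (nat_lit 2) (.cons (.rel (nat_lit 84940800)) .nil)) .nil)) (.node (.node .leaf (nat_lit 13639378947043463) (.br (nat_lit 1) (.cons (.br (nat_lit 3) (.cons (.rel (nat_lit 301990416)) .nil)) .nil)) .leaf) (nat_lit 13639574498078855) (.br (nat_lit 0) (.cons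 (.br (nat_lit 2) (.cons (.rel (nat_lit 72368388)) .nil)) .nil)) .leaf))

/-- refutations 109 -/
def e109 : EX := (.node .leaf (nat_lit 13641950747455623) (.br (nat_lit 0) (.cons (.br (nat_lit 1) (.cons (.rel (nat_lit 22021380)) .nil)) .nil)) .leaf)

/-- refutations 110 -/
def e110 : EX := (.node (.node (.node (.node (.node .leaf (nat_lit 13739548842214782) (.br (nat_lit 0) (.cons (.br (nat_lit 1) (.cons (.rel (nat_lit 41943393)) .nil)) .nil)) .leaf) (nat_lit 13739548848710543) (.br (nat_lit 3) (.cons (.br (nat_lit 0) (.cons (.rel (nat_lit 541066752)) (.cons (.rel (nat_lit 541069569)) .nil))) .nil)) .leaf) (nat_lit 13739548850274436) (.br (nat_lit 1) (.cons (.br (nat_lit 2) (.cons (.rel (nat_lit 150999312)) .nil)) .nil)) (.node .leaf (nat_lit 13739548886434697) (.br (nat_lit 4) (.cons (.br (nat_lit 5) (.cons (.rel (nat_lit 5368709520)) (.cons (.rel (nat_lit 9663676437)) .nil))) .nil)) .leaf)) (nat_lit 13739548888033407) (.br (nat_lit 3) (.cons (.br (nat_lit 4) (.cons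 (.rel (nat_lit 1342177410)) .nil)) .nil)) (.node (.node (.node .leaf (nat_lit 13739550107232383) (.br (nat_lit 0) (.cons (.br (nat_lit 1) (.cons (.rel (nat_lit 41959488)) .nil)) .nil)) .leaf) (nat_lit 13739550107234479) (.br (nat_lit 1) (.cons (.br (nat_lit 5) (.cons (.rel (nat_lit 8623509600)) .nil)) .nil)) .leaf) (nat_lit 13739550107347079) (.br (nat_lit 5) (.cons (.br (nat_lit 0) (.cons (.rel (nat_lit 8598323520)) (.cons (.rel (nat_lit 4303397121)) .nil))) .nil)) (.node .leaf (nat_lit 13739555345687439) (.br (nat_lit 1) (.cons (.br (nat_lit 3) (.cons (.rel (nat_lit 553714689)) .nil)) .nil)) .leaf))) (nat_lit 13739555345918758) (.br (nat_lit 0) (.cons (.br (nat_lit 2) (.cons (.rel (nat_lit 71827458)) .nil)) .nil)) (.node (.node (.node (.node .leaf (nat_lit 13739555347251332) (.br (nat_lit 1) (.cons (.br (nat_lit 3) (.cons (.rel (nat_lit 285218448)) (.cons (.rel (nat_lit 287310144)) .nil))) (.cons (.br (nat_lit 3) (.cons (.rel (nat_lit 285212808)) (.cons (.rel (nat_lit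 553648416)) .nil))) .nil))) .leaf) (nat_lit 13739555347261567) (.br (nat_lit 3) (.cons (.br (nat_lit 4) (.cons (.rel (nat_lit 1610679300)) .nil)) .nil)) .leaf) (nat_lit 13739555347262250) (.br (nat_lit 1) (.cons (.br (nat_lit 4) (.cons (.rel (nat_lit 1090785348)) .nil)) .nil)) (.node .leaf (nat_lit 13739555347262691) (.br (nat_lit 0) (.cons (.br (nat_lit 1) (.cons (.rel (nat_lit 21004416)) .nil)) .nil)) .leaf)) (nat_lit 13739555347560479) (.br (nat_lit 1) (.cons (.br (nat_lit 6) (.cons (.rel (nat_lit 17196647568)) .nil)) .nil)) (.node (.node .leaf (nat_lit 13739555347561235) (.br (nat_lit 0) (.cons (.br (nat_lit 1) (.cons (.rel (nat_lit 41959488)) .nil)) .nil)) .leaf) (nat_lit 13739555347579015) (.br (nat_lit 1) (.cons (.br (nat_lit 4) (.cons (.rel (nat_lit 1090785348)) .nil)) .nil)) (.node .leaf (nat_lit 13739555348551042) (.br (nat_lit 1) (.cons (.br (nat_lit 3) (.cons (.rel (nat_lit 301990416)) .nil)) .nil)) .leaf))))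

/-- refutations 111 -/
def e111 : EX := (.node (.node .leaf (nat_lit 13750507307117954) (.br (nat_lit 0) (.cons (.br (nat_lit 2) (.cons (.rel (nat_lit 71827458)) .nil)) .nil)) .leaf) (nat_lit 13752857899590944) (.br (nat_lit 6) (.cons (.br (nat_lit 1) (.cons (.rel (nat_lit 17196908625)) (.cons (.rel (nat_lit 17197727760)) .nil))) .nil)) (.node .leaf (nat_lit 13752861154370848) (.br (nat_lit 2) (.cons (.br (nat_lit 6) (.cons (.rel (nat_lit 17246978433)) .nil)) .nil)) .leaf))

/-- refutations 112 -/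
def e112 : EX := (.node (.node (.node (.node .leaf (nat_lit 13757141074088071) (.br (nat_lit 0) (.cons (.br (nat_lit 4) (.cons (.rel (nat_lit 1078468608)) (.cons (.rel (nat_lit 1082139666)) .nil))) (.cons (.br (nat_lit 4) (.cons (.rel (nat_lit 1079050245)) (.cons (.rel (nat_lit 1079001120)) .nil))) .nil))) .leaf) (nat_lit 13757142097498247) (.br (nat_lit 6) (.cons (.br (nat_lit 0) (.cons (.rel (nat_lit 17184654336)) (.cons (.rel (nat_lit 17184654336)) .nil))) .nil)) .leaf) (nat_lit 13757142126858375) (.br (nat_lit 2) (.cons (.br (nat_lit 1) (.cons (.rel (nat_lit 100728834)) (.cons (.rel (nat_lit 83906688)) .nil))) .nil)) (.node (.node .leaf (nat_lit 13757142209507478) (.br (nat_lit 1) (.cons (.br (nat_lit 3) (.cons (.rel (nat_lit 286281729)) .nil)) .nil)) .leaf) (nat_lit 13757142210744455) (.br (nat_lit 2) (.cons (.br (nat_lit 4) (.cons (.rel (nat_lit 1207964928)) .nil)) .nil)) .leaf)) (nat_lit 13757144932847751) (.br (nat_lit 0) (.cons (.br (nat_lit 4) (.cons (.rel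 (nat_lit 1078468608)) (.cons (.rel (nat_lit 2156138496)) .nil))) .nil)) (.node (.node (.node .leaf (nat_lit 13757144934115463) (.br (nat_lit 0) (.cons (.br (nat_lit 4) (.cons (.rel (nat_lit 2151694338)) .nil)) .nil)) .leaf) (nat_lit 13757147055165575) (.br (nat_lit 0) (.cons (.br (nat_lit 4) (.cons (.rel (nat_lit 1082196228)) .nil)) .nil)) .leaf) (nat_lit 13757147324868743) (.br (nat_lit 0) (.cons (.br (nat_lit 1) (.cons (.rel (nat_lit 42270720)) .nil)) .nil)) (.node (.node .leaf (nat_lit 13757147537510535) (.br (nat_lit 0) (.cons (.br (nat_lit 2) (.cons (.rel (nat_lit 142607424)) .nil)) .nil)) .leaf) (nat_lit 13757319120941211) (.br (nat_lit 0) (.cons (.br (nat_lit 1) (.cons (.rel (nat_lit 23330817)) .nil)) .nil)) .leaf)))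

/-- refutations 113 -/
def e113 : EX := (.node (.node .leaf (nat_lit 13767931294422368) (.br (nat_lit 0) (.cons (.br (nat_lit 6) (.cons (.rel (nat_lit 34368131409)) .nil)) .nil)) .leaf) (nat_lit 13767931295688839) (.br (nat_lit 4) (.cons (.br (nat_lit 6) (.cons (.rel (nat_lit 19327373313)) .nil)) .nil)) .leaf)

/-- refutations 114 -/
def e114 : EX := (.node (.node (.node .leaf (nat_lit 13827462054865031) (.br (nat_lit 0) (.cons (.br (nat_lit 1) (.cons (.rel (nat_lit 22021380)) .nil)) .nil)) .leaf) (nat_lit 13827464760425760) (.br (nat_lit 0) (.cons (.br (nat_lit 1) (.cons (.rel (nat_lit 22085634)) .nil)) .nil)) .leaf) (nat_lit 13827548053540991) (.br (nat_lit 0) (.cons (.br (nat_lit 1) (.cons (.rel (nat_lit 41959488)) .nil)) .nil)) (.node (.node .leaf (nat_lit 13827550658203775) (.br (nat_lit 2) (.cons (.br (nat_lit 5) (.cons (.rel (nat_lit 8657048577)) .nil)) .nil)) .leaf) (nat_lit 13827888927518855) (.br (nat_lit 0) (.cons (.br (nat_lit 4) (.cons (.rel (nat_lit 1078198848))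 .nil)) .nil)) .leaf))

/-- refutations 117 -/
def e117 : EX := (.node (.node (.node .leaf (nat_lit 13845062284230791) (.br (nat_lit 0) (.cons (.br (nat_lit 1) (.cons (.rel (nat_lit 42222612)) .nil)) .nil)) .leaf) (nat_lit 13845374541774983) (.br (nat_lit 0) (.cons (.br (nat_lit 6) (.cons (.rel (nat_lit 17184129153)) .nil)) .nil)) .leaf) (nat_lit 13845374543011991) (.br (nat_lit 0) (.cons (.br (nat_lit 1) (.cons (.rel (nat_lit 22021380)) .nil)) .nil)) (.node (.node .leaf (nat_lit 13846649299812487) (.br (nat_lit 0) (.cons (.br (nat_lit 2) (.cons (.rel (nat_lit 71305344)) .nil)) .nil)) .leaf) (nat_lit 13850485783543943) (.br (nat_lit 1) (.cons (.br (nat_lit 2) (.cons (.rel (nat_lit 84217920)) .nil)) .nil)) .leaf))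

/-- refutations 118 -/
def e118 : EX := (.node (.node (.node (.node .leaf (nat_lit 13855800327422087) (.br (nat_lit 0) (.cons (.br (nat_lit 2) (.cons (.rel (nat_lit 75498513)) (.cons (.br (nat_lit 6) (.cons (.rel (nat_lit 17246994576)) (.cons (.rel (nat_lit 17184343104)) .nil))) .nil))) .nil)) .leaf) (nat_lit 13855886205796358) (.br (nat_lit 2) (.cons (.br (nat_lit 3) (.cons (.rel (nat_lit 336073728)) .nil)) .nil)) (.node .leaf (nat_lit 13855886205796532) (.br (nat_lit 0) (.cons (.br (nat_lit 1) (.cons (.rel (nat_lit 41943393)) .nil)) .nil)) .leaf)) (nat_lit 13858161825147015) (.br (nat_lit 0) (.cons (.br (nat_lit 2) (.cons (.rel (nat_lit 71827458)) .nil)) .nil)) (.node (.node .leaf (nat_lit 13858161825433053) (.br (nat_lit 0) (.cons (.br (nat_lit 3) (.cons (.rel (nat_lit 272696448)) .nil)) .nil)) .leaf) (nat_lit 13858161825433112) (.br (nat_lit 0) (.cons (.br (nat_lit 3) (.cons (.rel (nat_lit 273679380)) .nil)) .nil)) .leaf)) (nat_lit 13858161825501360) (.br (nat_lit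 0) (.cons (.br (nat_lit 2) (.cons (.rel (nat_lit 138413061)) .nil)) .nil)) (.node (.node (.node .leaf (nat_lit 13858256297934983) (.br (nat_lit 1) (.cons (.br (nat_lit 4) (.cons (.rel (nat_lit 1090585728)) .nil)) .nil)) .leaf) (nat_lit 13858256297935099) (.br (nat_lit 0) (.cons (.br (nat_lit 3) (.cons (.rel (nat_lit 541085712)) .nil)) .nil)) .leaf) (nat_lit 13858256297936099) (.br (nat_lit 2) (.cons (.br (nat_lit 0) (.cons (.rel (nat_lit 72385536)) (.cons (.rel (nat_lit 75534336)) .nil))) .nil)) (.node (.node .leaf (nat_lit 13858256297936108) (.br (nat_lit 0) (.cons (.br (nat_lit 3) (.cons (.rel (nat_lit 272646273)) .nil)) .nil)) .leaf) (nat_lit 13858453992260896) (.br (nat_lit 0) (.cons (.br (nat_lit 1) (.cons (.rel (nat_lit 22021380)) .nil)) .nil)) .leaf)))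

/-- refutations 119 -/
def e119 : EX := (.node (.node (.node (.node (.node .leaf (nat_lit 14108954278703231) (.br (nat_lit 0) (.cons (.br (nat_lit 2) (.cons (.rel (nat_lit 75497508)) .nil)) .nil)) .leaf) (nat_lit 14108954294046851) (.br (nat_lit 1) (.cons (.br (nat_lit 3) (.cons (.rel (nat_lit 302022657)) .nil)) .nil)) (.node .leaf (nat_lit 14108986014167171) (.br (nat_lit 0) (.cons (.br (nat_lit 1) (.cons (.rel (nat_lit 41959488)) .nil)) .nil)) .leaf)) (nat_lit 14108986014279815) (.br (nat_lit 0) (.cons (.br (nat_lit 2) (.cons (.rel (nat_lit 71305344)) .nil)) .nil)) (.node (.node .leaf (nat_lit 14108986016471965) (.br (nat_lit 1) (.cons (.br (nat_lit 3) (.cons (.rel (nat_lit 287310144)) .nil)) .nil)) .leaf) (nat_lit 14108986016781065) (.br (nat_lit 4) (.cons (.br (nat_lit 6) (.cons (.rel (nat_lit 18253873236)) .nil)) .nil)) .leaf)) (nat_lit 14108986017105128) (.br (nat_lit 0) (.cons (.br (nat_lit 1) (.cons (.rel (nat_lit 41959488)) .nil)) .nil)) (.node (.node (.node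 .leaf (nat_lit 14108988635351972) (.br (nat_lit 0) (.cons (.br (nat_lit 4) (.cons (.rel (nat_lit 1077940608)) .nil)) .nil)) .leaf) (nat_lit 14108988635353239) (.br (nat_lit 0) (.cons (.br (nat_lit 1) (.cons (.rel (nat_lit 22024197)) .nil)) .nil)) .leaf) (nat_lit 14108988635360164) (.br (nat_lit 3) (.cons (.br (nat_lit 0) (.cons (.rel (nat_lit 272696448)) (.cons (.rel (nat_lit 273680385)) .nil))) .nil)) (.node (.node .leaf (nat_lit 14108988635374500) (.br (nat_lit 5) (.cons (.br (nat_lit 1) (.cons (.rel (nat_lit 4312940544)) (.cons (.rel (nat_lit 4312940544)) .nil))) .nil)) .leaf) (nat_lit 14108988637008034) (.br (nat_lit 0) (.cons (.br (nat_lit 1) (.cons (.rel (nat_lit 21626880)) .nil)) .nil)) .leaf))) (nat_lit 14108988654030979) (.br (nat_lit 0) (.cons (.br (nat_lit 3) (.cons (.rel (nat_lit 276828180)) .nil)) .nil)) (.node (.node (.node (.node .leaf (nat_lit 14108988668959622) (.br (nat_lit 0) (.cons (.br (nat_lit 5) (.cons (.rel (nat_lit 4300275744)) .nil)) .nil))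 .leaf) (nat_lit 14108988670546045) (.br (nat_lit 0) (.cons (.br (nat_lit 1) (.cons (.rel (nat_lit 21004416)) .nil)) .nil)) .leaf) (nat_lit 14108988671520255) (.br (nat_lit 0) (.cons (.br (nat_lit 6) (.cons (.rel (nat_lit 17184129153)) .nil)) .nil)) (.node (.node .leaf (nat_lit 14108991256791340) (.br (nat_lit 0) (.cons (.br (nat_lit 3) (.cons (.rel (nat_lit 272696448)) .nil)) .nil)) .leaf) (nat_lit 14108991258601607) (.br (nat_lit 0) (.cons (.br (nat_lit 6) (.cons (.rel (nat_lit 17184604161)) .nil)) .nil)) .leaf)) (nat_lit 14109020375552131) (.br (nat_lit 0) (.cons (.br (nat_lit 3) (.cons (.rel (nat_lit 273171456)) .nil)) .nil)) (.node (.node (.node .leaf (nat_lit 14109022995090340) (.br (nat_lit 3) (.cons (.br (nat_lit 4) (.cons (.rel (nat_lit 1342177410)) .nil)) .nil)) .leaf) (nat_lit 14109022995098532) (.br (nat_lit 4) (.cons (.br (nat_lit 5) (.cons (.rel (nat_lit 5368709520)) .nil)) .nil)) .leaf) (nat_lit 14109022996746375) (.br (nat_lit 3) (.cons (.br (nat_lit 1)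 (.cons (.rel (nat_lit 286278912)) (.cons (.rel (nat_lit 553648416)) .nil))) .nil)) (.node (.node .leaf (nat_lit 14109022996891779) (.br (nat_lit 1) (.cons (.br (nat_lit 2) (.cons (.rel (nat_lit 152059968)) .nil)) .nil)) .leaf) (nat_lit 14109022996992131) (.br (nat_lit 0) (.cons (.br (nat_lit 3) (.cons (.rel (nat_lit 273171456)) .nil)) .nil)) .leaf))))

/-- refutations 122 -/
def e122 : EX := (.node (.node (.node (.node (.node (.node .leaf (nat_lit 14179320418302079) (.br (nat_lit 1) (.cons (.br (nat_lit 3) (.cons (.rel (nat_lit 286278912)) .nil)) .nil)) .leaf) (nat_lit 14179323021430911) (.br (nat_lit 1) (.cons (.br (nat_lit 3) (.cons (.rel (nat_lit 286281729)) .nil)) .nil)) .leaf) (nat_lit 14179323021707574) (.br (nat_lit 1) (.cons (.br (nat_lit 0) (.cons (.rel (nat_lit 41959488)) (.cons (.rel (nat_lit 42270720)) .nil))) .nil)) (.node (.node .leaf (nat_lit 14179323022965046) (.br (nat_lit 1) (.cons (.br (nat_lit 3) (.cons (.rel (nat_lit 554959872)) .nil)) .nil)) .leaf)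 (nat_lit 14179323038208127) (.br (nat_lit 2) (.cons (.br (nat_lit 3) (.cons (.rel (nat_lit 336134160)) .nil)) .nil)) .leaf)) (nat_lit 14179323038464810) (.br (nat_lit 2) (.cons (.br (nat_lit 3) (.cons (.rel (nat_lit 336134160)) .nil)) .nil)) (.node (.node (.node .leaf (nat_lit 14179323038484607) (.br (nat_lit 0) (.cons (.br (nat_lit 1) (.cons (.rel (nat_lit 26476800)) .nil)) .nil)) .leaf) (nat_lit 14179325659664519) (.br (nat_lit 0) (.cons (.br (nat_lit 1) (.cons (.rel (nat_lit 37750032)) .nil)) .nil)) .leaf) (nat_lit 14179325661182262) (.br (nat_lit 4) (.cons (.br (nat_lit 3) (.cons (.rel (nat_lit 1342177410)) (.cons (.rel (nat_lit 1342702593)) (.cons (.rel (nat_lit 1344552960)) .nil)))) .nil)) (.node (.node .leaf (nat_lit 14179354164154503) (.br (nat_lit 6) (.cons (.br (nat_lit 2) (.cons (.rel (nat_lit 34426880001)) (.cons (.br (nat_lit 4) (.cons (.rel (nat_lit 1141243968)) (.cons (.rel (nat_lit 19327483920)) .nil))) .nil))) .nil)) .leaf) (nat_lit 14179354164155174)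 (.br (nat_lit 3) (.cons (.br (nat_lit 4) (.cons (.rel (nat_lit 1342702593)) .nil)) .nil)) .leaf))) (nat_lit 14179354776524053) (.br (nat_lit 0) (.cons (.br (nat_lit 1) (.cons (.rel (nat_lit 42270720)) .nil)) .nil)) (.node (.node (.node (.node .leaf (nat_lit 14179357381126279) (.br (nat_lit 1) (.cons (.br (nat_lit 2) (.cons (.rel (nat_lit 83906688)) .nil)) .nil)) .leaf) (nat_lit 14179357381185667) (.br (nat_lit 3) (.cons (.br (nat_lit 0) (.cons (.rel (nat_lit 273680385)) (.cons (.rel (nat_lit 272646273)) .nil))) .nil)) .leaf) (nat_lit 14179357381185671) (.br (nat_lit 0) (.cons (.br (nat_lit 3) (.cons (.rel (nat_lit 541066752)) (.cons (.rel (nat_lit 273680385)) .nil))) .nil)) (.node (.node .leaf (nat_lit 14179357396307447) (.br (nat_lit 0) (.cons (.br (nat_lit 2) (.cons (.rel (nat_lit 71305344)) .nil)) .nil)) .leaf) (nat_lit 14179357396315394) (.br (nat_lit 0) (.cons (.br (nat_lit 1) (.cons (.rel (nat_lit 42270720)) .nil)) .nil)) .leaf)) (nat_lit 14179357396360074) (.br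 (nat_lit 0) (.cons (.br (nat_lit 2) (.cons (.rel (nat_lit 71305344)) .nil)) .nil)) (.node (.node (.node .leaf (nat_lit 14179357396928647) (.br (nat_lit 4) (.cons (.br (nat_lit 3) (.cons (.rel (nat_lit 1344552960)) (.cons (.rel (nat_lit 1342702593)) .nil))) .nil)) .leaf) (nat_lit 14179357397609354) (.br (nat_lit 3) (.cons (.br (nat_lit 6) (.cons (.rel (nat_lit 34628173845)) .nil)) .nil)) .leaf) (nat_lit 14179357397946495) (.br (nat_lit 0) (.cons (.br (nat_lit 1) (.cons (.rel (nat_lit 23330817)) .nil)) .nil)) (.node .leaf (nat_lit 14179357398116483) (.br (nat_lit 0) (.cons (.br (nat_lit 2) (.cons (.rel (nat_lit 142868481)) .nil)) .nil)) .leaf)))) (nat_lit 14179357398875662) (.br (nat_lit 0) (.cons (.br (nat_lit 1) (.cons (.rel (nat_lit 21004416)) .nil)) .nil)) (.node (.node (.node (.node (.node .leaf (nat_lit 14179357399181447) (.br (nat_lit 4) (.cons (.br (nat_lit 6) (.cons (.rel (nat_lit 19327373313)) (.cons (.rel (nat_lit 36507223104)) (.cons (.br (nat_lit 0) (.cons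 (.rel (nat_lit 2151678240)) (.cons (.rel (nat_lit 1078984977)) (.cons (.br (nat_lit 3) (.cons (.rel (nat_lit 2684354625)) (.cons (.rel (nat_lit 17458790400)) (.cons (.rel (nat_lit 276826368)) .nil)))) (.cons (.rel (nat_lit 2156138496)) .nil))))) .nil)))) (.cons (.br (nat_lit 0) (.cons (.rel (nat_lit 1082130960)) (.cons (.rel (nat_lit 2156138496)) (.cons (.rel (nat_lit 1078198848)) (.cons (.rel (nat_lit 2151683076)) .nil))))) .nil))) .leaf) (nat_lit 14179357399181569) (.br (nat_lit 0) (.cons (.br (nat_lit 1) (.cons (.rel (nat_lit 37750032)) .nil)) .nil)) .leaf) (nat_lit 14179357399242887) (.br (nat_lit 0) (.cons (.br (nat_lit 6) (.cons (.rel (nat_lit 17185259520)) .nil)) .nil)) (.node (.node .leaf (nat_lit 14179357399388295) (.br (nat_lit 2) (.cons (.br (nat_lit 4) (.cons (.rel (nat_lit 1141966848)) .nil)) .nil)) .leaf) (nat_lit 14179357413705863) (.br (nat_lit 3) (.cons (.br (nat_lit 5) (.cons (.rel (nat_lit 8859684864)) .nil)) .nil)) .leaf)) (nat_lit 14179357414723715)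 (.br (nat_lit 1) (.cons (.br (nat_lit 2) (.cons (.rel (nat_lit 100728834)) .nil)) .nil)) (.node (.node (.node .leaf (nat_lit 14179357414740103) (.br (nat_lit 1) (.cons (.br (nat_lit 4) (.cons (.rel (nat_lit 1107297312)) .nil)) .nil)) .leaf) (nat_lit 14179357414885511) (.br (nat_lit 1) (.cons (.br (nat_lit 3) (.cons (.rel (nat_lit 286261764)) .nil)) .nil)) .leaf) (nat_lit 14179360017747447) (.br (nat_lit 0) (.cons (.br (nat_lit 2) (.cons (.rel (nat_lit 71305344)) .nil)) .nil)) (.node (.node .leaf (nat_lit 14179360018368647) (.br (nat_lit 2) (.cons (.br (nat_lit 3) (.cons (.rel (nat_lit 337971456)) (.cons (.rel (nat_lit 336592914)) .nil))) (.cons (.br (nat_lit 5) (.cons (.rel (nat_lit 4364436480)) (.cons (.rel (nat_lit 4362682368)) .nil))) .nil))) .leaf) (nat_lit 14179360019334022) (.br (nat_lit 0) (.cons (.br (nat_lit 3) (.cons (.rel (nat_lit 272696448)) .nil)) .nil)) .leaf))) (nat_lit 14179360019402887) (.br (nat_lit 6) (.cons (.br (nat_lit 1) (.cons (.rel (nat_lit 17197711617))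 (.cons (.br (nat_lit 2) (.cons (.rel (nat_lit 17314087200)) (.cons (.rel (nat_lit 84940800)) .nil))) .nil))) .nil)) (.node (.node (.node (.node .leaf (nat_lit 14179360020368887) (.br (nat_lit 0) (.cons (.br (nat_lit 1) (.cons (.rel (nat_lit 23069760)) .nil)) .nil)) .leaf) (nat_lit 14179360020621447) (.br (nat_lit 0) (.cons (.br (nat_lit 4) (.cons (.rel (nat_lit 2151678240)) (.cons (.rel (nat_lit 1077940608)) (.cons (.rel (nat_lit 1082130960)) .nil)))) (.cons (.br (nat_lit 5) (.cons (.rel (nat_lit 4300210440)) (.cons (.rel (nat_lit 8598323520)) (.cons (.rel (nat_lit 4299162240)) .nil)))) .nil))) .leaf) (nat_lit 14179360020622617) (.br (nat_lit 1) (.cons (.br (nat_lit 2) (.cons (.rel (nat_lit 100667397)) .nil)) .nil)) (.node (.node .leaf (nat_lit 14179360020682887) (.br (nat_lit 0) (.cons (.br (nat_lit 5) (.cons (.rel (nat_lit 8594145300)) .nil)) .nil)) .leaf) (nat_lit 14179391756054030) (.br (nat_lit 1) (.cons (.br (nat_lit 2) (.cons (.rel (nat_lit 84934914)) .nil)) .nil))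 .leaf)) (nat_lit 14179391757334030) (.br (nat_lit 0) (.cons (.br (nat_lit 1) (.cons (.rel (nat_lit 26218560)) .nil)) .nil)) (.node (.node (.node .leaf (nat_lit 14179391757641855) (.br (nat_lit 0) (.cons (.br (nat_lit 2) (.cons (.rel (nat_lit 142868481)) .nil)) .nil)) .leaf) (nat_lit 14179391757701255) (.br (nat_lit 0) (.cons (.br (nat_lit 1) (.cons (.rel (nat_lit 21626880)) .nil)) .nil)) .leaf) (nat_lit 14179391758614030) (.br (nat_lit 1) (.cons (.br (nat_lit 2) (.cons (.rel (nat_lit 84934914)) .nil)) .nil)) (.node .leaf (nat_lit 14179391774109996) (.br (nat_lit 1) (.cons (.br (nat_lit 3) (.cons (.rel (nat_lit 302022657)) .nil)) .nil)) .leaf)))))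

/-- refutations 123 -/
def e123 : EX := (.node (.node (.node (.node .leaf (nat_lit 14179560750403719) (.br (nat_lit 0) (.cons (.br (nat_lit 1) (.cons (.rel (nat_lit 21004416)) .nil)) .nil)) .leaf) (nat_lit 14179562818195591) (.br (nat_lit 1) (.cons (.br (nat_lit 3) (.cons (.rel (nat_lit 570425412)) .nil)) .nil)) (.node .leaf (nat_lit 14179565993283719) (.br (nat_lit 0) (.cons (.br (nat_lit 6) (.cons (.rel (nat_lit 17185116672)) .nil)) .nil)) .leaf)) (nat_lit 14179566177833095) (.br (nat_lit 6) (.cons (.br (nat_lit 1) (.cons (.rel (nat_lit 17197727760)) (.cons (.rel (nat_lit 17197764609)) (.cons (.rel (nat_lit 34376532993)) .nil)))) .nil)) (.node (.node .leaf (nat_lit 14179732603621511) (.br (nat_lit 0) (.cons (.br (nat_lit 5) (.cons (.rel (nat_lit 4299293829)) .nil)) .nil)) .leaf) (nat_lit 14179735355084935) (.br (nat_lit 0) (.cons (.br (nat_lit 6) (.cons (.rel (nat_lit 17185112085)) .nil)) .nil)) .leaf)) (nat_lit 14179737744486535) (.br (nat_lit 1) (.cons (.br (nat_lit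 5) (.cons (.rel (nat_lit 4328523780)) .nil)) .nil)) (.node (.node (.node .leaf (nat_lit 14179737745838215) (.br (nat_lit 1) (.cons (.br (nat_lit 0) (.cons (.rel (nat_lit 42270720)) (.cons (.rel (nat_lit 22038528)) .nil))) .nil)) .leaf) (nat_lit 14179786806612153) (.br (nat_lit 1) (.cons (.br (nat_lit 4) (.cons (.rel (nat_lit 1107369984)) .nil)) .nil)) (.node .leaf (nat_lit 14180431139786887) (.br (nat_lit 0) (.cons (.br (nat_lit 6) (.cons (.rel (nat_lit 17188261890)) .nil)) .nil)) .leaf)) (nat_lit 14180431140027895) (.br (nat_lit 0) (.cons (.br (nat_lit 1) (.cons (.rel (nat_lit 22024197)) .nil)) .nil)) (.node (.node .leaf (nat_lit 14180431140752887) (.br (nat_lit 0) (.cons (.br (nat_lit 3) (.cons (.rel (nat_lit 273171456)) .nil)) .nil)) .leaf) (nat_lit 14181472912865286) (.br (nat_lit 0) (.cons (.br (nat_lit 1) (.cons (.rel (nat_lit 37750032)) .nil)) .nil)) .leaf)))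

/-- refutations 124 -/
def e124 : EX := (.node .leaf (nat_lit 14192702923730198) (.br (nat_lit 6) (.cons (.br (nat_lit 0) (.cons (.rel (nat_lit 17184129153)) (.cons (.rel (nat_lit 17188259073)) .nil))) .nil)) .leaf)

/-- list of the parts -/
def L0 : List (ℕ × List ℕ) := [(nat_lit 0x200, [Nat.sub (Nat.pow 2 809) (Nat.pow 2 0), Nat.sub (Nat.pow 2 3136) (Nat.pow 2 809)]),
  (nat_lit 0x10000, [Nat.sub (Nat.pow 2 889) (Nat.pow 2 0), Nat.sub (Nat.pow 2 3136) (Nat.pow 2 889)]),
  (nat_lit 0x400000000, [Nat.sub (Nat.pow 2 786) (Nat.pow 2 0), Nat.sub (Nat.pow 2 3136) (Nat.pow 2 786)]),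
  (nat_lit 0x800000000, [Nat.sub (Nat.pow 2 764) (Nat.pow 2 0), Nat.sub (Nat.pow 2 3136) (Nat.pow 2 764)]),
  (nat_lit 0x1000000000, [Nat.sub (Nat.pow 2 909) (Nat.pow 2 0), Nat.sub (Nat.pow 2 3136) (Nat.pow 2 909)]),
  (nat_lit 0x8000000000, [Nat.sub (Nat.pow 2 306) (Nat.pow 2 0), Nat.sub (Nat.pow 2 904) (Nat.pow 2 306), Nat.sub (Nat.pow 2 1416) (Nat.pow 2 904), Nat.sub (Nat.pow 2 3136) (Nat.pow 2 1416)]),
  (nat_lit 0x40000000000000, [Nat.sub (Nat.pow 2 909) (Nat.pow 2 0), Nat.sub (Nat.pow 2 3136) (Nat.pow 2 909)]),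
  (nat_lit 0x10000000000000000, [Nat.sub (Nat.pow 2 305) (Nat.pow 2 0), Nat.sub (Nat.pow 2 931) (Nat.pow 2 305), Nat.sub (Nat.pow 2 3136) (Nat.pow 2 931)]),
  (nat_lit 0x20000000000000000, [Nat.sub (Nat.pow 2 904) (Nat.pow 2 0), Nat.sub (Nat.pow 2 3136) (Nat.pow 2 904)]),
  (nat_lit 0x400000000000000000000000000000000, [Nat.sub (Nat.pow 2 754) (Nat.pow 2 0), Nat.sub (Nat.pow 2 3136) (Nat.pow 2 754)]),
  (nat_lit 0x200000000000000000000000000000000, [cP]),
  (nat_lit 0x80000000000000000000000000000000000, [Nat.sub (Nat.pow 2 280) (Nat.pow 2 0), Nat.sub (Nat.pow 2 3136) (Nat.pow 2 280)]),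
  (nat_lit 0x100000000000000000000000000000000000, [Nat.sub (Nat.pow 2 654) (Nat.pow 2 0), Nat.sub (Nat.pow 2 1316) (Nat.pow 2 654), Nat.sub (Nat.pow 2 3136) (Nat.pow 2 1316)]),
  (nat_lit 0x200000000000000000000000000000000000, [Nat.sub (Nat.pow 2 41) (Nat.pow 2 0), Nat.sub (Nat.pow 2 879) (Nat.pow 2 41), Nat.sub (Nat.pow 2 3136) (Nat.pow 2 879)]),
  (nat_lit 0x400000000000000000000000000000000000000, [Nat.sub (Nat.pow 2 659) (Nat.pow 2 0), Nat.sub (Nat.pow 2 1559) (Nat.pow 2 659), Nat.sub (Nat.pow 2 3136) (Nat.pow 2 1559)]),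
  (nat_lit 0x100000000000000000000000000000000000000000, [Nat.sub (Nat.pow 2 659) (Nat.pow 2 0), Nat.sub (Nat.pow 2 3136) (Nat.pow 2 659)]),
  (nat_lit 0x800000000000000000000000000000000000000000000, [Nat.sub (Nat.pow 2 780) (Nat.pow 2 0), Nat.sub (Nat.pow 2 3136) (Nat.pow 2 780)]),
  (nat_lit 0x1000000000000000000000000000000000000000000000, [Nat.sub (Nat.pow 2 789) (Nat.pow 2 0), Nat.sub (Nat.pow 2 3136) (Nat.pow 2 789)]),
  (nat_lit 0x2000000000000000000000000000000000000000000000, [Nat.sub (Nat.pow 2 14) (Nat.pow 2 0), Nat.sub (Nat.pow 2 135) (Nat.pow 2 14), Nat.sub (Nat.pow 2 760) (Nat.pow 2 135), Nat.sub (Nat.pow 2 931) (Nat.pow 2 760), Nat.sub (Nat.pow 2 1414) (Nat.pow 2 931), Nat.sub (Nat.pow 2 3136) (Nat.pow 2 1414)]),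
  (nat_lit 0x20000000000000000000000000000000000000000000000, [Nat.sub (Nat.pow 2 30) (Nat.pow 2 0), Nat.sub (Nat.pow 2 786) (Nat.pow 2 30), Nat.sub (Nat.pow 2 3136) (Nat.pow 2 786)]),
  (nat_lit 0x200000000000000000000000000000000000000000000000, [Nat.sub (Nat.pow 2 14) (Nat.pow 2 0), Nat.sub (Nat.pow 2 630) (Nat.pow 2 14), Nat.sub (Nat.pow 2 1391) (Nat.pow 2 630), Nat.sub (Nat.pow 2 3136) (Nat.pow 2 1391)]),
  (nat_lit 0x10000000000000000000000000000000000, [cP]),
  (nat_lit 0x4000000000000000000000000000000000000000000000000000000000000000, [Nat.sub (Nat.pow 2 786) (Nat.pow 2 0), Nat.sub (Nat.pow 2 1565) (Nat.pow 2 786), Nat.sub (Nat.pow 2 3136) (Nat.pow 2 1565)]),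
  (nat_lit 0x10000000000000000000000000000000000000000000000000000000000000000, [Nat.sub (Nat.pow 2 754) (Nat.pow 2 0), Nat.sub (Nat.pow 2 3136) (Nat.pow 2 754)]),
  (nat_lit 0x1000000000000000000000000000000000000000000000000000000000000000000, [Nat.sub (Nat.pow 2 630) (Nat.pow 2 0), Nat.sub (Nat.pow 2 3136) (Nat.pow 2 630)]),
  (nat_lit 0x8000000000000000000000000000000000000000000000000000000000000000000000, [Nat.sub (Nat.pow 2 784) (Nat.pow 2 0), Nat.sub (Nat.pow 2 3136) (Nat.pow 2 784)]),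
  (nat_lit 0x100000000000000000000000000000000000000000000000000000000000000000000000, [Nat.sub (Nat.pow 2 904) (Nat.pow 2 0), Nat.sub (Nat.pow 2 3136) (Nat.pow 2 904)]),
  (nat_lit 0x200000000000000000000000000000000000000000000000000000000000000000000000, [Nat.sub (Nat.pow 2 659) (Nat.pow 2 0), Nat.sub (Nat.pow 2 3136) (Nat.pow 2 659)]),
  (nat_lit 0x800000000000000000000000000000000000000000000000, [cP]),
  (nat_lit 0x20000000000000000000000000000000000000000000000000000000000000000000000000000, [Nat.sub (Nat.pow 2 654) (Nat.pow 2 0), Nat.sub (Nat.pow 2 3136) (Nat.pow 2 654)]),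
  (nat_lit 0x400000000000000000000000000000000000000000000000000000000000000000000000, [cP]),
  (nat_lit 0x400000000000000000000000000000000000000000000000000000000000000000000000000000000000000000000000000000000000000000000000000000000000000000000000000000000000000, [Nat.sub (Nat.pow 2 256) (Nat.pow 2 0), Nat.sub (Nat.pow 2 931) (Nat.pow 2 256), Nat.sub (Nat.pow 2 1561) (Nat.pow 2 931), Nat.sub (Nat.pow 2 3136) (Nat.pow 2 1561)]),
  (nat_lit 0x200000000000000000000000000000000000000000000000000000000000000000000000000000, [cP]),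
  (nat_lit 0x800000000000000000000000000000000000000000000000000000000000000000000000000000000000000000000000000000000000000000000000000000000000000000000000000000000000000, [cP]),
  (nat_lit 0x80000000000000000000000000000000000000000000000000000000000000000000000000000000000000000000000000000000000000000000000000000000000000000000000000000000000000000000, [Nat.sub (Nat.pow 2 280) (Nat.pow 2 0), Nat.sub (Nat.pow 2 1380) (Nat.pow 2 280), Nat.sub (Nat.pow 2 3136) (Nat.pow 2 1380)]),
  (nat_lit 0x1000000000000000000000000000000000000000000000000000000000000000000000000000000000000000000000000000000000000000000000000000000000000000000000000000000000000000000000, [Nat.sub (Nat.pow 2 789) (Nat.pow 2 0), Nat.sub (Nat.pow 2 1410) (Nat.pow 2 789), Nat.sub (Nat.pow 2 3136) (Nat.pow 2 1410)]),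
  (nat_lit 0x200000000000000000000000000000000000000000000000000000000000000000000000000000000000000000000000000000000000000000000000000000000000000000000000000000000000000000000000000, [Nat.sub (Nat.pow 2 315) (Nat.pow 2 0), Nat.sub (Nat.pow 2 936) (Nat.pow 2 315), Nat.sub (Nat.pow 2 3136) (Nat.pow 2 936)]),
  (nat_lit 0x2000000000000000000000000000000000000000000000000000000000000000000000000000000000000000000000000000000000000000000000000000000000000000000000000000000000000000000000000000, [Nat.sub (Nat.pow 2 1381) (Nat.pow 2 0), Nat.sub (Nat.pow 2 1565) (Nat.pow 2 1381), Nat.sub (Nat.pow 2 3136) (Nat.pow 2 1565)]),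
  (nat_lit 0x4000000000000000000000000000000000000000000000000000000000000000000000000000000000000000000000000000000000000000000000000000000000000000000000000000000000000000000000000000, [Nat.sub (Nat.pow 2 764) (Nat.pow 2 0), Nat.sub (Nat.pow 2 3136) (Nat.pow 2 764)]),
  (nat_lit 0x40000000000000000000000000000000000000000000000000000000000000000000000000000000000000000000000000000000000000000000000000000000000000000000000000000000000000000000000000000, [Nat.sub (Nat.pow 2 879) (Nat.pow 2 0), Nat.sub (Nat.pow 2 3136) (Nat.pow 2 879)]),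
  (nat_lit 0x80000000000000000000000000000000000000000000000000000000000000000000000000000000000000000000000000000000000000000000000000000000000000000000000000000000000000000000000000000, [Nat.sub (Nat.pow 2 1255) (Nat.pow 2 0), Nat.sub (Nat.pow 2 3136) (Nat.pow 2 1255)]),
  (nat_lit 0x400000000000000000000000000000000000000000000000000000000000000000000000000000000000000000000000000000000000000000000000000000000000000000000000000000000000000000000000000000000000000000000, [Nat.sub (Nat.pow 2 786) (Nat.pow 2 0), Nat.sub (Nat.pow 2 3136) (Nat.pow 2 786)]),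
  (nat_lit 0x800000000000000000000000000000000000000000000000000000000000000000000000000000000000000000000000000000000000000000000000000000000000000000000000000000000000000000000000000000000000000000000, [Nat.sub (Nat.pow 2 791) (Nat.pow 2 0), Nat.sub (Nat.pow 2 3136) (Nat.pow 2 791)]),
  (nat_lit 0x8000000000000000000000000000000000000000000000000000000000000000000000000000000000000000000000000000000000000000000000000000000000000000000000000000000000000000000000000000000000000000000000, [Nat.sub (Nat.pow 2 139) (Nat.pow 2 0), Nat.sub (Nat.pow 2 915) (Nat.pow 2 139), Nat.sub (Nat.pow 2 3136) (Nat.pow 2 915)]),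
  (nat_lit 0x10000000000000000000000000000000000000000000000000000000000000000000000000000000000000000000000000000000000000000000000000000000000000000000000000000000000000000000000000000000000000000000000, [Nat.sub (Nat.pow 2 306) (Nat.pow 2 0), Nat.sub (Nat.pow 2 3136) (Nat.pow 2 306)]),
  (nat_lit 0x10000000000000000000000000000000000000000000000000000000000000000000000000000000000000000000000000000000000000000000000000000000000000000000000000000000000000000, [cP]),
  (nat_lit 0x200000000000000000000000000000000000000000000000000000000000000000000000000000000000000000000000000000000000000000000000000000000000000000000000000000000000000000000000000000000000000000000000, [Nat.sub (Nat.pow 2 804) (Nat.pow 2 0), Nat.sub (Nat.pow 2 3136) (Nat.pow 2 804)]),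
  (nat_lit 0x800000000000000000000000000000000000000000000000000000000000000000000000000000000000000000000000000000000000000000000000000000000000000000000000000000000000000000000000000000000000000000000000000, [Nat.sub (Nat.pow 2 755) (Nat.pow 2 0), Nat.sub (Nat.pow 2 3136) (Nat.pow 2 755)]),
  (nat_lit 0x20000000000000000000000000000000000000000000000000000000000000000000000000000000000000000000000000000000000000000000000000000000000000000000000000000000000000000000000000000000000000000000000000000, [Nat.sub (Nat.pow 2 685) (Nat.pow 2 0), Nat.sub (Nat.pow 2 3136) (Nat.pow 2 685)]),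
  (nat_lit 0x40000000000000000000000000000000000000000000000000000000000000000000000000000000000000000000000000000000000000000000000000000000000000000000000000000000000000000000000000000000000000000000000000000, [Nat.sub (Nat.pow 2 804) (Nat.pow 2 0), Nat.sub (Nat.pow 2 3136) (Nat.pow 2 804)]),
  (nat_lit 0x400000000000000000000000000000000000000000000000000000000000000000000000000000000000000000000000000000000000000000000000000000000000000000000000000000000000000000000000000000000000000000000000000000, [Nat.sub (Nat.pow 2 189) (Nat.pow 2 0), Nat.sub (Nat.pow 2 936) (Nat.pow 2 189), Nat.sub (Nat.pow 2 3136) (Nat.pow 2 936)]),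
  (nat_lit 0x800000000000000000000000000000000000000000000000000000000000000000000000000000000000000000000000000000000000000000000000000000000000000000000000000000000000000000000000000000000000000000000000000000, [Nat.sub (Nat.pow 2 815) (Nat.pow 2 0), Nat.sub (Nat.pow 2 3136) (Nat.pow 2 815)]),
  (nat_lit 0x4000000000000000000000000000000000000000000000000000000000000000000000000000000000000000000000000000000000000000000000000000000000000000000000000000000000000000000000000000000000000000000000000000000000, [Nat.sub (Nat.pow 2 15) (Nat.pow 2 0), Nat.sub (Nat.pow 2 755) (Nat.pow 2 15), Nat.sub (Nat.pow 2 3136) (Nat.pow 2 755)]),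
  (nat_lit 0x40000000000000000000000000000000000000000000000000000000000000000000000000000000000000000000000000000000000000000000000000000000000000000000000000000000000000000000000000000000000000000000000000000000000, [Nat.sub (Nat.pow 2 34) (Nat.pow 2 0), Nat.sub (Nat.pow 2 764) (Nat.pow 2 34), Nat.sub (Nat.pow 2 3136) (Nat.pow 2 764)])]

theorem hp0 : ∀ p ∈ L0, ∀ D2 ∈ p.2, ∃ e,
    search ext94 (Pool.Agent.H74.EGZ.vio sb) G Uc A0 p.1 D2 e = true :=
  (List.forall_mem_cons.2 ⟨(List.forall_mem_cons.2 ⟨⟨e0, by decide +kernel⟩,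
  (List.forall_mem_singleton.2 ⟨e1, by decide +kernel⟩)⟩),
  (List.forall_mem_cons.2 ⟨(List.forall_mem_cons.2 ⟨⟨e2, by decide +kernel⟩,
  (List.forall_mem_singleton.2 ⟨.leaf, by decide +kernel⟩)⟩),
  (List.forall_mem_cons.2 ⟨(List.forall_mem_cons.2 ⟨⟨e4, by decide +kernel⟩,
  (List.forall_mem_singleton.2 ⟨e5, by decide +kernel⟩)⟩),
  (List.forall_mem_cons.2 ⟨(List.forall_mem_cons.2 ⟨⟨e6, by decide +kernel⟩,
  (List.forall_mem_singleton.2 ⟨e7, by decide +kernel⟩)⟩),
  (List.forall_mem_cons.2 ⟨(List.forall_mem_cons.2 ⟨⟨e8, by decide +kernel⟩,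
  (List.forall_mem_singleton.2 ⟨e9, by decide +kernel⟩)⟩),
  (List.forall_mem_cons.2 ⟨(List.forall_mem_cons.2 ⟨⟨e10, by decide +kernel⟩,
  (List.forall_mem_cons.2 ⟨⟨e11, by decide +kernel⟩,
  (List.forall_mem_cons.2 ⟨⟨e12, by decide +kernel⟩,
  (List.forall_mem_singleton.2 ⟨e13, by decide +kernel⟩)⟩)⟩)⟩),
  (List.forall_mem_cons.2 ⟨(List.forall_mem_cons.2 ⟨⟨e14, by decide +kernel⟩,
  (List.forall_mem_singleton.2 ⟨e15, by decide +kernel⟩)⟩),
  (List.forall_mem_cons.2 ⟨(List.forall_mem_cons.2 ⟨⟨e16, by decide +kernel⟩,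
  (List.forall_mem_cons.2 ⟨⟨.leaf, by decide +kernel⟩,
  (List.forall_mem_singleton.2 ⟨e18, by decide +kernel⟩)⟩)⟩),
  (List.forall_mem_cons.2 ⟨(List.forall_mem_cons.2 ⟨⟨e19, by decide +kernel⟩,
  (List.forall_mem_singleton.2 ⟨.leaf, by decide +kernel⟩)⟩),
  (List.forall_mem_cons.2 ⟨(List.forall_mem_cons.2 ⟨⟨e21, by decide +kernel⟩,
  (List.forall_mem_singleton.2 ⟨e22, by decide +kernel⟩)⟩),
  (List.forall_mem_cons.2 ⟨(List.forall_mem_singleton.2 ⟨.leaf, by decide +kernel⟩),
  (List.forall_mem_cons.2 ⟨(List.forall_mem_cons.2 ⟨⟨e24, by decide +kernel⟩,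
  (List.forall_mem_singleton.2 ⟨e25, by decide +kernel⟩)⟩),
  (List.forall_mem_cons.2 ⟨(List.forall_mem_cons.2 ⟨⟨e26, by decide +kernel⟩,
  (List.forall_mem_cons.2 ⟨⟨e27, by decide +kernel⟩,
  (List.forall_mem_singleton.2 ⟨e28, by decide +kernel⟩)⟩)⟩),
  (List.forall_mem_cons.2 ⟨(List.forall_mem_cons.2 ⟨⟨e29, by decide +kernel⟩,
  (List.forall_mem_cons.2 ⟨⟨e30, by decide +kernel⟩,
  (List.forall_mem_singleton.2 ⟨e31, by decide +kernel⟩)⟩)⟩),
  (List.forall_mem_cons.2 ⟨(List.forall_mem_cons.2 ⟨⟨e32, by decide +kernel⟩,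
  (List.forall_mem_cons.2 ⟨⟨e33, by decide +kernel⟩,
  (List.forall_mem_singleton.2 ⟨.leaf, by decide +kernel⟩)⟩)⟩),
  (List.forall_mem_cons.2 ⟨(List.forall_mem_cons.2 ⟨⟨e35, by decide +kernel⟩,
  (List.forall_mem_singleton.2 ⟨e36, by decide +kernel⟩)⟩),
  (List.forall_mem_cons.2 ⟨(List.forall_mem_cons.2 ⟨⟨e37, by decide +kernel⟩,
  (List.forall_mem_singleton.2 ⟨e38, by decide +kernel⟩)⟩),
  (List.forall_mem_cons.2 ⟨(List.forall_mem_cons.2 ⟨⟨e39, by decide +kernel⟩,
  (List.forall_mem_singleton.2 ⟨e40, by decide +kernel⟩)⟩),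
  (List.forall_mem_cons.2 ⟨(List.forall_mem_cons.2 ⟨⟨e41, by decide +kernel⟩,
  (List.forall_mem_cons.2 ⟨⟨e42, by decide +kernel⟩,
  (List.forall_mem_cons.2 ⟨⟨e43, by decide +kernel⟩,
  (List.forall_mem_cons.2 ⟨⟨e44, by decide +kernel⟩,
  (List.forall_mem_cons.2 ⟨⟨e45, by decide +kernel⟩,
  (List.forall_mem_singleton.2 ⟨.leaf, by decide +kernel⟩)⟩)⟩)⟩)⟩)⟩),
  (List.forall_mem_cons.2 ⟨(List.forall_mem_cons.2 ⟨⟨e47, by decide +kernel⟩,
  (List.forall_mem_cons.2 ⟨⟨e48, by decide +kernel⟩,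
  (List.forall_mem_singleton.2 ⟨.leaf, by decide +kernel⟩)⟩)⟩),
  (List.forall_mem_cons.2 ⟨(List.forall_mem_cons.2 ⟨⟨e50, by decide +kernel⟩,
  (List.forall_mem_cons.2 ⟨⟨e51, by decide +kernel⟩,
  (List.forall_mem_cons.2 ⟨⟨e52, by decide +kernel⟩,
  (List.forall_mem_singleton.2 ⟨e53, by decide +kernel⟩)⟩)⟩)⟩),
  (List.forall_mem_cons.2 ⟨(List.forall_mem_singleton.2 ⟨.leaf, by decide +kernel⟩),
  (List.forall_mem_cons.2 ⟨(List.forall_mem_cons.2 ⟨⟨e55, by decide +kernel⟩,
  (List.forall_mem_cons.2 ⟨⟨e56, by decide +kernel⟩,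
  (List.forall_mem_singleton.2 ⟨.leaf, by decide +kernel⟩)⟩)⟩),
  (List.forall_mem_cons.2 ⟨(List.forall_mem_cons.2 ⟨⟨.leaf, by decide +kernel⟩,
  (List.forall_mem_singleton.2 ⟨e59, by decide +kernel⟩)⟩),
  (List.forall_mem_cons.2 ⟨(List.forall_mem_cons.2 ⟨⟨e60, by decide +kernel⟩,
  (List.forall_mem_singleton.2 ⟨e61, by decide +kernel⟩)⟩),
  (List.forall_mem_cons.2 ⟨(List.forall_mem_cons.2 ⟨⟨e62, by decide +kernel⟩,
  (List.forall_mem_singleton.2 ⟨e63, by decide +kernel⟩)⟩),
  (List.forall_mem_cons.2 ⟨(List.forall_mem_cons.2 ⟨⟨e64, by decide +kernel⟩,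
  (List.forall_mem_singleton.2 ⟨.leaf, by decide +kernel⟩)⟩),
  (List.forall_mem_cons.2 ⟨(List.forall_mem_cons.2 ⟨⟨e66, by decide +kernel⟩,
  (List.forall_mem_singleton.2 ⟨e67, by decide +kernel⟩)⟩),
  (List.forall_mem_cons.2 ⟨(List.forall_mem_singleton.2 ⟨e68, by decide +kernel⟩),
  (List.forall_mem_cons.2 ⟨(List.forall_mem_cons.2 ⟨⟨e69, by decide +kernel⟩,
  (List.forall_mem_singleton.2 ⟨e70, by decide +kernel⟩)⟩),
  (List.forall_mem_cons.2 ⟨(List.forall_mem_singleton.2 ⟨.leaf, by decide +kernel⟩),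
  (List.forall_mem_cons.2 ⟨(List.forall_mem_cons.2 ⟨⟨e72, by decide +kernel⟩,
  (List.forall_mem_cons.2 ⟨⟨e73, by decide +kernel⟩,
  (List.forall_mem_cons.2 ⟨⟨e74, by decide +kernel⟩,
  (List.forall_mem_singleton.2 ⟨.leaf, by decide +kernel⟩)⟩)⟩)⟩),
  (List.forall_mem_cons.2 ⟨(List.forall_mem_singleton.2 ⟨e76, by decide +kernel⟩),
  (List.forall_mem_cons.2 ⟨(List.forall_mem_singleton.2 ⟨e77, by decide +kernel⟩),
  (List.forall_mem_cons.2 ⟨(List.forall_mem_cons.2 ⟨⟨e78, by decide +kernel⟩,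
  (List.forall_mem_cons.2 ⟨⟨.leaf, by decide +kernel⟩,
  (List.forall_mem_singleton.2 ⟨e80, by decide +kernel⟩)⟩)⟩),
  (List.forall_mem_cons.2 ⟨(List.forall_mem_cons.2 ⟨⟨e81, by decide +kernel⟩,
  (List.forall_mem_cons.2 ⟨⟨e82, by decide +kernel⟩,
  (List.forall_mem_singleton.2 ⟨e83, by decide +kernel⟩)⟩)⟩),
  (List.forall_mem_cons.2 ⟨(List.forall_mem_cons.2 ⟨⟨e84, by decide +kernel⟩,
  (List.forall_mem_cons.2 ⟨⟨e85, by decide +kernel⟩,
  (List.forall_mem_singleton.2 ⟨e86, by decide +kernel⟩)⟩)⟩),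
  (List.forall_mem_cons.2 ⟨(List.forall_mem_cons.2 ⟨⟨e87, by decide +kernel⟩,
  (List.forall_mem_cons.2 ⟨⟨e88, by decide +kernel⟩,
  (List.forall_mem_singleton.2 ⟨.leaf, by decide +kernel⟩)⟩)⟩),
  (List.forall_mem_cons.2 ⟨(List.forall_mem_cons.2 ⟨⟨e90, by decide +kernel⟩,
  (List.forall_mem_singleton.2 ⟨e91, by decide +kernel⟩)⟩),
  (List.forall_mem_cons.2 ⟨(List.forall_mem_cons.2 ⟨⟨e92, by decide +kernel⟩,
  (List.forall_mem_singleton.2 ⟨e93, by decide +kernel⟩)⟩),
  (List.forall_mem_cons.2 ⟨(List.forall_mem_cons.2 ⟨⟨.leaf, by decide +kernel⟩,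
  (List.forall_mem_singleton.2 ⟨e95, by decide +kernel⟩)⟩),
  (List.forall_mem_cons.2 ⟨(List.forall_mem_cons.2 ⟨⟨e96, by decide +kernel⟩,
  (List.forall_mem_singleton.2 ⟨.leaf, by decide +kernel⟩)⟩),
  (List.forall_mem_cons.2 ⟨(List.forall_mem_cons.2 ⟨⟨.leaf, by decide +kernel⟩,
  (List.forall_mem_singleton.2 ⟨.leaf, by decide +kernel⟩)⟩),
  (List.forall_mem_cons.2 ⟨(List.forall_mem_cons.2 ⟨⟨e100, by decide +kernel⟩,
  (List.forall_mem_cons.2 ⟨⟨e101, by decide +kernel⟩,
  (List.forall_mem_singleton.2 ⟨e102, by decide +kernel⟩)⟩)⟩),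
  (List.forall_mem_cons.2 ⟨(List.forall_mem_cons.2 ⟨⟨e103, by decide +kernel⟩,
  (List.forall_mem_singleton.2 ⟨.leaf, by decide +kernel⟩)⟩),
  (List.forall_mem_cons.2 ⟨(List.forall_mem_singleton.2 ⟨.leaf, by decide +kernel⟩),
  (List.forall_mem_cons.2 ⟨(List.forall_mem_cons.2 ⟨⟨e106, by decide +kernel⟩,
  (List.forall_mem_singleton.2 ⟨e107, by decide +kernel⟩)⟩),
  (List.forall_mem_cons.2 ⟨(List.forall_mem_cons.2 ⟨⟨e108, by decide +kernel⟩,
  (List.forall_mem_singleton.2 ⟨e109, by decide +kernel⟩)⟩),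
  (List.forall_mem_cons.2 ⟨(List.forall_mem_cons.2 ⟨⟨e110, by decide +kernel⟩,
  (List.forall_mem_singleton.2 ⟨e111, by decide +kernel⟩)⟩),
  (List.forall_mem_cons.2 ⟨(List.forall_mem_cons.2 ⟨⟨e112, by decide +kernel⟩,
  (List.forall_mem_singleton.2 ⟨e113, by decide +kernel⟩)⟩),
  (List.forall_mem_cons.2 ⟨(List.forall_mem_cons.2 ⟨⟨e114, by decide +kernel⟩,
  (List.forall_mem_cons.2 ⟨⟨.leaf, by decide +kernel⟩,
  (List.forall_mem_singleton.2 ⟨.leaf, by decide +kernel⟩)⟩)⟩),
  (List.forall_mem_cons.2 ⟨(List.forall_mem_cons.2 ⟨⟨e117, by decide +kernel⟩,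
  (List.forall_mem_singleton.2 ⟨e118, by decide +kernel⟩)⟩),
  (List.forall_mem_cons.2 ⟨(List.forall_mem_cons.2 ⟨⟨e119, by decide +kernel⟩,
  (List.forall_mem_cons.2 ⟨⟨.leaf, by decide +kernel⟩,
  (List.forall_mem_singleton.2 ⟨.leaf, by decide +kernel⟩)⟩)⟩),
  (List.forall_mem_singleton.2 (List.forall_mem_cons.2 ⟨⟨e122, by decide +kernel⟩,
  (List.forall_mem_cons.2 ⟨⟨e123, by decide +kernel⟩,
  (List.forall_mem_singleton.2 ⟨e124, by decide +kernel⟩)⟩)⟩))⟩)⟩)⟩)⟩)⟩)⟩)⟩)⟩)⟩)⟩)⟩)⟩)⟩)⟩)⟩)⟩)⟩)⟩)⟩)⟩)⟩)⟩)⟩)⟩)⟩)⟩)⟩)⟩)⟩)⟩)⟩)⟩)⟩)⟩)⟩)⟩)⟩)⟩)⟩)⟩)⟩)⟩)⟩)⟩)⟩)⟩)⟩)⟩)⟩)⟩)⟩)⟩)⟩)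

end

end Pool.Agent.H21.EGZ.S1
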