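import Pool.Agent.H21.EGZ.D1

/-!
# Stage 1 : search, part 1
-/

set_option autoImplicit false
set_option maxRecDepth 100000

namespace Pool.Agent.H21.EGZ.S1

noncomputable section

open Pool.Agent.H74.EGZ Pool.Agent.H94.Lift

/-- refutations 126 -/
def e126 : EX := (.node .leaf (nat_lit 14203598196543623) (.br (nat_lit 0) (.cons (.br (nat_lit 2) (.cons (.rel (nat_lit 72356112)) .nil)) .nil)) .leaf)

/-- refutations 128 -/
def e128 : EX := (.node (.node (.node (.node (.node (.node .leaf (nat_lit 14249689176719495) (.br (nat_lit 0) (.cons (.br (nat_lit 1) (.cons (.rel (nat_lit 21626880)) .nil)) .nil)) .leaf) (nat_lit 14249689177976963) (.br (nat_lit 0) (.cons (.br (nat_lit 3) (.cons (.rel (nat_lit 273154308)) .nil)) .nil)) (.node .leaf (nat_lit 14249691765608583) (.br (nat_lit 0) (.cons (.br (nat_lit 1) (.cons (.rel (nat_lit 21004416)) .nil)) .nil)) .leaf)) (nat_lit 14249691782342787) (.br (nat_lit 0) (.cons (.br (nat_lit 1) (.cons (.rel (nat_lit 42270720)) .nil)) .nil)) (.node (.node .leaf (nat_lit 14249691782385799)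 (.br (nat_lit 1) (.cons (.br (nat_lit 3) (.cons (.rel (nat_lit 286281729)) .nil)) .nil)) .leaf) (nat_lit 14249691797545885) (.br (nat_lit 1) (.cons (.br (nat_lit 4) (.cons (.rel (nat_lit 1090535553)) .nil)) .nil)) (.node .leaf (nat_lit 14249691798159495) (.br (nat_lit 0) (.cons (.br (nat_lit 1) (.cons (.rel (nat_lit 41959488)) .nil)) .nil)) .leaf))) (nat_lit 14249691799179391) (.br (nat_lit 1) (.cons (.br (nat_lit 3) (.cons (.rel (nat_lit 286278912)) .nil)) .nil)) (.node (.node (.node .leaf (nat_lit 14249691799179399) (.br (nat_lit 0) (.cons (.br (nat_lit 4) (.cons (.rel (nat_lit 2151678240)) .nil)) .nil)) .leaf) (nat_lit 14249691799324799) (.br (nat_lit 0) (.cons (.br (nat_lit 2) (.cons (.rel (nat_lit 73728000)) .nil)) .nil)) (.node .leaf (nat_lit 14249691800612999) (.br (nat_lit 0) (.cons (.br (nat_lit 3) (.cons (.rel (nat_lit 541066752)) .nil)) .nil)) .leaf)) (nat_lit 14249723536443527) (.br (nat_lit 1) (.cons (.br (nat_lit 6) (.cons (.rel (nat_lit 34393554948)) .nil)) .nil)) (.node (.node .leaf (nat_lit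 14249723537715331) (.br (nat_lit 0) (.cons (.br (nat_lit 1) (.cons (.rel (nat_lit 26476800)) .nil)) .nil)) .leaf) (nat_lit 14249725493543594) (.br (nat_lit 0) (.cons (.br (nat_lit 1) (.cons (.rel (nat_lit 37765125)) .nil)) .nil)) (.node .leaf (nat_lit 14249726141106311) (.br (nat_lit 1) (.cons (.br (nat_lit 6) (.cons (.rel (nat_lit 34393554948)) .nil)) .nil)) .leaf)))) (nat_lit 14249726142124163) (.br (nat_lit 1) (.cons (.br (nat_lit 3) (.cons (.rel (nat_lit 286281729)) .nil)) .nil)) (.node (.node (.node (.node .leaf (nat_lit 14249726142124167) (.br (nat_lit 0) (.cons (.br (nat_lit 2) (.cons (.rel (nat_lit 72356112)) .nil)) .nil)) .leaf) (nat_lit 14249726145300615) (.br (nat_lit 1) (.cons (.br (nat_lit 3) (.cons (.rel (nat_lit 286261764)) .nil)) .nil)) (.node .leaf (nat_lit 14249726157262973) (.br (nat_lit 2) (.cons (.br (nat_lit 3) (.cons (.rel (nat_lit 335548545)) .nil)) .nil)) .leaf)) (nat_lit 14249726157263125) (.br (nat_lit 0) (.cons (.br (nat_lit 1) (.cons (.rel (nat_lit 21315648)) .nil)) .nil)) (.node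 (.node .leaf (nat_lit 14249726157284253) (.br (nat_lit 6) (.cons (.br (nat_lit 1) (.cons (.rel (nat_lit 34377564225)) (.cons (.rel (nat_lit 17197711617)) (.cons (.rel (nat_lit 34377564225)) .nil)))) .nil)) .leaf) (nat_lit 14249726157332490) (.br (nat_lit 2) (.cons (.br (nat_lit 4) (.cons (.rel (nat_lit 2281979904)) .nil)) .nil)) (.node .leaf (nat_lit 14249726157566127) (.br (nat_lit 1) (.cons (.br (nat_lit 4) (.cons (.rel (nat_lit 1091043588)) .nil)) .nil)) .leaf))) (nat_lit 14249726157628142) (.br (nat_lit 0) (.cons (.br (nat_lit 5) (.cons (.rel (nat_lit 4303364112)) .nil)) .nil)) (.node (.node (.node .leaf (nat_lit 14249726157836415) (.br (nat_lit 0) (.cons (.br (nat_lit 3) (.cons (.rel (nat_lit 276826368)) .nil)) .nil)) .leaf) (nat_lit 14249726157837190) (.br (nat_lit 4) (.cons (.br (nat_lit 5) (.cons (.rel (nat_lit 5369237520)) .nil)) .nil)) (.node .leaf (nat_lit 14249726157873277) (.br (nat_lit 1) (.cons (.br (nat_lit 5) (.cons (.rel (nat_lit 4312006980)) .nil)) .nil)) .leaf)) (nat_lit 14249726157883527)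 (.br (nat_lit 3) (.cons (.br (nat_lit 6) (.cons (.br (nat_lit 4) (.cons (.rel (nat_lit 18254135298)) (.cons (.rel (nat_lit 1344552960)) .nil))) .nil)) .nil)) (.node (.node .leaf (nat_lit 14249726157885615) (.br (nat_lit 0) (.cons (.br (nat_lit 2) (.cons (.rel (nat_lit 142607424)) .nil)) .nil)) .leaf) (nat_lit 14249726157897859) (.br (nat_lit 0) (.cons (.br (nat_lit 3) (.cons (.rel (nat_lit 278134800)) .nil)) .nil)) .leaf)))) (nat_lit 14249726158563338) (.br (nat_lit 3) (.cons (.br (nat_lit 4) (.cons (.rel (nat_lit 1342702593)) .nil)) .nil)) (.node (.node (.node (.node (.node .leaf (nat_lit 14249726158563614) (.br (nat_lit 0) (.cons (.br (nat_lit 2) (.cons (.rel (nat_lit 73416768)) .nil)) .nil)) .leaf) (nat_lit 14249726158563628) (.br (nat_lit 0) (.cons (.br (nat_lit 4) (.cons (.rel (nat_lit 1078468608)) .nil)) .nil)) (.node .leaf (nat_lit 14249726158611334) (.br (nat_lit 1) (.cons (.br (nat_lit 3) (.cons (.rel (nat_lit 285475920)) .nil)) .nil)) .leaf)) (nat_lit 14249726158661884) (.br (nat_lit 0) (.cons (.br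 (nat_lit 1) (.cons (.rel (nat_lit 41959488)) .nil)) .nil)) (.node (.node .leaf (nat_lit 14249726158817290) (.br (nat_lit 1) (.cons (.br (nat_lit 2) (.cons (.rel (nat_lit 101974017)) .nil)) .nil)) .leaf) (nat_lit 14249726158817585) (.br (nat_lit 0) (.cons (.br (nat_lit 1) (.cons (.rel (nat_lit 21626880)) .nil)) .nil)) (.node .leaf (nat_lit 14249726158850229) (.br (nat_lit 1) (.cons (.br (nat_lit 4) (.cons (.rel (nat_lit 1091043588)) .nil)) .nil)) .leaf))) (nat_lit 14249726158899961) (.br (nat_lit 0) (.cons (.br (nat_lit 2) (.cons (.rel (nat_lit 71827458)) .nil)) .nil)) (.node (.node (.node .leaf (nat_lit 14249726158901373) (.br (nat_lit 0) (.cons (.br (nat_lit 5) (.cons (.rel (nat_lit 4301258820)) .nil)) .nil)) .leaf) (nat_lit 14249726158901383) (.br (nat_lit 0) (.cons (.br (nat_lit 2) (.cons (.rel (nat_lit 142607424)) (.cons (.rel (nat_lit 72356112)) .nil))) .nil)) (.node .leaf (nat_lit 14249726158901500) (.br (nat_lit 3) (.cons (.br (nat_lit 4) (.cons (.rel (nat_lit 1342701588)) .nil)) .nil)) .leaf)) (nat_lit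 14249726158901528) (.br (nat_lit 2) (.cons (.br (nat_lit 3) (.cons (.rel (nat_lit 336592914)) .nil)) .nil)) (.node (.node .leaf (nat_lit 14249726159071242) (.br (nat_lit 1) (.cons (.br (nat_lit 2) (.cons (.rel (nat_lit 83906688)) .nil)) .nil)) .leaf) (nat_lit 14249726159072034) (.br (nat_lit 6) (.cons (.br (nat_lit 1) (.cons (.rel (nat_lit 17214750720)) (.cons (.rel (nat_lit 17197170696)) .nil))) .nil)) .leaf))) (nat_lit 14249726159155325) (.br (nat_lit 0) (.cons (.br (nat_lit 3) (.cons (.rel (nat_lit 276828180)) .nil)) .nil)) (.node (.node (.node (.node .leaf (nat_lit 14249726159157258) (.br (nat_lit 4) (.cons (.br (nat_lit 6) (.cons (.rel (nat_lit 18254663952)) .nil)) .nil)) .leaf) (nat_lit 14249726159157279) (.br (nat_lit 1) (.cons (.br (nat_lit 5) (.cons (.rel (nat_lit 4312794114)) .nil)) .nil)) (.node .leaf (nat_lit 14249726159843628) (.br (nat_lit 3) (.cons (.br (nat_lit 4) (.cons (.rel (nat_lit 1344552960)) .nil)) .nil)) .leaf)) (nat_lit 14249726159844253) (.br (nat_lit 0) (.cons (.br (nat_lit 2) (.cons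 (.rel (nat_lit 72368388)) .nil)) .nil)) (.node (.node .leaf (nat_lit 14249726159943966) (.br (nat_lit 0) (.cons (.br (nat_lit 1) (.cons (.rel (nat_lit 22021380)) .nil)) .nil)) .leaf) (nat_lit 14249726159945181) (.br (nat_lit 1) (.cons (.br (nat_lit 5) (.cons (.rel (nat_lit 4330635396)) (.cons (.rel (nat_lit 4312794114)) .nil))) .nil)) (.node .leaf (nat_lit 14249726160085147) (.br (nat_lit 0) (.cons (.br (nat_lit 1) (.cons (.rel (nat_lit 22024197)) .nil)) .nil)) .leaf))) (nat_lit 14249726160140419) (.br (nat_lit 0) (.cons (.br (nat_lit 1) (.cons (.rel (nat_lit 26218560)) .nil)) .nil)) (.node (.node (.node .leaf (nat_lit 14249726160147867) (.br (nat_lit 0) (.cons (.br (nat_lit 1) (.cons (.rel (nat_lit 42270720)) .nil)) .nil)) .leaf) (nat_lit 14249726160438508) (.br (nat_lit 1) (.cons (.br (nat_lit 2) (.cons (.rel (nat_lit 84476160)) .nil)) .nil)) (.node .leaf (nat_lit 14249726160444893) (.br (nat_lit 2) (.cons (.br (nat_lit 3) (.cons (.rel (nat_lit 337117284)) .nil)) .nil)) .leaf)) (nat_lit 14249726160454434)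 (.br (nat_lit 0) (.cons (.br (nat_lit 4) (.cons (.rel (nat_lit 1079001120)) .nil)) .nil)) (.node (.node .leaf (nat_lit 14249726160455042) (.br (nat_lit 3) (.cons (.br (nat_lit 5) (.cons (.rel (nat_lit 9126806592)) .nil)) .nil)) .leaf) (nat_lit 14249728780595331) (.br (nat_lit 0) (.cons (.br (nat_lit 1) (.cons (.rel (nat_lit 21626880)) .nil)) .nil)) .leaf)))))

/-- refutations 129 -/
def e129 : EX := (.node (.node (.node (.node .leaf (nat_lit 14249760484081799) (.br (nat_lit 0) (.cons (.br (nat_lit 3) (.cons (.rel (nat_lit 273171456)) .nil)) .nil)) .leaf) (nat_lit 14249760486028814) (.br (nat_lit 2) (.cons (.br (nat_lit 3) (.cons (.rel (nat_lit 335548545)) .nil)) .nil)) .leaf) (nat_lit 14249760501878919) (.br (nat_lit 0) (.cons (.br (nat_lit 3) (.cons (.rel (nat_lit 273680385)) .nil)) .nil)) (.node (.node .leaf (nat_lit 14249760502806030) (.br (nat_lit 2) (.cons (.br (nat_lit 3) (.cons (.rel (nat_lit 336593928)) .nil)) .nil)) .leaf) (nat_lit 14249760517636231) (.br (nat_lit 0) (.cons (.br (nat_lit 2) (.cons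 (.rel (nat_lit 72385536)) .nil)) .nil)) .leaf)) (nat_lit 14249760518639747) (.br (nat_lit 1) (.cons (.br (nat_lit 2) (.cons (.rel (nat_lit 84940800)) .nil)) .nil)) (.node (.node (.node .leaf (nat_lit 14249763139061887) (.br (nat_lit 0) (.cons (.br (nat_lit 2) (.cons (.rel (nat_lit 73728000)) .nil)) .nil)) .leaf) (nat_lit 14250195866423431) (.br (nat_lit 0) (.cons (.br (nat_lit 1) (.cons (.rel (nat_lit 22021380)) .nil)) .nil)) .leaf) (nat_lit 14250198605303943) (.br (nat_lit 0) (.cons (.br (nat_lit 1) (.cons (.rel (nat_lit 21004416)) .nil)) .nil)) (.node (.node .leaf (nat_lit 14250198605559818) (.br (nat_lit 0) (.cons (.br (nat_lit 1) (.cons (.rel (nat_lit 42270720)) .nil)) .nil)) .leaf) (nat_lit 14251272346790188) (.br (nat_lit 0) (.cons (.br (nat_lit 1) (.cons (.rel (nat_lit 21004416)) .nil)) .nil)) .leaf)))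

/-- refutations 130 -/
def e130 : EX := (.node (.node (.node .leaf (nat_lit 14257662591570800) (.br (nat_lit 1) (.cons (.br (nat_lit 3) (.cons (.rel (nat_lit 570425412)) .nil)) .nil)) .leaf) (nat_lit 14257662591827227) (.br (nat_lit 0) (.cons (.br (nat_lit 1) (.cons (.rel (nat_lit 23330817)) .nil)) .nil)) .leaf) (nat_lit 14260626534240391) (.br (nat_lit 0) (.cons (.br (nat_lit 1) (.cons (.rel (nat_lit 25170180)) .nil)) .nil)) (.node .leaf (nat_lit 14260629285703815) (.br (nat_lit 0) (.cons (.br (nat_lit 1) (.cons (.rel (nat_lit 21004416)) .nil)) .nil)) .leaf))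

/-- refutations 132 -/
def e132 : EX := (.node (.node .leaf (nat_lit 14267573200470166) (.br (nat_lit 0) (.cons (.br (nat_lit 3) (.cons (.rel (nat_lit 273679380)) .nil)) .nil)) .leaf) (nat_lit 14267736486422715) (.br (nat_lit 1) (.cons (.br (nat_lit 2) (.cons (.rel (nat_lit 83906688)) .nil)) .nil)) .leaf)

/-- refutations 133 -/
def e133 : EX := (.node (.node (.node .leaf (nat_lit 14278047067377799) (.br (nat_lit 0) (.cons (.br (nat_lit 4) (.cons (.rel (nat_lit 2151743508)) .nil)) .nil)) .leaf) (nat_lit 14278049152911495) (.br (nat_lit 0) (.cons (.br (nat_lit 2) (.cons (.rel (nat_lit 75497508)) .nil)) .nil)) (.node .leaf (nat_lit 14278218952013959) (.br (nat_lit 1) (.cons (.br (nat_lit 2) (.cons (.rel (nat_lit 150999312)) .nil)) .nil)) .leaf)) (nat_lit 14278304829264048) (.br (nat_lit 0) (.cons (.br (nat_lit 2) (.cons (.rel (nat_lit 71565396)) .nil)) .nil)) (.node (.node .leaf (nat_lit 14280675671236743) (.br (nat_lit 0) (.cons (.br (nat_lit 2) (.cons (.rel (nat_lit 72482817)) .nil)) .nil)) .leaf) (nat_lit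 14280677672896647) (.br (nat_lit 0) (.cons (.br (nat_lit 3) (.cons (.rel (nat_lit 273686784)) .nil)) .nil)) .leaf))

/-- refutations 134 -/
def e134 : EX := (.node .leaf (nat_lit 14284867560345730) (.br (nat_lit 0) (.cons (.br (nat_lit 2) (.cons (.rel (nat_lit 71305344)) .nil)) .nil)) .leaf)

/-- refutations 135 -/
def e135 : EX := (.node .leaf (nat_lit 14295696877022560) (.br (nat_lit 0) (.cons (.br (nat_lit 6) (.cons (.rel (nat_lit 17184604161)) (.cons (.rel (nat_lit 34363998480)) .nil))) .nil)) .leaf)

/-- refutations 136 -/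
def e136 : EX := (.node (.node (.node .leaf (nat_lit 15498771368271384) (.br (nat_lit 0) (.cons (.br (nat_lit 2) (.cons (.rel (nat_lit 75534336)) .nil)) .nil)) .leaf) (nat_lit 15499198105102471) (.br (nat_lit 2) (.cons (.br (nat_lit 3) (.cons (.rel (nat_lit 336592914)) .nil)) .nil)) .leaf) (nat_lit 15500090967566471) (.br (nat_lit 0) (.cons (.br (nat_lit 1) (.cons (.rel (nat_lit 41943393)) .nil)) .nil)) (.node .leaf (nat_lit 15500091458300039) (.br (nat_lit 1) (.cons (.br (nat_lit 5) (.cons (.rel (nat_lit 4312940544)) .nil)) .nil)) .leaf))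

/-- refutations 137 -/
def e137 : EX := (.node (.node .leaf (nat_lit 15505162153732728) (.br (nat_lit 0) (.cons (.br (nat_lit 1) (.cons (.rel (nat_lit 21626880)) .nil)) .nil)) .leaf) (nat_lit 15505461861918855) (.br (nat_lit 0) (.cons (.br (nat_lit 1) (.cons (.rel (nat_lit 21315648)) .nil)) .nil)) .leaf)

/-- refutations 138 -/
def e138 : EX := (.node (.node (.node .leaf (nat_lit 15516326424851332) (.br (nat_lit 0) (.cons (.br (nat_lit 1) (.cons (.rel (nat_lit 22021380)) .nil)) .nil)) .leaf) (nat_lit 15516360729951759) (.br (nat_lit 1) (.cons (.br (nat_lit 2) (.cons (.rel (nat_lit 84940800)) .nil)) .nil)) (.node .leaf (nat_lit 15516362485533574) (.br (nat_lit 5) (.cons (.br (nat_lit 6) (.cons (.rel (nat_lit 38654722053)) .nil)) .nil)) .leaf)) (nat_lit 15516362887416113) (.br (nat_lit 0) (.cons (.br (nat_lit 1) (.cons (.rel (nat_lit 21004416)) .nil)) .nil)) (.node (.node .leaf (nat_lit 15516362888138114) (.br (nat_lit 0) (.cons (.br (nat_lit 1) (.cons (.rel (nat_lit 21315648)) .nil)) .nil)) .leaf) (nat_lit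 15516362888187357) (.br (nat_lit 0) (.cons (.br (nat_lit 1) (.cons (.rel (nat_lit 37750032)) .nil)) .nil)) (.node .leaf (nat_lit 15516363555655842) (.br (nat_lit 0) (.cons (.br (nat_lit 6) (.cons (.rel (nat_lit 17184654336)) .nil)) .nil)) .leaf)))

/-- refutations 139 -/
def e139 : EX := (.node (.node .leaf (nat_lit 15528223429979613) (.br (nat_lit 0) (.cons (.br (nat_lit 1) (.cons (.rel (nat_lit 37815300)) .nil)) .nil)) .leaf) (nat_lit 15528223516075485) (.br (nat_lit 1) (.cons (.br (nat_lit 2) (.cons (.rel (nat_lit 83906688)) .nil)) .nil)) .leaf)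

/-- refutations 140 -/
def e140 : EX := (.node .leaf (nat_lit 15571682086658183) (.br (nat_lit 1) (.cons (.br (nat_lit 4) (.cons (.rel (nat_lit 2164396032)) .nil)) .nil)) .leaf)

/-- refutations 144 -/
def e144 : EX := (.node (.node (.node (.node .leaf (nat_lit 15850786657159294) (.br (nat_lit 0) (.cons (.br (nat_lit 6) (.cons (.rel (nat_lit 17184604161)) .nil)) .nil)) .leaf) (nat_lit 15850788737534087) (.br (nat_lit 1) (.cons (.br (nat_lit 3) (.cons (.rel (nat_lit 286261764)) .nil)) .nil)) .leaf) (nat_lit 15850788737534133) (.br (nat_lit 6) (.cons (.br (nat_lit 0) (.cons (.rel (nat_lit 17188275216)) (.cons (.rel (nat_lit 17184129153)) .nil))) .nil)) (.node .leaf (nat_lit 15850788737535214) (.br (nat_lit 3) (.cons (.br (nat_lit 4) (.cons (.rel (nat_lit 1342177410)) (.cons (.rel (nat_lit 1342177410)) .nil))) .nil)) .leaf)) (nat_lit 15850788737535328) (.br (nat_lit 1) (.cons (.br (nat_lit 3) (.cons (.rel (nat_lit 301991433)) .nil)) .nil)) (.node (.node .leaf (nat_lit 15850880081847574) (.br (nat_lit 2) (.cons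 (.br (nat_lit 3) (.cons (.rel (nat_lit 603987984)) .nil)) .nil)) .leaf) (nat_lit 15851089532045493) (.br (nat_lit 0) (.cons (.br (nat_lit 1) (.cons (.rel (nat_lit 41959488)) .nil)) .nil)) (.node .leaf (nat_lit 15851089532046874) (.br (nat_lit 0) (.cons (.br (nat_lit 2) (.cons (.rel (nat_lit 142868481)) .nil)) .nil)) .leaf)))

/-- refutations 145 -/
def e145 : EX := (.node (.node (.node .leaf (nat_lit 15862632176961671) (.br (nat_lit 1) (.cons (.br (nat_lit 3) (.cons (.rel (nat_lit 553714689)) .nil)) .nil)) .leaf) (nat_lit 15862632176962198) (.br (nat_lit 0) (.cons (.br (nat_lit 1) (.cons (.rel (nat_lit 37752849)) .nil)) .nil)) .leaf) (nat_lit 15863661899565191) (.br (nat_lit 0) (.cons (.br (nat_lit 1) (.cons (.rel (nat_lit 41943393)) .nil)) .nil)) (.node .leaf (nat_lit 15863974958222243) (.br (nat_lit 4) (.cons (.br (nat_lit 5) (.cons (.rel (nat_lit 5368774788)) .nil)) .nil)) .leaf))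

/-- refutations 146 -/
def e146 : EX := (.node (.node .leaf (nat_lit 15938576007822813) (.br (nat_lit 1) (.cons (.br (nat_lit 2) (.cons (.rel (nat_lit 151028736)) .nil)) .nil)) .leaf) (nat_lit 15938577969792277) (.br (nat_lit 0) (.cons (.br (nat_lit 1) (.cons (.rel (nat_lit 41959488)) .nil)) .nil)) .leaf)

/-- refutations 148 -/
def e148 : EX := (.node (.node .leaf (nat_lit 15949707491915030) (.br (nat_lit 0) (.cons (.br (nat_lit 2) (.cons (.rel (nat_lit 142868481)) .nil)) .nil)) .leaf) (nat_lit 15950635657834521) (.br (nat_lit 0) (.cons (.br (nat_lit 3) (.cons (.rel (nat_lit 273679380)) .nil)) .nil)) .leaf)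

/-- refutations 149 -/
def e149 : EX := (.node (.node .leaf (nat_lit 13317763788949639) (.br (nat_lit 1) (.cons (.br (nat_lit 2) (.cons (.rel (nat_lit 150999312)) .nil)) .nil)) .leaf) (nat_lit 13328240820603015) (.br (nat_lit 0) (.cons (.br (nat_lit 1) (.cons (.rel (nat_lit 22038528)) .nil)) .nil)) (.node .leaf (nat_lit 13329319881859207) (.br (nat_lit 0) (.cons (.br (nat_lit 2) (.cons (.rel (nat_lit 142607424)) .nil)) .nil)) .leaf))

/-- refutations 150 -/
def e150 : EX := (.node (.node (.node (.node .leaf (nat_lit 16026504674420214) (.br (nat_lit 2) (.cons (.br (nat_lit 3) (.cons (.rel (nat_lit 402670593)) .nil)) .nil)) .leaf) (nat_lit 16026710644105347) (.br (nat_lit 1) (.cons (.br (nat_lit 3) (.cons (.rel (nat_lit 285475920)) .nil)) .nil)) .leaf) (nat_lit 16026762183712899) (.br (nat_lit 1) (.cons (.br (nat_lit 2) (.cons (.rel (nat_lit 101974017)) .nil)) .nil)) (.node .leaf (nat_lit 16026959848677511) (.br (nat_lit 1) (.cons (.br (nat_lit 0) (.cons (.rel (nat_lit 22038528)) (.cons (.rel (nat_lit 37752849))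 .nil))) .nil)) .leaf)) (nat_lit 16026959848677552) (.br (nat_lit 0) (.cons (.br (nat_lit 1) (.cons (.rel (nat_lit 37752849)) .nil)) .nil)) (.node (.node (.node .leaf (nat_lit 16026963686465671) (.br (nat_lit 0) (.cons (.br (nat_lit 3) (.cons (.br (nat_lit 5) (.cons (.rel (nat_lit 4563404928)) .nil)) .nil)) .nil)) .leaf) (nat_lit 16027647043444871) (.br (nat_lit 0) (.cons (.br (nat_lit 3) (.cons (.rel (nat_lit 541097988)) .nil)) .nil)) .leaf) (nat_lit 16032065491050502) (.br (nat_lit 6) (.cons (.br (nat_lit 0) (.cons (.rel (nat_lit 17185113090)) (.cons (.rel (nat_lit 17188261890)) .nil))) .nil)) (.node .leaf (nat_lit 16032065491050631) (.br (nat_lit 0) (.cons (.br (nat_lit 1) (.cons (.rel (nat_lit 41959488)) .nil)) .nil)) .leaf)))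

/-- refutations 151 -/
def e151 : EX := (.node (.node (.node .leaf (nat_lit 16033153191518343) (.br (nat_lit 0) (.cons (.br (nat_lit 1) (.cons (.rel (nat_lit 22024197)) .nil)) .nil)) .leaf) (nat_lit 16033449082888254) (.br (nat_lit 3) (.cons (.br (nat_lit 4) (.cons (.rel (nat_lit 1342701588)) .nil)) .nil)) (.node .leaf (nat_lit 16033449082888327) (.br (nat_lit 1) (.cons (.br (nat_lit 2) (.cons (.rel (nat_lit 83906688)) .nil)) .nil)) .leaf)) (nat_lit 16033450680918151) (.br (nat_lit 2) (.cons (.br (nat_lit 3) (.cons (.rel (nat_lit 402657312)) .nil)) .nil)) (.node (.node .leaf (nat_lit 16033453839229063) (.br (nat_lit 2) (.cons (.br (nat_lit 0) (.cons (.rel (nat_lit 142607424)) (.cons (.rel (nat_lit 75497508)) .nil))) .nil)) .leaf) (nat_lit 16038614292766855) (.br (nat_lit 0) (.cons (.br (nat_lit 2) (.cons (.rel (nat_lit 75497508)) .nil)) .nil)) (.node .leaf (nat_lit 16038768911589511) (.br (nat_lit 0) (.cons (.br (nat_lit 1) (.cons (.rel (nat_lit 22024197)) .nil)) .nil)) .leaf)))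

/-- refutations 153 -/
def e153 : EX := (.node .leaf (nat_lit 16314454250197127) (.br (nat_lit 1) (.cons (.br (nat_lit 2) (.cons (.rel (nat_lit 100667397)) .nil)) .nil)) .leaf)

/-- refutations 154 -/
def e154 : EX := (.node .leaf (nat_lit 16314925739931679) (.br (nat_lit 1) (.cons (.br (nat_lit 2) (.cons (.rel (nat_lit 84951057)) .nil)) .nil)) .leaf)

/-- refutations 155 -/
def e155 : EX := (.node (.node (.node .leaf (nat_lit 16483931130212503) (.br (nat_lit 1) (.cons (.br (nat_lit 3) (.cons (.rel (nat_lit 286392336)) .nil)) .nil)) .leaf) (nat_lit 16483931131801751) (.br (nat_lit 4) (.cons (.br (nat_lit 6) (.cons (.rel (nat_lit 36507223104)) .nil)) .nil)) .leaf) (nat_lit 16483931131802512) (.br (nat_lit 0) (.cons (.br (nat_lit 2) (.cons (.rel (nat_lit 75497508)) .nil)) .nil)) (.node (.node .leaf (nat_lit 16483931165356167) (.br (nat_lit 0) (.cons (.br (nat_lit 1) (.cons (.rel (nat_lit 37752849)) .nil)) .nil)) .leaf) (nat_lit 16484102762721415) (.br (nat_lit 0) (.cons (.br (nat_lit 1) (.cons (.rel (nat_lit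 37752849)) .nil)) .nil)) .leaf))

/-- refutations 156 -/
def e156 : EX := (.node .leaf (nat_lit 16484199003585449) (.br (nat_lit 0) (.cons (.br (nat_lit 1) (.cons (.rel (nat_lit 21004416)) .nil)) .nil)) .leaf)

/-- refutations 157 -/
def e157 : EX := (.node (.node .leaf (nat_lit 16495793663701127) (.br (nat_lit 2) (.cons (.br (nat_lit 4) (.cons (.rel (nat_lit 1141966848)) (.cons (.rel (nat_lit 1141243968)) .nil))) .nil)) .leaf) (nat_lit 16495793663702493) (.br (nat_lit 0) (.cons (.br (nat_lit 1) (.cons (.rel (nat_lit 22021380)) (.cons (.rel (nat_lit 22038528)) .nil))) (.cons (.br (nat_lit 4) (.cons (.rel (nat_lit 1079001120)) (.cons (.rel (nat_lit 1079001120)) .nil))) .nil))) (.node .leaf (nat_lit 16497293114798215) (.br (nat_lit 0) (.cons (.br (nat_lit 2) (.cons (.rel (nat_lit 72385536)) (.cons (.rel (nat_lit 138412056)) .nil))) .nil)) .leaf))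

/-- refutations 158 -/
def e158 : EX := (.node (.node .leaf (nat_lit 22008085823401238) (.br (nat_lit 2) (.cons (.br (nat_lit 3) (.cons (.rel (nat_lit 335548545)) .nil)) .nil)) .leaf) (nat_lit 22014267240206498) (.br (nat_lit 0) (.cons (.br (nat_lit 3) (.cons (.rel (nat_lit 272896068)) .nil)) .nil)) (.node .leaf (nat_lit 22014279580858498) (.br (nat_lit 0) (.cons (.br (nat_lit 2) (.cons (.rel (nat_lit 138580224)) .nil)) .nil)) .leaf))

/-- refutations 159 -/
def e159 : EX := (.node (.node (.node .leaf (nat_lit 22014590793350021) (.br (nat_lit 1) (.cons (.br (nat_lit 6) (.cons (.rel (nat_lit 17196647568)) .nil)) .nil)) .leaf) (nat_lit 22014590794063873) (.br (nat_lit 0) (.cons (.br (nat_lit 1) (.cons (.rel (nat_lit 23069760)) .nil)) .nil)) (.node .leaf (nat_lit 22014745412843655) (.br (nat_lit 0) (.cons (.br (nat_lit 1) (.cons (.rel (nat_lit 21004416)) .nil)) .nil)) .leaf)) (nat_lit 22021033244964999) (.br (nat_lit 1) (.cons (.br (nat_lit 0) (.cons (.rel (nat_lit 22021380)) (.cons (.rel (nat_lit 22021380))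 .nil))) .nil)) (.node (.node .leaf (nat_lit 22021033244965051) (.br (nat_lit 0) (.cons (.br (nat_lit 3) (.cons (.rel (nat_lit 273680385)) .nil)) .nil)) .leaf) (nat_lit 22021239533418631) (.br (nat_lit 2) (.cons (.br (nat_lit 3) (.cons (.rel (nat_lit 336134160)) (.cons (.rel (nat_lit 603987984)) .nil))) .nil)) (.node .leaf (nat_lit 22021239554390151) (.br (nat_lit 1) (.cons (.br (nat_lit 3) (.cons (.rel (nat_lit 286331904)) .nil)) .nil)) .leaf)))

/-- refutations 161 -/
def e161 : EX := (.node .leaf (nat_lit 22190512762866565) (.br (nat_lit 0) (.cons (.br (nat_lit 3) (.cons (.rel (nat_lit 276840456)) .nil)) .nil)) .leaf)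

/-- refutations 162 -/
def e162 : EX := (.node (.node (.node (.node .leaf (nat_lit 22465240061710342) (.br (nat_lit 3) (.cons (.br (nat_lit 4) (.cons (.rel (nat_lit 1342702593)) .nil)) .nil)) .leaf) (nat_lit 22465321950313750) (.br (nat_lit 0) (.cons (.br (nat_lit 2) (.cons (.rel (nat_lit 71305344)) (.cons (.rel (nat_lit 71305344)) .nil))) .nil)) (.node .leaf (nat_lit 22465705364949127) (.br (nat_lit 2) (.cons (.br (nat_lit 5) (.cons (.rel (nat_lit 4363190292)) .nil)) .nil)) .leaf)) (nat_lit 22465708495729915) (.br (nat_lit 1) (.cons (.br (nat_lit 3) (.cons (.rel (nat_lit 285212808)) .nil)) .nil)) (.node (.node .leaf (nat_lit 22465708498358407) (.br (nat_lit 0) (.cons (.br (nat_lit 1) (.cons (.rel (nat_lit 21626880)) .nil)) .nil)) .leaf) (nat_lit 22466521807194247) (.br (nat_lit 3) (.cons (.br (nat_lit 1) (.cons (.rel (nat_lit 286265634)) (.cons (.rel (nat_lit 553664514)) .nil))) .nil)) .leaf)) (nat_lit 22467590234835079) (.br (nat_lit 3) (.cons (.br (nat_lit 4) (.cons (.rel (nat_lit 1342702593)) .nil)) .nil))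 (.node (.node (.node .leaf (nat_lit 22467821621192839) (.br (nat_lit 5) (.cons (.br (nat_lit 6) (.cons (.rel (nat_lit 38654772228)) .nil)) .nil)) .leaf) (nat_lit 22467821622003964) (.br (nat_lit 5) (.cons (.br (nat_lit 6) (.cons (.rel (nat_lit 21474836628)) .nil)) .nil)) (.node .leaf (nat_lit 22467821622004462) (.br (nat_lit 0) (.cons (.br (nat_lit 2) (.cons (.rel (nat_lit 72385536)) .nil)) .nil)) .leaf)) (nat_lit 22467821622564870) (.br (nat_lit 0) (.cons (.br (nat_lit 4) (.cons (.rel (nat_lit 1078468608)) .nil)) .nil)) (.node (.node .leaf (nat_lit 22471888668456187) (.br (nat_lit 0) (.cons (.br (nat_lit 1) (.cons (.rel (nat_lit 41959488)) .nil)) .nil)) .leaf) (nat_lit 22471890207879199) (.br (nat_lit 1) (.cons (.br (nat_lit 2) (.cons (.rel (nat_lit 150999312)) .nil)) .nil)) .leaf)))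

/-- refutations 163 -/
def e163 : EX := (.node (.node (.node (.node (.node .leaf (nat_lit 22471970497497219) (.br (nat_lit 1) (.cons (.br (nat_lit 2) (.cons (.rel (nat_lit 85985361)) .nil)) .nil)) .leaf) (nat_lit 22471970497497240) (.br (nat_lit 3) (.cons (.br (nat_lit 6) (.cons (.rel (nat_lit 17449359360)) .nil)) .nil)) .leaf) (nat_lit 22472099407066363) (.br (nat_lit 3) (.cons (.br (nat_lit 4) (.cons (.rel (nat_lit 2684354625)) .nil)) .nil)) (.node .leaf (nat_lit 22472099407115491) (.br (nat_lit 0) (.cons (.br (nat_lit 1) (.cons (.rel (nat_lit 23069760)) .nil)) .nil)) .leaf)) (nat_lit 22472099408102163) (.br (nat_lit 1) (.cons (.br (nat_lit 3) (.cons (.rel (nat_lit 287310144)) .nil)) .nil)) (.node (.node (.node .leaf (nat_lit 22472099409430663) (.br (nat_lit 3) (.cons (.br (nat_lit 1) (.cons (.br (nat_lit 5) (.cons (.rel (nat_lit 4564455696)) (.cons (.rel (nat_lit 4312940544)) (.cons (.rel (nat_lit 4831854624)) (.cons (.rel (nat_lit 4312793109)) (.cons (.rel (nat_lit 4564485120)) (.cons (.rel (nat_lit 4564485120))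 (.cons (.rel (nat_lit 8858402832)) .nil)))))))) (.cons (.br (nat_lit 6) (.cons (.rel (nat_lit 17197727760)) (.cons (.rel (nat_lit 17449419792)) (.cons (.rel (nat_lit 34393554948)) .nil)))) .nil))) .nil)) .leaf) (nat_lit 22472099409430708) (.br (nat_lit 1) (.cons (.br (nat_lit 0) (.cons (.rel (nat_lit 25247760)) (.cons (.rel (nat_lit 22021380)) (.cons (.rel (nat_lit 25187328)) .nil)))) (.cons (.br (nat_lit 2) (.cons (.rel (nat_lit 101712960)) (.cons (.rel (nat_lit 152059968)) .nil))) .nil))) .leaf) (nat_lit 22472099409431830) (.br (nat_lit 1) (.cons (.br (nat_lit 6) (.cons (.rel (nat_lit 17196647568)) (.cons (.rel (nat_lit 17196908625)) .nil))) .nil)) (.node .leaf (nat_lit 22472099409432039) (.br (nat_lit 0) (.cons (.br (nat_lit 2) (.cons (.rel (nat_lit 142607424)) .nil)) .nil)) .leaf))) (nat_lit 22472190857840775) (.br (nat_lit 0) (.cons (.br (nat_lit 2) (.cons (.rel (nat_lit 75498513)) .nil)) .nil)) (.node (.node (.node (.node .leaf (nat_lit 22472193932265607) (.br (nat_lit 2) (.cons (.br (nat_lit 0) (.cons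 (.rel (nat_lit 75497508)) (.cons (.rel (nat_lit 72482817)) .nil))) .nil)) .leaf) (nat_lit 22472193932266749) (.br (nat_lit 0) (.cons (.br (nat_lit 2) (.cons (.rel (nat_lit 72368388)) .nil)) .nil)) .leaf) (nat_lit 22478202272745607) (.br (nat_lit 2) (.cons (.br (nat_lit 0) (.cons (.rel (nat_lit 75498513)) (.cons (.rel (nat_lit 75498513)) (.cons (.rel (nat_lit 142607424)) .nil)))) .nil)) (.node .leaf (nat_lit 22478203719780487) (.br (nat_lit 0) (.cons (.br (nat_lit 1) (.cons (.rel (nat_lit 41959488)) .nil)) .nil)) .leaf)) (nat_lit 22478203833026695) (.br (nat_lit 0) (.cons (.br (nat_lit 2) (.cons (.rel (nat_lit 71305344)) .nil)) .nil)) (.node (.node .leaf (nat_lit 22478384200681607) (.br (nat_lit 5) (.cons (.br (nat_lit 0) (.cons (.rel (nat_lit 8594196480)) (.cons (.rel (nat_lit 8594146305)) .nil))) .nil)) .leaf) (nat_lit 22478554317457543) (.br (nat_lit 1) (.cons (.br (nat_lit 2) (.cons (.rel (nat_lit 167777361)) (.cons (.rel (nat_lit 83970192)) (.cons (.rel (nat_lit 84940800)) .nil)))) .nil)) (.node .leaf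 (nat_lit 22478554317457560) (.br (nat_lit 1) (.cons (.br (nat_lit 3) (.cons (.rel (nat_lit 301990416)) .nil)) .nil)) .leaf))))

/-- refutations 165 -/
def e165 : EX := (.node .leaf (nat_lit 22538187761526919) (.br (nat_lit 2) (.cons (.br (nat_lit 6) (.cons (.rel (nat_lit 34426930176)) .nil)) .nil)) .leaf)

/-- refutations 166 -/
def e166 : EX := (.node (.node (.node .leaf (nat_lit 22547928746074247) (.br (nat_lit 1) (.cons (.br (nat_lit 5) (.cons (.rel (nat_lit 8606711826)) .nil)) .nil)) .leaf) (nat_lit 22548925178486919) (.br (nat_lit 0) (.cons (.br (nat_lit 1) (.cons (.rel (nat_lit 37752849)) .nil)) .nil)) .leaf) (nat_lit 22548925178724487) (.br (nat_lit 1) (.cons (.br (nat_lit 4) (.cons (.rel (nat_lit 1107296262)) .nil)) .nil)) (.node .leaf (nat_lit 22548993286876011) (.br (nat_lit 2) (.cons (.br (nat_lit 3) (.cons (.rel (nat_lit 402653445)) .nil)) .nil)) .leaf))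

/-- refutations 167 -/
def e167 : EX := (.node .leaf (nat_lit 22553494607102087) (.br (nat_lit 0) (.cons (.br (nat_lit 1) (.cons (.rel (nat_lit 21626880)) .nil)) .nil)) .leaf)

/-- refutations 168 -/
def e168 : EX := (.node .leaf (nat_lit 22555773982230663) (.br (nat_lit 0) (.cons (.br (nat_lit 1) (.cons (.rel (nat_lit 41959488)) .nil)) .nil)) .leaf)

/-- refutations 170 -/
def e170 : EX := (.node (.node (.node (.node .leaf (nat_lit 22641198231969927) (.br (nat_lit 1) (.cons (.br (nat_lit 3) (.cons (.rel (nat_lit 286392336)) .nil)) .nil)) .leaf) (nat_lit 22641198755543090) (.br (nat_lit 2) (.cons (.br (nat_lit 3) (.cons (.rel (nat_lit 335545728)) .nil)) .nil)) .leaf) (nat_lit 22641200375259271) (.br (nat_lit 0) (.cons (.br (nat_lit 2) (.cons (.rel (nat_lit 71305344)) .nil)) .nil)) (.node (.node .leaf (nat_lit 22641201505226265) (.br (nat_lit 0) (.cons (.br (nat_lit 3) (.cons (.rel (nat_lit 272646273)) .nil)) .nil)) .leaf) (nat_lit 22641201506709639) (.br (nat_lit 1) (.cons (.br (nat_lit 6) (.cons (.rel (nat_lit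 17197170696)) .nil)) .nil)) .leaf)) (nat_lit 22641201507006716) (.br (nat_lit 0) (.cons (.br (nat_lit 1) (.cons (.rel (nat_lit 23069760)) (.cons (.rel (nat_lit 22085634)) .nil))) .nil)) (.node (.node (.node .leaf (nat_lit 22641201507722096) (.br (nat_lit 1) (.cons (.br (nat_lit 2) (.cons (.rel (nat_lit 84217920)) .nil)) .nil)) .leaf) (nat_lit 22643517954709639) (.br (nat_lit 0) (.cons (.br (nat_lit 1) (.cons (.rel (nat_lit 37752849)) .nil)) .nil)) .leaf) (nat_lit 22643517954711687) (.br (nat_lit 1) (.cons (.br (nat_lit 6) (.cons (.rel (nat_lit 34393314624)) .nil)) .nil)) (.node .leaf (nat_lit 22643517954713114) (.br (nat_lit 1) (.cons (.br (nat_lit 6) (.cons (.rel (nat_lit 34393554948)) .nil)) .nil)) .leaf)))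

/-- refutations 171 -/
def e171 : EX := (.node (.node (.node (.node (.node .leaf (nat_lit 22647600459548802) (.br (nat_lit 0) (.cons (.br (nat_lit 4) (.cons (.rel (nat_lit 2151694338)) .nil)) .nil)) .leaf) (nat_lit 22647849408258174) (.br (nat_lit 4) (.cons (.br (nat_lit 6) (.cons (.rel (nat_lit 18254135298)) .nil)) .nil)) .leaf) (nat_lit 22647849408258233) (.br (nat_lit 3) (.cons (.br (nat_lit 4) (.cons (.rel (nat_lit 2684354625)) .nil)) .nil)) (.node (.node .leaf (nat_lit 22647849408258303) (.br (nat_lit 1) (.cons (.br (nat_lit 3) (.cons (.rel (nat_lit 285475920)) .nil)) .nil)) .leaf) (nat_lit 22647849408258960) (.br (nat_lit 6) (.cons (.br (nat_lit 0) (.cons (.rel (nat_lit 17185259520)) (.cons (.rel (nat_lit 17185116672)) .nil))) .nil)) .leaf)) (nat_lit 22647864459580899) (.br (nat_lit 1) (.cons (.br (nat_lit 0) (.cons (.rel (nat_lit 41959488)) (.cons (.rel (nat_lit 37750032)) .nil))) .nil)) (.node (.node (.node .leaf (nat_lit 22647864461615239) (.br (nat_lit 1) (.cons (.br (nat_lit 2) (.cons (.rel (nat_lit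 100667397)) .nil)) .nil)) .leaf) (nat_lit 22647901052684319) (.br (nat_lit 0) (.cons (.br (nat_lit 1) (.cons (.rel (nat_lit 37752849)) .nil)) .nil)) .leaf) (nat_lit 22647901052685664) (.br (nat_lit 1) (.cons (.br (nat_lit 4) (.cons (.rel (nat_lit 1091665920)) .nil)) .nil)) (.node (.node .leaf (nat_lit 22647901052685850) (.br (nat_lit 0) (.cons (.br (nat_lit 4) (.cons (.rel (nat_lit 1078198848)) .nil)) .nil)) .leaf) (nat_lit 22647909490862981) (.br (nat_lit 1) (.cons (.br (nat_lit 6) (.cons (.rel (nat_lit 17196647568)) .nil)) .nil)) .leaf))) (nat_lit 22647909491662973) (.br (nat_lit 0) (.cons (.br (nat_lit 1) (.cons (.rel (nat_lit 22024197)) (.cons (.rel (nat_lit 44044560)) .nil))) (.cons (.br (nat_lit 1) (.cons (.rel (nat_lit 21004416)) (.cons (.rel (nat_lit 21004416)) .nil))) .nil))) (.node (.node (.node (.node .leaf (nat_lit 22647909491663029) (.br (nat_lit 6) (.cons (.br (nat_lit 0) (.cons (.rel (nat_lit 17185112085)) (.cons (.rel (nat_lit 17184604161)) .nil))) .nil)) .leaf) (nat_lit 22647909491664110)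 (.br (nat_lit 4) (.cons (.br (nat_lit 0) (.cons (.rel (nat_lit 2156138496)) (.cons (.rel (nat_lit 1082130960)) .nil))) .nil)) .leaf) (nat_lit 22647909491664355) (.br (nat_lit 2) (.cons (.br (nat_lit 3) (.cons (.rel (nat_lit 402669588)) .nil)) .nil)) (.node (.node .leaf (nat_lit 22648064110486416) (.br (nat_lit 0) (.cons (.br (nat_lit 1) (.cons (.rel (nat_lit 21626880)) .nil)) .nil)) .leaf) (nat_lit 22648064260416739) (.br (nat_lit 0) (.cons (.br (nat_lit 2) (.cons (.rel (nat_lit 71305344)) .nil)) .nil)) .leaf)) (nat_lit 22648064261480498) (.br (nat_lit 1) (.cons (.br (nat_lit 3) (.cons (.rel (nat_lit 285736977)) (.cons (.br (nat_lit 2) (.cons (.rel (nat_lit 335545728)) (.cons (.rel (nat_lit 335545728)) .nil))) .nil))) .nil)) (.node (.node (.node .leaf (nat_lit 22648064261480573) (.br (nat_lit 0) (.cons (.br (nat_lit 6) (.cons (.rel (nat_lit 34363998480)) .nil)) .nil)) .leaf) (nat_lit 22648064261480575) (.br (nat_lit 1) (.cons (.br (nat_lit 2) (.cons (.rel (nat_lit 84934914)) .nil)) .nil)) .leaf) (nat_lit 22648064261481359)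 (.br (nat_lit 0) (.cons (.br (nat_lit 3) (.cons (.rel (nat_lit 273686784)) .nil)) .nil)) (.node (.node .leaf (nat_lit 22648064261481385) (.br (nat_lit 0) (.cons (.br (nat_lit 6) (.cons (.rel (nat_lit 17185112085)) .nil)) .nil)) .leaf) (nat_lit 22648064261481723) (.br (nat_lit 1) (.cons (.br (nat_lit 3) (.cons (.rel (nat_lit 570425412)) .nil)) .nil)) .leaf))))

/-- refutations 172 -/
def e172 : EX := (.node (.node (.node (.node .leaf (nat_lit 22649138002588435) (.br (nat_lit 0) (.cons (.br (nat_lit 1) (.cons (.rel (nat_lit 22021380)) .nil)) .nil)) .leaf) (nat_lit 22649138002590633) (.br (nat_lit 3) (.cons (.br (nat_lit 5) (.cons (.rel (nat_lit 4563404928)) .nil)) .nil)) (.node .leaf (nat_lit 22649138002611581) (.br (nat_lit 0) (.cons (.br (nat_lit 4) (.cons (.rel (nat_lit 1078468608)) .nil)) .nil)) .leaf)) (nat_lit 22649138607284886) (.br (nat_lit 1) (.cons (.br (nat_lit 6) (.cons (.rel (nat_lit 17197761792)) .nil)) .nil)) (.node (.node .leaf (nat_lit 22653063603413127) (.br (nat_lit 1) (.cons (.br (nat_lit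 2) (.cons (.rel (nat_lit 84217920)) .nil)) .nil)) .leaf) (nat_lit 22653063603413929) (.br (nat_lit 0) (.cons (.br (nat_lit 1) (.cons (.rel (nat_lit 37815300)) .nil)) .nil)) .leaf)) (nat_lit 22653063603414518) (.br (nat_lit 0) (.cons (.br (nat_lit 2) (.cons (.rel (nat_lit 75531522)) .nil)) .nil)) (.node (.node (.node .leaf (nat_lit 22653178483303937) (.br (nat_lit 1) (.cons (.br (nat_lit 2) (.cons (.rel (nat_lit 84951057)) .nil)) .nil)) .leaf) (nat_lit 22653178485399687) (.br (nat_lit 1) (.cons (.br (nat_lit 2) (.cons (.rel (nat_lit 85034241)) (.cons (.rel (nat_lit 84951057)) .nil))) .nil)) .leaf) (nat_lit 22653178485400182) (.br (nat_lit 0) (.cons (.br (nat_lit 1) (.cons (.rel (nat_lit 41959488)) (.cons (.rel (nat_lit 21004416)) .nil))) .nil)) (.node (.node .leaf (nat_lit 22653178485401078) (.br (nat_lit 1) (.cons (.br (nat_lit 2) (.cons (.rel (nat_lit 84934914)) .nil)) .nil)) .leaf) (nat_lit 22653432968042003) (.br (nat_lit 0) (.cons (.br (nat_lit 1) (.cons (.rel (nat_lit 25187328)) .nil)) .nil)) .leaf)))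

/-- refutations 173 -/
def e173 : EX := (.node (.node (.node (.node .leaf (nat_lit 15962783780468871) (.br (nat_lit 0) (.cons (.br (nat_lit 2) (.cons (.rel (nat_lit 71566401)) .nil)) .nil)) .leaf) (nat_lit 15963632840007133) (.br (nat_lit 2) (.cons (.br (nat_lit 5) (.cons (.rel (nat_lit 4363125024)) .nil)) .nil)) .leaf) (nat_lit 15963632842827911) (.br (nat_lit 0) (.cons (.br (nat_lit 5) (.cons (.rel (nat_lit 4299432000)) .nil)) .nil)) (.node .leaf (nat_lit 15963634911992440) (.br (nat_lit 2) (.cons (.br (nat_lit 5) (.cons (.rel (nat_lit 4362371136)) .nil)) .nil)) .leaf)) (nat_lit 15963634913802872) (.br (nat_lit 2) (.cons (.br (nat_lit 0) (.cons (.rel (nat_lit 72421380)) (.cons (.rel (nat_lit 71305344)) .nil))) .nil)) (.node (.node .leaf (nat_lit 15963634914814087) (.br (nat_lit 2) (.cons (.br (nat_lit 6) (.cons (.rel (nat_lit 17314103298)) .nil)) .nil)) .leaf) (nat_lit 15963634914815453) (.br (nat_lit 0) (.cons (.br (nat_lit 2) (.cons (.rel (nat_lit 72385536)) .nil)) .nil)) (.node .leaf (nat_lit 15968032958503047)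 (.br (nat_lit 0) (.cons (.br (nat_lit 2) (.cons (.rel (nat_lit 142607424)) (.cons (.rel (nat_lit 71327889)) .nil))) .nil)) .leaf)))

/-- refutations 174 -/
def e174 : EX := (.node .leaf (nat_lit 22905078445336029) (.br (nat_lit 0) (.cons (.br (nat_lit 4) (.cons (.rel (nat_lit 1082196228)) .nil)) .nil)) .leaf)

/-- refutations 178 -/
def e178 : EX := (.node .leaf (nat_lit 22987224075723562) (.br (nat_lit 0) (.cons (.br (nat_lit 3) (.cons (.rel (nat_lit 545263944)) .nil)) .nil)) .leaf)

/-- refutations 179 -/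
def e179 : EX := (.node (.node (.node .leaf (nat_lit 22993087658260615) (.br (nat_lit 0) (.cons (.br (nat_lit 1) (.cons (.rel (nat_lit 37815300)) .nil)) .nil)) .leaf) (nat_lit 22993087658260630) (.br (nat_lit 1) (.cons (.br (nat_lit 2) (.cons (.rel (nat_lit 85001232)) .nil)) .nil)) .leaf) (nat_lit 22993216506493078) (.br (nat_lit 1) (.cons (.br (nat_lit 2) (.cons (.rel (nat_lit 85001232)) .nil)) .nil)) (.node (.node .leaf (nat_lit 22993474016573575) (.br (nat_lit 0) (.cons (.br (nat_lit 2) (.cons (.rel (nat_lit 71565396)) .nil)) .nil)) .leaf) (nat_lit 22994361577437816) (.br (nat_lit 0) (.cons (.br (nat_lit 1) (.cons (.rel (nat_lit 21004416)) .nil)) .nil)) .leaf))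

/-- refutations 180 -/
def e180 : EX := (.node (.node .leaf (nat_lit 22999707113027719) (.br (nat_lit 0) (.cons (.br (nat_lit 2) (.cons (.rel (nat_lit 75497508)) .nil)) .nil)) .leaf) (nat_lit 23000509361748103) (.br (nat_lit 1) (.cons (.br (nat_lit 3) (.cons (.rel (nat_lit 570425412)) .nil)) .nil)) .leaf)

/-- refutations 181 -/
def e181 : EX := (.node .leaf (nat_lit 23005972560148615) (.br (nat_lit 2) (.cons (.br (nat_lit 1) (.cons (.rel (nat_lit 83906688)) (.cons (.rel (nat_lit 84940800)) .nil))) .nil)) .leaf)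

/-- refutations 182 -/
def e182 : EX := (.node (.node .leaf (nat_lit 22872250945982599) (.br (nat_lit 0) (.cons (.br (nat_lit 4) (.cons (.rel (nat_lit 1078468608)) .nil)) .nil)) .leaf) (nat_lit 22883251846413588) (.br (nat_lit 0) (.cons (.br (nat_lit 1) (.cons (.rel (nat_lit 22021380)) .nil)) .nil)) (.node .leaf (nat_lit 22883256731172116) (.br (nat_lit 1) (.cons (.br (nat_lit 2) (.cons (.rel (nat_lit 85001232)) .nil)) .nil)) .leaf))

/-- refutations 183 -/
def e183 : EX := (.node (.node (.node (.node .leaf (nat_lit 24206857898500231) (.br (nat_lit 2) (.cons (.br (nat_lit 0) (.cons (.rel (nat_lit 71827458)) (.cons (.rel (nat_lit 75498513)) .nil))) .nil)) .leaf) (nat_lit 24206902707878073) (.br (nat_lit 0) (.cons (.br (nat_lit 1) (.cons (.rel (nat_lit 41959488)) .nil)) .nil)) (.node .leaf (nat_lit 24206903314423943) (.br (nat_lit 2) (.cons (.br (nat_lit 3) (.cons (.rel (nat_lit 336593928)) .nil)) .nil)) .leaf)) (nat_lit 24207077633892534) (.br (nat_lit 1) (.cons (.br (nat_lit 4) (.cons (.rel (nat_lit 2164262928))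 .nil)) .nil)) (.node (.node .leaf (nat_lit 24207077633943707) (.br (nat_lit 4) (.cons (.br (nat_lit 1) (.cons (.rel (nat_lit 1091576064)) (.cons (.rel (nat_lit 1107297312)) .nil))) .nil)) .leaf) (nat_lit 24207169732419719) (.br (nat_lit 0) (.cons (.br (nat_lit 4) (.cons (.rel (nat_lit 2155876437)) .nil)) .nil)) (.node .leaf (nat_lit 24207171098288379) (.br (nat_lit 1) (.cons (.br (nat_lit 2) (.cons (.rel (nat_lit 84164928)) .nil)) .nil)) .leaf))) (nat_lit 24207172123172999) (.br (nat_lit 0) (.cons (.br (nat_lit 2) (.cons (.rel (nat_lit 142680144)) .nil)) .nil)) (.node (.node (.node .leaf (nat_lit 24207172123173015) (.br (nat_lit 0) (.cons (.br (nat_lit 1) (.cons (.rel (nat_lit 22021380)) .nil)) .nil)) .leaf) (nat_lit 24207281401569407) (.br (nat_lit 0) (.cons (.br (nat_lit 1) (.cons (.rel (nat_lit 21626880)) .nil)) .nil)) (.node .leaf (nat_lit 24207283789803655) (.br (nat_lit 1) (.cons (.br (nat_lit 4) (.cons (.rel (nat_lit 1107297312)) .nil)) .nil)) .leaf)) (nat_lit 24207324355436679) (.br (nat_lit 0) (.cons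 (.br (nat_lit 1) (.cons (.rel (nat_lit 22024197)) (.cons (.rel (nat_lit 21315648)) .nil))) .nil)) (.node (.node .leaf (nat_lit 24207335583588532) (.br (nat_lit 0) (.cons (.br (nat_lit 1) (.cons (.rel (nat_lit 42270720)) .nil)) .nil)) .leaf) (nat_lit 24208440308736135) (.br (nat_lit 2) (.cons (.br (nat_lit 3) (.cons (.rel (nat_lit 671371281)) .nil)) .nil)) (.node .leaf (nat_lit 24208443433492615) (.br (nat_lit 2) (.cons (.br (nat_lit 3) (.cons (.rel (nat_lit 336678912)) .nil)) .nil)) .leaf))))

/-- refutations 184 -/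
def e184 : EX := (.node (.node (.node (.node .leaf (nat_lit 24213517694083207) (.br (nat_lit 0) (.cons (.br (nat_lit 4) (.cons (.rel (nat_lit 1079001120)) .nil)) .nil)) .leaf) (nat_lit 24214370198954109) (.br (nat_lit 0) (.cons (.br (nat_lit 2) (.cons (.rel (nat_lit 71827458)) .nil)) .nil)) .leaf) (nat_lit 24214839807511215) (.br (nat_lit 0) (.cons (.br (nat_lit 1) (.cons (.rel (nat_lit 21004416)) .nil)) .nil)) (.node (.node .leaf (nat_lit 24214842934763655) (.br (nat_lit 2) (.cons (.br (nat_lit 5) (.cons (.rel (nat_lit 4362682368)) .nil)) .nil)) .leaf) (nat_lit 24214842934764407) (.br (nat_lit 0) (.cons (.br (nat_lit 1) (.cons (.rel (nat_lit 37750032)) .nil)) .nil)) .leaf)) (nat_lit 24218923153694855) (.br (nat_lit 0) (.cons (.br (nat_lit 1) (.cons (.rel (nat_lit 21004416)) .nil)) .nil)) (.node (.node (.node .leaf (nat_lit 24218979827130503) (.br (nat_lit 0) (.cons (.br (nat_lit 1) (.cons (.rel (nat_lit 22038528)) .nil)) .nil)) .leaf) (nat_lit 24218980263338119) (.br (nat_lit 0) (.cons (.br (nat_lit 1) (.cons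 (.rel (nat_lit 21054594)) .nil)) .nil)) .leaf) (nat_lit 24218983283236999) (.br (nat_lit 1) (.cons (.br (nat_lit 3) (.cons (.rel (nat_lit 285736977)) (.cons (.rel (nat_lit 286278912)) .nil))) .nil)) (.node .leaf (nat_lit 24219833395143931) (.br (nat_lit 0) (.cons (.br (nat_lit 1) (.cons (.rel (nat_lit 20972178)) .nil)) .nil)) .leaf)))

/-- refutations 185 -/
def e185 : EX := (.node (.node (.node (.node (.node .leaf (nat_lit 24224491770467061) (.br (nat_lit 2) (.cons (.br (nat_lit 0) (.cons (.rel (nat_lit 73416768)) (.cons (.rel (nat_lit 72482817)) .nil))) .nil)) .leaf) (nat_lit 24224492501540999) (.br (nat_lit 4) (.cons (.br (nat_lit 5) (.cons (.rel (nat_lit 6442451988)) .nil)) .nil)) (.node .leaf (nat_lit 24224494977920386) (.br (nat_lit 1) (.cons (.br (nat_lit 2) (.cons (.rel (nat_lit 84940800)) .nil)) .nil)) .leaf)) (nat_lit 24224494979109621) (.br (nat_lit 1) (.cons (.br (nat_lit 2) (.cons (.rel (nat_lit 84940800)) .nil)) .nil)) (.node (.node .leaf (nat_lit 24224495413781987) (.br (nat_lit 0) (.cons (.br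 (nat_lit 3) (.cons (.rel (nat_lit 272696448)) .nil)) .nil)) .leaf) (nat_lit 24224495413873540) (.br (nat_lit 0) (.cons (.br (nat_lit 3) (.cons (.rel (nat_lit 541069569)) .nil)) .nil)) .leaf)) (nat_lit 24224495415316615) (.br (nat_lit 1) (.cons (.br (nat_lit 4) (.cons (.rel (nat_lit 1107296262)) (.cons (.rel (nat_lit 1091576064)) (.cons (.rel (nat_lit 1107296262)) (.cons (.br (nat_lit 0) (.cons (.rel (nat_lit 1078198848)) (.cons (.rel (nat_lit 22024197)) (.cons (.rel (nat_lit 2151683076)) (.cons (.rel (nat_lit 1094718465)) .nil))))) .nil))))) (.cons (.br (nat_lit 0) (.cons (.rel (nat_lit 22024197)) (.cons (.rel (nat_lit 22085634)) (.cons (.rel (nat_lit 21241938)) (.cons (.rel (nat_lit 22024197)) .nil))))) .nil))) (.node (.node (.node .leaf (nat_lit 24224495416623254) (.br (nat_lit 0) (.cons (.br (nat_lit 4) (.cons (.rel (nat_lit 1079001120)) .nil)) .nil)) .leaf) (nat_lit 24224495416694919) (.br (nat_lit 2) (.cons (.br (nat_lit 3) (.cons (.rel (nat_lit 335548545)) .nil)) .nil)) (.node .leaf (nat_lit 24224495634741435)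 (.br (nat_lit 0) (.cons (.br (nat_lit 3) (.cons (.rel (nat_lit 272896068)) (.cons (.rel (nat_lit 272696448)) (.cons (.rel (nat_lit 273776640)) .nil)))) (.cons (.br (nat_lit 1) (.cons (.rel (nat_lit 22021380)) (.cons (.rel (nat_lit 37750032)) .nil))) .nil))) .leaf)) (nat_lit 24224497118026629) (.br (nat_lit 0) (.cons (.br (nat_lit 1) (.cons (.rel (nat_lit 37752849)) .nil)) .nil)) (.node (.node .leaf (nat_lit 24224498024173703) (.br (nat_lit 1) (.cons (.br (nat_lit 4) (.cons (.rel (nat_lit 1107296262)) (.cons (.rel (nat_lit 1091568660)) (.cons (.rel (nat_lit 1091576064)) (.cons (.rel (nat_lit 1107369984)) .nil))))) (.cons (.br (nat_lit 2) (.cons (.rel (nat_lit 84934914)) (.cons (.rel (nat_lit 84018312)) .nil))) .nil))) .leaf) (nat_lit 24224498024174325) (.br (nat_lit 0) (.cons (.br (nat_lit 2) (.cons (.rel (nat_lit 71827458)) .nil)) .nil)) .leaf))) (nat_lit 24224498249426331) (.br (nat_lit 0) (.cons (.br (nat_lit 1) (.cons (.rel (nat_lit 25231617)) .nil)) .nil)) (.node (.node (.node (.node .leaf (nat_lit 24224498249732231)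 (.br (nat_lit 0) (.cons (.br (nat_lit 4) (.cons (.rel (nat_lit 1078988808)) .nil)) .nil)) .leaf) (nat_lit 24224498251982983) (.br (nat_lit 0) (.cons (.br (nat_lit 5) (.cons (.rel (nat_lit 8598323520)) .nil)) .nil)) (.node .leaf (nat_lit 24224498252044423) (.br (nat_lit 0) (.cons (.br (nat_lit 1) (.cons (.rel (nat_lit 42270720)) .nil)) .nil)) .leaf)) (nat_lit 24224753113354375) (.br (nat_lit 1) (.cons (.br (nat_lit 2) (.cons (.rel (nat_lit 151028736)) .nil)) .nil)) (.node (.node .leaf (nat_lit 24224753237741057) (.br (nat_lit 0) (.cons (.br (nat_lit 1) (.cons (.rel (nat_lit 21504009)) .nil)) .nil)) .leaf) (nat_lit 24224753239183495) (.br (nat_lit 1) (.cons (.br (nat_lit 2) (.cons (.rel (nat_lit 151028736)) .nil)) .nil)) .leaf)) (nat_lit 24224753239214837) (.br (nat_lit 2) (.cons (.br (nat_lit 4) (.cons (.rel (nat_lit 2281979904)) .nil)) .nil)) (.node (.node (.node .leaf (nat_lit 24224753240494215) (.br (nat_lit 1) (.cons (.br (nat_lit 2) (.cons (.rel (nat_lit 150999312)) .nil)) .nil)) .leaf) (nat_lit 24224753240561799)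 (.br (nat_lit 2) (.cons (.br (nat_lit 1) (.cons (.rel (nat_lit 151028736)) (.cons (.rel (nat_lit 83906688)) .nil))) .nil)) .leaf) (nat_lit 24224916538656221) (.br (nat_lit 2) (.cons (.br (nat_lit 4) (.cons (.rel (nat_lit 2214596610)) .nil)) .nil)) (.node (.node .leaf (nat_lit 24224916541481095) (.br (nat_lit 0) (.cons (.br (nat_lit 3) (.cons (.rel (nat_lit 278134800)) .nil)) .nil)) .leaf) (nat_lit 24224925121554567) (.br (nat_lit 0) (.cons (.br (nat_lit 1) (.cons (.rel (nat_lit 41959488)) .nil)) .nil)) .leaf))))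

/-- refutations 186 -/
def e186 : EX := (.node (.node .leaf (nat_lit 24230029942050951) (.br (nat_lit 0) (.cons (.br (nat_lit 1) (.cons (.rel (nat_lit 37750032)) .nil)) .nil)) .leaf) (nat_lit 24230888935510773) (.br (nat_lit 0) (.cons (.br (nat_lit 1) (.cons (.rel (nat_lit 21315648)) .nil)) .nil)) .leaf)

/-- refutations 187 -/
def e187 : EX := (.node .leaf (nat_lit 24235450189589890) (.br (nat_lit 0) (.cons (.br (nat_lit 1) (.cons (.rel (nat_lit 41959488)) .nil)) .nil)) .leaf)

/-- refutations 191 -/
def e191 : EX := (.node (.node (.node .leaf (nat_lit 24382825299431609) (.br (nat_lit 0) (.cons (.br (nat_lit 1) (.cons (.rel (nat_lit 37752849)) .nil)) .nil)) .leaf) (nat_lit 24382827734787549) (.br (nat_lit 1) (.cons (.br (nat_lit 2) (.cons (.rel (nat_lit 83906688)) (.cons (.rel (nat_lit 84164928)) .nil))) .nil)) .leaf) (nat_lit 24382827737680007) (.br (nat_lit 0) (.cons (.br (nat_lit 1) (.cons (.rel (nat_lit 41959488)) .nil)) .nil)) (.node .leaf (nat_lit 24388672304767111) (.br (nat_lit 0) (.cons (.br (nat_lit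 3) (.cons (.rel (nat_lit 276828180)) .nil)) .nil)) .leaf))

/-- refutations 193 -/
def e193 : EX := (.node (.node (.node (.node (.node (.node .leaf (nat_lit 24646656530835588) (.br (nat_lit 6) (.cons (.br (nat_lit 1) (.cons (.rel (nat_lit 17197170696)) (.cons (.rel (nat_lit 34376583168)) .nil))) .nil)) .leaf) (nat_lit 24646656530835636) (.br (nat_lit 1) (.cons (.br (nat_lit 6) (.cons (.rel (nat_lit 34376519712)) .nil)) .nil)) .leaf) (nat_lit 24646656530836736) (.br (nat_lit 0) (.cons (.br (nat_lit 3) (.cons (.rel (nat_lit 273679380)) .nil)) .nil)) (.node .leaf (nat_lit 24646704863732963) (.br (nat_lit 1) (.cons (.br (nat_lit 6) (.cons (.rel (nat_lit 17197761792)) .nil)) .nil)) .leaf)) (nat_lit 24646704863733012) (.br (nat_lit 0) (.cons (.br (nat_lit 4) (.cons (.rel (nat_lit 1078468608)) .nil)) .nil)) (.node (.node .leaf (nat_lit 24646704864983175) (.br (nat_lit 0) (.cons (.br (nat_lit 1) (.cons (.rel (nat_lit 42270720)) .nil)) .nil)) .leaf) (nat_lit 24646705499334791) (.br (nat_lit 4) (.cons (.br (nat_lit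 6) (.cons (.rel (nat_lit 18254790657)) .nil)) .nil)) (.node .leaf (nat_lit 24646705499336032) (.br (nat_lit 0) (.cons (.br (nat_lit 4) (.cons (.rel (nat_lit 1082130960)) .nil)) .nil)) .leaf))) (nat_lit 24646707569059092) (.br (nat_lit 1) (.cons (.br (nat_lit 2) (.cons (.rel (nat_lit 100728834)) .nil)) .nil)) (.node (.node (.node .leaf (nat_lit 24646708070443143) (.br (nat_lit 0) (.cons (.br (nat_lit 2) (.cons (.rel (nat_lit 138436608)) (.cons (.rel (nat_lit 71827458)) .nil))) .nil)) .leaf) (nat_lit 24646708070453378) (.br (nat_lit 0) (.cons (.br (nat_lit 4) (.cons (.rel (nat_lit 2151678240)) .nil)) .nil)) (.node .leaf (nat_lit 24646708092734967) (.br (nat_lit 0) (.cons (.br (nat_lit 1) (.cons (.rel (nat_lit 25231617)) .nil)) .nil)) .leaf)) (nat_lit 24646708094126215) (.br (nat_lit 0) (.cons (.br (nat_lit 6) (.cons (.rel (nat_lit 17184088449)) .nil)) .nil)) (.node (.node .leaf (nat_lit 24646708094341255) (.br (nat_lit 0) (.cons (.br (nat_lit 4) (.cons (.rel (nat_lit 1078468608)) .nil)) .nil)) .leaf) (nat_lit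 24646708094341877) (.br (nat_lit 4) (.cons (.br (nat_lit 0) (.cons (.rel (nat_lit 2151683076)) (.cons (.rel (nat_lit 1078198848)) .nil))) .nil)) (.node .leaf (nat_lit 24646708094597255) (.br (nat_lit 2) (.cons (.br (nat_lit 5) (.cons (.rel (nat_lit 4363141122)) .nil)) .nil)) .leaf)))) (nat_lit 24646708094597752) (.br (nat_lit 0) (.cons (.br (nat_lit 5) (.cons (.rel (nat_lit 8594129157)) .nil)) .nil)) (.node (.node (.node (.node .leaf (nat_lit 24646708095608958) (.br (nat_lit 0) (.cons (.br (nat_lit 6) (.cons (.rel (nat_lit 17184067716)) .nil)) .nil)) .leaf) (nat_lit 24646708095608967) (.br (nat_lit 2) (.cons (.br (nat_lit 6) (.cons (.rel (nat_lit 34426880001)) (.cons (.rel (nat_lit 34426880001)) (.cons (.rel (nat_lit 17246978433)) (.cons (.rel (nat_lit 17247506433)) .nil))))) (.cons (.br (nat_lit 6) (.cons (.br (nat_lit 1) (.cons (.rel (nat_lit 17263759872)) (.cons (.rel (nat_lit 84940800)) (.cons (.br (nat_lit 0) (.cons (.rel (nat_lit 88089600)) (.cons (.rel (nat_lit 75628800)) (.cons (.rel (nat_lit 17200840737))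 (.cons (.rel (nat_lit 142607424)) (.cons (.rel (nat_lit 17185116672)) .nil)))))) (.cons (.rel (nat_lit 100728834)) (.cons (.rel (nat_lit 17197727760)) (.cons (.rel (nat_lit 34376519712)) (.cons (.rel (nat_lit 17197711617)) .nil)))))))) (.cons (.rel (nat_lit 17248028688)) (.cons (.br (nat_lit 4) (.cons (.rel (nat_lit 1208090628)) (.cons (.rel (nat_lit 2214593793)) (.cons (.rel (nat_lit 36507223104)) (.cons (.rel (nat_lit 1141899525)) (.cons (.rel (nat_lit 1141915668)) (.cons (.rel (nat_lit 18253874241)) (.cons (.rel (nat_lit 2281979904)) (.cons (.rel (nat_lit 1141966848)) (.cons (.rel (nat_lit 35433545760)) (.cons (.rel (nat_lit 1141899525)) .nil))))))))))) (.cons (.rel (nat_lit 17246978433)) .nil))))) .nil))) (.node .leaf (nat_lit 24646708095609083) (.br (nat_lit 2) (.cons (.br (nat_lit 6) (.cons (.rel (nat_lit 17246978433)) .nil)) .nil)) .leaf)) (nat_lit 24646708095609589) (.br (nat_lit 6) (.cons (.br (nat_lit 1) (.cons (.rel (nat_lit 17197711617)) (.cons (.rel (nat_lit 34377564225)) .nil))) .nil)) (.node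 (.node .leaf (nat_lit 24646708095610133) (.br (nat_lit 0) (.cons (.br (nat_lit 1) (.cons (.rel (nat_lit 22024197)) (.cons (.rel (nat_lit 23330817)) .nil))) .nil)) .leaf) (nat_lit 24646708095610333) (.br (nat_lit 0) (.cons (.br (nat_lit 5) (.cons (.rel (nat_lit 4300210440)) (.cons (.rel (nat_lit 4300210440)) (.cons (.rel (nat_lit 4299432000)) (.cons (.rel (nat_lit 4299432000)) (.cons (.rel (nat_lit 8594196480)) .nil)))))) (.cons (.br (nat_lit 1) (.cons (.rel (nat_lit 23069760)) (.cons (.rel (nat_lit 22024197)) (.cons (.rel (nat_lit 37752849)) .nil)))) .nil))) (.node .leaf (nat_lit 24646708095918142) (.br (nat_lit 3) (.cons (.br (nat_lit 6) (.cons (.rel (nat_lit 17449359360)) .nil)) .nil)) .leaf))) (nat_lit 24646710714543340) (.br (nat_lit 4) (.cons (.br (nat_lit 5) (.cons (.rel (nat_lit 5369823744)) .nil)) .nil)) (.node (.node (.node .leaf (nat_lit 24646710714786672) (.br (nat_lit 0) (.cons (.br (nat_lit 2) (.cons (.rel (nat_lit 142868481)) .nil)) .nil)) .leaf) (nat_lit 24646710715554672) (.br (nat_lit 1) (.cons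 (.br (nat_lit 2) (.cons (.rel (nat_lit 84476160)) .nil)) .nil)) (.node .leaf (nat_lit 24646710717010607) (.br (nat_lit 1) (.cons (.br (nat_lit 2) (.cons (.rel (nat_lit 83906688)) .nil)) .nil)) .leaf)) (nat_lit 24646710717048967) (.br (nat_lit 0) (.cons (.br (nat_lit 4) (.cons (.rel (nat_lit 1078468608)) (.cons (.rel (nat_lit 1078988808)) (.cons (.rel (nat_lit 2156138496)) (.cons (.rel (nat_lit 1078468608)) .nil))))) (.cons (.br (nat_lit 6) (.cons (.rel (nat_lit 34363940865)) (.cons (.rel (nat_lit 17184654336)) (.cons (.rel (nat_lit 17184129153)) .nil)))) (.cons (.br (nat_lit 3) (.cons (.rel (nat_lit 276829185)) (.cons (.rel (nat_lit 541066752)) (.cons (.br (nat_lit 4) (.cons (.br (nat_lit 6) (.cons (.br (nat_lit 5) (.cons (.rel (nat_lit 8594129157)) (.cons (.rel (nat_lit 4300275744)) (.cons (.rel (nat_lit 8598323520)) (.cons (.rel (nat_lit 8594129157)) (.cons (.rel (nat_lit 38654709777)) .nil)))))) (.cons (.rel (nat_lit 17188258068)) (.cons (.rel (nat_lit 36507223104)) .nil)))) (.cons (.rel (nat_lit 1078984977))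 (.cons (.rel (nat_lit 2156138496)) (.cons (.rel (nat_lit 2151694338)) .nil))))) .nil)))) .nil)))) (.node (.node .leaf (nat_lit 24646916875479175) (.br (nat_lit 1) (.cons (.br (nat_lit 3) (.cons (.rel (nat_lit 285212808)) (.cons (.rel (nat_lit 553664514)) .nil))) (.cons (.br (nat_lit 4) (.cons (.rel (nat_lit 1090535553)) (.cons (.rel (nat_lit 1091060736)) .nil))) .nil))) .leaf) (nat_lit 24646961897138326) (.br (nat_lit 0) (.cons (.br (nat_lit 3) (.cons (.rel (nat_lit 276828180)) .nil)) .nil)) (.node .leaf (nat_lit 24648905969625223) (.br (nat_lit 1) (.cons (.br (nat_lit 3) (.cons (.rel (nat_lit 285212808)) .nil)) .nil)) .leaf)))))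

/-- refutations 194 -/
def e194 : EX := (.node (.node (.node (.node (.node .leaf (nat_lit 24649060997230045) (.br (nat_lit 0) (.cons (.br (nat_lit 3) (.cons (.rel (nat_lit 273686784)) .nil)) .nil)) .leaf) (nat_lit 24649060997916807) (.br (nat_lit 0) (.cons (.br (nat_lit 2) (.cons (.rel (nat_lit 72368388)) (.cons (.rel (nat_lit 142606422)) .nil))) .nil)) .leaf) (nat_lit 24649060999489573) (.br (nat_lit 6) (.cons (.br (nat_lit 0) (.cons (.rel (nat_lit 17188275216)) (.cons (.rel (nat_lit 17185116672)) (.cons (.rel (nat_lit 17184129153)) .nil)))) .nil)) (.node (.node .leaf (nat_lit 24649060999489791) (.br (nat_lit 0) (.cons (.br (nat_lit 4) (.cons (.rel (nat_lit 1079050245)) (.cons (.rel (nat_lit 1082130960)) .nil))) .nil)) .leaf) (nat_lit 24649060999491036) (.br (nat_lit 0) (.cons (.br (nat_lit 1) (.cons (.rel (nat_lit 22038528)) .nil)) .nil)) .leaf)) (nat_lit 24649060999491037) (.br (nat_lit 0) (.cons (.br (nat_lit 6) (.cons (.rel (nat_lit 17184129153)) (.cons (.rel (nat_lit 17184129153)) .nil))) (.cons (.br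 (nat_lit 6) (.cons (.rel (nat_lit 17184343104)) (.cons (.rel (nat_lit 17185112085)) .nil))) .nil))) (.node (.node (.node .leaf (nat_lit 24649241476196487) (.br (nat_lit 1) (.cons (.br (nat_lit 4) (.cons (.rel (nat_lit 1091568660)) .nil)) .nil)) .leaf) (nat_lit 24652025263854325) (.br (nat_lit 0) (.cons (.br (nat_lit 4) (.cons (.rel (nat_lit 2151683076)) (.cons (.rel (nat_lit 2151694338)) .nil))) .nil)) .leaf) (nat_lit 24652025265121415) (.br (nat_lit 6) (.cons (.br (nat_lit 0) (.cons (.rel (nat_lit 17184067716)) (.cons (.rel (nat_lit 17185113090)) .nil))) .nil)) (.node (.node .leaf (nat_lit 24652036455524487) (.br (nat_lit 4) (.cons (.br (nat_lit 0) (.cons (.rel (nat_lit 1078984977)) (.cons (.rel (nat_lit 2156138496)) .nil))) .nil)) .leaf) (nat_lit 24652036455524503) (.br (nat_lit 1) (.cons (.br (nat_lit 3) (.cons (.rel (nat_lit 553648416)) .nil)) .nil)) .leaf))) (nat_lit 24652036455524528) (.br (nat_lit 1) (.cons (.br (nat_lit 3) (.cons (.rel (nat_lit 286278912)) (.cons (.rel (nat_lit 286278912)) .nil)))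 .nil)) (.node (.node (.node (.node .leaf (nat_lit 24653525357947015) (.br (nat_lit 0) (.cons (.br (nat_lit 1) (.cons (.rel (nat_lit 21004416)) .nil)) .nil)) .leaf) (nat_lit 24657494457182343) (.br (nat_lit 3) (.cons (.br (nat_lit 0) (.cons (.rel (nat_lit 276829185)) (.cons (.rel (nat_lit 276829185)) (.cons (.rel (nat_lit 273680385)) .nil)))) (.cons (.br (nat_lit 4) (.cons (.rel (nat_lit 2684641296)) (.cons (.rel (nat_lit 1342701588)) (.cons (.rel (nat_lit 1342441536)) (.cons (.rel (nat_lit 1342177410)) .nil))))) .nil))) .leaf) (nat_lit 24657494457182845) (.br (nat_lit 1) (.cons (.br (nat_lit 5) (.cons (.rel (nat_lit 4311748740)) .nil)) .nil)) (.node (.node .leaf (nat_lit 24657494457182995) (.br (nat_lit 1) (.cons (.br (nat_lit 3) (.cons (.rel (nat_lit 301990416)) .nil)) .nil)) .leaf) (nat_lit 24657494457183584) (.br (nat_lit 4) (.cons (.br (nat_lit 0) (.cons (.rel (nat_lit 1078468608)) (.cons (.rel (nat_lit 1082130960)) (.cons (.rel (nat_lit 2151678240)) (.cons (.rel (nat_lit 1082130960)) .nil))))) (.cons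 (.br (nat_lit 2) (.cons (.rel (nat_lit 1208025360)) (.cons (.rel (nat_lit 1140932736)) (.cons (.rel (nat_lit 2214596610)) (.cons (.rel (nat_lit 1141903392)) .nil))))) .nil))) .leaf)) (nat_lit 24658570057083015) (.br (nat_lit 0) (.cons (.br (nat_lit 2) (.cons (.rel (nat_lit 72385536)) .nil)) .nil)) (.node (.node (.node .leaf (nat_lit 24658572864444551) (.br (nat_lit 5) (.cons (.br (nat_lit 6) (.cons (.rel (nat_lit 38654722053)) .nil)) .nil)) .leaf) (nat_lit 24658572867266695) (.br (nat_lit 0) (.cons (.br (nat_lit 1) (.cons (.rel (nat_lit 37752849)) .nil)) .nil)) .leaf) (nat_lit 24659855955192458) (.br (nat_lit 0) (.cons (.br (nat_lit 1) (.cons (.rel (nat_lit 22038528)) .nil)) .nil)) (.node .leaf (nat_lit 24659855955192688) (.br (nat_lit 1) (.cons (.br (nat_lit 3) (.cons (.rel (nat_lit 302055684)) .nil)) .nil)) .leaf))))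

/-- refutations 195 -/
def e195 : EX := (.node (.node (.node (.node .leaf (nat_lit 24664297045585147) (.br (nat_lit 0) (.cons (.br (nat_lit 2) (.cons (.rel (nat_lit 71565396)) .nil)) .nil)) .leaf) (nat_lit 24664297045585172) (.br (nat_lit 0) (.cons (.br (nat_lit 1) (.cons (.rel (nat_lit 42209286)) .nil)) .nil)) (.node .leaf (nat_lit 24664300274841735) (.br (nat_lit 0) (.cons (.br (nat_lit 4) (.cons (.rel (nat_lit 2151694338)) .nil)) .nil)) .leaf)) (nat_lit 24664300274889486) (.br (nat_lit 0) (.cons (.br (nat_lit 1) (.cons (.rel (nat_lit 37750032)) .nil)) .nil)) (.node (.node .leaf (nat_lit 24664300274890080) (.br (nat_lit 3) (.cons (.br (nat_lit 4) (.cons (.rel (nat_lit 1610679300)) .nil)) .nil)) .leaf) (nat_lit 24664300276181143) (.br (nat_lit 0) (.cons (.br (nat_lit 1) (.cons (.rel (nat_lit 23069760)) .nil)) .nil)) (.node .leaf (nat_lit 24664300277152030) (.br (nat_lit 1) (.cons (.br (nat_lit 5) (.cons (.rel (nat_lit 4312006980)) .nil)) .nil)) .leaf))) (nat_lit 24664300277500064) (.br (nat_lit 0) (.cons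 (.br (nat_lit 2) (.cons (.rel (nat_lit 75498513)) .nil)) .nil)) (.node (.node (.node .leaf (nat_lit 24664300277500705) (.br (nat_lit 1) (.cons (.br (nat_lit 3) (.cons (.rel (nat_lit 285212808)) (.cons (.rel (nat_lit 285212808)) .nil))) .nil)) .leaf) (nat_lit 24664300296836573) (.br (nat_lit 0) (.cons (.br (nat_lit 1) (.cons (.rel (nat_lit 21315648)) .nil)) .nil)) (.node .leaf (nat_lit 24664300297195655) (.br (nat_lit 0) (.cons (.br (nat_lit 3) (.cons (.rel (nat_lit 276889617)) .nil)) .nil)) .leaf)) (nat_lit 24664566565496967) (.br (nat_lit 1) (.cons (.br (nat_lit 3) (.cons (.rel (nat_lit 553664514)) .nil)) .nil)) (.node (.node .leaf (nat_lit 24664729543542969) (.br (nat_lit 0) (.cons (.br (nat_lit 1) (.cons (.rel (nat_lit 21626880)) .nil)) .nil)) .leaf) (nat_lit 24664729668014240) (.br (nat_lit 1) (.cons (.br (nat_lit 2) (.cons (.rel (nat_lit 84476160)) .nil)) .nil)) (.node .leaf (nat_lit 24664729669372054) (.br (nat_lit 1) (.cons (.br (nat_lit 2) (.cons (.rel (nat_lit 100664580)) .nil)) .nil)) .leaf))))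

/-- refutations 197 -/
def e197 : EX := (.node (.node .leaf (nat_lit 24675289321960826) (.br (nat_lit 0) (.cons (.br (nat_lit 3) (.cons (.rel (nat_lit 545260113)) .nil)) .nil)) .leaf) (nat_lit 24677649055199392) (.br (nat_lit 0) (.cons (.br (nat_lit 4) (.cons (.rel (nat_lit 1079001120)) .nil)) .nil)) .leaf)

/-- refutations 198 -/
def e198 : EX := (.node (.node (.node .leaf (nat_lit 24734843341115527) (.br (nat_lit 1) (.cons (.br (nat_lit 4) (.cons (.rel (nat_lit 1091576064)) (.cons (.rel (nat_lit 1107316992)) .nil))) .nil)) .leaf) (nat_lit 24734926488998023) (.br (nat_lit 0) (.cons (.br (nat_lit 1) (.cons (.rel (nat_lit 37750032)) .nil)) .nil)) .leaf) (nat_lit 24734928208662663) (.br (nat_lit 1) (.cons (.br (nat_lit 3) (.cons (.rel (nat_lit 302055684)) .nil)) .nil)) (.node (.node .leaf (nat_lit 24736209140715772) (.br (nat_lit 0) (.cons (.br (nat_lit 5) (.cons (.rel (nat_lit 4300210440)) .nil)) .nil)) .leaf) (nat_lit 24737214163062919) (.br (nat_lit 1) (.cons (.br (nat_lit 2) (.cons (.rel (nat_lit 151028736))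 .nil)) .nil)) .leaf))

/-- refutations 199 -/
def e199 : EX := (.node (.node (.node .leaf (nat_lit 24740048841478279) (.br (nat_lit 0) (.cons (.br (nat_lit 5) (.cons (.rel (nat_lit 4300215312)) (.cons (.rel (nat_lit 4300210440)) .nil))) .nil)) .leaf) (nat_lit 24740203460300935) (.br (nat_lit 0) (.cons (.br (nat_lit 6) (.cons (.rel (nat_lit 17184604161)) .nil)) .nil)) (.node .leaf (nat_lit 24740203548381319) (.br (nat_lit 0) (.cons (.br (nat_lit 1) (.cons (.rel (nat_lit 21626880)) (.cons (.rel (nat_lit 41959488)) .nil))) .nil)) .leaf)) (nat_lit 24745654944010375) (.br (nat_lit 0) (.cons (.br (nat_lit 1) (.cons (.rel (nat_lit 41959488)) .nil)) .nil)) (.node (.node .leaf (nat_lit 24745658068756615) (.br (nat_lit 0) (.cons (.br (nat_lit 3) (.cons (.rel (nat_lit 273171456)) .nil)) .nil)) .leaf) (nat_lit 24745658068766855) (.br (nat_lit 0) (.cons (.br (nat_lit 3) (.cons (.rel (nat_lit 272646273)) (.cons (.rel (nat_lit 276832770)) .nil))) .nil)) .leaf))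

/-- refutations 200 -/
def e200 : EX := (.node (.node (.node (.node .leaf (nat_lit 24752258571407370) (.br (nat_lit 1) (.cons (.br (nat_lit 4) (.cons (.rel (nat_lit 1107316992)) .nil)) .nil)) .leaf) (nat_lit 24752260996649095) (.br (nat_lit 0) (.cons (.br (nat_lit 6) (.cons (.rel (nat_lit 17184067716)) .nil)) .nil)) (.node .leaf (nat_lit 24752260997914779) (.br (nat_lit 0) (.cons (.br (nat_lit 1) (.cons (.rel (nat_lit 21516321)) .nil)) .nil)) .leaf)) (nat_lit 24752261183858177) (.br (nat_lit 0) (.cons (.br (nat_lit 1) (.cons (.rel (nat_lit 21315648)) .nil)) .nil)) (.node (.node .leaf (nat_lit 24752261185393427) (.br (nat_lit 6) (.cons (.br (nat_lit 1) (.cons (.rel (nat_lit 34393554948)) (.cons (.rel (nat_lit 17213555712)) (.cons (.rel (nat_lit 34376519712)) .nil)))) (.cons (.br (nat_lit 0) (.cons (.rel (nat_lit 17185116672)) (.cons (.rel (nat_lit 17184654336)) (.cons (.rel (nat_lit 34364063748)) .nil)))) .nil))) .leaf) (nat_lit 24752261185394076) (.br (nat_lit 1) (.cons (.br (nat_lit 5) (.cons (.rel (nat_lit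 4312797696)) .nil)) .nil)) .leaf)) (nat_lit 24752261185423510) (.br (nat_lit 1) (.cons (.br (nat_lit 4) (.cons (.rel (nat_lit 1091568660)) .nil)) .nil)) (.node (.node (.node .leaf (nat_lit 24752261186709639) (.br (nat_lit 1) (.cons (.br (nat_lit 3) (.cons (.rel (nat_lit 285736977)) (.cons (.rel (nat_lit 301990416)) .nil))) .nil)) .leaf) (nat_lit 24752261228694281) (.br (nat_lit 1) (.cons (.br (nat_lit 4) (.cons (.rel (nat_lit 1090535553)) .nil)) .nil)) .leaf) (nat_lit 24752518694686855) (.br (nat_lit 2) (.cons (.br (nat_lit 0) (.cons (.rel (nat_lit 71566401)) (.cons (.rel (nat_lit 138436608)) (.cons (.rel (nat_lit 75534336)) .nil)))) .nil)) (.node (.node .leaf (nat_lit 24752518696003734) (.br (nat_lit 3) (.cons (.br (nat_lit 5) (.cons (.rel (nat_lit 9127067649)) .nil)) .nil)) .leaf) (nat_lit 24752530136846463) (.br (nat_lit 0) (.cons (.br (nat_lit 2) (.cons (.rel (nat_lit 71305344)) .nil)) .nil)) .leaf)))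

/-- refutations 201 -/
def e201 : EX := (.node (.node .leaf (nat_lit 24758912342233875) (.br (nat_lit 0) (.cons (.br (nat_lit 1) (.cons (.rel (nat_lit 41959488)) .nil)) .nil)) .leaf) (nat_lit 24762953074494850) (.br (nat_lit 1) (.cons (.br (nat_lit 2) (.cons (.rel (nat_lit 84164928)) .nil)) .nil)) .leaf)

/-- refutations 202 -/
def e202 : EX := (.node (.node (.node .leaf (nat_lit 24317836502192263) (.br (nat_lit 0) (.cons (.br (nat_lit 1) (.cons (.rel (nat_lit 37750032)) .nil)) .nil)) .leaf) (nat_lit 24324687971780743) (.br (nat_lit 0) (.cons (.br (nat_lit 1) (.cons (.rel (nat_lit 21004416)) .nil)) .nil)) .leaf) (nat_lit 24324739512881287) (.br (nat_lit 1) (.cons (.br (nat_lit 2) (.cons (.rel (nat_lit 83906688)) .nil)) .nil)) (.node .leaf (nat_lit 24324742555721863) (.br (nat_lit 2) (.cons (.br (nat_lit 3) (.cons (.rel (nat_lit 604111872)) .nil)) .nil)) .leaf))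

/-- refutations 203 -/
def e203 : EX := (.node (.node (.node (.node (.node (.node .leaf (nat_lit 25104067933743231) (.br (nat_lit 0) (.cons (.br (nat_lit 1) (.cons (.rel (nat_lit 21626880)) .nil)) .nil)) .leaf) (nat_lit 25104070554653597) (.br (nat_lit 1) (.cons (.br (nat_lit 4) (.cons (.rel (nat_lit 1090535553)) .nil)) .nil)) .leaf) (nat_lit 25104070555267203) (.br (nat_lit 0) (.cons (.br (nat_lit 3) (.cons (.rel (nat_lit 276826368)) .nil)) .nil)) (.node (.node .leaf (nat_lit 25104070555933597) (.br (nat_lit 0) (.cons (.br (nat_lit 1) (.cons (.rel (nat_lit 21004416)) .nil)) .nil)) .leaf) (nat_lit 25104070556309635) (.br (nat_lit 0) (.cons (.br (nat_lit 2) (.cons (.rel (nat_lit 72482817)) .nil)) .nil)) .leaf)) (nat_lit 25104070556463231) (.br (nat_lit 0) (.cons (.br (nat_lit 1) (.cons (.rel (nat_lit 37752849)) .nil)) .nil)) (.node (.node (.node .leaf (nat_lit 25104073175181447) (.br (nat_lit 0) (.cons (.br (nat_lit 1) (.cons (.rel (nat_lit 22038528)) .nil)) .nil)) .leaf) (nat_lit 25104073177903231) (.br (nat_lit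 1) (.cons (.br (nat_lit 3) (.cons (.rel (nat_lit 286261764)) .nil)) .nil)) .leaf) (nat_lit 25104073177995395) (.br (nat_lit 3) (.cons (.br (nat_lit 5) (.cons (.rel (nat_lit 4831854624)) .nil)) .nil)) (.node (.node .leaf (nat_lit 25104073194526851) (.br (nat_lit 0) (.cons (.br (nat_lit 1) (.cons (.rel (nat_lit 21626880)) .nil)) .nil)) .leaf) (nat_lit 25104073194772611) (.br (nat_lit 2) (.cons (.br (nat_lit 3) (.cons (.rel (nat_lit 336073728)) .nil)) .nil)) .leaf))) (nat_lit 25104073209648029) (.br (nat_lit 0) (.cons (.br (nat_lit 4) (.cons (.rel (nat_lit 1077940608)) .nil)) .nil)) (.node (.node (.node (.node .leaf (nat_lit 25104073209670557) (.br (nat_lit 3) (.cons (.br (nat_lit 6) (.cons (.rel (nat_lit 17716742145)) .nil)) .nil)) .leaf) (nat_lit 25104073209717638) (.br (nat_lit 0) (.cons (.br (nat_lit 2) (.cons (.rel (nat_lit 71566401)) .nil)) .nil)) .leaf) (nat_lit 25104101675733877) (.br (nat_lit 1) (.cons (.br (nat_lit 4) (.cons (.rel (nat_lit 1107316992)) .nil)) .nil)) (.node (.node .leaf (nat_lit 25104101675734252)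 (.br (nat_lit 1) (.cons (.br (nat_lit 4) (.cons (.rel (nat_lit 2164262928)) (.cons (.rel (nat_lit 1107316992)) (.cons (.rel (nat_lit 1091568660)) .nil)))) .nil)) .leaf) (nat_lit 25104101697670380) (.br (nat_lit 1) (.cons (.br (nat_lit 3) (.cons (.rel (nat_lit 570425412)) .nil)) .nil)) .leaf)) (nat_lit 25104102291725190) (.br (nat_lit 1) (.cons (.br (nat_lit 4) (.cons (.rel (nat_lit 2164396032)) .nil)) .nil)) (.node (.node (.node .leaf (nat_lit 25104102292039815) (.br (nat_lit 0) (.cons (.br (nat_lit 5) (.cons (.rel (nat_lit 4303364112)) (.cons (.rel (nat_lit 8598323520)) .nil))) .nil)) .leaf) (nat_lit 25104102294231965) (.br (nat_lit 1) (.cons (.br (nat_lit 2) (.cons (.rel (nat_lit 84951057)) .nil)) .nil)) .leaf) (nat_lit 25104102294495367) (.br (nat_lit 2) (.cons (.br (nat_lit 5) (.cons (.rel (nat_lit 4429186560)) .nil)) .nil)) (.node .leaf (nat_lit 25104102294536327) (.br (nat_lit 0) (.cons (.br (nat_lit 4) (.cons (.rel (nat_lit 1078988808)) .nil)) .nil)) .leaf)))) (nat_lit 25104104820837902) (.br (nat_lit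 0) (.cons (.br (nat_lit 2) (.cons (.rel (nat_lit 71305344)) .nil)) .nil)) (.node (.node (.node (.node (.node .leaf (nat_lit 25104104820889735) (.br (nat_lit 0) (.cons (.br (nat_lit 2) (.cons (.rel (nat_lit 138413061)) .nil)) .nil)) .leaf) (nat_lit 25104104820890281) (.br (nat_lit 2) (.cons (.br (nat_lit 0) (.cons (.rel (nat_lit 142607424)) (.cons (.rel (nat_lit 71305344)) .nil))) .nil)) .leaf) (nat_lit 25104104822383402) (.br (nat_lit 0) (.cons (.br (nat_lit 1) (.cons (.rel (nat_lit 25231617)) .nil)) .nil)) (.node (.node .leaf (nat_lit 25104104822426406) (.br (nat_lit 1) (.cons (.br (nat_lit 3) (.cons (.rel (nat_lit 285212808)) .nil)) .nil)) .leaf) (nat_lit 25104104823397263) (.br (nat_lit 0) (.cons (.br (nat_lit 3) (.cons (.rel (nat_lit 272696448)) .nil)) .nil)) .leaf)) (nat_lit 25104104915028095) (.br (nat_lit 3) (.cons (.br (nat_lit 0) (.cons (.rel (nat_lit 273680385)) (.cons (.rel (nat_lit 541069569)) .nil))) .nil)) (.node (.node (.node .leaf (nat_lit 25104104915028103) (.br (nat_lit 3) (.cons (.br (nat_lit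 5) (.cons (.rel (nat_lit 8858402832)) .nil)) .nil)) .leaf) (nat_lit 25104104915976343) (.br (nat_lit 1) (.cons (.br (nat_lit 2) (.cons (.rel (nat_lit 151064580)) .nil)) .nil)) .leaf) (nat_lit 25104104916296940) (.br (nat_lit 0) (.cons (.br (nat_lit 1) (.cons (.rel (nat_lit 21004416)) .nil)) .nil)) (.node .leaf (nat_lit 25104107534919815) (.br (nat_lit 0) (.cons (.br (nat_lit 2) (.cons (.rel (nat_lit 71566401)) .nil)) .nil)) .leaf))) (nat_lit 25104107536468095) (.br (nat_lit 3) (.cons (.br (nat_lit 6) (.cons (.rel (nat_lit 17719361796)) .nil)) .nil)) (.node (.node (.node (.node .leaf (nat_lit 25104107537133879) (.br (nat_lit 0) (.cons (.br (nat_lit 1) (.cons (.rel (nat_lit 25247760)) .nil)) .nil)) .leaf) (nat_lit 25104107553889141) (.br (nat_lit 0) (.cons (.br (nat_lit 1) (.cons (.rel (nat_lit 22021380)) .nil)) .nil)) .leaf) (nat_lit 25104107554214019) (.br (nat_lit 1) (.cons (.br (nat_lit 3) (.cons (.br (nat_lit 5) (.cons (.rel (nat_lit 8859684864)) .nil)) .nil)) .nil)) (.node (.node .leaf (nat_lit 25104107554265219)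 (.br (nat_lit 1) (.cons (.br (nat_lit 5) (.cons (.rel (nat_lit 4328591616)) .nil)) .nil)) .leaf) (nat_lit 25104107569408925) (.br (nat_lit 0) (.cons (.br (nat_lit 3) (.cons (.rel (nat_lit 273154308)) .nil)) .nil)) .leaf)) (nat_lit 25104107569456006) (.br (nat_lit 1) (.cons (.br (nat_lit 5) (.cons (.rel (nat_lit 4328521761)) .nil)) .nil)) (.node (.node (.node .leaf (nat_lit 25104107570000003) (.br (nat_lit 1) (.cons (.br (nat_lit 6) (.cons (.rel (nat_lit 34393554948)) .nil)) .nil)) .leaf) (nat_lit 25104107570022535) (.br (nat_lit 1) (.cons (.br (nat_lit 6) (.cons (.rel (nat_lit 34393554948)) .nil)) .nil)) .leaf) (nat_lit 25104107570991235) (.br (nat_lit 0) (.cons (.br (nat_lit 1) (.cons (.rel (nat_lit 42270720)) .nil)) .nil)) (.node .leaf (nat_lit 25104107571288191) (.br (nat_lit 2) (.cons (.br (nat_lit 3) (.cons (.rel (nat_lit 606602241)) .nil)) .nil)) .leaf)))))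

/-- refutations 204 -/
def e204 : EX := (.node (.node (.node .leaf (nat_lit 25104141914249347) (.br (nat_lit 1) (.cons (.br (nat_lit 0) (.cons (.rel (nat_lit 41959488)) (.cons (.rel (nat_lit 23330817)) .nil))) .nil)) .leaf) (nat_lit 25104141931026559) (.br (nat_lit 0) (.cons (.br (nat_lit 1) (.cons (.rel (nat_lit 23330817)) .nil)) .nil)) .leaf) (nat_lit 25104531789959303) (.br (nat_lit 0) (.cons (.br (nat_lit 3) (.cons (.rel (nat_lit 272957505)) .nil)) .nil)) (.node (.node .leaf (nat_lit 25104534215532729) (.br (nat_lit 0) (.cons (.br (nat_lit 3) (.cons (.rel (nat_lit 273679380)) .nil)) .nil)) .leaf) (nat_lit 25104534215594109) (.br (nat_lit 0) (.cons (.br (nat_lit 1) (.cons (.rel (nat_lit 22038528)) .nil)) .nil)) .leaf))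

/-- refutations 205 -/
def e205 : EX := (.node .leaf (nat_lit 25109639455252615) (.br (nat_lit 0) (.cons (.br (nat_lit 1) (.cons (.rel (nat_lit 20972178)) .nil)) .nil)) .leaf)

/-- refutations 206 -/
def e206 : EX := (.node (.node .leaf (nat_lit 25112016150649513) (.br (nat_lit 0) (.cons (.br (nat_lit 2) (.cons (.rel (nat_lit 71827458)) .nil)) .nil)) .leaf) (nat_lit 25115093973071226) (.br (nat_lit 0) (.cons (.br (nat_lit 3) (.cons (.rel (nat_lit 273679380)) .nil)) .nil)) (.node .leaf (nat_lit 25115875745517703) (.br (nat_lit 1) (.cons (.br (nat_lit 3) (.cons (.rel (nat_lit 570425412)) .nil)) .nil)) .leaf))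

/-- refutations 207 -/
def e207 : EX := (.node (.node (.node (.node (.node .leaf (nat_lit 25156838534480659) (.br (nat_lit 2) (.cons (.br (nat_lit 6) (.cons (.rel (nat_lit 34426847760)) .nil)) .nil)) .leaf) (nat_lit 25156849756858503) (.br (nat_lit 0) (.cons (.br (nat_lit 1) (.cons (.rel (nat_lit 41959488)) .nil)) .nil)) .leaf) (nat_lit 25157104804096135) (.br (nat_lit 2) (.cons (.br (nat_lit 6) (.cons (.rel (nat_lit 17246994576)) .nil)) .nil)) (.node .leaf (nat_lit 25157104804096152) (.br (nat_lit 2) (.cons (.br (nat_lit 3) (.cons (.rel (nat_lit 336592914)) (.cons (.rel (nat_lit 336592914)) (.cons (.rel (nat_lit 402670593)) .nil)))) .nil)) .leaf)) (nat_lit 25157104804096632) (.br (nat_lit 0) (.cons (.br (nat_lit 1) (.cons (.rel (nat_lit 22038528)) .nil)) .nil)) (.node (.node (.node .leaf (nat_lit 25157104804096931) (.br (nat_lit 1) (.cons (.br (nat_lit 4) (.cons (.rel (nat_lit 1090785348)) .nil)) .nil)) .leaf) (nat_lit 25157104804097312) (.br (nat_lit 1) (.cons (.br (nat_lit 5) (.cons (.rel (nat_lit 4312793109))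 .nil)) .nil)) .leaf) (nat_lit 25157147774740615) (.br (nat_lit 3) (.cons (.br (nat_lit 5) (.cons (.rel (nat_lit 4563927042)) (.cons (.rel (nat_lit 4831838481)) (.cons (.rel (nat_lit 9126806592)) (.cons (.rel (nat_lit 9126806592)) (.cons (.rel (nat_lit 4563664980)) .nil)))))) .nil)) (.node .leaf (nat_lit 25157299650488455) (.br (nat_lit 0) (.cons (.br (nat_lit 6) (.cons (.rel (nat_lit 17188275216)) .nil)) .nil)) .leaf))) (nat_lit 25157302167070881) (.br (nat_lit 1) (.cons (.br (nat_lit 4) (.cons (.rel (nat_lit 2164260873)) .nil)) .nil)) (.node (.node (.node (.node .leaf (nat_lit 25158005613422843) (.br (nat_lit 0) (.cons (.br (nat_lit 1) (.cons (.rel (nat_lit 22038528)) .nil)) .nil)) .leaf) (nat_lit 25158005614767360) (.br (nat_lit 1) (.cons (.br (nat_lit 2) (.cons (.rel (nat_lit 100681728)) .nil)) .nil)) .leaf) (nat_lit 25159449126049854) (.br (nat_lit 0) (.cons (.br (nat_lit 3) (.cons (.rel (nat_lit 272646273)) .nil)) .nil)) (.node .leaf (nat_lit 25159449126430855) (.br (nat_lit 1) (.cons (.br (nat_lit 2)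 (.cons (.rel (nat_lit 85001232)) .nil)) .nil)) .leaf)) (nat_lit 25159449126430971) (.br (nat_lit 0) (.cons (.br (nat_lit 3) (.cons (.rel (nat_lit 272646273)) .nil)) .nil)) (.node (.node (.node .leaf (nat_lit 25162458958981255) (.br (nat_lit 1) (.cons (.br (nat_lit 4) (.cons (.rel (nat_lit 1091060736)) (.cons (.rel (nat_lit 1090585728)) .nil))) (.cons (.br (nat_lit 2) (.cons (.rel (nat_lit 84934914)) (.cons (.rel (nat_lit 83906688)) .nil))) .nil))) .leaf) (nat_lit 25163497338628158) (.br (nat_lit 0) (.cons (.br (nat_lit 1) (.cons (.rel (nat_lit 25170180)) .nil)) .nil)) .leaf) (nat_lit 25163497338628222) (.br (nat_lit 1) (.cons (.br (nat_lit 6) (.cons (.rel (nat_lit 17197761792)) .nil)) .nil)) (.node .leaf (nat_lit 25163497338628231) (.br (nat_lit 1) (.cons (.br (nat_lit 2) (.cons (.rel (nat_lit 151028736)) .nil)) .nil)) .leaf))))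

/-- refutations 208 -/
def e208 : EX := (.node (.node (.node (.node .leaf (nat_lit 25164348157388935) (.br (nat_lit 1) (.cons (.br (nat_lit 2) (.cons (.rel (nat_lit 100681728)) .nil)) .nil)) .leaf) (nat_lit 25164348157389435) (.br (nat_lit 3) (.cons (.br (nat_lit 6) (.cons (.rel (nat_lit 34628173845)) .nil)) .nil)) .leaf) (nat_lit 25164348157389455) (.br (nat_lit 0) (.cons (.br (nat_lit 3) (.cons (.rel (nat_lit 273171456)) .nil)) .nil)) (.node .leaf (nat_lit 25164348245469345) (.br (nat_lit 0) (.cons (.br (nat_lit 1) (.cons (.rel (nat_lit 37767192)) .nil)) .nil)) .leaf)) (nat_lit 25164657483114621) (.br (nat_lit 2) (.cons (.br (nat_lit 3) (.cons (.rel (nat_lit 336073728)) .nil)) .nil)) (.node (.node (.node .leaf (nat_lit 25164657483114678) (.br (nat_lit 0) (.cons (.br (nat_lit 3) (.cons (.rel (nat_lit 276889617)) .nil)) .nil)) .leaf) (nat_lit 25164657483116022) (.br (nat_lit 2) (.cons (.br (nat_lit 0) (.cons (.rel (nat_lit 138413061)) (.cons (.rel (nat_lit 71827458)) .nil))) .nil)) .leaf) (nat_lit 25167607571998855)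 (.br (nat_lit 0) (.cons (.br (nat_lit 2) (.cons (.rel (nat_lit 75498513)) .nil)) .nil)) (.node .leaf (nat_lit 25170158191177241) (.br (nat_lit 1) (.cons (.br (nat_lit 3) (.cons (.rel (nat_lit 570425412)) .nil)) .nil)) .leaf)))

/-- refutations 209 -/
def e209 : EX := (.node (.node (.node (.node (.node (.node (.node .leaf (nat_lit 25174422053513351) (.br (nat_lit 0) (.cons (.br (nat_lit 5) (.cons (.rel (nat_lit 4303390722)) .nil)) .nil)) .leaf) (nat_lit 25174436696084607) (.br (nat_lit 3) (.cons (.br (nat_lit 5) (.cons (.rel (nat_lit 4564467972)) .nil)) .nil)) .leaf) (nat_lit 25174436696084611) (.br (nat_lit 0) (.cons (.br (nat_lit 1) (.cons (.rel (nat_lit 21626880)) .nil)) .nil)) (.node .leaf (nat_lit 25174439315925123) (.br (nat_lit 1) (.cons (.br (nat_lit 4) (.cons (.rel (nat_lit 1090785348)) .nil)) .nil)) .leaf)) (nat_lit 25174439316222087) (.br (nat_lit 1) (.cons (.br (nat_lit 5) (.cons (.rel (nat_lit 4311748740)) .nil)) .nil)) (.node (.node (.node .leaf (nat_lit 25174439317264519) (.br (nat_lit 0) (.cons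 (.br (nat_lit 2) (.cons (.rel (nat_lit 142868481)) .nil)) .nil)) .leaf) (nat_lit 25174441937056669) (.br (nat_lit 1) (.cons (.br (nat_lit 3) (.cons (.rel (nat_lit 303104064)) .nil)) .nil)) .leaf) (nat_lit 25174441937662087) (.br (nat_lit 1) (.cons (.br (nat_lit 6) (.cons (.rel (nat_lit 17197170696)) .nil)) .nil)) (.node .leaf (nat_lit 25174441937670275) (.br (nat_lit 1) (.cons (.br (nat_lit 6) (.cons (.rel (nat_lit 17197170696)) .nil)) .nil)) .leaf))) (nat_lit 25174441938336669) (.br (nat_lit 0) (.cons (.br (nat_lit 1) (.cons (.rel (nat_lit 21004416)) .nil)) .nil)) (.node (.node (.node (.node .leaf (nat_lit 25174441938704515) (.br (nat_lit 2) (.cons (.br (nat_lit 3) (.cons (.rel (nat_lit 605306880)) .nil)) .nil)) .leaf) (nat_lit 25174441938964607) (.br (nat_lit 2) (.cons (.br (nat_lit 1) (.cons (.rel (nat_lit 101974017)) (.cons (.rel (nat_lit 101974017)) .nil))) .nil)) .leaf) (nat_lit 25174441938964611) (.br (nat_lit 0) (.cons (.br (nat_lit 3) (.cons (.rel (nat_lit 273171456)) .nil)) .nil)) (.node .leaf (nat_lit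 25174471054215970) (.br (nat_lit 0) (.cons (.br (nat_lit 1) (.cons (.rel (nat_lit 25247760)) .nil)) .nil)) .leaf)) (nat_lit 25174471055822979) (.br (nat_lit 1) (.cons (.br (nat_lit 6) (.cons (.rel (nat_lit 34393554948)) .nil)) .nil)) (.node (.node (.node .leaf (nat_lit 25174473064635670) (.br (nat_lit 0) (.cons (.br (nat_lit 4) (.cons (.rel (nat_lit 2151678240)) .nil)) .nil)) .leaf) (nat_lit 25174473674391679) (.br (nat_lit 1) (.cons (.br (nat_lit 3) (.cons (.rel (nat_lit 285736977)) .nil)) .nil)) .leaf) (nat_lit 25174473675368759) (.br (nat_lit 0) (.cons (.br (nat_lit 3) (.cons (.rel (nat_lit 272646273)) .nil)) .nil)) (.node .leaf (nat_lit 25174473675674387) (.br (nat_lit 1) (.cons (.br (nat_lit 2) (.cons (.rel (nat_lit 100728834)) .nil)) .nil)) .leaf)))) (nat_lit 25174473675960455) (.br (nat_lit 3) (.cons (.br (nat_lit 5) (.cons (.rel (nat_lit 8858436864)) .nil)) .nil)) (.node (.node (.node (.node (.node .leaf (nat_lit 25174473676626197) (.br (nat_lit 1) (.cons (.br (nat_lit 2) (.cons (.rel (nat_lit 83906688))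 .nil)) .nil)) .leaf) (nat_lit 25174473676626852) (.br (nat_lit 1) (.cons (.br (nat_lit 3) (.cons (.rel (nat_lit 285212808)) .nil)) .nil)) .leaf) (nat_lit 25174473676687637) (.br (nat_lit 1) (.cons (.br (nat_lit 2) (.cons (.rel (nat_lit 84934914)) .nil)) .nil)) (.node .leaf (nat_lit 25174473677002887) (.br (nat_lit 2) (.cons (.br (nat_lit 4) (.cons (.rel (nat_lit 1207964928)) (.cons (.rel (nat_lit 2281775424)) .nil))) .nil)) .leaf)) (nat_lit 25174473677004253) (.br (nat_lit 5) (.cons (.br (nat_lit 2) (.cons (.rel (nat_lit 8658354192)) (.cons (.rel (nat_lit 4364436480)) .nil))) .nil)) (.node (.node (.node .leaf (nat_lit 25174473677156483) (.br (nat_lit 0) (.cons (.br (nat_lit 3) (.cons (.rel (nat_lit 278134800)) .nil)) .nil)) .leaf) (nat_lit 25174475694463156) (.br (nat_lit 0) (.cons (.br (nat_lit 1) (.cons (.rel (nat_lit 21626880)) .nil)) .nil)) .leaf) (nat_lit 25174476280623239) (.br (nat_lit 6) (.cons (.br (nat_lit 3) (.cons (.rel (nat_lit 17449369617)) (.cons (.rel (nat_lit 17449419792)) .nil))) .nil)) (.node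 .leaf (nat_lit 25174476295515673) (.br (nat_lit 3) (.cons (.br (nat_lit 4) (.cons (.rel (nat_lit 2417230080)) (.cons (.rel (nat_lit 2684354625)) .nil))) .nil)) .leaf))) (nat_lit 25174476295765403) (.br (nat_lit 4) (.cons (.br (nat_lit 0) (.cons (.rel (nat_lit 1078493208)) (.cons (.rel (nat_lit 1078198848)) .nil))) .nil)) (.node (.node (.node (.node .leaf (nat_lit 25174476296020095) (.br (nat_lit 0) (.cons (.br (nat_lit 5) (.cons (.rel (nat_lit 8598323520)) .nil)) .nil)) .leaf) (nat_lit 25174476296081535) (.br (nat_lit 0) (.cons (.br (nat_lit 2) (.cons (.rel (nat_lit 142607424)) .nil)) .nil)) .leaf) (nat_lit 25174476296089053) (.br (nat_lit 1) (.cons (.br (nat_lit 2) (.cons (.rel (nat_lit 84164928)) .nil)) .nil)) (.node .leaf (nat_lit 25174476296131445) (.br (nat_lit 0) (.cons (.br (nat_lit 3) (.cons (.rel (nat_lit 272646273)) .nil)) .nil)) .leaf)) (nat_lit 25174476296133920) (.br (nat_lit 1) (.cons (.br (nat_lit 2) (.cons (.rel (nat_lit 83906688)) .nil)) .nil)) (.node (.node .leaf (nat_lit 25174476296786845)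 (.br (nat_lit 1) (.cons (.br (nat_lit 3) (.cons (.rel (nat_lit 303104064)) .nil)) .nil)) .leaf) (nat_lit 25174476296795037) (.br (nat_lit 1) (.cons (.br (nat_lit 3) (.cons (.rel (nat_lit 303104064)) .nil)) .nil)) (.node .leaf (nat_lit 25174476296795044) (.br (nat_lit 3) (.cons (.br (nat_lit 4) (.cons (.rel (nat_lit 1343357952)) .nil)) .nil)) .leaf))))) (nat_lit 25174476296807935) (.br (nat_lit 0) (.cons (.br (nat_lit 1) (.cons (.rel (nat_lit 21315648)) .nil)) .nil)) (.node (.node (.node (.node (.node (.node .leaf (nat_lit 25174476296809373) (.br (nat_lit 0) (.cons (.br (nat_lit 2) (.cons (.rel (nat_lit 71305344)) .nil)) .nil)) .leaf) (nat_lit 25174476296890503) (.br (nat_lit 2) (.cons (.br (nat_lit 0) (.cons (.rel (nat_lit 142607424)) (.cons (.rel (nat_lit 73728000)) .nil))) .nil)) .leaf) (nat_lit 25174476297093870) (.br (nat_lit 1) (.cons (.br (nat_lit 2) (.cons (.rel (nat_lit 84940800)) .nil)) .nil)) (.node .leaf (nat_lit 25174476297094045) (.br (nat_lit 0) (.cons (.br (nat_lit 1) (.cons (.rel (nat_lit 23069760))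 .nil)) .nil)) .leaf)) (nat_lit 25174476297095970) (.br (nat_lit 1) (.cons (.br (nat_lit 5) (.cons (.rel (nat_lit 4312285185)) .nil)) .nil)) (.node (.node (.node .leaf (nat_lit 25174476297144352) (.br (nat_lit 3) (.cons (.br (nat_lit 4) (.cons (.rel (nat_lit 1342177410)) .nil)) .nil)) .leaf) (nat_lit 25174476297162758) (.br (nat_lit 1) (.cons (.br (nat_lit 3) (.cons (.br (nat_lit 2) (.cons (.rel (nat_lit 402653445)) (.cons (.rel (nat_lit 84217920)) .nil))) .nil)) .nil)) .leaf) (nat_lit 25174476297162887) (.br (nat_lit 1) (.cons (.br (nat_lit 4) (.cons (.rel (nat_lit 2181047376)) .nil)) .nil)) (.node .leaf (nat_lit 25174476297400455) (.br (nat_lit 3) (.cons (.br (nat_lit 6) (.cons (.rel (nat_lit 17448894720)) (.cons (.br (nat_lit 5) (.cons (.rel (nat_lit 21474837633)) (.cons (.rel (nat_lit 21475362816)) .nil))) .nil))) .nil)) .leaf))) (nat_lit 25174476297402620) (.br (nat_lit 1) (.cons (.br (nat_lit 6) (.cons (.rel (nat_lit 34393554948)) .nil)) .nil)) (.node (.node (.node (.node .leaf (nat_lit 25174476297408643)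 (.br (nat_lit 0) (.cons (.br (nat_lit 4) (.cons (.rel (nat_lit 1079001120)) (.cons (.rel (nat_lit 1082130960)) .nil))) .nil)) .leaf) (nat_lit 25174476298066197) (.br (nat_lit 4) (.cons (.br (nat_lit 6) (.cons (.rel (nat_lit 18253613184)) .nil)) .nil)) .leaf) (nat_lit 25174476298075649) (.br (nat_lit 0) (.cons (.br (nat_lit 3) (.cons (.rel (nat_lit 273686784)) .nil)) .nil)) (.node .leaf (nat_lit 25174476298120053) (.br (nat_lit 0) (.cons (.br (nat_lit 1) (.cons (.rel (nat_lit 42270720)) .nil)) .nil)) .leaf)) (nat_lit 25174476298120074) (.br (nat_lit 1) (.cons (.br (nat_lit 2) (.cons (.rel (nat_lit 84934914)) .nil)) .nil)) (.node (.node .leaf (nat_lit 25174476298127637) (.br (nat_lit 1) (.cons (.br (nat_lit 2) (.cons (.rel (nat_lit 84476160)) .nil)) .nil)) .leaf) (nat_lit 25174476298128262) (.br (nat_lit 5) (.cons (.br (nat_lit 0) (.cons (.rel (nat_lit 8595177537)) (.cons (.rel (nat_lit 8598323520)) .nil))) .nil)) (.node .leaf (nat_lit 25174476298188807) (.br (nat_lit 1) (.cons (.br (nat_lit 2) (.cons (.rel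 (nat_lit 101712960)) (.cons (.rel (nat_lit 84217920)) (.cons (.rel (nat_lit 100667397)) (.cons (.rel (nat_lit 101712960)) .nil))))) .nil)) .leaf)))) (nat_lit 25174476298393078) (.br (nat_lit 0) (.cons (.br (nat_lit 1) (.cons (.rel (nat_lit 20992152)) .nil)) .nil)) (.node (.node (.node (.node (.node .leaf (nat_lit 25174476298442879) (.br (nat_lit 2) (.cons (.br (nat_lit 3) (.cons (.rel (nat_lit 336073728)) (.cons (.rel (nat_lit 402669588)) (.cons (.rel (nat_lit 672153732)) .nil)))) (.cons (.br (nat_lit 5) (.cons (.rel (nat_lit 4362682368)) (.cons (.rel (nat_lit 4362371136)) (.cons (.rel (nat_lit 4363125024)) .nil)))) .nil))) .leaf) (nat_lit 25174476298442883) (.br (nat_lit 3) (.cons (.br (nat_lit 1) (.cons (.br (nat_lit 2) (.cons (.rel (nat_lit 604111872)) (.cons (.rel (nat_lit 168039432)) (.cons (.rel (nat_lit 336073728)) .nil)))) (.cons (.rel (nat_lit 287310144)) .nil))) .nil)) .leaf) (nat_lit 25174476298442887) (.br (nat_lit 0) (.cons (.br (nat_lit 5) (.cons (.rel (nat_lit 4299162240)) (.cons (.rel (nat_lit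 8598323520)) .nil))) (.cons (.br (nat_lit 5) (.cons (.rel (nat_lit 4299162240)) (.cons (.rel (nat_lit 4300210440)) .nil))) .nil))) (.node .leaf (nat_lit 25174476298443004) (.br (nat_lit 0) (.cons (.br (nat_lit 6) (.cons (.rel (nat_lit 17184067716)) .nil)) .nil)) .leaf)) (nat_lit 25174476298443658) (.br (nat_lit 0) (.cons (.br (nat_lit 2) (.cons (.rel (nat_lit 71305344)) (.cons (.rel (nat_lit 71305344)) .nil))) .nil)) (.node (.node (.node .leaf (nat_lit 25174476298443677) (.br (nat_lit 1) (.cons (.br (nat_lit 2) (.cons (.rel (nat_lit 150999312)) (.cons (.rel (nat_lit 83906688)) .nil))) .nil)) .leaf) (nat_lit 25174476298444054) (.br (nat_lit 1) (.cons (.br (nat_lit 3) (.cons (.rel (nat_lit 570425412)) (.cons (.rel (nat_lit 287310144)) .nil))) (.cons (.br (nat_lit 3) (.cons (.rel (nat_lit 285212808)) (.cons (.rel (nat_lit 285736977)) .nil))) .nil))) .leaf) (nat_lit 25174476298447609) (.br (nat_lit 0) (.cons (.br (nat_lit 3) (.cons (.rel (nat_lit 273158178)) .nil)) .nil)) (.node .leaf (nat_lit 25174476298588291)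 (.br (nat_lit 0) (.cons (.br (nat_lit 1) (.cons (.rel (nat_lit 21626880)) .nil)) .nil)) .leaf))) (nat_lit 25174476298588295) (.br (nat_lit 1) (.cons (.br (nat_lit 6) (.cons (.br (nat_lit 4) (.cons (.rel (nat_lit 18256035840)) (.cons (.rel (nat_lit 18256035840)) .nil))) (.cons (.rel (nat_lit 34393554948)) (.cons (.rel (nat_lit 17197761792)) .nil)))) .nil)) (.node (.node (.node (.node .leaf (nat_lit 25174476298596479) (.br (nat_lit 0) (.cons (.br (nat_lit 1) (.cons (.rel (nat_lit 21626880)) .nil)) .nil)) .leaf) (nat_lit 25174476298596483) (.br (nat_lit 0) (.cons (.br (nat_lit 2) (.cons (.rel (nat_lit 71566401)) .nil)) .nil)) .leaf) (nat_lit 25174476298649732) (.br (nat_lit 0) (.cons (.br (nat_lit 1) (.cons (.rel (nat_lit 22021380)) .nil)) .nil)) (.node .leaf (nat_lit 25174476298651130) (.br (nat_lit 0) (.cons (.br (nat_lit 2) (.cons (.rel (nat_lit 71305344)) .nil)) .nil)) .leaf)) (nat_lit 25174476298702979) (.br (nat_lit 1) (.cons (.br (nat_lit 0) (.cons (.rel (nat_lit 22024197)) (.cons (.rel (nat_lit 21626880))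 .nil))) .nil)) (.node (.node .leaf (nat_lit 25174476313586589) (.br (nat_lit 0) (.cons (.br (nat_lit 2) (.cons (.rel (nat_lit 71827458)) .nil)) .nil)) .leaf) (nat_lit 25174476313871238) (.br (nat_lit 3) (.cons (.br (nat_lit 6) (.cons (.rel (nat_lit 34628173845)) .nil)) .nil)) (.node .leaf (nat_lit 25174476314843447) (.br (nat_lit 0) (.cons (.br (nat_lit 2) (.cons (.rel (nat_lit 71565396)) .nil)) .nil)) .leaf))))))

/-- refutations 210 -/
def e210 : EX := (.node (.node (.node (.node .leaf (nat_lit 25174505285277831) (.br (nat_lit 1) (.cons (.br (nat_lit 0) (.cons (.rel (nat_lit 42210336)) (.cons (.rel (nat_lit 42270720)) .nil))) .nil)) .leaf) (nat_lit 25174505415561343) (.br (nat_lit 6) (.cons (.br (nat_lit 0) (.cons (.rel (nat_lit 17185113090)) (.cons (.rel (nat_lit 34363938048)) .nil))) .nil)) (.node .leaf (nat_lit 25174508035085220) (.br (nat_lit 1) (.cons (.br (nat_lit 2) (.cons (.rel (nat_lit 101712960)) .nil)) .nil)) .leaf)) (nat_lit 25174508035461255) (.br (nat_lit 0) (.cons (.br (nat_lit 1) (.cons (.rel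 (nat_lit 22085634)) .nil)) .nil)) (.node (.node .leaf (nat_lit 25174510640361607) (.br (nat_lit 3) (.cons (.br (nat_lit 1) (.cons (.rel (nat_lit 286278912)) (.cons (.rel (nat_lit 285736977)) .nil))) .nil)) .leaf) (nat_lit 25174510641664127) (.br (nat_lit 3) (.cons (.br (nat_lit 5) (.cons (.rel (nat_lit 9127067649)) .nil)) .nil)) .leaf)) (nat_lit 25174510656525220) (.br (nat_lit 0) (.cons (.br (nat_lit 2) (.cons (.rel (nat_lit 142607424)) .nil)) .nil)) (.node (.node (.node .leaf (nat_lit 25174510657805220) (.br (nat_lit 0) (.cons (.br (nat_lit 1) (.cons (.rel (nat_lit 21004416)) .nil)) .nil)) .leaf) (nat_lit 25174510658441343) (.br (nat_lit 0) (.cons (.br (nat_lit 3) (.cons (.rel (nat_lit 276840456)) (.cons (.rel (nat_lit 273171456)) .nil))) (.cons (.br (nat_lit 3) (.cons (.rel (nat_lit 276829185)) (.cons (.rel (nat_lit 278134800)) .nil))) .nil))) .leaf) (nat_lit 25174510674907271) (.br (nat_lit 0) (.cons (.br (nat_lit 3) (.cons (.rel (nat_lit 273171456)) .nil)) .nil)) (.node (.node .leaf (nat_lit 25174682455593095)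 (.br (nat_lit 4) (.cons (.br (nat_lit 0) (.cons (.rel (nat_lit 2151678240)) (.cons (.rel (nat_lit 1077957768)) .nil))) .nil)) .leaf) (nat_lit 25180045793089671) (.br (nat_lit 1) (.cons (.br (nat_lit 2) (.cons (.rel (nat_lit 84951057)) .nil)) .nil)) .leaf)))

/-- refutations 211 -/
def e211 : EX := (.node .leaf (nat_lit 25181176447425419) (.br (nat_lit 0) (.cons (.br (nat_lit 2) (.cons (.rel (nat_lit 71305344)) .nil)) .nil)) .leaf)

/-- refutations 212 -/
def e212 : EX := (.node .leaf (nat_lit 25192019636276450) (.br (nat_lit 0) (.cons (.br (nat_lit 1) (.cons (.rel (nat_lit 37750032)) .nil)) .nil)) .leaf)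

/-- refutations 213 -/
def e213 : EX := (.node .leaf (nat_lit 25202848855555359) (.br (nat_lit 0) (.cons (.br (nat_lit 2) (.cons (.rel (nat_lit 71305344)) .nil)) .nil)) .leaf)

/-- refutations 214 -/
def e214 : EX := (.node (.node (.node (.node (.node (.node .leaf (nat_lit 25244805454468328) (.br (nat_lit 1) (.cons (.br (nat_lit 4) (.cons (.rel (nat_lit 1090846785)) .nil)) .nil)) .leaf) (nat_lit 25244805455759495) (.br (nat_lit 0) (.cons (.br (nat_lit 1) (.cons (.rel (nat_lit 21626880)) (.cons (.rel (nat_lit 26476800)) .nil))) .nil)) .leaf) (nat_lit 25244805456424966) (.br (nat_lit 1) (.cons (.br (nat_lit 3) (.cons (.rel (nat_lit 285212808)) .nil)) .nil)) (.node (.node .leaf (nat_lit 25244808076939391) (.br (nat_lit 0) (.cons (.br (nat_lit 1) (.cons (.rel (nat_lit 42230016)) .nil)) .nil)) .leaf) (nat_lit 25244808077199495) (.br (nat_lit 0) (.cons (.br (nat_lit 3) (.cons (.rel (nat_lit 273171456)) .nil)) .nil)) .leaf)) (nat_lit 25244810681533051) (.br (nat_lit 0) (.cons (.br (nat_lit 2) (.cons (.rel (nat_lit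 142680144)) .nil)) .nil)) (.node (.node (.node .leaf (nat_lit 25244810682527750) (.br (nat_lit 0) (.cons (.br (nat_lit 1) (.cons (.rel (nat_lit 42270720)) .nil)) .nil)) .leaf) (nat_lit 25244810683119926) (.br (nat_lit 1) (.cons (.br (nat_lit 6) (.cons (.rel (nat_lit 17197170696)) .nil)) .nil)) .leaf) (nat_lit 25244810698010649) (.br (nat_lit 0) (.cons (.br (nat_lit 1) (.cons (.rel (nat_lit 22038528)) .nil)) .nil)) (.node .leaf (nat_lit 25244810699896959) (.br (nat_lit 3) (.cons (.br (nat_lit 5) (.cons (.rel (nat_lit 4565827584)) .nil)) .nil)) .leaf))) (nat_lit 25244839813603628) (.br (nat_lit 0) (.cons (.br (nat_lit 1) (.cons (.rel (nat_lit 26218560)) .nil)) .nil)) (.node (.node (.node (.node .leaf (nat_lit 25244839813604854) (.br (nat_lit 0) (.cons (.br (nat_lit 3) (.cons (.rel (nat_lit 272646273)) .nil)) .nil)) .leaf) (nat_lit 25244839814206696) (.br (nat_lit 0) (.cons (.br (nat_lit 1) (.cons (.rel (nat_lit 21315648)) .nil)) .nil)) .leaf) (nat_lit 25244839814869924) (.br (nat_lit 1) (.cons (.br (nat_lit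 3) (.cons (.rel (nat_lit 286281729)) .nil)) .nil)) (.node .leaf (nat_lit 25244839815497863) (.br (nat_lit 0) (.cons (.br (nat_lit 1) (.cons (.rel (nat_lit 21626880)) .nil)) .nil)) .leaf)) (nat_lit 25244839816149924) (.br (nat_lit 0) (.cons (.br (nat_lit 1) (.cons (.rel (nat_lit 42270720)) .nil)) .nil)) (.node (.node (.node .leaf (nat_lit 25244839816755327) (.br (nat_lit 1) (.cons (.br (nat_lit 3) (.cons (.rel (nat_lit 286261764)) .nil)) .nil)) .leaf) (nat_lit 25244839816755331) (.br (nat_lit 0) (.cons (.br (nat_lit 1) (.cons (.rel (nat_lit 25247760)) (.cons (.rel (nat_lit 37752849)) .nil))) .nil)) .leaf) (nat_lit 25244842435338375) (.br (nat_lit 1) (.cons (.br (nat_lit 6) (.cons (.br (nat_lit 0) (.cons (.rel (nat_lit 17188258068)) (.cons (.rel (nat_lit 17185113090)) .nil))) .nil)) .nil)) (.node .leaf (nat_lit 25244842437650709) (.br (nat_lit 2) (.cons (.br (nat_lit 4) (.cons (.rel (nat_lit 1141915668)) .nil)) .nil)) .leaf)))) (nat_lit 25244842437961853) (.br (nat_lit 2) (.cons (.br (nat_lit 4) (.cons (.rel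 (nat_lit 1141407744)) .nil)) .nil)) (.node (.node (.node (.node (.node .leaf (nat_lit 25244842438111367) (.br (nat_lit 1) (.cons (.br (nat_lit 3) (.cons (.rel (nat_lit 285736977)) .nil)) .nil)) .leaf) (nat_lit 25244842438195331) (.br (nat_lit 0) (.cons (.br (nat_lit 3) (.cons (.rel (nat_lit 276829185)) .nil)) .nil)) .leaf) (nat_lit 25244845022930446) (.br (nat_lit 1) (.cons (.br (nat_lit 2) (.cons (.rel (nat_lit 83906688)) .nil)) .nil)) (.node .leaf (nat_lit 25244845026080899) (.br (nat_lit 1) (.cons (.br (nat_lit 6) (.cons (.rel (nat_lit 17197170696)) .nil)) .nil)) .leaf)) (nat_lit 25244845040987018) (.br (nat_lit 4) (.cons (.br (nat_lit 6) (.cons (.rel (nat_lit 35433480456)) .nil)) .nil)) (.node (.node (.node .leaf (nat_lit 25244845042243861) (.br (nat_lit 3) (.cons (.br (nat_lit 4) (.cons (.rel (nat_lit 2416971840)) .nil)) .nil)) .leaf) (nat_lit 25244845042344736) (.br (nat_lit 0) (.cons (.br (nat_lit 1) (.cons (.rel (nat_lit 21004416)) .nil)) .nil)) .leaf) (nat_lit 25244845042559111) (.br (nat_lit 0) (.cons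 (.br (nat_lit 4) (.cons (.rel (nat_lit 2151678240)) (.cons (.rel (nat_lit 1078988808)) (.cons (.rel (nat_lit 1078988808)) .nil)))) .nil)) (.node .leaf (nat_lit 25244845042858111) (.br (nat_lit 0) (.cons (.br (nat_lit 1) (.cons (.rel (nat_lit 22085634)) .nil)) .nil)) .leaf))) (nat_lit 25244845056484878) (.br (nat_lit 3) (.cons (.br (nat_lit 4) (.cons (.rel (nat_lit 2684354625)) .nil)) .nil)) (.node (.node (.node (.node .leaf (nat_lit 25244845058048182) (.br (nat_lit 1) (.cons (.br (nat_lit 2) (.cons (.rel (nat_lit 85001232)) .nil)) .nil)) .leaf) (nat_lit 25244845058048750) (.br (nat_lit 2) (.cons (.br (nat_lit 3) (.cons (.rel (nat_lit 335545728)) .nil)) .nil)) .leaf) (nat_lit 25244845058049306) (.br (nat_lit 2) (.cons (.br (nat_lit 5) (.cons (.rel (nat_lit 8657059848)) .nil)) .nil)) (.node .leaf (nat_lit 25244845058263175) (.br (nat_lit 1) (.cons (.br (nat_lit 2) (.cons (.rel (nat_lit 151126017)) .nil)) .nil)) .leaf)) (nat_lit 25244845058377863) (.br (nat_lit 1) (.cons (.br (nat_lit 5) (.cons (.rel (nat_lit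 4312335360)) (.cons (.rel (nat_lit 4312335360)) .nil))) .nil)) (.node (.node (.node .leaf (nat_lit 25244845059091334) (.br (nat_lit 0) (.cons (.br (nat_lit 1) (.cons (.rel (nat_lit 21004416)) .nil)) .nil)) .leaf) (nat_lit 25244845059397767) (.br (nat_lit 3) (.cons (.br (nat_lit 1) (.cons (.rel (nat_lit 554959872)) (.cons (.rel (nat_lit 286392336)) .nil))) .nil)) .leaf) (nat_lit 25244845059543167) (.br (nat_lit 1) (.cons (.br (nat_lit 2) (.cons (.rel (nat_lit 84940800)) .nil)) .nil)) (.node .leaf (nat_lit 25244845059635331) (.br (nat_lit 0) (.cons (.br (nat_lit 2) (.cons (.rel (nat_lit 142607424)) .nil)) .nil)) .leaf)))))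

/-- refutations 215 -/
def e215 : EX := (.node (.node (.node (.node (.node .leaf (nat_lit 25244874175121535) (.br (nat_lit 0) (.cons (.br (nat_lit 1) (.cons (.rel (nat_lit 22085634)) .nil)) .nil)) .leaf) (nat_lit 25244876797635835) (.br (nat_lit 2) (.cons (.br (nat_lit 0) (.cons (.rel (nat_lit 142868481)) (.cons (.rel (nat_lit 71827458)) .nil))) .nil)) .leaf) (nat_lit 25244876797696127) (.br (nat_lit 2) (.cons (.br (nat_lit 3) (.cons (.rel (nat_lit 336592914)) .nil)) .nil)) (.node .leaf (nat_lit 25244876797841535) (.br (nat_lit 1) (.cons (.br (nat_lit 3) (.cons (.rel (nat_lit 554959872)) .nil)) .nil)) .leaf)) (nat_lit 25244876797849735) (.br (nat_lit 0) (.cons (.br (nat_lit 6) (.cons (.rel (nat_lit 17185113090)) .nil)) .nil)) (.node (.node (.node .leaf (nat_lit 25244879384547638) (.br (nat_lit 1) (.cons (.br (nat_lit 4) (.cons (.rel (nat_lit 1091060736)) .nil)) .nil)) .leaf) (nat_lit 25244879402596662) (.br (nat_lit 0) (.cons (.br (nat_lit 3) (.cons (.rel (nat_lit 273154308)) .nil)) .nil)) .leaf) (nat_lit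 25244879417856127) (.br (nat_lit 1) (.cons (.br (nat_lit 4) (.cons (.rel (nat_lit 1090585728)) .nil)) .nil)) (.node .leaf (nat_lit 25244879418102070) (.br (nat_lit 0) (.cons (.br (nat_lit 5) (.cons (.rel (nat_lit 4299690240)) .nil)) .nil)) .leaf))) (nat_lit 25244879418783246) (.br (nat_lit 0) (.cons (.br (nat_lit 4) (.cons (.rel (nat_lit 1080295428)) .nil)) .nil)) (.node (.node (.node (.node .leaf (nat_lit 25244879419084935) (.br (nat_lit 0) (.cons (.br (nat_lit 3) (.cons (.rel (nat_lit 273154308)) .nil)) .nil)) .leaf) (nat_lit 25244879419136135) (.br (nat_lit 0) (.cons (.br (nat_lit 1) (.cons (.rel (nat_lit 21315648)) .nil)) .nil)) .leaf) (nat_lit 25244879419281543) (.br (nat_lit 0) (.cons (.br (nat_lit 3) (.cons (.rel (nat_lit 273171456)) .nil)) .nil)) (.node .leaf (nat_lit 25244879419289735) (.br (nat_lit 0) (.cons (.br (nat_lit 1) (.cons (.rel (nat_lit 37815300)) .nil)) .nil)) .leaf)) (nat_lit 25244879419373699) (.br (nat_lit 0) (.cons (.br (nat_lit 2) (.cons (.rel (nat_lit 142607424)) .nil)) .nil)) (.node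 (.node .leaf (nat_lit 25245016610605206) (.br (nat_lit 3) (.cons (.br (nat_lit 4) (.cons (.rel (nat_lit 1342702593)) .nil)) .nil)) .leaf) (nat_lit 25245016757313691) (.br (nat_lit 1) (.cons (.br (nat_lit 2) (.cons (.rel (nat_lit 84951057)) .nil)) .nil)) (.node .leaf (nat_lit 25247032351123613) (.br (nat_lit 0) (.cons (.br (nat_lit 2) (.cons (.rel (nat_lit 71566401)) .nil)) .nil)) .leaf))))

/-- refutations 216 -/
def e216 : EX := (.node (.node .leaf (nat_lit 25251659683457334) (.br (nat_lit 0) (.cons (.br (nat_lit 2) (.cons (.rel (nat_lit 75628800)) .nil)) .nil)) .leaf) (nat_lit 25251665467187510) (.br (nat_lit 0) (.cons (.br (nat_lit 1) (.cons (.rel (nat_lit 37815300)) .nil)) .nil)) (.node .leaf (nat_lit 25257729961439542) (.br (nat_lit 0) (.cons (.br (nat_lit 1) (.cons (.rel (nat_lit 25170180)) .nil)) .nil)) .leaf))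

/-- refutations 218 -/
def e218 : EX := (.node (.node .leaf (nat_lit 25280026768103604) (.br (nat_lit 0) (.cons (.br (nat_lit 2) (.cons (.rel (nat_lit 71827458)) .nil)) .nil)) .leaf) (nat_lit 25280026797406395) (.br (nat_lit 0) (.cons (.br (nat_lit 3) (.cons (.rel (nat_lit 273679380)) .nil)) .nil)) (.node .leaf (nat_lit 25280029186838553) (.br (nat_lit 0) (.cons (.br (nat_lit 1) (.cons (.rel (nat_lit 37750032)) .nil)) .nil)) .leaf))

/-- refutations 219 -/
def e219 : EX := (.node .leaf (nat_lit 25285873921368865) (.br (nat_lit 0) (.cons (.br (nat_lit 3) (.cons (.rel (nat_lit 272696448)) .nil)) .nil)) .leaf)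

/-- refutations 221 -/
def e221 : EX := (.node (.node .leaf (nat_lit 26406099839346823) (.br (nat_lit 1) (.cons (.br (nat_lit 2) (.cons (.rel (nat_lit 84940800)) .nil)) .nil)) .leaf) (nat_lit 26407173581169951) (.br (nat_lit 0) (.cons (.br (nat_lit 2) (.cons (.rel (nat_lit 71305344)) .nil)) .nil)) .leaf)

/-- refutations 222 -/
def e222 : EX := (.node (.node (.node .leaf (nat_lit 26416652167433497) (.br (nat_lit 1) (.cons (.br (nat_lit 2) (.cons (.rel (nat_lit 100667397)) .nil)) .nil)) .leaf) (nat_lit 26416652168455449) (.br (nat_lit 1) (.cons (.br (nat_lit 3) (.cons (.rel (nat_lit 285736977)) .nil)) .nil)) .leaf) (nat_lit 26417786592753117) (.br (nat_lit 5) (.cons (.br (nat_lit 6) (.cons (.rel (nat_lit 21475917825)) .nil)) .nil)) (.node (.node .leaf (nat_lit 26417788663102941) (.br (nat_lit 1) (.cons (.br (nat_lit 2) (.cons (.rel (nat_lit 84217920)) .nil)) .nil)) .leaf) (nat_lit 26417788664144007) (.br (nat_lit 0) (.cons (.br (nat_lit 4) (.cons (.rel (nat_lit 1078198848)) .nil)) .nil)) .leaf))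

/-- refutations 223 -/
def e223 : EX := (.node (.node (.node (.node (.node .leaf (nat_lit 26423515650713735) (.br (nat_lit 3) (.cons (.br (nat_lit 6) (.cons (.rel (nat_lit 17449353474)) .nil)) .nil)) .leaf) (nat_lit 26423515721339140) (.br (nat_lit 0) (.cons (.br (nat_lit 4) (.cons (.rel (nat_lit 1077940608)) .nil)) .nil)) .leaf) (nat_lit 26423518145075335) (.br (nat_lit 1) (.cons (.br (nat_lit 3) (.cons (.rel (nat_lit 570425412)) .nil)) .nil)) (.node .leaf (nat_lit 26423518146324615) (.br (nat_lit 2) (.cons (.br (nat_lit 3) (.cons (.rel (nat_lit 335548545)) (.cons (.rel (nat_lit 402657312)) .nil))) .nil)) .leaf)) (nat_lit 26423518148104327) (.br (nat_lit 2) (.cons (.br (nat_lit 6) (.cons (.rel (nat_lit 17247245376)) (.cons (.rel (nat_lit 17247506433)) (.cons (.rel (nat_lit 34426880001)) (.cons (.rel (nat_lit 17247245376)) (.cons (.rel (nat_lit 17247506433)) .nil)))))) .nil)) (.node (.node (.node .leaf (nat_lit 26423518148104947) (.br (nat_lit 3) (.cons (.br (nat_lit 6) (.cons (.rel (nat_lit 17449353474))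 .nil)) .nil)) .leaf) (nat_lit 26423518148104994) (.br (nat_lit 0) (.cons (.br (nat_lit 4) (.cons (.rel (nat_lit 1078468608)) (.cons (.rel (nat_lit 1077940608)) .nil))) (.cons (.br (nat_lit 3) (.cons (.rel (nat_lit 276826368)) (.cons (.rel (nat_lit 272896068)) .nil))) .nil))) .leaf) (nat_lit 26423518148105693) (.br (nat_lit 2) (.cons (.br (nat_lit 4) (.cons (.rel (nat_lit 1141915668)) (.cons (.rel (nat_lit 1141407744)) .nil))) .nil)) (.node .leaf (nat_lit 26423520228479111) (.br (nat_lit 2) (.cons (.br (nat_lit 3) (.cons (.rel (nat_lit 336592914)) (.cons (.rel (nat_lit 335548545)) .nil))) .nil)) .leaf))) (nat_lit 26423520230893703) (.br (nat_lit 3) (.cons (.br (nat_lit 4) (.cons (.rel (nat_lit 1343246340)) .nil)) .nil)) (.node (.node (.node (.node .leaf (nat_lit 26423520230894200) (.br (nat_lit 0) (.cons (.br (nat_lit 4) (.cons (.rel (nat_lit 2156138496)) (.cons (.rel (nat_lit 1078468608)) .nil))) .nil)) .leaf) (nat_lit 26423521405298823) (.br (nat_lit 0) (.cons (.br (nat_lit 2) (.cons (.rel (nat_lit 75497508))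 .nil)) .nil)) .leaf) (nat_lit 26423521507227658) (.br (nat_lit 0) (.cons (.br (nat_lit 3) (.cons (.rel (nat_lit 276829185)) .nil)) .nil)) (.node .leaf (nat_lit 26423521507534983) (.br (nat_lit 0) (.cons (.br (nat_lit 5) (.cons (.rel (nat_lit 4299162240)) .nil)) .nil)) .leaf)) (nat_lit 26423521507741826) (.br (nat_lit 1) (.cons (.br (nat_lit 3) (.cons (.rel (nat_lit 285475920)) .nil)) .nil)) (.node (.node .leaf (nat_lit 26423521507741831) (.br (nat_lit 1) (.cons (.br (nat_lit 3) (.cons (.rel (nat_lit 570425412)) .nil)) .nil)) .leaf) (nat_lit 26424592414216342) (.br (nat_lit 2) (.cons (.br (nat_lit 4) (.cons (.rel (nat_lit 1141407744)) .nil)) .nil)) (.node .leaf (nat_lit 26424592414217443) (.br (nat_lit 2) (.cons (.br (nat_lit 3) (.cons (.rel (nat_lit 402657312)) .nil)) .nil)) .leaf))))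

/-- refutations 224 -/
def e224 : EX := (.node (.node (.node (.node .leaf (nat_lit 26429316969288490) (.br (nat_lit 0) (.cons (.br (nat_lit 1) (.cons (.rel (nat_lit 22038528)) .nil)) .nil)) .leaf) (nat_lit 26430983325552775) (.br (nat_lit 0) (.cons (.br (nat_lit 2) (.cons (.rel (nat_lit 71305344)) .nil)) .nil)) .leaf) (nat_lit 26430984885833863) (.br (nat_lit 3) (.cons (.br (nat_lit 2) (.cons (.rel (nat_lit 335545728)) (.cons (.rel (nat_lit 604012584)) .nil))) .nil)) (.node (.node .leaf (nat_lit 26430984885834033) (.br (nat_lit 3) (.cons (.br (nat_lit 4) (.cons (.rel (nat_lit 1343234064)) .nil)) .nil)) .leaf) (nat_lit 26430984885834360) (.br (nat_lit 3) (.cons (.br (nat_lit 1) (.cons (.rel (nat_lit 553713684)) (.cons (.rel (nat_lit 286392336)) .nil))) .nil)) .leaf)) (nat_lit 26431474512105607) (.br (nat_lit 1) (.cons (.br (nat_lit 2) (.cons (.rel (nat_lit 84940800)) .nil)) .nil)) (.node (.node (.node .leaf (nat_lit 26434309190522208) (.br (nat_lit 0) (.cons (.br (nat_lit 3) (.cons (.rel (nat_lit 273679380))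 .nil)) .nil)) .leaf) (nat_lit 26435799888105607) (.br (nat_lit 6) (.cons (.br (nat_lit 0) (.cons (.rel (nat_lit 17185259520)) (.cons (.rel (nat_lit 34368398352)) .nil))) .nil)) .leaf) (nat_lit 26435799888107022) (.br (nat_lit 1) (.cons (.br (nat_lit 2) (.cons (.rel (nat_lit 151011588)) .nil)) .nil)) (.node .leaf (nat_lit 26435802278858887) (.br (nat_lit 1) (.cons (.br (nat_lit 2) (.cons (.rel (nat_lit 84934914)) .nil)) .nil)) .leaf)))

/-- refutations 225 -/
def e225 : EX := (.node (.node (.node (.node .leaf (nat_lit 26493884989548679) (.br (nat_lit 1) (.cons (.br (nat_lit 3) (.cons (.rel (nat_lit 285475920)) .nil)) .nil)) .leaf) (nat_lit 26493886875512888) (.br (nat_lit 1) (.cons (.br (nat_lit 6) (.cons (.rel (nat_lit 17213505537)) .nil)) .nil)) (.node .leaf (nat_lit 26493886875512967) (.br (nat_lit 1) (.cons (.br (nat_lit 2) (.cons (.rel (nat_lit 100728834)) (.cons (.rel (nat_lit 85000230)) .nil))) (.cons (.br (nat_lit 2) (.cons (.rel (nat_lit 100667397)) (.cons (.rel (nat_lit 100664580)) .nil))) .nil)))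 .leaf)) (nat_lit 26493886875513638) (.br (nat_lit 6) (.cons (.br (nat_lit 1) (.cons (.rel (nat_lit 34393554948)) (.cons (.rel (nat_lit 17196647568)) .nil))) .nil)) (.node (.node .leaf (nat_lit 26493886875514208) (.br (nat_lit 0) (.cons (.br (nat_lit 2) (.cons (.rel (nat_lit 71565396)) .nil)) .nil)) .leaf) (nat_lit 26493887018204442) (.br (nat_lit 0) (.cons (.br (nat_lit 1) (.cons (.rel (nat_lit 22021380)) .nil)) .nil)) .leaf)) (nat_lit 26493887018204636) (.br (nat_lit 1) (.cons (.br (nat_lit 3) (.cons (.rel (nat_lit 286281729)) .nil)) .nil)) (.node (.node (.node .leaf (nat_lit 26493888991834989) (.br (nat_lit 0) (.cons (.br (nat_lit 1) (.cons (.rel (nat_lit 41959488)) .nil)) .nil)) .leaf) (nat_lit 26493922007003271) (.br (nat_lit 0) (.cons (.br (nat_lit 2) (.cons (.rel (nat_lit 142868481)) .nil)) .nil)) (.node .leaf (nat_lit 26495207351464071) (.br (nat_lit 4) (.cons (.br (nat_lit 6) (.cons (.rel (nat_lit 36507369537)) .nil)) .nil)) .leaf)) (nat_lit 26495210371362822) (.br (nat_lit 0) (.cons (.br (nat_lit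 1) (.cons (.rel (nat_lit 37815300)) .nil)) .nil)) (.node (.node .leaf (nat_lit 26495210371362951) (.br (nat_lit 0) (.cons (.br (nat_lit 2) (.cons (.br (nat_lit 3) (.cons (.rel (nat_lit 335545728)) (.cons (.rel (nat_lit 272696448)) (.cons (.rel (nat_lit 402720768)) (.cons (.rel (nat_lit 604018176)) (.cons (.rel (nat_lit 273679380)) .nil)))))) (.cons (.rel (nat_lit 138478080)) .nil))) (.cons (.br (nat_lit 6) (.cons (.rel (nat_lit 17184129153)) (.cons (.rel (nat_lit 17184129153)) .nil))) .nil))) .leaf) (nat_lit 26495211843563655) (.br (nat_lit 2) (.cons (.br (nat_lit 3) (.cons (.rel (nat_lit 335545728)) .nil)) .nil)) .leaf)))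

/-- refutations 226 -/
def e226 : EX := (.node (.node (.node (.node .leaf (nat_lit 26500581794281607) (.br (nat_lit 0) (.cons (.br (nat_lit 2) (.cons (.rel (nat_lit 72385536)) .nil)) .nil)) .leaf) (nat_lit 26501448136077318) (.br (nat_lit 0) (.cons (.br (nat_lit 3) (.cons (.rel (nat_lit 276829185)) .nil)) .nil)) .leaf) (nat_lit 26501448136077337) (.br (nat_lit 0) (.cons (.br (nat_lit 2) (.cons (.rel (nat_lit 138412056)) (.cons (.rel (nat_lit 142607424)) .nil))) .nil)) (.node (.node .leaf (nat_lit 26501448136077944) (.br (nat_lit 2) (.cons (.br (nat_lit 3) (.cons (.rel (nat_lit 402669588)) .nil)) .nil)) .leaf) (nat_lit 26501448136078242) (.br (nat_lit 0) (.cons (.br (nat_lit 1) (.cons (.rel (nat_lit 22022433)) .nil)) .nil)) .leaf)) (nat_lit 26501448136078623) (.br (nat_lit 2) (.cons (.br (nat_lit 6) (.cons (.rel (nat_lit 17248026633)) .nil)) .nil)) (.node (.node (.node .leaf (nat_lit 26501448136078819) (.br (nat_lit 0) (.cons (.br (nat_lit 2) (.cons (.rel (nat_lit 71305344)) .nil)) .nil)) .leaf) (nat_lit 26501800323479558)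 (.br (nat_lit 0) (.cons (.br (nat_lit 1) (.cons (.rel (nat_lit 41959488)) .nil)) .nil)) .leaf) (nat_lit 26501800323479614) (.br (nat_lit 0) (.cons (.br (nat_lit 1) (.cons (.rel (nat_lit 41959488)) .nil)) .nil)) (.node .leaf (nat_lit 26505947286371181) (.br (nat_lit 0) (.cons (.br (nat_lit 1) (.cons (.rel (nat_lit 22024197)) .nil)) .nil)) .leaf)))

/-- refutations 227 -/
def e227 : EX := (.node (.node .leaf (nat_lit 24805241306992775) (.br (nat_lit 0) (.cons (.br (nat_lit 1) (.cons (.rel (nat_lit 21315648)) .nil)) .nil)) .leaf) (nat_lit 24805295379959943) (.br (nat_lit 1) (.cons (.br (nat_lit 5) (.cons (.rel (nat_lit 8606711826)) .nil)) .nil)) (.node .leaf (nat_lit 24805295380027527) (.br (nat_lit 0) (.cons (.br (nat_lit 2) (.cons (.rel (nat_lit 71827458)) .nil)) .nil)) .leaf))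

/-- refutations 228 -/
def e228 : EX := (.node .leaf (nat_lit 26584201053540389) (.br (nat_lit 0) (.cons (.br (nat_lit 2) (.cons (.rel (nat_lit 71305344)) .nil)) .nil)) .leaf)

/-- refutations 229 -/
def e229 : EX := (.node .leaf (nat_lit 26588513692573831) (.br (nat_lit 1) (.cons (.br (nat_lit 2) (.cons (.rel (nat_lit 84934914)) .nil)) .nil)) .leaf)

/-- refutations 230 -/
def e230 : EX := (.node (.node (.node (.node .leaf (nat_lit 26951283225598127) (.br (nat_lit 1) (.cons (.br (nat_lit 3) (.cons (.rel (nat_lit 570425412)) .nil)) .nil)) .leaf) (nat_lit 26951283226182258) (.br (nat_lit 1) (.cons (.br (nat_lit 3) (.cons (.rel (nat_lit 553653252)) .nil)) .nil)) .leaf) (nat_lit 26951285954910889) (.br (nat_lit 0) (.cons (.br (nat_lit 1) (.cons (.rel (nat_lit 22106376)) .nil)) .nil)) (.node (.node .leaf (nat_lit 26951507051020344) (.br (nat_lit 0) (.cons (.br (nat_lit 3) (.cons (.rel (nat_lit 272646273)) (.cons (.rel (nat_lit 541069569)) .nil))) .nil)) .leaf) (nat_lit 26951541427536007) (.br (nat_lit 2) (.cons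 (.br (nat_lit 6) (.cons (.rel (nat_lit 17248028688)) .nil)) .nil)) .leaf)) (nat_lit 26951711221350535) (.br (nat_lit 0) (.cons (.br (nat_lit 3) (.cons (.rel (nat_lit 276889617)) .nil)) .nil)) (.node (.node (.node .leaf (nat_lit 26952355588079751) (.br (nat_lit 2) (.cons (.br (nat_lit 4) (.cons (.rel (nat_lit 1141243968)) .nil)) .nil)) .leaf) (nat_lit 26952357160943751) (.br (nat_lit 2) (.cons (.br (nat_lit 3) (.cons (.rel (nat_lit 336134160)) .nil)) .nil)) .leaf) (nat_lit 26952358184353944) (.br (nat_lit 0) (.cons (.br (nat_lit 2) (.cons (.rel (nat_lit 71308929)) .nil)) .nil)) (.node (.node .leaf (nat_lit 26952358184354454) (.br (nat_lit 0) (.cons (.br (nat_lit 3) (.cons (.rel (nat_lit 272896068)) .nil)) .nil)) .leaf) (nat_lit 26952358184355218) (.br (nat_lit 0) (.cons (.br (nat_lit 1) (.cons (.rel (nat_lit 41959488)) .nil)) .nil)) .leaf)))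

/-- refutations 231 -/
def e231 : EX := (.node (.node (.node (.node .leaf (nat_lit 26952392573452423) (.br (nat_lit 1) (.cons (.br (nat_lit 4) (.cons (.rel (nat_lit 1107297312)) (.cons (.rel (nat_lit 1090535553)) .nil))) (.cons (.br (nat_lit 4) (.cons (.rel (nat_lit 2164260873)) (.cons (.rel (nat_lit 1090785348)) .nil))) .nil))) .leaf) (nat_lit 26952392573452540) (.br (nat_lit 1) (.cons (.br (nat_lit 4) (.cons (.rel (nat_lit 2181042504)) .nil)) .nil)) .leaf) (nat_lit 26952394158899335) (.br (nat_lit 0) (.cons (.br (nat_lit 1) (.cons (.rel (nat_lit 21626880)) (.cons (.rel (nat_lit 42270720)) .nil))) .nil)) (.node .leaf (nat_lit 26952409749127329) (.br (nat_lit 3) (.cons (.br (nat_lit 0) (.cons (.rel (nat_lit 272696448)) (.cons (.rel (nat_lit 272696448)) (.cons (.rel (nat_lit 272634009)) .nil)))) .nil)) .leaf)) (nat_lit 26952409749127419) (.br (nat_lit 1) (.cons (.br (nat_lit 6) (.cons (.br (nat_lit 4) (.cons (.rel (nat_lit 18253613184)) (.cons (.rel (nat_lit 35433480456)) .nil))) .nil)) .nil)) (.node (.node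 .leaf (nat_lit 26952830546870407) (.br (nat_lit 1) (.cons (.br (nat_lit 2) (.cons (.rel (nat_lit 100681728)) (.cons (.rel (nat_lit 84940800)) .nil))) (.cons (.br (nat_lit 6) (.cons (.rel (nat_lit 34376515845)) (.cons (.rel (nat_lit 17197170696)) .nil))) .nil))) .leaf) (nat_lit 26956661770944647) (.br (nat_lit 0) (.cons (.br (nat_lit 4) (.cons (.rel (nat_lit 1082130960)) (.cons (.rel (nat_lit 1082130960)) .nil))) .nil)) (.node .leaf (nat_lit 26957895974256775) (.br (nat_lit 0) (.cons (.br (nat_lit 3) (.cons (.rel (nat_lit 276889617)) .nil)) .nil)) .leaf)))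

/-- refutations 232 -/
def e232 : EX := (.node .leaf (nat_lit 26959008165265543) (.br (nat_lit 1) (.cons (.br (nat_lit 3) (.cons (.rel (nat_lit 285475920)) .nil)) .nil)) .leaf)

/-- refutations 233 -/
def e233 : EX := (.node .leaf (nat_lit 27045045611590442) (.br (nat_lit 1) (.cons (.br (nat_lit 2) (.cons (.rel (nat_lit 84164928)) .nil)) .nil)) .leaf)

/-- refutations 234 -/
def e234 : EX := (.node .leaf (nat_lit 27051444598253703) (.br (nat_lit 1) (.cons (.br (nat_lit 2) (.cons (.rel (nat_lit 84050304)) .nil)) .nil)) .leaf)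

/-- refutations 236 -/
def e236 : EX := (.node (.node .leaf (nat_lit 27303076623851655) (.br (nat_lit 0) (.cons (.br (nat_lit 2) (.cons (.rel (nat_lit 75497508)) .nil)) .nil)) .leaf) (nat_lit 27304203272626311) (.br (nat_lit 3) (.cons (.br (nat_lit 5) (.cons (.rel (nat_lit 4831838481)) .nil)) .nil)) (.node .leaf (nat_lit 27309572229210247) (.br (nat_lit 3) (.cons (.br (nat_lit 0) (.cons (.rel (nat_lit 272646273)) (.cons (.rel (nat_lit 541066752)) .nil))) .nil)) .leaf))

/-- refutations 237 -/
def e237 : EX := (.node (.node .leaf (nat_lit 27309616105824391) (.br (nat_lit 0) (.cons (.br (nat_lit 2) (.cons (.rel (nat_lit 72385536)) .nil)) .nil)) .leaf) (nat_lit 27314079289876615) (.br (nat_lit 0) (.cons (.br (nat_lit 1) (.cons (.rel (nat_lit 21365826)) .nil)) .nil)) (.node .leaf (nat_lit 27315413137268871) (.br (nat_lit 3) (.cons (.br (nat_lit 0) (.cons (.rel (nat_lit 276889617)) (.cons (.rel (nat_lit 276826368)) .nil))) .nil)) .leaf))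

/-- refutations 238 -/
def e238 : EX := (.node (.node .leaf (nat_lit 27355902108553376) (.br (nat_lit 2) (.cons (.br (nat_lit 3) (.cons (.rel (nat_lit 335548545)) .nil)) .nil)) .leaf) (nat_lit 27355904762964745) (.br (nat_lit 0) (.cons (.br (nat_lit 3) (.cons (.rel (nat_lit 272646273)) .nil)) .nil)) (.node .leaf (nat_lit 27355906088947874) (.br (nat_lit 0) (.cons (.br (nat_lit 1) (.cons (.rel (nat_lit 22021380)) .nil)) .nil)) .leaf))

/-- refutations 239 -/
def e239 : EX := (.node (.node .leaf (nat_lit 27366690447267168) (.br (nat_lit 0) (.cons (.br (nat_lit 1) (.cons (.rel (nat_lit 42270720)) .nil)) .nil)) .leaf) (nat_lit 27366690449838965) (.br (nat_lit 2) (.cons (.br (nat_lit 4) (.cons (.rel (nat_lit 1207982088)) .nil)) .nil)) (.node .leaf (nat_lit 27366690449839456) (.br (nat_lit 1) (.cons (.br (nat_lit 3) (.cons (.rel (nat_lit 285212808)) .nil)) .nil)) .leaf))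

/-- refutations 240 -/
def e240 : EX := (.node (.node (.node (.node .leaf (nat_lit 27391033679570208) (.br (nat_lit 0) (.cons (.br (nat_lit 1) (.cons (.rel (nat_lit 22021380)) .nil)) .nil)) .leaf) (nat_lit 27391033681146758) (.br (nat_lit 0) (.cons (.br (nat_lit 1) (.cons (.rel (nat_lit 37765125)) .nil)) .nil)) (.node .leaf (nat_lit 27391085219176583) (.br (nat_lit 1) (.cons (.br (nat_lit 3) (.cons (.rel (nat_lit 285212808)) .nil)) .nil)) .leaf)) (nat_lit 27391085219177760) (.br (nat_lit 1) (.cons (.br (nat_lit 6) (.cons (.rel (nat_lit 17197711617)) .nil)) .nil)) (.node (.node .leaf (nat_lit 27391088461374067) (.br (nat_lit 0) (.cons (.br (nat_lit 1) (.cons (.rel (nat_lit 41959488)) .nil)) .nil)) .leaf) (nat_lit 27391088492608245) (.br (nat_lit 0) (.cons (.br (nat_lit 3) (.cons (.rel (nat_lit 273680385)) .nil)) .nil)) .leaf)) (nat_lit 27391089134296600) (.br (nat_lit 0) (.cons (.br (nat_lit 1) (.cons (.rel (nat_lit 26476800)) .nil)) .nil)) (.node (.node (.node .leaf (nat_lit 27391091716154656) (.br (nat_lit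 1) (.cons (.br (nat_lit 4) (.cons (.rel (nat_lit 1107369984)) .nil)) .nil)) .leaf) (nat_lit 27391091739786651) (.br (nat_lit 0) (.cons (.br (nat_lit 4) (.cons (.rel (nat_lit 1080295428)) .nil)) .nil)) .leaf) (nat_lit 27392635072182402) (.br (nat_lit 0) (.cons (.br (nat_lit 1) (.cons (.rel (nat_lit 41959488)) .nil)) .nil)) (.node (.node .leaf (nat_lit 27392635072183772) (.br (nat_lit 0) (.cons (.br (nat_lit 2) (.cons (.rel (nat_lit 142868481)) .nil)) .nil)) .leaf) (nat_lit 27393405646550493) (.br (nat_lit 1) (.cons (.br (nat_lit 4) (.cons (.rel (nat_lit 1092091968)) .nil)) .nil)) .leaf)))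

/-- list of the parts -/
def L1 : List (ℕ × List ℕ) := [(nat_lit 0x80000000000000000000000000000000000000000000000000000000000000000000000000000000000000000000000000000000000000000000000000000000000000000000000000000000000000000000000000000000000000000000000000000000000, [Nat.sub (Nat.pow 2 691) (Nat.pow 2 0), Nat.sub (Nat.pow 2 1265) (Nat.pow 2 691), Nat.sub (Nat.pow 2 3136) (Nat.pow 2 1265)]),
  (nat_lit 0x400000000000000000000000000000000000000000000000000000000000000000000000000000000000000000000000000000000000000000000000000000000000000000000000000000000000000000000000000000000000000000000000000000000000, [Nat.sub (Nat.pow 2 14) (Nat.pow 2 0), Nat.sub (Nat.pow 2 760) (Nat.pow 2 14), Nat.sub (Nat.pow 2 1541) (Nat.pow 2 760), Nat.sub (Nat.pow 2 3136) (Nat.pow 2 1541)]),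
  (nat_lit 0x800000000000000000000000000000000000000000000000000000000000000000000000000000000000000000000000000000000000000000000000000000000000000000000000000000000000000000000000000000000000000000000000000000000000, [Nat.sub (Nat.pow 2 931) (Nat.pow 2 0), Nat.sub (Nat.pow 2 3136) (Nat.pow 2 931)]),
  (nat_lit 0x1000000000000000000000000000000000000000000000000000000000000000000000000000000000000000000000000000000000000000000000000000000000000000000000000000000000000000000000000000000000000000000000000000000000000, [Nat.sub (Nat.pow 2 909) (Nat.pow 2 0), Nat.sub (Nat.pow 2 3136) (Nat.pow 2 909)]),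
  (nat_lit 0x200000000000000000000000000000000000000000000000000000000000000000000000000000000000000000000000000000000000000000000000000000000000000000000000000000000000000000000000000000000000000000000000000000000000000000000000000000, [Nat.sub (Nat.pow 2 630) (Nat.pow 2 0), Nat.sub (Nat.pow 2 3136) (Nat.pow 2 630)]),
  (nat_lit 0x400000000000000000000000000000000000000000000000000000000000000000000000000000000000000000000000000000000000000000000000000000000000000000000000000000000000000000000000000000000000000000000000000000000000000000000000000000, [Nat.sub (Nat.pow 2 765) (Nat.pow 2 0), Nat.sub (Nat.pow 2 3136) (Nat.pow 2 765)]),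
  (nat_lit 0x2000000000000000000000000000000000000000000000000000000000000000000000000000000000000000000000000000000000000000000000000000000000000000000000000000000000000000000000000000000000000000000000000000000000000000000000000000000, [Nat.sub (Nat.pow 2 654) (Nat.pow 2 0), Nat.sub (Nat.pow 2 3136) (Nat.pow 2 654)]),
  (nat_lit 0x4000000000000000000000000000000000000000000000000000000000000000000000000000000000000000000000000000000000000000000000000000000000000000000000000000000000000000000000000000000000000000000000000000000000000000000000000000000, [Nat.sub (Nat.pow 2 636) (Nat.pow 2 0), Nat.sub (Nat.pow 2 3136) (Nat.pow 2 636)]),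
  (nat_lit 0x20000000000000000000000000000000000000000000000000000000000000000000000000000000000000000000000000000000000000000000000000000000000000000000000000000000000000000000000000000000000000000000000000000000000000000000000000000000000, [Nat.sub (Nat.pow 2 784) (Nat.pow 2 0), Nat.sub (Nat.pow 2 3136) (Nat.pow 2 784)]),
  (nat_lit 0x400000000000000000000000000000000000000000000000000000000000000000000000000000000000000000000000000000000000000000000000000000000000000000000000000000000000000000000000000000000000000000000000000000000000000000000000000000000000, [Nat.sub (Nat.pow 2 139) (Nat.pow 2 0), Nat.sub (Nat.pow 2 931) (Nat.pow 2 139), Nat.sub (Nat.pow 2 3136) (Nat.pow 2 931)]),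
  (nat_lit 0x20000000000000000000000000000000000000000000000000000000000000000000000000000000000000000000000000000000000000000000000000000000000000000000000000000000000000000000000000000000000000000000000, [cP]),
  (nat_lit 0x8000000000000000000000000000000000000000000000000000000000000000000000000000000000000000000000000000000000000000000000000000000000000000000000000000000000000000000000000000000000000000000000000000000000000000000000000000000000000, [Nat.sub (Nat.pow 2 760) (Nat.pow 2 0), Nat.sub (Nat.pow 2 1561) (Nat.pow 2 760), Nat.sub (Nat.pow 2 3136) (Nat.pow 2 1561)]),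
  (nat_lit 0x80000000000000000000000000000000000000000000000000000000000000000000000000000000000000000000000000000000000000000000000000000000000000000000000000000000000000000000000000000000000000000000000000000000000000000000000000000000000000000, [Nat.sub (Nat.pow 2 764) (Nat.pow 2 0), Nat.sub (Nat.pow 2 3136) (Nat.pow 2 764)]),
  (nat_lit 0x20000000000000000000000000000000000000000000000000000000000000000000000000000000000000000000000000000000000000000000000000000000000000000000000000000000000000000000000000000000000000000000000000000000000000000000000000000000000000000000, [Nat.sub (Nat.pow 2 41) (Nat.pow 2 0), Nat.sub (Nat.pow 2 890) (Nat.pow 2 41), Nat.sub (Nat.pow 2 3136) (Nat.pow 2 890)]),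
  (nat_lit 0x80000000000000000000000000000000000000000000000000000000000000000000000000000000000000000000000000000000000000000000000000000000000000000000000000000000000000000000000000000000000000000000000000000000000000000000000000000000000000000000000000000000000000000000000000000000000000000000000000000000000000000000000000, [Nat.sub (Nat.pow 2 765) (Nat.pow 2 0), Nat.sub (Nat.pow 2 3136) (Nat.pow 2 765)]),
  (nat_lit 0x20000000000000000000000000000000000000000000000000000000000000000000000000000000000000000000000000000000000000000000000000000000000000000000000000000000000000000000000000000000000000000000000000000000000000000000000000000000000000000000000000000000000000000000000000000000000000000000000000000000000000000000000000000, [Nat.sub (Nat.pow 2 765) (Nat.pow 2 0), Nat.sub (Nat.pow 2 3136) (Nat.pow 2 765)]),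
  (nat_lit 0x200000000000000000000000000000000000000000000000000000000000000000000000000000000000000000000000000000000000000000000000000000000000000000000000000000000000000000000000000000000000000000000000000000000000000000000000000000000000000000000000000000000000000000000000000000000000000000000000000000000000000000000000000000000, [Nat.sub (Nat.pow 2 786) (Nat.pow 2 0), Nat.sub (Nat.pow 2 1564) (Nat.pow 2 786), Nat.sub (Nat.pow 2 3136) (Nat.pow 2 1564)]),
  (nat_lit 0x2000000000000000000000000000000000000000000000000000000000000000000000000000000000000000000000000000000000000000000000000000000000000000000000000000000000000000000000000000000000000000000000000000000000000000000000000000000000000000000000000000000000000000000000000000000000000000000000000000000000000000000000000000000000, [Nat.sub (Nat.pow 2 804) (Nat.pow 2 0), Nat.sub (Nat.pow 2 3136) (Nat.pow 2 804)]),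
  (nat_lit 0x4000000000000000000000000000000000000000000000000000000000000000000000000000000000000000000000000000000000000000000000000000000000000000000000000000000000000000000000000000000000000000000000000000000000000000000000000000000000000000000000000000000000000000000000000000000000000000000000000000000000000000000000000000000000, [Nat.sub (Nat.pow 2 305) (Nat.pow 2 0), Nat.sub (Nat.pow 2 904) (Nat.pow 2 305), Nat.sub (Nat.pow 2 3136) (Nat.pow 2 904)]),
  (nat_lit 0x80000000000000000000000000000000000000000000000000000000000000000000000000000000000000000000000000000000000000000000000000000000000000000000000000000000000000000000000000000000000000000000000000000000000000000000000000000000000000000000000000000000000000000000000000000000000000000000000000000000000000000000000000000000000, [Nat.sub (Nat.pow 2 305) (Nat.pow 2 0), Nat.sub (Nat.pow 2 890) (Nat.pow 2 305), Nat.sub (Nat.pow 2 3136) (Nat.pow 2 890)]),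
  (nat_lit 0x800000000000000000000000000000000000000000000000000000000000000000000000000000000000000000000000000000000000000000000000000000000000000000000000000000000000000000000000000000000000000000000000000000000000000000000000000000000000, [cP]),
  (nat_lit 0x400000000000000000000000000000000000000000000000000000000000000000000000000000000000000000000000000000000000000000000000000000000000000000000000000000000000000000000000000000000000000000000000000000000000000000000000000000000000000000000000000000000000000000000000000000000000000000000000000000000000000000000000000000000000000, [Nat.sub (Nat.pow 2 754) (Nat.pow 2 0), Nat.sub (Nat.pow 2 1279) (Nat.pow 2 754), Nat.sub (Nat.pow 2 3136) (Nat.pow 2 1279)]),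
  (nat_lit 0x4000000000000000000000000000000000000000000000000000000000000000000000000000000000000000000000000000000000000000000000000000000000000000000000000000000000000000000000000000000000000000000000000000000000000000000000000000000000000000000000000000000000000000000000000000000000000000000000000000000000000000000000000000000000000000, [Nat.sub (Nat.pow 2 789) (Nat.pow 2 0), Nat.sub (Nat.pow 2 3136) (Nat.pow 2 789)]),
  (nat_lit 0x8000000000000000000000000000000000000000000000000000000000000000000000000000000000000000000000000000000000000000000000000000000000000000000000000000000000000000000000000000000000000000000000000000000000000000000000000000000000000000000000000000000000000000000000000000000000000000000000000000000000000000000000000000000000000000, [Nat.sub (Nat.pow 2 306) (Nat.pow 2 0), Nat.sub (Nat.pow 2 909) (Nat.pow 2 306), Nat.sub (Nat.pow 2 3136) (Nat.pow 2 909)]),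
  (nat_lit 0x100000000000000000000000000000000000000000000000000000000000000000000000000000000000000000000000000000000000000000000000000000000000000000000000000000000000000000000000000000000000000000000000000000000000000000000000000000000000000000000000000000000000000000000000000000000000000000000000000000000000000000000000000000000000000, [cP]),
  (nat_lit 0x1000000000000000000000000000000000000000000000000000000000000000000000000000000000000000000000000000000000000000000000000000000000000000000000000000000000000000000000000000000000000000000000000000000000000000000000000000000000000000000000000000000000000000000000000000000000000000000000000000000000000000000000000000000000000000000000000000000000, [Nat.sub (Nat.pow 2 309) (Nat.pow 2 0), Nat.sub (Nat.pow 2 3136) (Nat.pow 2 309)]),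
  (nat_lit 0x2000000000000000000000000000000000000000000000000000000000000000000000000000000000000000000000000000000000000000000000000000000000000000000000000000000000000000000000000000000000000000000000000000000000000000000000000000000000000000000000000000000000000000000000000000000000000000000000000000000000000000000000000000000000000000000000000000000000, [Nat.sub (Nat.pow 2 190) (Nat.pow 2 0), Nat.sub (Nat.pow 2 931) (Nat.pow 2 190), Nat.sub (Nat.pow 2 3136) (Nat.pow 2 931)]),
  (nat_lit 0x20000000000000000000000000000000000000000000000000000000000000000000000000000000000000000000000000000000000000000000000000000000000000000000000000000000000000000000000000000000000000000000000000000000000000000000000000000000000000000000000000000000000000000000000000000000000000000000000000000000000000000000000000000000000000000000000000000000000, [Nat.sub (Nat.pow 2 636) (Nat.pow 2 0), Nat.sub (Nat.pow 2 3136) (Nat.pow 2 636)]),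
  (nat_lit 0x800000000000000000000000000000000000000000000000000000000000000000000000000000000000000000000000000000000000000000000000000000000000000000000000000000000000000000000000000000000000000000000000000000000000000000000000000000000000000000000000000000000000000000000000000000000000000000000000000000000000000000000000000000000000000000000000000000000, [cP]),
  (nat_lit 0x400000000000000000000000000000000000000000000000000000000000000000000000000000000000000000000000000000000000000000000000000000000000000000000000000000000000000000000000000000000000000000000000000000000000000000000000000000000000000000000000000000000000000000000000000000000000000000000000000000000000000000000000000000000000000000000000000000000000, [Nat.sub (Nat.pow 2 755) (Nat.pow 2 0), Nat.sub (Nat.pow 2 3136) (Nat.pow 2 755)]),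
  (nat_lit 0x2000000000000000000000000000000000000000000000000000000000000000000000000000000000000000000000000000000000000000000000000000000000000000000000000000000000000000000000000000000000000000000000000000000000000000000000000000000000000000000000000000000000000000000000000000000000000000000000000000000000000000000000000000000000000000000000000000000000000000, [Nat.sub (Nat.pow 2 284) (Nat.pow 2 0), Nat.sub (Nat.pow 2 3136) (Nat.pow 2 284)]),
  (nat_lit 0x4000000000000000000000000000000000000000000000000000000000000000000000000000000000000000000000000000000000000000000000000000000000000000000000000000000000000000000000000000000000000000000000000000000000000000000000000000000000000000000000000000000000000000000000000000000000000000000000000000000000000000000000000000000000000000000000000000000000000000, [Nat.sub (Nat.pow 2 189) (Nat.pow 2 0), Nat.sub (Nat.pow 2 764) (Nat.pow 2 189), Nat.sub (Nat.pow 2 3136) (Nat.pow 2 764)]),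
  (nat_lit 0x40000000000000000000000000000000000000000000000000000000000000000000000000000000000000000000000000000000000000000000000000000000000000000000000000000000000000000000000000000000000000000000000000000000000000000000000000000000000000000000000000000000000000000000000000000000000000000000000000000000000000000000000000000000000000000000000000000000000000000, [Nat.sub (Nat.pow 2 636) (Nat.pow 2 0), Nat.sub (Nat.pow 2 3136) (Nat.pow 2 636)]),
  (nat_lit 0x80000000000000000000000000000000000000000000000000000000000000000000000000000000000000000000000000000000000000000000000000000000000000000000000000000000000000000000000000000000000000000000000000000000000000000000000000000000000000000000000000000000000000000000000000000000000000000000000000000000000000000000000000000000000000000000000000000000000000000, [Nat.sub (Nat.pow 2 690) (Nat.pow 2 0), Nat.sub (Nat.pow 2 3136) (Nat.pow 2 690)]),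
  (nat_lit 0x40000000000000000000000000000000000000000000000000000000000000000000000000000000000000000000000000000000000000000000000000000000000000000000000000000000000000000000000000000000000000000000000000000000000000000000000000000000000000000000000000000000000000000000000000000000000000000000000000000000000000000000000000000000000000000000000000000000000, [cP]),
  (nat_lit 0x8000000000000000000000000000000000000000000000000000000000000000000000000000000000000000000000000000000000000000000000000000000000000000000000000000000000000000000000000000000000000000000000000000000000000000000000000000000000000000000000000000000000000000000000000000000000000000000000000000000000000000000000000000000000000000000000000000000000000000000000, [Nat.sub (Nat.pow 2 14) (Nat.pow 2 0), Nat.sub (Nat.pow 2 309) (Nat.pow 2 14), Nat.sub (Nat.pow 2 931) (Nat.pow 2 309), Nat.sub (Nat.pow 2 3136) (Nat.pow 2 931)]),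
  (nat_lit 0x40000000000000000000000000000000000000000000000000000000000000000000000000000000000000000000000000000000000000000000000000000000000000000000000000000000000000000000000000000000000000000000000000000000000000000000000000000000000000000000000000000000000000000000000000000000000000000000000000000000000000000000000000000000000000000000000000000000000000000000000, [Nat.sub (Nat.pow 2 791) (Nat.pow 2 0), Nat.sub (Nat.pow 2 3136) (Nat.pow 2 791)]),
  (nat_lit 0x80000000000000000000000000000000000000000000000000000000000000000000000000000000000000000000000000000000000000000000000000000000000000000000000000000000000000000000000000000000000000000000000000000000000000000000000000000000000000000000000000000000000000000000000000000000000000000000000000000000000000000000000000000000000000000000000000000000000000000000000, [Nat.sub (Nat.pow 2 14) (Nat.pow 2 0), Nat.sub (Nat.pow 2 790) (Nat.pow 2 14), Nat.sub (Nat.pow 2 3136) (Nat.pow 2 790)]),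
  (nat_lit 0x100000000000000000000000000000000000000000000000000000000000000000000000000000000000000000000000000000000000000000000000000000000000000000000000000000000000000000000000000000000000000000000000000000000000000000000000000000000000000000000000000000000000000000000000000000000000000000000000000000000000000000000000000000000000000000000000000000000000000000000000, [Nat.sub (Nat.pow 2 809) (Nat.pow 2 0), Nat.sub (Nat.pow 2 3136) (Nat.pow 2 809)]),
  (nat_lit 0x800000000000000000000000000000000000000000000000000000000000000000000000000000000000000000000000000000000000000000000000000000000000000000000000000000000000000000000000000000000000000000000000000000000000000000000000000000000000000000000000000000000000000000000000000000000000000000000000000000000000000000000000000000000000000000000000000000000000000000000000, [Nat.sub (Nat.pow 2 14) (Nat.pow 2 0), Nat.sub (Nat.pow 2 689) (Nat.pow 2 14), Nat.sub (Nat.pow 2 1556) (Nat.pow 2 689), Nat.sub (Nat.pow 2 3136) (Nat.pow 2 1556)]),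
  (nat_lit 0x2000000000000000000000000000000000000000000000000000000000000000000000000000000000000000000000000000000000000000000000000000000000000000000000000000000000000000000000000000000000000000000000000000000000000000000000000000000000000000000000000000000000000000000000000000000000000000000000000000000000000000000000000000000000000000000000000000000000000000000000000, [Nat.sub (Nat.pow 2 305) (Nat.pow 2 0), Nat.sub (Nat.pow 2 1266) (Nat.pow 2 305), Nat.sub (Nat.pow 2 3136) (Nat.pow 2 1266)]),
  (nat_lit 0x20000000000000000000000000000000000000000000000000000000000000000000000000000000000000000000000000000000000000000000000000000000000000000000000000000000000000000000000000000000000000000000000000000000000000000000000000000000000000000000000000000000000000000000000000000000000000000000000000000000000000000000000000000000000000000000000000000000000000000000000000000000000000000, [Nat.sub (Nat.pow 2 904) (Nat.pow 2 0), Nat.sub (Nat.pow 2 3136) (Nat.pow 2 904)]),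
  (nat_lit 0x40000000000000000000000000000000000000000000000000000000000000000000000000000000000000000000000000000000000000000000000000000000000000000000000000000000000000000000000000000000000000000000000000000000000000000000000000000000000000000000000000000000000000000000000000000000000000000000000000000000000000000000000000000000000000000000000000000000000000000000000000000000000000000, [Nat.sub (Nat.pow 2 636) (Nat.pow 2 0), Nat.sub (Nat.pow 2 3136) (Nat.pow 2 636)]),
  (nat_lit 0x400000000000000000000000000000000000000000000000000000000000000000000000000000000000000000000000000000000000000000000000000000000000000000000000000000000000000000000000000000000000000000000000000000000000000000000000000000000000000000000000000000000000000000000000000000000000000000000000000000000000000000000000000000000000000000000000000000000000000000000000000000000000000000, [Nat.sub (Nat.pow 2 754) (Nat.pow 2 0), Nat.sub (Nat.pow 2 3136) (Nat.pow 2 754)]),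
  (nat_lit 0x400000000000000000000000000000000000000000000000000000000000000000000000000000000000000000000000000000000000000000000000000000000000000000000000000000000000000000000000000000000000000000000000000000000000000000000000000000000000000000000000000000000000000000000000000000000000000000000000000000000000000000000000000000000000000000000000000000000000000000, [cP]),
  (nat_lit 0x8000000000000000000000000000000000000000000000000000000000000000000000000000000000000000000000000000000000000000000000000000000000000000000000000000000000000000000000000000000000000000000000000000000000000000000000000000000000000000000000000000000000000000000000000000000000000000000000000000000000000000000000000000000000000000000000000000000000000000000000000000000000000000000, [Nat.sub (Nat.pow 2 765) (Nat.pow 2 0), Nat.sub (Nat.pow 2 3136) (Nat.pow 2 765)]),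
  (nat_lit 0x1000000000000000000000000000000000000000000000000000000000000000000000000000000000000000000000000000000000000000000000000000000000000000000000000000000000000000000000000000000000000000000000000000000000000000000000000000000000000000000000000000000000000000000000000000000000000000000000000000000000000000000000000000000000000000000000000000000000000000000000000000000000000000000000000, [Nat.sub (Nat.pow 2 139) (Nat.pow 2 0), Nat.sub (Nat.pow 2 804) (Nat.pow 2 139), Nat.sub (Nat.pow 2 3136) (Nat.pow 2 804)]),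
  (nat_lit 0x20000000000000000000000000000000000000000000000000000000000000000000000000000000000000000000000000000000000000000000000000000000000000000000000000000000000000000000000000000000000000000000000000000000000000000000000000000000000000000000000000000000000000000000000000000000000000000000000000000000000000000000000000000000000000000000000000000000000000000000000000000000000000000000000000, [Nat.sub (Nat.pow 2 791) (Nat.pow 2 0), Nat.sub (Nat.pow 2 1559) (Nat.pow 2 791), Nat.sub (Nat.pow 2 3136) (Nat.pow 2 1559)]),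
  (nat_lit 0x100000000000000000000000000000000000000000000000000000000000000000000000000000000000000000000000000000000000000000000000000000000000000000000000000000000000000000000000000000000000000000000000000000000000000000000000000000000000000000000000000000000000000000000000000000000000000000000000000000000000000000000000000000000000000000000000000000000000000000000000000000000000000000000000000000, [Nat.sub (Nat.pow 2 764) (Nat.pow 2 0), Nat.sub (Nat.pow 2 3136) (Nat.pow 2 764)]),
  (nat_lit 0x800000000000000000000000000000000000000000000000000000000000000000000000000000000000000000000000000000000000000000000000000000000000000000000000000000000000000000000000000000000000000000000000000000000000000000000000000000000000000000000000000000000000000000000000000000000000000000000000000000000000000000000000000000000000000000000000000000000000000000000000000000000000000000000000000000, [Nat.sub (Nat.pow 2 189) (Nat.pow 2 0), Nat.sub (Nat.pow 2 3136) (Nat.pow 2 189)]),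
  (nat_lit 0x2000000000000000000000000000000000000000000000000000000000000000000000000000000000000000000000000000000000000000000000000000000000000000000000000000000000000000000000000000000000000000000000000000000000000000000000000000000000000000000000000000000000000000000000000000000000000000000000000000000000000000000000000000000000000000000000000000000000000000000000000000000000000000000000000000000, [Nat.sub (Nat.pow 2 284) (Nat.pow 2 0), Nat.sub (Nat.pow 2 1529) (Nat.pow 2 284), Nat.sub (Nat.pow 2 3136) (Nat.pow 2 1529)]),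
  (nat_lit 0x800000000000000000000000000000000000000000000000000000000000000000000000000000000000000000000000000000000000000000000000000000000000000000000000000000000000000000000000000000000000000000000000000000000000000000000000000000000000000000000000000000000000000000000000000000000000000000000000000000000000000000000000000000000000000000000000000000000000000000000000000000000000000000, [cP])]

theorem hp1 : ∀ p ∈ L1, ∀ D2 ∈ p.2, ∃ e,
    search ext94 (Pool.Agent.H74.EGZ.vio sb) G Uc A0 p.1 D2 e = true :=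
  (List.forall_mem_cons.2 ⟨(List.forall_mem_cons.2 ⟨⟨.leaf, by decide +kernel⟩,
  (List.forall_mem_cons.2 ⟨⟨e126, by decide +kernel⟩,
  (List.forall_mem_singleton.2 ⟨.leaf, by decide +kernel⟩)⟩)⟩),
  (List.forall_mem_cons.2 ⟨(List.forall_mem_cons.2 ⟨⟨e128, by decide +kernel⟩,
  (List.forall_mem_cons.2 ⟨⟨e129, by decide +kernel⟩,
  (List.forall_mem_cons.2 ⟨⟨e130, by decide +kernel⟩,
  (List.forall_mem_singleton.2 ⟨.leaf, by decide +kernel⟩)⟩)⟩)⟩),
  (List.forall_mem_cons.2 ⟨(List.forall_mem_cons.2 ⟨⟨e132, by decide +kernel⟩,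
  (List.forall_mem_singleton.2 ⟨e133, by decide +kernel⟩)⟩),
  (List.forall_mem_cons.2 ⟨(List.forall_mem_cons.2 ⟨⟨e134, by decide +kernel⟩,
  (List.forall_mem_singleton.2 ⟨e135, by decide +kernel⟩)⟩),
  (List.forall_mem_cons.2 ⟨(List.forall_mem_cons.2 ⟨⟨e136, by decide +kernel⟩,
  (List.forall_mem_singleton.2 ⟨e137, by decide +kernel⟩)⟩),
  (List.forall_mem_cons.2 ⟨(List.forall_mem_cons.2 ⟨⟨e138, by decide +kernel⟩,
  (List.forall_mem_singleton.2 ⟨e139, by decide +kernel⟩)⟩),
  (List.forall_mem_cons.2 ⟨(List.forall_mem_cons.2 ⟨⟨e140, by decide +kernel⟩,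
  (List.forall_mem_singleton.2 ⟨.leaf, by decide +kernel⟩)⟩),
  (List.forall_mem_cons.2 ⟨(List.forall_mem_cons.2 ⟨⟨.leaf, by decide +kernel⟩,
  (List.forall_mem_singleton.2 ⟨.leaf, by decide +kernel⟩)⟩),
  (List.forall_mem_cons.2 ⟨(List.forall_mem_cons.2 ⟨⟨e144, by decide +kernel⟩,
  (List.forall_mem_singleton.2 ⟨e145, by decide +kernel⟩)⟩),
  (List.forall_mem_cons.2 ⟨(List.forall_mem_cons.2 ⟨⟨e146, by decide +kernel⟩,
  (List.forall_mem_cons.2 ⟨⟨.leaf, by decide +kernel⟩,
  (List.forall_mem_singleton.2 ⟨e148, by decide +kernel⟩)⟩)⟩),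
  (List.forall_mem_cons.2 ⟨(List.forall_mem_singleton.2 ⟨e149, by decide +kernel⟩),
  (List.forall_mem_cons.2 ⟨(List.forall_mem_cons.2 ⟨⟨e150, by decide +kernel⟩,
  (List.forall_mem_cons.2 ⟨⟨e151, by decide +kernel⟩,
  (List.forall_mem_singleton.2 ⟨.leaf, by decide +kernel⟩)⟩)⟩),
  (List.forall_mem_cons.2 ⟨(List.forall_mem_cons.2 ⟨⟨e153, by decide +kernel⟩,
  (List.forall_mem_singleton.2 ⟨e154, by decide +kernel⟩)⟩),
  (List.forall_mem_cons.2 ⟨(List.forall_mem_cons.2 ⟨⟨e155, by decide +kernel⟩,
  (List.forall_mem_cons.2 ⟨⟨e156, by decide +kernel⟩,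
  (List.forall_mem_singleton.2 ⟨e157, by decide +kernel⟩)⟩)⟩),
  (List.forall_mem_cons.2 ⟨(List.forall_mem_cons.2 ⟨⟨e158, by decide +kernel⟩,
  (List.forall_mem_singleton.2 ⟨e159, by decide +kernel⟩)⟩),
  (List.forall_mem_cons.2 ⟨(List.forall_mem_cons.2 ⟨⟨.leaf, by decide +kernel⟩,
  (List.forall_mem_singleton.2 ⟨e161, by decide +kernel⟩)⟩),
  (List.forall_mem_cons.2 ⟨(List.forall_mem_cons.2 ⟨⟨e162, by decide +kernel⟩,
  (List.forall_mem_cons.2 ⟨⟨e163, by decide +kernel⟩,
  (List.forall_mem_singleton.2 ⟨.leaf, by decide +kernel⟩)⟩)⟩),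
  (List.forall_mem_cons.2 ⟨(List.forall_mem_cons.2 ⟨⟨e165, by decide +kernel⟩,
  (List.forall_mem_singleton.2 ⟨e166, by decide +kernel⟩)⟩),
  (List.forall_mem_cons.2 ⟨(List.forall_mem_cons.2 ⟨⟨e167, by decide +kernel⟩,
  (List.forall_mem_cons.2 ⟨⟨e168, by decide +kernel⟩,
  (List.forall_mem_singleton.2 ⟨.leaf, by decide +kernel⟩)⟩)⟩),
  (List.forall_mem_cons.2 ⟨(List.forall_mem_cons.2 ⟨⟨e170, by decide +kernel⟩,
  (List.forall_mem_cons.2 ⟨⟨e171, by decide +kernel⟩,
  (List.forall_mem_singleton.2 ⟨e172, by decide +kernel⟩)⟩)⟩),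
  (List.forall_mem_cons.2 ⟨(List.forall_mem_singleton.2 ⟨e173, by decide +kernel⟩),
  (List.forall_mem_cons.2 ⟨(List.forall_mem_cons.2 ⟨⟨e174, by decide +kernel⟩,
  (List.forall_mem_cons.2 ⟨⟨.leaf, by decide +kernel⟩,
  (List.forall_mem_singleton.2 ⟨.leaf, by decide +kernel⟩)⟩)⟩),
  (List.forall_mem_cons.2 ⟨(List.forall_mem_cons.2 ⟨⟨.leaf, by decide +kernel⟩,
  (List.forall_mem_singleton.2 ⟨e178, by decide +kernel⟩)⟩),
  (List.forall_mem_cons.2 ⟨(List.forall_mem_cons.2 ⟨⟨e179, by decide +kernel⟩,
  (List.forall_mem_cons.2 ⟨⟨e180, by decide +kernel⟩,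
  (List.forall_mem_singleton.2 ⟨e181, by decide +kernel⟩)⟩)⟩),
  (List.forall_mem_cons.2 ⟨(List.forall_mem_singleton.2 ⟨e182, by decide +kernel⟩),
  (List.forall_mem_cons.2 ⟨(List.forall_mem_cons.2 ⟨⟨e183, by decide +kernel⟩,
  (List.forall_mem_singleton.2 ⟨e184, by decide +kernel⟩)⟩),
  (List.forall_mem_cons.2 ⟨(List.forall_mem_cons.2 ⟨⟨e185, by decide +kernel⟩,
  (List.forall_mem_cons.2 ⟨⟨e186, by decide +kernel⟩,
  (List.forall_mem_singleton.2 ⟨e187, by decide +kernel⟩)⟩)⟩),
  (List.forall_mem_cons.2 ⟨(List.forall_mem_cons.2 ⟨⟨.leaf, by decide +kernel⟩,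
  (List.forall_mem_singleton.2 ⟨.leaf, by decide +kernel⟩)⟩),
  (List.forall_mem_cons.2 ⟨(List.forall_mem_singleton.2 ⟨.leaf, by decide +kernel⟩),
  (List.forall_mem_cons.2 ⟨(List.forall_mem_cons.2 ⟨⟨e191, by decide +kernel⟩,
  (List.forall_mem_singleton.2 ⟨.leaf, by decide +kernel⟩)⟩),
  (List.forall_mem_cons.2 ⟨(List.forall_mem_cons.2 ⟨⟨e193, by decide +kernel⟩,
  (List.forall_mem_singleton.2 ⟨e194, by decide +kernel⟩)⟩),
  (List.forall_mem_cons.2 ⟨(List.forall_mem_cons.2 ⟨⟨e195, by decide +kernel⟩,
  (List.forall_mem_cons.2 ⟨⟨.leaf, by decide +kernel⟩,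
  (List.forall_mem_singleton.2 ⟨e197, by decide +kernel⟩)⟩)⟩),
  (List.forall_mem_cons.2 ⟨(List.forall_mem_cons.2 ⟨⟨e198, by decide +kernel⟩,
  (List.forall_mem_singleton.2 ⟨e199, by decide +kernel⟩)⟩),
  (List.forall_mem_cons.2 ⟨(List.forall_mem_cons.2 ⟨⟨e200, by decide +kernel⟩,
  (List.forall_mem_singleton.2 ⟨e201, by decide +kernel⟩)⟩),
  (List.forall_mem_cons.2 ⟨(List.forall_mem_singleton.2 ⟨e202, by decide +kernel⟩),
  (List.forall_mem_cons.2 ⟨(List.forall_mem_cons.2 ⟨⟨e203, by decide +kernel⟩,
  (List.forall_mem_cons.2 ⟨⟨e204, by decide +kernel⟩,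
  (List.forall_mem_cons.2 ⟨⟨e205, by decide +kernel⟩,
  (List.forall_mem_singleton.2 ⟨e206, by decide +kernel⟩)⟩)⟩)⟩),
  (List.forall_mem_cons.2 ⟨(List.forall_mem_cons.2 ⟨⟨e207, by decide +kernel⟩,
  (List.forall_mem_singleton.2 ⟨e208, by decide +kernel⟩)⟩),
  (List.forall_mem_cons.2 ⟨(List.forall_mem_cons.2 ⟨⟨e209, by decide +kernel⟩,
  (List.forall_mem_cons.2 ⟨⟨e210, by decide +kernel⟩,
  (List.forall_mem_singleton.2 ⟨e211, by decide +kernel⟩)⟩)⟩),
  (List.forall_mem_cons.2 ⟨(List.forall_mem_cons.2 ⟨⟨e212, by decide +kernel⟩,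
  (List.forall_mem_singleton.2 ⟨e213, by decide +kernel⟩)⟩),
  (List.forall_mem_cons.2 ⟨(List.forall_mem_cons.2 ⟨⟨e214, by decide +kernel⟩,
  (List.forall_mem_cons.2 ⟨⟨e215, by decide +kernel⟩,
  (List.forall_mem_cons.2 ⟨⟨e216, by decide +kernel⟩,
  (List.forall_mem_singleton.2 ⟨.leaf, by decide +kernel⟩)⟩)⟩)⟩),
  (List.forall_mem_cons.2 ⟨(List.forall_mem_cons.2 ⟨⟨e218, by decide +kernel⟩,
  (List.forall_mem_cons.2 ⟨⟨e219, by decide +kernel⟩,
  (List.forall_mem_singleton.2 ⟨.leaf, by decide +kernel⟩)⟩)⟩),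
  (List.forall_mem_cons.2 ⟨(List.forall_mem_cons.2 ⟨⟨e221, by decide +kernel⟩,
  (List.forall_mem_singleton.2 ⟨e222, by decide +kernel⟩)⟩),
  (List.forall_mem_cons.2 ⟨(List.forall_mem_cons.2 ⟨⟨e223, by decide +kernel⟩,
  (List.forall_mem_singleton.2 ⟨e224, by decide +kernel⟩)⟩),
  (List.forall_mem_cons.2 ⟨(List.forall_mem_cons.2 ⟨⟨e225, by decide +kernel⟩,
  (List.forall_mem_singleton.2 ⟨e226, by decide +kernel⟩)⟩),
  (List.forall_mem_cons.2 ⟨(List.forall_mem_singleton.2 ⟨e227, by decide +kernel⟩),
  (List.forall_mem_cons.2 ⟨(List.forall_mem_cons.2 ⟨⟨e228, by decide +kernel⟩,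
  (List.forall_mem_singleton.2 ⟨e229, by decide +kernel⟩)⟩),
  (List.forall_mem_cons.2 ⟨(List.forall_mem_cons.2 ⟨⟨e230, by decide +kernel⟩,
  (List.forall_mem_cons.2 ⟨⟨e231, by decide +kernel⟩,
  (List.forall_mem_singleton.2 ⟨e232, by decide +kernel⟩)⟩)⟩),
  (List.forall_mem_cons.2 ⟨(List.forall_mem_cons.2 ⟨⟨e233, by decide +kernel⟩,
  (List.forall_mem_cons.2 ⟨⟨e234, by decide +kernel⟩,
  (List.forall_mem_singleton.2 ⟨.leaf, by decide +kernel⟩)⟩)⟩),
  (List.forall_mem_cons.2 ⟨(List.forall_mem_cons.2 ⟨⟨e236, by decide +kernel⟩,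
  (List.forall_mem_singleton.2 ⟨e237, by decide +kernel⟩)⟩),
  (List.forall_mem_cons.2 ⟨(List.forall_mem_cons.2 ⟨⟨e238, by decide +kernel⟩,
  (List.forall_mem_singleton.2 ⟨e239, by decide +kernel⟩)⟩),
  (List.forall_mem_cons.2 ⟨(List.forall_mem_cons.2 ⟨⟨e240, by decide +kernel⟩,
  (List.forall_mem_cons.2 ⟨⟨.leaf, by decide +kernel⟩,
  (List.forall_mem_singleton.2 ⟨.leaf, by decide +kernel⟩)⟩)⟩),
  (List.forall_mem_singleton.2 (List.forall_mem_singleton.2 ⟨.leaf, by decide +kernel⟩))⟩)⟩)⟩)⟩)⟩)⟩)⟩)⟩)⟩)⟩)⟩)⟩)⟩)⟩)⟩)⟩)⟩)⟩)⟩)⟩)⟩)⟩)⟩)⟩)⟩)⟩)⟩)⟩)⟩)⟩)⟩)⟩)⟩)⟩)⟩)⟩)⟩)⟩)⟩)⟩)⟩)⟩)⟩)⟩)⟩)⟩)⟩)⟩)⟩)⟩)⟩)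

end

end Pool.Agent.H21.EGZ.S1
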