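import Pool.Agent.H21.EGZ.D20

/-!
# Stage 20 : search, part 0
-/

set_option autoImplicit false
set_option maxRecDepth 100000

namespace Pool.Agent.H21.EGZ.S20

noncomputable section

open Pool.Agent.H74.EGZ Pool.Agent.H94.Lift

/-- refutations 0 -/
def e0 : EX := (.node (.node (.node (.node (.node (.node (.node .leaf (nat_lit 17612032383727) (.br (nat_lit 3) (.cons (.br (nat_lit 4) (.cons (.rel (nat_lit 1342185984)) .nil)) .nil)) .leaf) (nat_lit 17826778174696) (.br (nat_lit 4) (.cons (.br (nat_lit 0) (.cons (.rel (nat_lit 1078214658)) (.cons (.rel (nat_lit 1082130528)) .nil))) .nil)) (.node .leaf (nat_lit 17826778174725) (.br (nat_lit 1) (.cons (.br (nat_lit 2) (.cons (.rel (nat_lit 84148740)) .nil)) .nil)) .leaf)) (nat_lit 17826780798982) (.br (nat_lit 5) (.cons (.br (nat_lit 6) (.cons (.rel (nat_lit 21474845697)) .nil)) .nil)) (.node (.node .leaf (nat_lit 17826780799278) (.br (nat_lit 6) (.cons (.br (nat_lit 4) (.cons (.rel (nat_lit 35433517056)) (.cons (.rel (nat_lit 35433517056))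 .nil))) .nil)) .leaf) (nat_lit 17826780799283) (.br (nat_lit 1) (.cons (.br (nat_lit 3) (.cons (.rel (nat_lit 285214080)) .nil)) .nil)) .leaf)) (nat_lit 17826780799613) (.br (nat_lit 0) (.cons (.br (nat_lit 2) (.cons (.rel (nat_lit 71305536)) .nil)) .nil)) (.node (.node (.node .leaf (nat_lit 17826780800231) (.br (nat_lit 5) (.cons (.br (nat_lit 0) (.cons (.rel (nat_lit 4299186192)) (.cons (.rel (nat_lit 4299165768)) .nil))) .nil)) .leaf) (nat_lit 17826780800232) (.br (nat_lit 2) (.cons (.br (nat_lit 5) (.cons (.rel (nat_lit 4362077505)) (.cons (.rel (nat_lit 4429185060)) (.cons (.rel (nat_lit 8724234240)) .nil)))) .nil)) .leaf) (nat_lit 17826780800251) (.br (nat_lit 3) (.cons (.br (nat_lit 5) (.cons (.rel (nat_lit 4832886789)) .nil)) .nil)) (.node (.node .leaf (nat_lit 17826780800286) (.br (nat_lit 0) (.cons (.br (nat_lit 4) (.cons (.rel (nat_lit 1077937536)) .nil)) .nil)) .leaf) (nat_lit 17828015095015) (.br (nat_lit 0) (.cons (.br (nat_lit 1) (.cons (.rel (nat_lit 21495936)) (.cons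 (.rel (nat_lit 21495936)) .nil))) .nil)) .leaf))) (nat_lit 17829399613441) (.br (nat_lit 1) (.cons (.br (nat_lit 2) (.cons (.rel (nat_lit 83890272)) .nil)) .nil)) (.node (.node (.node (.node .leaf (nat_lit 18030300448769) (.br (nat_lit 1) (.cons (.br (nat_lit 4) (.cons (.rel (nat_lit 2182169601)) .nil)) .nil)) .leaf) (nat_lit 18032937375745) (.br (nat_lit 0) (.cons (.br (nat_lit 4) (.cons (.rel (nat_lit 1077953088)) (.cons (.rel (nat_lit 1078026240)) (.cons (.rel (nat_lit 1077937536)) .nil)))) (.cons (.br (nat_lit 4) (.cons (.rel (nat_lit 2155889664)) (.cons (.rel (nat_lit 1082196996)) (.cons (.rel (nat_lit 1082130528)) .nil)))) .nil))) (.node .leaf (nat_lit 18032937376999) (.br (nat_lit 0) (.cons (.br (nat_lit 3) (.cons (.rel (nat_lit 273683457)) (.cons (.rel (nat_lit 541196289)) .nil))) .nil)) .leaf)) (nat_lit 18032938665985) (.br (nat_lit 2) (.cons (.br (nat_lit 4) (.cons (.rel (nat_lit 1207961664)) (.cons (.br (nat_lit 0) (.cons (.rel (nat_lit 1077970944)) (.cons (.rel (nat_lit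 142622784)) (.cons (.rel (nat_lit 1084227585)) .nil)))) .nil))) .nil)) (.node (.node .leaf (nat_lit 18032939229185) (.br (nat_lit 0) (.cons (.br (nat_lit 4) (.cons (.rel (nat_lit 1078461441)) (.cons (.rel (nat_lit 1078202688)) (.cons (.rel (nat_lit 1077970944)) .nil)))) .nil)) .leaf) (nat_lit 18032939278337) (.br (nat_lit 0) (.cons (.br (nat_lit 2) (.cons (.rel (nat_lit 71336064)) (.cons (.rel (nat_lit 71307348)) (.cons (.rel (nat_lit 71305536)) (.cons (.rel (nat_lit 138414096)) (.cons (.rel (nat_lit 71321088)) (.cons (.rel (nat_lit 71305536)) .nil))))))) (.cons (.br (nat_lit 3) (.cons (.rel (nat_lit 272699472)) (.cons (.rel (nat_lit 272699472)) (.cons (.rel (nat_lit 272909328)) (.cons (.rel (nat_lit 272909328)) (.cons (.rel (nat_lit 273682452)) (.cons (.rel (nat_lit 273680640)) (.cons (.rel (nat_lit 276824148)) .nil)))))))) .nil))) .leaf)) (nat_lit 18032939279597) (.br (nat_lit 0) (.cons (.br (nat_lit 2) (.cons (.rel (nat_lit 71372802)) (.cons (.rel (nat_lit 71372802)) (.cons (.rel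 (nat_lit 75498528)) .nil)))) .nil)) (.node (.node (.node .leaf (nat_lit 18035543941121) (.br (nat_lit 0) (.cons (.br (nat_lit 4) (.cons (.rel (nat_lit 1077970944)) .nil)) .nil)) .leaf) (nat_lit 18038889089024) (.br (nat_lit 3) (.cons (.br (nat_lit 2) (.cons (.rel (nat_lit 335679489)) (.cons (.rel (nat_lit 604110852)) (.cons (.rel (nat_lit 336068610)) .nil)))) (.cons (.br (nat_lit 4) (.cons (.rel (nat_lit 1342181397)) (.cons (.rel (nat_lit 1342182402)) .nil))) .nil))) .leaf) (nat_lit 18038889089025) (.br (nat_lit 0) (.cons (.br (nat_lit 6) (.cons (.rel (nat_lit 17184073728)) (.cons (.rel (nat_lit 17184067842)) .nil))) (.cons (.br (nat_lit 6) (.cons (.rel (nat_lit 17184067842)) (.cons (.rel (nat_lit 17184073728)) .nil))) .nil))) (.node (.node .leaf (nat_lit 18038889089326) (.br (nat_lit 1) (.cons (.br (nat_lit 3) (.cons (.rel (nat_lit 285302784)) .nil)) .nil)) .leaf) (nat_lit 18038889089659) (.br (nat_lit 1) (.cons (.br (nat_lit 2) (.cons (.rel (nat_lit 85984512)) .nil)) .nil)) .leaf))))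 (nat_lit 18038889089805) (.br (nat_lit 5) (.cons (.br (nat_lit 2) (.cons (.rel (nat_lit 4362077505)) (.cons (.rel (nat_lit 4362080322)) .nil))) .nil)) (.node (.node (.node (.node (.node .leaf (nat_lit 18038893900407) (.br (nat_lit 0) (.cons (.br (nat_lit 1) (.cons (.rel (nat_lit 20996097)) .nil)) .nil)) .leaf) (nat_lit 18039430154240) (.br (nat_lit 6) (.cons (.br (nat_lit 1) (.cons (.rel (nat_lit 17197039620)) (.cons (.rel (nat_lit 17213489472)) .nil))) .nil)) (.node .leaf (nat_lit 18039430154241) (.br (nat_lit 0) (.cons (.br (nat_lit 5) (.cons (.rel (nat_lit 4303487040)) (.cons (.rel (nat_lit 4303357953)) .nil))) .nil)) .leaf)) (nat_lit 18039430155497) (.br (nat_lit 2) (.cons (.br (nat_lit 4) (.cons (.rel (nat_lit 1143017472)) .nil)) .nil)) (.node (.node .leaf (nat_lit 18040062778626) (.br (nat_lit 3) (.cons (.br (nat_lit 0) (.cons (.rel (nat_lit 273680640)) (.cons (.rel (nat_lit 272662545)) .nil))) .nil)) .leaf) (nat_lit 18040171276289) (.br (nat_lit 0) (.cons (.br (nat_lit 4) (.cons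 (.rel (nat_lit 1077970944)) .nil)) .nil)) .leaf)) (nat_lit 18040171276449) (.br (nat_lit 0) (.cons (.br (nat_lit 1) (.cons (.rel (nat_lit 21041172)) .nil)) .nil)) (.node (.node (.node .leaf (nat_lit 18040171277544) (.br (nat_lit 0) (.cons (.br (nat_lit 1) (.cons (.rel (nat_lit 20971842)) .nil)) .nil)) .leaf) (nat_lit 18041527306240) (.br (nat_lit 4) (.cons (.br (nat_lit 3) (.cons (.rel (nat_lit 1342179585)) (.cons (.rel (nat_lit 1342179585)) (.cons (.br (nat_lit 2) (.cons (.rel (nat_lit 1141129221)) (.cons (.rel (nat_lit 2214597249)) (.cons (.rel (nat_lit 1207961664)) (.cons (.rel (nat_lit 335578113)) (.cons (.rel (nat_lit 1141129221)) (.cons (.rel (nat_lit 2281717776)) (.cons (.rel (nat_lit 336068610)) .nil)))))))) (.cons (.rel (nat_lit 1342179585)) (.cons (.rel (nat_lit 1342179585)) .nil)))))) .nil)) .leaf) (nat_lit 18041527306241) (.br (nat_lit 0) (.cons (.br (nat_lit 2) (.cons (.rel (nat_lit 71307348)) (.cons (.rel (nat_lit 71308353)) (.cons (.rel (nat_lit 71305536)) (.cons (.rel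 (nat_lit 72630276)) (.cons (.rel (nat_lit 71305536)) (.cons (.rel (nat_lit 71308353)) (.cons (.rel (nat_lit 71336064)) .nil)))))))) (.cons (.br (nat_lit 2) (.cons (.rel (nat_lit 142622784)) (.cons (.rel (nat_lit 71305536)) (.cons (.rel (nat_lit 71307348)) (.cons (.rel (nat_lit 72630276)) (.cons (.rel (nat_lit 142622784)) (.cons (.rel (nat_lit 138412041)) (.cons (.rel (nat_lit 142934016)) .nil)))))))) (.cons (.br (nat_lit 2) (.cons (.rel (nat_lit 71336064)) (.cons (.rel (nat_lit 71336064)) (.cons (.rel (nat_lit 142622784)) (.cons (.rel (nat_lit 142622784)) (.cons (.rel (nat_lit 142934016)) (.cons (.rel (nat_lit 71305536)) (.cons (.rel (nat_lit 71336064)) .nil)))))))) (.cons (.br (nat_lit 2) (.cons (.rel (nat_lit 71307348)) (.cons (.rel (nat_lit 71958528)) (.cons (.rel (nat_lit 71307348)) (.cons (.rel (nat_lit 71308353)) (.cons (.rel (nat_lit 71647296)) (.cons (.rel (nat_lit 71307348)) (.cons (.rel (nat_lit 71958528)) .nil)))))))) .nil))))) (.node (.node .leaf (nat_lit 18041527306246)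 (.br (nat_lit 3) (.cons (.br (nat_lit 4) (.cons (.rel (nat_lit 2684358912)) (.cons (.rel (nat_lit 1342178580)) .nil))) (.cons (.br (nat_lit 4) (.cons (.rel (nat_lit 1342178580)) (.cons (.rel (nat_lit 1342185984)) .nil))) .nil))) .leaf) (nat_lit 18041527306365) (.br (nat_lit 3) (.cons (.br (nat_lit 4) (.cons (.rel (nat_lit 2684358912)) .nil)) .nil)) .leaf))) (nat_lit 18041527306542) (.br (nat_lit 1) (.cons (.br (nat_lit 4) (.cons (.rel (nat_lit 1091567889)) (.cons (.rel (nat_lit 2181300240)) (.cons (.rel (nat_lit 1091043360)) (.cons (.rel (nat_lit 1107361794)) .nil))))) (.cons (.br (nat_lit 3) (.cons (.rel (nat_lit 571490373)) (.cons (.rel (nat_lit 286261509)) (.cons (.rel (nat_lit 285247488)) .nil)))) .nil))) (.node (.node (.node (.node .leaf (nat_lit 18041527306547) (.br (nat_lit 1) (.cons (.br (nat_lit 3) (.cons (.rel (nat_lit 285214080)) .nil)) .nil)) .leaf) (nat_lit 18041527306551) (.br (nat_lit 0) (.cons (.br (nat_lit 4) (.cons (.rel (nat_lit 1082261637)) .nil)) .nil)) .leaf) (nat_lit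 18041527306892) (.br (nat_lit 3) (.cons (.br (nat_lit 4) (.cons (.rel (nat_lit 1342179585)) (.cons (.rel (nat_lit 1343230020)) .nil))) .nil)) (.node (.node .leaf (nat_lit 18041527306902) (.br (nat_lit 4) (.cons (.br (nat_lit 6) (.cons (.rel (nat_lit 18253627425)) (.cons (.rel (nat_lit 18253684740)) (.cons (.rel (nat_lit 18253629444)) .nil)))) .nil)) .leaf) (nat_lit 18041527306997) (.br (nat_lit 4) (.cons (.br (nat_lit 6) (.cons (.rel (nat_lit 18253611588)) (.cons (.rel (nat_lit 18253611588)) .nil))) (.cons (.br (nat_lit 6) (.cons (.rel (nat_lit 18253611588)) (.cons (.rel (nat_lit 18253873158)) .nil))) .nil))) .leaf)) (nat_lit 18041527307021) (.br (nat_lit 4) (.cons (.br (nat_lit 3) (.cons (.rel (nat_lit 1342182402)) (.cons (.rel (nat_lit 2417033217)) (.cons (.rel (nat_lit 2415919140)) (.cons (.rel (nat_lit 1610613765)) (.cons (.rel (nat_lit 1342179585)) .nil)))))) .nil)) (.node (.node (.node .leaf (nat_lit 18041527307167) (.br (nat_lit 3) (.cons (.br (nat_lit 4) (.cons (.rel (nat_lit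 1342179585)) .nil)) .nil)) .leaf) (nat_lit 18041527307495) (.br (nat_lit 4) (.cons (.br (nat_lit 3) (.cons (.rel (nat_lit 1342179585)) (.cons (.rel (nat_lit 2415919140)) (.cons (.rel (nat_lit 1342179585)) .nil)))) .nil)) .leaf) (nat_lit 18041527307496) (.br (nat_lit 3) (.cons (.br (nat_lit 4) (.cons (.rel (nat_lit 2684358912)) (.cons (.rel (nat_lit 1342210113)) .nil))) (.cons (.br (nat_lit 4) (.cons (.rel (nat_lit 1342521345)) (.cons (.rel (nat_lit 1342185984)) .nil))) .nil))) (.node (.node .leaf (nat_lit 18041527307501) (.br (nat_lit 4) (.cons (.br (nat_lit 2) (.cons (.rel (nat_lit 2281717776)) (.cons (.rel (nat_lit 1140883488)) (.cons (.rel (nat_lit 1141129221)) .nil)))) (.cons (.br (nat_lit 2) (.cons (.rel (nat_lit 1207980033)) (.cons (.rel (nat_lit 2281717776)) (.cons (.rel (nat_lit 1140883488)) .nil)))) .nil))) .leaf) (nat_lit 18041527307516) (.br (nat_lit 0) (.cons (.br (nat_lit 2) (.cons (.rel (nat_lit 71647296)) .nil)) .nil)) .leaf))))) (nat_lit 18041527307525) (.br (nat_lit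 4) (.cons (.br (nat_lit 3) (.cons (.rel (nat_lit 1342182402)) (.cons (.rel (nat_lit 1342179585)) .nil))) .nil)) (.node (.node (.node (.node (.node (.node .leaf (nat_lit 18041527307526) (.br (nat_lit 4) (.cons (.br (nat_lit 3) (.cons (.rel (nat_lit 1342181397)) (.cons (.rel (nat_lit 1343230020)) .nil))) .nil)) .leaf) (nat_lit 18041527307546) (.br (nat_lit 4) (.cons (.br (nat_lit 3) (.cons (.rel (nat_lit 1342178580)) (.cons (.rel (nat_lit 1342179585)) .nil))) .nil)) (.node .leaf (nat_lit 18041527307550) (.br (nat_lit 4) (.cons (.br (nat_lit 0) (.cons (.rel (nat_lit 1077940353)) (.cons (.rel (nat_lit 1077937536)) (.cons (.rel (nat_lit 1078214658)) (.cons (.rel (nat_lit 1078026240)) (.cons (.rel (nat_lit 1077940353)) .nil)))))) (.cons (.br (nat_lit 3) (.cons (.rel (nat_lit 1342247040)) (.cons (.rel (nat_lit 1342179585)) (.cons (.rel (nat_lit 1342182402)) .nil)))) .nil))) .leaf)) (nat_lit 18041527410689) (.br (nat_lit 0) (.cons (.br (nat_lit 4) (.cons (.rel (nat_lit 2155889664)) .nil)) .nil))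 (.node (.node .leaf (nat_lit 18041527410999) (.br (nat_lit 0) (.cons (.br (nat_lit 4) (.cons (.rel (nat_lit 1077940353)) .nil)) .nil)) .leaf) (nat_lit 18041527891969) (.br (nat_lit 0) (.cons (.br (nat_lit 5) (.cons (.rel (nat_lit 4300345344)) .nil)) .nil)) .leaf)) (nat_lit 18041527893223) (.br (nat_lit 0) (.cons (.br (nat_lit 4) (.cons (.rel (nat_lit 1077937536)) .nil)) .nil)) (.node (.node (.node .leaf (nat_lit 18041527922689) (.br (nat_lit 5) (.cons (.br (nat_lit 0) (.cons (.rel (nat_lit 4299161937)) (.cons (.rel (nat_lit 4300243968)) (.cons (.rel (nat_lit 4299161937)) (.cons (.rel (nat_lit 4299161937)) .nil))))) (.cons (.br (nat_lit 2) (.cons (.rel (nat_lit 4362240000)) (.cons (.rel (nat_lit 4362240000)) (.cons (.rel (nat_lit 4362080322)) .nil)))) .nil))) .leaf) (nat_lit 18041527923319) (.br (nat_lit 3) (.cons (.br (nat_lit 0) (.cons (.rel (nat_lit 274022400)) (.cons (.rel (nat_lit 272662545)) .nil))) .nil)) .leaf) (nat_lit 18041528903681) (.br (nat_lit 0) (.cons (.br (nat_lit 1)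 (.cons (.rel (nat_lit 20971842)) (.cons (.rel (nat_lit 20996097)) (.cons (.rel (nat_lit 21041172)) (.cons (.rel (nat_lit 20971842)) .nil))))) (.cons (.br (nat_lit 4) (.cons (.rel (nat_lit 1077937536)) (.cons (.rel (nat_lit 1078988832)) (.cons (.rel (nat_lit 1077970944)) .nil)))) .nil))) (.node (.node .leaf (nat_lit 18041529113461) (.br (nat_lit 3) (.cons (.br (nat_lit 4) (.cons (.rel (nat_lit 1610612760)) .nil)) .nil)) .leaf) (nat_lit 18041529113837) (.br (nat_lit 1) (.cons (.br (nat_lit 2) (.cons (.rel (nat_lit 100664340)) .nil)) .nil)) .leaf))) (nat_lit 18041529113876) (.br (nat_lit 2) (.cons (.br (nat_lit 5) (.cons (.rel (nat_lit 4363403298)) .nil)) .nil)) (.node (.node (.node (.node .leaf (nat_lit 18041529113886) (.br (nat_lit 3) (.cons (.br (nat_lit 4) (.cons (.rel (nat_lit 1342185984)) (.cons (.rel (nat_lit 1342185984)) .nil))) .nil)) .leaf) (nat_lit 18041615923206) (.br (nat_lit 0) (.cons (.br (nat_lit 5) (.cons (.rel (nat_lit 8594194560)) .nil)) .nil)) (.node .leaf (nat_lit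 18042264603381) (.br (nat_lit 1) (.cons (.br (nat_lit 4) (.cons (.rel (nat_lit 1107361794)) .nil)) .nil)) .leaf)) (nat_lit 18042563678894) (.br (nat_lit 2) (.cons (.br (nat_lit 5) (.cons (.rel (nat_lit 4362240000)) (.cons (.rel (nat_lit 4362101760)) .nil))) (.cons (.br (nat_lit 5) (.cons (.rel (nat_lit 8657044485)) (.cons (.rel (nat_lit 4362076500)) .nil))) .nil))) (.node (.node .leaf (nat_lit 18042565153454) (.br (nat_lit 6) (.cons (.br (nat_lit 2) (.cons (.rel (nat_lit 17246986272)) (.cons (.rel (nat_lit 17314156608)) .nil))) .nil)) .leaf) (nat_lit 18044110997806) (.br (nat_lit 4) (.cons (.br (nat_lit 1) (.cons (.rel (nat_lit 1091571720)) (.cons (.rel (nat_lit 1091567889)) .nil))) .nil)) .leaf)) (nat_lit 18044110998135) (.br (nat_lit 0) (.cons (.br (nat_lit 3) (.cons (.rel (nat_lit 276975681)) .nil)) .nil)) (.node (.node (.node .leaf (nat_lit 18075853593837) (.br (nat_lit 0) (.cons (.br (nat_lit 1) (.cons (.rel (nat_lit 20993280)) .nil)) .nil)) .leaf) (nat_lit 18075853593978) (.br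 (nat_lit 0) (.cons (.br (nat_lit 4) (.cons (.rel (nat_lit 1082130528)) .nil)) .nil)) .leaf) (nat_lit 18122722539521) (.br (nat_lit 3) (.cons (.br (nat_lit 0) (.cons (.rel (nat_lit 272630154)) (.cons (.rel (nat_lit 545521668)) .nil))) .nil)) (.node (.node .leaf (nat_lit 18122722539675) (.br (nat_lit 0) (.cons (.br (nat_lit 2) (.cons (.rel (nat_lit 71321088)) .nil)) .nil)) .leaf) (nat_lit 18898493958446) (.br (nat_lit 2) (.cons (.br (nat_lit 3) (.cons (.rel (nat_lit 335824896)) .nil)) .nil)) .leaf)))) (nat_lit 18898493959081) (.br (nat_lit 2) (.cons (.br (nat_lit 0) (.cons (.rel (nat_lit 71372802)) (.cons (.rel (nat_lit 142622784)) .nil))) .nil)) (.node (.node (.node (.node (.node .leaf (nat_lit 18898495246638) (.br (nat_lit 0) (.cons (.br (nat_lit 2) (.cons (.rel (nat_lit 142934016)) .nil)) .nil)) .leaf) (nat_lit 18903739398451) (.br (nat_lit 2) (.cons (.br (nat_lit 4) (.cons (.rel (nat_lit 2281717776)) .nil)) .nil)) (.node .leaf (nat_lit 18903739398456) (.br (nat_lit 2) (.cons (.br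 (nat_lit 4) (.cons (.rel (nat_lit 2281717776)) (.cons (.rel (nat_lit 1207961664)) .nil))) .nil)) .leaf)) (nat_lit 18933415688502) (.br (nat_lit 0) (.cons (.br (nat_lit 1) (.cons (.rel (nat_lit 21242880)) .nil)) .nil)) (.node (.node .leaf (nat_lit 18935581326814) (.br (nat_lit 4) (.cons (.br (nat_lit 0) (.cons (.rel (nat_lit 1077970944)) (.cons (.rel (nat_lit 1077953088)) .nil))) .nil)) .leaf) (nat_lit 19141525743094) (.br (nat_lit 1) (.cons (.br (nat_lit 5) (.cons (.rel (nat_lit 4311814146)) .nil)) .nil)) .leaf)) (nat_lit 19742335952897) (.br (nat_lit 2) (.cons (.br (nat_lit 4) (.cons (.rel (nat_lit 1208026113)) .nil)) .nil)) (.node (.node (.node .leaf (nat_lit 19742335956993) (.br (nat_lit 2) (.cons (.br (nat_lit 6) (.cons (.rel (nat_lit 17247305796)) .nil)) .nil)) .leaf) (nat_lit 19745440047105) (.br (nat_lit 0) (.cons (.br (nat_lit 4) (.cons (.rel (nat_lit 1077937536)) .nil)) .nil)) .leaf) (nat_lit 19745440047355) (.br (nat_lit 0) (.cons (.br (nat_lit 2) (.cons (.rel (nat_lit 138412041))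 .nil)) .nil)) (.node (.node .leaf (nat_lit 19750911731713) (.br (nat_lit 2) (.cons (.br (nat_lit 3) (.cons (.rel (nat_lit 335807040)) .nil)) .nil)) .leaf) (nat_lit 19750926147585) (.br (nat_lit 0) (.cons (.br (nat_lit 5) (.cons (.rel (nat_lit 8594129922)) .nil)) .nil)) .leaf))) (nat_lit 19750926147709) (.br (nat_lit 2) (.cons (.br (nat_lit 5) (.cons (.rel (nat_lit 4362240000)) .nil)) .nil)) (.node (.node (.node (.node .leaf (nat_lit 19954445119489) (.br (nat_lit 4) (.cons (.br (nat_lit 5) (.cons (.rel (nat_lit 5368779840)) .nil)) .nil)) .leaf) (nat_lit 19957569529334) (.br (nat_lit 2) (.cons (.br (nat_lit 5) (.cons (.rel (nat_lit 4429185060)) .nil)) .nil)) .leaf) (nat_lit 19974264191278) (.br (nat_lit 0) (.cons (.br (nat_lit 6) (.cons (.rel (nat_lit 17184064020)) .nil)) .nil)) (.node (.node .leaf (nat_lit 19977051908346) (.br (nat_lit 0) (.cons (.br (nat_lit 3) (.cons (.rel (nat_lit 272662545)) .nil)) .nil)) .leaf) (nat_lit 19977481222446) (.br (nat_lit 2) (.cons (.br (nat_lit 6) (.cons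 (.rel (nat_lit 17246982405)) (.cons (.rel (nat_lit 17249157120)) .nil))) (.cons (.br (nat_lit 6) (.cons (.rel (nat_lit 34426851648)) (.cons (.rel (nat_lit 17246986272)) .nil))) .nil))) .leaf)) (nat_lit 19977481223071) (.br (nat_lit 0) (.cons (.br (nat_lit 1) (.cons (.rel (nat_lit 21234177)) .nil)) .nil)) (.node (.node (.node .leaf (nat_lit 20017213874483) (.br (nat_lit 5) (.cons (.br (nat_lit 0) (.cons (.rel (nat_lit 8594128917)) (.cons (.rel (nat_lit 8594133504)) .nil))) .nil)) .leaf) (nat_lit 20017213875103) (.br (nat_lit 2) (.cons (.br (nat_lit 3) (.cons (.rel (nat_lit 335577108)) .nil)) .nil)) .leaf) (nat_lit 20175144585341) (.br (nat_lit 3) (.cons (.br (nat_lit 2) (.cons (.rel (nat_lit 335544705)) (.cons (.rel (nat_lit 335615040)) .nil))) .nil)) (.node (.node .leaf (nat_lit 20175144586527) (.br (nat_lit 2) (.cons (.br (nat_lit 4) (.cons (.rel (nat_lit 2281717776)) (.cons (.rel (nat_lit 1141129221)) .nil))) (.cons (.br (nat_lit 3) (.cons (.rel (nat_lit 335578113)) (.cons (.rel (nat_lit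 336598020)) .nil))) .nil))) .leaf) (nat_lit 20175668873216) (.br (nat_lit 4) (.cons (.br (nat_lit 6) (.cons (.rel (nat_lit 19327353153)) (.cons (.rel (nat_lit 18253611588)) .nil))) .nil)) .leaf))))))

/-- refutations 1 -/
def e1 : EX := (.node (.node (.node (.node (.node (.node (.node .leaf (nat_lit 23049424977133) (.br (nat_lit 0) (.cons (.br (nat_lit 2) (.cons (.rel (nat_lit 71308353)) .nil)) .nil)) .leaf) (nat_lit 23049458405377) (.br (nat_lit 4) (.cons (.br (nat_lit 3) (.cons (.rel (nat_lit 1342185984)) (.cons (.rel (nat_lit 1342182402)) (.cons (.rel (nat_lit 1342178580)) (.cons (.rel (nat_lit 1342178580)) (.cons (.rel (nat_lit 1342182402)) .nil)))))) (.cons (.br (nat_lit 3) (.cons (.rel (nat_lit 1342182402)) (.cons (.rel (nat_lit 1342185984)) (.cons (.rel (nat_lit 2415919140)) (.cons (.rel (nat_lit 1342179585)) (.cons (.rel (nat_lit 1342179585)) .nil)))))) (.cons (.br (nat_lit 3) (.cons (.rel (nat_lit 1342182402)) (.cons (.rel (nat_lit 1342185984)) (.cons (.rel (nat_lit 1342179585))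 (.cons (.rel (nat_lit 1342185984)) (.cons (.rel (nat_lit 2416984320)) .nil)))))) .nil)))) (.node .leaf (nat_lit 23049458405536) (.br (nat_lit 4) (.cons (.br (nat_lit 6) (.cons (.rel (nat_lit 18253627425)) .nil)) .nil)) .leaf)) (nat_lit 23049458406007) (.br (nat_lit 1) (.cons (.br (nat_lit 4) (.cons (.rel (nat_lit 1090551813)) .nil)) .nil)) (.node (.node .leaf (nat_lit 23049458406127) (.br (nat_lit 0) (.cons (.br (nat_lit 5) (.cons (.rel (nat_lit 4303487040)) .nil)) .nil)) .leaf) (nat_lit 23049458406286) (.br (nat_lit 3) (.cons (.br (nat_lit 4) (.cons (.rel (nat_lit 1342179585)) .nil)) .nil)) .leaf)) (nat_lit 23049458406632) (.br (nat_lit 3) (.cons (.br (nat_lit 6) (.cons (.rel (nat_lit 17448321045)) (.cons (.rel (nat_lit 17448321045)) (.cons (.rel (nat_lit 17448310080)) (.cons (.rel (nat_lit 17448312897)) .nil))))) (.cons (.br (nat_lit 5) (.cons (.rel (nat_lit 4563435528)) (.cons (.rel (nat_lit 8858436609)) (.cons (.rel (nat_lit 4564455426)) (.cons (.rel (nat_lit 4563681297)) .nil)))))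 (.cons (.br (nat_lit 0) (.cons (.br (nat_lit 5) (.cons (.rel (nat_lit 4299161937)) (.cons (.rel (nat_lit 8594194560)) (.cons (.rel (nat_lit 4831839360)) (.cons (.rel (nat_lit 4303487040)) .nil))))) (.cons (.br (nat_lit 4) (.cons (.rel (nat_lit 1082196996)) (.cons (.br (nat_lit 5) (.cons (.rel (nat_lit 5368733760)) (.cons (.rel (nat_lit 5368844289)) (.cons (.rel (nat_lit 4831839360)) (.cons (.rel (nat_lit 8594194560)) .nil))))) (.cons (.rel (nat_lit 1082130528)) (.cons (.rel (nat_lit 1610612760)) (.cons (.rel (nat_lit 1078461441)) .nil)))))) (.cons (.rel (nat_lit 276825153)) (.cons (.rel (nat_lit 541196289)) (.cons (.rel (nat_lit 276825153)) .nil)))))) (.cons (.br (nat_lit 6) (.cons (.rel (nat_lit 17448322050)) (.cons (.rel (nat_lit 17448386688)) (.cons (.rel (nat_lit 17448322050)) (.cons (.rel (nat_lit 34896887808)) .nil))))) .nil))))) (.node (.node (.node .leaf (nat_lit 23049458406661) (.br (nat_lit 3) (.cons (.br (nat_lit 4) (.cons (.rel (nat_lit 1342185984)) .nil)) .nil)) .leaf)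 (nat_lit 23049458406676) (.br (nat_lit 0) (.cons (.br (nat_lit 6) (.cons (.rel (nat_lit 17184065025)) .nil)) .nil)) .leaf) (nat_lit 23049458406688) (.br (nat_lit 2) (.cons (.br (nat_lit 6) (.cons (.rel (nat_lit 17248044048)) (.cons (.rel (nat_lit 17314351680)) .nil))) .nil)) (.node (.node .leaf (nat_lit 23049459173377) (.br (nat_lit 0) (.cons (.br (nat_lit 3) (.cons (.rel (nat_lit 545276952)) (.cons (.rel (nat_lit 273682452)) .nil))) .nil)) .leaf) (nat_lit 23049459174127) (.br (nat_lit 3) (.cons (.br (nat_lit 5) (.cons (.rel (nat_lit 9126821892)) .nil)) .nil)) .leaf))) (nat_lit 23049459174632) (.br (nat_lit 4) (.cons (.br (nat_lit 0) (.cons (.rel (nat_lit 1078988832)) (.cons (.rel (nat_lit 2151678096)) (.cons (.rel (nat_lit 1078988832)) .nil)))) (.cons (.br (nat_lit 2) (.cons (.rel (nat_lit 2214609216)) (.cons (.rel (nat_lit 2281717776)) (.cons (.rel (nat_lit 1141129221)) .nil)))) .nil))) (.node (.node (.node (.node .leaf (nat_lit 23049459810305) (.br (nat_lit 3) (.cons (.br (nat_lit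 6) (.cons (.br (nat_lit 4) (.cons (.rel (nat_lit 1342185984)) (.cons (.rel (nat_lit 18253684740)) (.cons (.rel (nat_lit 1342185984)) (.cons (.rel (nat_lit 1342472448)) .nil))))) (.cons (.rel (nat_lit 17448575232)) .nil))) .nil)) .leaf) (nat_lit 23049460527105) (.br (nat_lit 6) (.cons (.br (nat_lit 4) (.cons (.rel (nat_lit 19327377408)) (.cons (.rel (nat_lit 19327423488)) (.cons (.rel (nat_lit 18253684740)) .nil)))) .nil)) .leaf) (nat_lit 23049460774913) (.br (nat_lit 0) (.cons (.br (nat_lit 3) (.cons (.rel (nat_lit 272909328)) (.cons (.rel (nat_lit 542114820)) .nil))) .nil)) (.node (.node .leaf (nat_lit 23049461030913) (.br (nat_lit 4) (.cons (.br (nat_lit 3) (.cons (.rel (nat_lit 1342179585)) (.cons (.rel (nat_lit 1342521345)) .nil))) .nil)) .leaf) (nat_lit 23049461032168) (.br (nat_lit 3) (.cons (.br (nat_lit 0) (.cons (.rel (nat_lit 545521668)) (.cons (.rel (nat_lit 276824148)) .nil))) .nil)) .leaf)) (nat_lit 23049567508481) (.br (nat_lit 0) (.cons (.br (nat_lit 3) (.cons (.rel (nat_lit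 276889602)) .nil)) .nil)) (.node (.node (.node .leaf (nat_lit 23049567509762) (.br (nat_lit 3) (.cons (.br (nat_lit 4) (.cons (.rel (nat_lit 1342179585)) (.cons (.rel (nat_lit 1342182402)) .nil))) .nil)) .leaf) (nat_lit 23053342330881) (.br (nat_lit 3) (.cons (.br (nat_lit 4) (.cons (.rel (nat_lit 1342185984)) .nil)) .nil)) .leaf) (nat_lit 23053342332386) (.br (nat_lit 2) (.cons (.br (nat_lit 4) (.cons (.rel (nat_lit 1140854916)) .nil)) .nil)) (.node (.node .leaf (nat_lit 23066638278781) (.br (nat_lit 4) (.cons (.br (nat_lit 6) (.cons (.rel (nat_lit 18253635846)) .nil)) .nil)) .leaf) (nat_lit 23066638279966) (.br (nat_lit 3) (.cons (.br (nat_lit 4) (.cons (.rel (nat_lit 1342185984)) .nil)) .nil)) .leaf)))) (nat_lit 23265244066478) (.br (nat_lit 4) (.cons (.br (nat_lit 5) (.cons (.rel (nat_lit 5368733760)) .nil)) .nil)) (.node (.node (.node (.node (.node .leaf (nat_lit 23266811484160) (.br (nat_lit 4) (.cons (.br (nat_lit 5) (.cons (.rel (nat_lit 5368742913)) .nil)) .nil)) .leaf) (nat_lit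 23266811484472) (.br (nat_lit 5) (.cons (.br (nat_lit 4) (.cons (.rel (nat_lit 5368733760)) (.cons (.rel (nat_lit 5368779840)) .nil))) .nil)) (.node .leaf (nat_lit 23266814058808) (.br (nat_lit 3) (.cons (.br (nat_lit 5) (.cons (.rel (nat_lit 4564455426)) .nil)) .nil)) .leaf)) (nat_lit 23477596284137) (.br (nat_lit 0) (.cons (.br (nat_lit 5) (.cons (.rel (nat_lit 4303356948)) (.cons (.rel (nat_lit 4299161937)) .nil))) (.cons (.br (nat_lit 5) (.cons (.rel (nat_lit 8594133504)) (.cons (.rel (nat_lit 8594128917)) .nil))) .nil))) (.node (.node .leaf (nat_lit 23480192558582) (.br (nat_lit 4) (.cons (.br (nat_lit 5) (.cons (.rel (nat_lit 5368779840)) .nil)) .nil)) .leaf) (nat_lit 24097429938177) (.br (nat_lit 3) (.cons (.br (nat_lit 6) (.cons (.rel (nat_lit 17448325632)) (.cons (.rel (nat_lit 17448861696)) .nil))) .nil)) .leaf)) (nat_lit 24097431193600) (.br (nat_lit 0) (.cons (.br (nat_lit 4) (.cons (.rel (nat_lit 2155889664)) .nil)) .nil)) (.node (.node (.node .leaf (nat_lit 24097431810049)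 (.br (nat_lit 3) (.cons (.br (nat_lit 4) (.cons (.rel (nat_lit 1342182402)) .nil)) .nil)) .leaf) (nat_lit 24097432547329) (.br (nat_lit 1) (.cons (.br (nat_lit 4) (.cons (.rel (nat_lit 1107361794)) .nil)) .nil)) .leaf) (nat_lit 24097432791041) (.br (nat_lit 6) (.cons (.br (nat_lit 4) (.cons (.rel (nat_lit 18253629444)) (.cons (.rel (nat_lit 18253629444)) .nil))) .nil)) (.node (.node .leaf (nat_lit 25368740870775) (.br (nat_lit 3) (.cons (.br (nat_lit 6) (.cons (.rel (nat_lit 34896887808)) .nil)) .nil)) .leaf) (nat_lit 25368743371054) (.br (nat_lit 1) (.cons (.br (nat_lit 2) (.cons (.rel (nat_lit 83956740)) .nil)) .nil)) .leaf))) (nat_lit 25368743419905) (.br (nat_lit 0) (.cons (.br (nat_lit 3) (.cons (.rel (nat_lit 272662545)) (.cons (.rel (nat_lit 273154056)) (.cons (.rel (nat_lit 545521668)) (.cons (.rel (nat_lit 276824148)) .nil))))) (.cons (.br (nat_lit 1) (.cons (.rel (nat_lit 21381120)) (.cons (.rel (nat_lit 20971842)) (.cons (.rel (nat_lit 20996097)) (.cons (.rel (nat_lit 21069888))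 .nil))))) (.cons (.br (nat_lit 3) (.cons (.rel (nat_lit 541085760)) (.cons (.rel (nat_lit 541131840)) (.cons (.rel (nat_lit 272662545)) (.cons (.rel (nat_lit 272699472)) .nil))))) .nil)))) (.node (.node (.node (.node .leaf (nat_lit 25368743420206) (.br (nat_lit 0) (.cons (.br (nat_lit 1) (.cons (.rel (nat_lit 21381120)) .nil)) .nil)) .leaf) (nat_lit 25385920380266) (.br (nat_lit 6) (.cons (.br (nat_lit 0) (.cons (.rel (nat_lit 34368132096)) (.cons (.rel (nat_lit 17184165888)) .nil))) .nil)) .leaf) (nat_lit 25592079812910) (.br (nat_lit 0) (.cons (.br (nat_lit 6) (.cons (.rel (nat_lit 17184073728)) .nil)) .nil)) (.node (.node .leaf (nat_lit 28386413752320) (.br (nat_lit 0) (.cons (.br (nat_lit 6) (.cons (.rel (nat_lit 17184080001)) .nil)) .nil)) .leaf) (nat_lit 28386413753575) (.br (nat_lit 4) (.cons (.br (nat_lit 5) (.cons (.rel (nat_lit 5368779840)) (.cons (.rel (nat_lit 5368779840)) (.cons (.rel (nat_lit 5368742913)) .nil)))) .nil)) .leaf)) (nat_lit 28811951828993) (.br (nat_lit 0)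 (.cons (.br (nat_lit 1) (.cons (.rel (nat_lit 20993280)) .nil)) .nil)) (.node (.node (.node .leaf (nat_lit 28811951830248) (.br (nat_lit 0) (.cons (.br (nat_lit 2) (.cons (.rel (nat_lit 71369985)) .nil)) .nil)) .leaf) (nat_lit 28813304517864) (.br (nat_lit 4) (.cons (.br (nat_lit 0) (.cons (.rel (nat_lit 2151678096)) (.cons (.rel (nat_lit 2155889664)) .nil))) .nil)) .leaf) (nat_lit 28813305921536) (.br (nat_lit 3) (.cons (.br (nat_lit 4) (.cons (.rel (nat_lit 1610613765)) .nil)) .nil)) (.node (.node .leaf (nat_lit 28813305921537) (.br (nat_lit 0) (.cons (.br (nat_lit 4) (.cons (.rel (nat_lit 1077937536)) (.cons (.rel (nat_lit 1082130528)) (.cons (.rel (nat_lit 1077940353)) .nil)))) (.cons (.br (nat_lit 4) (.cons (.rel (nat_lit 1078026240)) (.cons (.rel (nat_lit 1078214658)) (.cons (.rel (nat_lit 1077970944)) .nil)))) .nil))) .leaf) (nat_lit 28813305921547) (.br (nat_lit 0) (.cons (.br (nat_lit 6) (.cons (.rel (nat_lit 17184067842)) .nil)) .nil)) .leaf))))) (nat_lit 28813307142145) (.br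 (nat_lit 0) (.cons (.br (nat_lit 4) (.cons (.rel (nat_lit 2155889664)) (.cons (.rel (nat_lit 1077937536)) .nil))) (.cons (.br (nat_lit 4) (.cons (.rel (nat_lit 1078214658)) (.cons (.rel (nat_lit 2151678096)) .nil))) .nil))) (.node (.node (.node (.node (.node (.node .leaf (nat_lit 28813307143400) (.br (nat_lit 2) (.cons (.br (nat_lit 3) (.cons (.rel (nat_lit 335578113)) (.cons (.rel (nat_lit 335679489)) .nil))) .nil)) .leaf) (nat_lit 28814542606336) (.br (nat_lit 0) (.cons (.br (nat_lit 4) (.cons (.rel (nat_lit 1077970944)) .nil)) .nil)) (.node .leaf (nat_lit 29489896851758) (.br (nat_lit 0) (.cons (.br (nat_lit 1) (.cons (.rel (nat_lit 20993280)) .nil)) .nil)) .leaf)) (nat_lit 29491908861953) (.br (nat_lit 0) (.cons (.br (nat_lit 5) (.cons (.rel (nat_lit 4303650816)) .nil)) .nil)) (.node (.node .leaf (nat_lit 29491908862583) (.br (nat_lit 3) (.cons (.br (nat_lit 0) (.cons (.rel (nat_lit 272909328)) (.cons (.rel (nat_lit 276825153)) .nil))) .nil)) .leaf) (nat_lit 29491909349377) (.br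 (nat_lit 0) (.cons (.br (nat_lit 5) (.cons (.rel (nat_lit 8594133504)) .nil)) .nil)) .leaf)) (nat_lit 29491910117376) (.br (nat_lit 2) (.cons (.br (nat_lit 3) (.cons (.rel (nat_lit 335577108)) (.cons (.rel (nat_lit 335824896)) (.cons (.rel (nat_lit 604110852)) (.cons (.rel (nat_lit 335824896)) (.cons (.rel (nat_lit 402718728)) .nil)))))) (.cons (.br (nat_lit 4) (.cons (.rel (nat_lit 2214609216)) (.cons (.rel (nat_lit 1141376004)) (.cons (.rel (nat_lit 2215641093)) (.cons (.rel (nat_lit 2214609216)) (.cons (.rel (nat_lit 2214593664)) .nil)))))) (.cons (.br (nat_lit 3) (.cons (.rel (nat_lit 336593184)) (.cons (.rel (nat_lit 336598020)) (.cons (.rel (nat_lit 335578113)) (.cons (.rel (nat_lit 335578113)) (.cons (.rel (nat_lit 403701888)) .nil)))))) (.cons (.br (nat_lit 4) (.cons (.rel (nat_lit 1207961664)) (.cons (.rel (nat_lit 1140883488)) (.cons (.rel (nat_lit 1207961664)) (.cons (.rel (nat_lit 1140854916)) (.cons (.rel (nat_lit 1141376004)) .nil)))))) (.cons (.br (nat_lit 3) (.cons (.rel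 (nat_lit 402718728)) (.cons (.rel (nat_lit 335568960)) (.cons (.rel (nat_lit 335577108)) (.cons (.rel (nat_lit 335615040)) (.cons (.rel (nat_lit 335615040)) .nil)))))) .nil)))))) (.node (.node (.node .leaf (nat_lit 29491910117377) (.br (nat_lit 0) (.cons (.br (nat_lit 3) (.cons (.rel (nat_lit 272909328)) (.cons (.rel (nat_lit 276824148)) (.cons (.rel (nat_lit 272662545)) (.cons (.rel (nat_lit 272699472)) (.cons (.rel (nat_lit 276840705)) .nil)))))) .nil)) .leaf) (nat_lit 29491910117387) (.br (nat_lit 0) (.cons (.br (nat_lit 3) (.cons (.rel (nat_lit 273682452)) (.cons (.rel (nat_lit 276840705)) .nil))) (.cons (.br (nat_lit 3) (.cons (.rel (nat_lit 273680640)) (.cons (.rel (nat_lit 272909328)) .nil))) .nil))) .leaf) (nat_lit 29491910117678) (.br (nat_lit 4) (.cons (.br (nat_lit 1) (.cons (.rel (nat_lit 1090551813)) (.cons (.rel (nat_lit 1092616512)) (.cons (.rel (nat_lit 1091567889)) .nil)))) .nil)) (.node (.node .leaf (nat_lit 29491910117686) (.br (nat_lit 1) (.cons (.br (nat_lit 0)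 (.cons (.rel (nat_lit 25166853)) (.cons (.rel (nat_lit 20993280)) .nil))) .nil)) .leaf) (nat_lit 29491910118007) (.br (nat_lit 3) (.cons (.br (nat_lit 0) (.cons (.rel (nat_lit 273711168)) (.cons (.rel (nat_lit 272909328)) (.cons (.rel (nat_lit 541131840)) .nil)))) (.cons (.br (nat_lit 0) (.cons (.rel (nat_lit 272699472)) (.cons (.rel (nat_lit 276840705)) (.cons (.rel (nat_lit 545521668)) .nil)))) .nil))) .leaf))) (nat_lit 29491910118038) (.br (nat_lit 3) (.cons (.br (nat_lit 4) (.cons (.rel (nat_lit 1610612760)) (.cons (.rel (nat_lit 1610612760)) .nil))) .nil)) (.node (.node (.node (.node .leaf (nat_lit 29491910118127) (.br (nat_lit 3) (.cons (.br (nat_lit 0) (.cons (.rel (nat_lit 545284356)) (.cons (.rel (nat_lit 541085760)) (.cons (.rel (nat_lit 545521668)) .nil)))) (.cons (.br (nat_lit 4) (.cons (.rel (nat_lit 1342181397)) (.cons (.rel (nat_lit 1342181397)) (.cons (.rel (nat_lit 2684358912)) .nil)))) .nil))) .leaf) (nat_lit 29491910118137) (.br (nat_lit 1) (.cons (.br (nat_lit 4)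 (.cons (.rel (nat_lit 2181300240)) (.cons (.rel (nat_lit 1092637953)) .nil))) (.cons (.br (nat_lit 4) (.cons (.rel (nat_lit 1091571720)) (.cons (.rel (nat_lit 1091043360)) .nil))) .nil))) .leaf) (nat_lit 29491910118286) (.br (nat_lit 3) (.cons (.br (nat_lit 4) (.cons (.rel (nat_lit 1342185984)) (.cons (.rel (nat_lit 1342456896)) .nil))) .nil)) (.node (.node .leaf (nat_lit 29491910118632) (.br (nat_lit 0) (.cons (.br (nat_lit 4) (.cons (.rel (nat_lit 1078984965)) (.cons (.rel (nat_lit 1078984965)) .nil))) .nil)) .leaf) (nat_lit 29491910118633) (.br (nat_lit 5) (.cons (.br (nat_lit 3) (.cons (.rel (nat_lit 4563435528)) (.cons (.rel (nat_lit 4563406992)) (.cons (.rel (nat_lit 4563406992)) (.cons (.rel (nat_lit 9126821892)) .nil))))) .nil)) .leaf)) (nat_lit 29491910118637) (.br (nat_lit 0) (.cons (.br (nat_lit 1) (.cons (.br (nat_lit 2) (.cons (.rel (nat_lit 100665345)) (.cons (.rel (nat_lit 143664132)) (.cons (.rel (nat_lit 71303529)) .nil)))) .nil)) .nil)) (.node (.node (.node .leaf (nat_lit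 29491910118661) (.br (nat_lit 4) (.cons (.br (nat_lit 0) (.cons (.rel (nat_lit 1078988832)) (.cons (.rel (nat_lit 2155889664)) .nil))) .nil)) .leaf) (nat_lit 29491910118682) (.br (nat_lit 3) (.cons (.br (nat_lit 4) (.cons (.rel (nat_lit 1342181397)) (.cons (.rel (nat_lit 1342178580)) .nil))) .nil)) .leaf) (nat_lit 29491910118686) (.br (nat_lit 1) (.cons (.br (nat_lit 0) (.cons (.rel (nat_lit 20996097)) (.cons (.rel (nat_lit 20971842)) (.cons (.rel (nat_lit 21495936)) (.cons (.rel (nat_lit 37748772)) .nil))))) (.cons (.br (nat_lit 4) (.cons (.rel (nat_lit 1107429504)) (.cons (.rel (nat_lit 2164327488)) .nil))) .nil))) (.node (.node .leaf (nat_lit 29491910118882) (.br (nat_lit 3) (.cons (.br (nat_lit 4) (.cons (.rel (nat_lit 1342179585)) (.cons (.rel (nat_lit 2684358912)) .nil))) .nil)) .leaf) (nat_lit 29491910222461) (.br (nat_lit 0) (.cons (.br (nat_lit 3) (.cons (.rel (nat_lit 545407044)) .nil)) .nil)) .leaf)))) (nat_lit 29491910223081) (.br (nat_lit 0) (.cons (.br (nat_lit 3) (.cons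 (.rel (nat_lit 272662545)) .nil)) .nil)) (.node (.node (.node (.node (.node .leaf (nat_lit 29491910223109) (.br (nat_lit 4) (.cons (.br (nat_lit 6) (.cons (.rel (nat_lit 18253629444)) .nil)) .nil)) .leaf) (nat_lit 29491910223134) (.br (nat_lit 0) (.cons (.br (nat_lit 4) (.cons (.rel (nat_lit 1078461441)) .nil)) .nil)) .leaf) (nat_lit 29491910733825) (.br (nat_lit 0) (.cons (.br (nat_lit 4) (.cons (.rel (nat_lit 1078988832)) .nil)) .nil)) (.node (.node .leaf (nat_lit 29491910734455) (.br (nat_lit 3) (.cons (.br (nat_lit 5) (.cons (.rel (nat_lit 8858637312)) .nil)) .nil)) .leaf) (nat_lit 29491911974913) (.br (nat_lit 0) (.cons (.br (nat_lit 3) (.cons (.rel (nat_lit 272699472)) (.cons (.rel (nat_lit 545521668)) .nil))) .nil)) .leaf)) (nat_lit 29493147437056) (.br (nat_lit 2) (.cons (.br (nat_lit 3) (.cons (.rel (nat_lit 335630592)) (.cons (.rel (nat_lit 403701888)) .nil))) .nil)) (.node (.node (.node .leaf (nat_lit 29494493808791) (.br (nat_lit 6) (.cons (.br (nat_lit 4) (.cons (.rel (nat_lit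 18253611588)) (.cons (.rel (nat_lit 18253611588)) .nil))) .nil)) .leaf) (nat_lit 29495127148544) (.br (nat_lit 4) (.cons (.br (nat_lit 5) (.cons (.rel (nat_lit 6442582032)) .nil)) .nil)) .leaf) (nat_lit 29495127148695) (.br (nat_lit 0) (.cons (.br (nat_lit 4) (.cons (.rel (nat_lit 1077940353)) .nil)) .nil)) (.node (.node .leaf (nat_lit 29495747905536) (.br (nat_lit 4) (.cons (.br (nat_lit 0) (.cons (.rel (nat_lit 2155889664)) (.cons (.rel (nat_lit 1078461441)) (.cons (.rel (nat_lit 1077937536)) (.cons (.rel (nat_lit 1082130528)) .nil))))) (.cons (.br (nat_lit 0) (.cons (.rel (nat_lit 1082150916)) (.cons (.rel (nat_lit 1077937536)) (.cons (.rel (nat_lit 1077937536)) (.cons (.br (nat_lit 1) (.cons (.rel (nat_lit 1107361794)) (.cons (.rel (nat_lit 1107296340)) (.cons (.rel (nat_lit 20977728)) (.cons (.rel (nat_lit 2181300240)) (.cons (.rel (nat_lit 1107312897)) (.cons (.rel (nat_lit 21495936)) (.cons (.rel (nat_lit 2164281408)) .nil)))))))) .nil))))) (.cons (.br (nat_lit 5) (.cons (.rel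 (nat_lit 5369233410)) (.cons (.rel (nat_lit 6443501568)) (.cons (.rel (nat_lit 5368709505)) (.cons (.rel (nat_lit 5368709505)) (.cons (.rel (nat_lit 5368779840)) (.cons (.rel (nat_lit 5368742913)) .nil))))))) .nil)))) .leaf) (nat_lit 29500500054016) (.br (nat_lit 2) (.cons (.br (nat_lit 4) (.cons (.rel (nat_lit 2214593664)) (.cons (.rel (nat_lit 2281717776)) .nil))) (.cons (.br (nat_lit 4) (.cons (.rel (nat_lit 1141129221)) (.cons (.rel (nat_lit 2281717776)) .nil))) .nil))) .leaf))) (nat_lit 29500500054017) (.br (nat_lit 4) (.cons (.br (nat_lit 0) (.cons (.rel (nat_lit 2151678096)) (.cons (.rel (nat_lit 1078988832)) .nil))) .nil)) (.node (.node (.node (.node .leaf (nat_lit 29500500054326) (.br (nat_lit 5) (.cons (.br (nat_lit 6) (.cons (.rel (nat_lit 38654723088)) .nil)) .nil)) .leaf) (nat_lit 29500500055271) (.br (nat_lit 4) (.cons (.br (nat_lit 5) (.cons (.rel (nat_lit 5368709505)) .nil)) .nil)) .leaf) (nat_lit 29500500055328) (.br (nat_lit 0) (.cons (.br (nat_lit 1) (.cons (.rel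 (nat_lit 22052868)) .nil)) .nil)) (.node (.node .leaf (nat_lit 29641157638446) (.br (nat_lit 2) (.cons (.br (nat_lit 3) (.cons (.rel (nat_lit 335544705)) .nil)) .nil)) .leaf) (nat_lit 29929996782823) (.br (nat_lit 0) (.cons (.br (nat_lit 3) (.cons (.rel (nat_lit 545521668)) .nil)) .nil)) .leaf)) (nat_lit 29929996886651) (.br (nat_lit 4) (.cons (.br (nat_lit 3) (.cons (.rel (nat_lit 1342178580)) (.cons (.rel (nat_lit 1342179585)) (.cons (.rel (nat_lit 1342185984)) .nil)))) .nil)) (.node (.node (.node .leaf (nat_lit 29929996886797) (.br (nat_lit 4) (.cons (.br (nat_lit 5) (.cons (.rel (nat_lit 5368779840)) (.cons (.rel (nat_lit 5368709505)) .nil))) .nil)) .leaf) (nat_lit 29929996887271) (.br (nat_lit 4) (.cons (.br (nat_lit 0) (.cons (.rel (nat_lit 1078026240)) (.cons (.rel (nat_lit 1077953088)) .nil))) .nil)) .leaf) (nat_lit 29929996887277) (.br (nat_lit 0) (.cons (.br (nat_lit 2) (.cons (.rel (nat_lit 71321088)) .nil)) .nil)) (.node (.node .leaf (nat_lit 29929996887326) (.br (nat_lit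 4) (.cons (.br (nat_lit 6) (.cons (.rel (nat_lit 19327377408)) (.cons (.rel (nat_lit 18253684740)) .nil))) (.cons (.br (nat_lit 6) (.cons (.rel (nat_lit 35433742401)) (.cons (.rel (nat_lit 18253873158)) .nil))) .nil))) .leaf) (nat_lit 30748666533095) (.br (nat_lit 0) (.cons (.br (nat_lit 1) (.cons (.rel (nat_lit 20993280)) .nil)) .nil)) .leaf))))))

/-- refutations 2 -/
def e2 : EX := (.node (.node (.node (.node (.node .leaf (nat_lit 88006628507648) (.br (nat_lit 2) (.cons (.br (nat_lit 4) (.cons (.rel (nat_lit 1140883488)) .nil)) .nil)) .leaf) (nat_lit 88006628508558) (.br (nat_lit 4) (.cons (.br (nat_lit 5) (.cons (.rel (nat_lit 10737680385)) (.cons (.rel (nat_lit 5369233410)) .nil))) (.cons (.br (nat_lit 5) (.cons (.rel (nat_lit 5368741908)) (.cons (.rel (nat_lit 6442484241)) .nil))) .nil))) .leaf) (nat_lit 88006628509078) (.br (nat_lit 4) (.cons (.br (nat_lit 2) (.cons (.rel (nat_lit 1140854916)) (.cons (.rel (nat_lit 1143017472)) .nil))) .nil)) (.node (.node .leaf (nat_lit 88009146634550)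 (.br (nat_lit 3) (.cons (.br (nat_lit 1) (.cons (.rel (nat_lit 301989960)) (.cons (.rel (nat_lit 285540864)) .nil))) .nil)) .leaf) (nat_lit 88408173169917) (.br (nat_lit 0) (.cons (.br (nat_lit 1) (.cons (.rel (nat_lit 21042177)) .nil)) .nil)) .leaf)) (nat_lit 88408173331709) (.br (nat_lit 0) (.cons (.br (nat_lit 1) (.cons (.rel (nat_lit 20977728)) .nil)) .nil)) (.node (.node (.node .leaf (nat_lit 88410237929503) (.br (nat_lit 1) (.cons (.br (nat_lit 6) (.cons (.rel (nat_lit 34393293072)) (.cons (.rel (nat_lit 34394750976)) .nil))) (.cons (.br (nat_lit 6) (.cons (.rel (nat_lit 17196646944)) (.cons (.rel (nat_lit 34376523840)) .nil))) .nil))) .leaf) (nat_lit 88410237929533) (.br (nat_lit 2) (.cons (.br (nat_lit 3) (.cons (.rel (nat_lit 335577108)) (.cons (.rel (nat_lit 335679489)) .nil))) (.cons (.br (nat_lit 3) (.cons (.rel (nat_lit 335568960)) (.cons (.rel (nat_lit 335577108)) .nil))) .nil))) .leaf) (nat_lit 88410237929632) (.br (nat_lit 3) (.cons (.br (nat_lit 4) (.cons (.rel (nat_lit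 1342179585)) .nil)) .nil)) (.node (.node .leaf (nat_lit 88410237930729) (.br (nat_lit 3) (.cons (.br (nat_lit 1) (.cons (.rel (nat_lit 285216897)) (.cons (.rel (nat_lit 570442752)) .nil))) .nil)) .leaf) (nat_lit 88410237930874) (.br (nat_lit 2) (.cons (.br (nat_lit 3) (.cons (.rel (nat_lit 606076992)) (.cons (.rel (nat_lit 335568960)) .nil))) .nil)) .leaf))) (nat_lit 88410238055035) (.br (nat_lit 0) (.cons (.br (nat_lit 4) (.cons (.rel (nat_lit 1077970944)) .nil)) .nil)) (.node (.node (.node (.node .leaf (nat_lit 88410239734686) (.br (nat_lit 1) (.cons (.br (nat_lit 3) (.cons (.rel (nat_lit 285479232)) .nil)) .nil)) .leaf) (nat_lit 88410239736443) (.br (nat_lit 3) (.cons (.br (nat_lit 4) (.cons (.rel (nat_lit 1342179585)) .nil)) .nil)) .leaf) (nat_lit 88410239736609) (.br (nat_lit 0) (.cons (.br (nat_lit 3) (.cons (.rel (nat_lit 272662545)) .nil)) .nil)) (.node (.node .leaf (nat_lit 88410239737065) (.br (nat_lit 1) (.cons (.br (nat_lit 5) (.cons (.rel (nat_lit 4311777408)) (.cons (.rel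 (nat_lit 4311777408)) .nil))) .nil)) .leaf) (nat_lit 88410239737069) (.br (nat_lit 1) (.cons (.br (nat_lit 3) (.cons (.rel (nat_lit 285247488)) .nil)) .nil)) .leaf)) (nat_lit 88410239737210) (.br (nat_lit 1) (.cons (.br (nat_lit 4) (.cons (.rel (nat_lit 2164391937)) .nil)) .nil)) (.node (.node (.node .leaf (nat_lit 88410363824129) (.br (nat_lit 1) (.cons (.br (nat_lit 4) (.cons (.rel (nat_lit 1090798596)) .nil)) .nil)) .leaf) (nat_lit 88410365657999) (.br (nat_lit 0) (.cons (.br (nat_lit 1) (.cons (.rel (nat_lit 20996097)) .nil)) .nil)) .leaf) (nat_lit 89338720318350) (.br (nat_lit 0) (.cons (.br (nat_lit 4) (.cons (.rel (nat_lit 1078026240)) .nil)) .nil)) (.node (.node .leaf (nat_lit 89338720318950) (.br (nat_lit 0) (.cons (.br (nat_lit 3) (.cons (.rel (nat_lit 276889602)) (.cons (.rel (nat_lit 276840705)) (.cons (.rel (nat_lit 273683457)) .nil)))) .nil)) .leaf) (nat_lit 89475910173474) (.br (nat_lit 2) (.cons (.br (nat_lit 3) (.cons (.rel (nat_lit 336598020)) .nil)) .nil)) .leaf))))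

/-- refutations 3 -/
def e3 : EX := (.node (.node (.node (.node (.node .leaf (nat_lit 90623837020941) (.br (nat_lit 0) (.cons (.br (nat_lit 1) (.cons (.rel (nat_lit 21495936)) .nil)) .nil)) .leaf) (nat_lit 90626441054989) (.br (nat_lit 0) (.cons (.br (nat_lit 2) (.cons (.rel (nat_lit 142622784)) .nil)) .nil)) .leaf) (nat_lit 93340859116156) (.br (nat_lit 0) (.cons (.br (nat_lit 1) (.cons (.rel (nat_lit 21381120)) .nil)) .nil)) (.node .leaf (nat_lit 94495197655195) (.br (nat_lit 2) (.cons (.br (nat_lit 3) (.cons (.rel (nat_lit 336068610)) .nil)) .nil)) .leaf)) (nat_lit 94495197655346) (.br (nat_lit 0) (.cons (.br (nat_lit 2) (.cons (.rel (nat_lit 71321088)) .nil)) .nil)) (.node (.node (.node .leaf (nat_lit 94495197656470) (.br (nat_lit 1) (.cons (.br (nat_lit 4) (.cons (.rel (nat_lit 1090551813)) .nil)) .nil)) .leaf) (nat_lit 94495197656550) (.br (nat_lit 4) (.cons (.br (nat_lit 0) (.cons (.rel (nat_lit 1077953088)) (.cons (.rel (nat_lit 1077970944)) .nil))) .nil)) .leaf) (nat_lit 95698375096630)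 (.br (nat_lit 1) (.cons (.br (nat_lit 4) (.cons (.rel (nat_lit 1107296340)) .nil)) .nil)) (.node .leaf (nat_lit 95958187668858) (.br (nat_lit 0) (.cons (.br (nat_lit 1) (.cons (.rel (nat_lit 20993280)) .nil)) .nil)) .leaf))) (nat_lit 95960791073694) (.br (nat_lit 0) (.cons (.br (nat_lit 1) (.cons (.rel (nat_lit 21495936)) .nil)) .nil)) (.node (.node (.node (.node .leaf (nat_lit 95960792331166) (.br (nat_lit 3) (.cons (.br (nat_lit 2) (.cons (.rel (nat_lit 335578113)) (.cons (.rel (nat_lit 335544705)) .nil))) .nil)) .leaf) (nat_lit 95964663672832) (.br (nat_lit 1) (.cons (.br (nat_lit 2) (.cons (.rel (nat_lit 83890272)) .nil)) .nil)) .leaf) (nat_lit 99182141798431) (.br (nat_lit 0) (.cons (.br (nat_lit 1) (.cons (.rel (nat_lit 21039360)) .nil)) .nil)) (.node .leaf (nat_lit 100288052872078) (.br (nat_lit 2) (.cons (.br (nat_lit 4) (.cons (.rel (nat_lit 1140916548)) (.cons (.rel (nat_lit 1207977216)) .nil))) .nil)) .leaf)) (nat_lit 100311170576384) (.br (nat_lit 3) (.cons (.br (nat_lit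 0) (.cons (.rel (nat_lit 272761104)) (.cons (.rel (nat_lit 545521668)) .nil))) .nil)) (.node (.node .leaf (nat_lit 100846988116643) (.br (nat_lit 0) (.cons (.br (nat_lit 1) (.cons (.rel (nat_lit 21234177)) .nil)) .nil)) .leaf) (nat_lit 100851099137510) (.br (nat_lit 1) (.cons (.br (nat_lit 6) (.cons (.rel (nat_lit 17213427840)) .nil)) .nil)) (.node .leaf (nat_lit 100851746192790) (.br (nat_lit 0) (.cons (.br (nat_lit 1) (.cons (.rel (nat_lit 20996097)) .nil)) .nil)) .leaf))))

/-- refutations 4 -/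
def e4 : EX := (.node (.node (.node (.node .leaf (nat_lit 194825599852851) (.br (nat_lit 2) (.cons (.br (nat_lit 4) (.cons (.rel (nat_lit 1143017472)) .nil)) .nil)) .leaf) (nat_lit 194825599852856) (.br (nat_lit 4) (.cons (.br (nat_lit 6) (.cons (.rel (nat_lit 19327423488)) .nil)) .nil)) .leaf) (nat_lit 195714148196509) (.br (nat_lit 0) (.cons (.br (nat_lit 1) (.cons (.rel (nat_lit 21495936)) .nil)) .nil)) (.node .leaf (nat_lit 195982133033267) (.br (nat_lit 0) (.cons (.br (nat_lit 1) (.cons (.rel (nat_lit 20996097)) .nil)) .nil)) .leaf)) (nat_lit 199184482600223) (.br (nat_lit 0) (.cons (.br (nat_lit 2) (.cons (.rel (nat_lit 71573505)) .nil)) .nil)) (.node (.node .leaf (nat_lit 199186177099039) (.br (nat_lit 0) (.cons (.br (nat_lit 2) (.cons (.rel (nat_lit 142934016)) (.cons (.rel (nat_lit 71323905)) .nil))) .nil)) .leaf) (nat_lit 199189328558387) (.br (nat_lit 0) (.cons (.br (nat_lit 2) (.cons (.rel (nat_lit 71305536)) .nil)) .nil)) (.node .leaf (nat_lit 201293229203763) (.br (nat_lit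 0) (.cons (.br (nat_lit 2) (.cons (.rel (nat_lit 71305536)) .nil)) .nil)) .leaf)))

/-- refutations 5 -/
def e5 : EX := (.node (.node (.node (.node (.node .leaf (nat_lit 475226201180311) (.br (nat_lit 0) (.cons (.br (nat_lit 1) (.cons (.rel (nat_lit 20977728)) .nil)) .nil)) .leaf) (nat_lit 475436358582273) (.br (nat_lit 0) (.cons (.br (nat_lit 1) (.cons (.rel (nat_lit 21039360)) .nil)) .nil)) (.node .leaf (nat_lit 475438364565505) (.br (nat_lit 3) (.cons (.br (nat_lit 4) (.cons (.rel (nat_lit 1342185984)) .nil)) .nil)) .leaf)) (nat_lit 475438472750338) (.br (nat_lit 4) (.cons (.br (nat_lit 5) (.cons (.rel (nat_lit 5368709505)) (.cons (.rel (nat_lit 5368709505)) .nil))) (.cons (.br (nat_lit 5) (.cons (.rel (nat_lit 5368844289)) (.cons (.rel (nat_lit 5368709505)) .nil))) .nil))) (.node (.node .leaf (nat_lit 475438473512961) (.br (nat_lit 3) (.cons (.br (nat_lit 4) (.cons (.rel (nat_lit 1610613765)) (.cons (.rel (nat_lit 1342178580)) (.cons (.rel (nat_lit 1342178580)) (.cons (.rel (nat_lit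 1342178580)) .nil))))) (.cons (.br (nat_lit 4) (.cons (.rel (nat_lit 1342185984)) (.cons (.rel (nat_lit 2415919140)) (.cons (.rel (nat_lit 1342179585)) (.cons (.rel (nat_lit 1342182402)) .nil))))) (.cons (.br (nat_lit 4) (.cons (.rel (nat_lit 1342247040)) (.cons (.rel (nat_lit 1342182402)) (.cons (.rel (nat_lit 1342185984)) (.cons (.rel (nat_lit 1342521345)) .nil))))) .nil)))) .leaf) (nat_lit 475438473513270) (.br (nat_lit 4) (.cons (.br (nat_lit 5) (.cons (.rel (nat_lit 6442582032)) .nil)) .nil)) .leaf)) (nat_lit 475438473514247) (.br (nat_lit 3) (.cons (.br (nat_lit 4) (.cons (.rel (nat_lit 1342210113)) (.cons (.rel (nat_lit 1342185984)) .nil))) .nil)) (.node (.node (.node .leaf (nat_lit 475438473514271) (.br (nat_lit 4) (.cons (.br (nat_lit 5) (.cons (.rel (nat_lit 5368709505)) .nil)) .nil)) .leaf) (nat_lit 475438473568913) (.br (nat_lit 0) (.cons (.br (nat_lit 3) (.cons (.rel (nat_lit 273154056)) .nil)) .nil)) .leaf) (nat_lit 475438474129409) (.br (nat_lit 2) (.cons (.br (nat_lit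 3) (.cons (.rel (nat_lit 335568960)) (.cons (.rel (nat_lit 336598020)) .nil))) (.cons (.br (nat_lit 4) (.cons (.rel (nat_lit 1207961664)) (.cons (.rel (nat_lit 1143017472)) .nil))) .nil))) (.node (.node .leaf (nat_lit 475438474149889) (.br (nat_lit 0) (.cons (.br (nat_lit 4) (.cons (.rel (nat_lit 1077937536)) .nil)) .nil)) .leaf) (nat_lit 475438475051009) (.br (nat_lit 2) (.cons (.br (nat_lit 4) (.cons (.rel (nat_lit 2281717776)) .nil)) .nil)) .leaf))) (nat_lit 475438475317373) (.br (nat_lit 0) (.cons (.br (nat_lit 3) (.cons (.rel (nat_lit 273154056)) .nil)) .nil)) (.node (.node (.node (.node .leaf (nat_lit 475440945555457) (.br (nat_lit 0) (.cons (.br (nat_lit 1) (.cons (.rel (nat_lit 21042177)) .nil)) .nil)) .leaf) (nat_lit 476300673022202) (.br (nat_lit 0) (.cons (.br (nat_lit 5) (.cons (.rel (nat_lit 4303364352)) .nil)) .nil)) (.node .leaf (nat_lit 477357128829078) (.br (nat_lit 1) (.cons (.br (nat_lit 2) (.cons (.rel (nat_lit 83910660)) .nil)) .nil)) .leaf)) (nat_lit 477374936377344)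 (.br (nat_lit 3) (.cons (.br (nat_lit 4) (.cons (.rel (nat_lit 1342472448)) .nil)) .nil)) (.node (.node .leaf (nat_lit 477374939387904) (.br (nat_lit 0) (.cons (.br (nat_lit 4) (.cons (.rel (nat_lit 1078214658)) .nil)) .nil)) .leaf) (nat_lit 477571981740282) (.br (nat_lit 3) (.cons (.br (nat_lit 5) (.cons (.rel (nat_lit 4564729920)) .nil)) .nil)) .leaf)) (nat_lit 480637859973271) (.br (nat_lit 4) (.cons (.br (nat_lit 6) (.cons (.rel (nat_lit 18253627425)) .nil)) .nil)) (.node (.node (.node .leaf (nat_lit 480637859974406) (.br (nat_lit 5) (.cons (.br (nat_lit 4) (.cons (.rel (nat_lit 5368775016)) (.cons (.rel (nat_lit 5368742913)) .nil))) .nil)) .leaf) (nat_lit 480637860436270) (.br (nat_lit 6) (.cons (.br (nat_lit 1) (.cons (.rel (nat_lit 34376523840)) (.cons (.rel (nat_lit 17196793890)) .nil))) .nil)) .leaf) (nat_lit 482989025323665) (.br (nat_lit 0) (.cons (.br (nat_lit 5) (.cons (.rel (nat_lit 4299161937)) .nil)) .nil)) (.node (.node .leaf (nat_lit 487032683202561) (.br (nat_lit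 0) (.cons (.br (nat_lit 1) (.cons (.rel (nat_lit 20993280)) .nil)) .nil)) .leaf) (nat_lit 487333961411842) (.br (nat_lit 0) (.cons (.br (nat_lit 5) (.cons (.rel (nat_lit 4299161937)) .nil)) .nil)) .leaf))))

/-- refutations 6 -/
def e6 : EX := (.node (.node (.node (.node (.node (.node .leaf (nat_lit 615772219703297) (.br (nat_lit 1) (.cons (.br (nat_lit 2) (.cons (.rel (nat_lit 83890272)) .nil)) .nil)) .leaf) (nat_lit 615775357401089) (.br (nat_lit 3) (.cons (.br (nat_lit 6) (.cons (.rel (nat_lit 17448322050)) (.cons (.rel (nat_lit 17448568833)) .nil))) .nil)) (.node .leaf (nat_lit 615775357401094) (.br (nat_lit 2) (.cons (.br (nat_lit 3) (.cons (.rel (nat_lit 335824896)) .nil)) .nil)) .leaf)) (nat_lit 616038507945368) (.br (nat_lit 6) (.cons (.br (nat_lit 3) (.cons (.rel (nat_lit 34628190288)) (.cons (.rel (nat_lit 17448321045)) (.cons (.rel (nat_lit 34629226752)) .nil)))) .nil)) (.node (.node .leaf (nat_lit 616158764313487) (.br (nat_lit 0) (.cons (.br (nat_lit 3) (.cons (.rel (nat_lit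 545521668)) .nil)) .nil)) .leaf) (nat_lit 616158764314008) (.br (nat_lit 1) (.cons (.br (nat_lit 3) (.cons (.rel (nat_lit 285247488)) .nil)) .nil)) (.node .leaf (nat_lit 616167353948161) (.br (nat_lit 1) (.cons (.br (nat_lit 2) (.cons (.rel (nat_lit 85987329)) .nil)) .nil)) .leaf))) (nat_lit 616167353949417) (.br (nat_lit 1) (.cons (.br (nat_lit 2) (.cons (.rel (nat_lit 83910660)) .nil)) .nil)) (.node (.node (.node .leaf (nat_lit 616167355160577) (.br (nat_lit 1) (.cons (.br (nat_lit 3) (.cons (.rel (nat_lit 570442752)) (.cons (.rel (nat_lit 285348864)) .nil))) .nil)) .leaf) (nat_lit 616167355161487) (.br (nat_lit 1) (.cons (.br (nat_lit 2) (.cons (.rel (nat_lit 100794432)) (.cons (.rel (nat_lit 85987329)) (.cons (.rel (nat_lit 85213200)) .nil)))) .nil)) (.node .leaf (nat_lit 616167357024257) (.br (nat_lit 3) (.cons (.br (nat_lit 1) (.cons (.rel (nat_lit 570442752)) (.cons (.rel (nat_lit 285491202)) .nil))) .nil)) .leaf)) (nat_lit 616167357025167) (.br (nat_lit 3) (.cons (.br (nat_lit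 1) (.cons (.rel (nat_lit 285216897)) (.cons (.rel (nat_lit 285302784)) .nil))) .nil)) (.node (.node .leaf (nat_lit 616167357025513) (.br (nat_lit 1) (.cons (.br (nat_lit 3) (.cons (.rel (nat_lit 285214080)) .nil)) .nil)) .leaf) (nat_lit 616173213426426) (.br (nat_lit 0) (.cons (.br (nat_lit 4) (.cons (.rel (nat_lit 1077937536)) .nil)) .nil)) .leaf))) (nat_lit 616173213427226) (.br (nat_lit 2) (.cons (.br (nat_lit 5) (.cons (.rel (nat_lit 4362080322)) .nil)) .nil)) (.node (.node (.node (.node .leaf (nat_lit 616173759859599) (.br (nat_lit 1) (.cons (.br (nat_lit 3) (.cons (.rel (nat_lit 285302784)) (.cons (.rel (nat_lit 285216897)) .nil))) .nil)) .leaf) (nat_lit 616173759860120) (.br (nat_lit 1) (.cons (.br (nat_lit 5) (.cons (.rel (nat_lit 8623816704)) .nil)) .nil)) (.node .leaf (nat_lit 616173847939072) (.br (nat_lit 5) (.cons (.br (nat_lit 4) (.cons (.rel (nat_lit 6442582032)) (.cons (.rel (nat_lit 5368841472)) .nil))) .nil)) .leaf)) (nat_lit 616173847939073) (.br (nat_lit 1) (.cons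 (.br (nat_lit 0) (.cons (.rel (nat_lit 20971842)) (.cons (.rel (nat_lit 20977728)) .nil))) .nil)) (.node (.node .leaf (nat_lit 616174497350269) (.br (nat_lit 3) (.cons (.br (nat_lit 6) (.cons (.rel (nat_lit 17448371712)) .nil)) .nil)) .leaf) (nat_lit 616175943885700) (.br (nat_lit 1) (.cons (.br (nat_lit 2) (.cons (.rel (nat_lit 83886405)) .nil)) .nil)) .leaf)) (nat_lit 616175945091072) (.br (nat_lit 3) (.cons (.br (nat_lit 5) (.cons (.rel (nat_lit 8858435604)) (.cons (.rel (nat_lit 4563435528)) (.cons (.rel (nat_lit 9126821892)) (.cons (.rel (nat_lit 4563681297)) (.cons (.rel (nat_lit 9126821892)) .nil)))))) (.cons (.br (nat_lit 5) (.cons (.rel (nat_lit 9126821892)) (.cons (.rel (nat_lit 4563681297)) (.cons (.rel (nat_lit 4564729920)) (.cons (.rel (nat_lit 4564455426)) (.cons (.rel (nat_lit 4564455426)) .nil)))))) (.cons (.br (nat_lit 4) (.cons (.rel (nat_lit 2417033217)) (.cons (.rel (nat_lit 1342521345)) (.cons (.rel (nat_lit 1342179585)) .nil)))) .nil)))) (.node (.node (.node .leaf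 (nat_lit 616175945091073) (.br (nat_lit 0) (.cons (.br (nat_lit 2) (.cons (.rel (nat_lit 71305536)) (.cons (.rel (nat_lit 71305536)) (.cons (.rel (nat_lit 71308353)) (.cons (.rel (nat_lit 71305536)) (.cons (.rel (nat_lit 71336064)) (.cons (.rel (nat_lit 71305536)) .nil))))))) (.cons (.br (nat_lit 4) (.cons (.rel (nat_lit 1077937536)) (.cons (.rel (nat_lit 1084227585)) (.cons (.rel (nat_lit 1077940353)) (.cons (.rel (nat_lit 1078988832)) (.cons (.rel (nat_lit 1077970944)) .nil)))))) (.cons (.br (nat_lit 1) (.cons (.rel (nat_lit 20971842)) (.cons (.rel (nat_lit 21495936)) (.cons (.rel (nat_lit 21069888)) (.cons (.rel (nat_lit 21041172)) (.cons (.rel (nat_lit 20971842)) .nil)))))) (.cons (.br (nat_lit 1) (.cons (.rel (nat_lit 20971842)) (.cons (.rel (nat_lit 21495936)) (.cons (.rel (nat_lit 23068944)) (.cons (.rel (nat_lit 20971842)) (.cons (.rel (nat_lit 20971842)) .nil)))))) .nil))))) .leaf) (nat_lit 616175945091103) (.br (nat_lit 3) (.cons (.br (nat_lit 1) (.cons (.rel (nat_lit 285214080))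 (.cons (.rel (nat_lit 285247488)) .nil))) .nil)) (.node .leaf (nat_lit 616175945091109) (.br (nat_lit 4) (.cons (.br (nat_lit 3) (.cons (.rel (nat_lit 1342185984)) (.cons (.rel (nat_lit 1342179585)) (.cons (.rel (nat_lit 1342178580)) .nil)))) .nil)) .leaf)) (nat_lit 616175945091248) (.br (nat_lit 3) (.cons (.br (nat_lit 4) (.cons (.rel (nat_lit 1342179585)) (.cons (.rel (nat_lit 1342181397)) .nil))) (.cons (.br (nat_lit 5) (.cons (.rel (nat_lit 9126821892)) (.cons (.rel (nat_lit 4565041152)) .nil))) .nil))) (.node (.node .leaf (nat_lit 616175945091258) (.br (nat_lit 4) (.cons (.br (nat_lit 2) (.cons (.rel (nat_lit 1141899528)) (.cons (.rel (nat_lit 1207961664)) (.cons (.rel (nat_lit 1141899528)) .nil)))) (.cons (.br (nat_lit 6) (.cons (.rel (nat_lit 18253873158)) (.cons (.rel (nat_lit 35434004736)) (.cons (.rel (nat_lit 18253873158)) .nil)))) .nil))) .leaf) (nat_lit 616175945091353) (.br (nat_lit 0) (.cons (.br (nat_lit 4) (.cons (.rel (nat_lit 1077937536)) (.cons (.rel (nat_lit 1077940353))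 .nil))) (.cons (.br (nat_lit 4) (.cons (.rel (nat_lit 1078214658)) (.cons (.rel (nat_lit 1077937536)) .nil))) .nil))) .leaf)))) (nat_lit 616175945091703) (.br (nat_lit 0) (.cons (.br (nat_lit 4) (.cons (.rel (nat_lit 1084227585)) (.cons (.rel (nat_lit 1077937536)) .nil))) (.cons (.br (nat_lit 4) (.cons (.rel (nat_lit 1078026240)) (.cons (.rel (nat_lit 2155889664)) .nil))) .nil))) (.node (.node (.node (.node (.node .leaf (nat_lit 616175945091729) (.br (nat_lit 3) (.cons (.br (nat_lit 4) (.cons (.rel (nat_lit 1342185984)) .nil)) .nil)) .leaf) (nat_lit 616175945091873) (.br (nat_lit 2) (.cons (.br (nat_lit 3) (.cons (.rel (nat_lit 335679489)) (.cons (.rel (nat_lit 402718728)) (.cons (.rel (nat_lit 336068610)) (.cons (.rel (nat_lit 605569032)) .nil))))) (.cons (.br (nat_lit 4) (.cons (.rel (nat_lit 1140883488)) (.cons (.rel (nat_lit 1140854916)) .nil))) .nil))) (.node .leaf (nat_lit 616175945091983) (.br (nat_lit 3) (.cons (.br (nat_lit 1) (.cons (.rel (nat_lit 285491202)) (.cons (.rel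 (nat_lit 285302784)) (.cons (.rel (nat_lit 285214080)) (.cons (.rel (nat_lit 285491202)) .nil))))) (.cons (.br (nat_lit 4) (.cons (.rel (nat_lit 1342185984)) (.cons (.rel (nat_lit 1342210113)) (.cons (.rel (nat_lit 1342521345)) (.cons (.rel (nat_lit 2684358912)) .nil))))) (.cons (.br (nat_lit 1) (.cons (.rel (nat_lit 570442752)) (.cons (.rel (nat_lit 285214080)) (.cons (.rel (nat_lit 285216897)) (.cons (.rel (nat_lit 285491202)) .nil))))) .nil)))) .leaf)) (nat_lit 616175945092323) (.br (nat_lit 0) (.cons (.br (nat_lit 3) (.cons (.rel (nat_lit 273682452)) .nil)) .nil)) (.node (.node .leaf (nat_lit 616175945092328) (.br (nat_lit 3) (.cons (.br (nat_lit 4) (.cons (.rel (nat_lit 1610612760)) (.cons (.rel (nat_lit 1342179585)) .nil))) .nil)) .leaf) (nat_lit 616175945092329) (.br (nat_lit 3) (.cons (.br (nat_lit 4) (.cons (.rel (nat_lit 1610612760)) (.cons (.rel (nat_lit 1342179585)) (.cons (.rel (nat_lit 1342179585)) (.cons (.rel (nat_lit 1342179585)) .nil))))) (.cons (.br (nat_lit 1) (.cons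 (.rel (nat_lit 285302784)) (.cons (.br (nat_lit 5) (.cons (.rel (nat_lit 4564455426)) (.cons (.rel (nat_lit 4563435528)) (.cons (.rel (nat_lit 4311746880)) (.cons (.rel (nat_lit 4831839360)) (.cons (.rel (nat_lit 4564455426)) .nil)))))) (.cons (.rel (nat_lit 285214080)) .nil)))) .nil))) (.node .leaf (nat_lit 616175945092333) (.br (nat_lit 3) (.cons (.br (nat_lit 0) (.cons (.rel (nat_lit 273683457)) (.cons (.rel (nat_lit 272662545)) .nil))) .nil)) .leaf))) (nat_lit 616175945092347) (.br (nat_lit 3) (.cons (.br (nat_lit 1) (.cons (.rel (nat_lit 570442752)) (.cons (.rel (nat_lit 286261509)) .nil))) .nil)) (.node (.node (.node .leaf (nat_lit 616175945092348) (.br (nat_lit 3) (.cons (.br (nat_lit 4) (.cons (.rel (nat_lit 1342179585)) (.cons (.rel (nat_lit 1342182402)) .nil))) .nil)) .leaf) (nat_lit 616175945092504) (.br (nat_lit 1) (.cons (.br (nat_lit 3) (.cons (.rel (nat_lit 285214080)) (.cons (.rel (nat_lit 285214080)) .nil))) (.cons (.br (nat_lit 3) (.cons (.rel (nat_lit 285302784))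 (.cons (.rel (nat_lit 285214080)) .nil))) .nil))) (.node .leaf (nat_lit 616175945156609) (.br (nat_lit 2) (.cons (.br (nat_lit 4) (.cons (.rel (nat_lit 1141376004)) .nil)) .nil)) .leaf)) (nat_lit 616175946898039) (.br (nat_lit 0) (.cons (.br (nat_lit 4) (.cons (.rel (nat_lit 1078202688)) .nil)) .nil)) (.node (.node .leaf (nat_lit 616175946898840) (.br (nat_lit 1) (.cons (.br (nat_lit 4) (.cons (.rel (nat_lit 1090551813)) .nil)) .nil)) .leaf) (nat_lit 616178483949569) (.br (nat_lit 1) (.cons (.br (nat_lit 4) (.cons (.rel (nat_lit 1090551813)) .nil)) .nil)) .leaf))) (nat_lit 616179092717729) (.br (nat_lit 1) (.cons (.br (nat_lit 2) (.cons (.rel (nat_lit 84148740)) .nil)) .nil)) (.node (.node (.node (.node .leaf (nat_lit 616208209524737) (.br (nat_lit 1) (.cons (.br (nat_lit 3) (.cons (.rel (nat_lit 285216897)) .nil)) .nil)) .leaf) (nat_lit 616253254608280) (.br (nat_lit 1) (.cons (.br (nat_lit 2) (.cons (.rel (nat_lit 85987329)) .nil)) .nil)) (.node .leaf (nat_lit 616256393699339) (.br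 (nat_lit 0) (.cons (.br (nat_lit 1) (.cons (.rel (nat_lit 20996097)) .nil)) .nil)) .leaf)) (nat_lit 616900038547618) (.br (nat_lit 3) (.cons (.br (nat_lit 4) (.cons (.rel (nat_lit 1342210113)) .nil)) .nil)) (.node (.node .leaf (nat_lit 617026348978457) (.br (nat_lit 0) (.cons (.br (nat_lit 2) (.cons (.rel (nat_lit 71372802)) .nil)) .nil)) .leaf) (nat_lit 617275993858684) (.br (nat_lit 0) (.cons (.br (nat_lit 2) (.cons (.rel (nat_lit 71305536)) .nil)) .nil)) .leaf)) (nat_lit 617278176020656) (.br (nat_lit 1) (.cons (.br (nat_lit 3) (.cons (.rel (nat_lit 570442752)) .nil)) .nil)) (.node (.node (.node .leaf (nat_lit 617278176524593) (.br (nat_lit 0) (.cons (.br (nat_lit 3) (.cons (.rel (nat_lit 273154056)) .nil)) .nil)) .leaf) (nat_lit 617880545452043) (.br (nat_lit 2) (.cons (.br (nat_lit 3) (.cons (.rel (nat_lit 335548584)) (.cons (.rel (nat_lit 335630592)) .nil))) (.cons (.br (nat_lit 3) (.cons (.rel (nat_lit 335544705)) (.cons (.rel (nat_lit 335824896)) .nil))) .nil))) (.node .leaf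 (nat_lit 617928293390522) (.br (nat_lit 1) (.cons (.br (nat_lit 4) (.cons (.rel (nat_lit 1107361794)) .nil)) .nil)) .leaf)) (nat_lit 617928293391236) (.br (nat_lit 1) (.cons (.br (nat_lit 2) (.cons (.rel (nat_lit 100664340)) .nil)) .nil)) (.node (.node .leaf (nat_lit 618151628838913) (.br (nat_lit 4) (.cons (.br (nat_lit 6) (.cons (.rel (nat_lit 35433517056)) .nil)) .nil)) .leaf) (nat_lit 618154777311382) (.br (nat_lit 2) (.cons (.br (nat_lit 3) (.cons (.rel (nat_lit 335544705)) .nil)) .nil)) .leaf)))))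

/-- refutations 7 -/
def e7 : EX := (.node (.node (.node (.node (.node (.node .leaf (nat_lit 621372854751408) (.br (nat_lit 1) (.cons (.br (nat_lit 2) (.cons (.rel (nat_lit 85213200)) .nil)) .nil)) .leaf) (nat_lit 621372854752132) (.br (nat_lit 3) (.cons (.br (nat_lit 4) (.cons (.rel (nat_lit 1342185984)) .nil)) .nil)) (.node .leaf (nat_lit 621372854752488) (.br (nat_lit 2) (.cons (.br (nat_lit 6) (.cons (.rel (nat_lit 17249157120)) .nil)) .nil)) .leaf)) (nat_lit 621372854752507) (.br (nat_lit 2) (.cons (.br (nat_lit 1) (.cons (.rel (nat_lit 100665345)) (.cons (.rel (nat_lit 100665345)) .nil))) .nil)) (.node (.node .leaf (nat_lit 621373401048602) (.br (nat_lit 1) (.cons (.br (nat_lit 2) (.cons (.rel (nat_lit 83890272)) .nil)) .nil)) .leaf) (nat_lit 621375394379014) (.br (nat_lit 1) (.cons (.br (nat_lit 2) (.cons (.rel (nat_lit 85987329)) .nil)) .nil)) (.node .leaf (nat_lit 621401113950368) (.br (nat_lit 1) (.cons (.br (nat_lit 3) (.cons (.rel (nat_lit 285302784)) .nil)) .nil)) .leaf)))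 (nat_lit 623300160583990) (.br (nat_lit 0) (.cons (.br (nat_lit 5) (.cons (.rel (nat_lit 4299161937)) .nil)) .nil)) (.node (.node (.node .leaf (nat_lit 623339950544897) (.br (nat_lit 1) (.cons (.br (nat_lit 3) (.cons (.rel (nat_lit 285247488)) .nil)) .nil)) .leaf) (nat_lit 623339952408577) (.br (nat_lit 1) (.cons (.br (nat_lit 3) (.cons (.rel (nat_lit 285216897)) .nil)) .nil)) (.node .leaf (nat_lit 623339952409487) (.br (nat_lit 1) (.cons (.br (nat_lit 3) (.cons (.rel (nat_lit 570442752)) .nil)) .nil)) .leaf)) (nat_lit 623339952410008) (.br (nat_lit 1) (.cons (.br (nat_lit 3) (.cons (.rel (nat_lit 285214080)) .nil)) .nil)) (.node (.node .leaf (nat_lit 623726496689560) (.br (nat_lit 6) (.cons (.br (nat_lit 1) (.cons (.rel (nat_lit 17196654597)) (.cons (.rel (nat_lit 34393293072)) .nil))) .nil)) .leaf) (nat_lit 623726497598701) (.br (nat_lit 0) (.cons (.br (nat_lit 1) (.cons (.rel (nat_lit 21495936)) .nil)) .nil)) (.node .leaf (nat_lit 626569764739073) (.br (nat_lit 3) (.cons (.br (nat_lit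 6) (.cons (.rel (nat_lit 34629226752)) .nil)) .nil)) .leaf)))) (nat_lit 626569764739983) (.br (nat_lit 1) (.cons (.br (nat_lit 2) (.cons (.rel (nat_lit 100664340)) .nil)) .nil)) (.node (.node (.node (.node .leaf (nat_lit 626569766012929) (.br (nat_lit 1) (.cons (.br (nat_lit 2) (.cons (.rel (nat_lit 150995970)) .nil)) .nil)) .leaf) (nat_lit 626741563383809) (.br (nat_lit 3) (.cons (.br (nat_lit 4) (.cons (.rel (nat_lit 2684358912)) .nil)) .nil)) (.node .leaf (nat_lit 626947721863169) (.br (nat_lit 4) (.cons (.br (nat_lit 6) (.cons (.rel (nat_lit 35433517056)) .nil)) .nil)) .leaf)) (nat_lit 626948872309992) (.br (nat_lit 1) (.cons (.br (nat_lit 2) (.cons (.rel (nat_lit 150999552)) .nil)) .nil)) (.node (.node .leaf (nat_lit 627798126596096) (.br (nat_lit 3) (.cons (.br (nat_lit 1) (.cons (.rel (nat_lit 285491202)) (.cons (.rel (nat_lit 285214080)) .nil))) .nil)) .leaf) (nat_lit 627798126597528) (.br (nat_lit 3) (.cons (.br (nat_lit 1) (.cons (.rel (nat_lit 285214080)) (.cons (.rel (nat_lit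 285214080)) .nil))) .nil)) (.node .leaf (nat_lit 627806716532736) (.br (nat_lit 1) (.cons (.br (nat_lit 5) (.cons (.rel (nat_lit 4328522760)) (.cons (.rel (nat_lit 4328522760)) (.cons (.rel (nat_lit 4328522760)) (.cons (.rel (nat_lit 4311814146)) .nil))))) .nil)) .leaf))) (nat_lit 627806716533647) (.br (nat_lit 1) (.cons (.br (nat_lit 3) (.cons (.rel (nat_lit 285247488)) .nil)) .nil)) (.node (.node (.node .leaf (nat_lit 627806716534168) (.br (nat_lit 3) (.cons (.br (nat_lit 0) (.cons (.rel (nat_lit 545521668)) (.cons (.rel (nat_lit 541082946)) .nil))) .nil)) .leaf) (nat_lit 627806718396417) (.br (nat_lit 1) (.cons (.br (nat_lit 2) (.cons (.rel (nat_lit 83886405)) (.cons (.rel (nat_lit 85213200)) .nil))) .nil)) (.node .leaf (nat_lit 627806718397327) (.br (nat_lit 1) (.cons (.br (nat_lit 3) (.cons (.rel (nat_lit 570442752)) (.cons (.rel (nat_lit 570442752)) .nil))) .nil)) .leaf)) (nat_lit 627813121231759) (.br (nat_lit 3) (.cons (.br (nat_lit 6) (.cons (.rel (nat_lit 17448312897)) (.cons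 (.rel (nat_lit 17448310080)) .nil))) .nil)) (.node (.node .leaf (nat_lit 627813209311233) (.br (nat_lit 2) (.cons (.br (nat_lit 1) (.cons (.rel (nat_lit 85987329)) (.cons (.rel (nat_lit 100794432)) .nil))) .nil)) .leaf) (nat_lit 627815305207994) (.br (nat_lit 2) (.cons (.br (nat_lit 3) (.cons (.rel (nat_lit 671350785)) .nil)) .nil)) (.node .leaf (nat_lit 627815305299969) (.br (nat_lit 4) (.cons (.br (nat_lit 2) (.cons (.rel (nat_lit 1207961664)) (.cons (.rel (nat_lit 1141376004)) .nil))) .nil)) .leaf))))) (nat_lit 627815305301400) (.br (nat_lit 0) (.cons (.br (nat_lit 1) (.cons (.rel (nat_lit 21242880)) .nil)) .nil)) (.node (.node (.node (.node (.node .leaf (nat_lit 627815306463232) (.br (nat_lit 3) (.cons (.br (nat_lit 4) (.cons (.rel (nat_lit 1343230020)) (.cons (.rel (nat_lit 1342182402)) (.cons (.rel (nat_lit 2684358912)) .nil)))) (.cons (.br (nat_lit 4) (.cons (.rel (nat_lit 2684358912)) (.cons (.rel (nat_lit 1342182402)) (.cons (.rel (nat_lit 1610612760)) .nil)))) .nil))) .leaf)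 (nat_lit 627815306463233) (.br (nat_lit 5) (.cons (.br (nat_lit 2) (.cons (.rel (nat_lit 4362077505)) (.cons (.rel (nat_lit 4362077505)) (.cons (.rel (nat_lit 4362240000)) (.cons (.rel (nat_lit 4362077505)) (.cons (.rel (nat_lit 4362080322)) (.cons (.rel (nat_lit 4362077505)) .nil))))))) (.cons (.br (nat_lit 4) (.cons (.rel (nat_lit 10737424704)) (.cons (.rel (nat_lit 5368742913)) (.cons (.rel (nat_lit 5368709505)) (.cons (.rel (nat_lit 5369233410)) .nil))))) .nil))) (.node .leaf (nat_lit 627815306463408) (.br (nat_lit 3) (.cons (.br (nat_lit 5) (.cons (.rel (nat_lit 4563435528)) (.cons (.rel (nat_lit 4563435528)) .nil))) (.cons (.br (nat_lit 5) (.cons (.rel (nat_lit 8858372160)) (.cons (.rel (nat_lit 8858372160)) .nil))) .nil))) .leaf)) (nat_lit 627815306463418) (.br (nat_lit 6) (.cons (.br (nat_lit 3) (.cons (.rel (nat_lit 17448322050)) (.cons (.rel (nat_lit 17448312897)) (.cons (.rel (nat_lit 17448323112)) .nil)))) (.cons (.br (nat_lit 3) (.cons (.rel (nat_lit 17448310080)) (.cons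 (.rel (nat_lit 17448568833)) (.cons (.rel (nat_lit 17448568833)) .nil)))) .nil))) (.node (.node .leaf (nat_lit 627815306463513) (.br (nat_lit 0) (.cons (.br (nat_lit 3) (.cons (.rel (nat_lit 273683457)) (.cons (.rel (nat_lit 272909328)) .nil))) (.cons (.br (nat_lit 3) (.cons (.rel (nat_lit 272635026)) (.cons (.rel (nat_lit 545521668)) .nil))) .nil))) .leaf) (nat_lit 627815306463543) (.br (nat_lit 3) (.cons (.br (nat_lit 4) (.cons (.rel (nat_lit 1610612760)) (.cons (.rel (nat_lit 2416968768)) (.cons (.rel (nat_lit 1342185984)) .nil)))) .nil)) (.node .leaf (nat_lit 627815306464033) (.br (nat_lit 0) (.cons (.br (nat_lit 4) (.cons (.rel (nat_lit 1078072320)) (.cons (.rel (nat_lit 2155889664)) .nil))) (.cons (.br (nat_lit 4) (.cons (.rel (nat_lit 1077937536)) (.cons (.rel (nat_lit 1077937536)) .nil))) .nil))) .leaf))) (nat_lit 627815306464132) (.br (nat_lit 3) (.cons (.br (nat_lit 4) (.cons (.rel (nat_lit 1342247040)) .nil)) .nil)) (.node (.node (.node .leaf (nat_lit 627815306464143) (.br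 (nat_lit 3) (.cons (.br (nat_lit 4) (.cons (.rel (nat_lit 1342182402)) (.cons (.rel (nat_lit 1342178580)) (.cons (.rel (nat_lit 1610612760)) (.cons (.rel (nat_lit 2415919140)) (.cons (.rel (nat_lit 1342179585)) .nil)))))) .nil)) .leaf) (nat_lit 627815306464488) (.br (nat_lit 6) (.cons (.br (nat_lit 2) (.cons (.rel (nat_lit 17246979588)) (.cons (.rel (nat_lit 17246979588)) (.cons (.rel (nat_lit 34426863618)) (.cons (.rel (nat_lit 34426863618)) .nil))))) (.cons (.br (nat_lit 4) (.cons (.rel (nat_lit 35433517056)) (.cons (.rel (nat_lit 18253684740)) (.cons (.rel (nat_lit 18255712512)) .nil)))) .nil))) (.node .leaf (nat_lit 627815306464489) (.br (nat_lit 3) (.cons (.br (nat_lit 5) (.cons (.rel (nat_lit 4563435528)) (.cons (.br (nat_lit 4) (.cons (.rel (nat_lit 1342178580)) (.cons (.rel (nat_lit 5368709505)) (.cons (.rel (nat_lit 1342182402)) (.cons (.rel (nat_lit 1342181397)) .nil))))) (.cons (.rel (nat_lit 9126821892)) .nil)))) (.cons (.br (nat_lit 5) (.cons (.rel (nat_lit 4563406992))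 (.cons (.br (nat_lit 6) (.cons (.rel (nat_lit 21474842880)) (.cons (.rel (nat_lit 17448322050)) (.cons (.rel (nat_lit 17448312897)) (.cons (.rel (nat_lit 17448567828)) .nil))))) (.cons (.rel (nat_lit 4563681297)) .nil)))) (.cons (.br (nat_lit 5) (.cons (.rel (nat_lit 4563435528)) (.cons (.rel (nat_lit 4563681297)) (.cons (.rel (nat_lit 4563435528)) .nil)))) .nil)))) .leaf)) (nat_lit 627815306464493) (.br (nat_lit 0) (.cons (.br (nat_lit 3) (.cons (.rel (nat_lit 276957312)) .nil)) .nil)) (.node (.node .leaf (nat_lit 627815306464507) (.br (nat_lit 3) (.cons (.br (nat_lit 1) (.cons (.rel (nat_lit 285247488)) (.cons (.rel (nat_lit 285214080)) .nil))) .nil)) .leaf) (nat_lit 627815306464508) (.br (nat_lit 1) (.cons (.br (nat_lit 5) (.cons (.rel (nat_lit 4311765249)) (.cons (.rel (nat_lit 4311746880)) .nil))) (.cons (.br (nat_lit 4) (.cons (.rel (nat_lit 1090798596)) (.cons (.rel (nat_lit 1092093000)) (.cons (.rel (nat_lit 1107296340)) (.cons (.rel (nat_lit 2181300240)) .nil))))) .nil))) (.node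 .leaf (nat_lit 627815306519960) (.br (nat_lit 1) (.cons (.br (nat_lit 3) (.cons (.rel (nat_lit 285214080)) .nil)) .nil)) .leaf)))) (nat_lit 627815306530043) (.br (nat_lit 1) (.cons (.br (nat_lit 2) (.cons (.rel (nat_lit 85987329)) .nil)) .nil)) (.node (.node (.node (.node .leaf (nat_lit 627815308001456) (.br (nat_lit 2) (.cons (.br (nat_lit 5) (.cons (.rel (nat_lit 4362147840)) .nil)) .nil)) .leaf) (nat_lit 627815308002537) (.br (nat_lit 2) (.cons (.br (nat_lit 3) (.cons (.rel (nat_lit 335544705)) .nil)) .nil)) (.node .leaf (nat_lit 627815308066024) (.br (nat_lit 3) (.cons (.br (nat_lit 5) (.cons (.rel (nat_lit 4564729920)) .nil)) .nil)) .leaf)) (nat_lit 627818443802625) (.br (nat_lit 1) (.cons (.br (nat_lit 2) (.cons (.rel (nat_lit 85213200)) .nil)) .nil)) (.node (.node .leaf (nat_lit 627818443803911) (.br (nat_lit 0) (.cons (.br (nat_lit 3) (.cons (.rel (nat_lit 273154056)) .nil)) .nil)) .leaf) (nat_lit 627818449535138) (.br (nat_lit 1) (.cons (.br (nat_lit 3) (.cons (.rel (nat_lit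 285216897)) .nil)) .nil)) (.node .leaf (nat_lit 627818452192158) (.br (nat_lit 1) (.cons (.br (nat_lit 3) (.cons (.rel (nat_lit 570442752)) .nil)) .nil)) .leaf))) (nat_lit 627818573827610) (.br (nat_lit 3) (.cons (.br (nat_lit 6) (.cons (.rel (nat_lit 17448568833)) .nil)) .nil)) (.node (.node (.node .leaf (nat_lit 627819051976704) (.br (nat_lit 4) (.cons (.br (nat_lit 3) (.cons (.br (nat_lit 1) (.cons (.rel (nat_lit 2164281408)) (.cons (.rel (nat_lit 285491202)) (.cons (.rel (nat_lit 570442752)) .nil)))) (.cons (.rel (nat_lit 1342768128)) (.cons (.rel (nat_lit 1342185984)) .nil)))) (.cons (.br (nat_lit 1) (.cons (.rel (nat_lit 1090798596)) (.cons (.rel (nat_lit 1091567889)) (.cons (.rel (nat_lit 1090551813)) .nil)))) .nil))) .leaf) (nat_lit 628062964873217) (.br (nat_lit 0) (.cons (.br (nat_lit 1) (.cons (.rel (nat_lit 37748772)) .nil)) .nil)) (.node .leaf (nat_lit 628064413799832) (.br (nat_lit 1) (.cons (.br (nat_lit 6) (.cons (.rel (nat_lit 34376517204)) .nil)) .nil)) .leaf)) (nat_lit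 628064414566401) (.br (nat_lit 2) (.cons (.br (nat_lit 3) (.cons (.rel (nat_lit 335615040)) .nil)) .nil)) (.node (.node .leaf (nat_lit 628064414567686) (.br (nat_lit 2) (.cons (.br (nat_lit 4) (.cons (.rel (nat_lit 1208026113)) (.cons (.rel (nat_lit 2281717776)) .nil))) .nil)) .leaf) (nat_lit 628064414567832) (.br (nat_lit 3) (.cons (.br (nat_lit 2) (.cons (.rel (nat_lit 335615040)) (.cons (.rel (nat_lit 604110852)) .nil))) .nil)) .leaf)))))

/-- refutations 8 -/
def e8 : EX := (.node (.node .leaf (nat_lit 528002779479271) (.br (nat_lit 0) (.cons (.br (nat_lit 4) (.cons (.rel (nat_lit 1078026240)) .nil)) .nil)) .leaf) (nat_lit 530004847681696) (.br (nat_lit 0) (.cons (.br (nat_lit 1) (.cons (.rel (nat_lit 21381120)) .nil)) .nil)) (.node .leaf (nat_lit 539809308446234) (.br (nat_lit 0) (.cons (.br (nat_lit 2) (.cons (.rel (nat_lit 75498528)) .nil)) .nil)) .leaf))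

/-- refutations 9 -/
def e9 : EX := (.node (.node (.node .leaf (nat_lit 2201182103416833) (.br (nat_lit 3) (.cons (.br (nat_lit 5) (.cons (.rel (nat_lit 4563435528)) .nil)) .nil)) .leaf) (nat_lit 2201184826247169) (.br (nat_lit 0) (.cons (.br (nat_lit 1) (.cons (.rel (nat_lit 23068944)) .nil)) .nil)) .leaf) (nat_lit 2201601545077991) (.br (nat_lit 1) (.cons (.br (nat_lit 4) (.cons (.rel (nat_lit 1091043360)) .nil)) .nil)) (.node (.node .leaf (nat_lit 2201602902241431) (.br (nat_lit 0) (.cons (.br (nat_lit 4) (.cons (.rel (nat_lit 1077940353)) .nil)) .nil)) .leaf) (nat_lit 2212016591724720) (.br (nat_lit 1) (.cons (.br (nat_lit 2) (.cons (.rel (nat_lit 100665345)) .nil)) .nil)) .leaf))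

/-- refutations 10 -/
def e10 : EX := (.node (.node (.node (.node (.node (.node .leaf (nat_lit 2638870883114522) (.br (nat_lit 2) (.cons (.br (nat_lit 3) (.cons (.rel (nat_lit 335578113)) .nil)) .nil)) .leaf) (nat_lit 2638871404535809) (.br (nat_lit 0) (.cons (.br (nat_lit 4) (.cons (.rel (nat_lit 2151678096)) .nil)) .nil)) .leaf) (nat_lit 2638871425508238) (.br (nat_lit 0) (.cons (.br (nat_lit 1) (.cons (.rel (nat_lit 21039360)) .nil)) .nil)) (.node (.node .leaf (nat_lit 2638876751913120) (.br (nat_lit 2) (.cons (.br (nat_lit 3) (.cons (.rel (nat_lit 402718728)) .nil)) .nil)) .leaf) (nat_lit 2638876752273568) (.br (nat_lit 0) (.cons (.br (nat_lit 2) (.cons (.rel (nat_lit 138412041)) (.cons (.rel (nat_lit 75497478)) .nil))) .nil)) .leaf)) (nat_lit 2639277342098840) (.br (nat_lit 0) (.cons (.br (nat_lit 1) (.cons (.rel (nat_lit 20971842)) .nil)) .nil)) (.node (.node (.node .leaf (nat_lit 2639277884252940) (.br (nat_lit 3) (.cons (.br (nat_lit 2) (.cons (.rel (nat_lit 335577108)) (.cons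 (.rel (nat_lit 335568960)) .nil))) .nil)) .leaf) (nat_lit 2639277885770029) (.br (nat_lit 3) (.cons (.br (nat_lit 4) (.cons (.rel (nat_lit 1342185984)) .nil)) .nil)) .leaf) (nat_lit 2639277885771290) (.br (nat_lit 1) (.cons (.br (nat_lit 2) (.cons (.rel (nat_lit 85213200)) .nil)) .nil)) (.node (.node .leaf (nat_lit 2639277887055998) (.br (nat_lit 4) (.cons (.br (nat_lit 0) (.cons (.rel (nat_lit 1077937536)) (.cons (.rel (nat_lit 1077937536)) .nil))) .nil)) .leaf) (nat_lit 2639277887056183) (.br (nat_lit 0) (.cons (.br (nat_lit 1) (.cons (.rel (nat_lit 25165848)) .nil)) .nil)) .leaf))) (nat_lit 2639277887056498) (.br (nat_lit 3) (.cons (.br (nat_lit 4) (.cons (.rel (nat_lit 1342185984)) .nil)) .nil)) (.node (.node (.node (.node .leaf (nat_lit 2639277887056772) (.br (nat_lit 5) (.cons (.br (nat_lit 6) (.cons (.rel (nat_lit 21474844692)) .nil)) .nil)) .leaf) (nat_lit 2639277887056798) (.br (nat_lit 0) (.cons (.br (nat_lit 2) (.cons (.rel (nat_lit 75498528)) (.cons (.rel (nat_lit 142622784))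 .nil))) .nil)) .leaf) (nat_lit 2639277887265653) (.br (nat_lit 0) (.cons (.br (nat_lit 4) (.cons (.rel (nat_lit 1082130528)) .nil)) .nil)) (.node (.node .leaf (nat_lit 2639278284296878) (.br (nat_lit 5) (.cons (.br (nat_lit 0) (.cons (.rel (nat_lit 4300210560)) (.cons (.rel (nat_lit 4299232272)) .nil))) .nil)) .leaf) (nat_lit 2639278284297697) (.br (nat_lit 0) (.cons (.br (nat_lit 2) (.cons (.rel (nat_lit 71336064)) .nil)) .nil)) .leaf)) (nat_lit 2639278495029424) (.br (nat_lit 1) (.cons (.br (nat_lit 2) (.cons (.rel (nat_lit 151060608)) .nil)) .nil)) (.node (.node (.node .leaf (nat_lit 2639280058108684) (.br (nat_lit 0) (.cons (.br (nat_lit 1) (.cons (.rel (nat_lit 20977728)) .nil)) .nil)) .leaf) (nat_lit 2639945146359809) (.br (nat_lit 2) (.cons (.br (nat_lit 4) (.cons (.rel (nat_lit 2214593664)) .nil)) .nil)) .leaf) (nat_lit 2640119700852736) (.br (nat_lit 6) (.cons (.br (nat_lit 2) (.cons (.rel (nat_lit 17314218240)) (.cons (.rel (nat_lit 17246994564)) (.cons (.br (nat_lit 3) (.cons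 (.rel (nat_lit 17448861696)) (.cons (.rel (nat_lit 402718728)) (.cons (.rel (nat_lit 604110852)) .nil)))) (.cons (.rel (nat_lit 34426863618)) (.cons (.rel (nat_lit 34427110401)) .nil)))))) (.cons (.br (nat_lit 3) (.cons (.rel (nat_lit 17448312897)) (.cons (.rel (nat_lit 17448386688)) (.cons (.rel (nat_lit 34896887808)) .nil)))) .nil))) (.node .leaf (nat_lit 2640119700853037) (.br (nat_lit 1) (.cons (.br (nat_lit 3) (.cons (.rel (nat_lit 570442752)) .nil)) .nil)) .leaf)))) (nat_lit 2640122900900145) (.br (nat_lit 0) (.cons (.br (nat_lit 3) (.cons (.rel (nat_lit 273683457)) .nil)) .nil)) (.node (.node (.node (.node (.node .leaf (nat_lit 2640128290580787) (.br (nat_lit 1) (.cons (.br (nat_lit 6) (.cons (.rel (nat_lit 17196646944)) .nil)) .nil)) .leaf) (nat_lit 2640377397086989) (.br (nat_lit 3) (.cons (.br (nat_lit 1) (.cons (.rel (nat_lit 285214080)) (.cons (.rel (nat_lit 285214080)) .nil))) .nil)) .leaf) (nat_lit 2640377397087145) (.br (nat_lit 2) (.cons (.br (nat_lit 4) (.cons (.rel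 (nat_lit 1140883488)) .nil)) .nil)) (.node (.node .leaf (nat_lit 2640385987022362) (.br (nat_lit 1) (.cons (.br (nat_lit 4) (.cons (.rel (nat_lit 1092616512)) .nil)) .nil)) .leaf) (nat_lit 2640981898502145) (.br (nat_lit 1) (.cons (.br (nat_lit 5) (.cons (.rel (nat_lit 4311748692)) .nil)) .nil)) .leaf)) (nat_lit 2640981898553345) (.br (nat_lit 4) (.cons (.br (nat_lit 3) (.cons (.rel (nat_lit 1342185984)) (.cons (.rel (nat_lit 1342308672)) .nil))) .nil)) (.node (.node (.node .leaf (nat_lit 2640981898762241) (.br (nat_lit 0) (.cons (.br (nat_lit 2) (.cons (.rel (nat_lit 71958528)) .nil)) .nil)) .leaf) (nat_lit 2640987283839277) (.br (nat_lit 2) (.cons (.br (nat_lit 0) (.cons (.rel (nat_lit 71336064)) (.cons (.rel (nat_lit 71308353)) .nil))) .nil)) .leaf) (nat_lit 2640987283839886) (.br (nat_lit 1) (.cons (.br (nat_lit 2) (.cons (.rel (nat_lit 83956740)) .nil)) .nil)) (.node .leaf (nat_lit 2640989456744624) (.br (nat_lit 0) (.cons (.br (nat_lit 1) (.cons (.rel (nat_lit 21041172)) .nil))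 .nil)) .leaf))) (nat_lit 2641192803955949) (.br (nat_lit 0) (.cons (.br (nat_lit 2) (.cons (.rel (nat_lit 71305536)) .nil)) .nil)) (.node (.node (.node (.node .leaf (nat_lit 2641192804631309) (.br (nat_lit 0) (.cons (.br (nat_lit 1) (.cons (.rel (nat_lit 20971842)) .nil)) .nil)) .leaf) (nat_lit 2641192804935805) (.br (nat_lit 3) (.cons (.br (nat_lit 6) (.cons (.rel (nat_lit 17448861696)) .nil)) .nil)) .leaf) (nat_lit 2641193839711713) (.br (nat_lit 1) (.cons (.br (nat_lit 6) (.cons (.rel (nat_lit 17196646944)) .nil)) .nil)) (.node (.node .leaf (nat_lit 2641196011980962) (.br (nat_lit 3) (.cons (.br (nat_lit 4) (.cons (.rel (nat_lit 1342179585)) .nil)) .nil)) .leaf) (nat_lit 2641196013273869) (.br (nat_lit 0) (.cons (.br (nat_lit 1) (.cons (.rel (nat_lit 20996097)) (.cons (.rel (nat_lit 20996097)) (.cons (.rel (nat_lit 20996097)) .nil)))) .nil)) .leaf)) (nat_lit 2641253026757519) (.br (nat_lit 1) (.cons (.br (nat_lit 2) (.cons (.rel (nat_lit 83960325)) .nil)) .nil)) (.node (.node (.node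 .leaf (nat_lit 2641496074383665) (.br (nat_lit 1) (.cons (.br (nat_lit 0) (.cons (.rel (nat_lit 21495936)) (.cons (.rel (nat_lit 21495936)) (.cons (.rel (nat_lit 20996097)) .nil)))) .nil)) .leaf) (nat_lit 2644208507915020) (.br (nat_lit 3) (.cons (.br (nat_lit 6) (.cons (.rel (nat_lit 17716744260)) .nil)) .nil)) .leaf) (nat_lit 2644208507915166) (.br (nat_lit 0) (.cons (.br (nat_lit 2) (.cons (.rel (nat_lit 75497478)) .nil)) .nil)) (.node .leaf (nat_lit 2644208509512606) (.br (nat_lit 1) (.cons (.br (nat_lit 3) (.cons (.rel (nat_lit 285247488)) .nil)) .nil)) .leaf)))))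

/-- refutations 11 -/
def e11 : EX := (.node (.node (.node (.node (.node (.node .leaf (nat_lit 2644474794883883) (.br (nat_lit 0) (.cons (.br (nat_lit 6) (.cons (.rel (nat_lit 17184064020)) .nil)) .nil)) .leaf) (nat_lit 2644474794883982) (.br (nat_lit 1) (.cons (.br (nat_lit 2) (.cons (.rel (nat_lit 100671744)) .nil)) .nil)) .leaf) (nat_lit 2644474794884373) (.br (nat_lit 0) (.cons (.br (nat_lit 5) (.cons (.rel (nat_lit 8594129922)) .nil)) .nil)) (.node .leaf (nat_lit 2644474794884384) (.br (nat_lit 3) (.cons (.br (nat_lit 4) (.cons (.rel (nat_lit 1342179585)) .nil)) .nil)) .leaf)) (nat_lit 2644474794884573) (.br (nat_lit 0) (.cons (.br (nat_lit 3) (.cons (.rel (nat_lit 273711168)) .nil)) .nil)) (.node (.node .leaf (nat_lit 2644717905164289) (.br (nat_lit 3) (.cons (.br (nat_lit 5) (.cons (.rel (nat_lit 4563406992)) .nil)) .nil)) .leaf) (nat_lit 2646453682696192) (.br (nat_lit 1) (.cons (.br (nat_lit 2) (.cons (.rel (nat_lit 83886405)) .nil)) .nil)) (.node .leaf (nat_lit 2646561601076477)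 (.br (nat_lit 2) (.cons (.br (nat_lit 3) (.cons (.rel (nat_lit 335630592)) .nil)) .nil)) .leaf))) (nat_lit 2646610413209114) (.br (nat_lit 0) (.cons (.br (nat_lit 1) (.cons (.rel (nat_lit 21381120)) .nil)) .nil)) (.node (.node (.node .leaf (nat_lit 2646611044287245) (.br (nat_lit 0) (.cons (.br (nat_lit 1) (.cons (.rel (nat_lit 20971842)) .nil)) .nil)) .leaf) (nat_lit 2646613689600781) (.br (nat_lit 3) (.cons (.br (nat_lit 4) (.cons (.rel (nat_lit 1342182402)) .nil)) .nil)) (.node .leaf (nat_lit 2646613689601562) (.br (nat_lit 3) (.cons (.br (nat_lit 4) (.cons (.rel (nat_lit 1342178580)) .nil)) .nil)) .leaf)) (nat_lit 2646819846824716) (.br (nat_lit 4) (.cons (.br (nat_lit 1) (.cons (.rel (nat_lit 1090588740)) (.cons (.rel (nat_lit 2164327488)) .nil))) .nil)) (.node (.node .leaf (nat_lit 2646819847027469) (.br (nat_lit 0) (.cons (.br (nat_lit 1) (.cons (.rel (nat_lit 21042177)) .nil)) .nil)) .leaf) (nat_lit 2649673698674689) (.br (nat_lit 2) (.cons (.br (nat_lit 4) (.cons (.rel (nat_lit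 2281717776)) .nil)) .nil)) (.node .leaf (nat_lit 2649674911330305) (.br (nat_lit 3) (.cons (.br (nat_lit 1) (.cons (.rel (nat_lit 285737985)) (.cons (.rel (nat_lit 286265376)) .nil))) .nil)) .leaf)))) (nat_lit 2649674912364545) (.br (nat_lit 1) (.cons (.br (nat_lit 6) (.cons (.rel (nat_lit 34376532993)) .nil)) .nil)) (.node (.node (.node (.node .leaf (nat_lit 2649674912364849) (.br (nat_lit 0) (.cons (.br (nat_lit 1) (.cons (.rel (nat_lit 21042177)) .nil)) .nil)) .leaf) (nat_lit 2650052869482497) (.br (nat_lit 0) (.cons (.br (nat_lit 1) (.cons (.rel (nat_lit 20977728)) .nil)) .nil)) (.node .leaf (nat_lit 2650914512677774) (.br (nat_lit 0) (.cons (.br (nat_lit 1) (.cons (.rel (nat_lit 21039360)) .nil)) .nil)) .leaf)) (nat_lit 2650917855337084) (.br (nat_lit 1) (.cons (.br (nat_lit 5) (.cons (.rel (nat_lit 8623816704)) .nil)) .nil)) (.node (.node .leaf (nat_lit 2650919241023794) (.br (nat_lit 0) (.cons (.br (nat_lit 1) (.cons (.rel (nat_lit 21495936)) .nil)) .nil)) .leaf) (nat_lit 2650920452876289)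 (.br (nat_lit 1) (.cons (.br (nat_lit 2) (.cons (.rel (nat_lit 83886405)) .nil)) .nil)) (.node .leaf (nat_lit 2652031841177114) (.br (nat_lit 0) (.cons (.br (nat_lit 4) (.cons (.rel (nat_lit 1077970944)) .nil)) .nil)) .leaf))) (nat_lit 2652033937072278) (.br (nat_lit 0) (.cons (.br (nat_lit 1) (.cons (.rel (nat_lit 20996097)) .nil)) .nil)) (.node (.node (.node .leaf (nat_lit 2652033938327678) (.br (nat_lit 0) (.cons (.br (nat_lit 3) (.cons (.rel (nat_lit 272909328)) .nil)) .nil)) .leaf) (nat_lit 2652033938327703) (.br (nat_lit 0) (.cons (.br (nat_lit 4) (.cons (.rel (nat_lit 2155889664)) .nil)) .nil)) (.node .leaf (nat_lit 2652033938328178) (.br (nat_lit 3) (.cons (.br (nat_lit 4) (.cons (.rel (nat_lit 1342181397)) (.cons (.rel (nat_lit 1342178580)) .nil))) .nil)) .leaf)) (nat_lit 2652033938328363) (.br (nat_lit 3) (.cons (.br (nat_lit 4) (.cons (.rel (nat_lit 2684358912)) .nil)) .nil)) (.node (.node .leaf (nat_lit 2652033938328462) (.br (nat_lit 2) (.cons (.br (nat_lit 3) (.cons (.rel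 (nat_lit 335824896)) .nil)) .nil)) .leaf) (nat_lit 2652033938329114) (.br (nat_lit 3) (.cons (.br (nat_lit 6) (.cons (.rel (nat_lit 17448312897)) (.cons (.rel (nat_lit 17448386688)) .nil))) (.cons (.br (nat_lit 6) (.cons (.rel (nat_lit 17448312897)) (.cons (.rel (nat_lit 17448323112)) .nil))) .nil))) (.node .leaf (nat_lit 2652033938638998) (.br (nat_lit 0) (.cons (.br (nat_lit 4) (.cons (.rel (nat_lit 1077937536)) .nil)) .nil)) .leaf)))))

/-- refutations 12 -/
def e12 : EX := (.node (.node (.node .leaf (nat_lit 2306781188687997) (.br (nat_lit 2) (.cons (.br (nat_lit 3) (.cons (.rel (nat_lit 606076992)) .nil)) .nil)) .leaf) (nat_lit 2306781188688153) (.br (nat_lit 0) (.cons (.br (nat_lit 4) (.cons (.rel (nat_lit 1078460436)) .nil)) .nil)) (.node .leaf (nat_lit 2306781188688674) (.br (nat_lit 0) (.cons (.br (nat_lit 1) (.cons (.rel (nat_lit 42205248)) .nil)) .nil)) .leaf)) (nat_lit 2306812529113089) (.br (nat_lit 0) (.cons (.br (nat_lit 3) (.cons (.rel (nat_lit 273154056)) .nil)) .nil))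 (.node (.node .leaf (nat_lit 2311236237430785) (.br (nat_lit 0) (.cons (.br (nat_lit 1) (.cons (.rel (nat_lit 20996097)) .nil)) .nil)) .leaf) (nat_lit 2312571518271489) (.br (nat_lit 0) (.cons (.br (nat_lit 2) (.cons (.rel (nat_lit 71573505)) .nil)) .nil)) .leaf))

/-- refutations 13 -/
def e13 : EX := (.node (.node (.node (.node .leaf (nat_lit 2850384094632562) (.br (nat_lit 0) (.cons (.br (nat_lit 1) (.cons (.rel (nat_lit 21069888)) (.cons (.rel (nat_lit 20971842)) .nil))) (.cons (.br (nat_lit 2) (.cons (.rel (nat_lit 75497478)) (.cons (.rel (nat_lit 142934016)) .nil))) .nil))) .leaf) (nat_lit 2851107660598175) (.br (nat_lit 1) (.cons (.br (nat_lit 2) (.cons (.rel (nat_lit 83890272)) .nil)) .nil)) (.node .leaf (nat_lit 2851276835571713) (.br (nat_lit 0) (.cons (.br (nat_lit 2) (.cons (.rel (nat_lit 71958528)) .nil)) .nil)) .leaf)) (nat_lit 2852362405017761) (.br (nat_lit 2) (.cons (.br (nat_lit 4) (.cons (.rel (nat_lit 1141899528)) .nil)) .nil)) (.node (.node .leaf (nat_lit 2852513877025679)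 (.br (nat_lit 2) (.cons (.br (nat_lit 3) (.cons (.rel (nat_lit 402653265)) .nil)) .nil)) .leaf) (nat_lit 2852531052698512) (.br (nat_lit 1) (.cons (.br (nat_lit 2) (.cons (.rel (nat_lit 83910660)) (.cons (.rel (nat_lit 85984512)) .nil))) .nil)) (.node .leaf (nat_lit 2857670351265948) (.br (nat_lit 2) (.cons (.br (nat_lit 3) (.cons (.rel (nat_lit 336068610)) .nil)) .nil)) .leaf))) (nat_lit 2860947005880320) (.br (nat_lit 0) (.cons (.br (nat_lit 3) (.cons (.rel (nat_lit 272761104)) .nil)) .nil)) (.node (.node (.node .leaf (nat_lit 2860949192792975) (.br (nat_lit 1) (.cons (.br (nat_lit 4) (.cons (.rel (nat_lit 1090650372)) .nil)) .nil)) .leaf) (nat_lit 2860949192793496) (.br (nat_lit 0) (.cons (.br (nat_lit 1) (.cons (.rel (nat_lit 20993280)) .nil)) .nil)) (.node .leaf (nat_lit 2862006274331929) (.br (nat_lit 0) (.cons (.br (nat_lit 1) (.cons (.rel (nat_lit 21495936)) .nil)) .nil)) .leaf)) (nat_lit 2862820197692067) (.br (nat_lit 0) (.cons (.br (nat_lit 3) (.cons (.rel (nat_lit 273683457))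 .nil)) .nil)) (.node (.node .leaf (nat_lit 2862820197692667) (.br (nat_lit 0) (.cons (.br (nat_lit 1) (.cons (.rel (nat_lit 21041172)) (.cons (.rel (nat_lit 20971842)) .nil))) .nil)) .leaf) (nat_lit 2863356892446721) (.br (nat_lit 0) (.cons (.br (nat_lit 2) (.cons (.rel (nat_lit 71321088)) .nil)) .nil)) .leaf)))

/-- refutations 14 -/
def e14 : EX := (.node (.node (.node (.node (.node .leaf (nat_lit 3078647127163005) (.br (nat_lit 3) (.cons (.br (nat_lit 4) (.cons (.rel (nat_lit 1342521345)) .nil)) .nil)) .leaf) (nat_lit 3078869734926336) (.br (nat_lit 2) (.cons (.br (nat_lit 3) (.cons (.rel (nat_lit 335546772)) .nil)) .nil)) .leaf) (nat_lit 3078870368266240) (.br (nat_lit 0) (.cons (.br (nat_lit 4) (.cons (.rel (nat_lit 1077940353)) (.cons (.rel (nat_lit 1077970944)) .nil))) .nil)) (.node .leaf (nat_lit 3079068033958013) (.br (nat_lit 0) (.cons (.br (nat_lit 3) (.cons (.rel (nat_lit 272662545)) .nil)) .nil)) .leaf)) (nat_lit 3079068555798528) (.br (nat_lit 0) (.cons (.br (nat_lit 3)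 (.cons (.rel (nat_lit 272761104)) .nil)) .nil)) (.node (.node (.node .leaf (nat_lit 3080150892906497) (.br (nat_lit 2) (.cons (.br (nat_lit 0) (.cons (.rel (nat_lit 71368980)) (.cons (.rel (nat_lit 71321088)) (.cons (.rel (nat_lit 71307348)) .nil)))) (.cons (.br (nat_lit 4) (.cons (.rel (nat_lit 1141129221)) (.cons (.rel (nat_lit 1143017472)) .nil))) .nil))) .leaf) (nat_lit 3080780610478990) (.br (nat_lit 1) (.cons (.br (nat_lit 2) (.cons (.rel (nat_lit 83951904)) .nil)) .nil)) .leaf) (nat_lit 3080786549612545) (.br (nat_lit 3) (.cons (.br (nat_lit 4) (.cons (.rel (nat_lit 1342182402)) .nil)) .nil)) (.node .leaf (nat_lit 3081083447618446) (.br (nat_lit 0) (.cons (.br (nat_lit 1) (.cons (.rel (nat_lit 21041172)) .nil)) .nil)) .leaf))) (nat_lit 3081097896993075) (.br (nat_lit 0) (.cons (.br (nat_lit 1) (.cons (.rel (nat_lit 20977728)) .nil)) .nil)) (.node (.node (.node (.node .leaf (nat_lit 3081098438058894) (.br (nat_lit 1) (.cons (.br (nat_lit 3) (.cons (.rel (nat_lit 285491202)) (.cons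 (.rel (nat_lit 285491202)) .nil))) .nil)) .leaf) (nat_lit 3081100626573313) (.br (nat_lit 1) (.cons (.br (nat_lit 4) (.cons (.rel (nat_lit 2164391937)) .nil)) .nil)) .leaf) (nat_lit 3081100626574222) (.br (nat_lit 1) (.cons (.br (nat_lit 3) (.cons (.rel (nat_lit 285302784)) .nil)) .nil)) (.node .leaf (nat_lit 3081101173056269) (.br (nat_lit 0) (.cons (.br (nat_lit 2) (.cons (.rel (nat_lit 71305536)) .nil)) .nil)) .leaf)) (nat_lit 3081101173057050) (.br (nat_lit 0) (.cons (.br (nat_lit 5) (.cons (.rel (nat_lit 4299424272)) .nil)) .nil)) (.node (.node (.node .leaf (nat_lit 3089651357919232) (.br (nat_lit 2) (.cons (.br (nat_lit 3) (.cons (.rel (nat_lit 335544705)) .nil)) .nil)) .leaf) (nat_lit 3090707336704157) (.br (nat_lit 0) (.cons (.br (nat_lit 1) (.cons (.rel (nat_lit 21234177)) .nil)) .nil)) .leaf) (nat_lit 3092051319343104) (.br (nat_lit 0) (.cons (.br (nat_lit 4) (.cons (.rel (nat_lit 1077970944)) .nil)) .nil)) (.node .leaf (nat_lit 3092056015061242) (.br (nat_lit 0) (.cons (.br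 (nat_lit 3) (.cons (.rel (nat_lit 272699472)) .nil)) .nil)) .leaf))))

/-- refutations 15 -/
def e15 : EX := (.node (.node (.node (.node (.node (.node (.node .leaf (nat_lit 3167023200180975) (.br (nat_lit 0) (.cons (.br (nat_lit 5) (.cons (.rel (nat_lit 4300210560)) .nil)) .nil)) .leaf) (nat_lit 3167026351692527) (.br (nat_lit 2) (.cons (.br (nat_lit 6) (.cons (.rel (nat_lit 17314119681)) .nil)) .nil)) .leaf) (nat_lit 3167029489031168) (.br (nat_lit 1) (.cons (.br (nat_lit 6) (.cons (.rel (nat_lit 34376523840)) .nil)) .nil)) (.node .leaf (nat_lit 3167029489031473) (.br (nat_lit 0) (.cons (.br (nat_lit 3) (.cons (.rel (nat_lit 273680640)) .nil)) .nil)) .leaf)) (nat_lit 3167029489031480) (.br (nat_lit 0) (.cons (.br (nat_lit 4) (.cons (.rel (nat_lit 2155889664)) .nil)) .nil)) (.node (.node .leaf (nat_lit 3167034939776478) (.br (nat_lit 2) (.cons (.br (nat_lit 3) (.cons (.rel (nat_lit 335578113)) .nil)) .nil)) .leaf) (nat_lit 3167041472107753) (.br (nat_lit 0) (.cons (.br (nat_lit 3) (.cons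 (.rel (nat_lit 273680640)) .nil)) .nil)) (.node .leaf (nat_lit 3167043528542209) (.br (nat_lit 3) (.cons (.br (nat_lit 0) (.cons (.rel (nat_lit 541353984)) (.cons (.rel (nat_lit 541196289)) .nil))) .nil)) .leaf))) (nat_lit 3167043529705472) (.br (nat_lit 3) (.cons (.br (nat_lit 4) (.cons (.rel (nat_lit 1342179585)) (.cons (.rel (nat_lit 1342182402)) (.cons (.rel (nat_lit 1342182402)) .nil)))) .nil)) (.node (.node (.node (.node .leaf (nat_lit 3167043529705473) (.br (nat_lit 3) (.cons (.br (nat_lit 4) (.cons (.rel (nat_lit 1342178580)) (.cons (.rel (nat_lit 1342181397)) (.cons (.rel (nat_lit 2415920145)) (.cons (.rel (nat_lit 2417033217)) .nil))))) (.cons (.br (nat_lit 2) (.cons (.rel (nat_lit 336068610)) (.cons (.rel (nat_lit 336068610)) (.cons (.rel (nat_lit 335544705)) (.cons (.rel (nat_lit 335679489)) .nil))))) .nil))) .leaf) (nat_lit 3167043529705503) (.br (nat_lit 3) (.cons (.br (nat_lit 4) (.cons (.rel (nat_lit 1342185984)) (.cons (.rel (nat_lit 1342179585)) .nil))) .nil)) .leaf)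 (nat_lit 3167043529705782) (.br (nat_lit 4) (.cons (.br (nat_lit 3) (.cons (.rel (nat_lit 1342179585)) (.cons (.rel (nat_lit 1342179585)) .nil))) .nil)) (.node .leaf (nat_lit 3167043529706778) (.br (nat_lit 3) (.cons (.br (nat_lit 4) (.cons (.rel (nat_lit 1342185984)) (.cons (.rel (nat_lit 1342178580)) .nil))) .nil)) .leaf)) (nat_lit 3167043529707003) (.br (nat_lit 3) (.cons (.br (nat_lit 6) (.cons (.rel (nat_lit 17448861696)) .nil)) .nil)) (.node (.node .leaf (nat_lit 3167043531511262) (.br (nat_lit 4) (.cons (.br (nat_lit 1) (.cons (.rel (nat_lit 2181300240)) (.cons (.rel (nat_lit 1090798596)) .nil))) .nil)) .leaf) (nat_lit 3167044066845927) (.br (nat_lit 2) (.cons (.br (nat_lit 3) (.cons (.rel (nat_lit 335544705)) .nil)) .nil)) (.node .leaf (nat_lit 3167044067882215) (.br (nat_lit 0) (.cons (.br (nat_lit 5) (.cons (.rel (nat_lit 4299424272)) .nil)) .nil)) .leaf)))) (nat_lit 3167045429725185) (.br (nat_lit 4) (.cons (.br (nat_lit 5) (.cons (.rel (nat_lit 5369044992)) .nil)) .nil))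 (.node (.node (.node (.node (.node .leaf (nat_lit 3167112284273916) (.br (nat_lit 1) (.cons (.br (nat_lit 2) (.cons (.rel (nat_lit 100671744)) .nil)) .nil)) .leaf) (nat_lit 3167711485734121) (.br (nat_lit 1) (.cons (.br (nat_lit 3) (.cons (.rel (nat_lit 285491202)) .nil)) .nil)) .leaf) (nat_lit 3167715443727618) (.br (nat_lit 0) (.cons (.br (nat_lit 2) (.cons (.rel (nat_lit 71305536)) .nil)) .nil)) (.node .leaf (nat_lit 3167715446159361) (.br (nat_lit 0) (.cons (.br (nat_lit 2) (.cons (.rel (nat_lit 138412041)) .nil)) .nil)) .leaf)) (nat_lit 3167768220786688) (.br (nat_lit 1) (.cons (.br (nat_lit 6) (.cons (.rel (nat_lit 17196651780)) .nil)) .nil)) (.node (.node .leaf (nat_lit 3167768223088640) (.br (nat_lit 1) (.cons (.br (nat_lit 6) (.cons (.rel (nat_lit 34376518209)) (.cons (.rel (nat_lit 17196651780)) .nil))) .nil)) .leaf) (nat_lit 3168140980930716) (.br (nat_lit 6) (.cons (.br (nat_lit 0) (.cons (.rel (nat_lit 17184211968)) (.cons (.rel (nat_lit 17184065025)) .nil))) .nil)) (.node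 .leaf (nat_lit 3168140980931817) (.br (nat_lit 0) (.cons (.br (nat_lit 6) (.cons (.rel (nat_lit 34363949064)) .nil)) .nil)) .leaf))) (nat_lit 3168140981931241) (.br (nat_lit 6) (.cons (.br (nat_lit 0) (.cons (.br (nat_lit 3) (.cons (.rel (nat_lit 541085760)) (.cons (.rel (nat_lit 34896887808)) (.cons (.rel (nat_lit 17448310080)) .nil)))) (.cons (.rel (nat_lit 34363949064)) .nil))) .nil)) (.node (.node (.node .leaf (nat_lit 3168142342420480) (.br (nat_lit 0) (.cons (.br (nat_lit 1) (.cons (.rel (nat_lit 21039360)) .nil)) .nil)) .leaf) (nat_lit 3168143040333825) (.br (nat_lit 4) (.cons (.br (nat_lit 6) (.cons (.rel (nat_lit 18253873158)) .nil)) .nil)) (.node .leaf (nat_lit 3168143040334575) (.br (nat_lit 6) (.cons (.br (nat_lit 4) (.cons (.rel (nat_lit 19327615488)) (.cons (.rel (nat_lit 18253629444)) .nil))) .nil)) .leaf)) (nat_lit 3168143041333248) (.br (nat_lit 6) (.cons (.br (nat_lit 0) (.cons (.rel (nat_lit 17185128480)) (.cons (.rel (nat_lit 34368132096)) (.cons (.rel (nat_lit 17184065025))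 (.cons (.rel (nat_lit 17185128480)) (.cons (.rel (nat_lit 17184067842)) (.cons (.rel (nat_lit 34363949064)) .nil))))))) .nil)) (.node (.node .leaf (nat_lit 3168143041333249) (.br (nat_lit 5) (.cons (.br (nat_lit 6) (.cons (.rel (nat_lit 21474836994)) .nil)) .nil)) .leaf) (nat_lit 3168143041333999) (.br (nat_lit 6) (.cons (.br (nat_lit 4) (.cons (.br (nat_lit 5) (.cons (.rel (nat_lit 21474836994)) (.cons (.rel (nat_lit 9665774592)) (.cons (.rel (nat_lit 38654967816)) .nil)))) (.cons (.rel (nat_lit 19327353153)) (.cons (.rel (nat_lit 35433517056)) .nil)))) .nil)) (.node .leaf (nat_lit 3168143041334750) (.br (nat_lit 3) (.cons (.br (nat_lit 4) (.cons (.rel (nat_lit 2684358912)) (.cons (.rel (nat_lit 2684355093)) .nil))) .nil)) .leaf))))) (nat_lit 3168148503853211) (.br (nat_lit 1) (.cons (.br (nat_lit 5) (.cons (.rel (nat_lit 4311748692)) (.cons (.rel (nat_lit 4312399872)) .nil))) .nil)) (.node (.node (.node (.node (.node (.node .leaf (nat_lit 3168829536238874) (.br (nat_lit 1) (.cons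 (.br (nat_lit 3) (.cons (.rel (nat_lit 570442752)) .nil)) .nil)) .leaf) (nat_lit 3168829537187841) (.br (nat_lit 5) (.cons (.br (nat_lit 0) (.cons (.rel (nat_lit 8594129922)) (.cons (.rel (nat_lit 8594128917)) .nil))) .nil)) .leaf) (nat_lit 3168829537188591) (.br (nat_lit 2) (.cons (.br (nat_lit 0) (.cons (.rel (nat_lit 71323905)) (.cons (.rel (nat_lit 71308353)) .nil))) .nil)) (.node .leaf (nat_lit 3169016424242583) (.br (nat_lit 6) (.cons (.br (nat_lit 0) (.cons (.rel (nat_lit 17184326784)) (.cons (.rel (nat_lit 17184067842)) .nil))) .nil)) .leaf)) (nat_lit 3169016510871553) (.br (nat_lit 0) (.cons (.br (nat_lit 4) (.cons (.rel (nat_lit 2155889664)) .nil)) .nil)) (.node (.node .leaf (nat_lit 3169018601085840) (.br (nat_lit 3) (.cons (.br (nat_lit 6) (.cons (.rel (nat_lit 17448321045)) .nil)) .nil)) .leaf) (nat_lit 3169021753751859) (.br (nat_lit 3) (.cons (.br (nat_lit 1) (.cons (.rel (nat_lit 285216897)) (.cons (.rel (nat_lit 285491202)) .nil))) .nil)) (.node .leaf (nat_lit 3172268116009116)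 (.br (nat_lit 1) (.cons (.br (nat_lit 3) (.cons (.rel (nat_lit 285229632)) .nil)) .nil)) .leaf))) (nat_lit 3173253352553754) (.br (nat_lit 0) (.cons (.br (nat_lit 1) (.cons (.rel (nat_lit 20971842)) .nil)) .nil)) (.node (.node (.node (.node .leaf (nat_lit 3174166486906881) (.br (nat_lit 2) (.cons (.br (nat_lit 4) (.cons (.rel (nat_lit 1140883488)) .nil)) .nil)) .leaf) (nat_lit 3174216125089792) (.br (nat_lit 1) (.cons (.br (nat_lit 2) (.cons (.rel (nat_lit 83956740)) .nil)) .nil)) .leaf) (nat_lit 3174379333848571) (.br (nat_lit 3) (.cons (.br (nat_lit 4) (.cons (.rel (nat_lit 1342179585)) .nil)) .nil)) (.node .leaf (nat_lit 3174594082211840) (.br (nat_lit 4) (.cons (.br (nat_lit 5) (.cons (.rel (nat_lit 5368779840)) .nil)) .nil)) .leaf)) (nat_lit 3174594082212502) (.br (nat_lit 4) (.cons (.br (nat_lit 6) (.cons (.rel (nat_lit 18253629444)) .nil)) .nil)) (.node (.node .leaf (nat_lit 3174594082212591) (.br (nat_lit 5) (.cons (.br (nat_lit 0) (.cons (.rel (nat_lit 4299232272)) (.cons (.rel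 (nat_lit 8598587460)) .nil))) .nil)) .leaf) (nat_lit 3174594082212752) (.br (nat_lit 1) (.cons (.br (nat_lit 2) (.cons (.rel (nat_lit 83886405)) .nil)) .nil)) (.node .leaf (nat_lit 3174594082213125) (.br (nat_lit 0) (.cons (.br (nat_lit 3) (.cons (.rel (nat_lit 545521668)) .nil)) .nil)) .leaf)))) (nat_lit 3174594082213342) (.br (nat_lit 3) (.cons (.br (nat_lit 5) (.cons (.rel (nat_lit 4563435528)) (.cons (.rel (nat_lit 4563406992)) .nil))) (.cons (.br (nat_lit 5) (.cons (.rel (nat_lit 9126821892)) (.cons (.rel (nat_lit 4563406992)) .nil))) .nil))) (.node (.node (.node (.node (.node .leaf (nat_lit 3174594083750639) (.br (nat_lit 6) (.cons (.br (nat_lit 3) (.cons (.br (nat_lit 1) (.cons (.rel (nat_lit 17733517314)) (.cons (.rel (nat_lit 17213702145)) (.cons (.rel (nat_lit 17199005760)) .nil)))) (.cons (.rel (nat_lit 17448861696)) .nil))) .nil)) .leaf) (nat_lit 3174594083751390) (.br (nat_lit 6) (.cons (.br (nat_lit 0) (.cons (.rel (nat_lit 17184065025)) (.cons (.rel (nat_lit 17184064020))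 .nil))) .nil)) .leaf) (nat_lit 3174597219551232) (.br (nat_lit 5) (.cons (.br (nat_lit 6) (.cons (.br (nat_lit 3) (.cons (.rel (nat_lit 17448568833)) (.cons (.rel (nat_lit 4564455426)) (.cons (.rel (nat_lit 17448310080)) .nil)))) .nil)) .nil)) (.node .leaf (nat_lit 3174597219552734) (.br (nat_lit 5) (.cons (.br (nat_lit 6) (.cons (.rel (nat_lit 21474845697)) .nil)) .nil)) .leaf)) (nat_lit 3174597220179968) (.br (nat_lit 0) (.cons (.br (nat_lit 1) (.cons (.rel (nat_lit 21069888)) .nil)) .nil)) (.node (.node .leaf (nat_lit 3174597221087232) (.br (nat_lit 3) (.cons (.br (nat_lit 6) (.cons (.rel (nat_lit 17448322050)) .nil)) .nil)) .leaf) (nat_lit 3174597221406720) (.br (nat_lit 2) (.cons (.br (nat_lit 3) (.cons (.rel (nat_lit 335615040)) .nil)) .nil)) (.node .leaf (nat_lit 3174597221407032) (.br (nat_lit 0) (.cons (.br (nat_lit 1) (.cons (.rel (nat_lit 38862849)) .nil)) .nil)) .leaf))) (nat_lit 3177436739729409) (.br (nat_lit 1) (.cons (.br (nat_lit 2) (.cons (.rel (nat_lit 150995970))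 .nil)) .nil)) (.node (.node (.node .leaf (nat_lit 3177606442760193) (.br (nat_lit 6) (.cons (.br (nat_lit 2) (.cons (.rel (nat_lit 17246979588)) (.cons (.rel (nat_lit 17246979588)) .nil))) .nil)) .leaf) (nat_lit 3177612288131072) (.br (nat_lit 0) (.cons (.br (nat_lit 2) (.cons (.rel (nat_lit 71321088)) .nil)) .nil)) (.node .leaf (nat_lit 3178921344647478) (.br (nat_lit 2) (.cons (.br (nat_lit 0) (.cons (.rel (nat_lit 142934016)) (.cons (.rel (nat_lit 71305536)) .nil))) .nil)) .leaf)) (nat_lit 3178931998181377) (.br (nat_lit 2) (.cons (.br (nat_lit 6) (.cons (.rel (nat_lit 17246982405)) .nil)) .nil)) (.node (.node .leaf (nat_lit 3178931999180801) (.br (nat_lit 0) (.cons (.br (nat_lit 2) (.cons (.rel (nat_lit 71321088)) .nil)) .nil)) .leaf) (nat_lit 3178937438429935) (.br (nat_lit 4) (.cons (.br (nat_lit 5) (.cons (.rel (nat_lit 5368742913)) .nil)) .nil)) (.node .leaf (nat_lit 3178943728310272) (.br (nat_lit 1) (.cons (.br (nat_lit 2) (.cons (.rel (nat_lit 85987329)) .nil)) .nil)) .leaf))))))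

/-- refutations 16 -/
def e16 : EX := (.node (.node (.node (.node (.node (.node .leaf (nat_lit 4415873291903278) (.br (nat_lit 0) (.cons (.br (nat_lit 6) (.cons (.rel (nat_lit 17184211968)) .nil)) .nil)) .leaf) (nat_lit 4415951846562444) (.br (nat_lit 0) (.cons (.br (nat_lit 5) (.cons (.rel (nat_lit 4300734465)) .nil)) .nil)) .leaf) (nat_lit 4416073484805381) (.br (nat_lit 0) (.cons (.br (nat_lit 2) (.cons (.rel (nat_lit 71305536)) .nil)) .nil)) (.node .leaf (nat_lit 4416074172297466) (.br (nat_lit 0) (.cons (.br (nat_lit 2) (.cons (.rel (nat_lit 138412041)) .nil)) .nil)) .leaf)) (nat_lit 4416074695329792) (.br (nat_lit 0) (.cons (.br (nat_lit 3) (.cons (.rel (nat_lit 541396992)) (.cons (.rel (nat_lit 545521668)) .nil))) (.cons (.br (nat_lit 3) (.cons (.rel (nat_lit 273154056)) (.cons (.rel (nat_lit 276840705)) .nil))) .nil))) (.node (.node .leaf (nat_lit 4416074696585216) (.br (nat_lit 2) (.cons (.br (nat_lit 4) (.cons (.rel (nat_lit 2214593664)) .nil)) .nil)) .leaf) (nat_lit 4416074696585367)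 (.br (nat_lit 1) (.cons (.br (nat_lit 2) (.cons (.rel (nat_lit 150995970)) .nil)) .nil)) (.node .leaf (nat_lit 4416074698184704) (.br (nat_lit 2) (.cons (.br (nat_lit 3) (.cons (.rel (nat_lit 335676672)) .nil)) .nil)) .leaf))) (nat_lit 4416074698184855) (.br (nat_lit 4) (.cons (.br (nat_lit 6) (.cons (.rel (nat_lit 35433517056)) .nil)) .nil)) (.node (.node (.node (.node .leaf (nat_lit 4416085401590412) (.br (nat_lit 0) (.cons (.br (nat_lit 1) (.cons (.rel (nat_lit 21234177)) .nil)) .nil)) .leaf) (nat_lit 4416085594529021) (.br (nat_lit 0) (.cons (.br (nat_lit 1) (.cons (.rel (nat_lit 20977728)) .nil)) .nil)) .leaf) (nat_lit 4416086685046960) (.br (nat_lit 1) (.cons (.br (nat_lit 2) (.cons (.rel (nat_lit 83956740)) .nil)) .nil)) (.node .leaf (nat_lit 4416088121533846) (.br (nat_lit 3) (.cons (.br (nat_lit 5) (.cons (.rel (nat_lit 4565041152)) .nil)) .nil)) .leaf)) (nat_lit 4416088122297750) (.br (nat_lit 1) (.cons (.br (nat_lit 2) (.cons (.rel (nat_lit 83890272)) .nil)) .nil)) (.node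 (.node .leaf (nat_lit 4416089276315955) (.br (nat_lit 1) (.cons (.br (nat_lit 2) (.cons (.rel (nat_lit 100665345)) .nil)) .nil)) .leaf) (nat_lit 4416089276316283) (.br (nat_lit 3) (.cons (.br (nat_lit 4) (.cons (.rel (nat_lit 1342182402)) .nil)) .nil)) (.node .leaf (nat_lit 4416091273756673) (.br (nat_lit 0) (.cons (.br (nat_lit 1) (.cons (.rel (nat_lit 20977728)) .nil)) .nil)) .leaf)))) (nat_lit 4416091875434496) (.br (nat_lit 1) (.cons (.br (nat_lit 4) (.cons (.rel (nat_lit 1107297345)) .nil)) .nil)) (.node (.node (.node (.node (.node .leaf (nat_lit 4416810292600832) (.br (nat_lit 1) (.cons (.br (nat_lit 3) (.cons (.br (nat_lit 4) (.cons (.rel (nat_lit 1342185984)) .nil)) .nil)) .nil)) .leaf) (nat_lit 4416812218550433) (.br (nat_lit 1) (.cons (.br (nat_lit 4) (.cons (.rel (nat_lit 1090551813)) .nil)) .nil)) .leaf) (nat_lit 4416813429940224) (.br (nat_lit 4) (.cons (.br (nat_lit 3) (.cons (.rel (nat_lit 2684355093)) (.cons (.rel (nat_lit 1342185984)) .nil))) .nil)) (.node .leaf (nat_lit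 4416929937283982) (.br (nat_lit 1) (.cons (.br (nat_lit 3) (.cons (.rel (nat_lit 285540864)) .nil)) .nil)) .leaf)) (nat_lit 4416932542354220) (.br (nat_lit 0) (.cons (.br (nat_lit 1) (.cons (.rel (nat_lit 21495936)) .nil)) .nil)) (.node (.node .leaf (nat_lit 4416950868658176) (.br (nat_lit 3) (.cons (.br (nat_lit 6) (.cons (.rel (nat_lit 17448861696)) .nil)) .nil)) .leaf) (nat_lit 4416950871259438) (.br (nat_lit 0) (.cons (.br (nat_lit 2) (.cons (.rel (nat_lit 71372802)) .nil)) .nil)) (.node .leaf (nat_lit 4417155985308959) (.br (nat_lit 0) (.cons (.br (nat_lit 3) (.cons (.rel (nat_lit 277087488)) .nil)) .nil)) .leaf))) (nat_lit 4417796057016320) (.br (nat_lit 0) (.cons (.br (nat_lit 1) (.cons (.br (nat_lit 2) (.cons (.rel (nat_lit 150995970)) .nil)) .nil)) .nil)) (.node (.node (.node (.node .leaf (nat_lit 4417796057272320) (.br (nat_lit 0) (.cons (.br (nat_lit 1) (.cons (.rel (nat_lit 20977728)) .nil)) .nil)) .leaf) (nat_lit 4417798074324992) (.br (nat_lit 3) (.cons (.br (nat_lit 4)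 (.cons (.rel (nat_lit 1610612760)) (.cons (.rel (nat_lit 1342210113)) (.cons (.rel (nat_lit 1342181397)) .nil)))) .nil)) .leaf) (nat_lit 4417798074325293) (.br (nat_lit 5) (.cons (.br (nat_lit 3) (.cons (.rel (nat_lit 4563681297)) (.cons (.rel (nat_lit 9126821892)) .nil))) .nil)) (.node .leaf (nat_lit 4417798074325902) (.br (nat_lit 3) (.cons (.br (nat_lit 4) (.cons (.rel (nat_lit 1343230020)) .nil)) .nil)) .leaf)) (nat_lit 4417798074326497) (.br (nat_lit 0) (.cons (.br (nat_lit 3) (.cons (.rel (nat_lit 276824148)) .nil)) .nil)) (.node (.node .leaf (nat_lit 4417798074326554) (.br (nat_lit 4) (.cons (.br (nat_lit 6) (.cons (.rel (nat_lit 35433742401)) .nil)) .nil)) .leaf) (nat_lit 4417798149974016) (.br (nat_lit 0) (.cons (.br (nat_lit 2) (.cons (.rel (nat_lit 71336064)) .nil)) .nil)) (.node .leaf (nat_lit 4417800020482350) (.br (nat_lit 0) (.cons (.br (nat_lit 4) (.cons (.rel (nat_lit 1077940353)) .nil)) .nil)) .leaf)))))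

/-- refutations 17 -/
def e17 : EX := (.node (.node (.node (.node (.node .leaf (nat_lit 4418109257365655) (.br (nat_lit 0) (.cons (.br (nat_lit 3) (.cons (.rel (nat_lit 276840705)) .nil)) .nil)) .leaf) (nat_lit 4418221655689341) (.br (nat_lit 0) (.cons (.br (nat_lit 4) (.cons (.rel (nat_lit 1077937536)) .nil)) .nil)) .leaf) (nat_lit 4418221655689466) (.br (nat_lit 0) (.cons (.br (nat_lit 5) (.cons (.rel (nat_lit 4303364352)) (.cons (.rel (nat_lit 4299161937)) .nil))) .nil)) (.node (.node .leaf (nat_lit 4421093872207330) (.br (nat_lit 2) (.cons (.br (nat_lit 4) (.cons (.rel (nat_lit 1207961664)) .nil)) .nil)) .leaf) (nat_lit 4422576018784257) (.br (nat_lit 3) (.cons (.br (nat_lit 5) (.cons (.rel (nat_lit 4563468624)) (.cons (.br (nat_lit 2) (.cons (.rel (nat_lit 402718728)) (.cons (.rel (nat_lit 4362076500)) (.cons (.rel (nat_lit 402653265)) .nil)))) .nil))) (.cons (.br (nat_lit 4) (.cons (.rel (nat_lit 1342182402)) (.cons (.rel (nat_lit 2684358912)) (.cons (.rel (nat_lit 1610612760))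 .nil)))) .nil))) .leaf)) (nat_lit 4423212312764718) (.br (nat_lit 5) (.cons (.br (nat_lit 2) (.cons (.rel (nat_lit 4362080322)) (.cons (.rel (nat_lit 4362240000)) (.cons (.rel (nat_lit 4362240000)) .nil)))) .nil)) (.node (.node (.node .leaf (nat_lit 4423212312765197) (.br (nat_lit 0) (.cons (.br (nat_lit 5) (.cons (.rel (nat_lit 4303650816)) .nil)) .nil)) .leaf) (nat_lit 4423249956964353) (.br (nat_lit 1) (.cons (.br (nat_lit 3) (.cons (.rel (nat_lit 285348864)) .nil)) .nil)) .leaf) (nat_lit 4423264470818816) (.br (nat_lit 6) (.cons (.br (nat_lit 3) (.cons (.rel (nat_lit 17448322050)) (.cons (.rel (nat_lit 17716744260)) .nil))) .nil)) (.node (.node .leaf (nat_lit 4423264471582720) (.br (nat_lit 3) (.cons (.br (nat_lit 4) (.cons (.rel (nat_lit 1342247040)) .nil)) .nil)) .leaf) (nat_lit 4423373548010108) (.br (nat_lit 3) (.cons (.br (nat_lit 5) (.cons (.rel (nat_lit 4563435528)) .nil)) .nil)) .leaf))) (nat_lit 4423375661875852) (.br (nat_lit 2) (.cons (.br (nat_lit 6) (.cons (.rel (nat_lit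 34426863618)) .nil)) .nil)) (.node (.node (.node (.node .leaf (nat_lit 4423679442214370) (.br (nat_lit 1) (.cons (.br (nat_lit 2) (.cons (.rel (nat_lit 100664340)) .nil)) .nil)) .leaf) (nat_lit 4426858457559825) (.br (nat_lit 0) (.cons (.br (nat_lit 2) (.cons (.rel (nat_lit 71958528)) .nil)) .nil)) .leaf) (nat_lit 4426862437953841) (.br (nat_lit 0) (.cons (.br (nat_lit 1) (.cons (.rel (nat_lit 21234177)) .nil)) .nil)) (.node (.node .leaf (nat_lit 4427538420222583) (.br (nat_lit 1) (.cons (.br (nat_lit 3) (.cons (.rel (nat_lit 570442752)) .nil)) .nil)) .leaf) (nat_lit 4427538421326455) (.br (nat_lit 1) (.cons (.br (nat_lit 0) (.cons (.rel (nat_lit 21041172)) (.cons (.rel (nat_lit 21234177)) .nil))) .nil)) .leaf)) (nat_lit 4427716722952193) (.br (nat_lit 2) (.cons (.br (nat_lit 5) (.cons (.rel (nat_lit 4362147840)) .nil)) .nil)) (.node (.node (.node .leaf (nat_lit 4427716722953623) (.br (nat_lit 1) (.cons (.br (nat_lit 0) (.cons (.rel (nat_lit 20977728)) (.cons (.rel (nat_lit 21039360))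 .nil))) .nil)) .leaf) (nat_lit 4427965279739258) (.br (nat_lit 0) (.cons (.br (nat_lit 5) (.cons (.rel (nat_lit 4299165768)) .nil)) .nil)) .leaf) (nat_lit 4427965281280781) (.br (nat_lit 2) (.cons (.br (nat_lit 6) (.cons (.rel (nat_lit 34426913280)) .nil)) .nil)) (.node (.node .leaf (nat_lit 4427976508246647) (.br (nat_lit 0) (.cons (.br (nat_lit 1) (.cons (.rel (nat_lit 21069888)) .nil)) .nil)) .leaf) (nat_lit 4427988315214126) (.br (nat_lit 0) (.cons (.br (nat_lit 4) (.cons (.rel (nat_lit 1077970944)) .nil)) .nil)) .leaf))))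

/-- refutations 19 -/
def e19 : EX := (.node (.node (.node (.node .leaf (nat_lit 5014217614966785) (.br (nat_lit 1) (.cons (.br (nat_lit 0) (.cons (.rel (nat_lit 21242880)) (.cons (.rel (nat_lit 20977728)) .nil))) .nil)) .leaf) (nat_lit 5014302779033601) (.br (nat_lit 0) (.cons (.br (nat_lit 2) (.cons (.rel (nat_lit 71305536)) .nil)) .nil)) (.node .leaf (nat_lit 5014890262335489) (.br (nat_lit 0) (.cons (.br (nat_lit 4) (.cons (.rel (nat_lit 1077940353)) .nil)) .nil)) .leaf)) (nat_lit 5014894980927643) (.br (nat_lit 1) (.cons (.br (nat_lit 3) (.cons (.rel (nat_lit 285348864)) .nil)) .nil)) (.node (.node .leaf (nat_lit 5021340975770881) (.br (nat_lit 0) (.cons (.br (nat_lit 2) (.cons (.rel (nat_lit 71307348)) .nil)) .nil)) .leaf) (nat_lit 5021810486160886) (.br (nat_lit 0) (.cons (.br (nat_lit 1) (.cons (.rel (nat_lit 20993280)) .nil)) .nil)) .leaf)) (nat_lit 5025861816567809) (.br (nat_lit 0) (.cons (.br (nat_lit 3) (.cons (.rel (nat_lit 277087488)) .nil)) .nil)) (.node (.node (.node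 .leaf (nat_lit 5025861816567994) (.br (nat_lit 2) (.cons (.br (nat_lit 5) (.cons (.rel (nat_lit 4429185060)) (.cons (.rel (nat_lit 4362240000)) .nil))) .nil)) .leaf) (nat_lit 5025861816568439) (.br (nat_lit 1) (.cons (.br (nat_lit 2) (.cons (.br (nat_lit 3) (.cons (.br (nat_lit 4) (.cons (.rel (nat_lit 1342179585)) .nil)) .nil)) .nil)) .nil)) (.node .leaf (nat_lit 5026099683934845) (.br (nat_lit 0) (.cons (.br (nat_lit 2) (.cons (.rel (nat_lit 71308353)) .nil)) .nil)) .leaf)) (nat_lit 5026110925735937) (.br (nat_lit 6) (.cons (.br (nat_lit 1) (.cons (.rel (nat_lit 34376779776)) (.cons (.rel (nat_lit 17196728388)) .nil))) .nil)) (.node (.node .leaf (nat_lit 5026114193098789) (.br (nat_lit 2) (.cons (.br (nat_lit 3) (.cons (.rel (nat_lit 606076992)) .nil)) .nil)) .leaf) (nat_lit 5026117958571266) (.br (nat_lit 0) (.cons (.br (nat_lit 1) (.cons (.rel (nat_lit 20993280)) .nil)) .nil)) .leaf)))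

/-- refutations 20 -/
def e20 : EX := (.node (.node (.node (.node (.node (.node .leaf (nat_lit 5277670286299136) (.br (nat_lit 0) (.cons (.br (nat_lit 2) (.cons (.rel (nat_lit 71323905)) .nil)) .nil)) .leaf) (nat_lit 5277670286299438) (.br (nat_lit 0) (.cons (.br (nat_lit 6) (.cons (.rel (nat_lit 17184065025)) .nil)) .nil)) (.node .leaf (nat_lit 5277701512837275) (.br (nat_lit 0) (.cons (.br (nat_lit 3) (.cons (.rel (nat_lit 272909328)) .nil)) .nil)) .leaf)) (nat_lit 5277701521229825) (.br (nat_lit 2) (.cons (.br (nat_lit 4) (.cons (.rel (nat_lit 2214920448)) .nil)) .nil)) (.node (.node .leaf (nat_lit 5277702163271990) (.br (nat_lit 5) (.cons (.br (nat_lit 6) (.cons (.rel (nat_lit 21474844692)) .nil)) .nil)) .leaf) (nat_lit 5277704029737270) (.br (nat_lit 4) (.cons (.br (nat_lit 3) (.cons (.rel (nat_lit 1342181397)) (.cons (.rel (nat_lit 2415919140)) (.cons (.rel (nat_lit 1610612760)) (.cons (.rel (nat_lit 1342181397)) (.cons (.rel (nat_lit 2684358912)) (.cons (.rel (nat_lit 1343230020))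 .nil))))))) (.cons (.br (nat_lit 0) (.cons (.br (nat_lit 3) (.cons (.rel (nat_lit 276889602)) (.cons (.rel (nat_lit 1342185984)) (.cons (.rel (nat_lit 1610613765)) (.cons (.rel (nat_lit 1342185984)) (.cons (.rel (nat_lit 2684358912)) (.cons (.rel (nat_lit 1342472448)) .nil))))))) (.cons (.rel (nat_lit 1078264320)) (.cons (.rel (nat_lit 1078461441)) .nil)))) .nil))) .leaf)) (nat_lit 5278086596390912) (.br (nat_lit 2) (.cons (.br (nat_lit 3) (.cons (.rel (nat_lit 336068610)) .nil)) .nil)) (.node (.node (.node .leaf (nat_lit 5278090764185850) (.br (nat_lit 2) (.cons (.br (nat_lit 4) (.cons (.rel (nat_lit 1207961664)) .nil)) .nil)) .leaf) (nat_lit 5278091288729725) (.br (nat_lit 6) (.cons (.br (nat_lit 2) (.cons (.rel (nat_lit 17314119681)) (.cons (.rel (nat_lit 17314366464)) .nil))) .nil)) (.node .leaf (nat_lit 5278091813797888) (.br (nat_lit 3) (.cons (.br (nat_lit 2) (.cons (.rel (nat_lit 335568960)) (.cons (.rel (nat_lit 335578113)) (.cons (.rel (nat_lit 335581698)) .nil)))) .nil))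 .leaf)) (nat_lit 5278091813799398) (.br (nat_lit 0) (.cons (.br (nat_lit 4) (.cons (.rel (nat_lit 1077970944)) .nil)) .nil)) (.node (.node .leaf (nat_lit 5278091814400000) (.br (nat_lit 3) (.cons (.br (nat_lit 6) (.cons (.rel (nat_lit 17448310080)) .nil)) .nil)) .leaf) (nat_lit 5278091814400911) (.br (nat_lit 0) (.cons (.br (nat_lit 2) (.cons (.rel (nat_lit 71305536)) .nil)) .nil)) .leaf))) (nat_lit 5278094557487105) (.br (nat_lit 0) (.cons (.br (nat_lit 1) (.cons (.rel (nat_lit 20971842)) .nil)) .nil)) (.node (.node (.node (.node .leaf (nat_lit 5278096658221057) (.br (nat_lit 4) (.cons (.br (nat_lit 6) (.cons (.rel (nat_lit 19327615488)) (.cons (.rel (nat_lit 18255712512)) .nil))) .nil)) .leaf) (nat_lit 5278100407146497) (.br (nat_lit 4) (.cons (.br (nat_lit 5) (.cons (.rel (nat_lit 5368971840)) .nil)) .nil)) (.node .leaf (nat_lit 5278100408531101) (.br (nat_lit 1) (.cons (.br (nat_lit 2) (.cons (.rel (nat_lit 85984512)) .nil)) .nil)) .leaf)) (nat_lit 5279030435339150) (.br (nat_lit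 0) (.cons (.br (nat_lit 3) (.cons (.rel (nat_lit 273680640)) .nil)) .nil)) (.node (.node .leaf (nat_lit 5279812964916511) (.br (nat_lit 0) (.cons (.br (nat_lit 1) (.cons (.rel (nat_lit 20977728)) .nil)) .nil)) .leaf) (nat_lit 5280040474851630) (.br (nat_lit 0) (.cons (.br (nat_lit 2) (.cons (.rel (nat_lit 71307348)) .nil)) .nil)) .leaf)) (nat_lit 5280233028864156) (.br (nat_lit 1) (.cons (.br (nat_lit 3) (.cons (.rel (nat_lit 285216897)) .nil)) .nil)) (.node (.node (.node .leaf (nat_lit 5280238719234204) (.br (nat_lit 0) (.cons (.br (nat_lit 4) (.cons (.rel (nat_lit 1077970944)) .nil)) .nil)) .leaf) (nat_lit 5280238773669888) (.br (nat_lit 0) (.cons (.br (nat_lit 2) (.cons (.rel (nat_lit 71958528)) (.cons (.rel (nat_lit 142622784)) (.cons (.rel (nat_lit 71336064)) .nil)))) (.cons (.br (nat_lit 6) (.cons (.rel (nat_lit 17184065025)) (.cons (.rel (nat_lit 17184067842)) .nil))) .nil))) .leaf) (nat_lit 5280238773670013) (.br (nat_lit 6) (.cons (.br (nat_lit 3) (.cons (.rel (nat_lit 17448861696))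 (.cons (.rel (nat_lit 17448310080)) .nil))) .nil)) (.node (.node .leaf (nat_lit 5280239296409600) (.br (nat_lit 3) (.cons (.br (nat_lit 4) (.cons (.rel (nat_lit 1342182402)) .nil)) .nil)) .leaf) (nat_lit 5284186911447040) (.br (nat_lit 0) (.cons (.br (nat_lit 4) (.cons (.rel (nat_lit 1077953088)) .nil)) .nil)) .leaf)))) (nat_lit 5284593186336779) (.br (nat_lit 0) (.cons (.br (nat_lit 1) (.cons (.rel (nat_lit 20971842)) .nil)) .nil)) (.node (.node (.node (.node (.node .leaf (nat_lit 5285275654110690) (.br (nat_lit 4) (.cons (.br (nat_lit 5) (.cons (.rel (nat_lit 5368709505)) .nil)) .nil)) .leaf) (nat_lit 5285277833140986) (.br (nat_lit 0) (.cons (.br (nat_lit 2) (.cons (.rel (nat_lit 71369985)) .nil)) .nil)) (.node .leaf (nat_lit 5285389502289920) (.br (nat_lit 0) (.cons (.br (nat_lit 4) (.cons (.rel (nat_lit 1077940353)) .nil)) .nil)) .leaf)) (nat_lit 5285389502290595) (.br (nat_lit 0) (.cons (.br (nat_lit 1) (.cons (.rel (nat_lit 20971842)) .nil)) .nil)) (.node (.node .leaf (nat_lit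 5285392020879361) (.br (nat_lit 1) (.cons (.br (nat_lit 2) (.cons (.rel (nat_lit 100671744)) .nil)) .nil)) .leaf) (nat_lit 5285392020879515) (.br (nat_lit 1) (.cons (.br (nat_lit 4) (.cons (.rel (nat_lit 1107297345)) (.cons (.rel (nat_lit 1090650372)) .nil))) .nil)) .leaf)) (nat_lit 5285393258199196) (.br (nat_lit 1) (.cons (.br (nat_lit 3) (.cons (.rel (nat_lit 285247488)) .nil)) .nil)) (.node (.node (.node .leaf (nat_lit 5285436206635008) (.br (nat_lit 4) (.cons (.br (nat_lit 5) (.cons (.rel (nat_lit 5368844289)) .nil)) .nil)) .leaf) (nat_lit 5285656442387942) (.br (nat_lit 1) (.cons (.br (nat_lit 2) (.cons (.rel (nat_lit 100794432)) .nil)) .nil)) .leaf) (nat_lit 5289742420098306) (.br (nat_lit 0) (.cons (.br (nat_lit 1) (.cons (.rel (nat_lit 21234177)) .nil)) .nil)) (.node (.node .leaf (nat_lit 5289747767834779) (.br (nat_lit 3) (.cons (.br (nat_lit 1) (.cons (.rel (nat_lit 285491202)) (.cons (.rel (nat_lit 285214080)) .nil))) .nil)) .leaf) (nat_lit 5289747768440987) (.br (nat_lit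 3) (.cons (.br (nat_lit 6) (.cons (.rel (nat_lit 17448322050)) .nil)) .nil)) .leaf))) (nat_lit 5289748354126126) (.br (nat_lit 0) (.cons (.br (nat_lit 4) (.cons (.rel (nat_lit 1077953088)) .nil)) .nil)) (.node (.node (.node (.node .leaf (nat_lit 5289985768510950) (.br (nat_lit 4) (.cons (.br (nat_lit 5) (.cons (.rel (nat_lit 5368742913)) .nil)) .nil)) .leaf) (nat_lit 5289985768642560) (.br (nat_lit 4) (.cons (.br (nat_lit 5) (.cons (.rel (nat_lit 5368971840)) .nil)) .nil)) (.node .leaf (nat_lit 5289985768643471) (.br (nat_lit 0) (.cons (.br (nat_lit 5) (.cons (.rel (nat_lit 8594194560)) .nil)) .nil)) .leaf)) (nat_lit 5289988872173568) (.br (nat_lit 3) (.cons (.br (nat_lit 4) (.cons (.rel (nat_lit 1342178580)) .nil)) .nil)) (.node (.node .leaf (nat_lit 5289996728107259) (.br (nat_lit 0) (.cons (.br (nat_lit 2) (.cons (.rel (nat_lit 71336064)) .nil)) .nil)) .leaf) (nat_lit 5290862369789952) (.br (nat_lit 0) (.cons (.br (nat_lit 1) (.cons (.rel (nat_lit 21069888)) .nil)) .nil)) .leaf))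 (nat_lit 5290862369790103) (.br (nat_lit 0) (.cons (.br (nat_lit 3) (.cons (.rel (nat_lit 542114820)) .nil)) .nil)) (.node (.node (.node .leaf (nat_lit 5291073528868101) (.br (nat_lit 0) (.cons (.br (nat_lit 2) (.cons (.rel (nat_lit 75498528)) .nil)) .nil)) .leaf) (nat_lit 5291079269832829) (.br (nat_lit 5) (.cons (.br (nat_lit 6) (.cons (.rel (nat_lit 38654723088)) .nil)) .nil)) .leaf) (nat_lit 5291079793866752) (.br (nat_lit 1) (.cons (.br (nat_lit 3) (.cons (.rel (nat_lit 285229632)) .nil)) .nil)) (.node (.node .leaf (nat_lit 5291079794900992) (.br (nat_lit 4) (.cons (.br (nat_lit 2) (.cons (.rel (nat_lit 1208026113)) (.cons (.rel (nat_lit 2281717776)) .nil))) .nil)) .leaf) (nat_lit 5291079799097345) (.br (nat_lit 2) (.cons (.br (nat_lit 1) (.cons (.rel (nat_lit 150994965)) (.cons (.rel (nat_lit 100958208)) .nil))) .nil)) .leaf)))))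

/-- refutations 21 -/
def e21 : EX := (.node (.node (.node (.node (.node (.node .leaf (nat_lit 5453620649893242) (.br (nat_lit 0) (.cons (.br (nat_lit 1) (.cons (.rel (nat_lit 21495936)) .nil)) .nil)) .leaf) (nat_lit 5453620650219680) (.br (nat_lit 2) (.cons (.br (nat_lit 3) (.cons (.rel (nat_lit 335824896)) .nil)) .nil)) (.node .leaf (nat_lit 5453620667965441) (.br (nat_lit 0) (.cons (.br (nat_lit 3) (.cons (.rel (nat_lit 272699472)) .nil)) .nil)) .leaf)) (nat_lit 5453626519615648) (.br (nat_lit 3) (.cons (.br (nat_lit 6) (.cons (.rel (nat_lit 17448312897)) .nil)) .nil)) (.node (.node .leaf (nat_lit 5453635715063808) (.br (nat_lit 0) (.cons (.br (nat_lit 1) (.cons (.rel (nat_lit 20971842)) .nil)) .nil)) .leaf) (nat_lit 5454007386221295) (.br (nat_lit 3) (.cons (.br (nat_lit 6) (.cons (.rel (nat_lit 34628501520)) .nil)) .nil)) .leaf)) (nat_lit 5454008476474601) (.br (nat_lit 0) (.cons (.br (nat_lit 6) (.cons (.rel (nat_lit 17184064020)) .nil)) .nil)) (.node (.node (.node .leaf (nat_lit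 5454010536143599) (.br (nat_lit 6) (.cons (.br (nat_lit 4) (.cons (.rel (nat_lit 35434004736)) (.cons (.rel (nat_lit 19327377408)) (.cons (.rel (nat_lit 19327353153)) .nil)))) .nil)) .leaf) (nat_lit 5454019126078942) (.br (nat_lit 0) (.cons (.br (nat_lit 3) (.cons (.rel (nat_lit 273154056)) .nil)) .nil)) .leaf) (nat_lit 5454028262039553) (.br (nat_lit 4) (.cons (.br (nat_lit 2) (.cons (.rel (nat_lit 1141129221)) (.cons (.rel (nat_lit 1141129221)) .nil))) .nil)) (.node (.node .leaf (nat_lit 5454028262040333) (.br (nat_lit 3) (.cons (.br (nat_lit 5) (.cons (.rel (nat_lit 4563406992)) .nil)) .nil)) .leaf) (nat_lit 5454028262277756) (.br (nat_lit 0) (.cons (.br (nat_lit 1) (.cons (.rel (nat_lit 21234177)) .nil)) .nil)) .leaf))) (nat_lit 5454030852055040) (.br (nat_lit 4) (.cons (.br (nat_lit 5) (.cons (.rel (nat_lit 5368741908)) .nil)) .nil)) (.node (.node (.node (.node .leaf (nat_lit 5454030854119424) (.br (nat_lit 0) (.cons (.br (nat_lit 3) (.cons (.br (nat_lit 5) (.cons (.rel (nat_lit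 9126821892)) (.cons (.rel (nat_lit 4303357953)) .nil))) .nil)) .nil)) .leaf) (nat_lit 5454694580988655) (.br (nat_lit 0) (.cons (.br (nat_lit 2) (.cons (.rel (nat_lit 75497478)) .nil)) .nil)) (.node .leaf (nat_lit 5454868912867488) (.br (nat_lit 3) (.cons (.br (nat_lit 5) (.cons (.rel (nat_lit 9126821892)) .nil)) .nil)) .leaf)) (nat_lit 5455127773667964) (.br (nat_lit 2) (.cons (.br (nat_lit 3) (.cons (.rel (nat_lit 335577108)) .nil)) .nil)) (.node (.node .leaf (nat_lit 5455127773904897) (.br (nat_lit 0) (.cons (.br (nat_lit 2) (.cons (.rel (nat_lit 142622784)) .nil)) .nil)) .leaf) (nat_lit 5455127773905532) (.br (nat_lit 3) (.cons (.br (nat_lit 5) (.cons (.rel (nat_lit 4831839360)) .nil)) .nil)) .leaf)) (nat_lit 5455127773906427) (.br (nat_lit 2) (.cons (.br (nat_lit 5) (.cons (.rel (nat_lit 4362240000)) .nil)) .nil)) (.node (.node (.node .leaf (nat_lit 5456240768681984) (.br (nat_lit 4) (.cons (.br (nat_lit 6) (.cons (.rel (nat_lit 35433517056)) (.cons (.rel (nat_lit 18253611588))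 .nil))) (.cons (.br (nat_lit 3) (.cons (.rel (nat_lit 1342456896)) (.cons (.rel (nat_lit 1342185984)) (.cons (.rel (nat_lit 1342185984)) .nil)))) .nil))) .leaf) (nat_lit 5456240768682735) (.br (nat_lit 0) (.cons (.br (nat_lit 4) (.cons (.rel (nat_lit 1077937536)) .nil)) .nil)) .leaf) (nat_lit 5456240770486272) (.br (nat_lit 4) (.cons (.br (nat_lit 5) (.cons (.rel (nat_lit 5369233410)) (.cons (.rel (nat_lit 10737680385)) .nil))) .nil)) (.node (.node .leaf (nat_lit 5456240770487023) (.br (nat_lit 3) (.cons (.br (nat_lit 5) (.cons (.rel (nat_lit 4563406992)) .nil)) .nil)) .leaf) (nat_lit 5456245845688481) (.br (nat_lit 0) (.cons (.br (nat_lit 2) (.cons (.rel (nat_lit 71307348)) .nil)) .nil)) .leaf)))) (nat_lit 5456246579598569) (.br (nat_lit 0) (.cons (.br (nat_lit 1) (.cons (.rel (nat_lit 20971842)) .nil)) .nil)) (.node (.node (.node (.node (.node .leaf (nat_lit 5456247097886876) (.br (nat_lit 1) (.cons (.br (nat_lit 2) (.cons (.rel (nat_lit 85984512)) .nil)) .nil)) .leaf) (nat_lit 5459468280148124)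 (.br (nat_lit 0) (.cons (.br (nat_lit 1) (.cons (.rel (nat_lit 20973909)) .nil)) .nil)) (.node .leaf (nat_lit 5459468281948316) (.br (nat_lit 0) (.cons (.br (nat_lit 1) (.cons (.rel (nat_lit 21242880)) .nil)) .nil)) .leaf)) (nat_lit 5460084163654268) (.br (nat_lit 0) (.cons (.br (nat_lit 2) (.cons (.rel (nat_lit 71321088)) .nil)) .nil)) (.node (.node .leaf (nat_lit 5461314508536113) (.br (nat_lit 0) (.cons (.br (nat_lit 1) (.cons (.rel (nat_lit 20977728)) .nil)) .nil)) .leaf) (nat_lit 5461366656196608) (.br (nat_lit 1) (.cons (.br (nat_lit 2) (.cons (.rel (nat_lit 100665345)) .nil)) .nil)) .leaf)) (nat_lit 5461578268519902) (.br (nat_lit 0) (.cons (.br (nat_lit 5) (.cons (.rel (nat_lit 4299165768)) .nil)) .nil)) (.node (.node (.node .leaf (nat_lit 5461578812482922) (.br (nat_lit 3) (.cons (.br (nat_lit 6) (.cons (.rel (nat_lit 17716744260)) .nil)) .nil)) .leaf) (nat_lit 5461578813246076) (.br (nat_lit 5) (.cons (.br (nat_lit 6) (.cons (.rel (nat_lit 21474836994)) .nil)) .nil)) .leaf)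 (nat_lit 5461578813246826) (.br (nat_lit 3) (.cons (.br (nat_lit 4) (.cons (.rel (nat_lit 1610612760)) .nil)) .nil)) (.node (.node .leaf (nat_lit 5461578813247002) (.br (nat_lit 3) (.cons (.br (nat_lit 4) (.cons (.rel (nat_lit 1610612760)) .nil)) .nil)) .leaf) (nat_lit 5461578814546556) (.br (nat_lit 6) (.cons (.br (nat_lit 1) (.cons (.rel (nat_lit 34376532993)) (.cons (.br (nat_lit 4) (.cons (.rel (nat_lit 18253873158)) (.cons (.rel (nat_lit 18270393345)) .nil))) .nil))) .nil)) .leaf))) (nat_lit 5464596472469504) (.br (nat_lit 0) (.cons (.br (nat_lit 2) (.cons (.rel (nat_lit 71323905)) .nil)) .nil)) (.node (.node (.node (.node .leaf (nat_lit 5464797434588393) (.br (nat_lit 0) (.cons (.br (nat_lit 1) (.cons (.rel (nat_lit 21069888)) .nil)) .nil)) .leaf) (nat_lit 5464798801401857) (.br (nat_lit 0) (.cons (.br (nat_lit 1) (.cons (.rel (nat_lit 21495936)) .nil)) .nil)) (.node .leaf (nat_lit 5464800038721537) (.br (nat_lit 3) (.cons (.br (nat_lit 0) (.cons (.rel (nat_lit 542114820)) (.cons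 (.rel (nat_lit 541131840)) .nil))) .nil)) .leaf)) (nat_lit 5464800038722172) (.br (nat_lit 2) (.cons (.br (nat_lit 0) (.cons (.rel (nat_lit 71336064)) (.cons (.rel (nat_lit 71372802)) .nil))) .nil)) (.node (.node .leaf (nat_lit 5465397449244832) (.br (nat_lit 3) (.cons (.br (nat_lit 4) (.cons (.rel (nat_lit 2684358912)) .nil)) .nil)) .leaf) (nat_lit 5465487233806337) (.br (nat_lit 1) (.cons (.br (nat_lit 4) (.cons (.rel (nat_lit 1090551813)) .nil)) .nil)) .leaf)) (nat_lit 5465659032539298) (.br (nat_lit 1) (.cons (.br (nat_lit 2) (.cons (.rel (nat_lit 100664340)) .nil)) .nil)) (.node (.node (.node .leaf (nat_lit 5465659032539772) (.br (nat_lit 3) (.cons (.br (nat_lit 5) (.cons (.rel (nat_lit 4831839360)) .nil)) .nil)) .leaf) (nat_lit 5465659033715324) (.br (nat_lit 0) (.cons (.br (nat_lit 2) (.cons (.rel (nat_lit 142622784)) .nil)) .nil)) .leaf) (nat_lit 5465660413702451) (.br (nat_lit 0) (.cons (.br (nat_lit 1) (.cons (.rel (nat_lit 21069888)) .nil)) .nil)) (.node (.node .leaf (nat_lit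 5465667623413274) (.br (nat_lit 3) (.cons (.br (nat_lit 4) (.cons (.rel (nat_lit 1342182402)) .nil)) .nil)) .leaf) (nat_lit 5465669636677633) (.br (nat_lit 1) (.cons (.br (nat_lit 3) (.cons (.rel (nat_lit 285736980)) .nil)) .nil)) .leaf)))))

/-- refutations 22 -/
def e22 : EX := (.node (.node (.node (.node (.node (.node (.node .leaf (nat_lit 11188675904062366) (.br (nat_lit 3) (.cons (.br (nat_lit 6) (.cons (.rel (nat_lit 17448371712)) .nil)) .nil)) .leaf) (nat_lit 11188678539057462) (.br (nat_lit 1) (.cons (.br (nat_lit 4) (.cons (.rel (nat_lit 1107297345)) .nil)) .nil)) (.node .leaf (nat_lit 11189065086427136) (.br (nat_lit 5) (.cons (.br (nat_lit 6) (.cons (.rel (nat_lit 25770328068)) (.cons (.rel (nat_lit 21476147232)) .nil))) .nil)) .leaf)) (nat_lit 11189065736544256) (.br (nat_lit 1) (.cons (.br (nat_lit 5) (.cons (.rel (nat_lit 4311749697)) (.cons (.rel (nat_lit 8606713860)) .nil))) .nil)) (.node (.node .leaf (nat_lit 11189073676048385) (.br (nat_lit 4) (.cons (.br (nat_lit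 3) (.cons (.rel (nat_lit 1342178580)) (.cons (.rel (nat_lit 2415919140)) (.cons (.rel (nat_lit 1342179585)) (.cons (.rel (nat_lit 2684358912)) (.cons (.rel (nat_lit 2415919140)) .nil)))))) (.cons (.br (nat_lit 6) (.cons (.rel (nat_lit 35433517056)) (.cons (.rel (nat_lit 18254987280)) (.cons (.rel (nat_lit 18253873158)) .nil)))) .nil))) .leaf) (nat_lit 11189073676048539) (.br (nat_lit 2) (.cons (.br (nat_lit 6) (.cons (.rel (nat_lit 17246982405)) .nil)) .nil)) .leaf)) (nat_lit 11189073676048694) (.br (nat_lit 4) (.cons (.br (nat_lit 3) (.cons (.rel (nat_lit 1342472448)) (.cons (.rel (nat_lit 2415919140)) (.cons (.rel (nat_lit 2684358912)) .nil)))) .nil)) (.node (.node (.node .leaf (nat_lit 11189078302362855) (.br (nat_lit 1) (.cons (.br (nat_lit 4) (.cons (.rel (nat_lit 1090551813)) .nil)) .nil)) .leaf) (nat_lit 11189082265978881) (.br (nat_lit 3) (.cons (.br (nat_lit 4) (.cons (.rel (nat_lit 2684358912)) (.cons (.rel (nat_lit 1610612760)) (.cons (.rel (nat_lit 1342185984)) (.cons (.rel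 (nat_lit 1342210113)) (.cons (.rel (nat_lit 2684358912)) (.cons (.rel (nat_lit 1342182402)) .nil))))))) .nil)) .leaf) (nat_lit 11189082265979031) (.br (nat_lit 4) (.cons (.br (nat_lit 5) (.cons (.rel (nat_lit 5368733760)) (.cons (.rel (nat_lit 6443501568)) .nil))) .nil)) (.node (.node .leaf (nat_lit 11189082265979035) (.br (nat_lit 4) (.cons (.br (nat_lit 3) (.cons (.rel (nat_lit 1342185984)) (.cons (.rel (nat_lit 1342521345)) (.cons (.rel (nat_lit 2684358912)) .nil)))) (.cons (.br (nat_lit 3) (.cons (.rel (nat_lit 2415919140)) (.cons (.rel (nat_lit 1342210113)) (.cons (.rel (nat_lit 2684358912)) .nil)))) .nil))) .leaf) (nat_lit 11189082265979187) (.br (nat_lit 3) (.cons (.br (nat_lit 4) (.cons (.rel (nat_lit 1342185984)) (.cons (.rel (nat_lit 1342521345)) (.cons (.rel (nat_lit 2415919140)) .nil)))) (.cons (.br (nat_lit 5) (.cons (.rel (nat_lit 4563406992)) (.cons (.rel (nat_lit 4563406992)) .nil))) .nil))) .leaf))) (nat_lit 11189082265979190) (.br (nat_lit 3) (.cons (.br (nat_lit 4)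 (.cons (.rel (nat_lit 1342185984)) (.cons (.rel (nat_lit 1342185984)) .nil))) (.cons (.br (nat_lit 4) (.cons (.rel (nat_lit 2684358912)) (.cons (.rel (nat_lit 1610612760)) .nil))) .nil))) (.node (.node (.node (.node .leaf (nat_lit 11189082265979506) (.br (nat_lit 0) (.cons (.br (nat_lit 4) (.cons (.rel (nat_lit 1077937536)) (.cons (.rel (nat_lit 1082130528)) .nil))) (.cons (.br (nat_lit 4) (.cons (.rel (nat_lit 1078988832)) (.cons (.rel (nat_lit 1078460436)) .nil))) .nil))) .leaf) (nat_lit 11189082265979516) (.br (nat_lit 4) (.cons (.br (nat_lit 0) (.cons (.rel (nat_lit 1078460436)) (.cons (.rel (nat_lit 1077937536)) .nil))) .nil)) (.node .leaf (nat_lit 11189082265979542) (.br (nat_lit 4) (.cons (.br (nat_lit 3) (.cons (.rel (nat_lit 1342247040)) (.cons (.rel (nat_lit 1342521345)) (.cons (.rel (nat_lit 2684358912)) .nil)))) .nil)) .leaf)) (nat_lit 11189082265979637) (.br (nat_lit 3) (.cons (.br (nat_lit 4) (.cons (.rel (nat_lit 1342185984)) (.cons (.rel (nat_lit 1342179585)) .nil)))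 .nil)) (.node (.node .leaf (nat_lit 11189082265980131) (.br (nat_lit 3) (.cons (.br (nat_lit 4) (.cons (.rel (nat_lit 1342178580)) (.cons (.rel (nat_lit 2684358912)) .nil))) (.cons (.br (nat_lit 4) (.cons (.rel (nat_lit 1342521345)) (.cons (.rel (nat_lit 1342179585)) .nil))) .nil))) .leaf) (nat_lit 11189082265980135) (.br (nat_lit 3) (.cons (.br (nat_lit 4) (.cons (.rel (nat_lit 1342178580)) .nil)) .nil)) .leaf)) (nat_lit 11189082265980141) (.br (nat_lit 1) (.cons (.br (nat_lit 2) (.cons (.rel (nat_lit 85984512)) (.cons (.rel (nat_lit 85987329)) .nil))) .nil)) (.node (.node (.node .leaf (nat_lit 11189082265980162) (.br (nat_lit 3) (.cons (.br (nat_lit 4) (.cons (.rel (nat_lit 1342210113)) .nil)) .nil)) .leaf) (nat_lit 11189082266105069) (.br (nat_lit 0) (.cons (.br (nat_lit 1) (.cons (.rel (nat_lit 22052868)) .nil)) .nil)) .leaf) (nat_lit 11189082266300416) (.br (nat_lit 5) (.cons (.br (nat_lit 6) (.cons (.rel (nat_lit 25770328068)) (.cons (.rel (nat_lit 21474836994)) .nil))) .nil))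 (.node (.node .leaf (nat_lit 11189082266300417) (.br (nat_lit 3) (.cons (.br (nat_lit 4) (.cons (.rel (nat_lit 2684358912)) (.cons (.rel (nat_lit 2686779408)) (.cons (.rel (nat_lit 2684358912)) .nil)))) (.cons (.br (nat_lit 4) (.cons (.rel (nat_lit 2686779408)) (.cons (.rel (nat_lit 2685666336)) (.cons (.rel (nat_lit 1342179585)) .nil)))) .nil))) .leaf) (nat_lit 11189082266300571) (.br (nat_lit 4) (.cons (.br (nat_lit 3) (.cons (.rel (nat_lit 1342185984)) (.cons (.rel (nat_lit 1342521345)) (.cons (.rel (nat_lit 2415919140)) (.cons (.rel (nat_lit 2684358912)) (.cons (.rel (nat_lit 2415919140)) .nil)))))) (.cons (.br (nat_lit 5) (.cons (.rel (nat_lit 6443501568)) (.cons (.rel (nat_lit 5368989696)) (.cons (.rel (nat_lit 10737680385)) .nil)))) (.cons (.br (nat_lit 5) (.cons (.rel (nat_lit 5368742913)) (.cons (.rel (nat_lit 5369233410)) (.cons (.rel (nat_lit 5368844289)) .nil)))) .nil)))) .leaf)))) (nat_lit 11189082266300667) (.br (nat_lit 1) (.cons (.br (nat_lit 3) (.cons (.rel (nat_lit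 285302784)) .nil)) .nil)) (.node (.node (.node (.node (.node .leaf (nat_lit 11189082266300726) (.br (nat_lit 5) (.cons (.br (nat_lit 2) (.cons (.rel (nat_lit 8724234240)) (.cons (.rel (nat_lit 4362666048)) .nil))) .nil)) .leaf) (nat_lit 11189082266301691) (.br (nat_lit 1) (.cons (.br (nat_lit 2) (.cons (.rel (nat_lit 100671744)) .nil)) .nil)) (.node .leaf (nat_lit 11189082874152961) (.br (nat_lit 1) (.cons (.br (nat_lit 4) (.cons (.rel (nat_lit 2164391937)) (.cons (.rel (nat_lit 2181300240)) .nil))) .nil)) .leaf)) (nat_lit 11189082916417536) (.br (nat_lit 4) (.cons (.br (nat_lit 5) (.cons (.rel (nat_lit 5369233410)) (.cons (.rel (nat_lit 10737680385)) .nil))) (.cons (.br (nat_lit 5) (.cons (.rel (nat_lit 9665774592)) (.cons (.rel (nat_lit 5368844289)) .nil))) .nil))) (.node (.node .leaf (nat_lit 11189082916417691) (.br (nat_lit 5) (.cons (.br (nat_lit 6) (.cons (.rel (nat_lit 25770328068)) (.cons (.rel (nat_lit 25770328068)) .nil))) .nil)) .leaf) (nat_lit 11189082916417846) (.br (nat_lit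 6) (.cons (.br (nat_lit 2) (.cons (.rel (nat_lit 34426863618)) (.cons (.rel (nat_lit 17246982405)) .nil))) .nil)) .leaf)) (nat_lit 11189082979390102) (.br (nat_lit 0) (.cons (.br (nat_lit 3) (.cons (.rel (nat_lit 545521668)) .nil)) .nil)) (.node (.node (.node .leaf (nat_lit 11189082979390367) (.br (nat_lit 1) (.cons (.br (nat_lit 2) (.cons (.rel (nat_lit 150994965)) .nil)) .nil)) .leaf) (nat_lit 11189083503620096) (.br (nat_lit 4) (.cons (.br (nat_lit 5) (.cons (.rel (nat_lit 5369233410)) (.cons (.rel (nat_lit 9663741984)) .nil))) .nil)) .leaf) (nat_lit 11189083503620251) (.br (nat_lit 5) (.cons (.br (nat_lit 4) (.cons (.rel (nat_lit 5369233410)) (.cons (.rel (nat_lit 9663741984)) .nil))) .nil)) (.node (.node .leaf (nat_lit 11189083503620406) (.br (nat_lit 2) (.cons (.br (nat_lit 4) (.cons (.rel (nat_lit 1140854916)) .nil)) .nil)) .leaf) (nat_lit 11189747563822557) (.br (nat_lit 2) (.cons (.br (nat_lit 4) (.cons (.rel (nat_lit 1143017472)) .nil)) .nil)) .leaf))) (nat_lit 11189750709550557)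 (.br (nat_lit 2) (.cons (.br (nat_lit 4) (.cons (.rel (nat_lit 2214593664)) .nil)) .nil)) (.node (.node (.node (.node .leaf (nat_lit 11189752931629056) (.br (nat_lit 5) (.cons (.br (nat_lit 4) (.cons (.rel (nat_lit 10737680385)) (.cons (.rel (nat_lit 5368989696)) .nil))) .nil)) .leaf) (nat_lit 11189752931629211) (.br (nat_lit 5) (.cons (.br (nat_lit 1) (.cons (.rel (nat_lit 8606713860)) (.cons (.rel (nat_lit 4328522760)) (.cons (.rel (nat_lit 8606844000)) (.cons (.rel (nat_lit 4311777408)) .nil))))) .nil)) (.node .leaf (nat_lit 11189752931629366) (.br (nat_lit 1) (.cons (.br (nat_lit 0) (.cons (.rel (nat_lit 23068944)) (.cons (.rel (nat_lit 38862849)) .nil))) .nil)) .leaf)) (nat_lit 11189753518831616) (.br (nat_lit 4) (.cons (.br (nat_lit 5) (.cons (.rel (nat_lit 5369233410)) .nil)) .nil)) (.node (.node .leaf (nat_lit 11189753519601664) (.br (nat_lit 0) (.cons (.br (nat_lit 3) (.cons (.br (nat_lit 5) (.cons (.rel (nat_lit 4831839360)) .nil)) .nil)) .nil)) .leaf) (nat_lit 11190999082981686)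 (.br (nat_lit 1) (.cons (.br (nat_lit 2) (.cons (.rel (nat_lit 100665345)) .nil)) .nil)) .leaf)) (nat_lit 11191057976430899) (.br (nat_lit 3) (.cons (.br (nat_lit 4) (.cons (.rel (nat_lit 1342181397)) .nil)) .nil)) (.node (.node (.node .leaf (nat_lit 11191079111835649) (.br (nat_lit 2) (.cons (.br (nat_lit 1) (.cons (.rel (nat_lit 150999552)) (.cons (.rel (nat_lit 100665345)) (.cons (.rel (nat_lit 150995970)) .nil)))) (.cons (.br (nat_lit 3) (.cons (.rel (nat_lit 336068610)) (.cons (.rel (nat_lit 335578113)) .nil))) .nil))) .leaf) (nat_lit 11191079111835958) (.br (nat_lit 0) (.cons (.br (nat_lit 1) (.cons (.rel (nat_lit 21042177)) .nil)) .nil)) .leaf) (nat_lit 11191083720738817) (.br (nat_lit 1) (.cons (.br (nat_lit 3) (.cons (.rel (nat_lit 285214080)) .nil)) .nil)) (.node (.node .leaf (nat_lit 11191083721375899) (.br (nat_lit 5) (.cons (.br (nat_lit 1) (.cons (.rel (nat_lit 4311765249)) (.cons (.rel (nat_lit 4312014849)) .nil))) .nil)) .leaf) (nat_lit 11191083721376054) (.br (nat_lit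 5) (.cons (.br (nat_lit 1) (.cons (.br (nat_lit 3) (.cons (.rel (nat_lit 285491202)) (.cons (.rel (nat_lit 4831839360)) .nil))) (.cons (.rel (nat_lit 4312088640)) .nil))) .nil)) .leaf))))) (nat_lit 11191084956895232) (.br (nat_lit 0) (.cons (.br (nat_lit 5) (.cons (.rel (nat_lit 4300243968)) .nil)) .nil)) (.node (.node (.node (.node (.node (.node .leaf (nat_lit 11191084958058496) (.br (nat_lit 4) (.cons (.br (nat_lit 3) (.cons (.rel (nat_lit 1342185984)) (.cons (.rel (nat_lit 1342179585)) .nil))) .nil)) .leaf) (nat_lit 11191096204534670) (.br (nat_lit 0) (.cons (.br (nat_lit 3) (.cons (.rel (nat_lit 273683457)) .nil)) .nil)) (.node .leaf (nat_lit 11191100900612097) (.br (nat_lit 5) (.cons (.br (nat_lit 6) (.cons (.rel (nat_lit 21474842880)) (.cons (.rel (nat_lit 21474845697)) .nil))) .nil)) .leaf)) (nat_lit 11191100900612251) (.br (nat_lit 2) (.cons (.br (nat_lit 1) (.cons (.rel (nat_lit 150995970)) (.cons (.rel (nat_lit 150995970)) .nil))) .nil)) (.node (.node .leaf (nat_lit 11191100900612406)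 (.br (nat_lit 5) (.cons (.br (nat_lit 6) (.cons (.rel (nat_lit 25770328068)) (.cons (.rel (nat_lit 38654723088)) .nil))) .nil)) .leaf) (nat_lit 11191100901243035) (.br (nat_lit 6) (.cons (.br (nat_lit 4) (.cons (.rel (nat_lit 18255712512)) (.cons (.rel (nat_lit 35433517056)) (.cons (.rel (nat_lit 18253873158)) .nil)))) .nil)) .leaf)) (nat_lit 11191100901243190) (.br (nat_lit 5) (.cons (.br (nat_lit 6) (.cons (.rel (nat_lit 21475902468)) .nil)) .nil)) (.node (.node (.node .leaf (nat_lit 11191100902013083) (.br (nat_lit 2) (.cons (.br (nat_lit 4) (.cons (.rel (nat_lit 2214609216)) .nil)) .nil)) .leaf) (nat_lit 11191101550729216) (.br (nat_lit 2) (.cons (.br (nat_lit 5) (.cons (.rel (nat_lit 4362077505)) .nil)) .nil)) .leaf) (nat_lit 11191101550729371) (.br (nat_lit 2) (.cons (.br (nat_lit 5) (.cons (.rel (nat_lit 4430234688)) .nil)) .nil)) (.node (.node .leaf (nat_lit 11191101550729526) (.br (nat_lit 5) (.cons (.br (nat_lit 6) (.cons (.rel (nat_lit 25770328068)) (.cons (.rel (nat_lit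 21474935040)) .nil))) .nil)) .leaf) (nat_lit 11191102137931776) (.br (nat_lit 2) (.cons (.br (nat_lit 5) (.cons (.rel (nat_lit 4429185060)) .nil)) .nil)) .leaf))) (nat_lit 11191102137931931) (.br (nat_lit 2) (.cons (.br (nat_lit 5) (.cons (.rel (nat_lit 4362666048)) .nil)) .nil)) (.node (.node (.node (.node .leaf (nat_lit 11191102137932086) (.br (nat_lit 5) (.cons (.br (nat_lit 2) (.cons (.rel (nat_lit 4362093057)) (.cons (.rel (nat_lit 4362666048)) .nil))) .nil)) .leaf) (nat_lit 11194090197848219) (.br (nat_lit 6) (.cons (.br (nat_lit 3) (.cons (.rel (nat_lit 17448568833)) (.cons (.rel (nat_lit 17448861696)) (.cons (.rel (nat_lit 17448325632)) .nil)))) .nil)) (.node .leaf (nat_lit 11194090199199899) (.br (nat_lit 1) (.cons (.br (nat_lit 6) (.cons (.rel (nat_lit 17196646944)) .nil)) .nil)) .leaf)) (nat_lit 11194107377715355) (.br (nat_lit 6) (.cons (.br (nat_lit 4) (.cons (.rel (nat_lit 18253627425)) (.cons (.rel (nat_lit 18253684740)) (.cons (.rel (nat_lit 18255712512)) .nil)))) .nil))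 (.node (.node .leaf (nat_lit 11194518330761851) (.br (nat_lit 0) (.cons (.br (nat_lit 3) (.cons (.rel (nat_lit 273683457)) .nil)) .nil)) .leaf) (nat_lit 11194519694575771) (.br (nat_lit 0) (.cons (.br (nat_lit 4) (.cons (.rel (nat_lit 1077937536)) .nil)) .nil)) .leaf)) (nat_lit 11195568904550400) (.br (nat_lit 1) (.cons (.br (nat_lit 3) (.cons (.rel (nat_lit 285229632)) .nil)) .nil)) (.node (.node (.node .leaf (nat_lit 11196418070755483) (.br (nat_lit 0) (.cons (.br (nat_lit 3) (.cons (.rel (nat_lit 272699472)) .nil)) .nil)) .leaf) (nat_lit 11196632818485248) (.br (nat_lit 4) (.cons (.br (nat_lit 0) (.cons (.rel (nat_lit 1077970944)) (.cons (.rel (nat_lit 2155889664)) (.cons (.rel (nat_lit 1078214658)) .nil)))) (.cons (.br (nat_lit 0) (.cons (.rel (nat_lit 2155889664)) (.cons (.rel (nat_lit 1078214658)) (.cons (.rel (nat_lit 1077940353)) .nil)))) .nil))) .leaf) (nat_lit 11196632818485254) (.br (nat_lit 3) (.cons (.br (nat_lit 4) (.cons (.rel (nat_lit 2684358912)) .nil)) .nil)) (.node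 (.node .leaf (nat_lit 11196632818485299) (.br (nat_lit 1) (.cons (.br (nat_lit 3) (.cons (.rel (nat_lit 285491202)) .nil)) .nil)) .leaf) (nat_lit 11196632818485555) (.br (nat_lit 5) (.cons (.br (nat_lit 6) (.cons (.rel (nat_lit 21474836994)) (.cons (.rel (nat_lit 21476147232)) .nil))) .nil)) .leaf)))) (nat_lit 11196632818485558) (.br (nat_lit 3) (.cons (.br (nat_lit 4) (.cons (.rel (nat_lit 1342179585)) (.cons (.rel (nat_lit 2684358912)) (.cons (.rel (nat_lit 1342182402)) .nil)))) (.cons (.br (nat_lit 4) (.cons (.rel (nat_lit 1342182402)) (.cons (.rel (nat_lit 1342182402)) (.cons (.rel (nat_lit 2684358912)) .nil)))) .nil))) (.node (.node (.node (.node (.node .leaf (nat_lit 11196632818485874) (.br (nat_lit 2) (.cons (.br (nat_lit 6) (.cons (.rel (nat_lit 17246979588)) (.cons (.rel (nat_lit 34426863618)) .nil))) (.cons (.br (nat_lit 6) (.cons (.rel (nat_lit 17246986272)) (.cons (.rel (nat_lit 34493960208)) .nil))) .nil))) .leaf) (nat_lit 11196632818486509) (.br (nat_lit 0) (.cons (.br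 (nat_lit 2) (.cons (.rel (nat_lit 71321088)) .nil)) .nil)) (.node .leaf (nat_lit 11196633468602368) (.br (nat_lit 4) (.cons (.br (nat_lit 6) (.cons (.rel (nat_lit 18253627425)) .nil)) .nil)) .leaf)) (nat_lit 11196633468602678) (.br (nat_lit 4) (.cons (.br (nat_lit 5) (.cons (.rel (nat_lit 5368844289)) (.cons (.rel (nat_lit 5368989696)) .nil))) .nil)) (.node (.node .leaf (nat_lit 11196634054641664) (.br (nat_lit 0) (.cons (.br (nat_lit 2) (.cons (.rel (nat_lit 143659296)) (.cons (.rel (nat_lit 71305536)) .nil))) .nil)) .leaf) (nat_lit 11196634055804928) (.br (nat_lit 4) (.cons (.br (nat_lit 0) (.cons (.rel (nat_lit 1077970944)) (.cons (.rel (nat_lit 2155889664)) .nil))) .nil)) .leaf)) (nat_lit 11199646530869884) (.br (nat_lit 0) (.cons (.br (nat_lit 5) (.cons (.rel (nat_lit 4300243968)) .nil)) .nil)) (.node (.node (.node .leaf (nat_lit 11199647885527041) (.br (nat_lit 3) (.cons (.br (nat_lit 4) (.cons (.rel (nat_lit 1610612760)) .nil)) .nil)) .leaf) (nat_lit 11199647885527195) (.br (nat_lit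 4) (.cons (.br (nat_lit 6) (.cons (.rel (nat_lit 18253873158)) .nil)) .nil)) .leaf) (nat_lit 11199647885844481) (.br (nat_lit 4) (.cons (.br (nat_lit 6) (.cons (.rel (nat_lit 19327615488)) (.cons (.rel (nat_lit 18253873158)) .nil))) .nil)) (.node (.node .leaf (nat_lit 11199649122846720) (.br (nat_lit 0) (.cons (.br (nat_lit 1) (.cons (.rel (nat_lit 23068944)) .nil)) .nil)) .leaf) (nat_lit 11200722864670720) (.br (nat_lit 4) (.cons (.br (nat_lit 3) (.cons (.rel (nat_lit 1610612760)) (.cons (.rel (nat_lit 1342456896)) .nil))) .nil)) .leaf))) (nat_lit 11200960030589178) (.br (nat_lit 0) (.cons (.br (nat_lit 1) (.cons (.rel (nat_lit 20977728)) .nil)) .nil)) (.node (.node (.node (.node .leaf (nat_lit 11200960030589730) (.br (nat_lit 3) (.cons (.br (nat_lit 4) (.cons (.rel (nat_lit 1610612760)) (.cons (.rel (nat_lit 1342179585)) .nil))) (.cons (.br (nat_lit 4) (.cons (.rel (nat_lit 1610612760)) (.cons (.rel (nat_lit 1342182402)) .nil))) .nil))) .leaf) (nat_lit 11200960030590189) (.br (nat_lit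 3) (.cons (.br (nat_lit 2) (.cons (.rel (nat_lit 335550594)) (.cons (.rel (nat_lit 336593184)) .nil))) .nil)) .leaf) (nat_lit 11200960030590433) (.br (nat_lit 0) (.cons (.br (nat_lit 1) (.cons (.rel (nat_lit 21041172)) .nil)) .nil)) (.node (.node .leaf (nat_lit 11200960030590454) (.br (nat_lit 6) (.cons (.br (nat_lit 4) (.cons (.rel (nat_lit 18254676048)) (.cons (.rel (nat_lit 19327615488)) .nil))) .nil)) .leaf) (nat_lit 11200960031694326) (.br (nat_lit 0) (.cons (.br (nat_lit 6) (.cons (.rel (nat_lit 34363949064)) .nil)) .nil)) .leaf)) (nat_lit 11200960031913462) (.br (nat_lit 4) (.cons (.br (nat_lit 0) (.cons (.rel (nat_lit 2152726530)) (.cons (.rel (nat_lit 1077940353)) .nil))) .nil)) (.node (.node (.node .leaf (nat_lit 11201520491270299) (.br (nat_lit 4) (.cons (.br (nat_lit 6) (.cons (.rel (nat_lit 18254987280)) .nil)) .nil)) .leaf) (nat_lit 11202053067216897) (.br (nat_lit 1) (.cons (.br (nat_lit 6) (.cons (.rel (nat_lit 17196651780)) .nil)) .nil)) .leaf) (nat_lit 11202053067217206)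 (.br (nat_lit 1) (.cons (.br (nat_lit 5) (.cons (.rel (nat_lit 4311777408)) .nil)) .nil)) (.node (.node .leaf (nat_lit 11202053067849729) (.br (nat_lit 0) (.cons (.br (nat_lit 3) (.cons (.rel (nat_lit 541131840)) (.cons (.rel (nat_lit 541196289)) .nil))) (.cons (.br (nat_lit 1) (.cons (.rel (nat_lit 20971842)) (.cons (.rel (nat_lit 21495936)) (.cons (.rel (nat_lit 20996097)) (.cons (.rel (nat_lit 21069888)) .nil))))) .nil))) .leaf) (nat_lit 11202053067849890) (.br (nat_lit 0) (.cons (.br (nat_lit 2) (.cons (.rel (nat_lit 71307348)) .nil)) .nil)) .leaf))))))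

/-- refutations 23 -/
def e23 : EX := (.node (.node (.node .leaf (nat_lit 11610885974435841) (.br (nat_lit 0) (.cons (.br (nat_lit 2) (.cons (.rel (nat_lit 71372802)) .nil)) .nil)) .leaf) (nat_lit 11610891092224001) (.br (nat_lit 3) (.cons (.br (nat_lit 4) (.cons (.rel (nat_lit 1342185984)) .nil)) .nil)) (.node .leaf (nat_lit 11616732168132765) (.br (nat_lit 0) (.cons (.br (nat_lit 3) (.cons (.rel (nat_lit 272699472)) .nil)) .nil)) .leaf)) (nat_lit 11622067770740737) (.br (nat_lit 0) (.cons (.br (nat_lit 5) (.cons (.rel (nat_lit 4300243968)) .nil)) .nil)) (.node (.node .leaf (nat_lit 11622698055414062) (.br (nat_lit 2) (.cons (.br (nat_lit 6) (.cons (.rel (nat_lit 17248044048)) .nil)) .nil)) .leaf) (nat_lit 11622698055415066) (.br (nat_lit 2) (.cons (.br (nat_lit 5) (.cons (.rel (nat_lit 4362101760)) .nil)) .nil)) .leaf))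

/-- refutations 24 -/
def e24 : EX := (.node (.node (.node (.node (.node .leaf (nat_lit 11962730613423355) (.br (nat_lit 2) (.cons (.br (nat_lit 3) (.cons (.rel (nat_lit 335568960)) .nil)) .nil)) .leaf) (nat_lit 11962734725386491) (.br (nat_lit 0) (.cons (.br (nat_lit 2) (.cons (.rel (nat_lit 71307348)) .nil)) .nil)) (.node .leaf (nat_lit 11962734725386915) (.br (nat_lit 0) (.cons (.br (nat_lit 5) (.cons (.rel (nat_lit 4299227400)) .nil)) .nil)) .leaf)) (nat_lit 11962734726615041) (.br (nat_lit 2) (.cons (.br (nat_lit 5) (.cons (.rel (nat_lit 4362093057)) .nil)) .nil)) (.node (.node .leaf (nat_lit 11962734726615350) (.br (nat_lit 1) (.cons (.br (nat_lit 4) (.cons (.rel (nat_lit 1107312897)) .nil)) .nil)) .leaf) (nat_lit 11962735383576577) (.br (nat_lit 0) (.cons (.br (nat_lit 4) (.cons (.rel (nat_lit 1078026240)) .nil)) .nil)) (.node .leaf (nat_lit 11963133420060134) (.br (nat_lit 0) (.cons (.br (nat_lit 1) (.cons (.rel (nat_lit 20996097)) .nil)) .nil)) .leaf))) (nat_lit 11964062053448590)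 (.br (nat_lit 0) (.cons (.br (nat_lit 4) (.cons (.rel (nat_lit 1078461441)) .nil)) .nil)) (.node (.node (.node .leaf (nat_lit 11964064297400320) (.br (nat_lit 0) (.cons (.br (nat_lit 1) (.cons (.rel (nat_lit 37749777)) .nil)) .nil)) .leaf) (nat_lit 11964064297400630) (.br (nat_lit 0) (.cons (.br (nat_lit 4) (.cons (.rel (nat_lit 1077970944)) .nil)) .nil)) (.node .leaf (nat_lit 11964064297401830) (.br (nat_lit 1) (.cons (.br (nat_lit 4) (.cons (.rel (nat_lit 2181300240)) .nil)) .nil)) .leaf)) (nat_lit 11964066815499150) (.br (nat_lit 0) (.cons (.br (nat_lit 2) (.cons (.br (nat_lit 3) (.cons (.rel (nat_lit 541082946)) (.cons (.rel (nat_lit 336593184)) .nil))) (.cons (.rel (nat_lit 71305536)) .nil))) (.cons (.br (nat_lit 5) (.cons (.rel (nat_lit 4299227400)) (.cons (.rel (nat_lit 4300243968)) (.cons (.rel (nat_lit 4300243968)) .nil)))) .nil))) (.node (.node .leaf (nat_lit 11970418604882075) (.br (nat_lit 4) (.cons (.br (nat_lit 5) (.cons (.rel (nat_lit 5368989696)) .nil)) .nil)) .leaf)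 (nat_lit 11970418604883195) (.br (nat_lit 2) (.cons (.br (nat_lit 5) (.cons (.rel (nat_lit 4362101760)) .nil)) .nil)) (.node .leaf (nat_lit 11970420198717595) (.br (nat_lit 4) (.cons (.br (nat_lit 3) (.cons (.rel (nat_lit 1610612760)) (.cons (.rel (nat_lit 1342182402)) .nil))) .nil)) .leaf)))) (nat_lit 11973699372693504) (.br (nat_lit 2) (.cons (.br (nat_lit 4) (.cons (.rel (nat_lit 1207961664)) .nil)) .nil)) (.node (.node (.node (.node .leaf (nat_lit 11973699372694414) (.br (nat_lit 2) (.cons (.br (nat_lit 3) (.cons (.rel (nat_lit 335568960)) .nil)) .nil)) .leaf) (nat_lit 11973699372694934) (.br (nat_lit 3) (.cons (.br (nat_lit 4) (.cons (.rel (nat_lit 1342472448)) .nil)) .nil)) (.node .leaf (nat_lit 11973699374372864) (.br (nat_lit 3) (.cons (.br (nat_lit 6) (.cons (.rel (nat_lit 17448568833)) .nil)) .nil)) .leaf)) (nat_lit 11973699374373774) (.br (nat_lit 3) (.cons (.br (nat_lit 4) (.cons (.rel (nat_lit 1342472448)) .nil)) .nil)) (.node (.node .leaf (nat_lit 11973699374374294) (.br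 (nat_lit 3) (.cons (.br (nat_lit 2) (.cons (.rel (nat_lit 335679489)) (.cons (.rel (nat_lit 335577108)) .nil))) .nil)) .leaf) (nat_lit 11973699466647553) (.br (nat_lit 0) (.cons (.br (nat_lit 1) (.cons (.rel (nat_lit 20996097)) .nil)) .nil)) (.node .leaf (nat_lit 11973705309313024) (.br (nat_lit 3) (.cons (.br (nat_lit 0) (.cons (.rel (nat_lit 272761104)) (.cons (.rel (nat_lit 545521668)) .nil))) .nil)) .leaf))) (nat_lit 11973705309313935) (.br (nat_lit 0) (.cons (.br (nat_lit 1) (.cons (.rel (nat_lit 20996097)) .nil)) .nil)) (.node (.node (.node .leaf (nat_lit 11973705309314456) (.br (nat_lit 0) (.cons (.br (nat_lit 2) (.cons (.rel (nat_lit 71372802)) .nil)) .nil)) .leaf) (nat_lit 11975013635462030) (.br (nat_lit 0) (.cons (.br (nat_lit 4) (.cons (.rel (nat_lit 1077970944)) .nil)) .nil)) (.node .leaf (nat_lit 11975016465522026) (.br (nat_lit 0) (.cons (.br (nat_lit 1) (.cons (.rel (nat_lit 42205248)) .nil)) .nil)) .leaf)) (nat_lit 11975572566866830) (.br (nat_lit 1) (.cons (.br (nat_lit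 3) (.cons (.rel (nat_lit 285216897)) .nil)) .nil)) (.node (.node .leaf (nat_lit 11975576677285270) (.br (nat_lit 0) (.cons (.br (nat_lit 1) (.cons (.rel (nat_lit 20971842)) (.cons (.rel (nat_lit 21495936)) .nil))) (.cons (.br (nat_lit 5) (.cons (.rel (nat_lit 4300243968)) (.cons (.rel (nat_lit 8594194560)) .nil))) .nil))) .leaf) (nat_lit 11975577327851520) (.br (nat_lit 1) (.cons (.br (nat_lit 3) (.cons (.rel (nat_lit 285737985)) .nil)) .nil)) .leaf))))

/-- refutations 25 -/
def e25 : EX := (.node (.node (.node (.node .leaf (nat_lit 12051098026631804) (.br (nat_lit 1) (.cons (.br (nat_lit 4) (.cons (.rel (nat_lit 1090798596)) (.cons (.rel (nat_lit 1090551813)) .nil))) .nil)) .leaf) (nat_lit 12051098028696188) (.br (nat_lit 6) (.cons (.br (nat_lit 4) (.cons (.rel (nat_lit 18255712512)) (.cons (.rel (nat_lit 18253873158)) .nil))) .nil)) .leaf) (nat_lit 12051099384009340) (.br (nat_lit 4) (.cons (.br (nat_lit 2) (.cons (.rel (nat_lit 1141129221)) (.cons (.rel (nat_lit 2281717776)) .nil)))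 .nil)) (.node .leaf (nat_lit 12051099410516130) (.br (nat_lit 0) (.cons (.br (nat_lit 5) (.cons (.rel (nat_lit 4300243968)) .nil)) .nil)) .leaf)) (nat_lit 12052206130498922) (.br (nat_lit 1) (.cons (.br (nat_lit 2) (.cons (.rel (nat_lit 83886405)) .nil)) .nil)) (.node (.node .leaf (nat_lit 12053311625093252) (.br (nat_lit 0) (.cons (.br (nat_lit 1) (.cons (.rel (nat_lit 20993280)) .nil)) .nil)) .leaf) (nat_lit 12061868564393193) (.br (nat_lit 0) (.cons (.br (nat_lit 3) (.cons (.rel (nat_lit 272662545)) .nil)) .nil)) (.node .leaf (nat_lit 12062737388003964) (.br (nat_lit 1) (.cons (.br (nat_lit 5) (.cons (.rel (nat_lit 4311748692)) .nil)) .nil)) .leaf)))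

/-- refutations 26 -/
def e26 : EX := (.node (.node (.node (.node (.node (.node .leaf (nat_lit 12086065049484520) (.br (nat_lit 0) (.cons (.br (nat_lit 3) (.cons (.rel (nat_lit 272662545)) .nil)) .nil)) .leaf) (nat_lit 12086066404642817) (.br (nat_lit 3) (.cons (.br (nat_lit 5) (.cons (.rel (nat_lit 4564451604)) .nil)) .nil)) .leaf) (nat_lit 12086066404644072) (.br (nat_lit 2) (.cons (.br (nat_lit 3) (.cons (.rel (nat_lit 335578113)) (.cons (.rel (nat_lit 335824896)) .nil))) (.cons (.br (nat_lit 6) (.cons (.rel (nat_lit 17314218240)) (.cons (.rel (nat_lit 17314156608)) .nil))) .nil))) (.node (.node .leaf (nat_lit 12086066407269608) (.br (nat_lit 3) (.cons (.br (nat_lit 0) (.cons (.rel (nat_lit 545521668)) (.cons (.rel (nat_lit 276824148)) .nil))) .nil)) .leaf) (nat_lit 12086278709031812) (.br (nat_lit 0) (.cons (.br (nat_lit 1) (.cons (.rel (nat_lit 21495936)) .nil)) .nil)) .leaf)) (nat_lit 12086279799551207) (.br (nat_lit 4) (.cons (.br (nat_lit 3) (.cons (.rel (nat_lit 2415919140))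 (.cons (.rel (nat_lit 2684358912)) (.cons (.rel (nat_lit 1342210113)) (.cons (.rel (nat_lit 1342210113)) (.cons (.rel (nat_lit 1342182402)) .nil)))))) (.cons (.br (nat_lit 6) (.cons (.rel (nat_lit 19327353153)) (.cons (.rel (nat_lit 18253629444)) (.cons (.rel (nat_lit 19327377408)) .nil)))) .nil))) (.node (.node (.node .leaf (nat_lit 12086281158504448) (.br (nat_lit 2) (.cons (.br (nat_lit 3) (.cons (.rel (nat_lit 335577108)) .nil)) .nil)) .leaf) (nat_lit 12086281158505100) (.br (nat_lit 0) (.cons (.br (nat_lit 2) (.cons (.rel (nat_lit 71369985)) .nil)) .nil)) .leaf) (nat_lit 12086281158505703) (.br (nat_lit 2) (.cons (.br (nat_lit 3) (.cons (.rel (nat_lit 335578113)) (.cons (.rel (nat_lit 335824896)) .nil))) .nil)) (.node .leaf (nat_lit 12086281238196876) (.br (nat_lit 2) (.cons (.br (nat_lit 6) (.cons (.rel (nat_lit 34426851648)) .nil)) .nil)) .leaf))) (nat_lit 12086281238196910) (.br (nat_lit 4) (.cons (.br (nat_lit 6) (.cons (.br (nat_lit 2) (.cons (.rel (nat_lit 1140854916)) (.cons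 (.rel (nat_lit 17314218240)) .nil))) .nil)) .nil)) (.node (.node (.node (.node .leaf (nat_lit 12086281238197134) (.br (nat_lit 1) (.cons (.br (nat_lit 2) (.cons (.rel (nat_lit 100665345)) .nil)) .nil)) .leaf) (nat_lit 12086281238197479) (.br (nat_lit 2) (.cons (.br (nat_lit 4) (.cons (.rel (nat_lit 1207961664)) .nil)) .nil)) .leaf) (nat_lit 12086281238197654) (.br (nat_lit 3) (.cons (.br (nat_lit 5) (.cons (.rel (nat_lit 4563406992)) .nil)) .nil)) (.node (.node .leaf (nat_lit 12086281640315682) (.br (nat_lit 0) (.cons (.br (nat_lit 2) (.cons (.rel (nat_lit 142622784)) (.cons (.rel (nat_lit 71379456)) .nil))) .nil)) .leaf) (nat_lit 12086281854761711) (.br (nat_lit 0) (.cons (.br (nat_lit 1) (.cons (.rel (nat_lit 20977728)) .nil)) .nil)) .leaf)) (nat_lit 12086282189770010) (.br (nat_lit 0) (.cons (.br (nat_lit 1) (.cons (.rel (nat_lit 21042177)) .nil)) .nil)) (.node (.node (.node .leaf (nat_lit 12086283758972928) (.br (nat_lit 0) (.cons (.br (nat_lit 3) (.cons (.rel (nat_lit 272662545))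 .nil)) .nil)) .leaf) (nat_lit 12086284996395009) (.br (nat_lit 3) (.cons (.br (nat_lit 4) (.cons (.rel (nat_lit 2684358912)) (.cons (.rel (nat_lit 1342182402)) .nil))) (.cons (.br (nat_lit 4) (.cons (.rel (nat_lit 1342178580)) (.cons (.rel (nat_lit 2684358912)) .nil))) .nil))) .leaf) (nat_lit 12088295035043840) (.br (nat_lit 0) (.cons (.br (nat_lit 1) (.cons (.rel (nat_lit 21381120)) .nil)) .nil)) (.node .leaf (nat_lit 12091289084874753) (.br (nat_lit 0) (.cons (.br (nat_lit 4) (.cons (.rel (nat_lit 1077970944)) .nil)) .nil)) .leaf)))) (nat_lit 12091289084876008) (.br (nat_lit 0) (.cons (.br (nat_lit 2) (.cons (.rel (nat_lit 75498528)) (.cons (.rel (nat_lit 142622784)) .nil))) (.cons (.br (nat_lit 2) (.cons (.rel (nat_lit 71372802)) (.cons (.rel (nat_lit 138412041)) .nil))) .nil))) (.node (.node (.node (.node (.node .leaf (nat_lit 12091289087501544) (.br (nat_lit 2) (.cons (.br (nat_lit 4) (.cons (.rel (nat_lit 1141376004)) (.cons (.rel (nat_lit 2281717776)) .nil))) .nil)) .leaf) (nat_lit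 12091290115106024) (.br (nat_lit 4) (.cons (.br (nat_lit 6) (.cons (.rel (nat_lit 19327353153)) .nil)) .nil)) .leaf) (nat_lit 12091506439206119) (.br (nat_lit 3) (.cons (.br (nat_lit 6) (.cons (.rel (nat_lit 17448325632)) .nil)) .nil)) (.node (.node .leaf (nat_lit 12092362911888270) (.br (nat_lit 0) (.cons (.br (nat_lit 1) (.cons (.rel (nat_lit 20993280)) .nil)) .nil)) .leaf) (nat_lit 12093821762122365) (.br (nat_lit 0) (.cons (.br (nat_lit 5) (.cons (.rel (nat_lit 4299161937)) (.cons (.rel (nat_lit 4299227400)) .nil))) (.cons (.br (nat_lit 5) (.cons (.rel (nat_lit 4300345344)) (.cons (.rel (nat_lit 4300734465)) .nil))) .nil))) .leaf)) (nat_lit 12093821762122479) (.br (nat_lit 0) (.cons (.br (nat_lit 1) (.cons (.rel (nat_lit 21495936)) .nil)) .nil)) (.node (.node (.node .leaf (nat_lit 12093821762122983) (.br (nat_lit 6) (.cons (.br (nat_lit 3) (.cons (.rel (nat_lit 17448312897)) (.cons (.rel (nat_lit 17448568833)) (.cons (.rel (nat_lit 17448312897)) (.cons (.rel (nat_lit 17448322050))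 .nil))))) (.cons (.br (nat_lit 3) (.cons (.rel (nat_lit 17716805892)) (.cons (.rel (nat_lit 17448310080)) (.cons (.rel (nat_lit 17448310080)) (.cons (.rel (nat_lit 17716744260)) .nil))))) .nil))) .leaf) (nat_lit 12093821762123129) (.br (nat_lit 4) (.cons (.br (nat_lit 6) (.cons (.rel (nat_lit 18253874208)) .nil)) .nil)) .leaf) (nat_lit 12093826957326337) (.br (nat_lit 6) (.cons (.br (nat_lit 3) (.cons (.rel (nat_lit 34896887808)) (.cons (.rel (nat_lit 34896887808)) (.cons (.rel (nat_lit 17448322050)) .nil)))) .nil)) (.node .leaf (nat_lit 12093830341864681) (.br (nat_lit 0) (.cons (.br (nat_lit 2) (.cons (.rel (nat_lit 71305536)) .nil)) .nil)) .leaf))) (nat_lit 12096623435558912) (.br (nat_lit 3) (.cons (.br (nat_lit 4) (.cons (.rel (nat_lit 1342185984)) .nil)) .nil)) (.node (.node (.node (.node .leaf (nat_lit 12096627276238849) (.br (nat_lit 0) (.cons (.br (nat_lit 3) (.cons (.rel (nat_lit 272909328)) (.cons (.rel (nat_lit 272909328)) .nil))) (.cons (.br (nat_lit 3) (.cons (.rel (nat_lit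 272897361)) (.cons (.rel (nat_lit 273680640)) .nil))) .nil))) .leaf) (nat_lit 12097050485706753) (.br (nat_lit 0) (.cons (.br (nat_lit 6) (.cons (.br (nat_lit 3) (.cons (.rel (nat_lit 17448374529)) (.cons (.rel (nat_lit 17448322050)) .nil))) (.cons (.rel (nat_lit 17184073728)) (.cons (.rel (nat_lit 17184073728)) .nil)))) .nil)) .leaf) (nat_lit 12097050485708037) (.br (nat_lit 0) (.cons (.br (nat_lit 1) (.cons (.rel (nat_lit 20977728)) .nil)) .nil)) (.node .leaf (nat_lit 12097052930987240) (.br (nat_lit 2) (.cons (.br (nat_lit 3) (.cons (.rel (nat_lit 335578113)) .nil)) .nil)) .leaf)) (nat_lit 12097052932287720) (.br (nat_lit 0) (.cons (.br (nat_lit 2) (.cons (.rel (nat_lit 71369985)) .nil)) .nil)) (.node (.node (.node .leaf (nat_lit 12097052933612776) (.br (nat_lit 2) (.cons (.br (nat_lit 3) (.cons (.rel (nat_lit 335679489)) .nil)) .nil)) .leaf) (nat_lit 12097056774373377) (.br (nat_lit 0) (.cons (.br (nat_lit 3) (.cons (.rel (nat_lit 272909328)) (.cons (.rel (nat_lit 272909328)) .nil)))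 (.cons (.br (nat_lit 3) (.cons (.rel (nat_lit 274022400)) (.cons (.rel (nat_lit 545521668)) .nil))) .nil))) .leaf) (nat_lit 12098127408116398) (.br (nat_lit 1) (.cons (.br (nat_lit 4) (.cons (.rel (nat_lit 1090551813)) .nil)) .nil)) (.node .leaf (nat_lit 12098127408116474) (.br (nat_lit 1) (.cons (.br (nat_lit 3) (.cons (.rel (nat_lit 285216897)) (.cons (.rel (nat_lit 285216897)) .nil))) (.cons (.br (nat_lit 3) (.cons (.br (nat_lit 6) (.cons (.rel (nat_lit 17448567828)) (.cons (.rel (nat_lit 17448325632)) .nil))) (.cons (.rel (nat_lit 285216897)) .nil))) .nil))) .leaf)))))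

/-- refutations 27 -/
def e27 : EX := (.node (.node (.node (.node .leaf (nat_lit 14074190823178241) (.br (nat_lit 2) (.cons (.br (nat_lit 0) (.cons (.rel (nat_lit 71372802)) (.cons (.rel (nat_lit 71958528)) .nil))) .nil)) .leaf) (nat_lit 14074923569354752) (.br (nat_lit 3) (.cons (.br (nat_lit 4) (.cons (.rel (nat_lit 1610612760)) .nil)) .nil)) .leaf) (nat_lit 14079424694097920) (.br (nat_lit 2) (.cons (.br (nat_lit 4) (.cons (.rel (nat_lit 1208025108)) .nil)) .nil)) (.node .leaf (nat_lit 14081323070461952) (.br (nat_lit 2) (.cons (.br (nat_lit 3) (.cons (.rel (nat_lit 335544705)) .nil)) .nil)) .leaf)) (nat_lit 14081784250146816) (.br (nat_lit 3) (.cons (.br (nat_lit 6) (.cons (.rel (nat_lit 17448322050)) .nil)) .nil)) (.node (.node .leaf (nat_lit 14084970584185612) (.br (nat_lit 0) (.cons (.br (nat_lit 1) (.cons (.rel (nat_lit 20971842)) .nil)) .nil)) .leaf) (nat_lit 14086085288851457) (.br (nat_lit 0) (.cons (.br (nat_lit 1) (.cons (.rel (nat_lit 20996097)) .nil)) .nil)) (.node .leaf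 (nat_lit 14086099074259581) (.br (nat_lit 0) (.cons (.br (nat_lit 4) (.cons (.rel (nat_lit 2155889664)) .nil)) .nil)) .leaf)))

/-- refutations 28 -/
def e28 : EX := (.node (.node (.node (.node .leaf (nat_lit 14161945615942413) (.br (nat_lit 2) (.cons (.br (nat_lit 6) (.cons (.rel (nat_lit 17314366464)) .nil)) .nil)) .leaf) (nat_lit 14161947576248622) (.br (nat_lit 2) (.cons (.br (nat_lit 3) (.cons (.rel (nat_lit 403701888)) .nil)) .nil)) .leaf) (nat_lit 14163226843162926) (.br (nat_lit 1) (.cons (.br (nat_lit 5) (.cons (.rel (nat_lit 4311749697)) .nil)) .nil)) (.node (.node .leaf (nat_lit 14163227518140417) (.br (nat_lit 0) (.cons (.br (nat_lit 1) (.cons (.rel (nat_lit 21495936)) .nil)) .nil)) .leaf) (nat_lit 14169277525142285) (.br (nat_lit 0) (.cons (.br (nat_lit 2) (.cons (.rel (nat_lit 71307348)) .nil)) .nil)) .leaf)) (nat_lit 14169277526434573) (.br (nat_lit 1) (.cons (.br (nat_lit 6) (.cons (.rel (nat_lit 17196646944)) .nil)) .nil)) (.node (.node (.node .leaf (nat_lit 14173564535382017)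 (.br (nat_lit 0) (.cons (.br (nat_lit 5) (.cons (.rel (nat_lit 4299167826)) .nil)) .nil)) .leaf) (nat_lit 14173609488573726) (.br (nat_lit 3) (.cons (.br (nat_lit 4) (.cons (.rel (nat_lit 1342179585)) .nil)) .nil)) .leaf) (nat_lit 14173609491685377) (.br (nat_lit 0) (.cons (.br (nat_lit 2) (.cons (.rel (nat_lit 71305536)) (.cons (.rel (nat_lit 71573505)) .nil))) (.cons (.br (nat_lit 2) (.cons (.rel (nat_lit 71336064)) (.cons (.rel (nat_lit 138414096)) .nil))) .nil))) (.node (.node .leaf (nat_lit 14173613332070401) (.br (nat_lit 0) (.cons (.br (nat_lit 2) (.cons (.rel (nat_lit 142622784)) .nil)) .nil)) .leaf) (nat_lit 14174040245414190) (.br (nat_lit 2) (.cons (.br (nat_lit 3) (.cons (.rel (nat_lit 403701888)) .nil)) .nil)) .leaf)))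

/-- refutations 29 -/
def e29 : EX := (.node (.node .leaf (nat_lit 15429726825394487) (.br (nat_lit 1) (.cons (.br (nat_lit 3) (.cons (.rel (nat_lit 285214080)) .nil)) .nil)) .leaf) (nat_lit 15434852411854848) (.br (nat_lit 0) (.cons (.br (nat_lit 1) (.cons (.rel (nat_lit 21381120)) .nil)) .nil)) (.node .leaf (nat_lit 15440396017814390) (.br (nat_lit 0) (.cons (.br (nat_lit 1) (.cons (.rel (nat_lit 25165848)) .nil)) .nil)) .leaf))

/-- refutations 30 -/
def e30 : EX := (.node (.node (.node (.node (.node (.node .leaf (nat_lit 15516317835824410) (.br (nat_lit 0) (.cons (.br (nat_lit 1) (.cons (.rel (nat_lit 21069888)) .nil)) .nil)) .leaf) (nat_lit 15516540257427457) (.br (nat_lit 0) (.cons (.br (nat_lit 1) (.cons (.rel (nat_lit 21381120)) .nil)) .nil)) .leaf) (nat_lit 15516540681052161) (.br (nat_lit 0) (.cons (.br (nat_lit 4) (.cons (.rel (nat_lit 1084227585)) (.cons (.rel (nat_lit 1077970944)) (.cons (.rel (nat_lit 1078461441)) .nil)))) .nil)) (.node (.node .leaf (nat_lit 15516542685929473)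 (.br (nat_lit 0) (.cons (.br (nat_lit 4) (.cons (.rel (nat_lit 2155889664)) (.cons (.rel (nat_lit 1078461441)) (.cons (.rel (nat_lit 1077970944)) .nil)))) .nil)) .leaf) (nat_lit 15516542685930784) (.br (nat_lit 0) (.cons (.br (nat_lit 3) (.cons (.rel (nat_lit 272909328)) .nil)) .nil)) .leaf)) (nat_lit 15516546526314497) (.br (nat_lit 1) (.cons (.br (nat_lit 2) (.cons (.rel (nat_lit 100665345)) .nil)) .nil)) (.node (.node (.node .leaf (nat_lit 15516546527911937) (.br (nat_lit 5) (.cons (.br (nat_lit 0) (.cons (.br (nat_lit 4) (.cons (.rel (nat_lit 1084227585)) (.cons (.rel (nat_lit 5368742913)) (.cons (.rel (nat_lit 1077937536)) (.cons (.rel (nat_lit 1078026240)) .nil))))) (.cons (.br (nat_lit 2) (.cons (.rel (nat_lit 142622784)) (.cons (.rel (nat_lit 8724234240)) (.cons (.rel (nat_lit 4362093057)) (.cons (.rel (nat_lit 71368980)) (.cons (.rel (nat_lit 71305536)) (.cons (.rel (nat_lit 76611600)) .nil))))))) (.cons (.br (nat_lit 4) (.cons (.rel (nat_lit 1084227585)) (.cons (.rel (nat_lit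 5368742913)) (.cons (.rel (nat_lit 1078461441)) (.cons (.rel (nat_lit 1077970944)) .nil))))) .nil)))) .nil)) .leaf) (nat_lit 15517819946369025) (.br (nat_lit 3) (.cons (.br (nat_lit 4) (.cons (.rel (nat_lit 1610612760)) .nil)) .nil)) .leaf) (nat_lit 15517822594260993) (.br (nat_lit 0) (.cons (.br (nat_lit 2) (.cons (.rel (nat_lit 71305536)) .nil)) .nil)) (.node (.node .leaf (nat_lit 15518466830968832) (.br (nat_lit 1) (.cons (.br (nat_lit 5) (.cons (.rel (nat_lit 4311749697)) .nil)) .nil)) .leaf) (nat_lit 15518470671507457) (.br (nat_lit 0) (.cons (.br (nat_lit 1) (.cons (.rel (nat_lit 21495936)) .nil)) .nil)) .leaf))) (nat_lit 15518779908044801) (.br (nat_lit 3) (.cons (.br (nat_lit 4) (.cons (.rel (nat_lit 1342478337)) .nil)) .nil)) (.node (.node (.node (.node .leaf (nat_lit 15518779910905857) (.br (nat_lit 0) (.cons (.br (nat_lit 4) (.cons (.rel (nat_lit 1078461441)) (.cons (.rel (nat_lit 2155889664)) (.cons (.rel (nat_lit 1078461441)) .nil)))) .nil)) .leaf) (nat_lit 15521982716614968)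 (.br (nat_lit 0) (.cons (.br (nat_lit 4) (.cons (.rel (nat_lit 2151678096)) (.cons (.rel (nat_lit 1077940353)) .nil))) .nil)) .leaf) (nat_lit 15521982716615911) (.br (nat_lit 0) (.cons (.br (nat_lit 1) (.cons (.rel (nat_lit 21495936)) (.cons (.rel (nat_lit 20993280)) .nil))) .nil)) (.node (.node .leaf (nat_lit 15522193506377885) (.br (nat_lit 1) (.cons (.br (nat_lit 3) (.cons (.rel (nat_lit 286261509)) .nil)) .nil)) .leaf) (nat_lit 15522193507813533) (.br (nat_lit 1) (.cons (.br (nat_lit 6) (.cons (.rel (nat_lit 17196651780)) .nil)) .nil)) .leaf)) (nat_lit 15523240195096577) (.br (nat_lit 1) (.cons (.br (nat_lit 5) (.cons (.rel (nat_lit 4328522760)) .nil)) .nil)) (.node (.node (.node .leaf (nat_lit 15523242842988545) (.br (nat_lit 2) (.cons (.br (nat_lit 4) (.cons (.rel (nat_lit 1207961664)) .nil)) .nil)) .leaf) (nat_lit 15524087902009345) (.br (nat_lit 0) (.cons (.br (nat_lit 1) (.cons (.rel (nat_lit 21234177)) .nil)) .nil)) .leaf) (nat_lit 15524088488728577) (.br (nat_lit 1) (.cons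 (.br (nat_lit 5) (.cons (.rel (nat_lit 8623505472)) (.cons (.rel (nat_lit 8623505472)) .nil))) .nil)) (.node .leaf (nat_lit 15524088488894465) (.br (nat_lit 4) (.cons (.br (nat_lit 0) (.cons (.rel (nat_lit 1078264320)) (.cons (.rel (nat_lit 1082130528)) (.cons (.rel (nat_lit 1077940353)) .nil)))) .nil)) .leaf)))) (nat_lit 15524088490483713) (.br (nat_lit 5) (.cons (.br (nat_lit 0) (.cons (.rel (nat_lit 4299165768)) (.cons (.rel (nat_lit 8594128917)) (.cons (.rel (nat_lit 4299165768)) .nil)))) .nil)) (.node (.node (.node (.node (.node .leaf (nat_lit 15524311822837760) (.br (nat_lit 1) (.cons (.br (nat_lit 2) (.cons (.rel (nat_lit 83956740)) .nil)) .nil)) .leaf) (nat_lit 15527321047212033) (.br (nat_lit 0) (.cons (.br (nat_lit 2) (.cons (.rel (nat_lit 71369985)) .nil)) .nil)) .leaf) (nat_lit 15527321694435329) (.br (nat_lit 0) (.cons (.br (nat_lit 4) (.cons (.rel (nat_lit 1078988832)) .nil)) .nil)) (.node (.node .leaf (nat_lit 15527529212272641) (.br (nat_lit 5) (.cons (.br (nat_lit 0)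 (.cons (.rel (nat_lit 4303364352)) (.cons (.rel (nat_lit 8594669568)) .nil))) .nil)) .leaf) (nat_lit 15527529217636353) (.br (nat_lit 0) (.cons (.br (nat_lit 2) (.cons (.rel (nat_lit 71305536)) .nil)) .nil)) .leaf)) (nat_lit 15527529218906113) (.br (nat_lit 0) (.cons (.br (nat_lit 1) (.cons (.rel (nat_lit 21039360)) .nil)) .nil)) (.node (.node (.node .leaf (nat_lit 15528162860802049) (.br (nat_lit 0) (.cons (.br (nat_lit 4) (.cons (.rel (nat_lit 2155889664)) .nil)) .nil)) .leaf) (nat_lit 15528220243077757) (.br (nat_lit 0) (.cons (.br (nat_lit 3) (.cons (.rel (nat_lit 273680640)) .nil)) .nil)) .leaf) (nat_lit 15528643804864513) (.br (nat_lit 4) (.cons (.br (nat_lit 5) (.cons (.rel (nat_lit 6443501568)) .nil)) .nil)) (.node (.node .leaf (nat_lit 15528643804865422) (.br (nat_lit 0) (.cons (.br (nat_lit 2) (.cons (.rel (nat_lit 71372802)) .nil)) .nil)) .leaf) (nat_lit 15528643897139201) (.br (nat_lit 0) (.cons (.br (nat_lit 4) (.cons (.rel (nat_lit 1078072320)) (.cons (.rel (nat_lit 2155889664))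 .nil))) (.cons (.br (nat_lit 4) (.cons (.rel (nat_lit 1077970944)) (.cons (.br (nat_lit 3) (.cons (.rel (nat_lit 272761104)) (.cons (.rel (nat_lit 1342178580)) (.cons (.rel (nat_lit 272761104)) (.cons (.rel (nat_lit 2684358912)) .nil))))) .nil))) .nil))) .leaf))) (nat_lit 15528644548692605) (.br (nat_lit 2) (.cons (.br (nat_lit 5) (.cons (.rel (nat_lit 4362080322)) .nil)) .nil)) (.node (.node (.node (.node .leaf (nat_lit 15528645900912942) (.br (nat_lit 3) (.cons (.br (nat_lit 4) (.cons (.rel (nat_lit 1342521345)) .nil)) .nil)) .leaf) (nat_lit 15528645902016513) (.br (nat_lit 4) (.cons (.br (nat_lit 5) (.cons (.rel (nat_lit 5368733760)) (.cons (.rel (nat_lit 5368742913)) .nil))) (.cons (.br (nat_lit 3) (.cons (.rel (nat_lit 1342181397)) (.cons (.rel (nat_lit 1342179585)) (.cons (.rel (nat_lit 1342179585)) (.cons (.rel (nat_lit 2684358912)) .nil))))) .nil))) .leaf) (nat_lit 15528645902017149) (.br (nat_lit 0) (.cons (.br (nat_lit 1) (.cons (.rel (nat_lit 20993280)) (.cons (.rel (nat_lit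 21495936)) .nil))) (.cons (.br (nat_lit 4) (.cons (.rel (nat_lit 1078988832)) (.cons (.rel (nat_lit 1078988832)) (.cons (.rel (nat_lit 1077970944)) .nil)))) .nil))) (.node (.node .leaf (nat_lit 15528645902017422) (.br (nat_lit 4) (.cons (.br (nat_lit 1) (.cons (.rel (nat_lit 1090551813)) (.cons (.rel (nat_lit 1091043360)) (.cons (.rel (nat_lit 1090588740)) .nil)))) .nil)) .leaf) (nat_lit 15528645902017818) (.br (nat_lit 0) (.cons (.br (nat_lit 1) (.cons (.rel (nat_lit 37749777)) (.cons (.rel (nat_lit 25165848)) (.cons (.rel (nat_lit 21495936)) (.cons (.rel (nat_lit 25165848)) .nil))))) .nil)) .leaf)) (nat_lit 15528649743998977) (.br (nat_lit 4) (.cons (.br (nat_lit 0) (.cons (.rel (nat_lit 1078264320)) (.cons (.rel (nat_lit 1077937536)) (.cons (.rel (nat_lit 1084227585)) .nil)))) (.cons (.br (nat_lit 5) (.cons (.rel (nat_lit 6443501568)) (.cons (.rel (nat_lit 5368742913)) (.cons (.rel (nat_lit 5368741908)) .nil)))) .nil))) (.node (.node (.node .leaf (nat_lit 15528649743999886) (.br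 (nat_lit 0) (.cons (.br (nat_lit 1) (.cons (.rel (nat_lit 37749777)) (.cons (.rel (nat_lit 21039360)) (.cons (.rel (nat_lit 20996097)) .nil)))) .nil)) .leaf) (nat_lit 15528649744000288) (.br (nat_lit 0) (.cons (.br (nat_lit 4) (.cons (.rel (nat_lit 1078214658)) (.cons (.rel (nat_lit 1078461441)) .nil))) .nil)) .leaf) (nat_lit 15528652907693343) (.br (nat_lit 1) (.cons (.br (nat_lit 2) (.cons (.rel (nat_lit 100671744)) .nil)) .nil)) (.node .leaf (nat_lit 15529464570626355) (.br (nat_lit 3) (.cons (.br (nat_lit 0) (.cons (.rel (nat_lit 272662545)) (.cons (.rel (nat_lit 273711168)) .nil))) .nil)) .leaf)))))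

/-- refutations 31 -/
def e31 : EX := (.node (.node (.node (.node .leaf (nat_lit 15604500979575086) (.br (nat_lit 0) (.cons (.br (nat_lit 2) (.cons (.rel (nat_lit 71308353)) .nil)) .nil)) .leaf) (nat_lit 15604716336935697) (.br (nat_lit 2) (.cons (.br (nat_lit 4) (.cons (.rel (nat_lit 2281717776)) .nil)) .nil)) (.node .leaf (nat_lit 15605786115395739) (.br (nat_lit 2) (.cons (.br (nat_lit 4) (.cons (.rel (nat_lit 2214593664)) .nil)) .nil)) .leaf)) (nat_lit 15606473960026274) (.br (nat_lit 1) (.cons (.br (nat_lit 4) (.cons (.rel (nat_lit 1090524294)) .nil)) .nil)) (.node (.node .leaf (nat_lit 15609939456748831) (.br (nat_lit 2) (.cons (.br (nat_lit 3) (.cons (.rel (nat_lit 605028369)) .nil)) .nil)) .leaf) (nat_lit 15610798010626350) (.br (nat_lit 0) (.cons (.br (nat_lit 1) (.cons (.rel (nat_lit 21069888)) .nil)) .nil)) (.node .leaf (nat_lit 15611889598446825) (.br (nat_lit 1) (.cons (.br (nat_lit 2) (.cons (.rel (nat_lit 83956740)) .nil)) .nil)) .leaf))) (nat_lit 15616352973778944)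 (.br (nat_lit 1) (.cons (.br (nat_lit 5) (.cons (.rel (nat_lit 4329832704)) .nil)) .nil)) (.node (.node (.node .leaf (nat_lit 15616355698307857) (.br (nat_lit 1) (.cons (.br (nat_lit 2) (.cons (.rel (nat_lit 168100881)) .nil)) .nil)) .leaf) (nat_lit 15616355698308329) (.br (nat_lit 1) (.cons (.br (nat_lit 2) (.cons (.rel (nat_lit 100665345)) .nil)) .nil)) (.node .leaf (nat_lit 15616563882586747) (.br (nat_lit 4) (.cons (.br (nat_lit 0) (.cons (.rel (nat_lit 1077953088)) (.cons (.rel (nat_lit 1078026240)) .nil))) .nil)) .leaf)) (nat_lit 15616563882587039) (.br (nat_lit 0) (.cons (.br (nat_lit 1) (.cons (.rel (nat_lit 20993280)) (.cons (.rel (nat_lit 20977728)) .nil))) .nil)) (.node (.node .leaf (nat_lit 15616563882587049) (.br (nat_lit 3) (.cons (.br (nat_lit 5) (.cons (.rel (nat_lit 4563435528)) .nil)) .nil)) .leaf) (nat_lit 15616563882587393) (.br (nat_lit 0) (.cons (.br (nat_lit 4) (.cons (.rel (nat_lit 1077940353)) .nil)) .nil)) (.node .leaf (nat_lit 15617425479866680) (.br (nat_lit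 0) (.cons (.br (nat_lit 1) (.cons (.rel (nat_lit 20996097)) .nil)) .nil)) .leaf))))

/-- refutations 32 -/
def e32 : EX := (.node (.node (.node (.node (.node (.node .leaf (nat_lit 15850602813749249) (.br (nat_lit 1) (.cons (.br (nat_lit 4) (.cons (.rel (nat_lit 1090650372)) .nil)) .nil)) .leaf) (nat_lit 15850603143325697) (.br (nat_lit 0) (.cons (.br (nat_lit 1) (.cons (.rel (nat_lit 21495936)) .nil)) .nil)) .leaf) (nat_lit 15850603145099265) (.br (nat_lit 1) (.cons (.br (nat_lit 4) (.cons (.br (nat_lit 3) (.cons (.rel (nat_lit 285278529)) (.cons (.rel (nat_lit 2684358912)) (.cons (.rel (nat_lit 285737985)) .nil)))) .nil)) .nil)) (.node (.node .leaf (nat_lit 15850603145100174) (.br (nat_lit 3) (.cons (.br (nat_lit 0) (.cons (.rel (nat_lit 272662545)) (.cons (.rel (nat_lit 541147392)) .nil))) .nil)) .leaf) (nat_lit 15850605334525953) (.br (nat_lit 3) (.cons (.br (nat_lit 6) (.cons (.rel (nat_lit 17448325632)) (.cons (.rel (nat_lit 17448312897)) .nil))) (.cons (.br (nat_lit 4) (.cons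 (.rel (nat_lit 1342185984)) (.cons (.rel (nat_lit 1342722048)) (.cons (.rel (nat_lit 1342185984)) .nil)))) .nil))) .leaf)) (nat_lit 15850605334526862) (.br (nat_lit 3) (.cons (.br (nat_lit 4) (.cons (.rel (nat_lit 1342308672)) .nil)) .nil)) (.node (.node (.node .leaf (nat_lit 15850605334526863) (.br (nat_lit 0) (.cons (.br (nat_lit 3) (.cons (.rel (nat_lit 272909328)) (.cons (.rel (nat_lit 541196289)) .nil))) (.cons (.br (nat_lit 3) (.cons (.rel (nat_lit 272761104)) (.cons (.rel (nat_lit 541196289)) .nil))) .nil))) .leaf) (nat_lit 15850606402299905) (.br (nat_lit 3) (.cons (.br (nat_lit 4) (.cons (.rel (nat_lit 1342178580)) .nil)) .nil)) .leaf) (nat_lit 15850607841202486) (.br (nat_lit 1) (.cons (.br (nat_lit 3) (.cons (.rel (nat_lit 285216897)) (.cons (.rel (nat_lit 285247488)) .nil))) .nil)) (.node (.node .leaf (nat_lit 15851858016314600) (.br (nat_lit 2) (.cons (.br (nat_lit 3) (.cons (.rel (nat_lit 335578113)) .nil)) .nil)) .leaf) (nat_lit 15852109107286927) (.br (nat_lit 0) (.cons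 (.br (nat_lit 3) (.cons (.rel (nat_lit 272662545)) .nil)) .nil)) .leaf))) (nat_lit 15852111167725744) (.br (nat_lit 4) (.cons (.br (nat_lit 6) (.cons (.rel (nat_lit 35434004736)) .nil)) .nil)) (.node (.node (.node (.node .leaf (nat_lit 15853159701579776) (.br (nat_lit 0) (.cons (.br (nat_lit 2) (.cons (.rel (nat_lit 71305536)) .nil)) .nil)) .leaf) (nat_lit 15853159701579777) (.br (nat_lit 3) (.cons (.br (nat_lit 4) (.cons (.rel (nat_lit 1342179585)) .nil)) .nil)) .leaf) (nat_lit 15853159701580086) (.br (nat_lit 0) (.cons (.br (nat_lit 3) (.cons (.rel (nat_lit 277087488)) .nil)) .nil)) (.node (.node .leaf (nat_lit 15856016900502765) (.br (nat_lit 0) (.cons (.br (nat_lit 2) (.cons (.rel (nat_lit 71305536)) .nil)) .nil)) .leaf) (nat_lit 15858176814776321) (.br (nat_lit 0) (.cons (.br (nat_lit 1) (.cons (.rel (nat_lit 20993280)) .nil)) .nil)) .leaf)) (nat_lit 15858554770831361) (.br (nat_lit 0) (.cons (.br (nat_lit 1) (.cons (.rel (nat_lit 20993280)) .nil)) .nil)) (.node (.node (.node .leaf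 (nat_lit 15858600466399233) (.br (nat_lit 1) (.cons (.br (nat_lit 2) (.cons (.rel (nat_lit 83890272)) (.cons (.rel (nat_lit 83951904)) .nil))) (.cons (.br (nat_lit 2) (.cons (.rel (nat_lit 83886405)) (.cons (.rel (nat_lit 83886405)) .nil))) .nil))) .leaf) (nat_lit 15861578423617847) (.br (nat_lit 0) (.cons (.br (nat_lit 2) (.cons (.rel (nat_lit 138414096)) .nil)) .nil)) .leaf) (nat_lit 15861578425129271) (.br (nat_lit 2) (.cons (.br (nat_lit 3) (.cons (.rel (nat_lit 335568960)) .nil)) .nil)) (.node .leaf (nat_lit 15862603281893377) (.br (nat_lit 0) (.cons (.br (nat_lit 4) (.cons (.rel (nat_lit 1084227585)) .nil)) .nil)) .leaf)))) (nat_lit 15862603281894286) (.br (nat_lit 0) (.cons (.br (nat_lit 3) (.cons (.rel (nat_lit 276889602)) .nil)) .nil)) (.node (.node (.node (.node (.node .leaf (nat_lit 15862605379045377) (.br (nat_lit 3) (.cons (.br (nat_lit 4) (.cons (.rel (nat_lit 1342185984)) (.cons (.rel (nat_lit 1342182402)) .nil))) (.cons (.br (nat_lit 4) (.cons (.rel (nat_lit 1342181397))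 (.cons (.rel (nat_lit 2684358912)) .nil))) .nil))) .leaf) (nat_lit 15862605379046286) (.br (nat_lit 6) (.cons (.br (nat_lit 5) (.cons (.rel (nat_lit 42949673217)) (.cons (.rel (nat_lit 21474842880)) (.cons (.rel (nat_lit 21474836994)) .nil)))) .nil)) .leaf) (nat_lit 15862605379046632) (.br (nat_lit 1) (.cons (.br (nat_lit 2) (.cons (.rel (nat_lit 85984512)) (.cons (.rel (nat_lit 83886405)) .nil))) .nil)) (.node (.node .leaf (nat_lit 15862605379046688) (.br (nat_lit 0) (.cons (.br (nat_lit 1) (.cons (.rel (nat_lit 20993280)) .nil)) .nil)) .leaf) (nat_lit 15862637645824911) (.br (nat_lit 0) (.cons (.br (nat_lit 1) (.cons (.rel (nat_lit 20996097)) .nil)) .nil)) .leaf)) (nat_lit 15862643580764161) (.br (nat_lit 1) (.cons (.br (nat_lit 2) (.cons (.rel (nat_lit 83910660)) .nil)) .nil)) (.node (.node (.node .leaf (nat_lit 15862888933901199) (.br (nat_lit 3) (.cons (.br (nat_lit 6) (.cons (.rel (nat_lit 17448310080)) .nil)) .nil)) .leaf) (nat_lit 15862888933901719) (.br (nat_lit 1) (.cons (.br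 (nat_lit 4) (.cons (.rel (nat_lit 1090523289)) (.cons (.rel (nat_lit 2164391937)) .nil))) (.cons (.br (nat_lit 2) (.cons (.rel (nat_lit 83910660)) (.cons (.rel (nat_lit 83951904)) .nil))) .nil))) .leaf) (nat_lit 15862888934903191) (.br (nat_lit 0) (.cons (.br (nat_lit 1) (.cons (.rel (nat_lit 20971842)) .nil)) .nil)) (.node .leaf (nat_lit 15862889332707990) (.br (nat_lit 0) (.cons (.br (nat_lit 1) (.cons (.rel (nat_lit 21495936)) .nil)) .nil)) .leaf))) (nat_lit 15862889332708854) (.br (nat_lit 1) (.cons (.br (nat_lit 3) (.cons (.rel (nat_lit 285214080)) .nil)) .nil)) (.node (.node (.node (.node .leaf (nat_lit 15862895339670414) (.br (nat_lit 3) (.cons (.br (nat_lit 4) (.cons (.rel (nat_lit 1342185984)) (.cons (.rel (nat_lit 1342185984)) .nil))) .nil)) .leaf) (nat_lit 15862895431945624) (.br (nat_lit 3) (.cons (.br (nat_lit 4) (.cons (.rel (nat_lit 1342178580)) .nil)) .nil)) .leaf) (nat_lit 15862897528031233) (.br (nat_lit 2) (.cons (.br (nat_lit 1) (.cons (.rel (nat_lit 85213200)) (.cons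 (.rel (nat_lit 83886405)) .nil))) .nil)) (.node (.node .leaf (nat_lit 15862897528032142) (.br (nat_lit 3) (.cons (.br (nat_lit 6) (.cons (.rel (nat_lit 34896887808)) .nil)) .nil)) .leaf) (nat_lit 15862897528032664) (.br (nat_lit 3) (.cons (.br (nat_lit 4) (.cons (.rel (nat_lit 2684358912)) .nil)) .nil)) .leaf)) (nat_lit 15862901278803969) (.br (nat_lit 0) (.cons (.br (nat_lit 4) (.cons (.br (nat_lit 3) (.cons (.rel (nat_lit 273683457)) (.cons (.rel (nat_lit 1342181397)) .nil))) .nil)) .nil)) (.node (.node (.node .leaf (nat_lit 15862901278804878) (.br (nat_lit 0) (.cons (.br (nat_lit 5) (.cons (.rel (nat_lit 4303357953)) (.cons (.rel (nat_lit 4303356948)) (.cons (.rel (nat_lit 4303357953)) .nil)))) .nil)) .leaf) (nat_lit 15862901279006721) (.br (nat_lit 3) (.cons (.br (nat_lit 4) (.cons (.rel (nat_lit 1342182402)) .nil)) .nil)) .leaf) (nat_lit 15862903933795736) (.br (nat_lit 0) (.cons (.br (nat_lit 1) (.cons (.rel (nat_lit 38798400)) (.cons (.rel (nat_lit 21495936)) .nil))) .nil)) (.node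 .leaf (nat_lit 15863548808342266) (.br (nat_lit 2) (.cons (.br (nat_lit 4) (.cons (.br (nat_lit 3) (.cons (.rel (nat_lit 1342185984)) (.cons (.rel (nat_lit 335544705)) .nil))) .nil)) .nil)) .leaf)))))

/-- refutations 33 -/
def e33 : EX := (.node (.node (.node (.node (.node .leaf (nat_lit 15938973156532285) (.br (nat_lit 0) (.cons (.br (nat_lit 1) (.cons (.rel (nat_lit 25165848)) .nil)) .nil)) .leaf) (nat_lit 15939640940060984) (.br (nat_lit 0) (.cons (.br (nat_lit 1) (.cons (.rel (nat_lit 42205248)) .nil)) .nil)) .leaf) (nat_lit 15939643750558951) (.br (nat_lit 0) (.cons (.br (nat_lit 3) (.cons (.rel (nat_lit 274022400)) .nil)) .nil)) (.node .leaf (nat_lit 15941115370872833) (.br (nat_lit 0) (.cons (.br (nat_lit 6) (.cons (.rel (nat_lit 17184065025)) .nil)) .nil)) .leaf)) (nat_lit 15941115372646401) (.br (nat_lit 4) (.cons (.br (nat_lit 0) (.cons (.rel (nat_lit 1077937536)) (.cons (.rel (nat_lit 1077937536)) .nil))) .nil)) (.node (.node .leaf (nat_lit 15941120589848738) (.br (nat_lit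 3) (.cons (.br (nat_lit 4) (.cons (.rel (nat_lit 1342178580)) .nil)) .nil)) .leaf) (nat_lit 15941121223391233) (.br (nat_lit 0) (.cons (.br (nat_lit 3) (.cons (.rel (nat_lit 272662545)) .nil)) .nil)) (.node .leaf (nat_lit 15946088943001601) (.br (nat_lit 0) (.cons (.br (nat_lit 3) (.cons (.rel (nat_lit 272909328)) .nil)) .nil)) .leaf))) (nat_lit 15946312175261697) (.br (nat_lit 1) (.cons (.br (nat_lit 4) (.cons (.rel (nat_lit 1090551813)) (.cons (.rel (nat_lit 1090551813)) .nil))) (.cons (.br (nat_lit 4) (.cons (.rel (nat_lit 1107297345)) (.cons (.rel (nat_lit 2181300240)) .nil))) .nil))) (.node (.node (.node .leaf (nat_lit 15946312175263128) (.br (nat_lit 0) (.cons (.br (nat_lit 1) (.cons (.rel (nat_lit 21069888)) .nil)) .nil)) .leaf) (nat_lit 15946524289652736) (.br (nat_lit 3) (.cons (.br (nat_lit 4) (.cons (.rel (nat_lit 1342472448)) .nil)) .nil)) (.node .leaf (nat_lit 15949538116352001) (.br (nat_lit 0) (.cons (.br (nat_lit 6) (.cons (.rel (nat_lit 34368132096)) .nil)) .nil)) .leaf))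 (nat_lit 15950421516732416) (.br (nat_lit 0) (.cons (.br (nat_lit 1) (.cons (.rel (nat_lit 21495936)) .nil)) .nil)) (.node (.node .leaf (nat_lit 15950812972561284) (.br (nat_lit 1) (.cons (.br (nat_lit 4) (.cons (.rel (nat_lit 1107297345)) .nil)) .nil)) .leaf) (nat_lit 15950818655423350) (.br (nat_lit 0) (.cons (.br (nat_lit 1) (.cons (.rel (nat_lit 20971842)) .nil)) .nil)) (.node .leaf (nat_lit 15951406117250281) (.br (nat_lit 1) (.cons (.br (nat_lit 2) (.cons (.rel (nat_lit 100665345)) .nil)) .nil)) .leaf))))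

/-- refutations 34 -/
def e34 : EX := (.node (.node .leaf (nat_lit 16037322529764833) (.br (nat_lit 0) (.cons (.br (nat_lit 1) (.cons (.rel (nat_lit 21242880)) .nil)) .nil)) .leaf) (nat_lit 16039469492848641) (.br (nat_lit 0) (.cons (.br (nat_lit 2) (.cons (.rel (nat_lit 75498528)) .nil)) .nil)) (.node .leaf (nat_lit 16039469492849397) (.br (nat_lit 0) (.cons (.br (nat_lit 2) (.cons (.rel (nat_lit 75498528)) .nil)) .nil)) .leaf))

/-- refutations 35 -/
def e35 : EX := (.node (.node (.node .leaf (nat_lit 21990290597578752) (.br (nat_lit 0) (.cons (.br (nat_lit 1) (.cons (.rel (nat_lit 20977728)) .nil)) .nil)) .leaf) (nat_lit 21990681990955009) (.br (nat_lit 1) (.cons (.br (nat_lit 2) (.cons (.rel (nat_lit 83886405)) .nil)) .nil)) .leaf) (nat_lit 21992613276650728) (.br (nat_lit 1) (.cons (.br (nat_lit 2) (.cons (.rel (nat_lit 83886405)) .nil)) .nil)) (.node .leaf (nat_lit 21996893152840442) (.br (nat_lit 0) (.cons (.br (nat_lit 1) (.cons (.rel (nat_lit 42205248)) .nil)) .nil)) .leaf))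

/-- refutations 36 -/
def e36 : EX := (.node (.node (.node (.node .leaf (nat_lit 22008271460223628) (.br (nat_lit 2) (.cons (.br (nat_lit 3) (.cons (.rel (nat_lit 671350785)) .nil)) .nil)) .leaf) (nat_lit 22008275297915192) (.br (nat_lit 0) (.cons (.br (nat_lit 1) (.cons (.rel (nat_lit 21495936)) .nil)) .nil)) .leaf) (nat_lit 22008348758544385) (.br (nat_lit 0) (.cons (.br (nat_lit 1) (.cons (.rel (nat_lit 20977728)) .nil)) .nil)) (.node .leaf (nat_lit 22008947940341761) (.br (nat_lit 0) (.cons (.br (nat_lit 3) (.cons (.rel (nat_lit 273680640)) .nil)) .nil)) .leaf)) (nat_lit 22013279393254007) (.br (nat_lit 1) (.cons (.br (nat_lit 2) (.cons (.rel (nat_lit 83910660)) .nil)) .nil)) (.node (.node .leaf (nat_lit 22013279393254637) (.br (nat_lit 3) (.cons (.br (nat_lit 6) (.cons (.rel (nat_lit 17448568833)) .nil)) .nil)) .leaf) (nat_lit 22015822013893393) (.br (nat_lit 3) (.cons (.br (nat_lit 6) (.cons (.rel (nat_lit 34896626241)) .nil)) .nil)) (.node .leaf (nat_lit 22020160455405569) (.br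 (nat_lit 0) (.cons (.br (nat_lit 1) (.cons (.rel (nat_lit 21069888)) .nil)) .nil)) .leaf)))

/-- refutations 37 -/
def e37 : EX := (.node (.node (.node .leaf (nat_lit 22096230267002881) (.br (nat_lit 1) (.cons (.br (nat_lit 0) (.cons (.rel (nat_lit 21242880)) (.cons (.rel (nat_lit 20971842)) .nil))) .nil)) .leaf) (nat_lit 22096232375162881) (.br (nat_lit 0) (.cons (.br (nat_lit 1) (.cons (.rel (nat_lit 21041172)) .nil)) .nil)) .leaf) (nat_lit 22096238855352321) (.br (nat_lit 5) (.cons (.br (nat_lit 2) (.cons (.rel (nat_lit 4362077505)) (.cons (.rel (nat_lit 4362147840)) (.cons (.rel (nat_lit 4362077505)) .nil)))) .nil)) (.node .leaf (nat_lit 22101671078497513) (.br (nat_lit 2) (.cons (.br (nat_lit 4) (.cons (.rel (nat_lit 1207977216)) .nil)) .nil)) .leaf))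

/-- refutations 38 -/
def e38 : EX := (.node (.node (.node (.node (.node (.node .leaf (nat_lit 22166386374141958) (.br (nat_lit 1) (.cons (.br (nat_lit 3) (.cons (.rel (nat_lit 302056464)) .nil)) .nil)) .leaf) (nat_lit 22166386374142254) (.br (nat_lit 1) (.cons (.br (nat_lit 5) (.cons (.rel (nat_lit 8606713860)) .nil)) .nil)) .leaf) (nat_lit 22166392321665149) (.br (nat_lit 0) (.cons (.br (nat_lit 2) (.cons (.rel (nat_lit 71323905)) .nil)) .nil)) (.node .leaf (nat_lit 22166597749727233) (.br (nat_lit 0) (.cons (.br (nat_lit 6) (.cons (.rel (nat_lit 34368132096)) .nil)) .nil)) .leaf)) (nat_lit 22166599008065537) (.br (nat_lit 1) (.cons (.br (nat_lit 2) (.cons (.rel (nat_lit 83956740)) .nil)) .nil)) (.node (.node (.node .leaf (nat_lit 22166601123819521) (.br (nat_lit 3) (.cons (.br (nat_lit 5) (.cons (.rel (nat_lit 4832104512)) .nil)) .nil)) .leaf) (nat_lit 22166601123819822) (.br (nat_lit 1) (.cons (.br (nat_lit 3) (.cons (.rel (nat_lit 285491202)) .nil)) .nil)) .leaf) (nat_lit 22166601731378079)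 (.br (nat_lit 3) (.cons (.br (nat_lit 6) (.cons (.rel (nat_lit 34896887808)) .nil)) .nil)) (.node .leaf (nat_lit 22166601733277049) (.br (nat_lit 2) (.cons (.br (nat_lit 3) (.cons (.rel (nat_lit 335577108)) .nil)) .nil)) .leaf))) (nat_lit 22166603757225984) (.br (nat_lit 6) (.cons (.br (nat_lit 3) (.cons (.rel (nat_lit 17448312897)) (.cons (.rel (nat_lit 17448310080)) .nil))) .nil)) (.node (.node (.node (.node .leaf (nat_lit 22166603757225985) (.br (nat_lit 0) (.cons (.br (nat_lit 6) (.cons (.rel (nat_lit 17184080001)) (.cons (.rel (nat_lit 17184065025)) .nil))) .nil)) .leaf) (nat_lit 22166603758518272) (.br (nat_lit 0) (.cons (.br (nat_lit 6) (.cons (.rel (nat_lit 34368132096)) .nil)) .nil)) .leaf) (nat_lit 22166603761420288) (.br (nat_lit 0) (.cons (.br (nat_lit 6) (.cons (.rel (nat_lit 34368132096)) (.cons (.rel (nat_lit 17184065025)) (.cons (.rel (nat_lit 17184591936)) .nil)))) .nil)) (.node .leaf (nat_lit 22166607596818432) (.br (nat_lit 1) (.cons (.br (nat_lit 5) (.cons (.rel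 (nat_lit 4311777408)) (.cons (.rel (nat_lit 4328522760)) (.cons (.rel (nat_lit 4328522760)) .nil)))) .nil)) .leaf)) (nat_lit 22167466587265024) (.br (nat_lit 6) (.cons (.br (nat_lit 0) (.cons (.rel (nat_lit 17184080001)) (.cons (.rel (nat_lit 17184067842)) .nil))) .nil)) (.node (.node (.node .leaf (nat_lit 22167466593296385) (.br (nat_lit 0) (.cons (.br (nat_lit 1) (.cons (.rel (nat_lit 21495936)) .nil)) .nil)) .leaf) (nat_lit 22168533857277953) (.br (nat_lit 2) (.cons (.br (nat_lit 5) (.cons (.rel (nat_lit 4362077505)) .nil)) .nil)) .leaf) (nat_lit 22168540333283329) (.br (nat_lit 3) (.cons (.br (nat_lit 4) (.cons (.rel (nat_lit 2415920145)) .nil)) .nil)) (.node .leaf (nat_lit 22168578086778087) (.br (nat_lit 2) (.cons (.br (nat_lit 3) (.cons (.rel (nat_lit 402718728)) .nil)) .nil)) .leaf)))) (nat_lit 22172657027090432) (.br (nat_lit 3) (.cons (.br (nat_lit 4) (.cons (.rel (nat_lit 1342182402)) (.cons (.rel (nat_lit 1342210113)) .nil))) .nil)) (.node (.node (.node (.node (.node .leaf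 (nat_lit 22172657027090582) (.br (nat_lit 3) (.cons (.br (nat_lit 4) (.cons (.rel (nat_lit 1342185984)) .nil)) .nil)) .leaf) (nat_lit 22172657027090734) (.br (nat_lit 0) (.cons (.br (nat_lit 4) (.cons (.rel (nat_lit 1078461441)) (.cons (.rel (nat_lit 1077940353)) .nil))) (.cons (.br (nat_lit 1) (.cons (.rel (nat_lit 22052868)) (.cons (.rel (nat_lit 20993280)) .nil))) .nil))) .leaf) (nat_lit 22172657027090738) (.br (nat_lit 3) (.cons (.br (nat_lit 6) (.cons (.rel (nat_lit 17448310080)) .nil)) .nil)) (.node .leaf (nat_lit 22172657027091058) (.br (nat_lit 3) (.cons (.br (nat_lit 4) (.cons (.rel (nat_lit 1342182402)) .nil)) .nil)) .leaf)) (nat_lit 22172659749193728) (.br (nat_lit 0) (.cons (.br (nat_lit 1) (.cons (.rel (nat_lit 21495936)) .nil)) .nil)) (.node (.node (.node .leaf (nat_lit 22172659749195159) (.br (nat_lit 1) (.cons (.br (nat_lit 2) (.cons (.rel (nat_lit 100664340)) .nil)) .nil)) .leaf) (nat_lit 22172662878144814) (.br (nat_lit 1) (.cons (.br (nat_lit 4) (.cons (.rel (nat_lit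 1091043360)) .nil)) .nil)) .leaf) (nat_lit 22173936927344641) (.br (nat_lit 1) (.cons (.br (nat_lit 4) (.cons (.rel (nat_lit 1091567889)) .nil)) .nil)) (.node .leaf (nat_lit 22174143086391297) (.br (nat_lit 1) (.cons (.br (nat_lit 2) (.cons (.rel (nat_lit 85213200)) .nil)) .nil)) .leaf))) (nat_lit 22174151675710842) (.br (nat_lit 0) (.cons (.br (nat_lit 3) (.cons (.rel (nat_lit 273683457)) .nil)) .nil)) (.node (.node (.node (.node .leaf (nat_lit 22174151676073338) (.br (nat_lit 5) (.cons (.br (nat_lit 6) (.cons (.rel (nat_lit 21474845697)) .nil)) .nil)) .leaf) (nat_lit 22174158147520512) (.br (nat_lit 2) (.cons (.br (nat_lit 5) (.cons (.rel (nat_lit 4362666048)) .nil)) .nil)) .leaf) (nat_lit 22178014440304950) (.br (nat_lit 0) (.cons (.br (nat_lit 4) (.cons (.rel (nat_lit 1078461441)) .nil)) .nil)) (.node .leaf (nat_lit 22178051506014208) (.br (nat_lit 3) (.cons (.br (nat_lit 4) (.cons (.rel (nat_lit 2684880192)) .nil)) .nil)) .leaf)) (nat_lit 22178054140037751) (.br (nat_lit 0) (.cons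 (.br (nat_lit 1) (.cons (.rel (nat_lit 21495936)) .nil)) .nil)) (.node (.node .leaf (nat_lit 22178057454829693) (.br (nat_lit 0) (.cons (.br (nat_lit 2) (.cons (.rel (nat_lit 71372802)) .nil)) .nil)) .leaf) (nat_lit 22178060097243137) (.br (nat_lit 6) (.cons (.br (nat_lit 5) (.cons (.rel (nat_lit 21474919488)) (.cons (.rel (nat_lit 21474842880)) .nil))) .nil)) (.node .leaf (nat_lit 22178504656228352) (.br (nat_lit 0) (.cons (.br (nat_lit 2) (.cons (.rel (nat_lit 71336064)) .nil)) .nil)) .leaf)))))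

/-- refutations 39 -/
def e39 : EX := (.node (.node .leaf (nat_lit 22430481801541633) (.br (nat_lit 1) (.cons (.br (nat_lit 2) (.cons (.rel (nat_lit 100665345)) .nil)) .nil)) .leaf) (nat_lit 22430489806160032) (.br (nat_lit 1) (.cons (.br (nat_lit 3) (.cons (.rel (nat_lit 285214080)) .nil)) .nil)) .leaf)

/-- refutations 40 -/
def e40 : EX := (.node (.node (.node (.node (.node (.node .leaf (nat_lit 22553419707088103) (.br (nat_lit 2) (.cons (.br (nat_lit 3) (.cons (.rel (nat_lit 335578113)) .nil)) .nil)) .leaf) (nat_lit 22553617921237302) (.br (nat_lit 0) (.cons (.br (nat_lit 2) (.cons (.rel (nat_lit 142622784)) (.cons (.rel (nat_lit 71321088)) .nil))) .nil)) .leaf) (nat_lit 22553618506954752) (.br (nat_lit 1) (.cons (.br (nat_lit 6) (.cons (.rel (nat_lit 34376779776)) (.cons (.rel (nat_lit 34376532993)) (.cons (.rel (nat_lit 17213427840)) .nil)))) .nil)) (.node .leaf (nat_lit 22553618506954908) (.br (nat_lit 1) (.cons (.br (nat_lit 5) (.cons (.rel (nat_lit 4329832704)) .nil)) .nil))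 .leaf)) (nat_lit 22553618507122688) (.br (nat_lit 5) (.cons (.br (nat_lit 4) (.cons (.br (nat_lit 0) (.cons (.rel (nat_lit 1078072320)) (.cons (.rel (nat_lit 1078214658)) .nil))) (.cons (.rel (nat_lit 5369233410)) (.cons (.rel (nat_lit 5368971840)) (.cons (.rel (nat_lit 6443501568)) (.cons (.rel (nat_lit 5369233410)) .nil)))))) .nil)) (.node (.node (.node .leaf (nat_lit 22553618508439552) (.br (nat_lit 2) (.cons (.br (nat_lit 0) (.cons (.rel (nat_lit 71308353)) (.cons (.rel (nat_lit 142622784)) .nil))) .nil)) .leaf) (nat_lit 22553618509414400) (.br (nat_lit 1) (.cons (.br (nat_lit 3) (.cons (.rel (nat_lit 285216897)) (.cons (.rel (nat_lit 570442752)) .nil))) .nil)) .leaf) (nat_lit 22553629404207105) (.br (nat_lit 5) (.cons (.br (nat_lit 0) (.cons (.rel (nat_lit 4303364352)) (.cons (.rel (nat_lit 4303487040)) .nil))) .nil)) (.node .leaf (nat_lit 22553629761439745) (.br (nat_lit 0) (.cons (.br (nat_lit 2) (.cons (.rel (nat_lit 71305536)) (.cons (.rel (nat_lit 71305536)) .nil))) .nil))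 .leaf))) (nat_lit 22553631941304321) (.br (nat_lit 0) (.cons (.br (nat_lit 2) (.cons (.rel (nat_lit 71305536)) .nil)) .nil)) (.node (.node (.node (.node .leaf (nat_lit 22553631942477824) (.br (nat_lit 0) (.cons (.br (nat_lit 3) (.cons (.br (nat_lit 5) (.cons (.rel (nat_lit 4565041152)) .nil)) .nil)) .nil)) .leaf) (nat_lit 22553631942477825) (.br (nat_lit 0) (.cons (.br (nat_lit 4) (.cons (.rel (nat_lit 1077940353)) .nil)) .nil)) .leaf) (nat_lit 22553632549488640) (.br (nat_lit 0) (.cons (.br (nat_lit 2) (.cons (.rel (nat_lit 142622784)) .nil)) .nil)) (.node .leaf (nat_lit 22553633095148156) (.br (nat_lit 0) (.cons (.br (nat_lit 4) (.cons (.rel (nat_lit 1077970944)) .nil)) .nil)) .leaf)) (nat_lit 22553633097316988) (.br (nat_lit 0) (.cons (.br (nat_lit 4) (.cons (.br (nat_lit 2) (.cons (.rel (nat_lit 1141129221)) (.cons (.rel (nat_lit 1141129221)) .nil))) .nil)) .nil)) (.node (.node .leaf (nat_lit 22553634454149276) (.br (nat_lit 0) (.cons (.br (nat_lit 2) (.cons (.rel (nat_lit 142622784))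 .nil)) .nil)) .leaf) (nat_lit 22553634455503004) (.br (nat_lit 2) (.cons (.br (nat_lit 4) (.cons (.rel (nat_lit 2281717776)) .nil)) .nil)) (.node .leaf (nat_lit 22553634478858402) (.br (nat_lit 1) (.cons (.br (nat_lit 2) (.cons (.rel (nat_lit 83951904)) .nil)) .nil)) .leaf)))) (nat_lit 22553635100071937) (.br (nat_lit 1) (.cons (.br (nat_lit 5) (.cons (.rel (nat_lit 4311746880)) .nil)) .nil)) (.node (.node (.node (.node (.node .leaf (nat_lit 22553635689795740) (.br (nat_lit 0) (.cons (.br (nat_lit 1) (.cons (.rel (nat_lit 21039360)) .nil)) .nil)) .leaf) (nat_lit 22554299419105281) (.br (nat_lit 1) (.cons (.br (nat_lit 0) (.cons (.rel (nat_lit 20971842)) (.cons (.rel (nat_lit 20996097)) .nil))) .nil)) .leaf) (nat_lit 22554305114970113) (.br (nat_lit 4) (.cons (.br (nat_lit 6) (.cons (.rel (nat_lit 19327423488)) .nil)) .nil)) (.node .leaf (nat_lit 22554305701885952) (.br (nat_lit 0) (.cons (.br (nat_lit 5) (.cons (.rel (nat_lit 8594669568)) .nil)) .nil)) .leaf)) (nat_lit 22554305701886264)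 (.br (nat_lit 0) (.cons (.br (nat_lit 1) (.cons (.rel (nat_lit 42205248)) (.cons (.rel (nat_lit 20971842)) .nil))) .nil)) (.node (.node .leaf (nat_lit 22554305704693760) (.br (nat_lit 6) (.cons (.br (nat_lit 0) (.cons (.rel (nat_lit 34368132096)) (.cons (.rel (nat_lit 34363949064)) .nil))) .nil)) .leaf) (nat_lit 22555637141587968) (.br (nat_lit 1) (.cons (.br (nat_lit 3) (.cons (.rel (nat_lit 570442752)) .nil)) .nil)) (.node .leaf (nat_lit 22558854621536257) (.br (nat_lit 2) (.cons (.br (nat_lit 3) (.cons (.rel (nat_lit 335568960)) .nil)) .nil)) .leaf))) (nat_lit 22561186239334712) (.br (nat_lit 2) (.cons (.br (nat_lit 1) (.cons (.rel (nat_lit 150995970)) (.cons (.rel (nat_lit 150995970)) .nil))) .nil)) (.node (.node (.node (.node .leaf (nat_lit 22563974222553089) (.br (nat_lit 0) (.cons (.br (nat_lit 2) (.cons (.rel (nat_lit 71305536)) .nil)) .nil)) .leaf) (nat_lit 22564028300954362) (.br (nat_lit 0) (.cons (.br (nat_lit 1) (.cons (.rel (nat_lit 20977728)) .nil)) .nil)) .leaf) (nat_lit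 22564200073699484) (.br (nat_lit 0) (.cons (.br (nat_lit 2) (.cons (.rel (nat_lit 75498528)) .nil)) .nil)) (.node .leaf (nat_lit 22565472016900398) (.br (nat_lit 2) (.cons (.br (nat_lit 3) (.cons (.rel (nat_lit 335568960)) .nil)) .nil)) .leaf)) (nat_lit 22565514987555128) (.br (nat_lit 2) (.cons (.br (nat_lit 6) (.cons (.rel (nat_lit 34426863618)) (.cons (.rel (nat_lit 17314218240)) .nil))) .nil)) (.node (.node .leaf (nat_lit 22565514989039928) (.br (nat_lit 2) (.cons (.br (nat_lit 4) (.cons (.rel (nat_lit 2214593664)) .nil)) .nil)) .leaf) (nat_lit 22565532749205504) (.br (nat_lit 0) (.cons (.br (nat_lit 4) (.cons (.rel (nat_lit 1077937536)) .nil)) .nil)) (.node .leaf (nat_lit 22566177038893216) (.br (nat_lit 0) (.cons (.br (nat_lit 1) (.cons (.rel (nat_lit 21041172)) .nil)) .nil)) .leaf)))))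

/-- refutations 41 -/
def e41 : EX := (.node (.node (.node .leaf (nat_lit 22606411008804865) (.br (nat_lit 3) (.cons (.br (nat_lit 4) (.cons (.rel (nat_lit 2684358912)) .nil)) .nil)) .leaf) (nat_lit 22606483081388033) (.br (nat_lit 0) (.cons (.br (nat_lit 2) (.cons (.rel (nat_lit 71372802)) .nil)) .nil)) (.node .leaf (nat_lit 22608126398754079) (.br (nat_lit 0) (.cons (.br (nat_lit 1) (.cons (.rel (nat_lit 20977728)) .nil)) .nil)) .leaf)) (nat_lit 22618291495823510) (.br (nat_lit 0) (.cons (.br (nat_lit 2) (.cons (.br (nat_lit 4) (.cons (.rel (nat_lit 1147142148)) .nil)) .nil)) .nil)) (.node (.node .leaf (nat_lit 22618291495824621) (.br (nat_lit 0) (.cons (.br (nat_lit 2) (.cons (.rel (nat_lit 71307348)) .nil)) .nil)) .leaf) (nat_lit 22618300091994743) (.br (nat_lit 0) (.cons (.br (nat_lit 2) (.cons (.rel (nat_lit 71336064)) .nil)) .nil)) .leaf))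

/-- refutations 42 -/
def e42 : EX := (.node (.node (.node .leaf (nat_lit 22643598076166145) (.br (nat_lit 2) (.cons (.br (nat_lit 0) (.cons (.rel (nat_lit 71336064)) (.cons (.rel (nat_lit 71305536)) .nil))) .nil)) .leaf) (nat_lit 22646790327384215) (.br (nat_lit 0) (.cons (.br (nat_lit 2) (.cons (.rel (nat_lit 71307348)) .nil)) .nil)) (.node .leaf (nat_lit 22648926575599617) (.br (nat_lit 0) (.cons (.br (nat_lit 3) (.cons (.rel (nat_lit 272662545)) .nil)) .nil)) .leaf)) (nat_lit 22653481250004993) (.br (nat_lit 2) (.cons (.br (nat_lit 5) (.cons (.rel (nat_lit 4362141954)) .nil)) .nil)) (.node (.node .leaf (nat_lit 22653488376395010) (.br (nat_lit 0) (.cons (.br (nat_lit 4) (.cons (.rel (nat_lit 1078461441)) .nil)) .nil)) .leaf) (nat_lit 22654131445560077) (.br (nat_lit 0) (.cons (.br (nat_lit 2) (.cons (.rel (nat_lit 71958528)) .nil)) .nil)) .leaf))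

/-- refutations 43 -/
def e43 : EX := (.node (.node .leaf (nat_lit 22870291291588609) (.br (nat_lit 0) (.cons (.br (nat_lit 5) (.cons (.rel (nat_lit 4303357953)) .nil)) .nil)) .leaf) (nat_lit 22881917221730305) (.br (nat_lit 1) (.cons (.br (nat_lit 2) (.cons (.rel (nat_lit 85984512)) .nil)) .nil)) .leaf)

/-- refutations 44 -/
def e44 : EX := (.node (.node (.node (.node (.node (.node .leaf (nat_lit 22957852245585921) (.br (nat_lit 0) (.cons (.br (nat_lit 5) (.cons (.rel (nat_lit 4300734465)) (.cons (.rel (nat_lit 4300734465)) .nil))) .nil)) .leaf) (nat_lit 22958039984308224) (.br (nat_lit 1) (.cons (.br (nat_lit 3) (.cons (.rel (nat_lit 285216897)) .nil)) .nil)) (.node .leaf (nat_lit 22958039984309479) (.br (nat_lit 0) (.cons (.br (nat_lit 1) (.cons (.rel (nat_lit 20996097)) .nil)) .nil)) .leaf)) (nat_lit 22958039984754689) (.br (nat_lit 5) (.cons (.br (nat_lit 4) (.cons (.rel (nat_lit 5368841472)) (.cons (.rel (nat_lit 5368971840)) .nil))) .nil)) (.node (.node .leaf (nat_lit 22958041222074369)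 (.br (nat_lit 0) (.cons (.br (nat_lit 3) (.cons (.rel (nat_lit 273683457)) (.cons (.rel (nat_lit 272761104)) (.cons (.rel (nat_lit 273680640)) (.cons (.rel (nat_lit 273680640)) .nil))))) (.cons (.br (nat_lit 4) (.cons (.rel (nat_lit 1077953088)) (.cons (.rel (nat_lit 1077970944)) .nil))) .nil))) .leaf) (nat_lit 22958249682947549) (.br (nat_lit 0) (.cons (.br (nat_lit 3) (.cons (.rel (nat_lit 272632209)) (.cons (.rel (nat_lit 272635026)) .nil))) (.cons (.br (nat_lit 3) (.cons (.rel (nat_lit 272662545)) (.cons (.rel (nat_lit 272909328)) .nil))) .nil))) (.node .leaf (nat_lit 22958249683946129) (.br (nat_lit 3) (.cons (.br (nat_lit 5) (.cons (.rel (nat_lit 4564729920)) .nil)) .nil)) .leaf))) (nat_lit 22958249683946754) (.br (nat_lit 3) (.cons (.br (nat_lit 4) (.cons (.rel (nat_lit 1342182402)) (.cons (.rel (nat_lit 1342182402)) .nil))) .nil)) (.node (.node (.node .leaf (nat_lit 22958249683946757) (.br (nat_lit 3) (.cons (.br (nat_lit 4) (.cons (.rel (nat_lit 1342182402)) .nil)) .nil)) .leaf)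 (nat_lit 22958249683946777) (.br (nat_lit 0) (.cons (.br (nat_lit 3) (.cons (.rel (nat_lit 272662545)) .nil)) .nil)) (.node .leaf (nat_lit 22958249683946973) (.br (nat_lit 4) (.cons (.br (nat_lit 3) (.cons (.rel (nat_lit 1342185984)) (.cons (.rel (nat_lit 1342181397)) (.cons (.rel (nat_lit 1342181397)) .nil)))) (.cons (.br (nat_lit 3) (.cons (.rel (nat_lit 2415919140)) (.cons (.rel (nat_lit 1342181397)) (.cons (.rel (nat_lit 1342179585)) .nil)))) .nil))) .leaf)) (nat_lit 22958249684011009) (.br (nat_lit 3) (.cons (.br (nat_lit 4) (.cons (.rel (nat_lit 1342181397)) .nil)) .nil)) (.node (.node .leaf (nat_lit 22958249684582401) (.br (nat_lit 0) (.cons (.br (nat_lit 6) (.cons (.rel (nat_lit 17184073728)) .nil)) .nil)) .leaf) (nat_lit 22958249685343485) (.br (nat_lit 2) (.cons (.br (nat_lit 3) (.cons (.rel (nat_lit 335824896)) .nil)) .nil)) .leaf))) (nat_lit 22958249685343493) (.br (nat_lit 0) (.cons (.br (nat_lit 1) (.cons (.rel (nat_lit 21236244)) .nil)) .nil)) (.node (.node (.node (.node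 .leaf (nat_lit 22958249685351681) (.br (nat_lit 4) (.cons (.br (nat_lit 0) (.cons (.rel (nat_lit 2155889664)) (.cons (.rel (nat_lit 1084227585)) .nil))) .nil)) .leaf) (nat_lit 22958249685351901) (.br (nat_lit 3) (.cons (.br (nat_lit 4) (.cons (.rel (nat_lit 1342210113)) .nil)) .nil)) (.node .leaf (nat_lit 22958250040462743) (.br (nat_lit 1) (.cons (.br (nat_lit 3) (.cons (.rel (nat_lit 285247488)) .nil)) .nil)) .leaf)) (nat_lit 22958250775000295) (.br (nat_lit 0) (.cons (.br (nat_lit 4) (.cons (.rel (nat_lit 1078988832)) (.cons (.rel (nat_lit 1077970944)) .nil))) (.cons (.br (nat_lit 3) (.cons (.br (nat_lit 4) (.cons (.rel (nat_lit 2684358912)) (.cons (.rel (nat_lit 1082130528)) .nil))) (.cons (.rel (nat_lit 272699472)) .nil))) .nil))) (.node (.node .leaf (nat_lit 22958252221499393) (.br (nat_lit 6) (.cons (.br (nat_lit 3) (.cons (.rel (nat_lit 17448374529)) (.cons (.rel (nat_lit 17448861696)) .nil))) .nil)) .leaf) (nat_lit 22958253366812673) (.br (nat_lit 6) (.cons (.br (nat_lit 3)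 (.cons (.rel (nat_lit 17449680900)) (.cons (.br (nat_lit 5) (.cons (.rel (nat_lit 4563468624)) (.cons (.rel (nat_lit 4563681297)) .nil))) (.cons (.rel (nat_lit 34896887808)) .nil)))) .nil)) .leaf)) (nat_lit 22958253366813309) (.br (nat_lit 4) (.cons (.br (nat_lit 5) (.cons (.rel (nat_lit 5368742913)) .nil)) .nil)) (.node (.node (.node .leaf (nat_lit 22963260070834177) (.br (nat_lit 4) (.cons (.br (nat_lit 6) (.cons (.rel (nat_lit 19327353153)) .nil)) .nil)) .leaf) (nat_lit 22963262682531841) (.br (nat_lit 3) (.cons (.br (nat_lit 4) (.cons (.rel (nat_lit 1342768128)) .nil)) .nil)) (.node .leaf (nat_lit 22963687113127937) (.br (nat_lit 0) (.cons (.br (nat_lit 5) (.cons (.rel (nat_lit 4300345344)) .nil)) .nil)) .leaf)) (nat_lit 22963687114348545) (.br (nat_lit 0) (.cons (.br (nat_lit 4) (.cons (.rel (nat_lit 1077970944)) (.cons (.rel (nat_lit 1078984965)) .nil))) (.cons (.br (nat_lit 3) (.cons (.rel (nat_lit 272909328)) (.cons (.rel (nat_lit 272662545)) (.cons (.rel (nat_lit 541196289))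 .nil)))) .nil))) (.node (.node .leaf (nat_lit 22963693399869441) (.br (nat_lit 0) (.cons (.br (nat_lit 3) (.cons (.rel (nat_lit 276889602)) .nil)) .nil)) .leaf) (nat_lit 22965585924294657) (.br (nat_lit 5) (.cons (.br (nat_lit 0) (.cons (.rel (nat_lit 4303896597)) (.cons (.rel (nat_lit 4299294096)) .nil))) .nil)) .leaf)))) (nat_lit 22965791645749249) (.br (nat_lit 6) (.cons (.br (nat_lit 3) (.cons (.rel (nat_lit 34896887808)) (.cons (.rel (nat_lit 34896887808)) .nil))) .nil)) (.node (.node (.node (.node (.node .leaf (nat_lit 22965791645750749) (.br (nat_lit 3) (.cons (.br (nat_lit 1) (.cons (.rel (nat_lit 553648260)) (.cons (.rel (nat_lit 285218964)) .nil))) .nil)) .leaf) (nat_lit 22965791646517249) (.br (nat_lit 3) (.cons (.br (nat_lit 0) (.cons (.rel (nat_lit 273683457)) (.cons (.rel (nat_lit 273680640)) .nil))) .nil)) (.node .leaf (nat_lit 22965791646518749) (.br (nat_lit 4) (.cons (.br (nat_lit 5) (.cons (.rel (nat_lit 5368779840)) .nil)) .nil)) .leaf)) (nat_lit 22965791648323037)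 (.br (nat_lit 2) (.cons (.br (nat_lit 1) (.cons (.rel (nat_lit 83886405)) (.cons (.rel (nat_lit 84148740)) .nil))) .nil)) (.node (.node .leaf (nat_lit 22965792738576385) (.br (nat_lit 4) (.cons (.br (nat_lit 5) (.cons (.rel (nat_lit 9663741984)) .nil)) .nil)) .leaf) (nat_lit 22965792738577021) (.br (nat_lit 4) (.cons (.br (nat_lit 6) (.cons (.rel (nat_lit 18253611588)) .nil)) .nil)) .leaf)) (nat_lit 22965795329116161) (.br (nat_lit 0) (.cons (.br (nat_lit 5) (.cons (.rel (nat_lit 4299161937)) .nil)) .nil)) (.node (.node (.node .leaf (nat_lit 22965795329117415) (.br (nat_lit 0) (.cons (.br (nat_lit 2) (.cons (.rel (nat_lit 71305536)) .nil)) .nil)) .leaf) (nat_lit 22965797933010945) (.br (nat_lit 1) (.cons (.br (nat_lit 6) (.cons (.rel (nat_lit 17196646944)) (.cons (.rel (nat_lit 17213427840)) .nil))) (.cons (.br (nat_lit 6) (.cons (.rel (nat_lit 17213489472)) (.cons (.rel (nat_lit 34376531988)) .nil))) .nil))) (.node .leaf (nat_lit 22965797933778945) (.br (nat_lit 3) (.cons (.br (nat_lit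 0) (.cons (.rel (nat_lit 272909328)) (.cons (.rel (nat_lit 272909328)) .nil))) .nil)) .leaf)) (nat_lit 22965800235685341) (.br (nat_lit 0) (.cons (.br (nat_lit 1) (.cons (.rel (nat_lit 21495936)) .nil)) .nil)) (.node (.node .leaf (nat_lit 22968598251687937) (.br (nat_lit 0) (.cons (.br (nat_lit 2) (.cons (.rel (nat_lit 71305536)) .nil)) .nil)) .leaf) (nat_lit 22969021461155841) (.br (nat_lit 0) (.cons (.br (nat_lit 3) (.cons (.br (nat_lit 6) (.cons (.rel (nat_lit 34896887808)) .nil)) .nil)) .nil)) .leaf))) (nat_lit 22969021461923841) (.br (nat_lit 0) (.cons (.br (nat_lit 3) (.cons (.rel (nat_lit 272662545)) (.cons (.rel (nat_lit 273154056)) .nil))) .nil)) (.node (.node (.node (.node .leaf (nat_lit 22969021461925889) (.br (nat_lit 3) (.cons (.br (nat_lit 4) (.cons (.rel (nat_lit 2684358912)) .nil)) .nil)) .leaf) (nat_lit 22969021463461889) (.br (nat_lit 0) (.cons (.br (nat_lit 2) (.cons (.rel (nat_lit 142934016)) .nil)) .nil)) (.node .leaf (nat_lit 22969021463781377) (.br (nat_lit 0)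 (.cons (.br (nat_lit 3) (.cons (.rel (nat_lit 272662545)) .nil)) .nil)) .leaf)) (nat_lit 22969024936665089) (.br (nat_lit 0) (.cons (.br (nat_lit 3) (.cons (.rel (nat_lit 541131840)) .nil)) .nil)) (.node (.node .leaf (nat_lit 22969027749822465) (.br (nat_lit 3) (.cons (.br (nat_lit 0) (.cons (.rel (nat_lit 272761104)) (.cons (.rel (nat_lit 272662545)) .nil))) .nil)) .leaf) (nat_lit 22969027769389216) (.br (nat_lit 3) (.cons (.br (nat_lit 4) (.cons (.rel (nat_lit 1342181397)) .nil)) .nil)) .leaf)) (nat_lit 22969872213578638) (.br (nat_lit 1) (.cons (.br (nat_lit 2) (.cons (.rel (nat_lit 83956740)) .nil)) .nil)) (.node (.node (.node .leaf (nat_lit 22969891582871553) (.br (nat_lit 3) (.cons (.br (nat_lit 4) (.cons (.rel (nat_lit 1342181397)) .nil)) .nil)) .leaf) (nat_lit 22969891582872984) (.br (nat_lit 3) (.cons (.br (nat_lit 4) (.cons (.rel (nat_lit 1342722048)) .nil)) .nil)) (.node .leaf (nat_lit 22970138152652801) (.br (nat_lit 6) (.cons (.br (nat_lit 3) (.cons (.rel (nat_lit 17448325632))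 (.cons (.rel (nat_lit 34896887808)) .nil))) .nil)) .leaf)) (nat_lit 22970138152652962) (.br (nat_lit 1) (.cons (.br (nat_lit 4) (.cons (.rel (nat_lit 1090798596)) .nil)) .nil)) (.node (.node .leaf (nat_lit 22970141836288001) (.br (nat_lit 6) (.cons (.br (nat_lit 5) (.cons (.rel (nat_lit 38654967816)) (.cons (.rel (nat_lit 38655836160)) (.cons (.rel (nat_lit 21474842880)) .nil)))) .nil)) .leaf) (nat_lit 22970144440950785) (.br (nat_lit 5) (.cons (.br (nat_lit 0) (.cons (.rel (nat_lit 4299161937)) (.cons (.rel (nat_lit 4300243968)) .nil))) .nil)) .leaf)))))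

/-- refutations 45 -/
def e45 : EX := (.node (.node (.node (.node (.node (.node (.node .leaf (nat_lit 24189691210999969) (.br (nat_lit 0) (.cons (.br (nat_lit 2) (.cons (.rel (nat_lit 71570688)) .nil)) .nil)) .leaf) (nat_lit 24189694473639937) (.br (nat_lit 1) (.cons (.br (nat_lit 3) (.cons (.rel (nat_lit 570442752)) .nil)) .nil)) .leaf) (nat_lit 24189694473641367) (.br (nat_lit 1) (.cons (.br (nat_lit 2) (.cons (.rel (nat_lit 85213200)) .nil)) .nil)) (.node .leaf (nat_lit 24189694475505047) (.br (nat_lit 1) (.cons (.br (nat_lit 0) (.cons (.rel (nat_lit 38798400)) (.cons (.rel (nat_lit 20977728)) .nil))) .nil)) .leaf)) (nat_lit 24189700406249473) (.br (nat_lit 2) (.cons (.br (nat_lit 4) (.cons (.rel (nat_lit 1207961664)) .nil)) .nil)) (.node (.node .leaf (nat_lit 24189703062571013) (.br (nat_lit 1) (.cons (.br (nat_lit 4) (.cons (.rel (nat_lit 2164269441)) .nil)) .nil)) .leaf) (nat_lit 24189703062572439) (.br (nat_lit 4) (.cons (.br (nat_lit 2) (.cons (.rel (nat_lit 1141129221)) (.cons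 (.rel (nat_lit 1141129221)) .nil))) .nil)) (.node .leaf (nat_lit 24189703063570433) (.br (nat_lit 4) (.cons (.br (nat_lit 3) (.cons (.rel (nat_lit 1610612760)) (.cons (.rel (nat_lit 1342182402)) (.cons (.rel (nat_lit 1342182402)) (.cons (.rel (nat_lit 2684358912)) (.cons (.rel (nat_lit 2684358912)) .nil)))))) (.cons (.br (nat_lit 1) (.cons (.rel (nat_lit 1091577360)) (.cons (.rel (nat_lit 1090551813)) (.cons (.rel (nat_lit 1090588740)) (.cons (.rel (nat_lit 1107297345)) .nil))))) .nil))) .leaf))) (nat_lit 24189703063570688) (.br (nat_lit 4) (.cons (.br (nat_lit 6) (.cons (.rel (nat_lit 18253629444)) .nil)) .nil)) (.node (.node (.node .leaf (nat_lit 24189703063570713) (.br (nat_lit 0) (.cons (.br (nat_lit 4) (.cons (.rel (nat_lit 1077970944)) .nil)) .nil)) .leaf) (nat_lit 24189703063570742) (.br (nat_lit 1) (.cons (.br (nat_lit 0) (.cons (.rel (nat_lit 23068944)) (.cons (.rel (nat_lit 21495936)) (.cons (.rel (nat_lit 37748772)) (.cons (.rel (nat_lit 22052868)) .nil))))) .nil)) (.node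 .leaf (nat_lit 24189703063570743) (.br (nat_lit 4) (.cons (.br (nat_lit 3) (.cons (.rel (nat_lit 2684358912)) (.cons (.rel (nat_lit 1342178580)) .nil))) .nil)) .leaf)) (nat_lit 24189703063571233) (.br (nat_lit 2) (.cons (.br (nat_lit 4) (.cons (.rel (nat_lit 1140883488)) .nil)) .nil)) (.node (.node .leaf (nat_lit 24189703063571243) (.br (nat_lit 4) (.cons (.br (nat_lit 6) (.cons (.rel (nat_lit 18254987280)) .nil)) .nil)) .leaf) (nat_lit 24189703063571344) (.br (nat_lit 1) (.cons (.br (nat_lit 3) (.cons (.rel (nat_lit 285216897)) .nil)) .nil)) (.node .leaf (nat_lit 24189703063571708) (.br (nat_lit 4) (.cons (.br (nat_lit 3) (.cons (.rel (nat_lit 1342182402)) (.cons (.rel (nat_lit 1342179585)) (.cons (.rel (nat_lit 1342179585)) .nil)))) .nil)) .leaf)))) (nat_lit 24189703063571818) (.br (nat_lit 3) (.cons (.br (nat_lit 4) (.cons (.rel (nat_lit 1342185984)) .nil)) .nil)) (.node (.node (.node (.node (.node .leaf (nat_lit 24189703063571833) (.br (nat_lit 3) (.cons (.br (nat_lit 4) (.cons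 (.rel (nat_lit 1342185984)) (.cons (.rel (nat_lit 2684358912)) .nil))) .nil)) .leaf) (nat_lit 24189703063571862) (.br (nat_lit 4) (.cons (.br (nat_lit 1) (.cons (.rel (nat_lit 2181300240)) (.cons (.rel (nat_lit 1107296340)) (.cons (.rel (nat_lit 1090588740)) (.cons (.rel (nat_lit 1090527876)) (.cons (.br (nat_lit 3) (.cons (.rel (nat_lit 1342210113)) (.cons (.rel (nat_lit 570442752)) (.cons (.rel (nat_lit 1342178580)) (.cons (.rel (nat_lit 285491202)) .nil))))) .nil)))))) (.cons (.br (nat_lit 3) (.cons (.rel (nat_lit 1342178580)) (.cons (.rel (nat_lit 2684358912)) (.cons (.rel (nat_lit 1342185984)) (.cons (.rel (nat_lit 1342182402)) .nil))))) .nil))) .leaf) (nat_lit 24189703063571863) (.br (nat_lit 1) (.cons (.br (nat_lit 3) (.cons (.rel (nat_lit 285736980)) (.cons (.rel (nat_lit 570442752)) (.cons (.rel (nat_lit 570442752)) (.cons (.rel (nat_lit 285247488)) (.cons (.rel (nat_lit 285302784)) .nil)))))) (.cons (.br (nat_lit 3) (.cons (.rel (nat_lit 286261509)) (.cons (.rel (nat_lit 285736980))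 (.cons (.rel (nat_lit 285736980)) (.cons (.rel (nat_lit 285216897)) (.cons (.rel (nat_lit 285214080)) .nil)))))) (.cons (.br (nat_lit 4) (.cons (.rel (nat_lit 1091043360)) (.cons (.rel (nat_lit 1091567889)) (.cons (.rel (nat_lit 2181300240)) (.cons (.rel (nat_lit 1090588740)) .nil))))) (.cons (.br (nat_lit 4) (.cons (.rel (nat_lit 1091567889)) (.cons (.rel (nat_lit 2181300240)) (.cons (.rel (nat_lit 1091043360)) (.cons (.rel (nat_lit 1090551813)) .nil))))) .nil))))) (.node .leaf (nat_lit 24189703063571937) (.br (nat_lit 1) (.cons (.br (nat_lit 3) (.cons (.rel (nat_lit 285216897)) .nil)) .nil)) .leaf)) (nat_lit 24189703063571958) (.br (nat_lit 4) (.cons (.br (nat_lit 6) (.cons (.rel (nat_lit 19327353153)) .nil)) .nil)) (.node (.node .leaf (nat_lit 24189703065378294) (.br (nat_lit 4) (.cons (.br (nat_lit 6) (.cons (.rel (nat_lit 18253611588)) .nil)) .nil)) .leaf) (nat_lit 24189705236220816) (.br (nat_lit 1) (.cons (.br (nat_lit 3) (.cons (.rel (nat_lit 285214080)) .nil)) .nil)) (.node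 .leaf (nat_lit 24189705236221334) (.br (nat_lit 3) (.cons (.br (nat_lit 2) (.cons (.rel (nat_lit 606076992)) (.cons (.rel (nat_lit 335578113)) .nil))) .nil)) .leaf))) (nat_lit 24189705852783878) (.br (nat_lit 1) (.cons (.br (nat_lit 3) (.cons (.rel (nat_lit 570442752)) .nil)) .nil)) (.node (.node (.node .leaf (nat_lit 24189707752803805) (.br (nat_lit 1) (.cons (.br (nat_lit 3) (.cons (.rel (nat_lit 285214080)) .nil)) .nil)) .leaf) (nat_lit 24190558243705633) (.br (nat_lit 0) (.cons (.br (nat_lit 1) (.cons (.rel (nat_lit 21234177)) .nil)) .nil)) (.node .leaf (nat_lit 24191412462093790) (.br (nat_lit 3) (.cons (.br (nat_lit 4) (.cons (.rel (nat_lit 1342185984)) .nil)) .nil)) .leaf)) (nat_lit 24191678747318273) (.br (nat_lit 6) (.cons (.br (nat_lit 1) (.cons (.rel (nat_lit 17197711368)) (.cons (.rel (nat_lit 17213702145)) .nil))) .nil)) (.node (.node .leaf (nat_lit 24191678748530689) (.br (nat_lit 1) (.cons (.br (nat_lit 2) (.cons (.rel (nat_lit 100665345)) .nil)) .nil)) .leaf) (nat_lit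 24191678748532119) (.br (nat_lit 1) (.cons (.br (nat_lit 3) (.cons (.rel (nat_lit 302056464)) .nil)) .nil)) (.node .leaf (nat_lit 24191684074085854) (.br (nat_lit 0) (.cons (.br (nat_lit 1) (.cons (.rel (nat_lit 21495936)) .nil)) .nil)) .leaf))))) (nat_lit 24191919266695173) (.br (nat_lit 0) (.cons (.br (nat_lit 3) (.cons (.rel (nat_lit 273154056)) .nil)) .nil)) (.node (.node (.node (.node (.node (.node .leaf (nat_lit 24191919266696080) (.br (nat_lit 6) (.cons (.br (nat_lit 2) (.cons (.rel (nat_lit 17246982405)) (.cons (.rel (nat_lit 17246986272)) .nil))) .nil)) .leaf) (nat_lit 24194902764604894) (.br (nat_lit 1) (.cons (.br (nat_lit 2) (.cons (.rel (nat_lit 83892294)) .nil)) .nil)) .leaf) (nat_lit 24196188464822273) (.br (nat_lit 2) (.cons (.br (nat_lit 5) (.cons (.rel (nat_lit 4362240000)) .nil)) .nil)) (.node .leaf (nat_lit 24196867069024257) (.br (nat_lit 1) (.cons (.br (nat_lit 3) (.cons (.rel (nat_lit 285214080)) .nil)) .nil)) .leaf)) (nat_lit 24196867069025687) (.br (nat_lit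 3) (.cons (.br (nat_lit 1) (.cons (.rel (nat_lit 285247488)) (.cons (.rel (nat_lit 302056464)) (.cons (.rel (nat_lit 285247488)) .nil)))) .nil)) (.node (.node .leaf (nat_lit 24196867070887937) (.br (nat_lit 6) (.cons (.br (nat_lit 2) (.cons (.rel (nat_lit 34493960208)) (.cons (.rel (nat_lit 34493960208)) (.cons (.rel (nat_lit 17314119681)) .nil)))) .nil)) .leaf) (nat_lit 24196875299784158) (.br (nat_lit 2) (.cons (.br (nat_lit 3) (.cons (.rel (nat_lit 335544705)) .nil)) .nil)) (.node .leaf (nat_lit 24196875657956759) (.br (nat_lit 4) (.cons (.br (nat_lit 6) (.cons (.rel (nat_lit 19327377408)) .nil)) .nil)) .leaf))) (nat_lit 24196875658954753) (.br (nat_lit 5) (.cons (.br (nat_lit 0) (.cons (.rel (nat_lit 4299186192)) (.cons (.rel (nat_lit 4300734465)) (.cons (.rel (nat_lit 4299186192)) (.cons (.rel (nat_lit 4299232272)) .nil))))) (.cons (.br (nat_lit 0) (.cons (.rel (nat_lit 4299165768)) (.cons (.rel (nat_lit 4299161937)) (.cons (.rel (nat_lit 4299161937)) (.cons (.rel (nat_lit 8594133504))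 .nil))))) (.cons (.br (nat_lit 0) (.cons (.rel (nat_lit 8594129922)) (.cons (.rel (nat_lit 4300243968)) (.cons (.rel (nat_lit 4300734465)) (.cons (.rel (nat_lit 4299232272)) .nil))))) .nil)))) (.node (.node (.node .leaf (nat_lit 24196875658954757) (.br (nat_lit 4) (.cons (.br (nat_lit 3) (.cons (.rel (nat_lit 1342182402)) (.cons (.rel (nat_lit 2415919140)) .nil))) .nil)) .leaf) (nat_lit 24196875658955008) (.br (nat_lit 6) (.cons (.br (nat_lit 0) (.cons (.rel (nat_lit 17184165888)) (.cons (.rel (nat_lit 17184211968)) .nil))) .nil)) (.node .leaf (nat_lit 24196875658955063) (.br (nat_lit 1) (.cons (.br (nat_lit 3) (.cons (.rel (nat_lit 285214080)) .nil)) .nil)) .leaf)) (nat_lit 24196875658956028) (.br (nat_lit 1) (.cons (.br (nat_lit 4) (.cons (.rel (nat_lit 2181300240)) .nil)) .nil)) (.node (.node .leaf (nat_lit 24196875658956182) (.br (nat_lit 3) (.cons (.br (nat_lit 4) (.cons (.rel (nat_lit 1342185984)) .nil)) .nil)) .leaf) (nat_lit 24196875658956183) (.br (nat_lit 3) (.cons (.br (nat_lit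 4) (.cons (.rel (nat_lit 1342179585)) (.cons (.rel (nat_lit 1342185984)) (.cons (.rel (nat_lit 1342185984)) .nil)))) (.cons (.br (nat_lit 4) (.cons (.rel (nat_lit 1610612760)) (.cons (.rel (nat_lit 1342178580)) (.cons (.rel (nat_lit 2415920145)) .nil)))) .nil))) (.node .leaf (nat_lit 24196875660492805) (.br (nat_lit 1) (.cons (.br (nat_lit 3) (.cons (.rel (nat_lit 285247488)) .nil)) .nil)) .leaf)))) (nat_lit 24196877816366482) (.br (nat_lit 0) (.cons (.br (nat_lit 2) (.cons (.rel (nat_lit 142622784)) .nil)) .nil)) (.node (.node (.node (.node (.node .leaf (nat_lit 24196877831604225) (.br (nat_lit 0) (.cons (.br (nat_lit 1) (.cons (.rel (nat_lit 37754376)) .nil)) .nil)) .leaf) (nat_lit 24196877831605654) (.br (nat_lit 3) (.cons (.br (nat_lit 2) (.cons (.rel (nat_lit 336068610)) (.cons (.rel (nat_lit 335578113)) (.cons (.rel (nat_lit 671350785)) .nil)))) .nil)) .leaf) (nat_lit 24196881589700609) (.br (nat_lit 5) (.cons (.br (nat_lit 2) (.cons (.rel (nat_lit 4362077505)) (.cons (.rel (nat_lit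 4362076500)) (.cons (.rel (nat_lit 4362080322)) .nil)))) .nil)) (.node .leaf (nat_lit 24196881589702038) (.br (nat_lit 1) (.cons (.br (nat_lit 3) (.cons (.rel (nat_lit 285216897)) .nil)) .nil)) .leaf)) (nat_lit 24197253616077426) (.br (nat_lit 0) (.cons (.br (nat_lit 1) (.cons (.rel (nat_lit 20977728)) .nil)) .nil)) (.node (.node .leaf (nat_lit 24197256405290246) (.br (nat_lit 1) (.cons (.br (nat_lit 2) (.cons (.rel (nat_lit 83886405)) .nil)) .nil)) .leaf) (nat_lit 24200096883218433) (.br (nat_lit 6) (.cons (.br (nat_lit 1) (.cons (.br (nat_lit 2) (.cons (.rel (nat_lit 83886405)) (.cons (.rel (nat_lit 83956740)) .nil))) (.cons (.rel (nat_lit 17197711368)) .nil))) .nil)) (.node .leaf (nat_lit 24201333833799681) (.br (nat_lit 1) (.cons (.br (nat_lit 3) (.cons (.rel (nat_lit 570442752)) .nil)) .nil)) .leaf))) (nat_lit 24201333835012097) (.br (nat_lit 1) (.cons (.br (nat_lit 0) (.cons (.rel (nat_lit 42205248)) (.cons (.rel (nat_lit 20977728)) .nil))) .nil)) (.node (.node (.node .leaf (nat_lit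 24201333835013527) (.br (nat_lit 1) (.cons (.br (nat_lit 3) (.cons (.rel (nat_lit 285214080)) (.cons (.rel (nat_lit 570442752)) .nil))) .nil)) .leaf) (nat_lit 24201333836875777) (.br (nat_lit 1) (.cons (.br (nat_lit 5) (.cons (.rel (nat_lit 4311814146)) (.cons (.rel (nat_lit 4311777408)) (.cons (.rel (nat_lit 4311765249)) (.cons (.rel (nat_lit 4328521746)) .nil))))) (.cons (.br (nat_lit 3) (.cons (.rel (nat_lit 285348864)) (.cons (.rel (nat_lit 285216897)) (.cons (.rel (nat_lit 570442752)) .nil)))) .nil))) (.node .leaf (nat_lit 24201333836876086) (.br (nat_lit 0) (.cons (.br (nat_lit 1) (.cons (.rel (nat_lit 23068944)) .nil)) .nil)) .leaf)) (nat_lit 24201333836877207) (.br (nat_lit 1) (.cons (.br (nat_lit 4) (.cons (.rel (nat_lit 2181300240)) (.cons (.rel (nat_lit 1090551813)) (.cons (.rel (nat_lit 2164327488)) (.cons (.rel (nat_lit 1090520472)) (.cons (.rel (nat_lit 1092616512)) (.cons (.rel (nat_lit 2164391937)) .nil))))))) (.cons (.br (nat_lit 3) (.cons (.rel (nat_lit 285214080))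 (.cons (.rel (nat_lit 285247488)) .nil))) .nil))) (.node (.node .leaf (nat_lit 24201339767621633) (.br (nat_lit 1) (.cons (.br (nat_lit 3) (.cons (.rel (nat_lit 285491202)) (.cons (.rel (nat_lit 285302784)) .nil))) (.cons (.br (nat_lit 3) (.cons (.rel (nat_lit 285214080)) (.cons (.rel (nat_lit 285540864)) .nil))) .nil))) .leaf) (nat_lit 24201600124876183) (.br (nat_lit 1) (.cons (.br (nat_lit 6) (.cons (.rel (nat_lit 17196651780)) .nil)) .nil)) (.node .leaf (nat_lit 24202678561677622) (.br (nat_lit 1) (.cons (.br (nat_lit 3) (.cons (.rel (nat_lit 301989960)) .nil)) .nil)) .leaf))))))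

/-- refutations 46 -/
def e46 : EX := (.node (.node (.node .leaf (nat_lit 24277664098727294) (.br (nat_lit 1) (.cons (.br (nat_lit 2) (.cons (.rel (nat_lit 83890272)) .nil)) .nil)) .leaf) (nat_lit 24277667117325794) (.br (nat_lit 0) (.cons (.br (nat_lit 1) (.cons (.rel (nat_lit 21069888)) .nil)) .nil)) .leaf) (nat_lit 24282674013655041) (.br (nat_lit 0) (.cons (.br (nat_lit 1) (.cons (.rel (nat_lit 20977728)) .nil)) .nil)) (.node .leaf (nat_lit 24282891345713454) (.br (nat_lit 1) (.cons (.br (nat_lit 2) (.cons (.rel (nat_lit 150995970)) .nil)) .nil)) .leaf))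

/-- refutations 47 -/
def e47 : EX := (.node (.node (.node (.node .leaf (nat_lit 24383214452777865) (.br (nat_lit 0) (.cons (.br (nat_lit 1) (.cons (.rel (nat_lit 25165848)) .nil)) .nil)) .leaf) (nat_lit 24383217082505217) (.br (nat_lit 4) (.cons (.br (nat_lit 5) (.cons (.rel (nat_lit 10737680385)) .nil)) .nil)) (.node .leaf (nat_lit 24383890242861057) (.br (nat_lit 4) (.cons (.br (nat_lit 2) (.cons (.rel (nat_lit 2215650564)) (.cons (.rel (nat_lit 1207961664)) .nil))) .nil)) .leaf)) (nat_lit 24383890242861807) (.br (nat_lit 2) (.cons (.br (nat_lit 4) (.cons (.rel (nat_lit 2281717776)) .nil)) .nil)) (.node (.node .leaf (nat_lit 24383890242862557) (.br (nat_lit 3) (.cons (.br (nat_lit 4) (.cons (.rel (nat_lit 2684358912)) .nil)) .nil)) .leaf) (nat_lit 24383891813292783) (.br (nat_lit 2) (.cons (.br (nat_lit 3) (.cons (.rel (nat_lit 335544705)) .nil)) .nil)) .leaf)) (nat_lit 24383891815725057) (.br (nat_lit 1) (.cons (.br (nat_lit 0) (.cons (.rel (nat_lit 20977728)) (.cons (.rel (nat_lit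 20993280)) .nil))) .nil)) (.node (.node (.node .leaf (nat_lit 24383891815725807) (.br (nat_lit 0) (.cons (.br (nat_lit 6) (.cons (.rel (nat_lit 17184067842)) .nil)) .nil)) .leaf) (nat_lit 24383891815726557) (.br (nat_lit 2) (.cons (.br (nat_lit 4) (.cons (.rel (nat_lit 2215641093)) .nil)) .nil)) (.node .leaf (nat_lit 24390389705443329) (.br (nat_lit 2) (.cons (.br (nat_lit 3) (.cons (.rel (nat_lit 402653265)) .nil)) .nil)) .leaf)) (nat_lit 24390561476581377) (.br (nat_lit 4) (.cons (.br (nat_lit 5) (.cons (.rel (nat_lit 5368741908)) (.cons (.rel (nat_lit 5368741908)) .nil))) (.cons (.br (nat_lit 5) (.cons (.rel (nat_lit 5368741908)) (.cons (.rel (nat_lit 5369044992)) .nil))) .nil))) (.node (.node .leaf (nat_lit 24390767633206028) (.br (nat_lit 1) (.cons (.br (nat_lit 2) (.cons (.rel (nat_lit 83890272)) .nil)) .nil)) .leaf) (nat_lit 24394630493995014) (.br (nat_lit 1) (.cons (.br (nat_lit 2) (.cons (.rel (nat_lit 83890272)) .nil)) .nil)) .leaf)))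

/-- refutations 48 -/
def e48 : EX := (.node .leaf (nat_lit 24664692149685625) (.br (nat_lit 3) (.cons (.br (nat_lit 4) (.cons (.rel (nat_lit 1342185984)) .nil)) .nil)) .leaf)

/-- refutations 49 -/
def e49 : EX := (.node (.node (.node (.node (.node .leaf (nat_lit 24717468706655135) (.br (nat_lit 3) (.cons (.br (nat_lit 4) (.cons (.rel (nat_lit 1342182402)) .nil)) .nil)) .leaf) (nat_lit 24717468706819574) (.br (nat_lit 0) (.cons (.br (nat_lit 1) (.cons (.rel (nat_lit 21495936)) .nil)) .nil)) .leaf) (nat_lit 24717468707817783) (.br (nat_lit 4) (.cons (.br (nat_lit 3) (.cons (.rel (nat_lit 1342182402)) (.cons (.rel (nat_lit 1342179585)) .nil))) .nil)) (.node (.node .leaf (nat_lit 24717468707818357) (.br (nat_lit 4) (.cons (.br (nat_lit 3) (.cons (.rel (nat_lit 1342210113)) (.cons (.rel (nat_lit 1342185984)) (.cons (.rel (nat_lit 1342178580)) (.cons (.rel (nat_lit 1342179585)) .nil))))) .nil)) .leaf) (nat_lit 24717468707818399) (.br (nat_lit 3) (.cons (.br (nat_lit 4) (.cons (.rel (nat_lit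 1342179585)) .nil)) .nil)) .leaf)) (nat_lit 24717468707818729) (.br (nat_lit 3) (.cons (.br (nat_lit 1) (.cons (.rel (nat_lit 285247488)) (.cons (.rel (nat_lit 570442752)) .nil))) .nil)) (.node (.node (.node .leaf (nat_lit 24717468707818858) (.br (nat_lit 2) (.cons (.br (nat_lit 4) (.cons (.rel (nat_lit 1141129221)) .nil)) .nil)) .leaf) (nat_lit 24717468707818873) (.br (nat_lit 3) (.cons (.br (nat_lit 2) (.cons (.rel (nat_lit 335577108)) (.cons (.rel (nat_lit 335568960)) (.cons (.rel (nat_lit 335544705)) (.cons (.rel (nat_lit 335679489)) .nil))))) .nil)) .leaf) (nat_lit 24717468707818903) (.br (nat_lit 3) (.cons (.br (nat_lit 4) (.cons (.rel (nat_lit 1342179585)) .nil)) .nil)) (.node .leaf (nat_lit 24717468707818998) (.br (nat_lit 1) (.cons (.br (nat_lit 2) (.cons (.rel (nat_lit 83886405)) .nil)) .nil)) .leaf))) (nat_lit 24717468709624735) (.br (nat_lit 3) (.cons (.br (nat_lit 1) (.cons (.rel (nat_lit 570442752)) (.cons (.rel (nat_lit 285216897)) .nil))) .nil)) (.node (.node (.node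 (.node .leaf (nat_lit 24722399330273440) (.br (nat_lit 0) (.cons (.br (nat_lit 1) (.cons (.rel (nat_lit 25166853)) .nil)) .nil)) .leaf) (nat_lit 24722476641552635) (.br (nat_lit 0) (.cons (.br (nat_lit 1) (.cons (.rel (nat_lit 21069888)) .nil)) .nil)) .leaf) (nat_lit 24724804528737183) (.br (nat_lit 0) (.cons (.br (nat_lit 3) (.cons (.rel (nat_lit 541131840)) .nil)) .nil)) (.node .leaf (nat_lit 24725010670389554) (.br (nat_lit 2) (.cons (.br (nat_lit 3) (.cons (.rel (nat_lit 335615040)) .nil)) .nil)) .leaf)) (nat_lit 24725019260324000) (.br (nat_lit 1) (.cons (.br (nat_lit 2) (.cons (.rel (nat_lit 83910660)) .nil)) .nil)) (.node (.node (.node .leaf (nat_lit 24725019260324767) (.br (nat_lit 3) (.cons (.br (nat_lit 1) (.cons (.rel (nat_lit 553648260)) (.cons (.rel (nat_lit 285214080)) .nil))) .nil)) .leaf) (nat_lit 24728243753159912) (.br (nat_lit 0) (.cons (.br (nat_lit 2) (.cons (.rel (nat_lit 71307348)) .nil)) .nil)) .leaf) (nat_lit 24729108068242335) (.br (nat_lit 0) (.cons (.br (nat_lit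 1) (.cons (.rel (nat_lit 20977728)) .nil)) .nil)) (.node .leaf (nat_lit 24729357176294303) (.br (nat_lit 1) (.cons (.br (nat_lit 2) (.cons (.rel (nat_lit 83910660)) .nil)) .nil)) .leaf))))

/-- refutations 50 -/
def e50 : EX := (.node (.node (.node (.node (.node (.node .leaf (nat_lit 24840605436975105) (.br (nat_lit 0) (.cons (.br (nat_lit 1) (.cons (.rel (nat_lit 20971842)) (.cons (.rel (nat_lit 20971842)) .nil))) .nil)) .leaf) (nat_lit 24840605438877697) (.br (nat_lit 0) (.cons (.br (nat_lit 4) (.cons (.rel (nat_lit 1078026240)) (.cons (.rel (nat_lit 1077970944)) .nil))) .nil)) (.node .leaf (nat_lit 24840614025907437) (.br (nat_lit 0) (.cons (.br (nat_lit 2) (.cons (.rel (nat_lit 71307348)) .nil)) .nil)) .leaf)) (nat_lit 24840614026905601) (.br (nat_lit 3) (.cons (.br (nat_lit 4) (.cons (.rel (nat_lit 1610612760)) (.cons (.rel (nat_lit 1342179585)) (.cons (.rel (nat_lit 1342210113)) (.cons (.rel (nat_lit 1610612760)) (.cons (.rel (nat_lit 1342178580)) .nil)))))) (.cons (.br (nat_lit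 0) (.cons (.rel (nat_lit 273680640)) (.cons (.rel (nat_lit 273154056)) (.cons (.rel (nat_lit 276889602)) (.cons (.rel (nat_lit 272699472)) (.cons (.rel (nat_lit 273680640)) (.cons (.rel (nat_lit 272699472)) .nil))))))) (.cons (.br (nat_lit 4) (.cons (.rel (nat_lit 1342178580)) (.cons (.rel (nat_lit 1342178580)) (.cons (.rel (nat_lit 1342181397)) (.cons (.rel (nat_lit 1342179585)) (.cons (.rel (nat_lit 1342178580)) .nil)))))) .nil)))) (.node (.node .leaf (nat_lit 24840614026905910) (.br (nat_lit 4) (.cons (.br (nat_lit 0) (.cons (.rel (nat_lit 1077940353)) (.cons (.rel (nat_lit 1078026240)) (.cons (.rel (nat_lit 1078026240)) .nil)))) (.cons (.br (nat_lit 0) (.cons (.rel (nat_lit 1078988832)) (.cons (.rel (nat_lit 1078984965)) (.cons (.rel (nat_lit 1077937536)) .nil)))) .nil))) .leaf) (nat_lit 24840614026906231) (.br (nat_lit 0) (.cons (.br (nat_lit 3) (.cons (.rel (nat_lit 273154056)) .nil)) .nil)) (.node .leaf (nat_lit 24840614026906257) (.br (nat_lit 5) (.cons (.br (nat_lit 4) (.cons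 (.rel (nat_lit 5369233410)) (.cons (.rel (nat_lit 5368709505)) .nil))) .nil)) .leaf))) (nat_lit 24840614026906381) (.br (nat_lit 3) (.cons (.br (nat_lit 4) (.cons (.rel (nat_lit 1342182402)) (.cons (.rel (nat_lit 1342182402)) .nil))) (.cons (.br (nat_lit 4) (.cons (.rel (nat_lit 1342185984)) (.cons (.rel (nat_lit 1342179585)) .nil))) .nil))) (.node (.node (.node .leaf (nat_lit 24840614026906412) (.br (nat_lit 2) (.cons (.br (nat_lit 0) (.cons (.rel (nat_lit 71305536)) (.cons (.rel (nat_lit 71308353)) (.cons (.rel (nat_lit 71647296)) .nil)))) (.cons (.br (nat_lit 0) (.cons (.rel (nat_lit 75497478)) (.cons (.rel (nat_lit 71647296)) (.cons (.rel (nat_lit 71336064)) .nil)))) .nil))) .leaf) (nat_lit 24840614026906510) (.br (nat_lit 4) (.cons (.br (nat_lit 3) (.cons (.rel (nat_lit 1342179585)) (.cons (.rel (nat_lit 1342521345)) .nil))) .nil)) (.node .leaf (nat_lit 24840614026906856) (.br (nat_lit 4) (.cons (.br (nat_lit 3) (.cons (.rel (nat_lit 1342181397)) (.cons (.rel (nat_lit 1342179585))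 .nil))) .nil)) .leaf)) (nat_lit 24840614026906861) (.br (nat_lit 0) (.cons (.br (nat_lit 3) (.cons (.rel (nat_lit 545521668)) .nil)) .nil)) (.node (.node .leaf (nat_lit 24840614026906900) (.br (nat_lit 1) (.cons (.br (nat_lit 3) (.cons (.rel (nat_lit 555810816)) (.cons (.rel (nat_lit 285216897)) .nil))) (.cons (.br (nat_lit 3) (.cons (.rel (nat_lit 570442752)) (.cons (.rel (nat_lit 286261509)) .nil))) .nil))) .leaf) (nat_lit 24840614026906905) (.br (nat_lit 0) (.cons (.br (nat_lit 4) (.cons (.rel (nat_lit 1077970944)) (.cons (.rel (nat_lit 1078984965)) .nil))) (.cons (.br (nat_lit 4) (.cons (.rel (nat_lit 1077940353)) (.cons (.rel (nat_lit 1077940353)) .nil))) .nil))) .leaf))) (nat_lit 24840614026906910) (.br (nat_lit 3) (.cons (.br (nat_lit 4) (.cons (.rel (nat_lit 1342185984)) (.cons (.rel (nat_lit 1342185984)) .nil))) .nil)) (.node (.node (.node (.node .leaf (nat_lit 24840614026906911) (.br (nat_lit 4) (.cons (.br (nat_lit 0) (.cons (.rel (nat_lit 1077970944)) (.cons (.rel (nat_lit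 1078214658)) (.cons (.rel (nat_lit 1078214658)) .nil)))) .nil)) .leaf) (nat_lit 24840614027216897) (.br (nat_lit 4) (.cons (.br (nat_lit 0) (.cons (.rel (nat_lit 1078026240)) (.cons (.rel (nat_lit 1078026240)) .nil))) .nil)) (.node .leaf (nat_lit 24840614027491329) (.br (nat_lit 0) (.cons (.br (nat_lit 5) (.cons (.rel (nat_lit 4303357953)) .nil)) .nil)) .leaf)) (nat_lit 24840614028259329) (.br (nat_lit 0) (.cons (.br (nat_lit 5) (.cons (.rel (nat_lit 4303357953)) .nil)) .nil)) (.node (.node .leaf (nat_lit 24840614028503041) (.br (nat_lit 1) (.cons (.br (nat_lit 0) (.cons (.rel (nat_lit 39063552)) (.cons (.rel (nat_lit 20971842)) (.cons (.rel (nat_lit 21234177)) .nil)))) (.cons (.br (nat_lit 3) (.cons (.rel (nat_lit 285736980)) (.cons (.rel (nat_lit 285491202)) .nil))) .nil))) .leaf) (nat_lit 24840614028712246) (.br (nat_lit 0) (.cons (.br (nat_lit 3) (.cons (.rel (nat_lit 272662545)) (.cons (.rel (nat_lit 276889602)) .nil))) .nil)) (.node .leaf (nat_lit 24840614571449602) (.br (nat_lit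 0) (.cons (.br (nat_lit 3) (.cons (.rel (nat_lit 545521668)) .nil)) .nil)) .leaf))) (nat_lit 24842534798778369) (.br (nat_lit 0) (.cons (.br (nat_lit 3) (.cons (.rel (nat_lit 276824148)) .nil)) .nil)) (.node (.node (.node .leaf (nat_lit 24842534798779770) (.br (nat_lit 0) (.cons (.br (nat_lit 2) (.cons (.rel (nat_lit 142622784)) .nil)) .nil)) .leaf) (nat_lit 24842534798779894) (.br (nat_lit 2) (.cons (.br (nat_lit 3) (.cons (.rel (nat_lit 335676672)) .nil)) .nil)) (.node .leaf (nat_lit 24842615481665537) (.br (nat_lit 0) (.cons (.br (nat_lit 3) (.cons (.rel (nat_lit 273154056)) (.cons (.rel (nat_lit 273683457)) .nil))) .nil)) .leaf)) (nat_lit 24842621332719617) (.br (nat_lit 0) (.cons (.br (nat_lit 1) (.cons (.rel (nat_lit 20993280)) .nil)) .nil)) (.node (.node .leaf (nat_lit 24842830230030492) (.br (nat_lit 2) (.cons (.br (nat_lit 3) (.cons (.rel (nat_lit 335824896)) .nil)) .nil)) .leaf) (nat_lit 24845621960126465) (.br (nat_lit 0) (.cons (.br (nat_lit 5) (.cons (.rel (nat_lit 4299165768))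 .nil)) .nil)) .leaf)))) (nat_lit 24846669305841814) (.br (nat_lit 3) (.cons (.br (nat_lit 4) (.cons (.rel (nat_lit 1342178580)) .nil)) .nil)) (.node (.node (.node (.node (.node .leaf (nat_lit 24846669306153110) (.br (nat_lit 3) (.cons (.br (nat_lit 4) (.cons (.rel (nat_lit 1342185984)) .nil)) .nil)) .leaf) (nat_lit 24846669306458262) (.br (nat_lit 0) (.cons (.br (nat_lit 2) (.cons (.rel (nat_lit 71323905)) .nil)) .nil)) (.node .leaf (nat_lit 24846669929537537) (.br (nat_lit 3) (.cons (.br (nat_lit 4) (.cons (.rel (nat_lit 1342182402)) .nil)) .nil)) .leaf)) (nat_lit 24846669929538797) (.br (nat_lit 0) (.cons (.br (nat_lit 2) (.cons (.rel (nat_lit 71336064)) .nil)) .nil)) (.node (.node .leaf (nat_lit 24846669931409409) (.br (nat_lit 4) (.cons (.br (nat_lit 5) (.cons (.rel (nat_lit 5368742913)) .nil)) .nil)) .leaf) (nat_lit 24846669932390401) (.br (nat_lit 3) (.cons (.br (nat_lit 1) (.cons (.rel (nat_lit 285491202)) (.cons (.rel (nat_lit 286265376)) (.cons (.rel (nat_lit 285216897)) .nil))))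 .nil)) (.node .leaf (nat_lit 24846827596322194) (.br (nat_lit 0) (.cons (.br (nat_lit 2) (.cons (.rel (nat_lit 75498528)) .nil)) .nil)) .leaf))) (nat_lit 24847941241116673) (.br (nat_lit 3) (.cons (.br (nat_lit 5) (.cons (.rel (nat_lit 4563435528)) (.cons (.rel (nat_lit 4563435528)) .nil))) (.cons (.br (nat_lit 4) (.cons (.rel (nat_lit 1342179585)) (.cons (.rel (nat_lit 1342210113)) (.cons (.rel (nat_lit 1342182402)) .nil)))) .nil))) (.node (.node (.node .leaf (nat_lit 24847941243019265) (.br (nat_lit 0) (.cons (.br (nat_lit 3) (.cons (.rel (nat_lit 273154056)) (.cons (.rel (nat_lit 545521668)) .nil))) (.cons (.br (nat_lit 3) (.cons (.rel (nat_lit 272699472)) (.cons (.rel (nat_lit 272662545)) .nil))) .nil))) .leaf) (nat_lit 24847949829792375) (.br (nat_lit 3) (.cons (.br (nat_lit 4) (.cons (.rel (nat_lit 1342185984)) .nil)) .nil)) (.node .leaf (nat_lit 24847949830049054) (.br (nat_lit 2) (.cons (.br (nat_lit 3) (.cons (.rel (nat_lit 605028369)) .nil)) .nil)) .leaf)) (nat_lit 24847949831047169)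 (.br (nat_lit 0) (.cons (.br (nat_lit 3) (.cons (.rel (nat_lit 272636040)) (.cons (.rel (nat_lit 272662545)) (.cons (.rel (nat_lit 272654409)) (.cons (.rel (nat_lit 272909328)) (.cons (.rel (nat_lit 272662545)) .nil)))))) (.cons (.br (nat_lit 3) (.cons (.rel (nat_lit 272699472)) (.cons (.rel (nat_lit 272909328)) (.cons (.rel (nat_lit 272662545)) (.cons (.rel (nat_lit 272662545)) (.cons (.rel (nat_lit 273682452)) .nil)))))) (.cons (.br (nat_lit 2) (.cons (.rel (nat_lit 142622784)) (.cons (.rel (nat_lit 71323905)) (.cons (.rel (nat_lit 139527168)) (.cons (.rel (nat_lit 71307348)) (.cons (.rel (nat_lit 71336064)) (.cons (.rel (nat_lit 142622784)) (.cons (.rel (nat_lit 71305536)) (.cons (.rel (nat_lit 138412041)) (.cons (.rel (nat_lit 139527168)) (.cons (.rel (nat_lit 138412041)) .nil))))))))))) (.cons (.br (nat_lit 4) (.cons (.rel (nat_lit 1077970944)) (.cons (.rel (nat_lit 1077940353)) (.cons (.rel (nat_lit 1078988832)) (.cons (.rel (nat_lit 1077940353)) (.cons (.rel (nat_lit 2155877697))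 .nil)))))) .nil))))) (.node (.node .leaf (nat_lit 24847949831047478) (.br (nat_lit 0) (.cons (.br (nat_lit 3) (.cons (.rel (nat_lit 545521668)) (.cons (.rel (nat_lit 272662545)) .nil))) .nil)) .leaf) (nat_lit 24847949831047949) (.br (nat_lit 4) (.cons (.br (nat_lit 3) (.cons (.rel (nat_lit 1342178580)) (.cons (.rel (nat_lit 1342210113)) .nil))) .nil)) .leaf))) (nat_lit 24847949831048078) (.br (nat_lit 4) (.cons (.br (nat_lit 6) (.cons (.rel (nat_lit 18253629444)) .nil)) .nil)) (.node (.node (.node (.node .leaf (nat_lit 24847949831048095) (.br (nat_lit 3) (.cons (.br (nat_lit 4) (.cons (.rel (nat_lit 1342179585)) (.cons (.rel (nat_lit 1342185984)) .nil))) .nil)) .leaf) (nat_lit 24847949831048424) (.br (nat_lit 4) (.cons (.br (nat_lit 3) (.cons (.rel (nat_lit 1342179585)) (.cons (.rel (nat_lit 1342181397)) .nil))) .nil)) (.node .leaf (nat_lit 24847949831048429) (.br (nat_lit 0) (.cons (.br (nat_lit 3) (.cons (.rel (nat_lit 272908326)) (.cons (.rel (nat_lit 272662545)) .nil))) (.cons (.br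 (nat_lit 3) (.cons (.rel (nat_lit 272909328)) (.cons (.rel (nat_lit 273711168)) .nil))) .nil))) .leaf)) (nat_lit 24847949831048479) (.br (nat_lit 4) (.cons (.br (nat_lit 1) (.cons (.rel (nat_lit 1091571720)) (.cons (.rel (nat_lit 1090798596)) .nil))) .nil)) (.node (.node .leaf (nat_lit 24847949831358465) (.br (nat_lit 0) (.cons (.br (nat_lit 4) (.cons (.rel (nat_lit 1078214658)) .nil)) .nil)) .leaf) (nat_lit 24847949831664247) (.br (nat_lit 0) (.cons (.br (nat_lit 5) (.cons (.rel (nat_lit 4300734465)) .nil)) .nil)) (.node .leaf (nat_lit 24847951844314650) (.br (nat_lit 0) (.cons (.br (nat_lit 2) (.cons (.rel (nat_lit 71308353)) .nil)) .nil)) .leaf))) (nat_lit 24847955682101249) (.br (nat_lit 5) (.cons (.br (nat_lit 0) (.cons (.rel (nat_lit 4299227400)) (.cons (.rel (nat_lit 4299227400)) .nil))) .nil)) (.node (.node (.node .leaf (nat_lit 24847958420984118) (.br (nat_lit 5) (.cons (.br (nat_lit 0) (.cons (.rel (nat_lit 4300210560)) (.cons (.rel (nat_lit 4299186192)) .nil))) .nil)) .leaf)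 (nat_lit 24847964272039143) (.br (nat_lit 0) (.cons (.br (nat_lit 3) (.cons (.rel (nat_lit 274022400)) .nil)) .nil)) (.node .leaf (nat_lit 24853160133191830) (.br (nat_lit 0) (.cons (.br (nat_lit 3) (.cons (.rel (nat_lit 545521668)) .nil)) .nil)) .leaf)) (nat_lit 24853370079775501) (.br (nat_lit 0) (.cons (.br (nat_lit 4) (.cons (.rel (nat_lit 1084227585)) .nil)) .nil)) (.node (.node .leaf (nat_lit 24853372726381325) (.br (nat_lit 0) (.cons (.br (nat_lit 4) (.cons (.rel (nat_lit 1084227585)) .nil)) .nil)) .leaf) (nat_lit 24853372726382106) (.br (nat_lit 0) (.cons (.br (nat_lit 1) (.cons (.rel (nat_lit 21495936)) (.cons (.rel (nat_lit 23068944)) (.cons (.rel (nat_lit 21495936)) .nil)))) .nil)) .leaf)))))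

/-- refutations 51 -/
def e51 : EX := (.node (.node (.node (.node (.node (.node .leaf (nat_lit 26388322582640950) (.br (nat_lit 3) (.cons (.br (nat_lit 5) (.cons (.rel (nat_lit 4563435528)) .nil)) .nil)) .leaf) (nat_lit 26388323170009243) (.br (nat_lit 0) (.cons (.br (nat_lit 1) (.cons (.rel (nat_lit 37748772)) .nil)) .nil)) .leaf) (nat_lit 26388323170010598) (.br (nat_lit 2) (.cons (.br (nat_lit 5) (.cons (.rel (nat_lit 4362077505)) .nil)) .nil)) (.node (.node .leaf (nat_lit 26388512304814717) (.br (nat_lit 0) (.cons (.br (nat_lit 2) (.cons (.rel (nat_lit 71305536)) .nil)) .nil)) .leaf) (nat_lit 26388513661379815) (.br (nat_lit 0) (.cons (.br (nat_lit 3) (.cons (.rel (nat_lit 272699472)) .nil)) .nil)) .leaf)) (nat_lit 26388516266041656) (.br (nat_lit 0) (.cons (.br (nat_lit 1) (.cons (.rel (nat_lit 20971842)) (.cons (.br (nat_lit 4) (.cons (.rel (nat_lit 1107361794)) (.cons (.rel (nat_lit 1078001985)) .nil))) .nil))) .nil)) (.node (.node (.node .leaf (nat_lit 26388729108336094) (.br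 (nat_lit 1) (.cons (.br (nat_lit 3) (.cons (.rel (nat_lit 285247488)) .nil)) .nil)) .leaf) (nat_lit 26388731011832120) (.br (nat_lit 2) (.cons (.br (nat_lit 1) (.cons (.rel (nat_lit 83951904)) (.cons (.rel (nat_lit 151060608)) .nil))) .nil)) .leaf) (nat_lit 26388731013185848) (.br (nat_lit 0) (.cons (.br (nat_lit 3) (.cons (.rel (nat_lit 272699472)) (.cons (.rel (nat_lit 273683457)) .nil))) (.cons (.br (nat_lit 4) (.cons (.rel (nat_lit 1078001985)) (.cons (.rel (nat_lit 2155889664)) .nil))) .nil))) (.node (.node .leaf (nat_lit 26388731615832371) (.br (nat_lit 0) (.cons (.br (nat_lit 1) (.cons (.rel (nat_lit 37749777)) .nil)) .nil)) .leaf) (nat_lit 26388731658792960) (.br (nat_lit 2) (.cons (.br (nat_lit 4) (.cons (.rel (nat_lit 1207980033)) .nil)) .nil)) .leaf))) (nat_lit 26388731658793122) (.br (nat_lit 0) (.cons (.br (nat_lit 1) (.cons (.rel (nat_lit 20971842)) (.cons (.rel (nat_lit 21495936)) .nil))) (.cons (.br (nat_lit 1) (.cons (.rel (nat_lit 21069888)) (.cons (.rel (nat_lit 21495936))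 .nil))) .nil))) (.node (.node (.node (.node .leaf (nat_lit 26389654609868955) (.br (nat_lit 0) (.cons (.br (nat_lit 2) (.cons (.rel (nat_lit 71372802)) .nil)) .nil)) .leaf) (nat_lit 26389654612767995) (.br (nat_lit 0) (.cons (.br (nat_lit 4) (.cons (.rel (nat_lit 1077970944)) .nil)) .nil)) .leaf) (nat_lit 26389656856719360) (.br (nat_lit 4) (.cons (.br (nat_lit 5) (.cons (.rel (nat_lit 5368841472)) .nil)) .nil)) (.node (.node .leaf (nat_lit 26389656856720035) (.br (nat_lit 0) (.cons (.br (nat_lit 1) (.cons (.rel (nat_lit 25166853)) .nil)) .nil)) .leaf) (nat_lit 26389656856720635) (.br (nat_lit 0) (.cons (.br (nat_lit 4) (.cons (.rel (nat_lit 1077970944)) .nil)) .nil)) .leaf)) (nat_lit 26389829158369281) (.br (nat_lit 2) (.cons (.br (nat_lit 4) (.cons (.rel (nat_lit 1141129221)) .nil)) .nil)) (.node (.node (.node .leaf (nat_lit 26390515114866689) (.br (nat_lit 0) (.cons (.br (nat_lit 5) (.cons (.rel (nat_lit 4300243968)) .nil)) .nil)) .leaf) (nat_lit 26390515115816961) (.br (nat_lit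 5) (.cons (.br (nat_lit 6) (.cons (.rel (nat_lit 21474983937)) .nil)) .nil)) .leaf) (nat_lit 26390750881915192) (.br (nat_lit 1) (.cons (.br (nat_lit 3) (.cons (.rel (nat_lit 285247488)) .nil)) .nil)) (.node (.node .leaf (nat_lit 26390856280863995) (.br (nat_lit 0) (.cons (.br (nat_lit 1) (.cons (.rel (nat_lit 25166853)) .nil)) .nil)) .leaf) (nat_lit 26390858797445120) (.br (nat_lit 0) (.cons (.br (nat_lit 1) (.cons (.rel (nat_lit 42205248)) .nil)) .nil)) .leaf)))) (nat_lit 26390873794895254) (.br (nat_lit 2) (.cons (.br (nat_lit 3) (.cons (.rel (nat_lit 671350785)) .nil)) .nil)) (.node (.node (.node (.node (.node .leaf (nat_lit 26390873795990414) (.br (nat_lit 2) (.cons (.br (nat_lit 3) (.cons (.rel (nat_lit 335676672)) .nil)) .nil)) .leaf) (nat_lit 26390873795990934) (.br (nat_lit 2) (.cons (.br (nat_lit 4) (.cons (.rel (nat_lit 2214858816)) .nil)) .nil)) .leaf) (nat_lit 26390873801604348) (.br (nat_lit 0) (.cons (.br (nat_lit 5) (.cons (.rel (nat_lit 4300345344)) .nil)) .nil)) (.node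 (.node .leaf (nat_lit 26390873804064769) (.br (nat_lit 5) (.cons (.br (nat_lit 6) (.cons (.rel (nat_lit 21475184640)) .nil)) .nil)) .leaf) (nat_lit 26390875974253454) (.br (nat_lit 3) (.cons (.br (nat_lit 6) (.cons (.rel (nat_lit 17448312897)) .nil)) .nil)) .leaf)) (nat_lit 26393738945052673) (.br (nat_lit 0) (.cons (.br (nat_lit 6) (.cons (.rel (nat_lit 34368132096)) .nil)) .nil)) (.node (.node (.node .leaf (nat_lit 26393952326973441) (.br (nat_lit 0) (.cons (.br (nat_lit 3) (.cons (.rel (nat_lit 272662545)) .nil)) .nil)) .leaf) (nat_lit 26394810164746240) (.br (nat_lit 1) (.cons (.br (nat_lit 4) (.cons (.rel (nat_lit 1107312897)) .nil)) .nil)) .leaf) (nat_lit 26396013405255835) (.br (nat_lit 4) (.cons (.br (nat_lit 5) (.cons (.rel (nat_lit 5368742913)) .nil)) .nil)) (.node (.node .leaf (nat_lit 26399070689670506) (.br (nat_lit 0) (.cons (.br (nat_lit 1) (.cons (.rel (nat_lit 20996097)) .nil)) .nil)) .leaf) (nat_lit 26400371019100322) (.br (nat_lit 0) (.cons (.br (nat_lit 1) (.cons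 (.rel (nat_lit 20977728)) .nil)) .nil)) .leaf))) (nat_lit 26400609021494758) (.br (nat_lit 1) (.cons (.br (nat_lit 5) (.cons (.rel (nat_lit 4311748692)) .nil)) .nil)) (.node (.node (.node (.node .leaf (nat_lit 26400610887178395) (.br (nat_lit 4) (.cons (.br (nat_lit 5) (.cons (.rel (nat_lit 5369757984)) .nil)) .nil)) .leaf) (nat_lit 26401164628885504) (.br (nat_lit 2) (.cons (.br (nat_lit 3) (.cons (.rel (nat_lit 335824896)) .nil)) .nil)) .leaf) (nat_lit 26401165125121275) (.br (nat_lit 0) (.cons (.br (nat_lit 6) (.cons (.rel (nat_lit 17184591936)) .nil)) .nil)) (.node (.node .leaf (nat_lit 26401165125121510) (.br (nat_lit 1) (.cons (.br (nat_lit 3) (.cons (.rel (nat_lit 285247488)) .nil)) .nil)) .leaf) (nat_lit 26401166637957120) (.br (nat_lit 2) (.cons (.br (nat_lit 3) (.cons (.rel (nat_lit 335676672)) .nil)) .nil)) .leaf)) (nat_lit 26401169882593280) (.br (nat_lit 4) (.cons (.br (nat_lit 2) (.cons (.rel (nat_lit 1141129221)) (.cons (.rel (nat_lit 1141376004)) .nil))) .nil)) (.node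 (.node (.node .leaf (nat_lit 26401175223695671) (.br (nat_lit 0) (.cons (.br (nat_lit 1) (.cons (.rel (nat_lit 20996097)) .nil)) .nil)) .leaf) (nat_lit 26401177829579064) (.br (nat_lit 0) (.cons (.br (nat_lit 4) (.cons (.rel (nat_lit 1077937536)) .nil)) .nil)) .leaf) (nat_lit 26401272291190944) (.br (nat_lit 2) (.cons (.br (nat_lit 5) (.cons (.rel (nat_lit 4362240000)) (.cons (.rel (nat_lit 4362080322)) .nil))) .nil)) (.node .leaf (nat_lit 26401697701065979) (.br (nat_lit 3) (.cons (.br (nat_lit 6) (.cons (.rel (nat_lit 17448386688)) .nil)) .nil)) .leaf)))))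

/-- refutations 52 -/
def e52 : EX := (.node (.node (.node (.node (.node (.node .leaf (nat_lit 26564432884733952) (.br (nat_lit 4) (.cons (.br (nat_lit 0) (.cons (.rel (nat_lit 1078214658)) (.cons (.rel (nat_lit 1082196996)) .nil))) .nil)) .leaf) (nat_lit 26564432885245953) (.br (nat_lit 2) (.cons (.br (nat_lit 5) (.cons (.rel (nat_lit 4362147840)) .nil)) .nil)) .leaf) (nat_lit 26564433933311263) (.br (nat_lit 0) (.cons (.br (nat_lit 5) (.cons (.rel (nat_lit 4299186192)) (.cons (.rel (nat_lit 4299232272)) .nil))) .nil)) (.node .leaf (nat_lit 26564435627810079) (.br (nat_lit 0) (.cons (.br (nat_lit 2) (.cons (.rel (nat_lit 71305536)) .nil)) .nil)) .leaf)) (nat_lit 26564648259259679) (.br (nat_lit 0) (.cons (.br (nat_lit 1) (.cons (.rel (nat_lit 21495936)) .nil)) .nil)) (.node (.node .leaf (nat_lit 26564648681883805) (.br (nat_lit 4) (.cons (.br (nat_lit 6) (.cons (.rel (nat_lit 19327377408)) .nil)) .nil)) .leaf) (nat_lit 26564652852021550) (.br (nat_lit 4) (.cons (.br (nat_lit 6) (.cons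 (.rel (nat_lit 18253627425)) .nil)) .nil)) (.node .leaf (nat_lit 26564652852021879) (.br (nat_lit 3) (.cons (.br (nat_lit 4) (.cons (.rel (nat_lit 2684358912)) .nil)) .nil)) .leaf))) (nat_lit 26564653526597933) (.br (nat_lit 3) (.cons (.br (nat_lit 5) (.cons (.rel (nat_lit 4564452609)) .nil)) .nil)) (.node (.node (.node (.node .leaf (nat_lit 26565509372444055) (.br (nat_lit 2) (.cons (.br (nat_lit 4) (.cons (.rel (nat_lit 1140854916)) .nil)) .nil)) .leaf) (nat_lit 26565712782262273) (.br (nat_lit 4) (.cons (.br (nat_lit 0) (.cons (.rel (nat_lit 1078026240)) (.cons (.rel (nat_lit 1077953088)) (.cons (.rel (nat_lit 1077937536)) (.cons (.rel (nat_lit 2155889664)) .nil))))) (.cons (.br (nat_lit 0) (.cons (.rel (nat_lit 1077970944)) (.cons (.rel (nat_lit 1077937536)) (.cons (.rel (nat_lit 1077937536)) (.cons (.rel (nat_lit 1077970944)) .nil))))) .nil))) .leaf) (nat_lit 26565712782263053) (.br (nat_lit 1) (.cons (.br (nat_lit 2) (.cons (.rel (nat_lit 100958208)) .nil)) .nil)) (.node .leaf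 (nat_lit 26566354283327638) (.br (nat_lit 0) (.cons (.br (nat_lit 2) (.cons (.rel (nat_lit 71647296)) .nil)) .nil)) .leaf)) (nat_lit 26566401028776061) (.br (nat_lit 3) (.cons (.br (nat_lit 5) (.cons (.rel (nat_lit 8858436609)) (.cons (.rel (nat_lit 9126821892)) (.cons (.rel (nat_lit 4831839360)) .nil)))) .nil)) (.node (.node .leaf (nat_lit 26566401029539965) (.br (nat_lit 0) (.cons (.br (nat_lit 3) (.cons (.rel (nat_lit 272909328)) .nil)) .nil)) .leaf) (nat_lit 26566581417470077) (.br (nat_lit 5) (.cons (.br (nat_lit 2) (.cons (.rel (nat_lit 4429186065)) (.cons (.rel (nat_lit 8724234240)) (.cons (.rel (nat_lit 4362240000)) .nil)))) (.cons (.br (nat_lit 0) (.cons (.rel (nat_lit 4300345344)) (.cons (.rel (nat_lit 4299186192)) (.cons (.rel (nat_lit 4300210560)) .nil)))) .nil))) (.node .leaf (nat_lit 26566581417470113) (.br (nat_lit 0) (.cons (.br (nat_lit 5) (.cons (.rel (nat_lit 4299424272)) .nil)) .nil)) .leaf)))) (nat_lit 26566581417471263) (.br (nat_lit 5) (.cons (.br (nat_lit 4)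 (.cons (.rel (nat_lit 10737680385)) (.cons (.br (nat_lit 2) (.cons (.rel (nat_lit 4429186065)) (.cons (.rel (nat_lit 4429186065)) (.cons (.rel (nat_lit 1141904400)) (.cons (.rel (nat_lit 4362240000)) (.cons (.rel (nat_lit 1141904400)) (.cons (.rel (nat_lit 4362240000)) .nil))))))) (.cons (.rel (nat_lit 10737680385)) (.cons (.rel (nat_lit 6443501568)) (.cons (.rel (nat_lit 5368709505)) .nil)))))) .nil)) (.node (.node (.node (.node (.node .leaf (nat_lit 26566585792129149) (.br (nat_lit 0) (.cons (.br (nat_lit 2) (.cons (.rel (nat_lit 138412041)) .nil)) .nil)) .leaf) (nat_lit 26566586840246272) (.br (nat_lit 3) (.cons (.br (nat_lit 5) (.cons (.rel (nat_lit 4832166144)) .nil)) .nil)) .leaf) (nat_lit 26566586841917440) (.br (nat_lit 2) (.cons (.br (nat_lit 3) (.cons (.rel (nat_lit 335676672)) .nil)) .nil)) (.node .leaf (nat_lit 26569584145590429) (.br (nat_lit 0) (.cons (.br (nat_lit 1) (.cons (.rel (nat_lit 20977728)) .nil)) .nil)) .leaf)) (nat_lit 26569873057677619) (.br (nat_lit 0) (.cons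 (.br (nat_lit 2) (.cons (.rel (nat_lit 75497478)) .nil)) .nil)) (.node (.node .leaf (nat_lit 26571133030989825) (.br (nat_lit 5) (.cons (.br (nat_lit 0) (.cons (.rel (nat_lit 4303364352)) (.cons (.rel (nat_lit 4303356948)) .nil))) .nil)) .leaf) (nat_lit 26571133661421569) (.br (nat_lit 1) (.cons (.br (nat_lit 2) (.cons (.rel (nat_lit 83951904)) .nil)) .nil)) (.node .leaf (nat_lit 26571135678881942) (.br (nat_lit 1) (.cons (.br (nat_lit 3) (.cons (.rel (nat_lit 553648260)) .nil)) .nil)) .leaf))) (nat_lit 26571937160345907) (.br (nat_lit 0) (.cons (.br (nat_lit 1) (.cons (.rel (nat_lit 21234177)) .nil)) .nil)) (.node (.node (.node .leaf (nat_lit 26571980698872483) (.br (nat_lit 2) (.cons (.br (nat_lit 5) (.cons (.rel (nat_lit 4362147840)) .nil)) .nil)) .leaf) (nat_lit 26572199235390751) (.br (nat_lit 4) (.cons (.br (nat_lit 3) (.cons (.rel (nat_lit 1342185984)) (.cons (.rel (nat_lit 2415919140)) .nil))) .nil)) (.node .leaf (nat_lit 26572199237246239) (.br (nat_lit 2) (.cons (.br (nat_lit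 5) (.cons (.rel (nat_lit 4362240000)) .nil)) .nil)) .leaf)) (nat_lit 26576245220478209) (.br (nat_lit 0) (.cons (.br (nat_lit 1) (.cons (.rel (nat_lit 21069888)) .nil)) .nil)) (.node (.node .leaf (nat_lit 26576544693973294) (.br (nat_lit 0) (.cons (.br (nat_lit 5) (.cons (.rel (nat_lit 4299161937)) .nil)) .nil)) .leaf) (nat_lit 26576545743942568) (.br (nat_lit 0) (.cons (.br (nat_lit 3) (.cons (.rel (nat_lit 272909328)) .nil)) .nil)) (.node .leaf (nat_lit 26576545743942943) (.br (nat_lit 4) (.cons (.br (nat_lit 6) (.cons (.rel (nat_lit 18253874208)) (.cons (.rel (nat_lit 18255712512)) .nil))) (.cons (.br (nat_lit 5) (.cons (.rel (nat_lit 5368779840)) (.cons (.rel (nat_lit 9663741984)) .nil))) .nil))) .leaf)))))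

/-- refutations 53 -/
def e53 : EX := (.node (.node (.node (.node (.node .leaf (nat_lit 27040492281935883) (.br (nat_lit 0) (.cons (.br (nat_lit 1) (.cons (.rel (nat_lit 20971842)) .nil)) .nil)) .leaf) (nat_lit 27040493538633729) (.br (nat_lit 0) (.cons (.br (nat_lit 3) (.cons (.rel (nat_lit 272761104)) .nil)) .nil)) .leaf) (nat_lit 27040500866136065) (.br (nat_lit 0) (.cons (.br (nat_lit 3) (.cons (.rel (nat_lit 272631204)) .nil)) .nil)) (.node .leaf (nat_lit 27040502125969409) (.br (nat_lit 2) (.cons (.br (nat_lit 5) (.cons (.rel (nat_lit 8657044485)) (.cons (.rel (nat_lit 4362240000)) .nil))) (.cons (.br (nat_lit 5) (.cons (.rel (nat_lit 4362076500)) (.cons (.rel (nat_lit 4362080322)) .nil))) .nil))) .leaf)) (nat_lit 27041343201155073) (.br (nat_lit 1) (.cons (.br (nat_lit 0) (.cons (.rel (nat_lit 20971842)) (.cons (.rel (nat_lit 20971842)) .nil))) .nil)) (.node (.node (.node .leaf (nat_lit 27041343939352577) (.br (nat_lit 1) (.cons (.br (nat_lit 0) (.cons (.rel (nat_lit 21495936))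 (.cons (.rel (nat_lit 20993280)) .nil))) .nil)) .leaf) (nat_lit 27041343942158337) (.br (nat_lit 3) (.cons (.br (nat_lit 6) (.cons (.rel (nat_lit 17448322050)) .nil)) .nil)) .leaf) (nat_lit 27041615067552655) (.br (nat_lit 1) (.cons (.br (nat_lit 2) (.cons (.rel (nat_lit 100665345)) .nil)) .nil)) (.node .leaf (nat_lit 27041784766617601) (.br (nat_lit 3) (.cons (.br (nat_lit 4) (.cons (.rel (nat_lit 1342308672)) .nil)) .nil)) .leaf))) (nat_lit 27046127270946817) (.br (nat_lit 0) (.cons (.br (nat_lit 1) (.cons (.rel (nat_lit 21042177)) .nil)) .nil)) (.node (.node (.node (.node .leaf (nat_lit 27046761080103823) (.br (nat_lit 0) (.cons (.br (nat_lit 1) (.cons (.rel (nat_lit 38813952)) .nil)) .nil)) .leaf) (nat_lit 27050033206197135) (.br (nat_lit 3) (.cons (.br (nat_lit 4) (.cons (.rel (nat_lit 1342179585)) .nil)) .nil)) .leaf) (nat_lit 27050036214962177) (.br (nat_lit 1) (.cons (.br (nat_lit 2) (.cons (.rel (nat_lit 100665345)) (.cons (.rel (nat_lit 100664340)) .nil))) (.cons (.br (nat_lit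 2) (.cons (.rel (nat_lit 100665345)) (.cons (.rel (nat_lit 85987329)) .nil))) .nil))) (.node .leaf (nat_lit 27050036954935297) (.br (nat_lit 0) (.cons (.br (nat_lit 3) (.cons (.rel (nat_lit 272662545)) (.cons (.rel (nat_lit 273154056)) .nil))) (.cons (.br (nat_lit 1) (.cons (.rel (nat_lit 20977728)) (.cons (.rel (nat_lit 21495936)) .nil))) .nil))) .leaf)) (nat_lit 27051238306685240) (.br (nat_lit 0) (.cons (.br (nat_lit 2) (.cons (.rel (nat_lit 71305536)) .nil)) .nil)) (.node (.node .leaf (nat_lit 27051278745177340) (.br (nat_lit 3) (.cons (.br (nat_lit 4) (.cons (.rel (nat_lit 1610612760)) .nil)) .nil)) .leaf) (nat_lit 27051278745232636) (.br (nat_lit 2) (.cons (.br (nat_lit 4) (.cons (.rel (nat_lit 1140883488)) .nil)) .nil)) (.node .leaf (nat_lit 27051528999864321) (.br (nat_lit 0) (.cons (.br (nat_lit 1) (.cons (.rel (nat_lit 20971842)) .nil)) .nil)) .leaf))))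

/-- refutations 54 -/
def e54 : EX := (.node (.node (.node (.node .leaf (nat_lit 27444257546601375) (.br (nat_lit 3) (.cons (.br (nat_lit 4) (.cons (.rel (nat_lit 1342179585)) .nil)) .nil)) .leaf) (nat_lit 27444259680119441) (.br (nat_lit 0) (.cons (.br (nat_lit 2) (.cons (.rel (nat_lit 71305536)) .nil)) .nil)) (.node .leaf (nat_lit 27444260206827034) (.br (nat_lit 3) (.cons (.br (nat_lit 4) (.cons (.rel (nat_lit 1342521345)) .nil)) .nil)) .leaf)) (nat_lit 27444260827584026) (.br (nat_lit 3) (.cons (.br (nat_lit 5) (.cons (.rel (nat_lit 4832166144)) .nil)) .nil)) (.node (.node .leaf (nat_lit 27444262884311040) (.br (nat_lit 4) (.cons (.br (nat_lit 1) (.cons (.rel (nat_lit 1090588740)) (.cons (.rel (nat_lit 2164327488)) .nil))) .nil)) .leaf) (nat_lit 27444262888759422) (.br (nat_lit 0) (.cons (.br (nat_lit 3) (.cons (.rel (nat_lit 273683457)) .nil)) .nil)) (.node .leaf (nat_lit 27444263411273729) (.br (nat_lit 3) (.cons (.br (nat_lit 0) (.cons (.rel (nat_lit 272699472)) (.cons (.rel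 (nat_lit 273683457)) .nil))) .nil)) .leaf))) (nat_lit 27444263412791297) (.br (nat_lit 0) (.cons (.br (nat_lit 3) (.cons (.rel (nat_lit 273683457)) .nil)) .nil)) (.node (.node (.node .leaf (nat_lit 27444263413047297) (.br (nat_lit 1) (.cons (.br (nat_lit 3) (.cons (.rel (nat_lit 285247488)) .nil)) .nil)) .leaf) (nat_lit 27445116557874464) (.br (nat_lit 0) (.cons (.br (nat_lit 5) (.cons (.rel (nat_lit 4299227400)) (.cons (.rel (nat_lit 4299227400)) .nil))) .nil)) (.node .leaf (nat_lit 27451804740505601) (.br (nat_lit 0) (.cons (.br (nat_lit 1) (.cons (.rel (nat_lit 20971842)) .nil)) .nil)) .leaf)) (nat_lit 27451808097725343) (.br (nat_lit 1) (.cons (.br (nat_lit 3) (.cons (.rel (nat_lit 285229632)) .nil)) .nil)) (.node (.node .leaf (nat_lit 27456142762844285) (.br (nat_lit 0) (.cons (.br (nat_lit 1) (.cons (.rel (nat_lit 21495936)) .nil)) .nil)) .leaf) (nat_lit 27457016262762010) (.br (nat_lit 0) (.cons (.br (nat_lit 1) (.cons (.rel (nat_lit 21039360)) .nil)) .nil)) .leaf)))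

/-- list of the parts -/
def L0 : List (ℕ × List ℕ) := [(nat_lit 0x20, [Nat.sub (Nat.pow 2 639) (Nat.pow 2 0), Nat.sub (Nat.pow 2 3136) (Nat.pow 2 639)]),
  (nat_lit 0x200, [Nat.sub (Nat.pow 2 314) (Nat.pow 2 0), Nat.sub (Nat.pow 2 3136) (Nat.pow 2 314)]),
  (nat_lit 0x8000, [cP]),
  (nat_lit 0x80000000, [cP]),
  (nat_lit 0x8000000000, [Nat.sub (Nat.pow 2 304) (Nat.pow 2 0), Nat.sub (Nat.pow 2 3136) (Nat.pow 2 304)]),
  (nat_lit 0x400000000, [cP]),
  (nat_lit 0x200000000000000000000000000000000, [cP]),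
  (nat_lit 0x400000000000000000000000000000000000000, [Nat.sub (Nat.pow 2 661) (Nat.pow 2 0), Nat.sub (Nat.pow 2 3136) (Nat.pow 2 661)]),
  (nat_lit 0x8000000000000000000000000000000000, [cP]),
  (nat_lit 0x400000000000000000000000000000000000000000, [cP]),
  (nat_lit 0x800000000000000000000000000000000000000000000, [cP]),
  (nat_lit 0x10000000000000000000000000000000000000000000000, [cP]),
  (nat_lit 0x8000000000000000000000000000000000000000000000000000000000000000, [Nat.sub (Nat.pow 2 291) (Nat.pow 2 0), Nat.sub (Nat.pow 2 3136) (Nat.pow 2 291)]),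
  (nat_lit 0x200000000000000000000000000000000000000000000000, [cP]),
  (nat_lit 0x2000000000000000000000000000000000000000000000000000000000000000000000000, [cP]),
  (nat_lit 0x10000000000000000000000000000000000000000000000000000000000000000000000000000, [cP]),
  (nat_lit 0x4000000000000000000000000000000000000000000000000000000000000000000000000000000, [cP]),
  (nat_lit 0x10000000000000000000000000000000000000000000000000000000000000000000000000000000000000000000000000000000000000000000000000000000000000000000000000000000000000000, [cP]),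
  (nat_lit 0x10000000000000000000000000000000000000000000000000000000000000000000000000000000000000000000000000000000000000000000000000000000000000000000000000000000000000000000000, [cP]),
  (nat_lit 0x1000000000000000000000000000000000000000000000000000000000000000000000000000000000000000000000000000000000000000000000000000000000000000000000000000000000000000000000000000, [cP]),
  (nat_lit 0x20000000000000000000000000000000000000000000000000000000000000000000000000000000000000000000000000000000000000000000000000000000000000000000000000000000000000000000000000000, [cP]),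
  (nat_lit 0x80000000000000000000000000000000000000000000000000000000000000000000000000000000000000000000000000000000000000000000000000000000000000000000000000000000000000000000000000000, [cP]),
  (nat_lit 0x1000000000000000000000000000000000000000000000000000000000000000000000000000000000000000000000000000000000000000000000000000000000000000000000000000000000000000000000000000000000000000000000000000000000, [cP]),
  (nat_lit 0x20000000000000000000000000000000000000000000000000000000000000000000000000000000000000000000000000000000000000000000000000000000000000000000000000000000000000000000000000000000000000000000000000000000000, [cP]),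
  (nat_lit 0x20000000000000000000000000000000000000000000000000000000000000000000000000000000000000000000000000000000000000000000000000000000000000000000000000000000000000000000000000000000000000000000000000000000000000000000000000000, [cP]),
  (nat_lit 0x400000000000000000000000000000000000000000000000000000000000000000000000000000000000000000000000000000000000000000000000000000000000000000000000000000000000000000000000000000000000000000000000000000000000000000000000000000, [cP]),
  (nat_lit 0x8000000000000000000000000000000000000000000000000000000000000000000000000000000000000000000000000000000000000000000000000000000000000000000000000000000000000000000000000000000000000000000000000000000000000000000000000000000, [cP]),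
  (nat_lit 0x20000000000000000000000000000000000000000000000000000000000000000000000000000000000000000000000000000000000000000000000000000000000000000000000000000000000000000000000000000000000000000000000000000000000000000000000000000000000, [cP]),
  (nat_lit 0x400000000000000000000000000000000000000000000000000000000000000000000000000000000000000000000000000000000000000000000000000000000000000000000000000000000000000000000000000000000000000000000000000000000000000000000000000000000000, [cP]),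
  (nat_lit 0x8000000000000000000000000000000000000000000000000000000000000000000000000000000000000000000000000000000000000000000000000000000000000000000000000000000000000000000000000000000000000000000000000000000000000000000000000000000000000, [cP]),
  (nat_lit 0x40000000000000000000000000000000000000000000000000000000000000000000000000000000000000000000000000000000000000000000000000000000000000000000000000000000000000000000000000000000000000000000000000000000000000000000000000000000000000000000000000000000000000000000000000000000000000000000000000000000000000000000000000, [cP]),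
  (nat_lit 0x80000000000000000000000000000000000000000000000000000000000000000000000000000000000000000000000000000000000000000000000000000000000000000000000000000000000000000000000000000000000000000000000000000000000000000000000000000000000000000000000000000000000000000000000000000000000000000000000000000000000000000000000000, [cP]),
  (nat_lit 0x1000000000000000000000000000000000000000000000000000000000000000000000000000000000000000000000000000000000000000000000000000000000000000000000000000000000000000000000000000000000000000000000000000000000000000000000000000000000000000000000000000000000000000000000000000000000000000000000000000000000000000000000000000, [cP]),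
  (nat_lit 0x10000000000000000000000000000000000000000000000000000000000000000000000000000000000000000000000000000000000000000000000000000000000000000000000000000000000000000000000000000000000000000000000000000000000000000000000000000000000000000000000000000000000000000000000000000000000000000000000000000000000000000000000000000, [cP]),
  (nat_lit 0x80000000000000000000000000000000000000000000000000000000000000000000000000000000000000000000000000000000000000000000000000000000000000000000000000000000000000000000000000000000000000000000000000000000000000000000000000000000000000000000000000000000000000000000000000000000000000000000000000000000000000000000000000000000, [cP]),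
  (nat_lit 0x4000000000000000000000000000000000000000000000000000000000000000000000000000000000000000000000000000000000000000000000000000000000000000000000000000000000000000000000000000000000000000000000000000000000000000000000000000000000000000000000000000000000000000000000000000000000000000000000000000000000000000000000000000000000, [cP]),
  (nat_lit 0x20000000000000000000000000000000000000000000000000000000000000000000000000000000000000000000000000000000000000000000000000000000000000000000000000000000000000000000000000000000000000000000000000000000000000000000000000000000000000000000000000000000000000000000000000000000000000000000000000000000000000000000000000000000000, [cP]),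
  (nat_lit 0x80000000000000000000000000000000000000000000000000000000000000000000000000000000000000000000000000000000000000000000000000000000000000000000000000000000000000000000000000000000000000000000000000000000000000000000000000000000000000000000000000000000000000000000000000000000000000000000000000000000000000000000000000000000000, [cP]),
  (nat_lit 0x100000000000000000000000000000000000000000000000000000000000000000000000000000000000000000000000000000000000000000000000000000000000000000000000000000000000000000000000000000000000000000000000000000000000000000000000000000000000000000000000000000000000000000000000000000000000000000000000000000000000000000000000000000000000000, [cP]),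
  (nat_lit 0x2000000000000000000000000000000000000000000000000000000000000000000000000000000000000000000000000000000000000000000000000000000000000000000000000000000000000000000000000000000000000000000000000000000000000000000000000000000000000000000000000000000000000000000000000000000000000000000000000000000000000000000000000000000000000000, [cP]),
  (nat_lit 0x800000000000000000000000000000000000000000000000000000000000000000000000000000000000000000000000000000000000000000000000000000000000000000000000000000000000000000000000000000000000000000000000000000000000000000000000000000000000000000000000000000000000000000000000000000000000000000000000000000000000000000000000000000000000000000000000000000000, [cP]),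
  (nat_lit 0x10000000000000000000000000000000000000000000000000000000000000000000000000000000000000000000000000000000000000000000000000000000000000000000000000000000000000000000000000000000000000000000000000000000000000000000000000000000000000000000000000000000000000000000000000000000000000000000000000000000000000000000000000000000000000000000000000000000000, [cP]),
  (nat_lit 0x400000000000000000000000000000000000000000000000000000000000000000000000000000000000000000000000000000000000000000000000000000000000000000000000000000000000000000000000000000000000000000000000000000000000000000000000000000000000000000000000000000000000000000000000000000000000000000000000000000000000000000000000000000000000000000000000000000000000, [cP]),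
  (nat_lit 0x4000000000000000000000000000000000000000000000000000000000000000000000000000000000000000000000000000000000000000000000000000000000000000000000000000000000000000000000000000000000000000000000000000000000000000000000000000000000000000000000000000000000000000000000000000000000000000000000000000000000000000000000000000000000000000000000000000000000000000, [cP]),
  (nat_lit 0x20000000000000000000000000000000000000000000000000000000000000000000000000000000000000000000000000000000000000000000000000000000000000000000000000000000000000000000000000000000000000000000000000000000000000000000000000000000000000000000000000000000000000000000000000000000000000000000000000000000000000000000000000000000000000000000000000000000000000000, [cP]),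
  (nat_lit 0x1000000000000000000000000000000000000000000000000000000000000000000000000000000000000000000000000000000000000000000000000000000000000000000000000000000000000000000000000000000000000000000000000000000000000000000000000000000000000000000000000000000000000000000000000000000000000000000000000000000000000000000000000000000000000000000000000000000000000000000, [cP]),
  (nat_lit 0x10000000000000000000000000000000000000000000000000000000000000000000000000000000000000000000000000000000000000000000000000000000000000000000000000000000000000000000000000000000000000000000000000000000000000000000000000000000000000000000000000000000000000000000000000000000000000000000000000000000000000000000000000000000000000000000000000000000000000000000000000000000000000000, [cP]),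
  (nat_lit 0x4000000000000000000000000000000000000000000000000000000000000000000000000000000000000000000000000000000000000000000000000000000000000000000000000000000000000000000000000000000000000000000000000000000000000000000000000000000000000000000000000000000000000000000000000000000000000000000000000000000000000000000000000000000000000000000000000000000000000000000000000000000000000000000, [cP]),
  (nat_lit 0x20000000000000000000000000000000000000000000000000000000000000000000000000000000000000000000000000000000000000000000000000000000000000000000000000000000000000000000000000000000000000000000000000000000000000000000000000000000000000000000000000000000000000000000000000000000000000000000000000000000000000000000000000000000000000000000000000000000000000000000000000000000000000000000000000, [cP]),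
  (nat_lit 0x10000000000000000000000000000000000000000000000000000000000000000000000000000000000000000000000000000000000000000000000000000000000000000000000000000000000000000000000000000000000000000000000000000000000000000000000000000000000000000000000000000000000000000000000000000000000000000000000000000000000000000000000000000000000000000000000000000000000000000000000000000000000000000000000000000000, [cP])]

theorem hp0 : ∀ p ∈ L0, ∀ D2 ∈ p.2, ∃ e,
    search ext94 (Pool.Agent.H74.EGZ.vio sb) G Uc A0 p.1 D2 e = true :=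
  (List.forall_mem_cons.2 ⟨(List.forall_mem_cons.2 ⟨⟨e0, by decide +kernel⟩,
  (List.forall_mem_singleton.2 ⟨e1, by decide +kernel⟩)⟩),
  (List.forall_mem_cons.2 ⟨(List.forall_mem_cons.2 ⟨⟨e2, by decide +kernel⟩,
  (List.forall_mem_singleton.2 ⟨e3, by decide +kernel⟩)⟩),
  (List.forall_mem_cons.2 ⟨(List.forall_mem_singleton.2 ⟨e4, by decide +kernel⟩),
  (List.forall_mem_cons.2 ⟨(List.forall_mem_singleton.2 ⟨e5, by decide +kernel⟩),
  (List.forall_mem_cons.2 ⟨(List.forall_mem_cons.2 ⟨⟨e6, by decide +kernel⟩,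
  (List.forall_mem_singleton.2 ⟨e7, by decide +kernel⟩)⟩),
  (List.forall_mem_cons.2 ⟨(List.forall_mem_singleton.2 ⟨e8, by decide +kernel⟩),
  (List.forall_mem_cons.2 ⟨(List.forall_mem_singleton.2 ⟨e9, by decide +kernel⟩),
  (List.forall_mem_cons.2 ⟨(List.forall_mem_cons.2 ⟨⟨e10, by decide +kernel⟩,
  (List.forall_mem_singleton.2 ⟨e11, by decide +kernel⟩)⟩),
  (List.forall_mem_cons.2 ⟨(List.forall_mem_singleton.2 ⟨e12, by decide +kernel⟩),
  (List.forall_mem_cons.2 ⟨(List.forall_mem_singleton.2 ⟨e13, by decide +kernel⟩),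
  (List.forall_mem_cons.2 ⟨(List.forall_mem_singleton.2 ⟨e14, by decide +kernel⟩),
  (List.forall_mem_cons.2 ⟨(List.forall_mem_singleton.2 ⟨e15, by decide +kernel⟩),
  (List.forall_mem_cons.2 ⟨(List.forall_mem_cons.2 ⟨⟨e16, by decide +kernel⟩,
  (List.forall_mem_singleton.2 ⟨e17, by decide +kernel⟩)⟩),
  (List.forall_mem_cons.2 ⟨(List.forall_mem_singleton.2 ⟨.leaf, by decide +kernel⟩),
  (List.forall_mem_cons.2 ⟨(List.forall_mem_singleton.2 ⟨e19, by decide +kernel⟩),
  (List.forall_mem_cons.2 ⟨(List.forall_mem_singleton.2 ⟨e20, by decide +kernel⟩),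
  (List.forall_mem_cons.2 ⟨(List.forall_mem_singleton.2 ⟨e21, by decide +kernel⟩),
  (List.forall_mem_cons.2 ⟨(List.forall_mem_singleton.2 ⟨e22, by decide +kernel⟩),
  (List.forall_mem_cons.2 ⟨(List.forall_mem_singleton.2 ⟨e23, by decide +kernel⟩),
  (List.forall_mem_cons.2 ⟨(List.forall_mem_singleton.2 ⟨e24, by decide +kernel⟩),
  (List.forall_mem_cons.2 ⟨(List.forall_mem_singleton.2 ⟨e25, by decide +kernel⟩),
  (List.forall_mem_cons.2 ⟨(List.forall_mem_singleton.2 ⟨e26, by decide +kernel⟩),
  (List.forall_mem_cons.2 ⟨(List.forall_mem_singleton.2 ⟨e27, by decide +kernel⟩),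
  (List.forall_mem_cons.2 ⟨(List.forall_mem_singleton.2 ⟨e28, by decide +kernel⟩),
  (List.forall_mem_cons.2 ⟨(List.forall_mem_singleton.2 ⟨e29, by decide +kernel⟩),
  (List.forall_mem_cons.2 ⟨(List.forall_mem_singleton.2 ⟨e30, by decide +kernel⟩),
  (List.forall_mem_cons.2 ⟨(List.forall_mem_singleton.2 ⟨e31, by decide +kernel⟩),
  (List.forall_mem_cons.2 ⟨(List.forall_mem_singleton.2 ⟨e32, by decide +kernel⟩),
  (List.forall_mem_cons.2 ⟨(List.forall_mem_singleton.2 ⟨e33, by decide +kernel⟩),
  (List.forall_mem_cons.2 ⟨(List.forall_mem_singleton.2 ⟨e34, by decide +kernel⟩),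
  (List.forall_mem_cons.2 ⟨(List.forall_mem_singleton.2 ⟨e35, by decide +kernel⟩),
  (List.forall_mem_cons.2 ⟨(List.forall_mem_singleton.2 ⟨e36, by decide +kernel⟩),
  (List.forall_mem_cons.2 ⟨(List.forall_mem_singleton.2 ⟨e37, by decide +kernel⟩),
  (List.forall_mem_cons.2 ⟨(List.forall_mem_singleton.2 ⟨e38, by decide +kernel⟩),
  (List.forall_mem_cons.2 ⟨(List.forall_mem_singleton.2 ⟨e39, by decide +kernel⟩),
  (List.forall_mem_cons.2 ⟨(List.forall_mem_singleton.2 ⟨e40, by decide +kernel⟩),
  (List.forall_mem_cons.2 ⟨(List.forall_mem_singleton.2 ⟨e41, by decide +kernel⟩),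
  (List.forall_mem_cons.2 ⟨(List.forall_mem_singleton.2 ⟨e42, by decide +kernel⟩),
  (List.forall_mem_cons.2 ⟨(List.forall_mem_singleton.2 ⟨e43, by decide +kernel⟩),
  (List.forall_mem_cons.2 ⟨(List.forall_mem_singleton.2 ⟨e44, by decide +kernel⟩),
  (List.forall_mem_cons.2 ⟨(List.forall_mem_singleton.2 ⟨e45, by decide +kernel⟩),
  (List.forall_mem_cons.2 ⟨(List.forall_mem_singleton.2 ⟨e46, by decide +kernel⟩),
  (List.forall_mem_cons.2 ⟨(List.forall_mem_singleton.2 ⟨e47, by decide +kernel⟩),
  (List.forall_mem_cons.2 ⟨(List.forall_mem_singleton.2 ⟨e48, by decide +kernel⟩),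
  (List.forall_mem_cons.2 ⟨(List.forall_mem_singleton.2 ⟨e49, by decide +kernel⟩),
  (List.forall_mem_cons.2 ⟨(List.forall_mem_singleton.2 ⟨e50, by decide +kernel⟩),
  (List.forall_mem_cons.2 ⟨(List.forall_mem_singleton.2 ⟨e51, by decide +kernel⟩),
  (List.forall_mem_cons.2 ⟨(List.forall_mem_singleton.2 ⟨e52, by decide +kernel⟩),
  (List.forall_mem_cons.2 ⟨(List.forall_mem_singleton.2 ⟨e53, by decide +kernel⟩),
  (List.forall_mem_singleton.2 (List.forall_mem_singleton.2 ⟨e54, by decide +kernel⟩))⟩)⟩)⟩)⟩)⟩)⟩)⟩)⟩)⟩)⟩)⟩)⟩)⟩)⟩)⟩)⟩)⟩)⟩)⟩)⟩)⟩)⟩)⟩)⟩)⟩)⟩)⟩)⟩)⟩)⟩)⟩)⟩)⟩)⟩)⟩)⟩)⟩)⟩)⟩)⟩)⟩)⟩)⟩)⟩)⟩)⟩)⟩)⟩)⟩)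

end

end Pool.Agent.H21.EGZ.S20
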