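import Pool.Agent.H21.EGZ.D21

/-!
# Stage 21 : search, part 0
-/

set_option autoImplicit false
set_option maxRecDepth 100000

namespace Pool.Agent.H21.EGZ.S21

noncomputable section

open Pool.Agent.H74.EGZ Pool.Agent.H94.Lift

/-- refutations 0 -/
def e0 : EX := (.node (.node .leaf (nat_lit 19743574972676) (.br (nat_lit 1) (.cons (.br (nat_lit 2) (.cons (.rel (nat_lit 83895552)) .nil)) .nil)) .leaf) (nat_lit 19751139797252) (.br (nat_lit 0) (.cons (.br (nat_lit 1) (.cons (.rel (nat_lit 21504000)) .nil)) .nil)) (.node .leaf (nat_lit 19760148859142) (.br (nat_lit 0) (.cons (.br (nat_lit 2) (.cons (.rel (nat_lit 71843844)) .nil)) .nil)) .leaf))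

/-- refutations 1 -/
def e1 : EX := (.node (.node (.node (.node (.node .leaf (nat_lit 545410597210417) (.br (nat_lit 2) (.cons (.br (nat_lit 3) (.cons (.rel (nat_lit 335610888)) .nil)) .nil)) .leaf) (nat_lit 545411931007606) (.br (nat_lit 5) (.cons (.br (nat_lit 4) (.cons (.rel (nat_lit 9663676482)) (.cons (.rel (nat_lit 5368717824)) .nil))) .nil)) .leaf) (nat_lit 550774680013426) (.br (nat_lit 3) (.cons (.br (nat_lit 4) (.cons (.rel (nat_lit 1342308864)) .nil)) .nil)) (.node .leaf (nat_lit 551208291658505) (.br (nat_lit 3) (.cons (.br (nat_lit 4) (.cons (.rel (nat_lit 1342308864)) .nil)) .nil)) .leaf)) (nat_lit 551208771456381) (.br (nat_lit 3) (.cons (.br (nat_lit 5) (.cons (.rel (nat_lit 4563730440)) .nil)) .nil)) (.node (.node .leaf (nat_lit 551208773700989) (.br (nat_lit 2) (.cons (.br (nat_lit 5) (.cons (.rel (nat_lit 4362141717)) .nil)) .nil)) .leaf) (nat_lit 551210786208000) (.br (nat_lit 0) (.cons (.br (nat_lit 4) (.cons (.rel (nat_lit 1077956628)) .nil)) .nil)) (.node .leaf (nat_lit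 551212965699844) (.br (nat_lit 0) (.cons (.br (nat_lit 2) (.cons (.rel (nat_lit 71319825)) .nil)) .nil)) .leaf))) (nat_lit 551212965751414) (.br (nat_lit 3) (.cons (.br (nat_lit 5) (.cons (.rel (nat_lit 4563419652)) .nil)) .nil)) (.node (.node (.node .leaf (nat_lit 551214059123625) (.br (nat_lit 1) (.cons (.br (nat_lit 3) (.cons (.rel (nat_lit 285220866)) .nil)) .nil)) .leaf) (nat_lit 558759353016631) (.br (nat_lit 0) (.cons (.br (nat_lit 2) (.cons (.rel (nat_lit 75499521)) .nil)) .nil)) (.node .leaf (nat_lit 558759353311543) (.br (nat_lit 0) (.cons (.br (nat_lit 3) (.cons (.rel (nat_lit 545263680)) .nil)) .nil)) .leaf)) (nat_lit 558759355566385) (.br (nat_lit 2) (.cons (.br (nat_lit 3) (.cons (.rel (nat_lit 335546436)) .nil)) .nil)) (.node (.node .leaf (nat_lit 558759355566392) (.br (nat_lit 3) (.cons (.br (nat_lit 4) (.cons (.rel (nat_lit 1610617860)) .nil)) .nil)) .leaf) (nat_lit 558759355566981) (.br (nat_lit 0) (.cons (.br (nat_lit 1) (.cons (.rel (nat_lit 22020612)) .nil)) .nil)) (.node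 .leaf (nat_lit 558759356180642) (.br (nat_lit 0) (.cons (.br (nat_lit 1) (.cons (.rel (nat_lit 22020612)) .nil)) .nil)) .leaf))))

/-- refutations 2 -/
def e2 : EX := (.node (.node (.node (.node .leaf (nat_lit 568407189420664) (.br (nat_lit 2) (.cons (.br (nat_lit 3) (.cons (.rel (nat_lit 335544402)) .nil)) .nil)) .leaf) (nat_lit 568407190096178) (.br (nat_lit 4) (.cons (.br (nat_lit 5) (.cons (.rel (nat_lit 5369102337)) .nil)) .nil)) .leaf) (nat_lit 568407190096799) (.br (nat_lit 1) (.cons (.br (nat_lit 5) (.cons (.rel (nat_lit 4311777285)) .nil)) .nil)) (.node (.node .leaf (nat_lit 568408452582303) (.br (nat_lit 1) (.cons (.br (nat_lit 6) (.cons (.rel (nat_lit 17196646728)) .nil)) .nil)) .leaf) (nat_lit 568408452582777) (.br (nat_lit 0) (.cons (.br (nat_lit 2) (.cons (.rel (nat_lit 71368968)) .nil)) .nil)) .leaf)) (nat_lit 568804968823095) (.br (nat_lit 2) (.cons (.br (nat_lit 6) (.cons (.rel (nat_lit 17246978325)) .nil)) .nil)) (.node (.node (.node .leaf (nat_lit 570949932686238) (.br (nat_lit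 0) (.cons (.br (nat_lit 1) (.cons (.rel (nat_lit 37748865)) .nil)) .nil)) .leaf) (nat_lit 573696006114540) (.br (nat_lit 0) (.cons (.br (nat_lit 2) (.cons (.rel (nat_lit 75632640)) .nil)) .nil)) .leaf) (nat_lit 575201826054775) (.br (nat_lit 1) (.cons (.br (nat_lit 3) (.cons (.rel (nat_lit 285233184)) .nil)) .nil)) (.node (.node .leaf (nat_lit 575201826147740) (.br (nat_lit 1) (.cons (.br (nat_lit 5) (.cons (.rel (nat_lit 4311814146)) .nil)) .nil)) .leaf) (nat_lit 576092669484533) (.br (nat_lit 0) (.cons (.br (nat_lit 4) (.cons (.rel (nat_lit 1077937284)) .nil)) .nil)) .leaf)))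

/-- refutations 3 -/
def e3 : EX := (.node (.node (.node (.node (.node .leaf (nat_lit 653328564676909) (.br (nat_lit 1) (.cons (.br (nat_lit 3) (.cons (.rel (nat_lit 285213840)) (.cons (.rel (nat_lit 303040512)) (.cons (.rel (nat_lit 285344769)) (.cons (.rel (nat_lit 554172480)) (.cons (.rel (nat_lit 303040512)) .nil)))))) (.cons (.br (nat_lit 2) (.cons (.rel (nat_lit 151013376)) (.cons (.rel (nat_lit 151061520)) .nil))) .nil))) .leaf) (nat_lit 653328564677239) (.br (nat_lit 4) (.cons (.br (nat_lit 6) (.cons (.rel (nat_lit 36507291648)) (.cons (.rel (nat_lit 18253676580)) .nil))) .nil)) .leaf) (nat_lit 653331177728301) (.br (nat_lit 4) (.cons (.br (nat_lit 6) (.cons (.rel (nat_lit 18253709376)) .nil)) .nil)) (.node .leaf (nat_lit 653331177728631) (.br (nat_lit 4) (.cons (.br (nat_lit 1) (.cons (.br (nat_lit 6) (.cons (.rel (nat_lit 34376523792)) (.cons (.br (nat_lit 2) (.cons (.rel (nat_lit 19394463744)) (.cons (.rel (nat_lit 1158678528)) (.cons (.rel (nat_lit 19394463744)) .nil)))) .nil)))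 (.cons (.br (nat_lit 6) (.cons (.rel (nat_lit 34376536065)) (.cons (.rel (nat_lit 17196714240)) .nil))) .nil))) .nil)) .leaf)) (nat_lit 653331177738541) (.br (nat_lit 0) (.cons (.br (nat_lit 1) (.cons (.rel (nat_lit 21042432)) .nil)) .nil)) (.node (.node (.node .leaf (nat_lit 653373500506737) (.br (nat_lit 0) (.cons (.br (nat_lit 2) (.cons (.rel (nat_lit 71307552)) .nil)) .nil)) .leaf) (nat_lit 656280232872237) (.br (nat_lit 3) (.cons (.br (nat_lit 4) (.cons (.rel (nat_lit 1343311872)) .nil)) .nil)) .leaf) (nat_lit 656763900990846) (.br (nat_lit 0) (.cons (.br (nat_lit 1) (.cons (.rel (nat_lit 20971920)) .nil)) .nil)) (.node .leaf (nat_lit 656763902556471) (.br (nat_lit 1) (.cons (.br (nat_lit 4) (.cons (.rel (nat_lit 1090521105)) .nil)) .nil)) .leaf))) (nat_lit 656763903232626) (.br (nat_lit 1) (.cons (.br (nat_lit 6) (.cons (.rel (nat_lit 17196714240)) (.cons (.rel (nat_lit 17213424708)) .nil))) .nil)) (.node (.node (.node (.node .leaf (nat_lit 656763903548172) (.br (nat_lit 1) (.cons (.br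 (nat_lit 6) (.cons (.rel (nat_lit 17196663072)) .nil)) .nil)) .leaf) (nat_lit 658661632854796) (.br (nat_lit 4) (.cons (.br (nat_lit 6) (.cons (.rel (nat_lit 36507291648)) .nil)) .nil)) .leaf) (nat_lit 658661633170345) (.br (nat_lit 4) (.cons (.br (nat_lit 5) (.cons (.rel (nat_lit 5369102337)) (.cons (.rel (nat_lit 5369102337)) (.cons (.rel (nat_lit 10737422592)) (.cons (.rel (nat_lit 6442468416)) .nil))))) (.cons (.br (nat_lit 6) (.cons (.rel (nat_lit 18253631616)) (.cons (.rel (nat_lit 18253631616)) .nil))) .nil))) (.node .leaf (nat_lit 661742814710697) (.br (nat_lit 3) (.cons (.br (nat_lit 6) (.cons (.rel (nat_lit 34896609297)) .nil)) .nil)) .leaf)) (nat_lit 661909385248222) (.br (nat_lit 0) (.cons (.br (nat_lit 1) (.cons (.rel (nat_lit 20988228)) .nil)) .nil)) (.node (.node .leaf (nat_lit 664057395235596) (.br (nat_lit 1) (.cons (.br (nat_lit 4) (.cons (.rel (nat_lit 1107820800)) .nil)) .nil)) .leaf) (nat_lit 664057395236227) (.br (nat_lit 3) (.cons (.br (nat_lit 4) (.cons (.rel (nat_lit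 2684420352)) .nil)) .nil)) (.node .leaf (nat_lit 664057395834890) (.br (nat_lit 1) (.cons (.br (nat_lit 4) (.cons (.rel (nat_lit 1090654224)) (.cons (.rel (nat_lit 2164523520)) .nil))) .nil)) .leaf))))

/-- refutations 4 -/
def e4 : EX := (.node (.node (.node (.node (.node .leaf (nat_lit 985684116981815) (.br (nat_lit 0) (.cons (.br (nat_lit 2) (.cons (.rel (nat_lit 73400325)) .nil)) .nil)) .leaf) (nat_lit 987324302977285) (.br (nat_lit 0) (.cons (.br (nat_lit 1) (.cons (.rel (nat_lit 21102849)) .nil)) .nil)) (.node .leaf (nat_lit 990852147630737) (.br (nat_lit 0) (.cons (.br (nat_lit 6) (.cons (.rel (nat_lit 17188290564)) (.cons (.rel (nat_lit 34368389136)) .nil))) .nil)) .leaf)) (nat_lit 990852148705412) (.br (nat_lit 1) (.cons (.br (nat_lit 3) (.cons (.rel (nat_lit 285233184)) (.cons (.rel (nat_lit 285233184)) .nil))) .nil)) (.node (.node .leaf (nat_lit 990852148705542) (.br (nat_lit 1) (.cons (.br (nat_lit 3) (.cons (.rel (nat_lit 285294600)) (.cons (.rel (nat_lit 285294600)) .nil))) .nil))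 .leaf) (nat_lit 990852149627012) (.br (nat_lit 0) (.cons (.br (nat_lit 6) (.cons (.rel (nat_lit 34368389136)) .nil)) .nil)) .leaf)) (nat_lit 990852149627537) (.br (nat_lit 1) (.cons (.br (nat_lit 5) (.cons (.br (nat_lit 6) (.cons (.br (nat_lit 2) (.cons (.rel (nat_lit 17249140800)) (.cons (.rel (nat_lit 17246998848)) (.cons (.rel (nat_lit 17314087056)) .nil)))) (.cons (.br (nat_lit 2) (.cons (.rel (nat_lit 34426912770)) (.cons (.rel (nat_lit 34426863636)) (.cons (.rel (nat_lit 34426847328)) .nil)))) (.cons (.rel (nat_lit 17196646728)) .nil)))) .nil)) .nil)) (.node (.node (.node .leaf (nat_lit 990852149627635) (.br (nat_lit 4) (.cons (.br (nat_lit 5) (.cons (.br (nat_lit 1) (.cons (.rel (nat_lit 1090519080)) (.cons (.br (nat_lit 6) (.cons (.rel (nat_lit 18253676580)) (.cons (.rel (nat_lit 18253611093)) (.cons (.br (nat_lit 0) (.cons (.rel (nat_lit 34363938816)) (.cons (.rel (nat_lit 34368389136)) .nil))) .nil)))) .nil))) .nil)) .nil)) .leaf) (nat_lit 990852149627811) (.br (nat_lit 5) (.cons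 (.br (nat_lit 1) (.cons (.br (nat_lit 4) (.cons (.rel (nat_lit 1090519080)) (.cons (.rel (nat_lit 1107820800)) (.cons (.br (nat_lit 6) (.cons (.rel (nat_lit 18253676580)) (.cons (.br (nat_lit 3) (.cons (.rel (nat_lit 8858370072)) (.cons (.rel (nat_lit 17448329232)) (.cons (.rel (nat_lit 17448370305)) .nil)))) .nil))) .nil)))) (.cons (.rel (nat_lit 4311810120)) .nil))) .nil)) .leaf) (nat_lit 990852149628437) (.br (nat_lit 0) (.cons (.br (nat_lit 3) (.cons (.rel (nat_lit 272634900)) .nil)) .nil)) (.node (.node .leaf (nat_lit 990852149922449) (.br (nat_lit 0) (.cons (.br (nat_lit 1) (.cons (.rel (nat_lit 25231377)) .nil)) .nil)) .leaf) (nat_lit 990852149922723) (.br (nat_lit 0) (.cons (.br (nat_lit 6) (.cons (.rel (nat_lit 17186181120)) .nil)) .nil)) .leaf))) (nat_lit 990852149943674) (.br (nat_lit 1) (.cons (.br (nat_lit 2) (.cons (.rel (nat_lit 152174856)) .nil)) .nil)) (.node (.node (.node (.node .leaf (nat_lit 990852631972497) (.br (nat_lit 0) (.cons (.br (nat_lit 1) (.cons (.rel (nat_lit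 21504000)) (.cons (.rel (nat_lit 37830660)) (.cons (.rel (nat_lit 37814352)) .nil)))) .nil)) .leaf) (nat_lit 993205366084515) (.br (nat_lit 0) (.cons (.br (nat_lit 3) (.cons (.rel (nat_lit 272793600)) .nil)) .nil)) .leaf) (nat_lit 993205367158815) (.br (nat_lit 4) (.cons (.br (nat_lit 5) (.cons (.rel (nat_lit 5368971408)) .nil)) .nil)) (.node (.node .leaf (nat_lit 993205367159441) (.br (nat_lit 1) (.cons (.br (nat_lit 5) (.cons (.rel (nat_lit 4311777285)) .nil)) .nil)) .leaf) (nat_lit 993205368081041) (.br (nat_lit 6) (.cons (.br (nat_lit 1) (.cons (.rel (nat_lit 17196650754)) (.cons (.rel (nat_lit 34376523792)) .nil))) .nil)) .leaf)) (nat_lit 993205368081315) (.br (nat_lit 4) (.cons (.br (nat_lit 5) (.cons (.br (nat_lit 6) (.cons (.rel (nat_lit 21474844752)) .nil)) .nil)) .nil)) (.node (.node (.node .leaf (nat_lit 996160684963967) (.br (nat_lit 0) (.cons (.br (nat_lit 2) (.cons (.rel (nat_lit 75513984)) .nil)) .nil)) .leaf) (nat_lit 997274884872473) (.br (nat_lit 0) (.cons (.br (nat_lit 1)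 (.cons (.rel (nat_lit 20988228)) .nil)) .nil)) .leaf) (nat_lit 998305656223746) (.br (nat_lit 3) (.cons (.br (nat_lit 6) (.cons (.br (nat_lit 0) (.cons (.rel (nat_lit 17453548560)) (.cons (.rel (nat_lit 17188267008)) .nil))) (.cons (.rel (nat_lit 34896609297)) .nil))) .nil)) (.node (.node .leaf (nat_lit 998305656225269) (.br (nat_lit 6) (.cons (.br (nat_lit 0) (.cons (.rel (nat_lit 17184064788)) (.cons (.rel (nat_lit 34368389136)) .nil))) .nil)) .leaf) (nat_lit 998305657300195) (.br (nat_lit 4) (.cons (.br (nat_lit 5) (.cons (.br (nat_lit 0) (.cons (.rel (nat_lit 4299163728)) (.cons (.rel (nat_lit 1078069248)) (.cons (.rel (nat_lit 4299166728)) .nil)))) .nil)) .nil)) .leaf))))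

/-- refutations 5 -/
def e5 : EX := (.node (.node (.node (.node (.node (.node .leaf (nat_lit 1091145817716796) (.br (nat_lit 4) (.cons (.br (nat_lit 5) (.cons (.rel (nat_lit 10737422592)) .nil)) .nil)) .leaf) (nat_lit 1091148388311346) (.br (nat_lit 0) (.cons (.br (nat_lit 6) (.cons (.rel (nat_lit 17184064788)) .nil)) .nil)) .leaf) (nat_lit 1091148753215794) (.br (nat_lit 1) (.cons (.br (nat_lit 2) (.cons (.rel (nat_lit 151013376)) .nil)) .nil)) (.node .leaf (nat_lit 1092241408345464) (.br (nat_lit 0) (.cons (.br (nat_lit 3) (.cons (.rel (nat_lit 276825600)) .nil)) .nil)) .leaf)) (nat_lit 1093129956761876) (.br (nat_lit 2) (.cons (.br (nat_lit 3) (.cons (.rel (nat_lit 335675520)) (.cons (.rel (nat_lit 335561745)) .nil))) .nil)) (.node (.node .leaf (nat_lit 1093129956762231) (.br (nat_lit 0) (.cons (.br (nat_lit 1) (.cons (.rel (nat_lit 21042432)) .nil)) .nil)) .leaf) (nat_lit 1093132058108180) (.br (nat_lit 4) (.cons (.br (nat_lit 1) (.cons (.rel (nat_lit 1090519080)) (.cons (.rel (nat_lit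 1090519080)) (.cons (.rel (nat_lit 1090519080)) (.cons (.rel (nat_lit 1090519080)) (.cons (.rel (nat_lit 1090592772)) .nil)))))) (.cons (.br (nat_lit 1) (.cons (.rel (nat_lit 1090519080)) (.cons (.rel (nat_lit 2181038100)) (.cons (.rel (nat_lit 1090519080)) (.cons (.rel (nat_lit 2164523520)) (.cons (.rel (nat_lit 1090519080)) .nil)))))) .nil))) (.node .leaf (nat_lit 1093132059695780) (.br (nat_lit 3) (.cons (.br (nat_lit 6) (.cons (.br (nat_lit 0) (.cons (.rel (nat_lit 34368389136)) (.cons (.rel (nat_lit 272630865)) (.cons (.rel (nat_lit 272648208)) (.cons (.rel (nat_lit 17184063753)) .nil))))) (.cons (.rel (nat_lit 17448309888)) .nil))) (.cons (.br (nat_lit 4) (.cons (.rel (nat_lit 2415935553)) (.cons (.rel (nat_lit 2416967937)) .nil))) .nil))) .leaf))) (nat_lit 1093132060515680) (.br (nat_lit 6) (.cons (.br (nat_lit 2) (.cons (.rel (nat_lit 34426847328)) (.cons (.rel (nat_lit 17314217985)) (.cons (.rel (nat_lit 17314157568)) (.cons (.rel (nat_lit 34426847328)) .nil))))) .nil)) (.node (.node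 (.node .leaf (nat_lit 1093132662087956) (.br (nat_lit 6) (.cons (.br (nat_lit 3) (.cons (.br (nat_lit 5) (.cons (.rel (nat_lit 8858386560)) (.cons (.rel (nat_lit 4564459521)) .nil))) (.cons (.rel (nat_lit 17448309888)) .nil))) .nil)) .leaf) (nat_lit 1093132663675556) (.br (nat_lit 3) (.cons (.br (nat_lit 1) (.cons (.rel (nat_lit 553664769)) (.cons (.rel (nat_lit 285220866)) .nil))) .nil)) (.node .leaf (nat_lit 1093132664495456) (.br (nat_lit 3) (.cons (.br (nat_lit 5) (.cons (.rel (nat_lit 8858386560)) (.cons (.rel (nat_lit 4563403344)) (.cons (.rel (nat_lit 4564459521)) (.cons (.rel (nat_lit 4564459521)) .nil))))) .nil)) .leaf)) (nat_lit 1096300068556129) (.br (nat_lit 1) (.cons (.br (nat_lit 4) (.cons (.rel (nat_lit 1090519080)) .nil)) .nil)) (.node (.node .leaf (nat_lit 1096300068850589) (.br (nat_lit 0) (.cons (.br (nat_lit 1) (.cons (.rel (nat_lit 22020612)) .nil)) .nil)) .leaf) (nat_lit 1096304998800037) (.br (nat_lit 0) (.cons (.br (nat_lit 1) (.cons (.rel (nat_lit 25169925)) .nil))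 .nil)) (.node .leaf (nat_lit 1096566355811710) (.br (nat_lit 2) (.cons (.br (nat_lit 5) (.cons (.br (nat_lit 6) (.cons (.rel (nat_lit 21475889409)) .nil)) .nil)) .nil)) .leaf)))) (nat_lit 1096566355860132) (.br (nat_lit 0) (.cons (.br (nat_lit 5) (.cons (.rel (nat_lit 8598343680)) (.cons (.rel (nat_lit 4303880448)) .nil))) .nil)) (.node (.node (.node (.node (.node .leaf (nat_lit 1096566356843172) (.br (nat_lit 4) (.cons (.br (nat_lit 5) (.cons (.rel (nat_lit 10737422592)) .nil)) .nil)) .leaf) (nat_lit 1098667778329381) (.br (nat_lit 0) (.cons (.br (nat_lit 4) (.cons (.rel (nat_lit 1078984977)) .nil)) .nil)) .leaf) (nat_lit 1102579019031204) (.br (nat_lit 3) (.cons (.br (nat_lit 1) (.cons (.rel (nat_lit 555746304)) (.cons (.rel (nat_lit 285220866)) .nil))) .nil)) (.node .leaf (nat_lit 1102579020619104) (.br (nat_lit 1) (.cons (.br (nat_lit 3) (.cons (.rel (nat_lit 555746304)) .nil)) .nil)) .leaf)) (nat_lit 1102579021334789) (.br (nat_lit 0) (.cons (.br (nat_lit 1) (.cons (.rel (nat_lit 37814352))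 .nil)) .nil)) (.node (.node .leaf (nat_lit 1102579021437204) (.br (nat_lit 1) (.cons (.br (nat_lit 5) (.cons (.rel (nat_lit 4311777285)) .nil)) .nil)) .leaf) (nat_lit 1102580986159780) (.br (nat_lit 5) (.cons (.br (nat_lit 6) (.cons (.rel (nat_lit 42949673988)) .nil)) .nil)) (.node .leaf (nat_lit 1102580987747680) (.br (nat_lit 3) (.cons (.br (nat_lit 5) (.cons (.rel (nat_lit 4831838244)) .nil)) .nil)) .leaf))) (nat_lit 1102580987796832) (.br (nat_lit 0) (.cons (.br (nat_lit 4) (.cons (.rel (nat_lit 1077945345)) .nil)) .nil)) (.node (.node (.node .leaf (nat_lit 1102580988462432) (.br (nat_lit 0) (.cons (.br (nat_lit 2) (.cons (.rel (nat_lit 71843844)) .nil)) .nil)) .leaf) (nat_lit 1102580988565780) (.br (nat_lit 5) (.cons (.br (nat_lit 1) (.cons (.rel (nat_lit 4311745668)) (.cons (.rel (nat_lit 4311745668)) .nil))) .nil)) (.node .leaf (nat_lit 1102753389946332) (.br (nat_lit 4) (.cons (.br (nat_lit 5) (.cons (.rel (nat_lit 10737422592)) .nil)) .nil)) .leaf)) (nat_lit 1102753391237376) (.br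 (nat_lit 2) (.cons (.br (nat_lit 4) (.cons (.rel (nat_lit 2216706048)) .nil)) .nil)) (.node (.node .leaf (nat_lit 1102753754850691) (.br (nat_lit 1) (.cons (.br (nat_lit 2) (.cons (.rel (nat_lit 83919108)) .nil)) .nil)) .leaf) (nat_lit 1102753756354620) (.br (nat_lit 1) (.cons (.br (nat_lit 4) (.cons (.rel (nat_lit 1090519080)) .nil)) .nil)) (.node .leaf (nat_lit 1104119231489555) (.br (nat_lit 2) (.cons (.br (nat_lit 3) (.cons (.rel (nat_lit 335548437)) .nil)) .nil)) .leaf)))))

/-- refutations 6 -/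
def e6 : EX := (.node (.node (.node (.node .leaf (nat_lit 2376328733321897) (.br (nat_lit 0) (.cons (.br (nat_lit 5) (.cons (.rel (nat_lit 4299202560)) .nil)) .nil)) .leaf) (nat_lit 2376537639021445) (.br (nat_lit 4) (.cons (.br (nat_lit 5) (.cons (.rel (nat_lit 5368987716)) .nil)) .nil)) .leaf) (nat_lit 2377362664143124) (.br (nat_lit 0) (.cons (.br (nat_lit 3) (.cons (.rel (nat_lit 272629830)) .nil)) .nil)) (.node (.node .leaf (nat_lit 2380794995789077) (.br (nat_lit 1) (.cons (.br (nat_lit 3) (.cons (.rel (nat_lit 285213840)) .nil)) .nil)) .leaf) (nat_lit 2380794995993377) (.br (nat_lit 1) (.cons (.br (nat_lit 2) (.cons (.rel (nat_lit 100679745)) .nil)) .nil)) .leaf)) (nat_lit 2380794997016602) (.br (nat_lit 0) (.cons (.br (nat_lit 1) (.cons (.rel (nat_lit 42209280)) .nil)) .nil)) (.node (.node (.node .leaf (nat_lit 2380794997017877) (.br (nat_lit 1) (.cons (.br (nat_lit 5) (.cons (.rel (nat_lit 4311814146)) .nil)) .nil)) .leaf) (nat_lit 2380794998604577) (.br (nat_lit 3) (.cons (.br (nat_lit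 4) (.cons (.rel (nat_lit 1342455888)) (.cons (.rel (nat_lit 1342448640)) .nil))) .nil)) .leaf) (nat_lit 2380795499310457) (.br (nat_lit 0) (.cons (.br (nat_lit 2) (.cons (.rel (nat_lit 71319825)) .nil)) .nil)) (.node .leaf (nat_lit 2380795501562137) (.br (nat_lit 0) (.cons (.br (nat_lit 1) (.cons (.rel (nat_lit 42209280)) .nil)) .nil)) .leaf)))

/-- refutations 7 -/
def e7 : EX := (.node (.node (.node (.node .leaf (nat_lit 2381825789168917) (.br (nat_lit 0) (.cons (.br (nat_lit 2) (.cons (.rel (nat_lit 71304516)) .nil)) .nil)) .leaf) (nat_lit 2381826181016464) (.br (nat_lit 1) (.cons (.br (nat_lit 3) (.cons (.rel (nat_lit 285216840)) .nil)) .nil)) (.node .leaf (nat_lit 2381826393456127) (.br (nat_lit 1) (.cons (.br (nat_lit 4) (.cons (.rel (nat_lit 1090528320)) .nil)) .nil)) .leaf)) (nat_lit 2381829038729897) (.br (nat_lit 1) (.cons (.br (nat_lit 4) (.cons (.rel (nat_lit 1090519080)) .nil)) .nil)) (.node (.node .leaf (nat_lit 2381829038730717) (.br (nat_lit 1) (.cons (.br (nat_lit 4) (.cons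 (.rel (nat_lit 1107820800)) .nil)) .nil)) .leaf) (nat_lit 2381829040306356) (.br (nat_lit 0) (.cons (.br (nat_lit 1) (.cons (.rel (nat_lit 21504000)) .nil)) .nil)) (.node .leaf (nat_lit 2381829040982042) (.br (nat_lit 0) (.cons (.br (nat_lit 2) (.cons (.rel (nat_lit 71307552)) .nil)) .nil)) .leaf))) (nat_lit 2381829040983517) (.br (nat_lit 1) (.cons (.br (nat_lit 3) (.cons (.rel (nat_lit 285233184)) .nil)) .nil)) (.node (.node (.node .leaf (nat_lit 2381829431368940) (.br (nat_lit 0) (.cons (.br (nat_lit 2) (.cons (.rel (nat_lit 73400325)) .nil)) .nil)) .leaf) (nat_lit 2386220564129051) (.br (nat_lit 4) (.cons (.br (nat_lit 6) (.cons (.rel (nat_lit 18253627401)) .nil)) .nil)) (.node .leaf (nat_lit 2386811200793477) (.br (nat_lit 0) (.cons (.br (nat_lit 4) (.cons (.rel (nat_lit 1077937284)) .nil)) .nil)) .leaf)) (nat_lit 2386811200794077) (.br (nat_lit 1) (.cons (.br (nat_lit 4) (.cons (.rel (nat_lit 1090654224)) .nil)) .nil)) (.node (.node .leaf (nat_lit 2386811203046288) (.br (nat_lit 0) (.cons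 (.br (nat_lit 4) (.cons (.rel (nat_lit 1083179136)) .nil)) .nil)) .leaf) (nat_lit 2386811203046877) (.br (nat_lit 0) (.cons (.br (nat_lit 5) (.cons (.rel (nat_lit 8594130177)) .nil)) .nil)) .leaf)))

/-- refutations 8 -/
def e8 : EX := (.node (.node .leaf (nat_lit 2388346701931896) (.br (nat_lit 0) (.cons (.br (nat_lit 6) (.cons (.rel (nat_lit 17184067968)) (.cons (.rel (nat_lit 17184067968)) .nil))) .nil)) .leaf) (nat_lit 2388346702146437) (.br (nat_lit 0) (.cons (.br (nat_lit 1) (.cons (.rel (nat_lit 25169925)) .nil)) .nil)) .leaf)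

/-- refutations 9 -/
def e9 : EX := (.node .leaf (nat_lit 2328024119302820) (.br (nat_lit 3) (.cons (.br (nat_lit 6) (.cons (.rel (nat_lit 34896609297)) (.cons (.rel (nat_lit 34896609297)) .nil))) .nil)) .leaf)

/-- refutations 10 -/
def e10 : EX := (.node (.node (.node (.node (.node (.node .leaf (nat_lit 2762283013427231) (.br (nat_lit 0) (.cons (.br (nat_lit 4) (.cons (.rel (nat_lit 1078018080)) .nil)) .nil)) .leaf) (nat_lit 2762283013427955) (.br (nat_lit 6) (.cons (.br (nat_lit 1) (.cons (.rel (nat_lit 17198743572)) (.cons (.rel (nat_lit 34376536065)) .nil))) .nil)) (.node .leaf (nat_lit 2762283013428131) (.br (nat_lit 5) (.cons (.br (nat_lit 6) (.cons (.br (nat_lit 0) (.cons (.rel (nat_lit 34368389136)) (.cons (.rel (nat_lit 17184587808)) .nil))) .nil)) .nil)) .leaf)) (nat_lit 2762283014503331) (.br (nat_lit 4) (.cons (.br (nat_lit 2) (.cons (.rel (nat_lit 1140871200)) (.cons (.rel (nat_lit 1140871200)) (.cons (.rel (nat_lit 2281705473)) .nil)))) .nil)) (.node (.node .leaf (nat_lit 2762283014503957)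 (.br (nat_lit 0) (.cons (.br (nat_lit 5) (.cons (.rel (nat_lit 4301520912)) .nil)) .nil)) .leaf) (nat_lit 2762283015424031) (.br (nat_lit 0) (.cons (.br (nat_lit 6) (.cons (.rel (nat_lit 34363932756)) (.cons (.rel (nat_lit 34368389136)) .nil))) .nil)) .leaf)) (nat_lit 2762283015424305) (.br (nat_lit 5) (.cons (.br (nat_lit 6) (.cons (.rel (nat_lit 42949673988)) .nil)) .nil)) (.node (.node (.node .leaf (nat_lit 2767390320637954) (.br (nat_lit 1) (.cons (.br (nat_lit 6) (.cons (.rel (nat_lit 17196663072)) .nil)) .nil)) .leaf) (nat_lit 2767390320638127) (.br (nat_lit 2) (.cons (.br (nat_lit 6) (.cons (.rel (nat_lit 17315135748)) .nil)) .nil)) (.node .leaf (nat_lit 2767390320638577) (.br (nat_lit 2) (.cons (.br (nat_lit 6) (.cons (.rel (nat_lit 17246979360)) .nil)) .nil)) .leaf)) (nat_lit 2767390321713327) (.br (nat_lit 3) (.cons (.br (nat_lit 6) (.cons (.rel (nat_lit 17448329232)) (.cons (.rel (nat_lit 17448304674)) .nil))) .nil)) (.node (.node .leaf (nat_lit 2767390321713428) (.br (nat_lit 4)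 (.cons (.br (nat_lit 6) (.cons (.rel (nat_lit 36507291648)) .nil)) .nil)) .leaf) (nat_lit 2767390321713777) (.br (nat_lit 6) (.cons (.br (nat_lit 2) (.cons (.rel (nat_lit 34426847328)) (.cons (.rel (nat_lit 17247502344)) .nil))) .nil)) .leaf))) (nat_lit 2767390322936693) (.br (nat_lit 0) (.cons (.br (nat_lit 1) (.cons (.rel (nat_lit 22020612)) .nil)) .nil)) (.node (.node (.node (.node .leaf (nat_lit 2767390322937319) (.br (nat_lit 0) (.cons (.br (nat_lit 5) (.cons (.rel (nat_lit 4300341504)) .nil)) .nil)) .leaf) (nat_lit 2767399441353330) (.br (nat_lit 1) (.cons (.br (nat_lit 4) (.cons (.rel (nat_lit 1107820800)) .nil)) .nil)) (.node .leaf (nat_lit 2767399441617651) (.br (nat_lit 1) (.cons (.br (nat_lit 6) (.cons (.rel (nat_lit 17213440017)) .nil)) .nil)) .leaf)) (nat_lit 2767620687010444) (.br (nat_lit 0) (.cons (.br (nat_lit 2) (.cons (.rel (nat_lit 71307552)) .nil)) .nil)) (.node (.node .leaf (nat_lit 2767622249948446) (.br (nat_lit 2) (.cons (.br (nat_lit 4) (.cons (.rel (nat_lit 1140922368))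 .nil)) .nil)) .leaf) (nat_lit 2767622251784817) (.br (nat_lit 0) (.cons (.br (nat_lit 1) (.cons (.rel (nat_lit 20971920)) .nil)) .nil)) .leaf)) (nat_lit 2767662940113553) (.br (nat_lit 1) (.cons (.br (nat_lit 6) (.cons (.rel (nat_lit 17196646728)) .nil)) .nil)) (.node (.node (.node .leaf (nat_lit 2767662940113651) (.br (nat_lit 4) (.cons (.br (nat_lit 6) (.cons (.rel (nat_lit 18253611093)) .nil)) .nil)) .leaf) (nat_lit 2767665199621407) (.br (nat_lit 0) (.cons (.br (nat_lit 2) (.cons (.rel (nat_lit 71319825)) .nil)) .nil)) .leaf) (nat_lit 2767665200843014) (.br (nat_lit 1) (.cons (.br (nat_lit 4) (.cons (.rel (nat_lit 1090528320)) .nil)) .nil)) (.node (.node .leaf (nat_lit 2767826226566646) (.br (nat_lit 1) (.cons (.br (nat_lit 4) (.cons (.rel (nat_lit 1090519080)) .nil)) .nil)) .leaf) (nat_lit 2767826228878092) (.br (nat_lit 6) (.cons (.br (nat_lit 2) (.cons (.rel (nat_lit 17314087056)) (.cons (.rel (nat_lit 17314087056)) (.cons (.rel (nat_lit 17246998848)) .nil)))) .nil)) .leaf)))) (nat_lit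 2768502126071839) (.br (nat_lit 0) (.cons (.br (nat_lit 1) (.cons (.br (nat_lit 2) (.cons (.br (nat_lit 4) (.cons (.br (nat_lit 5) (.cons (.rel (nat_lit 5440012320)) .nil)) .nil)) .nil)) .nil)) .nil)) (.node (.node (.node (.node (.node .leaf (nat_lit 2768502126847463) (.br (nat_lit 1) (.cons (.br (nat_lit 2) (.cons (.rel (nat_lit 168099840)) .nil)) .nil)) .leaf) (nat_lit 2768502128068639) (.br (nat_lit 0) (.cons (.br (nat_lit 2) (.cons (.br (nat_lit 3) (.cons (.rel (nat_lit 277889025)) (.cons (.rel (nat_lit 335544402)) .nil))) .nil)) .nil)) (.node .leaf (nat_lit 2768502128068913) (.br (nat_lit 1) (.cons (.br (nat_lit 5) (.cons (.rel (nat_lit 4311810120)) .nil)) .nil)) .leaf)) (nat_lit 2768502128069265) (.br (nat_lit 1) (.cons (.br (nat_lit 3) (.cons (.rel (nat_lit 285245457)) .nil)) .nil)) (.node (.node .leaf (nat_lit 2768502128069363) (.br (nat_lit 1) (.cons (.br (nat_lit 5) (.cons (.rel (nat_lit 4311765012)) .nil)) .nil)) .leaf) (nat_lit 2768502128070119) (.br (nat_lit 1) (.cons (.br (nat_lit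 2) (.cons (.rel (nat_lit 168099840)) .nil)) .nil)) .leaf)) (nat_lit 2768502128683039) (.br (nat_lit 0) (.cons (.br (nat_lit 3) (.cons (.rel (nat_lit 276825600)) .nil)) .nil)) (.node (.node (.node .leaf (nat_lit 2768504307110643) (.br (nat_lit 0) (.cons (.br (nat_lit 1) (.cons (.rel (nat_lit 25165890)) .nil)) .nil)) .leaf) (nat_lit 2768505234825247) (.br (nat_lit 1) (.cons (.br (nat_lit 0) (.cons (.rel (nat_lit 37814352)) (.cons (.rel (nat_lit 21102849)) .nil))) .nil)) (.node .leaf (nat_lit 2768505236048134) (.br (nat_lit 3) (.cons (.br (nat_lit 4) (.cons (.rel (nat_lit 2684420352)) .nil)) .nil)) .leaf)) (nat_lit 2768507580664563) (.br (nat_lit 0) (.cons (.br (nat_lit 1) (.cons (.rel (nat_lit 42209280)) .nil)) .nil)) (.node (.node .leaf (nat_lit 2768900493451295) (.br (nat_lit 2) (.cons (.br (nat_lit 3) (.cons (.rel (nat_lit 335548437)) .nil)) .nil)) .leaf) (nat_lit 2768900494675431) (.br (nat_lit 0) (.cons (.br (nat_lit 2) (.cons (.rel (nat_lit 71827536)) .nil)) .nil)) .leaf))) (nat_lit 2768902149126945)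 (.br (nat_lit 1) (.cons (.br (nat_lit 6) (.cons (.rel (nat_lit 17198743572)) .nil)) .nil)) (.node (.node (.node (.node .leaf (nat_lit 2768902149127669) (.br (nat_lit 3) (.cons (.br (nat_lit 1) (.cons (.rel (nat_lit 303040512)) (.cons (.rel (nat_lit 555746304)) .nil))) .nil)) .leaf) (nat_lit 2768902149428725) (.br (nat_lit 1) (.cons (.br (nat_lit 2) (.cons (.rel (nat_lit 85197828)) .nil)) .nil)) (.node .leaf (nat_lit 2768902150201519) (.br (nat_lit 3) (.cons (.br (nat_lit 5) (.cons (.br (nat_lit 6) (.cons (.rel (nat_lit 21474838536)) .nil)) .nil)) .nil)) .leaf)) (nat_lit 2768902150202869) (.br (nat_lit 3) (.cons (.br (nat_lit 1) (.cons (.rel (nat_lit 303040512)) (.cons (.rel (nat_lit 555746304)) .nil))) .nil)) (.node (.node .leaf (nat_lit 2768902150202901) (.br (nat_lit 3) (.cons (.br (nat_lit 4) (.cons (.rel (nat_lit 2684420352)) .nil)) .nil)) .leaf) (nat_lit 2768902151424276) (.br (nat_lit 1) (.cons (.br (nat_lit 4) (.cons (.rel (nat_lit 1107820800)) .nil)) .nil)) .leaf)) (nat_lit 2769537805361333)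 (.br (nat_lit 0) (.cons (.br (nat_lit 2) (.cons (.rel (nat_lit 73400325)) .nil)) .nil)) (.node (.node (.node .leaf (nat_lit 2769537805649379) (.br (nat_lit 0) (.cons (.br (nat_lit 1) (.cons (.rel (nat_lit 42209280)) .nil)) .nil)) .leaf) (nat_lit 2769537806583989) (.br (nat_lit 3) (.cons (.br (nat_lit 4) (.cons (.rel (nat_lit 1342448640)) .nil)) .nil)) .leaf) (nat_lit 2770014694754309) (.br (nat_lit 0) (.cons (.br (nat_lit 1) (.cons (.rel (nat_lit 20971920)) .nil)) .nil)) (.node (.node .leaf (nat_lit 2775116447786485) (.br (nat_lit 2) (.cons (.br (nat_lit 6) (.cons (.rel (nat_lit 17246978325)) .nil)) .nil)) .leaf) (nat_lit 2775116858828062) (.br (nat_lit 2) (.cons (.br (nat_lit 4) (.cons (.rel (nat_lit 1140868164)) .nil)) .nil)) .leaf)))))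

/-- refutations 11 -/
def e11 : EX := (.node (.node (.node .leaf (nat_lit 2833521945606146) (.br (nat_lit 1) (.cons (.br (nat_lit 3) (.cons (.rel (nat_lit 285220866)) .nil)) .nil)) .leaf) (nat_lit 2833650377848160) (.br (nat_lit 1) (.cons (.br (nat_lit 3) (.cons (.rel (nat_lit 285220866)) (.cons (.rel (nat_lit 285218913)) .nil))) .nil)) (.node .leaf (nat_lit 2837810415663735) (.br (nat_lit 0) (.cons (.br (nat_lit 2) (.cons (.rel (nat_lit 71307552)) .nil)) .nil)) .leaf)) (nat_lit 2837810417977605) (.br (nat_lit 0) (.cons (.br (nat_lit 5) (.cons (.rel (nat_lit 8598343680)) .nil)) .nil)) (.node (.node .leaf (nat_lit 2837811023837815) (.br (nat_lit 0) (.cons (.br (nat_lit 6) (.cons (.rel (nat_lit 17184063753)) .nil)) .nil)) .leaf) (nat_lit 2845447057352191) (.br (nat_lit 5) (.cons (.br (nat_lit 6) (.cons (.rel (nat_lit 21474844752)) .nil)) .nil)) .leaf))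

/-- refutations 12 -/
def e12 : EX := (.node (.node (.node (.node (.node (.node .leaf (nat_lit 4487185567064819) (.br (nat_lit 0) (.cons (.br (nat_lit 6) (.cons (.rel (nat_lit 17184067968)) .nil)) .nil)) .leaf) (nat_lit 4487185567371921) (.br (nat_lit 0) (.cons (.br (nat_lit 2) (.cons (.br (nat_lit 6) (.cons (.rel (nat_lit 17314087056)) (.cons (.rel (nat_lit 34363932756)) .nil))) (.cons (.rel (nat_lit 71307552)) .nil))) (.cons (.br (nat_lit 1) (.cons (.rel (nat_lit 23085072)) (.cons (.rel (nat_lit 20988228)) (.cons (.rel (nat_lit 20971920)) .nil)))) .nil))) (.node .leaf (nat_lit 4487185567372019) (.br (nat_lit 0) (.cons (.br (nat_lit 6) (.cons (.br (nat_lit 5) (.cons (.rel (nat_lit 21474837537)) (.cons (.rel (nat_lit 21474874368)) .nil))) (.cons (.rel (nat_lit 34368389136)) .nil))) (.cons (.br (nat_lit 6) (.cons (.rel (nat_lit 34368389136)) (.cons (.rel (nat_lit 17184587808)) .nil))) .nil))) .leaf)) (nat_lit 4487185567372195) (.br (nat_lit 1) (.cons (.br (nat_lit 4) (.cons (.rel (nat_lit 1090519080))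 .nil)) .nil)) (.node (.node .leaf (nat_lit 4487185568146919) (.br (nat_lit 4) (.cons (.br (nat_lit 6) (.cons (.rel (nat_lit 35433746496)) .nil)) .nil)) .leaf) (nat_lit 4487185568446495) (.br (nat_lit 0) (.cons (.br (nat_lit 5) (.cons (.rel (nat_lit 4299162693)) .nil)) .nil)) .leaf)) (nat_lit 4487185568447219) (.br (nat_lit 0) (.cons (.br (nat_lit 5) (.cons (.rel (nat_lit 4299178002)) .nil)) .nil)) (.node (.node (.node .leaf (nat_lit 4487185569368095) (.br (nat_lit 3) (.cons (.br (nat_lit 5) (.cons (.rel (nat_lit 4563403344)) .nil)) .nil)) .leaf) (nat_lit 4487185569368196) (.br (nat_lit 6) (.cons (.br (nat_lit 3) (.cons (.rel (nat_lit 17448435792)) (.cons (.rel (nat_lit 17448304674)) .nil))) .nil)) .leaf) (nat_lit 4487185569368369) (.br (nat_lit 1) (.cons (.br (nat_lit 5) (.cons (.rel (nat_lit 4311814146)) .nil)) .nil)) (.node (.node .leaf (nat_lit 4487185569368995) (.br (nat_lit 0) (.cons (.br (nat_lit 6) (.cons (.rel (nat_lit 34363932756)) .nil)) .nil)) .leaf) (nat_lit 4487599966604165) (.br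 (nat_lit 1) (.cons (.br (nat_lit 2) (.cons (.rel (nat_lit 83895552)) .nil)) .nil)) .leaf))) (nat_lit 4488424463853869) (.br (nat_lit 6) (.cons (.br (nat_lit 1) (.cons (.rel (nat_lit 17196714240)) (.cons (.rel (nat_lit 34376523792)) .nil))) .nil)) (.node (.node (.node (.node .leaf (nat_lit 4488425101336852) (.br (nat_lit 4) (.cons (.br (nat_lit 5) (.cons (.rel (nat_lit 5369102337)) .nil)) .nil)) .leaf) (nat_lit 4491697170468996) (.br (nat_lit 0) (.cons (.br (nat_lit 1) (.cons (.rel (nat_lit 23085072)) .nil)) .nil)) (.node .leaf (nat_lit 4491697171544196) (.br (nat_lit 5) (.cons (.br (nat_lit 6) (.cons (.rel (nat_lit 21474844752)) .nil)) .nil)) .leaf)) (nat_lit 4491697171544721) (.br (nat_lit 1) (.cons (.br (nat_lit 5) (.cons (.br (nat_lit 6) (.cons (.rel (nat_lit 21474844752)) .nil)) .nil)) .nil)) (.node (.node .leaf (nat_lit 4491697172466321) (.br (nat_lit 5) (.cons (.br (nat_lit 6) (.cons (.br (nat_lit 4) (.cons (.rel (nat_lit 18253676580)) (.cons (.rel (nat_lit 35433824256)) .nil))) (.cons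 (.rel (nat_lit 21474844752)) .nil))) .nil)) .leaf) (nat_lit 4491697172466595) (.br (nat_lit 1) (.cons (.br (nat_lit 6) (.cons (.rel (nat_lit 34376523792)) .nil)) .nil)) .leaf)) (nat_lit 4491857209139260) (.br (nat_lit 2) (.cons (.br (nat_lit 3) (.cons (.rel (nat_lit 337903620)) .nil)) .nil)) (.node (.node (.node .leaf (nat_lit 4491857209653559) (.br (nat_lit 4) (.cons (.br (nat_lit 6) (.cons (.rel (nat_lit 18253611093)) (.cons (.rel (nat_lit 18253750272)) .nil))) (.cons (.br (nat_lit 6) (.cons (.rel (nat_lit 18253709376)) (.cons (.rel (nat_lit 18253615128)) .nil))) .nil))) .leaf) (nat_lit 4491857209654504) (.br (nat_lit 1) (.cons (.br (nat_lit 6) (.cons (.rel (nat_lit 17213427744)) .nil)) .nil)) .leaf) (nat_lit 4491857210432164) (.br (nat_lit 4) (.cons (.br (nat_lit 0) (.cons (.rel (nat_lit 1082147328)) (.cons (.rel (nat_lit 2152271904)) .nil))) .nil)) (.node (.node .leaf (nat_lit 4491857321580022) (.br (nat_lit 0) (.cons (.br (nat_lit 4) (.cons (.rel (nat_lit 1078001736)) .nil)) .nil)) .leaf)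 (nat_lit 4491857323575922) (.br (nat_lit 4) (.cons (.br (nat_lit 6) (.cons (.rel (nat_lit 18253676580)) .nil)) .nil)) .leaf)))) (nat_lit 4491857824650622) (.br (nat_lit 6) (.cons (.br (nat_lit 5) (.cons (.rel (nat_lit 21474934785)) (.cons (.rel (nat_lit 21474844752)) .nil))) .nil)) (.node (.node (.node (.node (.node .leaf (nat_lit 4491857824650771) (.br (nat_lit 0) (.cons (.br (nat_lit 6) (.cons (.rel (nat_lit 17188290564)) .nil)) .nil)) .leaf) (nat_lit 4491857825908897) (.br (nat_lit 5) (.cons (.br (nat_lit 0) (.cons (.rel (nat_lit 4299163728)) (.cons (.rel (nat_lit 4299202560)) .nil))) .nil)) (.node .leaf (nat_lit 4491857826216247) (.br (nat_lit 6) (.cons (.br (nat_lit 4) (.cons (.rel (nat_lit 18253631616)) (.cons (.rel (nat_lit 19327353168)) .nil))) .nil)) .leaf)) (nat_lit 4491857826216612) (.br (nat_lit 6) (.cons (.br (nat_lit 3) (.cons (.rel (nat_lit 17448830496)) (.cons (.rel (nat_lit 17448305673)) .nil))) .nil)) (.node (.node .leaf (nat_lit 4491857826891937) (.br (nat_lit 1) (.cons (.br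 (nat_lit 2) (.cons (.rel (nat_lit 83902800)) .nil)) .nil)) .leaf) (nat_lit 4491857826994852) (.br (nat_lit 0) (.cons (.br (nat_lit 4) (.cons (.rel (nat_lit 2151710976)) .nil)) .nil)) .leaf)) (nat_lit 4491857827207468) (.br (nat_lit 5) (.cons (.br (nat_lit 0) (.cons (.rel (nat_lit 4300341504)) (.cons (.rel (nat_lit 4299163728)) (.cons (.rel (nat_lit 4301520912)) .nil)))) .nil)) (.node (.node (.node .leaf (nat_lit 4491857827207948) (.br (nat_lit 4) (.cons (.br (nat_lit 3) (.cons (.rel (nat_lit 1342448640)) (.cons (.rel (nat_lit 1342448640)) (.cons (.rel (nat_lit 2415935553)) .nil)))) (.cons (.br (nat_lit 1) (.cons (.rel (nat_lit 1090519080)) (.cons (.rel (nat_lit 1090519080)) (.cons (.rel (nat_lit 1090592772)) (.cons (.rel (nat_lit 1090535568)) .nil))))) .nil))) .leaf) (nat_lit 4491857827208568) (.br (nat_lit 6) (.cons (.br (nat_lit 1) (.cons (.br (nat_lit 5) (.cons (.rel (nat_lit 4311745668)) (.cons (.rel (nat_lit 4311814146)) .nil))) (.cons (.rel (nat_lit 17197236225)) (.cons (.rel (nat_lit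 17213489160)) (.cons (.rel (nat_lit 17213489160)) .nil))))) .nil)) .leaf) (nat_lit 4491860458673534) (.br (nat_lit 6) (.cons (.br (nat_lit 0) (.cons (.rel (nat_lit 17184064788)) (.cons (.rel (nat_lit 17184067968)) .nil))) .nil)) (.node (.node .leaf (nat_lit 4491860459726300) (.br (nat_lit 0) (.cons (.br (nat_lit 1) (.cons (.rel (nat_lit 20971920)) .nil)) .nil)) .leaf) (nat_lit 4491860459993264) (.br (nat_lit 1) (.cons (.br (nat_lit 2) (.cons (.rel (nat_lit 83895552)) .nil)) .nil)) .leaf))) (nat_lit 4491860460157184) (.br (nat_lit 1) (.cons (.br (nat_lit 2) (.cons (.rel (nat_lit 83955969)) .nil)) .nil)) (.node (.node (.node (.node .leaf (nat_lit 4491860460239524) (.br (nat_lit 6) (.cons (.br (nat_lit 1) (.cons (.rel (nat_lit 17213427744)) (.cons (.rel (nat_lit 34376523792)) (.cons (.rel (nat_lit 17196650754)) .nil)))) .nil)) .leaf) (nat_lit 4491860460240410) (.br (nat_lit 1) (.cons (.br (nat_lit 4) (.cons (.rel (nat_lit 1090535568)) .nil)) .nil)) .leaf) (nat_lit 4491860460915314) (.br (nat_lit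 6) (.cons (.br (nat_lit 1) (.cons (.rel (nat_lit 17213424708)) (.cons (.rel (nat_lit 17213440017)) (.cons (.rel (nat_lit 17197195344)) .nil)))) (.cons (.br (nat_lit 5) (.cons (.rel (nat_lit 21474934785)) (.cons (.rel (nat_lit 38654771712)) (.cons (.rel (nat_lit 21474844752)) (.cons (.rel (nat_lit 42949673988)) (.cons (.rel (nat_lit 21474857025)) .nil)))))) .nil))) (.node (.node .leaf (nat_lit 4491860460915465) (.br (nat_lit 6) (.cons (.br (nat_lit 1) (.cons (.rel (nat_lit 34376523792)) (.cons (.rel (nat_lit 34376523792)) .nil))) .nil)) .leaf) (nat_lit 4491860461230140) (.br (nat_lit 1) (.cons (.br (nat_lit 3) (.cons (.rel (nat_lit 555746304)) .nil)) .nil)) .leaf)) (nat_lit 4491860461230860) (.br (nat_lit 1) (.cons (.br (nat_lit 6) (.cons (.rel (nat_lit 17213427744)) (.cons (.rel (nat_lit 17196736776)) .nil))) .nil)) (.node (.node (.node .leaf (nat_lit 4491860461231580) (.br (nat_lit 1) (.cons (.br (nat_lit 2) (.cons (.rel (nat_lit 83902800)) .nil)) .nil)) .leaf) (nat_lit 4491860461515689) (.br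 (nat_lit 6) (.cons (.br (nat_lit 4) (.cons (.rel (nat_lit 18253611093)) (.cons (.rel (nat_lit 18253709376)) (.cons (.rel (nat_lit 18253631616)) (.cons (.rel (nat_lit 18253750272)) .nil))))) .nil)) .leaf) (nat_lit 4492539044776873) (.br (nat_lit 2) (.cons (.br (nat_lit 1) (.cons (.rel (nat_lit 168099840)) (.cons (.rel (nat_lit 151060485)) (.cons (.rel (nat_lit 83919108)) .nil)))) .nil)) (.node (.node .leaf (nat_lit 4492539045091954) (.br (nat_lit 0) (.cons (.br (nat_lit 6) (.cons (.rel (nat_lit 17184064788)) .nil)) .nil)) .leaf) (nat_lit 4492539045376780) (.br (nat_lit 2) (.cons (.br (nat_lit 5) (.cons (.rel (nat_lit 4362162240)) (.cons (.rel (nat_lit 8724156480)) .nil))) .nil)) .leaf)))))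

/-- refutations 13 -/
def e13 : EX := (.node (.node (.node (.node (.node (.node (.node .leaf (nat_lit 4493541600873074) (.br (nat_lit 2) (.cons (.br (nat_lit 0) (.cons (.rel (nat_lit 71307552)) (.cons (.rel (nat_lit 75513984)) .nil))) .nil)) .leaf) (nat_lit 4493543584778995) (.br (nat_lit 0) (.cons (.br (nat_lit 3) (.cons (.rel (nat_lit 273748224)) .nil)) .nil)) .leaf) (nat_lit 4494047755673876) (.br (nat_lit 1) (.cons (.br (nat_lit 4) (.cons (.rel (nat_lit 1090519080)) (.cons (.rel (nat_lit 1090519080)) .nil))) .nil)) (.node .leaf (nat_lit 4494047756896882) (.br (nat_lit 0) (.cons (.br (nat_lit 4) (.cons (.rel (nat_lit 1078001736)) .nil)) .nil)) .leaf)) (nat_lit 4494048259229857) (.br (nat_lit 2) (.cons (.br (nat_lit 3) (.cons (.rel (nat_lit 335544402)) .nil)) .nil)) (.node (.node .leaf (nat_lit 4494048259292067) (.br (nat_lit 0) (.cons (.br (nat_lit 1) (.cons (.rel (nat_lit 42209280)) .nil)) .nil)) .leaf) (nat_lit 4494048260213517) (.br (nat_lit 0) (.cons (.br (nat_lit 1) (.cons (.rel (nat_lit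 22020612)) .nil)) .nil)) (.node .leaf (nat_lit 4494048924850957) (.br (nat_lit 6) (.cons (.br (nat_lit 0) (.cons (.rel (nat_lit 34363999233)) (.cons (.rel (nat_lit 17188259985)) .nil))) .nil)) .leaf))) (nat_lit 4494048925110303) (.br (nat_lit 0) (.cons (.br (nat_lit 5) (.cons (.rel (nat_lit 4299166728)) .nil)) .nil)) (.node (.node (.node .leaf (nat_lit 4494048925110404) (.br (nat_lit 3) (.cons (.br (nat_lit 5) (.cons (.rel (nat_lit 4831871040)) (.cons (.rel (nat_lit 8858370072)) .nil))) .nil)) .leaf) (nat_lit 4494048925111027) (.br (nat_lit 0) (.cons (.br (nat_lit 3) (.cons (.br (nat_lit 5) (.cons (.br (nat_lit 6) (.cons (.rel (nat_lit 21475098912)) (.cons (.rel (nat_lit 17188290564)) (.cons (.rel (nat_lit 34368389136)) .nil)))) .nil)) .nil)) .nil)) (.node .leaf (nat_lit 4494048925885927) (.br (nat_lit 1) (.cons (.br (nat_lit 2) (.cons (.rel (nat_lit 168099840)) (.cons (.rel (nat_lit 83919108)) .nil))) .nil)) .leaf)) (nat_lit 4494048926186227) (.br (nat_lit 4) (.cons (.br (nat_lit 5) (.cons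 (.br (nat_lit 1) (.cons (.br (nat_lit 6) (.cons (.rel (nat_lit 18253611093)) (.cons (.rel (nat_lit 18253676580)) (.cons (.rel (nat_lit 17213427744)) .nil)))) (.cons (.rel (nat_lit 1090519080)) .nil))) .nil)) .nil)) (.node (.node .leaf (nat_lit 4494048926186403) (.br (nat_lit 3) (.cons (.br (nat_lit 4) (.cons (.rel (nat_lit 1610678277)) .nil)) .nil)) .leaf) (nat_lit 4494048926186899) (.br (nat_lit 1) (.cons (.br (nat_lit 3) (.cons (.rel (nat_lit 285212805)) .nil)) .nil)) (.node .leaf (nat_lit 4494048926187029) (.br (nat_lit 1) (.cons (.br (nat_lit 0) (.cons (.rel (nat_lit 23085072)) (.cons (.rel (nat_lit 37830660)) .nil))) .nil)) .leaf)))) (nat_lit 4494048927107074) (.br (nat_lit 1) (.cons (.br (nat_lit 2) (.cons (.rel (nat_lit 85197828)) .nil)) .nil)) (.node (.node (.node (.node .leaf (nat_lit 4494048927107077) (.br (nat_lit 4) (.cons (.br (nat_lit 1) (.cons (.rel (nat_lit 1090519080)) (.cons (.rel (nat_lit 1090666497)) (.cons (.br (nat_lit 0) (.cons (.rel (nat_lit 20971920)) (.cons (.rel (nat_lit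 25165890)) .nil))) .nil)))) .nil)) .leaf) (nat_lit 4494048927107204) (.br (nat_lit 5) (.cons (.br (nat_lit 6) (.cons (.rel (nat_lit 21474934785)) .nil)) .nil)) (.node .leaf (nat_lit 4494048927107377) (.br (nat_lit 0) (.cons (.br (nat_lit 6) (.cons (.rel (nat_lit 17188290564)) (.cons (.rel (nat_lit 34368389136)) .nil))) .nil)) .leaf)) (nat_lit 4494048927722253) (.br (nat_lit 0) (.cons (.br (nat_lit 2) (.cons (.rel (nat_lit 71368968)) .nil)) .nil)) (.node (.node .leaf (nat_lit 4494050388922644) (.br (nat_lit 0) (.cons (.br (nat_lit 1) (.cons (.rel (nat_lit 20988228)) .nil)) .nil)) .leaf) (nat_lit 4494050389696788) (.br (nat_lit 2) (.cons (.br (nat_lit 3) (.cons (.rel (nat_lit 335675520)) (.cons (.rel (nat_lit 335675520)) .nil))) (.cons (.br (nat_lit 3) (.cons (.rel (nat_lit 335544402)) (.cons (.rel (nat_lit 335548437)) .nil))) .nil))) (.node .leaf (nat_lit 4494050389697169) (.br (nat_lit 0) (.cons (.br (nat_lit 2) (.cons (.rel (nat_lit 71307552)) (.cons (.rel (nat_lit 75513984)) .nil))) .nil))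 .leaf))) (nat_lit 4494050389997599) (.br (nat_lit 1) (.cons (.br (nat_lit 5) (.cons (.rel (nat_lit 4313317380)) .nil)) .nil)) (.node (.node (.node .leaf (nat_lit 4494050389997628) (.br (nat_lit 1) (.cons (.br (nat_lit 3) (.cons (.rel (nat_lit 285294600)) .nil)) .nil)) .leaf) (nat_lit 4494050389997700) (.br (nat_lit 5) (.cons (.br (nat_lit 1) (.cons (.rel (nat_lit 4311877632)) (.cons (.rel (nat_lit 4311877632)) .nil))) .nil)) (.node .leaf (nat_lit 4494050389997873) (.br (nat_lit 1) (.cons (.br (nat_lit 4) (.cons (.rel (nat_lit 1107820800)) .nil)) .nil)) .leaf)) (nat_lit 4494050389998323) (.br (nat_lit 1) (.cons (.br (nat_lit 4) (.cons (.rel (nat_lit 1090519080)) (.cons (.rel (nat_lit 1090535568)) .nil))) .nil)) (.node (.node .leaf (nat_lit 4494050389998499) (.br (nat_lit 4) (.cons (.br (nat_lit 5) (.cons (.rel (nat_lit 5368971408)) .nil)) .nil)) .leaf) (nat_lit 4494050390919228) (.br (nat_lit 1) (.cons (.br (nat_lit 4) (.cons (.rel (nat_lit 2181038100)) .nil)) .nil)) (.node .leaf (nat_lit 4494050390919300)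 (.br (nat_lit 6) (.cons (.br (nat_lit 1) (.cons (.rel (nat_lit 17196663072)) (.cons (.rel (nat_lit 17196663072)) .nil))) .nil)) .leaf))))) (nat_lit 4494050390919825) (.br (nat_lit 1) (.cons (.br (nat_lit 5) (.cons (.rel (nat_lit 4311760977)) (.cons (.br (nat_lit 4) (.cons (.rel (nat_lit 1090519080)) (.cons (.rel (nat_lit 1107820800)) (.cons (.br (nat_lit 6) (.cons (.rel (nat_lit 18253676580)) (.cons (.br (nat_lit 0) (.cons (.rel (nat_lit 34368389136)) (.cons (.rel (nat_lit 34363938816)) .nil))) .nil))) .nil)))) .nil))) .nil)) (.node (.node (.node (.node (.node (.node .leaf (nat_lit 4494050390919923) (.br (nat_lit 5) (.cons (.br (nat_lit 1) (.cons (.br (nat_lit 3) (.cons (.rel (nat_lit 4564451460)) (.cons (.rel (nat_lit 285284352)) (.cons (.rel (nat_lit 4580180289)) (.cons (.rel (nat_lit 285220866)) .nil))))) (.cons (.br (nat_lit 4) (.cons (.rel (nat_lit 5369759760)) (.cons (.rel (nat_lit 1107820800)) (.cons (.br (nat_lit 6) (.cons (.rel (nat_lit 21474837537)) (.cons (.br (nat_lit 0) (.cons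 (.rel (nat_lit 17184587808)) (.cons (.rel (nat_lit 34369180680)) (.cons (.rel (nat_lit 34363949064)) .nil)))) (.cons (.br (nat_lit 0) (.cons (.rel (nat_lit 34363949064)) (.cons (.rel (nat_lit 34363938816)) (.cons (.rel (nat_lit 34363932756)) .nil)))) .nil)))) .nil)))) .nil))) .nil)) .leaf) (nat_lit 4494050390920099) (.br (nat_lit 4) (.cons (.br (nat_lit 6) (.cons (.rel (nat_lit 18253676580)) .nil)) .nil)) .leaf) (nat_lit 4494050390920725) (.br (nat_lit 3) (.cons (.br (nat_lit 5) (.cons (.rel (nat_lit 4564451460)) .nil)) .nil)) (.node .leaf (nat_lit 4494051509575740) (.br (nat_lit 3) (.cons (.br (nat_lit 6) (.cons (.rel (nat_lit 17448370305)) .nil)) .nil)) .leaf)) (nat_lit 4494051509575956) (.br (nat_lit 0) (.cons (.br (nat_lit 6) (.cons (.rel (nat_lit 17184067968)) .nil)) .nil)) (.node (.node .leaf (nat_lit 4494051510020357) (.br (nat_lit 4) (.cons (.br (nat_lit 1) (.cons (.rel (nat_lit 1090519080)) (.cons (.rel (nat_lit 1090519080)) .nil))) .nil)) .leaf) (nat_lit 4494051510123752) (.br (nat_lit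 6) (.cons (.br (nat_lit 4) (.cons (.rel (nat_lit 19327369476)) (.cons (.rel (nat_lit 18253611093)) .nil))) .nil)) (.node .leaf (nat_lit 4494051510798597) (.br (nat_lit 0) (.cons (.br (nat_lit 5) (.cons (.rel (nat_lit 4304470032)) .nil)) .nil)) .leaf))) (nat_lit 4494051510798962) (.br (nat_lit 1) (.cons (.br (nat_lit 6) (.cons (.rel (nat_lit 17198039040)) (.cons (.rel (nat_lit 17196663072)) (.cons (.rel (nat_lit 34376646660)) .nil)))) (.cons (.br (nat_lit 4) (.cons (.rel (nat_lit 1090519080)) (.cons (.rel (nat_lit 1107820800)) (.cons (.rel (nat_lit 1090519080)) (.cons (.rel (nat_lit 1090519080)) .nil))))) (.cons (.br (nat_lit 4) (.cons (.rel (nat_lit 1090519080)) (.cons (.rel (nat_lit 1090535568)) (.cons (.rel (nat_lit 1107820800)) (.cons (.br (nat_lit 6) (.cons (.rel (nat_lit 36507291648)) (.cons (.rel (nat_lit 34376646660)) (.cons (.rel (nat_lit 18253676580)) .nil)))) .nil))))) .nil)))) (.node (.node (.node .leaf (nat_lit 4494051510798993) (.br (nat_lit 2) (.cons (.br (nat_lit 0) (.cons (.rel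 (nat_lit 71307552)) (.cons (.rel (nat_lit 75632640)) .nil))) .nil)) .leaf) (nat_lit 4494051510799272) (.br (nat_lit 4) (.cons (.br (nat_lit 5) (.cons (.rel (nat_lit 5368717824)) .nil)) .nil)) (.node .leaf (nat_lit 4494051511113788) (.br (nat_lit 3) (.cons (.br (nat_lit 5) (.cons (.rel (nat_lit 4831839234)) .nil)) .nil)) .leaf)) (nat_lit 4496796401749219) (.br (nat_lit 0) (.cons (.br (nat_lit 2) (.cons (.rel (nat_lit 73400325)) .nil)) .nil)) (.node (.node .leaf (nat_lit 4497827873376562) (.br (nat_lit 0) (.cons (.br (nat_lit 6) (.cons (.rel (nat_lit 17184067968)) (.cons (.rel (nat_lit 34368389136)) .nil))) .nil)) .leaf) (nat_lit 4497870925593202) (.br (nat_lit 1) (.cons (.br (nat_lit 2) (.cons (.rel (nat_lit 168099840)) .nil)) .nil)) (.node .leaf (nat_lit 4497870927200882) (.br (nat_lit 0) (.cons (.br (nat_lit 3) (.cons (.rel (nat_lit 272696352)) .nil)) .nil)) .leaf)))) (nat_lit 4497874029437553) (.br (nat_lit 3) (.cons (.br (nat_lit 4) (.cons (.rel (nat_lit 1343225862)) .nil)) .nil)) (.node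 (.node (.node (.node .leaf (nat_lit 4497874031692037) (.br (nat_lit 0) (.cons (.br (nat_lit 5) (.cons (.rel (nat_lit 4299180036)) (.cons (.rel (nat_lit 4299202560)) .nil))) .nil)) .leaf) (nat_lit 4497874032007173) (.br (nat_lit 4) (.cons (.br (nat_lit 5) (.cons (.rel (nat_lit 5368717824)) (.cons (.br (nat_lit 3) (.cons (.rel (nat_lit 1342472196)) (.cons (.rel (nat_lit 2684358948)) (.cons (.rel (nat_lit 4831871040)) .nil)))) .nil))) (.cons (.br (nat_lit 5) (.cons (.rel (nat_lit 5368717824)) (.cons (.rel (nat_lit 5368717824)) .nil))) .nil))) (.node .leaf (nat_lit 4497874032007468) (.br (nat_lit 6) (.cons (.br (nat_lit 4) (.cons (.rel (nat_lit 18253750272)) (.cons (.rel (nat_lit 18253676580)) .nil))) .nil)) .leaf)) (nat_lit 4497874032007793) (.br (nat_lit 2) (.cons (.br (nat_lit 4) (.cons (.rel (nat_lit 1209040896)) (.cons (.rel (nat_lit 1209040896)) .nil))) (.cons (.br (nat_lit 4) (.cons (.rel (nat_lit 2281705473)) (.cons (.rel (nat_lit 1140871200)) .nil))) .nil))) (.node (.node .leaf (nat_lit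 4497875623213682) (.br (nat_lit 1) (.cons (.br (nat_lit 2) (.cons (.rel (nat_lit 83919108)) .nil)) .nil)) .leaf) (nat_lit 4497875624596392) (.br (nat_lit 0) (.cons (.br (nat_lit 2) (.cons (.rel (nat_lit 71307552)) .nil)) .nil)) (.node .leaf (nat_lit 4497875625527557) (.br (nat_lit 0) (.cons (.br (nat_lit 4) (.cons (.rel (nat_lit 1077956628)) .nil)) .nil)) .leaf))) (nat_lit 4498308865472687) (.br (nat_lit 3) (.cons (.br (nat_lit 4) (.cons (.br (nat_lit 6) (.cons (.br (nat_lit 0) (.cons (.rel (nat_lit 17188267008)) (.cons (.rel (nat_lit 541067520)) .nil))) .nil)) .nil)) .nil)) (.node (.node (.node .leaf (nat_lit 4498308865473137) (.br (nat_lit 1) (.cons (.br (nat_lit 3) (.cons (.br (nat_lit 4) (.cons (.br (nat_lit 6) (.cons (.br (nat_lit 0) (.cons (.rel (nat_lit 17453548560)) (.cons (.rel (nat_lit 17188267008)) (.cons (.rel (nat_lit 272648208)) .nil)))) .nil)) .nil)) .nil)) .nil)) .leaf) (nat_lit 4498308865473763) (.br (nat_lit 3) (.cons (.br (nat_lit 6) (.cons (.br (nat_lit 0) (.cons (.rel (nat_lit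 541067520)) (.cons (.rel (nat_lit 17188267008)) .nil))) .nil)) .nil)) (.node .leaf (nat_lit 4498308866548337) (.br (nat_lit 3) (.cons (.br (nat_lit 4) (.cons (.br (nat_lit 6) (.cons (.br (nat_lit 0) (.cons (.rel (nat_lit 17453548560)) (.cons (.rel (nat_lit 272633865)) (.cons (.rel (nat_lit 17188267008)) .nil)))) .nil)) .nil)) .nil)) .leaf)) (nat_lit 4498308866548599) (.br (nat_lit 0) (.cons (.br (nat_lit 1) (.cons (.rel (nat_lit 23085072)) .nil)) .nil)) (.node (.node .leaf (nat_lit 4498308866549139) (.br (nat_lit 3) (.cons (.br (nat_lit 4) (.cons (.br (nat_lit 6) (.cons (.br (nat_lit 2) (.cons (.rel (nat_lit 34426847328)) (.cons (.rel (nat_lit 35567698944)) (.cons (.rel (nat_lit 34426847328)) .nil)))) .nil)) .nil)) .nil)) .leaf) (nat_lit 4498308867770644) (.br (nat_lit 0) (.cons (.br (nat_lit 2) (.cons (.rel (nat_lit 71827536)) .nil)) .nil)) (.node .leaf (nat_lit 4498308868087160) (.br (nat_lit 0) (.cons (.br (nat_lit 1) (.cons (.rel (nat_lit 25231377)) .nil)) .nil)) .leaf))))))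

/-- refutations 14 -/
def e14 : EX := (.node (.node (.node (.node .leaf (nat_lit 3096287499326846) (.br (nat_lit 3) (.cons (.br (nat_lit 4) (.cons (.rel (nat_lit 2684420352)) .nil)) .nil)) .leaf) (nat_lit 3096657535752868) (.br (nat_lit 0) (.cons (.br (nat_lit 1) (.cons (.rel (nat_lit 21042432)) .nil)) .nil)) (.node .leaf (nat_lit 3097534325541801) (.br (nat_lit 0) (.cons (.br (nat_lit 1) (.cons (.rel (nat_lit 20975958)) .nil)) .nil)) .leaf)) (nat_lit 3102074624774154) (.br (nat_lit 1) (.cons (.br (nat_lit 4) (.cons (.rel (nat_lit 2181038100)) .nil)) .nil)) (.node (.node .leaf (nat_lit 3102074626067058) (.br (nat_lit 1) (.cons (.br (nat_lit 2) (.cons (.rel (nat_lit 100745232)) (.cons (.rel (nat_lit 151061520)) .nil))) .nil)) .leaf) (nat_lit 3102074626382604) (.br (nat_lit 6) (.cons (.br (nat_lit 1) (.cons (.rel (nat_lit 17196663072)) (.cons (.rel (nat_lit 17197236225)) .nil))) .nil)) .leaf)) (nat_lit 3102945367771916) (.br (nat_lit 1) (.cons (.br (nat_lit 4) (.cons (.rel (nat_lit 1107820800))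 .nil)) .nil)) (.node (.node (.node .leaf (nat_lit 3103975493344169) (.br (nat_lit 1) (.cons (.br (nat_lit 2) (.cons (.rel (nat_lit 83895552)) (.cons (.rel (nat_lit 84935184)) (.cons (.rel (nat_lit 83902800)) (.cons (.rel (nat_lit 84935184)) (.cons (.rel (nat_lit 83919108)) (.cons (.rel (nat_lit 168099840)) (.cons (.rel (nat_lit 168099840)) (.cons (.rel (nat_lit 100745232)) .nil))))))))) .nil)) .leaf) (nat_lit 3103976776485644) (.br (nat_lit 1) (.cons (.br (nat_lit 3) (.cons (.rel (nat_lit 285216840)) (.cons (.rel (nat_lit 303040512)) (.cons (.rel (nat_lit 285230148)) .nil)))) .nil)) (.node .leaf (nat_lit 3103976776801193) (.br (nat_lit 3) (.cons (.br (nat_lit 1) (.cons (.rel (nat_lit 285212805)) (.cons (.rel (nat_lit 285212805)) .nil))) .nil)) .leaf)) (nat_lit 3108337210430846) (.br (nat_lit 3) (.cons (.br (nat_lit 6) (.cons (.rel (nat_lit 34896609297)) .nil)) .nil)) (.node (.node .leaf (nat_lit 3108337333085666) (.br (nat_lit 0) (.cons (.br (nat_lit 1) (.cons (.rel (nat_lit 37748865)) .nil))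 .nil)) .leaf) (nat_lit 3108339847295913) (.br (nat_lit 0) (.cons (.br (nat_lit 1) (.cons (.rel (nat_lit 25183233)) .nil)) .nil)) .leaf)))

/-- refutations 15 -/
def e15 : EX := (.node (.node .leaf (nat_lit 4598533286028070) (.br (nat_lit 1) (.cons (.br (nat_lit 2) (.cons (.rel (nat_lit 83902800)) .nil)) .nil)) .leaf) (nat_lit 4602301883303938) (.br (nat_lit 0) (.cons (.br (nat_lit 5) (.cons (.rel (nat_lit 4299202560)) (.cons (.rel (nat_lit 4299180036)) .nil))) .nil)) (.node .leaf (nat_lit 4602555788468256) (.br (nat_lit 0) (.cons (.br (nat_lit 1) (.cons (.rel (nat_lit 21504000)) .nil)) .nil)) .leaf))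

/-- refutations 16 -/
def e16 : EX := (.node (.node (.node .leaf (nat_lit 4875203914295558) (.br (nat_lit 0) (.cons (.br (nat_lit 3) (.cons (.rel (nat_lit 272633865)) .nil)) .nil)) .leaf) (nat_lit 4878493551119246) (.br (nat_lit 1) (.cons (.br (nat_lit 2) (.cons (.rel (nat_lit 100672545)) .nil)) .nil)) .leaf) (nat_lit 4878890732688765) (.br (nat_lit 0) (.cons (.br (nat_lit 1) (.cons (.rel (nat_lit 37830660)) .nil)) .nil)) (.node .leaf (nat_lit 4878890734938142) (.br (nat_lit 1) (.cons (.br (nat_lit 4) (.cons (.rel (nat_lit 2181038100)) .nil)) .nil)) .leaf))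

/-- refutations 17 -/
def e17 : EX := (.node (.node .leaf (nat_lit 5032882494108954) (.br (nat_lit 1) (.cons (.br (nat_lit 3) (.cons (.rel (nat_lit 286262532)) .nil)) .nil)) .leaf) (nat_lit 5038902257408032) (.br (nat_lit 3) (.cons (.br (nat_lit 4) (.cons (.rel (nat_lit 1610679312)) .nil)) .nil)) (.node .leaf (nat_lit 5403464779811447) (.br (nat_lit 0) (.cons (.br (nat_lit 1) (.cons (.rel (nat_lit 23085072)) .nil)) .nil)) .leaf))

/-- refutations 18 -/
def e18 : EX := (.node (.node (.node (.node .leaf (nat_lit 5471685259064233) (.br (nat_lit 0) (.cons (.br (nat_lit 2) (.cons (.rel (nat_lit 138444864)) .nil)) .nil)) .leaf) (nat_lit 5476586772449906) (.br (nat_lit 2) (.cons (.br (nat_lit 4) (.cons (.rel (nat_lit 2281705473)) .nil)) .nil)) .leaf) (nat_lit 5477024959777394) (.br (nat_lit 1) (.cons (.br (nat_lit 5) (.cons (.rel (nat_lit 4311745668)) .nil)) .nil)) (.node .leaf (nat_lit 5477026150959730) (.br (nat_lit 2) (.cons (.br (nat_lit 4) (.cons (.rel (nat_lit 1140917346)) .nil)) .nil)) .leaf))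 (nat_lit 5478054174869680) (.br (nat_lit 1) (.cons (.br (nat_lit 3) (.cons (.rel (nat_lit 285213840)) .nil)) .nil)) (.node (.node (.node .leaf (nat_lit 5478141750715899) (.br (nat_lit 1) (.cons (.br (nat_lit 3) (.cons (.rel (nat_lit 285216840)) .nil)) .nil)) .leaf) (nat_lit 5478920609024780) (.br (nat_lit 2) (.cons (.br (nat_lit 4) (.cons (.rel (nat_lit 1140916308)) (.cons (.rel (nat_lit 1140916308)) .nil))) .nil)) .leaf) (nat_lit 5478924526504716) (.br (nat_lit 0) (.cons (.br (nat_lit 4) (.cons (.rel (nat_lit 1077940320)) .nil)) .nil)) (.node .leaf (nat_lit 5484358562509060) (.br (nat_lit 0) (.cons (.br (nat_lit 1) (.cons (.rel (nat_lit 20971920)) .nil)) .nil)) .leaf)))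

/-- refutations 19 -/
def e19 : EX := (.node (.node (.node (.node (.node (.node .leaf (nat_lit 11172561960884900) (.br (nat_lit 3) (.cons (.br (nat_lit 4) (.cons (.rel (nat_lit 1610617860)) .nil)) .nil)) .leaf) (nat_lit 11172564010758174) (.br (nat_lit 2) (.cons (.br (nat_lit 5) (.cons (.rel (nat_lit 4362077265)) (.cons (.rel (nat_lit 4363194624)) .nil))) .nil)) .leaf) (nat_lit 11172564011796665) (.br (nat_lit 0) (.cons (.br (nat_lit 2) (.cons (.rel (nat_lit 71843844)) .nil)) .nil)) (.node .leaf (nat_lit 11172564011797281) (.br (nat_lit 0) (.cons (.br (nat_lit 1) (.cons (.rel (nat_lit 37766208)) .nil)) .nil)) .leaf)) (nat_lit 11173421371633121) (.br (nat_lit 4) (.cons (.br (nat_lit 0) (.cons (.rel (nat_lit 2151710976)) (.cons (.rel (nat_lit 1077968901)) .nil))) .nil)) (.node (.node (.node .leaf (nat_lit 11173423032577505) (.br (nat_lit 0) (.cons (.br (nat_lit 2) (.cons (.rel (nat_lit 73400325)) .nil)) .nil)) .leaf) (nat_lit 11173624998743417) (.br (nat_lit 0) (.cons (.br (nat_lit 1) (.cons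 (.rel (nat_lit 21504000)) .nil)) .nil)) .leaf) (nat_lit 11176888020453402) (.br (nat_lit 0) (.cons (.br (nat_lit 2) (.cons (.rel (nat_lit 138444864)) .nil)) .nil)) (.node .leaf (nat_lit 11176888020454002) (.br (nat_lit 2) (.cons (.br (nat_lit 4) (.cons (.rel (nat_lit 1140916308)) .nil)) .nil)) .leaf))) (nat_lit 11176889171848569) (.br (nat_lit 1) (.cons (.br (nat_lit 2) (.cons (.br (nat_lit 6) (.cons (.rel (nat_lit 17314087056)) .nil)) .nil)) .nil)) (.node (.node (.node (.node .leaf (nat_lit 11176889173887602) (.br (nat_lit 4) (.cons (.br (nat_lit 3) (.cons (.rel (nat_lit 1343225862)) (.cons (.rel (nat_lit 1342472196)) .nil))) .nil)) .leaf) (nat_lit 11176889173990002) (.br (nat_lit 0) (.cons (.br (nat_lit 3) (.cons (.rel (nat_lit 272630865)) .nil)) .nil)) .leaf) (nat_lit 11176889173990052) (.br (nat_lit 4) (.cons (.br (nat_lit 6) (.cons (.rel (nat_lit 18253612128)) (.cons (.rel (nat_lit 18253750272)) .nil))) (.cons (.br (nat_lit 3) (.cons (.rel (nat_lit 1342472196)) (.cons (.rel (nat_lit 1342455888))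 (.cons (.rel (nat_lit 1343226897)) (.cons (.rel (nat_lit 2684420352)) .nil))))) .nil))) (.node .leaf (nat_lit 11176889174246177) (.br (nat_lit 2) (.cons (.br (nat_lit 3) (.cons (.rel (nat_lit 337903620)) (.cons (.rel (nat_lit 335675520)) .nil))) .nil)) .leaf)) (nat_lit 11176891559408373) (.br (nat_lit 1) (.cons (.br (nat_lit 3) (.cons (.rel (nat_lit 285216840)) .nil)) .nil)) (.node (.node .leaf (nat_lit 11176893695449764) (.br (nat_lit 1) (.cons (.br (nat_lit 5) (.cons (.rel (nat_lit 4311760977)) .nil)) .nil)) .leaf) (nat_lit 11176925628525945) (.br (nat_lit 1) (.cons (.br (nat_lit 4) (.cons (.rel (nat_lit 1090521105)) .nil)) .nil)) (.node .leaf (nat_lit 11177924160343517) (.br (nat_lit 0) (.cons (.br (nat_lit 3) (.cons (.rel (nat_lit 272648208)) .nil)) .nil)) .leaf)))) (nat_lit 11179044594902423) (.br (nat_lit 0) (.cons (.br (nat_lit 2) (.cons (.rel (nat_lit 71307552)) .nil)) .nil)) (.node (.node (.node (.node (.node .leaf (nat_lit 11179081619695877) (.br (nat_lit 0) (.cons (.br (nat_lit 2)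 (.cons (.rel (nat_lit 71307552)) (.cons (.rel (nat_lit 71368968)) .nil))) .nil)) .leaf) (nat_lit 11179081620473882) (.br (nat_lit 0) (.cons (.br (nat_lit 2) (.cons (.rel (nat_lit 71843844)) .nil)) .nil)) .leaf) (nat_lit 11182213779900677) (.br (nat_lit 0) (.cons (.br (nat_lit 4) (.cons (.rel (nat_lit 1077952593)) .nil)) .nil)) (.node .leaf (nat_lit 11182213779901727) (.br (nat_lit 1) (.cons (.br (nat_lit 2) (.cons (.rel (nat_lit 83955969)) (.cons (.rel (nat_lit 168099840)) .nil))) .nil)) .leaf)) (nat_lit 11182213779901947) (.br (nat_lit 0) (.cons (.br (nat_lit 2) (.cons (.rel (nat_lit 71843844)) .nil)) .nil)) (.node (.node (.node .leaf (nat_lit 11182217318600714) (.br (nat_lit 0) (.cons (.br (nat_lit 1) (.cons (.rel (nat_lit 37814352)) .nil)) .nil)) .leaf) (nat_lit 11182217320156513) (.br (nat_lit 1) (.cons (.br (nat_lit 3) (.cons (.rel (nat_lit 285212805)) .nil)) .nil)) .leaf) (nat_lit 11182217533024517) (.br (nat_lit 1) (.cons (.br (nat_lit 4) (.cons (.rel (nat_lit 1090666497)) (.cons (.rel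 (nat_lit 1090519080)) .nil))) .nil)) (.node .leaf (nat_lit 11182217533802757) (.br (nat_lit 2) (.cons (.br (nat_lit 4) (.cons (.rel (nat_lit 1140916308)) .nil)) .nil)) .leaf))) (nat_lit 11182217534416922) (.br (nat_lit 0) (.cons (.br (nat_lit 2) (.cons (.rel (nat_lit 138674433)) .nil)) .nil)) (.node (.node (.node (.node .leaf (nat_lit 11183075993396611) (.br (nat_lit 1) (.cons (.br (nat_lit 3) (.cons (.rel (nat_lit 285220866)) .nil)) .nil)) .leaf) (nat_lit 11183124812090901) (.br (nat_lit 2) (.cons (.br (nat_lit 5) (.cons (.rel (nat_lit 4362094608)) .nil)) .nil)) .leaf) (nat_lit 11183937114556597) (.br (nat_lit 4) (.cons (.br (nat_lit 6) (.cons (.rel (nat_lit 18253628436)) .nil)) .nil)) (.node .leaf (nat_lit 11184439726394745) (.br (nat_lit 2) (.cons (.br (nat_lit 4) (.cons (.rel (nat_lit 1140851856)) (.cons (.rel (nat_lit 1140854856)) .nil))) .nil)) .leaf)) (nat_lit 11184439726496420) (.br (nat_lit 3) (.cons (.br (nat_lit 6) (.cons (.rel (nat_lit 17448305673)) .nil)) .nil)) (.node (.node .leaf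 (nat_lit 11184443889401886) (.br (nat_lit 0) (.cons (.br (nat_lit 5) (.cons (.rel (nat_lit 4299178002)) .nil)) .nil)) .leaf) (nat_lit 11184443891337246) (.br (nat_lit 1) (.cons (.br (nat_lit 4) (.cons (.rel (nat_lit 1090535568)) .nil)) .nil)) (.node .leaf (nat_lit 11184443891599390) (.br (nat_lit 0) (.cons (.br (nat_lit 1) (.cons (.br (nat_lit 4) (.cons (.rel (nat_lit 1090535568)) .nil)) .nil)) .nil)) .leaf)))))

/-- refutations 20 -/
def e20 : EX := (.node (.node (.node (.node (.node .leaf (nat_lit 11524406168312484) (.br (nat_lit 0) (.cons (.br (nat_lit 1) (.cons (.rel (nat_lit 20971920)) .nil)) .nil)) .leaf) (nat_lit 11525299520184596) (.br (nat_lit 3) (.cons (.br (nat_lit 5) (.cons (.br (nat_lit 1) (.cons (.rel (nat_lit 285220866)) (.cons (.rel (nat_lit 8607252480)) .nil))) .nil)) .nil)) .leaf) (nat_lit 11525299520185696) (.br (nat_lit 0) (.cons (.br (nat_lit 1) (.cons (.rel (nat_lit 23085072)) .nil)) .nil)) (.node (.node .leaf (nat_lit 11525299521407756) (.br (nat_lit 4) (.cons (.br (nat_lit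 0) (.cons (.rel (nat_lit 1083179136)) (.cons (.rel (nat_lit 1077940320)) .nil))) .nil)) .leaf) (nat_lit 11525299521408377) (.br (nat_lit 1) (.cons (.br (nat_lit 4) (.cons (.rel (nat_lit 1107820800)) (.cons (.rel (nat_lit 2181038100)) .nil))) (.cons (.br (nat_lit 4) (.cons (.rel (nat_lit 1090519080)) (.cons (.rel (nat_lit 1090519080)) .nil))) .nil))) .leaf)) (nat_lit 11528530699286540) (.br (nat_lit 0) (.cons (.br (nat_lit 1) (.cons (.rel (nat_lit 37748865)) .nil)) .nil)) (.node (.node (.node .leaf (nat_lit 11528530700278412) (.br (nat_lit 1) (.cons (.br (nat_lit 2) (.cons (.rel (nat_lit 100667472)) .nil)) .nil)) .leaf) (nat_lit 11528530700279160) (.br (nat_lit 1) (.cons (.br (nat_lit 3) (.cons (.rel (nat_lit 285220866)) .nil)) .nil)) .leaf) (nat_lit 11528731741657713) (.br (nat_lit 1) (.cons (.br (nat_lit 3) (.cons (.rel (nat_lit 285284352)) .nil)) .nil)) (.node (.node .leaf (nat_lit 11528734876439934) (.br (nat_lit 1) (.cons (.br (nat_lit 6) (.cons (.rel (nat_lit 17196663072)) .nil)) .nil))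 .leaf) (nat_lit 11528734877745339) (.br (nat_lit 2) (.cons (.br (nat_lit 3) (.cons (.rel (nat_lit 335823120)) .nil)) .nil)) .leaf))) (nat_lit 11528734878006504) (.br (nat_lit 1) (.cons (.br (nat_lit 4) (.cons (.rel (nat_lit 1090519080)) .nil)) .nil)) (.node (.node (.node (.node .leaf (nat_lit 11528734878997260) (.br (nat_lit 3) (.cons (.br (nat_lit 1) (.cons (.rel (nat_lit 285233184)) (.cons (.rel (nat_lit 285344769)) .nil))) .nil)) .leaf) (nat_lit 11528734908357388) (.br (nat_lit 6) (.cons (.br (nat_lit 3) (.cons (.rel (nat_lit 17448370305)) (.cons (.rel (nat_lit 17448341505)) (.cons (.rel (nat_lit 17448309888)) .nil)))) (.cons (.br (nat_lit 1) (.cons (.rel (nat_lit 17213489160)) (.cons (.br (nat_lit 3) (.cons (.rel (nat_lit 34896609297)) (.cons (.rel (nat_lit 570429441)) (.cons (.rel (nat_lit 285220866)) .nil)))) (.cons (.rel (nat_lit 17196714240)) .nil)))) .nil))) .leaf) (nat_lit 11530922174662937) (.br (nat_lit 0) (.cons (.br (nat_lit 3) (.cons (.rel (nat_lit 272634900)) .nil)) .nil)) (.node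 (.node .leaf (nat_lit 11533713902729892) (.br (nat_lit 0) (.cons (.br (nat_lit 1) (.cons (.rel (nat_lit 20971920)) .nil)) .nil)) .leaf) (nat_lit 11533713903405237) (.br (nat_lit 4) (.cons (.br (nat_lit 6) (.cons (.rel (nat_lit 18253615128)) .nil)) .nil)) .leaf)) (nat_lit 11533717061716905) (.br (nat_lit 1) (.cons (.br (nat_lit 6) (.cons (.rel (nat_lit 17198743572)) .nil)) .nil)) (.node (.node (.node .leaf (nat_lit 11533717062031985) (.br (nat_lit 0) (.cons (.br (nat_lit 1) (.cons (.rel (nat_lit 42209280)) .nil)) .nil)) .leaf) (nat_lit 11533719019535747) (.br (nat_lit 1) (.cons (.br (nat_lit 2) (.cons (.rel (nat_lit 83902800)) .nil)) .nil)) .leaf) (nat_lit 11533719019780721) (.br (nat_lit 3) (.cons (.br (nat_lit 5) (.cons (.rel (nat_lit 8858505216)) .nil)) .nil)) (.node (.node .leaf (nat_lit 11533719019781352) (.br (nat_lit 1) (.cons (.br (nat_lit 4) (.cons (.rel (nat_lit 1090551876)) .nil)) .nil)) .leaf) (nat_lit 11533719020456237) (.br (nat_lit 1) (.cons (.br (nat_lit 6) (.cons (.br (nat_lit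 0) (.cons (.rel (nat_lit 37748865)) (.cons (.rel (nat_lit 17200988160)) (.cons (.rel (nat_lit 34368389136)) .nil)))) (.cons (.rel (nat_lit 34376646660)) .nil))) .nil)) .leaf))))

/-- refutations 21 -/
def e21 : EX := (.node (.node (.node (.node (.node (.node .leaf (nat_lit 11875158433538354) (.br (nat_lit 0) (.cons (.br (nat_lit 6) (.cons (.rel (nat_lit 17184063753)) .nil)) .nil)) .leaf) (nat_lit 11875161369984283) (.br (nat_lit 0) (.cons (.br (nat_lit 2) (.cons (.rel (nat_lit 71827536)) .nil)) .nil)) .leaf) (nat_lit 11875905155057796) (.br (nat_lit 1) (.cons (.br (nat_lit 2) (.cons (.rel (nat_lit 83919108)) .nil)) .nil)) (.node .leaf (nat_lit 11876034549337001) (.br (nat_lit 0) (.cons (.br (nat_lit 4) (.cons (.rel (nat_lit 1077937284)) (.cons (.rel (nat_lit 1077945345)) .nil))) .nil)) .leaf)) (nat_lit 11877400405444914) (.br (nat_lit 3) (.cons (.br (nat_lit 1) (.cons (.rel (nat_lit 285303888)) (.cons (.rel (nat_lit 285245457)) (.cons (.rel (nat_lit 285245457)) .nil)))) .nil)) (.node (.node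 .leaf (nat_lit 11877400405445284) (.br (nat_lit 0) (.cons (.br (nat_lit 1) (.cons (.rel (nat_lit 21042432)) .nil)) .nil)) .leaf) (nat_lit 11877400406365596) (.br (nat_lit 0) (.cons (.br (nat_lit 1) (.cons (.rel (nat_lit 20971920)) .nil)) .nil)) (.node .leaf (nat_lit 11877400406467996) (.br (nat_lit 1) (.cons (.br (nat_lit 2) (.cons (.rel (nat_lit 83919108)) .nil)) .nil)) .leaf))) (nat_lit 11880578681004969) (.br (nat_lit 1) (.cons (.br (nat_lit 2) (.cons (.rel (nat_lit 83902800)) .nil)) .nil)) (.node (.node (.node .leaf (nat_lit 11880578681005339) (.br (nat_lit 5) (.cons (.br (nat_lit 1) (.cons (.rel (nat_lit 4311765012)) (.cons (.rel (nat_lit 4311814146)) (.cons (.rel (nat_lit 4311753729)) .nil)))) (.cons (.br (nat_lit 3) (.cons (.rel (nat_lit 4563403344)) (.cons (.rel (nat_lit 4831911936)) (.cons (.rel (nat_lit 4564459521)) .nil)))) .nil))) .leaf) (nat_lit 11880578681152864) (.br (nat_lit 6) (.cons (.br (nat_lit 4) (.cons (.rel (nat_lit 18253617153)) (.cons (.br (nat_lit 1) (.cons (.rel (nat_lit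 17196714240)) (.cons (.rel (nat_lit 17196714240)) (.cons (.rel (nat_lit 1090519080)) (.cons (.rel (nat_lit 34376646660)) .nil))))) (.cons (.rel (nat_lit 18253615128)) .nil)))) .nil)) (.node .leaf (nat_lit 11880578682265660) (.br (nat_lit 1) (.cons (.br (nat_lit 6) (.cons (.rel (nat_lit 17198743572)) (.cons (.rel (nat_lit 34395390288)) .nil))) (.cons (.br (nat_lit 3) (.cons (.rel (nat_lit 285220866)) (.cons (.rel (nat_lit 303040512)) .nil))) .nil))) .leaf)) (nat_lit 11880578682739625) (.br (nat_lit 1) (.cons (.br (nat_lit 6) (.cons (.rel (nat_lit 34376523792)) .nil)) .nil)) (.node (.node .leaf (nat_lit 11880578683558564) (.br (nat_lit 1) (.cons (.br (nat_lit 6) (.cons (.rel (nat_lit 17213424708)) (.cons (.rel (nat_lit 17213427744)) .nil))) (.cons (.br (nat_lit 6) (.cons (.rel (nat_lit 17196650754)) (.cons (.rel (nat_lit 34376523792)) .nil))) .nil))) .leaf) (nat_lit 11880578683770940) (.br (nat_lit 3) (.cons (.br (nat_lit 4) (.cons (.rel (nat_lit 1343311872)) .nil)) .nil)) (.node .leaf (nat_lit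 11880578683771660) (.br (nat_lit 3) (.cons (.br (nat_lit 4) (.cons (.rel (nat_lit 2684420352)) .nil)) .nil)) .leaf)))) (nat_lit 11880580780869662) (.br (nat_lit 0) (.cons (.br (nat_lit 2) (.cons (.rel (nat_lit 75760896)) .nil)) .nil)) (.node (.node (.node (.node .leaf (nat_lit 11880581617165664) (.br (nat_lit 1) (.cons (.br (nat_lit 3) (.cons (.rel (nat_lit 303040512)) .nil)) .nil)) .leaf) (nat_lit 11880581617473014) (.br (nat_lit 0) (.cons (.br (nat_lit 1) (.cons (.rel (nat_lit 37748865)) .nil)) .nil)) (.node .leaf (nat_lit 11880581618278460) (.br (nat_lit 1) (.cons (.br (nat_lit 3) (.cons (.rel (nat_lit 285216840)) (.cons (.rel (nat_lit 285212805)) .nil))) .nil)) .leaf)) (nat_lit 11880581618751764) (.br (nat_lit 1) (.cons (.br (nat_lit 4) (.cons (.rel (nat_lit 1090519080)) .nil)) .nil)) (.node (.node .leaf (nat_lit 11880581618752425) (.br (nat_lit 1) (.cons (.br (nat_lit 0) (.cons (.rel (nat_lit 22020612)) (.cons (.rel (nat_lit 21504000)) (.cons (.rel (nat_lit 37748865)) .nil)))) .nil)) .leaf)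 (nat_lit 11880581619571364) (.br (nat_lit 1) (.cons (.br (nat_lit 4) (.cons (.rel (nat_lit 1090519080)) (.cons (.rel (nat_lit 1090519080)) .nil))) .nil)) (.node .leaf (nat_lit 11885999294637339) (.br (nat_lit 3) (.cons (.br (nat_lit 1) (.cons (.rel (nat_lit 570429441)) (.cons (.rel (nat_lit 570429441)) .nil))) .nil)) .leaf))) (nat_lit 11885999296309509) (.br (nat_lit 6) (.cons (.br (nat_lit 1) (.cons (.rel (nat_lit 17196650754)) (.cons (.rel (nat_lit 17213427744)) .nil))) .nil)) (.node (.node (.node .leaf (nat_lit 11885999297190564) (.br (nat_lit 4) (.cons (.br (nat_lit 6) (.cons (.rel (nat_lit 18253628436)) .nil)) .nil)) .leaf) (nat_lit 11885999480858885) (.br (nat_lit 3) (.cons (.br (nat_lit 1) (.cons (.rel (nat_lit 285212805)) (.cons (.rel (nat_lit 285213840)) .nil))) .nil)) (.node .leaf (nat_lit 11886001576338715) (.br (nat_lit 5) (.cons (.br (nat_lit 6) (.cons (.rel (nat_lit 42949673988)) .nil)) .nil)) .leaf)) (nat_lit 11886001577599036) (.br (nat_lit 4) (.cons (.br (nat_lit 5) (.cons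 (.rel (nat_lit 10737422592)) .nil)) .nil)) (.node (.node .leaf (nat_lit 11886001577599913) (.br (nat_lit 1) (.cons (.br (nat_lit 6) (.cons (.rel (nat_lit 17213493378)) .nil)) .nil)) .leaf) (nat_lit 11886001578891940) (.br (nat_lit 6) (.cons (.br (nat_lit 1) (.cons (.rel (nat_lit 34376646660)) (.cons (.rel (nat_lit 34376523792)) .nil))) .nil)) (.node .leaf (nat_lit 11886763801581628) (.br (nat_lit 1) (.cons (.br (nat_lit 3) (.cons (.rel (nat_lit 570429441)) .nil)) .nil)) .leaf)))))

/-- refutations 22 -/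
def e22 : EX := (.node (.node (.node (.node .leaf (nat_lit 11912164313953136) (.br (nat_lit 0) (.cons (.br (nat_lit 2) (.cons (.rel (nat_lit 138444864)) .nil)) .nil)) .leaf) (nat_lit 11912576741001847) (.br (nat_lit 1) (.cons (.br (nat_lit 2) (.cons (.rel (nat_lit 83902800)) .nil)) .nil)) .leaf) (nat_lit 11912576742701311) (.br (nat_lit 1) (.cons (.br (nat_lit 2) (.cons (.rel (nat_lit 85983300)) .nil)) .nil)) (.node .leaf (nat_lit 11912579377482033) (.br (nat_lit 1) (.cons (.br (nat_lit 4) (.cons (.rel (nat_lit 1107820800)) .nil)) .nil)) .leaf)) (nat_lit 11915378613322359) (.br (nat_lit 0) (.cons (.br (nat_lit 1) (.cons (.rel (nat_lit 21504000)) .nil)) .nil)) (.node (.node .leaf (nat_lit 11915378964046455) (.br (nat_lit 1) (.cons (.br (nat_lit 3) (.cons (.rel (nat_lit 285233184)) .nil)) .nil)) .leaf) (nat_lit 11915762576726277) (.br (nat_lit 0) (.cons (.br (nat_lit 1) (.cons (.rel (nat_lit 21528594)) .nil)) .nil)) (.node .leaf (nat_lit 11920911495304443) (.br (nat_lit 0) (.cons (.br (nat_lit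 2) (.cons (.rel (nat_lit 71368968)) .nil)) .nil)) .leaf)))

/-- refutations 23 -/
def e23 : EX := (.node (.node .leaf (nat_lit 13287685211244825) (.br (nat_lit 2) (.cons (.br (nat_lit 4) (.cons (.rel (nat_lit 1140922368)) .nil)) .nil)) .leaf) (nat_lit 13287955477420708) (.br (nat_lit 0) (.cons (.br (nat_lit 2) (.cons (.rel (nat_lit 73400325)) .nil)) .nil)) .leaf)

/-- refutations 24 -/
def e24 : EX := (.node (.node (.node .leaf (nat_lit 13387966594893855) (.br (nat_lit 3) (.cons (.br (nat_lit 0) (.cons (.rel (nat_lit 272634900)) (.cons (.rel (nat_lit 272648208)) .nil))) .nil)) .leaf) (nat_lit 13388833573086091) (.br (nat_lit 1) (.cons (.br (nat_lit 4) (.cons (.rel (nat_lit 2181038100)) .nil)) .nil)) .leaf) (nat_lit 13390070099022100) (.br (nat_lit 0) (.cons (.br (nat_lit 2) (.cons (.rel (nat_lit 75632640)) .nil)) .nil)) (.node .leaf (nat_lit 13393113462311542) (.br (nat_lit 1) (.cons (.br (nat_lit 2) (.cons (.rel (nat_lit 85983300)) .nil)) .nil)) .leaf))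

/-- refutations 25 -/
def e25 : EX := (.node (.node (.node (.node (.node .leaf (nat_lit 13634257333733407) (.br (nat_lit 1) (.cons (.br (nat_lit 2) (.cons (.rel (nat_lit 83902800)) .nil)) .nil)) .leaf) (nat_lit 13635124176673029) (.br (nat_lit 1) (.cons (.br (nat_lit 4) (.cons (.rel (nat_lit 1090519080)) .nil)) .nil)) .leaf) (nat_lit 13635124177707915) (.br (nat_lit 3) (.cons (.br (nat_lit 4) (.cons (.rel (nat_lit 2415935553)) (.cons (.rel (nat_lit 1610631168)) .nil))) (.cons (.br (nat_lit 4) (.cons (.br (nat_lit 6) (.cons (.rel (nat_lit 18253631616)) (.cons (.rel (nat_lit 17448305673)) .nil))) (.cons (.rel (nat_lit 1610617860)) .nil))) .nil))) (.node (.node .leaf (nat_lit 13635124178930541) (.br (nat_lit 3) (.cons (.br (nat_lit 4) (.cons (.br (nat_lit 5) (.cons (.rel (nat_lit 10737422592)) (.cons (.rel (nat_lit 4563681297)) (.cons (.rel (nat_lit 5637160962)) .nil)))) .nil)) .nil)) .leaf) (nat_lit 13635536708477084) (.br (nat_lit 0) (.cons (.br (nat_lit 1) (.cons (.rel (nat_lit 37830660))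 .nil)) .nil)) .leaf)) (nat_lit 13636112564412678) (.br (nat_lit 3) (.cons (.br (nat_lit 5) (.cons (.rel (nat_lit 9126871362)) .nil)) .nil)) (.node (.node (.node .leaf (nat_lit 13636112564732805) (.br (nat_lit 0) (.cons (.br (nat_lit 2) (.cons (.rel (nat_lit 71319825)) .nil)) .nil)) .leaf) (nat_lit 13636112566665478) (.br (nat_lit 0) (.cons (.br (nat_lit 1) (.cons (.rel (nat_lit 21102849)) .nil)) .nil)) .leaf) (nat_lit 13636112566667526) (.br (nat_lit 3) (.cons (.br (nat_lit 2) (.cons (.rel (nat_lit 335675520)) (.cons (.rel (nat_lit 335675520)) .nil))) .nil)) (.node (.node .leaf (nat_lit 13636114661564678) (.br (nat_lit 1) (.cons (.br (nat_lit 4) (.cons (.rel (nat_lit 1090588737)) .nil)) .nil)) .leaf) (nat_lit 13636114663819526) (.br (nat_lit 1) (.cons (.br (nat_lit 2) (.cons (.rel (nat_lit 83955969)) .nil)) .nil)) .leaf))) (nat_lit 13636155473722771) (.br (nat_lit 1) (.cons (.br (nat_lit 3) (.cons (.rel (nat_lit 286262532)) .nil)) .nil)) (.node (.node (.node (.node .leaf (nat_lit 13636157251559676)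 (.br (nat_lit 0) (.cons (.br (nat_lit 1) (.cons (.rel (nat_lit 25444608)) .nil)) .nil)) .leaf) (nat_lit 13636157252782337) (.br (nat_lit 1) (.cons (.br (nat_lit 3) (.cons (.rel (nat_lit 285230148)) .nil)) .nil)) .leaf) (nat_lit 13636609813989681) (.br (nat_lit 0) (.cons (.br (nat_lit 2) (.cons (.rel (nat_lit 75497496)) (.cons (.rel (nat_lit 73401360)) .nil))) (.cons (.br (nat_lit 5) (.cons (.rel (nat_lit 4299162693)) (.cons (.rel (nat_lit 8598343680)) .nil))) .nil))) (.node (.node .leaf (nat_lit 13636609814334870) (.br (nat_lit 1) (.cons (.br (nat_lit 2) (.cons (.rel (nat_lit 83955969)) .nil)) .nil)) .leaf) (nat_lit 13636610975136375) (.br (nat_lit 2) (.cons (.br (nat_lit 3) (.cons (.rel (nat_lit 335549472)) .nil)) .nil)) .leaf)) (nat_lit 13639361094805665) (.br (nat_lit 1) (.cons (.br (nat_lit 4) (.cons (.rel (nat_lit 1090519080)) .nil)) .nil)) (.node (.node (.node .leaf (nat_lit 13639361096137356) (.br (nat_lit 1) (.cons (.br (nat_lit 2) (.cons (.rel (nat_lit 83895552)) .nil)) .nil)) .leaf)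 (nat_lit 13639361097058929) (.br (nat_lit 1) (.cons (.br (nat_lit 3) (.cons (.rel (nat_lit 554172480)) .nil)) .nil)) .leaf) (nat_lit 13639361296130673) (.br (nat_lit 0) (.cons (.br (nat_lit 1) (.cons (.rel (nat_lit 20971920)) .nil)) .nil)) (.node .leaf (nat_lit 13639361297162865) (.br (nat_lit 0) (.cons (.br (nat_lit 2) (.cons (.rel (nat_lit 71304516)) (.cons (.rel (nat_lit 75513984)) .nil))) .nil)) .leaf))))

/-- refutations 26 -/
def e26 : EX := (.node (.node (.node (.node (.node (.node .leaf (nat_lit 13639533097063050) (.br (nat_lit 1) (.cons (.br (nat_lit 2) (.cons (.rel (nat_lit 100667472)) .nil)) .nil)) .leaf) (nat_lit 13639533097078172) (.br (nat_lit 1) (.cons (.br (nat_lit 4) (.cons (.rel (nat_lit 1090519080)) .nil)) .nil)) .leaf) (nat_lit 13639533451135636) (.br (nat_lit 1) (.cons (.br (nat_lit 4) (.cons (.rel (nat_lit 1090588737)) .nil)) .nil)) (.node .leaf (nat_lit 13639593225396876) (.br (nat_lit 1) (.cons (.br (nat_lit 6) (.cons (.rel (nat_lit 17196663072)) .nil)) .nil)) .leaf))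 (nat_lit 13639593225397759) (.br (nat_lit 3) (.cons (.br (nat_lit 6) (.cons (.rel (nat_lit 17448304674)) .nil)) .nil)) (.node (.node (.node .leaf (nat_lit 13639593225943845) (.br (nat_lit 1) (.cons (.br (nat_lit 2) (.cons (.rel (nat_lit 168099840)) .nil)) .nil)) .leaf) (nat_lit 13639593225944467) (.br (nat_lit 1) (.cons (.br (nat_lit 4) (.cons (.br (nat_lit 0) (.cons (.rel (nat_lit 42209280)) (.cons (.rel (nat_lit 1078005762)) .nil))) .nil)) .nil)) .leaf) (nat_lit 13639593225944542) (.br (nat_lit 1) (.cons (.br (nat_lit 3) (.cons (.rel (nat_lit 285212805)) .nil)) .nil)) (.node .leaf (nat_lit 13639593226618912) (.br (nat_lit 2) (.cons (.br (nat_lit 3) (.cons (.rel (nat_lit 335560710)) .nil)) .nil)) .leaf))) (nat_lit 13639794567736697) (.br (nat_lit 0) (.cons (.br (nat_lit 4) (.cons (.rel (nat_lit 1078018080)) (.cons (.rel (nat_lit 1078206720)) .nil))) (.cons (.br (nat_lit 2) (.cons (.rel (nat_lit 71307552)) (.cons (.rel (nat_lit 138444864)) .nil))) .nil))) (.node (.node (.node (.node .leaf (nat_lit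 13639797233371297) (.br (nat_lit 1) (.cons (.br (nat_lit 3) (.cons (.rel (nat_lit 285220866)) .nil)) .nil)) .leaf) (nat_lit 13639797233371397) (.br (nat_lit 1) (.cons (.br (nat_lit 2) (.cons (.rel (nat_lit 84541440)) .nil)) .nil)) .leaf) (nat_lit 13639797233986462) (.br (nat_lit 1) (.cons (.br (nat_lit 2) (.cons (.rel (nat_lit 83902800)) .nil)) .nil)) (.node .leaf (nat_lit 13639797734477212) (.br (nat_lit 0) (.cons (.br (nat_lit 4) (.cons (.rel (nat_lit 1078001736)) .nil)) .nil)) .leaf)) (nat_lit 13639799181512092) (.br (nat_lit 0) (.cons (.br (nat_lit 1) (.cons (.rel (nat_lit 20988228)) .nil)) .nil)) (.node (.node .leaf (nat_lit 13639799182500492) (.br (nat_lit 1) (.cons (.br (nat_lit 2) (.cons (.rel (nat_lit 83902800)) (.cons (.rel (nat_lit 83895552)) .nil))) .nil)) .leaf) (nat_lit 13639799182501402) (.br (nat_lit 1) (.cons (.br (nat_lit 3) (.cons (.rel (nat_lit 570429441)) .nil)) .nil)) (.node .leaf (nat_lit 13639799182801572) (.br (nat_lit 1) (.cons (.br (nat_lit 3) (.cons (.rel (nat_lit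 285220866)) .nil)) .nil)) .leaf)))) (nat_lit 13639799282133642) (.br (nat_lit 1) (.cons (.br (nat_lit 2) (.cons (.rel (nat_lit 100679745)) .nil)) .nil)) (.node (.node (.node (.node (.node .leaf (nat_lit 13639799284386468) (.br (nat_lit 0) (.cons (.br (nat_lit 1) (.cons (.rel (nat_lit 21042432)) .nil)) .nil)) .leaf) (nat_lit 13639799328220512) (.br (nat_lit 1) (.cons (.br (nat_lit 2) (.cons (.rel (nat_lit 83895552)) .nil)) .nil)) .leaf) (nat_lit 13639799328312732) (.br (nat_lit 1) (.cons (.br (nat_lit 5) (.cons (.rel (nat_lit 4311814146)) .nil)) .nil)) (.node .leaf (nat_lit 13639799382745120) (.br (nat_lit 0) (.cons (.br (nat_lit 1) (.cons (.rel (nat_lit 20971920)) .nil)) .nil)) .leaf)) (nat_lit 13639799383827084) (.br (nat_lit 1) (.cons (.br (nat_lit 3) (.cons (.rel (nat_lit 286263570)) .nil)) .nil)) (.node (.node .leaf (nat_lit 13639799384287909) (.br (nat_lit 0) (.cons (.br (nat_lit 4) (.cons (.rel (nat_lit 1078001736)) .nil)) .nil)) .leaf) (nat_lit 13639799385050524) (.br (nat_lit 0) (.cons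 (.br (nat_lit 1) (.cons (.rel (nat_lit 21504000)) .nil)) .nil)) (.node .leaf (nat_lit 13639799385663669) (.br (nat_lit 0) (.cons (.br (nat_lit 2) (.cons (.rel (nat_lit 73401360)) (.cons (.rel (nat_lit 71368968)) .nil))) .nil)) .leaf))) (nat_lit 13640825362139297) (.br (nat_lit 1) (.cons (.br (nat_lit 6) (.cons (.rel (nat_lit 34395406596)) .nil)) .nil)) (.node (.node (.node (.node .leaf (nat_lit 13640916076546304) (.br (nat_lit 1) (.cons (.br (nat_lit 6) (.cons (.rel (nat_lit 17213424708)) .nil)) .nil)) .leaf) (nat_lit 13640916077146918) (.br (nat_lit 4) (.cons (.br (nat_lit 1) (.cons (.rel (nat_lit 1090519080)) (.cons (.rel (nat_lit 1090535568)) .nil))) .nil)) .leaf) (nat_lit 13641987665914117) (.br (nat_lit 0) (.cons (.br (nat_lit 6) (.cons (.rel (nat_lit 34363938816)) .nil)) .nil)) (.node .leaf (nat_lit 13641987667306677) (.br (nat_lit 0) (.cons (.br (nat_lit 2) (.cons (.rel (nat_lit 75513984)) .nil)) .nil)) .leaf)) (nat_lit 13641990886996144) (.br (nat_lit 1) (.cons (.br (nat_lit 3) (.cons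 (.rel (nat_lit 285220866)) .nil)) .nil)) (.node (.node .leaf (nat_lit 13641990886997275) (.br (nat_lit 0) (.cons (.br (nat_lit 1) (.cons (.rel (nat_lit 21102849)) .nil)) .nil)) .leaf) (nat_lit 13641990887242659) (.br (nat_lit 1) (.cons (.br (nat_lit 4) (.cons (.rel (nat_lit 1090551876)) .nil)) .nil)) (.node .leaf (nat_lit 13641990887242984) (.br (nat_lit 3) (.cons (.br (nat_lit 4) (.cons (.rel (nat_lit 1343225862)) .nil)) .nil)) .leaf)))))

/-- refutations 27 -/
def e27 : EX := (.node (.node (.node (.node (.node .leaf (nat_lit 13644781345786157) (.br (nat_lit 0) (.cons (.br (nat_lit 6) (.cons (.rel (nat_lit 17184067968)) .nil)) .nil)) .leaf) (nat_lit 13645807521950957) (.br (nat_lit 0) (.cons (.br (nat_lit 3) (.cons (.rel (nat_lit 272695317)) .nil)) .nil)) .leaf) (nat_lit 13645807623637253) (.br (nat_lit 0) (.cons (.br (nat_lit 1) (.cons (.rel (nat_lit 23085072)) .nil)) .nil)) (.node (.node .leaf (nat_lit 13645807623643388) (.br (nat_lit 1) (.cons (.br (nat_lit 3) (.cons (.rel (nat_lit 302252160))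 .nil)) .nil)) .leaf) (nat_lit 13645807623643812) (.br (nat_lit 3) (.cons (.br (nat_lit 4) (.cons (.rel (nat_lit 1343234112)) .nil)) .nil)) .leaf)) (nat_lit 13645807623644643) (.br (nat_lit 0) (.cons (.br (nat_lit 1) (.cons (.rel (nat_lit 22020612)) .nil)) .nil)) (.node (.node (.node .leaf (nat_lit 13645807624866093) (.br (nat_lit 3) (.cons (.br (nat_lit 0) (.cons (.rel (nat_lit 272629830)) (.cons (.rel (nat_lit 545341440)) .nil))) .nil)) .leaf) (nat_lit 13645810270249092) (.br (nat_lit 1) (.cons (.br (nat_lit 4) (.cons (.rel (nat_lit 1090519080)) .nil)) .nil)) .leaf) (nat_lit 13646013680381305) (.br (nat_lit 0) (.cons (.br (nat_lit 1) (.cons (.rel (nat_lit 25183233)) .nil)) .nil)) (.node .leaf (nat_lit 13646013681957495) (.br (nat_lit 3) (.cons (.br (nat_lit 6) (.cons (.rel (nat_lit 17448341505)) .nil)) .nil)) .leaf))) (nat_lit 13646018497693946) (.br (nat_lit 0) (.cons (.br (nat_lit 4) (.cons (.rel (nat_lit 1077968901)) .nil)) .nil)) (.node (.node (.node (.node .leaf (nat_lit 13646056652087557)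 (.br (nat_lit 0) (.cons (.br (nat_lit 2) (.cons (.rel (nat_lit 75499521)) .nil)) .nil)) .leaf) (nat_lit 13646245710308704) (.br (nat_lit 1) (.cons (.br (nat_lit 3) (.cons (.rel (nat_lit 570429441)) .nil)) .nil)) .leaf) (nat_lit 13646245710308835) (.br (nat_lit 0) (.cons (.br (nat_lit 4) (.cons (.rel (nat_lit 1077952593)) .nil)) .nil)) (.node (.node .leaf (nat_lit 13646843131709690) (.br (nat_lit 1) (.cons (.br (nat_lit 4) (.cons (.br (nat_lit 2) (.cons (.rel (nat_lit 1157890176)) (.cons (.rel (nat_lit 1140851856)) (.cons (.rel (nat_lit 83895552)) (.cons (.rel (nat_lit 84935184)) (.cons (.rel (nat_lit 100667472)) .nil)))))) (.cons (.rel (nat_lit 1090551876)) .nil))) .nil)) .leaf) (nat_lit 13646932216128995) (.br (nat_lit 1) (.cons (.br (nat_lit 4) (.cons (.rel (nat_lit 2181038100)) .nil)) .nil)) .leaf)) (nat_lit 13646935466714464) (.br (nat_lit 3) (.cons (.br (nat_lit 5) (.cons (.rel (nat_lit 4563403344)) .nil)) .nil)) (.node (.node (.node .leaf (nat_lit 13646937981700357) (.br (nat_lit 0) (.cons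 (.br (nat_lit 2) (.cons (.rel (nat_lit 75760896)) .nil)) .nil)) .leaf) (nat_lit 13647133029125626) (.br (nat_lit 0) (.cons (.br (nat_lit 5) (.cons (.rel (nat_lit 4299227145)) (.cons (.rel (nat_lit 4299178002)) .nil))) .nil)) .leaf) (nat_lit 13647133029724420) (.br (nat_lit 1) (.cons (.br (nat_lit 2) (.cons (.rel (nat_lit 85983300)) .nil)) .nil)) (.node .leaf (nat_lit 13647315523292541) (.br (nat_lit 1) (.cons (.br (nat_lit 2) (.cons (.rel (nat_lit 85197828)) .nil)) .nil)) .leaf))))

/-- refutations 28 -/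
def e28 : EX := (.node (.node (.node (.node (.node .leaf (nat_lit 13405678983046427) (.br (nat_lit 3) (.cons (.br (nat_lit 6) (.cons (.rel (nat_lit 34628178432)) .nil)) .nil)) .leaf) (nat_lit 13405678984306748) (.br (nat_lit 6) (.cons (.br (nat_lit 1) (.cons (.rel (nat_lit 17196650754)) (.cons (.rel (nat_lit 34376536065)) (.cons (.br (nat_lit 3) (.cons (.rel (nat_lit 303113217)) (.cons (.rel (nat_lit 34896609297)) (.cons (.rel (nat_lit 17448341505)) .nil)))) .nil)))) .nil)) (.node .leaf (nat_lit 13405678985599652) (.br (nat_lit 1) (.cons (.br (nat_lit 3) (.cons (.rel (nat_lit 285344769)) (.cons (.rel (nat_lit 285220866)) .nil))) .nil)) .leaf)) (nat_lit 13405681555415100) (.br (nat_lit 3) (.cons (.br (nat_lit 5) (.cons (.rel (nat_lit 4563669024)) .nil)) .nil)) (.node (.node .leaf (nat_lit 13406425944902537) (.br (nat_lit 1) (.cons (.br (nat_lit 2) (.cons (.rel (nat_lit 85197828)) .nil)) .nil)) .leaf) (nat_lit 13407662289199380) (.br (nat_lit 1) (.cons (.br (nat_lit 5) (.cons (.rel (nat_lit 4311760977))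 (.cons (.rel (nat_lit 4311748704)) (.cons (.rel (nat_lit 8623555584)) (.cons (.rel (nat_lit 4311814146)) .nil))))) (.cons (.br (nat_lit 3) (.cons (.rel (nat_lit 285220866)) (.cons (.rel (nat_lit 285212805)) (.cons (.rel (nat_lit 285233184)) (.cons (.rel (nat_lit 553664769)) .nil))))) .nil))) (.node .leaf (nat_lit 13407662290786980) (.br (nat_lit 3) (.cons (.br (nat_lit 6) (.cons (.rel (nat_lit 17448305673)) (.cons (.rel (nat_lit 34896609297)) .nil))) (.cons (.br (nat_lit 1) (.cons (.rel (nat_lit 553664769)) (.cons (.rel (nat_lit 285220866)) (.cons (.rel (nat_lit 570429441)) .nil)))) .nil))) .leaf))) (nat_lit 13407662290787710) (.br (nat_lit 1) (.cons (.br (nat_lit 2) (.cons (.rel (nat_lit 150996033)) .nil)) .nil)) (.node (.node (.node .leaf (nat_lit 13407662291605509) (.br (nat_lit 0) (.cons (.br (nat_lit 1) (.cons (.rel (nat_lit 38798592)) .nil)) .nil)) .leaf) (nat_lit 13407662291606880) (.br (nat_lit 3) (.cons (.br (nat_lit 6) (.cons (.br (nat_lit 2) (.cons (.rel (nat_lit 17314157568)) (.cons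 (.rel (nat_lit 34426847328)) (.cons (.rel (nat_lit 17314217985)) .nil)))) (.cons (.rel (nat_lit 17448435792)) .nil))) .nil)) (.node .leaf (nat_lit 13407665539785335) (.br (nat_lit 1) (.cons (.br (nat_lit 5) (.cons (.rel (nat_lit 8623555584)) .nil)) .nil)) .leaf)) (nat_lit 13407912360102193) (.br (nat_lit 1) (.cons (.br (nat_lit 6) (.cons (.rel (nat_lit 34376582208)) .nil)) .nil)) (.node (.node .leaf (nat_lit 13407920957235260) (.br (nat_lit 0) (.cons (.br (nat_lit 1) (.cons (.rel (nat_lit 20971920)) .nil)) .nil)) .leaf) (nat_lit 13410834621719188) (.br (nat_lit 0) (.cons (.br (nat_lit 1) (.cons (.rel (nat_lit 21102849)) .nil)) .nil)) .leaf))) (nat_lit 13411098866869531) (.br (nat_lit 1) (.cons (.br (nat_lit 4) (.cons (.rel (nat_lit 2181038100)) (.cons (.rel (nat_lit 1090519080)) (.cons (.rel (nat_lit 1090519080)) .nil)))) .nil)) (.node (.node (.node (.node .leaf (nat_lit 13411098867017056) (.br (nat_lit 6) (.cons (.br (nat_lit 1) (.cons (.rel (nat_lit 17196650754)) (.cons (.rel (nat_lit 17213427744))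 (.cons (.rel (nat_lit 17196714240)) .nil)))) .nil)) .leaf) (nat_lit 13411098867078526) (.br (nat_lit 1) (.cons (.br (nat_lit 3) (.cons (.rel (nat_lit 285220866)) (.cons (.rel (nat_lit 285213840)) .nil))) .nil)) (.node .leaf (nat_lit 13411098868129852) (.br (nat_lit 3) (.cons (.br (nat_lit 1) (.cons (.rel (nat_lit 285220866)) (.cons (.rel (nat_lit 554172480)) .nil))) .nil)) .leaf)) (nat_lit 13411098868603156) (.br (nat_lit 1) (.cons (.br (nat_lit 3) (.cons (.rel (nat_lit 285212805)) (.cons (.rel (nat_lit 554172480)) .nil))) .nil)) (.node (.node .leaf (nat_lit 13411098869320356) (.br (nat_lit 1) (.cons (.br (nat_lit 2) (.cons (.rel (nat_lit 83895552)) .nil)) .nil)) .leaf) (nat_lit 13411098869422756) (.br (nat_lit 1) (.cons (.br (nat_lit 3) (.cons (.rel (nat_lit 285216840)) (.cons (.rel (nat_lit 285278292)) .nil))) .nil)) .leaf)) (nat_lit 13411098869635748) (.br (nat_lit 1) (.cons (.br (nat_lit 4) (.cons (.rel (nat_lit 1090666497)) .nil)) .nil)) (.node (.node (.node .leaf (nat_lit 13411099334990500)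 (.br (nat_lit 1) (.cons (.br (nat_lit 4) (.cons (.rel (nat_lit 1090585749)) .nil)) .nil)) .leaf) (nat_lit 13411100779666810) (.br (nat_lit 0) (.cons (.br (nat_lit 1) (.cons (.rel (nat_lit 21042432)) .nil)) .nil)) (.node .leaf (nat_lit 13411100909643104) (.br (nat_lit 6) (.cons (.br (nat_lit 4) (.cons (.rel (nat_lit 18253677570)) (.cons (.rel (nat_lit 35434528788)) (.cons (.rel (nat_lit 18253617153)) (.cons (.rel (nat_lit 36507291648)) .nil))))) .nil)) .leaf)) (nat_lit 13411100910755900) (.br (nat_lit 6) (.cons (.br (nat_lit 5) (.cons (.rel (nat_lit 21474857025)) (.cons (.rel (nat_lit 21474838536)) (.cons (.rel (nat_lit 21474844752)) .nil)))) (.cons (.br (nat_lit 5) (.cons (.br (nat_lit 1) (.cons (.rel (nat_lit 17198743572)) (.cons (.rel (nat_lit 17196650754)) (.cons (.rel (nat_lit 17213489160)) (.cons (.rel (nat_lit 4311745668)) .nil))))) (.cons (.rel (nat_lit 38654771712)) (.cons (.rel (nat_lit 21474837537)) .nil)))) .nil))) (.node (.node .leaf (nat_lit 13411100911229204) (.br (nat_lit 1)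 (.cons (.br (nat_lit 5) (.cons (.rel (nat_lit 8623555584)) (.cons (.rel (nat_lit 4311753729)) (.cons (.rel (nat_lit 4311753729)) .nil)))) .nil)) .leaf) (nat_lit 13411100912048804) (.br (nat_lit 1) (.cons (.br (nat_lit 5) (.cons (.rel (nat_lit 4329570306)) (.cons (.rel (nat_lit 4311765012)) .nil))) .nil)) .leaf))))

/-- refutations 29 -/
def e29 : EX := (.node (.node (.node (.node .leaf (nat_lit 13653698253480197) (.br (nat_lit 1) (.cons (.br (nat_lit 4) (.cons (.rel (nat_lit 1090519080)) .nil)) .nil)) .leaf) (nat_lit 13662273839041772) (.br (nat_lit 0) (.cons (.br (nat_lit 1) (.cons (.rel (nat_lit 21038409)) .nil)) .nil)) .leaf) (nat_lit 13662282420856159) (.br (nat_lit 1) (.cons (.br (nat_lit 2) (.cons (.rel (nat_lit 83955969)) .nil)) .nil)) (.node .leaf (nat_lit 13663788490612124) (.br (nat_lit 1) (.cons (.br (nat_lit 2) (.cons (.rel (nat_lit 84493344)) .nil)) .nil)) .leaf)) (nat_lit 13663791070061179) (.br (nat_lit 1) (.cons (.br (nat_lit 2) (.cons (.rel (nat_lit 83895552)) .nil)) .nil))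 (.node (.node (.node .leaf (nat_lit 13663791070061919) (.br (nat_lit 1) (.cons (.br (nat_lit 2) (.cons (.rel (nat_lit 100667472)) .nil)) .nil)) .leaf) (nat_lit 13663791072372996) (.br (nat_lit 0) (.cons (.br (nat_lit 3) (.cons (.rel (nat_lit 272630865)) .nil)) .nil)) .leaf) (nat_lit 13663791072667680) (.br (nat_lit 1) (.cons (.br (nat_lit 3) (.cons (.rel (nat_lit 285233184)) .nil)) .nil)) (.node .leaf (nat_lit 13663792045443328) (.br (nat_lit 1) (.cons (.br (nat_lit 2) (.cons (.rel (nat_lit 83955969)) .nil)) .nil)) .leaf)))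

/-- refutations 30 -/
def e30 : EX := (.node (.node (.node (.node (.node .leaf (nat_lit 14108987371244146) (.br (nat_lit 4) (.cons (.br (nat_lit 3) (.cons (.rel (nat_lit 2684420352)) (.cons (.rel (nat_lit 1342509057)) .nil))) .nil)) .leaf) (nat_lit 14109452515363442) (.br (nat_lit 4) (.cons (.br (nat_lit 6) (.cons (.rel (nat_lit 18253676580)) .nil)) .nil)) (.node .leaf (nat_lit 14109452515659134) (.br (nat_lit 3) (.cons (.br (nat_lit 4) (.cons (.rel (nat_lit 1610613825)) .nil)) .nil)) .leaf)) (nat_lit 14109452515963181) (.br (nat_lit 1) (.cons (.br (nat_lit 2) (.cons (.rel (nat_lit 83955969)) .nil)) .nil)) (.node (.node .leaf (nat_lit 14109452515963817) (.br (nat_lit 1) (.cons (.br (nat_lit 3) (.cons (.rel (nat_lit 286785552)) .nil)) .nil)) .leaf) (nat_lit 14110319460547960) (.br (nat_lit 4) (.cons (.br (nat_lit 6) (.cons (.rel (nat_lit 18253628436)) .nil)) .nil)) (.node .leaf (nat_lit 14110321641586040) (.br (nat_lit 1) (.cons (.br (nat_lit 3) (.cons (.rel (nat_lit 285213840)) .nil)) .nil))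 .leaf))) (nat_lit 14110457030200208) (.br (nat_lit 3) (.cons (.br (nat_lit 4) (.cons (.rel (nat_lit 1342448640)) .nil)) .nil)) (.node (.node (.node .leaf (nat_lit 14114582146901368) (.br (nat_lit 0) (.cons (.br (nat_lit 1) (.cons (.rel (nat_lit 37766208)) .nil)) .nil)) .leaf) (nat_lit 14114582147933587) (.br (nat_lit 1) (.cons (.br (nat_lit 2) (.cons (.rel (nat_lit 83902800)) .nil)) .nil)) (.node .leaf (nat_lit 14114582149257892) (.br (nat_lit 0) (.cons (.br (nat_lit 2) (.cons (.rel (nat_lit 71368968)) .nil)) .nil)) .leaf)) (nat_lit 14114786226535800) (.br (nat_lit 1) (.cons (.br (nat_lit 4) (.cons (.rel (nat_lit 1090519080)) .nil)) .nil)) (.node (.node .leaf (nat_lit 14114786227210866) (.br (nat_lit 1) (.cons (.br (nat_lit 4) (.cons (.rel (nat_lit 1090519080)) (.cons (.rel (nat_lit 1090519080)) (.cons (.rel (nat_lit 1108348932)) .nil)))) (.cons (.br (nat_lit 4) (.cons (.rel (nat_lit 1090519080)) (.cons (.rel (nat_lit 1090520070)) (.cons (.rel (nat_lit 1090535568)) .nil)))) .nil))) .leaf) (nat_lit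 14114786227526308) (.br (nat_lit 1) (.cons (.br (nat_lit 6) (.cons (.rel (nat_lit 17213427744)) .nil)) .nil)) (.node .leaf (nat_lit 14114786227526412) (.br (nat_lit 6) (.cons (.br (nat_lit 4) (.cons (.rel (nat_lit 18253611093)) (.cons (.rel (nat_lit 18253631616)) (.cons (.rel (nat_lit 18253615128)) .nil)))) .nil)) .leaf)))) (nat_lit 14114786227527032) (.br (nat_lit 1) (.cons (.br (nat_lit 6) (.cons (.rel (nat_lit 17213427744)) .nil)) .nil)) (.node (.node (.node (.node .leaf (nat_lit 14114786355194768) (.br (nat_lit 0) (.cons (.br (nat_lit 3) (.cons (.rel (nat_lit 272634900)) .nil)) .nil)) .leaf) (nat_lit 14114786356195358) (.br (nat_lit 0) (.cons (.br (nat_lit 1) (.cons (.rel (nat_lit 42209280)) .nil)) .nil)) (.node .leaf (nat_lit 14114786357234576) (.br (nat_lit 3) (.cons (.br (nat_lit 4) (.cons (.rel (nat_lit 1342448640)) .nil)) .nil)) .leaf)) (nat_lit 14114788204666234) (.br (nat_lit 3) (.cons (.br (nat_lit 5) (.cons (.rel (nat_lit 4563669024)) .nil)) .nil)) (.node (.node .leaf (nat_lit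 14114788206246513) (.br (nat_lit 6) (.cons (.br (nat_lit 1) (.cons (.rel (nat_lit 34376646660)) (.cons (.rel (nat_lit 34376523792)) .nil))) .nil)) .leaf) (nat_lit 14114788206922354) (.br (nat_lit 1) (.cons (.br (nat_lit 3) (.cons (.rel (nat_lit 285213840)) (.cons (.rel (nat_lit 285245457)) .nil))) (.cons (.br (nat_lit 4) (.cons (.rel (nat_lit 1090519080)) (.cons (.rel (nat_lit 2181038100)) (.cons (.rel (nat_lit 1090519080)) (.cons (.rel (nat_lit 2181038100)) .nil))))) .nil))) (.node .leaf (nat_lit 14114788207024804) (.br (nat_lit 1) (.cons (.br (nat_lit 0) (.cons (.rel (nat_lit 21102849)) (.cons (.rel (nat_lit 20988228)) .nil))) .nil)) .leaf))) (nat_lit 14114788207237900) (.br (nat_lit 1) (.cons (.br (nat_lit 4) (.cons (.br (nat_lit 6) (.cons (.rel (nat_lit 18253612128)) .nil)) .nil)) .nil)) (.node (.node (.node .leaf (nat_lit 14114788305331576) (.br (nat_lit 2) (.cons (.br (nat_lit 3) (.cons (.rel (nat_lit 335548437)) .nil)) .nil)) .leaf) (nat_lit 14114788407026289) (.br (nat_lit 0) (.cons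 (.br (nat_lit 3) (.cons (.rel (nat_lit 545263680)) .nil)) .nil)) (.node .leaf (nat_lit 14114788407210014) (.br (nat_lit 4) (.cons (.br (nat_lit 3) (.cons (.rel (nat_lit 2684420352)) (.cons (.rel (nat_lit 1343234112)) .nil))) .nil)) .leaf)) (nat_lit 14114788408248601) (.br (nat_lit 0) (.cons (.br (nat_lit 6) (.cons (.rel (nat_lit 17188290564)) .nil)) .nil)) (.node (.node .leaf (nat_lit 14114788930295166) (.br (nat_lit 1) (.cons (.br (nat_lit 6) (.cons (.rel (nat_lit 17213489160)) .nil)) .nil)) .leaf) (nat_lit 14114788932639396) (.br (nat_lit 2) (.cons (.br (nat_lit 6) (.cons (.rel (nat_lit 34426912770)) .nil)) .nil)) (.node .leaf (nat_lit 14114788932852492) (.br (nat_lit 0) (.cons (.br (nat_lit 1) (.cons (.rel (nat_lit 42209280)) .nil)) .nil)) .leaf)))))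

/-- refutations 31 -/
def e31 : EX := (.node (.node (.node (.node .leaf (nat_lit 14116940101685385) (.br (nat_lit 3) (.cons (.br (nat_lit 1) (.cons (.rel (nat_lit 285344769)) (.cons (.rel (nat_lit 285233184)) .nil))) .nil)) .leaf) (nat_lit 14116941650000183) (.br (nat_lit 0) (.cons (.br (nat_lit 1) (.cons (.rel (nat_lit 37752900)) .nil)) .nil)) (.node .leaf (nat_lit 14120753000846862) (.br (nat_lit 1) (.cons (.br (nat_lit 4) (.cons (.rel (nat_lit 1090535568)) .nil)) .nil)) .leaf)) (nat_lit 14120796434156432) (.br (nat_lit 0) (.cons (.br (nat_lit 6) (.cons (.rel (nat_lit 34363932756)) .nil)) .nil)) (.node (.node .leaf (nat_lit 14120971612780855) (.br (nat_lit 1) (.cons (.br (nat_lit 2) (.cons (.rel (nat_lit 83902800)) .nil)) .nil)) .leaf) (nat_lit 14120972959828594) (.br (nat_lit 1) (.cons (.br (nat_lit 4) (.cons (.rel (nat_lit 1090654224)) (.cons (.rel (nat_lit 1090519080)) (.cons (.rel (nat_lit 2181038100)) .nil)))) .nil)) .leaf)) (nat_lit 14120972960144140) (.br (nat_lit 1) (.cons (.br (nat_lit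 2) (.cons (.rel (nat_lit 83902800)) .nil)) .nil)) (.node (.node (.node .leaf (nat_lit 14121002590332280) (.br (nat_lit 1) (.cons (.br (nat_lit 3) (.cons (.rel (nat_lit 570429441)) .nil)) .nil)) .leaf) (nat_lit 14121002806811300) (.br (nat_lit 1) (.cons (.br (nat_lit 4) (.cons (.rel (nat_lit 1090519080)) .nil)) .nil)) (.node .leaf (nat_lit 14121002848438898) (.br (nat_lit 1) (.cons (.br (nat_lit 3) (.cons (.rel (nat_lit 285213840)) .nil)) .nil)) .leaf)) (nat_lit 14121004689062519) (.br (nat_lit 0) (.cons (.br (nat_lit 1) (.cons (.rel (nat_lit 42209280)) .nil)) .nil)) (.node (.node .leaf (nat_lit 14121004689738989) (.br (nat_lit 3) (.cons (.br (nat_lit 4) (.cons (.rel (nat_lit 1342448640)) .nil)) .nil)) .leaf) (nat_lit 14121005340151021) (.br (nat_lit 3) (.cons (.br (nat_lit 5) (.cons (.rel (nat_lit 4833936000)) (.cons (.rel (nat_lit 4564451460)) .nil))) .nil)) .leaf)))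

/-- refutations 32 -/
def e32 : EX := (.node (.node (.node (.node (.node .leaf (nat_lit 13721966551190915) (.br (nat_lit 2) (.cons (.br (nat_lit 3) (.cons (.br (nat_lit 5) (.cons (.rel (nat_lit 4564484112)) (.cons (.rel (nat_lit 4563669024)) .nil))) .nil)) .nil)) .leaf) (nat_lit 13721968918673410) (.br (nat_lit 6) (.cons (.br (nat_lit 1) (.cons (.rel (nat_lit 17197961280)) (.cons (.rel (nat_lit 17196650754)) .nil))) .nil)) (.node .leaf (nat_lit 13721968918674209) (.br (nat_lit 3) (.cons (.br (nat_lit 6) (.cons (.br (nat_lit 5) (.cons (.rel (nat_lit 38923142160)) (.cons (.rel (nat_lit 21474861060)) .nil))) .nil)) .nil)) .leaf)) (nat_lit 13721968918674659) (.br (nat_lit 1) (.cons (.br (nat_lit 5) (.cons (.rel (nat_lit 4311877632)) .nil)) .nil)) (.node (.node .leaf (nat_lit 13721968919749510) (.br (nat_lit 3) (.cons (.br (nat_lit 5) (.cons (.br (nat_lit 6) (.cons (.rel (nat_lit 21474861060)) .nil)) .nil)) .nil)) .leaf) (nat_lit 13721968919749859) (.br (nat_lit 5) (.cons (.br (nat_lit 0) (.cons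 (.rel (nat_lit 4299163728)) (.cons (.rel (nat_lit 4299166728)) .nil))) .nil)) (.node .leaf (nat_lit 13723413808367876) (.br (nat_lit 2) (.cons (.br (nat_lit 4) (.cons (.rel (nat_lit 1140851856)) .nil)) .nil)) .leaf))) (nat_lit 13724115880332076) (.br (nat_lit 0) (.cons (.br (nat_lit 1) (.cons (.rel (nat_lit 20971920)) .nil)) .nil)) (.node (.node (.node .leaf (nat_lit 13724118183004415) (.br (nat_lit 1) (.cons (.br (nat_lit 2) (.cons (.rel (nat_lit 151013376)) .nil)) .nil)) .leaf) (nat_lit 13724118183004422) (.br (nat_lit 1) (.cons (.br (nat_lit 4) (.cons (.rel (nat_lit 1107820800)) .nil)) .nil)) (.node .leaf (nat_lit 13727754994898422) (.br (nat_lit 4) (.cons (.br (nat_lit 1) (.cons (.rel (nat_lit 1108410384)) (.cons (.rel (nat_lit 1090519080)) .nil))) .nil)) .leaf)) (nat_lit 13727754996894322) (.br (nat_lit 1) (.cons (.br (nat_lit 4) (.cons (.rel (nat_lit 1092624897)) (.cons (.rel (nat_lit 1108410384)) .nil))) .nil)) (.node (.node .leaf (nat_lit 13727756143943063) (.br (nat_lit 0) (.cons (.br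 (nat_lit 4) (.cons (.rel (nat_lit 1082147328)) .nil)) .nil)) .leaf) (nat_lit 13727756146133618) (.br (nat_lit 1) (.cons (.br (nat_lit 6) (.cons (.rel (nat_lit 17198743572)) (.cons (.rel (nat_lit 17213424708)) .nil))) (.cons (.br (nat_lit 6) (.cons (.rel (nat_lit 17196650754)) (.cons (.rel (nat_lit 34376536065)) .nil))) .nil))) .leaf))) (nat_lit 13727760132674942) (.br (nat_lit 1) (.cons (.br (nat_lit 3) (.cons (.rel (nat_lit 285220866)) (.cons (.rel (nat_lit 285278292)) (.cons (.rel (nat_lit 285212805)) .nil)))) (.cons (.br (nat_lit 6) (.cons (.rel (nat_lit 34376523792)) (.cons (.rel (nat_lit 17196663072)) .nil))) .nil))) (.node (.node (.node (.node .leaf (nat_lit 13727760132726167) (.br (nat_lit 0) (.cons (.br (nat_lit 1) (.cons (.rel (nat_lit 37830660)) .nil)) .nil)) .leaf) (nat_lit 13727760135019172) (.br (nat_lit 6) (.cons (.br (nat_lit 3) (.cons (.rel (nat_lit 17448306708)) (.cons (.rel (nat_lit 34628178432)) .nil))) .nil)) (.node .leaf (nat_lit 13727761405790834) (.br (nat_lit 0) (.cons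 (.br (nat_lit 5) (.cons (.rel (nat_lit 4299163728)) (.cons (.rel (nat_lit 4299163728)) .nil))) .nil)) .leaf)) (nat_lit 13727761405893284) (.br (nat_lit 2) (.cons (.br (nat_lit 4) (.cons (.rel (nat_lit 1140922368)) (.cons (.rel (nat_lit 1140850821)) .nil))) .nil)) (.node (.node .leaf (nat_lit 13729948062240773) (.br (nat_lit 0) (.cons (.br (nat_lit 2) (.cons (.rel (nat_lit 138412068)) .nil)) .nil)) .leaf) (nat_lit 13729948062241699) (.br (nat_lit 0) (.cons (.br (nat_lit 3) (.cons (.rel (nat_lit 272648208)) .nil)) .nil)) (.node .leaf (nat_lit 13732700618180870) (.br (nat_lit 0) (.cons (.br (nat_lit 5) (.cons (.rel (nat_lit 4299166728)) .nil)) .nil)) .leaf))) (nat_lit 13732700618475782) (.br (nat_lit 0) (.cons (.br (nat_lit 5) (.cons (.rel (nat_lit 4299166728)) .nil)) .nil)) (.node (.node (.node .leaf (nat_lit 13734026278394532) (.br (nat_lit 0) (.cons (.br (nat_lit 1) (.cons (.rel (nat_lit 37814352)) .nil)) .nil)) .leaf) (nat_lit 13734206539867363) (.br (nat_lit 1) (.cons (.br (nat_lit 3) (.cons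 (.rel (nat_lit 555746304)) .nil)) .nil)) (.node .leaf (nat_lit 13734206539867637) (.br (nat_lit 3) (.cons (.br (nat_lit 6) (.cons (.rel (nat_lit 17448329232)) .nil)) .nil)) .leaf)) (nat_lit 13734211297429535) (.br (nat_lit 0) (.cons (.br (nat_lit 2) (.cons (.rel (nat_lit 71368968)) .nil)) .nil)) (.node (.node .leaf (nat_lit 13735328046425621) (.br (nat_lit 2) (.cons (.br (nat_lit 6) (.cons (.rel (nat_lit 17247502344)) .nil)) .nil)) .leaf) (nat_lit 13735328047647521) (.br (nat_lit 1) (.cons (.br (nat_lit 3) (.cons (.rel (nat_lit 285213840)) .nil)) .nil)) .leaf))))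

/-- refutations 33 -/
def e33 : EX := (.node (.node (.node (.node .leaf (nat_lit 14261705331132697) (.br (nat_lit 2) (.cons (.br (nat_lit 4) (.cons (.rel (nat_lit 1140850821)) .nil)) .nil)) .leaf) (nat_lit 14261710445942142) (.br (nat_lit 2) (.cons (.br (nat_lit 3) (.cons (.rel (nat_lit 335549472)) .nil)) .nil)) (.node .leaf (nat_lit 14261710445972082) (.br (nat_lit 0) (.cons (.br (nat_lit 2) (.cons (.rel (nat_lit 71307552)) .nil)) .nil)) .leaf)) (nat_lit 14261710446248562) (.br (nat_lit 0) (.cons (.br (nat_lit 2) (.cons (.rel (nat_lit 138412068)) .nil)) .nil)) (.node (.node .leaf (nat_lit 14261710447200417) (.br (nat_lit 0) (.cons (.br (nat_lit 2) (.cons (.rel (nat_lit 71319825)) .nil)) .nil)) .leaf) (nat_lit 14261710447515949) (.br (nat_lit 0) (.cons (.br (nat_lit 4) (.cons (.rel (nat_lit 1077968901)) .nil)) .nil)) .leaf)) (nat_lit 14261710448183457) (.br (nat_lit 2) (.cons (.br (nat_lit 3) (.cons (.rel (nat_lit 335675520)) .nil)) .nil)) (.node (.node (.node .leaf (nat_lit 14261710448183577)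 (.br (nat_lit 0) (.cons (.br (nat_lit 4) (.cons (.rel (nat_lit 1077968901)) (.cons (.rel (nat_lit 1077945345)) .nil))) .nil)) .leaf) (nat_lit 14261710448183597) (.br (nat_lit 0) (.cons (.br (nat_lit 6) (.cons (.rel (nat_lit 34368389136)) .nil)) .nil)) (.node .leaf (nat_lit 14261710448183922) (.br (nat_lit 2) (.cons (.br (nat_lit 5) (.cons (.rel (nat_lit 4362077265)) (.cons (.rel (nat_lit 8657568768)) (.cons (.rel (nat_lit 4362084480)) .nil)))) .nil)) .leaf)) (nat_lit 14261710448183923) (.br (nat_lit 0) (.cons (.br (nat_lit 2) (.cons (.rel (nat_lit 76546368)) .nil)) .nil)) (.node (.node .leaf (nat_lit 14261711747229148) (.br (nat_lit 0) (.cons (.br (nat_lit 2) (.cons (.rel (nat_lit 71831574)) .nil)) .nil)) .leaf) (nat_lit 14261972223083121) (.br (nat_lit 1) (.cons (.br (nat_lit 2) (.cons (.rel (nat_lit 100667472)) .nil)) .nil)) .leaf)))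

/-- refutations 34 -/
def e34 : EX := (.node (.node (.node (.node (.node .leaf (nat_lit 14285284587048970) (.br (nat_lit 0) (.cons (.br (nat_lit 2) (.cons (.rel (nat_lit 71368968)) .nil)) .nil)) .leaf) (nat_lit 14285374355152249) (.br (nat_lit 3) (.cons (.br (nat_lit 5) (.cons (.rel (nat_lit 8859418944)) .nil)) .nil)) .leaf) (nat_lit 14290710066698540) (.br (nat_lit 0) (.cons (.br (nat_lit 5) (.cons (.rel (nat_lit 4299163728)) .nil)) .nil)) (.node .leaf (nat_lit 14290710067366514) (.br (nat_lit 4) (.cons (.br (nat_lit 0) (.cons (.rel (nat_lit 1077956628)) (.cons (.rel (nat_lit 1077945345)) .nil))) .nil)) .leaf)) (nat_lit 14296674841611790) (.br (nat_lit 0) (.cons (.br (nat_lit 1) (.cons (.rel (nat_lit 20988228)) .nil)) .nil)) (.node (.node .leaf (nat_lit 14296886251309362) (.br (nat_lit 2) (.cons (.br (nat_lit 5) (.cons (.rel (nat_lit 8724234240)) .nil)) .nil)) .leaf) (nat_lit 14296887277692192) (.br (nat_lit 0) (.cons (.br (nat_lit 2) (.cons (.rel (nat_lit 71843844)) .nil)) .nil)) (.node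 .leaf (nat_lit 14296887277692290) (.br (nat_lit 0) (.cons (.br (nat_lit 3) (.cons (.rel (nat_lit 541589505)) .nil)) .nil)) .leaf))) (nat_lit 14296887278913538) (.br (nat_lit 0) (.cons (.br (nat_lit 5) (.cons (.rel (nat_lit 4299166728)) .nil)) .nil)) (.node (.node (.node (.node .leaf (nat_lit 14296887278913711) (.br (nat_lit 1) (.cons (.br (nat_lit 3) (.cons (.br (nat_lit 4) (.cons (.rel (nat_lit 1107820800)) (.cons (.br (nat_lit 6) (.cons (.rel (nat_lit 17196646728)) (.cons (.rel (nat_lit 18253611093)) .nil))) .nil))) .nil)) .nil)) .leaf) (nat_lit 14296887278913812) (.br (nat_lit 4) (.cons (.br (nat_lit 5) (.cons (.rel (nat_lit 6442451073)) .nil)) .nil)) .leaf) (nat_lit 14296887279208508) (.br (nat_lit 0) (.cons (.br (nat_lit 5) (.cons (.rel (nat_lit 8594391552)) .nil)) .nil)) (.node .leaf (nat_lit 14296887279208623) (.br (nat_lit 3) (.cons (.br (nat_lit 0) (.cons (.rel (nat_lit 273748224)) (.cons (.rel (nat_lit 541589505)) .nil))) .nil)) .leaf)) (nat_lit 14297162400090388) (.br (nat_lit 2)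 (.cons (.br (nat_lit 4) (.cons (.rel (nat_lit 1140850821)) .nil)) .nil)) (.node (.node .leaf (nat_lit 14297754015058196) (.br (nat_lit 0) (.cons (.br (nat_lit 4) (.cons (.rel (nat_lit 2155938816)) .nil)) .nil)) .leaf) (nat_lit 14297754015059431) (.br (nat_lit 2) (.cons (.br (nat_lit 5) (.cons (.rel (nat_lit 4430234688)) .nil)) .nil)) (.node .leaf (nat_lit 14298002943406090) (.br (nat_lit 6) (.cons (.br (nat_lit 2) (.cons (.rel (nat_lit 34426852353)) (.cons (.rel (nat_lit 34495004754)) .nil))) .nil)) .leaf))))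

/-- refutations 35 -/
def e35 : EX := (.node (.node (.node (.node .leaf (nat_lit 15395579863977197) (.br (nat_lit 0) (.cons (.br (nat_lit 2) (.cons (.rel (nat_lit 138444864)) .nil)) .nil)) .leaf) (nat_lit 15399018828454564) (.br (nat_lit 2) (.cons (.br (nat_lit 4) (.cons (.rel (nat_lit 1141244160)) (.cons (.rel (nat_lit 1140982785)) .nil))) .nil)) .leaf) (nat_lit 15401109005540263) (.br (nat_lit 0) (.cons (.br (nat_lit 1) (.cons (.rel (nat_lit 20971920)) .nil)) .nil)) (.node (.node .leaf (nat_lit 15405032041897312) (.br (nat_lit 0) (.cons (.br (nat_lit 4) (.cons (.rel (nat_lit 1077956628)) .nil)) .nil)) .leaf) (nat_lit 15405032042613037) (.br (nat_lit 0) (.cons (.br (nat_lit 2) (.cons (.rel (nat_lit 71843844)) .nil)) .nil)) .leaf)) (nat_lit 15405032042928133) (.br (nat_lit 0) (.cons (.br (nat_lit 6) (.cons (.rel (nat_lit 34363938816)) .nil)) .nil)) (.node (.node (.node .leaf (nat_lit 15406151844029923) (.br (nat_lit 2) (.cons (.br (nat_lit 3) (.cons (.rel (nat_lit 335675520)) .nil)) .nil))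 .leaf) (nat_lit 15406151846283425) (.br (nat_lit 1) (.cons (.br (nat_lit 3) (.cons (.rel (nat_lit 285344769)) .nil)) .nil)) .leaf) (nat_lit 15406267893063740) (.br (nat_lit 1) (.cons (.br (nat_lit 4) (.cons (.rel (nat_lit 1090588737)) .nil)) .nil)) (.node (.node .leaf (nat_lit 15406267893065215) (.br (nat_lit 3) (.cons (.br (nat_lit 5) (.cons (.rel (nat_lit 4563669024)) (.cons (.rel (nat_lit 4831839234)) .nil))) .nil)) .leaf) (nat_lit 15406535281166497) (.br (nat_lit 0) (.cons (.br (nat_lit 5) (.cons (.rel (nat_lit 4299202560)) .nil)) .nil)) .leaf)))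

/-- refutations 36 -/
def e36 : EX := (.node (.node (.node (.node (.node .leaf (nat_lit 15498779709159426) (.br (nat_lit 1) (.cons (.br (nat_lit 6) (.cons (.rel (nat_lit 17198039040)) .nil)) .nil)) .leaf) (nat_lit 15498779709160225) (.br (nat_lit 3) (.cons (.br (nat_lit 6) (.cons (.rel (nat_lit 17448309888)) .nil)) .nil)) .leaf) (nat_lit 15498779711457905) (.br (nat_lit 1) (.cons (.br (nat_lit 2) (.cons (.rel (nat_lit 100667472)) .nil)) .nil)) (.node (.node .leaf (nat_lit 15498779711458035) (.br (nat_lit 0) (.cons (.br (nat_lit 2) (.cons (.rel (nat_lit 71368968)) (.cons (.rel (nat_lit 73401360)) .nil))) .nil)) .leaf) (nat_lit 15504132817767026) (.br (nat_lit 0) (.cons (.br (nat_lit 1) (.cons (.rel (nat_lit 20971920)) .nil)) .nil)) .leaf)) (nat_lit 15504133017871763) (.br (nat_lit 0) (.cons (.br (nat_lit 6) (.cons (.rel (nat_lit 17184064788)) .nil)) .nil)) (.node (.node (.node .leaf (nat_lit 15504133019093052) (.br (nat_lit 0) (.cons (.br (nat_lit 6) (.cons (.rel (nat_lit 17184063753)) (.cons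 (.rel (nat_lit 17184067968)) .nil))) .nil)) .leaf) (nat_lit 15505247508581289) (.br (nat_lit 1) (.cons (.br (nat_lit 3) (.cons (.rel (nat_lit 285230148)) (.cons (.rel (nat_lit 553652496)) .nil))) (.cons (.br (nat_lit 2) (.cons (.rel (nat_lit 85197828)) (.cons (.rel (nat_lit 151060485)) .nil))) .nil))) .leaf) (nat_lit 15506466654657449) (.br (nat_lit 6) (.cons (.br (nat_lit 1) (.cons (.rel (nat_lit 34376646660)) (.cons (.rel (nat_lit 34376523792)) .nil))) .nil)) (.node (.node .leaf (nat_lit 15511017330352404) (.br (nat_lit 6) (.cons (.br (nat_lit 1) (.cons (.rel (nat_lit 34376582208)) (.cons (.br (nat_lit 3) (.cons (.rel (nat_lit 303040512)) (.cons (.rel (nat_lit 17448309888)) .nil))) .nil))) .nil)) .leaf) (nat_lit 15511017330353555) (.br (nat_lit 4) (.cons (.br (nat_lit 6) (.cons (.br (nat_lit 0) (.cons (.br (nat_lit 2) (.cons (.rel (nat_lit 34426847328)) (.cons (.rel (nat_lit 73401360)) .nil))) (.cons (.rel (nat_lit 34363938816)) .nil))) .nil)) .nil)) .leaf))) (nat_lit 15511859142867745) (.br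 (nat_lit 6) (.cons (.br (nat_lit 2) (.cons (.br (nat_lit 4) (.cons (.rel (nat_lit 19394463744)) (.cons (.rel (nat_lit 18253611093)) .nil))) (.cons (.rel (nat_lit 34426847328)) .nil))) .nil)) (.node (.node (.node (.node .leaf (nat_lit 15511859143168801) (.br (nat_lit 1) (.cons (.br (nat_lit 2) (.cons (.rel (nat_lit 83895552)) .nil)) .nil)) .leaf) (nat_lit 15511859145166311) (.br (nat_lit 1) (.cons (.br (nat_lit 4) (.cons (.rel (nat_lit 1107820800)) .nil)) .nil)) .leaf) (nat_lit 15512138777415711) (.br (nat_lit 0) (.cons (.br (nat_lit 3) (.cons (.rel (nat_lit 541589505)) .nil)) .nil)) (.node (.node .leaf (nat_lit 15512138777417237) (.br (nat_lit 1) (.cons (.br (nat_lit 6) (.cons (.rel (nat_lit 17196663072)) .nil)) .nil)) .leaf) (nat_lit 15512138778491012) (.br (nat_lit 1) (.cons (.br (nat_lit 4) (.cons (.rel (nat_lit 1090519080)) .nil)) .nil)) .leaf)) (nat_lit 15512138778491811) (.br (nat_lit 0) (.cons (.br (nat_lit 3) (.cons (.rel (nat_lit 272892240)) .nil)) .nil)) (.node (.node (.node .leaf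 (nat_lit 15512138778492437) (.br (nat_lit 6) (.cons (.br (nat_lit 1) (.cons (.rel (nat_lit 17196663072)) (.cons (.rel (nat_lit 34376523792)) .nil))) .nil)) .leaf) (nat_lit 15512138779412511) (.br (nat_lit 2) (.cons (.br (nat_lit 6) (.cons (.rel (nat_lit 17314087056)) .nil)) .nil)) .leaf) (nat_lit 15512138779412612) (.br (nat_lit 2) (.cons (.br (nat_lit 5) (.cons (.rel (nat_lit 4362142752)) .nil)) .nil)) (.node .leaf (nat_lit 15512138779412785) (.br (nat_lit 1) (.cons (.br (nat_lit 2) (.cons (.rel (nat_lit 83902800)) .nil)) .nil)) .leaf))))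

/-- refutations 37 -/
def e37 : EX := (.node (.node (.node (.node .leaf (nat_lit 15588065269315740) (.br (nat_lit 0) (.cons (.br (nat_lit 2) (.cons (.rel (nat_lit 75513984)) .nil)) .nil)) .leaf) (nat_lit 15592325675000460) (.br (nat_lit 0) (.cons (.br (nat_lit 4) (.cons (.rel (nat_lit 2151710976)) .nil)) .nil)) .leaf) (nat_lit 15594682759634451) (.br (nat_lit 0) (.cons (.br (nat_lit 3) (.cons (.rel (nat_lit 272648208)) .nil)) .nil)) (.node (.node .leaf (nat_lit 15594723538847749) (.br (nat_lit 1) (.cons (.br (nat_lit 3) (.cons (.rel (nat_lit 285220866)) .nil)) .nil)) .leaf) (nat_lit 15597952082704394) (.br (nat_lit 0) (.cons (.br (nat_lit 1) (.cons (.rel (nat_lit 20988228)) .nil)) .nil)) .leaf)) (nat_lit 15597952082704396) (.br (nat_lit 1) (.cons (.br (nat_lit 3) (.cons (.rel (nat_lit 285216840)) .nil)) .nil)) (.node (.node (.node .leaf (nat_lit 15597952082704695) (.br (nat_lit 5) (.cons (.br (nat_lit 6) (.cons (.rel (nat_lit 21474837537)) .nil)) .nil)) .leaf) (nat_lit 15597952083380284) (.br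 (nat_lit 0) (.cons (.br (nat_lit 3) (.cons (.rel (nat_lit 276898305)) .nil)) .nil)) .leaf) (nat_lit 15598978361784380) (.br (nat_lit 0) (.cons (.br (nat_lit 5) (.cons (.rel (nat_lit 4299202560)) .nil)) .nil)) (.node (.node .leaf (nat_lit 15599573601307425) (.br (nat_lit 1) (.cons (.br (nat_lit 3) (.cons (.rel (nat_lit 285284352)) .nil)) .nil)) .leaf) (nat_lit 15599575782344885) (.br (nat_lit 1) (.cons (.br (nat_lit 6) (.cons (.rel (nat_lit 34376523792)) .nil)) .nil)) .leaf)))

/-- refutations 38 -/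
def e38 : EX := (.node (.node (.node (.node (.node (.node .leaf (nat_lit 15938574717610614) (.br (nat_lit 2) (.cons (.br (nat_lit 4) (.cons (.rel (nat_lit 1209040896)) .nil)) .nil)) .leaf) (nat_lit 15938574719871606) (.br (nat_lit 2) (.cons (.br (nat_lit 5) (.cons (.rel (nat_lit 4362077265)) (.cons (.rel (nat_lit 4362081300)) .nil))) .nil)) (.node .leaf (nat_lit 15938952805818674) (.br (nat_lit 1) (.cons (.br (nat_lit 3) (.cons (.rel (nat_lit 285220866)) .nil)) .nil)) .leaf)) (nat_lit 15938952807111316) (.br (nat_lit 0) (.cons (.br (nat_lit 4) (.cons (.rel (nat_lit 1077945345)) .nil)) .nil)) (.node (.node .leaf (nat_lit 15939829582012446) (.br (nat_lit 1) (.cons (.br (nat_lit 4) (.cons (.rel (nat_lit 1090519080)) .nil)) .nil)) .leaf) (nat_lit 15939829583599778) (.br (nat_lit 0) (.cons (.br (nat_lit 1) (.cons (.rel (nat_lit 21102849)) (.cons (.rel (nat_lit 21042432)) .nil))) (.cons (.br (nat_lit 1) (.cons (.rel (nat_lit 21102849)) (.cons (.rel (nat_lit 25170960)) .nil))) .nil))) .leaf)) (nat_lit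 15939829584917856) (.br (nat_lit 1) (.cons (.br (nat_lit 6) (.cons (.rel (nat_lit 17196650754)) .nil)) .nil)) (.node (.node (.node .leaf (nat_lit 15940937683575060) (.br (nat_lit 3) (.cons (.br (nat_lit 1) (.cons (.rel (nat_lit 285220866)) (.cons (.rel (nat_lit 553664769)) .nil))) .nil)) .leaf) (nat_lit 15940937685162660) (.br (nat_lit 3) (.cons (.br (nat_lit 6) (.cons (.rel (nat_lit 17448435792)) .nil)) .nil)) .leaf) (nat_lit 15940937685982560) (.br (nat_lit 3) (.cons (.br (nat_lit 5) (.cons (.rel (nat_lit 8858372097)) .nil)) .nil)) (.node (.node .leaf (nat_lit 15940940231925088) (.br (nat_lit 0) (.cons (.br (nat_lit 5) (.cons (.rel (nat_lit 4299162693)) .nil)) .nil)) .leaf) (nat_lit 15940940331767838) (.br (nat_lit 1) (.cons (.br (nat_lit 4) (.cons (.rel (nat_lit 1108348932)) .nil)) .nil)) .leaf))) (nat_lit 15940940331769315) (.br (nat_lit 1) (.cons (.br (nat_lit 4) (.cons (.rel (nat_lit 1090520070)) .nil)) .nil)) (.node (.node (.node (.node .leaf (nat_lit 15944373657265435) (.br (nat_lit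 3) (.cons (.br (nat_lit 1) (.cons (.rel (nat_lit 285220866)) (.cons (.rel (nat_lit 570429441)) .nil))) .nil)) .leaf) (nat_lit 15944373657412960) (.br (nat_lit 6) (.cons (.br (nat_lit 3) (.cons (.rel (nat_lit 17448305673)) (.cons (.rel (nat_lit 17716748544)) .nil))) .nil)) (.node .leaf (nat_lit 15944373657677281) (.br (nat_lit 3) (.cons (.br (nat_lit 5) (.cons (.rel (nat_lit 4563665988)) .nil)) .nil)) .leaf)) (nat_lit 15944373658525756) (.br (nat_lit 3) (.cons (.br (nat_lit 5) (.cons (.rel (nat_lit 8858370072)) (.cons (.rel (nat_lit 4831911936)) .nil))) .nil)) (.node (.node .leaf (nat_lit 15944373658999060) (.br (nat_lit 3) (.cons (.br (nat_lit 1) (.cons (.rel (nat_lit 570429441)) (.cons (.rel (nat_lit 285220866)) .nil))) .nil)) .leaf) (nat_lit 15944373658999721) (.br (nat_lit 0) (.cons (.br (nat_lit 6) (.cons (.rel (nat_lit 17184064788)) .nil)) .nil)) .leaf)) (nat_lit 15944373659818295) (.br (nat_lit 1) (.cons (.br (nat_lit 3) (.cons (.rel (nat_lit 285284352)) .nil)) .nil)) (.node (.node (.node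 .leaf (nat_lit 15944373659818660) (.br (nat_lit 1) (.cons (.br (nat_lit 3) (.cons (.rel (nat_lit 570429441)) (.cons (.rel (nat_lit 570429441)) .nil))) (.cons (.br (nat_lit 3) (.cons (.rel (nat_lit 570429441)) (.cons (.rel (nat_lit 285213840)) .nil))) .nil))) .leaf) (nat_lit 15944373660031652) (.br (nat_lit 1) (.cons (.br (nat_lit 3) (.cons (.rel (nat_lit 570429441)) .nil)) .nil)) .leaf) (nat_lit 15944373660265360) (.br (nat_lit 0) (.cons (.br (nat_lit 1) (.cons (.rel (nat_lit 37748865)) .nil)) .nil)) (.node (.node .leaf (nat_lit 15944373660317153) (.br (nat_lit 2) (.cons (.br (nat_lit 5) (.cons (.rel (nat_lit 4363194624)) .nil)) .nil)) .leaf) (nat_lit 15944376303749796) (.br (nat_lit 1) (.cons (.br (nat_lit 2) (.cons (.rel (nat_lit 83919108)) .nil)) .nil)) .leaf)))) (nat_lit 15944376303871259) (.br (nat_lit 1) (.cons (.br (nat_lit 5) (.cons (.rel (nat_lit 8608808961)) .nil)) .nil)) (.node (.node (.node (.node (.node .leaf (nat_lit 15944376304018784) (.br (nat_lit 6) (.cons (.br (nat_lit 1)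 (.cons (.br (nat_lit 3) (.cons (.rel (nat_lit 285344769)) (.cons (.rel (nat_lit 17716748544)) (.cons (.rel (nat_lit 570429441)) (.cons (.rel (nat_lit 34628178432)) .nil))))) (.cons (.rel (nat_lit 34376523792)) .nil))) .nil)) .leaf) (nat_lit 15944376304067236) (.br (nat_lit 0) (.cons (.br (nat_lit 2) (.cons (.rel (nat_lit 71843844)) .nil)) .nil)) (.node .leaf (nat_lit 15944376305131580) (.br (nat_lit 6) (.cons (.br (nat_lit 0) (.cons (.rel (nat_lit 17185178112)) (.cons (.rel (nat_lit 17184064788)) (.cons (.rel (nat_lit 17184063753)) (.cons (.rel (nat_lit 17188267008)) .nil))))) .nil)) .leaf)) (nat_lit 15944376305604884) (.br (nat_lit 6) (.cons (.br (nat_lit 4) (.cons (.rel (nat_lit 36507291648)) (.cons (.rel (nat_lit 18253617153)) (.cons (.rel (nat_lit 18253676580)) .nil)))) .nil)) (.node (.node .leaf (nat_lit 15944376305605545) (.br (nat_lit 1) (.cons (.br (nat_lit 3) (.cons (.rel (nat_lit 570429441)) (.cons (.rel (nat_lit 285344769)) .nil))) .nil)) .leaf) (nat_lit 15944376306424484) (.br (nat_lit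 1) (.cons (.br (nat_lit 4) (.cons (.rel (nat_lit 2181038100)) (.cons (.rel (nat_lit 1107820800)) (.cons (.rel (nat_lit 1090519080)) .nil)))) .nil)) .leaf)) (nat_lit 15944376306637476) (.br (nat_lit 1) (.cons (.br (nat_lit 4) (.cons (.rel (nat_lit 2181038100)) .nil)) .nil)) (.node (.node (.node .leaf (nat_lit 15949258498772451) (.br (nat_lit 1) (.cons (.br (nat_lit 3) (.cons (.rel (nat_lit 570429441)) .nil)) .nil)) .leaf) (nat_lit 15949263242530028) (.br (nat_lit 1) (.cons (.br (nat_lit 3) (.cons (.rel (nat_lit 285213840)) .nil)) .nil)) .leaf) (nat_lit 15950383780736352) (.br (nat_lit 0) (.cons (.br (nat_lit 1) (.cons (.rel (nat_lit 21042432)) .nil)) .nil)) (.node (.node .leaf (nat_lit 15950383782018400) (.br (nat_lit 0) (.cons (.br (nat_lit 1) (.cons (.rel (nat_lit 20981028)) .nil)) .nil)) .leaf) (nat_lit 15950383782775045) (.br (nat_lit 1) (.cons (.br (nat_lit 3) (.cons (.rel (nat_lit 285220866)) .nil)) .nil)) .leaf))) (nat_lit 15950383782775089) (.br (nat_lit 0) (.cons (.br (nat_lit 4) (.cons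 (.rel (nat_lit 1077969936)) .nil)) .nil)) (.node (.node (.node (.node .leaf (nat_lit 15950386007646884) (.br (nat_lit 1) (.cons (.br (nat_lit 3) (.cons (.rel (nat_lit 555746304)) .nil)) .nil)) .leaf) (nat_lit 15950386009234784) (.br (nat_lit 5) (.cons (.br (nat_lit 3) (.cons (.rel (nat_lit 4831839234)) (.cons (.rel (nat_lit 4831911936)) .nil))) .nil)) .leaf) (nat_lit 15950386010052884) (.br (nat_lit 5) (.cons (.br (nat_lit 3) (.cons (.rel (nat_lit 4831839234)) (.cons (.rel (nat_lit 4831911936)) .nil))) .nil)) (.node (.node .leaf (nat_lit 15950389071076704) (.br (nat_lit 3) (.cons (.br (nat_lit 6) (.cons (.rel (nat_lit 17448435792)) .nil)) .nil)) .leaf) (nat_lit 15950389072393568) (.br (nat_lit 0) (.cons (.br (nat_lit 1) (.cons (.rel (nat_lit 21042432)) .nil)) .nil)) .leaf)) (nat_lit 15950389547903781) (.br (nat_lit 3) (.cons (.br (nat_lit 5) (.cons (.rel (nat_lit 4564451460)) .nil)) .nil)) (.node (.node (.node .leaf (nat_lit 15950389548715489) (.br (nat_lit 1) (.cons (.br (nat_lit 3) (.cons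 (.rel (nat_lit 285212805)) .nil)) .nil)) .leaf) (nat_lit 15950389549226789) (.br (nat_lit 1) (.cons (.br (nat_lit 6) (.cons (.rel (nat_lit 17196714240)) .nil)) .nil)) .leaf) (nat_lit 15950389550046689) (.br (nat_lit 0) (.cons (.br (nat_lit 6) (.cons (.rel (nat_lit 17188267008)) .nil)) .nil)) (.node (.node .leaf (nat_lit 15950389550259552) (.br (nat_lit 0) (.cons (.br (nat_lit 4) (.cons (.rel (nat_lit 1077937284)) .nil)) .nil)) .leaf) (nat_lit 15951512260266245) (.br (nat_lit 0) (.cons (.br (nat_lit 1) (.cons (.rel (nat_lit 21504000)) .nil)) .nil)) .leaf)))))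

/-- refutations 39 -/
def e39 : EX := (.node (.node (.node (.node .leaf (nat_lit 16285070715734047) (.br (nat_lit 2) (.cons (.br (nat_lit 3) (.cons (.rel (nat_lit 335646720)) .nil)) .nil)) .leaf) (nat_lit 16296214801423772) (.br (nat_lit 0) (.cons (.br (nat_lit 1) (.cons (.rel (nat_lit 20988228)) .nil)) .nil)) .leaf) (nat_lit 16296219477753888) (.br (nat_lit 4) (.cons (.br (nat_lit 6) (.cons (.rel (nat_lit 18253709376)) .nil)) .nil)) (.node (.node .leaf (nat_lit 16296219477755934) (.br (nat_lit 4) (.cons (.br (nat_lit 1) (.cons (.rel (nat_lit 2164523520)) (.cons (.rel (nat_lit 1090535568)) .nil))) .nil)) .leaf) (nat_lit 16296219477764126) (.br (nat_lit 1) (.cons (.br (nat_lit 4) (.cons (.rel (nat_lit 1107820800)) .nil)) .nil)) .leaf)) (nat_lit 16296219478059038) (.br (nat_lit 1) (.cons (.br (nat_lit 4) (.cons (.rel (nat_lit 1090592772)) .nil)) .nil)) (.node (.node (.node .leaf (nat_lit 16303263222900199) (.br (nat_lit 1) (.cons (.br (nat_lit 2) (.cons (.rel (nat_lit 150996033)) .nil)) .nil))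 .leaf) (nat_lit 16303263224121370) (.br (nat_lit 1) (.cons (.br (nat_lit 2) (.cons (.rel (nat_lit 83919108)) .nil)) .nil)) .leaf) (nat_lit 16303263224121375) (.br (nat_lit 2) (.cons (.br (nat_lit 4) (.cons (.rel (nat_lit 1140868164)) .nil)) .nil)) (.node (.node .leaf (nat_lit 16303263224121376) (.br (nat_lit 2) (.cons (.br (nat_lit 4) (.cons (.rel (nat_lit 1140871200)) .nil)) .nil)) .leaf) (nat_lit 16303263224121525) (.br (nat_lit 1) (.cons (.br (nat_lit 6) (.cons (.rel (nat_lit 17198743572)) (.cons (.rel (nat_lit 17196646728)) .nil))) (.cons (.br (nat_lit 5) (.cons (.rel (nat_lit 4311814146)) (.cons (.rel (nat_lit 4311778320)) .nil))) .nil))) .leaf)))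

/-- refutations 40 -/
def e40 : EX := (.node (.node .leaf (nat_lit 16360790043508762) (.br (nat_lit 0) (.cons (.br (nat_lit 2) (.cons (.rel (nat_lit 75513984)) .nil)) .nil)) .leaf) (nat_lit 16362258892646437) (.br (nat_lit 1) (.cons (.br (nat_lit 2) (.cons (.rel (nat_lit 84935184)) .nil)) .nil)) (.node .leaf (nat_lit 16372819693258106) (.br (nat_lit 0) (.cons (.br (nat_lit 3) (.cons (.rel (nat_lit 272629830)) .nil)) .nil)) .leaf))

/-- refutations 41 -/
def e41 : EX := (.node (.node (.node .leaf (nat_lit 16483941200762093) (.br (nat_lit 2) (.cons (.br (nat_lit 3) (.cons (.rel (nat_lit 335675520)) .nil)) .nil)) .leaf) (nat_lit 16489295436905704) (.br (nat_lit 2) (.cons (.br (nat_lit 5) (.cons (.rel (nat_lit 8657043714)) .nil)) .nil)) (.node .leaf (nat_lit 16496219918897409) (.br (nat_lit 0) (.cons (.br (nat_lit 1) (.cons (.rel (nat_lit 20982018)) .nil)) .nil)) .leaf)) (nat_lit 16496869494967549) (.br (nat_lit 0) (.cons (.br (nat_lit 2) (.cons (.rel (nat_lit 71304516)) .nil)) .nil)) (.node (.node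 .leaf (nat_lit 16496872120895745) (.br (nat_lit 0) (.cons (.br (nat_lit 4) (.cons (.rel (nat_lit 1078001736)) .nil)) .nil)) .leaf) (nat_lit 16497248168124592) (.br (nat_lit 0) (.cons (.br (nat_lit 2) (.cons (.rel (nat_lit 71307552)) .nil)) .nil)) .leaf))

/-- refutations 42 -/
def e42 : EX := (.node (.node (.node (.node .leaf (nat_lit 22084044306477193) (.br (nat_lit 1) (.cons (.br (nat_lit 5) (.cons (.rel (nat_lit 8606713152)) .nil)) .nil)) .leaf) (nat_lit 22084044307618468) (.br (nat_lit 0) (.cons (.br (nat_lit 1) (.cons (.rel (nat_lit 37830660)) (.cons (.rel (nat_lit 37752900)) .nil))) (.cons (.br (nat_lit 4) (.cons (.rel (nat_lit 1077968901)) (.cons (.rel (nat_lit 1077937284)) .nil))) .nil))) .leaf) (nat_lit 22084044519171448) (.br (nat_lit 0) (.cons (.br (nat_lit 5) (.cons (.rel (nat_lit 4299162693)) .nil)) .nil)) (.node .leaf (nat_lit 22084044521527972) (.br (nat_lit 6) (.cons (.br (nat_lit 2) (.cons (.rel (nat_lit 17246978325)) (.cons (.rel (nat_lit 34426852353)) (.cons (.rel (nat_lit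 17314157568)) .nil)))) .nil)) .leaf)) (nat_lit 22084044521978532) (.br (nat_lit 0) (.cons (.br (nat_lit 3) (.cons (.rel (nat_lit 272630865)) .nil)) .nil)) (.node (.node (.node .leaf (nat_lit 22084048629632412) (.br (nat_lit 0) (.cons (.br (nat_lit 1) (.cons (.rel (nat_lit 42209280)) .nil)) .nil)) .leaf) (nat_lit 22084048631945892) (.br (nat_lit 4) (.cons (.br (nat_lit 5) (.cons (.rel (nat_lit 10737422592)) .nil)) .nil)) .leaf) (nat_lit 22084049235925668) (.br (nat_lit 1) (.cons (.br (nat_lit 6) (.cons (.rel (nat_lit 17213489160)) .nil)) .nil)) (.node .leaf (nat_lit 22084049236085493) (.br (nat_lit 0) (.cons (.br (nat_lit 1) (.cons (.rel (nat_lit 20971920)) .nil)) .nil)) .leaf)))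

/-- refutations 43 -/
def e43 : EX := (.node (.node (.node (.node (.node .leaf (nat_lit 22430089384412692) (.br (nat_lit 3) (.cons (.br (nat_lit 6) (.cons (.rel (nat_lit 17448304674)) .nil)) .nil)) .leaf) (nat_lit 22430089386348052) (.br (nat_lit 4) (.cons (.br (nat_lit 5) (.cons (.rel (nat_lit 5369759760)) .nil)) .nil)) (.node .leaf (nat_lit 22430092040358049) (.br (nat_lit 0) (.cons (.br (nat_lit 1) (.cons (.rel (nat_lit 21039444)) .nil)) .nil)) .leaf)) (nat_lit 22430095300316672) (.br (nat_lit 1) (.cons (.br (nat_lit 2) (.cons (.rel (nat_lit 84541440)) .nil)) .nil)) (.node (.node .leaf (nat_lit 22430095300674972) (.br (nat_lit 0) (.cons (.br (nat_lit 1) (.cons (.rel (nat_lit 21102849)) .nil)) .nil)) .leaf) (nat_lit 22430095300675072) (.br (nat_lit 0) (.cons (.br (nat_lit 1) (.cons (.rel (nat_lit 21042432)) .nil)) .nil)) .leaf)) (nat_lit 22430103151274245) (.br (nat_lit 1) (.cons (.br (nat_lit 2) (.cons (.rel (nat_lit 84935184)) (.cons (.rel (nat_lit 83919108)) .nil))) .nil)) (.node (.node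 (.node .leaf (nat_lit 22430103151274919) (.br (nat_lit 4) (.cons (.br (nat_lit 6) (.cons (.rel (nat_lit 18253677570)) .nil)) .nil)) .leaf) (nat_lit 22431219298291100) (.br (nat_lit 1) (.cons (.br (nat_lit 3) (.cons (.rel (nat_lit 553664769)) .nil)) .nil)) .leaf) (nat_lit 22435626064760220) (.br (nat_lit 0) (.cons (.br (nat_lit 1) (.cons (.rel (nat_lit 21042432)) .nil)) .nil)) (.node (.node .leaf (nat_lit 22435887590262292) (.br (nat_lit 6) (.cons (.br (nat_lit 2) (.cons (.rel (nat_lit 17246978325)) (.cons (.rel (nat_lit 34426912770)) .nil))) .nil)) .leaf) (nat_lit 22435887592512268) (.br (nat_lit 4) (.cons (.br (nat_lit 6) (.cons (.rel (nat_lit 18253615128)) .nil)) .nil)) .leaf))) (nat_lit 22435887729830149) (.br (nat_lit 2) (.cons (.br (nat_lit 4) (.cons (.rel (nat_lit 1140922368)) (.cons (.rel (nat_lit 1140851856)) .nil))) .nil)) (.node (.node (.node (.node .leaf (nat_lit 22435888211019284) (.br (nat_lit 2) (.cons (.br (nat_lit 5) (.cons (.rel (nat_lit 4362076230)) .nil)) .nil)) .leaf) (nat_lit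 22435892222694013) (.br (nat_lit 0) (.cons (.br (nat_lit 6) (.cons (.rel (nat_lit 17184067968)) .nil)) .nil)) .leaf) (nat_lit 22435892351953157) (.br (nat_lit 3) (.cons (.br (nat_lit 4) (.cons (.rel (nat_lit 1610875200)) .nil)) .nil)) (.node (.node .leaf (nat_lit 22435893506165362) (.br (nat_lit 0) (.cons (.br (nat_lit 2) (.cons (.rel (nat_lit 75513984)) .nil)) .nil)) .leaf) (nat_lit 22440783258094829) (.br (nat_lit 0) (.cons (.br (nat_lit 4) (.cons (.rel (nat_lit 1077952593)) .nil)) .nil)) .leaf)) (nat_lit 22442106702906900) (.br (nat_lit 6) (.cons (.br (nat_lit 0) (.cons (.rel (nat_lit 34363938816)) (.cons (.rel (nat_lit 34368389136)) .nil))) .nil)) (.node (.node (.node .leaf (nat_lit 22442106704842261) (.br (nat_lit 1) (.cons (.br (nat_lit 5) (.cons (.rel (nat_lit 4311744681)) .nil)) .nil)) .leaf) (nat_lit 22443438792566136) (.br (nat_lit 4) (.cons (.br (nat_lit 5) (.cons (.rel (nat_lit 9663681552)) .nil)) .nil)) .leaf) (nat_lit 22443438792885779) (.br (nat_lit 0) (.cons (.br (nat_lit 4)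 (.cons (.rel (nat_lit 2155974660)) .nil)) .nil)) (.node (.node .leaf (nat_lit 22443438792885780) (.br (nat_lit 3) (.cons (.br (nat_lit 4) (.cons (.rel (nat_lit 1610613825)) .nil)) .nil)) .leaf) (nat_lit 22443438794821140) (.br (nat_lit 2) (.cons (.br (nat_lit 4) (.cons (.rel (nat_lit 2214592896)) .nil)) .nil)) .leaf))))

/-- refutations 44 -/
def e44 : EX := (.node (.node (.node (.node (.node (.node .leaf (nat_lit 22447689572881015) (.br (nat_lit 3) (.cons (.br (nat_lit 5) (.cons (.rel (nat_lit 4563730440)) .nil)) .nil)) .leaf) (nat_lit 22447690826922739) (.br (nat_lit 0) (.cons (.br (nat_lit 1) (.cons (.rel (nat_lit 21102849)) .nil)) .nil)) .leaf) (nat_lit 22447690827998086) (.br (nat_lit 0) (.cons (.br (nat_lit 2) (.cons (.rel (nat_lit 75632640)) .nil)) .nil)) (.node .leaf (nat_lit 22447690829220141) (.br (nat_lit 0) (.cons (.br (nat_lit 6) (.cons (.rel (nat_lit 17188267008)) .nil)) .nil)) .leaf)) (nat_lit 22447690829220742) (.br (nat_lit 1) (.cons (.br (nat_lit 4) (.cons (.rel (nat_lit 1107820800))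 (.cons (.rel (nat_lit 1090551876)) .nil))) .nil)) (.node (.node (.node .leaf (nat_lit 22447690829220777) (.br (nat_lit 1) (.cons (.br (nat_lit 4) (.cons (.rel (nat_lit 1090666497)) (.cons (.br (nat_lit 0) (.cons (.rel (nat_lit 1078005762)) (.cons (.rel (nat_lit 2153775168)) .nil))) .nil))) .nil)) .leaf) (nat_lit 22447692270837820) (.br (nat_lit 0) (.cons (.br (nat_lit 1) (.cons (.rel (nat_lit 25231377)) .nil)) .nil)) .leaf) (nat_lit 22447692272355330) (.br (nat_lit 1) (.cons (.br (nat_lit 2) (.cons (.rel (nat_lit 85983300)) .nil)) .nil)) (.node .leaf (nat_lit 22447692293032691) (.br (nat_lit 1) (.cons (.br (nat_lit 6) (.cons (.rel (nat_lit 34376646660)) .nil)) .nil)) .leaf))) (nat_lit 22447693199002355) (.br (nat_lit 0) (.cons (.br (nat_lit 5) (.cons (.rel (nat_lit 4299163728)) .nil)) .nil)) (.node (.node (.node (.node .leaf (nat_lit 22447693199296543) (.br (nat_lit 0) (.cons (.br (nat_lit 1) (.cons (.rel (nat_lit 37748865)) (.cons (.rel (nat_lit 21102849)) .nil))) .nil)) .leaf) (nat_lit 22447694795808799)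 (.br (nat_lit 1) (.cons (.br (nat_lit 4) (.cons (.rel (nat_lit 1090519080)) .nil)) .nil)) .leaf) (nat_lit 22447694795808828) (.br (nat_lit 1) (.cons (.br (nat_lit 3) (.cons (.rel (nat_lit 285294600)) .nil)) .nil)) (.node .leaf (nat_lit 22447694796355586) (.br (nat_lit 0) (.cons (.br (nat_lit 2) (.cons (.rel (nat_lit 71827536)) .nil)) .nil)) .leaf)) (nat_lit 22447694797032361) (.br (nat_lit 4) (.cons (.br (nat_lit 6) (.cons (.br (nat_lit 5) (.cons (.rel (nat_lit 21474861060)) (.cons (.rel (nat_lit 6442532868)) .nil))) .nil)) .nil)) (.node (.node .leaf (nat_lit 22447696067906161) (.br (nat_lit 1) (.cons (.br (nat_lit 4) (.cons (.rel (nat_lit 1090551876)) .nil)) .nil)) .leaf) (nat_lit 22447696068201973) (.br (nat_lit 1) (.cons (.br (nat_lit 6) (.cons (.rel (nat_lit 17196714240)) .nil)) .nil)) (.node .leaf (nat_lit 22448145471118713) (.br (nat_lit 0) (.cons (.br (nat_lit 1) (.cons (.rel (nat_lit 37748865)) .nil)) .nil)) .leaf)))) (nat_lit 22448150686263458) (.br (nat_lit 0) (.cons (.br (nat_lit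 6) (.cons (.rel (nat_lit 34368389136)) .nil)) .nil)) (.node (.node (.node (.node (.node .leaf (nat_lit 22448150688832889) (.br (nat_lit 0) (.cons (.br (nat_lit 1) (.cons (.rel (nat_lit 21102849)) .nil)) .nil)) .leaf) (nat_lit 22453097855259255) (.br (nat_lit 3) (.cons (.br (nat_lit 2) (.cons (.rel (nat_lit 335675520)) (.cons (.rel (nat_lit 335675520)) (.cons (.rel (nat_lit 335675520)) .nil)))) .nil)) .leaf) (nat_lit 22455383413758889) (.br (nat_lit 1) (.cons (.br (nat_lit 4) (.cons (.rel (nat_lit 2181038100)) .nil)) .nil)) (.node .leaf (nat_lit 22455383414043250) (.br (nat_lit 1) (.cons (.br (nat_lit 3) (.cons (.rel (nat_lit 285294600)) .nil)) .nil)) .leaf)) (nat_lit 22458366861249914) (.br (nat_lit 0) (.cons (.br (nat_lit 5) (.cons (.rel (nat_lit 8598343680)) .nil)) .nil)) (.node (.node .leaf (nat_lit 22458366861565164) (.br (nat_lit 1) (.cons (.br (nat_lit 4) (.cons (.rel (nat_lit 1090666497)) .nil)) .nil)) .leaf) (nat_lit 22458366861567213) (.br (nat_lit 0) (.cons (.br (nat_lit 3) (.cons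 (.rel (nat_lit 272629830)) .nil)) .nil)) (.node .leaf (nat_lit 22458375443114146) (.br (nat_lit 1) (.cons (.br (nat_lit 4) (.cons (.rel (nat_lit 1090519080)) .nil)) .nil)) .leaf))) (nat_lit 22458375443115244) (.br (nat_lit 0) (.cons (.br (nat_lit 4) (.cons (.rel (nat_lit 1077968901)) .nil)) .nil)) (.node (.node (.node (.node .leaf (nat_lit 22458375445367719) (.br (nat_lit 3) (.cons (.br (nat_lit 5) (.cons (.rel (nat_lit 4563730440)) .nil)) .nil)) .leaf) (nat_lit 22458375445368045) (.br (nat_lit 6) (.cons (.br (nat_lit 2) (.cons (.rel (nat_lit 17249140800)) (.cons (.rel (nat_lit 17247502344)) (.cons (.rel (nat_lit 34426852353)) .nil)))) .nil)) .leaf) (nat_lit 22458900047940989) (.br (nat_lit 0) (.cons (.br (nat_lit 1) (.cons (.rel (nat_lit 20988228)) .nil)) .nil)) (.node .leaf (nat_lit 22458900048540324) (.br (nat_lit 2) (.cons (.br (nat_lit 4) (.cons (.rel (nat_lit 1140858882)) (.cons (.rel (nat_lit 1140858882)) (.cons (.rel (nat_lit 1140851856)) (.cons (.rel (nat_lit 2214592896)) .nil)))))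 .nil)) .leaf)) (nat_lit 22459885182788215) (.br (nat_lit 0) (.cons (.br (nat_lit 6) (.cons (.rel (nat_lit 17184587808)) .nil)) .nil)) (.node (.node .leaf (nat_lit 22460773299604867) (.br (nat_lit 0) (.cons (.br (nat_lit 6) (.cons (.rel (nat_lit 34368389136)) (.cons (.rel (nat_lit 34363938816)) .nil))) (.cons (.br (nat_lit 6) (.cons (.br (nat_lit 4) (.cons (.rel (nat_lit 1078069248)) (.cons (.rel (nat_lit 1077952593)) (.cons (.rel (nat_lit 18253750272)) .nil)))) (.cons (.rel (nat_lit 17188267008)) .nil))) .nil))) .leaf) (nat_lit 22460816226052397) (.br (nat_lit 1) (.cons (.br (nat_lit 2) (.cons (.rel (nat_lit 84935184)) (.cons (.rel (nat_lit 150996033)) .nil))) .nil)) (.node .leaf (nat_lit 22460816226052721) (.br (nat_lit 1) (.cons (.br (nat_lit 2) (.cons (.rel (nat_lit 86008896)) .nil)) .nil)) .leaf)))))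

/-- refutations 45 -/
def e45 : EX := (.node (.node (.node (.node .leaf (nat_lit 23048183394125277) (.br (nat_lit 1) (.cons (.br (nat_lit 4) (.cons (.rel (nat_lit 1090519080)) .nil)) .nil)) .leaf) (nat_lit 23051180830925425) (.br (nat_lit 1) (.cons (.br (nat_lit 2) (.cons (.rel (nat_lit 168099840)) .nil)) .nil)) .leaf) (nat_lit 23051618716502177) (.br (nat_lit 3) (.cons (.br (nat_lit 4) (.cons (.rel (nat_lit 1342472196)) .nil)) .nil)) (.node .leaf (nat_lit 23051618918820741) (.br (nat_lit 1) (.cons (.br (nat_lit 3) (.cons (.rel (nat_lit 285233184)) .nil)) .nil)) .leaf)) (nat_lit 23053804681415957) (.br (nat_lit 2) (.cons (.br (nat_lit 4) (.cons (.rel (nat_lit 2281705473)) .nil)) .nil)) (.node (.node .leaf (nat_lit 23053804683873557) (.br (nat_lit 0) (.cons (.br (nat_lit 4) (.cons (.rel (nat_lit 1077940320)) .nil)) .nil)) .leaf) (nat_lit 23056944677583659) (.br (nat_lit 0) (.cons (.br (nat_lit 3) (.cons (.rel (nat_lit 272633865)) .nil)) .nil)) (.node .leaf (nat_lit 23058868822386202) (.br (nat_lit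 0) (.cons (.br (nat_lit 1) (.cons (.rel (nat_lit 37830660)) .nil)) .nil)) .leaf)))

/-- refutations 46 -/
def e46 : EX := (.node (.node (.node (.node (.node (.node .leaf (nat_lit 24189313904758272) (.br (nat_lit 0) (.cons (.br (nat_lit 1) (.cons (.rel (nat_lit 25165890)) .nil)) .nil)) .leaf) (nat_lit 24189313905116572) (.br (nat_lit 0) (.cons (.br (nat_lit 1) (.cons (.rel (nat_lit 21042432)) .nil)) .nil)) .leaf) (nat_lit 24189313905116672) (.br (nat_lit 0) (.cons (.br (nat_lit 1) (.cons (.rel (nat_lit 21367296)) .nil)) .nil)) (.node .leaf (nat_lit 24190564359807138) (.br (nat_lit 1) (.cons (.br (nat_lit 2) (.cons (.rel (nat_lit 100667472)) .nil)) .nil)) .leaf)) (nat_lit 24191669689408164) (.br (nat_lit 3) (.cons (.br (nat_lit 5) (.cons (.rel (nat_lit 4563669024)) .nil)) .nil)) (.node (.node .leaf (nat_lit 24195106844452192) (.br (nat_lit 0) (.cons (.br (nat_lit 5) (.cons (.rel (nat_lit 4299202560)) .nil)) .nil)) .leaf) (nat_lit 24195106846857892) (.br (nat_lit 0) (.cons (.br (nat_lit 5) (.cons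 (.rel (nat_lit 4299162693)) .nil)) .nil)) (.node .leaf (nat_lit 24195110956457342) (.br (nat_lit 1) (.cons (.br (nat_lit 6) (.cons (.rel (nat_lit 17197175808)) .nil)) .nil)) .leaf))) (nat_lit 24195110957275812) (.br (nat_lit 6) (.cons (.br (nat_lit 4) (.cons (.rel (nat_lit 18253612128)) (.cons (.rel (nat_lit 18253611093)) .nil))) .nil)) (.node (.node (.node .leaf (nat_lit 24195111561255588) (.br (nat_lit 1) (.cons (.br (nat_lit 3) (.cons (.rel (nat_lit 285233184)) .nil)) .nil)) .leaf) (nat_lit 24195111850662564) (.br (nat_lit 6) (.cons (.br (nat_lit 5) (.cons (.rel (nat_lit 42949673988)) (.cons (.rel (nat_lit 38655246600)) (.cons (.rel (nat_lit 21474844752)) .nil)))) .nil)) (.node .leaf (nat_lit 24196214436621825) (.br (nat_lit 0) (.cons (.br (nat_lit 1) (.cons (.rel (nat_lit 25165890)) .nil)) .nil)) .leaf)) (nat_lit 24197296775532032) (.br (nat_lit 0) (.cons (.br (nat_lit 2) (.cons (.rel (nat_lit 72683520)) .nil)) .nil)) (.node (.node .leaf (nat_lit 24197296775981317) (.br (nat_lit 0) (.cons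 (.br (nat_lit 2) (.cons (.rel (nat_lit 138444864)) .nil)) .nil)) .leaf) (nat_lit 24200526881573051) (.br (nat_lit 0) (.cons (.br (nat_lit 1) (.cons (.rel (nat_lit 20971920)) .nil)) .nil)) (.node .leaf (nat_lit 24200526881889563) (.br (nat_lit 4) (.cons (.br (nat_lit 6) (.cons (.rel (nat_lit 18253617153)) .nil)) .nil)) .leaf)))) (nat_lit 24201119295196672) (.br (nat_lit 2) (.cons (.br (nat_lit 4) (.cons (.rel (nat_lit 1140851856)) .nil)) .nil)) (.node (.node (.node (.node .leaf (nat_lit 24201119295349412) (.br (nat_lit 1) (.cons (.br (nat_lit 5) (.cons (.rel (nat_lit 4311814146)) .nil)) .nil)) .leaf) (nat_lit 24201119295398164) (.br (nat_lit 1) (.cons (.br (nat_lit 4) (.cons (.rel (nat_lit 1090519080)) .nil)) .nil)) (.node .leaf (nat_lit 24201119295398564) (.br (nat_lit 1) (.cons (.br (nat_lit 4) (.cons (.rel (nat_lit 1090551876)) .nil)) .nil)) .leaf)) (nat_lit 24201119295400197) (.br (nat_lit 0) (.cons (.br (nat_lit 1) (.cons (.rel (nat_lit 25165890)) .nil)) .nil)) (.node (.node .leaf (nat_lit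 24201119295400562) (.br (nat_lit 1) (.cons (.br (nat_lit 3) (.cons (.rel (nat_lit 285212805)) .nil)) .nil)) .leaf) (nat_lit 24201119296424197) (.br (nat_lit 2) (.cons (.br (nat_lit 4) (.cons (.rel (nat_lit 2281705473)) .nil)) .nil)) (.node .leaf (nat_lit 24201119296424562) (.br (nat_lit 0) (.cons (.br (nat_lit 2) (.cons (.rel (nat_lit 138485760)) .nil)) .nil)) .leaf))) (nat_lit 24201119296425472) (.br (nat_lit 5) (.cons (.br (nat_lit 4) (.cons (.rel (nat_lit 9663676482)) (.cons (.rel (nat_lit 9663676482)) .nil))) .nil)) (.node (.node (.node .leaf (nat_lit 24201119296937312) (.br (nat_lit 1) (.cons (.br (nat_lit 3) (.cons (.rel (nat_lit 285213840)) (.cons (.rel (nat_lit 285220866)) .nil))) .nil)) .leaf) (nat_lit 24201119297652997) (.br (nat_lit 4) (.cons (.br (nat_lit 6) (.cons (.rel (nat_lit 18253617153)) .nil)) .nil)) (.node .leaf (nat_lit 24201119297755412) (.br (nat_lit 1) (.cons (.br (nat_lit 4) (.cons (.rel (nat_lit 2181038100)) .nil)) .nil)) .leaf)) (nat_lit 24201122400210432) (.br (nat_lit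 2) (.cons (.br (nat_lit 4) (.cons (.rel (nat_lit 1140858882)) .nil)) .nil)) (.node (.node .leaf (nat_lit 24201123992817152) (.br (nat_lit 2) (.cons (.br (nat_lit 4) (.cons (.rel (nat_lit 1140922368)) .nil)) .nil)) .leaf) (nat_lit 24201123994045042) (.br (nat_lit 2) (.cons (.br (nat_lit 4) (.cons (.rel (nat_lit 1140868164)) .nil)) .nil)) (.node .leaf (nat_lit 24202355568757541) (.br (nat_lit 2) (.cons (.br (nat_lit 1) (.cons (.rel (nat_lit 84935184)) (.cons (.rel (nat_lit 85197828)) (.cons (.rel (nat_lit 84541440)) .nil)))) .nil)) .leaf)))))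

/-- refutations 47 -/
def e47 : EX := (.node (.node (.node (.node .leaf (nat_lit 24313996272007348) (.br (nat_lit 0) (.cons (.br (nat_lit 1) (.cons (.rel (nat_lit 21504000)) .nil)) .nil)) .leaf) (nat_lit 24313996272008595) (.br (nat_lit 0) (.cons (.br (nat_lit 3) (.cons (.rel (nat_lit 545263680)) .nil)) .nil)) (.node .leaf (nat_lit 24317773734168838) (.br (nat_lit 2) (.cons (.br (nat_lit 3) (.cons (.rel (nat_lit 335544402)) .nil)) .nil)) .leaf)) (nat_lit 24318251095073444) (.br (nat_lit 3) (.cons (.br (nat_lit 4) (.cons (.rel (nat_lit 1342448640)) .nil)) .nil)) (.node (.node .leaf (nat_lit 24318256212123680) (.br (nat_lit 3) (.cons (.br (nat_lit 5) (.cons (.rel (nat_lit 8858386560)) .nil)) .nil)) .leaf) (nat_lit 24318256212124324) (.br (nat_lit 1) (.cons (.br (nat_lit 2) (.cons (.rel (nat_lit 150996033)) .nil)) .nil)) .leaf)) (nat_lit 24318256212671140) (.br (nat_lit 2) (.cons (.br (nat_lit 5) (.cons (.rel (nat_lit 4362077265)) .nil)) .nil)) (.node (.node (.node .leaf (nat_lit 24318257159966730)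 (.br (nat_lit 0) (.cons (.br (nat_lit 1) (.cons (.rel (nat_lit 37814352)) .nil)) .nil)) .leaf) (nat_lit 24324264554142372) (.br (nat_lit 1) (.cons (.br (nat_lit 5) (.cons (.rel (nat_lit 4311765012)) .nil)) .nil)) (.node .leaf (nat_lit 24324264554143072) (.br (nat_lit 1) (.cons (.br (nat_lit 6) (.cons (.rel (nat_lit 17213424708)) .nil)) .nil)) .leaf)) (nat_lit 24324702639267900) (.br (nat_lit 1) (.cons (.br (nat_lit 3) (.cons (.rel (nat_lit 285220866)) .nil)) .nil)) (.node (.node .leaf (nat_lit 24324705072512403) (.br (nat_lit 0) (.cons (.br (nat_lit 3) (.cons (.rel (nat_lit 272793600)) .nil)) .nil)) .leaf) (nat_lit 24325543829446133) (.br (nat_lit 2) (.cons (.br (nat_lit 3) (.cons (.rel (nat_lit 335546436)) .nil)) .nil)) .leaf)))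

/-- refutations 48 -/
def e48 : EX := (.node (.node .leaf (nat_lit 24400671850055711) (.br (nat_lit 0) (.cons (.br (nat_lit 2) (.cons (.rel (nat_lit 71304516)) .nil)) .nil)) .leaf) (nat_lit 24401865419246868) (.br (nat_lit 0) (.cons (.br (nat_lit 1) (.cons (.rel (nat_lit 25165890)) .nil)) .nil)) .leaf)

/-- refutations 49 -/
def e49 : EX := (.node (.node (.node (.node (.node (.node .leaf (nat_lit 24734667739818289) (.br (nat_lit 0) (.cons (.br (nat_lit 1) (.cons (.rel (nat_lit 23085072)) .nil)) .nil)) .leaf) (nat_lit 24734922932515622) (.br (nat_lit 1) (.cons (.br (nat_lit 6) (.cons (.rel (nat_lit 17213424708)) .nil)) .nil)) .leaf) (nat_lit 24734928210547443) (.br (nat_lit 0) (.cons (.br (nat_lit 3) (.cons (.rel (nat_lit 272634900)) .nil)) .nil)) (.node .leaf (nat_lit 24734928211621919) (.br (nat_lit 3) (.cons (.br (nat_lit 5) (.cons (.br (nat_lit 1) (.cons (.rel (nat_lit 285213840)) (.cons (.br (nat_lit 6) (.cons (.rel (nat_lit 34896609297)) (.cons (.rel (nat_lit 17198743572)) .nil))) .nil)))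 .nil)) .nil)) .leaf)) (nat_lit 24734928211622193) (.br (nat_lit 1) (.cons (.br (nat_lit 3) (.cons (.br (nat_lit 4) (.cons (.rel (nat_lit 1090654224)) (.cons (.br (nat_lit 6) (.cons (.rel (nat_lit 18253676580)) (.cons (.rel (nat_lit 17198743572)) .nil))) .nil))) .nil)) .nil)) (.node (.node (.node .leaf (nat_lit 24734928211623445) (.br (nat_lit 3) (.cons (.br (nat_lit 6) (.cons (.rel (nat_lit 34896609297)) .nil)) .nil)) .leaf) (nat_lit 24734928212543519) (.br (nat_lit 1) (.cons (.br (nat_lit 5) (.cons (.br (nat_lit 3) (.cons (.br (nat_lit 6) (.cons (.rel (nat_lit 34896609297)) (.cons (.rel (nat_lit 17198743572)) .nil))) (.cons (.rel (nat_lit 8876261376)) .nil))) .nil)) .nil)) .leaf) (nat_lit 24734928212543620) (.br (nat_lit 1) (.cons (.br (nat_lit 5) (.cons (.rel (nat_lit 4311760977)) .nil)) .nil)) (.node .leaf (nat_lit 24734928212543793) (.br (nat_lit 1) (.cons (.br (nat_lit 3) (.cons (.br (nat_lit 4) (.cons (.br (nat_lit 5) (.cons (.br (nat_lit 2) (.cons (.rel (nat_lit 84935184)) (.cons (.rel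 (nat_lit 403767312)) (.cons (.br (nat_lit 6) (.cons (.rel (nat_lit 17196646728)) (.cons (.rel (nat_lit 34426847328)) (.cons (.rel (nat_lit 17198743572)) .nil)))) .nil)))) .nil)) .nil)) .nil)) .nil)) .leaf))) (nat_lit 24734928212544243) (.br (nat_lit 3) (.cons (.br (nat_lit 4) (.cons (.br (nat_lit 0) (.cons (.rel (nat_lit 276825600)) (.cons (.rel (nat_lit 1077940320)) .nil))) .nil)) .nil)) (.node (.node (.node (.node .leaf (nat_lit 24735790535058033) (.br (nat_lit 1) (.cons (.br (nat_lit 3) (.cons (.rel (nat_lit 285278292)) .nil)) .nil)) .leaf) (nat_lit 24735793785643633) (.br (nat_lit 0) (.cons (.br (nat_lit 5) (.cons (.rel (nat_lit 4299163728)) .nil)) .nil)) .leaf) (nat_lit 24735793785644519) (.br (nat_lit 3) (.cons (.br (nat_lit 5) (.cons (.rel (nat_lit 4564583424)) .nil)) .nil)) (.node .leaf (nat_lit 24735793786866549) (.br (nat_lit 0) (.cons (.br (nat_lit 1) (.cons (.rel (nat_lit 22020612)) .nil)) .nil)) .leaf)) (nat_lit 24736203243220449) (.br (nat_lit 3) (.cons (.br (nat_lit 1) (.cons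 (.rel (nat_lit 553664769)) (.cons (.rel (nat_lit 285216840)) .nil))) .nil)) (.node (.node .leaf (nat_lit 24736208200887777) (.br (nat_lit 1) (.cons (.br (nat_lit 4) (.cons (.rel (nat_lit 1107820800)) (.cons (.rel (nat_lit 2181038100)) .nil))) .nil)) .leaf) (nat_lit 24736826646808831) (.br (nat_lit 1) (.cons (.br (nat_lit 4) (.cons (.rel (nat_lit 1108348932)) .nil)) .nil)) (.node .leaf (nat_lit 24736826647124220) (.br (nat_lit 6) (.cons (.br (nat_lit 4) (.cons (.rel (nat_lit 18253612128)) (.cons (.rel (nat_lit 18253615128)) .nil))) .nil)) .leaf)))) (nat_lit 24736826647125475) (.br (nat_lit 1) (.cons (.br (nat_lit 4) (.cons (.rel (nat_lit 2181038100)) .nil)) .nil)) (.node (.node (.node (.node (.node .leaf (nat_lit 24737283003861617) (.br (nat_lit 2) (.cons (.br (nat_lit 3) (.cons (.rel (nat_lit 335561745)) .nil)) .nil)) .leaf) (nat_lit 24737283003861747) (.br (nat_lit 0) (.cons (.br (nat_lit 5) (.cons (.rel (nat_lit 4299178002)) .nil)) .nil)) .leaf) (nat_lit 24740030690113711) (.br (nat_lit 3)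 (.cons (.br (nat_lit 0) (.cons (.br (nat_lit 6) (.cons (.rel (nat_lit 17188267008)) (.cons (.rel (nat_lit 17453548560)) .nil))) (.cons (.rel (nat_lit 272648208)) .nil))) .nil)) (.node .leaf (nat_lit 24740030690114161) (.br (nat_lit 1) (.cons (.br (nat_lit 3) (.cons (.br (nat_lit 0) (.cons (.br (nat_lit 6) (.cons (.rel (nat_lit 17188267008)) (.cons (.rel (nat_lit 17448306708)) .nil))) (.cons (.rel (nat_lit 272648208)) .nil))) .nil)) .nil)) .leaf)) (nat_lit 24740030690114438) (.br (nat_lit 0) (.cons (.br (nat_lit 3) (.cons (.br (nat_lit 6) (.cons (.rel (nat_lit 17453548560)) (.cons (.rel (nat_lit 17188267008)) .nil))) .nil)) .nil)) (.node (.node (.node .leaf (nat_lit 24740030691188911) (.br (nat_lit 0) (.cons (.br (nat_lit 2) (.cons (.rel (nat_lit 75499521)) .nil)) .nil)) .leaf) (nat_lit 24740030691189012) (.br (nat_lit 3) (.cons (.br (nat_lit 4) (.cons (.br (nat_lit 6) (.cons (.br (nat_lit 0) (.cons (.rel (nat_lit 17188267008)) (.cons (.rel (nat_lit 1082147328)) .nil))) .nil)) .nil)) .nil))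 .leaf) (nat_lit 24740030691189361) (.br (nat_lit 6) (.cons (.br (nat_lit 0) (.cons (.rel (nat_lit 17188267008)) (.cons (.br (nat_lit 3) (.cons (.rel (nat_lit 272647173)) (.cons (.rel (nat_lit 17448329232)) (.cons (.rel (nat_lit 272648208)) .nil)))) .nil))) .nil)) (.node .leaf (nat_lit 24740030691189987) (.br (nat_lit 0) (.cons (.br (nat_lit 2) (.cons (.rel (nat_lit 75499521)) .nil)) .nil)) .leaf))) (nat_lit 24740030691190163) (.br (nat_lit 1) (.cons (.br (nat_lit 3) (.cons (.br (nat_lit 6) (.cons (.rel (nat_lit 17448567048)) .nil)) .nil)) .nil)) (.node (.node (.node (.node .leaf (nat_lit 24740030692411452) (.br (nat_lit 0) (.cons (.br (nat_lit 2) (.cons (.rel (nat_lit 138485760)) .nil)) .nil)) .leaf) (nat_lit 24740030692412017) (.br (nat_lit 0) (.cons (.br (nat_lit 3) (.cons (.rel (nat_lit 272647173)) .nil)) .nil)) .leaf) (nat_lit 24740031537363569) (.br (nat_lit 1) (.cons (.br (nat_lit 2) (.cons (.br (nat_lit 4) (.cons (.br (nat_lit 0) (.cons (.br (nat_lit 5) (.cons (.rel (nat_lit 4311877632))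 (.cons (.rel (nat_lit 4299202560)) .nil))) (.cons (.rel (nat_lit 75499521)) .nil))) .nil)) .nil)) .nil)) (.node .leaf (nat_lit 24740031538438420) (.br (nat_lit 0) (.cons (.br (nat_lit 3) (.cons (.rel (nat_lit 272634900)) (.cons (.rel (nat_lit 272648208)) .nil))) .nil)) .leaf)) (nat_lit 24740031538438769) (.br (nat_lit 1) (.cons (.br (nat_lit 6) (.cons (.rel (nat_lit 17196714240)) .nil)) .nil)) (.node (.node .leaf (nat_lit 24740466679620960) (.br (nat_lit 3) (.cons (.br (nat_lit 2) (.cons (.rel (nat_lit 335549472)) (.cons (.rel (nat_lit 335560710)) .nil))) .nil)) .leaf) (nat_lit 24740468778154660) (.br (nat_lit 3) (.cons (.br (nat_lit 4) (.cons (.rel (nat_lit 1342448640)) (.cons (.rel (nat_lit 1343225862)) .nil))) .nil)) (.node .leaf (nat_lit 24740468778155360) (.br (nat_lit 3) (.cons (.br (nat_lit 5) (.cons (.rel (nat_lit 8858372097)) .nil)) .nil)) .leaf)))))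

/-- refutations 50 -/
def e50 : EX := (.node (.node (.node (.node (.node .leaf (nat_lit 24742178173817707) (.br (nat_lit 0) (.cons (.br (nat_lit 1) (.cons (.rel (nat_lit 23085072)) .nil)) .nil)) .leaf) (nat_lit 24742178176059424) (.br (nat_lit 1) (.cons (.br (nat_lit 4) (.cons (.rel (nat_lit 1090519080)) .nil)) .nil)) .leaf) (nat_lit 24745609219337697) (.br (nat_lit 1) (.cons (.br (nat_lit 2) (.cons (.rel (nat_lit 168099840)) .nil)) .nil)) (.node .leaf (nat_lit 24746476802536800) (.br (nat_lit 3) (.cons (.br (nat_lit 4) (.cons (.rel (nat_lit 1610678277)) .nil)) .nil)) .leaf)) (nat_lit 24746476802730789) (.br (nat_lit 1) (.cons (.br (nat_lit 4) (.cons (.rel (nat_lit 1107820800)) .nil)) .nil)) (.node (.node (.node .leaf (nat_lit 24746476802731489) (.br (nat_lit 4) (.cons (.br (nat_lit 1) (.cons (.rel (nat_lit 2181038100)) (.cons (.rel (nat_lit 1090519080)) .nil))) .nil)) .leaf) (nat_lit 24746476802738981) (.br (nat_lit 2) (.cons (.br (nat_lit 3) (.cons (.rel (nat_lit 335560710)) .nil)) .nil))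 .leaf) (nat_lit 24746476803755360) (.br (nat_lit 1) (.cons (.br (nat_lit 4) (.cons (.rel (nat_lit 1107317316)) .nil)) .nil)) (.node .leaf (nat_lit 24746476803755489) (.br (nat_lit 3) (.cons (.br (nat_lit 1) (.cons (.rel (nat_lit 285220866)) (.cons (.rel (nat_lit 285284352)) .nil))) .nil)) .leaf))) (nat_lit 24746476803760428) (.br (nat_lit 5) (.cons (.br (nat_lit 6) (.cons (.rel (nat_lit 21474861060)) .nil)) .nil)) (.node (.node (.node (.node .leaf (nat_lit 24746476804061860) (.br (nat_lit 3) (.cons (.br (nat_lit 1) (.cons (.rel (nat_lit 286785552)) (.cons (.rel (nat_lit 285216840)) .nil))) .nil)) .leaf) (nat_lit 24746476804062560) (.br (nat_lit 1) (.cons (.br (nat_lit 4) (.cons (.rel (nat_lit 1090528320)) .nil)) .nil)) .leaf) (nat_lit 24746476804983089) (.br (nat_lit 3) (.cons (.br (nat_lit 4) (.cons (.rel (nat_lit 1342472196)) (.cons (.rel (nat_lit 1342308864)) (.cons (.rel (nat_lit 1342455888)) .nil)))) .nil)) (.node .leaf (nat_lit 24746476804983589) (.br (nat_lit 1) (.cons (.br (nat_lit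 3) (.cons (.rel (nat_lit 285216840)) .nil)) .nil)) .leaf)) (nat_lit 24746476804992481) (.br (nat_lit 1) (.cons (.br (nat_lit 4) (.cons (.rel (nat_lit 1090519080)) (.cons (.rel (nat_lit 1090535568)) (.cons (.rel (nat_lit 1090520070)) (.cons (.rel (nat_lit 1091567952)) .nil))))) .nil)) (.node (.node (.node .leaf (nat_lit 24746476805328353) (.br (nat_lit 3) (.cons (.br (nat_lit 4) (.cons (.rel (nat_lit 2415935553)) (.cons (.rel (nat_lit 1610875200)) .nil))) .nil)) .leaf) (nat_lit 24746476805341460) (.br (nat_lit 0) (.cons (.br (nat_lit 2) (.cons (.rel (nat_lit 71368968)) .nil)) .nil)) .leaf) (nat_lit 24746481760398817) (.br (nat_lit 1) (.cons (.br (nat_lit 4) (.cons (.rel (nat_lit 1107820800)) .nil)) .nil)) (.node .leaf (nat_lit 24746688961584504) (.br (nat_lit 0) (.cons (.br (nat_lit 2) (.cons (.rel (nat_lit 73400325)) .nil)) .nil)) .leaf))))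

/-- refutations 52 -/
def e52 : EX := (.node (.node (.node (.node (.node (.node .leaf (nat_lit 26511739001032735) (.br (nat_lit 1) (.cons (.br (nat_lit 2) (.cons (.rel (nat_lit 168099840)) .nil)) .nil)) .leaf) (nat_lit 26511739001034261) (.br (nat_lit 0) (.cons (.br (nat_lit 6) (.cons (.rel (nat_lit 17189306640)) .nil)) .nil)) (.node .leaf (nat_lit 26511739002107935) (.br (nat_lit 5) (.cons (.br (nat_lit 1) (.cons (.rel (nat_lit 8623555584)) (.cons (.br (nat_lit 6) (.cons (.rel (nat_lit 21474903168)) (.cons (.rel (nat_lit 25771114512)) (.cons (.rel (nat_lit 17198743572)) .nil)))) .nil))) .nil)) .leaf)) (nat_lit 26511739002109461) (.br (nat_lit 1) (.cons (.br (nat_lit 6) (.cons (.rel (nat_lit 17213427744)) .nil)) .nil)) (.node (.node .leaf (nat_lit 26511739003029506) (.br (nat_lit 2) (.cons (.br (nat_lit 3) (.cons (.rel (nat_lit 335675520)) .nil)) .nil)) .leaf) (nat_lit 26511739003029535) (.br (nat_lit 3) (.cons (.br (nat_lit 4) (.cons (.br (nat_lit 5) (.cons (.br (nat_lit 6) (.cons (.rel (nat_lit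 34896609297)) (.cons (.br (nat_lit 1) (.cons (.rel (nat_lit 2164523520)) (.cons (.rel (nat_lit 285216840)) (.cons (.rel (nat_lit 17198743572)) .nil)))) .nil))) (.cons (.rel (nat_lit 4563403344)) .nil))) .nil)) .nil)) (.node .leaf (nat_lit 26511739003029809) (.br (nat_lit 3) (.cons (.br (nat_lit 5) (.cons (.br (nat_lit 6) (.cons (.br (nat_lit 0) (.cons (.rel (nat_lit 17184587808)) (.cons (.rel (nat_lit 17184587808)) (.cons (.rel (nat_lit 34363938816)) .nil)))) (.cons (.rel (nat_lit 34896609297)) .nil))) .nil)) .nil)) .leaf))) (nat_lit 26511739003030161) (.br (nat_lit 0) (.cons (.br (nat_lit 4) (.cons (.rel (nat_lit 1077940320)) .nil)) .nil)) (.node (.node (.node .leaf (nat_lit 26512602494980753) (.br (nat_lit 0) (.cons (.br (nat_lit 1) (.cons (.rel (nat_lit 23085072)) .nil)) .nil)) .leaf) (nat_lit 26512602496055953) (.br (nat_lit 0) (.cons (.br (nat_lit 1) (.cons (.rel (nat_lit 23085072)) .nil)) .nil)) (.node .leaf (nat_lit 26512602496056051) (.br (nat_lit 0) (.cons (.br (nat_lit 5) (.cons (.rel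 (nat_lit 4299180036)) .nil)) .nil)) .leaf)) (nat_lit 26512602496977028) (.br (nat_lit 0) (.cons (.br (nat_lit 3) (.cons (.rel (nat_lit 277876752)) (.cons (.rel (nat_lit 272634900)) .nil))) .nil)) (.node (.node .leaf (nat_lit 26513585708165381) (.br (nat_lit 1) (.cons (.br (nat_lit 3) (.cons (.rel (nat_lit 285284352)) .nil)) .nil)) .leaf) (nat_lit 26513589055998214) (.br (nat_lit 5) (.cons (.br (nat_lit 4) (.cons (.rel (nat_lit 10737422592)) (.cons (.br (nat_lit 3) (.cons (.rel (nat_lit 1342509057)) (.cons (.rel (nat_lit 1342448640)) .nil))) .nil))) .nil)) .leaf))) (nat_lit 26513881617091186) (.br (nat_lit 0) (.cons (.br (nat_lit 4) (.cons (.rel (nat_lit 2153775168)) .nil)) .nil)) (.node (.node (.node (.node .leaf (nat_lit 26514087888767281) (.br (nat_lit 2) (.cons (.br (nat_lit 6) (.cons (.rel (nat_lit 17314217985)) .nil)) .nil)) .leaf) (nat_lit 26514087888768387) (.br (nat_lit 2) (.cons (.br (nat_lit 6) (.cons (.rel (nat_lit 17314087056)) (.cons (.rel (nat_lit 17315135748)) .nil))) (.cons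 (.br (nat_lit 6) (.cons (.rel (nat_lit 17314087056)) (.cons (.rel (nat_lit 34494218244)) .nil))) .nil))) (.node .leaf (nat_lit 26514089872673705) (.br (nat_lit 1) (.cons (.br (nat_lit 3) (.cons (.br (nat_lit 6) (.cons (.rel (nat_lit 17448306708)) .nil)) .nil)) .nil)) .leaf)) (nat_lit 26514090636036133) (.br (nat_lit 0) (.cons (.br (nat_lit 1) (.cons (.rel (nat_lit 25169925)) .nil)) .nil)) (.node (.node .leaf (nat_lit 26514090636036851) (.br (nat_lit 0) (.cons (.br (nat_lit 5) (.cons (.rel (nat_lit 4299309120)) .nil)) .nil)) .leaf) (nat_lit 26514090925443827) (.br (nat_lit 0) (.cons (.br (nat_lit 1) (.cons (.rel (nat_lit 37830660)) .nil)) .nil)) .leaf)) (nat_lit 26514091047077925) (.br (nat_lit 3) (.cons (.br (nat_lit 4) (.cons (.rel (nat_lit 1610679312)) .nil)) .nil)) (.node (.node (.node .leaf (nat_lit 26514093792350963) (.br (nat_lit 0) (.cons (.br (nat_lit 2) (.cons (.rel (nat_lit 71319825)) .nil)) .nil)) .leaf) (nat_lit 26514093793425713) (.br (nat_lit 1) (.cons (.br (nat_lit 5) (.cons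 (.rel (nat_lit 4311810120)) (.cons (.rel (nat_lit 8607252480)) .nil))) .nil)) (.node .leaf (nat_lit 26514093794347313) (.br (nat_lit 1) (.cons (.br (nat_lit 2) (.cons (.br (nat_lit 5) (.cons (.rel (nat_lit 4362077265)) (.cons (.rel (nat_lit 4311826464)) (.cons (.rel (nat_lit 4311777285)) .nil)))) .nil)) .nil)) .leaf)) (nat_lit 26514093794347763) (.br (nat_lit 0) (.cons (.br (nat_lit 5) (.cons (.rel (nat_lit 4299178002)) .nil)) .nil)) (.node (.node .leaf (nat_lit 26516841480599727) (.br (nat_lit 2) (.cons (.br (nat_lit 0) (.cons (.rel (nat_lit 73401360)) (.cons (.rel (nat_lit 75499521)) .nil))) .nil)) .leaf) (nat_lit 26516841480600177) (.br (nat_lit 1) (.cons (.br (nat_lit 3) (.cons (.br (nat_lit 5) (.cons (.rel (nat_lit 4596962304)) (.cons (.rel (nat_lit 4596962304)) (.cons (.rel (nat_lit 4311765012)) .nil)))) (.cons (.br (nat_lit 5) (.cons (.br (nat_lit 0) (.cons (.rel (nat_lit 4299166728)) (.cons (.rel (nat_lit 272648208)) (.cons (.rel (nat_lit 37752900)) (.cons (.rel (nat_lit 4299163728))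 (.cons (.rel (nat_lit 25170960)) .nil)))))) (.cons (.rel (nat_lit 8858372097)) (.cons (.rel (nat_lit 4311765012)) .nil)))) .nil))) (.cons (.br (nat_lit 3) (.cons (.rel (nat_lit 285344769)) (.cons (.rel (nat_lit 303040512)) .nil))) .nil))) .leaf)))) (nat_lit 26516841480600454) (.br (nat_lit 1) (.cons (.br (nat_lit 3) (.cons (.br (nat_lit 4) (.cons (.br (nat_lit 5) (.cons (.br (nat_lit 0) (.cons (.rel (nat_lit 4299166728)) (.cons (.rel (nat_lit 4299163728)) .nil))) (.cons (.rel (nat_lit 8858372097)) .nil))) .nil)) .nil)) .nil)) (.node (.node (.node (.node (.node .leaf (nat_lit 26516841480600803) (.br (nat_lit 0) (.cons (.br (nat_lit 6) (.cons (.rel (nat_lit 17188267008)) .nil)) .nil)) .leaf) (nat_lit 26516841481674927) (.br (nat_lit 2) (.cons (.br (nat_lit 5) (.cons (.rel (nat_lit 4429449216)) (.cons (.rel (nat_lit 4429449216)) .nil))) .nil)) (.node .leaf (nat_lit 26516841481675377) (.br (nat_lit 6) (.cons (.br (nat_lit 0) (.cons (.rel (nat_lit 17184067968)) (.cons (.rel (nat_lit 17185378305))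 .nil))) .nil)) .leaf)) (nat_lit 26516841481676003) (.br (nat_lit 1) (.cons (.br (nat_lit 3) (.cons (.br (nat_lit 6) (.cons (.rel (nat_lit 17448306708)) (.cons (.rel (nat_lit 17465082384)) .nil))) .nil)) .nil)) (.node (.node .leaf (nat_lit 26516842327848962) (.br (nat_lit 2) (.cons (.br (nat_lit 6) (.cons (.rel (nat_lit 17314217985)) .nil)) .nil)) .leaf) (nat_lit 26516842327849585) (.br (nat_lit 3) (.cons (.br (nat_lit 5) (.cons (.rel (nat_lit 4564583424)) (.cons (.rel (nat_lit 4563669024)) (.cons (.rel (nat_lit 8858372097)) .nil)))) .nil)) .leaf)) (nat_lit 26517274661550391) (.br (nat_lit 0) (.cons (.br (nat_lit 3) (.cons (.rel (nat_lit 272638080)) .nil)) .nil)) (.node (.node (.node .leaf (nat_lit 26517275402374525) (.br (nat_lit 0) (.cons (.br (nat_lit 5) (.cons (.rel (nat_lit 4299165729)) .nil)) .nil)) .leaf) (nat_lit 26517275403579529) (.br (nat_lit 0) (.cons (.br (nat_lit 3) (.cons (.rel (nat_lit 272630865)) .nil)) .nil)) (.node .leaf (nat_lit 26517275404616305) (.br (nat_lit 1) (.cons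 (.br (nat_lit 2) (.cons (.rel (nat_lit 151061520)) .nil)) .nil)) .leaf)) (nat_lit 26517275404618354) (.br (nat_lit 3) (.cons (.br (nat_lit 5) (.cons (.rel (nat_lit 8858370072)) (.cons (.rel (nat_lit 4563419652)) .nil))) (.cons (.br (nat_lit 0) (.cons (.rel (nat_lit 272793600)) (.cons (.rel (nat_lit 272696352)) (.cons (.rel (nat_lit 272629830)) .nil)))) .nil))) (.node (.node .leaf (nat_lit 26517279365993854) (.br (nat_lit 4) (.cons (.br (nat_lit 6) (.cons (.rel (nat_lit 18253612128)) .nil)) .nil)) .leaf) (nat_lit 26517279367559479) (.br (nat_lit 6) (.cons (.br (nat_lit 1) (.cons (.rel (nat_lit 34376646660)) (.cons (.rel (nat_lit 17196650754)) (.cons (.rel (nat_lit 34376523792)) (.cons (.rel (nat_lit 17196650754)) .nil))))) (.cons (.br (nat_lit 1) (.cons (.rel (nat_lit 34376523792)) (.cons (.rel (nat_lit 17196714240)) (.cons (.rel (nat_lit 17198743572)) (.cons (.rel (nat_lit 17196663072)) .nil))))) (.cons (.br (nat_lit 1) (.cons (.rel (nat_lit 17196714240)) (.cons (.rel (nat_lit 34376536065))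 (.cons (.rel (nat_lit 17198743572)) (.cons (.rel (nat_lit 17213427744)) .nil))))) .nil)))) .leaf))) (nat_lit 26517279367559805) (.br (nat_lit 1) (.cons (.br (nat_lit 2) (.cons (.rel (nat_lit 85983300)) .nil)) .nil)) (.node (.node (.node (.node .leaf (nat_lit 26517279368235634) (.br (nat_lit 1) (.cons (.br (nat_lit 6) (.cons (.rel (nat_lit 17198743572)) (.cons (.rel (nat_lit 34376646660)) .nil))) .nil)) .leaf) (nat_lit 26517279368836009) (.br (nat_lit 1) (.cons (.br (nat_lit 6) (.cons (.rel (nat_lit 34394415108)) .nil)) .nil)) (.node .leaf (nat_lit 26517279386965374) (.br (nat_lit 6) (.cons (.br (nat_lit 1) (.cons (.rel (nat_lit 17198743572)) (.cons (.rel (nat_lit 17197236225)) (.cons (.rel (nat_lit 17198743572)) .nil)))) .nil)) .leaf)) (nat_lit 26517279389807529) (.br (nat_lit 6) (.cons (.br (nat_lit 4) (.cons (.rel (nat_lit 18253627401)) (.cons (.rel (nat_lit 18253611093)) .nil))) .nil)) (.node (.node .leaf (nat_lit 26517279389808097) (.br (nat_lit 1) (.cons (.br (nat_lit 3) (.cons (.rel (nat_lit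 285245457)) .nil)) .nil)) .leaf) (nat_lit 26517279568340251) (.br (nat_lit 1) (.cons (.br (nat_lit 2) (.cons (.rel (nat_lit 168099840)) .nil)) .nil)) .leaf)) (nat_lit 26517279569561627) (.br (nat_lit 1) (.cons (.br (nat_lit 3) (.cons (.rel (nat_lit 285216840)) .nil)) .nil)) (.node (.node (.node .leaf (nat_lit 26517279569561630) (.br (nat_lit 3) (.cons (.br (nat_lit 1) (.cons (.rel (nat_lit 285220866)) (.cons (.rel (nat_lit 285233184)) .nil))) .nil)) .leaf) (nat_lit 26517279569563005) (.br (nat_lit 1) (.cons (.br (nat_lit 2) (.cons (.rel (nat_lit 83895552)) .nil)) .nil)) (.node .leaf (nat_lit 26517280657839486) (.br (nat_lit 1) (.cons (.br (nat_lit 6) (.cons (.rel (nat_lit 17196650754)) (.cons (.rel (nat_lit 34376523792)) .nil))) (.cons (.br (nat_lit 6) (.cons (.rel (nat_lit 17196663072)) (.cons (.rel (nat_lit 17196714240)) .nil))) .nil))) .leaf)) (nat_lit 26517280659405111) (.br (nat_lit 1) (.cons (.br (nat_lit 6) (.cons (.rel (nat_lit 17196714240)) (.cons (.rel (nat_lit 17196714240)) .nil)))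 .nil)) (.node (.node .leaf (nat_lit 26517280660081266) (.br (nat_lit 0) (.cons (.br (nat_lit 1) (.cons (.rel (nat_lit 42209280)) (.cons (.rel (nat_lit 25231377)) .nil))) (.cons (.br (nat_lit 1) (.cons (.rel (nat_lit 20971920)) (.cons (.rel (nat_lit 25165890)) .nil))) .nil))) .leaf) (nat_lit 26517280660681641) (.br (nat_lit 1) (.cons (.br (nat_lit 0) (.cons (.rel (nat_lit 21504000)) (.cons (.rel (nat_lit 25165890)) (.cons (.rel (nat_lit 37814352)) (.cons (.rel (nat_lit 37748865)) (.cons (.rel (nat_lit 25169925)) .nil)))))) (.cons (.br (nat_lit 4) (.cons (.rel (nat_lit 2181038100)) (.cons (.rel (nat_lit 1090520070)) (.cons (.rel (nat_lit 1090519080)) (.cons (.rel (nat_lit 1090519080)) .nil))))) (.cons (.br (nat_lit 4) (.cons (.rel (nat_lit 2181038100)) (.cons (.rel (nat_lit 1090535568)) (.cons (.rel (nat_lit 2181038100)) (.cons (.rel (nat_lit 2181038100)) .nil))))) .nil)))) .leaf)))))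

/-- refutations 53 -/
def e53 : EX := (.node (.node (.node (.node (.node .leaf (nat_lit 26517958618990893) (.br (nat_lit 1) (.cons (.br (nat_lit 3) (.cons (.rel (nat_lit 285213840)) (.cons (.rel (nat_lit 285230148)) .nil))) .nil)) .leaf) (nat_lit 26517958618990898) (.br (nat_lit 1) (.cons (.br (nat_lit 2) (.cons (.rel (nat_lit 84935184)) .nil)) .nil)) (.node .leaf (nat_lit 26517958618991529) (.br (nat_lit 4) (.cons (.br (nat_lit 6) (.cons (.rel (nat_lit 36507291648)) (.cons (.br (nat_lit 3) (.cons (.rel (nat_lit 17448306708)) (.cons (.rel (nat_lit 17448370305)) .nil))) .nil))) .nil)) .leaf)) (nat_lit 26517958619306610) (.br (nat_lit 1) (.cons (.br (nat_lit 4) (.cons (.rel (nat_lit 1090654224)) .nil)) .nil)) (.node (.node .leaf (nat_lit 26517958619591436) (.br (nat_lit 6) (.cons (.br (nat_lit 0) (.cons (.br (nat_lit 1) (.cons (.rel (nat_lit 17196663072)) (.cons (.rel (nat_lit 21042432)) .nil))) (.cons (.rel (nat_lit 17185378305)) .nil))) .nil)) .leaf) (nat_lit 26518353309087746) (.br (nat_lit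 3) (.cons (.br (nat_lit 6) (.cons (.rel (nat_lit 17448306708)) .nil)) .nil)) .leaf)) (nat_lit 26518353309087919) (.br (nat_lit 2) (.cons (.br (nat_lit 5) (.cons (.rel (nat_lit 4362080265)) .nil)) .nil)) (.node (.node (.node .leaf (nat_lit 26518353309088545) (.br (nat_lit 3) (.cons (.br (nat_lit 6) (.cons (.rel (nat_lit 17448306708)) .nil)) .nil)) .leaf) (nat_lit 26518353309088646) (.br (nat_lit 1) (.cons (.br (nat_lit 2) (.cons (.br (nat_lit 0) (.cons (.rel (nat_lit 73401360)) (.cons (.rel (nat_lit 37766208)) .nil))) .nil)) .nil)) (.node .leaf (nat_lit 26518353309088995) (.br (nat_lit 0) (.cons (.br (nat_lit 2) (.cons (.rel (nat_lit 73401360)) .nil)) .nil)) .leaf)) (nat_lit 26518353309089269) (.br (nat_lit 6) (.cons (.br (nat_lit 0) (.cons (.rel (nat_lit 17184064788)) (.cons (.rel (nat_lit 17188267008)) .nil))) .nil)) (.node (.node .leaf (nat_lit 26518353310163846) (.br (nat_lit 1) (.cons (.br (nat_lit 3) (.cons (.br (nat_lit 4) (.cons (.br (nat_lit 5) (.cons (.br (nat_lit 6) (.cons (.rel (nat_lit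 21474861060)) .nil)) .nil)) .nil)) .nil)) .nil)) .leaf) (nat_lit 26518353310164195) (.br (nat_lit 0) (.cons (.br (nat_lit 5) (.cons (.rel (nat_lit 4299166728)) .nil)) .nil)) .leaf))) (nat_lit 26518353310164469) (.br (nat_lit 3) (.cons (.br (nat_lit 1) (.cons (.rel (nat_lit 285245457)) (.cons (.rel (nat_lit 303040512)) (.cons (.rel (nat_lit 555746304)) .nil)))) .nil)) (.node (.node (.node (.node .leaf (nat_lit 26519178389703436) (.br (nat_lit 1) (.cons (.br (nat_lit 6) (.cons (.br (nat_lit 4) (.cons (.rel (nat_lit 1090519080)) (.cons (.rel (nat_lit 36525047808)) .nil))) .nil)) .nil)) .leaf) (nat_lit 26519178390303346) (.br (nat_lit 6) (.cons (.br (nat_lit 1) (.cons (.rel (nat_lit 17198743572)) (.cons (.rel (nat_lit 17196663072)) .nil))) .nil)) (.node .leaf (nat_lit 26519421711563678) (.br (nat_lit 0) (.cons (.br (nat_lit 2) (.cons (.rel (nat_lit 73400325)) .nil)) .nil)) .leaf)) (nat_lit 26523287183759621) (.br (nat_lit 0) (.cons (.br (nat_lit 1) (.cons (.rel (nat_lit 21504000)) .nil)) .nil))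 (.node (.node .leaf (nat_lit 26523287593226541) (.br (nat_lit 0) (.cons (.br (nat_lit 2) (.cons (.rel (nat_lit 138444864)) .nil)) .nil)) .leaf) (nat_lit 26523287854595424) (.br (nat_lit 0) (.cons (.br (nat_lit 3) (.cons (.rel (nat_lit 545263680)) .nil)) .nil)) .leaf)) (nat_lit 26523287854800224) (.br (nat_lit 1) (.cons (.br (nat_lit 3) (.cons (.rel (nat_lit 570429441)) .nil)) .nil)) (.node (.node (.node .leaf (nat_lit 26523287854848261) (.br (nat_lit 0) (.cons (.br (nat_lit 1) (.cons (.rel (nat_lit 25165890)) .nil)) .nil)) .leaf) (nat_lit 26523287854849376) (.br (nat_lit 0) (.cons (.br (nat_lit 1) (.cons (.rel (nat_lit 21102849)) .nil)) .nil)) (.node .leaf (nat_lit 26523536835548542) (.br (nat_lit 1) (.cons (.br (nat_lit 2) (.cons (.rel (nat_lit 100679745)) (.cons (.rel (nat_lit 100667472)) (.cons (.rel (nat_lit 83895552)) .nil)))) .nil)) .leaf)) (nat_lit 26524529473135223) (.br (nat_lit 1) (.cons (.br (nat_lit 2) (.cons (.br (nat_lit 5) (.cons (.rel (nat_lit 4362162240)) .nil)) .nil)) .nil))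 (.node (.node .leaf (nat_lit 26524567608970627) (.br (nat_lit 6) (.cons (.br (nat_lit 5) (.cons (.rel (nat_lit 21474838536)) (.cons (.rel (nat_lit 21474874368)) .nil))) .nil)) .leaf) (nat_lit 26524830122065952) (.br (nat_lit 0) (.cons (.br (nat_lit 2) (.cons (.rel (nat_lit 71304516)) .nil)) .nil)) .leaf))))

/-- refutations 54 -/
def e54 : EX := (.node (.node (.node (.node .leaf (nat_lit 25280407396628540) (.br (nat_lit 0) (.cons (.br (nat_lit 1) (.cons (.rel (nat_lit 25165890)) .nil)) .nil)) .leaf) (nat_lit 25281497219419513) (.br (nat_lit 1) (.cons (.br (nat_lit 2) (.cons (.rel (nat_lit 151000068)) .nil)) .nil)) .leaf) (nat_lit 25282130045166875) (.br (nat_lit 1) (.cons (.br (nat_lit 2) (.cons (.rel (nat_lit 83955969)) .nil)) .nil)) (.node (.node .leaf (nat_lit 25282130046839045) (.br (nat_lit 5) (.cons (.br (nat_lit 1) (.cons (.rel (nat_lit 4311810120)) (.cons (.rel (nat_lit 8623555584)) .nil))) .nil)) .leaf) (nat_lit 25285826345126514) (.br (nat_lit 1) (.cons (.br (nat_lit 0) (.cons (.rel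 (nat_lit 20971920)) (.cons (.rel (nat_lit 20988228)) .nil))) .nil)) .leaf)) (nat_lit 25285826543880468) (.br (nat_lit 0) (.cons (.br (nat_lit 1) (.cons (.rel (nat_lit 20988228)) .nil)) .nil)) (.node (.node (.node .leaf (nat_lit 25285827096222372) (.br (nat_lit 1) (.cons (.br (nat_lit 3) (.cons (.rel (nat_lit 285344769)) .nil)) .nil)) .leaf) (nat_lit 25290708814399648) (.br (nat_lit 1) (.cons (.br (nat_lit 5) (.cons (.rel (nat_lit 4311753729)) .nil)) .nil)) .leaf) (nat_lit 25290708814399794) (.br (nat_lit 0) (.cons (.br (nat_lit 3) (.cons (.rel (nat_lit 272633865)) .nil)) .nil)) (.node (.node .leaf (nat_lit 25290708814400748) (.br (nat_lit 1) (.cons (.br (nat_lit 4) (.cons (.rel (nat_lit 1107820800)) .nil)) .nil)) .leaf) (nat_lit 25291242598425883) (.br (nat_lit 3) (.cons (.br (nat_lit 6) (.cons (.rel (nat_lit 17448305673)) .nil)) .nil)) .leaf)))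

/-- refutations 55 -/
def e55 : EX := (.node (.node (.node (.node (.node (.node .leaf (nat_lit 26565726800658619) (.br (nat_lit 0) (.cons (.br (nat_lit 4) (.cons (.rel (nat_lit 1077968901)) .nil)) .nil)) .leaf) (nat_lit 26565793450294750) (.br (nat_lit 0) (.cons (.br (nat_lit 1) (.cons (.rel (nat_lit 20979993)) .nil)) .nil)) .leaf) (nat_lit 26566786549366287) (.br (nat_lit 1) (.cons (.br (nat_lit 2) (.cons (.rel (nat_lit 84541440)) .nil)) .nil)) (.node .leaf (nat_lit 26566787135233401) (.br (nat_lit 0) (.cons (.br (nat_lit 3) (.cons (.rel (nat_lit 272696352)) .nil)) .nil)) .leaf)) (nat_lit 26566787136814467) (.br (nat_lit 1) (.cons (.br (nat_lit 4) (.cons (.rel (nat_lit 1090520070)) .nil)) .nil)) (.node (.node .leaf (nat_lit 26566787137489521) (.br (nat_lit 0) (.cons (.br (nat_lit 1) (.cons (.rel (nat_lit 42209280)) .nil)) .nil)) .leaf) (nat_lit 26566787137490297) (.br (nat_lit 0) (.cons (.br (nat_lit 5) (.cons (.rel (nat_lit 4299202560)) .nil)) .nil)) (.node .leaf (nat_lit 26566790171909497)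 (.br (nat_lit 0) (.cons (.br (nat_lit 3) (.cons (.rel (nat_lit 272633865)) .nil)) .nil)) .leaf))) (nat_lit 26569618039808625) (.br (nat_lit 6) (.cons (.br (nat_lit 0) (.cons (.rel (nat_lit 17185378305)) (.cons (.rel (nat_lit 17184067968)) .nil))) .nil)) (.node (.node (.node .leaf (nat_lit 26569845804319345) (.br (nat_lit 2) (.cons (.br (nat_lit 4) (.cons (.rel (nat_lit 2281705473)) .nil)) .nil)) .leaf) (nat_lit 26569845804321394) (.br (nat_lit 0) (.cons (.br (nat_lit 3) (.cons (.rel (nat_lit 272696352)) .nil)) .nil)) (.node .leaf (nat_lit 26569849867379313) (.br (nat_lit 0) (.cons (.br (nat_lit 1) (.cons (.rel (nat_lit 20988228)) .nil)) .nil)) .leaf)) (nat_lit 26569849868704420) (.br (nat_lit 0) (.cons (.br (nat_lit 1) (.cons (.rel (nat_lit 37748865)) .nil)) .nil)) (.node (.node .leaf (nat_lit 26570051245533814) (.br (nat_lit 0) (.cons (.br (nat_lit 1) (.cons (.rel (nat_lit 37814352)) .nil)) .nil)) .leaf) (nat_lit 26570051245628068) (.br (nat_lit 1) (.cons (.br (nat_lit 6) (.cons (.rel (nat_lit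 17196712218)) .nil)) .nil)) (.node .leaf (nat_lit 26570054477077882) (.br (nat_lit 0) (.cons (.br (nat_lit 5) (.cons (.rel (nat_lit 4299227145)) .nil)) .nil)) .leaf)))) (nat_lit 26570054478556537) (.br (nat_lit 0) (.cons (.br (nat_lit 4) (.cons (.rel (nat_lit 1077952593)) .nil)) .nil)) (.node (.node (.node (.node .leaf (nat_lit 26570054479436452) (.br (nat_lit 1) (.cons (.br (nat_lit 2) (.cons (.rel (nat_lit 83902800)) (.cons (.rel (nat_lit 150996033)) (.cons (.rel (nat_lit 83919108)) .nil)))) .nil)) .leaf) (nat_lit 26570055924112762) (.br (nat_lit 0) (.cons (.br (nat_lit 5) (.cons (.rel (nat_lit 4299165729)) .nil)) .nil)) (.node .leaf (nat_lit 26570055925590277) (.br (nat_lit 4) (.cons (.br (nat_lit 0) (.cons (.rel (nat_lit 1078069248)) (.cons (.rel (nat_lit 1077945345)) .nil))) .nil)) .leaf)) (nat_lit 26570055925692727) (.br (nat_lit 1) (.cons (.br (nat_lit 4) (.cons (.rel (nat_lit 1090519080)) (.cons (.rel (nat_lit 1090519080)) .nil))) (.cons (.br (nat_lit 2) (.cons (.rel (nat_lit 83895552))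 (.cons (.rel (nat_lit 100679745)) .nil))) .nil))) (.node (.node .leaf (nat_lit 26570055925693041) (.br (nat_lit 1) (.cons (.br (nat_lit 6) (.cons (.rel (nat_lit 34376523792)) .nil)) .nil)) .leaf) (nat_lit 26570055926368882) (.br (nat_lit 5) (.cons (.br (nat_lit 0) (.cons (.rel (nat_lit 4299166728)) (.cons (.rel (nat_lit 4299202560)) .nil))) .nil)) (.node .leaf (nat_lit 26570055926471332) (.br (nat_lit 1) (.cons (.br (nat_lit 4) (.cons (.rel (nat_lit 2181038100)) (.cons (.rel (nat_lit 1090535568)) .nil))) (.cons (.br (nat_lit 4) (.cons (.rel (nat_lit 1090551876)) (.cons (.rel (nat_lit 1090519080)) .nil))) .nil))) .leaf))) (nat_lit 26576236098418999) (.br (nat_lit 1) (.cons (.br (nat_lit 4) (.cons (.rel (nat_lit 1107820800)) .nil)) .nil)) (.node (.node (.node .leaf (nat_lit 26577602513002807) (.br (nat_lit 0) (.cons (.br (nat_lit 1) (.cons (.rel (nat_lit 20971920)) .nil)) .nil)) .leaf) (nat_lit 26577602513218437) (.br (nat_lit 0) (.cons (.br (nat_lit 6) (.cons (.rel (nat_lit 17188267008)) .nil))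 .nil)) (.node .leaf (nat_lit 26577602515255483) (.br (nat_lit 2) (.cons (.br (nat_lit 3) (.cons (.rel (nat_lit 335549472)) .nil)) .nil)) .leaf)) (nat_lit 26577602515257970) (.br (nat_lit 4) (.cons (.br (nat_lit 1) (.cons (.rel (nat_lit 2181038100)) (.cons (.rel (nat_lit 1090519080)) .nil))) .nil)) (.node (.node .leaf (nat_lit 26577602515258745) (.br (nat_lit 2) (.cons (.br (nat_lit 4) (.cons (.rel (nat_lit 1140858882)) .nil)) .nil)) .leaf) (nat_lit 26577606707309445) (.br (nat_lit 0) (.cons (.br (nat_lit 3) (.cons (.rel (nat_lit 272629830)) .nil)) .nil)) (.node .leaf (nat_lit 26577606709561970) (.br (nat_lit 0) (.cons (.br (nat_lit 4) (.cons (.rel (nat_lit 1077956628)) .nil)) .nil)) .leaf)))))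

/-- refutations 56 -/
def e56 : EX := (.node (.node (.node (.node .leaf (nat_lit 26845698536822261) (.br (nat_lit 0) (.cons (.br (nat_lit 1) (.cons (.rel (nat_lit 20971920)) .nil)) .nil)) .leaf) (nat_lit 26847887407663756) (.br (nat_lit 0) (.cons (.br (nat_lit 3) (.cons (.rel (nat_lit 272715840)) .nil)) .nil)) .leaf) (nat_lit 26848093566409004) (.br (nat_lit 0) (.cons (.br (nat_lit 3) (.cons (.rel (nat_lit 272633865)) .nil)) .nil)) (.node .leaf (nat_lit 26848095696801145) (.br (nat_lit 1) (.cons (.br (nat_lit 5) (.cons (.rel (nat_lit 4311760977)) .nil)) .nil)) .leaf)) (nat_lit 26851092815494376) (.br (nat_lit 1) (.cons (.br (nat_lit 6) (.cons (.rel (nat_lit 17213424708)) .nil)) .nil)) (.node (.node .leaf (nat_lit 26851093017066148) (.br (nat_lit 0) (.cons (.br (nat_lit 1) (.cons (.rel (nat_lit 23085072)) .nil)) .nil)) .leaf) (nat_lit 26857539680083296) (.br (nat_lit 0) (.cons (.br (nat_lit 1) (.cons (.rel (nat_lit 20988228)) .nil)) .nil)) (.node .leaf (nat_lit 26857543958273376) (.br (nat_lit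 0) (.cons (.br (nat_lit 6) (.cons (.rel (nat_lit 17188267008)) .nil)) .nil)) .leaf)))

/-- refutations 57 -/
def e57 : EX := (.node (.node (.node .leaf (nat_lit 26921898197765397) (.br (nat_lit 0) (.cons (.br (nat_lit 4) (.cons (.rel (nat_lit 2151710976)) .nil)) .nil)) .leaf) (nat_lit 26921898199515417) (.br (nat_lit 3) (.cons (.br (nat_lit 4) (.cons (.rel (nat_lit 2415923280)) .nil)) .nil)) .leaf) (nat_lit 26921898200223132) (.br (nat_lit 2) (.cons (.br (nat_lit 4) (.cons (.rel (nat_lit 1140883473)) .nil)) .nil)) (.node (.node .leaf (nat_lit 26927912832158997) (.br (nat_lit 1) (.cons (.br (nat_lit 4) (.cons (.rel (nat_lit 2181038100)) .nil)) .nil)) .leaf) (nat_lit 26928119527444765) (.br (nat_lit 1) (.cons (.br (nat_lit 2) (.cons (.rel (nat_lit 83902800)) .nil)) .nil)) .leaf))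

/-- refutations 58 -/
def e58 : EX := (.node (.node (.node (.node .leaf (nat_lit 27270302880316323) (.br (nat_lit 1) (.cons (.br (nat_lit 5) (.cons (.rel (nat_lit 8623555584)) .nil)) .nil)) .leaf) (nat_lit 27270302881238304) (.br (nat_lit 1) (.cons (.br (nat_lit 2) (.cons (.rel (nat_lit 84935184)) .nil)) .nil)) (.node .leaf (nat_lit 27270304889387284) (.br (nat_lit 1) (.cons (.br (nat_lit 2) (.cons (.rel (nat_lit 85983300)) .nil)) .nil)) .leaf)) (nat_lit 27270304890308783) (.br (nat_lit 0) (.cons (.br (nat_lit 1) (.cons (.rel (nat_lit 20988228)) .nil)) .nil)) (.node (.node .leaf (nat_lit 27270305816027412) (.br (nat_lit 4) (.cons (.br (nat_lit 3) (.cons (.rel (nat_lit 2684420352)) (.cons (.rel (nat_lit 1342280256)) .nil))) .nil)) .leaf) (nat_lit 27270305816027761) (.br (nat_lit 1) (.cons (.br (nat_lit 3) (.cons (.rel (nat_lit 285216840)) .nil)) .nil)) (.node .leaf (nat_lit 27270305817250449) (.br (nat_lit 3) (.cons (.br (nat_lit 4) (.cons (.rel (nat_lit 1610679312)) .nil)) .nil)) .leaf)))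 (nat_lit 27270305817251104) (.br (nat_lit 0) (.cons (.br (nat_lit 3) (.cons (.rel (nat_lit 272793600)) .nil)) .nil)) (.node (.node (.node .leaf (nat_lit 27270305817251193) (.br (nat_lit 1) (.cons (.br (nat_lit 5) (.cons (.rel (nat_lit 4311777285)) .nil)) .nil)) .leaf) (nat_lit 27270306031160697) (.br (nat_lit 2) (.cons (.br (nat_lit 5) (.cons (.rel (nat_lit 8657043714)) .nil)) .nil)) (.node .leaf (nat_lit 27273532192652691) (.br (nat_lit 3) (.cons (.br (nat_lit 4) (.cons (.rel (nat_lit 1610631168)) .nil)) .nil)) .leaf)) (nat_lit 27273537410366065) (.br (nat_lit 0) (.cons (.br (nat_lit 3) (.cons (.rel (nat_lit 272629830)) .nil)) .nil)) (.node (.node .leaf (nat_lit 27273537410366116) (.br (nat_lit 1) (.cons (.br (nat_lit 6) (.cons (.rel (nat_lit 17198743572)) .nil)) .nil)) .leaf) (nat_lit 27273537411357297) (.br (nat_lit 1) (.cons (.br (nat_lit 4) (.cons (.rel (nat_lit 1090588737)) .nil)) .nil)) (.node .leaf (nat_lit 27274416763652851) (.br (nat_lit 0) (.cons (.br (nat_lit 2) (.cons (.rel (nat_lit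 71368968)) .nil)) .nil)) .leaf))))

/-- refutations 59 -/
def e59 : EX := (.node (.node (.node (.node .leaf (nat_lit 27275840612419745) (.br (nat_lit 4) (.cons (.br (nat_lit 5) (.cons (.rel (nat_lit 5368717824)) .nil)) .nil)) .leaf) (nat_lit 27275840612420845) (.br (nat_lit 1) (.cons (.br (nat_lit 4) (.cons (.rel (nat_lit 1090520070)) .nil)) .nil)) .leaf) (nat_lit 27275932438317682) (.br (nat_lit 1) (.cons (.br (nat_lit 4) (.cons (.rel (nat_lit 2181038100)) .nil)) .nil)) (.node .leaf (nat_lit 27278625894619812) (.br (nat_lit 0) (.cons (.br (nat_lit 1) (.cons (.rel (nat_lit 21504000)) .nil)) .nil)) .leaf)) (nat_lit 27280140488990108) (.br (nat_lit 1) (.cons (.br (nat_lit 4) (.cons (.rel (nat_lit 1090781445)) .nil)) .nil)) (.node (.node .leaf (nat_lit 27280787315837204) (.br (nat_lit 0) (.cons (.br (nat_lit 3) (.cons (.rel (nat_lit 272633865)) .nil)) .nil)) .leaf) (nat_lit 27280787315837813) (.br (nat_lit 0) (.cons (.br (nat_lit 6) (.cons (.rel (nat_lit 34363938816)) .nil)) .nil)) (.node .leaf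 (nat_lit 27281259762240924) (.br (nat_lit 0) (.cons (.br (nat_lit 2) (.cons (.rel (nat_lit 71368968)) .nil)) .nil)) .leaf)))

/-- refutations 60 -/
def e60 : EX := (.node (.node .leaf (nat_lit 26935025267708535) (.br (nat_lit 0) (.cons (.br (nat_lit 2) (.cons (.rel (nat_lit 72683520)) .nil)) .nil)) .leaf) (nat_lit 26936303623148151) (.br (nat_lit 0) (.cons (.br (nat_lit 2) (.cons (.rel (nat_lit 71843844)) .nil)) .nil)) (.node .leaf (nat_lit 26936303624714871) (.br (nat_lit 0) (.cons (.br (nat_lit 1) (.cons (.rel (nat_lit 21042432)) .nil)) .nil)) .leaf))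

/-- refutations 61 -/
def e61 : EX := (.node (.node .leaf (nat_lit 27303382761294450) (.br (nat_lit 1) (.cons (.br (nat_lit 3) (.cons (.rel (nat_lit 285212805)) .nil)) .nil)) .leaf) (nat_lit 27304381710289833) (.br (nat_lit 0) (.cons (.br (nat_lit 4) (.cons (.rel (nat_lit 1077969936)) .nil)) .nil)) .leaf)

/-- refutations 62 -/
def e62 : EX := (.node (.node .leaf (nat_lit 27449227342030311) (.br (nat_lit 0) (.cons (.br (nat_lit 2) (.cons (.rel (nat_lit 143135040)) .nil)) .nil)) .leaf) (nat_lit 27449227343247985) (.br (nat_lit 1) (.cons (.br (nat_lit 2) (.cons (.rel (nat_lit 83919108)) .nil)) .nil)) (.node .leaf (nat_lit 27451854298761842) (.br (nat_lit 0) (.cons (.br (nat_lit 2) (.cons (.rel (nat_lit 138485760)) .nil)) .nil)) .leaf))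

/-- list of the parts -/
def L0 : List (ℕ × List ℕ) := [(nat_lit 0x20, [cP]),
  (nat_lit 0x800000000, [cP]),
  (nat_lit 0x1000000000, [cP]),
  (nat_lit 0x20000000000, [cP]),
  (nat_lit 0x1000000000000000, [cP]),
  (nat_lit 0x40000000000000000, [cP]),
  (nat_lit 0x80000000000000000000000000000000000, [Nat.sub (Nat.pow 2 805) (Nat.pow 2 0), Nat.sub (Nat.pow 2 1560) (Nat.pow 2 805), Nat.sub (Nat.pow 2 3136) (Nat.pow 2 1560)]),
  (nat_lit 0x10000000000000000000000000000000000, [cP]),
  (nat_lit 0x20000000000000000000000000000000000000000, [cP]),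
  (nat_lit 0x300000000000000000000000000000000000000000, [cP]),
  (nat_lit 0x80000000000000000000000000000000000000000000000000000000000000000, [Nat.sub (Nat.pow 2 786) (Nat.pow 2 0), Nat.sub (Nat.pow 2 3136) (Nat.pow 2 786)]),
  (nat_lit 0x1000000000000000000000000000000000000000000000, [cP]),
  (nat_lit 0x2000000000000000000000000000000000000000000000000000000000000000000, [cP]),
  (nat_lit 0x20000000000000000000000000000000000000000000000000000000000000000000000, [cP]),
  (nat_lit 0x800004000000000000000000000000000000000000000000000000000000000000000000000000, [cP]),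
  (nat_lit 0x8000000000000000000000000000000000000000000000000000000000000000000000000000000, [cP]),
  (nat_lit 0x8000000000000000000000000000000000000000000000000000000000000000000000000000000000000000000000000000000000000000000000000000000000000000000000000000000000000000, [cP]),
  (nat_lit 0x800000000000000000000000000000000000000000000000000000000000000000000000000000000000000000000000000000000000000000000000000000000000000000000000000000000000000000000, [cP]),
  (nat_lit 0x80000000000000000000000000000000000000000000000000000000000000000000000000000000000000000000000000000000000000000000000000000000000000000000000000000000000000000000000000, [cP]),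
  (nat_lit 0x200000000000000000000000000000000000000000000000000000000000000000000000000000000000000000000000000000000000000000000000000000000000000000000000000000000000000000000000000, [cP]),
  (nat_lit 0x8000000000000000000000000000000000000000000000000000000000000000000000000000000000000000000000000000000000000000000000000000000000000000000000000000000000000000000000000000000000000000000000, [cP]),
  (nat_lit 0x200000000000000000000000000000000000000000000000000000000000000000000000000000000000000000000000000000000000000000000000000000000000000000000000000000000000000000000000000000000000000000000000, [cP]),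
  (nat_lit 0x800000000000000000000000000000000000000000000000000000000000000000000000000000000000000000000000000000000000000000000000000000000000000000000000000000000000000000000000000000000000000000000000000, [Nat.sub (Nat.pow 2 654) (Nat.pow 2 0), Nat.sub (Nat.pow 2 1265) (Nat.pow 2 654), Nat.sub (Nat.pow 2 3136) (Nat.pow 2 1265)]),
  (nat_lit 0x400000000000000000000000000000000000000000000000000000000000000000000000000000000000000000000000000000000000000000000000000000000000000000000000000000000000000000000000000000000000000000000000, [cP]),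
  (nat_lit 0x1000000000000000000000000000000000000000000000000000000000000000000000000000000000000000000000000000000000000000000000000000000000000000000000000000000000000000000000000000000000000000000000000000, [cP]),
  (nat_lit 0x4000000000000000000000000000000000000000000000000000000000000000000000000000000000000000000000000000000000000000000000000000000000000000000000000000000000000000000000000000000000000000000000000000000000, [Nat.sub (Nat.pow 2 764) (Nat.pow 2 0), Nat.sub (Nat.pow 2 3136) (Nat.pow 2 764)]),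
  (nat_lit 0x10000000000000000000000000000000000000000000000000000000000000000000000000000000000000000000000000000000000000000000000000000000000000000000000000000000000000000000000000000000000000000000000000000, [cP]),
  (nat_lit 0x420000000000000000000000000000000000000000000000000000000000000000000000000000000000000000000000000000000000000000000000000000000000000000000000000000000000000000000000000000000000000000000000000000000000, [cP]),
  (nat_lit 0x1000000000000000000000000000000000000000000000000000000000000000000000000000000000000000000000000000000000000000000000000000000000000000000000000000000000000000000000000000000000000000000000000000000000000, [cP]),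
  (nat_lit 0x8000000000000000000000000000000000000000000000000000000000000000000000000000000000000000000000000000000000000000000000000000000000000000000000000000000000000000000000000000000000000000000000000000000000000000000000000000, [cP]),
  (nat_lit 0x200000000000000000000000000000000000000000000000000000000000000000000000000000000000000000000000000000000000000000000000000000000000000000000000000000000000000000000000000000000000000000000000000000000000000000000000000000, [cP]),
  (nat_lit 0x4000000000000000000000000000000000000000000000000000000000000000000000000000000000000000000000000000000000000000000000000000000000000000000000000000000000000000000000000000000000000000000000000000000000000000000000000000000, [cP]),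
  (nat_lit 0x400000000000000000000000000000000000000000000000000000000000000000000000000000000000000000000000000000000000000000000000000000000000000000000000000000000000000000000000000000000000000000000000000000000000000000000000000000000000, [cP]),
  (nat_lit 0x60000000000000000000000000000000000000000000000000000000000000000000000000000000000000000000000000000000000000000000000000000000000000000000000000000000000000000000000000000000000000000000000000000000000000000000000000000000000000000, [cP]),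
  (nat_lit 0x400000000000000000000000000000000000000000000000000000000000000000000000000000000000000000000000000000000000000000000000000000000000000000000000000000000000000000000000000000000000000000000000000000000000000000000000000000000000000000, [cP]),
  (nat_lit 0x20000000000000000000000000000000000000000000000000000000000000000000000000000000000000000000000000000000000000000000000000000000000000000000000000000000000000000000000000000000000000000000000000000000000000000000000000000000000000000000, [cP]),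
  (nat_lit 0x800000000000000000000000000000000000000000000000000000000000000000000000000000000000000000000000000000000000000000000000000000000000000000000000000000000000000000000000000000000000000000000000000000000000000000000000000000000000000000000000000000000000000000000000000000000000000000000000000000000000000000000000000, [cP]),
  (nat_lit 0x80000000000000000000000000000000000000000000000000000000000000000000000000000000000000000000000000000000000000000000000000000000000000000000000000000000000000000000000000000000000000000000000000000000000000000000000000000000000000000000000000000000000000000000000000000000000000000000000000000000000000000000000000000000, [cP]),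
  (nat_lit 0x100000000000000000000000000000000000000000000000000000000000000000000000000000000000000000000000000000000000000000000000000000000000000000000000000000000000000000000000000000000000000000000000000000000000000000000000000000000000000000000000000000000000000000000000000000000000000000000000000000000000000000000000000000000, [cP]),
  (nat_lit 0x40000000000000000000000000000000000000000000000000000000000000000000000000000000000000000000000000000000000000000000000000000000000000000000000000000000000000000000000000000000000000000000000000000000000000000000000000000000000000000000000000000000000000000000000000000000000000000000000000000000000000000000000000000000000000000, [cP]),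
  (nat_lit 0x800000000000000000000000000000000000000000000000000000000000000000000000000000000000000000000000000000000000000000000000000000000000000000000000000000000000000000000000000000000000000000000000000000000000000000000000000000000000000000000000000000000000000000000000000000000000000000000000000000000000000000000000000000000000000000000000000000000, [cP]),
  (nat_lit 0x40000000000000000000000000000000000000000000000000000000000000000000000000000000000000000000000000000000000000000000000000000000000000000000000000000000000000000000000000000000000000000000000000000000000000000000000000000000000000000000000000000000000000000000000000000000000000000000000000000000000000000000000000000000000000000000000000000000000, [cP]),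
  (nat_lit 0x800000000000000000000000000000000000000000000000000000000000000000000000000000000000000000000000000000000000000000000000000000000000000000000000000000000000000000000000000000000000000000000000000000000000000000000000000000000000000000000000000000000000000000000000000000000000000000000000000000000000000000000000000000000000000000000000000000000000, [cP]),
  (nat_lit 0x40000000000000000000000000000000000000000000000000000000000000000000000000000000000000000000000000000000000000000000000000000000000000000000000000000000000000000000000000000000000000000000000000000000000000000000000000000000000000000000000000000000000000000000000000000000000000000000000000000000000000000000000000000000000000000000000000000000000000000, [Nat.sub (Nat.pow 2 689) (Nat.pow 2 0), Nat.sub (Nat.pow 2 3136) (Nat.pow 2 689)]),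
  (nat_lit 0x1000000000000000000000000000000000000000000000000000000000000000000000000000000000000000000000000000000000000000000000000000000000000000000000000000000000000000000000000000000000000000000000000000000000000000000000000000000000000000000000000000000000000000000000000000000000000000000000000000000000000000000000000000000000000000000000000000000000000000, [cP]),
  (nat_lit 0x800000000000000000000000000000000000000000000000000000000000000000000000000000000000000000000000000000000000000000000000000000000000000000000000000000000000000000000000000000000000000000000000000000000000000000000000000000000000000000000000000000000000000000000000000000000000000000000000000000000000000000000000000000000000000000000000000000000000000000000000000000000000000000, [Nat.sub (Nat.pow 2 764) (Nat.pow 2 0), Nat.sub (Nat.pow 2 3136) (Nat.pow 2 764)]),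
  (nat_lit 0x2000000000000000000000000000000000000000000000000000000000000000000000000000000000000000000000000000000000000000000000000000000000000000000000000000000000000000000000000000000000000000000000000000000000000000000000000000000000000000000000000000000000000000000000000000000000000000000000000000000000000000000000000000000000000000000000000000000000000000000000000, [cP]),
  (nat_lit 0x4000000000000000000000000000000000000000000000000000000000000000000000000000000000000000000000000000000000000000000000000000000000000000000000000000000000000000000000000000000000000000000000000000000000000000000000000000000000000000000000000000000000000000000000000000000000000000000000000000000000000000000000000000000000000000000000000000000000000000000000000000000000000000000, [cP]),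
  (nat_lit 0x40000000000000000000000000000000000000000000000000000000000000000000000000000000000000000000000000000000000000000000000000000000000000000000000000000000000000000000000000000000000000000000000000000000000000000000000000000000000000000000000000000000000000000000000000000000000000000000000000000000000000000000000000000000000000000000000000000000000000000000000000000000000000000000000, [cP]),
  (nat_lit 0x400000000000000000000000000000000000000000000000000000000000000000000000000000000000000000000000000000000000000000000000000000000000000000000000000000000000000000000000000000000000000000000000000000000000000000000000000000000000000000000000000000000000000000000000000000000000000000000000000000000000000000000000000000000000000000000000000000000000000000000000000000000000000000000000, [cP]),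
  (nat_lit 0x40000000000000000000000000000000000000000000000000000000000000000000000000000000000000000000000000000000000000000000000000000000000000000000000000000000000000000000000000000000000000000000000000000000000000000000000000000000000000000000000000000000000000000000000000000000000000000000000000000000000000000000000000000000000000000000000000000000000000000000000000000000000000000000000000000, [Nat.sub (Nat.pow 2 815) (Nat.pow 2 0), Nat.sub (Nat.pow 2 3136) (Nat.pow 2 815)]),
  (nat_lit 0x800000000000000000000000000000000000000000000000000000000000000000000000000000000000000000000000000000000000000000000000000000000000000000000000000000000000000000000000000000000000000000000000000000000000000000000000000000000000000000000000000000000000000000000000000000000000000000000000000000000000000000000000000000000000000000000000000000000000000000000000000000000000000000000000, [cP]),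
  (nat_lit 0x100000000000000000000000000000000000000000000000000000000000000000000000000000000000000000000000000000000000000000000000000000000000000000000000000000000000000000000000000000000000000000000000000000000000000000000000000000000000000000000000000000000000000000000000000000000000000000000000000000000000000000000000000000000000000000000000000000000000000000000000000000000000000000000000000000, [cP]),
  (nat_lit 0x10000000000000000000000000000000000000000000000000000000000000000000000000000000000000000000000000000000000000000000000000000000000000000000000000000000000000000000000000000000000000000000000000000000000000000000000000000000000000000000000000000000000000000000000000000000000000000000000000000000000000000000000000000000000000000000000000000000000000000000000000000000000000000000000000000000, [cP])]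

theorem hp0 : ∀ p ∈ L0, ∀ D2 ∈ p.2, ∃ e,
    search ext94 (Pool.Agent.H74.EGZ.vio sb) G Uc A0 p.1 D2 e = true :=
  (List.forall_mem_cons.2 ⟨(List.forall_mem_singleton.2 ⟨e0, by decide +kernel⟩),
  (List.forall_mem_cons.2 ⟨(List.forall_mem_singleton.2 ⟨e1, by decide +kernel⟩),
  (List.forall_mem_cons.2 ⟨(List.forall_mem_singleton.2 ⟨e2, by decide +kernel⟩),
  (List.forall_mem_cons.2 ⟨(List.forall_mem_singleton.2 ⟨e3, by decide +kernel⟩),
  (List.forall_mem_cons.2 ⟨(List.forall_mem_singleton.2 ⟨e4, by decide +kernel⟩),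
  (List.forall_mem_cons.2 ⟨(List.forall_mem_singleton.2 ⟨e5, by decide +kernel⟩),
  (List.forall_mem_cons.2 ⟨(List.forall_mem_cons.2 ⟨⟨e6, by decide +kernel⟩,
  (List.forall_mem_cons.2 ⟨⟨e7, by decide +kernel⟩,
  (List.forall_mem_singleton.2 ⟨e8, by decide +kernel⟩)⟩)⟩),
  (List.forall_mem_cons.2 ⟨(List.forall_mem_singleton.2 ⟨e9, by decide +kernel⟩),
  (List.forall_mem_cons.2 ⟨(List.forall_mem_singleton.2 ⟨e10, by decide +kernel⟩),
  (List.forall_mem_cons.2 ⟨(List.forall_mem_singleton.2 ⟨e11, by decide +kernel⟩),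
  (List.forall_mem_cons.2 ⟨(List.forall_mem_cons.2 ⟨⟨e12, by decide +kernel⟩,
  (List.forall_mem_singleton.2 ⟨e13, by decide +kernel⟩)⟩),
  (List.forall_mem_cons.2 ⟨(List.forall_mem_singleton.2 ⟨e14, by decide +kernel⟩),
  (List.forall_mem_cons.2 ⟨(List.forall_mem_singleton.2 ⟨e15, by decide +kernel⟩),
  (List.forall_mem_cons.2 ⟨(List.forall_mem_singleton.2 ⟨e16, by decide +kernel⟩),
  (List.forall_mem_cons.2 ⟨(List.forall_mem_singleton.2 ⟨e17, by decide +kernel⟩),
  (List.forall_mem_cons.2 ⟨(List.forall_mem_singleton.2 ⟨e18, by decide +kernel⟩),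
  (List.forall_mem_cons.2 ⟨(List.forall_mem_singleton.2 ⟨e19, by decide +kernel⟩),
  (List.forall_mem_cons.2 ⟨(List.forall_mem_singleton.2 ⟨e20, by decide +kernel⟩),
  (List.forall_mem_cons.2 ⟨(List.forall_mem_singleton.2 ⟨e21, by decide +kernel⟩),
  (List.forall_mem_cons.2 ⟨(List.forall_mem_singleton.2 ⟨e22, by decide +kernel⟩),
  (List.forall_mem_cons.2 ⟨(List.forall_mem_singleton.2 ⟨e23, by decide +kernel⟩),
  (List.forall_mem_cons.2 ⟨(List.forall_mem_singleton.2 ⟨e24, by decide +kernel⟩),
  (List.forall_mem_cons.2 ⟨(List.forall_mem_cons.2 ⟨⟨e25, by decide +kernel⟩,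
  (List.forall_mem_cons.2 ⟨⟨e26, by decide +kernel⟩,
  (List.forall_mem_singleton.2 ⟨e27, by decide +kernel⟩)⟩)⟩),
  (List.forall_mem_cons.2 ⟨(List.forall_mem_singleton.2 ⟨e28, by decide +kernel⟩),
  (List.forall_mem_cons.2 ⟨(List.forall_mem_singleton.2 ⟨e29, by decide +kernel⟩),
  (List.forall_mem_cons.2 ⟨(List.forall_mem_cons.2 ⟨⟨e30, by decide +kernel⟩,
  (List.forall_mem_singleton.2 ⟨e31, by decide +kernel⟩)⟩),
  (List.forall_mem_cons.2 ⟨(List.forall_mem_singleton.2 ⟨e32, by decide +kernel⟩),
  (List.forall_mem_cons.2 ⟨(List.forall_mem_singleton.2 ⟨e33, by decide +kernel⟩),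
  (List.forall_mem_cons.2 ⟨(List.forall_mem_singleton.2 ⟨e34, by decide +kernel⟩),
  (List.forall_mem_cons.2 ⟨(List.forall_mem_singleton.2 ⟨e35, by decide +kernel⟩),
  (List.forall_mem_cons.2 ⟨(List.forall_mem_singleton.2 ⟨e36, by decide +kernel⟩),
  (List.forall_mem_cons.2 ⟨(List.forall_mem_singleton.2 ⟨e37, by decide +kernel⟩),
  (List.forall_mem_cons.2 ⟨(List.forall_mem_singleton.2 ⟨e38, by decide +kernel⟩),
  (List.forall_mem_cons.2 ⟨(List.forall_mem_singleton.2 ⟨e39, by decide +kernel⟩),
  (List.forall_mem_cons.2 ⟨(List.forall_mem_singleton.2 ⟨e40, by decide +kernel⟩),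
  (List.forall_mem_cons.2 ⟨(List.forall_mem_singleton.2 ⟨e41, by decide +kernel⟩),
  (List.forall_mem_cons.2 ⟨(List.forall_mem_singleton.2 ⟨e42, by decide +kernel⟩),
  (List.forall_mem_cons.2 ⟨(List.forall_mem_singleton.2 ⟨e43, by decide +kernel⟩),
  (List.forall_mem_cons.2 ⟨(List.forall_mem_singleton.2 ⟨e44, by decide +kernel⟩),
  (List.forall_mem_cons.2 ⟨(List.forall_mem_singleton.2 ⟨e45, by decide +kernel⟩),
  (List.forall_mem_cons.2 ⟨(List.forall_mem_singleton.2 ⟨e46, by decide +kernel⟩),
  (List.forall_mem_cons.2 ⟨(List.forall_mem_singleton.2 ⟨e47, by decide +kernel⟩),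
  (List.forall_mem_cons.2 ⟨(List.forall_mem_singleton.2 ⟨e48, by decide +kernel⟩),
  (List.forall_mem_cons.2 ⟨(List.forall_mem_cons.2 ⟨⟨e49, by decide +kernel⟩,
  (List.forall_mem_singleton.2 ⟨e50, by decide +kernel⟩)⟩),
  (List.forall_mem_cons.2 ⟨(List.forall_mem_singleton.2 ⟨.leaf, by decide +kernel⟩),
  (List.forall_mem_cons.2 ⟨(List.forall_mem_cons.2 ⟨⟨e52, by decide +kernel⟩,
  (List.forall_mem_singleton.2 ⟨e53, by decide +kernel⟩)⟩),
  (List.forall_mem_cons.2 ⟨(List.forall_mem_singleton.2 ⟨e54, by decide +kernel⟩),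
  (List.forall_mem_cons.2 ⟨(List.forall_mem_singleton.2 ⟨e55, by decide +kernel⟩),
  (List.forall_mem_cons.2 ⟨(List.forall_mem_singleton.2 ⟨e56, by decide +kernel⟩),
  (List.forall_mem_cons.2 ⟨(List.forall_mem_singleton.2 ⟨e57, by decide +kernel⟩),
  (List.forall_mem_cons.2 ⟨(List.forall_mem_cons.2 ⟨⟨e58, by decide +kernel⟩,
  (List.forall_mem_singleton.2 ⟨e59, by decide +kernel⟩)⟩),
  (List.forall_mem_cons.2 ⟨(List.forall_mem_singleton.2 ⟨e60, by decide +kernel⟩),
  (List.forall_mem_cons.2 ⟨(List.forall_mem_singleton.2 ⟨e61, by decide +kernel⟩),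
  (List.forall_mem_singleton.2 (List.forall_mem_singleton.2 ⟨e62, by decide +kernel⟩))⟩)⟩)⟩)⟩)⟩)⟩)⟩)⟩)⟩)⟩)⟩)⟩)⟩)⟩)⟩)⟩)⟩)⟩)⟩)⟩)⟩)⟩)⟩)⟩)⟩)⟩)⟩)⟩)⟩)⟩)⟩)⟩)⟩)⟩)⟩)⟩)⟩)⟩)⟩)⟩)⟩)⟩)⟩)⟩)⟩)⟩)⟩)⟩)⟩)⟩)⟩)⟩)⟩)

end

end Pool.Agent.H21.EGZ.S21
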