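import Pool.Agent.H21.EGZ.D22

/-!
# Stage 22 : search, part 0
-/

set_option autoImplicit false
set_option maxRecDepth 100000

namespace Pool.Agent.H21.EGZ.S22

noncomputable section

open Pool.Agent.H74.EGZ Pool.Agent.H94.Lift

/-- refutations 0 -/
def e0 : EX := (.node (.node (.node (.node .leaf (nat_lit 90325888648454) (.br (nat_lit 0) (.cons (.br (nat_lit 2) (.cons (.rel (nat_lit 71434272)) .nil)) .nil)) .leaf) (nat_lit 90325888810246) (.br (nat_lit 0) (.cons (.br (nat_lit 2) (.cons (.rel (nat_lit 71321088)) .nil)) .nil)) (.node .leaf (nat_lit 90325888850575) (.br (nat_lit 1) (.cons (.br (nat_lit 5) (.cons (.rel (nat_lit 4311810114)) .nil)) .nil)) .leaf)) (nat_lit 90325888851326) (.br (nat_lit 0) (.cons (.br (nat_lit 1) (.cons (.rel (nat_lit 20971560)) (.cons (.rel (nat_lit 38797632)) .nil))) .nil)) (.node (.node .leaf (nat_lit 90325891093785) (.br (nat_lit 0) (.cons (.br (nat_lit 3) (.cons (.rel (nat_lit 272647296)) .nil)) .nil)) .leaf) (nat_lit 90325891194941) (.br (nat_lit 0) (.cons (.br (nat_lit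 2) (.cons (.rel (nat_lit 75497544)) .nil)) .nil)) (.node .leaf (nat_lit 90325891707785) (.br (nat_lit 0) (.cons (.br (nat_lit 2) (.cons (.rel (nat_lit 76546065)) .nil)) .nil)) .leaf))) (nat_lit 90325891708166) (.br (nat_lit 0) (.cons (.br (nat_lit 2) (.cons (.rel (nat_lit 71303442)) (.cons (.rel (nat_lit 71321088)) (.cons (.rel (nat_lit 71303442)) (.cons (.rel (nat_lit 138412164)) .nil))))) .nil)) (.node (.node (.node .leaf (nat_lit 90410320190345) (.br (nat_lit 0) (.cons (.br (nat_lit 2) (.cons (.rel (nat_lit 71377920)) .nil)) .nil)) .leaf) (nat_lit 90410322433310) (.br (nat_lit 0) (.cons (.br (nat_lit 2) (.cons (.rel (nat_lit 71309328)) .nil)) .nil)) (.node .leaf (nat_lit 90414852343070) (.br (nat_lit 0) (.cons (.br (nat_lit 3) (.cons (.rel (nat_lit 541065732)) .nil)) .nil)) .leaf)) (nat_lit 95740189792282) (.br (nat_lit 0) (.cons (.br (nat_lit 1) (.cons (.rel (nat_lit 20990208)) .nil)) .nil)) (.node (.node .leaf (nat_lit 100202363280610) (.br (nat_lit 0) (.cons (.br (nat_lit 1) (.cons (.rel (nat_lit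 20972562)) .nil)) .nil)) .leaf) (nat_lit 100202847222695) (.br (nat_lit 2) (.cons (.br (nat_lit 3) (.cons (.rel (nat_lit 335561736)) .nil)) .nil)) (.node .leaf (nat_lit 198948683533598) (.br (nat_lit 2) (.cons (.br (nat_lit 5) (.cons (.rel (nat_lit 4429447488)) .nil)) .nil)) .leaf))))

/-- refutations 1 -/
def e1 : EX := (.node .leaf (nat_lit 922587513486247) (.br (nat_lit 1) (.cons (.br (nat_lit 2) (.cons (.rel (nat_lit 150999297)) .nil)) .nil)) .leaf)

/-- refutations 2 -/
def e2 : EX := (.node (.node (.node (.node (.node .leaf (nat_lit 1055963427912617) (.br (nat_lit 0) (.cons (.br (nat_lit 2) (.cons (.rel (nat_lit 71303442)) .nil)) .nil)) .leaf) (nat_lit 1055963429500935) (.br (nat_lit 1) (.cons (.br (nat_lit 2) (.cons (.rel (nat_lit 84934665)) .nil)) .nil)) (.node .leaf (nat_lit 1057896163196286) (.br (nat_lit 0) (.cons (.br (nat_lit 1) (.cons (.rel (nat_lit 20973573)) .nil)) .nil)) .leaf)) (nat_lit 1057896165592345) (.br (nat_lit 3) (.cons (.br (nat_lit 5) (.cons (.rel (nat_lit 4563407889)) .nil))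 .nil)) (.node (.node .leaf (nat_lit 1057896165594393) (.br (nat_lit 0) (.cons (.br (nat_lit 1) (.cons (.rel (nat_lit 41943060)) .nil)) .nil)) .leaf) (nat_lit 1057979428518200) (.br (nat_lit 1) (.cons (.br (nat_lit 0) (.cons (.rel (nat_lit 20979972)) (.cons (.rel (nat_lit 26280960)) .nil))) .nil)) (.node .leaf (nat_lit 1057982062540956) (.br (nat_lit 0) (.cons (.br (nat_lit 5) (.cons (.rel (nat_lit 4299161610)) .nil)) .nil)) .leaf))) (nat_lit 1057982062541725) (.br (nat_lit 6) (.cons (.br (nat_lit 3) (.cons (.rel (nat_lit 34628194305)) (.cons (.br (nat_lit 0) (.cons (.rel (nat_lit 34363969536)) (.cons (.rel (nat_lit 272695425)) (.cons (.rel (nat_lit 272973840)) (.cons (.rel (nat_lit 17186227200)) (.cons (.rel (nat_lit 272897025)) .nil)))))) (.cons (.br (nat_lit 0) (.cons (.rel (nat_lit 34363969536)) (.cons (.rel (nat_lit 273686592)) (.cons (.rel (nat_lit 272640132)) (.cons (.rel (nat_lit 17186227200)) (.cons (.rel (nat_lit 272695425)) .nil)))))) (.cons (.rel (nat_lit 17448584193)) .nil))))) (.cons (.br (nat_lit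 3) (.cons (.rel (nat_lit 17716740129)) (.cons (.rel (nat_lit 17450403840)) (.cons (.rel (nat_lit 17448632322)) (.cons (.rel (nat_lit 34628173842)) .nil))))) (.cons (.br (nat_lit 3) (.cons (.rel (nat_lit 17448313236)) (.cons (.rel (nat_lit 17449353297)) (.cons (.rel (nat_lit 17448632322)) (.cons (.rel (nat_lit 17448567312)) .nil))))) .nil)))) (.node (.node (.node .leaf (nat_lit 1057982062545772) (.br (nat_lit 0) (.cons (.br (nat_lit 3) (.cons (.rel (nat_lit 541132800)) .nil)) .nil)) .leaf) (nat_lit 1057982064129510) (.br (nat_lit 1) (.cons (.br (nat_lit 2) (.cons (.rel (nat_lit 83888193)) .nil)) .nil)) (.node .leaf (nat_lit 1057982064835865) (.br (nat_lit 1) (.cons (.br (nat_lit 6) (.cons (.rel (nat_lit 34377564417)) (.cons (.rel (nat_lit 17196728322)) .nil))) .nil)) .leaf)) (nat_lit 1057982064887065) (.br (nat_lit 0) (.cons (.br (nat_lit 1) (.cons (.rel (nat_lit 21041154)) (.cons (.rel (nat_lit 38010882)) .nil))) (.cons (.br (nat_lit 1) (.cons (.rel (nat_lit 21234240)) (.cons (.rel (nat_lit 25690113)) .nil)))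 .nil))) (.node (.node .leaf (nat_lit 1057982064938265) (.br (nat_lit 2) (.cons (.br (nat_lit 4) (.cons (.rel (nat_lit 2281701393)) (.cons (.rel (nat_lit 1141899396)) .nil))) .nil)) .leaf) (nat_lit 1057982064940313) (.br (nat_lit 0) (.cons (.br (nat_lit 1) (.cons (.rel (nat_lit 42209616)) (.cons (.rel (nat_lit 20972562)) .nil))) .nil)) .leaf))) (nat_lit 1057982065143065) (.br (nat_lit 0) (.cons (.br (nat_lit 1) (.cons (.rel (nat_lit 20993025)) .nil)) .nil)) (.node (.node (.node (.node .leaf (nat_lit 1057982065143315) (.br (nat_lit 1) (.cons (.br (nat_lit 0) (.cons (.rel (nat_lit 21041154)) (.cons (.rel (nat_lit 21041154)) .nil))) .nil)) .leaf) (nat_lit 1057982065347990) (.br (nat_lit 2) (.cons (.br (nat_lit 3) (.cons (.rel (nat_lit 335581188)) (.cons (.rel (nat_lit 671093760)) (.cons (.rel (nat_lit 402653568)) (.cons (.rel (nat_lit 335548674)) .nil))))) .nil)) (.node .leaf (nat_lit 1057982065399190) (.br (nat_lit 0) (.cons (.br (nat_lit 4) (.cons (.rel (nat_lit 1077938304)) .nil)) .nil)) .leaf)) (nat_lit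 1057982065460600) (.br (nat_lit 1) (.cons (.br (nat_lit 3) (.cons (.rel (nat_lit 302284800)) .nil)) .nil)) (.node (.node .leaf (nat_lit 1058196915763877) (.br (nat_lit 2) (.cons (.br (nat_lit 3) (.cons (.rel (nat_lit 335560725)) .nil)) .nil)) .leaf) (nat_lit 1058196915763985) (.br (nat_lit 0) (.cons (.br (nat_lit 1) (.cons (.rel (nat_lit 21038337)) .nil)) .nil)) (.node .leaf (nat_lit 1058196918058265) (.br (nat_lit 4) (.cons (.br (nat_lit 5) (.cons (.rel (nat_lit 5368713474)) .nil)) .nil)) .leaf))) (nat_lit 1058196918062337) (.br (nat_lit 4) (.cons (.br (nat_lit 5) (.cons (.rel (nat_lit 5368719360)) .nil)) .nil)) (.node (.node (.node .leaf (nat_lit 1058196918109465) (.br (nat_lit 2) (.cons (.br (nat_lit 6) (.cons (.rel (nat_lit 34426864704)) (.cons (.rel (nat_lit 34493956356)) (.cons (.rel (nat_lit 34493956356)) .nil)))) .nil)) .leaf) (nat_lit 1058196918160665) (.br (nat_lit 1) (.cons (.br (nat_lit 3) (.cons (.rel (nat_lit 285216792)) (.cons (.rel (nat_lit 285216792)) (.cons (.rel (nat_lit 553652289)) .nil))))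 .nil)) (.node .leaf (nat_lit 1058197862339941) (.br (nat_lit 2) (.cons (.br (nat_lit 0) (.cons (.rel (nat_lit 142671888)) (.cons (.rel (nat_lit 139461696)) .nil))) .nil)) .leaf)) (nat_lit 1061160340633736) (.br (nat_lit 1) (.cons (.br (nat_lit 3) (.cons (.rel (nat_lit 285212964)) .nil)) .nil)) (.node (.node .leaf (nat_lit 1061395814955164) (.br (nat_lit 0) (.cons (.br (nat_lit 3) (.cons (.rel (nat_lit 273022980)) .nil)) .nil)) .leaf) (nat_lit 1067774589564185) (.br (nat_lit 2) (.cons (.br (nat_lit 6) (.cons (.rel (nat_lit 17246978568)) .nil)) .nil)) .leaf))))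

/-- refutations 3 -/
def e3 : EX := (.node (.node (.node .leaf (nat_lit 1073576032936871) (.br (nat_lit 0) (.cons (.br (nat_lit 2) (.cons (.rel (nat_lit 71304453)) (.cons (.rel (nat_lit 71309328)) .nil))) (.cons (.br (nat_lit 2) (.cons (.rel (nat_lit 71303442)) (.cons (.br (nat_lit 4) (.cons (.rel (nat_lit 1082134788)) (.cons (.rel (nat_lit 1140982272)) (.cons (.rel (nat_lit 2151678240)) (.cons (.rel (nat_lit 1082130960)) .nil))))) .nil))) .nil))) .leaf) (nat_lit 1074477976069031) (.br (nat_lit 1) (.cons (.br (nat_lit 3) (.cons (.rel (nat_lit 285217794)) .nil)) .nil)) (.node .leaf (nat_lit 1078979100688541) (.br (nat_lit 3) (.cons (.br (nat_lit 4) (.cons (.rel (nat_lit 1342441488)) .nil)) .nil)) .leaf)) (nat_lit 1080859638965159) (.br (nat_lit 0) (.cons (.br (nat_lit 2) (.cons (.rel (nat_lit 71335956)) .nil)) .nil)) (.node (.node .leaf (nat_lit 1080860297470887) (.br (nat_lit 1) (.cons (.br (nat_lit 2) (.cons (.rel (nat_lit 150996480)) .nil)) .nil)) .leaf) (nat_lit 1091153858871358) (.br (nat_lit 1) (.cons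 (.br (nat_lit 2) (.cons (.rel (nat_lit 100668417)) .nil)) .nil)) .leaf))

/-- refutations 4 -/
def e4 : EX := (.node (.node (.node (.node (.node .leaf (nat_lit 2376323322860772) (.br (nat_lit 0) (.cons (.br (nat_lit 3) (.cons (.rel (nat_lit 276824328)) .nil)) .nil)) .leaf) (nat_lit 2376323322860806) (.br (nat_lit 2) (.cons (.br (nat_lit 3) (.cons (.rel (nat_lit 603980352)) .nil)) .nil)) .leaf) (nat_lit 2376323322931336) (.br (nat_lit 0) (.cons (.br (nat_lit 2) (.cons (.rel (nat_lit 71309328)) (.cons (.rel (nat_lit 71369217)) (.cons (.rel (nat_lit 71369217)) .nil)))) .nil)) (.node .leaf (nat_lit 2376323322931985) (.br (nat_lit 2) (.cons (.br (nat_lit 3) (.cons (.rel (nat_lit 671093760)) .nil)) .nil)) .leaf)) (nat_lit 2376323322932100) (.br (nat_lit 2) (.cons (.br (nat_lit 0) (.cons (.br (nat_lit 4) (.cons (.rel (nat_lit 1080033297)) (.cons (.rel (nat_lit 1080099072)) .nil))) (.cons (.rel (nat_lit 71303442)) .nil))) .nil)) (.node (.node .leaf (nat_lit 2376323322932606) (.br (nat_lit 0) (.cons (.br (nat_lit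 2) (.cons (.rel (nat_lit 71304453)) .nil)) .nil)) .leaf) (nat_lit 2376323322936601) (.br (nat_lit 0) (.cons (.br (nat_lit 4) (.cons (.rel (nat_lit 1082147841)) .nil)) .nil)) (.node .leaf (nat_lit 2376323323955985) (.br (nat_lit 0) (.cons (.br (nat_lit 3) (.cons (.rel (nat_lit 272695425)) .nil)) .nil)) .leaf))) (nat_lit 2376323325020410) (.br (nat_lit 1) (.cons (.br (nat_lit 3) (.cons (.rel (nat_lit 286523409)) .nil)) .nil)) (.node (.node (.node (.node .leaf (nat_lit 2376323325020836) (.br (nat_lit 0) (.cons (.br (nat_lit 2) (.cons (.rel (nat_lit 71434272)) (.cons (.rel (nat_lit 71309328)) .nil))) .nil)) .leaf) (nat_lit 2376323325021540) (.br (nat_lit 0) (.cons (.br (nat_lit 2) (.cons (.rel (nat_lit 71303442)) .nil)) .nil)) .leaf) (nat_lit 2376323325175065) (.br (nat_lit 0) (.cons (.br (nat_lit 2) (.cons (.rel (nat_lit 75497544)) (.cons (.rel (nat_lit 75497544)) (.cons (.rel (nat_lit 71321088)) .nil)))) (.cons (.br (nat_lit 2) (.cons (.br (nat_lit 3) (.cons (.rel (nat_lit 276828192)) (.cons (.rel (nat_lit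 335554560)) (.cons (.rel (nat_lit 545325648)) (.cons (.rel (nat_lit 545264712)) .nil))))) (.cons (.rel (nat_lit 71335956)) (.cons (.rel (nat_lit 71303442)) .nil)))) .nil))) (.node .leaf (nat_lit 2376323325277441) (.br (nat_lit 0) (.cons (.br (nat_lit 2) (.cons (.rel (nat_lit 71335956)) .nil)) .nil)) .leaf)) (nat_lit 2377307579279496) (.br (nat_lit 0) (.cons (.br (nat_lit 2) (.cons (.br (nat_lit 4) (.cons (.rel (nat_lit 2281701393)) .nil)) .nil)) .nil)) (.node (.node .leaf (nat_lit 2377307581266571) (.br (nat_lit 0) (.cons (.br (nat_lit 4) (.cons (.br (nat_lit 1) (.cons (.rel (nat_lit 20971560)) (.cons (.rel (nat_lit 1090523424)) .nil))) .nil)) .nil)) .leaf) (nat_lit 2388345645230216) (.br (nat_lit 0) (.cons (.br (nat_lit 1) (.cons (.rel (nat_lit 20972562)) .nil)) .nil)) (.node .leaf (nat_lit 2388345646182536) (.br (nat_lit 1) (.cons (.br (nat_lit 2) (.cons (.rel (nat_lit 151060488)) .nil)) .nil)) .leaf))))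

/-- refutations 5 -/
def e5 : EX := (.node (.node (.node (.node .leaf (nat_lit 2745475623385394) (.br (nat_lit 0) (.cons (.br (nat_lit 1) (.cons (.rel (nat_lit 20990208)) .nil)) .nil)) .leaf) (nat_lit 2745475623613351) (.br (nat_lit 2) (.cons (.br (nat_lit 6) (.cons (.rel (nat_lit 17247244356)) .nil)) .nil)) .leaf) (nat_lit 2745475623654031) (.br (nat_lit 3) (.cons (.br (nat_lit 5) (.cons (.rel (nat_lit 4563435528)) .nil)) .nil)) (.node .leaf (nat_lit 2745475623654257) (.br (nat_lit 2) (.cons (.br (nat_lit 3) (.cons (.rel (nat_lit 337657920)) .nil)) .nil)) .leaf)) (nat_lit 2745475624680100) (.br (nat_lit 1) (.cons (.br (nat_lit 5) (.cons (.rel (nat_lit 4328587521)) .nil)) .nil)) (.node (.node (.node .leaf (nat_lit 2750012778451119) (.br (nat_lit 3) (.cons (.br (nat_lit 6) (.cons (.rel (nat_lit 34896609348)) (.cons (.rel (nat_lit 17716740129)) (.cons (.rel (nat_lit 17448567312)) .nil)))) .nil)) .leaf) (nat_lit 2750012778451201) (.br (nat_lit 3) (.cons (.br (nat_lit 4) (.cons (.rel (nat_lit 1610613012))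 (.cons (.br (nat_lit 0) (.cons (.rel (nat_lit 2151678240)) (.cons (.rel (nat_lit 1082130960)) .nil))) .nil))) .nil)) .leaf) (nat_lit 2750012778452350) (.br (nat_lit 0) (.cons (.br (nat_lit 2) (.cons (.rel (nat_lit 71321088)) .nil)) .nil)) (.node .leaf (nat_lit 2834792852816528) (.br (nat_lit 0) (.cons (.br (nat_lit 1) (.cons (.rel (nat_lit 20972562)) .nil)) .nil)) .leaf)))

/-- refutations 6 -/
def e6 : EX := (.node (.node (.node (.node (.node .leaf (nat_lit 3079065956745372) (.br (nat_lit 0) (.cons (.br (nat_lit 2) (.cons (.rel (nat_lit 71369217)) .nil)) .nil)) .leaf) (nat_lit 3080010221497625) (.br (nat_lit 0) (.cons (.br (nat_lit 1) (.cons (.rel (nat_lit 21118980)) .nil)) .nil)) (.node .leaf (nat_lit 3080179384045743) (.br (nat_lit 0) (.cons (.br (nat_lit 1) (.cons (.rel (nat_lit 21069840)) .nil)) .nil)) .leaf)) (nat_lit 3080182542356610) (.br (nat_lit 1) (.cons (.br (nat_lit 3) (.cons (.rel (nat_lit 554827776)) (.cons (.rel (nat_lit 285294609)) .nil))) .nil)) (.node (.node .leaf (nat_lit 3080182542356636)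 (.br (nat_lit 0) (.cons (.br (nat_lit 6) (.cons (.br (nat_lit 4) (.cons (.rel (nat_lit 1077938304)) (.cons (.rel (nat_lit 18255740928)) .nil))) .nil)) .nil)) .leaf) (nat_lit 3080182542356655) (.br (nat_lit 0) (.cons (.br (nat_lit 5) (.cons (.rel (nat_lit 4299163668)) .nil)) .nil)) (.node .leaf (nat_lit 3080182543712318) (.br (nat_lit 2) (.cons (.br (nat_lit 0) (.cons (.rel (nat_lit 71335956)) (.cons (.rel (nat_lit 71385096)) .nil))) .nil)) .leaf))) (nat_lit 3080182544681136) (.br (nat_lit 4) (.cons (.br (nat_lit 6) (.cons (.rel (nat_lit 18253881600)) .nil)) .nil)) (.node (.node (.node .leaf (nat_lit 3080182544681741) (.br (nat_lit 0) (.cons (.br (nat_lit 1) (.cons (.rel (nat_lit 20979972)) .nil)) .nil)) .leaf) (nat_lit 3080182544732335) (.br (nat_lit 3) (.cons (.br (nat_lit 4) (.cons (.rel (nat_lit 1343586432)) .nil)) .nil)) (.node .leaf (nat_lit 3081084486309145) (.br (nat_lit 3) (.cons (.br (nat_lit 5) (.cons (.rel (nat_lit 4563484704)) .nil)) .nil)) .leaf)) (nat_lit 3081084486361100) (.br (nat_lit 0)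 (.cons (.br (nat_lit 6) (.cons (.rel (nat_lit 17184329736)) .nil)) .nil)) (.node (.node .leaf (nat_lit 3081084486361345) (.br (nat_lit 4) (.cons (.br (nat_lit 6) (.cons (.rel (nat_lit 19327354368)) (.cons (.rel (nat_lit 18253873188)) .nil))) .nil)) .leaf) (nat_lit 3081084486361869) (.br (nat_lit 0) (.cons (.br (nat_lit 2) (.cons (.rel (nat_lit 142644225)) .nil)) .nil)) (.node .leaf (nat_lit 3081084486362393) (.br (nat_lit 0) (.cons (.br (nat_lit 5) (.cons (.rel (nat_lit 4299161610)) .nil)) .nil)) .leaf)))) (nat_lit 3081084486574256) (.br (nat_lit 0) (.cons (.br (nat_lit 2) (.cons (.rel (nat_lit 71377920)) .nil)) .nil)) (.node (.node (.node (.node .leaf (nat_lit 3081295438009827) (.br (nat_lit 0) (.cons (.br (nat_lit 3) (.cons (.rel (nat_lit 274743300)) .nil)) .nil)) .leaf) (nat_lit 3081298206248986) (.br (nat_lit 1) (.cons (.br (nat_lit 4) (.cons (.rel (nat_lit 1090535430)) .nil)) .nil)) (.node .leaf (nat_lit 3081298206249637) (.br (nat_lit 1) (.cons (.br (nat_lit 2) (.cons (.rel (nat_lit 83886180)) .nil))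 .nil)) .leaf)) (nat_lit 3081298206249885) (.br (nat_lit 1) (.cons (.br (nat_lit 2) (.cons (.rel (nat_lit 100668417)) .nil)) .nil)) (.node (.node .leaf (nat_lit 3081298207385775) (.br (nat_lit 2) (.cons (.br (nat_lit 6) (.cons (.rel (nat_lit 34493956356)) (.cons (.rel (nat_lit 17246978568)) .nil))) .nil)) .leaf) (nat_lit 3081298207600815) (.br (nat_lit 6) (.cons (.br (nat_lit 3) (.cons (.rel (nat_lit 34896609348)) (.cons (.rel (nat_lit 34897658880)) (.cons (.rel (nat_lit 34896609348)) .nil)))) (.cons (.br (nat_lit 1) (.cons (.rel (nat_lit 17196779520)) (.cons (.rel (nat_lit 17213947968)) (.cons (.rel (nat_lit 17196779520)) (.cons (.rel (nat_lit 34376777856)) (.cons (.rel (nat_lit 17196650505)) (.cons (.rel (nat_lit 34393359360)) .nil))))))) .nil))) (.node .leaf (nat_lit 3081298207601401) (.br (nat_lit 1) (.cons (.br (nat_lit 2) (.cons (.rel (nat_lit 100665600)) .nil)) .nil)) .leaf))) (nat_lit 3081299339847855) (.br (nat_lit 2) (.cons (.br (nat_lit 6) (.cons (.rel (nat_lit 34493956356)) (.cons (.rel (nat_lit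 17246978568)) (.cons (.rel (nat_lit 34493956356)) .nil)))) .nil)) (.node (.node (.node .leaf (nat_lit 3081299340062895) (.br (nat_lit 6) (.cons (.br (nat_lit 2) (.cons (.rel (nat_lit 17246986260)) (.cons (.rel (nat_lit 17248092288)) .nil))) .nil)) .leaf) (nat_lit 3081299340830895) (.br (nat_lit 0) (.cons (.br (nat_lit 3) (.cons (.rel (nat_lit 272639121)) .nil)) .nil)) (.node .leaf (nat_lit 3081299340881981) (.br (nat_lit 1) (.cons (.br (nat_lit 3) (.cons (.rel (nat_lit 285214977)) .nil)) .nil)) .leaf)) (nat_lit 3084261735035157) (.br (nat_lit 0) (.cons (.br (nat_lit 3) (.cons (.rel (nat_lit 274743300)) .nil)) .nil)) (.node (.node .leaf (nat_lit 3089817290657967) (.br (nat_lit 3) (.cons (.br (nat_lit 6) (.cons (.rel (nat_lit 34628173842)) .nil)) .nil)) .leaf) (nat_lit 3167669881141880) (.br (nat_lit 0) (.cons (.br (nat_lit 2) (.cons (.rel (nat_lit 142671888)) (.cons (.rel (nat_lit 71369217)) .nil))) .nil)) .leaf))))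

/-- refutations 7 -/
def e7 : EX := (.node (.node (.node .leaf (nat_lit 3267699786916025) (.br (nat_lit 1) (.cons (.br (nat_lit 2) (.cons (.rel (nat_lit 84934665)) .nil)) .nil)) .leaf) (nat_lit 4585823760621056) (.br (nat_lit 2) (.cons (.br (nat_lit 3) (.cons (.rel (nat_lit 335548674)) .nil)) .nil)) .leaf) (nat_lit 4587371962112175) (.br (nat_lit 0) (.cons (.br (nat_lit 6) (.cons (.rel (nat_lit 34363998213)) .nil)) .nil)) (.node .leaf (nat_lit 4587371963833830) (.br (nat_lit 0) (.cons (.br (nat_lit 1) (.cons (.rel (nat_lit 20973573)) .nil)) .nil)) .leaf))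

/-- refutations 8 -/
def e8 : EX := (.node (.node (.node (.node .leaf (nat_lit 4839016278251770) (.br (nat_lit 5) (.cons (.br (nat_lit 2) (.cons (.rel (nat_lit 4429189392)) (.cons (.rel (nat_lit 4429189392)) .nil))) .nil)) .leaf) (nat_lit 4925815241288985) (.br (nat_lit 2) (.cons (.br (nat_lit 0) (.cons (.rel (nat_lit 71567424)) (.cons (.rel (nat_lit 71321088)) .nil))) .nil)) (.node .leaf (nat_lit 4926244360285715) (.br (nat_lit 0) (.cons (.br (nat_lit 1) (.cons (.rel (nat_lit 41943060)) .nil)) .nil)) .leaf)) (nat_lit 4928262992149112) (.br (nat_lit 4) (.cons (.br (nat_lit 2) (.cons (.rel (nat_lit 2281721856)) (.cons (.rel (nat_lit 1140851733)) .nil))) .nil)) (.node (.node .leaf (nat_lit 4928262992149730) (.br (nat_lit 2) (.cons (.br (nat_lit 4) (.cons (.rel (nat_lit 2215641345)) .nil)) .nil)) .leaf) (nat_lit 4928262992149891) (.br (nat_lit 1) (.cons (.br (nat_lit 2) (.cons (.rel (nat_lit 101974032)) (.cons (.rel (nat_lit 85004304)) .nil))) .nil)) .leaf)) (nat_lit 4928262992151160) (.br (nat_lit 0) (.cons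 (.br (nat_lit 1) (.cons (.rel (nat_lit 20993025)) .nil)) .nil)) (.node (.node (.node .leaf (nat_lit 4928262992152083) (.br (nat_lit 2) (.cons (.br (nat_lit 4) (.cons (.rel (nat_lit 1140891648)) .nil)) .nil)) .leaf) (nat_lit 4928262994597395) (.br (nat_lit 0) (.cons (.br (nat_lit 3) (.cons (.rel (nat_lit 273686592)) .nil)) .nil)) .leaf) (nat_lit 4928262994955490) (.br (nat_lit 2) (.cons (.br (nat_lit 3) (.cons (.rel (nat_lit 335554560)) .nil)) .nil)) (.node (.node .leaf (nat_lit 4928262995109270) (.br (nat_lit 0) (.cons (.br (nat_lit 1) (.cons (.rel (nat_lit 22020225)) .nil)) .nil)) .leaf) (nat_lit 4928263579351825) (.br (nat_lit 5) (.cons (.br (nat_lit 4) (.cons (.rel (nat_lit 10737423360)) (.cons (.rel (nat_lit 5368844304)) .nil))) .nil)) .leaf)))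

/-- refutations 9 -/
def e9 : EX := (.node (.node (.node (.node .leaf (nat_lit 4948821180269175) (.br (nat_lit 0) (.cons (.br (nat_lit 1) (.cons (.rel (nat_lit 22086048)) .nil)) .nil)) .leaf) (nat_lit 4949941998961271) (.br (nat_lit 0) (.cons (.br (nat_lit 3) (.cons (.rel (nat_lit 272647296)) (.cons (.rel (nat_lit 541065732)) (.cons (.rel (nat_lit 541073424)) .nil)))) (.cons (.br (nat_lit 2) (.cons (.rel (nat_lit 71304453)) (.cons (.rel (nat_lit 71323905)) .nil))) .nil))) .leaf) (nat_lit 4949941998962195) (.br (nat_lit 0) (.cons (.br (nat_lit 3) (.cons (.rel (nat_lit 272647296)) (.cons (.rel (nat_lit 541065732)) (.cons (.rel (nat_lit 541073424)) .nil)))) .nil)) (.node .leaf (nat_lit 4949947560609299) (.br (nat_lit 0) (.cons (.br (nat_lit 6) (.cons (.rel (nat_lit 17184070017)) .nil)) .nil)) .leaf)) (nat_lit 4949955605284371) (.br (nat_lit 0) (.cons (.br (nat_lit 2) (.cons (.rel (nat_lit 71304453)) .nil)) .nil)) (.node (.node (.node .leaf (nat_lit 4949955608368660) (.br (nat_lit 0) (.cons (.br (nat_lit 1)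 (.cons (.rel (nat_lit 20993025)) .nil)) .nil)) .leaf) (nat_lit 4967539745470476) (.br (nat_lit 0) (.cons (.br (nat_lit 2) (.cons (.rel (nat_lit 71309328)) .nil)) .nil)) .leaf) (nat_lit 4967539745471399) (.br (nat_lit 2) (.cons (.br (nat_lit 0) (.cons (.br (nat_lit 1) (.cons (.rel (nat_lit 83888193)) (.cons (.br (nat_lit 6) (.cons (.rel (nat_lit 17196779520)) (.cons (.rel (nat_lit 17188259088)) .nil))) .nil))) (.cons (.rel (nat_lit 71309328)) .nil))) .nil)) (.node .leaf (nat_lit 4967539745471875) (.br (nat_lit 0) (.cons (.br (nat_lit 2) (.cons (.br (nat_lit 6) (.cons (.rel (nat_lit 34426864704)) .nil)) .nil)) .nil)) .leaf)))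

/-- refutations 10 -/
def e10 : EX := (.node (.node (.node .leaf (nat_lit 5019400606014316) (.br (nat_lit 0) (.cons (.br (nat_lit 3) (.cons (.rel (nat_lit 541132800)) .nil)) .nil)) .leaf) (nat_lit 5019400607098941) (.br (nat_lit 0) (.cons (.br (nat_lit 3) (.cons (.rel (nat_lit 541132800)) .nil)) .nil)) (.node .leaf (nat_lit 5020522561127700) (.br (nat_lit 0) (.cons (.br (nat_lit 1) (.cons (.rel (nat_lit 21038337)) .nil)) .nil)) .leaf)) (nat_lit 5027174496820076) (.br (nat_lit 0) (.cons (.br (nat_lit 6) (.cons (.rel (nat_lit 17184359424)) .nil)) .nil)) (.node (.node .leaf (nat_lit 5027174497904701) (.br (nat_lit 2) (.cons (.br (nat_lit 1) (.cons (.rel (nat_lit 150996480)) (.cons (.rel (nat_lit 83886180)) (.cons (.rel (nat_lit 150996480)) (.cons (.rel (nat_lit 151060488)) (.cons (.rel (nat_lit 150996480)) .nil)))))) .nil)) .leaf) (nat_lit 5476768249042976) (.br (nat_lit 0) (.cons (.br (nat_lit 1) (.cons (.rel (nat_lit 21041154)) .nil)) .nil)) (.node .leaf (nat_lit 5482432446881174) (.br (nat_lit 1) (.cons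 (.br (nat_lit 4) (.cons (.rel (nat_lit 1090519560)) .nil)) .nil)) .leaf)))

/-- refutations 11 -/
def e11 : EX := (.node (.node (.node .leaf (nat_lit 11190992712034959) (.br (nat_lit 1) (.cons (.br (nat_lit 6) (.cons (.rel (nat_lit 17196728322)) .nil)) .nil)) .leaf) (nat_lit 11190992712077967) (.br (nat_lit 3) (.cons (.br (nat_lit 4) (.cons (.rel (nat_lit 2684420160)) .nil)) .nil)) .leaf) (nat_lit 11190996374420761) (.br (nat_lit 0) (.cons (.br (nat_lit 4) (.cons (.rel (nat_lit 2151682068)) .nil)) .nil)) (.node .leaf (nat_lit 11194225753887521) (.br (nat_lit 1) (.cons (.br (nat_lit 4) (.cons (.rel (nat_lit 1090519560)) .nil)) .nil)) .leaf))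

/-- refutations 12 -/
def e12 : EX := (.node (.node (.node (.node .leaf (nat_lit 11435372856866073) (.br (nat_lit 0) (.cons (.br (nat_lit 6) (.cons (.rel (nat_lit 17188262916)) .nil)) .nil)) .leaf) (nat_lit 11435372859864345) (.br (nat_lit 0) (.cons (.br (nat_lit 4) (.cons (.rel (nat_lit 1078214661)) .nil)) .nil)) (.node .leaf (nat_lit 11437289663349612) (.br (nat_lit 1) (.cons (.br (nat_lit 4) (.cons (.rel (nat_lit 2164260933)) .nil)) .nil)) .leaf)) (nat_lit 11437289663692985) (.br (nat_lit 0) (.cons (.br (nat_lit 1) (.cons (.rel (nat_lit 20972562)) .nil)) .nil)) (.node (.node .leaf (nat_lit 11437586474548505) (.br (nat_lit 0) (.cons (.br (nat_lit 2) (.cons (.rel (nat_lit 76566528)) .nil)) .nil)) .leaf) (nat_lit 11437590143899805) (.br (nat_lit 1) (.cons (.br (nat_lit 2) (.cons (.rel (nat_lit 83886180)) .nil)) .nil)) .leaf)) (nat_lit 11440547569337625) (.br (nat_lit 0) (.cons (.br (nat_lit 1) (.cons (.rel (nat_lit 41943060)) .nil)) .nil)) (.node (.node (.node .leaf (nat_lit 11440547569388825) (.br (nat_lit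 0) (.cons (.br (nat_lit 3) (.cons (.rel (nat_lit 276856833)) .nil)) .nil)) .leaf) (nat_lit 11440547569603865) (.br (nat_lit 0) (.cons (.br (nat_lit 6) (.cons (.rel (nat_lit 17185128528)) (.cons (.rel (nat_lit 34368127296)) .nil))) .nil)) .leaf) (nat_lit 11446176409195801) (.br (nat_lit 0) (.cons (.br (nat_lit 6) (.cons (.rel (nat_lit 17184325908)) .nil)) .nil)) (.node (.node .leaf (nat_lit 11446752529685905) (.br (nat_lit 3) (.cons (.br (nat_lit 4) (.cons (.rel (nat_lit 2684420160)) .nil)) .nil)) .leaf) (nat_lit 11447164732673305) (.br (nat_lit 3) (.cons (.br (nat_lit 6) (.cons (.rel (nat_lit 17448304776)) .nil)) .nil)) .leaf)))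

/-- refutations 13 -/
def e13 : EX := (.node (.node .leaf (nat_lit 11453890777648640) (.br (nat_lit 0) (.cons (.br (nat_lit 1) (.cons (.rel (nat_lit 20971560)) .nil)) .nil)) .leaf) (nat_lit 11460266489758372) (.br (nat_lit 0) (.cons (.br (nat_lit 1) (.cons (.rel (nat_lit 20979972)) .nil)) .nil)) .leaf)

/-- refutations 14 -/
def e14 : EX := (.node (.node (.node (.node (.node .leaf (nat_lit 11877177509858585) (.br (nat_lit 0) (.cons (.br (nat_lit 1) (.cons (.rel (nat_lit 20971560)) .nil)) .nil)) .leaf) (nat_lit 11877177510257945) (.br (nat_lit 2) (.cons (.br (nat_lit 4) (.cons (.rel (nat_lit 1140850722)) (.cons (.rel (nat_lit 1140852744)) (.cons (.rel (nat_lit 1140852744)) .nil)))) .nil)) (.node .leaf (nat_lit 11880137469481636) (.br (nat_lit 2) (.cons (.br (nat_lit 4) (.cons (.rel (nat_lit 1140868368)) .nil)) .nil)) .leaf)) (nat_lit 11880137470997380) (.br (nat_lit 0) (.cons (.br (nat_lit 1) (.cons (.rel (nat_lit 20979972)) .nil)) .nil)) (.node (.node .leaf (nat_lit 11880137472030781) (.br (nat_lit 0)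 (.cons (.br (nat_lit 3) (.cons (.rel (nat_lit 272973840)) .nil)) .nil)) .leaf) (nat_lit 11885978625003582) (.br (nat_lit 2) (.cons (.br (nat_lit 3) (.cons (.rel (nat_lit 335561736)) .nil)) .nil)) .leaf)) (nat_lit 11885978625006244) (.br (nat_lit 4) (.cons (.br (nat_lit 6) (.cons (.rel (nat_lit 18253615236)) .nil)) .nil)) (.node (.node (.node .leaf (nat_lit 11885978625006245) (.br (nat_lit 0) (.cons (.br (nat_lit 6) (.cons (.rel (nat_lit 17184325908)) .nil)) .nil)) .leaf) (nat_lit 11885978625007628) (.br (nat_lit 0) (.cons (.br (nat_lit 1) (.cons (.rel (nat_lit 20979972)) .nil)) .nil)) (.node .leaf (nat_lit 11885978625008292) (.br (nat_lit 0) (.cons (.br (nat_lit 1) (.cons (.rel (nat_lit 20973573)) (.cons (.rel (nat_lit 41943060)) .nil))) .nil)) .leaf)) (nat_lit 11885978625009027) (.br (nat_lit 2) (.cons (.br (nat_lit 0) (.cons (.rel (nat_lit 71303442)) (.cons (.rel (nat_lit 71303442)) .nil))) .nil)) (.node (.node .leaf (nat_lit 11885978625566856) (.br (nat_lit 0) (.cons (.br (nat_lit 4) (.cons (.rel (nat_lit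 2151678240)) .nil)) .nil)) .leaf) (nat_lit 11885978625568230) (.br (nat_lit 0) (.cons (.br (nat_lit 4) (.cons (.rel (nat_lit 1082138664)) .nil)) .nil)) .leaf))) (nat_lit 11885978626315545) (.br (nat_lit 3) (.cons (.br (nat_lit 4) (.cons (.rel (nat_lit 2415927300)) .nil)) .nil)) (.node (.node (.node (.node .leaf (nat_lit 11885978626519716) (.br (nat_lit 0) (.cons (.br (nat_lit 3) (.cons (.rel (nat_lit 272897025)) .nil)) .nil)) .leaf) (nat_lit 11885978627547292) (.br (nat_lit 0) (.cons (.br (nat_lit 2) (.cons (.rel (nat_lit 71567424)) .nil)) .nil)) (.node .leaf (nat_lit 11885978627547812) (.br (nat_lit 0) (.cons (.br (nat_lit 6) (.cons (.rel (nat_lit 17184325908)) (.cons (.rel (nat_lit 17188262916)) .nil))) .nil)) .leaf)) (nat_lit 11885978627605156) (.br (nat_lit 2) (.cons (.br (nat_lit 6) (.cons (.rel (nat_lit 17246978568)) .nil)) .nil)) (.node (.node .leaf (nat_lit 11885978627609252) (.br (nat_lit 0) (.cons (.br (nat_lit 2) (.cons (.rel (nat_lit 71304453)) .nil)) .nil)) .leaf) (nat_lit 11885978627655816)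 (.br (nat_lit 0) (.cons (.br (nat_lit 2) (.cons (.rel (nat_lit 71303442)) .nil)) .nil)) .leaf)) (nat_lit 11885981163868221) (.br (nat_lit 0) (.cons (.br (nat_lit 3) (.cons (.rel (nat_lit 272973840)) .nil)) .nil)) (.node (.node (.node .leaf (nat_lit 11885981164073886) (.br (nat_lit 3) (.cons (.br (nat_lit 4) (.cons (.rel (nat_lit 1343226180)) .nil)) .nil)) .leaf) (nat_lit 11885981165107261) (.br (nat_lit 3) (.cons (.br (nat_lit 6) (.cons (.rel (nat_lit 34628174853)) .nil)) .nil)) .leaf) (nat_lit 11885981165163173) (.br (nat_lit 0) (.cons (.br (nat_lit 2) (.cons (.rel (nat_lit 71567424)) .nil)) .nil)) (.node (.node .leaf (nat_lit 11887870949684755) (.br (nat_lit 1) (.cons (.br (nat_lit 3) (.cons (.rel (nat_lit 553649472)) .nil)) .nil)) .leaf) (nat_lit 11887874187687443) (.br (nat_lit 0) (.cons (.br (nat_lit 1) (.cons (.rel (nat_lit 21041154)) .nil)) .nil)) .leaf))))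

/-- refutations 15 -/
def e15 : EX := (.node (.node (.node (.node (.node .leaf (nat_lit 11915765154443326) (.br (nat_lit 2) (.cons (.br (nat_lit 4) (.cons (.rel (nat_lit 2281701393)) .nil)) .nil)) .leaf) (nat_lit 11921171591221925) (.br (nat_lit 0) (.cons (.br (nat_lit 2) (.cons (.rel (nat_lit 71307270)) (.cons (.rel (nat_lit 138412164)) (.cons (.rel (nat_lit 72613896)) .nil)))) (.cons (.br (nat_lit 3) (.cons (.rel (nat_lit 276828192)) (.cons (.rel (nat_lit 276824328)) (.cons (.rel (nat_lit 541065732)) (.cons (.rel (nat_lit 541073424)) (.cons (.rel (nat_lit 541073424)) (.cons (.rel (nat_lit 276956160)) .nil))))))) .nil))) .leaf) (nat_lit 11921171591223308) (.br (nat_lit 0) (.cons (.br (nat_lit 2) (.cons (.rel (nat_lit 72354177)) .nil)) .nil)) (.node .leaf (nat_lit 11921171591224707) (.br (nat_lit 2) (.cons (.br (nat_lit 5) (.cons (.rel (nat_lit 8657043732)) .nil)) .nil)) .leaf)) (nat_lit 11921171591226021) (.br (nat_lit 0) (.cons (.br (nat_lit 6) (.cons (.rel (nat_lit 17184329736)) (.cons (.rel (nat_lit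 34368127296)) .nil))) .nil)) (.node (.node (.node .leaf (nat_lit 11921171592741764) (.br (nat_lit 2) (.cons (.br (nat_lit 4) (.cons (.rel (nat_lit 2281767168)) .nil)) .nil)) .leaf) (nat_lit 11921171592742371) (.br (nat_lit 0) (.cons (.br (nat_lit 3) (.cons (.rel (nat_lit 541065732)) .nil)) .nil)) .leaf) (nat_lit 11921171592843941) (.br (nat_lit 0) (.cons (.br (nat_lit 2) (.cons (.rel (nat_lit 71307270)) .nil)) .nil)) (.node .leaf (nat_lit 11921171593760925) (.br (nat_lit 0) (.cons (.br (nat_lit 2) (.cons (.rel (nat_lit 71304453)) (.cons (.rel (nat_lit 71307270)) .nil))) (.cons (.br (nat_lit 2) (.cons (.rel (nat_lit 71304453)) (.cons (.rel (nat_lit 71321088)) .nil))) .nil))) .leaf))) (nat_lit 11921171593761399) (.br (nat_lit 0) (.cons (.br (nat_lit 6) (.cons (.rel (nat_lit 17185636353)) .nil)) .nil)) (.node (.node (.node (.node .leaf (nat_lit 11921171593824933) (.br (nat_lit 6) (.cons (.br (nat_lit 0) (.cons (.rel (nat_lit 34368127296)) (.cons (.rel (nat_lit 34363949073)) .nil))) .nil)) .leaf) (nat_lit 11921171593826316)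 (.br (nat_lit 0) (.cons (.br (nat_lit 2) (.cons (.rel (nat_lit 71567424)) .nil)) .nil)) .leaf) (nat_lit 11921171593826980) (.br (nat_lit 0) (.cons (.br (nat_lit 2) (.cons (.rel (nat_lit 71567424)) .nil)) .nil)) (.node .leaf (nat_lit 11921171593826981) (.br (nat_lit 2) (.cons (.br (nat_lit 0) (.cons (.rel (nat_lit 142671888)) (.cons (.rel (nat_lit 71307270)) .nil))) .nil)) .leaf)) (nat_lit 11921171594296721) (.br (nat_lit 0) (.cons (.br (nat_lit 3) (.cons (.rel (nat_lit 273022980)) .nil)) .nil)) (.node (.node .leaf (nat_lit 11921171594324903) (.br (nat_lit 2) (.cons (.br (nat_lit 4) (.cons (.rel (nat_lit 1208483904)) .nil)) .nil)) .leaf) (nat_lit 11921171594325379) (.br (nat_lit 2) (.cons (.br (nat_lit 5) (.cons (.rel (nat_lit 4362092865)) .nil)) .nil)) (.node .leaf (nat_lit 12079426577991855) (.br (nat_lit 0) (.cons (.br (nat_lit 3) (.cons (.rel (nat_lit 541081602)) .nil)) .nil)) .leaf))))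

/-- refutations 16 -/
def e16 : EX := (.node (.node (.node (.node (.node .leaf (nat_lit 13284549748429050) (.br (nat_lit 0) (.cons (.br (nat_lit 3) (.cons (.rel (nat_lit 276824328)) .nil)) .nil)) .leaf) (nat_lit 13284549853440935) (.br (nat_lit 2) (.cons (.br (nat_lit 3) (.cons (.rel (nat_lit 337657920)) .nil)) .nil)) .leaf) (nat_lit 13284549855806375) (.br (nat_lit 2) (.cons (.br (nat_lit 3) (.cons (.rel (nat_lit 605044752)) (.cons (.br (nat_lit 1) (.cons (.rel (nat_lit 687874176)) (.cons (.rel (nat_lit 285216792)) (.cons (.rel (nat_lit 83894592)) .nil)))) (.cons (.rel (nat_lit 335545857)) .nil)))) .nil)) (.node .leaf (nat_lit 13287729641502895) (.br (nat_lit 1) (.cons (.br (nat_lit 2) (.cons (.rel (nat_lit 84934665)) .nil)) .nil)) .leaf)) (nat_lit 13288844718239097) (.br (nat_lit 0) (.cons (.br (nat_lit 2) (.cons (.rel (nat_lit 71303442)) (.cons (.rel (nat_lit 71434272)) .nil))) .nil)) (.node (.node .leaf (nat_lit 13289848720607863) (.br (nat_lit 0) (.cons (.br (nat_lit 4) (.cons (.rel (nat_lit 1078264848))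 .nil)) .nil)) .leaf) (nat_lit 13293356046347651) (.br (nat_lit 0) (.cons (.br (nat_lit 1) (.cons (.br (nat_lit 4) (.cons (.br (nat_lit 5) (.cons (.rel (nat_lit 4299163668)) (.cons (.rel (nat_lit 5368719360)) .nil))) .nil)) .nil)) .nil)) (.node .leaf (nat_lit 13293356047943837) (.br (nat_lit 2) (.cons (.br (nat_lit 4) (.cons (.rel (nat_lit 1140872196)) (.cons (.rel (nat_lit 1140852744)) (.cons (.rel (nat_lit 1140872196)) .nil)))) .nil)) .leaf))) (nat_lit 13293356047944311) (.br (nat_lit 2) (.cons (.br (nat_lit 4) (.cons (.rel (nat_lit 1140872196)) (.cons (.rel (nat_lit 1140852744)) .nil))) .nil)) (.node (.node (.node (.node .leaf (nat_lit 13293356047947139) (.br (nat_lit 0) (.cons (.br (nat_lit 4) (.cons (.rel (nat_lit 2151940164)) .nil)) .nil)) .leaf) (nat_lit 13293359621490845) (.br (nat_lit 2) (.cons (.br (nat_lit 4) (.cons (.rel (nat_lit 1140872196)) (.cons (.rel (nat_lit 1140872196)) (.cons (.rel (nat_lit 1140920325)) (.cons (.rel (nat_lit 2281702404)) .nil))))) .nil)) .leaf) (nat_lit 13293359621491319)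 (.br (nat_lit 2) (.cons (.br (nat_lit 3) (.cons (.rel (nat_lit 335554560)) .nil)) .nil)) (.node .leaf (nat_lit 13294344268678055) (.br (nat_lit 2) (.cons (.br (nat_lit 6) (.cons (.rel (nat_lit 17248092288)) .nil)) .nil)) .leaf)) (nat_lit 13294344268893095) (.br (nat_lit 0) (.cons (.br (nat_lit 3) (.cons (.rel (nat_lit 541073424)) .nil)) .nil)) (.node (.node .leaf (nat_lit 13295245831958035) (.br (nat_lit 0) (.cons (.br (nat_lit 1) (.cons (.rel (nat_lit 22347780)) .nil)) .nil)) .leaf) (nat_lit 13295245833555320) (.br (nat_lit 0) (.cons (.br (nat_lit 3) (.cons (.rel (nat_lit 274743300)) .nil)) .nil)) (.node .leaf (nat_lit 13295246756301726) (.br (nat_lit 0) (.cons (.br (nat_lit 3) (.cons (.rel (nat_lit 272973840)) .nil)) .nil)) .leaf))))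

/-- refutations 17 -/
def e17 : EX := (.node (.node (.node .leaf (nat_lit 13639575939338415) (.br (nat_lit 0) (.cons (.br (nat_lit 2) (.cons (.br (nat_lit 3) (.cons (.rel (nat_lit 276856833)) (.cons (.br (nat_lit 5) (.cons (.rel (nat_lit 4563435528)) (.cons (.rel (nat_lit 4363124760)) .nil))) .nil))) (.cons (.rel (nat_lit 71307270)) .nil))) .nil)) .leaf) (nat_lit 13639575939338895) (.br (nat_lit 0) (.cons (.br (nat_lit 2) (.cons (.br (nat_lit 3) (.cons (.rel (nat_lit 605093892)) .nil)) .nil)) .nil)) .leaf) (nat_lit 13645799575316655) (.br (nat_lit 0) (.cons (.br (nat_lit 2) (.cons (.rel (nat_lit 71335956)) .nil)) .nil)) (.node .leaf (nat_lit 13645799576248495) (.br (nat_lit 0) (.cons (.br (nat_lit 2) (.cons (.rel (nat_lit 71335956)) (.cons (.rel (nat_lit 71335956)) .nil))) .nil)) .leaf))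

/-- refutations 18 -/
def e18 : EX := (.node (.node (.node .leaf (nat_lit 13727534185544985) (.br (nat_lit 0) (.cons (.br (nat_lit 6) (.cons (.rel (nat_lit 17184325908)) (.cons (.rel (nat_lit 17185128528)) .nil))) (.cons (.br (nat_lit 5) (.cons (.rel (nat_lit 4303880208)) (.cons (.rel (nat_lit 8598323205)) (.cons (.rel (nat_lit 8598339840)) .nil)))) .nil))) .leaf) (nat_lit 13727534187859225) (.br (nat_lit 3) (.cons (.br (nat_lit 4) (.cons (.rel (nat_lit 1344278529)) (.cons (.rel (nat_lit 1610616840)) .nil))) .nil)) .leaf) (nat_lit 13734151666300185) (.br (nat_lit 0) (.cons (.br (nat_lit 2) (.cons (.rel (nat_lit 71321088)) .nil)) .nil)) (.node .leaf (nat_lit 13751326699453351) (.br (nat_lit 0) (.cons (.br (nat_lit 4) (.cons (.rel (nat_lit 1082195970)) .nil)) .nil)) .leaf))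

/-- refutations 19 -/
def e19 : EX := (.node (.node (.node (.node .leaf (nat_lit 13759755137273065) (.br (nat_lit 0) (.cons (.br (nat_lit 1) (.cons (.rel (nat_lit 20976144)) .nil)) .nil)) .leaf) (nat_lit 13812316944845725) (.br (nat_lit 0) (.cons (.br (nat_lit 2) (.cons (.rel (nat_lit 71335956)) .nil)) .nil)) .leaf) (nat_lit 13812316944989686) (.br (nat_lit 0) (.cons (.br (nat_lit 3) (.cons (.rel (nat_lit 541132800)) .nil)) .nil)) (.node (.node .leaf (nat_lit 13812316946330385) (.br (nat_lit 0) (.cons (.br (nat_lit 4) (.cons (.rel (nat_lit 1078264848)) .nil)) .nil)) .leaf) (nat_lit 13812316947027230) (.br (nat_lit 2) (.cons (.br (nat_lit 4) (.cons (.rel (nat_lit 2281701393)) (.cons (.rel (nat_lit 1140891648)) (.cons (.rel (nat_lit 2281702404)) .nil)))) .nil)) .leaf)) (nat_lit 13812316947385105) (.br (nat_lit 5) (.cons (.br (nat_lit 0) (.cons (.rel (nat_lit 4303880208)) (.cons (.rel (nat_lit 8594391072)) .nil))) .nil)) (.node (.node (.node .leaf (nat_lit 13812316947385830) (.br (nat_lit 1) (.cons (.br (nat_lit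 2) (.cons (.rel (nat_lit 83888193)) (.cons (.rel (nat_lit 100668417)) .nil))) .nil)) .leaf) (nat_lit 13812316947405431) (.br (nat_lit 4) (.cons (.br (nat_lit 6) (.cons (.rel (nat_lit 18255249408)) .nil)) .nil)) .leaf) (nat_lit 13812316947549590) (.br (nat_lit 6) (.cons (.br (nat_lit 1) (.cons (.rel (nat_lit 17196779520)) (.cons (.rel (nat_lit 17196779520)) .nil))) .nil)) (.node (.node .leaf (nat_lit 13812319964744990) (.br (nat_lit 0) (.cons (.br (nat_lit 3) (.cons (.rel (nat_lit 541065732)) .nil)) .nil)) .leaf) (nat_lit 13815538171852975) (.br (nat_lit 1) (.cons (.br (nat_lit 3) (.cons (.rel (nat_lit 304152576)) .nil)) .nil)) .leaf)))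

/-- refutations 20 -/
def e20 : EX := (.node (.node (.node (.node (.node .leaf (nat_lit 14074823753555326) (.br (nat_lit 0) (.cons (.br (nat_lit 6) (.cons (.rel (nat_lit 17184359424)) .nil)) .nil)) .leaf) (nat_lit 14074823754640236) (.br (nat_lit 0) (.cons (.br (nat_lit 6) (.cons (.rel (nat_lit 17184359424)) .nil)) .nil)) (.node .leaf (nat_lit 14074827820359741) (.br (nat_lit 0) (.cons (.br (nat_lit 3) (.cons (.rel (nat_lit 541132800)) .nil)) .nil)) .leaf)) (nat_lit 14074827823115116) (.br (nat_lit 0) (.cons (.br (nat_lit 3) (.cons (.rel (nat_lit 541132800)) .nil)) .nil)) (.node (.node .leaf (nat_lit 14076113837579646) (.br (nat_lit 0) (.cons (.br (nat_lit 1) (.cons (.rel (nat_lit 20972562)) .nil)) .nil)) .leaf) (nat_lit 14076199735204025) (.br (nat_lit 0) (.cons (.br (nat_lit 2) (.cons (.rel (nat_lit 71303442)) .nil)) .nil)) (.node .leaf (nat_lit 14076199735491865) (.br (nat_lit 0) (.cons (.br (nat_lit 5) (.cons (.rel (nat_lit 8598323205)) .nil)) .nil)) .leaf))) (nat_lit 14076199735514499) (.br (nat_lit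 0) (.cons (.br (nat_lit 1) (.cons (.rel (nat_lit 25690113)) .nil)) .nil)) (.node (.node (.node .leaf (nat_lit 14076199736720665) (.br (nat_lit 0) (.cons (.br (nat_lit 1) (.cons (.rel (nat_lit 20972562)) .nil)) .nil)) .leaf) (nat_lit 14076199736924345) (.br (nat_lit 1) (.cons (.br (nat_lit 2) (.cons (.br (nat_lit 0) (.cons (.rel (nat_lit 139461696)) (.cons (.rel (nat_lit 156241920)) (.cons (.rel (nat_lit 26280960)) .nil)))) .nil)) .nil)) (.node .leaf (nat_lit 14076199736924836) (.br (nat_lit 1) (.cons (.br (nat_lit 2) (.cons (.br (nat_lit 3) (.cons (.rel (nat_lit 335679504)) (.cons (.br (nat_lit 5) (.cons (.rel (nat_lit 4563403014)) (.cons (.rel (nat_lit 4362146880)) .nil))) .nil))) (.cons (.br (nat_lit 5) (.cons (.rel (nat_lit 4364451840)) (.cons (.rel (nat_lit 4363125762)) .nil))) .nil))) .nil)) .leaf)) (nat_lit 14076199738204821) (.br (nat_lit 0) (.cons (.br (nat_lit 2) (.cons (.rel (nat_lit 71309328)) .nil)) .nil)) (.node (.node .leaf (nat_lit 14079163264358575) (.br (nat_lit 0) (.cons (.br (nat_lit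 1) (.cons (.rel (nat_lit 20976144)) .nil)) .nil)) .leaf) (nat_lit 14079166284258530) (.br (nat_lit 0) (.cons (.br (nat_lit 2) (.cons (.rel (nat_lit 71307270)) .nil)) .nil)) .leaf))) (nat_lit 14079376418888581) (.br (nat_lit 1) (.cons (.br (nat_lit 3) (.cons (.rel (nat_lit 570429696)) .nil)) .nil)) (.node (.node (.node (.node .leaf (nat_lit 14079376418889086) (.br (nat_lit 3) (.cons (.br (nat_lit 0) (.cons (.rel (nat_lit 272924712)) (.cons (.rel (nat_lit 541132800)) .nil))) .nil)) .leaf) (nat_lit 14079376419973996) (.br (nat_lit 0) (.cons (.br (nat_lit 3) (.cons (.rel (nat_lit 541132800)) .nil)) .nil)) (.node .leaf (nat_lit 14079376420244862) (.br (nat_lit 0) (.cons (.br (nat_lit 3) (.cons (.rel (nat_lit 276856833)) .nil)) .nil)) .leaf)) (nat_lit 14079378011003016) (.br (nat_lit 0) (.cons (.br (nat_lit 1) (.cons (.rel (nat_lit 22298640)) .nil)) .nil)) (.node (.node .leaf (nat_lit 14081485124476261) (.br (nat_lit 1) (.cons (.br (nat_lit 3) (.cons (.rel (nat_lit 285360384)) .nil)) .nil)) .leaf) (nat_lit 14081485127331901)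 (.br (nat_lit 0) (.cons (.br (nat_lit 2) (.cons (.rel (nat_lit 71567424)) .nil)) .nil)) (.node .leaf (nat_lit 14085608735202185) (.br (nat_lit 1) (.cons (.br (nat_lit 2) (.cons (.rel (nat_lit 83888193)) .nil)) .nil)) .leaf))) (nat_lit 14085992260824350) (.br (nat_lit 0) (.cons (.br (nat_lit 3) (.cons (.rel (nat_lit 276956160)) .nil)) .nil)) (.node (.node (.node .leaf (nat_lit 14085992260946855) (.br (nat_lit 0) (.cons (.br (nat_lit 1) (.cons (.rel (nat_lit 20972562)) .nil)) .nil)) .leaf) (nat_lit 14087154376499261) (.br (nat_lit 0) (.cons (.br (nat_lit 5) (.cons (.rel (nat_lit 4299194880)) (.cons (.br (nat_lit 6) (.cons (.rel (nat_lit 17184329736)) (.cons (.br (nat_lit 4) (.cons (.rel (nat_lit 2151678240)) (.cons (.rel (nat_lit 19327354368)) (.cons (.rel (nat_lit 35433482496)) .nil)))) .nil))) .nil))) .nil)) (.node .leaf (nat_lit 14087154376500760) (.br (nat_lit 0) (.cons (.br (nat_lit 1) (.cons (.rel (nat_lit 26280960)) .nil)) .nil)) .leaf)) (nat_lit 14087154378168975) (.br (nat_lit 2) (.cons (.br (nat_lit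 1) (.cons (.rel (nat_lit 84033600)) (.cons (.rel (nat_lit 84935712)) .nil))) .nil)) (.node (.node .leaf (nat_lit 14087154378169830) (.br (nat_lit 0) (.cons (.br (nat_lit 1) (.cons (.rel (nat_lit 20973573)) .nil)) .nil)) .leaf) (nat_lit 14087154379254636) (.br (nat_lit 0) (.cons (.br (nat_lit 3) (.cons (.br (nat_lit 6) (.cons (.rel (nat_lit 34896609348)) .nil)) .nil)) .nil)) .leaf))))

/-- refutations 21 -/
def e21 : EX := (.node (.node .leaf (nat_lit 14180848920447607) (.br (nat_lit 0) (.cons (.br (nat_lit 2) (.cons (.rel (nat_lit 71307270)) .nil)) .nil)) .leaf) (nat_lit 14191136169757598) (.br (nat_lit 0) (.cons (.br (nat_lit 1) (.cons (.rel (nat_lit 21041154)) .nil)) .nil)) .leaf)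

/-- refutations 22 -/
def e22 : EX := (.node (.node (.node (.node .leaf (nat_lit 15851637165073319) (.br (nat_lit 2) (.cons (.br (nat_lit 4) (.cons (.rel (nat_lit 1140868368)) .nil)) .nil)) .leaf) (nat_lit 15851654226703271) (.br (nat_lit 4) (.cons (.br (nat_lit 2) (.cons (.rel (nat_lit 2281702404)) (.cons (.rel (nat_lit 1140857376)) .nil))) .nil)) (.node .leaf (nat_lit 15851654227501991) (.br (nat_lit 0) (.cons (.br (nat_lit 2) (.cons (.rel (nat_lit 71309328)) (.cons (.rel (nat_lit 71323905)) .nil))) (.cons (.br (nat_lit 2) (.cons (.br (nat_lit 3) (.cons (.rel (nat_lit 335679504)) (.cons (.rel (nat_lit 272897025)) (.cons (.rel (nat_lit 541132800)) .nil)))) (.cons (.rel (nat_lit 71307270)) .nil))) .nil))) .leaf)) (nat_lit 15851654228945052) (.br (nat_lit 0) (.cons (.br (nat_lit 1) (.cons (.rel (nat_lit 20990208)) .nil)) .nil)) (.node (.node .leaf (nat_lit 15853011554607361) (.br (nat_lit 1) (.cons (.br (nat_lit 0) (.cons (.rel (nat_lit 20976144)) (.cons (.rel (nat_lit 41943060)) .nil))) .nil)) .leaf) (nat_lit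 15853011554607735) (.br (nat_lit 2) (.cons (.br (nat_lit 4) (.cons (.rel (nat_lit 1142968392)) .nil)) .nil)) .leaf)) (nat_lit 15853011554608029) (.br (nat_lit 1) (.cons (.br (nat_lit 4) (.cons (.rel (nat_lit 1090523424)) .nil)) .nil)) (.node (.node (.node .leaf (nat_lit 15853011554608039) (.br (nat_lit 2) (.cons (.br (nat_lit 6) (.cons (.rel (nat_lit 17246994438)) .nil)) .nil)) .leaf) (nat_lit 15853011554608510) (.br (nat_lit 1) (.cons (.br (nat_lit 2) (.cons (.rel (nat_lit 84414468)) .nil)) .nil)) (.node .leaf (nat_lit 15853011554608515) (.br (nat_lit 0) (.cons (.br (nat_lit 3) (.cons (.rel (nat_lit 541081602)) (.cons (.rel (nat_lit 272973840)) .nil))) (.cons (.br (nat_lit 5) (.cons (.rel (nat_lit 4303880208)) (.cons (.rel (nat_lit 4299161610)) .nil))) .nil))) .leaf)) (nat_lit 15858174125513990) (.br (nat_lit 0) (.cons (.br (nat_lit 2) (.cons (.rel (nat_lit 71369217)) .nil)) .nil)) (.node (.node .leaf (nat_lit 15858566622045667) (.br (nat_lit 0) (.cons (.br (nat_lit 3) (.cons (.rel (nat_lit 541081602))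 (.cons (.rel (nat_lit 276824328)) .nil))) .nil)) .leaf) (nat_lit 15861821811794207) (.br (nat_lit 0) (.cons (.br (nat_lit 1) (.cons (.rel (nat_lit 22020225)) .nil)) .nil)) .leaf)))

/-- refutations 23 -/
def e23 : EX := (.node (.node (.node (.node .leaf (nat_lit 16009342320137579) (.br (nat_lit 2) (.cons (.br (nat_lit 3) (.cons (.rel (nat_lit 335679504)) .nil)) .nil)) .leaf) (nat_lit 16009342320208503) (.br (nat_lit 4) (.cons (.br (nat_lit 5) (.cons (.rel (nat_lit 5368710657)) .nil)) .nil)) (.node .leaf (nat_lit 16010269166439705) (.br (nat_lit 3) (.cons (.br (nat_lit 5) (.cons (.rel (nat_lit 4563435528)) .nil)) .nil)) .leaf)) (nat_lit 16016621018799005) (.br (nat_lit 2) (.cons (.br (nat_lit 4) (.cons (.rel (nat_lit 1140850722)) .nil)) .nil)) (.node (.node .leaf (nat_lit 16016621020386585) (.br (nat_lit 0) (.cons (.br (nat_lit 3) (.cons (.rel (nat_lit 276856833)) (.cons (.rel (nat_lit 274743300)) .nil))) .nil)) .leaf) (nat_lit 16020145470760965) (.br (nat_lit 0) (.cons (.br (nat_lit 2) (.cons (.rel (nat_lit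 71369217)) .nil)) .nil)) (.node .leaf (nat_lit 16022035257191800) (.br (nat_lit 0) (.cons (.br (nat_lit 4) (.cons (.rel (nat_lit 1078231296)) .nil)) .nil)) .leaf))) (nat_lit 16028935956819970) (.br (nat_lit 2) (.cons (.br (nat_lit 3) (.cons (.rel (nat_lit 402653568)) .nil)) .nil)) (.node (.node (.node .leaf (nat_lit 16038313183244600) (.br (nat_lit 1) (.cons (.br (nat_lit 2) (.cons (.rel (nat_lit 100665600)) .nil)) .nil)) .leaf) (nat_lit 16044518093978232) (.br (nat_lit 3) (.cons (.br (nat_lit 4) (.cons (.rel (nat_lit 1342308480)) .nil)) .nil)) (.node .leaf (nat_lit 16045168275729319) (.br (nat_lit 0) (.cons (.br (nat_lit 2) (.cons (.rel (nat_lit 71335956)) .nil)) .nil)) .leaf)) (nat_lit 16045169990994095) (.br (nat_lit 0) (.cons (.br (nat_lit 1) (.cons (.rel (nat_lit 20972562)) .nil)) .nil)) (.node (.node .leaf (nat_lit 16051822575055004) (.br (nat_lit 3) (.cons (.br (nat_lit 5) (.cons (.rel (nat_lit 4563408900)) .nil)) .nil)) .leaf) (nat_lit 16051822576573692) (.br (nat_lit 0) (.cons (.br (nat_lit 1)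 (.cons (.rel (nat_lit 20971560)) .nil)) .nil)) .leaf)))

/-- refutations 25 -/
def e25 : EX := (.node (.node (.node (.node (.node (.node .leaf (nat_lit 16450246147300229) (.br (nat_lit 0) (.cons (.br (nat_lit 5) (.cons (.rel (nat_lit 8594133120)) .nil)) .nil)) .leaf) (nat_lit 16451144851233045) (.br (nat_lit 0) (.cons (.br (nat_lit 3) (.cons (.rel (nat_lit 272897025)) .nil)) .nil)) .leaf) (nat_lit 16451144853750695) (.br (nat_lit 2) (.cons (.br (nat_lit 3) (.cons (.rel (nat_lit 337657920)) (.cons (.rel (nat_lit 671093760)) .nil))) .nil)) (.node .leaf (nat_lit 16454558294466019) (.br (nat_lit 1) (.cons (.br (nat_lit 6) (.cons (.rel (nat_lit 17196663312)) .nil)) .nil)) .leaf)) (nat_lit 16459947542109585) (.br (nat_lit 1) (.cons (.br (nat_lit 2) (.cons (.rel (nat_lit 83888193)) .nil)) .nil)) (.node (.node .leaf (nat_lit 16459947542365065) (.br (nat_lit 0) (.cons (.br (nat_lit 3) (.cons (.rel (nat_lit 272973840)) .nil)) .nil)) .leaf) (nat_lit 16459947543092081) (.br (nat_lit 1) (.cons (.br (nat_lit 2) (.cons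 (.rel (nat_lit 83888193)) .nil)) .nil)) (.node .leaf (nat_lit 16459950562007975) (.br (nat_lit 0) (.cons (.br (nat_lit 2) (.cons (.rel (nat_lit 71321088)) .nil)) .nil)) .leaf))) (nat_lit 16459950562263975) (.br (nat_lit 2) (.cons (.br (nat_lit 4) (.cons (.rel (nat_lit 1140920325)) (.cons (.rel (nat_lit 1210122273)) .nil))) .nil)) (.node (.node (.node .leaf (nat_lit 16459950562990981) (.br (nat_lit 3) (.cons (.br (nat_lit 4) (.cons (.rel (nat_lit 1342308480)) .nil)) .nil)) .leaf) (nat_lit 16459950562991015) (.br (nat_lit 4) (.cons (.br (nat_lit 5) (.cons (.rel (nat_lit 5368710657)) .nil)) .nil)) (.node .leaf (nat_lit 16459950562991366) (.br (nat_lit 2) (.cons (.br (nat_lit 6) (.cons (.rel (nat_lit 17246982432)) .nil)) .nil)) .leaf)) (nat_lit 16459950564520812) (.br (nat_lit 0) (.cons (.br (nat_lit 2) (.cons (.rel (nat_lit 71304453)) .nil)) .nil)) (.node (.node .leaf (nat_lit 16459950564578215) (.br (nat_lit 1) (.cons (.br (nat_lit 5) (.cons (.rel (nat_lit 4312858644)) (.cons (.rel (nat_lit 4328521746)) .nil)))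 (.cons (.br (nat_lit 2) (.cons (.rel (nat_lit 83888193)) (.cons (.rel (nat_lit 84033600)) (.cons (.rel (nat_lit 84410640)) .nil)))) .nil))) .leaf) (nat_lit 16459950564813735) (.br (nat_lit 2) (.cons (.br (nat_lit 1) (.cons (.rel (nat_lit 84934665)) (.cons (.rel (nat_lit 84410640)) .nil))) .nil)) (.node .leaf (nat_lit 16459950564814225) (.br (nat_lit 0) (.cons (.br (nat_lit 2) (.cons (.rel (nat_lit 71304453)) .nil)) .nil)) .leaf)))) (nat_lit 16460937376667925) (.br (nat_lit 5) (.cons (.br (nat_lit 6) (.cons (.rel (nat_lit 21474836772)) .nil)) .nil)) (.node (.node (.node (.node .leaf (nat_lit 16460937376668583) (.br (nat_lit 1) (.cons (.br (nat_lit 3) (.cons (.rel (nat_lit 285216792)) .nil)) .nil)) .leaf) (nat_lit 16460937376840615) (.br (nat_lit 0) (.cons (.br (nat_lit 3) (.cons (.rel (nat_lit 272897025)) .nil)) .nil)) (.node .leaf (nat_lit 16460937378428185) (.br (nat_lit 2) (.cons (.br (nat_lit 4) (.cons (.rel (nat_lit 1141899396)) .nil)) .nil)) .leaf)) (nat_lit 16460937379185575) (.br (nat_lit 0) (.cons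 (.br (nat_lit 3) (.cons (.br (nat_lit 5) (.cons (.rel (nat_lit 4838129664)) (.cons (.rel (nat_lit 4563405072)) .nil))) (.cons (.rel (nat_lit 272897025)) .nil))) (.cons (.br (nat_lit 2) (.cons (.br (nat_lit 3) (.cons (.rel (nat_lit 276828192)) (.cons (.rel (nat_lit 671093760)) .nil))) (.cons (.rel (nat_lit 71309328)) .nil))) .nil))) (.node (.node .leaf (nat_lit 16460937379400336) (.br (nat_lit 0) (.cons (.br (nat_lit 5) (.cons (.rel (nat_lit 4299231249)) .nil)) .nil)) .leaf) (nat_lit 16460937379400615) (.br (nat_lit 0) (.cons (.br (nat_lit 5) (.cons (.rel (nat_lit 4299162657)) .nil)) .nil)) (.node .leaf (nat_lit 16460937379738535) (.br (nat_lit 0) (.cons (.br (nat_lit 6) (.cons (.rel (nat_lit 17184329736)) .nil)) .nil)) .leaf))) (nat_lit 16460938511647655) (.br (nat_lit 0) (.cons (.br (nat_lit 6) (.cons (.rel (nat_lit 17184325908)) .nil)) .nil)) (.node (.node (.node .leaf (nat_lit 16460938511862695) (.br (nat_lit 0) (.cons (.br (nat_lit 6) (.cons (.rel (nat_lit 17185177668)) .nil)) .nil)) .leaf) (nat_lit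 16460938512200615) (.br (nat_lit 0) (.cons (.br (nat_lit 5) (.cons (.rel (nat_lit 4299162657)) .nil)) .nil)) (.node .leaf (nat_lit 16484325781663227) (.br (nat_lit 0) (.cons (.br (nat_lit 5) (.cons (.rel (nat_lit 8598339840)) .nil)) .nil)) .leaf)) (nat_lit 16485425293289648) (.br (nat_lit 0) (.cons (.br (nat_lit 2) (.cons (.rel (nat_lit 71303442)) .nil)) .nil)) (.node (.node .leaf (nat_lit 16485425293647384) (.br (nat_lit 0) (.cons (.br (nat_lit 3) (.cons (.rel (nat_lit 276956160)) .nil)) .nil)) .leaf) (nat_lit 16490416045370281) (.br (nat_lit 5) (.cons (.br (nat_lit 3) (.cons (.rel (nat_lit 4563408900)) (.cons (.rel (nat_lit 4563435528)) .nil))) .nil)) (.node .leaf (nat_lit 16490416046609795) (.br (nat_lit 5) (.cons (.br (nat_lit 6) (.cons (.rel (nat_lit 21474918417)) .nil)) .nil)) .leaf)))))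

/-- refutations 26 -/
def e26 : EX := (.node (.node (.node (.node .leaf (nat_lit 22079267774617661) (.br (nat_lit 0) (.cons (.br (nat_lit 1) (.cons (.rel (nat_lit 20971560)) .nil)) .nil)) .leaf) (nat_lit 22083825138657935) (.br (nat_lit 1) (.cons (.br (nat_lit 2) (.cons (.rel (nat_lit 100794372)) (.cons (.rel (nat_lit 83886180)) .nil))) .nil)) (.node .leaf (nat_lit 22083825138658686) (.br (nat_lit 0) (.cons (.br (nat_lit 2) (.cons (.br (nat_lit 4) (.cons (.rel (nat_lit 1140917508)) .nil)) .nil)) .nil)) .leaf)) (nat_lit 22084727183790255) (.br (nat_lit 2) (.cons (.br (nat_lit 3) (.cons (.rel (nat_lit 335577360)) (.cons (.rel (nat_lit 335545857)) .nil))) (.cons (.br (nat_lit 6) (.cons (.rel (nat_lit 17246986260)) (.cons (.rel (nat_lit 34493956356)) (.cons (.br (nat_lit 3) (.cons (.rel (nat_lit 17448567312)) (.cons (.rel (nat_lit 17716740129)) .nil))) .nil)))) .nil))) (.node (.node .leaf (nat_lit 22084727184128175) (.br (nat_lit 6) (.cons (.br (nat_lit 2) (.cons (.rel (nat_lit 17246994438)) (.cons (.rel (nat_lit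 17246986260)) .nil))) .nil)) .leaf) (nat_lit 22084727184343215) (.br (nat_lit 2) (.cons (.br (nat_lit 5) (.cons (.br (nat_lit 6) (.cons (.rel (nat_lit 17248092288)) (.cons (.rel (nat_lit 42949677312)) .nil))) .nil)) .nil)) .leaf)) (nat_lit 22085928224051375) (.br (nat_lit 1) (.cons (.br (nat_lit 2) (.cons (.rel (nat_lit 84934665)) .nil)) .nil)) (.node (.node (.node .leaf (nat_lit 22085928224512156) (.br (nat_lit 0) (.cons (.br (nat_lit 1) (.cons (.rel (nat_lit 20972562)) .nil)) .nil)) .leaf) (nat_lit 22085928225556655) (.br (nat_lit 1) (.cons (.br (nat_lit 2) (.cons (.rel (nat_lit 84934665)) .nil)) .nil)) .leaf) (nat_lit 22091599026709356) (.br (nat_lit 0) (.cons (.br (nat_lit 2) (.cons (.br (nat_lit 6) (.cons (.rel (nat_lit 17246978568)) .nil)) .nil)) .nil)) (.node (.node .leaf (nat_lit 22091599026949502) (.br (nat_lit 0) (.cons (.br (nat_lit 2) (.cons (.br (nat_lit 4) (.cons (.rel (nat_lit 1140917508)) (.cons (.rel (nat_lit 2151682068)) .nil))) .nil)) .nil)) .leaf) (nat_lit 22091599029464446) (.br (nat_lit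 0) (.cons (.br (nat_lit 2) (.cons (.br (nat_lit 4) (.cons (.rel (nat_lit 1140917508)) .nil)) .nil)) .nil)) .leaf)))

/-- refutations 27 -/
def e27 : EX := (.node (.node (.node (.node (.node (.node .leaf (nat_lit 22520450064174341) (.br (nat_lit 0) (.cons (.br (nat_lit 2) (.cons (.rel (nat_lit 71307270)) .nil)) .nil)) .leaf) (nat_lit 22520450064579495) (.br (nat_lit 0) (.cons (.br (nat_lit 2) (.cons (.rel (nat_lit 71377920)) .nil)) .nil)) .leaf) (nat_lit 22520451615970585) (.br (nat_lit 0) (.cons (.br (nat_lit 1) (.cons (.rel (nat_lit 22020225)) .nil)) .nil)) (.node .leaf (nat_lit 22523411054193575) (.br (nat_lit 0) (.cons (.br (nat_lit 2) (.cons (.rel (nat_lit 71309328)) (.cons (.rel (nat_lit 71375106)) .nil))) (.cons (.br (nat_lit 3) (.cons (.rel (nat_lit 541073424)) (.cons (.rel (nat_lit 276828192)) .nil))) .nil))) .leaf)) (nat_lit 22523415039049740) (.br (nat_lit 2) (.cons (.br (nat_lit 0) (.cons (.rel (nat_lit 71303442)) (.cons (.rel (nat_lit 71304453)) .nil))) .nil)) (.node (.node (.node .leaf (nat_lit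 22523415039049985) (.br (nat_lit 2) (.cons (.br (nat_lit 4) (.cons (.rel (nat_lit 1141967232)) (.cons (.rel (nat_lit 1142948928)) (.cons (.rel (nat_lit 1142948928)) .nil)))) (.cons (.br (nat_lit 3) (.cons (.rel (nat_lit 335554560)) (.cons (.rel (nat_lit 671093760)) .nil))) .nil))) .leaf) (nat_lit 22523415039856701) (.br (nat_lit 0) (.cons (.br (nat_lit 4) (.cons (.rel (nat_lit 1078231296)) .nil)) .nil)) .leaf) (nat_lit 22523415039858021) (.br (nat_lit 2) (.cons (.br (nat_lit 3) (.cons (.rel (nat_lit 335610912)) .nil)) .nil)) (.node .leaf (nat_lit 22523415039909900) (.br (nat_lit 0) (.cons (.br (nat_lit 6) (.cons (.rel (nat_lit 17188258089)) .nil)) .nil)) .leaf))) (nat_lit 22523415039911448) (.br (nat_lit 0) (.cons (.br (nat_lit 1) (.cons (.rel (nat_lit 38830149)) .nil)) .nil)) (.node (.node (.node (.node .leaf (nat_lit 22523415039911948) (.br (nat_lit 4) (.cons (.br (nat_lit 6) (.cons (.rel (nat_lit 19327357185)) .nil)) .nil)) .leaf) (nat_lit 22523415039913347) (.br (nat_lit 0) (.cons (.br (nat_lit 2) (.cons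 (.rel (nat_lit 71567424)) .nil)) .nil)) .leaf) (nat_lit 22523415041454735) (.br (nat_lit 1) (.cons (.br (nat_lit 3) (.cons (.br (nat_lit 4) (.cons (.rel (nat_lit 1090651392)) (.cons (.rel (nat_lit 1090586628)) (.cons (.rel (nat_lit 1090519560)) (.cons (.rel (nat_lit 2181038340)) (.cons (.rel (nat_lit 1091633280)) (.cons (.rel (nat_lit 1342439430)) .nil))))))) .nil)) .nil)) (.node .leaf (nat_lit 22523415041725317) (.br (nat_lit 0) (.cons (.br (nat_lit 1) (.cons (.rel (nat_lit 20990208)) .nil)) .nil)) .leaf)) (nat_lit 22529256194631865) (.br (nat_lit 0) (.cons (.br (nat_lit 4) (.cons (.rel (nat_lit 2155873344)) .nil)) .nil)) (.node (.node (.node .leaf (nat_lit 22529256195432460) (.br (nat_lit 0) (.cons (.br (nat_lit 2) (.cons (.rel (nat_lit 71321088)) .nil)) .nil)) .leaf) (nat_lit 22529256196976825) (.br (nat_lit 1) (.cons (.br (nat_lit 2) (.cons (.rel (nat_lit 101974032)) .nil)) .nil)) .leaf) (nat_lit 22530239571385570) (.br (nat_lit 0) (.cons (.br (nat_lit 3) (.cons (.rel (nat_lit 272973840)) .nil)) .nil))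 (.node .leaf (nat_lit 22538044792376231) (.br (nat_lit 2) (.cons (.br (nat_lit 5) (.cons (.rel (nat_lit 8657077248)) .nil)) .nil)) .leaf)))) (nat_lit 22538044794977782) (.br (nat_lit 0) (.cons (.br (nat_lit 1) (.cons (.rel (nat_lit 21234240)) .nil)) .nil)) (.node (.node (.node (.node (.node .leaf (nat_lit 22541019392504484) (.br (nat_lit 0) (.cons (.br (nat_lit 1) (.cons (.rel (nat_lit 20971560)) .nil)) .nil)) .leaf) (nat_lit 22541024412848805) (.br (nat_lit 0) (.cons (.br (nat_lit 2) (.cons (.rel (nat_lit 71385096)) .nil)) .nil)) .leaf) (nat_lit 22541024412850188) (.br (nat_lit 2) (.cons (.br (nat_lit 3) (.cons (.rel (nat_lit 671089944)) .nil)) .nil)) (.node .leaf (nat_lit 22541024412883106) (.br (nat_lit 0) (.cons (.br (nat_lit 1) (.cons (.rel (nat_lit 20971560)) .nil)) .nil)) .leaf)) (nat_lit 22541024412884225) (.br (nat_lit 0) (.cons (.br (nat_lit 3) (.cons (.rel (nat_lit 272647296)) .nil)) .nil)) (.node (.node (.node .leaf (nat_lit 22541024412902756) (.br (nat_lit 0) (.cons (.br (nat_lit 3) (.cons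 (.rel (nat_lit 541065732)) .nil)) .nil)) .leaf) (nat_lit 22541024412904936) (.br (nat_lit 0) (.cons (.br (nat_lit 2) (.cons (.rel (nat_lit 71335956)) .nil)) .nil)) .leaf) (nat_lit 22541024413086372) (.br (nat_lit 0) (.cons (.br (nat_lit 2) (.cons (.rel (nat_lit 71304453)) .nil)) .nil)) (.node .leaf (nat_lit 22541024413086457) (.br (nat_lit 0) (.cons (.br (nat_lit 3) (.cons (.rel (nat_lit 272647296)) .nil)) .nil)) .leaf))) (nat_lit 22541024413353217) (.br (nat_lit 5) (.cons (.br (nat_lit 6) (.cons (.rel (nat_lit 42949677312)) .nil)) .nil)) (.node (.node (.node (.node .leaf (nat_lit 22541024413353996) (.br (nat_lit 2) (.cons (.br (nat_lit 3) (.cons (.rel (nat_lit 335548674)) .nil)) .nil)) .leaf) (nat_lit 22541024414212108) (.br (nat_lit 2) (.cons (.br (nat_lit 4) (.cons (.rel (nat_lit 1140852744)) .nil)) .nil)) .leaf) (nat_lit 22541024414214821) (.br (nat_lit 0) (.cons (.br (nat_lit 6) (.cons (.rel (nat_lit 34368127296)) .nil)) .nil)) (.node .leaf (nat_lit 22541024415408879) (.br (nat_lit 0) (.cons (.br (nat_lit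 2) (.cons (.rel (nat_lit 71307270)) .nil)) .nil)) .leaf)) (nat_lit 22541024415759236) (.br (nat_lit 1) (.cons (.br (nat_lit 6) (.cons (.rel (nat_lit 17196779520)) .nil)) .nil)) (.node (.node (.node .leaf (nat_lit 22541024415759238) (.br (nat_lit 0) (.cons (.br (nat_lit 4) (.cons (.rel (nat_lit 1082130960)) .nil)) .nil)) .leaf) (nat_lit 22541024415759843) (.br (nat_lit 0) (.cons (.br (nat_lit 5) (.cons (.rel (nat_lit 4299163668)) .nil)) .nil)) .leaf) (nat_lit 22541025499226287) (.br (nat_lit 0) (.cons (.br (nat_lit 6) (.cons (.rel (nat_lit 34368127296)) .nil)) .nil)) (.node .leaf (nat_lit 22543343695241368) (.br (nat_lit 2) (.cons (.br (nat_lit 3) (.cons (.rel (nat_lit 335577360)) .nil)) .nil)) .leaf)))))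

/-- refutations 28 -/
def e28 : EX := (.node (.node .leaf (nat_lit 22608410995662860) (.br (nat_lit 0) (.cons (.br (nat_lit 1) (.cons (.rel (nat_lit 25253952)) .nil)) .nil)) .leaf) (nat_lit 22613561162127496) (.br (nat_lit 0) (.cons (.br (nat_lit 1) (.cons (.rel (nat_lit 20979972)) .nil)) .nil)) .leaf)

/-- refutations 29 -/
def e29 : EX := (.node (.node (.node (.node (.node .leaf (nat_lit 22957803018670756) (.br (nat_lit 0) (.cons (.br (nat_lit 1) (.cons (.rel (nat_lit 20973573)) .nil)) .nil)) .leaf) (nat_lit 22957803018671385) (.br (nat_lit 2) (.cons (.br (nat_lit 6) (.cons (.rel (nat_lit 17247065088)) .nil)) .nil)) .leaf) (nat_lit 22957803021845785) (.br (nat_lit 3) (.cons (.br (nat_lit 4) (.cons (.rel (nat_lit 1610616840)) .nil)) .nil)) (.node .leaf (nat_lit 22958880244624236) (.br (nat_lit 0) (.cons (.br (nat_lit 1) (.cons (.rel (nat_lit 20990208)) .nil)) .nil)) .leaf)) (nat_lit 22959349647852455) (.br (nat_lit 1) (.cons (.br (nat_lit 2) (.cons (.rel (nat_lit 83886180)) .nil)) .nil)) (.node (.node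 (.node .leaf (nat_lit 22960466822401305) (.br (nat_lit 3) (.cons (.br (nat_lit 4) (.cons (.rel (nat_lit 1610613012)) .nil)) .nil)) .leaf) (nat_lit 22965533962405145) (.br (nat_lit 0) (.cons (.br (nat_lit 3) (.cons (.rel (nat_lit 272973840)) .nil)) .nil)) .leaf) (nat_lit 22965537420709145) (.br (nat_lit 2) (.cons (.br (nat_lit 6) (.cons (.rel (nat_lit 17246986260)) .nil)) .nil)) (.node .leaf (nat_lit 22965537422910702) (.br (nat_lit 0) (.cons (.br (nat_lit 3) (.cons (.rel (nat_lit 276824328)) .nil)) .nil)) .leaf))) (nat_lit 22965537423023385) (.br (nat_lit 2) (.cons (.br (nat_lit 0) (.cons (.rel (nat_lit 71303442)) (.cons (.rel (nat_lit 71304453)) .nil))) .nil)) (.node (.node (.node (.node .leaf (nat_lit 22965582029384556) (.br (nat_lit 0) (.cons (.br (nat_lit 1) (.cons (.rel (nat_lit 41943060)) (.cons (.rel (nat_lit 21041154)) .nil))) .nil)) .leaf) (nat_lit 22969060950036542) (.br (nat_lit 2) (.cons (.br (nat_lit 3) (.cons (.rel (nat_lit 335577360)) .nil)) .nil)) .leaf) (nat_lit 22969060951348505) (.br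 (nat_lit 4) (.cons (.br (nat_lit 0) (.cons (.rel (nat_lit 2151678240)) (.cons (.rel (nat_lit 1082134788)) .nil))) .nil)) (.node .leaf (nat_lit 22969060952843141) (.br (nat_lit 0) (.cons (.br (nat_lit 4) (.cons (.rel (nat_lit 2151678240)) .nil)) .nil)) .leaf)) (nat_lit 22969060952843646) (.br (nat_lit 0) (.cons (.br (nat_lit 2) (.cons (.rel (nat_lit 71303442)) .nil)) .nil)) (.node (.node .leaf (nat_lit 22969637136965788) (.br (nat_lit 2) (.cons (.br (nat_lit 3) (.cons (.rel (nat_lit 603980352)) .nil)) .nil)) .leaf) (nat_lit 22970049339413785) (.br (nat_lit 0) (.cons (.br (nat_lit 1) (.cons (.rel (nat_lit 20971560)) .nil)) .nil)) (.node .leaf (nat_lit 22970049340376345) (.br (nat_lit 3) (.cons (.br (nat_lit 6) (.cons (.rel (nat_lit 17448584193)) .nil)) .nil)) .leaf))))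

/-- refutations 30 -/
def e30 : EX := (.node (.node (.node (.node (.node .leaf (nat_lit 22995438649684125) (.br (nat_lit 0) (.cons (.br (nat_lit 4) (.cons (.rel (nat_lit 2151809025)) .nil)) .nil)) .leaf) (nat_lit 22998837686934809) (.br (nat_lit 0) (.cons (.br (nat_lit 2) (.cons (.rel (nat_lit 71303442)) .nil)) .nil)) .leaf) (nat_lit 22998840263783955) (.br (nat_lit 3) (.cons (.br (nat_lit 4) (.cons (.rel (nat_lit 1342510080)) .nil)) .nil)) (.node .leaf (nat_lit 22998842362421310) (.br (nat_lit 0) (.cons (.br (nat_lit 1) (.cons (.rel (nat_lit 41943060)) .nil)) .nil)) .leaf)) (nat_lit 22998842362425406) (.br (nat_lit 2) (.cons (.br (nat_lit 5) (.cons (.rel (nat_lit 4363124760)) (.cons (.rel (nat_lit 8724480000)) .nil))) (.cons (.br (nat_lit 0) (.cons (.rel (nat_lit 72613896)) (.cons (.rel (nat_lit 71304453)) (.cons (.rel (nat_lit 143671425)) .nil)))) .nil))) (.node (.node .leaf (nat_lit 22998842363583769) (.br (nat_lit 0) (.cons (.br (nat_lit 1) (.cons (.rel (nat_lit 20976144)) (.cons (.rel (nat_lit 20971560))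 (.cons (.rel (nat_lit 21069840)) (.cons (.rel (nat_lit 41943060)) .nil))))) .nil)) .leaf) (nat_lit 22998842365393681) (.br (nat_lit 0) (.cons (.br (nat_lit 2) (.cons (.rel (nat_lit 142671888)) .nil)) .nil)) (.node .leaf (nat_lit 22998842802774322) (.br (nat_lit 0) (.cons (.br (nat_lit 4) (.cons (.rel (nat_lit 2151682068)) .nil)) .nil)) .leaf))) (nat_lit 22998842803011759) (.br (nat_lit 2) (.cons (.br (nat_lit 0) (.cons (.rel (nat_lit 71309328)) (.cons (.rel (nat_lit 138412164)) .nil))) .nil)) (.node (.node (.node (.node .leaf (nat_lit 22999526871347831) (.br (nat_lit 2) (.cons (.br (nat_lit 3) (.cons (.rel (nat_lit 335554560)) (.cons (.rel (nat_lit 402653568)) (.cons (.rel (nat_lit 335581188)) (.cons (.rel (nat_lit 671093760)) .nil))))) (.cons (.br (nat_lit 4) (.cons (.rel (nat_lit 2281721856)) (.cons (.rel (nat_lit 1140872196)) .nil))) .nil))) .leaf) (nat_lit 22999526871348755) (.br (nat_lit 0) (.cons (.br (nat_lit 6) (.cons (.br (nat_lit 1) (.cons (.rel (nat_lit 20971560)) (.cons (.br (nat_lit 3) (.cons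 (.rel (nat_lit 541132800)) (.cons (.br (nat_lit 4) (.cons (.rel (nat_lit 2415927300)) (.cons (.rel (nat_lit 1610616840)) (.cons (.rel (nat_lit 1082195970)) .nil)))) (.cons (.rel (nat_lit 273022980)) (.cons (.rel (nat_lit 272695425)) (.cons (.rel (nat_lit 541081602)) .nil)))))) (.cons (.rel (nat_lit 20971560)) .nil)))) .nil)) .nil)) .leaf) (nat_lit 22999530444894839) (.br (nat_lit 0) (.cons (.br (nat_lit 1) (.cons (.rel (nat_lit 38010882)) .nil)) .nil)) (.node .leaf (nat_lit 23000518280474799) (.br (nat_lit 0) (.cons (.br (nat_lit 4) (.cons (.rel (nat_lit 1082130960)) (.cons (.rel (nat_lit 2151682068)) .nil))) .nil)) .leaf)) (nat_lit 23004240757334172) (.br (nat_lit 4) (.cons (.br (nat_lit 0) (.cons (.br (nat_lit 6) (.cons (.rel (nat_lit 17188262916)) (.cons (.rel (nat_lit 17188261905)) .nil))) (.cons (.rel (nat_lit 1077938304)) .nil))) .nil)) (.node (.node .leaf (nat_lit 23004240757338269) (.br (nat_lit 6) (.cons (.br (nat_lit 0) (.cons (.rel (nat_lit 17184407553)) (.cons (.rel (nat_lit 17184329736)) (.cons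 (.rel (nat_lit 17184329736)) .nil)))) .nil)) .leaf) (nat_lit 23004248802013815) (.br (nat_lit 0) (.cons (.br (nat_lit 6) (.cons (.rel (nat_lit 17188259088)) .nil)) .nil)) (.node .leaf (nat_lit 24200514970301827) (.br (nat_lit 1) (.cons (.br (nat_lit 6) (.cons (.rel (nat_lit 17213947968)) .nil)) .nil)) .leaf))))

/-- refutations 31 -/
def e31 : EX := (.node (.node (.node (.node (.node .leaf (nat_lit 24402813866217474) (.br (nat_lit 0) (.cons (.br (nat_lit 2) (.cons (.rel (nat_lit 71305512)) .nil)) .nil)) .leaf) (nat_lit 24402813970829562) (.br (nat_lit 0) (.cons (.br (nat_lit 2) (.cons (.rel (nat_lit 71567424)) .nil)) .nil)) .leaf) (nat_lit 24402813970830617) (.br (nat_lit 0) (.cons (.br (nat_lit 2) (.cons (.rel (nat_lit 71304453)) (.cons (.rel (nat_lit 71307270)) (.cons (.br (nat_lit 6) (.cons (.rel (nat_lit 17246978568)) (.cons (.rel (nat_lit 17188261905)) (.cons (.rel (nat_lit 34363969536)) .nil)))) .nil)))) (.cons (.br (nat_lit 6) (.cons (.rel (nat_lit 34363969536)) (.cons (.rel (nat_lit 17188261905))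 (.cons (.rel (nat_lit 17188261905)) .nil)))) .nil))) (.node (.node .leaf (nat_lit 24402813971067186) (.br (nat_lit 0) (.cons (.br (nat_lit 4) (.cons (.rel (nat_lit 2155873344)) .nil)) .nil)) .leaf) (nat_lit 24402813971067687) (.br (nat_lit 0) (.cons (.br (nat_lit 4) (.cons (.rel (nat_lit 1078984776)) (.cons (.rel (nat_lit 1078333440)) .nil))) (.cons (.br (nat_lit 2) (.cons (.rel (nat_lit 75497544)) (.cons (.rel (nat_lit 71434272)) .nil))) .nil))) .leaf)) (nat_lit 24402813971068185) (.br (nat_lit 4) (.cons (.br (nat_lit 6) (.cons (.rel (nat_lit 18253881600)) .nil)) .nil)) (.node (.node (.node .leaf (nat_lit 24402813971076377) (.br (nat_lit 0) (.cons (.br (nat_lit 3) (.cons (.rel (nat_lit 272973840)) .nil)) .nil)) .leaf) (nat_lit 24402813971170806) (.br (nat_lit 0) (.cons (.br (nat_lit 2) (.cons (.rel (nat_lit 71305512)) .nil)) .nil)) .leaf) (nat_lit 24402813971436825) (.br (nat_lit 0) (.cons (.br (nat_lit 1) (.cons (.rel (nat_lit 41943060)) (.cons (.rel (nat_lit 20976144)) .nil))) .nil)) (.node (.node .leaf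 (nat_lit 24402813972358425) (.br (nat_lit 0) (.cons (.br (nat_lit 2) (.cons (.rel (nat_lit 71303442)) .nil)) .nil)) .leaf) (nat_lit 24402813973956610) (.br (nat_lit 2) (.cons (.br (nat_lit 6) (.cons (.rel (nat_lit 17246978568)) .nil)) .nil)) .leaf))) (nat_lit 24402813973956895) (.br (nat_lit 0) (.cons (.br (nat_lit 2) (.cons (.rel (nat_lit 142671888)) .nil)) .nil)) (.node (.node (.node (.node .leaf (nat_lit 24402813973957894) (.br (nat_lit 0) (.cons (.br (nat_lit 2) (.cons (.rel (nat_lit 142671888)) (.cons (.rel (nat_lit 71303442)) .nil))) (.cons (.br (nat_lit 4) (.cons (.rel (nat_lit 1080034308)) (.cons (.rel (nat_lit 2155872345)) .nil))) .nil))) .leaf) (nat_lit 24402813973958009) (.br (nat_lit 0) (.cons (.br (nat_lit 2) (.cons (.rel (nat_lit 76566528)) .nil)) .nil)) .leaf) (nat_lit 24405993798521007) (.br (nat_lit 5) (.cons (.br (nat_lit 2) (.cons (.rel (nat_lit 8724480000)) (.cons (.rel (nat_lit 4363124760)) .nil))) .nil)) (.node (.node .leaf (nat_lit 24405993798521488) (.br (nat_lit 0) (.cons (.br (nat_lit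 4) (.cons (.rel (nat_lit 2151682068)) .nil)) .nil)) .leaf) (nat_lit 24406901755217922) (.br (nat_lit 4) (.cons (.br (nat_lit 1) (.cons (.rel (nat_lit 1090537488)) (.cons (.rel (nat_lit 1091633280)) (.cons (.rel (nat_lit 2181038340)) .nil)))) .nil)) .leaf)) (nat_lit 24406901755219320) (.br (nat_lit 3) (.cons (.br (nat_lit 4) (.cons (.br (nat_lit 5) (.cons (.rel (nat_lit 10737423360)) (.cons (.rel (nat_lit 4563403014)) .nil))) .nil)) .nil)) (.node (.node (.node .leaf (nat_lit 24406902677964827) (.br (nat_lit 0) (.cons (.br (nat_lit 2) (.cons (.rel (nat_lit 71304453)) .nil)) .nil)) .leaf) (nat_lit 24407893163921665) (.br (nat_lit 2) (.cons (.br (nat_lit 4) (.cons (.rel (nat_lit 1140851733)) .nil)) .nil)) .leaf) (nat_lit 24411617629308930) (.br (nat_lit 1) (.cons (.br (nat_lit 4) (.cons (.rel (nat_lit 1090535430)) .nil)) .nil)) (.node .leaf (nat_lit 24411620867311772) (.br (nat_lit 0) (.cons (.br (nat_lit 4) (.cons (.rel (nat_lit 1078333440)) .nil)) .nil)) .leaf))))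

/-- refutations 32 -/
def e32 : EX := (.node (.node (.node (.node .leaf (nat_lit 24636662557472120) (.br (nat_lit 0) (.cons (.br (nat_lit 5) (.cons (.rel (nat_lit 8598339840)) .nil)) .nil)) .leaf) (nat_lit 24671174639479445) (.br (nat_lit 0) (.cons (.br (nat_lit 2) (.cons (.rel (nat_lit 71323905)) .nil)) .nil)) (.node .leaf (nat_lit 24671861833299994) (.br (nat_lit 0) (.cons (.br (nat_lit 3) (.cons (.rel (nat_lit 541073424)) .nil)) .nil)) .leaf)) (nat_lit 24846022778292399) (.br (nat_lit 0) (.cons (.br (nat_lit 2) (.cons (.rel (nat_lit 71304453)) .nil)) .nil)) (.node (.node .leaf (nat_lit 24846710183902465) (.br (nat_lit 0) (.cons (.br (nat_lit 1) (.cons (.rel (nat_lit 41943060)) .nil)) .nil)) .leaf) (nat_lit 24847697815035916) (.br (nat_lit 2) (.cons (.br (nat_lit 5) (.cons (.rel (nat_lit 4363124760)) .nil)) .nil)) (.node .leaf (nat_lit 24847697815537839) (.br (nat_lit 2) (.cons (.br (nat_lit 6) (.cons (.br (nat_lit 0) (.cons (.rel (nat_lit 17184329736)) (.cons (.rel (nat_lit 71434272)) .nil))) .nil))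 .nil)) .leaf))) (nat_lit 24847697815537921) (.br (nat_lit 2) (.cons (.br (nat_lit 6) (.cons (.rel (nat_lit 17246978568)) .nil)) .nil)) (.node (.node (.node .leaf (nat_lit 24847697816307174) (.br (nat_lit 3) (.cons (.br (nat_lit 5) (.cons (.rel (nat_lit 4563435528)) (.cons (.rel (nat_lit 4563403014)) .nil))) .nil)) .leaf) (nat_lit 24847697816358424) (.br (nat_lit 0) (.cons (.br (nat_lit 2) (.cons (.rel (nat_lit 71567424)) .nil)) .nil)) (.node .leaf (nat_lit 24847697817676431) (.br (nat_lit 0) (.cons (.br (nat_lit 2) (.cons (.rel (nat_lit 71309328)) .nil)) .nil)) .leaf)) (nat_lit 24847697817676677) (.br (nat_lit 2) (.cons (.br (nat_lit 3) (.cons (.rel (nat_lit 335610912)) .nil)) .nil)) (.node (.node .leaf (nat_lit 24847697817942672) (.br (nat_lit 0) (.cons (.br (nat_lit 2) (.cons (.rel (nat_lit 142671888)) .nil)) .nil)) .leaf) (nat_lit 24847697818137511) (.br (nat_lit 0) (.cons (.br (nat_lit 1) (.cons (.rel (nat_lit 41943060)) .nil)) .nil)) (.node .leaf (nat_lit 24847697818210959) (.br (nat_lit 0) (.cons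 (.br (nat_lit 4) (.cons (.rel (nat_lit 1078264848)) (.cons (.rel (nat_lit 1082134788)) (.cons (.rel (nat_lit 2155888980)) (.cons (.rel (nat_lit 2151678240)) (.cons (.rel (nat_lit 2151678240)) .nil)))))) .nil)) .leaf))))

/-- refutations 33 -/
def e33 : EX := (.node (.node (.node (.node (.node .leaf (nat_lit 25159276943391645) (.br (nat_lit 0) (.cons (.br (nat_lit 3) (.cons (.rel (nat_lit 276824328)) .nil)) .nil)) .leaf) (nat_lit 25159276943474965) (.br (nat_lit 0) (.cons (.br (nat_lit 3) (.cons (.rel (nat_lit 272894208)) .nil)) .nil)) .leaf) (nat_lit 25159276943730020) (.br (nat_lit 0) (.cons (.br (nat_lit 2) (.cons (.rel (nat_lit 71434272)) .nil)) .nil)) (.node .leaf (nat_lit 25159276945029775) (.br (nat_lit 1) (.cons (.br (nat_lit 6) (.cons (.rel (nat_lit 17196779520)) .nil)) .nil)) .leaf)) (nat_lit 25159276945797996) (.br (nat_lit 0) (.cons (.br (nat_lit 3) (.cons (.rel (nat_lit 272646297)) .nil)) .nil)) (.node (.node .leaf (nat_lit 25159276945798550) (.br (nat_lit 2) (.cons (.br (nat_lit 3) (.cons (.rel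 (nat_lit 603980352)) .nil)) .nil)) .leaf) (nat_lit 25159276945798630) (.br (nat_lit 0) (.cons (.br (nat_lit 2) (.cons (.rel (nat_lit 76547076)) .nil)) .nil)) (.node .leaf (nat_lit 25159276946196636) (.br (nat_lit 1) (.cons (.br (nat_lit 3) (.cons (.rel (nat_lit 285216792)) .nil)) .nil)) .leaf))) (nat_lit 25159276946196655) (.br (nat_lit 0) (.cons (.br (nat_lit 6) (.cons (.rel (nat_lit 34363950084)) (.cons (.rel (nat_lit 34363949073)) (.cons (.rel (nat_lit 34363949073)) .nil)))) .nil)) (.node (.node (.node .leaf (nat_lit 25159276946197910) (.br (nat_lit 6) (.cons (.br (nat_lit 0) (.cons (.rel (nat_lit 17186227200)) (.cons (.rel (nat_lit 17188262916)) (.cons (.rel (nat_lit 17184064128)) .nil)))) .nil)) .leaf) (nat_lit 25159276946300260) (.br (nat_lit 3) (.cons (.br (nat_lit 0) (.cons (.rel (nat_lit 273686592)) (.cons (.rel (nat_lit 272897025)) .nil))) .nil)) (.node .leaf (nat_lit 25159276946300310) (.br (nat_lit 0) (.cons (.br (nat_lit 2) (.cons (.rel (nat_lit 71434272)) .nil)) .nil)) .leaf)) (nat_lit 25159276946310550)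 (.br (nat_lit 0) (.cons (.br (nat_lit 1) (.cons (.rel (nat_lit 20972562)) .nil)) .nil)) (.node (.node .leaf (nat_lit 25182430071685377) (.br (nat_lit 0) (.cons (.br (nat_lit 2) (.cons (.rel (nat_lit 142671888)) .nil)) .nil)) .leaf) (nat_lit 25182430074704774) (.br (nat_lit 2) (.cons (.br (nat_lit 4) (.cons (.rel (nat_lit 1140917508)) .nil)) .nil)) (.node .leaf (nat_lit 25182430074705172) (.br (nat_lit 0) (.cons (.br (nat_lit 1) (.cons (.rel (nat_lit 20973573)) .nil)) .nil)) .leaf))))

/-- refutations 34 -/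
def e34 : EX := (.node (.node (.node (.node .leaf (nat_lit 25250418728652862) (.br (nat_lit 0) (.cons (.br (nat_lit 2) (.cons (.rel (nat_lit 72613896)) .nil)) .nil)) .leaf) (nat_lit 25250418728652975) (.br (nat_lit 0) (.cons (.br (nat_lit 3) (.cons (.br (nat_lit 5) (.cons (.rel (nat_lit 4563435528)) (.cons (.rel (nat_lit 4563435528)) .nil))) (.cons (.rel (nat_lit 276828192)) (.cons (.rel (nat_lit 541073424)) .nil)))) (.cons (.br (nat_lit 6) (.cons (.rel (nat_lit 17184325908)) (.cons (.rel (nat_lit 17184064128)) (.cons (.rel (nat_lit 17188259088)) (.cons (.rel (nat_lit 17184064128)) .nil))))) .nil))) (.node .leaf (nat_lit 25250418728990895) (.br (nat_lit 2) (.cons (.br (nat_lit 5) (.cons (.rel (nat_lit 4363124760)) .nil)) .nil)) .leaf)) (nat_lit 25250418729205935) (.br (nat_lit 6) (.cons (.br (nat_lit 2) (.cons (.rel (nat_lit 17246978568)) (.cons (.rel (nat_lit 17246978568)) .nil))) .nil)) (.node (.node .leaf (nat_lit 25250418730179865) (.br (nat_lit 0) (.cons (.br (nat_lit 2) (.cons (.rel (nat_lit 71307270))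 .nil)) .nil)) .leaf) (nat_lit 25251321112187055) (.br (nat_lit 2) (.cons (.br (nat_lit 5) (.cons (.br (nat_lit 3) (.cons (.rel (nat_lit 4563435528)) (.cons (.br (nat_lit 0) (.cons (.rel (nat_lit 541073424)) (.cons (.rel (nat_lit 276828192)) .nil))) .nil))) .nil)) .nil)) .leaf)) (nat_lit 25251321112524975) (.br (nat_lit 2) (.cons (.br (nat_lit 6) (.cons (.br (nat_lit 0) (.cons (.rel (nat_lit 34368127296)) (.cons (.rel (nat_lit 17188259088)) .nil))) .nil)) .nil)) (.node (.node (.node .leaf (nat_lit 25256040018760985) (.br (nat_lit 0) (.cons (.br (nat_lit 2) (.cons (.rel (nat_lit 76546065)) .nil)) .nil)) .leaf) (nat_lit 25256040019098905) (.br (nat_lit 0) (.cons (.br (nat_lit 2) (.cons (.rel (nat_lit 71307270)) (.cons (.rel (nat_lit 71323905)) .nil))) (.cons (.br (nat_lit 1) (.cons (.rel (nat_lit 20976144)) (.cons (.rel (nat_lit 25690113)) (.cons (.rel (nat_lit 41943060)) .nil)))) .nil))) (.node .leaf (nat_lit 25256040021303452) (.br (nat_lit 0) (.cons (.br (nat_lit 2) (.cons (.rel (nat_lit 75497544)) .nil))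 .nil)) .leaf)) (nat_lit 25256040021834015) (.br (nat_lit 2) (.cons (.br (nat_lit 3) (.cons (.rel (nat_lit 402653568)) .nil)) .nil)) (.node (.node .leaf (nat_lit 25256040571285661) (.br (nat_lit 0) (.cons (.br (nat_lit 6) (.cons (.rel (nat_lit 17185177668)) .nil)) .nil)) .leaf) (nat_lit 25256813553276185) (.br (nat_lit 0) (.cons (.br (nat_lit 3) (.cons (.rel (nat_lit 276824328)) .nil)) .nil)) .leaf)))

/-- refutations 35 -/
def e35 : EX := (.node (.node (.node (.node (.node .leaf (nat_lit 25287925860418437) (.br (nat_lit 0) (.cons (.br (nat_lit 4) (.cons (.rel (nat_lit 1077938304)) .nil)) .nil)) .leaf) (nat_lit 26417061145594511) (.br (nat_lit 0) (.cons (.br (nat_lit 3) (.cons (.rel (nat_lit 272894208)) .nil)) .nil)) .leaf) (nat_lit 26425915366275329) (.br (nat_lit 0) (.cons (.br (nat_lit 1) (.cons (.rel (nat_lit 20971560)) .nil)) .nil)) (.node (.node .leaf (nat_lit 26425915366275958) (.br (nat_lit 0) (.cons (.br (nat_lit 4) (.cons (.rel (nat_lit 1077938304)) .nil)) .nil)) .leaf) (nat_lit 26425915366480024)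 (.br (nat_lit 0) (.cons (.br (nat_lit 4) (.cons (.rel (nat_lit 1078264848)) .nil)) .nil)) .leaf)) (nat_lit 26425915366480527) (.br (nat_lit 0) (.cons (.br (nat_lit 1) (.cons (.rel (nat_lit 20973573)) .nil)) .nil)) (.node (.node (.node .leaf (nat_lit 26425915366544747) (.br (nat_lit 0) (.cons (.br (nat_lit 1) (.cons (.rel (nat_lit 20971560)) .nil)) .nil)) .leaf) (nat_lit 26425915366544886) (.br (nat_lit 0) (.cons (.br (nat_lit 4) (.cons (.rel (nat_lit 2151678240)) .nil)) .nil)) .leaf) (nat_lit 26425915367506207) (.br (nat_lit 0) (.cons (.br (nat_lit 6) (.cons (.rel (nat_lit 17185128528)) .nil)) .nil)) (.node (.node .leaf (nat_lit 26425915367506575) (.br (nat_lit 2) (.cons (.br (nat_lit 5) (.cons (.rel (nat_lit 8724480000)) .nil)) .nil)) .leaf) (nat_lit 26425915367506822) (.br (nat_lit 0) (.cons (.br (nat_lit 1) (.cons (.rel (nat_lit 20976144)) .nil)) .nil)) .leaf))) (nat_lit 26425915367507451) (.br (nat_lit 6) (.cons (.br (nat_lit 0) (.cons (.rel (nat_lit 17184064128)) (.cons (.rel (nat_lit 17188261905))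 .nil))) .nil)) (.node (.node (.node (.node .leaf (nat_lit 26425915367770743) (.br (nat_lit 0) (.cons (.br (nat_lit 1) (.cons (.rel (nat_lit 20976144)) (.cons (.rel (nat_lit 20979972)) .nil))) (.cons (.br (nat_lit 1) (.cons (.rel (nat_lit 21069840)) (.cons (.rel (nat_lit 20993025)) .nil))) .nil))) .leaf) (nat_lit 26425915367771643) (.br (nat_lit 1) (.cons (.br (nat_lit 4) (.cons (.rel (nat_lit 1091633280)) .nil)) .nil)) .leaf) (nat_lit 26425915367771667) (.br (nat_lit 0) (.cons (.br (nat_lit 2) (.cons (.rel (nat_lit 71567424)) (.cons (.rel (nat_lit 71307270)) (.cons (.rel (nat_lit 71434272)) .nil)))) .nil)) (.node (.node .leaf (nat_lit 26425915368532623) (.br (nat_lit 1) (.cons (.br (nat_lit 6) (.cons (.rel (nat_lit 17196779520)) (.cons (.rel (nat_lit 34393359360)) .nil))) .nil)) .leaf) (nat_lit 26425915368533254) (.br (nat_lit 6) (.cons (.br (nat_lit 2) (.cons (.rel (nat_lit 17246986260)) (.cons (.rel (nat_lit 17248293888)) .nil))) .nil)) .leaf)) (nat_lit 26425915368533499) (.br (nat_lit 0) (.cons (.br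 (nat_lit 6) (.cons (.rel (nat_lit 17184064128)) .nil)) .nil)) (.node (.node (.node .leaf (nat_lit 26425915368754457) (.br (nat_lit 0) (.cons (.br (nat_lit 1) (.cons (.rel (nat_lit 20976144)) .nil)) .nil)) .leaf) (nat_lit 26429319081672879) (.br (nat_lit 2) (.cons (.br (nat_lit 5) (.cons (.rel (nat_lit 4363124760)) .nil)) .nil)) .leaf) (nat_lit 26429319081887919) (.br (nat_lit 2) (.cons (.br (nat_lit 5) (.cons (.rel (nat_lit 4362076230)) .nil)) .nil)) (.node .leaf (nat_lit 26430994559535279) (.br (nat_lit 0) (.cons (.br (nat_lit 6) (.cons (.rel (nat_lit 17188261905)) .nil)) .nil)) .leaf))))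

/-- refutations 36 -/
def e36 : EX := (.node (.node (.node (.node .leaf (nat_lit 26918412649810820) (.br (nat_lit 0) (.cons (.br (nat_lit 2) (.cons (.rel (nat_lit 71309328)) .nil)) .nil)) .leaf) (nat_lit 27006454969692335) (.br (nat_lit 0) (.cons (.br (nat_lit 1) (.cons (.rel (nat_lit 21069840)) .nil)) .nil)) (.node .leaf (nat_lit 27006456478033932) (.br (nat_lit 1) (.cons (.br (nat_lit 2) (.cons (.rel (nat_lit 100665600)) .nil)) .nil)) .leaf)) (nat_lit 27006456478034855) (.br (nat_lit 0) (.cons (.br (nat_lit 3) (.cons (.rel (nat_lit 545284164)) (.cons (.rel (nat_lit 272647296)) .nil))) .nil)) (.node (.node .leaf (nat_lit 27006456479324335) (.br (nat_lit 2) (.cons (.br (nat_lit 5) (.cons (.rel (nat_lit 4429189392)) .nil)) .nil)) .leaf) (nat_lit 27006456479325410) (.br (nat_lit 3) (.cons (.br (nat_lit 0) (.cons (.rel (nat_lit 272897025)) (.cons (.rel (nat_lit 272894208)) .nil))) .nil)) (.node .leaf (nat_lit 27006456480394502) (.br (nat_lit 0) (.cons (.br (nat_lit 6) (.cons (.rel (nat_lit 34368127296)) .nil))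 .nil)) .leaf))) (nat_lit 27006456480460812) (.br (nat_lit 1) (.cons (.br (nat_lit 2) (.cons (.rel (nat_lit 84939297)) (.cons (.rel (nat_lit 83886180)) (.cons (.rel (nat_lit 100665600)) .nil)))) (.cons (.br (nat_lit 2) (.cons (.rel (nat_lit 83886180)) (.cons (.rel (nat_lit 150996480)) (.cons (.rel (nat_lit 150996480)) .nil)))) .nil))) (.node (.node (.node .leaf (nat_lit 27006456480462050) (.br (nat_lit 2) (.cons (.br (nat_lit 0) (.cons (.rel (nat_lit 71377920)) (.cons (.rel (nat_lit 75497544)) (.cons (.rel (nat_lit 139461696)) (.cons (.rel (nat_lit 142611720)) .nil))))) .nil)) .leaf) (nat_lit 27006456480462200) (.br (nat_lit 0) (.cons (.br (nat_lit 1) (.cons (.rel (nat_lit 20972562)) .nil)) .nil)) (.node .leaf (nat_lit 27006456480462310) (.br (nat_lit 2) (.cons (.br (nat_lit 0) (.cons (.rel (nat_lit 72613896)) (.cons (.rel (nat_lit 139461696)) .nil))) .nil)) .leaf)) (nat_lit 27009420007895945) (.br (nat_lit 1) (.cons (.br (nat_lit 6) (.cons (.rel (nat_lit 17196779520)) .nil)) .nil)) (.node (.node .leaf (nat_lit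 27015259171123385) (.br (nat_lit 0) (.cons (.br (nat_lit 3) (.cons (.rel (nat_lit 273686592)) .nil)) .nil)) .leaf) (nat_lit 27016247495946425) (.br (nat_lit 1) (.cons (.br (nat_lit 2) (.cons (.rel (nat_lit 150996480)) .nil)) .nil)) .leaf)))

/-- refutations 37 -/
def e37 : EX := (.node (.node (.node .leaf (nat_lit 27273305817693095) (.br (nat_lit 2) (.cons (.br (nat_lit 3) (.cons (.rel (nat_lit 335545857)) .nil)) .nil)) .leaf) (nat_lit 27280130284186535) (.br (nat_lit 4) (.cons (.br (nat_lit 3) (.cons (.rel (nat_lit 1610616840)) (.cons (.rel (nat_lit 1610616840)) .nil))) .nil)) .leaf) (nat_lit 27280130284247225) (.br (nat_lit 0) (.cons (.br (nat_lit 2) (.cons (.rel (nat_lit 72613896)) .nil)) .nil)) (.node .leaf (nat_lit 27280130285845415) (.br (nat_lit 4) (.cons (.br (nat_lit 3) (.cons (.rel (nat_lit 1342507266)) (.cons (.rel (nat_lit 1342441488)) .nil))) .nil)) .leaf))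

/-- refutations 38 -/
def e38 : EX := (.node (.node (.node .leaf (nat_lit 27315104546913142) (.br (nat_lit 2) (.cons (.br (nat_lit 6) (.cons (.rel (nat_lit 34493956356)) .nil)) .nil)) .leaf) (nat_lit 27361478477035656) (.br (nat_lit 0) (.cons (.br (nat_lit 6) (.cons (.rel (nat_lit 34368127296)) .nil)) .nil)) .leaf) (nat_lit 27361478477035695) (.br (nat_lit 0) (.cons (.br (nat_lit 3) (.cons (.rel (nat_lit 272894208)) (.cons (.rel (nat_lit 274743300)) (.cons (.rel (nat_lit 272636304)) .nil)))) (.cons (.br (nat_lit 2) (.cons (.rel (nat_lit 71307270)) (.cons (.br (nat_lit 3) (.cons (.rel (nat_lit 335554560)) (.cons (.rel (nat_lit 335548674)) (.cons (.rel (nat_lit 541065732)) .nil)))) .nil))) .nil))) (.node .leaf (nat_lit 27361478477035696) (.br (nat_lit 1) (.cons (.br (nat_lit 6) (.cons (.rel (nat_lit 17196728322)) .nil)) .nil)) .leaf))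

/-- refutations 39 -/
def e39 : EX := (.node .leaf (nat_lit 27449483279688335) (.br (nat_lit 0) (.cons (.br (nat_lit 1) (.cons (.rel (nat_lit 21041154)) .nil)) .nil)) .leaf)

/-- list of the parts -/
def L0 : List (ℕ × List ℕ) := [(nat_lit 0x8660, [cP]),
  (nat_lit 0x100000000000000, [cP]),
  (nat_lit 0x10000000000000000, [cP]),
  (nat_lit 0x18800000000000000060000000000000000, [cP]),
  (nat_lit 0x1000380000000000000000000000000000000000, [cP]),
  (nat_lit 0x330000000000000000000000000000000000000000, [cP]),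
  (nat_lit 0x11800000000000000000000000000000000000000000000, [cP]),
  (nat_lit 0x5018000000000000000a00000000000000000000000000000000000000000000000, [cP]),
  (nat_lit 0x108000000000000000000000000000000000000000000000000000000000000000000000, [cP]),
  (nat_lit 0x600000000000000000000000000000000000000000000000000000000000000000000000, [cP]),
  (nat_lit 0x8040002000000000000000000000000000000000000000000000000000000000000000000000000, [cP]),
  (nat_lit 0x11480000000000000000000000000000000000000000000000000000000000000000000000000000000000000000000000000000000000000000000000000000000000000000000000000000000000000, [cP]),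
  (nat_lit 0x40000000000000000000000000000000000000000000000000000000000000000000000000000000000000000000000000000000000000000000000000000000000000000000000000000000000000000000, [cP]),
  (nat_lit 0x80000000000000000000000000000000000000000000000000000000000000000000000000000000000000000000000000000000000000000000000000000000000000000000000000000000000000000000, [cP]),
  (nat_lit 0x80000000000000000000000000000000000000000000000000000000000000000000000000000000000000000000000000000000000000000000000000000000000000000000000000000000000000000000000000, [cP]),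
  (nat_lit 0x1000000000000000062200000000000000000000000000000000000000000000000000000000000000000000000000000000000000000000000000000000000000000000000000000000000000000000000000000000000000000000000000, [cP]),
  (nat_lit 0x18000000000000000000000000000000000000000000000000000000000000000000000000000000000000000000000000000000000000000000000000000000000000000000000000000000000000000000000000000000000000000000000, [cP]),
  (nat_lit 0x2800200000000000000000000000000000000000000000000000000000000000000000000000000000000000000000000000000000000000000000000000000000000000000000000000000000000000000000000000000000000000000000000000, [cP]),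
  (nat_lit 0x30000000000000000000000000000000000000000000000000000000000000000000000000000000000000000000000000000000000000000000000000000000000000000000000000000000000000000000000000000000000000000000000000000, [cP]),
  (nat_lit 0x240000000000000000000000000000000000000000000000000000000000000000000000000000000000000000000000000000000000000000000000000000000000000000000000000000000000000000000000000000000000000000000000000000, [cP]),
  (nat_lit 0x1000000000000000000000000000000000000000000000000000000000000000000000000000000000000000000000000000000000000000000000000000000000000000000000000000000000000000000000000000000000000000000000000000000000, [cP]),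
  (nat_lit 0x500000000000000000440000000000000000000000000000000000000000000000000000000000000000000000000000000000000000000000000000000000000000000000000000000000000000000000000000000000000000000000000000000000000000000000000000000000, [cP]),
  (nat_lit 0x220000000000000000000000000000000000000000000000000000000000000000000000000000000000000000000000000000000000000000000000000000000000000000000000000000000000000000000000000000000000000000000000000000000000000000000000000000000000, [cP]),
  (nat_lit 0x1c000000000000000000000000000000000000000000000000000000000000000000000000000000000000000000000000000000000000000000000000000000000000000000000000000000000000000000000000000000000000000000000000000000000000000000000000000000000000, [cP]),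
  (nat_lit 0x440000000000000000000000000000000000000000000000000000000000000000000000000000000000000000000000000000000000000000000000000000000000000000000000000000000000000000000000000000000000000000000000000000000000000000000000000000000000000000, [cP]),
  (nat_lit 0x28000000000000000000000000000000000000000000000000000000000000000000000000000000000000000000000000000000000000000000000000000000000000000000000000000000000000000000000000000000000000000000000000000000000000000000000000000000000000000000, [cP]),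
  (nat_lit 0x200000800000000000000000000000000000000000000000000000000000000000000000000000000000000000000000000000000000000000000000000000000000000000000000000000000000000000000000000000000000000000000000000000000000000000000000000000000000000000000000000000000000000000000000000000000000000000000000000000000000000000000000000000000, [cP]),
  (nat_lit 0x3000000000000000000000000000000000000000000000000000000000000000000000000000000000000000000000000000000000000000000000000000000000000000000000000000000000000000000000000000000000000000000000000000000000000000000000000000000000000000000000000000000000000000000000000000000000000000000000000000000000000000000000000000000000, [cP]),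
  (nat_lit 0x400020000000000000000000000000000000000000000000000000000000000000000000000000000000000000000000000000000000000000000000000000000000000000000000000000000000000000000000000000000000000000000000000000000000000000000000000000000000000000000000000000000000000000000000000000000000000000000000000000000000000000000000000000000000000, [cP]),
  (nat_lit 0x2000000000000000000000000000000000000000000000000000000000000000000000000000000000000000000000000000000000000000000000000000000000000000000000000000000000000000000000000000000000000000000000000000000000000000000000000000000000000000000000000000000000000000000000000000000000000000000000000000000000000000000000000000000000000000, [cP]),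
  (nat_lit 0x1800000000000000008000000000000000000000000000000000000000000000000000000000000000000000000000000000000000000000000000000000000000000000000000000000000000000000000000000000000000000000000000000000000000000000000000000000000000000000000000000000000000000000000000000000000000000000000000000000000000000000000000000000000000000000000000000000000000, [cP]),
  (nat_lit 0x832000000000000000000000000000000000000000000000000000000000000000000000000000000000000000000000000000000000000000000000000000000000000000000000000000000000000000000000000000000000000000000000000000000000000000000000000000000000000000000000000000000000000000000000000000000000000000000000000000000000000000000000000000000000000000000000000000000000, [cP]),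
  (nat_lit 0x1045000000000000000000000000000000000000000000000000000000000000000000000000000000000000000000000000000000000000000000000000000000000000000000000000000000000000000000000000000000000000000000000000000000000000000000000000000000000000000000000000000000000000000000000000000000000000000000000000000000000000000000000000000000000000000000000000000000000000000, [cP]),
  (nat_lit 0x1c6000000000000000000000000000000000000000000000000000000000000000000000000000000000000000000000000000000000000000000000000000000000000000000000000000000000000000000000000000000000000000000000000000000000000000000000000000000000000000000000000000000000000000000000000000000000000000000000000000000000000000000000000000000000000000000000000000000000000000000000, [cP]),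
  (nat_lit 0x1800000000000000000000000000000000000000000000000000000000000000000000000000000000000000000000000000000000000000000000000000000000000000000000000000000000000000000000000000000000000000000000000000000000000000000000000000000000000000000000000000000000000000000000000000000000000000000000000000000000000000000000000000000000000000000000000000000000000000000000000, [cP]),
  (nat_lit 0x60000000000000002000000000000000000000000000000000000000000000000000000000000000000000000000000000000000000000000000000000000000000000000000000000000000000000000000000000000000000000000000000000000000000000000000000000000000000000000000000000000000000000000000000000000000000000000000000000000000000000000000000000000000000000000000000000000000000000000000000000000000000000000, [cP]),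
  (nat_lit 0x8400000400000000000000000000000000000000000000000000000000000000000000000000000000000000000000000000000000000000000000000000000000000000000000000000000000000000000000000000000000000000000000000000000000000000000000000000000000000000000000000000000000000000000000000000000000000000000000000000000000000000000000000000000000000000000000000000000000000000000000000000000000000000000000000, [cP]),
  (nat_lit 0x40000000000000000000000000000000000000000000000000000000000000000000000000000000000000000000000000000000000000000000000000000000000000000000000000000000000000000000000000000000000000000000000000000000000000000000000000000000000000000000000000000000000000000000000000000000000000000000000000000000000000000000000000000000000000000000000000000000000000000000000000000000000000000000000000000, [cP]),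
  (nat_lit 0x3900000000000000000000000000000000000000000000000000000000000000000000000000000000000000000000000000000000000000000000000000000000000000000000000000000000000000000000000000000000000000000000000000000000000000000000000000000000000000000000000000000000000000000000000000000000000000000000000000000000000000000000000000000000000000000000000000000000000000000000000000000000000000000000000000000, [cP]),
  (nat_lit 0x10000000000000000000000000000000000000000000000000000000000000000000000000000000000000000000000000000000000000000000000000000000000000000000000000000000000000000000000000000000000000000000000000000000000000000000000000000000000000000000000000000000000000000000000000000000000000000000000000000000000000000000000000000000000000000000000000000000000000000000000000000000000000000000000000000000, [cP])]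

theorem hp0 : ∀ p ∈ L0, ∀ D2 ∈ p.2, ∃ e,
    search ext94 (Pool.Agent.H74.EGZ.vio sb) G Uc A0 p.1 D2 e = true :=
  (List.forall_mem_cons.2 ⟨(List.forall_mem_singleton.2 ⟨e0, by decide +kernel⟩),
  (List.forall_mem_cons.2 ⟨(List.forall_mem_singleton.2 ⟨e1, by decide +kernel⟩),
  (List.forall_mem_cons.2 ⟨(List.forall_mem_singleton.2 ⟨e2, by decide +kernel⟩),
  (List.forall_mem_cons.2 ⟨(List.forall_mem_singleton.2 ⟨e3, by decide +kernel⟩),
  (List.forall_mem_cons.2 ⟨(List.forall_mem_singleton.2 ⟨e4, by decide +kernel⟩),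
  (List.forall_mem_cons.2 ⟨(List.forall_mem_singleton.2 ⟨e5, by decide +kernel⟩),
  (List.forall_mem_cons.2 ⟨(List.forall_mem_singleton.2 ⟨e6, by decide +kernel⟩),
  (List.forall_mem_cons.2 ⟨(List.forall_mem_singleton.2 ⟨e7, by decide +kernel⟩),
  (List.forall_mem_cons.2 ⟨(List.forall_mem_singleton.2 ⟨e8, by decide +kernel⟩),
  (List.forall_mem_cons.2 ⟨(List.forall_mem_singleton.2 ⟨e9, by decide +kernel⟩),
  (List.forall_mem_cons.2 ⟨(List.forall_mem_singleton.2 ⟨e10, by decide +kernel⟩),
  (List.forall_mem_cons.2 ⟨(List.forall_mem_singleton.2 ⟨e11, by decide +kernel⟩),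
  (List.forall_mem_cons.2 ⟨(List.forall_mem_singleton.2 ⟨e12, by decide +kernel⟩),
  (List.forall_mem_cons.2 ⟨(List.forall_mem_singleton.2 ⟨e13, by decide +kernel⟩),
  (List.forall_mem_cons.2 ⟨(List.forall_mem_singleton.2 ⟨e14, by decide +kernel⟩),
  (List.forall_mem_cons.2 ⟨(List.forall_mem_singleton.2 ⟨e15, by decide +kernel⟩),
  (List.forall_mem_cons.2 ⟨(List.forall_mem_singleton.2 ⟨e16, by decide +kernel⟩),
  (List.forall_mem_cons.2 ⟨(List.forall_mem_singleton.2 ⟨e17, by decide +kernel⟩),
  (List.forall_mem_cons.2 ⟨(List.forall_mem_singleton.2 ⟨e18, by decide +kernel⟩),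
  (List.forall_mem_cons.2 ⟨(List.forall_mem_singleton.2 ⟨e19, by decide +kernel⟩),
  (List.forall_mem_cons.2 ⟨(List.forall_mem_singleton.2 ⟨e20, by decide +kernel⟩),
  (List.forall_mem_cons.2 ⟨(List.forall_mem_singleton.2 ⟨e21, by decide +kernel⟩),
  (List.forall_mem_cons.2 ⟨(List.forall_mem_singleton.2 ⟨e22, by decide +kernel⟩),
  (List.forall_mem_cons.2 ⟨(List.forall_mem_singleton.2 ⟨e23, by decide +kernel⟩),
  (List.forall_mem_cons.2 ⟨(List.forall_mem_singleton.2 ⟨.leaf, by decide +kernel⟩),
  (List.forall_mem_cons.2 ⟨(List.forall_mem_singleton.2 ⟨e25, by decide +kernel⟩),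
  (List.forall_mem_cons.2 ⟨(List.forall_mem_singleton.2 ⟨e26, by decide +kernel⟩),
  (List.forall_mem_cons.2 ⟨(List.forall_mem_singleton.2 ⟨e27, by decide +kernel⟩),
  (List.forall_mem_cons.2 ⟨(List.forall_mem_singleton.2 ⟨e28, by decide +kernel⟩),
  (List.forall_mem_cons.2 ⟨(List.forall_mem_singleton.2 ⟨e29, by decide +kernel⟩),
  (List.forall_mem_cons.2 ⟨(List.forall_mem_singleton.2 ⟨e30, by decide +kernel⟩),
  (List.forall_mem_cons.2 ⟨(List.forall_mem_singleton.2 ⟨e31, by decide +kernel⟩),
  (List.forall_mem_cons.2 ⟨(List.forall_mem_singleton.2 ⟨e32, by decide +kernel⟩),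
  (List.forall_mem_cons.2 ⟨(List.forall_mem_singleton.2 ⟨e33, by decide +kernel⟩),
  (List.forall_mem_cons.2 ⟨(List.forall_mem_singleton.2 ⟨e34, by decide +kernel⟩),
  (List.forall_mem_cons.2 ⟨(List.forall_mem_singleton.2 ⟨e35, by decide +kernel⟩),
  (List.forall_mem_cons.2 ⟨(List.forall_mem_singleton.2 ⟨e36, by decide +kernel⟩),
  (List.forall_mem_cons.2 ⟨(List.forall_mem_singleton.2 ⟨e37, by decide +kernel⟩),
  (List.forall_mem_cons.2 ⟨(List.forall_mem_singleton.2 ⟨e38, by decide +kernel⟩),
  (List.forall_mem_singleton.2 (List.forall_mem_singleton.2 ⟨e39, by decide +kernel⟩))⟩)⟩)⟩)⟩)⟩)⟩)⟩)⟩)⟩)⟩)⟩)⟩)⟩)⟩)⟩)⟩)⟩)⟩)⟩)⟩)⟩)⟩)⟩)⟩)⟩)⟩)⟩)⟩)⟩)⟩)⟩)⟩)⟩)⟩)⟩)⟩)⟩)⟩)⟩)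

end

end Pool.Agent.H21.EGZ.S22
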