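import Pool.Agent.H21.EGZ.D23

/-!
# Stage 23 : search, part 0
-/

set_option autoImplicit false
set_option maxRecDepth 100000

namespace Pool.Agent.H21.EGZ.S23

noncomputable section

open Pool.Agent.H74.EGZ Pool.Agent.H94.Lift

/-- refutations 0 -/
def e0 : EX := (.node (.node (.node (.node (.node (.node (.node (.node .leaf (nat_lit 35184607098343) (.br (nat_lit 0) (.cons (.br (nat_lit 2) (.cons (.rel (nat_lit 71303301)) .nil)) .nil)) .leaf) (nat_lit 35184607553662) (.br (nat_lit 0) (.cons (.br (nat_lit 1) (.cons (.rel (nat_lit 42221568)) .nil)) .nil)) .leaf) (nat_lit 35184608265724) (.br (nat_lit 1) (.cons (.br (nat_lit 5) (.cons (.rel (nat_lit 4312023297)) .nil)) .nil)) (.node .leaf (nat_lit 35184608630247) (.br (nat_lit 2) (.cons (.br (nat_lit 6) (.cons (.rel (nat_lit 34493960466)) (.cons (.rel (nat_lit 17314156548)) .nil))) (.cons (.br (nat_lit 3) (.cons (.rel (nat_lit 335544468)) (.cons (.rel (nat_lit 335613960)) .nil))) .nil))) .leaf)) (nat_lit 35185466915593) (.br (nat_lit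 1) (.cons (.br (nat_lit 3) (.cons (.rel (nat_lit 286524672)) .nil)) .nil)) (.node (.node .leaf (nat_lit 35185466929334) (.br (nat_lit 0) (.cons (.br (nat_lit 1) (.cons (.rel (nat_lit 37814337)) .nil)) .nil)) .leaf) (nat_lit 35185467058428) (.br (nat_lit 1) (.cons (.br (nat_lit 3) (.cons (.rel (nat_lit 286261284)) .nil)) .nil)) (.node .leaf (nat_lit 35185467386612) (.br (nat_lit 2) (.cons (.br (nat_lit 6) (.cons (.rel (nat_lit 17247241344)) .nil)) .nil)) .leaf))) (nat_lit 35185467386793) (.br (nat_lit 0) (.cons (.br (nat_lit 3) (.cons (.rel (nat_lit 272634120)) (.cons (.rel (nat_lit 273678468)) .nil))) .nil)) (.node (.node (.node .leaf (nat_lit 35185468096549) (.br (nat_lit 1) (.cons (.br (nat_lit 6) (.cons (.rel (nat_lit 17213816832)) .nil)) .nil)) .leaf) (nat_lit 35185468097322) (.br (nat_lit 1) (.cons (.br (nat_lit 2) (.cons (.rel (nat_lit 83888136)) .nil)) .nil)) (.node .leaf (nat_lit 35185655673457) (.br (nat_lit 5) (.cons (.br (nat_lit 4) (.cons (.rel (nat_lit 9663680544)) (.cons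 (.rel (nat_lit 5368709640)) (.cons (.rel (nat_lit 9663680544)) .nil)))) .nil)) .leaf)) (nat_lit 35185655673469) (.br (nat_lit 1) (.cons (.br (nat_lit 3) (.cons (.rel (nat_lit 553713666)) .nil)) .nil)) (.node (.node .leaf (nat_lit 35185655673584) (.br (nat_lit 0) (.cons (.br (nat_lit 4) (.cons (.rel (nat_lit 1078075392)) (.cons (.rel (nat_lit 1078199616)) .nil))) (.cons (.br (nat_lit 4) (.cons (.rel (nat_lit 2155941888)) (.cons (.rel (nat_lit 1077937233)) .nil))) .nil))) .leaf) (nat_lit 35185656122121) (.br (nat_lit 0) (.cons (.br (nat_lit 2) (.cons (.rel (nat_lit 142610433)) .nil)) .nil)) (.node .leaf (nat_lit 35185656130313) (.br (nat_lit 5) (.cons (.br (nat_lit 6) (.cons (.rel (nat_lit 25769804868)) (.cons (.rel (nat_lit 42949674240)) (.cons (.rel (nat_lit 38654738433)) .nil)))) (.cons (.br (nat_lit 0) (.cons (.rel (nat_lit 4299169860)) (.cons (.rel (nat_lit 4304405760)) (.cons (.rel (nat_lit 8598323205)) (.cons (.rel (nat_lit 4304405760)) (.cons (.rel (nat_lit 4299165825)) .nil))))))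 (.cons (.br (nat_lit 6) (.cons (.rel (nat_lit 25769804868)) (.cons (.rel (nat_lit 38654726160)) (.cons (.rel (nat_lit 42949674240)) .nil)))) .nil)))) .leaf)))) (nat_lit 35185656131072) (.br (nat_lit 0) (.cons (.br (nat_lit 4) (.cons (.rel (nat_lit 1083179328)) .nil)) .nil)) (.node (.node (.node (.node (.node .leaf (nat_lit 35185656841077) (.br (nat_lit 3) (.cons (.br (nat_lit 5) (.cons (.rel (nat_lit 4563419265)) (.cons (.rel (nat_lit 4563472449)) .nil))) .nil)) .leaf) (nat_lit 35185656879729) (.br (nat_lit 2) (.cons (.br (nat_lit 1) (.cons (.rel (nat_lit 84149505)) (.cons (.rel (nat_lit 83888136)) .nil))) .nil)) .leaf) (nat_lit 35185656879766) (.br (nat_lit 0) (.cons (.br (nat_lit 2) (.cons (.rel (nat_lit 138543360)) .nil)) .nil)) (.node .leaf (nat_lit 35185657104534) (.br (nat_lit 1) (.cons (.br (nat_lit 2) (.cons (.rel (nat_lit 83888136)) .nil)) .nil)) .leaf)) (nat_lit 35187120756075) (.br (nat_lit 0) (.cons (.br (nat_lit 1) (.cons (.rel (nat_lit 21234309)) .nil)) .nil)) (.node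 (.node .leaf (nat_lit 35187253702912) (.br (nat_lit 6) (.cons (.br (nat_lit 0) (.cons (.rel (nat_lit 34363932945)) (.cons (.rel (nat_lit 17184227328)) .nil))) .nil)) .leaf) (nat_lit 35187253703281) (.br (nat_lit 4) (.cons (.br (nat_lit 6) (.cons (.rel (nat_lit 19327352865)) (.cons (.rel (nat_lit 18255709185)) .nil))) (.cons (.br (nat_lit 6) (.cons (.rel (nat_lit 18253873221)) (.cons (.rel (nat_lit 35433504768)) .nil))) .nil))) (.node .leaf (nat_lit 35187253703408) (.br (nat_lit 0) (.cons (.br (nat_lit 6) (.cons (.rel (nat_lit 17184065640)) .nil)) .nil)) .leaf))) (nat_lit 35187254151205) (.br (nat_lit 0) (.cons (.br (nat_lit 3) (.cons (.rel (nat_lit 273219588)) .nil)) .nil)) (.node (.node (.node .leaf (nat_lit 35187254159390) (.br (nat_lit 2) (.cons (.br (nat_lit 1) (.cons (.rel (nat_lit 152109057)) (.cons (.rel (nat_lit 83888136)) (.cons (.rel (nat_lit 85262340)) .nil)))) .nil)) .leaf) (nat_lit 35187254159616) (.br (nat_lit 0) (.cons (.br (nat_lit 3) (.cons (.rel (nat_lit 273711120))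 .nil)) .nil)) (.node .leaf (nat_lit 35187254160261) (.br (nat_lit 0) (.cons (.br (nat_lit 2) (.cons (.rel (nat_lit 142610433)) .nil)) .nil)) .leaf)) (nat_lit 35187254871577) (.br (nat_lit 0) (.cons (.br (nat_lit 2) (.cons (.rel (nat_lit 71303301)) (.cons (.rel (nat_lit 138543360)) .nil))) .nil)) (.node (.node .leaf (nat_lit 35187254909680) (.br (nat_lit 2) (.cons (.br (nat_lit 3) (.cons (.rel (nat_lit 335609925)) .nil)) .nil)) .leaf) (nat_lit 35187255227120) (.br (nat_lit 2) (.cons (.br (nat_lit 3) (.cons (.rel (nat_lit 336594432)) .nil)) .nil)) (.node .leaf (nat_lit 35187255234812) (.br (nat_lit 1) (.cons (.br (nat_lit 2) (.cons (.rel (nat_lit 150995217)) .nil)) .nil)) .leaf))))) (nat_lit 35187564081182) (.br (nat_lit 1) (.cons (.br (nat_lit 6) (.cons (.br (nat_lit 0) (.cons (.rel (nat_lit 42221568)) (.cons (.rel (nat_lit 17184064578)) .nil))) .nil)) .nil)) (.node (.node (.node (.node (.node (.node .leaf (nat_lit 35187564538608) (.br (nat_lit 2) (.cons (.br (nat_lit 6) (.cons (.rel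 (nat_lit 17249141760)) (.cons (.rel (nat_lit 34493972736)) (.cons (.rel (nat_lit 34493972736)) .nil)))) (.cons (.br (nat_lit 5) (.cons (.rel (nat_lit 4362338376)) (.cons (.rel (nat_lit 4362338376)) .nil))) .nil))) .leaf) (nat_lit 35187564539417) (.br (nat_lit 6) (.cons (.br (nat_lit 2) (.cons (.rel (nat_lit 17249141760)) (.cons (.rel (nat_lit 34493972736)) (.cons (.rel (nat_lit 17247241344)) .nil)))) .nil)) .leaf) (nat_lit 35187565248542) (.br (nat_lit 2) (.cons (.br (nat_lit 5) (.cons (.rel (nat_lit 4362342402)) (.cons (.rel (nat_lit 4429185093)) .nil))) (.cons (.br (nat_lit 6) (.cons (.rel (nat_lit 34426864641)) (.cons (.rel (nat_lit 34493972736)) .nil))) .nil))) (.node .leaf (nat_lit 35187565249264) (.br (nat_lit 5) (.cons (.br (nat_lit 2) (.cons (.rel (nat_lit 4362342402)) (.cons (.rel (nat_lit 4362338376)) .nil))) .nil)) .leaf)) (nat_lit 35188189032478) (.br (nat_lit 1) (.cons (.br (nat_lit 2) (.cons (.rel (nat_lit 152109057)) (.cons (.rel (nat_lit 101187840)) (.cons (.rel (nat_lit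 83906640)) (.cons (.rel (nat_lit 83886117)) .nil))))) .nil)) (.node (.node .leaf (nat_lit 35188189033200) (.br (nat_lit 5) (.cons (.br (nat_lit 6) (.cons (.rel (nat_lit 38654772288)) .nil)) .nil)) .leaf) (nat_lit 35188189033225) (.br (nat_lit 1) (.cons (.br (nat_lit 6) (.cons (.rel (nat_lit 34376515905)) .nil)) .nil)) (.node .leaf (nat_lit 35188189033959) (.br (nat_lit 3) (.cons (.br (nat_lit 5) (.cons (.rel (nat_lit 9126842373)) .nil)) .nil)) .leaf))) (nat_lit 35188189034009) (.br (nat_lit 1) (.cons (.br (nat_lit 6) (.cons (.rel (nat_lit 17196646533)) .nil)) .nil)) (.node (.node (.node .leaf (nat_lit 35188189489334) (.br (nat_lit 1) (.cons (.br (nat_lit 4) (.cons (.rel (nat_lit 1090603008)) (.cons (.rel (nat_lit 1108345104)) .nil))) .nil)) .leaf) (nat_lit 35188189489904) (.br (nat_lit 1) (.cons (.br (nat_lit 2) (.cons (.rel (nat_lit 83952768)) .nil)) .nil)) (.node .leaf (nat_lit 35188189489908) (.br (nat_lit 1) (.cons (.br (nat_lit 2) (.cons (.rel (nat_lit 83952768)) (.cons (.rel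 (nat_lit 83888136)) .nil))) .nil)) .leaf)) (nat_lit 35188189489929) (.br (nat_lit 1) (.cons (.br (nat_lit 6) (.cons (.rel (nat_lit 17196778497)) (.cons (.rel (nat_lit 34393296897)) .nil))) (.cons (.br (nat_lit 2) (.cons (.rel (nat_lit 101187840)) (.cons (.rel (nat_lit 83918913)) .nil))) .nil))) (.node (.node .leaf (nat_lit 35188189489952) (.br (nat_lit 0) (.cons (.br (nat_lit 1) (.cons (.rel (nat_lit 22093824)) .nil)) .nil)) .leaf) (nat_lit 35188189490689) (.br (nat_lit 0) (.cons (.br (nat_lit 1) (.cons (.rel (nat_lit 42221568)) .nil)) .nil)) (.node .leaf (nat_lit 35188190199838) (.br (nat_lit 1) (.cons (.br (nat_lit 5) (.cons (.rel (nat_lit 4311760914)) (.cons (.rel (nat_lit 4311745620)) .nil))) .nil)) .leaf)))) (nat_lit 35188190556937) (.br (nat_lit 2) (.cons (.br (nat_lit 5) (.cons (.rel (nat_lit 4362093057)) .nil)) .nil)) (.node (.node (.node (.node (.node .leaf (nat_lit 35188191980297) (.br (nat_lit 2) (.cons (.br (nat_lit 3) (.cons (.rel (nat_lit 402784530)) .nil)) .nil)) .leaf)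 (nat_lit 35188293890078) (.br (nat_lit 5) (.cons (.br (nat_lit 6) (.cons (.rel (nat_lit 25769807889)) .nil)) .nil)) .leaf) (nat_lit 35188293890230) (.br (nat_lit 2) (.cons (.br (nat_lit 5) (.cons (.rel (nat_lit 4362338376)) .nil)) .nil)) (.node .leaf (nat_lit 35188293890304) (.br (nat_lit 3) (.cons (.br (nat_lit 1) (.cons (.rel (nat_lit 285233424)) (.cons (.rel (nat_lit 553713666)) (.cons (.rel (nat_lit 553652244)) .nil)))) .nil)) .leaf)) (nat_lit 35188293890673) (.br (nat_lit 3) (.cons (.br (nat_lit 6) (.cons (.rel (nat_lit 17717002242)) (.cons (.rel (nat_lit 17448371202)) (.cons (.rel (nat_lit 17448390720)) .nil)))) .nil)) (.node (.node .leaf (nat_lit 35188293891584) (.br (nat_lit 2) (.cons (.br (nat_lit 5) (.cons (.rel (nat_lit 4362338376)) .nil)) .nil)) .leaf) (nat_lit 35188293891609) (.br (nat_lit 0) (.cons (.br (nat_lit 1) (.cons (.rel (nat_lit 42221568)) .nil)) .nil)) (.node .leaf (nat_lit 35188294331145) (.br (nat_lit 0) (.cons (.br (nat_lit 2) (.cons (.rel (nat_lit 71307336))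 .nil)) .nil)) .leaf))) (nat_lit 35188294331153) (.br (nat_lit 1) (.cons (.br (nat_lit 2) (.cons (.rel (nat_lit 101187840)) (.cons (.rel (nat_lit 83952768)) .nil))) .nil)) (.node (.node (.node .leaf (nat_lit 35188294338590) (.br (nat_lit 0) (.cons (.br (nat_lit 1) (.cons (.br (nat_lit 2) (.cons (.rel (nat_lit 83888136)) (.cons (.rel (nat_lit 75759681)) .nil))) (.cons (.rel (nat_lit 20979984)) .nil))) (.cons (.br (nat_lit 2) (.cons (.rel (nat_lit 71303301)) (.cons (.rel (nat_lit 71303301)) .nil))) .nil))) .leaf) (nat_lit 35188294338597) (.br (nat_lit 0) (.cons (.br (nat_lit 3) (.cons (.rel (nat_lit 272648448)) .nil)) .nil)) (.node .leaf (nat_lit 35188294339341) (.br (nat_lit 3) (.cons (.br (nat_lit 0) (.cons (.rel (nat_lit 273219588)) (.cons (.rel (nat_lit 541102080)) .nil))) .nil)) .leaf)) (nat_lit 35188294340096) (.br (nat_lit 2) (.cons (.br (nat_lit 1) (.cons (.rel (nat_lit 151257600)) (.cons (.rel (nat_lit 83888136)) .nil))) .nil)) (.node (.node .leaf (nat_lit 35188294346782) (.br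 (nat_lit 0) (.cons (.br (nat_lit 5) (.cons (.rel (nat_lit 4299163665)) (.cons (.rel (nat_lit 8598323205)) .nil))) (.cons (.br (nat_lit 5) (.cons (.rel (nat_lit 4299162660)) (.cons (.rel (nat_lit 8598323205)) .nil))) .nil))) .leaf) (nat_lit 35188294347529) (.br (nat_lit 1) (.cons (.br (nat_lit 2) (.cons (.rel (nat_lit 83888136)) (.cons (.br (nat_lit 0) (.cons (.br (nat_lit 5) (.cons (.rel (nat_lit 4299163665)) (.cons (.rel (nat_lit 4362338376)) (.cons (.rel (nat_lit 4433641473)) (.cons (.rel (nat_lit 8623509504)) .nil))))) (.cons (.rel (nat_lit 71303301)) (.cons (.rel (nat_lit 37814337)) (.cons (.rel (nat_lit 37814337)) .nil))))) (.cons (.rel (nat_lit 83918913)) (.cons (.rel (nat_lit 83918913)) .nil))))) (.cons (.br (nat_lit 0) (.cons (.rel (nat_lit 20972928)) (.cons (.rel (nat_lit 21528576)) (.cons (.rel (nat_lit 42221568)) (.cons (.rel (nat_lit 37814337)) .nil))))) .nil))) (.node .leaf (nat_lit 35188294348288) (.br (nat_lit 5) (.cons (.br (nat_lit 0) (.cons (.rel (nat_lit 8594657280))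 (.cons (.rel (nat_lit 4299161610)) (.cons (.rel (nat_lit 4299169860)) .nil)))) .nil)) .leaf)))))) (nat_lit 35188295160433) (.br (nat_lit 0) (.cons (.br (nat_lit 3) (.cons (.rel (nat_lit 273219588)) .nil)) .nil)) (.node (.node (.node (.node (.node (.node (.node .leaf (nat_lit 35188295414385) (.br (nat_lit 2) (.cons (.br (nat_lit 3) (.cons (.rel (nat_lit 606076929)) .nil)) .nil)) .leaf) (nat_lit 35188295414537) (.br (nat_lit 2) (.cons (.br (nat_lit 1) (.cons (.rel (nat_lit 83888136)) (.cons (.rel (nat_lit 83888136)) (.cons (.rel (nat_lit 83888136)) .nil)))) .nil)) .leaf) (nat_lit 35188295415147) (.br (nat_lit 2) (.cons (.br (nat_lit 3) (.cons (.rel (nat_lit 335564802)) (.cons (.rel (nat_lit 403701762)) .nil))) .nil)) (.node .leaf (nat_lit 35188296860329) (.br (nat_lit 2) (.cons (.br (nat_lit 3) (.cons (.rel (nat_lit 335564802)) .nil)) .nil)) .leaf)) (nat_lit 35502221981756) (.br (nat_lit 1) (.cons (.br (nat_lit 4) (.cons (.rel (nat_lit 2181054480)) .nil)) .nil)) (.node (.node .leaf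 (nat_lit 35502766027553) (.br (nat_lit 1) (.cons (.br (nat_lit 2) (.cons (.rel (nat_lit 83952768)) .nil)) .nil)) .leaf) (nat_lit 35502766228081) (.br (nat_lit 2) (.cons (.br (nat_lit 1) (.cons (.rel (nat_lit 83888136)) (.cons (.rel (nat_lit 83888136)) .nil))) .nil)) (.node .leaf (nat_lit 35502766228966) (.br (nat_lit 2) (.cons (.br (nat_lit 3) (.cons (.rel (nat_lit 606076929)) .nil)) .nil)) .leaf))) (nat_lit 35502766463011) (.br (nat_lit 3) (.cons (.br (nat_lit 5) (.cons (.rel (nat_lit 9126806544)) .nil)) .nil)) (.node (.node (.node .leaf (nat_lit 35502766463861) (.br (nat_lit 2) (.cons (.br (nat_lit 3) (.cons (.rel (nat_lit 335545473)) .nil)) .nil)) .leaf) (nat_lit 35502766483586) (.br (nat_lit 2) (.cons (.br (nat_lit 4) (.cons (.rel (nat_lit 1141243908)) (.cons (.rel (nat_lit 1208090625)) (.cons (.rel (nat_lit 1141243908)) .nil)))) (.cons (.br (nat_lit 3) (.cons (.rel (nat_lit 335552529)) (.cons (.rel (nat_lit 335552529)) .nil))) .nil))) (.node .leaf (nat_lit 35502766484261) (.br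 (nat_lit 3) (.cons (.br (nat_lit 5) (.cons (.rel (nat_lit 4564468224)) (.cons (.rel (nat_lit 4564468224)) .nil))) .nil)) .leaf)) (nat_lit 35502766484956) (.br (nat_lit 3) (.cons (.br (nat_lit 0) (.cons (.rel (nat_lit 273686529)) (.cons (.rel (nat_lit 273686529)) .nil))) .nil)) (.node (.node .leaf (nat_lit 35502767241276) (.br (nat_lit 0) (.cons (.br (nat_lit 3) (.cons (.rel (nat_lit 273219588)) .nil)) .nil)) .leaf) (nat_lit 35502768587433) (.br (nat_lit 1) (.cons (.br (nat_lit 2) (.cons (.rel (nat_lit 83888136)) .nil)) .nil)) (.node .leaf (nat_lit 35615156726562) (.br (nat_lit 0) (.cons (.br (nat_lit 2) (.cons (.rel (nat_lit 71303301)) .nil)) .nil)) .leaf)))) (nat_lit 35617270526729) (.br (nat_lit 0) (.cons (.br (nat_lit 3) (.cons (.rel (nat_lit 272634120)) .nil)) .nil)) (.node (.node (.node (.node (.node .leaf (nat_lit 35617270656282) (.br (nat_lit 1) (.cons (.br (nat_lit 2) (.cons (.rel (nat_lit 83888136)) .nil)) .nil)) .leaf) (nat_lit 35617271694089) (.br (nat_lit 3) (.cons (.br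 (nat_lit 5) (.cons (.rel (nat_lit 4563423300)) .nil)) .nil)) .leaf) (nat_lit 35617686930210) (.br (nat_lit 3) (.cons (.br (nat_lit 6) (.cons (.rel (nat_lit 34896678912)) .nil)) .nil)) (.node .leaf (nat_lit 35617687286562) (.br (nat_lit 3) (.cons (.br (nat_lit 0) (.cons (.rel (nat_lit 272648448)) (.cons (.br (nat_lit 6) (.cons (.rel (nat_lit 34896678912)) (.cons (.rel (nat_lit 17184081936)) .nil))) .nil))) .nil)) .leaf)) (nat_lit 35617688758553) (.br (nat_lit 0) (.cons (.br (nat_lit 2) (.cons (.rel (nat_lit 72352260)) .nil)) .nil)) (.node (.node .leaf (nat_lit 35619263015714) (.br (nat_lit 1) (.cons (.br (nat_lit 2) (.cons (.rel (nat_lit 84017220)) .nil)) .nil)) .leaf) (nat_lit 35619265882914) (.br (nat_lit 4) (.cons (.br (nat_lit 6) (.cons (.rel (nat_lit 35433545856)) (.cons (.rel (nat_lit 18255709185)) .nil))) .nil)) (.node .leaf (nat_lit 35668815535490) (.br (nat_lit 0) (.cons (.br (nat_lit 2) (.cons (.rel (nat_lit 72352260)) .nil)) .nil)) .leaf))) (nat_lit 35668816889218) (.br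 (nat_lit 0) (.cons (.br (nat_lit 1) (.cons (.rel (nat_lit 21037380)) .nil)) .nil)) (.node (.node (.node .leaf (nat_lit 35711239639321) (.br (nat_lit 1) (.cons (.br (nat_lit 3) (.cons (.rel (nat_lit 285245697)) .nil)) .nil)) .leaf) (nat_lit 35711550548720) (.br (nat_lit 1) (.cons (.br (nat_lit 6) (.cons (.rel (nat_lit 34393296897)) .nil)) .nil)) (.node .leaf (nat_lit 35711550549529) (.br (nat_lit 3) (.cons (.br (nat_lit 0) (.cons (.rel (nat_lit 273155136)) (.cons (.rel (nat_lit 272696592)) .nil))) .nil)) .leaf)) (nat_lit 36344248723737) (.br (nat_lit 1) (.cons (.br (nat_lit 3) (.cons (.rel (nat_lit 285233424)) .nil)) .nil)) (.node (.node .leaf (nat_lit 36347205251204) (.br (nat_lit 4) (.cons (.br (nat_lit 5) (.cons (.br (nat_lit 3) (.cons (.rel (nat_lit 9126872193)) (.cons (.rel (nat_lit 4563472449)) .nil))) (.cons (.rel (nat_lit 6442452096)) .nil))) .nil)) .leaf) (nat_lit 36347205251858) (.br (nat_lit 1) (.cons (.br (nat_lit 2) (.cons (.br (nat_lit 4) (.cons (.rel (nat_lit 1158676482))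 .nil)) .nil)) .nil)) (.node .leaf (nat_lit 36347205251874) (.br (nat_lit 1) (.cons (.br (nat_lit 3) (.cons (.rel (nat_lit 285245697)) .nil)) .nil)) .leaf))))) (nat_lit 36347205251959) (.br (nat_lit 3) (.cons (.br (nat_lit 4) (.cons (.rel (nat_lit 1342185600)) .nil)) .nil)) (.node (.node (.node (.node (.node (.node .leaf (nat_lit 36347205393170) (.br (nat_lit 4) (.cons (.br (nat_lit 5) (.cons (.rel (nat_lit 10737418500)) .nil)) .nil)) .leaf) (nat_lit 36347205393634) (.br (nat_lit 4) (.cons (.br (nat_lit 5) (.cons (.rel (nat_lit 10737418500)) .nil)) .nil)) .leaf) (nat_lit 36347205452037) (.br (nat_lit 3) (.cons (.br (nat_lit 4) (.cons (.rel (nat_lit 1342194708)) (.cons (.rel (nat_lit 1342195713)) .nil))) .nil)) (.node .leaf (nat_lit 36347205452461) (.br (nat_lit 1) (.cons (.br (nat_lit 3) (.cons (.rel (nat_lit 285245697)) .nil)) .nil)) .leaf)) (nat_lit 36347205452562) (.br (nat_lit 2) (.cons (.br (nat_lit 4) (.cons (.rel (nat_lit 1141899525)) .nil)) .nil)) (.node (.node .leaf (nat_lit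 36347205708057) (.br (nat_lit 6) (.cons (.br (nat_lit 3) (.cons (.rel (nat_lit 17448390720)) (.cons (.rel (nat_lit 17448337536)) .nil))) .nil)) .leaf) (nat_lit 36347208313719) (.br (nat_lit 3) (.cons (.br (nat_lit 6) (.cons (.rel (nat_lit 17448371202)) .nil)) .nil)) (.node .leaf (nat_lit 36347830202500) (.br (nat_lit 4) (.cons (.br (nat_lit 6) (.cons (.rel (nat_lit 18253677060)) (.cons (.rel (nat_lit 18253877256)) .nil))) .nil)) .leaf))) (nat_lit 36347830202653) (.br (nat_lit 0) (.cons (.br (nat_lit 3) (.cons (.rel (nat_lit 273686529)) .nil)) .nil)) (.node (.node (.node .leaf (nat_lit 36347830659353) (.br (nat_lit 6) (.cons (.br (nat_lit 1) (.cons (.rel (nat_lit 17197695492)) (.cons (.rel (nat_lit 17196646533)) .nil))) .nil)) .leaf) (nat_lit 36349809894001) (.br (nat_lit 1) (.cons (.br (nat_lit 3) (.cons (.rel (nat_lit 285344004)) .nil)) .nil)) (.node .leaf (nat_lit 36350015875349) (.br (nat_lit 4) (.cons (.br (nat_lit 6) (.cons (.rel (nat_lit 18253612608)) .nil)) .nil)) .leaf))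 (nat_lit 36350015875959) (.br (nat_lit 2) (.cons (.br (nat_lit 4) (.cons (.rel (nat_lit 1208041476)) .nil)) .nil)) (.node (.node .leaf (nat_lit 36350015891737) (.br (nat_lit 1) (.cons (.br (nat_lit 3) (.cons (.rel (nat_lit 285344004)) .nil)) .nil)) .leaf) (nat_lit 36350015892343) (.br (nat_lit 3) (.cons (.br (nat_lit 4) (.cons (.rel (nat_lit 1342185600)) .nil)) .nil)) (.node .leaf (nat_lit 36350017123859) (.br (nat_lit 3) (.cons (.br (nat_lit 5) (.cons (.br (nat_lit 6) (.cons (.rel (nat_lit 38654738433)) .nil)) .nil)) .nil)) .leaf)))) (nat_lit 36350017872759) (.br (nat_lit 3) (.cons (.br (nat_lit 6) (.cons (.rel (nat_lit 17717002242)) .nil)) .nil)) (.node (.node (.node (.node .leaf (nat_lit 36350017932049) (.br (nat_lit 2) (.cons (.br (nat_lit 3) (.cons (.rel (nat_lit 335545473)) .nil)) .nil)) .leaf) (nat_lit 36350017932545) (.br (nat_lit 3) (.cons (.br (nat_lit 4) (.cons (.rel (nat_lit 1342195713)) .nil)) .nil)) (.node .leaf (nat_lit 36350018497399) (.br (nat_lit 3) (.cons (.br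 (nat_lit 0) (.cons (.rel (nat_lit 273711120)) (.cons (.rel (nat_lit 541065249)) (.cons (.br (nat_lit 6) (.cons (.rel (nat_lit 34896678912)) (.cons (.rel (nat_lit 17184064578)) (.cons (.rel (nat_lit 17184227328)) (.cons (.br (nat_lit 1) (.cons (.rel (nat_lit 17196666912)) (.cons (.rel (nat_lit 285245697)) (.cons (.rel (nat_lit 17196654594)) (.cons (.rel (nat_lit 285245697)) (.cons (.rel (nat_lit 25183233)) (.cons (.rel (nat_lit 553713666)) (.cons (.rel (nat_lit 286262289)) .nil)))))))) .nil))))) (.cons (.br (nat_lit 6) (.cons (.rel (nat_lit 34896678912)) (.cons (.rel (nat_lit 34368208896)) (.cons (.rel (nat_lit 17184063573)) (.cons (.rel (nat_lit 17184129030)) .nil))))) (.cons (.rel (nat_lit 541065249)) .nil)))))) .nil)) .leaf)) (nat_lit 37375040418602) (.br (nat_lit 0) (.cons (.br (nat_lit 5) (.cons (.rel (nat_lit 4299161610)) (.cons (.rel (nat_lit 4299169860)) .nil))) .nil)) (.node (.node .leaf (nat_lit 37375040875306) (.br (nat_lit 0) (.cons (.br (nat_lit 5) (.cons (.rel (nat_lit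 8598323205)) .nil)) .nil)) .leaf) (nat_lit 37375040875383) (.br (nat_lit 3) (.cons (.br (nat_lit 1) (.cons (.rel (nat_lit 302120961)) (.cons (.rel (nat_lit 285233424)) .nil))) .nil)) (.node .leaf (nat_lit 37375040875773) (.br (nat_lit 3) (.cons (.br (nat_lit 6) (.cons (.rel (nat_lit 17448304740)) .nil)) .nil)) .leaf))) (nat_lit 37375040875932) (.br (nat_lit 0) (.cons (.br (nat_lit 3) (.cons (.rel (nat_lit 272634120)) (.cons (.rel (nat_lit 273678468)) .nil))) .nil)) (.node (.node (.node .leaf (nat_lit 37375042086174) (.br (nat_lit 3) (.cons (.br (nat_lit 6) (.cons (.rel (nat_lit 17448304740)) .nil)) .nil)) .leaf) (nat_lit 37375043118366) (.br (nat_lit 2) (.cons (.br (nat_lit 4) (.cons (.rel (nat_lit 1141899525)) .nil)) .nil)) (.node .leaf (nat_lit 37377554339303) (.br (nat_lit 0) (.cons (.br (nat_lit 5) (.cons (.rel (nat_lit 4299243600)) .nil)) .nil)) .leaf)) (nat_lit 37377688548080) (.br (nat_lit 0) (.cons (.br (nat_lit 3) (.cons (.rel (nat_lit 273219588)) .nil)) .nil)) (.node (.node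 .leaf (nat_lit 37378622354160) (.br (nat_lit 1) (.cons (.br (nat_lit 3) (.cons (.rel (nat_lit 286347264)) .nil)) .nil)) .leaf) (nat_lit 37380808043383) (.br (nat_lit 1) (.cons (.br (nat_lit 3) (.cons (.rel (nat_lit 285233424)) .nil)) .nil)) (.node .leaf (nat_lit 37381105838967) (.br (nat_lit 2) (.cons (.br (nat_lit 3) (.cons (.rel (nat_lit 671105040)) .nil)) .nil)) .leaf)))))))

/-- refutations 1 -/
def e1 : EX := (.node (.node (.node (.node (.node (.node (.node .leaf (nat_lit 37569580606065) (.br (nat_lit 1) (.cons (.br (nat_lit 4) (.cons (.rel (nat_lit 1090527249)) .nil)) .nil)) .leaf) (nat_lit 37805396966153) (.br (nat_lit 0) (.cons (.br (nat_lit 1) (.cons (.rel (nat_lit 20979984)) .nil)) .nil)) .leaf) (nat_lit 37805397436598) (.br (nat_lit 3) (.cons (.br (nat_lit 0) (.cons (.rel (nat_lit 272648448)) (.cons (.rel (nat_lit 276824082)) .nil))) .nil)) (.node .leaf (nat_lit 37805400041654) (.br (nat_lit 1) (.cons (.br (nat_lit 6) (.cons (.br (nat_lit 3) (.cons (.rel (nat_lit 285279552))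 (.cons (.rel (nat_lit 17448337536)) .nil))) .nil)) .nil)) .leaf)) (nat_lit 41673070012453) (.br (nat_lit 0) (.cons (.br (nat_lit 5) (.cons (.rel (nat_lit 4299296784)) .nil)) .nil)) (.node (.node (.node .leaf (nat_lit 41673072617502) (.br (nat_lit 1) (.cons (.br (nat_lit 2) (.cons (.rel (nat_lit 101187840)) .nil)) .nil)) .leaf) (nat_lit 41673174870042) (.br (nat_lit 3) (.cons (.br (nat_lit 6) (.cons (.rel (nat_lit 17448337536)) .nil)) .nil)) .leaf) (nat_lit 41673174870198) (.br (nat_lit 0) (.cons (.br (nat_lit 3) (.cons (.rel (nat_lit 272648448)) .nil)) .nil)) (.node .leaf (nat_lit 41673174870917) (.br (nat_lit 0) (.cons (.br (nat_lit 2) (.cons (.rel (nat_lit 71311362)) .nil)) .nil)) .leaf))) (nat_lit 41673176140057) (.br (nat_lit 0) (.cons (.br (nat_lit 2) (.cons (.rel (nat_lit 71311362)) .nil)) .nil)) (.node (.node (.node (.node .leaf (nat_lit 41676190044945) (.br (nat_lit 1) (.cons (.br (nat_lit 2) (.cons (.rel (nat_lit 83888136)) .nil)) .nil)) .leaf) (nat_lit 41676190575377) (.br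 (nat_lit 0) (.cons (.br (nat_lit 4) (.cons (.rel (nat_lit 1077969024)) (.cons (.rel (nat_lit 1077936228)) (.cons (.rel (nat_lit 1077969024)) .nil)))) .nil)) .leaf) (nat_lit 41676191550976) (.br (nat_lit 0) (.cons (.br (nat_lit 2) (.cons (.rel (nat_lit 71303301)) .nil)) .nil)) (.node .leaf (nat_lit 41676193088273) (.br (nat_lit 0) (.cons (.br (nat_lit 2) (.cons (.rel (nat_lit 142607460)) .nil)) .nil)) .leaf)) (nat_lit 41855429505649) (.br (nat_lit 3) (.cons (.br (nat_lit 5) (.cons (.rel (nat_lit 4563665160)) .nil)) .nil)) (.node (.node (.node .leaf (nat_lit 41855429505780) (.br (nat_lit 0) (.cons (.br (nat_lit 1) (.cons (.rel (nat_lit 21037380)) .nil)) .nil)) .leaf) (nat_lit 41855432066434) (.br (nat_lit 3) (.cons (.br (nat_lit 4) (.cons (.rel (nat_lit 1342177350)) .nil)) .nil)) .leaf) (nat_lit 41887189233141) (.br (nat_lit 1) (.cons (.br (nat_lit 2) (.cons (.rel (nat_lit 152059908)) .nil)) .nil)) (.node .leaf (nat_lit 41887714230302) (.br (nat_lit 0) (.cons (.br (nat_lit 3) (.cons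 (.rel (nat_lit 273678468)) .nil)) .nil)) .leaf)))) (nat_lit 41942065824676) (.br (nat_lit 0) (.cons (.br (nat_lit 2) (.cons (.rel (nat_lit 71311362)) .nil)) .nil)) (.node (.node (.node (.node (.node .leaf (nat_lit 42121847500860) (.br (nat_lit 1) (.cons (.br (nat_lit 2) (.cons (.rel (nat_lit 83888136)) .nil)) .nil)) .leaf) (nat_lit 42159634443021) (.br (nat_lit 0) (.cons (.br (nat_lit 3) (.cons (.rel (nat_lit 272648448)) .nil)) .nil)) .leaf) (nat_lit 42159634443050) (.br (nat_lit 0) (.cons (.br (nat_lit 3) (.cons (.rel (nat_lit 272630085)) .nil)) .nil)) (.node .leaf (nat_lit 42162067138840) (.br (nat_lit 0) (.cons (.br (nat_lit 1) (.cons (.rel (nat_lit 20972928)) .nil)) .nil)) .leaf)) (nat_lit 42162067139316) (.br (nat_lit 3) (.cons (.br (nat_lit 2) (.cons (.rel (nat_lit 335609925)) (.cons (.rel (nat_lit 671105040)) (.cons (.rel (nat_lit 335544468)) .nil)))) .nil)) (.node (.node (.node .leaf (nat_lit 42162067139996) (.br (nat_lit 2) (.cons (.br (nat_lit 6) (.cons (.rel (nat_lit 17247260673))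 (.cons (.rel (nat_lit 17247241344)) .nil))) (.cons (.br (nat_lit 5) (.cons (.rel (nat_lit 4362093057)) (.cons (.rel (nat_lit 4362338376)) (.cons (.rel (nat_lit 8657051652)) (.cons (.rel (nat_lit 4362338376)) .nil))))) .nil))) .leaf) (nat_lit 42162067140097) (.br (nat_lit 4) (.cons (.br (nat_lit 1) (.cons (.rel (nat_lit 1090519188)) (.cons (.rel (nat_lit 1090551840)) .nil))) .nil)) .leaf) (nat_lit 42162069241893) (.br (nat_lit 1) (.cons (.br (nat_lit 2) (.cons (.rel (nat_lit 83888136)) .nil)) .nil)) (.node .leaf (nat_lit 42162805337601) (.br (nat_lit 4) (.cons (.br (nat_lit 3) (.cons (.rel (nat_lit 2684358720)) (.cons (.rel (nat_lit 1342194708)) .nil))) .nil)) .leaf))) (nat_lit 42163215921182) (.br (nat_lit 4) (.cons (.br (nat_lit 6) (.cons (.rel (nat_lit 36509597697)) (.cons (.rel (nat_lit 19327483968)) (.cons (.rel (nat_lit 19327483968)) (.cons (.rel (nat_lit 35433742593)) (.cons (.rel (nat_lit 18255709185)) .nil)))))) (.cons (.br (nat_lit 1) (.cons (.rel (nat_lit 2181054480)) (.cons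 (.rel (nat_lit 1090519188)) (.cons (.br (nat_lit 3) (.cons (.rel (nat_lit 1342185600)) (.cons (.rel (nat_lit 1611137280)) (.cons (.rel (nat_lit 1342181385)) (.cons (.rel (nat_lit 553713666)) .nil))))) .nil)))) .nil))) (.node (.node (.node (.node .leaf (nat_lit 42163215921284) (.br (nat_lit 3) (.cons (.br (nat_lit 5) (.cons (.rel (nat_lit 4832133120)) (.cons (.rel (nat_lit 9126806544)) (.cons (.rel (nat_lit 8858910720)) .nil)))) .nil)) .leaf) (nat_lit 42163215921334) (.br (nat_lit 0) (.cons (.br (nat_lit 3) (.cons (.rel (nat_lit 273711120)) .nil)) .nil)) .leaf) (nat_lit 42163215921904) (.br (nat_lit 6) (.cons (.br (nat_lit 5) (.cons (.rel (nat_lit 25769820162)) (.cons (.rel (nat_lit 21474839040)) .nil))) .nil)) (.node .leaf (nat_lit 42163215921929) (.br (nat_lit 1) (.cons (.br (nat_lit 3) (.cons (.rel (nat_lit 553648209)) (.cons (.rel (nat_lit 285279552)) .nil))) (.cons (.br (nat_lit 3) (.cons (.br (nat_lit 2) (.cons (.rel (nat_lit 335545473)) (.cons (.rel (nat_lit 101187840)) (.cons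 (.rel (nat_lit 83888136)) (.cons (.rel (nat_lit 152109057)) (.cons (.rel (nat_lit 335552529)) (.cons (.rel (nat_lit 101187840)) .nil))))))) (.cons (.rel (nat_lit 553713666)) .nil))) .nil))) .leaf)) (nat_lit 42163215922454) (.br (nat_lit 0) (.cons (.br (nat_lit 3) (.cons (.rel (nat_lit 273155136)) .nil)) .nil)) (.node (.node (.node .leaf (nat_lit 42163215922713) (.br (nat_lit 1) (.cons (.br (nat_lit 6) (.cons (.rel (nat_lit 34393296897)) (.cons (.rel (nat_lit 34376515905)) (.cons (.rel (nat_lit 17196650568)) .nil)))) (.cons (.br (nat_lit 6) (.cons (.rel (nat_lit 34393296897)) (.cons (.rel (nat_lit 34393296897)) (.cons (.rel (nat_lit 17213816832)) .nil)))) .nil))) .leaf) (nat_lit 42163216357501) (.br (nat_lit 2) (.cons (.br (nat_lit 3) (.cons (.rel (nat_lit 604259328)) .nil)) .nil)) .leaf) (nat_lit 42163216357657) (.br (nat_lit 0) (.cons (.br (nat_lit 2) (.cons (.rel (nat_lit 71311362)) .nil)) .nil)) (.node .leaf (nat_lit 42163216358186) (.br (nat_lit 3) (.cons (.br (nat_lit 4) (.cons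 (.rel (nat_lit 1342185600)) .nil)) .nil)) .leaf))))) (nat_lit 42163216377862) (.br (nat_lit 1) (.cons (.br (nat_lit 6) (.cons (.rel (nat_lit 17196778497)) (.cons (.rel (nat_lit 17215520832)) (.cons (.rel (nat_lit 17196646533)) .nil)))) (.cons (.br (nat_lit 2) (.cons (.rel (nat_lit 83888136)) (.cons (.rel (nat_lit 83906640)) (.cons (.rel (nat_lit 83918913)) .nil)))) .nil))) (.node (.node (.node (.node (.node (.node .leaf (nat_lit 42163216377882) (.br (nat_lit 1) (.cons (.br (nat_lit 3) (.cons (.rel (nat_lit 285233424)) .nil)) .nil)) .leaf) (nat_lit 42163216377981) (.br (nat_lit 3) (.cons (.br (nat_lit 2) (.cons (.rel (nat_lit 336855045)) (.cons (.rel (nat_lit 335552529)) .nil))) .nil)) .leaf) (nat_lit 42163216377986) (.br (nat_lit 3) (.cons (.br (nat_lit 5) (.cons (.rel (nat_lit 4563406992)) .nil)) .nil)) (.node .leaf (nat_lit 42163216378038) (.br (nat_lit 3) (.cons (.br (nat_lit 5) (.cons (.rel (nat_lit 4563404832)) (.cons (.rel (nat_lit 4563404832)) (.cons (.rel (nat_lit 4563404832))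 (.cons (.rel (nat_lit 4563403782)) (.cons (.rel (nat_lit 4832887044)) .nil)))))) (.cons (.br (nat_lit 4) (.cons (.rel (nat_lit 1342177350)) (.cons (.rel (nat_lit 2417033217)) (.cons (.rel (nat_lit 1342185600)) .nil)))) .nil))) .leaf)) (nat_lit 42163216378112) (.br (nat_lit 0) (.cons (.br (nat_lit 6) (.cons (.rel (nat_lit 17184084096)) (.cons (.rel (nat_lit 17184227328)) (.cons (.rel (nat_lit 17184079881)) (.cons (.rel (nat_lit 17184063573)) .nil))))) .nil)) (.node (.node (.node .leaf (nat_lit 42163216378141) (.br (nat_lit 1) (.cons (.br (nat_lit 3) (.cons (.rel (nat_lit 285344004)) .nil)) .nil)) .leaf) (nat_lit 42163216378608) (.br (nat_lit 1) (.cons (.br (nat_lit 2) (.cons (.rel (nat_lit 85262340)) (.cons (.rel (nat_lit 83886117)) .nil))) .nil)) .leaf) (nat_lit 42163216378612) (.br (nat_lit 0) (.cons (.br (nat_lit 6) (.cons (.rel (nat_lit 17184064578)) (.cons (.br (nat_lit 1) (.cons (.rel (nat_lit 34393296897)) (.cons (.rel (nat_lit 34376515905)) (.cons (.rel (nat_lit 17196778497))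 .nil)))) (.cons (.rel (nat_lit 17184067608)) (.cons (.rel (nat_lit 17184063573)) (.cons (.rel (nat_lit 17184227328)) (.cons (.rel (nat_lit 17184227328)) .nil))))))) (.cons (.br (nat_lit 5) (.cons (.rel (nat_lit 4299161610)) (.cons (.rel (nat_lit 4299165825)) (.cons (.rel (nat_lit 4299195456)) .nil)))) (.cons (.br (nat_lit 1) (.cons (.rel (nat_lit 37748880)) (.cons (.rel (nat_lit 20972928)) (.cons (.br (nat_lit 3) (.cons (.rel (nat_lit 276825096)) (.cons (.rel (nat_lit 541067268)) (.cons (.br (nat_lit 4) (.cons (.rel (nat_lit 1344274692)) (.cons (.rel (nat_lit 1077969024)) (.cons (.br (nat_lit 5) (.cons (.br (nat_lit 2) (.cons (.rel (nat_lit 4898949252)) (.cons (.rel (nat_lit 71386116)) (.cons (.rel (nat_lit 71435265)) (.cons (.rel (nat_lit 71307336)) .nil))))) (.cons (.rel (nat_lit 4563406992)) (.cons (.rel (nat_lit 4299169860)) .nil)))) .nil)))) .nil)))) .nil)))) .nil)))) (.node .leaf (nat_lit 42163216378633) (.br (nat_lit 2) (.cons (.br (nat_lit 1) (.cons (.br (nat_lit 3) (.cons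 (.rel (nat_lit 285245697)) (.cons (.rel (nat_lit 352583808)) (.cons (.rel (nat_lit 285279552)) .nil)))) (.cons (.rel (nat_lit 83952768)) (.cons (.br (nat_lit 3) (.cons (.rel (nat_lit 354484224)) (.cons (.br (nat_lit 5) (.cons (.rel (nat_lit 9126806544)) (.cons (.rel (nat_lit 4448059392)) (.cons (.rel (nat_lit 4448059392)) (.cons (.rel (nat_lit 9126806544)) .nil))))) (.cons (.rel (nat_lit 553713666)) .nil)))) (.cons (.rel (nat_lit 84017220)) .nil))))) (.cons (.br (nat_lit 3) (.cons (.rel (nat_lit 335560776)) (.cons (.rel (nat_lit 335544468)) (.cons (.rel (nat_lit 335545473)) .nil)))) (.cons (.br (nat_lit 6) (.cons (.rel (nat_lit 17249141760)) (.cons (.rel (nat_lit 17246978724)) (.cons (.rel (nat_lit 17247305796)) (.cons (.rel (nat_lit 34426864641)) (.cons (.rel (nat_lit 17247260673)) (.cons (.rel (nat_lit 17314103364)) .nil))))))) .nil)))) .leaf))) (nat_lit 42163216378656) (.br (nat_lit 0) (.cons (.br (nat_lit 5) (.cons (.rel (nat_lit 8598323205)) .nil)) .nil)) (.node (.node (.node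 (.node .leaf (nat_lit 42163216378666) (.br (nat_lit 3) (.cons (.br (nat_lit 5) (.cons (.rel (nat_lit 4563402777)) (.cons (.rel (nat_lit 4563406992)) (.cons (.rel (nat_lit 4563403782)) .nil)))) .nil)) .leaf) (nat_lit 42163216378757) (.br (nat_lit 1) (.cons (.br (nat_lit 2) (.cons (.br (nat_lit 5) (.cons (.rel (nat_lit 8691646464)) (.cons (.rel (nat_lit 4362338376)) (.cons (.rel (nat_lit 8607761412)) (.cons (.rel (nat_lit 4311746625)) .nil))))) (.cons (.rel (nat_lit 101187840)) .nil))) .nil)) .leaf) (nat_lit 42163216379361) (.br (nat_lit 3) (.cons (.br (nat_lit 5) (.cons (.rel (nat_lit 4563402777)) .nil)) .nil)) (.node .leaf (nat_lit 42163216379393) (.br (nat_lit 1) (.cons (.br (nat_lit 5) (.cons (.rel (nat_lit 4328784960)) (.cons (.rel (nat_lit 4313071680)) .nil))) (.cons (.br (nat_lit 4) (.cons (.rel (nat_lit 1090551840)) (.cons (.rel (nat_lit 1090519188)) .nil))) .nil))) .leaf)) (nat_lit 42163217088542) (.br (nat_lit 5) (.cons (.br (nat_lit 2) (.cons (.rel (nat_lit 4362338376))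 (.cons (.rel (nat_lit 4362338376)) (.cons (.rel (nat_lit 4362338376)) .nil)))) .nil)) (.node (.node (.node .leaf (nat_lit 42163217089322) (.br (nat_lit 3) (.cons (.br (nat_lit 5) (.cons (.rel (nat_lit 4563419265)) .nil)) .nil)) .leaf) (nat_lit 42163217089413) (.br (nat_lit 0) (.cons (.br (nat_lit 6) (.cons (.rel (nat_lit 34368208896)) .nil)) .nil)) .leaf) (nat_lit 42163217128086) (.br (nat_lit 0) (.cons (.br (nat_lit 5) (.cons (.rel (nat_lit 4299195456)) .nil)) .nil)) (.node .leaf (nat_lit 42163217607456) (.br (nat_lit 0) (.cons (.br (nat_lit 5) (.cons (.rel (nat_lit 4299161610)) .nil)) .nil)) .leaf)))) (nat_lit 42163218620598) (.br (nat_lit 0) (.cons (.br (nat_lit 3) (.cons (.rel (nat_lit 274825728)) .nil)) .nil)) (.node (.node (.node (.node (.node .leaf (nat_lit 42163218869001) (.br (nat_lit 0) (.cons (.br (nat_lit 5) (.cons (.rel (nat_lit 4299165825)) .nil)) .nil)) .leaf) (nat_lit 42163218917426) (.br (nat_lit 1) (.cons (.br (nat_lit 3) (.cons (.rel (nat_lit 286262289)) .nil))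 .nil)) .leaf) (nat_lit 42163218918281) (.br (nat_lit 3) (.cons (.br (nat_lit 5) (.cons (.rel (nat_lit 9126806544)) .nil)) .nil)) (.node .leaf (nat_lit 42163218920324) (.br (nat_lit 0) (.cons (.br (nat_lit 1) (.cons (.rel (nat_lit 20972928)) .nil)) .nil)) .leaf)) (nat_lit 42164671345392) (.br (nat_lit 5) (.cons (.br (nat_lit 0) (.cons (.rel (nat_lit 4299161610)) (.cons (.rel (nat_lit 4299309057)) .nil))) .nil)) (.node (.node (.node .leaf (nat_lit 42164671801394) (.br (nat_lit 1) (.cons (.br (nat_lit 2) (.cons (.rel (nat_lit 83888136)) .nil)) .nil)) .leaf) (nat_lit 42164671802855) (.br (nat_lit 2) (.cons (.br (nat_lit 1) (.cons (.rel (nat_lit 151257600)) (.cons (.rel (nat_lit 83972097)) .nil))) .nil)) .leaf) (nat_lit 42164671802880) (.br (nat_lit 6) (.cons (.br (nat_lit 2) (.cons (.rel (nat_lit 17315397633)) (.cons (.rel (nat_lit 17315397633)) .nil))) .nil)) (.node .leaf (nat_lit 42164671802881) (.br (nat_lit 1) (.cons (.br (nat_lit 2) (.cons (.rel (nat_lit 83886117)) (.cons (.rel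 (nat_lit 85197888)) .nil))) .nil)) .leaf))) (nat_lit 42164671802905) (.br (nat_lit 1) (.cons (.br (nat_lit 5) (.cons (.rel (nat_lit 4313071680)) (.cons (.rel (nat_lit 4311879744)) .nil))) .nil)) (.node (.node (.node (.node .leaf (nat_lit 42164672512752) (.br (nat_lit 5) (.cons (.br (nat_lit 1) (.cons (.rel (nat_lit 4311826560)) (.cons (.rel (nat_lit 4311745620)) .nil))) .nil)) .leaf) (nat_lit 42164672512777) (.br (nat_lit 5) (.cons (.br (nat_lit 3) (.cons (.rel (nat_lit 4563402777)) (.cons (.rel (nat_lit 9126806544)) .nil))) .nil)) .leaf) (nat_lit 42164747299626) (.br (nat_lit 1) (.cons (.br (nat_lit 0) (.cons (.rel (nat_lit 42221568)) (.cons (.rel (nat_lit 22093824)) .nil))) .nil)) (.node .leaf (nat_lit 42164748011022) (.br (nat_lit 0) (.cons (.br (nat_lit 3) (.cons (.rel (nat_lit 272634120)) .nil)) .nil)) .leaf)) (nat_lit 42165699406105) (.br (nat_lit 2) (.cons (.br (nat_lit 3) (.cons (.br (nat_lit 0) (.cons (.rel (nat_lit 142610433)) (.cons (.rel (nat_lit 276825096)) .nil))) .nil))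 .nil)) (.node (.node .leaf (nat_lit 43133464564464) (.br (nat_lit 1) (.cons (.br (nat_lit 3) (.cons (.rel (nat_lit 285344004)) .nil)) .nil)) .leaf) (nat_lit 43192938524734) (.br (nat_lit 0) (.cons (.br (nat_lit 1) (.cons (.rel (nat_lit 21037380)) .nil)) .nil)) (.node .leaf (nat_lit 43193595333233) (.br (nat_lit 1) (.cons (.br (nat_lit 2) (.cons (.rel (nat_lit 101187840)) .nil)) .nil)) .leaf))))))

/-- refutations 2 -/
def e2 : EX := (.node (.node (.node (.node (.node (.node (.node .leaf (nat_lit 43234424842370) (.br (nat_lit 2) (.cons (.br (nat_lit 3) (.cons (.rel (nat_lit 335545473)) (.cons (.rel (nat_lit 335545473)) .nil))) .nil)) .leaf) (nat_lit 43234424843017) (.br (nat_lit 2) (.cons (.br (nat_lit 4) (.cons (.rel (nat_lit 1142947908)) (.cons (.rel (nat_lit 1208090625)) (.cons (.rel (nat_lit 1141145601)) (.cons (.rel (nat_lit 2214658050)) .nil))))) .nil)) .leaf) (nat_lit 43234424843021) (.br (nat_lit 3) (.cons (.br (nat_lit 0) (.cons (.rel (nat_lit 273686529)) (.cons (.rel (nat_lit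 272630085)) .nil))) .nil)) (.node .leaf (nat_lit 43235808708121) (.br (nat_lit 1) (.cons (.br (nat_lit 6) (.cons (.rel (nat_lit 17213816832)) .nil)) .nil)) .leaf)) (nat_lit 43235808963996) (.br (nat_lit 1) (.cons (.br (nat_lit 2) (.cons (.rel (nat_lit 83918913)) (.cons (.rel (nat_lit 167773188)) (.cons (.rel (nat_lit 167773188)) .nil)))) (.cons (.br (nat_lit 4) (.cons (.rel (nat_lit 1090519188)) (.cons (.rel (nat_lit 1090527249)) .nil))) .nil))) (.node (.node .leaf (nat_lit 43235808964092) (.br (nat_lit 0) (.cons (.br (nat_lit 2) (.cons (.rel (nat_lit 71434260)) .nil)) .nil)) .leaf) (nat_lit 43236022415985) (.br (nat_lit 2) (.cons (.br (nat_lit 3) (.cons (.rel (nat_lit 335577120)) .nil)) .nil)) (.node .leaf (nat_lit 43236022872320) (.br (nat_lit 0) (.cons (.br (nat_lit 3) (.cons (.rel (nat_lit 272648448)) .nil)) .nil)) .leaf))) (nat_lit 43236022872845) (.br (nat_lit 0) (.cons (.br (nat_lit 3) (.cons (.rel (nat_lit 272630085)) .nil)) .nil)) (.node (.node (.node (.node .leaf (nat_lit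 43236022873589) (.br (nat_lit 1) (.cons (.br (nat_lit 2) (.cons (.rel (nat_lit 83906640)) .nil)) .nil)) .leaf) (nat_lit 43236331161077) (.br (nat_lit 0) (.cons (.br (nat_lit 2) (.cons (.rel (nat_lit 71369808)) .nil)) .nil)) .leaf) (nat_lit 47099177726213) (.br (nat_lit 1) (.cons (.br (nat_lit 3) (.cons (.rel (nat_lit 285279552)) .nil)) .nil)) (.node .leaf (nat_lit 47099177926786) (.br (nat_lit 0) (.cons (.br (nat_lit 2) (.cons (.rel (nat_lit 71303301)) .nil)) .nil)) .leaf)) (nat_lit 47227481471036) (.br (nat_lit 0) (.cons (.br (nat_lit 6) (.cons (.rel (nat_lit 34364195328)) (.cons (.rel (nat_lit 34364195328)) (.cons (.rel (nat_lit 17188519953)) (.cons (.rel (nat_lit 17184064578)) (.cons (.rel (nat_lit 17184227328)) .nil)))))) (.cons (.br (nat_lit 3) (.cons (.rel (nat_lit 276825096)) (.cons (.rel (nat_lit 272632152)) .nil))) .nil))) (.node (.node .leaf (nat_lit 47227481485372) (.br (nat_lit 2) (.cons (.br (nat_lit 3) (.cons (.rel (nat_lit 335577120)) .nil)) .nil)) .leaf) (nat_lit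 47227481635096) (.br (nat_lit 1) (.cons (.br (nat_lit 6) (.cons (.rel (nat_lit 34393296897)) .nil)) .nil)) (.node .leaf (nat_lit 47227481921596) (.br (nat_lit 0) (.cons (.br (nat_lit 3) (.cons (.rel (nat_lit 273219588)) .nil)) .nil)) .leaf)))) (nat_lit 47227481942146) (.br (nat_lit 1) (.cons (.br (nat_lit 5) (.cons (.rel (nat_lit 4311745620)) (.cons (.rel (nat_lit 8606781696)) (.cons (.rel (nat_lit 4311745620)) .nil)))) .nil)) (.node (.node (.node (.node (.node .leaf (nat_lit 47227481942821) (.br (nat_lit 0) (.cons (.br (nat_lit 1) (.cons (.rel (nat_lit 37814337)) .nil)) .nil)) .leaf) (nat_lit 47227484045997) (.br (nat_lit 0) (.cons (.br (nat_lit 1) (.cons (.rel (nat_lit 21037380)) .nil)) .nil)) .leaf) (nat_lit 47232833854850) (.br (nat_lit 2) (.cons (.br (nat_lit 5) (.cons (.rel (nat_lit 4362093057)) .nil)) .nil)) (.node .leaf (nat_lit 47263105233521) (.br (nat_lit 4) (.cons (.br (nat_lit 6) (.cons (.rel (nat_lit 19328729088)) .nil)) .nil)) .leaf)) (nat_lit 47264488287644) (.br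 (nat_lit 0) (.cons (.br (nat_lit 2) (.cons (.rel (nat_lit 71323680)) .nil)) .nil)) (.node (.node .leaf (nat_lit 47296200947772) (.br (nat_lit 6) (.cons (.br (nat_lit 1) (.cons (.rel (nat_lit 17196654594)) (.cons (.rel (nat_lit 17196729348)) .nil))) .nil)) .leaf) (nat_lit 47296202176572) (.br (nat_lit 0) (.cons (.br (nat_lit 3) (.cons (.rel (nat_lit 273711120)) .nil)) .nil)) (.node .leaf (nat_lit 47302517559478) (.br (nat_lit 0) (.cons (.br (nat_lit 1) (.cons (.rel (nat_lit 21037380)) .nil)) .nil)) .leaf))) (nat_lit 47302517563418) (.br (nat_lit 2) (.cons (.br (nat_lit 6) (.cons (.rel (nat_lit 17247305796)) (.cons (.rel (nat_lit 17247241344)) (.cons (.rel (nat_lit 17247241344)) .nil)))) .nil)) (.node (.node (.node .leaf (nat_lit 47302517584004) (.br (nat_lit 3) (.cons (.br (nat_lit 2) (.cons (.rel (nat_lit 335545473)) (.cons (.rel (nat_lit 335545473)) .nil))) .nil)) .leaf) (nat_lit 47302517725210) (.br (nat_lit 2) (.cons (.br (nat_lit 5) (.cons (.rel (nat_lit 4364174340)) .nil)) .nil))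 (.node .leaf (nat_lit 47302517734257) (.br (nat_lit 0) (.cons (.br (nat_lit 2) (.cons (.rel (nat_lit 71307336)) .nil)) .nil)) .leaf)) (nat_lit 47302518032514) (.br (nat_lit 2) (.cons (.br (nat_lit 3) (.cons (.rel (nat_lit 402653568)) (.cons (.rel (nat_lit 335577120)) .nil))) .nil)) (.node (.node .leaf (nat_lit 47302519016949) (.br (nat_lit 5) (.cons (.br (nat_lit 2) (.cons (.rel (nat_lit 8724283653)) (.cons (.rel (nat_lit 4362080784)) .nil))) .nil)) .leaf) (nat_lit 47302519300158) (.br (nat_lit 0) (.cons (.br (nat_lit 1) (.cons (.rel (nat_lit 20972928)) .nil)) .nil)) (.node .leaf (nat_lit 47302520554249) (.br (nat_lit 5) (.cons (.br (nat_lit 2) (.cons (.rel (nat_lit 8657047617)) (.cons (.rel (nat_lit 4362338376)) .nil))) .nil)) .leaf))))) (nat_lit 47425071410578) (.br (nat_lit 3) (.cons (.br (nat_lit 5) (.cons (.rel (nat_lit 4563402777)) .nil)) .nil)) (.node (.node (.node (.node (.node (.node .leaf (nat_lit 47426312924562) (.br (nat_lit 2) (.cons (.br (nat_lit 5) (.cons (.rel (nat_lit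 4429203456)) .nil)) .nil)) .leaf) (nat_lit 47428325719318) (.br (nat_lit 0) (.cons (.br (nat_lit 3) (.cons (.rel (nat_lit 273686529)) .nil)) .nil)) .leaf) (nat_lit 47428326190358) (.br (nat_lit 0) (.cons (.br (nat_lit 2) (.cons (.rel (nat_lit 71311362)) .nil)) .nil)) (.node .leaf (nat_lit 47430402349833) (.br (nat_lit 2) (.cons (.br (nat_lit 5) (.cons (.rel (nat_lit 4362405888)) .nil)) .nil)) .leaf)) (nat_lit 48121892105568) (.br (nat_lit 0) (.cons (.br (nat_lit 3) (.cons (.rel (nat_lit 276824082)) .nil)) .nil)) (.node (.node .leaf (nat_lit 48124215434716) (.br (nat_lit 0) (.cons (.br (nat_lit 1) (.cons (.rel (nat_lit 21528576)) .nil)) .nil)) .leaf) (nat_lit 48124215487741) (.br (nat_lit 0) (.cons (.br (nat_lit 4) (.cons (.rel (nat_lit 2155888704)) .nil)) .nil)) (.node .leaf (nat_lit 48124215748889) (.br (nat_lit 2) (.cons (.br (nat_lit 1) (.cons (.rel (nat_lit 152109057)) (.cons (.rel (nat_lit 83952768)) .nil))) .nil)) .leaf))) (nat_lit 48124215749385) (.br (nat_lit 2) (.cons (.br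 (nat_lit 5) (.cons (.rel (nat_lit 4429185093)) (.cons (.rel (nat_lit 4362338376)) .nil))) .nil)) (.node (.node (.node (.node .leaf (nat_lit 48124215750045) (.br (nat_lit 0) (.cons (.br (nat_lit 3) (.cons (.rel (nat_lit 272696592)) .nil)) .nil)) .leaf) (nat_lit 48124216756849) (.br (nat_lit 2) (.cons (.br (nat_lit 4) (.cons (.rel (nat_lit 2281705728)) .nil)) .nil)) .leaf) (nat_lit 48124218288409) (.br (nat_lit 3) (.cons (.br (nat_lit 4) (.cons (.rel (nat_lit 2416181760)) (.cons (.rel (nat_lit 1342506240)) .nil))) .nil)) (.node .leaf (nat_lit 48124218288753) (.br (nat_lit 3) (.cons (.br (nat_lit 6) (.cons (.rel (nat_lit 17449635840)) .nil)) .nil)) .leaf)) (nat_lit 48124218288884) (.br (nat_lit 1) (.cons (.br (nat_lit 2) (.cons (.rel (nat_lit 151257600)) .nil)) .nil)) (.node (.node .leaf (nat_lit 48124218289405) (.br (nat_lit 0) (.cons (.br (nat_lit 3) (.cons (.rel (nat_lit 273711120)) .nil)) .nil)) .leaf) (nat_lit 48124735385856) (.br (nat_lit 0) (.cons (.br (nat_lit 2) (.cons (.rel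 (nat_lit 142610433)) (.cons (.rel (nat_lit 75759681)) .nil))) .nil)) (.node .leaf (nat_lit 48124735386225) (.br (nat_lit 2) (.cons (.br (nat_lit 0) (.cons (.rel (nat_lit 71323680)) (.cons (.rel (nat_lit 71303301)) .nil))) .nil)) .leaf)))) (nat_lit 48124735386987) (.br (nat_lit 2) (.cons (.br (nat_lit 5) (.cons (.rel (nat_lit 4362338376)) (.cons (.rel (nat_lit 4362354720)) .nil))) .nil)) (.node (.node (.node (.node (.node .leaf (nat_lit 48124735826697) (.br (nat_lit 0) (.cons (.br (nat_lit 2) (.cons (.rel (nat_lit 71307336)) .nil)) .nil)) .leaf) (nat_lit 48124735834142) (.br (nat_lit 2) (.cons (.br (nat_lit 1) (.cons (.rel (nat_lit 83888136)) (.cons (.rel (nat_lit 83888136)) (.cons (.rel (nat_lit 84149505)) .nil)))) .nil)) .leaf) (nat_lit 48124735835648) (.br (nat_lit 2) (.cons (.br (nat_lit 1) (.cons (.rel (nat_lit 83888136)) (.cons (.rel (nat_lit 84017220)) .nil))) .nil)) (.node .leaf (nat_lit 48124735842334) (.br (nat_lit 0) (.cons (.br (nat_lit 5) (.cons (.rel (nat_lit 4299163665))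 (.cons (.rel (nat_lit 8598323205)) .nil))) .nil)) .leaf)) (nat_lit 48124735843081) (.br (nat_lit 0) (.cons (.br (nat_lit 5) (.cons (.rel (nat_lit 4299163665)) (.cons (.rel (nat_lit 8598323205)) .nil))) .nil)) (.node (.node .leaf (nat_lit 48124735843840) (.br (nat_lit 0) (.cons (.br (nat_lit 5) (.cons (.rel (nat_lit 4303626240)) .nil)) .nil)) .leaf) (nat_lit 48124736909937) (.br (nat_lit 3) (.cons (.br (nat_lit 6) (.cons (.rel (nat_lit 34629287952)) .nil)) .nil)) (.node .leaf (nat_lit 48124736910699) (.br (nat_lit 0) (.cons (.br (nat_lit 2) (.cons (.rel (nat_lit 138543360)) .nil)) .nil)) .leaf))) (nat_lit 48129446046448) (.br (nat_lit 1) (.cons (.br (nat_lit 2) (.cons (.rel (nat_lit 83918913)) .nil)) .nil)) (.node (.node (.node .leaf (nat_lit 48129932585712) (.br (nat_lit 0) (.cons (.br (nat_lit 2) (.cons (.rel (nat_lit 71311362)) .nil)) .nil)) .leaf) (nat_lit 48134777006110) (.br (nat_lit 0) (.cons (.br (nat_lit 1) (.cons (.rel (nat_lit 20972928)) .nil)) .nil)) (.node .leaf (nat_lit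 48158529342940) (.br (nat_lit 0) (.cons (.br (nat_lit 3) (.cons (.rel (nat_lit 273678468)) .nil)) .nil)) .leaf)) (nat_lit 48158575479565) (.br (nat_lit 0) (.cons (.br (nat_lit 2) (.cons (.rel (nat_lit 142610433)) .nil)) .nil)) (.node (.node .leaf (nat_lit 48158575487753) (.br (nat_lit 1) (.cons (.br (nat_lit 4) (.cons (.rel (nat_lit 1090551840)) .nil)) .nil)) .leaf) (nat_lit 48158576198409) (.br (nat_lit 2) (.cons (.br (nat_lit 3) (.cons (.rel (nat_lit 335560776)) .nil)) .nil)) (.node .leaf (nat_lit 48158578000649) (.br (nat_lit 1) (.cons (.br (nat_lit 2) (.cons (.rel (nat_lit 83922948)) .nil)) .nil)) .leaf))))))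

/-- refutations 3 -/
def e3 : EX := (.node (.node (.node (.node (.node (.node (.node (.node .leaf (nat_lit 48292633360444) (.br (nat_lit 1) (.cons (.br (nat_lit 0) (.cons (.rel (nat_lit 22021122)) (.cons (.br (nat_lit 2) (.cons (.rel (nat_lit 83887122)) (.cons (.rel (nat_lit 83886117)) (.cons (.rel (nat_lit 71598336)) .nil)))) (.cons (.rel (nat_lit 21528576)) .nil)))) (.cons (.br (nat_lit 0) (.cons (.rel (nat_lit 21055746)) (.cons (.rel (nat_lit 22021122)) (.cons (.rel (nat_lit 37748880)) .nil)))) .nil))) .leaf) (nat_lit 48292633832229) (.br (nat_lit 0) (.cons (.br (nat_lit 5) (.cons (.rel (nat_lit 4299296784)) .nil)) .nil)) .leaf) (nat_lit 48297964477916) (.br (nat_lit 0) (.cons (.br (nat_lit 1) (.cons (.rel (nat_lit 21528576)) .nil)) .nil)) (.node .leaf (nat_lit 48335604019952) (.br (nat_lit 1) (.cons (.br (nat_lit 5) (.cons (.rel (nat_lit 4312023297)) .nil)) .nil)) .leaf)) (nat_lit 48335604465670) (.br (nat_lit 0) (.cons (.br (nat_lit 2) (.cons (.rel (nat_lit 71311362)) .nil))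 .nil)) (.node (.node .leaf (nat_lit 48335797414640) (.br (nat_lit 4) (.cons (.br (nat_lit 5) (.cons (.rel (nat_lit 6442452096)) .nil)) .nil)) .leaf) (nat_lit 48336745326593) (.br (nat_lit 0) (.cons (.br (nat_lit 1) (.cons (.rel (nat_lit 37814337)) .nil)) .nil)) (.node .leaf (nat_lit 48336745327493) (.br (nat_lit 0) (.cons (.br (nat_lit 3) (.cons (.rel (nat_lit 272696592)) .nil)) .nil)) .leaf))) (nat_lit 48336745328103) (.br (nat_lit 0) (.cons (.br (nat_lit 1) (.cons (.rel (nat_lit 22021122)) .nil)) .nil)) (.node (.node (.node .leaf (nat_lit 48338753941534) (.br (nat_lit 1) (.cons (.br (nat_lit 3) (.cons (.rel (nat_lit 285344004)) (.cons (.rel (nat_lit 286294080)) .nil))) (.cons (.br (nat_lit 3) (.cons (.rel (nat_lit 302007360)) (.cons (.rel (nat_lit 570691584)) .nil))) .nil))) .leaf) (nat_lit 48338754398209) (.br (nat_lit 2) (.cons (.br (nat_lit 4) (.cons (.br (nat_lit 3) (.cons (.rel (nat_lit 1342178400)) (.cons (.rel (nat_lit 335628288)) .nil))) .nil)) .nil)) (.node .leaf (nat_lit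 48338754398238) (.br (nat_lit 6) (.cons (.br (nat_lit 1) (.cons (.rel (nat_lit 17197958160)) (.cons (.rel (nat_lit 34376515905)) .nil))) .nil)) .leaf)) (nat_lit 48338754398390) (.br (nat_lit 1) (.cons (.br (nat_lit 3) (.cons (.rel (nat_lit 302071812)) .nil)) .nil)) (.node (.node .leaf (nat_lit 48338754399769) (.br (nat_lit 5) (.cons (.br (nat_lit 6) (.cons (.rel (nat_lit 21475098648)) (.cons (.br (nat_lit 1) (.cons (.rel (nat_lit 4311746625)) (.cons (.rel (nat_lit 21492728832)) (.cons (.rel (nat_lit 4311745620)) .nil)))) .nil))) .nil)) .leaf) (nat_lit 48338755110425) (.br (nat_lit 5) (.cons (.br (nat_lit 6) (.cons (.rel (nat_lit 38656017408)) (.cons (.rel (nat_lit 42949674240)) (.cons (.rel (nat_lit 21475099653)) .nil)))) .nil)) (.node .leaf (nat_lit 48340834313747) (.br (nat_lit 1) (.cons (.br (nat_lit 4) (.cons (.rel (nat_lit 1090520193)) .nil)) .nil)) .leaf)))) (nat_lit 48340834316318) (.br (nat_lit 1) (.cons (.br (nat_lit 4) (.cons (.rel (nat_lit 1090520193)) (.cons (.rel (nat_lit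 2181054480)) (.cons (.rel (nat_lit 1090551840)) (.cons (.rel (nat_lit 1090603008)) (.cons (.rel (nat_lit 1108345104)) .nil)))))) (.cons (.br (nat_lit 3) (.cons (.rel (nat_lit 285279552)) (.cons (.rel (nat_lit 286262289)) (.cons (.rel (nat_lit 285233424)) (.cons (.rel (nat_lit 285233424)) .nil))))) (.cons (.br (nat_lit 5) (.cons (.rel (nat_lit 4311760914)) (.cons (.rel (nat_lit 4311746625)) (.cons (.rel (nat_lit 4311760914)) .nil)))) .nil)))) (.node (.node (.node (.node (.node .leaf (nat_lit 48340834317040) (.br (nat_lit 5) (.cons (.br (nat_lit 6) (.cons (.rel (nat_lit 21474839040)) (.cons (.rel (nat_lit 21475098648)) .nil))) .nil)) .leaf) (nat_lit 48340834317849) (.br (nat_lit 1) (.cons (.br (nat_lit 6) (.cons (.rel (nat_lit 34393296897)) .nil)) .nil)) .leaf) (nat_lit 48340834458850) (.br (nat_lit 0) (.cons (.br (nat_lit 1) (.cons (.rel (nat_lit 20992257)) .nil)) .nil)) (.node .leaf (nat_lit 48340834754022) (.br (nat_lit 2) (.cons (.br (nat_lit 5) (.cons (.br (nat_lit 0) (.cons (.rel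 (nat_lit 4299165825)) (.cons (.rel (nat_lit 4299161610)) .nil))) .nil)) .nil)) .leaf)) (nat_lit 48340834772998) (.br (nat_lit 5) (.cons (.br (nat_lit 2) (.cons (.rel (nat_lit 4362405888)) (.cons (.rel (nat_lit 4362338376)) .nil))) .nil)) (.node (.node .leaf (nat_lit 48340834773029) (.br (nat_lit 2) (.cons (.br (nat_lit 5) (.cons (.rel (nat_lit 4429185093)) (.cons (.rel (nat_lit 4362338376)) .nil))) (.cons (.br (nat_lit 3) (.cons (.rel (nat_lit 335564802)) (.cons (.rel (nat_lit 335564802)) .nil))) .nil))) .leaf) (nat_lit 48340834773174) (.br (nat_lit 0) (.cons (.br (nat_lit 5) (.cons (.rel (nat_lit 4303626240)) (.cons (.rel (nat_lit 4299161610)) (.cons (.rel (nat_lit 8598323205)) .nil)))) (.cons (.br (nat_lit 5) (.cons (.rel (nat_lit 8598323205)) (.cons (.rel (nat_lit 4299162660)) (.cons (.rel (nat_lit 4299169860)) .nil)))) .nil))) (.node .leaf (nat_lit 48340834773893) (.br (nat_lit 6) (.cons (.br (nat_lit 0) (.cons (.rel (nat_lit 17184129030)) (.cons (.rel (nat_lit 17184064578))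 .nil))) .nil)) .leaf))) (nat_lit 48340834774429) (.br (nat_lit 3) (.cons (.br (nat_lit 6) (.cons (.rel (nat_lit 34896625728)) .nil)) .nil)) (.node (.node (.node .leaf (nat_lit 48340834774503) (.br (nat_lit 3) (.cons (.br (nat_lit 5) (.cons (.rel (nat_lit 4563402777)) (.cons (.rel (nat_lit 4563403782)) (.cons (.rel (nat_lit 9126806544)) .nil)))) .nil)) .leaf) (nat_lit 48340834774529) (.br (nat_lit 0) (.cons (.br (nat_lit 1) (.cons (.rel (nat_lit 20979984)) .nil)) .nil)) (.node .leaf (nat_lit 48340834774553) (.br (nat_lit 5) (.cons (.br (nat_lit 6) (.cons (.rel (nat_lit 21475115136)) (.cons (.rel (nat_lit 25769807889)) .nil))) (.cons (.br (nat_lit 6) (.cons (.rel (nat_lit 21475098648)) (.cons (.rel (nat_lit 21474903684)) .nil))) .nil))) .leaf)) (nat_lit 48340835483778) (.br (nat_lit 0) (.cons (.br (nat_lit 3) (.cons (.rel (nat_lit 272762241)) .nil)) .nil)) (.node (.node .leaf (nat_lit 48340835483830) (.br (nat_lit 6) (.cons (.br (nat_lit 5) (.cons (.rel (nat_lit 42949674240)) (.cons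 (.rel (nat_lit 21475099653)) .nil))) .nil)) .leaf) (nat_lit 48340835484400) (.br (nat_lit 5) (.cons (.br (nat_lit 6) (.cons (.rel (nat_lit 42949674240)) (.cons (.rel (nat_lit 42949674240)) (.cons (.rel (nat_lit 21475099653)) (.cons (.rel (nat_lit 25769820162)) .nil))))) (.cons (.br (nat_lit 1) (.cons (.rel (nat_lit 4311826560)) (.cons (.rel (nat_lit 4328784960)) (.cons (.rel (nat_lit 8606728512)) (.cons (.rel (nat_lit 4311760914)) .nil))))) .nil))) (.node .leaf (nat_lit 48340835484425) (.br (nat_lit 1) (.cons (.br (nat_lit 6) (.cons (.rel (nat_lit 34393296897)) (.cons (.rel (nat_lit 17196778497)) (.cons (.rel (nat_lit 17213816832)) .nil)))) (.cons (.br (nat_lit 5) (.cons (.rel (nat_lit 4311761928)) (.cons (.rel (nat_lit 4312023297)) .nil))) .nil))) .leaf))))) (nat_lit 48340835484448) (.br (nat_lit 0) (.cons (.br (nat_lit 2) (.cons (.rel (nat_lit 71303301)) .nil)) .nil)) (.node (.node (.node (.node (.node (.node .leaf (nat_lit 48340835484549) (.br (nat_lit 0) (.cons (.br (nat_lit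 6) (.cons (.rel (nat_lit 17184129030)) .nil)) .nil)) .leaf) (nat_lit 48340835484950) (.br (nat_lit 2) (.cons (.br (nat_lit 3) (.cons (.rel (nat_lit 335560776)) .nil)) .nil)) .leaf) (nat_lit 48340835523312) (.br (nat_lit 0) (.cons (.br (nat_lit 6) (.cons (.rel (nat_lit 17184129030)) (.cons (.rel (nat_lit 17184147585)) .nil))) .nil)) (.node .leaf (nat_lit 48340835586825) (.br (nat_lit 5) (.cons (.br (nat_lit 4) (.cons (.rel (nat_lit 9663692817)) (.cons (.rel (nat_lit 9663692817)) .nil))) .nil)) .leaf)) (nat_lit 48340835587609) (.br (nat_lit 3) (.cons (.br (nat_lit 0) (.cons (.rel (nat_lit 541065249)) (.cons (.rel (nat_lit 272648448)) .nil))) .nil)) (.node (.node .leaf (nat_lit 48340835833234) (.br (nat_lit 2) (.cons (.br (nat_lit 5) (.cons (.rel (nat_lit 4362338376)) .nil)) .nil)) .leaf) (nat_lit 48340836813585) (.br (nat_lit 3) (.cons (.br (nat_lit 2) (.cons (.rel (nat_lit 335544468)) (.cons (.rel (nat_lit 335560776)) .nil))) .nil)) (.node .leaf (nat_lit 48340837008137) (.br (nat_lit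 5) (.cons (.br (nat_lit 6) (.cons (.rel (nat_lit 42949674240)) (.cons (.rel (nat_lit 38654738433)) (.cons (.rel (nat_lit 21477015552)) .nil)))) .nil)) .leaf))) (nat_lit 48340837015727) (.br (nat_lit 4) (.cons (.br (nat_lit 5) (.cons (.rel (nat_lit 5368973313)) .nil)) .nil)) (.node (.node (.node .leaf (nat_lit 48340837016337) (.br (nat_lit 1) (.cons (.br (nat_lit 2) (.cons (.rel (nat_lit 83888136)) .nil)) .nil)) .leaf) (nat_lit 48340837017052) (.br (nat_lit 1) (.cons (.br (nat_lit 2) (.cons (.rel (nat_lit 101187840)) .nil)) .nil)) (.node .leaf (nat_lit 48340837312542) (.br (nat_lit 6) (.cons (.br (nat_lit 0) (.cons (.rel (nat_lit 17188782336)) (.cons (.rel (nat_lit 17184084096)) .nil))) .nil)) .leaf)) (nat_lit 48340837312789) (.br (nat_lit 1) (.cons (.br (nat_lit 3) (.cons (.rel (nat_lit 285344004)) .nil)) .nil)) (.node (.node .leaf (nat_lit 48341864620789) (.br (nat_lit 1) (.cons (.br (nat_lit 2) (.cons (.rel (nat_lit 83888136)) .nil)) .nil)) .leaf) (nat_lit 48498792262533) (.br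 (nat_lit 0) (.cons (.br (nat_lit 1) (.cons (.rel (nat_lit 42221568)) .nil)) .nil)) (.node .leaf (nat_lit 48499006171917) (.br (nat_lit 1) (.cons (.br (nat_lit 2) (.cons (.rel (nat_lit 152059908)) .nil)) .nil)) .leaf)))) (nat_lit 48504122765444) (.br (nat_lit 2) (.cons (.br (nat_lit 5) (.cons (.br (nat_lit 0) (.cons (.rel (nat_lit 4370464896)) (.cons (.rel (nat_lit 4299169860)) .nil))) .nil)) .nil)) (.node (.node (.node (.node .leaf (nat_lit 48504123202946) (.br (nat_lit 0) (.cons (.br (nat_lit 3) (.cons (.rel (nat_lit 272648448)) (.cons (.rel (nat_lit 273678468)) (.cons (.rel (nat_lit 273155136)) .nil)))) .nil)) .leaf) (nat_lit 48504123222142) (.br (nat_lit 3) (.cons (.br (nat_lit 4) (.cons (.rel (nat_lit 1342194708)) (.cons (.rel (nat_lit 1342185600)) .nil))) .nil)) (.node .leaf (nat_lit 48504123222297) (.br (nat_lit 6) (.cons (.br (nat_lit 1) (.cons (.rel (nat_lit 17196646533)) (.cons (.rel (nat_lit 17196778497)) .nil))) .nil)) .leaf)) (nat_lit 48504123222768) (.br (nat_lit 5)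 (.cons (.br (nat_lit 2) (.cons (.rel (nat_lit 4364174340)) (.cons (.rel (nat_lit 4362342402)) .nil))) .nil)) (.node (.node .leaf (nat_lit 48504123222917) (.br (nat_lit 0) (.cons (.br (nat_lit 2) (.cons (.rel (nat_lit 71303301)) (.cons (.rel (nat_lit 142610433)) .nil))) .nil)) .leaf) (nat_lit 48504124034329) (.br (nat_lit 2) (.cons (.br (nat_lit 3) (.cons (.rel (nat_lit 335545473)) .nil)) .nil)) (.node .leaf (nat_lit 48504124198169) (.br (nat_lit 3) (.cons (.br (nat_lit 2) (.cons (.rel (nat_lit 335545473)) (.cons (.rel (nat_lit 335628288)) .nil))) .nil)) .leaf))) (nat_lit 48519353552922) (.br (nat_lit 0) (.cons (.br (nat_lit 1) (.cons (.rel (nat_lit 20992257)) .nil)) .nil)) (.node (.node (.node .leaf (nat_lit 48521298415676) (.br (nat_lit 0) (.cons (.br (nat_lit 6) (.cons (.rel (nat_lit 34368208896)) (.cons (.rel (nat_lit 17184081936)) .nil))) .nil)) .leaf) (nat_lit 48521298591106) (.br (nat_lit 0) (.cons (.br (nat_lit 4) (.cons (.rel (nat_lit 2155888704)) .nil)) .nil)) (.node .leaf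 (nat_lit 48521298890229) (.br (nat_lit 2) (.cons (.br (nat_lit 5) (.cons (.rel (nat_lit 4362338376)) .nil)) .nil)) .leaf)) (nat_lit 48521298890236) (.br (nat_lit 5) (.cons (.br (nat_lit 3) (.cons (.rel (nat_lit 4563404832)) (.cons (.rel (nat_lit 4563403782)) .nil))) .nil)) (.node (.node .leaf (nat_lit 48521298897706) (.br (nat_lit 3) (.cons (.br (nat_lit 6) (.cons (.rel (nat_lit 17716740624)) .nil)) .nil)) .leaf) (nat_lit 48521298898421) (.br (nat_lit 2) (.cons (.br (nat_lit 5) (.cons (.rel (nat_lit 8657047617)) (.cons (.rel (nat_lit 4362346629)) .nil))) (.cons (.br (nat_lit 3) (.cons (.rel (nat_lit 403701762)) (.cons (.br (nat_lit 1) (.cons (.rel (nat_lit 84017220)) (.cons (.rel (nat_lit 285245697)) (.cons (.rel (nat_lit 83952768)) .nil)))) .nil))) .nil))) (.node .leaf (nat_lit 48521298898428) (.br (nat_lit 1) (.cons (.br (nat_lit 0) (.cons (.rel (nat_lit 37814337)) (.cons (.rel (nat_lit 20972928)) (.cons (.rel (nat_lit 21037380)) .nil)))) .nil)) .leaf)))))) (nat_lit 48521299607553)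 (.br (nat_lit 3) (.cons (.br (nat_lit 5) (.cons (.rel (nat_lit 9126806544)) .nil)) .nil)) (.node (.node (.node (.node (.node (.node (.node .leaf (nat_lit 48521299608362) (.br (nat_lit 3) (.cons (.br (nat_lit 1) (.cons (.rel (nat_lit 553664517)) (.cons (.rel (nat_lit 302120961)) (.cons (.rel (nat_lit 570691584)) (.cons (.rel (nat_lit 285245697)) .nil))))) .nil)) .leaf) (nat_lit 48521299710003) (.br (nat_lit 2) (.cons (.br (nat_lit 6) (.cons (.rel (nat_lit 34493972736)) (.cons (.rel (nat_lit 17249141760)) (.cons (.rel (nat_lit 17247241344)) .nil)))) (.cons (.br (nat_lit 3) (.cons (.rel (nat_lit 336594432)) (.cons (.rel (nat_lit 335545473)) .nil))) .nil))) .leaf) (nat_lit 48521299710704) (.br (nat_lit 2) (.cons (.br (nat_lit 5) (.cons (.rel (nat_lit 4429185093)) .nil)) .nil)) (.node .leaf (nat_lit 48521299710754) (.br (nat_lit 2) (.cons (.br (nat_lit 3) (.cons (.rel (nat_lit 335545473)) .nil)) .nil)) .leaf)) (nat_lit 48521299711452) (.br (nat_lit 2) (.cons (.br (nat_lit 0) (.cons (.rel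 (nat_lit 71303301)) (.cons (.rel (nat_lit 71323680)) .nil))) .nil)) (.node (.node .leaf (nat_lit 48521299711502) (.br (nat_lit 3) (.cons (.br (nat_lit 0) (.cons (.rel (nat_lit 273678468)) (.cons (.rel (nat_lit 273219588)) (.cons (.rel (nat_lit 273155136)) .nil)))) (.cons (.br (nat_lit 6) (.cons (.rel (nat_lit 17716740624)) (.cons (.rel (nat_lit 34896625728)) .nil))) .nil))) .leaf) (nat_lit 48521299871221) (.br (nat_lit 1) (.cons (.br (nat_lit 3) (.cons (.rel (nat_lit 285344004)) .nil)) .nil)) (.node .leaf (nat_lit 48521300108566) (.br (nat_lit 1) (.cons (.br (nat_lit 6) (.cons (.rel (nat_lit 17196778497)) .nil)) .nil)) .leaf))) (nat_lit 48521300168206) (.br (nat_lit 2) (.cons (.br (nat_lit 5) (.cons (.rel (nat_lit 4362405888)) .nil)) .nil)) (.node (.node (.node .leaf (nat_lit 48521300937506) (.br (nat_lit 4) (.cons (.br (nat_lit 6) (.cons (.rel (nat_lit 18253873221)) .nil)) .nil)) .leaf) (nat_lit 48521300938006) (.br (nat_lit 3) (.cons (.br (nat_lit 2) (.cons (.rel (nat_lit 336855045))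 (.cons (.rel (nat_lit 403701762)) .nil))) .nil)) (.node .leaf (nat_lit 48521300938254) (.br (nat_lit 3) (.cons (.br (nat_lit 4) (.cons (.rel (nat_lit 1342181385)) (.cons (.rel (nat_lit 2684358720)) .nil))) (.cons (.br (nat_lit 4) (.cons (.rel (nat_lit 2416984068)) (.cons (.rel (nat_lit 1342185600)) .nil))) .nil))) .leaf)) (nat_lit 48521301132796) (.br (nat_lit 0) (.cons (.br (nat_lit 3) (.cons (.rel (nat_lit 273219588)) .nil)) .nil)) (.node (.node .leaf (nat_lit 48521301140956) (.br (nat_lit 2) (.cons (.br (nat_lit 3) (.cons (.rel (nat_lit 335545473)) .nil)) .nil)) .leaf) (nat_lit 48521301140981) (.br (nat_lit 2) (.cons (.br (nat_lit 3) (.cons (.rel (nat_lit 403701762)) .nil)) .nil)) (.node .leaf (nat_lit 48521301502077) (.br (nat_lit 2) (.cons (.br (nat_lit 4) (.cons (.rel (nat_lit 1142424576)) .nil)) .nil)) .leaf)))) (nat_lit 48521301509646) (.br (nat_lit 0) (.cons (.br (nat_lit 4) (.cons (.rel (nat_lit 1078264068)) .nil)) .nil)) (.node (.node (.node (.node .leaf (nat_lit 48521952946213)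 (.br (nat_lit 6) (.cons (.br (nat_lit 2) (.cons (.rel (nat_lit 34426864641)) (.cons (.rel (nat_lit 17247011328)) .nil))) .nil)) .leaf) (nat_lit 48521955814263) (.br (nat_lit 2) (.cons (.br (nat_lit 3) (.cons (.rel (nat_lit 335545473)) (.cons (.rel (nat_lit 335545473)) .nil))) (.cons (.br (nat_lit 3) (.cons (.rel (nat_lit 336594432)) (.cons (.rel (nat_lit 335544468)) .nil))) .nil))) (.node .leaf (nat_lit 48541742645873) (.br (nat_lit 5) (.cons (.br (nat_lit 6) (.cons (.rel (nat_lit 21475115136)) .nil)) .nil)) .leaf)) (nat_lit 48547093846046) (.br (nat_lit 0) (.cons (.br (nat_lit 5) (.cons (.rel (nat_lit 4299259908)) (.cons (.rel (nat_lit 4299259908)) .nil))) .nil)) (.node (.node .leaf (nat_lit 48547093847426) (.br (nat_lit 2) (.cons (.br (nat_lit 3) (.cons (.br (nat_lit 4) (.cons (.rel (nat_lit 1342195713)) .nil)) .nil)) .nil)) .leaf) (nat_lit 48547093866497) (.br (nat_lit 0) (.cons (.br (nat_lit 3) (.cons (.rel (nat_lit 272634120)) .nil)) .nil)) (.node .leaf (nat_lit 48547093866526)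 (.br (nat_lit 0) (.cons (.br (nat_lit 1) (.cons (.rel (nat_lit 20972928)) .nil)) .nil)) .leaf))) (nat_lit 48547093866626) (.br (nat_lit 1) (.cons (.br (nat_lit 3) (.cons (.rel (nat_lit 553713666)) .nil)) .nil)) (.node (.node (.node .leaf (nat_lit 48547093866777) (.br (nat_lit 0) (.cons (.br (nat_lit 2) (.cons (.rel (nat_lit 71435265)) .nil)) .nil)) .leaf) (nat_lit 48547093867248) (.br (nat_lit 2) (.cons (.br (nat_lit 5) (.cons (.rel (nat_lit 4362405888)) (.cons (.br (nat_lit 6) (.cons (.rel (nat_lit 17249141760)) (.cons (.rel (nat_lit 21474839040)) .nil))) .nil))) .nil)) (.node .leaf (nat_lit 48547094616726) (.br (nat_lit 5) (.cons (.br (nat_lit 3) (.cons (.rel (nat_lit 4563403782)) (.cons (.rel (nat_lit 4563402777)) (.cons (.rel (nat_lit 4564717569)) .nil)))) .nil)) .leaf)) (nat_lit 48547094616816) (.br (nat_lit 0) (.cons (.br (nat_lit 2) (.cons (.rel (nat_lit 72352260)) .nil)) .nil)) (.node (.node .leaf (nat_lit 48584712579824) (.br (nat_lit 0) (.cons (.br (nat_lit 3) (.cons (.rel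 (nat_lit 273810432)) .nil)) .nil)) .leaf) (nat_lit 48584905517866) (.br (nat_lit 0) (.cons (.br (nat_lit 1) (.cons (.rel (nat_lit 37765188)) .nil)) .nil)) (.node .leaf (nat_lit 48584906228337) (.br (nat_lit 3) (.cons (.br (nat_lit 5) (.cons (.rel (nat_lit 9126806544)) .nil)) .nil)) .leaf))))) (nat_lit 48585953615898) (.br (nat_lit 1) (.cons (.br (nat_lit 2) (.cons (.rel (nat_lit 83886117)) .nil)) .nil)) (.node (.node (.node (.node (.node (.node .leaf (nat_lit 48590064042794) (.br (nat_lit 1) (.cons (.br (nat_lit 2) (.cons (.rel (nat_lit 83888136)) .nil)) .nil)) .leaf) (nat_lit 48590064054334) (.br (nat_lit 1) (.cons (.br (nat_lit 3) (.cons (.br (nat_lit 6) (.cons (.br (nat_lit 5) (.cons (.rel (nat_lit 38654738433)) (.cons (.rel (nat_lit 9126806544)) (.cons (.rel (nat_lit 4849664001)) (.cons (.rel (nat_lit 4598071296)) .nil))))) (.cons (.rel (nat_lit 17196650568)) (.cons (.rel (nat_lit 17196679185)) .nil)))) (.cons (.rel (nat_lit 286262289)) .nil))) (.cons (.br (nat_lit 3) (.cons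 (.rel (nat_lit 553713666)) (.cons (.br (nat_lit 6) (.cons (.rel (nat_lit 17448322053)) (.cons (.rel (nat_lit 17448568128)) (.cons (.rel (nat_lit 34377105408)) .nil)))) .nil))) .nil))) .leaf) (nat_lit 48590064055159) (.br (nat_lit 3) (.cons (.br (nat_lit 1) (.cons (.br (nat_lit 5) (.cons (.rel (nat_lit 9126806544)) (.cons (.br (nat_lit 0) (.cons (.rel (nat_lit 541067268)) (.cons (.rel (nat_lit 276824082)) (.cons (.rel (nat_lit 541065249)) (.cons (.rel (nat_lit 4299161610)) (.cons (.rel (nat_lit 273711120)) .nil)))))) .nil))) (.cons (.rel (nat_lit 285344004)) .nil))) .nil)) (.node .leaf (nat_lit 48590064055797) (.br (nat_lit 3) (.cons (.br (nat_lit 5) (.cons (.rel (nat_lit 9126806544)) .nil)) .nil)) .leaf)) (nat_lit 48590064195845) (.br (nat_lit 1) (.cons (.br (nat_lit 2) (.cons (.rel (nat_lit 83888136)) .nil)) .nil)) (.node (.node .leaf (nat_lit 48590064255002) (.br (nat_lit 4) (.cons (.br (nat_lit 6) (.cons (.rel (nat_lit 18253877256)) .nil)) .nil)) .leaf) (nat_lit 48590064255237)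 (.br (nat_lit 3) (.cons (.br (nat_lit 5) (.cons (.rel (nat_lit 4563402777)) .nil)) .nil)) (.node .leaf (nat_lit 48590064256486) (.br (nat_lit 3) (.cons (.br (nat_lit 2) (.cons (.rel (nat_lit 606076929)) (.cons (.br (nat_lit 4) (.cons (.rel (nat_lit 1342195713)) (.cons (.br (nat_lit 5) (.cons (.br (nat_lit 6) (.cons (.rel (nat_lit 17717002242)) (.cons (.rel (nat_lit 25769820162)) (.cons (.rel (nat_lit 17448632580)) .nil)))) (.cons (.rel (nat_lit 4563403782)) (.cons (.rel (nat_lit 4563402777)) .nil)))) (.cons (.rel (nat_lit 2415919377)) .nil)))) .nil))) .nil)) .leaf))) (nat_lit 48590064490777) (.br (nat_lit 1) (.cons (.br (nat_lit 6) (.cons (.rel (nat_lit 17197958160)) .nil)) .nil)) (.node (.node (.node .leaf (nat_lit 48590064494654) (.br (nat_lit 2) (.cons (.br (nat_lit 6) (.cons (.rel (nat_lit 34493972736)) .nil)) .nil)) .leaf) (nat_lit 48590064511027) (.br (nat_lit 2) (.cons (.br (nat_lit 4) (.cons (.rel (nat_lit 2282754114)) (.cons (.rel (nat_lit 2214658050)) .nil))) (.cons (.br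 (nat_lit 4) (.cons (.rel (nat_lit 2281705728)) (.cons (.rel (nat_lit 2214592593)) .nil))) .nil))) (.node .leaf (nat_lit 48590064511158) (.br (nat_lit 2) (.cons (.br (nat_lit 3) (.cons (.rel (nat_lit 335545473)) .nil)) .nil)) .leaf)) (nat_lit 48590064511786) (.br (nat_lit 0) (.cons (.br (nat_lit 3) (.cons (.rel (nat_lit 541065249)) .nil)) .nil)) (.node (.node .leaf (nat_lit 48590064512501) (.br (nat_lit 1) (.cons (.br (nat_lit 6) (.cons (.rel (nat_lit 17196729348)) .nil)) .nil)) .leaf) (nat_lit 48590064512508) (.br (nat_lit 1) (.cons (.br (nat_lit 3) (.cons (.rel (nat_lit 285344004)) (.cons (.rel (nat_lit 285279552)) (.cons (.rel (nat_lit 285344004)) .nil)))) (.cons (.br (nat_lit 4) (.cons (.rel (nat_lit 1090551840)) (.cons (.rel (nat_lit 1090603008)) .nil))) .nil))) (.node .leaf (nat_lit 48590065222434) (.br (nat_lit 1) (.cons (.br (nat_lit 3) (.cons (.rel (nat_lit 286524672)) .nil)) .nil)) .leaf)))) (nat_lit 48590065222442) (.br (nat_lit 1) (.cons (.br (nat_lit 3) (.cons (.rel (nat_lit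 302120961)) .nil)) .nil)) (.node (.node (.node (.node .leaf (nat_lit 48590065325564) (.br (nat_lit 0) (.cons (.br (nat_lit 4) (.cons (.rel (nat_lit 2151678210)) (.cons (.rel (nat_lit 1078002690)) .nil))) (.cons (.br (nat_lit 6) (.cons (.rel (nat_lit 17184067608)) (.cons (.rel (nat_lit 17184063573)) .nil))) .nil))) .leaf) (nat_lit 48590065518774) (.br (nat_lit 1) (.cons (.br (nat_lit 2) (.cons (.rel (nat_lit 83888136)) .nil)) .nil)) (.node .leaf (nat_lit 48590065519479) (.br (nat_lit 2) (.cons (.br (nat_lit 1) (.cons (.rel (nat_lit 101187840)) (.cons (.rel (nat_lit 83888136)) (.cons (.rel (nat_lit 83952768)) .nil)))) .nil)) .leaf)) (nat_lit 48590065587563) (.br (nat_lit 2) (.cons (.br (nat_lit 3) (.cons (.rel (nat_lit 604259328)) .nil)) .nil)) (.node (.node .leaf (nat_lit 48590065836788) (.br (nat_lit 2) (.cons (.br (nat_lit 3) (.cons (.rel (nat_lit 335628288)) .nil)) .nil)) .leaf) (nat_lit 48590066492279) (.br (nat_lit 6) (.cons (.br (nat_lit 2) (.cons (.rel (nat_lit 17247011328))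 (.cons (.rel (nat_lit 34493972736)) .nil))) .nil)) (.node .leaf (nat_lit 48590066745395) (.br (nat_lit 3) (.cons (.br (nat_lit 5) (.cons (.rel (nat_lit 4565633280)) .nil)) .nil)) .leaf))) (nat_lit 48590066746905) (.br (nat_lit 1) (.cons (.br (nat_lit 3) (.cons (.rel (nat_lit 285344004)) .nil)) .nil)) (.node (.node (.node .leaf (nat_lit 48590066753598) (.br (nat_lit 1) (.cons (.br (nat_lit 6) (.cons (.rel (nat_lit 17196654594)) .nil)) .nil)) .leaf) (nat_lit 48590066754292) (.br (nat_lit 2) (.cons (.br (nat_lit 5) (.cons (.rel (nat_lit 4362338376)) (.cons (.rel (nat_lit 8725201938)) .nil))) .nil)) (.node .leaf (nat_lit 48590066754346) (.br (nat_lit 1) (.cons (.br (nat_lit 2) (.cons (.rel (nat_lit 83918913)) .nil)) .nil)) .leaf)) (nat_lit 48590066754423) (.br (nat_lit 1) (.cons (.br (nat_lit 3) (.cons (.rel (nat_lit 286262289)) .nil)) .nil)) (.node (.node .leaf (nat_lit 48590067050558) (.br (nat_lit 3) (.cons (.br (nat_lit 4) (.cons (.rel (nat_lit 1342178400)) .nil)) .nil)) .leaf) (nat_lit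 48590067052021) (.br (nat_lit 3) (.cons (.br (nat_lit 4) (.cons (.rel (nat_lit 2684358720)) .nil)) .nil)) (.node .leaf (nat_lit 48590067116834) (.br (nat_lit 3) (.cons (.br (nat_lit 1) (.cons (.rel (nat_lit 553713666)) (.cons (.rel (nat_lit 553652244)) .nil))) .nil)) .leaf)))))))

/-- refutations 4 -/
def e4 : EX := (.node .leaf (nat_lit 7946319227505) (.br (nat_lit 0) (.cons (.br (nat_lit 1) (.cons (.rel (nat_lit 20972928)) .nil)) .nil)) .leaf)

/-- refutations 5 -/
def e5 : EX := (.node (.node (.node (.node (.node (.node (.node .leaf (nat_lit 105553368038306) (.br (nat_lit 4) (.cons (.br (nat_lit 5) (.cons (.rel (nat_lit 5369762049)) .nil)) .nil)) .leaf) (nat_lit 105553368508421) (.br (nat_lit 3) (.cons (.br (nat_lit 6) (.cons (.rel (nat_lit 17448443904)) .nil)) .nil)) .leaf) (nat_lit 105553368509948) (.br (nat_lit 2) (.cons (.br (nat_lit 0) (.cons (.rel (nat_lit 71434260)) (.cons (.rel (nat_lit 71303301)) .nil))) .nil)) (.node (.node .leaf (nat_lit 105553369516037) (.br (nat_lit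 0) (.cons (.br (nat_lit 3) (.cons (.rel (nat_lit 272634120)) .nil)) .nil)) .leaf) (nat_lit 105554167406767) (.br (nat_lit 0) (.cons (.br (nat_lit 3) (.cons (.rel (nat_lit 272634120)) .nil)) .nil)) .leaf)) (nat_lit 105556413566453) (.br (nat_lit 0) (.cons (.br (nat_lit 1) (.cons (.rel (nat_lit 25231377)) .nil)) .nil)) (.node (.node (.node .leaf (nat_lit 105556413574656) (.br (nat_lit 0) (.cons (.br (nat_lit 3) (.cons (.rel (nat_lit 276825096)) .nil)) .nil)) .leaf) (nat_lit 105556414386936) (.br (nat_lit 1) (.cons (.br (nat_lit 2) (.cons (.rel (nat_lit 84148500)) .nil)) .nil)) .leaf) (nat_lit 105556414640753) (.br (nat_lit 0) (.cons (.br (nat_lit 2) (.cons (.rel (nat_lit 75763716)) .nil)) .nil)) (.node (.node .leaf (nat_lit 105556473301777) (.br (nat_lit 2) (.cons (.br (nat_lit 3) (.cons (.rel (nat_lit 335609925)) .nil)) .nil)) .leaf) (nat_lit 105556473369201) (.br (nat_lit 0) (.cons (.br (nat_lit 3) (.cons (.rel (nat_lit 273219588)) .nil)) .nil)) .leaf))) (nat_lit 105556474899932)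 (.br (nat_lit 0) (.cons (.br (nat_lit 3) (.cons (.rel (nat_lit 545603586)) .nil)) .nil)) (.node (.node (.node (.node .leaf (nat_lit 105558598543397) (.br (nat_lit 1) (.cons (.br (nat_lit 5) (.cons (.rel (nat_lit 4311785472)) .nil)) .nil)) .leaf) (nat_lit 105558598789157) (.br (nat_lit 1) (.cons (.br (nat_lit 2) (.cons (.rel (nat_lit 83888136)) .nil)) .nil)) .leaf) (nat_lit 105558598798837) (.br (nat_lit 3) (.cons (.br (nat_lit 0) (.cons (.rel (nat_lit 541102080)) (.cons (.rel (nat_lit 273810432)) .nil))) .nil)) (.node (.node .leaf (nat_lit 105558598798848) (.br (nat_lit 2) (.cons (.br (nat_lit 3) (.cons (.rel (nat_lit 336855045)) .nil)) .nil)) .leaf) (nat_lit 105558598805534) (.br (nat_lit 2) (.cons (.br (nat_lit 3) (.cons (.rel (nat_lit 671105040)) .nil)) .nil)) .leaf)) (nat_lit 105558598807029) (.br (nat_lit 3) (.cons (.br (nat_lit 1) (.cons (.rel (nat_lit 570691584)) (.cons (.rel (nat_lit 570691584)) .nil))) .nil)) (.node (.node (.node .leaf (nat_lit 105558598807040) (.br (nat_lit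 0) (.cons (.br (nat_lit 3) (.cons (.rel (nat_lit 276825096)) (.cons (.rel (nat_lit 272630085)) .nil))) .nil)) .leaf) (nat_lit 105558599516190) (.br (nat_lit 1) (.cons (.br (nat_lit 5) (.cons (.rel (nat_lit 4311879744)) (.cons (.rel (nat_lit 4311826560)) .nil))) .nil)) .leaf) (nat_lit 105558599516937) (.br (nat_lit 1) (.cons (.br (nat_lit 3) (.cons (.rel (nat_lit 285344004)) .nil)) .nil)) (.node .leaf (nat_lit 105558599516945) (.br (nat_lit 3) (.cons (.br (nat_lit 1) (.cons (.rel (nat_lit 285745152)) (.cons (.rel (nat_lit 285245697)) .nil))) .nil)) .leaf)))) (nat_lit 105558599873137) (.br (nat_lit 0) (.cons (.br (nat_lit 3) (.cons (.rel (nat_lit 273219588)) .nil)) .nil)) (.node (.node (.node (.node (.node .leaf (nat_lit 105558599873899) (.br (nat_lit 0) (.cons (.br (nat_lit 6) (.cons (.rel (nat_lit 17184064578)) .nil)) .nil)) .leaf) (nat_lit 105558600076800) (.br (nat_lit 0) (.cons (.br (nat_lit 2) (.cons (.rel (nat_lit 72614928)) .nil)) .nil)) .leaf) (nat_lit 105558600786102) (.br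 (nat_lit 1) (.cons (.br (nat_lit 2) (.cons (.rel (nat_lit 101187840)) .nil)) .nil)) (.node (.node .leaf (nat_lit 105559621744896) (.br (nat_lit 1) (.cons (.br (nat_lit 4) (.cons (.rel (nat_lit 1108345104)) .nil)) .nil)) .leaf) (nat_lit 105559621745392) (.br (nat_lit 1) (.cons (.br (nat_lit 3) (.cons (.rel (nat_lit 303300624)) .nil)) .nil)) .leaf)) (nat_lit 111011111144701) (.br (nat_lit 3) (.cons (.br (nat_lit 6) (.cons (.rel (nat_lit 34628174112)) .nil)) .nil)) (.node (.node (.node .leaf (nat_lit 111014230211312) (.br (nat_lit 1) (.cons (.br (nat_lit 3) (.cons (.rel (nat_lit 285233424)) .nil)) .nil)) .leaf) (nat_lit 112041814190117) (.br (nat_lit 0) (.cons (.br (nat_lit 3) (.cons (.rel (nat_lit 272634120)) .nil)) .nil)) .leaf) (nat_lit 112043869399077) (.br (nat_lit 0) (.cons (.br (nat_lit 2) (.cons (.rel (nat_lit 71323680)) .nil)) .nil)) (.node .leaf (nat_lit 112258747780583) (.br (nat_lit 2) (.cons (.br (nat_lit 3) (.cons (.rel (nat_lit 335544468)) .nil)) .nil)) .leaf))) (nat_lit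 117800219810417) (.br (nat_lit 0) (.cons (.br (nat_lit 1) (.cons (.rel (nat_lit 42221568)) .nil)) .nil)) (.node (.node (.node (.node .leaf (nat_lit 117800219811179) (.br (nat_lit 0) (.cons (.br (nat_lit 1) (.cons (.rel (nat_lit 22282500)) .nil)) .nil)) .leaf) (nat_lit 117800219818765) (.br (nat_lit 3) (.cons (.br (nat_lit 0) (.cons (.rel (nat_lit 541065249)) (.cons (.rel (nat_lit 276824082)) .nil))) .nil)) .leaf) (nat_lit 117800221000461) (.br (nat_lit 1) (.cons (.br (nat_lit 3) (.cons (.rel (nat_lit 285745152)) (.cons (.rel (nat_lit 285233424)) .nil))) (.cons (.br (nat_lit 3) (.cons (.rel (nat_lit 285279552)) (.cons (.rel (nat_lit 286524672)) .nil))) .nil))) (.node (.node .leaf (nat_lit 117800221365756) (.br (nat_lit 0) (.cons (.br (nat_lit 2) (.cons (.rel (nat_lit 72614928)) .nil)) .nil)) .leaf) (nat_lit 118489810005500) (.br (nat_lit 6) (.cons (.br (nat_lit 0) (.cons (.rel (nat_lit 34364986368)) (.cons (.rel (nat_lit 17184064578)) .nil))) .nil)) .leaf)) (nat_lit 118492942693863)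 (.br (nat_lit 3) (.cons (.br (nat_lit 6) (.cons (.rel (nat_lit 17448370197)) .nil)) .nil)) (.node (.node (.node .leaf (nat_lit 118492943134183) (.br (nat_lit 4) (.cons (.br (nat_lit 3) (.cons (.rel (nat_lit 1342185600)) (.cons (.rel (nat_lit 1342185600)) .nil))) .nil)) .leaf) (nat_lit 118492943149841) (.br (nat_lit 2) (.cons (.br (nat_lit 6) (.cons (.rel (nat_lit 17314152513)) .nil)) .nil)) .leaf) (nat_lit 118492943860493) (.br (nat_lit 3) (.cons (.br (nat_lit 5) (.cons (.rel (nat_lit 4563550224)) .nil)) .nil)) (.node .leaf (nat_lit 118492945393127) (.br (nat_lit 4) (.cons (.br (nat_lit 5) (.cons (.rel (nat_lit 5368709640)) .nil)) .nil)) .leaf))))) (nat_lit 118494805420069) (.br (nat_lit 4) (.cons (.br (nat_lit 6) (.cons (.rel (nat_lit 18253939728)) .nil)) .nil)) (.node (.node (.node (.node (.node (.node .leaf (nat_lit 118494805421338) (.br (nat_lit 2) (.cons (.br (nat_lit 4) (.cons (.rel (nat_lit 1208030208)) .nil)) .nil)) .leaf) (nat_lit 118494806131313) (.br (nat_lit 1) (.cons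 (.br (nat_lit 5) (.cons (.rel (nat_lit 4311785472)) .nil)) .nil)) .leaf) (nat_lit 118494806179098) (.br (nat_lit 1) (.cons (.br (nat_lit 6) (.cons (.rel (nat_lit 17196646533)) .nil)) .nil)) (.node (.node .leaf (nat_lit 118494910277669) (.br (nat_lit 2) (.cons (.br (nat_lit 3) (.cons (.rel (nat_lit 335545473)) .nil)) .nil)) .leaf) (nat_lit 118494910279168) (.br (nat_lit 0) (.cons (.br (nat_lit 2) (.cons (.rel (nat_lit 72352260)) .nil)) .nil)) .leaf)) (nat_lit 118496004512369) (.br (nat_lit 3) (.cons (.br (nat_lit 4) (.cons (.rel (nat_lit 1342185600)) (.cons (.rel (nat_lit 1342275648)) .nil))) (.cons (.br (nat_lit 0) (.cons (.rel (nat_lit 273711120)) (.cons (.rel (nat_lit 276825096)) (.cons (.rel (nat_lit 272696592)) .nil)))) .nil))) (.node (.node (.node .leaf (nat_lit 118496004512525) (.br (nat_lit 1) (.cons (.br (nat_lit 6) (.cons (.br (nat_lit 2) (.cons (.rel (nat_lit 150995217)) (.cons (.rel (nat_lit 101187840)) (.cons (.rel (nat_lit 17247241344)) .nil)))) (.cons (.rel (nat_lit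 17213816832)) .nil))) .nil)) .leaf) (nat_lit 118496004534897) (.br (nat_lit 3) (.cons (.br (nat_lit 5) (.cons (.rel (nat_lit 4563406992)) .nil)) .nil)) .leaf) (nat_lit 118496004975373) (.br (nat_lit 2) (.cons (.br (nat_lit 6) (.cons (.rel (nat_lit 17248550916)) .nil)) .nil)) (.node (.node .leaf (nat_lit 118496004976103) (.br (nat_lit 3) (.cons (.br (nat_lit 2) (.cons (.rel (nat_lit 335545473)) (.cons (.rel (nat_lit 335544468)) .nil))) .nil)) .leaf) (nat_lit 118496004992508) (.br (nat_lit 0) (.cons (.br (nat_lit 5) (.cons (.rel (nat_lit 4299195456)) .nil)) .nil)) .leaf))) (nat_lit 118496004992512) (.br (nat_lit 0) (.cons (.br (nat_lit 3) (.cons (.rel (nat_lit 541067268)) .nil)) .nil)) (.node (.node (.node (.node .leaf (nat_lit 118496005702413) (.br (nat_lit 3) (.cons (.br (nat_lit 1) (.cons (.rel (nat_lit 286261284)) (.cons (.rel (nat_lit 302026881)) (.cons (.rel (nat_lit 285279552)) .nil)))) (.cons (.br (nat_lit 1) (.cons (.rel (nat_lit 302055504)) (.cons (.rel (nat_lit 553713666))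 (.cons (.rel (nat_lit 302120961)) .nil)))) .nil))) .leaf) (nat_lit 118496005964032) (.br (nat_lit 1) (.cons (.br (nat_lit 2) (.cons (.rel (nat_lit 100925457)) .nil)) .nil)) .leaf) (nat_lit 118496007482129) (.br (nat_lit 1) (.cons (.br (nat_lit 2) (.cons (.rel (nat_lit 151536768)) .nil)) .nil)) (.node (.node .leaf (nat_lit 118496007504653) (.br (nat_lit 1) (.cons (.br (nat_lit 5) (.cons (.rel (nat_lit 4311785472)) .nil)) .nil)) .leaf) (nat_lit 118496063711258) (.br (nat_lit 2) (.cons (.br (nat_lit 1) (.cons (.rel (nat_lit 151257600)) (.cons (.rel (nat_lit 152109057)) .nil))) .nil)) .leaf)) (nat_lit 118496065955342) (.br (nat_lit 2) (.cons (.br (nat_lit 4) (.cons (.rel (nat_lit 2281705728)) .nil)) .nil)) (.node (.node (.node .leaf (nat_lit 118496066253552) (.br (nat_lit 3) (.cons (.br (nat_lit 1) (.cons (.rel (nat_lit 286294080)) (.cons (.rel (nat_lit 286261284)) .nil))) .nil)) .leaf) (nat_lit 118529399509777) (.br (nat_lit 1) (.cons (.br (nat_lit 2) (.cons (.rel (nat_lit 83887122))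 .nil)) .nil)) .leaf) (nat_lit 118529399583345) (.br (nat_lit 1) (.cons (.br (nat_lit 3) (.cons (.rel (nat_lit 570691584)) .nil)) .nil)) (.node .leaf (nat_lit 118529399725532) (.br (nat_lit 3) (.cons (.br (nat_lit 2) (.cons (.rel (nat_lit 335564802)) (.cons (.rel (nat_lit 335545473)) .nil))) .nil)) .leaf)))) (nat_lit 118529399778057) (.br (nat_lit 0) (.cons (.br (nat_lit 2) (.cons (.rel (nat_lit 71369808)) .nil)) .nil)) (.node (.node (.node (.node (.node .leaf (nat_lit 118529400023066) (.br (nat_lit 2) (.cons (.br (nat_lit 3) (.cons (.rel (nat_lit 335676432)) .nil)) .nil)) .leaf) (nat_lit 118529400024325) (.br (nat_lit 0) (.cons (.br (nat_lit 1) (.cons (.rel (nat_lit 20979984)) .nil)) .nil)) .leaf) (nat_lit 118529400024472) (.br (nat_lit 1) (.cons (.br (nat_lit 2) (.cons (.rel (nat_lit 83888136)) .nil)) .nil)) (.node (.node .leaf (nat_lit 118529400024565) (.br (nat_lit 3) (.cons (.br (nat_lit 0) (.cons (.rel (nat_lit 272634120)) (.cons (.rel (nat_lit 273678468)) .nil))) .nil)) .leaf)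 (nat_lit 118529400031269) (.br (nat_lit 0) (.cons (.br (nat_lit 3) (.cons (.rel (nat_lit 541065249)) .nil)) .nil)) .leaf)) (nat_lit 118529400032013) (.br (nat_lit 0) (.cons (.br (nat_lit 3) (.cons (.rel (nat_lit 541327632)) .nil)) .nil)) (.node (.node (.node .leaf (nat_lit 118529400032757) (.br (nat_lit 0) (.cons (.br (nat_lit 5) (.cons (.rel (nat_lit 4299243600)) (.cons (.rel (nat_lit 4299162660)) (.cons (.rel (nat_lit 4299161610)) .nil)))) .nil)) .leaf) (nat_lit 118529400039450) (.br (nat_lit 3) (.cons (.br (nat_lit 5) (.cons (.rel (nat_lit 4563402777)) (.cons (.rel (nat_lit 4564468224)) .nil))) .nil)) .leaf) (nat_lit 118529400039454) (.br (nat_lit 0) (.cons (.br (nat_lit 3) (.cons (.rel (nat_lit 541065249)) (.cons (.rel (nat_lit 272634120)) .nil))) .nil)) (.node .leaf (nat_lit 118529400040201) (.br (nat_lit 2) (.cons (.br (nat_lit 3) (.cons (.rel (nat_lit 335544468)) .nil)) .nil)) .leaf))) (nat_lit 118529400750110) (.br (nat_lit 1) (.cons (.br (nat_lit 2) (.cons (.rel (nat_lit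 84017220)) (.cons (.rel (nat_lit 83952768)) .nil))) .nil)) (.node (.node (.node (.node .leaf (nat_lit 118529400750865) (.br (nat_lit 1) (.cons (.br (nat_lit 5) (.cons (.br (nat_lit 2) (.cons (.rel (nat_lit 84017220)) (.cons (.rel (nat_lit 83952768)) (.cons (.rel (nat_lit 4395630672)) .nil)))) .nil)) .nil)) .leaf) (nat_lit 118529400751605) (.br (nat_lit 5) (.cons (.br (nat_lit 0) (.cons (.rel (nat_lit 4299161610)) (.cons (.rel (nat_lit 4299165825)) (.cons (.rel (nat_lit 4303626240)) .nil)))) .nil)) .leaf) (nat_lit 118529401014573) (.br (nat_lit 1) (.cons (.br (nat_lit 2) (.cons (.rel (nat_lit 83888136)) .nil)) .nil)) (.node (.node .leaf (nat_lit 118529401047821) (.br (nat_lit 5) (.cons (.br (nat_lit 3) (.cons (.rel (nat_lit 9126806544)) (.cons (.rel (nat_lit 4563406992)) .nil))) .nil)) .leaf) (nat_lit 118529402531224) (.br (nat_lit 3) (.cons (.br (nat_lit 5) (.cons (.rel (nat_lit 4563550224)) .nil)) .nil)) .leaf)) (nat_lit 118530364730125) (.br (nat_lit 0) (.cons (.br (nat_lit 3)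 (.cons (.rel (nat_lit 272696592)) (.cons (.rel (nat_lit 541067268)) .nil))) (.cons (.br (nat_lit 3) (.cons (.rel (nat_lit 273219588)) (.cons (.rel (nat_lit 274991112)) .nil))) .nil))) (.node (.node (.node .leaf (nat_lit 118530364730876) (.br (nat_lit 0) (.cons (.br (nat_lit 3) (.cons (.rel (nat_lit 273219588)) .nil)) .nil)) .leaf) (nat_lit 118530365440785) (.br (nat_lit 0) (.cons (.br (nat_lit 1) (.cons (.rel (nat_lit 42221568)) .nil)) .nil)) .leaf) (nat_lit 118530365796608) (.br (nat_lit 1) (.cons (.br (nat_lit 2) (.cons (.rel (nat_lit 167773188)) .nil)) .nil)) (.node .leaf (nat_lit 118530367243021) (.br (nat_lit 1) (.cons (.br (nat_lit 2) (.cons (.rel (nat_lit 83886117)) .nil)) .nil)) .leaf))))))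

/-- refutations 6 -/
def e6 : EX := (.node (.node (.node (.node (.node .leaf (nat_lit 453141580530464) (.br (nat_lit 2) (.cons (.br (nat_lit 3) (.cons (.rel (nat_lit 335549508)) .nil)) .nil)) .leaf) (nat_lit 459776988528892) (.br (nat_lit 1) (.cons (.br (nat_lit 2) (.cons (.rel (nat_lit 83886117)) .nil)) .nil)) (.node .leaf (nat_lit 463936545949033) (.br (nat_lit 3) (.cons (.br (nat_lit 5) (.cons (.br (nat_lit 2) (.cons (.rel (nat_lit 4362080784)) (.cons (.rel (nat_lit 671105040)) .nil))) .nil)) .nil)) .leaf)) (nat_lit 463936545949158) (.br (nat_lit 3) (.cons (.br (nat_lit 5) (.cons (.br (nat_lit 2) (.cons (.rel (nat_lit 8657125392)) (.cons (.rel (nat_lit 335577120)) (.cons (.rel (nat_lit 4362354720)) .nil)))) .nil)) .nil)) (.node (.node .leaf (nat_lit 463936546204273) (.br (nat_lit 2) (.cons (.br (nat_lit 5) (.cons (.rel (nat_lit 4362080784)) (.cons (.rel (nat_lit 8657047617)) (.cons (.rel (nat_lit 4364174340)) .nil)))) (.cons (.br (nat_lit 5) (.cons (.rel (nat_lit 8657051652))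 (.cons (.rel (nat_lit 8657051652)) (.cons (.rel (nat_lit 4362342402)) .nil)))) .nil))) .leaf) (nat_lit 463936546205033) (.br (nat_lit 5) (.cons (.br (nat_lit 6) (.cons (.rel (nat_lit 21475901712)) (.cons (.rel (nat_lit 25769869320)) (.cons (.rel (nat_lit 21477015552)) .nil)))) .nil)) .leaf)) (nat_lit 463936546205158) (.br (nat_lit 3) (.cons (.br (nat_lit 5) (.cons (.br (nat_lit 4) (.cons (.rel (nat_lit 1342185600)) (.cons (.rel (nat_lit 5637177600)) (.cons (.rel (nat_lit 10738532388)) .nil)))) .nil)) .nil)) (.node (.node (.node .leaf (nat_lit 463936548447613) (.br (nat_lit 2) (.cons (.br (nat_lit 1) (.cons (.rel (nat_lit 83888136)) (.cons (.rel (nat_lit 83959824)) .nil))) .nil)) .leaf) (nat_lit 464372602369561) (.br (nat_lit 0) (.cons (.br (nat_lit 1) (.cons (.rel (nat_lit 20979984)) .nil)) .nil)) (.node .leaf (nat_lit 465448374437350) (.br (nat_lit 2) (.cons (.br (nat_lit 5) (.cons (.rel (nat_lit 8657051652)) .nil)) .nil)) .leaf)) (nat_lit 465448374693225) (.br (nat_lit 0) (.cons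 (.br (nat_lit 2) (.cons (.rel (nat_lit 71311362)) (.cons (.rel (nat_lit 71323680)) .nil))) (.cons (.br (nat_lit 3) (.cons (.rel (nat_lit 276824082)) (.cons (.rel (nat_lit 276848640)) .nil))) .nil))) (.node (.node .leaf (nat_lit 469313937533553) (.br (nat_lit 2) (.cons (.br (nat_lit 0) (.cons (.rel (nat_lit 71311362)) (.cons (.rel (nat_lit 72614928)) .nil))) .nil)) .leaf) (nat_lit 469317620132465) (.br (nat_lit 1) (.cons (.br (nat_lit 5) (.cons (.rel (nat_lit 4311750660)) .nil)) .nil)) .leaf))) (nat_lit 469475023973253) (.br (nat_lit 1) (.cons (.br (nat_lit 2) (.cons (.rel (nat_lit 83922948)) .nil)) .nil)) (.node (.node (.node (.node .leaf (nat_lit 470505098897468) (.br (nat_lit 1) (.cons (.br (nat_lit 2) (.cons (.rel (nat_lit 100925457)) .nil)) .nil)) .leaf) (nat_lit 470505098898033) (.br (nat_lit 1) (.cons (.br (nat_lit 5) (.cons (.rel (nat_lit 4311785472)) .nil)) .nil)) (.node .leaf (nat_lit 470505098898688) (.br (nat_lit 5) (.cons (.br (nat_lit 2) (.cons (.rel (nat_lit 4363141440))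 (.cons (.rel (nat_lit 8657077248)) .nil))) .nil)) .leaf)) (nat_lit 470510429596453) (.br (nat_lit 0) (.cons (.br (nat_lit 2) (.cons (.rel (nat_lit 71598336)) .nil)) .nil)) (.node (.node .leaf (nat_lit 470510429859093) (.br (nat_lit 1) (.cons (.br (nat_lit 2) (.cons (.rel (nat_lit 101187840)) .nil)) .nil)) .leaf) (nat_lit 470510429859343) (.br (nat_lit 2) (.cons (.br (nat_lit 6) (.cons (.rel (nat_lit 17249141760)) .nil)) .nil)) .leaf)) (nat_lit 470548765796358) (.br (nat_lit 1) (.cons (.br (nat_lit 4) (.cons (.rel (nat_lit 1090527249)) .nil)) .nil)) (.node (.node (.node .leaf (nat_lit 470548765797889) (.br (nat_lit 0) (.cons (.br (nat_lit 1) (.cons (.rel (nat_lit 37748880)) .nil)) .nil)) .leaf) (nat_lit 470548766507808) (.br (nat_lit 1) (.cons (.br (nat_lit 2) (.cons (.rel (nat_lit 167773188)) .nil)) .nil)) (.node .leaf (nat_lit 470548766508545) (.br (nat_lit 0) (.cons (.br (nat_lit 1) (.cons (.rel (nat_lit 25182228)) .nil)) .nil)) .leaf)) (nat_lit 470754206745201) (.br (nat_lit 0)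 (.cons (.br (nat_lit 1) (.cons (.rel (nat_lit 25170960)) .nil)) .nil)) (.node (.node .leaf (nat_lit 470757478559081) (.br (nat_lit 0) (.cons (.br (nat_lit 3) (.cons (.rel (nat_lit 273711120)) .nil)) .nil)) .leaf) (nat_lit 470759558932486) (.br (nat_lit 1) (.cons (.br (nat_lit 4) (.cons (.rel (nat_lit 1107558528)) .nil)) .nil)) .leaf))))

/-- refutations 7 -/
def e7 : EX := (.node (.node (.node (.node (.node .leaf (nat_lit 562953626258033) (.br (nat_lit 0) (.cons (.br (nat_lit 1) (.cons (.rel (nat_lit 20972928)) .nil)) .nil)) .leaf) (nat_lit 633318810972416) (.br (nat_lit 5) (.cons (.br (nat_lit 6) (.cons (.rel (nat_lit 25769804868)) .nil)) .nil)) .leaf) (nat_lit 633318810973685) (.br (nat_lit 1) (.cons (.br (nat_lit 2) (.cons (.rel (nat_lit 83888136)) .nil)) .nil)) (.node .leaf (nat_lit 633318811104617) (.br (nat_lit 0) (.cons (.br (nat_lit 2) (.cons (.rel (nat_lit 71598336)) .nil)) .nil)) .leaf)) (nat_lit 633318811428894) (.br (nat_lit 1) (.cons (.br (nat_lit 3) (.cons (.rel (nat_lit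 286347264)) .nil)) .nil)) (.node (.node .leaf (nat_lit 633318811428921) (.br (nat_lit 2) (.cons (.br (nat_lit 3) (.cons (.rel (nat_lit 335549508)) .nil)) .nil)) .leaf) (nat_lit 633318811429126) (.br (nat_lit 5) (.cons (.br (nat_lit 6) (.cons (.rel (nat_lit 21474839040)) .nil)) .nil)) (.node .leaf (nat_lit 633318811429616) (.br (nat_lit 5) (.cons (.br (nat_lit 2) (.cons (.rel (nat_lit 4362338376)) (.cons (.rel (nat_lit 4362080784)) (.cons (.rel (nat_lit 4362080784)) .nil)))) .nil)) .leaf))) (nat_lit 633318812179057) (.br (nat_lit 2) (.cons (.br (nat_lit 5) (.cons (.rel (nat_lit 8657077248)) .nil)) .nil)) (.node (.node (.node .leaf (nat_lit 633318813671450) (.br (nat_lit 2) (.cons (.br (nat_lit 5) (.cons (.rel (nat_lit 4362405888)) (.cons (.rel (nat_lit 4362338376)) .nil))) .nil)) .leaf) (nat_lit 633318813942441) (.br (nat_lit 1) (.cons (.br (nat_lit 3) (.cons (.rel (nat_lit 285245697)) .nil)) .nil)) (.node .leaf (nat_lit 633319356689170) (.br (nat_lit 1) (.cons (.br (nat_lit 2) (.cons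 (.rel (nat_lit 83886117)) .nil)) .nil)) .leaf)) (nat_lit 633319357438577) (.br (nat_lit 0) (.cons (.br (nat_lit 2) (.cons (.rel (nat_lit 71321664)) .nil)) .nil)) (.node (.node .leaf (nat_lit 633319477846272) (.br (nat_lit 0) (.cons (.br (nat_lit 1) (.cons (.rel (nat_lit 22021122)) .nil)) .nil)) .leaf) (nat_lit 633324599569645) (.br (nat_lit 0) (.cons (.br (nat_lit 1) (.cons (.rel (nat_lit 21037380)) .nil)) .nil)) (.node .leaf (nat_lit 646513618931723) (.br (nat_lit 2) (.cons (.br (nat_lit 4) (.cons (.rel (nat_lit 1140859392)) .nil)) .nil)) .leaf))))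

/-- refutations 8 -/
def e8 : EX := (.node (.node (.node (.node (.node .leaf (nat_lit 879609323776805) (.br (nat_lit 5) (.cons (.br (nat_lit 2) (.cons (.rel (nat_lit 4362342402)) (.cons (.rel (nat_lit 8657051652)) .nil))) .nil)) .leaf) (nat_lit 879609323776901) (.br (nat_lit 4) (.cons (.br (nat_lit 5) (.cons (.rel (nat_lit 10737418500)) .nil)) .nil)) (.node .leaf (nat_lit 879612184292229) (.br (nat_lit 0) (.cons (.br (nat_lit 3) (.cons (.rel (nat_lit 541102080)) .nil)) .nil)) .leaf)) (nat_lit 879615300660101) (.br (nat_lit 0) (.cons (.br (nat_lit 2) (.cons (.rel (nat_lit 75759681)) .nil)) .nil)) (.node (.node .leaf (nat_lit 886356117612701) (.br (nat_lit 0) (.cons (.br (nat_lit 1) (.cons (.rel (nat_lit 22020117)) .nil)) .nil)) .leaf) (nat_lit 886356117614105) (.br (nat_lit 2) (.cons (.br (nat_lit 1) (.cons (.rel (nat_lit 83888136)) (.cons (.rel (nat_lit 83888136)) .nil))) .nil)) (.node .leaf (nat_lit 886570970835001) (.br (nat_lit 0) (.cons (.br (nat_lit 2) (.cons (.rel (nat_lit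 71303301)) .nil)) .nil)) .leaf))) (nat_lit 887660839758104) (.br (nat_lit 0) (.cons (.br (nat_lit 1) (.cons (.rel (nat_lit 22040640)) .nil)) .nil)) (.node (.node (.node .leaf (nat_lit 887660839759209) (.br (nat_lit 3) (.cons (.br (nat_lit 0) (.cons (.br (nat_lit 4) (.cons (.rel (nat_lit 2416984068)) (.cons (.rel (nat_lit 1342185600)) (.cons (.rel (nat_lit 2151678210)) .nil)))) (.cons (.rel (nat_lit 272648448)) .nil))) .nil)) .leaf) (nat_lit 887660953004089) (.br (nat_lit 1) (.cons (.br (nat_lit 2) (.cons (.br (nat_lit 5) (.cons (.rel (nat_lit 4362080784)) .nil)) .nil)) .nil)) (.node .leaf (nat_lit 887660955340188) (.br (nat_lit 0) (.cons (.br (nat_lit 1) (.cons (.rel (nat_lit 21528576)) .nil)) .nil)) .leaf)) (nat_lit 891692102458229) (.br (nat_lit 1) (.cons (.br (nat_lit 2) (.cons (.rel (nat_lit 83886117)) .nil)) .nil)) (.node (.node .leaf (nat_lit 892558051099376) (.br (nat_lit 1) (.cons (.br (nat_lit 2) (.cons (.rel (nat_lit 83888136)) .nil)) .nil)) .leaf) (nat_lit 892559606476313)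 (.br (nat_lit 0) (.cons (.br (nat_lit 1) (.cons (.rel (nat_lit 37814337)) .nil)) .nil)) .leaf))) (nat_lit 892722894923902) (.br (nat_lit 0) (.cons (.br (nat_lit 3) (.cons (.rel (nat_lit 272634120)) .nil)) .nil)) (.node (.node (.node (.node .leaf (nat_lit 892722894925081) (.br (nat_lit 2) (.cons (.br (nat_lit 5) (.cons (.rel (nat_lit 4362093057)) .nil)) .nil)) .leaf) (nat_lit 892722894925212) (.br (nat_lit 2) (.cons (.br (nat_lit 3) (.cons (.rel (nat_lit 335544468)) .nil)) .nil)) (.node .leaf (nat_lit 892923936303885) (.br (nat_lit 0) (.cons (.br (nat_lit 2) (.cons (.rel (nat_lit 71311362)) .nil)) .nil)) .leaf)) (nat_lit 892926469664105) (.br (nat_lit 0) (.cons (.br (nat_lit 1) (.cons (.rel (nat_lit 25165920)) .nil)) .nil)) (.node (.node .leaf (nat_lit 892929052897412) (.br (nat_lit 1) (.cons (.br (nat_lit 2) (.cons (.rel (nat_lit 83886117)) .nil)) .nil)) .leaf) (nat_lit 892929053333539) (.br (nat_lit 1) (.cons (.br (nat_lit 2) (.cons (.rel (nat_lit 83888136)) .nil)) .nil)) .leaf))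 (nat_lit 892929053335055) (.br (nat_lit 0) (.cons (.br (nat_lit 1) (.cons (.rel (nat_lit 37753920)) .nil)) .nil)) (.node (.node (.node .leaf (nat_lit 892929053354110) (.br (nat_lit 0) (.cons (.br (nat_lit 2) (.cons (.rel (nat_lit 71303301)) .nil)) .nil)) .leaf) (nat_lit 892929053354265) (.br (nat_lit 1) (.cons (.br (nat_lit 2) (.cons (.rel (nat_lit 85262340)) .nil)) .nil)) (.node .leaf (nat_lit 892929053355285) (.br (nat_lit 1) (.cons (.br (nat_lit 2) (.cons (.rel (nat_lit 83888136)) .nil)) .nil)) .leaf)) (nat_lit 892929054104304) (.br (nat_lit 2) (.cons (.br (nat_lit 4) (.cons (.rel (nat_lit 2281705728)) .nil)) .nil)) (.node (.node .leaf (nat_lit 892929055597354) (.br (nat_lit 1) (.cons (.br (nat_lit 2) (.cons (.rel (nat_lit 83887122)) .nil)) .nil)) .leaf) (nat_lit 892929055959692) (.br (nat_lit 2) (.cons (.br (nat_lit 3) (.cons (.rel (nat_lit 335814912)) (.cons (.rel (nat_lit 335552529)) .nil))) .nil)) .leaf))))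

/-- refutations 9 -/
def e9 : EX := (.node (.node (.node (.node (.node .leaf (nat_lit 915011824382704) (.br (nat_lit 1) (.cons (.br (nat_lit 3) (.cons (.rel (nat_lit 553713666)) .nil)) .nil)) .leaf) (nat_lit 915226363009826) (.br (nat_lit 0) (.cons (.br (nat_lit 2) (.cons (.rel (nat_lit 71311362)) .nil)) .nil)) .leaf) (nat_lit 915226364199044) (.br (nat_lit 0) (.cons (.br (nat_lit 1) (.cons (.rel (nat_lit 20979984)) .nil)) .nil)) (.node (.node .leaf (nat_lit 915226364758818) (.br (nat_lit 5) (.cons (.br (nat_lit 6) (.cons (.rel (nat_lit 21477015552)) .nil)) .nil)) .leaf) (nat_lit 915226572747377) (.br (nat_lit 0) (.cons (.br (nat_lit 3) (.cons (.rel (nat_lit 542441472)) .nil)) .nil)) .leaf)) (nat_lit 915226572877082) (.br (nat_lit 1) (.cons (.br (nat_lit 2) (.cons (.rel (nat_lit 101187840)) .nil)) .nil)) (.node (.node (.node .leaf (nat_lit 915226573204233) (.br (nat_lit 5) (.cons (.br (nat_lit 0) (.cons (.rel (nat_lit 4299161610)) (.cons (.rel (nat_lit 4299248640)) .nil))) .nil))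 .leaf) (nat_lit 915226573204893) (.br (nat_lit 0) (.cons (.br (nat_lit 3) (.cons (.rel (nat_lit 273155136)) .nil)) .nil)) .leaf) (nat_lit 915226573204967) (.br (nat_lit 2) (.cons (.br (nat_lit 4) (.cons (.rel (nat_lit 2214658050)) (.cons (.rel (nat_lit 1208090625)) .nil))) .nil)) (.node .leaf (nat_lit 915226573914737) (.br (nat_lit 3) (.cons (.br (nat_lit 1) (.cons (.rel (nat_lit 285245697)) (.cons (.rel (nat_lit 285344004)) .nil))) .nil)) .leaf))) (nat_lit 915226573914889) (.br (nat_lit 5) (.cons (.br (nat_lit 6) (.cons (.rel (nat_lit 21474839040)) .nil)) .nil)) (.node (.node (.node (.node .leaf (nat_lit 915226573915549) (.br (nat_lit 2) (.cons (.br (nat_lit 3) (.cons (.rel (nat_lit 335554596)) (.cons (.rel (nat_lit 335564802)) .nil))) (.cons (.br (nat_lit 1) (.cons (.rel (nat_lit 83888136)) (.cons (.rel (nat_lit 167773188)) (.cons (.rel (nat_lit 151257600)) .nil)))) .nil))) .leaf) (nat_lit 915226574176881) (.br (nat_lit 0) (.cons (.br (nat_lit 1) (.cons (.rel (nat_lit 22093824))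 .nil)) .nil)) .leaf) (nat_lit 915226574270469) (.br (nat_lit 1) (.cons (.br (nat_lit 3) (.cons (.rel (nat_lit 285233424)) .nil)) .nil)) (.node (.node .leaf (nat_lit 915226988439833) (.br (nat_lit 3) (.cons (.br (nat_lit 2) (.cons (.rel (nat_lit 335545473)) (.cons (.rel (nat_lit 335564802)) (.cons (.rel (nat_lit 403701762)) (.cons (.rel (nat_lit 335545473)) .nil))))) .nil)) .leaf) (nat_lit 915226988440812) (.br (nat_lit 3) (.cons (.br (nat_lit 0) (.cons (.rel (nat_lit 273678468)) (.cons (.rel (nat_lit 273678468)) (.cons (.rel (nat_lit 273711120)) .nil)))) .nil)) .leaf)) (nat_lit 915226988441102) (.br (nat_lit 0) (.cons (.br (nat_lit 2) (.cons (.rel (nat_lit 71321664)) .nil)) .nil)) (.node (.node (.node .leaf (nat_lit 915226989507362) (.br (nat_lit 3) (.cons (.br (nat_lit 0) (.cons (.br (nat_lit 5) (.cons (.rel (nat_lit 4299161610)) (.cons (.rel (nat_lit 4563404832)) (.cons (.rel (nat_lit 4299161610)) .nil)))) (.cons (.rel (nat_lit 272696592)) .nil))) .nil)) .leaf) (nat_lit 915324108556339)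 (.br (nat_lit 0) (.cons (.br (nat_lit 1) (.cons (.rel (nat_lit 20992257)) .nil)) .nil)) .leaf) (nat_lit 921774049521166) (.br (nat_lit 1) (.cons (.br (nat_lit 2) (.cons (.rel (nat_lit 101187840)) .nil)) .nil)) (.node .leaf (nat_lit 928125505039861) (.br (nat_lit 2) (.cons (.br (nat_lit 6) (.cons (.rel (nat_lit 17314092096)) .nil)) .nil)) .leaf))))

/-- refutations 10 -/
def e10 : EX := (.node (.node (.node (.node (.node .leaf (nat_lit 967573483156981) (.br (nat_lit 1) (.cons (.br (nat_lit 2) (.cons (.rel (nat_lit 84017220)) .nil)) .nil)) .leaf) (nat_lit 968051525208689) (.br (nat_lit 4) (.cons (.br (nat_lit 6) (.cons (.rel (nat_lit 18253939728)) .nil)) .nil)) (.node .leaf (nat_lit 968051525217163) (.br (nat_lit 5) (.cons (.br (nat_lit 1) (.cons (.rel (nat_lit 4311785472)) (.cons (.rel (nat_lit 4311826560)) .nil))) .nil)) .leaf)) (nat_lit 968051525927844) (.br (nat_lit 2) (.cons (.br (nat_lit 5) (.cons (.rel (nat_lit 4362093057)) .nil)) .nil)) (.node (.node .leaf (nat_lit 968051527459068)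 (.br (nat_lit 3) (.cons (.br (nat_lit 5) (.cons (.rel (nat_lit 4563402777)) .nil)) .nil)) .leaf) (nat_lit 968051527459441) (.br (nat_lit 3) (.cons (.br (nat_lit 2) (.cons (.rel (nat_lit 402653568)) (.cons (.rel (nat_lit 603980352)) .nil))) .nil)) (.node .leaf (nat_lit 968051527460192) (.br (nat_lit 3) (.cons (.br (nat_lit 5) (.cons (.rel (nat_lit 4563502080)) .nil)) .nil)) .leaf))) (nat_lit 968051527460367) (.br (nat_lit 2) (.cons (.br (nat_lit 4) (.cons (.rel (nat_lit 2214592593)) .nil)) .nil)) (.node (.node (.node .leaf (nat_lit 968051527729777) (.br (nat_lit 3) (.cons (.br (nat_lit 5) (.cons (.rel (nat_lit 4563476484)) (.cons (.rel (nat_lit 4563403782)) .nil))) .nil)) .leaf) (nat_lit 968052007233587) (.br (nat_lit 4) (.cons (.br (nat_lit 5) (.cons (.rel (nat_lit 6442471425)) .nil)) .nil)) (.node .leaf (nat_lit 968052007236209) (.br (nat_lit 3) (.cons (.br (nat_lit 2) (.cons (.rel (nat_lit 335552529)) (.cons (.rel (nat_lit 335564802)) .nil))) .nil)) .leaf)) (nat_lit 968052007553649)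 (.br (nat_lit 4) (.cons (.br (nat_lit 6) (.cons (.rel (nat_lit 19327615248)) .nil)) .nil)) (.node (.node .leaf (nat_lit 968052007562753) (.br (nat_lit 3) (.cons (.br (nat_lit 5) (.cons (.rel (nat_lit 4563406992)) .nil)) .nil)) .leaf) (nat_lit 968052008272054) (.br (nat_lit 2) (.cons (.br (nat_lit 4) (.cons (.rel (nat_lit 2214596628)) .nil)) .nil)) .leaf))) (nat_lit 968052008272497) (.br (nat_lit 5) (.cons (.br (nat_lit 2) (.cons (.br (nat_lit 4) (.cons (.rel (nat_lit 6510608385)) (.cons (.rel (nat_lit 5504040960)) (.cons (.rel (nat_lit 2214596628)) (.cons (.rel (nat_lit 6442459152)) (.cons (.rel (nat_lit 1207977024)) .nil)))))) (.cons (.br (nat_lit 3) (.cons (.rel (nat_lit 8992653312)) (.cons (.rel (nat_lit 4832133120)) (.cons (.rel (nat_lit 335814912)) (.cons (.rel (nat_lit 403243074)) .nil))))) (.cons (.rel (nat_lit 8657051652)) .nil)))) (.cons (.br (nat_lit 3) (.cons (.rel (nat_lit 4563402777)) (.cons (.rel (nat_lit 4563404832)) (.cons (.rel (nat_lit 4563419265)) (.cons (.rel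 (nat_lit 4564468224)) .nil))))) .nil))) (.node (.node (.node (.node .leaf (nat_lit 968052008272653) (.br (nat_lit 0) (.cons (.br (nat_lit 2) (.cons (.rel (nat_lit 71303301)) .nil)) .nil)) .leaf) (nat_lit 968052009805152) (.br (nat_lit 2) (.cons (.br (nat_lit 5) (.cons (.rel (nat_lit 8657051652)) .nil)) .nil)) (.node .leaf (nat_lit 968052010074737) (.br (nat_lit 1) (.cons (.br (nat_lit 3) (.cons (.rel (nat_lit 285233424)) (.cons (.rel (nat_lit 570691584)) .nil))) (.cons (.br (nat_lit 3) (.cons (.rel (nat_lit 285745152)) (.cons (.rel (nat_lit 285279552)) .nil))) .nil))) .leaf)) (nat_lit 968052010075044) (.br (nat_lit 3) (.cons (.br (nat_lit 4) (.cons (.rel (nat_lit 1344274692)) .nil)) .nil)) (.node (.node .leaf (nat_lit 968054519941745) (.br (nat_lit 2) (.cons (.br (nat_lit 4) (.cons (.rel (nat_lit 1208030208)) .nil)) .nil)) .leaf) (nat_lit 975306970210929) (.br (nat_lit 2) (.cons (.br (nat_lit 5) (.cons (.rel (nat_lit 4362354720)) .nil)) .nil)) .leaf)) (nat_lit 979485211214449) (.br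 (nat_lit 2) (.cons (.br (nat_lit 5) (.cons (.rel (nat_lit 8657051652)) .nil)) .nil)) (.node (.node (.node .leaf (nat_lit 979648418790001) (.br (nat_lit 1) (.cons (.br (nat_lit 4) (.cons (.rel (nat_lit 1091829765)) .nil)) .nil)) .leaf) (nat_lit 980930831903520) (.br (nat_lit 0) (.cons (.br (nat_lit 1) (.cons (.rel (nat_lit 22040640)) .nil)) .nil)) (.node .leaf (nat_lit 1073656605985698) (.br (nat_lit 0) (.cons (.br (nat_lit 1) (.cons (.rel (nat_lit 20992257)) .nil)) .nil)) .leaf)) (nat_lit 2199024351856822) (.br (nat_lit 1) (.cons (.br (nat_lit 2) (.cons (.rel (nat_lit 83888136)) .nil)) .nil)) (.node (.node .leaf (nat_lit 2199029673421425) (.br (nat_lit 0) (.cons (.br (nat_lit 3) (.cons (.rel (nat_lit 273686529)) .nil)) .nil)) .leaf) (nat_lit 2199029675960945) (.br (nat_lit 0) (.cons (.br (nat_lit 3) (.cons (.rel (nat_lit 541065249)) .nil)) .nil)) .leaf))))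

/-- refutations 11 -/
def e11 : EX := (.node (.node (.node (.node (.node .leaf (nat_lit 2240954132654137) (.br (nat_lit 0) (.cons (.br (nat_lit 2) (.cons (.rel (nat_lit 142610433)) .nil)) .nil)) .leaf) (nat_lit 2247362009950238) (.br (nat_lit 1) (.cons (.br (nat_lit 5) (.cons (.rel (nat_lit 4311753873)) .nil)) .nil)) .leaf) (nat_lit 2287417499434510) (.br (nat_lit 3) (.cons (.br (nat_lit 5) (.cons (.rel (nat_lit 4563403782)) .nil)) .nil)) (.node .leaf (nat_lit 2287417499577725) (.br (nat_lit 1) (.cons (.br (nat_lit 3) (.cons (.rel (nat_lit 285245697)) .nil)) .nil)) .leaf)) (nat_lit 2287417499904005) (.br (nat_lit 3) (.cons (.br (nat_lit 4) (.cons (.rel (nat_lit 1342185600)) (.cons (.rel (nat_lit 1342195713)) .nil))) .nil)) (.node (.node (.node .leaf (nat_lit 2287417500972413) (.br (nat_lit 0) (.cons (.br (nat_lit 6) (.cons (.rel (nat_lit 17184063573)) .nil)) .nil)) .leaf) (nat_lit 2287419685848477) (.br (nat_lit 0) (.cons (.br (nat_lit 3) (.cons (.rel (nat_lit 273711120)) .nil))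 .nil)) .leaf) (nat_lit 2287419686161665) (.br (nat_lit 2) (.cons (.br (nat_lit 3) (.cons (.rel (nat_lit 335545473)) .nil)) .nil)) (.node .leaf (nat_lit 2287419687117602) (.br (nat_lit 2) (.cons (.br (nat_lit 4) (.cons (.rel (nat_lit 2281705728)) .nil)) .nil)) .leaf))) (nat_lit 2288147644018045) (.br (nat_lit 0) (.cons (.br (nat_lit 3) (.cons (.rel (nat_lit 272898561)) .nil)) .nil)) (.node (.node (.node (.node .leaf (nat_lit 2288147644344601) (.br (nat_lit 3) (.cons (.br (nat_lit 4) (.cons (.rel (nat_lit 1342178400)) (.cons (.rel (nat_lit 1342185600)) .nil))) .nil)) .leaf) (nat_lit 2288147644345580) (.br (nat_lit 3) (.cons (.br (nat_lit 6) (.cons (.rel (nat_lit 17448309780)) .nil)) .nil)) .leaf) (nat_lit 2288147646588285) (.br (nat_lit 2) (.cons (.br (nat_lit 6) (.cons (.rel (nat_lit 17314087056)) .nil)) .nil)) (.node .leaf (nat_lit 2294933694915965) (.br (nat_lit 3) (.cons (.br (nat_lit 4) (.cons (.rel (nat_lit 1342183440)) (.cons (.rel (nat_lit 1342185600)) .nil))) (.cons (.br (nat_lit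 4) (.cons (.rel (nat_lit 1342178400)) (.cons (.rel (nat_lit 1342177350)) .nil))) .nil))) .leaf)) (nat_lit 2294933695212780) (.br (nat_lit 1) (.cons (.br (nat_lit 3) (.cons (.rel (nat_lit 285245697)) .nil)) .nil)) (.node (.node (.node .leaf (nat_lit 2297765338589221) (.br (nat_lit 0) (.cons (.br (nat_lit 1) (.cons (.rel (nat_lit 20972928)) .nil)) .nil)) .leaf) (nat_lit 2299920881551365) (.br (nat_lit 3) (.cons (.br (nat_lit 4) (.cons (.rel (nat_lit 1342185600)) .nil)) .nil)) .leaf) (nat_lit 2299920882051077) (.br (nat_lit 3) (.cons (.br (nat_lit 4) (.cons (.rel (nat_lit 1342177350)) .nil)) .nil)) (.node .leaf (nat_lit 2299924030500869) (.br (nat_lit 0) (.cons (.br (nat_lit 3) (.cons (.rel (nat_lit 541196352)) .nil)) .nil)) .leaf))))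

/-- refutations 12 -/
def e12 : EX := (.node (.node (.node (.node .leaf (nat_lit 3113817687460025) (.br (nat_lit 1) (.cons (.br (nat_lit 2) (.cons (.rel (nat_lit 83906640)) .nil)) .nil)) .leaf) (nat_lit 3113820232121072) (.br (nat_lit 1) (.cons (.br (nat_lit 2) (.cons (.rel (nat_lit 83888136)) .nil)) .nil)) (.node .leaf (nat_lit 3113820752167537) (.br (nat_lit 1) (.cons (.br (nat_lit 2) (.cons (.rel (nat_lit 83918913)) .nil)) .nil)) .leaf)) (nat_lit 3116436990257189) (.br (nat_lit 2) (.cons (.br (nat_lit 3) (.cons (.rel (nat_lit 335609925)) .nil)) .nil)) (.node (.node .leaf (nat_lit 3116436991229989) (.br (nat_lit 3) (.cons (.br (nat_lit 0) (.cons (.rel (nat_lit 273686529)) (.cons (.rel (nat_lit 273155136)) .nil))) .nil)) .leaf) (nat_lit 3116436991230134) (.br (nat_lit 1) (.cons (.br (nat_lit 0) (.cons (.rel (nat_lit 22093824)) (.cons (.rel (nat_lit 42221568)) .nil))) .nil)) (.node .leaf (nat_lit 3121868469439089) (.br (nat_lit 0) (.cons (.br (nat_lit 2) (.cons (.rel (nat_lit 71311362))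 .nil)) .nil)) .leaf))) (nat_lit 3126753476491889) (.br (nat_lit 2) (.cons (.br (nat_lit 3) (.cons (.rel (nat_lit 335564802)) .nil)) .nil)) (.node (.node (.node .leaf (nat_lit 3126756773521413) (.br (nat_lit 6) (.cons (.br (nat_lit 1) (.cons (.rel (nat_lit 34393296897)) (.cons (.rel (nat_lit 34393296897)) .nil))) .nil)) .leaf) (nat_lit 3126756773522845) (.br (nat_lit 0) (.cons (.br (nat_lit 3) (.cons (.rel (nat_lit 542441472)) (.cons (.rel (nat_lit 272630085)) .nil))) .nil)) (.node .leaf (nat_lit 3126756774232689) (.br (nat_lit 2) (.cons (.br (nat_lit 0) (.cons (.rel (nat_lit 71307336)) (.cons (.rel (nat_lit 71307336)) .nil))) .nil)) .leaf)) (nat_lit 3126756774233501) (.br (nat_lit 0) (.cons (.br (nat_lit 2) (.cons (.br (nat_lit 3) (.cons (.rel (nat_lit 403701762)) .nil)) .nil)) .nil)) (.node (.node .leaf (nat_lit 3126756774589041) (.br (nat_lit 0) (.cons (.br (nat_lit 2) (.cons (.rel (nat_lit 71374848)) .nil)) .nil)) .leaf) (nat_lit 3126963351383277) (.br (nat_lit 0) (.cons (.br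 (nat_lit 1) (.cons (.rel (nat_lit 22093824)) .nil)) .nil)) (.node .leaf (nat_lit 3127134601370352) (.br (nat_lit 2) (.cons (.br (nat_lit 3) (.cons (.rel (nat_lit 335560776)) .nil)) .nil)) .leaf))))

/-- refutations 13 -/
def e13 : EX := (.node (.node (.node (.node (.node .leaf (nat_lit 3166599385313462) (.br (nat_lit 1) (.cons (.br (nat_lit 6) (.cons (.rel (nat_lit 17196679185)) .nil)) .nil)) .leaf) (nat_lit 3166599385771244) (.br (nat_lit 5) (.cons (.br (nat_lit 6) (.cons (.rel (nat_lit 21475115136)) .nil)) .nil)) (.node .leaf (nat_lit 3166599385771495) (.br (nat_lit 0) (.cons (.br (nat_lit 1) (.cons (.rel (nat_lit 25165920)) .nil)) .nil)) .leaf)) (nat_lit 3166599385771534) (.br (nat_lit 0) (.cons (.br (nat_lit 3) (.cons (.rel (nat_lit 276848640)) .nil)) .nil)) (.node (.node .leaf (nat_lit 3166599386481265) (.br (nat_lit 2) (.cons (.br (nat_lit 3) (.cons (.rel (nat_lit 335613960)) .nil)) .nil)) .leaf) (nat_lit 3166599388012726) (.br (nat_lit 0) (.cons (.br (nat_lit 2) (.cons (.rel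 (nat_lit 75763716)) .nil)) .nil)) .leaf)) (nat_lit 3166599506948976) (.br (nat_lit 0) (.cons (.br (nat_lit 3) (.cons (.rel (nat_lit 541065249)) .nil)) .nil)) (.node (.node (.node .leaf (nat_lit 3167758925800049) (.br (nat_lit 1) (.cons (.br (nat_lit 2) (.cons (.rel (nat_lit 101187840)) .nil)) .nil)) .leaf) (nat_lit 3167758925961841) (.br (nat_lit 1) (.cons (.br (nat_lit 2) (.cons (.rel (nat_lit 83886117)) .nil)) .nil)) (.node .leaf (nat_lit 3169214157537532) (.br (nat_lit 1) (.cons (.br (nat_lit 6) (.cons (.rel (nat_lit 17196679185)) .nil)) .nil)) .leaf)) (nat_lit 3169214157834277) (.br (nat_lit 3) (.cons (.br (nat_lit 4) (.cons (.rel (nat_lit 1342185600)) .nil)) .nil)) (.node (.node .leaf (nat_lit 3169214157834422) (.br (nat_lit 4) (.cons (.br (nat_lit 6) (.cons (.rel (nat_lit 35433480210)) .nil)) .nil)) .leaf) (nat_lit 3169214157834492) (.br (nat_lit 1) (.cons (.br (nat_lit 3) (.cons (.rel (nat_lit 285279552)) .nil)) .nil)) .leaf))) (nat_lit 3173136224854641) (.br (nat_lit 1) (.cons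 (.br (nat_lit 5) (.cons (.rel (nat_lit 4311750660)) (.cons (.rel (nat_lit 4311785472)) .nil))) .nil)) (.node (.node (.node (.node .leaf (nat_lit 3173136225016433) (.br (nat_lit 5) (.cons (.br (nat_lit 2) (.cons (.rel (nat_lit 4429185093)) (.cons (.rel (nat_lit 8657047617)) .nil))) .nil)) .leaf) (nat_lit 3173299534753255) (.br (nat_lit 0) (.cons (.br (nat_lit 1) (.cons (.rel (nat_lit 37748880)) .nil)) .nil)) (.node .leaf (nat_lit 3173488634948464) (.br (nat_lit 2) (.cons (.br (nat_lit 3) (.cons (.rel (nat_lit 335549508)) .nil)) .nil)) .leaf)) (nat_lit 3174327679820401) (.br (nat_lit 1) (.cons (.br (nat_lit 2) (.cons (.rel (nat_lit 101187840)) .nil)) .nil)) (.node (.node .leaf (nat_lit 3174327680297585) (.br (nat_lit 3) (.cons (.br (nat_lit 6) (.cons (.rel (nat_lit 17448337536)) .nil)) .nil)) .leaf) (nat_lit 3174327682278901) (.br (nat_lit 2) (.cons (.br (nat_lit 3) (.cons (.rel (nat_lit 335814912)) .nil)) .nil)) .leaf)) (nat_lit 3174330225762929) (.br (nat_lit 5) (.cons (.br (nat_lit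 2) (.cons (.rel (nat_lit 4362405888)) (.cons (.rel (nat_lit 4429189128)) .nil))) .nil)) (.node (.node (.node .leaf (nat_lit 3178834883569846) (.br (nat_lit 1) (.cons (.br (nat_lit 5) (.cons (.rel (nat_lit 4311746625)) .nil)) .nil)) .leaf) (nat_lit 3179744808462373) (.br (nat_lit 3) (.cons (.br (nat_lit 4) (.cons (.rel (nat_lit 2684358720)) .nil)) .nil)) .leaf) (nat_lit 3179744809173029) (.br (nat_lit 1) (.cons (.br (nat_lit 3) (.cons (.rel (nat_lit 286294080)) .nil)) .nil)) (.node (.node .leaf (nat_lit 3179745417347254) (.br (nat_lit 1) (.cons (.br (nat_lit 5) (.cons (.rel (nat_lit 4311760914)) .nil)) .nil)) .leaf) (nat_lit 3179750575173814) (.br (nat_lit 0) (.cons (.br (nat_lit 1) (.cons (.rel (nat_lit 22093824)) .nil)) .nil)) .leaf))))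

/-- refutations 14 -/
def e14 : EX := (.node (.node (.node (.node (.node (.node (.node .leaf (nat_lit 4398047249355377) (.br (nat_lit 3) (.cons (.br (nat_lit 2) (.cons (.rel (nat_lit 402653568)) (.cons (.rel (nat_lit 335577120)) (.cons (.rel (nat_lit 335549508)) .nil)))) .nil)) .leaf) (nat_lit 4398047249355653) (.br (nat_lit 3) (.cons (.br (nat_lit 5) (.cons (.rel (nat_lit 8858374401)) .nil)) .nil)) (.node .leaf (nat_lit 4398047249404541) (.br (nat_lit 0) (.cons (.br (nat_lit 2) (.cons (.rel (nat_lit 75563520)) (.cons (.rel (nat_lit 142610433)) .nil))) (.cons (.br (nat_lit 2) (.cons (.rel (nat_lit 142610433)) (.cons (.rel (nat_lit 71321664)) .nil))) .nil))) .leaf)) (nat_lit 4398047249404665) (.br (nat_lit 4) (.cons (.br (nat_lit 5) (.cons (.rel (nat_lit 10737418500)) (.cons (.rel (nat_lit 5369762049)) .nil))) .nil)) (.node (.node .leaf (nat_lit 4398047249414195) (.br (nat_lit 2) (.cons (.br (nat_lit 5) (.cons (.rel (nat_lit 4429185093)) .nil)) .nil)) .leaf) (nat_lit 4398047249414396)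 (.br (nat_lit 4) (.cons (.br (nat_lit 3) (.cons (.br (nat_lit 0) (.cons (.rel (nat_lit 276824082)) (.cons (.rel (nat_lit 1077936228)) (.cons (.br (nat_lit 6) (.cons (.rel (nat_lit 35433480210)) (.cons (.rel (nat_lit 17448304740)) (.cons (.rel (nat_lit 19327354884)) (.cons (.rel (nat_lit 17188782336)) (.cons (.rel (nat_lit 17448568128)) (.cons (.br (nat_lit 1) (.cons (.rel (nat_lit 34393296897)) (.cons (.rel (nat_lit 17196654594)) (.cons (.rel (nat_lit 553910592)) (.cons (.rel (nat_lit 1090520193)) (.cons (.rel (nat_lit 553713666)) (.cons (.rel (nat_lit 1090539522)) .nil))))))) .nil))))))) (.cons (.rel (nat_lit 1619005464)) (.cons (.rel (nat_lit 1077969024)) .nil)))))) (.cons (.br (nat_lit 0) (.cons (.rel (nat_lit 273678468)) (.cons (.rel (nat_lit 1077936228)) (.cons (.rel (nat_lit 272634120)) (.cons (.rel (nat_lit 541065249)) (.cons (.rel (nat_lit 1077969024)) .nil)))))) (.cons (.rel (nat_lit 1342183440)) (.cons (.rel (nat_lit 1342177350)) .nil))))) (.cons (.br (nat_lit 6) (.cons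 (.rel (nat_lit 18253877256)) (.cons (.rel (nat_lit 35433481224)) (.cons (.rel (nat_lit 18253612608)) (.cons (.rel (nat_lit 18253877256)) (.cons (.rel (nat_lit 18253612608)) (.cons (.rel (nat_lit 18253873221)) .nil))))))) .nil))) (.node .leaf (nat_lit 4398047249414946) (.br (nat_lit 4) (.cons (.br (nat_lit 5) (.cons (.rel (nat_lit 5369762049)) .nil)) .nil)) .leaf))) (nat_lit 4398047249415045) (.br (nat_lit 6) (.cons (.br (nat_lit 5) (.cons (.rel (nat_lit 25770070272)) (.cons (.rel (nat_lit 42949674240)) .nil))) .nil)) (.node (.node (.node .leaf (nat_lit 4398047249415694) (.br (nat_lit 3) (.cons (.br (nat_lit 4) (.cons (.rel (nat_lit 1342178400)) (.cons (.rel (nat_lit 1342183440)) .nil))) .nil)) .leaf) (nat_lit 4398047249428736) (.br (nat_lit 0) (.cons (.br (nat_lit 2) (.cons (.rel (nat_lit 71311362)) (.cons (.rel (nat_lit 142610433)) (.cons (.br (nat_lit 6) (.cons (.rel (nat_lit 17184227328)) (.cons (.rel (nat_lit 17247241344)) (.cons (.rel (nat_lit 34426852368)) .nil)))) .nil))))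 (.cons (.br (nat_lit 2) (.cons (.rel (nat_lit 71307336)) (.cons (.rel (nat_lit 71321664)) (.cons (.rel (nat_lit 71311362)) .nil)))) .nil))) (.node .leaf (nat_lit 4398047249429232) (.br (nat_lit 6) (.cons (.br (nat_lit 1) (.cons (.rel (nat_lit 34393296897)) (.cons (.rel (nat_lit 17196666912)) .nil))) .nil)) .leaf)) (nat_lit 4398047249429867) (.br (nat_lit 0) (.cons (.br (nat_lit 6) (.cons (.rel (nat_lit 17184227328)) .nil)) .nil)) (.node (.node .leaf (nat_lit 4398047249430041) (.br (nat_lit 1) (.cons (.br (nat_lit 3) (.cons (.rel (nat_lit 285745152)) .nil)) .nil)) .leaf) (nat_lit 4398047249623066) (.br (nat_lit 2) (.cons (.br (nat_lit 5) (.cons (.rel (nat_lit 8657051652)) .nil)) .nil)) (.node .leaf (nat_lit 4398047249623665) (.br (nat_lit 4) (.cons (.br (nat_lit 6) (.cons (.rel (nat_lit 18253891584)) (.cons (.rel (nat_lit 18253877256)) .nil))) (.cons (.br (nat_lit 6) (.cons (.rel (nat_lit 19327354884)) (.cons (.rel (nat_lit 18253877256)) .nil))) .nil))) .leaf)))) (nat_lit 4398047249623941)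 (.br (nat_lit 2) (.cons (.br (nat_lit 6) (.cons (.rel (nat_lit 17247260673)) .nil)) .nil)) (.node (.node (.node (.node .leaf (nat_lit 4398047249877018) (.br (nat_lit 3) (.cons (.br (nat_lit 6) (.cons (.rel (nat_lit 34896678912)) .nil)) .nil)) .leaf) (nat_lit 4398047249877029) (.br (nat_lit 3) (.cons (.br (nat_lit 1) (.cons (.rel (nat_lit 286262289)) (.cons (.rel (nat_lit 553910592)) (.cons (.rel (nat_lit 553653249)) .nil)))) .nil)) (.node .leaf (nat_lit 4398047249877617) (.br (nat_lit 4) (.cons (.br (nat_lit 2) (.cons (.rel (nat_lit 1141179456)) (.cons (.rel (nat_lit 1207977024)) (.cons (.rel (nat_lit 1141121058)) .nil)))) .nil)) .leaf)) (nat_lit 4398047249877773) (.br (nat_lit 2) (.cons (.br (nat_lit 4) (.cons (.rel (nat_lit 1140859392)) (.cons (.rel (nat_lit 2214596628)) .nil))) .nil)) (.node (.node .leaf (nat_lit 4398047249885190) (.br (nat_lit 1) (.cons (.br (nat_lit 6) (.cons (.rel (nat_lit 17196654594)) .nil)) .nil)) .leaf) (nat_lit 4398047249885214) (.br (nat_lit 6) (.cons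 (.br (nat_lit 2) (.cons (.rel (nat_lit 17247241344)) (.cons (.rel (nat_lit 17314152513)) (.cons (.rel (nat_lit 34493972736)) (.cons (.rel (nat_lit 34426852368)) .nil))))) (.cons (.br (nat_lit 1) (.cons (.rel (nat_lit 17196646533)) (.cons (.rel (nat_lit 17196718080)) (.cons (.rel (nat_lit 17196654594)) (.cons (.rel (nat_lit 17196718080)) .nil))))) (.cons (.br (nat_lit 1) (.cons (.rel (nat_lit 17196650568)) (.cons (.rel (nat_lit 17196646533)) (.cons (.rel (nat_lit 34393296897)) (.cons (.rel (nat_lit 17196778497)) .nil))))) .nil)))) (.node .leaf (nat_lit 4398047249885221) (.br (nat_lit 1) (.cons (.br (nat_lit 3) (.cons (.br (nat_lit 2) (.cons (.rel (nat_lit 83888136)) (.cons (.rel (nat_lit 335549508)) (.cons (.rel (nat_lit 83888136)) (.cons (.rel (nat_lit 83888136)) (.cons (.rel (nat_lit 101187840)) (.cons (.rel (nat_lit 101187840)) (.cons (.rel (nat_lit 336594432)) .nil)))))))) .nil)) .nil)) .leaf))) (nat_lit 4398047249885809) (.br (nat_lit 1) (.cons (.br (nat_lit 4) (.cons (.rel (nat_lit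 1090519188)) (.cons (.rel (nat_lit 1090527249)) (.cons (.rel (nat_lit 1090539522)) .nil)))) (.cons (.br (nat_lit 6) (.cons (.rel (nat_lit 17197695492)) (.cons (.rel (nat_lit 17196654594)) (.cons (.rel (nat_lit 34393296897)) .nil)))) (.cons (.br (nat_lit 4) (.cons (.rel (nat_lit 1090527249)) (.cons (.rel (nat_lit 1090551840)) (.cons (.rel (nat_lit 1090519188)) .nil)))) .nil)))) (.node (.node (.node .leaf (nat_lit 4398047249885821) (.br (nat_lit 1) (.cons (.br (nat_lit 6) (.cons (.rel (nat_lit 34393296897)) (.cons (.rel (nat_lit 17196654594)) (.cons (.rel (nat_lit 34376515905)) (.cons (.br (nat_lit 4) (.cons (.rel (nat_lit 1091569152)) (.cons (.rel (nat_lit 18253612608)) (.cons (.rel (nat_lit 19327354884)) .nil)))) (.cons (.rel (nat_lit 17196654594)) .nil)))))) .nil)) .leaf) (nat_lit 4398047249885961) (.br (nat_lit 6) (.cons (.br (nat_lit 1) (.cons (.rel (nat_lit 17196650568)) (.cons (.rel (nat_lit 17196654594)) (.cons (.rel (nat_lit 17196646533)) (.cons (.rel (nat_lit 17196650568))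 .nil))))) (.cons (.br (nat_lit 1) (.cons (.rel (nat_lit 17196650568)) (.cons (.rel (nat_lit 17196778497)) (.cons (.rel (nat_lit 17196679185)) (.cons (.rel (nat_lit 17196650568)) .nil))))) (.cons (.br (nat_lit 1) (.cons (.rel (nat_lit 17196646533)) (.cons (.rel (nat_lit 34393296897)) (.cons (.rel (nat_lit 17196646533)) (.cons (.rel (nat_lit 34376519940)) .nil))))) .nil)))) (.node .leaf (nat_lit 4398047249886085) (.br (nat_lit 1) (.cons (.br (nat_lit 6) (.cons (.br (nat_lit 3) (.cons (.rel (nat_lit 17448310785)) (.cons (.rel (nat_lit 570691584)) (.cons (.rel (nat_lit 17448304740)) (.cons (.rel (nat_lit 553713666)) (.cons (.rel (nat_lit 17448305745)) (.cons (.rel (nat_lit 17716740624)) (.cons (.rel (nat_lit 17750295552)) .nil)))))))) (.cons (.rel (nat_lit 17196654594)) (.cons (.br (nat_lit 5) (.cons (.rel (nat_lit 8623509504)) (.cons (.rel (nat_lit 25769807889)) (.cons (.rel (nat_lit 42949674240)) (.cons (.rel (nat_lit 42949674240)) (.cons (.rel (nat_lit 42949674240)) (.cons (.rel (nat_lit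 42949674240)) (.cons (.rel (nat_lit 8623509504)) (.cons (.rel (nat_lit 38654726160)) (.cons (.rel (nat_lit 25769804868)) .nil)))))))))) (.cons (.rel (nat_lit 34393296897)) .nil))))) (.cons (.br (nat_lit 0) (.cons (.rel (nat_lit 25170960)) (.cons (.rel (nat_lit 20979984)) (.cons (.rel (nat_lit 22021122)) (.cons (.rel (nat_lit 20979984)) .nil))))) .nil))) .leaf)) (nat_lit 4398047249886444) (.br (nat_lit 1) (.cons (.br (nat_lit 3) (.cons (.rel (nat_lit 286261284)) .nil)) .nil)) (.node (.node .leaf (nat_lit 4398047249886565) (.br (nat_lit 0) (.cons (.br (nat_lit 2) (.cons (.rel (nat_lit 72352260)) .nil)) .nil)) .leaf) (nat_lit 4398047250595891) (.br (nat_lit 3) (.cons (.br (nat_lit 5) (.cons (.rel (nat_lit 4563419265)) .nil)) .nil)) .leaf)))) (nat_lit 4398047250596022) (.br (nat_lit 3) (.cons (.br (nat_lit 6) (.cons (.rel (nat_lit 17448304740)) (.cons (.rel (nat_lit 17448310785)) .nil))) .nil)) (.node (.node (.node (.node (.node .leaf (nat_lit 4398047250596092) (.br (nat_lit 3) (.cons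 (.br (nat_lit 6) (.cons (.rel (nat_lit 17448304740)) (.cons (.rel (nat_lit 17448304740)) (.cons (.rel (nat_lit 17448304740)) (.cons (.rel (nat_lit 17448304740)) .nil))))) (.cons (.br (nat_lit 4) (.cons (.rel (nat_lit 1342185600)) (.cons (.rel (nat_lit 2684358720)) (.cons (.rel (nat_lit 1342183440)) (.cons (.br (nat_lit 1) (.cons (.rel (nat_lit 1090527249)) (.cons (.rel (nat_lit 570691584)) (.cons (.rel (nat_lit 553653249)) (.cons (.rel (nat_lit 285745152)) (.cons (.rel (nat_lit 553652244)) (.cons (.rel (nat_lit 285745152)) .nil))))))) (.cons (.rel (nat_lit 1342183440)) .nil)))))) (.cons (.br (nat_lit 6) (.cons (.rel (nat_lit 17448371202)) (.cons (.rel (nat_lit 17448310785)) (.cons (.rel (nat_lit 17448371202)) (.cons (.rel (nat_lit 17448371202)) .nil))))) (.cons (.br (nat_lit 5) (.cons (.rel (nat_lit 4563419265)) (.cons (.rel (nat_lit 4563404832)) (.cons (.rel (nat_lit 4563404832)) (.cons (.rel (nat_lit 4563402777)) (.cons (.rel (nat_lit 4563404832)) .nil)))))) .nil))))) .leaf) (nat_lit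 4398047250596465) (.br (nat_lit 1) (.cons (.br (nat_lit 6) (.cons (.rel (nat_lit 17214472449)) (.cons (.rel (nat_lit 34393296897)) (.cons (.rel (nat_lit 17196778497)) (.cons (.rel (nat_lit 17196718080)) .nil))))) (.cons (.br (nat_lit 6) (.cons (.rel (nat_lit 17196646533)) (.cons (.rel (nat_lit 17196718080)) (.cons (.rel (nat_lit 17196654594)) (.cons (.rel (nat_lit 17196718080)) .nil))))) (.cons (.br (nat_lit 6) (.cons (.rel (nat_lit 17196650568)) (.cons (.rel (nat_lit 17196650568)) (.cons (.rel (nat_lit 17196646533)) (.cons (.rel (nat_lit 34393296897)) .nil))))) .nil)))) (.node .leaf (nat_lit 4398047250596521) (.br (nat_lit 2) (.cons (.br (nat_lit 1) (.cons (.rel (nat_lit 169086978)) (.cons (.rel (nat_lit 152048640)) .nil))) .nil)) .leaf)) (nat_lit 4398047250596617) (.br (nat_lit 6) (.cons (.br (nat_lit 5) (.cons (.rel (nat_lit 21474839040)) (.cons (.rel (nat_lit 21477015552)) .nil))) .nil)) (.node (.node .leaf (nat_lit 4398047250596642) (.br (nat_lit 6) (.cons (.br (nat_lit 5) (.cons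 (.rel (nat_lit 21476413440)) (.cons (.rel (nat_lit 38654738433)) .nil))) .nil)) .leaf) (nat_lit 4398047250596741) (.br (nat_lit 1) (.cons (.br (nat_lit 4) (.cons (.br (nat_lit 5) (.cons (.rel (nat_lit 9663680544)) (.cons (.rel (nat_lit 8623509504)) (.cons (.rel (nat_lit 4311750660)) .nil)))) (.cons (.rel (nat_lit 1090527249)) (.cons (.rel (nat_lit 1090539522)) .nil)))) (.cons (.br (nat_lit 6) (.cons (.rel (nat_lit 17196778497)) (.cons (.rel (nat_lit 17196718080)) (.cons (.rel (nat_lit 17196654594)) .nil)))) (.cons (.br (nat_lit 5) (.cons (.rel (nat_lit 4312011024)) (.cons (.rel (nat_lit 8606781696)) (.cons (.rel (nat_lit 8606781696)) .nil)))) .nil)))) (.node .leaf (nat_lit 4398047250597390) (.br (nat_lit 3) (.cons (.br (nat_lit 5) (.cons (.rel (nat_lit 9126806544)) (.cons (.rel (nat_lit 4563404832)) (.cons (.rel (nat_lit 4832133120)) .nil)))) (.cons (.br (nat_lit 4) (.cons (.rel (nat_lit 1342185600)) (.cons (.rel (nat_lit 2684358720)) (.cons (.rel (nat_lit 1342181385)) (.cons (.rel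 (nat_lit 1342185600)) .nil))))) .nil))) .leaf))) (nat_lit 4398047250597401) (.br (nat_lit 3) (.cons (.br (nat_lit 1) (.cons (.rel (nat_lit 553713666)) (.cons (.rel (nat_lit 553653249)) (.cons (.rel (nat_lit 285745152)) .nil)))) (.cons (.br (nat_lit 1) (.cons (.rel (nat_lit 285279552)) (.cons (.rel (nat_lit 286261284)) (.cons (.rel (nat_lit 285233424)) .nil)))) .nil))) (.node (.node (.node .leaf (nat_lit 4398047250698266) (.br (nat_lit 0) (.cons (.br (nat_lit 5) (.cons (.rel (nat_lit 4299161610)) .nil)) .nil)) .leaf) (nat_lit 4398047250698865) (.br (nat_lit 4) (.cons (.br (nat_lit 6) (.cons (.rel (nat_lit 35433488472)) (.cons (.rel (nat_lit 18253877256)) (.cons (.rel (nat_lit 18254680320)) (.cons (.rel (nat_lit 18253873221)) (.cons (.rel (nat_lit 18253877256)) .nil)))))) (.cons (.br (nat_lit 3) (.cons (.rel (nat_lit 1342181385)) (.cons (.rel (nat_lit 1342181385)) (.cons (.rel (nat_lit 1342181385)) (.cons (.rel (nat_lit 1342185600)) .nil))))) (.cons (.br (nat_lit 0) (.cons (.rel (nat_lit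 1077942273)) (.cons (.rel (nat_lit 1077937233)) (.cons (.rel (nat_lit 1077969024)) (.cons (.rel (nat_lit 2155941888)) .nil))))) .nil)))) (.node .leaf (nat_lit 4398047250698992) (.br (nat_lit 5) (.cons (.br (nat_lit 3) (.cons (.rel (nat_lit 4563402777)) (.cons (.rel (nat_lit 8858374401)) (.cons (.rel (nat_lit 4563419265)) (.cons (.rel (nat_lit 4563419265)) .nil))))) (.cons (.br (nat_lit 2) (.cons (.rel (nat_lit 4362342402)) (.cons (.rel (nat_lit 8657051652)) (.cons (.br (nat_lit 4) (.cons (.rel (nat_lit 1209270288)) (.cons (.rel (nat_lit 5370298368)) (.cons (.rel (nat_lit 9663692817)) .nil)))) .nil)))) .nil))) .leaf)) (nat_lit 4398047250699042) (.br (nat_lit 2) (.cons (.br (nat_lit 3) (.cons (.rel (nat_lit 606076929)) (.cons (.rel (nat_lit 335545473)) .nil))) (.cons (.br (nat_lit 5) (.cons (.rel (nat_lit 4362338376)) (.cons (.rel (nat_lit 8657051652)) .nil))) .nil))) (.node (.node .leaf (nat_lit 4398047250699627) (.br (nat_lit 3) (.cons (.br (nat_lit 2) (.cons (.rel (nat_lit 336594432))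 (.cons (.rel (nat_lit 336855045)) .nil))) .nil)) .leaf) (nat_lit 4398047250860713) (.br (nat_lit 0) (.cons (.br (nat_lit 2) (.cons (.rel (nat_lit 71323680)) .nil)) .nil)) .leaf))) (nat_lit 4398047250892837) (.br (nat_lit 1) (.cons (.br (nat_lit 3) (.cons (.rel (nat_lit 553653249)) (.cons (.rel (nat_lit 285745152)) .nil))) (.cons (.br (nat_lit 3) (.cons (.rel (nat_lit 553652244)) (.cons (.rel (nat_lit 285745152)) .nil))) .nil))) (.node (.node (.node (.node .leaf (nat_lit 4398047250892950) (.br (nat_lit 3) (.cons (.br (nat_lit 6) (.cons (.rel (nat_lit 17448568128)) .nil)) .nil)) .leaf) (nat_lit 4398047250893052) (.br (nat_lit 1) (.cons (.br (nat_lit 3) (.cons (.rel (nat_lit 285245697)) (.cons (.rel (nat_lit 285245697)) .nil))) (.cons (.br (nat_lit 3) (.cons (.rel (nat_lit 553653249)) (.cons (.rel (nat_lit 285745152)) .nil))) .nil))) (.node .leaf (nat_lit 4398047250893425) (.br (nat_lit 3) (.cons (.br (nat_lit 1) (.cons (.rel (nat_lit 570691584)) (.cons (.rel (nat_lit 570691584)) .nil)))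 .nil)) .leaf)) (nat_lit 4398047250894077) (.br (nat_lit 3) (.cons (.br (nat_lit 4) (.cons (.rel (nat_lit 2415919377)) .nil)) .nil)) (.node (.node .leaf (nat_lit 4398047250952243) (.br (nat_lit 1) (.cons (.br (nat_lit 2) (.cons (.rel (nat_lit 83888136)) .nil)) .nil)) .leaf) (nat_lit 4398047250952944) (.br (nat_lit 2) (.cons (.br (nat_lit 3) (.cons (.rel (nat_lit 335545473)) (.cons (.rel (nat_lit 335814912)) .nil))) .nil)) (.node .leaf (nat_lit 4398047251096854) (.br (nat_lit 0) (.cons (.br (nat_lit 2) (.cons (.rel (nat_lit 71307336)) .nil)) .nil)) .leaf))) (nat_lit 4398047251155196) (.br (nat_lit 4) (.cons (.br (nat_lit 2) (.cons (.rel (nat_lit 1141118037)) (.cons (.rel (nat_lit 2281705728)) (.cons (.rel (nat_lit 1141133328)) (.cons (.rel (nat_lit 2214596628)) .nil))))) (.cons (.br (nat_lit 6) (.cons (.rel (nat_lit 35433481224)) (.cons (.rel (nat_lit 18254680320)) (.cons (.rel (nat_lit 35433480210)) .nil)))) .nil))) (.node (.node (.node .leaf (nat_lit 4398047251155200) (.br (nat_lit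 3) (.cons (.br (nat_lit 0) (.cons (.rel (nat_lit 542441472)) (.cons (.rel (nat_lit 272630085)) .nil))) .nil)) .leaf) (nat_lit 4398047251155569) (.br (nat_lit 6) (.cons (.br (nat_lit 3) (.cons (.rel (nat_lit 17716740624)) (.cons (.rel (nat_lit 17448309780)) (.cons (.rel (nat_lit 34628174112)) .nil)))) (.cons (.br (nat_lit 3) (.cons (.rel (nat_lit 17448305745)) (.cons (.rel (nat_lit 17448309780)) (.cons (.rel (nat_lit 17448310785)) .nil)))) .nil))) (.node .leaf (nat_lit 4398047251155746) (.br (nat_lit 1) (.cons (.br (nat_lit 6) (.cons (.rel (nat_lit 34393296897)) (.cons (.rel (nat_lit 34393296897)) (.cons (.rel (nat_lit 17196654594)) (.cons (.rel (nat_lit 34376519940)) (.cons (.rel (nat_lit 17196650568)) .nil)))))) (.cons (.br (nat_lit 2) (.cons (.rel (nat_lit 83888136)) (.cons (.rel (nat_lit 101187840)) .nil))) .nil))) .leaf)) (nat_lit 4398047251155845) (.br (nat_lit 6) (.cons (.br (nat_lit 2) (.cons (.rel (nat_lit 17314152513)) (.cons (.rel (nat_lit 17247011328)) (.cons (.rel (nat_lit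 17247011328)) .nil)))) .nil)) (.node (.node .leaf (nat_lit 4398047251156221) (.br (nat_lit 3) (.cons (.br (nat_lit 4) (.cons (.rel (nat_lit 1342506240)) .nil)) .nil)) .leaf) (nat_lit 4398047251156320) (.br (nat_lit 2) (.cons (.br (nat_lit 4) (.cons (.rel (nat_lit 1141899525)) .nil)) .nil)) .leaf))))) (nat_lit 4398047251156480) (.br (nat_lit 3) (.cons (.br (nat_lit 4) (.cons (.rel (nat_lit 1342178400)) .nil)) .nil)) (.node (.node (.node (.node (.node (.node .leaf (nat_lit 4398047251156494) (.br (nat_lit 4) (.cons (.br (nat_lit 6) (.cons (.rel (nat_lit 18254680320)) .nil)) .nil)) .leaf) (nat_lit 4398047251211501) (.br (nat_lit 1) (.cons (.br (nat_lit 2) (.cons (.rel (nat_lit 83911680)) .nil)) .nil)) (.node .leaf (nat_lit 4398047251925244) (.br (nat_lit 4) (.cons (.br (nat_lit 3) (.cons (.rel (nat_lit 1342185600)) (.cons (.rel (nat_lit 1342177350)) (.cons (.rel (nat_lit 1342183440)) (.cons (.rel (nat_lit 1342181385)) (.cons (.rel (nat_lit 1342178400)) .nil)))))) .nil)) .leaf)) (nat_lit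 4398047251925617) (.br (nat_lit 4) (.cons (.br (nat_lit 6) (.cons (.rel (nat_lit 18255709185)) (.cons (.rel (nat_lit 18253873221)) (.cons (.rel (nat_lit 18253873221)) .nil)))) (.cons (.br (nat_lit 5) (.cons (.rel (nat_lit 5369053248)) (.cons (.rel (nat_lit 5369053248)) .nil))) .nil))) (.node (.node .leaf (nat_lit 4398047251925893) (.br (nat_lit 6) (.cons (.br (nat_lit 3) (.cons (.rel (nat_lit 17448309780)) (.cons (.rel (nat_lit 17448309780)) (.cons (.rel (nat_lit 17716740624)) .nil)))) (.cons (.br (nat_lit 3) (.cons (.rel (nat_lit 17448309780)) (.cons (.rel (nat_lit 17448304740)) (.cons (.rel (nat_lit 17448371202)) .nil)))) .nil))) .leaf) (nat_lit 4398047251926269) (.br (nat_lit 3) (.cons (.br (nat_lit 6) (.cons (.rel (nat_lit 17716740624)) .nil)) .nil)) (.node .leaf (nat_lit 4398047251926542) (.br (nat_lit 6) (.cons (.br (nat_lit 4) (.cons (.rel (nat_lit 35433504768)) (.cons (.rel (nat_lit 18253877256)) .nil))) .nil)) .leaf))) (nat_lit 4398047252127795) (.br (nat_lit 6) (.cons (.br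 (nat_lit 2) (.cons (.rel (nat_lit 34426847328)) (.cons (.rel (nat_lit 34426864641)) .nil))) .nil)) (.node (.node (.node .leaf (nat_lit 4398047252127996) (.br (nat_lit 6) (.cons (.br (nat_lit 2) (.cons (.rel (nat_lit 17247260673)) (.cons (.rel (nat_lit 34426852368)) (.cons (.rel (nat_lit 17248550916)) .nil)))) (.cons (.br (nat_lit 2) (.cons (.rel (nat_lit 34493972736)) (.cons (.rel (nat_lit 34426847328)) (.cons (.rel (nat_lit 17247260673)) .nil)))) .nil))) .leaf) (nat_lit 4398047252128369) (.br (nat_lit 6) (.cons (.br (nat_lit 1) (.cons (.rel (nat_lit 17196778497)) (.cons (.rel (nat_lit 34393296897)) (.cons (.rel (nat_lit 17196650568)) (.cons (.rel (nat_lit 17196718080)) .nil))))) .nil)) (.node .leaf (nat_lit 4398047252128496) (.br (nat_lit 5) (.cons (.br (nat_lit 2) (.cons (.rel (nat_lit 4362080784)) (.cons (.rel (nat_lit 4362338376)) .nil))) .nil)) .leaf)) (nat_lit 4398047252128654) (.br (nat_lit 2) (.cons (.br (nat_lit 6) (.cons (.rel (nat_lit 17247011328)) .nil)) .nil)) (.node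 (.node .leaf (nat_lit 4398047252129021) (.br (nat_lit 3) (.cons (.br (nat_lit 4) (.cons (.rel (nat_lit 1342178400)) .nil)) .nil)) .leaf) (nat_lit 4398047252221336) (.br (nat_lit 0) (.cons (.br (nat_lit 1) (.cons (.rel (nat_lit 20979984)) .nil)) .nil)) (.node .leaf (nat_lit 4398047252424956) (.br (nat_lit 3) (.cons (.br (nat_lit 4) (.cons (.rel (nat_lit 1342177350)) .nil)) .nil)) .leaf)))) (nat_lit 4398047252425329) (.br (nat_lit 3) (.cons (.br (nat_lit 4) (.cons (.rel (nat_lit 1611137280)) (.cons (.rel (nat_lit 1342183440)) .nil))) .nil)) (.node (.node (.node (.node .leaf (nat_lit 4398047252425605) (.br (nat_lit 6) (.cons (.br (nat_lit 1) (.cons (.rel (nat_lit 17196718080)) (.cons (.rel (nat_lit 17196646533)) .nil))) .nil)) .leaf) (nat_lit 4398047252425964) (.br (nat_lit 3) (.cons (.br (nat_lit 0) (.cons (.rel (nat_lit 541067268)) (.cons (.rel (nat_lit 273155136)) .nil))) .nil)) (.node .leaf (nat_lit 4398047252426240) (.br (nat_lit 3) (.cons (.br (nat_lit 6) (.cons (.rel (nat_lit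 17448310785)) .nil)) .nil)) .leaf)) (nat_lit 4398047252427032) (.br (nat_lit 0) (.cons (.br (nat_lit 2) (.cons (.rel (nat_lit 142610433)) .nil)) .nil)) (.node (.node .leaf (nat_lit 4398047252427377) (.br (nat_lit 4) (.cons (.br (nat_lit 0) (.cons (.rel (nat_lit 1077937233)) (.cons (.rel (nat_lit 2155941888)) (.cons (.rel (nat_lit 1077937233)) .nil)))) (.cons (.br (nat_lit 0) (.cons (.rel (nat_lit 1082392608)) (.cons (.rel (nat_lit 1079267328)) (.cons (.rel (nat_lit 1077936228)) .nil)))) .nil))) .leaf) (nat_lit 4398047252490291) (.br (nat_lit 3) (.cons (.br (nat_lit 5) (.cons (.rel (nat_lit 4832133120)) .nil)) .nil)) (.node .leaf (nat_lit 4398047252490390) (.br (nat_lit 6) (.cons (.br (nat_lit 0) (.cons (.rel (nat_lit 17185382400)) (.cons (.rel (nat_lit 17184067608)) (.cons (.rel (nat_lit 34368208896)) .nil)))) .nil)) .leaf))) (nat_lit 4398047252490492) (.br (nat_lit 4) (.cons (.br (nat_lit 2) (.cons (.rel (nat_lit 1209270288)) (.cons (.rel (nat_lit 1141145601)) (.cons (.rel (nat_lit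 1207977024)) (.cons (.rel (nat_lit 1208030208)) .nil))))) (.cons (.br (nat_lit 5) (.cons (.br (nat_lit 6) (.cons (.rel (nat_lit 21475099653)) (.cons (.rel (nat_lit 18254680320)) (.cons (.rel (nat_lit 19327352865)) .nil)))) (.cons (.rel (nat_lit 9663692817)) (.cons (.rel (nat_lit 5369762049)) .nil)))) .nil))) (.node (.node (.node .leaf (nat_lit 4398047252491141) (.br (nat_lit 2) (.cons (.br (nat_lit 6) (.cons (.rel (nat_lit 17247011328)) (.cons (.rel (nat_lit 34427175168)) .nil))) .nil)) .leaf) (nat_lit 4398047252491616) (.br (nat_lit 5) (.cons (.br (nat_lit 3) (.cons (.rel (nat_lit 4564468224)) (.cons (.rel (nat_lit 4564468224)) .nil))) .nil)) (.node .leaf (nat_lit 4398047252496636) (.br (nat_lit 1) (.cons (.br (nat_lit 0) (.cons (.rel (nat_lit 42221568)) (.cons (.rel (nat_lit 20972928)) .nil))) .nil)) .leaf)) (nat_lit 4398047252497189) (.br (nat_lit 2) (.cons (.br (nat_lit 5) (.cons (.rel (nat_lit 4362342402)) (.cons (.rel (nat_lit 4362338376)) (.cons (.rel (nat_lit 4363194624))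 .nil)))) .nil)) (.node (.node .leaf (nat_lit 4398047266662430) (.br (nat_lit 3) (.cons (.br (nat_lit 6) (.cons (.rel (nat_lit 17448304740)) (.cons (.rel (nat_lit 17448304740)) .nil))) .nil)) .leaf) (nat_lit 4398049393988209) (.br (nat_lit 0) (.cons (.br (nat_lit 4) (.cons (.rel (nat_lit 2155941888)) (.cons (.rel (nat_lit 1077937233)) .nil))) .nil)) .leaf)))) (nat_lit 4398049395214961) (.br (nat_lit 1) (.cons (.br (nat_lit 3) (.cons (.rel (nat_lit 285245697)) .nil)) .nil)) (.node (.node (.node (.node (.node .leaf (nat_lit 4398050432905472) (.br (nat_lit 0) (.cons (.br (nat_lit 6) (.cons (.rel (nat_lit 34364195328)) .nil)) .nil)) .leaf) (nat_lit 4398050433361950) (.br (nat_lit 6) (.cons (.br (nat_lit 0) (.cons (.rel (nat_lit 17184067608)) (.cons (.rel (nat_lit 17184067608)) .nil))) .nil)) (.node .leaf (nat_lit 4398050433362697) (.br (nat_lit 0) (.cons (.br (nat_lit 6) (.cons (.rel (nat_lit 34365046785)) .nil)) .nil)) .leaf)) (nat_lit 4398050434112268) (.br (nat_lit 0) (.cons (.br (nat_lit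 1) (.cons (.rel (nat_lit 42221568)) .nil)) .nil)) (.node (.node .leaf (nat_lit 4398050434429553) (.br (nat_lit 2) (.cons (.br (nat_lit 6) (.cons (.rel (nat_lit 17314092096)) (.cons (.rel (nat_lit 17249141760)) (.cons (.rel (nat_lit 34493972736)) .nil)))) .nil)) .leaf) (nat_lit 4398051993186560) (.br (nat_lit 6) (.cons (.br (nat_lit 0) (.cons (.rel (nat_lit 34364195328)) (.cons (.rel (nat_lit 17184063573)) .nil))) .nil)) (.node .leaf (nat_lit 4398051993381489) (.br (nat_lit 4) (.cons (.br (nat_lit 5) (.cons (.rel (nat_lit 5368709640)) .nil)) .nil)) .leaf))) (nat_lit 4398051993382141) (.br (nat_lit 4) (.cons (.br (nat_lit 5) (.cons (.rel (nat_lit 5368709640)) .nil)) .nil)) (.node (.node (.node .leaf (nat_lit 4398051993643038) (.br (nat_lit 3) (.cons (.br (nat_lit 6) (.cons (.rel (nat_lit 17717854464)) (.cons (.rel (nat_lit 17448304740)) .nil))) .nil)) .leaf) (nat_lit 4398051994354289) (.br (nat_lit 1) (.cons (.br (nat_lit 2) (.cons (.rel (nat_lit 83888136)) (.cons (.rel (nat_lit 85262340))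 .nil))) (.cons (.br (nat_lit 2) (.cons (.rel (nat_lit 101187840)) (.cons (.rel (nat_lit 83952768)) .nil))) .nil))) (.node .leaf (nat_lit 4398051994355225) (.br (nat_lit 3) (.cons (.br (nat_lit 5) (.cons (.rel (nat_lit 4563472449)) .nil)) .nil)) .leaf)) (nat_lit 4398051994651249) (.br (nat_lit 3) (.cons (.br (nat_lit 5) (.cons (.rel (nat_lit 4563412032)) .nil)) .nil)) (.node (.node .leaf (nat_lit 4398051994913024) (.br (nat_lit 2) (.cons (.br (nat_lit 5) (.cons (.rel (nat_lit 4429203456)) .nil)) .nil)) .leaf) (nat_lit 4400239826496389) (.br (nat_lit 1) (.cons (.br (nat_lit 2) (.cons (.rel (nat_lit 83906640)) .nil)) .nil)) .leaf))) (nat_lit 4400242963835165) (.br (nat_lit 1) (.cons (.br (nat_lit 2) (.cons (.rel (nat_lit 83888136)) .nil)) .nil)) (.node (.node (.node (.node .leaf (nat_lit 4403501667953900) (.br (nat_lit 1) (.cons (.br (nat_lit 3) (.cons (.rel (nat_lit 553910592)) .nil)) .nil)) .leaf) (nat_lit 4403504521734425) (.br (nat_lit 1) (.cons (.br (nat_lit 2) (.cons (.rel (nat_lit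 152109057)) (.cons (.rel (nat_lit 167773188)) (.cons (.rel (nat_lit 83888136)) (.cons (.rel (nat_lit 101187840)) (.cons (.rel (nat_lit 152109057)) .nil)))))) (.cons (.br (nat_lit 4) (.cons (.rel (nat_lit 1090603008)) (.cons (.rel (nat_lit 1090584645)) .nil))) .nil))) (.node .leaf (nat_lit 4403504521735045) (.br (nat_lit 3) (.cons (.br (nat_lit 6) (.cons (.rel (nat_lit 34896678912)) (.cons (.rel (nat_lit 17448310785)) .nil))) (.cons (.br (nat_lit 6) (.cons (.rel (nat_lit 17448321048)) (.cons (.rel (nat_lit 17448321048)) .nil))) .nil))) .leaf)) (nat_lit 4403504523004805) (.br (nat_lit 0) (.cons (.br (nat_lit 3) (.cons (.rel (nat_lit 272630085)) (.cons (.rel (nat_lit 273678468)) .nil))) .nil)) (.node (.node .leaf (nat_lit 4403504524274565) (.br (nat_lit 0) (.cons (.br (nat_lit 3) (.cons (.rel (nat_lit 273711120)) .nil)) .nil)) .leaf) (nat_lit 4405992745974545) (.br (nat_lit 3) (.cons (.br (nat_lit 4) (.cons (.rel (nat_lit 1342183440)) .nil)) .nil)) (.node .leaf (nat_lit 4405992746445585)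 (.br (nat_lit 3) (.cons (.br (nat_lit 4) (.cons (.rel (nat_lit 1342183440)) .nil)) .nil)) .leaf))) (nat_lit 4405992747418385) (.br (nat_lit 1) (.cons (.br (nat_lit 3) (.cons (.rel (nat_lit 302060544)) .nil)) .nil)) (.node (.node (.node .leaf (nat_lit 4408827424389905) (.br (nat_lit 1) (.cons (.br (nat_lit 2) (.cons (.rel (nat_lit 83888136)) .nil)) .nil)) .leaf) (nat_lit 4408827425833270) (.br (nat_lit 1) (.cons (.br (nat_lit 3) (.cons (.rel (nat_lit 285223173)) .nil)) .nil)) (.node .leaf (nat_lit 4411018050648316) (.br (nat_lit 0) (.cons (.br (nat_lit 3) (.cons (.rel (nat_lit 272696592)) (.cons (.rel (nat_lit 272630085)) .nil))) (.cons (.br (nat_lit 3) (.cons (.rel (nat_lit 277086465)) (.cons (.rel (nat_lit 541065249)) .nil))) .nil))) .leaf)) (nat_lit 4415645207292529) (.br (nat_lit 0) (.cons (.br (nat_lit 1) (.cons (.rel (nat_lit 22093824)) .nil)) .nil)) (.node (.node .leaf (nat_lit 4428581556513393) (.br (nat_lit 0) (.cons (.br (nat_lit 2) (.cons (.rel (nat_lit 71307336)) .nil))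 .nil)) .leaf) (nat_lit 4428581559052913) (.br (nat_lit 3) (.cons (.br (nat_lit 6) (.cons (.rel (nat_lit 17448310785)) .nil)) .nil)) .leaf))))))

/-- refutations 15 -/
def e15 : EX := (.node (.node .leaf (nat_lit 4439770493814121) (.br (nat_lit 0) (.cons (.br (nat_lit 1) (.cons (.rel (nat_lit 42221568)) .nil)) .nil)) .leaf) (nat_lit 4439771725462764) (.br (nat_lit 0) (.cons (.br (nat_lit 1) (.cons (.rel (nat_lit 22020117)) .nil)) .nil)) .leaf)

/-- refutations 16 -/
def e16 : EX := (.node (.node (.node (.node (.node .leaf (nat_lit 4521192597862656) (.br (nat_lit 3) (.cons (.br (nat_lit 6) (.cons (.rel (nat_lit 34896678912)) (.cons (.br (nat_lit 4) (.cons (.rel (nat_lit 1342185600)) (.cons (.rel (nat_lit 1342185600)) (.cons (.rel (nat_lit 35433504768)) .nil)))) .nil))) .nil)) .leaf) (nat_lit 4521192597863152) (.br (nat_lit 3) (.cons (.br (nat_lit 4) (.cons (.rel (nat_lit 1342183440)) (.cons (.rel (nat_lit 1342243857)) .nil))) .nil)) (.node .leaf (nat_lit 4521192598317093) (.br (nat_lit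 3) (.cons (.br (nat_lit 6) (.cons (.rel (nat_lit 17448304740)) .nil)) .nil)) .leaf)) (nat_lit 4521192599408896) (.br (nat_lit 2) (.cons (.br (nat_lit 3) (.cons (.rel (nat_lit 335552529)) .nil)) .nil)) (.node (.node .leaf (nat_lit 4521192862118665) (.br (nat_lit 1) (.cons (.br (nat_lit 2) (.cons (.rel (nat_lit 83888136)) .nil)) .nil)) .leaf) (nat_lit 4521192862575518) (.br (nat_lit 2) (.cons (.br (nat_lit 4) (.cons (.rel (nat_lit 2281705728)) .nil)) .nil)) .leaf)) (nat_lit 4521192863285873) (.br (nat_lit 1) (.cons (.br (nat_lit 2) (.cons (.rel (nat_lit 83887122)) (.cons (.rel (nat_lit 83887122)) .nil))) .nil)) (.node (.node (.node .leaf (nat_lit 4521192863650417) (.br (nat_lit 2) (.cons (.br (nat_lit 3) (.cons (.rel (nat_lit 335545473)) .nil)) .nil)) .leaf) (nat_lit 4521193017764477) (.br (nat_lit 5) (.cons (.br (nat_lit 6) (.cons (.rel (nat_lit 42949674240)) .nil)) .nil)) (.node .leaf (nat_lit 4521193118412263) (.br (nat_lit 1) (.cons (.br (nat_lit 3) (.cons (.rel (nat_lit 302007360))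 .nil)) .nil)) .leaf)) (nat_lit 4521193118427797) (.br (nat_lit 1) (.cons (.br (nat_lit 2) (.cons (.rel (nat_lit 83888136)) (.cons (.rel (nat_lit 167773188)) .nil))) .nil)) (.node (.node .leaf (nat_lit 4521193120968188) (.br (nat_lit 3) (.cons (.br (nat_lit 2) (.cons (.rel (nat_lit 335552529)) (.cons (.rel (nat_lit 335564802)) .nil))) .nil)) .leaf) (nat_lit 4521195633354757) (.br (nat_lit 1) (.cons (.br (nat_lit 2) (.cons (.rel (nat_lit 83918913)) .nil)) .nil)) .leaf))) (nat_lit 4521197799271932) (.br (nat_lit 2) (.cons (.br (nat_lit 4) (.cons (.rel (nat_lit 1141145601)) .nil)) .nil)) (.node (.node (.node (.node .leaf (nat_lit 4521197801811452) (.br (nat_lit 2) (.cons (.br (nat_lit 3) (.cons (.rel (nat_lit 335552529)) .nil)) .nil)) .leaf) (nat_lit 4522355271985433) (.br (nat_lit 3) (.cons (.br (nat_lit 6) (.cons (.rel (nat_lit 17448337536)) .nil)) .nil)) (.node .leaf (nat_lit 4528170658414622) (.br (nat_lit 0) (.cons (.br (nat_lit 4) (.cons (.rel (nat_lit 1077936228)) .nil)) .nil))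 .leaf)) (nat_lit 4528173362573568) (.br (nat_lit 1) (.cons (.br (nat_lit 3) (.cons (.rel (nat_lit 285233424)) .nil)) .nil)) (.node (.node .leaf (nat_lit 4528173363740702) (.br (nat_lit 0) (.cons (.br (nat_lit 3) (.cons (.rel (nat_lit 273678468)) .nil)) .nil)) .leaf) (nat_lit 4528173363741424) (.br (nat_lit 1) (.cons (.br (nat_lit 3) (.cons (.rel (nat_lit 286347264)) .nil)) .nil)) .leaf)) (nat_lit 4528173363742233) (.br (nat_lit 6) (.cons (.br (nat_lit 1) (.cons (.rel (nat_lit 17196666912)) (.cons (.rel (nat_lit 34376515905)) .nil))) .nil)) (.node (.node (.node .leaf (nat_lit 4528925380309244) (.br (nat_lit 3) (.cons (.br (nat_lit 4) (.cons (.rel (nat_lit 1342275648)) .nil)) .nil)) .leaf) (nat_lit 4528925380765722) (.br (nat_lit 2) (.cons (.br (nat_lit 3) (.cons (.rel (nat_lit 335549508)) .nil)) .nil)) .leaf) (nat_lit 4528925381476604) (.br (nat_lit 3) (.cons (.br (nat_lit 1) (.cons (.rel (nat_lit 570691584)) (.cons (.rel (nat_lit 570691584)) .nil))) .nil)) (.node (.node .leaf (nat_lit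 4528925381477654) (.br (nat_lit 2) (.cons (.br (nat_lit 3) (.cons (.rel (nat_lit 335545473)) .nil)) .nil)) .leaf) (nat_lit 4533433520444017) (.br (nat_lit 1) (.cons (.br (nat_lit 2) (.cons (.rel (nat_lit 83887122)) .nil)) .nil)) .leaf))))

/-- refutations 17 -/
def e17 : EX := (.node (.node (.node (.node (.node (.node .leaf (nat_lit 4573969106125705) (.br (nat_lit 1) (.cons (.br (nat_lit 4) (.cons (.rel (nat_lit 1090551840)) .nil)) .nil)) .leaf) (nat_lit 4586911260273421) (.br (nat_lit 1) (.cons (.br (nat_lit 2) (.cons (.rel (nat_lit 83911680)) .nil)) .nil)) (.node .leaf (nat_lit 4609153481947892) (.br (nat_lit 2) (.cons (.br (nat_lit 6) (.cons (.rel (nat_lit 17247241344)) .nil)) .nil)) .leaf)) (nat_lit 4609153481961724) (.br (nat_lit 2) (.cons (.br (nat_lit 4) (.cons (.rel (nat_lit 2214597633)) (.cons (.rel (nat_lit 1140859392)) .nil))) (.cons (.br (nat_lit 4) (.cons (.rel (nat_lit 2214658050)) (.cons (.rel (nat_lit 1141145601)) .nil))) .nil))) (.node (.node .leaf (nat_lit 4609153482091121)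 (.br (nat_lit 4) (.cons (.br (nat_lit 2) (.cons (.rel (nat_lit 2214854976)) (.cons (.rel (nat_lit 1208090625)) .nil))) .nil)) .leaf) (nat_lit 4609153482092729) (.br (nat_lit 0) (.cons (.br (nat_lit 1) (.cons (.rel (nat_lit 37814337)) .nil)) .nil)) .leaf)) (nat_lit 4609153482092796) (.br (nat_lit 0) (.cons (.br (nat_lit 4) (.cons (.rel (nat_lit 1077936228)) (.cons (.rel (nat_lit 2155941888)) .nil))) .nil)) (.node (.node (.node .leaf (nat_lit 4609153482093229) (.br (nat_lit 2) (.cons (.br (nat_lit 0) (.cons (.rel (nat_lit 71435265)) (.cons (.rel (nat_lit 72352260)) (.cons (.rel (nat_lit 71303301)) .nil)))) .nil)) .leaf) (nat_lit 4609153482094081) (.br (nat_lit 2) (.cons (.br (nat_lit 4) (.cons (.rel (nat_lit 1140859392)) .nil)) .nil)) .leaf) (nat_lit 4609153482156657) (.br (nat_lit 4) (.cons (.br (nat_lit 3) (.cons (.rel (nat_lit 1342177350)) (.cons (.rel (nat_lit 1342177350)) .nil))) .nil)) (.node (.node .leaf (nat_lit 4609153482408118) (.br (nat_lit 1) (.cons (.br (nat_lit 3) (.cons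 (.rel (nat_lit 285279552)) .nil)) .nil)) .leaf) (nat_lit 4609153482418202) (.br (nat_lit 2) (.cons (.br (nat_lit 5) (.cons (.rel (nat_lit 4362342402)) (.cons (.br (nat_lit 1) (.cons (.rel (nat_lit 8606728512)) (.cons (.rel (nat_lit 152048640)) (.cons (.rel (nat_lit 4395635712)) .nil)))) .nil))) .nil)) .leaf))) (nat_lit 4609153482418801) (.br (nat_lit 1) (.cons (.br (nat_lit 5) (.cons (.rel (nat_lit 4311760914)) (.cons (.rel (nat_lit 8606781696)) (.cons (.rel (nat_lit 4311879744)) (.cons (.rel (nat_lit 4313124864)) (.cons (.rel (nat_lit 4311745620)) .nil)))))) (.cons (.br (nat_lit 2) (.cons (.br (nat_lit 5) (.cons (.rel (nat_lit 4362354720)) (.cons (.rel (nat_lit 4311750660)) (.cons (.rel (nat_lit 4362080784)) (.cons (.rel (nat_lit 4395696129)) (.cons (.rel (nat_lit 8623509504)) .nil)))))) (.cons (.rel (nat_lit 101187840)) (.cons (.br (nat_lit 5) (.cons (.rel (nat_lit 4448059392)) (.cons (.rel (nat_lit 4311750660)) (.cons (.rel (nat_lit 4362354720)) (.cons (.rel (nat_lit 4362093057))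 (.cons (.rel (nat_lit 8623509504)) .nil)))))) (.cons (.rel (nat_lit 101187840)) .nil))))) .nil))) (.node (.node (.node (.node .leaf (nat_lit 4609153482418832) (.br (nat_lit 3) (.cons (.br (nat_lit 6) (.cons (.rel (nat_lit 17448390720)) (.cons (.rel (nat_lit 17448443904)) .nil))) .nil)) .leaf) (nat_lit 4609153482418932) (.br (nat_lit 1) (.cons (.br (nat_lit 2) (.cons (.rel (nat_lit 152048640)) .nil)) .nil)) (.node .leaf (nat_lit 4609153483128869) (.br (nat_lit 1) (.cons (.br (nat_lit 3) (.cons (.br (nat_lit 2) (.cons (.rel (nat_lit 101187840)) (.cons (.rel (nat_lit 83888136)) (.cons (.rel (nat_lit 336855045)) .nil)))) (.cons (.rel (nat_lit 553653249)) .nil))) .nil)) .leaf)) (nat_lit 4609153483128982) (.br (nat_lit 3) (.cons (.br (nat_lit 4) (.cons (.rel (nat_lit 1342185600)) .nil)) .nil)) (.node (.node .leaf (nat_lit 4609153483129084) (.br (nat_lit 3) (.cons (.br (nat_lit 2) (.cons (.rel (nat_lit 335544468)) (.cons (.rel (nat_lit 335549508)) (.cons (.rel (nat_lit 335549508)) (.cons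 (.rel (nat_lit 335549508)) .nil))))) .nil)) .leaf) (nat_lit 4609153483129144) (.br (nat_lit 1) (.cons (.br (nat_lit 0) (.cons (.rel (nat_lit 22040640)) (.cons (.rel (nat_lit 37753920)) .nil))) .nil)) .leaf)) (nat_lit 4609153483129457) (.br (nat_lit 6) (.cons (.br (nat_lit 2) (.cons (.rel (nat_lit 17314152513)) (.cons (.rel (nat_lit 17247241344)) .nil))) .nil)) (.node (.node (.node .leaf (nat_lit 4609153483168651) (.br (nat_lit 5) (.cons (.br (nat_lit 0) (.cons (.rel (nat_lit 8594145552)) (.cons (.rel (nat_lit 8595259392)) .nil))) .nil)) .leaf) (nat_lit 4609153483629169) (.br (nat_lit 3) (.cons (.br (nat_lit 4) (.cons (.rel (nat_lit 1342183440)) .nil)) .nil)) .leaf) (nat_lit 4609153484662112) (.br (nat_lit 1) (.cons (.br (nat_lit 2) (.cons (.rel (nat_lit 101187840)) .nil)) .nil)) (.node (.node .leaf (nat_lit 4609153485023382) (.br (nat_lit 2) (.cons (.br (nat_lit 4) (.cons (.rel (nat_lit 2214597633)) .nil)) .nil)) .leaf) (nat_lit 4609153485024782) (.br (nat_lit 2) (.cons (.br (nat_lit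 6) (.cons (.rel (nat_lit 17247248400)) .nil)) .nil)) .leaf)))) (nat_lit 4615853941779057) (.br (nat_lit 1) (.cons (.br (nat_lit 2) (.cons (.rel (nat_lit 83906640)) .nil)) .nil)) (.node (.node (.node (.node (.node .leaf (nat_lit 4616085559634102) (.br (nat_lit 0) (.cons (.br (nat_lit 1) (.cons (.rel (nat_lit 37765188)) .nil)) .nil)) .leaf) (nat_lit 4616085560345201) (.br (nat_lit 2) (.cons (.br (nat_lit 3) (.cons (.rel (nat_lit 335545473)) .nil)) .nil)) (.node .leaf (nat_lit 4616085561876732) (.br (nat_lit 4) (.cons (.br (nat_lit 5) (.cons (.rel (nat_lit 5369106432)) .nil)) .nil)) .leaf)) (nat_lit 4616090217548683) (.br (nat_lit 0) (.cons (.br (nat_lit 1) (.cons (.rel (nat_lit 21528576)) .nil)) .nil)) (.node (.node .leaf (nat_lit 4616890227990784) (.br (nat_lit 2) (.cons (.br (nat_lit 4) (.cons (.rel (nat_lit 1141145601)) .nil)) .nil)) .leaf) (nat_lit 4621068034318396) (.br (nat_lit 5) (.cons (.br (nat_lit 4) (.cons (.rel (nat_lit 9663678528)) (.cons (.rel (nat_lit 10737418500)) .nil)))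 .nil)) .leaf)) (nat_lit 4621068034318613) (.br (nat_lit 2) (.cons (.br (nat_lit 4) (.cons (.rel (nat_lit 2281705728)) .nil)) .nil)) (.node (.node (.node .leaf (nat_lit 4621072377118981) (.br (nat_lit 0) (.cons (.br (nat_lit 4) (.cons (.rel (nat_lit 1077942273)) .nil)) .nil)) .leaf) (nat_lit 4621073526137088) (.br (nat_lit 2) (.cons (.br (nat_lit 5) (.cons (.rel (nat_lit 4362405888)) .nil)) .nil)) .leaf) (nat_lit 4621073526143731) (.br (nat_lit 2) (.cons (.br (nat_lit 6) (.cons (.rel (nat_lit 17247241344)) (.cons (.rel (nat_lit 17246995032)) .nil))) .nil)) (.node (.node .leaf (nat_lit 4621073526157312) (.br (nat_lit 0) (.cons (.br (nat_lit 2) (.cons (.rel (nat_lit 71323680)) .nil)) .nil)) .leaf) (nat_lit 4621073526158067) (.br (nat_lit 1) (.cons (.br (nat_lit 2) (.cons (.rel (nat_lit 83888136)) .nil)) .nil)) .leaf))) (nat_lit 4621073526289071) (.br (nat_lit 2) (.cons (.br (nat_lit 5) (.cons (.rel (nat_lit 4362405888)) .nil)) .nil)) (.node (.node (.node (.node .leaf (nat_lit 4621073526289139)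 (.br (nat_lit 0) (.cons (.br (nat_lit 2) (.cons (.rel (nat_lit 71305368)) .nil)) .nil)) .leaf) (nat_lit 4621073526299531) (.br (nat_lit 0) (.cons (.br (nat_lit 2) (.cons (.rel (nat_lit 71374848)) .nil)) .nil)) .leaf) (nat_lit 4621073526352497) (.br (nat_lit 2) (.cons (.br (nat_lit 4) (.cons (.rel (nat_lit 1141179456)) .nil)) .nil)) (.node (.node .leaf (nat_lit 4621073526358641) (.br (nat_lit 2) (.cons (.br (nat_lit 1) (.cons (.rel (nat_lit 167773188)) (.cons (.rel (nat_lit 83888136)) .nil))) .nil)) .leaf) (nat_lit 4621073526594291) (.br (nat_lit 4) (.cons (.br (nat_lit 3) (.cons (.rel (nat_lit 2684358720)) (.cons (.rel (nat_lit 1342185600)) .nil))) .nil)) .leaf)) (nat_lit 4621073526594962) (.br (nat_lit 1) (.cons (.br (nat_lit 2) (.cons (.rel (nat_lit 84149505)) .nil)) .nil)) (.node (.node (.node .leaf (nat_lit 4621073526606731) (.br (nat_lit 2) (.cons (.br (nat_lit 5) (.cons (.rel (nat_lit 4362338376)) (.cons (.rel (nat_lit 4362405888)) .nil))) .nil)) .leaf) (nat_lit 4621073526614197)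 (.br (nat_lit 1) (.cons (.br (nat_lit 2) (.cons (.rel (nat_lit 101187840)) .nil)) .nil)) .leaf) (nat_lit 4621073526614641) (.br (nat_lit 2) (.cons (.br (nat_lit 1) (.cons (.rel (nat_lit 167773188)) (.cons (.rel (nat_lit 83887122)) .nil))) .nil)) (.node (.node .leaf (nat_lit 4621073526614923) (.br (nat_lit 1) (.cons (.br (nat_lit 2) (.cons (.br (nat_lit 5) (.cons (.rel (nat_lit 4362338376)) (.cons (.rel (nat_lit 4311826560)) (.cons (.rel (nat_lit 4311785472)) .nil)))) (.cons (.rel (nat_lit 83888136)) (.cons (.rel (nat_lit 101187840)) .nil)))) (.cons (.br (nat_lit 6) (.cons (.br (nat_lit 5) (.cons (.rel (nat_lit 21475098648)) (.cons (.rel (nat_lit 21475115136)) (.cons (.rel (nat_lit 4311879744)) .nil)))) (.cons (.rel (nat_lit 17214472449)) (.cons (.rel (nat_lit 34377564288)) .nil)))) (.cons (.br (nat_lit 6) (.cons (.rel (nat_lit 17197958160)) (.cons (.rel (nat_lit 17197695492)) (.cons (.rel (nat_lit 34376515905)) .nil)))) .nil)))) .leaf) (nat_lit 4621073526614927) (.br (nat_lit 0)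 (.cons (.br (nat_lit 2) (.cons (.rel (nat_lit 71303301)) (.cons (.rel (nat_lit 71311362)) (.cons (.rel (nat_lit 71307336)) .nil)))) .nil)) .leaf)))))

/-- refutations 18 -/
def e18 : EX := (.node (.node (.node (.node (.node .leaf (nat_lit 4855925454471353) (.br (nat_lit 5) (.cons (.br (nat_lit 0) (.cons (.br (nat_lit 3) (.cons (.rel (nat_lit 4563419265)) (.cons (.rel (nat_lit 4563419265)) (.cons (.rel (nat_lit 4571791680)) (.cons (.rel (nat_lit 9126806544)) (.cons (.rel (nat_lit 4563423300)) .nil)))))) (.cons (.rel (nat_lit 4299161610)) (.cons (.rel (nat_lit 4299165825)) .nil)))) .nil)) .leaf) (nat_lit 4855925454727228) (.br (nat_lit 5) (.cons (.br (nat_lit 3) (.cons (.rel (nat_lit 4563403782)) (.cons (.rel (nat_lit 4563404832)) .nil))) .nil)) (.node .leaf (nat_lit 4855925454727478) (.br (nat_lit 3) (.cons (.br (nat_lit 1) (.cons (.rel (nat_lit 302071812)) (.cons (.rel (nat_lit 286294080)) .nil))) .nil)) .leaf)) (nat_lit 4855925456971133) (.br (nat_lit 0) (.cons (.br (nat_lit 1)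 (.cons (.rel (nat_lit 20979984)) .nil)) .nil)) (.node (.node .leaf (nat_lit 4855928201740473) (.br (nat_lit 1) (.cons (.br (nat_lit 2) (.cons (.rel (nat_lit 83922948)) .nil)) .nil)) .leaf) (nat_lit 4857636449742236) (.br (nat_lit 0) (.cons (.br (nat_lit 3) (.cons (.rel (nat_lit 541067268)) .nil)) .nil)) (.node .leaf (nat_lit 4857823305984310) (.br (nat_lit 1) (.cons (.br (nat_lit 5) (.cons (.rel (nat_lit 4311811077)) (.cons (.rel (nat_lit 4311760914)) .nil))) .nil)) .leaf))) (nat_lit 4857823306694966) (.br (nat_lit 2) (.cons (.br (nat_lit 3) (.cons (.rel (nat_lit 335552529)) (.cons (.rel (nat_lit 335613960)) (.cons (.rel (nat_lit 402653568)) .nil)))) .nil)) (.node (.node (.node .leaf (nat_lit 4857826577541302) (.br (nat_lit 0) (.cons (.br (nat_lit 1) (.cons (.rel (nat_lit 20992257)) .nil)) .nil)) .leaf) (nat_lit 4857826577541401) (.br (nat_lit 1) (.cons (.br (nat_lit 2) (.cons (.rel (nat_lit 167773188)) (.cons (.rel (nat_lit 83888136)) (.cons (.rel (nat_lit 83959824)) (.cons (.rel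 (nat_lit 167773188)) (.cons (.rel (nat_lit 83888136)) .nil)))))) (.cons (.br (nat_lit 2) (.cons (.rel (nat_lit 83972097)) (.cons (.br (nat_lit 3) (.cons (.rel (nat_lit 553713666)) (.cons (.rel (nat_lit 603980352)) (.cons (.rel (nat_lit 335613960)) (.cons (.rel (nat_lit 671105040)) (.cons (.rel (nat_lit 302007360)) .nil)))))) (.cons (.rel (nat_lit 83911680)) (.cons (.rel (nat_lit 83972097)) (.cons (.rel (nat_lit 101187840)) .nil)))))) .nil))) (.node .leaf (nat_lit 4857826577542021) (.br (nat_lit 0) (.cons (.br (nat_lit 3) (.cons (.rel (nat_lit 272630085)) .nil)) .nil)) .leaf)) (nat_lit 4857826578252057) (.br (nat_lit 1) (.cons (.br (nat_lit 2) (.cons (.rel (nat_lit 83911680)) (.cons (.rel (nat_lit 83972097)) (.cons (.rel (nat_lit 101187840)) .nil)))) .nil)) (.node (.node .leaf (nat_lit 4857826578609029) (.br (nat_lit 2) (.cons (.br (nat_lit 4) (.cons (.rel (nat_lit 1141133328)) .nil)) .nil)) .leaf) (nat_lit 4857826578811161) (.br (nat_lit 0) (.cons (.br (nat_lit 1) (.cons (.rel (nat_lit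 21528576)) .nil)) .nil)) .leaf))) (nat_lit 4861983057052434) (.br (nat_lit 2) (.cons (.br (nat_lit 3) (.cons (.rel (nat_lit 335560776)) .nil)) .nil)) (.node (.node (.node (.node .leaf (nat_lit 4861983057053033) (.br (nat_lit 5) (.cons (.br (nat_lit 3) (.cons (.rel (nat_lit 4563404832)) (.cons (.rel (nat_lit 4563550224)) .nil))) .nil)) .leaf) (nat_lit 4861983057308273) (.br (nat_lit 0) (.cons (.br (nat_lit 5) (.cons (.br (nat_lit 4) (.cons (.rel (nat_lit 5368709640)) (.cons (.rel (nat_lit 1077936228)) (.cons (.rel (nat_lit 9663680544)) (.cons (.rel (nat_lit 2151678210)) (.cons (.rel (nat_lit 5372924160)) .nil)))))) (.cons (.rel (nat_lit 4299165825)) (.cons (.rel (nat_lit 4299161610)) .nil)))) (.cons (.br (nat_lit 5) (.cons (.rel (nat_lit 4299162660)) (.cons (.br (nat_lit 1) (.cons (.rel (nat_lit 42221568)) (.cons (.rel (nat_lit 42221568)) (.cons (.rel (nat_lit 4311785472)) (.cons (.rel (nat_lit 20979984)) .nil))))) (.cons (.rel (nat_lit 8595259392)) .nil)))) (.cons (.br (nat_lit 2)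 (.cons (.rel (nat_lit 71303301)) (.cons (.rel (nat_lit 142610433)) (.cons (.rel (nat_lit 71311362)) (.cons (.rel (nat_lit 71369808)) (.cons (.rel (nat_lit 71335953)) (.cons (.br (nat_lit 5) (.cons (.rel (nat_lit 4362354720)) (.cons (.rel (nat_lit 4299162660)) (.cons (.rel (nat_lit 4364174340)) .nil)))) .nil))))))) .nil)))) (.node .leaf (nat_lit 4861983059551613) (.br (nat_lit 1) (.cons (.br (nat_lit 2) (.cons (.rel (nat_lit 83886117)) .nil)) .nil)) .leaf)) (nat_lit 4862421043309300) (.br (nat_lit 1) (.cons (.br (nat_lit 3) (.cons (.rel (nat_lit 285344004)) .nil)) .nil)) (.node (.node .leaf (nat_lit 4862422192548022) (.br (nat_lit 0) (.cons (.br (nat_lit 1) (.cons (.rel (nat_lit 22093824)) .nil)) .nil)) .leaf) (nat_lit 4862422192548121) (.br (nat_lit 0) (.cons (.br (nat_lit 6) (.cons (.rel (nat_lit 17184064578)) (.cons (.rel (nat_lit 17184084096)) (.cons (.rel (nat_lit 17184067608)) .nil)))) .nil)) (.node .leaf (nat_lit 4868764047304985) (.br (nat_lit 0) (.cons (.br (nat_lit 2) (.cons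 (.rel (nat_lit 71323680)) .nil)) .nil)) .leaf))) (nat_lit 4868846414792166) (.br (nat_lit 3) (.cons (.br (nat_lit 4) (.cons (.rel (nat_lit 1342185600)) .nil)) .nil)) (.node (.node (.node .leaf (nat_lit 4885081390843136) (.br (nat_lit 0) (.cons (.br (nat_lit 3) (.cons (.rel (nat_lit 272648448)) .nil)) .nil)) .leaf) (nat_lit 4885081391425666) (.br (nat_lit 2) (.cons (.br (nat_lit 3) (.cons (.rel (nat_lit 335560776)) .nil)) .nil)) (.node .leaf (nat_lit 4885084621798261) (.br (nat_lit 0) (.cons (.br (nat_lit 3) (.cons (.rel (nat_lit 273305616)) (.cons (.rel (nat_lit 273155136)) .nil))) .nil)) .leaf)) (nat_lit 4885084623553168) (.br (nat_lit 0) (.cons (.br (nat_lit 2) (.cons (.rel (nat_lit 71434260)) .nil)) .nil)) (.node (.node .leaf (nat_lit 4885084623645557) (.br (nat_lit 4) (.cons (.br (nat_lit 6) (.cons (.rel (nat_lit 36507231504)) .nil)) .nil)) .leaf) (nat_lit 4885977457881713) (.br (nat_lit 0) (.cons (.br (nat_lit 3) (.cons (.rel (nat_lit 276848640)) .nil)) .nil)) .leaf))))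

/-- refutations 19 -/
def e19 : EX := (.node (.node (.node (.node .leaf (nat_lit 5025887662172286) (.br (nat_lit 0) (.cons (.br (nat_lit 2) (.cons (.rel (nat_lit 71303301)) .nil)) .nil)) .leaf) (nat_lit 5025891168134377) (.br (nat_lit 1) (.cons (.br (nat_lit 2) (.cons (.rel (nat_lit 101187840)) .nil)) .nil)) .leaf) (nat_lit 5025891168602242) (.br (nat_lit 0) (.cons (.br (nat_lit 1) (.cons (.rel (nat_lit 37748880)) .nil)) .nil)) (.node .leaf (nat_lit 5025891168610965) (.br (nat_lit 2) (.cons (.br (nat_lit 5) (.cons (.rel (nat_lit 4362405888)) .nil)) .nil)) .leaf)) (nat_lit 5025891168611185) (.br (nat_lit 1) (.cons (.br (nat_lit 3) (.cons (.rel (nat_lit 285745152)) .nil)) .nil)) (.node (.node (.node .leaf (nat_lit 5025891169635561) (.br (nat_lit 0) (.cons (.br (nat_lit 2) (.cons (.rel (nat_lit 71321664)) .nil)) .nil)) .leaf) (nat_lit 5025891171222385) (.br (nat_lit 1) (.cons (.br (nat_lit 2) (.cons (.rel (nat_lit 83886117)) .nil)) .nil)) .leaf) (nat_lit 5025891171222761) (.br (nat_lit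 0) (.cons (.br (nat_lit 5) (.cons (.rel (nat_lit 4299259908)) .nil)) .nil)) (.node .leaf (nat_lit 5026715804821634) (.br (nat_lit 0) (.cons (.br (nat_lit 1) (.cons (.rel (nat_lit 25182228)) .nil)) .nil)) .leaf)))

/-- refutations 20 -/
def e20 : EX := (.node (.node (.node (.node .leaf (nat_lit 5471170598595370) (.br (nat_lit 1) (.cons (.br (nat_lit 2) (.cons (.rel (nat_lit 83918913)) .nil)) .nil)) .leaf) (nat_lit 5471170599805684) (.br (nat_lit 1) (.cons (.br (nat_lit 2) (.cons (.rel (nat_lit 83886117)) .nil)) .nil)) (.node .leaf (nat_lit 5471170600837150) (.br (nat_lit 3) (.cons (.br (nat_lit 5) (.cons (.rel (nat_lit 9126806544)) .nil)) .nil)) .leaf)) (nat_lit 5471170600837171) (.br (nat_lit 2) (.cons (.br (nat_lit 4) (.cons (.rel (nat_lit 2214592593)) .nil)) .nil)) (.node (.node .leaf (nat_lit 5471170600837372) (.br (nat_lit 1) (.cons (.br (nat_lit 5) (.cons (.rel (nat_lit 4311879744)) .nil)) .nil)) .leaf) (nat_lit 5471170600838031) (.br (nat_lit 0) (.cons (.br (nat_lit 1) (.cons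 (.rel (nat_lit 20972928)) .nil)) .nil)) (.node .leaf (nat_lit 5471170600838496) (.br (nat_lit 1) (.cons (.br (nat_lit 5) (.cons (.rel (nat_lit 4311745620)) .nil)) .nil)) .leaf))) (nat_lit 5471173539809335) (.br (nat_lit 2) (.cons (.br (nat_lit 5) (.cons (.rel (nat_lit 4362338376)) .nil)) .nil)) (.node (.node (.node .leaf (nat_lit 5471175208134781) (.br (nat_lit 0) (.cons (.br (nat_lit 1) (.cons (.rel (nat_lit 25170960)) .nil)) .nil)) .leaf) (nat_lit 5471175342353009) (.br (nat_lit 2) (.cons (.br (nat_lit 3) (.cons (.rel (nat_lit 335545473)) .nil)) .nil)) (.node .leaf (nat_lit 5471175342353686) (.br (nat_lit 1) (.cons (.br (nat_lit 5) (.cons (.rel (nat_lit 4311785472)) .nil)) .nil)) .leaf)) (nat_lit 5471694525354740) (.br (nat_lit 0) (.cons (.br (nat_lit 1) (.cons (.rel (nat_lit 25165920)) .nil)) .nil)) (.node (.node .leaf (nat_lit 5477838396910853) (.br (nat_lit 1) (.cons (.br (nat_lit 3) (.cons (.rel (nat_lit 553648209)) .nil)) .nil)) .leaf) (nat_lit 5483411255372401) (.br (nat_lit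 0) (.cons (.br (nat_lit 3) (.cons (.rel (nat_lit 272648448)) .nil)) .nil)) (.node .leaf (nat_lit 5483411255380154) (.br (nat_lit 1) (.cons (.br (nat_lit 5) (.cons (.rel (nat_lit 4311761928)) .nil)) .nil)) .leaf))))

/-- refutations 21 -/
def e21 : EX := (.node (.node (.node (.node (.node (.node .leaf (nat_lit 11083077229538085) (.br (nat_lit 0) (.cons (.br (nat_lit 4) (.cons (.rel (nat_lit 1078002690)) .nil)) .nil)) .leaf) (nat_lit 11083077321813278) (.br (nat_lit 2) (.cons (.br (nat_lit 3) (.cons (.rel (nat_lit 335549508)) .nil)) .nil)) .leaf) (nat_lit 11083077442916637) (.br (nat_lit 3) (.cons (.br (nat_lit 4) (.cons (.rel (nat_lit 1342181385)) .nil)) .nil)) (.node .leaf (nat_lit 11083077443447544) (.br (nat_lit 3) (.cons (.br (nat_lit 6) (.cons (.rel (nat_lit 17448309780)) .nil)) .nil)) .leaf)) (nat_lit 11083077445690876) (.br (nat_lit 3) (.cons (.br (nat_lit 4) (.cons (.rel (nat_lit 1342177350)) .nil)) .nil)) (.node (.node (.node .leaf (nat_lit 11083081025383156) (.br (nat_lit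 3) (.cons (.br (nat_lit 4) (.cons (.rel (nat_lit 1342177350)) .nil)) .nil)) .leaf) (nat_lit 11083081131307264) (.br (nat_lit 2) (.cons (.br (nat_lit 0) (.cons (.rel (nat_lit 142610433)) (.cons (.rel (nat_lit 71303301)) .nil))) .nil)) .leaf) (nat_lit 11083601237594167) (.br (nat_lit 1) (.cons (.br (nat_lit 2) (.cons (.rel (nat_lit 83888136)) .nil)) .nil)) (.node .leaf (nat_lit 11084242851201911) (.br (nat_lit 0) (.cons (.br (nat_lit 1) (.cons (.rel (nat_lit 25183233)) .nil)) .nil)) .leaf))) (nat_lit 11084242851769207) (.br (nat_lit 1) (.cons (.br (nat_lit 2) (.cons (.rel (nat_lit 83886117)) .nil)) .nil)) (.node (.node (.node (.node .leaf (nat_lit 11084242854390647) (.br (nat_lit 3) (.cons (.br (nat_lit 4) (.cons (.br (nat_lit 6) (.cons (.br (nat_lit 1) (.cons (.rel (nat_lit 553653249)) (.cons (.rel (nat_lit 17196679185)) (.cons (.rel (nat_lit 553653249)) .nil)))) (.cons (.rel (nat_lit 17448310785)) .nil))) .nil)) .nil)) .leaf) (nat_lit 11085267876291996) (.br (nat_lit 0) (.cons (.br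 (nat_lit 3) (.cons (.rel (nat_lit 273810432)) .nil)) .nil)) .leaf) (nat_lit 11085267876311800) (.br (nat_lit 0) (.cons (.br (nat_lit 3) (.cons (.rel (nat_lit 272630085)) .nil)) .nil)) (.node .leaf (nat_lit 11085267876443497) (.br (nat_lit 2) (.cons (.br (nat_lit 3) (.cons (.rel (nat_lit 335613960)) .nil)) .nil)) .leaf)) (nat_lit 11085267876759702) (.br (nat_lit 2) (.cons (.br (nat_lit 0) (.cons (.rel (nat_lit 71303301)) (.cons (.rel (nat_lit 71311362)) .nil))) .nil)) (.node (.node (.node .leaf (nat_lit 11085267876760439) (.br (nat_lit 2) (.cons (.br (nat_lit 3) (.cons (.rel (nat_lit 335544468)) .nil)) .nil)) .leaf) (nat_lit 11085267876767870) (.br (nat_lit 0) (.cons (.br (nat_lit 2) (.cons (.rel (nat_lit 71311362)) .nil)) .nil)) .leaf) (nat_lit 11085267876768504) (.br (nat_lit 1) (.cons (.br (nat_lit 2) (.cons (.rel (nat_lit 101187840)) .nil)) .nil)) (.node .leaf (nat_lit 11085267876768525) (.br (nat_lit 0) (.cons (.br (nat_lit 3) (.cons (.rel (nat_lit 272630085)) (.cons (.rel (nat_lit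 272648448)) .nil))) .nil)) .leaf)))) (nat_lit 11085267876768631) (.br (nat_lit 1) (.cons (.br (nat_lit 0) (.cons (.rel (nat_lit 22093824)) (.cons (.rel (nat_lit 42221568)) (.cons (.rel (nat_lit 20972928)) .nil)))) (.cons (.br (nat_lit 6) (.cons (.rel (nat_lit 17196650568)) (.cons (.rel (nat_lit 17196654594)) .nil))) .nil))) (.node (.node (.node (.node (.node .leaf (nat_lit 11085267876769029) (.br (nat_lit 2) (.cons (.br (nat_lit 6) (.cons (.rel (nat_lit 17314156548)) .nil)) .nil)) .leaf) (nat_lit 11085267877478586) (.br (nat_lit 1) (.cons (.br (nat_lit 2) (.cons (.rel (nat_lit 83911680)) .nil)) .nil)) .leaf) (nat_lit 11085267877479287) (.br (nat_lit 0) (.cons (.br (nat_lit 3) (.cons (.rel (nat_lit 273219588)) (.cons (.rel (nat_lit 272638338)) .nil))) .nil)) (.node .leaf (nat_lit 11085267877792054) (.br (nat_lit 0) (.cons (.br (nat_lit 1) (.cons (.rel (nat_lit 21635136)) .nil)) .nil)) .leaf)) (nat_lit 11085267877793120) (.br (nat_lit 0) (.cons (.br (nat_lit 1) (.cons (.rel (nat_lit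 20972928)) .nil)) .nil)) (.node (.node (.node .leaf (nat_lit 11085267877978287) (.br (nat_lit 0) (.cons (.br (nat_lit 1) (.cons (.rel (nat_lit 21037380)) .nil)) .nil)) .leaf) (nat_lit 11085267877979542) (.br (nat_lit 0) (.cons (.br (nat_lit 2) (.cons (.rel (nat_lit 71307336)) .nil)) .nil)) .leaf) (nat_lit 11085267879010479) (.br (nat_lit 0) (.cons (.br (nat_lit 1) (.cons (.rel (nat_lit 22020117)) .nil)) .nil)) (.node .leaf (nat_lit 11085268425959574) (.br (nat_lit 2) (.cons (.br (nat_lit 4) (.cons (.rel (nat_lit 2281705728)) .nil)) .nil)) .leaf))) (nat_lit 11085270267522334) (.br (nat_lit 1) (.cons (.br (nat_lit 2) (.cons (.rel (nat_lit 83922948)) .nil)) .nil)) (.node (.node (.node (.node .leaf (nat_lit 11085270268231837) (.br (nat_lit 1) (.cons (.br (nat_lit 3) (.cons (.rel (nat_lit 285233424)) .nil)) .nil)) .leaf) (nat_lit 11085270268232982) (.br (nat_lit 3) (.cons (.br (nat_lit 5) (.cons (.rel (nat_lit 4563472449)) .nil)) .nil)) .leaf) (nat_lit 11090056052271389) (.br (nat_lit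 3) (.cons (.br (nat_lit 5) (.cons (.rel (nat_lit 4563404832)) .nil)) .nil)) (.node .leaf (nat_lit 11090056052271860) (.br (nat_lit 4) (.cons (.br (nat_lit 6) (.cons (.rel (nat_lit 35433485442)) .nil)) .nil)) .leaf)) (nat_lit 11095321682176286) (.br (nat_lit 0) (.cons (.br (nat_lit 2) (.cons (.rel (nat_lit 71311362)) (.cons (.rel (nat_lit 71311362)) .nil))) .nil)) (.node (.node (.node .leaf (nat_lit 11096188116331133) (.br (nat_lit 0) (.cons (.br (nat_lit 2) (.cons (.rel (nat_lit 75759681)) .nil)) .nil)) .leaf) (nat_lit 11096397611838327) (.br (nat_lit 0) (.cons (.br (nat_lit 2) (.cons (.rel (nat_lit 71321664)) .nil)) .nil)) .leaf) (nat_lit 11096477741411610) (.br (nat_lit 1) (.cons (.br (nat_lit 2) (.cons (.rel (nat_lit 83887122)) .nil)) .nil)) (.node .leaf (nat_lit 11096482899947582) (.br (nat_lit 5) (.cons (.br (nat_lit 2) (.cons (.rel (nat_lit 4429189128)) (.cons (.rel (nat_lit 4362080784)) .nil))) .nil)) .leaf)))))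

/-- refutations 22 -/
def e22 : EX := (.node (.node (.node (.node (.node (.node .leaf (nat_lit 11171038159759985) (.br (nat_lit 0) (.cons (.br (nat_lit 1) (.cons (.rel (nat_lit 25170960)) (.cons (.rel (nat_lit 22093824)) .nil))) .nil)) .leaf) (nat_lit 11171038159760165) (.br (nat_lit 0) (.cons (.br (nat_lit 1) (.cons (.rel (nat_lit 22093824)) .nil)) .nil)) (.node .leaf (nat_lit 11171038159760261) (.br (nat_lit 0) (.cons (.br (nat_lit 1) (.cons (.rel (nat_lit 37818372)) .nil)) .nil)) .leaf)) (nat_lit 11171038160470641) (.br (nat_lit 1) (.cons (.br (nat_lit 2) (.cons (.rel (nat_lit 83888136)) (.cons (.rel (nat_lit 152048640)) .nil))) .nil)) (.node (.node .leaf (nat_lit 11171038160470653) (.br (nat_lit 0) (.cons (.br (nat_lit 5) (.cons (.rel (nat_lit 4299296784)) .nil)) .nil)) .leaf) (nat_lit 11171038160470697) (.br (nat_lit 1) (.cons (.br (nat_lit 2) (.cons (.rel (nat_lit 85197888)) .nil)) .nil)) .leaf)) (nat_lit 11171038161799228) (.br (nat_lit 0) (.cons (.br (nat_lit 1) (.cons (.rel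 (nat_lit 20972928)) (.cons (.rel (nat_lit 37748880)) .nil))) (.cons (.br (nat_lit 1) (.cons (.rel (nat_lit 21037380)) (.cons (.rel (nat_lit 42221568)) .nil))) .nil))) (.node (.node (.node .leaf (nat_lit 11171038251563760) (.br (nat_lit 2) (.cons (.br (nat_lit 4) (.cons (.rel (nat_lit 1141133328)) .nil)) .nil)) .leaf) (nat_lit 11171038252034673) (.br (nat_lit 4) (.cons (.br (nat_lit 1) (.cons (.rel (nat_lit 1090527249)) (.cons (.rel (nat_lit 1090520193)) (.cons (.rel (nat_lit 1090527249)) .nil)))) .nil)) .leaf) (nat_lit 11171043410572016) (.br (nat_lit 1) (.cons (.br (nat_lit 2) (.cons (.rel (nat_lit 83888136)) .nil)) .nil)) (.node (.node .leaf (nat_lit 11171043411028150) (.br (nat_lit 1) (.cons (.br (nat_lit 3) (.cons (.rel (nat_lit 286261284)) .nil)) .nil)) .leaf) (nat_lit 11171043931832945) (.br (nat_lit 0) (.cons (.br (nat_lit 1) (.cons (.rel (nat_lit 25170960)) .nil)) .nil)) .leaf))) (nat_lit 11171043933635840) (.br (nat_lit 0) (.cons (.br (nat_lit 1) (.cons (.rel (nat_lit 20972928))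 .nil)) .nil)) (.node (.node (.node (.node .leaf (nat_lit 11171044136642840) (.br (nat_lit 0) (.cons (.br (nat_lit 2) (.cons (.rel (nat_lit 71311362)) (.cons (.rel (nat_lit 142610433)) .nil))) (.cons (.br (nat_lit 2) (.cons (.rel (nat_lit 71323680)) (.cons (.rel (nat_lit 75759681)) .nil))) .nil))) .leaf) (nat_lit 11171044136643461) (.br (nat_lit 4) (.cons (.br (nat_lit 0) (.cons (.rel (nat_lit 1083179328)) (.cons (.rel (nat_lit 1077941268)) .nil))) .nil)) (.node .leaf (nat_lit 11171044137353841) (.br (nat_lit 1) (.cons (.br (nat_lit 2) (.cons (.rel (nat_lit 85262340)) .nil)) .nil)) .leaf)) (nat_lit 11171044137354101) (.br (nat_lit 0) (.cons (.br (nat_lit 2) (.cons (.rel (nat_lit 77594640)) (.cons (.br (nat_lit 1) (.cons (.rel (nat_lit 83888136)) (.cons (.rel (nat_lit 25231377)) (.cons (.rel (nat_lit 20992257)) .nil)))) .nil))) (.cons (.br (nat_lit 3) (.cons (.rel (nat_lit 273155136)) (.cons (.rel (nat_lit 273155136)) .nil))) .nil))) (.node (.node .leaf (nat_lit 11171044137354652)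 (.br (nat_lit 0) (.cons (.br (nat_lit 1) (.cons (.rel (nat_lit 20992257)) (.cons (.rel (nat_lit 22021122)) .nil))) .nil)) .leaf) (nat_lit 11171044137354767) (.br (nat_lit 0) (.cons (.br (nat_lit 1) (.cons (.rel (nat_lit 22020117)) .nil)) .nil)) .leaf)) (nat_lit 11171044137401730) (.br (nat_lit 0) (.cons (.br (nat_lit 2) (.cons (.rel (nat_lit 71434260)) .nil)) .nil)) (.node (.node (.node .leaf (nat_lit 11171044138622981) (.br (nat_lit 1) (.cons (.br (nat_lit 2) (.cons (.rel (nat_lit 83886117)) .nil)) .nil)) .leaf) (nat_lit 11171044139185013) (.br (nat_lit 0) (.cons (.br (nat_lit 4) (.cons (.rel (nat_lit 1077936228)) .nil)) .nil)) .leaf) (nat_lit 11171044139248241) (.br (nat_lit 0) (.cons (.br (nat_lit 1) (.cons (.rel (nat_lit 25493760)) .nil)) .nil)) (.node (.node .leaf (nat_lit 11171356222221074) (.br (nat_lit 1) (.cons (.br (nat_lit 5) (.cons (.rel (nat_lit 8623509504)) .nil)) .nil)) .leaf) (nat_lit 11171519195841137) (.br (nat_lit 1) (.cons (.br (nat_lit 2) (.cons (.rel (nat_lit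 167773188)) .nil)) .nil)) .leaf)))) (nat_lit 11171519430509169) (.br (nat_lit 3) (.cons (.br (nat_lit 2) (.cons (.rel (nat_lit 335676432)) (.cons (.rel (nat_lit 335613960)) .nil))) .nil)) (.node (.node (.node (.node (.node .leaf (nat_lit 11171519430721792) (.br (nat_lit 0) (.cons (.br (nat_lit 6) (.cons (.rel (nat_lit 17190355104)) .nil)) .nil)) .leaf) (nat_lit 11171521800503921) (.br (nat_lit 0) (.cons (.br (nat_lit 2) (.cons (.rel (nat_lit 71434260)) .nil)) .nil)) (.node .leaf (nat_lit 11171521800759921) (.br (nat_lit 3) (.cons (.br (nat_lit 5) (.cons (.rel (nat_lit 4563403782)) .nil)) .nil)) .leaf)) (nat_lit 11173422822910752) (.br (nat_lit 1) (.cons (.br (nat_lit 0) (.cons (.rel (nat_lit 21528576)) (.cons (.rel (nat_lit 22040640)) .nil))) .nil)) (.node (.node .leaf (nat_lit 11173422822910853) (.br (nat_lit 0) (.cons (.br (nat_lit 3) (.cons (.rel (nat_lit 273678468)) .nil)) .nil)) .leaf) (nat_lit 11173422822911389) (.br (nat_lit 2) (.cons (.br (nat_lit 1) (.cons (.rel (nat_lit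 83888136)) (.cons (.rel (nat_lit 83886117)) .nil))) .nil)) .leaf)) (nat_lit 11177578371286252) (.br (nat_lit 2) (.cons (.br (nat_lit 3) (.cons (.rel (nat_lit 335577120)) .nil)) .nil)) (.node (.node (.node .leaf (nat_lit 11177578371542377) (.br (nat_lit 0) (.cons (.br (nat_lit 3) (.cons (.br (nat_lit 5) (.cons (.rel (nat_lit 4563404832)) .nil)) .nil)) .nil)) .leaf) (nat_lit 11177578371542522) (.br (nat_lit 3) (.cons (.br (nat_lit 1) (.cons (.rel (nat_lit 285233424)) (.cons (.br (nat_lit 5) (.cons (.rel (nat_lit 4832887044)) (.cons (.rel (nat_lit 8623509504)) .nil))) .nil))) .nil)) .leaf) (nat_lit 11184395507572796) (.br (nat_lit 2) (.cons (.br (nat_lit 5) (.cons (.rel (nat_lit 4362093057)) .nil)) .nil)) (.node (.node .leaf (nat_lit 11184395508051200) (.br (nat_lit 2) (.cons (.br (nat_lit 0) (.cons (.rel (nat_lit 138543360)) (.cons (.rel (nat_lit 72352260)) .nil))) .nil)) .leaf) (nat_lit 11184395508761201) (.br (nat_lit 0) (.cons (.br (nat_lit 1) (.cons (.rel (nat_lit 42221568)) (.cons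 (.rel (nat_lit 25183233)) .nil))) (.cons (.br (nat_lit 1) (.cons (.rel (nat_lit 21528576)) (.cons (.rel (nat_lit 20992257)) .nil))) .nil))) .leaf))) (nat_lit 11184398779024890) (.br (nat_lit 0) (.cons (.br (nat_lit 6) (.cons (.rel (nat_lit 17184067608)) .nil)) .nil)) (.node (.node (.node (.node .leaf (nat_lit 11184398779293178) (.br (nat_lit 5) (.cons (.br (nat_lit 0) (.cons (.rel (nat_lit 4299162660)) (.cons (.rel (nat_lit 4299169860)) .nil))) .nil)) .leaf) (nat_lit 11184398779352300) (.br (nat_lit 4) (.cons (.br (nat_lit 3) (.cons (.rel (nat_lit 1342177350)) (.cons (.rel (nat_lit 2417033217)) .nil))) .nil)) (.node .leaf (nat_lit 11184398779352320) (.br (nat_lit 0) (.cons (.br (nat_lit 3) (.cons (.rel (nat_lit 272696592)) (.cons (.rel (nat_lit 273678468)) .nil))) (.cons (.br (nat_lit 3) (.cons (.rel (nat_lit 273810432)) (.cons (.rel (nat_lit 272696592)) .nil))) .nil))) .leaf)) (nat_lit 11184398779352425) (.br (nat_lit 2) (.cons (.br (nat_lit 4) (.cons (.br (nat_lit 5) (.cons (.rel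 (nat_lit 5368973313)) (.cons (.rel (nat_lit 10737418500)) .nil))) .nil)) .nil)) (.node (.node .leaf (nat_lit 11184398779352445) (.br (nat_lit 0) (.cons (.br (nat_lit 1) (.cons (.rel (nat_lit 25170960)) (.cons (.rel (nat_lit 21528576)) .nil))) (.cons (.br (nat_lit 1) (.cons (.rel (nat_lit 25165920)) (.cons (.rel (nat_lit 42221568)) .nil))) .nil))) .leaf) (nat_lit 11184398779608300) (.br (nat_lit 4) (.cons (.br (nat_lit 3) (.cons (.rel (nat_lit 1344274692)) (.cons (.rel (nat_lit 2416984068)) (.cons (.br (nat_lit 5) (.cons (.rel (nat_lit 5368973313)) (.cons (.rel (nat_lit 6712983552)) (.cons (.rel (nat_lit 6442516548)) .nil)))) .nil)))) .nil)) .leaf)) (nat_lit 11184398779608320) (.br (nat_lit 0) (.cons (.br (nat_lit 3) (.cons (.rel (nat_lit 273678468)) (.cons (.rel (nat_lit 273810432)) .nil))) (.cons (.br (nat_lit 3) (.cons (.rel (nat_lit 273810432)) (.cons (.rel (nat_lit 272696592)) .nil))) .nil))) (.node (.node (.node .leaf (nat_lit 11184398779608425) (.br (nat_lit 3) (.cons (.br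 (nat_lit 5) (.cons (.rel (nat_lit 4563419265)) (.cons (.rel (nat_lit 4563406992)) (.cons (.rel (nat_lit 4563402777)) .nil)))) (.cons (.br (nat_lit 2) (.cons (.rel (nat_lit 606076929)) (.cons (.rel (nat_lit 335577120)) (.cons (.rel (nat_lit 335564802)) .nil)))) .nil))) .leaf) (nat_lit 11184398779608570) (.br (nat_lit 1) (.cons (.br (nat_lit 4) (.cons (.rel (nat_lit 1090519188)) (.cons (.rel (nat_lit 2181054480)) (.cons (.rel (nat_lit 1108345104)) .nil)))) (.cons (.br (nat_lit 2) (.cons (.rel (nat_lit 83888136)) (.cons (.rel (nat_lit 83906640)) (.cons (.rel (nat_lit 102770688)) .nil)))) .nil))) .leaf) (nat_lit 11184438692603909) (.br (nat_lit 0) (.cons (.br (nat_lit 1) (.cons (.rel (nat_lit 20992257)) .nil)) .nil)) (.node (.node .leaf (nat_lit 11184438692604690) (.br (nat_lit 0) (.cons (.br (nat_lit 1) (.cons (.rel (nat_lit 42221568)) .nil)) .nil)) .leaf) (nat_lit 11184441729281525) (.br (nat_lit 1) (.cons (.br (nat_lit 3) (.cons (.rel (nat_lit 285279552)) .nil)) .nil)) .leaf)))))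

/-- refutations 23 -/
def e23 : EX := (.node (.node (.node (.node (.node (.node .leaf (nat_lit 11206658013849881) (.br (nat_lit 2) (.cons (.br (nat_lit 4) (.cons (.rel (nat_lit 1140859392)) .nil)) .nil)) .leaf) (nat_lit 11207382889773681) (.br (nat_lit 0) (.cons (.br (nat_lit 1) (.cons (.rel (nat_lit 42221568)) .nil)) .nil)) .leaf) (nat_lit 11207382892849777) (.br (nat_lit 2) (.cons (.br (nat_lit 0) (.cons (.rel (nat_lit 75763716)) (.cons (.rel (nat_lit 75759681)) .nil))) .nil)) (.node .leaf (nat_lit 11207383305009777) (.br (nat_lit 2) (.cons (.br (nat_lit 3) (.cons (.rel (nat_lit 335577120)) .nil)) .nil)) .leaf)) (nat_lit 11207388154096503) (.br (nat_lit 2) (.cons (.br (nat_lit 3) (.cons (.rel (nat_lit 335552529)) .nil)) .nil)) (.node (.node (.node .leaf (nat_lit 11211682600991500) (.br (nat_lit 0) (.cons (.br (nat_lit 1) (.cons (.rel (nat_lit 25231377)) .nil)) .nil)) .leaf) (nat_lit 11211682601298201) (.br (nat_lit 6) (.cons (.br (nat_lit 0) (.cons (.rel (nat_lit 17184227328))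 (.cons (.rel (nat_lit 17184064578)) .nil))) .nil)) .leaf) (nat_lit 11211682602009353) (.br (nat_lit 0) (.cons (.br (nat_lit 3) (.cons (.rel (nat_lit 272634120)) .nil)) .nil)) (.node .leaf (nat_lit 11211683016078597) (.br (nat_lit 0) (.cons (.br (nat_lit 1) (.cons (.rel (nat_lit 25493760)) (.cons (.rel (nat_lit 37818372)) .nil))) .nil)) .leaf))) (nat_lit 11211683017246109) (.br (nat_lit 3) (.cons (.br (nat_lit 1) (.cons (.rel (nat_lit 286294080)) (.cons (.rel (nat_lit 285233424)) .nil))) .nil)) (.node (.node (.node (.node .leaf (nat_lit 11212708649220721) (.br (nat_lit 0) (.cons (.br (nat_lit 2) (.cons (.rel (nat_lit 71303301)) .nil)) .nil)) .leaf) (nat_lit 11212708649692037) (.br (nat_lit 2) (.cons (.br (nat_lit 4) (.cons (.rel (nat_lit 1141145601)) .nil)) .nil)) .leaf) (nat_lit 11212708650698789) (.br (nat_lit 2) (.cons (.br (nat_lit 5) (.cons (.rel (nat_lit 4362080784)) .nil)) .nil)) (.node .leaf (nat_lit 11212708651731094) (.br (nat_lit 0) (.cons (.br (nat_lit 2) (.cons (.rel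 (nat_lit 71321664)) .nil)) .nil)) .leaf)) (nat_lit 11212708651731196) (.br (nat_lit 2) (.cons (.br (nat_lit 3) (.cons (.rel (nat_lit 336594432)) .nil)) .nil)) (.node (.node (.node .leaf (nat_lit 11212708652296444) (.br (nat_lit 2) (.cons (.br (nat_lit 3) (.cons (.rel (nat_lit 335544468)) (.cons (.rel (nat_lit 403701762)) .nil))) .nil)) .leaf) (nat_lit 11212708652296817) (.br (nat_lit 2) (.cons (.br (nat_lit 3) (.cons (.rel (nat_lit 335577120)) .nil)) .nil)) .leaf) (nat_lit 11219159690114411) (.br (nat_lit 0) (.cons (.br (nat_lit 2) (.cons (.rel (nat_lit 142610433)) .nil)) .nil)) (.node .leaf (nat_lit 11219159690307734) (.br (nat_lit 2) (.cons (.br (nat_lit 6) (.cons (.rel (nat_lit 17247248400)) .nil)) .nil)) .leaf)))) (nat_lit 11219159691281009) (.br (nat_lit 2) (.cons (.br (nat_lit 6) (.cons (.rel (nat_lit 34493972736)) .nil)) .nil)) (.node (.node (.node (.node (.node .leaf (nat_lit 11219159691636988) (.br (nat_lit 0) (.cons (.br (nat_lit 1) (.cons (.rel (nat_lit 20992257)) .nil))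 .nil)) .leaf) (nat_lit 11219159691636992) (.br (nat_lit 5) (.cons (.br (nat_lit 0) (.cons (.rel (nat_lit 8598323205)) (.cons (.rel (nat_lit 4299165825)) .nil))) .nil)) .leaf) (nat_lit 11219159691638123) (.br (nat_lit 5) (.cons (.br (nat_lit 6) (.cons (.rel (nat_lit 21476413440)) .nil)) .nil)) (.node .leaf (nat_lit 11219159693175036) (.br (nat_lit 0) (.cons (.br (nat_lit 1) (.cons (.rel (nat_lit 20979984)) (.cons (.rel (nat_lit 25170960)) .nil))) (.cons (.br (nat_lit 2) (.cons (.rel (nat_lit 71311362)) (.cons (.rel (nat_lit 142610433)) .nil))) .nil))) .leaf)) (nat_lit 11219159693175409) (.br (nat_lit 3) (.cons (.br (nat_lit 6) (.cons (.rel (nat_lit 17716740624)) (.cons (.rel (nat_lit 34629239808)) .nil))) (.cons (.br (nat_lit 6) (.cons (.rel (nat_lit 17448304740)) (.cons (.rel (nat_lit 17448309780)) .nil))) .nil))) (.node (.node (.node .leaf (nat_lit 11219162873590385) (.br (nat_lit 0) (.cons (.br (nat_lit 6) (.cons (.rel (nat_lit 17184129030)) .nil)) .nil)) .leaf) (nat_lit 11219162873591147)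 (.br (nat_lit 0) (.cons (.br (nat_lit 2) (.cons (.rel (nat_lit 142610433)) .nil)) .nil)) .leaf) (nat_lit 11219162874804849) (.br (nat_lit 1) (.cons (.br (nat_lit 2) (.cons (.rel (nat_lit 83886117)) .nil)) .nil)) (.node .leaf (nat_lit 11219162875113728) (.br (nat_lit 0) (.cons (.br (nat_lit 2) (.cons (.rel (nat_lit 71311362)) .nil)) .nil)) .leaf))) (nat_lit 11219162875114859) (.br (nat_lit 2) (.cons (.br (nat_lit 6) (.cons (.rel (nat_lit 17248550916)) .nil)) .nil)) (.node (.node (.node (.node .leaf (nat_lit 11219164433871473) (.br (nat_lit 6) (.cons (.br (nat_lit 2) (.cons (.rel (nat_lit 17314103364)) (.cons (.rel (nat_lit 17247241344)) (.cons (.rel (nat_lit 34426847328)) .nil)))) .nil)) .leaf) (nat_lit 11219164434327582) (.br (nat_lit 2) (.cons (.br (nat_lit 3) (.cons (.rel (nat_lit 335544468)) .nil)) .nil)) .leaf) (nat_lit 11219164434328177) (.br (nat_lit 2) (.cons (.br (nat_lit 6) (.cons (.rel (nat_lit 17247260673)) (.cons (.rel (nat_lit 17247241344)) .nil))) .nil)) (.node .leaf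 (nat_lit 11219164434328329) (.br (nat_lit 3) (.cons (.br (nat_lit 6) (.cons (.rel (nat_lit 17716740624)) .nil)) .nil)) .leaf)) (nat_lit 11219164434328837) (.br (nat_lit 2) (.cons (.br (nat_lit 3) (.cons (.rel (nat_lit 335545473)) .nil)) .nil)) (.node (.node (.node .leaf (nat_lit 11219164435394816) (.br (nat_lit 6) (.cons (.br (nat_lit 0) (.cons (.rel (nat_lit 17184081936)) (.cons (.rel (nat_lit 17184068613)) .nil))) .nil)) .leaf) (nat_lit 11219164435395947) (.br (nat_lit 2) (.cons (.br (nat_lit 5) (.cons (.rel (nat_lit 4429203456)) .nil)) .nil)) .leaf) (nat_lit 11219164435597937) (.br (nat_lit 0) (.cons (.br (nat_lit 2) (.cons (.rel (nat_lit 75763716)) .nil)) .nil)) (.node .leaf (nat_lit 11219559436773661) (.br (nat_lit 2) (.cons (.br (nat_lit 6) (.cons (.rel (nat_lit 17248027920)) .nil)) .nil)) .leaf)))))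

/-- refutations 24 -/
def e24 : EX := (.node (.node (.node (.node .leaf (nat_lit 11529585720146850) (.br (nat_lit 1) (.cons (.br (nat_lit 4) (.cons (.rel (nat_lit 1090519188)) .nil)) .nil)) .leaf) (nat_lit 11530831365520765) (.br (nat_lit 2) (.cons (.br (nat_lit 3) (.cons (.rel (nat_lit 335814912)) .nil)) .nil)) (.node .leaf (nat_lit 11530831365990405) (.br (nat_lit 1) (.cons (.br (nat_lit 2) (.cons (.rel (nat_lit 83887122)) .nil)) .nil)) .leaf)) (nat_lit 11530831366963205) (.br (nat_lit 1) (.cons (.br (nat_lit 3) (.cons (.rel (nat_lit 301999125)) .nil)) .nil)) (.node (.node .leaf (nat_lit 11530831368529925) (.br (nat_lit 1) (.cons (.br (nat_lit 3) (.cons (.rel (nat_lit 302060544)) .nil)) .nil)) .leaf) (nat_lit 11533663531546756) (.br (nat_lit 3) (.cons (.br (nat_lit 4) (.cons (.rel (nat_lit 1610874897)) .nil)) .nil)) (.node .leaf (nat_lit 11533663533076612) (.br (nat_lit 1) (.cons (.br (nat_lit 4) (.cons (.rel (nat_lit 1090551840)) .nil)) .nil)) .leaf))) (nat_lit 11534907795514129)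 (.br (nat_lit 0) (.cons (.br (nat_lit 3) (.cons (.rel (nat_lit 272634120)) .nil)) .nil)) (.node (.node (.node .leaf (nat_lit 11535821995875741) (.br (nat_lit 1) (.cons (.br (nat_lit 2) (.cons (.rel (nat_lit 83888136)) .nil)) .nil)) .leaf) (nat_lit 11535822015171185) (.br (nat_lit 1) (.cons (.br (nat_lit 4) (.cons (.rel (nat_lit 1090527249)) .nil)) .nil)) (.node .leaf (nat_lit 11536285869599030) (.br (nat_lit 1) (.cons (.br (nat_lit 2) (.cons (.rel (nat_lit 83887122)) .nil)) .nil)) .leaf)) (nat_lit 11536285869599345) (.br (nat_lit 0) (.cons (.br (nat_lit 1) (.cons (.rel (nat_lit 25231377)) .nil)) .nil)) (.node (.node .leaf (nat_lit 11536285871841905) (.br (nat_lit 1) (.cons (.br (nat_lit 3) (.cons (.rel (nat_lit 286524672)) .nil)) .nil)) .leaf) (nat_lit 11536288176466205) (.br (nat_lit 2) (.cons (.br (nat_lit 3) (.cons (.rel (nat_lit 336594432)) .nil)) .nil)) .leaf)))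

/-- refutations 25 -/
def e25 : EX := (.node (.node (.node (.node (.node .leaf (nat_lit 11558066252279868) (.br (nat_lit 1) (.cons (.br (nat_lit 2) (.cons (.rel (nat_lit 83888136)) (.cons (.rel (nat_lit 83911680)) .nil))) (.cons (.br (nat_lit 2) (.cons (.rel (nat_lit 83888136)) (.cons (.rel (nat_lit 83888136)) .nil))) .nil))) .leaf) (nat_lit 11558066252280464) (.br (nat_lit 0) (.cons (.br (nat_lit 2) (.cons (.rel (nat_lit 142610433)) (.cons (.rel (nat_lit 71307336)) .nil))) .nil)) .leaf) (nat_lit 11558066252280734) (.br (nat_lit 2) (.cons (.br (nat_lit 5) (.cons (.rel (nat_lit 4362338376)) (.cons (.rel (nat_lit 4362342402)) .nil))) (.cons (.br (nat_lit 5) (.cons (.rel (nat_lit 4362405888)) (.cons (.rel (nat_lit 4363141440)) .nil))) .nil))) (.node (.node .leaf (nat_lit 11558066252720254) (.br (nat_lit 2) (.cons (.br (nat_lit 5) (.cons (.rel (nat_lit 4362354720)) (.cons (.rel (nat_lit 4362080784)) .nil))) .nil)) .leaf) (nat_lit 11558066252737137) (.br (nat_lit 2) (.cons (.br (nat_lit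 4) (.cons (.rel (nat_lit 1141179456)) (.cons (.rel (nat_lit 1141179456)) .nil))) .nil)) .leaf)) (nat_lit 11558066252737317) (.br (nat_lit 0) (.cons (.br (nat_lit 2) (.cons (.rel (nat_lit 142610433)) .nil)) .nil)) (.node (.node (.node .leaf (nat_lit 11558066252737413) (.br (nat_lit 0) (.cons (.br (nat_lit 2) (.cons (.rel (nat_lit 138543360)) .nil)) .nil)) .leaf) (nat_lit 11558066253447179) (.br (nat_lit 0) (.cons (.br (nat_lit 2) (.cons (.rel (nat_lit 142610433)) .nil)) .nil)) .leaf) (nat_lit 11558066253447954) (.br (nat_lit 0) (.cons (.br (nat_lit 2) (.cons (.rel (nat_lit 71335953)) .nil)) .nil)) (.node .leaf (nat_lit 11558066255278836) (.br (nat_lit 2) (.cons (.br (nat_lit 4) (.cons (.rel (nat_lit 1141145601)) .nil)) .nil)) .leaf))) (nat_lit 11558069113252465) (.br (nat_lit 0) (.cons (.br (nat_lit 1) (.cons (.rel (nat_lit 22021122)) .nil)) .nil)) (.node (.node (.node (.node .leaf (nat_lit 11558069113252741) (.br (nat_lit 0) (.cons (.br (nat_lit 2) (.cons (.rel (nat_lit 142610433))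 .nil)) .nil)) .leaf) (nat_lit 11558547381348977) (.br (nat_lit 2) (.cons (.br (nat_lit 4) (.cons (.rel (nat_lit 1141899525)) .nil)) .nil)) .leaf) (nat_lit 11559225893450384) (.br (nat_lit 0) (.cons (.br (nat_lit 2) (.cons (.rel (nat_lit 71307336)) .nil)) .nil)) (.node .leaf (nat_lit 11559225893907237) (.br (nat_lit 0) (.cons (.br (nat_lit 3) (.cons (.rel (nat_lit 272648448)) .nil)) .nil)) .leaf)) (nat_lit 11564551653092084) (.br (nat_lit 0) (.cons (.br (nat_lit 1) (.cons (.rel (nat_lit 21528576)) .nil)) .nil)) (.node (.node (.node .leaf (nat_lit 11564551653353509) (.br (nat_lit 0) (.cons (.br (nat_lit 1) (.cons (.rel (nat_lit 42221568)) .nil)) .nil)) .leaf) (nat_lit 11571174492452924) (.br (nat_lit 0) (.cons (.br (nat_lit 1) (.cons (.rel (nat_lit 42221568)) (.cons (.rel (nat_lit 20992257)) .nil))) .nil)) .leaf) (nat_lit 11571174492924709) (.br (nat_lit 0) (.cons (.br (nat_lit 2) (.cons (.rel (nat_lit 142610433)) .nil)) .nil)) (.node .leaf (nat_lit 11571174495529585) (.br (nat_lit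 1) (.cons (.br (nat_lit 2) (.cons (.rel (nat_lit 83888136)) .nil)) .nil)) .leaf))))

/-- refutations 26 -/
def e26 : EX := (.node (.node (.node .leaf (nat_lit 11628440877329645) (.br (nat_lit 1) (.cons (.br (nat_lit 5) (.cons (.rel (nat_lit 4311746625)) .nil)) .nil)) .leaf) (nat_lit 11628440878140828) (.br (nat_lit 1) (.cons (.br (nat_lit 2) (.cons (.rel (nat_lit 83886117)) .nil)) .nil)) (.node .leaf (nat_lit 11628440879841317) (.br (nat_lit 1) (.cons (.br (nat_lit 2) (.cons (.rel (nat_lit 83886117)) .nil)) .nil)) .leaf)) (nat_lit 11628440974508657) (.br (nat_lit 0) (.cons (.br (nat_lit 1) (.cons (.rel (nat_lit 20979984)) .nil)) .nil)) (.node (.node .leaf (nat_lit 11628440974509468) (.br (nat_lit 0) (.cons (.br (nat_lit 3) (.cons (.rel (nat_lit 272793888)) (.cons (.rel (nat_lit 541102080)) .nil))) .nil)) .leaf) (nat_lit 11629568978042917) (.br (nat_lit 0) (.cons (.br (nat_lit 3) (.cons (.rel (nat_lit 272696592)) .nil)) .nil)) (.node .leaf (nat_lit 11635104435203484) (.br (nat_lit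 0) (.cons (.br (nat_lit 1) (.cons (.rel (nat_lit 25170960)) .nil)) .nil)) .leaf)))

/-- refutations 27 -/
def e27 : EX := (.node (.node (.node (.node (.node .leaf (nat_lit 11646027275233306) (.br (nat_lit 1) (.cons (.br (nat_lit 2) (.cons (.rel (nat_lit 167773188)) .nil)) .nil)) .leaf) (nat_lit 11646027275233536) (.br (nat_lit 2) (.cons (.br (nat_lit 6) (.cons (.rel (nat_lit 34426864641)) .nil)) .nil)) .leaf) (nat_lit 11646027275234057) (.br (nat_lit 3) (.cons (.br (nat_lit 5) (.cons (.rel (nat_lit 4563402777)) (.cons (.rel (nat_lit 4563402777)) .nil))) .nil)) (.node .leaf (nat_lit 11646027275944713) (.br (nat_lit 3) (.cons (.br (nat_lit 0) (.cons (.rel (nat_lit 273219588)) (.cons (.rel (nat_lit 272648448)) (.cons (.rel (nat_lit 272648448)) .nil)))) .nil)) .leaf)) (nat_lit 11646027276308506) (.br (nat_lit 1) (.cons (.br (nat_lit 3) (.cons (.rel (nat_lit 285344004)) .nil)) .nil)) (.node (.node (.node .leaf (nat_lit 11646027277475866) (.br (nat_lit 1) (.cons (.br (nat_lit 2) (.cons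 (.rel (nat_lit 167773188)) .nil)) .nil)) .leaf) (nat_lit 11646030461249792) (.br (nat_lit 2) (.cons (.br (nat_lit 3) (.cons (.rel (nat_lit 335552529)) .nil)) .nil)) .leaf) (nat_lit 11646033058723052) (.br (nat_lit 3) (.cons (.br (nat_lit 6) (.cons (.rel (nat_lit 34896625728)) .nil)) .nil)) (.node .leaf (nat_lit 11646033058723353) (.br (nat_lit 0) (.cons (.br (nat_lit 1) (.cons (.rel (nat_lit 22020117)) .nil)) .nil)) .leaf))) (nat_lit 11653760728298774) (.br (nat_lit 0) (.cons (.br (nat_lit 1) (.cons (.rel (nat_lit 37748880)) .nil)) .nil)) (.node (.node (.node (.node .leaf (nat_lit 11659183623632409) (.br (nat_lit 1) (.cons (.br (nat_lit 3) (.cons (.rel (nat_lit 286261284)) (.cons (.rel (nat_lit 570691584)) .nil))) (.cons (.br (nat_lit 6) (.cons (.rel (nat_lit 34393296897)) (.cons (.rel (nat_lit 34393296897)) (.cons (.rel (nat_lit 17197695492)) .nil)))) .nil))) .leaf) (nat_lit 11659183624087734) (.br (nat_lit 0) (.cons (.br (nat_lit 1) (.cons (.rel (nat_lit 22093824)) .nil)) .nil))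 .leaf) (nat_lit 11659183624798464) (.br (nat_lit 6) (.cons (.br (nat_lit 1) (.cons (.rel (nat_lit 17196729348)) (.cons (.rel (nat_lit 17196778497)) .nil))) .nil)) (.node .leaf (nat_lit 11659183624799468) (.br (nat_lit 1) (.cons (.br (nat_lit 2) (.cons (.rel (nat_lit 83888136)) .nil)) .nil)) .leaf)) (nat_lit 11659183624799645) (.br (nat_lit 1) (.cons (.br (nat_lit 5) (.cons (.rel (nat_lit 8623509504)) .nil)) .nil)) (.node (.node (.node .leaf (nat_lit 11659184248583404) (.br (nat_lit 0) (.cons (.br (nat_lit 3) (.cons (.rel (nat_lit 276824082)) .nil)) .nil)) .leaf) (nat_lit 11659184248583581) (.br (nat_lit 1) (.cons (.br (nat_lit 3) (.cons (.rel (nat_lit 286261284)) (.cons (.rel (nat_lit 286261284)) .nil))) (.cons (.br (nat_lit 3) (.cons (.rel (nat_lit 285245697)) (.cons (.rel (nat_lit 285245697)) .nil))) .nil))) .leaf) (nat_lit 11659184249039104) (.br (nat_lit 0) (.cons (.br (nat_lit 1) (.cons (.rel (nat_lit 22040640)) .nil)) .nil)) (.node .leaf (nat_lit 11659184249750941) (.br (nat_lit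 1) (.cons (.br (nat_lit 3) (.cons (.rel (nat_lit 570691584)) .nil)) .nil)) .leaf))))

/-- refutations 28 -/
def e28 : EX := (.node (.node (.node (.node (.node (.node .leaf (nat_lit 11892317879385589) (.br (nat_lit 5) (.cons (.br (nat_lit 6) (.cons (.rel (nat_lit 38654738433)) .nil)) .nil)) .leaf) (nat_lit 11892317879398656) (.br (nat_lit 1) (.cons (.br (nat_lit 5) (.cons (.rel (nat_lit 4311826560)) .nil)) .nil)) .leaf) (nat_lit 11892317879399025) (.br (nat_lit 6) (.cons (.br (nat_lit 1) (.cons (.rel (nat_lit 17196646533)) (.cons (.rel (nat_lit 17196654594)) (.cons (.rel (nat_lit 17196646533)) .nil)))) .nil)) (.node (.node .leaf (nat_lit 11892317879399326) (.br (nat_lit 4) (.cons (.br (nat_lit 1) (.cons (.rel (nat_lit 1091569152)) (.cons (.rel (nat_lit 1109458944)) .nil))) .nil)) .leaf) (nat_lit 11892317879399925) (.br (nat_lit 1) (.cons (.br (nat_lit 6) (.cons (.rel (nat_lit 34376515905)) (.cons (.rel (nat_lit 34376515905)) .nil))) (.cons (.br (nat_lit 2) (.cons (.rel (nat_lit 83887122))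 (.cons (.rel (nat_lit 83888136)) (.cons (.rel (nat_lit 83888136)) .nil)))) .nil))) .leaf)) (nat_lit 11892317879399961) (.br (nat_lit 1) (.cons (.br (nat_lit 6) (.cons (.rel (nat_lit 34393296897)) .nil)) .nil)) (.node (.node (.node .leaf (nat_lit 11892317879528049) (.br (nat_lit 1) (.cons (.br (nat_lit 2) (.cons (.rel (nat_lit 101187840)) .nil)) .nil)) .leaf) (nat_lit 11892317879529647) (.br (nat_lit 2) (.cons (.br (nat_lit 5) (.cons (.rel (nat_lit 4362405888)) .nil)) .nil)) .leaf) (nat_lit 11892317879530097) (.br (nat_lit 2) (.cons (.br (nat_lit 3) (.cons (.rel (nat_lit 335544468)) (.cons (.rel (nat_lit 335577120)) .nil))) .nil)) (.node .leaf (nat_lit 11892317879592986) (.br (nat_lit 2) (.cons (.br (nat_lit 5) (.cons (.rel (nat_lit 4362338376)) .nil)) .nil)) .leaf))) (nat_lit 11892317879593135) (.br (nat_lit 2) (.cons (.br (nat_lit 3) (.cons (.rel (nat_lit 335814912)) .nil)) .nil)) (.node (.node (.node (.node .leaf (nat_lit 11892317879855134) (.br (nat_lit 3) (.cons (.br (nat_lit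 1) (.cons (.rel (nat_lit 286347264)) (.cons (.rel (nat_lit 286347264)) .nil))) .nil)) .leaf) (nat_lit 11892317879855729) (.br (nat_lit 1) (.cons (.br (nat_lit 6) (.cons (.rel (nat_lit 17196650568)) (.cons (.rel (nat_lit 34393298964)) .nil))) (.cons (.br (nat_lit 6) (.cons (.rel (nat_lit 17196718080)) (.cons (.rel (nat_lit 34393296897)) .nil))) .nil))) .leaf) (nat_lit 11892317879855856) (.br (nat_lit 1) (.cons (.br (nat_lit 6) (.cons (.rel (nat_lit 17196718080)) .nil)) .nil)) (.node (.node .leaf (nat_lit 11892317879855881) (.br (nat_lit 3) (.cons (.br (nat_lit 6) (.cons (.rel (nat_lit 17448337536)) (.cons (.rel (nat_lit 17448337536)) .nil))) (.cons (.br (nat_lit 6) (.cons (.rel (nat_lit 17448443904)) (.cons (.rel (nat_lit 17448304740)) .nil))) .nil))) .leaf) (nat_lit 11892317879856406) (.br (nat_lit 1) (.cons (.br (nat_lit 6) (.cons (.br (nat_lit 3) (.cons (.rel (nat_lit 34629239808)) (.cons (.rel (nat_lit 34628174112)) .nil))) (.cons (.rel (nat_lit 17197695492)) .nil))) .nil)) .leaf))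 (nat_lit 11892317880565790) (.br (nat_lit 3) (.cons (.br (nat_lit 5) (.cons (.rel (nat_lit 4563502080)) .nil)) .nil)) (.node (.node (.node .leaf (nat_lit 11892317880566537) (.br (nat_lit 3) (.cons (.br (nat_lit 2) (.cons (.rel (nat_lit 604307472)) (.cons (.rel (nat_lit 335676432)) .nil))) .nil)) .leaf) (nat_lit 11892317880604698) (.br (nat_lit 0) (.cons (.br (nat_lit 3) (.cons (.rel (nat_lit 273219588)) (.cons (.rel (nat_lit 272634120)) .nil))) (.cons (.br (nat_lit 3) (.cons (.rel (nat_lit 272634120)) (.cons (.rel (nat_lit 276848640)) .nil))) .nil))) .leaf) (nat_lit 11892317880604847) (.br (nat_lit 0) (.cons (.br (nat_lit 2) (.cons (.rel (nat_lit 71598336)) .nil)) .nil)) (.node .leaf (nat_lit 11892317880605604) (.br (nat_lit 4) (.cons (.br (nat_lit 5) (.cons (.rel (nat_lit 5369053248)) .nil)) .nil)) .leaf)))) (nat_lit 11892317880922138) (.br (nat_lit 6) (.cons (.br (nat_lit 2) (.cons (.rel (nat_lit 17247305796)) (.cons (.rel (nat_lit 34426864641)) .nil))) .nil)) (.node (.node (.node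 (.node (.node .leaf (nat_lit 11892317880922368) (.br (nat_lit 0) (.cons (.br (nat_lit 2) (.cons (.rel (nat_lit 71598336)) .nil)) .nil)) .leaf) (nat_lit 11892317880922868) (.br (nat_lit 0) (.cons (.br (nat_lit 1) (.cons (.rel (nat_lit 42221568)) .nil)) .nil)) .leaf) (nat_lit 11892317880922889) (.br (nat_lit 5) (.cons (.br (nat_lit 2) (.cons (.rel (nat_lit 4362093057)) (.cons (.rel (nat_lit 4363194624)) (.cons (.rel (nat_lit 4362338376)) .nil)))) .nil)) (.node (.node .leaf (nat_lit 11892317881124890) (.br (nat_lit 4) (.cons (.br (nat_lit 6) (.cons (.rel (nat_lit 18253873221)) .nil)) .nil)) .leaf) (nat_lit 11892317881125489) (.br (nat_lit 2) (.cons (.br (nat_lit 3) (.cons (.rel (nat_lit 335628288)) .nil)) .nil)) .leaf)) (nat_lit 11892317881126389) (.br (nat_lit 1) (.cons (.br (nat_lit 2) (.cons (.rel (nat_lit 83906640)) .nil)) .nil)) (.node (.node (.node .leaf (nat_lit 11892317881181421) (.br (nat_lit 1) (.cons (.br (nat_lit 3) (.cons (.rel (nat_lit 285745152)) .nil)) .nil)) .leaf)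 (nat_lit 11892317881835772) (.br (nat_lit 3) (.cons (.br (nat_lit 4) (.cons (.rel (nat_lit 2684358720)) .nil)) .nil)) .leaf) (nat_lit 11892317882097690) (.br (nat_lit 6) (.cons (.br (nat_lit 2) (.cons (.rel (nat_lit 17247305796)) (.cons (.rel (nat_lit 17247241344)) (.cons (.rel (nat_lit 34426847328)) .nil)))) (.cons (.br (nat_lit 1) (.cons (.rel (nat_lit 17196664896)) (.cons (.rel (nat_lit 17196646533)) (.cons (.rel (nat_lit 17196941568)) .nil)))) .nil))) (.node .leaf (nat_lit 11892317882460186) (.br (nat_lit 6) (.cons (.br (nat_lit 2) (.cons (.rel (nat_lit 17247241344)) (.cons (.rel (nat_lit 17316725760)) .nil))) .nil)) .leaf))) (nat_lit 11892318024705551) (.br (nat_lit 0) (.cons (.br (nat_lit 1) (.cons (.rel (nat_lit 21528576)) .nil)) .nil)) (.node (.node (.node (.node .leaf (nat_lit 11892320629367096) (.br (nat_lit 1) (.cons (.br (nat_lit 2) (.cons (.rel (nat_lit 83888136)) .nil)) .nil)) .leaf) (nat_lit 11899018028837616) (.br (nat_lit 1) (.cons (.br (nat_lit 5) (.cons (.rel (nat_lit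 4311750660)) .nil)) .nil)) .leaf) (nat_lit 11899018029547550) (.br (nat_lit 3) (.cons (.br (nat_lit 5) (.cons (.rel (nat_lit 4563423300)) .nil)) .nil)) (.node .leaf (nat_lit 11899018031079450) (.br (nat_lit 2) (.cons (.br (nat_lit 3) (.cons (.rel (nat_lit 335676432)) .nil)) .nil)) .leaf)) (nat_lit 11899018031080176) (.br (nat_lit 0) (.cons (.br (nat_lit 3) (.cons (.rel (nat_lit 272648448)) .nil)) .nil)) (.node (.node (.node .leaf (nat_lit 11900328857433349) (.br (nat_lit 1) (.cons (.br (nat_lit 2) (.cons (.rel (nat_lit 85197888)) (.cons (.rel (nat_lit 151257600)) .nil))) .nil)) .leaf) (nat_lit 11905471819228397) (.br (nat_lit 1) (.cons (.br (nat_lit 2) (.cons (.rel (nat_lit 83918913)) .nil)) .nil)) .leaf) (nat_lit 11905721451619815) (.br (nat_lit 3) (.cons (.br (nat_lit 5) (.cons (.rel (nat_lit 4563472449)) .nil)) .nil)) (.node .leaf (nat_lit 11905724406361596) (.br (nat_lit 0) (.cons (.br (nat_lit 3) (.cons (.rel (nat_lit 273711120)) .nil)) .nil)) .leaf)))))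

/-- refutations 29 -/
def e29 : EX := (.node (.node (.node (.node (.node (.node (.node (.node .leaf (nat_lit 13194139785537686) (.br (nat_lit 2) (.cons (.br (nat_lit 3) (.cons (.rel (nat_lit 604259328)) .nil)) .nil)) .leaf) (nat_lit 13194139785553925) (.br (nat_lit 2) (.cons (.br (nat_lit 3) (.cons (.rel (nat_lit 336594432)) (.cons (.rel (nat_lit 335552529)) .nil))) (.cons (.br (nat_lit 3) (.cons (.rel (nat_lit 335552529)) (.cons (.rel (nat_lit 671105040)) .nil))) .nil))) .leaf) (nat_lit 13194139785555445) (.br (nat_lit 2) (.cons (.br (nat_lit 3) (.cons (.rel (nat_lit 335545473)) .nil)) .nil)) (.node (.node .leaf (nat_lit 13194139785555452) (.br (nat_lit 2) (.cons (.br (nat_lit 3) (.cons (.rel (nat_lit 335545473)) (.cons (.rel (nat_lit 336667137)) .nil))) .nil)) .leaf) (nat_lit 13194139786530300) (.br (nat_lit 1) (.cons (.br (nat_lit 3) (.cons (.rel (nat_lit 553653249)) .nil)) .nil)) .leaf)) (nat_lit 13194139786629880) (.br (nat_lit 0) (.cons (.br (nat_lit 3) (.cons (.rel (nat_lit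 272696592)) .nil)) .nil)) (.node (.node (.node .leaf (nat_lit 13194139787796485) (.br (nat_lit 3) (.cons (.br (nat_lit 4) (.cons (.rel (nat_lit 1342242852)) (.cons (.rel (nat_lit 1342178400)) .nil))) .nil)) .leaf) (nat_lit 13194139787798005) (.br (nat_lit 0) (.cons (.br (nat_lit 2) (.cons (.rel (nat_lit 71303301)) .nil)) .nil)) .leaf) (nat_lit 13194139787798012) (.br (nat_lit 2) (.cons (.br (nat_lit 4) (.cons (.rel (nat_lit 1141899525)) .nil)) .nil)) (.node .leaf (nat_lit 13194140099649562) (.br (nat_lit 0) (.cons (.br (nat_lit 2) (.cons (.rel (nat_lit 71303301)) (.cons (.rel (nat_lit 71435265)) .nil))) (.cons (.br (nat_lit 5) (.cons (.rel (nat_lit 8598323205)) (.cons (.rel (nat_lit 4299243600)) .nil))) .nil))) .leaf))) (nat_lit 13194140099651061) (.br (nat_lit 5) (.cons (.br (nat_lit 6) (.cons (.rel (nat_lit 42949674240)) (.cons (.rel (nat_lit 21475115136)) .nil))) (.cons (.br (nat_lit 0) (.cons (.rel (nat_lit 4299163665)) (.cons (.rel (nat_lit 4299243600)) (.cons (.rel (nat_lit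 4299195456)) .nil)))) .nil))) (.node (.node (.node (.node .leaf (nat_lit 13194140100117105) (.br (nat_lit 0) (.cons (.br (nat_lit 2) (.cons (.rel (nat_lit 142610433)) .nil)) .nil)) .leaf) (nat_lit 13194140100128220) (.br (nat_lit 1) (.cons (.br (nat_lit 2) (.cons (.rel (nat_lit 83952768)) .nil)) .nil)) .leaf) (nat_lit 13194140100128245) (.br (nat_lit 6) (.cons (.br (nat_lit 0) (.cons (.rel (nat_lit 17184227328)) (.cons (.rel (nat_lit 34365046785)) (.cons (.rel (nat_lit 17184227328)) (.cons (.rel (nat_lit 34368208896)) .nil))))) (.cons (.br (nat_lit 5) (.cons (.rel (nat_lit 21475168320)) (.cons (.rel (nat_lit 21475115136)) (.cons (.rel (nat_lit 21474839040)) (.cons (.rel (nat_lit 42949674240)) .nil))))) .nil))) (.node (.node .leaf (nat_lit 13194140100837632) (.br (nat_lit 4) (.cons (.br (nat_lit 5) (.cons (.rel (nat_lit 10737418500)) .nil)) .nil)) .leaf) (nat_lit 13194140100838057) (.br (nat_lit 2) (.cons (.br (nat_lit 6) (.cons (.rel (nat_lit 17247241344)) (.cons (.rel (nat_lit 34493972736))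 .nil))) .nil)) .leaf)) (nat_lit 13194140101194353) (.br (nat_lit 2) (.cons (.br (nat_lit 5) (.cons (.rel (nat_lit 4362342402)) .nil)) .nil)) (.node (.node (.node .leaf (nat_lit 13194140102231541) (.br (nat_lit 2) (.cons (.br (nat_lit 4) (.cons (.rel (nat_lit 1141179456)) .nil)) .nil)) .leaf) (nat_lit 13194140192402908) (.br (nat_lit 1) (.cons (.br (nat_lit 2) (.cons (.rel (nat_lit 84017220)) .nil)) .nil)) .leaf) (nat_lit 13194140193151601) (.br (nat_lit 2) (.cons (.br (nat_lit 3) (.cons (.rel (nat_lit 335628288)) .nil)) .nil)) (.node .leaf (nat_lit 13194140193151753) (.br (nat_lit 2) (.cons (.br (nat_lit 6) (.cons (.rel (nat_lit 17315397633)) (.cons (.rel (nat_lit 34493957445)) .nil))) .nil)) .leaf)))) (nat_lit 13194140193469041) (.br (nat_lit 5) (.cons (.br (nat_lit 6) (.cons (.rel (nat_lit 21475098648)) .nil)) .nil)) (.node (.node (.node (.node (.node .leaf (nat_lit 13194140195014133) (.br (nat_lit 2) (.cons (.br (nat_lit 4) (.cons (.rel (nat_lit 1141133328)) .nil)) .nil)) .leaf)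 (nat_lit 13194140821068528) (.br (nat_lit 3) (.cons (.br (nat_lit 0) (.cons (.rel (nat_lit 272648448)) (.cons (.rel (nat_lit 272648448)) .nil))) .nil)) .leaf) (nat_lit 13194140821285149) (.br (nat_lit 0) (.cons (.br (nat_lit 1) (.cons (.rel (nat_lit 42221568)) .nil)) .nil)) (.node (.node .leaf (nat_lit 13194140821285666) (.br (nat_lit 1) (.cons (.br (nat_lit 5) (.cons (.rel (nat_lit 4311785472)) .nil)) .nil)) .leaf) (nat_lit 13194140822614768) (.br (nat_lit 2) (.cons (.br (nat_lit 3) (.cons (.rel (nat_lit 335544468)) .nil)) .nil)) .leaf)) (nat_lit 13194140824088582) (.br (nat_lit 0) (.cons (.br (nat_lit 2) (.cons (.rel (nat_lit 71321664)) .nil)) .nil)) (.node (.node (.node .leaf (nat_lit 13194142281164827) (.br (nat_lit 1) (.cons (.br (nat_lit 2) (.cons (.rel (nat_lit 101187840)) .nil)) .nil)) .leaf) (nat_lit 13194142281165085) (.br (nat_lit 3) (.cons (.br (nat_lit 4) (.cons (.rel (nat_lit 1342177350)) .nil)) .nil)) .leaf) (nat_lit 13194142281978612) (.br (nat_lit 1) (.cons (.br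 (nat_lit 2) (.cons (.rel (nat_lit 83911680)) .nil)) .nil)) (.node .leaf (nat_lit 13194142283407645) (.br (nat_lit 3) (.cons (.br (nat_lit 1) (.cons (.rel (nat_lit 302007360)) (.cons (.rel (nat_lit 302120961)) .nil))) .nil)) .leaf))) (nat_lit 13194142704465122) (.br (nat_lit 0) (.cons (.br (nat_lit 3) (.cons (.rel (nat_lit 272648448)) .nil)) .nil)) (.node (.node (.node (.node .leaf (nat_lit 13194142704789685) (.br (nat_lit 0) (.cons (.br (nat_lit 1) (.cons (.rel (nat_lit 21037380)) .nil)) .nil)) .leaf) (nat_lit 13194142705539324) (.br (nat_lit 2) (.cons (.br (nat_lit 3) (.cons (.rel (nat_lit 335552529)) .nil)) .nil)) .leaf) (nat_lit 13194142705764409) (.br (nat_lit 0) (.cons (.br (nat_lit 2) (.cons (.rel (nat_lit 71303301)) .nil)) .nil)) (.node (.node .leaf (nat_lit 13194142707332572) (.br (nat_lit 2) (.cons (.br (nat_lit 5) (.cons (.rel (nat_lit 4362342402)) (.cons (.rel (nat_lit 4429185093)) .nil))) (.cons (.br (nat_lit 5) (.cons (.rel (nat_lit 4429203456)) (.cons (.rel (nat_lit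 4429185093)) .nil))) .nil))) .leaf) (nat_lit 13194142725282102) (.br (nat_lit 2) (.cons (.br (nat_lit 3) (.cons (.rel (nat_lit 671105040)) .nil)) .nil)) .leaf)) (nat_lit 13194142725285276) (.br (nat_lit 0) (.cons (.br (nat_lit 2) (.cons (.rel (nat_lit 71374848)) .nil)) .nil)) (.node (.node (.node .leaf (nat_lit 13194142725305221) (.br (nat_lit 0) (.cons (.br (nat_lit 1) (.cons (.rel (nat_lit 22282500)) .nil)) .nil)) .leaf) (nat_lit 13194142725305246) (.br (nat_lit 1) (.cons (.br (nat_lit 3) (.cons (.rel (nat_lit 286294080)) .nil)) .nil)) .leaf) (nat_lit 13194142725761950) (.br (nat_lit 2) (.cons (.br (nat_lit 6) (.cons (.rel (nat_lit 34495074306)) .nil)) .nil)) (.node .leaf (nat_lit 13194142725762585) (.br (nat_lit 2) (.cons (.br (nat_lit 3) (.cons (.rel (nat_lit 604307472)) (.cons (.rel (nat_lit 671105040)) .nil))) (.cons (.br (nat_lit 3) (.cons (.rel (nat_lit 335545473)) (.cons (.rel (nat_lit 335544468)) .nil))) .nil))) .leaf))))) (nat_lit 13194142726471710) (.br (nat_lit 2) (.cons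 (.br (nat_lit 3) (.cons (.rel (nat_lit 335577120)) (.cons (.rel (nat_lit 335544468)) .nil))) (.cons (.br (nat_lit 3) (.cons (.rel (nat_lit 335544468)) (.cons (.rel (nat_lit 671105040)) .nil))) .nil))) (.node (.node (.node (.node (.node (.node .leaf (nat_lit 13194142726471735) (.br (nat_lit 2) (.cons (.br (nat_lit 1) (.cons (.rel (nat_lit 83887122)) (.cons (.rel (nat_lit 83906640)) .nil))) .nil)) .leaf) (nat_lit 13194142726471936) (.br (nat_lit 6) (.cons (.br (nat_lit 5) (.cons (.rel (nat_lit 42949674240)) (.cons (.rel (nat_lit 42949674240)) (.cons (.rel (nat_lit 38656017408)) (.cons (.rel (nat_lit 21475901712)) (.cons (.rel (nat_lit 21475901712)) (.cons (.rel (nat_lit 21474839040)) .nil))))))) .nil)) .leaf) (nat_lit 13194142726472361) (.br (nat_lit 2) (.cons (.br (nat_lit 6) (.cons (.rel (nat_lit 17247305796)) .nil)) .nil)) (.node (.node .leaf (nat_lit 13194142726472432) (.br (nat_lit 2) (.cons (.br (nat_lit 1) (.cons (.rel (nat_lit 83888136)) (.cons (.rel (nat_lit 83888136)) (.cons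 (.rel (nat_lit 151257600)) .nil)))) (.cons (.br (nat_lit 1) (.cons (.rel (nat_lit 83888136)) (.cons (.rel (nat_lit 83886117)) (.cons (.rel (nat_lit 83887122)) .nil)))) .nil))) .leaf) (nat_lit 13194142726472940) (.br (nat_lit 1) (.cons (.br (nat_lit 2) (.cons (.rel (nat_lit 83888136)) .nil)) .nil)) .leaf)) (nat_lit 13194142726473241) (.br (nat_lit 2) (.cons (.br (nat_lit 5) (.cons (.rel (nat_lit 4429185093)) .nil)) .nil)) (.node (.node (.node .leaf (nat_lit 13194142726837785) (.br (nat_lit 1) (.cons (.br (nat_lit 2) (.cons (.rel (nat_lit 83886117)) .nil)) .nil)) .leaf) (nat_lit 13194142728302105) (.br (nat_lit 1) (.cons (.br (nat_lit 3) (.cons (.rel (nat_lit 570691584)) .nil)) .nil)) .leaf) (nat_lit 13194142805191412) (.br (nat_lit 0) (.cons (.br (nat_lit 2) (.cons (.rel (nat_lit 71434260)) .nil)) .nil)) (.node .leaf (nat_lit 13194142805452826) (.br (nat_lit 1) (.cons (.br (nat_lit 2) (.cons (.rel (nat_lit 83888136)) .nil)) .nil)) .leaf))) (nat_lit 13194142805452830) (.br (nat_lit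 0) (.cons (.br (nat_lit 2) (.cons (.rel (nat_lit 71311362)) .nil)) .nil)) (.node (.node (.node (.node .leaf (nat_lit 13194142805453425) (.br (nat_lit 3) (.cons (.br (nat_lit 6) (.cons (.rel (nat_lit 17448337536)) .nil)) .nil)) .leaf) (nat_lit 13194142805453605) (.br (nat_lit 1) (.cons (.br (nat_lit 2) (.cons (.rel (nat_lit 83952768)) .nil)) .nil)) .leaf) (nat_lit 13194142806163467) (.br (nat_lit 0) (.cons (.br (nat_lit 2) (.cons (.rel (nat_lit 75563520)) .nil)) .nil)) (.node (.node .leaf (nat_lit 13194142806426225) (.br (nat_lit 0) (.cons (.br (nat_lit 2) (.cons (.rel (nat_lit 71311362)) .nil)) .nil)) .leaf) (nat_lit 13194142807695985) (.br (nat_lit 3) (.cons (.br (nat_lit 0) (.cons (.rel (nat_lit 272696592)) (.cons (.rel (nat_lit 541102080)) (.cons (.rel (nat_lit 272648448)) .nil)))) .nil)) .leaf)) (nat_lit 13194142918243064) (.br (nat_lit 5) (.cons (.br (nat_lit 6) (.cons (.rel (nat_lit 25769807889)) (.cons (.rel (nat_lit 21475115136)) .nil))) (.cons (.br (nat_lit 6) (.cons (.rel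 (nat_lit 21474911745)) (.cons (.rel (nat_lit 21475901712)) .nil))) .nil))) (.node (.node (.node .leaf (nat_lit 13194142918683405) (.br (nat_lit 3) (.cons (.br (nat_lit 6) (.cons (.rel (nat_lit 17716740624)) .nil)) .nil)) .leaf) (nat_lit 13194142918684135) (.br (nat_lit 0) (.cons (.br (nat_lit 2) (.cons (.rel (nat_lit 71321664)) (.cons (.rel (nat_lit 71323680)) .nil))) .nil)) .leaf) (nat_lit 13194142918699669) (.br (nat_lit 3) (.cons (.br (nat_lit 4) (.cons (.rel (nat_lit 2416967760)) (.cons (.rel (nat_lit 1342185600)) .nil))) .nil)) (.node .leaf (nat_lit 13194142918699889) (.br (nat_lit 0) (.cons (.br (nat_lit 1) (.cons (.rel (nat_lit 20972928)) .nil)) .nil)) .leaf)))) (nat_lit 13194142918699939) (.br (nat_lit 3) (.cons (.br (nat_lit 6) (.cons (.rel (nat_lit 17448443904)) .nil)) .nil)) (.node (.node (.node (.node (.node .leaf (nat_lit 13194142918699945) (.br (nat_lit 1) (.cons (.br (nat_lit 3) (.cons (.rel (nat_lit 285745152)) .nil)) .nil)) .leaf) (nat_lit 13194142918700519) (.br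 (nat_lit 2) (.cons (.br (nat_lit 3) (.cons (.rel (nat_lit 671105040)) (.cons (.rel (nat_lit 335609925)) .nil))) .nil)) .leaf) (nat_lit 13194142919409715) (.br (nat_lit 2) (.cons (.br (nat_lit 3) (.cons (.rel (nat_lit 335676432)) .nil)) .nil)) (.node (.node .leaf (nat_lit 13194142919409916) (.br (nat_lit 3) (.cons (.br (nat_lit 2) (.cons (.rel (nat_lit 335628288)) (.cons (.rel (nat_lit 335552529)) .nil))) .nil)) .leaf) (nat_lit 13194142919409966) (.br (nat_lit 0) (.cons (.br (nat_lit 3) (.cons (.rel (nat_lit 541065249)) (.cons (.rel (nat_lit 272696592)) .nil))) .nil)) .leaf)) (nat_lit 13194142919411201) (.br (nat_lit 2) (.cons (.br (nat_lit 5) (.cons (.rel (nat_lit 4362338376)) .nil)) .nil)) (.node (.node (.node .leaf (nat_lit 13194142919674516) (.br (nat_lit 0) (.cons (.br (nat_lit 1) (.cons (.rel (nat_lit 20972928)) .nil)) .nil)) .leaf) (nat_lit 13194142919775719) (.br (nat_lit 6) (.cons (.br (nat_lit 2) (.cons (.rel (nat_lit 34493972736)) (.cons (.rel (nat_lit 34493972736)) (.cons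 (.rel (nat_lit 17247248400)) .nil)))) .nil)) .leaf) (nat_lit 13194142920942349) (.br (nat_lit 0) (.cons (.br (nat_lit 1) (.cons (.rel (nat_lit 42221568)) .nil)) .nil)) (.node .leaf (nat_lit 13194142921241207) (.br (nat_lit 1) (.cons (.br (nat_lit 2) (.cons (.rel (nat_lit 83888136)) .nil)) .nil)) .leaf))) (nat_lit 13194142921241236) (.br (nat_lit 1) (.cons (.br (nat_lit 0) (.cons (.rel (nat_lit 21037380)) (.cons (.rel (nat_lit 20972928)) .nil))) .nil)) (.node (.node (.node (.node .leaf (nat_lit 13194142921311013) (.br (nat_lit 0) (.cons (.br (nat_lit 2) (.cons (.rel (nat_lit 142610433)) .nil)) .nil)) .leaf) (nat_lit 13194145552246166) (.br (nat_lit 1) (.cons (.br (nat_lit 2) (.cons (.rel (nat_lit 85262340)) .nil)) .nil)) .leaf) (nat_lit 13194145552265468) (.br (nat_lit 1) (.cons (.br (nat_lit 2) (.cons (.rel (nat_lit 83952768)) .nil)) .nil)) (.node (.node .leaf (nat_lit 13194145552460581) (.br (nat_lit 0) (.cons (.br (nat_lit 2) (.cons (.rel (nat_lit 142610433)) .nil)) .nil)) .leaf)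 (nat_lit 13194145552461181) (.br (nat_lit 1) (.cons (.br (nat_lit 2) (.cons (.rel (nat_lit 83888136)) .nil)) .nil)) .leaf)) (nat_lit 13194145552706416) (.br (nat_lit 0) (.cons (.br (nat_lit 1) (.cons (.rel (nat_lit 20979984)) .nil)) .nil)) (.node (.node (.node .leaf (nat_lit 13194145552706468) (.br (nat_lit 0) (.cons (.br (nat_lit 2) (.cons (.rel (nat_lit 71374848)) .nil)) .nil)) .leaf) (nat_lit 13194145552722725) (.br (nat_lit 2) (.cons (.br (nat_lit 3) (.cons (.rel (nat_lit 335609925)) .nil)) .nil)) .leaf) (nat_lit 13194145552723197) (.br (nat_lit 2) (.cons (.br (nat_lit 3) (.cons (.rel (nat_lit 335552529)) .nil)) .nil)) (.node .leaf (nat_lit 13194145553432606) (.br (nat_lit 5) (.cons (.br (nat_lit 6) (.cons (.rel (nat_lit 21475115136)) .nil)) .nil)) .leaf)))))) (nat_lit 13194145553434002) (.br (nat_lit 1) (.cons (.br (nat_lit 2) (.cons (.rel (nat_lit 83887122)) (.cons (.rel (nat_lit 83911680)) .nil))) .nil)) (.node (.node (.node (.node (.node (.node (.node .leaf (nat_lit 13194145553696146)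 (.br (nat_lit 1) (.cons (.br (nat_lit 2) (.cons (.rel (nat_lit 83952768)) .nil)) .nil)) .leaf) (nat_lit 13194145554965261) (.br (nat_lit 1) (.cons (.br (nat_lit 2) (.cons (.rel (nat_lit 83959824)) .nil)) .nil)) .leaf) (nat_lit 13194145555235101) (.br (nat_lit 1) (.cons (.br (nat_lit 2) (.cons (.rel (nat_lit 101187840)) .nil)) .nil)) (.node (.node .leaf (nat_lit 13194145871013365) (.br (nat_lit 5) (.cons (.br (nat_lit 6) (.cons (.rel (nat_lit 21477015552)) .nil)) .nil)) .leaf) (nat_lit 13194145871490524) (.br (nat_lit 1) (.cons (.br (nat_lit 2) (.cons (.rel (nat_lit 83888136)) .nil)) .nil)) .leaf)) (nat_lit 13194145872300218) (.br (nat_lit 0) (.cons (.br (nat_lit 2) (.cons (.rel (nat_lit 142610433)) .nil)) .nil)) (.node (.node (.node .leaf (nat_lit 13194145872301557) (.br (nat_lit 1) (.cons (.br (nat_lit 2) (.cons (.rel (nat_lit 83888136)) (.cons (.rel (nat_lit 83952768)) .nil))) .nil)) .leaf) (nat_lit 13194145872465257) (.br (nat_lit 2) (.cons (.br (nat_lit 6) (.cons (.rel (nat_lit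 17314152513)) .nil)) .nil)) .leaf) (nat_lit 13194145872465397) (.br (nat_lit 5) (.cons (.br (nat_lit 6) (.cons (.rel (nat_lit 25769807889)) .nil)) .nil)) (.node .leaf (nat_lit 13194145874003356) (.br (nat_lit 2) (.cons (.br (nat_lit 3) (.cons (.rel (nat_lit 335628288)) (.cons (.rel (nat_lit 335544468)) .nil))) .nil)) .leaf))) (nat_lit 13194145874100250) (.br (nat_lit 2) (.cons (.br (nat_lit 4) (.cons (.rel (nat_lit 1142424576)) .nil)) .nil)) (.node (.node (.node (.node .leaf (nat_lit 13194145950702955) (.br (nat_lit 0) (.cons (.br (nat_lit 2) (.cons (.rel (nat_lit 71311362)) (.cons (.rel (nat_lit 71369808)) .nil))) .nil)) .leaf) (nat_lit 13194145950709946) (.br (nat_lit 0) (.cons (.br (nat_lit 2) (.cons (.rel (nat_lit 71303301)) .nil)) .nil)) .leaf) (nat_lit 13194145950724721) (.br (nat_lit 2) (.cons (.br (nat_lit 3) (.cons (.rel (nat_lit 335609925)) .nil)) .nil)) (.node (.node .leaf (nat_lit 13194145950724881) (.br (nat_lit 0) (.cons (.br (nat_lit 6) (.cons (.rel (nat_lit 17184129030))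 .nil)) .nil)) .leaf) (nat_lit 13194145951173385) (.br (nat_lit 0) (.cons (.br (nat_lit 2) (.cons (.rel (nat_lit 71321664)) .nil)) .nil)) .leaf)) (nat_lit 13194145951173389) (.br (nat_lit 0) (.cons (.br (nat_lit 2) (.cons (.rel (nat_lit 71311362)) .nil)) .nil)) (.node (.node (.node .leaf (nat_lit 13194145951173393) (.br (nat_lit 1) (.cons (.br (nat_lit 3) (.cons (.rel (nat_lit 553653249)) .nil)) .nil)) .leaf) (nat_lit 13194145951181577) (.br (nat_lit 2) (.cons (.br (nat_lit 5) (.cons (.rel (nat_lit 4364174340)) .nil)) .nil)) .leaf) (nat_lit 13194145951181585) (.br (nat_lit 3) (.cons (.br (nat_lit 2) (.cons (.rel (nat_lit 335676432)) (.cons (.rel (nat_lit 335676432)) .nil))) .nil)) (.node .leaf (nat_lit 13194145951182336) (.br (nat_lit 3) (.cons (.br (nat_lit 6) (.cons (.rel (nat_lit 17448337536)) .nil)) .nil)) .leaf)))) (nat_lit 13194145952154225) (.br (nat_lit 2) (.cons (.br (nat_lit 3) (.cons (.rel (nat_lit 336855045)) .nil)) .nil)) (.node (.node (.node (.node (.node .leaf (nat_lit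 13194145953161993) (.br (nat_lit 2) (.cons (.br (nat_lit 1) (.cons (.rel (nat_lit 83888136)) (.cons (.rel (nat_lit 85262340)) .nil))) .nil)) .leaf) (nat_lit 13194145953424145) (.br (nat_lit 2) (.cons (.br (nat_lit 1) (.cons (.rel (nat_lit 83888136)) (.cons (.rel (nat_lit 83886117)) (.cons (.rel (nat_lit 101187840)) (.cons (.rel (nat_lit 83888136)) .nil))))) .nil)) .leaf) (nat_lit 13194145953720945) (.br (nat_lit 2) (.cons (.br (nat_lit 3) (.cons (.rel (nat_lit 335545473)) .nil)) .nil)) (.node (.node .leaf (nat_lit 13194145953721250) (.br (nat_lit 1) (.cons (.br (nat_lit 3) (.cons (.rel (nat_lit 285745152)) .nil)) .nil)) .leaf) (nat_lit 13194145953721845) (.br (nat_lit 3) (.cons (.br (nat_lit 0) (.cons (.rel (nat_lit 273155136)) (.cons (.rel (nat_lit 272648448)) .nil))) .nil)) .leaf)) (nat_lit 13194145953723028) (.br (nat_lit 0) (.cons (.br (nat_lit 2) (.cons (.rel (nat_lit 71434260)) .nil)) .nil)) (.node (.node (.node .leaf (nat_lit 13194145953786112) (.br (nat_lit 2) (.cons (.br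 (nat_lit 5) (.cons (.rel (nat_lit 4362405888)) .nil)) .nil)) .leaf) (nat_lit 13194146038782254) (.br (nat_lit 3) (.cons (.br (nat_lit 5) (.cons (.rel (nat_lit 4563403782)) .nil)) .nil)) .leaf) (nat_lit 13194146038782704) (.br (nat_lit 3) (.cons (.br (nat_lit 2) (.cons (.rel (nat_lit 336594432)) (.cons (.rel (nat_lit 335552529)) (.cons (.rel (nat_lit 671105040)) .nil)))) .nil)) (.node .leaf (nat_lit 13194146038790294) (.br (nat_lit 3) (.cons (.br (nat_lit 4) (.cons (.rel (nat_lit 1342185600)) .nil)) .nil)) .leaf))) (nat_lit 13194146038790400) (.br (nat_lit 3) (.cons (.br (nat_lit 1) (.cons (.rel (nat_lit 285233424)) (.cons (.rel (nat_lit 286261284)) .nil))) .nil)) (.node (.node (.node (.node .leaf (nat_lit 13194146038790904) (.br (nat_lit 0) (.cons (.br (nat_lit 2) (.cons (.rel (nat_lit 71598336)) .nil)) .nil)) .leaf) (nat_lit 13194146038800410) (.br (nat_lit 1) (.cons (.br (nat_lit 3) (.cons (.rel (nat_lit 286294080)) .nil)) .nil)) .leaf) (nat_lit 13194146038804732) (.br (nat_lit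 1) (.cons (.br (nat_lit 2) (.cons (.rel (nat_lit 167773188)) (.cons (.rel (nat_lit 152109057)) (.cons (.rel (nat_lit 83888136)) (.cons (.rel (nat_lit 167773188)) (.cons (.rel (nat_lit 83906640)) .nil)))))) (.cons (.br (nat_lit 4) (.cons (.rel (nat_lit 1090603008)) (.cons (.rel (nat_lit 1090551840)) .nil))) .nil))) (.node (.node .leaf (nat_lit 13194146038805881) (.br (nat_lit 1) (.cons (.br (nat_lit 3) (.cons (.rel (nat_lit 285233424)) .nil)) .nil)) .leaf) (nat_lit 13194146038954736) (.br (nat_lit 6) (.cons (.br (nat_lit 4) (.cons (.rel (nat_lit 18253677060)) (.cons (.rel (nat_lit 18253939728)) .nil))) .nil)) .leaf)) (nat_lit 13194146039000441) (.br (nat_lit 2) (.cons (.br (nat_lit 3) (.cons (.rel (nat_lit 604259328)) .nil)) .nil)) (.node (.node (.node .leaf (nat_lit 13194146039244837) (.br (nat_lit 1) (.cons (.br (nat_lit 2) (.cons (.rel (nat_lit 83886117)) .nil)) .nil)) .leaf) (nat_lit 13194146039245560) (.br (nat_lit 1) (.cons (.br (nat_lit 3) (.cons (.rel (nat_lit 302055504))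 .nil)) .nil)) .leaf) (nat_lit 13194146039253744) (.br (nat_lit 2) (.cons (.br (nat_lit 3) (.cons (.rel (nat_lit 335814912)) (.cons (.rel (nat_lit 403260432)) (.cons (.rel (nat_lit 335577120)) .nil)))) .nil)) (.node .leaf (nat_lit 13194146039253748) (.br (nat_lit 1) (.cons (.br (nat_lit 3) (.cons (.rel (nat_lit 285344004)) .nil)) .nil)) .leaf))))) (nat_lit 13194146039254393) (.br (nat_lit 2) (.cons (.br (nat_lit 4) (.cons (.rel (nat_lit 1208025168)) .nil)) .nil)) (.node (.node (.node (.node (.node (.node .leaf (nat_lit 13194146039261944) (.br (nat_lit 2) (.cons (.br (nat_lit 3) (.cons (.rel (nat_lit 335552529)) .nil)) .nil)) .leaf) (nat_lit 13194146039262565) (.br (nat_lit 3) (.cons (.br (nat_lit 4) (.cons (.rel (nat_lit 1342177350)) .nil)) .nil)) .leaf) (nat_lit 13194146039972592) (.br (nat_lit 6) (.cons (.br (nat_lit 5) (.cons (.rel (nat_lit 21475098648)) (.cons (.rel (nat_lit 38654726160)) (.cons (.rel (nat_lit 21475098648)) .nil)))) .nil)) (.node (.node .leaf (nat_lit 13194146039973270)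 (.br (nat_lit 1) (.cons (.br (nat_lit 3) (.cons (.rel (nat_lit 285745152)) .nil)) .nil)) .leaf) (nat_lit 13194146040073472) (.br (nat_lit 1) (.cons (.br (nat_lit 2) (.cons (.rel (nat_lit 83888136)) .nil)) .nil)) .leaf)) (nat_lit 13194146040074266) (.br (nat_lit 2) (.cons (.br (nat_lit 6) (.cons (.rel (nat_lit 17247011328)) .nil)) .nil)) (.node (.node (.node .leaf (nat_lit 13194146040074992) (.br (nat_lit 2) (.cons (.br (nat_lit 6) (.cons (.rel (nat_lit 17248550916)) (.cons (.rel (nat_lit 34493972736)) (.cons (.rel (nat_lit 17247305796)) .nil)))) (.cons (.br (nat_lit 6) (.cons (.rel (nat_lit 17248550916)) (.cons (.rel (nat_lit 34493972736)) (.cons (.rel (nat_lit 34493972736)) .nil)))) .nil))) .leaf) (nat_lit 13194146040075641) (.br (nat_lit 2) (.cons (.br (nat_lit 4) (.cons (.rel (nat_lit 1141899525)) .nil)) .nil)) .leaf) (nat_lit 13194146040234134) (.br (nat_lit 3) (.cons (.br (nat_lit 6) (.cons (.rel (nat_lit 17717854464)) .nil)) .nil)) (.node .leaf (nat_lit 13194146040329742) (.br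 (nat_lit 2) (.cons (.br (nat_lit 4) (.cons (.rel (nat_lit 2214592593)) .nil)) .nil)) .leaf))) (nat_lit 13194146040472829) (.br (nat_lit 3) (.cons (.br (nat_lit 4) (.cons (.rel (nat_lit 1342183440)) .nil)) .nil)) (.node (.node (.node (.node .leaf (nat_lit 13194146041301018) (.br (nat_lit 2) (.cons (.br (nat_lit 3) (.cons (.rel (nat_lit 335544468)) .nil)) .nil)) .leaf) (nat_lit 13194146041503996) (.br (nat_lit 4) (.cons (.br (nat_lit 5) (.cons (.rel (nat_lit 5368709640)) (.cons (.rel (nat_lit 9663680544)) .nil))) (.cons (.br (nat_lit 5) (.cons (.rel (nat_lit 6442459152)) (.cons (.rel (nat_lit 5369762049)) .nil))) .nil))) .leaf) (nat_lit 13194146041504496) (.br (nat_lit 2) (.cons (.br (nat_lit 3) (.cons (.rel (nat_lit 335676432)) (.cons (.rel (nat_lit 335552529)) (.cons (.rel (nat_lit 335628288)) .nil)))) (.cons (.br (nat_lit 3) (.cons (.rel (nat_lit 604307472)) (.cons (.rel (nat_lit 671105040)) (.cons (.rel (nat_lit 335628288)) .nil)))) .nil))) (.node (.node .leaf (nat_lit 13194146041504654)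 (.br (nat_lit 4) (.cons (.br (nat_lit 6) (.cons (.rel (nat_lit 18253677060)) .nil)) .nil)) .leaf) (nat_lit 13194146041802105) (.br (nat_lit 3) (.cons (.br (nat_lit 1) (.cons (.rel (nat_lit 570691584)) (.cons (.rel (nat_lit 285233424)) .nil))) .nil)) .leaf)) (nat_lit 13194146041803504) (.br (nat_lit 2) (.cons (.br (nat_lit 4) (.cons (.rel (nat_lit 1207977024)) (.cons (.rel (nat_lit 1207977024)) .nil))) (.cons (.br (nat_lit 6) (.cons (.rel (nat_lit 17247248400)) (.cons (.rel (nat_lit 34493972736)) .nil))) .nil))) (.node (.node (.node .leaf (nat_lit 13194146076533662) (.br (nat_lit 2) (.cons (.br (nat_lit 5) (.cons (.rel (nat_lit 4362338376)) .nil)) .nil)) .leaf) (nat_lit 13194146076534287) (.br (nat_lit 0) (.cons (.br (nat_lit 2) (.cons (.rel (nat_lit 71434260)) .nil)) .nil)) .leaf) (nat_lit 13194146076685664) (.br (nat_lit 2) (.cons (.br (nat_lit 5) (.cons (.rel (nat_lit 8657051652)) .nil)) .nil)) (.node .leaf (nat_lit 13194146076748432) (.br (nat_lit 3) (.cons (.br (nat_lit 4) (.cons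 (.rel (nat_lit 1342177350)) .nil)) .nil)) .leaf)))) (nat_lit 13194146077010545) (.br (nat_lit 2) (.cons (.br (nat_lit 4) (.cons (.rel (nat_lit 2281705728)) .nil)) .nil)) (.node (.node (.node (.node (.node .leaf (nat_lit 13194146077011420) (.br (nat_lit 1) (.cons (.br (nat_lit 5) (.cons (.rel (nat_lit 4311826560)) (.cons (.rel (nat_lit 8623509504)) .nil))) .nil)) .leaf) (nat_lit 13194146077720627) (.br (nat_lit 2) (.cons (.br (nat_lit 3) (.cons (.rel (nat_lit 335577120)) .nil)) .nil)) .leaf) (nat_lit 13194146077720828) (.br (nat_lit 2) (.cons (.br (nat_lit 1) (.cons (.rel (nat_lit 83888136)) (.cons (.rel (nat_lit 83887122)) .nil))) .nil)) (.node (.node .leaf (nat_lit 13194146077721461) (.br (nat_lit 1) (.cons (.br (nat_lit 3) (.cons (.rel (nat_lit 285233424)) .nil)) .nil)) .leaf) (nat_lit 13194146077721487) (.br (nat_lit 2) (.cons (.br (nat_lit 3) (.cons (.rel (nat_lit 604307472)) .nil)) .nil)) .leaf)) (nat_lit 13194146077721952) (.br (nat_lit 2) (.cons (.br (nat_lit 4) (.cons (.rel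 (nat_lit 1141901592)) .nil)) .nil)) (.node (.node (.node .leaf (nat_lit 13194146079114767) (.br (nat_lit 0) (.cons (.br (nat_lit 2) (.cons (.rel (nat_lit 75759681)) .nil)) .nil)) .leaf) (nat_lit 13194146079551539) (.br (nat_lit 0) (.cons (.br (nat_lit 2) (.cons (.rel (nat_lit 71323680)) .nil)) .nil)) .leaf) (nat_lit 13194146079552113) (.br (nat_lit 0) (.cons (.br (nat_lit 2) (.cons (.rel (nat_lit 71311362)) .nil)) .nil)) (.node .leaf (nat_lit 13194360179452656) (.br (nat_lit 0) (.cons (.br (nat_lit 2) (.cons (.rel (nat_lit 71321664)) .nil)) .nil)) .leaf))) (nat_lit 13194458019981949) (.br (nat_lit 1) (.cons (.br (nat_lit 2) (.cons (.rel (nat_lit 152059908)) .nil)) .nil)) (.node (.node (.node (.node .leaf (nat_lit 13194458099195930) (.br (nat_lit 4) (.cons (.br (nat_lit 2) (.cons (.rel (nat_lit 2214608901)) (.cons (.rel (nat_lit 2281705728)) .nil))) .nil)) .leaf) (nat_lit 13194458099217040) (.br (nat_lit 2) (.cons (.br (nat_lit 5) (.cons (.rel (nat_lit 4363194624)) .nil)) .nil)) .leaf)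 (nat_lit 13194458099217136) (.br (nat_lit 0) (.cons (.br (nat_lit 1) (.cons (.rel (nat_lit 20992257)) .nil)) .nil)) (.node .leaf (nat_lit 13194458099673989) (.br (nat_lit 2) (.cons (.br (nat_lit 1) (.cons (.rel (nat_lit 152059908)) (.cons (.rel (nat_lit 83886117)) (.cons (.rel (nat_lit 83952768)) .nil)))) (.cons (.br (nat_lit 1) (.cons (.rel (nat_lit 151257600)) (.cons (.rel (nat_lit 101187840)) (.cons (.rel (nat_lit 83888136)) .nil)))) .nil))) .leaf)) (nat_lit 13194458099674389) (.br (nat_lit 0) (.cons (.br (nat_lit 1) (.cons (.rel (nat_lit 25165920)) .nil)) .nil)) (.node (.node (.node .leaf (nat_lit 13194458100384645) (.br (nat_lit 2) (.cons (.br (nat_lit 5) (.cons (.rel (nat_lit 4429187160)) .nil)) .nil)) .leaf) (nat_lit 13194458102214691) (.br (nat_lit 1) (.cons (.br (nat_lit 2) (.cons (.rel (nat_lit 83888136)) .nil)) .nil)) .leaf) (nat_lit 13194458102215408) (.br (nat_lit 2) (.cons (.br (nat_lit 4) (.cons (.rel (nat_lit 1142947908)) .nil)) .nil)) (.node .leaf (nat_lit 13194458102278151)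 (.br (nat_lit 2) (.cons (.br (nat_lit 4) (.cons (.rel (nat_lit 1141179456)) .nil)) .nil)) .leaf)))))))

/-- refutations 30 -/
def e30 : EX := (.node (.node (.node (.node (.node (.node (.node .leaf (nat_lit 13194569575414070) (.br (nat_lit 3) (.cons (.br (nat_lit 2) (.cons (.rel (nat_lit 335577120)) (.cons (.rel (nat_lit 335545473)) .nil))) .nil)) .leaf) (nat_lit 13194569577154870) (.br (nat_lit 0) (.cons (.br (nat_lit 3) (.cons (.rel (nat_lit 541102080)) .nil)) .nil)) .leaf) (nat_lit 13194569710102809) (.br (nat_lit 0) (.cons (.br (nat_lit 1) (.cons (.rel (nat_lit 42221568)) (.cons (.rel (nat_lit 25165920)) .nil))) (.cons (.br (nat_lit 1) (.cons (.rel (nat_lit 25165920)) (.cons (.rel (nat_lit 21528576)) .nil))) .nil))) (.node (.node .leaf (nat_lit 13194569710104078) (.br (nat_lit 4) (.cons (.br (nat_lit 0) (.cons (.rel (nat_lit 1078022208)) (.cons (.rel (nat_lit 1078001685)) .nil))) .nil)) .leaf) (nat_lit 13194575032675191) (.br (nat_lit 0) (.cons (.br (nat_lit 3) (.cons (.rel (nat_lit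 541067268)) .nil)) .nil)) .leaf)) (nat_lit 13194575034655522) (.br (nat_lit 3) (.cons (.br (nat_lit 6) (.cons (.rel (nat_lit 17716740624)) (.cons (.rel (nat_lit 34896625728)) .nil))) .nil)) (.node (.node (.node .leaf (nat_lit 13194575448883985) (.br (nat_lit 3) (.cons (.br (nat_lit 6) (.cons (.rel (nat_lit 34896678912)) .nil)) .nil)) .leaf) (nat_lit 13194575448978033) (.br (nat_lit 2) (.cons (.br (nat_lit 6) (.cons (.rel (nat_lit 34493956440)) .nil)) .nil)) .leaf) (nat_lit 13194621308430961) (.br (nat_lit 2) (.cons (.br (nat_lit 3) (.cons (.rel (nat_lit 603980352)) (.cons (.rel (nat_lit 402653568)) (.cons (.rel (nat_lit 335545473)) .nil)))) (.cons (.br (nat_lit 6) (.cons (.rel (nat_lit 17314103364)) (.cons (.rel (nat_lit 17314087056)) (.cons (.rel (nat_lit 34494026112)) .nil)))) (.cons (.br (nat_lit 6) (.cons (.rel (nat_lit 17247011328)) (.cons (.rel (nat_lit 17246986785)) (.cons (.rel (nat_lit 34493972736)) .nil)))) .nil)))) (.node (.node .leaf (nat_lit 13194621308431237) (.br (nat_lit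 4) (.cons (.br (nat_lit 0) (.cons (.rel (nat_lit 1082130945)) (.cons (.rel (nat_lit 2155888704)) (.cons (.rel (nat_lit 1077969024)) .nil)))) (.cons (.br (nat_lit 0) (.cons (.rel (nat_lit 1077952536)) (.cons (.rel (nat_lit 2152226817)) (.cons (.rel (nat_lit 1077942273)) .nil)))) .nil))) .leaf) (nat_lit 13194621308431596) (.br (nat_lit 2) (.cons (.br (nat_lit 6) (.cons (.rel (nat_lit 34493972736)) .nil)) .nil)) .leaf))) (nat_lit 13194621308431873) (.br (nat_lit 2) (.cons (.br (nat_lit 3) (.cons (.rel (nat_lit 603980352)) (.cons (.rel (nat_lit 335545473)) .nil))) .nil)) (.node (.node (.node (.node .leaf (nat_lit 13194621309141244) (.br (nat_lit 2) (.cons (.br (nat_lit 5) (.cons (.rel (nat_lit 4362405888)) .nil)) .nil)) .leaf) (nat_lit 13194621310970481) (.br (nat_lit 1) (.cons (.br (nat_lit 3) (.cons (.rel (nat_lit 285245697)) (.cons (.rel (nat_lit 286524672)) .nil))) .nil)) .leaf) (nat_lit 13194621310971116) (.br (nat_lit 0) (.cons (.br (nat_lit 1) (.cons (.rel (nat_lit 43024644))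 .nil)) .nil)) (.node (.node .leaf (nat_lit 13194623321227889) (.br (nat_lit 0) (.cons (.br (nat_lit 1) (.cons (.rel (nat_lit 37765188)) .nil)) .nil)) .leaf) (nat_lit 13194666711240989) (.br (nat_lit 0) (.cons (.br (nat_lit 1) (.cons (.rel (nat_lit 25170960)) .nil)) .nil)) .leaf)) (nat_lit 13194666712795268) (.br (nat_lit 0) (.cons (.br (nat_lit 1) (.cons (.rel (nat_lit 22020117)) .nil)) .nil)) (.node (.node (.node .leaf (nat_lit 13194666904709121) (.br (nat_lit 0) (.cons (.br (nat_lit 2) (.cons (.rel (nat_lit 71311362)) .nil)) .nil)) .leaf) (nat_lit 13195299854013846) (.br (nat_lit 1) (.cons (.br (nat_lit 3) (.cons (.rel (nat_lit 553653249)) .nil)) .nil)) .leaf) (nat_lit 13195299854086276) (.br (nat_lit 2) (.cons (.br (nat_lit 3) (.cons (.rel (nat_lit 335564802)) .nil)) .nil)) (.node (.node .leaf (nat_lit 13195299854543129) (.br (nat_lit 3) (.cons (.br (nat_lit 5) (.cons (.rel (nat_lit 4563402777)) .nil)) .nil)) .leaf) (nat_lit 13195299912732822) (.br (nat_lit 2) (.cons (.br (nat_lit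 4) (.cons (.rel (nat_lit 1141145601)) .nil)) .nil)) .leaf)))) (nat_lit 13195299912733573) (.br (nat_lit 0) (.cons (.br (nat_lit 2) (.cons (.rel (nat_lit 138543360)) .nil)) .nil)) (.node (.node (.node (.node (.node .leaf (nat_lit 13195299912734048) (.br (nat_lit 0) (.cons (.br (nat_lit 1) (.cons (.rel (nat_lit 37753920)) .nil)) .nil)) .leaf) (nat_lit 13195299912792214) (.br (nat_lit 4) (.cons (.br (nat_lit 3) (.cons (.rel (nat_lit 1342195713)) (.cons (.rel (nat_lit 1342185600)) .nil))) .nil)) .leaf) (nat_lit 13195299912792689) (.br (nat_lit 3) (.cons (.br (nat_lit 6) (.cons (.rel (nat_lit 17448304740)) .nil)) .nil)) (.node (.node .leaf (nat_lit 13195299912792994) (.br (nat_lit 0) (.cons (.br (nat_lit 3) (.cons (.rel (nat_lit 273155136)) .nil)) .nil)) .leaf) (nat_lit 13195299912793440) (.br (nat_lit 2) (.cons (.br (nat_lit 1) (.cons (.rel (nat_lit 151257600)) (.cons (.rel (nat_lit 83918913)) .nil))) .nil)) .leaf)) (nat_lit 13195299912793614) (.br (nat_lit 0) (.cons (.br (nat_lit 4)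 (.cons (.rel (nat_lit 1077937233)) .nil)) .nil)) (.node (.node (.node .leaf (nat_lit 13195299912806652) (.br (nat_lit 2) (.cons (.br (nat_lit 3) (.cons (.rel (nat_lit 335544468)) (.cons (.rel (nat_lit 335545473)) .nil))) (.cons (.br (nat_lit 3) (.cons (.rel (nat_lit 335544468)) (.cons (.rel (nat_lit 335544468)) .nil))) .nil))) .leaf) (nat_lit 13195299912807056) (.br (nat_lit 0) (.cons (.br (nat_lit 2) (.cons (.rel (nat_lit 75563520)) .nil)) .nil)) .leaf) (nat_lit 13195299912935574) (.br (nat_lit 2) (.cons (.br (nat_lit 3) (.cons (.rel (nat_lit 671105040)) .nil)) .nil)) (.node (.node .leaf (nat_lit 13195299912936226) (.br (nat_lit 3) (.cons (.br (nat_lit 4) (.cons (.rel (nat_lit 1342177350)) .nil)) .nil)) .leaf) (nat_lit 13195299913001212) (.br (nat_lit 2) (.cons (.br (nat_lit 6) (.cons (.rel (nat_lit 17314087056)) .nil)) .nil)) .leaf))) (nat_lit 13195299913001861) (.br (nat_lit 0) (.cons (.br (nat_lit 2) (.cons (.rel (nat_lit 138543360)) .nil)) .nil)) (.node (.node (.node (.node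 .leaf (nat_lit 13195299913002237) (.br (nat_lit 5) (.cons (.br (nat_lit 6) (.cons (.rel (nat_lit 21475168320)) .nil)) .nil)) .leaf) (nat_lit 13195299913263729) (.br (nat_lit 2) (.cons (.br (nat_lit 6) (.cons (.rel (nat_lit 34493956440)) (.cons (.rel (nat_lit 34493972736)) .nil))) (.cons (.br (nat_lit 6) (.cons (.rel (nat_lit 17247260673)) (.cons (.rel (nat_lit 17246979729)) .nil))) .nil))) .leaf) (nat_lit 13195299913263909) (.br (nat_lit 5) (.cons (.br (nat_lit 1) (.cons (.rel (nat_lit 8623509504)) (.cons (.rel (nat_lit 4311879744)) .nil))) .nil)) (.node (.node .leaf (nat_lit 13195299913264005) (.br (nat_lit 0) (.cons (.br (nat_lit 2) (.cons (.rel (nat_lit 71311362)) (.cons (.rel (nat_lit 75759681)) .nil))) .nil)) .leaf) (nat_lit 13195299913264640) (.br (nat_lit 2) (.cons (.br (nat_lit 4) (.cons (.rel (nat_lit 1207977024)) .nil)) .nil)) .leaf)) (nat_lit 13195299914533014) (.br (nat_lit 3) (.cons (.br (nat_lit 0) (.cons (.rel (nat_lit 541065249)) (.cons (.rel (nat_lit 273686529))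 .nil))) .nil)) (.node (.node (.node .leaf (nat_lit 13195299914533489) (.br (nat_lit 2) (.cons (.br (nat_lit 4) (.cons (.rel (nat_lit 1207977024)) .nil)) .nil)) .leaf) (nat_lit 13195299914533765) (.br (nat_lit 4) (.cons (.br (nat_lit 6) (.cons (.rel (nat_lit 18253612608)) .nil)) .nil)) .leaf) (nat_lit 13195299914534141) (.br (nat_lit 2) (.cons (.br (nat_lit 3) (.cons (.rel (nat_lit 335560776)) .nil)) .nil)) (.node (.node .leaf (nat_lit 13195299915303062) (.br (nat_lit 6) (.cons (.br (nat_lit 4) (.cons (.rel (nat_lit 18254680320)) (.cons (.rel (nat_lit 18254680320)) .nil))) .nil)) .leaf) (nat_lit 13195299915303537) (.br (nat_lit 1) (.cons (.br (nat_lit 2) (.cons (.rel (nat_lit 83888136)) .nil)) .nil)) .leaf))))) (nat_lit 13195299915506289) (.br (nat_lit 6) (.cons (.br (nat_lit 1) (.cons (.rel (nat_lit 17196941568)) (.cons (.rel (nat_lit 17196646533)) .nil))) .nil)) (.node (.node (.node (.node (.node (.node .leaf (nat_lit 13195299915506445) (.br (nat_lit 1) (.cons (.br (nat_lit 3) (.cons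 (.br (nat_lit 4) (.cons (.rel (nat_lit 1343520768)) .nil)) .nil)) .nil)) .leaf) (nat_lit 13195299915506466) (.br (nat_lit 1) (.cons (.br (nat_lit 3) (.cons (.rel (nat_lit 285230406)) .nil)) .nil)) .leaf) (nat_lit 13195299915802876) (.br (nat_lit 3) (.cons (.br (nat_lit 2) (.cons (.rel (nat_lit 335814912)) (.cons (.rel (nat_lit 604259328)) .nil))) .nil)) (.node (.node .leaf (nat_lit 13195299915803249) (.br (nat_lit 1) (.cons (.br (nat_lit 2) (.cons (.rel (nat_lit 101187840)) .nil)) .nil)) .leaf) (nat_lit 13195299915803525) (.br (nat_lit 3) (.cons (.br (nat_lit 4) (.cons (.rel (nat_lit 1342185600)) .nil)) .nil)) .leaf)) (nat_lit 13195299915804160) (.br (nat_lit 1) (.cons (.br (nat_lit 2) (.cons (.rel (nat_lit 101187840)) .nil)) .nil)) (.node (.node (.node .leaf (nat_lit 13195299915868412) (.br (nat_lit 2) (.cons (.br (nat_lit 6) (.cons (.rel (nat_lit 34493972736)) .nil)) .nil)) .leaf) (nat_lit 13195299915868785) (.br (nat_lit 2) (.cons (.br (nat_lit 3) (.cons (.rel (nat_lit 335577120))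 (.cons (.rel (nat_lit 335560776)) .nil))) (.cons (.br (nat_lit 3) (.cons (.rel (nat_lit 335544468)) (.cons (.rel (nat_lit 335545473)) .nil))) .nil))) .leaf) (nat_lit 13195302366931831) (.br (nat_lit 6) (.cons (.br (nat_lit 2) (.cons (.rel (nat_lit 17247260673)) (.cons (.rel (nat_lit 17247248400)) .nil))) .nil)) (.node (.node .leaf (nat_lit 13196330512020216) (.br (nat_lit 1) (.cons (.br (nat_lit 6) (.cons (.rel (nat_lit 34393296897)) .nil)) .nil)) .leaf) (nat_lit 13196330512476470) (.br (nat_lit 2) (.cons (.br (nat_lit 3) (.cons (.rel (nat_lit 335552529)) .nil)) .nil)) .leaf))) (nat_lit 13196330512476920) (.br (nat_lit 2) (.cons (.br (nat_lit 3) (.cons (.rel (nat_lit 335545473)) .nil)) .nil)) (.node (.node (.node (.node .leaf (nat_lit 13196330514720026) (.br (nat_lit 1) (.cons (.br (nat_lit 2) (.cons (.rel (nat_lit 83887122)) .nil)) .nil)) .leaf) (nat_lit 13196330704884337) (.br (nat_lit 3) (.cons (.br (nat_lit 2) (.cons (.rel (nat_lit 335544468)) (.cons (.rel (nat_lit 335545473))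 .nil))) .nil)) .leaf) (nat_lit 13196330704958065) (.br (nat_lit 3) (.cons (.br (nat_lit 2) (.cons (.rel (nat_lit 671105040)) (.cons (.rel (nat_lit 335544468)) (.cons (.rel (nat_lit 335552529)) (.cons (.rel (nat_lit 671105040)) (.cons (.rel (nat_lit 335545473)) .nil)))))) (.cons (.br (nat_lit 4) (.cons (.rel (nat_lit 1342328832)) (.cons (.rel (nat_lit 1342194708)) (.cons (.rel (nat_lit 1342177350)) .nil)))) (.cons (.br (nat_lit 4) (.cons (.rel (nat_lit 1342183440)) (.cons (.rel (nat_lit 1342328832)) (.cons (.rel (nat_lit 1342185600)) .nil)))) .nil)))) (.node (.node .leaf (nat_lit 13196330704958250) (.br (nat_lit 1) (.cons (.br (nat_lit 3) (.cons (.rel (nat_lit 285745152)) .nil)) .nil)) .leaf) (nat_lit 13196330704958951) (.br (nat_lit 1) (.cons (.br (nat_lit 4) (.cons (.rel (nat_lit 2164785216)) .nil)) .nil)) .leaf)) (nat_lit 13196330705087089) (.br (nat_lit 1) (.cons (.br (nat_lit 2) (.cons (.rel (nat_lit 83888136)) .nil)) .nil)) (.node (.node (.node .leaf (nat_lit 13196330705152757)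 (.br (nat_lit 0) (.cons (.br (nat_lit 3) (.cons (.rel (nat_lit 272630085)) .nil)) .nil)) .leaf) (nat_lit 13196330705153401) (.br (nat_lit 5) (.cons (.br (nat_lit 0) (.cons (.rel (nat_lit 4304405760)) (.cons (.rel (nat_lit 4299162660)) .nil))) .nil)) .leaf) (nat_lit 13196330705153525) (.br (nat_lit 2) (.cons (.br (nat_lit 3) (.cons (.rel (nat_lit 335544468)) .nil)) .nil)) (.node (.node .leaf (nat_lit 13196330705414949) (.br (nat_lit 0) (.cons (.br (nat_lit 3) (.cons (.rel (nat_lit 273678468)) .nil)) .nil)) .leaf) (nat_lit 13196330705415045) (.br (nat_lit 1) (.cons (.br (nat_lit 2) (.cons (.rel (nat_lit 83888136)) (.cons (.rel (nat_lit 152059908)) (.cons (.rel (nat_lit 83888136)) .nil)))) (.cons (.br (nat_lit 5) (.cons (.rel (nat_lit 8606781696)) (.cons (.rel (nat_lit 4311746625)) .nil))) .nil))) .leaf)))) (nat_lit 13196330705415454) (.br (nat_lit 2) (.cons (.br (nat_lit 3) (.cons (.rel (nat_lit 603980352)) .nil)) .nil)) (.node (.node (.node (.node (.node .leaf (nat_lit 13196330706624698)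 (.br (nat_lit 1) (.cons (.br (nat_lit 2) (.cons (.rel (nat_lit 84148500)) .nil)) .nil)) .leaf) (nat_lit 13196330707657514) (.br (nat_lit 0) (.cons (.br (nat_lit 1) (.cons (.rel (nat_lit 20992257)) .nil)) .nil)) .leaf) (nat_lit 13196330707657981) (.br (nat_lit 0) (.cons (.br (nat_lit 2) (.cons (.rel (nat_lit 77594640)) .nil)) .nil)) (.node (.node .leaf (nat_lit 13196330707954325) (.br (nat_lit 2) (.cons (.br (nat_lit 4) (.cons (.rel (nat_lit 1141133328)) .nil)) .nil)) .leaf) (nat_lit 13196330708019825) (.br (nat_lit 4) (.cons (.br (nat_lit 2) (.cons (.rel (nat_lit 1140859392)) (.cons (.rel (nat_lit 1141129305)) .nil))) .nil)) .leaf)) (nat_lit 13196332714030341) (.br (nat_lit 1) (.cons (.br (nat_lit 6) (.cons (.rel (nat_lit 17197695492)) .nil)) .nil)) (.node (.node (.node .leaf (nat_lit 13196332714030567) (.br (nat_lit 0) (.cons (.br (nat_lit 5) (.cons (.rel (nat_lit 4299161610)) .nil)) .nil)) .leaf) (nat_lit 13196333662398589) (.br (nat_lit 1) (.cons (.br (nat_lit 2) (.cons (.rel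 (nat_lit 83911680)) .nil)) .nil)) .leaf) (nat_lit 13196335969004407) (.br (nat_lit 1) (.cons (.br (nat_lit 3) (.cons (.rel (nat_lit 570691584)) .nil)) .nil)) (.node (.node .leaf (nat_lit 13196335969005045) (.br (nat_lit 2) (.cons (.br (nat_lit 3) (.cons (.rel (nat_lit 335552529)) .nil)) .nil)) .leaf) (nat_lit 13196335987119340) (.br (nat_lit 2) (.cons (.br (nat_lit 3) (.cons (.rel (nat_lit 335552529)) .nil)) .nil)) .leaf))) (nat_lit 13200625186170885) (.br (nat_lit 3) (.cons (.br (nat_lit 0) (.cons (.rel (nat_lit 272630085)) (.cons (.rel (nat_lit 272648448)) .nil))) .nil)) (.node (.node (.node (.node .leaf (nat_lit 13200625186171190) (.br (nat_lit 1) (.cons (.br (nat_lit 2) (.cons (.rel (nat_lit 167773188)) .nil)) .nil)) .leaf) (nat_lit 13200625187143990) (.br (nat_lit 2) (.cons (.br (nat_lit 3) (.cons (.rel (nat_lit 335545473)) .nil)) .nil)) .leaf) (nat_lit 13200625187230456) (.br (nat_lit 0) (.cons (.br (nat_lit 1) (.cons (.rel (nat_lit 20979984)) .nil)) .nil)) (.node (.node .leaf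 (nat_lit 13200625188413590) (.br (nat_lit 1) (.cons (.br (nat_lit 3) (.cons (.rel (nat_lit 570691584)) .nil)) .nil)) .leaf) (nat_lit 13200631351268113) (.br (nat_lit 2) (.cons (.br (nat_lit 0) (.cons (.rel (nat_lit 71303301)) (.cons (.rel (nat_lit 77594640)) .nil))) .nil)) .leaf)) (nat_lit 13200631351798385) (.br (nat_lit 3) (.cons (.br (nat_lit 6) (.cons (.rel (nat_lit 17448305745)) .nil)) .nil)) (.node (.node (.node .leaf (nat_lit 13200631351798545) (.br (nat_lit 0) (.cons (.br (nat_lit 1) (.cons (.rel (nat_lit 37765188)) (.cons (.rel (nat_lit 22040640)) (.cons (.rel (nat_lit 42221568)) (.cons (.rel (nat_lit 20979984)) .nil))))) (.cons (.br (nat_lit 2) (.cons (.rel (nat_lit 71303301)) (.cons (.rel (nat_lit 71323680)) .nil))) .nil))) .leaf) (nat_lit 13200631354041105) (.br (nat_lit 2) (.cons (.br (nat_lit 3) (.cons (.rel (nat_lit 403701762)) (.cons (.rel (nat_lit 335564802)) .nil))) .nil)) .leaf) (nat_lit 13200631354337317) (.br (nat_lit 1) (.cons (.br (nat_lit 2) (.cons (.rel (nat_lit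 101187840)) .nil)) .nil)) (.node (.node .leaf (nat_lit 13200631354338210) (.br (nat_lit 1) (.cons (.br (nat_lit 3) (.cons (.rel (nat_lit 286262289)) .nil)) .nil)) .leaf) (nat_lit 13200631354338816) (.br (nat_lit 1) (.cons (.br (nat_lit 2) (.cons (.rel (nat_lit 101187840)) (.cons (.rel (nat_lit 101187840)) .nil))) .nil)) .leaf))))))

/-- refutations 31 -/
def e31 : EX := (.node (.node (.node (.node (.node (.node .leaf (nat_lit 13200797802752285) (.br (nat_lit 0) (.cons (.br (nat_lit 2) (.cons (.rel (nat_lit 71369808)) .nil)) .nil)) .leaf) (nat_lit 13200839934535685) (.br (nat_lit 2) (.cons (.br (nat_lit 6) (.cons (.rel (nat_lit 34493972736)) .nil)) .nil)) .leaf) (nat_lit 13200839936778245) (.br (nat_lit 3) (.cons (.br (nat_lit 6) (.cons (.rel (nat_lit 34896678912)) .nil)) .nil)) (.node (.node .leaf (nat_lit 13200840361898736) (.br (nat_lit 0) (.cons (.br (nat_lit 3) (.cons (.rel (nat_lit 273686529)) .nil)) .nil)) .leaf) (nat_lit 13200842874265655) (.br (nat_lit 0) (.cons (.br (nat_lit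 2) (.cons (.rel (nat_lit 71598336)) .nil)) .nil)) .leaf)) (nat_lit 13200843067680893) (.br (nat_lit 0) (.cons (.br (nat_lit 2) (.cons (.rel (nat_lit 138543360)) .nil)) .nil)) (.node (.node (.node .leaf (nat_lit 13200843067681078) (.br (nat_lit 1) (.cons (.br (nat_lit 2) (.cons (.rel (nat_lit 83906640)) .nil)) .nil)) .leaf) (nat_lit 13200843067682029) (.br (nat_lit 1) (.cons (.br (nat_lit 5) (.cons (.rel (nat_lit 4313124864)) .nil)) .nil)) .leaf) (nat_lit 13200843067682279) (.br (nat_lit 1) (.cons (.br (nat_lit 3) (.cons (.rel (nat_lit 302007360)) .nil)) .nil)) (.node (.node .leaf (nat_lit 13200843068756728) (.br (nat_lit 5) (.cons (.br (nat_lit 6) (.cons (.rel (nat_lit 21476413440)) .nil)) .nil)) .leaf) (nat_lit 13200843069924113) (.br (nat_lit 2) (.cons (.br (nat_lit 3) (.cons (.rel (nat_lit 335552529)) .nil)) .nil)) .leaf))) (nat_lit 13200889175194355) (.br (nat_lit 4) (.cons (.br (nat_lit 5) (.cons (.rel (nat_lit 5368971306)) .nil)) .nil)) (.node (.node (.node (.node .leaf (nat_lit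 13200889175208197) (.br (nat_lit 2) (.cons (.br (nat_lit 3) (.cons (.rel (nat_lit 403701762)) .nil)) .nil)) .leaf) (nat_lit 13200889175665547) (.br (nat_lit 0) (.cons (.br (nat_lit 2) (.cons (.rel (nat_lit 139460640)) .nil)) .nil)) .leaf) (nat_lit 13201078153769221) (.br (nat_lit 0) (.cons (.br (nat_lit 1) (.cons (.rel (nat_lit 22020117)) .nil)) .nil)) (.node (.node .leaf (nat_lit 13201097633843205) (.br (nat_lit 0) (.cons (.br (nat_lit 3) (.cons (.rel (nat_lit 273686529)) .nil)) .nil)) .leaf) (nat_lit 13201103385570167) (.br (nat_lit 6) (.cons (.br (nat_lit 3) (.cons (.rel (nat_lit 17448304740)) (.cons (.rel (nat_lit 17448322053)) .nil))) .nil)) .leaf)) (nat_lit 13201115298525936) (.br (nat_lit 6) (.cons (.br (nat_lit 0) (.cons (.rel (nat_lit 17184137280)) (.cons (.rel (nat_lit 17184084096)) .nil))) .nil)) (.node (.node (.node .leaf (nat_lit 13201115298526444) (.br (nat_lit 0) (.cons (.br (nat_lit 1) (.cons (.rel (nat_lit 20979984)) .nil)) .nil)) .leaf) (nat_lit 13201115298981918)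 (.br (nat_lit 2) (.cons (.br (nat_lit 1) (.cons (.rel (nat_lit 83911680)) (.cons (.rel (nat_lit 83886117)) .nil))) .nil)) .leaf) (nat_lit 13201115298982688) (.br (nat_lit 1) (.cons (.br (nat_lit 4) (.cons (.rel (nat_lit 1090520193)) .nil)) .nil)) (.node (.node .leaf (nat_lit 13201115298983190) (.br (nat_lit 1) (.cons (.br (nat_lit 4) (.cons (.rel (nat_lit 1090527249)) .nil)) .nil)) .leaf) (nat_lit 13201115298983399) (.br (nat_lit 1) (.cons (.br (nat_lit 2) (.cons (.rel (nat_lit 83888136)) (.cons (.rel (nat_lit 83888136)) .nil))) .nil)) .leaf)))) (nat_lit 13201115299692581) (.br (nat_lit 1) (.cons (.br (nat_lit 2) (.cons (.rel (nat_lit 83888136)) (.cons (.rel (nat_lit 83888136)) .nil))) .nil)) (.node (.node (.node (.node (.node .leaf (nat_lit 13201115299692726) (.br (nat_lit 1) (.cons (.br (nat_lit 6) (.cons (.rel (nat_lit 17196654594)) (.cons (.rel (nat_lit 17215520832)) .nil))) (.cons (.br (nat_lit 3) (.cons (.rel (nat_lit 286347264)) (.cons (.rel (nat_lit 285233424)) .nil))) .nil)))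 .leaf) (nat_lit 13201115299693321) (.br (nat_lit 1) (.cons (.br (nat_lit 2) (.cons (.rel (nat_lit 101187840)) (.cons (.rel (nat_lit 83888136)) .nil))) .nil)) .leaf) (nat_lit 13201115299693354) (.br (nat_lit 1) (.cons (.br (nat_lit 2) (.cons (.rel (nat_lit 83888136)) .nil)) .nil)) (.node (.node .leaf (nat_lit 13201115299694105) (.br (nat_lit 2) (.cons (.br (nat_lit 1) (.cons (.rel (nat_lit 83888136)) (.cons (.rel (nat_lit 83887122)) (.cons (.rel (nat_lit 83888136)) (.cons (.rel (nat_lit 83952768)) .nil))))) (.cons (.br (nat_lit 3) (.cons (.rel (nat_lit 335560776)) (.cons (.rel (nat_lit 671105040)) (.cons (.rel (nat_lit 335560776)) .nil)))) (.cons (.br (nat_lit 6) (.cons (.rel (nat_lit 34493972736)) (.cons (.rel (nat_lit 34493972736)) (.cons (.rel (nat_lit 34493972736)) .nil)))) .nil)))) .leaf) (nat_lit 13201115300193012) (.br (nat_lit 1) (.cons (.br (nat_lit 6) (.cons (.rel (nat_lit 17196646533)) .nil)) .nil)) .leaf)) (nat_lit 13201115301225258) (.br (nat_lit 2) (.cons (.br (nat_lit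 1) (.cons (.rel (nat_lit 83887122)) (.cons (.rel (nat_lit 83959824)) .nil))) .nil)) (.node (.node (.node .leaf (nat_lit 13201117752650484) (.br (nat_lit 1) (.cons (.br (nat_lit 3) (.cons (.rel (nat_lit 285233424)) .nil)) .nil)) .leaf) (nat_lit 13201117752651289) (.br (nat_lit 3) (.cons (.br (nat_lit 6) (.cons (.rel (nat_lit 34896678912)) .nil)) .nil)) .leaf) (nat_lit 13201117753360414) (.br (nat_lit 0) (.cons (.br (nat_lit 1) (.cons (.rel (nat_lit 22093824)) .nil)) .nil)) (.node (.node .leaf (nat_lit 13201117753360665) (.br (nat_lit 1) (.cons (.br (nat_lit 2) (.cons (.rel (nat_lit 83959824)) .nil)) .nil)) .leaf) (nat_lit 13201117753361945) (.br (nat_lit 2) (.cons (.br (nat_lit 5) (.cons (.rel (nat_lit 4429185093)) .nil)) .nil)) .leaf))) (nat_lit 13201117753726188) (.br (nat_lit 1) (.cons (.br (nat_lit 2) (.cons (.rel (nat_lit 101187840)) .nil)) .nil)) (.node (.node (.node (.node .leaf (nat_lit 13201118239189748) (.br (nat_lit 2) (.cons (.br (nat_lit 3) (.cons (.rel (nat_lit 335628288))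 .nil)) .nil)) .leaf) (nat_lit 13201120580321317) (.br (nat_lit 1) (.cons (.br (nat_lit 2) (.cons (.rel (nat_lit 83886117)) .nil)) .nil)) .leaf) (nat_lit 13201120903282725) (.br (nat_lit 0) (.cons (.br (nat_lit 4) (.cons (.rel (nat_lit 2155888704)) .nil)) .nil)) (.node (.node .leaf (nat_lit 13201708004460570) (.br (nat_lit 2) (.cons (.br (nat_lit 4) (.cons (.rel (nat_lit 1209270288)) .nil)) .nil)) .leaf) (nat_lit 13201708004469637) (.br (nat_lit 2) (.cons (.br (nat_lit 6) (.cons (.rel (nat_lit 17249141760)) .nil)) .nil)) .leaf)) (nat_lit 13201708005179644) (.br (nat_lit 1) (.cons (.br (nat_lit 2) (.cons (.rel (nat_lit 151257600)) .nil)) .nil)) (.node (.node (.node .leaf (nat_lit 13201708005444269) (.br (nat_lit 1) (.cons (.br (nat_lit 2) (.cons (.rel (nat_lit 167773188)) .nil)) .nil)) .leaf) (nat_lit 13201708005536369) (.br (nat_lit 2) (.cons (.br (nat_lit 6) (.cons (.rel (nat_lit 34493972736)) (.cons (.rel (nat_lit 17247248400)) .nil))) .nil)) .leaf) (nat_lit 13201708006712672) (.br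 (nat_lit 3) (.cons (.br (nat_lit 0) (.cons (.rel (nat_lit 272648448)) (.cons (.rel (nat_lit 273155136)) .nil))) .nil)) (.node .leaf (nat_lit 13201708007010960) (.br (nat_lit 2) (.cons (.br (nat_lit 4) (.cons (.rel (nat_lit 1141899525)) .nil)) .nil)) .leaf)))))

/-- refutations 32 -/
def e32 : EX := (.node (.node (.node (.node (.node (.node (.node (.node .leaf (nat_lit 13202145606836229) (.br (nat_lit 1) (.cons (.br (nat_lit 2) (.cons (.rel (nat_lit 83887122)) .nil)) .nil)) .leaf) (nat_lit 13202148024177946) (.br (nat_lit 4) (.cons (.br (nat_lit 5) (.cons (.rel (nat_lit 9663678528)) .nil)) .nil)) .leaf) (nat_lit 13202149048118004) (.br (nat_lit 0) (.cons (.br (nat_lit 2) (.cons (.rel (nat_lit 138543360)) .nil)) .nil)) (.node .leaf (nat_lit 13202150747784573) (.br (nat_lit 1) (.cons (.br (nat_lit 2) (.cons (.rel (nat_lit 83888136)) .nil)) .nil)) .leaf)) (nat_lit 13206056633690737) (.br (nat_lit 2) (.cons (.br (nat_lit 0) (.cons (.rel (nat_lit 142610433)) (.cons (.rel (nat_lit 75563520))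 .nil))) .nil)) (.node (.node .leaf (nat_lit 13206217641505393) (.br (nat_lit 0) (.cons (.br (nat_lit 2) (.cons (.rel (nat_lit 71369808)) .nil)) .nil)) .leaf) (nat_lit 13206217720122229) (.br (nat_lit 2) (.cons (.br (nat_lit 6) (.cons (.rel (nat_lit 17314092096)) .nil)) .nil)) (.node .leaf (nat_lit 13206217720129662) (.br (nat_lit 0) (.cons (.br (nat_lit 1) (.cons (.rel (nat_lit 20979984)) .nil)) .nil)) .leaf))) (nat_lit 13206217720130437) (.br (nat_lit 5) (.cons (.br (nat_lit 0) (.cons (.rel (nat_lit 4299243600)) (.cons (.rel (nat_lit 8594145552)) .nil))) .nil)) (.node (.node (.node .leaf (nat_lit 13206217720879729) (.br (nat_lit 2) (.cons (.br (nat_lit 6) (.cons (.rel (nat_lit 17247241344)) .nil)) .nil)) .leaf) (nat_lit 13206217721197169) (.br (nat_lit 2) (.cons (.br (nat_lit 4) (.cons (.rel (nat_lit 2281705728)) .nil)) .nil)) (.node .leaf (nat_lit 13206217722620789) (.br (nat_lit 2) (.cons (.br (nat_lit 4) (.cons (.rel (nat_lit 1140859392)) .nil)) .nil)) .leaf)) (nat_lit 13206217722643868)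 (.br (nat_lit 0) (.cons (.br (nat_lit 2) (.cons (.rel (nat_lit 71598336)) .nil)) .nil)) (.node (.node .leaf (nat_lit 13206217722671864) (.br (nat_lit 0) (.cons (.br (nat_lit 1) (.cons (.rel (nat_lit 42221568)) .nil)) .nil)) .leaf) (nat_lit 13206223319517314) (.br (nat_lit 0) (.cons (.br (nat_lit 1) (.cons (.rel (nat_lit 20979984)) .nil)) .nil)) (.node .leaf (nat_lit 13206380756444661) (.br (nat_lit 0) (.cons (.br (nat_lit 4) (.cons (.rel (nat_lit 1078264068)) .nil)) .nil)) .leaf)))) (nat_lit 13206380756921845) (.br (nat_lit 0) (.cons (.br (nat_lit 2) (.cons (.rel (nat_lit 71374848)) .nil)) .nil)) (.node (.node (.node (.node .leaf (nat_lit 13206380928410526) (.br (nat_lit 4) (.cons (.br (nat_lit 5) (.cons (.rel (nat_lit 6442471425)) .nil)) .nil)) .leaf) (nat_lit 13206380928411125) (.br (nat_lit 5) (.cons (.br (nat_lit 6) (.cons (.rel (nat_lit 38654836740)) (.cons (.rel (nat_lit 42949674240)) (.cons (.rel (nat_lit 21475098648)) .nil)))) (.cons (.br (nat_lit 2) (.cons (.rel (nat_lit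 4362405888)) (.cons (.rel (nat_lit 4362354720)) (.cons (.rel (nat_lit 4362354720)) .nil)))) .nil))) (.node .leaf (nat_lit 13206380928416521) (.br (nat_lit 5) (.cons (.br (nat_lit 6) (.cons (.rel (nat_lit 21475168320)) .nil)) .nil)) .leaf)) (nat_lit 13206380928559356) (.br (nat_lit 2) (.cons (.br (nat_lit 1) (.cons (.rel (nat_lit 83888136)) (.cons (.rel (nat_lit 151257600)) .nil))) .nil)) (.node (.node .leaf (nat_lit 13206380928560491) (.br (nat_lit 0) (.cons (.br (nat_lit 1) (.cons (.rel (nat_lit 20972928)) .nil)) .nil)) .leaf) (nat_lit 13206380928871702) (.br (nat_lit 0) (.cons (.br (nat_lit 1) (.cons (.rel (nat_lit 22282500)) .nil)) .nil)) (.node .leaf (nat_lit 13206380928871925) (.br (nat_lit 0) (.cons (.br (nat_lit 4) (.cons (.rel (nat_lit 1078022208)) .nil)) .nil)) .leaf))) (nat_lit 13206380928887710) (.br (nat_lit 2) (.cons (.br (nat_lit 1) (.cons (.rel (nat_lit 83887122)) (.cons (.rel (nat_lit 83911680)) (.cons (.rel (nat_lit 83888136)) .nil)))) .nil)) (.node (.node (.node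 .leaf (nat_lit 13206380928887721) (.br (nat_lit 1) (.cons (.br (nat_lit 3) (.cons (.rel (nat_lit 553664517)) .nil)) .nil)) .leaf) (nat_lit 13206380928888086) (.br (nat_lit 1) (.cons (.br (nat_lit 6) (.cons (.rel (nat_lit 17196654594)) (.cons (.rel (nat_lit 17196646533)) .nil))) .nil)) (.node .leaf (nat_lit 13206380929597692) (.br (nat_lit 2) (.cons (.br (nat_lit 4) (.cons (.rel (nat_lit 1141145601)) (.cons (.rel (nat_lit 1207977024)) .nil))) (.cons (.br (nat_lit 4) (.cons (.rel (nat_lit 1141145601)) (.cons (.rel (nat_lit 1141145601)) .nil))) .nil))) .leaf)) (nat_lit 13206380929598250) (.br (nat_lit 1) (.cons (.br (nat_lit 2) (.cons (.rel (nat_lit 83888136)) .nil)) .nil)) (.node (.node .leaf (nat_lit 13206380929954569) (.br (nat_lit 2) (.cons (.br (nat_lit 5) (.cons (.rel (nat_lit 4362080784)) .nil)) .nil)) .leaf) (nat_lit 13206380931493377) (.br (nat_lit 2) (.cons (.br (nat_lit 4) (.cons (.rel (nat_lit 1142424576)) .nil)) .nil)) (.node .leaf (nat_lit 13207076104885760) (.br (nat_lit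 3) (.cons (.br (nat_lit 5) (.cons (.rel (nat_lit 4563402777)) .nil)) .nil)) .leaf))))) (nat_lit 13207076105398309) (.br (nat_lit 0) (.cons (.br (nat_lit 2) (.cons (.rel (nat_lit 75759681)) .nil)) .nil)) (.node (.node (.node (.node (.node .leaf (nat_lit 13207076105415962) (.br (nat_lit 3) (.cons (.br (nat_lit 5) (.cons (.rel (nat_lit 4832133120)) (.cons (.rel (nat_lit 4563406992)) .nil))) .nil)) .leaf) (nat_lit 13207076106125349) (.br (nat_lit 0) (.cons (.br (nat_lit 3) (.cons (.rel (nat_lit 272648448)) (.cons (.rel (nat_lit 545800512)) .nil))) .nil)) (.node .leaf (nat_lit 13207076106422309) (.br (nat_lit 2) (.cons (.br (nat_lit 5) (.cons (.rel (nat_lit 4364174340)) .nil)) .nil)) .leaf)) (nat_lit 13207076106474257) (.br (nat_lit 2) (.cons (.br (nat_lit 6) (.cons (.rel (nat_lit 17247248400)) .nil)) .nil)) (.node (.node .leaf (nat_lit 13207076106625649) (.br (nat_lit 4) (.cons (.br (nat_lit 6) (.cons (.rel (nat_lit 19327354884)) .nil)) .nil)) .leaf) (nat_lit 13207076108020337) (.br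 (nat_lit 4) (.cons (.br (nat_lit 6) (.cons (.rel (nat_lit 35433504768)) .nil)) .nil)) (.node .leaf (nat_lit 13207076227049477) (.br (nat_lit 3) (.cons (.br (nat_lit 0) (.cons (.rel (nat_lit 272648448)) (.cons (.rel (nat_lit 273711120)) .nil))) .nil)) .leaf))) (nat_lit 13207076227050997) (.br (nat_lit 0) (.cons (.br (nat_lit 2) (.cons (.rel (nat_lit 75759681)) .nil)) .nil)) (.node (.node (.node .leaf (nat_lit 13207076228022582) (.br (nat_lit 2) (.cons (.br (nat_lit 3) (.cons (.rel (nat_lit 335577120)) .nil)) .nil)) .leaf) (nat_lit 13207076228116485) (.br (nat_lit 0) (.cons (.br (nat_lit 3) (.cons (.rel (nat_lit 276825096)) .nil)) .nil)) (.node .leaf (nat_lit 13207076229591045) (.br (nat_lit 0) (.cons (.br (nat_lit 2) (.cons (.rel (nat_lit 71303301)) .nil)) .nil)) .leaf)) (nat_lit 13207076713058355) (.br (nat_lit 5) (.cons (.br (nat_lit 6) (.cons (.rel (nat_lit 21477015552)) .nil)) .nil)) (.node (.node .leaf (nat_lit 13207076713058454) (.br (nat_lit 3) (.cons (.br (nat_lit 6) (.cons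 (.rel (nat_lit 17448337536)) .nil)) .nil)) .leaf) (nat_lit 13207076713058556) (.br (nat_lit 6) (.cons (.br (nat_lit 1) (.cons (.rel (nat_lit 17196666912)) (.cons (.rel (nat_lit 17196666912)) .nil))) .nil)) (.node .leaf (nat_lit 13207076713059680) (.br (nat_lit 1) (.cons (.br (nat_lit 3) (.cons (.rel (nat_lit 285279552)) .nil)) .nil)) .leaf)))) (nat_lit 13207076713132284) (.br (nat_lit 1) (.cons (.br (nat_lit 3) (.cons (.rel (nat_lit 553648209)) .nil)) .nil)) (.node (.node (.node (.node .leaf (nat_lit 13207076713132288) (.br (nat_lit 3) (.cons (.br (nat_lit 2) (.cons (.rel (nat_lit 403701762)) (.cons (.rel (nat_lit 335552529)) .nil))) .nil)) .leaf) (nat_lit 13207076713132958) (.br (nat_lit 2) (.cons (.br (nat_lit 0) (.cons (.rel (nat_lit 71374848)) (.cons (.rel (nat_lit 71303301)) .nil))) .nil)) (.node .leaf (nat_lit 13207076713572382) (.br (nat_lit 3) (.cons (.br (nat_lit 1) (.cons (.rel (nat_lit 285238656)) (.cons (.rel (nat_lit 570691584)) .nil))) .nil)) .leaf)) (nat_lit 13207076713572389)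 (.br (nat_lit 1) (.cons (.br (nat_lit 2) (.cons (.rel (nat_lit 101187840)) .nil)) .nil)) (.node (.node .leaf (nat_lit 13207076713573884) (.br (nat_lit 1) (.cons (.br (nat_lit 2) (.cons (.rel (nat_lit 83888136)) .nil)) .nil)) .leaf) (nat_lit 13207076713580574) (.br (nat_lit 2) (.cons (.br (nat_lit 3) (.cons (.rel (nat_lit 671105040)) .nil)) .nil)) (.node .leaf (nat_lit 13207076713580581) (.br (nat_lit 2) (.cons (.br (nat_lit 1) (.cons (.rel (nat_lit 84149505)) (.cons (.rel (nat_lit 83888136)) .nil))) .nil)) .leaf))) (nat_lit 13207076713581854) (.br (nat_lit 0) (.cons (.br (nat_lit 3) (.cons (.rel (nat_lit 277086465)) .nil)) .nil)) (.node (.node (.node .leaf (nat_lit 13207076713588773) (.br (nat_lit 1) (.cons (.br (nat_lit 2) (.cons (.rel (nat_lit 101187840)) (.cons (.rel (nat_lit 101187840)) .nil))) (.cons (.br (nat_lit 2) (.cons (.rel (nat_lit 83952768)) (.cons (.rel (nat_lit 83918913)) .nil))) .nil))) .leaf) (nat_lit 13207076713588918) (.br (nat_lit 2) (.cons (.br (nat_lit 3) (.cons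 (.rel (nat_lit 335545473)) .nil)) .nil)) (.node .leaf (nat_lit 13207076713589361) (.br (nat_lit 6) (.cons (.br (nat_lit 3) (.cons (.rel (nat_lit 17448443904)) (.cons (.rel (nat_lit 17448304740)) (.cons (.rel (nat_lit 17448304740)) (.cons (.rel (nat_lit 17448443904)) (.cons (.rel (nat_lit 17448321048)) .nil)))))) (.cons (.br (nat_lit 2) (.cons (.rel (nat_lit 17247011328)) (.cons (.rel (nat_lit 17248550916)) (.cons (.rel (nat_lit 17314087056)) .nil)))) .nil))) .leaf)) (nat_lit 13207076713589513) (.br (nat_lit 2) (.cons (.br (nat_lit 1) (.cons (.rel (nat_lit 151257600)) (.cons (.rel (nat_lit 83887122)) .nil))) .nil)) (.node (.node .leaf (nat_lit 13207076713590272) (.br (nat_lit 2) (.cons (.br (nat_lit 1) (.cons (.rel (nat_lit 83887122)) (.cons (.rel (nat_lit 151257600)) (.cons (.rel (nat_lit 83918913)) (.cons (.rel (nat_lit 83952768)) .nil))))) .nil)) .leaf) (nat_lit 13207076714299443) (.br (nat_lit 3) (.cons (.br (nat_lit 5) (.cons (.rel (nat_lit 4563550224)) .nil)) .nil)) (.node .leaf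 (nat_lit 13207076714299542) (.br (nat_lit 1) (.cons (.br (nat_lit 0) (.cons (.rel (nat_lit 37753920)) (.cons (.rel (nat_lit 42221568)) .nil))) .nil)) .leaf)))))) (nat_lit 13207076714299574) (.br (nat_lit 1) (.cons (.br (nat_lit 3) (.cons (.rel (nat_lit 553648209)) .nil)) .nil)) (.node (.node (.node (.node (.node (.node (.node .leaf (nat_lit 13207076714300017) (.br (nat_lit 1) (.cons (.br (nat_lit 3) (.cons (.rel (nat_lit 285247764)) (.cons (.rel (nat_lit 570705924)) (.cons (.rel (nat_lit 286347264)) .nil)))) .nil)) .leaf) (nat_lit 13207076714300169) (.br (nat_lit 1) (.cons (.br (nat_lit 2) (.cons (.rel (nat_lit 167773188)) (.cons (.rel (nat_lit 83886117)) .nil))) .nil)) .leaf) (nat_lit 13207076714300194) (.br (nat_lit 1) (.cons (.br (nat_lit 2) (.cons (.rel (nat_lit 83906640)) (.cons (.rel (nat_lit 83888136)) .nil))) .nil)) (.node .leaf (nat_lit 13207076714300669) (.br (nat_lit 1) (.cons (.br (nat_lit 3) (.cons (.rel (nat_lit 285233424)) .nil)) .nil)) .leaf)) (nat_lit 13207076714300953)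 (.br (nat_lit 2) (.cons (.br (nat_lit 5) (.cons (.rel (nat_lit 4429185093)) .nil)) .nil)) (.node (.node .leaf (nat_lit 13207076714563885) (.br (nat_lit 0) (.cons (.br (nat_lit 2) (.cons (.rel (nat_lit 71303301)) .nil)) .nil)) .leaf) (nat_lit 13207076714564269) (.br (nat_lit 1) (.cons (.br (nat_lit 2) (.cons (.rel (nat_lit 83888136)) .nil)) .nil)) (.node .leaf (nat_lit 13207076714596389) (.br (nat_lit 1) (.cons (.br (nat_lit 2) (.cons (.rel (nat_lit 83886117)) (.cons (.rel (nat_lit 83887122)) .nil))) (.cons (.br (nat_lit 2) (.cons (.rel (nat_lit 101187840)) (.cons (.br (nat_lit 3) (.cons (.rel (nat_lit 403701762)) (.cons (.rel (nat_lit 285245697)) (.cons (.rel (nat_lit 285245697)) .nil)))) .nil))) .nil))) .leaf))) (nat_lit 13207076714596604) (.br (nat_lit 1) (.cons (.br (nat_lit 2) (.cons (.rel (nat_lit 83888136)) .nil)) .nil)) (.node (.node (.node .leaf (nat_lit 13207076714596977) (.br (nat_lit 1) (.cons (.br (nat_lit 3) (.cons (.rel (nat_lit 553910592)) .nil)) .nil)) .leaf) (nat_lit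 13207076714597154) (.br (nat_lit 1) (.cons (.br (nat_lit 2) (.cons (.rel (nat_lit 83906640)) .nil)) .nil)) (.node .leaf (nat_lit 13207076714597728) (.br (nat_lit 1) (.cons (.br (nat_lit 6) (.cons (.rel (nat_lit 17196941568)) .nil)) .nil)) .leaf)) (nat_lit 13207076714655926) (.br (nat_lit 2) (.cons (.br (nat_lit 0) (.cons (.rel (nat_lit 71303301)) (.cons (.rel (nat_lit 71374848)) .nil))) .nil)) (.node (.node .leaf (nat_lit 13207076714656369) (.br (nat_lit 2) (.cons (.br (nat_lit 0) (.cons (.rel (nat_lit 142610433)) (.cons (.rel (nat_lit 71311362)) (.cons (.rel (nat_lit 71335953)) .nil)))) (.cons (.br (nat_lit 3) (.cons (.rel (nat_lit 335545473)) (.cons (.rel (nat_lit 335560776)) (.cons (.rel (nat_lit 335545473)) .nil)))) .nil))) .leaf) (nat_lit 13207076714656496) (.br (nat_lit 0) (.cons (.br (nat_lit 1) (.cons (.rel (nat_lit 20989284)) .nil)) .nil)) (.node .leaf (nat_lit 13207076714657120) (.br (nat_lit 3) (.cons (.br (nat_lit 6) (.cons (.rel (nat_lit 17448310785)) .nil)) .nil)) .leaf))))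 (nat_lit 13207076714657280) (.br (nat_lit 3) (.cons (.br (nat_lit 6) (.cons (.rel (nat_lit 17448321048)) .nil)) .nil)) (.node (.node (.node (.node .leaf (nat_lit 13207076714799155) (.br (nat_lit 0) (.cons (.br (nat_lit 2) (.cons (.rel (nat_lit 71303301)) .nil)) .nil)) .leaf) (nat_lit 13207076714799254) (.br (nat_lit 1) (.cons (.br (nat_lit 6) (.cons (.rel (nat_lit 17196713040)) .nil)) .nil)) (.node .leaf (nat_lit 13207076714799729) (.br (nat_lit 3) (.cons (.br (nat_lit 6) (.cons (.rel (nat_lit 34629287952)) .nil)) .nil)) .leaf)) (nat_lit 13207076714860032) (.br (nat_lit 2) (.cons (.br (nat_lit 3) (.cons (.rel (nat_lit 671105040)) (.cons (.rel (nat_lit 335544468)) .nil))) .nil)) (.node (.node .leaf (nat_lit 13207076715569777) (.br (nat_lit 6) (.cons (.br (nat_lit 2) (.cons (.rel (nat_lit 17314092096)) (.cons (.rel (nat_lit 17247260673)) (.cons (.rel (nat_lit 17248550916)) .nil)))) .nil)) .leaf) (nat_lit 13207076715569954) (.br (nat_lit 2) (.cons (.br (nat_lit 3) (.cons (.rel (nat_lit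 335552529)) .nil)) .nil)) (.node .leaf (nat_lit 13207076715570688) (.br (nat_lit 3) (.cons (.br (nat_lit 6) (.cons (.rel (nat_lit 17448322053)) .nil)) .nil)) .leaf))) (nat_lit 13207076716079885) (.br (nat_lit 0) (.cons (.br (nat_lit 1) (.cons (.rel (nat_lit 20972928)) .nil)) .nil)) (.node (.node (.node .leaf (nat_lit 13207076716102313) (.br (nat_lit 2) (.cons (.br (nat_lit 3) (.cons (.rel (nat_lit 335544468)) .nil)) .nil)) .leaf) (nat_lit 13207076716128508) (.br (nat_lit 1) (.cons (.br (nat_lit 3) (.cons (.rel (nat_lit 286294080)) (.cons (.rel (nat_lit 285745152)) .nil))) .nil)) (.node .leaf (nat_lit 13207076716128881) (.br (nat_lit 1) (.cons (.br (nat_lit 6) (.cons (.rel (nat_lit 17196941568)) .nil)) .nil)) .leaf)) (nat_lit 13207076716129058) (.br (nat_lit 0) (.cons (.br (nat_lit 3) (.cons (.rel (nat_lit 273810432)) .nil)) .nil)) (.node (.node .leaf (nat_lit 13207076716129632) (.br (nat_lit 0) (.cons (.br (nat_lit 1) (.cons (.rel (nat_lit 21528576)) .nil)) .nil)) .leaf) (nat_lit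 13207076716129792) (.br (nat_lit 3) (.cons (.br (nat_lit 1) (.cons (.rel (nat_lit 285745152)) (.cons (.rel (nat_lit 285233424)) (.cons (.rel (nat_lit 553664517)) .nil)))) .nil)) (.node .leaf (nat_lit 13207076716130584) (.br (nat_lit 0) (.cons (.br (nat_lit 2) (.cons (.rel (nat_lit 71323680)) .nil)) .nil)) .leaf))))) (nat_lit 13207076716130929) (.br (nat_lit 3) (.cons (.br (nat_lit 0) (.cons (.rel (nat_lit 541102080)) (.cons (.rel (nat_lit 273711120)) .nil))) .nil)) (.node (.node (.node (.node (.node .leaf (nat_lit 13207076716194417) (.br (nat_lit 3) (.cons (.br (nat_lit 2) (.cons (.rel (nat_lit 335545473)) (.cons (.rel (nat_lit 335560776)) .nil))) .nil)) .leaf) (nat_lit 13207076716194594) (.br (nat_lit 0) (.cons (.br (nat_lit 2) (.cons (.rel (nat_lit 71321664)) .nil)) .nil)) (.node .leaf (nat_lit 13207078646579825) (.br (nat_lit 0) (.cons (.br (nat_lit 1) (.cons (.rel (nat_lit 42221568)) .nil)) .nil)) .leaf)) (nat_lit 13207078646633754) (.br (nat_lit 2) (.cons (.br (nat_lit 3) (.cons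 (.rel (nat_lit 604307472)) (.cons (.rel (nat_lit 336594432)) .nil))) (.cons (.br (nat_lit 3) (.cons (.rel (nat_lit 335814912)) (.cons (.rel (nat_lit 335676432)) .nil))) .nil))) (.node (.node .leaf (nat_lit 13207078647162885) (.br (nat_lit 0) (.cons (.br (nat_lit 2) (.cons (.rel (nat_lit 71311362)) .nil)) .nil)) .leaf) (nat_lit 13207078647162906) (.br (nat_lit 2) (.cons (.br (nat_lit 3) (.cons (.rel (nat_lit 335545473)) .nil)) .nil)) (.node .leaf (nat_lit 13207078647163661) (.br (nat_lit 2) (.cons (.br (nat_lit 6) (.cons (.rel (nat_lit 17247011328)) .nil)) .nil)) .leaf))) (nat_lit 13207078647164186) (.br (nat_lit 3) (.cons (.br (nat_lit 6) (.cons (.rel (nat_lit 17448310785)) .nil)) .nil)) (.node (.node (.node .leaf (nat_lit 13207078648230070) (.br (nat_lit 2) (.cons (.br (nat_lit 3) (.cons (.rel (nat_lit 335564802)) .nil)) .nil)) .leaf) (nat_lit 13207078648230513) (.br (nat_lit 0) (.cons (.br (nat_lit 2) (.cons (.rel (nat_lit 71386116)) .nil)) .nil)) (.node .leaf (nat_lit 13207078648373873)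 (.br (nat_lit 3) (.cons (.br (nat_lit 4) (.cons (.rel (nat_lit 1342195713)) .nil)) .nil)) .leaf)) (nat_lit 13207078649143301) (.br (nat_lit 0) (.cons (.br (nat_lit 2) (.cons (.rel (nat_lit 71303301)) .nil)) .nil)) (.node (.node .leaf (nat_lit 13207078649144832) (.br (nat_lit 0) (.cons (.br (nat_lit 2) (.cons (.rel (nat_lit 71303301)) .nil)) .nil)) .leaf) (nat_lit 13207078649768561) (.br (nat_lit 0) (.cons (.br (nat_lit 4) (.cons (.rel (nat_lit 1078022208)) (.cons (.rel (nat_lit 1077953541)) .nil))) .nil)) (.node .leaf (nat_lit 13207078649769242) (.br (nat_lit 0) (.cons (.br (nat_lit 2) (.cons (.rel (nat_lit 142610433)) .nil)) .nil)) .leaf)))) (nat_lit 13207079360178957) (.br (nat_lit 0) (.cons (.br (nat_lit 2) (.cons (.rel (nat_lit 139460640)) .nil)) .nil)) (.node (.node (.node (.node .leaf (nat_lit 13207079360179687) (.br (nat_lit 0) (.cons (.br (nat_lit 1) (.cons (.rel (nat_lit 21037380)) .nil)) .nil)) .leaf) (nat_lit 13207081369266202) (.br (nat_lit 4) (.cons (.br (nat_lit 6)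 (.cons (.rel (nat_lit 19327352865)) .nil)) .nil)) (.node .leaf (nat_lit 13207081371500570) (.br (nat_lit 0) (.cons (.br (nat_lit 4) (.cons (.rel (nat_lit 1077937233)) .nil)) .nil)) .leaf)) (nat_lit 13207082392146705) (.br (nat_lit 2) (.cons (.br (nat_lit 5) (.cons (.rel (nat_lit 4429185093)) (.cons (.rel (nat_lit 4362080784)) .nil))) (.cons (.br (nat_lit 5) (.cons (.rel (nat_lit 4429251600)) (.cons (.rel (nat_lit 4362093057)) .nil))) .nil))) (.node (.node .leaf (nat_lit 13207082392668945) (.br (nat_lit 2) (.cons (.br (nat_lit 5) (.cons (.rel (nat_lit 4362080784)) .nil)) .nil)) .leaf) (nat_lit 13207082392676977) (.br (nat_lit 2) (.cons (.br (nat_lit 3) (.cons (.rel (nat_lit 335544468)) (.cons (.rel (nat_lit 335544468)) .nil))) (.cons (.br (nat_lit 3) (.cons (.rel (nat_lit 336855045)) (.cons (.rel (nat_lit 335609925)) .nil))) .nil))) (.node .leaf (nat_lit 13207082392677137) (.br (nat_lit 6) (.cons (.br (nat_lit 2) (.cons (.rel (nat_lit 34493972736)) (.cons (.rel (nat_lit 34426847328))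 (.cons (.rel (nat_lit 34426864641)) .nil)))) (.cons (.br (nat_lit 2) (.cons (.rel (nat_lit 34426852368)) (.cons (.rel (nat_lit 17247011328)) (.cons (.rel (nat_lit 17247248400)) .nil)))) .nil))) .leaf))) (nat_lit 13207082393652736) (.br (nat_lit 0) (.cons (.br (nat_lit 1) (.cons (.rel (nat_lit 21528576)) .nil)) .nil)) (.node (.node (.node .leaf (nat_lit 13207082393946737) (.br (nat_lit 2) (.cons (.br (nat_lit 3) (.cons (.rel (nat_lit 335560776)) (.cons (.rel (nat_lit 335545473)) .nil))) .nil)) .leaf) (nat_lit 13207082394658304) (.br (nat_lit 0) (.cons (.br (nat_lit 2) (.cons (.rel (nat_lit 71598336)) .nil)) .nil)) (.node .leaf (nat_lit 13207082395215909) (.br (nat_lit 3) (.cons (.br (nat_lit 1) (.cons (.rel (nat_lit 285245697)) (.cons (.rel (nat_lit 285245697)) .nil))) .nil)) .leaf)) (nat_lit 13207082395216497) (.br (nat_lit 3) (.cons (.br (nat_lit 6) (.cons (.rel (nat_lit 17448390720)) (.cons (.rel (nat_lit 17448632580)) .nil))) (.cons (.br (nat_lit 6) (.cons (.rel (nat_lit 17448304740))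 (.cons (.rel (nat_lit 34896625728)) .nil))) .nil))) (.node (.node .leaf (nat_lit 13207082395217408) (.br (nat_lit 3) (.cons (.br (nat_lit 2) (.cons (.rel (nat_lit 335560776)) (.cons (.rel (nat_lit 335544468)) (.cons (.rel (nat_lit 335560776)) .nil)))) (.cons (.br (nat_lit 2) (.cons (.rel (nat_lit 671105040)) (.cons (.rel (nat_lit 403701762)) (.cons (.rel (nat_lit 335552529)) .nil)))) .nil))) .leaf) (nat_lit 13207082481764378) (.br (nat_lit 1) (.cons (.br (nat_lit 3) (.cons (.rel (nat_lit 285245697)) .nil)) .nil)) (.node .leaf (nat_lit 13207082481824496) (.br (nat_lit 2) (.cons (.br (nat_lit 3) (.cons (.rel (nat_lit 335609925)) .nil)) .nil)) .leaf)))))))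

/-- refutations 33 -/
def e33 : EX := (.node (.node (.node (.node (.node (.node .leaf (nat_lit 13207111072856316) (.br (nat_lit 3) (.cons (.br (nat_lit 1) (.cons (.rel (nat_lit 285245697)) (.cons (.rel (nat_lit 302007360)) (.cons (.rel (nat_lit 285745152)) .nil)))) .nil)) .leaf) (nat_lit 13207111072856320) (.br (nat_lit 3) (.cons (.br (nat_lit 4) (.cons (.rel (nat_lit 1342178400)) (.cons (.rel (nat_lit 1342195713)) .nil))) .nil)) (.node .leaf (nat_lit 13207111072857451) (.br (nat_lit 0) (.cons (.br (nat_lit 3) (.cons (.rel (nat_lit 278134848)) .nil)) .nil)) .leaf)) (nat_lit 13207111072999676) (.br (nat_lit 1) (.cons (.br (nat_lit 3) (.cons (.rel (nat_lit 286294080)) .nil)) .nil)) (.node (.node .leaf (nat_lit 13207111073310746) (.br (nat_lit 2) (.cons (.br (nat_lit 3) (.cons (.rel (nat_lit 604259328)) .nil)) .nil)) .leaf) (nat_lit 13207111073310757) (.br (nat_lit 3) (.cons (.br (nat_lit 1) (.cons (.rel (nat_lit 302055504)) (.cons (.rel (nat_lit 285745152)) .nil))) .nil)) .leaf))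 (nat_lit 13207111073312245) (.br (nat_lit 2) (.cons (.br (nat_lit 1) (.cons (.rel (nat_lit 151257600)) (.cons (.rel (nat_lit 83887122)) .nil))) .nil)) (.node (.node (.node .leaf (nat_lit 13207111073318949) (.br (nat_lit 1) (.cons (.br (nat_lit 2) (.cons (.rel (nat_lit 101187840)) (.cons (.rel (nat_lit 101187840)) .nil))) .nil)) .leaf) (nat_lit 13207111073319693) (.br (nat_lit 3) (.cons (.br (nat_lit 2) (.cons (.rel (nat_lit 335544468)) (.cons (.rel (nat_lit 335545473)) .nil))) .nil)) .leaf) (nat_lit 13207111073320313) (.br (nat_lit 1) (.cons (.br (nat_lit 4) (.cons (.rel (nat_lit 1090539522)) .nil)) .nil)) (.node (.node .leaf (nat_lit 13207111073320437) (.br (nat_lit 2) (.cons (.br (nat_lit 1) (.cons (.rel (nat_lit 151257600)) (.cons (.rel (nat_lit 83887122)) (.cons (.rel (nat_lit 83887122)) .nil)))) (.cons (.br (nat_lit 1) (.cons (.rel (nat_lit 151257600)) (.cons (.rel (nat_lit 83888136)) (.cons (.rel (nat_lit 167773188)) .nil)))) .nil))) .leaf) (nat_lit 13207111073327286) (.br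 (nat_lit 1) (.cons (.br (nat_lit 3) (.cons (.rel (nat_lit 285245697)) .nil)) .nil)) .leaf))) (nat_lit 13207111073327881) (.br (nat_lit 1) (.cons (.br (nat_lit 2) (.cons (.rel (nat_lit 83911680)) (.cons (.rel (nat_lit 83886117)) .nil))) .nil)) (.node (.node (.node (.node .leaf (nat_lit 13207111073328030) (.br (nat_lit 0) (.cons (.br (nat_lit 2) (.cons (.rel (nat_lit 71311362)) .nil)) .nil)) .leaf) (nat_lit 13207111073328406) (.br (nat_lit 0) (.cons (.br (nat_lit 1) (.cons (.rel (nat_lit 37748880)) .nil)) .nil)) .leaf) (nat_lit 13207111073328640) (.br (nat_lit 1) (.cons (.br (nat_lit 2) (.cons (.rel (nat_lit 167773188)) (.cons (.rel (nat_lit 101187840)) (.cons (.rel (nat_lit 101187840)) .nil)))) (.cons (.br (nat_lit 2) (.cons (.rel (nat_lit 83886117)) (.cons (.rel (nat_lit 101187840)) (.cons (.rel (nat_lit 83959824)) .nil)))) .nil))) (.node (.node .leaf (nat_lit 13207111074140186) (.br (nat_lit 0) (.cons (.br (nat_lit 2) (.cons (.rel (nat_lit 71321664)) .nil)) .nil)) .leaf) (nat_lit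 13207111074334757) (.br (nat_lit 1) (.cons (.br (nat_lit 5) (.cons (.rel (nat_lit 8623509504)) .nil)) .nil)) .leaf)) (nat_lit 13207111074334972) (.br (nat_lit 1) (.cons (.br (nat_lit 2) (.cons (.rel (nat_lit 83886117)) .nil)) .nil)) (.node (.node (.node .leaf (nat_lit 13207111074335501) (.br (nat_lit 3) (.cons (.br (nat_lit 2) (.cons (.rel (nat_lit 335552529)) (.cons (.rel (nat_lit 604243032)) .nil))) .nil)) .leaf) (nat_lit 13207111074335625) (.br (nat_lit 1) (.cons (.br (nat_lit 3) (.cons (.rel (nat_lit 285233424)) .nil)) .nil)) .leaf) (nat_lit 13207111074336121) (.br (nat_lit 1) (.cons (.br (nat_lit 4) (.cons (.rel (nat_lit 1090539522)) .nil)) .nil)) (.node (.node .leaf (nat_lit 13207111074336245) (.br (nat_lit 2) (.cons (.br (nat_lit 5) (.cons (.rel (nat_lit 4362338376)) .nil)) .nil)) .leaf) (nat_lit 13207111074336270) (.br (nat_lit 2) (.cons (.br (nat_lit 3) (.cons (.rel (nat_lit 604307472)) .nil)) .nil)) .leaf)))) (nat_lit 13207111074394368) (.br (nat_lit 3) (.cons (.br (nat_lit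 4) (.cons (.rel (nat_lit 1342194708)) (.cons (.rel (nat_lit 2684358720)) (.cons (.rel (nat_lit 1342177350)) .nil)))) .nil)) (.node (.node (.node (.node (.node .leaf (nat_lit 13207111074395049) (.br (nat_lit 1) (.cons (.br (nat_lit 4) (.cons (.rel (nat_lit 1109458944)) .nil)) .nil)) .leaf) (nat_lit 13207111074395499) (.br (nat_lit 2) (.cons (.br (nat_lit 6) (.cons (.rel (nat_lit 17247241344)) .nil)) .nil)) (.node .leaf (nat_lit 13207111074537724) (.br (nat_lit 2) (.cons (.br (nat_lit 5) (.cons (.rel (nat_lit 4362338376)) .nil)) .nil)) .leaf)) (nat_lit 13207111075840777) (.br (nat_lit 1) (.cons (.br (nat_lit 2) (.cons (.rel (nat_lit 83888136)) .nil)) .nil)) (.node (.node .leaf (nat_lit 13207116781319676) (.br (nat_lit 2) (.cons (.br (nat_lit 3) (.cons (.rel (nat_lit 335560776)) (.cons (.rel (nat_lit 335676432)) .nil))) (.cons (.br (nat_lit 3) (.cons (.rel (nat_lit 335544468)) (.cons (.rel (nat_lit 335545473)) .nil))) .nil))) .leaf) (nat_lit 13207116782588685) (.br (nat_lit 3) (.cons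 (.br (nat_lit 6) (.cons (.rel (nat_lit 17448390720)) .nil)) .nil)) .leaf)) (nat_lit 13207116784009997) (.br (nat_lit 4) (.cons (.br (nat_lit 1) (.cons (.rel (nat_lit 2181054480)) (.cons (.rel (nat_lit 2181054480)) .nil))) .nil)) (.node (.node (.node .leaf (nat_lit 13207116841502746) (.br (nat_lit 0) (.cons (.br (nat_lit 2) (.cons (.rel (nat_lit 71311362)) .nil)) .nil)) .leaf) (nat_lit 13207285405378586) (.br (nat_lit 1) (.cons (.br (nat_lit 2) (.cons (.rel (nat_lit 83911680)) .nil)) .nil)) .leaf) (nat_lit 13207293916332784) (.br (nat_lit 2) (.cons (.br (nat_lit 3) (.cons (.rel (nat_lit 335564802)) .nil)) .nil)) (.node (.node .leaf (nat_lit 13207293916333593) (.br (nat_lit 2) (.cons (.br (nat_lit 5) (.cons (.rel (nat_lit 4429185093)) .nil)) .nil)) .leaf) (nat_lit 13207334411301549) (.br (nat_lit 0) (.cons (.br (nat_lit 2) (.cons (.rel (nat_lit 142610433)) .nil)) .nil)) .leaf))) (nat_lit 13207340216544143) (.br (nat_lit 0) (.cons (.br (nat_lit 2) (.cons (.rel (nat_lit 72352260)) .nil))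 .nil)) (.node (.node (.node (.node .leaf (nat_lit 13207457204051330) (.br (nat_lit 0) (.cons (.br (nat_lit 1) (.cons (.rel (nat_lit 37748880)) .nil)) .nil)) .leaf) (nat_lit 13207497561663769) (.br (nat_lit 1) (.cons (.br (nat_lit 2) (.cons (.br (nat_lit 3) (.cons (.rel (nat_lit 335564802)) (.cons (.rel (nat_lit 335577120)) .nil))) (.cons (.rel (nat_lit 83952768)) .nil))) (.cons (.br (nat_lit 2) (.cons (.rel (nat_lit 83888136)) (.cons (.rel (nat_lit 167773188)) .nil))) .nil))) .leaf) (nat_lit 13207497564270094) (.br (nat_lit 0) (.cons (.br (nat_lit 5) (.cons (.rel (nat_lit 8598323205)) .nil)) .nil)) (.node (.node .leaf (nat_lit 13207499553958169) (.br (nat_lit 2) (.cons (.br (nat_lit 6) (.cons (.rel (nat_lit 17247248400)) .nil)) .nil)) .leaf) (nat_lit 13207499554669169) (.br (nat_lit 0) (.cons (.br (nat_lit 3) (.cons (.rel (nat_lit 541065249)) .nil)) .nil)) .leaf)) (nat_lit 13207503424844037) (.br (nat_lit 0) (.cons (.br (nat_lit 1) (.cons (.rel (nat_lit 22020117)) .nil)) .nil)) (.node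 (.node (.node .leaf (nat_lit 13207540465200654) (.br (nat_lit 2) (.cons (.br (nat_lit 3) (.cons (.rel (nat_lit 335564802)) .nil)) .nil)) .leaf) (nat_lit 13207542579129080) (.br (nat_lit 6) (.cons (.br (nat_lit 1) (.cons (.rel (nat_lit 17196654594)) (.cons (.rel (nat_lit 17213816832)) .nil))) .nil)) .leaf) (nat_lit 13207545851761900) (.br (nat_lit 2) (.cons (.br (nat_lit 3) (.cons (.rel (nat_lit 335544468)) .nil)) .nil)) (.node (.node .leaf (nat_lit 13207546174359036) (.br (nat_lit 0) (.cons (.br (nat_lit 1) (.cons (.rel (nat_lit 20972928)) .nil)) .nil)) .leaf) (nat_lit 13207546251684465) (.br (nat_lit 1) (.cons (.br (nat_lit 3) (.cons (.rel (nat_lit 285245697)) .nil)) .nil)) .leaf)))))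

/-- refutations 34 -/
def e34 : EX := (.node (.node (.node (.node .leaf (nat_lit 11980278717803121) (.br (nat_lit 4) (.cons (.br (nat_lit 2) (.cons (.rel (nat_lit 1141133328)) (.cons (.rel (nat_lit 1208090625)) .nil))) .nil)) .leaf) (nat_lit 11980278717803397) (.br (nat_lit 3) (.cons (.br (nat_lit 5) (.cons (.rel (nat_lit 4563550224)) .nil)) .nil)) (.node .leaf (nat_lit 11980278720408177) (.br (nat_lit 0) (.cons (.br (nat_lit 2) (.cons (.rel (nat_lit 71311362)) .nil)) .nil)) .leaf)) (nat_lit 11982658653972790) (.br (nat_lit 5) (.cons (.br (nat_lit 3) (.cons (.rel (nat_lit 4563403782)) (.cons (.rel (nat_lit 4563406992)) .nil))) .nil)) (.node (.node .leaf (nat_lit 11982658654683446) (.br (nat_lit 1) (.cons (.br (nat_lit 5) (.cons (.rel (nat_lit 8623509504)) .nil)) .nil)) .leaf) (nat_lit 11982660990199868) (.br (nat_lit 1) (.cons (.br (nat_lit 2) (.cons (.rel (nat_lit 101187840)) .nil)) .nil)) .leaf)) (nat_lit 11986819456116093) (.br (nat_lit 1) (.cons (.br (nat_lit 2) (.cons (.rel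 (nat_lit 83918913)) .nil)) .nil)) (.node (.node (.node .leaf (nat_lit 11986820989699485) (.br (nat_lit 0) (.cons (.br (nat_lit 2) (.cons (.rel (nat_lit 142610433)) .nil)) .nil)) .leaf) (nat_lit 11987257540536601) (.br (nat_lit 1) (.cons (.br (nat_lit 2) (.cons (.rel (nat_lit 101187840)) .nil)) .nil)) .leaf) (nat_lit 11987257541247257) (.br (nat_lit 2) (.cons (.br (nat_lit 6) (.cons (.rel (nat_lit 17247241344)) .nil)) .nil)) (.node (.node .leaf (nat_lit 11992196755170685) (.br (nat_lit 2) (.cons (.br (nat_lit 5) (.cons (.rel (nat_lit 8657047617)) .nil)) .nil)) .leaf) (nat_lit 11993598447381781) (.br (nat_lit 3) (.cons (.br (nat_lit 5) (.cons (.rel (nat_lit 9126806544)) (.cons (.rel (nat_lit 4563404832)) .nil))) .nil)) .leaf)))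

/-- refutations 35 -/
def e35 : EX := (.node (.node (.node (.node (.node (.node .leaf (nat_lit 13317285591164954) (.br (nat_lit 2) (.cons (.br (nat_lit 3) (.cons (.rel (nat_lit 335544468)) .nil)) .nil)) .leaf) (nat_lit 13317285591164958) (.br (nat_lit 1) (.cons (.br (nat_lit 2) (.cons (.rel (nat_lit 101187840)) .nil)) .nil)) (.node .leaf (nat_lit 13317285591166464) (.br (nat_lit 2) (.cons (.br (nat_lit 3) (.cons (.rel (nat_lit 335628288)) .nil)) .nil)) .leaf)) (nat_lit 13317285591173146) (.br (nat_lit 1) (.cons (.br (nat_lit 2) (.cons (.rel (nat_lit 83888136)) .nil)) .nil)) (.node (.node .leaf (nat_lit 13317285591173157) (.br (nat_lit 1) (.cons (.br (nat_lit 2) (.cons (.rel (nat_lit 83886117)) .nil)) .nil)) .leaf) (nat_lit 13317285591174645) (.br (nat_lit 1) (.cons (.br (nat_lit 3) (.cons (.rel (nat_lit 285344004)) .nil)) .nil)) .leaf)) (nat_lit 13317285591174652) (.br (nat_lit 1) (.cons (.br (nat_lit 2) (.cons (.rel (nat_lit 167773188)) .nil)) .nil)) (.node (.node (.node .leaf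 (nat_lit 13317285591181338) (.br (nat_lit 2) (.cons (.br (nat_lit 3) (.cons (.rel (nat_lit 336594432)) (.cons (.rel (nat_lit 335544468)) .nil))) .nil)) .leaf) (nat_lit 13317285591181342) (.br (nat_lit 3) (.cons (.br (nat_lit 2) (.cons (.rel (nat_lit 335544468)) (.cons (.rel (nat_lit 335544468)) .nil))) .nil)) .leaf) (nat_lit 13317285591181349) (.br (nat_lit 1) (.cons (.br (nat_lit 2) (.cons (.rel (nat_lit 83888136)) (.cons (.rel (nat_lit 83888136)) .nil))) .nil)) (.node (.node .leaf (nat_lit 13317285591182837) (.br (nat_lit 0) (.cons (.br (nat_lit 3) (.cons (.rel (nat_lit 541065249)) (.cons (.rel (nat_lit 541065249)) .nil))) .nil)) .leaf) (nat_lit 13317285591182848) (.br (nat_lit 1) (.cons (.br (nat_lit 2) (.cons (.rel (nat_lit 84017220)) .nil)) .nil)) .leaf))) (nat_lit 13317285592188954) (.br (nat_lit 1) (.cons (.br (nat_lit 2) (.cons (.rel (nat_lit 83887122)) .nil)) .nil)) (.node (.node (.node (.node .leaf (nat_lit 13317285593163264) (.br (nat_lit 0) (.cons (.br (nat_lit 2) (.cons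 (.rel (nat_lit 72614928)) .nil)) .nil)) .leaf) (nat_lit 13317291341093624) (.br (nat_lit 0) (.cons (.br (nat_lit 3) (.cons (.rel (nat_lit 272696592)) .nil)) .nil)) .leaf) (nat_lit 13317291341310853) (.br (nat_lit 1) (.cons (.br (nat_lit 2) (.cons (.rel (nat_lit 83918913)) .nil)) .nil)) (.node (.node .leaf (nat_lit 13317291343613181) (.br (nat_lit 1) (.cons (.br (nat_lit 3) (.cons (.rel (nat_lit 285245697)) .nil)) .nil)) .leaf) (nat_lit 13319481774893808) (.br (nat_lit 2) (.cons (.br (nat_lit 3) (.cons (.rel (nat_lit 335544468)) .nil)) .nil)) .leaf)) (nat_lit 13322742847260854) (.br (nat_lit 1) (.cons (.br (nat_lit 2) (.cons (.rel (nat_lit 84148500)) .nil)) .nil)) (.node (.node (.node .leaf (nat_lit 13322742847261949) (.br (nat_lit 1) (.cons (.br (nat_lit 4) (.cons (.rel (nat_lit 1090588680)) .nil)) .nil)) .leaf) (nat_lit 13323773638404997) (.br (nat_lit 1) (.cons (.br (nat_lit 4) (.cons (.rel (nat_lit 1090524228)) .nil)) .nil)) .leaf) (nat_lit 13323773639115529) (.br (nat_lit 1)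 (.cons (.br (nat_lit 3) (.cons (.rel (nat_lit 285245697)) .nil)) .nil)) (.node (.node .leaf (nat_lit 13323773641010458) (.br (nat_lit 0) (.cons (.br (nat_lit 3) (.cons (.rel (nat_lit 272696592)) .nil)) .nil)) .leaf) (nat_lit 13323776758487800) (.br (nat_lit 3) (.cons (.br (nat_lit 0) (.cons (.rel (nat_lit 272634120)) (.cons (.rel (nat_lit 273686529)) .nil))) .nil)) .leaf)))) (nat_lit 13323776758950648) (.br (nat_lit 2) (.cons (.br (nat_lit 3) (.cons (.rel (nat_lit 335609925)) .nil)) .nil)) (.node (.node (.node (.node (.node .leaf (nat_lit 13323776758958840) (.br (nat_lit 0) (.cons (.br (nat_lit 1) (.cons (.rel (nat_lit 25231377)) .nil)) .nil)) .leaf) (nat_lit 13370062052368444) (.br (nat_lit 0) (.cons (.br (nat_lit 1) (.cons (.rel (nat_lit 20979984)) .nil)) .nil)) (.node .leaf (nat_lit 13370064543937264) (.br (nat_lit 1) (.cons (.br (nat_lit 3) (.cons (.rel (nat_lit 553713666)) .nil)) .nil)) .leaf)) (nat_lit 13370379788151589) (.br (nat_lit 0) (.cons (.br (nat_lit 1) (.cons (.rel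 (nat_lit 22093824)) .nil)) .nil)) (.node (.node .leaf (nat_lit 13370543089184250) (.br (nat_lit 3) (.cons (.br (nat_lit 0) (.cons (.rel (nat_lit 273810432)) (.cons (.rel (nat_lit 273155136)) .nil))) .nil)) .leaf) (nat_lit 13370543089933598) (.br (nat_lit 0) (.cons (.br (nat_lit 2) (.cons (.rel (nat_lit 71303301)) .nil)) .nil)) .leaf)) (nat_lit 13372444501089786) (.br (nat_lit 0) (.cons (.br (nat_lit 2) (.cons (.rel (nat_lit 71369808)) .nil)) .nil)) (.node (.node (.node .leaf (nat_lit 13376598879569132) (.br (nat_lit 0) (.cons (.br (nat_lit 2) (.cons (.rel (nat_lit 71434260)) .nil)) .nil)) .leaf) (nat_lit 13376598882066492) (.br (nat_lit 4) (.cons (.br (nat_lit 6) (.cons (.rel (nat_lit 35433480210)) .nil)) .nil)) .leaf) (nat_lit 13376602151126397) (.br (nat_lit 1) (.cons (.br (nat_lit 0) (.cons (.rel (nat_lit 25165920)) (.cons (.rel (nat_lit 20992257)) .nil))) .nil)) (.node (.node .leaf (nat_lit 13376602151380998) (.br (nat_lit 1) (.cons (.br (nat_lit 2) (.cons (.rel (nat_lit 83888136))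 .nil)) .nil)) .leaf) (nat_lit 13376602151381792) (.br (nat_lit 1) (.cons (.br (nat_lit 2) (.cons (.rel (nat_lit 83888136)) .nil)) .nil)) .leaf))) (nat_lit 13376602151382272) (.br (nat_lit 1) (.cons (.br (nat_lit 2) (.cons (.rel (nat_lit 83888136)) (.cons (.rel (nat_lit 83888136)) .nil))) .nil)) (.node (.node (.node (.node .leaf (nat_lit 13376602151382502) (.br (nat_lit 0) (.cons (.br (nat_lit 5) (.cons (.rel (nat_lit 8594145552)) .nil)) .nil)) .leaf) (nat_lit 13376602151382522) (.br (nat_lit 2) (.cons (.br (nat_lit 3) (.cons (.rel (nat_lit 335577120)) (.cons (.rel (nat_lit 336855045)) .nil))) .nil)) .leaf) (nat_lit 13376603707467782) (.br (nat_lit 1) (.cons (.br (nat_lit 2) (.cons (.rel (nat_lit 152109057)) .nil)) .nil)) (.node (.node .leaf (nat_lit 13376722267858950) (.br (nat_lit 2) (.cons (.br (nat_lit 4) (.cons (.rel (nat_lit 1141179456)) .nil)) .nil)) .leaf) (nat_lit 13376722267860449) (.br (nat_lit 2) (.cons (.br (nat_lit 3) (.cons (.rel (nat_lit 335549508)) .nil)) .nil)) .leaf))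 (nat_lit 13376722268609264) (.br (nat_lit 0) (.cons (.br (nat_lit 2) (.cons (.rel (nat_lit 71311362)) .nil)) .nil)) (.node (.node (.node .leaf (nat_lit 13376765239215517) (.br (nat_lit 2) (.cons (.br (nat_lit 1) (.cons (.rel (nat_lit 83886117)) (.cons (.rel (nat_lit 83888136)) .nil))) .nil)) .leaf) (nat_lit 13383424115279104) (.br (nat_lit 2) (.cons (.br (nat_lit 3) (.cons (.rel (nat_lit 335613960)) .nil)) .nil)) .leaf) (nat_lit 13383424115533884) (.br (nat_lit 1) (.cons (.br (nat_lit 2) (.cons (.rel (nat_lit 152043600)) .nil)) .nil)) (.node (.node .leaf (nat_lit 13383424115535329) (.br (nat_lit 2) (.cons (.br (nat_lit 3) (.cons (.rel (nat_lit 335609925)) .nil)) .nil)) .leaf) (nat_lit 13383424115535354) (.br (nat_lit 0) (.cons (.br (nat_lit 2) (.cons (.rel (nat_lit 71374848)) .nil)) .nil)) .leaf)))))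

/-- refutations 36 -/
def e36 : EX := (.node (.node (.node (.node (.node (.node (.node .leaf (nat_lit 13387654364702746) (.br (nat_lit 2) (.cons (.br (nat_lit 3) (.cons (.rel (nat_lit 336855045)) (.cons (.rel (nat_lit 335544468)) .nil))) .nil)) .leaf) (nat_lit 13387654364702750) (.br (nat_lit 1) (.cons (.br (nat_lit 2) (.cons (.rel (nat_lit 83888136)) .nil)) .nil)) .leaf) (nat_lit 13387654364702757) (.br (nat_lit 2) (.cons (.br (nat_lit 3) (.cons (.rel (nat_lit 335544468)) .nil)) .nil)) (.node (.node .leaf (nat_lit 13387654364710938) (.br (nat_lit 2) (.cons (.br (nat_lit 3) (.cons (.rel (nat_lit 335676432)) (.cons (.rel (nat_lit 335552529)) .nil))) .nil)) .leaf) (nat_lit 13387654364710942) (.br (nat_lit 1) (.cons (.br (nat_lit 2) (.cons (.br (nat_lit 3) (.cons (.rel (nat_lit 286262289)) (.cons (.rel (nat_lit 402653568)) .nil))) .nil)) .nil)) .leaf)) (nat_lit 13387654364710949) (.br (nat_lit 2) (.cons (.br (nat_lit 3) (.cons (.rel (nat_lit 336855045)) (.cons (.rel (nat_lit 402653568))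 .nil))) .nil)) (.node (.node (.node .leaf (nat_lit 13387654364712444) (.br (nat_lit 2) (.cons (.br (nat_lit 3) (.cons (.rel (nat_lit 336855045)) .nil)) .nil)) .leaf) (nat_lit 13387654364719130) (.br (nat_lit 3) (.cons (.br (nat_lit 0) (.cons (.rel (nat_lit 541065249)) (.cons (.rel (nat_lit 541196352)) (.cons (.rel (nat_lit 541196352)) .nil)))) .nil)) .leaf) (nat_lit 13387654364719134) (.br (nat_lit 1) (.cons (.br (nat_lit 2) (.cons (.rel (nat_lit 83888136)) (.cons (.br (nat_lit 3) (.cons (.rel (nat_lit 336855045)) (.cons (.rel (nat_lit 335544468)) (.cons (.rel (nat_lit 285745152)) .nil)))) .nil))) .nil)) (.node (.node .leaf (nat_lit 13387654364719141) (.br (nat_lit 2) (.cons (.br (nat_lit 3) (.cons (.rel (nat_lit 671105040)) (.cons (.rel (nat_lit 335544468)) .nil))) (.cons (.br (nat_lit 3) (.cons (.rel (nat_lit 335549508)) (.cons (.rel (nat_lit 335544468)) .nil))) .nil))) .leaf) (nat_lit 13387654366699776) (.br (nat_lit 6) (.cons (.br (nat_lit 1) (.cons (.rel (nat_lit 17196679185))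 (.cons (.rel (nat_lit 34377564288)) .nil))) .nil)) .leaf))) (nat_lit 13387656461392128) (.br (nat_lit 0) (.cons (.br (nat_lit 3) (.cons (.rel (nat_lit 273711120)) .nil)) .nil)) (.node (.node (.node (.node .leaf (nat_lit 13387657258788901) (.br (nat_lit 0) (.cons (.br (nat_lit 2) (.cons (.rel (nat_lit 142610433)) .nil)) .nil)) .leaf) (nat_lit 13387657401396461) (.br (nat_lit 1) (.cons (.br (nat_lit 6) (.cons (.rel (nat_lit 17213816832)) .nil)) .nil)) .leaf) (nat_lit 13387657403908133) (.br (nat_lit 1) (.cons (.br (nat_lit 2) (.cons (.rel (nat_lit 83887122)) .nil)) .nil)) (.node (.node .leaf (nat_lit 13387657403936773) (.br (nat_lit 3) (.cons (.br (nat_lit 0) (.cons (.rel (nat_lit 272696592)) (.cons (.rel (nat_lit 272634120)) .nil))) .nil)) .leaf) (nat_lit 13387659061882885) (.br (nat_lit 0) (.cons (.br (nat_lit 1) (.cons (.rel (nat_lit 20972928)) .nil)) .nil)) .leaf)) (nat_lit 13387659061883136) (.br (nat_lit 3) (.cons (.br (nat_lit 1) (.cons (.rel (nat_lit 285233424)) (.cons (.rel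 (nat_lit 285233424)) (.cons (.rel (nat_lit 285233424)) .nil)))) .nil)) (.node (.node (.node .leaf (nat_lit 13387659061883505) (.br (nat_lit 2) (.cons (.br (nat_lit 3) (.cons (.rel (nat_lit 335628288)) .nil)) .nil)) .leaf) (nat_lit 13387659061884267) (.br (nat_lit 2) (.cons (.br (nat_lit 3) (.cons (.rel (nat_lit 403701762)) .nil)) .nil)) .leaf) (nat_lit 13387659062033009) (.br (nat_lit 0) (.cons (.br (nat_lit 2) (.cons (.rel (nat_lit 71303301)) (.cons (.rel (nat_lit 71303301)) (.cons (.rel (nat_lit 138543360)) .nil)))) .nil)) (.node (.node .leaf (nat_lit 13387659062323825) (.br (nat_lit 1) (.cons (.br (nat_lit 3) (.cons (.rel (nat_lit 286524672)) (.cons (.rel (nat_lit 285279552)) .nil))) (.cons (.br (nat_lit 3) (.cons (.rel (nat_lit 570691584)) (.cons (.rel (nat_lit 286261284)) .nil))) .nil))) .leaf) (nat_lit 13387659062323981) (.br (nat_lit 1) (.cons (.br (nat_lit 2) (.cons (.rel (nat_lit 101187840)) .nil)) .nil)) .leaf)))) (nat_lit 13387659062324736) (.br (nat_lit 0) (.cons (.br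 (nat_lit 3) (.cons (.rel (nat_lit 541102080)) (.cons (.rel (nat_lit 276848640)) (.cons (.rel (nat_lit 276824082)) .nil)))) .nil)) (.node (.node (.node (.node (.node .leaf (nat_lit 13387659062331422) (.br (nat_lit 1) (.cons (.br (nat_lit 2) (.cons (.rel (nat_lit 101187840)) .nil)) .nil)) .leaf) (nat_lit 13387659062332017) (.br (nat_lit 6) (.cons (.br (nat_lit 3) (.cons (.rel (nat_lit 34628174112)) (.cons (.rel (nat_lit 17448309780)) .nil))) .nil)) .leaf) (nat_lit 13387659062332169) (.br (nat_lit 0) (.cons (.br (nat_lit 5) (.cons (.rel (nat_lit 4299309057)) (.cons (.rel (nat_lit 4299243600)) (.cons (.rel (nat_lit 8598323205)) .nil)))) (.cons (.br (nat_lit 2) (.cons (.rel (nat_lit 71307336)) (.cons (.rel (nat_lit 71303301)) .nil))) .nil))) (.node (.node .leaf (nat_lit 13387659062332917) (.br (nat_lit 5) (.cons (.br (nat_lit 3) (.cons (.rel (nat_lit 4563502080)) (.cons (.rel (nat_lit 9126806544)) .nil))) .nil)) .leaf) (nat_lit 13387659062332928) (.br (nat_lit 0) (.cons (.br (nat_lit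 5) (.cons (.rel (nat_lit 4303626240)) (.cons (.rel (nat_lit 4303626240)) .nil))) (.cons (.br (nat_lit 2) (.cons (.rel (nat_lit 71311362)) (.cons (.rel (nat_lit 71303301)) .nil))) .nil))) .leaf)) (nat_lit 13387659062339614) (.br (nat_lit 2) (.cons (.br (nat_lit 1) (.cons (.rel (nat_lit 83886117)) (.cons (.rel (nat_lit 83952768)) .nil))) .nil)) (.node (.node (.node .leaf (nat_lit 13387659062340209) (.br (nat_lit 6) (.cons (.br (nat_lit 3) (.cons (.rel (nat_lit 34628698113)) (.cons (.rel (nat_lit 17448309780)) .nil))) .nil)) .leaf) (nat_lit 13387659062340361) (.br (nat_lit 2) (.cons (.br (nat_lit 3) (.cons (.rel (nat_lit 335564802)) (.cons (.rel (nat_lit 335564802)) (.cons (.rel (nat_lit 336855045)) .nil)))) .nil)) .leaf) (nat_lit 13387659062341109) (.br (nat_lit 3) (.cons (.br (nat_lit 2) (.cons (.rel (nat_lit 335564802)) (.cons (.rel (nat_lit 335628288)) .nil))) .nil)) (.node (.node .leaf (nat_lit 13387659062341120) (.br (nat_lit 2) (.cons (.br (nat_lit 3) (.cons (.rel (nat_lit 603980352))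 (.cons (.rel (nat_lit 335628288)) (.cons (.rel (nat_lit 335676432)) .nil)))) .nil)) .leaf) (nat_lit 13387659063050270) (.br (nat_lit 1) (.cons (.br (nat_lit 2) (.cons (.rel (nat_lit 101187840)) (.cons (.rel (nat_lit 83886117)) (.cons (.rel (nat_lit 83888136)) .nil)))) (.cons (.br (nat_lit 2) (.cons (.rel (nat_lit 152048640)) (.cons (.rel (nat_lit 83888136)) (.cons (.rel (nat_lit 101187840)) .nil)))) .nil))) .leaf))) (nat_lit 13387659063152645) (.br (nat_lit 4) (.cons (.br (nat_lit 5) (.cons (.rel (nat_lit 10737418500)) .nil)) .nil)) (.node (.node (.node (.node .leaf (nat_lit 13387659063347237) (.br (nat_lit 2) (.cons (.br (nat_lit 3) (.cons (.rel (nat_lit 335676432)) (.cons (.rel (nat_lit 335552529)) (.cons (.rel (nat_lit 335676432)) .nil)))) .nil)) .leaf) (nat_lit 13387659063406774) (.br (nat_lit 3) (.cons (.br (nat_lit 0) (.cons (.rel (nat_lit 273678468)) (.cons (.rel (nat_lit 272630085)) .nil))) .nil)) .leaf) (nat_lit 13387659063406848) (.br (nat_lit 2) (.cons (.br (nat_lit 3)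 (.cons (.rel (nat_lit 335628288)) .nil)) .nil)) (.node (.node .leaf (nat_lit 13387659063407217) (.br (nat_lit 3) (.cons (.br (nat_lit 6) (.cons (.rel (nat_lit 34629287952)) (.cons (.rel (nat_lit 17448370197)) .nil))) .nil)) .leaf) (nat_lit 13387659063407979) (.br (nat_lit 2) (.cons (.br (nat_lit 3) (.cons (.rel (nat_lit 336594432)) .nil)) .nil)) .leaf)) (nat_lit 13387659063408128) (.br (nat_lit 0) (.cons (.br (nat_lit 6) (.cons (.rel (nat_lit 17184129030)) .nil)) .nil)) (.node (.node (.node .leaf (nat_lit 13387659063415409) (.br (nat_lit 3) (.cons (.br (nat_lit 2) (.cons (.rel (nat_lit 335544468)) (.cons (.rel (nat_lit 335552529)) .nil))) .nil)) .leaf) (nat_lit 13387660102066206) (.br (nat_lit 1) (.cons (.br (nat_lit 2) (.cons (.rel (nat_lit 84017220)) .nil)) .nil)) .leaf) (nat_lit 13387660102066928) (.br (nat_lit 2) (.cons (.br (nat_lit 5) (.cons (.rel (nat_lit 8657047617)) .nil)) .nil)) (.node .leaf (nat_lit 13387660102527006) (.br (nat_lit 2) (.cons (.br (nat_lit 6) (.cons (.rel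 (nat_lit 34493972736)) .nil)) .nil)) .leaf))))) (nat_lit 13387660103500536) (.br (nat_lit 1) (.cons (.br (nat_lit 6) (.cons (.rel (nat_lit 17196664896)) .nil)) .nil)) (.node (.node (.node (.node (.node (.node .leaf (nat_lit 13387660103602936) (.br (nat_lit 0) (.cons (.br (nat_lit 2) (.cons (.rel (nat_lit 72352260)) .nil)) .nil)) .leaf) (nat_lit 13390274296750336) (.br (nat_lit 1) (.cons (.br (nat_lit 3) (.cons (.rel (nat_lit 285233424)) .nil)) .nil)) .leaf) (nat_lit 13394139764806413) (.br (nat_lit 2) (.cons (.br (nat_lit 5) (.cons (.rel (nat_lit 4362405888)) .nil)) .nil)) (.node (.node .leaf (nat_lit 13394139764860405) (.br (nat_lit 5) (.cons (.br (nat_lit 2) (.cons (.rel (nat_lit 4364174340)) (.cons (.rel (nat_lit 4429185093)) .nil))) .nil)) .leaf) (nat_lit 13394139765319706) (.br (nat_lit 2) (.cons (.br (nat_lit 1) (.cons (.rel (nat_lit 83886117)) (.cons (.rel (nat_lit 151257600)) .nil))) .nil)) .leaf)) (nat_lit 13394139765319710) (.br (nat_lit 2) (.cons (.br (nat_lit 1) (.cons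 (.rel (nat_lit 83952768)) (.cons (.rel (nat_lit 83886117)) .nil))) .nil)) (.node (.node (.node .leaf (nat_lit 13394139765319717) (.br (nat_lit 2) (.cons (.br (nat_lit 3) (.cons (.rel (nat_lit 335544468)) .nil)) .nil)) .leaf) (nat_lit 13394139765327898) (.br (nat_lit 1) (.cons (.br (nat_lit 2) (.cons (.rel (nat_lit 101187840)) (.cons (.rel (nat_lit 83906640)) .nil))) .nil)) .leaf) (nat_lit 13394139765327902) (.br (nat_lit 1) (.cons (.br (nat_lit 2) (.cons (.rel (nat_lit 167773188)) (.cons (.rel (nat_lit 84017220)) .nil))) (.cons (.br (nat_lit 2) (.cons (.rel (nat_lit 83887122)) (.cons (.rel (nat_lit 83888136)) .nil))) .nil))) (.node (.node .leaf (nat_lit 13394139765327909) (.br (nat_lit 1) (.cons (.br (nat_lit 2) (.cons (.rel (nat_lit 83888136)) (.cons (.rel (nat_lit 84017220)) .nil))) (.cons (.br (nat_lit 2) (.cons (.rel (nat_lit 83906640)) (.cons (.rel (nat_lit 83888136)) .nil))) .nil))) .leaf) (nat_lit 13394139765328657) (.br (nat_lit 3) (.cons (.br (nat_lit 2) (.cons (.rel (nat_lit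 335676432)) (.cons (.rel (nat_lit 603980352)) .nil))) .nil)) .leaf))) (nat_lit 13394139765329404) (.br (nat_lit 0) (.cons (.br (nat_lit 3) (.cons (.rel (nat_lit 273155136)) .nil)) .nil)) (.node (.node (.node (.node .leaf (nat_lit 13394139765336090) (.br (nat_lit 1) (.cons (.br (nat_lit 2) (.cons (.rel (nat_lit 83888136)) (.cons (.rel (nat_lit 101187840)) (.cons (.rel (nat_lit 83906640)) .nil)))) .nil)) .leaf) (nat_lit 13394139765336094) (.br (nat_lit 1) (.cons (.br (nat_lit 2) (.cons (.rel (nat_lit 83886117)) (.cons (.rel (nat_lit 101187840)) .nil))) (.cons (.br (nat_lit 2) (.cons (.rel (nat_lit 83888136)) (.cons (.rel (nat_lit 83887122)) .nil))) .nil))) .leaf) (nat_lit 13394139765336101) (.br (nat_lit 1) (.cons (.br (nat_lit 2) (.cons (.rel (nat_lit 83886117)) (.cons (.rel (nat_lit 101187840)) .nil))) (.cons (.br (nat_lit 2) (.cons (.rel (nat_lit 83887122)) (.cons (.rel (nat_lit 84017220)) .nil))) .nil))) (.node (.node .leaf (nat_lit 13394139765336845) (.br (nat_lit 3) (.cons (.br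 (nat_lit 0) (.cons (.rel (nat_lit 272648448)) (.cons (.rel (nat_lit 541196352)) .nil))) .nil)) .leaf) (nat_lit 13394139765336849) (.br (nat_lit 2) (.cons (.br (nat_lit 0) (.cons (.rel (nat_lit 71335953)) (.cons (.rel (nat_lit 71307336)) .nil))) .nil)) .leaf)) (nat_lit 13394139765337589) (.br (nat_lit 1) (.cons (.br (nat_lit 2) (.cons (.rel (nat_lit 101187840)) (.cons (.rel (nat_lit 150995217)) .nil))) (.cons (.br (nat_lit 2) (.cons (.rel (nat_lit 83888136)) (.cons (.rel (nat_lit 83888136)) .nil))) .nil))) (.node (.node (.node .leaf (nat_lit 13394139766150620) (.br (nat_lit 1) (.cons (.br (nat_lit 2) (.cons (.rel (nat_lit 83886117)) .nil)) .nil)) .leaf) (nat_lit 13394139766312348) (.br (nat_lit 0) (.cons (.br (nat_lit 5) (.cons (.rel (nat_lit 4299195456)) .nil)) .nil)) .leaf) (nat_lit 13394139766312437) (.br (nat_lit 0) (.cons (.br (nat_lit 2) (.cons (.rel (nat_lit 71303301)) .nil)) .nil)) (.node .leaf (nat_lit 13394139767942007) (.br (nat_lit 1) (.cons (.br (nat_lit 3) (.cons (.rel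 (nat_lit 285279552)) .nil)) .nil)) .leaf)))) (nat_lit 13394141865093745) (.br (nat_lit 0) (.cons (.br (nat_lit 1) (.cons (.rel (nat_lit 20972928)) .nil)) .nil)) (.node (.node (.node (.node (.node .leaf (nat_lit 13394410750601518) (.br (nat_lit 0) (.cons (.br (nat_lit 1) (.cons (.rel (nat_lit 25182228)) .nil)) .nil)) .leaf) (nat_lit 13395385599453961) (.br (nat_lit 0) (.cons (.br (nat_lit 1) (.cons (.rel (nat_lit 22020117)) .nil)) .nil)) .leaf) (nat_lit 13395385600682609) (.br (nat_lit 0) (.cons (.br (nat_lit 3) (.cons (.rel (nat_lit 272630085)) .nil)) .nil)) (.node (.node .leaf (nat_lit 13395703506724990) (.br (nat_lit 0) (.cons (.br (nat_lit 2) (.cons (.rel (nat_lit 71307336)) .nil)) .nil)) .leaf) (nat_lit 13395703509267184) (.br (nat_lit 2) (.cons (.br (nat_lit 3) (.cons (.rel (nat_lit 335544468)) .nil)) .nil)) .leaf)) (nat_lit 13398436829328620) (.br (nat_lit 0) (.cons (.br (nat_lit 2) (.cons (.rel (nat_lit 71303301)) .nil)) .nil)) (.node (.node (.node .leaf (nat_lit 13398439950085533)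 (.br (nat_lit 1) (.cons (.br (nat_lit 4) (.cons (.rel (nat_lit 1090789632)) .nil)) .nil)) .leaf) (nat_lit 13398439950346521) (.br (nat_lit 4) (.cons (.br (nat_lit 1) (.cons (.rel (nat_lit 1090535496)) (.cons (.rel (nat_lit 1091569152)) .nil))) .nil)) .leaf) (nat_lit 13398439951058333) (.br (nat_lit 2) (.cons (.br (nat_lit 3) (.cons (.rel (nat_lit 335545473)) .nil)) .nil)) (.node (.node .leaf (nat_lit 13400595503379057) (.br (nat_lit 0) (.cons (.br (nat_lit 2) (.cons (.rel (nat_lit 71374848)) .nil)) .nil)) .leaf) (nat_lit 13400595503820288) (.br (nat_lit 0) (.cons (.br (nat_lit 6) (.cons (.rel (nat_lit 34363932945)) (.cons (.rel (nat_lit 34363932945)) (.cons (.rel (nat_lit 17184227328)) (.cons (.rel (nat_lit 34363932945)) (.cons (.rel (nat_lit 17184067608)) (.cons (.rel (nat_lit 17184227328)) .nil))))))) .nil)) .leaf))) (nat_lit 13400595503826974) (.br (nat_lit 2) (.cons (.br (nat_lit 1) (.cons (.rel (nat_lit 151257600)) (.cons (.rel (nat_lit 83888136)) .nil))) .nil)) (.node (.node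 (.node (.node .leaf (nat_lit 13400595503827721) (.br (nat_lit 1) (.cons (.br (nat_lit 2) (.cons (.rel (nat_lit 83888136)) (.cons (.rel (nat_lit 101187840)) .nil))) .nil)) .leaf) (nat_lit 13400595503828480) (.br (nat_lit 2) (.cons (.br (nat_lit 1) (.cons (.rel (nat_lit 151257600)) (.cons (.rel (nat_lit 83918913)) (.cons (.rel (nat_lit 84017220)) .nil)))) .nil)) .leaf) (nat_lit 13400595503835761) (.br (nat_lit 2) (.cons (.br (nat_lit 3) (.cons (.rel (nat_lit 336594432)) .nil)) .nil)) (.node (.node .leaf (nat_lit 13400595503835913) (.br (nat_lit 2) (.cons (.br (nat_lit 1) (.cons (.rel (nat_lit 167773188)) (.cons (.rel (nat_lit 167773188)) (.cons (.rel (nat_lit 83952768)) .nil)))) (.cons (.br (nat_lit 0) (.cons (.rel (nat_lit 71311362)) (.cons (.rel (nat_lit 71303301)) (.cons (.rel (nat_lit 71307336)) .nil)))) .nil))) .leaf) (nat_lit 13400595503836062) (.br (nat_lit 2) (.cons (.br (nat_lit 5) (.cons (.rel (nat_lit 4362338376)) .nil)) .nil)) .leaf)) (nat_lit 13400595504902174) (.br (nat_lit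 0) (.cons (.br (nat_lit 6) (.cons (.rel (nat_lit 17184063573)) .nil)) .nil)) (.node (.node (.node .leaf (nat_lit 13400595504902326) (.br (nat_lit 0) (.cons (.br (nat_lit 2) (.cons (.rel (nat_lit 142610433)) .nil)) .nil)) .leaf) (nat_lit 13400595504902400) (.br (nat_lit 0) (.cons (.br (nat_lit 2) (.cons (.rel (nat_lit 71374848)) .nil)) .nil)) .leaf) (nat_lit 13400629863565349) (.br (nat_lit 2) (.cons (.br (nat_lit 3) (.cons (.rel (nat_lit 335814912)) .nil)) .nil)) (.node .leaf (nat_lit 13400630903290616) (.br (nat_lit 2) (.cons (.br (nat_lit 3) (.cons (.rel (nat_lit 403701762)) .nil)) .nil)) .leaf))))))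

/-- refutations 37 -/
def e37 : EX := (.node (.node (.node (.node (.node .leaf (nat_lit 13669129294816769) (.br (nat_lit 0) (.cons (.br (nat_lit 2) (.cons (.rel (nat_lit 71307336)) .nil)) .nil)) .leaf) (nat_lit 13669129294822001) (.br (nat_lit 2) (.cons (.br (nat_lit 6) (.cons (.rel (nat_lit 34493972736)) .nil)) .nil)) .leaf) (nat_lit 13669129294967469) (.br (nat_lit 1) (.cons (.br (nat_lit 2) (.cons (.br (nat_lit 3) (.cons (.rel (nat_lit 335814912)) .nil)) .nil)) .nil)) (.node (.node .leaf (nat_lit 13669129294967565) (.br (nat_lit 0) (.cons (.br (nat_lit 1) (.cons (.rel (nat_lit 20979984)) .nil)) .nil)) .leaf) (nat_lit 13669129295031822) (.br (nat_lit 0) (.cons (.br (nat_lit 1) (.cons (.rel (nat_lit 20972928)) .nil)) .nil)) .leaf)) (nat_lit 13669129295283737) (.br (nat_lit 0) (.cons (.br (nat_lit 1) (.cons (.rel (nat_lit 22040640)) .nil)) .nil)) (.node (.node (.node .leaf (nat_lit 13669129295293041) (.br (nat_lit 2) (.cons (.br (nat_lit 0) (.cons (.rel (nat_lit 71374848)) (.cons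 (.rel (nat_lit 71303301)) .nil))) .nil)) .leaf) (nat_lit 13669129295293221) (.br (nat_lit 3) (.cons (.br (nat_lit 2) (.cons (.rel (nat_lit 335552529)) (.cons (.rel (nat_lit 335545473)) (.cons (.rel (nat_lit 671105040)) .nil)))) .nil)) .leaf) (nat_lit 13669129295293717) (.br (nat_lit 2) (.cons (.br (nat_lit 5) (.cons (.rel (nat_lit 4364174340)) .nil)) .nil)) (.node .leaf (nat_lit 13669129295293797) (.br (nat_lit 1) (.cons (.br (nat_lit 0) (.cons (.rel (nat_lit 20972928)) (.cons (.rel (nat_lit 20992257)) .nil))) .nil)) .leaf))) (nat_lit 13669129296267416) (.br (nat_lit 1) (.cons (.br (nat_lit 3) (.cons (.rel (nat_lit 286262289)) .nil)) .nil)) (.node (.node (.node (.node .leaf (nat_lit 13669129296268169) (.br (nat_lit 0) (.cons (.br (nat_lit 1) (.cons (.rel (nat_lit 22093824)) .nil)) .nil)) .leaf) (nat_lit 13669129297898097) (.br (nat_lit 0) (.cons (.br (nat_lit 6) (.cons (.rel (nat_lit 17184068613)) .nil)) .nil)) .leaf) (nat_lit 13669129297898379) (.br (nat_lit 2) (.cons (.br (nat_lit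 6) (.cons (.rel (nat_lit 17247241344)) .nil)) .nil)) (.node .leaf (nat_lit 13669131727990013) (.br (nat_lit 0) (.cons (.br (nat_lit 1) (.cons (.rel (nat_lit 20972928)) .nil)) .nil)) .leaf)) (nat_lit 13669131828652657) (.br (nat_lit 0) (.cons (.br (nat_lit 1) (.cons (.rel (nat_lit 20972928)) (.cons (.rel (nat_lit 20972928)) .nil))) .nil)) (.node (.node (.node .leaf (nat_lit 13669655814663649) (.br (nat_lit 0) (.cons (.br (nat_lit 2) (.cons (.rel (nat_lit 71374848)) .nil)) .nil)) .leaf) (nat_lit 13670288936462961) (.br (nat_lit 2) (.cons (.br (nat_lit 5) (.cons (.rel (nat_lit 4362405888)) .nil)) .nil)) .leaf) (nat_lit 13675786012257693) (.br (nat_lit 0) (.cons (.br (nat_lit 2) (.cons (.rel (nat_lit 71434260)) .nil)) .nil)) (.node .leaf (nat_lit 13676061374750972) (.br (nat_lit 1) (.cons (.br (nat_lit 2) (.cons (.rel (nat_lit 83888136)) (.cons (.rel (nat_lit 83888136)) .nil))) .nil)) .leaf))))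

/-- refutations 38 -/
def e38 : EX := (.node (.node (.node (.node (.node .leaf (nat_lit 13757092679182366) (.br (nat_lit 3) (.cons (.br (nat_lit 2) (.cons (.rel (nat_lit 335564802)) (.cons (.rel (nat_lit 335552529)) .nil))) .nil)) .leaf) (nat_lit 13757092679183897) (.br (nat_lit 0) (.cons (.br (nat_lit 3) (.cons (.rel (nat_lit 273174657)) .nil)) .nil)) .leaf) (nat_lit 13757092737425434) (.br (nat_lit 1) (.cons (.br (nat_lit 3) (.cons (.br (nat_lit 2) (.cons (.rel (nat_lit 101187840)) (.cons (.rel (nat_lit 83959824)) (.cons (.rel (nat_lit 335577120)) .nil)))) .nil)) .nil)) (.node (.node .leaf (nat_lit 13757092737904124) (.br (nat_lit 0) (.cons (.br (nat_lit 3) (.cons (.rel (nat_lit 273686529)) .nil)) .nil)) .leaf) (nat_lit 13757092738614058) (.br (nat_lit 0) (.cons (.br (nat_lit 6) (.cons (.rel (nat_lit 17184130080)) .nil)) .nil)) .leaf)) (nat_lit 13757092738614773) (.br (nat_lit 0) (.cons (.br (nat_lit 1) (.cons (.rel (nat_lit 25165920)) (.cons (.rel (nat_lit 25165920)) .nil)))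 .nil)) (.node (.node (.node .leaf (nat_lit 13757092739884533) (.br (nat_lit 0) (.cons (.br (nat_lit 1) (.cons (.rel (nat_lit 20972928)) .nil)) .nil)) .leaf) (nat_lit 13757616723912766) (.br (nat_lit 0) (.cons (.br (nat_lit 2) (.cons (.rel (nat_lit 71303301)) .nil)) .nil)) .leaf) (nat_lit 13757616724623422) (.br (nat_lit 0) (.cons (.br (nat_lit 1) (.cons (.rel (nat_lit 22093824)) .nil)) .nil)) (.node (.node .leaf (nat_lit 13757616724624885) (.br (nat_lit 1) (.cons (.br (nat_lit 2) (.cons (.rel (nat_lit 83886117)) .nil)) .nil)) .leaf) (nat_lit 13758249869289724) (.br (nat_lit 3) (.cons (.br (nat_lit 6) (.cons (.rel (nat_lit 34896625728)) .nil)) .nil)) .leaf))) (nat_lit 13759280465898133) (.br (nat_lit 1) (.cons (.br (nat_lit 2) (.cons (.rel (nat_lit 101187840)) .nil)) .nil)) (.node (.node (.node (.node .leaf (nat_lit 13763578704221565) (.br (nat_lit 1) (.cons (.br (nat_lit 2) (.cons (.rel (nat_lit 83888136)) .nil)) .nil)) .leaf) (nat_lit 13763790315777500) (.br (nat_lit 1) (.cons (.br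 (nat_lit 2) (.cons (.rel (nat_lit 83886117)) .nil)) .nil)) .leaf) (nat_lit 13763790318019312) (.br (nat_lit 3) (.cons (.br (nat_lit 6) (.cons (.rel (nat_lit 17717854464)) .nil)) .nil)) (.node (.node .leaf (nat_lit 13764065253113893) (.br (nat_lit 1) (.cons (.br (nat_lit 2) (.cons (.rel (nat_lit 83888136)) .nil)) .nil)) .leaf) (nat_lit 13764065253114666) (.br (nat_lit 1) (.cons (.br (nat_lit 3) (.cons (.rel (nat_lit 286262289)) .nil)) .nil)) .leaf)) (nat_lit 13764065254646570) (.br (nat_lit 4) (.cons (.br (nat_lit 6) (.cons (.rel (nat_lit 18255709185)) .nil)) .nil)) (.node (.node (.node .leaf (nat_lit 13764067705614592) (.br (nat_lit 0) (.cons (.br (nat_lit 2) (.cons (.rel (nat_lit 75763716)) .nil)) .nil)) .leaf) (nat_lit 13764067706072601) (.br (nat_lit 2) (.cons (.br (nat_lit 3) (.cons (.rel (nat_lit 335577120)) .nil)) .nil)) .leaf) (nat_lit 13765041682180848) (.br (nat_lit 1) (.cons (.br (nat_lit 6) (.cons (.rel (nat_lit 17215520832)) .nil)) .nil)) (.node (.node .leaf (nat_lit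 13770061027756284) (.br (nat_lit 3) (.cons (.br (nat_lit 5) (.cons (.rel (nat_lit 4563402777)) .nil)) .nil)) .leaf) (nat_lit 13770066793460464) (.br (nat_lit 2) (.cons (.br (nat_lit 3) (.cons (.rel (nat_lit 335544468)) .nil)) .nil)) .leaf))))

/-- refutations 39 -/
def e39 : EX := (.node (.node (.node (.node (.node (.node .leaf (nat_lit 13845050983292954) (.br (nat_lit 1) (.cons (.br (nat_lit 2) (.cons (.rel (nat_lit 83886117)) .nil)) .nil)) .leaf) (nat_lit 13845050983314064) (.br (nat_lit 1) (.cons (.br (nat_lit 2) (.cons (.rel (nat_lit 83888136)) .nil)) .nil)) .leaf) (nat_lit 13845051155279929) (.br (nat_lit 1) (.cons (.br (nat_lit 2) (.cons (.rel (nat_lit 83887122)) .nil)) .nil)) (.node (.node .leaf (nat_lit 13845051155280624) (.br (nat_lit 1) (.cons (.br (nat_lit 6) (.cons (.rel (nat_lit 17196654594)) .nil)) .nil)) .leaf) (nat_lit 13845051155280649) (.br (nat_lit 1) (.cons (.br (nat_lit 2) (.cons (.rel (nat_lit 83972097)) .nil)) .nil)) .leaf)) (nat_lit 13845051155281433) (.br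 (nat_lit 0) (.cons (.br (nat_lit 1) (.cons (.rel (nat_lit 20979984)) .nil)) .nil)) (.node (.node (.node .leaf (nat_lit 13845051155411196) (.br (nat_lit 2) (.cons (.br (nat_lit 0) (.cons (.rel (nat_lit 71303301)) (.cons (.rel (nat_lit 71374848)) .nil))) .nil)) .leaf) (nat_lit 13845051155411874) (.br (nat_lit 0) (.cons (.br (nat_lit 1) (.cons (.rel (nat_lit 20979984)) .nil)) .nil)) .leaf) (nat_lit 13845051155727897) (.br (nat_lit 0) (.cons (.br (nat_lit 1) (.cons (.rel (nat_lit 21528576)) .nil)) .nil)) (.node .leaf (nat_lit 13845051155736606) (.br (nat_lit 1) (.cons (.br (nat_lit 4) (.cons (.rel (nat_lit 2165440512)) .nil)) .nil)) .leaf))) (nat_lit 13845051155736838) (.br (nat_lit 0) (.cons (.br (nat_lit 3) (.cons (.rel (nat_lit 541102080)) .nil)) .nil)) (.node (.node (.node (.node .leaf (nat_lit 13845051155737502) (.br (nat_lit 4) (.cons (.br (nat_lit 2) (.cons (.rel (nat_lit 1142497281)) (.cons (.rel (nat_lit 1140859392)) .nil))) .nil)) .leaf) (nat_lit 13845051156447913) (.br (nat_lit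 0) (.cons (.br (nat_lit 2) (.cons (.rel (nat_lit 71303301)) .nil)) .nil)) .leaf) (nat_lit 13845051156448009) (.br (nat_lit 2) (.cons (.br (nat_lit 5) (.cons (.rel (nat_lit 4362342402)) .nil)) .nil)) (.node .leaf (nat_lit 13845051156448518) (.br (nat_lit 1) (.cons (.br (nat_lit 2) (.cons (.rel (nat_lit 167773188)) .nil)) .nil)) .leaf)) (nat_lit 13845051156448764) (.br (nat_lit 0) (.cons (.br (nat_lit 1) (.cons (.rel (nat_lit 42221568)) .nil)) .nil)) (.node (.node (.node .leaf (nat_lit 13845051156486174) (.br (nat_lit 3) (.cons (.br (nat_lit 0) (.cons (.rel (nat_lit 272630085)) (.cons (.rel (nat_lit 273711120)) .nil))) .nil)) .leaf) (nat_lit 13845051156486396) (.br (nat_lit 0) (.cons (.br (nat_lit 5) (.cons (.rel (nat_lit 4300214784)) .nil)) .nil)) .leaf) (nat_lit 13845051156486769) (.br (nat_lit 5) (.cons (.br (nat_lit 2) (.cons (.rel (nat_lit 4362342402)) (.cons (.rel (nat_lit 4362405888)) .nil))) .nil)) (.node .leaf (nat_lit 13845051156486944) (.br (nat_lit 0) (.cons (.br (nat_lit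 5) (.cons (.rel (nat_lit 8598323205)) .nil)) .nil)) .leaf)))) (nat_lit 13845051156487074) (.br (nat_lit 0) (.cons (.br (nat_lit 1) (.cons (.rel (nat_lit 20979984)) .nil)) .nil)) (.node (.node (.node (.node (.node .leaf (nat_lit 13845051156487654) (.br (nat_lit 0) (.cons (.br (nat_lit 3) (.cons (.rel (nat_lit 541327632)) .nil)) .nil)) .leaf) (nat_lit 13845051156804336) (.br (nat_lit 2) (.cons (.br (nat_lit 4) (.cons (.rel (nat_lit 2281705728)) .nil)) .nil)) .leaf) (nat_lit 13845051158348028) (.br (nat_lit 2) (.cons (.br (nat_lit 4) (.cons (.rel (nat_lit 2214596628)) .nil)) .nil)) (.node .leaf (nat_lit 13845368810893573) (.br (nat_lit 2) (.cons (.br (nat_lit 3) (.cons (.rel (nat_lit 606076929)) .nil)) .nil)) .leaf)) (nat_lit 13845368810893968) (.br (nat_lit 1) (.cons (.br (nat_lit 2) (.cons (.rel (nat_lit 167773188)) (.cons (.rel (nat_lit 83888136)) .nil))) (.cons (.br (nat_lit 2) (.cons (.rel (nat_lit 101187840)) (.cons (.rel (nat_lit 83886117)) .nil))) .nil))) (.node (.node (.node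 .leaf (nat_lit 13845368811095526) (.br (nat_lit 2) (.cons (.br (nat_lit 4) (.cons (.rel (nat_lit 1140859392)) .nil)) .nil)) .leaf) (nat_lit 13845368811350051) (.br (nat_lit 1) (.cons (.br (nat_lit 3) (.cons (.rel (nat_lit 286347264)) .nil)) .nil)) .leaf) (nat_lit 13845368811350146) (.br (nat_lit 2) (.cons (.br (nat_lit 4) (.cons (.rel (nat_lit 2281705728)) (.cons (.rel (nat_lit 1141243908)) .nil))) .nil)) (.node .leaf (nat_lit 13845368811350821) (.br (nat_lit 1) (.cons (.br (nat_lit 0) (.cons (.rel (nat_lit 37753920)) (.cons (.rel (nat_lit 37753920)) (.cons (.rel (nat_lit 22093824)) (.cons (.rel (nat_lit 20972928)) (.cons (.rel (nat_lit 20972928)) (.cons (.rel (nat_lit 22093824)) .nil))))))) .nil)) .leaf))) (nat_lit 13845368811350951) (.br (nat_lit 0) (.cons (.br (nat_lit 1) (.cons (.rel (nat_lit 22093824)) .nil)) .nil)) (.node (.node (.node (.node .leaf (nat_lit 13845368811351516) (.br (nat_lit 1) (.cons (.br (nat_lit 4) (.cons (.rel (nat_lit 2164278528)) (.cons (.rel (nat_lit 1109458944))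 (.cons (.rel (nat_lit 1090519188)) (.cons (.rel (nat_lit 1091569152)) .nil))))) .nil)) .leaf) (nat_lit 13845368812061353) (.br (nat_lit 1) (.cons (.br (nat_lit 2) (.cons (.rel (nat_lit 85197888)) (.cons (.rel (nat_lit 84148500)) .nil))) (.cons (.br (nat_lit 2) (.cons (.rel (nat_lit 152048640)) (.cons (.rel (nat_lit 85197888)) .nil))) .nil))) .leaf) (nat_lit 13845368812374321) (.br (nat_lit 1) (.cons (.br (nat_lit 3) (.cons (.rel (nat_lit 285745152)) .nil)) .nil)) (.node .leaf (nat_lit 13845371076274206) (.br (nat_lit 0) (.cons (.br (nat_lit 1) (.cons (.rel (nat_lit 22093824)) .nil)) .nil)) .leaf)) (nat_lit 13845371497809282) (.br (nat_lit 0) (.cons (.br (nat_lit 4) (.cons (.rel (nat_lit 1077969024)) .nil)) .nil)) (.node (.node (.node .leaf (nat_lit 13845371497948646) (.br (nat_lit 0) (.cons (.br (nat_lit 1) (.cons (.rel (nat_lit 22021122)) .nil)) .nil)) .leaf) (nat_lit 13845371516676901) (.br (nat_lit 1) (.cons (.br (nat_lit 2) (.cons (.rel (nat_lit 84017220)) .nil)) .nil)) .leaf)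 (nat_lit 13845532112383452) (.br (nat_lit 1) (.cons (.br (nat_lit 6) (.cons (.rel (nat_lit 17215520832)) .nil)) .nil)) (.node .leaf (nat_lit 13857128431550769) (.br (nat_lit 2) (.cons (.br (nat_lit 3) (.cons (.rel (nat_lit 335564802)) .nil)) .nil)) .leaf)))))

/-- refutations 40 -/
def e40 : EX := (.node (.node (.node (.node (.node (.node .leaf (nat_lit 14091341588393436) (.br (nat_lit 1) (.cons (.br (nat_lit 4) (.cons (.rel (nat_lit 1091569152)) (.cons (.rel (nat_lit 1090603008)) .nil))) .nil)) .leaf) (nat_lit 14091341589103217) (.br (nat_lit 0) (.cons (.br (nat_lit 2) (.cons (.rel (nat_lit 142610433)) .nil)) .nil)) (.node .leaf (nat_lit 14091341759888291) (.br (nat_lit 0) (.cons (.br (nat_lit 1) (.cons (.rel (nat_lit 22157313)) .nil)) .nil)) .leaf)) (nat_lit 14091341760033453) (.br (nat_lit 2) (.cons (.br (nat_lit 5) (.cons (.rel (nat_lit 4362354720)) (.cons (.rel (nat_lit 4362338376)) .nil))) .nil)) (.node (.node .leaf (nat_lit 14091341760033545) (.br (nat_lit 0) (.cons (.br (nat_lit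 5) (.cons (.rel (nat_lit 4299165825)) .nil)) .nil)) .leaf) (nat_lit 14091341760097013) (.br (nat_lit 2) (.cons (.br (nat_lit 3) (.cons (.rel (nat_lit 335564802)) .nil)) .nil)) .leaf)) (nat_lit 14091341760349697) (.br (nat_lit 0) (.cons (.br (nat_lit 1) (.cons (.rel (nat_lit 20979984)) .nil)) .nil)) (.node (.node (.node .leaf (nat_lit 14091341760358406) (.br (nat_lit 1) (.cons (.br (nat_lit 0) (.cons (.rel (nat_lit 39059457)) (.cons (.rel (nat_lit 20992257)) (.cons (.rel (nat_lit 42221568)) .nil)))) (.cons (.br (nat_lit 2) (.cons (.rel (nat_lit 83888136)) (.cons (.rel (nat_lit 101187840)) (.cons (.rel (nat_lit 101187840)) .nil)))) .nil))) .leaf) (nat_lit 14091341760358662) (.br (nat_lit 2) (.cons (.br (nat_lit 6) (.cons (.rel (nat_lit 17249141760)) .nil)) .nil)) (.node .leaf (nat_lit 14091341760359037) (.br (nat_lit 5) (.cons (.br (nat_lit 0) (.cons (.rel (nat_lit 4299162660)) (.cons (.rel (nat_lit 4299248640)) .nil))) .nil)) .leaf)) (nat_lit 14091341760359187) (.br (nat_lit 0) (.cons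 (.br (nat_lit 1) (.cons (.rel (nat_lit 42221568)) .nil)) .nil)) (.node (.node .leaf (nat_lit 14091341760359205) (.br (nat_lit 3) (.cons (.br (nat_lit 5) (.cons (.rel (nat_lit 4563403782)) (.cons (.rel (nat_lit 9126806544)) (.cons (.br (nat_lit 4) (.cons (.rel (nat_lit 10737418500)) (.cons (.rel (nat_lit 9663692817)) .nil))) (.cons (.rel (nat_lit 4564717569)) (.cons (.rel (nat_lit 4563403782)) .nil)))))) (.cons (.br (nat_lit 4) (.cons (.rel (nat_lit 1342185600)) (.cons (.rel (nat_lit 1610874897)) .nil))) .nil))) .leaf) (nat_lit 14091341760359210) (.br (nat_lit 0) (.cons (.br (nat_lit 5) (.cons (.rel (nat_lit 4299248640)) .nil)) .nil)) .leaf))) (nat_lit 14091341760359301) (.br (nat_lit 4) (.cons (.br (nat_lit 0) (.cons (.rel (nat_lit 2152730628)) (.cons (.rel (nat_lit 2155888704)) .nil))) .nil)) (.node (.node (.node (.node .leaf (nat_lit 14091341760359331) (.br (nat_lit 1) (.cons (.br (nat_lit 2) (.cons (.br (nat_lit 6) (.cons (.rel (nat_lit 17247241344)) (.cons (.rel (nat_lit 17196650568))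 .nil))) (.cons (.rel (nat_lit 83888136)) .nil))) .nil)) .leaf) (nat_lit 14091341760359937) (.br (nat_lit 1) (.cons (.br (nat_lit 0) (.cons (.rel (nat_lit 20972928)) (.cons (.rel (nat_lit 20979984)) .nil))) .nil)) (.node .leaf (nat_lit 14091341761070617) (.br (nat_lit 0) (.cons (.br (nat_lit 1) (.cons (.rel (nat_lit 22040640)) .nil)) .nil)) .leaf)) (nat_lit 14091341761108748) (.br (nat_lit 2) (.cons (.br (nat_lit 6) (.cons (.rel (nat_lit 17248550916)) .nil)) .nil)) (.node (.node .leaf (nat_lit 14091341761333298) (.br (nat_lit 0) (.cons (.br (nat_lit 2) (.cons (.rel (nat_lit 71374848)) (.cons (.rel (nat_lit 71323680)) .nil))) (.cons (.br (nat_lit 6) (.cons (.rel (nat_lit 34368208896)) (.cons (.rel (nat_lit 17184227328)) .nil))) .nil))) .leaf) (nat_lit 14091341761334005) (.br (nat_lit 2) (.cons (.br (nat_lit 4) (.cons (.rel (nat_lit 1207965768)) .nil)) .nil)) .leaf)) (nat_lit 14091341762849573) (.br (nat_lit 0) (.cons (.br (nat_lit 2) (.cons (.rel (nat_lit 71435265)) .nil)) .nil)) (.node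 (.node (.node .leaf (nat_lit 14091341762969627) (.br (nat_lit 0) (.cons (.br (nat_lit 1) (.cons (.rel (nat_lit 20979984)) .nil)) .nil)) .leaf) (nat_lit 14091341762970377) (.br (nat_lit 0) (.cons (.br (nat_lit 6) (.cons (.rel (nat_lit 17184227328)) .nil)) .nil)) .leaf) (nat_lit 14091341762970405) (.br (nat_lit 6) (.cons (.br (nat_lit 5) (.cons (.rel (nat_lit 21474839040)) (.cons (.rel (nat_lit 21475168320)) .nil))) .nil)) (.node (.node .leaf (nat_lit 14091341803012901) (.br (nat_lit 0) (.cons (.br (nat_lit 2) (.cons (.rel (nat_lit 71311362)) .nil)) .nil)) .leaf) (nat_lit 14091342305292913) (.br (nat_lit 2) (.cons (.br (nat_lit 3) (.cons (.rel (nat_lit 335545473)) .nil)) .nil)) .leaf)))) (nat_lit 14091344193055621) (.br (nat_lit 0) (.cons (.br (nat_lit 1) (.cons (.rel (nat_lit 20972928)) .nil)) .nil)) (.node (.node (.node (.node (.node .leaf (nat_lit 14091344406964230) (.br (nat_lit 1) (.cons (.br (nat_lit 2) (.cons (.rel (nat_lit 101187840)) .nil)) .nil)) .leaf) (nat_lit 14091344409576229)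 (.br (nat_lit 5) (.cons (.br (nat_lit 1) (.cons (.rel (nat_lit 4311745620)) (.cons (.rel (nat_lit 8623509504)) .nil))) .nil)) (.node .leaf (nat_lit 14091659418215910) (.br (nat_lit 1) (.cons (.br (nat_lit 2) (.cons (.rel (nat_lit 83888136)) .nil)) .nil)) .leaf)) (nat_lit 14091822797407018) (.br (nat_lit 0) (.cons (.br (nat_lit 1) (.cons (.rel (nat_lit 22040640)) .nil)) .nil)) (.node (.node .leaf (nat_lit 14097878528361133) (.br (nat_lit 0) (.cons (.br (nat_lit 5) (.cons (.rel (nat_lit 4299243600)) .nil)) .nil)) .leaf) (nat_lit 14097878530860518) (.br (nat_lit 0) (.cons (.br (nat_lit 1) (.cons (.rel (nat_lit 25170960)) .nil)) .nil)) .leaf)) (nat_lit 14098230887575602) (.br (nat_lit 2) (.cons (.br (nat_lit 4) (.cons (.rel (nat_lit 1141145601)) (.cons (.rel (nat_lit 1142424576)) .nil))) (.cons (.br (nat_lit 4) (.cons (.rel (nat_lit 2281705728)) (.cons (.rel (nat_lit 1140859392)) .nil))) .nil))) (.node (.node (.node .leaf (nat_lit 14098230887576237) (.br (nat_lit 2) (.cons (.br (nat_lit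 5) (.cons (.rel (nat_lit 4362080784)) .nil)) .nil)) .leaf) (nat_lit 14098230887901190) (.br (nat_lit 1) (.cons (.br (nat_lit 5) (.cons (.rel (nat_lit 8606728512)) (.cons (.rel (nat_lit 4311746625)) .nil))) .nil)) (.node .leaf (nat_lit 14098230887901214) (.br (nat_lit 0) (.cons (.br (nat_lit 1) (.cons (.rel (nat_lit 20972928)) .nil)) .nil)) .leaf)) (nat_lit 14098230887901989) (.br (nat_lit 1) (.cons (.br (nat_lit 4) (.cons (.rel (nat_lit 1109458944)) (.cons (.rel (nat_lit 2165440512)) .nil))) (.cons (.br (nat_lit 4) (.cons (.br (nat_lit 2) (.cons (.rel (nat_lit 83888136)) (.cons (.rel (nat_lit 1141179456)) (.cons (.rel (nat_lit 1142947908)) (.cons (.rel (nat_lit 101187840)) .nil))))) (.cons (.rel (nat_lit 1090539522)) .nil))) .nil))) (.node (.node .leaf (nat_lit 14098230887902085) (.br (nat_lit 0) (.cons (.br (nat_lit 3) (.cons (.rel (nat_lit 273678468)) (.cons (.rel (nat_lit 273686529)) .nil))) .nil)) .leaf) (nat_lit 14098230887902716) (.br (nat_lit 3) (.cons (.br (nat_lit 5) (.cons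 (.rel (nat_lit 4564468224)) (.cons (.rel (nat_lit 4563406992)) (.cons (.rel (nat_lit 4563550224)) (.cons (.rel (nat_lit 4564717569)) .nil))))) .nil)) .leaf))) (nat_lit 14098230888613126) (.br (nat_lit 2) (.cons (.br (nat_lit 3) (.cons (.rel (nat_lit 335676432)) .nil)) .nil)) (.node (.node (.node (.node .leaf (nat_lit 14098230888613377) (.br (nat_lit 1) (.cons (.br (nat_lit 2) (.cons (.rel (nat_lit 83888136)) .nil)) .nil)) .leaf) (nat_lit 14098230888876082) (.br (nat_lit 6) (.cons (.br (nat_lit 2) (.cons (.rel (nat_lit 17314087056)) (.cons (.rel (nat_lit 34426852368)) .nil))) .nil)) (.node .leaf (nat_lit 14098230888876789) (.br (nat_lit 0) (.cons (.br (nat_lit 6) (.cons (.rel (nat_lit 17184064578)) .nil)) .nil)) .leaf)) (nat_lit 14098230890513189) (.br (nat_lit 5) (.cons (.br (nat_lit 1) (.cons (.rel (nat_lit 4311745620)) (.cons (.rel (nat_lit 4311745620)) (.cons (.rel (nat_lit 4311745620)) .nil)))) .nil)) (.node (.node .leaf (nat_lit 14098231433160990) (.br (nat_lit 1) (.cons (.br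 (nat_lit 2) (.cons (.rel (nat_lit 83952768)) .nil)) .nil)) .leaf) (nat_lit 14098233422336787) (.br (nat_lit 0) (.cons (.br (nat_lit 1) (.cons (.rel (nat_lit 42221568)) .nil)) .nil)) .leaf)) (nat_lit 14098233537119013) (.br (nat_lit 4) (.cons (.br (nat_lit 0) (.cons (.rel (nat_lit 1078075392)) (.cons (.rel (nat_lit 1077942273)) .nil))) .nil)) (.node (.node (.node .leaf (nat_lit 14104450000546597) (.br (nat_lit 0) (.cons (.br (nat_lit 4) (.cons (.rel (nat_lit 2155888704)) .nil)) .nil)) .leaf) (nat_lit 14115865914566786) (.br (nat_lit 1) (.cons (.br (nat_lit 2) (.cons (.rel (nat_lit 83922948)) .nil)) .nil)) .leaf) (nat_lit 14120976317003836) (.br (nat_lit 2) (.cons (.br (nat_lit 6) (.cons (.rel (nat_lit 34493972736)) (.cons (.rel (nat_lit 17247241344)) .nil))) .nil)) (.node (.node .leaf (nat_lit 14120976317474946) (.br (nat_lit 1) (.cons (.br (nat_lit 2) (.cons (.rel (nat_lit 83888136)) .nil)) .nil)) .leaf) (nat_lit 14120976318232636) (.br (nat_lit 4) (.cons (.br (nat_lit 6) (.cons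 (.rel (nat_lit 19327354884)) .nil)) .nil)) .leaf)))))

/-- refutations 41 -/
def e41 : EX := (.node (.node (.node (.node (.node (.node (.node .leaf (nat_lit 14267263620345886) (.br (nat_lit 6) (.cons (.br (nat_lit 4) (.cons (.rel (nat_lit 36509597697)) (.cons (.rel (nat_lit 18255709185)) .nil))) .nil)) .leaf) (nat_lit 14267263620346108) (.br (nat_lit 1) (.cons (.br (nat_lit 3) (.cons (.rel (nat_lit 285245697)) (.cons (.rel (nat_lit 285233424)) .nil))) .nil)) .leaf) (nat_lit 14267263620346481) (.br (nat_lit 3) (.cons (.br (nat_lit 6) (.cons (.rel (nat_lit 17448371202)) .nil)) .nil)) (.node (.node .leaf (nat_lit 14267263620346608) (.br (nat_lit 1) (.cons (.br (nat_lit 6) (.cons (.rel (nat_lit 17198752128)) (.cons (.rel (nat_lit 17196650568)) .nil))) (.cons (.br (nat_lit 6) (.cons (.rel (nat_lit 17196654594)) (.cons (.rel (nat_lit 34393296897)) .nil))) .nil))) .leaf) (nat_lit 14267263620347417) (.br (nat_lit 6) (.cons (.br (nat_lit 5) (.cons (.rel (nat_lit 42949674240)) (.cons (.rel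 (nat_lit 42949674240)) (.cons (.rel (nat_lit 42949674240)) (.cons (.rel (nat_lit 21475168320)) .nil))))) (.cons (.br (nat_lit 5) (.cons (.rel (nat_lit 42949674240)) (.cons (.rel (nat_lit 25769803866)) (.cons (.rel (nat_lit 38654772288)) (.cons (.rel (nat_lit 21475098648)) .nil))))) .nil))) .leaf)) (nat_lit 14267263620786206) (.br (nat_lit 2) (.cons (.br (nat_lit 5) (.cons (.rel (nat_lit 4362405888)) .nil)) .nil)) (.node (.node (.node .leaf (nat_lit 14267263620787687) (.br (nat_lit 1) (.cons (.br (nat_lit 3) (.cons (.rel (nat_lit 285279552)) .nil)) .nil)) .leaf) (nat_lit 14267263620793120) (.br (nat_lit 0) (.cons (.br (nat_lit 1) (.cons (.rel (nat_lit 20972928)) .nil)) .nil)) .leaf) (nat_lit 14267263620793857) (.br (nat_lit 0) (.cons (.br (nat_lit 2) (.cons (.rel (nat_lit 71311362)) .nil)) .nil)) (.node (.node .leaf (nat_lit 14267263620802566) (.br (nat_lit 1) (.cons (.br (nat_lit 0) (.cons (.rel (nat_lit 22093824)) (.cons (.rel (nat_lit 22021122)) .nil))) .nil)) .leaf) (nat_lit 14267263620802590)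 (.br (nat_lit 1) (.cons (.br (nat_lit 2) (.cons (.rel (nat_lit 83886117)) (.cons (.rel (nat_lit 83918913)) .nil))) (.cons (.br (nat_lit 2) (.cons (.rel (nat_lit 83888136)) (.cons (.rel (nat_lit 101187840)) .nil))) .nil))) .leaf))) (nat_lit 14267263620802597) (.br (nat_lit 1) (.cons (.br (nat_lit 2) (.cons (.rel (nat_lit 152109057)) (.cons (.rel (nat_lit 83888136)) .nil))) (.cons (.br (nat_lit 2) (.cons (.br (nat_lit 3) (.cons (.rel (nat_lit 335549508)) (.cons (.rel (nat_lit 302120961)) (.cons (.rel (nat_lit 302120961)) .nil)))) (.cons (.rel (nat_lit 101187840)) .nil))) .nil))) (.node (.node (.node (.node .leaf (nat_lit 14267263620803360) (.br (nat_lit 6) (.cons (.br (nat_lit 0) (.cons (.rel (nat_lit 34365046785)) (.cons (.rel (nat_lit 17184067608)) .nil))) .nil)) .leaf) (nat_lit 14267263620803370) (.br (nat_lit 1) (.cons (.br (nat_lit 3) (.cons (.rel (nat_lit 302120961)) (.cons (.rel (nat_lit 302060544)) .nil))) .nil)) .leaf) (nat_lit 14267263620803461) (.br (nat_lit 6) (.cons (.br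 (nat_lit 0) (.cons (.rel (nat_lit 17184067608)) (.cons (.rel (nat_lit 17184067608)) .nil))) .nil)) (.node (.node .leaf (nat_lit 14267263620803820) (.br (nat_lit 0) (.cons (.br (nat_lit 6) (.cons (.rel (nat_lit 17184064578)) (.cons (.rel (nat_lit 17184067608)) (.cons (.rel (nat_lit 34365046785)) .nil)))) (.cons (.br (nat_lit 3) (.cons (.rel (nat_lit 273678468)) (.cons (.rel (nat_lit 273711120)) .nil))) .nil))) .leaf) (nat_lit 14267263620804092) (.br (nat_lit 1) (.cons (.br (nat_lit 3) (.cons (.rel (nat_lit 302060544)) .nil)) .nil)) .leaf)) (nat_lit 14267263620804097) (.br (nat_lit 0) (.cons (.br (nat_lit 1) (.cons (.rel (nat_lit 22093824)) (.cons (.rel (nat_lit 22021122)) .nil))) (.cons (.br (nat_lit 1) (.cons (.rel (nat_lit 20972928)) (.cons (.rel (nat_lit 22021122)) .nil))) .nil))) (.node (.node (.node .leaf (nat_lit 14267263621513222) (.br (nat_lit 2) (.cons (.br (nat_lit 5) (.cons (.rel (nat_lit 4429189128)) .nil)) .nil)) .leaf) (nat_lit 14267263621513271) (.br (nat_lit 1) (.cons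 (.br (nat_lit 3) (.cons (.rel (nat_lit 285745152)) (.cons (.rel (nat_lit 302060544)) (.cons (.br (nat_lit 2) (.cons (.rel (nat_lit 167773188)) (.cons (.rel (nat_lit 335549508)) (.cons (.rel (nat_lit 83888136)) (.cons (.rel (nat_lit 101187840)) .nil))))) .nil)))) .nil)) .leaf) (nat_lit 14267263621513841) (.br (nat_lit 3) (.cons (.br (nat_lit 0) (.cons (.rel (nat_lit 541102080)) (.cons (.rel (nat_lit 541067268)) (.cons (.rel (nat_lit 541065249)) (.cons (.rel (nat_lit 541102080)) (.cons (.rel (nat_lit 272648448)) (.cons (.rel (nat_lit 276824082)) (.cons (.rel (nat_lit 541065249)) .nil)))))))) (.cons (.br (nat_lit 6) (.cons (.rel (nat_lit 17448390720)) (.cons (.rel (nat_lit 17448305745)) .nil))) .nil))) (.node (.node .leaf (nat_lit 14267263621514016) (.br (nat_lit 0) (.cons (.br (nat_lit 1) (.cons (.rel (nat_lit 42221568)) .nil)) .nil)) .leaf) (nat_lit 14267263621514026) (.br (nat_lit 1) (.cons (.br (nat_lit 5) (.cons (.rel (nat_lit 4311760914)) (.cons (.rel (nat_lit 8623509504)) .nil)))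 (.cons (.br (nat_lit 6) (.cons (.rel (nat_lit 17196778497)) (.cons (.rel (nat_lit 34393296897)) (.cons (.rel (nat_lit 17196650568)) .nil)))) .nil))) .leaf)))) (nat_lit 14267263621514117) (.br (nat_lit 1) (.cons (.br (nat_lit 6) (.cons (.rel (nat_lit 17196646533)) .nil)) .nil)) (.node (.node (.node (.node (.node .leaf (nat_lit 14267263621514753) (.br (nat_lit 2) (.cons (.br (nat_lit 5) (.cons (.rel (nat_lit 4362405888)) .nil)) .nil)) .leaf) (nat_lit 14267263621514766) (.br (nat_lit 5) (.cons (.br (nat_lit 2) (.cons (.rel (nat_lit 8657051652)) (.cons (.rel (nat_lit 8657051652)) (.cons (.rel (nat_lit 4362342402)) .nil)))) (.cons (.br (nat_lit 2) (.cons (.rel (nat_lit 4429185093)) (.cons (.rel (nat_lit 8657051652)) (.cons (.rel (nat_lit 8657051652)) .nil)))) .nil))) .leaf) (nat_lit 14267263621514777) (.br (nat_lit 1) (.cons (.br (nat_lit 2) (.cons (.rel (nat_lit 83918913)) (.cons (.rel (nat_lit 83911680)) .nil))) .nil)) (.node (.node .leaf (nat_lit 14267263621552158) (.br (nat_lit 5)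 (.cons (.br (nat_lit 6) (.cons (.rel (nat_lit 21475098648)) (.cons (.rel (nat_lit 38654726160)) .nil))) .nil)) .leaf) (nat_lit 14267263622073122) (.br (nat_lit 1) (.cons (.br (nat_lit 5) (.cons (.rel (nat_lit 4311745620)) .nil)) .nil)) .leaf)) (nat_lit 14267263622073881) (.br (nat_lit 1) (.cons (.br (nat_lit 2) (.cons (.rel (nat_lit 83918913)) .nil)) .nil)) (.node (.node (.node .leaf (nat_lit 14267263622842620) (.br (nat_lit 4) (.cons (.br (nat_lit 6) (.cons (.rel (nat_lit 19327354884)) (.cons (.rel (nat_lit 18253873221)) .nil))) (.cons (.br (nat_lit 6) (.cons (.rel (nat_lit 18253877256)) (.cons (.rel (nat_lit 18253877256)) .nil))) .nil))) .leaf) (nat_lit 14267263622843649) (.br (nat_lit 1) (.cons (.br (nat_lit 4) (.cons (.rel (nat_lit 1090789632)) .nil)) .nil)) .leaf) (nat_lit 14267263622843879) (.br (nat_lit 1) (.cons (.br (nat_lit 2) (.cons (.rel (nat_lit 83888136)) .nil)) .nil)) (.node (.node .leaf (nat_lit 14267263623045372) (.br (nat_lit 2) (.cons (.br (nat_lit 6) (.cons (.rel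 (nat_lit 17314087056)) (.cons (.rel (nat_lit 17247011328)) (.cons (.rel (nat_lit 17248027920)) .nil)))) (.cons (.br (nat_lit 1) (.cons (.rel (nat_lit 151257600)) (.cons (.rel (nat_lit 83888136)) (.cons (.rel (nat_lit 83887122)) .nil)))) .nil))) .leaf) (nat_lit 14267263623045901) (.br (nat_lit 2) (.cons (.br (nat_lit 6) (.cons (.rel (nat_lit 17247011328)) .nil)) .nil)) .leaf))) (nat_lit 14267263623045930) (.br (nat_lit 1) (.cons (.br (nat_lit 2) (.cons (.rel (nat_lit 83918913)) .nil)) .nil)) (.node (.node (.node (.node .leaf (nat_lit 14267263623046496) (.br (nat_lit 3) (.cons (.br (nat_lit 6) (.cons (.rel (nat_lit 17448337536)) .nil)) .nil)) .leaf) (nat_lit 14267263623137905) (.br (nat_lit 0) (.cons (.br (nat_lit 2) (.cons (.rel (nat_lit 71303301)) .nil)) .nil)) .leaf) (nat_lit 14267263623342135) (.br (nat_lit 1) (.cons (.br (nat_lit 2) (.cons (.rel (nat_lit 83888136)) .nil)) .nil)) (.node (.node .leaf (nat_lit 14267263623407667) (.br (nat_lit 1) (.cons (.br (nat_lit 2) (.cons (.rel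 (nat_lit 167773188)) .nil)) .nil)) .leaf) (nat_lit 14267263623408517) (.br (nat_lit 1) (.cons (.br (nat_lit 3) (.cons (.rel (nat_lit 570691584)) .nil)) .nil)) .leaf)) (nat_lit 14267263662746400) (.br (nat_lit 0) (.cons (.br (nat_lit 1) (.cons (.rel (nat_lit 22040640)) .nil)) .nil)) (.node (.node (.node .leaf (nat_lit 14267263662747132) (.br (nat_lit 1) (.cons (.br (nat_lit 3) (.cons (.rel (nat_lit 285279552)) .nil)) .nil)) .leaf) (nat_lit 14267266133190686) (.br (nat_lit 1) (.cons (.br (nat_lit 6) (.cons (.rel (nat_lit 17196664896)) .nil)) .nil)) .leaf) (nat_lit 14267266133192188) (.br (nat_lit 0) (.cons (.br (nat_lit 1) (.cons (.rel (nat_lit 42221568)) .nil)) .nil)) (.node (.node .leaf (nat_lit 14267266268119070) (.br (nat_lit 0) (.cons (.br (nat_lit 1) (.cons (.rel (nat_lit 37748880)) .nil)) .nil)) .leaf) (nat_lit 14267266268119325) (.br (nat_lit 3) (.cons (.br (nat_lit 5) (.cons (.rel (nat_lit 4563402777)) .nil)) .nil)) .leaf))))) (nat_lit 14267266269449703) (.br (nat_lit 0) (.cons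 (.br (nat_lit 2) (.cons (.rel (nat_lit 71311362)) .nil)) .nil)) (.node (.node (.node (.node (.node (.node .leaf (nat_lit 14267268154836481) (.br (nat_lit 0) (.cons (.br (nat_lit 5) (.cons (.rel (nat_lit 4299169860)) .nil)) .nil)) .leaf) (nat_lit 14267268154845221) (.br (nat_lit 2) (.cons (.br (nat_lit 1) (.cons (.rel (nat_lit 83887122)) (.cons (.rel (nat_lit 83888136)) .nil))) .nil)) .leaf) (nat_lit 14267268154846734) (.br (nat_lit 1) (.cons (.br (nat_lit 3) (.cons (.rel (nat_lit 302007360)) .nil)) .nil)) (.node (.node .leaf (nat_lit 14267268154846745) (.br (nat_lit 1) (.cons (.br (nat_lit 2) (.cons (.rel (nat_lit 167773188)) .nil)) .nil)) .leaf) (nat_lit 14267268155555846) (.br (nat_lit 1) (.cons (.br (nat_lit 2) (.cons (.rel (nat_lit 83888136)) .nil)) .nil)) .leaf)) (nat_lit 14267268155556592) (.br (nat_lit 1) (.cons (.br (nat_lit 2) (.cons (.rel (nat_lit 83888136)) (.cons (.rel (nat_lit 83888136)) (.cons (.rel (nat_lit 83886117)) .nil)))) (.cons (.br (nat_lit 2) (.cons (.rel (nat_lit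 83906640)) (.cons (.rel (nat_lit 83886117)) (.cons (.rel (nat_lit 83887122)) .nil)))) .nil))) (.node (.node (.node .leaf (nat_lit 14267268155557100) (.br (nat_lit 6) (.cons (.br (nat_lit 0) (.cons (.rel (nat_lit 17188782336)) (.cons (.rel (nat_lit 17184067608)) (.cons (.rel (nat_lit 17184067608)) .nil)))) (.cons (.br (nat_lit 0) (.cons (.rel (nat_lit 17184068613)) (.cons (.rel (nat_lit 17184068613)) (.cons (.rel (nat_lit 17186161920)) .nil)))) .nil))) .leaf) (nat_lit 14267268155557390) (.br (nat_lit 1) (.cons (.br (nat_lit 2) (.cons (.rel (nat_lit 83888136)) (.cons (.rel (nat_lit 83888136)) .nil))) (.cons (.br (nat_lit 2) (.cons (.rel (nat_lit 83952768)) (.cons (.rel (nat_lit 83888136)) .nil))) .nil))) .leaf) (nat_lit 14267268155921916) (.br (nat_lit 3) (.cons (.br (nat_lit 6) (.cons (.rel (nat_lit 34896625728)) .nil)) .nil)) (.node (.node .leaf (nat_lit 14267268155921945) (.br (nat_lit 2) (.cons (.br (nat_lit 3) (.cons (.rel (nat_lit 335628288)) .nil)) .nil)) .leaf) (nat_lit 14267268156886503)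 (.br (nat_lit 2) (.cons (.br (nat_lit 3) (.cons (.rel (nat_lit 335549508)) .nil)) .nil)) .leaf))) (nat_lit 14267268157384759) (.br (nat_lit 1) (.cons (.br (nat_lit 2) (.cons (.rel (nat_lit 83886117)) .nil)) .nil)) (.node (.node (.node (.node .leaf (nat_lit 14267268157386757) (.br (nat_lit 2) (.cons (.br (nat_lit 5) (.cons (.rel (nat_lit 4362405888)) .nil)) .nil)) .leaf) (nat_lit 14267268880459813) (.br (nat_lit 2) (.cons (.br (nat_lit 4) (.cons (.rel (nat_lit 1141899525)) .nil)) .nil)) .leaf) (nat_lit 14267268880461037) (.br (nat_lit 0) (.cons (.br (nat_lit 1) (.cons (.rel (nat_lit 20992257)) .nil)) .nil)) (.node (.node .leaf (nat_lit 14267268881171317) (.br (nat_lit 0) (.cons (.br (nat_lit 3) (.cons (.rel (nat_lit 272648448)) (.cons (.rel (nat_lit 276889728)) .nil))) (.cons (.br (nat_lit 1) (.cons (.rel (nat_lit 20992257)) (.cons (.rel (nat_lit 20972928)) .nil))) .nil))) .leaf) (nat_lit 14267268881171868) (.br (nat_lit 0) (.cons (.br (nat_lit 1) (.cons (.rel (nat_lit 20972928))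 (.cons (.rel (nat_lit 22021122)) .nil))) .nil)) .leaf)) (nat_lit 14267693058811955) (.br (nat_lit 3) (.cons (.br (nat_lit 6) (.cons (.rel (nat_lit 17448321048)) .nil)) .nil)) (.node (.node (.node .leaf (nat_lit 14267693667993651) (.br (nat_lit 0) (.cons (.br (nat_lit 2) (.cons (.rel (nat_lit 71307336)) .nil)) .nil)) .leaf) (nat_lit 14267787547621657) (.br (nat_lit 6) (.cons (.br (nat_lit 2) (.cons (.rel (nat_lit 17314092096)) (.cons (.rel (nat_lit 17247241344)) .nil))) .nil)) .leaf) (nat_lit 14267787547767065) (.br (nat_lit 1) (.cons (.br (nat_lit 2) (.cons (.rel (nat_lit 85197888)) .nil)) .nil)) (.node (.node .leaf (nat_lit 14267787548072217) (.br (nat_lit 1) (.cons (.br (nat_lit 3) (.cons (.rel (nat_lit 285279552)) .nil)) .nil)) .leaf) (nat_lit 14267787548084279) (.br (nat_lit 2) (.cons (.br (nat_lit 3) (.cons (.rel (nat_lit 335814912)) (.cons (.rel (nat_lit 336594432)) .nil))) .nil)) .leaf)))) (nat_lit 14267787548092478) (.br (nat_lit 3) (.cons (.br (nat_lit 5) (.cons (.rel (nat_lit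 9126806544)) (.cons (.rel (nat_lit 4563423300)) .nil))) .nil)) (.node (.node (.node (.node (.node .leaf (nat_lit 14267787548093197) (.br (nat_lit 1) (.cons (.br (nat_lit 6) (.cons (.rel (nat_lit 17196646533)) (.cons (.rel (nat_lit 34377564288)) (.cons (.rel (nat_lit 17196718080)) .nil)))) (.cons (.br (nat_lit 2) (.cons (.br (nat_lit 3) (.cons (.rel (nat_lit 335545473)) (.cons (.rel (nat_lit 335545473)) .nil))) (.cons (.rel (nat_lit 167773188)) .nil))) .nil))) .leaf) (nat_lit 14267787548093303) (.br (nat_lit 1) (.cons (.br (nat_lit 3) (.cons (.rel (nat_lit 285344004)) .nil)) .nil)) .leaf) (nat_lit 14267787548093966) (.br (nat_lit 3) (.cons (.br (nat_lit 4) (.cons (.rel (nat_lit 1342177350)) .nil)) .nil)) (.node (.node .leaf (nat_lit 14267787548803353) (.br (nat_lit 3) (.cons (.br (nat_lit 6) (.cons (.rel (nat_lit 17448337536)) (.cons (.rel (nat_lit 17448443904)) .nil))) .nil)) .leaf) (nat_lit 14267787548803853) (.br (nat_lit 5) (.cons (.br (nat_lit 3) (.cons (.rel (nat_lit 4563404832))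 (.cons (.rel (nat_lit 4563402777)) .nil))) .nil)) .leaf)) (nat_lit 14267787548804002) (.br (nat_lit 1) (.cons (.br (nat_lit 2) (.cons (.rel (nat_lit 83888136)) .nil)) .nil)) (.node (.node (.node .leaf (nat_lit 14267787548804572) (.br (nat_lit 1) (.cons (.br (nat_lit 3) (.cons (.rel (nat_lit 286262289)) .nil)) .nil)) .leaf) (nat_lit 14267787548804633) (.br (nat_lit 2) (.cons (.br (nat_lit 3) (.cons (.rel (nat_lit 335560776)) (.cons (.rel (nat_lit 335544468)) .nil))) .nil)) .leaf) (nat_lit 14267787550335757) (.br (nat_lit 2) (.cons (.br (nat_lit 5) (.cons (.rel (nat_lit 8657051652)) .nil)) .nil)) (.node (.node .leaf (nat_lit 14267787550335786) (.br (nat_lit 3) (.cons (.br (nat_lit 5) (.cons (.rel (nat_lit 8858910720)) .nil)) .nil)) .leaf) (nat_lit 14267787550596502) (.br (nat_lit 0) (.cons (.br (nat_lit 1) (.cons (.rel (nat_lit 21528576)) .nil)) .nil)) .leaf))) (nat_lit 14267790253403623) (.br (nat_lit 6) (.cons (.br (nat_lit 2) (.cons (.rel (nat_lit 34493972736)) (.cons (.rel (nat_lit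 17247011328)) .nil))) .nil)) (.node (.node (.node (.node .leaf (nat_lit 14267790253418497) (.br (nat_lit 0) (.cons (.br (nat_lit 1) (.cons (.rel (nat_lit 22093824)) .nil)) .nil)) .leaf) (nat_lit 14267790254129437) (.br (nat_lit 2) (.cons (.br (nat_lit 3) (.cons (.rel (nat_lit 335560776)) .nil)) .nil)) .leaf) (nat_lit 14267790254129933) (.br (nat_lit 2) (.cons (.br (nat_lit 1) (.cons (.rel (nat_lit 83888136)) (.cons (.rel (nat_lit 83888136)) (.cons (.rel (nat_lit 83886117)) (.cons (.rel (nat_lit 151257600)) .nil))))) .nil)) (.node (.node .leaf (nat_lit 14267793315244813) (.br (nat_lit 2) (.cons (.br (nat_lit 6) (.cons (.rel (nat_lit 17314152513)) .nil)) .nil)) .leaf) (nat_lit 14267793315260467) (.br (nat_lit 1) (.cons (.br (nat_lit 3) (.cons (.rel (nat_lit 285233424)) .nil)) .nil)) .leaf)) (nat_lit 14267793393001959) (.br (nat_lit 2) (.cons (.br (nat_lit 3) (.cons (.rel (nat_lit 335676432)) .nil)) .nil)) (.node (.node (.node .leaf (nat_lit 14268423204260121) (.br (nat_lit 3) (.cons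 (.br (nat_lit 5) (.cons (.rel (nat_lit 4563476484)) .nil)) .nil)) .leaf) (nat_lit 14268423811426589) (.br (nat_lit 3) (.cons (.br (nat_lit 5) (.cons (.rel (nat_lit 9126806544)) .nil)) .nil)) .leaf) (nat_lit 14268780708948869) (.br (nat_lit 0) (.cons (.br (nat_lit 1) (.cons (.rel (nat_lit 42221568)) .nil)) .nil)) (.node .leaf (nat_lit 14268780709660060) (.br (nat_lit 1) (.cons (.br (nat_lit 6) (.cons (.br (nat_lit 2) (.cons (.rel (nat_lit 83888136)) (.cons (.rel (nat_lit 17247011328)) .nil))) .nil)) .nil)) .leaf))))))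

/-- refutations 42 -/
def e42 : EX := (.node (.node (.node (.node (.node (.node (.node .leaf (nat_lit 14269454054834801) (.br (nat_lit 1) (.cons (.br (nat_lit 3) (.cons (.rel (nat_lit 285745152)) .nil)) .nil)) .leaf) (nat_lit 14269454054835737) (.br (nat_lit 1) (.cons (.br (nat_lit 3) (.cons (.rel (nat_lit 553664517)) .nil)) .nil)) .leaf) (nat_lit 14273963711049180) (.br (nat_lit 3) (.cons (.br (nat_lit 5) (.cons (.rel (nat_lit 4563502080)) .nil)) .nil)) (.node .leaf (nat_lit 14273963711064126) (.br (nat_lit 1) (.cons (.br (nat_lit 3) (.cons (.rel (nat_lit 286261284)) .nil)) .nil)) .leaf)) (nat_lit 14273963711774771) (.br (nat_lit 1) (.cons (.br (nat_lit 5) (.cons (.rel (nat_lit 8607760410)) .nil)) .nil)) (.node (.node .leaf (nat_lit 14273963711775501) (.br (nat_lit 3) (.cons (.br (nat_lit 5) (.cons (.rel (nat_lit 8858374401)) .nil)) .nil)) .leaf) (nat_lit 14273963711775505) (.br (nat_lit 1) (.cons (.br (nat_lit 2) (.cons (.rel (nat_lit 83888136)) .nil)) .nil)) (.node .leaf (nat_lit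 14273963711776220) (.br (nat_lit 6) (.cons (.br (nat_lit 1) (.cons (.rel (nat_lit 17196646533)) (.cons (.rel (nat_lit 17215520832)) .nil))) .nil)) .leaf))) (nat_lit 14273963713307376) (.br (nat_lit 2) (.cons (.br (nat_lit 3) (.cons (.rel (nat_lit 335544468)) .nil)) .nil)) (.node (.node (.node .leaf (nat_lit 14273966417102300) (.br (nat_lit 2) (.cons (.br (nat_lit 1) (.cons (.rel (nat_lit 83888136)) (.cons (.rel (nat_lit 83887122)) .nil))) .nil)) .leaf) (nat_lit 14274238647234590) (.br (nat_lit 1) (.cons (.br (nat_lit 6) (.cons (.rel (nat_lit 17196650568)) .nil)) .nil)) (.node .leaf (nat_lit 14274238647234816) (.br (nat_lit 1) (.cons (.br (nat_lit 6) (.cons (.rel (nat_lit 17196713040)) .nil)) .nil)) .leaf)) (nat_lit 14274238647235312) (.br (nat_lit 1) (.cons (.br (nat_lit 6) (.cons (.rel (nat_lit 17196666912)) (.cons (.rel (nat_lit 17196646533)) .nil))) .nil)) (.node (.node .leaf (nat_lit 14274238647235820) (.br (nat_lit 1) (.cons (.br (nat_lit 3) (.cons (.rel (nat_lit 286262289))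 .nil)) .nil)) .leaf) (nat_lit 14274238647236121) (.br (nat_lit 6) (.cons (.br (nat_lit 0) (.cons (.rel (nat_lit 17184067608)) (.cons (.rel (nat_lit 17186161920)) (.cons (.rel (nat_lit 17184063573)) .nil)))) .nil)) (.node .leaf (nat_lit 14274238647366317) (.br (nat_lit 2) (.cons (.br (nat_lit 0) (.cons (.rel (nat_lit 71598336)) (.cons (.rel (nat_lit 71321664)) .nil))) .nil)) .leaf)))) (nat_lit 14274238647674910) (.br (nat_lit 5) (.cons (.br (nat_lit 6) (.cons (.rel (nat_lit 21474839040)) .nil)) .nil)) (.node (.node (.node (.node .leaf (nat_lit 14274238647676391) (.br (nat_lit 5) (.cons (.br (nat_lit 3) (.cons (.rel (nat_lit 4563402777)) (.cons (.rel (nat_lit 4563419265)) .nil))) .nil)) .leaf) (nat_lit 14274238647691270) (.br (nat_lit 1) (.cons (.br (nat_lit 4) (.cons (.rel (nat_lit 1090519188)) .nil)) .nil)) (.node .leaf (nat_lit 14274238647692801) (.br (nat_lit 1) (.cons (.br (nat_lit 0) (.cons (.rel (nat_lit 25165920)) (.cons (.rel (nat_lit 37814337)) (.cons (.rel (nat_lit 25165920))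 .nil)))) .nil)) .leaf)) (nat_lit 14274238648401926) (.br (nat_lit 1) (.cons (.br (nat_lit 4) (.cons (.br (nat_lit 5) (.cons (.rel (nat_lit 5368709640)) .nil)) .nil)) .nil)) (.node (.node .leaf (nat_lit 14274238648401975) (.br (nat_lit 1) (.cons (.br (nat_lit 2) (.cons (.rel (nat_lit 101187840)) (.cons (.rel (nat_lit 83886117)) (.cons (.rel (nat_lit 83888136)) (.cons (.rel (nat_lit 83888136)) .nil))))) (.cons (.br (nat_lit 4) (.cons (.rel (nat_lit 1090539522)) (.cons (.rel (nat_lit 1090789632)) (.cons (.rel (nat_lit 1090539522)) .nil)))) .nil))) .leaf) (nat_lit 14274238648402730) (.br (nat_lit 3) (.cons (.br (nat_lit 5) (.cons (.rel (nat_lit 4563403782)) (.cons (.rel (nat_lit 4563502080)) .nil))) .nil)) (.node .leaf (nat_lit 14274238648402821) (.br (nat_lit 0) (.cons (.br (nat_lit 5) (.cons (.rel (nat_lit 8594657280)) (.cons (.rel (nat_lit 8598323205)) .nil))) .nil)) .leaf))) (nat_lit 14274238648403180) (.br (nat_lit 1) (.cons (.br (nat_lit 2) (.cons (.rel (nat_lit 83888136)) (.cons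 (.rel (nat_lit 83888136)) (.cons (.rel (nat_lit 101187840)) (.cons (.rel (nat_lit 83888136)) .nil))))) .nil)) (.node (.node (.node .leaf (nat_lit 14274238648403457) (.br (nat_lit 1) (.cons (.br (nat_lit 2) (.cons (.rel (nat_lit 83888136)) .nil)) .nil)) .leaf) (nat_lit 14274238648403470) (.br (nat_lit 4) (.cons (.br (nat_lit 1) (.cons (.br (nat_lit 2) (.cons (.rel (nat_lit 83888136)) (.cons (.rel (nat_lit 101187840)) .nil))) (.cons (.br (nat_lit 2) (.cons (.br (nat_lit 5) (.cons (.rel (nat_lit 6442452096)) (.cons (.rel (nat_lit 4311748641)) (.cons (.rel (nat_lit 4429185093)) .nil)))) (.cons (.rel (nat_lit 101187840)) .nil))) .nil))) .nil)) (.node .leaf (nat_lit 14274238648403481) (.br (nat_lit 1) (.cons (.br (nat_lit 2) (.cons (.rel (nat_lit 83888136)) (.cons (.rel (nat_lit 83888136)) (.cons (.rel (nat_lit 83888136)) (.cons (.rel (nat_lit 83888136)) .nil))))) (.cons (.br (nat_lit 2) (.cons (.rel (nat_lit 83887122)) (.cons (.rel (nat_lit 83888136)) (.cons (.rel (nat_lit 83888136))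 (.cons (.rel (nat_lit 83888136)) .nil))))) .nil))) .leaf)) (nat_lit 14274238648440862) (.br (nat_lit 0) (.cons (.br (nat_lit 1) (.cons (.rel (nat_lit 42221568)) .nil)) .nil)) (.node (.node .leaf (nat_lit 14274238648505072) (.br (nat_lit 1) (.cons (.br (nat_lit 5) (.cons (.rel (nat_lit 4311745620)) .nil)) .nil)) .leaf) (nat_lit 14274238648505580) (.br (nat_lit 3) (.cons (.br (nat_lit 6) (.cons (.rel (nat_lit 17448309780)) .nil)) .nil)) (.node .leaf (nat_lit 14274238648758327) (.br (nat_lit 3) (.cons (.br (nat_lit 5) (.cons (.rel (nat_lit 4563406992)) .nil)) .nil)) .leaf))))) (nat_lit 14274238648961280) (.br (nat_lit 2) (.cons (.br (nat_lit 3) (.cons (.rel (nat_lit 335544468)) .nil)) .nil)) (.node (.node (.node (.node (.node .leaf (nat_lit 14274238649934576) (.br (nat_lit 1) (.cons (.br (nat_lit 2) (.cons (.rel (nat_lit 83952768)) .nil)) .nil)) .leaf) (nat_lit 14274238649934634) (.br (nat_lit 1) (.cons (.br (nat_lit 3) (.cons (.rel (nat_lit 553648209)) (.cons (.rel (nat_lit 570691584))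 .nil))) (.cons (.br (nat_lit 3) (.cons (.rel (nat_lit 553652244)) (.cons (.rel (nat_lit 285745152)) .nil))) .nil))) (.node .leaf (nat_lit 14274238650232838) (.br (nat_lit 0) (.cons (.br (nat_lit 1) (.cons (.rel (nat_lit 22020117)) .nil)) .nil)) .leaf)) (nat_lit 14274244431175710) (.br (nat_lit 5) (.cons (.br (nat_lit 6) (.cons (.rel (nat_lit 21475168320)) .nil)) .nil)) (.node (.node .leaf (nat_lit 14274244431180528) (.br (nat_lit 1) (.cons (.br (nat_lit 6) (.cons (.rel (nat_lit 34393296897)) .nil)) .nil)) .leaf) (nat_lit 14274244431181036) (.br (nat_lit 1) (.cons (.br (nat_lit 3) (.cons (.rel (nat_lit 285245697)) (.cons (.rel (nat_lit 553713666)) .nil))) .nil)) (.node .leaf (nat_lit 14274244431636510) (.br (nat_lit 5) (.cons (.br (nat_lit 2) (.cons (.rel (nat_lit 8657051652)) (.cons (.rel (nat_lit 8657051652)) (.cons (.rel (nat_lit 4362080784)) .nil)))) (.cons (.br (nat_lit 1) (.cons (.rel (nat_lit 8623509504)) (.cons (.rel (nat_lit 4311760914)) (.cons (.rel (nat_lit 8623509504))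 .nil)))) .nil))) .leaf))) (nat_lit 14274244431637232) (.br (nat_lit 6) (.cons (.br (nat_lit 2) (.cons (.rel (nat_lit 17249141760)) (.cons (.rel (nat_lit 34493972736)) .nil))) .nil)) (.node (.node (.node .leaf (nat_lit 14274244431637980) (.br (nat_lit 0) (.cons (.br (nat_lit 5) (.cons (.rel (nat_lit 4299163665)) .nil)) .nil)) .leaf) (nat_lit 14274244432347166) (.br (nat_lit 5) (.cons (.br (nat_lit 6) (.cons (.rel (nat_lit 25769820162)) (.cons (.rel (nat_lit 21476413440)) (.cons (.rel (nat_lit 21476413440)) (.cons (.rel (nat_lit 21474839040)) .nil))))) .nil)) (.node .leaf (nat_lit 14274244432348512) (.br (nat_lit 3) (.cons (.br (nat_lit 2) (.cons (.rel (nat_lit 606076929)) (.cons (.rel (nat_lit 335552529)) .nil))) .nil)) .leaf)) (nat_lit 14274244432348697) (.br (nat_lit 5) (.cons (.br (nat_lit 6) (.cons (.rel (nat_lit 25769820162)) (.cons (.rel (nat_lit 25769807889)) (.cons (.rel (nat_lit 21475099653)) .nil)))) .nil)) (.node (.node .leaf (nat_lit 14274244432704999) (.br (nat_lit 2)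 (.cons (.br (nat_lit 5) (.cons (.rel (nat_lit 4429189128)) .nil)) .nil)) .leaf) (nat_lit 14274996448915708) (.br (nat_lit 1) (.cons (.br (nat_lit 4) (.cons (.rel (nat_lit 1090551840)) .nil)) .nil)) (.node .leaf (nat_lit 14274999096689900) (.br (nat_lit 1) (.cons (.br (nat_lit 4) (.cons (.rel (nat_lit 1090551840)) .nil)) .nil)) .leaf)))) (nat_lit 14279504218420700) (.br (nat_lit 0) (.cons (.br (nat_lit 3) (.cons (.rel (nat_lit 272634120)) .nil)) .nil)) (.node (.node (.node (.node .leaf (nat_lit 14279504218877404) (.br (nat_lit 1) (.cons (.br (nat_lit 3) (.cons (.rel (nat_lit 285279552)) .nil)) .nil)) .leaf) (nat_lit 14279506924913421) (.br (nat_lit 2) (.cons (.br (nat_lit 6) (.cons (.rel (nat_lit 34426847328)) .nil)) .nil)) (.node .leaf (nat_lit 14280419344705542) (.br (nat_lit 1) (.cons (.br (nat_lit 2) (.cons (.rel (nat_lit 83888136)) .nil)) .nil)) .leaf)) (nat_lit 14280419344705573) (.br (nat_lit 2) (.cons (.br (nat_lit 4) (.cons (.rel (nat_lit 1141145601)) (.cons (.rel (nat_lit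 2281705728)) .nil))) .nil)) (.node (.node .leaf (nat_lit 14280419344706336) (.br (nat_lit 0) (.cons (.br (nat_lit 4) (.cons (.rel (nat_lit 1078002690)) (.cons (.rel (nat_lit 1077936228)) .nil))) .nil)) .leaf) (nat_lit 14280419344707097) (.br (nat_lit 2) (.cons (.br (nat_lit 6) (.cons (.rel (nat_lit 17249112132)) (.cons (.rel (nat_lit 17315397633)) .nil))) .nil)) (.node .leaf (nat_lit 14280419345416944) (.br (nat_lit 2) (.cons (.br (nat_lit 1) (.cons (.rel (nat_lit 83888136)) (.cons (.rel (nat_lit 83888136)) (.cons (.rel (nat_lit 83886117)) .nil)))) .nil)) .leaf))) (nat_lit 14280419345416948) (.br (nat_lit 2) (.cons (.br (nat_lit 6) (.cons (.rel (nat_lit 17247241344)) .nil)) .nil)) (.node (.node (.node .leaf (nat_lit 14280419345417093) (.br (nat_lit 0) (.cons (.br (nat_lit 1) (.cons (.rel (nat_lit 25183233)) .nil)) .nil)) .leaf) (nat_lit 14280419345417452) (.br (nat_lit 5) (.cons (.br (nat_lit 6) (.cons (.rel (nat_lit 21474839040)) .nil)) .nil)) (.node .leaf (nat_lit 14280420594152176)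 (.br (nat_lit 1) (.cons (.br (nat_lit 5) (.cons (.rel (nat_lit 4311746625)) .nil)) .nil)) .leaf)) (nat_lit 14280420594608158) (.br (nat_lit 1) (.cons (.br (nat_lit 6) (.cons (.rel (nat_lit 17196777492)) .nil)) .nil)) (.node (.node .leaf (nat_lit 14280420594609689) (.br (nat_lit 6) (.cons (.br (nat_lit 1) (.cons (.rel (nat_lit 17196650568)) (.cons (.rel (nat_lit 17196777492)) .nil))) .nil)) .leaf) (nat_lit 14280595200000055) (.br (nat_lit 1) (.cons (.br (nat_lit 3) (.cons (.rel (nat_lit 553648209)) .nil)) .nil)) (.node .leaf (nat_lit 14280595200001550) (.br (nat_lit 1) (.cons (.br (nat_lit 4) (.cons (.rel (nat_lit 1090519188)) .nil)) .nil)) .leaf))))))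

/-- refutations 43 -/
def e43 : EX := (.node (.node (.node (.node (.node (.node (.node .leaf (nat_lit 14179302610889585) (.br (nat_lit 0) (.cons (.br (nat_lit 1) (.cons (.rel (nat_lit 42221568)) .nil)) .nil)) .leaf) (nat_lit 14179302690571050) (.br (nat_lit 0) (.cons (.br (nat_lit 2) (.cons (.rel (nat_lit 71435265)) .nil)) .nil)) .leaf) (nat_lit 14179302690580517) (.br (nat_lit 1) (.cons (.br (nat_lit 4) (.cons (.rel (nat_lit 2181054480)) .nil)) .nil)) (.node .leaf (nat_lit 14179302690580781) (.br (nat_lit 2) (.cons (.br (nat_lit 3) (.cons (.rel (nat_lit 335549508)) .nil)) .nil)) .leaf)) (nat_lit 14179302690581285) (.br (nat_lit 0) (.cons (.br (nat_lit 1) (.cons (.rel (nat_lit 21528576)) .nil)) .nil)) (.node (.node (.node .leaf (nat_lit 14179302691291318) (.br (nat_lit 1) (.cons (.br (nat_lit 2) (.cons (.rel (nat_lit 83888136)) (.cons (.rel (nat_lit 83888136)) .nil))) .nil)) .leaf) (nat_lit 14179302691291388) (.br (nat_lit 2) (.cons (.br (nat_lit 1) (.cons (.rel (nat_lit 83911680))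 (.cons (.rel (nat_lit 84148500)) .nil))) .nil)) .leaf) (nat_lit 14179302691291761) (.br (nat_lit 2) (.cons (.br (nat_lit 6) (.cons (.rel (nat_lit 17247248400)) .nil)) .nil)) (.node .leaf (nat_lit 14179302691291946) (.br (nat_lit 0) (.cons (.br (nat_lit 1) (.cons (.rel (nat_lit 20979984)) .nil)) .nil)) .leaf))) (nat_lit 14179302691331558) (.br (nat_lit 0) (.cons (.br (nat_lit 2) (.cons (.rel (nat_lit 71311362)) .nil)) .nil)) (.node (.node (.node (.node .leaf (nat_lit 14179302691555580) (.br (nat_lit 3) (.cons (.br (nat_lit 4) (.cons (.rel (nat_lit 1342185600)) .nil)) .nil)) .leaf) (nat_lit 14179302691850277) (.br (nat_lit 1) (.cons (.br (nat_lit 2) (.cons (.rel (nat_lit 83888136)) .nil)) .nil)) .leaf) (nat_lit 14179302691850492) (.br (nat_lit 2) (.cons (.br (nat_lit 4) (.cons (.rel (nat_lit 2214597633)) .nil)) .nil)) (.node .leaf (nat_lit 14179302691850865) (.br (nat_lit 2) (.cons (.br (nat_lit 4) (.cons (.rel (nat_lit 2214597633)) .nil)) .nil)) .leaf)) (nat_lit 14179302691905596)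 (.br (nat_lit 0) (.cons (.br (nat_lit 1) (.cons (.rel (nat_lit 20972928)) .nil)) .nil)) (.node (.node (.node .leaf (nat_lit 14179302693121536) (.br (nat_lit 3) (.cons (.br (nat_lit 0) (.cons (.rel (nat_lit 541067268)) (.cons (.rel (nat_lit 273678468)) .nil))) .nil)) .leaf) (nat_lit 14179302693191932) (.br (nat_lit 2) (.cons (.br (nat_lit 4) (.cons (.rel (nat_lit 1140859392)) .nil)) .nil)) .leaf) (nat_lit 14179302693192361) (.br (nat_lit 0) (.cons (.br (nat_lit 2) (.cons (.rel (nat_lit 71598336)) .nil)) .nil)) (.node .leaf (nat_lit 14179302693192485) (.br (nat_lit 2) (.cons (.br (nat_lit 6) (.cons (.rel (nat_lit 34493972736)) (.cons (.rel (nat_lit 34426852368)) .nil))) .nil)) .leaf)))) (nat_lit 14179305358158449) (.br (nat_lit 0) (.cons (.br (nat_lit 1) (.cons (.rel (nat_lit 20992257)) .nil)) .nil)) (.node (.node (.node (.node (.node .leaf (nat_lit 14179305358159361) (.br (nat_lit 0) (.cons (.br (nat_lit 4) (.cons (.rel (nat_lit 1077937233)) .nil)) .nil)) .leaf) (nat_lit 14179305358159375)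 (.br (nat_lit 0) (.cons (.br (nat_lit 3) (.cons (.rel (nat_lit 273678468)) .nil)) .nil)) .leaf) (nat_lit 14179305358868662) (.br (nat_lit 0) (.cons (.br (nat_lit 1) (.cons (.rel (nat_lit 25183233)) .nil)) .nil)) (.node .leaf (nat_lit 14179305358869280) (.br (nat_lit 1) (.cons (.br (nat_lit 2) (.cons (.rel (nat_lit 83886117)) .nil)) .nil)) .leaf)) (nat_lit 14179305358869412) (.br (nat_lit 1) (.cons (.br (nat_lit 2) (.cons (.rel (nat_lit 152043600)) .nil)) .nil)) (.node (.node (.node .leaf (nat_lit 14179305359233661) (.br (nat_lit 0) (.cons (.br (nat_lit 3) (.cons (.rel (nat_lit 541065249)) .nil)) .nil)) .leaf) (nat_lit 14179305360261745) (.br (nat_lit 0) (.cons (.br (nat_lit 1) (.cons (.rel (nat_lit 42221568)) .nil)) .nil)) .leaf) (nat_lit 14179305360262530) (.br (nat_lit 1) (.cons (.br (nat_lit 2) (.cons (.rel (nat_lit 83888136)) .nil)) .nil)) (.node .leaf (nat_lit 14179305360770310) (.br (nat_lit 0) (.cons (.br (nat_lit 1) (.cons (.rel (nat_lit 39059457)) .nil)) .nil)) .leaf)))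 (nat_lit 14179783646748732) (.br (nat_lit 4) (.cons (.br (nat_lit 6) (.cons (.rel (nat_lit 35433545856)) (.cons (.rel (nat_lit 19327483968)) .nil))) (.cons (.br (nat_lit 5) (.cons (.rel (nat_lit 9663742980)) (.cons (.rel (nat_lit 10737418500)) .nil))) .nil))) (.node (.node (.node (.node .leaf (nat_lit 14179783646748953) (.br (nat_lit 5) (.cons (.br (nat_lit 2) (.cons (.rel (nat_lit 4364174340)) (.cons (.rel (nat_lit 4429317249)) .nil))) .nil)) .leaf) (nat_lit 14179783646749472) (.br (nat_lit 2) (.cons (.br (nat_lit 3) (.cons (.rel (nat_lit 335544468)) (.cons (.rel (nat_lit 335814912)) .nil))) .nil)) .leaf) (nat_lit 14179783646769438) (.br (nat_lit 1) (.cons (.br (nat_lit 2) (.cons (.rel (nat_lit 83886117)) (.cons (.rel (nat_lit 167773188)) .nil))) (.cons (.br (nat_lit 5) (.cons (.rel (nat_lit 8623509504)) (.cons (.rel (nat_lit 4311748641)) .nil))) .nil))) (.node .leaf (nat_lit 14179783646770087) (.br (nat_lit 1) (.cons (.br (nat_lit 4) (.cons (.rel (nat_lit 2181054480)) .nil)) .nil))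 .leaf)) (nat_lit 14179783646910524) (.br (nat_lit 0) (.cons (.br (nat_lit 2) (.cons (.rel (nat_lit 77594640)) (.cons (.rel (nat_lit 71311362)) (.cons (.rel (nat_lit 138412449)) .nil)))) .nil)) (.node (.node (.node .leaf (nat_lit 14179783646910745) (.br (nat_lit 1) (.cons (.br (nat_lit 6) (.cons (.rel (nat_lit 17213816832)) (.cons (.rel (nat_lit 17196718080)) .nil))) .nil)) .leaf) (nat_lit 14179783647217724) (.br (nat_lit 4) (.cons (.br (nat_lit 6) (.cons (.rel (nat_lit 36507501120)) .nil)) .nil)) .leaf) (nat_lit 14179783647225916) (.br (nat_lit 3) (.cons (.br (nat_lit 4) (.cons (.rel (nat_lit 1342185600)) (.cons (.rel (nat_lit 2415919377)) (.cons (.rel (nat_lit 1344274692)) .nil)))) (.cons (.br (nat_lit 6) (.cons (.rel (nat_lit 17448337536)) (.cons (.rel (nat_lit 34896625728)) (.cons (.rel (nat_lit 34629239808)) .nil)))) .nil))) (.node .leaf (nat_lit 14179783647226137) (.br (nat_lit 2) (.cons (.br (nat_lit 6) (.cons (.rel (nat_lit 17249141760)) (.cons (.br (nat_lit 3) (.cons (.rel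 (nat_lit 606076929)) (.cons (.rel (nat_lit 17448337536)) (.cons (.rel (nat_lit 335613960)) .nil)))) .nil))) .nil)) .leaf))))) (nat_lit 14179783647226493) (.br (nat_lit 1) (.cons (.br (nat_lit 2) (.cons (.rel (nat_lit 167773188)) .nil)) .nil)) (.node (.node (.node (.node (.node (.node .leaf (nat_lit 14179783647226608) (.br (nat_lit 3) (.cons (.br (nat_lit 6) (.cons (.rel (nat_lit 17448390720)) .nil)) .nil)) .leaf) (nat_lit 14179783647226642) (.br (nat_lit 6) (.cons (.br (nat_lit 1) (.cons (.rel (nat_lit 17196718080)) (.cons (.rel (nat_lit 17197695492)) .nil))) .nil)) .leaf) (nat_lit 14179783647226656) (.br (nat_lit 3) (.cons (.br (nat_lit 0) (.cons (.rel (nat_lit 541065249)) (.cons (.rel (nat_lit 273678468)) .nil))) .nil)) (.node .leaf (nat_lit 14179783647227361) (.br (nat_lit 1) (.cons (.br (nat_lit 3) (.cons (.rel (nat_lit 286347264)) .nil)) .nil)) .leaf)) (nat_lit 14179783647227386) (.br (nat_lit 0) (.cons (.br (nat_lit 2) (.cons (.rel (nat_lit 71311362)) .nil)) .nil)) (.node (.node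 (.node .leaf (nat_lit 14179783647937298) (.br (nat_lit 2) (.cons (.br (nat_lit 5) (.cons (.rel (nat_lit 4429189128)) (.cons (.rel (nat_lit 4362405888)) (.cons (.rel (nat_lit 4429203456)) .nil)))) (.cons (.br (nat_lit 5) (.cons (.rel (nat_lit 8657051652)) (.cons (.rel (nat_lit 4364174340)) (.cons (.rel (nat_lit 8657051652)) .nil)))) .nil))) .leaf) (nat_lit 14179783648284958) (.br (nat_lit 2) (.cons (.br (nat_lit 3) (.cons (.rel (nat_lit 335560776)) .nil)) .nil)) .leaf) (nat_lit 14180814326130998) (.br (nat_lit 0) (.cons (.br (nat_lit 1) (.cons (.rel (nat_lit 37753920)) .nil)) .nil)) (.node .leaf (nat_lit 14185839440109574) (.br (nat_lit 0) (.cons (.br (nat_lit 5) (.cons (.rel (nat_lit 8598323205)) .nil)) .nil)) .leaf))) (nat_lit 14185965652863883) (.br (nat_lit 1) (.cons (.br (nat_lit 2) (.cons (.rel (nat_lit 83906640)) .nil)) .nil)) (.node (.node (.node (.node .leaf (nat_lit 14186045709075057) (.br (nat_lit 1) (.cons (.br (nat_lit 3) (.cons (.rel (nat_lit 285279552)) .nil)) .nil))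 .leaf) (nat_lit 14186045709075243) (.br (nat_lit 1) (.cons (.br (nat_lit 3) (.cons (.rel (nat_lit 285233424)) .nil)) .nil)) .leaf) (nat_lit 14186045709544061) (.br (nat_lit 1) (.cons (.br (nat_lit 2) (.cons (.rel (nat_lit 83888136)) .nil)) .nil)) (.node .leaf (nat_lit 14186048456812601) (.br (nat_lit 1) (.cons (.br (nat_lit 2) (.cons (.rel (nat_lit 83911680)) .nil)) .nil)) .leaf)) (nat_lit 14186048456814081) (.br (nat_lit 1) (.cons (.br (nat_lit 2) (.cons (.rel (nat_lit 83887122)) .nil)) .nil)) (.node (.node (.node .leaf (nat_lit 14186234767340272) (.br (nat_lit 0) (.cons (.br (nat_lit 1) (.cons (.rel (nat_lit 42221568)) .nil)) .nil)) .leaf) (nat_lit 14186234767470844) (.br (nat_lit 2) (.cons (.br (nat_lit 5) (.cons (.rel (nat_lit 4429189128)) .nil)) .nil)) .leaf) (nat_lit 14186234767796230) (.br (nat_lit 5) (.cons (.br (nat_lit 6) (.cons (.rel (nat_lit 21475099653)) (.cons (.rel (nat_lit 21476413440)) .nil))) (.cons (.br (nat_lit 6) (.cons (.rel (nat_lit 21475099653)) (.cons (.rel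 (nat_lit 21474839040)) .nil))) .nil))) (.node .leaf (nat_lit 14186234768507062) (.br (nat_lit 1) (.cons (.br (nat_lit 2) (.cons (.rel (nat_lit 83886117)) .nil)) .nil)) .leaf)))) (nat_lit 14186234768507132) (.br (nat_lit 5) (.cons (.br (nat_lit 2) (.cons (.rel (nat_lit 4362080784)) (.cons (.rel (nat_lit 4364174340)) .nil))) .nil)) (.node (.node (.node (.node (.node .leaf (nat_lit 14186234768507505) (.br (nat_lit 2) (.cons (.br (nat_lit 3) (.cons (.rel (nat_lit 671105040)) (.cons (.rel (nat_lit 335564802)) .nil))) (.cons (.br (nat_lit 3) (.cons (.rel (nat_lit 603980352)) (.cons (.rel (nat_lit 335577120)) .nil))) .nil))) .leaf) (nat_lit 14186234768507781) (.br (nat_lit 1) (.cons (.br (nat_lit 3) (.cons (.rel (nat_lit 286261284)) .nil)) .nil)) .leaf) (nat_lit 14186234768508256) (.br (nat_lit 5) (.cons (.br (nat_lit 6) (.cons (.rel (nat_lit 38654726160)) .nil)) .nil)) (.node .leaf (nat_lit 14186234768547302) (.br (nat_lit 0) (.cons (.br (nat_lit 1) (.cons (.rel (nat_lit 21528576)) .nil))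 .nil)) .leaf)) (nat_lit 14186234768771324) (.br (nat_lit 0) (.cons (.br (nat_lit 4) (.cons (.rel (nat_lit 2155888704)) .nil)) .nil)) (.node (.node (.node .leaf (nat_lit 14186234768864034) (.br (nat_lit 3) (.cons (.br (nat_lit 4) (.cons (.rel (nat_lit 1342185600)) .nil)) .nil)) .leaf) (nat_lit 14186234769066609) (.br (nat_lit 3) (.cons (.br (nat_lit 4) (.cons (.rel (nat_lit 1342177350)) .nil)) .nil)) .leaf) (nat_lit 14186234770038936) (.br (nat_lit 2) (.cons (.br (nat_lit 3) (.cons (.rel (nat_lit 335577120)) .nil)) .nil)) (.node .leaf (nat_lit 14186234770039036) (.br (nat_lit 2) (.cons (.br (nat_lit 3) (.cons (.rel (nat_lit 335564802)) (.cons (.rel (nat_lit 335628288)) .nil))) (.cons (.br (nat_lit 3) (.cons (.rel (nat_lit 671105040)) (.cons (.rel (nat_lit 335552529)) .nil))) .nil))) .leaf))) (nat_lit 14186234770039409) (.br (nat_lit 2) (.cons (.br (nat_lit 4) (.cons (.br (nat_lit 5) (.cons (.rel (nat_lit 8657051652)) (.cons (.rel (nat_lit 5369053248)) (.cons (.br (nat_lit 3) (.cons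 (.rel (nat_lit 4899078144)) (.cons (.rel (nat_lit 335628288)) (.cons (.rel (nat_lit 335564802)) (.cons (.rel (nat_lit 335577120)) (.cons (.rel (nat_lit 1342185600)) (.cons (.rel (nat_lit 335628288)) .nil))))))) .nil)))) (.cons (.rel (nat_lit 1141133328)) (.cons (.rel (nat_lit 1208090625)) .nil)))) (.cons (.br (nat_lit 4) (.cons (.rel (nat_lit 1140859392)) (.cons (.rel (nat_lit 1141899525)) (.cons (.rel (nat_lit 1140859392)) .nil)))) (.cons (.br (nat_lit 4) (.cons (.rel (nat_lit 1207977024)) (.cons (.rel (nat_lit 2214592593)) (.cons (.rel (nat_lit 1142424576)) .nil)))) .nil)))) (.node (.node (.node (.node .leaf (nat_lit 14186234770040160) (.br (nat_lit 2) (.cons (.br (nat_lit 4) (.cons (.rel (nat_lit 1140859392)) (.cons (.rel (nat_lit 2214658050)) .nil))) .nil)) .leaf) (nat_lit 14186234770309745) (.br (nat_lit 4) (.cons (.br (nat_lit 6) (.cons (.rel (nat_lit 18255708180)) (.cons (.rel (nat_lit 18253612608)) .nil))) .nil)) .leaf) (nat_lit 14186234770407676) (.br (nat_lit 2) (.cons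 (.br (nat_lit 4) (.cons (.rel (nat_lit 2281705728)) .nil)) .nil)) (.node .leaf (nat_lit 14186234770408229) (.br (nat_lit 5) (.cons (.br (nat_lit 1) (.cons (.rel (nat_lit 4311750660)) (.cons (.rel (nat_lit 4311760914)) .nil))) .nil)) .leaf)) (nat_lit 14186235334027324) (.br (nat_lit 2) (.cons (.br (nat_lit 5) (.cons (.rel (nat_lit 4362405888)) .nil)) .nil)) (.node (.node (.node .leaf (nat_lit 14186235336271250) (.br (nat_lit 0) (.cons (.br (nat_lit 2) (.cons (.rel (nat_lit 71303301)) .nil)) .nil)) .leaf) (nat_lit 14191380138146044) (.br (nat_lit 4) (.cons (.br (nat_lit 5) (.cons (.rel (nat_lit 9663680544)) .nil)) .nil)) .leaf) (nat_lit 14191546015662212) (.br (nat_lit 1) (.cons (.br (nat_lit 4) (.cons (.rel (nat_lit 1090524228)) .nil)) .nil)) (.node .leaf (nat_lit 14192496830115329) (.br (nat_lit 0) (.cons (.br (nat_lit 2) (.cons (.rel (nat_lit 71311362)) (.cons (.rel (nat_lit 142610433)) .nil))) .nil)) .leaf))))))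

/-- refutations 44 -/
def e44 : EX := (.node (.node (.node (.node (.node (.node .leaf (nat_lit 14291813653410448) (.br (nat_lit 3) (.cons (.br (nat_lit 4) (.cons (.rel (nat_lit 1344274692)) .nil)) .nil)) .leaf) (nat_lit 14291813653410544) (.br (nat_lit 0) (.cons (.br (nat_lit 2) (.cons (.rel (nat_lit 77594640)) (.cons (.rel (nat_lit 139460640)) .nil))) .nil)) .leaf) (nat_lit 14291813653541641) (.br (nat_lit 1) (.cons (.br (nat_lit 3) (.cons (.rel (nat_lit 570691584)) .nil)) .nil)) (.node .leaf (nat_lit 14291813653866678) (.br (nat_lit 0) (.cons (.br (nat_lit 2) (.cons (.rel (nat_lit 71307336)) .nil)) .nil)) .leaf)) (nat_lit 14291813653866797) (.br (nat_lit 1) (.cons (.br (nat_lit 2) (.cons (.rel (nat_lit 83888136)) .nil)) .nil)) (.node (.node (.node .leaf (nat_lit 14291813653867301) (.br (nat_lit 2) (.cons (.br (nat_lit 1) (.cons (.rel (nat_lit 151257600)) (.cons (.rel (nat_lit 151257600)) .nil))) .nil)) .leaf) (nat_lit 14291813653867397) (.br (nat_lit 6) (.cons (.br (nat_lit 0)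 (.cons (.rel (nat_lit 17184063573)) (.cons (.rel (nat_lit 17184068613)) (.cons (.rel (nat_lit 17184063573)) (.cons (.rel (nat_lit 17184067608)) .nil))))) (.cons (.br (nat_lit 1) (.cons (.rel (nat_lit 17196646533)) (.cons (.rel (nat_lit 34376519940)) (.cons (.rel (nat_lit 17196650568)) (.cons (.rel (nat_lit 34377105408)) .nil))))) .nil))) .leaf) (nat_lit 14291813653867756) (.br (nat_lit 3) (.cons (.br (nat_lit 6) (.cons (.rel (nat_lit 17448310785)) .nil)) .nil)) (.node .leaf (nat_lit 14291813654577203) (.br (nat_lit 4) (.cons (.br (nat_lit 0) (.cons (.rel (nat_lit 1079267328)) (.cons (.rel (nat_lit 1077941268)) .nil))) .nil)) .leaf))) (nat_lit 14291813654577334) (.br (nat_lit 1) (.cons (.br (nat_lit 3) (.cons (.rel (nat_lit 570691584)) .nil)) .nil)) (.node (.node (.node (.node .leaf (nat_lit 14291813654577954) (.br (nat_lit 4) (.cons (.br (nat_lit 2) (.cons (.rel (nat_lit 1141179456)) (.cons (.rel (nat_lit 2214596628)) .nil))) .nil)) .leaf) (nat_lit 14291813654578053) (.br (nat_lit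 3) (.cons (.br (nat_lit 2) (.cons (.rel (nat_lit 335564802)) (.cons (.rel (nat_lit 335564802)) .nil))) .nil)) .leaf) (nat_lit 14291813654578702) (.br (nat_lit 4) (.cons (.br (nat_lit 2) (.cons (.rel (nat_lit 2214596628)) (.cons (.rel (nat_lit 2281705728)) .nil))) .nil)) (.node .leaf (nat_lit 14291813654616689) (.br (nat_lit 2) (.cons (.br (nat_lit 4) (.cons (.rel (nat_lit 1141179456)) .nil)) .nil)) .leaf)) (nat_lit 14291813654680478) (.br (nat_lit 1) (.cons (.br (nat_lit 2) (.cons (.rel (nat_lit 101187840)) .nil)) .nil)) (.node (.node .leaf (nat_lit 14291813654934129) (.br (nat_lit 0) (.cons (.br (nat_lit 5) (.cons (.rel (nat_lit 4299162660)) (.cons (.rel (nat_lit 4299163665)) .nil))) .nil)) .leaf) (nat_lit 14291813654934306) (.br (nat_lit 6) (.cons (.br (nat_lit 0) (.cons (.rel (nat_lit 17184081936)) (.cons (.rel (nat_lit 17184081936)) .nil))) .nil)) (.node .leaf (nat_lit 14291813655136406) (.br (nat_lit 0) (.cons (.br (nat_lit 2) (.cons (.rel (nat_lit 71303301)) .nil)) .nil)) .leaf))))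 (nat_lit 14291813655136881) (.br (nat_lit 1) (.cons (.br (nat_lit 2) (.cons (.rel (nat_lit 84148500)) (.cons (.rel (nat_lit 101187840)) .nil))) (.cons (.br (nat_lit 2) (.cons (.rel (nat_lit 83886117)) (.cons (.rel (nat_lit 83918913)) .nil))) .nil))) (.node (.node (.node (.node (.node .leaf (nat_lit 14291813656109107) (.br (nat_lit 4) (.cons (.br (nat_lit 2) (.cons (.rel (nat_lit 1140859392)) (.cons (.rel (nat_lit 1208090625)) .nil))) .nil)) .leaf) (nat_lit 14291813656110316) (.br (nat_lit 1) (.cons (.br (nat_lit 6) (.cons (.rel (nat_lit 17196679185)) .nil)) .nil)) .leaf) (nat_lit 14291813656408720) (.br (nat_lit 1) (.cons (.br (nat_lit 2) (.cons (.rel (nat_lit 83886117)) .nil)) .nil)) (.node .leaf (nat_lit 14291813656472177) (.br (nat_lit 1) (.cons (.br (nat_lit 0) (.cons (.rel (nat_lit 20972928)) (.cons (.rel (nat_lit 42221568)) (.cons (.rel (nat_lit 42221568)) .nil)))) (.cons (.br (nat_lit 0) (.cons (.rel (nat_lit 20972928)) (.cons (.rel (nat_lit 21528576)) (.cons (.rel (nat_lit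 25183233)) .nil)))) .nil))) .leaf)) (nat_lit 14291813656472459) (.br (nat_lit 1) (.cons (.br (nat_lit 2) (.cons (.rel (nat_lit 83918913)) .nil)) .nil)) (.node (.node .leaf (nat_lit 14291816732485762) (.br (nat_lit 1) (.cons (.br (nat_lit 3) (.cons (.rel (nat_lit 285344004)) .nil)) .nil)) .leaf) (nat_lit 14291816732486892) (.br (nat_lit 1) (.cons (.br (nat_lit 2) (.cons (.rel (nat_lit 100950018)) .nil)) .nil)) (.node .leaf (nat_lit 14291818917719276) (.br (nat_lit 0) (.cons (.br (nat_lit 3) (.cons (.rel (nat_lit 273678468)) .nil)) .nil)) .leaf))) (nat_lit 14291818918429932) (.br (nat_lit 2) (.cons (.br (nat_lit 3) (.cons (.rel (nat_lit 335611992)) .nil)) .nil)) (.node (.node (.node (.node .leaf (nat_lit 14291818920323959) (.br (nat_lit 3) (.cons (.br (nat_lit 0) (.cons (.rel (nat_lit 273155136)) (.cons (.rel (nat_lit 541067268)) (.cons (.rel (nat_lit 541067268)) .nil)))) .nil)) .leaf) (nat_lit 14297792248344064) (.br (nat_lit 2) (.cons (.br (nat_lit 4) (.cons (.rel (nat_lit 2281705728))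 .nil)) .nil)) .leaf) (nat_lit 14297792250883584) (.br (nat_lit 3) (.cons (.br (nat_lit 6) (.cons (.rel (nat_lit 17448390720)) .nil)) .nil)) (.node .leaf (nat_lit 15433802555569679) (.br (nat_lit 0) (.cons (.br (nat_lit 1) (.cons (.rel (nat_lit 22282500)) .nil)) .nil)) .leaf)) (nat_lit 15433805156847079) (.br (nat_lit 3) (.cons (.br (nat_lit 5) (.cons (.rel (nat_lit 4563406992)) .nil)) .nil)) (.node (.node .leaf (nat_lit 15434832797035277) (.br (nat_lit 0) (.cons (.br (nat_lit 3) (.cons (.rel (nat_lit 545264193)) .nil)) .nil)) .leaf) (nat_lit 15434832799640439) (.br (nat_lit 1) (.cons (.br (nat_lit 2) (.cons (.rel (nat_lit 83888136)) .nil)) .nil)) (.node .leaf (nat_lit 15435929502656793) (.br (nat_lit 2) (.cons (.br (nat_lit 3) (.cons (.rel (nat_lit 335560776)) .nil)) .nil)) .leaf)))))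

/-- refutations 45 -/
def e45 : EX := (.node (.node (.node .leaf (nat_lit 15481124768957041) (.br (nat_lit 0) (.cons (.br (nat_lit 1) (.cons (.rel (nat_lit 25493760)) .nil)) .nil)) .leaf) (nat_lit 15481442830707474) (.br (nat_lit 1) (.cons (.br (nat_lit 4) (.cons (.rel (nat_lit 2181054480)) .nil)) .nil)) .leaf) (nat_lit 15481605805294193) (.br (nat_lit 0) (.cons (.br (nat_lit 2) (.cons (.rel (nat_lit 71311362)) .nil)) .nil)) (.node .leaf (nat_lit 15481606039464722) (.br (nat_lit 3) (.cons (.br (nat_lit 5) (.cons (.rel (nat_lit 4564468224)) .nil)) .nil)) .leaf))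

/-- refutations 46 -/
def e46 : EX := (.node (.node (.node (.node (.node .leaf (nat_lit 15499146081450265) (.br (nat_lit 1) (.cons (.br (nat_lit 3) (.cons (.rel (nat_lit 286294080)) .nil)) .nil)) .leaf) (nat_lit 15499146082631961) (.br (nat_lit 1) (.cons (.br (nat_lit 2) (.cons (.rel (nat_lit 167773188)) .nil)) .nil)) (.node .leaf (nat_lit 15499146082632567) (.br (nat_lit 0) (.cons (.br (nat_lit 1) (.cons (.rel (nat_lit 20992257)) .nil)) .nil)) .leaf)) (nat_lit 15499146084526967) (.br (nat_lit 3) (.cons (.br (nat_lit 4) (.cons (.rel (nat_lit 1342185600)) .nil)) .nil)) (.node (.node .leaf (nat_lit 15499146689564982) (.br (nat_lit 1) (.cons (.br (nat_lit 3) (.cons (.rel (nat_lit 285279552)) .nil)) .nil)) .leaf) (nat_lit 15499146689768684) (.br (nat_lit 1) (.cons (.br (nat_lit 6) (.cons (.rel (nat_lit 17196650568)) .nil)) .nil)) (.node .leaf (nat_lit 15499146689833270) (.br (nat_lit 1) (.cons (.br (nat_lit 2) (.cons (.rel (nat_lit 83911680)) .nil)) .nil)) .leaf))) (nat_lit 15499146689833745)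 (.br (nat_lit 0) (.cons (.br (nat_lit 2) (.cons (.rel (nat_lit 71307336)) .nil)) .nil)) (.node (.node (.node .leaf (nat_lit 15499146690095729) (.br (nat_lit 1) (.cons (.br (nat_lit 6) (.cons (.rel (nat_lit 17196650568)) .nil)) .nil)) .leaf) (nat_lit 15499876226361625) (.br (nat_lit 3) (.cons (.br (nat_lit 2) (.cons (.rel (nat_lit 335545473)) (.cons (.rel (nat_lit 335560776)) .nil))) .nil)) (.node .leaf (nat_lit 15499876228874521) (.br (nat_lit 2) (.cons (.br (nat_lit 3) (.cons (.rel (nat_lit 335545473)) .nil)) .nil)) .leaf)) (nat_lit 15499876286090497) (.br (nat_lit 1) (.cons (.br (nat_lit 3) (.cons (.rel (nat_lit 302060544)) .nil)) .nil)) (.node (.node .leaf (nat_lit 15499876834005277) (.br (nat_lit 1) (.cons (.br (nat_lit 2) (.cons (.rel (nat_lit 83887122)) .nil)) .nil)) .leaf) (nat_lit 15499876834220657) (.br (nat_lit 0) (.cons (.br (nat_lit 1) (.cons (.rel (nat_lit 37748880)) (.cons (.rel (nat_lit 22093824)) .nil))) (.cons (.br (nat_lit 1) (.cons (.rel (nat_lit 42221568)) (.cons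 (.rel (nat_lit 20972928)) .nil))) .nil))) .leaf))) (nat_lit 15499876834273565) (.br (nat_lit 1) (.cons (.br (nat_lit 2) (.cons (.rel (nat_lit 83911680)) .nil)) .nil)) (.node (.node (.node (.node .leaf (nat_lit 15499876834519321) (.br (nat_lit 3) (.cons (.br (nat_lit 1) (.cons (.rel (nat_lit 553652244)) (.cons (.rel (nat_lit 285745152)) .nil))) .nil)) .leaf) (nat_lit 15499876834527509) (.br (nat_lit 2) (.cons (.br (nat_lit 3) (.cons (.rel (nat_lit 335545473)) .nil)) .nil)) (.node .leaf (nat_lit 15499876834527513) (.br (nat_lit 1) (.cons (.br (nat_lit 2) (.cons (.rel (nat_lit 84148500)) (.cons (.rel (nat_lit 101187840)) .nil))) (.cons (.br (nat_lit 2) (.cons (.rel (nat_lit 83888136)) (.cons (.rel (nat_lit 151257600)) .nil))) .nil))) .leaf)) (nat_lit 15499876834535701) (.br (nat_lit 3) (.cons (.br (nat_lit 6) (.cons (.rel (nat_lit 17716740624)) .nil)) .nil)) (.node (.node .leaf (nat_lit 15499876834535709) (.br (nat_lit 1) (.cons (.br (nat_lit 3) (.cons (.rel (nat_lit 285745152)) (.cons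 (.rel (nat_lit 286262289)) .nil))) .nil)) .leaf) (nat_lit 15499876834536311) (.br (nat_lit 3) (.cons (.br (nat_lit 6) (.cons (.rel (nat_lit 34896678912)) .nil)) .nil)) .leaf)) (nat_lit 15499876835543665) (.br (nat_lit 3) (.cons (.br (nat_lit 6) (.cons (.rel (nat_lit 17448309780)) .nil)) .nil)) (.node (.node (.node .leaf (nat_lit 15499876835544325) (.br (nat_lit 1) (.cons (.br (nat_lit 2) (.cons (.rel (nat_lit 83911680)) .nil)) .nil)) .leaf) (nat_lit 15499876835544477) (.br (nat_lit 1) (.cons (.br (nat_lit 3) (.cons (.rel (nat_lit 570691584)) .nil)) .nil)) (.node .leaf (nat_lit 15499876837048601) (.br (nat_lit 0) (.cons (.br (nat_lit 3) (.cons (.rel (nat_lit 541065249)) (.cons (.rel (nat_lit 276889728)) .nil))) (.cons (.br (nat_lit 2) (.cons (.rel (nat_lit 71369808)) (.cons (.rel (nat_lit 71386116)) .nil))) .nil))) .leaf)) (nat_lit 15499881532139805) (.br (nat_lit 2) (.cons (.br (nat_lit 3) (.cons (.rel (nat_lit 335544468)) .nil)) .nil)) (.node (.node .leaf (nat_lit 15499881532149113)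 (.br (nat_lit 3) (.cons (.br (nat_lit 0) (.cons (.rel (nat_lit 273810432)) (.cons (.rel (nat_lit 272634120)) .nil))) .nil)) .leaf) (nat_lit 15506298733389850) (.br (nat_lit 1) (.cons (.br (nat_lit 3) (.cons (.rel (nat_lit 302007360)) .nil)) .nil)) .leaf))))

/-- refutations 47 -/
def e47 : EX := (.node (.node (.node (.node (.node (.node .leaf (nat_lit 15868152592310897) (.br (nat_lit 0) (.cons (.br (nat_lit 1) (.cons (.rel (nat_lit 37818372)) .nil)) .nil)) .leaf) (nat_lit 15868152860767134) (.br (nat_lit 1) (.cons (.br (nat_lit 6) (.cons (.rel (nat_lit 34376519940)) .nil)) .nil)) .leaf) (nat_lit 15868152860960943) (.br (nat_lit 3) (.cons (.br (nat_lit 6) (.cons (.rel (nat_lit 17448305745)) .nil)) .nil)) (.node .leaf (nat_lit 15868152860961020) (.br (nat_lit 0) (.cons (.br (nat_lit 6) (.cons (.rel (nat_lit 34368208896)) .nil)) .nil)) .leaf)) (nat_lit 15868152861213297) (.br (nat_lit 0) (.cons (.br (nat_lit 1) (.cons (.rel (nat_lit 20992257)) .nil)) .nil)) (.node (.node (.node .leaf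 (nat_lit 15868152861215345) (.br (nat_lit 2) (.cons (.br (nat_lit 3) (.cons (.rel (nat_lit 606076929)) .nil)) .nil)) .leaf) (nat_lit 15868152861215497) (.br (nat_lit 2) (.cons (.br (nat_lit 5) (.cons (.rel (nat_lit 4362405888)) .nil)) .nil)) .leaf) (nat_lit 15868152861223168) (.br (nat_lit 0) (.cons (.br (nat_lit 3) (.cons (.rel (nat_lit 276825096)) .nil)) .nil)) (.node .leaf (nat_lit 15868152861223537) (.br (nat_lit 1) (.cons (.br (nat_lit 2) (.cons (.rel (nat_lit 101187840)) (.cons (.rel (nat_lit 83952768)) (.cons (.rel (nat_lit 83906640)) (.cons (.rel (nat_lit 83906640)) .nil))))) (.cons (.br (nat_lit 6) (.cons (.rel (nat_lit 34376515905)) (.cons (.rel (nat_lit 34376515905)) .nil))) .nil))) .leaf))) (nat_lit 15868152861223689) (.br (nat_lit 3) (.cons (.br (nat_lit 4) (.cons (.rel (nat_lit 1342177350)) (.cons (.rel (nat_lit 1342185600)) (.cons (.rel (nat_lit 1342275648)) .nil)))) (.cons (.br (nat_lit 4) (.cons (.rel (nat_lit 1342185600)) (.cons (.rel (nat_lit 1342181385)) (.cons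 (.rel (nat_lit 1342177350)) .nil)))) .nil))) (.node (.node (.node (.node .leaf (nat_lit 15868152861933824) (.br (nat_lit 3) (.cons (.br (nat_lit 6) (.cons (.rel (nat_lit 17448310785)) .nil)) .nil)) .leaf) (nat_lit 15868152861934193) (.br (nat_lit 2) (.cons (.br (nat_lit 1) (.cons (.rel (nat_lit 83918913)) (.cons (.rel (nat_lit 83918913)) .nil))) .nil)) .leaf) (nat_lit 15868152862290095) (.br (nat_lit 5) (.cons (.br (nat_lit 6) (.cons (.rel (nat_lit 21475099653)) .nil)) .nil)) (.node .leaf (nat_lit 15868152863203503) (.br (nat_lit 2) (.cons (.br (nat_lit 3) (.cons (.rel (nat_lit 335564802)) .nil)) .nil)) .leaf)) (nat_lit 15868152863203580) (.br (nat_lit 3) (.cons (.br (nat_lit 4) (.cons (.rel (nat_lit 1342185600)) (.cons (.rel (nat_lit 1342185600)) .nil))) .nil)) (.node (.node (.node .leaf (nat_lit 15868152863263345) (.br (nat_lit 5) (.cons (.br (nat_lit 6) (.cons (.rel (nat_lit 25769807889)) .nil)) .nil)) .leaf) (nat_lit 15868152863736433) (.br (nat_lit 2) (.cons (.br (nat_lit 6)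 (.cons (.rel (nat_lit 17247260673)) .nil)) .nil)) .leaf) (nat_lit 15868152863828869) (.br (nat_lit 0) (.cons (.br (nat_lit 2) (.cons (.rel (nat_lit 75759681)) .nil)) .nil)) (.node .leaf (nat_lit 15868153095778929) (.br (nat_lit 0) (.cons (.br (nat_lit 2) (.cons (.rel (nat_lit 71307336)) .nil)) .nil)) .leaf)))) (nat_lit 15868153117076081) (.br (nat_lit 1) (.cons (.br (nat_lit 4) (.cons (.rel (nat_lit 1109458944)) .nil)) .nil)) (.node (.node (.node (.node (.node .leaf (nat_lit 15868155108913404) (.br (nat_lit 0) (.cons (.br (nat_lit 3) (.cons (.rel (nat_lit 272630085)) .nil)) .nil)) .leaf) (nat_lit 15868157294595584) (.br (nat_lit 0) (.cons (.br (nat_lit 2) (.cons (.rel (nat_lit 71303301)) .nil)) .nil)) .leaf) (nat_lit 15868157624001137) (.br (nat_lit 1) (.cons (.br (nat_lit 3) (.cons (.rel (nat_lit 285745152)) .nil)) .nil)) (.node .leaf (nat_lit 15868157624363633) (.br (nat_lit 1) (.cons (.br (nat_lit 3) (.cons (.rel (nat_lit 285344004)) .nil)) .nil)) .leaf)) (nat_lit 15868158334781477)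 (.br (nat_lit 1) (.cons (.br (nat_lit 3) (.cons (.rel (nat_lit 553648209)) .nil)) .nil)) (.node (.node (.node .leaf (nat_lit 15868158334789662) (.br (nat_lit 0) (.cons (.br (nat_lit 1) (.cons (.rel (nat_lit 21037380)) .nil)) .nil)) .leaf) (nat_lit 15868470691045436) (.br (nat_lit 1) (.cons (.br (nat_lit 2) (.cons (.rel (nat_lit 167773188)) .nil)) .nil)) .leaf) (nat_lit 15868682322069756) (.br (nat_lit 0) (.cons (.br (nat_lit 3) (.cons (.rel (nat_lit 272696592)) .nil)) .nil)) (.node .leaf (nat_lit 15869312609789957) (.br (nat_lit 0) (.cons (.br (nat_lit 1) (.cons (.rel (nat_lit 20979984)) .nil)) .nil)) .leaf))) (nat_lit 15869312757788804) (.br (nat_lit 3) (.cons (.br (nat_lit 4) (.cons (.rel (nat_lit 1342185600)) .nil)) .nil)) (.node (.node (.node (.node .leaf (nat_lit 15869312757789297) (.br (nat_lit 1) (.cons (.br (nat_lit 3) (.cons (.rel (nat_lit 286262289)) .nil)) .nil)) .leaf) (nat_lit 15869312757930044) (.br (nat_lit 5) (.cons (.br (nat_lit 0) (.cons (.rel (nat_lit 4299259908))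 (.cons (.rel (nat_lit 4299169860)) .nil))) .nil)) .leaf) (nat_lit 15869312757990001) (.br (nat_lit 3) (.cons (.br (nat_lit 4) (.cons (.rel (nat_lit 1342185600)) .nil)) .nil)) (.node .leaf (nat_lit 15869314221802752) (.br (nat_lit 1) (.cons (.br (nat_lit 5) (.cons (.br (nat_lit 2) (.cons (.rel (nat_lit 4362342402)) (.cons (.rel (nat_lit 83906640)) (.cons (.rel (nat_lit 8657047617)) .nil)))) (.cons (.rel (nat_lit 4311760914)) .nil))) .nil)) .leaf)) (nat_lit 15869314222769408) (.br (nat_lit 5) (.cons (.br (nat_lit 1) (.cons (.rel (nat_lit 4311879744)) (.cons (.rel (nat_lit 4311760914)) .nil))) .nil)) (.node (.node (.node .leaf (nat_lit 15870345941151133) (.br (nat_lit 0) (.cons (.br (nat_lit 1) (.cons (.rel (nat_lit 20992257)) .nil)) .nil)) .leaf) (nat_lit 15874855657522429) (.br (nat_lit 2) (.cons (.br (nat_lit 3) (.cons (.rel (nat_lit 335814912)) .nil)) .nil)) .leaf) (nat_lit 15874855657522589) (.br (nat_lit 1) (.cons (.br (nat_lit 3) (.cons (.rel (nat_lit 553648209)) (.cons (.rel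 (nat_lit 285233424)) .nil))) .nil)) (.node .leaf (nat_lit 15874855658792349) (.br (nat_lit 3) (.cons (.br (nat_lit 4) (.cons (.rel (nat_lit 1342185600)) .nil)) .nil)) .leaf)))))

/-- refutations 48 -/
def e48 : EX := (.node (.node (.node (.node (.node .leaf (nat_lit 15875127888111798) (.br (nat_lit 3) (.cons (.br (nat_lit 0) (.cons (.rel (nat_lit 273678468)) (.cons (.rel (nat_lit 273678468)) .nil))) .nil)) .leaf) (nat_lit 15875127888112992) (.br (nat_lit 1) (.cons (.br (nat_lit 2) (.cons (.rel (nat_lit 83911680)) .nil)) .nil)) (.node .leaf (nat_lit 15875127888822553) (.br (nat_lit 0) (.cons (.br (nat_lit 1) (.cons (.rel (nat_lit 22020117)) .nil)) .nil)) .leaf)) (nat_lit 15875127888823532) (.br (nat_lit 0) (.cons (.br (nat_lit 1) (.cons (.rel (nat_lit 25183233)) .nil)) .nil)) (.node (.node .leaf (nat_lit 15875129985265166) (.br (nat_lit 6) (.cons (.br (nat_lit 2) (.cons (.rel (nat_lit 17314156548)) (.cons (.rel (nat_lit 17247011328)) .nil))) .nil)) .leaf) (nat_lit 15875129986022926)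 (.br (nat_lit 1) (.cons (.br (nat_lit 3) (.cons (.rel (nat_lit 285344004)) .nil)) .nil)) (.node .leaf (nat_lit 15875130655896329) (.br (nat_lit 1) (.cons (.br (nat_lit 3) (.cons (.rel (nat_lit 285745152)) (.cons (.rel (nat_lit 553653249)) .nil))) .nil)) .leaf))) (nat_lit 15875130656352438) (.br (nat_lit 0) (.cons (.br (nat_lit 1) (.cons (.rel (nat_lit 22020117)) .nil)) .nil)) (.node (.node (.node .leaf (nat_lit 15875130656352512) (.br (nat_lit 0) (.cons (.br (nat_lit 3) (.cons (.rel (nat_lit 273711120)) .nil)) .nil)) .leaf) (nat_lit 15875130656353033) (.br (nat_lit 1) (.cons (.br (nat_lit 3) (.cons (.rel (nat_lit 570691584)) (.cons (.rel (nat_lit 570691584)) .nil))) .nil)) (.node .leaf (nat_lit 15875130656353157) (.br (nat_lit 1) (.cons (.br (nat_lit 6) (.cons (.rel (nat_lit 34393296897)) .nil)) .nil)) .leaf)) (nat_lit 15875130656353761) (.br (nat_lit 0) (.cons (.br (nat_lit 3) (.cons (.rel (nat_lit 273711120)) .nil)) .nil)) (.node (.node .leaf (nat_lit 15875130656353806) (.br (nat_lit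 1) (.cons (.br (nat_lit 6) (.cons (.rel (nat_lit 17196650568)) .nil)) .nil)) .leaf) (nat_lit 15875130657428866) (.br (nat_lit 1) (.cons (.br (nat_lit 2) (.cons (.rel (nat_lit 83888136)) .nil)) .nil)) .leaf))) (nat_lit 15875885521765632) (.br (nat_lit 1) (.cons (.br (nat_lit 5) (.cons (.rel (nat_lit 4311879744)) (.cons (.br (nat_lit 2) (.cons (.br (nat_lit 0) (.cons (.rel (nat_lit 4299161610)) (.cons (.br (nat_lit 6) (.cons (.rel (nat_lit 17184084096)) (.cons (.rel (nat_lit 17184084096)) (.cons (.rel (nat_lit 25769820162)) (.cons (.rel (nat_lit 17196654594)) (.cons (.rel (nat_lit 17184129030)) (.cons (.rel (nat_lit 34393296897)) .nil))))))) (.cons (.br (nat_lit 4) (.cons (.rel (nat_lit 1078022208)) (.cons (.rel (nat_lit 1078002690)) (.cons (.rel (nat_lit 1090539522)) (.cons (.rel (nat_lit 1090527249)) (.cons (.rel (nat_lit 1077969024)) .nil)))))) .nil)))) (.cons (.rel (nat_lit 8657077248)) .nil))) .nil))) .nil)) (.node (.node (.node (.node .leaf (nat_lit 15875885522020412) (.br (nat_lit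 3) (.cons (.br (nat_lit 5) (.cons (.rel (nat_lit 9126806544)) .nil)) .nil)) .leaf) (nat_lit 15876160378500357) (.br (nat_lit 1) (.cons (.br (nat_lit 3) (.cons (.rel (nat_lit 285344004)) .nil)) .nil)) (.node .leaf (nat_lit 15876160381199762) (.br (nat_lit 1) (.cons (.br (nat_lit 5) (.cons (.rel (nat_lit 4312011024)) .nil)) .nil)) .leaf)) (nat_lit 15876163975718170) (.br (nat_lit 0) (.cons (.br (nat_lit 3) (.cons (.rel (nat_lit 272646441)) .nil)) .nil)) (.node (.node .leaf (nat_lit 15878935326288497) (.br (nat_lit 1) (.cons (.br (nat_lit 3) (.cons (.rel (nat_lit 570691584)) .nil)) .nil)) .leaf) (nat_lit 15881093735836273) (.br (nat_lit 0) (.cons (.br (nat_lit 2) (.cons (.rel (nat_lit 71303301)) .nil)) .nil)) .leaf)) (nat_lit 15881093736098417) (.br (nat_lit 3) (.cons (.br (nat_lit 5) (.cons (.rel (nat_lit 4563472449)) .nil)) .nil)) (.node (.node (.node .leaf (nat_lit 15881093737164982) (.br (nat_lit 1) (.cons (.br (nat_lit 3) (.cons (.rel (nat_lit 285245697)) .nil)) .nil)) .leaf) (nat_lit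 15881304050627997) (.br (nat_lit 1) (.cons (.br (nat_lit 3) (.cons (.rel (nat_lit 286524672)) .nil)) .nil)) (.node .leaf (nat_lit 15881304051083446) (.br (nat_lit 1) (.cons (.br (nat_lit 2) (.cons (.rel (nat_lit 101187840)) .nil)) .nil)) .leaf)) (nat_lit 15881304051795180) (.br (nat_lit 0) (.cons (.br (nat_lit 5) (.cons (.rel (nat_lit 4303626240)) (.cons (.rel (nat_lit 8598323205)) .nil))) (.cons (.br (nat_lit 5) (.cons (.rel (nat_lit 4299165825)) (.cons (.rel (nat_lit 8598323205)) .nil))) .nil))) (.node (.node .leaf (nat_lit 15881304187342311) (.br (nat_lit 1) (.cons (.br (nat_lit 3) (.cons (.rel (nat_lit 285233424)) .nil)) .nil)) .leaf) (nat_lit 15881557505196919) (.br (nat_lit 3) (.cons (.br (nat_lit 4) (.cons (.rel (nat_lit 1342275648)) .nil)) .nil)) .leaf))))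

/-- refutations 49 -/
def e49 : EX := (.node (.node (.node (.node (.node (.node (.node .leaf (nat_lit 15569085698011318) (.br (nat_lit 2) (.cons (.br (nat_lit 5) (.cons (.rel (nat_lit 4362080784)) .nil)) .nil)) .leaf) (nat_lit 15569085853657840) (.br (nat_lit 0) (.cons (.br (nat_lit 1) (.cons (.rel (nat_lit 22020117)) .nil)) .nil)) .leaf) (nat_lit 15569085856263424) (.br (nat_lit 0) (.cons (.br (nat_lit 3) (.cons (.rel (nat_lit 541138968)) .nil)) .nil)) (.node .leaf (nat_lit 15569087795292785) (.br (nat_lit 3) (.cons (.br (nat_lit 4) (.cons (.rel (nat_lit 1342185600)) .nil)) .nil)) .leaf)) (nat_lit 15569087795293420) (.br (nat_lit 2) (.cons (.br (nat_lit 4) (.cons (.rel (nat_lit 2214592593)) .nil)) .nil)) (.node (.node (.node .leaf (nat_lit 15569087795358321) (.br (nat_lit 2) (.cons (.br (nat_lit 3) (.cons (.rel (nat_lit 335564802)) .nil)) .nil)) .leaf) (nat_lit 15569087795620465) (.br (nat_lit 1) (.cons (.br (nat_lit 6) (.cons (.rel (nat_lit 17196650568)) .nil)) .nil)) .leaf) (nat_lit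 15569087796890225) (.br (nat_lit 3) (.cons (.br (nat_lit 6) (.cons (.rel (nat_lit 34896678912)) .nil)) .nil)) (.node .leaf (nat_lit 15569087797863950) (.br (nat_lit 1) (.cons (.br (nat_lit 3) (.cons (.rel (nat_lit 285282585)) .nil)) .nil)) .leaf))) (nat_lit 15569087798159985) (.br (nat_lit 3) (.cons (.br (nat_lit 6) (.cons (.rel (nat_lit 17448305745)) .nil)) .nil)) (.node (.node (.node (.node .leaf (nat_lit 15569087798226446) (.br (nat_lit 4) (.cons (.br (nat_lit 1) (.cons (.rel (nat_lit 1090603008)) (.cons (.rel (nat_lit 1090524228)) .nil))) .nil)) .leaf) (nat_lit 15569091171579116) (.br (nat_lit 5) (.cons (.br (nat_lit 2) (.cons (.rel (nat_lit 4429189128)) (.cons (.rel (nat_lit 4362354720)) .nil))) .nil)) .leaf) (nat_lit 15569091172034590) (.br (nat_lit 6) (.cons (.br (nat_lit 3) (.cons (.rel (nat_lit 17717002242)) (.cons (.rel (nat_lit 17448305745)) (.cons (.rel (nat_lit 34629287952)) .nil)))) .nil)) (.node .leaf (nat_lit 15569091172035312) (.br (nat_lit 2) (.cons (.br (nat_lit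 5) (.cons (.rel (nat_lit 4362093057)) (.cons (.rel (nat_lit 4362405888)) .nil))) .nil)) .leaf)) (nat_lit 15569091172035461) (.br (nat_lit 2) (.cons (.br (nat_lit 6) (.cons (.rel (nat_lit 17249141760)) .nil)) .nil)) (.node (.node (.node .leaf (nat_lit 15569091172036121) (.br (nat_lit 3) (.cons (.br (nat_lit 6) (.cons (.rel (nat_lit 17448305745)) .nil)) .nil)) .leaf) (nat_lit 15569091173110520) (.br (nat_lit 0) (.cons (.br (nat_lit 3) (.cons (.rel (nat_lit 276825096)) .nil)) .nil)) .leaf) (nat_lit 15569566344419388) (.br (nat_lit 0) (.cons (.br (nat_lit 2) (.cons (.rel (nat_lit 71311362)) .nil)) .nil)) (.node .leaf (nat_lit 15569566344735001) (.br (nat_lit 4) (.cons (.br (nat_lit 0) (.cons (.rel (nat_lit 1078002690)) (.cons (.rel (nat_lit 2155888704)) .nil))) .nil)) .leaf)))) (nat_lit 15570245595013401) (.br (nat_lit 5) (.cons (.br (nat_lit 6) (.cons (.rel (nat_lit 21475098648)) .nil)) .nil)) (.node (.node (.node (.node (.node .leaf (nat_lit 15570245595014421) (.br (nat_lit 2) (.cons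 (.br (nat_lit 5) (.cons (.rel (nat_lit 4363194624)) .nil)) .nil)) .leaf) (nat_lit 15570245595019396) (.br (nat_lit 2) (.cons (.br (nat_lit 6) (.cons (.rel (nat_lit 17248550916)) .nil)) .nil)) .leaf) (nat_lit 15570245595033732) (.br (nat_lit 4) (.cons (.br (nat_lit 3) (.cons (.rel (nat_lit 1342185600)) (.cons (.rel (nat_lit 1342185600)) .nil))) .nil)) (.node .leaf (nat_lit 15570245595034225) (.br (nat_lit 1) (.cons (.br (nat_lit 0) (.cons (.rel (nat_lit 22020117)) (.cons (.rel (nat_lit 22021122)) .nil))) .nil)) .leaf)) (nat_lit 15570245595035026) (.br (nat_lit 1) (.cons (.br (nat_lit 2) (.cons (.rel (nat_lit 83886117)) .nil)) .nil)) (.node (.node (.node .leaf (nat_lit 15570245595164804) (.br (nat_lit 2) (.cons (.br (nat_lit 3) (.cons (.rel (nat_lit 335814912)) .nil)) .nil)) .leaf) (nat_lit 15570245595174972) (.br (nat_lit 5) (.cons (.br (nat_lit 0) (.cons (.rel (nat_lit 4299259908)) (.cons (.rel (nat_lit 4299426048)) .nil))) .nil)) .leaf) (nat_lit 15570245595175193) (.br (nat_lit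 0) (.cons (.br (nat_lit 2) (.cons (.rel (nat_lit 71321664)) (.cons (.rel (nat_lit 71311362)) .nil))) .nil)) (.node .leaf (nat_lit 15570245595234929) (.br (nat_lit 2) (.cons (.br (nat_lit 5) (.cons (.rel (nat_lit 8657051652)) (.cons (.rel (nat_lit 8657051652)) (.cons (.rel (nat_lit 4364174340)) .nil)))) .nil)) .leaf))) (nat_lit 15570245595474197) (.br (nat_lit 6) (.cons (.br (nat_lit 3) (.cons (.rel (nat_lit 34628174112)) (.cons (.rel (nat_lit 17716740624)) .nil))) .nil)) (.node (.node (.node (.node .leaf (nat_lit 15570245595482393) (.br (nat_lit 2) (.cons (.br (nat_lit 3) (.cons (.rel (nat_lit 335545473)) (.cons (.rel (nat_lit 335554596)) (.cons (.rel (nat_lit 335552529)) .nil)))) .nil)) .leaf) (nat_lit 15570245595482397) (.br (nat_lit 2) (.cons (.br (nat_lit 3) (.cons (.rel (nat_lit 335545473)) (.cons (.rel (nat_lit 335549508)) .nil))) .nil)) .leaf) (nat_lit 15570245595482893) (.br (nat_lit 0) (.cons (.br (nat_lit 2) (.cons (.rel (nat_lit 72614928)) .nil)) .nil)) (.node .leaf (nat_lit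 15570245595490364) (.br (nat_lit 3) (.cons (.br (nat_lit 5) (.cons (.rel (nat_lit 9126806544)) .nil)) .nil)) .leaf)) (nat_lit 15570245595490581) (.br (nat_lit 2) (.cons (.br (nat_lit 3) (.cons (.rel (nat_lit 402653568)) .nil)) .nil)) (.node (.node (.node .leaf (nat_lit 15570245595490585) (.br (nat_lit 3) (.cons (.br (nat_lit 6) (.cons (.rel (nat_lit 34628174112)) (.cons (.rel (nat_lit 17448304740)) .nil))) (.cons (.br (nat_lit 6) (.cons (.rel (nat_lit 17448337536)) (.cons (.rel (nat_lit 17448305745)) .nil))) .nil))) .leaf) (nat_lit 15570245595490965) (.br (nat_lit 3) (.cons (.br (nat_lit 4) (.cons (.rel (nat_lit 1342185600)) (.cons (.rel (nat_lit 1342185600)) (.cons (.rel (nat_lit 1342177350)) .nil)))) .nil)) .leaf) (nat_lit 15570245596201092) (.br (nat_lit 3) (.cons (.br (nat_lit 5) (.cons (.rel (nat_lit 4563402777)) (.cons (.rel (nat_lit 4563403782)) .nil))) .nil)) (.node .leaf (nat_lit 15570245596201245) (.br (nat_lit 0) (.cons (.br (nat_lit 3) (.cons (.rel (nat_lit 273155136))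 .nil)) .nil)) .leaf))))) (nat_lit 15570245596201741) (.br (nat_lit 3) (.cons (.br (nat_lit 5) (.cons (.rel (nat_lit 4564468224)) .nil)) .nil)) (.node (.node (.node (.node (.node (.node .leaf (nat_lit 15570245596202270) (.br (nat_lit 4) (.cons (.br (nat_lit 6) (.cons (.rel (nat_lit 18253873221)) .nil)) .nil)) .leaf) (nat_lit 15570245596514581) (.br (nat_lit 0) (.cons (.br (nat_lit 2) (.cons (.rel (nat_lit 71311362)) .nil)) .nil)) .leaf) (nat_lit 15570245597734269) (.br (nat_lit 2) (.cons (.br (nat_lit 3) (.cons (.rel (nat_lit 335814912)) (.cons (.rel (nat_lit 335545473)) .nil))) .nil)) (.node .leaf (nat_lit 15570245598029954) (.br (nat_lit 0) (.cons (.br (nat_lit 3) (.cons (.rel (nat_lit 273155136)) .nil)) .nil)) .leaf)) (nat_lit 15570245598030101) (.br (nat_lit 0) (.cons (.br (nat_lit 3) (.cons (.rel (nat_lit 276825096)) .nil)) .nil)) (.node (.node (.node .leaf (nat_lit 15570245598030725) (.br (nat_lit 4) (.cons (.br (nat_lit 6) (.cons (.rel (nat_lit 18253873221)) .nil)) .nil)) .leaf)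 (nat_lit 15570245598031105) (.br (nat_lit 3) (.cons (.br (nat_lit 6) (.cons (.rel (nat_lit 17448304740)) .nil)) .nil)) .leaf) (nat_lit 15570245598096240) (.br (nat_lit 3) (.cons (.br (nat_lit 2) (.cons (.rel (nat_lit 335544468)) (.cons (.rel (nat_lit 335628288)) .nil))) .nil)) (.node .leaf (nat_lit 15570245598096612) (.br (nat_lit 3) (.cons (.br (nat_lit 4) (.cons (.rel (nat_lit 1342177350)) (.cons (.rel (nat_lit 1342185600)) .nil))) .nil)) .leaf))) (nat_lit 15570245598101785) (.br (nat_lit 0) (.cons (.br (nat_lit 3) (.cons (.rel (nat_lit 272701824)) .nil)) .nil)) (.node (.node (.node (.node .leaf (nat_lit 15570247061908736) (.br (nat_lit 0) (.cons (.br (nat_lit 1) (.cons (.rel (nat_lit 20979984)) (.cons (.rel (nat_lit 22040640)) .nil))) .nil)) .leaf) (nat_lit 15570250813188856) (.br (nat_lit 3) (.cons (.br (nat_lit 5) (.cons (.rel (nat_lit 9126806544)) .nil)) .nil)) .leaf) (nat_lit 15570250814178586) (.br (nat_lit 1) (.cons (.br (nat_lit 2) (.cons (.rel (nat_lit 83887122)) .nil))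 .nil)) (.node .leaf (nat_lit 15570250814280440) (.br (nat_lit 2) (.cons (.br (nat_lit 5) (.cons (.rel (nat_lit 4362405888)) .nil)) .nil)) .leaf)) (nat_lit 15571707725671025) (.br (nat_lit 1) (.cons (.br (nat_lit 2) (.cons (.rel (nat_lit 83911680)) .nil)) .nil)) (.node (.node (.node .leaf (nat_lit 15571707725671950) (.br (nat_lit 1) (.cons (.br (nat_lit 4) (.cons (.rel (nat_lit 1090520193)) .nil)) .nil)) .leaf) (nat_lit 15571707726643825) (.br (nat_lit 3) (.cons (.br (nat_lit 4) (.cons (.rel (nat_lit 1342177350)) .nil)) .nil)) .leaf) (nat_lit 15571707728210545) (.br (nat_lit 3) (.cons (.br (nat_lit 4) (.cons (.rel (nat_lit 1342183440)) .nil)) .nil)) (.node .leaf (nat_lit 15574542659481732) (.br (nat_lit 3) (.cons (.br (nat_lit 0) (.cons (.rel (nat_lit 276824082)) (.cons (.rel (nat_lit 272630085)) .nil))) .nil)) .leaf)))) (nat_lit 15574542659677437) (.br (nat_lit 0) (.cons (.br (nat_lit 3) (.cons (.rel (nat_lit 276824082)) .nil)) .nil)) (.node (.node (.node (.node (.node .leaf (nat_lit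 15574542659938461) (.br (nat_lit 0) (.cons (.br (nat_lit 3) (.cons (.rel (nat_lit 276825096)) .nil)) .nil)) .leaf) (nat_lit 15574542660947197) (.br (nat_lit 3) (.cons (.br (nat_lit 4) (.cons (.rel (nat_lit 1342185600)) (.cons (.rel (nat_lit 1342185600)) .nil))) .nil)) .leaf) (nat_lit 15574542662543542) (.br (nat_lit 0) (.cons (.br (nat_lit 2) (.cons (.rel (nat_lit 75763716)) .nil)) .nil)) (.node .leaf (nat_lit 15574544740306173) (.br (nat_lit 1) (.cons (.br (nat_lit 3) (.cons (.rel (nat_lit 302071812)) .nil)) .nil)) .leaf)) (nat_lit 15574544740314373) (.br (nat_lit 1) (.cons (.br (nat_lit 2) (.cons (.rel (nat_lit 152109057)) .nil)) .nil)) (.node (.node (.node .leaf (nat_lit 15574544741321485) (.br (nat_lit 2) (.cons (.br (nat_lit 3) (.cons (.rel (nat_lit 335560776)) .nil)) .nil)) .leaf) (nat_lit 15574544741321981) (.br (nat_lit 1) (.cons (.br (nat_lit 2) (.cons (.rel (nat_lit 83888136)) .nil)) .nil)) .leaf) (nat_lit 15575622894289521) (.br (nat_lit 1) (.cons (.br (nat_lit 2) (.cons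 (.rel (nat_lit 83922948)) .nil)) .nil)) (.node .leaf (nat_lit 15576818216659254) (.br (nat_lit 1) (.cons (.br (nat_lit 3) (.cons (.rel (nat_lit 302060544)) .nil)) .nil)) .leaf))) (nat_lit 15576818218902129) (.br (nat_lit 2) (.cons (.br (nat_lit 3) (.cons (.rel (nat_lit 335545473)) .nil)) .nil)) (.node (.node (.node (.node .leaf (nat_lit 15577096992285432) (.br (nat_lit 0) (.cons (.br (nat_lit 2) (.cons (.rel (nat_lit 71303301)) .nil)) .nil)) .leaf) (nat_lit 15579871019854105) (.br (nat_lit 3) (.cons (.br (nat_lit 6) (.cons (.rel (nat_lit 17448337536)) (.cons (.rel (nat_lit 17717854464)) .nil))) .nil)) .leaf) (nat_lit 15579871021125120) (.br (nat_lit 3) (.cons (.br (nat_lit 4) (.cons (.rel (nat_lit 2684358720)) .nil)) .nil)) (.node .leaf (nat_lit 15579871022393625) (.br (nat_lit 0) (.cons (.br (nat_lit 3) (.cons (.rel (nat_lit 276825096)) .nil)) .nil)) .leaf)) (nat_lit 15579871022396292) (.br (nat_lit 0) (.cons (.br (nat_lit 2) (.cons (.br (nat_lit 3) (.cons (.rel (nat_lit 402653568))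 .nil)) .nil)) .nil)) (.node (.node (.node .leaf (nat_lit 15581328662129917) (.br (nat_lit 1) (.cons (.br (nat_lit 2) (.cons (.rel (nat_lit 83888136)) .nil)) .nil)) .leaf) (nat_lit 15582486253342852) (.br (nat_lit 3) (.cons (.br (nat_lit 6) (.cons (.rel (nat_lit 17448310785)) .nil)) .nil)) .leaf) (nat_lit 15582486254527869) (.br (nat_lit 1) (.cons (.br (nat_lit 2) (.cons (.rel (nat_lit 83888136)) .nil)) .nil)) (.node .leaf (nat_lit 15582487716097385) (.br (nat_lit 0) (.cons (.br (nat_lit 1) (.cons (.rel (nat_lit 20979984)) .nil)) .nil)) .leaf))))))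

/-- refutations 50 -/
def e50 : EX := (.node (.node (.node (.node .leaf (nat_lit 15941141565870266) (.br (nat_lit 0) (.cons (.br (nat_lit 3) (.cons (.rel (nat_lit 272634120)) .nil)) .nil)) .leaf) (nat_lit 15946252575894129) (.br (nat_lit 6) (.cons (.br (nat_lit 3) (.cons (.rel (nat_lit 17448337536)) (.cons (.rel (nat_lit 17448443904)) .nil))) .nil)) .leaf) (nat_lit 16044073785881201) (.br (nat_lit 1) (.cons (.br (nat_lit 5) (.cons (.rel (nat_lit 4311748641)) .nil)) .nil)) (.node (.node .leaf (nat_lit 16044074831430892) (.br (nat_lit 0) (.cons (.br (nat_lit 1) (.cons (.rel (nat_lit 22093824)) .nil)) .nil)) .leaf) (nat_lit 16044074977194789) (.br (nat_lit 0) (.cons (.br (nat_lit 2) (.cons (.rel (nat_lit 71323680)) .nil)) .nil)) .leaf)) (nat_lit 16044076554122476) (.br (nat_lit 2) (.cons (.br (nat_lit 5) (.cons (.rel (nat_lit 4362354720)) .nil)) .nil)) (.node (.node (.node .leaf (nat_lit 16044076554577950) (.br (nat_lit 1) (.cons (.br (nat_lit 5) (.cons (.rel (nat_lit 4311745620))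 .nil)) .nil)) .leaf) (nat_lit 16044076554577957) (.br (nat_lit 1) (.cons (.br (nat_lit 2) (.cons (.rel (nat_lit 83888136)) .nil)) .nil)) .leaf) (nat_lit 16044076554578821) (.br (nat_lit 0) (.cons (.br (nat_lit 5) (.cons (.rel (nat_lit 4300214784)) .nil)) .nil)) (.node .leaf (nat_lit 16051048813936670) (.br (nat_lit 1) (.cons (.br (nat_lit 2) (.cons (.rel (nat_lit 83918913)) .nil)) .nil)) .leaf)))

/-- refutations 51 -/
def e51 : EX := (.node (.node (.node (.node .leaf (nat_lit 16272772112640785) (.br (nat_lit 1) (.cons (.br (nat_lit 2) (.cons (.rel (nat_lit 83888136)) .nil)) .nil)) .leaf) (nat_lit 16272772114884070) (.br (nat_lit 5) (.cons (.br (nat_lit 6) (.cons (.rel (nat_lit 25769804868)) .nil)) .nil)) (.node .leaf (nat_lit 16272775262562605) (.br (nat_lit 1) (.cons (.br (nat_lit 2) (.cons (.rel (nat_lit 83918913)) .nil)) .nil)) .leaf)) (nat_lit 16272775262563185) (.br (nat_lit 0) (.cons (.br (nat_lit 1) (.cons (.rel (nat_lit 22021122)) .nil)) .nil)) (.node (.node .leaf (nat_lit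 16285709271353374) (.br (nat_lit 2) (.cons (.br (nat_lit 3) (.cons (.rel (nat_lit 335628288)) .nil)) .nil)) .leaf) (nat_lit 16285709271361566) (.br (nat_lit 1) (.cons (.br (nat_lit 3) (.cons (.rel (nat_lit 302026881)) (.cons (.rel (nat_lit 286347264)) .nil))) .nil)) .leaf)) (nat_lit 16285709271363072) (.br (nat_lit 1) (.cons (.br (nat_lit 2) (.cons (.rel (nat_lit 83922948)) .nil)) .nil)) (.node (.node (.node .leaf (nat_lit 16285709272429169) (.br (nat_lit 3) (.cons (.br (nat_lit 6) (.cons (.rel (nat_lit 17448304740)) .nil)) .nil)) .leaf) (nat_lit 16285711704059392) (.br (nat_lit 2) (.cons (.br (nat_lit 3) (.cons (.rel (nat_lit 335552529)) .nil)) .nil)) .leaf) (nat_lit 16308389362067737) (.br (nat_lit 2) (.cons (.br (nat_lit 3) (.cons (.rel (nat_lit 335560776)) .nil)) .nil)) (.node (.node .leaf (nat_lit 16308389362779549) (.br (nat_lit 2) (.cons (.br (nat_lit 3) (.cons (.rel (nat_lit 671105040)) .nil)) .nil)) .leaf) (nat_lit 16308389364049309) (.br (nat_lit 0) (.cons (.br (nat_lit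 3) (.cons (.rel (nat_lit 272630085)) .nil)) .nil)) .leaf)))

/-- refutations 52 -/
def e52 : EX := (.node (.node (.node (.node .leaf (nat_lit 16378326256034417) (.br (nat_lit 2) (.cons (.br (nat_lit 4) (.cons (.rel (nat_lit 1141145601)) .nil)) .nil)) .leaf) (nat_lit 16378331549723926) (.br (nat_lit 1) (.cons (.br (nat_lit 2) (.cons (.rel (nat_lit 167773188)) .nil)) .nil)) (.node .leaf (nat_lit 16379486153076868) (.br (nat_lit 1) (.cons (.br (nat_lit 3) (.cons (.rel (nat_lit 285233424)) .nil)) .nil)) .leaf)) (nat_lit 16379486153078162) (.br (nat_lit 1) (.cons (.br (nat_lit 3) (.cons (.rel (nat_lit 285233424)) .nil)) .nil)) (.node (.node .leaf (nat_lit 16379486153218108) (.br (nat_lit 0) (.cons (.br (nat_lit 1) (.cons (.rel (nat_lit 20992257)) .nil)) .nil)) .leaf) (nat_lit 16379486155777426) (.br (nat_lit 1) (.cons (.br (nat_lit 3) (.cons (.rel (nat_lit 285245697)) .nil)) .nil)) (.node .leaf (nat_lit 16383783220587773) (.br (nat_lit 0) (.cons (.br (nat_lit 1) (.cons (.rel (nat_lit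 42221568)) .nil)) .nil)) .leaf))) (nat_lit 16386331285071375) (.br (nat_lit 0) (.cons (.br (nat_lit 1) (.cons (.rel (nat_lit 22021122)) .nil)) .nil)) (.node (.node (.node .leaf (nat_lit 16386332333647250) (.br (nat_lit 0) (.cons (.br (nat_lit 6) (.cons (.rel (nat_lit 34368208896)) .nil)) .nil)) .leaf) (nat_lit 16395918148937754) (.br (nat_lit 2) (.cons (.br (nat_lit 3) (.cons (.rel (nat_lit 335814912)) .nil)) .nil)) (.node .leaf (nat_lit 16395920694426535) (.br (nat_lit 0) (.cons (.br (nat_lit 1) (.cons (.rel (nat_lit 25165920)) (.cons (.rel (nat_lit 20972928)) .nil))) .nil)) .leaf)) (nat_lit 16397481327722801) (.br (nat_lit 0) (.cons (.br (nat_lit 6) (.cons (.rel (nat_lit 17184137280)) .nil)) .nil)) (.node (.node .leaf (nat_lit 16403966917411718) (.br (nat_lit 0) (.cons (.br (nat_lit 1) (.cons (.rel (nat_lit 20972928)) .nil)) .nil)) .leaf) (nat_lit 16403966917412252) (.br (nat_lit 1) (.cons (.br (nat_lit 4) (.cons (.rel (nat_lit 1090520193)) .nil)) .nil)) (.node .leaf (nat_lit 16408888933404149)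 (.br (nat_lit 1) (.cons (.br (nat_lit 3) (.cons (.rel (nat_lit 285745152)) .nil)) .nil)) .leaf))))

/-- refutations 53 -/
def e53 : EX := (.node (.node (.node (.node (.node .leaf (nat_lit 16466287341466352) (.br (nat_lit 0) (.cons (.br (nat_lit 6) (.cons (.rel (nat_lit 34368208896)) .nil)) .nil)) .leaf) (nat_lit 16466287341466535) (.br (nat_lit 0) (.cons (.br (nat_lit 2) (.cons (.rel (nat_lit 71374848)) .nil)) .nil)) .leaf) (nat_lit 16466287341923205) (.br (nat_lit 1) (.cons (.br (nat_lit 0) (.cons (.rel (nat_lit 22021122)) (.cons (.rel (nat_lit 20972928)) .nil))) .nil)) (.node .leaf (nat_lit 16466287344464528) (.br (nat_lit 2) (.cons (.br (nat_lit 4) (.cons (.rel (nat_lit 1141145601)) .nil)) .nil)) .leaf)) (nat_lit 16466287421158258) (.br (nat_lit 0) (.cons (.br (nat_lit 1) (.cons (.rel (nat_lit 20979984)) .nil)) .nil)) (.node (.node .leaf (nat_lit 16466287421614342) (.br (nat_lit 0) (.cons (.br (nat_lit 1) (.cons (.rel (nat_lit 21037380)) .nil)) .nil)) .leaf) (nat_lit 16466289388266997)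 (.br (nat_lit 5) (.cons (.br (nat_lit 1) (.cons (.rel (nat_lit 8623509504)) (.cons (.rel (nat_lit 4311760914)) (.cons (.rel (nat_lit 4311750660)) .nil)))) .nil)) (.node .leaf (nat_lit 16466289388727797) (.br (nat_lit 0) (.cons (.br (nat_lit 2) (.cons (.rel (nat_lit 75759681)) .nil)) .nil)) .leaf))) (nat_lit 16466289388734490) (.br (nat_lit 2) (.cons (.br (nat_lit 4) (.cons (.rel (nat_lit 1208030208)) .nil)) .nil)) (.node (.node (.node .leaf (nat_lit 16466291620823665) (.br (nat_lit 3) (.cons (.br (nat_lit 4) (.cons (.rel (nat_lit 1342183440)) .nil)) .nil)) .leaf) (nat_lit 16466292661011184) (.br (nat_lit 2) (.cons (.br (nat_lit 6) (.cons (.rel (nat_lit 17247241344)) .nil)) .nil)) (.node .leaf (nat_lit 16466292661626093) (.br (nat_lit 0) (.cons (.br (nat_lit 1) (.cons (.rel (nat_lit 22021122)) .nil)) .nil)) .leaf)) (nat_lit 16466768378260338) (.br (nat_lit 0) (.cons (.br (nat_lit 1) (.cons (.rel (nat_lit 20992257)) .nil)) .nil)) (.node (.node .leaf (nat_lit 16473267687899166) (.br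 (nat_lit 2) (.cons (.br (nat_lit 5) (.cons (.rel (nat_lit 8657051652)) .nil)) .nil)) .leaf) (nat_lit 16474338157455386) (.br (nat_lit 1) (.cons (.br (nat_lit 2) (.cons (.rel (nat_lit 152043600)) .nil)) .nil)) (.node .leaf (nat_lit 16478366836780533) (.br (nat_lit 1) (.cons (.br (nat_lit 3) (.cons (.rel (nat_lit 570691584)) .nil)) .nil)) .leaf))))

/-- refutations 54 -/
def e54 : EX := (.node (.node (.node (.node .leaf (nat_lit 22095788532414651) (.br (nat_lit 1) (.cons (.br (nat_lit 2) (.cons (.rel (nat_lit 83918913)) .nil)) .nil)) .leaf) (nat_lit 22095788532885530) (.br (nat_lit 2) (.cons (.br (nat_lit 3) (.cons (.rel (nat_lit 335552529)) (.cons (.rel (nat_lit 335549508)) (.cons (.rel (nat_lit 671105040)) .nil)))) (.cons (.br (nat_lit 5) (.cons (.rel (nat_lit 4429185093)) (.cons (.rel (nat_lit 4362405888)) (.cons (.rel (nat_lit 4364174340)) .nil)))) (.cons (.br (nat_lit 3) (.cons (.rel (nat_lit 335577120)) (.cons (.rel (nat_lit 335545473)) (.cons (.rel (nat_lit 335577120)) .nil))))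 .nil)))) .leaf) (nat_lit 22095788532887054) (.br (nat_lit 1) (.cons (.br (nat_lit 2) (.cons (.rel (nat_lit 83887122)) (.cons (.rel (nat_lit 83888136)) .nil))) (.cons (.br (nat_lit 2) (.cons (.rel (nat_lit 83888136)) (.cons (.rel (nat_lit 83888136)) .nil))) .nil))) (.node (.node .leaf (nat_lit 22095788533597045) (.br (nat_lit 1) (.cons (.br (nat_lit 2) (.cons (.rel (nat_lit 84017220)) .nil)) .nil)) .leaf) (nat_lit 22095788533597421) (.br (nat_lit 2) (.cons (.br (nat_lit 0) (.cons (.rel (nat_lit 142610433)) (.cons (.rel (nat_lit 75563520)) .nil))) .nil)) .leaf)) (nat_lit 22095788535123181) (.br (nat_lit 1) (.cons (.br (nat_lit 2) (.cons (.rel (nat_lit 83906640)) .nil)) .nil)) (.node (.node (.node .leaf (nat_lit 22095788535129325) (.br (nat_lit 2) (.cons (.br (nat_lit 3) (.cons (.rel (nat_lit 335552529)) .nil)) .nil)) .leaf) (nat_lit 22102761437457285) (.br (nat_lit 1) (.cons (.br (nat_lit 2) (.cons (.rel (nat_lit 167773188)) .nil)) .nil)) .leaf) (nat_lit 22102761438168300) (.br (nat_lit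 1) (.cons (.br (nat_lit 2) (.cons (.rel (nat_lit 101187840)) .nil)) .nil)) (.node .leaf (nat_lit 22107700650557692) (.br (nat_lit 0) (.cons (.br (nat_lit 2) (.cons (.rel (nat_lit 142610433)) .nil)) .nil)) .leaf)))

/-- refutations 55 -/
def e55 : EX := (.node (.node (.node (.node (.node (.node .leaf (nat_lit 22183746623301692) (.br (nat_lit 1) (.cons (.br (nat_lit 2) (.cons (.rel (nat_lit 83887122)) .nil)) .nil)) .leaf) (nat_lit 22183746623564413) (.br (nat_lit 2) (.cons (.br (nat_lit 5) (.cons (.br (nat_lit 1) (.cons (.rel (nat_lit 83888136)) (.cons (.rel (nat_lit 8623509504)) (.cons (.rel (nat_lit 4311785472)) .nil)))) (.cons (.rel (nat_lit 4362342402)) .nil))) .nil)) .leaf) (nat_lit 22183746623564581) (.br (nat_lit 5) (.cons (.br (nat_lit 2) (.cons (.rel (nat_lit 4362354720)) (.cons (.rel (nat_lit 4362093057)) .nil))) .nil)) (.node (.node .leaf (nat_lit 22183746623564677) (.br (nat_lit 5) (.cons (.br (nat_lit 2) (.cons (.rel (nat_lit 4362080784)) (.cons (.rel (nat_lit 8657051652))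 .nil))) .nil)) .leaf) (nat_lit 22183746624275057) (.br (nat_lit 1) (.cons (.br (nat_lit 0) (.cons (.rel (nat_lit 22282500)) (.cons (.br (nat_lit 4) (.cons (.rel (nat_lit 1077936228)) (.cons (.rel (nat_lit 2165440512)) .nil))) .nil))) .nil)) .leaf)) (nat_lit 22183746624275069) (.br (nat_lit 5) (.cons (.br (nat_lit 6) (.cons (.rel (nat_lit 25769807889)) .nil)) .nil)) (.node (.node (.node .leaf (nat_lit 22183746626169457) (.br (nat_lit 2) (.cons (.br (nat_lit 5) (.cons (.rel (nat_lit 4362342402)) .nil)) .nil)) .leaf) (nat_lit 22183749483622582) (.br (nat_lit 0) (.cons (.br (nat_lit 6) (.cons (.rel (nat_lit 17184063573)) .nil)) .nil)) .leaf) (nat_lit 22183749483623025) (.br (nat_lit 6) (.cons (.br (nat_lit 1) (.cons (.rel (nat_lit 17196650568)) (.cons (.rel (nat_lit 17196664896)) .nil))) .nil)) (.node .leaf (nat_lit 22183749483623061) (.br (nat_lit 0) (.cons (.br (nat_lit 1) (.cons (.rel (nat_lit 22093824)) .nil)) .nil)) .leaf))) (nat_lit 22183749483623660) (.br (nat_lit 3) (.cons (.br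 (nat_lit 6) (.cons (.rel (nat_lit 17448337536)) .nil)) .nil)) (.node (.node (.node (.node .leaf (nat_lit 22183749484079141) (.br (nat_lit 1) (.cons (.br (nat_lit 2) (.cons (.rel (nat_lit 101187840)) (.cons (.rel (nat_lit 83888136)) .nil))) .nil)) .leaf) (nat_lit 22183749484080005) (.br (nat_lit 0) (.cons (.br (nat_lit 1) (.cons (.rel (nat_lit 22021122)) (.cons (.rel (nat_lit 20972928)) .nil))) (.cons (.br (nat_lit 3) (.cons (.rel (nat_lit 272648448)) (.cons (.rel (nat_lit 272696592)) .nil))) .nil))) .leaf) (nat_lit 22183749484789942) (.br (nat_lit 5) (.cons (.br (nat_lit 6) (.cons (.rel (nat_lit 21475099653)) .nil)) .nil)) (.node (.node .leaf (nat_lit 22183749485086757) (.br (nat_lit 1) (.cons (.br (nat_lit 4) (.cons (.rel (nat_lit 2165440512)) .nil)) .nil)) .leaf) (nat_lit 22183749485146737) (.br (nat_lit 1) (.cons (.br (nat_lit 2) (.cons (.rel (nat_lit 83888136)) .nil)) .nil)) .leaf)) (nat_lit 22183749486119813) (.br (nat_lit 0) (.cons (.br (nat_lit 3) (.cons (.rel (nat_lit 272696592))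 (.cons (.rel (nat_lit 545530896)) .nil))) .nil)) (.node (.node (.node .leaf (nat_lit 22183749486684785) (.br (nat_lit 0) (.cons (.br (nat_lit 3) (.cons (.rel (nat_lit 272634120)) .nil)) .nil)) .leaf) (nat_lit 22183751874377191) (.br (nat_lit 1) (.cons (.br (nat_lit 2) (.cons (.rel (nat_lit 83888136)) .nil)) .nil)) .leaf) (nat_lit 22183751874833285) (.br (nat_lit 1) (.cons (.br (nat_lit 3) (.cons (.rel (nat_lit 285233424)) .nil)) .nil)) (.node .leaf (nat_lit 22183751875543296) (.br (nat_lit 0) (.cons (.br (nat_lit 2) (.cons (.rel (nat_lit 75763716)) .nil)) .nil)) .leaf)))) (nat_lit 22183751875543792) (.br (nat_lit 0) (.cons (.br (nat_lit 1) (.cons (.rel (nat_lit 42221568)) .nil)) .nil)) (.node (.node (.node (.node (.node .leaf (nat_lit 22183751875544300) (.br (nat_lit 1) (.cons (.br (nat_lit 6) (.cons (.rel (nat_lit 34393296897)) (.cons (.rel (nat_lit 17196650568)) .nil))) (.cons (.br (nat_lit 4) (.cons (.rel (nat_lit 1090588680)) (.cons (.rel (nat_lit 1090527249)) .nil))) .nil)))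 .leaf) (nat_lit 22185939916943492) (.br (nat_lit 2) (.cons (.br (nat_lit 3) (.cons (.rel (nat_lit 335564802)) .nil)) .nil)) .leaf) (nat_lit 22185939916943985) (.br (nat_lit 1) (.cons (.br (nat_lit 3) (.cons (.rel (nat_lit 285233424)) .nil)) .nil)) (.node (.node .leaf (nat_lit 22185939918424689) (.br (nat_lit 0) (.cons (.br (nat_lit 1) (.cons (.rel (nat_lit 21528576)) .nil)) .nil)) .leaf) (nat_lit 22190724510511286) (.br (nat_lit 0) (.cons (.br (nat_lit 2) (.cons (.rel (nat_lit 71303301)) .nil)) .nil)) .leaf)) (nat_lit 22190724510512364) (.br (nat_lit 0) (.cons (.br (nat_lit 3) (.cons (.rel (nat_lit 273686529)) .nil)) .nil)) (.node (.node (.node .leaf (nat_lit 22190724510967868) (.br (nat_lit 0) (.cons (.br (nat_lit 1) (.cons (.rel (nat_lit 42221568)) .nil)) .nil)) .leaf) (nat_lit 22190724510968709) (.br (nat_lit 1) (.cons (.br (nat_lit 2) (.cons (.rel (nat_lit 101187840)) .nil)) .nil)) .leaf) (nat_lit 22190724511678745) (.br (nat_lit 1) (.cons (.br (nat_lit 2) (.cons (.rel (nat_lit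 83888136)) .nil)) .nil)) (.node .leaf (nat_lit 22190724513574414) (.br (nat_lit 0) (.cons (.br (nat_lit 1) (.cons (.rel (nat_lit 21528576)) .nil)) .nil)) .leaf))) (nat_lit 22191477565407857) (.br (nat_lit 1) (.cons (.br (nat_lit 2) (.cons (.rel (nat_lit 152048640)) (.cons (.rel (nat_lit 83888136)) .nil))) .nil)) (.node (.node (.node (.node .leaf (nat_lit 22191800723236990) (.br (nat_lit 0) (.cons (.br (nat_lit 3) (.cons (.rel (nat_lit 272696592)) .nil)) .nil)) .leaf) (nat_lit 22194527755654620) (.br (nat_lit 0) (.cons (.br (nat_lit 2) (.cons (.rel (nat_lit 72352260)) .nil)) .nil)) .leaf) (nat_lit 22194527755899136) (.br (nat_lit 1) (.cons (.br (nat_lit 3) (.cons (.rel (nat_lit 285279552)) .nil)) .nil)) (.node .leaf (nat_lit 22194529851992101) (.br (nat_lit 3) (.cons (.br (nat_lit 4) (.cons (.rel (nat_lit 1342181385)) .nil)) .nil)) .leaf)) (nat_lit 22194529851992345) (.br (nat_lit 3) (.cons (.br (nat_lit 0) (.cons (.rel (nat_lit 541102080)) (.cons (.rel (nat_lit 272634120)) .nil)))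 .nil)) (.node (.node (.node .leaf (nat_lit 22194529852702782) (.br (nat_lit 0) (.cons (.br (nat_lit 2) (.cons (.rel (nat_lit 71369808)) .nil)) .nil)) .leaf) (nat_lit 22194529854227234) (.br (nat_lit 1) (.cons (.br (nat_lit 3) (.cons (.rel (nat_lit 286347264)) .nil)) .nil)) .leaf) (nat_lit 22196900673484012) (.br (nat_lit 3) (.cons (.br (nat_lit 4) (.cons (.rel (nat_lit 1342183440)) .nil)) .nil)) (.node .leaf (nat_lit 22196900674651549) (.br (nat_lit 0) (.cons (.br (nat_lit 3) (.cons (.rel (nat_lit 272648448)) .nil)) .nil)) .leaf)))))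

/-- refutations 56 -/
def e56 : EX := (.node (.node (.node (.node (.node (.node (.node .leaf (nat_lit 22430520868860064) (.br (nat_lit 1) (.cons (.br (nat_lit 2) (.cons (.rel (nat_lit 84148500)) .nil)) .nil)) .leaf) (nat_lit 22430520869186161) (.br (nat_lit 1) (.cons (.br (nat_lit 2) (.cons (.rel (nat_lit 83888136)) .nil)) .nil)) .leaf) (nat_lit 22430520871428156) (.br (nat_lit 0) (.cons (.br (nat_lit 2) (.cons (.rel (nat_lit 142610433)) .nil)) .nil)) (.node .leaf (nat_lit 22430520871676529) (.br (nat_lit 2) (.cons (.br (nat_lit 4) (.cons (.rel (nat_lit 2281705728)) .nil)) .nil)) .leaf)) (nat_lit 22430561873776815) (.br (nat_lit 1) (.cons (.br (nat_lit 2) (.cons (.rel (nat_lit 152059908)) .nil)) .nil)) (.node (.node .leaf (nat_lit 22430563819569404) (.br (nat_lit 1) (.cons (.br (nat_lit 3) (.cons (.rel (nat_lit 285745152)) .nil)) .nil)) .leaf) (nat_lit 22431196891402295) (.br (nat_lit 2) (.cons (.br (nat_lit 1) (.cons (.rel (nat_lit 167773188)) (.cons (.rel (nat_lit 83888136)) .nil)))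 .nil)) (.node .leaf (nat_lit 22431196892569655) (.br (nat_lit 2) (.cons (.br (nat_lit 3) (.cons (.rel (nat_lit 335549508)) .nil)) .nil)) .leaf))) (nat_lit 22431198152813169) (.br (nat_lit 1) (.cons (.br (nat_lit 2) (.cons (.rel (nat_lit 83952768)) (.cons (.rel (nat_lit 83887122)) .nil))) .nil)) (.node (.node (.node (.node .leaf (nat_lit 22432227875416944) (.br (nat_lit 0) (.cons (.br (nat_lit 2) (.cons (.rel (nat_lit 71307336)) .nil)) .nil)) .leaf) (nat_lit 22432227875417349) (.br (nat_lit 2) (.cons (.br (nat_lit 6) (.cons (.rel (nat_lit 17247241344)) .nil)) .nil)) .leaf) (nat_lit 22432227876492045) (.br (nat_lit 1) (.cons (.br (nat_lit 2) (.cons (.rel (nat_lit 83888136)) .nil)) .nil)) (.node .leaf (nat_lit 22432227876627057) (.br (nat_lit 0) (.cons (.br (nat_lit 2) (.cons (.rel (nat_lit 71303301)) .nil)) .nil)) .leaf)) (nat_lit 22432230387805445) (.br (nat_lit 2) (.cons (.br (nat_lit 6) (.cons (.rel (nat_lit 17247241344)) .nil)) .nil)) (.node (.node .leaf (nat_lit 22432230390048005)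 (.br (nat_lit 3) (.cons (.br (nat_lit 6) (.cons (.rel (nat_lit 17448322053)) .nil)) .nil)) .leaf) (nat_lit 22435498234235505) (.br (nat_lit 1) (.cons (.br (nat_lit 3) (.cons (.rel (nat_lit 570691584)) .nil)) .nil)) (.node .leaf (nat_lit 22436739984073329) (.br (nat_lit 3) (.cons (.br (nat_lit 4) (.cons (.rel (nat_lit 2684358720)) .nil)) .nil)) .leaf)))) (nat_lit 22436740103465270) (.br (nat_lit 2) (.cons (.br (nat_lit 5) (.cons (.rel (nat_lit 8657051652)) .nil)) .nil)) (.node (.node (.node (.node (.node .leaf (nat_lit 22436740103466245) (.br (nat_lit 3) (.cons (.br (nat_lit 5) (.cons (.rel (nat_lit 4563412032)) .nil)) .nil)) .leaf) (nat_lit 22436743877882616) (.br (nat_lit 2) (.cons (.br (nat_lit 3) (.cons (.rel (nat_lit 335560776)) .nil)) .nil)) .leaf) (nat_lit 22436743878339320) (.br (nat_lit 3) (.cons (.br (nat_lit 2) (.cons (.rel (nat_lit 671105040)) (.cons (.rel (nat_lit 604259328)) .nil))) .nil)) (.node .leaf (nat_lit 22436743878339845) (.br (nat_lit 3) (.cons (.br (nat_lit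 6) (.cons (.rel (nat_lit 17449635840)) .nil)) .nil)) .leaf)) (nat_lit 22436743879414520) (.br (nat_lit 2) (.cons (.br (nat_lit 3) (.cons (.rel (nat_lit 335545473)) .nil)) .nil)) (.node (.node .leaf (nat_lit 22437015115589888) (.br (nat_lit 2) (.cons (.br (nat_lit 3) (.cons (.rel (nat_lit 335544468)) .nil)) .nil)) .leaf) (nat_lit 22437770773511446) (.br (nat_lit 3) (.cons (.br (nat_lit 4) (.cons (.rel (nat_lit 1342185600)) (.cons (.rel (nat_lit 1342181385)) (.cons (.rel (nat_lit 1342185600)) .nil)))) (.cons (.br (nat_lit 4) (.cons (.rel (nat_lit 1342178400)) (.cons (.rel (nat_lit 1342177350)) (.cons (.rel (nat_lit 1611137280)) .nil)))) .nil))) (.node .leaf (nat_lit 22437770773524782) (.br (nat_lit 6) (.cons (.br (nat_lit 2) (.cons (.rel (nat_lit 17247011328)) (.cons (.rel (nat_lit 17314087056)) .nil))) .nil)) .leaf))) (nat_lit 22437770773525406) (.br (nat_lit 3) (.cons (.br (nat_lit 6) (.cons (.rel (nat_lit 17448443904)) (.cons (.rel (nat_lit 17717854464)) (.cons (.rel (nat_lit 34896625728))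 .nil)))) (.cons (.br (nat_lit 4) (.cons (.rel (nat_lit 1342181385)) (.cons (.rel (nat_lit 1342185600)) .nil))) .nil))) (.node (.node (.node .leaf (nat_lit 22437770773525782) (.br (nat_lit 6) (.cons (.br (nat_lit 2) (.cons (.rel (nat_lit 34493972736)) (.cons (.rel (nat_lit 17247241344)) (.cons (.rel (nat_lit 17314087056)) .nil)))) (.cons (.br (nat_lit 2) (.cons (.rel (nat_lit 34426847328)) (.cons (.rel (nat_lit 34426847328)) (.cons (.rel (nat_lit 17248027920)) .nil)))) .nil))) .leaf) (nat_lit 22437770773655739) (.br (nat_lit 2) (.cons (.br (nat_lit 3) (.cons (.rel (nat_lit 603980352)) .nil)) .nil)) (.node .leaf (nat_lit 22437770773655804) (.br (nat_lit 5) (.cons (.br (nat_lit 6) (.cons (.rel (nat_lit 42949674240)) (.cons (.rel (nat_lit 21475115136)) (.cons (.rel (nat_lit 25769804868)) (.cons (.rel (nat_lit 21475115136)) .nil))))) .nil)) .leaf)) (nat_lit 22437770773656854) (.br (nat_lit 2) (.cons (.br (nat_lit 3) (.cons (.rel (nat_lit 403701762)) (.cons (.rel (nat_lit 335814912)) .nil)))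 (.cons (.br (nat_lit 3) (.cons (.rel (nat_lit 402653568)) (.cons (.rel (nat_lit 402653568)) .nil))) .nil))) (.node (.node .leaf (nat_lit 22437770773657083) (.br (nat_lit 0) (.cons (.br (nat_lit 5) (.cons (.rel (nat_lit 8598323205)) .nil)) .nil)) .leaf) (nat_lit 22437770773960956) (.br (nat_lit 2) (.cons (.br (nat_lit 6) (.cons (.rel (nat_lit 17315397633)) .nil)) .nil)) (.node .leaf (nat_lit 22437770773962006) (.br (nat_lit 1) (.cons (.br (nat_lit 2) (.cons (.rel (nat_lit 83888136)) (.cons (.rel (nat_lit 83952768)) .nil))) (.cons (.br (nat_lit 2) (.cons (.rel (nat_lit 84017220)) (.cons (.rel (nat_lit 167773188)) .nil))) .nil))) .leaf))))) (nat_lit 22437770773973617) (.br (nat_lit 6) (.cons (.br (nat_lit 2) (.cons (.rel (nat_lit 17249141760)) (.cons (.rel (nat_lit 17249141760)) (.cons (.rel (nat_lit 17247011328)) .nil)))) (.cons (.br (nat_lit 2) (.cons (.rel (nat_lit 17315397633)) (.cons (.rel (nat_lit 34426847328)) (.cons (.br (nat_lit 0) (.cons (.rel (nat_lit 17184063573)) (.cons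 (.rel (nat_lit 17184227328)) (.cons (.rel (nat_lit 17184227328)) (.cons (.rel (nat_lit 17188519953)) (.cons (.rel (nat_lit 34368208896)) (.cons (.rel (nat_lit 17184227328)) (.cons (.rel (nat_lit 142610433)) .nil)))))))) .nil)))) .nil))) (.node (.node (.node (.node (.node (.node .leaf (nat_lit 22437770773974368) (.br (nat_lit 2) (.cons (.br (nat_lit 5) (.cons (.rel (nat_lit 4429185093)) (.cons (.rel (nat_lit 4362338376)) .nil))) (.cons (.br (nat_lit 5) (.cons (.rel (nat_lit 4362080784)) (.cons (.rel (nat_lit 4362338376)) .nil))) .nil))) .leaf) (nat_lit 22437770773981809) (.br (nat_lit 6) (.cons (.br (nat_lit 2) (.cons (.rel (nat_lit 17247011328)) (.cons (.rel (nat_lit 17315397633)) (.cons (.rel (nat_lit 34426863636)) (.cons (.rel (nat_lit 17247011328)) (.cons (.rel (nat_lit 17314103364)) (.cons (.rel (nat_lit 34493972736)) .nil))))))) .nil)) .leaf) (nat_lit 22437770773982560) (.br (nat_lit 6) (.cons (.br (nat_lit 1) (.cons (.rel (nat_lit 34393296897)) (.cons (.rel (nat_lit 17196718080))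 (.cons (.rel (nat_lit 34376515905)) (.cons (.rel (nat_lit 17196646533)) .nil))))) .nil)) (.node .leaf (nat_lit 22437770774692092) (.br (nat_lit 3) (.cons (.br (nat_lit 4) (.cons (.rel (nat_lit 1342183440)) (.cons (.rel (nat_lit 1342178400)) .nil))) (.cons (.br (nat_lit 4) (.cons (.rel (nat_lit 2684358720)) (.cons (.rel (nat_lit 1342185600)) .nil))) .nil))) .leaf)) (nat_lit 22437770774692142) (.br (nat_lit 3) (.cons (.br (nat_lit 5) (.cons (.rel (nat_lit 9126806544)) (.cons (.rel (nat_lit 4563403782)) .nil))) .nil)) (.node (.node .leaf (nat_lit 22437770774693142) (.br (nat_lit 3) (.cons (.br (nat_lit 4) (.cons (.rel (nat_lit 2684358720)) .nil)) .nil)) .leaf) (nat_lit 22437770774731007) (.br (nat_lit 2) (.cons (.br (nat_lit 3) (.cons (.rel (nat_lit 335814912)) .nil)) .nil)) (.node .leaf (nat_lit 22437770775005436) (.br (nat_lit 5) (.cons (.br (nat_lit 0) (.cons (.rel (nat_lit 4299163665)) (.cons (.rel (nat_lit 4299259908)) (.cons (.rel (nat_lit 4299162660)) (.cons (.rel (nat_lit 8598323205))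 .nil))))) .nil)) .leaf))) (nat_lit 22437770775006110) (.br (nat_lit 3) (.cons (.br (nat_lit 1) (.cons (.rel (nat_lit 553653249)) (.cons (.rel (nat_lit 285279552)) .nil))) .nil)) (.node (.node (.node (.node .leaf (nat_lit 22437770775048367) (.br (nat_lit 6) (.cons (.br (nat_lit 2) (.cons (.rel (nat_lit 34493972736)) (.cons (.rel (nat_lit 17247241344)) .nil))) .nil)) .leaf) (nat_lit 22437770775049118) (.br (nat_lit 2) (.cons (.br (nat_lit 3) (.cons (.rel (nat_lit 603980352)) (.cons (.rel (nat_lit 335613960)) (.cons (.rel (nat_lit 335814912)) .nil)))) .nil)) .leaf) (nat_lit 22437770775049129) (.br (nat_lit 2) (.cons (.br (nat_lit 0) (.cons (.rel (nat_lit 72352260)) (.cons (.rel (nat_lit 71307336)) .nil))) .nil)) (.node .leaf (nat_lit 22437770776224000) (.br (nat_lit 3) (.cons (.br (nat_lit 5) (.cons (.rel (nat_lit 8858910720)) .nil)) .nil)) .leaf)) (nat_lit 22437770776224021) (.br (nat_lit 2) (.cons (.br (nat_lit 5) (.cons (.rel (nat_lit 4362405888)) (.cons (.rel (nat_lit 4429185093))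 .nil))) .nil)) (.node (.node .leaf (nat_lit 22437770776224046) (.br (nat_lit 2) (.cons (.br (nat_lit 3) (.cons (.rel (nat_lit 335806854)) (.cons (.rel (nat_lit 335552529)) (.cons (.rel (nat_lit 335814912)) .nil)))) (.cons (.br (nat_lit 5) (.cons (.rel (nat_lit 4429185093)) (.cons (.rel (nat_lit 4429189128)) .nil))) .nil))) .leaf) (nat_lit 22437770776224369) (.br (nat_lit 2) (.cons (.br (nat_lit 4) (.cons (.rel (nat_lit 1140859392)) (.cons (.rel (nat_lit 2281705728)) (.cons (.rel (nat_lit 2281705728)) .nil)))) (.cons (.br (nat_lit 3) (.cons (.rel (nat_lit 335544468)) (.cons (.rel (nat_lit 335545473)) (.cons (.rel (nat_lit 335545473)) .nil)))) (.cons (.br (nat_lit 5) (.cons (.rel (nat_lit 4429185093)) (.cons (.rel (nat_lit 4364174340)) (.cons (.rel (nat_lit 4362338376)) (.cons (.rel (nat_lit 4429185093)) .nil))))) .nil)))) (.node .leaf (nat_lit 22437770776586415) (.br (nat_lit 6) (.cons (.br (nat_lit 2) (.cons (.rel (nat_lit 34426847328)) (.cons (.rel (nat_lit 17247011328)) (.cons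 (.rel (nat_lit 34493972736)) .nil)))) (.cons (.br (nat_lit 4) (.cons (.rel (nat_lit 18254680320)) (.cons (.rel (nat_lit 35434790976)) (.cons (.rel (nat_lit 18255708180)) .nil)))) .nil))) .leaf)))) (nat_lit 22437770776586495) (.br (nat_lit 4) (.cons (.br (nat_lit 0) (.cons (.rel (nat_lit 1077936228)) (.cons (.rel (nat_lit 1079267328)) .nil))) .nil)) (.node (.node (.node (.node (.node .leaf (nat_lit 22437770916110961) (.br (nat_lit 0) (.cons (.br (nat_lit 4) (.cons (.rel (nat_lit 1077942273)) (.cons (.rel (nat_lit 1077969024)) .nil))) (.cons (.br (nat_lit 2) (.cons (.rel (nat_lit 71303301)) (.cons (.rel (nat_lit 71307336)) .nil))) .nil))) .leaf) (nat_lit 22437770916111712) (.br (nat_lit 6) (.cons (.br (nat_lit 1) (.cons (.rel (nat_lit 34377105408)) (.cons (.rel (nat_lit 17196718080)) .nil))) .nil)) .leaf) (nat_lit 22437770916332800) (.br (nat_lit 2) (.cons (.br (nat_lit 5) (.cons (.rel (nat_lit 4429203456)) .nil)) .nil)) (.node .leaf (nat_lit 22437770916588145) (.br (nat_lit 1) (.cons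 (.br (nat_lit 2) (.cons (.rel (nat_lit 101187840)) (.cons (.br (nat_lit 5) (.cons (.rel (nat_lit 4311785472)) (.cons (.rel (nat_lit 4364174340)) (.cons (.rel (nat_lit 4362405888)) .nil)))) (.cons (.rel (nat_lit 83888136)) .nil)))) (.cons (.br (nat_lit 4) (.cons (.rel (nat_lit 1090524228)) (.cons (.rel (nat_lit 2181054480)) (.cons (.rel (nat_lit 1090588680)) .nil)))) .nil))) .leaf)) (nat_lit 22437770917299433) (.br (nat_lit 0) (.cons (.br (nat_lit 2) (.cons (.rel (nat_lit 139460640)) .nil)) .nil)) (.node (.node .leaf (nat_lit 22437773542223130) (.br (nat_lit 1) (.cons (.br (nat_lit 2) (.cons (.rel (nat_lit 83911680)) .nil)) .nil)) .leaf) (nat_lit 22437774670033822) (.br (nat_lit 1) (.cons (.br (nat_lit 3) (.cons (.rel (nat_lit 285279552)) .nil)) .nil)) (.node .leaf (nat_lit 22438044330666609) (.br (nat_lit 1) (.cons (.br (nat_lit 3) (.cons (.rel (nat_lit 285745152)) .nil)) .nil)) .leaf))) (nat_lit 22438045773523254) (.br (nat_lit 0) (.cons (.br (nat_lit 3) (.cons (.rel (nat_lit 541067268))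 .nil)) .nil)) (.node (.node (.node .leaf (nat_lit 22438045775757568) (.br (nat_lit 0) (.cons (.br (nat_lit 3) (.cons (.rel (nat_lit 541065249)) .nil)) .nil)) .leaf) (nat_lit 22442117280877920) (.br (nat_lit 2) (.cons (.br (nat_lit 4) (.cons (.rel (nat_lit 1141243908)) .nil)) .nil)) (.node .leaf (nat_lit 22443191023420694) (.br (nat_lit 3) (.cons (.br (nat_lit 1) (.cons (.rel (nat_lit 285233424)) (.cons (.rel (nat_lit 286294080)) .nil))) .nil)) .leaf)) (nat_lit 22443440130812214) (.br (nat_lit 1) (.cons (.br (nat_lit 2) (.cons (.rel (nat_lit 83888136)) .nil)) .nil)) (.node (.node .leaf (nat_lit 22443440133055089) (.br (nat_lit 3) (.cons (.br (nat_lit 4) (.cons (.rel (nat_lit 1342185600)) .nil)) .nil)) .leaf) (nat_lit 22443440252447030) (.br (nat_lit 2) (.cons (.br (nat_lit 3) (.cons (.rel (nat_lit 335549508)) .nil)) .nil)) (.node .leaf (nat_lit 22443442898596727) (.br (nat_lit 2) (.cons (.br (nat_lit 3) (.cons (.rel (nat_lit 671105040)) .nil)) .nil)) .leaf))))))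

/-- refutations 57 -/
def e57 : EX := (.node (.node (.node .leaf (nat_lit 22477336557515559) (.br (nat_lit 0) (.cons (.br (nat_lit 1) (.cons (.rel (nat_lit 22021122)) .nil)) .nil)) .leaf) (nat_lit 22608152269221225) (.br (nat_lit 0) (.cons (.br (nat_lit 2) (.cons (.rel (nat_lit 71321664)) .nil)) .nil)) .leaf) (nat_lit 22608155519806245) (.br (nat_lit 0) (.cons (.br (nat_lit 3) (.cons (.rel (nat_lit 272634120)) .nil)) .nil)) (.node (.node .leaf (nat_lit 22613529660549170) (.br (nat_lit 1) (.cons (.br (nat_lit 2) (.cons (.rel (nat_lit 85197888)) .nil)) .nil)) .leaf) (nat_lit 22907408502811410) (.br (nat_lit 0) (.cons (.br (nat_lit 2) (.cons (.rel (nat_lit 71303301)) .nil)) .nil)) .leaf))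

/-- refutations 58 -/
def e58 : EX := (.node (.node (.node (.node .leaf (nat_lit 22969881395278449) (.br (nat_lit 0) (.cons (.br (nat_lit 3) (.cons (.rel (nat_lit 272630085)) .nil)) .nil)) .leaf) (nat_lit 22970739968950897) (.br (nat_lit 1) (.cons (.br (nat_lit 3) (.cons (.rel (nat_lit 553652244)) .nil)) .nil)) .leaf) (nat_lit 22970740388737649) (.br (nat_lit 0) (.cons (.br (nat_lit 2) (.cons (.rel (nat_lit 71307336)) .nil)) .nil)) (.node .leaf (nat_lit 22970745676208753) (.br (nat_lit 0) (.cons (.br (nat_lit 1) (.cons (.rel (nat_lit 21528576)) .nil)) .nil)) .leaf)) (nat_lit 23063788653152881) (.br (nat_lit 0) (.cons (.br (nat_lit 1) (.cons (.rel (nat_lit 25170960)) .nil)) .nil)) (.node (.node .leaf (nat_lit 23065976913614361) (.br (nat_lit 0) (.cons (.br (nat_lit 1) (.cons (.rel (nat_lit 37818372)) .nil)) .nil)) .leaf) (nat_lit 23070334610107794) (.br (nat_lit 2) (.cons (.br (nat_lit 4) (.cons (.rel (nat_lit 1208030208)) .nil)) .nil)) (.node .leaf (nat_lit 23070334612147701) (.br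 (nat_lit 0) (.cons (.br (nat_lit 3) (.cons (.rel (nat_lit 272648448)) .nil)) .nil)) .leaf)))

/-- refutations 59 -/
def e59 : EX := (.node (.node (.node (.node .leaf (nat_lit 23082515380167341) (.br (nat_lit 2) (.cons (.br (nat_lit 4) (.cons (.rel (nat_lit 1208090625)) .nil)) .nil)) .leaf) (nat_lit 23083138759059582) (.br (nat_lit 0) (.cons (.br (nat_lit 3) (.cons (.rel (nat_lit 541067268)) .nil)) .nil)) (.node .leaf (nat_lit 23088518684460269) (.br (nat_lit 1) (.cons (.br (nat_lit 2) (.cons (.rel (nat_lit 83887122)) .nil)) .nil)) .leaf)) (nat_lit 23088999627354737) (.br (nat_lit 1) (.cons (.br (nat_lit 2) (.cons (.rel (nat_lit 83887122)) .nil)) .nil)) (.node (.node .leaf (nat_lit 23088999627555077) (.br (nat_lit 2) (.cons (.br (nat_lit 5) (.cons (.rel (nat_lit 4429189128)) (.cons (.rel (nat_lit 4429203456)) .nil))) .nil)) .leaf) (nat_lit 23088999627791616) (.br (nat_lit 4) (.cons (.br (nat_lit 1) (.cons (.rel (nat_lit 1090524228)) (.cons (.rel (nat_lit 1090789632)) (.cons (.rel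 (nat_lit 1090524228)) (.cons (.rel (nat_lit 2164785216)) .nil))))) .nil)) (.node .leaf (nat_lit 23088999627794558) (.br (nat_lit 0) (.cons (.br (nat_lit 2) (.cons (.rel (nat_lit 71307336)) .nil)) .nil)) .leaf))) (nat_lit 23088999628835121) (.br (nat_lit 1) (.cons (.br (nat_lit 2) (.cons (.rel (nat_lit 83886117)) .nil)) .nil)) (.node (.node (.node .leaf (nat_lit 23088999630145841) (.br (nat_lit 1) (.cons (.br (nat_lit 2) (.cons (.rel (nat_lit 83886117)) .nil)) .nil)) .leaf) (nat_lit 23088999630324493) (.br (nat_lit 0) (.cons (.br (nat_lit 2) (.cons (.rel (nat_lit 71307336)) .nil)) .nil)) (.node .leaf (nat_lit 23088999630324962) (.br (nat_lit 3) (.cons (.br (nat_lit 4) (.cons (.rel (nat_lit 2415919377)) (.cons (.rel (nat_lit 1342185600)) (.cons (.rel (nat_lit 1342185600)) (.cons (.rel (nat_lit 1342181385)) .nil))))) .nil)) .leaf)) (nat_lit 23088999630324992) (.br (nat_lit 4) (.cons (.br (nat_lit 6) (.cons (.rel (nat_lit 18254680320)) .nil)) .nil)) (.node (.node .leaf (nat_lit 23093191515636992)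 (.br (nat_lit 0) (.cons (.br (nat_lit 1) (.cons (.rel (nat_lit 20972928)) .nil)) .nil)) .leaf) (nat_lit 23093191518134897) (.br (nat_lit 2) (.cons (.br (nat_lit 5) (.cons (.rel (nat_lit 4362338376)) .nil)) .nil)) (.node .leaf (nat_lit 23094265257716517) (.br (nat_lit 0) (.cons (.br (nat_lit 2) (.cons (.rel (nat_lit 71303301)) .nil)) .nil)) .leaf))))

/-- refutations 60 -/
def e60 : EX := (.node (.node (.node (.node (.node (.node .leaf (nat_lit 24365393176710645) (.br (nat_lit 0) (.cons (.br (nat_lit 1) (.cons (.rel (nat_lit 22040640)) .nil)) .nil)) .leaf) (nat_lit 24365610569953905) (.br (nat_lit 1) (.cons (.br (nat_lit 3) (.cons (.rel (nat_lit 302060544)) .nil)) .nil)) .leaf) (nat_lit 24365610570409989) (.br (nat_lit 2) (.cons (.br (nat_lit 6) (.cons (.rel (nat_lit 34493972736)) .nil)) .nil)) (.node (.node .leaf (nat_lit 24365610570411495) (.br (nat_lit 2) (.cons (.br (nat_lit 3) (.cons (.rel (nat_lit 606076929)) .nil)) .nil)) .leaf) (nat_lit 24365610571121265) (.br (nat_lit 3)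 (.cons (.br (nat_lit 5) (.cons (.rel (nat_lit 4563423300)) .nil)) .nil)) .leaf)) (nat_lit 24365610571478429) (.br (nat_lit 0) (.cons (.br (nat_lit 3) (.cons (.rel (nat_lit 272696592)) .nil)) .nil)) (.node (.node (.node .leaf (nat_lit 24370633035541105) (.br (nat_lit 1) (.cons (.br (nat_lit 3) (.cons (.rel (nat_lit 553653249)) .nil)) .nil)) .leaf) (nat_lit 24370633586019581) (.br (nat_lit 1) (.cons (.br (nat_lit 2) (.cons (.rel (nat_lit 167773188)) .nil)) .nil)) .leaf) (nat_lit 24370633587034893) (.br (nat_lit 1) (.cons (.br (nat_lit 6) (.cons (.rel (nat_lit 17196777492)) .nil)) .nil)) (.node .leaf (nat_lit 24370638072884137) (.br (nat_lit 2) (.cons (.br (nat_lit 6) (.cons (.rel (nat_lit 17247011328)) .nil)) .nil)) .leaf))) (nat_lit 24370638073610865) (.br (nat_lit 1) (.cons (.br (nat_lit 2) (.cons (.rel (nat_lit 83959824)) .nil)) .nil)) (.node (.node (.node (.node .leaf (nat_lit 24370638074940903) (.br (nat_lit 1) (.cons (.br (nat_lit 2) (.cons (.rel (nat_lit 100925457)) .nil)) .nil))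 .leaf) (nat_lit 24371663810443516) (.br (nat_lit 1) (.cons (.br (nat_lit 6) (.cons (.rel (nat_lit 17196679185)) .nil)) .nil)) .leaf) (nat_lit 24371663810915836) (.br (nat_lit 0) (.cons (.br (nat_lit 3) (.cons (.rel (nat_lit 273686529)) .nil)) .nil)) (.node .leaf (nat_lit 24371663813455360) (.br (nat_lit 4) (.cons (.br (nat_lit 6) (.cons (.rel (nat_lit 18253877256)) .nil)) .nil)) .leaf)) (nat_lit 24371665740294769) (.br (nat_lit 0) (.cons (.br (nat_lit 2) (.cons (.rel (nat_lit 142610433)) .nil)) .nil)) (.node (.node (.node .leaf (nat_lit 24373189283457961) (.br (nat_lit 3) (.cons (.br (nat_lit 4) (.cons (.rel (nat_lit 1342181385)) .nil)) .nil)) .leaf) (nat_lit 24377084627143937) (.br (nat_lit 1) (.cons (.br (nat_lit 2) (.cons (.rel (nat_lit 167773188)) .nil)) .nil)) .leaf) (nat_lit 24378114851336817) (.br (nat_lit 2) (.cons (.br (nat_lit 3) (.cons (.rel (nat_lit 335552529)) .nil)) .nil)) (.node .leaf (nat_lit 24378114852860529) (.br (nat_lit 2) (.cons (.br (nat_lit 0) (.cons (.rel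 (nat_lit 71303301)) (.cons (.rel (nat_lit 142612500)) (.cons (.rel (nat_lit 71303301)) .nil)))) (.cons (.br (nat_lit 3) (.cons (.rel (nat_lit 671105040)) (.cons (.rel (nat_lit 335560776)) (.cons (.rel (nat_lit 335560776)) .nil)))) .nil))) .leaf)))) (nat_lit 24378117514861169) (.br (nat_lit 1) (.cons (.br (nat_lit 3) (.cons (.rel (nat_lit 285245697)) .nil)) .nil)) (.node (.node (.node (.node (.node .leaf (nat_lit 24378117514915069) (.br (nat_lit 1) (.cons (.br (nat_lit 2) (.cons (.rel (nat_lit 83918913)) .nil)) .nil)) .leaf) (nat_lit 24378117515175941) (.br (nat_lit 1) (.cons (.br (nat_lit 5) (.cons (.rel (nat_lit 4311785472)) .nil)) .nil)) .leaf) (nat_lit 24378117515176217) (.br (nat_lit 3) (.cons (.br (nat_lit 6) (.cons (.rel (nat_lit 34628174112)) .nil)) .nil)) (.node .leaf (nat_lit 24378117515176561) (.br (nat_lit 3) (.cons (.br (nat_lit 6) (.cons (.rel (nat_lit 17448310785)) .nil)) .nil)) .leaf)) (nat_lit 24378117515886873) (.br (nat_lit 0) (.cons (.br (nat_lit 3) (.cons (.rel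 (nat_lit 273711120)) .nil)) .nil)) (.node (.node (.node .leaf (nat_lit 24378117515888029) (.br (nat_lit 2) (.cons (.br (nat_lit 3) (.cons (.rel (nat_lit 335564802)) .nil)) .nil)) .leaf) (nat_lit 24378117516243569) (.br (nat_lit 2) (.cons (.br (nat_lit 3) (.cons (.rel (nat_lit 335560776)) .nil)) .nil)) .leaf) (nat_lit 24378117516244455) (.br (nat_lit 0) (.cons (.br (nat_lit 1) (.cons (.rel (nat_lit 37748880)) .nil)) .nil)) (.node .leaf (nat_lit 24378117517216369) (.br (nat_lit 2) (.cons (.br (nat_lit 3) (.cons (.rel (nat_lit 335577120)) .nil)) .nil)) .leaf))) (nat_lit 24378117517715737) (.br (nat_lit 1) (.cons (.br (nat_lit 6) (.cons (.rel (nat_lit 17196650568)) .nil)) .nil)) (.node (.node (.node (.node .leaf (nat_lit 24378117517716081) (.br (nat_lit 2) (.cons (.br (nat_lit 6) (.cons (.rel (nat_lit 17247305796)) .nil)) .nil)) .leaf) (nat_lit 24378119905473137) (.br (nat_lit 1) (.cons (.br (nat_lit 3) (.cons (.rel (nat_lit 570691584)) .nil)) .nil)) .leaf) (nat_lit 24378119905473289)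 (.br (nat_lit 1) (.cons (.br (nat_lit 3) (.cons (.rel (nat_lit 302120961)) .nil)) .nil)) (.node .leaf (nat_lit 24378119905929841) (.br (nat_lit 3) (.cons (.br (nat_lit 1) (.cons (.rel (nat_lit 553713666)) (.cons (.rel (nat_lit 285745152)) (.cons (.rel (nat_lit 570691584)) .nil)))) .nil)) .leaf)) (nat_lit 24378149211074812) (.br (nat_lit 0) (.cons (.br (nat_lit 1) (.cons (.rel (nat_lit 20979984)) .nil)) .nil)) (.node (.node (.node .leaf (nat_lit 24378149211075947) (.br (nat_lit 0) (.cons (.br (nat_lit 1) (.cons (.rel (nat_lit 22093824)) .nil)) .nil)) .leaf) (nat_lit 24378149211523853) (.br (nat_lit 0) (.cons (.br (nat_lit 5) (.cons (.rel (nat_lit 4299165825)) .nil)) .nil)) .leaf) (nat_lit 24378149211531290) (.br (nat_lit 1) (.cons (.br (nat_lit 5) (.cons (.rel (nat_lit 4311826560)) .nil)) .nil)) (.node .leaf (nat_lit 24378149228309257) (.br (nat_lit 0) (.cons (.br (nat_lit 2) (.cons (.rel (nat_lit 75759681)) .nil)) .nil)) .leaf)))))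

/-- refutations 61 -/
def e61 : EX := (.node (.node (.node (.node .leaf (nat_lit 24646657916856501) (.br (nat_lit 1) (.cons (.br (nat_lit 2) (.cons (.rel (nat_lit 83886117)) .nil)) .nil)) .leaf) (nat_lit 24646658550197485) (.br (nat_lit 1) (.cons (.br (nat_lit 2) (.cons (.rel (nat_lit 84017220)) .nil)) .nil)) .leaf) (nat_lit 24647188580199705) (.br (nat_lit 0) (.cons (.br (nat_lit 1) (.cons (.rel (nat_lit 22093824)) .nil)) .nil)) (.node .leaf (nat_lit 24648897289317788) (.br (nat_lit 1) (.cons (.br (nat_lit 2) (.cons (.rel (nat_lit 83888136)) .nil)) .nil)) .leaf)) (nat_lit 24653139255296885) (.br (nat_lit 3) (.cons (.br (nat_lit 5) (.cons (.rel (nat_lit 4563419265)) .nil)) .nil)) (.node (.node (.node .leaf (nat_lit 24653140717006236) (.br (nat_lit 3) (.cons (.br (nat_lit 4) (.cons (.rel (nat_lit 1342185600)) (.cons (.rel (nat_lit 2415919377)) .nil))) .nil)) .leaf) (nat_lit 24653140718080911) (.br (nat_lit 0) (.cons (.br (nat_lit 3) (.cons (.rel (nat_lit 541065249)) .nil)) .nil))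 .leaf) (nat_lit 24654704085101980) (.br (nat_lit 0) (.cons (.br (nat_lit 1) (.cons (.rel (nat_lit 22093824)) .nil)) .nil)) (.node .leaf (nat_lit 24669700748808324) (.br (nat_lit 1) (.cons (.br (nat_lit 4) (.cons (.rel (nat_lit 1090551840)) .nil)) .nil)) .leaf)))

/-- refutations 62 -/
def e62 : EX := (.node (.node (.node (.node (.node .leaf (nat_lit 25104574150996253) (.br (nat_lit 0) (.cons (.br (nat_lit 3) (.cons (.rel (nat_lit 541065249)) .nil)) .nil)) .leaf) (nat_lit 25104574150996745) (.br (nat_lit 1) (.cons (.br (nat_lit 3) (.cons (.rel (nat_lit 285245697)) (.cons (.rel (nat_lit 285245697)) .nil))) .nil)) .leaf) (nat_lit 25104574153696013) (.br (nat_lit 0) (.cons (.br (nat_lit 1) (.cons (.rel (nat_lit 42221568)) .nil)) .nil)) (.node .leaf (nat_lit 25105209806613367) (.br (nat_lit 1) (.cons (.br (nat_lit 2) (.cons (.rel (nat_lit 83888136)) .nil)) .nil)) .leaf)) (nat_lit 25105209807687742) (.br (nat_lit 1) (.cons (.br (nat_lit 2) (.cons (.rel (nat_lit 83887122)) .nil)) .nil))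 (.node (.node (.node .leaf (nat_lit 25105210433806468) (.br (nat_lit 1) (.cons (.br (nat_lit 2) (.cons (.rel (nat_lit 83887122)) .nil)) .nil)) .leaf) (nat_lit 25105212319001463) (.br (nat_lit 1) (.cons (.br (nat_lit 2) (.cons (.rel (nat_lit 83886117)) .nil)) .nil)) .leaf) (nat_lit 25110753019751911) (.br (nat_lit 3) (.cons (.br (nat_lit 5) (.cons (.rel (nat_lit 9126806544)) .nil)) .nil)) (.node .leaf (nat_lit 25110753020827111) (.br (nat_lit 1) (.cons (.br (nat_lit 6) (.cons (.rel (nat_lit 17197695492)) .nil)) .nil)) .leaf))) (nat_lit 25110755532140007) (.br (nat_lit 1) (.cons (.br (nat_lit 3) (.cons (.rel (nat_lit 285245697)) .nil)) .nil)) (.node (.node (.node (.node .leaf (nat_lit 25110755534381082) (.br (nat_lit 1) (.cons (.br (nat_lit 2) (.cons (.rel (nat_lit 83918913)) .nil)) .nil)) .leaf) (nat_lit 25110984394317186) (.br (nat_lit 3) (.cons (.br (nat_lit 4) (.cons (.rel (nat_lit 2684358720)) .nil)) .nil)) .leaf) (nat_lit 25110987561025696) (.br (nat_lit 0) (.cons (.br (nat_lit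 3) (.cons (.rel (nat_lit 276889728)) .nil)) .nil)) (.node .leaf (nat_lit 25110987563140482) (.br (nat_lit 2) (.cons (.br (nat_lit 3) (.cons (.rel (nat_lit 671105040)) .nil)) .nil)) .leaf)) (nat_lit 25111030410046700) (.br (nat_lit 0) (.cons (.br (nat_lit 3) (.cons (.rel (nat_lit 272630085)) .nil)) .nil)) (.node (.node (.node .leaf (nat_lit 25111030531418397) (.br (nat_lit 1) (.cons (.br (nat_lit 2) (.cons (.rel (nat_lit 83888136)) .nil)) .nil)) .leaf) (nat_lit 25111030531680541) (.br (nat_lit 6) (.cons (.br (nat_lit 4) (.cons (.rel (nat_lit 35433480210)) (.cons (.rel (nat_lit 19327389696)) .nil))) .nil)) .leaf) (nat_lit 25112061827148536) (.br (nat_lit 4) (.cons (.br (nat_lit 5) (.cons (.rel (nat_lit 6442516548)) .nil)) .nil)) (.node .leaf (nat_lit 25112061828358904) (.br (nat_lit 3) (.cons (.br (nat_lit 4) (.cons (.rel (nat_lit 1342185600)) .nil)) .nil)) .leaf))))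

/-- refutations 63 -/
def e63 : EX := (.node (.node (.node (.node (.node .leaf (nat_lit 25116290821780981) (.br (nat_lit 2) (.cons (.br (nat_lit 4) (.cons (.rel (nat_lit 1207977024)) .nil)) .nil)) .leaf) (nat_lit 25116290822237586) (.br (nat_lit 4) (.cons (.br (nat_lit 5) (.cons (.rel (nat_lit 5368709640)) (.cons (.rel (nat_lit 5368711698)) .nil))) .nil)) .leaf) (nat_lit 25116291222938225) (.br (nat_lit 1) (.cons (.br (nat_lit 2) (.cons (.rel (nat_lit 167773188)) .nil)) .nil)) (.node (.node .leaf (nat_lit 25116291237002518) (.br (nat_lit 2) (.cons (.br (nat_lit 3) (.cons (.rel (nat_lit 402653568)) .nil)) .nil)) .leaf) (nat_lit 25116291237016854) (.br (nat_lit 2) (.cons (.br (nat_lit 3) (.cons (.rel (nat_lit 335613960)) .nil)) .nil)) .leaf)) (nat_lit 25116291447188832) (.br (nat_lit 2) (.cons (.br (nat_lit 6) (.cons (.rel (nat_lit 17247260673)) .nil)) .nil)) (.node (.node (.node .leaf (nat_lit 25116291447898992) (.br (nat_lit 6) (.cons (.br (nat_lit 0) (.cons (.rel (nat_lit 17184084096))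 (.cons (.rel (nat_lit 34368208896)) .nil))) .nil)) .leaf) (nat_lit 25116291448246404) (.br (nat_lit 0) (.cons (.br (nat_lit 3) (.cons (.rel (nat_lit 273155136)) .nil)) .nil)) .leaf) (nat_lit 25116293527106466) (.br (nat_lit 0) (.cons (.br (nat_lit 3) (.cons (.rel (nat_lit 273219588)) .nil)) .nil)) (.node .leaf (nat_lit 25116293528273148) (.br (nat_lit 1) (.cons (.br (nat_lit 3) (.cons (.rel (nat_lit 553648209)) .nil)) .nil)) .leaf))) (nat_lit 25116296040661294) (.br (nat_lit 4) (.cons (.br (nat_lit 5) (.cons (.rel (nat_lit 5369762049)) .nil)) .nil)) (.node (.node (.node (.node .leaf (nat_lit 25116987007901035) (.br (nat_lit 0) (.cons (.br (nat_lit 3) (.cons (.rel (nat_lit 541102080)) .nil)) .nil)) .leaf) (nat_lit 25116991409401110) (.br (nat_lit 2) (.cons (.br (nat_lit 3) (.cons (.rel (nat_lit 335577120)) .nil)) .nil)) .leaf) (nat_lit 25116991409417494) (.br (nat_lit 2) (.cons (.br (nat_lit 3) (.cons (.rel (nat_lit 335613960)) .nil)) .nil)) (.node .leaf (nat_lit 25117205948065829)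 (.br (nat_lit 3) (.cons (.br (nat_lit 2) (.cons (.rel (nat_lit 335609925)) (.cons (.rel (nat_lit 335565864)) .nil))) .nil)) .leaf)) (nat_lit 25117205948067303) (.br (nat_lit 1) (.cons (.br (nat_lit 3) (.cons (.rel (nat_lit 286261284)) .nil)) .nil)) (.node (.node (.node .leaf (nat_lit 25117207197969144) (.br (nat_lit 1) (.cons (.br (nat_lit 2) (.cons (.rel (nat_lit 83918913)) .nil)) .nil)) .leaf) (nat_lit 25117451089416254) (.br (nat_lit 2) (.cons (.br (nat_lit 3) (.cons (.rel (nat_lit 335549508)) .nil)) .nil)) .leaf) (nat_lit 25117451089416324) (.br (nat_lit 3) (.cons (.br (nat_lit 4) (.cons (.rel (nat_lit 1342183440)) (.cons (.rel (nat_lit 1342185600)) .nil))) .nil)) (.node .leaf (nat_lit 25117451090339303) (.br (nat_lit 0) (.cons (.br (nat_lit 2) (.cons (.rel (nat_lit 71303301)) .nil)) .nil)) .leaf))))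

/-- refutations 64 -/
def e64 : EX := (.node (.node (.node (.node (.node .leaf (nat_lit 24804983060951296) (.br (nat_lit 0) (.cons (.br (nat_lit 1) (.cons (.rel (nat_lit 25165920)) .nil)) .nil)) .leaf) (nat_lit 24804983061407774) (.br (nat_lit 3) (.cons (.br (nat_lit 1) (.cons (.rel (nat_lit 285233424)) (.cons (.rel (nat_lit 285245697)) .nil))) .nil)) .leaf) (nat_lit 24804983061408369) (.br (nat_lit 4) (.cons (.br (nat_lit 3) (.cons (.rel (nat_lit 1342177350)) (.cons (.rel (nat_lit 1342181385)) .nil))) .nil)) (.node (.node .leaf (nat_lit 24804983061408521) (.br (nat_lit 3) (.cons (.br (nat_lit 6) (.cons (.rel (nat_lit 17448309780)) (.cons (.rel (nat_lit 17448305745)) .nil))) (.cons (.br (nat_lit 6) (.cons (.rel (nat_lit 34896678912)) (.cons (.rel (nat_lit 17448337536)) .nil))) .nil))) .leaf) (nat_lit 24804983061408645) (.br (nat_lit 6) (.cons (.br (nat_lit 0) (.cons (.rel (nat_lit 17184067608)) (.cons (.rel (nat_lit 17184227328)) .nil))) .nil)) .leaf)) (nat_lit 24804983063651056)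 (.br (nat_lit 1) (.cons (.br (nat_lit 5) (.cons (.rel (nat_lit 4311745620)) .nil)) .nil)) (.node (.node (.node .leaf (nat_lit 24804985573796465) (.br (nat_lit 3) (.cons (.br (nat_lit 5) (.cons (.rel (nat_lit 4563476484)) .nil)) .nil)) .leaf) (nat_lit 24804985573797365) (.br (nat_lit 5) (.cons (.br (nat_lit 2) (.cons (.rel (nat_lit 8657047617)) (.cons (.rel (nat_lit 4362342402)) .nil))) .nil)) .leaf) (nat_lit 24804985576039925) (.br (nat_lit 2) (.cons (.br (nat_lit 6) (.cons (.rel (nat_lit 17247260673)) (.cons (.rel (nat_lit 34493972736)) .nil))) (.cons (.br (nat_lit 5) (.cons (.rel (nat_lit 4362342402)) (.cons (.rel (nat_lit 4362338376)) .nil))) .nil))) (.node .leaf (nat_lit 24806142702578289) (.br (nat_lit 0) (.cons (.br (nat_lit 3) (.cons (.rel (nat_lit 276848640)) .nil)) .nil)) .leaf))) (nat_lit 24806145156229397) (.br (nat_lit 1) (.cons (.br (nat_lit 3) (.cons (.rel (nat_lit 285245697)) .nil)) .nil)) (.node (.node (.node (.node .leaf (nat_lit 24806145156245785) (.br (nat_lit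 3) (.cons (.br (nat_lit 0) (.cons (.rel (nat_lit 541067268)) (.cons (.rel (nat_lit 272648448)) .nil))) .nil)) .leaf) (nat_lit 24806145158851447) (.br (nat_lit 1) (.cons (.br (nat_lit 2) (.cons (.rel (nat_lit 85262340)) .nil)) .nil)) .leaf) (nat_lit 24818134695865080) (.br (nat_lit 2) (.cons (.br (nat_lit 4) (.cons (.rel (nat_lit 1142424576)) .nil)) .nil)) (.node .leaf (nat_lit 24818136704480133) (.br (nat_lit 1) (.cons (.br (nat_lit 2) (.cons (.rel (nat_lit 83888136)) .nil)) .nil)) .leaf)) (nat_lit 24818136704935966) (.br (nat_lit 1) (.cons (.br (nat_lit 2) (.cons (.rel (nat_lit 83888136)) .nil)) .nil)) (.node (.node (.node .leaf (nat_lit 24818136705646848) (.br (nat_lit 5) (.cons (.br (nat_lit 6) (.cons (.rel (nat_lit 42949674240)) .nil)) .nil)) .leaf) (nat_lit 24818136705647344) (.br (nat_lit 1) (.cons (.br (nat_lit 0) (.cons (.rel (nat_lit 42221568)) (.cons (.rel (nat_lit 22020117)) .nil))) .nil)) .leaf) (nat_lit 24818297793619305) (.br (nat_lit 0) (.cons (.br (nat_lit 3) (.cons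 (.rel (nat_lit 272634120)) .nil)) .nil)) (.node .leaf (nat_lit 24853140684185107) (.br (nat_lit 1) (.cons (.br (nat_lit 3) (.cons (.rel (nat_lit 285245697)) .nil)) .nil)) .leaf))))

/-- refutations 65 -/
def e65 : EX := (.node (.node (.node (.node (.node .leaf (nat_lit 25192011153855089) (.br (nat_lit 1) (.cons (.br (nat_lit 3) (.cons (.rel (nat_lit 285745152)) .nil)) .nil)) .leaf) (nat_lit 25192011153928249) (.br (nat_lit 2) (.cons (.br (nat_lit 6) (.cons (.rel (nat_lit 34493972736)) .nil)) .nil)) (.node .leaf (nat_lit 25192011154384902) (.br (nat_lit 2) (.cons (.br (nat_lit 1) (.cons (.rel (nat_lit 151257600)) (.cons (.rel (nat_lit 83888136)) .nil))) .nil)) .leaf)) (nat_lit 25192011154384926) (.br (nat_lit 0) (.cons (.br (nat_lit 1) (.cons (.rel (nat_lit 42221568)) (.cons (.rel (nat_lit 22021122)) .nil))) (.cons (.br (nat_lit 5) (.cons (.rel (nat_lit 8598323205)) (.cons (.rel (nat_lit 4299165825)) .nil))) .nil))) (.node (.node .leaf (nat_lit 25192011154385078) (.br (nat_lit 3)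 (.cons (.br (nat_lit 6) (.cons (.rel (nat_lit 34896625728)) .nil)) .nil)) .leaf) (nat_lit 25192011154385197) (.br (nat_lit 3) (.cons (.br (nat_lit 4) (.cons (.rel (nat_lit 1342181385)) .nil)) .nil)) (.node .leaf (nat_lit 25192011154385521) (.br (nat_lit 2) (.cons (.br (nat_lit 1) (.cons (.rel (nat_lit 151257600)) (.cons (.rel (nat_lit 83911680)) (.cons (.rel (nat_lit 83911680)) .nil)))) .nil)) .leaf))) (nat_lit 25192011154385701) (.br (nat_lit 2) (.cons (.br (nat_lit 5) (.cons (.rel (nat_lit 8657047617)) (.cons (.rel (nat_lit 4362093057)) (.cons (.rel (nat_lit 4362354720)) .nil)))) .nil)) (.node (.node (.node .leaf (nat_lit 25192011154385797) (.br (nat_lit 1) (.cons (.br (nat_lit 2) (.cons (.rel (nat_lit 83888136)) (.cons (.rel (nat_lit 83906640)) (.cons (.rel (nat_lit 83895384)) .nil)))) (.cons (.br (nat_lit 2) (.cons (.rel (nat_lit 167773188)) (.cons (.br (nat_lit 5) (.cons (.rel (nat_lit 4362093057)) (.cons (.rel (nat_lit 4362354720)) (.cons (.rel (nat_lit 8623509504)) (.cons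 (.br (nat_lit 0) (.cons (.rel (nat_lit 71323680)) (.cons (.rel (nat_lit 4299248640)) (.cons (.rel (nat_lit 22093824)) (.cons (.rel (nat_lit 4299169860)) .nil))))) (.cons (.rel (nat_lit 8657077248)) (.cons (.rel (nat_lit 4362093057)) .nil))))))) (.cons (.br (nat_lit 0) (.cons (.rel (nat_lit 71307336)) (.cons (.rel (nat_lit 71311362)) (.cons (.rel (nat_lit 22093824)) (.cons (.rel (nat_lit 71311362)) .nil))))) .nil)))) (.cons (.br (nat_lit 2) (.cons (.rel (nat_lit 83888136)) (.cons (.rel (nat_lit 101187840)) (.cons (.rel (nat_lit 83886117)) .nil)))) .nil)))) .leaf) (nat_lit 25192011154386197) (.br (nat_lit 0) (.cons (.br (nat_lit 2) (.cons (.rel (nat_lit 71307336)) .nil)) .nil)) (.node .leaf (nat_lit 25192011154386206) (.br (nat_lit 1) (.cons (.br (nat_lit 2) (.cons (.br (nat_lit 4) (.cons (.rel (nat_lit 1140859392)) .nil)) .nil)) .nil)) .leaf)) (nat_lit 25192011156365568) (.br (nat_lit 2) (.cons (.br (nat_lit 1) (.cons (.rel (nat_lit 83886117)) (.cons (.rel (nat_lit 83972097)) .nil)))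 .nil)) (.node (.node .leaf (nat_lit 25192011156366848) (.br (nat_lit 2) (.cons (.br (nat_lit 3) (.cons (.rel (nat_lit 606076929)) .nil)) .nil)) .leaf) (nat_lit 25192011156621949) (.br (nat_lit 2) (.cons (.br (nat_lit 4) (.cons (.rel (nat_lit 1208030208)) .nil)) .nil)) (.node .leaf (nat_lit 25192011156720241) (.br (nat_lit 0) (.cons (.br (nat_lit 5) (.cons (.rel (nat_lit 8595259392)) .nil)) .nil)) .leaf)))) (nat_lit 25192013586550934) (.br (nat_lit 0) (.cons (.br (nat_lit 2) (.cons (.rel (nat_lit 71307336)) .nil)) .nil)) (.node (.node (.node (.node .leaf (nat_lit 25192013587082117) (.br (nat_lit 0) (.cons (.br (nat_lit 2) (.cons (.rel (nat_lit 71323680)) .nil)) .nil)) .leaf) (nat_lit 25192013821963777) (.br (nat_lit 1) (.cons (.br (nat_lit 5) (.cons (.rel (nat_lit 4311811077)) .nil)) .nil)) (.node .leaf (nat_lit 25192328981965701) (.br (nat_lit 0) (.cons (.br (nat_lit 3) (.cons (.rel (nat_lit 276848640)) .nil)) .nil)) .leaf)) (nat_lit 25193170795554822) (.br (nat_lit 3) (.cons (.br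 (nat_lit 5) (.cons (.rel (nat_lit 9126806544)) .nil)) .nil)) (.node (.node .leaf (nat_lit 25193525650451969) (.br (nat_lit 0) (.cons (.br (nat_lit 5) (.cons (.rel (nat_lit 4299162660)) .nil)) .nil)) .leaf) (nat_lit 25198900281928485) (.br (nat_lit 5) (.cons (.br (nat_lit 6) (.cons (.rel (nat_lit 42949681488)) .nil)) .nil)) (.node .leaf (nat_lit 25198905562556701) (.br (nat_lit 3) (.cons (.br (nat_lit 0) (.cons (.rel (nat_lit 273219588)) (.cons (.rel (nat_lit 273810432)) .nil))) .nil)) .leaf))) (nat_lit 25203925394375281) (.br (nat_lit 1) (.cons (.br (nat_lit 5) (.cons (.rel (nat_lit 4311748641)) (.cons (.rel (nat_lit 4311761928)) .nil))) .nil)) (.node (.node (.node .leaf (nat_lit 25203925395907185) (.br (nat_lit 1) (.cons (.br (nat_lit 0) (.cons (.rel (nat_lit 42221568)) (.cons (.rel (nat_lit 20992257)) (.cons (.rel (nat_lit 20992257)) (.cons (.rel (nat_lit 37765188)) .nil))))) .nil)) .leaf) (nat_lit 25203925395907936) (.br (nat_lit 0) (.cons (.br (nat_lit 1) (.cons (.rel (nat_lit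 42221568)) .nil)) .nil)) (.node .leaf (nat_lit 25205153754311281) (.br (nat_lit 1) (.cons (.br (nat_lit 6) (.cons (.rel (nat_lit 34376515905)) .nil)) .nil)) .leaf)) (nat_lit 25205153755124337) (.br (nat_lit 0) (.cons (.br (nat_lit 3) (.cons (.rel (nat_lit 541065249)) .nil)) .nil)) (.node (.node .leaf (nat_lit 25205416110006454) (.br (nat_lit 0) (.cons (.br (nat_lit 2) (.cons (.rel (nat_lit 71311362)) .nil)) .nil)) .leaf) (nat_lit 25274725778836761) (.br (nat_lit 1) (.cons (.br (nat_lit 2) (.cons (.rel (nat_lit 83888136)) .nil)) .nil)) (.node .leaf (nat_lit 25274726298930457) (.br (nat_lit 1) (.cons (.br (nat_lit 2) (.cons (.rel (nat_lit 83888136)) .nil)) .nil)) .leaf)))))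

/-- refutations 67 -/
def e67 : EX := (.node (.node (.node (.node (.node .leaf (nat_lit 26405872037580284) (.br (nat_lit 0) (.cons (.br (nat_lit 2) (.cons (.rel (nat_lit 71303301)) .nil)) .nil)) .leaf) (nat_lit 26405872037586974) (.br (nat_lit 0) (.cons (.br (nat_lit 2) (.cons (.rel (nat_lit 142610433)) .nil)) .nil)) (.node .leaf (nat_lit 26405872037588469) (.br (nat_lit 2) (.cons (.br (nat_lit 1) (.cons (.rel (nat_lit 83888136)) (.cons (.rel (nat_lit 83886117)) .nil))) .nil)) .leaf)) (nat_lit 26405874533909265) (.br (nat_lit 0) (.cons (.br (nat_lit 5) (.cons (.rel (nat_lit 4299162660)) .nil)) .nil)) (.node (.node .leaf (nat_lit 26405875070779422) (.br (nat_lit 2) (.cons (.br (nat_lit 3) (.cons (.rel (nat_lit 335814912)) .nil)) .nil)) .leaf) (nat_lit 26405875071145196) (.br (nat_lit 0) (.cons (.br (nat_lit 3) (.cons (.rel (nat_lit 541196352)) .nil)) .nil)) (.node .leaf (nat_lit 26405877774938872) (.br (nat_lit 1) (.cons (.br (nat_lit 2) (.cons (.rel (nat_lit 83887122)) (.cons (.rel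 (nat_lit 151257600)) .nil))) (.cons (.br (nat_lit 2) (.cons (.rel (nat_lit 83888136)) (.cons (.rel (nat_lit 83972097)) .nil))) .nil))) .leaf))) (nat_lit 26405877775395576) (.br (nat_lit 1) (.cons (.br (nat_lit 2) (.cons (.rel (nat_lit 83959824)) .nil)) .nil)) (.node (.node (.node .leaf (nat_lit 26405877776106224) (.br (nat_lit 0) (.cons (.br (nat_lit 3) (.cons (.rel (nat_lit 273686529)) .nil)) .nil)) .leaf) (nat_lit 26405877776107033) (.br (nat_lit 0) (.cons (.br (nat_lit 3) (.cons (.rel (nat_lit 272634120)) .nil)) .nil)) (.node .leaf (nat_lit 26405877776470776) (.br (nat_lit 5) (.cons (.br (nat_lit 0) (.cons (.rel (nat_lit 4299165825)) (.cons (.rel (nat_lit 4299296784)) .nil))) .nil)) .leaf)) (nat_lit 26406395281206029) (.br (nat_lit 0) (.cons (.br (nat_lit 2) (.cons (.rel (nat_lit 75759681)) .nil)) .nil)) (.node (.node .leaf (nat_lit 26406395281206058) (.br (nat_lit 3) (.cons (.br (nat_lit 4) (.cons (.rel (nat_lit 1342183440)) .nil)) .nil)) .leaf) (nat_lit 26406395282281258) (.br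 (nat_lit 0) (.cons (.br (nat_lit 1) (.cons (.rel (nat_lit 22021122)) .nil)) .nil)) .leaf))) (nat_lit 26406398934444784) (.br (nat_lit 1) (.cons (.br (nat_lit 3) (.cons (.rel (nat_lit 285279552)) .nil)) .nil)) (.node (.node (.node (.node .leaf (nat_lit 26406401761406489) (.br (nat_lit 0) (.cons (.br (nat_lit 1) (.cons (.rel (nat_lit 37818372)) .nil)) .nil)) .leaf) (nat_lit 26407031573443440) (.br (nat_lit 0) (.cons (.br (nat_lit 3) (.cons (.rel (nat_lit 272630085)) .nil)) .nil)) (.node .leaf (nat_lit 26407032184679660) (.br (nat_lit 3) (.cons (.br (nat_lit 2) (.cons (.rel (nat_lit 335552529)) (.cons (.rel (nat_lit 335552529)) (.cons (.rel (nat_lit 335552529)) .nil)))) .nil)) .leaf)) (nat_lit 26412356905527301) (.br (nat_lit 2) (.cons (.br (nat_lit 3) (.cons (.rel (nat_lit 604045857)) .nil)) .nil)) (.node (.node .leaf (nat_lit 26412357437674253) (.br (nat_lit 1) (.cons (.br (nat_lit 2) (.cons (.rel (nat_lit 101187840)) .nil)) .nil)) .leaf) (nat_lit 26412357941259025) (.br (nat_lit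 0) (.cons (.br (nat_lit 1) (.cons (.rel (nat_lit 20979984)) .nil)) .nil)) .leaf)) (nat_lit 26412357941521920) (.br (nat_lit 2) (.cons (.br (nat_lit 3) (.cons (.rel (nat_lit 335552529)) .nil)) .nil)) (.node (.node (.node .leaf (nat_lit 26412357944061440) (.br (nat_lit 0) (.cons (.br (nat_lit 2) (.cons (.rel (nat_lit 71307336)) .nil)) .nil)) .leaf) (nat_lit 26412359933553425) (.br (nat_lit 0) (.cons (.br (nat_lit 4) (.cons (.rel (nat_lit 1077953541)) .nil)) .nil)) (.node .leaf (nat_lit 26412359933814810) (.br (nat_lit 0) (.cons (.br (nat_lit 3) (.cons (.rel (nat_lit 273810432)) .nil)) .nil)) .leaf)) (nat_lit 26412359934822437) (.br (nat_lit 1) (.cons (.br (nat_lit 2) (.cons (.rel (nat_lit 101187840)) .nil)) .nil)) (.node (.node .leaf (nat_lit 26418807947464709) (.br (nat_lit 0) (.cons (.br (nat_lit 1) (.cons (.rel (nat_lit 25183233)) .nil)) .nil)) .leaf) (nat_lit 26419028965967385) (.br (nat_lit 1) (.cons (.br (nat_lit 2) (.cons (.rel (nat_lit 152109057)) (.cons (.rel (nat_lit 83888136))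 (.cons (.rel (nat_lit 101187840)) .nil)))) .nil)) .leaf))))

/-- refutations 68 -/
def e68 : EX := (.node (.node (.node .leaf (nat_lit 26500372940516080) (.br (nat_lit 0) (.cons (.br (nat_lit 1) (.cons (.rel (nat_lit 42221568)) .nil)) .nil)) .leaf) (nat_lit 26500372940516838) (.br (nat_lit 1) (.cons (.br (nat_lit 2) (.cons (.rel (nat_lit 83888136)) .nil)) .nil)) (.node .leaf (nat_lit 26500578999033318) (.br (nat_lit 0) (.cons (.br (nat_lit 1) (.cons (.rel (nat_lit 37814337)) .nil)) .nil)) .leaf)) (nat_lit 26500811027170685) (.br (nat_lit 0) (.cons (.br (nat_lit 3) (.cons (.rel (nat_lit 276848640)) .nil)) .nil)) (.node (.node .leaf (nat_lit 26506774107992689) (.br (nat_lit 0) (.cons (.br (nat_lit 2) (.cons (.rel (nat_lit 71303301)) .nil)) .nil)) .leaf) (nat_lit 26506774107992866) (.br (nat_lit 0) (.cons (.br (nat_lit 1) (.cons (.rel (nat_lit 20979984)) .nil)) .nil)) (.node .leaf (nat_lit 26506782587809254) (.br (nat_lit 0) (.cons (.br (nat_lit 1) (.cons (.rel (nat_lit 20972928)) .nil))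 .nil)) .leaf)))

/-- refutations 69 -/
def e69 : EX := (.node (.node (.node (.node (.node (.node .leaf (nat_lit 26599385429764133) (.br (nat_lit 3) (.cons (.br (nat_lit 0) (.cons (.rel (nat_lit 272630085)) (.cons (.rel (nat_lit 272630085)) .nil))) .nil)) .leaf) (nat_lit 26599385429765398) (.br (nat_lit 1) (.cons (.br (nat_lit 3) (.cons (.rel (nat_lit 286261284)) .nil)) .nil)) .leaf) (nat_lit 26599385430474789) (.br (nat_lit 5) (.cons (.br (nat_lit 3) (.cons (.br (nat_lit 6) (.cons (.rel (nat_lit 21475115136)) (.cons (.rel (nat_lit 17448370197)) (.cons (.rel (nat_lit 17448371202)) .nil)))) (.cons (.rel (nat_lit 4563402777)) .nil))) .nil)) (.node (.node .leaf (nat_lit 26599385430738955) (.br (nat_lit 0) (.cons (.br (nat_lit 2) (.cons (.rel (nat_lit 71303301)) .nil)) .nil)) .leaf) (nat_lit 26599385430771749) (.br (nat_lit 1) (.cons (.br (nat_lit 5) (.cons (.rel (nat_lit 4328784960)) (.cons (.rel (nat_lit 4311745620)) .nil))) (.cons (.br (nat_lit 6) (.cons (.rel (nat_lit 17196941568))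 (.cons (.rel (nat_lit 17196664896)) .nil))) .nil))) .leaf)) (nat_lit 26599385430840683) (.br (nat_lit 0) (.cons (.br (nat_lit 3) (.cons (.rel (nat_lit 272793888)) .nil)) .nil)) (.node (.node (.node .leaf (nat_lit 26599385534622477) (.br (nat_lit 0) (.cons (.br (nat_lit 2) (.cons (.rel (nat_lit 71335953)) .nil)) .nil)) .leaf) (nat_lit 26599385535435377) (.br (nat_lit 3) (.cons (.br (nat_lit 4) (.cons (.rel (nat_lit 1342242852)) .nil)) .nil)) .leaf) (nat_lit 26599385537227377) (.br (nat_lit 0) (.cons (.br (nat_lit 3) (.cons (.rel (nat_lit 272648448)) .nil)) .nil)) (.node (.node .leaf (nat_lit 26599388549856757) (.br (nat_lit 2) (.cons (.br (nat_lit 3) (.cons (.rel (nat_lit 335577120)) .nil)) .nil)) .leaf) (nat_lit 26599388552817425) (.br (nat_lit 0) (.cons (.br (nat_lit 1) (.cons (.rel (nat_lit 25493760)) .nil)) .nil)) .leaf))) (nat_lit 26599388684544661) (.br (nat_lit 3) (.cons (.br (nat_lit 6) (.cons (.rel (nat_lit 17717002242)) .nil)) .nil)) (.node (.node (.node (.node .leaf (nat_lit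 26599388685815271) (.br (nat_lit 2) (.cons (.br (nat_lit 3) (.cons (.rel (nat_lit 335545473)) .nil)) .nil)) .leaf) (nat_lit 26599388687083550) (.br (nat_lit 0) (.cons (.br (nat_lit 3) (.cons (.rel (nat_lit 273678468)) .nil)) .nil)) .leaf) (nat_lit 26599391092074752) (.br (nat_lit 2) (.cons (.br (nat_lit 6) (.cons (.rel (nat_lit 17247241344)) .nil)) .nil)) (.node (.node .leaf (nat_lit 26599391092075806) (.br (nat_lit 2) (.cons (.br (nat_lit 3) (.cons (.rel (nat_lit 604259328)) .nil)) .nil)) .leaf) (nat_lit 26599391285014012) (.br (nat_lit 2) (.cons (.br (nat_lit 4) (.cons (.rel (nat_lit 1141243908)) .nil)) .nil)) .leaf)) (nat_lit 26599391286283772) (.br (nat_lit 1) (.cons (.br (nat_lit 3) (.cons (.rel (nat_lit 285245697)) .nil)) .nil)) (.node (.node (.node .leaf (nat_lit 26599391319643372) (.br (nat_lit 2) (.cons (.br (nat_lit 3) (.cons (.rel (nat_lit 335545473)) .nil)) .nil)) .leaf) (nat_lit 26599391804650224) (.br (nat_lit 3) (.cons (.br (nat_lit 6) (.cons (.rel (nat_lit 17448309780))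 .nil)) .nil)) .leaf) (nat_lit 26600948690912117) (.br (nat_lit 0) (.cons (.br (nat_lit 1) (.cons (.rel (nat_lit 20992257)) .nil)) .nil)) (.node (.node .leaf (nat_lit 26605870935239437) (.br (nat_lit 0) (.cons (.br (nat_lit 2) (.cons (.rel (nat_lit 142610433)) .nil)) .nil)) .leaf) (nat_lit 26606054766933394) (.br (nat_lit 1) (.cons (.br (nat_lit 3) (.cons (.rel (nat_lit 285233424)) .nil)) .nil)) .leaf)))) (nat_lit 26606054768448273) (.br (nat_lit 1) (.cons (.br (nat_lit 3) (.cons (.rel (nat_lit 286347264)) .nil)) .nil)) (.node (.node (.node (.node (.node .leaf (nat_lit 26606054769429906) (.br (nat_lit 4) (.cons (.br (nat_lit 1) (.cons (.rel (nat_lit 1090539522)) (.cons (.rel (nat_lit 1090535496)) .nil))) .nil)) .leaf) (nat_lit 26606054769623077) (.br (nat_lit 0) (.cons (.br (nat_lit 3) (.cons (.rel (nat_lit 273678468)) .nil)) .nil)) .leaf) (nat_lit 26606320564168211) (.br (nat_lit 3) (.cons (.br (nat_lit 5) (.cons (.rel (nat_lit 4563402777)) .nil)) .nil)) (.node (.node .leaf (nat_lit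 26606320565857811) (.br (nat_lit 0) (.cons (.br (nat_lit 2) (.cons (.rel (nat_lit 71311362)) .nil)) .nil)) .leaf) (nat_lit 26611626087632933) (.br (nat_lit 0) (.cons (.br (nat_lit 6) (.cons (.rel (nat_lit 17184227328)) .nil)) .nil)) .leaf)) (nat_lit 26612321854482458) (.br (nat_lit 3) (.cons (.br (nat_lit 6) (.cons (.rel (nat_lit 17448443904)) .nil)) .nil)) (.node (.node (.node .leaf (nat_lit 26612321871259685) (.br (nat_lit 0) (.cons (.br (nat_lit 3) (.cons (.rel (nat_lit 272696592)) .nil)) .nil)) .leaf) (nat_lit 26612321872267301) (.br (nat_lit 1) (.cons (.br (nat_lit 2) (.cons (.rel (nat_lit 167773188)) .nil)) .nil)) .leaf) (nat_lit 26612321993953285) (.br (nat_lit 1) (.cons (.br (nat_lit 3) (.cons (.rel (nat_lit 553653249)) .nil)) .nil)) (.node (.node .leaf (nat_lit 26612325127098993) (.br (nat_lit 6) (.cons (.br (nat_lit 2) (.cons (.rel (nat_lit 34493972736)) (.cons (.rel (nat_lit 17247260673)) .nil))) .nil)) .leaf) (nat_lit 26612328246601754) (.br (nat_lit 3) (.cons (.br (nat_lit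 4) (.cons (.rel (nat_lit 1342185600)) .nil)) .nil)) .leaf))) (nat_lit 26612356230527601) (.br (nat_lit 0) (.cons (.br (nat_lit 2) (.cons (.rel (nat_lit 71303301)) .nil)) .nil)) (.node (.node (.node (.node .leaf (nat_lit 26612356230981669) (.br (nat_lit 0) (.cons (.br (nat_lit 3) (.cons (.rel (nat_lit 273711120)) .nil)) .nil)) .leaf) (nat_lit 26612356230982417) (.br (nat_lit 0) (.cons (.br (nat_lit 2) (.cons (.rel (nat_lit 71321664)) .nil)) .nil)) .leaf) (nat_lit 26612356230998053) (.br (nat_lit 5) (.cons (.br (nat_lit 6) (.cons (.rel (nat_lit 42949674240)) .nil)) .nil)) (.node (.node .leaf (nat_lit 26612356231708709) (.br (nat_lit 5) (.cons (.br (nat_lit 6) (.cons (.br (nat_lit 3) (.cons (.rel (nat_lit 17448371202)) (.cons (.rel (nat_lit 4563402777)) .nil))) .nil)) .nil)) .leaf) (nat_lit 26612356232058219) (.br (nat_lit 1) (.cons (.br (nat_lit 3) (.cons (.rel (nat_lit 570691584)) .nil)) .nil)) .leaf)) (nat_lit 26612356232073841) (.br (nat_lit 2) (.cons (.br (nat_lit 3) (.cons (.rel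 (nat_lit 335545473)) .nil)) .nil)) (.node (.node (.node .leaf (nat_lit 26612359351100924) (.br (nat_lit 1) (.cons (.br (nat_lit 3) (.cons (.rel (nat_lit 553713666)) .nil)) .nil)) .leaf) (nat_lit 26612359352619633) (.br (nat_lit 0) (.cons (.br (nat_lit 2) (.cons (.rel (nat_lit 71323680)) .nil)) .nil)) .leaf) (nat_lit 26612359822298620) (.br (nat_lit 1) (.cons (.br (nat_lit 2) (.cons (.rel (nat_lit 83888136)) .nil)) .nil)) (.node .leaf (nat_lit 26612362606340122) (.br (nat_lit 3) (.cons (.br (nat_lit 4) (.cons (.rel (nat_lit 1342185600)) (.cons (.rel (nat_lit 1342185600)) .nil))) .nil)) .leaf)))))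

/-- refutations 70 -/
def e70 : EX := (.node (.node (.node (.node (.node (.node .leaf (nat_lit 26828084498459249) (.br (nat_lit 0) (.cons (.br (nat_lit 1) (.cons (.rel (nat_lit 20992257)) .nil)) .nil)) .leaf) (nat_lit 26828084499217771) (.br (nat_lit 1) (.cons (.br (nat_lit 2) (.cons (.rel (nat_lit 151257600)) .nil)) .nil)) .leaf) (nat_lit 26828090242974501) (.br (nat_lit 5) (.cons (.br (nat_lit 1) (.cons (.rel (nat_lit 8623509504)) (.cons (.rel (nat_lit 8606716242)) .nil))) .nil)) (.node .leaf (nat_lit 26834741488052230) (.br (nat_lit 0) (.cons (.br (nat_lit 1) (.cons (.rel (nat_lit 37748880)) .nil)) .nil)) .leaf)) (nat_lit 26834741489119857) (.br (nat_lit 0) (.cons (.br (nat_lit 2) (.cons (.rel (nat_lit 71323680)) .nil)) .nil)) (.node (.node (.node .leaf (nat_lit 26834744591837190) (.br (nat_lit 2) (.cons (.br (nat_lit 3) (.cons (.rel (nat_lit 335577120)) .nil)) .nil)) .leaf) (nat_lit 26834744591838464) (.br (nat_lit 0) (.cons (.br (nat_lit 1) (.cons (.rel (nat_lit 39059457))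 .nil)) .nil)) .leaf) (nat_lit 26834744591838621) (.br (nat_lit 2) (.cons (.br (nat_lit 6) (.cons (.rel (nat_lit 17247241344)) .nil)) .nil)) (.node .leaf (nat_lit 26834744591838689) (.br (nat_lit 2) (.cons (.br (nat_lit 6) (.cons (.rel (nat_lit 17249141760)) (.cons (.rel (nat_lit 17249141760)) .nil))) .nil)) .leaf))) (nat_lit 26834744592861845) (.br (nat_lit 1) (.cons (.br (nat_lit 2) (.cons (.rel (nat_lit 85262340)) .nil)) .nil)) (.node (.node (.node (.node .leaf (nat_lit 26834744592862689) (.br (nat_lit 2) (.cons (.br (nat_lit 3) (.cons (.rel (nat_lit 335549508)) .nil)) .nil)) .leaf) (nat_lit 26834744594350361) (.br (nat_lit 0) (.cons (.br (nat_lit 1) (.cons (.rel (nat_lit 37818372)) .nil)) .nil)) .leaf) (nat_lit 26834744594350365) (.br (nat_lit 0) (.cons (.br (nat_lit 2) (.cons (.rel (nat_lit 71311362)) .nil)) .nil)) (.node .leaf (nat_lit 26841198480648222) (.br (nat_lit 1) (.cons (.br (nat_lit 4) (.cons (.rel (nat_lit 1090520193)) .nil)) .nil)) .leaf)) (nat_lit 26841489409699902)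 (.br (nat_lit 0) (.cons (.br (nat_lit 3) (.cons (.rel (nat_lit 276824082)) .nil)) .nil)) (.node (.node (.node .leaf (nat_lit 26846109079040625) (.br (nat_lit 1) (.cons (.br (nat_lit 3) (.cons (.rel (nat_lit 553648209)) .nil)) .nil)) .leaf) (nat_lit 26846109079241329) (.br (nat_lit 3) (.cons (.br (nat_lit 5) (.cons (.rel (nat_lit 4564717569)) .nil)) .nil)) .leaf) (nat_lit 26846109079489264) (.br (nat_lit 1) (.cons (.br (nat_lit 2) (.cons (.rel (nat_lit 84017220)) .nil)) .nil)) (.node .leaf (nat_lit 26846109079497481) (.br (nat_lit 1) (.cons (.br (nat_lit 6) (.cons (.rel (nat_lit 17215520832)) (.cons (.rel (nat_lit 34393296897)) .nil))) .nil)) .leaf)))) (nat_lit 26846109079498204) (.br (nat_lit 1) (.cons (.br (nat_lit 6) (.cons (.br (nat_lit 3) (.cons (.rel (nat_lit 570691584)) (.cons (.rel (nat_lit 34628698113)) .nil))) .nil)) .nil)) (.node (.node (.node (.node (.node .leaf (nat_lit 26846109080208860) (.br (nat_lit 2) (.cons (.br (nat_lit 5) (.cons (.rel (nat_lit 4429185093)) .nil))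 .nil)) .leaf) (nat_lit 26846109080309811) (.br (nat_lit 2) (.cons (.br (nat_lit 5) (.cons (.rel (nat_lit 4362342402)) (.cons (.rel (nat_lit 4362338376)) .nil))) .nil)) .leaf) (nat_lit 26846109080310537) (.br (nat_lit 2) (.cons (.br (nat_lit 5) (.cons (.rel (nat_lit 4362342402)) .nil)) .nil)) (.node .leaf (nat_lit 26846109080311260) (.br (nat_lit 3) (.cons (.br (nat_lit 4) (.cons (.rel (nat_lit 1342183440)) .nil)) .nil)) .leaf)) (nat_lit 26846109080767089) (.br (nat_lit 2) (.cons (.br (nat_lit 4) (.cons (.rel (nat_lit 2214592593)) .nil)) .nil)) (.node (.node (.node .leaf (nat_lit 26846109081740775) (.br (nat_lit 1) (.cons (.br (nat_lit 6) (.cons (.rel (nat_lit 17196664896)) .nil)) .nil)) .leaf) (nat_lit 26851133898691990) (.br (nat_lit 0) (.cons (.br (nat_lit 1) (.cons (.rel (nat_lit 37818372)) .nil)) .nil)) .leaf) (nat_lit 26851134192241921) (.br (nat_lit 0) (.cons (.br (nat_lit 1) (.cons (.rel (nat_lit 22093824)) .nil)) .nil)) (.node .leaf (nat_lit 26852344524762588) (.br (nat_lit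 4) (.cons (.br (nat_lit 6) (.cons (.rel (nat_lit 18253677060)) .nil)) .nil)) .leaf))) (nat_lit 26852345078393457) (.br (nat_lit 4) (.cons (.br (nat_lit 6) (.cons (.rel (nat_lit 18253677060)) .nil)) .nil)) (.node (.node (.node (.node .leaf (nat_lit 26852345078394343) (.br (nat_lit 2) (.cons (.br (nat_lit 5) (.cons (.rel (nat_lit 4363141440)) .nil)) .nil)) .leaf) (nat_lit 26852348140962573) (.br (nat_lit 4) (.cons (.br (nat_lit 6) (.cons (.rel (nat_lit 19327483968)) .nil)) .nil)) .leaf) (nat_lit 26852348142486285) (.br (nat_lit 1) (.cons (.br (nat_lit 3) (.cons (.rel (nat_lit 285279552)) .nil)) .nil)) (.node .leaf (nat_lit 26853625273324946) (.br (nat_lit 1) (.cons (.br (nat_lit 3) (.cons (.rel (nat_lit 285245697)) .nil)) .nil)) .leaf)) (nat_lit 26853625274508690) (.br (nat_lit 4) (.cons (.br (nat_lit 6) (.cons (.rel (nat_lit 18253612608)) .nil)) .nil)) (.node (.node (.node .leaf (nat_lit 26853625274767985) (.br (nat_lit 0) (.cons (.br (nat_lit 1) (.cons (.rel (nat_lit 21037380)) .nil))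 .nil)) .leaf) (nat_lit 26857585234093458) (.br (nat_lit 3) (.cons (.br (nat_lit 5) (.cons (.rel (nat_lit 4563404832)) .nil)) .nil)) .leaf) (nat_lit 26858650384001061) (.br (nat_lit 1) (.cons (.br (nat_lit 3) (.cons (.rel (nat_lit 285279552)) .nil)) .nil)) (.node .leaf (nat_lit 26858653154476813) (.br (nat_lit 1) (.cons (.br (nat_lit 3) (.cons (.rel (nat_lit 570691584)) .nil)) .nil)) .leaf)))))

/-- refutations 71 -/
def e71 : EX := (.node (.node (.node (.node (.node .leaf (nat_lit 26951765287562741) (.br (nat_lit 3) (.cons (.br (nat_lit 5) (.cons (.br (nat_lit 1) (.cons (.rel (nat_lit 4596957456)) (.cons (.rel (nat_lit 4580181504)) .nil))) .nil)) .nil)) .leaf) (nat_lit 26951765288374447) (.br (nat_lit 3) (.cons (.br (nat_lit 5) (.cons (.rel (nat_lit 4563423300)) .nil)) .nil)) .leaf) (nat_lit 26951765289897461) (.br (nat_lit 0) (.cons (.br (nat_lit 3) (.cons (.rel (nat_lit 272696592)) .nil)) .nil)) (.node .leaf (nat_lit 26953422335438105) (.br (nat_lit 0) (.cons (.br (nat_lit 2) (.cons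 (.rel (nat_lit 77594640)) .nil)) .nil)) .leaf)) (nat_lit 26957986190867057) (.br (nat_lit 0) (.cons (.br (nat_lit 2) (.cons (.rel (nat_lit 75563520)) .nil)) .nil)) (.node (.node (.node .leaf (nat_lit 26962010545701016) (.br (nat_lit 1) (.cons (.br (nat_lit 4) (.cons (.rel (nat_lit 1090535496)) .nil)) .nil)) .leaf) (nat_lit 26962010546169862) (.br (nat_lit 0) (.cons (.br (nat_lit 1) (.cons (.rel (nat_lit 25165920)) .nil)) .nil)) .leaf) (nat_lit 26962010546170481) (.br (nat_lit 1) (.cons (.br (nat_lit 2) (.cons (.rel (nat_lit 83888136)) (.cons (.rel (nat_lit 101187840)) .nil))) .nil)) (.node .leaf (nat_lit 26962010546171407) (.br (nat_lit 0) (.cons (.br (nat_lit 2) (.cons (.rel (nat_lit 72352260)) .nil)) .nil)) .leaf))) (nat_lit 26962010548273304) (.br (nat_lit 2) (.cons (.br (nat_lit 4) (.cons (.rel (nat_lit 2281705728)) .nil)) .nil)) (.node (.node (.node (.node .leaf (nat_lit 26962010548274539) (.br (nat_lit 0) (.cons (.br (nat_lit 1) (.cons (.rel (nat_lit 20992257)) .nil)) .nil))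 .leaf) (nat_lit 26962010548274703) (.br (nat_lit 0) (.cons (.br (nat_lit 1) (.cons (.rel (nat_lit 22021122)) .nil)) .nil)) .leaf) (nat_lit 26962010548712049) (.br (nat_lit 0) (.cons (.br (nat_lit 5) (.cons (.rel (nat_lit 4299243600)) .nil)) .nil)) (.node .leaf (nat_lit 26962010548712811) (.br (nat_lit 0) (.cons (.br (nat_lit 2) (.cons (.rel (nat_lit 71386116)) .nil)) .nil)) .leaf)) (nat_lit 26962012270842481) (.br (nat_lit 3) (.cons (.br (nat_lit 0) (.cons (.rel (nat_lit 273155136)) (.cons (.rel (nat_lit 273711120)) .nil))) .nil)) (.node (.node .leaf (nat_lit 26964372778182808) (.br (nat_lit 0) (.cons (.br (nat_lit 1) (.cons (.rel (nat_lit 20972928)) .nil)) .nil)) .leaf) (nat_lit 26964372778996337) (.br (nat_lit 0) (.cons (.br (nat_lit 3) (.cons (.rel (nat_lit 272696592)) .nil)) .nil)) (.node .leaf (nat_lit 26964372780287504) (.br (nat_lit 0) (.cons (.br (nat_lit 1) (.cons (.rel (nat_lit 22021122)) .nil)) .nil)) .leaf))))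

/-- refutations 72 -/
def e72 : EX := (.node (.node (.node (.node (.node .leaf (nat_lit 27004005599262780) (.br (nat_lit 2) (.cons (.br (nat_lit 0) (.cons (.rel (nat_lit 142610433)) (.cons (.rel (nat_lit 71434260)) .nil))) .nil)) .leaf) (nat_lit 27004005599277116) (.br (nat_lit 1) (.cons (.br (nat_lit 2) (.cons (.rel (nat_lit 150995217)) .nil)) .nil)) (.node .leaf (nat_lit 27004005599277712) (.br (nat_lit 0) (.cons (.br (nat_lit 5) (.cons (.rel (nat_lit 4299195456)) .nil)) .nil)) .leaf)) (nat_lit 27004005599724145) (.br (nat_lit 0) (.cons (.br (nat_lit 3) (.cons (.rel (nat_lit 541067268)) .nil)) .nil)) (.node (.node .leaf (nat_lit 27004005599734385) (.br (nat_lit 4) (.cons (.br (nat_lit 1) (.cons (.rel (nat_lit 1090551840)) (.cons (.rel (nat_lit 1090539522)) .nil))) .nil)) .leaf) (nat_lit 27004005600445097) (.br (nat_lit 0) (.cons (.br (nat_lit 2) (.cons (.rel (nat_lit 71311362)) .nil)) .nil)) .leaf)) (nat_lit 27004005600445168) (.br (nat_lit 1) (.cons (.br (nat_lit 2) (.cons (.rel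 (nat_lit 83888136)) .nil)) .nil)) (.node (.node (.node .leaf (nat_lit 27004005600445301) (.br (nat_lit 0) (.cons (.br (nat_lit 1) (.cons (.rel (nat_lit 20972928)) .nil)) .nil)) .leaf) (nat_lit 27004005601977830) (.br (nat_lit 1) (.cons (.br (nat_lit 0) (.cons (.rel (nat_lit 22093824)) (.cons (.rel (nat_lit 22021122)) .nil))) .nil)) (.node .leaf (nat_lit 27004489366094449) (.br (nat_lit 0) (.cons (.br (nat_lit 1) (.cons (.rel (nat_lit 20992257)) .nil)) .nil)) .leaf)) (nat_lit 27004490330781756) (.br (nat_lit 4) (.cons (.br (nat_lit 5) (.cons (.rel (nat_lit 5369762049)) .nil)) .nil)) (.node (.node .leaf (nat_lit 27004490330784545) (.br (nat_lit 2) (.cons (.br (nat_lit 4) (.cons (.rel (nat_lit 2214608901)) .nil)) .nil)) .leaf) (nat_lit 27004490331252793) (.br (nat_lit 3) (.cons (.br (nat_lit 5) (.cons (.rel (nat_lit 4563406992)) .nil)) .nil)) .leaf))) (nat_lit 27010748697917500) (.br (nat_lit 2) (.cons (.br (nat_lit 6) (.cons (.rel (nat_lit 17314152513)) .nil)) .nil)) (.node (.node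 (.node (.node .leaf (nat_lit 27010748698379745) (.br (nat_lit 1) (.cons (.br (nat_lit 2) (.cons (.rel (nat_lit 83886117)) .nil)) .nil)) .leaf) (nat_lit 27010748698389760) (.br (nat_lit 1) (.cons (.br (nat_lit 4) (.cons (.br (nat_lit 5) (.cons (.rel (nat_lit 5369106432)) .nil)) .nil)) .nil)) (.node .leaf (nat_lit 27010752393101937) (.br (nat_lit 2) (.cons (.br (nat_lit 3) (.cons (.rel (nat_lit 336855045)) .nil)) .nil)) .leaf)) (nat_lit 27010752393114401) (.br (nat_lit 1) (.cons (.br (nat_lit 2) (.cons (.rel (nat_lit 83888136)) .nil)) .nil)) (.node (.node .leaf (nat_lit 27010752393256412) (.br (nat_lit 1) (.cons (.br (nat_lit 2) (.cons (.rel (nat_lit 83886117)) .nil)) .nil)) .leaf) (nat_lit 27010752393570339) (.br (nat_lit 2) (.cons (.br (nat_lit 5) (.cons (.rel (nat_lit 4362080784)) .nil)) .nil)) .leaf)) (nat_lit 27010752393570361) (.br (nat_lit 2) (.cons (.br (nat_lit 5) (.cons (.rel (nat_lit 4362342402)) (.cons (.rel (nat_lit 8657051652)) (.cons (.rel (nat_lit 4429189128)) .nil))))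 .nil)) (.node (.node (.node .leaf (nat_lit 27010752393571590) (.br (nat_lit 0) (.cons (.br (nat_lit 2) (.cons (.rel (nat_lit 75563520)) .nil)) .nil)) .leaf) (nat_lit 27010752394320497) (.br (nat_lit 2) (.cons (.br (nat_lit 3) (.cons (.rel (nat_lit 335545473)) .nil)) .nil)) (.node .leaf (nat_lit 27016954327057136) (.br (nat_lit 1) (.cons (.br (nat_lit 2) (.cons (.rel (nat_lit 83888136)) .nil)) .nil)) .leaf)) (nat_lit 27017205090943638) (.br (nat_lit 0) (.cons (.br (nat_lit 2) (.cons (.rel (nat_lit 72352260)) .nil)) .nil)) (.node (.node .leaf (nat_lit 27017362947441265) (.br (nat_lit 0) (.cons (.br (nat_lit 1) (.cons (.rel (nat_lit 20992257)) .nil)) .nil)) .leaf) (nat_lit 27017362947553340) (.br (nat_lit 2) (.cons (.br (nat_lit 3) (.cons (.rel (nat_lit 604259328)) (.cons (.rel (nat_lit 335552529)) (.cons (.rel (nat_lit 335577120)) .nil)))) .nil)) .leaf))))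

/-- refutations 73 -/
def e73 : EX := (.node (.node (.node (.node (.node .leaf (nat_lit 27039190081585189) (.br (nat_lit 6) (.cons (.br (nat_lit 2) (.cons (.rel (nat_lit 34493972736)) (.cons (.rel (nat_lit 17247272994)) .nil))) .nil)) .leaf) (nat_lit 27039190081585404) (.br (nat_lit 1) (.cons (.br (nat_lit 3) (.cons (.rel (nat_lit 285245697)) .nil)) .nil)) (.node .leaf (nat_lit 27039190081847333) (.br (nat_lit 2) (.cons (.br (nat_lit 6) (.cons (.rel (nat_lit 17247260673)) .nil)) .nil)) .leaf)) (nat_lit 27039190082855164) (.br (nat_lit 1) (.cons (.br (nat_lit 3) (.cons (.rel (nat_lit 285245697)) .nil)) .nil)) (.node (.node .leaf (nat_lit 27039190083479589) (.br (nat_lit 1) (.cons (.br (nat_lit 3) (.cons (.rel (nat_lit 286294080)) .nil)) .nil)) .leaf) (nat_lit 27039193872526089) (.br (nat_lit 0) (.cons (.br (nat_lit 2) (.cons (.rel (nat_lit 71303301)) .nil)) .nil)) .leaf)) (nat_lit 27039195299596325) (.br (nat_lit 0) (.cons (.br (nat_lit 1) (.cons (.rel (nat_lit 21037380)) .nil))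 .nil)) (.node (.node (.node .leaf (nat_lit 27039195759962737) (.br (nat_lit 1) (.cons (.br (nat_lit 3) (.cons (.rel (nat_lit 553652244)) .nil)) .nil)) .leaf) (nat_lit 27039619472730174) (.br (nat_lit 0) (.cons (.br (nat_lit 2) (.cons (.rel (nat_lit 71303301)) .nil)) .nil)) .leaf) (nat_lit 27039619474989681) (.br (nat_lit 0) (.cons (.br (nat_lit 1) (.cons (.rel (nat_lit 22093824)) .nil)) .nil)) (.node (.node .leaf (nat_lit 27041810010925681) (.br (nat_lit 2) (.cons (.br (nat_lit 3) (.cons (.rel (nat_lit 335564802)) .nil)) .nil)) .leaf) (nat_lit 27041810011635749) (.br (nat_lit 1) (.cons (.br (nat_lit 2) (.cons (.rel (nat_lit 167773188)) .nil)) .nil)) .leaf))) (nat_lit 27041810011932924) (.br (nat_lit 1) (.cons (.br (nat_lit 3) (.cons (.rel (nat_lit 285745152)) .nil)) .nil)) (.node (.node (.node (.node .leaf (nat_lit 27041810012905724) (.br (nat_lit 6) (.cons (.br (nat_lit 0) (.cons (.rel (nat_lit 17184068613)) (.cons (.rel (nat_lit 17184063573)) .nil))) .nil)) .leaf) (nat_lit 27041810013530294)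 (.br (nat_lit 1) (.cons (.br (nat_lit 2) (.cons (.rel (nat_lit 83952768)) .nil)) .nil)) (.node .leaf (nat_lit 27045890124982334) (.br (nat_lit 0) (.cons (.br (nat_lit 1) (.cons (.rel (nat_lit 22021122)) .nil)) .nil)) .leaf)) (nat_lit 27046168797095941) (.br (nat_lit 1) (.cons (.br (nat_lit 2) (.cons (.rel (nat_lit 101187840)) .nil)) .nil)) (.node (.node .leaf (nat_lit 27052126417513959) (.br (nat_lit 0) (.cons (.br (nat_lit 3) (.cons (.rel (nat_lit 273678468)) .nil)) .nil)) .leaf) (nat_lit 27052526877076981) (.br (nat_lit 2) (.cons (.br (nat_lit 5) (.cons (.rel (nat_lit 4364174340)) .nil)) .nil)) .leaf)) (nat_lit 27052526879318071) (.br (nat_lit 0) (.cons (.br (nat_lit 2) (.cons (.rel (nat_lit 75759681)) .nil)) .nil)) (.node (.node (.node .leaf (nat_lit 27305452892307708) (.br (nat_lit 1) (.cons (.br (nat_lit 2) (.cons (.rel (nat_lit 83888136)) .nil)) .nil)) .leaf) (nat_lit 27305453222946876) (.br (nat_lit 1) (.cons (.br (nat_lit 3) (.cons (.rel (nat_lit 302060544)) .nil)) .nil))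 .leaf) (nat_lit 27309968391915033) (.br (nat_lit 0) (.cons (.br (nat_lit 1) (.cons (.rel (nat_lit 20972928)) .nil)) .nil)) (.node (.node .leaf (nat_lit 27373445408182277) (.br (nat_lit 2) (.cons (.br (nat_lit 5) (.cons (.rel (nat_lit 8657051652)) .nil)) .nil)) .leaf) (nat_lit 27373446753434352) (.br (nat_lit 0) (.cons (.br (nat_lit 1) (.cons (.rel (nat_lit 20992257)) .nil)) .nil)) .leaf))))

/-- refutations 74 -/
def e74 : EX := (.node (.node (.node (.node (.node .leaf (nat_lit 27391036502887650) (.br (nat_lit 0) (.cons (.br (nat_lit 1) (.cons (.rel (nat_lit 20972928)) .nil)) .nil)) .leaf) (nat_lit 27391040214592113) (.br (nat_lit 0) (.cons (.br (nat_lit 2) (.cons (.rel (nat_lit 71323680)) .nil)) .nil)) .leaf) (nat_lit 27397780486548256) (.br (nat_lit 0) (.cons (.br (nat_lit 1) (.cons (.rel (nat_lit 22021122)) .nil)) .nil)) (.node .leaf (nat_lit 27397780486548966) (.br (nat_lit 0) (.cons (.br (nat_lit 4) (.cons (.rel (nat_lit 1078022208)) .nil)) .nil)) .leaf)) (nat_lit 27397971020738590)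 (.br (nat_lit 1) (.cons (.br (nat_lit 3) (.cons (.rel (nat_lit 285344004)) .nil)) .nil)) (.node (.node (.node .leaf (nat_lit 27397971021195446) (.br (nat_lit 1) (.cons (.br (nat_lit 5) (.cons (.rel (nat_lit 4311785472)) (.cons (.rel (nat_lit 4311785472)) .nil))) .nil)) .leaf) (nat_lit 27397972292050406) (.br (nat_lit 0) (.cons (.br (nat_lit 4) (.cons (.rel (nat_lit 1078001685)) .nil)) .nil)) .leaf) (nat_lit 27397972292070876) (.br (nat_lit 1) (.cons (.br (nat_lit 0) (.cons (.rel (nat_lit 22021122)) (.cons (.rel (nat_lit 22040640)) .nil))) .nil)) (.node .leaf (nat_lit 27397972292780657) (.br (nat_lit 5) (.cons (.br (nat_lit 3) (.cons (.rel (nat_lit 4563402777)) (.cons (.rel (nat_lit 8858910720)) (.cons (.br (nat_lit 0) (.cons (.rel (nat_lit 8598323205)) (.cons (.rel (nat_lit 8598323205)) (.cons (.rel (nat_lit 4299161610)) (.cons (.rel (nat_lit 4299296784)) (.cons (.rel (nat_lit 4567879680)) .nil)))))) .nil)))) .nil)) .leaf))) (nat_lit 27397972294173297) (.br (nat_lit 5) (.cons (.br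 (nat_lit 4) (.cons (.rel (nat_lit 9663680544)) (.cons (.rel (nat_lit 5368709640)) .nil))) .nil)) (.node (.node (.node (.node .leaf (nat_lit 27397972294312096) (.br (nat_lit 0) (.cons (.br (nat_lit 3) (.cons (.rel (nat_lit 272630085)) .nil)) .nil)) .leaf) (nat_lit 27397972294312561) (.br (nat_lit 5) (.cons (.br (nat_lit 0) (.cons (.rel (nat_lit 8598323205)) (.cons (.br (nat_lit 2) (.cons (.rel (nat_lit 71434260)) (.cons (.rel (nat_lit 71323680)) (.cons (.rel (nat_lit 4362405888)) .nil)))) (.cons (.br (nat_lit 2) (.cons (.rel (nat_lit 71311362)) (.cons (.rel (nat_lit 71307336)) (.cons (.rel (nat_lit 4362405888)) .nil)))) .nil)))) .nil)) .leaf) (nat_lit 27397972294312736) (.br (nat_lit 1) (.cons (.br (nat_lit 2) (.cons (.rel (nat_lit 83887122)) (.cons (.rel (nat_lit 83886117)) .nil))) .nil)) (.node .leaf (nat_lit 27404393901260857) (.br (nat_lit 1) (.cons (.br (nat_lit 2) (.cons (.rel (nat_lit 83888136)) .nil)) .nil)) .leaf)) (nat_lit 27404393901262337) (.br (nat_lit 1) (.cons (.br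 (nat_lit 2) (.cons (.rel (nat_lit 83959824)) .nil)) .nil)) (.node (.node .leaf (nat_lit 27404394921443953) (.br (nat_lit 4) (.cons (.br (nat_lit 5) (.cons (.rel (nat_lit 6442471425)) .nil)) .nil)) .leaf) (nat_lit 27404394921444865) (.br (nat_lit 1) (.cons (.br (nat_lit 2) (.cons (.rel (nat_lit 83887122)) .nil)) .nil)) (.node .leaf (nat_lit 27474760002805820) (.br (nat_lit 0) (.cons (.br (nat_lit 2) (.cons (.rel (nat_lit 71374848)) .nil)) .nil)) .leaf))))

/-- list of the parts -/
def L0 : List (ℕ × List ℕ) := [(nat_lit 0x40, [Nat.sub (Nat.pow 2 265) (Nat.pow 2 0), Nat.sub (Nat.pow 2 941) (Nat.pow 2 265), Nat.sub (Nat.pow 2 1530) (Nat.pow 2 941), Nat.sub (Nat.pow 2 3136) (Nat.pow 2 1530)]),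
  (nat_lit 0x10, [cP]),
  (nat_lit 0x400, [cP]),
  (nat_lit 0x60000000, [cP]),
  (nat_lit 0x11000000000, [cP]),
  (nat_lit 0x40000000000000, [cP]),
  (nat_lit 0x180000000000000, [cP]),
  (nat_lit 0x200000000000000060800000000000000, [cP]),
  (nat_lit 0x110000004800000000000000000000000000000000, [cP]),
  (nat_lit 0x2000000000000000000000000000000000000000000000, [cP]),
  (nat_lit 0x30000000000000000000000000000000000000000000000, [cP]),
  (nat_lit 0xc000000000000000000000000000000000000000000000000000000000000000, [cP]),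
  (nat_lit 0x10000000000000000000000000000000000000000000000000000000000000000, [cP]),
  (nat_lit 0x200000000000000000000000000000000000000000000000000000000000000000, [cP]),
  (nat_lit 0x5000000000000000000000000000000000000000000000000000000000000000000, [cP]),
  (nat_lit 0x130000000000000000000000000000000000000000000000000000000000000000000000, [cP]),
  (nat_lit 0x2000000000000000000000000000000000000000000000000000000000000000000000000, [cP]),
  (nat_lit 0x8000000000000000000000000000000000000000000000000000000000000000000000000000000, [cP]),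
  (nat_lit 0x400000000000000000000000000000000000000000000000000000000000000000000000000000000000000000000000000000000000000000000000000000000000000000000000000000000000000, [cP]),
  (nat_lit 0x9800000000000000000000000000000000000000000000000000000000000000000000000000000000000000000000000000000000000000000000000000000000000000000000000000000000000000, [cP]),
  (nat_lit 0x100020000000000000000000000000000000000000000000000000000000000000000000000000000000000000000000000000000000000000000000000000000000000000000000000000000000000000000, [cP]),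
  (nat_lit 0x800000000000000000000000000000000000000000000000000000000000000000000000000000000000000000000000000000000000000000000000000000000000000000000000000000000000000000000, [cP]),
  (nat_lit 0x2000000000000000000000000000000000000000000000000000000000000000000000000000000000000000000000000000000000000000000000000000000000000000000000000000000000000000000000, [cP]),
  (nat_lit 0x20000000000000000000000000000000000000000000000000000000000000000000000000000000000000000000000000000000000000000000000000000000000000000000000000000000000000000000000, [cP]),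
  (nat_lit 0x40000000000000000000000000000000000000000000000000000000000000000000000000000000000000000000000000000000000000000000000000000000000000000000000000000000000000000000000, [cP]),
  (nat_lit 0x300000000000000000000000000000000000000000000000000000000000000000000000000000000000000000000000000000000000000000000000000000000000000000000000000000000000000000000000000, [cP]),
  (nat_lit 0x400000000000000000000000000000000000000000000000000000000000000000000000000000000000000000000000000000000000000000000000000000000000000000000000000000000000000000000000000000000000000000000, [Nat.sub (Nat.pow 2 54) (Nat.pow 2 0), Nat.sub (Nat.pow 2 779) (Nat.pow 2 54), Nat.sub (Nat.pow 2 936) (Nat.pow 2 779), Nat.sub (Nat.pow 2 1514) (Nat.pow 2 936), Nat.sub (Nat.pow 2 3136) (Nat.pow 2 1514)]),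
  (nat_lit 0x2000000000000000000000000000000000000000000000000000000000000000000000000000000000000000000000000000000000000000000000000000000000000000000000000000000000000000000000000000, [cP]),
  (nat_lit 0x120000000000000000000000000000000000000000000000000000000000000000000000000000000000000000000000000000000000000000000000000000000000000000000000000000000000000000000000000000000000000000000000, [cP]),
  (nat_lit 0x200000000000000000000000000000000000000000000000000000000000000000000000000000000000000000000000000000000000000000000000000000000000000000000000000000000000000000000000000000000000000000000000, [cP]),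
  (nat_lit 0x22000000000000000000000000000000000000000000000000000000000000000000000000000000000000000000000000000000000000000000000000000000000000000000000000000000000000000000000000000000000000000000000000000, [cP]),
  (nat_lit 0x40000000000000000000000000000000000000000000000000000000000000000000000000000000000000000000000000000000000000000000000000000000000000000000000000000000000000000000000000000000000000000000000000000, [cP]),
  (nat_lit 0x800000000000000000000000000000000000000000000000000000000000000000000000000000000000000000000000000000000000000000000000000000000000000000000000000000000000000000000000000000000000000000000000000000, [cP]),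
  (nat_lit 0x6000000000000000000000000000000000000000000000000000000000000000000000000000000000000000000000000000000000000000000000000000000000000000000000000000000000000000000000000000000000000000000000000000000000, [cP]),
  (nat_lit 0x800000000000000000000000000000000000000000000000000000000000000000000000000000000000000000000000000000000000000000000000000000000000000000000000000000000000000000000000000000000000000000000000000000000000, [Nat.sub (Nat.pow 2 259) (Nat.pow 2 0), Nat.sub (Nat.pow 2 3136) (Nat.pow 2 259)]),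
  (nat_lit 0x40000000000000000000000000000000000000000000000000000000000000000000000000000000000000000000000000000000000000000000000000000000000000000000000000000000000000000000000000000000000000000000000000000000000, [cP]),
  (nat_lit 0x20000000000000001000000000000000000000000000000000000000000000000000000000000000000000000000000000000000000000000000000000000000000000000000000000000000000000000000000000000000000000000000000000000000000000000000000000000, [cP]),
  (nat_lit 0x100000000000000000000000000000000000000000000000000000000000000000000000000000000000000000000000000000000000000000000000000000000000000000000000000000000000000000000000000000000000000000000000000000000000000000000000000000, [cP]),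
  (nat_lit 0x200000000000000000000000000000000000000000000000000000000000000000000000000000000000000000000000000000000000000000000000000000000000000000000000000000000000000000000000000000000000000000000000000000000000000000000000000000, [cP]),
  (nat_lit 0x40000000000000000000000000000000000000000000000000000000000000000000000000000000000000000000000000000000000000000000000000000000000000000000000000000000000000000000000000000000000000000000000000000000000000000000000000000000000, [Nat.sub (Nat.pow 2 790) (Nat.pow 2 0), Nat.sub (Nat.pow 2 3136) (Nat.pow 2 790)]),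
  (nat_lit 0x2000000000000000000000000000000000000000000000000000000000000000000000000000000000000000000000000000000000000000000000000000000000000000000000000000000000000000000000000000000000000000000000000000000000000000000000000000000, [cP]),
  (nat_lit 0x10400000000000000000000000000000000000000000000000000000000000000000000000000000000000000000000000000000000000000000000000000000000000000000000000000000000000000000000000000000000000000000000000000000000000000000000000000000000000, [cP]),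
  (nat_lit 0xe0000000000000000000000000000000000000000000000000000000000000000000000000000000000000000000000000000000000000000000000000000000000000000000000000000000000000000000000000000000000000000000000000000000000000000000000000000000000000000, [cP]),
  (nat_lit 0x1800000000000000000000000000000000000000000000000000000000000000000000000000000000000000000000000000000000000000000000000000000000000000000000000000000000000000000000000000000000000000000000000000000000000000000000000000000000000000000, [cP]),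
  (nat_lit 0x100000000000000000000000000000000000000000000000000000000000000000000000000000010000000000000000000000000000000000000000000000000000000000000000000000000000000000000000000000000000000000000000000000000000000000000000000000000000000000000000000000000000000000000000000000000000000000000000000000000000000000000000000, [cP]),
  (nat_lit 0x11000000000000000000000000000000000000000000000000000000000000000000000000000000000000000000000000000000000000000000000000000000000000000000000000000000000000000000000000000000000000000000000000000000000000000000000000000000000000000000000000000000000000000000000000000000000000000000000000000000000000000000000000000, [cP]),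
  (nat_lit 0x20000000000000000000000000000000000000000000000000000000000000000000000000000000000000000000000000000000000000000000000000000000000000000000000000000000000000000000000000000000000000000000000000000000000000000000000000000000000000000000000000000000000000000000000000000000000000000000000000000000000000000000000000000, [cP]),
  (nat_lit 0x80000000000000000000000000000000000000000000000000000000000000000000000000000000000000000000000000000000000000000000000000000000000000000000000000000000000000000000000000000000000000000000000000000000000000000000000000000000000000000000000000000000000000000000000000000000000000000000000000000000000000000000000000000000, [cP]),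
  (nat_lit 0x400020200000000000000000000000000000000000000000000000000000000000000000000000000000000000000000000000000000000000000000000000000000000000000000000000000000000000000000000000000000000000000000000000000000000000000000000000000000000000000000000000000000000000000000000000000000000000000000000000000000000000000000000000000000000, [cP]),
  (nat_lit 0x82000000000000000000000000000000000000000000000000000000000000000000000000000000000000000000000000000000000000000000000000000000000000000000000000000000000000000000000000000000000000000000000000000000000000000000000000000000000000000000000000000000000000000000000000000000000000000000000000000000000000000000000000000000000000000, [cP]),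
  (nat_lit 0x100000000000000000000000000000000000000000000000000000000000000000000000000000000000000000000000000000000000000000000000000000000000000000000000000000000000000000000000000000000000000000000000000000000000000000000000000000000000000000000000000000000000000000000000000000000000000000000000000000000000000000000000000000000000000000, [cP]),
  (nat_lit 0x200000000000000000000000000000000000000000000000000000000000000000000000000000000000000000000000000000000000000000000000000000000000000000000000000000000000000000000000000000000000000000000000000000000000000000000000000000000000000000000000000000000000000000000000000000000000000000000000000000000000000000000000000000000000000000000000000000000000, [cP]),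
  (nat_lit 0x6000000000000000000000000000000000000000000000000000000000000000000000000000000000000000000000000000000000000000000000000000000000000000000000000000000000000000000000000000000000000000000000000000000000000000000000000000000000000000000000000000000000000000000000000000000000000000000000000000000000000000000000000000000000000000000000000000000000000000, [cP]),
  (nat_lit 0x8000000000000000000000000000000000000000000000000000000000000000000000000000000000000000000000000000000000000000000000000000000000000000000000000000000000000000000000000000000000000000000000000000000000000000000000000000000000000000000000000000000000000000000000000000000000000000000000000000000000000000000000000000000000000000000000000000000000000000000000, [Nat.sub (Nat.pow 2 1391) (Nat.pow 2 0), Nat.sub (Nat.pow 2 3136) (Nat.pow 2 1391)]),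
  (nat_lit 0x1400000000000000000000000000000000000000000000000000000000000000000000000000000000000000000000000000000000000000000000000000000000000000000000000000000000000000000000000000000000000000000000000000000000000000000000000000000000000000000000000000000000000000000000000000000000000000000000000000000000000000000000000000000000000000000000000000000000000000000, [cP]),
  (nat_lit 0x3100000000000000000000000000000000000000000000000000000000000000000000000000000000000000000000000000000000000000000000000000000000000000000000000000000000000000000000000000000000000000000000000000000000000000000000000000000000000000000000000000000000000000000000000000000000000000000000000000000000000000000000000000000000000000000000000000000000000000000000000, [cP]),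
  (nat_lit 0x10000000000000000000000000000000000000000000000000000000000000000000000000000000000000000000000000000000000000000000000000000000000000000000000000000000000000000000000000000000000000000000000000000000000000000000000000000000000000000000000000000000000000000000000000000000000000000000000000000000000000000000000000000000000000000000000000000000000000000000000000000000000000000, [cP]),
  (nat_lit 0x20000000000000000000000000000000000000000000000000000000000000000000000000000000000000000000000000000000000000000000000000000000000000000000000000000000000000000000000000000000000000000000000000000000000000000000000000000000000000000000000000000000000000000000000000000000000000000000000000000000000000000000000000000000000000000000000000000000000000000000000000000000000000000, [cP]),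
  (nat_lit 0x400000000000000000000000000000000000000000000000000000000000000000000000000000000000000000000000000000000000000000000000000000000000000000000000000000000000000000000000000000000000000000000000000000000000000000000000000000000000000000000000000000000000000000000000000000000000000000000000000000000000000000000000000000000000000000000000000000000000000000000000000000000000000000, [cP]),
  (nat_lit 0x10000000000000000000000000000000000000000000000000000000000000000000000000000000000000000000000000000000000000000000000000000000000000000000000000000000000000000000000000000000000000000000000000000000000000000000000000000000000000000000000000000000000000000000000000000000000000000000000000000000000000000000000000000000000000000000000000000000000000000000000000000000000000000000, [cP]),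
  (nat_lit 0x60000000000000000000000000000000000000000000000000000000000000000000000000000000000000000000000000000000000000000000000000000000000000000000000000000000000000000000000000000000000000000000000000000000000000000000000000000000000000000000000000000000000000000000000000000000000000000000000000000000000000000000000000000000000000000000000000000000000000000000000000000000000000000000000, [cP]),
  (nat_lit 0x1080000000000000000000000000000000000000000000000000000000000000000000000000000000000000000000000000000000000000000000000000000000000000000000000000000000000000000000000000000000000000000000000000000000000000000000000000000000000000000000000000000000000000000000000000000000000000000000000000000000000000000000000000000000000000000000000000000000000000000000000000000000000000000000000, [cP]),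
  (nat_lit 0x8000000000000000000000000000000000000000000000000000000000000000000000000000000000000000000000000000000000000000000000000000000000000000000000000000000000000000000000000000000000000000000000000000000000000000000000000000000000000000000000000000000000000000000000000000000000000000000000000000000000000000000000000000000000000000000000000000000000000000000000000000000000000000000000000, [cP]),
  (nat_lit 0x1100020000000000000000000000000000000000000000000000000000000000000000000000000000000000000000000000000000000000000000000000000000000000000000000000000000000000000000000000000000000000000000000000000000000000000000000000000000000000000000000000000000000000000000000000000000000000000000000000000000000000000000000000000000000000000000000000000000000000000000000000000000000000000000000000000, [cP]),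
  (nat_lit 0x22000000000000000000000000000000000000000000000000000000000000000000000000000000000000000000000000000000000000000000000000000000000000000000000000000000000000000000000000000000000000000000000000000000000000000000000000000000000000000000000000000000000000000000000000000000000000000000000000000000000000000000000000000000000000000000000000000000000000000000000000000000000000000000000000000000, [cP])]

theorem hp0 : ∀ p ∈ L0, ∀ D2 ∈ p.2, ∃ e,
    search ext94 (Pool.Agent.H74.EGZ.vio sb) G Uc A0 p.1 D2 e = true :=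
  (List.forall_mem_cons.2 ⟨(List.forall_mem_cons.2 ⟨⟨e0, by decide +kernel⟩,
  (List.forall_mem_cons.2 ⟨⟨e1, by decide +kernel⟩,
  (List.forall_mem_cons.2 ⟨⟨e2, by decide +kernel⟩,
  (List.forall_mem_singleton.2 ⟨e3, by decide +kernel⟩)⟩)⟩)⟩),
  (List.forall_mem_cons.2 ⟨(List.forall_mem_singleton.2 ⟨e4, by decide +kernel⟩),
  (List.forall_mem_cons.2 ⟨(List.forall_mem_singleton.2 ⟨e5, by decide +kernel⟩),
  (List.forall_mem_cons.2 ⟨(List.forall_mem_singleton.2 ⟨e6, by decide +kernel⟩),
  (List.forall_mem_cons.2 ⟨(List.forall_mem_singleton.2 ⟨e7, by decide +kernel⟩),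
  (List.forall_mem_cons.2 ⟨(List.forall_mem_singleton.2 ⟨e8, by decide +kernel⟩),
  (List.forall_mem_cons.2 ⟨(List.forall_mem_singleton.2 ⟨e9, by decide +kernel⟩),
  (List.forall_mem_cons.2 ⟨(List.forall_mem_singleton.2 ⟨e10, by decide +kernel⟩),
  (List.forall_mem_cons.2 ⟨(List.forall_mem_singleton.2 ⟨e11, by decide +kernel⟩),
  (List.forall_mem_cons.2 ⟨(List.forall_mem_singleton.2 ⟨e12, by decide +kernel⟩),
  (List.forall_mem_cons.2 ⟨(List.forall_mem_singleton.2 ⟨e13, by decide +kernel⟩),
  (List.forall_mem_cons.2 ⟨(List.forall_mem_singleton.2 ⟨e14, by decide +kernel⟩),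
  (List.forall_mem_cons.2 ⟨(List.forall_mem_singleton.2 ⟨e15, by decide +kernel⟩),
  (List.forall_mem_cons.2 ⟨(List.forall_mem_singleton.2 ⟨e16, by decide +kernel⟩),
  (List.forall_mem_cons.2 ⟨(List.forall_mem_singleton.2 ⟨e17, by decide +kernel⟩),
  (List.forall_mem_cons.2 ⟨(List.forall_mem_singleton.2 ⟨e18, by decide +kernel⟩),
  (List.forall_mem_cons.2 ⟨(List.forall_mem_singleton.2 ⟨e19, by decide +kernel⟩),
  (List.forall_mem_cons.2 ⟨(List.forall_mem_singleton.2 ⟨e20, by decide +kernel⟩),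
  (List.forall_mem_cons.2 ⟨(List.forall_mem_singleton.2 ⟨e21, by decide +kernel⟩),
  (List.forall_mem_cons.2 ⟨(List.forall_mem_singleton.2 ⟨e22, by decide +kernel⟩),
  (List.forall_mem_cons.2 ⟨(List.forall_mem_singleton.2 ⟨e23, by decide +kernel⟩),
  (List.forall_mem_cons.2 ⟨(List.forall_mem_singleton.2 ⟨e24, by decide +kernel⟩),
  (List.forall_mem_cons.2 ⟨(List.forall_mem_singleton.2 ⟨e25, by decide +kernel⟩),
  (List.forall_mem_cons.2 ⟨(List.forall_mem_singleton.2 ⟨e26, by decide +kernel⟩),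
  (List.forall_mem_cons.2 ⟨(List.forall_mem_singleton.2 ⟨e27, by decide +kernel⟩),
  (List.forall_mem_cons.2 ⟨(List.forall_mem_singleton.2 ⟨e28, by decide +kernel⟩),
  (List.forall_mem_cons.2 ⟨(List.forall_mem_cons.2 ⟨⟨e29, by decide +kernel⟩,
  (List.forall_mem_cons.2 ⟨⟨e30, by decide +kernel⟩,
  (List.forall_mem_cons.2 ⟨⟨e31, by decide +kernel⟩,
  (List.forall_mem_cons.2 ⟨⟨e32, by decide +kernel⟩,
  (List.forall_mem_singleton.2 ⟨e33, by decide +kernel⟩)⟩)⟩)⟩)⟩),
  (List.forall_mem_cons.2 ⟨(List.forall_mem_singleton.2 ⟨e34, by decide +kernel⟩),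
  (List.forall_mem_cons.2 ⟨(List.forall_mem_singleton.2 ⟨e35, by decide +kernel⟩),
  (List.forall_mem_cons.2 ⟨(List.forall_mem_singleton.2 ⟨e36, by decide +kernel⟩),
  (List.forall_mem_cons.2 ⟨(List.forall_mem_singleton.2 ⟨e37, by decide +kernel⟩),
  (List.forall_mem_cons.2 ⟨(List.forall_mem_singleton.2 ⟨e38, by decide +kernel⟩),
  (List.forall_mem_cons.2 ⟨(List.forall_mem_singleton.2 ⟨e39, by decide +kernel⟩),
  (List.forall_mem_cons.2 ⟨(List.forall_mem_singleton.2 ⟨e40, by decide +kernel⟩),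
  (List.forall_mem_cons.2 ⟨(List.forall_mem_cons.2 ⟨⟨e41, by decide +kernel⟩,
  (List.forall_mem_singleton.2 ⟨e42, by decide +kernel⟩)⟩),
  (List.forall_mem_cons.2 ⟨(List.forall_mem_singleton.2 ⟨e43, by decide +kernel⟩),
  (List.forall_mem_cons.2 ⟨(List.forall_mem_singleton.2 ⟨e44, by decide +kernel⟩),
  (List.forall_mem_cons.2 ⟨(List.forall_mem_singleton.2 ⟨e45, by decide +kernel⟩),
  (List.forall_mem_cons.2 ⟨(List.forall_mem_singleton.2 ⟨e46, by decide +kernel⟩),
  (List.forall_mem_cons.2 ⟨(List.forall_mem_cons.2 ⟨⟨e47, by decide +kernel⟩,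
  (List.forall_mem_singleton.2 ⟨e48, by decide +kernel⟩)⟩),
  (List.forall_mem_cons.2 ⟨(List.forall_mem_singleton.2 ⟨e49, by decide +kernel⟩),
  (List.forall_mem_cons.2 ⟨(List.forall_mem_singleton.2 ⟨e50, by decide +kernel⟩),
  (List.forall_mem_cons.2 ⟨(List.forall_mem_singleton.2 ⟨e51, by decide +kernel⟩),
  (List.forall_mem_cons.2 ⟨(List.forall_mem_singleton.2 ⟨e52, by decide +kernel⟩),
  (List.forall_mem_cons.2 ⟨(List.forall_mem_singleton.2 ⟨e53, by decide +kernel⟩),
  (List.forall_mem_cons.2 ⟨(List.forall_mem_singleton.2 ⟨e54, by decide +kernel⟩),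
  (List.forall_mem_cons.2 ⟨(List.forall_mem_singleton.2 ⟨e55, by decide +kernel⟩),
  (List.forall_mem_cons.2 ⟨(List.forall_mem_singleton.2 ⟨e56, by decide +kernel⟩),
  (List.forall_mem_cons.2 ⟨(List.forall_mem_singleton.2 ⟨e57, by decide +kernel⟩),
  (List.forall_mem_cons.2 ⟨(List.forall_mem_singleton.2 ⟨e58, by decide +kernel⟩),
  (List.forall_mem_cons.2 ⟨(List.forall_mem_singleton.2 ⟨e59, by decide +kernel⟩),
  (List.forall_mem_cons.2 ⟨(List.forall_mem_singleton.2 ⟨e60, by decide +kernel⟩),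
  (List.forall_mem_cons.2 ⟨(List.forall_mem_singleton.2 ⟨e61, by decide +kernel⟩),
  (List.forall_mem_cons.2 ⟨(List.forall_mem_cons.2 ⟨⟨e62, by decide +kernel⟩,
  (List.forall_mem_singleton.2 ⟨e63, by decide +kernel⟩)⟩),
  (List.forall_mem_cons.2 ⟨(List.forall_mem_singleton.2 ⟨e64, by decide +kernel⟩),
  (List.forall_mem_cons.2 ⟨(List.forall_mem_singleton.2 ⟨e65, by decide +kernel⟩),
  (List.forall_mem_cons.2 ⟨(List.forall_mem_singleton.2 ⟨.leaf, by decide +kernel⟩),
  (List.forall_mem_cons.2 ⟨(List.forall_mem_singleton.2 ⟨e67, by decide +kernel⟩),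
  (List.forall_mem_cons.2 ⟨(List.forall_mem_singleton.2 ⟨e68, by decide +kernel⟩),
  (List.forall_mem_cons.2 ⟨(List.forall_mem_singleton.2 ⟨e69, by decide +kernel⟩),
  (List.forall_mem_cons.2 ⟨(List.forall_mem_singleton.2 ⟨e70, by decide +kernel⟩),
  (List.forall_mem_cons.2 ⟨(List.forall_mem_singleton.2 ⟨e71, by decide +kernel⟩),
  (List.forall_mem_cons.2 ⟨(List.forall_mem_singleton.2 ⟨e72, by decide +kernel⟩),
  (List.forall_mem_cons.2 ⟨(List.forall_mem_singleton.2 ⟨e73, by decide +kernel⟩),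
  (List.forall_mem_singleton.2 (List.forall_mem_singleton.2 ⟨e74, by decide +kernel⟩))⟩)⟩)⟩)⟩)⟩)⟩)⟩)⟩)⟩)⟩)⟩)⟩)⟩)⟩)⟩)⟩)⟩)⟩)⟩)⟩)⟩)⟩)⟩)⟩)⟩)⟩)⟩)⟩)⟩)⟩)⟩)⟩)⟩)⟩)⟩)⟩)⟩)⟩)⟩)⟩)⟩)⟩)⟩)⟩)⟩)⟩)⟩)⟩)⟩)⟩)⟩)⟩)⟩)⟩)⟩)⟩)⟩)⟩)⟩)⟩)⟩)⟩)⟩)⟩)

end

end Pool.Agent.H21.EGZ.S23
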