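import Pool.Agent.H21.EGZ.D24

/-!
# Stage 24 : search, part 0
-/

set_option autoImplicit false
set_option maxRecDepth 100000

namespace Pool.Agent.H21.EGZ.S24

noncomputable section

open Pool.Agent.H74.EGZ Pool.Agent.H94.Lift

/-- refutations 0 -/
def e0 : EX := (.node (.node (.node (.node (.node (.node (.node .leaf (nat_lit 211192267439341) (.br (nat_lit 4) (.cons (.br (nat_lit 1) (.cons (.rel (nat_lit 1090519380)) (.cons (.rel (nat_lit 1090797636)) (.cons (.rel (nat_lit 1090535712)) (.cons (.rel (nat_lit 1091043840)) (.cons (.rel (nat_lit 1091043840)) (.cons (.rel (nat_lit 1091043840)) (.cons (.rel (nat_lit 1090535712)) (.cons (.rel (nat_lit 1090813968)) (.cons (.rel (nat_lit 1090786368)) .nil)))))))))) (.cons (.br (nat_lit 6) (.cons (.rel (nat_lit 18255790080)) (.cons (.rel (nat_lit 18253644033)) .nil))) .nil))) .leaf) (nat_lit 211192267439387) (.br (nat_lit 4) (.cons (.br (nat_lit 3) (.cons (.rel (nat_lit 2685419520)) (.cons (.rel (nat_lit 1342441512)) .nil))) .nil)) .leaf) (nat_lit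 211192267451623) (.br (nat_lit 1) (.cons (.br (nat_lit 3) (.cons (.rel (nat_lit 285212952)) .nil)) .nil)) (.node (.node .leaf (nat_lit 211192267494688) (.br (nat_lit 0) (.cons (.br (nat_lit 2) (.cons (.rel (nat_lit 71386113)) .nil)) .nil)) .leaf) (nat_lit 211192267504542) (.br (nat_lit 3) (.cons (.br (nat_lit 4) (.cons (.rel (nat_lit 1342198020)) .nil)) .nil)) .leaf)) (nat_lit 211192267504923) (.br (nat_lit 3) (.cons (.br (nat_lit 5) (.cons (.rel (nat_lit 4563670080)) (.cons (.rel (nat_lit 9127067904)) (.cons (.rel (nat_lit 4563403092)) (.cons (.rel (nat_lit 4563419424)) .nil))))) .nil)) (.node (.node (.node .leaf (nat_lit 211192268681873) (.br (nat_lit 1) (.cons (.br (nat_lit 0) (.cons (.rel (nat_lit 21250050)) (.cons (.rel (nat_lit 42991620)) .nil))) .nil)) .leaf) (nat_lit 211192268986524) (.br (nat_lit 4) (.cons (.br (nat_lit 6) (.cons (.rel (nat_lit 19327483905)) .nil)) .nil)) .leaf) (nat_lit 211192268987294) (.br (nat_lit 6) (.cons (.br (nat_lit 4) (.cons (.rel (nat_lit 35433497604))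 (.cons (.rel (nat_lit 18253873185)) .nil))) .nil)) (.node (.node .leaf (nat_lit 211192268987629) (.br (nat_lit 4) (.cons (.br (nat_lit 5) (.cons (.rel (nat_lit 9663741960)) (.cons (.rel (nat_lit 5368709520)) (.cons (.rel (nat_lit 6442582020)) (.cons (.rel (nat_lit 5368971300)) (.cons (.rel (nat_lit 5368709520)) .nil)))))) .nil)) .leaf) (nat_lit 211195325086957) (.br (nat_lit 1) (.cons (.br (nat_lit 2) (.cons (.rel (nat_lit 83886168)) .nil)) .nil)) .leaf))) (nat_lit 211195425749119) (.br (nat_lit 3) (.cons (.br (nat_lit 6) (.cons (.rel (nat_lit 34628173845)) .nil)) .nil)) (.node (.node (.node (.node .leaf (nat_lit 211195425750299) (.br (nat_lit 3) (.cons (.br (nat_lit 4) (.cons (.rel (nat_lit 1342439430)) (.cons (.rel (nat_lit 1342441512)) .nil))) .nil)) .leaf) (nat_lit 211195427297407) (.br (nat_lit 3) (.cons (.br (nat_lit 6) (.cons (.rel (nat_lit 34628173845)) .nil)) .nil)) .leaf) (nat_lit 211195427297465) (.br (nat_lit 4) (.cons (.br (nat_lit 6) (.cons (.rel (nat_lit 18254004288)) .nil))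 .nil)) (.node (.node .leaf (nat_lit 211198533784864) (.br (nat_lit 1) (.cons (.br (nat_lit 3) (.cons (.br (nat_lit 0) (.cons (.rel (nat_lit 22021632)) (.cons (.rel (nat_lit 541066257)) (.cons (.rel (nat_lit 541066257)) .nil)))) (.cons (.rel (nat_lit 285212952)) .nil))) .nil)) .leaf) (nat_lit 211198534971668) (.br (nat_lit 0) (.cons (.br (nat_lit 1) (.cons (.rel (nat_lit 22021632)) .nil)) .nil)) .leaf)) (nat_lit 211198534972049) (.br (nat_lit 0) (.cons (.br (nat_lit 1) (.cons (.rel (nat_lit 42991620)) .nil)) .nil)) (.node (.node (.node .leaf (nat_lit 211198535276729) (.br (nat_lit 3) (.cons (.br (nat_lit 4) (.cons (.rel (nat_lit 2415919236)) .nil)) .nil)) .leaf) (nat_lit 211198575672557) (.br (nat_lit 2) (.cons (.br (nat_lit 4) (.cons (.rel (nat_lit 1140851721)) .nil)) .nil)) .leaf) (nat_lit 211198575738093) (.br (nat_lit 1) (.cons (.br (nat_lit 2) (.cons (.rel (nat_lit 83886168)) .nil)) .nil)) (.node (.node .leaf (nat_lit 216689824260128) (.br (nat_lit 1) (.cons (.br (nat_lit 6) (.cons (.rel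 (nat_lit 17196647697)) .nil)) .nil)) .leaf) (nat_lit 216689824290818) (.br (nat_lit 1) (.cons (.br (nat_lit 4) (.cons (.rel (nat_lit 2164328448)) (.cons (.rel (nat_lit 1107428352)) .nil))) .nil)) .leaf)))) (nat_lit 216689824291092) (.br (nat_lit 1) (.cons (.br (nat_lit 3) (.cons (.rel (nat_lit 285540369)) .nil)) .nil)) (.node (.node (.node (.node (.node .leaf (nat_lit 216689824565503) (.br (nat_lit 4) (.cons (.br (nat_lit 5) (.cons (.rel (nat_lit 5368971300)) .nil)) .nil)) .leaf) (nat_lit 216689825633568) (.br (nat_lit 1) (.cons (.br (nat_lit 4) (.cons (.rel (nat_lit 1107428352)) .nil)) .nil)) .leaf) (nat_lit 216693578192898) (.br (nat_lit 3) (.cons (.br (nat_lit 6) (.cons (.rel (nat_lit 34628173845)) .nil)) .nil)) (.node (.node .leaf (nat_lit 217557274753904) (.br (nat_lit 4) (.cons (.br (nat_lit 3) (.cons (.rel (nat_lit 1342443648)) (.cons (.rel (nat_lit 1342186752)) .nil))) .nil)) .leaf) (nat_lit 217557274753950) (.br (nat_lit 4) (.cons (.br (nat_lit 6) (.cons (.rel (nat_lit 18253680900))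 .nil)) .nil)) .leaf)) (nat_lit 217557274754285) (.br (nat_lit 3) (.cons (.br (nat_lit 4) (.cons (.rel (nat_lit 1342186752)) .nil)) .nil)) (.node (.node (.node .leaf (nat_lit 217557274819440) (.br (nat_lit 4) (.cons (.br (nat_lit 6) (.cons (.rel (nat_lit 19327357032)) .nil)) .nil)) .leaf) (nat_lit 217557274819472) (.br (nat_lit 6) (.cons (.br (nat_lit 4) (.cons (.rel (nat_lit 18253680900)) (.cons (.rel (nat_lit 35433482310)) .nil))) .nil)) .leaf) (nat_lit 217557274819486) (.br (nat_lit 4) (.cons (.br (nat_lit 3) (.cons (.rel (nat_lit 2415919236)) (.cons (.rel (nat_lit 1342308609)) .nil))) .nil)) (.node (.node .leaf (nat_lit 217557274819821) (.br (nat_lit 3) (.cons (.br (nat_lit 4) (.cons (.rel (nat_lit 1342198020)) .nil)) .nil)) .leaf) (nat_lit 217557408971632) (.br (nat_lit 6) (.cons (.br (nat_lit 3) (.cons (.br (nat_lit 4) (.cons (.rel (nat_lit 1342443648)) (.cons (.rel (nat_lit 2685419520)) .nil))) (.cons (.rel (nat_lit 34628174880)) .nil))) .nil)) .leaf))) (nat_lit 217557409037168) (.br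 (nat_lit 4) (.cons (.br (nat_lit 5) (.cons (.rel (nat_lit 5368709520)) (.cons (.rel (nat_lit 5368742148)) (.cons (.rel (nat_lit 5368742148)) (.cons (.rel (nat_lit 5368709520)) (.cons (.rel (nat_lit 5368987776)) .nil)))))) .nil)) (.node (.node (.node (.node .leaf (nat_lit 217557409037200) (.br (nat_lit 4) (.cons (.br (nat_lit 6) (.cons (.rel (nat_lit 35433482310)) .nil)) .nil)) .leaf) (nat_lit 217557409226754) (.br (nat_lit 1) (.cons (.br (nat_lit 2) (.cons (.rel (nat_lit 83902500)) .nil)) .nil)) .leaf) (nat_lit 217560566567838) (.br (nat_lit 4) (.cons (.br (nat_lit 6) (.cons (.rel (nat_lit 19327373316)) .nil)) .nil)) (.node (.node .leaf (nat_lit 217560567282925) (.br (nat_lit 6) (.cons (.br (nat_lit 0) (.cons (.rel (nat_lit 17184080160)) (.cons (.rel (nat_lit 17188258818)) (.cons (.rel (nat_lit 17184358416)) (.cons (.rel (nat_lit 34363934721)) (.cons (.rel (nat_lit 17188257828)) (.cons (.rel (nat_lit 17188257828)) (.cons (.rel (nat_lit 34363932696)) .nil)))))))) .nil)) .leaf) (nat_lit 217560567348507)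 (.br (nat_lit 4) (.cons (.br (nat_lit 6) (.cons (.rel (nat_lit 18253628736)) .nil)) .nil)) .leaf)) (nat_lit 217563675326649) (.br (nat_lit 3) (.cons (.br (nat_lit 4) (.cons (.rel (nat_lit 1610679300)) .nil)) .nil)) (.node (.node (.node .leaf (nat_lit 217563675327376) (.br (nat_lit 3) (.cons (.br (nat_lit 4) (.cons (.rel (nat_lit 1342243152)) .nil)) .nil)) .leaf) (nat_lit 217563675517683) (.br (nat_lit 0) (.cons (.br (nat_lit 3) (.cons (.rel (nat_lit 276824073)) .nil)) .nil)) .leaf) (nat_lit 217806517075181) (.br (nat_lit 4) (.cons (.br (nat_lit 6) (.cons (.rel (nat_lit 19327362048)) .nil)) .nil)) (.node .leaf (nat_lit 217806638649529) (.br (nat_lit 3) (.cons (.br (nat_lit 4) (.cons (.rel (nat_lit 1342439430)) .nil)) .nil)) .leaf))))) (nat_lit 217806638650256) (.br (nat_lit 4) (.cons (.br (nat_lit 3) (.cons (.rel (nat_lit 1610614881)) (.cons (.rel (nat_lit 1342439430)) .nil))) .nil)) (.node (.node (.node (.node (.node (.node .leaf (nat_lit 217806638709616) (.br (nat_lit 4) (.cons (.br (nat_lit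 6) (.cons (.rel (nat_lit 18253619472)) .nil)) .nil)) .leaf) (nat_lit 217806638710011) (.br (nat_lit 3) (.cons (.br (nat_lit 4) (.cons (.rel (nat_lit 1342198020)) .nil)) .nil)) .leaf) (nat_lit 217812904939676) (.br (nat_lit 3) (.cons (.br (nat_lit 4) (.cons (.rel (nat_lit 1342308609)) .nil)) .nil)) (.node (.node .leaf (nat_lit 217812904939705) (.br (nat_lit 4) (.cons (.br (nat_lit 6) (.cons (.rel (nat_lit 19327362048)) .nil)) .nil)) .leaf) (nat_lit 217812905000219) (.br (nat_lit 4) (.cons (.br (nat_lit 3) (.cons (.rel (nat_lit 1342198020)) (.cons (.rel (nat_lit 1342439430)) .nil))) .nil)) .leaf)) (nat_lit 222322074114324) (.br (nat_lit 0) (.cons (.br (nat_lit 4) (.cons (.rel (nat_lit 1078067460)) (.cons (.rel (nat_lit 2151759876)) .nil))) .nil)) (.node (.node (.node .leaf (nat_lit 224014615467240) (.br (nat_lit 1) (.cons (.br (nat_lit 4) (.cons (.rel (nat_lit 1108606977)) .nil)) .nil)) .leaf) (nat_lit 224014615467269) (.br (nat_lit 2) (.cons (.br (nat_lit 6) (.cons (.rel (nat_lit 17247011856))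 .nil)) .nil)) .leaf) (nat_lit 224051264589951) (.br (nat_lit 3) (.cons (.br (nat_lit 4) (.cons (.rel (nat_lit 1610612808)) (.cons (.rel (nat_lit 1342243152)) .nil))) .nil)) (.node (.node .leaf (nat_lit 224051264589980) (.br (nat_lit 4) (.cons (.br (nat_lit 6) (.cons (.rel (nat_lit 19327373316)) .nil)) .nil)) .leaf) (nat_lit 224051264590009) (.br (nat_lit 4) (.cons (.br (nat_lit 6) (.cons (.rel (nat_lit 18253874184)) .nil)) .nil)) .leaf))) (nat_lit 224051265245340) (.br (nat_lit 6) (.cons (.br (nat_lit 4) (.cons (.rel (nat_lit 18253628736)) (.cons (.rel (nat_lit 18253873185)) .nil))) .nil)) (.node (.node (.node (.node .leaf (nat_lit 224051265246459) (.br (nat_lit 4) (.cons (.br (nat_lit 3) (.cons (.rel (nat_lit 2415919236)) (.cons (.rel (nat_lit 2684355153)) (.cons (.rel (nat_lit 2685419520)) .nil)))) .nil)) .leaf) (nat_lit 224051266852991) (.br (nat_lit 6) (.cons (.br (nat_lit 3) (.cons (.br (nat_lit 4) (.cons (.rel (nat_lit 18253873185)) (.cons (.rel (nat_lit 1342443648)) (.cons (.rel (nat_lit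 18253874184)) .nil)))) (.cons (.rel (nat_lit 34628173845)) (.cons (.rel (nat_lit 17716742160)) .nil)))) .nil)) .leaf) (nat_lit 224051266853049) (.br (nat_lit 4) (.cons (.br (nat_lit 6) (.cons (.rel (nat_lit 18253874184)) .nil)) .nil)) (.node (.node .leaf (nat_lit 224051266853744) (.br (nat_lit 4) (.cons (.br (nat_lit 6) (.cons (.rel (nat_lit 19327418448)) .nil)) .nil)) .leaf) (nat_lit 224051398236162) (.br (nat_lit 1) (.cons (.br (nat_lit 3) (.cons (.br (nat_lit 6) (.cons (.rel (nat_lit 34628173845)) (.cons (.rel (nat_lit 34628173845)) .nil))) .nil)) .nil)) .leaf)) (nat_lit 224051398807679) (.br (nat_lit 4) (.cons (.br (nat_lit 6) (.cons (.rel (nat_lit 19327362048)) .nil)) .nil)) (.node (.node (.node .leaf (nat_lit 224051398807708) (.br (nat_lit 4) (.cons (.br (nat_lit 3) (.cons (.rel (nat_lit 1342308609)) (.cons (.rel (nat_lit 2684355153)) (.cons (.rel (nat_lit 1342443648)) (.cons (.rel (nat_lit 1610612808)) .nil))))) .nil)) .leaf) (nat_lit 224051398807737) (.br (nat_lit 4) (.cons (.br (nat_lit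 6) (.cons (.rel (nat_lit 18253874184)) .nil)) .nil)) .leaf) (nat_lit 224051399463068) (.br (nat_lit 4) (.cons (.br (nat_lit 5) (.cons (.rel (nat_lit 9663741960)) (.cons (.rel (nat_lit 5368709520)) (.cons (.rel (nat_lit 6442582020)) (.cons (.rel (nat_lit 6442452096)) (.cons (.rel (nat_lit 5368742148)) .nil)))))) .nil)) (.node (.node .leaf (nat_lit 224051399463824) (.br (nat_lit 6) (.cons (.br (nat_lit 3) (.cons (.br (nat_lit 4) (.cons (.rel (nat_lit 2685419520)) (.cons (.rel (nat_lit 19327373316)) .nil))) (.cons (.rel (nat_lit 34628173845)) .nil))) .nil)) .leaf) (nat_lit 224051399464219) (.br (nat_lit 4) (.cons (.br (nat_lit 6) (.cons (.rel (nat_lit 19327362048)) (.cons (.rel (nat_lit 18253875222)) .nil))) .nil)) .leaf)))) (nat_lit 224051399578912) (.br (nat_lit 1) (.cons (.br (nat_lit 3) (.cons (.rel (nat_lit 553779204)) .nil)) .nil)) (.node (.node (.node (.node (.node .leaf (nat_lit 224051401070719) (.br (nat_lit 4) (.cons (.br (nat_lit 3) (.cons (.rel (nat_lit 2415919236)) (.cons (.rel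 (nat_lit 1342186752)) (.cons (.rel (nat_lit 1342186752)) .nil)))) .nil)) .leaf) (nat_lit 224051401070777) (.br (nat_lit 4) (.cons (.br (nat_lit 6) (.cons (.rel (nat_lit 18253874184)) .nil)) .nil)) .leaf) (nat_lit 224054557774009) (.br (nat_lit 3) (.cons (.br (nat_lit 4) (.cons (.rel (nat_lit 1342440465)) .nil)) .nil)) (.node (.node .leaf (nat_lit 224054557774704) (.br (nat_lit 3) (.cons (.br (nat_lit 4) (.cons (.rel (nat_lit 1342243152)) .nil)) .nil)) .leaf) (nat_lit 224054557774736) (.br (nat_lit 4) (.cons (.br (nat_lit 5) (.cons (.rel (nat_lit 6442582020)) (.cons (.rel (nat_lit 10738470912)) (.cons (.rel (nat_lit 5368742148)) (.cons (.rel (nat_lit 5368971300)) (.cons (.rel (nat_lit 5368709520)) (.cons (.rel (nat_lit 9663741960)) .nil))))))) (.cons (.br (nat_lit 6) (.cons (.rel (nat_lit 36508274694)) (.cons (.rel (nat_lit 18253873185)) .nil))) .nil))) .leaf)) (nat_lit 224054557775099) (.br (nat_lit 4) (.cons (.br (nat_lit 3) (.cons (.rel (nat_lit 2684355153)) (.cons (.rel (nat_lit 1342443648))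 .nil))) .nil)) (.node (.node (.node .leaf (nat_lit 224054559382384) (.br (nat_lit 4) (.cons (.br (nat_lit 1) (.cons (.rel (nat_lit 1090535712)) (.cons (.rel (nat_lit 1090813968)) (.cons (.rel (nat_lit 1091043840)) (.cons (.rel (nat_lit 1091043840)) (.cons (.rel (nat_lit 1090535712)) (.cons (.rel (nat_lit 1090519380)) (.cons (.rel (nat_lit 1090797636)) (.cons (.rel (nat_lit 1090813968)) .nil))))))))) .nil)) .leaf) (nat_lit 224057665097884) (.br (nat_lit 3) (.cons (.br (nat_lit 4) (.cons (.rel (nat_lit 2684355153)) .nil)) .nil)) .leaf) (nat_lit 224057665753244) (.br (nat_lit 4) (.cons (.br (nat_lit 3) (.cons (.rel (nat_lit 1342186752)) (.cons (.rel (nat_lit 2685419520)) (.cons (.rel (nat_lit 2415919236)) (.cons (.rel (nat_lit 1342443648)) (.cons (.rel (nat_lit 1610617872)) (.cons (.rel (nat_lit 1342440465)) .nil))))))) .nil)) (.node (.node .leaf (nat_lit 224057665754349) (.br (nat_lit 4) (.cons (.br (nat_lit 5) (.cons (.rel (nat_lit 5368709520)) (.cons (.rel (nat_lit 6442582020)) (.cons (.rel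 (nat_lit 5368742148)) (.cons (.rel (nat_lit 5368709520)) (.cons (.rel (nat_lit 5368709520)) (.cons (.rel (nat_lit 5368971300)) .nil))))))) .nil)) .leaf) (nat_lit 224057665754363) (.br (nat_lit 4) (.cons (.br (nat_lit 5) (.cons (.rel (nat_lit 5368742148)) (.cons (.rel (nat_lit 5368971300)) (.cons (.rel (nat_lit 5368709520)) (.cons (.rel (nat_lit 9663741960)) (.cons (.rel (nat_lit 5368709520)) (.cons (.rel (nat_lit 6442582020)) .nil))))))) .nil)) .leaf))) (nat_lit 224057665754395) (.br (nat_lit 6) (.cons (.br (nat_lit 4) (.cons (.rel (nat_lit 35433480273)) (.cons (.rel (nat_lit 18253644033)) .nil))) .nil)) (.node (.node (.node (.node .leaf (nat_lit 224057665869088) (.br (nat_lit 1) (.cons (.br (nat_lit 3) (.cons (.br (nat_lit 2) (.cons (.rel (nat_lit 335675397)) (.cons (.rel (nat_lit 83891232)) .nil))) .nil)) .nil)) .leaf) (nat_lit 224057667362029) (.br (nat_lit 3) (.cons (.br (nat_lit 6) (.cons (.rel (nat_lit 34628173845)) .nil)) .nil)) .leaf) (nat_lit 224306895617261) (.br (nat_lit 3) (.cons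 (.br (nat_lit 4) (.cons (.rel (nat_lit 1342308609)) .nil)) .nil)) (.node (.node .leaf (nat_lit 224306895617275) (.br (nat_lit 4) (.cons (.br (nat_lit 3) (.cons (.rel (nat_lit 1610629140)) (.cons (.rel (nat_lit 1342308609)) .nil))) .nil)) .leaf) (nat_lit 224306895617307) (.br (nat_lit 4) (.cons (.br (nat_lit 6) (.cons (.rel (nat_lit 19327483905)) .nil)) .nil)) .leaf)) (nat_lit 224420887629951) (.br (nat_lit 3) (.cons (.br (nat_lit 4) (.cons (.rel (nat_lit 1342243152)) (.cons (.rel (nat_lit 2684355153)) .nil))) .nil)) (.node (.node (.node .leaf (nat_lit 224420887629980) (.br (nat_lit 3) (.cons (.br (nat_lit 4) (.cons (.rel (nat_lit 1342440465)) .nil)) .nil)) .leaf) (nat_lit 224420888345851) (.br (nat_lit 4) (.cons (.br (nat_lit 6) (.cons (.rel (nat_lit 19327373316)) .nil)) .nil)) .leaf) (nat_lit 224469882000645) (.br (nat_lit 1) (.cons (.br (nat_lit 2) (.cons (.rel (nat_lit 83888193)) .nil)) .nil)) (.node .leaf (nat_lit 224506531779835) (.br (nat_lit 0) (.cons (.br (nat_lit 4) (.cons (.rel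 (nat_lit 1082146833)) .nil)) .nil)) .leaf))))))

/-- refutations 1 -/
def e1 : EX := (.node (.node (.node (.node (.node .leaf (nat_lit 638905541783584) (.br (nat_lit 0) (.cons (.br (nat_lit 3) (.cons (.rel (nat_lit 541147200)) .nil)) .nil)) .leaf) (nat_lit 638908175807770) (.br (nat_lit 2) (.cons (.br (nat_lit 5) (.cons (.rel (nat_lit 4362076308)) .nil)) .nil)) .leaf) (nat_lit 639976134718352) (.br (nat_lit 5) (.cons (.br (nat_lit 6) (.cons (.rel (nat_lit 25769804820)) .nil)) .nil)) (.node .leaf (nat_lit 639982300344452) (.br (nat_lit 3) (.cons (.br (nat_lit 4) (.cons (.rel (nat_lit 1342440465)) (.cons (.rel (nat_lit 1610612808)) .nil))) .nil)) .leaf)) (nat_lit 639982321315977) (.br (nat_lit 0) (.cons (.br (nat_lit 2) (.cons (.rel (nat_lit 71335953)) (.cons (.rel (nat_lit 71304324)) .nil))) (.cons (.br (nat_lit 2) (.cons (.rel (nat_lit 71323650)) (.cons (.rel (nat_lit 142607457)) .nil))) .nil))) (.node (.node (.node .leaf (nat_lit 640018960394372) (.br (nat_lit 0) (.cons (.br (nat_lit 4)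 (.cons (.rel (nat_lit 1078206528)) .nil)) .nil)) .leaf) (nat_lit 640068220672132) (.br (nat_lit 1) (.cons (.br (nat_lit 3) (.cons (.rel (nat_lit 301992000)) (.cons (.rel (nat_lit 285214977)) .nil))) (.cons (.br (nat_lit 3) (.cons (.rel (nat_lit 301992000)) (.cons (.rel (nat_lit 553649280)) .nil))) .nil))) .leaf) (nat_lit 640068220672137) (.br (nat_lit 3) (.cons (.br (nat_lit 1) (.cons (.rel (nat_lit 285245760)) (.cons (.rel (nat_lit 301992000)) (.cons (.rel (nat_lit 301992000)) .nil)))) (.cons (.br (nat_lit 5) (.cons (.rel (nat_lit 4831839240)) (.cons (.rel (nat_lit 4563469584)) .nil))) .nil))) (.node .leaf (nat_lit 641049639043074) (.br (nat_lit 0) (.cons (.br (nat_lit 1) (.cons (.rel (nat_lit 21008640)) .nil)) .nil)) .leaf))) (nat_lit 641049639299074) (.br (nat_lit 2) (.cons (.br (nat_lit 4) (.cons (.rel (nat_lit 2281701393)) .nil)) .nil)) (.node (.node (.node (.node .leaf (nat_lit 641055034412293) (.br (nat_lit 2) (.cons (.br (nat_lit 3) (.cons (.rel (nat_lit 335579136)) .nil)) .nil))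 .leaf) (nat_lit 641055034412543) (.br (nat_lit 1) (.cons (.br (nat_lit 3) (.cons (.rel (nat_lit 285214977)) .nil)) .nil)) .leaf) (nat_lit 641138946536834) (.br (nat_lit 0) (.cons (.br (nat_lit 2) (.cons (.rel (nat_lit 71320656)) .nil)) .nil)) (.node .leaf (nat_lit 646263729597347) (.br (nat_lit 0) (.cons (.br (nat_lit 4) (.cons (.rel (nat_lit 1079525376)) .nil)) .nil)) .leaf)) (nat_lit 646270132476835) (.br (nat_lit 1) (.cons (.br (nat_lit 4) (.cons (.rel (nat_lit 1107428352)) .nil)) .nil)) (.node (.node (.node .leaf (nat_lit 646475868866592) (.br (nat_lit 0) (.cons (.br (nat_lit 1) (.cons (.rel (nat_lit 21237792)) .nil)) .nil)) .leaf) (nat_lit 646633332440352) (.br (nat_lit 0) (.cons (.br (nat_lit 6) (.cons (.rel (nat_lit 17184067857)) .nil)) .nil)) .leaf) (nat_lit 646722187950982) (.br (nat_lit 1) (.cons (.br (nat_lit 4) (.cons (.rel (nat_lit 1090523409)) .nil)) .nil)) (.node .leaf (nat_lit 646725540029691) (.br (nat_lit 0) (.cons (.br (nat_lit 2) (.cons (.rel (nat_lit 71565825)) .nil))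 .nil)) .leaf))))

/-- refutations 2 -/
def e2 : EX := (.node (.node (.node (.node (.node (.node (.node .leaf (nat_lit 969980887799146) (.br (nat_lit 0) (.cons (.br (nat_lit 1) (.cons (.rel (nat_lit 22021632)) .nil)) .nil)) .leaf) (nat_lit 974021273888924) (.br (nat_lit 4) (.cons (.br (nat_lit 6) (.cons (.rel (nat_lit 18255790080)) .nil)) .nil)) .leaf) (nat_lit 974021273890029) (.br (nat_lit 6) (.cons (.br (nat_lit 3) (.cons (.rel (nat_lit 34629484608)) (.cons (.rel (nat_lit 17448567936)) (.cons (.rel (nat_lit 34628173845)) .nil)))) .nil)) (.node (.node .leaf (nat_lit 974021273890303) (.br (nat_lit 1) (.cons (.br (nat_lit 2) (.cons (.rel (nat_lit 83890197)) .nil)) .nil)) .leaf) (nat_lit 974021274663792) (.br (nat_lit 4) (.cons (.br (nat_lit 6) (.cons (.rel (nat_lit 18253873185)) .nil)) .nil)) .leaf)) (nat_lit 974021274663824) (.br (nat_lit 4) (.cons (.br (nat_lit 6) (.cons (.rel (nat_lit 18253619472)) (.cons (.rel (nat_lit 18253644033)) .nil))) .nil)) (.node (.node (.node .leaf (nat_lit 974021274663838)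 (.br (nat_lit 4) (.cons (.br (nat_lit 6) (.cons (.rel (nat_lit 35433480273)) .nil)) .nil)) .leaf) (nat_lit 974021274729360) (.br (nat_lit 4) (.cons (.br (nat_lit 3) (.cons (.rel (nat_lit 1342439430)) (.cons (.rel (nat_lit 1342439430)) .nil))) .nil)) .leaf) (nat_lit 974021274729709) (.br (nat_lit 4) (.cons (.br (nat_lit 6) (.cons (.rel (nat_lit 18253873185)) (.cons (.rel (nat_lit 19327362048)) .nil))) .nil)) (.node .leaf (nat_lit 974021276152734) (.br (nat_lit 6) (.cons (.br (nat_lit 4) (.cons (.rel (nat_lit 35434545408)) (.cons (.rel (nat_lit 35433480273)) .nil))) .nil)) .leaf))) (nat_lit 974021408106681) (.br (nat_lit 4) (.cons (.br (nat_lit 3) (.cons (.rel (nat_lit 1342198020)) (.cons (.rel (nat_lit 1342186752)) (.cons (.rel (nat_lit 1342186752)) (.cons (.rel (nat_lit 1342440465)) .nil))))) .nil)) (.node (.node (.node (.node .leaf (nat_lit 974021408880825) (.br (nat_lit 3) (.cons (.br (nat_lit 4) (.cons (.rel (nat_lit 1342439430)) .nil)) .nil)) .leaf) (nat_lit 974021408881915) (.br (nat_lit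 3) (.cons (.br (nat_lit 4) (.cons (.rel (nat_lit 1342308609)) .nil)) .nil)) .leaf) (nat_lit 974021408947056) (.br (nat_lit 4) (.cons (.br (nat_lit 5) (.cons (.rel (nat_lit 5368709520)) (.cons (.rel (nat_lit 5368742148)) (.cons (.rel (nat_lit 5368742148)) (.cons (.rel (nat_lit 5368709520)) (.cons (.rel (nat_lit 5368987776)) .nil)))))) .nil)) (.node (.node .leaf (nat_lit 974021408947088) (.br (nat_lit 4) (.cons (.br (nat_lit 6) (.cons (.rel (nat_lit 35433482310)) .nil)) .nil)) .leaf) (nat_lit 974021408947451) (.br (nat_lit 3) (.cons (.br (nat_lit 4) (.cons (.rel (nat_lit 1342198020)) .nil)) .nil)) .leaf)) (nat_lit 974021410370448) (.br (nat_lit 3) (.cons (.br (nat_lit 4) (.cons (.rel (nat_lit 1342308609)) .nil)) .nil)) (.node (.node (.node .leaf (nat_lit 974021410370462) (.br (nat_lit 6) (.cons (.br (nat_lit 3) (.cons (.rel (nat_lit 17448322308)) (.cons (.rel (nat_lit 17448304977)) .nil))) .nil)) .leaf) (nat_lit 974027615676543) (.br (nat_lit 4) (.cons (.br (nat_lit 6) (.cons (.rel (nat_lit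 18253873185)) .nil)) .nil)) .leaf) (nat_lit 974027615676601) (.br (nat_lit 3) (.cons (.br (nat_lit 4) (.cons (.rel (nat_lit 1610617872)) .nil)) .nil)) (.node .leaf (nat_lit 974027616451440) (.br (nat_lit 3) (.cons (.br (nat_lit 6) (.cons (.rel (nat_lit 34628173845)) .nil)) .nil)) .leaf)))) (nat_lit 974027616516223) (.br (nat_lit 3) (.cons (.br (nat_lit 4) (.cons (.rel (nat_lit 2415923265)) (.cons (.rel (nat_lit 1342308609)) .nil))) .nil)) (.node (.node (.node (.node (.node .leaf (nat_lit 974027617939612) (.br (nat_lit 3) (.cons (.br (nat_lit 4) (.cons (.rel (nat_lit 1342243152)) .nil)) .nil)) .leaf) (nat_lit 974027617939641) (.br (nat_lit 4) (.cons (.br (nat_lit 6) (.cons (.rel (nat_lit 18253644033)) .nil)) .nil)) .leaf) (nat_lit 974270516209820) (.br (nat_lit 4) (.cons (.br (nat_lit 6) (.cons (.rel (nat_lit 19327362048)) .nil)) .nil)) (.node (.node .leaf (nat_lit 974270516210925) (.br (nat_lit 4) (.cons (.br (nat_lit 6) (.cons (.rel (nat_lit 18253680900)) .nil)) .nil)) .leaf) (nat_lit 974270516925677)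 (.br (nat_lit 3) (.cons (.br (nat_lit 4) (.cons (.rel (nat_lit 2415923265)) (.cons (.rel (nat_lit 1342457988)) .nil))) .nil)) .leaf)) (nat_lit 974270637844665) (.br (nat_lit 4) (.cons (.br (nat_lit 6) (.cons (.rel (nat_lit 18255790080)) .nil)) .nil)) (.node (.node (.node .leaf (nat_lit 974270637845392) (.br (nat_lit 6) (.cons (.br (nat_lit 3) (.cons (.rel (nat_lit 17716742160)) (.cons (.rel (nat_lit 17448636432)) (.cons (.rel (nat_lit 34628174880)) .nil)))) .nil)) .leaf) (nat_lit 974270638559417) (.br (nat_lit 3) (.cons (.br (nat_lit 6) (.cons (.rel (nat_lit 34628173845)) .nil)) .nil)) .leaf) (nat_lit 974270638560144) (.br (nat_lit 6) (.cons (.br (nat_lit 3) (.cons (.rel (nat_lit 17716742160)) (.cons (.br (nat_lit 4) (.cons (.rel (nat_lit 1342308609)) (.cons (.rel (nat_lit 18254004288)) (.cons (.rel (nat_lit 35433497604)) .nil)))) (.cons (.rel (nat_lit 34628174880)) .nil)))) (.cons (.br (nat_lit 3) (.cons (.rel (nat_lit 34628174880)) (.cons (.rel (nat_lit 17448370434)) (.cons (.rel (nat_lit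 17448583233)) .nil)))) .nil))) (.node .leaf (nat_lit 974270638560507) (.br (nat_lit 3) (.cons (.br (nat_lit 6) (.cons (.rel (nat_lit 17716742160)) .nil)) .nil)) .leaf))) (nat_lit 974270638619504) (.br (nat_lit 4) (.cons (.br (nat_lit 6) (.cons (.rel (nat_lit 19327362048)) (.cons (.rel (nat_lit 18253628736)) .nil))) .nil)) (.node (.node (.node (.node .leaf (nat_lit 974270638619536) (.br (nat_lit 4) (.cons (.br (nat_lit 3) (.cons (.rel (nat_lit 1342308609)) (.cons (.rel (nat_lit 2415919236)) .nil))) .nil)) .leaf) (nat_lit 974270638619899) (.br (nat_lit 4) (.cons (.br (nat_lit 6) (.cons (.rel (nat_lit 18253873185)) (.cons (.rel (nat_lit 35433497604)) .nil))) .nil)) .leaf) (nat_lit 974276782499996) (.br (nat_lit 4) (.cons (.br (nat_lit 6) (.cons (.rel (nat_lit 18253619472)) .nil)) .nil)) (.node .leaf (nat_lit 974276782500025) (.br (nat_lit 3) (.cons (.br (nat_lit 4) (.cons (.rel (nat_lit 1610617872)) .nil)) .nil)) .leaf)) (nat_lit 974276783214777) (.br (nat_lit 3) (.cons (.br (nat_lit 4) (.cons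 (.rel (nat_lit 2415919236)) .nil)) .nil)) (.node (.node (.node .leaf (nat_lit 974276783274140) (.br (nat_lit 4) (.cons (.br (nat_lit 6) (.cons (.rel (nat_lit 19327418448)) .nil)) .nil)) .leaf) (nat_lit 974276783274864) (.br (nat_lit 4) (.cons (.br (nat_lit 6) (.cons (.rel (nat_lit 18253628736)) .nil)) .nil)) .leaf) (nat_lit 975602347469552) (.br (nat_lit 0) (.cons (.br (nat_lit 1) (.cons (.rel (nat_lit 21250050)) .nil)) .nil)) (.node .leaf (nat_lit 980515264440447) (.br (nat_lit 4) (.cons (.br (nat_lit 6) (.cons (.rel (nat_lit 18253874184)) .nil)) .nil)) .leaf))))) (nat_lit 980515264440505) (.br (nat_lit 3) (.cons (.br (nat_lit 4) (.cons (.rel (nat_lit 1342243152)) .nil)) .nil)) (.node (.node (.node (.node (.node (.node .leaf (nat_lit 980515265155257) (.br (nat_lit 6) (.cons (.br (nat_lit 4) (.cons (.rel (nat_lit 18253644033)) (.cons (.rel (nat_lit 35433497604)) .nil))) .nil)) .leaf) (nat_lit 980515265156347) (.br (nat_lit 4) (.cons (.br (nat_lit 6) (.cons (.rel (nat_lit 18255790080)) (.cons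 (.rel (nat_lit 18253619472)) .nil))) (.cons (.br (nat_lit 6) (.cons (.rel (nat_lit 18254004288)) (.cons (.rel (nat_lit 18253680900)) .nil))) .nil))) .leaf) (nat_lit 980516002330656) (.br (nat_lit 0) (.cons (.br (nat_lit 1) (.cons (.rel (nat_lit 20973828)) .nil)) .nil)) (.node (.node .leaf (nat_lit 980518435334300) (.br (nat_lit 3) (.cons (.br (nat_lit 4) (.cons (.rel (nat_lit 1342704192)) .nil)) .nil)) .leaf) (nat_lit 980518435335056) (.br (nat_lit 4) (.cons (.br (nat_lit 6) (.cons (.rel (nat_lit 18253873185)) (.cons (.rel (nat_lit 18253644033)) (.cons (.rel (nat_lit 19327373316)) (.cons (.rel (nat_lit 18255790080)) .nil))))) (.cons (.br (nat_lit 3) (.cons (.rel (nat_lit 1342308609)) (.cons (.rel (nat_lit 1342443648)) (.cons (.br (nat_lit 6) (.cons (.rel (nat_lit 17448311040)) (.cons (.rel (nat_lit 19327362048)) (.cons (.rel (nat_lit 19327483905)) (.cons (.rel (nat_lit 18254004288)) .nil))))) .nil)))) .nil))) .leaf)) (nat_lit 980518435335405) (.br (nat_lit 3) (.cons (.br (nat_lit 4) (.cons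 (.rel (nat_lit 1342182726)) .nil)) .nil)) (.node (.node (.node .leaf (nat_lit 980518436049776) (.br (nat_lit 4) (.cons (.br (nat_lit 6) (.cons (.rel (nat_lit 18253874184)) .nil)) .nil)) .leaf) (nat_lit 980518436049808) (.br (nat_lit 3) (.cons (.br (nat_lit 4) (.cons (.rel (nat_lit 2685404226)) .nil)) .nil)) .leaf) (nat_lit 980518436061366) (.br (nat_lit 0) (.cons (.br (nat_lit 2) (.cons (.rel (nat_lit 71434248)) .nil)) .nil)) (.node .leaf (nat_lit 980521665664237) (.br (nat_lit 3) (.cons (.br (nat_lit 4) (.cons (.rel (nat_lit 1610629140)) .nil)) .nil)) .leaf))) (nat_lit 980521665664283) (.br (nat_lit 6) (.cons (.br (nat_lit 3) (.cons (.rel (nat_lit 17448311040)) (.cons (.rel (nat_lit 34628173845)) .nil))) .nil)) (.node (.node (.node (.node .leaf (nat_lit 980521667252406) (.br (nat_lit 0) (.cons (.br (nat_lit 3) (.cons (.rel (nat_lit 272631108)) .nil)) .nil)) .leaf) (nat_lit 980564636328811) (.br (nat_lit 0) (.cons (.br (nat_lit 4) (.cons (.rel (nat_lit 1080098880)) (.cons (.rel (nat_lit 1082134530))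 .nil))) (.cons (.br (nat_lit 4) (.cons (.rel (nat_lit 1078006032)) (.cons (.rel (nat_lit 2156986386)) .nil))) .nil))) .leaf) (nat_lit 980721679498491) (.br (nat_lit 0) (.cons (.br (nat_lit 3) (.cons (.rel (nat_lit 272925696)) .nil)) .nil)) (.node .leaf (nat_lit 980727845086469) (.br (nat_lit 2) (.cons (.br (nat_lit 3) (.cons (.rel (nat_lit 671106048)) .nil)) .nil)) .leaf)) (nat_lit 980764506761343) (.br (nat_lit 3) (.cons (.br (nat_lit 4) (.cons (.rel (nat_lit 1342243152)) .nil)) .nil)) (.node (.node (.node .leaf (nat_lit 980764506761401) (.br (nat_lit 4) (.cons (.br (nat_lit 6) (.cons (.rel (nat_lit 18253874184)) .nil)) .nil)) .leaf) (nat_lit 980764507601052) (.br (nat_lit 4) (.cons (.br (nat_lit 6) (.cons (.rel (nat_lit 35433480273)) .nil)) .nil)) .leaf) (nat_lit 980764507602171) (.br (nat_lit 4) (.cons (.br (nat_lit 6) (.cons (.rel (nat_lit 18253619472)) .nil)) .nil)) (.node .leaf (nat_lit 980764509024383) (.br (nat_lit 4) (.cons (.br (nat_lit 6) (.cons (.rel (nat_lit 18253873185)) .nil))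 .nil)) .leaf)))) (nat_lit 980764628396159) (.br (nat_lit 4) (.cons (.br (nat_lit 6) (.cons (.rel (nat_lit 35433486336)) .nil)) .nil)) (.node (.node (.node (.node (.node .leaf (nat_lit 980764628396217) (.br (nat_lit 3) (.cons (.br (nat_lit 6) (.cons (.rel (nat_lit 17716741125)) .nil)) .nil)) .leaf) (nat_lit 980764628396944) (.br (nat_lit 3) (.cons (.br (nat_lit 4) (.cons (.rel (nat_lit 2685468693)) .nil)) .nil)) .leaf) (nat_lit 980764628397339) (.br (nat_lit 3) (.cons (.br (nat_lit 5) (.cons (.rel (nat_lit 4831839240)) (.cons (.rel (nat_lit 4831839240)) (.cons (.rel (nat_lit 4831839240)) .nil)))) (.cons (.br (nat_lit 4) (.cons (.rel (nat_lit 1342198020)) (.cons (.rel (nat_lit 1344307200)) .nil))) .nil))) (.node (.node .leaf (nat_lit 980764629237019) (.br (nat_lit 4) (.cons (.br (nat_lit 3) (.cons (.rel (nat_lit 1610612808)) (.cons (.rel (nat_lit 1610612808)) (.cons (.rel (nat_lit 1342198020)) .nil)))) .nil)) .leaf) (nat_lit 980764630659199) (.br (nat_lit 4) (.cons (.br (nat_lit 3) (.cons (.rel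 (nat_lit 1342308609)) (.cons (.rel (nat_lit 1342308609)) (.cons (.rel (nat_lit 1610629140)) .nil)))) .nil)) .leaf)) (nat_lit 980764630660379) (.br (nat_lit 4) (.cons (.br (nat_lit 6) (.cons (.rel (nat_lit 18253873185)) .nil)) .nil)) (.node (.node (.node .leaf (nat_lit 980767665073040) (.br (nat_lit 3) (.cons (.br (nat_lit 6) (.cons (.rel (nat_lit 34628174880)) .nil)) .nil)) .leaf) (nat_lit 980767665073389) (.br (nat_lit 4) (.cons (.br (nat_lit 6) (.cons (.rel (nat_lit 18255790080)) .nil)) .nil)) .leaf) (nat_lit 980767665911964) (.br (nat_lit 4) (.cons (.br (nat_lit 6) (.cons (.rel (nat_lit 18253873185)) .nil)) .nil)) (.node .leaf (nat_lit 980767665912720) (.br (nat_lit 3) (.cons (.br (nat_lit 4) (.cons (.rel (nat_lit 1342439430)) .nil)) .nil)) .leaf))) (nat_lit 980767667336080) (.br (nat_lit 4) (.cons (.br (nat_lit 6) (.cons (.rel (nat_lit 18253628736)) .nil)) .nil)) (.node (.node (.node (.node .leaf (nat_lit 980884632402832) (.br (nat_lit 3) (.cons (.br (nat_lit 4) (.cons (.rel (nat_lit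 1342441512)) .nil)) .nil)) .leaf) (nat_lit 980887803295929) (.br (nat_lit 4) (.cons (.br (nat_lit 6) (.cons (.rel (nat_lit 18255790080)) .nil)) .nil)) .leaf) (nat_lit 980887803296624) (.br (nat_lit 4) (.cons (.br (nat_lit 6) (.cons (.rel (nat_lit 18253680900)) .nil)) .nil)) (.node .leaf (nat_lit 980890974189724) (.br (nat_lit 4) (.cons (.br (nat_lit 6) (.cons (.rel (nat_lit 18253873185)) .nil)) .nil)) .leaf)) (nat_lit 980891133573905) (.br (nat_lit 1) (.cons (.br (nat_lit 3) (.cons (.rel (nat_lit 285214977)) .nil)) .nil)) (.node (.node (.node .leaf (nat_lit 980891135410436) (.br (nat_lit 1) (.cons (.br (nat_lit 2) (.cons (.rel (nat_lit 83918976)) .nil)) .nil)) .leaf) (nat_lit 980977074044165) (.br (nat_lit 2) (.cons (.br (nat_lit 4) (.cons (.rel (nat_lit 1141117440)) .nil)) .nil)) .leaf) (nat_lit 980977074918632) (.br (nat_lit 2) (.cons (.br (nat_lit 4) (.cons (.rel (nat_lit 1140887568)) .nil)) .nil)) (.node .leaf (nat_lit 980977074918661) (.br (nat_lit 1) (.cons (.br (nat_lit 4) (.cons (.rel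 (nat_lit 2164261956)) .nil)) .nil)) .leaf))))))

/-- refutations 3 -/
def e3 : EX := (.node (.node (.node (.node .leaf (nat_lit 2410656668595738) (.br (nat_lit 1) (.cons (.br (nat_lit 2) (.cons (.br (nat_lit 3) (.cons (.rel (nat_lit 671106048)) .nil)) .nil)) .nil)) .leaf) (nat_lit 2412514897937195) (.br (nat_lit 1) (.cons (.br (nat_lit 5) (.cons (.rel (nat_lit 4328525829)) .nil)) .nil)) .leaf) (nat_lit 2412514897937895) (.br (nat_lit 0) (.cons (.br (nat_lit 1) (.cons (.rel (nat_lit 20971794)) .nil)) .nil)) (.node .leaf (nat_lit 2412514900968935) (.br (nat_lit 1) (.cons (.br (nat_lit 3) (.cons (.rel (nat_lit 302055432)) .nil)) .nil)) .leaf)) (nat_lit 2416585882237683) (.br (nat_lit 0) (.cons (.br (nat_lit 3) (.cons (.rel (nat_lit 272697600)) .nil)) .nil)) (.node (.node .leaf (nat_lit 2416586972757280) (.br (nat_lit 0) (.cons (.br (nat_lit 1) (.cons (.rel (nat_lit 21008640)) .nil)) .nil)) .leaf) (nat_lit 2422456570121749) (.br (nat_lit 0) (.cons (.br (nat_lit 2) (.cons (.rel (nat_lit 71320656))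 .nil)) .nil)) (.node .leaf (nat_lit 2422456571430943) (.br (nat_lit 0) (.cons (.br (nat_lit 2) (.cons (.rel (nat_lit 71335953)) .nil)) .nil)) .leaf)))

/-- refutations 4 -/
def e4 : EX := (.node (.node (.node (.node .leaf (nat_lit 2752347611072668) (.br (nat_lit 1) (.cons (.br (nat_lit 2) (.cons (.rel (nat_lit 83951625)) (.cons (.rel (nat_lit 83886168)) .nil))) (.cons (.br (nat_lit 4) (.cons (.rel (nat_lit 1090519380)) (.cons (.rel (nat_lit 1090535712)) .nil))) .nil))) .leaf) (nat_lit 2837928293926914) (.br (nat_lit 0) (.cons (.br (nat_lit 4) (.cons (.rel (nat_lit 2151748608)) .nil)) .nil)) .leaf) (nat_lit 2837928295307266) (.br (nat_lit 2) (.cons (.br (nat_lit 3) (.cons (.rel (nat_lit 671106048)) .nil)) .nil)) (.node (.node .leaf (nat_lit 2837928295307401) (.br (nat_lit 0) (.cons (.br (nat_lit 2) (.cons (.rel (nat_lit 142610448)) .nil)) .nil)) .leaf) (nat_lit 2837928295308141) (.br (nat_lit 1) (.cons (.br (nat_lit 4) (.cons (.rel (nat_lit 2181300480)) .nil)) .nil)) .leaf)) (nat_lit 2837931307883906)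 (.br (nat_lit 1) (.cons (.br (nat_lit 4) (.cons (.rel (nat_lit 1090584837)) .nil)) .nil)) (.node (.node (.node .leaf (nat_lit 2837931308405412) (.br (nat_lit 1) (.cons (.br (nat_lit 4) (.cons (.rel (nat_lit 1090519380)) .nil)) .nil)) .leaf) (nat_lit 2837931311012097) (.br (nat_lit 4) (.cons (.br (nat_lit 1) (.cons (.rel (nat_lit 2164328448)) (.cons (.rel (nat_lit 1090519380)) .nil))) .nil)) .leaf) (nat_lit 2839005596204543) (.br (nat_lit 0) (.cons (.br (nat_lit 1) (.cons (.rel (nat_lit 21250050)) .nil)) .nil)) (.node (.node .leaf (nat_lit 2843096595008419) (.br (nat_lit 4) (.cons (.br (nat_lit 5) (.cons (.rel (nat_lit 10738470912)) .nil)) .nil)) .leaf) (nat_lit 2843096596387977) (.br (nat_lit 0) (.cons (.br (nat_lit 4) (.cons (.rel (nat_lit 1078198281)) (.cons (.rel (nat_lit 2151759876)) .nil))) .nil)) .leaf)))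

/-- refutations 5 -/
def e5 : EX := (.node .leaf (nat_lit 3166869146576359) (.br (nat_lit 0) (.cons (.br (nat_lit 2) (.cons (.rel (nat_lit 71308353)) .nil)) .nil)) .leaf)

/-- refutations 6 -/
def e6 : EX := (.node (.node (.node .leaf (nat_lit 4860821833194384) (.br (nat_lit 5) (.cons (.br (nat_lit 6) (.cons (.rel (nat_lit 25769804820)) (.cons (.rel (nat_lit 21474840840)) .nil))) .nil)) .leaf) (nat_lit 4862148894034177) (.br (nat_lit 0) (.cons (.br (nat_lit 2) (.cons (.rel (nat_lit 71312394)) .nil)) .nil)) .leaf) (nat_lit 4867480572995721) (.br (nat_lit 0) (.cons (.br (nat_lit 3) (.cons (.rel (nat_lit 541065222)) .nil)) .nil)) (.node (.node .leaf (nat_lit 5026014840172726) (.br (nat_lit 0) (.cons (.br (nat_lit 3) (.cons (.rel (nat_lit 276825108)) .nil)) .nil)) .leaf) (nat_lit 5027142661550112) (.br (nat_lit 0) (.cons (.br (nat_lit 1) (.cons (.rel (nat_lit 25186308)) .nil)) .nil)) .leaf))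

/-- refutations 7 -/
def e7 : EX := (.node (.node (.node .leaf (nat_lit 10995640791191584) (.br (nat_lit 0) (.cons (.br (nat_lit 2) (.cons (.rel (nat_lit 71319621)) .nil)) .nil)) .leaf) (nat_lit 10996279092458102) (.br (nat_lit 0) (.cons (.br (nat_lit 2) (.cons (.rel (nat_lit 71309400)) .nil)) .nil)) (.node .leaf (nat_lit 10996634509951787) (.br (nat_lit 0) (.cons (.br (nat_lit 2) (.cons (.rel (nat_lit 71386113)) .nil)) .nil)) .leaf)) (nat_lit 10997266487715977) (.br (nat_lit 5) (.cons (.br (nat_lit 0) (.cons (.rel (nat_lit 4299227400)) (.cons (.rel (nat_lit 8594128917)) .nil))) .nil)) (.node (.node .leaf (nat_lit 10997266487716771) (.br (nat_lit 0) (.cons (.br (nat_lit 3) (.cons (.rel (nat_lit 272647440)) .nil)) .nil)) .leaf) (nat_lit 10997266490267680) (.br (nat_lit 0) (.cons (.br (nat_lit 1) (.cons (.rel (nat_lit 42991620)) .nil)) .nil)) (.node .leaf (nat_lit 10997266490849317) (.br (nat_lit 2) (.cons (.br (nat_lit 3) (.cons (.rel (nat_lit 335560770)) .nil)) .nil)) .leaf)))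

/-- refutations 8 -/
def e8 : EX := (.node (.node (.node (.node .leaf (nat_lit 10997501163324653) (.br (nat_lit 1) (.cons (.br (nat_lit 4) (.cons (.rel (nat_lit 1090585872)) .nil)) .nil)) .leaf) (nat_lit 10997501690642617) (.br (nat_lit 2) (.cons (.br (nat_lit 4) (.cons (.rel (nat_lit 1140916368)) .nil)) .nil)) (.node .leaf (nat_lit 10997539822213152) (.br (nat_lit 0) (.cons (.br (nat_lit 1) (.cons (.rel (nat_lit 21237792)) .nil)) .nil)) .leaf)) (nat_lit 10997541365718293) (.br (nat_lit 0) (.cons (.br (nat_lit 2) (.cons (.rel (nat_lit 71335953)) .nil)) .nil)) (.node (.node .leaf (nat_lit 10997748687147684) (.br (nat_lit 1) (.cons (.br (nat_lit 2) (.cons (.br (nat_lit 4) (.cons (.rel (nat_lit 1140859968)) (.cons (.rel (nat_lit 2164277253)) .nil))) .nil)) .nil)) .leaf) (nat_lit 10997748687148283) (.br (nat_lit 0) (.cons (.br (nat_lit 4) (.cons (.rel (nat_lit 2151748608)) .nil)) .nil)) (.node .leaf (nat_lit 10997750795655324) (.br (nat_lit 0) (.cons (.br (nat_lit 6) (.cons (.rel (nat_lit 17188257828))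 (.cons (.rel (nat_lit 34363934721)) .nil))) (.cons (.br (nat_lit 5) (.cons (.rel (nat_lit 4299554817)) (.cons (.rel (nat_lit 4303356933)) (.cons (.rel (nat_lit 4299163968)) (.cons (.rel (nat_lit 4303356933)) (.cons (.rel (nat_lit 4303454208)) .nil)))))) .nil))) .leaf))) (nat_lit 10997788817042693) (.br (nat_lit 4) (.cons (.br (nat_lit 0) (.cons (.rel (nat_lit 1082130501)) (.cons (.rel (nat_lit 2151759876)) .nil))) .nil)) (.node (.node (.node .leaf (nat_lit 11000496345111403) (.br (nat_lit 0) (.cons (.br (nat_lit 6) (.cons (.rel (nat_lit 17188257828)) .nil)) .nil)) .leaf) (nat_lit 11000496345111789) (.br (nat_lit 6) (.cons (.br (nat_lit 4) (.cons (.br (nat_lit 0) (.cons (.rel (nat_lit 34363932696)) (.cons (.rel (nat_lit 34363932696)) (.cons (.br (nat_lit 5) (.cons (.rel (nat_lit 25769812032)) (.cons (.rel (nat_lit 21475230720)) (.cons (.rel (nat_lit 21479030802)) .nil)))) .nil)))) (.cons (.rel (nat_lit 18253873185)) .nil))) .nil)) (.node .leaf (nat_lit 11000496345171181) (.br (nat_lit 3) (.cons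 (.br (nat_lit 4) (.cons (.rel (nat_lit 2415919236)) .nil)) .nil)) .leaf)) (nat_lit 11000496348251373) (.br (nat_lit 3) (.cons (.br (nat_lit 4) (.cons (.rel (nat_lit 1342186752)) .nil)) .nil)) (.node (.node .leaf (nat_lit 11000537733329808) (.br (nat_lit 4) (.cons (.br (nat_lit 6) (.cons (.rel (nat_lit 18253619472)) (.cons (.rel (nat_lit 19327418448)) .nil))) .nil)) .leaf) (nat_lit 11000537733330152) (.br (nat_lit 4) (.cons (.br (nat_lit 5) (.cons (.rel (nat_lit 5368730880)) .nil)) .nil)) (.node .leaf (nat_lit 11000537733330171) (.br (nat_lit 4) (.cons (.br (nat_lit 5) (.cons (.rel (nat_lit 5370814464)) .nil)) .nil)) .leaf))))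

/-- refutations 9 -/
def e9 : EX := (.node (.node (.node (.node (.node .leaf (nat_lit 11000573654523117) (.br (nat_lit 1) (.cons (.br (nat_lit 4) (.cons (.rel (nat_lit 1090535712)) .nil)) .nil)) .leaf) (nat_lit 11000722210959990) (.br (nat_lit 1) (.cons (.br (nat_lit 2) (.cons (.rel (nat_lit 101842944)) .nil)) .nil)) .leaf) (nat_lit 11001570471392743) (.br (nat_lit 1) (.cons (.br (nat_lit 2) (.cons (.rel (nat_lit 83888193)) .nil)) .nil)) (.node .leaf (nat_lit 11001778852900996) (.br (nat_lit 0) (.cons (.br (nat_lit 1) (.cons (.rel (nat_lit 21234753)) .nil)) .nil)) .leaf)) (nat_lit 11001779475492077) (.br (nat_lit 2) (.cons (.br (nat_lit 4) (.cons (.rel (nat_lit 1140851721)) .nil)) .nil)) (.node (.node (.node .leaf (nat_lit 11001779475492327) (.br (nat_lit 1) (.cons (.br (nat_lit 2) (.cons (.rel (nat_lit 83902500)) .nil)) .nil)) .leaf) (nat_lit 11002847219204098) (.br (nat_lit 1) (.cons (.br (nat_lit 4) (.cons (.rel (nat_lit 1090585872)) .nil)) .nil)) .leaf) (nat_lit 11002847219460897) (.br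 (nat_lit 1) (.cons (.br (nat_lit 4) (.cons (.rel (nat_lit 1090519380)) .nil)) .nil)) (.node .leaf (nat_lit 11002847221527789) (.br (nat_lit 1) (.cons (.br (nat_lit 4) (.cons (.rel (nat_lit 1090519380)) .nil)) .nil)) .leaf))) (nat_lit 11002849987446122) (.br (nat_lit 1) (.cons (.br (nat_lit 4) (.cons (.rel (nat_lit 1091043840)) .nil)) .nil)) (.node (.node (.node (.node .leaf (nat_lit 11002852573459693) (.br (nat_lit 0) (.cons (.br (nat_lit 3) (.cons (.rel (nat_lit 272925696)) .nil)) .nil)) .leaf) (nat_lit 11003084399994144) (.br (nat_lit 0) (.cons (.br (nat_lit 2) (.cons (.rel (nat_lit 75506304)) .nil)) .nil)) .leaf) (nat_lit 11003084400981280) (.br (nat_lit 1) (.cons (.br (nat_lit 4) (.cons (.rel (nat_lit 1090584837)) .nil)) .nil)) (.node .leaf (nat_lit 11003084401019137) (.br (nat_lit 1) (.cons (.br (nat_lit 4) (.cons (.rel (nat_lit 1090584837)) .nil)) .nil)) .leaf)) (nat_lit 11005913826110371) (.br (nat_lit 0) (.cons (.br (nat_lit 1) (.cons (.rel (nat_lit 25175040)) .nil)) .nil)) (.node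 (.node (.node .leaf (nat_lit 11005914349885567) (.br (nat_lit 1) (.cons (.br (nat_lit 5) (.cons (.rel (nat_lit 8606778432)) .nil)) .nil)) .leaf) (nat_lit 11005914350398725) (.br (nat_lit 0) (.cons (.br (nat_lit 1) (.cons (.rel (nat_lit 37748817)) .nil)) .nil)) .leaf) (nat_lit 11006120242458626) (.br (nat_lit 0) (.cons (.br (nat_lit 3) (.cons (.rel (nat_lit 272631108)) .nil)) .nil)) (.node .leaf (nat_lit 11006120242459379) (.br (nat_lit 1) (.cons (.br (nat_lit 2) (.cons (.rel (nat_lit 83951625)) .nil)) .nil)) .leaf))))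

/-- refutations 10 -/
def e10 : EX := (.node (.node (.node (.node (.node .leaf (nat_lit 11006168409131164) (.br (nat_lit 1) (.cons (.br (nat_lit 2) (.cons (.rel (nat_lit 83902500)) .nil)) .nil)) .leaf) (nat_lit 11007360087100147) (.br (nat_lit 3) (.cons (.br (nat_lit 4) (.cons (.rel (nat_lit 1610617872)) .nil)) .nil)) .leaf) (nat_lit 11007362912742056) (.br (nat_lit 0) (.cons (.br (nat_lit 1) (.cons (.rel (nat_lit 21237792)) .nil)) .nil)) (.node .leaf (nat_lit 11007362913035152) (.br (nat_lit 1) (.cons (.br (nat_lit 4) (.cons (.rel (nat_lit 1107428352)) (.cons (.rel (nat_lit 1090535712)) .nil))) .nil)) .leaf)) (nat_lit 11007362913035496) (.br (nat_lit 3) (.cons (.br (nat_lit 4) (.cons (.rel (nat_lit 1610612808)) (.cons (.rel (nat_lit 2415928341)) .nil))) .nil)) (.node (.node (.node .leaf (nat_lit 11007362914533561) (.br (nat_lit 1) (.cons (.br (nat_lit 2) (.cons (.rel (nat_lit 83888193)) .nil)) .nil)) .leaf) (nat_lit 11007362914561312) (.br (nat_lit 0) (.cons (.br (nat_lit 1) (.cons (.rel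 (nat_lit 21250050)) .nil)) .nil)) .leaf) (nat_lit 11007399999136401) (.br (nat_lit 0) (.cons (.br (nat_lit 1) (.cons (.rel (nat_lit 21008640)) .nil)) .nil)) (.node .leaf (nat_lit 11007400954298995) (.br (nat_lit 0) (.cons (.br (nat_lit 1) (.cons (.rel (nat_lit 20971794)) .nil)) .nil)) .leaf))) (nat_lit 11007400956867820) (.br (nat_lit 0) (.cons (.br (nat_lit 2) (.cons (.rel (nat_lit 71304324)) .nil)) .nil)) (.node (.node (.node (.node .leaf (nat_lit 11007401170760555) (.br (nat_lit 0) (.cons (.br (nat_lit 1) (.cons (.rel (nat_lit 21008640)) .nil)) .nil)) .leaf) (nat_lit 11008061309501692) (.br (nat_lit 1) (.cons (.br (nat_lit 2) (.cons (.rel (nat_lit 84037632)) .nil)) .nil)) .leaf) (nat_lit 11008061309757442) (.br (nat_lit 6) (.cons (.br (nat_lit 3) (.cons (.rel (nat_lit 34628173845)) (.cons (.rel (nat_lit 34628173845)) .nil))) .nil)) (.node .leaf (nat_lit 11008061309757567) (.br (nat_lit 1) (.cons (.br (nat_lit 3) (.cons (.rel (nat_lit 285491208)) .nil)) .nil)) .leaf)) (nat_lit 11008067709753346)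 (.br (nat_lit 1) (.cons (.br (nat_lit 2) (.cons (.br (nat_lit 3) (.cons (.br (nat_lit 0) (.cons (.rel (nat_lit 142610448)) (.cons (.rel (nat_lit 541065222)) (.cons (.rel (nat_lit 20971794)) .nil)))) .nil)) .nil)) .nil)) (.node (.node (.node .leaf (nat_lit 11008067709754020) (.br (nat_lit 2) (.cons (.br (nat_lit 3) (.cons (.rel (nat_lit 335553540)) (.cons (.br (nat_lit 5) (.cons (.rel (nat_lit 8858370066)) (.cons (.rel (nat_lit 4362108936)) .nil))) .nil))) .nil)) .leaf) (nat_lit 11008267724818464) (.br (nat_lit 2) (.cons (.br (nat_lit 0) (.cons (.rel (nat_lit 71319621)) (.cons (.rel (nat_lit 71311392)) .nil))) .nil)) .leaf) (nat_lit 11008272822698739) (.br (nat_lit 2) (.cons (.br (nat_lit 3) (.cons (.rel (nat_lit 335626272)) .nil)) .nil)) (.node .leaf (nat_lit 11008313712711682) (.br (nat_lit 0) (.cons (.br (nat_lit 1) (.cons (.rel (nat_lit 21237792)) .nil)) .nil)) .leaf))))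

/-- refutations 11 -/
def e11 : EX := (.node (.node (.node .leaf (nat_lit 5454926528917536) (.br (nat_lit 0) (.cons (.br (nat_lit 2) (.cons (.rel (nat_lit 71320656)) .nil)) .nil)) .leaf) (nat_lit 5464627213061607) (.br (nat_lit 0) (.cons (.br (nat_lit 1) (.cons (.rel (nat_lit 20973828)) .nil)) .nil)) .leaf) (nat_lit 11440518880865131) (.br (nat_lit 0) (.cons (.br (nat_lit 1) (.cons (.rel (nat_lit 20971794)) .nil)) .nil)) (.node .leaf (nat_lit 11447055813813531) (.br (nat_lit 1) (.cons (.br (nat_lit 2) (.cons (.rel (nat_lit 83891232)) .nil)) .nil)) .leaf))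

/-- refutations 12 -/
def e12 : EX := (.node (.node (.node (.node (.node .leaf (nat_lit 11471704315397408) (.br (nat_lit 1) (.cons (.br (nat_lit 4) (.cons (.rel (nat_lit 1091043840)) .nil)) .nil)) .leaf) (nat_lit 11472530544106757) (.br (nat_lit 3) (.cons (.br (nat_lit 4) (.cons (.rel (nat_lit 1342443648)) .nil)) .nil)) .leaf) (nat_lit 11472736702487840) (.br (nat_lit 0) (.cons (.br (nat_lit 5) (.cons (.rel (nat_lit 4301262849)) (.cons (.rel (nat_lit 8594276352)) .nil))) .nil)) (.node (.node .leaf (nat_lit 11475690041957664) (.br (nat_lit 1) (.cons (.br (nat_lit 2) (.cons (.br (nat_lit 4) (.cons (.rel (nat_lit 1207959816)) (.cons (.rel (nat_lit 1091043840)) .nil))) .nil)) .nil)) .leaf) (nat_lit 11475690045048096) (.br (nat_lit 1) (.cons (.br (nat_lit 4) (.cons (.rel (nat_lit 1091043840)) (.cons (.rel (nat_lit 1107428352)) .nil))) .nil)) .leaf)) (nat_lit 11475691639986351) (.br (nat_lit 0) (.cons (.br (nat_lit 3) (.cons (.rel (nat_lit 276824073)) .nil)) .nil)) (.node (.node (.node .leaf (nat_lit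 11475691639987488) (.br (nat_lit 1) (.cons (.br (nat_lit 4) (.cons (.rel (nat_lit 1107428352)) (.cons (.rel (nat_lit 1090801665)) (.cons (.rel (nat_lit 1091043840)) .nil)))) .nil)) .leaf) (nat_lit 11475691640262158) (.br (nat_lit 0) (.cons (.br (nat_lit 1) (.cons (.rel (nat_lit 25174053)) .nil)) .nil)) .leaf) (nat_lit 11475691641328273) (.br (nat_lit 0) (.cons (.br (nat_lit 4) (.cons (.rel (nat_lit 1078067460)) .nil)) .nil)) (.node (.node .leaf (nat_lit 11475691643076783) (.br (nat_lit 1) (.cons (.br (nat_lit 4) (.cons (.rel (nat_lit 1091043840)) (.cons (.rel (nat_lit 1107428352)) .nil))) .nil)) .leaf) (nat_lit 11475691643077920) (.br (nat_lit 1) (.cons (.br (nat_lit 4) (.cons (.rel (nat_lit 1091043840)) (.cons (.rel (nat_lit 1091043840)) (.cons (.rel (nat_lit 1107428352)) .nil)))) .nil)) .leaf))) (nat_lit 11475691643115675) (.br (nat_lit 1) (.cons (.br (nat_lit 4) (.cons (.rel (nat_lit 1090523409)) .nil)) .nil)) (.node (.node (.node (.node .leaf (nat_lit 11475691643115676) (.br (nat_lit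 4) (.cons (.br (nat_lit 3) (.cons (.rel (nat_lit 1342243152)) (.cons (.rel (nat_lit 1342186752)) (.cons (.rel (nat_lit 2415923265)) (.cons (.rel (nat_lit 1342443648)) (.cons (.rel (nat_lit 1342243152)) (.cons (.rel (nat_lit 1342186752)) (.cons (.rel (nat_lit 1342198020)) (.cons (.rel (nat_lit 1342443648)) (.cons (.rel (nat_lit 1342439430)) .nil)))))))))) (.cons (.br (nat_lit 1) (.cons (.rel (nat_lit 1091043840)) (.cons (.rel (nat_lit 1107300432)) (.cons (.rel (nat_lit 2164328448)) (.cons (.rel (nat_lit 1090786368)) .nil))))) .nil))) .leaf) (nat_lit 11475694655692064) (.br (nat_lit 0) (.cons (.br (nat_lit 4) (.cons (.rel (nat_lit 1080098880)) .nil)) .nil)) .leaf) (nat_lit 11475694658820252) (.br (nat_lit 1) (.cons (.br (nat_lit 6) (.cons (.rel (nat_lit 17196650880)) .nil)) .nil)) (.node (.node .leaf (nat_lit 11475694735382703) (.br (nat_lit 0) (.cons (.br (nat_lit 5) (.cons (.rel (nat_lit 4299227400)) (.cons (.rel (nat_lit 4299227400)) .nil))) .nil)) .leaf) (nat_lit 11475694736875531) (.br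 (nat_lit 0) (.cons (.br (nat_lit 1) (.cons (.rel (nat_lit 39059592)) .nil)) .nil)) .leaf)) (nat_lit 11475694738473135) (.br (nat_lit 0) (.cons (.br (nat_lit 3) (.cons (.rel (nat_lit 276825108)) .nil)) .nil)) (.node (.node (.node .leaf (nat_lit 11481318047144111) (.br (nat_lit 0) (.cons (.br (nat_lit 3) (.cons (.rel (nat_lit 272647440)) .nil)) .nil)) .leaf) (nat_lit 11481318049673218) (.br (nat_lit 0) (.cons (.br (nat_lit 2) (.cons (.rel (nat_lit 138494208)) (.cons (.rel (nat_lit 71335953)) .nil))) .nil)) .leaf) (nat_lit 11482142549153819) (.br (nat_lit 2) (.cons (.br (nat_lit 3) (.cons (.rel (nat_lit 335564808)) .nil)) .nil)) (.node (.node .leaf (nat_lit 11482434741770396) (.br (nat_lit 4) (.cons (.br (nat_lit 1) (.cons (.rel (nat_lit 1091043840)) (.cons (.rel (nat_lit 1090523409)) .nil))) .nil)) .leaf) (nat_lit 11482437656812446) (.br (nat_lit 4) (.cons (.br (nat_lit 6) (.cons (.rel (nat_lit 35433497604)) .nil)) .nil)) .leaf))))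

/-- refutations 13 -/
def e13 : EX := (.node (.node (.node .leaf (nat_lit 11560302382437659) (.br (nat_lit 1) (.cons (.br (nat_lit 4) (.cons (.rel (nat_lit 1091043840)) .nil)) .nil)) .leaf) (nat_lit 11563446298533101) (.br (nat_lit 3) (.cons (.br (nat_lit 4) (.cons (.rel (nat_lit 1342186752)) .nil)) .nil)) (.node .leaf (nat_lit 11563446301672685) (.br (nat_lit 0) (.cons (.br (nat_lit 3) (.cons (.rel (nat_lit 272892033)) .nil)) .nil)) .leaf)) (nat_lit 11570103497841947) (.br (nat_lit 2) (.cons (.br (nat_lit 3) (.cons (.rel (nat_lit 671106048)) .nil)) .nil)) (.node (.node .leaf (nat_lit 11571222774316315) (.br (nat_lit 3) (.cons (.br (nat_lit 4) (.cons (.rel (nat_lit 1342439430)) .nil)) .nil)) .leaf) (nat_lit 11658064389243062) (.br (nat_lit 1) (.cons (.br (nat_lit 2) (.cons (.rel (nat_lit 150996288)) .nil)) .nil)) .leaf))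

/-- refutations 14 -/
def e14 : EX := (.node .leaf (nat_lit 11894952286952326) (.br (nat_lit 0) (.cons (.br (nat_lit 5) (.cons (.rel (nat_lit 4303357968)) .nil)) .nil)) .leaf)

/-- refutations 15 -/
def e15 : EX := (.node (.node .leaf (nat_lit 12070621806707963) (.br (nat_lit 1) (.cons (.br (nat_lit 2) (.cons (.rel (nat_lit 83890197)) .nil)) .nil)) .leaf) (nat_lit 12073824290796776) (.br (nat_lit 0) (.cons (.br (nat_lit 4) (.cons (.rel (nat_lit 1078200354)) .nil)) .nil)) (.node .leaf (nat_lit 12073829063914728) (.br (nat_lit 0) (.cons (.br (nat_lit 3) (.cons (.rel (nat_lit 276824073)) .nil)) .nil)) .leaf))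

/-- refutations 16 -/
def e16 : EX := (.node (.node (.node (.node (.node (.node (.node .leaf (nat_lit 13194225568282780) (.br (nat_lit 4) (.cons (.br (nat_lit 6) (.cons (.rel (nat_lit 19327373316)) .nil)) .nil)) .leaf) (nat_lit 13194225569794204) (.br (nat_lit 4) (.cons (.br (nat_lit 3) (.cons (.rel (nat_lit 1342443648)) (.cons (.rel (nat_lit 1342443648)) .nil))) .nil)) .leaf) (nat_lit 13194225569794974) (.br (nat_lit 3) (.cons (.br (nat_lit 6) (.cons (.rel (nat_lit 17448583233)) .nil)) .nil)) (.node (.node .leaf (nat_lit 13194228606441599) (.br (nat_lit 4) (.cons (.br (nat_lit 1) (.cons (.rel (nat_lit 1091043840)) (.cons (.rel (nat_lit 1090813968)) (.cons (.rel (nat_lit 1090535712)) (.cons (.rel (nat_lit 1090797636)) (.cons (.rel (nat_lit 2164278288)) (.cons (.rel (nat_lit 1090519380)) (.cons (.rel (nat_lit 2164278288)) (.cons (.rel (nat_lit 1090535712)) .nil))))))))) .nil)) .leaf) (nat_lit 13194228606442352) (.br (nat_lit 4) (.cons (.br (nat_lit 5) (.cons (.rel (nat_lit 6442582020)) (.cons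 (.rel (nat_lit 5368742148)) (.cons (.rel (nat_lit 5368709520)) (.cons (.rel (nat_lit 9663680532)) .nil))))) .nil)) .leaf)) (nat_lit 13194228606470329) (.br (nat_lit 4) (.cons (.br (nat_lit 6) (.cons (.rel (nat_lit 18253874184)) .nil)) .nil)) (.node (.node (.node .leaf (nat_lit 13194228726593692) (.br (nat_lit 4) (.cons (.br (nat_lit 6) (.cons (.rel (nat_lit 35433480273)) (.cons (.rel (nat_lit 19327357032)) .nil))) .nil)) .leaf) (nat_lit 13194228728076415) (.br (nat_lit 6) (.cons (.br (nat_lit 3) (.cons (.rel (nat_lit 17448697860)) (.cons (.rel (nat_lit 34628173845)) (.cons (.rel (nat_lit 17716742160)) .nil)))) .nil)) .leaf) (nat_lit 13194228728105087) (.br (nat_lit 3) (.cons (.br (nat_lit 4) (.cons (.rel (nat_lit 1342308609)) .nil)) .nil)) (.node .leaf (nat_lit 13194228728105116) (.br (nat_lit 3) (.cons (.br (nat_lit 4) (.cons (.rel (nat_lit 1342443648)) .nil)) .nil)) .leaf))) (nat_lit 13194228728105145) (.br (nat_lit 6) (.cons (.br (nat_lit 3) (.cons (.rel (nat_lit 34628173845)) (.cons (.rel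 (nat_lit 34628174880)) .nil))) .nil)) (.node (.node (.node (.node .leaf (nat_lit 13194231836055737) (.br (nat_lit 3) (.cons (.br (nat_lit 4) (.cons (.rel (nat_lit 1342439430)) .nil)) .nil)) .leaf) (nat_lit 13194231836056432) (.br (nat_lit 4) (.cons (.br (nat_lit 1) (.cons (.rel (nat_lit 1090519380)) (.cons (.rel (nat_lit 2164261956)) (.cons (.rel (nat_lit 1090535712)) (.cons (.rel (nat_lit 1091043840)) (.cons (.rel (nat_lit 1090813968)) (.cons (.rel (nat_lit 1090519380)) (.cons (.rel (nat_lit 1090535712)) (.cons (.rel (nat_lit 1090797636)) .nil))))))))) .nil)) .leaf) (nat_lit 13194231836056827) (.br (nat_lit 4) (.cons (.br (nat_lit 6) (.cons (.rel (nat_lit 19327362048)) .nil)) .nil)) (.node .leaf (nat_lit 13195740979104675) (.br (nat_lit 0) (.cons (.br (nat_lit 2) (.cons (.rel (nat_lit 138494208)) .nil)) .nil)) .leaf)) (nat_lit 13195742514220519) (.br (nat_lit 0) (.cons (.br (nat_lit 3) (.cons (.rel (nat_lit 272697600)) (.cons (.rel (nat_lit 276824073)) .nil))) (.cons (.br (nat_lit 3) (.cons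 (.rel (nat_lit 274731024)) (.cons (.rel (nat_lit 272925696)) .nil))) .nil))) (.node (.node (.node .leaf (nat_lit 13195742515561379) (.br (nat_lit 1) (.cons (.br (nat_lit 3) (.cons (.rel (nat_lit 285491208)) .nil)) .nil)) .leaf) (nat_lit 13199726283380738) (.br (nat_lit 4) (.cons (.br (nat_lit 1) (.cons (.rel (nat_lit 1090864128)) (.cons (.rel (nat_lit 2164261956)) .nil))) .nil)) .leaf) (nat_lit 13199726285130659) (.br (nat_lit 1) (.cons (.br (nat_lit 3) (.cons (.rel (nat_lit 285286656)) .nil)) .nil)) (.node .leaf (nat_lit 13199728386477442) (.br (nat_lit 1) (.cons (.br (nat_lit 5) (.cons (.rel (nat_lit 4311753024)) .nil)) .nil)) .leaf)))) (nat_lit 13200590708976871) (.br (nat_lit 0) (.cons (.br (nat_lit 4) (.cons (.rel (nat_lit 1080098880)) .nil)) .nil)) (.node (.node (.node (.node (.node .leaf (nat_lit 13200590709816208) (.br (nat_lit 4) (.cons (.br (nat_lit 6) (.cons (.rel (nat_lit 35433482310)) .nil)) .nil)) .leaf) (nat_lit 13200590711239568) (.br (nat_lit 6) (.cons (.br (nat_lit 3) (.cons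 (.rel (nat_lit 17716760640)) (.cons (.rel (nat_lit 34628174880)) .nil))) .nil)) .leaf) (nat_lit 13200590711239931) (.br (nat_lit 4) (.cons (.br (nat_lit 3) (.cons (.rel (nat_lit 2415919236)) (.cons (.rel (nat_lit 1610616837)) .nil))) .nil)) (.node (.node .leaf (nat_lit 13200593867287789) (.br (nat_lit 6) (.cons (.br (nat_lit 3) (.cons (.rel (nat_lit 34628174880)) (.cons (.rel (nat_lit 17716741125)) (.cons (.rel (nat_lit 34628175882)) (.cons (.rel (nat_lit 34628173845)) .nil))))) .nil)) .leaf) (nat_lit 13200593867287835) (.br (nat_lit 3) (.cons (.br (nat_lit 5) (.cons (.rel (nat_lit 4831838241)) (.cons (.rel (nat_lit 4831839240)) (.cons (.rel (nat_lit 4831838241)) (.cons (.rel (nat_lit 4563697680)) .nil))))) .nil)) .leaf)) (nat_lit 13200593869549724) (.br (nat_lit 4) (.cons (.br (nat_lit 1) (.cons (.rel (nat_lit 1090519380)) (.cons (.rel (nat_lit 1090535712)) (.cons (.rel (nat_lit 1091043840)) (.cons (.rel (nat_lit 1090535712)) (.cons (.rel (nat_lit 1090535712)) (.cons (.rel (nat_lit 1107300432))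 (.cons (.rel (nat_lit 1090535712)) (.cons (.rel (nat_lit 2181300480)) .nil))))))))) (.cons (.br (nat_lit 3) (.cons (.rel (nat_lit 2415923265)) (.cons (.rel (nat_lit 1342198020)) (.cons (.rel (nat_lit 1342198020)) (.cons (.rel (nat_lit 1342443648)) .nil))))) .nil))) (.node (.node (.node .leaf (nat_lit 13200593869550843) (.br (nat_lit 4) (.cons (.br (nat_lit 5) (.cons (.rel (nat_lit 5368709520)) (.cons (.rel (nat_lit 5368971300)) (.cons (.rel (nat_lit 9663741960)) (.cons (.rel (nat_lit 5368709520)) (.cons (.rel (nat_lit 6442582020)) (.cons (.rel (nat_lit 5368971300)) (.cons (.rel (nat_lit 5368742148)) .nil)))))))) .nil)) .leaf) (nat_lit 13200596975265919) (.br (nat_lit 4) (.cons (.br (nat_lit 1) (.cons (.rel (nat_lit 1090535712)) (.cons (.rel (nat_lit 1090813968)) (.cons (.rel (nat_lit 1090535712)) (.cons (.rel (nat_lit 1090519380)) (.cons (.rel (nat_lit 1090797636)) (.cons (.rel (nat_lit 1090535712)) (.cons (.rel (nat_lit 1090535712)) (.cons (.rel (nat_lit 1090813968)) .nil))))))))) .nil))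 .leaf) (nat_lit 13200596975267099) (.br (nat_lit 3) (.cons (.br (nat_lit 4) (.cons (.rel (nat_lit 1342439430)) .nil)) .nil)) (.node .leaf (nat_lit 13200596976105599) (.br (nat_lit 3) (.cons (.br (nat_lit 4) (.cons (.rel (nat_lit 1342439430)) .nil)) .nil)) .leaf))) (nat_lit 13200596976106779) (.br (nat_lit 4) (.cons (.br (nat_lit 3) (.cons (.rel (nat_lit 1342198020)) (.cons (.rel (nat_lit 2415935568)) .nil))) .nil)) (.node (.node (.node (.node .leaf (nat_lit 13200596976504194) (.br (nat_lit 1) (.cons (.br (nat_lit 4) (.cons (.rel (nat_lit 1091043840)) .nil)) .nil)) .leaf) (nat_lit 13200596977528988) (.br (nat_lit 4) (.cons (.br (nat_lit 5) (.cons (.rel (nat_lit 5368742148)) (.cons (.rel (nat_lit 5368709520)) (.cons (.rel (nat_lit 6442582020)) (.cons (.rel (nat_lit 5368709520)) (.cons (.rel (nat_lit 5368742148)) (.cons (.rel (nat_lit 9663741960)) .nil))))))) .nil)) .leaf) (nat_lit 13200596977529744) (.br (nat_lit 3) (.cons (.br (nat_lit 4) (.cons (.rel (nat_lit 1342198020)) .nil)) .nil)) (.node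 .leaf (nat_lit 13200596977530139) (.br (nat_lit 6) (.cons (.br (nat_lit 3) (.cons (.rel (nat_lit 17716741125)) (.cons (.rel (nat_lit 34628174880)) .nil))) .nil)) .leaf)) (nat_lit 13200596977638307) (.br (nat_lit 1) (.cons (.br (nat_lit 5) (.cons (.rel (nat_lit 4311753024)) .nil)) .nil)) (.node (.node (.node .leaf (nat_lit 13201875870125317) (.br (nat_lit 1) (.cons (.br (nat_lit 2) (.cons (.br (nat_lit 4) (.cons (.rel (nat_lit 1210057728)) .nil)) .nil)) .nil)) .leaf) (nat_lit 13201919824680962) (.br (nat_lit 1) (.cons (.br (nat_lit 4) (.cons (.rel (nat_lit 2181300480)) .nil)) .nil)) .leaf) (nat_lit 13204900533734786) (.br (nat_lit 1) (.cons (.br (nat_lit 2) (.cons (.rel (nat_lit 83888193)) (.cons (.rel (nat_lit 83890197)) .nil))) .nil)) (.node .leaf (nat_lit 13205353115951915) (.br (nat_lit 0) (.cons (.br (nat_lit 1) (.cons (.rel (nat_lit 22021632)) .nil)) .nil)) .leaf))))) (nat_lit 13207084699015170) (.br (nat_lit 1) (.cons (.br (nat_lit 3) (.cons (.rel (nat_lit 285214977)) .nil)) .nil))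 (.node (.node (.node (.node (.node (.node .leaf (nat_lit 13207084699527295) (.br (nat_lit 3) (.cons (.br (nat_lit 6) (.cons (.rel (nat_lit 17716742160)) (.cons (.rel (nat_lit 34628173845)) .nil))) (.cons (.br (nat_lit 4) (.cons (.rel (nat_lit 1342198020)) (.cons (.rel (nat_lit 1342198020)) .nil))) .nil))) .leaf) (nat_lit 13207084699527324) (.br (nat_lit 4) (.cons (.br (nat_lit 5) (.cons (.rel (nat_lit 5368987776)) (.cons (.rel (nat_lit 5368709520)) (.cons (.rel (nat_lit 5368971300)) (.cons (.rel (nat_lit 10738470912)) .nil))))) .nil)) .leaf) (nat_lit 13207084701832045) (.br (nat_lit 1) (.cons (.br (nat_lit 2) (.cons (.rel (nat_lit 150996288)) .nil)) .nil)) (.node (.node .leaf (nat_lit 13207084701878428) (.br (nat_lit 4) (.cons (.br (nat_lit 5) (.cons (.rel (nat_lit 5368987776)) (.cons (.rel (nat_lit 5368709520)) (.cons (.rel (nat_lit 6442582020)) (.cons (.rel (nat_lit 5368971300)) (.cons (.rel (nat_lit 5368742148)) .nil)))))) .nil)) .leaf) (nat_lit 13207087736204144) (.br (nat_lit 6) (.cons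 (.br (nat_lit 0) (.cons (.rel (nat_lit 17188257828)) (.cons (.rel (nat_lit 17184358416)) (.cons (.rel (nat_lit 34363932696)) (.cons (.rel (nat_lit 34363932696)) (.cons (.rel (nat_lit 17188258818)) (.cons (.rel (nat_lit 17188258818)) .nil))))))) .nil)) .leaf)) (nat_lit 13207087736204525) (.br (nat_lit 4) (.cons (.br (nat_lit 5) (.cons (.rel (nat_lit 6442520592)) (.cons (.rel (nat_lit 10738470912)) (.cons (.rel (nat_lit 5368709520)) (.cons (.rel (nat_lit 5368709520)) (.cons (.rel (nat_lit 5368971300)) (.cons (.rel (nat_lit 5368742148)) .nil))))))) .nil)) (.node (.node (.node .leaf (nat_lit 13207087738526957) (.br (nat_lit 4) (.cons (.br (nat_lit 3) (.cons (.rel (nat_lit 1344307200)) (.cons (.rel (nat_lit 1342308609)) .nil))) .nil)) .leaf) (nat_lit 13207087857326082) (.br (nat_lit 1) (.cons (.br (nat_lit 3) (.cons (.rel (nat_lit 553779204)) .nil)) .nil)) .leaf) (nat_lit 13207087857327490) (.br (nat_lit 1) (.cons (.br (nat_lit 3) (.cons (.rel (nat_lit 553779204)) .nil)) .nil)) (.node .leaf (nat_lit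 13207087857327591) (.br (nat_lit 1) (.cons (.br (nat_lit 5) (.cons (.rel (nat_lit 4328521800)) (.cons (.rel (nat_lit 4311753024)) (.cons (.rel (nat_lit 4312793616)) (.cons (.rel (nat_lit 4312793616)) .nil))))) .nil)) .leaf))) (nat_lit 13207087857838960) (.br (nat_lit 4) (.cons (.br (nat_lit 3) (.cons (.rel (nat_lit 2415923265)) (.cons (.rel (nat_lit 1342186752)) .nil))) .nil)) (.node (.node (.node (.node .leaf (nat_lit 13207087857838992) (.br (nat_lit 4) (.cons (.br (nat_lit 6) (.cons (.rel (nat_lit 35433497604)) .nil)) .nil)) .leaf) (nat_lit 13207087860161392) (.br (nat_lit 6) (.cons (.br (nat_lit 0) (.cons (.rel (nat_lit 34363934721)) (.cons (.rel (nat_lit 17188257828)) (.cons (.rel (nat_lit 34363932696)) (.cons (.rel (nat_lit 17184358416)) (.cons (.rel (nat_lit 17184080160)) (.cons (.rel (nat_lit 17188258818)) .nil))))))) .nil)) .leaf) (nat_lit 13207088283834370) (.br (nat_lit 1) (.cons (.br (nat_lit 3) (.cons (.rel (nat_lit 553649280)) .nil)) .nil)) (.node .leaf (nat_lit 13207090965305346)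 (.br (nat_lit 1) (.cons (.br (nat_lit 4) (.cons (.rel (nat_lit 2181300480)) (.cons (.rel (nat_lit 1090801665)) (.cons (.rel (nat_lit 1090585872)) (.cons (.rel (nat_lit 1090523409)) (.cons (.rel (nat_lit 1090519380)) .nil)))))) .nil)) .leaf)) (nat_lit 13207090965818270) (.br (nat_lit 4) (.cons (.br (nat_lit 6) (.cons (.rel (nat_lit 36508288032)) .nil)) .nil)) (.node (.node (.node .leaf (nat_lit 13207090965818605) (.br (nat_lit 3) (.cons (.br (nat_lit 6) (.cons (.rel (nat_lit 34628173845)) (.cons (.rel (nat_lit 17716742160)) .nil))) .nil)) .leaf) (nat_lit 13207090965818651) (.br (nat_lit 3) (.cons (.br (nat_lit 6) (.cons (.rel (nat_lit 34628173845)) .nil)) .nil)) .leaf) (nat_lit 13207090968122221) (.br (nat_lit 3) (.cons (.br (nat_lit 0) (.cons (.rel (nat_lit 272697600)) (.cons (.rel (nat_lit 541065222)) .nil))) .nil)) (.node .leaf (nat_lit 13207090968141037) (.br (nat_lit 3) (.cons (.br (nat_lit 4) (.cons (.rel (nat_lit 1342186752)) .nil)) .nil)) .leaf)))) (nat_lit 13207090968169374) (.br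 (nat_lit 4) (.cons (.br (nat_lit 6) (.cons (.rel (nat_lit 18254004288)) .nil)) .nil)) (.node (.node (.node (.node (.node .leaf (nat_lit 13207090968169709) (.br (nat_lit 4) (.cons (.br (nat_lit 6) (.cons (.rel (nat_lit 18253873185)) .nil)) .nil)) .leaf) (nat_lit 13207090968169723) (.br (nat_lit 4) (.cons (.br (nat_lit 6) (.cons (.rel (nat_lit 19327418448)) .nil)) .nil)) .leaf) (nat_lit 13207090968189859) (.br (nat_lit 1) (.cons (.br (nat_lit 2) (.cons (.rel (nat_lit 83952660)) (.cons (.rel (nat_lit 84037632)) .nil))) (.cons (.br (nat_lit 4) (.cons (.rel (nat_lit 1091043840)) (.cons (.rel (nat_lit 1090523409)) .nil))) .nil))) (.node (.node .leaf (nat_lit 13207333787499422) (.br (nat_lit 1) (.cons (.br (nat_lit 2) (.cons (.rel (nat_lit 151011585)) .nil)) .nil)) .leaf) (nat_lit 13207333807630463) (.br (nat_lit 4) (.cons (.br (nat_lit 6) (.cons (.rel (nat_lit 35433486336)) .nil)) .nil)) .leaf)) (nat_lit 13207333808470201) (.br (nat_lit 4) (.cons (.br (nat_lit 6) (.cons (.rel (nat_lit 19327362048))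 (.cons (.rel (nat_lit 18253644033)) .nil))) .nil)) (.node (.node (.node .leaf (nat_lit 13207333809893503) (.br (nat_lit 6) (.cons (.br (nat_lit 4) (.cons (.rel (nat_lit 18253873185)) (.cons (.rel (nat_lit 18253874184)) .nil))) .nil)) .leaf) (nat_lit 13207333809952953) (.br (nat_lit 4) (.cons (.br (nat_lit 6) (.cons (.rel (nat_lit 18253873185)) .nil)) .nil)) .leaf) (nat_lit 13207333809953648) (.br (nat_lit 4) (.cons (.br (nat_lit 6) (.cons (.rel (nat_lit 18255712320)) (.cons (.rel (nat_lit 18253628736)) .nil))) (.cons (.br (nat_lit 6) (.cons (.rel (nat_lit 19327357032)) (.cons (.rel (nat_lit 18253644033)) .nil))) .nil))) (.node .leaf (nat_lit 13207333929265279) (.br (nat_lit 4) (.cons (.br (nat_lit 6) (.cons (.rel (nat_lit 35433486336)) .nil)) .nil)) .leaf))) (nat_lit 13207333929266459) (.br (nat_lit 3) (.cons (.br (nat_lit 4) (.cons (.rel (nat_lit 1344307200)) .nil)) .nil)) (.node (.node (.node (.node .leaf (nat_lit 13207333930106139) (.br (nat_lit 4) (.cons (.br (nat_lit 6) (.cons (.rel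 (nat_lit 18253875222)) .nil)) .nil)) .leaf) (nat_lit 13207333931529499) (.br (nat_lit 6) (.cons (.br (nat_lit 4) (.cons (.rel (nat_lit 19327483905)) (.cons (.rel (nat_lit 18253873185)) .nil))) .nil)) .leaf) (nat_lit 13207340195556254) (.br (nat_lit 4) (.cons (.br (nat_lit 6) (.cons (.rel (nat_lit 18255790080)) .nil)) .nil)) (.node .leaf (nat_lit 13207340196395164) (.br (nat_lit 4) (.cons (.br (nat_lit 6) (.cons (.rel (nat_lit 19327483905)) .nil)) .nil)) .leaf)) (nat_lit 13207340196396269) (.br (nat_lit 6) (.cons (.br (nat_lit 3) (.cons (.rel (nat_lit 34628173845)) (.cons (.rel (nat_lit 17716741125)) (.cons (.rel (nat_lit 34628174880)) (.cons (.rel (nat_lit 34628175882)) .nil))))) .nil)) (.node (.node (.node .leaf (nat_lit 13207340197819675) (.br (nat_lit 4) (.cons (.br (nat_lit 6) (.cons (.rel (nat_lit 18254004288)) .nil)) .nil)) .leaf) (nat_lit 13207340197879021) (.br (nat_lit 4) (.cons (.br (nat_lit 3) (.cons (.rel (nat_lit 1610616837)) (.cons (.rel (nat_lit 2415919236)) (.cons (.rel (nat_lit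 1342439430)) .nil)))) .nil)) .leaf) (nat_lit 13207454190700671) (.br (nat_lit 4) (.cons (.br (nat_lit 6) (.cons (.rel (nat_lit 18253873185)) .nil)) .nil)) (.node .leaf (nat_lit 13207454190700729) (.br (nat_lit 4) (.cons (.br (nat_lit 6) (.cons (.rel (nat_lit 18253874184)) .nil)) .nil)) .leaf))))))

/-- refutations 17 -/
def e17 : EX := (.node (.node (.node (.node (.node (.node .leaf (nat_lit 13757178681497727) (.br (nat_lit 3) (.cons (.br (nat_lit 4) (.cons (.rel (nat_lit 1342443648)) .nil)) .nil)) .leaf) (nat_lit 13757178681526399) (.br (nat_lit 3) (.cons (.br (nat_lit 4) (.cons (.rel (nat_lit 1342441512)) .nil)) .nil)) .leaf) (nat_lit 13757178681526428) (.br (nat_lit 4) (.cons (.br (nat_lit 6) (.cons (.rel (nat_lit 19327373316)) .nil)) .nil)) (.node .leaf (nat_lit 13757178681526457) (.br (nat_lit 3) (.cons (.br (nat_lit 4) (.cons (.rel (nat_lit 1342443648)) .nil)) .nil)) .leaf)) (nat_lit 13757178681755111) (.br (nat_lit 0) (.cons (.br (nat_lit 1) (.cons (.rel (nat_lit 25175040)) .nil))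 .nil)) (.node (.node (.node .leaf (nat_lit 13757181730756764) (.br (nat_lit 3) (.cons (.br (nat_lit 4) (.cons (.rel (nat_lit 1342243152)) .nil)) .nil)) .leaf) (nat_lit 13757181730786192) (.br (nat_lit 3) (.cons (.br (nat_lit 6) (.cons (.rel (nat_lit 34628173845)) .nil)) .nil)) .leaf) (nat_lit 13757181730786541) (.br (nat_lit 4) (.cons (.br (nat_lit 6) (.cons (.rel (nat_lit 18253873185)) .nil)) .nil)) (.node .leaf (nat_lit 13763543822971036) (.br (nat_lit 3) (.cons (.br (nat_lit 4) (.cons (.rel (nat_lit 1342439430)) .nil)) .nil)) .leaf))) (nat_lit 13763543822972141) (.br (nat_lit 6) (.cons (.br (nat_lit 4) (.cons (.br (nat_lit 3) (.cons (.rel (nat_lit 34628174880)) (.cons (.rel (nat_lit 17716741125)) (.cons (.rel (nat_lit 34628175882)) (.cons (.rel (nat_lit 2685419520)) (.cons (.rel (nat_lit 34628173845)) (.cons (.rel (nat_lit 1344307200)) .nil))))))) (.cons (.rel (nat_lit 18253680900)) .nil))) .nil)) (.node (.node (.node (.node .leaf (nat_lit 13768140032658320) (.br (nat_lit 2) (.cons (.br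 (nat_lit 4) (.cons (.rel (nat_lit 1140850722)) .nil)) .nil)) .leaf) (nat_lit 13768140032658919) (.br (nat_lit 0) (.cons (.br (nat_lit 2) (.cons (.rel (nat_lit 142610448)) .nil)) .nil)) .leaf) (nat_lit 13770034518790300) (.br (nat_lit 4) (.cons (.br (nat_lit 6) (.cons (.rel (nat_lit 19327418448)) .nil)) .nil)) (.node .leaf (nat_lit 13770034519446384) (.br (nat_lit 3) (.cons (.br (nat_lit 4) (.cons (.rel (nat_lit 1342308609)) .nil)) .nil)) .leaf)) (nat_lit 13770034521053311) (.br (nat_lit 3) (.cons (.br (nat_lit 6) (.cons (.rel (nat_lit 34628173845)) .nil)) .nil)) (.node (.node .leaf (nat_lit 13770034521053369) (.br (nat_lit 4) (.cons (.br (nat_lit 6) (.cons (.rel (nat_lit 18253874184)) .nil)) .nil)) .leaf) (nat_lit 13770034521082041) (.br (nat_lit 3) (.cons (.br (nat_lit 4) (.cons (.rel (nat_lit 1610614881)) .nil)) .nil)) (.node .leaf (nat_lit 13770037811319696) (.br (nat_lit 6) (.cons (.br (nat_lit 4) (.cons (.br (nat_lit 3) (.cons (.rel (nat_lit 34628174880)) (.cons (.rel (nat_lit 2685419520))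 (.cons (.rel (nat_lit 1342308609)) (.cons (.rel (nat_lit 17448567936)) .nil))))) (.cons (.rel (nat_lit 35433497604)) .nil))) .nil)) .leaf)))) (nat_lit 13770037811974319) (.br (nat_lit 0) (.cons (.br (nat_lit 1) (.cons (.rel (nat_lit 22021632)) .nil)) .nil)) (.node (.node (.node (.node (.node .leaf (nat_lit 13770037811974329) (.br (nat_lit 3) (.cons (.br (nat_lit 1) (.cons (.rel (nat_lit 285212952)) (.cons (.rel (nat_lit 285212952)) (.cons (.rel (nat_lit 285474912)) (.cons (.rel (nat_lit 285474912)) (.cons (.rel (nat_lit 285286656)) (.cons (.rel (nat_lit 553779204)) (.cons (.rel (nat_lit 285212952)) (.cons (.rel (nat_lit 285474912)) .nil))))))))) .nil)) .leaf) (nat_lit 13770037811975019) (.br (nat_lit 0) (.cons (.br (nat_lit 1) (.cons (.rel (nat_lit 25186308)) .nil)) .nil)) .leaf) (nat_lit 13770037811975024) (.br (nat_lit 3) (.cons (.br (nat_lit 4) (.cons (.rel (nat_lit 2685419520)) .nil)) .nil)) (.node .leaf (nat_lit 13770037811975056) (.br (nat_lit 3) (.cons (.br (nat_lit 4) (.cons (.rel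 (nat_lit 2685419520)) (.cons (.rel (nat_lit 1342439430)) (.cons (.rel (nat_lit 1342198020)) .nil)))) (.cons (.br (nat_lit 4) (.cons (.rel (nat_lit 1342198020)) (.cons (.rel (nat_lit 1342243152)) (.cons (.rel (nat_lit 1342440465)) .nil)))) (.cons (.br (nat_lit 4) (.cons (.rel (nat_lit 2415919236)) (.cons (.rel (nat_lit 1342308609)) (.cons (.rel (nat_lit 1342440465)) .nil)))) .nil)))) .leaf)) (nat_lit 13770037813610681) (.br (nat_lit 6) (.cons (.br (nat_lit 3) (.cons (.rel (nat_lit 34628173845)) (.cons (.rel (nat_lit 17448697860)) .nil))) .nil)) (.node (.node .leaf (nat_lit 13770037813611408) (.br (nat_lit 6) (.cons (.br (nat_lit 3) (.cons (.rel (nat_lit 34628174880)) (.cons (.rel (nat_lit 17716742160)) (.cons (.rel (nat_lit 34628173845)) (.cons (.rel (nat_lit 34628174880)) .nil))))) .nil)) .leaf) (nat_lit 13770283884950416) (.br (nat_lit 4) (.cons (.br (nat_lit 6) (.cons (.rel (nat_lit 18255790080)) .nil)) .nil)) (.node .leaf (nat_lit 13770283885009052) (.br (nat_lit 4) (.cons (.br (nat_lit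 6) (.cons (.rel (nat_lit 19327483905)) .nil)) .nil)) .leaf))) (nat_lit 13770286921626861) (.br (nat_lit 4) (.cons (.br (nat_lit 6) (.cons (.rel (nat_lit 18254004288)) .nil)) .nil)) (.node (.node (.node (.node .leaf (nat_lit 13770286921685148) (.br (nat_lit 3) (.cons (.br (nat_lit 4) (.cons (.rel (nat_lit 2415919236)) .nil)) .nil)) .leaf) (nat_lit 13770403885977785) (.br (nat_lit 4) (.cons (.br (nat_lit 3) (.cons (.rel (nat_lit 2685419520)) (.cons (.rel (nat_lit 1342243152)) (.cons (.rel (nat_lit 1342521408)) .nil)))) .nil)) .leaf) (nat_lit 13770404141830300) (.br (nat_lit 3) (.cons (.br (nat_lit 4) (.cons (.rel (nat_lit 1342308609)) .nil)) .nil)) (.node .leaf (nat_lit 13770404144122041) (.br (nat_lit 3) (.cons (.br (nat_lit 4) (.cons (.rel (nat_lit 1342308609)) .nil)) .nil)) .leaf)) (nat_lit 13770407056872336) (.br (nat_lit 4) (.cons (.br (nat_lit 6) (.cons (.rel (nat_lit 35433486336)) .nil)) .nil)) (.node (.node .leaf (nat_lit 13770407056872699) (.br (nat_lit 3) (.cons (.br (nat_lit 4) (.cons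 (.rel (nat_lit 1342440465)) .nil)) .nil)) .leaf) (nat_lit 13770410230058221) (.br (nat_lit 4) (.cons (.br (nat_lit 6) (.cons (.rel (nat_lit 18253873185)) .nil)) .nil)) (.node .leaf (nat_lit 13770410230058267) (.br (nat_lit 3) (.cons (.br (nat_lit 4) (.cons (.rel (nat_lit 1344307200)) .nil)) .nil)) .leaf)))))

/-- refutations 18 -/
def e18 : EX := (.node (.node .leaf (nat_lit 14098084257389856) (.br (nat_lit 1) (.cons (.br (nat_lit 2) (.cons (.rel (nat_lit 151019844)) .nil)) .nil)) .leaf) (nat_lit 14098273143675755) (.br (nat_lit 0) (.cons (.br (nat_lit 3) (.cons (.rel (nat_lit 272892033)) .nil)) .nil)) .leaf)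

/-- refutations 19 -/
def e19 : EX := (.node (.node (.node .leaf (nat_lit 15393255089251216) (.br (nat_lit 0) (.cons (.br (nat_lit 1) (.cons (.rel (nat_lit 21008640)) .nil)) .nil)) .leaf) (nat_lit 15398543786187033) (.br (nat_lit 1) (.cons (.br (nat_lit 4) (.cons (.rel (nat_lit 1107365889)) .nil)) .nil)) (.node .leaf (nat_lit 15398543786278944) (.br (nat_lit 0) (.cons (.br (nat_lit 1) (.cons (.rel (nat_lit 20973828)) .nil)) .nil)) .leaf)) (nat_lit 15398752668088352) (.br (nat_lit 1) (.cons (.br (nat_lit 2) (.cons (.rel (nat_lit 83888193)) .nil)) .nil)) (.node (.node .leaf (nat_lit 15873738154219676) (.br (nat_lit 1) (.cons (.br (nat_lit 3) (.cons (.rel (nat_lit 553664577)) .nil)) .nil)) .leaf) (nat_lit 15873741248236275) (.br (nat_lit 0) (.cons (.br (nat_lit 1) (.cons (.rel (nat_lit 21008640)) .nil)) .nil)) .leaf))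

/-- refutations 20 -/
def e20 : EX := (.node (.node .leaf (nat_lit 22096945313234407) (.br (nat_lit 0) (.cons (.br (nat_lit 1) (.cons (.rel (nat_lit 21299220)) .nil)) .nil)) .leaf) (nat_lit 22096950665165712) (.br (nat_lit 0) (.cons (.br (nat_lit 1) (.cons (.rel (nat_lit 21234753)) .nil)) .nil)) .leaf)

/-- refutations 21 -/
def e21 : EX := (.node (.node (.node (.node (.node .leaf (nat_lit 22612622264806637) (.br (nat_lit 2) (.cons (.br (nat_lit 3) (.cons (.rel (nat_lit 402915348)) .nil)) .nil)) .leaf) (nat_lit 22612659474828176) (.br (nat_lit 1) (.cons (.br (nat_lit 4) (.cons (.rel (nat_lit 1107428352)) .nil)) .nil)) (.node .leaf (nat_lit 22612702301866739) (.br (nat_lit 1) (.cons (.br (nat_lit 4) (.cons (.rel (nat_lit 1090523409)) .nil)) .nil)) .leaf)) (nat_lit 22612705961699585) (.br (nat_lit 4) (.cons (.br (nat_lit 0) (.cons (.rel (nat_lit 1078067460)) (.cons (.rel (nat_lit 1078206528)) .nil))) .nil)) (.node (.node .leaf (nat_lit 22612705964698250) (.br (nat_lit 1) (.cons (.br (nat_lit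 2) (.cons (.rel (nat_lit 83888193)) .nil)) .nil)) .leaf) (nat_lit 22613922716708226) (.br (nat_lit 0) (.cons (.br (nat_lit 2) (.cons (.rel (nat_lit 71319621)) .nil)) .nil)) .leaf)) (nat_lit 22613925086488751) (.br (nat_lit 0) (.cons (.br (nat_lit 2) (.cons (.rel (nat_lit 71372820)) .nil)) .nil)) (.node (.node (.node .leaf (nat_lit 22613925088987891) (.br (nat_lit 4) (.cons (.br (nat_lit 6) (.cons (.rel (nat_lit 18253644033)) .nil)) .nil)) .leaf) (nat_lit 22617005859035921) (.br (nat_lit 0) (.cons (.br (nat_lit 1) (.cons (.rel (nat_lit 37748817)) .nil)) .nil)) .leaf) (nat_lit 22617005859097331) (.br (nat_lit 0) (.cons (.br (nat_lit 4) (.cons (.rel (nat_lit 1078198281)) .nil)) .nil)) (.node (.node .leaf (nat_lit 22617011198445724) (.br (nat_lit 4) (.cons (.br (nat_lit 1) (.cons (.rel (nat_lit 1090535712)) (.cons (.rel (nat_lit 1090535712)) (.cons (.rel (nat_lit 2181300480)) .nil)))) .nil)) .leaf) (nat_lit 22617011198446980) (.br (nat_lit 0) (.cons (.br (nat_lit 4) (.cons (.rel (nat_lit 2156988420))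 .nil)) .nil)) .leaf))) (nat_lit 22617011199161627) (.br (nat_lit 0) (.cons (.br (nat_lit 2) (.cons (.rel (nat_lit 71308353)) .nil)) .nil)) (.node (.node (.node (.node .leaf (nat_lit 22617011620276979) (.br (nat_lit 0) (.cons (.br (nat_lit 4) (.cons (.rel (nat_lit 1082130501)) .nil)) .nil)) .leaf) (nat_lit 22617011620279029) (.br (nat_lit 0) (.cons (.br (nat_lit 6) (.cons (.rel (nat_lit 34363932696)) .nil)) .nil)) (.node .leaf (nat_lit 22617011620412069) (.br (nat_lit 5) (.cons (.br (nat_lit 6) (.cons (.rel (nat_lit 21474836802)) .nil)) .nil)) .leaf)) (nat_lit 22617011622777509) (.br (nat_lit 0) (.cons (.br (nat_lit 2) (.cons (.rel (nat_lit 71311392)) .nil)) .nil)) (.node (.node .leaf (nat_lit 22617011623083244) (.br (nat_lit 0) (.cons (.br (nat_lit 3) (.cons (.rel (nat_lit 272892033)) .nil)) .nil)) .leaf) (nat_lit 22618200506632367) (.br (nat_lit 1) (.cons (.br (nat_lit 3) (.cons (.rel (nat_lit 301994004)) .nil)) .nil)) .leaf)) (nat_lit 22618286149109791) (.br (nat_lit 1) (.cons (.br (nat_lit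 4) (.cons (.rel (nat_lit 1107300432)) .nil)) .nil)) (.node (.node (.node .leaf (nat_lit 22618286150420511) (.br (nat_lit 0) (.cons (.br (nat_lit 4) (.cons (.rel (nat_lit 1078067460)) .nil)) .nil)) .leaf) (nat_lit 22618890211737776) (.br (nat_lit 0) (.cons (.br (nat_lit 1) (.cons (.rel (nat_lit 20973828)) .nil)) .nil)) .leaf) (nat_lit 22618904234005156) (.br (nat_lit 2) (.cons (.br (nat_lit 4) (.cons (.rel (nat_lit 1141899525)) .nil)) .nil)) (.node (.node .leaf (nat_lit 22618909996978351) (.br (nat_lit 2) (.cons (.br (nat_lit 4) (.cons (.rel (nat_lit 1140871236)) .nil)) .nil)) .leaf) (nat_lit 22619364839886850) (.br (nat_lit 3) (.cons (.br (nat_lit 4) (.cons (.rel (nat_lit 1342521408)) .nil)) .nil)) .leaf))))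

/-- refutations 22 -/
def e22 : EX := (.node (.node (.node (.node (.node (.node .leaf (nat_lit 22993076353324418) (.br (nat_lit 1) (.cons (.br (nat_lit 4) (.cons (.rel (nat_lit 1090523409)) .nil)) .nil)) .leaf) (nat_lit 22993078312062978) (.br (nat_lit 1) (.cons (.br (nat_lit 3) (.cons (.rel (nat_lit 285212952)) (.cons (.rel (nat_lit 553779204)) .nil))) .nil)) .leaf) (nat_lit 22993078313252128) (.br (nat_lit 1) (.cons (.br (nat_lit 2) (.cons (.br (nat_lit 0) (.cons (.rel (nat_lit 21008640)) (.cons (.rel (nat_lit 138494208)) .nil))) .nil)) .nil)) (.node .leaf (nat_lit 22994586173147793) (.br (nat_lit 3) (.cons (.br (nat_lit 4) (.cons (.rel (nat_lit 2685419520)) .nil)) .nil)) .leaf)) (nat_lit 22994590867709216) (.br (nat_lit 1) (.cons (.br (nat_lit 2) (.cons (.rel (nat_lit 83902500)) .nil)) .nil)) (.node (.node .leaf (nat_lit 22995221195736340) (.br (nat_lit 0) (.cons (.br (nat_lit 2) (.cons (.rel (nat_lit 71307366)) .nil)) .nil)) .leaf) (nat_lit 22995664025389308) (.br (nat_lit 1) (.cons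 (.br (nat_lit 4) (.cons (.rel (nat_lit 1090584837)) .nil)) .nil)) (.node .leaf (nat_lit 22998368155580466) (.br (nat_lit 1) (.cons (.br (nat_lit 2) (.cons (.rel (nat_lit 83951625)) .nil)) .nil)) .leaf))) (nat_lit 22998368155581198) (.br (nat_lit 1) (.cons (.br (nat_lit 2) (.cons (.rel (nat_lit 83886168)) .nil)) .nil)) (.node (.node (.node .leaf (nat_lit 22998571902391203) (.br (nat_lit 1) (.cons (.br (nat_lit 3) (.cons (.br (nat_lit 0) (.cons (.rel (nat_lit 20973828)) (.cons (.rel (nat_lit 272925696)) (.cons (.rel (nat_lit 541066257)) .nil)))) .nil)) .nil)) .leaf) (nat_lit 22998571902798481) (.br (nat_lit 1) (.cons (.br (nat_lit 4) (.cons (.rel (nat_lit 1091043840)) (.cons (.rel (nat_lit 1091043840)) (.cons (.rel (nat_lit 2181300480)) .nil)))) .nil)) (.node .leaf (nat_lit 22998574004144130) (.br (nat_lit 1) (.cons (.br (nat_lit 3) (.cons (.rel (nat_lit 285286656)) .nil)) .nil)) .leaf)) (nat_lit 22998574004145059) (.br (nat_lit 1) (.cons (.br (nat_lit 4) (.cons (.rel (nat_lit 1107365889))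 .nil)) .nil)) (.node (.node .leaf (nat_lit 22998574004236320) (.br (nat_lit 0) (.cons (.br (nat_lit 4) (.cons (.rel (nat_lit 1077952833)) .nil)) .nil)) .leaf) (nat_lit 22998576594475939) (.br (nat_lit 0) (.cons (.br (nat_lit 4) (.cons (.rel (nat_lit 1078067460)) .nil)) .nil)) (.node .leaf (nat_lit 22998576594952827) (.br (nat_lit 0) (.cons (.br (nat_lit 1) (.cons (.rel (nat_lit 21237792)) .nil)) .nil)) .leaf)))) (nat_lit 22998576594953104) (.br (nat_lit 0) (.cons (.br (nat_lit 3) (.cons (.rel (nat_lit 272900100)) .nil)) .nil)) (.node (.node (.node (.node (.node .leaf (nat_lit 22998576595955744) (.br (nat_lit 0) (.cons (.br (nat_lit 3) (.cons (.rel (nat_lit 272697600)) .nil)) .nil)) .leaf) (nat_lit 22999441496398481) (.br (nat_lit 3) (.cons (.br (nat_lit 0) (.cons (.rel (nat_lit 272697600)) (.cons (.rel (nat_lit 276824073)) .nil))) .nil)) .leaf) (nat_lit 22999441918889248) (.br (nat_lit 0) (.cons (.br (nat_lit 1) (.cons (.rel (nat_lit 21008640)) .nil)) .nil)) (.node .leaf (nat_lit 22999733551250340)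 (.br (nat_lit 0) (.cons (.br (nat_lit 2) (.cons (.rel (nat_lit 71304324)) .nil)) .nil)) .leaf)) (nat_lit 23000951314273187) (.br (nat_lit 1) (.cons (.br (nat_lit 2) (.cons (.rel (nat_lit 83902500)) .nil)) .nil)) (.node (.node .leaf (nat_lit 23004202276019107) (.br (nat_lit 1) (.cons (.br (nat_lit 3) (.cons (.rel (nat_lit 285212952)) .nil)) .nil)) .leaf) (nat_lit 23004202278548768) (.br (nat_lit 1) (.cons (.br (nat_lit 4) (.cons (.rel (nat_lit 1107428352)) .nil)) .nil)) (.node .leaf (nat_lit 23004203001633699) (.br (nat_lit 0) (.cons (.br (nat_lit 1) (.cons (.rel (nat_lit 42991620)) .nil)) .nil)) .leaf))) (nat_lit 23004203004163458) (.br (nat_lit 1) (.cons (.br (nat_lit 4) (.cons (.br (nat_lit 0) (.cons (.rel (nat_lit 2151759876)) (.cons (.rel (nat_lit 1078067460)) .nil))) .nil)) .nil)) (.node (.node (.node .leaf (nat_lit 23005937442806417) (.br (nat_lit 1) (.cons (.br (nat_lit 4) (.cons (.rel (nat_lit 1107428352)) (.cons (.rel (nat_lit 1090535712)) .nil))) .nil)) .leaf) (nat_lit 23005937442807170)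 (.br (nat_lit 0) (.cons (.br (nat_lit 3) (.cons (.rel (nat_lit 272646405)) .nil)) .nil)) (.node .leaf (nat_lit 23005937444147202) (.br (nat_lit 1) (.cons (.br (nat_lit 3) (.cons (.rel (nat_lit 553779204)) .nil)) .nil)) .leaf)) (nat_lit 23005937445689346) (.br (nat_lit 0) (.cons (.br (nat_lit 3) (.cons (.rel (nat_lit 272646405)) (.cons (.rel (nat_lit 276824073)) .nil))) .nil)) (.node (.node .leaf (nat_lit 23005937445690754) (.br (nat_lit 3) (.cons (.br (nat_lit 4) (.cons (.rel (nat_lit 1342440465)) .nil)) .nil)) .leaf) (nat_lit 24370762184957214) (.br (nat_lit 2) (.cons (.br (nat_lit 0) (.cons (.rel (nat_lit 71308353)) (.cons (.rel (nat_lit 71308353)) .nil))) .nil)) (.node .leaf (nat_lit 24377309431701686) (.br (nat_lit 0) (.cons (.br (nat_lit 3) (.cons (.rel (nat_lit 273022992)) .nil)) .nil)) .leaf)))))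

/-- refutations 23 -/
def e23 : EX := (.node (.node (.node (.node .leaf (nat_lit 24718622838196500) (.br (nat_lit 1) (.cons (.br (nat_lit 2) (.cons (.rel (nat_lit 83903490)) .nil)) .nil)) .leaf) (nat_lit 24722606136531725) (.br (nat_lit 0) (.cons (.br (nat_lit 1) (.cons (.rel (nat_lit 37748817)) .nil)) .nil)) .leaf) (nat_lit 24722607731389671) (.br (nat_lit 1) (.cons (.br (nat_lit 3) (.cons (.rel (nat_lit 285212952)) .nil)) .nil)) (.node .leaf (nat_lit 24722610829919520) (.br (nat_lit 1) (.cons (.br (nat_lit 2) (.cons (.rel (nat_lit 83888193)) (.cons (.rel (nat_lit 83888193)) .nil))) .nil)) .leaf)) (nat_lit 24828159019033886) (.br (nat_lit 2) (.cons (.br (nat_lit 3) (.cons (.rel (nat_lit 335553540)) .nil)) .nil)) (.node (.node (.node .leaf (nat_lit 24828159252797442) (.br (nat_lit 0) (.cons (.br (nat_lit 3) (.cons (.rel (nat_lit 272635137)) .nil)) .nil)) .leaf) (nat_lit 24828160798847856) (.br (nat_lit 1) (.cons (.br (nat_lit 2) (.cons (.rel (nat_lit 83888193)) .nil)) .nil)) .leaf) (nat_lit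 24835944369905696) (.br (nat_lit 2) (.cons (.br (nat_lit 1) (.cons (.rel (nat_lit 167788608)) (.cons (.rel (nat_lit 83886168)) .nil))) .nil)) (.node .leaf (nat_lit 24835945921798176) (.br (nat_lit 0) (.cons (.br (nat_lit 1) (.cons (.rel (nat_lit 37748817)) .nil)) .nil)) .leaf)))

/-- refutations 24 -/
def e24 : EX := (.node (.node (.node .leaf (nat_lit 25109427970317200) (.br (nat_lit 4) (.cons (.br (nat_lit 6) (.cons (.rel (nat_lit 18253873185)) .nil)) .nil)) .leaf) (nat_lit 25109636834171017) (.br (nat_lit 1) (.cons (.br (nat_lit 4) (.cons (.rel (nat_lit 1107428352)) .nil)) .nil)) .leaf) (nat_lit 25112099347247135) (.br (nat_lit 0) (.cons (.br (nat_lit 1) (.cons (.rel (nat_lit 25175040)) .nil)) .nil)) (.node (.node .leaf (nat_lit 25117000415285924) (.br (nat_lit 2) (.cons (.br (nat_lit 5) (.cons (.rel (nat_lit 4429448208)) (.cons (.rel (nat_lit 4362108936)) .nil))) .nil)) .leaf) (nat_lit 25159277007641837) (.br (nat_lit 1) (.cons (.br (nat_lit 2) (.cons (.rel (nat_lit 150996288)) .nil))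 .nil)) .leaf))

/-- refutations 25 -/
def e25 : EX := (.node (.node (.node (.node (.node (.node (.node .leaf (nat_lit 26493881555384452) (.br (nat_lit 0) (.cons (.br (nat_lit 3) (.cons (.rel (nat_lit 277872912)) (.cons (.rel (nat_lit 272647440)) .nil))) .nil)) .leaf) (nat_lit 26493918216987899) (.br (nat_lit 6) (.cons (.br (nat_lit 3) (.cons (.rel (nat_lit 34628173845)) (.cons (.rel (nat_lit 34628173845)) .nil))) .nil)) (.node .leaf (nat_lit 26493918216987931) (.br (nat_lit 3) (.cons (.br (nat_lit 4) (.cons (.rel (nat_lit 1342440465)) .nil)) .nil)) .leaf)) (nat_lit 26493918217796845) (.br (nat_lit 3) (.cons (.br (nat_lit 4) (.cons (.rel (nat_lit 1342186752)) .nil)) .nil)) (.node (.node .leaf (nat_lit 26493918217796859) (.br (nat_lit 3) (.cons (.br (nat_lit 6) (.cons (.rel (nat_lit 34628173845)) .nil)) .nil)) .leaf) (nat_lit 26493918217851055) (.br (nat_lit 0) (.cons (.br (nat_lit 3) (.cons (.rel (nat_lit 276825108)) .nil)) .nil)) (.node .leaf (nat_lit 26493918219600627) (.br (nat_lit 1) (.cons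 (.br (nat_lit 5) (.cons (.rel (nat_lit 4312793616)) (.cons (.rel (nat_lit 4311744777)) .nil))) .nil)) .leaf))) (nat_lit 26493921375297692) (.br (nat_lit 4) (.cons (.br (nat_lit 5) (.cons (.rel (nat_lit 5368709520)) (.cons (.rel (nat_lit 5368742148)) (.cons (.rel (nat_lit 9663741960)) (.cons (.rel (nat_lit 6442452096)) (.cons (.rel (nat_lit 6442582020)) .nil)))))) .nil)) (.node (.node (.node .leaf (nat_lit 26493921375298448) (.br (nat_lit 3) (.cons (.br (nat_lit 4) (.cons (.rel (nat_lit 1342443648)) .nil)) .nil)) .leaf) (nat_lit 26493921375339373) (.br (nat_lit 3) (.cons (.br (nat_lit 4) (.cons (.rel (nat_lit 1342186752)) .nil)) .nil)) (.node .leaf (nat_lit 26493921376106623) (.br (nat_lit 3) (.cons (.br (nat_lit 4) (.cons (.rel (nat_lit 2415919236)) .nil)) .nil)) .leaf)) (nat_lit 26493921376106681) (.br (nat_lit 4) (.cons (.br (nat_lit 6) (.cons (.rel (nat_lit 18253874184)) .nil)) .nil)) (.node (.node .leaf (nat_lit 26493921376684944) (.br (nat_lit 1) (.cons (.br (nat_lit 3) (.cons (.rel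 (nat_lit 553664577)) .nil)) .nil)) .leaf) (nat_lit 26493921377683583) (.br (nat_lit 6) (.cons (.br (nat_lit 3) (.cons (.rel (nat_lit 17448636432)) (.cons (.rel (nat_lit 34628173845)) .nil))) .nil)) .leaf))) (nat_lit 26493921377683641) (.br (nat_lit 4) (.cons (.br (nat_lit 6) (.cons (.rel (nat_lit 18253874184)) .nil)) .nil)) (.node (.node (.node (.node .leaf (nat_lit 26493921377684368) (.br (nat_lit 3) (.cons (.br (nat_lit 4) (.cons (.rel (nat_lit 1342521408)) .nil)) .nil)) .leaf) (nat_lit 26493924424024944) (.br (nat_lit 3) (.cons (.br (nat_lit 4) (.cons (.rel (nat_lit 1342440465)) .nil)) .nil)) (.node .leaf (nat_lit 26493924424557424) (.br (nat_lit 3) (.cons (.br (nat_lit 4) (.cons (.rel (nat_lit 1610629140)) (.cons (.rel (nat_lit 1342439430)) .nil))) .nil)) .leaf)) (nat_lit 26493924424557456) (.br (nat_lit 6) (.cons (.br (nat_lit 4) (.cons (.rel (nat_lit 35433480273)) (.cons (.rel (nat_lit 35433497604)) (.cons (.rel (nat_lit 36508275729)) .nil)))) (.cons (.br (nat_lit 3) (.cons (.rel (nat_lit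 34628174880)) (.cons (.rel (nat_lit 34628174880)) (.cons (.rel (nat_lit 17448322308)) .nil)))) .nil))) (.node (.node .leaf (nat_lit 26493924425366384) (.br (nat_lit 4) (.cons (.br (nat_lit 6) (.cons (.rel (nat_lit 19327483905)) .nil)) .nil)) .leaf) (nat_lit 26493924425366765) (.br (nat_lit 3) (.cons (.br (nat_lit 4) (.cons (.rel (nat_lit 2415935568)) .nil)) .nil)) (.node .leaf (nat_lit 26493924425421680) (.br (nat_lit 0) (.cons (.br (nat_lit 3) (.cons (.rel (nat_lit 272925696)) .nil)) .nil)) .leaf))) (nat_lit 26493924426943344) (.br (nat_lit 4) (.cons (.br (nat_lit 6) (.cons (.rel (nat_lit 19327483905)) .nil)) .nil)) (.node (.node (.node .leaf (nat_lit 26493924426943376) (.br (nat_lit 4) (.cons (.br (nat_lit 6) (.cons (.rel (nat_lit 35433480273)) .nil)) .nil)) .leaf) (nat_lit 26493924483277680) (.br (nat_lit 4) (.cons (.br (nat_lit 6) (.cons (.rel (nat_lit 35433480273)) .nil)) .nil)) (.node .leaf (nat_lit 26493924483277712) (.br (nat_lit 4) (.cons (.br (nat_lit 3) (.cons (.rel (nat_lit 2415935568))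 (.cons (.rel (nat_lit 1342308609)) (.cons (.rel (nat_lit 1342439430)) (.cons (.rel (nat_lit 1342440465)) .nil))))) (.cons (.br (nat_lit 1) (.cons (.rel (nat_lit 2181300480)) (.cons (.rel (nat_lit 1090519380)) (.cons (.rel (nat_lit 1107361860)) (.cons (.rel (nat_lit 1090519380)) (.cons (.rel (nat_lit 2164328448)) (.cons (.rel (nat_lit 1090519380)) (.cons (.rel (nat_lit 1091043840)) (.cons (.rel (nat_lit 1107300432)) (.cons (.rel (nat_lit 2181300480)) (.cons (.rel (nat_lit 2164269216)) .nil))))))))))) (.cons (.br (nat_lit 0) (.cons (.rel (nat_lit 1078067460)) (.cons (.rel (nat_lit 1078199316)) (.cons (.rel (nat_lit 1078526466)) (.cons (.rel (nat_lit 1078993410)) (.cons (.rel (nat_lit 1079055873)) (.cons (.rel (nat_lit 1078206528)) (.cons (.rel (nat_lit 1078067460)) (.cons (.rel (nat_lit 1078199316)) (.cons (.rel (nat_lit 1082131536)) .nil)))))))))) .nil)))) .leaf)) (nat_lit 26493924483278075) (.br (nat_lit 3) (.cons (.br (nat_lit 4) (.cons (.rel (nat_lit 1342443648)) .nil)) .nil)) (.node (.node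 .leaf (nat_lit 26493924484086640) (.br (nat_lit 6) (.cons (.br (nat_lit 0) (.cons (.rel (nat_lit 17184342084)) (.cons (.rel (nat_lit 17188258818)) (.cons (.rel (nat_lit 34363934721)) (.cons (.rel (nat_lit 17188257828)) (.cons (.rel (nat_lit 17188257828)) (.cons (.rel (nat_lit 34363932696)) .nil))))))) .nil)) .leaf) (nat_lit 26493924484659512) (.br (nat_lit 0) (.cons (.br (nat_lit 3) (.cons (.rel (nat_lit 272635137)) .nil)) .nil)) .leaf)))) (nat_lit 26493924485663632) (.br (nat_lit 6) (.cons (.br (nat_lit 3) (.cons (.rel (nat_lit 34628174880)) (.cons (.rel (nat_lit 34628173845)) .nil))) .nil)) (.node (.node (.node (.node (.node .leaf (nat_lit 26495435162325803) (.br (nat_lit 4) (.cons (.br (nat_lit 5) (.cons (.rel (nat_lit 10738470912)) (.cons (.rel (nat_lit 6442582020)) .nil))) (.cons (.br (nat_lit 0) (.cons (.rel (nat_lit 1078067460)) (.cons (.rel (nat_lit 2151698448)) (.cons (.rel (nat_lit 1078206528)) .nil)))) .nil))) .leaf) (nat_lit 26496070920963309) (.br (nat_lit 1) (.cons (.br (nat_lit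 3) (.cons (.br (nat_lit 0) (.cons (.rel (nat_lit 37748817)) (.cons (.rel (nat_lit 541066257)) .nil))) .nil)) .nil)) (.node .leaf (nat_lit 26499415775990417) (.br (nat_lit 0) (.cons (.br (nat_lit 1) (.cons (.rel (nat_lit 20971794)) .nil)) .nil)) .leaf)) (nat_lit 26499415777739507) (.br (nat_lit 3) (.cons (.br (nat_lit 2) (.cons (.rel (nat_lit 335676432)) (.cons (.rel (nat_lit 335579136)) .nil))) .nil)) (.node (.node .leaf (nat_lit 26499415777740263) (.br (nat_lit 1) (.cons (.br (nat_lit 3) (.cons (.rel (nat_lit 287309829)) .nil)) .nil)) .leaf) (nat_lit 26499419026575535) (.br (nat_lit 1) (.cons (.br (nat_lit 2) (.cons (.rel (nat_lit 83886168)) .nil)) .nil)) (.node .leaf (nat_lit 26500283358554297) (.br (nat_lit 6) (.cons (.br (nat_lit 3) (.cons (.rel (nat_lit 34628173845)) (.cons (.rel (nat_lit 34628173845)) .nil))) .nil)) .leaf))) (nat_lit 26500283358554992) (.br (nat_lit 4) (.cons (.br (nat_lit 1) (.cons (.rel (nat_lit 1090535712)) (.cons (.rel (nat_lit 1090813968)) (.cons (.rel (nat_lit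 1090519380)) (.cons (.rel (nat_lit 1090535712)) (.cons (.rel (nat_lit 1090813968)) (.cons (.rel (nat_lit 1090519380)) (.cons (.rel (nat_lit 1090797636)) (.cons (.rel (nat_lit 1090535712)) .nil))))))))) .nil)) (.node (.node (.node .leaf (nat_lit 26500283359328441) (.br (nat_lit 3) (.cons (.br (nat_lit 4) (.cons (.rel (nat_lit 1342439430)) .nil)) .nil)) .leaf) (nat_lit 26500283359329136) (.br (nat_lit 4) (.cons (.br (nat_lit 1) (.cons (.rel (nat_lit 1090519380)) (.cons (.rel (nat_lit 1090813968)) (.cons (.rel (nat_lit 1090535712)) (.cons (.rel (nat_lit 1090535712)) (.cons (.rel (nat_lit 1090813968)) (.cons (.rel (nat_lit 1090535712)) (.cons (.rel (nat_lit 1090797636)) (.cons (.rel (nat_lit 1090535712)) .nil))))))))) .nil)) (.node .leaf (nat_lit 26500283359329531) (.br (nat_lit 4) (.cons (.br (nat_lit 6) (.cons (.rel (nat_lit 19327373316)) .nil)) .nil)) .leaf)) (nat_lit 26500283359585011) (.br (nat_lit 1) (.cons (.br (nat_lit 2) (.cons (.rel (nat_lit 153157632)) .nil)) .nil)) (.node (.node .leaf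 (nat_lit 26500286517640429) (.br (nat_lit 4) (.cons (.br (nat_lit 6) (.cons (.rel (nat_lit 18253644033)) .nil)) .nil)) .leaf) (nat_lit 26500286517896679) (.br (nat_lit 1) (.cons (.br (nat_lit 3) (.cons (.rel (nat_lit 302055432)) .nil)) .nil)) .leaf))) (nat_lit 26500289566124159) (.br (nat_lit 6) (.cons (.br (nat_lit 4) (.cons (.rel (nat_lit 18253873185)) (.cons (.rel (nat_lit 35433480273)) .nil))) .nil)) (.node (.node (.node (.node .leaf (nat_lit 26500289566183609) (.br (nat_lit 4) (.cons (.br (nat_lit 6) (.cons (.rel (nat_lit 19327373316)) .nil)) .nil)) .leaf) (nat_lit 26500289624844415) (.br (nat_lit 6) (.cons (.br (nat_lit 5) (.cons (.rel (nat_lit 38654706705)) (.cons (.rel (nat_lit 38654705670)) (.cons (.rel (nat_lit 25769889792)) (.cons (.rel (nat_lit 38654705670)) .nil))))) .nil)) (.node .leaf (nat_lit 26500289624845200) (.br (nat_lit 3) (.cons (.br (nat_lit 4) (.cons (.rel (nat_lit 1342214544)) .nil)) .nil)) .leaf)) (nat_lit 26500289624904592) (.br (nat_lit 3) (.cons (.br (nat_lit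 4) (.cons (.rel (nat_lit 1342440465)) .nil)) .nil)) (.node (.node .leaf (nat_lit 26500289625618559) (.br (nat_lit 3) (.cons (.br (nat_lit 6) (.cons (.rel (nat_lit 34628173845)) (.cons (.br (nat_lit 5) (.cons (.rel (nat_lit 4831838241)) (.cons (.rel (nat_lit 21474902304)) (.cons (.rel (nat_lit 8858372100)) (.cons (.rel (nat_lit 4831838241)) (.cons (.rel (nat_lit 4831839240)) .nil)))))) .nil))) .nil)) .leaf) (nat_lit 26500289625619739) (.br (nat_lit 3) (.cons (.br (nat_lit 4) (.cons (.rel (nat_lit 1610617872)) .nil)) .nil)) .leaf)) (nat_lit 26500289625813024) (.br (nat_lit 3) (.cons (.br (nat_lit 2) (.cons (.rel (nat_lit 335613969)) (.cons (.rel (nat_lit 335676432)) .nil))) .nil)) (.node (.node (.node .leaf (nat_lit 26500289625875943) (.br (nat_lit 1) (.cons (.br (nat_lit 4) (.cons (.rel (nat_lit 1090523409)) (.cons (.rel (nat_lit 1107428352)) (.cons (.rel (nat_lit 1091043840)) .nil)))) .nil)) .leaf) (nat_lit 26500289627216047) (.br (nat_lit 1) (.cons (.br (nat_lit 3) (.cons (.rel (nat_lit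 285212952)) .nil)) .nil)) (.node .leaf (nat_lit 26500289627217383) (.br (nat_lit 3) (.cons (.br (nat_lit 0) (.cons (.rel (nat_lit 272635137)) (.cons (.rel (nat_lit 272697600)) .nil))) .nil)) .leaf)) (nat_lit 26500532588292281) (.br (nat_lit 3) (.cons (.br (nat_lit 4) (.cons (.rel (nat_lit 2685419520)) .nil)) .nil)) (.node (.node .leaf (nat_lit 26500532588293008) (.br (nat_lit 3) (.cons (.br (nat_lit 6) (.cons (.rel (nat_lit 17716742160)) .nil)) .nil)) .leaf) (nat_lit 26500532589067120) (.br (nat_lit 4) (.cons (.br (nat_lit 3) (.cons (.rel (nat_lit 1342186752)) (.cons (.rel (nat_lit 2685419520)) .nil))) .nil)) .leaf))))) (nat_lit 26500532589067152) (.br (nat_lit 4) (.cons (.br (nat_lit 6) (.cons (.br (nat_lit 3) (.cons (.rel (nat_lit 34628174880)) (.cons (.rel (nat_lit 34628174880)) .nil))) .nil)) .nil)) (.node (.node (.node (.node (.node (.node .leaf (nat_lit 26500532590643231) (.br (nat_lit 5) (.cons (.br (nat_lit 6) (.cons (.rel (nat_lit 21475102800)) .nil)) .nil)) .leaf) (nat_lit 26500532590643385)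 (.br (nat_lit 4) (.cons (.br (nat_lit 6) (.cons (.rel (nat_lit 18255790080)) .nil)) .nil)) (.node .leaf (nat_lit 26500532590644112) (.br (nat_lit 6) (.cons (.br (nat_lit 3) (.cons (.rel (nat_lit 17716742160)) (.cons (.br (nat_lit 4) (.cons (.rel (nat_lit 18522112020)) (.cons (.rel (nat_lit 18253873185)) (.cons (.rel (nat_lit 18253873185)) .nil)))) (.cons (.rel (nat_lit 34628174880)) .nil)))) (.cons (.br (nat_lit 3) (.cons (.rel (nat_lit 17449877520)) (.cons (.rel (nat_lit 17448322308)) (.cons (.rel (nat_lit 17448567936)) .nil)))) .nil))) .leaf)) (nat_lit 26500538732912767) (.br (nat_lit 6) (.cons (.br (nat_lit 4) (.cons (.rel (nat_lit 18253873185)) (.cons (.rel (nat_lit 18253873185)) (.cons (.rel (nat_lit 19327483905)) (.cons (.rel (nat_lit 18253874184)) .nil))))) .nil)) (.node (.node .leaf (nat_lit 26500538732912825) (.br (nat_lit 6) (.cons (.br (nat_lit 4) (.cons (.rel (nat_lit 36508288032)) (.cons (.rel (nat_lit 18253874184)) .nil))) .nil)) .leaf) (nat_lit 26500538732947641) (.br (nat_lit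 4) (.cons (.br (nat_lit 6) (.cons (.rel (nat_lit 18253644033)) (.cons (.rel (nat_lit 18253873185)) .nil))) .nil)) (.node .leaf (nat_lit 26500538733721727) (.br (nat_lit 6) (.cons (.br (nat_lit 4) (.cons (.rel (nat_lit 19327483905)) (.cons (.rel (nat_lit 35433486336)) (.cons (.rel (nat_lit 19327418448)) .nil)))) .nil)) .leaf))) (nat_lit 26500538733721785) (.br (nat_lit 3) (.cons (.br (nat_lit 4) (.cons (.rel (nat_lit 1342439430)) .nil)) .nil)) (.node (.node (.node .leaf (nat_lit 26500538735298745) (.br (nat_lit 4) (.cons (.br (nat_lit 6) (.cons (.rel (nat_lit 35433497604)) .nil)) .nil)) .leaf) (nat_lit 26500538854547583) (.br (nat_lit 4) (.cons (.br (nat_lit 5) (.cons (.rel (nat_lit 9663680532)) (.cons (.rel (nat_lit 5368709520)) (.cons (.rel (nat_lit 5368987776)) (.cons (.rel (nat_lit 5368987776)) .nil))))) .nil)) (.node .leaf (nat_lit 26500538854547641) (.br (nat_lit 6) (.cons (.br (nat_lit 4) (.cons (.rel (nat_lit 36508288032)) (.cons (.rel (nat_lit 18253874184)) .nil))) .nil)) .leaf))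 (nat_lit 26500538854548368) (.br (nat_lit 3) (.cons (.br (nat_lit 4) (.cons (.rel (nat_lit 1342443648)) .nil)) .nil)) (.node (.node .leaf (nat_lit 26500538854548763) (.br (nat_lit 3) (.cons (.br (nat_lit 4) (.cons (.rel (nat_lit 1342441512)) .nil)) .nil)) .leaf) (nat_lit 26500538855356543) (.br (nat_lit 3) (.cons (.br (nat_lit 6) (.cons (.rel (nat_lit 17716741125)) .nil)) .nil)) .leaf))) (nat_lit 26500538855356601) (.br (nat_lit 3) (.cons (.br (nat_lit 6) (.cons (.rel (nat_lit 17716838400)) .nil)) .nil)) (.node (.node (.node (.node .leaf (nat_lit 26500767645442223) (.br (nat_lit 0) (.cons (.br (nat_lit 1) (.cons (.rel (nat_lit 37748817)) .nil)) .nil)) .leaf) (nat_lit 26500767646213398) (.br (nat_lit 3) (.cons (.br (nat_lit 4) (.cons (.rel (nat_lit 1342439430)) .nil)) .nil)) (.node .leaf (nat_lit 26500770806159535) (.br (nat_lit 0) (.cons (.br (nat_lit 1) (.cons (.rel (nat_lit 21037440)) .nil)) .nil)) .leaf)) (nat_lit 26501797935342978) (.br (nat_lit 2) (.cons (.br (nat_lit 4) (.cons (.rel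 (nat_lit 1140851721)) (.cons (.rel (nat_lit 1140948996)) .nil))) .nil)) (.node (.node .leaf (nat_lit 26501800303651728) (.br (nat_lit 0) (.cons (.br (nat_lit 1) (.cons (.rel (nat_lit 21237792)) (.cons (.rel (nat_lit 21037440)) .nil))) .nil)) .leaf) (nat_lit 26501800305123503) (.br (nat_lit 2) (.cons (.br (nat_lit 0) (.cons (.rel (nat_lit 71434248)) (.cons (.rel (nat_lit 142671876)) (.cons (.rel (nat_lit 142671876)) .nil)))) (.cons (.br (nat_lit 0) (.cons (.rel (nat_lit 71370816)) (.cons (.rel (nat_lit 138494208)) (.cons (.br (nat_lit 3) (.cons (.rel (nat_lit 273022992)) (.cons (.rel (nat_lit 335676432)) (.cons (.rel (nat_lit 276825108)) .nil)))) .nil)))) .nil))) .leaf)) (nat_lit 26501833294342171) (.br (nat_lit 0) (.cons (.br (nat_lit 1) (.cons (.rel (nat_lit 20973828)) .nil)) .nil)) (.node (.node (.node .leaf (nat_lit 26504874131516303) (.br (nat_lit 0) (.cons (.br (nat_lit 2) (.cons (.rel (nat_lit 71311392)) .nil)) .nil)) .leaf) (nat_lit 26504882728815504) (.br (nat_lit 1) (.cons (.br (nat_lit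 4) (.cons (.rel (nat_lit 1091043840)) .nil)) .nil)) (.node .leaf (nat_lit 26504882728816103) (.br (nat_lit 2) (.cons (.br (nat_lit 0) (.cons (.rel (nat_lit 71304324)) (.cons (.rel (nat_lit 71386113)) .nil))) .nil)) .leaf)) (nat_lit 26504882730042256) (.br (nat_lit 1) (.cons (.br (nat_lit 4) (.cons (.rel (nat_lit 1091043840)) .nil)) .nil)) (.node (.node .leaf (nat_lit 26504885383809281) (.br (nat_lit 1) (.cons (.br (nat_lit 2) (.cons (.rel (nat_lit 83903490)) .nil)) .nil)) .leaf) (nat_lit 26506078092550319) (.br (nat_lit 1) (.cons (.br (nat_lit 0) (.cons (.rel (nat_lit 21299220)) (.cons (.rel (nat_lit 21299220)) .nil))) .nil)) .leaf)))) (nat_lit 26506732075789168) (.br (nat_lit 4) (.cons (.br (nat_lit 1) (.cons (.rel (nat_lit 1090585872)) (.cons (.rel (nat_lit 1090523409)) .nil))) .nil)) (.node (.node (.node (.node (.node .leaf (nat_lit 26506732075789214) (.br (nat_lit 3) (.cons (.br (nat_lit 4) (.cons (.rel (nat_lit 1342439430)) .nil)) .nil)) .leaf) (nat_lit 26506777349105675) (.br (nat_lit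 0) (.cons (.br (nat_lit 2) (.cons (.rel (nat_lit 71335953)) .nil)) .nil)) (.node .leaf (nat_lit 26506777349105791) (.br (nat_lit 4) (.cons (.br (nat_lit 3) (.cons (.rel (nat_lit 1342186752)) (.cons (.rel (nat_lit 1342443648)) .nil))) .nil)) .leaf)) (nat_lit 26506777349105820) (.br (nat_lit 4) (.cons (.br (nat_lit 6) (.cons (.rel (nat_lit 19327362048)) .nil)) .nil)) (.node (.node .leaf (nat_lit 26506777349165183) (.br (nat_lit 3) (.cons (.br (nat_lit 4) (.cons (.rel (nat_lit 1342198020)) .nil)) .nil)) .leaf) (nat_lit 26506777349165241) (.br (nat_lit 4) (.cons (.br (nat_lit 6) (.cons (.rel (nat_lit 18253874184)) .nil)) .nil)) (.node .leaf (nat_lit 26506777349935279) (.br (nat_lit 1) (.cons (.br (nat_lit 6) (.cons (.rel (nat_lit 17213694480)) .nil)) .nil)) .leaf))) (nat_lit 26506777351456953) (.br (nat_lit 3) (.cons (.br (nat_lit 4) (.cons (.br (nat_lit 6) (.cons (.rel (nat_lit 35433497604)) (.cons (.rel (nat_lit 34628173845)) .nil))) .nil)) .nil)) (.node (.node (.node .leaf (nat_lit 26506777351477423)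 (.br (nat_lit 1) (.cons (.br (nat_lit 2) (.cons (.br (nat_lit 5) (.cons (.rel (nat_lit 4311745812)) (.cons (.rel (nat_lit 4362145794)) .nil))) (.cons (.rel (nat_lit 83902500)) .nil))) (.cons (.br (nat_lit 5) (.cons (.rel (nat_lit 4328538132)) (.cons (.rel (nat_lit 4328521800)) .nil))) .nil))) .leaf) (nat_lit 26506777351630873) (.br (nat_lit 1) (.cons (.br (nat_lit 2) (.cons (.rel (nat_lit 83959872)) (.cons (.rel (nat_lit 83902500)) .nil))) .nil)) (.node .leaf (nat_lit 26506780507417488) (.br (nat_lit 3) (.cons (.br (nat_lit 4) (.cons (.rel (nat_lit 1342308609)) (.cons (.rel (nat_lit 1610617872)) .nil))) .nil)) .leaf)) (nat_lit 26506780507476848) (.br (nat_lit 3) (.cons (.br (nat_lit 4) (.cons (.rel (nat_lit 1342308609)) .nil)) .nil)) (.node (.node .leaf (nat_lit 26506780507476880) (.br (nat_lit 4) (.cons (.br (nat_lit 6) (.cons (.rel (nat_lit 35433497604)) .nil)) .nil)) .leaf) (nat_lit 26506780509767865) (.br (nat_lit 6) (.cons (.br (nat_lit 3) (.cons (.rel (nat_lit 17448697860)) (.cons (.rel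 (nat_lit 34628173845)) .nil))) .nil)) .leaf))) (nat_lit 26506780509768592) (.br (nat_lit 3) (.cons (.br (nat_lit 4) (.cons (.rel (nat_lit 1342443648)) (.cons (.rel (nat_lit 1610679300)) .nil))) .nil)) (.node (.node (.node (.node .leaf (nat_lit 26506782468529538) (.br (nat_lit 1) (.cons (.br (nat_lit 4) (.cons (.rel (nat_lit 1090523409)) .nil)) .nil)) .leaf) (nat_lit 26506783615396766) (.br (nat_lit 3) (.cons (.br (nat_lit 6) (.cons (.rel (nat_lit 34628173845)) .nil)) .nil)) (.node .leaf (nat_lit 26506783615397101) (.br (nat_lit 4) (.cons (.br (nat_lit 1) (.cons (.rel (nat_lit 1091043840)) (.cons (.rel (nat_lit 1090797636)) (.cons (.rel (nat_lit 1090535712)) (.cons (.rel (nat_lit 1090519380)) (.cons (.rel (nat_lit 1090813968)) (.cons (.rel (nat_lit 2164261956)) (.cons (.rel (nat_lit 1090535712)) (.cons (.rel (nat_lit 2164261956)) .nil))))))))) .nil)) .leaf)) (nat_lit 26506783616225455) (.br (nat_lit 1) (.cons (.br (nat_lit 3) (.cons (.rel (nat_lit 285212952)) .nil)) .nil)) (.node (.node .leaf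 (nat_lit 26506783617748251) (.br (nat_lit 3) (.cons (.br (nat_lit 4) (.cons (.rel (nat_lit 1610629140)) .nil)) .nil)) .leaf) (nat_lit 26506783617767599) (.br (nat_lit 2) (.cons (.br (nat_lit 1) (.cons (.rel (nat_lit 83902500)) (.cons (.rel (nat_lit 83952660)) .nil))) .nil)) .leaf)) (nat_lit 26507146837893247) (.br (nat_lit 4) (.cons (.br (nat_lit 6) (.cons (.rel (nat_lit 35433486336)) .nil)) .nil)) (.node (.node (.node .leaf (nat_lit 26507146837893305) (.br (nat_lit 4) (.cons (.br (nat_lit 6) (.cons (.rel (nat_lit 18253874184)) .nil)) .nil)) .leaf) (nat_lit 26507146837987455) (.br (nat_lit 4) (.cons (.br (nat_lit 6) (.cons (.rel (nat_lit 18253874184)) .nil)) .nil)) (.node .leaf (nat_lit 26507146838702265) (.br (nat_lit 4) (.cons (.br (nat_lit 6) (.cons (.rel (nat_lit 35433486336)) .nil)) .nil)) .leaf)) (nat_lit 26507146840279167) (.br (nat_lit 4) (.cons (.br (nat_lit 6) (.cons (.rel (nat_lit 18253873185)) .nil)) .nil)) (.node (.node .leaf (nat_lit 26507146840279225) (.br (nat_lit 4) (.cons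 (.br (nat_lit 6) (.cons (.rel (nat_lit 18253874184)) .nil)) .nil)) .leaf) (nat_lit 26507189768990852) (.br (nat_lit 0) (.cons (.br (nat_lit 2) (.cons (.rel (nat_lit 71370816)) .nil)) .nil)) .leaf))))))

/-- refutations 26 -/
def e26 : EX := (.node (.node (.node (.node (.node (.node .leaf (nat_lit 26517017476462727) (.br (nat_lit 0) (.cons (.br (nat_lit 1) (.cons (.rel (nat_lit 20971794)) .nil)) .nil)) .leaf) (nat_lit 27004091520000912) (.br (nat_lit 0) (.cons (.br (nat_lit 2) (.cons (.rel (nat_lit 71386113)) .nil)) .nil)) .leaf) (nat_lit 27004091520001275) (.br (nat_lit 0) (.cons (.br (nat_lit 6) (.cons (.rel (nat_lit 17184067857)) .nil)) .nil)) (.node .leaf (nat_lit 27004097878565744) (.br (nat_lit 4) (.cons (.br (nat_lit 6) (.cons (.rel (nat_lit 19327373316)) .nil)) .nil)) .leaf)) (nat_lit 27004097878565776) (.br (nat_lit 6) (.cons (.br (nat_lit 3) (.cons (.br (nat_lit 4) (.cons (.rel (nat_lit 2685419520)) (.cons (.rel (nat_lit 18253873185)) .nil))) (.cons (.rel (nat_lit 34628173845)) .nil)))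 .nil)) (.node (.node .leaf (nat_lit 27004097879440272) (.br (nat_lit 3) (.cons (.br (nat_lit 6) (.cons (.rel (nat_lit 17448567936)) (.cons (.rel (nat_lit 17716741125)) .nil))) .nil)) .leaf) (nat_lit 27004285850024586) (.br (nat_lit 0) (.cons (.br (nat_lit 2) (.cons (.rel (nat_lit 71311392)) .nil)) .nil)) (.node .leaf (nat_lit 27009589560007917) (.br (nat_lit 1) (.cons (.br (nat_lit 2) (.cons (.rel (nat_lit 83903490)) .nil)) .nil)) .leaf))) (nat_lit 27010462961412223) (.br (nat_lit 4) (.cons (.br (nat_lit 3) (.cons (.rel (nat_lit 1342439430)) (.cons (.rel (nat_lit 1610612808)) (.cons (.rel (nat_lit 1342439430)) .nil)))) .nil)) (.node (.node (.node (.node .leaf (nat_lit 27010462961412281) (.br (nat_lit 4) (.cons (.br (nat_lit 6) (.cons (.rel (nat_lit 18253874184)) .nil)) .nil)) .leaf) (nat_lit 27010462961471673) (.br (nat_lit 4) (.cons (.br (nat_lit 3) (.cons (.rel (nat_lit 1342439430)) (.cons (.rel (nat_lit 1342439430)) (.cons (.rel (nat_lit 1610612808)) .nil)))) .nil)) .leaf) (nat_lit 27010462961472299)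 (.br (nat_lit 0) (.cons (.br (nat_lit 2) (.cons (.rel (nat_lit 71308353)) .nil)) .nil)) (.node .leaf (nat_lit 27010463020132537) (.br (nat_lit 4) (.cons (.br (nat_lit 6) (.cons (.rel (nat_lit 19327362048)) (.cons (.rel (nat_lit 18253874184)) .nil))) .nil)) .leaf)) (nat_lit 27010463020133659) (.br (nat_lit 3) (.cons (.br (nat_lit 6) (.cons (.rel (nat_lit 17716741125)) .nil)) .nil)) (.node (.node .leaf (nat_lit 27010463020191871) (.br (nat_lit 4) (.cons (.br (nat_lit 3) (.cons (.rel (nat_lit 2415923265)) (.cons (.rel (nat_lit 1342439430)) (.cons (.rel (nat_lit 1342439430)) .nil)))) .nil)) .leaf) (nat_lit 27010463020972159) (.br (nat_lit 3) (.cons (.br (nat_lit 6) (.cons (.rel (nat_lit 34628173845)) .nil)) .nil)) (.node .leaf (nat_lit 27010463022396699) (.br (nat_lit 3) (.cons (.br (nat_lit 4) (.cons (.rel (nat_lit 1610616837)) .nil)) .nil)) .leaf)))) (nat_lit 27010712128200831) (.br (nat_lit 6) (.cons (.br (nat_lit 4) (.cons (.rel (nat_lit 19327483905)) (.cons (.rel (nat_lit 18253874184)) .nil)))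 .nil)) (.node (.node (.node (.node (.node .leaf (nat_lit 27010712128200889) (.br (nat_lit 4) (.cons (.br (nat_lit 6) (.cons (.rel (nat_lit 18253874184)) .nil)) .nil)) .leaf) (nat_lit 27010712128235676) (.br (nat_lit 4) (.cons (.br (nat_lit 6) (.cons (.rel (nat_lit 19327373316)) .nil)) .nil)) .leaf) (nat_lit 27010712128235705) (.br (nat_lit 4) (.cons (.br (nat_lit 6) (.cons (.rel (nat_lit 18253873185)) .nil)) .nil)) (.node .leaf (nat_lit 27010712128236400) (.br (nat_lit 4) (.cons (.br (nat_lit 6) (.cons (.rel (nat_lit 18255790080)) .nil)) .nil)) .leaf)) (nat_lit 27010712249835647) (.br (nat_lit 4) (.cons (.br (nat_lit 0) (.cons (.rel (nat_lit 2151759876)) (.cons (.rel (nat_lit 2151698448)) (.cons (.rel (nat_lit 2151682116)) (.cons (.rel (nat_lit 2151759876)) (.cons (.rel (nat_lit 2151682116)) .nil)))))) .nil)) (.node (.node .leaf (nat_lit 27010712249835705) (.br (nat_lit 4) (.cons (.br (nat_lit 6) (.cons (.rel (nat_lit 18253874184)) .nil)) .nil)) .leaf) (nat_lit 27010755222886537) (.br (nat_lit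 0) (.cons (.br (nat_lit 5) (.cons (.rel (nat_lit 4299432960)) .nil)) .nil)) (.node .leaf (nat_lit 27016953781069980) (.br (nat_lit 3) (.cons (.br (nat_lit 4) (.cons (.rel (nat_lit 1342186752)) .nil)) .nil)) .leaf))) (nat_lit 27016953781070736) (.br (nat_lit 3) (.cons (.br (nat_lit 4) (.cons (.br (nat_lit 5) (.cons (.rel (nat_lit 5368971300)) (.cons (.rel (nat_lit 4831838241)) (.cons (.rel (nat_lit 4831839240)) (.cons (.rel (nat_lit 5368742148)) (.cons (.rel (nat_lit 4831838241)) .nil)))))) .nil)) .nil)) (.node (.node (.node (.node .leaf (nat_lit 27016953781130096) (.br (nat_lit 3) (.cons (.br (nat_lit 4) (.cons (.rel (nat_lit 2685419520)) .nil)) .nil)) .leaf) (nat_lit 27016953781130128) (.br (nat_lit 4) (.cons (.br (nat_lit 6) (.cons (.rel (nat_lit 35433486336)) .nil)) .nil)) .leaf) (nat_lit 27016957010684830) (.br (nat_lit 3) (.cons (.br (nat_lit 4) (.cons (.rel (nat_lit 1342439430)) .nil)) .nil)) (.node .leaf (nat_lit 27016957010685165) (.br (nat_lit 4) (.cons (.br (nat_lit 5) (.cons (.rel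 (nat_lit 5368709520)) (.cons (.rel (nat_lit 10738470912)) (.cons (.rel (nat_lit 5368742148)) (.cons (.rel (nat_lit 5368709520)) (.cons (.rel (nat_lit 5368709520)) .nil)))))) .nil)) .leaf)) (nat_lit 27016957010685211) (.br (nat_lit 4) (.cons (.br (nat_lit 6) (.cons (.rel (nat_lit 18253873185)) .nil)) .nil)) (.node (.node .leaf (nat_lit 27016957010744571) (.br (nat_lit 4) (.cons (.br (nat_lit 2) (.cons (.rel (nat_lit 2281701393)) (.cons (.rel (nat_lit 2215133256)) (.cons (.rel (nat_lit 2281709652)) (.cons (.rel (nat_lit 2281701393)) (.cons (.rel (nat_lit 1140916368)) (.cons (.rel (nat_lit 1140871236)) (.cons (.rel (nat_lit 2215645332)) .nil)))))))) .nil)) .leaf) (nat_lit 27016957011513481) (.br (nat_lit 0) (.cons (.br (nat_lit 6) (.cons (.rel (nat_lit 34363932696)) (.cons (.rel (nat_lit 17188257828)) (.cons (.rel (nat_lit 17184080160)) .nil)))) .nil)) (.node .leaf (nat_lit 27016957011514656) (.br (nat_lit 0) (.cons (.br (nat_lit 2) (.cons (.rel (nat_lit 71308353)) .nil)) .nil)) .leaf)))))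

/-- refutations 27 -/
def e27 : EX := (.node (.node (.node (.node .leaf (nat_lit 27391308683813776) (.br (nat_lit 0) (.cons (.br (nat_lit 3) (.cons (.rel (nat_lit 272892033)) .nil)) .nil)) .leaf) (nat_lit 27391308683858832) (.br (nat_lit 0) (.cons (.br (nat_lit 2) (.cons (.rel (nat_lit 71323650)) .nil)) .nil)) (.node .leaf (nat_lit 27398645559593617) (.br (nat_lit 1) (.cons (.br (nat_lit 4) (.cons (.rel (nat_lit 2164265985)) .nil)) .nil)) .leaf)) (nat_lit 27401792191217695) (.br (nat_lit 1) (.cons (.br (nat_lit 2) (.cons (.rel (nat_lit 83951625)) .nil)) .nil)) (.node (.node .leaf (nat_lit 27401831220231075) (.br (nat_lit 0) (.cons (.br (nat_lit 1) (.cons (.rel (nat_lit 38813952)) .nil)) .nil)) .leaf) (nat_lit 27401831743537833) (.br (nat_lit 0) (.cons (.br (nat_lit 2) (.cons (.rel (nat_lit 71304324)) .nil)) .nil)) .leaf)) (nat_lit 27401831743793154) (.br (nat_lit 0) (.cons (.br (nat_lit 2) (.cons (.rel (nat_lit 142671876)) .nil)) .nil)) (.node (.node (.node .leaf (nat_lit 27404400770193440)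 (.br (nat_lit 1) (.cons (.br (nat_lit 5) (.cons (.rel (nat_lit 4312006737)) .nil)) .nil)) .leaf) (nat_lit 27404437120438447) (.br (nat_lit 3) (.cons (.br (nat_lit 4) (.cons (.rel (nat_lit 2415924312)) .nil)) .nil)) .leaf) (nat_lit 27404437120439528) (.br (nat_lit 3) (.cons (.br (nat_lit 1) (.cons (.rel (nat_lit 285286656)) (.cons (.rel (nat_lit 285540369)) .nil))) .nil)) (.node (.node .leaf (nat_lit 27404440513631120) (.br (nat_lit 0) (.cons (.br (nat_lit 1) (.cons (.rel (nat_lit 20971794)) .nil)) .nil)) .leaf) (nat_lit 27404440513631464) (.br (nat_lit 2) (.cons (.br (nat_lit 3) (.cons (.rel (nat_lit 335613969)) .nil)) .nil)) .leaf)))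

/-- refutations 28 -/
def e28 : EX := (.node (.node .leaf (nat_lit 27484583535615262) (.br (nat_lit 0) (.cons (.br (nat_lit 2) (.cons (.rel (nat_lit 142610448)) .nil)) .nil)) .leaf) (nat_lit 27485741085413513) (.br (nat_lit 1) (.cons (.br (nat_lit 5) (.cons (.rel (nat_lit 4311745812)) .nil)) .nil)) (.node .leaf (nat_lit 27489749766296837) (.br (nat_lit 0) (.cons (.br (nat_lit 3) (.cons (.rel (nat_lit 276824073)) .nil)) .nil)) .leaf))

/-- list of the parts -/
def L0 : List (ℕ × List ℕ) := [(nat_lit 0x10000, [cP]),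
  (nat_lit 0x10000000000, [cP]),
  (nat_lit 0x100000000000000000000800000000000000, [cP]),
  (nat_lit 0x400200000000000000000000000000000000000, [cP]),
  (nat_lit 0x210000000000000000000000000000000000000000, [cP]),
  (nat_lit 0x80000000000000000010000000000000000000000000000000000000000000000, [cP]),
  (nat_lit 0x800002010000000000000000000000000000000000000000000000000000000000000000000000, [cP]),
  (nat_lit 0x20000000000000000000000000000000000000000000000000000000000000000000000000000000000000000000000000000000000000000000000000000000000000000000000000000000000000, [Nat.sub (Nat.pow 2 264) (Nat.pow 2 0), Nat.sub (Nat.pow 2 639) (Nat.pow 2 264), Nat.sub (Nat.pow 2 1290) (Nat.pow 2 639), Nat.sub (Nat.pow 2 3136) (Nat.pow 2 1290)]),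
  (nat_lit 0x40000000000000000000000000000000000000000000000000000000000000000000000000000000000004000000000000000000000000000000000000000000000000000000000000000000000000000000, [cP]),
  (nat_lit 0x100000000000000000000000000000000000000000000000000000000000000000000000000000000000000000000000000000000000000000000000000000000000000000000000000000000000000000000, [cP]),
  (nat_lit 0x42000000000000000000000000000000000000000000000000000000000000000000000000000000000000000000000000000000000000000000000000000000000000000000000000000000000000000000000, [cP]),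
  (nat_lit 0x2180000000000000000000000000000000000000000000000000000000000000000000000000000000000000000000000000000000000000000000000000000000000000000000000000000000000000000000000000, [cP]),
  (nat_lit 0x40000000000000000000000000000000000000000000000000000000000000000000000000000000000000000000000000000000000000000000000000000000000000000000000000000000000000000000000000000, [cP]),
  (nat_lit 0x400000000000000000000000000000000000000000000000000000000000000000000000000000000000000000000000000000000000000000000000000000000000000000000000000000000000000000000000000000000000000000000, [cP]),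
  (nat_lit 0x40000000000000000000000000000000000000000000000000000000000000000000000000000000000000000000000000000000000000000000000000000000000000000000000000000000000000000000000000000000000000000000000000000, [cP]),
  (nat_lit 0x2000000000000000000000000000000000000000000000000000000000000000000000000000000000000000000000000000000000000000000000000000000000000000000000000000000000000000000000000000000000000000000000000000000000, [cP]),
  (nat_lit 0x40000008000000000000000000000000000000000000000000000000000000000000000000000000000000000000000000000000000000000000000000000000000000000000000000000000000000000000000000000000000000000000000000000000000000000000000000000000000, [cP]),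
  (nat_lit 0x3000000000000000000000000000000000000000000000000000000000000000000000000000000010000000000000000000000000000000000000000000000000000000000000000000000000000000000000000000000000000000000000000000000000000000000000000000000000000000000000000000000000000000000000000000000000000000000000000000000000000000000000000000, [cP]),
  (nat_lit 0x20000000000000000000000000000000000000000000000000000000000000000000000000000000000000000000000000000000000000000000000000000000000000000000000000000000000000000000000000000000000000000000000000000000000000000000000000000000000000000000000000000000000000000000000000000000000000000000000000000000000000000000000000000000000, [cP]),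
  (nat_lit 0x210000000000000000008000000000000000000000000000000000000000000000000000000000000000000000000000000000000000000000000000000000000000000000000000000000000000000000000000000000000000000000000000000000000000000000000000000000000000000000000000000000000000000000000000000000000000000000000000000000000000000000000000000000000000000000000000000000000000, [cP]),
  (nat_lit 0x820000000000000000000000000000000000000000000000000000000000000000000000000000000000000000000000000000000000000000000000000000000000000000000000000000000000000000000000000000000000000000000000000000000000000000000000000000000000000000000000000000000000000000000000000000000000000000000000000000000000000000000000000000000000000000000000000000000000000000, [cP]),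
  (nat_lit 0x48000000000000000000000000000000000000000000000000000000000000000000000000000000000000000000000000000000000000000000000000000000000000000000000000000000000000000000000000000000000000000000000000000000000000000000000000000000000000000000000000000000000000000000000000000000000000000000000000000000000000000000000000000000000000000000000000000000000000000000000, [cP]),
  (nat_lit 0x400000000000000000000000000000000000000000000000000000000000000000000000000000000000000000000000000000000000000000000000000000000000000000000000000000000000000000000000000000000000000000000000000000000000000000000000000000000000000000000000000000000000000000000000000000000000000000000000000000000000000000000000000000000000000000000000000000000000000000000000000000000000000000, [cP]),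
  (nat_lit 0x8000000800000000000000000000000000000000000000000000000000000000000000000000000000000000000000000000000000000000000000000000000000000000000000000000000000000000000000000000000000000000000000000000000000000000000000000000000000000000000000000000000000000000000000000000000000000000000000000000000000000000000000000000000000000000000000000000000000000000000000000000000000000000000000000, [cP]),
  (nat_lit 0x2040000000000000000000000000000000000000000000000000000000000000000000000000000000000000000000000000000000000000000000000000000000000000000000000000000000000000000000000000000000000000000000000000000000000000000000000000000000000000000000000000000000000000000000000000000000000000000000000000000000000000000000000000000000000000000000000000000000000000000000000000000000000000000000000000000, [cP]),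
  (nat_lit 0x40000000000000000000000000000000000000000000000000000000000000000000000000000000000000000000000000000000000000000000000000000000000000000000000000000000000000000000000000000000000000000000000000000000000000000000000000000000000000000000000000000000000000000000000000000000000000000000000000000000000000000000000000000000000000000000000000000000000000000000000000000000000000000000000000000000, [cP])]

theorem hp0 : ∀ p ∈ L0, ∀ D2 ∈ p.2, ∃ e,
    search ext94 (Pool.Agent.H74.EGZ.vio sb) G Uc A0 p.1 D2 e = true :=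
  (List.forall_mem_cons.2 ⟨(List.forall_mem_singleton.2 ⟨e0, by decide +kernel⟩),
  (List.forall_mem_cons.2 ⟨(List.forall_mem_singleton.2 ⟨e1, by decide +kernel⟩),
  (List.forall_mem_cons.2 ⟨(List.forall_mem_singleton.2 ⟨e2, by decide +kernel⟩),
  (List.forall_mem_cons.2 ⟨(List.forall_mem_singleton.2 ⟨e3, by decide +kernel⟩),
  (List.forall_mem_cons.2 ⟨(List.forall_mem_singleton.2 ⟨e4, by decide +kernel⟩),
  (List.forall_mem_cons.2 ⟨(List.forall_mem_singleton.2 ⟨e5, by decide +kernel⟩),
  (List.forall_mem_cons.2 ⟨(List.forall_mem_singleton.2 ⟨e6, by decide +kernel⟩),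
  (List.forall_mem_cons.2 ⟨(List.forall_mem_cons.2 ⟨⟨e7, by decide +kernel⟩,
  (List.forall_mem_cons.2 ⟨⟨e8, by decide +kernel⟩,
  (List.forall_mem_cons.2 ⟨⟨e9, by decide +kernel⟩,
  (List.forall_mem_singleton.2 ⟨e10, by decide +kernel⟩)⟩)⟩)⟩),
  (List.forall_mem_cons.2 ⟨(List.forall_mem_singleton.2 ⟨e11, by decide +kernel⟩),
  (List.forall_mem_cons.2 ⟨(List.forall_mem_singleton.2 ⟨e12, by decide +kernel⟩),
  (List.forall_mem_cons.2 ⟨(List.forall_mem_singleton.2 ⟨e13, by decide +kernel⟩),
  (List.forall_mem_cons.2 ⟨(List.forall_mem_singleton.2 ⟨e14, by decide +kernel⟩),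
  (List.forall_mem_cons.2 ⟨(List.forall_mem_singleton.2 ⟨e15, by decide +kernel⟩),
  (List.forall_mem_cons.2 ⟨(List.forall_mem_singleton.2 ⟨e16, by decide +kernel⟩),
  (List.forall_mem_cons.2 ⟨(List.forall_mem_singleton.2 ⟨e17, by decide +kernel⟩),
  (List.forall_mem_cons.2 ⟨(List.forall_mem_singleton.2 ⟨e18, by decide +kernel⟩),
  (List.forall_mem_cons.2 ⟨(List.forall_mem_singleton.2 ⟨e19, by decide +kernel⟩),
  (List.forall_mem_cons.2 ⟨(List.forall_mem_singleton.2 ⟨e20, by decide +kernel⟩),
  (List.forall_mem_cons.2 ⟨(List.forall_mem_singleton.2 ⟨e21, by decide +kernel⟩),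
  (List.forall_mem_cons.2 ⟨(List.forall_mem_singleton.2 ⟨e22, by decide +kernel⟩),
  (List.forall_mem_cons.2 ⟨(List.forall_mem_singleton.2 ⟨e23, by decide +kernel⟩),
  (List.forall_mem_cons.2 ⟨(List.forall_mem_singleton.2 ⟨e24, by decide +kernel⟩),
  (List.forall_mem_cons.2 ⟨(List.forall_mem_singleton.2 ⟨e25, by decide +kernel⟩),
  (List.forall_mem_cons.2 ⟨(List.forall_mem_singleton.2 ⟨e26, by decide +kernel⟩),
  (List.forall_mem_cons.2 ⟨(List.forall_mem_singleton.2 ⟨e27, by decide +kernel⟩),
  (List.forall_mem_singleton.2 (List.forall_mem_singleton.2 ⟨e28, by decide +kernel⟩))⟩)⟩)⟩)⟩)⟩)⟩)⟩)⟩)⟩)⟩)⟩)⟩)⟩)⟩)⟩)⟩)⟩)⟩)⟩)⟩)⟩)⟩)⟩)⟩)⟩)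

end

end Pool.Agent.H21.EGZ.S24
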