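import Pool.Agent.H21.EGZ.D25

/-!
# Stage 25 : search, part 0
-/

set_option autoImplicit false
set_option maxRecDepth 100000

namespace Pool.Agent.H21.EGZ.S25

noncomputable section

open Pool.Agent.H74.EGZ Pool.Agent.H94.Lift

/-- refutations 0 -/
def e0 : EX := (.node (.node (.node (.node (.node .leaf (nat_lit 19786333188096) (.br (nat_lit 1) (.cons (.br (nat_lit 4) (.cons (.rel (nat_lit 1090528257)) .nil)) .nil)) .leaf) (nat_lit 19786334501624) (.br (nat_lit 1) (.cons (.br (nat_lit 3) (.cons (.rel (nat_lit 285218817)) .nil)) .nil)) .leaf) (nat_lit 20229820613390) (.br (nat_lit 1) (.cons (.br (nat_lit 2) (.cons (.rel (nat_lit 83886468)) .nil)) .nil)) (.node .leaf (nat_lit 24089034528280) (.br (nat_lit 0) (.cons (.br (nat_lit 1) (.cons (.rel (nat_lit 22052928)) .nil)) .nil)) .leaf)) (nat_lit 24089036093440) (.br (nat_lit 4) (.cons (.br (nat_lit 0) (.cons (.rel (nat_lit 1077968916)) (.cons (.rel (nat_lit 1078001670)) .nil))) .nil)) (.node (.node .leaf (nat_lit 24089890418688)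 (.br (nat_lit 0) (.cons (.br (nat_lit 3) (.cons (.rel (nat_lit 272631936)) .nil)) .nil)) .leaf) (nat_lit 24089890419468) (.br (nat_lit 0) (.cons (.br (nat_lit 2) (.cons (.rel (nat_lit 71369025)) (.cons (.rel (nat_lit 72353793)) .nil))) (.cons (.br (nat_lit 1) (.cons (.rel (nat_lit 22093824)) (.cons (.rel (nat_lit 42206208)) .nil))) .nil))) (.node .leaf (nat_lit 25215171368960) (.br (nat_lit 0) (.cons (.br (nat_lit 1) (.cons (.rel (nat_lit 25169985)) .nil)) .nil)) .leaf))) (nat_lit 28390260981760) (.br (nat_lit 0) (.cons (.br (nat_lit 1) (.cons (.rel (nat_lit 20989329)) .nil)) .nil)) (.node (.node (.node .leaf (nat_lit 29489770317824) (.br (nat_lit 0) (.cons (.br (nat_lit 3) (.cons (.rel (nat_lit 277348608)) .nil)) .nil)) .leaf) (nat_lit 29489771606796) (.br (nat_lit 3) (.cons (.br (nat_lit 0) (.cons (.br (nat_lit 1) (.cons (.rel (nat_lit 21497856)) (.cons (.rel (nat_lit 21497856)) .nil))) (.cons (.rel (nat_lit 272631936)) .nil))) .nil)) (.node .leaf (nat_lit 37604169909724) (.br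 (nat_lit 1) (.cons (.br (nat_lit 5) (.cons (.rel (nat_lit 4329570561)) .nil)) .nil)) .leaf)) (nat_lit 40859735289190) (.br (nat_lit 1) (.cons (.br (nat_lit 3) (.cons (.rel (nat_lit 285216804)) .nil)) .nil)) (.node (.node .leaf (nat_lit 43010881005568) (.br (nat_lit 1) (.cons (.br (nat_lit 4) (.cons (.rel (nat_lit 1090528257)) .nil)) .nil)) .leaf) (nat_lit 112442905501728) (.br (nat_lit 1) (.cons (.br (nat_lit 2) (.cons (.rel (nat_lit 83951952)) .nil)) .nil)) (.node .leaf (nat_lit 118670711343240) (.br (nat_lit 0) (.cons (.br (nat_lit 1) (.cons (.rel (nat_lit 21037344)) .nil)) .nil)) .leaf))))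

/-- refutations 1 -/
def e1 : EX := (.node (.node (.node (.node (.node (.node .leaf (nat_lit 442227265624315) (.br (nat_lit 0) (.cons (.br (nat_lit 1) (.cons (.rel (nat_lit 42206208)) .nil)) .nil)) .leaf) (nat_lit 442227265675419) (.br (nat_lit 4) (.cons (.br (nat_lit 6) (.cons (.rel (nat_lit 18253616640)) (.cons (.rel (nat_lit 18254004288)) .nil))) (.cons (.br (nat_lit 6) (.cons (.rel (nat_lit 18253897728)) (.cons (.rel (nat_lit 18253873176)) .nil))) .nil))) (.node .leaf (nat_lit 442227265675899) (.br (nat_lit 1) (.cons (.br (nat_lit 2) (.cons (.rel (nat_lit 83951952)) .nil)) .nil)) .leaf)) (nat_lit 442227265676149) (.br (nat_lit 2) (.cons (.br (nat_lit 4) (.cons (.rel (nat_lit 1140851841)) .nil)) .nil)) (.node (.node .leaf (nat_lit 442227265869979) (.br (nat_lit 1) (.cons (.br (nat_lit 2) (.cons (.rel (nat_lit 83886468)) .nil)) .nil)) .leaf) (nat_lit 442227265870604) (.br (nat_lit 1) (.cons (.br (nat_lit 2) (.cons (.rel (nat_lit 84443136)) .nil)) .nil)) .leaf)) (nat_lit 442227265871934)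 (.br (nat_lit 1) (.cons (.br (nat_lit 3) (.cons (.rel (nat_lit 285212805)) .nil)) .nil)) (.node (.node (.node .leaf (nat_lit 442227265973109) (.br (nat_lit 1) (.cons (.br (nat_lit 4) (.cons (.rel (nat_lit 1090535568)) .nil)) .nil)) .leaf) (nat_lit 442227265983344) (.br (nat_lit 0) (.cons (.br (nat_lit 2) (.cons (.rel (nat_lit 71435520)) .nil)) .nil)) .leaf) (nat_lit 442227265984519) (.br (nat_lit 0) (.cons (.br (nat_lit 1) (.cons (.rel (nat_lit 21037344)) .nil)) .nil)) (.node (.node .leaf (nat_lit 442227265984667) (.br (nat_lit 1) (.cons (.br (nat_lit 4) (.cons (.rel (nat_lit 2164262160)) .nil)) .nil)) .leaf) (nat_lit 442227265984763) (.br (nat_lit 1) (.cons (.br (nat_lit 4) (.cons (.rel (nat_lit 1090585608)) .nil)) .nil)) .leaf))) (nat_lit 442227266187419) (.br (nat_lit 5) (.cons (.br (nat_lit 0) (.cons (.rel (nat_lit 4299163680)) (.cons (.rel (nat_lit 4299424068)) .nil))) .nil)) (.node (.node (.node (.node .leaf (nat_lit 442227266188044) (.br (nat_lit 5) (.cons (.br (nat_lit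 1) (.cons (.rel (nat_lit 4312039680)) (.cons (.rel (nat_lit 4311745560)) .nil))) .nil)) .leaf) (nat_lit 442227266937083) (.br (nat_lit 4) (.cons (.br (nat_lit 0) (.cons (.rel (nat_lit 1077941376)) (.cons (.rel (nat_lit 1077937233)) (.cons (.rel (nat_lit 1077938244)) (.cons (.rel (nat_lit 2151679233)) .nil))))) .nil)) (.node .leaf (nat_lit 442227266937612) (.br (nat_lit 1) (.cons (.br (nat_lit 3) (.cons (.rel (nat_lit 285279300)) .nil)) .nil)) .leaf)) (nat_lit 442227266937719) (.br (nat_lit 1) (.cons (.br (nat_lit 3) (.cons (.rel (nat_lit 553652496)) .nil)) .nil)) (.node (.node .leaf (nat_lit 442227267205182) (.br (nat_lit 0) (.cons (.br (nat_lit 2) (.cons (.rel (nat_lit 75505665)) .nil)) .nil)) .leaf) (nat_lit 442227267395739) (.br (nat_lit 1) (.cons (.br (nat_lit 3) (.cons (.rel (nat_lit 285253632)) (.cons (.rel (nat_lit 285229080)) (.cons (.rel (nat_lit 285212805)) (.cons (.rel (nat_lit 553664772)) .nil))))) (.cons (.br (nat_lit 3) (.cons (.rel (nat_lit 570445824)) (.cons (.rel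 (nat_lit 285216804)) (.cons (.rel (nat_lit 285218817)) (.cons (.rel (nat_lit 285218817)) .nil))))) (.cons (.br (nat_lit 5) (.cons (.rel (nat_lit 4311876672)) (.cons (.rel (nat_lit 4311745560)) (.cons (.rel (nat_lit 8607236112)) (.cons (.rel (nat_lit 4311744549)) (.cons (.rel (nat_lit 4311744549)) .nil)))))) .nil)))) .leaf)) (nat_lit 442227267396364) (.br (nat_lit 3) (.cons (.br (nat_lit 6) (.cons (.rel (nat_lit 34896610560)) (.cons (.rel (nat_lit 17449877508)) .nil))) (.cons (.br (nat_lit 6) (.cons (.rel (nat_lit 17448307200)) (.cons (.rel (nat_lit 17448566868)) .nil))) .nil))) (.node (.node (.node .leaf (nat_lit 442227267508379) (.br (nat_lit 1) (.cons (.br (nat_lit 0) (.cons (.rel (nat_lit 21037344)) (.cons (.rel (nat_lit 42206208)) .nil))) .nil)) .leaf) (nat_lit 446298894672027) (.br (nat_lit 0) (.cons (.br (nat_lit 2) (.cons (.rel (nat_lit 71827524)) (.cons (.rel (nat_lit 72353793)) .nil))) (.cons (.br (nat_lit 6) (.cons (.rel (nat_lit 34363933056)) (.cons (.rel (nat_lit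 17184069633)) .nil))) .nil))) .leaf) (nat_lit 446298896392227) (.br (nat_lit 0) (.cons (.br (nat_lit 2) (.cons (.rel (nat_lit 75563016)) .nil)) .nil)) (.node (.node .leaf (nat_lit 446298896392347) (.br (nat_lit 0) (.cons (.br (nat_lit 1) (.cons (.rel (nat_lit 37748769)) (.cons (.rel (nat_lit 23070216)) .nil))) .nil)) .leaf) (nat_lit 446298896393617) (.br (nat_lit 0) (.cons (.br (nat_lit 5) (.cons (.rel (nat_lit 4299163680)) .nil)) .nil)) .leaf)))) (nat_lit 447630333757595) (.br (nat_lit 1) (.cons (.br (nat_lit 5) (.cons (.rel (nat_lit 4311744549)) .nil)) .nil)) (.node (.node (.node (.node (.node .leaf (nat_lit 447630334831477) (.br (nat_lit 1) (.cons (.br (nat_lit 4) (.cons (.rel (nat_lit 1090797825)) .nil)) .nil)) .leaf) (nat_lit 447630336254107) (.br (nat_lit 5) (.cons (.br (nat_lit 1) (.cons (.rel (nat_lit 4311770112)) (.cons (.rel (nat_lit 4312859136)) .nil))) .nil)) (.node .leaf (nat_lit 451014769071640) (.br (nat_lit 0) (.cons (.br (nat_lit 1) (.cons (.rel (nat_lit 21497856))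 .nil)) .nil)) .leaf)) (nat_lit 451014770483980) (.br (nat_lit 3) (.cons (.br (nat_lit 5) (.cons (.rel (nat_lit 4563681288)) .nil)) .nil)) (.node (.node .leaf (nat_lit 451020306965905) (.br (nat_lit 0) (.cons (.br (nat_lit 3) (.cons (.rel (nat_lit 272633877)) .nil)) .nil)) .leaf) (nat_lit 452904553351175) (.br (nat_lit 3) (.cons (.br (nat_lit 5) (.cons (.rel (nat_lit 4563468816)) .nil)) .nil)) .leaf)) (nat_lit 452904553597083) (.br (nat_lit 0) (.cons (.br (nat_lit 1) (.cons (.rel (nat_lit 22282500)) .nil)) .nil)) (.node (.node (.node .leaf (nat_lit 452904553661092) (.br (nat_lit 1) (.cons (.br (nat_lit 3) (.cons (.rel (nat_lit 302252160)) .nil)) .nil)) .leaf) (nat_lit 452904553661841) (.br (nat_lit 0) (.cons (.br (nat_lit 4) (.cons (.rel (nat_lit 1077937233)) .nil)) .nil)) .leaf) (nat_lit 452904554567835) (.br (nat_lit 0) (.cons (.br (nat_lit 2) (.cons (.rel (nat_lit 75497568)) .nil)) .nil)) (.node (.node .leaf (nat_lit 452904554670965) (.br (nat_lit 4) (.cons (.br (nat_lit 5)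 (.cons (.rel (nat_lit 10737418500)) .nil)) .nil)) .leaf) (nat_lit 452904554682523) (.br (nat_lit 0) (.cons (.br (nat_lit 3) (.cons (.rel (nat_lit 272892180)) .nil)) .nil)) .leaf))) (nat_lit 452904554682619) (.br (nat_lit 1) (.cons (.br (nat_lit 4) (.cons (.rel (nat_lit 1090520160)) .nil)) .nil)) (.node (.node (.node (.node .leaf (nat_lit 452904555602175) (.br (nat_lit 0) (.cons (.br (nat_lit 1) (.cons (.rel (nat_lit 21037344)) .nil)) .nil)) .leaf) (nat_lit 452904555634699) (.br (nat_lit 0) (.cons (.br (nat_lit 1) (.cons (.rel (nat_lit 20993280)) .nil)) .nil)) .leaf) (nat_lit 452904555634963) (.br (nat_lit 1) (.cons (.br (nat_lit 4) (.cons (.rel (nat_lit 1090520160)) .nil)) .nil)) (.node (.node .leaf (nat_lit 452904555635468) (.br (nat_lit 0) (.cons (.br (nat_lit 3) (.cons (.rel (nat_lit 272631936)) .nil)) .nil)) .leaf) (nat_lit 452904555888891) (.br (nat_lit 0) (.cons (.br (nat_lit 1) (.cons (.rel (nat_lit 21037344)) .nil)) .nil)) .leaf)) (nat_lit 452904555944823) (.br (nat_lit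 0) (.cons (.br (nat_lit 2) (.cons (.rel (nat_lit 71833728)) .nil)) .nil)) (.node (.node (.node .leaf (nat_lit 452904556093595) (.br (nat_lit 4) (.cons (.br (nat_lit 0) (.cons (.rel (nat_lit 1077941376)) (.cons (.rel (nat_lit 2152218624)) .nil))) .nil)) .leaf) (nat_lit 452904556093695) (.br (nat_lit 0) (.cons (.br (nat_lit 2) (.cons (.rel (nat_lit 71893008)) .nil)) .nil)) .leaf) (nat_lit 452904556094220) (.br (nat_lit 2) (.cons (.br (nat_lit 5) (.cons (.rel (nat_lit 4362076230)) .nil)) .nil)) (.node (.node .leaf (nat_lit 452904556094340) (.br (nat_lit 3) (.cons (.br (nat_lit 5) (.cons (.rel (nat_lit 4563796992)) (.cons (.rel (nat_lit 4563403332)) .nil))) .nil)) .leaf) (nat_lit 452907594531492) (.br (nat_lit 0) (.cons (.br (nat_lit 4) (.cons (.rel (nat_lit 1077941376)) .nil)) .nil)) .leaf)))))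

/-- refutations 2 -/
def e2 : EX := (.node (.node (.node (.node .leaf (nat_lit 459802278949521) (.br (nat_lit 0) (.cons (.br (nat_lit 4) (.cons (.rel (nat_lit 1083244800)) .nil)) .nil)) .leaf) (nat_lit 459802279414696) (.br (nat_lit 2) (.cons (.br (nat_lit 3) (.cons (.rel (nat_lit 335546400)) .nil)) .nil)) (.node .leaf (nat_lit 459802279415262) (.br (nat_lit 1) (.cons (.br (nat_lit 4) (.cons (.rel (nat_lit 1090528257)) .nil)) .nil)) .leaf)) (nat_lit 459802280241809) (.br (nat_lit 4) (.cons (.br (nat_lit 0) (.cons (.rel (nat_lit 1083244800)) (.cons (.rel (nat_lit 1077938244)) .nil))) .nil)) (.node (.node .leaf (nat_lit 459802280242059) (.br (nat_lit 0) (.cons (.br (nat_lit 2) (.cons (.rel (nat_lit 72388608)) .nil)) .nil)) .leaf) (nat_lit 459802280271999) (.br (nat_lit 0) (.cons (.br (nat_lit 2) (.cons (.rel (nat_lit 71307540)) .nil)) .nil)) .leaf)) (nat_lit 459802280438696) (.br (nat_lit 3) (.cons (.br (nat_lit 5) (.cons (.rel (nat_lit 4563403332)) .nil)) .nil)) (.node (.node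 (.node .leaf (nat_lit 459802281503377) (.br (nat_lit 1) (.cons (.br (nat_lit 4) (.cons (.rel (nat_lit 1090519113)) .nil)) .nil)) .leaf) (nat_lit 459802281980089) (.br (nat_lit 0) (.cons (.br (nat_lit 2) (.cons (.rel (nat_lit 72417408)) .nil)) .nil)) (.node .leaf (nat_lit 459803098641320) (.br (nat_lit 0) (.cons (.br (nat_lit 4) (.cons (.rel (nat_lit 1078019136)) .nil)) .nil)) .leaf)) (nat_lit 465219159653252) (.br (nat_lit 0) (.cons (.br (nat_lit 5) (.cons (.rel (nat_lit 4299232260)) .nil)) .nil)) (.node (.node .leaf (nat_lit 465219159653639) (.br (nat_lit 0) (.cons (.br (nat_lit 2) (.cons (.rel (nat_lit 72351780)) .nil)) .nil)) .leaf) (nat_lit 470497015952786) (.br (nat_lit 0) (.cons (.br (nat_lit 1) (.cons (.rel (nat_lit 37748769)) .nil)) .nil)) .leaf)))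

/-- refutations 3 -/
def e3 : EX := (.node (.node (.node (.node (.node (.node (.node .leaf (nat_lit 475307108018481) (.br (nat_lit 2) (.cons (.br (nat_lit 4) (.cons (.rel (nat_lit 1140883524)) .nil)) .nil)) .leaf) (nat_lit 475509883334842) (.br (nat_lit 0) (.cons (.br (nat_lit 1) (.cons (.rel (nat_lit 25247745)) .nil)) .nil)) .leaf) (nat_lit 476085408952506) (.br (nat_lit 0) (.cons (.br (nat_lit 4) (.cons (.rel (nat_lit 2155876356)) (.cons (.rel (nat_lit 1078001670)) (.cons (.rel (nat_lit 1078001670)) .nil)))) .nil)) (.node .leaf (nat_lit 476085408953131) (.br (nat_lit 0) (.cons (.br (nat_lit 5) (.cons (.rel (nat_lit 4299162633)) .nil)) .nil)) .leaf)) (nat_lit 476086384808721) (.br (nat_lit 0) (.cons (.br (nat_lit 4) (.cons (.rel (nat_lit 1078003728)) .nil)) .nil)) (.node (.node .leaf (nat_lit 477409233141212) (.br (nat_lit 0) (.cons (.br (nat_lit 2) (.cons (.rel (nat_lit 72417408)) .nil)) .nil)) .leaf) (nat_lit 477632151969051) (.br (nat_lit 1) (.cons (.br (nat_lit 6) (.cons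 (.rel (nat_lit 34393358340)) .nil)) .nil)) (.node .leaf (nat_lit 480375436540715) (.br (nat_lit 1) (.cons (.br (nat_lit 2) (.cons (.rel (nat_lit 83886468)) .nil)) .nil)) .leaf))) (nat_lit 480412971303694) (.br (nat_lit 0) (.cons (.br (nat_lit 1) (.cons (.rel (nat_lit 21497856)) .nil)) .nil)) (.node (.node (.node (.node .leaf (nat_lit 480412973157027) (.br (nat_lit 5) (.cons (.br (nat_lit 1) (.cons (.rel (nat_lit 8606778624)) (.cons (.rel (nat_lit 4311748692)) .nil))) .nil)) .leaf) (nat_lit 486207733889149) (.br (nat_lit 0) (.cons (.br (nat_lit 1) (.cons (.rel (nat_lit 22024197)) (.cons (.rel (nat_lit 42206208)) .nil))) .nil)) .leaf) (nat_lit 486207735015729) (.br (nat_lit 0) (.cons (.br (nat_lit 2) (.cons (.rel (nat_lit 76808208)) .nil)) .nil)) (.node .leaf (nat_lit 486207735016050) (.br (nat_lit 4) (.cons (.br (nat_lit 6) (.cons (.rel (nat_lit 18253616640)) .nil)) .nil)) .leaf)) (nat_lit 486207736705036) (.br (nat_lit 4) (.cons (.br (nat_lit 0) (.cons (.rel (nat_lit 1077937233))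 (.cons (.rel (nat_lit 1079001600)) .nil))) .nil)) (.node (.node .leaf (nat_lit 486207736705781) (.br (nat_lit 1) (.cons (.br (nat_lit 2) (.cons (.rel (nat_lit 100664388)) .nil)) .nil)) .leaf) (nat_lit 486207736724963) (.br (nat_lit 0) (.cons (.br (nat_lit 2) (.cons (.rel (nat_lit 139722816)) .nil)) .nil)) (.node .leaf (nat_lit 486207736756504) (.br (nat_lit 3) (.cons (.br (nat_lit 5) (.cons (.rel (nat_lit 4831846401)) .nil)) .nil)) .leaf)))) (nat_lit 486207736757726) (.br (nat_lit 2) (.cons (.br (nat_lit 3) (.cons (.rel (nat_lit 604508160)) .nil)) .nil)) (.node (.node (.node (.node (.node .leaf (nat_lit 486208660634887) (.br (nat_lit 0) (.cons (.br (nat_lit 4) (.cons (.rel (nat_lit 1078003728)) .nil)) .nil)) .leaf) (nat_lit 486208661957234) (.br (nat_lit 1) (.cons (.br (nat_lit 3) (.cons (.rel (nat_lit 303042816)) .nil)) .nil)) .leaf) (nat_lit 488106065704312) (.br (nat_lit 0) (.cons (.br (nat_lit 1) (.cons (.rel (nat_lit 37748769)) .nil)) .nil)) (.node .leaf (nat_lit 488106109175037)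 (.br (nat_lit 0) (.cons (.br (nat_lit 4) (.cons (.rel (nat_lit 1078003728)) .nil)) .nil)) .leaf)) (nat_lit 488106109237935) (.br (nat_lit 1) (.cons (.br (nat_lit 4) (.cons (.rel (nat_lit 1090519113)) .nil)) .nil)) (.node (.node .leaf (nat_lit 488106109238755) (.br (nat_lit 4) (.cons (.br (nat_lit 6) (.cons (.rel (nat_lit 18253873176)) .nil)) .nil)) .leaf) (nat_lit 488106109747250) (.br (nat_lit 0) (.cons (.br (nat_lit 3) (.cons (.rel (nat_lit 277348608)) .nil)) .nil)) (.node .leaf (nat_lit 488106110456113) (.br (nat_lit 6) (.cons (.br (nat_lit 4) (.cons (.rel (nat_lit 18253616640)) (.cons (.rel (nat_lit 19327385604)) .nil))) .nil)) .leaf))) (nat_lit 488106110457333) (.br (nat_lit 2) (.cons (.br (nat_lit 3) (.cons (.rel (nat_lit 335577216)) .nil)) .nil)) (.node (.node (.node (.node .leaf (nat_lit 488106110560381) (.br (nat_lit 0) (.cons (.br (nat_lit 3) (.cons (.rel (nat_lit 272633877)) .nil)) .nil)) .leaf) (nat_lit 488106110560882) (.br (nat_lit 3) (.cons (.br (nat_lit 4) (.cons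 (.rel (nat_lit 1344275520)) .nil)) .nil)) .leaf) (nat_lit 488106110561781) (.br (nat_lit 4) (.cons (.br (nat_lit 3) (.cons (.rel (nat_lit 2415928320)) (.cons (.rel (nat_lit 1342308864)) .nil))) .nil)) (.node .leaf (nat_lit 488106110725598) (.br (nat_lit 1) (.cons (.br (nat_lit 3) (.cons (.rel (nat_lit 285279300)) .nil)) .nil)) .leaf)) (nat_lit 488106111840306) (.br (nat_lit 0) (.cons (.br (nat_lit 3) (.cons (.rel (nat_lit 545260608)) .nil)) .nil)) (.node (.node .leaf (nat_lit 488106111841156) (.br (nat_lit 3) (.cons (.br (nat_lit 4) (.cons (.rel (nat_lit 1342455888)) .nil)) .nil)) .leaf) (nat_lit 488106111841656) (.br (nat_lit 4) (.cons (.br (nat_lit 0) (.cons (.rel (nat_lit 1077937233)) (.cons (.rel (nat_lit 1082425344)) .nil))) .nil)) (.node .leaf (nat_lit 488106111848460) (.br (nat_lit 3) (.cons (.br (nat_lit 4) (.cons (.rel (nat_lit 1610612868)) (.cons (.rel (nat_lit 2415939585)) .nil))) .nil)) .leaf))))) (nat_lit 488106111848509) (.br (nat_lit 0) (.cons (.br (nat_lit 2)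 (.cons (.rel (nat_lit 71435520)) (.cons (.rel (nat_lit 71827524)) .nil))) .nil)) (.node (.node (.node (.node (.node (.node .leaf (nat_lit 488106112062376) (.br (nat_lit 4) (.cons (.br (nat_lit 2) (.cons (.rel (nat_lit 1140855840)) (.cons (.rel (nat_lit 2214613248)) .nil))) .nil)) .leaf) (nat_lit 488106112249868) (.br (nat_lit 5) (.cons (.br (nat_lit 2) (.cons (.rel (nat_lit 4362108960)) (.cons (.rel (nat_lit 4362076230)) .nil))) .nil)) .leaf) (nat_lit 488106112250508) (.br (nat_lit 0) (.cons (.br (nat_lit 2) (.cons (.rel (nat_lit 138416130)) .nil)) .nil)) (.node .leaf (nat_lit 488106112251256) (.br (nat_lit 5) (.cons (.br (nat_lit 0) (.cons (.rel (nat_lit 4299194496)) (.cons (.rel (nat_lit 4299194496)) .nil))) .nil)) .leaf)) (nat_lit 488106112251356) (.br (nat_lit 1) (.cons (.br (nat_lit 3) (.cons (.rel (nat_lit 285279300)) (.cons (.rel (nat_lit 304087056)) .nil))) .nil)) (.node (.node .leaf (nat_lit 488106112269795) (.br (nat_lit 0) (.cons (.br (nat_lit 2) (.cons (.rel (nat_lit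 139722816)) .nil)) .nil)) .leaf) (nat_lit 488106112363748) (.br (nat_lit 3) (.cons (.br (nat_lit 4) (.cons (.rel (nat_lit 1342308864)) .nil)) .nil)) (.node .leaf (nat_lit 488106377673515) (.br (nat_lit 1) (.cons (.br (nat_lit 4) (.cons (.rel (nat_lit 1090553856)) (.cons (.rel (nat_lit 1090519113)) .nil))) (.cons (.br (nat_lit 4) (.cons (.rel (nat_lit 2164277568)) (.cons (.rel (nat_lit 1090528257)) .nil))) .nil))) .leaf))) (nat_lit 488106377674211) (.br (nat_lit 6) (.cons (.br (nat_lit 4) (.cons (.rel (nat_lit 18253627905)) (.cons (.rel (nat_lit 18253873176)) .nil))) .nil)) (.node (.node (.node (.node .leaf (nat_lit 488106378247544) (.br (nat_lit 0) (.cons (.br (nat_lit 3) (.cons (.rel (nat_lit 272631936)) .nil)) .nil)) .leaf) (nat_lit 488106378996338) (.br (nat_lit 1) (.cons (.br (nat_lit 4) (.cons (.rel (nat_lit 1090519113)) .nil)) .nil)) .leaf) (nat_lit 488106378997124) (.br (nat_lit 1) (.cons (.br (nat_lit 2) (.cons (.rel (nat_lit 168050688)) .nil)) .nil)) (.node .leaf (nat_lit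 488106378997237) (.br (nat_lit 3) (.cons (.br (nat_lit 6) (.cons (.rel (nat_lit 34628173857)) .nil)) .nil)) .leaf)) (nat_lit 488106380277112) (.br (nat_lit 0) (.cons (.br (nat_lit 1) (.cons (.rel (nat_lit 21497856)) (.cons (.rel (nat_lit 21004545)) .nil))) (.cons (.br (nat_lit 1) (.cons (.rel (nat_lit 21497856)) (.cons (.rel (nat_lit 25165842)) .nil))) .nil))) (.node (.node .leaf (nat_lit 488106380277138) (.br (nat_lit 0) (.cons (.br (nat_lit 1) (.cons (.rel (nat_lit 22093824)) .nil)) .nil)) .leaf) (nat_lit 488106380277272) (.br (nat_lit 0) (.cons (.br (nat_lit 1) (.cons (.rel (nat_lit 21497856)) .nil)) .nil)) (.node .leaf (nat_lit 488106380283916) (.br (nat_lit 1) (.cons (.br (nat_lit 4) (.cons (.br (nat_lit 3) (.cons (.rel (nat_lit 2416197888)) (.cons (.rel (nat_lit 2684420352)) (.cons (.rel (nat_lit 554696736)) (.cons (.rel (nat_lit 286261764)) .nil))))) .nil)) .nil)) .leaf)))) (nat_lit 488106380284159) (.br (nat_lit 4) (.cons (.br (nat_lit 1) (.cons (.rel (nat_lit 1091830800))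 (.cons (.rel (nat_lit 1090520160)) .nil))) .nil)) (.node (.node (.node (.node (.node .leaf (nat_lit 488106380284711) (.br (nat_lit 3) (.cons (.br (nat_lit 4) (.cons (.rel (nat_lit 1342439433)) .nil)) .nil)) .leaf) (nat_lit 488106380284791) (.br (nat_lit 3) (.cons (.br (nat_lit 4) (.cons (.rel (nat_lit 2415939585)) .nil)) .nil)) .leaf) (nat_lit 488106380284815) (.br (nat_lit 1) (.cons (.br (nat_lit 6) (.cons (.rel (nat_lit 17213948160)) .nil)) .nil)) (.node .leaf (nat_lit 488106380285316) (.br (nat_lit 1) (.cons (.br (nat_lit 6) (.cons (.rel (nat_lit 17213948160)) (.cons (.rel (nat_lit 17196777480)) (.cons (.rel (nat_lit 17196650502)) .nil)))) .nil)) .leaf)) (nat_lit 488106380497047) (.br (nat_lit 0) (.cons (.br (nat_lit 1) (.cons (.rel (nat_lit 20993280)) .nil)) .nil)) (.node (.node .leaf (nat_lit 488106380685324) (.br (nat_lit 1) (.cons (.br (nat_lit 5) (.cons (.rel (nat_lit 4311744549)) (.cons (.rel (nat_lit 4311745560)) .nil))) (.cons (.br (nat_lit 5) (.cons (.rel (nat_lit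 8623490049)) (.cons (.rel (nat_lit 8623490049)) .nil))) .nil))) .leaf) (nat_lit 488106380685617) (.br (nat_lit 1) (.cons (.br (nat_lit 4) (.cons (.rel (nat_lit 2164262160)) (.cons (.rel (nat_lit 1090539522)) .nil))) .nil)) (.node .leaf (nat_lit 488106380686123) (.br (nat_lit 0) (.cons (.br (nat_lit 2) (.cons (.rel (nat_lit 71827524)) .nil)) .nil)) .leaf))) (nat_lit 488106380686812) (.br (nat_lit 1) (.cons (.br (nat_lit 2) (.cons (.rel (nat_lit 100663377)) .nil)) .nil)) (.node (.node (.node (.node .leaf (nat_lit 488106380686813) (.br (nat_lit 1) (.cons (.br (nat_lit 4) (.cons (.rel (nat_lit 1090539522)) .nil)) .nil)) .leaf) (nat_lit 488106380704401) (.br (nat_lit 3) (.cons (.br (nat_lit 5) (.cons (.rel (nat_lit 8858374146)) .nil)) .nil)) .leaf) (nat_lit 488106380704426) (.br (nat_lit 0) (.cons (.br (nat_lit 4) (.cons (.rel (nat_lit 2155876356)) .nil)) .nil)) (.node .leaf (nat_lit 488106380754148) (.br (nat_lit 3) (.cons (.br (nat_lit 4) (.cons (.rel (nat_lit 2684420352)) .nil))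 .nil)) .leaf)) (nat_lit 488107037502965) (.br (nat_lit 4) (.cons (.br (nat_lit 1) (.cons (.rel (nat_lit 1090786560)) (.cons (.rel (nat_lit 1090519113)) .nil))) .nil)) (.node (.node .leaf (nat_lit 488140471988236) (.br (nat_lit 0) (.cons (.br (nat_lit 2) (.cons (.rel (nat_lit 72351780)) .nil)) .nil)) .leaf) (nat_lit 488140471989724) (.br (nat_lit 1) (.cons (.br (nat_lit 4) (.cons (.rel (nat_lit 1090520160)) .nil)) .nil)) (.node .leaf (nat_lit 488389848527505) (.br (nat_lit 1) (.cons (.br (nat_lit 2) (.cons (.rel (nat_lit 100663377)) .nil)) .nil)) .leaf))))))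

/-- refutations 4 -/
def e4 : EX := (.node (.node (.node (.node (.node .leaf (nat_lit 530136634030715) (.br (nat_lit 0) (.cons (.br (nat_lit 1) (.cons (.rel (nat_lit 22037520)) .nil)) .nil)) .leaf) (nat_lit 530231123259392) (.br (nat_lit 3) (.cons (.br (nat_lit 5) (.cons (.rel (nat_lit 8858370192)) (.cons (.rel (nat_lit 4563669012)) .nil))) (.cons (.br (nat_lit 0) (.cons (.rel (nat_lit 272631936)) (.cons (.rel (nat_lit 272647200)) (.cons (.rel (nat_lit 272631936)) (.cons (.rel (nat_lit 545260608)) (.cons (.rel (nat_lit 272631936)) .nil)))))) .nil))) (.node .leaf (nat_lit 530231123556352) (.br (nat_lit 4) (.cons (.br (nat_lit 5) (.cons (.rel (nat_lit 9663709185)) .nil)) .nil)) .leaf)) (nat_lit 530231123556512) (.br (nat_lit 4) (.cons (.br (nat_lit 3) (.cons (.rel (nat_lit 1611988992)) (.cons (.rel (nat_lit 1343766528)) .nil))) .nil)) (.node (.node .leaf (nat_lit 530231124886379) (.br (nat_lit 1) (.cons (.br (nat_lit 3) (.cons (.rel (nat_lit 570445824)) .nil)) .nil)) .leaf) (nat_lit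 530231126134944) (.br (nat_lit 1) (.cons (.br (nat_lit 4) (.cons (.rel (nat_lit 2181055488)) .nil)) .nil)) .leaf)) (nat_lit 530231126329344) (.br (nat_lit 1) (.cons (.br (nat_lit 4) (.cons (.rel (nat_lit 2181055488)) (.cons (.rel (nat_lit 1090528257)) (.cons (.rel (nat_lit 1090520160)) .nil)))) (.cons (.br (nat_lit 4) (.cons (.rel (nat_lit 1090528257)) (.cons (.rel (nat_lit 1090520160)) (.cons (.rel (nat_lit 2164262160)) .nil)))) (.cons (.br (nat_lit 0) (.cons (.rel (nat_lit 37765188)) (.cons (.rel (nat_lit 42206208)) (.cons (.rel (nat_lit 22037520)) (.cons (.rel (nat_lit 20993280)) .nil))))) .nil)))) (.node (.node (.node .leaf (nat_lit 530231126329599) (.br (nat_lit 3) (.cons (.br (nat_lit 0) (.cons (.rel (nat_lit 272631936)) (.cons (.rel (nat_lit 272631936)) .nil))) .nil)) .leaf) (nat_lit 530231126330025) (.br (nat_lit 4) (.cons (.br (nat_lit 2) (.cons (.rel (nat_lit 1140868116)) (.cons (.rel (nat_lit 1141900800)) .nil))) .nil)) (.node .leaf (nat_lit 530231126330255) (.br (nat_lit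 1) (.cons (.br (nat_lit 2) (.cons (.rel (nat_lit 168050688)) .nil)) .nil)) .leaf)) (nat_lit 530232051740126) (.br (nat_lit 5) (.cons (.br (nat_lit 6) (.cons (.rel (nat_lit 21474869760)) .nil)) .nil)) (.node (.node .leaf (nat_lit 530232053270528) (.br (nat_lit 4) (.cons (.br (nat_lit 1) (.cons (.rel (nat_lit 1090520160)) (.cons (.rel (nat_lit 1090519113)) .nil))) .nil)) .leaf) (nat_lit 530234607601664) (.br (nat_lit 0) (.cons (.br (nat_lit 4) (.cons (.rel (nat_lit 1077938244)) .nil)) .nil)) .leaf))) (nat_lit 530234607602415) (.br (nat_lit 0) (.cons (.br (nat_lit 1) (.cons (.rel (nat_lit 21037344)) .nil)) .nil)) (.node (.node (.node (.node .leaf (nat_lit 540868074211328) (.br (nat_lit 0) (.cons (.br (nat_lit 4) (.cons (.rel (nat_lit 1077937233)) .nil)) .nil)) .leaf) (nat_lit 540874055288832) (.br (nat_lit 0) (.cons (.br (nat_lit 4) (.cons (.rel (nat_lit 1077952641)) .nil)) .nil)) (.node .leaf (nat_lit 547737390566251) (.br (nat_lit 0) (.cons (.br (nat_lit 1) (.cons (.rel (nat_lit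 20971860)) .nil)) .nil)) .leaf)) (nat_lit 552252770029618) (.br (nat_lit 0) (.cons (.br (nat_lit 3) (.cons (.rel (nat_lit 545260608)) .nil)) .nil)) (.node (.node .leaf (nat_lit 552252770030319) (.br (nat_lit 0) (.cons (.br (nat_lit 2) (.cons (.rel (nat_lit 75497568)) .nil)) .nil)) .leaf) (nat_lit 557221623566346) (.br (nat_lit 0) (.cons (.br (nat_lit 1) (.cons (.rel (nat_lit 25165842)) .nil)) .nil)) .leaf)) (nat_lit 557221623566491) (.br (nat_lit 1) (.cons (.br (nat_lit 4) (.cons (.rel (nat_lit 1090520160)) (.cons (.rel (nat_lit 1090535568)) .nil))) .nil)) (.node (.node (.node .leaf (nat_lit 557221623567093) (.br (nat_lit 0) (.cons (.br (nat_lit 4) (.cons (.rel (nat_lit 1077937233)) .nil)) .nil)) .leaf) (nat_lit 558474856435969) (.br (nat_lit 0) (.cons (.br (nat_lit 1) (.cons (.rel (nat_lit 25236480)) .nil)) .nil)) (.node .leaf (nat_lit 558474856436587) (.br (nat_lit 0) (.cons (.br (nat_lit 1) (.cons (.rel (nat_lit 42206208)) .nil)) .nil)) .leaf)) (nat_lit 558509167018241) (.br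 (nat_lit 0) (.cons (.br (nat_lit 2) (.cons (.rel (nat_lit 71307540)) .nil)) .nil)) (.node (.node .leaf (nat_lit 565378735349264) (.br (nat_lit 0) (.cons (.br (nat_lit 1) (.cons (.rel (nat_lit 20993280)) .nil)) .nil)) .leaf) (nat_lit 570775621802146) (.br (nat_lit 0) (.cons (.br (nat_lit 1) (.cons (.rel (nat_lit 25165842)) .nil)) .nil)) .leaf))))

/-- refutations 5 -/
def e5 : EX := (.node (.node (.node .leaf (nat_lit 658733209174023) (.br (nat_lit 3) (.cons (.br (nat_lit 1) (.cons (.rel (nat_lit 302252160)) (.cons (.rel (nat_lit 285230082)) .nil))) .nil)) .leaf) (nat_lit 658733209175523) (.br (nat_lit 0) (.cons (.br (nat_lit 2) (.cons (.rel (nat_lit 71893008)) .nil)) .nil)) (.node .leaf (nat_lit 880701409779747) (.br (nat_lit 1) (.cons (.br (nat_lit 2) (.cons (.rel (nat_lit 83886468)) .nil)) .nil)) .leaf)) (nat_lit 880701409830947) (.br (nat_lit 0) (.cons (.br (nat_lit 1) (.cons (.rel (nat_lit 21497856)) .nil)) .nil)) (.node (.node .leaf (nat_lit 881803552482535) (.br (nat_lit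 0) (.cons (.br (nat_lit 1) (.cons (.rel (nat_lit 20993280)) .nil)) .nil)) .leaf) (nat_lit 882023599771828) (.br (nat_lit 0) (.cons (.br (nat_lit 1) (.cons (.rel (nat_lit 22052928)) .nil)) .nil)) (.node .leaf (nat_lit 882023601252364) (.br (nat_lit 0) (.cons (.br (nat_lit 2) (.cons (.rel (nat_lit 71369025)) .nil)) .nil)) .leaf)))

/-- refutations 6 -/
def e6 : EX := (.node (.node (.node (.node (.node (.node (.node (.node .leaf (nat_lit 914888688394240) (.br (nat_lit 0) (.cons (.br (nat_lit 1) (.cons (.rel (nat_lit 20971860)) .nil)) .nil)) .leaf) (nat_lit 915112027534097) (.br (nat_lit 3) (.cons (.br (nat_lit 0) (.cons (.rel (nat_lit 545260608)) (.cons (.rel (nat_lit 273973248)) .nil))) .nil)) .leaf) (nat_lit 915884852234422) (.br (nat_lit 0) (.cons (.br (nat_lit 6) (.cons (.rel (nat_lit 17184327936)) (.cons (.rel (nat_lit 17184069633)) .nil))) .nil)) (.node .leaf (nat_lit 915884853211318) (.br (nat_lit 2) (.cons (.br (nat_lit 6) (.cons (.rel (nat_lit 17246979096)) (.cons (.rel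 (nat_lit 17246980098)) (.cons (.rel (nat_lit 17314349121)) (.cons (.rel (nat_lit 17246980098)) .nil))))) .nil)) .leaf)) (nat_lit 915885120393216) (.br (nat_lit 3) (.cons (.br (nat_lit 4) (.cons (.rel (nat_lit 2415928320)) .nil)) .nil)) (.node (.node (.node .leaf (nat_lit 915885120393248) (.br (nat_lit 0) (.cons (.br (nat_lit 4) (.cons (.rel (nat_lit 1077944328)) .nil)) .nil)) .leaf) (nat_lit 915885120394641) (.br (nat_lit 3) (.cons (.br (nat_lit 4) (.cons (.rel (nat_lit 1342440480)) (.cons (.rel (nat_lit 1344275520)) .nil))) .nil)) .leaf) (nat_lit 915885120417792) (.br (nat_lit 4) (.cons (.br (nat_lit 1) (.cons (.rel (nat_lit 1090539522)) (.cons (.rel (nat_lit 1090519113)) .nil))) .nil)) (.node .leaf (nat_lit 915885120418072) (.br (nat_lit 4) (.cons (.br (nat_lit 5) (.cons (.rel (nat_lit 6442456065)) (.cons (.rel (nat_lit 5369778432)) .nil))) (.cons (.br (nat_lit 6) (.cons (.rel (nat_lit 19327373328)) (.cons (.rel (nat_lit 18253616640)) (.cons (.rel (nat_lit 18253616640)) .nil))))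 .nil))) .leaf))) (nat_lit 915885120418097) (.br (nat_lit 0) (.cons (.br (nat_lit 2) (.cons (.rel (nat_lit 71319816)) .nil)) .nil)) (.node (.node (.node (.node .leaf (nat_lit 915885120418424) (.br (nat_lit 1) (.cons (.br (nat_lit 2) (.cons (.rel (nat_lit 83892480)) .nil)) .nil)) .leaf) (nat_lit 915885120418577) (.br (nat_lit 4) (.cons (.br (nat_lit 5) (.cons (.rel (nat_lit 6442467330)) .nil)) .nil)) .leaf) (nat_lit 915885120612352) (.br (nat_lit 4) (.cons (.br (nat_lit 1) (.cons (.br (nat_lit 5) (.cons (.rel (nat_lit 4311770112)) (.cons (.rel (nat_lit 10737418500)) .nil))) (.cons (.rel (nat_lit 1090553856)) .nil))) .nil)) (.node .leaf (nat_lit 915885120612534) (.br (nat_lit 4) (.cons (.br (nat_lit 1) (.cons (.rel (nat_lit 1090528257)) (.cons (.rel (nat_lit 1090519113)) (.cons (.rel (nat_lit 2164262160)) (.cons (.rel (nat_lit 1090786560)) .nil))))) (.cons (.br (nat_lit 6) (.cons (.rel (nat_lit 18253873176)) (.cons (.br (nat_lit 0) (.cons (.rel (nat_lit 1077937233)) (.cons (.rel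 (nat_lit 34368147456)) (.cons (.rel (nat_lit 1077937233)) (.cons (.rel (nat_lit 17184080898)) (.cons (.rel (nat_lit 1077944328)) (.cons (.rel (nat_lit 1077941376)) (.cons (.rel (nat_lit 1077937233)) (.cons (.rel (nat_lit 1077944328)) .nil))))))))) (.cons (.rel (nat_lit 35433496584)) (.cons (.rel (nat_lit 19327385604)) (.cons (.rel (nat_lit 35433496584)) (.cons (.rel (nat_lit 19327385604)) (.cons (.rel (nat_lit 18253874178)) (.cons (.rel (nat_lit 18253874178)) (.cons (.rel (nat_lit 35433484308)) (.cons (.rel (nat_lit 18253874178)) (.cons (.rel (nat_lit 18253873176)) .nil)))))))))))) .nil))) .leaf)) (nat_lit 915885120612632) (.br (nat_lit 1) (.cons (.br (nat_lit 5) (.cons (.rel (nat_lit 8607236112)) .nil)) .nil)) (.node (.node (.node .leaf (nat_lit 915885120612654) (.br (nat_lit 3) (.cons (.br (nat_lit 1) (.cons (.rel (nat_lit 285253632)) (.cons (.rel (nat_lit 285253632)) (.cons (.rel (nat_lit 553652496)) (.cons (.rel (nat_lit 286261764)) .nil))))) .nil)) .leaf) (nat_lit 915885120613888)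 (.br (nat_lit 1) (.cons (.br (nat_lit 4) (.cons (.rel (nat_lit 1090519113)) .nil)) .nil)) .leaf) (nat_lit 915885120669878) (.br (nat_lit 4) (.cons (.br (nat_lit 0) (.cons (.rel (nat_lit 1077938244)) (.cons (.rel (nat_lit 1078329600)) (.cons (.rel (nat_lit 1078001670)) (.cons (.rel (nat_lit 2152218624)) .nil))))) (.cons (.br (nat_lit 6) (.cons (.rel (nat_lit 18253874178)) (.cons (.rel (nat_lit 18253874178)) (.cons (.rel (nat_lit 19327385604)) (.cons (.rel (nat_lit 19327420416)) (.cons (.rel (nat_lit 35433496584)) (.cons (.rel (nat_lit 36508289028)) .nil))))))) (.cons (.br (nat_lit 5) (.cons (.rel (nat_lit 10737418500)) (.cons (.rel (nat_lit 9663676500)) (.cons (.rel (nat_lit 5368709640)) (.cons (.rel (nat_lit 6442516548)) (.cons (.rel (nat_lit 6442456065)) (.cons (.rel (nat_lit 6442467330)) .nil))))))) .nil)))) (.node .leaf (nat_lit 915885120670328) (.br (nat_lit 0) (.cons (.br (nat_lit 6) (.cons (.rel (nat_lit 17184063621)) .nil)) .nil)) .leaf)))) (nat_lit 915885120826725) (.br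 (nat_lit 0) (.cons (.br (nat_lit 4) (.cons (.rel (nat_lit 1077938244)) .nil)) .nil)) (.node (.node (.node (.node (.node .leaf (nat_lit 915885120826776) (.br (nat_lit 4) (.cons (.br (nat_lit 3) (.cons (.rel (nat_lit 1610630145)) (.cons (.rel (nat_lit 2415928320)) .nil))) .nil)) .leaf) (nat_lit 915885120826876) (.br (nat_lit 3) (.cons (.br (nat_lit 4) (.cons (.rel (nat_lit 2684420352)) .nil)) .nil)) .leaf) (nat_lit 915885120915456) (.br (nat_lit 0) (.cons (.br (nat_lit 4) (.cons (.rel (nat_lit 2155876356)) (.cons (.rel (nat_lit 1077944328)) .nil))) .nil)) (.node .leaf (nat_lit 915885120915758) (.br (nat_lit 2) (.cons (.br (nat_lit 4) (.cons (.rel (nat_lit 1140851841)) .nil)) .nil)) .leaf)) (nat_lit 915885120916236) (.br (nat_lit 0) (.cons (.br (nat_lit 4) (.cons (.rel (nat_lit 1077941376)) (.cons (.rel (nat_lit 1077944328)) .nil))) .nil)) (.node (.node (.node .leaf (nat_lit 915885120927926) (.br (nat_lit 4) (.cons (.br (nat_lit 2) (.cons (.rel (nat_lit 1140851841)) (.cons (.rel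 (nat_lit 1140918336)) (.cons (.rel (nat_lit 1140851841)) .nil)))) .nil)) .leaf) (nat_lit 915885121647224) (.br (nat_lit 1) (.cons (.br (nat_lit 2) (.cons (.rel (nat_lit 151257360)) (.cons (.rel (nat_lit 83892480)) (.cons (.rel (nat_lit 150999057)) (.cons (.rel (nat_lit 101974017)) .nil))))) .nil)) .leaf) (nat_lit 915885121647377) (.br (nat_lit 0) (.cons (.br (nat_lit 2) (.cons (.rel (nat_lit 75497568)) .nil)) .nil)) (.node .leaf (nat_lit 915885122210572) (.br (nat_lit 0) (.cons (.br (nat_lit 3) (.cons (.rel (nat_lit 272638020)) (.cons (.rel (nat_lit 272631936)) .nil))) (.cons (.br (nat_lit 3) (.cons (.rel (nat_lit 272638020)) (.cons (.rel (nat_lit 272631936)) .nil))) .nil))) .leaf))) (nat_lit 915885122854912) (.br (nat_lit 0) (.cons (.br (nat_lit 4) (.cons (.rel (nat_lit 1078001670)) (.cons (.rel (nat_lit 1077944328)) (.cons (.rel (nat_lit 1077938244)) .nil)))) (.cons (.br (nat_lit 4) (.cons (.rel (nat_lit 1077937233)) (.cons (.rel (nat_lit 1077941376)) (.cons (.rel (nat_lit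 1078329600)) .nil)))) (.cons (.br (nat_lit 6) (.cons (.rel (nat_lit 17184063621)) (.cons (.rel (nat_lit 17184069633)) (.cons (.rel (nat_lit 17184063621)) .nil)))) .nil)))) (.node (.node (.node (.node .leaf (nat_lit 915885122855819) (.br (nat_lit 0) (.cons (.br (nat_lit 1) (.cons (.rel (nat_lit 21497856)) .nil)) .nil)) .leaf) (nat_lit 915885122863104) (.br (nat_lit 1) (.cons (.br (nat_lit 4) (.cons (.rel (nat_lit 1090520160)) .nil)) .nil)) .leaf) (nat_lit 915885122863386) (.br (nat_lit 0) (.cons (.br (nat_lit 1) (.cons (.rel (nat_lit 20993280)) .nil)) .nil)) (.node .leaf (nat_lit 915885122863390) (.br (nat_lit 1) (.cons (.br (nat_lit 4) (.cons (.rel (nat_lit 1090786560)) .nil)) .nil)) .leaf)) (nat_lit 915885122863736) (.br (nat_lit 4) (.cons (.br (nat_lit 0) (.cons (.br (nat_lit 1) (.cons (.rel (nat_lit 42206208)) (.cons (.rel (nat_lit 1090519113)) .nil))) (.cons (.rel (nat_lit 1078001670)) .nil))) .nil)) (.node (.node .leaf (nat_lit 915885122864015) (.br (nat_lit 1) (.cons (.br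 (nat_lit 4) (.cons (.rel (nat_lit 1090553856)) .nil)) .nil)) .leaf) (nat_lit 915885123214219) (.br (nat_lit 0) (.cons (.br (nat_lit 4) (.cons (.rel (nat_lit 1077938244)) .nil)) .nil)) (.node .leaf (nat_lit 915885123221504) (.br (nat_lit 4) (.cons (.br (nat_lit 0) (.cons (.rel (nat_lit 1077937233)) (.cons (.rel (nat_lit 1077941376)) .nil))) .nil)) .leaf))))) (nat_lit 915885123229878) (.br (nat_lit 1) (.cons (.br (nat_lit 4) (.cons (.rel (nat_lit 1090553856)) .nil)) .nil)) (.node (.node (.node (.node (.node (.node .leaf (nat_lit 915885123229978) (.br (nat_lit 0) (.cons (.br (nat_lit 1) (.cons (.rel (nat_lit 25169985)) .nil)) .nil)) .leaf) (nat_lit 915885123229982) (.br (nat_lit 4) (.cons (.br (nat_lit 0) (.cons (.rel (nat_lit 1077938244)) (.cons (.rel (nat_lit 1082425344)) (.cons (.rel (nat_lit 1077941376)) (.cons (.rel (nat_lit 1077944328)) (.cons (.rel (nat_lit 2152218624)) .nil)))))) .nil)) .leaf) (nat_lit 915885123230478) (.br (nat_lit 1) (.cons (.br (nat_lit 4) (.cons (.rel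 (nat_lit 1090539522)) .nil)) .nil)) (.node .leaf (nat_lit 915885123230503) (.br (nat_lit 6) (.cons (.br (nat_lit 0) (.cons (.rel (nat_lit 17184067620)) (.cons (.rel (nat_lit 34368129108)) .nil))) .nil)) .leaf)) (nat_lit 915885123230507) (.br (nat_lit 0) (.cons (.br (nat_lit 1) (.cons (.rel (nat_lit 21004545)) (.cons (.rel (nat_lit 25165842)) (.cons (.rel (nat_lit 25169985)) (.cons (.rel (nat_lit 37752912)) .nil))))) .nil)) (.node (.node (.node .leaf (nat_lit 915885123230607) (.br (nat_lit 1) (.cons (.br (nat_lit 4) (.cons (.rel (nat_lit 1090553856)) .nil)) .nil)) .leaf) (nat_lit 915885123230608) (.br (nat_lit 0) (.cons (.br (nat_lit 6) (.cons (.rel (nat_lit 34368147456)) (.cons (.rel (nat_lit 34368147456)) .nil))) .nil)) .leaf) (nat_lit 915885123418112) (.br (nat_lit 1) (.cons (.br (nat_lit 4) (.cons (.rel (nat_lit 1090553856)) (.cons (.rel (nat_lit 1090539522)) (.cons (.rel (nat_lit 1090519113)) .nil)))) .nil)) (.node .leaf (nat_lit 915885123418174) (.br (nat_lit 3) (.cons (.br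 (nat_lit 4) (.cons (.rel (nat_lit 1342440480)) .nil)) .nil)) .leaf))) (nat_lit 915885123418294) (.br (nat_lit 1) (.cons (.br (nat_lit 4) (.cons (.rel (nat_lit 1090519113)) (.cons (.rel (nat_lit 2164262160)) (.cons (.rel (nat_lit 1090519113)) .nil)))) (.cons (.br (nat_lit 0) (.cons (.rel (nat_lit 21561474)) (.cons (.rel (nat_lit 21495846)) (.cons (.rel (nat_lit 20993280)) (.cons (.rel (nat_lit 42206208)) (.cons (.rel (nat_lit 21497856)) .nil)))))) .nil))) (.node (.node (.node (.node .leaf (nat_lit 915885123418394) (.br (nat_lit 0) (.cons (.br (nat_lit 3) (.cons (.rel (nat_lit 272761857)) .nil)) .nil)) .leaf) (nat_lit 915885123418398) (.br (nat_lit 0) (.cons (.br (nat_lit 1) (.cons (.rel (nat_lit 20993280)) (.cons (.rel (nat_lit 42206208)) .nil))) (.cons (.br (nat_lit 1) (.cons (.rel (nat_lit 42206208)) (.cons (.rel (nat_lit 20993280)) .nil))) .nil))) .leaf) (nat_lit 915885123418744) (.br (nat_lit 1) (.cons (.br (nat_lit 6) (.cons (.rel (nat_lit 34393358340)) (.cons (.rel (nat_lit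 17196777480)) (.cons (.rel (nat_lit 17196777480)) .nil)))) (.cons (.br (nat_lit 4) (.cons (.rel (nat_lit 1090528257)) (.cons (.br (nat_lit 2) (.cons (.br (nat_lit 0) (.cons (.rel (nat_lit 25169985)) (.cons (.rel (nat_lit 21497856)) (.cons (.rel (nat_lit 138543108)) (.cons (.rel (nat_lit 22037520)) .nil))))) (.cons (.rel (nat_lit 84443136)) (.cons (.rel (nat_lit 84443136)) .nil)))) .nil))) .nil))) (.node .leaf (nat_lit 915885123418863) (.br (nat_lit 1) (.cons (.br (nat_lit 3) (.cons (.rel (nat_lit 285212805)) .nil)) .nil)) .leaf)) (nat_lit 915885123418897) (.br (nat_lit 4) (.cons (.br (nat_lit 0) (.cons (.rel (nat_lit 1079247873)) (.cons (.rel (nat_lit 1077938244)) .nil))) .nil)) (.node (.node (.node .leaf (nat_lit 915885123418919) (.br (nat_lit 0) (.cons (.br (nat_lit 1) (.cons (.rel (nat_lit 20993280)) (.cons (.rel (nat_lit 21004545)) (.cons (.rel (nat_lit 21004545)) (.cons (.rel (nat_lit 42206208)) .nil))))) (.cons (.br (nat_lit 1) (.cons (.rel (nat_lit 22024197)) (.cons (.rel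 (nat_lit 20978064)) (.cons (.rel (nat_lit 21004545)) (.cons (.rel (nat_lit 20993280)) .nil))))) .nil))) .leaf) (nat_lit 915885123418923) (.br (nat_lit 0) (.cons (.br (nat_lit 6) (.cons (.rel (nat_lit 17184067620)) (.cons (.rel (nat_lit 17188258368)) (.cons (.rel (nat_lit 17188536324)) .nil)))) .nil)) .leaf) (nat_lit 915885779175606) (.br (nat_lit 0) (.cons (.br (nat_lit 6) (.cons (.rel (nat_lit 17184079896)) (.cons (.rel (nat_lit 34368147456)) .nil))) .nil)) (.node .leaf (nat_lit 915885780152502) (.br (nat_lit 1) (.cons (.br (nat_lit 4) (.cons (.rel (nat_lit 1090553856)) .nil)) .nil)) .leaf)))) (nat_lit 915885781727414) (.br (nat_lit 1) (.cons (.br (nat_lit 0) (.cons (.rel (nat_lit 20993280)) (.cons (.rel (nat_lit 21004545)) .nil))) .nil)) (.node (.node (.node (.node (.node .leaf (nat_lit 915885781924022) (.br (nat_lit 0) (.cons (.br (nat_lit 1) (.cons (.rel (nat_lit 21037344)) .nil)) .nil)) .leaf) (nat_lit 915885781924647) (.br (nat_lit 2) (.cons (.br (nat_lit 3) (.cons (.rel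 (nat_lit 335613969)) .nil)) .nil)) .leaf) (nat_lit 915887435927060) (.br (nat_lit 0) (.cons (.br (nat_lit 1) (.cons (.rel (nat_lit 22093824)) .nil)) .nil)) (.node .leaf (nat_lit 915887436902582) (.br (nat_lit 0) (.cons (.br (nat_lit 1) (.cons (.rel (nat_lit 22282500)) .nil)) .nil)) .leaf)) (nat_lit 915887438674102) (.br (nat_lit 4) (.cons (.br (nat_lit 5) (.cons (.rel (nat_lit 5368972368)) .nil)) .nil)) (.node (.node (.node .leaf (nat_lit 915887873343488) (.br (nat_lit 1) (.cons (.br (nat_lit 2) (.cons (.rel (nat_lit 83892480)) .nil)) .nil)) .leaf) (nat_lit 915887873569575) (.br (nat_lit 0) (.cons (.br (nat_lit 3) (.cons (.rel (nat_lit 272631936)) .nil)) .nil)) .leaf) (nat_lit 915887874881718) (.br (nat_lit 0) (.cons (.br (nat_lit 3) (.cons (.rel (nat_lit 272631936)) (.cons (.rel (nat_lit 272631936)) .nil))) .nil)) (.node .leaf (nat_lit 915887874882168) (.br (nat_lit 0) (.cons (.br (nat_lit 1) (.cons (.rel (nat_lit 21497856)) .nil)) .nil)) .leaf))) (nat_lit 915888421529782) (.br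 (nat_lit 0) (.cons (.br (nat_lit 1) (.cons (.rel (nat_lit 21037344)) .nil)) .nil)) (.node (.node (.node (.node .leaf (nat_lit 915888423780534) (.br (nat_lit 0) (.cons (.br (nat_lit 1) (.cons (.rel (nat_lit 37748769)) .nil)) .nil)) .leaf) (nat_lit 915888423781263) (.br (nat_lit 0) (.cons (.br (nat_lit 1) (.cons (.rel (nat_lit 21061908)) .nil)) .nil)) .leaf) (nat_lit 915953840146614) (.br (nat_lit 0) (.cons (.br (nat_lit 4) (.cons (.rel (nat_lit 1082425344)) .nil)) .nil)) (.node .leaf (nat_lit 915953842698240) (.br (nat_lit 0) (.cons (.br (nat_lit 1) (.cons (.rel (nat_lit 20993280)) .nil)) .nil)) .leaf)) (nat_lit 915953842706614) (.br (nat_lit 0) (.cons (.br (nat_lit 1) (.cons (.rel (nat_lit 25166853)) .nil)) .nil)) (.node (.node .leaf (nat_lit 917207702105339) (.br (nat_lit 1) (.cons (.br (nat_lit 4) (.cons (.rel (nat_lit 1090539522)) .nil)) .nil)) .leaf) (nat_lit 917207702298624) (.br (nat_lit 1) (.cons (.br (nat_lit 4) (.cons (.rel (nat_lit 1091830800)) (.cons (.rel (nat_lit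 1090539522)) .nil))) .nil)) (.node .leaf (nat_lit 917207702299409) (.br (nat_lit 0) (.cons (.br (nat_lit 1) (.cons (.rel (nat_lit 20971860)) .nil)) .nil)) .leaf)))))) (nat_lit 917207703372678) (.br (nat_lit 0) (.cons (.br (nat_lit 5) (.cons (.rel (nat_lit 4299165765)) .nil)) .nil)) (.node (.node (.node (.node (.node (.node (.node .leaf (nat_lit 917207704909886) (.br (nat_lit 1) (.cons (.br (nat_lit 2) (.cons (.rel (nat_lit 100663377)) .nil)) .nil)) .leaf) (nat_lit 917207970541056) (.br (nat_lit 1) (.cons (.br (nat_lit 4) (.cons (.rel (nat_lit 1090539522)) .nil)) .nil)) .leaf) (nat_lit 917207970734262) (.br (nat_lit 1) (.cons (.br (nat_lit 6) (.cons (.rel (nat_lit 17196663825)) .nil)) .nil)) (.node .leaf (nat_lit 917208629239808) (.br (nat_lit 1) (.cons (.br (nat_lit 2) (.cons (.rel (nat_lit 151000068)) .nil)) .nil)) .leaf)) (nat_lit 921327794706614) (.br (nat_lit 1) (.cons (.br (nat_lit 5) (.cons (.rel (nat_lit 4311748692)) .nil)) .nil)) (.node (.node (.node .leaf (nat_lit 921327824059800)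 (.br (nat_lit 0) (.cons (.br (nat_lit 2) (.cons (.rel (nat_lit 75505665)) .nil)) .nil)) .leaf) (nat_lit 921327824066742) (.br (nat_lit 0) (.cons (.br (nat_lit 1) (.cons (.rel (nat_lit 21497856)) .nil)) .nil)) .leaf) (nat_lit 921494348204839) (.br (nat_lit 0) (.cons (.br (nat_lit 1) (.cons (.rel (nat_lit 21497856)) .nil)) .nil)) (.node .leaf (nat_lit 921494350706870) (.br (nat_lit 1) (.cons (.br (nat_lit 3) (.cons (.rel (nat_lit 285253632)) .nil)) .nil)) .leaf))) (nat_lit 921497651077120) (.br (nat_lit 3) (.cons (.br (nat_lit 4) (.cons (.rel (nat_lit 1342455888)) .nil)) .nil)) (.node (.node (.node (.node .leaf (nat_lit 921497651624118) (.br (nat_lit 0) (.cons (.br (nat_lit 1) (.cons (.rel (nat_lit 20971860)) .nil)) .nil)) .leaf) (nat_lit 926004065159924) (.br (nat_lit 0) (.cons (.br (nat_lit 1) (.cons (.rel (nat_lit 42206208)) .nil)) .nil)) .leaf) (nat_lit 926006816623348) (.br (nat_lit 0) (.cons (.br (nat_lit 2) (.cons (.rel (nat_lit 75763968)) .nil)) .nil)) (.node .leaf (nat_lit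 926007364536502) (.br (nat_lit 0) (.cons (.br (nat_lit 1) (.cons (.rel (nat_lit 37765188)) .nil)) .nil)) .leaf)) (nat_lit 926007364673718) (.br (nat_lit 0) (.cons (.br (nat_lit 1) (.cons (.rel (nat_lit 37749780)) .nil)) .nil)) (.node (.node (.node .leaf (nat_lit 926656901396662) (.br (nat_lit 3) (.cons (.br (nat_lit 0) (.cons (.rel (nat_lit 272631936)) (.cons (.rel (nat_lit 272647200)) .nil))) .nil)) .leaf) (nat_lit 926656901397291) (.br (nat_lit 0) (.cons (.br (nat_lit 3) (.cons (.rel (nat_lit 277090305)) .nil)) .nil)) .leaf) (nat_lit 926694562052278) (.br (nat_lit 1) (.cons (.br (nat_lit 5) (.cons (.rel (nat_lit 4311744549)) .nil)) .nil)) (.node .leaf (nat_lit 928125777187102) (.br (nat_lit 3) (.cons (.br (nat_lit 4) (.cons (.rel (nat_lit 2416197888)) .nil)) .nil)) .leaf)))) (nat_lit 928125777392503) (.br (nat_lit 1) (.cons (.br (nat_lit 5) (.cons (.rel (nat_lit 8623490049)) (.cons (.rel (nat_lit 4311745560)) .nil))) (.cons (.br (nat_lit 5) (.cons (.rel (nat_lit 4311746562))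 (.cons (.rel (nat_lit 8623490049)) .nil))) .nil))) (.node (.node (.node (.node (.node .leaf (nat_lit 928125777393172) (.br (nat_lit 1) (.cons (.br (nat_lit 5) (.cons (.rel (nat_lit 8606712129)) .nil)) .nil)) .leaf) (nat_lit 928125777405952) (.br (nat_lit 4) (.cons (.br (nat_lit 0) (.cons (.rel (nat_lit 1077944328)) (.cons (.rel (nat_lit 1077937233)) (.cons (.rel (nat_lit 1077937233)) (.cons (.rel (nat_lit 1077952641)) (.cons (.rel (nat_lit 2152218624)) .nil)))))) .nil)) .leaf) (nat_lit 928125777406134) (.br (nat_lit 5) (.cons (.br (nat_lit 0) (.cons (.rel (nat_lit 4299163680)) (.cons (.rel (nat_lit 4299162633)) (.cons (.rel (nat_lit 4299161622)) .nil)))) (.cons (.br (nat_lit 0) (.cons (.rel (nat_lit 4299162633)) (.cons (.rel (nat_lit 8598339648)) (.cons (.rel (nat_lit 4299179088)) .nil)))) .nil))) (.node .leaf (nat_lit 928125777406137) (.br (nat_lit 4) (.cons (.br (nat_lit 5) (.cons (.rel (nat_lit 5370822672)) .nil)) .nil)) .leaf)) (nat_lit 928125777406254) (.br (nat_lit 3) (.cons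 (.br (nat_lit 5) (.cons (.rel (nat_lit 8858374146)) .nil)) .nil)) (.node (.node (.node .leaf (nat_lit 928125777406883) (.br (nat_lit 0) (.cons (.br (nat_lit 1) (.cons (.rel (nat_lit 25428288)) .nil)) .nil)) .leaf) (nat_lit 928125777407488) (.br (nat_lit 5) (.cons (.br (nat_lit 1) (.cons (.rel (nat_lit 4312039680)) (.cons (.rel (nat_lit 4311746562)) .nil))) .nil)) .leaf) (nat_lit 928125777463478) (.br (nat_lit 6) (.cons (.br (nat_lit 4) (.cons (.rel (nat_lit 18254004288)) (.cons (.rel (nat_lit 18253897728)) (.cons (.rel (nat_lit 18253874178)) .nil)))) (.cons (.br (nat_lit 4) (.cons (.rel (nat_lit 19327353921)) (.cons (.rel (nat_lit 19327353921)) (.cons (.rel (nat_lit 18254004288)) .nil)))) .nil))) (.node .leaf (nat_lit 928125777463551) (.br (nat_lit 3) (.cons (.br (nat_lit 4) (.cons (.rel (nat_lit 1343227137)) .nil)) .nil)) .leaf))) (nat_lit 928125777463571) (.br (nat_lit 1) (.cons (.br (nat_lit 5) (.cons (.rel (nat_lit 4311745560)) .nil)) .nil)) (.node (.node (.node (.node .leaf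 (nat_lit 928125777600512) (.br (nat_lit 4) (.cons (.br (nat_lit 6) (.cons (.rel (nat_lit 18253874178)) (.cons (.rel (nat_lit 18253874178)) (.cons (.rel (nat_lit 18253874178)) .nil)))) (.cons (.br (nat_lit 6) (.cons (.rel (nat_lit 18253897728)) (.cons (.rel (nat_lit 19327353921)) (.cons (.rel (nat_lit 18253874178)) .nil)))) (.cons (.br (nat_lit 6) (.cons (.rel (nat_lit 18253874178)) (.cons (.br (nat_lit 0) (.cons (.rel (nat_lit 1077944328)) (.cons (.rel (nat_lit 34364981250)) (.cons (.rel (nat_lit 2155876356)) (.cons (.rel (nat_lit 1077952641)) .nil))))) (.cons (.rel (nat_lit 19327353921)) .nil)))) .nil)))) .leaf) (nat_lit 928125777600694) (.br (nat_lit 6) (.cons (.br (nat_lit 1) (.cons (.rel (nat_lit 17196679233)) (.cons (.rel (nat_lit 17196650502)) .nil))) .nil)) .leaf) (nat_lit 928125777601273) (.br (nat_lit 0) (.cons (.br (nat_lit 4) (.cons (.rel (nat_lit 1079001600)) .nil)) .nil)) (.node .leaf (nat_lit 928125777601938) (.br (nat_lit 0) (.cons (.br (nat_lit 1) (.cons (.rel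 (nat_lit 21497856)) (.cons (.rel (nat_lit 22024197)) .nil))) (.cons (.br (nat_lit 1) (.cons (.rel (nat_lit 25169985)) (.cons (.rel (nat_lit 42206208)) .nil))) .nil))) .leaf)) (nat_lit 928125777619199) (.br (nat_lit 3) (.cons (.br (nat_lit 4) (.cons (.rel (nat_lit 2684420352)) .nil)) .nil)) (.node (.node .leaf (nat_lit 928125777619875) (.br (nat_lit 3) (.cons (.br (nat_lit 4) (.cons (.rel (nat_lit 2684420352)) .nil)) .nil)) .leaf) (nat_lit 928125777620476) (.br (nat_lit 4) (.cons (.br (nat_lit 5) (.cons (.rel (nat_lit 9663709185)) .nil)) .nil)) (.node .leaf (nat_lit 928125777709836) (.br (nat_lit 1) (.cons (.br (nat_lit 3) (.cons (.rel (nat_lit 285216804)) .nil)) .nil)) .leaf))))) (nat_lit 928125777709863) (.br (nat_lit 6) (.cons (.br (nat_lit 0) (.cons (.rel (nat_lit 17184067620)) (.cons (.rel (nat_lit 17184069633)) .nil))) .nil)) (.node (.node (.node (.node (.node (.node .leaf (nat_lit 928125777721526) (.br (nat_lit 3) (.cons (.br (nat_lit 5) (.cons (.rel (nat_lit 4563403332))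 .nil)) .nil)) .leaf) (nat_lit 928125777722769) (.br (nat_lit 1) (.cons (.br (nat_lit 4) (.cons (.rel (nat_lit 1090519113)) .nil)) .nil)) .leaf) (nat_lit 928125778418316) (.br (nat_lit 0) (.cons (.br (nat_lit 1) (.cons (.rel (nat_lit 20993280)) .nil)) .nil)) (.node .leaf (nat_lit 928125778419089) (.br (nat_lit 0) (.cons (.br (nat_lit 4) (.cons (.rel (nat_lit 1077937233)) (.cons (.rel (nat_lit 2152727616)) .nil))) (.cons (.br (nat_lit 4) (.cons (.rel (nat_lit 2152727616)) (.cons (.rel (nat_lit 1077944328)) .nil))) .nil))) .leaf)) (nat_lit 928125778886838) (.br (nat_lit 0) (.cons (.br (nat_lit 1) (.cons (.rel (nat_lit 20971860)) .nil)) .nil)) (.node (.node (.node .leaf (nat_lit 928125779650048) (.br (nat_lit 0) (.cons (.br (nat_lit 1) (.cons (.rel (nat_lit 20993280)) .nil)) .nil)) .leaf) (nat_lit 928125779656704) (.br (nat_lit 1) (.cons (.br (nat_lit 4) (.cons (.rel (nat_lit 2181055488)) (.cons (.rel (nat_lit 1090553856)) (.cons (.rel (nat_lit 1090528257)) .nil)))) .nil)) .leaf)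 (nat_lit 928125779656766) (.br (nat_lit 0) (.cons (.br (nat_lit 3) (.cons (.rel (nat_lit 545260608)) (.cons (.rel (nat_lit 272631936)) .nil))) (.cons (.br (nat_lit 1) (.cons (.rel (nat_lit 21004545)) (.cons (.rel (nat_lit 22024197)) .nil))) .nil))) (.node .leaf (nat_lit 928125779656886) (.br (nat_lit 0) (.cons (.br (nat_lit 3) (.cons (.rel (nat_lit 545260608)) (.cons (.rel (nat_lit 272638020)) (.cons (.rel (nat_lit 542114820)) (.cons (.rel (nat_lit 272631936)) (.cons (.rel (nat_lit 274792704)) .nil)))))) (.cons (.br (nat_lit 6) (.cons (.rel (nat_lit 17184130116)) (.cons (.rel (nat_lit 34363933056)) (.cons (.rel (nat_lit 17184327936)) .nil)))) .nil))) .leaf))) (nat_lit 928125779657006) (.br (nat_lit 1) (.cons (.br (nat_lit 6) (.cons (.rel (nat_lit 17196777480)) .nil)) .nil)) (.node (.node (.node (.node .leaf (nat_lit 928125779657336) (.br (nat_lit 1) (.cons (.br (nat_lit 6) (.cons (.rel (nat_lit 17196777480)) .nil)) .nil)) .leaf) (nat_lit 928125779658236) (.br (nat_lit 0) (.cons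 (.br (nat_lit 1) (.cons (.rel (nat_lit 42206208)) .nil)) .nil)) .leaf) (nat_lit 928125779720447) (.br (nat_lit 0) (.cons (.br (nat_lit 4) (.cons (.rel (nat_lit 1077944328)) .nil)) .nil)) (.node .leaf (nat_lit 928125779720494) (.br (nat_lit 0) (.cons (.br (nat_lit 5) (.cons (.rel (nat_lit 4299165765)) .nil)) .nil)) .leaf)) (nat_lit 928125779902646) (.br (nat_lit 0) (.cons (.br (nat_lit 4) (.cons (.rel (nat_lit 1079001600)) (.cons (.rel (nat_lit 1077941376)) (.cons (.rel (nat_lit 1077937233)) .nil)))) .nil)) (.node (.node (.node .leaf (nat_lit 928125779902719) (.br (nat_lit 0) (.cons (.br (nat_lit 1) (.cons (.rel (nat_lit 25166853)) (.cons (.rel (nat_lit 42206208)) .nil))) .nil)) .leaf) (nat_lit 928125779902766) (.br (nat_lit 0) (.cons (.br (nat_lit 5) (.cons (.rel (nat_lit 8598339648)) .nil)) .nil)) .leaf) (nat_lit 928125779904000) (.br (nat_lit 0) (.cons (.br (nat_lit 1) (.cons (.rel (nat_lit 21004545)) (.cons (.rel (nat_lit 25169985)) .nil))) .nil)) (.node .leaf (nat_lit 928125780007187)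 (.br (nat_lit 0) (.cons (.br (nat_lit 1) (.cons (.rel (nat_lit 21497856)) .nil)) .nil)) .leaf)))) (nat_lit 928125780007819) (.br (nat_lit 0) (.cons (.br (nat_lit 1) (.cons (.rel (nat_lit 21004545)) .nil)) .nil)) (.node (.node (.node (.node (.node .leaf (nat_lit 928125780015104) (.br (nat_lit 2) (.cons (.br (nat_lit 4) (.cons (.rel (nat_lit 1140867105)) (.cons (.rel (nat_lit 1142181888)) .nil))) (.cons (.br (nat_lit 5) (.cons (.rel (nat_lit 4362108960)) (.cons (.rel (nat_lit 4362108960)) .nil))) .nil))) .leaf) (nat_lit 928125780015286) (.br (nat_lit 0) (.cons (.br (nat_lit 4) (.cons (.rel (nat_lit 1077938244)) (.cons (.rel (nat_lit 1079247873)) .nil))) .nil)) .leaf) (nat_lit 928125780023296) (.br (nat_lit 0) (.cons (.br (nat_lit 4) (.cons (.rel (nat_lit 2155876356)) (.cons (.rel (nat_lit 1077952641)) (.cons (.rel (nat_lit 1077941376)) .nil)))) (.cons (.br (nat_lit 4) (.cons (.rel (nat_lit 2151679233)) (.cons (.rel (nat_lit 1077952641)) (.cons (.rel (nat_lit 1077937233)) .nil))))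 (.cons (.br (nat_lit 4) (.cons (.rel (nat_lit 1077944328)) (.cons (.rel (nat_lit 1079001600)) (.cons (.rel (nat_lit 2155876356)) .nil)))) .nil)))) (.node .leaf (nat_lit 928125780023551) (.br (nat_lit 5) (.cons (.br (nat_lit 1) (.cons (.rel (nat_lit 4311781377)) (.cons (.rel (nat_lit 4311746562)) (.cons (.rel (nat_lit 4311746562)) .nil)))) .nil)) .leaf)) (nat_lit 928125780024196) (.br (nat_lit 1) (.cons (.br (nat_lit 4) (.cons (.rel (nat_lit 1090797825)) .nil)) .nil)) (.node (.node (.node .leaf (nat_lit 928125780024721) (.br (nat_lit 1) (.cons (.br (nat_lit 6) (.cons (.rel (nat_lit 17196777480)) .nil)) .nil)) .leaf) (nat_lit 928125780211712) (.br (nat_lit 1) (.cons (.br (nat_lit 0) (.cons (.rel (nat_lit 21497856)) (.cons (.rel (nat_lit 21497856)) (.cons (.rel (nat_lit 20993280)) (.cons (.rel (nat_lit 21004545)) .nil))))) .nil)) .leaf) (nat_lit 928125780211743) (.br (nat_lit 0) (.cons (.br (nat_lit 5) (.cons (.rel (nat_lit 4299162633)) (.cons (.rel (nat_lit 8598324240)) .nil)))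 .nil)) (.node .leaf (nat_lit 928125780211774) (.br (nat_lit 3) (.cons (.br (nat_lit 5) (.cons (.rel (nat_lit 8858388480)) .nil)) .nil)) .leaf))) (nat_lit 928125780211894) (.br (nat_lit 6) (.cons (.br (nat_lit 5) (.cons (.rel (nat_lit 21474869760)) (.cons (.rel (nat_lit 21474869760)) (.cons (.rel (nat_lit 42949689600)) (.cons (.rel (nat_lit 42949689600)) .nil))))) (.cons (.br (nat_lit 1) (.cons (.rel (nat_lit 17213948160)) (.cons (.rel (nat_lit 17196777480)) (.cons (.rel (nat_lit 17196646548)) (.cons (.rel (nat_lit 17196663825)) (.cons (.rel (nat_lit 34376778240)) .nil)))))) .nil))) (.node (.node (.node (.node .leaf (nat_lit 928125780211992) (.br (nat_lit 4) (.cons (.br (nat_lit 5) (.cons (.rel (nat_lit 5368709640)) (.cons (.rel (nat_lit 5368709640)) .nil))) .nil)) .leaf) (nat_lit 928125780211994) (.br (nat_lit 6) (.cons (.br (nat_lit 0) (.cons (.rel (nat_lit 17188258368)) (.cons (.rel (nat_lit 17184104448)) .nil))) .nil)) .leaf) (nat_lit 928125780212344) (.br (nat_lit 1) (.cons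 (.br (nat_lit 6) (.cons (.rel (nat_lit 34393358340)) .nil)) .nil)) (.node .leaf (nat_lit 928125780212523) (.br (nat_lit 1) (.cons (.br (nat_lit 6) (.cons (.rel (nat_lit 17213948160)) (.cons (.rel (nat_lit 17213689857)) .nil))) (.cons (.br (nat_lit 6) (.cons (.rel (nat_lit 17196646548)) (.cons (.rel (nat_lit 17196777480)) .nil))) .nil))) .leaf)) (nat_lit 928125780213244) (.br (nat_lit 1) (.cons (.br (nat_lit 0) (.cons (.rel (nat_lit 21497856)) (.cons (.rel (nat_lit 22052928)) (.cons (.rel (nat_lit 21497856)) .nil)))) .nil)) (.node (.node .leaf (nat_lit 928126435969206) (.br (nat_lit 0) (.cons (.br (nat_lit 4) (.cons (.rel (nat_lit 1078071297)) (.cons (.rel (nat_lit 1077952641)) .nil))) .nil)) .leaf) (nat_lit 928126438718247) (.br (nat_lit 4) (.cons (.br (nat_lit 0) (.cons (.rel (nat_lit 1078001670)) (.cons (.rel (nat_lit 1078071297)) .nil))) .nil)) (.node .leaf (nat_lit 928129081129142) (.br (nat_lit 0) (.cons (.br (nat_lit 1) (.cons (.rel (nat_lit 22093824)) .nil)) .nil)) .leaf)))))))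

/-- refutations 7 -/
def e7 : EX := (.node (.node (.node (.node (.node (.node (.node .leaf (nat_lit 986253864791428) (.br (nat_lit 4) (.cons (.br (nat_lit 5) (.cons (.rel (nat_lit 5369036805)) .nil)) .nil)) .leaf) (nat_lit 986253864791576) (.br (nat_lit 0) (.cons (.br (nat_lit 4) (.cons (.rel (nat_lit 1078001670)) .nil)) .nil)) .leaf) (nat_lit 986253865768960) (.br (nat_lit 0) (.cons (.br (nat_lit 1) (.cons (.rel (nat_lit 42206208)) .nil)) .nil)) (.node (.node .leaf (nat_lit 986253865769146) (.br (nat_lit 0) (.cons (.br (nat_lit 1) (.cons (.rel (nat_lit 25165842)) (.cons (.rel (nat_lit 25174176)) .nil))) .nil)) .leaf) (nat_lit 986253865769592) (.br (nat_lit 1) (.cons (.br (nat_lit 2) (.cons (.rel (nat_lit 83892480)) .nil)) .nil)) .leaf)) (nat_lit 986253865809975) (.br (nat_lit 4) (.cons (.br (nat_lit 5) (.cons (.rel (nat_lit 5368972368)) (.cons (.rel (nat_lit 5369106432)) .nil))) .nil)) (.node (.node (.node .leaf (nat_lit 986253866007288) (.br (nat_lit 3) (.cons (.br (nat_lit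 4) (.cons (.rel (nat_lit 1610630145)) .nil)) .nil)) .leaf) (nat_lit 986253866111162) (.br (nat_lit 0) (.cons (.br (nat_lit 4) (.cons (.rel (nat_lit 1077941376)) (.cons (.rel (nat_lit 1079247873)) .nil))) (.cons (.br (nat_lit 3) (.cons (.rel (nat_lit 272631936)) (.cons (.rel (nat_lit 272631936)) .nil))) .nil))) .leaf) (nat_lit 986253866112388) (.br (nat_lit 0) (.cons (.br (nat_lit 1) (.cons (.rel (nat_lit 37752912)) .nil)) .nil)) (.node .leaf (nat_lit 986253866112501) (.br (nat_lit 0) (.cons (.br (nat_lit 4) (.cons (.rel (nat_lit 1078001670)) .nil)) .nil)) .leaf))) (nat_lit 986253867032576) (.br (nat_lit 0) (.cons (.br (nat_lit 1) (.cons (.rel (nat_lit 20993280)) (.cons (.rel (nat_lit 25169985)) (.cons (.rel (nat_lit 37752912)) .nil)))) (.cons (.br (nat_lit 1) (.cons (.rel (nat_lit 25236480)) (.cons (.rel (nat_lit 39063552)) (.cons (.rel (nat_lit 22093824)) .nil)))) (.cons (.br (nat_lit 1) (.cons (.rel (nat_lit 20993280)) (.cons (.rel (nat_lit 21004545)) (.cons (.rel (nat_lit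 20971860)) .nil)))) .nil)))) (.node (.node (.node (.node .leaf (nat_lit 986253867032762) (.br (nat_lit 0) (.cons (.br (nat_lit 1) (.cons (.rel (nat_lit 20971860)) (.cons (.rel (nat_lit 20976006)) .nil))) .nil)) .leaf) (nat_lit 986253867145402) (.br (nat_lit 3) (.cons (.br (nat_lit 5) (.cons (.rel (nat_lit 4563403332)) .nil)) .nil)) .leaf) (nat_lit 986253867390976) (.br (nat_lit 4) (.cons (.br (nat_lit 6) (.cons (.rel (nat_lit 35433496584)) .nil)) .nil)) (.node .leaf (nat_lit 986253867391162) (.br (nat_lit 4) (.cons (.br (nat_lit 6) (.cons (.rel (nat_lit 19327373328)) .nil)) .nil)) .leaf)) (nat_lit 986253867392237) (.br (nat_lit 0) (.cons (.br (nat_lit 3) (.cons (.rel (nat_lit 272631936)) .nil)) .nil)) (.node (.node (.node .leaf (nat_lit 986253867563008) (.br (nat_lit 3) (.cons (.br (nat_lit 5) (.cons (.rel (nat_lit 8858632449)) .nil)) .nil)) .leaf) (nat_lit 986253867603968) (.br (nat_lit 1) (.cons (.br (nat_lit 0) (.cons (.rel (nat_lit 20978064)) (.cons (.rel (nat_lit 20971860))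 (.cons (.rel (nat_lit 20971860)) .nil)))) .nil)) .leaf) (nat_lit 986253867604023) (.br (nat_lit 4) (.cons (.br (nat_lit 0) (.cons (.rel (nat_lit 1078986384)) (.cons (.rel (nat_lit 1077944328)) (.cons (.rel (nat_lit 1077938244)) .nil)))) .nil)) (.node .leaf (nat_lit 986253867604154) (.br (nat_lit 1) (.cons (.br (nat_lit 0) (.cons (.rel (nat_lit 21004545)) (.cons (.rel (nat_lit 37752912)) (.cons (.rel (nat_lit 20993280)) .nil)))) .nil)) .leaf)))) (nat_lit 986253867604779) (.br (nat_lit 0) (.cons (.br (nat_lit 2) (.cons (.rel (nat_lit 76808208)) (.cons (.rel (nat_lit 75497568)) (.cons (.rel (nat_lit 75563016)) (.cons (.rel (nat_lit 71319816)) (.cons (.rel (nat_lit 72417408)) .nil)))))) .nil)) (.node (.node (.node (.node (.node .leaf (nat_lit 986253867605493) (.br (nat_lit 0) (.cons (.br (nat_lit 1) (.cons (.rel (nat_lit 25165842)) .nil)) .nil)) .leaf) (nat_lit 986288227130155) (.br (nat_lit 1) (.cons (.br (nat_lit 3) (.cons (.rel (nat_lit 285212805)) .nil)) .nil)) .leaf) (nat_lit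 986293499019271) (.br (nat_lit 0) (.cons (.br (nat_lit 1) (.cons (.rel (nat_lit 42206208)) .nil)) .nil)) (.node .leaf (nat_lit 986293499385863) (.br (nat_lit 0) (.cons (.br (nat_lit 1) (.cons (.rel (nat_lit 20993280)) .nil)) .nil)) .leaf)) (nat_lit 987800055831160) (.br (nat_lit 1) (.cons (.br (nat_lit 2) (.cons (.rel (nat_lit 84936720)) .nil)) .nil)) (.node (.node (.node .leaf (nat_lit 991625309862788) (.br (nat_lit 1) (.cons (.br (nat_lit 4) (.cons (.rel (nat_lit 1090585608)) .nil)) .nil)) .leaf) (nat_lit 991627819392412) (.br (nat_lit 0) (.cons (.br (nat_lit 1) (.cons (.rel (nat_lit 37752912)) .nil)) .nil)) .leaf) (nat_lit 991627819603968) (.br (nat_lit 0) (.cons (.br (nat_lit 1) (.cons (.rel (nat_lit 20971860)) .nil)) .nil)) (.node .leaf (nat_lit 991627819604154) (.br (nat_lit 0) (.cons (.br (nat_lit 1) (.cons (.rel (nat_lit 20971860)) .nil)) .nil)) .leaf))) (nat_lit 991627819604779) (.br (nat_lit 0) (.cons (.br (nat_lit 1) (.cons (.rel (nat_lit 20971860)) .nil)) .nil)) (.node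 (.node (.node (.node .leaf (nat_lit 991627846191290) (.br (nat_lit 0) (.cons (.br (nat_lit 1) (.cons (.rel (nat_lit 37748769)) .nil)) .nil)) .leaf) (nat_lit 991627846191904) (.br (nat_lit 0) (.cons (.br (nat_lit 1) (.cons (.rel (nat_lit 22282500)) .nil)) .nil)) .leaf) (nat_lit 991627848751915) (.br (nat_lit 0) (.cons (.br (nat_lit 1) (.cons (.rel (nat_lit 37752912)) .nil)) .nil)) (.node .leaf (nat_lit 991627848767674) (.br (nat_lit 0) (.cons (.br (nat_lit 1) (.cons (.rel (nat_lit 37752912)) .nil)) .nil)) .leaf)) (nat_lit 996433572880439) (.br (nat_lit 0) (.cons (.br (nat_lit 1) (.cons (.rel (nat_lit 21037344)) .nil)) .nil)) (.node (.node (.node .leaf (nat_lit 996433572880686) (.br (nat_lit 0) (.cons (.br (nat_lit 1) (.cons (.rel (nat_lit 21037344)) .nil)) .nil)) .leaf) (nat_lit 996435671723265) (.br (nat_lit 3) (.cons (.br (nat_lit 0) (.cons (.rel (nat_lit 545260608)) (.cons (.rel (nat_lit 272703504)) .nil))) .nil)) .leaf) (nat_lit 997060003485978) (.br (nat_lit 0) (.cons (.br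 (nat_lit 2) (.cons (.rel (nat_lit 75505665)) .nil)) .nil)) (.node .leaf (nat_lit 997060003486957) (.br (nat_lit 4) (.cons (.br (nat_lit 6) (.cons (.rel (nat_lit 35433496584)) .nil)) .nil)) .leaf))))) (nat_lit 997060003827898) (.br (nat_lit 0) (.cons (.br (nat_lit 4) (.cons (.rel (nat_lit 1077956640)) .nil)) .nil)) (.node (.node (.node (.node (.node (.node .leaf (nat_lit 997060004749312) (.br (nat_lit 0) (.cons (.br (nat_lit 3) (.cons (.rel (nat_lit 272633877)) (.cons (.rel (nat_lit 545260608)) .nil))) (.cons (.br (nat_lit 3) (.cons (.rel (nat_lit 272631936)) (.cons (.rel (nat_lit 272631936)) .nil))) .nil))) .leaf) (nat_lit 997060005107712) (.br (nat_lit 0) (.cons (.br (nat_lit 4) (.cons (.rel (nat_lit 2155876356)) .nil)) .nil)) .leaf) (nat_lit 997060005279744) (.br (nat_lit 3) (.cons (.br (nat_lit 4) (.cons (.rel (nat_lit 2684420352)) .nil)) .nil)) (.node .leaf (nat_lit 997060005320759) (.br (nat_lit 0) (.cons (.br (nat_lit 2) (.cons (.rel (nat_lit 71307540)) .nil)) .nil)) .leaf))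 (nat_lit 997060005320986) (.br (nat_lit 0) (.cons (.br (nat_lit 5) (.cons (.rel (nat_lit 4299161622)) .nil)) .nil)) (.node (.node (.node .leaf (nat_lit 997060005321965) (.br (nat_lit 0) (.cons (.br (nat_lit 2) (.cons (.rel (nat_lit 71369025)) .nil)) .nil)) .leaf) (nat_lit 997060785461530) (.br (nat_lit 0) (.cons (.br (nat_lit 1) (.cons (.rel (nat_lit 21037344)) .nil)) .nil)) .leaf) (nat_lit 998528881126901) (.br (nat_lit 0) (.cons (.br (nat_lit 1) (.cons (.rel (nat_lit 20993280)) .nil)) .nil)) (.node .leaf (nat_lit 998528881322744) (.br (nat_lit 1) (.cons (.br (nat_lit 3) (.cons (.rel (nat_lit 285218817)) .nil)) .nil)) .leaf))) (nat_lit 998528881323416) (.br (nat_lit 0) (.cons (.br (nat_lit 3) (.cons (.rel (nat_lit 272631936)) .nil)) .nil)) (.node (.node (.node (.node .leaf (nat_lit 998528881323520) (.br (nat_lit 5) (.cons (.br (nat_lit 1) (.cons (.rel (nat_lit 4311781377)) (.cons (.rel (nat_lit 4311810177)) .nil))) .nil)) .leaf) (nat_lit 998528882301114) (.br (nat_lit 0) (.cons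 (.br (nat_lit 1) (.cons (.rel (nat_lit 20971860)) .nil)) .nil)) .leaf) (nat_lit 998528882301560) (.br (nat_lit 1) (.cons (.br (nat_lit 2) (.cons (.rel (nat_lit 83886468)) .nil)) .nil)) (.node .leaf (nat_lit 998528882301839) (.br (nat_lit 0) (.cons (.br (nat_lit 1) (.cons (.rel (nat_lit 20971860)) .nil)) .nil)) .leaf)) (nat_lit 998528882342819) (.br (nat_lit 1) (.cons (.br (nat_lit 5) (.cons (.rel (nat_lit 4312039680)) .nil)) .nil)) (.node (.node (.node .leaf (nat_lit 998528882548073) (.br (nat_lit 0) (.cons (.br (nat_lit 1) (.cons (.rel (nat_lit 42206208)) .nil)) .nil)) .leaf) (nat_lit 998528882919424) (.br (nat_lit 0) (.cons (.br (nat_lit 4) (.cons (.rel (nat_lit 1077938244)) .nil)) .nil)) .leaf) (nat_lit 998528882919479) (.br (nat_lit 0) (.cons (.br (nat_lit 4) (.cons (.rel (nat_lit 1077938244)) .nil)) .nil)) (.node .leaf (nat_lit 998528882920725) (.br (nat_lit 1) (.cons (.br (nat_lit 0) (.cons (.rel (nat_lit 22093824)) (.cons (.rel (nat_lit 22024197)) .nil))) .nil)) .leaf))))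 (nat_lit 998528883922944) (.br (nat_lit 1) (.cons (.br (nat_lit 4) (.cons (.rel (nat_lit 2164277568)) .nil)) .nil)) (.node (.node (.node (.node (.node .leaf (nat_lit 998528883923755) (.br (nat_lit 5) (.cons (.br (nat_lit 1) (.cons (.rel (nat_lit 4311745560)) (.cons (.rel (nat_lit 4311745560)) .nil))) .nil)) .leaf) (nat_lit 998528883924205) (.br (nat_lit 3) (.cons (.br (nat_lit 4) (.cons (.rel (nat_lit 2684420352)) .nil)) .nil)) .leaf) (nat_lit 998528883939383) (.br (nat_lit 0) (.cons (.br (nat_lit 2) (.cons (.rel (nat_lit 71827524)) .nil)) .nil)) (.node .leaf (nat_lit 998528883939514) (.br (nat_lit 1) (.cons (.br (nat_lit 0) (.cons (.rel (nat_lit 22282500)) (.cons (.rel (nat_lit 21004545)) .nil))) .nil)) .leaf)) (nat_lit 998528883940128) (.br (nat_lit 0) (.cons (.br (nat_lit 1) (.cons (.rel (nat_lit 20971860)) .nil)) .nil)) (.node (.node (.node .leaf (nat_lit 998528883940853) (.br (nat_lit 0) (.cons (.br (nat_lit 1) (.cons (.rel (nat_lit 20993280)) (.cons (.rel (nat_lit 22024197))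 .nil))) .nil)) .leaf) (nat_lit 998528884095608) (.br (nat_lit 0) (.cons (.br (nat_lit 5) (.cons (.rel (nat_lit 4299424068)) .nil)) .nil)) .leaf) (nat_lit 998528884095628) (.br (nat_lit 0) (.cons (.br (nat_lit 1) (.cons (.rel (nat_lit 21004545)) .nil)) .nil)) (.node .leaf (nat_lit 998528884096512) (.br (nat_lit 5) (.cons (.br (nat_lit 6) (.cons (.rel (nat_lit 25769808900)) .nil)) .nil)) .leaf))) (nat_lit 998528884123825) (.br (nat_lit 0) (.cons (.br (nat_lit 1) (.cons (.rel (nat_lit 20971860)) .nil)) .nil)) (.node (.node (.node (.node .leaf (nat_lit 998528884135936) (.br (nat_lit 0) (.cons (.br (nat_lit 5) (.cons (.rel (nat_lit 4299163680)) (.cons (.rel (nat_lit 4299162633)) (.cons (.rel (nat_lit 8598324240)) .nil)))) (.cons (.br (nat_lit 1) (.cons (.rel (nat_lit 41948673)) (.cons (.rel (nat_lit 20993280)) .nil))) .nil))) .leaf) (nat_lit 998528884135991) (.br (nat_lit 1) (.cons (.br (nat_lit 0) (.cons (.rel (nat_lit 25165842)) (.cons (.rel (nat_lit 20978064)) .nil))) .nil)) .leaf)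 (nat_lit 998528884136122) (.br (nat_lit 6) (.cons (.br (nat_lit 0) (.cons (.rel (nat_lit 17184069633)) (.cons (.rel (nat_lit 17184130116)) .nil))) .nil)) (.node .leaf (nat_lit 998528884136568) (.br (nat_lit 1) (.cons (.br (nat_lit 6) (.cons (.rel (nat_lit 17196667968)) (.cons (.rel (nat_lit 34377568320)) .nil))) .nil)) .leaf)) (nat_lit 998528884136747) (.br (nat_lit 2) (.cons (.br (nat_lit 1) (.cons (.rel (nat_lit 83886468)) (.cons (.rel (nat_lit 83886468)) .nil))) .nil)) (.node (.node (.node .leaf (nat_lit 998528884137368) (.br (nat_lit 1) (.cons (.br (nat_lit 3) (.cons (.rel (nat_lit 285230082)) .nil)) .nil)) .leaf) (nat_lit 998528884137461) (.br (nat_lit 1) (.cons (.br (nat_lit 2) (.cons (.rel (nat_lit 83903745)) .nil)) .nil)) .leaf) (nat_lit 998528884177583) (.br (nat_lit 2) (.cons (.br (nat_lit 5) (.cons (.rel (nat_lit 4362108960)) .nil)) .nil)) (.node .leaf (nat_lit 998562823880704) (.br (nat_lit 0) (.cons (.br (nat_lit 1) (.cons (.rel (nat_lit 22093824)) .nil)) .nil))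 .leaf))))))

/-- refutations 8 -/
def e8 : EX := (.node (.node (.node (.node (.node .leaf (nat_lit 1056656970957086) (.br (nat_lit 0) (.cons (.br (nat_lit 4) (.cons (.rel (nat_lit 2155876356)) .nil)) .nil)) .leaf) (nat_lit 1056656971307183) (.br (nat_lit 0) (.cons (.br (nat_lit 1) (.cons (.rel (nat_lit 22093824)) .nil)) .nil)) (.node .leaf (nat_lit 1056656971307294) (.br (nat_lit 0) (.cons (.br (nat_lit 1) (.cons (.rel (nat_lit 20971860)) .nil)) .nil)) .leaf)) (nat_lit 1056691331046801) (.br (nat_lit 0) (.cons (.br (nat_lit 1) (.cons (.rel (nat_lit 21497856)) .nil)) .nil)) (.node (.node .leaf (nat_lit 1056691331053743) (.br (nat_lit 0) (.cons (.br (nat_lit 1) (.cons (.rel (nat_lit 21004545)) (.cons (.rel (nat_lit 20971860)) .nil))) .nil)) .leaf) (nat_lit 1056691331266735) (.br (nat_lit 1) (.cons (.br (nat_lit 3) (.cons (.rel (nat_lit 285216804)) .nil)) .nil)) .leaf)) (nat_lit 1056697308078255) (.br (nat_lit 2) (.cons (.br (nat_lit 3) (.cons (.rel (nat_lit 671089680)) .nil)) .nil))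 (.node (.node (.node .leaf (nat_lit 1068862848932015) (.br (nat_lit 5) (.cons (.br (nat_lit 0) (.cons (.rel (nat_lit 4303888641)) (.cons (.rel (nat_lit 8594137344)) .nil))) .nil)) .leaf) (nat_lit 1068862848933265) (.br (nat_lit 2) (.cons (.br (nat_lit 3) (.cons (.rel (nat_lit 335577216)) .nil)) .nil)) (.node .leaf (nat_lit 1068862849081519) (.br (nat_lit 4) (.cons (.br (nat_lit 2) (.cons (.rel (nat_lit 2281766913)) (.cons (.rel (nat_lit 1140883524)) .nil))) .nil)) .leaf)) (nat_lit 1068931985020385) (.br (nat_lit 0) (.cons (.br (nat_lit 2) (.cons (.rel (nat_lit 72351780)) .nil)) .nil)) (.node (.node .leaf (nat_lit 1068931986217135) (.br (nat_lit 0) (.cons (.br (nat_lit 1) (.cons (.rel (nat_lit 37748769)) .nil)) .nil)) .leaf) (nat_lit 1068931986217592) (.br (nat_lit 1) (.cons (.br (nat_lit 6) (.cons (.rel (nat_lit 17196667968)) .nil)) .nil)) .leaf))) (nat_lit 1068931986218472) (.br (nat_lit 0) (.cons (.br (nat_lit 1) (.cons (.rel (nat_lit 25165842)) .nil)) .nil)) (.node (.node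 (.node (.node .leaf (nat_lit 1068931986218485) (.br (nat_lit 6) (.cons (.br (nat_lit 0) (.cons (.rel (nat_lit 17184104448)) (.cons (.rel (nat_lit 17184067620)) .nil))) .nil)) .leaf) (nat_lit 1068931986273692) (.br (nat_lit 2) (.cons (.br (nat_lit 3) (.cons (.rel (nat_lit 335577216)) .nil)) .nil)) (.node .leaf (nat_lit 1068931986812928) (.br (nat_lit 1) (.cons (.br (nat_lit 0) (.cons (.rel (nat_lit 20993280)) (.cons (.rel (nat_lit 42206208)) .nil))) .nil)) .leaf)) (nat_lit 1068931987480576) (.br (nat_lit 1) (.cons (.br (nat_lit 0) (.cons (.rel (nat_lit 20993280)) (.cons (.rel (nat_lit 21521409)) .nil))) .nil)) (.node (.node .leaf (nat_lit 1068931987784480) (.br (nat_lit 2) (.cons (.br (nat_lit 3) (.cons (.rel (nat_lit 335545353)) .nil)) .nil)) .leaf) (nat_lit 1068931987785205) (.br (nat_lit 3) (.cons (.br (nat_lit 0) (.cons (.rel (nat_lit 272631936)) (.cons (.rel (nat_lit 272638020)) .nil))) .nil)) .leaf)) (nat_lit 1068931987839151) (.br (nat_lit 1) (.cons (.br (nat_lit 3) (.cons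 (.rel (nat_lit 285216804)) .nil)) .nil)) (.node (.node (.node .leaf (nat_lit 1068931987839262) (.br (nat_lit 0) (.cons (.br (nat_lit 5) (.cons (.rel (nat_lit 4299162633)) .nil)) .nil)) .leaf) (nat_lit 1068931987989360) (.br (nat_lit 0) (.cons (.br (nat_lit 1) (.cons (.rel (nat_lit 20978064)) .nil)) .nil)) (.node .leaf (nat_lit 1068931988060335) (.br (nat_lit 3) (.cons (.br (nat_lit 0) (.cons (.rel (nat_lit 272631936)) (.cons (.rel (nat_lit 545260608)) (.cons (.rel (nat_lit 272631936)) .nil)))) .nil)) .leaf)) (nat_lit 1068931988060410) (.br (nat_lit 0) (.cons (.br (nat_lit 1) (.cons (.rel (nat_lit 20971860)) .nil)) .nil)) (.node (.node .leaf (nat_lit 1068931988061685) (.br (nat_lit 0) (.cons (.br (nat_lit 6) (.cons (.rel (nat_lit 17184130116)) .nil)) .nil)) .leaf) (nat_lit 1068937964943535) (.br (nat_lit 0) (.cons (.br (nat_lit 3) (.cons (.rel (nat_lit 277104642)) .nil)) .nil)) .leaf))))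

/-- refutations 9 -/
def e9 : EX := (.node (.node (.node (.node (.node .leaf (nat_lit 2292373248330640) (.br (nat_lit 0) (.cons (.br (nat_lit 1) (.cons (.rel (nat_lit 21037344)) .nil)) .nil)) .leaf) (nat_lit 2300093166831626) (.br (nat_lit 0) (.cons (.br (nat_lit 2) (.cons (.rel (nat_lit 71319816)) .nil)) .nil)) (.node .leaf (nat_lit 2305092025548800) (.br (nat_lit 0) (.cons (.br (nat_lit 1) (.cons (.rel (nat_lit 42206208)) .nil)) .nil)) .leaf)) (nat_lit 2306990668049920) (.br (nat_lit 1) (.cons (.br (nat_lit 6) (.cons (.rel (nat_lit 17196652560)) .nil)) .nil)) (.node (.node .leaf (nat_lit 2322684478486705) (.br (nat_lit 0) (.cons (.br (nat_lit 1) (.cons (.rel (nat_lit 20971860)) .nil)) .nil)) .leaf) (nat_lit 2322684478587057) (.br (nat_lit 0) (.cons (.br (nat_lit 6) (.cons (.rel (nat_lit 17184063621)) .nil)) .nil)) (.node .leaf (nat_lit 2323259738503168) (.br (nat_lit 0) (.cons (.br (nat_lit 1) (.cons (.rel (nat_lit 20993280)) .nil)) .nil)) .leaf))) (nat_lit 2332966629986431)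 (.br (nat_lit 2) (.cons (.br (nat_lit 3) (.cons (.rel (nat_lit 605094912)) .nil)) .nil)) (.node (.node (.node .leaf (nat_lit 2332966630199948) (.br (nat_lit 1) (.cons (.br (nat_lit 4) (.cons (.rel (nat_lit 1090553856)) .nil)) .nil)) .leaf) (nat_lit 2332966631852664) (.br (nat_lit 0) (.cons (.br (nat_lit 1) (.cons (.rel (nat_lit 20973921)) .nil)) .nil)) (.node .leaf (nat_lit 2332966631852812) (.br (nat_lit 0) (.cons (.br (nat_lit 1) (.cons (.rel (nat_lit 42206208)) .nil)) .nil)) .leaf)) (nat_lit 2332966632497152) (.br (nat_lit 0) (.cons (.br (nat_lit 5) (.cons (.rel (nat_lit 4303360512)) .nil)) .nil)) (.node (.node .leaf (nat_lit 2332966632609943) (.br (nat_lit 5) (.cons (.br (nat_lit 6) (.cons (.rel (nat_lit 21475889412)) .nil)) .nil)) .leaf) (nat_lit 2332966632610424) (.br (nat_lit 1) (.cons (.br (nat_lit 2) (.cons (.rel (nat_lit 83892480)) (.cons (.rel (nat_lit 83903745)) .nil))) .nil)) .leaf))) (nat_lit 2332966632610703) (.br (nat_lit 1) (.cons (.br (nat_lit 5) (.cons (.rel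 (nat_lit 8606778624)) .nil)) .nil)) (.node (.node (.node (.node .leaf (nat_lit 2332966632611297) (.br (nat_lit 0) (.cons (.br (nat_lit 1) (.cons (.rel (nat_lit 25165842)) .nil)) .nil)) .leaf) (nat_lit 2332966633005231) (.br (nat_lit 1) (.cons (.br (nat_lit 6) (.cons (.rel (nat_lit 17196777480)) .nil)) .nil)) (.node .leaf (nat_lit 2332966633027584) (.br (nat_lit 0) (.cons (.br (nat_lit 2) (.cons (.rel (nat_lit 71307540)) (.cons (.rel (nat_lit 71369025)) .nil))) (.cons (.br (nat_lit 2) (.cons (.rel (nat_lit 142889025)) (.cons (.rel (nat_lit 71307540)) .nil))) .nil))) .leaf)) (nat_lit 2332966633028216) (.br (nat_lit 4) (.cons (.br (nat_lit 5) (.cons (.rel (nat_lit 9663676500)) .nil)) .nil)) (.node (.node .leaf (nat_lit 2332966633068544) (.br (nat_lit 0) (.cons (.br (nat_lit 1) (.cons (.rel (nat_lit 25428288)) (.cons (.rel (nat_lit 22093824)) .nil))) .nil)) .leaf) (nat_lit 2332968734415628) (.br (nat_lit 0) (.cons (.br (nat_lit 2) (.cons (.rel (nat_lit 71894022)) .nil)) .nil)) (.node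 .leaf (nat_lit 2334066142894366) (.br (nat_lit 0) (.cons (.br (nat_lit 1) (.cons (.rel (nat_lit 22037520)) .nil)) .nil)) .leaf))) (nat_lit 2334066142894732) (.br (nat_lit 1) (.cons (.br (nat_lit 6) (.cons (.rel (nat_lit 34393358340)) (.cons (.rel (nat_lit 17213948160)) .nil))) .nil)) (.node (.node (.node .leaf (nat_lit 2334066143480588) (.br (nat_lit 0) (.cons (.br (nat_lit 4) (.cons (.rel (nat_lit 1077944328)) .nil)) .nil)) .leaf) (nat_lit 2334066144124928) (.br (nat_lit 4) (.cons (.br (nat_lit 0) (.cons (.rel (nat_lit 1077937233)) (.cons (.rel (nat_lit 1077941376)) .nil))) .nil)) (.node .leaf (nat_lit 2334066144237719) (.br (nat_lit 0) (.cons (.br (nat_lit 2) (.cons (.rel (nat_lit 71827524)) .nil)) .nil)) .leaf)) (nat_lit 2334066144238200) (.br (nat_lit 1) (.cons (.br (nat_lit 2) (.cons (.rel (nat_lit 83903745)) .nil)) .nil)) (.node (.node .leaf (nat_lit 2334066144428032) (.br (nat_lit 0) (.cons (.br (nat_lit 5) (.cons (.rel (nat_lit 4299161622)) .nil)) .nil)) .leaf) (nat_lit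 2334066144655360) (.br (nat_lit 0) (.cons (.br (nat_lit 1) (.cons (.rel (nat_lit 20993280)) (.cons (.rel (nat_lit 22037520)) .nil))) .nil)) .leaf))))

/-- refutations 10 -/
def e10 : EX := (.node (.node (.node (.node (.node (.node (.node .leaf (nat_lit 2674108075025645) (.br (nat_lit 0) (.cons (.br (nat_lit 2) (.cons (.rel (nat_lit 71827524)) .nil)) .nil)) .leaf) (nat_lit 2674499340674399) (.br (nat_lit 1) (.cons (.br (nat_lit 3) (.cons (.rel (nat_lit 285216804)) .nil)) .nil)) (.node .leaf (nat_lit 2675103726074007) (.br (nat_lit 0) (.cons (.br (nat_lit 3) (.cons (.rel (nat_lit 272631936)) .nil)) .nil)) .leaf)) (nat_lit 2675103726271371) (.br (nat_lit 1) (.cons (.br (nat_lit 6) (.cons (.rel (nat_lit 17196777480)) .nil)) .nil)) (.node (.node .leaf (nat_lit 2675103726596378) (.br (nat_lit 4) (.cons (.br (nat_lit 6) (.cons (.rel (nat_lit 18253627905)) .nil)) .nil)) .leaf) (nat_lit 2675103726596907) (.br (nat_lit 1) (.cons (.br (nat_lit 3) (.cons (.rel (nat_lit 285253632)) (.cons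 (.rel (nat_lit 285253632)) .nil))) .nil)) .leaf)) (nat_lit 2675103726651543) (.br (nat_lit 0) (.cons (.br (nat_lit 3) (.cons (.rel (nat_lit 545260608)) .nil)) .nil)) (.node (.node (.node .leaf (nat_lit 2675103726652172) (.br (nat_lit 0) (.cons (.br (nat_lit 4) (.cons (.rel (nat_lit 1077938244)) .nil)) .nil)) .leaf) (nat_lit 2675103727296512) (.br (nat_lit 1) (.cons (.br (nat_lit 3) (.cons (.rel (nat_lit 285230082)) (.cons (.rel (nat_lit 285212805)) (.cons (.rel (nat_lit 285229080)) (.cons (.rel (nat_lit 285216804)) .nil))))) .nil)) .leaf) (nat_lit 2675103727296698) (.br (nat_lit 0) (.cons (.br (nat_lit 1) (.cons (.rel (nat_lit 21497856)) .nil)) .nil)) (.node (.node .leaf (nat_lit 2675103727297144) (.br (nat_lit 6) (.cons (.br (nat_lit 0) (.cons (.rel (nat_lit 17188524048)) (.cons (.rel (nat_lit 34368147456)) .nil))) .nil)) .leaf) (nat_lit 2675103727297424) (.br (nat_lit 0) (.cons (.br (nat_lit 1) (.cons (.rel (nat_lit 22093824)) .nil)) .nil)) .leaf))) (nat_lit 2675103727297773)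 (.br (nat_lit 2) (.cons (.br (nat_lit 6) (.cons (.rel (nat_lit 17246979096)) (.cons (.rel (nat_lit 17246979096)) .nil))) .nil)) (.node (.node (.node (.node .leaf (nat_lit 2675103727297948) (.br (nat_lit 1) (.cons (.br (nat_lit 4) (.cons (.rel (nat_lit 1090539522)) (.cons (.rel (nat_lit 1091830800)) .nil))) (.cons (.br (nat_lit 3) (.cons (.rel (nat_lit 554172480)) (.cons (.rel (nat_lit 553652496)) .nil))) .nil))) .leaf) (nat_lit 2675103727409187) (.br (nat_lit 0) (.cons (.br (nat_lit 2) (.cons (.rel (nat_lit 71827524)) .nil)) .nil)) .leaf) (nat_lit 2675103727409434) (.br (nat_lit 3) (.cons (.br (nat_lit 5) (.cons (.rel (nat_lit 4563796992)) (.cons (.rel (nat_lit 4563681288)) .nil))) (.cons (.br (nat_lit 5) (.cons (.rel (nat_lit 8858632449)) (.cons (.rel (nat_lit 4565499909)) .nil))) .nil))) (.node (.node .leaf (nat_lit 2675103727599767) (.br (nat_lit 0) (.cons (.br (nat_lit 3) (.cons (.rel (nat_lit 272631936)) .nil)) .nil)) .leaf) (nat_lit 2675103727654912) (.br (nat_lit 1) (.cons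 (.br (nat_lit 6) (.cons (.rel (nat_lit 17196777480)) (.cons (.rel (nat_lit 17196777480)) .nil))) .nil)) .leaf)) (nat_lit 2675103727671296) (.br (nat_lit 1) (.cons (.br (nat_lit 4) (.cons (.rel (nat_lit 1090520160)) (.cons (.rel (nat_lit 1090553856)) .nil))) .nil)) (.node (.node (.node .leaf (nat_lit 2675103727671351) (.br (nat_lit 0) (.cons (.br (nat_lit 4) (.cons (.rel (nat_lit 1077968916)) .nil)) .nil)) .leaf) (nat_lit 2675103727671482) (.br (nat_lit 0) (.cons (.br (nat_lit 1) (.cons (.rel (nat_lit 37748769)) .nil)) .nil)) .leaf) (nat_lit 2675103727672557) (.br (nat_lit 2) (.cons (.br (nat_lit 1) (.cons (.rel (nat_lit 83886468)) (.cons (.rel (nat_lit 84936720)) .nil))) .nil)) (.node (.node .leaf (nat_lit 2675103727859894) (.br (nat_lit 0) (.cons (.br (nat_lit 1) (.cons (.rel (nat_lit 37752912)) (.cons (.rel (nat_lit 20971860)) .nil))) (.cons (.br (nat_lit 1) (.cons (.rel (nat_lit 21497856)) (.cons (.rel (nat_lit 20978064)) .nil))) .nil))) .leaf) (nat_lit 2675103727860973) (.br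 (nat_lit 0) (.cons (.br (nat_lit 1) (.cons (.rel (nat_lit 22093824)) .nil)) .nil)) .leaf)))) (nat_lit 2675103727861148) (.br (nat_lit 0) (.cons (.br (nat_lit 1) (.cons (.rel (nat_lit 21497856)) .nil)) .nil)) (.node (.node (.node (.node (.node .leaf (nat_lit 2675103727867904) (.br (nat_lit 1) (.cons (.br (nat_lit 0) (.cons (.rel (nat_lit 20971860)) (.cons (.rel (nat_lit 20993280)) .nil))) .nil)) .leaf) (nat_lit 2675103727876278) (.br (nat_lit 1) (.cons (.br (nat_lit 4) (.cons (.rel (nat_lit 2181055488)) .nil)) .nil)) .leaf) (nat_lit 2675103727908864) (.br (nat_lit 3) (.cons (.br (nat_lit 5) (.cons (.rel (nat_lit 4831846401)) .nil)) .nil)) (.node (.node .leaf (nat_lit 2675103727908899) (.br (nat_lit 1) (.cons (.br (nat_lit 4) (.cons (.rel (nat_lit 1090528257)) .nil)) .nil)) .leaf) (nat_lit 2675103727909015) (.br (nat_lit 5) (.cons (.br (nat_lit 0) (.cons (.rel (nat_lit 8594137344)) (.cons (.rel (nat_lit 4299161622)) .nil))) .nil)) .leaf)) (nat_lit 2675103727909046) (.br (nat_lit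 4) (.cons (.br (nat_lit 6) (.cons (.rel (nat_lit 35433612288)) (.cons (.rel (nat_lit 18254004288)) .nil))) .nil)) (.node (.node (.node .leaf (nat_lit 2675103727909496) (.br (nat_lit 0) (.cons (.br (nat_lit 3) (.cons (.rel (nat_lit 545260608)) .nil)) .nil)) .leaf) (nat_lit 2675103727909644) (.br (nat_lit 5) (.cons (.br (nat_lit 0) (.cons (.rel (nat_lit 4299232260)) (.cons (.rel (nat_lit 4299162633)) .nil))) .nil)) .leaf) (nat_lit 2675104506229018) (.br (nat_lit 0) (.cons (.br (nat_lit 2) (.cons (.rel (nat_lit 71369025)) .nil)) .nil)) (.node (.node .leaf (nat_lit 2675104506524280) (.br (nat_lit 0) (.cons (.br (nat_lit 1) (.cons (.rel (nat_lit 20993280)) .nil)) .nil)) .leaf) (nat_lit 2675104507437056) (.br (nat_lit 1) (.cons (.br (nat_lit 0) (.cons (.rel (nat_lit 37748769)) (.cons (.rel (nat_lit 20971860)) .nil))) .nil)) .leaf))) (nat_lit 2675104507795456) (.br (nat_lit 2) (.cons (.br (nat_lit 4) (.cons (.rel (nat_lit 1140854793)) .nil)) .nil)) (.node (.node (.node (.node .leaf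 (nat_lit 2675104507811840) (.br (nat_lit 0) (.cons (.br (nat_lit 6) (.cons (.rel (nat_lit 17188524048)) .nil)) .nil)) .leaf) (nat_lit 2675104507812122) (.br (nat_lit 0) (.cons (.br (nat_lit 1) (.cons (.rel (nat_lit 37748769)) .nil)) .nil)) .leaf) (nat_lit 2675104508008448) (.br (nat_lit 0) (.cons (.br (nat_lit 1) (.cons (.rel (nat_lit 25428288)) .nil)) .nil)) (.node (.node .leaf (nat_lit 2675104508016826) (.br (nat_lit 1) (.cons (.br (nat_lit 2) (.cons (.rel (nat_lit 101974017)) .nil)) .nil)) .leaf) (nat_lit 2675106080301056) (.br (nat_lit 1) (.cons (.br (nat_lit 2) (.cons (.rel (nat_lit 83886468)) .nil)) .nil)) .leaf)) (nat_lit 2684982149638426) (.br (nat_lit 0) (.cons (.br (nat_lit 5) (.cons (.rel (nat_lit 8598324240)) .nil)) .nil)) (.node (.node (.node .leaf (nat_lit 2684982149638796) (.br (nat_lit 2) (.cons (.br (nat_lit 0) (.cons (.rel (nat_lit 72388608)) (.cons (.rel (nat_lit 72351780)) .nil))) .nil)) .leaf) (nat_lit 2684982149780108) (.br (nat_lit 0) (.cons (.br (nat_lit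 3) (.cons (.rel (nat_lit 272892180)) .nil)) .nil)) .leaf) (nat_lit 2684982149835512) (.br (nat_lit 0) (.cons (.br (nat_lit 1) (.cons (.rel (nat_lit 20993280)) .nil)) .nil)) (.node (.node .leaf (nat_lit 2684982149836013) (.br (nat_lit 1) (.cons (.br (nat_lit 4) (.cons (.rel (nat_lit 2181055488)) .nil)) .nil)) .leaf) (nat_lit 2684982151051319) (.br (nat_lit 0) (.cons (.br (nat_lit 1) (.cons (.rel (nat_lit 20993280)) .nil)) .nil)) .leaf))))) (nat_lit 2684982152077594) (.br (nat_lit 0) (.cons (.br (nat_lit 5) (.cons (.rel (nat_lit 4299161622)) (.cons (.rel (nat_lit 4299194496)) .nil))) (.cons (.br (nat_lit 5) (.cons (.rel (nat_lit 4299163680)) (.cons (.rel (nat_lit 4299165765)) .nil))) .nil))) (.node (.node (.node (.node (.node (.node .leaf (nat_lit 2684982152077944) (.br (nat_lit 0) (.cons (.br (nat_lit 1) (.cons (.rel (nat_lit 20993280)) (.cons (.rel (nat_lit 20971860)) .nil))) .nil)) .leaf) (nat_lit 2684982152078573) (.br (nat_lit 1) (.cons (.br (nat_lit 2) (.cons (.rel (nat_lit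 83892480)) .nil)) .nil)) .leaf) (nat_lit 2684982152078744) (.br (nat_lit 0) (.cons (.br (nat_lit 4) (.cons (.rel (nat_lit 1077944328)) (.cons (.rel (nat_lit 1077944328)) .nil))) .nil)) (.node (.node .leaf (nat_lit 2684982152149679) (.br (nat_lit 0) (.cons (.br (nat_lit 2) (.cons (.rel (nat_lit 71369025)) .nil)) .nil)) .leaf) (nat_lit 2684982152149803) (.br (nat_lit 0) (.cons (.br (nat_lit 3) (.cons (.rel (nat_lit 272631936)) .nil)) .nil)) .leaf)) (nat_lit 2684982152435894) (.br (nat_lit 1) (.cons (.br (nat_lit 3) (.cons (.rel (nat_lit 285282432)) .nil)) .nil)) (.node (.node (.node .leaf (nat_lit 2684982152444086) (.br (nat_lit 2) (.cons (.br (nat_lit 4) (.cons (.rel (nat_lit 1140924420)) .nil)) .nil)) .leaf) (nat_lit 2684982152444186) (.br (nat_lit 0) (.cons (.br (nat_lit 4) (.cons (.rel (nat_lit 1077944328)) .nil)) .nil)) .leaf) (nat_lit 2684982152444591) (.br (nat_lit 0) (.cons (.br (nat_lit 2) (.cons (.rel (nat_lit 71340417)) .nil)) .nil)) (.node (.node .leaf (nat_lit 2684982152445340)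 (.br (nat_lit 0) (.cons (.br (nat_lit 3) (.cons (.rel (nat_lit 272631936)) .nil)) .nil)) .leaf) (nat_lit 2684982152648704) (.br (nat_lit 6) (.cons (.br (nat_lit 2) (.cons (.rel (nat_lit 17246982228)) (.cons (.rel (nat_lit 34427904000)) (.cons (.rel (nat_lit 34493957121)) (.cons (.rel (nat_lit 17247110208)) (.cons (.rel (nat_lit 17247110208)) .nil)))))) .nil)) .leaf))) (nat_lit 2684982152648886) (.br (nat_lit 4) (.cons (.br (nat_lit 6) (.cons (.rel (nat_lit 18253627905)) .nil)) .nil)) (.node (.node (.node (.node .leaf (nat_lit 2684982152649965) (.br (nat_lit 0) (.cons (.br (nat_lit 6) (.cons (.rel (nat_lit 17184327936)) .nil)) .nil)) .leaf) (nat_lit 2684982152657071) (.br (nat_lit 1) (.cons (.br (nat_lit 3) (.cons (.rel (nat_lit 285282432)) .nil)) .nil)) .leaf) (nat_lit 2684982152657548) (.br (nat_lit 0) (.cons (.br (nat_lit 2) (.cons (.rel (nat_lit 139722816)) .nil)) .nil)) (.node (.node .leaf (nat_lit 2684982152689846) (.br (nat_lit 1) (.cons (.br (nat_lit 3) (.cons (.rel (nat_lit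 285212805)) .nil)) .nil)) .leaf) (nat_lit 2684982929779468) (.br (nat_lit 4) (.cons (.br (nat_lit 1) (.cons (.rel (nat_lit 1090535568)) (.cons (.rel (nat_lit 1090553856)) .nil))) .nil)) .leaf)) (nat_lit 2684982929780120) (.br (nat_lit 1) (.cons (.br (nat_lit 4) (.cons (.rel (nat_lit 1090539522)) (.cons (.rel (nat_lit 2181055488)) .nil))) .nil)) (.node (.node (.node .leaf (nat_lit 2684982929780193) (.br (nat_lit 0) (.cons (.br (nat_lit 1) (.cons (.rel (nat_lit 22037520)) (.cons (.rel (nat_lit 21004545)) .nil))) .nil)) .leaf) (nat_lit 2684982930238701) (.br (nat_lit 0) (.cons (.br (nat_lit 1) (.cons (.rel (nat_lit 20971860)) .nil)) .nil)) .leaf) (nat_lit 2684982931191808) (.br (nat_lit 0) (.cons (.br (nat_lit 4) (.cons (.rel (nat_lit 1077956640)) .nil)) .nil)) (.node (.node .leaf (nat_lit 2684982931305080) (.br (nat_lit 0) (.cons (.br (nat_lit 1) (.cons (.rel (nat_lit 20971860)) .nil)) .nil)) .leaf) (nat_lit 2684982931551713) (.br (nat_lit 0) (.cons (.br (nat_lit 4) (.cons (.rel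 (nat_lit 1077937233)) .nil)) .nil)) .leaf)))) (nat_lit 2684982932218138) (.br (nat_lit 5) (.cons (.br (nat_lit 0) (.cons (.rel (nat_lit 8598324240)) (.cons (.rel (nat_lit 8594653185)) .nil))) .nil)) (.node (.node (.node (.node (.node .leaf (nat_lit 2684982932218663) (.br (nat_lit 0) (.cons (.br (nat_lit 1) (.cons (.rel (nat_lit 25169985)) .nil)) .nil)) .leaf) (nat_lit 2684982932219117) (.br (nat_lit 0) (.cons (.br (nat_lit 2) (.cons (.rel (nat_lit 71307540)) .nil)) .nil)) .leaf) (nat_lit 2684982932522261) (.br (nat_lit 0) (.cons (.br (nat_lit 1) (.cons (.rel (nat_lit 22052928)) .nil)) .nil)) (.node (.node .leaf (nat_lit 2684982932584634) (.br (nat_lit 0) (.cons (.br (nat_lit 1) (.cons (.rel (nat_lit 37752912)) .nil)) .nil)) .leaf) (nat_lit 2684982932584730) (.br (nat_lit 0) (.cons (.br (nat_lit 4) (.cons (.rel (nat_lit 1077937233)) .nil)) .nil)) .leaf)) (nat_lit 2684982932585884) (.br (nat_lit 0) (.cons (.br (nat_lit 2) (.cons (.rel (nat_lit 75531264)) .nil)) .nil)) (.node (.node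 (.node .leaf (nat_lit 2684982932781056) (.br (nat_lit 0) (.cons (.br (nat_lit 2) (.cons (.rel (nat_lit 75497568)) (.cons (.rel (nat_lit 75497568)) .nil))) .nil)) .leaf) (nat_lit 2684982932789303) (.br (nat_lit 0) (.cons (.br (nat_lit 2) (.cons (.rel (nat_lit 75497568)) .nil)) .nil)) .leaf) (nat_lit 2684982932789530) (.br (nat_lit 0) (.cons (.br (nat_lit 5) (.cons (.rel (nat_lit 8594137344)) .nil)) .nil)) (.node (.node .leaf (nat_lit 2684982932790773) (.br (nat_lit 0) (.cons (.br (nat_lit 1) (.cons (.rel (nat_lit 42206208)) .nil)) .nil)) .leaf) (nat_lit 2684982932830208) (.br (nat_lit 1) (.cons (.br (nat_lit 5) (.cons (.rel (nat_lit 4311746562)) .nil)) .nil)) .leaf))) (nat_lit 2684982932830840) (.br (nat_lit 2) (.cons (.br (nat_lit 4) (.cons (.rel (nat_lit 1140854793)) .nil)) .nil)) (.node (.node (.node (.node .leaf (nat_lit 2684985423634714) (.br (nat_lit 0) (.cons (.br (nat_lit 5) (.cons (.rel (nat_lit 4299163680)) .nil)) .nil)) .leaf) (nat_lit 2685286069102592) (.br (nat_lit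 0) (.cons (.br (nat_lit 4) (.cons (.rel (nat_lit 1077952641)) .nil)) .nil)) .leaf) (nat_lit 2685286071346413) (.br (nat_lit 0) (.cons (.br (nat_lit 4) (.cons (.rel (nat_lit 1077956640)) .nil)) .nil)) (.node (.node .leaf (nat_lit 2687378743828480) (.br (nat_lit 0) (.cons (.br (nat_lit 5) (.cons (.rel (nat_lit 4299161622)) .nil)) .nil)) .leaf) (nat_lit 2687379523969024) (.br (nat_lit 0) (.cons (.br (nat_lit 6) (.cons (.rel (nat_lit 17184079896)) (.cons (.rel (nat_lit 17184067620)) .nil))) .nil)) .leaf)) (nat_lit 2687379523969824) (.br (nat_lit 0) (.cons (.br (nat_lit 2) (.cons (.rel (nat_lit 72388608)) .nil)) .nil)) (.node (.node (.node .leaf (nat_lit 2687379523969831) (.br (nat_lit 0) (.cons (.br (nat_lit 1) (.cons (.rel (nat_lit 37752912)) .nil)) .nil)) .leaf) (nat_lit 2687379523970285) (.br (nat_lit 2) (.cons (.br (nat_lit 4) (.cons (.rel (nat_lit 1140855840)) .nil)) .nil)) .leaf) (nat_lit 2687379524272760) (.br (nat_lit 1) (.cons (.br (nat_lit 4) (.cons (.rel (nat_lit 1090539522))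 .nil)) .nil)) (.node (.node .leaf (nat_lit 2687412684494848) (.br (nat_lit 1) (.cons (.br (nat_lit 3) (.cons (.rel (nat_lit 285212805)) .nil)) .nil)) .leaf) (nat_lit 2687412684495023) (.br (nat_lit 0) (.cons (.br (nat_lit 1) (.cons (.rel (nat_lit 25169985)) .nil)) .nil)) .leaf))))))

/-- refutations 11 -/
def e11 : EX := (.node (.node .leaf (nat_lit 3079127955768576) (.br (nat_lit 1) (.cons (.br (nat_lit 3) (.cons (.rel (nat_lit 285212805)) .nil)) .nil)) .leaf) (nat_lit 3091732428740913) (.br (nat_lit 1) (.cons (.br (nat_lit 3) (.cons (.rel (nat_lit 285344784)) .nil)) .nil)) .leaf)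

/-- refutations 12 -/
def e12 : EX := (.node (.node (.node (.node (.node (.node .leaf (nat_lit 3096697295089970) (.br (nat_lit 4) (.cons (.br (nat_lit 5) (.cons (.rel (nat_lit 9663741984)) .nil)) .nil)) .leaf) (nat_lit 3096697296941362) (.br (nat_lit 0) (.cons (.br (nat_lit 1) (.cons (.rel (nat_lit 42206208)) .nil)) .nil)) .leaf) (nat_lit 3096697296941816) (.br (nat_lit 0) (.cons (.br (nat_lit 4) (.cons (.rel (nat_lit 1077941376)) .nil)) .nil)) (.node (.node .leaf (nat_lit 3096697297690631) (.br (nat_lit 0) (.cons (.br (nat_lit 5) (.cons (.rel (nat_lit 4299163680)) .nil)) .nil)) .leaf) (nat_lit 3096697298000178) (.br (nat_lit 0) (.cons (.br (nat_lit 1) (.cons (.rel (nat_lit 21497856)) .nil)) .nil)) .leaf)) (nat_lit 3096697298000632) (.br (nat_lit 4) (.cons (.br (nat_lit 5) (.cons (.br (nat_lit 6) (.cons (.rel (nat_lit 25770066192)) .nil)) .nil)) .nil)) (.node (.node (.node .leaf (nat_lit 3096697930231815) (.br (nat_lit 0) (.cons (.br (nat_lit 1) (.cons (.rel (nat_lit 37752912))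 .nil)) .nil)) .leaf) (nat_lit 3096697931031180) (.br (nat_lit 1) (.cons (.br (nat_lit 0) (.cons (.rel (nat_lit 21497856)) (.cons (.rel (nat_lit 37748769)) .nil))) .nil)) .leaf) (nat_lit 3096697931031913) (.br (nat_lit 1) (.cons (.br (nat_lit 2) (.cons (.rel (nat_lit 168050688)) .nil)) .nil)) (.node .leaf (nat_lit 3096698348219920) (.br (nat_lit 0) (.cons (.br (nat_lit 5) (.cons (.rel (nat_lit 4299161622)) .nil)) .nil)) .leaf))) (nat_lit 3096698349640467) (.br (nat_lit 0) (.cons (.br (nat_lit 3) (.cons (.rel (nat_lit 272631936)) .nil)) .nil)) (.node (.node (.node (.node .leaf (nat_lit 3096698349641232) (.br (nat_lit 0) (.cons (.br (nat_lit 3) (.cons (.rel (nat_lit 272647200)) (.cons (.rel (nat_lit 277348608)) .nil))) .nil)) .leaf) (nat_lit 3096698349662995) (.br (nat_lit 0) (.cons (.br (nat_lit 1) (.cons (.rel (nat_lit 25236480)) .nil)) .nil)) .leaf) (nat_lit 3096698366418448) (.br (nat_lit 0) (.cons (.br (nat_lit 6) (.cons (.rel (nat_lit 34368147456)) .nil)) .nil)) (.node (.node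 .leaf (nat_lit 3096698366440211) (.br (nat_lit 1) (.cons (.br (nat_lit 5) (.cons (.rel (nat_lit 4311770112)) .nil)) .nil)) .leaf) (nat_lit 3096698367238796) (.br (nat_lit 0) (.cons (.br (nat_lit 1) (.cons (.rel (nat_lit 21037344)) .nil)) .nil)) .leaf)) (nat_lit 3096698367547423) (.br (nat_lit 0) (.cons (.br (nat_lit 1) (.cons (.rel (nat_lit 22024197)) .nil)) .nil)) (.node (.node (.node .leaf (nat_lit 3096700046903948) (.br (nat_lit 0) (.cons (.br (nat_lit 1) (.cons (.rel (nat_lit 20993280)) .nil)) .nil)) .leaf) (nat_lit 3096700046904848) (.br (nat_lit 0) (.cons (.br (nat_lit 5) (.cons (.rel (nat_lit 4299179088)) .nil)) .nil)) .leaf) (nat_lit 3096700046904852) (.br (nat_lit 0) (.cons (.br (nat_lit 5) (.cons (.rel (nat_lit 8598339648)) .nil)) .nil)) (.node .leaf (nat_lit 3096700048334236) (.br (nat_lit 4) (.cons (.br (nat_lit 5) (.cons (.rel (nat_lit 5368709640)) .nil)) .nil)) .leaf)))) (nat_lit 3096700049154724) (.br (nat_lit 0) (.cons (.br (nat_lit 3) (.cons (.rel (nat_lit 272631936))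 .nil)) .nil)) (.node (.node (.node (.node (.node .leaf (nat_lit 3096700049155600) (.br (nat_lit 0) (.cons (.br (nat_lit 1) (.cons (.rel (nat_lit 20993280)) (.cons (.rel (nat_lit 37748769)) .nil))) .nil)) .leaf) (nat_lit 3098609923229696) (.br (nat_lit 0) (.cons (.br (nat_lit 2) (.cons (.rel (nat_lit 71319816)) .nil)) .nil)) .leaf) (nat_lit 3102754252107164) (.br (nat_lit 0) (.cons (.br (nat_lit 2) (.cons (.rel (nat_lit 75497568)) .nil)) .nil)) (.node (.node .leaf (nat_lit 3102754253549568) (.br (nat_lit 1) (.cons (.br (nat_lit 5) (.cons (.rel (nat_lit 8623490049)) .nil)) .nil)) .leaf) (nat_lit 3102754268874752) (.br (nat_lit 0) (.cons (.br (nat_lit 5) (.cons (.rel (nat_lit 4299161622)) .nil)) .nil)) .leaf)) (nat_lit 3102754270304256) (.br (nat_lit 0) (.cons (.br (nat_lit 5) (.cons (.rel (nat_lit 4299161622)) .nil)) .nil)) (.node (.node (.node .leaf (nat_lit 3102754270305808) (.br (nat_lit 0) (.cons (.br (nat_lit 5) (.cons (.rel (nat_lit 4299161622)) .nil)) .nil)) .leaf) (nat_lit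 3102755950790656) (.br (nat_lit 0) (.cons (.br (nat_lit 5) (.cons (.rel (nat_lit 4299163680)) (.cons (.rel (nat_lit 4304404752)) .nil))) .nil)) .leaf) (nat_lit 3102755950792208) (.br (nat_lit 0) (.cons (.br (nat_lit 1) (.cons (.rel (nat_lit 25165842)) (.cons (.rel (nat_lit 21497856)) .nil))) .nil)) (.node .leaf (nat_lit 3102755952243495) (.br (nat_lit 0) (.cons (.br (nat_lit 4) (.cons (.rel (nat_lit 1077941376)) .nil)) .nil)) .leaf))) (nat_lit 3102755953041408) (.br (nat_lit 0) (.cons (.br (nat_lit 1) (.cons (.rel (nat_lit 25165842)) .nil)) .nil)) (.node (.node (.node (.node .leaf (nat_lit 3102755953042960) (.br (nat_lit 0) (.cons (.br (nat_lit 2) (.cons (.rel (nat_lit 71307540)) (.cons (.rel (nat_lit 138412176)) (.cons (.rel (nat_lit 71893008)) (.cons (.rel (nat_lit 71893008)) .nil))))) .nil)) .leaf) (nat_lit 3102758861637632) (.br (nat_lit 0) (.cons (.br (nat_lit 1) (.cons (.rel (nat_lit 22093824)) (.cons (.rel (nat_lit 20971860)) .nil))) .nil)) .leaf) (nat_lit 3102758890997760)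 (.br (nat_lit 0) (.cons (.br (nat_lit 1) (.cons (.rel (nat_lit 20993280)) .nil)) .nil)) (.node .leaf (nat_lit 3102758893248512) (.br (nat_lit 0) (.cons (.br (nat_lit 1) (.cons (.rel (nat_lit 20993280)) .nil)) .nil)) .leaf)) (nat_lit 3102758893250064) (.br (nat_lit 0) (.cons (.br (nat_lit 4) (.cons (.rel (nat_lit 1077938244)) (.cons (.rel (nat_lit 1077937233)) .nil))) .nil)) (.node (.node (.node .leaf (nat_lit 3114298071428508) (.br (nat_lit 2) (.cons (.br (nat_lit 3) (.cons (.rel (nat_lit 335614980)) (.cons (.rel (nat_lit 335546400)) .nil))) .nil)) .leaf) (nat_lit 3114303761147909) (.br (nat_lit 0) (.cons (.br (nat_lit 3) (.cons (.rel (nat_lit 272631936)) .nil)) .nil)) .leaf) (nat_lit 3126934018452856) (.br (nat_lit 0) (.cons (.br (nat_lit 4) (.cons (.rel (nat_lit 1077937233)) .nil)) .nil)) (.node .leaf (nat_lit 3126934916033297) (.br (nat_lit 1) (.cons (.br (nat_lit 4) (.cons (.rel (nat_lit 1090535568)) .nil)) .nil)) .leaf)))))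

/-- refutations 13 -/
def e13 : EX := (.node (.node (.node (.node (.node .leaf (nat_lit 3167068791098904) (.br (nat_lit 0) (.cons (.br (nat_lit 3) (.cons (.rel (nat_lit 272662608)) .nil)) .nil)) .leaf) (nat_lit 3167068793340680) (.br (nat_lit 0) (.cons (.br (nat_lit 1) (.cons (.rel (nat_lit 42206208)) .nil)) .nil)) (.node .leaf (nat_lit 3167071704188316) (.br (nat_lit 0) (.cons (.br (nat_lit 1) (.cons (.rel (nat_lit 21037344)) .nil)) .nil)) .leaf)) (nat_lit 3167685586714799) (.br (nat_lit 1) (.cons (.br (nat_lit 4) (.cons (.rel (nat_lit 2181055488)) (.cons (.rel (nat_lit 2181055488)) .nil))) .nil)) (.node (.node .leaf (nat_lit 3172401461114891) (.br (nat_lit 0) (.cons (.br (nat_lit 1) (.cons (.rel (nat_lit 20971860)) .nil)) .nil)) .leaf) (nat_lit 3173054276808212) (.br (nat_lit 0) (.cons (.br (nat_lit 1) (.cons (.rel (nat_lit 21037344)) (.cons (.rel (nat_lit 25236480)) .nil))) .nil)) (.node .leaf (nat_lit 3173055975507979) (.br (nat_lit 0) (.cons (.br (nat_lit 6) (.cons (.rel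 (nat_lit 17184063621)) .nil)) .nil)) .leaf))) (nat_lit 3173058888597511) (.br (nat_lit 0) (.cons (.br (nat_lit 1) (.cons (.rel (nat_lit 20993280)) .nil)) .nil)) (.node (.node (.node .leaf (nat_lit 3173058888598280) (.br (nat_lit 0) (.cons (.br (nat_lit 3) (.cons (.rel (nat_lit 272695362)) .nil)) .nil)) .leaf) (nat_lit 3173058888599060) (.br (nat_lit 0) (.cons (.br (nat_lit 1) (.cons (.rel (nat_lit 22052928)) .nil)) .nil)) (.node .leaf (nat_lit 3173058917958408) (.br (nat_lit 0) (.cons (.br (nat_lit 3) (.cons (.rel (nat_lit 272631936)) .nil)) .nil)) .leaf)) (nat_lit 3173058917959188) (.br (nat_lit 0) (.cons (.br (nat_lit 4) (.cons (.rel (nat_lit 1077937233)) .nil)) .nil)) (.node (.node .leaf (nat_lit 3173296365895715) (.br (nat_lit 5) (.cons (.br (nat_lit 2) (.cons (.rel (nat_lit 4362076230)) (.cons (.rel (nat_lit 4362084372)) .nil))) .nil)) .leaf) (nat_lit 3173296365895990) (.br (nat_lit 0) (.cons (.br (nat_lit 1) (.cons (.rel (nat_lit 37749780)) .nil)) .nil)) (.node .leaf (nat_lit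 3174422194489654) (.br (nat_lit 0) (.cons (.br (nat_lit 4) (.cons (.rel (nat_lit 1077941376)) .nil)) .nil)) .leaf)))) (nat_lit 3174422194735279) (.br (nat_lit 0) (.cons (.br (nat_lit 5) (.cons (.rel (nat_lit 8598324240)) .nil)) .nil)) (.node (.node (.node (.node .leaf (nat_lit 3177804527414760) (.br (nat_lit 0) (.cons (.br (nat_lit 1) (.cons (.rel (nat_lit 42206208)) .nil)) .nil)) .leaf) (nat_lit 3177804528604417) (.br (nat_lit 0) (.cons (.br (nat_lit 2) (.cons (.rel (nat_lit 71307540)) .nil)) .nil)) (.node .leaf (nat_lit 3177804529664007) (.br (nat_lit 6) (.cons (.br (nat_lit 0) (.cons (.br (nat_lit 3) (.cons (.rel (nat_lit 272631936)) (.cons (.rel (nat_lit 272631936)) .nil))) (.cons (.rel (nat_lit 17184130116)) .nil))) .nil)) .leaf)) (nat_lit 3177804529664011) (.br (nat_lit 0) (.cons (.br (nat_lit 3) (.cons (.rel (nat_lit 272631936)) (.cons (.rel (nat_lit 272647200)) (.cons (.rel (nat_lit 272631936)) .nil)))) .nil)) (.node (.node .leaf (nat_lit 3177804529664035) (.br (nat_lit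 0) (.cons (.br (nat_lit 2) (.cons (.rel (nat_lit 72417408)) .nil)) .nil)) .leaf) (nat_lit 3177804529664175) (.br (nat_lit 3) (.cons (.br (nat_lit 5) (.cons (.rel (nat_lit 4565499909)) (.cons (.rel (nat_lit 4563403332)) .nil))) .nil)) (.node .leaf (nat_lit 3177804529883147) (.br (nat_lit 0) (.cons (.br (nat_lit 6) (.cons (.rel (nat_lit 17184327936)) .nil)) .nil)) .leaf))) (nat_lit 3177804530128907) (.br (nat_lit 1) (.cons (.br (nat_lit 6) (.cons (.rel (nat_lit 17197957188)) (.cons (.rel (nat_lit 17196777480)) .nil))) .nil)) (.node (.node (.node .leaf (nat_lit 3177804530128927) (.br (nat_lit 2) (.cons (.br (nat_lit 4) (.cons (.rel (nat_lit 1140851841)) .nil)) .nil)) .leaf) (nat_lit 3177806079511809) (.br (nat_lit 0) (.cons (.br (nat_lit 3) (.cons (.rel (nat_lit 272695362)) .nil)) .nil)) (.node .leaf (nat_lit 3177806194804244) (.br (nat_lit 0) (.cons (.br (nat_lit 5) (.cons (.rel (nat_lit 8598339648)) .nil)) .nil)) .leaf)) (nat_lit 3177806628965239) (.br (nat_lit 0) (.cons (.br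 (nat_lit 3) (.cons (.rel (nat_lit 277348608)) .nil)) .nil)) (.node (.node .leaf (nat_lit 3179694315274275) (.br (nat_lit 1) (.cons (.br (nat_lit 3) (.cons (.rel (nat_lit 285216804)) .nil)) .nil)) .leaf) (nat_lit 3179695994949089) (.br (nat_lit 0) (.cons (.br (nat_lit 4) (.cons (.rel (nat_lit 1079001600)) .nil)) .nil)) (.node .leaf (nat_lit 3179695994949144) (.br (nat_lit 0) (.cons (.br (nat_lit 1) (.cons (.rel (nat_lit 25236480)) .nil)) .nil)) .leaf)))))

/-- refutations 14 -/
def e14 : EX := (.node (.node (.node (.node (.node (.node .leaf (nat_lit 3184504029094790) (.br (nat_lit 0) (.cons (.br (nat_lit 1) (.cons (.rel (nat_lit 25165842)) .nil)) .nil)) .leaf) (nat_lit 3184706865072433) (.br (nat_lit 0) (.cons (.br (nat_lit 2) (.cons (.rel (nat_lit 71435520)) .nil)) .nil)) (.node .leaf (nat_lit 3185282057096668) (.br (nat_lit 0) (.cons (.br (nat_lit 3) (.cons (.rel (nat_lit 272646153)) .nil)) .nil)) .leaf)) (nat_lit 3185282058513195) (.br (nat_lit 2) (.cons (.br (nat_lit 4) (.cons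 (.rel (nat_lit 1140981762)) .nil)) .nil)) (.node (.node .leaf (nat_lit 3185282059340081) (.br (nat_lit 0) (.cons (.br (nat_lit 1) (.cons (.rel (nat_lit 22037520)) .nil)) .nil)) .leaf) (nat_lit 3185282059340712) (.br (nat_lit 4) (.cons (.br (nat_lit 0) (.cons (.rel (nat_lit 2155876356)) (.cons (.rel (nat_lit 1082425344)) .nil))) .nil)) .leaf)) (nat_lit 3185282059341052) (.br (nat_lit 0) (.cons (.br (nat_lit 2) (.cons (.rel (nat_lit 71307540)) .nil)) .nil)) (.node (.node (.node .leaf (nat_lit 3195404653283378) (.br (nat_lit 4) (.cons (.br (nat_lit 0) (.cons (.rel (nat_lit 1077938244)) (.cons (.rel (nat_lit 1077941376)) .nil))) .nil)) .leaf) (nat_lit 3195404653283510) (.br (nat_lit 6) (.cons (.br (nat_lit 2) (.cons (.rel (nat_lit 17246979096)) (.cons (.rel (nat_lit 17246980098)) .nil))) .nil)) .leaf) (nat_lit 3195404654758790) (.br (nat_lit 1) (.cons (.br (nat_lit 4) (.cons (.rel (nat_lit 1090585608)) .nil)) .nil)) (.node (.node .leaf (nat_lit 3195404655515673) (.br (nat_lit 4)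 (.cons (.br (nat_lit 1) (.cons (.rel (nat_lit 2181055488)) (.cons (.rel (nat_lit 1090528257)) .nil))) .nil)) .leaf) (nat_lit 3195404655516459) (.br (nat_lit 4) (.cons (.br (nat_lit 2) (.cons (.rel (nat_lit 1209008388)) (.cons (.rel (nat_lit 1140924420)) .nil))) .nil)) .leaf))) (nat_lit 3195404655517073) (.br (nat_lit 2) (.cons (.br (nat_lit 4) (.cons (.rel (nat_lit 1141900800)) .nil)) .nil)) (.node (.node (.node (.node .leaf (nat_lit 3195404655527991) (.br (nat_lit 0) (.cons (.br (nat_lit 1) (.cons (.rel (nat_lit 42206208)) .nil)) .nil)) .leaf) (nat_lit 3195404655528241) (.br (nat_lit 0) (.cons (.br (nat_lit 6) (.cons (.rel (nat_lit 17184069633)) .nil)) .nil)) .leaf) (nat_lit 3195404655528568) (.br (nat_lit 0) (.cons (.br (nat_lit 1) (.cons (.rel (nat_lit 42206208)) .nil)) .nil)) (.node (.node .leaf (nat_lit 3195404655528823) (.br (nat_lit 1) (.cons (.br (nat_lit 2) (.cons (.rel (nat_lit 83892480)) .nil)) .nil)) .leaf) (nat_lit 3195404655528872) (.br (nat_lit 6) (.cons (.br (nat_lit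 0) (.cons (.br (nat_lit 1) (.cons (.rel (nat_lit 34376778240)) (.cons (.rel (nat_lit 22052928)) .nil))) (.cons (.rel (nat_lit 17190354945)) .nil))) .nil)) .leaf)) (nat_lit 3195404655741233) (.br (nat_lit 4) (.cons (.br (nat_lit 5) (.cons (.rel (nat_lit 10737418500)) (.cons (.rel (nat_lit 5368987776)) .nil))) .nil)) (.node (.node (.node .leaf (nat_lit 3195404655741554) (.br (nat_lit 0) (.cons (.br (nat_lit 3) (.cons (.rel (nat_lit 272631936)) (.cons (.rel (nat_lit 276832770)) .nil))) (.cons (.br (nat_lit 2) (.cons (.rel (nat_lit 138543108)) (.cons (.rel (nat_lit 72351780)) .nil))) .nil))) .leaf) (nat_lit 3195404655837995) (.br (nat_lit 4) (.cons (.br (nat_lit 6) (.cons (.rel (nat_lit 18253616640)) .nil)) .nil)) .leaf) (nat_lit 3195405311731897) (.br (nat_lit 1) (.cons (.br (nat_lit 4) (.cons (.rel (nat_lit 1090585608)) .nil)) .nil)) (.node (.node .leaf (nat_lit 3195405311789238) (.br (nat_lit 2) (.cons (.br (nat_lit 4) (.cons (.rel (nat_lit 2281766913)) (.cons (.rel (nat_lit 1140854793))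 .nil))) .nil)) .leaf) (nat_lit 3195405311790561) (.br (nat_lit 2) (.cons (.br (nat_lit 4) (.cons (.rel (nat_lit 1140918336)) .nil)) .nil)) .leaf)))) (nat_lit 3195405314033701) (.br (nat_lit 4) (.cons (.br (nat_lit 2) (.cons (.rel (nat_lit 1140871248)) (.cons (.rel (nat_lit 1140871248)) .nil))) .nil)) (.node (.node (.node (.node (.node .leaf (nat_lit 3195405314033966) (.br (nat_lit 2) (.cons (.br (nat_lit 1) (.cons (.rel (nat_lit 84443136)) (.cons (.rel (nat_lit 84443136)) .nil))) .nil)) .leaf) (nat_lit 3195405314033969) (.br (nat_lit 4) (.cons (.br (nat_lit 1) (.cons (.rel (nat_lit 1090528257)) (.cons (.rel (nat_lit 1090519113)) .nil))) .nil)) (.node .leaf (nat_lit 3195405314034466) (.br (nat_lit 0) (.cons (.br (nat_lit 1) (.cons (.rel (nat_lit 21497856)) .nil)) .nil)) .leaf)) (nat_lit 3195405314034600) (.br (nat_lit 1) (.cons (.br (nat_lit 3) (.cons (.rel (nat_lit 554172480)) (.cons (.rel (nat_lit 554172480)) .nil))) (.cons (.br (nat_lit 3) (.cons (.rel (nat_lit 285278289))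 (.cons (.rel (nat_lit 285212805)) .nil))) .nil))) (.node (.node .leaf (nat_lit 3195405314247542) (.br (nat_lit 1) (.cons (.br (nat_lit 3) (.cons (.rel (nat_lit 571737105)) .nil)) .nil)) .leaf) (nat_lit 3196082989680822) (.br (nat_lit 1) (.cons (.br (nat_lit 0) (.cons (.rel (nat_lit 37752912)) (.cons (.rel (nat_lit 22093824)) .nil))) .nil)) .leaf)) (nat_lit 3196083258116278) (.br (nat_lit 6) (.cons (.br (nat_lit 1) (.cons (.rel (nat_lit 34393358340)) (.cons (.rel (nat_lit 17197957188)) (.cons (.rel (nat_lit 17196777480)) .nil)))) .nil)) (.node (.node (.node .leaf (nat_lit 3196083258117521) (.br (nat_lit 6) (.cons (.br (nat_lit 4) (.cons (.rel (nat_lit 18253627905)) (.cons (.rel (nat_lit 18253874178)) .nil))) .nil)) .leaf) (nat_lit 3196083258117601) (.br (nat_lit 1) (.cons (.br (nat_lit 2) (.cons (.rel (nat_lit 168050688)) .nil)) .nil)) .leaf) (nat_lit 3196083258312765) (.br (nat_lit 0) (.cons (.br (nat_lit 1) (.cons (.rel (nat_lit 20971860)) (.cons (.rel (nat_lit 42206208)) .nil)))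 (.cons (.br (nat_lit 2) (.cons (.rel (nat_lit 72417408)) (.cons (.rel (nat_lit 71319816)) .nil))) .nil))) (.node (.node .leaf (nat_lit 3196083259287005) (.br (nat_lit 1) (.cons (.br (nat_lit 3) (.cons (.rel (nat_lit 570445824)) .nil)) .nil)) .leaf) (nat_lit 3196083260349227) (.br (nat_lit 4) (.cons (.br (nat_lit 0) (.cons (.rel (nat_lit 1083244800)) (.cons (.rel (nat_lit 2151679233)) .nil))) .nil)) .leaf))) (nat_lit 3196083260349841) (.br (nat_lit 4) (.cons (.br (nat_lit 6) (.cons (.rel (nat_lit 18253616640)) .nil)) .nil)) (.node (.node (.node (.node .leaf (nat_lit 3196083260361379) (.br (nat_lit 0) (.cons (.br (nat_lit 1) (.cons (.rel (nat_lit 20971860)) .nil)) .nil)) .leaf) (nat_lit 3196083260361640) (.br (nat_lit 1) (.cons (.br (nat_lit 4) (.cons (.rel (nat_lit 1090528257)) (.cons (.rel (nat_lit 1090535568)) .nil))) .nil)) .leaf) (nat_lit 3196083260362140) (.br (nat_lit 0) (.cons (.br (nat_lit 5) (.cons (.rel (nat_lit 4299162633)) .nil)) .nil)) (.node (.node .leaf (nat_lit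 3196083260412684) (.br (nat_lit 1) (.cons (.br (nat_lit 3) (.cons (.rel (nat_lit 285477120)) (.cons (.rel (nat_lit 304087056)) (.cons (.rel (nat_lit 285282432)) .nil)))) .nil)) .leaf) (nat_lit 3196083260670763) (.br (nat_lit 0) (.cons (.br (nat_lit 2) (.cons (.rel (nat_lit 139722816)) .nil)) .nil)) .leaf)) (nat_lit 3196083916266779) (.br (nat_lit 3) (.cons (.br (nat_lit 6) (.cons (.rel (nat_lit 34628255760)) .nil)) .nil)) (.node (.node (.node .leaf (nat_lit 3196083916623329) (.br (nat_lit 0) (.cons (.br (nat_lit 3) (.cons (.rel (nat_lit 272633877)) .nil)) .nil)) .leaf) (nat_lit 3196083918038549) (.br (nat_lit 0) (.cons (.br (nat_lit 2) (.cons (.rel (nat_lit 71893008)) .nil)) .nil)) .leaf) (nat_lit 3196083918867189) (.br (nat_lit 1) (.cons (.br (nat_lit 6) (.cons (.rel (nat_lit 17198022672)) .nil)) .nil)) (.node (.node .leaf (nat_lit 3197294441138186) (.br (nat_lit 1) (.cons (.br (nat_lit 3) (.cons (.rel (nat_lit 304087056)) (.cons (.rel (nat_lit 570445824)) .nil))) .nil)) .leaf)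 (nat_lit 3197337390811441) (.br (nat_lit 1) (.cons (.br (nat_lit 2) (.cons (.rel (nat_lit 84443136)) .nil)) .nil)) .leaf)))))

/-- refutations 15 -/
def e15 : EX := (.node (.node (.node (.node (.node (.node (.node .leaf (nat_lit 3290212396150815) (.br (nat_lit 0) (.cons (.br (nat_lit 1) (.cons (.rel (nat_lit 20993280)) .nil)) .nil)) .leaf) (nat_lit 3290212396972063) (.br (nat_lit 0) (.cons (.br (nat_lit 3) (.cons (.rel (nat_lit 272631936)) .nil)) .nil)) (.node .leaf (nat_lit 3292193347854336) (.br (nat_lit 1) (.cons (.br (nat_lit 4) (.cons (.rel (nat_lit 1090584597)) .nil)) .nil)) .leaf)) (nat_lit 3292204332232704) (.br (nat_lit 5) (.cons (.br (nat_lit 2) (.cons (.rel (nat_lit 4362078288)) (.cons (.rel (nat_lit 8724168720)) .nil))) .nil)) (.node (.node .leaf (nat_lit 3292204332580864) (.br (nat_lit 2) (.cons (.br (nat_lit 3) (.cons (.rel (nat_lit 671105088)) .nil)) .nil)) .leaf) (nat_lit 3292204332736512) (.br (nat_lit 1) (.cons (.br (nat_lit 2) (.cons (.br (nat_lit 0) (.cons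 (.rel (nat_lit 42206208)) (.cons (.rel (nat_lit 88088592)) (.cons (.rel (nat_lit 37752912)) (.cons (.rel (nat_lit 37752912)) (.cons (.rel (nat_lit 71893008)) (.cons (.rel (nat_lit 25165842)) .nil))))))) (.cons (.rel (nat_lit 100667520)) (.cons (.rel (nat_lit 150999057)) .nil)))) (.cons (.br (nat_lit 2) (.cons (.rel (nat_lit 83951952)) (.cons (.rel (nat_lit 168050688)) (.cons (.rel (nat_lit 84936720)) .nil)))) .nil))) .leaf)) (nat_lit 3292204334022656) (.br (nat_lit 0) (.cons (.br (nat_lit 2) (.cons (.rel (nat_lit 75497568)) (.cons (.rel (nat_lit 75531264)) .nil))) .nil)) (.node (.node (.node .leaf (nat_lit 3292204334022958) (.br (nat_lit 1) (.cons (.br (nat_lit 0) (.cons (.rel (nat_lit 42206208)) (.cons (.rel (nat_lit 37748769)) (.cons (.rel (nat_lit 37752912)) .nil)))) (.cons (.br (nat_lit 4) (.cons (.rel (nat_lit 1090585608)) (.cons (.rel (nat_lit 1090520160)) .nil))) .nil))) .leaf) (nat_lit 3292204334035631) (.br (nat_lit 1) (.cons (.br (nat_lit 2) (.cons (.rel (nat_lit 83951952))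 .nil)) .nil)) .leaf) (nat_lit 3292204334856192) (.br (nat_lit 1) (.cons (.br (nat_lit 3) (.cons (.rel (nat_lit 285212805)) (.cons (.rel (nat_lit 285212805)) .nil))) (.cons (.br (nat_lit 5) (.cons (.rel (nat_lit 8607236112)) (.cons (.br (nat_lit 3) (.cons (.rel (nat_lit 8858388480)) (.cons (.rel (nat_lit 8858370192)) .nil))) .nil))) .nil))) (.node (.node .leaf (nat_lit 3292204335159598) (.br (nat_lit 4) (.cons (.br (nat_lit 6) (.cons (.rel (nat_lit 18253616640)) .nil)) .nil)) .leaf) (nat_lit 3292204678789120) (.br (nat_lit 4) (.cons (.br (nat_lit 1) (.cons (.rel (nat_lit 1090535568)) (.cons (.rel (nat_lit 1090666500)) .nil))) .nil)) .leaf))) (nat_lit 3292205260964142) (.br (nat_lit 1) (.cons (.br (nat_lit 4) (.cons (.rel (nat_lit 1090520160)) .nil)) .nil)) (.node (.node (.node (.node .leaf (nat_lit 3292205261798937) (.br (nat_lit 1) (.cons (.br (nat_lit 4) (.cons (.rel (nat_lit 1090519113)) .nil)) .nil)) .leaf) (nat_lit 3292205262100782) (.br (nat_lit 1) (.cons (.br (nat_lit 4)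 (.cons (.rel (nat_lit 1090539522)) .nil)) .nil)) (.node .leaf (nat_lit 3292205262256310) (.br (nat_lit 0) (.cons (.br (nat_lit 4) (.cons (.rel (nat_lit 2155876356)) .nil)) .nil)) .leaf)) (nat_lit 3292205262256430) (.br (nat_lit 4) (.cons (.br (nat_lit 5) (.cons (.rel (nat_lit 9663709185)) .nil)) .nil)) (.node (.node .leaf (nat_lit 3295408152713518) (.br (nat_lit 0) (.cons (.br (nat_lit 1) (.cons (.rel (nat_lit 22093824)) .nil)) .nil)) .leaf) (nat_lit 3295408154149166) (.br (nat_lit 1) (.cons (.br (nat_lit 6) (.cons (.rel (nat_lit 17196777480)) .nil)) .nil)) .leaf)) (nat_lit 3295551385253919) (.br (nat_lit 0) (.cons (.br (nat_lit 1) (.cons (.rel (nat_lit 22037520)) .nil)) .nil)) (.node (.node (.node .leaf (nat_lit 3296233957898251) (.br (nat_lit 0) (.cons (.br (nat_lit 4) (.cons (.rel (nat_lit 1077937233)) (.cons (.rel (nat_lit 1077937233)) .nil))) .nil)) .leaf) (nat_lit 3296236495452847) (.br (nat_lit 0) (.cons (.br (nat_lit 2) (.cons (.rel (nat_lit 71307540)) .nil)) .nil)) .leaf)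 (nat_lit 3296236495453592) (.br (nat_lit 0) (.cons (.br (nat_lit 2) (.cons (.rel (nat_lit 71435520)) .nil)) .nil)) (.node (.node .leaf (nat_lit 3296238550661120) (.br (nat_lit 0) (.cons (.br (nat_lit 1) (.cons (.rel (nat_lit 25247745)) (.cons (.rel (nat_lit 22024197)) .nil))) .nil)) .leaf) (nat_lit 3296238550661271) (.br (nat_lit 0) (.cons (.br (nat_lit 1) (.cons (.rel (nat_lit 21497856)) .nil)) .nil)) .leaf)))) (nat_lit 3296238577953070) (.br (nat_lit 0) (.cons (.br (nat_lit 1) (.cons (.rel (nat_lit 20971860)) .nil)) .nil)) (.node (.node (.node (.node (.node .leaf (nat_lit 3297555864107039) (.br (nat_lit 0) (.cons (.br (nat_lit 1) (.cons (.rel (nat_lit 37748769)) .nil)) .nil)) .leaf) (nat_lit 3297556790214958) (.br (nat_lit 2) (.cons (.br (nat_lit 4) (.cons (.rel (nat_lit 1140854793)) .nil)) .nil)) (.node .leaf (nat_lit 3297556791048223) (.br (nat_lit 2) (.cons (.br (nat_lit 4) (.cons (.rel (nat_lit 1140868116)) .nil)) .nil)) .leaf)) (nat_lit 3297556791048327) (.br (nat_lit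 1) (.cons (.br (nat_lit 3) (.cons (.rel (nat_lit 285230082)) .nil)) .nil)) (.node (.node .leaf (nat_lit 3297705372256943) (.br (nat_lit 0) (.cons (.br (nat_lit 1) (.cons (.rel (nat_lit 21004545)) .nil)) .nil)) .leaf) (nat_lit 3297705373014703) (.br (nat_lit 0) (.cons (.br (nat_lit 4) (.cons (.rel (nat_lit 1077941376)) .nil)) .nil)) .leaf)) (nat_lit 3297705373169966) (.br (nat_lit 0) (.cons (.br (nat_lit 5) (.cons (.rel (nat_lit 8598324240)) .nil)) .nil)) (.node (.node (.node .leaf (nat_lit 3297705373479599) (.br (nat_lit 0) (.cons (.br (nat_lit 2) (.cons (.rel (nat_lit 71373216)) .nil)) .nil)) .leaf) (nat_lit 3297705373480344) (.br (nat_lit 0) (.cons (.br (nat_lit 5) (.cons (.rel (nat_lit 8598324240)) .nil)) .nil)) .leaf) (nat_lit 3297705374267694) (.br (nat_lit 0) (.cons (.br (nat_lit 5) (.cons (.rel (nat_lit 8598324240)) (.cons (.rel (nat_lit 4299162633)) .nil))) .nil)) (.node (.node .leaf (nat_lit 3297705374268079) (.br (nat_lit 0) (.cons (.br (nat_lit 1) (.cons (.rel (nat_lit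 21004545)) (.cons (.rel (nat_lit 42206208)) (.cons (.rel (nat_lit 25165842)) .nil)))) (.cons (.br (nat_lit 1) (.cons (.rel (nat_lit 21004545)) (.cons (.rel (nat_lit 21037344)) (.cons (.rel (nat_lit 22024197)) .nil)))) (.cons (.br (nat_lit 3) (.cons (.rel (nat_lit 272761857)) (.cons (.rel (nat_lit 545260608)) (.cons (.rel (nat_lit 545326104)) .nil)))) .nil)))) .leaf) (nat_lit 3297705374268824) (.br (nat_lit 4) (.cons (.br (nat_lit 0) (.cons (.rel (nat_lit 1079247873)) (.cons (.rel (nat_lit 1077937233)) .nil))) .nil)) .leaf))) (nat_lit 3297705374726326) (.br (nat_lit 1) (.cons (.br (nat_lit 2) (.cons (.rel (nat_lit 168050688)) .nil)) .nil)) (.node (.node (.node (.node .leaf (nat_lit 3297705374726446) (.br (nat_lit 0) (.cons (.br (nat_lit 5) (.cons (.rel (nat_lit 4299179088)) .nil)) .nil)) .leaf) (nat_lit 3297705374808751) (.br (nat_lit 0) (.cons (.br (nat_lit 3) (.cons (.rel (nat_lit 272631936)) .nil)) .nil)) .leaf) (nat_lit 3300540050059264) (.br (nat_lit 3) (.cons (.br (nat_lit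 4) (.cons (.rel (nat_lit 1610618880)) .nil)) .nil)) (.node (.node .leaf (nat_lit 3300540050410124) (.br (nat_lit 0) (.cons (.br (nat_lit 1) (.cons (.rel (nat_lit 21008736)) .nil)) .nil)) .leaf) (nat_lit 3300540050410159) (.br (nat_lit 0) (.cons (.br (nat_lit 1) (.cons (.rel (nat_lit 21004545)) .nil)) .nil)) .leaf)) (nat_lit 3300540051429376) (.br (nat_lit 1) (.cons (.br (nat_lit 0) (.cons (.rel (nat_lit 22024197)) (.cons (.rel (nat_lit 20971860)) .nil))) .nil)) (.node (.node (.node .leaf (nat_lit 3300540051430136) (.br (nat_lit 0) (.cons (.br (nat_lit 5) (.cons (.rel (nat_lit 4299163680)) .nil)) .nil)) .leaf) (nat_lit 3300540051430657) (.br (nat_lit 3) (.cons (.br (nat_lit 5) (.cons (.rel (nat_lit 4831846401)) (.cons (.rel (nat_lit 4563669012)) .nil))) .nil)) .leaf) (nat_lit 3300540051585024) (.br (nat_lit 0) (.cons (.br (nat_lit 4) (.cons (.rel (nat_lit 1077937233)) .nil)) .nil)) (.node (.node .leaf (nat_lit 3300540052683439) (.br (nat_lit 0) (.cons (.br (nat_lit 1) (.cons (.rel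 (nat_lit 21037344)) .nil)) .nil)) .leaf) (nat_lit 3300540052684033) (.br (nat_lit 3) (.cons (.br (nat_lit 5) (.cons (.rel (nat_lit 4563681288)) .nil)) .nil)) .leaf))))) (nat_lit 3300540052865024) (.br (nat_lit 0) (.cons (.br (nat_lit 1) (.cons (.rel (nat_lit 22037520)) .nil)) .nil)) (.node (.node (.node (.node (.node (.node .leaf (nat_lit 3300540053141686) (.br (nat_lit 0) (.cons (.br (nat_lit 1) (.cons (.rel (nat_lit 22024197)) .nil)) .nil)) .leaf) (nat_lit 3300540053142264) (.br (nat_lit 0) (.cons (.br (nat_lit 6) (.cons (.rel (nat_lit 17188524048)) .nil)) .nil)) (.node .leaf (nat_lit 3301008805474304) (.br (nat_lit 0) (.cons (.br (nat_lit 3) (.cons (.rel (nat_lit 272631936)) .nil)) .nil)) .leaf)) (nat_lit 3301008805840927) (.br (nat_lit 3) (.cons (.br (nat_lit 5) (.cons (.rel (nat_lit 4563468816)) .nil)) .nil)) (.node (.node .leaf (nat_lit 3301008806087288) (.br (nat_lit 0) (.cons (.br (nat_lit 4) (.cons (.rel (nat_lit 1078071297)) .nil)) .nil)) .leaf) (nat_lit 3301008806087416)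 (.br (nat_lit 0) (.cons (.br (nat_lit 5) (.cons (.rel (nat_lit 4299163680)) .nil)) .nil)) .leaf)) (nat_lit 3301008806742318) (.br (nat_lit 1) (.cons (.br (nat_lit 3) (.cons (.rel (nat_lit 285212805)) .nil)) .nil)) (.node (.node (.node .leaf (nat_lit 3301008807071926) (.br (nat_lit 3) (.cons (.br (nat_lit 0) (.cons (.rel (nat_lit 274792704)) (.cons (.rel (nat_lit 272634888)) .nil))) .nil)) .leaf) (nat_lit 3301008808097823) (.br (nat_lit 0) (.cons (.br (nat_lit 3) (.cons (.rel (nat_lit 545260608)) (.cons (.rel (nat_lit 542117952)) .nil))) .nil)) .leaf) (nat_lit 3301008808097927) (.br (nat_lit 0) (.cons (.br (nat_lit 4) (.cons (.rel (nat_lit 2155876356)) (.cons (.rel (nat_lit 1083244800)) (.cons (.rel (nat_lit 1078001670)) .nil)))) .nil)) (.node (.node .leaf (nat_lit 3301008808098094) (.br (nat_lit 0) (.cons (.br (nat_lit 6) (.cons (.rel (nat_lit 17184063621)) (.cons (.rel (nat_lit 17184069633)) (.cons (.rel (nat_lit 34368147456)) (.cons (.rel (nat_lit 17184130116)) .nil))))) .nil))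 .leaf) (nat_lit 3301008808098723) (.br (nat_lit 0) (.cons (.br (nat_lit 4) (.cons (.rel (nat_lit 2155876356)) (.cons (.rel (nat_lit 1078071297)) .nil))) .nil)) .leaf))) (nat_lit 3301008808280095) (.br (nat_lit 0) (.cons (.br (nat_lit 6) (.cons (.rel (nat_lit 34368147456)) .nil)) .nil)) (.node (.node (.node (.node .leaf (nat_lit 3301008808280126) (.br (nat_lit 4) (.cons (.br (nat_lit 0) (.cons (.rel (nat_lit 1077938244)) (.cons (.rel (nat_lit 2155876356)) .nil))) .nil)) .leaf) (nat_lit 3301008808280199) (.br (nat_lit 0) (.cons (.br (nat_lit 6) (.cons (.rel (nat_lit 34368147456)) (.cons (.rel (nat_lit 17184069633)) .nil))) .nil)) (.node .leaf (nat_lit 3301008808280366) (.br (nat_lit 1) (.cons (.br (nat_lit 0) (.cons (.rel (nat_lit 21004545)) (.cons (.rel (nat_lit 21037344)) .nil))) .nil)) .leaf)) (nat_lit 3301008808280696) (.br (nat_lit 0) (.cons (.br (nat_lit 2) (.cons (.rel (nat_lit 71827524)) .nil)) .nil)) (.node (.node .leaf (nat_lit 3301008808556544) (.br (nat_lit 0) (.cons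 (.br (nat_lit 4) (.cons (.rel (nat_lit 2155876356)) (.cons (.rel (nat_lit 1078071297)) .nil))) .nil)) .leaf) (nat_lit 3301008808556606) (.br (nat_lit 0) (.cons (.br (nat_lit 3) (.cons (.rel (nat_lit 274792704)) (.cons (.rel (nat_lit 272761857)) .nil))) .nil)) .leaf)) (nat_lit 3301008808556726) (.br (nat_lit 0) (.cons (.br (nat_lit 3) (.cons (.rel (nat_lit 272631936)) (.cons (.rel (nat_lit 272761857)) .nil))) .nil)) (.node (.node (.node .leaf (nat_lit 3301008808556846) (.br (nat_lit 0) (.cons (.br (nat_lit 5) (.cons (.rel (nat_lit 4299179088)) .nil)) .nil)) .leaf) (nat_lit 3301008808646687) (.br (nat_lit 1) (.cons (.br (nat_lit 6) (.cons (.rel (nat_lit 34393358340)) .nil)) .nil)) .leaf) (nat_lit 3301008808646791) (.br (nat_lit 0) (.cons (.br (nat_lit 3) (.cons (.rel (nat_lit 272631936)) (.cons (.rel (nat_lit 542117952)) (.cons (.rel (nat_lit 272761857)) .nil)))) .nil)) (.node (.node .leaf (nat_lit 3301011559743670) (.br (nat_lit 0) (.cons (.br (nat_lit 3) (.cons (.rel (nat_lit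 272631936)) .nil)) .nil)) .leaf) (nat_lit 3301011624413366) (.br (nat_lit 0) (.cons (.br (nat_lit 1) (.cons (.rel (nat_lit 25166853)) .nil)) .nil)) .leaf)))) (nat_lit 3301011626670867) (.br (nat_lit 0) (.cons (.br (nat_lit 3) (.cons (.rel (nat_lit 272647200)) .nil)) .nil)) (.node (.node (.node (.node (.node .leaf (nat_lit 3301014581382621) (.br (nat_lit 0) (.cons (.br (nat_lit 4) (.cons (.rel (nat_lit 1077952641)) .nil)) .nil)) .leaf) (nat_lit 3301014583836974) (.br (nat_lit 0) (.cons (.br (nat_lit 5) (.cons (.rel (nat_lit 4299165765)) .nil)) .nil)) (.node .leaf (nat_lit 3301602650241326) (.br (nat_lit 0) (.cons (.br (nat_lit 4) (.cons (.rel (nat_lit 1077938244)) (.cons (.rel (nat_lit 1077941376)) .nil))) (.cons (.br (nat_lit 1) (.cons (.rel (nat_lit 20993280)) (.cons (.rel (nat_lit 21037344)) .nil))) .nil))) .leaf)) (nat_lit 3301602650700078) (.br (nat_lit 0) (.cons (.br (nat_lit 3) (.cons (.rel (nat_lit 272695362)) .nil)) .nil)) (.node (.node .leaf (nat_lit 3301610310959406)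 (.br (nat_lit 2) (.cons (.br (nat_lit 4) (.cons (.rel (nat_lit 1140924420)) .nil)) .nil)) .leaf) (nat_lit 3301610313234463) (.br (nat_lit 1) (.cons (.br (nat_lit 4) (.cons (.rel (nat_lit 1090588740)) .nil)) .nil)) .leaf)) (nat_lit 3302841280115969) (.br (nat_lit 0) (.cons (.br (nat_lit 4) (.cons (.rel (nat_lit 1077941376)) .nil)) .nil)) (.node (.node (.node .leaf (nat_lit 3302841280462848) (.br (nat_lit 0) (.cons (.br (nat_lit 1) (.cons (.rel (nat_lit 25165842)) .nil)) .nil)) .leaf) (nat_lit 3302841280482665) (.br (nat_lit 1) (.cons (.br (nat_lit 4) (.cons (.rel (nat_lit 1090539522)) .nil)) .nil)) .leaf) (nat_lit 3302841280618496) (.br (nat_lit 1) (.cons (.br (nat_lit 2) (.cons (.rel (nat_lit 100663377)) (.cons (.br (nat_lit 5) (.cons (.rel (nat_lit 4362093696)) (.cons (.rel (nat_lit 4362093696)) (.cons (.rel (nat_lit 4362108960)) (.cons (.rel (nat_lit 8623490049)) (.cons (.rel (nat_lit 8607236112)) (.cons (.rel (nat_lit 4328783904)) .nil))))))) (.cons (.rel (nat_lit 151257360))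 .nil)))) (.cons (.br (nat_lit 2) (.cons (.rel (nat_lit 83886468)) (.cons (.rel (nat_lit 100667520)) (.cons (.rel (nat_lit 83886468)) .nil)))) .nil))) (.node (.node .leaf (nat_lit 3302841281904640) (.br (nat_lit 0) (.cons (.br (nat_lit 1) (.cons (.rel (nat_lit 25165842)) .nil)) .nil)) .leaf) (nat_lit 3302841282738176) (.br (nat_lit 0) (.cons (.br (nat_lit 1) (.cons (.rel (nat_lit 37748769)) .nil)) .nil)) .leaf))) (nat_lit 3302841282739737) (.br (nat_lit 0) (.cons (.br (nat_lit 1) (.cons (.rel (nat_lit 22093824)) .nil)) .nil)) (.node (.node (.node (.node .leaf (nat_lit 3302842259177472) (.br (nat_lit 1) (.cons (.br (nat_lit 2) (.cons (.rel (nat_lit 84934662)) .nil)) .nil)) .leaf) (nat_lit 3302844208242688) (.br (nat_lit 1) (.cons (.br (nat_lit 4) (.cons (.br (nat_lit 0) (.cons (.rel (nat_lit 42206208)) (.cons (.br (nat_lit 3) (.cons (.rel (nat_lit 285344784)) (.cons (.rel (nat_lit 272631936)) (.cons (.rel (nat_lit 545260608)) (.cons (.rel (nat_lit 1610678352)) .nil))))) (.cons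 (.rel (nat_lit 1077937233)) .nil)))) (.cons (.rel (nat_lit 1107623952)) .nil))) .nil)) .leaf) (nat_lit 3302844210362368) (.br (nat_lit 0) (.cons (.br (nat_lit 4) (.cons (.rel (nat_lit 1078003728)) (.cons (.rel (nat_lit 1077941376)) .nil))) (.cons (.br (nat_lit 1) (.cons (.rel (nat_lit 21004545)) (.cons (.rel (nat_lit 21037344)) .nil))) .nil))) (.node (.node .leaf (nat_lit 3302844210665472) (.br (nat_lit 6) (.cons (.br (nat_lit 1) (.cons (.rel (nat_lit 17196777480)) (.cons (.rel (nat_lit 17196720129)) .nil))) .nil)) .leaf) (nat_lit 3302844210665774) (.br (nat_lit 0) (.cons (.br (nat_lit 3) (.cons (.rel (nat_lit 272647200)) (.cons (.rel (nat_lit 272631936)) .nil))) (.cons (.br (nat_lit 3) (.cons (.rel (nat_lit 545260608)) (.cons (.rel (nat_lit 272647200)) .nil))) .nil))) .leaf)) (nat_lit 3302848190756864) (.br (nat_lit 1) (.cons (.br (nat_lit 4) (.cons (.rel (nat_lit 2164262160)) .nil)) .nil)) (.node (.node (.node .leaf (nat_lit 3303107501591288) (.br (nat_lit 0) (.cons (.br (nat_lit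 1) (.cons (.rel (nat_lit 21004545)) .nil)) .nil)) .leaf) (nat_lit 3303107502349720) (.br (nat_lit 1) (.cons (.br (nat_lit 2) (.cons (.rel (nat_lit 84952128)) .nil)) .nil)) .leaf) (nat_lit 3303107503784238) (.br (nat_lit 0) (.cons (.br (nat_lit 4) (.cons (.rel (nat_lit 1078001670)) .nil)) .nil)) (.node (.node .leaf (nat_lit 3303107503784696) (.br (nat_lit 0) (.cons (.br (nat_lit 1) (.cons (.rel (nat_lit 22093824)) .nil)) .nil)) .leaf) (nat_lit 3303107504094459) (.br (nat_lit 0) (.cons (.br (nat_lit 1) (.cons (.rel (nat_lit 42206208)) .nil)) .nil)) .leaf))))))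

/-- refutations 16 -/
def e16 : EX := (.node (.node (.node (.node .leaf (nat_lit 4434327302347027) (.br (nat_lit 3) (.cons (.br (nat_lit 5) (.cons (.rel (nat_lit 8858501124)) (.cons (.br (nat_lit 4) (.cons (.rel (nat_lit 6442467330)) (.cons (.rel (nat_lit 5368709640)) .nil))) .nil))) (.cons (.br (nat_lit 4) (.cons (.rel (nat_lit 2415919176)) (.cons (.rel (nat_lit 2415928320)) .nil))) .nil))) .leaf) (nat_lit 4434391051574048) (.br (nat_lit 0) (.cons (.br (nat_lit 5) (.cons (.rel (nat_lit 8598324240)) (.cons (.rel (nat_lit 4300489728)) .nil))) .nil)) (.node .leaf (nat_lit 4439725399388971) (.br (nat_lit 0) (.cons (.br (nat_lit 6) (.cons (.rel (nat_lit 34368147456)) .nil)) .nil)) .leaf)) (nat_lit 4439725400955055) (.br (nat_lit 0) (.cons (.br (nat_lit 6) (.cons (.rel (nat_lit 17188536324)) (.cons (.rel (nat_lit 17184080898)) .nil))) (.cons (.br (nat_lit 1) (.cons (.rel (nat_lit 42206208)) (.cons (.rel (nat_lit 37748769)) .nil))) .nil))) (.node (.node .leaf (nat_lit 4439725400955680)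 (.br (nat_lit 1) (.cons (.br (nat_lit 6) (.cons (.rel (nat_lit 17196720129)) .nil)) .nil)) .leaf) (nat_lit 4439725400956416) (.br (nat_lit 0) (.cons (.br (nat_lit 1) (.cons (.rel (nat_lit 37749780)) .nil)) .nil)) (.node .leaf (nat_lit 4439725401104559) (.br (nat_lit 0) (.cons (.br (nat_lit 4) (.cons (.rel (nat_lit 1077944328)) .nil)) .nil)) .leaf))) (nat_lit 4439765570018180) (.br (nat_lit 0) (.cons (.br (nat_lit 1) (.cons (.rel (nat_lit 22093824)) .nil)) .nil)) (.node (.node (.node .leaf (nat_lit 4441194279428382) (.br (nat_lit 4) (.cons (.br (nat_lit 5) (.cons (.rel (nat_lit 10737418500)) .nil)) .nil)) .leaf) (nat_lit 4446339650590971) (.br (nat_lit 0) (.cons (.br (nat_lit 3) (.cons (.rel (nat_lit 272633877)) .nil)) .nil)) (.node .leaf (nat_lit 4446339650592156) (.br (nat_lit 3) (.cons (.br (nat_lit 1) (.cons (.rel (nat_lit 285279300)) (.cons (.rel (nat_lit 570445824)) .nil))) .nil)) .leaf)) (nat_lit 4446382597868956) (.br (nat_lit 0) (.cons (.br (nat_lit 1) (.cons (.rel (nat_lit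 42206208)) .nil)) .nil)) (.node (.node .leaf (nat_lit 4446562569460344) (.br (nat_lit 5) (.cons (.br (nat_lit 0) (.cons (.rel (nat_lit 8595193860)) (.cons (.rel (nat_lit 8598339648)) .nil))) .nil)) .leaf) (nat_lit 4446562569680903) (.br (nat_lit 0) (.cons (.br (nat_lit 5) (.cons (.rel (nat_lit 8594653185)) .nil)) .nil)) .leaf)))

/-- refutations 17 -/
def e17 : EX := (.node (.node (.node (.node (.node (.node (.node (.node .leaf (nat_lit 4574458522120192) (.br (nat_lit 6) (.cons (.br (nat_lit 3) (.cons (.rel (nat_lit 17448322656)) (.cons (.rel (nat_lit 17448588288)) .nil))) .nil)) .leaf) (nat_lit 4574458522435584) (.br (nat_lit 3) (.cons (.br (nat_lit 5) (.cons (.rel (nat_lit 4564468992)) .nil)) .nil)) .leaf) (nat_lit 4574458522468654) (.br (nat_lit 4) (.cons (.br (nat_lit 5) (.cons (.rel (nat_lit 6442467330)) .nil)) .nil)) (.node (.node .leaf (nat_lit 4574458522624000) (.br (nat_lit 4) (.cons (.br (nat_lit 6) (.cons (.rel (nat_lit 36508289028)) (.cons (.rel (nat_lit 18253874178))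 .nil))) (.cons (.br (nat_lit 5) (.cons (.rel (nat_lit 6442456065)) (.cons (.rel (nat_lit 6442456065)) .nil))) .nil))) .leaf) (nat_lit 4574458522631424) (.br (nat_lit 0) (.cons (.br (nat_lit 2) (.cons (.rel (nat_lit 71307540)) .nil)) .nil)) .leaf)) (nat_lit 4574458522642438) (.br (nat_lit 4) (.cons (.br (nat_lit 0) (.cons (.rel (nat_lit 1077937233)) (.cons (.rel (nat_lit 2155876356)) .nil))) .nil)) (.node (.node (.node .leaf (nat_lit 4574458522642444) (.br (nat_lit 4) (.cons (.br (nat_lit 6) (.cons (.rel (nat_lit 18254676288)) (.cons (.rel (nat_lit 18254676288)) .nil))) .nil)) .leaf) (nat_lit 4574458522642609) (.br (nat_lit 2) (.cons (.br (nat_lit 3) (.cons (.rel (nat_lit 335544342)) .nil)) .nil)) .leaf) (nat_lit 4574458522745137) (.br (nat_lit 2) (.cons (.br (nat_lit 3) (.cons (.rel (nat_lit 336872448)) .nil)) .nil)) (.node (.node .leaf (nat_lit 4574458523450275) (.br (nat_lit 4) (.cons (.br (nat_lit 5) (.cons (.rel (nat_lit 5368709640)) .nil)) .nil)) .leaf) (nat_lit 4574458523910144)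 (.br (nat_lit 6) (.cons (.br (nat_lit 4) (.cons (.rel (nat_lit 18253627905)) (.cons (.rel (nat_lit 18253874178)) (.cons (.rel (nat_lit 18255773700)) .nil)))) (.cons (.br (nat_lit 4) (.cons (.rel (nat_lit 18253616640)) (.cons (.rel (nat_lit 18253874178)) (.cons (.rel (nat_lit 18253616640)) .nil)))) .nil))) .leaf))) (nat_lit 4574458524672000) (.br (nat_lit 3) (.cons (.br (nat_lit 4) (.cons (.rel (nat_lit 1610630145)) .nil)) .nil)) (.node (.node (.node (.node .leaf (nat_lit 4574458524743680) (.br (nat_lit 1) (.cons (.br (nat_lit 4) (.cons (.rel (nat_lit 1090520160)) (.cons (.rel (nat_lit 2181055488)) .nil))) (.cons (.br (nat_lit 4) (.cons (.rel (nat_lit 1090519113)) (.cons (.rel (nat_lit 1090539522)) .nil))) .nil))) .leaf) (nat_lit 4574458524743831) (.br (nat_lit 3) (.cons (.br (nat_lit 4) (.cons (.rel (nat_lit 1342455888)) .nil)) .nil)) .leaf) (nat_lit 4574458525046784) (.br (nat_lit 4) (.cons (.br (nat_lit 6) (.cons (.rel (nat_lit 18253616640)) (.cons (.rel (nat_lit 18253873176))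 (.cons (.rel (nat_lit 19327373328)) .nil)))) (.cons (.br (nat_lit 6) (.cons (.rel (nat_lit 18255773700)) (.cons (.rel (nat_lit 35433484308)) (.cons (.rel (nat_lit 18253627905)) .nil)))) (.cons (.br (nat_lit 6) (.cons (.rel (nat_lit 18255773700)) (.cons (.rel (nat_lit 19327373328)) (.cons (.rel (nat_lit 18253616640)) .nil)))) .nil)))) (.node (.node .leaf (nat_lit 4574458525046935) (.br (nat_lit 2) (.cons (.br (nat_lit 4) (.cons (.rel (nat_lit 2214613248)) (.cons (.rel (nat_lit 2214613248)) .nil))) .nil)) .leaf) (nat_lit 4574458525046966) (.br (nat_lit 1) (.cons (.br (nat_lit 2) (.cons (.rel (nat_lit 168050688)) .nil)) .nil)) .leaf)) (nat_lit 4574458525047066) (.br (nat_lit 0) (.cons (.br (nat_lit 3) (.cons (.rel (nat_lit 272647200)) .nil)) .nil)) (.node (.node (.node .leaf (nat_lit 4574458525047086) (.br (nat_lit 1) (.cons (.br (nat_lit 5) (.cons (.rel (nat_lit 4311760968)) .nil)) .nil)) .leaf) (nat_lit 4574458525047584) (.br (nat_lit 0) (.cons (.br (nat_lit 2) (.cons (.rel (nat_lit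 71827524)) .nil)) .nil)) .leaf) (nat_lit 4574458525047695) (.br (nat_lit 2) (.cons (.br (nat_lit 6) (.cons (.rel (nat_lit 34427904000)) .nil)) .nil)) (.node (.node .leaf (nat_lit 4574458525048045) (.br (nat_lit 2) (.cons (.br (nat_lit 6) (.cons (.rel (nat_lit 17246978085)) .nil)) .nil)) .leaf) (nat_lit 4574458525202432) (.br (nat_lit 4) (.cons (.br (nat_lit 6) (.cons (.rel (nat_lit 19327385604)) (.cons (.rel (nat_lit 36508289028)) (.cons (.rel (nat_lit 19327353921)) (.cons (.rel (nat_lit 19327385604)) .nil))))) (.cons (.br (nat_lit 5) (.cons (.rel (nat_lit 10737418500)) (.cons (.rel (nat_lit 5368709640)) (.cons (.rel (nat_lit 5369778432)) .nil)))) .nil))) .leaf)))) (nat_lit 4574458525202583) (.br (nat_lit 1) (.cons (.br (nat_lit 4) (.cons (.rel (nat_lit 2181055488)) .nil)) .nil)) (.node (.node (.node (.node (.node .leaf (nat_lit 4574463459164160) (.br (nat_lit 0) (.cons (.br (nat_lit 1) (.cons (.rel (nat_lit 21004545)) .nil)) .nil)) .leaf) (nat_lit 4574463461898240) (.br (nat_lit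 1) (.cons (.br (nat_lit 4) (.cons (.rel (nat_lit 1090528257)) .nil)) .nil)) .leaf) (nat_lit 4574489228967936) (.br (nat_lit 1) (.cons (.br (nat_lit 2) (.cons (.rel (nat_lit 168050688)) .nil)) .nil)) (.node (.node .leaf (nat_lit 4574489229989888) (.br (nat_lit 1) (.cons (.br (nat_lit 2) (.cons (.rel (nat_lit 100745280)) .nil)) .nil)) .leaf) (nat_lit 4574489230157824) (.br (nat_lit 0) (.cons (.br (nat_lit 2) (.cons (.rel (nat_lit 71435520)) .nil)) .nil)) .leaf)) (nat_lit 4574489231546380) (.br (nat_lit 3) (.cons (.br (nat_lit 4) (.cons (.rel (nat_lit 1610678352)) .nil)) .nil)) (.node (.node (.node .leaf (nat_lit 4574489231702016) (.br (nat_lit 3) (.cons (.br (nat_lit 6) (.cons (.rel (nat_lit 17448307200)) .nil)) .nil)) .leaf) (nat_lit 4575060371189760) (.br (nat_lit 4) (.cons (.br (nat_lit 2) (.cons (.rel (nat_lit 1140918336)) (.cons (.rel (nat_lit 1140924420)) (.cons (.rel (nat_lit 1140851841)) .nil)))) .nil)) .leaf) (nat_lit 4575060371191267) (.br (nat_lit 6) (.cons (.br (nat_lit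 0) (.cons (.rel (nat_lit 17184327936)) (.cons (.rel (nat_lit 17184069633)) .nil))) .nil)) (.node (.node .leaf (nat_lit 4575060371505152) (.br (nat_lit 2) (.cons (.br (nat_lit 4) (.cons (.rel (nat_lit 1140868116)) (.cons (.rel (nat_lit 1140868116)) (.cons (.rel (nat_lit 1140918336)) .nil)))) (.cons (.br (nat_lit 4) (.cons (.rel (nat_lit 1140855840)) (.cons (.rel (nat_lit 1207966209)) (.cons (.rel (nat_lit 1140851841)) .nil)))) .nil))) .leaf) (nat_lit 4575060371506713) (.br (nat_lit 0) (.cons (.br (nat_lit 3) (.cons (.rel (nat_lit 273973248)) .nil)) .nil)) .leaf))) (nat_lit 4575060371538702) (.br (nat_lit 1) (.cons (.br (nat_lit 2) (.cons (.rel (nat_lit 84934662)) .nil)) .nil)) (.node (.node (.node (.node .leaf (nat_lit 4575060371694329) (.br (nat_lit 3) (.cons (.br (nat_lit 6) (.cons (.rel (nat_lit 17448632352)) .nil)) .nil)) .leaf) (nat_lit 4575060371694943) (.br (nat_lit 0) (.cons (.br (nat_lit 2) (.cons (.rel (nat_lit 71435520)) (.cons (.rel (nat_lit 75763968)) .nil))) .nil))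 .leaf) (nat_lit 4575060372766720) (.br (nat_lit 3) (.cons (.br (nat_lit 4) (.cons (.rel (nat_lit 1610618880)) .nil)) .nil)) (.node (.node .leaf (nat_lit 4575060372979712) (.br (nat_lit 2) (.cons (.br (nat_lit 1) (.cons (.rel (nat_lit 85262592)) (.cons (.rel (nat_lit 100729872)) (.cons (.rel (nat_lit 83892480)) (.cons (.rel (nat_lit 83892480)) .nil))))) (.cons (.br (nat_lit 1) (.cons (.rel (nat_lit 168050688)) (.cons (.rel (nat_lit 151080960)) (.cons (.rel (nat_lit 83886468)) (.cons (.rel (nat_lit 83892480)) .nil))))) (.cons (.br (nat_lit 1) (.cons (.rel (nat_lit 83951952)) (.cons (.rel (nat_lit 83886468)) (.cons (.rel (nat_lit 83951952)) (.cons (.rel (nat_lit 83892480)) .nil))))) .nil)))) .leaf) (nat_lit 4575060372981273) (.br (nat_lit 0) (.cons (.br (nat_lit 1) (.cons (.rel (nat_lit 20971860)) .nil)) .nil)) .leaf)) (nat_lit 4575060373097228) (.br (nat_lit 2) (.cons (.br (nat_lit 3) (.cons (.rel (nat_lit 335545353)) .nil)) .nil)) (.node (.node (.node .leaf (nat_lit 4575060374117112)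 (.br (nat_lit 1) (.cons (.br (nat_lit 3) (.cons (.rel (nat_lit 285278289)) .nil)) .nil)) .leaf) (nat_lit 4575060374272000) (.br (nat_lit 1) (.cons (.br (nat_lit 5) (.cons (.rel (nat_lit 4311876672)) (.cons (.rel (nat_lit 4311770112)) .nil))) (.cons (.br (nat_lit 5) (.cons (.rel (nat_lit 4311811236)) (.cons (.rel (nat_lit 8606712129)) .nil))) .nil))) .leaf) (nat_lit 4575060374272182) (.br (nat_lit 3) (.cons (.br (nat_lit 5) (.cons (.rel (nat_lit 4563468816)) .nil)) .nil)) (.node (.node .leaf (nat_lit 4575060374272761) (.br (nat_lit 2) (.cons (.br (nat_lit 3) (.cons (.rel (nat_lit 403702080)) .nil)) .nil)) .leaf) (nat_lit 4575060374304919) (.br (nat_lit 1) (.cons (.br (nat_lit 6) (.cons (.rel (nat_lit 17196646548)) (.cons (.rel (nat_lit 17196646548)) .nil))) .nil)) .leaf))))) (nat_lit 4575060597793548) (.br (nat_lit 0) (.cons (.br (nat_lit 1) (.cons (.rel (nat_lit 20971860)) .nil)) .nil)) (.node (.node (.node (.node (.node (.node .leaf (nat_lit 4575060597794293) (.br (nat_lit 3)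 (.cons (.br (nat_lit 1) (.cons (.rel (nat_lit 285229080)) (.cons (.rel (nat_lit 302252160)) .nil))) .nil)) .leaf) (nat_lit 4575060598185984) (.br (nat_lit 3) (.cons (.br (nat_lit 4) (.cons (.rel (nat_lit 2684420352)) .nil)) .nil)) .leaf) (nat_lit 4575060599012853) (.br (nat_lit 0) (.cons (.br (nat_lit 2) (.cons (.rel (nat_lit 71319816)) .nil)) .nil)) (.node (.node .leaf (nat_lit 4575060600234266) (.br (nat_lit 1) (.cons (.br (nat_lit 4) (.cons (.rel (nat_lit 2181055488)) .nil)) .nil)) .leaf) (nat_lit 4575060600608768) (.br (nat_lit 2) (.cons (.br (nat_lit 5) (.cons (.rel (nat_lit 4362084372)) (.cons (.rel (nat_lit 4362096648)) .nil))) (.cons (.br (nat_lit 5) (.cons (.rel (nat_lit 4362108960)) (.cons (.rel (nat_lit 4362108960)) .nil))) .nil))) .leaf)) (nat_lit 4575060600609018) (.br (nat_lit 3) (.cons (.br (nat_lit 5) (.cons (.rel (nat_lit 4563468816)) .nil)) .nil)) (.node (.node (.node .leaf (nat_lit 4575060600609050) (.br (nat_lit 1) (.cons (.br (nat_lit 3) (.cons (.rel (nat_lit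 285212805)) .nil)) .nil)) .leaf) (nat_lit 4575060600609400) (.br (nat_lit 0) (.cons (.br (nat_lit 1) (.cons (.rel (nat_lit 42206208)) (.cons (.rel (nat_lit 37748769)) .nil))) .nil)) .leaf) (nat_lit 4575060600610293) (.br (nat_lit 0) (.cons (.br (nat_lit 1) (.cons (.rel (nat_lit 20993280)) .nil)) .nil)) (.node (.node .leaf (nat_lit 4575060600764416) (.br (nat_lit 4) (.cons (.br (nat_lit 5) (.cons (.rel (nat_lit 9663709185)) (.cons (.rel (nat_lit 10737418500)) .nil))) (.cons (.br (nat_lit 5) (.cons (.br (nat_lit 3) (.cons (.rel (nat_lit 9127350288)) (.cons (.rel (nat_lit 4563468816)) (.cons (.rel (nat_lit 1342440480)) .nil)))) (.cons (.rel (nat_lit 5369106432)) .nil))) .nil))) .leaf) (nat_lit 4575060600797466) (.br (nat_lit 0) (.cons (.br (nat_lit 2) (.cons (.rel (nat_lit 138416130)) .nil)) .nil)) .leaf))) (nat_lit 4575060600805376) (.br (nat_lit 0) (.cons (.br (nat_lit 3) (.cons (.rel (nat_lit 272631936)) (.cons (.rel (nat_lit 277348608)) .nil))) (.cons (.br (nat_lit 2) (.cons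 (.rel (nat_lit 71827524)) (.cons (.rel (nat_lit 75763968)) .nil))) .nil))) (.node (.node (.node (.node .leaf (nat_lit 4575060600805562) (.br (nat_lit 1) (.cons (.br (nat_lit 6) (.cons (.rel (nat_lit 17213948160)) .nil)) .nil)) .leaf) (nat_lit 4575060600805658) (.br (nat_lit 5) (.cons (.br (nat_lit 0) (.cons (.rel (nat_lit 8594137344)) (.cons (.rel (nat_lit 8594653185)) .nil))) .nil)) .leaf) (nat_lit 4575062569095168) (.br (nat_lit 0) (.cons (.br (nat_lit 1) (.cons (.rel (nat_lit 22024197)) (.cons (.rel (nat_lit 20971860)) .nil))) .nil)) (.node (.node .leaf (nat_lit 4575062570375168) (.br (nat_lit 1) (.cons (.br (nat_lit 6) (.cons (.rel (nat_lit 17196777480)) .nil)) .nil)) .leaf) (nat_lit 4575062570796295) (.br (nat_lit 4) (.cons (.br (nat_lit 6) (.cons (.rel (nat_lit 18253873176)) .nil)) .nil)) .leaf)) (nat_lit 4575062570856448) (.br (nat_lit 4) (.cons (.br (nat_lit 1) (.cons (.rel (nat_lit 1090553856)) (.cons (.rel (nat_lit 1107558468)) .nil))) .nil)) (.node (.node (.node .leaf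 (nat_lit 4575062571565056) (.br (nat_lit 1) (.cons (.br (nat_lit 4) (.cons (.rel (nat_lit 1107623952)) .nil)) .nil)) .leaf) (nat_lit 4575062571931648) (.br (nat_lit 3) (.cons (.br (nat_lit 5) (.cons (.rel (nat_lit 4563681288)) .nil)) .nil)) .leaf) (nat_lit 4575062571931823) (.br (nat_lit 1) (.cons (.br (nat_lit 3) (.cons (.rel (nat_lit 285229080)) .nil)) .nil)) (.node (.node .leaf (nat_lit 4575062571933153) (.br (nat_lit 1) (.cons (.br (nat_lit 5) (.cons (.rel (nat_lit 4328783904)) .nil)) .nil)) .leaf) (nat_lit 4575063005212672) (.br (nat_lit 4) (.cons (.br (nat_lit 5) (.cons (.rel (nat_lit 5369036805)) (.cons (.rel (nat_lit 10737418500)) (.cons (.rel (nat_lit 5368972368)) .nil)))) .nil)) .leaf)))) (nat_lit 4575063005214177) (.br (nat_lit 1) (.cons (.br (nat_lit 4) (.cons (.rel (nat_lit 1090519113)) .nil)) .nil)) (.node (.node (.node (.node (.node .leaf (nat_lit 4575063005326749) (.br (nat_lit 0) (.cons (.br (nat_lit 1) (.cons (.rel (nat_lit 37749780)) .nil)) .nil)) .leaf) (nat_lit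 4575063005521920) (.br (nat_lit 5) (.cons (.br (nat_lit 1) (.cons (.rel (nat_lit 4313059332)) (.cons (.rel (nat_lit 4313059332)) .nil))) .nil)) .leaf) (nat_lit 4575063005523352) (.br (nat_lit 0) (.cons (.br (nat_lit 1) (.cons (.rel (nat_lit 21037344)) .nil)) .nil)) (.node (.node .leaf (nat_lit 4575063005528064) (.br (nat_lit 4) (.cons (.br (nat_lit 0) (.cons (.rel (nat_lit 1077937233)) (.cons (.rel (nat_lit 1077938244)) (.cons (.rel (nat_lit 1077937233)) (.cons (.rel (nat_lit 1077938244)) .nil))))) .nil)) .leaf) (nat_lit 4575063005560983) (.br (nat_lit 0) (.cons (.br (nat_lit 4) (.cons (.rel (nat_lit 1078001670)) .nil)) .nil)) .leaf)) (nat_lit 4575063005561112) (.br (nat_lit 0) (.cons (.br (nat_lit 1) (.cons (.rel (nat_lit 22282500)) .nil)) .nil)) (.node (.node (.node .leaf (nat_lit 4575063005716480) (.br (nat_lit 0) (.cons (.br (nat_lit 6) (.cons (.rel (nat_lit 17184079896)) (.cons (.rel (nat_lit 17188258368)) .nil))) .nil)) .leaf) (nat_lit 4575063005723535) (.br (nat_lit 1)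 (.cons (.br (nat_lit 3) (.cons (.rel (nat_lit 286261764)) .nil)) .nil)) .leaf) (nat_lit 4575063005736344) (.br (nat_lit 0) (.cons (.br (nat_lit 1) (.cons (.rel (nat_lit 22037520)) .nil)) .nil)) (.node (.node .leaf (nat_lit 4575063005838814) (.br (nat_lit 1) (.cons (.br (nat_lit 4) (.cons (.rel (nat_lit 1090654224)) (.cons (.rel (nat_lit 1107623952)) .nil))) .nil)) .leaf) (nat_lit 4575063006480509) (.br (nat_lit 0) (.cons (.br (nat_lit 1) (.cons (.rel (nat_lit 42206208)) .nil)) .nil)) .leaf))) (nat_lit 4575063006481886) (.br (nat_lit 2) (.cons (.br (nat_lit 3) (.cons (.rel (nat_lit 335544342)) .nil)) .nil)) (.node (.node (.node (.node .leaf (nat_lit 4575063006582784) (.br (nat_lit 5) (.cons (.br (nat_lit 0) (.cons (.rel (nat_lit 4299232260)) (.cons (.rel (nat_lit 8595193860)) .nil))) .nil)) .leaf) (nat_lit 4575063006582935) (.br (nat_lit 0) (.cons (.br (nat_lit 2) (.cons (.rel (nat_lit 71435520)) .nil)) .nil)) .leaf) (nat_lit 4575063006583064) (.br (nat_lit 0) (.cons (.br (nat_lit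 2) (.cons (.rel (nat_lit 71307540)) .nil)) .nil)) (.node (.node .leaf (nat_lit 4575063006583544) (.br (nat_lit 4) (.cons (.br (nat_lit 5) (.cons (.rel (nat_lit 5369778432)) (.cons (.rel (nat_lit 5370822672)) .nil))) (.cons (.br (nat_lit 0) (.cons (.rel (nat_lit 2151679233)) (.cons (.rel (nat_lit 1078003728)) (.cons (.rel (nat_lit 1077968916)) .nil)))) .nil))) .leaf) (nat_lit 4575063006738432) (.br (nat_lit 0) (.cons (.br (nat_lit 4) (.cons (.rel (nat_lit 1077944328)) (.cons (.rel (nat_lit 1077937233)) .nil))) (.cons (.br (nat_lit 4) (.cons (.rel (nat_lit 1077938244)) (.cons (.rel (nat_lit 1077938244)) .nil))) .nil))) .leaf)) (nat_lit 4575063006739192) (.br (nat_lit 2) (.cons (.br (nat_lit 5) (.cons (.rel (nat_lit 8724168720)) .nil)) .nil)) (.node (.node (.node .leaf (nat_lit 4575063006739937) (.br (nat_lit 4) (.cons (.br (nat_lit 2) (.cons (.rel (nat_lit 1140918336)) (.cons (.rel (nat_lit 1140851841)) .nil))) .nil)) .leaf) (nat_lit 4575063006750720) (.br (nat_lit 5) (.cons (.br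 (nat_lit 1) (.cons (.rel (nat_lit 8623490049)) (.cons (.rel (nat_lit 4311770112)) .nil))) .nil)) .leaf) (nat_lit 4575063006789632) (.br (nat_lit 0) (.cons (.br (nat_lit 1) (.cons (.rel (nat_lit 21497856)) (.cons (.rel (nat_lit 20993280)) .nil))) (.cons (.br (nat_lit 1) (.cons (.rel (nat_lit 22024197)) (.cons (.rel (nat_lit 21497856)) .nil))) .nil))) (.node .leaf (nat_lit 4575063007002624) (.br (nat_lit 1) (.cons (.br (nat_lit 2) (.cons (.rel (nat_lit 100664388)) (.cons (.rel (nat_lit 84934662)) (.cons (.rel (nat_lit 168050688)) .nil)))) .nil)) .leaf)))))) (nat_lit 4575063007064064) (.br (nat_lit 0) (.cons (.br (nat_lit 4) (.cons (.rel (nat_lit 1079247873)) .nil)) .nil)) (.node (.node (.node (.node (.node (.node (.node .leaf (nat_lit 4575063007064824) (.br (nat_lit 1) (.cons (.br (nat_lit 6) (.cons (.rel (nat_lit 17196650502)) .nil)) .nil)) .leaf) (nat_lit 4575063007065500) (.br (nat_lit 0) (.cons (.br (nat_lit 6) (.cons (.rel (nat_lit 34368147456)) .nil)) .nil)) .leaf) (nat_lit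 4575063007764480) (.br (nat_lit 4) (.cons (.br (nat_lit 0) (.cons (.rel (nat_lit 1077938244)) (.cons (.rel (nat_lit 1077937233)) .nil))) .nil)) (.node (.node .leaf (nat_lit 4575063008133120) (.br (nat_lit 1) (.cons (.br (nat_lit 4) (.cons (.rel (nat_lit 1090520160)) .nil)) .nil)) .leaf) (nat_lit 4575063008134407) (.br (nat_lit 0) (.cons (.br (nat_lit 2) (.cons (.rel (nat_lit 75563016)) .nil)) .nil)) .leaf)) (nat_lit 4575063008139264) (.br (nat_lit 1) (.cons (.br (nat_lit 3) (.cons (.rel (nat_lit 285253632)) (.cons (.rel (nat_lit 285218817)) (.cons (.rel (nat_lit 285278289)) .nil)))) (.cons (.br (nat_lit 3) (.cons (.rel (nat_lit 285369348)) (.cons (.rel (nat_lit 285212805)) (.cons (.rel (nat_lit 285212805)) .nil)))) (.cons (.br (nat_lit 3) (.cons (.rel (nat_lit 285279300)) (.cons (.rel (nat_lit 302252160)) (.cons (.rel (nat_lit 285279300)) .nil)))) .nil)))) (.node (.node (.node .leaf (nat_lit 4575063008139446) (.br (nat_lit 0) (.cons (.br (nat_lit 3) (.cons (.rel (nat_lit 272631936))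 (.cons (.rel (nat_lit 545260608)) .nil))) (.cons (.br (nat_lit 3) (.cons (.rel (nat_lit 273973248)) (.cons (.rel (nat_lit 272631936)) .nil))) .nil))) .leaf) (nat_lit 4575063008140024) (.br (nat_lit 2) (.cons (.br (nat_lit 5) (.cons (.rel (nat_lit 4362096648)) .nil)) .nil)) .leaf) (nat_lit 4575063008140175) (.br (nat_lit 0) (.cons (.br (nat_lit 1) (.cons (.rel (nat_lit 20993280)) (.cons (.rel (nat_lit 37748769)) .nil))) .nil)) (.node (.node .leaf (nat_lit 4575063008140769) (.br (nat_lit 1) (.cons (.br (nat_lit 4) (.cons (.rel (nat_lit 1090666500)) (.cons (.rel (nat_lit 1090520160)) .nil))) (.cons (.br (nat_lit 2) (.cons (.rel (nat_lit 83886468)) (.cons (.rel (nat_lit 84934662)) .nil))) .nil))) .leaf) (nat_lit 4575063008294912) (.br (nat_lit 0) (.cons (.br (nat_lit 1) (.cons (.rel (nat_lit 22093824)) (.cons (.rel (nat_lit 22093824)) (.cons (.rel (nat_lit 42206208)) .nil)))) (.cons (.br (nat_lit 1) (.cons (.rel (nat_lit 22093824)) (.cons (.rel (nat_lit 25166853)) (.cons (.rel (nat_lit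 22282500)) .nil)))) .nil))) .leaf))) (nat_lit 4575063008295214) (.br (nat_lit 0) (.cons (.br (nat_lit 4) (.cons (.rel (nat_lit 1077937233)) .nil)) .nil)) (.node (.node (.node (.node .leaf (nat_lit 4575063008295672) (.br (nat_lit 1) (.cons (.br (nat_lit 3) (.cons (.rel (nat_lit 286261764)) (.cons (.rel (nat_lit 285344784)) .nil))) (.cons (.br (nat_lit 3) (.cons (.rel (nat_lit 304087056)) (.cons (.rel (nat_lit 570445824)) .nil))) .nil))) .leaf) (nat_lit 4575063008295823) (.br (nat_lit 0) (.cons (.br (nat_lit 3) (.cons (.rel (nat_lit 272631936)) .nil)) .nil)) .leaf) (nat_lit 4575063008296344) (.br (nat_lit 0) (.cons (.br (nat_lit 1) (.cons (.rel (nat_lit 20971860)) .nil)) .nil)) (.node (.node .leaf (nat_lit 4575063008296417) (.br (nat_lit 0) (.cons (.br (nat_lit 2) (.cons (.rel (nat_lit 75563016)) .nil)) .nil)) .leaf) (nat_lit 4575063008327680) (.br (nat_lit 0) (.cons (.br (nat_lit 4) (.cons (.rel (nat_lit 1077938244)) .nil)) .nil)) .leaf)) (nat_lit 4575063008327966) (.br (nat_lit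 1) (.cons (.br (nat_lit 5) (.cons (.rel (nat_lit 8623490049)) (.cons (.rel (nat_lit 8623490049)) .nil))) .nil)) (.node (.node (.node .leaf (nat_lit 4575063118754552) (.br (nat_lit 1) (.cons (.br (nat_lit 3) (.cons (.rel (nat_lit 285278289)) .nil)) .nil)) .leaf) (nat_lit 4575063118981927) (.br (nat_lit 0) (.cons (.br (nat_lit 1) (.cons (.rel (nat_lit 25236480)) .nil)) .nil)) .leaf) (nat_lit 4575063118982552) (.br (nat_lit 5) (.cons (.br (nat_lit 0) (.cons (.rel (nat_lit 8598324240)) (.cons (.rel (nat_lit 8594653185)) .nil))) .nil)) (.node (.node .leaf (nat_lit 4575063119803168) (.br (nat_lit 0) (.cons (.br (nat_lit 2) (.cons (.rel (nat_lit 71827524)) .nil)) .nil)) .leaf) (nat_lit 4575063119803873) (.br (nat_lit 0) (.cons (.br (nat_lit 2) (.cons (.rel (nat_lit 72353793)) (.cons (.rel (nat_lit 76808208)) .nil))) .nil)) .leaf)))) (nat_lit 4575063119994357) (.br (nat_lit 3) (.cons (.br (nat_lit 5) (.cons (.rel (nat_lit 8858632449)) .nil)) .nil)) (.node (.node (.node (.node (.node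 .leaf (nat_lit 4575063120310272) (.br (nat_lit 0) (.cons (.br (nat_lit 1) (.cons (.rel (nat_lit 22093824)) (.cons (.rel (nat_lit 21037344)) .nil))) (.cons (.br (nat_lit 1) (.cons (.rel (nat_lit 22024197)) (.cons (.rel (nat_lit 20971860)) .nil))) .nil))) .leaf) (nat_lit 4575063121018880) (.br (nat_lit 0) (.cons (.br (nat_lit 1) (.cons (.rel (nat_lit 20971860)) .nil)) .nil)) .leaf) (nat_lit 4575063121385654) (.br (nat_lit 0) (.cons (.br (nat_lit 1) (.cons (.rel (nat_lit 22024197)) (.cons (.rel (nat_lit 22093824)) .nil))) .nil)) (.node (.node .leaf (nat_lit 4575063121573888) (.br (nat_lit 0) (.cons (.br (nat_lit 5) (.cons (.rel (nat_lit 8598324240)) .nil)) .nil)) .leaf) (nat_lit 4575063121582080) (.br (nat_lit 0) (.cons (.br (nat_lit 5) (.cons (.rel (nat_lit 4299231249)) .nil)) .nil)) .leaf)) (nat_lit 4575065731859214) (.br (nat_lit 4) (.cons (.br (nat_lit 6) (.cons (.rel (nat_lit 18253897728)) .nil)) .nil)) (.node (.node (.node .leaf (nat_lit 4575065731859864) (.br (nat_lit 0)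 (.cons (.br (nat_lit 1) (.cons (.rel (nat_lit 20971860)) .nil)) .nil)) .leaf) (nat_lit 4575065732014382) (.br (nat_lit 2) (.cons (.br (nat_lit 3) (.cons (.rel (nat_lit 335545353)) .nil)) .nil)) .leaf) (nat_lit 4575065732014955) (.br (nat_lit 0) (.cons (.br (nat_lit 2) (.cons (.rel (nat_lit 71827524)) .nil)) .nil)) (.node (.node .leaf (nat_lit 4575065732032524) (.br (nat_lit 1) (.cons (.br (nat_lit 0) (.cons (.rel (nat_lit 22037520)) (.cons (.rel (nat_lit 20993280)) (.cons (.rel (nat_lit 20993280)) (.cons (.rel (nat_lit 37748769)) .nil))))) .nil)) .leaf) (nat_lit 4575065732034073) (.br (nat_lit 1) (.cons (.br (nat_lit 4) (.cons (.rel (nat_lit 1090528257)) .nil)) .nil)) .leaf))) (nat_lit 4575065732855321) (.br (nat_lit 1) (.cons (.br (nat_lit 4) (.cons (.rel (nat_lit 1090528257)) .nil)) .nil)) (.node (.node (.node (.node .leaf (nat_lit 4575065734436876) (.br (nat_lit 1) (.cons (.br (nat_lit 3) (.cons (.rel (nat_lit 570445824)) .nil)) .nil)) .leaf) (nat_lit 4575065734437049) (.br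 (nat_lit 0) (.cons (.br (nat_lit 1) (.cons (.rel (nat_lit 21497856)) .nil)) .nil)) .leaf) (nat_lit 4575065734437114) (.br (nat_lit 2) (.cons (.br (nat_lit 3) (.cons (.rel (nat_lit 335544342)) (.cons (.rel (nat_lit 335544342)) .nil))) .nil)) (.node (.node .leaf (nat_lit 4575065734437624) (.br (nat_lit 1) (.cons (.br (nat_lit 3) (.cons (.rel (nat_lit 553664772)) .nil)) .nil)) .leaf) (nat_lit 4575065734437646) (.br (nat_lit 1) (.cons (.br (nat_lit 2) (.cons (.rel (nat_lit 83951952)) (.cons (.rel (nat_lit 83886468)) .nil))) (.cons (.br (nat_lit 3) (.cons (.rel (nat_lit 285216804)) (.cons (.rel (nat_lit 285216804)) .nil))) .nil))) .leaf)) (nat_lit 4575065734437739) (.br (nat_lit 0) (.cons (.br (nat_lit 3) (.cons (.rel (nat_lit 272631936)) .nil)) .nil)) (.node (.node (.node .leaf (nat_lit 4575065734438151) (.br (nat_lit 0) (.cons (.br (nat_lit 2) (.cons (.rel (nat_lit 72388608)) (.cons (.rel (nat_lit 71319816)) .nil))) .nil)) .leaf) (nat_lit 4575065734592814) (.br (nat_lit 1) (.cons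 (.br (nat_lit 3) (.cons (.rel (nat_lit 286588929)) (.cons (.rel (nat_lit 285216804)) .nil))) (.cons (.br (nat_lit 5) (.cons (.rel (nat_lit 8623490049)) (.cons (.rel (nat_lit 8606712129)) (.cons (.rel (nat_lit 4313059332)) .nil)))) .nil))) .leaf) (nat_lit 4575094177527296) (.br (nat_lit 0) (.cons (.br (nat_lit 1) (.cons (.rel (nat_lit 20971860)) .nil)) .nil)) (.node (.node .leaf (nat_lit 4575094178624268) (.br (nat_lit 1) (.cons (.br (nat_lit 5) (.cons (.rel (nat_lit 8623490049)) .nil)) .nil)) .leaf) (nat_lit 4575094179115919) (.br (nat_lit 0) (.cons (.br (nat_lit 1) (.cons (.rel (nat_lit 20971860)) .nil)) .nil)) .leaf))))) (nat_lit 4575094179848374) (.br (nat_lit 3) (.cons (.br (nat_lit 5) (.cons (.rel (nat_lit 4563669012)) (.cons (.rel (nat_lit 4563403332)) .nil))) .nil)) (.node (.node (.node (.node (.node (.node .leaf (nat_lit 4575094180206774) (.br (nat_lit 0) (.cons (.br (nat_lit 4) (.cons (.rel (nat_lit 1083244800)) .nil)) .nil)) .leaf) (nat_lit 4575094180207392) (.br (nat_lit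 0) (.cons (.br (nat_lit 6) (.cons (.rel (nat_lit 17184211008)) .nil)) .nil)) .leaf) (nat_lit 4575094180207504) (.br (nat_lit 0) (.cons (.br (nat_lit 4) (.cons (.rel (nat_lit 1077938244)) .nil)) .nil)) (.node (.node .leaf (nat_lit 4575094180207853) (.br (nat_lit 0) (.cons (.br (nat_lit 1) (.cons (.rel (nat_lit 20971860)) .nil)) .nil)) .leaf) (nat_lit 4575094180208024) (.br (nat_lit 0) (.cons (.br (nat_lit 1) (.cons (.rel (nat_lit 22037520)) (.cons (.rel (nat_lit 21497856)) .nil))) (.cons (.br (nat_lit 1) (.cons (.rel (nat_lit 42206208)) (.cons (.rel (nat_lit 20971860)) .nil))) .nil))) .leaf)) (nat_lit 4575094180362422) (.br (nat_lit 1) (.cons (.br (nat_lit 4) (.cons (.rel (nat_lit 1090585608)) (.cons (.rel (nat_lit 1090539522)) .nil))) (.cons (.br (nat_lit 4) (.cons (.rel (nat_lit 1090535568)) (.cons (.rel (nat_lit 2181055488)) .nil))) .nil))) (.node (.node (.node .leaf (nat_lit 4575094180363676) (.br (nat_lit 1) (.cons (.br (nat_lit 4) (.cons (.rel (nat_lit 2181055488)) .nil))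 .nil)) .leaf) (nat_lit 4575094180395283) (.br (nat_lit 1) (.cons (.br (nat_lit 3) (.cons (.rel (nat_lit 285212805)) .nil)) .nil)) .leaf) (nat_lit 4575094180395640) (.br (nat_lit 0) (.cons (.br (nat_lit 2) (.cons (.rel (nat_lit 71319816)) .nil)) .nil)) (.node (.node .leaf (nat_lit 4575099116903207) (.br (nat_lit 0) (.cons (.br (nat_lit 2) (.cons (.rel (nat_lit 72353793)) .nil)) .nil)) .leaf) (nat_lit 4575099116903211) (.br (nat_lit 0) (.cons (.br (nat_lit 2) (.cons (.rel (nat_lit 75531264)) .nil)) .nil)) .leaf))) (nat_lit 4576165308979200) (.br (nat_lit 0) (.cons (.br (nat_lit 1) (.cons (.rel (nat_lit 25165842)) .nil)) .nil)) (.node (.node (.node (.node .leaf (nat_lit 4576374737383606) (.br (nat_lit 0) (.cons (.br (nat_lit 1) (.cons (.rel (nat_lit 20993280)) .nil)) .nil)) .leaf) (nat_lit 4576374739155751) (.br (nat_lit 0) (.cons (.br (nat_lit 1) (.cons (.rel (nat_lit 21004545)) .nil)) .nil)) .leaf) (nat_lit 4576387938441367) (.br (nat_lit 1) (.cons (.br (nat_lit 5) (.cons (.rel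 (nat_lit 4311745560)) .nil)) .nil)) (.node (.node .leaf (nat_lit 4576387938596864) (.br (nat_lit 1) (.cons (.br (nat_lit 4) (.cons (.rel (nat_lit 2181055488)) (.cons (.rel (nat_lit 1090654224)) .nil))) .nil)) .leaf) (nat_lit 4576391257908626) (.br (nat_lit 4) (.cons (.br (nat_lit 0) (.cons (.rel (nat_lit 1078329600)) (.cons (.rel (nat_lit 1079001600)) .nil))) .nil)) .leaf)) (nat_lit 4576391257926563) (.br (nat_lit 1) (.cons (.br (nat_lit 6) (.cons (.rel (nat_lit 17196646548)) .nil)) .nil)) (.node (.node (.node .leaf (nat_lit 4576391258747691) (.br (nat_lit 0) (.cons (.br (nat_lit 4) (.cons (.rel (nat_lit 1077956640)) .nil)) .nil)) .leaf) (nat_lit 4576391258747811) (.br (nat_lit 0) (.cons (.br (nat_lit 3) (.cons (.rel (nat_lit 272662608)) .nil)) .nil)) .leaf) (nat_lit 4576391258748385) (.br (nat_lit 0) (.cons (.br (nat_lit 1) (.cons (.rel (nat_lit 20993280)) .nil)) .nil)) (.node (.node .leaf (nat_lit 4576391258938605) (.br (nat_lit 0) (.cons (.br (nat_lit 1) (.cons (.rel (nat_lit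 21497856)) .nil)) .nil)) .leaf) (nat_lit 4576391258938780) (.br (nat_lit 0) (.cons (.br (nat_lit 5) (.cons (.rel (nat_lit 4299179088)) .nil)) .nil)) .leaf)))) (nat_lit 4576391259193594) (.br (nat_lit 4) (.cons (.br (nat_lit 5) (.cons (.rel (nat_lit 10737418500)) .nil)) .nil)) (.node (.node (.node (.node (.node .leaf (nat_lit 4576391259194126) (.br (nat_lit 1) (.cons (.br (nat_lit 4) (.cons (.rel (nat_lit 1091846208)) .nil)) .nil)) .leaf) (nat_lit 4576391259194605) (.br (nat_lit 0) (.cons (.br (nat_lit 1) (.cons (.rel (nat_lit 20993280)) (.cons (.rel (nat_lit 20971860)) .nil))) (.cons (.br (nat_lit 1) (.cons (.rel (nat_lit 20993280)) (.cons (.rel (nat_lit 20993280)) .nil))) .nil))) .leaf) (nat_lit 4576391259310335) (.br (nat_lit 0) (.cons (.br (nat_lit 2) (.cons (.rel (nat_lit 71319816)) .nil)) .nil)) (.node (.node .leaf (nat_lit 4576391259310732) (.br (nat_lit 3) (.cons (.br (nat_lit 4) (.cons (.rel (nat_lit 1610618880)) .nil)) .nil)) .leaf) (nat_lit 4576391260027130) (.br (nat_lit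 0) (.cons (.br (nat_lit 5) (.cons (.rel (nat_lit 8598324240)) .nil)) .nil)) .leaf)) (nat_lit 4576391260329996) (.br (nat_lit 0) (.cons (.br (nat_lit 1) (.cons (.rel (nat_lit 20993280)) .nil)) .nil)) (.node (.node (.node .leaf (nat_lit 4576391260330166) (.br (nat_lit 0) (.cons (.br (nat_lit 6) (.cons (.rel (nat_lit 17190354945)) .nil)) .nil)) .leaf) (nat_lit 4576391260330234) (.br (nat_lit 0) (.cons (.br (nat_lit 6) (.cons (.rel (nat_lit 17185112580)) .nil)) .nil)) .leaf) (nat_lit 4576391260330239) (.br (nat_lit 3) (.cons (.br (nat_lit 4) (.cons (.rel (nat_lit 1610618880)) (.cons (.br (nat_lit 5) (.cons (.rel (nat_lit 5637146625)) (.cons (.rel (nat_lit 8858370192)) .nil))) .nil))) (.cons (.br (nat_lit 4) (.cons (.rel (nat_lit 1610618880)) (.cons (.rel (nat_lit 1610618880)) .nil))) .nil))) (.node (.node .leaf (nat_lit 4576391260330659) (.br (nat_lit 1) (.cons (.br (nat_lit 5) (.cons (.rel (nat_lit 4311744549)) .nil)) .nil)) .leaf) (nat_lit 4576391260485814) (.br (nat_lit 0) (.cons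 (.br (nat_lit 1) (.cons (.rel (nat_lit 25247745)) (.cons (.rel (nat_lit 21004545)) .nil))) (.cons (.br (nat_lit 2) (.cons (.rel (nat_lit 72351780)) (.cons (.rel (nat_lit 71369025)) (.cons (.rel (nat_lit 71307540)) .nil)))) .nil))) .leaf))) (nat_lit 4576391260485892) (.br (nat_lit 0) (.cons (.br (nat_lit 4) (.cons (.rel (nat_lit 1077937233)) .nil)) .nil)) (.node (.node (.node (.node .leaf (nat_lit 4576391260487044) (.br (nat_lit 3) (.cons (.br (nat_lit 6) (.cons (.rel (nat_lit 17448588288)) .nil)) .nil)) .leaf) (nat_lit 4576391260519052) (.br (nat_lit 3) (.cons (.br (nat_lit 5) (.cons (.rel (nat_lit 8858632449)) .nil)) .nil)) .leaf) (nat_lit 4576391260519661) (.br (nat_lit 0) (.cons (.br (nat_lit 3) (.cons (.rel (nat_lit 272646153)) .nil)) .nil)) (.node (.node .leaf (nat_lit 4576393360285084) (.br (nat_lit 0) (.cons (.br (nat_lit 5) (.cons (.rel (nat_lit 8598324240)) .nil)) .nil)) .leaf) (nat_lit 4576393361676543) (.br (nat_lit 0) (.cons (.br (nat_lit 3) (.cons (.rel (nat_lit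 272631936)) .nil)) .nil)) .leaf)) (nat_lit 4576394559854878) (.br (nat_lit 0) (.cons (.br (nat_lit 3) (.cons (.rel (nat_lit 272662608)) .nil)) .nil)) (.node (.node (.node .leaf (nat_lit 4576394561247414) (.br (nat_lit 1) (.cons (.br (nat_lit 4) (.cons (.rel (nat_lit 1091846208)) .nil)) .nil)) .leaf) (nat_lit 4576394561247487) (.br (nat_lit 4) (.cons (.br (nat_lit 5) (.cons (.rel (nat_lit 10737418500)) .nil)) .nil)) .leaf) (nat_lit 4576437041158144) (.br (nat_lit 0) (.cons (.br (nat_lit 5) (.cons (.rel (nat_lit 4303360512)) .nil)) .nil)) (.node .leaf (nat_lit 4576606667200637) (.br (nat_lit 1) (.cons (.br (nat_lit 5) (.cons (.rel (nat_lit 4311744549)) .nil)) .nil)) .leaf)))))))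

/-- refutations 18 -/
def e18 : EX := (.node (.node (.node (.node (.node (.node (.node (.node .leaf (nat_lit 4579775691927703) (.br (nat_lit 1) (.cons (.br (nat_lit 5) (.cons (.rel (nat_lit 4311781377)) .nil)) .nil)) .leaf) (nat_lit 4579775691941888) (.br (nat_lit 0) (.cons (.br (nat_lit 4) (.cons (.rel (nat_lit 1077938244)) .nil)) .nil)) .leaf) (nat_lit 4579775691943424) (.br (nat_lit 1) (.cons (.br (nat_lit 5) (.cons (.rel (nat_lit 4311746562)) .nil)) .nil)) (.node (.node .leaf (nat_lit 4579775692136448) (.br (nat_lit 4) (.cons (.br (nat_lit 6) (.cons (.rel (nat_lit 35433485322)) .nil)) .nil)) .leaf) (nat_lit 4579775692137874) (.br (nat_lit 0) (.cons (.br (nat_lit 5) (.cons (.rel (nat_lit 4299194496)) (.cons (.rel (nat_lit 4299179088)) .nil))) .nil)) .leaf)) (nat_lit 4579775692901159) (.br (nat_lit 0) (.cons (.br (nat_lit 1) (.cons (.rel (nat_lit 21513312)) .nil)) .nil)) (.node (.node (.node .leaf (nat_lit 4579775692962723) (.br (nat_lit 0) (.cons (.br (nat_lit 5) (.cons (.rel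 (nat_lit 4299163680)) .nil)) .nil)) .leaf) (nat_lit 4579775692976310) (.br (nat_lit 0) (.cons (.br (nat_lit 4) (.cons (.rel (nat_lit 2155876356)) .nil)) .nil)) .leaf) (nat_lit 4579775692976939) (.br (nat_lit 4) (.cons (.br (nat_lit 0) (.cons (.rel (nat_lit 1077952641)) (.cons (.rel (nat_lit 1078001670)) .nil))) .nil)) (.node (.node .leaf (nat_lit 4579775693166592) (.br (nat_lit 1) (.cons (.br (nat_lit 0) (.cons (.rel (nat_lit 20971860)) (.cons (.rel (nat_lit 21497856)) .nil))) .nil)) .leaf) (nat_lit 4579775693422592) (.br (nat_lit 4) (.cons (.br (nat_lit 6) (.cons (.rel (nat_lit 18253897728)) (.cons (.rel (nat_lit 18253616640)) .nil))) (.cons (.br (nat_lit 6) (.cons (.rel (nat_lit 18253874178)) (.cons (.rel (nat_lit 19327385604)) .nil))) .nil))) .leaf))) (nat_lit 4579775693422842) (.br (nat_lit 0) (.cons (.br (nat_lit 1) (.cons (.rel (nat_lit 21004545)) .nil)) .nil)) (.node (.node (.node (.node .leaf (nat_lit 4579775693422852) (.br (nat_lit 0) (.cons (.br (nat_lit 6) (.cons (.br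 (nat_lit 1) (.cons (.rel (nat_lit 17196777480)) (.cons (.rel (nat_lit 20993280)) .nil))) .nil)) .nil)) .leaf) (nat_lit 4579775693424023) (.br (nat_lit 0) (.cons (.br (nat_lit 2) (.cons (.rel (nat_lit 72351780)) .nil)) .nil)) .leaf) (nat_lit 4579775694192640) (.br (nat_lit 4) (.cons (.br (nat_lit 1) (.cons (.rel (nat_lit 1090519113)) (.cons (.rel (nat_lit 2181055488)) .nil))) .nil)) (.node (.node .leaf (nat_lit 4579775694256128) (.br (nat_lit 1) (.cons (.br (nat_lit 4) (.cons (.rel (nat_lit 1090519113)) (.cons (.rel (nat_lit 1090520160)) (.cons (.rel (nat_lit 2181055488)) .nil)))) (.cons (.br (nat_lit 5) (.cons (.rel (nat_lit 4311746562)) (.cons (.rel (nat_lit 4311781377)) (.cons (.rel (nat_lit 4311744549)) (.cons (.rel (nat_lit 4311770112)) .nil))))) .nil))) .leaf) (nat_lit 4579775694256430) (.br (nat_lit 4) (.cons (.br (nat_lit 1) (.cons (.rel (nat_lit 1090535568)) (.cons (.rel (nat_lit 1090520160)) .nil))) .nil)) .leaf)) (nat_lit 4579775694553088) (.br (nat_lit 6) (.cons (.br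 (nat_lit 4) (.cons (.rel (nat_lit 18253897728)) (.cons (.rel (nat_lit 18253874178)) (.cons (.rel (nat_lit 18253874178)) .nil)))) .nil)) (.node (.node (.node .leaf (nat_lit 4579775694559232) (.br (nat_lit 1) (.cons (.br (nat_lit 0) (.cons (.rel (nat_lit 23070216)) (.cons (.rel (nat_lit 22024197)) .nil))) .nil)) .leaf) (nat_lit 4579775694559383) (.br (nat_lit 0) (.cons (.br (nat_lit 5) (.cons (.rel (nat_lit 4299194496)) (.cons (.rel (nat_lit 4299179088)) (.cons (.rel (nat_lit 4304404752)) .nil)))) (.cons (.br (nat_lit 1) (.cons (.rel (nat_lit 22052928)) (.cons (.rel (nat_lit 25165842)) .nil))) .nil))) .leaf) (nat_lit 4579775694559409) (.br (nat_lit 4) (.cons (.br (nat_lit 5) (.cons (.rel (nat_lit 10737418500)) .nil)) .nil)) (.node (.node .leaf (nat_lit 4579775694559487) (.br (nat_lit 5) (.cons (.br (nat_lit 3) (.cons (.rel (nat_lit 4563796992)) (.cons (.rel (nat_lit 8858374146)) .nil))) .nil)) .leaf) (nat_lit 4579775694714880) (.br (nat_lit 1) (.cons (.br (nat_lit 4) (.cons (.rel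 (nat_lit 1090528257)) (.cons (.rel (nat_lit 1090519113)) .nil))) .nil)) .leaf)))) (nat_lit 4579775694715031) (.br (nat_lit 1) (.cons (.br (nat_lit 6) (.cons (.rel (nat_lit 17196777480)) .nil)) .nil)) (.node (.node (.node (.node (.node .leaf (nat_lit 4579775694715062) (.br (nat_lit 4) (.cons (.br (nat_lit 0) (.cons (.rel (nat_lit 2155876356)) (.cons (.rel (nat_lit 1078329600)) (.cons (.rel (nat_lit 1078001670)) .nil)))) .nil)) .leaf) (nat_lit 4579775694716292) (.br (nat_lit 0) (.cons (.br (nat_lit 1) (.cons (.rel (nat_lit 20993280)) .nil)) .nil)) .leaf) (nat_lit 4579775694756002) (.br (nat_lit 0) (.cons (.br (nat_lit 1) (.cons (.rel (nat_lit 20993280)) .nil)) .nil)) (.node (.node .leaf (nat_lit 4579778993879847) (.br (nat_lit 0) (.cons (.br (nat_lit 1) (.cons (.rel (nat_lit 21037344)) .nil)) .nil)) .leaf) (nat_lit 4579778993894881) (.br (nat_lit 0) (.cons (.br (nat_lit 2) (.cons (.rel (nat_lit 76808208)) .nil)) .nil)) .leaf)) (nat_lit 4579778995109888) (.br (nat_lit 1) (.cons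 (.br (nat_lit 5) (.cons (.rel (nat_lit 8623490049)) .nil)) .nil)) (.node (.node (.node .leaf (nat_lit 4579778995118262) (.br (nat_lit 0) (.cons (.br (nat_lit 3) (.cons (.rel (nat_lit 272631936)) .nil)) .nil)) .leaf) (nat_lit 4579778995476766) (.br (nat_lit 0) (.cons (.br (nat_lit 1) (.cons (.rel (nat_lit 22037520)) .nil)) .nil)) .leaf) (nat_lit 4579786383228928) (.br (nat_lit 1) (.cons (.br (nat_lit 2) (.cons (.rel (nat_lit 100663377)) (.cons (.rel (nat_lit 100663377)) .nil))) .nil)) (.node (.node .leaf (nat_lit 4579786384181923) (.br (nat_lit 1) (.cons (.br (nat_lit 2) (.cons (.rel (nat_lit 84934662)) .nil)) .nil)) .leaf) (nat_lit 4579786385840128) (.br (nat_lit 0) (.cons (.br (nat_lit 1) (.cons (.rel (nat_lit 25247745)) .nil)) .nil)) .leaf))) (nat_lit 4580428526661632) (.br (nat_lit 2) (.cons (.br (nat_lit 4) (.cons (.rel (nat_lit 1140868116)) (.cons (.rel (nat_lit 1208223744)) .nil))) (.cons (.br (nat_lit 4) (.cons (.rel (nat_lit 1140867105)) (.cons (.rel (nat_lit 1140855840))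 .nil))) .nil))) (.node (.node (.node (.node .leaf (nat_lit 4580428526661794) (.br (nat_lit 2) (.cons (.br (nat_lit 4) (.cons (.rel (nat_lit 1140981762)) .nil)) .nil)) .leaf) (nat_lit 4580428526662383) (.br (nat_lit 0) (.cons (.br (nat_lit 1) (.cons (.rel (nat_lit 37748769)) .nil)) .nil)) .leaf) (nat_lit 4580428526662432) (.br (nat_lit 0) (.cons (.br (nat_lit 1) (.cons (.rel (nat_lit 21497856)) .nil)) .nil)) (.node (.node .leaf (nat_lit 4580428526752030) (.br (nat_lit 0) (.cons (.br (nat_lit 3) (.cons (.rel (nat_lit 272631936)) .nil)) .nil)) .leaf) (nat_lit 4580428526773785) (.br (nat_lit 0) (.cons (.br (nat_lit 6) (.cons (.rel (nat_lit 17188258368)) (.cons (.rel (nat_lit 17184063621)) .nil))) .nil)) .leaf)) (nat_lit 4580428526956544) (.br (nat_lit 3) (.cons (.br (nat_lit 5) (.cons (.rel (nat_lit 4831838304)) (.cons (.rel (nat_lit 4563681288)) (.cons (.rel (nat_lit 4563403332)) .nil)))) (.cons (.br (nat_lit 5) (.cons (.rel (nat_lit 4563669012)) (.cons (.rel (nat_lit 4563670026))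 (.cons (.rel (nat_lit 4831872000)) .nil)))) (.cons (.br (nat_lit 5) (.cons (.rel (nat_lit 9126822162)) (.cons (.rel (nat_lit 4563669012)) (.cons (.rel (nat_lit 4831838304)) .nil)))) .nil)))) (.node (.node (.node .leaf (nat_lit 4580428526956850) (.br (nat_lit 0) (.cons (.br (nat_lit 2) (.cons (.rel (nat_lit 72388608)) .nil)) .nil)) .leaf) (nat_lit 4580428527009792) (.br (nat_lit 1) (.cons (.br (nat_lit 6) (.cons (.rel (nat_lit 17196650502)) (.cons (.rel (nat_lit 17196647562)) .nil))) (.cons (.br (nat_lit 6) (.cons (.rel (nat_lit 17196646548)) (.cons (.rel (nat_lit 17196650502)) .nil))) .nil))) .leaf) (nat_lit 4580428527009943) (.br (nat_lit 4) (.cons (.br (nat_lit 0) (.cons (.rel (nat_lit 1077937233)) (.cons (.rel (nat_lit 2155876356)) .nil))) .nil)) (.node .leaf (nat_lit 4580428527010574) (.br (nat_lit 1) (.cons (.br (nat_lit 4) (.cons (.rel (nat_lit 1091830800)) (.cons (.rel (nat_lit 1090553856)) .nil))) .nil)) .leaf))))) (nat_lit 4580428527011294) (.br (nat_lit 0) (.cons (.br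 (nat_lit 4) (.cons (.rel (nat_lit 1078001670)) .nil)) .nil)) (.node (.node (.node (.node (.node (.node .leaf (nat_lit 4580428527011353) (.br (nat_lit 0) (.cons (.br (nat_lit 1) (.cons (.rel (nat_lit 20993280)) .nil)) .nil)) .leaf) (nat_lit 4580428527165591) (.br (nat_lit 1) (.cons (.br (nat_lit 2) (.cons (.rel (nat_lit 151000068)) .nil)) .nil)) .leaf) (nat_lit 4580428527165626) (.br (nat_lit 0) (.cons (.br (nat_lit 4) (.cons (.rel (nat_lit 2152218624)) .nil)) .nil)) (.node (.node .leaf (nat_lit 4580428527165742) (.br (nat_lit 2) (.cons (.br (nat_lit 0) (.cons (.rel (nat_lit 75497568)) (.cons (.rel (nat_lit 72388608)) (.cons (.rel (nat_lit 75531264)) (.cons (.rel (nat_lit 71319816)) .nil))))) .nil)) .leaf) (nat_lit 4580428527184054) (.br (nat_lit 3) (.cons (.br (nat_lit 4) (.cons (.rel (nat_lit 1610612868)) .nil)) .nil)) .leaf)) (nat_lit 4580428527184679) (.br (nat_lit 5) (.cons (.br (nat_lit 1) (.cons (.rel (nat_lit 4311760968)) (.cons (.rel (nat_lit 4311746562)) .nil))) .nil))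 (.node (.node (.node .leaf (nat_lit 4580428528199680) (.br (nat_lit 1) (.cons (.br (nat_lit 3) (.cons (.rel (nat_lit 285212805)) .nil)) .nil)) .leaf) (nat_lit 4580428528451584) (.br (nat_lit 4) (.cons (.br (nat_lit 0) (.cons (.rel (nat_lit 1079247873)) (.cons (.rel (nat_lit 1077937233)) (.cons (.rel (nat_lit 1078019136)) (.cons (.rel (nat_lit 1077936234)) .nil))))) (.cons (.br (nat_lit 6) (.cons (.rel (nat_lit 35433545793)) (.cons (.rel (nat_lit 18254004288)) (.cons (.rel (nat_lit 18253616640)) .nil)))) (.cons (.br (nat_lit 2) (.cons (.rel (nat_lit 2281701477)) (.cons (.rel (nat_lit 1140852900)) (.cons (.rel (nat_lit 2281766913)) (.cons (.rel (nat_lit 2215117824)) (.cons (.rel (nat_lit 1142181888)) (.cons (.rel (nat_lit 1140918336)) (.cons (.rel (nat_lit 1141900800)) .nil)))))))) .nil)))) .leaf) (nat_lit 4580428528451761) (.br (nat_lit 0) (.cons (.br (nat_lit 3) (.cons (.rel (nat_lit 272631936)) .nil)) .nil)) (.node (.node .leaf (nat_lit 4580428528451769) (.br (nat_lit 1) (.cons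 (.br (nat_lit 2) (.cons (.rel (nat_lit 83903745)) .nil)) .nil)) .leaf) (nat_lit 4580428528451834) (.br (nat_lit 1) (.cons (.br (nat_lit 4) (.cons (.rel (nat_lit 1090539522)) .nil)) .nil)) .leaf))) (nat_lit 4580428528453145) (.br (nat_lit 0) (.cons (.br (nat_lit 4) (.cons (.rel (nat_lit 1077952641)) (.cons (.rel (nat_lit 1077952641)) .nil))) (.cons (.br (nat_lit 4) (.cons (.rel (nat_lit 1078001670)) (.cons (.rel (nat_lit 1077938244)) .nil))) .nil))) (.node (.node (.node (.node .leaf (nat_lit 4580428528496640) (.br (nat_lit 0) (.cons (.br (nat_lit 2) (.cons (.rel (nat_lit 138430464)) .nil)) .nil)) .leaf) (nat_lit 4580428528496922) (.br (nat_lit 0) (.cons (.br (nat_lit 2) (.cons (.rel (nat_lit 76808208)) .nil)) .nil)) .leaf) (nat_lit 4580428528497551) (.br (nat_lit 0) (.cons (.br (nat_lit 2) (.cons (.rel (nat_lit 71307540)) .nil)) .nil)) (.node (.node .leaf (nat_lit 4580428528513024) (.br (nat_lit 2) (.cons (.br (nat_lit 4) (.cons (.rel (nat_lit 1140855840)) .nil)) .nil)) .leaf)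 (nat_lit 4580428528513835) (.br (nat_lit 0) (.cons (.br (nat_lit 2) (.cons (.rel (nat_lit 71319816)) .nil)) .nil)) .leaf)) (nat_lit 4580428529221632) (.br (nat_lit 0) (.cons (.br (nat_lit 1) (.cons (.rel (nat_lit 21497856)) .nil)) .nil)) (.node (.node (.node .leaf (nat_lit 4580428529285902) (.br (nat_lit 0) (.cons (.br (nat_lit 1) (.cons (.rel (nat_lit 37748769)) (.cons (.rel (nat_lit 25166853)) .nil))) (.cons (.br (nat_lit 1) (.cons (.rel (nat_lit 37748769)) (.cons (.rel (nat_lit 21497856)) .nil))) .nil))) .leaf) (nat_lit 4580428529286681) (.br (nat_lit 0) (.cons (.br (nat_lit 1) (.cons (.rel (nat_lit 25165842)) .nil)) .nil)) .leaf) (nat_lit 4580428529588375) (.br (nat_lit 1) (.cons (.br (nat_lit 0) (.cons (.rel (nat_lit 20993280)) (.cons (.rel (nat_lit 37748769)) .nil))) .nil)) (.node (.node .leaf (nat_lit 4580428529588399) (.br (nat_lit 0) (.cons (.br (nat_lit 4) (.cons (.rel (nat_lit 1077952641)) .nil)) .nil)) .leaf) (nat_lit 4580428529588410) (.br (nat_lit 1) (.cons (.br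 (nat_lit 0) (.cons (.rel (nat_lit 25165842)) (.cons (.rel (nat_lit 37748769)) (.cons (.rel (nat_lit 37748769)) .nil)))) .nil)) .leaf)))) (nat_lit 4580428529588474) (.br (nat_lit 5) (.cons (.br (nat_lit 6) (.cons (.rel (nat_lit 21474869760)) .nil)) .nil)) (.node (.node (.node (.node (.node .leaf (nat_lit 4580428529588479) (.br (nat_lit 3) (.cons (.br (nat_lit 4) (.cons (.rel (nat_lit 2415928320)) .nil)) .nil)) .leaf) (nat_lit 4580428529588510) (.br (nat_lit 1) (.cons (.br (nat_lit 4) (.cons (.rel (nat_lit 1091830800)) .nil)) .nil)) .leaf) (nat_lit 4580428529588526) (.br (nat_lit 1) (.cons (.br (nat_lit 6) (.cons (.rel (nat_lit 17196745728)) (.cons (.rel (nat_lit 17196745728)) .nil))) .nil)) (.node (.node .leaf (nat_lit 4580428529589649) (.br (nat_lit 6) (.cons (.br (nat_lit 1) (.cons (.rel (nat_lit 17196777480)) (.cons (.rel (nat_lit 17196652560)) .nil))) .nil)) .leaf) (nat_lit 4580428529589656) (.br (nat_lit 0) (.cons (.br (nat_lit 1) (.cons (.rel (nat_lit 22052928)) .nil)) .nil))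 .leaf)) (nat_lit 4580428529743872) (.br (nat_lit 4) (.cons (.br (nat_lit 6) (.cons (.rel (nat_lit 19327385604)) (.cons (.rel (nat_lit 19327353921)) (.cons (.rel (nat_lit 18254004288)) .nil)))) .nil)) (.node (.node (.node .leaf (nat_lit 4580428529744023) (.br (nat_lit 4) (.cons (.br (nat_lit 6) (.cons (.rel (nat_lit 19327385604)) .nil)) .nil)) .leaf) (nat_lit 4580428529744054) (.br (nat_lit 1) (.cons (.br (nat_lit 4) (.cons (.rel (nat_lit 1090528257)) .nil)) .nil)) .leaf) (nat_lit 4580428529744174) (.br (nat_lit 1) (.cons (.br (nat_lit 5) (.cons (.rel (nat_lit 4311744549)) .nil)) .nil)) (.node (.node .leaf (nat_lit 4580428529744654) (.br (nat_lit 2) (.cons (.br (nat_lit 4) (.cons (.rel (nat_lit 2281766913)) .nil)) .nil)) .leaf) (nat_lit 4580428529744779) (.br (nat_lit 5) (.cons (.br (nat_lit 1) (.cons (.rel (nat_lit 8623490049)) (.cons (.rel (nat_lit 8606778624)) .nil))) .nil)) .leaf))) (nat_lit 4580428529784832) (.br (nat_lit 0) (.cons (.br (nat_lit 1) (.cons (.rel (nat_lit 20993280))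 (.cons (.rel (nat_lit 25165842)) (.cons (.rel (nat_lit 21497856)) .nil)))) (.cons (.br (nat_lit 2) (.cons (.rel (nat_lit 71583312)) (.cons (.rel (nat_lit 71435520)) (.cons (.rel (nat_lit 71319816)) .nil)))) (.cons (.br (nat_lit 5) (.cons (.rel (nat_lit 4299161622)) (.cons (.rel (nat_lit 8598339648)) (.cons (.rel (nat_lit 8598339648)) (.cons (.rel (nat_lit 8594653185)) .nil))))) .nil)))) (.node (.node (.node (.node .leaf (nat_lit 4580428529785007) (.br (nat_lit 1) (.cons (.br (nat_lit 6) (.cons (.rel (nat_lit 17196650502)) .nil)) .nil)) .leaf) (nat_lit 4580428529785018) (.br (nat_lit 0) (.cons (.br (nat_lit 6) (.cons (.rel (nat_lit 17185112580)) (.cons (.rel (nat_lit 17188524048)) .nil))) (.cons (.br (nat_lit 4) (.cons (.rel (nat_lit 1077952641)) (.cons (.rel (nat_lit 1077968916)) .nil))) .nil))) .leaf) (nat_lit 4580428529785114) (.br (nat_lit 1) (.cons (.br (nat_lit 3) (.cons (.rel (nat_lit 570445824)) (.cons (.rel (nat_lit 554696736)) .nil))) .nil)) (.node (.node .leaf (nat_lit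 4580428529786357) (.br (nat_lit 0) (.cons (.br (nat_lit 1) (.cons (.rel (nat_lit 21497856)) .nil)) .nil)) .leaf) (nat_lit 4580429157597184) (.br (nat_lit 3) (.cons (.br (nat_lit 4) (.cons (.rel (nat_lit 2684420352)) .nil)) .nil)) .leaf)) (nat_lit 4580429157658624) (.br (nat_lit 0) (.cons (.br (nat_lit 1) (.cons (.rel (nat_lit 22093824)) .nil)) .nil)) (.node (.node (.node .leaf (nat_lit 4580433499994112) (.br (nat_lit 1) (.cons (.br (nat_lit 4) (.cons (.rel (nat_lit 1107558468)) .nil)) .nil)) .leaf) (nat_lit 4580464989581312) (.br (nat_lit 4) (.cons (.br (nat_lit 0) (.cons (.rel (nat_lit 2152218624)) (.cons (.rel (nat_lit 1078001670)) .nil))) .nil)) .leaf) (nat_lit 4580464990601216) (.br (nat_lit 0) (.cons (.br (nat_lit 1) (.cons (.rel (nat_lit 20971860)) .nil)) .nil)) (.node .leaf (nat_lit 4580464990672896) (.br (nat_lit 1) (.cons (.br (nat_lit 0) (.cons (.rel (nat_lit 37748769)) (.cons (.rel (nat_lit 21004545)) (.cons (.rel (nat_lit 20993280)) .nil)))) (.cons (.br (nat_lit 3)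 (.cons (.rel (nat_lit 285253632)) (.cons (.rel (nat_lit 285230082)) .nil))) .nil))) .leaf)))))) (nat_lit 4580465136381952) (.br (nat_lit 0) (.cons (.br (nat_lit 6) (.cons (.rel (nat_lit 17184067620)) .nil)) .nil)) (.node (.node (.node (.node (.node (.node (.node .leaf (nat_lit 4580465137401856) (.br (nat_lit 3) (.cons (.br (nat_lit 5) (.cons (.rel (nat_lit 4563681288)) .nil)) .nil)) .leaf) (nat_lit 4580465137473536) (.br (nat_lit 0) (.cons (.br (nat_lit 1) (.cons (.rel (nat_lit 21037344)) .nil)) .nil)) .leaf) (nat_lit 4580466075441152) (.br (nat_lit 0) (.cons (.br (nat_lit 3) (.cons (.rel (nat_lit 272631936)) .nil)) .nil)) (.node (.node .leaf (nat_lit 4580466076694528) (.br (nat_lit 0) (.cons (.br (nat_lit 1) (.cons (.rel (nat_lit 20971860)) .nil)) .nil)) .leaf) (nat_lit 4580466187563008) (.br (nat_lit 1) (.cons (.br (nat_lit 5) (.cons (.rel (nat_lit 4311745560)) (.cons (.rel (nat_lit 4311744549)) .nil))) .nil)) .leaf)) (nat_lit 4580502183357223) (.br (nat_lit 0) (.cons (.br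 (nat_lit 5) (.cons (.rel (nat_lit 4299179088)) .nil)) .nil)) (.node (.node (.node .leaf (nat_lit 4580502185762200) (.br (nat_lit 0) (.cons (.br (nat_lit 1) (.cons (.rel (nat_lit 22052928)) .nil)) .nil)) .leaf) (nat_lit 4580502185949184) (.br (nat_lit 1) (.cons (.br (nat_lit 5) (.cons (.rel (nat_lit 4312859136)) .nil)) .nil)) .leaf) (nat_lit 4580509093779607) (.br (nat_lit 1) (.cons (.br (nat_lit 2) (.cons (.rel (nat_lit 84443136)) .nil)) .nil)) (.node (.node .leaf (nat_lit 4581934013362176) (.br (nat_lit 0) (.cons (.br (nat_lit 2) (.cons (.rel (nat_lit 75497568)) (.cons (.rel (nat_lit 71307540)) .nil))) .nil)) .leaf) (nat_lit 4581934013363087) (.br (nat_lit 6) (.cons (.br (nat_lit 3) (.cons (.rel (nat_lit 17449877508)) (.cons (.rel (nat_lit 17448307200)) .nil))) .nil)) .leaf))) (nat_lit 4581934013657088) (.br (nat_lit 1) (.cons (.br (nat_lit 2) (.cons (.rel (nat_lit 83892480)) (.cons (.rel (nat_lit 83886468)) .nil))) (.cons (.br (nat_lit 3) (.cons (.rel (nat_lit 285216804)) (.cons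 (.rel (nat_lit 302252160)) .nil))) .nil))) (.node (.node (.node (.node .leaf (nat_lit 4581934013658613) (.br (nat_lit 1) (.cons (.br (nat_lit 3) (.cons (.rel (nat_lit 285229080)) .nil)) .nil)) .leaf) (nat_lit 4581934013671424) (.br (nat_lit 2) (.cons (.br (nat_lit 0) (.cons (.rel (nat_lit 71321877)) (.cons (.rel (nat_lit 71319816)) .nil))) .nil)) .leaf) (nat_lit 4581934013672184) (.br (nat_lit 0) (.cons (.br (nat_lit 4) (.cons (.rel (nat_lit 1083244800)) .nil)) .nil)) (.node (.node .leaf (nat_lit 4581934014732288) (.br (nat_lit 0) (.cons (.br (nat_lit 4) (.cons (.rel (nat_lit 1077952641)) (.cons (.rel (nat_lit 2155876356)) (.cons (.rel (nat_lit 1077956640)) (.cons (.rel (nat_lit 1082425344)) (.cons (.rel (nat_lit 1077956640)) (.cons (.rel (nat_lit 1077952641)) (.cons (.rel (nat_lit 2155876356)) .nil)))))))) .nil)) .leaf) (nat_lit 4581934014733199) (.br (nat_lit 0) (.cons (.br (nat_lit 1) (.cons (.rel (nat_lit 21004545)) .nil)) .nil)) .leaf)) (nat_lit 4581934014889441) (.br (nat_lit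 0) (.cons (.br (nat_lit 3) (.cons (.rel (nat_lit 272631936)) .nil)) .nil)) (.node (.node (.node .leaf (nat_lit 4581934014900224) (.br (nat_lit 1) (.cons (.br (nat_lit 2) (.cons (.rel (nat_lit 83903745)) .nil)) .nil)) .leaf) (nat_lit 4581934015197184) (.br (nat_lit 0) (.cons (.br (nat_lit 6) (.cons (.rel (nat_lit 17184067620)) (.cons (.rel (nat_lit 34363933056)) .nil))) (.cons (.br (nat_lit 5) (.cons (.rel (nat_lit 4299163680)) (.cons (.rel (nat_lit 8598324240)) (.cons (.rel (nat_lit 4299194496)) .nil)))) .nil))) .leaf) (nat_lit 4581934015985664) (.br (nat_lit 0) (.cons (.br (nat_lit 4) (.cons (.rel (nat_lit 2155876356)) (.cons (.rel (nat_lit 2152218624)) (.cons (.rel (nat_lit 1077937233)) .nil)))) .nil)) (.node (.node .leaf (nat_lit 4581934016289519) (.br (nat_lit 0) (.cons (.br (nat_lit 1) (.cons (.rel (nat_lit 22024197)) .nil)) .nil)) .leaf) (nat_lit 4581934016289679) (.br (nat_lit 1) (.cons (.br (nat_lit 6) (.cons (.rel (nat_lit 17196652560)) .nil)) .nil)) .leaf)))) (nat_lit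 4581934016290200) (.br (nat_lit 0) (.cons (.br (nat_lit 1) (.cons (.rel (nat_lit 21004545)) .nil)) .nil)) (.node (.node (.node (.node (.node .leaf (nat_lit 4581934016444416) (.br (nat_lit 4) (.cons (.br (nat_lit 0) (.cons (.rel (nat_lit 1077938244)) (.cons (.rel (nat_lit 1078001670)) (.cons (.rel (nat_lit 1078071297)) .nil)))) (.cons (.br (nat_lit 2) (.cons (.rel (nat_lit 1140981762)) (.cons (.rel (nat_lit 1140855840)) (.cons (.rel (nat_lit 1140883524)) (.cons (.rel (nat_lit 1140981762)) (.cons (.rel (nat_lit 1140868116)) .nil)))))) .nil))) .leaf) (nat_lit 4581934016445176) (.br (nat_lit 0) (.cons (.br (nat_lit 3) (.cons (.rel (nat_lit 272631936)) .nil)) .nil)) .leaf) (nat_lit 4581934016445216) (.br (nat_lit 2) (.cons (.br (nat_lit 5) (.cons (.rel (nat_lit 4362108960)) .nil)) .nil)) (.node (.node .leaf (nat_lit 4581934016445921) (.br (nat_lit 0) (.cons (.br (nat_lit 4) (.cons (.rel (nat_lit 1078001670)) .nil)) .nil)) .leaf) (nat_lit 4584766443876352) (.br (nat_lit 0) (.cons (.br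 (nat_lit 2) (.cons (.rel (nat_lit 71369025)) .nil)) .nil)) .leaf)) (nat_lit 4584766444959906) (.br (nat_lit 0) (.cons (.br (nat_lit 1) (.cons (.rel (nat_lit 21497856)) .nil)) .nil)) (.node (.node (.node .leaf (nat_lit 4584766444961280) (.br (nat_lit 0) (.cons (.br (nat_lit 5) (.cons (.rel (nat_lit 4299162633)) .nil)) .nil)) .leaf) (nat_lit 4584766445000855) (.br (nat_lit 1) (.cons (.br (nat_lit 0) (.cons (.rel (nat_lit 25247745)) (.cons (.rel (nat_lit 25166853)) .nil))) .nil)) .leaf) (nat_lit 4584766445000886) (.br (nat_lit 0) (.cons (.br (nat_lit 1) (.cons (.rel (nat_lit 25247745)) .nil)) .nil)) (.node (.node .leaf (nat_lit 4584766445002209) (.br (nat_lit 0) (.cons (.br (nat_lit 1) (.cons (.rel (nat_lit 22052928)) .nil)) .nil)) .leaf) (nat_lit 4584766445156352) (.br (nat_lit 0) (.cons (.br (nat_lit 1) (.cons (.rel (nat_lit 21005604)) (.cons (.rel (nat_lit 20971860)) .nil))) (.cons (.br (nat_lit 1) (.cons (.rel (nat_lit 22024197)) (.cons (.rel (nat_lit 22024197)) .nil))) .nil)))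 .leaf))) (nat_lit 4584766445482290) (.br (nat_lit 0) (.cons (.br (nat_lit 4) (.cons (.rel (nat_lit 1077938244)) .nil)) .nil)) (.node (.node (.node (.node .leaf (nat_lit 4584766445482744) (.br (nat_lit 0) (.cons (.br (nat_lit 4) (.cons (.rel (nat_lit 2155876356)) .nil)) .nil)) .leaf) (nat_lit 4584766445483239) (.br (nat_lit 0) (.cons (.br (nat_lit 1) (.cons (.rel (nat_lit 20971860)) .nil)) .nil)) .leaf) (nat_lit 4584766445538581) (.br (nat_lit 0) (.cons (.br (nat_lit 2) (.cons (.rel (nat_lit 71307540)) .nil)) .nil)) (.node (.node .leaf (nat_lit 4584766446485504) (.br (nat_lit 5) (.cons (.br (nat_lit 0) (.cons (.rel (nat_lit 4299161622)) (.cons (.rel (nat_lit 4299162633)) (.cons (.rel (nat_lit 8594654244)) .nil)))) (.cons (.br (nat_lit 0) (.cons (.rel (nat_lit 4299162633)) (.cons (.rel (nat_lit 4299161622)) (.cons (.rel (nat_lit 4299162633)) .nil)))) .nil))) .leaf) (nat_lit 4584766446557184) (.br (nat_lit 0) (.cons (.br (nat_lit 1) (.cons (.rel (nat_lit 21004545)) .nil)) .nil))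 .leaf)) (nat_lit 4584766446557434) (.br (nat_lit 1) (.cons (.br (nat_lit 5) (.cons (.rel (nat_lit 4311746562)) .nil)) .nil)) (.node (.node (.node .leaf (nat_lit 4584766446557944) (.br (nat_lit 4) (.cons (.br (nat_lit 5) (.cons (.rel (nat_lit 5369792769)) .nil)) .nil)) .leaf) (nat_lit 4584766446558096) (.br (nat_lit 0) (.cons (.br (nat_lit 1) (.cons (.rel (nat_lit 20993280)) .nil)) .nil)) .leaf) (nat_lit 4584766446712832) (.br (nat_lit 0) (.cons (.br (nat_lit 2) (.cons (.rel (nat_lit 71827524)) (.cons (.rel (nat_lit 71894022)) .nil))) .nil)) (.node .leaf (nat_lit 4584766446754424) (.br (nat_lit 0) (.cons (.br (nat_lit 1) (.cons (.rel (nat_lit 20971860)) .nil)) .nil)) .leaf))))) (nat_lit 4584766446755328) (.br (nat_lit 3) (.cons (.br (nat_lit 5) (.cons (.rel (nat_lit 4563796992)) .nil)) .nil)) (.node (.node (.node (.node (.node (.node .leaf (nat_lit 4584766446763516) (.br (nat_lit 0) (.cons (.br (nat_lit 4) (.cons (.rel (nat_lit 1077952641)) .nil)) .nil)) .leaf) (nat_lit 4584938242322432)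 (.br (nat_lit 6) (.cons (.br (nat_lit 2) (.cons (.rel (nat_lit 34493957121)) (.cons (.rel (nat_lit 17246994504)) .nil))) .nil)) .leaf) (nat_lit 4584938242323232) (.br (nat_lit 2) (.cons (.br (nat_lit 6) (.cons (.rel (nat_lit 17246980098)) (.cons (.rel (nat_lit 34493957121)) .nil))) .nil)) (.node (.node .leaf (nat_lit 4584938242323343) (.br (nat_lit 0) (.cons (.br (nat_lit 2) (.cons (.rel (nat_lit 75531264)) (.cons (.rel (nat_lit 76808208)) .nil))) .nil)) .leaf) (nat_lit 4584938242323957) (.br (nat_lit 0) (.cons (.br (nat_lit 1) (.cons (.rel (nat_lit 37765188)) (.cons (.rel (nat_lit 22024197)) .nil))) .nil)) .leaf)) (nat_lit 4584938242412719) (.br (nat_lit 1) (.cons (.br (nat_lit 3) (.cons (.rel (nat_lit 285212805)) .nil)) .nil)) (.node (.node (.node .leaf (nat_lit 4584938242568192) (.br (nat_lit 0) (.cons (.br (nat_lit 4) (.cons (.rel (nat_lit 1078019136)) .nil)) .nil)) .leaf) (nat_lit 4584938242631680) (.br (nat_lit 4) (.cons (.br (nat_lit 0) (.cons (.rel (nat_lit 2155876356))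 (.cons (.rel (nat_lit 2155876356)) (.cons (.rel (nat_lit 2152218624)) .nil)))) .nil)) .leaf) (nat_lit 4584938242631962) (.br (nat_lit 4) (.cons (.br (nat_lit 1) (.cons (.rel (nat_lit 1090520160)) (.cons (.rel (nat_lit 1090539522)) (.cons (.rel (nat_lit 1090539522)) .nil)))) .nil)) (.node (.node .leaf (nat_lit 4584938242632440) (.br (nat_lit 0) (.cons (.br (nat_lit 5) (.cons (.rel (nat_lit 4299162633)) .nil)) .nil)) .leaf) (nat_lit 4584938242632981) (.br (nat_lit 4) (.cons (.br (nat_lit 5) (.cons (.rel (nat_lit 5368709640)) .nil)) .nil)) .leaf))) (nat_lit 4584938243848474) (.br (nat_lit 0) (.cons (.br (nat_lit 1) (.cons (.rel (nat_lit 20993280)) .nil)) .nil)) (.node (.node (.node (.node .leaf (nat_lit 4584938243849624) (.br (nat_lit 0) (.cons (.br (nat_lit 1) (.cons (.rel (nat_lit 37767249)) .nil)) .nil)) .leaf) (nat_lit 4584938243856384) (.br (nat_lit 3) (.cons (.br (nat_lit 4) (.cons (.rel (nat_lit 2684420352)) .nil)) .nil)) .leaf) (nat_lit 4584938244157440) (.br (nat_lit 0)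 (.cons (.br (nat_lit 6) (.cons (.rel (nat_lit 17188258368)) .nil)) .nil)) (.node (.node .leaf (nat_lit 4584938244158072) (.br (nat_lit 0) (.cons (.br (nat_lit 1) (.cons (.rel (nat_lit 42206208)) .nil)) .nil)) .leaf) (nat_lit 4584938244158351) (.br (nat_lit 0) (.cons (.br (nat_lit 4) (.cons (.rel (nat_lit 1079001600)) .nil)) .nil)) .leaf)) (nat_lit 4584938244158872) (.br (nat_lit 0) (.cons (.br (nat_lit 1) (.cons (.rel (nat_lit 21004545)) .nil)) .nil)) (.node (.node (.node .leaf (nat_lit 4584938244158876) (.br (nat_lit 0) (.cons (.br (nat_lit 1) (.cons (.rel (nat_lit 20971860)) .nil)) .nil)) .leaf) (nat_lit 4584938244882714) (.br (nat_lit 0) (.cons (.br (nat_lit 1) (.cons (.rel (nat_lit 20993280)) .nil)) .nil)) .leaf) (nat_lit 4584938244883064) (.br (nat_lit 1) (.cons (.br (nat_lit 3) (.cons (.rel (nat_lit 285229080)) .nil)) .nil)) (.node .leaf (nat_lit 4584938244890899) (.br (nat_lit 1) (.cons (.br (nat_lit 3) (.cons (.rel (nat_lit 285216804)) .nil)) .nil)) .leaf)))) (nat_lit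 4584938245249024) (.br (nat_lit 0) (.cons (.br (nat_lit 5) (.cons (.rel (nat_lit 4299194496)) (.cons (.rel (nat_lit 8598339648)) .nil))) .nil)) (.node (.node (.node (.node (.node .leaf (nat_lit 4584938245249210) (.br (nat_lit 0) (.cons (.br (nat_lit 1) (.cons (.rel (nat_lit 25247745)) (.cons (.rel (nat_lit 21004545)) .nil))) .nil)) .leaf) (nat_lit 4584938245249935) (.br (nat_lit 0) (.cons (.br (nat_lit 6) (.cons (.rel (nat_lit 34368147456)) (.cons (.rel (nat_lit 17184079896)) .nil))) .nil)) .leaf) (nat_lit 4584938245405472) (.br (nat_lit 2) (.cons (.br (nat_lit 4) (.cons (.rel (nat_lit 2214613248)) .nil)) .nil)) (.node (.node .leaf (nat_lit 4584938245437440) (.br (nat_lit 1) (.cons (.br (nat_lit 0) (.cons (.rel (nat_lit 37765188)) (.cons (.rel (nat_lit 21497856)) .nil))) .nil)) .leaf) (nat_lit 4584938245437722) (.br (nat_lit 0) (.cons (.br (nat_lit 4) (.cons (.rel (nat_lit 1077952641)) (.cons (.rel (nat_lit 2155876356)) .nil))) (.cons (.br (nat_lit 4) (.cons (.rel (nat_lit 1077952641))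 (.cons (.rel (nat_lit 1082425344)) .nil))) .nil))) .leaf)) (nat_lit 4584938245445914) (.br (nat_lit 0) (.cons (.br (nat_lit 5) (.cons (.rel (nat_lit 4299161622)) .nil)) .nil)) (.node (.node (.node .leaf (nat_lit 4584938245454106) (.br (nat_lit 2) (.cons (.br (nat_lit 5) (.cons (.rel (nat_lit 4362404160)) .nil)) .nil)) .leaf) (nat_lit 4584939023806650) (.br (nat_lit 0) (.cons (.br (nat_lit 1) (.cons (.rel (nat_lit 20971860)) .nil)) .nil)) .leaf) (nat_lit 4584939023996928) (.br (nat_lit 0) (.cons (.br (nat_lit 1) (.cons (.rel (nat_lit 20971860)) .nil)) .nil)) (.node (.node .leaf (nat_lit 4584939025022976) (.br (nat_lit 5) (.cons (.br (nat_lit 1) (.cons (.rel (nat_lit 4313059332)) (.cons (.rel (nat_lit 4312039680)) .nil))) .nil)) .leaf) (nat_lit 4584939025317888) (.br (nat_lit 5) (.cons (.br (nat_lit 0) (.cons (.rel (nat_lit 4299163680)) (.cons (.rel (nat_lit 4299179088)) .nil))) .nil)) .leaf))) (nat_lit 4584939025318799) (.br (nat_lit 0) (.cons (.br (nat_lit 1) (.cons (.rel (nat_lit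 20993280)) .nil)) .nil)) (.node (.node (.node (.node .leaf (nat_lit 4584939025389754) (.br (nat_lit 0) (.cons (.br (nat_lit 2) (.cons (.rel (nat_lit 76808208)) .nil)) .nil)) .leaf) (nat_lit 4584939025545216) (.br (nat_lit 5) (.cons (.br (nat_lit 2) (.cons (.rel (nat_lit 4362142725)) (.cons (.rel (nat_lit 4362076230)) .nil))) .nil)) .leaf) (nat_lit 4584939025586176) (.br (nat_lit 0) (.cons (.br (nat_lit 1) (.cons (.rel (nat_lit 21037344)) .nil)) .nil)) (.node (.node .leaf (nat_lit 4584940493395968) (.br (nat_lit 0) (.cons (.br (nat_lit 2) (.cons (.rel (nat_lit 71435520)) .nil)) .nil)) .leaf) (nat_lit 4584943215499264) (.br (nat_lit 0) (.cons (.br (nat_lit 2) (.cons (.rel (nat_lit 72353793)) .nil)) .nil)) .leaf)) (nat_lit 4585178760738269) (.br (nat_lit 0) (.cons (.br (nat_lit 3) (.cons (.rel (nat_lit 541327872)) .nil)) .nil)) (.node (.node (.node .leaf (nat_lit 4585178760786226) (.br (nat_lit 3) (.cons (.br (nat_lit 5) (.cons (.rel (nat_lit 4563669012)) .nil)) .nil)) .leaf) (nat_lit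 4585178761820322) (.br (nat_lit 0) (.cons (.br (nat_lit 1) (.cons (.rel (nat_lit 25247745)) .nil)) .nil)) .leaf) (nat_lit 4585178763114678) (.br (nat_lit 3) (.cons (.br (nat_lit 4) (.cons (.rel (nat_lit 1344275520)) .nil)) .nil)) (.node .leaf (nat_lit 4585178763419105) (.br (nat_lit 0) (.cons (.br (nat_lit 1) (.cons (.rel (nat_lit 37748769)) .nil)) .nil)) .leaf)))))))

/-- refutations 19 -/
def e19 : EX := (.node (.node (.node (.node (.node (.node (.node (.node (.node .leaf (nat_lit 4585831328429593) (.br (nat_lit 0) (.cons (.br (nat_lit 3) (.cons (.rel (nat_lit 272646153)) .nil)) .nil)) .leaf) (nat_lit 4585865687139229) (.br (nat_lit 4) (.cons (.br (nat_lit 5) (.cons (.rel (nat_lit 5370283008)) .nil)) .nil)) (.node .leaf (nat_lit 4585865687327995) (.br (nat_lit 0) (.cons (.br (nat_lit 3) (.cons (.rel (nat_lit 545260608)) .nil)) .nil)) .leaf)) (nat_lit 4585865688675084) (.br (nat_lit 3) (.cons (.br (nat_lit 6) (.cons (.rel (nat_lit 17448588288)) .nil)) .nil)) (.node (.node .leaf (nat_lit 4585865689743360) (.br (nat_lit 3) (.cons (.br (nat_lit 0) (.cons (.rel (nat_lit 272631936)) (.cons (.rel (nat_lit 272631936)) (.cons (.rel (nat_lit 272631936)) .nil)))) (.cons (.br (nat_lit 4) (.cons (.rel (nat_lit 1342440480)) (.cons (.rel (nat_lit 1342439433)) .nil))) .nil))) .leaf) (nat_lit 4585865689749655) (.br (nat_lit 3) (.cons (.br (nat_lit 6) (.cons (.rel (nat_lit 17449419009)) .nil)) .nil)) (.node .leaf (nat_lit 4585865689749759) (.br (nat_lit 0) (.cons (.br (nat_lit 6) (.cons (.rel (nat_lit 17184130116)) .nil)) .nil)) .leaf))) (nat_lit 4585865689750286) (.br (nat_lit 3) (.cons (.br (nat_lit 4) (.cons (.rel (nat_lit 2684420352)) .nil)) .nil)) (.node (.node (.node .leaf (nat_lit 4585865689905334) (.br (nat_lit 0) (.cons (.br (nat_lit 5) (.cons (.rel (nat_lit 4299162633)) .nil)) .nil)) .leaf) (nat_lit 4585865689906054) (.br (nat_lit 0) (.cons (.br (nat_lit 1) (.cons (.rel (nat_lit 21037344)) .nil)) .nil)) (.node .leaf (nat_lit 4585865689938071) (.br (nat_lit 0) (.cons (.br (nat_lit 1) (.cons (.rel (nat_lit 20993280)) .nil)) .nil)) .leaf)) (nat_lit 4585865689938175) (.br (nat_lit 1) (.cons (.br (nat_lit 4) (.cons (.rel (nat_lit 2165374980)) .nil)) .nil)) (.node (.node .leaf (nat_lit 4585865689938572) (.br (nat_lit 0) (.cons (.br (nat_lit 1) (.cons (.rel (nat_lit 25166853)) .nil)) .nil)) .leaf) (nat_lit 4585865955258368) (.br (nat_lit 4) (.cons (.br (nat_lit 2) (.cons (.rel (nat_lit 1140851841)) (.cons (.rel (nat_lit 1140854793)) (.cons (.rel (nat_lit 1140854793)) (.cons (.rel (nat_lit 1141113096)) (.cons (.rel (nat_lit 1140851841)) (.cons (.rel (nat_lit 1140851841)) (.cons (.rel (nat_lit 1140855840)) .nil)))))))) (.cons (.br (nat_lit 6) (.cons (.rel (nat_lit 18253874178)) (.cons (.rel (nat_lit 18253627905)) (.cons (.rel (nat_lit 35433612288)) (.cons (.rel (nat_lit 18254004288)) (.cons (.rel (nat_lit 18253616640)) .nil)))))) (.cons (.br (nat_lit 6) (.cons (.rel (nat_lit 19327373328)) (.cons (.rel (nat_lit 19327353921)) (.cons (.rel (nat_lit 18254004288)) (.cons (.br (nat_lit 0) (.cons (.rel (nat_lit 17184327936)) (.cons (.rel (nat_lit 1077937233)) (.cons (.br (nat_lit 1) (.cons (.rel (nat_lit 1090553856)) (.cons (.rel (nat_lit 17196777480)) (.cons (.rel (nat_lit 1090520160)) (.cons (.rel (nat_lit 1090528257)) (.cons (.rel (nat_lit 1090520160)) (.cons (.rel (nat_lit 42206208)) (.cons (.rel (nat_lit 1090539522)) (.cons (.rel (nat_lit 21497856)) (.cons (.rel (nat_lit 1090519113)) .nil)))))))))) (.cons (.rel (nat_lit 17185112580)) (.cons (.rel (nat_lit 1077938244)) (.cons (.rel (nat_lit 17185112580)) (.cons (.rel (nat_lit 17188258368)) .nil)))))))) (.cons (.rel (nat_lit 18254004288)) .nil)))))) (.cons (.br (nat_lit 0) (.cons (.rel (nat_lit 1079247873)) (.cons (.rel (nat_lit 1077944328)) (.cons (.rel (nat_lit 1077952641)) (.cons (.rel (nat_lit 1077937233)) (.cons (.rel (nat_lit 1077938244)) (.cons (.rel (nat_lit 1077937233)) (.cons (.rel (nat_lit 2152218624)) .nil)))))))) (.cons (.br (nat_lit 6) (.cons (.rel (nat_lit 35433612288)) (.cons (.rel (nat_lit 18253874178)) (.cons (.rel (nat_lit 19327353921)) (.cons (.br (nat_lit 1) (.cons (.rel (nat_lit 1090520160)) (.cons (.rel (nat_lit 1090553856)) (.cons (.rel (nat_lit 1090535568)) (.cons (.rel (nat_lit 1090519113)) (.cons (.rel (nat_lit 17196777480)) (.cons (.rel (nat_lit 1090528257)) (.cons (.rel (nat_lit 1090535568)) (.cons (.rel (nat_lit 1090539522)) (.cons (.rel (nat_lit 1090520160)) .nil)))))))))) (.cons (.rel (nat_lit 19327420416)) .nil)))))) .nil)))))) .leaf))) (nat_lit 4585865955258519) (.br (nat_lit 2) (.cons (.br (nat_lit 5) (.cons (.rel (nat_lit 4362108960)) (.cons (.rel (nat_lit 4362078288)) (.cons (.rel (nat_lit 4362093696)) .nil)))) (.cons (.br (nat_lit 5) (.cons (.rel (nat_lit 4362078288)) (.cons (.rel (nat_lit 4362084372)) (.cons (.rel (nat_lit 4362108960)) .nil)))) (.cons (.br (nat_lit 5) (.cons (.rel (nat_lit 8658093060)) (.cons (.rel (nat_lit 4362108960)) (.cons (.rel (nat_lit 4362108960)) .nil)))) .nil)))) (.node (.node (.node (.node .leaf (nat_lit 4585865955258643) (.br (nat_lit 4) (.cons (.br (nat_lit 2) (.cons (.rel (nat_lit 1140855840)) (.cons (.rel (nat_lit 2215657488)) .nil))) .nil)) .leaf) (nat_lit 4585865955258670) (.br (nat_lit 5) (.cons (.br (nat_lit 6) (.cons (.rel (nat_lit 21475104768)) (.cons (.rel (nat_lit 21475889412)) (.cons (.rel (nat_lit 21476474880)) (.cons (.rel (nat_lit 21475104768)) .nil))))) .nil)) (.node .leaf (nat_lit 4585865955259000) (.br (nat_lit 6) (.cons (.br (nat_lit 4) (.cons (.rel (nat_lit 18254004288)) (.cons (.rel (nat_lit 18253874178)) (.cons (.rel (nat_lit 19327385604)) (.cons (.rel (nat_lit 18254660880)) .nil))))) (.cons (.br (nat_lit 4) (.cons (.rel (nat_lit 18253874178)) (.cons (.rel (nat_lit 18253627905)) (.cons (.rel (nat_lit 19327353921)) (.cons (.rel (nat_lit 18253627905)) .nil))))) (.cons (.br (nat_lit 4) (.cons (.rel (nat_lit 18253873176)) (.cons (.rel (nat_lit 18254004288)) (.cons (.br (nat_lit 0) (.cons (.rel (nat_lit 34363933056)) (.cons (.rel (nat_lit 17184327936)) (.cons (.rel (nat_lit 34363933056)) (.cons (.rel (nat_lit 2155876356)) (.cons (.rel (nat_lit 1077944328)) (.cons (.rel (nat_lit 17188258368)) .nil))))))) (.cons (.rel (nat_lit 19327420416)) .nil))))) .nil)))) .leaf)) (nat_lit 4585865955259119) (.br (nat_lit 4) (.cons (.br (nat_lit 2) (.cons (.rel (nat_lit 1140854793)) (.cons (.rel (nat_lit 1140851841)) .nil))) .nil)) (.node (.node .leaf (nat_lit 4585865955259128) (.br (nat_lit 1) (.cons (.br (nat_lit 2) (.cons (.rel (nat_lit 84936720)) (.cons (.rel (nat_lit 84952128)) .nil))) (.cons (.br (nat_lit 6) (.cons (.rel (nat_lit 34376778240)) (.cons (.rel (nat_lit 17196777480)) .nil))) .nil))) .leaf) (nat_lit 4585865955259168) (.br (nat_lit 0) (.cons (.br (nat_lit 2) (.cons (.rel (nat_lit 75505665)) .nil)) .nil)) .leaf)) (nat_lit 4585865955259275) (.br (nat_lit 1) (.cons (.br (nat_lit 2) (.cons (.rel (nat_lit 84936720)) (.cons (.rel (nat_lit 84443136)) .nil))) .nil)) (.node (.node (.node .leaf (nat_lit 4585865955259279) (.br (nat_lit 0) (.cons (.br (nat_lit 2) (.cons (.rel (nat_lit 71435520)) (.cons (.rel (nat_lit 138416130)) (.cons (.rel (nat_lit 75505665)) .nil)))) .nil)) .leaf) (nat_lit 4585865955259629) (.br (nat_lit 6) (.cons (.br (nat_lit 4) (.cons (.rel (nat_lit 18254004288)) (.cons (.rel (nat_lit 18253874178)) (.cons (.rel (nat_lit 19327385604)) (.cons (.rel (nat_lit 18253874178)) (.cons (.rel (nat_lit 18254676288)) .nil)))))) (.cons (.br (nat_lit 0) (.cons (.rel (nat_lit 17184327936)) (.cons (.br (nat_lit 2) (.cons (.rel (nat_lit 71435520)) (.cons (.rel (nat_lit 34493957121)) (.cons (.rel (nat_lit 17247110208)) (.cons (.rel (nat_lit 71307540)) (.cons (.rel (nat_lit 17248092672)) .nil)))))) (.cons (.rel (nat_lit 17188258368)) (.cons (.rel (nat_lit 17184327936)) .nil))))) (.cons (.br (nat_lit 0) (.cons (.rel (nat_lit 17184067620)) (.cons (.rel (nat_lit 17184063621)) (.cons (.rel (nat_lit 17185112580)) (.cons (.rel (nat_lit 17184063621)) .nil))))) .nil)))) (.node .leaf (nat_lit 4585865955259648) (.br (nat_lit 4) (.cons (.br (nat_lit 3) (.cons (.rel (nat_lit 1343766528)) (.cons (.rel (nat_lit 2684420352)) (.cons (.rel (nat_lit 2684420352)) .nil)))) .nil)) .leaf)) (nat_lit 4585865955259780) (.br (nat_lit 0) (.cons (.br (nat_lit 5) (.cons (.rel (nat_lit 4299179088)) (.cons (.rel (nat_lit 8598324240)) (.cons (.rel (nat_lit 8594653185)) .nil)))) .nil)) (.node (.node .leaf (nat_lit 4585865955259800) (.br (nat_lit 0) (.cons (.br (nat_lit 1) (.cons (.rel (nat_lit 42206208)) .nil)) .nil)) .leaf) (nat_lit 4585865955259873) (.br (nat_lit 1) (.cons (.br (nat_lit 2) (.cons (.rel (nat_lit 84936720)) (.cons (.rel (nat_lit 84936720)) .nil))) (.cons (.br (nat_lit 2) (.cons (.rel (nat_lit 84936720)) (.cons (.rel (nat_lit 168050688)) .nil))) .nil))) .leaf)))) (nat_lit 4585865955259904) (.br (nat_lit 1) (.cons (.br (nat_lit 4) (.cons (.rel (nat_lit 2181055488)) (.cons (.rel (nat_lit 1090535568)) (.cons (.rel (nat_lit 1090553856)) .nil)))) (.cons (.br (nat_lit 2) (.cons (.rel (nat_lit 84936720)) (.cons (.rel (nat_lit 83892480)) .nil))) .nil))) (.node (.node (.node (.node (.node .leaf (nat_lit 4585865955348480) (.br (nat_lit 0) (.cons (.br (nat_lit 5) (.cons (.rel (nat_lit 4299163680)) (.cons (.rel (nat_lit 8598324240)) (.cons (.rel (nat_lit 4299163680)) .nil)))) (.cons (.br (nat_lit 5) (.cons (.rel (nat_lit 4299179088)) (.cons (.rel (nat_lit 8594409984)) (.cons (.rel (nat_lit 4299161622)) .nil)))) .nil))) .leaf) (nat_lit 4585865955348665) (.br (nat_lit 5) (.cons (.br (nat_lit 4) (.cons (.rel (nat_lit 9663709185)) (.cons (.rel (nat_lit 5368972368)) .nil))) .nil)) (.node .leaf (nat_lit 4585865955348766) (.br (nat_lit 5) (.cons (.br (nat_lit 6) (.cons (.rel (nat_lit 38654706756)) .nil)) .nil)) .leaf)) (nat_lit 4585865955349232) (.br (nat_lit 0) (.cons (.br (nat_lit 3) (.cons (.rel (nat_lit 272631936)) (.cons (.rel (nat_lit 272631936)) .nil))) .nil)) (.node (.node .leaf (nat_lit 4585865955349905) (.br (nat_lit 5) (.cons (.br (nat_lit 6) (.cons (.rel (nat_lit 38654706756)) (.cons (.rel (nat_lit 42949689600)) .nil))) .nil)) .leaf) (nat_lit 4585865955350016) (.br (nat_lit 5) (.cons (.br (nat_lit 3) (.cons (.rel (nat_lit 4563730497)) (.cons (.rel (nat_lit 4563669012)) .nil))) .nil)) (.node .leaf (nat_lit 4585865955350040) (.br (nat_lit 5) (.cons (.br (nat_lit 6) (.cons (.rel (nat_lit 25769807889)) .nil)) .nil)) .leaf))) (nat_lit 4585865955371194) (.br (nat_lit 6) (.cons (.br (nat_lit 0) (.cons (.rel (nat_lit 17184327936)) (.cons (.rel (nat_lit 17184063621)) .nil))) .nil)) (.node (.node (.node .leaf (nat_lit 4585865955371263) (.br (nat_lit 0) (.cons (.br (nat_lit 1) (.cons (.rel (nat_lit 21497856)) (.cons (.rel (nat_lit 37749780)) (.cons (.rel (nat_lit 21004545)) .nil)))) .nil)) .leaf) (nat_lit 4585865955371314) (.br (nat_lit 1) (.cons (.br (nat_lit 6) (.cons (.rel (nat_lit 17196777480)) (.cons (.rel (nat_lit 17196663825)) (.cons (.rel (nat_lit 17196777480)) .nil)))) .nil)) (.node .leaf (nat_lit 4585865955371788) (.br (nat_lit 6) (.cons (.br (nat_lit 0) (.cons (.rel (nat_lit 17184130116)) (.cons (.br (nat_lit 1) (.cons (.rel (nat_lit 42206208)) (.cons (.rel (nat_lit 34393358340)) (.cons (.rel (nat_lit 17197957188)) (.cons (.rel (nat_lit 17196777480)) .nil))))) (.cons (.rel (nat_lit 34368129108)) .nil)))) (.cons (.br (nat_lit 0) (.cons (.rel (nat_lit 17184065682)) (.cons (.rel (nat_lit 17184069633)) (.cons (.rel (nat_lit 17184063621)) .nil)))) .nil))) .leaf)) (nat_lit 4585865955371939) (.br (nat_lit 0) (.cons (.br (nat_lit 4) (.cons (.rel (nat_lit 2155876356)) (.cons (.rel (nat_lit 1077956640)) .nil))) .nil)) (.node (.node .leaf (nat_lit 4585865955372440) (.br (nat_lit 1) (.cons (.br (nat_lit 5) (.cons (.rel (nat_lit 4311746562)) .nil)) .nil)) .leaf) (nat_lit 4585865955372533) (.br (nat_lit 5) (.cons (.br (nat_lit 1) (.cons (.rel (nat_lit 4311745560)) (.cons (.rel (nat_lit 8607760512)) .nil))) .nil)) .leaf))) (nat_lit 4585865955504128) (.br (nat_lit 5) (.cons (.br (nat_lit 1) (.cons (.rel (nat_lit 4311770112)) (.cons (.rel (nat_lit 4311745560)) (.cons (.rel (nat_lit 4312859136)) (.cons (.rel (nat_lit 4311770112)) .nil))))) (.cons (.br (nat_lit 1) (.cons (.rel (nat_lit 4311770112)) (.cons (.rel (nat_lit 4311781377)) (.cons (.rel (nat_lit 8607236112)) (.cons (.rel (nat_lit 4311770112)) .nil))))) (.cons (.br (nat_lit 1) (.cons (.rel (nat_lit 4311746562)) (.cons (.rel (nat_lit 4311745560)) (.cons (.rel (nat_lit 4311745560)) (.cons (.rel (nat_lit 4311744549)) .nil))))) .nil)))) (.node (.node (.node (.node .leaf (nat_lit 4585865955504263) (.br (nat_lit 6) (.cons (.br (nat_lit 4) (.cons (.rel (nat_lit 35433612288)) (.cons (.rel (nat_lit 18253874178)) .nil))) .nil)) .leaf) (nat_lit 4585865955504279) (.br (nat_lit 1) (.cons (.br (nat_lit 5) (.cons (.rel (nat_lit 4311810177)) (.cons (.rel (nat_lit 8623490049)) (.cons (.rel (nat_lit 4311744549)) .nil)))) (.cons (.br (nat_lit 5) (.cons (.rel (nat_lit 4311744549)) (.cons (.rel (nat_lit 4311744549)) (.cons (.rel (nat_lit 4311746562)) .nil)))) (.cons (.br (nat_lit 6) (.cons (.rel (nat_lit 17196777480)) (.cons (.rel (nat_lit 17213948160)) (.cons (.rel (nat_lit 34393358340)) (.cons (.rel (nat_lit 34393358340)) (.cons (.rel (nat_lit 17213948160)) (.cons (.rel (nat_lit 34393358340)) .nil))))))) .nil)))) (.node .leaf (nat_lit 4585865955504430) (.br (nat_lit 0) (.cons (.br (nat_lit 5) (.cons (.rel (nat_lit 4299163680)) (.cons (.rel (nat_lit 8598324240)) .nil))) .nil)) .leaf)) (nat_lit 4585865955504813) (.br (nat_lit 2) (.cons (.br (nat_lit 4) (.cons (.rel (nat_lit 2214613248)) .nil)) .nil)) (.node (.node .leaf (nat_lit 4585865955505028) (.br (nat_lit 1) (.cons (.br (nat_lit 5) (.cons (.rel (nat_lit 4311770112)) .nil)) .nil)) .leaf) (nat_lit 4585865955505540) (.br (nat_lit 1) (.cons (.br (nat_lit 6) (.cons (.rel (nat_lit 17196777480)) .nil)) .nil)) .leaf)) (nat_lit 4585865955505660) (.br (nat_lit 0) (.cons (.br (nat_lit 5) (.cons (.rel (nat_lit 4299194496)) .nil)) .nil)) (.node (.node (.node .leaf (nat_lit 4585865955567616) (.br (nat_lit 4) (.cons (.br (nat_lit 5) (.cons (.br (nat_lit 0) (.cons (.rel (nat_lit 2155876356)) (.cons (.rel (nat_lit 8594137344)) (.cons (.rel (nat_lit 1077937233)) (.cons (.rel (nat_lit 1078001670)) (.cons (.rel (nat_lit 4299424068)) (.cons (.rel (nat_lit 1077938244)) .nil))))))) .nil)) .nil)) .leaf) (nat_lit 4585865955567622) (.br (nat_lit 6) (.cons (.br (nat_lit 4) (.cons (.rel (nat_lit 18254660880)) (.cons (.rel (nat_lit 18254660880)) .nil))) .nil)) (.node .leaf (nat_lit 4585865955567628) (.br (nat_lit 4) (.cons (.br (nat_lit 5) (.cons (.rel (nat_lit 5369036805)) .nil)) .nil)) .leaf)) (nat_lit 4585865955567767) (.br (nat_lit 4) (.cons (.br (nat_lit 6) (.cons (.rel (nat_lit 18253873176)) (.cons (.rel (nat_lit 18253897728)) (.cons (.rel (nat_lit 18253627905)) (.cons (.rel (nat_lit 18253873176)) .nil))))) (.cons (.br (nat_lit 5) (.cons (.rel (nat_lit 10737418500)) (.cons (.rel (nat_lit 5368709640)) (.cons (.rel (nat_lit 10737418500)) .nil)))) .nil))) (.node (.node .leaf (nat_lit 4585865955567801) (.br (nat_lit 4) (.cons (.br (nat_lit 5) (.cons (.rel (nat_lit 5370283008)) .nil)) .nil)) .leaf) (nat_lit 4585865955567898) (.br (nat_lit 2) (.cons (.br (nat_lit 5) (.cons (.rel (nat_lit 4362084372)) .nil)) .nil)) .leaf))))) (nat_lit 4585865955567918) (.br (nat_lit 2) (.cons (.br (nat_lit 4) (.cons (.rel (nat_lit 1140867105)) (.cons (.rel (nat_lit 1140867105)) .nil))) (.cons (.br (nat_lit 5) (.cons (.rel (nat_lit 8724168720)) (.cons (.rel (nat_lit 4362108960)) (.cons (.rel (nat_lit 4362108960)) .nil)))) .nil))) (.node (.node (.node (.node (.node (.node .leaf (nat_lit 4585865955568291) (.br (nat_lit 1) (.cons (.br (nat_lit 4) (.cons (.rel (nat_lit 1090585608)) .nil)) .nil)) .leaf) (nat_lit 4585865955568301) (.br (nat_lit 2) (.cons (.br (nat_lit 4) (.cons (.rel (nat_lit 1141113096)) .nil)) .nil)) (.node .leaf (nat_lit 4585865955568376) (.br (nat_lit 0) (.cons (.br (nat_lit 4) (.cons (.rel (nat_lit 1078001670)) .nil)) .nil)) .leaf)) (nat_lit 4585865955568527) (.br (nat_lit 5) (.cons (.br (nat_lit 1) (.cons (.rel (nat_lit 8623490049)) (.cons (.rel (nat_lit 4311746562)) .nil))) .nil)) (.node (.node .leaf (nat_lit 4585865955568547) (.br (nat_lit 4) (.cons (.br (nat_lit 6) (.cons (.rel (nat_lit 18255773700)) (.cons (.rel (nat_lit 35433612288)) .nil))) .nil)) .leaf) (nat_lit 4585865955568877) (.br (nat_lit 5) (.cons (.br (nat_lit 2) (.cons (.rel (nat_lit 4362108960)) (.cons (.rel (nat_lit 4362108960)) (.cons (.rel (nat_lit 4363388928)) (.cons (.rel (nat_lit 4362108960)) .nil))))) (.cons (.br (nat_lit 2) (.cons (.rel (nat_lit 4362076230)) (.cons (.rel (nat_lit 4362108960)) (.cons (.rel (nat_lit 4362084372)) (.cons (.rel (nat_lit 4362404160)) .nil))))) .nil))) (.node .leaf (nat_lit 4585865955569048) (.br (nat_lit 0) (.cons (.br (nat_lit 4) (.cons (.rel (nat_lit 1078001670)) (.cons (.rel (nat_lit 1077956640)) .nil))) .nil)) .leaf))) (nat_lit 4585865955569121) (.br (nat_lit 0) (.cons (.br (nat_lit 4) (.cons (.rel (nat_lit 1077937233)) (.cons (.rel (nat_lit 1077938244)) .nil))) .nil)) (.node (.node (.node .leaf (nat_lit 4585865955569152) (.br (nat_lit 6) (.cons (.br (nat_lit 1) (.cons (.rel (nat_lit 17196650502)) (.cons (.rel (nat_lit 17196663825)) .nil))) .nil)) .leaf) (nat_lit 4585865955569176) (.br (nat_lit 4) (.cons (.br (nat_lit 6) (.cons (.rel (nat_lit 18253873176)) .nil)) .nil)) (.node .leaf (nat_lit 4585865955573760) (.br (nat_lit 6) (.cons (.br (nat_lit 4) (.cons (.rel (nat_lit 35433545793)) (.cons (.rel (nat_lit 19327353921)) (.cons (.rel (nat_lit 18253873176)) (.cons (.rel (nat_lit 19327385604)) (.cons (.rel (nat_lit 18253874178)) .nil)))))) (.cons (.br (nat_lit 4) (.cons (.rel (nat_lit 35433484308)) (.cons (.rel (nat_lit 19327353921)) (.cons (.rel (nat_lit 18253873176)) (.cons (.rel (nat_lit 18253897728)) (.cons (.rel (nat_lit 18253874178)) .nil)))))) (.cons (.br (nat_lit 5) (.cons (.rel (nat_lit 21476474880)) (.cons (.rel (nat_lit 38654706756)) (.cons (.rel (nat_lit 38654706756)) (.cons (.br (nat_lit 4) (.cons (.rel (nat_lit 35433612288)) (.cons (.rel (nat_lit 5368709640)) (.cons (.rel (nat_lit 18253873176)) (.cons (.rel (nat_lit 6442456065)) (.cons (.rel (nat_lit 5368972368)) .nil)))))) (.cons (.rel (nat_lit 38654706756)) (.cons (.rel (nat_lit 38654706756)) (.cons (.rel (nat_lit 38654706756)) .nil)))))))) (.cons (.br (nat_lit 4) (.cons (.rel (nat_lit 18253616640)) (.cons (.rel (nat_lit 18253627905)) (.cons (.rel (nat_lit 18253874178)) (.cons (.rel (nat_lit 35433484308)) (.cons (.rel (nat_lit 18253873176)) .nil)))))) .nil))))) .leaf)) (nat_lit 4585865955573766) (.br (nat_lit 6) (.cons (.br (nat_lit 1) (.cons (.rel (nat_lit 17197957188)) (.cons (.rel (nat_lit 17196777480)) .nil))) .nil)) (.node (.node .leaf (nat_lit 4585865955574685) (.br (nat_lit 6) (.cons (.br (nat_lit 2) (.cons (.rel (nat_lit 34493957121)) (.cons (.rel (nat_lit 17246978085)) (.cons (.rel (nat_lit 17247003648)) .nil)))) (.cons (.br (nat_lit 1) (.cons (.rel (nat_lit 17196777480)) (.cons (.rel (nat_lit 17196777480)) (.cons (.rel (nat_lit 34393358340)) .nil)))) .nil))) .leaf) (nat_lit 4585865955575035) (.br (nat_lit 2) (.cons (.br (nat_lit 5) (.cons (.rel (nat_lit 4362078288)) .nil)) .nil)) .leaf))) (nat_lit 4585865955575046) (.br (nat_lit 0) (.cons (.br (nat_lit 2) (.cons (.rel (nat_lit 138412176)) .nil)) .nil)) (.node (.node (.node (.node .leaf (nat_lit 4585865955575321) (.br (nat_lit 1) (.cons (.br (nat_lit 0) (.cons (.rel (nat_lit 42206208)) (.cons (.rel (nat_lit 42206208)) .nil))) .nil)) .leaf) (nat_lit 4585865955762176) (.br (nat_lit 4) (.cons (.br (nat_lit 0) (.cons (.rel (nat_lit 1077937233)) (.cons (.rel (nat_lit 2152218624)) (.cons (.rel (nat_lit 2151679233)) (.cons (.rel (nat_lit 1077944328)) (.cons (.rel (nat_lit 1077937233)) (.cons (.rel (nat_lit 1079247873)) (.cons (.rel (nat_lit 1078329600)) .nil)))))))) (.cons (.br (nat_lit 6) (.cons (.rel (nat_lit 18253897728)) (.cons (.br (nat_lit 2) (.cons (.rel (nat_lit 2281766913)) (.cons (.rel (nat_lit 34493957121)) (.cons (.rel (nat_lit 2281766913)) (.cons (.rel (nat_lit 17247110208)) (.cons (.rel (nat_lit 17247110208)) (.cons (.rel (nat_lit 1140854793)) .nil))))))) (.cons (.rel (nat_lit 18253897728)) (.cons (.rel (nat_lit 18255773700)) (.cons (.rel (nat_lit 18253897728)) (.cons (.rel (nat_lit 35433612288)) (.cons (.br (nat_lit 2) (.cons (.rel (nat_lit 2281766913)) (.cons (.rel (nat_lit 17246978085)) (.cons (.rel (nat_lit 2281766913)) (.cons (.rel (nat_lit 17246980098)) (.cons (.rel (nat_lit 17246980098)) (.cons (.rel (nat_lit 1140854793)) .nil))))))) .nil)))))))) (.cons (.br (nat_lit 6) (.cons (.rel (nat_lit 19327353921)) (.cons (.rel (nat_lit 18253616640)) (.cons (.rel (nat_lit 18253627905)) (.cons (.br (nat_lit 1) (.cons (.rel (nat_lit 34393358340)) (.cons (.rel (nat_lit 1090553856)) (.cons (.rel (nat_lit 1090520160)) (.cons (.rel (nat_lit 2181055488)) (.cons (.rel (nat_lit 1090535568)) (.cons (.rel (nat_lit 1090535568)) (.cons (.rel (nat_lit 1090553856)) (.cons (.rel (nat_lit 1090520160)) (.cons (.rel (nat_lit 1090519113)) .nil)))))))))) (.cons (.rel (nat_lit 18253616640)) (.cons (.rel (nat_lit 35433485322)) (.cons (.rel (nat_lit 18253627905)) .nil)))))))) (.cons (.br (nat_lit 0) (.cons (.rel (nat_lit 2155876356)) (.cons (.br (nat_lit 1) (.cons (.br (nat_lit 3) (.cons (.rel (nat_lit 285253632)) (.cons (.rel (nat_lit 2415919176)) (.cons (.rel (nat_lit 2684420352)) (.cons (.rel (nat_lit 2415928320)) (.cons (.rel (nat_lit 1342440480)) (.cons (.rel (nat_lit 2415928320)) (.cons (.rel (nat_lit 545260608)) (.cons (.rel (nat_lit 1342439433)) (.cons (.rel (nat_lit 2684420352)) .nil)))))))))) (.cons (.rel (nat_lit 1090519113)) (.cons (.rel (nat_lit 1090520160)) (.cons (.rel (nat_lit 1090520160)) (.cons (.rel (nat_lit 1090520160)) (.cons (.rel (nat_lit 2181055488)) (.cons (.rel (nat_lit 21497856)) (.cons (.rel (nat_lit 1090519113)) (.cons (.rel (nat_lit 2182356996)) .nil)))))))))) (.cons (.rel (nat_lit 1078001670)) (.cons (.br (nat_lit 6) (.cons (.rel (nat_lit 19327373328)) (.cons (.rel (nat_lit 34363933056)) (.cons (.rel (nat_lit 35433545793)) (.cons (.rel (nat_lit 17184327936)) (.cons (.rel (nat_lit 19327373328)) (.cons (.rel (nat_lit 35433545793)) (.cons (.rel (nat_lit 19327363077)) .nil)))))))) (.cons (.rel (nat_lit 1077938244)) (.cons (.rel (nat_lit 1077938244)) (.cons (.rel (nat_lit 1077938244)) .nil)))))))) .nil))))) (.node .leaf (nat_lit 4585865955762208) (.br (nat_lit 1) (.cons (.br (nat_lit 4) (.cons (.rel (nat_lit 2164277568)) (.cons (.rel (nat_lit 1090535568)) (.cons (.rel (nat_lit 1090535568)) .nil)))) .nil)) .leaf)) (nat_lit 4585865955762327) (.br (nat_lit 5) (.cons (.br (nat_lit 4) (.cons (.rel (nat_lit 9663697920)) (.cons (.rel (nat_lit 10737418500)) (.cons (.rel (nat_lit 5368987776)) .nil)))) (.cons (.br (nat_lit 4) (.cons (.rel (nat_lit 5368709640)) (.cons (.rel (nat_lit 6442456065)) (.cons (.rel (nat_lit 5368709640)) .nil)))) .nil))) (.node (.node .leaf (nat_lit 4585865955762937) (.br (nat_lit 4) (.cons (.br (nat_lit 5) (.cons (.rel (nat_lit 5369778432)) (.cons (.rel (nat_lit 5368709640)) .nil))) (.cons (.br (nat_lit 5) (.cons (.rel (nat_lit 5370283008)) (.cons (.rel (nat_lit 10737418500)) .nil))) .nil))) .leaf) (nat_lit 4585865955763451) (.br (nat_lit 4) (.cons (.br (nat_lit 5) (.cons (.rel (nat_lit 9663709185)) (.cons (.rel (nat_lit 10737418500)) .nil))) (.cons (.br (nat_lit 5) (.cons (.rel (nat_lit 10737418500)) (.cons (.rel (nat_lit 5368709640)) .nil))) .nil))) .leaf)) (nat_lit 4585865955763588) (.br (nat_lit 0) (.cons (.br (nat_lit 1) (.cons (.rel (nat_lit 20971860)) (.cons (.rel (nat_lit 42206208)) (.cons (.rel (nat_lit 21497856)) .nil)))) (.cons (.br (nat_lit 4) (.cons (.rel (nat_lit 1077956640)) (.cons (.rel (nat_lit 1077937233)) .nil))) .nil))) (.node (.node (.node .leaf (nat_lit 4585865955763602) (.br (nat_lit 6) (.cons (.br (nat_lit 1) (.cons (.rel (nat_lit 34376778240)) (.cons (.rel (nat_lit 17196646548)) (.cons (.rel (nat_lit 17196650502)) (.cons (.rel (nat_lit 34393358340)) (.cons (.rel (nat_lit 34376778240)) .nil)))))) (.cons (.br (nat_lit 4) (.cons (.rel (nat_lit 35433612288)) (.cons (.rel (nat_lit 18253627905)) (.cons (.rel (nat_lit 35433545793)) .nil)))) .nil))) .leaf) (nat_lit 4585865955763612) (.br (nat_lit 1) (.cons (.br (nat_lit 6) (.cons (.rel (nat_lit 17196646548)) (.cons (.rel (nat_lit 17196777480)) .nil))) (.cons (.br (nat_lit 2) (.cons (.rel (nat_lit 168050688)) (.cons (.rel (nat_lit 151003200)) .nil))) .nil))) (.node .leaf (nat_lit 4585865955763683) (.br (nat_lit 4) (.cons (.br (nat_lit 6) (.cons (.br (nat_lit 2) (.cons (.rel (nat_lit 1140854793)) (.cons (.rel (nat_lit 17248092672)) (.cons (.rel (nat_lit 2215117824)) (.cons (.rel (nat_lit 17247502980)) .nil))))) (.cons (.rel (nat_lit 19327373328)) (.cons (.rel (nat_lit 19327363077)) .nil)))) (.cons (.br (nat_lit 6) (.cons (.rel (nat_lit 35433545793)) (.cons (.rel (nat_lit 18253616640)) (.cons (.br (nat_lit 2) (.cons (.rel (nat_lit 1140851841)) (.cons (.rel (nat_lit 17316188160)) (.cons (.rel (nat_lit 1140854793)) (.cons (.rel (nat_lit 2281766913)) .nil))))) .nil)))) .nil))) .leaf)) (nat_lit 4585865955763736) (.br (nat_lit 5) (.cons (.br (nat_lit 4) (.cons (.rel (nat_lit 10737418500)) (.cons (.rel (nat_lit 6442456065)) .nil))) .nil)) (.node (.node .leaf (nat_lit 4585865955763737) (.br (nat_lit 0) (.cons (.br (nat_lit 6) (.cons (.rel (nat_lit 17184069633)) .nil)) .nil)) .leaf) (nat_lit 4585865955780614) (.br (nat_lit 5) (.cons (.br (nat_lit 2) (.cons (.rel (nat_lit 4362078288)) (.cons (.rel (nat_lit 4362093696)) .nil))) .nil)) .leaf)))) (nat_lit 4585865955780790) (.br (nat_lit 4) (.cons (.br (nat_lit 3) (.cons (.rel (nat_lit 1342455888)) (.cons (.rel (nat_lit 1342440480)) (.cons (.rel (nat_lit 1610618880)) .nil)))) .nil)) (.node (.node (.node (.node (.node .leaf (nat_lit 4585865955780863) (.br (nat_lit 0) (.cons (.br (nat_lit 3) (.cons (.rel (nat_lit 272631936)) (.cons (.rel (nat_lit 272631936)) (.cons (.rel (nat_lit 272631936)) .nil)))) .nil)) .leaf) (nat_lit 4585865955781260) (.br (nat_lit 0) (.cons (.br (nat_lit 4) (.cons (.rel (nat_lit 1077937233)) (.cons (.rel (nat_lit 1077944328)) (.cons (.rel (nat_lit 1077937233)) .nil)))) (.cons (.br (nat_lit 5) (.cons (.rel (nat_lit 4303360512)) (.cons (.rel (nat_lit 8598324240)) .nil))) .nil))) (.node .leaf (nat_lit 4585865955781388) (.br (nat_lit 4) (.cons (.br (nat_lit 5) (.cons (.rel (nat_lit 10737418500)) (.cons (.rel (nat_lit 6442456065)) (.cons (.rel (nat_lit 10737420561)) .nil)))) (.cons (.br (nat_lit 0) (.cons (.rel (nat_lit 1077937233)) (.cons (.rel (nat_lit 1077944328)) (.cons (.rel (nat_lit 1083244800)) (.cons (.rel (nat_lit 1077938244)) (.cons (.rel (nat_lit 2155872405)) (.cons (.rel (nat_lit 1077938244)) .nil))))))) (.cons (.br (nat_lit 5) (.cons (.rel (nat_lit 5368972368)) (.cons (.rel (nat_lit 6442456065)) (.cons (.rel (nat_lit 5368987776)) .nil)))) .nil)))) .leaf)) (nat_lit 4585865955781415) (.br (nat_lit 0) (.cons (.br (nat_lit 2) (.cons (.rel (nat_lit 72417408)) (.cons (.rel (nat_lit 72417408)) .nil))) .nil)) (.node (.node .leaf (nat_lit 4585865955781419) (.br (nat_lit 4) (.cons (.br (nat_lit 5) (.cons (.rel (nat_lit 9664987140)) .nil)) .nil)) .leaf) (nat_lit 4585865955781533) (.br (nat_lit 0) (.cons (.br (nat_lit 1) (.cons (.rel (nat_lit 42206208)) (.cons (.rel (nat_lit 21497856)) .nil))) (.cons (.br (nat_lit 6) (.cons (.rel (nat_lit 17184067620)) (.cons (.rel (nat_lit 17184063621)) .nil))) .nil))) .leaf)) (nat_lit 4585865955781539) (.br (nat_lit 0) (.cons (.br (nat_lit 4) (.cons (.rel (nat_lit 2155876356)) .nil)) .nil)) (.node (.node (.node .leaf (nat_lit 4585865955782040) (.br (nat_lit 4) (.cons (.br (nat_lit 3) (.cons (.rel (nat_lit 1342440480)) (.cons (.rel (nat_lit 2684420352)) (.cons (.rel (nat_lit 1610612868)) .nil)))) .nil)) .leaf) (nat_lit 4585865955782140) (.br (nat_lit 5) (.cons (.br (nat_lit 3) (.cons (.rel (nat_lit 8858370192)) (.cons (.rel (nat_lit 8858374146)) .nil))) .nil)) (.node .leaf (nat_lit 4585865955782169) (.br (nat_lit 4) (.cons (.br (nat_lit 0) (.cons (.rel (nat_lit 1077944328)) (.cons (.rel (nat_lit 1077938244)) .nil))) .nil)) .leaf)) (nat_lit 4585865955883168) (.br (nat_lit 3) (.cons (.br (nat_lit 5) (.cons (.rel (nat_lit 4831872000)) (.cons (.rel (nat_lit 4563796992)) .nil))) (.cons (.br (nat_lit 5) (.cons (.rel (nat_lit 4831872000)) (.cons (.rel (nat_lit 4831838304)) .nil))) .nil))) (.node (.node .leaf (nat_lit 4585865955883313) (.br (nat_lit 3) (.cons (.br (nat_lit 1) (.cons (.rel (nat_lit 286588929)) (.cons (.rel (nat_lit 286588929)) .nil))) .nil)) .leaf) (nat_lit 4585865955884433) (.br (nat_lit 0) (.cons (.br (nat_lit 3) (.cons (.rel (nat_lit 272631936)) .nil)) .nil)) .leaf))) (nat_lit 4585865955884434) (.br (nat_lit 0) (.cons (.br (nat_lit 2) (.cons (.rel (nat_lit 142607937)) .nil)) .nil)) (.node (.node (.node (.node .leaf (nat_lit 4585865956526755) (.br (nat_lit 1) (.cons (.br (nat_lit 6) (.cons (.rel (nat_lit 34393358340)) (.cons (.rel (nat_lit 17196646548)) .nil))) (.cons (.br (nat_lit 6) (.cons (.rel (nat_lit 17196663825)) (.cons (.rel (nat_lit 17196646548)) .nil))) .nil))) .leaf) (nat_lit 4585865956526841) (.br (nat_lit 0) (.cons (.br (nat_lit 5) (.cons (.rel (nat_lit 8598324240)) (.cons (.rel (nat_lit 4300489728)) .nil))) (.cons (.br (nat_lit 4) (.cons (.rel (nat_lit 2152727616)) (.cons (.rel (nat_lit 2152218624)) .nil))) .nil))) (.node .leaf (nat_lit 4585865956526887) (.br (nat_lit 1) (.cons (.br (nat_lit 4) (.cons (.rel (nat_lit 1090585608)) .nil)) .nil)) .leaf)) (nat_lit 4585865956526982) (.br (nat_lit 4) (.cons (.br (nat_lit 1) (.cons (.rel (nat_lit 1090535568)) (.cons (.rel (nat_lit 1090585608)) .nil))) .nil)) (.node (.node .leaf (nat_lit 4585865956527582) (.br (nat_lit 1) (.cons (.br (nat_lit 2) (.cons (.rel (nat_lit 83927298)) (.cons (.rel (nat_lit 100663377)) .nil))) .nil)) .leaf) (nat_lit 4585865956527641) (.br (nat_lit 1) (.cons (.br (nat_lit 0) (.cons (.rel (nat_lit 22052928)) (.cons (.rel (nat_lit 20971860)) .nil))) .nil)) .leaf)) (nat_lit 4585865956601888) (.br (nat_lit 2) (.cons (.br (nat_lit 4) (.cons (.rel (nat_lit 2214627585)) .nil)) .nil)) (.node (.node (.node .leaf (nat_lit 4585865956602018) (.br (nat_lit 0) (.cons (.br (nat_lit 5) (.cons (.rel (nat_lit 4299194496)) (.cons (.rel (nat_lit 4299163680)) .nil))) (.cons (.br (nat_lit 5) (.cons (.rel (nat_lit 4299161622)) (.cons (.rel (nat_lit 4299161622)) .nil))) .nil))) .leaf) (nat_lit 4585865956602038) (.br (nat_lit 4) (.cons (.br (nat_lit 2) (.cons (.rel (nat_lit 1140918336)) (.cons (.rel (nat_lit 1140918336)) (.cons (.rel (nat_lit 1140855840)) (.cons (.rel (nat_lit 1140854793)) .nil))))) (.cons (.br (nat_lit 2) (.cons (.rel (nat_lit 1140855840)) (.cons (.rel (nat_lit 2281766913)) (.cons (.rel (nat_lit 2281766913)) (.cons (.rel (nat_lit 1140851841)) .nil))))) .nil))) (.node .leaf (nat_lit 4585865956602636) (.br (nat_lit 4) (.cons (.br (nat_lit 6) (.cons (.rel (nat_lit 18253616640)) (.cons (.rel (nat_lit 18253897728)) .nil))) (.cons (.br (nat_lit 6) (.cons (.rel (nat_lit 18253616640)) (.cons (.rel (nat_lit 18253897728)) .nil))) .nil))) .leaf)) (nat_lit 4585865956602667) (.br (nat_lit 0) (.cons (.br (nat_lit 6) (.cons (.rel (nat_lit 17184130116)) (.cons (.rel (nat_lit 17184063621)) .nil))) .nil)) (.node (.node .leaf (nat_lit 4585865956602758) (.br (nat_lit 2) (.cons (.br (nat_lit 1) (.cons (.rel (nat_lit 84936720)) (.cons (.rel (nat_lit 83892480)) .nil))) .nil)) .leaf) (nat_lit 4585865956603288) (.br (nat_lit 2) (.cons (.br (nat_lit 5) (.cons (.rel (nat_lit 4362093696)) (.cons (.rel (nat_lit 4362076230)) (.cons (.rel (nat_lit 4362078288)) (.cons (.rel (nat_lit 8724168720)) (.cons (.rel (nat_lit 4362076230)) .nil)))))) .nil)) .leaf)))))) (nat_lit 4585865956603361) (.br (nat_lit 0) (.cons (.br (nat_lit 2) (.cons (.rel (nat_lit 138543108)) (.cons (.rel (nat_lit 71307540)) (.cons (.rel (nat_lit 72353793)) (.cons (.rel (nat_lit 72353793)) .nil))))) .nil)) (.node (.node (.node (.node (.node (.node (.node .leaf (nat_lit 4585865956603388) (.br (nat_lit 4) (.cons (.br (nat_lit 5) (.cons (.rel (nat_lit 6442456065)) (.cons (.rel (nat_lit 6442516548)) .nil))) .nil)) .leaf) (nat_lit 4585865956628480) (.br (nat_lit 0) (.cons (.br (nat_lit 5) (.cons (.rel (nat_lit 4299162633)) (.cons (.rel (nat_lit 8598324240)) (.cons (.rel (nat_lit 8598339648)) (.cons (.rel (nat_lit 8594137344)) (.cons (.rel (nat_lit 4299162633)) (.cons (.rel (nat_lit 4299179088)) (.cons (.rel (nat_lit 4299163680)) (.cons (.rel (nat_lit 4299424068)) .nil))))))))) (.cons (.br (nat_lit 2) (.cons (.rel (nat_lit 75563016)) (.cons (.rel (nat_lit 75531264)) (.cons (.rel (nat_lit 71369025)) (.cons (.rel (nat_lit 72353793)) (.cons (.rel (nat_lit 71369025)) (.cons (.rel (nat_lit 71435520)) .nil))))))) (.cons (.br (nat_lit 5) (.cons (.rel (nat_lit 4299161622)) (.cons (.rel (nat_lit 4299163680)) (.cons (.rel (nat_lit 8594653185)) (.cons (.rel (nat_lit 4299162633)) (.cons (.rel (nat_lit 4299163680)) (.cons (.rel (nat_lit 4299161622)) (.cons (.rel (nat_lit 4299161622)) (.cons (.rel (nat_lit 4299161622)) .nil))))))))) (.cons (.br (nat_lit 1) (.cons (.rel (nat_lit 42206208)) (.cons (.rel (nat_lit 39063552)) (.cons (.rel (nat_lit 20993280)) (.cons (.rel (nat_lit 42206208)) (.cons (.rel (nat_lit 42206208)) .nil)))))) .nil))))) (.node .leaf (nat_lit 4585865956628631) (.br (nat_lit 0) (.cons (.br (nat_lit 1) (.cons (.rel (nat_lit 26609664)) (.cons (.rel (nat_lit 25428288)) (.cons (.rel (nat_lit 42206208)) .nil)))) (.cons (.br (nat_lit 6) (.cons (.rel (nat_lit 17184327936)) (.cons (.rel (nat_lit 17185112580)) (.cons (.rel (nat_lit 34364981250)) .nil)))) .nil))) .leaf)) (nat_lit 4585865956628782) (.br (nat_lit 0) (.cons (.br (nat_lit 5) (.cons (.rel (nat_lit 8598324240)) (.cons (.rel (nat_lit 4299179088)) .nil))) (.cons (.br (nat_lit 5) (.cons (.rel (nat_lit 4303360512)) (.cons (.rel (nat_lit 4299179088)) .nil))) .nil))) (.node (.node .leaf (nat_lit 4585865956629240) (.br (nat_lit 2) (.cons (.br (nat_lit 1) (.cons (.rel (nat_lit 83892480)) (.cons (.rel (nat_lit 151000068)) .nil))) .nil)) .leaf) (nat_lit 4585865956629260) (.br (nat_lit 0) (.cons (.br (nat_lit 6) (.cons (.rel (nat_lit 17184080898)) .nil)) .nil)) (.node .leaf (nat_lit 4585865956629280) (.br (nat_lit 0) (.cons (.br (nat_lit 3) (.cons (.rel (nat_lit 272631936)) (.cons (.rel (nat_lit 541327872)) .nil))) .nil)) .leaf))) (nat_lit 4585865956629380) (.br (nat_lit 5) (.cons (.br (nat_lit 1) (.cons (.rel (nat_lit 4311746562)) (.cons (.rel (nat_lit 8607236112)) .nil))) .nil)) (.node (.node (.node .leaf (nat_lit 4585865956629391) (.br (nat_lit 1) (.cons (.br (nat_lit 0) (.cons (.br (nat_lit 2) (.cons (.rel (nat_lit 138430464)) (.cons (.rel (nat_lit 83886468)) (.cons (.rel (nat_lit 100664388)) .nil)))) (.cons (.rel (nat_lit 21497856)) (.cons (.rel (nat_lit 20971860)) .nil)))) (.cons (.br (nat_lit 0) (.cons (.rel (nat_lit 20993280)) (.cons (.rel (nat_lit 21004545)) (.cons (.rel (nat_lit 22024197)) .nil)))) .nil))) .leaf) (nat_lit 4585865956629912) (.br (nat_lit 5) (.cons (.br (nat_lit 0) (.cons (.rel (nat_lit 4299163680)) (.cons (.rel (nat_lit 8594653185)) .nil))) .nil)) (.node .leaf (nat_lit 4585865956629981) (.br (nat_lit 0) (.cons (.br (nat_lit 6) (.cons (.rel (nat_lit 17184104448)) (.cons (.rel (nat_lit 17184063621)) .nil))) .nil)) .leaf)) (nat_lit 4585865956629985) (.br (nat_lit 0) (.cons (.br (nat_lit 2) (.cons (.rel (nat_lit 71307540)) (.cons (.rel (nat_lit 75531264)) .nil))) (.cons (.br (nat_lit 2) (.cons (.rel (nat_lit 75497568)) (.cons (.rel (nat_lit 71435520)) .nil))) .nil))) (.node (.node .leaf (nat_lit 4585865956630834) (.br (nat_lit 2) (.cons (.br (nat_lit 5) (.cons (.rel (nat_lit 4362108960)) .nil)) .nil)) .leaf) (nat_lit 4585865956631213) (.br (nat_lit 4) (.cons (.br (nat_lit 5) (.cons (.rel (nat_lit 9663709185)) (.cons (.rel (nat_lit 9663697920)) .nil))) .nil)) .leaf))) (nat_lit 4585865956631279) (.br (nat_lit 2) (.cons (.br (nat_lit 6) (.cons (.rel (nat_lit 17246979096)) .nil)) .nil)) (.node (.node (.node (.node .leaf (nat_lit 4585865956631308) (.br (nat_lit 4) (.cons (.br (nat_lit 6) (.cons (.rel (nat_lit 19328406024)) (.cons (.rel (nat_lit 18253897728)) .nil))) (.cons (.br (nat_lit 1) (.cons (.rel (nat_lit 1090528257)) (.cons (.rel (nat_lit 1090520160)) (.cons (.rel (nat_lit 1090553856)) .nil)))) .nil))) .leaf) (nat_lit 4585865956631440) (.br (nat_lit 2) (.cons (.br (nat_lit 4) (.cons (.rel (nat_lit 2214613248)) .nil)) .nil)) (.node .leaf (nat_lit 4585865956631808) (.br (nat_lit 4) (.cons (.br (nat_lit 6) (.cons (.rel (nat_lit 19327420416)) (.cons (.rel (nat_lit 18253616640)) .nil))) (.cons (.br (nat_lit 1) (.cons (.rel (nat_lit 1090520160)) (.cons (.rel (nat_lit 1090535568)) (.cons (.rel (nat_lit 1090520160)) (.cons (.rel (nat_lit 1090539522)) (.cons (.rel (nat_lit 1090520160)) (.cons (.rel (nat_lit 1090539522)) (.cons (.rel (nat_lit 1090528257)) .nil)))))))) .nil))) .leaf)) (nat_lit 4585865956632035) (.br (nat_lit 4) (.cons (.br (nat_lit 2) (.cons (.rel (nat_lit 1140855840)) (.cons (.rel (nat_lit 2214613248)) .nil))) .nil)) (.node (.node .leaf (nat_lit 4585865956784128) (.br (nat_lit 5) (.cons (.br (nat_lit 6) (.cons (.rel (nat_lit 25769807889)) (.cons (.rel (nat_lit 21475104768)) (.cons (.rel (nat_lit 25769807889)) (.cons (.rel (nat_lit 21475098756)) .nil))))) (.cons (.br (nat_lit 6) (.cons (.rel (nat_lit 38654705745)) (.cons (.rel (nat_lit 42949689600)) (.cons (.rel (nat_lit 42949689600)) (.cons (.rel (nat_lit 21475493184)) .nil))))) (.cons (.br (nat_lit 6) (.cons (.rel (nat_lit 42949689600)) (.cons (.rel (nat_lit 42949689600)) (.cons (.rel (nat_lit 25769807889)) (.cons (.rel (nat_lit 21475104768)) .nil))))) (.cons (.br (nat_lit 6) (.cons (.rel (nat_lit 21474869760)) (.cons (.rel (nat_lit 21474869760)) (.cons (.rel (nat_lit 21474869760)) (.cons (.rel (nat_lit 21474869760)) .nil))))) .nil))))) .leaf) (nat_lit 4585865956784134) (.br (nat_lit 5) (.cons (.br (nat_lit 2) (.cons (.rel (nat_lit 4362078288)) (.cons (.rel (nat_lit 4362108960)) .nil))) .nil)) .leaf)) (nat_lit 4585865956784279) (.br (nat_lit 5) (.cons (.br (nat_lit 0) (.cons (.rel (nat_lit 8595181584)) (.cons (.rel (nat_lit 8598324240)) .nil))) .nil)) (.node (.node (.node .leaf (nat_lit 4585865956784290) (.br (nat_lit 1) (.cons (.br (nat_lit 5) (.cons (.rel (nat_lit 8623490049)) .nil)) .nil)) .leaf) (nat_lit 4585865956784430) (.br (nat_lit 0) (.cons (.br (nat_lit 2) (.cons (.rel (nat_lit 72417408)) (.cons (.rel (nat_lit 71435520)) .nil))) (.cons (.br (nat_lit 2) (.cons (.rel (nat_lit 138430464)) (.cons (.rel (nat_lit 71307540)) .nil))) .nil))) (.node .leaf (nat_lit 4585865956784760) (.br (nat_lit 5) (.cons (.br (nat_lit 0) (.cons (.rel (nat_lit 8598324240)) (.cons (.rel (nat_lit 4299161622)) (.cons (.rel (nat_lit 4299162633)) .nil)))) (.cons (.br (nat_lit 0) (.cons (.rel (nat_lit 4299161622)) (.cons (.rel (nat_lit 4299161622)) (.cons (.rel (nat_lit 4303618050)) .nil)))) .nil))) .leaf)) (nat_lit 4585865956784780) (.br (nat_lit 0) (.cons (.br (nat_lit 2) (.cons (.rel (nat_lit 72417408)) (.cons (.rel (nat_lit 71369025)) .nil))) .nil)) (.node (.node .leaf (nat_lit 4585865956785039) (.br (nat_lit 1) (.cons (.br (nat_lit 0) (.cons (.rel (nat_lit 21004545)) (.cons (.rel (nat_lit 22052928)) .nil))) .nil)) .leaf) (nat_lit 4585865956785560) (.br (nat_lit 2) (.cons (.br (nat_lit 4) (.cons (.rel (nat_lit 2281766913)) (.cons (.rel (nat_lit 1140851841)) .nil))) (.cons (.br (nat_lit 0) (.cons (.rel (nat_lit 75563016)) (.cons (.rel (nat_lit 138412176)) (.cons (.rel (nat_lit 72388608)) .nil)))) .nil))) .leaf)))) (nat_lit 4585865956785633) (.br (nat_lit 4) (.cons (.br (nat_lit 1) (.cons (.rel (nat_lit 1090553856)) (.cons (.rel (nat_lit 1090535568)) (.cons (.rel (nat_lit 1090535568)) .nil)))) (.cons (.br (nat_lit 2) (.cons (.rel (nat_lit 1140981762)) (.cons (.rel (nat_lit 2281766913)) (.cons (.rel (nat_lit 1208223744)) .nil)))) .nil))) (.node (.node (.node (.node (.node .leaf (nat_lit 4585865956785688) (.br (nat_lit 6) (.cons (.br (nat_lit 0) (.cons (.rel (nat_lit 17184069633)) (.cons (.rel (nat_lit 17184069633)) .nil))) .nil)) .leaf) (nat_lit 4585865956796416) (.br (nat_lit 5) (.cons (.br (nat_lit 2) (.cons (.rel (nat_lit 4362078288)) (.cons (.rel (nat_lit 4362108960)) (.cons (.rel (nat_lit 4362108960)) (.cons (.rel (nat_lit 4362093696)) (.cons (.rel (nat_lit 4362093696)) .nil)))))) (.cons (.br (nat_lit 2) (.cons (.rel (nat_lit 4362108960)) (.cons (.rel (nat_lit 4362078288)) (.cons (.rel (nat_lit 4362078288)) (.cons (.rel (nat_lit 4363412481)) (.cons (.rel (nat_lit 4362108960)) .nil)))))) .nil))) (.node .leaf (nat_lit 4585865956796576) (.br (nat_lit 5) (.cons (.br (nat_lit 1) (.cons (.rel (nat_lit 4311810177)) (.cons (.rel (nat_lit 4311781377)) .nil))) .nil)) .leaf)) (nat_lit 4585865956797048) (.br (nat_lit 5) (.cons (.br (nat_lit 4) (.cons (.rel (nat_lit 10737418500)) (.cons (.rel (nat_lit 5370283008)) (.cons (.rel (nat_lit 5370283008)) .nil)))) .nil)) (.node (.node .leaf (nat_lit 4585865956797091) (.br (nat_lit 5) (.cons (.br (nat_lit 1) (.cons (.rel (nat_lit 4311770112)) (.cons (.rel (nat_lit 4311876672)) (.cons (.rel (nat_lit 4311876672)) .nil)))) .nil)) .leaf) (nat_lit 4585865956797223) (.br (nat_lit 1) (.cons (.br (nat_lit 5) (.cons (.rel (nat_lit 8606721285)) (.cons (.rel (nat_lit 4311744549)) .nil))) .nil)) .leaf)) (nat_lit 4585865956797918) (.br (nat_lit 4) (.cons (.br (nat_lit 6) (.cons (.rel (nat_lit 19327420416)) .nil)) .nil)) (.node (.node (.node .leaf (nat_lit 4585865957093376) (.br (nat_lit 1) (.cons (.br (nat_lit 6) (.cons (.rel (nat_lit 17196652560)) (.cons (.rel (nat_lit 17196777480)) (.cons (.rel (nat_lit 17196652560)) (.cons (.rel (nat_lit 17196652560)) (.cons (.rel (nat_lit 17213948160)) .nil)))))) (.cons (.br (nat_lit 0) (.cons (.rel (nat_lit 25166853)) (.cons (.rel (nat_lit 20993280)) (.cons (.rel (nat_lit 20971860)) (.cons (.rel (nat_lit 20971860)) (.cons (.rel (nat_lit 42206208)) .nil)))))) (.cons (.br (nat_lit 6) (.cons (.rel (nat_lit 17196777480)) (.cons (.rel (nat_lit 17196777480)) (.cons (.rel (nat_lit 17196777480)) (.cons (.rel (nat_lit 17196777480)) (.cons (.rel (nat_lit 34393358340)) .nil)))))) (.cons (.br (nat_lit 0) (.cons (.rel (nat_lit 39063552)) (.cons (.rel (nat_lit 21497856)) (.cons (.rel (nat_lit 20971860)) (.cons (.rel (nat_lit 25166853)) (.cons (.rel (nat_lit 42221664)) .nil)))))) .nil))))) .leaf) (nat_lit 4585865957093527) (.br (nat_lit 0) (.cons (.br (nat_lit 5) (.cons (.rel (nat_lit 4299194496)) (.cons (.rel (nat_lit 8594137344)) (.cons (.rel (nat_lit 8598339648)) .nil)))) (.cons (.br (nat_lit 5) (.cons (.rel (nat_lit 8598324240)) (.cons (.rel (nat_lit 8594137344)) (.cons (.rel (nat_lit 8594653185)) .nil)))) .nil))) (.node .leaf (nat_lit 4585865957093562) (.br (nat_lit 0) (.cons (.br (nat_lit 6) (.cons (.rel (nat_lit 17184063621)) .nil)) .nil)) .leaf)) (nat_lit 4585865957093658) (.br (nat_lit 0) (.cons (.br (nat_lit 2) (.cons (.rel (nat_lit 71435520)) .nil)) .nil)) (.node (.node .leaf (nat_lit 4585865957093678) (.br (nat_lit 5) (.cons (.br (nat_lit 0) (.cons (.rel (nat_lit 4299162633)) (.cons (.rel (nat_lit 8598339648)) .nil))) .nil)) .leaf) (nat_lit 4585865957094136) (.br (nat_lit 0) (.cons (.br (nat_lit 4) (.cons (.rel (nat_lit 1079247873)) .nil)) .nil)) .leaf))) (nat_lit 4585865957094176) (.br (nat_lit 0) (.cons (.br (nat_lit 1) (.cons (.rel (nat_lit 37749780)) .nil)) .nil)) (.node (.node (.node (.node .leaf (nat_lit 4585865957094276) (.br (nat_lit 0) (.cons (.br (nat_lit 6) (.cons (.rel (nat_lit 34368147456)) (.cons (.rel (nat_lit 34363933056)) .nil))) (.cons (.br (nat_lit 6) (.cons (.rel (nat_lit 17184063621)) (.cons (.rel (nat_lit 34369192464)) .nil))) .nil))) .leaf) (nat_lit 4585865957094287) (.br (nat_lit 1) (.cons (.br (nat_lit 4) (.cons (.rel (nat_lit 2181055488)) (.cons (.rel (nat_lit 2181055488)) (.cons (.rel (nat_lit 1107558468)) .nil)))) (.cons (.br (nat_lit 0) (.cons (.rel (nat_lit 25166853)) (.cons (.rel (nat_lit 20993280)) (.cons (.rel (nat_lit 21004545)) .nil)))) .nil))) (.node .leaf (nat_lit 4585865957094808) (.br (nat_lit 0) (.cons (.br (nat_lit 1) (.cons (.rel (nat_lit 22052928)) (.cons (.rel (nat_lit 20993280)) (.cons (.rel (nat_lit 21004545)) .nil)))) .nil)) .leaf)) (nat_lit 4585865957094812) (.br (nat_lit 0) (.cons (.br (nat_lit 2) (.cons (.rel (nat_lit 71435520)) .nil)) .nil)) (.node (.node .leaf (nat_lit 4585865957109760) (.br (nat_lit 4) (.cons (.br (nat_lit 0) (.cons (.rel (nat_lit 1079247873)) (.cons (.rel (nat_lit 2155872405)) (.cons (.rel (nat_lit 1077952641)) (.cons (.rel (nat_lit 1079001600)) (.cons (.rel (nat_lit 1077952641)) .nil)))))) (.cons (.br (nat_lit 0) (.cons (.rel (nat_lit 1077938244)) (.cons (.rel (nat_lit 1077937233)) (.cons (.rel (nat_lit 1077938244)) (.cons (.rel (nat_lit 1082425344)) (.cons (.rel (nat_lit 1079247873)) .nil)))))) .nil))) .leaf) (nat_lit 4585865957109922) (.br (nat_lit 0) (.cons (.br (nat_lit 4) (.cons (.rel (nat_lit 1079247873)) .nil)) .nil)) .leaf)) (nat_lit 4585865957109935) (.br (nat_lit 1) (.cons (.br (nat_lit 2) (.cons (.rel (nat_lit 83892480)) (.cons (.rel (nat_lit 85262592)) (.cons (.rel (nat_lit 83903745)) (.cons (.rel (nat_lit 83892480)) .nil))))) (.cons (.br (nat_lit 2) (.cons (.rel (nat_lit 83903745)) (.cons (.rel (nat_lit 151257360)) (.cons (.rel (nat_lit 84443136)) (.cons (.rel (nat_lit 84443136)) .nil))))) (.cons (.br (nat_lit 2) (.cons (.rel (nat_lit 84443136)) (.cons (.rel (nat_lit 84443136)) (.cons (.rel (nat_lit 83903745)) (.cons (.rel (nat_lit 83886468)) .nil))))) (.cons (.br (nat_lit 6) (.cons (.rel (nat_lit 17196777480)) (.cons (.rel (nat_lit 17196777480)) (.cons (.rel (nat_lit 17196777480)) (.cons (.rel (nat_lit 17196777480)) .nil))))) .nil))))) (.node (.node (.node .leaf (nat_lit 4585865957110042) (.br (nat_lit 6) (.cons (.br (nat_lit 5) (.cons (.rel (nat_lit 25769812032)) (.cons (.rel (nat_lit 21476933652)) .nil))) .nil)) .leaf) (nat_lit 4585865957110046) (.br (nat_lit 1) (.cons (.br (nat_lit 4) (.cons (.rel (nat_lit 2164262160)) (.cons (.rel (nat_lit 1090786560)) (.cons (.rel (nat_lit 1090539522)) .nil)))) (.cons (.br (nat_lit 4) (.cons (.rel (nat_lit 2164262160)) (.cons (.rel (nat_lit 1090553856)) (.cons (.rel (nat_lit 1090528257)) .nil)))) .nil))) (.node .leaf (nat_lit 4585865957110066) (.br (nat_lit 1) (.cons (.br (nat_lit 2) (.cons (.rel (nat_lit 84443136)) (.cons (.rel (nat_lit 151000068)) .nil))) (.cons (.br (nat_lit 2) (.cons (.rel (nat_lit 84936720)) (.cons (.rel (nat_lit 83892480)) .nil))) .nil))) .leaf)) (nat_lit 4585865957110435) (.br (nat_lit 6) (.cons (.br (nat_lit 1) (.cons (.rel (nat_lit 17196777480)) (.cons (.rel (nat_lit 17196650502)) (.cons (.rel (nat_lit 34393358340)) .nil)))) .nil)) (.node (.node .leaf (nat_lit 4585865957110511) (.br (nat_lit 0) (.cons (.br (nat_lit 2) (.cons (.rel (nat_lit 75497568)) .nil)) .nil)) .leaf) (nat_lit 4585865957110520) (.br (nat_lit 1) (.cons (.br (nat_lit 5) (.cons (.rel (nat_lit 4311744549)) (.cons (.rel (nat_lit 4311745560)) (.cons (.rel (nat_lit 4328783904)) (.cons (.rel (nat_lit 4311744549)) .nil))))) (.cons (.br (nat_lit 5) (.cons (.rel (nat_lit 8606712129)) (.cons (.rel (nat_lit 4311745560)) (.cons (.rel (nat_lit 8606778624)) (.cons (.rel (nat_lit 4311744549)) .nil))))) .nil))) .leaf))))) (nat_lit 4585865957110540) (.br (nat_lit 1) (.cons (.br (nat_lit 6) (.cons (.rel (nat_lit 17196777480)) (.cons (.br (nat_lit 2) (.cons (.rel (nat_lit 17247014913)) (.cons (.rel (nat_lit 168050688)) (.cons (.rel (nat_lit 34427904000)) (.cons (.rel (nat_lit 17246979096)) (.cons (.rel (nat_lit 17316188160)) .nil)))))) (.cons (.rel (nat_lit 17213948160)) (.cons (.br (nat_lit 4) (.cons (.rel (nat_lit 2181055488)) (.cons (.rel (nat_lit 18253874178)) (.cons (.rel (nat_lit 2181055488)) (.cons (.rel (nat_lit 1090520160)) (.cons (.rel (nat_lit 18254170368)) (.cons (.rel (nat_lit 18253616640)) .nil))))))) (.cons (.rel (nat_lit 17213948160)) (.cons (.rel (nat_lit 34376778240)) .nil))))))) (.cons (.br (nat_lit 0) (.cons (.rel (nat_lit 42206208)) (.cons (.rel (nat_lit 21497856)) (.cons (.rel (nat_lit 22037520)) (.cons (.rel (nat_lit 25428288)) (.cons (.rel (nat_lit 20993280)) (.cons (.rel (nat_lit 25165842)) (.cons (.rel (nat_lit 21497856)) .nil)))))))) (.cons (.br (nat_lit 6) (.cons (.rel (nat_lit 17196663825)) (.cons (.rel (nat_lit 17196777480)) (.cons (.rel (nat_lit 17196650502)) (.cons (.rel (nat_lit 17196652560)) (.cons (.rel (nat_lit 17213948160)) (.cons (.rel (nat_lit 34393358340)) .nil))))))) .nil)))) (.node (.node (.node (.node (.node (.node .leaf (nat_lit 4585865957110567) (.br (nat_lit 6) (.cons (.br (nat_lit 4) (.cons (.rel (nat_lit 18253616640)) (.cons (.rel (nat_lit 18253873176)) (.cons (.rel (nat_lit 18253616640)) .nil)))) (.cons (.br (nat_lit 4) (.cons (.br (nat_lit 1) (.cons (.rel (nat_lit 34376778240)) (.cons (.rel (nat_lit 1090520160)) (.cons (.rel (nat_lit 17196777480)) (.cons (.rel (nat_lit 17196777480)) .nil))))) (.cons (.rel (nat_lit 18253873176)) (.cons (.rel (nat_lit 18254004288)) .nil)))) .nil))) .leaf) (nat_lit 4585865957110571) (.br (nat_lit 0) (.cons (.br (nat_lit 4) (.cons (.rel (nat_lit 1077956640)) (.cons (.rel (nat_lit 2155876356)) .nil))) (.cons (.br (nat_lit 1) (.cons (.rel (nat_lit 25428288)) (.cons (.rel (nat_lit 21497856)) .nil))) .nil))) (.node .leaf (nat_lit 4585865957110660) (.br (nat_lit 0) (.cons (.br (nat_lit 1) (.cons (.rel (nat_lit 42206208)) (.cons (.rel (nat_lit 21004545)) .nil))) (.cons (.br (nat_lit 1) (.cons (.rel (nat_lit 21497856)) (.cons (.rel (nat_lit 21004545)) .nil))) .nil))) .leaf)) (nat_lit 4585865957110667) (.br (nat_lit 1) (.cons (.br (nat_lit 4) (.cons (.rel (nat_lit 2181055488)) (.cons (.rel (nat_lit 1090519113)) .nil))) .nil)) (.node (.node .leaf (nat_lit 4585865957110672) (.br (nat_lit 1) (.cons (.br (nat_lit 4) (.cons (.rel (nat_lit 2181055488)) .nil)) .nil)) .leaf) (nat_lit 4585865957111021) (.br (nat_lit 1) (.cons (.br (nat_lit 3) (.cons (.rel (nat_lit 302252160)) (.cons (.rel (nat_lit 285477120)) (.cons (.rel (nat_lit 304087056)) (.cons (.rel (nat_lit 304087056)) (.cons (.rel (nat_lit 285279300)) (.cons (.rel (nat_lit 554696736)) .nil))))))) (.cons (.br (nat_lit 0) (.cons (.rel (nat_lit 25165842)) (.cons (.rel (nat_lit 20971860)) (.cons (.rel (nat_lit 25165842)) .nil)))) .nil))) (.node .leaf (nat_lit 4585865957111185) (.br (nat_lit 1) (.cons (.br (nat_lit 6) (.cons (.rel (nat_lit 34377565188)) (.cons (.rel (nat_lit 17213948160)) (.cons (.rel (nat_lit 17196777480)) .nil)))) (.cons (.br (nat_lit 4) (.cons (.rel (nat_lit 1090528257)) (.cons (.rel (nat_lit 1090528257)) .nil))) .nil))) .leaf))) (nat_lit 4585865957111196) (.br (nat_lit 1) (.cons (.br (nat_lit 4) (.cons (.rel (nat_lit 2181055488)) (.cons (.rel (nat_lit 1090520160)) (.cons (.rel (nat_lit 1090585608)) .nil)))) (.cons (.br (nat_lit 4) (.cons (.rel (nat_lit 2164262160)) (.cons (.rel (nat_lit 1090535568)) (.cons (.rel (nat_lit 1090553856)) .nil)))) .nil))) (.node (.node (.node .leaf (nat_lit 4585865957111260) (.br (nat_lit 1) (.cons (.br (nat_lit 6) (.cons (.rel (nat_lit 17196777480)) .nil)) .nil)) .leaf) (nat_lit 4585865957165207) (.br (nat_lit 5) (.cons (.br (nat_lit 2) (.cons (.rel (nat_lit 4362078288)) (.cons (.rel (nat_lit 4362078288)) (.cons (.rel (nat_lit 4362078288)) (.cons (.rel (nat_lit 4362084372)) (.cons (.rel (nat_lit 4362093696)) .nil)))))) (.cons (.br (nat_lit 0) (.cons (.rel (nat_lit 4299161622)) (.cons (.rel (nat_lit 4299163680)) (.cons (.rel (nat_lit 8598324240)) (.cons (.rel (nat_lit 4299179088)) (.cons (.rel (nat_lit 4303360512)) .nil)))))) .nil))) (.node .leaf (nat_lit 4585865957165238) (.br (nat_lit 5) (.cons (.br (nat_lit 0) (.cons (.rel (nat_lit 4299163680)) (.cons (.rel (nat_lit 4299161622)) .nil))) .nil)) .leaf)) (nat_lit 4585865957165311) (.br (nat_lit 1) (.cons (.br (nat_lit 6) (.cons (.rel (nat_lit 17196777480)) (.cons (.rel (nat_lit 17213948160)) (.cons (.rel (nat_lit 34376778240)) .nil)))) (.cons (.br (nat_lit 4) (.cons (.rel (nat_lit 1090786560)) (.cons (.rel (nat_lit 1090520160)) (.cons (.rel (nat_lit 1090519113)) .nil)))) .nil))) (.node (.node .leaf (nat_lit 4585865957165336) (.br (nat_lit 2) (.cons (.br (nat_lit 5) (.cons (.rel (nat_lit 4429709568)) .nil)) .nil)) .leaf) (nat_lit 4585865957165708) (.br (nat_lit 5) (.cons (.br (nat_lit 0) (.cons (.rel (nat_lit 8594137344)) (.cons (.rel (nat_lit 8594653185)) (.cons (.rel (nat_lit 4299424068)) .nil)))) (.cons (.br (nat_lit 2) (.cons (.rel (nat_lit 4362076230)) (.cons (.rel (nat_lit 4362093696)) (.cons (.rel (nat_lit 8724168720)) .nil)))) .nil))) .leaf))) (nat_lit 4585865957165836) (.br (nat_lit 4) (.cons (.br (nat_lit 6) (.cons (.rel (nat_lit 18253627905)) (.cons (.br (nat_lit 0) (.cons (.rel (nat_lit 17184327936)) (.cons (.rel (nat_lit 1077944328)) (.cons (.rel (nat_lit 1077952641)) (.cons (.rel (nat_lit 1077938244)) .nil))))) (.cons (.rel (nat_lit 19327353921)) .nil)))) (.cons (.br (nat_lit 6) (.cons (.rel (nat_lit 18253616640)) (.cons (.rel (nat_lit 35433612288)) (.cons (.rel (nat_lit 19327420416)) .nil)))) (.cons (.br (nat_lit 6) (.cons (.rel (nat_lit 18253616640)) (.cons (.rel (nat_lit 18254004288)) (.cons (.rel (nat_lit 19327353921)) .nil)))) .nil)))) (.node (.node (.node (.node .leaf (nat_lit 4585865957165867) (.br (nat_lit 1) (.cons (.br (nat_lit 5) (.cons (.rel (nat_lit 4311745560)) (.cons (.rel (nat_lit 4311745560)) .nil))) .nil)) .leaf) (nat_lit 4585865957165968) (.br (nat_lit 1) (.cons (.br (nat_lit 5) (.cons (.rel (nat_lit 4311745560)) (.cons (.rel (nat_lit 4311745560)) .nil))) .nil)) (.node .leaf (nat_lit 4585865957165987) (.br (nat_lit 2) (.cons (.br (nat_lit 0) (.cons (.rel (nat_lit 71827524)) (.cons (.rel (nat_lit 71827524)) .nil))) .nil)) .leaf)) (nat_lit 4585865957166317) (.br (nat_lit 5) (.cons (.br (nat_lit 4) (.cons (.rel (nat_lit 10737418500)) (.cons (.rel (nat_lit 5368972368)) (.cons (.rel (nat_lit 5368972368)) .nil)))) .nil)) (.node (.node .leaf (nat_lit 4585865957166468) (.br (nat_lit 6) (.cons (.br (nat_lit 4) (.cons (.rel (nat_lit 18253627905)) (.cons (.rel (nat_lit 18253616640)) (.cons (.rel (nat_lit 18253616640)) .nil)))) (.cons (.br (nat_lit 4) (.cons (.br (nat_lit 2) (.cons (.rel (nat_lit 2214613248)) (.cons (.rel (nat_lit 1140851841)) (.cons (.rel (nat_lit 17246979096)) (.cons (.rel (nat_lit 34493957121)) .nil))))) (.cons (.rel (nat_lit 35433612288)) (.cons (.rel (nat_lit 18254004288)) .nil)))) .nil))) .leaf) (nat_lit 4585865957166616) (.br (nat_lit 4) (.cons (.br (nat_lit 5) (.cons (.rel (nat_lit 6442467330)) (.cons (.rel (nat_lit 5368987776)) .nil))) (.cons (.br (nat_lit 5) (.cons (.rel (nat_lit 10737418500)) (.cons (.rel (nat_lit 10737418500)) .nil))) .nil))) .leaf)) (nat_lit 4585865957810176) (.br (nat_lit 6) (.cons (.br (nat_lit 0) (.cons (.rel (nat_lit 34363933056)) (.cons (.rel (nat_lit 34363933056)) (.cons (.rel (nat_lit 17188258368)) (.cons (.br (nat_lit 4) (.cons (.rel (nat_lit 18254004288)) (.cons (.rel (nat_lit 18253873176)) (.cons (.rel (nat_lit 1079001600)) (.cons (.rel (nat_lit 2155872405)) (.cons (.rel (nat_lit 35433612288)) (.cons (.rel (nat_lit 18254004288)) .nil))))))) (.cons (.rel (nat_lit 17184327936)) (.cons (.rel (nat_lit 17185112580)) .nil))))))) (.cons (.br (nat_lit 0) (.cons (.rel (nat_lit 17184063621)) (.cons (.rel (nat_lit 17184080898)) (.cons (.rel (nat_lit 17184067620)) (.cons (.rel (nat_lit 17184080898)) (.cons (.rel (nat_lit 17185112580)) (.cons (.rel (nat_lit 17184063621)) .nil))))))) (.cons (.br (nat_lit 0) (.cons (.rel (nat_lit 17184069633)) (.cons (.rel (nat_lit 17184063621)) (.cons (.br (nat_lit 4) (.cons (.rel (nat_lit 18253874178)) (.cons (.rel (nat_lit 18253874178)) (.cons (.rel (nat_lit 35433545793)) (.cons (.rel (nat_lit 35433612288)) (.cons (.rel (nat_lit 18261999648)) (.cons (.rel (nat_lit 18253874178)) .nil))))))) (.cons (.rel (nat_lit 17184067620)) (.cons (.rel (nat_lit 17184104448)) (.cons (.rel (nat_lit 17184063621)) .nil))))))) .nil)))) (.node (.node (.node .leaf (nat_lit 4585865957810351) (.br (nat_lit 0) (.cons (.br (nat_lit 1) (.cons (.rel (nat_lit 21497856)) .nil)) .nil)) .leaf) (nat_lit 4585865957810362) (.br (nat_lit 6) (.cons (.br (nat_lit 1) (.cons (.rel (nat_lit 17196663825)) (.cons (.rel (nat_lit 17196679233)) .nil))) .nil)) (.node .leaf (nat_lit 4585865957810462) (.br (nat_lit 6) (.cons (.br (nat_lit 0) (.cons (.rel (nat_lit 17184080898)) (.cons (.rel (nat_lit 17184327936)) (.cons (.rel (nat_lit 17184067620)) (.cons (.rel (nat_lit 17184351489)) .nil))))) (.cons (.br (nat_lit 0) (.cons (.rel (nat_lit 17184068634)) (.cons (.rel (nat_lit 17184069633)) (.cons (.rel (nat_lit 17184080898)) (.cons (.rel (nat_lit 17184067620)) .nil))))) (.cons (.br (nat_lit 0) (.cons (.rel (nat_lit 17184063621)) (.cons (.rel (nat_lit 17184104448)) (.cons (.rel (nat_lit 17184104448)) (.cons (.rel (nat_lit 17184063621)) .nil))))) .nil)))) .leaf)) (nat_lit 4585865957810808) (.br (nat_lit 6) (.cons (.br (nat_lit 4) (.cons (.rel (nat_lit 18254004288)) (.cons (.br (nat_lit 5) (.cons (.rel (nat_lit 5370283008)) (.cons (.rel (nat_lit 42949689600)) (.cons (.rel (nat_lit 21475098756)) (.cons (.rel (nat_lit 21476933652)) (.cons (.rel (nat_lit 5370283008)) (.cons (.rel (nat_lit 42949689600)) .nil))))))) (.cons (.rel (nat_lit 18254660880)) (.cons (.rel (nat_lit 35433612288)) (.cons (.rel (nat_lit 18254004288)) .nil)))))) (.cons (.br (nat_lit 4) (.cons (.rel (nat_lit 18253874178)) (.cons (.rel (nat_lit 18253897728)) (.cons (.rel (nat_lit 35433612288)) (.cons (.br (nat_lit 2) (.cons (.rel (nat_lit 17246980098)) (.cons (.rel (nat_lit 17247014913)) (.cons (.rel (nat_lit 17246978085)) (.cons (.rel (nat_lit 1140854793)) (.cons (.rel (nat_lit 17246980098)) (.cons (.rel (nat_lit 17247003648)) (.cons (.rel (nat_lit 17246978085)) (.cons (.rel (nat_lit 17246980098)) (.cons (.rel (nat_lit 17246979096)) .nil)))))))))) (.cons (.rel (nat_lit 18253874178)) .nil)))))) .nil))) (.node (.node .leaf (nat_lit 4585865957810928) (.br (nat_lit 0) (.cons (.br (nat_lit 3) (.cons (.rel (nat_lit 272631936)) (.cons (.rel (nat_lit 546570249)) .nil))) (.cons (.br (nat_lit 3) (.cons (.rel (nat_lit 272631936)) (.cons (.rel (nat_lit 272633877)) .nil))) .nil))) .leaf) (nat_lit 4585865957810956) (.br (nat_lit 6) (.cons (.br (nat_lit 5) (.cons (.rel (nat_lit 21475098756)) (.cons (.rel (nat_lit 21474869760)) (.cons (.rel (nat_lit 25769808900)) (.cons (.rel (nat_lit 21474869760)) .nil))))) (.cons (.br (nat_lit 4) (.cons (.rel (nat_lit 18253874178)) (.cons (.rel (nat_lit 35433612288)) (.cons (.rel (nat_lit 18253874178)) .nil)))) .nil))) .leaf)))) (nat_lit 4585865957811107) (.br (nat_lit 4) (.cons (.br (nat_lit 5) (.cons (.rel (nat_lit 5368709640)) (.cons (.rel (nat_lit 5368709640)) .nil))) .nil)) (.node (.node (.node (.node (.node .leaf (nat_lit 4585865957811437) (.br (nat_lit 4) (.cons (.br (nat_lit 6) (.cons (.rel (nat_lit 18254004288)) (.cons (.rel (nat_lit 18253627905)) (.cons (.rel (nat_lit 18253874178)) (.cons (.rel (nat_lit 18254004288)) .nil))))) (.cons (.br (nat_lit 6) (.cons (.rel (nat_lit 18253873176)) (.cons (.rel (nat_lit 18253627905)) (.cons (.rel (nat_lit 18253874178)) (.cons (.rel (nat_lit 18253874178)) .nil))))) (.cons (.br (nat_lit 6) (.cons (.rel (nat_lit 35433612288)) (.cons (.rel (nat_lit 18254004288)) (.cons (.br (nat_lit 0) (.cons (.rel (nat_lit 1077952641)) (.cons (.rel (nat_lit 18261999648)) (.cons (.rel (nat_lit 2155876356)) (.cons (.rel (nat_lit 1077937233)) (.cons (.rel (nat_lit 17184104448)) (.cons (.rel (nat_lit 1077936234)) .nil))))))) (.cons (.rel (nat_lit 19327420416)) .nil))))) .nil)))) .leaf) (nat_lit 4585865957811601) (.br (nat_lit 6) (.cons (.br (nat_lit 0) (.cons (.rel (nat_lit 17184069633)) (.cons (.rel (nat_lit 17184067620)) (.cons (.rel (nat_lit 17184067620)) .nil)))) (.cons (.br (nat_lit 0) (.cons (.rel (nat_lit 17184067620)) (.cons (.rel (nat_lit 17185112580)) (.cons (.rel (nat_lit 17184080898)) .nil)))) .nil))) (.node .leaf (nat_lit 4585865957811677) (.br (nat_lit 0) (.cons (.br (nat_lit 5) (.cons (.rel (nat_lit 4300489728)) (.cons (.rel (nat_lit 8594653185)) .nil))) (.cons (.br (nat_lit 5) (.cons (.rel (nat_lit 4300736769)) (.cons (.rel (nat_lit 4299162633)) .nil))) .nil))) .leaf)) (nat_lit 4585865957811712) (.br (nat_lit 1) (.cons (.br (nat_lit 4) (.cons (.rel (nat_lit 1091846208)) (.cons (.rel (nat_lit 1090535568)) .nil))) (.cons (.br (nat_lit 4) (.cons (.rel (nat_lit 1090553856)) (.cons (.rel (nat_lit 1090528257)) .nil))) .nil))) (.node (.node .leaf (nat_lit 4585865957818368) (.br (nat_lit 4) (.cons (.br (nat_lit 1) (.cons (.rel (nat_lit 1090528257)) (.cons (.rel (nat_lit 2181055488)) .nil))) .nil)) .leaf) (nat_lit 4585865957818543) (.br (nat_lit 0) (.cons (.br (nat_lit 1) (.cons (.rel (nat_lit 20993280)) (.cons (.rel (nat_lit 20971860)) .nil))) .nil)) .leaf)) (nat_lit 4585865957818550) (.br (nat_lit 4) (.cons (.br (nat_lit 6) (.cons (.rel (nat_lit 35433484308)) (.cons (.rel (nat_lit 18254660880)) .nil))) .nil)) (.node (.node (.node .leaf (nat_lit 4585865957818654) (.br (nat_lit 6) (.cons (.br (nat_lit 1) (.cons (.rel (nat_lit 17196777480)) (.cons (.rel (nat_lit 17196777480)) (.cons (.rel (nat_lit 17196777480)) .nil)))) (.cons (.br (nat_lit 1) (.cons (.rel (nat_lit 17196777480)) (.cons (.rel (nat_lit 17196777480)) (.cons (.rel (nat_lit 17196777480)) .nil)))) .nil))) .leaf) (nat_lit 4585865957818673) (.br (nat_lit 2) (.cons (.br (nat_lit 4) (.cons (.rel (nat_lit 1141113096)) (.cons (.rel (nat_lit 2281766913)) .nil))) (.cons (.br (nat_lit 4) (.cons (.rel (nat_lit 1140851841)) (.cons (.rel (nat_lit 1140854793)) .nil))) .nil))) (.node .leaf (nat_lit 4585865957819000) (.br (nat_lit 0) (.cons (.br (nat_lit 1) (.cons (.rel (nat_lit 20971860)) .nil)) .nil)) .leaf)) (nat_lit 4585865957819793) (.br (nat_lit 1) (.cons (.br (nat_lit 4) (.cons (.rel (nat_lit 1090520160)) .nil)) .nil)) (.node (.node .leaf (nat_lit 4585865957819804) (.br (nat_lit 0) (.cons (.br (nat_lit 1) (.cons (.rel (nat_lit 37749780)) .nil)) .nil)) .leaf) (nat_lit 4585865957826695) (.br (nat_lit 5) (.cons (.br (nat_lit 2) (.cons (.rel (nat_lit 4362108960)) (.cons (.rel (nat_lit 4362108960)) .nil))) .nil)) .leaf))) (nat_lit 4585865957826742) (.br (nat_lit 0) (.cons (.br (nat_lit 4) (.cons (.rel (nat_lit 1077938244)) .nil)) .nil)) (.node (.node (.node (.node .leaf (nat_lit 4585865957826815) (.br (nat_lit 3) (.cons (.br (nat_lit 0) (.cons (.rel (nat_lit 541069569)) (.cons (.rel (nat_lit 272631936)) .nil))) .nil)) .leaf) (nat_lit 4585865957826842) (.br (nat_lit 0) (.cons (.br (nat_lit 1) (.cons (.rel (nat_lit 21497856)) .nil)) .nil)) (.node .leaf (nat_lit 4585865957828065) (.br (nat_lit 0) (.cons (.br (nat_lit 1) (.cons (.rel (nat_lit 22282500)) .nil)) .nil)) .leaf)) (nat_lit 4585865957828092) (.br (nat_lit 5) (.cons (.br (nat_lit 0) (.cons (.rel (nat_lit 4299161622)) (.cons (.rel (nat_lit 8598339648)) .nil))) .nil)) (.node (.node .leaf (nat_lit 4585865957881856) (.br (nat_lit 5) (.cons (.br (nat_lit 2) (.cons (.rel (nat_lit 4362108960)) (.cons (.rel (nat_lit 4364173572)) (.cons (.rel (nat_lit 4362142725)) (.cons (.rel (nat_lit 4363388928)) (.cons (.rel (nat_lit 4362108960)) (.cons (.rel (nat_lit 4362078288)) (.cons (.rel (nat_lit 4362076230)) (.cons (.rel (nat_lit 4362108960)) (.cons (.rel (nat_lit 4362108960)) .nil)))))))))) (.cons (.br (nat_lit 4) (.cons (.rel (nat_lit 10737418500)) (.cons (.rel (nat_lit 9663676500)) (.cons (.rel (nat_lit 10737418500)) (.cons (.rel (nat_lit 9663697920)) (.cons (.rel (nat_lit 10737418500)) (.cons (.rel (nat_lit 5369036805)) (.cons (.rel (nat_lit 5369778432)) (.cons (.rel (nat_lit 5368972368)) .nil))))))))) (.cons (.br (nat_lit 3) (.cons (.rel (nat_lit 4563796992)) (.cons (.rel (nat_lit 4563403332)) (.cons (.rel (nat_lit 4565499909)) (.cons (.rel (nat_lit 4831903752)) (.cons (.rel (nat_lit 4565499909)) (.cons (.rel (nat_lit 4563796992)) (.cons (.rel (nat_lit 4565499909)) (.cons (.rel (nat_lit 9126811908)) (.cons (.rel (nat_lit 4564468992)) (.cons (.rel (nat_lit 4563796992)) .nil))))))))))) (.cons (.br (nat_lit 0) (.cons (.rel (nat_lit 4299163680)) (.cons (.rel (nat_lit 4299162633)) (.cons (.rel (nat_lit 8598324240)) (.cons (.rel (nat_lit 4299179088)) (.cons (.rel (nat_lit 4303360512)) (.cons (.rel (nat_lit 4299162633)) (.cons (.rel (nat_lit 4299163680)) .nil)))))))) .nil))))) .leaf) (nat_lit 4585865957882007) (.br (nat_lit 1) (.cons (.br (nat_lit 5) (.cons (.rel (nat_lit 4311876672)) (.cons (.rel (nat_lit 8623490049)) (.cons (.rel (nat_lit 8623490049)) (.cons (.rel (nat_lit 8606712129)) (.cons (.rel (nat_lit 4311746562)) .nil)))))) (.cons (.br (nat_lit 5) (.cons (.rel (nat_lit 8623490049)) (.cons (.rel (nat_lit 4311876672)) (.cons (.rel (nat_lit 4311744549)) (.cons (.rel (nat_lit 8623490049)) (.cons (.rel (nat_lit 4311876672)) .nil)))))) (.cons (.br (nat_lit 6) (.cons (.rel (nat_lit 17196777480)) (.cons (.rel (nat_lit 34376778240)) (.cons (.rel (nat_lit 17196777480)) (.cons (.rel (nat_lit 17196777480)) (.cons (.rel (nat_lit 17213948160)) (.cons (.rel (nat_lit 17196777480)) (.cons (.rel (nat_lit 17196777480)) .nil)))))))) (.cons (.br (nat_lit 5) (.cons (.rel (nat_lit 4311876672)) (.cons (.rel (nat_lit 4311746562)) (.cons (.rel (nat_lit 4311745560)) (.cons (.rel (nat_lit 4311745560)) (.cons (.rel (nat_lit 4311781377)) .nil)))))) .nil))))) .leaf)) (nat_lit 4585865957882018) (.br (nat_lit 0) (.cons (.br (nat_lit 1) (.cons (.rel (nat_lit 20993280)) .nil)) .nil)) (.node (.node (.node .leaf (nat_lit 4585865957882042) (.br (nat_lit 0) (.cons (.br (nat_lit 2) (.cons (.rel (nat_lit 72417408)) .nil)) .nil)) .leaf) (nat_lit 4585865957882111) (.br (nat_lit 3) (.cons (.br (nat_lit 5) (.cons (.rel (nat_lit 4565499909)) (.cons (.rel (nat_lit 8858501124)) (.cons (.rel (nat_lit 8858501124)) (.cons (.rel (nat_lit 9127856148)) (.cons (.rel (nat_lit 8859680832)) (.cons (.rel (nat_lit 4831903752)) .nil))))))) (.cons (.br (nat_lit 5) (.cons (.rel (nat_lit 8858370192)) (.cons (.rel (nat_lit 8858374146)) (.cons (.rel (nat_lit 4831846401)) (.cons (.rel (nat_lit 4563403332)) (.cons (.rel (nat_lit 8858370192)) (.cons (.rel (nat_lit 8858370192)) .nil))))))) (.cons (.br (nat_lit 4) (.cons (.rel (nat_lit 1610630145)) (.cons (.rel (nat_lit 2684420352)) (.cons (.rel (nat_lit 1610612868)) (.cons (.br (nat_lit 0) (.cons (.rel (nat_lit 542114820)) (.cons (.rel (nat_lit 1078001670)) (.cons (.rel (nat_lit 545260608)) (.cons (.rel (nat_lit 272631936)) (.cons (.rel (nat_lit 272631936)) (.cons (.rel (nat_lit 272631936)) (.cons (.rel (nat_lit 541327872)) .nil)))))))) .nil))))) (.cons (.br (nat_lit 4) (.cons (.rel (nat_lit 1342440480)) (.cons (.rel (nat_lit 1343227137)) (.cons (.rel (nat_lit 1343766528)) (.cons (.rel (nat_lit 1342308864)) .nil))))) .nil))))) (.node .leaf (nat_lit 4585865957882158) (.br (nat_lit 5) (.cons (.br (nat_lit 1) (.cons (.rel (nat_lit 8606712129)) (.cons (.rel (nat_lit 8623490049)) (.cons (.rel (nat_lit 4311781377)) (.cons (.rel (nat_lit 4311876672)) .nil))))) .nil)) .leaf)) (nat_lit 4585865957882508) (.br (nat_lit 6) (.cons (.br (nat_lit 0) (.cons (.rel (nat_lit 17184069633)) (.cons (.rel (nat_lit 17184067620)) .nil))) .nil)) (.node (.node .leaf (nat_lit 4585865957882616) (.br (nat_lit 4) (.cons (.br (nat_lit 5) (.cons (.rel (nat_lit 5368987776)) (.cons (.rel (nat_lit 10737418500)) .nil))) .nil)) .leaf) (nat_lit 4585865957882663) (.br (nat_lit 0) (.cons (.br (nat_lit 2) (.cons (.rel (nat_lit 71435520)) .nil)) .nil)) .leaf))))))) (nat_lit 4585865957883268) (.br (nat_lit 0) (.cons (.br (nat_lit 5) (.cons (.rel (nat_lit 8594137344)) (.cons (.rel (nat_lit 4299162633)) (.cons (.rel (nat_lit 8598339648)) .nil)))) (.cons (.br (nat_lit 2) (.cons (.rel (nat_lit 138412176)) (.cons (.rel (nat_lit 138416130)) (.cons (.rel (nat_lit 71369025)) (.cons (.rel (nat_lit 75497568)) .nil))))) (.cons (.br (nat_lit 4) (.cons (.rel (nat_lit 1077952641)) (.cons (.rel (nat_lit 2155876356)) (.cons (.rel (nat_lit 1077938244)) (.cons (.rel (nat_lit 1079001600)) .nil))))) .nil)))) (.node (.node (.node (.node (.node (.node (.node (.node .leaf (nat_lit 4585865957883288) (.br (nat_lit 0) (.cons (.br (nat_lit 4) (.cons (.rel (nat_lit 1077956640)) (.cons (.rel (nat_lit 1077937233)) .nil))) (.cons (.br (nat_lit 4) (.cons (.rel (nat_lit 1077956640)) (.cons (.rel (nat_lit 1077938244)) .nil))) .nil))) .leaf) (nat_lit 4585865957883361) (.br (nat_lit 5) (.cons (.br (nat_lit 0) (.cons (.rel (nat_lit 8598324240)) (.cons (.rel (nat_lit 8598324240)) .nil))) .nil)) (.node .leaf (nat_lit 4585865958113280) (.br (nat_lit 5) (.cons (.br (nat_lit 2) (.cons (.rel (nat_lit 8724168720)) (.cons (.rel (nat_lit 4363388928)) (.cons (.rel (nat_lit 4362078288)) (.cons (.rel (nat_lit 4362108960)) (.cons (.rel (nat_lit 8724168720)) (.cons (.rel (nat_lit 4362078288)) (.cons (.rel (nat_lit 4362108960)) (.cons (.rel (nat_lit 4364173572)) .nil))))))))) (.cons (.br (nat_lit 4) (.cons (.rel (nat_lit 10737418500)) (.cons (.rel (nat_lit 10737418500)) (.cons (.rel (nat_lit 10737418500)) (.cons (.rel (nat_lit 5370283008)) (.cons (.rel (nat_lit 5368972368)) (.cons (.rel (nat_lit 9663676500)) .nil))))))) .nil))) .leaf)) (nat_lit 4585865958113341) (.br (nat_lit 1) (.cons (.br (nat_lit 5) (.cons (.rel (nat_lit 8623490049)) .nil)) .nil)) (.node (.node .leaf (nat_lit 4585865958113415) (.br (nat_lit 5) (.cons (.br (nat_lit 2) (.cons (.rel (nat_lit 4362108960)) (.cons (.rel (nat_lit 4362076230)) (.cons (.rel (nat_lit 4362076230)) .nil)))) .nil)) .leaf) (nat_lit 4585865958113465) (.br (nat_lit 6) (.cons (.br (nat_lit 4) (.cons (.rel (nat_lit 18253873176)) (.cons (.rel (nat_lit 18255773700)) .nil))) .nil)) (.node .leaf (nat_lit 4585865958114060) (.br (nat_lit 4) (.cons (.br (nat_lit 5) (.cons (.rel (nat_lit 6442451112)) (.cons (.br (nat_lit 6) (.cons (.rel (nat_lit 21476417541)) (.cons (.rel (nat_lit 18253873176)) .nil))) .nil))) .nil)) .leaf))) (nat_lit 4585865958114191) (.br (nat_lit 0) (.cons (.br (nat_lit 5) (.cons (.rel (nat_lit 4299161622)) .nil)) .nil)) (.node (.node (.node .leaf (nat_lit 4585865958114211) (.br (nat_lit 4) (.cons (.br (nat_lit 2) (.cons (.rel (nat_lit 1140851841)) (.cons (.rel (nat_lit 1208223744)) (.cons (.rel (nat_lit 1140981762)) .nil)))) .nil)) .leaf) (nat_lit 4585865958114705) (.br (nat_lit 5) (.cons (.br (nat_lit 4) (.cons (.rel (nat_lit 5368709640)) (.cons (.rel (nat_lit 5370283008)) (.cons (.rel (nat_lit 5368709640)) .nil)))) .nil)) (.node .leaf (nat_lit 4585865958114805) (.br (nat_lit 0) (.cons (.br (nat_lit 5) (.cons (.rel (nat_lit 4299163680)) .nil)) .nil)) .leaf)) (nat_lit 4585865958114840) (.br (nat_lit 4) (.cons (.br (nat_lit 5) (.cons (.rel (nat_lit 5369778432)) (.cons (.rel (nat_lit 10737418500)) .nil))) (.cons (.br (nat_lit 5) (.cons (.rel (nat_lit 10737418500)) (.cons (.rel (nat_lit 10737418500)) .nil))) .nil))) (.node (.node .leaf (nat_lit 4585865958178816) (.br (nat_lit 4) (.cons (.br (nat_lit 5) (.cons (.rel (nat_lit 5368972368)) (.cons (.rel (nat_lit 5370283008)) (.cons (.rel (nat_lit 10737418500)) (.cons (.rel (nat_lit 6442467330)) (.cons (.rel (nat_lit 5369036805)) (.cons (.rel (nat_lit 5369778432)) (.cons (.rel (nat_lit 6442467330)) .nil)))))))) (.cons (.br (nat_lit 6) (.cons (.rel (nat_lit 18253616640)) (.cons (.rel (nat_lit 19327373328)) (.cons (.rel (nat_lit 18253897728)) (.cons (.rel (nat_lit 18253627905)) (.cons (.rel (nat_lit 18253874178)) (.cons (.rel (nat_lit 19327420416)) (.cons (.rel (nat_lit 18253873176)) .nil)))))))) (.cons (.br (nat_lit 5) (.cons (.rel (nat_lit 5369036805)) (.cons (.rel (nat_lit 6442456065)) (.cons (.rel (nat_lit 10737418500)) (.cons (.rel (nat_lit 5368709640)) (.cons (.rel (nat_lit 5368709640)) (.cons (.rel (nat_lit 9663676500)) (.cons (.rel (nat_lit 10737420561)) .nil)))))))) (.cons (.br (nat_lit 5) (.cons (.rel (nat_lit 5368972368)) (.cons (.rel (nat_lit 5370283008)) (.cons (.rel (nat_lit 5368709640)) (.cons (.rel (nat_lit 6442467330)) (.cons (.rel (nat_lit 6442467330)) (.cons (.rel (nat_lit 10737418500)) (.cons (.rel (nat_lit 5368972368)) .nil)))))))) (.cons (.br (nat_lit 2) (.cons (.rel (nat_lit 1209008388)) (.cons (.rel (nat_lit 1140867105)) (.cons (.rel (nat_lit 1140851841)) (.cons (.rel (nat_lit 1140867105)) (.cons (.rel (nat_lit 2215117824)) (.cons (.rel (nat_lit 1140867105)) (.cons (.rel (nat_lit 1140854793)) .nil)))))))) (.cons (.br (nat_lit 5) (.cons (.rel (nat_lit 10737418500)) (.cons (.rel (nat_lit 6442456065)) (.cons (.rel (nat_lit 9663697920)) (.cons (.rel (nat_lit 6442456065)) (.cons (.rel (nat_lit 6442467330)) (.cons (.rel (nat_lit 6442467330)) (.cons (.br (nat_lit 2) (.cons (.rel (nat_lit 4362084372)) (.cons (.rel (nat_lit 2215117824)) (.cons (.rel (nat_lit 1140854793)) (.cons (.rel (nat_lit 1140981762)) (.cons (.rel (nat_lit 4362093696)) (.cons (.rel (nat_lit 1140854793)) (.cons (.rel (nat_lit 4362076230)) .nil)))))))) .nil)))))))) .nil))))))) .leaf) (nat_lit 4585865958178822) (.br (nat_lit 2) (.cons (.br (nat_lit 6) (.cons (.rel (nat_lit 34427904000)) (.cons (.rel (nat_lit 17246978085)) (.cons (.rel (nat_lit 17246979096)) .nil)))) (.cons (.br (nat_lit 6) (.cons (.rel (nat_lit 17248292868)) (.cons (.rel (nat_lit 17247003648)) (.cons (.rel (nat_lit 34493957121)) .nil)))) (.cons (.br (nat_lit 6) (.cons (.rel (nat_lit 17248092672)) (.cons (.rel (nat_lit 17246979096)) (.cons (.rel (nat_lit 17246980098)) .nil)))) .nil)))) .leaf))) (nat_lit 4585865958178848) (.br (nat_lit 0) (.cons (.br (nat_lit 2) (.cons (.rel (nat_lit 71307540)) .nil)) .nil)) (.node (.node (.node (.node .leaf (nat_lit 4585865958178877) (.br (nat_lit 2) (.cons (.br (nat_lit 4) (.cons (.rel (nat_lit 2281766913)) (.cons (.rel (nat_lit 2283012117)) .nil))) (.cons (.br (nat_lit 4) (.cons (.rel (nat_lit 2215117824)) (.cons (.rel (nat_lit 1140855840)) .nil))) .nil))) .leaf) (nat_lit 4585865958179491) (.br (nat_lit 4) (.cons (.br (nat_lit 1) (.cons (.rel (nat_lit 1090520160)) (.cons (.rel (nat_lit 1107314256)) (.cons (.rel (nat_lit 1090528257)) .nil)))) .nil)) (.node .leaf (nat_lit 4585865958179598) (.br (nat_lit 3) (.cons (.br (nat_lit 0) (.cons (.rel (nat_lit 272631936)) (.cons (.rel (nat_lit 272631936)) .nil))) .nil)) .leaf)) (nat_lit 4585865958179627) (.br (nat_lit 0) (.cons (.br (nat_lit 2) (.cons (.rel (nat_lit 72353793)) .nil)) .nil)) (.node (.node .leaf (nat_lit 4585865958179716) (.br (nat_lit 1) (.cons (.br (nat_lit 6) (.cons (.rel (nat_lit 17196777480)) .nil)) .nil)) .leaf) (nat_lit 4585865958180241) (.br (nat_lit 2) (.cons (.br (nat_lit 4) (.cons (.rel (nat_lit 1140918336)) (.cons (.rel (nat_lit 1141900800)) (.cons (.rel (nat_lit 1141900800)) .nil)))) (.cons (.br (nat_lit 0) (.cons (.rel (nat_lit 71307540)) (.cons (.rel (nat_lit 71307540)) (.cons (.rel (nat_lit 138430464)) .nil)))) .nil))) .leaf)) (nat_lit 4585865958180247) (.br (nat_lit 2) (.cons (.br (nat_lit 4) (.cons (.rel (nat_lit 1140855840)) (.cons (.rel (nat_lit 1140855840)) .nil))) (.cons (.br (nat_lit 4) (.cons (.rel (nat_lit 1141900800)) (.cons (.rel (nat_lit 1140867105)) .nil))) .nil))) (.node (.node (.node .leaf (nat_lit 4585865958180316) (.br (nat_lit 0) (.cons (.br (nat_lit 1) (.cons (.rel (nat_lit 42206208)) .nil)) .nil)) .leaf) (nat_lit 4585865958184960) (.br (nat_lit 6) (.cons (.br (nat_lit 1) (.cons (.rel (nat_lit 17196652560)) (.cons (.rel (nat_lit 17196777480)) (.cons (.rel (nat_lit 34376778240)) (.cons (.rel (nat_lit 17196663825)) (.cons (.rel (nat_lit 17196679233)) (.cons (.rel (nat_lit 17196679233)) (.cons (.rel (nat_lit 17196652560)) .nil)))))))) (.cons (.br (nat_lit 1) (.cons (.rel (nat_lit 17196652560)) (.cons (.rel (nat_lit 17196679233)) (.cons (.rel (nat_lit 34393358340)) (.cons (.rel (nat_lit 17196663825)) (.cons (.rel (nat_lit 17196679233)) (.cons (.rel (nat_lit 17196679233)) (.cons (.rel (nat_lit 17196679233)) .nil)))))))) (.cons (.br (nat_lit 4) (.cons (.rel (nat_lit 18253897728)) (.cons (.rel (nat_lit 18253612689)) (.cons (.rel (nat_lit 18253616640)) (.cons (.rel (nat_lit 18253616640)) (.cons (.rel (nat_lit 18253616640)) (.cons (.rel (nat_lit 18253616640)) (.cons (.rel (nat_lit 18253616640)) .nil)))))))) (.cons (.br (nat_lit 4) (.cons (.rel (nat_lit 18253627905)) (.cons (.rel (nat_lit 18253897728)) (.cons (.rel (nat_lit 19327353921)) (.cons (.rel (nat_lit 18253874178)) (.cons (.rel (nat_lit 18253897728)) (.cons (.rel (nat_lit 18253627905)) (.cons (.rel (nat_lit 18253873176)) .nil)))))))) (.cons (.br (nat_lit 1) (.cons (.rel (nat_lit 34376778240)) (.cons (.rel (nat_lit 17196777480)) (.cons (.rel (nat_lit 17196646548)) (.cons (.rel (nat_lit 17196777480)) (.cons (.rel (nat_lit 17196650502)) (.cons (.rel (nat_lit 34393358340)) (.cons (.rel (nat_lit 17196646548)) .nil)))))))) (.cons (.br (nat_lit 4) (.cons (.rel (nat_lit 18253873176)) (.cons (.rel (nat_lit 18253616640)) (.cons (.rel (nat_lit 18253627905)) (.cons (.rel (nat_lit 18253874178)) (.cons (.rel (nat_lit 18254004288)) (.cons (.rel (nat_lit 18254004288)) (.cons (.rel (nat_lit 35433612288)) .nil)))))))) .nil))))))) (.node .leaf (nat_lit 4585865958184972) (.br (nat_lit 6) (.cons (.br (nat_lit 1) (.cons (.rel (nat_lit 17197957188)) (.cons (.rel (nat_lit 17196652560)) (.cons (.rel (nat_lit 17196652560)) .nil)))) (.cons (.br (nat_lit 1) (.cons (.rel (nat_lit 17197957188)) (.cons (.rel (nat_lit 17196646548)) (.cons (.rel (nat_lit 17196679233)) .nil)))) .nil))) .leaf)) (nat_lit 4585865958185111) (.br (nat_lit 5) (.cons (.br (nat_lit 4) (.cons (.rel (nat_lit 9663697920)) (.cons (.rel (nat_lit 10737418500)) (.cons (.rel (nat_lit 5368987776)) (.cons (.rel (nat_lit 5368709640)) (.cons (.rel (nat_lit 5368709640)) .nil)))))) (.cons (.br (nat_lit 6) (.cons (.rel (nat_lit 21475098756)) (.cons (.rel (nat_lit 21475104768)) (.cons (.rel (nat_lit 21474869760)) (.cons (.rel (nat_lit 21476474880)) (.cons (.rel (nat_lit 38654706756)) (.cons (.rel (nat_lit 21474869760)) (.cons (.rel (nat_lit 42949674384)) (.cons (.rel (nat_lit 21474869760)) .nil))))))))) (.cons (.br (nat_lit 4) (.cons (.rel (nat_lit 9663697920)) (.cons (.rel (nat_lit 10737418500)) (.cons (.rel (nat_lit 5369778432)) (.cons (.rel (nat_lit 5368972368)) (.cons (.rel (nat_lit 5368709640)) .nil)))))) .nil)))) (.node (.node .leaf (nat_lit 4585865958185135) (.br (nat_lit 0) (.cons (.br (nat_lit 1) (.cons (.rel (nat_lit 25165842)) (.cons (.rel (nat_lit 21497856)) (.cons (.rel (nat_lit 39063552)) .nil)))) (.cons (.br (nat_lit 6) (.cons (.rel (nat_lit 17184063621)) (.cons (.rel (nat_lit 17184069633)) (.cons (.rel (nat_lit 17184104448)) .nil)))) .nil))) .leaf) (nat_lit 4585865958185142) (.br (nat_lit 1) (.cons (.br (nat_lit 6) (.cons (.rel (nat_lit 17196777480)) (.cons (.rel (nat_lit 17196777480)) (.cons (.rel (nat_lit 17196663825)) (.cons (.rel (nat_lit 17196663825)) .nil))))) (.cons (.br (nat_lit 6) (.cons (.rel (nat_lit 17196777480)) (.cons (.rel (nat_lit 17196777480)) (.cons (.rel (nat_lit 17196650502)) (.cons (.rel (nat_lit 17196650502)) .nil))))) (.cons (.br (nat_lit 6) (.cons (.rel (nat_lit 34393358340)) (.cons (.rel (nat_lit 34393358340)) (.cons (.rel (nat_lit 17196679233)) (.cons (.rel (nat_lit 17196646548)) .nil))))) (.cons (.br (nat_lit 4) (.cons (.rel (nat_lit 2181055488)) (.cons (.rel (nat_lit 1090519113)) (.cons (.rel (nat_lit 2181055488)) (.cons (.rel (nat_lit 1090519113)) (.cons (.rel (nat_lit 1090528257)) .nil)))))) .nil))))) .leaf)))) (nat_lit 4585865958185210) (.br (nat_lit 2) (.cons (.br (nat_lit 0) (.cons (.rel (nat_lit 72353793)) (.cons (.rel (nat_lit 71369025)) (.cons (.rel (nat_lit 71827524)) .nil)))) (.cons (.br (nat_lit 6) (.cons (.rel (nat_lit 17246979096)) (.cons (.rel (nat_lit 17247003648)) (.cons (.rel (nat_lit 17246978085)) .nil)))) .nil))) (.node (.node (.node (.node (.node .leaf (nat_lit 4585865958185215) (.br (nat_lit 3) (.cons (.br (nat_lit 6) (.cons (.rel (nat_lit 17716740114)) (.cons (.rel (nat_lit 17448307200)) (.cons (.rel (nat_lit 34896610560)) (.cons (.rel (nat_lit 17448599553)) (.cons (.rel (nat_lit 17448307200)) .nil)))))) (.cons (.br (nat_lit 6) (.cons (.rel (nat_lit 34896610560)) (.cons (.rel (nat_lit 34896610560)) (.cons (.rel (nat_lit 34896610560)) (.cons (.rel (nat_lit 17448307200)) (.cons (.rel (nat_lit 17716741125)) .nil)))))) (.cons (.br (nat_lit 5) (.cons (.rel (nat_lit 4563730497)) (.cons (.rel (nat_lit 4564468992)) (.cons (.rel (nat_lit 8858501124)) (.cons (.rel (nat_lit 8858370192)) (.cons (.rel (nat_lit 4563796992)) (.cons (.rel (nat_lit 4564468992)) .nil))))))) (.cons (.br (nat_lit 4) (.cons (.rel (nat_lit 1342440480)) (.cons (.rel (nat_lit 1342308864)) (.cons (.rel (nat_lit 1342439433)) (.cons (.rel (nat_lit 2415928320)) .nil))))) .nil))))) .leaf) (nat_lit 4585865958185242) (.br (nat_lit 6) (.cons (.br (nat_lit 2) (.cons (.rel (nat_lit 17247110208)) (.cons (.br (nat_lit 0) (.cons (.rel (nat_lit 71369025)) (.cons (.rel (nat_lit 71307540)) (.cons (.rel (nat_lit 71369025)) (.cons (.rel (nat_lit 17184130116)) .nil))))) (.cons (.rel (nat_lit 17247110208)) .nil)))) (.cons (.br (nat_lit 2) (.cons (.rel (nat_lit 17314349121)) (.cons (.rel (nat_lit 17247014913)) (.cons (.rel (nat_lit 17246978085)) .nil)))) .nil))) (.node .leaf (nat_lit 4585865958185246) (.br (nat_lit 5) (.cons (.br (nat_lit 1) (.cons (.rel (nat_lit 8606712129)) (.cons (.rel (nat_lit 8623490049)) (.cons (.rel (nat_lit 8623490049)) (.cons (.rel (nat_lit 8606778624)) .nil))))) (.cons (.br (nat_lit 6) (.cons (.br (nat_lit 1) (.cons (.rel (nat_lit 17196777480)) (.cons (.rel (nat_lit 4330618944)) (.cons (.rel (nat_lit 8607760512)) (.cons (.rel (nat_lit 4313059332)) .nil))))) (.cons (.rel (nat_lit 21474869760)) (.cons (.rel (nat_lit 21474869760)) .nil)))) (.cons (.br (nat_lit 1) (.cons (.rel (nat_lit 8623490049)) (.cons (.rel (nat_lit 4311876672)) (.cons (.rel (nat_lit 4313059332)) (.cons (.rel (nat_lit 4311770112)) .nil))))) .nil)))) .leaf)) (nat_lit 4585865958185262) (.br (nat_lit 5) (.cons (.br (nat_lit 4) (.cons (.rel (nat_lit 5369036805)) (.cons (.rel (nat_lit 5370822672)) (.cons (.rel (nat_lit 10737418500)) (.cons (.rel (nat_lit 5370283008)) (.cons (.rel (nat_lit 5369778432)) (.cons (.rel (nat_lit 6442456065)) (.cons (.rel (nat_lit 5369778432)) .nil)))))))) (.cons (.br (nat_lit 1) (.cons (.rel (nat_lit 4311745560)) (.cons (.rel (nat_lit 8607760512)) (.cons (.rel (nat_lit 8623490049)) (.cons (.rel (nat_lit 4311746562)) (.cons (.rel (nat_lit 4311781377)) .nil)))))) .nil))) (.node (.node .leaf (nat_lit 4585865958185635) (.br (nat_lit 1) (.cons (.br (nat_lit 4) (.cons (.rel (nat_lit 1107298848)) (.cons (.rel (nat_lit 2181055488)) (.cons (.rel (nat_lit 1090519113)) .nil)))) (.cons (.br (nat_lit 4) (.cons (.rel (nat_lit 1090519113)) (.cons (.rel (nat_lit 1090553856)) (.cons (.rel (nat_lit 1090519113)) .nil)))) .nil))) .leaf) (nat_lit 4585865958185720) (.br (nat_lit 4) (.cons (.br (nat_lit 6) (.cons (.rel (nat_lit 18253873176)) (.cons (.rel (nat_lit 18255773700)) .nil))) (.cons (.br (nat_lit 6) (.cons (.rel (nat_lit 18253873176)) (.cons (.rel (nat_lit 19327373328)) .nil))) .nil))) .leaf)) (nat_lit 4585865958185742) (.br (nat_lit 5) (.cons (.br (nat_lit 2) (.cons (.rel (nat_lit 8724168720)) (.cons (.rel (nat_lit 4362084372)) (.cons (.rel (nat_lit 4362108960)) (.cons (.rel (nat_lit 4362108960)) (.cons (.rel (nat_lit 4362076230)) (.cons (.rel (nat_lit 4362076230)) .nil))))))) (.cons (.br (nat_lit 2) (.cons (.rel (nat_lit 4362078288)) (.cons (.rel (nat_lit 4362108960)) (.cons (.rel (nat_lit 4362108960)) (.cons (.rel (nat_lit 4362076230)) (.cons (.rel (nat_lit 8658092049)) (.cons (.rel (nat_lit 4362078288)) .nil))))))) (.cons (.br (nat_lit 6) (.cons (.rel (nat_lit 21476933652)) (.cons (.rel (nat_lit 25769808900)) (.cons (.rel (nat_lit 21475098756)) .nil)))) .nil)))) (.node (.node (.node .leaf (nat_lit 4585865958185767) (.br (nat_lit 1) (.cons (.br (nat_lit 5) (.cons (.rel (nat_lit 4311876672)) (.cons (.rel (nat_lit 4311745560)) (.cons (.rel (nat_lit 4312859136)) .nil)))) .nil)) .leaf) (nat_lit 4585865958185771) (.br (nat_lit 1) (.cons (.br (nat_lit 6) (.cons (.br (nat_lit 5) (.cons (.rel (nat_lit 21475098756)) (.cons (.rel (nat_lit 4311745560)) (.cons (.rel (nat_lit 4311745560)) (.cons (.rel (nat_lit 4311745560)) (.cons (.rel (nat_lit 8623490049)) .nil)))))) (.cons (.rel (nat_lit 34393358340)) (.cons (.rel (nat_lit 17213948160)) (.cons (.rel (nat_lit 17196646548)) .nil))))) (.cons (.br (nat_lit 5) (.cons (.rel (nat_lit 4311781377)) (.cons (.rel (nat_lit 4330618944)) (.cons (.rel (nat_lit 4311810177)) (.cons (.rel (nat_lit 4311876672)) (.cons (.rel (nat_lit 8623490049)) .nil)))))) (.cons (.br (nat_lit 4) (.cons (.rel (nat_lit 1090553856)) (.cons (.rel (nat_lit 1090528257)) (.cons (.rel (nat_lit 1091830800)) (.cons (.rel (nat_lit 1090539522)) (.cons (.rel (nat_lit 2181055488)) .nil)))))) .nil)))) (.node .leaf (nat_lit 4585865958185860) (.br (nat_lit 6) (.cons (.br (nat_lit 1) (.cons (.rel (nat_lit 34377564177)) (.cons (.rel (nat_lit 17197957188)) .nil))) .nil)) .leaf)) (nat_lit 4585865958185871) (.br (nat_lit 6) (.cons (.br (nat_lit 1) (.cons (.br (nat_lit 2) (.cons (.rel (nat_lit 84936720)) (.cons (.rel (nat_lit 34493957121)) (.cons (.rel (nat_lit 34493957121)) (.cons (.rel (nat_lit 84936720)) (.cons (.rel (nat_lit 17247110208)) .nil)))))) (.cons (.rel (nat_lit 17196646548)) (.cons (.rel (nat_lit 17196646548)) (.cons (.rel (nat_lit 17196777480)) .nil))))) (.cons (.br (nat_lit 1) (.cons (.rel (nat_lit 34376778240)) (.cons (.rel (nat_lit 17196679233)) (.cons (.rel (nat_lit 17197957188)) (.cons (.rel (nat_lit 17196777480)) .nil))))) .nil))) (.node (.node .leaf (nat_lit 4585865958185872) (.br (nat_lit 1) (.cons (.br (nat_lit 6) (.cons (.rel (nat_lit 17213948160)) (.cons (.rel (nat_lit 34393358340)) (.cons (.rel (nat_lit 17213948160)) (.cons (.br (nat_lit 5) (.cons (.rel (nat_lit 42949689600)) (.cons (.rel (nat_lit 4311745560)) (.cons (.rel (nat_lit 4312859136)) (.cons (.rel (nat_lit 21475116033)) .nil))))) .nil))))) (.cons (.br (nat_lit 5) (.cons (.rel (nat_lit 4311744549)) (.cons (.rel (nat_lit 4313059332)) (.cons (.rel (nat_lit 4311746562)) (.cons (.rel (nat_lit 4311810177)) .nil))))) (.cons (.br (nat_lit 5) (.cons (.rel (nat_lit 4312859136)) (.cons (.rel (nat_lit 4311745560)) (.cons (.rel (nat_lit 4311770112)) (.cons (.rel (nat_lit 8623490049)) .nil))))) .nil)))) .leaf) (nat_lit 4585865958186221) (.br (nat_lit 1) (.cons (.br (nat_lit 6) (.cons (.rel (nat_lit 17196777480)) (.cons (.rel (nat_lit 17196652560)) (.cons (.rel (nat_lit 17196663825)) (.cons (.rel (nat_lit 17196652560)) (.cons (.rel (nat_lit 17196777480)) (.cons (.rel (nat_lit 17196777480)) (.cons (.rel (nat_lit 17213948160)) .nil)))))))) (.cons (.br (nat_lit 5) (.cons (.rel (nat_lit 4312859136)) (.cons (.rel (nat_lit 4311745560)) (.cons (.rel (nat_lit 4311745560)) (.cons (.rel (nat_lit 8623490049)) (.cons (.rel (nat_lit 4311876672)) .nil)))))) (.cons (.br (nat_lit 5) (.cons (.rel (nat_lit 4311781377)) (.cons (.rel (nat_lit 4330618944)) (.cons (.rel (nat_lit 4311770112)) (.cons (.rel (nat_lit 8607236112)) (.cons (.rel (nat_lit 4329570561)) .nil)))))) (.cons (.br (nat_lit 5) (.cons (.rel (nat_lit 4311746562)) (.cons (.rel (nat_lit 4329570561)) (.cons (.rel (nat_lit 8623490049)) (.cons (.rel (nat_lit 4313059332)) (.cons (.rel (nat_lit 8623490049)) .nil)))))) .nil))))) .leaf))) (nat_lit 4585865958186240) (.br (nat_lit 5) (.cons (.br (nat_lit 1) (.cons (.rel (nat_lit 4311745560)) (.cons (.rel (nat_lit 4312859136)) (.cons (.rel (nat_lit 8623490049)) .nil)))) .nil)) (.node (.node (.node (.node .leaf (nat_lit 4585865958186385) (.br (nat_lit 1) (.cons (.br (nat_lit 5) (.cons (.rel (nat_lit 4312859136)) (.cons (.rel (nat_lit 4311744549)) (.cons (.rel (nat_lit 4311770112)) (.cons (.rel (nat_lit 4311770112)) .nil))))) (.cons (.br (nat_lit 5) (.cons (.rel (nat_lit 4311745560)) (.cons (.rel (nat_lit 4311745560)) (.cons (.rel (nat_lit 8624539200)) (.cons (.br (nat_lit 4) (.cons (.rel (nat_lit 2181055488)) (.cons (.rel (nat_lit 5368972368)) (.cons (.rel (nat_lit 5368709640)) (.cons (.rel (nat_lit 1090520160)) (.cons (.rel (nat_lit 5368972368)) .nil)))))) .nil))))) (.cons (.br (nat_lit 4) (.cons (.rel (nat_lit 1090520160)) (.cons (.rel (nat_lit 1090519113)) (.cons (.rel (nat_lit 1090519113)) (.cons (.rel (nat_lit 1090519113)) (.cons (.rel (nat_lit 1090520160)) .nil)))))) .nil)))) .leaf) (nat_lit 4585865958186392) (.br (nat_lit 1) (.cons (.br (nat_lit 0) (.cons (.rel (nat_lit 22037520)) (.cons (.rel (nat_lit 21004545)) (.cons (.rel (nat_lit 25166853)) .nil)))) (.cons (.br (nat_lit 6) (.cons (.rel (nat_lit 17196777480)) (.cons (.rel (nat_lit 17196777480)) .nil))) .nil))) (.node .leaf (nat_lit 4585865958186485) (.br (nat_lit 6) (.cons (.br (nat_lit 4) (.cons (.rel (nat_lit 18253873176)) (.cons (.rel (nat_lit 18253873176)) (.cons (.br (nat_lit 0) (.cons (.rel (nat_lit 18258329604)) (.cons (.rel (nat_lit 1082156544)) (.cons (.rel (nat_lit 17184064680)) (.cons (.rel (nat_lit 17184130116)) .nil))))) (.cons (.rel (nat_lit 18255773700)) .nil))))) (.cons (.br (nat_lit 0) (.cons (.rel (nat_lit 17184069633)) (.cons (.rel (nat_lit 17184104448)) (.cons (.rel (nat_lit 17184080898)) (.cons (.rel (nat_lit 17184063621)) .nil))))) (.cons (.br (nat_lit 2) (.cons (.rel (nat_lit 17246980098)) (.cons (.rel (nat_lit 17246980098)) (.cons (.rel (nat_lit 34493957121)) (.cons (.rel (nat_lit 17247110208)) .nil))))) .nil)))) .leaf)) (nat_lit 4585865958340608) (.br (nat_lit 4) (.cons (.br (nat_lit 5) (.cons (.rel (nat_lit 5368709640)) (.cons (.rel (nat_lit 10737418500)) (.cons (.rel (nat_lit 10737418500)) (.cons (.rel (nat_lit 6442467330)) (.cons (.rel (nat_lit 6442456065)) .nil)))))) (.cons (.br (nat_lit 5) (.cons (.br (nat_lit 6) (.cons (.rel (nat_lit 21475116033)) (.cons (.rel (nat_lit 18253627905)) (.cons (.rel (nat_lit 18253627905)) (.cons (.rel (nat_lit 18253897728)) (.cons (.rel (nat_lit 18255773700)) (.cons (.rel (nat_lit 18253627905)) (.cons (.rel (nat_lit 18253627905)) (.cons (.rel (nat_lit 35433484308)) .nil))))))))) (.cons (.rel (nat_lit 5369778432)) (.cons (.rel (nat_lit 9663676500)) (.cons (.rel (nat_lit 6442467330)) (.cons (.rel (nat_lit 9663697920)) .nil)))))) (.cons (.br (nat_lit 5) (.cons (.rel (nat_lit 9663697920)) (.cons (.rel (nat_lit 6442456065)) (.cons (.rel (nat_lit 5369778432)) (.cons (.rel (nat_lit 6442467330)) (.cons (.rel (nat_lit 5368709640)) .nil)))))) (.cons (.br (nat_lit 5) (.cons (.rel (nat_lit 5368972368)) (.cons (.rel (nat_lit 5368709640)) (.cons (.rel (nat_lit 9663697920)) (.cons (.rel (nat_lit 5368709640)) (.cons (.rel (nat_lit 5368709640)) .nil)))))) (.cons (.br (nat_lit 5) (.cons (.rel (nat_lit 10737418500)) (.cons (.rel (nat_lit 6442467330)) (.cons (.rel (nat_lit 5368709640)) (.cons (.rel (nat_lit 5369778432)) (.cons (.rel (nat_lit 9663697920)) .nil)))))) .nil)))))) (.node (.node .leaf (nat_lit 4585865958340743) (.br (nat_lit 1) (.cons (.br (nat_lit 5) (.cons (.rel (nat_lit 4311745560)) (.cons (.rel (nat_lit 4311744549)) (.cons (.rel (nat_lit 4311876672)) (.cons (.rel (nat_lit 8623490049)) .nil))))) (.cons (.br (nat_lit 4) (.cons (.rel (nat_lit 1090539522)) (.cons (.rel (nat_lit 1091574276)) (.cons (.rel (nat_lit 2181055488)) .nil)))) .nil))) .leaf) (nat_lit 4585865958340759) (.br (nat_lit 4) (.cons (.br (nat_lit 0) (.cons (.rel (nat_lit 2155876356)) (.cons (.rel (nat_lit 2151679233)) (.cons (.rel (nat_lit 1078329600)) (.cons (.rel (nat_lit 2152727616)) (.cons (.rel (nat_lit 2155876356)) (.cons (.rel (nat_lit 2152218624)) .nil))))))) (.cons (.br (nat_lit 0) (.cons (.rel (nat_lit 2155876356)) (.cons (.rel (nat_lit 2155876356)) (.cons (.rel (nat_lit 1078001670)) (.cons (.rel (nat_lit 1077938244)) (.cons (.rel (nat_lit 1077952641)) (.cons (.rel (nat_lit 2155876356)) .nil))))))) (.cons (.br (nat_lit 0) (.cons (.rel (nat_lit 2155876356)) (.cons (.rel (nat_lit 1078001670)) (.cons (.rel (nat_lit 1082425344)) (.cons (.rel (nat_lit 2155876356)) (.cons (.rel (nat_lit 1077944328)) (.cons (.rel (nat_lit 2155876356)) .nil))))))) (.cons (.br (nat_lit 5) (.cons (.rel (nat_lit 10737418500)) (.cons (.rel (nat_lit 10738475028)) (.cons (.rel (nat_lit 5368709640)) (.cons (.rel (nat_lit 5368987776)) (.cons (.rel (nat_lit 5368709640)) (.cons (.rel (nat_lit 9663709185)) .nil))))))) .nil))))) .leaf)) (nat_lit 4585865958340770) (.br (nat_lit 0) (.cons (.br (nat_lit 1) (.cons (.rel (nat_lit 21497856)) .nil)) .nil)) (.node (.node (.node .leaf (nat_lit 4585865958340790) (.br (nat_lit 1) (.cons (.br (nat_lit 6) (.cons (.rel (nat_lit 34393358340)) (.cons (.rel (nat_lit 34376778240)) (.cons (.rel (nat_lit 17196777480)) (.cons (.rel (nat_lit 17196650502)) (.cons (.rel (nat_lit 17196663825)) .nil)))))) (.cons (.br (nat_lit 6) (.cons (.rel (nat_lit 17196777480)) (.cons (.rel (nat_lit 17213948160)) (.cons (.rel (nat_lit 34393358340)) (.cons (.rel (nat_lit 17213948160)) (.cons (.rel (nat_lit 17196650502)) .nil)))))) (.cons (.br (nat_lit 6) (.cons (.rel (nat_lit 34377564177)) (.cons (.rel (nat_lit 17196777480)) (.cons (.rel (nat_lit 17213948160)) (.cons (.rel (nat_lit 17196777480)) (.cons (.rel (nat_lit 17196646548)) .nil)))))) (.cons (.br (nat_lit 6) (.cons (.rel (nat_lit 34393358340)) (.cons (.rel (nat_lit 17213948160)) (.cons (.rel (nat_lit 17196777480)) (.cons (.br (nat_lit 2) (.cons (.rel (nat_lit 83892480)) (.cons (.rel (nat_lit 151000068)) (.cons (.rel (nat_lit 17247014913)) (.cons (.rel (nat_lit 84952128)) (.cons (.rel (nat_lit 83892480)) (.cons (.rel (nat_lit 17246980098)) .nil))))))) (.cons (.rel (nat_lit 17196777480)) .nil)))))) .nil))))) .leaf) (nat_lit 4585865958340858) (.br (nat_lit 0) (.cons (.br (nat_lit 1) (.cons (.rel (nat_lit 20971860)) .nil)) .nil)) (.node .leaf (nat_lit 4585865958340910) (.br (nat_lit 5) (.cons (.br (nat_lit 1) (.cons (.rel (nat_lit 8606712129)) (.cons (.rel (nat_lit 8607760512)) (.cons (.rel (nat_lit 4311744549)) (.cons (.rel (nat_lit 4312859136)) .nil))))) .nil)) .leaf)) (nat_lit 4585865958340914) (.br (nat_lit 0) (.cons (.br (nat_lit 1) (.cons (.rel (nat_lit 22052928)) .nil)) .nil)) (.node (.node .leaf (nat_lit 4585865958341265) (.br (nat_lit 2) (.cons (.br (nat_lit 6) (.cons (.rel (nat_lit 17248092672)) (.cons (.rel (nat_lit 34493957121)) .nil))) (.cons (.br (nat_lit 6) (.cons (.rel (nat_lit 17246980098)) (.cons (.rel (nat_lit 17247110208)) .nil))) .nil))) .leaf) (nat_lit 4585865958341360) (.br (nat_lit 0) (.cons (.br (nat_lit 6) (.cons (.rel (nat_lit 17184104448)) (.cons (.rel (nat_lit 17190354945)) (.cons (.rel (nat_lit 17184063621)) .nil)))) (.cons (.br (nat_lit 1) (.cons (.rel (nat_lit 20993280)) (.cons (.rel (nat_lit 21497856)) .nil))) .nil))) .leaf))))) (nat_lit 4585865958341368) (.br (nat_lit 4) (.cons (.br (nat_lit 0) (.cons (.rel (nat_lit 1079271426)) (.cons (.rel (nat_lit 1077937233)) .nil))) .nil)) (.node (.node (.node (.node (.node (.node .leaf (nat_lit 4585865958341369) (.br (nat_lit 2) (.cons (.br (nat_lit 4) (.cons (.rel (nat_lit 1141900800)) (.cons (.rel (nat_lit 1209008388)) (.cons (.rel (nat_lit 1142181888)) (.cons (.rel (nat_lit 1141113096)) .nil))))) (.cons (.br (nat_lit 4) (.cons (.rel (nat_lit 1141900800)) (.cons (.rel (nat_lit 1140918336)) (.cons (.rel (nat_lit 1140855840)) (.cons (.rel (nat_lit 1140867105)) .nil))))) .nil))) .leaf) (nat_lit 4585865958341390) (.br (nat_lit 1) (.cons (.br (nat_lit 2) (.cons (.rel (nat_lit 83903745)) .nil)) .nil)) (.node .leaf (nat_lit 4585865958341415) (.br (nat_lit 0) (.cons (.br (nat_lit 1) (.cons (.rel (nat_lit 22037520)) (.cons (.rel (nat_lit 20971860)) .nil))) (.cons (.br (nat_lit 1) (.cons (.rel (nat_lit 22052928)) (.cons (.rel (nat_lit 20993280)) .nil))) .nil))) .leaf)) (nat_lit 4585865958341510) (.br (nat_lit 0) (.cons (.br (nat_lit 1) (.cons (.rel (nat_lit 20971860)) .nil)) .nil)) (.node (.node .leaf (nat_lit 4585865958341894) (.br (nat_lit 4) (.cons (.br (nat_lit 6) (.cons (.rel (nat_lit 36507243777)) .nil)) .nil)) .leaf) (nat_lit 4585865958342040) (.br (nat_lit 0) (.cons (.br (nat_lit 2) (.cons (.rel (nat_lit 72417408)) (.cons (.rel (nat_lit 71369025)) (.cons (.rel (nat_lit 71307540)) .nil)))) .nil)) (.node .leaf (nat_lit 4585865958342115) (.br (nat_lit 2) (.cons (.br (nat_lit 5) (.cons (.rel (nat_lit 4362142725)) (.cons (.rel (nat_lit 8724168720)) (.cons (.rel (nat_lit 4362076230)) .nil)))) (.cons (.br (nat_lit 5) (.cons (.br (nat_lit 4) (.cons (.rel (nat_lit 1141900800)) (.cons (.rel (nat_lit 1140854793)) (.cons (.rel (nat_lit 1141113096)) (.cons (.rel (nat_lit 5502927876)) .nil))))) (.cons (.rel (nat_lit 4362108960)) (.cons (.rel (nat_lit 4362108960)) .nil)))) (.cons (.br (nat_lit 5) (.cons (.rel (nat_lit 4363388928)) (.cons (.rel (nat_lit 4362093696)) (.cons (.rel (nat_lit 4362108960)) .nil)))) .nil)))) .leaf))) (nat_lit 4585865958373376) (.br (nat_lit 4) (.cons (.br (nat_lit 0) (.cons (.rel (nat_lit 1079001600)) (.cons (.rel (nat_lit 1077938244)) (.cons (.rel (nat_lit 1079001600)) (.cons (.rel (nat_lit 1077944328)) (.cons (.rel (nat_lit 1079247873)) (.cons (.rel (nat_lit 1077937233)) (.cons (.rel (nat_lit 1077938244)) (.cons (.rel (nat_lit 1079247873)) .nil))))))))) (.cons (.br (nat_lit 0) (.cons (.rel (nat_lit 1077937233)) (.cons (.rel (nat_lit 1082425344)) (.cons (.rel (nat_lit 1079247873)) (.cons (.rel (nat_lit 1077938244)) (.cons (.rel (nat_lit 1077938244)) (.cons (.rel (nat_lit 1077938244)) (.cons (.rel (nat_lit 1077944328)) (.cons (.rel (nat_lit 1077938244)) .nil))))))))) (.cons (.br (nat_lit 2) (.cons (.rel (nat_lit 1140855840)) (.cons (.rel (nat_lit 1140851841)) (.cons (.rel (nat_lit 1140867105)) (.cons (.rel (nat_lit 2281766913)) (.cons (.rel (nat_lit 1140918336)) (.cons (.rel (nat_lit 1140918336)) (.cons (.rel (nat_lit 1140918336)) (.cons (.rel (nat_lit 1140867105)) .nil))))))))) (.cons (.br (nat_lit 5) (.cons (.rel (nat_lit 10737418500)) (.cons (.br (nat_lit 0) (.cons (.rel (nat_lit 4299194496)) (.cons (.rel (nat_lit 1079247873)) (.cons (.rel (nat_lit 2155876356)) (.cons (.rel (nat_lit 1078001670)) (.cons (.rel (nat_lit 4299179088)) (.cons (.rel (nat_lit 4299163680)) (.cons (.rel (nat_lit 1077944328)) (.cons (.rel (nat_lit 4299163680)) .nil))))))))) (.cons (.rel (nat_lit 5370283008)) (.cons (.br (nat_lit 2) (.cons (.rel (nat_lit 1142181888)) (.cons (.rel (nat_lit 1140981762)) (.cons (.rel (nat_lit 4362108960)) (.cons (.rel (nat_lit 2281766913)) (.cons (.rel (nat_lit 8724168720)) (.cons (.rel (nat_lit 4362078288)) (.cons (.rel (nat_lit 1140981762)) (.cons (.rel (nat_lit 4362108960)) .nil))))))))) (.cons (.br (nat_lit 0) (.cons (.rel (nat_lit 4299163680)) (.cons (.rel (nat_lit 1079247873)) (.cons (.rel (nat_lit 2155876356)) (.cons (.rel (nat_lit 1078001670)) (.cons (.rel (nat_lit 8598324240)) (.cons (.rel (nat_lit 8598339648)) (.cons (.rel (nat_lit 1077944328)) (.cons (.rel (nat_lit 4299162633)) .nil))))))))) (.cons (.rel (nat_lit 6442467330)) (.cons (.rel (nat_lit 9663709185)) (.cons (.rel (nat_lit 5370283008)) .nil))))))))) .nil))))) (.node (.node (.node .leaf (nat_lit 4585865958373437) (.br (nat_lit 6) (.cons (.br (nat_lit 0) (.cons (.rel (nat_lit 17188258368)) (.cons (.rel (nat_lit 17184063621)) .nil))) .nil)) .leaf) (nat_lit 4585865958373511) (.br (nat_lit 0) (.cons (.br (nat_lit 4) (.cons (.rel (nat_lit 2151679233)) (.cons (.rel (nat_lit 2155876356)) (.cons (.rel (nat_lit 2151679233)) (.cons (.rel (nat_lit 2155876356)) .nil))))) (.cons (.br (nat_lit 4) (.cons (.rel (nat_lit 1077956640)) (.cons (.rel (nat_lit 2152727616)) (.cons (.rel (nat_lit 2151679233)) (.cons (.rel (nat_lit 1082167809)) .nil))))) .nil))) (.node .leaf (nat_lit 4585865958373527) (.br (nat_lit 1) (.cons (.br (nat_lit 0) (.cons (.rel (nat_lit 21497856)) (.cons (.rel (nat_lit 21497856)) (.cons (.rel (nat_lit 22024197)) (.cons (.rel (nat_lit 37748769)) (.cons (.rel (nat_lit 20993280)) .nil)))))) (.cons (.br (nat_lit 0) (.cons (.rel (nat_lit 42206208)) (.cons (.br (nat_lit 4) (.cons (.rel (nat_lit 1094713860)) (.cons (.rel (nat_lit 2181055488)) (.cons (.rel (nat_lit 1082425344)) (.cons (.rel (nat_lit 1077937233)) (.cons (.rel (nat_lit 2155876356)) .nil)))))) (.cons (.rel (nat_lit 37749780)) (.cons (.rel (nat_lit 25428288)) (.cons (.rel (nat_lit 25428288)) .nil)))))) (.cons (.br (nat_lit 4) (.cons (.rel (nat_lit 1090520160)) (.cons (.rel (nat_lit 2164277568)) (.cons (.rel (nat_lit 1090553856)) (.cons (.rel (nat_lit 2181055488)) (.cons (.rel (nat_lit 1090528257)) .nil)))))) (.cons (.br (nat_lit 4) (.cons (.rel (nat_lit 1090535568)) (.cons (.rel (nat_lit 2181055488)) (.cons (.rel (nat_lit 1090520160)) (.cons (.rel (nat_lit 1107558468)) (.cons (.rel (nat_lit 1090528257)) .nil)))))) .nil))))) .leaf)) (nat_lit 4585865958373551) (.br (nat_lit 1) (.cons (.br (nat_lit 6) (.cons (.br (nat_lit 4) (.cons (.rel (nat_lit 1090535568)) (.cons (.rel (nat_lit 1091846208)) (.cons (.rel (nat_lit 35433612288)) .nil)))) (.cons (.rel (nat_lit 34376778240)) .nil))) .nil)) (.node (.node .leaf (nat_lit 4585865958373558) (.br (nat_lit 6) (.cons (.br (nat_lit 1) (.cons (.rel (nat_lit 34376778240)) (.cons (.rel (nat_lit 17196777480)) (.cons (.br (nat_lit 0) (.cons (.rel (nat_lit 21497856)) (.cons (.rel (nat_lit 34363933056)) (.cons (.rel (nat_lit 20993280)) (.cons (.rel (nat_lit 21497856)) (.cons (.rel (nat_lit 17202937872)) .nil)))))) (.cons (.rel (nat_lit 17196646548)) .nil))))) (.cons (.br (nat_lit 1) (.cons (.rel (nat_lit 34393358340)) (.cons (.rel (nat_lit 34376778240)) (.cons (.rel (nat_lit 17196650502)) (.cons (.rel (nat_lit 17196650502)) .nil))))) (.cons (.br (nat_lit 1) (.cons (.rel (nat_lit 34376778240)) (.cons (.rel (nat_lit 17196777480)) (.cons (.rel (nat_lit 34393358340)) (.cons (.rel (nat_lit 17196777480)) .nil))))) .nil)))) .leaf) (nat_lit 4585865958373651) (.br (nat_lit 0) (.cons (.br (nat_lit 1) (.cons (.rel (nat_lit 20971860)) .nil)) .nil)) .leaf))) (nat_lit 4585865958373656) (.br (nat_lit 4) (.cons (.br (nat_lit 2) (.cons (.rel (nat_lit 1140854793)) (.cons (.rel (nat_lit 1140867105)) .nil))) .nil)) (.node (.node (.node (.node .leaf (nat_lit 4585865958373658) (.br (nat_lit 0) (.cons (.br (nat_lit 3) (.cons (.rel (nat_lit 272631936)) (.cons (.rel (nat_lit 272631936)) (.cons (.rel (nat_lit 272631936)) .nil)))) .nil)) .leaf) (nat_lit 4585865958373662) (.br (nat_lit 1) (.cons (.br (nat_lit 4) (.cons (.rel (nat_lit 2164262160)) (.cons (.rel (nat_lit 2181055488)) (.cons (.rel (nat_lit 1090528257)) .nil)))) (.cons (.br (nat_lit 4) (.cons (.rel (nat_lit 1090797825)) (.cons (.rel (nat_lit 2164277568)) (.cons (.rel (nat_lit 1090535568)) .nil)))) .nil))) (.node .leaf (nat_lit 4585865958373682) (.br (nat_lit 1) (.cons (.br (nat_lit 6) (.cons (.rel (nat_lit 17196663825)) (.cons (.rel (nat_lit 17196777480)) .nil))) .nil)) .leaf)) (nat_lit 4585865958374008) (.br (nat_lit 0) (.cons (.br (nat_lit 1) (.cons (.rel (nat_lit 20971860)) (.cons (.rel (nat_lit 20993280)) (.cons (.rel (nat_lit 21497856)) .nil)))) (.cons (.br (nat_lit 1) (.cons (.rel (nat_lit 21497856)) (.cons (.rel (nat_lit 37749780)) (.cons (.rel (nat_lit 22037520)) .nil)))) .nil))) (.node (.node .leaf (nat_lit 4585865958374051) (.br (nat_lit 1) (.cons (.br (nat_lit 6) (.cons (.rel (nat_lit 34376778240)) (.cons (.rel (nat_lit 17196650502)) (.cons (.rel (nat_lit 17196777480)) .nil)))) (.cons (.br (nat_lit 6) (.cons (.rel (nat_lit 17196646548)) (.cons (.rel (nat_lit 17196652560)) (.cons (.rel (nat_lit 17196646548)) .nil)))) .nil))) .leaf) (nat_lit 4585865958374127) (.br (nat_lit 2) (.cons (.br (nat_lit 6) (.cons (.rel (nat_lit 17246978085)) .nil)) .nil)) .leaf)) (nat_lit 4585865958374183) (.br (nat_lit 2) (.cons (.br (nat_lit 6) (.cons (.rel (nat_lit 17314087440)) (.cons (.rel (nat_lit 17247043713)) (.cons (.rel (nat_lit 17247003648)) .nil)))) (.cons (.br (nat_lit 6) (.cons (.rel (nat_lit 34493957121)) (.cons (.rel (nat_lit 17248092672)) (.cons (.rel (nat_lit 17247014913)) .nil)))) (.cons (.br (nat_lit 6) (.cons (.rel (nat_lit 34493957121)) (.cons (.rel (nat_lit 17246980098)) (.cons (.br (nat_lit 1) (.cons (.rel (nat_lit 83892480)) (.cons (.rel (nat_lit 17196777480)) (.cons (.rel (nat_lit 83892480)) (.cons (.rel (nat_lit 151000068)) (.cons (.rel (nat_lit 34393358340)) (.cons (.rel (nat_lit 34393358340)) .nil))))))) .nil)))) .nil)))) (.node (.node (.node .leaf (nat_lit 4585865958374187) (.br (nat_lit 0) (.cons (.br (nat_lit 5) (.cons (.rel (nat_lit 8598339648)) (.cons (.rel (nat_lit 4299194496)) .nil))) (.cons (.br (nat_lit 5) (.cons (.rel (nat_lit 4303360512)) (.cons (.rel (nat_lit 4304404752)) .nil))) .nil))) .leaf) (nat_lit 4585865958374637) (.br (nat_lit 0) (.cons (.br (nat_lit 1) (.cons (.rel (nat_lit 20971860)) (.cons (.rel (nat_lit 21497856)) (.cons (.rel (nat_lit 21497856)) .nil)))) .nil)) (.node .leaf (nat_lit 4585865958374812) (.br (nat_lit 0) (.cons (.br (nat_lit 2) (.cons (.rel (nat_lit 71435520)) (.cons (.rel (nat_lit 72388608)) (.cons (.rel (nat_lit 75497568)) .nil)))) (.cons (.br (nat_lit 2) (.cons (.rel (nat_lit 71369025)) (.cons (.rel (nat_lit 71307540)) (.cons (.rel (nat_lit 138412176)) .nil)))) (.cons (.br (nat_lit 1) (.cons (.rel (nat_lit 25428288)) (.cons (.rel (nat_lit 42206208)) (.cons (.rel (nat_lit 25165842)) .nil)))) .nil)))) .leaf)) (nat_lit 4585865958374901) (.br (nat_lit 6) (.cons (.br (nat_lit 0) (.cons (.rel (nat_lit 17184063621)) (.cons (.rel (nat_lit 17184063621)) (.cons (.rel (nat_lit 17184080898)) .nil)))) .nil)) (.node (.node .leaf (nat_lit 4585865958374908) (.br (nat_lit 3) (.cons (.br (nat_lit 1) (.cons (.rel (nat_lit 553652496)) (.cons (.rel (nat_lit 285218817)) (.cons (.rel (nat_lit 303042816)) .nil)))) (.cons (.br (nat_lit 0) (.cons (.rel (nat_lit 545260608)) (.cons (.rel (nat_lit 545260608)) (.cons (.rel (nat_lit 272631936)) .nil)))) .nil))) .leaf) (nat_lit 4585865958389895) (.br (nat_lit 6) (.cons (.br (nat_lit 5) (.cons (.rel (nat_lit 42949689600)) (.cons (.rel (nat_lit 21475098756)) .nil))) .nil)) .leaf)))) (nat_lit 4585865958389942) (.br (nat_lit 4) (.cons (.br (nat_lit 6) (.cons (.rel (nat_lit 35433612288)) .nil)) .nil)) (.node (.node (.node (.node (.node .leaf (nat_lit 4585865958389946) (.br (nat_lit 0) (.cons (.br (nat_lit 5) (.cons (.rel (nat_lit 8594137344)) (.cons (.rel (nat_lit 4299179088)) (.cons (.rel (nat_lit 4299163680)) (.cons (.rel (nat_lit 4299162633)) .nil))))) .nil)) .leaf) (nat_lit 4585865958390042) (.br (nat_lit 0) (.cons (.br (nat_lit 6) (.cons (.rel (nat_lit 17185439745)) .nil)) .nil)) (.node .leaf (nat_lit 4585865958390560) (.br (nat_lit 0) (.cons (.br (nat_lit 2) (.cons (.rel (nat_lit 72388608)) .nil)) .nil)) .leaf)) (nat_lit 4585865958390691) (.br (nat_lit 3) (.cons (.br (nat_lit 2) (.cons (.rel (nat_lit 335544342)) (.cons (.rel (nat_lit 671089680)) (.cons (.rel (nat_lit 336872448)) .nil)))) .nil)) (.node (.node .leaf (nat_lit 4585865958391292) (.br (nat_lit 0) (.cons (.br (nat_lit 4) (.cons (.rel (nat_lit 2152727616)) (.cons (.rel (nat_lit 1078001670)) .nil))) .nil)) .leaf) (nat_lit 4585865958391296) (.br (nat_lit 2) (.cons (.br (nat_lit 0) (.cons (.rel (nat_lit 142877760)) (.cons (.rel (nat_lit 71307540)) .nil))) .nil)) .leaf)) (nat_lit 4585865958430855) (.br (nat_lit 5) (.cons (.br (nat_lit 0) (.cons (.rel (nat_lit 4299162633)) (.cons (.rel (nat_lit 4299162633)) (.cons (.rel (nat_lit 4299163680)) .nil)))) (.cons (.br (nat_lit 4) (.cons (.rel (nat_lit 5369778432)) (.cons (.rel (nat_lit 9663697920)) (.cons (.rel (nat_lit 5368709640)) (.cons (.rel (nat_lit 10737418500)) .nil))))) .nil))) (.node (.node (.node .leaf (nat_lit 4585865958430871) (.br (nat_lit 0) (.cons (.br (nat_lit 4) (.cons (.rel (nat_lit 2155876356)) (.cons (.rel (nat_lit 1077938244)) .nil))) .nil)) .leaf) (nat_lit 4585865958430882) (.br (nat_lit 0) (.cons (.br (nat_lit 4) (.cons (.rel (nat_lit 1077952641)) .nil)) .nil)) (.node .leaf (nat_lit 4585865958430995) (.br (nat_lit 0) (.cons (.br (nat_lit 2) (.cons (.rel (nat_lit 72353793)) .nil)) .nil)) .leaf)) (nat_lit 4585865958431480) (.br (nat_lit 0) (.cons (.br (nat_lit 4) (.cons (.rel (nat_lit 1079001600)) .nil)) .nil)) (.node (.node .leaf (nat_lit 4585865958431631) (.br (nat_lit 0) (.cons (.br (nat_lit 5) (.cons (.rel (nat_lit 4299161622)) (.cons (.rel (nat_lit 4300489728)) .nil))) (.cons (.br (nat_lit 2) (.cons (.rel (nat_lit 71307540)) (.cons (.rel (nat_lit 71307540)) .nil))) .nil))) .leaf) (nat_lit 4585866615136256) (.br (nat_lit 4) (.cons (.br (nat_lit 5) (.cons (.rel (nat_lit 5368972368)) .nil)) .nil)) .leaf))) (nat_lit 4585866616690700) (.br (nat_lit 0) (.cons (.br (nat_lit 2) (.cons (.rel (nat_lit 138543108)) .nil)) .nil)) (.node (.node (.node (.node .leaf (nat_lit 4585866616690839) (.br (nat_lit 2) (.cons (.br (nat_lit 3) (.cons (.rel (nat_lit 335546400)) .nil)) .nil)) .leaf) (nat_lit 4585866616846336) (.br (nat_lit 3) (.cons (.br (nat_lit 5) (.cons (.rel (nat_lit 4563403332)) (.cons (.rel (nat_lit 4563468816)) (.cons (.rel (nat_lit 4831838304)) .nil)))) (.cons (.br (nat_lit 4) (.cons (.rel (nat_lit 1610612868)) (.cons (.rel (nat_lit 1610618880)) .nil))) .nil))) (.node .leaf (nat_lit 4585866616846518) (.br (nat_lit 5) (.cons (.br (nat_lit 0) (.cons (.rel (nat_lit 8598324240)) (.cons (.rel (nat_lit 8598339648)) .nil))) .nil)) .leaf)) (nat_lit 4585866616847843) (.br (nat_lit 0) (.cons (.br (nat_lit 5) (.cons (.rel (nat_lit 8594137344)) .nil)) .nil)) (.node (.node .leaf (nat_lit 4585868056717567) (.br (nat_lit 0) (.cons (.br (nat_lit 1) (.cons (.rel (nat_lit 37749780)) .nil)) .nil)) .leaf) (nat_lit 4585868057127692) (.br (nat_lit 3) (.cons (.br (nat_lit 4) (.cons (.rel (nat_lit 1344275520)) .nil)) .nil)) .leaf)) (nat_lit 4585868058130432) (.br (nat_lit 0) (.cons (.br (nat_lit 3) (.cons (.rel (nat_lit 272631936)) (.cons (.rel (nat_lit 272892180)) (.cons (.rel (nat_lit 272631936)) .nil)))) .nil)) (.node (.node (.node .leaf (nat_lit 4585868058131192) (.br (nat_lit 0) (.cons (.br (nat_lit 1) (.cons (.rel (nat_lit 20971860)) .nil)) .nil)) .leaf) (nat_lit 4585868058440591) (.br (nat_lit 0) (.cons (.br (nat_lit 2) (.cons (.rel (nat_lit 71827524)) .nil)) .nil)) (.node .leaf (nat_lit 4585868059164958) (.br (nat_lit 0) (.cons (.br (nat_lit 1) (.cons (.rel (nat_lit 20971860)) .nil)) .nil)) .leaf)) (nat_lit 4585868059531264) (.br (nat_lit 0) (.cons (.br (nat_lit 5) (.cons (.rel (nat_lit 4303360512)) (.cons (.rel (nat_lit 4299194496)) (.cons (.rel (nat_lit 4299163680)) (.cons (.rel (nat_lit 8598324240)) .nil))))) (.cons (.br (nat_lit 5) (.cons (.rel (nat_lit 8598324240)) (.cons (.rel (nat_lit 4299232260)) (.cons (.rel (nat_lit 4299163680)) (.cons (.rel (nat_lit 4303360512)) .nil))))) .nil))) (.node (.node .leaf (nat_lit 4585868059531519) (.br (nat_lit 1) (.cons (.br (nat_lit 5) (.cons (.rel (nat_lit 4329570561)) (.cons (.rel (nat_lit 8606712129)) .nil))) .nil)) .leaf) (nat_lit 4585868059532071) (.br (nat_lit 1) (.cons (.br (nat_lit 2) (.cons (.rel (nat_lit 84443136)) .nil)) .nil)) .leaf)))))) (nat_lit 4585868059532696) (.br (nat_lit 0) (.cons (.br (nat_lit 2) (.cons (.rel (nat_lit 71435520)) .nil)) .nil)) (.node (.node (.node (.node (.node (.node (.node .leaf (nat_lit 4585868059720332) (.br (nat_lit 0) (.cons (.br (nat_lit 6) (.cons (.rel (nat_lit 34368147456)) .nil)) .nil)) .leaf) (nat_lit 4585868203406072) (.br (nat_lit 0) (.cons (.br (nat_lit 2) (.cons (.rel (nat_lit 71307540)) .nil)) .nil)) (.node .leaf (nat_lit 4585868203715471) (.br (nat_lit 2) (.cons (.br (nat_lit 4) (.cons (.rel (nat_lit 1140981762)) .nil)) .nil)) .leaf)) (nat_lit 4585868203715992) (.br (nat_lit 0) (.cons (.br (nat_lit 6) (.cons (.rel (nat_lit 17184069633)) .nil)) .nil)) (.node (.node .leaf (nat_lit 4585868204776856) (.br (nat_lit 0) (.cons (.br (nat_lit 2) (.cons (.rel (nat_lit 71435520)) .nil)) .nil)) .leaf) (nat_lit 4585868204943360) (.br (nat_lit 1) (.cons (.br (nat_lit 4) (.cons (.rel (nat_lit 2165374980)) .nil)) .nil)) (.node .leaf (nat_lit 4585868205240320) (.br (nat_lit 0) (.cons (.br (nat_lit 6) (.cons (.rel (nat_lit 17184327936)) (.cons (.rel (nat_lit 17184104448)) .nil))) (.cons (.br (nat_lit 2) (.cons (.rel (nat_lit 72353793)) (.cons (.rel (nat_lit 71369025)) .nil))) .nil))) .leaf))) (nat_lit 4585868205241231) (.br (nat_lit 0) (.cons (.br (nat_lit 4) (.cons (.rel (nat_lit 1078003728)) .nil)) .nil)) (.node (.node (.node .leaf (nat_lit 4585868205241752) (.br (nat_lit 0) (.cons (.br (nat_lit 4) (.cons (.rel (nat_lit 1077938244)) .nil)) .nil)) .leaf) (nat_lit 4585868205256704) (.br (nat_lit 0) (.cons (.br (nat_lit 4) (.cons (.rel (nat_lit 1078003728)) .nil)) .nil)) (.node .leaf (nat_lit 4585868205973686) (.br (nat_lit 0) (.cons (.br (nat_lit 1) (.cons (.rel (nat_lit 22052928)) .nil)) .nil)) .leaf)) (nat_lit 4585868206260224) (.br (nat_lit 0) (.cons (.br (nat_lit 5) (.cons (.rel (nat_lit 4299163680)) .nil)) .nil)) (.node (.node .leaf (nat_lit 4585868206331904) (.br (nat_lit 0) (.cons (.br (nat_lit 6) (.cons (.rel (nat_lit 17184130116)) (.cons (.rel (nat_lit 17184067620)) .nil))) (.cons (.br (nat_lit 6) (.cons (.rel (nat_lit 34368129108)) (.cons (.rel (nat_lit 17184211008)) .nil))) .nil))) .leaf) (nat_lit 4585868206332055) (.br (nat_lit 0) (.cons (.br (nat_lit 1) (.cons (.rel (nat_lit 42206208)) .nil)) .nil)) .leaf))) (nat_lit 4585868206332086) (.br (nat_lit 0) (.cons (.br (nat_lit 2) (.cons (.rel (nat_lit 72388608)) .nil)) .nil)) (.node (.node (.node (.node .leaf (nat_lit 4585868206332815) (.br (nat_lit 0) (.cons (.br (nat_lit 2) (.cons (.rel (nat_lit 72388608)) .nil)) .nil)) .leaf) (nat_lit 4585868206333336) (.br (nat_lit 0) (.cons (.br (nat_lit 2) (.cons (.rel (nat_lit 71827524)) .nil)) .nil)) (.node .leaf (nat_lit 4585868206487552) (.br (nat_lit 0) (.cons (.br (nat_lit 4) (.cons (.rel (nat_lit 1077938244)) .nil)) .nil)) .leaf)) (nat_lit 4585868206488463) (.br (nat_lit 0) (.cons (.br (nat_lit 1) (.cons (.rel (nat_lit 21004545)) (.cons (.rel (nat_lit 20971860)) .nil))) .nil)) (.node (.node .leaf (nat_lit 4585868206520320) (.br (nat_lit 0) (.cons (.br (nat_lit 3) (.cons (.rel (nat_lit 272631936)) (.cons (.rel (nat_lit 272631936)) .nil))) (.cons (.br (nat_lit 3) (.cons (.rel (nat_lit 272631936)) (.cons (.rel (nat_lit 272631936)) .nil))) .nil))) .leaf) (nat_lit 4585869210560647) (.br (nat_lit 0) (.cons (.br (nat_lit 3) (.cons (.rel (nat_lit 272631936)) .nil)) .nil)) .leaf)) (nat_lit 4585869213210759) (.br (nat_lit 0) (.cons (.br (nat_lit 3) (.cons (.rel (nat_lit 272631936)) .nil)) .nil)) (.node (.node (.node .leaf (nat_lit 4585869257520609) (.br (nat_lit 0) (.cons (.br (nat_lit 2) (.cons (.rel (nat_lit 72353793)) .nil)) .nil)) .leaf) (nat_lit 4585869258027008) (.br (nat_lit 5) (.cons (.br (nat_lit 0) (.cons (.rel (nat_lit 4299161622)) (.cons (.rel (nat_lit 4299194496)) .nil))) .nil)) (.node .leaf (nat_lit 4585869259103469) (.br (nat_lit 1) (.cons (.br (nat_lit 5) (.cons (.rel (nat_lit 8606712129)) .nil)) .nil)) .leaf)) (nat_lit 4585870892044288) (.br (nat_lit 0) (.cons (.br (nat_lit 2) (.cons (.rel (nat_lit 71827524)) (.cons (.rel (nat_lit 75505665)) .nil))) .nil)) (.node (.node .leaf (nat_lit 4585870892476598) (.br (nat_lit 0) (.cons (.br (nat_lit 3) (.cons (.rel (nat_lit 272892180)) .nil)) .nil)) .leaf) (nat_lit 4585870892476601) (.br (nat_lit 0) (.cons (.br (nat_lit 3) (.cons (.rel (nat_lit 272631936)) .nil)) .nil)) .leaf)))) (nat_lit 4585870892477068) (.br (nat_lit 0) (.cons (.br (nat_lit 3) (.cons (.rel (nat_lit 277090305)) .nil)) .nil)) (.node (.node (.node (.node (.node .leaf (nat_lit 4585870892477848) (.br (nat_lit 0) (.cons (.br (nat_lit 4) (.cons (.rel (nat_lit 2155876356)) .nil)) .nil)) .leaf) (nat_lit 4585870893297846) (.br (nat_lit 0) (.cons (.br (nat_lit 2) (.cons (.rel (nat_lit 72353793)) .nil)) .nil)) (.node .leaf (nat_lit 4585870893298475) (.br (nat_lit 0) (.cons (.br (nat_lit 2) (.cons (.rel (nat_lit 72351780)) .nil)) .nil)) .leaf)) (nat_lit 4585870893479936) (.br (nat_lit 0) (.cons (.br (nat_lit 1) (.cons (.rel (nat_lit 20971860)) (.cons (.rel (nat_lit 20993280)) .nil))) .nil)) (.node (.node .leaf (nat_lit 4585870893492224) (.br (nat_lit 1) (.cons (.br (nat_lit 4) (.cons (.rel (nat_lit 2181170193)) .nil)) .nil)) .leaf) (nat_lit 4585870893789184) (.br (nat_lit 1) (.cons (.br (nat_lit 6) (.cons (.rel (nat_lit 17213948160)) (.cons (.rel (nat_lit 17196646548)) (.cons (.rel (nat_lit 17196777480)) (.cons (.rel (nat_lit 17196777480)) (.cons (.rel (nat_lit 17196777480)) .nil)))))) .nil)) .leaf)) (nat_lit 4585870893790084) (.br (nat_lit 0) (.cons (.br (nat_lit 4) (.cons (.rel (nat_lit 1077944328)) .nil)) .nil)) (.node (.node (.node .leaf (nat_lit 4585870894880950) (.br (nat_lit 1) (.cons (.br (nat_lit 3) (.cons (.rel (nat_lit 286261764)) .nil)) .nil)) .leaf) (nat_lit 4585870894881054) (.br (nat_lit 0) (.cons (.br (nat_lit 1) (.cons (.rel (nat_lit 22024197)) (.cons (.rel (nat_lit 20971860)) .nil))) .nil)) (.node .leaf (nat_lit 4585870894881579) (.br (nat_lit 0) (.cons (.br (nat_lit 2) (.cons (.rel (nat_lit 71435520)) (.cons (.rel (nat_lit 72353793)) .nil))) .nil)) .leaf)) (nat_lit 4585870894882193) (.br (nat_lit 0) (.cons (.br (nat_lit 2) (.cons (.rel (nat_lit 72353793)) (.cons (.rel (nat_lit 71369025)) .nil))) .nil)) (.node (.node .leaf (nat_lit 4585870894882200) (.br (nat_lit 0) (.cons (.br (nat_lit 4) (.cons (.rel (nat_lit 1077937233)) .nil)) .nil)) .leaf) (nat_lit 4585870895036598) (.br (nat_lit 0) (.cons (.br (nat_lit 3) (.cons (.rel (nat_lit 272631936)) .nil)) .nil)) .leaf))) (nat_lit 4585870895037921) (.br (nat_lit 1) (.cons (.br (nat_lit 2) (.cons (.rel (nat_lit 151257360)) .nil)) .nil)) (.node (.node (.node (.node .leaf (nat_lit 4587068546347008) (.br (nat_lit 0) (.cons (.br (nat_lit 3) (.cons (.rel (nat_lit 272631936)) (.cons (.rel (nat_lit 272631936)) .nil))) .nil)) .leaf) (nat_lit 4587068546396160) (.br (nat_lit 1) (.cons (.br (nat_lit 3) (.cons (.rel (nat_lit 285229080)) .nil)) .nil)) (.node .leaf (nat_lit 4587068546396285) (.br (nat_lit 2) (.cons (.br (nat_lit 3) (.cons (.rel (nat_lit 335546400)) .nil)) .nil)) .leaf)) (nat_lit 4587068546450844) (.br (nat_lit 0) (.cons (.br (nat_lit 2) (.cons (.rel (nat_lit 72417408)) .nil)) .nil)) (.node (.node .leaf (nat_lit 4587068546605207) (.br (nat_lit 2) (.cons (.br (nat_lit 3) (.cons (.rel (nat_lit 335545353)) .nil)) .nil)) .leaf) (nat_lit 4587068546605358) (.br (nat_lit 1) (.cons (.br (nat_lit 3) (.cons (.rel (nat_lit 285230082)) .nil)) .nil)) .leaf)) (nat_lit 4587068547444918) (.br (nat_lit 0) (.cons (.br (nat_lit 4) (.cons (.rel (nat_lit 1077968916)) .nil)) .nil)) (.node (.node (.node .leaf (nat_lit 4587068547635200) (.br (nat_lit 5) (.cons (.br (nat_lit 0) (.cons (.rel (nat_lit 4299163680)) (.cons (.rel (nat_lit 4303360512)) .nil))) .nil)) .leaf) (nat_lit 4587068547635212) (.br (nat_lit 1) (.cons (.br (nat_lit 4) (.cons (.rel (nat_lit 1090585608)) .nil)) .nil)) (.node .leaf (nat_lit 4587068547891200) (.br (nat_lit 4) (.cons (.br (nat_lit 6) (.cons (.rel (nat_lit 18253897728)) (.cons (.rel (nat_lit 18254004288)) .nil))) (.cons (.br (nat_lit 6) (.cons (.rel (nat_lit 18253616640)) (.cons (.rel (nat_lit 18253897728)) .nil))) .nil))) .leaf)) (nat_lit 4587068547891450) (.br (nat_lit 0) (.cons (.br (nat_lit 3) (.cons (.rel (nat_lit 272647200)) .nil)) .nil)) (.node (.node .leaf (nat_lit 4587068548956160) (.br (nat_lit 0) (.cons (.br (nat_lit 1) (.cons (.rel (nat_lit 42206208)) .nil)) .nil)) .leaf) (nat_lit 4587068549028095) (.br (nat_lit 3) (.cons (.br (nat_lit 5) (.cons (.rel (nat_lit 4831846401)) .nil)) .nil)) .leaf))))) (nat_lit 4587068549028126) (.br (nat_lit 3) (.cons (.br (nat_lit 5) (.cons (.rel (nat_lit 4563669012)) .nil)) .nil)) (.node (.node (.node (.node (.node (.node .leaf (nat_lit 4587068549028142) (.br (nat_lit 1) (.cons (.br (nat_lit 5) (.cons (.rel (nat_lit 4311810177)) .nil)) .nil)) .leaf) (nat_lit 4587068549183670) (.br (nat_lit 1) (.cons (.br (nat_lit 3) (.cons (.rel (nat_lit 285218817)) .nil)) .nil)) (.node .leaf (nat_lit 4587068549184993) (.br (nat_lit 0) (.cons (.br (nat_lit 1) (.cons (.rel (nat_lit 20993280)) .nil)) .nil)) .leaf)) (nat_lit 4587085457536533) (.br (nat_lit 0) (.cons (.br (nat_lit 1) (.cons (.rel (nat_lit 20971860)) .nil)) .nil)) (.node (.node .leaf (nat_lit 4587085457646823) (.br (nat_lit 0) (.cons (.br (nat_lit 5) (.cons (.rel (nat_lit 4299424068)) (.cons (.rel (nat_lit 4299162633)) .nil))) (.cons (.br (nat_lit 5) (.cons (.rel (nat_lit 8598339648)) (.cons (.rel (nat_lit 4299161622)) .nil))) .nil))) .leaf) (nat_lit 4587085458040210) (.br (nat_lit 3) (.cons (.br (nat_lit 5) (.cons (.rel (nat_lit 4831846401)) (.cons (.rel (nat_lit 4563681288)) .nil))) (.cons (.br (nat_lit 4) (.cons (.rel (nat_lit 1344409632)) (.cons (.rel (nat_lit 1342440480)) .nil))) .nil))) (.node .leaf (nat_lit 4587085458057222) (.br (nat_lit 3) (.cons (.br (nat_lit 4) (.cons (.rel (nat_lit 2415928320)) .nil)) .nil)) .leaf))) (nat_lit 4587085458058502) (.br (nat_lit 1) (.cons (.br (nat_lit 2) (.cons (.rel (nat_lit 151257360)) .nil)) .nil)) (.node (.node (.node .leaf (nat_lit 4587085458159921) (.br (nat_lit 3) (.cons (.br (nat_lit 5) (.cons (.rel (nat_lit 4563403332)) .nil)) .nil)) .leaf) (nat_lit 4587085458803363) (.br (nat_lit 3) (.cons (.br (nat_lit 5) (.cons (.rel (nat_lit 4563468816)) .nil)) .nil)) (.node .leaf (nat_lit 4587085460461580) (.br (nat_lit 1) (.cons (.br (nat_lit 3) (.cons (.rel (nat_lit 285279300)) (.cons (.rel (nat_lit 570445824)) .nil))) .nil)) .leaf)) (nat_lit 4587085460462243) (.br (nat_lit 1) (.cons (.br (nat_lit 6) (.cons (.rel (nat_lit 17196777480)) .nil)) .nil)) (.node (.node .leaf (nat_lit 4587085460462993) (.br (nat_lit 0) (.cons (.br (nat_lit 2) (.cons (.rel (nat_lit 72351780)) .nil)) .nil)) .leaf) (nat_lit 4587085460463005) (.br (nat_lit 0) (.cons (.br (nat_lit 1) (.cons (.rel (nat_lit 20971860)) .nil)) .nil)) .leaf))) (nat_lit 4587085460618502) (.br (nat_lit 0) (.cons (.br (nat_lit 5) (.cons (.rel (nat_lit 4299231249)) .nil)) .nil)) (.node (.node (.node (.node .leaf (nat_lit 4587085460618723) (.br (nat_lit 0) (.cons (.br (nat_lit 2) (.cons (.rel (nat_lit 138412176)) .nil)) .nil)) .leaf) (nat_lit 4587085725971064) (.br (nat_lit 3) (.cons (.br (nat_lit 6) (.cons (.rel (nat_lit 17448599553)) .nil)) .nil)) (.node .leaf (nat_lit 4587085725971357) (.br (nat_lit 3) (.cons (.br (nat_lit 4) (.cons (.rel (nat_lit 2684420352)) .nil)) .nil)) .leaf)) (nat_lit 4587085726474542) (.br (nat_lit 2) (.cons (.br (nat_lit 4) (.cons (.rel (nat_lit 2215675968)) (.cons (.rel (nat_lit 2215657488)) .nil))) .nil)) (.node (.node .leaf (nat_lit 4587085726475652) (.br (nat_lit 0) (.cons (.br (nat_lit 4) (.cons (.rel (nat_lit 1083244800)) .nil)) .nil)) .leaf) (nat_lit 4587085726475666) (.br (nat_lit 4) (.cons (.br (nat_lit 5) (.cons (.br (nat_lit 0) (.cons (.rel (nat_lit 4304404752)) (.cons (.rel (nat_lit 1077938244)) (.cons (.rel (nat_lit 4299161622)) .nil)))) .nil)) .nil)) .leaf)) (nat_lit 4587085727238819) (.br (nat_lit 0) (.cons (.br (nat_lit 4) (.cons (.rel (nat_lit 1077937233)) (.cons (.rel (nat_lit 2155876356)) .nil))) .nil)) (.node (.node (.node .leaf (nat_lit 4587085727300515) (.br (nat_lit 0) (.cons (.br (nat_lit 3) (.cons (.rel (nat_lit 272631936)) (.cons (.rel (nat_lit 272662608)) .nil))) .nil)) .leaf) (nat_lit 4587085727823104) (.br (nat_lit 0) (.cons (.br (nat_lit 3) (.cons (.rel (nat_lit 272631936)) .nil)) .nil)) (.node .leaf (nat_lit 4587085728891691) (.br (nat_lit 3) (.cons (.br (nat_lit 4) (.cons (.rel (nat_lit 1610612868)) .nil)) .nil)) .leaf)) (nat_lit 4587085728897036) (.br (nat_lit 1) (.cons (.br (nat_lit 5) (.cons (.rel (nat_lit 8607236112)) .nil)) .nil)) (.node (.node .leaf (nat_lit 4587085728897935) (.br (nat_lit 5) (.cons (.br (nat_lit 6) (.cons (.rel (nat_lit 38654706756)) .nil)) .nil)) .leaf) (nat_lit 4587085728898449) (.br (nat_lit 1) (.cons (.br (nat_lit 2) (.cons (.rel (nat_lit 84443136)) .nil)) .nil)) .leaf)))) (nat_lit 4587085729053354) (.br (nat_lit 0) (.cons (.br (nat_lit 1) (.cons (.rel (nat_lit 22024197)) (.cons (.rel (nat_lit 20971860)) .nil))) (.cons (.br (nat_lit 1) (.cons (.rel (nat_lit 37748769)) (.cons (.rel (nat_lit 20993280)) .nil))) .nil))) (.node (.node (.node (.node (.node .leaf (nat_lit 4587086386003207) (.br (nat_lit 1) (.cons (.br (nat_lit 2) (.cons (.rel (nat_lit 84443136)) .nil)) .nil)) .leaf) (nat_lit 4587086387301109) (.br (nat_lit 4) (.cons (.br (nat_lit 1) (.cons (.rel (nat_lit 1090528257)) (.cons (.rel (nat_lit 1090520160)) .nil))) .nil)) (.node .leaf (nat_lit 4587086387402764) (.br (nat_lit 0) (.cons (.br (nat_lit 2) (.cons (.rel (nat_lit 71319816)) .nil)) .nil)) .leaf)) (nat_lit 4587086387402903) (.br (nat_lit 1) (.cons (.br (nat_lit 3) (.cons (.rel (nat_lit 554172480)) .nil)) .nil)) (.node (.node .leaf (nat_lit 4587086387559686) (.br (nat_lit 2) (.cons (.br (nat_lit 3) (.cons (.rel (nat_lit 671105088)) .nil)) .nil)) .leaf) (nat_lit 4587086387609084) (.br (nat_lit 0) (.cons (.br (nat_lit 3) (.cons (.rel (nat_lit 272631936)) .nil)) .nil)) .leaf)) (nat_lit 4587120085798912) (.br (nat_lit 0) (.cons (.br (nat_lit 4) (.cons (.rel (nat_lit 1077938244)) .nil)) .nil)) (.node (.node (.node .leaf (nat_lit 4587120085820174) (.br (nat_lit 2) (.cons (.br (nat_lit 3) (.cons (.rel (nat_lit 402923520)) .nil)) .nil)) .leaf) (nat_lit 4587120086056960) (.br (nat_lit 4) (.cons (.br (nat_lit 2) (.cons (.rel (nat_lit 1140867105)) (.cons (.rel (nat_lit 1141113096)) .nil))) .nil)) (.node .leaf (nat_lit 4587120086057742) (.br (nat_lit 1) (.cons (.br (nat_lit 5) (.cons (.rel (nat_lit 4311745560)) (.cons (.rel (nat_lit 4312039680)) .nil))) .nil)) .leaf)) (nat_lit 4587120086058462) (.br (nat_lit 3) (.cons (.br (nat_lit 5) (.cons (.rel (nat_lit 4563403332)) .nil)) .nil)) (.node (.node .leaf (nat_lit 4587120087498752) (.br (nat_lit 4) (.cons (.br (nat_lit 0) (.cons (.rel (nat_lit 1079247873)) (.cons (.rel (nat_lit 1079001600)) (.cons (.rel (nat_lit 1077938244)) (.cons (.rel (nat_lit 2155876356)) .nil))))) (.cons (.br (nat_lit 3) (.cons (.rel (nat_lit 1342455888)) (.cons (.rel (nat_lit 2415928320)) (.cons (.rel (nat_lit 2684420352)) (.cons (.rel (nat_lit 1610618880)) .nil))))) .nil))) .leaf) (nat_lit 4587120087499534) (.br (nat_lit 4) (.cons (.br (nat_lit 1) (.cons (.rel (nat_lit 1091846208)) (.cons (.rel (nat_lit 1090666500)) .nil))) .nil)) .leaf))) (nat_lit 4587120087500313) (.br (nat_lit 0) (.cons (.br (nat_lit 1) (.cons (.rel (nat_lit 21497856)) (.cons (.rel (nat_lit 21240321)) (.cons (.rel (nat_lit 21004545)) .nil)))) .nil)) (.node (.node (.node (.node .leaf (nat_lit 4587120088279290) (.br (nat_lit 2) (.cons (.br (nat_lit 5) (.cons (.rel (nat_lit 4362108960)) .nil)) .nil)) .leaf) (nat_lit 4587120088332288) (.br (nat_lit 0) (.cons (.br (nat_lit 1) (.cons (.rel (nat_lit 20971860)) (.cons (.rel (nat_lit 21004545)) .nil))) (.cons (.br (nat_lit 1) (.cons (.rel (nat_lit 21497856)) (.cons (.rel (nat_lit 21004545)) .nil))) .nil))) (.node .leaf (nat_lit 4587120088333070) (.br (nat_lit 1) (.cons (.br (nat_lit 6) (.cons (.rel (nat_lit 17196664836)) (.cons (.rel (nat_lit 17196777480)) (.cons (.rel (nat_lit 17196646548)) .nil)))) (.cons (.br (nat_lit 4) (.cons (.rel (nat_lit 1090520160)) (.cons (.rel (nat_lit 1090519113)) .nil))) .nil))) .leaf)) (nat_lit 4587120088333849) (.br (nat_lit 4) (.cons (.br (nat_lit 1) (.cons (.rel (nat_lit 1090797825)) (.cons (.rel (nat_lit 1090520160)) .nil))) .nil)) (.node (.node .leaf (nat_lit 4587120088563712) (.br (nat_lit 2) (.cons (.br (nat_lit 4) (.cons (.rel (nat_lit 1140851841)) .nil)) .nil)) .leaf) (nat_lit 4587120088629248) (.br (nat_lit 1) (.cons (.br (nat_lit 4) (.cons (.rel (nat_lit 1090520160)) (.cons (.rel (nat_lit 1090585608)) .nil))) (.cons (.br (nat_lit 0) (.cons (.rel (nat_lit 42206208)) (.cons (.rel (nat_lit 22282500)) (.cons (.rel (nat_lit 22282500)) .nil)))) .nil))) .leaf)) (nat_lit 4587120088635404) (.br (nat_lit 1) (.cons (.br (nat_lit 2) (.cons (.rel (nat_lit 84952128)) .nil)) .nil)) (.node (.node (.node .leaf (nat_lit 4587120088635574) (.br (nat_lit 1) (.cons (.br (nat_lit 3) (.cons (.rel (nat_lit 285216804)) .nil)) .nil)) .leaf) (nat_lit 4587120088635642) (.br (nat_lit 1) (.cons (.br (nat_lit 5) (.cons (.rel (nat_lit 4311760968)) .nil)) .nil)) (.node .leaf (nat_lit 4587120088791040) (.br (nat_lit 6) (.cons (.br (nat_lit 4) (.cons (.rel (nat_lit 18253627905)) (.cons (.rel (nat_lit 35433496584)) .nil))) .nil)) .leaf)) (nat_lit 4587120088791822) (.br (nat_lit 1) (.cons (.br (nat_lit 4) (.cons (.rel (nat_lit 1090528257)) .nil)) .nil)) (.node (.node .leaf (nat_lit 4587120088823808) (.br (nat_lit 2) (.cons (.br (nat_lit 5) (.cons (.rel (nat_lit 4362084372)) .nil)) .nil)) .leaf) (nat_lit 4587120717781242) (.br (nat_lit 1) (.cons (.br (nat_lit 5) (.cons (.rel (nat_lit 4330618944)) .nil)) .nil)) .leaf))))))))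

/-- refutations 20 -/
def e20 : EX := (.node (.node .leaf (nat_lit 4587371443810304) (.br (nat_lit 0) (.cons (.br (nat_lit 1) (.cons (.rel (nat_lit 20993280)) .nil)) .nil)) .leaf) (nat_lit 4587371444527386) (.br (nat_lit 0) (.cons (.br (nat_lit 3) (.cons (.rel (nat_lit 272892180)) .nil)) .nil)) .leaf)

/-- refutations 21 -/
def e21 : EX := (.node (.node (.node (.node (.node .leaf (nat_lit 4504691074693920) (.br (nat_lit 0) (.cons (.br (nat_lit 1) (.cons (.rel (nat_lit 20993280)) .nil)) .nil)) .leaf) (nat_lit 4504691074694051) (.br (nat_lit 0) (.cons (.br (nat_lit 1) (.cons (.rel (nat_lit 41948673)) .nil)) .nil)) (.node .leaf (nat_lit 4504691075924003) (.br (nat_lit 2) (.cons (.br (nat_lit 3) (.cons (.rel (nat_lit 335545353)) .nil)) .nil)) .leaf)) (nat_lit 4504691075924150) (.br (nat_lit 0) (.cons (.br (nat_lit 4) (.cons (.rel (nat_lit 1077938244)) .nil)) .nil)) (.node (.node .leaf (nat_lit 4504691075973302) (.br (nat_lit 2) (.cons (.br (nat_lit 4) (.cons (.rel (nat_lit 1140918336))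 .nil)) .nil)) .leaf) (nat_lit 4504691076282543) (.br (nat_lit 0) (.cons (.br (nat_lit 4) (.cons (.rel (nat_lit 1077944328)) .nil)) .nil)) (.node .leaf (nat_lit 4504691076495646) (.br (nat_lit 0) (.cons (.br (nat_lit 5) (.cons (.rel (nat_lit 4299163680)) .nil)) .nil)) .leaf))) (nat_lit 4504697052807350) (.br (nat_lit 2) (.cons (.br (nat_lit 4) (.cons (.rel (nat_lit 1140949008)) .nil)) .nil)) (.node (.node (.node .leaf (nat_lit 4510094803646650) (.br (nat_lit 1) (.cons (.br (nat_lit 4) (.cons (.rel (nat_lit 1090519113)) .nil)) .nil)) .leaf) (nat_lit 4510128502476188) (.br (nat_lit 3) (.cons (.br (nat_lit 4) (.cons (.rel (nat_lit 1344275520)) .nil)) .nil)) (.node .leaf (nat_lit 4510128503812271) (.br (nat_lit 0) (.cons (.br (nat_lit 2) (.cons (.rel (nat_lit 75505665)) .nil)) .nil)) .leaf)) (nat_lit 4510128504879915) (.br (nat_lit 0) (.cons (.br (nat_lit 1) (.cons (.rel (nat_lit 20971860)) .nil)) .nil)) (.node (.node .leaf (nat_lit 4515462851856566) (.br (nat_lit 4) (.cons (.br (nat_lit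 5) (.cons (.rel (nat_lit 10737418500)) .nil)) .nil)) .leaf) (nat_lit 4515462851857195) (.br (nat_lit 1) (.cons (.br (nat_lit 5) (.cons (.rel (nat_lit 8623490049)) .nil)) .nil)) .leaf))) (nat_lit 4515462853186343) (.br (nat_lit 0) (.cons (.br (nat_lit 1) (.cons (.rel (nat_lit 21004545)) .nil)) .nil)) (.node (.node (.node (.node .leaf (nat_lit 4515462853912701) (.br (nat_lit 0) (.cons (.br (nat_lit 1) (.cons (.rel (nat_lit 20993280)) .nil)) .nil)) .leaf) (nat_lit 4515462853951739) (.br (nat_lit 0) (.cons (.br (nat_lit 1) (.cons (.rel (nat_lit 21004545)) .nil)) .nil)) (.node .leaf (nat_lit 4515462854260898) (.br (nat_lit 0) (.cons (.br (nat_lit 1) (.cons (.rel (nat_lit 22093824)) .nil)) .nil)) .leaf)) (nat_lit 4515462854261492) (.br (nat_lit 0) (.cons (.br (nat_lit 1) (.cons (.rel (nat_lit 20971860)) .nil)) .nil)) (.node (.node .leaf (nat_lit 4515462854261547) (.br (nat_lit 0) (.cons (.br (nat_lit 4) (.cons (.rel (nat_lit 1077944328)) (.cons (.rel (nat_lit 2152218624)) .nil))) .nil))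 .leaf) (nat_lit 4515462854262248) (.br (nat_lit 1) (.cons (.br (nat_lit 2) (.cons (.rel (nat_lit 83892480)) .nil)) .nil)) (.node .leaf (nat_lit 4515462854416570) (.br (nat_lit 0) (.cons (.br (nat_lit 6) (.cons (.rel (nat_lit 17184063621)) .nil)) .nil)) .leaf))) (nat_lit 4515462854417144) (.br (nat_lit 0) (.cons (.br (nat_lit 1) (.cons (.rel (nat_lit 42206208)) .nil)) .nil)) (.node (.node (.node .leaf (nat_lit 4515463634401291) (.br (nat_lit 0) (.cons (.br (nat_lit 3) (.cons (.rel (nat_lit 272695362)) .nil)) .nil)) .leaf) (nat_lit 4515466123413755) (.br (nat_lit 0) (.cons (.br (nat_lit 2) (.cons (.rel (nat_lit 138543108)) .nil)) .nil)) (.node .leaf (nat_lit 4515466125818031) (.br (nat_lit 0) (.cons (.br (nat_lit 1) (.cons (.rel (nat_lit 21037344)) .nil)) .nil)) .leaf)) (nat_lit 4515497872505014) (.br (nat_lit 1) (.cons (.br (nat_lit 4) (.cons (.rel (nat_lit 1090520160)) .nil)) .nil)) (.node (.node .leaf (nat_lit 4866719791907472) (.br (nat_lit 0) (.cons (.br (nat_lit 3) (.cons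 (.rel (nat_lit 272631936)) .nil)) .nil)) .leaf) (nat_lit 4866719792266776) (.br (nat_lit 0) (.cons (.br (nat_lit 2) (.cons (.rel (nat_lit 75763968)) .nil)) .nil)) .leaf))))

/-- refutations 22 -/
def e22 : EX := (.node (.node (.node (.node (.node (.node .leaf (nat_lit 5014254583921576) (.br (nat_lit 1) (.cons (.br (nat_lit 2) (.cons (.rel (nat_lit 83903745)) .nil)) .nil)) .leaf) (nat_lit 5014288674650137) (.br (nat_lit 0) (.cons (.br (nat_lit 6) (.cons (.rel (nat_lit 17184079896)) (.cons (.rel (nat_lit 34368147456)) .nil))) (.cons (.br (nat_lit 2) (.cons (.rel (nat_lit 75763968)) (.cons (.rel (nat_lit 71307540)) .nil))) .nil))) .leaf) (nat_lit 5014288677197849) (.br (nat_lit 0) (.cons (.br (nat_lit 2) (.cons (.rel (nat_lit 72353793)) .nil)) .nil)) (.node (.node .leaf (nat_lit 5014288943085593) (.br (nat_lit 4) (.cons (.br (nat_lit 0) (.cons (.rel (nat_lit 1082425344)) (.cons (.rel (nat_lit 1077968916)) .nil))) .nil)) .leaf) (nat_lit 5014288943660408) (.br (nat_lit 3) (.cons (.br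 (nat_lit 4) (.cons (.rel (nat_lit 2415928320)) .nil)) .nil)) .leaf)) (nat_lit 5014288944573352) (.br (nat_lit 3) (.cons (.br (nat_lit 4) (.cons (.rel (nat_lit 2684420352)) .nil)) .nil)) (.node (.node (.node .leaf (nat_lit 5014288945633305) (.br (nat_lit 4) (.cons (.br (nat_lit 1) (.cons (.br (nat_lit 2) (.cons (.rel (nat_lit 83892480)) (.cons (.rel (nat_lit 1140883524)) (.cons (.rel (nat_lit 1174405377)) .nil)))) (.cons (.rel (nat_lit 2164262160)) .nil))) .nil)) .leaf) (nat_lit 5014289601591321) (.br (nat_lit 4) (.cons (.br (nat_lit 6) (.cons (.rel (nat_lit 35433484308)) .nil)) .nil)) .leaf) (nat_lit 5014289601592678) (.br (nat_lit 0) (.cons (.br (nat_lit 2) (.cons (.rel (nat_lit 75763968)) .nil)) .nil)) (.node (.node .leaf (nat_lit 5014289602101273) (.br (nat_lit 3) (.cons (.br (nat_lit 5) (.cons (.rel (nat_lit 4563403332)) .nil)) .nil)) .leaf) (nat_lit 5014289603426329) (.br (nat_lit 0) (.cons (.br (nat_lit 1) (.cons (.rel (nat_lit 21497856)) (.cons (.rel (nat_lit 22282500))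 .nil))) .nil)) .leaf))) (nat_lit 5014289604139033) (.br (nat_lit 5) (.cons (.br (nat_lit 3) (.cons (.rel (nat_lit 8858374146)) (.cons (.rel (nat_lit 4831838304)) (.cons (.rel (nat_lit 4563681288)) .nil)))) .nil)) (.node (.node (.node (.node .leaf (nat_lit 5014289604365045) (.br (nat_lit 1) (.cons (.br (nat_lit 3) (.cons (.rel (nat_lit 285344784)) .nil)) .nil)) .leaf) (nat_lit 5014864200842598) (.br (nat_lit 1) (.cons (.br (nat_lit 3) (.cons (.rel (nat_lit 285279300)) .nil)) .nil)) .leaf) (nat_lit 5014864201560720) (.br (nat_lit 2) (.cons (.br (nat_lit 4) (.cons (.rel (nat_lit 1140868116)) .nil)) .nil)) (.node (.node .leaf (nat_lit 5014864201561446) (.br (nat_lit 0) (.cons (.br (nat_lit 3) (.cons (.rel (nat_lit 274792704)) .nil)) .nil)) .leaf) (nat_lit 5014864202815513) (.br (nat_lit 1) (.cons (.br (nat_lit 4) (.cons (.rel (nat_lit 1090584597)) (.cons (.rel (nat_lit 1090539522)) .nil))) (.cons (.br (nat_lit 3) (.cons (.rel (nat_lit 553652496)) (.cons (.rel (nat_lit 553664772))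 (.cons (.rel (nat_lit 285218817)) .nil)))) .nil))) .leaf)) (nat_lit 5014864203143843) (.br (nat_lit 5) (.cons (.br (nat_lit 1) (.cons (.rel (nat_lit 8623490049)) (.cons (.rel (nat_lit 4311744549)) .nil))) .nil)) (.node (.node (.node .leaf (nat_lit 5014864468640426) (.br (nat_lit 3) (.cons (.br (nat_lit 4) (.cons (.rel (nat_lit 1610618880)) .nil)) .nil)) .leaf) (nat_lit 5014864468742951) (.br (nat_lit 1) (.cons (.br (nat_lit 4) (.cons (.rel (nat_lit 1090539522)) .nil)) .nil)) .leaf) (nat_lit 5014864469226372) (.br (nat_lit 4) (.cons (.br (nat_lit 5) (.cons (.rel (nat_lit 5368972368)) .nil)) .nil)) (.node (.node .leaf (nat_lit 5014864469276697) (.br (nat_lit 4) (.cons (.br (nat_lit 1) (.cons (.rel (nat_lit 1090553856)) (.cons (.rel (nat_lit 1090539522)) (.cons (.rel (nat_lit 1090519113)) (.cons (.rel (nat_lit 1090588740)) (.cons (.rel (nat_lit 1090539522)) .nil)))))) .nil)) .leaf) (nat_lit 5014864469278054) (.br (nat_lit 1) (.cons (.br (nat_lit 3) (.cons (.rel (nat_lit 553652496))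 (.cons (.rel (nat_lit 285218817)) .nil))) .nil)) .leaf)))) (nat_lit 5014864469996902) (.br (nat_lit 1) (.cons (.br (nat_lit 5) (.cons (.rel (nat_lit 4311748692)) .nil)) .nil)) (.node (.node (.node (.node (.node .leaf (nat_lit 5014864470190105) (.br (nat_lit 0) (.cons (.br (nat_lit 5) (.cons (.rel (nat_lit 4299165765)) .nil)) .nil)) .leaf) (nat_lit 5014864470191016) (.br (nat_lit 1) (.cons (.br (nat_lit 6) (.cons (.rel (nat_lit 17196777480)) (.cons (.rel (nat_lit 17196777480)) (.cons (.rel (nat_lit 17213948160)) (.cons (.rel (nat_lit 34393313313)) (.cons (.rel (nat_lit 17196652560)) (.cons (.rel (nat_lit 17196777480)) .nil))))))) .nil)) .leaf) (nat_lit 5014864471250969) (.br (nat_lit 1) (.cons (.br (nat_lit 4) (.cons (.rel (nat_lit 2181055488)) (.cons (.rel (nat_lit 1090553856)) .nil))) (.cons (.br (nat_lit 4) (.cons (.rel (nat_lit 1090553856)) (.cons (.rel (nat_lit 1090539522)) .nil))) .nil))) (.node (.node .leaf (nat_lit 5014864471251755) (.br (nat_lit 1) (.cons (.br (nat_lit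 5) (.cons (.rel (nat_lit 4312859136)) .nil)) .nil)) .leaf) (nat_lit 5014864471251880) (.br (nat_lit 3) (.cons (.br (nat_lit 1) (.cons (.rel (nat_lit 285253632)) (.cons (.rel (nat_lit 285218817)) .nil))) .nil)) .leaf)) (nat_lit 5014864471477785) (.br (nat_lit 1) (.cons (.br (nat_lit 5) (.cons (.rel (nat_lit 4328783904)) (.cons (.rel (nat_lit 8607236112)) .nil))) (.cons (.br (nat_lit 5) (.cons (.rel (nat_lit 8623490049)) (.cons (.rel (nat_lit 4311744549)) .nil))) .nil))) (.node (.node (.node .leaf (nat_lit 5014864471519864) (.br (nat_lit 1) (.cons (.br (nat_lit 2) (.cons (.rel (nat_lit 83903745)) .nil)) .nil)) .leaf) (nat_lit 5014864471527549) (.br (nat_lit 4) (.cons (.br (nat_lit 6) (.cons (.rel (nat_lit 18254004288)) .nil)) .nil)) .leaf) (nat_lit 5014864471528360) (.br (nat_lit 2) (.cons (.br (nat_lit 3) (.cons (.rel (nat_lit 335546400)) (.cons (.rel (nat_lit 335544342)) .nil))) (.cons (.br (nat_lit 3) (.cons (.rel (nat_lit 335546400)) (.cons (.rel (nat_lit 671089680)) .nil)))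 .nil))) (.node (.node .leaf (nat_lit 5014864471578775) (.br (nat_lit 1) (.cons (.br (nat_lit 5) (.cons (.rel (nat_lit 4311744549)) .nil)) .nil)) .leaf) (nat_lit 5014864471819176) (.br (nat_lit 4) (.cons (.br (nat_lit 6) (.cons (.rel (nat_lit 19327385604)) .nil)) .nil)) .leaf))) (nat_lit 5014865127783782) (.br (nat_lit 1) (.cons (.br (nat_lit 4) (.cons (.rel (nat_lit 1090584597)) .nil)) .nil)) (.node (.node (.node (.node .leaf (nat_lit 5014865128501904) (.br (nat_lit 4) (.cons (.br (nat_lit 2) (.cons (.rel (nat_lit 1140949008)) (.cons (.rel (nat_lit 1140868116)) .nil))) .nil)) .leaf) (nat_lit 5014865129756697) (.br (nat_lit 0) (.cons (.br (nat_lit 6) (.cons (.rel (nat_lit 34368147456)) (.cons (.rel (nat_lit 17184080898)) .nil))) (.cons (.br (nat_lit 4) (.cons (.rel (nat_lit 2155876356)) (.cons (.rel (nat_lit 1078001670)) .nil))) .nil))) .leaf) (nat_lit 5021307132136360) (.br (nat_lit 1) (.cons (.br (nat_lit 3) (.cons (.rel (nat_lit 285218817)) .nil)) .nil)) (.node (.node .leaf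 (nat_lit 5024789240544519) (.br (nat_lit 5) (.cons (.br (nat_lit 0) (.cons (.rel (nat_lit 4299163680)) (.cons (.rel (nat_lit 4299161622)) .nil))) .nil)) .leaf) (nat_lit 5024789242031016) (.br (nat_lit 2) (.cons (.br (nat_lit 6) (.cons (.rel (nat_lit 17246978085)) .nil)) .nil)) .leaf)) (nat_lit 5024789243090969) (.br (nat_lit 0) (.cons (.br (nat_lit 4) (.cons (.rel (nat_lit 1077952641)) .nil)) .nil)) (.node (.node (.node .leaf (nat_lit 5027105125997855) (.br (nat_lit 1) (.cons (.br (nat_lit 4) (.cons (.rel (nat_lit 2181055488)) .nil)) .nil)) .leaf) (nat_lit 5027139485810022) (.br (nat_lit 1) (.cons (.br (nat_lit 3) (.cons (.rel (nat_lit 304087056)) .nil)) .nil)) .leaf) (nat_lit 5403177312385699) (.br (nat_lit 2) (.cons (.br (nat_lit 3) (.cons (.rel (nat_lit 335544342)) .nil)) .nil)) (.node .leaf (nat_lit 5403223731730494) (.br (nat_lit 0) (.cons (.br (nat_lit 2) (.cons (.rel (nat_lit 71369025)) .nil)) .nil)) .leaf)))))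

/-- refutations 23 -/
def e23 : EX := (.node (.node (.node (.node (.node (.node (.node (.node .leaf (nat_lit 11083172221627304) (.br (nat_lit 1) (.cons (.br (nat_lit 2) (.cons (.rel (nat_lit 84934662)) .nil)) .nil)) .leaf) (nat_lit 11083172221627649) (.br (nat_lit 2) (.cons (.br (nat_lit 0) (.cons (.rel (nat_lit 138674433)) (.cons (.rel (nat_lit 138543108)) .nil))) .nil)) .leaf) (nat_lit 11083172221627780) (.br (nat_lit 0) (.cons (.br (nat_lit 2) (.cons (.rel (nat_lit 138674433)) (.cons (.rel (nat_lit 75497568)) .nil))) .nil)) (.node .leaf (nat_lit 11083172224489472) (.br (nat_lit 0) (.cons (.br (nat_lit 1) (.cons (.rel (nat_lit 20993280)) .nil)) .nil)) .leaf)) (nat_lit 11084168653975552) (.br (nat_lit 2) (.cons (.br (nat_lit 5) (.cons (.rel (nat_lit 8657306112)) (.cons (.rel (nat_lit 4362108960)) (.cons (.rel (nat_lit 4362108960)) (.cons (.rel (nat_lit 4362096648)) (.cons (.rel (nat_lit 4362108960)) (.cons (.br (nat_lit 3) (.cons (.rel (nat_lit 335545353)) (.cons (.rel (nat_lit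 4565499909)) (.cons (.rel (nat_lit 604508160)) (.cons (.rel (nat_lit 8858374146)) (.cons (.rel (nat_lit 4565499909)) .nil)))))) (.cons (.rel (nat_lit 4362404160)) .nil)))))))) (.cons (.br (nat_lit 4) (.cons (.rel (nat_lit 1140851841)) (.cons (.rel (nat_lit 1140855840)) (.cons (.rel (nat_lit 1140918336)) .nil)))) .nil))) (.node (.node .leaf (nat_lit 11084168653975854) (.br (nat_lit 0) (.cons (.br (nat_lit 4) (.cons (.rel (nat_lit 1077938244)) .nil)) .nil)) .leaf) (nat_lit 11084168653976312) (.br (nat_lit 0) (.cons (.br (nat_lit 4) (.cons (.rel (nat_lit 1077938244)) (.cons (.rel (nat_lit 1077969930)) .nil))) (.cons (.br (nat_lit 4) (.cons (.rel (nat_lit 1077938244)) (.cons (.rel (nat_lit 1082425344)) .nil))) .nil))) (.node .leaf (nat_lit 11084168653976964) (.br (nat_lit 0) (.cons (.br (nat_lit 5) (.cons (.rel (nat_lit 4299161622)) .nil)) .nil)) .leaf))) (nat_lit 11084168653977077) (.br (nat_lit 0) (.cons (.br (nat_lit 1) (.cons (.rel (nat_lit 42206208)) .nil)) .nil)) (.node (.node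 (.node .leaf (nat_lit 11084168654040321) (.br (nat_lit 5) (.cons (.br (nat_lit 3) (.cons (.rel (nat_lit 8858501124)) (.cons (.rel (nat_lit 4565569536)) .nil))) .nil)) .leaf) (nat_lit 11084168654040452) (.br (nat_lit 0) (.cons (.br (nat_lit 6) (.cons (.rel (nat_lit 34368147456)) .nil)) .nil)) (.node .leaf (nat_lit 11084168654231064) (.br (nat_lit 0) (.cons (.br (nat_lit 1) (.cons (.rel (nat_lit 25428288)) .nil)) .nil)) .leaf)) (nat_lit 11084168654486904) (.br (nat_lit 0) (.cons (.br (nat_lit 2) (.cons (.rel (nat_lit 75505665)) .nil)) .nil)) (.node (.node .leaf (nat_lit 11084168654587904) (.br (nat_lit 3) (.cons (.br (nat_lit 6) (.cons (.rel (nat_lit 17448573072)) (.cons (.rel (nat_lit 17448599553)) (.cons (.rel (nat_lit 34896610560)) .nil)))) (.cons (.br (nat_lit 0) (.cons (.rel (nat_lit 545260608)) (.cons (.rel (nat_lit 272631936)) (.cons (.rel (nat_lit 545260608)) .nil)))) .nil))) .leaf) (nat_lit 11084168654588206) (.br (nat_lit 0) (.cons (.br (nat_lit 2) (.cons (.rel (nat_lit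 71319816)) .nil)) .nil)) (.node .leaf (nat_lit 11084168654588664) (.br (nat_lit 0) (.cons (.br (nat_lit 1) (.cons (.rel (nat_lit 21497856)) (.cons (.rel (nat_lit 25169985)) .nil))) .nil)) .leaf)))) (nat_lit 11084168654588816) (.br (nat_lit 0) (.cons (.br (nat_lit 1) (.cons (.rel (nat_lit 21497856)) .nil)) .nil)) (.node (.node (.node (.node (.node .leaf (nat_lit 11084168654589165) (.br (nat_lit 3) (.cons (.br (nat_lit 0) (.cons (.rel (nat_lit 272631936)) (.cons (.rel (nat_lit 272646153)) .nil))) .nil)) .leaf) (nat_lit 11084168654589185) (.br (nat_lit 1) (.cons (.br (nat_lit 0) (.cons (.rel (nat_lit 21497856)) (.cons (.rel (nat_lit 22024197)) .nil))) .nil)) .leaf) (nat_lit 11084168654589340) (.br (nat_lit 3) (.cons (.br (nat_lit 1) (.cons (.rel (nat_lit 285253632)) (.cons (.rel (nat_lit 285253632)) .nil))) .nil)) (.node .leaf (nat_lit 11084168654589409) (.br (nat_lit 3) (.cons (.br (nat_lit 0) (.cons (.rel (nat_lit 545260608)) (.cons (.rel (nat_lit 545260608)) .nil))) .nil)) .leaf))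 (nat_lit 11084168654589430) (.br (nat_lit 0) (.cons (.br (nat_lit 3) (.cons (.rel (nat_lit 272631936)) .nil)) .nil)) (.node (.node .leaf (nat_lit 11084168655244766) (.br (nat_lit 3) (.cons (.br (nat_lit 4) (.cons (.rel (nat_lit 2684420352)) .nil)) .nil)) .leaf) (nat_lit 11084168655265005) (.br (nat_lit 0) (.cons (.br (nat_lit 2) (.cons (.rel (nat_lit 75763968)) .nil)) .nil)) (.node .leaf (nat_lit 11084168655265156) (.br (nat_lit 0) (.cons (.br (nat_lit 2) (.cons (.rel (nat_lit 75505665)) (.cons (.rel (nat_lit 71307540)) .nil))) (.cons (.br (nat_lit 2) (.cons (.rel (nat_lit 71435520)) (.cons (.rel (nat_lit 71369025)) .nil))) .nil))) .leaf))) (nat_lit 11084168655501312) (.br (nat_lit 4) (.cons (.br (nat_lit 2) (.cons (.rel (nat_lit 1140918336)) (.cons (.rel (nat_lit 1140851841)) .nil))) .nil)) (.node (.node (.node .leaf (nat_lit 11084168655502072) (.br (nat_lit 0) (.cons (.br (nat_lit 2) (.cons (.rel (nat_lit 72353793)) (.cons (.rel (nat_lit 138412176)) .nil))) (.cons (.br (nat_lit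 2) (.cons (.rel (nat_lit 75531264)) (.cons (.rel (nat_lit 71307540)) .nil))) .nil))) .leaf) (nat_lit 11084168655502817) (.br (nat_lit 2) (.cons (.br (nat_lit 4) (.cons (.rel (nat_lit 1140918336)) .nil)) .nil)) (.node .leaf (nat_lit 11084168655622304) (.br (nat_lit 1) (.cons (.br (nat_lit 3) (.cons (.rel (nat_lit 285212805)) .nil)) .nil)) .leaf)) (nat_lit 11084168655826944) (.br (nat_lit 1) (.cons (.br (nat_lit 4) (.cons (.rel (nat_lit 1107558468)) (.cons (.rel (nat_lit 1107558468)) .nil))) .nil)) (.node (.node .leaf (nat_lit 11084168655827704) (.br (nat_lit 0) (.cons (.br (nat_lit 1) (.cons (.rel (nat_lit 25236480)) (.cons (.rel (nat_lit 22282500)) .nil))) .nil)) .leaf) (nat_lit 11084168655828224) (.br (nat_lit 1) (.cons (.br (nat_lit 6) (.cons (.rel (nat_lit 17196777480)) .nil)) .nil)) (.node .leaf (nat_lit 11084168656586140) (.br (nat_lit 0) (.cons (.br (nat_lit 1) (.cons (.rel (nat_lit 37752912)) .nil)) .nil)) .leaf))))) (nat_lit 11084168656637316) (.br (nat_lit 4) (.cons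 (.br (nat_lit 6) (.cons (.br (nat_lit 1) (.cons (.rel (nat_lit 17196663825)) (.cons (.rel (nat_lit 17196777480)) .nil))) (.cons (.rel (nat_lit 18253627905)) (.cons (.rel (nat_lit 18253873176)) .nil)))) .nil)) (.node (.node (.node (.node (.node (.node .leaf (nat_lit 11084168656637429) (.br (nat_lit 1) (.cons (.br (nat_lit 2) (.cons (.rel (nat_lit 84934662)) (.cons (.rel (nat_lit 84934662)) .nil))) .nil)) .leaf) (nat_lit 11084168656902144) (.br (nat_lit 0) (.cons (.br (nat_lit 1) (.cons (.rel (nat_lit 21497856)) (.cons (.rel (nat_lit 37748769)) .nil))) (.cons (.br (nat_lit 1) (.cons (.rel (nat_lit 21497856)) (.cons (.rel (nat_lit 42206208)) .nil))) .nil))) .leaf) (nat_lit 11084168656902904) (.br (nat_lit 0) (.cons (.br (nat_lit 4) (.cons (.rel (nat_lit 2155876356)) (.cons (.rel (nat_lit 1077941376)) .nil))) (.cons (.br (nat_lit 1) (.cons (.rel (nat_lit 42206208)) (.cons (.rel (nat_lit 25169985)) .nil))) .nil))) (.node .leaf (nat_lit 11084168656903425) (.br (nat_lit 0) (.cons (.br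 (nat_lit 1) (.cons (.rel (nat_lit 42206208)) .nil)) .nil)) .leaf)) (nat_lit 11084168656903649) (.br (nat_lit 6) (.cons (.br (nat_lit 0) (.cons (.rel (nat_lit 17184069633)) (.cons (.rel (nat_lit 17184067620)) .nil))) .nil)) (.node (.node .leaf (nat_lit 11084168657057792) (.br (nat_lit 1) (.cons (.br (nat_lit 4) (.cons (.rel (nat_lit 1090585608)) (.cons (.rel (nat_lit 1090539522)) .nil))) (.cons (.br (nat_lit 4) (.cons (.rel (nat_lit 1090553856)) (.cons (.rel (nat_lit 1090539522)) .nil))) .nil))) .leaf) (nat_lit 11084168657058094) (.br (nat_lit 0) (.cons (.br (nat_lit 4) (.cons (.rel (nat_lit 1077937233)) .nil)) .nil)) (.node .leaf (nat_lit 11084168657058474) (.br (nat_lit 0) (.cons (.br (nat_lit 1) (.cons (.rel (nat_lit 37748769)) .nil)) .nil)) .leaf))) (nat_lit 11084168657058479) (.br (nat_lit 0) (.cons (.br (nat_lit 4) (.cons (.rel (nat_lit 1077944328)) .nil)) .nil)) (.node (.node (.node .leaf (nat_lit 11084168657058552) (.br (nat_lit 2) (.cons (.br (nat_lit 5) (.cons (.rel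 (nat_lit 4362078288)) (.cons (.rel (nat_lit 4362096648)) (.cons (.rel (nat_lit 4362078288)) (.cons (.rel (nat_lit 4362108960)) (.cons (.rel (nat_lit 8724168720)) .nil)))))) (.cons (.br (nat_lit 4) (.cons (.rel (nat_lit 1140918336)) (.cons (.rel (nat_lit 1140981762)) .nil))) .nil))) .leaf) (nat_lit 11084168657058703) (.br (nat_lit 0) (.cons (.br (nat_lit 4) (.cons (.rel (nat_lit 2151679233)) .nil)) .nil)) (.node .leaf (nat_lit 11084168657143041) (.br (nat_lit 1) (.cons (.br (nat_lit 4) (.cons (.br (nat_lit 2) (.cons (.rel (nat_lit 1140924420)) (.cons (.rel (nat_lit 1140918336)) .nil))) .nil)) .nil)) .leaf)) (nat_lit 11085268165603328) (.br (nat_lit 5) (.cons (.br (nat_lit 2) (.cons (.rel (nat_lit 4362108960)) (.cons (.rel (nat_lit 4362212352)) .nil))) .nil)) (.node (.node .leaf (nat_lit 11085268165603490) (.br (nat_lit 0) (.cons (.br (nat_lit 3) (.cons (.rel (nat_lit 272631936)) .nil)) .nil)) .leaf) (nat_lit 11085268165667098) (.br (nat_lit 1) (.cons (.br (nat_lit 5) (.cons (.rel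 (nat_lit 8623490049)) .nil)) .nil)) (.node .leaf (nat_lit 11085268165667627) (.br (nat_lit 3) (.cons (.br (nat_lit 4) (.cons (.rel (nat_lit 2415928320)) .nil)) .nil)) .leaf)))) (nat_lit 11085268165668097) (.br (nat_lit 1) (.cons (.br (nat_lit 6) (.cons (.br (nat_lit 2) (.cons (.rel (nat_lit 84934662)) (.cons (.rel (nat_lit 17246978085)) (.cons (.rel (nat_lit 17246980098)) .nil)))) (.cons (.rel (nat_lit 17213948160)) (.cons (.rel (nat_lit 17213948160)) (.cons (.rel (nat_lit 17196777480)) (.cons (.rel (nat_lit 17213948160)) .nil)))))) .nil)) (.node (.node (.node (.node (.node .leaf (nat_lit 11085268165668228) (.br (nat_lit 0) (.cons (.br (nat_lit 2) (.cons (.rel (nat_lit 138674433)) (.cons (.rel (nat_lit 75497568)) .nil))) .nil)) .leaf) (nat_lit 11085268165912878) (.br (nat_lit 0) (.cons (.br (nat_lit 1) (.cons (.rel (nat_lit 25236480)) .nil)) .nil)) .leaf) (nat_lit 11085268165913336) (.br (nat_lit 0) (.cons (.br (nat_lit 1) (.cons (.rel (nat_lit 21497856)) .nil)) .nil)) (.node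 .leaf (nat_lit 11085268166174720) (.br (nat_lit 0) (.cons (.br (nat_lit 2) (.cons (.rel (nat_lit 71307540)) .nil)) .nil)) .leaf)) (nat_lit 11085268166175600) (.br (nat_lit 2) (.cons (.br (nat_lit 0) (.cons (.rel (nat_lit 71369025)) (.cons (.rel (nat_lit 71307540)) .nil))) .nil)) (.node (.node .leaf (nat_lit 11085268166215680) (.br (nat_lit 1) (.cons (.br (nat_lit 0) (.cons (.rel (nat_lit 42206208)) (.cons (.rel (nat_lit 42206208)) .nil))) .nil)) .leaf) (nat_lit 11085268166215715) (.br (nat_lit 2) (.cons (.br (nat_lit 3) (.cons (.rel (nat_lit 335561808)) .nil)) .nil)) (.node .leaf (nat_lit 11085268166216312) (.br (nat_lit 0) (.cons (.br (nat_lit 3) (.cons (.rel (nat_lit 272631936)) (.cons (.rel (nat_lit 272631936)) (.cons (.rel (nat_lit 272631936)) .nil)))) .nil)) .leaf))) (nat_lit 11085268166216440) (.br (nat_lit 0) (.cons (.br (nat_lit 1) (.cons (.rel (nat_lit 22093824)) (.cons (.rel (nat_lit 20993280)) .nil))) (.cons (.br (nat_lit 1) (.cons (.rel (nat_lit 20993280)) (.cons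 (.rel (nat_lit 37749780)) .nil))) .nil))) (.node (.node (.node .leaf (nat_lit 11085268166216491) (.br (nat_lit 3) (.cons (.br (nat_lit 0) (.cons (.rel (nat_lit 272631936)) (.cons (.rel (nat_lit 272631936)) .nil))) .nil)) .leaf) (nat_lit 11085268166216591) (.br (nat_lit 0) (.cons (.br (nat_lit 3) (.cons (.rel (nat_lit 272631936)) (.cons (.rel (nat_lit 272634888)) .nil))) (.cons (.br (nat_lit 1) (.cons (.rel (nat_lit 42206208)) (.cons (.rel (nat_lit 37749780)) .nil))) .nil))) (.node .leaf (nat_lit 11085268166216592) (.br (nat_lit 1) (.cons (.br (nat_lit 3) (.cons (.rel (nat_lit 285253632)) .nil)) .nil)) .leaf)) (nat_lit 11085268166216941) (.br (nat_lit 1) (.cons (.br (nat_lit 2) (.cons (.rel (nat_lit 100664388)) .nil)) .nil)) (.node (.node .leaf (nat_lit 11085268166216961) (.br (nat_lit 3) (.cons (.br (nat_lit 5) (.cons (.rel (nat_lit 4563403332)) (.cons (.rel (nat_lit 8858374146)) (.cons (.rel (nat_lit 4563730497)) .nil)))) (.cons (.br (nat_lit 5) (.cons (.rel (nat_lit 4831903752))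 (.cons (.br (nat_lit 2) (.cons (.rel (nat_lit 4362108960)) (.cons (.rel (nat_lit 8724168720)) (.cons (.rel (nat_lit 335614980)) .nil)))) (.cons (.rel (nat_lit 4563796992)) .nil)))) .nil))) .leaf) (nat_lit 11085268166217065) (.br (nat_lit 1) (.cons (.br (nat_lit 0) (.cons (.rel (nat_lit 22052928)) (.cons (.rel (nat_lit 42206208)) .nil))) .nil)) (.node .leaf (nat_lit 11085268166217185) (.br (nat_lit 0) (.cons (.br (nat_lit 4) (.cons (.rel (nat_lit 1077952641)) (.cons (.rel (nat_lit 1077937233)) (.cons (.rel (nat_lit 1078071297)) .nil)))) .nil)) .leaf)))))) (nat_lit 11085268166893045) (.br (nat_lit 0) (.cons (.br (nat_lit 2) (.cons (.rel (nat_lit 72351780)) .nil)) .nil)) (.node (.node (.node (.node (.node (.node (.node .leaf (nat_lit 11085268166893080) (.br (nat_lit 0) (.cons (.br (nat_lit 1) (.cons (.rel (nat_lit 20993280)) .nil)) .nil)) .leaf) (nat_lit 11085268167129088) (.br (nat_lit 0) (.cons (.br (nat_lit 1) (.cons (.rel (nat_lit 20989329)) .nil)) .nil)) .leaf) (nat_lit 11085268167129119)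 (.br (nat_lit 0) (.cons (.br (nat_lit 1) (.cons (.rel (nat_lit 21004545)) .nil)) .nil)) (.node .leaf (nat_lit 11085268167129848) (.br (nat_lit 0) (.cons (.br (nat_lit 1) (.cons (.rel (nat_lit 21004545)) (.cons (.rel (nat_lit 20971860)) .nil))) (.cons (.br (nat_lit 1) (.cons (.rel (nat_lit 22052928)) (.cons (.rel (nat_lit 20993280)) .nil))) .nil))) .leaf)) (nat_lit 11085268167129999) (.br (nat_lit 0) (.cons (.br (nat_lit 5) (.cons (.rel (nat_lit 4300489728)) .nil)) .nil)) (.node (.node .leaf (nat_lit 11085268167130593) (.br (nat_lit 2) (.cons (.br (nat_lit 0) (.cons (.rel (nat_lit 72351780)) (.cons (.rel (nat_lit 72388608)) .nil))) .nil)) .leaf) (nat_lit 11085268167198720) (.br (nat_lit 0) (.cons (.br (nat_lit 1) (.cons (.rel (nat_lit 22282500)) .nil)) .nil)) (.node .leaf (nat_lit 11085268167199000) (.br (nat_lit 1) (.cons (.br (nat_lit 3) (.cons (.rel (nat_lit 285216804)) .nil)) .nil)) .leaf))) (nat_lit 11085268167199651) (.br (nat_lit 0) (.cons (.br (nat_lit 1) (.cons (.rel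 (nat_lit 22037520)) .nil)) .nil)) (.node (.node (.node .leaf (nat_lit 11085268167242034) (.br (nat_lit 0) (.cons (.br (nat_lit 1) (.cons (.rel (nat_lit 37748769)) .nil)) .nil)) .leaf) (nat_lit 11085268167243140) (.br (nat_lit 0) (.cons (.br (nat_lit 1) (.cons (.rel (nat_lit 21497856)) (.cons (.rel (nat_lit 25428288)) .nil))) .nil)) (.node .leaf (nat_lit 11085268167243253) (.br (nat_lit 1) (.cons (.br (nat_lit 6) (.cons (.rel (nat_lit 17213948160)) .nil)) .nil)) .leaf)) (nat_lit 11085268167438336) (.br (nat_lit 5) (.cons (.br (nat_lit 6) (.cons (.rel (nat_lit 21475104768)) .nil)) .nil)) (.node (.node .leaf (nat_lit 11085268167439023) (.br (nat_lit 0) (.cons (.br (nat_lit 1) (.cons (.rel (nat_lit 42206208)) .nil)) .nil)) .leaf) (nat_lit 11085268167439247) (.br (nat_lit 0) (.cons (.br (nat_lit 4) (.cons (.rel (nat_lit 2155876356)) .nil)) .nil)) (.node .leaf (nat_lit 11085268167439617) (.br (nat_lit 5) (.cons (.br (nat_lit 6) (.cons (.rel (nat_lit 21475104768)) .nil)) .nil)) .leaf))))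 (nat_lit 11085268167445906) (.br (nat_lit 2) (.cons (.br (nat_lit 3) (.cons (.rel (nat_lit 335546400)) .nil)) .nil)) (.node (.node (.node (.node (.node .leaf (nat_lit 11085268168212515) (.br (nat_lit 2) (.cons (.br (nat_lit 3) (.cons (.rel (nat_lit 335545353)) (.cons (.rel (nat_lit 335545353)) (.cons (.rel (nat_lit 402653697)) .nil)))) .nil)) .leaf) (nat_lit 11085268168213391) (.br (nat_lit 0) (.cons (.br (nat_lit 6) (.cons (.rel (nat_lit 17188542528)) .nil)) .nil)) .leaf) (nat_lit 11085268168213985) (.br (nat_lit 0) (.cons (.br (nat_lit 2) (.cons (.rel (nat_lit 72388608)) .nil)) .nil)) (.node .leaf (nat_lit 11085268168228341) (.br (nat_lit 0) (.cons (.br (nat_lit 1) (.cons (.rel (nat_lit 25428288)) .nil)) .nil)) .leaf)) (nat_lit 11085268168514296) (.br (nat_lit 0) (.cons (.br (nat_lit 1) (.cons (.rel (nat_lit 21497856)) .nil)) .nil)) (.node (.node .leaf (nat_lit 11085268168530680) (.br (nat_lit 0) (.cons (.br (nat_lit 4) (.cons (.rel (nat_lit 1077941376)) .nil)) .nil)) .leaf)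 (nat_lit 11085268168530831) (.br (nat_lit 0) (.cons (.br (nat_lit 2) (.cons (.rel (nat_lit 72388608)) (.cons (.rel (nat_lit 71307540)) (.cons (.rel (nat_lit 71435520)) .nil)))) .nil)) (.node .leaf (nat_lit 11085268168686328) (.br (nat_lit 5) (.cons (.br (nat_lit 0) (.cons (.rel (nat_lit 4299162633)) (.cons (.rel (nat_lit 4299194496)) (.cons (.rel (nat_lit 8598324240)) .nil)))) .nil)) .leaf))) (nat_lit 11085268168686849) (.br (nat_lit 0) (.cons (.br (nat_lit 3) (.cons (.rel (nat_lit 272631936)) .nil)) .nil)) (.node (.node (.node .leaf (nat_lit 11085268168687124) (.br (nat_lit 0) (.cons (.br (nat_lit 1) (.cons (.rel (nat_lit 20993280)) .nil)) .nil)) .leaf) (nat_lit 11089777881877392) (.br (nat_lit 0) (.cons (.br (nat_lit 1) (.cons (.rel (nat_lit 22037520)) .nil)) .nil)) (.node .leaf (nat_lit 11089777881877865) (.br (nat_lit 1) (.cons (.br (nat_lit 3) (.cons (.rel (nat_lit 285282432)) (.cons (.rel (nat_lit 285253632)) .nil))) .nil)) .leaf)) (nat_lit 11089777881877916) (.br (nat_lit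 1) (.cons (.br (nat_lit 3) (.cons (.rel (nat_lit 285229080)) .nil)) .nil)) (.node (.node .leaf (nat_lit 11089777883874665) (.br (nat_lit 0) (.cons (.br (nat_lit 2) (.cons (.rel (nat_lit 71435520)) .nil)) .nil)) .leaf) (nat_lit 11089783384804713) (.br (nat_lit 0) (.cons (.br (nat_lit 3) (.cons (.rel (nat_lit 272631936)) (.cons (.rel (nat_lit 272631936)) (.cons (.rel (nat_lit 272761857)) .nil)))) (.cons (.br (nat_lit 3) (.cons (.rel (nat_lit 272631936)) (.cons (.rel (nat_lit 272631936)) (.cons (.rel (nat_lit 272761857)) .nil)))) .nil))) (.node .leaf (nat_lit 11089783385838448) (.br (nat_lit 5) (.cons (.br (nat_lit 6) (.cons (.rel (nat_lit 21475116033)) .nil)) .nil)) .leaf))))) (nat_lit 11089783386814495) (.br (nat_lit 0) (.cons (.br (nat_lit 6) (.cons (.rel (nat_lit 17184101508)) .nil)) .nil)) (.node (.node (.node (.node (.node (.node .leaf (nat_lit 11090700191936512) (.br (nat_lit 0) (.cons (.br (nat_lit 2) (.cons (.rel (nat_lit 71369025)) .nil)) .nil)) .leaf) (nat_lit 11090700191937272)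 (.br (nat_lit 0) (.cons (.br (nat_lit 2) (.cons (.rel (nat_lit 71435520)) .nil)) .nil)) .leaf) (nat_lit 11090700191938017) (.br (nat_lit 1) (.cons (.br (nat_lit 4) (.cons (.rel (nat_lit 1090553856)) .nil)) .nil)) (.node .leaf (nat_lit 11090700192508664) (.br (nat_lit 0) (.cons (.br (nat_lit 1) (.cons (.rel (nat_lit 21037344)) .nil)) .nil)) .leaf)) (nat_lit 11090700192548864) (.br (nat_lit 0) (.cons (.br (nat_lit 3) (.cons (.rel (nat_lit 272631936)) .nil)) .nil)) (.node (.node .leaf (nat_lit 11090700192550249) (.br (nat_lit 0) (.cons (.br (nat_lit 3) (.cons (.rel (nat_lit 545260608)) .nil)) .nil)) .leaf) (nat_lit 11090700192550369) (.br (nat_lit 1) (.cons (.br (nat_lit 6) (.cons (.rel (nat_lit 34377564177)) .nil)) .nil)) (.node .leaf (nat_lit 11090700193462272) (.br (nat_lit 0) (.cons (.br (nat_lit 4) (.cons (.rel (nat_lit 1077937233)) .nil)) .nil)) .leaf))) (nat_lit 11090700193463032) (.br (nat_lit 0) (.cons (.br (nat_lit 3) (.cons (.rel (nat_lit 272633877)) (.cons (.rel (nat_lit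 272631936)) .nil))) (.cons (.br (nat_lit 3) (.cons (.rel (nat_lit 545260608)) (.cons (.rel (nat_lit 272631936)) .nil))) .nil))) (.node (.node (.node .leaf (nat_lit 11090700193463777) (.br (nat_lit 0) (.cons (.br (nat_lit 1) (.cons (.rel (nat_lit 22093824)) .nil)) .nil)) .leaf) (nat_lit 11090700194742554) (.br (nat_lit 0) (.cons (.br (nat_lit 3) (.cons (.rel (nat_lit 272631936)) .nil)) .nil)) (.node .leaf (nat_lit 11090700194864609) (.br (nat_lit 0) (.cons (.br (nat_lit 1) (.cons (.rel (nat_lit 37782657)) .nil)) .nil)) .leaf)) (nat_lit 11090700195019512) (.br (nat_lit 0) (.cons (.br (nat_lit 2) (.cons (.rel (nat_lit 71307540)) .nil)) .nil)) (.node (.node .leaf (nat_lit 11090900067912565) (.br (nat_lit 0) (.cons (.br (nat_lit 3) (.cons (.rel (nat_lit 272631936)) .nil)) .nil)) .leaf) (nat_lit 11090900067913065) (.br (nat_lit 4) (.cons (.br (nat_lit 6) (.cons (.rel (nat_lit 18253627905)) .nil)) .nil)) (.node .leaf (nat_lit 11090900068674162) (.br (nat_lit 4) (.cons (.br (nat_lit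 6) (.cons (.rel (nat_lit 19327420416)) (.cons (.rel (nat_lit 18253897728)) .nil))) .nil)) .leaf)))) (nat_lit 11090900070175000) (.br (nat_lit 1) (.cons (.br (nat_lit 3) (.cons (.rel (nat_lit 285278289)) .nil)) .nil)) (.node (.node (.node (.node .leaf (nat_lit 11094287597538040) (.br (nat_lit 0) (.cons (.br (nat_lit 2) (.cons (.rel (nat_lit 138428454)) .nil)) .nil)) .leaf) (nat_lit 11094287597538665) (.br (nat_lit 1) (.cons (.br (nat_lit 3) (.cons (.rel (nat_lit 285253632)) .nil)) .nil)) (.node .leaf (nat_lit 11094287599534115) (.br (nat_lit 1) (.cons (.br (nat_lit 3) (.cons (.rel (nat_lit 285253632)) .nil)) .nil)) .leaf)) (nat_lit 11094287599985400) (.br (nat_lit 0) (.cons (.br (nat_lit 2) (.cons (.rel (nat_lit 75563016)) .nil)) .nil)) (.node (.node .leaf (nat_lit 11094353649436974) (.br (nat_lit 0) (.cons (.br (nat_lit 2) (.cons (.rel (nat_lit 138543108)) .nil)) .nil)) .leaf) (nat_lit 11094977979363328) (.br (nat_lit 0) (.cons (.br (nat_lit 5) (.cons (.rel (nat_lit 8598324240))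 (.cons (.rel (nat_lit 4299161622)) .nil))) (.cons (.br (nat_lit 5) (.cons (.rel (nat_lit 4299161622)) (.cons (.rel (nat_lit 4299163680)) .nil))) .nil))) (.node .leaf (nat_lit 11094977979364088) (.br (nat_lit 0) (.cons (.br (nat_lit 1) (.cons (.rel (nat_lit 20993280)) (.cons (.rel (nat_lit 37749780)) .nil))) .nil)) .leaf))) (nat_lit 11094977980889088) (.br (nat_lit 5) (.cons (.br (nat_lit 0) (.cons (.rel (nat_lit 4299162633)) (.cons (.rel (nat_lit 8598324240)) .nil))) .nil)) (.node (.node (.node .leaf (nat_lit 11094977980889848) (.br (nat_lit 1) (.cons (.br (nat_lit 2) (.cons (.rel (nat_lit 150999057)) .nil)) .nil)) .leaf) (nat_lit 11094977981988321) (.br (nat_lit 0) (.cons (.br (nat_lit 2) (.cons (.rel (nat_lit 71827524)) .nil)) .nil)) (.node .leaf (nat_lit 11094977982290680) (.br (nat_lit 0) (.cons (.br (nat_lit 2) (.cons (.rel (nat_lit 71319816)) .nil)) .nil)) .leaf)) (nat_lit 11094977982445568) (.br (nat_lit 0) (.cons (.br (nat_lit 1) (.cons (.rel (nat_lit 25169985)) .nil))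 .nil)) (.node (.node .leaf (nat_lit 11094977982446328) (.br (nat_lit 0) (.cons (.br (nat_lit 1) (.cons (.rel (nat_lit 20993280)) .nil)) .nil)) .leaf) (nat_lit 11108492258101310) (.br (nat_lit 0) (.cons (.br (nat_lit 1) (.cons (.rel (nat_lit 22024197)) .nil)) .nil)) (.node .leaf (nat_lit 11108492259381534) (.br (nat_lit 0) (.cons (.br (nat_lit 2) (.cons (.rel (nat_lit 72388608)) .nil)) .nil)) .leaf)))))))

/-- refutations 24 -/
def e24 : EX := (.node (.node (.node (.node (.node (.node (.node .leaf (nat_lit 11542891197490407) (.br (nat_lit 0) (.cons (.br (nat_lit 2) (.cons (.rel (nat_lit 72351780)) .nil)) .nil)) .leaf) (nat_lit 11542894318256914) (.br (nat_lit 0) (.cons (.br (nat_lit 2) (.cons (.rel (nat_lit 138416130)) (.cons (.rel (nat_lit 71307540)) .nil))) .nil)) .leaf) (nat_lit 11546292811989877) (.br (nat_lit 0) (.cons (.br (nat_lit 1) (.cons (.rel (nat_lit 22037520)) .nil)) .nil)) (.node .leaf (nat_lit 11546294912877419) (.br (nat_lit 1) (.cons (.br (nat_lit 4) (.cons (.rel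 (nat_lit 1090553856)) .nil)) .nil)) .leaf)) (nat_lit 11546294912877830) (.br (nat_lit 0) (.cons (.br (nat_lit 4) (.cons (.rel (nat_lit 1077937233)) (.cons (.rel (nat_lit 1078329600)) .nil))) (.cons (.br (nat_lit 6) (.cons (.rel (nat_lit 17185112580)) (.cons (.rel (nat_lit 34364981250)) .nil))) .nil))) (.node (.node .leaf (nat_lit 11546294913335303) (.br (nat_lit 1) (.cons (.br (nat_lit 3) (.cons (.rel (nat_lit 285218817)) .nil)) .nil)) .leaf) (nat_lit 11546294913335931) (.br (nat_lit 3) (.cons (.br (nat_lit 1) (.cons (.rel (nat_lit 285212805)) (.cons (.rel (nat_lit 303042816)) .nil))) .nil)) (.node .leaf (nat_lit 11546294913336073) (.br (nat_lit 4) (.cons (.br (nat_lit 1) (.cons (.rel (nat_lit 1091830800)) (.cons (.rel (nat_lit 1090519113)) .nil))) .nil)) .leaf))) (nat_lit 11546294914106275) (.br (nat_lit 1) (.cons (.br (nat_lit 3) (.cons (.rel (nat_lit 286261764)) .nil)) .nil)) (.node (.node (.node (.node .leaf (nat_lit 11546294914163963) (.br (nat_lit 0) (.cons (.br (nat_lit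 2) (.cons (.rel (nat_lit 72353793)) .nil)) .nil)) .leaf) (nat_lit 11546294915740934) (.br (nat_lit 4) (.cons (.br (nat_lit 6) (.cons (.rel (nat_lit 18253897728)) .nil)) .nil)) .leaf) (nat_lit 11546295827235602) (.br (nat_lit 6) (.cons (.br (nat_lit 1) (.cons (.rel (nat_lit 34376778240)) (.cons (.rel (nat_lit 17196664836)) .nil))) .nil)) (.node .leaf (nat_lit 11546295827694203) (.br (nat_lit 3) (.cons (.br (nat_lit 4) (.cons (.rel (nat_lit 2415919176)) .nil)) .nil)) .leaf)) (nat_lit 11546295827736576) (.br (nat_lit 0) (.cons (.br (nat_lit 1) (.cons (.rel (nat_lit 21004545)) (.cons (.rel (nat_lit 20993280)) .nil))) (.cons (.br (nat_lit 1) (.cons (.rel (nat_lit 37765188)) (.cons (.rel (nat_lit 20993280)) .nil))) .nil))) (.node (.node .leaf (nat_lit 11546295828522246) (.br (nat_lit 6) (.cons (.br (nat_lit 0) (.cons (.rel (nat_lit 34368147456)) (.cons (.rel (nat_lit 34363933056)) .nil))) .nil)) .leaf) (nat_lit 11546295829783814) (.br (nat_lit 0) (.cons (.br (nat_lit 1) (.cons (.rel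 (nat_lit 42206208)) .nil)) .nil)) (.node .leaf (nat_lit 11546973518996242) (.br (nat_lit 3) (.cons (.br (nat_lit 1) (.cons (.rel (nat_lit 570445824)) (.cons (.rel (nat_lit 285229080)) (.cons (.rel (nat_lit 285229080)) .nil)))) (.cons (.br (nat_lit 5) (.cons (.rel (nat_lit 4831846401)) (.cons (.rel (nat_lit 4563403332)) (.cons (.rel (nat_lit 4565499909)) .nil)))) .nil))) .leaf)))) (nat_lit 11546973518996963) (.br (nat_lit 0) (.cons (.br (nat_lit 4) (.cons (.rel (nat_lit 2152218624)) .nil)) .nil)) (.node (.node (.node (.node (.node .leaf (nat_lit 11546974432068370) (.br (nat_lit 1) (.cons (.br (nat_lit 6) (.cons (.rel (nat_lit 17196650502)) (.cons (.rel (nat_lit 17196777480)) (.cons (.rel (nat_lit 17196712032)) .nil)))) (.cons (.br (nat_lit 6) (.cons (.rel (nat_lit 17196777480)) (.cons (.rel (nat_lit 34393358340)) (.cons (.rel (nat_lit 17196650502)) .nil)))) (.cons (.br (nat_lit 6) (.cons (.rel (nat_lit 17196646548)) (.cons (.rel (nat_lit 17196667968)) (.cons (.rel (nat_lit 17196646548))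 .nil)))) .nil)))) .leaf) (nat_lit 11546974433354514) (.br (nat_lit 4) (.cons (.br (nat_lit 1) (.cons (.rel (nat_lit 1090535568)) (.cons (.rel (nat_lit 1090528257)) .nil))) .nil)) .leaf) (nat_lit 11547008192479414) (.br (nat_lit 0) (.cons (.br (nat_lit 1) (.cons (.rel (nat_lit 22052928)) .nil)) .nil)) (.node .leaf (nat_lit 11548099239805714) (.br (nat_lit 2) (.cons (.br (nat_lit 6) (.cons (.rel (nat_lit 17246978085)) .nil)) .nil)) .leaf)) (nat_lit 11548099240002973) (.br (nat_lit 1) (.cons (.br (nat_lit 3) (.cons (.rel (nat_lit 285216804)) .nil)) .nil)) (.node (.node .leaf (nat_lit 11548294166913810) (.br (nat_lit 0) (.cons (.br (nat_lit 1) (.cons (.rel (nat_lit 25166853)) .nil)) .nil)) .leaf) (nat_lit 11548294182667026) (.br (nat_lit 0) (.cons (.br (nat_lit 1) (.cons (.rel (nat_lit 37749780)) .nil)) .nil)) (.node .leaf (nat_lit 11548294184000763) (.br (nat_lit 0) (.cons (.br (nat_lit 2) (.cons (.rel (nat_lit 72351780)) .nil)) .nil)) .leaf))) (nat_lit 11548296367637355) (.br (nat_lit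 1) (.cons (.br (nat_lit 6) (.cons (.rel (nat_lit 17196777480)) (.cons (.rel (nat_lit 17196652560)) (.cons (.rel (nat_lit 17196667968)) (.cons (.rel (nat_lit 17196650502)) .nil))))) .nil)) (.node (.node (.node (.node .leaf (nat_lit 11548296367637766) (.br (nat_lit 4) (.cons (.br (nat_lit 0) (.cons (.rel (nat_lit 1078003728)) (.cons (.br (nat_lit 3) (.cons (.rel (nat_lit 272631936)) (.cons (.rel (nat_lit 1347424260)) (.cons (.rel (nat_lit 277090305)) (.cons (.rel (nat_lit 1342440480)) (.cons (.rel (nat_lit 1342440480)) .nil)))))) (.cons (.rel (nat_lit 1077937233)) (.cons (.br (nat_lit 6) (.cons (.rel (nat_lit 18254660880)) (.cons (.rel (nat_lit 17185112580)) (.cons (.rel (nat_lit 18254660880)) (.cons (.rel (nat_lit 18253874178)) (.cons (.rel (nat_lit 18261999648)) (.cons (.rel (nat_lit 36508303425)) (.cons (.rel (nat_lit 17190354945)) (.cons (.rel (nat_lit 18253874178)) .nil))))))))) (.cons (.rel (nat_lit 1079001600)) .nil)))))) (.cons (.br (nat_lit 6) (.cons (.rel (nat_lit 18253616640))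 (.cons (.rel (nat_lit 18253897728)) (.cons (.rel (nat_lit 18254676288)) (.cons (.rel (nat_lit 18253616640)) (.cons (.rel (nat_lit 35433496584)) (.cons (.rel (nat_lit 18254004288)) (.cons (.rel (nat_lit 18253874178)) (.cons (.rel (nat_lit 18253616640)) .nil))))))))) .nil))) .leaf) (nat_lit 11548296367695105) (.br (nat_lit 0) (.cons (.br (nat_lit 1) (.cons (.rel (nat_lit 22282500)) .nil)) .nil)) .leaf) (nat_lit 11548296367695131) (.br (nat_lit 0) (.cons (.br (nat_lit 1) (.cons (.rel (nat_lit 20971860)) .nil)) .nil)) (.node .leaf (nat_lit 11548296367893757) (.br (nat_lit 4) (.cons (.br (nat_lit 6) (.cons (.rel (nat_lit 18253616640)) .nil)) .nil)) .leaf)) (nat_lit 11548296367893766) (.br (nat_lit 4) (.cons (.br (nat_lit 6) (.cons (.rel (nat_lit 18253873176)) .nil)) .nil)) (.node (.node .leaf (nat_lit 11548296367899299) (.br (nat_lit 5) (.cons (.br (nat_lit 0) (.cons (.rel (nat_lit 8594653185)) (.cons (.rel (nat_lit 4299194496)) .nil))) .nil)) .leaf) (nat_lit 11548296367899410) (.br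 (nat_lit 5) (.cons (.br (nat_lit 0) (.cons (.rel (nat_lit 4299161622)) (.cons (.rel (nat_lit 4299162633)) (.cons (.rel (nat_lit 4299424068)) (.cons (.rel (nat_lit 8594653185)) (.cons (.rel (nat_lit 8598324240)) (.cons (.rel (nat_lit 8594653185)) .nil))))))) .nil)) (.node .leaf (nat_lit 11548296368095282) (.br (nat_lit 1) (.cons (.br (nat_lit 3) (.cons (.rel (nat_lit 285229080)) .nil)) .nil)) .leaf))))) (nat_lit 11548296368095907) (.br (nat_lit 6) (.cons (.br (nat_lit 1) (.cons (.rel (nat_lit 34376778240)) (.cons (.rel (nat_lit 17196646548)) .nil))) .nil)) (.node (.node (.node (.node (.node (.node .leaf (nat_lit 11548296368096009) (.br (nat_lit 4) (.cons (.br (nat_lit 6) (.cons (.rel (nat_lit 18254004288)) .nil)) .nil)) .leaf) (nat_lit 11548296368096539) (.br (nat_lit 2) (.cons (.br (nat_lit 1) (.cons (.rel (nat_lit 84952128)) (.cons (.rel (nat_lit 83951952)) .nil))) .nil)) .leaf) (nat_lit 11548296368096669) (.br (nat_lit 0) (.cons (.br (nat_lit 1) (.cons (.rel (nat_lit 20993280))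 (.cons (.rel (nat_lit 25165842)) .nil))) .nil)) (.node .leaf (nat_lit 11548296368108297) (.br (nat_lit 0) (.cons (.br (nat_lit 1) (.cons (.rel (nat_lit 21497856)) .nil)) .nil)) .leaf)) (nat_lit 11548296368108306) (.br (nat_lit 1) (.cons (.br (nat_lit 4) (.cons (.rel (nat_lit 1090520160)) .nil)) .nil)) (.node (.node .leaf (nat_lit 11548296368207928) (.br (nat_lit 3) (.cons (.br (nat_lit 4) (.cons (.rel (nat_lit 1342440480)) .nil)) .nil)) .leaf) (nat_lit 11548296368209124) (.br (nat_lit 3) (.cons (.br (nat_lit 5) (.cons (.rel (nat_lit 4563468816)) .nil)) .nil)) (.node .leaf (nat_lit 11548296368209379) (.br (nat_lit 4) (.cons (.br (nat_lit 5) (.cons (.rel (nat_lit 5368987776)) .nil)) .nil)) .leaf))) (nat_lit 11548296368865906) (.br (nat_lit 2) (.cons (.br (nat_lit 5) (.cons (.rel (nat_lit 8657047809)) (.cons (.rel (nat_lit 4362108960)) .nil))) .nil)) (.node (.node (.node (.node .leaf (nat_lit 11548296368904199) (.br (nat_lit 1) (.cons (.br (nat_lit 4) (.cons (.rel (nat_lit 1090520160))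 .nil)) .nil)) .leaf) (nat_lit 11548296368904978) (.br (nat_lit 4) (.cons (.br (nat_lit 0) (.cons (.rel (nat_lit 1077938244)) (.cons (.rel (nat_lit 1077937233)) (.cons (.rel (nat_lit 2155876356)) .nil)))) .nil)) .leaf) (nat_lit 11548296368905693) (.br (nat_lit 0) (.cons (.br (nat_lit 3) (.cons (.rel (nat_lit 272633877)) .nil)) .nil)) (.node .leaf (nat_lit 11548296368923410) (.br (nat_lit 4) (.cons (.br (nat_lit 6) (.cons (.rel (nat_lit 35433484308)) (.cons (.br (nat_lit 5) (.cons (.rel (nat_lit 21475889412)) (.cons (.rel (nat_lit 6442516548)) (.cons (.rel (nat_lit 21475098756)) (.cons (.rel (nat_lit 5368972368)) .nil))))) (.cons (.rel (nat_lit 18253897728)) .nil)))) (.cons (.br (nat_lit 6) (.cons (.rel (nat_lit 18253897728)) (.cons (.rel (nat_lit 19327373328)) (.cons (.rel (nat_lit 18253897728)) .nil)))) .nil))) .leaf)) (nat_lit 11548296368924131) (.br (nat_lit 4) (.cons (.br (nat_lit 6) (.cons (.rel (nat_lit 18253874178)) .nil)) .nil)) (.node (.node .leaf (nat_lit 11548296369119989)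 (.br (nat_lit 4) (.cons (.br (nat_lit 5) (.cons (.rel (nat_lit 5368972368)) (.cons (.rel (nat_lit 5370283008)) .nil))) .nil)) .leaf) (nat_lit 11548296369120487) (.br (nat_lit 0) (.cons (.br (nat_lit 3) (.cons (.rel (nat_lit 272631936)) .nil)) .nil)) (.node .leaf (nat_lit 11548296369387825) (.br (nat_lit 2) (.cons (.br (nat_lit 4) (.cons (.rel (nat_lit 1140918336)) .nil)) .nil)) .leaf)))) (nat_lit 11548296369465350) (.br (nat_lit 6) (.cons (.br (nat_lit 4) (.cons (.rel (nat_lit 18253616640)) (.cons (.rel (nat_lit 18254004288)) .nil))) .nil)) (.node (.node (.node (.node (.node .leaf (nat_lit 11548296369478418) (.br (nat_lit 4) (.cons (.br (nat_lit 5) (.cons (.rel (nat_lit 9663709185)) (.cons (.rel (nat_lit 5368987776)) .nil))) (.cons (.br (nat_lit 5) (.cons (.rel (nat_lit 6442456065)) (.cons (.rel (nat_lit 5368972368)) .nil))) .nil))) .leaf) (nat_lit 11548296369479189) (.br (nat_lit 6) (.cons (.br (nat_lit 2) (.cons (.rel (nat_lit 17247110208)) (.cons (.rel (nat_lit 17246978085))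 .nil))) .nil)) .leaf) (nat_lit 11548296370142621) (.br (nat_lit 2) (.cons (.br (nat_lit 4) (.cons (.rel (nat_lit 1140918336)) .nil)) .nil)) (.node .leaf (nat_lit 11548296370142735) (.br (nat_lit 3) (.cons (.br (nat_lit 4) (.cons (.rel (nat_lit 1343766528)) (.cons (.rel (nat_lit 1611988992)) .nil))) (.cons (.br (nat_lit 4) (.cons (.rel (nat_lit 1342440480)) (.cons (.rel (nat_lit 1610618880)) .nil))) .nil))) .leaf)) (nat_lit 11548296370245644) (.br (nat_lit 1) (.cons (.br (nat_lit 5) (.cons (.rel (nat_lit 8606712129)) (.cons (.rel (nat_lit 4312039680)) .nil))) (.cons (.br (nat_lit 5) (.cons (.rel (nat_lit 4330618944)) (.cons (.rel (nat_lit 4329570561)) .nil))) .nil))) (.node (.node .leaf (nat_lit 11548296370245693) (.br (nat_lit 2) (.cons (.br (nat_lit 0) (.cons (.rel (nat_lit 71827524)) (.cons (.rel (nat_lit 138412176)) .nil))) .nil)) .leaf) (nat_lit 11548296370247132) (.br (nat_lit 1) (.cons (.br (nat_lit 3) (.cons (.rel (nat_lit 302252160)) (.cons (.rel (nat_lit 285477120))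 .nil))) .nil)) (.node .leaf (nat_lit 11548296370412306) (.br (nat_lit 4) (.cons (.br (nat_lit 5) (.cons (.rel (nat_lit 5368973382)) .nil)) .nil)) .leaf))) (nat_lit 11548296370493447) (.br (nat_lit 3) (.cons (.br (nat_lit 0) (.cons (.rel (nat_lit 272631936)) (.cons (.rel (nat_lit 272631936)) .nil))) .nil)) (.node (.node (.node .leaf (nat_lit 11548296370494226) (.br (nat_lit 6) (.cons (.br (nat_lit 4) (.cons (.rel (nat_lit 18254661894)) (.cons (.rel (nat_lit 19327373328)) .nil))) .nil)) .leaf) (nat_lit 11548296370500870) (.br (nat_lit 4) (.cons (.br (nat_lit 2) (.cons (.rel (nat_lit 1140851841)) (.cons (.rel (nat_lit 1140918336)) .nil))) .nil)) (.node .leaf (nat_lit 11548297283281676) (.br (nat_lit 2) (.cons (.br (nat_lit 3) (.cons (.rel (nat_lit 336872448)) .nil)) .nil)) .leaf)) (nat_lit 11548297283282182) (.br (nat_lit 6) (.cons (.br (nat_lit 0) (.cons (.rel (nat_lit 17188536324)) (.cons (.rel (nat_lit 17185112580)) .nil))) .nil)) (.node (.node .leaf (nat_lit 11548297284604684)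 (.br (nat_lit 0) (.cons (.br (nat_lit 1) (.cons (.rel (nat_lit 22052928)) .nil)) .nil)) .leaf) (nat_lit 11552350817222842) (.br (nat_lit 0) (.cons (.br (nat_lit 1) (.cons (.rel (nat_lit 20993280)) .nil)) .nil)) (.node .leaf (nat_lit 11552350818290450) (.br (nat_lit 1) (.cons (.br (nat_lit 3) (.cons (.rel (nat_lit 285344784)) .nil)) .nil)) .leaf))))))

/-- refutations 25 -/
def e25 : EX := (.node (.node (.node (.node (.node (.node .leaf (nat_lit 11558547792333602) (.br (nat_lit 0) (.cons (.br (nat_lit 1) (.cons (.rel (nat_lit 22024197)) .nil)) .nil)) .leaf) (nat_lit 11558547793619121) (.br (nat_lit 0) (.cons (.br (nat_lit 2) (.cons (.rel (nat_lit 72417408)) .nil)) .nil)) (.node .leaf (nat_lit 11559157677288111) (.br (nat_lit 0) (.cons (.br (nat_lit 1) (.cons (.rel (nat_lit 25166853)) .nil)) .nil)) .leaf)) (nat_lit 11559157677288184) (.br (nat_lit 0) (.cons (.br (nat_lit 2) (.cons (.rel (nat_lit 71827524)) .nil)) .nil)) (.node (.node .leaf (nat_lit 11559157677288956) (.br (nat_lit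 2) (.cons (.br (nat_lit 4) (.cons (.rel (nat_lit 2215117824)) .nil)) .nil)) .leaf) (nat_lit 11559157677485417) (.br (nat_lit 0) (.cons (.br (nat_lit 1) (.cons (.rel (nat_lit 42206208)) .nil)) .nil)) .leaf)) (nat_lit 11559157677688867) (.br (nat_lit 1) (.cons (.br (nat_lit 3) (.cons (.rel (nat_lit 304087056)) .nil)) .nil)) (.node (.node (.node .leaf (nat_lit 11559157677690217) (.br (nat_lit 1) (.cons (.br (nat_lit 0) (.cons (.rel (nat_lit 21497856)) (.cons (.rel (nat_lit 37748769)) (.cons (.rel (nat_lit 25165842)) .nil)))) (.cons (.br (nat_lit 0) (.cons (.rel (nat_lit 20971860)) (.cons (.rel (nat_lit 21497856)) (.cons (.rel (nat_lit 21497856)) .nil)))) .nil))) .leaf) (nat_lit 11559157678503942) (.br (nat_lit 0) (.cons (.br (nat_lit 1) (.cons (.rel (nat_lit 21004545)) .nil)) .nil)) (.node .leaf (nat_lit 11559157678504867) (.br (nat_lit 0) (.cons (.br (nat_lit 3) (.cons (.rel (nat_lit 545260608)) .nil)) .nil)) .leaf)) (nat_lit 11559157678518452) (.br (nat_lit 0) (.cons (.br (nat_lit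 1) (.cons (.rel (nat_lit 37748769)) .nil)) .nil)) (.node (.node .leaf (nat_lit 11559157678519784) (.br (nat_lit 4) (.cons (.br (nat_lit 5) (.cons (.rel (nat_lit 5368709640)) .nil)) .nil)) .leaf) (nat_lit 11559157679082884) (.br (nat_lit 3) (.cons (.br (nat_lit 6) (.cons (.rel (nat_lit 17448307200)) (.cons (.rel (nat_lit 17717002560)) .nil))) .nil)) .leaf))) (nat_lit 11559157680085027) (.br (nat_lit 4) (.cons (.br (nat_lit 0) (.cons (.rel (nat_lit 2155876356)) (.cons (.rel (nat_lit 1077941376)) .nil))) .nil)) (.node (.node (.node (.node .leaf (nat_lit 11559157680085154) (.br (nat_lit 0) (.cons (.br (nat_lit 5) (.cons (.rel (nat_lit 4299162633)) .nil)) .nil)) .leaf) (nat_lit 11559157680093366) (.br (nat_lit 1) (.cons (.br (nat_lit 4) (.cons (.rel (nat_lit 1090528257)) (.cons (.rel (nat_lit 2181055488)) .nil))) .nil)) (.node .leaf (nat_lit 11559157680094716) (.br (nat_lit 4) (.cons (.br (nat_lit 5) (.cons (.rel (nat_lit 6442467330)) .nil)) .nil)) .leaf)) (nat_lit 11559157680338979)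 (.br (nat_lit 1) (.cons (.br (nat_lit 0) (.cons (.rel (nat_lit 42206208)) (.cons (.rel (nat_lit 39063552)) .nil))) .nil)) (.node (.node .leaf (nat_lit 11559157680340356) (.br (nat_lit 6) (.cons (.br (nat_lit 0) (.cons (.rel (nat_lit 17184069633)) (.cons (.rel (nat_lit 17184069633)) (.cons (.rel (nat_lit 17184327936)) .nil)))) .nil)) .leaf) (nat_lit 11559160429152438) (.br (nat_lit 0) (.cons (.br (nat_lit 3) (.cons (.rel (nat_lit 545260608)) .nil)) .nil)) .leaf)) (nat_lit 11560489117149439) (.br (nat_lit 0) (.cons (.br (nat_lit 4) (.cons (.rel (nat_lit 1079001600)) .nil)) .nil)) (.node (.node (.node .leaf (nat_lit 11560489117332892) (.br (nat_lit 0) (.cons (.br (nat_lit 1) (.cons (.rel (nat_lit 21004545)) .nil)) .nil)) .leaf) (nat_lit 11560489117551403) (.br (nat_lit 0) (.cons (.br (nat_lit 1) (.cons (.rel (nat_lit 21497856)) (.cons (.rel (nat_lit 25236480)) .nil))) .nil)) .leaf) (nat_lit 11560489117552028) (.br (nat_lit 0) (.cons (.br (nat_lit 6) (.cons (.rel (nat_lit 17184067620))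 (.cons (.rel (nat_lit 17184069633)) .nil))) .nil)) (.node (.node .leaf (nat_lit 11560489117588243) (.br (nat_lit 6) (.cons (.br (nat_lit 1) (.cons (.rel (nat_lit 17196663825)) (.cons (.rel (nat_lit 17196650502)) .nil))) .nil)) .leaf) (nat_lit 11560489118380212) (.br (nat_lit 0) (.cons (.br (nat_lit 1) (.cons (.rel (nat_lit 21004545)) .nil)) .nil)) .leaf)))) (nat_lit 11560489118380912) (.br (nat_lit 0) (.cons (.br (nat_lit 1) (.cons (.rel (nat_lit 20971860)) .nil)) .nil)) (.node (.node (.node (.node (.node .leaf (nat_lit 11560489118381468) (.br (nat_lit 0) (.cons (.br (nat_lit 4) (.cons (.rel (nat_lit 1078329600)) .nil)) .nil)) .leaf) (nat_lit 11560489118570558) (.br (nat_lit 3) (.cons (.br (nat_lit 0) (.cons (.rel (nat_lit 545260608)) (.cons (.rel (nat_lit 272633877)) .nil))) .nil)) (.node .leaf (nat_lit 11560489118571932) (.br (nat_lit 0) (.cons (.br (nat_lit 3) (.cons (.rel (nat_lit 542117952)) (.cons (.rel (nat_lit 272631936)) .nil))) .nil)) .leaf)) (nat_lit 11560489119596606)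 (.br (nat_lit 1) (.cons (.br (nat_lit 3) (.cons (.rel (nat_lit 285218817)) (.cons (.rel (nat_lit 285230082)) .nil))) .nil)) (.node (.node .leaf (nat_lit 11560489119596799) (.br (nat_lit 0) (.cons (.br (nat_lit 2) (.cons (.rel (nat_lit 71827524)) (.cons (.rel (nat_lit 72388608)) .nil))) .nil)) .leaf) (nat_lit 11560489119597956) (.br (nat_lit 0) (.cons (.br (nat_lit 1) (.cons (.rel (nat_lit 22024197)) .nil)) .nil)) .leaf)) (nat_lit 11560489119701779) (.br (nat_lit 2) (.cons (.br (nat_lit 4) (.cons (.rel (nat_lit 1140871248)) .nil)) .nil)) (.node (.node (.node .leaf (nat_lit 11560489119702377) (.br (nat_lit 0) (.cons (.br (nat_lit 4) (.cons (.rel (nat_lit 1082425344)) .nil)) .nil)) .leaf) (nat_lit 11560489119955126) (.br (nat_lit 1) (.cons (.br (nat_lit 0) (.cons (.rel (nat_lit 20971860)) (.cons (.rel (nat_lit 20971860)) (.cons (.rel (nat_lit 25236480)) .nil)))) .nil)) (.node .leaf (nat_lit 11560492418469276) (.br (nat_lit 3) (.cons (.br (nat_lit 5) (.cons (.rel (nat_lit 8858374146))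 (.cons (.rel (nat_lit 8858374146)) .nil))) .nil)) .leaf)) (nat_lit 11563873551781276) (.br (nat_lit 0) (.cons (.br (nat_lit 3) (.cons (.rel (nat_lit 272695362)) .nil)) .nil)) (.node (.node .leaf (nat_lit 11563873554176186) (.br (nat_lit 0) (.cons (.br (nat_lit 3) (.cons (.rel (nat_lit 272647200)) .nil)) .nil)) .leaf) (nat_lit 11563873554382236) (.br (nat_lit 0) (.cons (.br (nat_lit 3) (.cons (.rel (nat_lit 272631936)) .nil)) .nil)) .leaf))) (nat_lit 11564608964267420) (.br (nat_lit 1) (.cons (.br (nat_lit 2) (.cons (.rel (nat_lit 83951952)) .nil)) .nil)) (.node (.node (.node (.node .leaf (nat_lit 11565892401380115) (.br (nat_lit 0) (.cons (.br (nat_lit 4) (.cons (.rel (nat_lit 1077938244)) .nil)) .nil)) .leaf) (nat_lit 11565892401380228) (.br (nat_lit 0) (.cons (.br (nat_lit 3) (.cons (.rel (nat_lit 272761857)) .nil)) .nil)) (.node .leaf (nat_lit 11565892402920976) (.br (nat_lit 0) (.cons (.br (nat_lit 1) (.cons (.rel (nat_lit 37749780)) .nil)) .nil)) .leaf)) (nat_lit 11565894940186930)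 (.br (nat_lit 3) (.cons (.br (nat_lit 5) (.cons (.rel (nat_lit 4563403332)) .nil)) .nil)) (.node (.node .leaf (nat_lit 11569963815187868) (.br (nat_lit 0) (.cons (.br (nat_lit 1) (.cons (.rel (nat_lit 22093824)) .nil)) .nil)) .leaf) (nat_lit 11569963815407004) (.br (nat_lit 3) (.cons (.br (nat_lit 6) (.cons (.rel (nat_lit 34628178000)) (.cons (.br (nat_lit 1) (.cons (.rel (nat_lit 17196777480)) (.cons (.rel (nat_lit 34376778240)) .nil))) (.cons (.rel (nat_lit 34896610560)) .nil)))) .nil)) .leaf)) (nat_lit 11569963816426908) (.br (nat_lit 3) (.cons (.br (nat_lit 5) (.cons (.rel (nat_lit 8858632449)) .nil)) .nil)) (.node (.node (.node .leaf (nat_lit 11569963816799620) (.br (nat_lit 0) (.cons (.br (nat_lit 1) (.cons (.rel (nat_lit 25236480)) .nil)) .nil)) .leaf) (nat_lit 11569963817810102) (.br (nat_lit 6) (.cons (.br (nat_lit 0) (.cons (.rel (nat_lit 17184080898)) (.cons (.rel (nat_lit 17184063621)) .nil))) .nil)) .leaf) (nat_lit 11569963818007315) (.br (nat_lit 1) (.cons (.br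 (nat_lit 4) (.cons (.rel (nat_lit 2164262160)) .nil)) .nil)) (.node (.node .leaf (nat_lit 11569963818007964) (.br (nat_lit 3) (.cons (.br (nat_lit 2) (.cons (.rel (nat_lit 335545353)) (.cons (.rel (nat_lit 671105088)) .nil))) .nil)) .leaf) (nat_lit 11569967116324252) (.br (nat_lit 0) (.cons (.br (nat_lit 2) (.cons (.rel (nat_lit 75497568)) .nil)) .nil)) .leaf)))))

/-- refutations 26 -/
def e26 : EX := (.node (.node (.node (.node (.node (.node .leaf (nat_lit 11613296792806051) (.br (nat_lit 0) (.cons (.br (nat_lit 1) (.cons (.rel (nat_lit 20971860)) .nil)) .nil)) .leaf) (nat_lit 11618665398600555) (.br (nat_lit 3) (.cons (.br (nat_lit 5) (.cons (.rel (nat_lit 4563468816)) .nil)) .nil)) .leaf) (nat_lit 11628925126453260) (.br (nat_lit 4) (.cons (.br (nat_lit 5) (.cons (.rel (nat_lit 5368972368)) .nil)) .nil)) (.node .leaf (nat_lit 11628928383638289) (.br (nat_lit 1) (.cons (.br (nat_lit 3) (.cons (.rel (nat_lit 285360192)) .nil)) .nil)) .leaf)) (nat_lit 11630861163475600) (.br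 (nat_lit 0) (.cons (.br (nat_lit 1) (.cons (.rel (nat_lit 25247745)) .nil)) .nil)) (.node (.node (.node .leaf (nat_lit 11630892221042939) (.br (nat_lit 0) (.cons (.br (nat_lit 5) (.cons (.rel (nat_lit 4299161622)) .nil)) .nil)) .leaf) (nat_lit 11630892221043320) (.br (nat_lit 1) (.cons (.br (nat_lit 2) (.cons (.rel (nat_lit 84443136)) .nil)) .nil)) .leaf) (nat_lit 11630892221043375) (.br (nat_lit 0) (.cons (.br (nat_lit 1) (.cons (.rel (nat_lit 21497856)) .nil)) .nil)) (.node .leaf (nat_lit 11630892221475696) (.br (nat_lit 1) (.cons (.br (nat_lit 4) (.cons (.rel (nat_lit 1090535568)) .nil)) .nil)) .leaf))) (nat_lit 11630892222275072) (.br (nat_lit 0) (.cons (.br (nat_lit 5) (.cons (.rel (nat_lit 4299163680)) .nil)) .nil)) (.node (.node (.node (.node .leaf (nat_lit 11630892222296226) (.br (nat_lit 0) (.cons (.br (nat_lit 2) (.cons (.rel (nat_lit 138543108)) .nil)) .nil)) .leaf) (nat_lit 11630892222297576) (.br (nat_lit 0) (.cons (.br (nat_lit 5) (.cons (.rel (nat_lit 8598339648))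 .nil)) .nil)) .leaf) (nat_lit 11630892222297620) (.br (nat_lit 0) (.cons (.br (nat_lit 5) (.cons (.rel (nat_lit 8595181584)) .nil)) .nil)) (.node .leaf (nat_lit 11630892223759892) (.br (nat_lit 0) (.cons (.br (nat_lit 1) (.cons (.rel (nat_lit 39063552)) .nil)) .nil)) .leaf)) (nat_lit 11630892223874579) (.br (nat_lit 0) (.cons (.br (nat_lit 1) (.cons (.rel (nat_lit 20971860)) .nil)) .nil)) (.node (.node (.node .leaf (nat_lit 11630892223880429) (.br (nat_lit 0) (.cons (.br (nat_lit 2) (.cons (.rel (nat_lit 71369025)) .nil)) .nil)) .leaf) (nat_lit 11630892223880593) (.br (nat_lit 3) (.cons (.br (nat_lit 4) (.cons (.rel (nat_lit 1342439433)) .nil)) .nil)) .leaf) (nat_lit 11630892223880680) (.br (nat_lit 0) (.cons (.br (nat_lit 5) (.cons (.rel (nat_lit 4299232260)) .nil)) .nil)) (.node .leaf (nat_lit 11630895478660497) (.br (nat_lit 0) (.cons (.br (nat_lit 2) (.cons (.rel (nat_lit 72388608)) .nil)) .nil)) .leaf)))) (nat_lit 11630897157739128) (.br (nat_lit 0) (.cons (.br (nat_lit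 2) (.cons (.rel (nat_lit 73402944)) .nil)) .nil)) (.node (.node (.node (.node (.node .leaf (nat_lit 11630897157761700) (.br (nat_lit 0) (.cons (.br (nat_lit 2) (.cons (.rel (nat_lit 71307540)) .nil)) .nil)) .leaf) (nat_lit 11630897158016481) (.br (nat_lit 4) (.cons (.br (nat_lit 2) (.cons (.rel (nat_lit 1140851841)) (.cons (.rel (nat_lit 1140851841)) .nil))) .nil)) .leaf) (nat_lit 11630897158170635) (.br (nat_lit 3) (.cons (.br (nat_lit 6) (.cons (.rel (nat_lit 17448307200)) .nil)) .nil)) (.node .leaf (nat_lit 11630897158170786) (.br (nat_lit 1) (.cons (.br (nat_lit 0) (.cons (.rel (nat_lit 20993280)) (.cons (.rel (nat_lit 42206208)) .nil))) .nil)) .leaf)) (nat_lit 11630897158171504) (.br (nat_lit 0) (.cons (.br (nat_lit 1) (.cons (.rel (nat_lit 20993280)) (.cons (.rel (nat_lit 25166853)) .nil))) (.cons (.br (nat_lit 4) (.cons (.rel (nat_lit 1077937233)) (.cons (.rel (nat_lit 1077937233)) .nil))) .nil))) (.node (.node (.node .leaf (nat_lit 11630897158172129) (.br (nat_lit 0)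 (.cons (.br (nat_lit 2) (.cons (.rel (nat_lit 71435520)) .nil)) .nil)) .leaf) (nat_lit 11630897158992528) (.br (nat_lit 0) (.cons (.br (nat_lit 3) (.cons (.rel (nat_lit 277348608)) .nil)) .nil)) .leaf) (nat_lit 11630897158992752) (.br (nat_lit 0) (.cons (.br (nat_lit 1) (.cons (.rel (nat_lit 37752912)) (.cons (.rel (nat_lit 21497856)) .nil))) (.cons (.br (nat_lit 1) (.cons (.rel (nat_lit 20993280)) (.cons (.rel (nat_lit 21497856)) .nil))) .nil))) (.node .leaf (nat_lit 11630897158993133) (.br (nat_lit 5) (.cons (.br (nat_lit 6) (.cons (.rel (nat_lit 21475116033)) .nil)) .nil)) .leaf))) (nat_lit 11630897158993384) (.br (nat_lit 0) (.cons (.br (nat_lit 2) (.cons (.rel (nat_lit 71435520)) (.cons (.rel (nat_lit 138412176)) .nil))) .nil)) (.node (.node (.node (.node .leaf (nat_lit 11630897159175649) (.br (nat_lit 1) (.cons (.br (nat_lit 3) (.cons (.rel (nat_lit 285216804)) .nil)) .nil)) .leaf) (nat_lit 11630897160455680) (.br (nat_lit 1) (.cons (.br (nat_lit 2) (.cons (.rel (nat_lit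 84934662)) .nil)) .nil)) .leaf) (nat_lit 11630897160568864) (.br (nat_lit 0) (.cons (.br (nat_lit 4) (.cons (.rel (nat_lit 2155876356)) .nil)) .nil)) (.node .leaf (nat_lit 11630897160574988) (.br (nat_lit 3) (.cons (.br (nat_lit 4) (.cons (.rel (nat_lit 1342440480)) .nil)) .nil)) .leaf)) (nat_lit 11630897160575887) (.br (nat_lit 4) (.cons (.br (nat_lit 5) (.cons (.rel (nat_lit 5370822672)) .nil)) .nil)) (.node (.node .leaf (nat_lit 11630897160576488) (.br (nat_lit 2) (.cons (.br (nat_lit 3) (.cons (.rel (nat_lit 403702080)) .nil)) .nil)) .leaf) (nat_lit 11630897192547565) (.br (nat_lit 0) (.cons (.br (nat_lit 1) (.cons (.rel (nat_lit 20971860)) .nil)) .nil)) (.node .leaf (nat_lit 11640301472231586) (.br (nat_lit 0) (.cons (.br (nat_lit 1) (.cons (.rel (nat_lit 25166853)) .nil)) .nil)) .leaf)))))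

/-- refutations 27 -/
def e27 : EX := (.node (.node (.node .leaf (nat_lit 11647121904644873) (.br (nat_lit 1) (.cons (.br (nat_lit 3) (.cons (.rel (nat_lit 570445824)) (.cons (.rel (nat_lit 285282432)) .nil))) .nil)) .leaf) (nat_lit 11647121905750793) (.br (nat_lit 4) (.cons (.br (nat_lit 6) (.cons (.rel (nat_lit 19327353921)) .nil)) .nil)) .leaf) (nat_lit 12003677939479184) (.br (nat_lit 0) (.cons (.br (nat_lit 2) (.cons (.rel (nat_lit 75505665)) .nil)) .nil)) (.node (.node .leaf (nat_lit 12005496173124891) (.br (nat_lit 3) (.cons (.br (nat_lit 4) (.cons (.rel (nat_lit 2415984660)) .nil)) .nil)) .leaf) (nat_lit 12010990985304716) (.br (nat_lit 3) (.cons (.br (nat_lit 6) (.cons (.rel (nat_lit 17716740114)) .nil)) .nil)) .leaf))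

/-- refutations 28 -/
def e28 : EX := (.node (.node (.node (.node (.node (.node .leaf (nat_lit 12051738886418432) (.br (nat_lit 0) (.cons (.br (nat_lit 1) (.cons (.rel (nat_lit 20993280)) .nil)) .nil)) .leaf) (nat_lit 12051738886419064) (.br (nat_lit 0) (.cons (.br (nat_lit 2) (.cons (.rel (nat_lit 71319816)) .nil)) .nil)) .leaf) (nat_lit 12051738886714869) (.br (nat_lit 0) (.cons (.br (nat_lit 1) (.cons (.rel (nat_lit 42206208)) .nil)) .nil)) (.node .leaf (nat_lit 12051738886989824) (.br (nat_lit 0) (.cons (.br (nat_lit 1) (.cons (.rel (nat_lit 20971860)) .nil)) .nil)) .leaf)) (nat_lit 12051738886989975) (.br (nat_lit 0) (.cons (.br (nat_lit 4) (.cons (.rel (nat_lit 1077941376)) .nil)) .nil)) (.node (.node (.node .leaf (nat_lit 12051738886990624) (.br (nat_lit 0) (.cons (.br (nat_lit 1) (.cons (.rel (nat_lit 20993280)) .nil)) .nil)) .leaf) (nat_lit 12051738886991085) (.br (nat_lit 0) (.cons (.br (nat_lit 1) (.cons (.rel (nat_lit 20993280)) .nil)) .nil)) .leaf) (nat_lit 12051738886991360)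 (.br (nat_lit 1) (.cons (.br (nat_lit 6) (.cons (.rel (nat_lit 17196777480)) (.cons (.rel (nat_lit 17196652560)) .nil))) .nil)) (.node .leaf (nat_lit 12051738887790104) (.br (nat_lit 0) (.cons (.br (nat_lit 5) (.cons (.rel (nat_lit 8598324240)) .nil)) .nil)) .leaf))) (nat_lit 12051738887993379) (.br (nat_lit 0) (.cons (.br (nat_lit 1) (.cons (.rel (nat_lit 21004545)) .nil)) .nil)) (.node (.node (.node (.node .leaf (nat_lit 12051738888056832) (.br (nat_lit 5) (.cons (.br (nat_lit 6) (.cons (.rel (nat_lit 21476474880)) .nil)) .nil)) .leaf) (nat_lit 12051738888198944) (.br (nat_lit 3) (.cons (.br (nat_lit 4) (.cons (.rel (nat_lit 1343227137)) .nil)) .nil)) .leaf) (nat_lit 12051738889273379) (.br (nat_lit 2) (.cons (.br (nat_lit 4) (.cons (.rel (nat_lit 1140854793)) .nil)) .nil)) (.node .leaf (nat_lit 12051738889273495) (.br (nat_lit 4) (.cons (.br (nat_lit 0) (.cons (.rel (nat_lit 2155876356)) (.cons (.rel (nat_lit 1077938244)) .nil))) .nil)) .leaf)) (nat_lit 12051738889337632)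 (.br (nat_lit 1) (.cons (.br (nat_lit 3) (.cons (.rel (nat_lit 285229080)) .nil)) .nil)) (.node (.node (.node .leaf (nat_lit 12051738889583224) (.br (nat_lit 0) (.cons (.br (nat_lit 1) (.cons (.rel (nat_lit 20993280)) .nil)) .nil)) .leaf) (nat_lit 12051739667131629) (.br (nat_lit 0) (.cons (.br (nat_lit 1) (.cons (.rel (nat_lit 20993280)) .nil)) .nil)) .leaf) (nat_lit 12051739668198176) (.br (nat_lit 0) (.cons (.br (nat_lit 1) (.cons (.rel (nat_lit 20993280)) .nil)) .nil)) (.node .leaf (nat_lit 12051739668339344) (.br (nat_lit 0) (.cons (.br (nat_lit 1) (.cons (.rel (nat_lit 21037344)) .nil)) .nil)) .leaf)))) (nat_lit 12056074027330293) (.br (nat_lit 0) (.cons (.br (nat_lit 2) (.cons (.rel (nat_lit 71369025)) (.cons (.rel (nat_lit 72353793)) .nil))) .nil)) (.node (.node (.node (.node (.node .leaf (nat_lit 12056074028133152) (.br (nat_lit 4) (.cons (.br (nat_lit 0) (.cons (.rel (nat_lit 1078001670)) (.cons (.rel (nat_lit 1082425344)) .nil))) .nil)) .leaf) (nat_lit 12056317324411680)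 (.br (nat_lit 1) (.cons (.br (nat_lit 2) (.cons (.rel (nat_lit 168050688)) .nil)) .nil)) .leaf) (nat_lit 12056322776720785) (.br (nat_lit 0) (.cons (.br (nat_lit 1) (.cons (.rel (nat_lit 21004545)) .nil)) .nil)) (.node .leaf (nat_lit 12057141955276800) (.br (nat_lit 0) (.cons (.br (nat_lit 1) (.cons (.rel (nat_lit 25165842)) (.cons (.rel (nat_lit 42206208)) .nil))) .nil)) .leaf)) (nat_lit 12057141955277432) (.br (nat_lit 0) (.cons (.br (nat_lit 2) (.cons (.rel (nat_lit 72351780)) .nil)) .nil)) (.node (.node (.node .leaf (nat_lit 12057141955277600) (.br (nat_lit 1) (.cons (.br (nat_lit 2) (.cons (.rel (nat_lit 84952128)) .nil)) .nil)) .leaf) (nat_lit 12057141955848378) (.br (nat_lit 0) (.cons (.br (nat_lit 1) (.cons (.rel (nat_lit 20993280)) .nil)) .nil)) .leaf) (nat_lit 12057141955849624) (.br (nat_lit 0) (.cons (.br (nat_lit 1) (.cons (.rel (nat_lit 42206208)) .nil)) .nil)) (.node .leaf (nat_lit 12057141956915200) (.br (nat_lit 0) (.cons (.br (nat_lit 2) (.cons (.rel (nat_lit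 71307540)) .nil)) .nil)) .leaf))) (nat_lit 12057142616701728) (.br (nat_lit 0) (.cons (.br (nat_lit 1) (.cons (.rel (nat_lit 42206208)) .nil)) .nil)) (.node (.node (.node (.node .leaf (nat_lit 12057176316654368) (.br (nat_lit 1) (.cons (.br (nat_lit 3) (.cons (.rel (nat_lit 285253632)) .nil)) .nil)) .leaf) (nat_lit 12057176317870880) (.br (nat_lit 0) (.cons (.br (nat_lit 2) (.cons (.rel (nat_lit 75497568)) .nil)) .nil)) .leaf) (nat_lit 12058611468003328) (.br (nat_lit 0) (.cons (.br (nat_lit 1) (.cons (.rel (nat_lit 21037344)) (.cons (.rel (nat_lit 20971860)) .nil))) .nil)) (.node .leaf (nat_lit 12058611614529013) (.br (nat_lit 0) (.cons (.br (nat_lit 1) (.cons (.rel (nat_lit 20993280)) .nil)) .nil)) .leaf)) (nat_lit 12058611614804768) (.br (nat_lit 0) (.cons (.br (nat_lit 4) (.cons (.rel (nat_lit 1077956640)) .nil)) .nil)) (.node (.node .leaf (nat_lit 12058611614805229) (.br (nat_lit 0) (.cons (.br (nat_lit 3) (.cons (.rel (nat_lit 272638020)) .nil)) .nil)) .leaf) (nat_lit 12058611615830016)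 (.br (nat_lit 1) (.cons (.br (nat_lit 2) (.cons (.rel (nat_lit 168035472)) (.cons (.rel (nat_lit 83951952)) .nil))) .nil)) (.node .leaf (nat_lit 12058611615871776) (.br (nat_lit 0) (.cons (.br (nat_lit 3) (.cons (.rel (nat_lit 272761857)) (.cons (.rel (nat_lit 277348608)) .nil))) .nil)) .leaf)))))

/-- refutations 29 -/
def e29 : EX := (.node (.node (.node .leaf (nat_lit 13234745458664099) (.br (nat_lit 1) (.cons (.br (nat_lit 2) (.cons (.rel (nat_lit 83892480)) .nil)) .nil)) .leaf) (nat_lit 13234999271619235) (.br (nat_lit 0) (.cons (.br (nat_lit 1) (.cons (.rel (nat_lit 20971860)) .nil)) .nil)) (.node .leaf (nat_lit 13236219370644131) (.br (nat_lit 0) (.cons (.br (nat_lit 5) (.cons (.rel (nat_lit 8594653185)) (.cons (.rel (nat_lit 4299165765)) .nil))) .nil)) .leaf)) (nat_lit 13372477998170987) (.br (nat_lit 2) (.cons (.br (nat_lit 4) (.cons (.rel (nat_lit 2281766913)) .nil)) .nil)) (.node (.node .leaf (nat_lit 13372481189938027) (.br (nat_lit 0) (.cons (.br (nat_lit 2) (.cons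 (.rel (nat_lit 71307540)) .nil)) .nil)) .leaf) (nat_lit 13381077071037827) (.br (nat_lit 0) (.cons (.br (nat_lit 1) (.cons (.rel (nat_lit 37748769)) .nil)) .nil)) .leaf))

/-- refutations 30 -/
def e30 : EX := (.node (.node (.node (.node (.node (.node .leaf (nat_lit 13387748593494178) (.br (nat_lit 0) (.cons (.br (nat_lit 5) (.cons (.rel (nat_lit 8594137344)) .nil)) .nil)) .leaf) (nat_lit 13387748593494642) (.br (nat_lit 3) (.cons (.br (nat_lit 6) (.cons (.rel (nat_lit 17448599553)) .nil)) .nil)) (.node .leaf (nat_lit 13387748593494772) (.br (nat_lit 1) (.cons (.br (nat_lit 6) (.cons (.rel (nat_lit 17196777480)) .nil)) .nil)) .leaf)) (nat_lit 13387748593676439) (.br (nat_lit 0) (.cons (.br (nat_lit 2) (.cons (.rel (nat_lit 75563016)) .nil)) .nil)) (.node (.node .leaf (nat_lit 13387748593676940) (.br (nat_lit 0) (.cons (.br (nat_lit 2) (.cons (.rel (nat_lit 71369025)) .nil)) .nil)) .leaf) (nat_lit 13387748593677569) (.br (nat_lit 0) (.cons (.br (nat_lit 6) (.cons (.rel (nat_lit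 17184080898)) (.cons (.rel (nat_lit 17184069633)) (.cons (.rel (nat_lit 34368147456)) .nil)))) .nil)) (.node .leaf (nat_lit 13387748593677813) (.br (nat_lit 1) (.cons (.br (nat_lit 5) (.cons (.rel (nat_lit 8606712129)) (.cons (.rel (nat_lit 8623490049)) .nil))) (.cons (.br (nat_lit 6) (.cons (.rel (nat_lit 17213948160)) (.cons (.rel (nat_lit 34376778240)) .nil))) .nil))) .leaf))) (nat_lit 13387748593883136) (.br (nat_lit 1) (.cons (.br (nat_lit 6) (.cons (.rel (nat_lit 17196650502)) .nil)) .nil)) (.node (.node (.node .leaf (nat_lit 13387748593895486) (.br (nat_lit 0) (.cons (.br (nat_lit 3) (.cons (.rel (nat_lit 545260608)) .nil)) .nil)) .leaf) (nat_lit 13387748593896204) (.br (nat_lit 0) (.cons (.br (nat_lit 1) (.cons (.rel (nat_lit 42206208)) .nil)) .nil)) (.node .leaf (nat_lit 13387748593896211) (.br (nat_lit 0) (.cons (.br (nat_lit 1) (.cons (.rel (nat_lit 21497856)) .nil)) .nil)) .leaf)) (nat_lit 13387748593896860) (.br (nat_lit 1) (.cons (.br (nat_lit 2) (.cons (.rel (nat_lit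 84443136)) .nil)) .nil)) (.node (.node .leaf (nat_lit 13387748594710690) (.br (nat_lit 0) (.cons (.br (nat_lit 5) (.cons (.rel (nat_lit 8598339648)) .nil)) .nil)) .leaf) (nat_lit 13387748595011639) (.br (nat_lit 0) (.cons (.br (nat_lit 1) (.cons (.rel (nat_lit 20993280)) .nil)) .nil)) (.node .leaf (nat_lit 13387748595011764) (.br (nat_lit 0) (.cons (.br (nat_lit 5) (.cons (.rel (nat_lit 4299162633)) .nil)) .nil)) .leaf)))) (nat_lit 13387748595265536) (.br (nat_lit 0) (.cons (.br (nat_lit 4) (.cons (.rel (nat_lit 1077937233)) .nil)) .nil)) (.node (.node (.node (.node .leaf (nat_lit 13387748595288820) (.br (nat_lit 3) (.cons (.br (nat_lit 5) (.cons (.rel (nat_lit 8858370192)) (.cons (.rel (nat_lit 4831846401)) (.cons (.rel (nat_lit 4565569536)) (.cons (.rel (nat_lit 4563796992)) (.cons (.rel (nat_lit 4563796992)) (.cons (.rel (nat_lit 4563403332)) .nil))))))) .nil)) .leaf) (nat_lit 13387748596236563) (.br (nat_lit 0) (.cons (.br (nat_lit 5) (.cons (.rel (nat_lit 4299179088)) .nil))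 .nil)) (.node .leaf (nat_lit 13387748596308119) (.br (nat_lit 0) (.cons (.br (nat_lit 5) (.cons (.rel (nat_lit 4299163680)) (.cons (.rel (nat_lit 8598339648)) .nil))) .nil)) .leaf)) (nat_lit 13387748596308724) (.br (nat_lit 0) (.cons (.br (nat_lit 2) (.cons (.rel (nat_lit 75563016)) .nil)) .nil)) (.node (.node .leaf (nat_lit 13387749373636085) (.br (nat_lit 0) (.cons (.br (nat_lit 2) (.cons (.rel (nat_lit 71827524)) .nil)) .nil)) .leaf) (nat_lit 13387750695022743) (.br (nat_lit 0) (.cons (.br (nat_lit 6) (.cons (.rel (nat_lit 17184129105)) .nil)) .nil)) (.node .leaf (nat_lit 13387750695023244) (.br (nat_lit 0) (.cons (.br (nat_lit 3) (.cons (.rel (nat_lit 272631936)) .nil)) .nil)) .leaf))) (nat_lit 13387750695024117) (.br (nat_lit 0) (.cons (.br (nat_lit 2) (.cons (.rel (nat_lit 75531264)) .nil)) .nil)) (.node (.node (.node .leaf (nat_lit 13387750696253440) (.br (nat_lit 0) (.cons (.br (nat_lit 1) (.cons (.rel (nat_lit 20971860)) .nil)) .nil)) .leaf) (nat_lit 13388745025906874)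 (.br (nat_lit 0) (.cons (.br (nat_lit 1) (.cons (.rel (nat_lit 42206208)) .nil)) .nil)) (.node .leaf (nat_lit 13388745025906990) (.br (nat_lit 0) (.cons (.br (nat_lit 4) (.cons (.rel (nat_lit 1077938244)) .nil)) .nil)) .leaf)) (nat_lit 13388745025908213) (.br (nat_lit 0) (.cons (.br (nat_lit 1) (.cons (.rel (nat_lit 21004545)) .nil)) .nil)) (.node (.node .leaf (nat_lit 13388745026090241) (.br (nat_lit 0) (.cons (.br (nat_lit 1) (.cons (.rel (nat_lit 20993280)) (.cons (.br (nat_lit 6) (.cons (.rel (nat_lit 17196720129)) (.cons (.rel (nat_lit 17184067620)) (.cons (.rel (nat_lit 17184069633)) .nil)))) .nil))) .nil)) .leaf) (nat_lit 13388745026090485) (.br (nat_lit 3) (.cons (.br (nat_lit 5) (.cons (.rel (nat_lit 4563730497)) (.cons (.rel (nat_lit 4563796992)) .nil))) (.cons (.br (nat_lit 5) (.cons (.rel (nat_lit 4565569536)) (.cons (.rel (nat_lit 8858370192)) .nil))) .nil))) (.node .leaf (nat_lit 13388745026308127) (.br (nat_lit 0) (.cons (.br (nat_lit 5) (.cons (.rel (nat_lit 4299161622))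 .nil)) .nil)) .leaf))))) (nat_lit 13388745027123960) (.br (nat_lit 0) (.cons (.br (nat_lit 4) (.cons (.rel (nat_lit 2155876356)) .nil)) .nil)) (.node (.node (.node (.node (.node .leaf (nat_lit 13388745027320568) (.br (nat_lit 0) (.cons (.br (nat_lit 1) (.cons (.rel (nat_lit 37748769)) .nil)) .nil)) .leaf) (nat_lit 13388745027424311) (.br (nat_lit 0) (.cons (.br (nat_lit 4) (.cons (.rel (nat_lit 1077941376)) .nil)) .nil)) (.node .leaf (nat_lit 13388745027424442) (.br (nat_lit 0) (.cons (.br (nat_lit 1) (.cons (.rel (nat_lit 42206208)) .nil)) .nil)) .leaf)) (nat_lit 13388745027700922) (.br (nat_lit 0) (.cons (.br (nat_lit 4) (.cons (.rel (nat_lit 1077956640)) .nil)) .nil)) (.node (.node .leaf (nat_lit 13388745027701648) (.br (nat_lit 1) (.cons (.br (nat_lit 3) (.cons (.rel (nat_lit 285218817)) .nil)) .nil)) .leaf) (nat_lit 13388745028365843) (.br (nat_lit 0) (.cons (.br (nat_lit 3) (.cons (.rel (nat_lit 272633877)) .nil)) .nil)) (.node .leaf (nat_lit 13388745028403235) (.br (nat_lit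 3) (.cons (.br (nat_lit 0) (.cons (.rel (nat_lit 272631936)) (.cons (.rel (nat_lit 272761857)) .nil))) .nil)) .leaf))) (nat_lit 13388745028648960) (.br (nat_lit 5) (.cons (.br (nat_lit 0) (.cons (.rel (nat_lit 4299161622)) (.cons (.rel (nat_lit 8598324240)) .nil))) .nil)) (.node (.node (.node .leaf (nat_lit 13388745028649235) (.br (nat_lit 0) (.cons (.br (nat_lit 5) (.cons (.rel (nat_lit 4299165765)) .nil)) .nil)) .leaf) (nat_lit 13388745028720652) (.br (nat_lit 0) (.cons (.br (nat_lit 2) (.cons (.rel (nat_lit 138412176)) .nil)) .nil)) (.node .leaf (nat_lit 13388745028868282) (.br (nat_lit 1) (.cons (.br (nat_lit 0) (.cons (.rel (nat_lit 21497856)) (.cons (.rel (nat_lit 42206208)) .nil))) .nil)) .leaf)) (nat_lit 13388745028868398) (.br (nat_lit 0) (.cons (.br (nat_lit 5) (.cons (.rel (nat_lit 4299162633)) .nil)) .nil)) (.node (.node .leaf (nat_lit 13388745028874420) (.br (nat_lit 0) (.cons (.br (nat_lit 1) (.cons (.rel (nat_lit 37752912)) .nil)) .nil)) .leaf) (nat_lit 13388745028917248)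 (.br (nat_lit 5) (.cons (.br (nat_lit 6) (.cons (.rel (nat_lit 21475104768)) .nil)) .nil)) (.node .leaf (nat_lit 13388747341164052) (.br (nat_lit 0) (.cons (.br (nat_lit 1) (.cons (.rel (nat_lit 22024197)) .nil)) .nil)) .leaf)))) (nat_lit 13389844537718017) (.br (nat_lit 0) (.cons (.br (nat_lit 6) (.cons (.rel (nat_lit 34363933056)) .nil)) .nil)) (.node (.node (.node (.node .leaf (nat_lit 13393469491449911) (.br (nat_lit 0) (.cons (.br (nat_lit 1) (.cons (.rel (nat_lit 22037520)) .nil)) .nil)) .leaf) (nat_lit 13393474888002162) (.br (nat_lit 1) (.cons (.br (nat_lit 2) (.cons (.rel (nat_lit 83903745)) .nil)) .nil)) (.node .leaf (nat_lit 13393474890815550) (.br (nat_lit 0) (.cons (.br (nat_lit 2) (.cons (.rel (nat_lit 71307540)) .nil)) .nil)) .leaf)) (nat_lit 13394354253196020) (.br (nat_lit 0) (.cons (.br (nat_lit 6) (.cons (.rel (nat_lit 17184069633)) .nil)) .nil)) (.node (.node .leaf (nat_lit 13394354255691811) (.br (nat_lit 2) (.cons (.br (nat_lit 3) (.cons (.rel (nat_lit 671105088))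 .nil)) .nil)) .leaf) (nat_lit 13395475903621746) (.br (nat_lit 0) (.cons (.br (nat_lit 2) (.cons (.rel (nat_lit 71435520)) .nil)) .nil)) (.node .leaf (nat_lit 13395475903621795) (.br (nat_lit 1) (.cons (.br (nat_lit 4) (.cons (.rel (nat_lit 1090519113)) .nil)) .nil)) .leaf))) (nat_lit 13395475903621877) (.br (nat_lit 6) (.cons (.br (nat_lit 0) (.cons (.rel (nat_lit 17184327936)) (.cons (.rel (nat_lit 17184080898)) .nil))) .nil)) (.node (.node (.node .leaf (nat_lit 13395475904806415) (.br (nat_lit 4) (.cons (.br (nat_lit 0) (.cons (.rel (nat_lit 2155876356)) (.cons (.rel (nat_lit 2152218624)) .nil))) .nil)) .leaf) (nat_lit 13395481849883411) (.br (nat_lit 0) (.cons (.br (nat_lit 1) (.cons (.rel (nat_lit 20971860)) .nil)) .nil)) (.node .leaf (nat_lit 13398926834602039) (.br (nat_lit 3) (.cons (.br (nat_lit 4) (.cons (.rel (nat_lit 1342308864)) .nil)) .nil)) .leaf)) (nat_lit 13398926836094976) (.br (nat_lit 0) (.cons (.br (nat_lit 2) (.cons (.rel (nat_lit 71319816)) .nil)) .nil))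 (.node (.node .leaf (nat_lit 13400985683102476) (.br (nat_lit 0) (.cons (.br (nat_lit 1) (.cons (.rel (nat_lit 37749780)) .nil)) .nil)) .leaf) (nat_lit 13400985684495092) (.br (nat_lit 0) (.cons (.br (nat_lit 1) (.cons (.rel (nat_lit 37749780)) .nil)) .nil)) (.node .leaf (nat_lit 13401020042622453) (.br (nat_lit 0) (.cons (.br (nat_lit 3) (.cons (.rel (nat_lit 279085056)) .nil)) .nil)) .leaf))))))

/-- refutations 31 -/
def e31 : EX := (.node (.node (.node (.node (.node (.node .leaf (nat_lit 13645816024005409) (.br (nat_lit 0) (.cons (.br (nat_lit 1) (.cons (.rel (nat_lit 37752912)) .nil)) .nil)) .leaf) (nat_lit 13647061273073042) (.br (nat_lit 0) (.cons (.br (nat_lit 2) (.cons (.rel (nat_lit 138543108)) .nil)) .nil)) .leaf) (nat_lit 13647061541508498) (.br (nat_lit 0) (.cons (.br (nat_lit 1) (.cons (.rel (nat_lit 44105733)) .nil)) .nil)) (.node (.node .leaf (nat_lit 13741962842615808) (.br (nat_lit 1) (.cons (.br (nat_lit 2) (.cons (.rel (nat_lit 151003200)) (.cons (.rel (nat_lit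 83892480)) .nil))) .nil)) .leaf) (nat_lit 13741962844418735) (.br (nat_lit 0) (.cons (.br (nat_lit 2) (.cons (.rel (nat_lit 71435520)) .nil)) .nil)) .leaf)) (nat_lit 13741962845685760) (.br (nat_lit 2) (.cons (.br (nat_lit 4) (.cons (.rel (nat_lit 1140883524)) .nil)) .nil)) (.node (.node (.node .leaf (nat_lit 13741962845686441) (.br (nat_lit 2) (.cons (.br (nat_lit 3) (.cons (.rel (nat_lit 335546400)) .nil)) .nil)) .leaf) (nat_lit 13741962845788160) (.br (nat_lit 2) (.cons (.br (nat_lit 4) (.cons (.rel (nat_lit 1140851841)) .nil)) .nil)) .leaf) (nat_lit 13745167235221504) (.br (nat_lit 4) (.cons (.br (nat_lit 5) (.cons (.rel (nat_lit 5369106432)) (.cons (.rel (nat_lit 5370822672)) .nil))) .nil)) (.node .leaf (nat_lit 13745172634416640) (.br (nat_lit 0) (.cons (.br (nat_lit 1) (.cons (.rel (nat_lit 25166853)) .nil)) .nil)) .leaf))) (nat_lit 13745172634987928) (.br (nat_lit 0) (.cons (.br (nat_lit 3) (.cons (.rel (nat_lit 272631936)) .nil)) .nil)) (.node (.node (.node (.node .leaf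 (nat_lit 13745991815540736) (.br (nat_lit 2) (.cons (.br (nat_lit 1) (.cons (.rel (nat_lit 151011333)) (.cons (.rel (nat_lit 100667520)) .nil))) .nil)) .leaf) (nat_lit 13745991815541368) (.br (nat_lit 2) (.cons (.br (nat_lit 0) (.cons (.rel (nat_lit 71319816)) (.cons (.rel (nat_lit 72351780)) .nil))) .nil)) .leaf) (nat_lit 13745991815541997) (.br (nat_lit 1) (.cons (.br (nat_lit 2) (.cons (.rel (nat_lit 151011333)) .nil)) .nil)) (.node .leaf (nat_lit 13745991815542272) (.br (nat_lit 0) (.cons (.br (nat_lit 1) (.cons (.rel (nat_lit 20971860)) .nil)) .nil)) .leaf)) (nat_lit 13745991817376655) (.br (nat_lit 0) (.cons (.br (nat_lit 1) (.cons (.rel (nat_lit 22052928)) (.cons (.rel (nat_lit 20971860)) .nil))) (.cons (.br (nat_lit 1) (.cons (.rel (nat_lit 42206208)) (.cons (.rel (nat_lit 22052928)) .nil))) .nil))) (.node (.node (.node .leaf (nat_lit 13747460694357400) (.br (nat_lit 0) (.cons (.br (nat_lit 1) (.cons (.rel (nat_lit 22052928)) .nil)) .nil)) .leaf) (nat_lit 13747460694665216)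 (.br (nat_lit 0) (.cons (.br (nat_lit 1) (.cons (.rel (nat_lit 21004545)) .nil)) .nil)) .leaf) (nat_lit 13747460694666127) (.br (nat_lit 0) (.cons (.br (nat_lit 1) (.cons (.rel (nat_lit 22282500)) .nil)) .nil)) (.node .leaf (nat_lit 13747460694666648) (.br (nat_lit 0) (.cons (.br (nat_lit 4) (.cons (.rel (nat_lit 1077952641)) .nil)) .nil)) .leaf)))) (nat_lit 13747460694969007) (.br (nat_lit 0) (.cons (.br (nat_lit 3) (.cons (.rel (nat_lit 272633877)) .nil)) .nil)) (.node (.node (.node (.node (.node .leaf (nat_lit 13747460694969231) (.br (nat_lit 0) (.cons (.br (nat_lit 5) (.cons (.rel (nat_lit 8598324240)) .nil)) .nil)) .leaf) (nat_lit 13747460695726080) (.br (nat_lit 0) (.cons (.br (nat_lit 1) (.cons (.rel (nat_lit 20971860)) .nil)) .nil)) .leaf) (nat_lit 13747460696191887) (.br (nat_lit 0) (.cons (.br (nat_lit 1) (.cons (.rel (nat_lit 21004545)) (.cons (.rel (nat_lit 20993280)) (.cons (.rel (nat_lit 20971860)) .nil)))) (.cons (.br (nat_lit 3) (.cons (.rel (nat_lit 272631936))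 (.cons (.rel (nat_lit 272662608)) (.cons (.rel (nat_lit 272638020)) .nil)))) .nil))) (.node (.node .leaf (nat_lit 13747460696192408) (.br (nat_lit 0) (.cons (.br (nat_lit 1) (.cons (.rel (nat_lit 42206208)) .nil)) .nil)) .leaf) (nat_lit 13747460696955040) (.br (nat_lit 2) (.cons (.br (nat_lit 3) (.cons (.rel (nat_lit 335545353)) .nil)) .nil)) .leaf)) (nat_lit 13747460697274554) (.br (nat_lit 0) (.cons (.br (nat_lit 4) (.cons (.rel (nat_lit 1078071297)) .nil)) .nil)) (.node (.node (.node .leaf (nat_lit 13747460697283471) (.br (nat_lit 0) (.cons (.br (nat_lit 5) (.cons (.rel (nat_lit 8594653185)) .nil)) .nil)) .leaf) (nat_lit 13747460697438208) (.br (nat_lit 0) (.cons (.br (nat_lit 4) (.cons (.rel (nat_lit 1077952641)) .nil)) .nil)) .leaf) (nat_lit 13747460697439119) (.br (nat_lit 4) (.cons (.br (nat_lit 0) (.cons (.rel (nat_lit 1077944328)) (.cons (.rel (nat_lit 1078329600)) .nil))) .nil)) (.node .leaf (nat_lit 13747460697439640) (.br (nat_lit 0) (.cons (.br (nat_lit 5) (.cons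 (.rel (nat_lit 8594137344)) .nil)) .nil)) .leaf))) (nat_lit 13750300343634831) (.br (nat_lit 0) (.cons (.br (nat_lit 2) (.cons (.rel (nat_lit 71827524)) .nil)) .nil)) (.node (.node (.node (.node .leaf (nat_lit 13750300723681280) (.br (nat_lit 1) (.cons (.br (nat_lit 2) (.cons (.rel (nat_lit 151003200)) .nil)) .nil)) .leaf) (nat_lit 13750469422536704) (.br (nat_lit 0) (.cons (.br (nat_lit 1) (.cons (.rel (nat_lit 21004545)) .nil)) .nil)) .leaf) (nat_lit 13751362727242360) (.br (nat_lit 0) (.cons (.br (nat_lit 1) (.cons (.rel (nat_lit 21532674)) .nil)) .nil)) (.node .leaf (nat_lit 13751362727242528) (.br (nat_lit 0) (.cons (.br (nat_lit 1) (.cons (.rel (nat_lit 42206208)) .nil)) .nil)) .leaf)) (nat_lit 13751397132855296) (.br (nat_lit 0) (.cons (.br (nat_lit 1) (.cons (.rel (nat_lit 21497856)) (.cons (.rel (nat_lit 20993280)) .nil))) .nil)) (.node (.node (.node .leaf (nat_lit 13751397135472640) (.br (nat_lit 0) (.cons (.br (nat_lit 1) (.cons (.rel (nat_lit 20971860)) .nil)) .nil))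 .leaf) (nat_lit 13751397135472791) (.br (nat_lit 0) (.cons (.br (nat_lit 2) (.cons (.rel (nat_lit 71827524)) .nil)) .nil)) .leaf) (nat_lit 13751397135474072) (.br (nat_lit 0) (.cons (.br (nat_lit 2) (.cons (.rel (nat_lit 71827524)) .nil)) .nil)) (.node .leaf (nat_lit 13752831606057246) (.br (nat_lit 0) (.cons (.br (nat_lit 1) (.cons (.rel (nat_lit 39063552)) .nil)) .nil)) .leaf)))))

/-- refutations 32 -/
def e32 : EX := (.node (.node (.node (.node (.node .leaf (nat_lit 13845148077154366) (.br (nat_lit 0) (.cons (.br (nat_lit 1) (.cons (.rel (nat_lit 37752912)) .nil)) .nil)) .leaf) (nat_lit 13845368500716422) (.br (nat_lit 0) (.cons (.br (nat_lit 2) (.cons (.rel (nat_lit 71827524)) .nil)) .nil)) .leaf) (nat_lit 13845371625472902) (.br (nat_lit 0) (.cons (.br (nat_lit 1) (.cons (.rel (nat_lit 42206208)) (.cons (.rel (nat_lit 25247745)) .nil))) .nil)) (.node .leaf (nat_lit 13845371626734470) (.br (nat_lit 3) (.cons (.br (nat_lit 4) (.cons (.rel (nat_lit 1342440480)) (.cons (.rel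 (nat_lit 1342308864)) .nil))) .nil)) .leaf)) (nat_lit 13845374273340294) (.br (nat_lit 0) (.cons (.br (nat_lit 2) (.cons (.rel (nat_lit 71435520)) (.cons (.rel (nat_lit 138416130)) .nil))) (.cons (.br (nat_lit 2) (.cons (.rel (nat_lit 75531264)) (.cons (.rel (nat_lit 71369025)) .nil))) .nil))) (.node (.node (.node .leaf (nat_lit 13845569096071428) (.br (nat_lit 2) (.cons (.br (nat_lit 4) (.cons (.rel (nat_lit 1140851841)) .nil)) .nil)) .leaf) (nat_lit 13847464444944384) (.br (nat_lit 0) (.cons (.br (nat_lit 1) (.cons (.rel (nat_lit 21497856)) (.cons (.rel (nat_lit 42206208)) .nil))) (.cons (.br (nat_lit 1) (.cons (.rel (nat_lit 39063552)) (.cons (.rel (nat_lit 20971860)) .nil))) .nil))) .leaf) (nat_lit 13847464445815410) (.br (nat_lit 0) (.cons (.br (nat_lit 3) (.cons (.rel (nat_lit 545260608)) .nil)) .nil)) (.node .leaf (nat_lit 13847464446018438) (.br (nat_lit 0) (.cons (.br (nat_lit 6) (.cons (.br (nat_lit 4) (.cons (.rel (nat_lit 35433496584)) (.cons (.rel (nat_lit 36511416336))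 .nil))) .nil)) .nil)) .leaf))) (nat_lit 13847464447310110) (.br (nat_lit 4) (.cons (.br (nat_lit 6) (.cons (.rel (nat_lit 18253616640)) .nil)) .nil)) (.node (.node (.node (.node .leaf (nat_lit 13851549780435619) (.br (nat_lit 1) (.cons (.br (nat_lit 2) (.cons (.rel (nat_lit 168050688)) .nil)) .nil)) .leaf) (nat_lit 13856272253995793) (.br (nat_lit 0) (.cons (.br (nat_lit 2) (.cons (.rel (nat_lit 71435520)) .nil)) .nil)) .leaf) (nat_lit 13856274795277190) (.br (nat_lit 0) (.cons (.br (nat_lit 1) (.cons (.rel (nat_lit 25236480)) .nil)) .nil)) (.node .leaf (nat_lit 14162185506542355) (.br (nat_lit 0) (.cons (.br (nat_lit 1) (.cons (.rel (nat_lit 20971860)) .nil)) .nil)) .leaf)) (nat_lit 14162807107819555) (.br (nat_lit 0) (.cons (.br (nat_lit 1) (.cons (.rel (nat_lit 20993280)) .nil)) .nil)) (.node (.node .leaf (nat_lit 14162875827281920) (.br (nat_lit 1) (.cons (.br (nat_lit 3) (.cons (.rel (nat_lit 285216804)) .nil)) .nil)) .leaf) (nat_lit 14168410652996371) (.br (nat_lit 0) (.cons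 (.br (nat_lit 2) (.cons (.rel (nat_lit 71434521)) .nil)) .nil)) (.node .leaf (nat_lit 14172986206957032) (.br (nat_lit 0) (.cons (.br (nat_lit 1) (.cons (.rel (nat_lit 37748769)) .nil)) .nil)) .leaf))))

/-- refutations 33 -/
def e33 : EX := (.node (.node (.node (.node (.node (.node .leaf (nat_lit 14179788862061480) (.br (nat_lit 1) (.cons (.br (nat_lit 6) (.cons (.rel (nat_lit 17213948160)) .nil)) .nil)) .leaf) (nat_lit 14179789413873969) (.br (nat_lit 2) (.cons (.br (nat_lit 5) (.cons (.rel (nat_lit 4362078288)) (.cons (.rel (nat_lit 4362093696)) .nil))) .nil)) .leaf) (nat_lit 14179789413874320) (.br (nat_lit 2) (.cons (.br (nat_lit 5) (.cons (.rel (nat_lit 4362084372)) (.cons (.rel (nat_lit 4362142725)) .nil))) .nil)) (.node .leaf (nat_lit 14179789413874421) (.br (nat_lit 1) (.cons (.br (nat_lit 2) (.cons (.rel (nat_lit 84934662)) .nil)) .nil)) .leaf)) (nat_lit 14179789413874475) (.br (nat_lit 1) (.cons (.br (nat_lit 2) (.cons (.rel (nat_lit 83951952)) .nil)) .nil)) (.node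 (.node (.node .leaf (nat_lit 14179789413874600) (.br (nat_lit 1) (.cons (.br (nat_lit 3) (.cons (.rel (nat_lit 285344784)) (.cons (.rel (nat_lit 285344784)) (.cons (.rel (nat_lit 285279300)) .nil)))) .nil)) .leaf) (nat_lit 14179789413886888) (.br (nat_lit 2) (.cons (.br (nat_lit 4) (.cons (.rel (nat_lit 1140855840)) .nil)) .nil)) .leaf) (nat_lit 14179789414447855) (.br (nat_lit 1) (.cons (.br (nat_lit 2) (.cons (.rel (nat_lit 84936720)) .nil)) .nil)) (.node .leaf (nat_lit 14179789414448486) (.br (nat_lit 4) (.cons (.br (nat_lit 2) (.cons (.rel (nat_lit 1140981762)) (.cons (.rel (nat_lit 1140918336)) .nil))) .nil)) .leaf))) (nat_lit 14179789415708923) (.br (nat_lit 0) (.cons (.br (nat_lit 1) (.cons (.rel (nat_lit 21497856)) .nil)) .nil)) (.node (.node (.node (.node .leaf (nat_lit 14179789415708977) (.br (nat_lit 3) (.cons (.br (nat_lit 5) (.cons (.rel (nat_lit 4563796992)) .nil)) .nil)) .leaf) (nat_lit 14179789416648038) (.br (nat_lit 2) (.cons (.br (nat_lit 1) (.cons (.rel (nat_lit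 84934662)) (.cons (.rel (nat_lit 85067844)) (.cons (.rel (nat_lit 100664388)) .nil)))) .nil)) .leaf) (nat_lit 14179789416892441) (.br (nat_lit 2) (.cons (.br (nat_lit 4) (.cons (.rel (nat_lit 1140854793)) .nil)) .nil)) (.node .leaf (nat_lit 14179789416893698) (.br (nat_lit 0) (.cons (.br (nat_lit 2) (.cons (.rel (nat_lit 71307540)) .nil)) .nil)) .leaf)) (nat_lit 14179789416958888) (.br (nat_lit 0) (.cons (.br (nat_lit 2) (.cons (.rel (nat_lit 71307540)) .nil)) .nil)) (.node (.node .leaf (nat_lit 14179789417007779) (.br (nat_lit 2) (.cons (.br (nat_lit 3) (.cons (.rel (nat_lit 335545353)) .nil)) .nil)) .leaf) (nat_lit 14181721207986201) (.br (nat_lit 1) (.cons (.br (nat_lit 4) (.cons (.rel (nat_lit 2181055488)) .nil)) .nil)) (.node .leaf (nat_lit 14185765399494160) (.br (nat_lit 4) (.cons (.br (nat_lit 6) (.cons (.rel (nat_lit 18253873176)) .nil)) .nil)) .leaf)))) (nat_lit 14185765400980392) (.br (nat_lit 2) (.cons (.br (nat_lit 3) (.cons (.br (nat_lit 0) (.cons (.rel (nat_lit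 71319816)) (.cons (.rel (nat_lit 272647200)) (.cons (.rel (nat_lit 71319816)) .nil)))) .nil)) .nil)) (.node (.node (.node (.node (.node .leaf (nat_lit 14185767066119080) (.br (nat_lit 3) (.cons (.br (nat_lit 5) (.cons (.rel (nat_lit 4563669012)) .nil)) .nil)) .leaf) (nat_lit 14185767349845520) (.br (nat_lit 1) (.cons (.br (nat_lit 6) (.cons (.rel (nat_lit 34393358340)) (.cons (.rel (nat_lit 17196777480)) .nil))) .nil)) .leaf) (nat_lit 14185767351440796) (.br (nat_lit 6) (.cons (.br (nat_lit 1) (.cons (.rel (nat_lit 17196679233)) (.cons (.rel (nat_lit 17197957188)) .nil))) .nil)) (.node .leaf (nat_lit 14185767351440860) (.br (nat_lit 1) (.cons (.br (nat_lit 4) (.cons (.rel (nat_lit 1090520160)) .nil)) .nil)) .leaf)) (nat_lit 14185768009946524) (.br (nat_lit 4) (.cons (.br (nat_lit 1) (.cons (.rel (nat_lit 1090585608)) (.cons (.rel (nat_lit 1090528257)) .nil))) .nil)) (.node (.node .leaf (nat_lit 14185768026724514) (.br (nat_lit 0) (.cons (.br (nat_lit 4) (.cons (.rel (nat_lit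 1077956640)) .nil)) .nil)) .leaf) (nat_lit 14187124560726691) (.br (nat_lit 2) (.cons (.br (nat_lit 3) (.cons (.rel (nat_lit 335613969)) .nil)) .nil)) (.node .leaf (nat_lit 14187125235366674) (.br (nat_lit 0) (.cons (.br (nat_lit 1) (.cons (.rel (nat_lit 20993280)) .nil)) .nil)) .leaf))) (nat_lit 14187125237852835) (.br (nat_lit 1) (.cons (.br (nat_lit 2) (.cons (.rel (nat_lit 83886468)) .nil)) .nil)) (.node (.node (.node (.node .leaf (nat_lit 14190573103688961) (.br (nat_lit 2) (.cons (.br (nat_lit 3) (.cons (.rel (nat_lit 335546400)) .nil)) .nil)) .leaf) (nat_lit 14190573106223129) (.br (nat_lit 1) (.cons (.br (nat_lit 2) (.cons (.rel (nat_lit 84936720)) .nil)) .nil)) .leaf) (nat_lit 14190573106223409) (.br (nat_lit 0) (.cons (.br (nat_lit 1) (.cons (.rel (nat_lit 39063552)) .nil)) .nil)) (.node .leaf (nat_lit 14192404441660168) (.br (nat_lit 1) (.cons (.br (nat_lit 4) (.cons (.rel (nat_lit 1090520160)) .nil)) .nil)) .leaf)) (nat_lit 14192404442951985) (.br (nat_lit 0) (.cons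 (.br (nat_lit 1) (.cons (.rel (nat_lit 22282500)) .nil)) .nil)) (.node (.node .leaf (nat_lit 14192404444780569) (.br (nat_lit 0) (.cons (.br (nat_lit 1) (.cons (.rel (nat_lit 37752912)) .nil)) .nil)) .leaf) (nat_lit 14197389258719867) (.br (nat_lit 1) (.cons (.br (nat_lit 2) (.cons (.rel (nat_lit 84936720)) .nil)) .nil)) (.node .leaf (nat_lit 14197389258720009) (.br (nat_lit 1) (.cons (.br (nat_lit 2) (.cons (.br (nat_lit 0) (.cons (.rel (nat_lit 75497568)) (.cons (.rel (nat_lit 71307540)) .nil))) .nil)) .nil)) .leaf)))))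

/-- refutations 34 -/
def e34 : EX := (.node (.node (.node (.node (.node (.node (.node .leaf (nat_lit 14255489271010205) (.br (nat_lit 0) (.cons (.br (nat_lit 1) (.cons (.rel (nat_lit 25169985)) .nil)) .nil)) .leaf) (nat_lit 14255491563723378) (.br (nat_lit 4) (.cons (.br (nat_lit 6) (.cons (.rel (nat_lit 18253874178)) .nil)) .nil)) .leaf) (nat_lit 14255491563723427) (.br (nat_lit 1) (.cons (.br (nat_lit 6) (.cons (.rel (nat_lit 17196777480)) .nil)) .nil)) (.node .leaf (nat_lit 14255491563723683) (.br (nat_lit 1) (.cons (.br (nat_lit 4) (.cons (.rel (nat_lit 1090584597)) .nil)) .nil)) .leaf)) (nat_lit 14255491565294194) (.br (nat_lit 4) (.cons (.br (nat_lit 5) (.cons (.rel (nat_lit 5368709640)) .nil)) .nil)) (.node (.node (.node .leaf (nat_lit 14255491565294379) (.br (nat_lit 0) (.cons (.br (nat_lit 4) (.cons (.rel (nat_lit 1082425344)) .nil)) .nil)) .leaf) (nat_lit 14255491565294493) (.br (nat_lit 4) (.cons (.br (nat_lit 5) (.cons (.br (nat_lit 1) (.cons (.rel (nat_lit 1090535568))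 (.cons (.rel (nat_lit 4311770112)) (.cons (.rel (nat_lit 4311814176)) (.cons (.rel (nat_lit 1090654224)) .nil))))) .nil)) .nil)) .leaf) (nat_lit 14255491565515509) (.br (nat_lit 1) (.cons (.br (nat_lit 6) (.cons (.rel (nat_lit 17196646548)) .nil)) .nil)) (.node .leaf (nat_lit 14255491565558685) (.br (nat_lit 3) (.cons (.br (nat_lit 4) (.cons (.rel (nat_lit 1610612868)) .nil)) .nil)) .leaf))) (nat_lit 14255491566488307) (.br (nat_lit 0) (.cons (.br (nat_lit 1) (.cons (.rel (nat_lit 21037344)) .nil)) .nil)) (.node (.node (.node (.node .leaf (nat_lit 14255492478081676) (.br (nat_lit 0) (.cons (.br (nat_lit 6) (.cons (.rel (nat_lit 17184104448)) .nil)) .nil)) .leaf) (nat_lit 14255492478081804) (.br (nat_lit 0) (.cons (.br (nat_lit 6) (.cons (.rel (nat_lit 17184063621)) .nil)) .nil)) .leaf) (nat_lit 14255492478081824) (.br (nat_lit 1) (.cons (.br (nat_lit 3) (.cons (.rel (nat_lit 285229080)) .nil)) .nil)) (.node .leaf (nat_lit 14255492478081955) (.br (nat_lit 6) (.cons (.br (nat_lit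 3) (.cons (.rel (nat_lit 17448307200)) (.cons (.rel (nat_lit 17448307200)) .nil))) .nil)) .leaf)) (nat_lit 14255492478082304) (.br (nat_lit 1) (.cons (.br (nat_lit 6) (.cons (.rel (nat_lit 17196646548)) .nil)) .nil)) (.node (.node .leaf (nat_lit 14255492478082449) (.br (nat_lit 2) (.cons (.br (nat_lit 4) (.cons (.rel (nat_lit 1140851841)) .nil)) .nil)) .leaf) (nat_lit 14255492478132979) (.br (nat_lit 1) (.cons (.br (nat_lit 6) (.cons (.rel (nat_lit 17196646548)) .nil)) .nil)) (.node .leaf (nat_lit 14255492478133525) (.br (nat_lit 0) (.cons (.br (nat_lit 1) (.cons (.rel (nat_lit 21037344)) .nil)) .nil)) .leaf)))) (nat_lit 14255492478279168) (.br (nat_lit 2) (.cons (.br (nat_lit 3) (.cons (.rel (nat_lit 671105088)) .nil)) .nil)) (.node (.node (.node (.node (.node .leaf (nat_lit 14255492478390454) (.br (nat_lit 4) (.cons (.br (nat_lit 6) (.cons (.rel (nat_lit 18253873176)) .nil)) .nil)) .leaf) (nat_lit 14255492478391698) (.br (nat_lit 0) (.cons (.br (nat_lit 1) (.cons (.rel (nat_lit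 20971860)) .nil)) .nil)) .leaf) (nat_lit 14255492478647697) (.br (nat_lit 3) (.cons (.br (nat_lit 4) (.cons (.rel (nat_lit 1611988992)) .nil)) .nil)) (.node .leaf (nat_lit 14255492479304457) (.br (nat_lit 3) (.cons (.br (nat_lit 4) (.cons (.rel (nat_lit 1343766528)) .nil)) .nil)) .leaf)) (nat_lit 14255492479304611) (.br (nat_lit 4) (.cons (.br (nat_lit 5) (.cons (.rel (nat_lit 5368972368)) .nil)) .nil)) (.node (.node .leaf (nat_lit 14255492479305216) (.br (nat_lit 3) (.cons (.br (nat_lit 4) (.cons (.rel (nat_lit 1342308864)) .nil)) .nil)) .leaf) (nat_lit 14255492479343244) (.br (nat_lit 1) (.cons (.br (nat_lit 2) (.cons (.rel (nat_lit 84934662)) (.cons (.rel (nat_lit 150999057)) .nil))) .nil)) (.node .leaf (nat_lit 14255492479343517) (.br (nat_lit 0) (.cons (.br (nat_lit 1) (.cons (.rel (nat_lit 20993280)) (.cons (.rel (nat_lit 22282500)) .nil))) .nil)) .leaf))) (nat_lit 14255492479619104) (.br (nat_lit 0) (.cons (.br (nat_lit 3) (.cons (.rel (nat_lit 272631936)) .nil)) .nil))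 (.node (.node (.node (.node .leaf (nat_lit 14255492479652765) (.br (nat_lit 4) (.cons (.br (nat_lit 3) (.cons (.br (nat_lit 1) (.cons (.rel (nat_lit 1090520160)) (.cons (.rel (nat_lit 1090528257)) (.cons (.rel (nat_lit 1090553856)) (.cons (.rel (nat_lit 1375731714)) (.cons (.rel (nat_lit 285229080)) .nil)))))) (.cons (.rel (nat_lit 2415919176)) (.cons (.rel (nat_lit 2415928320)) .nil)))) (.cons (.br (nat_lit 5) (.cons (.br (nat_lit 2) (.cons (.rel (nat_lit 4362084372)) (.cons (.rel (nat_lit 4362141714)) (.cons (.rel (nat_lit 1140868116)) (.cons (.rel (nat_lit 4362108960)) (.cons (.rel (nat_lit 4362084372)) .nil)))))) (.cons (.rel (nat_lit 9663741984)) (.cons (.br (nat_lit 3) (.cons (.rel (nat_lit 5637144612)) (.cons (.rel (nat_lit 4563403332)) (.cons (.rel (nat_lit 4563403332)) .nil)))) (.cons (.rel (nat_lit 9663709185)) (.cons (.rel (nat_lit 5368987776)) .nil)))))) .nil))) .leaf) (nat_lit 14255492479658741) (.br (nat_lit 0) (.cons (.br (nat_lit 1) (.cons (.rel (nat_lit 37748769))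 .nil)) .nil)) .leaf) (nat_lit 14255492479658909) (.br (nat_lit 4) (.cons (.br (nat_lit 3) (.cons (.rel (nat_lit 1342439433)) (.cons (.rel (nat_lit 2684420352)) .nil))) .nil)) (.node .leaf (nat_lit 14255492479659270) (.br (nat_lit 2) (.cons (.br (nat_lit 4) (.cons (.rel (nat_lit 1140868116)) .nil)) .nil)) .leaf)) (nat_lit 14255492479671704) (.br (nat_lit 2) (.cons (.br (nat_lit 4) (.cons (.rel (nat_lit 1140868116)) .nil)) .nil)) (.node (.node .leaf (nat_lit 14255492479873699) (.br (nat_lit 6) (.cons (.br (nat_lit 1) (.cons (.rel (nat_lit 17196650502)) (.cons (.rel (nat_lit 34393358340)) .nil))) .nil)) .leaf) (nat_lit 14255492479873781) (.br (nat_lit 1) (.cons (.br (nat_lit 6) (.cons (.rel (nat_lit 17196646548)) .nil)) .nil)) (.node .leaf (nat_lit 14255492479874304) (.br (nat_lit 5) (.cons (.br (nat_lit 6) (.cons (.rel (nat_lit 21474869760)) .nil)) .nil)) .leaf))))) (nat_lit 14255492479916843) (.br (nat_lit 0) (.cons (.br (nat_lit 3) (.cons (.rel (nat_lit 277348608)) .nil)) .nil))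 (.node (.node (.node (.node (.node (.node .leaf (nat_lit 14255492479916957) (.br (nat_lit 3) (.cons (.br (nat_lit 1) (.cons (.rel (nat_lit 285212805)) (.cons (.rel (nat_lit 285477120)) (.cons (.rel (nat_lit 553664772)) (.cons (.rel (nat_lit 285278289)) .nil))))) (.cons (.br (nat_lit 4) (.cons (.rel (nat_lit 2415928320)) (.cons (.rel (nat_lit 1342455888)) (.cons (.rel (nat_lit 1342440480)) .nil)))) (.cons (.br (nat_lit 1) (.cons (.rel (nat_lit 285279300)) (.cons (.rel (nat_lit 285212805)) (.cons (.rel (nat_lit 285278289)) (.cons (.rel (nat_lit 285216804)) .nil))))) .nil)))) .leaf) (nat_lit 14255492480847104) (.br (nat_lit 2) (.cons (.br (nat_lit 4) (.cons (.rel (nat_lit 1140868116)) .nil)) .nil)) .leaf) (nat_lit 14255492480938166) (.br (nat_lit 0) (.cons (.br (nat_lit 2) (.cons (.rel (nat_lit 75763968)) .nil)) .nil)) (.node .leaf (nat_lit 14255492481091769) (.br (nat_lit 0) (.cons (.br (nat_lit 2) (.cons (.rel (nat_lit 138430464)) .nil)) .nil)) .leaf)) (nat_lit 14255492481092864)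 (.br (nat_lit 0) (.cons (.br (nat_lit 2) (.cons (.rel (nat_lit 71435520)) .nil)) .nil)) (.node (.node .leaf (nat_lit 14255492481183921) (.br (nat_lit 2) (.cons (.br (nat_lit 3) (.cons (.rel (nat_lit 671105088)) .nil)) .nil)) .leaf) (nat_lit 14256170168865693) (.br (nat_lit 4) (.cons (.br (nat_lit 6) (.cons (.rel (nat_lit 18253616640)) (.cons (.rel (nat_lit 18253897728)) (.cons (.rel (nat_lit 18253897728)) .nil)))) .nil)) (.node .leaf (nat_lit 14256170169817714) (.br (nat_lit 0) (.cons (.br (nat_lit 4) (.cons (.rel (nat_lit 2151679233)) .nil)) .nil)) .leaf))) (nat_lit 14256170170127761) (.br (nat_lit 2) (.cons (.br (nat_lit 4) (.cons (.rel (nat_lit 2215117824)) .nil)) .nil)) (.node (.node (.node (.node .leaf (nat_lit 14256170171569053) (.br (nat_lit 3) (.cons (.br (nat_lit 6) (.cons (.rel (nat_lit 34628173857)) .nil)) .nil)) .leaf) (nat_lit 14256171082915299) (.br (nat_lit 1) (.cons (.br (nat_lit 3) (.cons (.rel (nat_lit 553664772)) .nil)) .nil)) .leaf) (nat_lit 14256171084486033)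 (.br (nat_lit 0) (.cons (.br (nat_lit 1) (.cons (.rel (nat_lit 42206208)) (.cons (.rel (nat_lit 25165842)) .nil))) (.cons (.br (nat_lit 2) (.cons (.rel (nat_lit 71307540)) (.cons (.rel (nat_lit 138412176)) .nil))) .nil))) (.node .leaf (nat_lit 14256565112609568) (.br (nat_lit 0) (.cons (.br (nat_lit 3) (.cons (.rel (nat_lit 272703504)) .nil)) .nil)) .leaf)) (nat_lit 14257493018482993) (.br (nat_lit 4) (.cons (.br (nat_lit 5) (.cons (.rel (nat_lit 5368972368)) .nil)) .nil)) (.node (.node .leaf (nat_lit 14257493018483314) (.br (nat_lit 4) (.cons (.br (nat_lit 3) (.cons (.rel (nat_lit 2415928320)) (.cons (.rel (nat_lit 2684420352)) .nil))) .nil)) .leaf) (nat_lit 14257493018792861) (.br (nat_lit 4) (.cons (.br (nat_lit 6) (.cons (.br (nat_lit 0) (.cons (.rel (nat_lit 1082425344)) (.cons (.rel (nat_lit 34363933056)) .nil))) .nil)) .nil)) (.node .leaf (nat_lit 14257493018793443) (.br (nat_lit 5) (.cons (.br (nat_lit 2) (.cons (.rel (nat_lit 4362108960)) (.cons (.rel (nat_lit 4362078288))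 .nil))) .nil)) .leaf)))) (nat_lit 14257493020054130) (.br (nat_lit 2) (.cons (.br (nat_lit 4) (.cons (.rel (nat_lit 1140852900)) .nil)) .nil)) (.node (.node (.node (.node (.node .leaf (nat_lit 14257493020055011) (.br (nat_lit 0) (.cons (.br (nat_lit 4) (.cons (.rel (nat_lit 2152218624)) (.cons (.br (nat_lit 6) (.cons (.rel (nat_lit 18253874178)) (.cons (.rel (nat_lit 18261999648)) .nil))) .nil))) .nil)) .leaf) (nat_lit 14257493020203643) (.br (nat_lit 4) (.cons (.br (nat_lit 6) (.cons (.rel (nat_lit 18253616640)) .nil)) .nil)) .leaf) (nat_lit 14257493932842240) (.br (nat_lit 2) (.cons (.br (nat_lit 6) (.cons (.rel (nat_lit 17314087440)) (.cons (.rel (nat_lit 17316188160)) .nil))) .nil)) (.node .leaf (nat_lit 14257493932842485) (.br (nat_lit 0) (.cons (.br (nat_lit 1) (.cons (.rel (nat_lit 20993280)) .nil)) .nil)) .leaf)) (nat_lit 14257493933150390) (.br (nat_lit 2) (.cons (.br (nat_lit 6) (.cons (.rel (nat_lit 34426847520)) (.cons (.rel (nat_lit 17314087440)) .nil))) .nil)) (.node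 (.node .leaf (nat_lit 14257493933151715) (.br (nat_lit 6) (.cons (.br (nat_lit 2) (.cons (.rel (nat_lit 34493957121)) (.cons (.rel (nat_lit 17246979096)) .nil))) .nil)) .leaf) (nat_lit 14257493934050805) (.br (nat_lit 0) (.cons (.br (nat_lit 1) (.cons (.rel (nat_lit 21004545)) .nil)) .nil)) (.node .leaf (nat_lit 14257493934412553) (.br (nat_lit 4) (.cons (.br (nat_lit 3) (.cons (.rel (nat_lit 1342308864)) (.cons (.rel (nat_lit 1342439433)) .nil))) .nil)) .leaf))) (nat_lit 14257493934413283) (.br (nat_lit 6) (.cons (.br (nat_lit 1) (.cons (.rel (nat_lit 17196712032)) (.cons (.rel (nat_lit 17196652560)) (.cons (.rel (nat_lit 17196679233)) (.cons (.rel (nat_lit 17196667968)) .nil))))) .nil)) (.node (.node (.node (.node .leaf (nat_lit 14257493934418675) (.br (nat_lit 3) (.cons (.br (nat_lit 4) (.cons (.rel (nat_lit 1342308864)) .nil)) .nil)) .leaf) (nat_lit 14257493934430843) (.br (nat_lit 3) (.cons (.br (nat_lit 5) (.cons (.rel (nat_lit 4831838304)) .nil)) .nil)) .leaf) (nat_lit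 14257493934431608) (.br (nat_lit 0) (.cons (.br (nat_lit 3) (.cons (.rel (nat_lit 272662608)) .nil)) .nil)) (.node .leaf (nat_lit 14257493934431640) (.br (nat_lit 2) (.cons (.br (nat_lit 3) (.cons (.rel (nat_lit 335546400)) .nil)) .nil)) .leaf)) (nat_lit 14257493935657135) (.br (nat_lit 1) (.cons (.br (nat_lit 3) (.cons (.rel (nat_lit 553652496)) .nil)) .nil)) (.node (.node .leaf (nat_lit 14257493935698081) (.br (nat_lit 3) (.cons (.br (nat_lit 4) (.cons (.rel (nat_lit 1610612868)) .nil)) .nil)) .leaf) (nat_lit 14257493935698195) (.br (nat_lit 1) (.cons (.br (nat_lit 3) (.cons (.rel (nat_lit 285212805)) .nil)) .nil)) (.node .leaf (nat_lit 14257493935699427) (.br (nat_lit 0) (.cons (.br (nat_lit 4) (.cons (.rel (nat_lit 1077944328)) .nil)) .nil)) .leaf))))))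

/-- refutations 35 -/
def e35 : EX := (.node (.node (.node (.node (.node (.node (.node .leaf (nat_lit 15428444506917496) (.br (nat_lit 0) (.cons (.br (nat_lit 1) (.cons (.rel (nat_lit 20993280)) .nil)) .nil)) .leaf) (nat_lit 15428825406497544) (.br (nat_lit 0) (.cons (.br (nat_lit 1) (.cons (.rel (nat_lit 22024197)) .nil)) .nil)) (.node .leaf (nat_lit 15429439257413632) (.br (nat_lit 0) (.cons (.br (nat_lit 5) (.cons (.rel (nat_lit 4299162633)) (.cons (.rel (nat_lit 4303360512)) (.cons (.rel (nat_lit 4299161622)) (.cons (.rel (nat_lit 4299232260)) .nil))))) .nil)) .leaf)) (nat_lit 15429439257628176) (.br (nat_lit 0) (.cons (.br (nat_lit 2) (.cons (.rel (nat_lit 71369025)) (.cons (.rel (nat_lit 71307540)) .nil))) .nil)) (.node (.node .leaf (nat_lit 15429439258598276) (.br (nat_lit 2) (.cons (.br (nat_lit 4) (.cons (.rel (nat_lit 1140851841)) .nil)) .nil)) .leaf) (nat_lit 15429439259664384) (.br (nat_lit 0) (.cons (.br (nat_lit 3) (.cons (.rel (nat_lit 545260608)) .nil)) .nil))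 (.node .leaf (nat_lit 15429439259664439) (.br (nat_lit 0) (.cons (.br (nat_lit 3) (.cons (.rel (nat_lit 272695362)) .nil)) .nil)) .leaf))) (nat_lit 15429439259665796) (.br (nat_lit 5) (.cons (.br (nat_lit 1) (.cons (.rel (nat_lit 4313059332)) (.cons (.rel (nat_lit 4328783904)) .nil))) .nil)) (.node (.node (.node .leaf (nat_lit 15429439260179064) (.br (nat_lit 0) (.cons (.br (nat_lit 6) (.cons (.rel (nat_lit 17184327936)) .nil)) .nil)) .leaf) (nat_lit 15429439260227584) (.br (nat_lit 0) (.cons (.br (nat_lit 3) (.cons (.rel (nat_lit 272761857)) .nil)) .nil)) (.node .leaf (nat_lit 15429439260227866) (.br (nat_lit 0) (.cons (.br (nat_lit 2) (.cons (.rel (nat_lit 71893008)) .nil)) .nil)) .leaf)) (nat_lit 15429439260229136) (.br (nat_lit 2) (.cons (.br (nat_lit 5) (.cons (.rel (nat_lit 4362078288)) .nil)) .nil)) (.node (.node .leaf (nat_lit 15429439387438581) (.br (nat_lit 0) (.cons (.br (nat_lit 2) (.cons (.rel (nat_lit 71827524)) .nil)) .nil)) .leaf) (nat_lit 15429439388375672) (.br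 (nat_lit 2) (.cons (.br (nat_lit 0) (.cons (.rel (nat_lit 71369025)) (.cons (.rel (nat_lit 72417408)) .nil))) .nil)) .leaf))) (nat_lit 15429439388684343) (.br (nat_lit 0) (.cons (.br (nat_lit 1) (.cons (.rel (nat_lit 20971860)) .nil)) .nil)) (.node (.node (.node (.node .leaf (nat_lit 15429439388685068) (.br (nat_lit 0) (.cons (.br (nat_lit 2) (.cons (.rel (nat_lit 72351780)) .nil)) .nil)) .leaf) (nat_lit 15429439388685195) (.br (nat_lit 0) (.cons (.br (nat_lit 4) (.cons (.rel (nat_lit 2155876356)) .nil)) .nil)) (.node .leaf (nat_lit 15429439388685813) (.br (nat_lit 0) (.cons (.br (nat_lit 3) (.cons (.rel (nat_lit 542113809)) .nil)) .nil)) .leaf)) (nat_lit 15429439388867360) (.br (nat_lit 0) (.cons (.br (nat_lit 4) (.cons (.rel (nat_lit 1079001600)) .nil)) .nil)) (.node (.node .leaf (nat_lit 15429439389709799) (.br (nat_lit 1) (.cons (.br (nat_lit 2) (.cons (.rel (nat_lit 151060554)) .nil)) .nil)) .leaf) (nat_lit 15429439389751928) (.br (nat_lit 3) (.cons (.br (nat_lit 4) (.cons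 (.rel (nat_lit 1610618880)) .nil)) .nil)) (.node .leaf (nat_lit 15429439390203381) (.br (nat_lit 4) (.cons (.br (nat_lit 0) (.cons (.rel (nat_lit 1082425344)) (.cons (.rel (nat_lit 1078001670)) .nil))) .nil)) .leaf))) (nat_lit 15429440708293368) (.br (nat_lit 0) (.cons (.br (nat_lit 2) (.cons (.rel (nat_lit 71827524)) .nil)) .nil)) (.node (.node (.node .leaf (nat_lit 15429440708334980) (.br (nat_lit 0) (.cons (.br (nat_lit 5) (.cons (.rel (nat_lit 4299490566)) .nil)) .nil)) .leaf) (nat_lit 15429440708642816) (.br (nat_lit 2) (.cons (.br (nat_lit 0) (.cons (.rel (nat_lit 71827524)) (.cons (.rel (nat_lit 71369025)) .nil))) .nil)) (.node .leaf (nat_lit 15429440708642998) (.br (nat_lit 2) (.cons (.br (nat_lit 3) (.cons (.rel (nat_lit 335545353)) (.cons (.rel (nat_lit 335614980)) .nil))) .nil)) .leaf)) (nat_lit 15429440709581580) (.br (nat_lit 0) (.cons (.br (nat_lit 2) (.cons (.rel (nat_lit 71435520)) .nil)) .nil)) (.node (.node .leaf (nat_lit 15429440709582212) (.br (nat_lit 0)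 (.cons (.br (nat_lit 2) (.cons (.rel (nat_lit 138416130)) .nil)) .nil)) .leaf) (nat_lit 15429440855404032) (.br (nat_lit 0) (.cons (.br (nat_lit 1) (.cons (.rel (nat_lit 20993280)) .nil)) .nil)) .leaf)))) (nat_lit 15429440855443456) (.br (nat_lit 0) (.cons (.br (nat_lit 1) (.cons (.rel (nat_lit 42206208)) (.cons (.rel (nat_lit 20971860)) .nil))) .nil)) (.node (.node (.node (.node (.node .leaf (nat_lit 15429440855443511) (.br (nat_lit 0) (.cons (.br (nat_lit 2) (.cons (.rel (nat_lit 72351780)) .nil)) .nil)) .leaf) (nat_lit 15429440855443638) (.br (nat_lit 0) (.cons (.br (nat_lit 3) (.cons (.rel (nat_lit 272695362)) .nil)) .nil)) (.node .leaf (nat_lit 15429440855443642) (.br (nat_lit 0) (.cons (.br (nat_lit 6) (.cons (.rel (nat_lit 17188258368)) .nil)) .nil)) .leaf)) (nat_lit 15429440855443731) (.br (nat_lit 0) (.cons (.br (nat_lit 1) (.cons (.rel (nat_lit 37748769)) (.cons (.rel (nat_lit 21004545)) .nil))) .nil)) (.node (.node .leaf (nat_lit 15429440855444082) (.br (nat_lit 2)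 (.cons (.br (nat_lit 3) (.cons (.rel (nat_lit 671089680)) .nil)) .nil)) .leaf) (nat_lit 15429440855444088) (.br (nat_lit 0) (.cons (.br (nat_lit 6) (.cons (.rel (nat_lit 34364981250)) .nil)) .nil)) (.node .leaf (nat_lit 15429440855444717) (.br (nat_lit 5) (.cons (.br (nat_lit 1) (.cons (.rel (nat_lit 4311781377)) (.cons (.rel (nat_lit 4311745560)) (.cons (.rel (nat_lit 4312859136)) .nil)))) .nil)) .leaf))) (nat_lit 15429440855656455) (.br (nat_lit 0) (.cons (.br (nat_lit 2) (.cons (.rel (nat_lit 71369025)) .nil)) .nil)) (.node (.node (.node .leaf (nat_lit 15429440855656503) (.br (nat_lit 0) (.cons (.br (nat_lit 1) (.cons (.rel (nat_lit 20971860)) .nil)) .nil)) .leaf) (nat_lit 15429440855657333) (.br (nat_lit 0) (.cons (.br (nat_lit 2) (.cons (.rel (nat_lit 75563016)) .nil)) .nil)) (.node .leaf (nat_lit 15429440858208256) (.br (nat_lit 0) (.cons (.br (nat_lit 2) (.cons (.rel (nat_lit 71435520)) .nil)) .nil)) .leaf)) (nat_lit 15429440858208542) (.br (nat_lit 0) (.cons (.br (nat_lit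 2) (.cons (.rel (nat_lit 71893008)) .nil)) .nil)) (.node (.node .leaf (nat_lit 15429440858209781) (.br (nat_lit 0) (.cons (.br (nat_lit 4) (.cons (.rel (nat_lit 1077937233)) .nil)) .nil)) .leaf) (nat_lit 15429440922511642) (.br (nat_lit 0) (.cons (.br (nat_lit 1) (.cons (.rel (nat_lit 22282500)) .nil)) .nil)) .leaf))) (nat_lit 15429440922552495) (.br (nat_lit 0) (.cons (.br (nat_lit 1) (.cons (.rel (nat_lit 20971860)) .nil)) .nil)) (.node (.node (.node (.node .leaf (nat_lit 15429440922552502) (.br (nat_lit 4) (.cons (.br (nat_lit 0) (.cons (.rel (nat_lit 2155876356)) (.cons (.rel (nat_lit 1079001600)) .nil))) .nil)) .leaf) (nat_lit 15429440922553872) (.br (nat_lit 0) (.cons (.br (nat_lit 1) (.cons (.rel (nat_lit 20971860)) (.cons (.rel (nat_lit 21004545)) (.cons (.rel (nat_lit 20971860)) .nil)))) .nil)) (.node .leaf (nat_lit 15429440922765312) (.br (nat_lit 0) (.cons (.br (nat_lit 1) (.cons (.rel (nat_lit 42206208)) .nil)) .nil)) .leaf)) (nat_lit 15429440923799552) (.br (nat_lit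 3) (.cons (.br (nat_lit 5) (.cons (.rel (nat_lit 4563403332)) .nil)) .nil)) (.node (.node .leaf (nat_lit 15429440923982006) (.br (nat_lit 1) (.cons (.br (nat_lit 2) (.cons (.rel (nat_lit 83886468)) .nil)) .nil)) .leaf) (nat_lit 15429440923982099) (.br (nat_lit 0) (.cons (.br (nat_lit 2) (.cons (.rel (nat_lit 138412176)) .nil)) .nil)) (.node .leaf (nat_lit 15429440923982600) (.br (nat_lit 0) (.cons (.br (nat_lit 1) (.cons (.rel (nat_lit 21004545)) .nil)) .nil)) .leaf))) (nat_lit 15429440923983260) (.br (nat_lit 0) (.cons (.br (nat_lit 2) (.cons (.rel (nat_lit 138416130)) .nil)) .nil)) (.node (.node (.node .leaf (nat_lit 15429440925317295) (.br (nat_lit 0) (.cons (.br (nat_lit 3) (.cons (.rel (nat_lit 545260608)) .nil)) .nil)) .leaf) (nat_lit 15429440925318622) (.br (nat_lit 3) (.cons (.br (nat_lit 4) (.cons (.rel (nat_lit 1342243428)) .nil)) .nil)) (.node .leaf (nat_lit 15429440925325312) (.br (nat_lit 0) (.cons (.br (nat_lit 3) (.cons (.rel (nat_lit 272631936)) .nil)) .nil))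 .leaf)) (nat_lit 15429443879186714) (.br (nat_lit 0) (.cons (.br (nat_lit 1) (.cons (.rel (nat_lit 20971860)) .nil)) .nil)) (.node (.node .leaf (nat_lit 15429443879536826) (.br (nat_lit 0) (.cons (.br (nat_lit 4) (.cons (.rel (nat_lit 2155876356)) .nil)) .nil)) .leaf) (nat_lit 15429443879537416) (.br (nat_lit 0) (.cons (.br (nat_lit 4) (.cons (.rel (nat_lit 1078003728)) .nil)) .nil)) .leaf))))) (nat_lit 15429443879538072) (.br (nat_lit 0) (.cons (.br (nat_lit 4) (.cons (.rel (nat_lit 1079247873)) (.cons (.rel (nat_lit 1077938244)) .nil))) .nil)) (.node (.node (.node (.node (.node (.node .leaf (nat_lit 15429443880966419) (.br (nat_lit 0) (.cons (.br (nat_lit 4) (.cons (.rel (nat_lit 1077938244)) .nil)) .nil)) .leaf) (nat_lit 15429443880967031) (.br (nat_lit 1) (.cons (.br (nat_lit 4) (.cons (.rel (nat_lit 1107623952)) (.cons (.rel (nat_lit 1090519113)) .nil))) .nil)) (.node .leaf (nat_lit 15429443881787399) (.br (nat_lit 0) (.cons (.br (nat_lit 5) (.cons (.rel (nat_lit 8598324240))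 .nil)) .nil)) .leaf)) (nat_lit 15429443881788279) (.br (nat_lit 0) (.cons (.br (nat_lit 4) (.cons (.rel (nat_lit 1077937233)) .nil)) .nil)) (.node (.node .leaf (nat_lit 15429443881851680) (.br (nat_lit 0) (.cons (.br (nat_lit 3) (.cons (.rel (nat_lit 272703504)) .nil)) .nil)) .leaf) (nat_lit 15429443882309632) (.br (nat_lit 0) (.cons (.br (nat_lit 1) (.cons (.rel (nat_lit 20971860)) .nil)) .nil)) (.node .leaf (nat_lit 15429444583829690) (.br (nat_lit 0) (.cons (.br (nat_lit 2) (.cons (.rel (nat_lit 72388608)) .nil)) .nil)) .leaf))) (nat_lit 15429444583830816) (.br (nat_lit 0) (.cons (.br (nat_lit 4) (.cons (.rel (nat_lit 1077956640)) .nil)) .nil)) (.node (.node (.node .leaf (nat_lit 15429444583871264) (.br (nat_lit 0) (.cons (.br (nat_lit 2) (.cons (.rel (nat_lit 71369025)) .nil)) .nil)) .leaf) (nat_lit 15429444583871351) (.br (nat_lit 0) (.cons (.br (nat_lit 2) (.cons (.rel (nat_lit 75497568)) .nil)) .nil)) (.node .leaf (nat_lit 15429444583871876) (.br (nat_lit 0) (.cons (.br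 (nat_lit 5) (.cons (.rel (nat_lit 4299161622)) .nil)) .nil)) .leaf)) (nat_lit 15429444584179712) (.br (nat_lit 0) (.cons (.br (nat_lit 4) (.cons (.rel (nat_lit 1082425344)) (.cons (.rel (nat_lit 2155876356)) .nil))) (.cons (.br (nat_lit 4) (.cons (.rel (nat_lit 2151679233)) (.cons (.rel (nat_lit 2151679233)) .nil))) .nil))) (.node (.node .leaf (nat_lit 15429444584179887) (.br (nat_lit 1) (.cons (.br (nat_lit 4) (.cons (.rel (nat_lit 1090528257)) (.cons (.rel (nat_lit 1090553856)) .nil))) (.cons (.br (nat_lit 5) (.cons (.rel (nat_lit 4312859136)) (.cons (.rel (nat_lit 4312859136)) .nil))) .nil))) .leaf) (nat_lit 15429444584179894) (.br (nat_lit 0) (.cons (.br (nat_lit 4) (.cons (.rel (nat_lit 1077937233)) .nil)) .nil)) .leaf))) (nat_lit 15429444584180344) (.br (nat_lit 5) (.cons (.br (nat_lit 6) (.cons (.rel (nat_lit 38656016385)) (.cons (.rel (nat_lit 25769808900)) .nil))) .nil)) (.node (.node (.node (.node .leaf (nat_lit 15429444584180523) (.br (nat_lit 0) (.cons (.br (nat_lit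 1) (.cons (.rel (nat_lit 21004545)) (.cons (.rel (nat_lit 37748769)) .nil))) (.cons (.br (nat_lit 1) (.cons (.rel (nat_lit 21497856)) (.cons (.rel (nat_lit 42205209)) .nil))) .nil))) .leaf) (nat_lit 15429444584180973) (.br (nat_lit 0) (.cons (.br (nat_lit 5) (.cons (.rel (nat_lit 8594653185)) (.cons (.rel (nat_lit 8594653185)) .nil))) (.cons (.br (nat_lit 5) (.cons (.rel (nat_lit 8598324240)) (.cons (.rel (nat_lit 4299162633)) .nil))) .nil))) (.node .leaf (nat_lit 15429444584181264) (.br (nat_lit 0) (.cons (.br (nat_lit 5) (.cons (.rel (nat_lit 4299162633)) .nil)) .nil)) .leaf)) (nat_lit 15429444584385323) (.br (nat_lit 0) (.cons (.br (nat_lit 1) (.cons (.rel (nat_lit 42206208)) (.cons (.rel (nat_lit 21497856)) .nil))) (.cons (.br (nat_lit 1) (.cons (.rel (nat_lit 21497856)) (.cons (.rel (nat_lit 37749780)) .nil))) .nil))) (.node (.node .leaf (nat_lit 15429444584392886) (.br (nat_lit 4) (.cons (.br (nat_lit 5) (.cons (.rel (nat_lit 10737418500)) .nil)) .nil)) .leaf) (nat_lit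 15429444584393336) (.br (nat_lit 0) (.cons (.br (nat_lit 6) (.cons (.rel (nat_lit 17184069633)) (.cons (.rel (nat_lit 17184069633)) .nil))) .nil)) (.node .leaf (nat_lit 15429444584393511) (.br (nat_lit 0) (.cons (.br (nat_lit 5) (.cons (.rel (nat_lit 8598324240)) .nil)) .nil)) .leaf))) (nat_lit 15429444584394116) (.br (nat_lit 0) (.cons (.br (nat_lit 2) (.cons (.rel (nat_lit 71827524)) (.cons (.rel (nat_lit 71893008)) .nil))) .nil)) (.node (.node (.node .leaf (nat_lit 15429444584394229) (.br (nat_lit 6) (.cons (.br (nat_lit 0) (.cons (.rel (nat_lit 17184104448)) (.cons (.rel (nat_lit 17184063621)) .nil))) .nil)) .leaf) (nat_lit 15429444584394230) (.br (nat_lit 4) (.cons (.br (nat_lit 6) (.cons (.rel (nat_lit 18253873176)) .nil)) .nil)) (.node .leaf (nat_lit 15429444585118476) (.br (nat_lit 0) (.cons (.br (nat_lit 3) (.cons (.rel (nat_lit 272631936)) .nil)) .nil)) .leaf)) (nat_lit 15429444585118957) (.br (nat_lit 4) (.cons (.br (nat_lit 0) (.cons (.rel (nat_lit 1077944328)) (.cons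 (.rel (nat_lit 1077956640)) .nil))) .nil)) (.node (.node .leaf (nat_lit 15429444585119228) (.br (nat_lit 6) (.cons (.br (nat_lit 0) (.cons (.rel (nat_lit 17184067620)) (.cons (.rel (nat_lit 17184065682)) .nil))) .nil)) .leaf) (nat_lit 15429444585199616) (.br (nat_lit 0) (.cons (.br (nat_lit 4) (.cons (.rel (nat_lit 1079001600)) .nil)) .nil)) .leaf)))) (nat_lit 15429444585199798) (.br (nat_lit 5) (.cons (.br (nat_lit 0) (.cons (.rel (nat_lit 4299489552)) (.cons (.rel (nat_lit 8594137344)) .nil))) .nil)) (.node (.node (.node (.node (.node .leaf (nat_lit 15429444585363711) (.br (nat_lit 0) (.cons (.br (nat_lit 3) (.cons (.rel (nat_lit 272631936)) .nil)) .nil)) .leaf) (nat_lit 15429444585364356) (.br (nat_lit 0) (.cons (.br (nat_lit 5) (.cons (.rel (nat_lit 4303360512)) .nil)) .nil)) (.node .leaf (nat_lit 15429444585410069) (.br (nat_lit 0) (.cons (.br (nat_lit 2) (.cons (.rel (nat_lit 75497568)) .nil)) .nil)) .leaf)) (nat_lit 15429444585427720) (.br (nat_lit 0) (.cons (.br (nat_lit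 4) (.cons (.rel (nat_lit 1077944328)) .nil)) .nil)) (.node (.node .leaf (nat_lit 15429444585609216) (.br (nat_lit 0) (.cons (.br (nat_lit 3) (.cons (.rel (nat_lit 272631936)) .nil)) .nil)) .leaf) (nat_lit 15429444585609491) (.br (nat_lit 0) (.cons (.br (nat_lit 4) (.cons (.rel (nat_lit 1077937233)) .nil)) .nil)) (.node .leaf (nat_lit 15429444585610016) (.br (nat_lit 0) (.cons (.br (nat_lit 2) (.cons (.rel (nat_lit 72388608)) .nil)) .nil)) .leaf))) (nat_lit 15429444586944687) (.br (nat_lit 0) (.cons (.br (nat_lit 1) (.cons (.rel (nat_lit 20993280)) .nil)) .nil)) (.node (.node (.node .leaf (nat_lit 15429444586944694) (.br (nat_lit 6) (.cons (.br (nat_lit 0) (.cons (.rel (nat_lit 17184063621)) (.cons (.rel (nat_lit 17188258368)) .nil))) .nil)) .leaf) (nat_lit 15429444586944798) (.br (nat_lit 0) (.cons (.br (nat_lit 3) (.cons (.rel (nat_lit 545260608)) (.cons (.rel (nat_lit 272631936)) .nil))) (.cons (.br (nat_lit 1) (.cons (.rel (nat_lit 21497856)) (.cons (.rel (nat_lit 21004545))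 .nil))) .nil))) (.node .leaf (nat_lit 15429444586946037) (.br (nat_lit 0) (.cons (.br (nat_lit 3) (.cons (.rel (nat_lit 272634888)) .nil)) .nil)) .leaf)) (nat_lit 15429444586952735) (.br (nat_lit 0) (.cons (.br (nat_lit 6) (.cons (.rel (nat_lit 34368147456)) .nil)) .nil)) (.node (.node .leaf (nat_lit 15429444586952979) (.br (nat_lit 0) (.cons (.br (nat_lit 6) (.cons (.rel (nat_lit 17184104448)) .nil)) .nil)) .leaf) (nat_lit 15429444586993664) (.br (nat_lit 4) (.cons (.br (nat_lit 5) (.cons (.rel (nat_lit 5369036805)) (.cons (.rel (nat_lit 10737418500)) .nil))) .nil)) .leaf))) (nat_lit 15429444586993846) (.br (nat_lit 4) (.cons (.br (nat_lit 5) (.cons (.rel (nat_lit 5369036805)) (.cons (.rel (nat_lit 10737418500)) .nil))) .nil)) (.node (.node (.node (.node .leaf (nat_lit 15429444586994444) (.br (nat_lit 3) (.cons (.br (nat_lit 4) (.cons (.rel (nat_lit 2415928320)) (.cons (.rel (nat_lit 2684420352)) .nil))) (.cons (.br (nat_lit 5) (.cons (.rel (nat_lit 8858374146)) (.cons (.rel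 (nat_lit 8858374146)) .nil))) .nil))) .leaf) (nat_lit 15429478209916305) (.br (nat_lit 1) (.cons (.br (nat_lit 4) (.cons (.rel (nat_lit 1090535568)) .nil)) .nil)) (.node .leaf (nat_lit 15429509658807533) (.br (nat_lit 0) (.cons (.br (nat_lit 1) (.cons (.rel (nat_lit 37765188)) .nil)) .nil)) .leaf)) (nat_lit 15430538349261432) (.br (nat_lit 0) (.cons (.br (nat_lit 2) (.cons (.rel (nat_lit 71827524)) .nil)) .nil)) (.node (.node .leaf (nat_lit 15430538350630912) (.br (nat_lit 0) (.cons (.br (nat_lit 1) (.cons (.rel (nat_lit 21037344)) .nil)) .nil)) .leaf) (nat_lit 15430538350632193) (.br (nat_lit 0) (.cons (.br (nat_lit 1) (.cons (.rel (nat_lit 41948673)) (.cons (.rel (nat_lit 20971860)) .nil))) .nil)) (.node .leaf (nat_lit 15430538350859521) (.br (nat_lit 2) (.cons (.br (nat_lit 4) (.cons (.rel (nat_lit 1140868116)) .nil)) .nil)) .leaf))) (nat_lit 15430541306245120) (.br (nat_lit 0) (.cons (.br (nat_lit 4) (.cons (.rel (nat_lit 1077937233)) .nil)) .nil)) (.node (.node (.node .leaf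 (nat_lit 15430541306246432) (.br (nat_lit 1) (.cons (.br (nat_lit 2) (.cons (.rel (nat_lit 83892480)) .nil)) .nil)) .leaf) (nat_lit 15430541306595328) (.br (nat_lit 0) (.cons (.br (nat_lit 3) (.cons (.rel (nat_lit 272631936)) .nil)) .nil)) (.node .leaf (nat_lit 15430541307616513) (.br (nat_lit 2) (.cons (.br (nat_lit 5) (.cons (.rel (nat_lit 4362078288)) .nil)) .nil)) .leaf)) (nat_lit 15430544096022005) (.br (nat_lit 0) (.cons (.br (nat_lit 6) (.cons (.rel (nat_lit 34368147456)) .nil)) .nil)) (.node (.node .leaf (nat_lit 15430544098286849) (.br (nat_lit 0) (.cons (.br (nat_lit 1) (.cons (.rel (nat_lit 21004545)) .nil)) .nil)) .leaf) (nat_lit 15430767435549547) (.br (nat_lit 0) (.cons (.br (nat_lit 3) (.cons (.rel (nat_lit 541069569)) .nil)) .nil)) .leaf))))))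

/-- refutations 36 -/
def e36 : EX := (.node (.node (.node (.node (.node (.node (.node .leaf (nat_lit 15434017274140672) (.br (nat_lit 0) (.cons (.br (nat_lit 1) (.cons (.rel (nat_lit 22024197)) .nil)) .nil)) .leaf) (nat_lit 15434017275934720) (.br (nat_lit 1) (.cons (.br (nat_lit 2) (.cons (.rel (nat_lit 84936720)) .nil)) .nil)) .leaf) (nat_lit 15434019377231872) (.br (nat_lit 0) (.cons (.br (nat_lit 1) (.cons (.rel (nat_lit 25247745)) .nil)) .nil)) (.node (.node .leaf (nat_lit 15434165403356397) (.br (nat_lit 3) (.cons (.br (nat_lit 4) (.cons (.rel (nat_lit 1343227137)) .nil)) .nil)) .leaf) (nat_lit 15434165403356422) (.br (nat_lit 0) (.cons (.br (nat_lit 1) (.cons (.rel (nat_lit 25236480)) .nil)) .nil)) .leaf)) (nat_lit 15434168028990101) (.br (nat_lit 1) (.cons (.br (nat_lit 3) (.cons (.rel (nat_lit 302252160)) .nil)) .nil)) (.node (.node (.node .leaf (nat_lit 15434168028990197) (.br (nat_lit 3) (.cons (.br (nat_lit 6) (.cons (.rel (nat_lit 17448566868)) .nil)) .nil)) .leaf)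 (nat_lit 15434168028990351) (.br (nat_lit 4) (.cons (.br (nat_lit 0) (.cons (.rel (nat_lit 1077952641)) (.cons (.rel (nat_lit 1077956640)) .nil))) .nil)) .leaf) (nat_lit 15434168028990371) (.br (nat_lit 6) (.cons (.br (nat_lit 1) (.cons (.rel (nat_lit 34393358340)) (.cons (.rel (nat_lit 34393358340)) .nil))) .nil)) (.node (.node .leaf (nat_lit 15434168030432657) (.br (nat_lit 2) (.cons (.br (nat_lit 6) (.cons (.rel (nat_lit 17247047712)) .nil)) .nil)) .leaf) (nat_lit 15434168031241617) (.br (nat_lit 1) (.cons (.br (nat_lit 2) (.cons (.rel (nat_lit 83886468)) (.cons (.rel (nat_lit 168050688)) .nil))) .nil)) .leaf))) (nat_lit 15434168943348973) (.br (nat_lit 6) (.cons (.br (nat_lit 1) (.cons (.rel (nat_lit 17196664836)) (.cons (.rel (nat_lit 34376778240)) .nil))) .nil)) (.node (.node (.node (.node .leaf (nat_lit 15434168943348998) (.br (nat_lit 3) (.cons (.br (nat_lit 5) (.cons (.rel (nat_lit 8858388480)) .nil)) .nil)) .leaf) (nat_lit 15434168943366776) (.br (nat_lit 6) (.cons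 (.br (nat_lit 1) (.cons (.rel (nat_lit 17196646548)) (.cons (.rel (nat_lit 17196650502)) (.cons (.rel (nat_lit 17196664836)) .nil)))) (.cons (.br (nat_lit 1) (.cons (.rel (nat_lit 17196650502)) (.cons (.rel (nat_lit 17196646548)) (.cons (.rel (nat_lit 34376778240)) .nil)))) .nil))) .leaf) (nat_lit 15434168943552512) (.br (nat_lit 1) (.cons (.br (nat_lit 4) (.cons (.rel (nat_lit 1090553856)) (.cons (.rel (nat_lit 1090553856)) .nil))) .nil)) (.node (.node .leaf (nat_lit 15434168943553264) (.br (nat_lit 2) (.cons (.br (nat_lit 4) (.cons (.rel (nat_lit 1141900800)) .nil)) .nil)) .leaf) (nat_lit 15434168944634613) (.br (nat_lit 0) (.cons (.br (nat_lit 1) (.cons (.rel (nat_lit 37748769)) .nil)) .nil)) .leaf)) (nat_lit 15434168944634741) (.br (nat_lit 0) (.cons (.br (nat_lit 2) (.cons (.rel (nat_lit 75497568)) .nil)) .nil)) (.node (.node (.node .leaf (nat_lit 15434168944790790) (.br (nat_lit 1) (.cons (.br (nat_lit 4) (.cons (.rel (nat_lit 1090539522)) .nil)) .nil)) .leaf) (nat_lit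 15434809631673872) (.br (nat_lit 0) (.cons (.br (nat_lit 3) (.cons (.rel (nat_lit 272631936)) .nil)) .nil)) .leaf) (nat_lit 15434809633945607) (.br (nat_lit 0) (.cons (.br (nat_lit 3) (.cons (.rel (nat_lit 272633877)) .nil)) .nil)) (.node (.node .leaf (nat_lit 15434812559296698) (.br (nat_lit 1) (.cons (.br (nat_lit 4) (.cons (.rel (nat_lit 1090535568)) .nil)) .nil)) .leaf) (nat_lit 15434812559297323) (.br (nat_lit 0) (.cons (.br (nat_lit 1) (.cons (.rel (nat_lit 42206208)) .nil)) .nil)) .leaf)))) (nat_lit 15434812559297944) (.br (nat_lit 0) (.cons (.br (nat_lit 1) (.cons (.rel (nat_lit 41948673)) .nil)) .nil)) (.node (.node (.node (.node (.node .leaf (nat_lit 15434812559502744) (.br (nat_lit 1) (.cons (.br (nat_lit 4) (.cons (.rel (nat_lit 1090520160)) .nil)) .nil)) .leaf) (nat_lit 15434812559509511) (.br (nat_lit 0) (.cons (.br (nat_lit 1) (.cons (.rel (nat_lit 20971860)) .nil)) .nil)) .leaf) (nat_lit 15434812559510929) (.br (nat_lit 0) (.cons (.br (nat_lit 1) (.cons (.rel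 (nat_lit 21497856)) .nil)) .nil)) (.node (.node .leaf (nat_lit 15434812562069511) (.br (nat_lit 0) (.cons (.br (nat_lit 1) (.cons (.rel (nat_lit 37748769)) .nil)) .nil)) .leaf) (nat_lit 15434813234580256) (.br (nat_lit 0) (.cons (.br (nat_lit 4) (.cons (.rel (nat_lit 1078003728)) .nil)) .nil)) .leaf)) (nat_lit 15434841790339072) (.br (nat_lit 0) (.cons (.br (nat_lit 4) (.cons (.rel (nat_lit 1077956640)) .nil)) .nil)) (.node (.node (.node .leaf (nat_lit 15434841932946040) (.br (nat_lit 1) (.cons (.br (nat_lit 2) (.cons (.rel (nat_lit 100663377)) .nil)) .nil)) .leaf) (nat_lit 15434842326272000) (.br (nat_lit 1) (.cons (.br (nat_lit 0) (.cons (.rel (nat_lit 21037344)) (.cons (.rel (nat_lit 22037520)) .nil))) .nil)) .leaf) (nat_lit 15434842326484992) (.br (nat_lit 1) (.cons (.br (nat_lit 2) (.cons (.rel (nat_lit 83886468)) .nil)) .nil)) (.node (.node .leaf (nat_lit 15434842326486517) (.br (nat_lit 0) (.cons (.br (nat_lit 1) (.cons (.rel (nat_lit 37749780)) .nil)) .nil)) .leaf) (nat_lit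 15434842327701504) (.br (nat_lit 3) (.cons (.br (nat_lit 4) (.cons (.rel (nat_lit 2415919176)) .nil)) .nil)) .leaf))) (nat_lit 15434842328522752) (.br (nat_lit 0) (.cons (.br (nat_lit 3) (.cons (.rel (nat_lit 272631936)) (.cons (.rel (nat_lit 272631936)) .nil))) .nil)) (.node (.node (.node (.node .leaf (nat_lit 15434842328545280) (.br (nat_lit 0) (.cons (.br (nat_lit 1) (.cons (.rel (nat_lit 21037344)) .nil)) .nil)) .leaf) (nat_lit 15434842328546060) (.br (nat_lit 6) (.cons (.br (nat_lit 0) (.cons (.rel (nat_lit 34368147456)) (.cons (.rel (nat_lit 17184067620)) .nil))) .nil)) .leaf) (nat_lit 15434842456295424) (.br (nat_lit 2) (.cons (.br (nat_lit 5) (.cons (.rel (nat_lit 4362084372)) .nil)) .nil)) (.node (.node .leaf (nat_lit 15434842458547601) (.br (nat_lit 0) (.cons (.br (nat_lit 1) (.cons (.rel (nat_lit 25236480)) .nil)) .nil)) .leaf) (nat_lit 15434843991410688) (.br (nat_lit 1) (.cons (.br (nat_lit 0) (.cons (.rel (nat_lit 22093824)) (.cons (.rel (nat_lit 21497856)) .nil)))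 .nil)) .leaf)) (nat_lit 15434843991410870) (.br (nat_lit 1) (.cons (.br (nat_lit 2) (.cons (.rel (nat_lit 83886468)) .nil)) .nil)) (.node (.node (.node .leaf (nat_lit 15434843991411365) (.br (nat_lit 1) (.cons (.br (nat_lit 2) (.cons (.rel (nat_lit 84952128)) .nil)) .nil)) .leaf) (nat_lit 15434843992840192) (.br (nat_lit 3) (.cons (.br (nat_lit 0) (.cons (.rel (nat_lit 272633877)) (.cons (.rel (nat_lit 272631936)) .nil))) .nil)) .leaf) (nat_lit 15434843992840992) (.br (nat_lit 0) (.cons (.br (nat_lit 1) (.cons (.rel (nat_lit 42206208)) .nil)) .nil)) (.node (.node .leaf (nat_lit 15434843993684748) (.br (nat_lit 0) (.cons (.br (nat_lit 1) (.cons (.rel (nat_lit 22093824)) .nil)) .nil)) .leaf) (nat_lit 15434843993889050) (.br (nat_lit 0) (.cons (.br (nat_lit 6) (.cons (.rel (nat_lit 17184079896)) .nil)) .nil)) .leaf))))) (nat_lit 15434843994176990) (.br (nat_lit 3) (.cons (.br (nat_lit 5) (.cons (.rel (nat_lit 4831838304)) .nil)) .nil)) (.node (.node (.node (.node (.node (.node .leaf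 (nat_lit 15434844007837696) (.br (nat_lit 4) (.cons (.br (nat_lit 5) (.cons (.rel (nat_lit 5369106432)) .nil)) .nil)) .leaf) (nat_lit 15434844008147246) (.br (nat_lit 0) (.cons (.br (nat_lit 4) (.cons (.rel (nat_lit 1077968916)) .nil)) .nil)) .leaf) (nat_lit 15434844008187904) (.br (nat_lit 1) (.cons (.br (nat_lit 4) (.cons (.rel (nat_lit 2181055488)) (.cons (.rel (nat_lit 1090520160)) (.cons (.rel (nat_lit 2164277568)) (.cons (.rel (nat_lit 2181055488)) (.cons (.rel (nat_lit 2164262160)) (.cons (.rel (nat_lit 1090553856)) .nil))))))) .nil)) (.node (.node .leaf (nat_lit 15434844008188536) (.br (nat_lit 1) (.cons (.br (nat_lit 3) (.cons (.rel (nat_lit 570445824)) .nil)) .nil)) .leaf) (nat_lit 15434844008188704) (.br (nat_lit 0) (.cons (.br (nat_lit 1) (.cons (.rel (nat_lit 42206208)) .nil)) .nil)) .leaf)) (nat_lit 15434844008189165) (.br (nat_lit 1) (.cons (.br (nat_lit 4) (.cons (.rel (nat_lit 2181055488)) (.cons (.rel (nat_lit 1090520160)) (.cons (.rel (nat_lit 2164277568))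 (.cons (.rel (nat_lit 1090520160)) (.cons (.rel (nat_lit 1090553856)) .nil)))))) .nil)) (.node (.node (.node .leaf (nat_lit 15434844008189329) (.br (nat_lit 1) (.cons (.br (nat_lit 4) (.cons (.rel (nat_lit 1090520160)) .nil)) .nil)) .leaf) (nat_lit 15434844008189464) (.br (nat_lit 1) (.cons (.br (nat_lit 3) (.cons (.rel (nat_lit 286261764)) (.cons (.rel (nat_lit 553664772)) .nil))) .nil)) .leaf) (nat_lit 15434844008392704) (.br (nat_lit 1) (.cons (.br (nat_lit 5) (.cons (.rel (nat_lit 4311876672)) .nil)) .nil)) (.node (.node .leaf (nat_lit 15434844009207808) (.br (nat_lit 1) (.cons (.br (nat_lit 5) (.cons (.rel (nat_lit 4311770112)) .nil)) .nil)) .leaf) (nat_lit 15434844009617408) (.br (nat_lit 3) (.cons (.br (nat_lit 0) (.cons (.rel (nat_lit 545260608)) (.cons (.rel (nat_lit 272634888)) (.cons (.rel (nat_lit 272631936)) .nil)))) (.cons (.br (nat_lit 0) (.cons (.rel (nat_lit 272631936)) (.cons (.rel (nat_lit 272662608)) (.cons (.rel (nat_lit 272631936)) .nil)))) .nil))) .leaf)))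 (nat_lit 15434844009630476) (.br (nat_lit 2) (.cons (.br (nat_lit 5) (.cons (.rel (nat_lit 4362108960)) .nil)) .nil)) (.node (.node (.node (.node .leaf (nat_lit 15434844009630627) (.br (nat_lit 0) (.cons (.br (nat_lit 2) (.cons (.rel (nat_lit 138416130)) .nil)) .nil)) .leaf) (nat_lit 15434844010438656) (.br (nat_lit 0) (.cons (.br (nat_lit 3) (.cons (.rel (nat_lit 545260608)) (.cons (.rel (nat_lit 272715780)) (.cons (.rel (nat_lit 272695362)) .nil)))) (.cons (.br (nat_lit 3) (.cons (.rel (nat_lit 545260608)) (.cons (.rel (nat_lit 272631936)) (.cons (.rel (nat_lit 272633877)) .nil)))) .nil))) .leaf) (nat_lit 15434844010952704) (.br (nat_lit 0) (.cons (.br (nat_lit 1) (.cons (.rel (nat_lit 25428288)) .nil)) .nil)) (.node (.node .leaf (nat_lit 15434844010952855) (.br (nat_lit 1) (.cons (.br (nat_lit 5) (.cons (.rel (nat_lit 8623490049)) .nil)) .nil)) .leaf) (nat_lit 15434844011001856) (.br (nat_lit 5) (.cons (.br (nat_lit 3) (.cons (.rel (nat_lit 4831872000)) (.cons (.rel (nat_lit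 4563730497)) (.cons (.rel (nat_lit 4563403332)) (.cons (.rel (nat_lit 4565569536)) .nil))))) .nil)) .leaf)) (nat_lit 15434844863826202) (.br (nat_lit 1) (.cons (.br (nat_lit 5) (.cons (.rel (nat_lit 4314431505)) .nil)) .nil)) (.node (.node (.node .leaf (nat_lit 15434844863826731) (.br (nat_lit 0) (.cons (.br (nat_lit 1) (.cons (.rel (nat_lit 20971860)) .nil)) .nil)) .leaf) (nat_lit 15434844863826831) (.br (nat_lit 0) (.cons (.br (nat_lit 2) (.cons (.rel (nat_lit 71369025)) .nil)) .nil)) .leaf) (nat_lit 15434844864038912) (.br (nat_lit 4) (.cons (.br (nat_lit 0) (.cons (.rel (nat_lit 1077937233)) (.cons (.rel (nat_lit 1077937233)) .nil))) .nil)) (.node (.node .leaf (nat_lit 15434844864040324) (.br (nat_lit 0) (.cons (.br (nat_lit 3) (.cons (.rel (nat_lit 272647200)) .nil)) .nil)) .leaf) (nat_lit 15434844864040348) (.br (nat_lit 0) (.cons (.br (nat_lit 1) (.cons (.rel (nat_lit 20993280)) .nil)) .nil)) .leaf)))) (nat_lit 15434844864040437) (.br (nat_lit 0) (.cons (.br (nat_lit 1)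 (.cons (.rel (nat_lit 22093824)) .nil)) .nil)) (.node (.node (.node (.node (.node .leaf (nat_lit 15434844864047884) (.br (nat_lit 0) (.cons (.br (nat_lit 4) (.cons (.rel (nat_lit 1078003728)) .nil)) .nil)) .leaf) (nat_lit 15434844864048664) (.br (nat_lit 0) (.cons (.br (nat_lit 1) (.cons (.rel (nat_lit 42206208)) .nil)) .nil)) .leaf) (nat_lit 15434844865280282) (.br (nat_lit 4) (.cons (.br (nat_lit 2) (.cons (.rel (nat_lit 2214613248)) (.cons (.rel (nat_lit 1140850842)) .nil))) .nil)) (.node (.node .leaf (nat_lit 15434844866099980) (.br (nat_lit 1) (.cons (.br (nat_lit 5) (.cons (.rel (nat_lit 4311746562)) .nil)) .nil)) .leaf) (nat_lit 15434844866590871) (.br (nat_lit 0) (.cons (.br (nat_lit 3) (.cons (.rel (nat_lit 272631936)) .nil)) .nil)) .leaf)) (nat_lit 15434844866640652) (.br (nat_lit 1) (.cons (.br (nat_lit 0) (.cons (.rel (nat_lit 37765188)) (.cons (.rel (nat_lit 20971860)) .nil))) .nil)) (.node (.node (.node .leaf (nat_lit 15434846634760824) (.br (nat_lit 3) (.cons (.br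 (nat_lit 1) (.cons (.rel (nat_lit 285279300)) (.cons (.rel (nat_lit 285212805)) .nil))) .nil)) .leaf) (nat_lit 15434846635265425) (.br (nat_lit 6) (.cons (.br (nat_lit 0) (.cons (.rel (nat_lit 17184104448)) (.cons (.rel (nat_lit 17184067620)) .nil))) .nil)) .leaf) (nat_lit 15434846636300920) (.br (nat_lit 1) (.cons (.br (nat_lit 3) (.cons (.rel (nat_lit 285216804)) .nil)) .nil)) (.node (.node .leaf (nat_lit 15434847548181115) (.br (nat_lit 1) (.cons (.br (nat_lit 3) (.cons (.rel (nat_lit 285216804)) .nil)) .nil)) .leaf) (nat_lit 15434847548181291) (.br (nat_lit 5) (.cons (.br (nat_lit 1) (.cons (.rel (nat_lit 8623490049)) (.cons (.rel (nat_lit 4311760968)) .nil))) .nil)) .leaf))) (nat_lit 15434847548181905) (.br (nat_lit 4) (.cons (.br (nat_lit 1) (.cons (.rel (nat_lit 1090535568)) (.cons (.rel (nat_lit 1090519113)) .nil))) .nil)) (.node (.node (.node (.node .leaf (nat_lit 15434847548181916) (.br (nat_lit 0) (.cons (.br (nat_lit 4) (.cons (.rel (nat_lit 1077937233)) .nil)) .nil))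 .leaf) (nat_lit 15434847548182005) (.br (nat_lit 0) (.cons (.br (nat_lit 2) (.cons (.rel (nat_lit 71827524)) .nil)) .nil)) .leaf) (nat_lit 15434847548394384) (.br (nat_lit 4) (.cons (.br (nat_lit 0) (.cons (.rel (nat_lit 1077937233)) (.cons (.rel (nat_lit 1077956640)) .nil))) .nil)) (.node (.node .leaf (nat_lit 15434847549119096) (.br (nat_lit 5) (.cons (.br (nat_lit 0) (.cons (.rel (nat_lit 8598324240)) (.cons (.rel (nat_lit 4299162633)) .nil))) .nil)) .leaf) (nat_lit 15434847549410155) (.br (nat_lit 2) (.cons (.br (nat_lit 5) (.cons (.rel (nat_lit 4362093696)) .nil)) .nil)) .leaf)) (nat_lit 15434847549428643) (.br (nat_lit 4) (.cons (.br (nat_lit 5) (.cons (.rel (nat_lit 5368709640)) .nil)) .nil)) (.node (.node (.node .leaf (nat_lit 15434847549622904) (.br (nat_lit 4) (.cons (.br (nat_lit 6) (.cons (.rel (nat_lit 18254004288)) (.cons (.rel (nat_lit 35433612288)) .nil))) .nil)) .leaf) (nat_lit 15434847549623147) (.br (nat_lit 0) (.cons (.br (nat_lit 2) (.cons (.rel (nat_lit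 72388608)) .nil)) .nil)) .leaf) (nat_lit 15434847549623697) (.br (nat_lit 0) (.cons (.br (nat_lit 4) (.cons (.rel (nat_lit 1082425344)) (.cons (.rel (nat_lit 1079001600)) .nil))) (.cons (.br (nat_lit 1) (.cons (.rel (nat_lit 21497856)) (.cons (.br (nat_lit 6) (.cons (.rel (nat_lit 17196664836)) (.cons (.rel (nat_lit 17196652560)) .nil))) (.cons (.rel (nat_lit 25165842)) .nil)))) .nil))) (.node (.node .leaf (nat_lit 15434847550945431) (.br (nat_lit 0) (.cons (.br (nat_lit 2) (.cons (.rel (nat_lit 71319816)) .nil)) .nil)) .leaf) (nat_lit 15434847550946091) (.br (nat_lit 0) (.cons (.br (nat_lit 1) (.cons (.rel (nat_lit 20971860)) .nil)) .nil)) .leaf))))))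

/-- refutations 37 -/
def e37 : EX := (.node (.node (.node (.node (.node (.node .leaf (nat_lit 15434878351149867) (.br (nat_lit 0) (.cons (.br (nat_lit 1) (.cons (.rel (nat_lit 21037344)) .nil)) .nil)) .leaf) (nat_lit 15434878352579360) (.br (nat_lit 0) (.cons (.br (nat_lit 4) (.cons (.rel (nat_lit 2155878417)) .nil)) .nil)) (.node .leaf (nat_lit 15434878369212416) (.br (nat_lit 0) (.cons (.br (nat_lit 5) (.cons (.rel (nat_lit 4299163680)) .nil)) .nil)) .leaf)) (nat_lit 15434881308134801) (.br (nat_lit 0) (.cons (.br (nat_lit 1) (.cons (.rel (nat_lit 22052928)) .nil)) .nil)) (.node (.node .leaf (nat_lit 15434881308347804) (.br (nat_lit 1) (.cons (.br (nat_lit 6) (.cons (.rel (nat_lit 34393358340)) .nil)) .nil)) .leaf) (nat_lit 15434881309564316) (.br (nat_lit 0) (.cons (.br (nat_lit 2) (.cons (.rel (nat_lit 72388608)) .nil)) .nil)) .leaf)) (nat_lit 15435967191087104) (.br (nat_lit 2) (.cons (.br (nat_lit 4) (.cons (.rel (nat_lit 1140851841)) .nil)) .nil)) (.node (.node (.node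 .leaf (nat_lit 15436164547054194) (.br (nat_lit 1) (.cons (.br (nat_lit 2) (.cons (.rel (nat_lit 83886468)) .nil)) .nil)) .leaf) (nat_lit 15436167172688653) (.br (nat_lit 2) (.cons (.br (nat_lit 4) (.cons (.rel (nat_lit 1142181888)) .nil)) .nil)) (.node .leaf (nat_lit 15436169483749633) (.br (nat_lit 0) (.cons (.br (nat_lit 3) (.cons (.rel (nat_lit 542113809)) (.cons (.br (nat_lit 4) (.cons (.rel (nat_lit 1344275520)) (.cons (.rel (nat_lit 1342308864)) .nil))) (.cons (.rel (nat_lit 272631936)) .nil)))) (.cons (.br (nat_lit 4) (.cons (.rel (nat_lit 2155876356)) (.cons (.rel (nat_lit 1077938244)) .nil))) .nil))) .leaf)) (nat_lit 15436169483750037) (.br (nat_lit 0) (.cons (.br (nat_lit 4) (.cons (.rel (nat_lit 1077937233)) (.cons (.rel (nat_lit 1077952641)) .nil))) .nil)) (.node (.node .leaf (nat_lit 15436169483750133) (.br (nat_lit 4) (.cons (.br (nat_lit 1) (.cons (.rel (nat_lit 1090520160)) (.cons (.rel (nat_lit 1090539522)) (.cons (.rel (nat_lit 1090528257)) (.cons (.rel (nat_lit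 2181055488)) .nil))))) (.cons (.br (nat_lit 6) (.cons (.rel (nat_lit 18254004288)) (.cons (.rel (nat_lit 18253627905)) (.cons (.rel (nat_lit 18253873176)) .nil)))) .nil))) .leaf) (nat_lit 15436169483769315) (.br (nat_lit 0) (.cons (.br (nat_lit 5) (.cons (.rel (nat_lit 8598324240)) (.cons (.rel (nat_lit 8598324240)) .nil))) .nil)) .leaf))) (nat_lit 15436169485036152) (.br (nat_lit 4) (.cons (.br (nat_lit 6) (.cons (.rel (nat_lit 35433496584)) .nil)) .nil)) (.node (.node (.node (.node .leaf (nat_lit 15436169485036281) (.br (nat_lit 0) (.cons (.br (nat_lit 2) (.cons (.rel (nat_lit 75531264)) .nil)) .nil)) .leaf) (nat_lit 15436169485036405) (.br (nat_lit 0) (.cons (.br (nat_lit 6) (.cons (.rel (nat_lit 34364981250)) .nil)) .nil)) (.node .leaf (nat_lit 15436169485036451) (.br (nat_lit 0) (.cons (.br (nat_lit 2) (.cons (.rel (nat_lit 75531264)) .nil)) .nil)) .leaf)) (nat_lit 15436169485036801) (.br (nat_lit 0) (.cons (.br (nat_lit 2) (.cons (.rel (nat_lit 75505665)) .nil)) .nil))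 (.node (.node .leaf (nat_lit 15436169485179506) (.br (nat_lit 0) (.cons (.br (nat_lit 3) (.cons (.rel (nat_lit 272647200)) (.cons (.rel (nat_lit 272631936)) (.cons (.rel (nat_lit 545260608)) (.cons (.rel (nat_lit 272633877)) .nil))))) (.cons (.br (nat_lit 4) (.cons (.rel (nat_lit 1082131992)) (.cons (.rel (nat_lit 2156136720)) (.cons (.rel (nat_lit 2155876356)) .nil)))) (.cons (.br (nat_lit 4) (.cons (.rel (nat_lit 1077944328)) (.cons (.rel (nat_lit 1077944328)) (.cons (.rel (nat_lit 1077956640)) .nil)))) .nil)))) .leaf) (nat_lit 15436169485191800) (.br (nat_lit 4) (.cons (.br (nat_lit 6) (.cons (.rel (nat_lit 35433496584)) (.cons (.rel (nat_lit 18255773700)) .nil))) (.cons (.br (nat_lit 1) (.cons (.rel (nat_lit 1090528257)) (.cons (.rel (nat_lit 1090519113)) (.cons (.rel (nat_lit 1090528257)) (.cons (.br (nat_lit 6) (.cons (.rel (nat_lit 17196777480)) (.cons (.rel (nat_lit 17196712032)) .nil))) .nil))))) .nil))) .leaf)) (nat_lit 15436169485192454) (.br (nat_lit 0) (.cons (.br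 (nat_lit 1) (.cons (.rel (nat_lit 20993280)) (.cons (.rel (nat_lit 20971860)) (.cons (.rel (nat_lit 37765188)) .nil)))) (.cons (.br (nat_lit 4) (.cons (.rel (nat_lit 2152218624)) (.cons (.br (nat_lit 6) (.cons (.rel (nat_lit 17185112580)) (.cons (.rel (nat_lit 35433496584)) (.cons (.rel (nat_lit 17190354945)) .nil)))) .nil))) .nil))) (.node (.node (.node .leaf (nat_lit 15436169485204088) (.br (nat_lit 0) (.cons (.br (nat_lit 2) (.cons (.rel (nat_lit 72353793)) (.cons (.rel (nat_lit 72353793)) (.cons (.rel (nat_lit 71307540)) .nil)))) (.cons (.br (nat_lit 2) (.cons (.rel (nat_lit 71435520)) (.cons (.rel (nat_lit 71435520)) (.cons (.rel (nat_lit 75763968)) .nil)))) .nil))) .leaf) (nat_lit 15436169486483463) (.br (nat_lit 6) (.cons (.br (nat_lit 4) (.cons (.rel (nat_lit 18253874178)) (.cons (.rel (nat_lit 18255773700)) (.cons (.rel (nat_lit 19327353921)) (.cons (.rel (nat_lit 18253874178)) .nil))))) .nil)) .leaf) (nat_lit 15436169486483512) (.br (nat_lit 0) (.cons (.br (nat_lit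 4) (.cons (.rel (nat_lit 1077956640)) .nil)) .nil)) (.node (.node .leaf (nat_lit 15436169486484963) (.br (nat_lit 0) (.cons (.br (nat_lit 1) (.cons (.rel (nat_lit 25166853)) (.cons (.rel (nat_lit 20971860)) .nil))) (.cons (.br (nat_lit 1) (.cons (.rel (nat_lit 42206208)) (.cons (.rel (nat_lit 20980005)) .nil))) .nil))) .leaf) (nat_lit 15436170398126262) (.br (nat_lit 2) (.cons (.br (nat_lit 6) (.cons (.rel (nat_lit 34426847520)) (.cons (.rel (nat_lit 17314087440)) .nil))) .nil)) .leaf)))) (nat_lit 15436170398126712) (.br (nat_lit 2) (.cons (.br (nat_lit 0) (.cons (.rel (nat_lit 138416130)) (.cons (.rel (nat_lit 75497568)) (.cons (.rel (nat_lit 71827524)) (.cons (.rel (nat_lit 138412176)) .nil))))) (.cons (.br (nat_lit 5) (.cons (.rel (nat_lit 4362108960)) (.cons (.rel (nat_lit 4362404160)) (.cons (.rel (nat_lit 4362108960)) (.cons (.rel (nat_lit 4362108960)) (.cons (.rel (nat_lit 4362093696)) .nil)))))) (.cons (.br (nat_lit 1) (.cons (.rel (nat_lit 83892480)) (.cons (.rel (nat_lit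 83886468)) (.cons (.rel (nat_lit 151080960)) (.cons (.rel (nat_lit 83951952)) .nil))))) .nil)))) (.node (.node (.node (.node (.node .leaf (nat_lit 15436170399550072) (.br (nat_lit 4) (.cons (.br (nat_lit 5) (.cons (.rel (nat_lit 9663741984)) (.cons (.br (nat_lit 3) (.cons (.rel (nat_lit 5637144612)) (.cons (.rel (nat_lit 4563403332)) .nil))) (.cons (.rel (nat_lit 5368972368)) .nil)))) .nil)) .leaf) (nat_lit 15436170399550726) (.br (nat_lit 0) (.cons (.br (nat_lit 6) (.cons (.rel (nat_lit 17185112580)) .nil)) .nil)) (.node .leaf (nat_lit 15436179093113719) (.br (nat_lit 0) (.cons (.br (nat_lit 5) (.cons (.rel (nat_lit 4299489552)) .nil)) .nil)) .leaf)) (nat_lit 15436179095379201) (.br (nat_lit 0) (.cons (.br (nat_lit 1) (.cons (.rel (nat_lit 37765188)) .nil)) .nil)) (.node (.node .leaf (nat_lit 15439145465093377) (.br (nat_lit 0) (.cons (.br (nat_lit 2) (.cons (.rel (nat_lit 71307540)) .nil)) .nil)) .leaf) (nat_lit 15439148420706304) (.br (nat_lit 0) (.cons (.br (nat_lit 2) (.cons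 (.rel (nat_lit 71435520)) (.cons (.rel (nat_lit 71435520)) .nil))) (.cons (.br (nat_lit 2) (.cons (.rel (nat_lit 71435520)) (.cons (.rel (nat_lit 71307540)) .nil))) .nil))) .leaf)) (nat_lit 15439148421270916) (.br (nat_lit 0) (.cons (.br (nat_lit 1) (.cons (.rel (nat_lit 20993280)) .nil)) .nil)) (.node (.node (.node .leaf (nat_lit 15439148422077697) (.br (nat_lit 2) (.cons (.br (nat_lit 5) (.cons (.rel (nat_lit 8658092049)) .nil)) .nil)) .leaf) (nat_lit 15439148423872024) (.br (nat_lit 1) (.cons (.br (nat_lit 2) (.cons (.rel (nat_lit 84936720)) .nil)) .nil)) (.node .leaf (nat_lit 15439563529608449) (.br (nat_lit 0) (.cons (.br (nat_lit 5) (.cons (.rel (nat_lit 4299162633)) .nil)) .nil)) .leaf)) (nat_lit 15440215657516433) (.br (nat_lit 0) (.cons (.br (nat_lit 1) (.cons (.rel (nat_lit 22093824)) .nil)) .nil)) (.node (.node .leaf (nat_lit 15440215657516440) (.br (nat_lit 0) (.cons (.br (nat_lit 1) (.cons (.rel (nat_lit 21004545)) .nil)) .nil)) .leaf) (nat_lit 15440215657736374)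 (.br (nat_lit 1) (.cons (.br (nat_lit 5) (.cons (.rel (nat_lit 4312039680)) .nil)) .nil)) .leaf))) (nat_lit 15440215657737624) (.br (nat_lit 2) (.cons (.br (nat_lit 4) (.cons (.rel (nat_lit 1140868116)) .nil)) .nil)) (.node (.node (.node (.node .leaf (nat_lit 15440215658945312) (.br (nat_lit 1) (.cons (.br (nat_lit 3) (.cons (.rel (nat_lit 285212805)) .nil)) .nil)) .leaf) (nat_lit 15440245395131793) (.br (nat_lit 0) (.cons (.br (nat_lit 1) (.cons (.rel (nat_lit 21037344)) .nil)) .nil)) (.node .leaf (nat_lit 15440246846359552) (.br (nat_lit 2) (.cons (.br (nat_lit 3) (.cons (.rel (nat_lit 335546400)) .nil)) .nil)) .leaf)) (nat_lit 15440246849124503) (.br (nat_lit 0) (.cons (.br (nat_lit 1) (.cons (.rel (nat_lit 25165842)) (.cons (.rel (nat_lit 25165842)) .nil))) .nil)) (.node (.node .leaf (nat_lit 15440247060269056) (.br (nat_lit 1) (.cons (.br (nat_lit 5) (.cons (.rel (nat_lit 4311876672)) .nil)) .nil)) .leaf) (nat_lit 15440247063033856) (.br (nat_lit 0) (.cons (.br (nat_lit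 4) (.cons (.rel (nat_lit 1077938244)) .nil)) .nil)) .leaf)) (nat_lit 15440247932685199) (.br (nat_lit 0) (.cons (.br (nat_lit 2) (.cons (.rel (nat_lit 71829585)) .nil)) .nil)) (.node (.node (.node .leaf (nat_lit 15440247935449239) (.br (nat_lit 2) (.cons (.br (nat_lit 3) (.cons (.rel (nat_lit 335695872)) .nil)) .nil)) .leaf) (nat_lit 15440249988098048) (.br (nat_lit 0) (.cons (.br (nat_lit 1) (.cons (.rel (nat_lit 37830672)) .nil)) .nil)) .leaf) (nat_lit 15441461797835384) (.br (nat_lit 0) (.cons (.br (nat_lit 1) (.cons (.rel (nat_lit 21037344)) .nil)) .nil)) (.node (.node .leaf (nat_lit 15441461798840995) (.br (nat_lit 0) (.cons (.br (nat_lit 1) (.cons (.rel (nat_lit 37830672)) .nil)) .nil)) .leaf) (nat_lit 15441679380173432) (.br (nat_lit 0) (.cons (.br (nat_lit 1) (.cons (.rel (nat_lit 21004545)) .nil)) .nil)) .leaf)))))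

/-- refutations 38 -/
def e38 : EX := (.node (.node (.node (.node .leaf (nat_lit 15441715871975610) (.br (nat_lit 0) (.cons (.br (nat_lit 1) (.cons (.rel (nat_lit 25165842)) (.cons (.rel (nat_lit 25165842)) (.cons (.rel (nat_lit 22037520)) .nil)))) .nil)) .leaf) (nat_lit 15441715871975699) (.br (nat_lit 1) (.cons (.br (nat_lit 5) (.cons (.rel (nat_lit 8607236112)) (.cons (.rel (nat_lit 4328783904)) (.cons (.rel (nat_lit 4313072658)) .nil)))) .nil)) .leaf) (nat_lit 15441715872196608) (.br (nat_lit 0) (.cons (.br (nat_lit 1) (.cons (.rel (nat_lit 21497856)) .nil)) .nil)) (.node .leaf (nat_lit 15441715872197240) (.br (nat_lit 1) (.cons (.br (nat_lit 0) (.cons (.rel (nat_lit 42206208)) (.cons (.rel (nat_lit 42206208)) .nil))) .nil)) .leaf)) (nat_lit 15441715872914933) (.br (nat_lit 0) (.cons (.br (nat_lit 1) (.cons (.rel (nat_lit 25165842)) .nil)) .nil)) (.node (.node .leaf (nat_lit 15441715874194040) (.br (nat_lit 1) (.cons (.br (nat_lit 2) (.cons (.rel (nat_lit 84934662)) (.cons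 (.rel (nat_lit 84934662)) (.cons (.rel (nat_lit 84934662)) .nil)))) .nil)) .leaf) (nat_lit 15441715874226451) (.br (nat_lit 0) (.cons (.br (nat_lit 1) (.cons (.rel (nat_lit 22052928)) .nil)) .nil)) (.node .leaf (nat_lit 15441715874248704) (.br (nat_lit 0) (.cons (.br (nat_lit 2) (.cons (.rel (nat_lit 71319816)) .nil)) .nil)) .leaf)))

/-- refutations 39 -/
def e39 : EX := (.node (.node (.node (.node .leaf (nat_lit 14285946244511926) (.br (nat_lit 0) (.cons (.br (nat_lit 1) (.cons (.rel (nat_lit 21037344)) .nil)) .nil)) .leaf) (nat_lit 14287277681354934) (.br (nat_lit 0) (.cons (.br (nat_lit 1) (.cons (.rel (nat_lit 21497856)) .nil)) .nil)) .leaf) (nat_lit 14287277681355408) (.br (nat_lit 0) (.cons (.br (nat_lit 2) (.cons (.rel (nat_lit 73402944)) .nil)) .nil)) (.node (.node .leaf (nat_lit 14287277681538576) (.br (nat_lit 0) (.cons (.br (nat_lit 3) (.cons (.rel (nat_lit 545260608)) .nil)) .nil)) .leaf) (nat_lit 14287495558671888) (.br (nat_lit 0) (.cons (.br (nat_lit 1) (.cons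 (.rel (nat_lit 42206208)) .nil)) .nil)) .leaf)) (nat_lit 14290662118602934) (.br (nat_lit 0) (.cons (.br (nat_lit 5) (.cons (.rel (nat_lit 4299163680)) .nil)) .nil)) (.node (.node (.node .leaf (nat_lit 14290662118604029) (.br (nat_lit 0) (.cons (.br (nat_lit 1) (.cons (.rel (nat_lit 22052928)) .nil)) .nil)) .leaf) (nat_lit 14297954970052790) (.br (nat_lit 0) (.cons (.br (nat_lit 1) (.cons (.rel (nat_lit 20993280)) .nil)) .nil)) .leaf) (nat_lit 14297954970053415) (.br (nat_lit 0) (.cons (.br (nat_lit 4) (.cons (.rel (nat_lit 1077938244)) .nil)) .nil)) (.node .leaf (nat_lit 14298009135296016) (.br (nat_lit 0) (.cons (.br (nat_lit 1) (.cons (.rel (nat_lit 20993280)) .nil)) .nil)) .leaf)))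

/-- refutations 40 -/
def e40 : EX := (.node (.node (.node (.node (.node (.node .leaf (nat_lit 15499846983153052) (.br (nat_lit 0) (.cons (.br (nat_lit 1) (.cons (.rel (nat_lit 22282500)) .nil)) .nil)) .leaf) (nat_lit 15499846983153128) (.br (nat_lit 3) (.cons (.br (nat_lit 0) (.cons (.rel (nat_lit 272631936)) (.cons (.rel (nat_lit 272633877)) .nil))) .nil)) (.node .leaf (nat_lit 15499846983461046) (.br (nat_lit 0) (.cons (.br (nat_lit 6) (.cons (.rel (nat_lit 17184130116)) .nil)) .nil)) .leaf)) (nat_lit 15499846983461050) (.br (nat_lit 0) (.cons (.br (nat_lit 1) (.cons (.rel (nat_lit 21037344)) .nil)) .nil)) (.node (.node .leaf (nat_lit 15499846983461675) (.br (nat_lit 0) (.cons (.br (nat_lit 6) (.cons (.rel (nat_lit 17184063621)) .nil)) .nil)) .leaf) (nat_lit 15499846983462289) (.br (nat_lit 0) (.cons (.br (nat_lit 2) (.cons (.rel (nat_lit 72388608)) (.cons (.rel (nat_lit 75497568)) .nil))) .nil)) .leaf)) (nat_lit 15499846983462296) (.br (nat_lit 0) (.cons (.br (nat_lit 2)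 (.cons (.rel (nat_lit 72417408)) (.cons (.rel (nat_lit 139722816)) (.cons (.rel (nat_lit 138412176)) .nil)))) (.cons (.br (nat_lit 6) (.cons (.rel (nat_lit 17184195600)) (.cons (.rel (nat_lit 17184130116)) .nil))) .nil))) (.node (.node (.node .leaf (nat_lit 15499846983462376) (.br (nat_lit 0) (.cons (.br (nat_lit 5) (.cons (.rel (nat_lit 4299165765)) .nil)) .nil)) .leaf) (nat_lit 15499846983462396) (.br (nat_lit 1) (.cons (.br (nat_lit 5) (.cons (.rel (nat_lit 8623490049)) (.cons (.rel (nat_lit 8607760512)) .nil))) .nil)) .leaf) (nat_lit 15499846983617312) (.br (nat_lit 0) (.cons (.br (nat_lit 2) (.cons (.rel (nat_lit 72353793)) .nil)) .nil)) (.node (.node .leaf (nat_lit 15499846983665939) (.br (nat_lit 0) (.cons (.br (nat_lit 5) (.cons (.rel (nat_lit 4299179088)) .nil)) .nil)) .leaf) (nat_lit 15499846983675388) (.br (nat_lit 0) (.cons (.br (nat_lit 1) (.cons (.rel (nat_lit 42206208)) .nil)) .nil)) .leaf))) (nat_lit 15499846986234656) (.br (nat_lit 0) (.cons (.br (nat_lit 2)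 (.cons (.rel (nat_lit 75531264)) .nil)) .nil)) (.node (.node (.node (.node .leaf (nat_lit 15499846986235392) (.br (nat_lit 0) (.cons (.br (nat_lit 1) (.cons (.rel (nat_lit 21004545)) .nil)) .nil)) .leaf) (nat_lit 15499847688105197) (.br (nat_lit 0) (.cons (.br (nat_lit 1) (.cons (.rel (nat_lit 20993280)) .nil)) .nil)) .leaf) (nat_lit 15499881313840536) (.br (nat_lit 0) (.cons (.br (nat_lit 5) (.cons (.rel (nat_lit 8598339648)) .nil)) .nil)) (.node (.node .leaf (nat_lit 15499881316612896) (.br (nat_lit 0) (.cons (.br (nat_lit 1) (.cons (.rel (nat_lit 21037344)) .nil)) .nil)) .leaf) (nat_lit 15505181332842671) (.br (nat_lit 0) (.cons (.br (nat_lit 1) (.cons (.rel (nat_lit 21497856)) .nil)) .nil)) .leaf)) (nat_lit 15505181332843303) (.br (nat_lit 0) (.cons (.br (nat_lit 4) (.cons (.rel (nat_lit 1077944328)) .nil)) .nil)) (.node (.node (.node .leaf (nat_lit 15505181335085063) (.br (nat_lit 0) (.cons (.br (nat_lit 1) (.cons (.rel (nat_lit 21004545)) (.cons (.rel (nat_lit 21004545))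 .nil))) .nil)) .leaf) (nat_lit 15505181961988903) (.br (nat_lit 0) (.cons (.br (nat_lit 4) (.cons (.rel (nat_lit 1077937233)) .nil)) .nil)) .leaf) (nat_lit 15505212752530844) (.br (nat_lit 0) (.cons (.br (nat_lit 2) (.cons (.rel (nat_lit 138543108)) .nil)) .nil)) (.node (.node .leaf (nat_lit 15505212754624547) (.br (nat_lit 0) (.cons (.br (nat_lit 1) (.cons (.rel (nat_lit 21497856)) .nil)) .nil)) .leaf) (nat_lit 15505215663222172) (.br (nat_lit 0) (.cons (.br (nat_lit 1) (.cons (.rel (nat_lit 21004545)) .nil)) .nil)) .leaf)))) (nat_lit 15505215663376566) (.br (nat_lit 0) (.cons (.br (nat_lit 1) (.cons (.rel (nat_lit 21497856)) .nil)) .nil)) (.node (.node (.node (.node (.node .leaf (nat_lit 15505215664666008) (.br (nat_lit 0) (.cons (.br (nat_lit 1) (.cons (.rel (nat_lit 20971860)) .nil)) .nil)) .leaf) (nat_lit 15505215665463307) (.br (nat_lit 0) (.cons (.br (nat_lit 3) (.cons (.rel (nat_lit 272662608)) .nil)) .nil)) (.node .leaf (nat_lit 15505216321727271) (.br (nat_lit 0) (.cons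 (.br (nat_lit 4) (.cons (.rel (nat_lit 1077937233)) .nil)) .nil)) .leaf)) (nat_lit 15505216321727275) (.br (nat_lit 0) (.cons (.br (nat_lit 1) (.cons (.rel (nat_lit 21037344)) .nil)) .nil)) (.node (.node .leaf (nat_lit 15505244360805788) (.br (nat_lit 1) (.cons (.br (nat_lit 5) (.cons (.rel (nat_lit 4311748692)) .nil)) .nil)) .leaf) (nat_lit 15505245415669767) (.br (nat_lit 0) (.cons (.br (nat_lit 3) (.cons (.rel (nat_lit 277348608)) .nil)) .nil)) .leaf)) (nat_lit 15505245430197776) (.br (nat_lit 1) (.cons (.br (nat_lit 5) (.cons (.rel (nat_lit 4311744549)) .nil)) .nil)) (.node (.node (.node .leaf (nat_lit 15505245432438791) (.br (nat_lit 0) (.cons (.br (nat_lit 1) (.cons (.rel (nat_lit 21037344)) .nil)) .nil)) .leaf) (nat_lit 15505245432446987) (.br (nat_lit 0) (.cons (.br (nat_lit 1) (.cons (.rel (nat_lit 21037344)) .nil)) .nil)) .leaf) (nat_lit 15505247112112939) (.br (nat_lit 0) (.cons (.br (nat_lit 3) (.cons (.rel (nat_lit 272631936)) .nil)) .nil)) (.node (.node .leaf (nat_lit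 15505247113556775) (.br (nat_lit 0) (.cons (.br (nat_lit 4) (.cons (.rel (nat_lit 1077941376)) .nil)) .nil)) .leaf) (nat_lit 15505250698231260) (.br (nat_lit 0) (.cons (.br (nat_lit 1) (.cons (.rel (nat_lit 42206208)) .nil)) .nil)) .leaf))) (nat_lit 15505250698242230) (.br (nat_lit 4) (.cons (.br (nat_lit 5) (.cons (.rel (nat_lit 5369036805)) .nil)) .nil)) (.node (.node (.node (.node .leaf (nat_lit 15505250698243309) (.br (nat_lit 0) (.cons (.br (nat_lit 1) (.cons (.rel (nat_lit 22024197)) .nil)) .nil)) .leaf) (nat_lit 15509987057068939) (.br (nat_lit 0) (.cons (.br (nat_lit 2) (.cons (.rel (nat_lit 71369025)) .nil)) .nil)) .leaf) (nat_lit 15510618761440039) (.br (nat_lit 4) (.cons (.br (nat_lit 0) (.cons (.rel (nat_lit 1077944328)) (.cons (.rel (nat_lit 1077956640)) .nil))) .nil)) (.node (.node .leaf (nat_lit 15510618761440664) (.br (nat_lit 1) (.cons (.br (nat_lit 4) (.cons (.rel (nat_lit 2164277568)) .nil)) .nil)) .leaf) (nat_lit 15511816713382668) (.br (nat_lit 1) (.cons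 (.br (nat_lit 5) (.cons (.rel (nat_lit 8607236112)) .nil)) .nil)) .leaf)) (nat_lit 15511818412076560) (.br (nat_lit 1) (.cons (.br (nat_lit 3) (.cons (.rel (nat_lit 285229080)) .nil)) .nil)) (.node (.node (.node .leaf (nat_lit 15511818413519628) (.br (nat_lit 0) (.cons (.br (nat_lit 5) (.cons (.rel (nat_lit 4299179088)) .nil)) .nil)) .leaf) (nat_lit 15511818414319120) (.br (nat_lit 0) (.cons (.br (nat_lit 3) (.cons (.rel (nat_lit 272631936)) .nil)) .nil)) .leaf) (nat_lit 15512116308323111) (.br (nat_lit 2) (.cons (.br (nat_lit 4) (.cons (.rel (nat_lit 1140868116)) .nil)) .nil)) (.node (.node .leaf (nat_lit 15512116308323740) (.br (nat_lit 0) (.cons (.br (nat_lit 2) (.cons (.rel (nat_lit 75505665)) .nil)) .nil)) .leaf) (nat_lit 15512116308323836) (.br (nat_lit 2) (.cons (.br (nat_lit 4) (.cons (.rel (nat_lit 1140883524)) .nil)) .nil)) .leaf)))))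

/-- refutations 41 -/
def e41 : EX := (.node (.node (.node (.node (.node (.node (.node .leaf (nat_lit 15569559952412184) (.br (nat_lit 0) (.cons (.br (nat_lit 5) (.cons (.rel (nat_lit 4299179088)) (.cons (.rel (nat_lit 4299294804)) .nil))) .nil)) .leaf) (nat_lit 15569562864693248) (.br (nat_lit 0) (.cons (.br (nat_lit 3) (.cons (.rel (nat_lit 272631936)) .nil)) .nil)) .leaf) (nat_lit 15569562894030848) (.br (nat_lit 0) (.cons (.br (nat_lit 1) (.cons (.rel (nat_lit 21004545)) .nil)) .nil)) (.node .leaf (nat_lit 15569562894861075) (.br (nat_lit 0) (.cons (.br (nat_lit 1) (.cons (.rel (nat_lit 25169985)) .nil)) .nil)) .leaf)) (nat_lit 15570181338548410) (.br (nat_lit 1) (.cons (.br (nat_lit 5) (.cons (.rel (nat_lit 4328783904)) (.cons (.rel (nat_lit 8623490049)) .nil))) (.cons (.br (nat_lit 4) (.cons (.rel (nat_lit 1090553856)) (.cons (.rel (nat_lit 1090528257)) .nil))) .nil))) (.node (.node .leaf (nat_lit 15570181338549660) (.br (nat_lit 4) (.cons (.br (nat_lit 2) (.cons (.rel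 (nat_lit 2215117824)) (.cons (.rel (nat_lit 1140918336)) (.cons (.rel (nat_lit 1140851841)) .nil)))) (.cons (.br (nat_lit 0) (.cons (.rel (nat_lit 1077944328)) (.cons (.rel (nat_lit 1077968916)) (.cons (.rel (nat_lit 1079001600)) .nil)))) .nil))) .leaf) (nat_lit 15570181339984679) (.br (nat_lit 4) (.cons (.br (nat_lit 5) (.cons (.rel (nat_lit 5368972368)) .nil)) .nil)) (.node .leaf (nat_lit 15570181341251584) (.br (nat_lit 4) (.cons (.br (nat_lit 0) (.cons (.rel (nat_lit 1077937233)) (.cons (.rel (nat_lit 1077941376)) .nil))) .nil)) .leaf))) (nat_lit 15570181341313210) (.br (nat_lit 0) (.cons (.br (nat_lit 4) (.cons (.rel (nat_lit 1077956640)) .nil)) .nil)) (.node (.node (.node .leaf (nat_lit 15570181967695249) (.br (nat_lit 0) (.cons (.br (nat_lit 1) (.cons (.rel (nat_lit 42206208)) .nil)) .nil)) .leaf) (nat_lit 15570181967898624) (.br (nat_lit 1) (.cons (.br (nat_lit 3) (.cons (.rel (nat_lit 285278289)) .nil)) .nil)) (.node .leaf (nat_lit 15570247130400943) (.br (nat_lit 0)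 (.cons (.br (nat_lit 5) (.cons (.rel (nat_lit 4299161622)) .nil)) .nil)) .leaf)) (nat_lit 15570247130400950) (.br (nat_lit 4) (.cons (.br (nat_lit 0) (.cons (.rel (nat_lit 1077941376)) (.cons (.rel (nat_lit 1077938244)) .nil))) .nil)) (.node (.node .leaf (nat_lit 15570247130402153) (.br (nat_lit 0) (.cons (.br (nat_lit 1) (.cons (.rel (nat_lit 25165842)) .nil)) .nil)) .leaf) (nat_lit 15570247133149184) (.br (nat_lit 0) (.cons (.br (nat_lit 1) (.cons (.rel (nat_lit 21497856)) .nil)) .nil)) (.node .leaf (nat_lit 15570250792216576) (.br (nat_lit 1) (.cons (.br (nat_lit 2) (.cons (.rel (nat_lit 83903745)) .nil)) .nil)) .leaf)))) (nat_lit 15570250793441291) (.br (nat_lit 0) (.cons (.br (nat_lit 3) (.cons (.rel (nat_lit 272634888)) .nil)) .nil)) (.node (.node (.node (.node (.node .leaf (nat_lit 15570250794285056) (.br (nat_lit 0) (.cons (.br (nat_lit 2) (.cons (.rel (nat_lit 75531264)) .nil)) .nil)) .leaf) (nat_lit 15571553131809544) (.br (nat_lit 1) (.cons (.br (nat_lit 4) (.cons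 (.rel (nat_lit 1091830800)) .nil)) .nil)) .leaf) (nat_lit 15571553133244416) (.br (nat_lit 1) (.cons (.br (nat_lit 4) (.cons (.rel (nat_lit 1090520160)) .nil)) .nil)) (.node .leaf (nat_lit 15571556386589448) (.br (nat_lit 4) (.cons (.br (nat_lit 6) (.cons (.rel (nat_lit 18254660880)) .nil)) .nil)) .leaf)) (nat_lit 15571556388845568) (.br (nat_lit 4) (.cons (.br (nat_lit 6) (.cons (.rel (nat_lit 19327420416)) .nil)) .nil)) (.node (.node .leaf (nat_lit 15574754011715584) (.br (nat_lit 0) (.cons (.br (nat_lit 1) (.cons (.rel (nat_lit 20971860)) .nil)) .nil)) .leaf) (nat_lit 15574760507689135) (.br (nat_lit 0) (.cons (.br (nat_lit 1) (.cons (.rel (nat_lit 21497856)) .nil)) .nil)) (.node .leaf (nat_lit 15574902893969443) (.br (nat_lit 0) (.cons (.br (nat_lit 1) (.cons (.rel (nat_lit 20971860)) .nil)) .nil)) .leaf))) (nat_lit 15575545438128904) (.br (nat_lit 0) (.cons (.br (nat_lit 1) (.cons (.rel (nat_lit 42206208)) (.cons (.rel (nat_lit 22024197)) .nil))) .nil)) (.node (.node (.node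 .leaf (nat_lit 15575545439563776) (.br (nat_lit 1) (.cons (.br (nat_lit 4) (.cons (.br (nat_lit 5) (.cons (.rel (nat_lit 8606712129)) (.cons (.rel (nat_lit 5368972368)) (.cons (.rel (nat_lit 5402271744)) (.cons (.rel (nat_lit 4311814176)) .nil))))) .nil)) .nil)) .leaf) (nat_lit 15575545440370699) (.br (nat_lit 0) (.cons (.br (nat_lit 1) (.cons (.rel (nat_lit 21037344)) .nil)) .nil)) (.node .leaf (nat_lit 15575545440372244) (.br (nat_lit 0) (.cons (.br (nat_lit 1) (.cons (.rel (nat_lit 21037344)) .nil)) .nil)) .leaf)) (nat_lit 15575545440385024) (.br (nat_lit 1) (.cons (.br (nat_lit 0) (.cons (.rel (nat_lit 42206208)) (.cons (.rel (nat_lit 25165842)) (.cons (.rel (nat_lit 37752912)) (.cons (.rel (nat_lit 21037344)) .nil))))) (.cons (.br (nat_lit 5) (.cons (.rel (nat_lit 4311744549)) (.cons (.rel (nat_lit 4311748692)) .nil))) .nil))) (.node (.node .leaf (nat_lit 15575547120044808) (.br (nat_lit 4) (.cons (.br (nat_lit 0) (.cons (.rel (nat_lit 1077937233)) (.cons (.rel (nat_lit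 1077937233)) .nil))) .nil)) .leaf) (nat_lit 15575547120044832) (.br (nat_lit 1) (.cons (.br (nat_lit 4) (.cons (.rel (nat_lit 1090553856)) .nil)) .nil)) (.node .leaf (nat_lit 15575547120233224) (.br (nat_lit 0) (.cons (.br (nat_lit 2) (.cons (.rel (nat_lit 75531264)) .nil)) .nil)) .leaf))))) (nat_lit 15575547121458588) (.br (nat_lit 0) (.cons (.br (nat_lit 1) (.cons (.rel (nat_lit 22037520)) .nil)) .nil)) (.node (.node (.node (.node (.node (.node .leaf (nat_lit 15575547121479680) (.br (nat_lit 4) (.cons (.br (nat_lit 1) (.cons (.rel (nat_lit 1090535568)) (.cons (.rel (nat_lit 1107558468)) .nil))) .nil)) .leaf) (nat_lit 15575547121481112) (.br (nat_lit 0) (.cons (.br (nat_lit 1) (.cons (.rel (nat_lit 22037520)) .nil)) .nil)) .leaf) (nat_lit 15575547122286592) (.br (nat_lit 1) (.cons (.br (nat_lit 3) (.cons (.rel (nat_lit 285344784)) (.cons (.rel (nat_lit 554696736)) .nil))) .nil)) (.node .leaf (nat_lit 15575547122300928) (.br (nat_lit 1) (.cons (.br (nat_lit 5) (.cons (.rel (nat_lit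 8607236112)) (.cons (.rel (nat_lit 4311814176)) (.cons (.rel (nat_lit 4328783904)) .nil)))) .nil)) .leaf)) (nat_lit 15575547122300939) (.br (nat_lit 0) (.cons (.br (nat_lit 5) (.cons (.rel (nat_lit 4303360512)) .nil)) .nil)) (.node (.node .leaf (nat_lit 15575547136821259) (.br (nat_lit 0) (.cons (.br (nat_lit 1) (.cons (.rel (nat_lit 21497856)) .nil)) .nil)) .leaf) (nat_lit 15575547136822684) (.br (nat_lit 0) (.cons (.br (nat_lit 4) (.cons (.rel (nat_lit 1077938244)) .nil)) .nil)) (.node .leaf (nat_lit 15575547138258321) (.br (nat_lit 0) (.cons (.br (nat_lit 2) (.cons (.rel (nat_lit 72351780)) .nil)) .nil)) .leaf))) (nat_lit 15575547139064584) (.br (nat_lit 0) (.cons (.br (nat_lit 1) (.cons (.rel (nat_lit 22093824)) .nil)) .nil)) (.node (.node (.node .leaf (nat_lit 15575548097317640) (.br (nat_lit 4) (.cons (.br (nat_lit 1) (.cons (.rel (nat_lit 1090535568)) (.cons (.rel (nat_lit 1090654224)) .nil))) .nil)) .leaf) (nat_lit 15575548100122624) (.br (nat_lit 1) (.cons (.br (nat_lit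 4) (.cons (.rel (nat_lit 2181055488)) .nil)) .nil)) (.node .leaf (nat_lit 15575550706175388) (.br (nat_lit 4) (.cons (.br (nat_lit 5) (.cons (.rel (nat_lit 9663676500)) .nil)) .nil)) .leaf)) (nat_lit 15575550706175488) (.br (nat_lit 0) (.cons (.br (nat_lit 4) (.cons (.rel (nat_lit 1077968916)) .nil)) .nil)) (.node (.node .leaf (nat_lit 15575550706363279) (.br (nat_lit 0) (.cons (.br (nat_lit 1) (.cons (.rel (nat_lit 20993280)) .nil)) .nil)) .leaf) (nat_lit 15575584436768152) (.br (nat_lit 0) (.cons (.br (nat_lit 4) (.cons (.rel (nat_lit 1082425344)) .nil)) .nil)) (.node .leaf (nat_lit 15575614159861760) (.br (nat_lit 0) (.cons (.br (nat_lit 5) (.cons (.rel (nat_lit 4299161622)) .nil)) .nil)) .leaf)))) (nat_lit 15575615840956416) (.br (nat_lit 0) (.cons (.br (nat_lit 4) (.cons (.rel (nat_lit 1077968916)) .nil)) .nil)) (.node (.node (.node (.node (.node .leaf (nat_lit 15575615856299544) (.br (nat_lit 0) (.cons (.br (nat_lit 1) (.cons (.rel (nat_lit 21497856)) .nil)) .nil)) .leaf)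 (nat_lit 15575615857711904) (.br (nat_lit 0) (.cons (.br (nat_lit 1) (.cons (.rel (nat_lit 42206208)) .nil)) .nil)) .leaf) (nat_lit 15575618766842663) (.br (nat_lit 0) (.cons (.br (nat_lit 1) (.cons (.rel (nat_lit 42206208)) .nil)) .nil)) (.node .leaf (nat_lit 15575618767145142) (.br (nat_lit 0) (.cons (.br (nat_lit 1) (.cons (.rel (nat_lit 21037344)) .nil)) .nil)) .leaf)) (nat_lit 15575618767145235) (.br (nat_lit 1) (.cons (.br (nat_lit 2) (.cons (.rel (nat_lit 101974017)) .nil)) .nil)) (.node (.node .leaf (nat_lit 15575618767146485) (.br (nat_lit 2) (.cons (.br (nat_lit 4) (.cons (.rel (nat_lit 1140918336)) .nil)) .nil)) .leaf) (nat_lit 15575618767333376) (.br (nat_lit 0) (.cons (.br (nat_lit 1) (.cons (.rel (nat_lit 20993280)) (.cons (.rel (nat_lit 21004545)) .nil))) (.cons (.br (nat_lit 1) (.cons (.rel (nat_lit 21037344)) (.cons (.rel (nat_lit 20993280)) .nil))) .nil))) (.node .leaf (nat_lit 15575618768580863) (.br (nat_lit 0) (.cons (.br (nat_lit 3) (.cons (.rel (nat_lit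 272631936)) .nil)) .nil)) .leaf))) (nat_lit 15575618768581415) (.br (nat_lit 5) (.cons (.br (nat_lit 4) (.cons (.rel (nat_lit 5368972368)) (.cons (.rel (nat_lit 5368709640)) .nil))) .nil)) (.node (.node (.node .leaf (nat_lit 15575618768582168) (.br (nat_lit 0) (.cons (.br (nat_lit 3) (.cons (.rel (nat_lit 272638020)) .nil)) .nil)) .leaf) (nat_lit 15575618769401856) (.br (nat_lit 0) (.cons (.br (nat_lit 5) (.cons (.rel (nat_lit 8598324240)) (.cons (.rel (nat_lit 4299162633)) .nil))) (.cons (.br (nat_lit 3) (.cons (.rel (nat_lit 272631936)) (.cons (.rel (nat_lit 272631936)) .nil))) .nil))) (.node .leaf (nat_lit 15575618769893558) (.br (nat_lit 1) (.cons (.br (nat_lit 2) (.cons (.rel (nat_lit 168050688)) .nil)) .nil)) .leaf)) (nat_lit 15580953116526767) (.br (nat_lit 0) (.cons (.br (nat_lit 1) (.cons (.rel (nat_lit 20971860)) .nil)) .nil)) (.node (.node .leaf (nat_lit 15580953116528024) (.br (nat_lit 0) (.cons (.br (nat_lit 1) (.cons (.rel (nat_lit 21004545)) .nil)) .nil)) .leaf)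 (nat_lit 15582487673949685) (.br (nat_lit 0) (.cons (.br (nat_lit 2) (.cons (.rel (nat_lit 138416130)) .nil)) .nil)) (.node .leaf (nat_lit 15582487674953205) (.br (nat_lit 0) (.cons (.br (nat_lit 4) (.cons (.rel (nat_lit 1079247873)) .nil)) .nil)) .leaf))))))

/-- refutations 42 -/
def e42 : EX := (.node (.node (.node (.node (.node .leaf (nat_lit 16397012027370904) (.br (nat_lit 0) (.cons (.br (nat_lit 5) (.cons (.rel (nat_lit 4299235392)) .nil)) .nil)) .leaf) (nat_lit 16397012030143969) (.br (nat_lit 0) (.cons (.br (nat_lit 1) (.cons (.rel (nat_lit 21497856)) (.cons (.rel (nat_lit 20993280)) .nil))) .nil)) .leaf) (nat_lit 16398345249811119) (.br (nat_lit 2) (.cons (.br (nat_lit 3) (.cons (.rel (nat_lit 335546400)) .nil)) .nil)) (.node (.node .leaf (nat_lit 16403881420712696) (.br (nat_lit 0) (.cons (.br (nat_lit 2) (.cons (.rel (nat_lit 71893008)) .nil)) .nil)) .leaf) (nat_lit 16406887265696026) (.br (nat_lit 1) (.cons (.br (nat_lit 4) (.cons (.rel (nat_lit 1090553856)) .nil))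 .nil)) .leaf)) (nat_lit 16406890538280324) (.br (nat_lit 0) (.cons (.br (nat_lit 1) (.cons (.rel (nat_lit 21004545)) .nil)) .nil)) (.node (.node (.node .leaf (nat_lit 16407191099861679) (.br (nat_lit 0) (.cons (.br (nat_lit 5) (.cons (.rel (nat_lit 8598324240)) .nil)) .nil)) .leaf) (nat_lit 16407191102175919) (.br (nat_lit 0) (.cons (.br (nat_lit 5) (.cons (.rel (nat_lit 8598324240)) (.cons (.rel (nat_lit 4299161622)) .nil))) .nil)) .leaf) (nat_lit 16407191102473479) (.br (nat_lit 0) (.cons (.br (nat_lit 1) (.cons (.rel (nat_lit 21497856)) .nil)) .nil)) (.node .leaf (nat_lit 22025898698587494) (.br (nat_lit 4) (.cons (.br (nat_lit 1) (.cons (.rel (nat_lit 1090553856)) (.cons (.rel (nat_lit 1090797825)) .nil))) .nil)) .leaf))) (nat_lit 22025900738280099) (.br (nat_lit 1) (.cons (.br (nat_lit 4) (.cons (.rel (nat_lit 1090520160)) .nil)) .nil)) (.node (.node (.node (.node .leaf (nat_lit 22027842063412582) (.br (nat_lit 1) (.cons (.br (nat_lit 4) (.cons (.rel (nat_lit 1090585608))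 .nil)) .nil)) .leaf) (nat_lit 22031089059486632) (.br (nat_lit 1) (.cons (.br (nat_lit 3) (.cons (.rel (nat_lit 304087056)) .nil)) .nil)) .leaf) (nat_lit 22031089059487078) (.br (nat_lit 1) (.cons (.br (nat_lit 3) (.cons (.rel (nat_lit 285229080)) .nil)) .nil)) (.node .leaf (nat_lit 22032953074231321) (.br (nat_lit 1) (.cons (.br (nat_lit 3) (.cons (.rel (nat_lit 285360192)) .nil)) .nil)) .leaf)) (nat_lit 22033234533350758) (.br (nat_lit 1) (.cons (.br (nat_lit 4) (.cons (.rel (nat_lit 1090654224)) .nil)) .nil)) (.node (.node (.node .leaf (nat_lit 22038785639819289) (.br (nat_lit 1) (.cons (.br (nat_lit 3) (.cons (.rel (nat_lit 285253632)) .nil)) .nil)) .leaf) (nat_lit 22038785640065049) (.br (nat_lit 1) (.cons (.br (nat_lit 2) (.cons (.rel (nat_lit 85262592)) .nil)) .nil)) .leaf) (nat_lit 22038785640880153) (.br (nat_lit 1) (.cons (.br (nat_lit 5) (.cons (.rel (nat_lit 4311746562)) (.cons (.rel (nat_lit 4312039680)) .nil))) .nil)) (.node .leaf (nat_lit 22038785640881510) (.br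 (nat_lit 1) (.cons (.br (nat_lit 3) (.cons (.rel (nat_lit 285229080)) .nil)) .nil)) .leaf))))

/-- refutations 43 -/
def e43 : EX := (.node (.node (.node (.node (.node (.node .leaf (nat_lit 22166672541204755) (.br (nat_lit 1) (.cons (.br (nat_lit 4) (.cons (.rel (nat_lit 1090553856)) .nil)) .nil)) .leaf) (nat_lit 22202430466640559) (.br (nat_lit 0) (.cons (.br (nat_lit 3) (.cons (.rel (nat_lit 272631936)) .nil)) .nil)) (.node .leaf (nat_lit 22202430497208320) (.br (nat_lit 0) (.cons (.br (nat_lit 1) (.cons (.rel (nat_lit 22093824)) .nil)) .nil)) .leaf)) (nat_lit 22202432336714639) (.br (nat_lit 0) (.cons (.br (nat_lit 1) (.cons (.rel (nat_lit 21037344)) .nil)) .nil)) (.node (.node .leaf (nat_lit 22202432336990208) (.br (nat_lit 0) (.cons (.br (nat_lit 2) (.cons (.rel (nat_lit 71827524)) .nil)) .nil)) .leaf) (nat_lit 22202432338507927) (.br (nat_lit 0) (.cons (.br (nat_lit 3) (.cons (.rel (nat_lit 272631936)) (.cons (.rel (nat_lit 272631936)) .nil))) (.cons (.br (nat_lit 3) (.cons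 (.rel (nat_lit 272631936)) (.cons (.rel (nat_lit 272631936)) .nil))) .nil))) (.node .leaf (nat_lit 22202433422068623) (.br (nat_lit 0) (.cons (.br (nat_lit 2) (.cons (.rel (nat_lit 71369025)) .nil)) .nil)) .leaf))) (nat_lit 22202433422076811) (.br (nat_lit 0) (.cons (.br (nat_lit 3) (.cons (.rel (nat_lit 545260608)) .nil)) .nil)) (.node (.node (.node .leaf (nat_lit 22202433423314944) (.br (nat_lit 0) (.cons (.br (nat_lit 5) (.cons (.rel (nat_lit 4299165765)) .nil)) .nil)) .leaf) (nat_lit 22202435205894776) (.br (nat_lit 0) (.cons (.br (nat_lit 2) (.cons (.rel (nat_lit 71319816)) (.cons (.rel (nat_lit 75563016)) .nil))) .nil)) (.node .leaf (nat_lit 22203532933459445) (.br (nat_lit 1) (.cons (.br (nat_lit 2) (.cons (.rel (nat_lit 83951952)) .nil)) .nil)) .leaf)) (nat_lit 22207148209526013) (.br (nat_lit 0) (.cons (.br (nat_lit 1) (.cons (.rel (nat_lit 21037344)) .nil)) .nil)) (.node (.node .leaf (nat_lit 22207148210805388) (.br (nat_lit 1) (.cons (.br (nat_lit 3) (.cons (.rel (nat_lit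 285278289)) .nil)) .nil)) .leaf) (nat_lit 22207148211392020) (.br (nat_lit 0) (.cons (.br (nat_lit 3) (.cons (.rel (nat_lit 272634888)) .nil)) .nil)) (.node .leaf (nat_lit 22207833304811520) (.br (nat_lit 4) (.cons (.br (nat_lit 5) (.cons (.rel (nat_lit 9663676500)) .nil)) .nil)) .leaf)))) (nat_lit 22207833304811695) (.br (nat_lit 2) (.cons (.br (nat_lit 3) (.cons (.rel (nat_lit 335546400)) .nil)) .nil)) (.node (.node (.node (.node .leaf (nat_lit 22208958584449676) (.br (nat_lit 0) (.cons (.br (nat_lit 4) (.cons (.rel (nat_lit 2155876356)) .nil)) .nil)) .leaf) (nat_lit 22208958584449784) (.br (nat_lit 0) (.cons (.br (nat_lit 1) (.cons (.rel (nat_lit 20993280)) .nil)) .nil)) (.node .leaf (nat_lit 22208958584450549) (.br (nat_lit 0) (.cons (.br (nat_lit 5) (.cons (.rel (nat_lit 4299162633)) .nil)) .nil)) .leaf)) (nat_lit 22208958585657495) (.br (nat_lit 6) (.cons (.br (nat_lit 0) (.cons (.rel (nat_lit 17184133248)) (.cons (.rel (nat_lit 17184069633)) .nil))) .nil)) (.node (.node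 .leaf (nat_lit 22208958585657996) (.br (nat_lit 1) (.cons (.br (nat_lit 0) (.cons (.rel (nat_lit 20993280)) (.cons (.rel (nat_lit 25169985)) (.cons (.rel (nat_lit 25166853)) .nil)))) .nil)) .leaf) (nat_lit 22208958585658019) (.br (nat_lit 4) (.cons (.br (nat_lit 6) (.cons (.rel (nat_lit 18253616640)) .nil)) .nil)) (.node .leaf (nat_lit 22208958585862904) (.br (nat_lit 0) (.cons (.br (nat_lit 1) (.cons (.rel (nat_lit 22024197)) (.cons (.rel (nat_lit 22052928)) .nil))) .nil)) .leaf))) (nat_lit 22208958585870398) (.br (nat_lit 1) (.cons (.br (nat_lit 5) (.cons (.rel (nat_lit 4311770112)) .nil)) .nil)) (.node (.node (.node .leaf (nat_lit 22208958586126336) (.br (nat_lit 4) (.cons (.br (nat_lit 6) (.cons (.rel (nat_lit 35433612288)) (.cons (.rel (nat_lit 18255773700)) (.cons (.rel (nat_lit 18253897728)) .nil)))) .nil)) .leaf) (nat_lit 22208958586243072) (.br (nat_lit 0) (.cons (.br (nat_lit 5) (.cons (.rel (nat_lit 4299165765)) (.cons (.rel (nat_lit 4299179088)) .nil))) (.cons (.br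 (nat_lit 5) (.cons (.rel (nat_lit 4299162633)) (.cons (.rel (nat_lit 4299232260)) .nil))) .nil))) (.node .leaf (nat_lit 22208958586243724) (.br (nat_lit 0) (.cons (.br (nat_lit 5) (.cons (.rel (nat_lit 4299162633)) (.cons (.rel (nat_lit 8595181584)) .nil))) .nil)) .leaf)) (nat_lit 22208958586244628) (.br (nat_lit 6) (.cons (.br (nat_lit 0) (.cons (.rel (nat_lit 34368132240)) (.cons (.rel (nat_lit 17184104448)) .nil))) .nil)) (.node (.node .leaf (nat_lit 22208958586904631) (.br (nat_lit 1) (.cons (.br (nat_lit 4) (.cons (.rel (nat_lit 1090528257)) .nil)) .nil)) .leaf) (nat_lit 22208958587459711) (.br (nat_lit 1) (.cons (.br (nat_lit 3) (.cons (.rel (nat_lit 285212805)) (.cons (.rel (nat_lit 285253632)) .nil))) (.cons (.br (nat_lit 3) (.cons (.rel (nat_lit 302252160)) (.cons (.rel (nat_lit 285253632)) .nil))) .nil))) (.node .leaf (nat_lit 22208958587460236) (.br (nat_lit 0) (.cons (.br (nat_lit 5) (.cons (.rel (nat_lit 4299165765)) .nil)) .nil)) .leaf))))) (nat_lit 22208958587473183)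 (.br (nat_lit 0) (.cons (.br (nat_lit 1) (.cons (.rel (nat_lit 22093824)) .nil)) .nil)) (.node (.node (.node (.node (.node .leaf (nat_lit 22208960685724925) (.br (nat_lit 0) (.cons (.br (nat_lit 5) (.cons (.rel (nat_lit 8594137344)) .nil)) .nil)) .leaf) (nat_lit 22208960685796884) (.br (nat_lit 0) (.cons (.br (nat_lit 1) (.cons (.rel (nat_lit 42206208)) .nil)) .nil)) (.node .leaf (nat_lit 22208960686001640) (.br (nat_lit 0) (.cons (.br (nat_lit 2) (.cons (.rel (nat_lit 71435520)) .nil)) .nil)) .leaf)) (nat_lit 22208960686029082) (.br (nat_lit 1) (.cons (.br (nat_lit 3) (.cons (.rel (nat_lit 285218817)) .nil)) .nil)) (.node (.node .leaf (nat_lit 22208960686034448) (.br (nat_lit 1) (.cons (.br (nat_lit 2) (.cons (.rel (nat_lit 83886468)) .nil)) .nil)) .leaf) (nat_lit 22208960686196125) (.br (nat_lit 0) (.cons (.br (nat_lit 2) (.cons (.rel (nat_lit 138412176)) .nil)) .nil)) (.node .leaf (nat_lit 22208960687003710) (.br (nat_lit 0) (.cons (.br (nat_lit 2) (.cons (.rel (nat_lit 72417408))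 .nil)) .nil)) .leaf))) (nat_lit 22208960687003799) (.br (nat_lit 2) (.cons (.br (nat_lit 6) (.cons (.rel (nat_lit 17246980098)) .nil)) .nil)) (.node (.node (.node .leaf (nat_lit 22208960687004300) (.br (nat_lit 1) (.cons (.br (nat_lit 0) (.cons (.rel (nat_lit 25169985)) (.cons (.rel (nat_lit 20993280)) (.cons (.rel (nat_lit 25166853)) .nil)))) .nil)) .leaf) (nat_lit 22208960687005200) (.br (nat_lit 0) (.cons (.br (nat_lit 1) (.cons (.rel (nat_lit 20993280)) .nil)) .nil)) (.node .leaf (nat_lit 22208960687210496) (.br (nat_lit 0) (.cons (.br (nat_lit 1) (.cons (.rel (nat_lit 42206208)) (.cons (.rel (nat_lit 22037520)) .nil))) (.cons (.br (nat_lit 1) (.cons (.rel (nat_lit 20971860)) (.cons (.rel (nat_lit 22024197)) .nil))) .nil))) .leaf)) (nat_lit 22208960687217551) (.br (nat_lit 1) (.cons (.br (nat_lit 2) (.cons (.rel (nat_lit 83886468)) .nil)) .nil)) (.node (.node .leaf (nat_lit 22208960687231883) (.br (nat_lit 0) (.cons (.br (nat_lit 1) (.cons (.rel (nat_lit 42206208)) .nil))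 .nil)) .leaf) (nat_lit 22208960687231907) (.br (nat_lit 1) (.cons (.br (nat_lit 6) (.cons (.rel (nat_lit 17213948160)) (.cons (.rel (nat_lit 17196652560)) (.cons (.rel (nat_lit 17196712032)) (.cons (.rel (nat_lit 17196777480)) .nil))))) .nil)) (.node .leaf (nat_lit 22208960687281035) (.br (nat_lit 0) (.cons (.br (nat_lit 5) (.cons (.rel (nat_lit 4303360512)) .nil)) .nil)) .leaf)))) (nat_lit 22208960687518472) (.br (nat_lit 0) (.cons (.br (nat_lit 2) (.cons (.rel (nat_lit 72351780)) .nil)) .nil)) (.node (.node (.node (.node .leaf (nat_lit 22208960687589376) (.br (nat_lit 0) (.cons (.br (nat_lit 6) (.cons (.rel (nat_lit 17184069633)) (.cons (.rel (nat_lit 17184104448)) .nil))) (.cons (.br (nat_lit 5) (.cons (.rel (nat_lit 4303360512)) (.cons (.rel (nat_lit 4299194496)) .nil))) .nil))) .leaf) (nat_lit 22208960687589626) (.br (nat_lit 1) (.cons (.br (nat_lit 2) (.cons (.rel (nat_lit 84443136)) (.cons (.rel (nat_lit 83903745)) .nil))) .nil)) (.node .leaf (nat_lit 22208960687589686)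 (.br (nat_lit 2) (.cons (.br (nat_lit 0) (.cons (.rel (nat_lit 72417408)) (.cons (.rel (nat_lit 71369025)) .nil))) .nil)) .leaf)) (nat_lit 22208960687590932) (.br (nat_lit 3) (.cons (.br (nat_lit 1) (.cons (.rel (nat_lit 554696736)) (.cons (.rel (nat_lit 285253632)) (.cons (.rel (nat_lit 554172480)) .nil)))) (.cons (.br (nat_lit 1) (.cons (.rel (nat_lit 285344784)) (.cons (.rel (nat_lit 285279300)) (.cons (.rel (nat_lit 285212805)) .nil)))) .nil))) (.node (.node .leaf (nat_lit 22208960688593202) (.br (nat_lit 2) (.cons (.br (nat_lit 5) (.cons (.rel (nat_lit 8658093060)) .nil)) .nil)) .leaf) (nat_lit 22212609539131392) (.br (nat_lit 0) (.cons (.br (nat_lit 5) (.cons (.rel (nat_lit 4299163680)) .nil)) .nil)) (.node .leaf (nat_lit 22212609539131694) (.br (nat_lit 0) (.cons (.br (nat_lit 1) (.cons (.rel (nat_lit 21004545)) (.cons (.rel (nat_lit 22052928)) .nil))) .nil)) .leaf))) (nat_lit 22212609539132079) (.br (nat_lit 0) (.cons (.br (nat_lit 1) (.cons (.rel (nat_lit 21037344))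 .nil)) .nil)) (.node (.node (.node .leaf (nat_lit 22212609940187136) (.br (nat_lit 0) (.cons (.br (nat_lit 5) (.cons (.rel (nat_lit 8598324240)) (.cons (.rel (nat_lit 8598339648)) .nil))) .nil)) .leaf) (nat_lit 22212609940187896) (.br (nat_lit 0) (.cons (.br (nat_lit 2) (.cons (.rel (nat_lit 75505665)) .nil)) .nil)) (.node .leaf (nat_lit 22212609941222032) (.br (nat_lit 2) (.cons (.br (nat_lit 1) (.cons (.rel (nat_lit 85004289)) (.cons (.rel (nat_lit 84934662)) .nil))) .nil)) .leaf)) (nat_lit 22212609941475328) (.br (nat_lit 0) (.cons (.br (nat_lit 3) (.cons (.rel (nat_lit 272631936)) .nil)) .nil)) (.node (.node .leaf (nat_lit 22212609941785507) (.br (nat_lit 0) (.cons (.br (nat_lit 2) (.cons (.rel (nat_lit 71435520)) (.cons (.rel (nat_lit 71319816)) .nil))) .nil)) .leaf) (nat_lit 22212609941786136) (.br (nat_lit 0) (.cons (.br (nat_lit 3) (.cons (.rel (nat_lit 545260608)) .nil)) .nil)) (.node .leaf (nat_lit 22214707352276469) (.br (nat_lit 1) (.cons (.br (nat_lit 2) (.cons (.rel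 (nat_lit 83903745)) .nil)) .nil)) .leaf))))))

/-- refutations 44 -/
def e44 : EX := (.node (.node (.node (.node .leaf (nat_lit 22436566731687936) (.br (nat_lit 0) (.cons (.br (nat_lit 5) (.cons (.rel (nat_lit 4299161622)) (.cons (.rel (nat_lit 4304404752)) .nil))) .nil)) .leaf) (nat_lit 22436566733117440) (.br (nat_lit 0) (.cons (.br (nat_lit 3) (.cons (.rel (nat_lit 272647200)) (.cons (.rel (nat_lit 545260608)) (.cons (.rel (nat_lit 272631936)) .nil)))) (.cons (.br (nat_lit 4) (.cons (.rel (nat_lit 1077937233)) (.cons (.rel (nat_lit 1077937233)) (.cons (.rel (nat_lit 1077938244)) (.cons (.rel (nat_lit 1077941376)) .nil))))) .nil))) (.node .leaf (nat_lit 22436566733118992) (.br (nat_lit 0) (.cons (.br (nat_lit 4) (.cons (.rel (nat_lit 1077937233)) (.cons (.rel (nat_lit 1077938244)) (.cons (.rel (nat_lit 1077941376)) .nil)))) .nil)) .leaf)) (nat_lit 22436568396826624) (.br (nat_lit 5) (.cons (.br (nat_lit 6) (.cons (.rel (nat_lit 25769812032)) .nil)) .nil)) (.node (.node .leaf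 (nat_lit 22436568396844560) (.br (nat_lit 0) (.cons (.br (nat_lit 1) (.cons (.rel (nat_lit 22052928)) .nil)) .nil)) .leaf) (nat_lit 22436568413603840) (.br (nat_lit 0) (.cons (.br (nat_lit 4) (.cons (.rel (nat_lit 1077937233)) (.cons (.rel (nat_lit 1077938244)) (.cons (.rel (nat_lit 1077937233)) .nil)))) .nil)) .leaf)) (nat_lit 22436568413605392) (.br (nat_lit 0) (.cons (.br (nat_lit 1) (.cons (.rel (nat_lit 25165842)) .nil)) .nil)) (.node (.node (.node .leaf (nat_lit 22436568415854592) (.br (nat_lit 0) (.cons (.br (nat_lit 5) (.cons (.rel (nat_lit 4299161622)) .nil)) .nil)) .leaf) (nat_lit 22443138033080320) (.br (nat_lit 0) (.cons (.br (nat_lit 4) (.cons (.rel (nat_lit 1079001600)) .nil)) .nil)) (.node .leaf (nat_lit 22443139696790936) (.br (nat_lit 0) (.cons (.br (nat_lit 1) (.cons (.rel (nat_lit 21037344)) .nil)) .nil)) .leaf)) (nat_lit 22443139713566720) (.br (nat_lit 0) (.cons (.br (nat_lit 3) (.cons (.rel (nat_lit 545260608)) .nil)) .nil)) (.node (.node .leaf (nat_lit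 22467638229428474) (.br (nat_lit 1) (.cons (.br (nat_lit 3) (.cons (.rel (nat_lit 285216804)) .nil)) .nil)) .leaf) (nat_lit 22467672589166842) (.br (nat_lit 3) (.cons (.br (nat_lit 4) (.cons (.rel (nat_lit 1342308864)) (.cons (.rel (nat_lit 2684420352)) .nil))) .nil)) .leaf)))

/-- refutations 45 -/
def e45 : EX := (.node (.node (.node (.node (.node .leaf (nat_lit 22607052821278179) (.br (nat_lit 3) (.cons (.br (nat_lit 4) (.cons (.rel (nat_lit 2684420352)) .nil)) .nil)) .leaf) (nat_lit 22607052822538422) (.br (nat_lit 4) (.cons (.br (nat_lit 2) (.cons (.rel (nat_lit 2214613248)) (.cons (.br (nat_lit 0) (.cons (.rel (nat_lit 2152727616)) (.cons (.rel (nat_lit 1077944328)) (.cons (.rel (nat_lit 76808208)) .nil)))) .nil))) .nil)) .leaf) (nat_lit 22607052822539115) (.br (nat_lit 0) (.cons (.br (nat_lit 1) (.cons (.rel (nat_lit 21004545)) .nil)) .nil)) (.node (.node .leaf (nat_lit 22607053811133923) (.br (nat_lit 0) (.cons (.br (nat_lit 4) (.cons (.rel (nat_lit 2152218624)) .nil))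 .nil)) .leaf) (nat_lit 22607053811591193) (.br (nat_lit 0) (.cons (.br (nat_lit 2) (.cons (.rel (nat_lit 72388608)) .nil)) .nil)) .leaf)) (nat_lit 22607053811591843) (.br (nat_lit 2) (.cons (.br (nat_lit 0) (.cons (.rel (nat_lit 72417408)) (.cons (.rel (nat_lit 72417408)) .nil))) .nil)) (.node (.node (.node .leaf (nat_lit 22607053811592448) (.br (nat_lit 0) (.cons (.br (nat_lit 3) (.cons (.rel (nat_lit 272631936)) .nil)) .nil)) .leaf) (nat_lit 22607053812852913) (.br (nat_lit 0) (.cons (.br (nat_lit 2) (.cons (.rel (nat_lit 138674433)) .nil)) .nil)) .leaf) (nat_lit 22607053812853041) (.br (nat_lit 0) (.cons (.br (nat_lit 6) (.cons (.rel (nat_lit 17184069633)) .nil)) .nil)) (.node .leaf (nat_lit 22608152772312425) (.br (nat_lit 0) (.cons (.br (nat_lit 1) (.cons (.rel (nat_lit 42206208)) .nil)) .nil)) .leaf))) (nat_lit 22608341311925624) (.br (nat_lit 0) (.cons (.br (nat_lit 1) (.cons (.rel (nat_lit 21037344)) .nil)) .nil)) (.node (.node (.node (.node .leaf (nat_lit 22608341312734584)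 (.br (nat_lit 1) (.cons (.br (nat_lit 2) (.cons (.rel (nat_lit 83903745)) .nil)) .nil)) .leaf) (nat_lit 22608375670222075) (.br (nat_lit 1) (.cons (.br (nat_lit 2) (.cons (.rel (nat_lit 83892480)) .nil)) .nil)) .leaf) (nat_lit 22608375672466959) (.br (nat_lit 3) (.cons (.br (nat_lit 4) (.cons (.rel (nat_lit 2415928320)) .nil)) .nil)) (.node (.node .leaf (nat_lit 22608376661060241) (.br (nat_lit 0) (.cons (.br (nat_lit 5) (.cons (.rel (nat_lit 8595193860)) .nil)) .nil)) .leaf) (nat_lit 22608376661061091) (.br (nat_lit 2) (.cons (.br (nat_lit 3) (.cons (.rel (nat_lit 671089680)) .nil)) .nil)) .leaf)) (nat_lit 22612493920349560) (.br (nat_lit 0) (.cons (.br (nat_lit 1) (.cons (.rel (nat_lit 20993280)) .nil)) .nil)) (.node (.node (.node .leaf (nat_lit 22613779288522204) (.br (nat_lit 1) (.cons (.br (nat_lit 2) (.cons (.rel (nat_lit 84149784)) .nil)) .nil)) .leaf) (nat_lit 22613781781392035) (.br (nat_lit 2) (.cons (.br (nat_lit 5) (.cons (.rel (nat_lit 8658096192)) .nil)) .nil))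 .leaf) (nat_lit 22613782409084380) (.br (nat_lit 1) (.cons (.br (nat_lit 2) (.cons (.rel (nat_lit 84934662)) .nil)) .nil)) (.node .leaf (nat_lit 22613782410538360) (.br (nat_lit 1) (.cons (.br (nat_lit 2) (.cons (.rel (nat_lit 83951952)) (.cons (.rel (nat_lit 151003200)) .nil))) .nil)) .leaf))))

/-- refutations 46 -/
def e46 : EX := (.node (.node (.node (.node (.node (.node (.node .leaf (nat_lit 22623871710856455) (.br (nat_lit 0) (.cons (.br (nat_lit 3) (.cons (.rel (nat_lit 545260608)) .nil)) .nil)) .leaf) (nat_lit 22624024859764248) (.br (nat_lit 0) (.cons (.br (nat_lit 5) (.cons (.rel (nat_lit 4299161622)) .nil)) .nil)) .leaf) (nat_lit 22624026556214808) (.br (nat_lit 1) (.cons (.br (nat_lit 5) (.cons (.rel (nat_lit 8623490049)) .nil)) .nil)) (.node (.node .leaf (nat_lit 22624026558457360) (.br (nat_lit 0) (.cons (.br (nat_lit 1) (.cons (.rel (nat_lit 21004545)) (.cons (.rel (nat_lit 37748769)) .nil))) .nil)) .leaf) (nat_lit 22624029468504071) (.br (nat_lit 0) (.cons (.br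 (nat_lit 1) (.cons (.rel (nat_lit 42206208)) .nil)) .nil)) .leaf)) (nat_lit 22624029469325319) (.br (nat_lit 0) (.cons (.br (nat_lit 3) (.cons (.rel (nat_lit 272631936)) .nil)) .nil)) (.node (.node (.node .leaf (nat_lit 22624645016170782) (.br (nat_lit 3) (.cons (.br (nat_lit 0) (.cons (.rel (nat_lit 272631936)) (.cons (.rel (nat_lit 273973248)) .nil))) .nil)) .leaf) (nat_lit 22624645016171777) (.br (nat_lit 0) (.cons (.br (nat_lit 2) (.cons (.rel (nat_lit 142607937)) .nil)) .nil)) .leaf) (nat_lit 22624645451139247) (.br (nat_lit 0) (.cons (.br (nat_lit 3) (.cons (.rel (nat_lit 272631936)) .nil)) .nil)) (.node .leaf (nat_lit 22625962462595247) (.br (nat_lit 0) (.cons (.br (nat_lit 2) (.cons (.rel (nat_lit 138430464)) .nil)) .nil)) .leaf))) (nat_lit 22625976455828336) (.br (nat_lit 0) (.cons (.br (nat_lit 1) (.cons (.rel (nat_lit 20971860)) .nil)) .nil)) (.node (.node (.node (.node .leaf (nat_lit 22626016795047440) (.br (nat_lit 0) (.cons (.br (nat_lit 4) (.cons (.rel (nat_lit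 1077968916)) .nil)) .nil)) .leaf) (nat_lit 22630013723848216) (.br (nat_lit 0) (.cons (.br (nat_lit 1) (.cons (.rel (nat_lit 20993280)) .nil)) .nil)) .leaf) (nat_lit 22630013724044040) (.br (nat_lit 0) (.cons (.br (nat_lit 1) (.cons (.rel (nat_lit 37830672)) .nil)) .nil)) (.node (.node .leaf (nat_lit 22630016651472273) (.br (nat_lit 0) (.cons (.br (nat_lit 1) (.cons (.rel (nat_lit 21037344)) .nil)) .nil)) .leaf) (nat_lit 22630046420711435) (.br (nat_lit 0) (.cons (.br (nat_lit 5) (.cons (.rel (nat_lit 4299179088)) .nil)) .nil)) .leaf)) (nat_lit 22630048085850123) (.br (nat_lit 0) (.cons (.br (nat_lit 4) (.cons (.rel (nat_lit 1077938244)) .nil)) .nil)) (.node (.node (.node .leaf (nat_lit 22630257906112818) (.br (nat_lit 2) (.cons (.br (nat_lit 5) (.cons (.rel (nat_lit 8657047809)) .nil)) .nil)) .leaf) (nat_lit 22631379523180048) (.br (nat_lit 2) (.cons (.br (nat_lit 0) (.cons (.rel (nat_lit 75531264)) (.cons (.rel (nat_lit 71307540)) .nil))) .nil)) .leaf) (nat_lit 22631379523201700)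 (.br (nat_lit 5) (.cons (.br (nat_lit 0) (.cons (.rel (nat_lit 4299194496)) (.cons (.rel (nat_lit 4299163680)) .nil))) .nil)) (.node .leaf (nat_lit 22631379523335645) (.br (nat_lit 2) (.cons (.br (nat_lit 0) (.cons (.rel (nat_lit 71827524)) (.cons (.rel (nat_lit 72353793)) .nil))) .nil)) .leaf)))) (nat_lit 22631379523335696) (.br (nat_lit 2) (.cons (.br (nat_lit 3) (.cons (.rel (nat_lit 671105088)) (.cons (.rel (nat_lit 604508160)) .nil))) (.cons (.br (nat_lit 3) (.cons (.rel (nat_lit 671105088)) (.cons (.rel (nat_lit 335546400)) .nil))) .nil))) (.node (.node (.node (.node (.node .leaf (nat_lit 22631379523455632) (.br (nat_lit 0) (.cons (.br (nat_lit 5) (.cons (.rel (nat_lit 4299424068)) .nil)) .nil)) .leaf) (nat_lit 22631379523455752) (.br (nat_lit 0) (.cons (.br (nat_lit 2) (.cons (.rel (nat_lit 71307540)) (.cons (.rel (nat_lit 75531264)) .nil))) .nil)) .leaf) (nat_lit 22631379523644944) (.br (nat_lit 4) (.cons (.br (nat_lit 5) (.cons (.rel (nat_lit 6442456065)) .nil)) .nil))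 (.node (.node .leaf (nat_lit 22631379524432528) (.br (nat_lit 0) (.cons (.br (nat_lit 2) (.cons (.rel (nat_lit 75505665)) (.cons (.rel (nat_lit 72353793)) .nil))) (.cons (.br (nat_lit 2) (.cons (.rel (nat_lit 71435520)) (.cons (.rel (nat_lit 138430464)) .nil))) .nil))) .leaf) (nat_lit 22631379524432559) (.br (nat_lit 1) (.cons (.br (nat_lit 4) (.cons (.rel (nat_lit 1107558468)) .nil)) .nil)) .leaf)) (nat_lit 22631379524458651) (.br (nat_lit 0) (.cons (.br (nat_lit 1) (.cons (.rel (nat_lit 21037344)) .nil)) .nil)) (.node (.node (.node .leaf (nat_lit 22631379524458782) (.br (nat_lit 0) (.cons (.br (nat_lit 3) (.cons (.rel (nat_lit 272633877)) .nil)) .nil)) .leaf) (nat_lit 22631379524460048) (.br (nat_lit 0) (.cons (.br (nat_lit 2) (.cons (.rel (nat_lit 138430464)) .nil)) .nil)) .leaf) (nat_lit 22631379524663972) (.br (nat_lit 0) (.cons (.br (nat_lit 1) (.cons (.rel (nat_lit 42205209)) .nil)) .nil)) (.node .leaf (nat_lit 22631379524685831) (.br (nat_lit 4) (.cons (.br (nat_lit 5)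 (.cons (.rel (nat_lit 10737418500)) .nil)) .nil)) .leaf))) (nat_lit 22631379524735231) (.br (nat_lit 0) (.cons (.br (nat_lit 2) (.cons (.rel (nat_lit 71827524)) .nil)) .nil)) (.node (.node (.node (.node .leaf (nat_lit 22631379524735856) (.br (nat_lit 2) (.cons (.br (nat_lit 0) (.cons (.rel (nat_lit 138412176)) (.cons (.rel (nat_lit 71827524)) .nil))) .nil)) .leaf) (nat_lit 22631379524736257) (.br (nat_lit 2) (.cons (.br (nat_lit 0) (.cons (.rel (nat_lit 72388608)) (.cons (.rel (nat_lit 71435520)) .nil))) .nil)) .leaf) (nat_lit 22631379524890630) (.br (nat_lit 0) (.cons (.br (nat_lit 3) (.cons (.rel (nat_lit 272647200)) .nil)) .nil)) (.node (.node .leaf (nat_lit 22631379524890879) (.br (nat_lit 1) (.cons (.br (nat_lit 2) (.cons (.br (nat_lit 0) (.cons (.rel (nat_lit 72353793)) (.cons (.rel (nat_lit 71435520)) .nil))) (.cons (.rel (nat_lit 84936720)) .nil))) .nil)) .leaf) (nat_lit 22631379524891280) (.br (nat_lit 0) (.cons (.br (nat_lit 4) (.cons (.rel (nat_lit 2151679233)) .nil))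 .nil)) .leaf)) (nat_lit 22631379524891905) (.br (nat_lit 3) (.cons (.br (nat_lit 4) (.cons (.rel (nat_lit 1611988992)) (.cons (.rel (nat_lit 1344275520)) .nil))) .nil)) (.node (.node (.node .leaf (nat_lit 22631379959664097) (.br (nat_lit 0) (.cons (.br (nat_lit 2) (.cons (.rel (nat_lit 71435520)) .nil)) .nil)) .leaf) (nat_lit 22631379960666999) (.br (nat_lit 0) (.cons (.br (nat_lit 2) (.cons (.rel (nat_lit 71827524)) .nil)) .nil)) .leaf) (nat_lit 22631382710872740) (.br (nat_lit 0) (.cons (.br (nat_lit 5) (.cons (.rel (nat_lit 4299194496)) .nil)) .nil)) (.node .leaf (nat_lit 22631382712129598) (.br (nat_lit 0) (.cons (.br (nat_lit 6) (.cons (.rel (nat_lit 17184063621)) .nil)) .nil)) .leaf))))) (nat_lit 22631382712130423) (.br (nat_lit 0) (.cons (.br (nat_lit 1) (.cons (.rel (nat_lit 25165842)) .nil)) .nil)) (.node (.node (.node (.node (.node (.node .leaf (nat_lit 22631382712406078) (.br (nat_lit 0) (.cons (.br (nat_lit 3) (.cons (.rel (nat_lit 272662608)) .nil)) .nil)) .leaf)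 (nat_lit 22631382712562340) (.br (nat_lit 0) (.cons (.br (nat_lit 2) (.cons (.rel (nat_lit 71827524)) .nil)) .nil)) .leaf) (nat_lit 22631382713587887) (.br (nat_lit 0) (.cons (.br (nat_lit 2) (.cons (.rel (nat_lit 75497568)) .nil)) .nil)) (.node (.node .leaf (nat_lit 22631383184829968) (.br (nat_lit 0) (.cons (.br (nat_lit 2) (.cons (.rel (nat_lit 71369025)) .nil)) .nil)) .leaf) (nat_lit 22631383186519297) (.br (nat_lit 0) (.cons (.br (nat_lit 2) (.cons (.rel (nat_lit 71893008)) .nil)) .nil)) .leaf)) (nat_lit 22636651478371080) (.br (nat_lit 1) (.cons (.br (nat_lit 4) (.cons (.rel (nat_lit 1090520160)) .nil)) .nil)) (.node (.node (.node .leaf (nat_lit 22636652061371920) (.br (nat_lit 0) (.cons (.br (nat_lit 1) (.cons (.rel (nat_lit 22052928)) .nil)) .nil)) .leaf) (nat_lit 22636652061378567) (.br (nat_lit 0) (.cons (.br (nat_lit 1) (.cons (.rel (nat_lit 20993280)) (.cons (.rel (nat_lit 20993280)) .nil))) .nil)) .leaf) (nat_lit 22636652061378811) (.br (nat_lit 0) (.cons (.br (nat_lit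 2) (.cons (.rel (nat_lit 71893008)) .nil)) .nil)) (.node .leaf (nat_lit 22636652061379216) (.br (nat_lit 0) (.cons (.br (nat_lit 5) (.cons (.rel (nat_lit 4299165765)) .nil)) .nil)) .leaf))) (nat_lit 22636652061379336) (.br (nat_lit 1) (.cons (.br (nat_lit 5) (.cons (.rel (nat_lit 4328783904)) (.cons (.rel (nat_lit 8607236112)) (.cons (.rel (nat_lit 4311814176)) .nil)))) .nil)) (.node (.node (.node (.node .leaf (nat_lit 22636652062814494) (.br (nat_lit 1) (.cons (.br (nat_lit 3) (.cons (.rel (nat_lit 571490832)) .nil)) .nil)) .leaf) (nat_lit 22636652062814995) (.br (nat_lit 0) (.cons (.br (nat_lit 1) (.cons (.rel (nat_lit 25165842)) .nil)) .nil)) .leaf) (nat_lit 22636652078149136) (.br (nat_lit 0) (.cons (.br (nat_lit 1) (.cons (.rel (nat_lit 42206208)) .nil)) .nil)) (.node (.node .leaf (nat_lit 22636652080412923) (.br (nat_lit 0) (.cons (.br (nat_lit 4) (.cons (.rel (nat_lit 1077938244)) .nil)) .nil)) .leaf) (nat_lit 22636653742928648) (.br (nat_lit 1) (.cons (.br (nat_lit 3)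 (.cons (.rel (nat_lit 554696736)) .nil)) .nil)) .leaf)) (nat_lit 22636653742929424) (.br (nat_lit 0) (.cons (.br (nat_lit 4) (.cons (.rel (nat_lit 1077937233)) .nil)) .nil)) (.node (.node (.node .leaf (nat_lit 22636653742980359) (.br (nat_lit 2) (.cons (.br (nat_lit 4) (.cons (.rel (nat_lit 1140868116)) .nil)) .nil)) .leaf) (nat_lit 22636653743040798) (.br (nat_lit 0) (.cons (.br (nat_lit 1) (.cons (.rel (nat_lit 20993280)) .nil)) .nil)) .leaf) (nat_lit 22636653743041188) (.br (nat_lit 5) (.cons (.br (nat_lit 0) (.cons (.rel (nat_lit 8594137344)) (.cons (.rel (nat_lit 4299424068)) .nil))) .nil)) (.node .leaf (nat_lit 22636653743175184) (.br (nat_lit 0) (.cons (.br (nat_lit 4) (.cons (.rel (nat_lit 2151679233)) .nil)) .nil)) .leaf)))) (nat_lit 22636653743238000) (.br (nat_lit 1) (.cons (.br (nat_lit 0) (.cons (.rel (nat_lit 37748769)) (.cons (.rel (nat_lit 22282500)) .nil))) .nil)) (.node (.node (.node (.node (.node .leaf (nat_lit 22636653743287824) (.br (nat_lit 5) (.cons (.br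 (nat_lit 0) (.cons (.rel (nat_lit 4299179088)) (.cons (.rel (nat_lit 4299489552)) .nil))) .nil)) .leaf) (nat_lit 22636653743294471) (.br (nat_lit 0) (.cons (.br (nat_lit 6) (.cons (.rel (nat_lit 34363933056)) .nil)) .nil)) .leaf) (nat_lit 22636653743295120) (.br (nat_lit 4) (.cons (.br (nat_lit 0) (.cons (.rel (nat_lit 1082425344)) (.cons (.rel (nat_lit 1077937233)) (.cons (.rel (nat_lit 1083244800)) .nil)))) (.cons (.br (nat_lit 2) (.cons (.rel (nat_lit 1140851841)) (.cons (.rel (nat_lit 1208223744)) (.cons (.rel (nat_lit 1140883524)) .nil)))) .nil))) (.node (.node .leaf (nat_lit 22636653743295151) (.br (nat_lit 0) (.cons (.br (nat_lit 4) (.cons (.rel (nat_lit 1077944328)) .nil)) .nil)) .leaf) (nat_lit 22636653743295240) (.br (nat_lit 1) (.cons (.br (nat_lit 0) (.cons (.br (nat_lit 4) (.cons (.rel (nat_lit 1082425344)) (.cons (.rel (nat_lit 1077941376)) (.cons (.rel (nat_lit 1090553856)) .nil)))) (.cons (.br (nat_lit 4) (.cons (.rel (nat_lit 1077968916)) (.cons (.rel (nat_lit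 1077937233)) (.cons (.rel (nat_lit 1090553856)) .nil)))) (.cons (.rel (nat_lit 25169985)) .nil)))) .nil)) .leaf)) (nat_lit 22636653743295276) (.br (nat_lit 2) (.cons (.br (nat_lit 4) (.cons (.rel (nat_lit 1140851841)) .nil)) .nil)) (.node (.node (.node .leaf (nat_lit 22636653743295776) (.br (nat_lit 4) (.cons (.br (nat_lit 6) (.cons (.rel (nat_lit 18254004288)) (.cons (.rel (nat_lit 35433496584)) .nil))) .nil)) .leaf) (nat_lit 22636653743491358) (.br (nat_lit 0) (.cons (.br (nat_lit 1) (.cons (.rel (nat_lit 20993280)) .nil)) .nil)) .leaf) (nat_lit 22636653744272016) (.br (nat_lit 3) (.cons (.br (nat_lit 1) (.cons (.rel (nat_lit 285218817)) (.cons (.rel (nat_lit 285212805)) (.cons (.rel (nat_lit 285216804)) .nil)))) .nil)) (.node .leaf (nat_lit 22636653744272172) (.br (nat_lit 0) (.cons (.br (nat_lit 2) (.cons (.rel (nat_lit 75505665)) .nil)) .nil)) .leaf))) (nat_lit 22636653744298046) (.br (nat_lit 5) (.cons (.br (nat_lit 6) (.cons (.rel (nat_lit 21474869760)) .nil)) .nil)) (.node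 (.node (.node (.node .leaf (nat_lit 22636653744298270) (.br (nat_lit 1) (.cons (.br (nat_lit 3) (.cons (.rel (nat_lit 285218817)) .nil)) .nil)) .leaf) (nat_lit 22636653744730398) (.br (nat_lit 1) (.cons (.br (nat_lit 5) (.cons (.rel (nat_lit 8623490049)) .nil)) .nil)) .leaf) (nat_lit 22636653744731424) (.br (nat_lit 5) (.cons (.br (nat_lit 0) (.cons (.rel (nat_lit 4299194496)) (.cons (.rel (nat_lit 4299163680)) .nil))) .nil)) (.node (.node .leaf (nat_lit 22636653744731612) (.br (nat_lit 0) (.cons (.br (nat_lit 2) (.cons (.rel (nat_lit 71827524)) (.cons (.rel (nat_lit 71319816)) .nil))) .nil)) .leaf) (nat_lit 22636653745552147) (.br (nat_lit 0) (.cons (.br (nat_lit 5) (.cons (.rel (nat_lit 4300489728)) .nil)) .nil)) .leaf)) (nat_lit 22636653745756446) (.br (nat_lit 1) (.cons (.br (nat_lit 3) (.cons (.rel (nat_lit 285218817)) .nil)) .nil)) (.node (.node (.node .leaf (nat_lit 22636653745756947) (.br (nat_lit 0) (.cons (.br (nat_lit 1) (.cons (.rel (nat_lit 20971860)) .nil)) .nil))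 .leaf) (nat_lit 22636653760071687) (.br (nat_lit 0) (.cons (.br (nat_lit 3) (.cons (.rel (nat_lit 272631936)) .nil)) .nil)) .leaf) (nat_lit 22636653762306824) (.br (nat_lit 0) (.cons (.br (nat_lit 3) (.cons (.rel (nat_lit 272631936)) .nil)) .nil)) (.node .leaf (nat_lit 22636653762307600) (.br (nat_lit 0) (.cons (.br (nat_lit 1) (.cons (.rel (nat_lit 25236480)) (.cons (.rel (nat_lit 37748769)) .nil))) (.cons (.br (nat_lit 1) (.cons (.rel (nat_lit 22024197)) (.cons (.rel (nat_lit 22282500)) .nil))) .nil))) .leaf))))))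

/-- refutations 47 -/
def e47 : EX := (.node (.node (.node (.node (.node (.node (.node .leaf (nat_lit 22911520744681472) (.br (nat_lit 0) (.cons (.br (nat_lit 1) (.cons (.rel (nat_lit 25165842)) (.cons (.rel (nat_lit 22037520)) .nil))) (.cons (.br (nat_lit 1) (.cons (.rel (nat_lit 21004545)) (.cons (.rel (nat_lit 37748769)) .nil))) .nil))) .leaf) (nat_lit 22911520744682733) (.br (nat_lit 0) (.cons (.br (nat_lit 1) (.cons (.rel (nat_lit 20993280)) .nil)) .nil)) (.node .leaf (nat_lit 22911520746328064) (.br (nat_lit 4) (.cons (.br (nat_lit 5) (.cons (.rel (nat_lit 10737418500)) .nil)) .nil)) .leaf)) (nat_lit 22911520746517912) (.br (nat_lit 0) (.cons (.br (nat_lit 2) (.cons (.rel (nat_lit 71435520)) (.cons (.rel (nat_lit 75531264)) .nil))) .nil)) (.node (.node .leaf (nat_lit 22911521526657274) (.br (nat_lit 1) (.cons (.br (nat_lit 2) (.cons (.rel (nat_lit 83904804)) .nil)) .nil)) .leaf) (nat_lit 22911522994663424) (.br (nat_lit 0) (.cons (.br (nat_lit 1) (.cons (.rel (nat_lit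 42206208)) .nil)) .nil)) .leaf)) (nat_lit 22912989623496986) (.br (nat_lit 0) (.cons (.br (nat_lit 1) (.cons (.rel (nat_lit 21004545)) .nil)) .nil)) (.node (.node (.node .leaf (nat_lit 22912989623497391) (.br (nat_lit 5) (.cons (.br (nat_lit 0) (.cons (.rel (nat_lit 4299179088)) (.cons (.rel (nat_lit 4299162633)) .nil))) .nil)) .leaf) (nat_lit 22912989623497615) (.br (nat_lit 0) (.cons (.br (nat_lit 1) (.cons (.rel (nat_lit 22052928)) .nil)) .nil)) (.node .leaf (nat_lit 22912989623497985) (.br (nat_lit 0) (.cons (.br (nat_lit 1) (.cons (.rel (nat_lit 21497856)) .nil)) .nil)) .leaf)) (nat_lit 22912989623744000) (.br (nat_lit 0) (.cons (.br (nat_lit 1) (.cons (.rel (nat_lit 42206208)) .nil)) .nil)) (.node (.node .leaf (nat_lit 22912989623806254) (.br (nat_lit 0) (.cons (.br (nat_lit 2) (.cons (.rel (nat_lit 72388608)) .nil)) .nil)) .leaf) (nat_lit 22912989623806639) (.br (nat_lit 0) (.cons (.br (nat_lit 5) (.cons (.rel (nat_lit 8598324240)) .nil)) .nil)) .leaf))) (nat_lit 22912989623807384)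 (.br (nat_lit 0) (.cons (.br (nat_lit 5) (.cons (.rel (nat_lit 4299163680)) (.cons (.rel (nat_lit 4299163680)) .nil))) (.cons (.br (nat_lit 5) (.cons (.rel (nat_lit 4299161622)) (.cons (.rel (nat_lit 4299161622)) .nil))) .nil))) (.node (.node (.node (.node .leaf (nat_lit 22912989623807488) (.br (nat_lit 1) (.cons (.br (nat_lit 5) (.cons (.rel (nat_lit 4311746562)) .nil)) .nil)) .leaf) (nat_lit 22912989624109056) (.br (nat_lit 5) (.cons (.br (nat_lit 2) (.cons (.rel (nat_lit 4362084372)) (.cons (.rel (nat_lit 4362084372)) (.cons (.rel (nat_lit 4362108960)) (.cons (.rel (nat_lit 4362108960)) .nil))))) .nil)) (.node .leaf (nat_lit 22912989624109743) (.br (nat_lit 4) (.cons (.br (nat_lit 1) (.cons (.rel (nat_lit 1090520160)) (.cons (.rel (nat_lit 1090553856)) .nil))) .nil)) .leaf)) (nat_lit 22912989624110337) (.br (nat_lit 0) (.cons (.br (nat_lit 1) (.cons (.rel (nat_lit 21497856)) (.cons (.rel (nat_lit 20993280)) .nil))) .nil)) (.node (.node .leaf (nat_lit 22912989624110488) (.br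 (nat_lit 1) (.cons (.br (nat_lit 5) (.cons (.rel (nat_lit 8623490049)) .nil)) .nil)) .leaf) (nat_lit 22912989624866816) (.br (nat_lit 1) (.cons (.br (nat_lit 2) (.cons (.rel (nat_lit 83903745)) (.cons (.rel (nat_lit 100664388)) .nil))) .nil)) .leaf)) (nat_lit 22912989624867118) (.br (nat_lit 0) (.cons (.br (nat_lit 1) (.cons (.rel (nat_lit 25165842)) .nil)) .nil)) (.node (.node (.node .leaf (nat_lit 22912989624867503) (.br (nat_lit 4) (.cons (.br (nat_lit 5) (.cons (.rel (nat_lit 5369778432)) .nil)) .nil)) .leaf) (nat_lit 22912989624867727) (.br (nat_lit 0) (.cons (.br (nat_lit 1) (.cons (.rel (nat_lit 21004545)) .nil)) .nil)) .leaf) (nat_lit 22912989625023375) (.br (nat_lit 0) (.cons (.br (nat_lit 1) (.cons (.rel (nat_lit 21004545)) .nil)) .nil)) (.node (.node .leaf (nat_lit 22912989625143296) (.br (nat_lit 1) (.cons (.br (nat_lit 6) (.cons (.rel (nat_lit 17196667968)) .nil)) .nil)) .leaf) (nat_lit 22912989625144103) (.br (nat_lit 0) (.cons (.br (nat_lit 1) (.cons (.rel (nat_lit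 22052928)) .nil)) .nil)) .leaf)))) (nat_lit 22912989625331712) (.br (nat_lit 6) (.cons (.br (nat_lit 1) (.cons (.rel (nat_lit 17196777480)) (.cons (.rel (nat_lit 34376778240)) .nil))) .nil)) (.node (.node (.node (.node (.node .leaf (nat_lit 22912989625331998) (.br (nat_lit 0) (.cons (.br (nat_lit 1) (.cons (.rel (nat_lit 37749780)) .nil)) .nil)) .leaf) (nat_lit 22912989625332344) (.br (nat_lit 0) (.cons (.br (nat_lit 6) (.cons (.rel (nat_lit 17184104448)) .nil)) .nil)) (.node .leaf (nat_lit 22912989625332399) (.br (nat_lit 5) (.cons (.br (nat_lit 2) (.cons (.rel (nat_lit 4362084372)) (.cons (.rel (nat_lit 4362108960)) .nil))) .nil)) .leaf)) (nat_lit 22912989625332973) (.br (nat_lit 0) (.cons (.br (nat_lit 4) (.cons (.rel (nat_lit 1077944328)) .nil)) .nil)) (.node (.node .leaf (nat_lit 22912989625332993) (.br (nat_lit 2) (.cons (.br (nat_lit 3) (.cons (.rel (nat_lit 335546400)) .nil)) .nil)) .leaf) (nat_lit 22912989625333013) (.br (nat_lit 0) (.cons (.br (nat_lit 1) (.cons (.rel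 (nat_lit 42206208)) .nil)) .nil)) .leaf)) (nat_lit 22912989625333144) (.br (nat_lit 0) (.cons (.br (nat_lit 4) (.cons (.rel (nat_lit 1077938244)) (.cons (.rel (nat_lit 1077937233)) .nil))) (.cons (.br (nat_lit 4) (.cons (.rel (nat_lit 1077952641)) (.cons (.rel (nat_lit 1077937233)) .nil))) .nil))) (.node (.node (.node .leaf (nat_lit 22912989625333217) (.br (nat_lit 0) (.cons (.br (nat_lit 1) (.cons (.rel (nat_lit 20993280)) .nil)) .nil)) .leaf) (nat_lit 22912989625404079) (.br (nat_lit 0) (.cons (.br (nat_lit 4) (.cons (.rel (nat_lit 1077937233)) .nil)) .nil)) (.node .leaf (nat_lit 22912989626423296) (.br (nat_lit 0) (.cons (.br (nat_lit 6) (.cons (.rel (nat_lit 17184063621)) .nil)) .nil)) .leaf)) (nat_lit 22912989626423478) (.br (nat_lit 1) (.cons (.br (nat_lit 0) (.cons (.rel (nat_lit 20993280)) (.cons (.rel (nat_lit 22282500)) .nil))) .nil)) (.node (.node .leaf (nat_lit 22912989626423482) (.br (nat_lit 0) (.cons (.br (nat_lit 1) (.cons (.rel (nat_lit 20971860)) .nil)) .nil))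 .leaf) (nat_lit 22912989626424096) (.br (nat_lit 1) (.cons (.br (nat_lit 6) (.cons (.rel (nat_lit 17196777480)) .nil)) .nil)) .leaf))) (nat_lit 22912989626424728) (.br (nat_lit 1) (.cons (.br (nat_lit 5) (.cons (.rel (nat_lit 4311748692)) (.cons (.rel (nat_lit 8607236112)) .nil))) .nil)) (.node (.node (.node (.node .leaf (nat_lit 22912989626560524) (.br (nat_lit 2) (.cons (.br (nat_lit 4) (.cons (.rel (nat_lit 1140851841)) .nil)) .nil)) .leaf) (nat_lit 22912989626578944) (.br (nat_lit 0) (.cons (.br (nat_lit 6) (.cons (.rel (nat_lit 17184069633)) .nil)) .nil)) (.node .leaf (nat_lit 22912989626579126) (.br (nat_lit 5) (.cons (.br (nat_lit 1) (.cons (.rel (nat_lit 4311766161)) (.cons (.rel (nat_lit 4311781377)) (.cons (.rel (nat_lit 4311745560)) .nil)))) (.cons (.br (nat_lit 1) (.cons (.rel (nat_lit 4311745560)) (.cons (.rel (nat_lit 8623490049)) (.cons (.rel (nat_lit 4311746562)) .nil)))) .nil))) .leaf)) (nat_lit 22912989626579851) (.br (nat_lit 0) (.cons (.br (nat_lit 2) (.cons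 (.rel (nat_lit 138416130)) (.cons (.rel (nat_lit 71827524)) .nil))) .nil)) (.node (.node .leaf (nat_lit 22912989626580376) (.br (nat_lit 6) (.cons (.br (nat_lit 1) (.cons (.rel (nat_lit 17196667968)) (.cons (.rel (nat_lit 17196646548)) (.cons (.rel (nat_lit 17196679233)) .nil)))) .nil)) .leaf) (nat_lit 22912990405472888) (.br (nat_lit 0) (.cons (.br (nat_lit 4) (.cons (.rel (nat_lit 1077952641)) .nil)) .nil)) .leaf)) (nat_lit 22912991871890720) (.br (nat_lit 3) (.cons (.br (nat_lit 4) (.cons (.rel (nat_lit 1610612868)) .nil)) .nil)) (.node (.node (.node .leaf (nat_lit 22912991871952896) (.br (nat_lit 1) (.cons (.br (nat_lit 2) (.cons (.rel (nat_lit 83951952)) .nil)) .nil)) .leaf) (nat_lit 22912991871953198) (.br (nat_lit 0) (.cons (.br (nat_lit 5) (.cons (.rel (nat_lit 4299161622)) .nil)) .nil)) .leaf) (nat_lit 22912991871954432) (.br (nat_lit 0) (.cons (.br (nat_lit 2) (.cons (.rel (nat_lit 75563016)) (.cons (.rel (nat_lit 71435520)) .nil))) (.cons (.br (nat_lit 3) (.cons (.rel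 (nat_lit 272631936)) (.cons (.rel (nat_lit 272633877)) .nil))) .nil))) (.node (.node .leaf (nat_lit 22912991872256000) (.br (nat_lit 0) (.cons (.br (nat_lit 2) (.cons (.rel (nat_lit 71583312)) .nil)) .nil)) .leaf) (nat_lit 22912991872987136) (.br (nat_lit 0) (.cons (.br (nat_lit 1) (.cons (.rel (nat_lit 21004545)) .nil)) .nil)) .leaf))))) (nat_lit 22912991873013760) (.br (nat_lit 1) (.cons (.br (nat_lit 5) (.cons (.rel (nat_lit 4311745560)) (.cons (.rel (nat_lit 4311745560)) .nil))) .nil)) (.node (.node (.node (.node (.node (.node .leaf (nat_lit 22912991873014671) (.br (nat_lit 0) (.cons (.br (nat_lit 1) (.cons (.rel (nat_lit 20993280)) .nil)) .nil)) .leaf) (nat_lit 22912991873015192) (.br (nat_lit 5) (.cons (.br (nat_lit 1) (.cons (.rel (nat_lit 4311745560)) (.cons (.rel (nat_lit 4311781377)) (.cons (.rel (nat_lit 4311746562)) .nil)))) .nil)) (.node .leaf (nat_lit 22912991873170689) (.br (nat_lit 0) (.cons (.br (nat_lit 1) (.cons (.rel (nat_lit 21004545)) .nil)) .nil)) .leaf))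 (nat_lit 22912991873273891) (.br (nat_lit 0) (.cons (.br (nat_lit 1) (.cons (.rel (nat_lit 42206208)) .nil)) .nil)) (.node (.node .leaf (nat_lit 22912991873273911) (.br (nat_lit 0) (.cons (.br (nat_lit 1) (.cons (.rel (nat_lit 20971860)) .nil)) .nil)) .leaf) (nat_lit 22912991873290422) (.br (nat_lit 1) (.cons (.br (nat_lit 4) (.cons (.rel (nat_lit 1090584597)) .nil)) .nil)) .leaf)) (nat_lit 22912991873478656) (.br (nat_lit 6) (.cons (.br (nat_lit 5) (.cons (.rel (nat_lit 25769807889)) (.cons (.rel (nat_lit 42949689600)) .nil))) .nil)) (.node (.node (.node .leaf (nat_lit 22912991873479917) (.br (nat_lit 0) (.cons (.br (nat_lit 4) (.cons (.rel (nat_lit 1079001600)) .nil)) .nil)) .leaf) (nat_lit 22912991873480088) (.br (nat_lit 0) (.cons (.br (nat_lit 4) (.cons (.rel (nat_lit 1077938244)) (.cons (.rel (nat_lit 1079247873)) .nil))) (.cons (.br (nat_lit 2) (.cons (.rel (nat_lit 71369025)) (.cons (.rel (nat_lit 71827524)) (.cons (.rel (nat_lit 71307540)) .nil)))) .nil))) (.node .leaf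 (nat_lit 22912991874307474) (.br (nat_lit 0) (.cons (.br (nat_lit 1) (.cons (.rel (nat_lit 21497856)) .nil)) .nil)) .leaf)) (nat_lit 22912991874571040) (.br (nat_lit 0) (.cons (.br (nat_lit 1) (.cons (.rel (nat_lit 42206208)) (.cons (.rel (nat_lit 22052928)) .nil))) (.cons (.br (nat_lit 1) (.cons (.rel (nat_lit 22052928)) (.cons (.rel (nat_lit 25169985)) .nil))) .nil))) (.node (.node .leaf (nat_lit 22912991874571672) (.br (nat_lit 6) (.cons (.br (nat_lit 2) (.cons (.rel (nat_lit 17246982228)) (.cons (.rel (nat_lit 17247014913)) .nil))) .nil)) .leaf) (nat_lit 22912991874725888) (.br (nat_lit 1) (.cons (.br (nat_lit 3) (.cons (.rel (nat_lit 285344784)) (.cons (.rel (nat_lit 285218817)) .nil))) (.cons (.br (nat_lit 3) (.cons (.rel (nat_lit 285230082)) (.cons (.rel (nat_lit 285212805)) .nil))) .nil))) .leaf))) (nat_lit 22912991874726070) (.br (nat_lit 3) (.cons (.br (nat_lit 0) (.cons (.rel (nat_lit 272631936)) (.cons (.rel (nat_lit 277090305)) .nil))) .nil)) (.node (.node (.node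 (.node .leaf (nat_lit 22912991874727320) (.br (nat_lit 0) (.cons (.br (nat_lit 5) (.cons (.rel (nat_lit 8594137344)) .nil)) .nil)) .leaf) (nat_lit 22912991874817432) (.br (nat_lit 1) (.cons (.br (nat_lit 4) (.cons (.rel (nat_lit 1090797825)) .nil)) .nil)) (.node .leaf (nat_lit 22915996100604704) (.br (nat_lit 0) (.cons (.br (nat_lit 5) (.cons (.rel (nat_lit 4299161622)) .nil)) .nil)) .leaf)) (nat_lit 22915996101127576) (.br (nat_lit 0) (.cons (.br (nat_lit 3) (.cons (.rel (nat_lit 272631936)) .nil)) .nil)) (.node (.node .leaf (nat_lit 22915996102439194) (.br (nat_lit 2) (.cons (.br (nat_lit 0) (.cons (.rel (nat_lit 71369025)) (.cons (.rel (nat_lit 71827524)) .nil))) .nil)) .leaf) (nat_lit 22915996103686326) (.br (nat_lit 2) (.cons (.br (nat_lit 3) (.cons (.rel (nat_lit 335577216)) .nil)) .nil)) .leaf)) (nat_lit 22915996882580088) (.br (nat_lit 0) (.cons (.br (nat_lit 1) (.cons (.rel (nat_lit 20971860)) .nil)) .nil)) (.node (.node (.node .leaf (nat_lit 22915996882580961) (.br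 (nat_lit 0) (.cons (.br (nat_lit 1) (.cons (.rel (nat_lit 21037344)) .nil)) .nil)) .leaf) (nat_lit 22916297381655960) (.br (nat_lit 5) (.cons (.br (nat_lit 0) (.cons (.rel (nat_lit 4299163680)) (.cons (.rel (nat_lit 4299161622)) .nil))) .nil)) .leaf) (nat_lit 22916297381964078) (.br (nat_lit 0) (.cons (.br (nat_lit 2) (.cons (.rel (nat_lit 71307540)) .nil)) .nil)) (.node (.node .leaf (nat_lit 22916297382267182) (.br (nat_lit 0) (.cons (.br (nat_lit 4) (.cons (.rel (nat_lit 1077937233)) .nil)) .nil)) .leaf) (nat_lit 22916297383180590) (.br (nat_lit 0) (.cons (.br (nat_lit 1) (.cons (.rel (nat_lit 22093824)) .nil)) .nil)) .leaf)))) (nat_lit 22916923813539840) (.br (nat_lit 0) (.cons (.br (nat_lit 6) (.cons (.rel (nat_lit 17188258368)) .nil)) .nil)) (.node (.node (.node (.node (.node .leaf (nat_lit 22916923813849999) (.br (nat_lit 0) (.cons (.br (nat_lit 5) (.cons (.rel (nat_lit 8595181584)) (.cons (.rel (nat_lit 8598324240)) .nil))) .nil)) .leaf) (nat_lit 22916923813850520) (.br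 (nat_lit 4) (.cons (.br (nat_lit 1) (.cons (.rel (nat_lit 1090553856)) (.cons (.rel (nat_lit 1090553856)) (.cons (.rel (nat_lit 1090528257)) (.cons (.rel (nat_lit 1090539522)) (.cons (.rel (nat_lit 1090535568)) .nil)))))) .nil)) (.node .leaf (nat_lit 22916923814152192) (.br (nat_lit 0) (.cons (.br (nat_lit 2) (.cons (.rel (nat_lit 71319816)) .nil)) .nil)) .leaf)) (nat_lit 22916923814152972) (.br (nat_lit 0) (.cons (.br (nat_lit 5) (.cons (.rel (nat_lit 4299162633)) .nil)) .nil)) (.node (.node .leaf (nat_lit 22916923814909952) (.br (nat_lit 2) (.cons (.br (nat_lit 0) (.cons (.rel (nat_lit 71435520)) (.cons (.rel (nat_lit 71319816)) .nil))) .nil)) .leaf) (nat_lit 22916923814910863) (.br (nat_lit 0) (.cons (.br (nat_lit 5) (.cons (.rel (nat_lit 4299163680)) .nil)) .nil)) .leaf)) (nat_lit 22916923814911233) (.br (nat_lit 0) (.cons (.br (nat_lit 5) (.cons (.rel (nat_lit 4299194496)) .nil)) .nil)) (.node (.node (.node .leaf (nat_lit 22916923814911457) (.br (nat_lit 0) (.cons (.br (nat_lit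 1) (.cons (.rel (nat_lit 21004545)) .nil)) .nil)) .leaf) (nat_lit 22916923815065600) (.br (nat_lit 5) (.cons (.br (nat_lit 6) (.cons (.rel (nat_lit 21475104768)) .nil)) .nil)) .leaf) (nat_lit 22916923815067032) (.br (nat_lit 0) (.cons (.br (nat_lit 5) (.cons (.rel (nat_lit 4299161622)) .nil)) .nil)) (.node (.node .leaf (nat_lit 22916923815179765) (.br (nat_lit 0) (.cons (.br (nat_lit 1) (.cons (.rel (nat_lit 22093824)) .nil)) .nil)) .leaf) (nat_lit 22916923815187239) (.br (nat_lit 0) (.cons (.br (nat_lit 4) (.cons (.rel (nat_lit 1077944328)) .nil)) .nil)) .leaf))) (nat_lit 22916923815375034) (.br (nat_lit 0) (.cons (.br (nat_lit 1) (.cons (.rel (nat_lit 22093824)) .nil)) .nil)) (.node (.node (.node (.node .leaf (nat_lit 22916923815375130) (.br (nat_lit 0) (.cons (.br (nat_lit 2) (.cons (.rel (nat_lit 71319816)) .nil)) .nil)) .leaf) (nat_lit 22916923815376280) (.br (nat_lit 0) (.cons (.br (nat_lit 2) (.cons (.rel (nat_lit 71827524)) (.cons (.rel (nat_lit 71319816)) (.cons (.rel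 (nat_lit 138416130)) .nil)))) .nil)) (.node .leaf (nat_lit 22916923816153088) (.br (nat_lit 0) (.cons (.br (nat_lit 1) (.cons (.rel (nat_lit 37752912)) .nil)) .nil)) .leaf)) (nat_lit 22916923816161280) (.br (nat_lit 0) (.cons (.br (nat_lit 1) (.cons (.rel (nat_lit 20993280)) .nil)) .nil)) (.node (.node .leaf (nat_lit 22916923816162712) (.br (nat_lit 1) (.cons (.br (nat_lit 4) (.cons (.rel (nat_lit 1090585608)) .nil)) .nil)) .leaf) (nat_lit 22916923816466432) (.br (nat_lit 1) (.cons (.br (nat_lit 4) (.cons (.rel (nat_lit 2181055488)) .nil)) .nil)) .leaf)) (nat_lit 22916923816467864) (.br (nat_lit 0) (.cons (.br (nat_lit 1) (.cons (.rel (nat_lit 21004545)) .nil)) .nil)) (.node (.node (.node .leaf (nat_lit 22916923816622080) (.br (nat_lit 0) (.cons (.br (nat_lit 1) (.cons (.rel (nat_lit 20993280)) .nil)) .nil)) .leaf) (nat_lit 22916923816623512) (.br (nat_lit 4) (.cons (.br (nat_lit 5) (.cons (.rel (nat_lit 5369036805)) .nil)) .nil)) .leaf) (nat_lit 22918393327065088) (.br (nat_lit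 0) (.cons (.br (nat_lit 1) (.cons (.rel (nat_lit 20971860)) .nil)) .nil)) (.node (.node .leaf (nat_lit 22918393474332149) (.br (nat_lit 0) (.cons (.br (nat_lit 1) (.cons (.rel (nat_lit 42205209)) .nil)) .nil)) .leaf) (nat_lit 22969700374285190) (.br (nat_lit 0) (.cons (.br (nat_lit 2) (.cons (.rel (nat_lit 71307540)) .nil)) .nil)) .leaf))))))

/-- refutations 48 -/
def e48 : EX := (.node (.node .leaf (nat_lit 23065549721255314) (.br (nat_lit 0) (.cons (.br (nat_lit 1) (.cons (.rel (nat_lit 42206208)) .nil)) .nil)) .leaf) (nat_lit 23075254148298903) (.br (nat_lit 0) (.cons (.br (nat_lit 2) (.cons (.rel (nat_lit 138543108)) .nil)) .nil)) .leaf)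

/-- refutations 49 -/
def e49 : EX := (.node (.node (.node (.node (.node (.node (.node .leaf (nat_lit 24189352927370721) (.br (nat_lit 2) (.cons (.br (nat_lit 5) (.cons (.rel (nat_lit 4362076230)) .nil)) .nil)) .leaf) (nat_lit 24189354012674700) (.br (nat_lit 0) (.cons (.br (nat_lit 1) (.cons (.rel (nat_lit 21497856)) .nil)) .nil)) (.node .leaf (nat_lit 24189577022098913) (.br (nat_lit 1) (.cons (.br (nat_lit 2) (.cons (.rel (nat_lit 85004289)) .nil)) .nil)) .leaf)) (nat_lit 24191449956364288) (.br (nat_lit 0) (.cons (.br (nat_lit 1) (.cons (.rel (nat_lit 21004545)) .nil)) .nil)) (.node (.node .leaf (nat_lit 24191449956365048) (.br (nat_lit 1) (.cons (.br (nat_lit 2) (.cons (.rel (nat_lit 100664388)) .nil)) .nil)) .leaf) (nat_lit 24191449956674223) (.br (nat_lit 0) (.cons (.br (nat_lit 2) (.cons (.rel (nat_lit 71435520)) .nil)) .nil)) .leaf)) (nat_lit 24191449956978025) (.br (nat_lit 1) (.cons (.br (nat_lit 2) (.cons (.rel (nat_lit 100664388)) .nil)) .nil)) (.node (.node (.node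 .leaf (nat_lit 24191449956978145) (.br (nat_lit 0) (.cons (.br (nat_lit 2) (.cons (.rel (nat_lit 71319816)) (.cons (.rel (nat_lit 71307540)) .nil))) .nil)) .leaf) (nat_lit 24191449957734400) (.br (nat_lit 0) (.cons (.br (nat_lit 5) (.cons (.rel (nat_lit 4299162633)) .nil)) .nil)) .leaf) (nat_lit 24191449957734551) (.br (nat_lit 0) (.cons (.br (nat_lit 2) (.cons (.rel (nat_lit 71435520)) .nil)) .nil)) (.node (.node .leaf (nat_lit 24191449957735160) (.br (nat_lit 0) (.cons (.br (nat_lit 3) (.cons (.rel (nat_lit 272631936)) (.cons (.rel (nat_lit 272631936)) .nil))) .nil)) .leaf) (nat_lit 24191449957735905) (.br (nat_lit 0) (.cons (.br (nat_lit 2) (.cons (.rel (nat_lit 71435520)) .nil)) .nil)) .leaf))) (nat_lit 24191449957890048) (.br (nat_lit 0) (.cons (.br (nat_lit 2) (.cons (.rel (nat_lit 71827524)) .nil)) .nil)) (.node (.node (.node (.node .leaf (nat_lit 24191449958199296) (.br (nat_lit 0) (.cons (.br (nat_lit 2) (.cons (.rel (nat_lit 71319816)) .nil)) .nil)) .leaf) (nat_lit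 24191449958973475) (.br (nat_lit 1) (.cons (.br (nat_lit 2) (.cons (.rel (nat_lit 84443136)) (.cons (.rel (nat_lit 83892480)) .nil))) (.cons (.br (nat_lit 3) (.cons (.rel (nat_lit 285229080)) (.cons (.rel (nat_lit 302252160)) .nil))) .nil))) .leaf) (nat_lit 24191449958974945) (.br (nat_lit 0) (.cons (.br (nat_lit 1) (.cons (.rel (nat_lit 20971860)) .nil)) .nil)) (.node (.node .leaf (nat_lit 24191449958987776) (.br (nat_lit 0) (.cons (.br (nat_lit 4) (.cons (.rel (nat_lit 2151698832)) .nil)) .nil)) .leaf) (nat_lit 24191449958988058) (.br (nat_lit 4) (.cons (.br (nat_lit 0) (.cons (.rel (nat_lit 1077944328)) (.cons (.rel (nat_lit 1077937233)) .nil))) .nil)) .leaf)) (nat_lit 24191449959446528) (.br (nat_lit 0) (.cons (.br (nat_lit 1) (.cons (.rel (nat_lit 25169985)) (.cons (.rel (nat_lit 22024197)) .nil))) (.cons (.br (nat_lit 1) (.cons (.rel (nat_lit 20971860)) (.cons (.rel (nat_lit 20990340)) .nil))) .nil))) (.node (.node (.node .leaf (nat_lit 24191449959448033) (.br (nat_lit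 5) (.cons (.br (nat_lit 1) (.cons (.rel (nat_lit 8623490049)) (.cons (.rel (nat_lit 4311745560)) .nil))) .nil)) .leaf) (nat_lit 24191449959528448) (.br (nat_lit 0) (.cons (.br (nat_lit 1) (.cons (.rel (nat_lit 25165842)) .nil)) .nil)) .leaf) (nat_lit 24194925923257825) (.br (nat_lit 1) (.cons (.br (nat_lit 6) (.cons (.rel (nat_lit 17196650502)) .nil)) .nil)) (.node (.node .leaf (nat_lit 24194925925513216) (.br (nat_lit 1) (.cons (.br (nat_lit 3) (.cons (.rel (nat_lit 285278289)) .nil)) .nil)) .leaf) (nat_lit 24194928024807424) (.br (nat_lit 0) (.cons (.br (nat_lit 1) (.cons (.rel (nat_lit 25236480)) .nil)) .nil)) .leaf)))) (nat_lit 24195750326291937) (.br (nat_lit 0) (.cons (.br (nat_lit 1) (.cons (.rel (nat_lit 22024197)) .nil)) .nil)) (.node (.node (.node (.node (.node .leaf (nat_lit 24195750328548259) (.br (nat_lit 0) (.cons (.br (nat_lit 1) (.cons (.rel (nat_lit 25169985)) .nil)) .nil)) .leaf) (nat_lit 24195753514964992) (.br (nat_lit 0) (.cons (.br (nat_lit 3) (.cons (.rel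 (nat_lit 272633877)) .nil)) .nil)) (.node .leaf (nat_lit 24195753514965178) (.br (nat_lit 0) (.cons (.br (nat_lit 1) (.cons (.rel (nat_lit 20971860)) .nil)) .nil)) .leaf)) (nat_lit 24195753516759040) (.br (nat_lit 0) (.cons (.br (nat_lit 3) (.cons (.rel (nat_lit 545260608)) .nil)) .nil)) (.node (.node .leaf (nat_lit 24195956211789057) (.br (nat_lit 2) (.cons (.br (nat_lit 3) (.cons (.rel (nat_lit 335806788)) .nil)) .nil)) .leaf) (nat_lit 24195956214333475) (.br (nat_lit 0) (.cons (.br (nat_lit 2) (.cons (.rel (nat_lit 72351780)) .nil)) .nil)) .leaf)) (nat_lit 24196875607356897) (.br (nat_lit 0) (.cons (.br (nat_lit 2) (.cons (.rel (nat_lit 75497568)) .nil)) .nil)) (.node (.node (.node .leaf (nat_lit 24196875607969249) (.br (nat_lit 2) (.cons (.br (nat_lit 3) (.cons (.rel (nat_lit 402653697)) .nil)) .nil)) .leaf) (nat_lit 24196875608725504) (.br (nat_lit 0) (.cons (.br (nat_lit 2) (.cons (.rel (nat_lit 75497568)) .nil)) .nil)) .leaf) (nat_lit 24196875608727009) (.br (nat_lit 0)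 (.cons (.br (nat_lit 2) (.cons (.rel (nat_lit 71319816)) .nil)) .nil)) (.node (.node .leaf (nat_lit 24196875608881152) (.br (nat_lit 0) (.cons (.br (nat_lit 2) (.cons (.rel (nat_lit 72388608)) .nil)) .nil)) .leaf) (nat_lit 24196875608882657) (.br (nat_lit 0) (.cons (.br (nat_lit 2) (.cons (.rel (nat_lit 75497568)) .nil)) .nil)) .leaf))) (nat_lit 24200054098393848) (.br (nat_lit 3) (.cons (.br (nat_lit 5) (.cons (.rel (nat_lit 4832104704)) .nil)) .nil)) (.node (.node (.node (.node .leaf (nat_lit 24200056215187456) (.br (nat_lit 1) (.cons (.br (nat_lit 2) (.cons (.rel (nat_lit 83892480)) .nil)) .nil)) .leaf) (nat_lit 24200056215188236) (.br (nat_lit 2) (.cons (.br (nat_lit 5) (.cons (.rel (nat_lit 4362142725)) .nil)) .nil)) .leaf) (nat_lit 24200056216714721) (.br (nat_lit 2) (.cons (.br (nat_lit 3) (.cons (.rel (nat_lit 335613969)) .nil)) .nil)) (.node (.node .leaf (nat_lit 24200056216785676) (.br (nat_lit 0) (.cons (.br (nat_lit 3) (.cons (.rel (nat_lit 545260608)) .nil)) .nil))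 .leaf) (nat_lit 24200057070825472) (.br (nat_lit 4) (.cons (.br (nat_lit 1) (.cons (.rel (nat_lit 1090520160)) (.cons (.rel (nat_lit 1090535568)) (.cons (.rel (nat_lit 1090520160)) .nil)))) (.cons (.br (nat_lit 1) (.cons (.rel (nat_lit 1090519113)) (.cons (.rel (nat_lit 1090541592)) (.cons (.rel (nat_lit 2181055488)) .nil)))) .nil))) .leaf)) (nat_lit 24200057070826232) (.br (nat_lit 4) (.cons (.br (nat_lit 1) (.cons (.rel (nat_lit 2164262160)) (.cons (.rel (nat_lit 1090541592)) .nil))) .nil)) (.node (.node (.node .leaf (nat_lit 24200057070826252) (.br (nat_lit 1) (.cons (.br (nat_lit 5) (.cons (.rel (nat_lit 4311745560)) .nil)) .nil)) .leaf) (nat_lit 24200057070826977) (.br (nat_lit 4) (.cons (.br (nat_lit 6) (.cons (.rel (nat_lit 18254004288)) (.cons (.rel (nat_lit 18253874178)) .nil))) (.cons (.br (nat_lit 6) (.cons (.rel (nat_lit 18253874178)) (.cons (.rel (nat_lit 18254676288)) .nil))) .nil))) .leaf) (nat_lit 24200057071121010) (.br (nat_lit 0) (.cons (.br (nat_lit 4) (.cons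 (.rel (nat_lit 1077968916)) .nil)) .nil)) (.node (.node .leaf (nat_lit 24200057071121889) (.br (nat_lit 1) (.cons (.br (nat_lit 6) (.cons (.rel (nat_lit 17196777480)) (.cons (.rel (nat_lit 17196646548)) .nil))) .nil)) .leaf) (nat_lit 24200057071175680) (.br (nat_lit 1) (.cons (.br (nat_lit 5) (.cons (.rel (nat_lit 8607236112)) .nil)) .nil)) .leaf))))) (nat_lit 24200057071176332) (.br (nat_lit 1) (.cons (.br (nat_lit 0) (.cons (.rel (nat_lit 42206208)) (.cons (.rel (nat_lit 37748769)) .nil))) .nil)) (.node (.node (.node (.node (.node (.node .leaf (nat_lit 24200057071176961) (.br (nat_lit 0) (.cons (.br (nat_lit 2) (.cons (.rel (nat_lit 71893008)) .nil)) .nil)) .leaf) (nat_lit 24200057071348592) (.br (nat_lit 2) (.cons (.br (nat_lit 4) (.cons (.rel (nat_lit 2281735173)) .nil)) .nil)) (.node .leaf (nat_lit 24200057071349144) (.br (nat_lit 1) (.cons (.br (nat_lit 4) (.cons (.rel (nat_lit 1107558468)) .nil)) .nil)) .leaf)) (nat_lit 24200057071349217) (.br (nat_lit 3) (.cons (.br (nat_lit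 1) (.cons (.rel (nat_lit 285253632)) (.cons (.rel (nat_lit 285218817)) .nil))) .nil)) (.node (.node .leaf (nat_lit 24200057071381256) (.br (nat_lit 1) (.cons (.br (nat_lit 4) (.cons (.rel (nat_lit 2181055488)) .nil)) .nil)) .leaf) (nat_lit 24200057071381792) (.br (nat_lit 3) (.cons (.br (nat_lit 4) (.cons (.rel (nat_lit 1342440480)) .nil)) .nil)) .leaf)) (nat_lit 24200057071396864) (.br (nat_lit 1) (.cons (.br (nat_lit 5) (.cons (.rel (nat_lit 4311744549)) .nil)) .nil)) (.node (.node (.node .leaf (nat_lit 24200057071397050) (.br (nat_lit 0) (.cons (.br (nat_lit 1) (.cons (.rel (nat_lit 25169985)) .nil)) .nil)) .leaf) (nat_lit 24200057071438584) (.br (nat_lit 1) (.cons (.br (nat_lit 4) (.cons (.rel (nat_lit 1090786560)) (.cons (.rel (nat_lit 2164277568)) (.cons (.rel (nat_lit 1090520160)) .nil)))) .nil)) .leaf) (nat_lit 24200057071439105) (.br (nat_lit 0) (.cons (.br (nat_lit 6) (.cons (.rel (nat_lit 17184067620)) (.cons (.rel (nat_lit 17184079896)) .nil))) (.cons (.br (nat_lit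 6) (.cons (.rel (nat_lit 34368147456)) (.cons (.rel (nat_lit 17184079896)) .nil))) .nil))) (.node (.node .leaf (nat_lit 24200057071439329) (.br (nat_lit 4) (.cons (.br (nat_lit 6) (.cons (.rel (nat_lit 18254004288)) (.cons (.rel (nat_lit 35433484308)) .nil))) (.cons (.br (nat_lit 6) (.cons (.rel (nat_lit 18253616640)) (.cons (.br (nat_lit 0) (.cons (.rel (nat_lit 1077956640)) (.cons (.rel (nat_lit 34368147456)) (.cons (.rel (nat_lit 1077956640)) .nil)))) .nil))) .nil))) .leaf) (nat_lit 24200057072094686) (.br (nat_lit 1) (.cons (.br (nat_lit 2) (.cons (.rel (nat_lit 168050688)) (.cons (.rel (nat_lit 83892480)) .nil))) .nil)) .leaf))) (nat_lit 24200057072156129) (.br (nat_lit 2) (.cons (.br (nat_lit 5) (.cons (.rel (nat_lit 4362108960)) (.cons (.rel (nat_lit 8657047809)) .nil))) .nil)) (.node (.node (.node (.node .leaf (nat_lit 24200057072195735) (.br (nat_lit 0) (.cons (.br (nat_lit 1) (.cons (.rel (nat_lit 20993280)) (.cons (.rel (nat_lit 20971860)) .nil))) (.cons (.br (nat_lit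 1) (.cons (.rel (nat_lit 42206208)) (.cons (.rel (nat_lit 21037344)) .nil))) .nil))) .leaf) (nat_lit 24200057072195770) (.br (nat_lit 0) (.cons (.br (nat_lit 3) (.cons (.rel (nat_lit 272695362)) .nil)) .nil)) .leaf) (nat_lit 24200057072196344) (.br (nat_lit 1) (.cons (.br (nat_lit 6) (.cons (.rel (nat_lit 17196652560)) .nil)) .nil)) (.node (.node .leaf (nat_lit 24200057072196360) (.br (nat_lit 0) (.cons (.br (nat_lit 2) (.cons (.rel (nat_lit 72351780)) .nil)) .nil)) .leaf) (nat_lit 24200057072196364) (.br (nat_lit 0) (.cons (.br (nat_lit 1) (.cons (.rel (nat_lit 20971860)) .nil)) .nil)) .leaf)) (nat_lit 24200057072196865) (.br (nat_lit 3) (.cons (.br (nat_lit 2) (.cons (.rel (nat_lit 402923520)) (.cons (.rel (nat_lit 335561808)) (.cons (.rel (nat_lit 671105088)) .nil)))) (.cons (.br (nat_lit 2) (.cons (.rel (nat_lit 603980034)) (.cons (.rel (nat_lit 605028417)) (.cons (.rel (nat_lit 603980034)) .nil)))) .nil))) (.node (.node (.node .leaf (nat_lit 24200057072197089) (.br (nat_lit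 1) (.cons (.br (nat_lit 2) (.cons (.rel (nat_lit 84443136)) (.cons (.rel (nat_lit 168050688)) (.cons (.rel (nat_lit 83892480)) .nil)))) (.cons (.br (nat_lit 6) (.cons (.rel (nat_lit 17196667968)) (.cons (.rel (nat_lit 17196667968)) (.cons (.rel (nat_lit 17196656706)) .nil)))) .nil))) .leaf) (nat_lit 24200057072207872) (.br (nat_lit 4) (.cons (.br (nat_lit 5) (.cons (.rel (nat_lit 5370822672)) (.cons (.rel (nat_lit 5368972368)) .nil))) .nil)) .leaf) (nat_lit 24200057072351884) (.br (nat_lit 2) (.cons (.br (nat_lit 6) (.cons (.rel (nat_lit 17246979096)) .nil)) .nil)) (.node (.node .leaf (nat_lit 24200057072351919) (.br (nat_lit 0) (.cons (.br (nat_lit 1) (.cons (.rel (nat_lit 25166853)) .nil)) .nil)) .leaf) (nat_lit 24200057072352664) (.br (nat_lit 4) (.cons (.br (nat_lit 1) (.cons (.rel (nat_lit 1107623952)) (.cons (.rel (nat_lit 1090553856)) .nil))) .nil)) .leaf)))) (nat_lit 24200057072352737) (.br (nat_lit 6) (.cons (.br (nat_lit 4) (.cons (.rel (nat_lit 18253873176)) (.cons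 (.rel (nat_lit 35433484308)) .nil))) .nil)) (.node (.node (.node (.node (.node .leaf (nat_lit 24200057072401264) (.br (nat_lit 0) (.cons (.br (nat_lit 1) (.cons (.rel (nat_lit 22282500)) .nil)) .nil)) .leaf) (nat_lit 24200057072422912) (.br (nat_lit 1) (.cons (.br (nat_lit 5) (.cons (.rel (nat_lit 4311746562)) .nil)) .nil)) .leaf) (nat_lit 24200057072424193) (.br (nat_lit 2) (.cons (.br (nat_lit 0) (.cons (.rel (nat_lit 71307540)) (.cons (.rel (nat_lit 71307540)) .nil))) .nil)) (.node (.node .leaf (nat_lit 24200057072472064) (.br (nat_lit 5) (.cons (.br (nat_lit 0) (.cons (.rel (nat_lit 8598324240)) (.cons (.rel (nat_lit 8598324240)) .nil))) .nil)) .leaf) (nat_lit 24200057072472944) (.br (nat_lit 1) (.cons (.br (nat_lit 5) (.cons (.rel (nat_lit 4311746562)) .nil)) .nil)) .leaf)) (nat_lit 24200057073434659) (.br (nat_lit 1) (.cons (.br (nat_lit 6) (.cons (.rel (nat_lit 17196777480)) .nil)) .nil)) (.node (.node (.node .leaf (nat_lit 24200057073436129) (.br (nat_lit 0) (.cons (.br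 (nat_lit 1) (.cons (.rel (nat_lit 20971860)) .nil)) .nil)) .leaf) (nat_lit 24200057073450241) (.br (nat_lit 0) (.cons (.br (nat_lit 1) (.cons (.rel (nat_lit 20978064)) (.cons (.rel (nat_lit 42206208)) .nil))) (.cons (.br (nat_lit 1) (.cons (.rel (nat_lit 43532304)) (.cons (.rel (nat_lit 20993280)) .nil))) .nil))) .leaf) (nat_lit 24200057073450392) (.br (nat_lit 0) (.cons (.br (nat_lit 1) (.cons (.rel (nat_lit 20993280)) (.cons (.rel (nat_lit 22282500)) .nil))) .nil)) (.node (.node .leaf (nat_lit 24200057073907712) (.br (nat_lit 6) (.cons (.br (nat_lit 1) (.cons (.rel (nat_lit 17196777480)) (.cons (.rel (nat_lit 17196777480)) (.cons (.rel (nat_lit 17196777480)) (.cons (.rel (nat_lit 17196667968)) .nil))))) (.cons (.br (nat_lit 0) (.cons (.rel (nat_lit 17184063621)) (.cons (.rel (nat_lit 17184063621)) (.cons (.rel (nat_lit 17184069633)) (.cons (.rel (nat_lit 17185112580)) .nil))))) (.cons (.br (nat_lit 0) (.cons (.rel (nat_lit 17184104448)) (.cons (.rel (nat_lit 17184067620)) (.cons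 (.rel (nat_lit 34363933056)) (.cons (.rel (nat_lit 17184079896)) .nil))))) .nil)))) .leaf) (nat_lit 24200057073908472) (.br (nat_lit 1) (.cons (.br (nat_lit 6) (.cons (.rel (nat_lit 17213948160)) (.cons (.rel (nat_lit 17196652560)) (.cons (.rel (nat_lit 17196667968)) .nil)))) (.cons (.br (nat_lit 5) (.cons (.rel (nat_lit 4311746562)) (.cons (.rel (nat_lit 8623490049)) (.cons (.rel (nat_lit 4311744549)) .nil)))) .nil))) .leaf))) (nat_lit 24200057073909217) (.br (nat_lit 1) (.cons (.br (nat_lit 4) (.cons (.rel (nat_lit 1090584597)) (.cons (.rel (nat_lit 1090519113)) (.cons (.rel (nat_lit 1090519113)) (.cons (.rel (nat_lit 1107558468)) .nil))))) (.cons (.br (nat_lit 5) (.cons (.rel (nat_lit 8623490049)) (.cons (.rel (nat_lit 4311746562)) (.cons (.rel (nat_lit 4311746562)) (.cons (.rel (nat_lit 4311746562)) .nil))))) (.cons (.br (nat_lit 4) (.cons (.rel (nat_lit 1090519113)) (.cons (.rel (nat_lit 1090519113)) (.cons (.rel (nat_lit 2181055488)) (.cons (.rel (nat_lit 1090520160)) .nil)))))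 .nil)))) (.node (.node (.node (.node .leaf (nat_lit 24200057073989135) (.br (nat_lit 0) (.cons (.br (nat_lit 1) (.cons (.rel (nat_lit 20993280)) .nil)) .nil)) .leaf) (nat_lit 24200057073990319) (.br (nat_lit 1) (.cons (.br (nat_lit 4) (.cons (.rel (nat_lit 1090535568)) .nil)) .nil)) .leaf) (nat_lit 24200057073998600) (.br (nat_lit 0) (.cons (.br (nat_lit 5) (.cons (.rel (nat_lit 4299194496)) .nil)) .nil)) (.node (.node .leaf (nat_lit 24200474790317537) (.br (nat_lit 3) (.cons (.br (nat_lit 6) (.cons (.rel (nat_lit 17716810752)) (.cons (.rel (nat_lit 17716740114)) .nil))) .nil)) .leaf) (nat_lit 24200477438081024) (.br (nat_lit 0) (.cons (.br (nat_lit 2) (.cons (.rel (nat_lit 71435520)) .nil)) .nil)) .leaf)) (nat_lit 24200477439637504) (.br (nat_lit 0) (.cons (.br (nat_lit 6) (.cons (.rel (nat_lit 34368147456)) .nil)) .nil)) (.node (.node (.node .leaf (nat_lit 24202355985993185) (.br (nat_lit 0) (.cons (.br (nat_lit 1) (.cons (.rel (nat_lit 21004545)) (.cons (.rel (nat_lit 22093824))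 .nil))) .nil)) .leaf) (nat_lit 24202360956243425) (.br (nat_lit 0) (.cons (.br (nat_lit 4) (.cons (.rel (nat_lit 1078071297)) .nil)) .nil)) .leaf) (nat_lit 24232259854857699) (.br (nat_lit 1) (.cons (.br (nat_lit 0) (.cons (.rel (nat_lit 21299793)) (.cons (.rel (nat_lit 21303936)) .nil))) .nil)) (.node (.node .leaf (nat_lit 24232259856182755) (.br (nat_lit 0) (.cons (.br (nat_lit 1) (.cons (.rel (nat_lit 20993280)) .nil)) .nil)) .leaf) (nat_lit 24232259887084146) (.br (nat_lit 1) (.cons (.br (nat_lit 2) (.cons (.rel (nat_lit 100667520)) .nil)) .nil)) .leaf))))))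

/-- refutations 50 -/
def e50 : EX := (.node (.node (.node (.node .leaf (nat_lit 24378329386229212) (.br (nat_lit 0) (.cons (.br (nat_lit 4) (.cons (.rel (nat_lit 1077937233)) .nil)) .nil)) .leaf) (nat_lit 24640076035463448) (.br (nat_lit 0) (.cons (.br (nat_lit 1) (.cons (.rel (nat_lit 20971860)) .nil)) .nil)) .leaf) (nat_lit 24640276346277225) (.br (nat_lit 1) (.cons (.br (nat_lit 2) (.cons (.rel (nat_lit 168035472)) .nil)) .nil)) (.node .leaf (nat_lit 24640276348539160) (.br (nat_lit 0) (.cons (.br (nat_lit 3) (.cons (.rel (nat_lit 272631936)) .nil)) .nil)) .leaf)) (nat_lit 24640958046447616) (.br (nat_lit 0) (.cons (.br (nat_lit 2) (.cons (.rel (nat_lit 71369025)) .nil)) .nil)) (.node (.node .leaf (nat_lit 24646976504378875) (.br (nat_lit 2) (.cons (.br (nat_lit 6) (.cons (.rel (nat_lit 17316188160)) .nil)) .nil)) .leaf) (nat_lit 24654473421917691) (.br (nat_lit 2) (.cons (.br (nat_lit 5) (.cons (.rel (nat_lit 4362078288)) .nil)) .nil)) (.node .leaf (nat_lit 24763481777886721)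 (.br (nat_lit 1) (.cons (.br (nat_lit 6) (.cons (.rel (nat_lit 17196664836)) .nil)) .nil)) .leaf)))

/-- refutations 51 -/
def e51 : EX := (.node (.node (.node (.node (.node (.node (.node .leaf (nat_lit 24806076017117370) (.br (nat_lit 0) (.cons (.br (nat_lit 4) (.cons (.rel (nat_lit 1078329600)) (.cons (.rel (nat_lit 1077941376)) .nil))) .nil)) .leaf) (nat_lit 24806076017118445) (.br (nat_lit 0) (.cons (.br (nat_lit 1) (.cons (.rel (nat_lit 21004545)) .nil)) .nil)) .leaf) (nat_lit 24806076017330176) (.br (nat_lit 0) (.cons (.br (nat_lit 3) (.cons (.rel (nat_lit 272631936)) .nil)) .nil)) (.node .leaf (nat_lit 24806076017330231) (.br (nat_lit 0) (.cons (.br (nat_lit 1) (.cons (.rel (nat_lit 20971860)) .nil)) .nil)) .leaf)) (nat_lit 24806076017330808) (.br (nat_lit 1) (.cons (.br (nat_lit 0) (.cons (.rel (nat_lit 21037344)) (.cons (.rel (nat_lit 25165842)) .nil))) .nil)) (.node (.node (.node .leaf (nat_lit 24806076018055354) (.br (nat_lit 0) (.cons (.br (nat_lit 1) (.cons (.rel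 (nat_lit 20993280)) (.cons (.rel (nat_lit 21004545)) .nil))) .nil)) .leaf) (nat_lit 24806076018055800) (.br (nat_lit 0) (.cons (.br (nat_lit 1) (.cons (.rel (nat_lit 22037520)) (.cons (.rel (nat_lit 22037520)) .nil))) .nil)) .leaf) (nat_lit 24806076018056693) (.br (nat_lit 0) (.cons (.br (nat_lit 1) (.cons (.rel (nat_lit 25165842)) (.cons (.rel (nat_lit 20993280)) .nil))) (.cons (.br (nat_lit 1) (.cons (.rel (nat_lit 25166853)) (.cons (.rel (nat_lit 22024197)) .nil))) .nil))) (.node .leaf (nat_lit 24806076018137848) (.br (nat_lit 0) (.cons (.br (nat_lit 2) (.cons (.rel (nat_lit 75497568)) .nil)) .nil)) .leaf))) (nat_lit 24806076018137868) (.br (nat_lit 0) (.cons (.br (nat_lit 1) (.cons (.rel (nat_lit 22024197)) .nil)) .nil)) (.node (.node (.node (.node .leaf (nat_lit 24806076018364416) (.br (nat_lit 5) (.cons (.br (nat_lit 2) (.cons (.rel (nat_lit 4362142725)) (.cons (.rel (nat_lit 4362076230)) .nil))) .nil)) .leaf) (nat_lit 24806076018397370) (.br (nat_lit 3) (.cons (.br (nat_lit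 5) (.cons (.rel (nat_lit 4831903752)) (.cons (.rel (nat_lit 8858374146)) (.cons (.rel (nat_lit 8858501124)) .nil)))) .nil)) .leaf) (nat_lit 24806076018406008) (.br (nat_lit 0) (.cons (.br (nat_lit 1) (.cons (.rel (nat_lit 42206208)) .nil)) .nil)) (.node .leaf (nat_lit 24806076018406901) (.br (nat_lit 0) (.cons (.br (nat_lit 1) (.cons (.rel (nat_lit 42206208)) .nil)) .nil)) .leaf)) (nat_lit 24806076018618368) (.br (nat_lit 0) (.cons (.br (nat_lit 4) (.cons (.rel (nat_lit 1077956640)) .nil)) .nil)) (.node (.node (.node .leaf (nat_lit 24806076019849216) (.br (nat_lit 4) (.cons (.br (nat_lit 5) (.cons (.rel (nat_lit 10737418500)) .nil)) .nil)) .leaf) (nat_lit 24806076019929213) (.br (nat_lit 0) (.cons (.br (nat_lit 1) (.cons (.rel (nat_lit 20993280)) .nil)) .nil)) .leaf) (nat_lit 24806142488464885) (.br (nat_lit 0) (.cons (.br (nat_lit 3) (.cons (.rel (nat_lit 545260608)) (.cons (.rel (nat_lit 272631936)) .nil))) .nil)) (.node .leaf (nat_lit 24806142489384960) (.br (nat_lit 0) (.cons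 (.br (nat_lit 1) (.cons (.rel (nat_lit 20993280)) .nil)) .nil)) .leaf)))) (nat_lit 24806142489386485) (.br (nat_lit 0) (.cons (.br (nat_lit 1) (.cons (.rel (nat_lit 20971860)) .nil)) .nil)) (.node (.node (.node (.node (.node .leaf (nat_lit 24806144691395360) (.br (nat_lit 0) (.cons (.br (nat_lit 1) (.cons (.rel (nat_lit 21037344)) .nil)) .nil)) .leaf) (nat_lit 24806144691738101) (.br (nat_lit 0) (.cons (.br (nat_lit 1) (.cons (.rel (nat_lit 21004545)) .nil)) .nil)) .leaf) (nat_lit 24810652203798710) (.br (nat_lit 1) (.cons (.br (nat_lit 3) (.cons (.rel (nat_lit 304087056)) .nil)) .nil)) (.node .leaf (nat_lit 24810652203799960) (.br (nat_lit 0) (.cons (.br (nat_lit 2) (.cons (.rel (nat_lit 72351780)) (.cons (.rel (nat_lit 72353793)) .nil))) .nil)) .leaf)) (nat_lit 24810652204124335) (.br (nat_lit 0) (.cons (.br (nat_lit 1) (.cons (.rel (nat_lit 20993280)) .nil)) .nil)) (.node (.node (.node .leaf (nat_lit 24810652204124342) (.br (nat_lit 0) (.cons (.br (nat_lit 1) (.cons (.rel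 (nat_lit 21497856)) (.cons (.rel (nat_lit 20971860)) .nil))) .nil)) .leaf) (nat_lit 24810652204124411) (.br (nat_lit 0) (.cons (.br (nat_lit 1) (.cons (.rel (nat_lit 21497856)) .nil)) .nil)) .leaf) (nat_lit 24810652204125685) (.br (nat_lit 6) (.cons (.br (nat_lit 0) (.cons (.rel (nat_lit 17184067620)) (.cons (.rel (nat_lit 17184130116)) .nil))) .nil)) (.node .leaf (nat_lit 24810652205045760) (.br (nat_lit 1) (.cons (.br (nat_lit 6) (.cons (.rel (nat_lit 17196667968)) (.cons (.rel (nat_lit 17196663825)) .nil))) (.cons (.br (nat_lit 0) (.cons (.rel (nat_lit 20971860)) (.cons (.rel (nat_lit 20971860)) (.cons (.rel (nat_lit 25165842)) .nil)))) .nil))) .leaf))) (nat_lit 24810652205045946) (.br (nat_lit 1) (.cons (.br (nat_lit 6) (.cons (.rel (nat_lit 17213948160)) .nil)) .nil)) (.node (.node (.node (.node .leaf (nat_lit 24810652205046392) (.br (nat_lit 1) (.cons (.br (nat_lit 0) (.cons (.rel (nat_lit 20971860)) (.cons (.rel (nat_lit 20971860)) .nil))) .nil)) .leaf) (nat_lit 24810652205046571)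 (.br (nat_lit 6) (.cons (.br (nat_lit 4) (.cons (.rel (nat_lit 18253616640)) (.cons (.rel (nat_lit 18254004288)) .nil))) .nil)) .leaf) (nat_lit 24810652205047061) (.br (nat_lit 0) (.cons (.br (nat_lit 3) (.cons (.rel (nat_lit 273973248)) .nil)) .nil)) (.node .leaf (nat_lit 24810652205047285) (.br (nat_lit 6) (.cons (.br (nat_lit 2) (.cons (.rel (nat_lit 17247110208)) (.cons (.rel (nat_lit 34427904000)) .nil))) .nil)) .leaf)) (nat_lit 24810652205538040) (.br (nat_lit 1) (.cons (.br (nat_lit 4) (.cons (.rel (nat_lit 2181055488)) .nil)) .nil)) (.node (.node (.node .leaf (nat_lit 24810652205538080) (.br (nat_lit 4) (.cons (.br (nat_lit 5) (.cons (.rel (nat_lit 9663697920)) .nil)) .nil)) .leaf) (nat_lit 24810652205609235) (.br (nat_lit 0) (.cons (.br (nat_lit 1) (.cons (.rel (nat_lit 22037520)) .nil)) .nil)) .leaf) (nat_lit 24810652206563328) (.br (nat_lit 0) (.cons (.br (nat_lit 1) (.cons (.rel (nat_lit 25428288)) .nil)) .nil)) (.node .leaf (nat_lit 24810652206563383) (.br (nat_lit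 0) (.cons (.br (nat_lit 1) (.cons (.rel (nat_lit 22024197)) .nil)) .nil)) .leaf))))) (nat_lit 24810652206563579) (.br (nat_lit 1) (.cons (.br (nat_lit 3) (.cons (.rel (nat_lit 285218817)) .nil)) .nil)) (.node (.node (.node (.node (.node (.node .leaf (nat_lit 24810652206817280) (.br (nat_lit 5) (.cons (.br (nat_lit 0) (.cons (.rel (nat_lit 4299162633)) (.cons (.rel (nat_lit 4299194496)) .nil))) .nil)) .leaf) (nat_lit 24810652206817455) (.br (nat_lit 0) (.cons (.br (nat_lit 1) (.cons (.rel (nat_lit 20971860)) .nil)) .nil)) .leaf) (nat_lit 24810652206880768) (.br (nat_lit 0) (.cons (.br (nat_lit 1) (.cons (.rel (nat_lit 37748769)) .nil)) .nil)) (.node .leaf (nat_lit 24810652206880954) (.br (nat_lit 0) (.cons (.br (nat_lit 1) (.cons (.rel (nat_lit 20993280)) (.cons (.rel (nat_lit 20993280)) .nil))) .nil)) .leaf)) (nat_lit 24810652206882293) (.br (nat_lit 0) (.cons (.br (nat_lit 6) (.cons (.rel (nat_lit 17184080898)) (.cons (.rel (nat_lit 17184080898)) .nil))) .nil)) (.node (.node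 (.node .leaf (nat_lit 24810654453193336) (.br (nat_lit 0) (.cons (.br (nat_lit 1) (.cons (.rel (nat_lit 20993280)) .nil)) .nil)) .leaf) (nat_lit 24812945716336024) (.br (nat_lit 1) (.cons (.br (nat_lit 4) (.cons (.rel (nat_lit 2181055488)) .nil)) .nil)) .leaf) (nat_lit 24812945719416832) (.br (nat_lit 0) (.cons (.br (nat_lit 1) (.cons (.rel (nat_lit 20993280)) .nil)) .nil)) (.node .leaf (nat_lit 24812945719418357) (.br (nat_lit 0) (.cons (.br (nat_lit 3) (.cons (.rel (nat_lit 272631936)) .nil)) .nil)) .leaf))) (nat_lit 24812947965005301) (.br (nat_lit 0) (.cons (.br (nat_lit 3) (.cons (.rel (nat_lit 272631936)) .nil)) .nil)) (.node (.node (.node (.node .leaf (nat_lit 24816258764839214) (.br (nat_lit 0) (.cons (.br (nat_lit 2) (.cons (.rel (nat_lit 71893008)) .nil)) .nil)) .leaf) (nat_lit 24816258765066240) (.br (nat_lit 6) (.cons (.br (nat_lit 2) (.cons (.rel (nat_lit 17246994504)) (.cons (.rel (nat_lit 17248292868)) .nil))) .nil)) .leaf) (nat_lit 24816258766324973) (.br (nat_lit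 0) (.cons (.br (nat_lit 6) (.cons (.rel (nat_lit 17184063621)) .nil)) .nil)) (.node .leaf (nat_lit 24816879906703542) (.br (nat_lit 1) (.cons (.br (nat_lit 0) (.cons (.rel (nat_lit 22093824)) (.cons (.rel (nat_lit 22037520)) .nil))) .nil)) .leaf)) (nat_lit 24816879906704885) (.br (nat_lit 0) (.cons (.br (nat_lit 1) (.cons (.rel (nat_lit 21497856)) .nil)) .nil)) (.node (.node (.node .leaf (nat_lit 24816879906900775) (.br (nat_lit 1) (.cons (.br (nat_lit 2) (.cons (.rel (nat_lit 83886468)) .nil)) .nil)) .leaf) (nat_lit 24816879907625592) (.br (nat_lit 0) (.cons (.br (nat_lit 1) (.cons (.rel (nat_lit 21004545)) (.cons (.rel (nat_lit 25166853)) (.cons (.rel (nat_lit 21004545)) .nil)))) (.cons (.br (nat_lit 1) (.cons (.rel (nat_lit 20971860)) (.cons (.rel (nat_lit 20971860)) (.cons (.rel (nat_lit 21004545)) .nil)))) .nil))) .leaf) (nat_lit 24816879907626221) (.br (nat_lit 2) (.cons (.br (nat_lit 0) (.cons (.rel (nat_lit 138543108)) (.cons (.rel (nat_lit 138543108)) (.cons (.rel (nat_lit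 75505665)) .nil)))) .nil)) (.node .leaf (nat_lit 24816879907626261) (.br (nat_lit 4) (.cons (.br (nat_lit 5) (.cons (.rel (nat_lit 10737418500)) .nil)) .nil)) .leaf)))) (nat_lit 24816879907975354) (.br (nat_lit 0) (.cons (.br (nat_lit 5) (.cons (.rel (nat_lit 8598324240)) .nil)) .nil)) (.node (.node (.node (.node (.node .leaf (nat_lit 24816879907976693) (.br (nat_lit 0) (.cons (.br (nat_lit 5) (.cons (.rel (nat_lit 4299162633)) (.cons (.rel (nat_lit 4299161622)) .nil))) .nil)) .leaf) (nat_lit 24816879909144053) (.br (nat_lit 0) (.cons (.br (nat_lit 1) (.cons (.rel (nat_lit 20971860)) .nil)) .nil)) .leaf) (nat_lit 24816879909396655) (.br (nat_lit 0) (.cons (.br (nat_lit 1) (.cons (.rel (nat_lit 20971860)) .nil)) .nil)) (.node .leaf (nat_lit 24816879909461229) (.br (nat_lit 0) (.cons (.br (nat_lit 1) (.cons (.rel (nat_lit 21532674)) .nil)) .nil)) .leaf)) (nat_lit 24816879909461400) (.br (nat_lit 1) (.cons (.br (nat_lit 3) (.cons (.rel (nat_lit 285216804)) .nil)) .nil)) (.node (.node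 (.node .leaf (nat_lit 24818348785520117) (.br (nat_lit 0) (.cons (.br (nat_lit 4) (.cons (.rel (nat_lit 1077952641)) .nil)) .nil)) .leaf) (nat_lit 24818348785716612) (.br (nat_lit 0) (.cons (.br (nat_lit 3) (.cons (.rel (nat_lit 272631936)) .nil)) .nil)) .leaf) (nat_lit 24818348785716725) (.br (nat_lit 0) (.cons (.br (nat_lit 1) (.cons (.rel (nat_lit 25169985)) (.cons (.rel (nat_lit 25165842)) .nil))) .nil)) (.node .leaf (nat_lit 24818348786440192) (.br (nat_lit 0) (.cons (.br (nat_lit 1) (.cons (.rel (nat_lit 20993280)) .nil)) .nil)) .leaf))) (nat_lit 24818348786790400) (.br (nat_lit 1) (.cons (.br (nat_lit 6) (.cons (.rel (nat_lit 17196652560)) .nil)) .nil)) (.node (.node (.node (.node .leaf (nat_lit 24818348786790586) (.br (nat_lit 0) (.cons (.br (nat_lit 1) (.cons (.rel (nat_lit 20993280)) .nil)) .nil)) .leaf) (nat_lit 24818348786790682) (.br (nat_lit 0) (.cons (.br (nat_lit 2) (.cons (.rel (nat_lit 71307540)) .nil)) .nil)) .leaf) (nat_lit 24818348788276461) (.br (nat_lit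 0) (.cons (.br (nat_lit 1) (.cons (.rel (nat_lit 37748769)) .nil)) .nil)) (.node .leaf (nat_lit 24818348788276725) (.br (nat_lit 0) (.cons (.br (nat_lit 4) (.cons (.rel (nat_lit 2155876356)) (.cons (.rel (nat_lit 1077938244)) (.cons (.rel (nat_lit 1077941376)) .nil)))) (.cons (.br (nat_lit 2) (.cons (.rel (nat_lit 71307540)) (.cons (.rel (nat_lit 72388608)) .nil))) .nil))) .leaf)) (nat_lit 24818382727311360) (.br (nat_lit 0) (.cons (.br (nat_lit 1) (.cons (.rel (nat_lit 21497856)) .nil)) .nil)) (.node (.node (.node .leaf (nat_lit 24818382728519855) (.br (nat_lit 0) (.cons (.br (nat_lit 5) (.cons (.rel (nat_lit 8598324240)) .nil)) .nil)) .leaf) (nat_lit 24818383146179192) (.br (nat_lit 0) (.cons (.br (nat_lit 1) (.cons (.rel (nat_lit 21497856)) .nil)) .nil)) .leaf) (nat_lit 24818383146742035) (.br (nat_lit 0) (.cons (.br (nat_lit 3) (.cons (.rel (nat_lit 545260608)) .nil)) .nil)) (.node .leaf (nat_lit 24818385348189685) (.br (nat_lit 0) (.cons (.br (nat_lit 3) (.cons (.rel (nat_lit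 272631936)) .nil)) .nil)) .leaf))))))

/-- refutations 52 -/
def e52 : EX := (.node (.node (.node (.node (.node (.node (.node .leaf (nat_lit 25086929769594388) (.br (nat_lit 0) (.cons (.br (nat_lit 2) (.cons (.rel (nat_lit 75497568)) .nil)) .nil)) .leaf) (nat_lit 25088880186514060) (.br (nat_lit 1) (.cons (.br (nat_lit 5) (.cons (.rel (nat_lit 4311746562)) .nil)) .nil)) .leaf) (nat_lit 25088880187805951) (.br (nat_lit 1) (.cons (.br (nat_lit 5) (.cons (.rel (nat_lit 8623490049)) (.cons (.rel (nat_lit 8606712129)) .nil))) .nil)) (.node (.node .leaf (nat_lit 25088883486632098) (.br (nat_lit 0) (.cons (.br (nat_lit 2) (.cons (.rel (nat_lit 71369025)) .nil)) .nil)) .leaf) (nat_lit 25088883487430942) (.br (nat_lit 0) (.cons (.br (nat_lit 3) (.cons (.rel (nat_lit 272647200)) .nil)) .nil)) .leaf)) (nat_lit 25088883487450644) (.br (nat_lit 0) (.cons (.br (nat_lit 2) (.cons (.rel (nat_lit 71827524)) .nil)) .nil)) (.node (.node (.node .leaf (nat_lit 25088883487890964) (.br (nat_lit 0)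 (.cons (.br (nat_lit 1) (.cons (.rel (nat_lit 22282500)) .nil)) .nil)) .leaf) (nat_lit 25088917816784260) (.br (nat_lit 0) (.cons (.br (nat_lit 1) (.cons (.rel (nat_lit 25166853)) .nil)) .nil)) .leaf) (nat_lit 25092264619974008) (.br (nat_lit 0) (.cons (.br (nat_lit 3) (.cons (.rel (nat_lit 272631936)) (.cons (.rel (nat_lit 542113809)) .nil))) .nil)) (.node .leaf (nat_lit 25092264619986452) (.br (nat_lit 0) (.cons (.br (nat_lit 4) (.cons (.rel (nat_lit 2155876356)) .nil)) .nil)) .leaf))) (nat_lit 25092264620742807) (.br (nat_lit 1) (.cons (.br (nat_lit 5) (.cons (.rel (nat_lit 4311746562)) (.cons (.rel (nat_lit 8607760512)) (.cons (.rel (nat_lit 4329570561)) .nil)))) .nil)) (.node (.node (.node (.node .leaf (nat_lit 25092264620743308) (.br (nat_lit 1) (.cons (.br (nat_lit 5) (.cons (.rel (nat_lit 4311746562)) (.cons (.rel (nat_lit 8623490049)) (.cons (.rel (nat_lit 4311745560)) .nil)))) .nil)) .leaf) (nat_lit 25092264620743463) (.br (nat_lit 1) (.cons (.br (nat_lit 5) (.cons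 (.rel (nat_lit 4311746562)) .nil)) .nil)) .leaf) (nat_lit 25092264620744212) (.br (nat_lit 0) (.cons (.br (nat_lit 5) (.cons (.rel (nat_lit 4299179088)) .nil)) .nil)) (.node .leaf (nat_lit 25092264620957060) (.br (nat_lit 0) (.cons (.br (nat_lit 5) (.cons (.rel (nat_lit 8598324240)) .nil)) .nil)) .leaf)) (nat_lit 25092264621328639) (.br (nat_lit 0) (.cons (.br (nat_lit 2) (.cons (.rel (nat_lit 138416130)) .nil)) .nil)) (.node (.node (.node .leaf (nat_lit 25092264621329036) (.br (nat_lit 0) (.cons (.br (nat_lit 1) (.cons (.rel (nat_lit 22037520)) .nil)) .nil)) .leaf) (nat_lit 25092264621329140) (.br (nat_lit 3) (.cons (.br (nat_lit 1) (.cons (.rel (nat_lit 285253632)) (.cons (.rel (nat_lit 285253632)) .nil))) .nil)) .leaf) (nat_lit 25092264622087700) (.br (nat_lit 0) (.cons (.br (nat_lit 1) (.cons (.rel (nat_lit 42206208)) .nil)) .nil)) (.node .leaf (nat_lit 25092264622340258) (.br (nat_lit 0) (.cons (.br (nat_lit 1) (.cons (.rel (nat_lit 20993280)) .nil)) .nil)) .leaf)))) (nat_lit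 25092264622545058) (.br (nat_lit 0) (.cons (.br (nat_lit 2) (.cons (.rel (nat_lit 138543108)) (.cons (.rel (nat_lit 71369025)) .nil))) .nil)) (.node (.node (.node (.node (.node .leaf (nat_lit 25092266722089612) (.br (nat_lit 0) (.cons (.br (nat_lit 2) (.cons (.rel (nat_lit 71369025)) .nil)) .nil)) .leaf) (nat_lit 25092266722090516) (.br (nat_lit 5) (.cons (.br (nat_lit 6) (.cons (.rel (nat_lit 21475889412)) .nil)) .nil)) .leaf) (nat_lit 25092266722302207) (.br (nat_lit 0) (.cons (.br (nat_lit 2) (.cons (.rel (nat_lit 75497568)) .nil)) .nil)) (.node .leaf (nat_lit 25092266722303508) (.br (nat_lit 0) (.cons (.br (nat_lit 4) (.cons (.rel (nat_lit 1077938244)) .nil)) .nil)) .leaf)) (nat_lit 25092266722675444) (.br (nat_lit 3) (.cons (.br (nat_lit 5) (.cons (.rel (nat_lit 4565569536)) .nil)) .nil)) (.node (.node (.node .leaf (nat_lit 25092267875522591) (.br (nat_lit 0) (.cons (.br (nat_lit 1) (.cons (.rel (nat_lit 42206208)) .nil)) .nil)) .leaf) (nat_lit 25092267920634142) (.br (nat_lit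 0) (.cons (.br (nat_lit 4) (.cons (.rel (nat_lit 1077956640)) .nil)) .nil)) .leaf) (nat_lit 25092267921660556) (.br (nat_lit 1) (.cons (.br (nat_lit 5) (.cons (.rel (nat_lit 8623490049)) (.cons (.rel (nat_lit 4311745560)) .nil))) .nil)) (.node .leaf (nat_lit 25092267921661460) (.br (nat_lit 0) (.cons (.br (nat_lit 5) (.cons (.rel (nat_lit 4299179088)) (.cons (.rel (nat_lit 8598339648)) .nil))) .nil)) .leaf))) (nat_lit 25092267921873656) (.br (nat_lit 0) (.cons (.br (nat_lit 4) (.cons (.rel (nat_lit 2155876356)) .nil)) .nil)) (.node (.node (.node (.node .leaf (nat_lit 25092267921937766) (.br (nat_lit 3) (.cons (.br (nat_lit 4) (.cons (.rel (nat_lit 2415928320)) .nil)) .nil)) .leaf) (nat_lit 25092267921969458) (.br (nat_lit 0) (.cons (.br (nat_lit 1) (.cons (.rel (nat_lit 25165842)) .nil)) .nil)) .leaf) (nat_lit 25092267921970708) (.br (nat_lit 0) (.cons (.br (nat_lit 6) (.cons (.rel (nat_lit 17190354945)) .nil)) .nil)) (.node .leaf (nat_lit 25092267922120092) (.br (nat_lit 3)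 (.cons (.br (nat_lit 4) (.cons (.rel (nat_lit 1610618880)) .nil)) .nil)) .leaf)) (nat_lit 25092267922120212) (.br (nat_lit 0) (.cons (.br (nat_lit 3) (.cons (.rel (nat_lit 272647200)) .nil)) .nil)) (.node (.node (.node .leaf (nat_lit 25092267922224381) (.br (nat_lit 0) (.cons (.br (nat_lit 2) (.cons (.rel (nat_lit 75497568)) .nil)) .nil)) .leaf) (nat_lit 25092267922246388) (.br (nat_lit 0) (.cons (.br (nat_lit 4) (.cons (.rel (nat_lit 1077938244)) (.cons (.rel (nat_lit 1077956640)) .nil))) .nil)) .leaf) (nat_lit 25092267922246913) (.br (nat_lit 0) (.cons (.br (nat_lit 1) (.cons (.rel (nat_lit 25428288)) .nil)) .nil)) (.node .leaf (nat_lit 25092267923256073) (.br (nat_lit 0) (.cons (.br (nat_lit 4) (.cons (.rel (nat_lit 1077938244)) .nil)) .nil)) .leaf))))) (nat_lit 25092267923454708) (.br (nat_lit 2) (.cons (.br (nat_lit 5) (.cons (.rel (nat_lit 4429709568)) .nil)) .nil)) (.node (.node (.node (.node (.node (.node .leaf (nat_lit 25092951815510668) (.br (nat_lit 0) (.cons (.br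 (nat_lit 3) (.cons (.rel (nat_lit 277090305)) .nil)) .nil)) .leaf) (nat_lit 25092951817304215) (.br (nat_lit 0) (.cons (.br (nat_lit 3) (.cons (.rel (nat_lit 272631936)) .nil)) .nil)) .leaf) (nat_lit 25093161273905912) (.br (nat_lit 0) (.cons (.br (nat_lit 2) (.cons (.rel (nat_lit 71309601)) .nil)) .nil)) (.node (.node .leaf (nat_lit 25094079198502300) (.br (nat_lit 0) (.cons (.br (nat_lit 1) (.cons (.rel (nat_lit 21497856)) .nil)) .nil)) .leaf) (nat_lit 25094079198502420) (.br (nat_lit 4) (.cons (.br (nat_lit 5) (.cons (.rel (nat_lit 5369778432)) .nil)) .nil)) .leaf)) (nat_lit 25094079198516131) (.br (nat_lit 0) (.cons (.br (nat_lit 3) (.cons (.rel (nat_lit 272761857)) .nil)) .nil)) (.node (.node (.node .leaf (nat_lit 25094283254573863) (.br (nat_lit 0) (.cons (.br (nat_lit 3) (.cons (.rel (nat_lit 545260608)) .nil)) .nil)) .leaf) (nat_lit 25094283255371927) (.br (nat_lit 0) (.cons (.br (nat_lit 6) (.cons (.rel (nat_lit 34368147456)) .nil)) .nil)) .leaf) (nat_lit 25094283256715415)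 (.br (nat_lit 0) (.cons (.br (nat_lit 4) (.cons (.rel (nat_lit 2151679233)) .nil)) .nil)) (.node .leaf (nat_lit 25094289232255127) (.br (nat_lit 0) (.cons (.br (nat_lit 2) (.cons (.rel (nat_lit 72417408)) .nil)) .nil)) .leaf))) (nat_lit 25097667804714516) (.br (nat_lit 0) (.cons (.br (nat_lit 1) (.cons (.rel (nat_lit 22024197)) .nil)) .nil)) (.node (.node (.node (.node .leaf (nat_lit 25097670989310712) (.br (nat_lit 1) (.cons (.br (nat_lit 2) (.cons (.rel (nat_lit 168050688)) .nil)) .nil)) .leaf) (nat_lit 25097670989492880) (.br (nat_lit 0) (.cons (.br (nat_lit 1) (.cons (.rel (nat_lit 20993280)) .nil)) .nil)) .leaf) (nat_lit 25097670989516029) (.br (nat_lit 0) (.cons (.br (nat_lit 4) (.cons (.rel (nat_lit 1078003728)) .nil)) .nil)) (.node .leaf (nat_lit 25097670989566134) (.br (nat_lit 4) (.cons (.br (nat_lit 5) (.cons (.rel (nat_lit 5368987776)) .nil)) .nil)) .leaf)) (nat_lit 25097670989566712) (.br (nat_lit 0) (.cons (.br (nat_lit 1) (.cons (.rel (nat_lit 37748769)) .nil))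 .nil)) (.node (.node (.node .leaf (nat_lit 25097670989709618) (.br (nat_lit 4) (.cons (.br (nat_lit 6) (.cons (.rel (nat_lit 18253897728)) .nil)) .nil)) .leaf) (nat_lit 25097670989719714) (.br (nat_lit 0) (.cons (.br (nat_lit 3) (.cons (.rel (nat_lit 272631936)) (.cons (.rel (nat_lit 272631936)) .nil))) (.cons (.br (nat_lit 1) (.cons (.rel (nat_lit 25428288)) (.cons (.rel (nat_lit 25165842)) .nil))) .nil))) .leaf) (nat_lit 25097670990518924) (.br (nat_lit 1) (.cons (.br (nat_lit 5) (.cons (.rel (nat_lit 8607236112)) .nil)) .nil)) (.node .leaf (nat_lit 25097670990519552) (.br (nat_lit 0) (.cons (.br (nat_lit 1) (.cons (.rel (nat_lit 37765188)) .nil)) .nil)) .leaf)))) (nat_lit 25097670990519828) (.br (nat_lit 1) (.cons (.br (nat_lit 3) (.cons (.rel (nat_lit 285218817)) .nil)) .nil)) (.node (.node (.node (.node (.node .leaf (nat_lit 25097670990538260) (.br (nat_lit 1) (.cons (.br (nat_lit 0) (.cons (.rel (nat_lit 20993280)) (.cons (.rel (nat_lit 22052928)) (.cons (.rel (nat_lit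 21497856)) .nil)))) .nil)) .leaf) (nat_lit 25097670990746531) (.br (nat_lit 1) (.cons (.br (nat_lit 4) (.cons (.rel (nat_lit 1090535568)) .nil)) .nil)) .leaf) (nat_lit 25097670990827826) (.br (nat_lit 4) (.cons (.br (nat_lit 5) (.cons (.rel (nat_lit 10737418500)) (.cons (.rel (nat_lit 6442582032)) (.cons (.rel (nat_lit 5368972368)) .nil)))) .nil)) (.node .leaf (nat_lit 25097670990828172) (.br (nat_lit 4) (.cons (.br (nat_lit 5) (.cons (.rel (nat_lit 9663676500)) .nil)) .nil)) .leaf)) (nat_lit 25097670990829076) (.br (nat_lit 0) (.cons (.br (nat_lit 1) (.cons (.rel (nat_lit 37765188)) (.cons (.rel (nat_lit 22024197)) (.cons (.rel (nat_lit 25165842)) (.cons (.rel (nat_lit 25169985)) .nil))))) (.cons (.br (nat_lit 6) (.cons (.rel (nat_lit 17184069633)) (.cons (.rel (nat_lit 34363933056)) (.cons (.rel (nat_lit 17184104448)) (.cons (.rel (nat_lit 17184069633)) (.cons (.rel (nat_lit 17188258368)) (.cons (.rel (nat_lit 34364981250)) .nil))))))) .nil))) (.node (.node (.node .leaf (nat_lit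 25097670991104756) (.br (nat_lit 0) (.cons (.br (nat_lit 1) (.cons (.rel (nat_lit 21037344)) .nil)) .nil)) .leaf) (nat_lit 25097670991105281) (.br (nat_lit 0) (.cons (.br (nat_lit 2) (.cons (.rel (nat_lit 75497568)) .nil)) .nil)) .leaf) (nat_lit 25097670991757494) (.br (nat_lit 0) (.cons (.br (nat_lit 3) (.cons (.rel (nat_lit 272631936)) .nil)) .nil)) (.node .leaf (nat_lit 25097670991758868) (.br (nat_lit 0) (.cons (.br (nat_lit 1) (.cons (.rel (nat_lit 21497856)) .nil)) .nil)) .leaf))) (nat_lit 25097670991811212) (.br (nat_lit 0) (.cons (.br (nat_lit 4) (.cons (.rel (nat_lit 1077956640)) .nil)) .nil)) (.node (.node (.node (.node .leaf (nat_lit 25097670991811840) (.br (nat_lit 3) (.cons (.br (nat_lit 0) (.cons (.rel (nat_lit 272633877)) (.cons (.rel (nat_lit 272631936)) (.cons (.rel (nat_lit 272631936)) .nil)))) .nil)) .leaf) (nat_lit 25097670992107551) (.br (nat_lit 4) (.cons (.br (nat_lit 5) (.cons (.rel (nat_lit 5368709640)) .nil)) .nil)) .leaf) (nat_lit 25097670992108451)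 (.br (nat_lit 3) (.cons (.br (nat_lit 4) (.cons (.rel (nat_lit 2415919176)) .nil)) .nil)) (.node .leaf (nat_lit 25097670992114441) (.br (nat_lit 0) (.cons (.br (nat_lit 1) (.cons (.rel (nat_lit 42206208)) .nil)) .nil)) .leaf)) (nat_lit 25097670992114941) (.br (nat_lit 0) (.cons (.br (nat_lit 5) (.cons (.rel (nat_lit 4299194496)) .nil)) .nil)) (.node (.node (.node .leaf (nat_lit 25097670992322068) (.br (nat_lit 1) (.cons (.br (nat_lit 4) (.cons (.rel (nat_lit 2181055488)) .nil)) .nil)) .leaf) (nat_lit 25098354883343772) (.br (nat_lit 0) (.cons (.br (nat_lit 4) (.cons (.rel (nat_lit 1077944328)) .nil)) .nil)) .leaf) (nat_lit 25098354884369036) (.br (nat_lit 1) (.cons (.br (nat_lit 5) (.cons (.rel (nat_lit 4311746562)) .nil)) .nil)) (.node .leaf (nat_lit 25098358184333494) (.br (nat_lit 2) (.cons (.br (nat_lit 4) (.cons (.rel (nat_lit 1140868116)) .nil)) .nil)) .leaf))))))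

/-- refutations 53 -/
def e53 : EX := (.node (.node (.node (.node .leaf (nat_lit 25104568703804067) (.br (nat_lit 0) (.cons (.br (nat_lit 2) (.cons (.rel (nat_lit 71369025)) .nil)) .nil)) .leaf) (nat_lit 25104568705398966) (.br (nat_lit 0) (.cons (.br (nat_lit 4) (.cons (.rel (nat_lit 1083244800)) .nil)) .nil)) (.node .leaf (nat_lit 25106466089511569) (.br (nat_lit 4) (.cons (.br (nat_lit 5) (.cons (.rel (nat_lit 5368709640)) .nil)) .nil)) .leaf)) (nat_lit 25106467079367313) (.br (nat_lit 3) (.cons (.br (nat_lit 0) (.cons (.rel (nat_lit 272631936)) (.cons (.rel (nat_lit 541327872)) .nil))) .nil)) (.node (.node .leaf (nat_lit 25106467079368081) (.br (nat_lit 0) (.cons (.br (nat_lit 3) (.cons (.rel (nat_lit 272647200)) .nil)) .nil)) .leaf) (nat_lit 25106467079400975) (.br (nat_lit 0) (.cons (.br (nat_lit 1) (.cons (.rel (nat_lit 22037520)) .nil)) .nil)) .leaf)) (nat_lit 25106467080577024) (.br (nat_lit 3) (.cons (.br (nat_lit 5) (.cons (.rel (nat_lit 4563403332)) .nil)) .nil))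 (.node (.node (.node .leaf (nat_lit 25106467080944393) (.br (nat_lit 0) (.cons (.br (nat_lit 1) (.cons (.rel (nat_lit 37765188)) .nil)) .nil)) .leaf) (nat_lit 25106467081140375) (.br (nat_lit 0) (.cons (.br (nat_lit 3) (.cons (.rel (nat_lit 272631936)) .nil)) .nil)) (.node .leaf (nat_lit 25115271221812757) (.br (nat_lit 0) (.cons (.br (nat_lit 2) (.cons (.rel (nat_lit 71369025)) .nil)) .nil)) .leaf)) (nat_lit 25245915117035777) (.br (nat_lit 0) (.cons (.br (nat_lit 1) (.cons (.rel (nat_lit 42206208)) .nil)) .nil)) (.node (.node .leaf (nat_lit 25247209588301979) (.br (nat_lit 4) (.cons (.br (nat_lit 5) (.cons (.rel (nat_lit 5368987776)) (.cons (.rel (nat_lit 9663694980)) .nil))) .nil)) .leaf) (nat_lit 25247209588302459) (.br (nat_lit 1) (.cons (.br (nat_lit 6) (.cons (.rel (nat_lit 17196664836)) .nil)) .nil)) .leaf)))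

/-- refutations 54 -/
def e54 : EX := (.node (.node (.node (.node .leaf (nat_lit 25268197734524940) (.br (nat_lit 0) (.cons (.br (nat_lit 3) (.cons (.rel (nat_lit 272631936)) .nil)) .nil)) .leaf) (nat_lit 25274253308280184) (.br (nat_lit 2) (.cons (.br (nat_lit 3) (.cons (.rel (nat_lit 335546400)) .nil)) .nil)) (.node .leaf (nat_lit 25280449820800528) (.br (nat_lit 0) (.cons (.br (nat_lit 3) (.cons (.rel (nat_lit 274792704)) .nil)) .nil)) .leaf)) (nat_lit 25282345948198419) (.br (nat_lit 0) (.cons (.br (nat_lit 1) (.cons (.rel (nat_lit 21037344)) .nil)) .nil)) (.node (.node .leaf (nat_lit 25282394234853511) (.br (nat_lit 0) (.cons (.br (nat_lit 3) (.cons (.rel (nat_lit 272631936)) .nil)) .nil)) .leaf) (nat_lit 25282397503752848) (.br (nat_lit 0) (.cons (.br (nat_lit 1) (.cons (.rel (nat_lit 42206208)) .nil)) .nil)) .leaf)) (nat_lit 25282397504581883) (.br (nat_lit 0) (.cons (.br (nat_lit 1) (.cons (.rel (nat_lit 42206208)) .nil)) .nil)) (.node (.node (.node .leaf (nat_lit 25282399169720475)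 (.br (nat_lit 0) (.cons (.br (nat_lit 4) (.cons (.rel (nat_lit 1077938244)) .nil)) .nil)) .leaf) (nat_lit 25282399169720571) (.br (nat_lit 1) (.cons (.br (nat_lit 3) (.cons (.rel (nat_lit 285230082)) .nil)) .nil)) (.node .leaf (nat_lit 25285781922033819) (.br (nat_lit 1) (.cons (.br (nat_lit 3) (.cons (.rel (nat_lit 285344784)) .nil)) .nil)) .leaf)) (nat_lit 25285781968171043) (.br (nat_lit 0) (.cons (.br (nat_lit 1) (.cons (.rel (nat_lit 42206208)) .nil)) .nil)) (.node (.node .leaf (nat_lit 25285781969754768) (.br (nat_lit 0) (.cons (.br (nat_lit 1) (.cons (.rel (nat_lit 22052928)) .nil)) .nil)) .leaf) (nat_lit 25287593243702800) (.br (nat_lit 0) (.cons (.br (nat_lit 1) (.cons (.rel (nat_lit 37749780)) .nil)) .nil)) .leaf)))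

/-- refutations 55 -/
def e55 : EX := (.node (.node (.node (.node .leaf (nat_lit 26388799838533632) (.br (nat_lit 0) (.cons (.br (nat_lit 1) (.cons (.rel (nat_lit 21037344)) .nil)) .nil)) .leaf) (nat_lit 26394775915135127) (.br (nat_lit 0) (.cons (.br (nat_lit 3) (.cons (.rel (nat_lit 272662608)) .nil)) .nil)) .leaf) (nat_lit 26394775915135611) (.br (nat_lit 0) (.cons (.br (nat_lit 2) (.cons (.rel (nat_lit 71319816)) .nil)) .nil)) (.node (.node .leaf (nat_lit 26396096140720128) (.br (nat_lit 2) (.cons (.br (nat_lit 4) (.cons (.rel (nat_lit 1140918336)) .nil)) .nil)) .leaf) (nat_lit 26396099096413720) (.br (nat_lit 0) (.cons (.br (nat_lit 1) (.cons (.rel (nat_lit 25165842)) .nil)) .nil)) .leaf)) (nat_lit 26400153544435089) (.br (nat_lit 2) (.cons (.br (nat_lit 4) (.cons (.rel (nat_lit 1141900800)) .nil)) .nil)) (.node (.node (.node .leaf (nat_lit 26400153545539834) (.br (nat_lit 1) (.cons (.br (nat_lit 5) (.cons (.rel (nat_lit 4330618944)) .nil)) .nil)) .leaf) (nat_lit 26400153545768472)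 (.br (nat_lit 0) (.cons (.br (nat_lit 2) (.cons (.rel (nat_lit 71435520)) .nil)) .nil)) .leaf) (nat_lit 26400153546833127) (.br (nat_lit 1) (.cons (.br (nat_lit 6) (.cons (.rel (nat_lit 17196646548)) .nil)) .nil)) (.node (.node .leaf (nat_lit 26400153546975392) (.br (nat_lit 1) (.cons (.br (nat_lit 6) (.cons (.rel (nat_lit 17196777480)) .nil)) .nil)) .leaf) (nat_lit 26400153546976632) (.br (nat_lit 2) (.cons (.br (nat_lit 4) (.cons (.rel (nat_lit 1140918336)) .nil)) .nil)) .leaf)))

/-- refutations 56 -/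
def e56 : EX := (.node (.node (.node .leaf (nat_lit 26425914430659337) (.br (nat_lit 6) (.cons (.br (nat_lit 1) (.cons (.rel (nat_lit 34393358340)) (.cons (.rel (nat_lit 17213689857)) .nil))) .nil)) .leaf) (nat_lit 26425914432229383) (.br (nat_lit 4) (.cons (.br (nat_lit 0) (.cons (.rel (nat_lit 1079247873)) (.cons (.rel (nat_lit 1077956640)) .nil))) .nil)) (.node .leaf (nat_lit 26425914432229633) (.br (nat_lit 0) (.cons (.br (nat_lit 1) (.cons (.rel (nat_lit 20971860)) (.cons (.rel (nat_lit 21037344)) .nil))) .nil)) .leaf)) (nat_lit 26425914432229636) (.br (nat_lit 0) (.cons (.br (nat_lit 2) (.cons (.rel (nat_lit 72351780)) .nil)) .nil)) (.node (.node .leaf (nat_lit 26425914433672724) (.br (nat_lit 0) (.cons (.br (nat_lit 1) (.cons (.rel (nat_lit 42009156)) .nil)) .nil)) .leaf) (nat_lit 26435327444455435) (.br (nat_lit 0) (.cons (.br (nat_lit 1) (.cons (.rel (nat_lit 21497856)) .nil)) .nil)) (.node .leaf (nat_lit 26488158062979332) (.br (nat_lit 1) (.cons (.br (nat_lit 4) (.cons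 (.rel (nat_lit 1090666500)) .nil)) .nil)) .leaf)))

/-- refutations 57 -/
def e57 : EX := (.node (.node (.node (.node (.node .leaf (nat_lit 26494923341115392) (.br (nat_lit 0) (.cons (.br (nat_lit 1) (.cons (.rel (nat_lit 42206208)) .nil)) .nil)) .leaf) (nat_lit 26494923356818040) (.br (nat_lit 0) (.cons (.br (nat_lit 2) (.cons (.rel (nat_lit 71435520)) .nil)) .nil)) (.node .leaf (nat_lit 26494925731868672) (.br (nat_lit 3) (.cons (.br (nat_lit 5) (.cons (.rel (nat_lit 8858370192)) .nil)) .nil)) .leaf)) (nat_lit 26494925877594112) (.br (nat_lit 0) (.cons (.br (nat_lit 3) (.cons (.rel (nat_lit 272631936)) .nil)) .nil)) (.node (.node .leaf (nat_lit 26494925877594744) (.br (nat_lit 0) (.cons (.br (nat_lit 1) (.cons (.rel (nat_lit 21037344)) .nil)) .nil)) .leaf) (nat_lit 26494926818406575) (.br (nat_lit 0) (.cons (.br (nat_lit 1) (.cons (.rel (nat_lit 42206208)) .nil)) .nil)) .leaf)) (nat_lit 26494926818407180) (.br (nat_lit 0) (.cons (.br (nat_lit 5) (.cons (.rel (nat_lit 4299161622))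 .nil)) .nil)) (.node (.node (.node .leaf (nat_lit 26494926927233899) (.br (nat_lit 4) (.cons (.br (nat_lit 5) (.cons (.rel (nat_lit 5369106432)) (.cons (.rel (nat_lit 5369778432)) .nil))) .nil)) .leaf) (nat_lit 26494926927245989) (.br (nat_lit 0) (.cons (.br (nat_lit 1) (.cons (.rel (nat_lit 21004545)) .nil)) .nil)) .leaf) (nat_lit 26494929523519488) (.br (nat_lit 1) (.cons (.br (nat_lit 3) (.cons (.rel (nat_lit 554172480)) .nil)) .nil)) (.node (.node .leaf (nat_lit 26499502844733722) (.br (nat_lit 0) (.cons (.br (nat_lit 1) (.cons (.rel (nat_lit 21004545)) .nil)) .nil)) .leaf) (nat_lit 26499502844734701) (.br (nat_lit 2) (.cons (.br (nat_lit 4) (.cons (.rel (nat_lit 1140867105)) .nil)) .nil)) .leaf))) (nat_lit 26499502846714656) (.br (nat_lit 0) (.cons (.br (nat_lit 1) (.cons (.rel (nat_lit 21037344)) .nil)) .nil)) (.node (.node (.node (.node .leaf (nat_lit 26500292033458176) (.br (nat_lit 1) (.cons (.br (nat_lit 6) (.cons (.rel (nat_lit 17196646548)) (.cons (.rel (nat_lit 17196777480))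 .nil))) .nil)) .leaf) (nat_lit 26500328800727040) (.br (nat_lit 0) (.cons (.br (nat_lit 2) (.cons (.rel (nat_lit 71369025)) .nil)) .nil)) (.node .leaf (nat_lit 26500328800940314) (.br (nat_lit 0) (.cons (.br (nat_lit 2) (.cons (.rel (nat_lit 138416130)) (.cons (.rel (nat_lit 138416130)) .nil))) .nil)) .leaf)) (nat_lit 26501657865220752) (.br (nat_lit 0) (.cons (.br (nat_lit 2) (.cons (.rel (nat_lit 71319816)) .nil)) .nil)) (.node (.node .leaf (nat_lit 26501657866601104) (.br (nat_lit 0) (.cons (.br (nat_lit 1) (.cons (.rel (nat_lit 20971860)) .nil)) .nil)) .leaf) (nat_lit 26501657866613392) (.br (nat_lit 0) (.cons (.br (nat_lit 5) (.cons (.rel (nat_lit 8598339648)) .nil)) .nil)) .leaf)) (nat_lit 26505729494535669) (.br (nat_lit 0) (.cons (.br (nat_lit 1) (.cons (.rel (nat_lit 20971860)) .nil)) .nil)) (.node (.node (.node .leaf (nat_lit 26505729495609355) (.br (nat_lit 6) (.cons (.br (nat_lit 0) (.cons (.rel (nat_lit 17188536324)) (.cons (.rel (nat_lit 17184069633)) .nil))) .nil))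 .leaf) (nat_lit 26505729495609526) (.br (nat_lit 0) (.cons (.br (nat_lit 4) (.cons (.rel (nat_lit 1077944328)) .nil)) .nil)) .leaf) (nat_lit 26505730548029626) (.br (nat_lit 0) (.cons (.br (nat_lit 2) (.cons (.rel (nat_lit 142877760)) .nil)) .nil)) (.node (.node .leaf (nat_lit 26505730548379648) (.br (nat_lit 0) (.cons (.br (nat_lit 2) (.cons (.rel (nat_lit 75531264)) .nil)) .nil)) .leaf) (nat_lit 26507199427196141) (.br (nat_lit 0) (.cons (.br (nat_lit 2) (.cons (.rel (nat_lit 71827524)) .nil)) .nil)) .leaf))))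

/-- refutations 58 -/
def e58 : EX := (.node (.node (.node (.node (.node .leaf (nat_lit 26564684842357543) (.br (nat_lit 1) (.cons (.br (nat_lit 5) (.cons (.rel (nat_lit 4311826452)) .nil)) .nil)) .leaf) (nat_lit 26565292102234919) (.br (nat_lit 0) (.cons (.br (nat_lit 1) (.cons (.rel (nat_lit 21497856)) .nil)) .nil)) .leaf) (nat_lit 26565292103514294) (.br (nat_lit 0) (.cons (.br (nat_lit 1) (.cons (.rel (nat_lit 21497856)) .nil)) .nil)) (.node (.node .leaf (nat_lit 26565294727712943) (.br (nat_lit 0) (.cons (.br (nat_lit 4) (.cons (.rel (nat_lit 1077944328)) .nil)) .nil)) .leaf) (nat_lit 26565294727713575) (.br (nat_lit 0) (.cons (.br (nat_lit 1) (.cons (.rel (nat_lit 21497856)) .nil)) .nil)) .leaf)) (nat_lit 26565294727868416) (.br (nat_lit 1) (.cons (.br (nat_lit 4) (.cons (.rel (nat_lit 1090520160)) (.cons (.rel (nat_lit 1090539522)) .nil))) .nil)) (.node (.node (.node .leaf (nat_lit 26565294729136128) (.br (nat_lit 2) (.cons (.br (nat_lit 4) (.cons (.rel (nat_lit 1140855840))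 .nil)) .nil)) .leaf) (nat_lit 26566615249801216) (.br (nat_lit 1) (.cons (.br (nat_lit 2) (.cons (.rel (nat_lit 168050688)) .nil)) .nil)) .leaf) (nat_lit 26566623542137619) (.br (nat_lit 0) (.cons (.br (nat_lit 3) (.cons (.rel (nat_lit 272631936)) .nil)) .nil)) (.node .leaf (nat_lit 26566629316097552) (.br (nat_lit 0) (.cons (.br (nat_lit 2) (.cons (.rel (nat_lit 71435520)) .nil)) .nil)) .leaf))) (nat_lit 26566669118670848) (.br (nat_lit 1) (.cons (.br (nat_lit 2) (.cons (.rel (nat_lit 85004289)) .nil)) .nil)) (.node (.node (.node (.node .leaf (nat_lit 26570661108994048) (.br (nat_lit 0) (.cons (.br (nat_lit 1) (.cons (.rel (nat_lit 21497856)) .nil)) .nil)) .leaf) (nat_lit 26570661109149696) (.br (nat_lit 1) (.cons (.br (nat_lit 6) (.cons (.rel (nat_lit 17196777480)) .nil)) .nil)) .leaf) (nat_lit 26570735779112960) (.br (nat_lit 0) (.cons (.br (nat_lit 1) (.cons (.rel (nat_lit 20993280)) .nil)) .nil)) (.node .leaf (nat_lit 26570735780188167) (.br (nat_lit 0) (.cons (.br (nat_lit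 2) (.cons (.rel (nat_lit 71974914)) .nil)) .nil)) .leaf)) (nat_lit 26570907103890215) (.br (nat_lit 0) (.cons (.br (nat_lit 1) (.cons (.rel (nat_lit 21497856)) .nil)) .nil)) (.node (.node (.node .leaf (nat_lit 26570907106336943) (.br (nat_lit 5) (.cons (.br (nat_lit 6) (.cons (.rel (nat_lit 21476933652)) .nil)) .nil)) .leaf) (nat_lit 26576098206397223) (.br (nat_lit 0) (.cons (.br (nat_lit 1) (.cons (.rel (nat_lit 42206208)) .nil)) .nil)) .leaf) (nat_lit 26577354995879936) (.br (nat_lit 4) (.cons (.br (nat_lit 3) (.cons (.rel (nat_lit 1343766528)) (.cons (.rel (nat_lit 2684420352)) (.cons (.rel (nat_lit 1342308864)) .nil)))) .nil)) (.node .leaf (nat_lit 26577354995880811) (.br (nat_lit 1) (.cons (.br (nat_lit 3) (.cons (.rel (nat_lit 285218817)) .nil)) .nil)) .leaf))))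

/-- refutations 59 -/
def e59 : EX := (.node (.node (.node (.node (.node .leaf (nat_lit 26921855270493685) (.br (nat_lit 0) (.cons (.br (nat_lit 1) (.cons (.rel (nat_lit 21037344)) .nil)) .nil)) .leaf) (nat_lit 26922748577552419) (.br (nat_lit 0) (.cons (.br (nat_lit 1) (.cons (.rel (nat_lit 20993280)) .nil)) .nil)) (.node .leaf (nat_lit 26922748622669824) (.br (nat_lit 1) (.cons (.br (nat_lit 4) (.cons (.rel (nat_lit 2181055488)) .nil)) .nil)) .leaf)) (nat_lit 26922748622671260) (.br (nat_lit 0) (.cons (.br (nat_lit 2) (.cons (.rel (nat_lit 71307540)) .nil)) .nil)) (.node (.node .leaf (nat_lit 26922748622769513) (.br (nat_lit 0) (.cons (.br (nat_lit 3) (.cons (.rel (nat_lit 272638020)) .nil)) .nil)) .leaf) (nat_lit 26922748622783845) (.br (nat_lit 0) (.cons (.br (nat_lit 3) (.cons (.rel (nat_lit 272631936)) .nil)) .nil)) .leaf)) (nat_lit 26922748623691113) (.br (nat_lit 0) (.cons (.br (nat_lit 5) (.cons (.rel (nat_lit 4299161622)) .nil)) .nil)) (.node (.node (.node .leaf (nat_lit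 26922751298233575) (.br (nat_lit 2) (.cons (.br (nat_lit 4) (.cons (.rel (nat_lit 1140854793)) .nil)) .nil)) .leaf) (nat_lit 26922751299657065) (.br (nat_lit 0) (.cons (.br (nat_lit 1) (.cons (.rel (nat_lit 42206208)) .nil)) .nil)) .leaf) (nat_lit 26923872918439936) (.br (nat_lit 1) (.cons (.br (nat_lit 3) (.cons (.rel (nat_lit 285229080)) .nil)) .nil)) (.node (.node .leaf (nat_lit 26923872919459851) (.br (nat_lit 1) (.cons (.br (nat_lit 3) (.cons (.rel (nat_lit 554696736)) .nil)) .nil)) .leaf) (nat_lit 26927258340743203) (.br (nat_lit 0) (.cons (.br (nat_lit 2) (.cons (.rel (nat_lit 72417408)) .nil)) .nil)) .leaf))) (nat_lit 26927261014394915) (.br (nat_lit 0) (.cons (.br (nat_lit 1) (.cons (.rel (nat_lit 25428288)) .nil)) .nil)) (.node (.node (.node (.node .leaf (nat_lit 26927261015316515) (.br (nat_lit 3) (.cons (.br (nat_lit 0) (.cons (.rel (nat_lit 272631936)) (.cons (.rel (nat_lit 274792704)) .nil))) .nil)) .leaf) (nat_lit 26929147139087888) (.br (nat_lit 0) (.cons (.br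 (nat_lit 2) (.cons (.rel (nat_lit 71827524)) .nil)) .nil)) .leaf) (nat_lit 26929147139299328) (.br (nat_lit 0) (.cons (.br (nat_lit 2) (.cons (.rel (nat_lit 72353793)) .nil)) .nil)) (.node (.node .leaf (nat_lit 26929380051957237) (.br (nat_lit 0) (.cons (.br (nat_lit 1) (.cons (.rel (nat_lit 22052928)) .nil)) .nil)) .leaf) (nat_lit 26929380053196277) (.br (nat_lit 0) (.cons (.br (nat_lit 1) (.cons (.rel (nat_lit 22052928)) .nil)) .nil)) .leaf)) (nat_lit 27046809327120690) (.br (nat_lit 0) (.cons (.br (nat_lit 1) (.cons (.rel (nat_lit 20971860)) (.cons (.rel (nat_lit 21037344)) .nil))) .nil)) (.node (.node (.node .leaf (nat_lit 27046809327121144) (.br (nat_lit 0) (.cons (.br (nat_lit 6) (.cons (.rel (nat_lit 17184063621)) .nil)) .nil)) .leaf) (nat_lit 27046809330031352) (.br (nat_lit 3) (.cons (.br (nat_lit 5) (.cons (.rel (nat_lit 8858501124)) .nil)) .nil)) .leaf) (nat_lit 27046809330031869) (.br (nat_lit 0) (.cons (.br (nat_lit 1) (.cons (.rel (nat_lit 42206208)) (.cons (.rel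 (nat_lit 20993280)) .nil))) .nil)) (.node (.node .leaf (nat_lit 27268364527774372) (.br (nat_lit 0) (.cons (.br (nat_lit 1) (.cons (.rel (nat_lit 37765188)) .nil)) .nil)) .leaf) (nat_lit 27316192402736411) (.br (nat_lit 1) (.cons (.br (nat_lit 2) (.cons (.rel (nat_lit 83886468)) .nil)) .nil)) .leaf))))

/-- list of the parts -/
def L0 : List (ℕ × List ℕ) := [(nat_lit 0x460, [cP]),
  (nat_lit 0x20000000, [cP]),
  (nat_lit 0x40000000, [cP]),
  (nat_lit 0x80000000, [cP]),
  (nat_lit 0x1c00000000, [cP]),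
  (nat_lit 0x40020000000000, [cP]),
  (nat_lit 0x100000000000000, [cP]),
  (nat_lit 0x1000000000000000, [cP]),
  (nat_lit 0x800000000000000050000000000000000, [cP]),
  (nat_lit 0x1c000000000000000000000000000000000, [cP]),
  (nat_lit 0x1000000000000000000000000000000000000000, [cP]),
  (nat_lit 0x800208000000000000000000000000000000000000000, [cP]),
  (nat_lit 0x3000000000000000000000000000000000000000000000, [cP]),
  (nat_lit 0x10000000000000000000000000000000000000000000000, [cP]),
  (nat_lit 0x20000000000000000000000000000000000000000000000, [cP]),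
  (nat_lit 0x800000000000000000000000000000000000000000000000, [cP]),
  (nat_lit 0x10000000000000000000000000000000000000000000000000000000000000000, [cP]),
  (nat_lit 0x1000000000000000000000000000000000000000000000000000000000000000000, [Nat.sub (Nat.pow 2 680) (Nat.pow 2 0), Nat.sub (Nat.pow 2 1384) (Nat.pow 2 680), Nat.sub (Nat.pow 2 1564) (Nat.pow 2 1384), Nat.sub (Nat.pow 2 3136) (Nat.pow 2 1564)]),
  (nat_lit 0x10000100000000000000000000000000000000000000000000000000000000000000000, [cP]),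
  (nat_lit 0x800002000000000000000000000000000000000000000000000000000000000000000000000000, [cP]),
  (nat_lit 0x8c00000000000000000000000000000000000000000000000000000000000000000000000000000000000000000000000000000000000000000000000000000000000000000000000000000000000000, [cP]),
  (nat_lit 0x1000000000000000000000000000000000000000000000000000000000000000000000000000000000000000000000000000000000000000000000000000000000000000000000000000000000000000000000, [cP]),
  (nat_lit 0x2000000000000000000000000000000000000000000000000000000000000000000000000000000000000000000000000000000000000000000000000000000000000000000000000000000000000000000000, [cP]),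
  (nat_lit 0x30000000000000000000000000000000000000000000000000000000000000000000000000000000000000000000000000000000000000000000000000000000000000000000000000000000000000000000000, [cP]),
  (nat_lit 0x4100040000000000000000000000000000000000000000000000000000000000000000000000000000000000000000000000000000000000000000000000000000000000000000000000000000000000000000000000, [cP]),
  (nat_lit 0x20000000000000000000000000000000000000000000000000000000000000000000000000000000000000000000000000000000000000000000000000000000000000000000000000000000000000000000000000000, [cP]),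
  (nat_lit 0x111000000000000000000000000000000000000000000000000000000000000000000000000000000000000000000000000000000000000000000000000000000000000000000000000000000000000000000000000000000000000000000000, [cP]),
  (nat_lit 0x200000000000000000000000000000000000000000000000000000000000000000000000000000000000000000000000000000000000000000000000000000000000000000000000000000000000000000000000000000000000000000000000, [cP]),
  (nat_lit 0x20800000000000000000000000000000000000000000000000000000000000000000000000000000000000000000000000000000000000000000000000000000000000000000000000000000000000000000000000000000000000000000000000000, [cP]),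
  (nat_lit 0x20000800000000000000000000000000000000000000000000000000000000000000000000000000000000000000000000000000000000000000000000000000000000000000000000000000000000000000000000000000000000000000000000000000000, [cP]),
  (nat_lit 0xc0000000000000000000000000000000000000000000000000000000000000000000000000000000000000000000000000000000000000000000000000000000000000000000000000000000000000000000000000000000000000000000000000000000000, [cP]),
  (nat_lit 0x400000000000000000000000000000000000000000000000000000000000000000000000000000000000000000000000000000000000000000000000000000000000000000000000000000000000000000000000000000000000000000000000000000000000, [cP]),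
  (nat_lit 0x20000000000000000000000000000000000000000000000000000000000000000000000000000000000000000000000000000000000000000000000000000000000000000000000000000000000000000000000000000000000000000000000000000000000000000000000000000, [Nat.sub (Nat.pow 2 286) (Nat.pow 2 0), Nat.sub (Nat.pow 2 764) (Nat.pow 2 286), Nat.sub (Nat.pow 2 1560) (Nat.pow 2 764), Nat.sub (Nat.pow 2 3136) (Nat.pow 2 1560)]),
  (nat_lit 0x1000000000000000000000000000000000000000000000000000000000000000000000000000000000000000000000000000000000000000000000000000000000000000000000000000000000000000000000000000000000000000000000000000000000000, [cP]),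
  (nat_lit 0x200000000000000000000000000000000000000000000000000000000000000000000000000000000000000000000000000000000000000000000000000000000000000000000000000000000000000000000000000000000000000000000000000000000000000000000000000000, [cP]),
  (nat_lit 0x2000000000000000000000000000000000000000000000000000000000000000000000000000000000000000000000000000000000000000000000000000000000000000000000000000000000000000000000000000000000000000000000000000000000000000000000000000000, [cP]),
  (nat_lit 0x100000000000000000000000000000000000000000000000000000000000000000000000000000011000000200000000000000000000000000000000000000000000000000000000000000000000000000000000000000000000000000000000000000000000000000000000000000000000000000000000000000000000000000000000000000000000000000000000000000000000000000000000000, [cP]),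
  (nat_lit 0x50000000000000000000000000000000000000000000000000000000000000000000000000000000000000000000000000000000000000000000000000000000000000000000000000000000000000000000000000000000000000000000000000000000000000000000000000000000000000000000000000000000000000000000000000000000000000000000000000000000000000000000000000000, [cP]),
  (nat_lit 0x380000000000000000000000000000000000000000000000000000000000000000000000000000000000000000000000000000000000000000000000000000000000000000000000000000000000000000000000000000000000000000000000000000000000000000000000000000000000000000000000000000000000000000000000000000000000000000000000000000000000000000000000000000000, [cP]),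
  (nat_lit 0x20000000000000000000000000000000000000000000000000000000000000000000000000000000000000000000000000000000000000000000000000000000000000000000000000000000000000000000000000000000000000000000000000000000000000000000000000000000000000000000000000000000000000000000000000000000000000000000000000000000000000000000000000000000000, [cP]),
  (nat_lit 0x40000000000000000000000000000000000000000000000000000000000000000000000000000000000000000000000000000000000000000000000000000000000000000000000000000000000000000000000000000000000000000000000000000000000000000000000000000000000000000000000000000000000000000000000000000000000000000000000000000000000000000000000000000000000, [cP]),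
  (nat_lit 0x2400000000000000000000000000000000000000000000000000000000000000000000000000000000000000000000000000000000000000000000000000000000000000000000000000000000000000000000000000000000000000000000000000000000000000000000000000000000000000000000000000000000000000000000000000000000000000000000000000000000000000000000000000000000000000, [cP]),
  (nat_lit 0x80000000000000000000000000000000000000000000000000000000000000000000000000000000000000000000000000000000000000000000000000000000000000000000000000000000000000000000000000000000000000000000000000000000000000000000000000000000000000000000000000000000000000000000000000000000000000000000000000000000000000000000000000000000000000000, [cP]),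
  (nat_lit 0x2800000000000000000000000000000000000000000000000000000000000000000000000000000000000000000000000000000000000000000000000000000000000000000000000000000000000000000000000000000000000000000000000000000000000000000000000000000000000000000000000000000000000000000000000000000000000000000000000000000000000000000000000000000000000000000000000000000000, [cP]),
  (nat_lit 0x83000200000000000000000000000000000000000000000000000000000000000000000000000000000000000000000000000000000000000000000000000000000000000000000000000000000000000000000000000000000000000000000000000000000000000000000000000000000000000000000000000000000000000000000000000000000000000000000000000000000000000000000000000000000000000000000000000000000000000, [cP]),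
  (nat_lit 0x400000000000000000000000000000000000000000000000000000000000000000000000000000000000000000000000000000000000000000000000000000000000000000000000000000000000000000000000000000000000000000000000000000000000000000000000000000000000000000000000000000000000000000000000000000000000000000000000000000000000000000000000000000000000000000000000000000000000000000, [cP]),
  (nat_lit 0x4000000000000000000000000000000000000000000000000000000000000000000000000000000000000000000000000000000000000000000000000000000000000000000000000000000000000000000000000000000000000000000000000000000000000000000000000000000000000000000000000000000000000000000000000000000000000000000000000000000000000000000000000000000000000000000000000000000000000000000000, [cP]),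
  (nat_lit 0x808000000000000000000000000000000000000000000000000000000000000000000000000000000000000000000000000000000000000000000000000000000000000000000000000000000000000000000000000000000000000000000000000000000000000000000000000000000000000000000000000000000000000000000000000000000000000000000000000000000000000000000000000000000000000000000000000000000000000000000000, [cP]),
  (nat_lit 0x3000000000000000000000000000000000000000000000000000000000000000000000000000000000000000000000000000000000000000000000000000000000000000000000000000000000000000000000000000000000000000000000000000000000000000000000000000000000000000000000000000000000000000000000000000000000000000000000000000000000000000000000000000000000000000000000000000000000000000000000000, [cP]),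
  (nat_lit 0x10000000000000000000000000000000000000000000000000000000000000000000000000000000000000000000000000000000000000000000000000000000000000000000000000000000000000000000000000000000000000000000000000000000000000000000000000000000000000000000000000000000000000000000000000000000000000000000000000000000000000000000000000000000000000000000000000000000000000000000000000000000000000000, [cP]),
  (nat_lit 0x240000000000000000000000000000000000000000000000000000000000000000000000000000000000000000000000000000000000000000000000000000000000000000000000000000000000000000000000000000000000000000000000000000000000000000000000000000000000000000000000000000000000000000000000000000000000000000000000000000000000000000000000000000000000000000000000000000000000000000000000000000000000000000, [cP]),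
  (nat_lit 0x400000000000000000000000000000000000000000000000000000000000000000000000000000000000000000000000000000000000000000000000000000000000000000000000000000000000000000000000000000000000000000000000000000000000000000000000000000000000000000000000000000000000000000000000000000000000000000000000000000000000000000000000000000000000000000000000000000000000000000000000000000000000000000, [cP]),
  (nat_lit 0x4000000000000000000000000000000000000000000000000000000000000000000000000000000000000000000000000000000000000000000000000000000000000000000000000000000000000000000000000000000000000000000000000000000000000000000000000000000000000000000000000000000000000000000000000000000000000000000000000000000000000000000000000000000000000000000000000000000000000000000000000000000000000000000, [cP]),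
  (nat_lit 0x140020400000000000000000000000000000000000000000000000000000000000000000000000000000000000000000000000000000000000000000000000000000000000000000000000000000000000000000000000000000000000000000000000000000000000000000000000000000000000000000000000000000000000000000000000000000000000000000000000000000000000000000000000000000000000000000000000000000000000000000000000000000000000000000000000, [cP])]

theorem hp0 : ∀ p ∈ L0, ∀ D2 ∈ p.2, ∃ e,
    search ext94 (Pool.Agent.H74.EGZ.vio sb) G Uc A0 p.1 D2 e = true :=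
  (List.forall_mem_cons.2 ⟨(List.forall_mem_singleton.2 ⟨e0, by decide +kernel⟩),
  (List.forall_mem_cons.2 ⟨(List.forall_mem_singleton.2 ⟨e1, by decide +kernel⟩),
  (List.forall_mem_cons.2 ⟨(List.forall_mem_singleton.2 ⟨e2, by decide +kernel⟩),
  (List.forall_mem_cons.2 ⟨(List.forall_mem_singleton.2 ⟨e3, by decide +kernel⟩),
  (List.forall_mem_cons.2 ⟨(List.forall_mem_singleton.2 ⟨e4, by decide +kernel⟩),
  (List.forall_mem_cons.2 ⟨(List.forall_mem_singleton.2 ⟨e5, by decide +kernel⟩),
  (List.forall_mem_cons.2 ⟨(List.forall_mem_singleton.2 ⟨e6, by decide +kernel⟩),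
  (List.forall_mem_cons.2 ⟨(List.forall_mem_singleton.2 ⟨e7, by decide +kernel⟩),
  (List.forall_mem_cons.2 ⟨(List.forall_mem_singleton.2 ⟨e8, by decide +kernel⟩),
  (List.forall_mem_cons.2 ⟨(List.forall_mem_singleton.2 ⟨e9, by decide +kernel⟩),
  (List.forall_mem_cons.2 ⟨(List.forall_mem_singleton.2 ⟨e10, by decide +kernel⟩),
  (List.forall_mem_cons.2 ⟨(List.forall_mem_singleton.2 ⟨e11, by decide +kernel⟩),
  (List.forall_mem_cons.2 ⟨(List.forall_mem_singleton.2 ⟨e12, by decide +kernel⟩),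
  (List.forall_mem_cons.2 ⟨(List.forall_mem_singleton.2 ⟨e13, by decide +kernel⟩),
  (List.forall_mem_cons.2 ⟨(List.forall_mem_singleton.2 ⟨e14, by decide +kernel⟩),
  (List.forall_mem_cons.2 ⟨(List.forall_mem_singleton.2 ⟨e15, by decide +kernel⟩),
  (List.forall_mem_cons.2 ⟨(List.forall_mem_singleton.2 ⟨e16, by decide +kernel⟩),
  (List.forall_mem_cons.2 ⟨(List.forall_mem_cons.2 ⟨⟨e17, by decide +kernel⟩,
  (List.forall_mem_cons.2 ⟨⟨e18, by decide +kernel⟩,
  (List.forall_mem_cons.2 ⟨⟨e19, by decide +kernel⟩,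
  (List.forall_mem_singleton.2 ⟨e20, by decide +kernel⟩)⟩)⟩)⟩),
  (List.forall_mem_cons.2 ⟨(List.forall_mem_singleton.2 ⟨e21, by decide +kernel⟩),
  (List.forall_mem_cons.2 ⟨(List.forall_mem_singleton.2 ⟨e22, by decide +kernel⟩),
  (List.forall_mem_cons.2 ⟨(List.forall_mem_singleton.2 ⟨e23, by decide +kernel⟩),
  (List.forall_mem_cons.2 ⟨(List.forall_mem_singleton.2 ⟨e24, by decide +kernel⟩),
  (List.forall_mem_cons.2 ⟨(List.forall_mem_singleton.2 ⟨e25, by decide +kernel⟩),
  (List.forall_mem_cons.2 ⟨(List.forall_mem_singleton.2 ⟨e26, by decide +kernel⟩),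
  (List.forall_mem_cons.2 ⟨(List.forall_mem_singleton.2 ⟨e27, by decide +kernel⟩),
  (List.forall_mem_cons.2 ⟨(List.forall_mem_singleton.2 ⟨e28, by decide +kernel⟩),
  (List.forall_mem_cons.2 ⟨(List.forall_mem_singleton.2 ⟨e29, by decide +kernel⟩),
  (List.forall_mem_cons.2 ⟨(List.forall_mem_singleton.2 ⟨e30, by decide +kernel⟩),
  (List.forall_mem_cons.2 ⟨(List.forall_mem_singleton.2 ⟨e31, by decide +kernel⟩),
  (List.forall_mem_cons.2 ⟨(List.forall_mem_singleton.2 ⟨e32, by decide +kernel⟩),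
  (List.forall_mem_cons.2 ⟨(List.forall_mem_singleton.2 ⟨e33, by decide +kernel⟩),
  (List.forall_mem_cons.2 ⟨(List.forall_mem_singleton.2 ⟨e34, by decide +kernel⟩),
  (List.forall_mem_cons.2 ⟨(List.forall_mem_cons.2 ⟨⟨e35, by decide +kernel⟩,
  (List.forall_mem_cons.2 ⟨⟨e36, by decide +kernel⟩,
  (List.forall_mem_cons.2 ⟨⟨e37, by decide +kernel⟩,
  (List.forall_mem_singleton.2 ⟨e38, by decide +kernel⟩)⟩)⟩)⟩),
  (List.forall_mem_cons.2 ⟨(List.forall_mem_singleton.2 ⟨e39, by decide +kernel⟩),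
  (List.forall_mem_cons.2 ⟨(List.forall_mem_singleton.2 ⟨e40, by decide +kernel⟩),
  (List.forall_mem_cons.2 ⟨(List.forall_mem_singleton.2 ⟨e41, by decide +kernel⟩),
  (List.forall_mem_cons.2 ⟨(List.forall_mem_singleton.2 ⟨e42, by decide +kernel⟩),
  (List.forall_mem_cons.2 ⟨(List.forall_mem_singleton.2 ⟨e43, by decide +kernel⟩),
  (List.forall_mem_cons.2 ⟨(List.forall_mem_singleton.2 ⟨e44, by decide +kernel⟩),
  (List.forall_mem_cons.2 ⟨(List.forall_mem_singleton.2 ⟨e45, by decide +kernel⟩),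
  (List.forall_mem_cons.2 ⟨(List.forall_mem_singleton.2 ⟨e46, by decide +kernel⟩),
  (List.forall_mem_cons.2 ⟨(List.forall_mem_singleton.2 ⟨e47, by decide +kernel⟩),
  (List.forall_mem_cons.2 ⟨(List.forall_mem_singleton.2 ⟨e48, by decide +kernel⟩),
  (List.forall_mem_cons.2 ⟨(List.forall_mem_singleton.2 ⟨e49, by decide +kernel⟩),
  (List.forall_mem_cons.2 ⟨(List.forall_mem_singleton.2 ⟨e50, by decide +kernel⟩),
  (List.forall_mem_cons.2 ⟨(List.forall_mem_singleton.2 ⟨e51, by decide +kernel⟩),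
  (List.forall_mem_cons.2 ⟨(List.forall_mem_singleton.2 ⟨e52, by decide +kernel⟩),
  (List.forall_mem_cons.2 ⟨(List.forall_mem_singleton.2 ⟨e53, by decide +kernel⟩),
  (List.forall_mem_cons.2 ⟨(List.forall_mem_singleton.2 ⟨e54, by decide +kernel⟩),
  (List.forall_mem_cons.2 ⟨(List.forall_mem_singleton.2 ⟨e55, by decide +kernel⟩),
  (List.forall_mem_cons.2 ⟨(List.forall_mem_singleton.2 ⟨e56, by decide +kernel⟩),
  (List.forall_mem_cons.2 ⟨(List.forall_mem_singleton.2 ⟨e57, by decide +kernel⟩),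
  (List.forall_mem_cons.2 ⟨(List.forall_mem_singleton.2 ⟨e58, by decide +kernel⟩),
  (List.forall_mem_singleton.2 (List.forall_mem_singleton.2 ⟨e59, by decide +kernel⟩))⟩)⟩)⟩)⟩)⟩)⟩)⟩)⟩)⟩)⟩)⟩)⟩)⟩)⟩)⟩)⟩)⟩)⟩)⟩)⟩)⟩)⟩)⟩)⟩)⟩)⟩)⟩)⟩)⟩)⟩)⟩)⟩)⟩)⟩)⟩)⟩)⟩)⟩)⟩)⟩)⟩)⟩)⟩)⟩)⟩)⟩)⟩)⟩)⟩)⟩)⟩)⟩)⟩)

end

end Pool.Agent.H21.EGZ.S25
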