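import Pool.Agent.H21.EGZ.D26

/-!
# Stage 26 : search, part 0
-/

set_option autoImplicit false
set_option maxRecDepth 100000

namespace Pool.Agent.H21.EGZ.S26

noncomputable section

open Pool.Agent.H74.EGZ Pool.Agent.H94.Lift

/-- refutations 0 -/
def e0 : EX := (.node (.node (.node (.node (.node (.node (.node .leaf (nat_lit 545573274912943) (.br (nat_lit 1) (.cons (.br (nat_lit 2) (.cons (.rel (nat_lit 100728840)) .nil)) .nil)) .leaf) (nat_lit 545573274913643) (.br (nat_lit 3) (.cons (.br (nat_lit 5) (.cons (.rel (nat_lit 4831838277)) .nil)) .nil)) .leaf) (nat_lit 545573274963968) (.br (nat_lit 2) (.cons (.br (nat_lit 6) (.cons (.rel (nat_lit 17247240216)) .nil)) .nil)) (.node (.node .leaf (nat_lit 545573275035648) (.br (nat_lit 5) (.cons (.br (nat_lit 1) (.cons (.rel (nat_lit 4311745857)) (.cons (.rel (nat_lit 4328652870)) .nil))) .nil)) .leaf) (nat_lit 545573275269381) (.br (nat_lit 5) (.cons (.br (nat_lit 3) (.cons (.rel (nat_lit 4831838277)) (.cons (.rel (nat_lit 4563403032))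 .nil))) .nil)) .leaf)) (nat_lit 545573275269782) (.br (nat_lit 1) (.cons (.br (nat_lit 3) (.cons (.rel (nat_lit 285478920)) .nil)) .nil)) (.node (.node (.node .leaf (nat_lit 545573276204558) (.br (nat_lit 1) (.cons (.br (nat_lit 3) (.cons (.rel (nat_lit 287309856)) (.cons (.rel (nat_lit 571473936)) .nil))) .nil)) .leaf) (nat_lit 545573276298478) (.br (nat_lit 0) (.cons (.br (nat_lit 1) (.cons (.rel (nat_lit 20975877)) .nil)) .nil)) .leaf) (nat_lit 545573276470798) (.br (nat_lit 1) (.cons (.br (nat_lit 3) (.cons (.rel (nat_lit 287309856)) (.cons (.rel (nat_lit 285491205)) .nil))) .nil)) (.node .leaf (nat_lit 545573276499326) (.br (nat_lit 0) (.cons (.br (nat_lit 5) (.cons (.rel (nat_lit 4299178248)) .nil)) .nil)) .leaf))) (nat_lit 545573276559990) (.br (nat_lit 0) (.cons (.br (nat_lit 1) (.cons (.rel (nat_lit 20988162)) .nil)) .nil)) (.node (.node (.node (.node .leaf (nat_lit 545573276562214) (.br (nat_lit 1) (.cons (.br (nat_lit 2) (.cons (.rel (nat_lit 85463040)) .nil)) .nil))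 .leaf) (nat_lit 545573276704768) (.br (nat_lit 3) (.cons (.br (nat_lit 4) (.cons (.rel (nat_lit 1342218240)) (.cons (.rel (nat_lit 1342181385)) (.cons (.rel (nat_lit 1342177380)) (.cons (.rel (nat_lit 1342178385)) .nil))))) (.cons (.br (nat_lit 2) (.cons (.rel (nat_lit 402657300)) (.cons (.rel (nat_lit 337657860)) (.cons (.rel (nat_lit 336069120)) (.cons (.rel (nat_lit 671351040)) (.cons (.rel (nat_lit 603979905)) .nil)))))) .nil))) .leaf) (nat_lit 545573276705029) (.br (nat_lit 1) (.cons (.br (nat_lit 3) (.cons (.rel (nat_lit 285475920)) (.cons (.rel (nat_lit 285213960)) .nil))) .nil)) (.node .leaf (nat_lit 545573276705400) (.br (nat_lit 1) (.cons (.br (nat_lit 2) (.cons (.rel (nat_lit 83886480)) .nil)) .nil)) .leaf)) (nat_lit 545573276705429) (.br (nat_lit 0) (.cons (.br (nat_lit 1) (.cons (.rel (nat_lit 21251136)) .nil)) .nil)) (.node (.node (.node .leaf (nat_lit 545573276705443) (.br (nat_lit 4) (.cons (.br (nat_lit 1) (.cons (.rel (nat_lit 2181038160)) (.cons (.rel (nat_lit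 2181038160)) .nil))) .nil)) .leaf) (nat_lit 545573276706204) (.br (nat_lit 2) (.cons (.br (nat_lit 3) (.cons (.rel (nat_lit 335545665)) .nil)) .nil)) .leaf) (nat_lit 545573276769663) (.br (nat_lit 1) (.cons (.br (nat_lit 2) (.cons (.rel (nat_lit 83886480)) .nil)) .nil)) (.node .leaf (nat_lit 545573276769793) (.br (nat_lit 2) (.cons (.br (nat_lit 3) (.cons (.rel (nat_lit 336069120)) (.cons (.rel (nat_lit 336069120)) .nil))) (.cons (.br (nat_lit 3) (.cons (.rel (nat_lit 402653250)) (.cons (.rel (nat_lit 336069120)) .nil))) .nil))) .leaf)))) (nat_lit 545573277526678) (.br (nat_lit 3) (.cons (.br (nat_lit 5) (.cons (.rel (nat_lit 4563404037)) .nil)) .nil)) (.node (.node (.node (.node (.node .leaf (nat_lit 545573277526923) (.br (nat_lit 1) (.cons (.br (nat_lit 5) (.cons (.rel (nat_lit 4311750912)) .nil)) .nil)) .leaf) (nat_lit 545573277729443) (.br (nat_lit 2) (.cons (.br (nat_lit 1) (.cons (.rel (nat_lit 85999680)) (.cons (.rel (nat_lit 84217920)) (.cons (.rel (nat_lit 151126020))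 .nil)))) .nil)) .leaf) (nat_lit 545573277730143) (.br (nat_lit 1) (.cons (.br (nat_lit 2) (.cons (.rel (nat_lit 83919105)) .nil)) .nil)) (.node (.node .leaf (nat_lit 545573277750174) (.br (nat_lit 3) (.cons (.br (nat_lit 4) (.cons (.rel (nat_lit 1342193670)) .nil)) .nil)) .leaf) (nat_lit 545573277791588) (.br (nat_lit 2) (.cons (.br (nat_lit 4) (.cons (.rel (nat_lit 1140850725)) .nil)) .nil)) .leaf)) (nat_lit 545575242101366) (.br (nat_lit 1) (.cons (.br (nat_lit 3) (.cons (.rel (nat_lit 285212946)) (.cons (.rel (nat_lit 285212946)) .nil))) (.cons (.br (nat_lit 2) (.cons (.rel (nat_lit 84295680)) (.cons (.rel (nat_lit 83952960)) .nil))) .nil))) (.node (.node (.node .leaf (nat_lit 545575243332959) (.br (nat_lit 0) (.cons (.br (nat_lit 1) (.cons (.rel (nat_lit 20971872)) .nil)) .nil)) .leaf) (nat_lit 545575243833506) (.br (nat_lit 1) (.cons (.br (nat_lit 3) (.cons (.rel (nat_lit 285212946)) (.cons (.rel (nat_lit 571473936)) .nil))) .nil)) .leaf) (nat_lit 545575243834150) (.br (nat_lit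 1) (.cons (.br (nat_lit 2) (.cons (.rel (nat_lit 83919105)) .nil)) .nil)) (.node .leaf (nat_lit 545575243834750) (.br (nat_lit 0) (.cons (.br (nat_lit 1) (.cons (.rel (nat_lit 21038352)) .nil)) .nil)) .leaf))) (nat_lit 545575243896963) (.br (nat_lit 2) (.cons (.br (nat_lit 3) (.cons (.rel (nat_lit 335544660)) .nil)) .nil)) (.node (.node (.node (.node .leaf (nat_lit 545578012952576) (.br (nat_lit 1) (.cons (.br (nat_lit 0) (.cons (.rel (nat_lit 23073792)) (.cons (.rel (nat_lit 20975877)) .nil))) .nil)) .leaf) (nat_lit 545578013159424) (.br (nat_lit 1) (.cons (.br (nat_lit 2) (.cons (.rel (nat_lit 151126020)) .nil)) .nil)) .leaf) (nat_lit 545578857655177) (.br (nat_lit 0) (.cons (.br (nat_lit 2) (.cons (.rel (nat_lit 75513858)) (.cons (.rel (nat_lit 72876096)) .nil))) .nil)) (.node .leaf (nat_lit 545578860202790) (.br (nat_lit 1) (.cons (.br (nat_lit 2) (.cons (.rel (nat_lit 83906820)) .nil)) .nil)) .leaf)) (nat_lit 545578860347523) (.br (nat_lit 2) (.cons (.br (nat_lit 3) (.cons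 (.rel (nat_lit 402653250)) (.cons (.rel (nat_lit 336069120)) .nil))) .nil)) (.node (.node (.node .leaf (nat_lit 545579042080768) (.br (nat_lit 0) (.cons (.br (nat_lit 1) (.cons (.rel (nat_lit 21251136)) .nil)) .nil)) .leaf) (nat_lit 545579043729408) (.br (nat_lit 0) (.cons (.br (nat_lit 2) (.cons (.rel (nat_lit 138412176)) .nil)) .nil)) .leaf) (nat_lit 545579044958208) (.br (nat_lit 0) (.cons (.br (nat_lit 2) (.cons (.rel (nat_lit 71565321)) .nil)) .nil)) (.node .leaf (nat_lit 545847548962816) (.br (nat_lit 1) (.cons (.br (nat_lit 2) (.cons (.rel (nat_lit 83906820)) .nil)) .nil)) .leaf))))) (nat_lit 545847548962877) (.br (nat_lit 1) (.cons (.br (nat_lit 2) (.cons (.rel (nat_lit 83906820)) .nil)) .nil)) (.node (.node (.node (.node (.node (.node .leaf (nat_lit 545847607683072) (.br (nat_lit 3) (.cons (.br (nat_lit 5) (.cons (.rel (nat_lit 4831843332)) (.cons (.rel (nat_lit 4831838277)) .nil))) (.cons (.br (nat_lit 5) (.cons (.rel (nat_lit 8858501124)) (.cons (.rel (nat_lit 4563681282))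 .nil))) .nil))) .leaf) (nat_lit 545847607683124) (.br (nat_lit 2) (.cons (.br (nat_lit 3) (.cons (.rel (nat_lit 603979905)) .nil)) .nil)) .leaf) (nat_lit 545847607683133) (.br (nat_lit 1) (.cons (.br (nat_lit 2) (.cons (.rel (nat_lit 83906820)) .nil)) .nil)) (.node (.node .leaf (nat_lit 545847608945902) (.br (nat_lit 4) (.cons (.br (nat_lit 5) (.cons (.rel (nat_lit 5368717332)) .nil)) .nil)) .leaf) (nat_lit 545847609353097) (.br (nat_lit 6) (.cons (.br (nat_lit 5) (.cons (.rel (nat_lit 21476410368)) (.cons (.rel (nat_lit 21474836808)) .nil))) .nil)) .leaf)) (nat_lit 545847610231415) (.br (nat_lit 2) (.cons (.br (nat_lit 5) (.cons (.rel (nat_lit 4362084612)) (.cons (.rel (nat_lit 4362084612)) .nil))) (.cons (.br (nat_lit 5) (.cons (.rel (nat_lit 4362084612)) (.cons (.rel (nat_lit 4362354816)) .nil))) .nil))) (.node (.node (.node .leaf (nat_lit 545852888311808) (.br (nat_lit 2) (.cons (.br (nat_lit 5) (.cons (.rel (nat_lit 4362084612)) (.cons (.rel (nat_lit 4362208512)) .nil)))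 .nil)) .leaf) (nat_lit 545852888313070) (.br (nat_lit 5) (.cons (.br (nat_lit 2) (.cons (.rel (nat_lit 4362208512)) (.cons (.rel (nat_lit 4362208512)) .nil))) .nil)) .leaf) (nat_lit 545852890859520) (.br (nat_lit 5) (.cons (.br (nat_lit 2) (.cons (.rel (nat_lit 4362096897)) (.cons (.rel (nat_lit 4362084612)) .nil))) .nil)) (.node .leaf (nat_lit 545852890860151) (.br (nat_lit 2) (.cons (.br (nat_lit 5) (.cons (.rel (nat_lit 4362096897)) (.cons (.rel (nat_lit 4362084612)) .nil))) .nil)) .leaf))) (nat_lit 547554118985728) (.br (nat_lit 5) (.cons (.br (nat_lit 6) (.cons (.rel (nat_lit 25769885760)) .nil)) .nil)) (.node (.node (.node (.node .leaf (nat_lit 547554120654848) (.br (nat_lit 6) (.cons (.br (nat_lit 5) (.cons (.rel (nat_lit 21475165248)) (.cons (.rel (nat_lit 21474902274)) .nil))) .nil)) .leaf) (nat_lit 547554120656283) (.br (nat_lit 3) (.cons (.br (nat_lit 1) (.cons (.rel (nat_lit 285491205)) (.cons (.rel (nat_lit 301990020)) .nil))) .nil)) .leaf) (nat_lit 547554121740288)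 (.br (nat_lit 1) (.cons (.br (nat_lit 5) (.cons (.rel (nat_lit 4311750912)) (.cons (.rel (nat_lit 4312088577)) .nil))) (.cons (.br (nat_lit 3) (.cons (.rel (nat_lit 285213960)) (.cons (.rel (nat_lit 285213960)) (.cons (.rel (nat_lit 285542400)) .nil)))) .nil))) (.node .leaf (nat_lit 551244601689601) (.br (nat_lit 0) (.cons (.br (nat_lit 1) (.cons (.rel (nat_lit 23085072)) .nil)) .nil)) .leaf)) (nat_lit 551244733213303) (.br (nat_lit 0) (.cons (.br (nat_lit 5) (.cons (.rel (nat_lit 4299163968)) .nil)) .nil)) (.node (.node (.node .leaf (nat_lit 551244733213577) (.br (nat_lit 0) (.cons (.br (nat_lit 1) (.cons (.rel (nat_lit 23068737)) .nil)) .nil)) .leaf) (nat_lit 551244733213934) (.br (nat_lit 2) (.cons (.br (nat_lit 5) (.cons (.rel (nat_lit 4362096897)) .nil)) .nil)) .leaf) (nat_lit 551244734474240) (.br (nat_lit 0) (.cons (.br (nat_lit 2) (.cons (.rel (nat_lit 71337216)) .nil)) .nil)) (.node .leaf (nat_lit 551244735761646) (.br (nat_lit 0) (.cons (.br (nat_lit 6) (.cons (.rel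 (nat_lit 17184081168)) .nil)) .nil)) .leaf)))) (nat_lit 551247367236215) (.br (nat_lit 0) (.cons (.br (nat_lit 4) (.cons (.rel (nat_lit 1077941316)) .nil)) .nil)) (.node (.node (.node (.node (.node .leaf (nat_lit 551247367236846) (.br (nat_lit 3) (.cons (.br (nat_lit 4) (.cons (.rel (nat_lit 1611661440)) .nil)) .nil)) .leaf) (nat_lit 551247368698032) (.br (nat_lit 0) (.cons (.br (nat_lit 3) (.cons (.rel (nat_lit 274726917)) .nil)) .nil)) .leaf) (nat_lit 551247369783296) (.br (nat_lit 2) (.cons (.br (nat_lit 3) (.cons (.rel (nat_lit 402653250)) (.cons (.rel (nat_lit 603979905)) .nil))) .nil)) (.node .leaf (nat_lit 551247369784203) (.br (nat_lit 0) (.cons (.br (nat_lit 1) (.cons (.rel (nat_lit 20975877)) .nil)) .nil)) .leaf)) (nat_lit 551247791003648) (.br (nat_lit 0) (.cons (.br (nat_lit 1) (.cons (.rel (nat_lit 20988162)) .nil)) .nil)) (.node (.node (.node .leaf (nat_lit 551247791068041) (.br (nat_lit 1) (.cons (.br (nat_lit 2) (.cons (.rel (nat_lit 84148260)) .nil)) .nil)) .leaf)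 (nat_lit 551247793408176) (.br (nat_lit 5) (.cons (.br (nat_lit 2) (.cons (.rel (nat_lit 4362208512)) (.cons (.rel (nat_lit 8657047569)) .nil))) .nil)) .leaf) (nat_lit 551247793614848) (.br (nat_lit 2) (.cons (.br (nat_lit 5) (.cons (.rel (nat_lit 4429185156)) (.cons (.rel (nat_lit 4429202496)) .nil))) (.cons (.br (nat_lit 5) (.cons (.rel (nat_lit 4429202496)) (.cons (.rel (nat_lit 4429316097)) .nil))) .nil))) (.node .leaf (nat_lit 551818160247440) (.br (nat_lit 1) (.cons (.br (nat_lit 3) (.cons (.rel (nat_lit 285491205)) .nil)) .nil)) .leaf))) (nat_lit 552110215260160) (.br (nat_lit 2) (.cons (.br (nat_lit 3) (.cons (.rel (nat_lit 335562000)) .nil)) .nil)) (.node (.node (.node (.node .leaf (nat_lit 552110215494408) (.br (nat_lit 5) (.cons (.br (nat_lit 3) (.cons (.rel (nat_lit 4565501952)) (.cons (.rel (nat_lit 4563668997)) (.cons (.rel (nat_lit 8858435649)) (.cons (.rel (nat_lit 4831903752)) .nil))))) .nil)) .leaf) (nat_lit 552110216929280) (.br (nat_lit 3) (.cons (.br (nat_lit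 2) (.cons (.rel (nat_lit 336069120)) (.cons (.rel (nat_lit 603979905)) (.cons (.rel (nat_lit 335562000)) (.cons (.rel (nat_lit 335550720)) .nil))))) .nil)) .leaf) (nat_lit 552110216929541) (.br (nat_lit 1) (.cons (.br (nat_lit 5) (.cons (.rel (nat_lit 4312088577)) .nil)) .nil)) (.node .leaf (nat_lit 552110218014851) (.br (nat_lit 1) (.cons (.br (nat_lit 6) (.cons (.rel (nat_lit 17213424657)) .nil)) .nil)) .leaf)) (nat_lit 552114950629376) (.br (nat_lit 2) (.cons (.br (nat_lit 3) (.cons (.rel (nat_lit 337657860)) .nil)) .nil)) (.node (.node (.node .leaf (nat_lit 552114953177088) (.br (nat_lit 6) (.cons (.br (nat_lit 2) (.cons (.rel (nat_lit 34426852368)) (.cons (.rel (nat_lit 17247240216)) .nil))) .nil)) .leaf) (nat_lit 552114953177264) (.br (nat_lit 1) (.cons (.br (nat_lit 2) (.cons (.rel (nat_lit 84148260)) .nil)) .nil)) .leaf) (nat_lit 552114953383936) (.br (nat_lit 1) (.cons (.br (nat_lit 2) (.cons (.rel (nat_lit 85999680)) .nil)) .nil)) (.node .leaf (nat_lit 552115799547904)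 (.br (nat_lit 2) (.cons (.br (nat_lit 3) (.cons (.rel (nat_lit 671351040)) (.cons (.rel (nat_lit 335562000)) .nil))) (.cons (.br (nat_lit 3) (.cons (.rel (nat_lit 335888385)) (.cons (.rel (nat_lit 335550720)) .nil))) .nil))) .leaf))))))

/-- refutations 1 -/
def e1 : EX := (.node (.node (.node (.node (.node (.node .leaf (nat_lit 553089469472768) (.br (nat_lit 4) (.cons (.br (nat_lit 6) (.cons (.rel (nat_lit 18253619202)) .nil)) .nil)) .leaf) (nat_lit 553089469474318) (.br (nat_lit 0) (.cons (.br (nat_lit 1) (.cons (.rel (nat_lit 20975877)) .nil)) .nil)) (.node .leaf (nat_lit 553089470497443) (.br (nat_lit 0) (.cons (.br (nat_lit 1) (.cons (.rel (nat_lit 20988162)) .nil)) .nil)) .leaf)) (nat_lit 553090010537984) (.br (nat_lit 0) (.cons (.br (nat_lit 6) (.cons (.rel (nat_lit 17184407553)) .nil)) .nil)) (.node (.node .leaf (nat_lit 553090010539291) (.br (nat_lit 0) (.cons (.br (nat_lit 1) (.cons (.rel (nat_lit 21364737)) .nil)) .nil)) .leaf) (nat_lit 553091566624943) (.br (nat_lit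 0) (.cons (.br (nat_lit 2) (.cons (.rel (nat_lit 75513858)) .nil)) .nil)) (.node .leaf (nat_lit 553095236641443) (.br (nat_lit 0) (.cons (.br (nat_lit 1) (.cons (.rel (nat_lit 37749762)) .nil)) .nil)) .leaf))) (nat_lit 553095236642318) (.br (nat_lit 0) (.cons (.br (nat_lit 1) (.cons (.rel (nat_lit 21251136)) .nil)) .nil)) (.node (.node (.node .leaf (nat_lit 553352930502708) (.br (nat_lit 0) (.cons (.br (nat_lit 2) (.cons (.rel (nat_lit 71565321)) .nil)) .nil)) .leaf) (nat_lit 553357722782358) (.br (nat_lit 0) (.cons (.br (nat_lit 1) (.cons (.rel (nat_lit 20988162)) .nil)) .nil)) (.node .leaf (nat_lit 553357724573858) (.br (nat_lit 1) (.cons (.br (nat_lit 3) (.cons (.rel (nat_lit 285212946)) .nil)) .nil)) .leaf)) (nat_lit 553360975159328) (.br (nat_lit 1) (.cons (.br (nat_lit 5) (.cons (.rel (nat_lit 4311745857)) .nil)) .nil)) (.node (.node .leaf (nat_lit 556143631214592) (.br (nat_lit 1) (.cons (.br (nat_lit 2) (.cons (.rel (nat_lit 83952960)) .nil)) .nil)) .leaf) (nat_lit 556150606749758)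 (.br (nat_lit 1) (.cons (.br (nat_lit 2) (.cons (.rel (nat_lit 85999680)) .nil)) .nil)) (.node .leaf (nat_lit 556413227231232) (.br (nat_lit 2) (.cons (.br (nat_lit 3) (.cons (.rel (nat_lit 336069120)) .nil)) .nil)) .leaf)))) (nat_lit 557264475336092) (.br (nat_lit 4) (.cons (.br (nat_lit 3) (.cons (.rel (nat_lit 1342324800)) (.cons (.rel (nat_lit 2684375040)) .nil))) .nil)) (.node (.node (.node (.node .leaf (nat_lit 557390203938043) (.br (nat_lit 0) (.cons (.br (nat_lit 1) (.cons (.rel (nat_lit 23073792)) .nil)) .nil)) .leaf) (nat_lit 557444566310913) (.br (nat_lit 1) (.cons (.br (nat_lit 2) (.cons (.rel (nat_lit 83919105)) .nil)) .nil)) (.node .leaf (nat_lit 557444566311539) (.br (nat_lit 0) (.cons (.br (nat_lit 2) (.cons (.rel (nat_lit 71630976)) .nil)) .nil)) .leaf)) (nat_lit 557444566312462) (.br (nat_lit 3) (.cons (.br (nat_lit 1) (.cons (.rel (nat_lit 285491205)) (.cons (.rel (nat_lit 285212946)) .nil))) .nil)) (.node (.node .leaf (nat_lit 557650722949795) (.br (nat_lit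 2) (.cons (.br (nat_lit 3) (.cons (.rel (nat_lit 402653250)) (.cons (.rel (nat_lit 336069120)) .nil))) .nil)) .leaf) (nat_lit 557650723000320) (.br (nat_lit 0) (.cons (.br (nat_lit 2) (.cons (.rel (nat_lit 71602176)) .nil)) .nil)) (.node .leaf (nat_lit 557650723072000) (.br (nat_lit 1) (.cons (.br (nat_lit 0) (.cons (.rel (nat_lit 20971872)) (.cons (.rel (nat_lit 20988162)) (.cons (.rel (nat_lit 20975877)) (.cons (.rel (nat_lit 21364737)) .nil))))) (.cons (.br (nat_lit 0) (.cons (.rel (nat_lit 23068737)) (.cons (.rel (nat_lit 37756992)) (.cons (.rel (nat_lit 26492928)) (.cons (.rel (nat_lit 21233796)) .nil))))) .nil))) .leaf))) (nat_lit 557650723072002) (.br (nat_lit 0) (.cons (.br (nat_lit 6) (.cons (.rel (nat_lit 17184064833)) .nil)) .nil)) (.node (.node (.node .leaf (nat_lit 557650723072937) (.br (nat_lit 1) (.cons (.br (nat_lit 2) (.cons (.rel (nat_lit 100668420)) (.cons (.rel (nat_lit 83919105)) .nil))) (.cons (.br (nat_lit 2) (.cons (.rel (nat_lit 84149265)) (.cons (.rel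 (nat_lit 83919105)) .nil))) .nil))) .leaf) (nat_lit 557650723073505) (.br (nat_lit 0) (.cons (.br (nat_lit 5) (.cons (.rel (nat_lit 4299227424)) .nil)) .nil)) (.node .leaf (nat_lit 557650723254298) (.br (nat_lit 0) (.cons (.br (nat_lit 3) (.cons (.rel (nat_lit 272957442)) .nil)) .nil)) .leaf)) (nat_lit 557650723305473) (.br (nat_lit 0) (.cons (.br (nat_lit 1) (.cons (.rel (nat_lit 37749762)) .nil)) .nil)) (.node (.node .leaf (nat_lit 557650723305603) (.br (nat_lit 2) (.cons (.br (nat_lit 5) (.cons (.br (nat_lit 3) (.cons (.rel (nat_lit 9127855104)) (.cons (.rel (nat_lit 402653250)) .nil))) .nil)) .nil)) .leaf) (nat_lit 557650723305733) (.br (nat_lit 1) (.cons (.br (nat_lit 2) (.cons (.rel (nat_lit 83906820)) .nil)) .nil)) (.node .leaf (nat_lit 557650723306134) (.br (nat_lit 1) (.cons (.br (nat_lit 2) (.cons (.rel (nat_lit 83886480)) .nil)) .nil)) .leaf))))) (nat_lit 557650723306248) (.br (nat_lit 4) (.cons (.br (nat_lit 5) (.cons (.rel (nat_lit 5368717332)) .nil)) .nil)) (.node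 (.node (.node (.node (.node .leaf (nat_lit 557650723514368) (.br (nat_lit 1) (.cons (.br (nat_lit 2) (.cons (.rel (nat_lit 83906820)) .nil)) .nil)) .leaf) (nat_lit 557650724333594) (.br (nat_lit 0) (.cons (.br (nat_lit 6) (.cons (.rel (nat_lit 17184069888)) .nil)) .nil)) (.node .leaf (nat_lit 557650724598566) (.br (nat_lit 2) (.cons (.br (nat_lit 1) (.cons (.rel (nat_lit 84149265)) (.cons (.rel (nat_lit 85198080)) .nil))) .nil)) .leaf)) (nat_lit 557650724753434) (.br (nat_lit 0) (.cons (.br (nat_lit 1) (.cons (.rel (nat_lit 21233796)) .nil)) .nil)) (.node (.node .leaf (nat_lit 557650724759578) (.br (nat_lit 1) (.cons (.br (nat_lit 2) (.cons (.rel (nat_lit 84164742)) (.cons (.rel (nat_lit 85463040)) .nil))) (.cons (.br (nat_lit 3) (.cons (.rel (nat_lit 287309856)) (.cons (.br (nat_lit 2) (.cons (.rel (nat_lit 336069120)) (.cons (.rel (nat_lit 603979905)) .nil))) .nil))) .nil))) .leaf) (nat_lit 557650724759587) (.br (nat_lit 1) (.cons (.br (nat_lit 2) (.cons (.rel (nat_lit 83906820))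 .nil)) .nil)) (.node .leaf (nat_lit 557650725562999) (.br (nat_lit 0) (.cons (.br (nat_lit 1) (.cons (.rel (nat_lit 20975877)) .nil)) .nil)) .leaf))) (nat_lit 557650725619973) (.br (nat_lit 0) (.cons (.br (nat_lit 1) (.cons (.rel (nat_lit 23068737)) .nil)) .nil)) (.node (.node (.node .leaf (nat_lit 557650725621262) (.br (nat_lit 0) (.cons (.br (nat_lit 2) (.cons (.rel (nat_lit 71565321)) (.cons (.rel (nat_lit 71311632)) .nil))) (.cons (.br (nat_lit 1) (.cons (.rel (nat_lit 20975877)) (.cons (.rel (nat_lit 20975877)) .nil))) .nil))) .leaf) (nat_lit 557650725765795) (.br (nat_lit 2) (.cons (.br (nat_lit 5) (.cons (.rel (nat_lit 4364177472)) (.cons (.rel (nat_lit 4362354816)) .nil))) .nil)) (.node .leaf (nat_lit 557650725766027) (.br (nat_lit 2) (.cons (.br (nat_lit 0) (.cons (.rel (nat_lit 138444801)) (.cons (.rel (nat_lit 71602176)) .nil))) .nil)) .leaf)) (nat_lit 557650725785652) (.br (nat_lit 0) (.cons (.br (nat_lit 2) (.cons (.rel (nat_lit 71602176)) .nil)) .nil)) (.node (.node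 .leaf (nat_lit 557650725786526) (.br (nat_lit 0) (.cons (.br (nat_lit 2) (.cons (.rel (nat_lit 138444801)) .nil)) .nil)) .leaf) (nat_lit 557650725787151) (.br (nat_lit 0) (.cons (.br (nat_lit 2) (.cons (.rel (nat_lit 75501573)) .nil)) .nil)) (.node .leaf (nat_lit 557652690137718) (.br (nat_lit 1) (.cons (.br (nat_lit 5) (.cons (.rel (nat_lit 4311744852)) .nil)) .nil)) .leaf)))) (nat_lit 557652690201513) (.br (nat_lit 0) (.cons (.br (nat_lit 1) (.cons (.rel (nat_lit 20988162)) .nil)) .nil)) (.node (.node (.node (.node .leaf (nat_lit 557652691663755) (.br (nat_lit 2) (.cons (.br (nat_lit 3) (.cons (.rel (nat_lit 335545665)) .nil)) .nil)) .leaf) (nat_lit 557652691869858) (.br (nat_lit 3) (.cons (.br (nat_lit 2) (.cons (.rel (nat_lit 603979905)) (.cons (.rel (nat_lit 603979905)) (.cons (.rel (nat_lit 603979905)) .nil)))) .nil)) (.node .leaf (nat_lit 557652691870502) (.br (nat_lit 4) (.cons (.br (nat_lit 1) (.cons (.rel (nat_lit 2181038160)) (.cons (.rel (nat_lit 2181104640)) .nil)))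 .nil)) .leaf)) (nat_lit 557652691888305) (.br (nat_lit 0) (.cons (.br (nat_lit 1) (.cons (.rel (nat_lit 20971872)) .nil)) .nil)) (.node (.node .leaf (nat_lit 557652691933315) (.br (nat_lit 2) (.cons (.br (nat_lit 3) (.cons (.rel (nat_lit 335808642)) (.cons (.rel (nat_lit 335550720)) (.cons (.rel (nat_lit 337657860)) (.cons (.rel (nat_lit 335550720)) .nil))))) (.cons (.br (nat_lit 3) (.cons (.rel (nat_lit 402653250)) (.cons (.rel (nat_lit 402653250)) (.cons (.rel (nat_lit 402653250)) (.cons (.rel (nat_lit 335815680)) .nil))))) .nil))) .leaf) (nat_lit 557652691990703) (.br (nat_lit 1) (.cons (.br (nat_lit 5) (.cons (.rel (nat_lit 4311750912)) .nil)) .nil)) (.node .leaf (nat_lit 557655882299523) (.br (nat_lit 2) (.cons (.br (nat_lit 4) (.cons (.rel (nat_lit 1140858960)) .nil)) .nil)) .leaf))) (nat_lit 557655882300168) (.br (nat_lit 4) (.cons (.br (nat_lit 5) (.cons (.rel (nat_lit 5368713282)) .nil)) .nil)) (.node (.node (.node .leaf (nat_lit 557655883735040) (.br (nat_lit 1) (.cons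 (.br (nat_lit 0) (.cons (.rel (nat_lit 20971872)) (.cons (.rel (nat_lit 25166868)) (.cons (.rel (nat_lit 21038352)) .nil)))) (.cons (.br (nat_lit 0) (.cons (.rel (nat_lit 37748757)) (.cons (.rel (nat_lit 23134212)) (.cons (.rel (nat_lit 20988162)) .nil)))) .nil))) .leaf) (nat_lit 557655883735066) (.br (nat_lit 2) (.cons (.br (nat_lit 4) (.cons (.rel (nat_lit 1140852744)) (.cons (.rel (nat_lit 1140925440)) .nil))) .nil)) (.node .leaf (nat_lit 557655884820480) (.br (nat_lit 1) (.cons (.br (nat_lit 6) (.cons (.rel (nat_lit 34376516613)) (.cons (.rel (nat_lit 17196651777)) .nil))) (.cons (.br (nat_lit 2) (.cons (.rel (nat_lit 100728840)) (.cons (.rel (nat_lit 100728840)) .nil))) .nil))) .leaf)) (nat_lit 557655940969105) (.br (nat_lit 0) (.cons (.br (nat_lit 1) (.cons (.rel (nat_lit 25170048)) .nil)) .nil)) (.node (.node .leaf (nat_lit 557655942455328) (.br (nat_lit 1) (.cons (.br (nat_lit 2) (.cons (.rel (nat_lit 100668420)) .nil)) .nil)) .leaf) (nat_lit 557656308383875) (.br (nat_lit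 2) (.cons (.br (nat_lit 4) (.cons (.rel (nat_lit 2281702404)) .nil)) .nil)) .leaf)))))

/-- refutations 2 -/
def e2 : EX := (.node .leaf (nat_lit 558767961499035) (.br (nat_lit 3) (.cons (.br (nat_lit 5) (.cons (.rel (nat_lit 4831838277)) (.cons (.rel (nat_lit 4563404037)) .nil))) .nil)) .leaf)

/-- refutations 3 -/
def e3 : EX := (.node (.node (.node (.node (.node (.node .leaf (nat_lit 211158531330048) (.br (nat_lit 2) (.cons (.br (nat_lit 4) (.cons (.rel (nat_lit 1140852744)) (.cons (.rel (nat_lit 1140851730)) (.cons (.rel (nat_lit 1140850725)) .nil)))) (.cons (.br (nat_lit 4) (.cons (.rel (nat_lit 1140851730)) (.cons (.rel (nat_lit 2214872064)) (.cons (.rel (nat_lit 1140851730)) .nil)))) (.cons (.br (nat_lit 4) (.cons (.rel (nat_lit 1140852744)) (.cons (.rel (nat_lit 1140851730)) (.cons (.rel (nat_lit 2214872064)) .nil)))) .nil)))) .leaf) (nat_lit 211158531330179) (.br (nat_lit 2) (.cons (.br (nat_lit 3) (.cons (.rel (nat_lit 335550720)) .nil)) .nil)) (.node .leaf (nat_lit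 211158531330704) (.br (nat_lit 2) (.cons (.br (nat_lit 6) (.cons (.rel (nat_lit 17246995776)) .nil)) .nil)) .leaf)) (nat_lit 211158531362816) (.br (nat_lit 4) (.cons (.br (nat_lit 3) (.cons (.rel (nat_lit 1342193670)) (.cons (.rel (nat_lit 1342218240)) .nil))) .nil)) (.node (.node .leaf (nat_lit 211158531363742) (.br (nat_lit 3) (.cons (.br (nat_lit 4) (.cons (.rel (nat_lit 1611202560)) .nil)) .nil)) .leaf) (nat_lit 211158531381904) (.br (nat_lit 0) (.cons (.br (nat_lit 4) (.cons (.rel (nat_lit 1077944352)) .nil)) .nil)) (.node .leaf (nat_lit 211158531382779) (.br (nat_lit 0) (.cons (.br (nat_lit 3) (.cons (.rel (nat_lit 272630052)) .nil)) .nil)) .leaf))) (nat_lit 211158531569716) (.br (nat_lit 3) (.cons (.br (nat_lit 4) (.cons (.rel (nat_lit 2415935745)) (.cons (.rel (nat_lit 1342181385)) .nil))) .nil)) (.node (.node (.node .leaf (nat_lit 211158531667994) (.br (nat_lit 4) (.cons (.br (nat_lit 0) (.cons (.rel (nat_lit 1077936261)) (.cons (.rel (nat_lit 1077936261)) .nil))) .nil))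 .leaf) (nat_lit 211158531668099) (.br (nat_lit 0) (.cons (.br (nat_lit 4) (.cons (.rel (nat_lit 1078005777)) (.cons (.rel (nat_lit 1077958656)) (.cons (.rel (nat_lit 2155876368)) (.cons (.rel (nat_lit 1077958656)) (.cons (.rel (nat_lit 1077958656)) .nil)))))) .nil)) (.node .leaf (nat_lit 211158531833210) (.br (nat_lit 3) (.cons (.br (nat_lit 4) (.cons (.rel (nat_lit 1342177380)) .nil)) .nil)) .leaf)) (nat_lit 211158532589853) (.br (nat_lit 3) (.cons (.br (nat_lit 4) (.cons (.rel (nat_lit 1342193670)) .nil)) .nil)) (.node (.node .leaf (nat_lit 211158532590494) (.br (nat_lit 3) (.cons (.br (nat_lit 4) (.cons (.rel (nat_lit 2684375040)) .nil)) .nil)) .leaf) (nat_lit 211158532590994) (.br (nat_lit 0) (.cons (.br (nat_lit 1) (.cons (.rel (nat_lit 23073792)) .nil)) .nil)) (.node .leaf (nat_lit 211158532642299) (.br (nat_lit 6) (.cons (.br (nat_lit 2) (.cons (.rel (nat_lit 17246978436)) (.cons (.rel (nat_lit 17314091076)) .nil))) .nil)) .leaf)))) (nat_lit 211158533127456) (.br (nat_lit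 3) (.cons (.br (nat_lit 0) (.cons (.rel (nat_lit 547684356)) (.cons (.rel (nat_lit 273679872)) .nil))) .nil)) (.node (.node (.node (.node .leaf (nat_lit 211158533173248) (.br (nat_lit 4) (.cons (.br (nat_lit 0) (.cons (.rel (nat_lit 2151678336)) (.cons (.rel (nat_lit 2151678336)) (.cons (.rel (nat_lit 1083195393)) (.cons (.rel (nat_lit 1083183108)) (.cons (.rel (nat_lit 2151940116)) .nil)))))) (.cons (.br (nat_lit 0) (.cons (.rel (nat_lit 1077958656)) (.cons (.rel (nat_lit 1078001736)) (.cons (.rel (nat_lit 1077944352)) (.cons (.rel (nat_lit 1078001736)) (.cons (.rel (nat_lit 1077941316)) .nil)))))) (.cons (.br (nat_lit 0) (.cons (.rel (nat_lit 1077958656)) (.cons (.rel (nat_lit 1077936261)) (.cons (.rel (nat_lit 2151678336)) (.cons (.rel (nat_lit 1078001736)) (.cons (.rel (nat_lit 1077936261)) .nil)))))) .nil)))) .leaf) (nat_lit 211158533173379) (.br (nat_lit 2) (.cons (.br (nat_lit 3) (.cons (.rel (nat_lit 335550720)) (.cons (.rel (nat_lit 671351040)) .nil))) (.cons (.br (nat_lit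 3) (.cons (.rel (nat_lit 335545665)) (.cons (.rel (nat_lit 335544660)) .nil))) .nil))) (.node .leaf (nat_lit 211158533173904) (.br (nat_lit 4) (.cons (.br (nat_lit 0) (.cons (.rel (nat_lit 1078067202)) (.cons (.rel (nat_lit 1078005777)) .nil))) .nil)) .leaf)) (nat_lit 211158533173928) (.br (nat_lit 0) (.cons (.br (nat_lit 3) (.cons (.rel (nat_lit 272630052)) (.cons (.rel (nat_lit 272891976)) .nil))) .nil)) (.node (.node .leaf (nat_lit 211158533174174) (.br (nat_lit 4) (.cons (.br (nat_lit 6) (.cons (.rel (nat_lit 18253611156)) (.cons (.rel (nat_lit 18253611156)) (.cons (.rel (nat_lit 18253611156)) .nil)))) .nil)) .leaf) (nat_lit 211158533174560) (.br (nat_lit 3) (.cons (.br (nat_lit 2) (.cons (.rel (nat_lit 336069120)) (.cons (.rel (nat_lit 603979905)) (.cons (.rel (nat_lit 336069120)) .nil)))) .nil)) (.node .leaf (nat_lit 211158533174623) (.br (nat_lit 3) (.cons (.br (nat_lit 6) (.cons (.rel (nat_lit 17449681152)) .nil)) .nil)) .leaf))) (nat_lit 211158533174650) (.br (nat_lit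 3) (.cons (.br (nat_lit 6) (.cons (.rel (nat_lit 17716756482)) (.cons (.rel (nat_lit 34628206593)) .nil))) .nil)) (.node (.node (.node .leaf (nat_lit 211158533174753) (.br (nat_lit 0) (.cons (.br (nat_lit 1) (.cons (.rel (nat_lit 23068737)) (.cons (.rel (nat_lit 23068737)) .nil))) (.cons (.br (nat_lit 1) (.cons (.rel (nat_lit 23068737)) (.cons (.rel (nat_lit 20971872)) .nil))) .nil))) .leaf) (nat_lit 211158533174779) (.br (nat_lit 1) (.cons (.br (nat_lit 5) (.cons (.br (nat_lit 6) (.cons (.rel (nat_lit 21475131393)) (.cons (.rel (nat_lit 34376536128)) .nil))) (.cons (.rel (nat_lit 4328521737)) .nil))) (.cons (.br (nat_lit 5) (.cons (.rel (nat_lit 4328521737)) (.cons (.rel (nat_lit 8606711814)) .nil))) .nil))) (.node .leaf (nat_lit 211158533206016) (.br (nat_lit 1) (.cons (.br (nat_lit 3) (.cons (.rel (nat_lit 553648200)) .nil)) .nil)) .leaf)) (nat_lit 211158533206042) (.br (nat_lit 3) (.cons (.br (nat_lit 4) (.cons (.rel (nat_lit 1342193670)) .nil)) .nil)) (.node (.node .leaf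 (nat_lit 211158533207568) (.br (nat_lit 4) (.cons (.br (nat_lit 0) (.cons (.rel (nat_lit 2155876368)) (.cons (.rel (nat_lit 1077936261)) .nil))) .nil)) .leaf) (nat_lit 211158533226548) (.br (nat_lit 4) (.cons (.br (nat_lit 3) (.cons (.rel (nat_lit 1342178385)) (.cons (.rel (nat_lit 1343227200)) .nil))) .nil)) .leaf)))) (nat_lit 211158533228001) (.br (nat_lit 0) (.cons (.br (nat_lit 1) (.cons (.rel (nat_lit 21233796)) .nil)) .nil)) (.node (.node (.node (.node (.node .leaf (nat_lit 211158533922320) (.br (nat_lit 2) (.cons (.br (nat_lit 3) (.cons (.rel (nat_lit 335544660)) .nil)) .nil)) .leaf) (nat_lit 211158534127642) (.br (nat_lit 0) (.cons (.br (nat_lit 6) (.cons (.rel (nat_lit 17184064833)) (.cons (.rel (nat_lit 17184588288)) .nil))) .nil)) (.node .leaf (nat_lit 211158534128503) (.br (nat_lit 1) (.cons (.br (nat_lit 3) (.cons (.rel (nat_lit 553652241)) .nil)) .nil)) .leaf)) (nat_lit 211158534191991) (.br (nat_lit 0) (.cons (.br (nat_lit 3) (.cons (.rel (nat_lit 272663874)) .nil))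 .nil)) (.node (.node .leaf (nat_lit 211158534197904) (.br (nat_lit 0) (.cons (.br (nat_lit 3) (.cons (.rel (nat_lit 272630052)) (.cons (.rel (nat_lit 273679872)) .nil))) .nil)) .leaf) (nat_lit 211158534248448) (.br (nat_lit 2) (.cons (.br (nat_lit 3) (.cons (.rel (nat_lit 335544660)) (.cons (.rel (nat_lit 337657860)) .nil))) (.cons (.br (nat_lit 3) (.cons (.rel (nat_lit 336069120)) (.cons (.rel (nat_lit 335815680)) .nil))) .nil))) (.node .leaf (nat_lit 211158534253470) (.br (nat_lit 4) (.cons (.br (nat_lit 5) (.cons (.rel (nat_lit 9664729104)) (.cons (.rel (nat_lit 10737419328)) .nil))) .nil)) .leaf))) (nat_lit 211158534443293) (.br (nat_lit 1) (.cons (.br (nat_lit 3) (.cons (.rel (nat_lit 553648200)) .nil)) .nil)) (.node (.node (.node .leaf (nat_lit 211158534453909) (.br (nat_lit 2) (.cons (.br (nat_lit 4) (.cons (.rel (nat_lit 1140852744)) .nil)) .nil)) .leaf) (nat_lit 211160628721716) (.br (nat_lit 0) (.cons (.br (nat_lit 1) (.cons (.rel (nat_lit 20971872)) .nil)) .nil)) (.node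 .leaf (nat_lit 211160630326174) (.br (nat_lit 0) (.cons (.br (nat_lit 4) (.cons (.rel (nat_lit 1077936261)) .nil)) .nil)) .leaf)) (nat_lit 211163267958810) (.br (nat_lit 4) (.cons (.br (nat_lit 6) (.cons (.rel (nat_lit 18253611156)) .nil)) .nil)) (.node (.node .leaf (nat_lit 211163267959069) (.br (nat_lit 2) (.cons (.br (nat_lit 4) (.cons (.br (nat_lit 3) (.cons (.rel (nat_lit 2415923460)) (.cons (.rel (nat_lit 402653250)) .nil))) .nil)) .nil)) .leaf) (nat_lit 211163268327424) (.br (nat_lit 2) (.cons (.br (nat_lit 3) (.cons (.rel (nat_lit 335876100)) .nil)) .nil)) (.node .leaf (nat_lit 212189325378166) (.br (nat_lit 0) (.cons (.br (nat_lit 3) (.cons (.rel (nat_lit 272630052)) .nil)) .nil)) .leaf)))) (nat_lit 212409232683008) (.br (nat_lit 1) (.cons (.br (nat_lit 2) (.cons (.rel (nat_lit 84295680)) .nil)) .nil)) (.node (.node (.node (.node .leaf (nat_lit 212709360300958) (.br (nat_lit 2) (.cons (.br (nat_lit 3) (.cons (.rel (nat_lit 336069120)) (.cons (.rel (nat_lit 336069120))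 .nil))) .nil)) .leaf) (nat_lit 217566623796512) (.br (nat_lit 4) (.cons (.br (nat_lit 6) (.cons (.rel (nat_lit 18253617216)) .nil)) .nil)) (.node .leaf (nat_lit 217566624378880) (.br (nat_lit 4) (.cons (.br (nat_lit 2) (.cons (.rel (nat_lit 1140998145)) (.cons (.rel (nat_lit 1140884544)) .nil))) .nil)) .leaf)) (nat_lit 217566624379560) (.br (nat_lit 0) (.cons (.br (nat_lit 3) (.cons (.rel (nat_lit 274726917)) (.cons (.rel (nat_lit 272631057)) .nil))) .nil)) (.node (.node .leaf (nat_lit 217566624379806) (.br (nat_lit 2) (.cons (.br (nat_lit 3) (.cons (.rel (nat_lit 402653250)) (.cons (.rel (nat_lit 402653250)) (.cons (.rel (nat_lit 336069120)) (.cons (.rel (nat_lit 671351040)) .nil))))) (.cons (.br (nat_lit 4) (.cons (.rel (nat_lit 2281702404)) (.cons (.rel (nat_lit 1140884544)) .nil))) .nil))) .leaf) (nat_lit 217566624380192) (.br (nat_lit 2) (.cons (.br (nat_lit 3) (.cons (.rel (nat_lit 336069120)) .nil)) .nil)) (.node .leaf (nat_lit 217978941239296) (.br (nat_lit 3) (.cons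 (.br (nat_lit 4) (.cons (.rel (nat_lit 1343569920)) .nil)) .nil)) .leaf))) (nat_lit 217978941293174) (.br (nat_lit 0) (.cons (.br (nat_lit 2) (.cons (.rel (nat_lit 138432516)) (.cons (.rel (nat_lit 71311632)) .nil))) .nil)) (.node (.node (.node .leaf (nat_lit 219106110107648) (.br (nat_lit 0) (.cons (.br (nat_lit 4) (.cons (.rel (nat_lit 1078067202)) (.cons (.rel (nat_lit 1077944352)) .nil))) .nil)) .leaf) (nat_lit 219106110107779) (.br (nat_lit 0) (.cons (.br (nat_lit 4) (.cons (.rel (nat_lit 1078067202)) (.cons (.rel (nat_lit 1077936261)) (.cons (.rel (nat_lit 1077941316)) (.cons (.rel (nat_lit 1077936261)) .nil))))) .nil)) (.node .leaf (nat_lit 219106110107910) (.br (nat_lit 1) (.cons (.br (nat_lit 2) (.cons (.rel (nat_lit 83919105)) (.cons (.rel (nat_lit 84149265)) .nil))) .nil)) .leaf)) (nat_lit 223235981209600) (.br (nat_lit 0) (.cons (.br (nat_lit 4) (.cons (.rel (nat_lit 1077936261)) (.cons (.rel (nat_lit 1078067202)) .nil))) (.cons (.br (nat_lit 1) (.cons (.rel (nat_lit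 25170048)) (.cons (.rel (nat_lit 20988162)) .nil))) .nil))) (.node (.node .leaf (nat_lit 223235981209731) (.br (nat_lit 2) (.cons (.br (nat_lit 6) (.cons (.rel (nat_lit 17249083392)) .nil)) .nil)) .leaf) (nat_lit 224432940126493) (.br (nat_lit 1) (.cons (.br (nat_lit 3) (.cons (.rel (nat_lit 285213960)) .nil)) .nil)) .leaf)))))

/-- refutations 4 -/
def e4 : EX := (.node (.node (.node (.node .leaf (nat_lit 898284579819520) (.br (nat_lit 0) (.cons (.br (nat_lit 2) (.cons (.rel (nat_lit 138412176)) (.cons (.rel (nat_lit 143720448)) .nil))) .nil)) .leaf) (nat_lit 898284582389760) (.br (nat_lit 0) (.cons (.br (nat_lit 4) (.cons (.rel (nat_lit 1077941316)) .nil)) .nil)) .leaf) (nat_lit 903701373721828) (.br (nat_lit 0) (.cons (.br (nat_lit 3) (.cons (.rel (nat_lit 272777472)) .nil)) .nil)) (.node .leaf (nat_lit 904074195734528) (.br (nat_lit 3) (.cons (.br (nat_lit 5) (.cons (.rel (nat_lit 4563403032)) .nil)) .nil)) .leaf)) (nat_lit 904074197015778) (.br (nat_lit 0) (.cons (.br (nat_lit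 1) (.cons (.rel (nat_lit 21233796)) .nil)) .nil)) (.node (.node (.node .leaf (nat_lit 905033231160183) (.br (nat_lit 1) (.cons (.br (nat_lit 3) (.cons (.rel (nat_lit 571473936)) .nil)) .nil)) .leaf) (nat_lit 905033233999130) (.br (nat_lit 0) (.cons (.br (nat_lit 2) (.cons (.rel (nat_lit 75503640)) .nil)) .nil)) .leaf) (nat_lit 909496977248256) (.br (nat_lit 1) (.cons (.br (nat_lit 5) (.cons (.rel (nat_lit 4311750912)) .nil)) .nil)) (.node .leaf (nat_lit 909499997147162) (.br (nat_lit 0) (.cons (.br (nat_lit 1) (.cons (.rel (nat_lit 23068737)) .nil)) .nil)) .leaf)))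

/-- refutations 5 -/
def e5 : EX := (.node (.node (.node (.node (.node (.node .leaf (nat_lit 1055746067571964) (.br (nat_lit 0) (.cons (.br (nat_lit 2) (.cons (.rel (nat_lit 71602176)) .nil)) .nil)) .leaf) (nat_lit 1056006461194915) (.br (nat_lit 0) (.cons (.br (nat_lit 1) (.cons (.rel (nat_lit 21038352)) .nil)) .nil)) .leaf) (nat_lit 1056006463113976) (.br (nat_lit 0) (.cons (.br (nat_lit 5) (.cons (.rel (nat_lit 4303503360)) .nil)) .nil)) (.node (.node .leaf (nat_lit 1056021002846269) (.br (nat_lit 1) (.cons (.br (nat_lit 2) (.cons (.rel (nat_lit 83919105)) .nil)) .nil)) .leaf) (nat_lit 1056021002870784) (.br (nat_lit 0) (.cons (.br (nat_lit 4) (.cons (.rel (nat_lit 1077941316)) (.cons (.rel (nat_lit 1078068264)) .nil))) .nil)) .leaf)) (nat_lit 1056021002870810) (.br (nat_lit 1) (.cons (.br (nat_lit 3) (.cons (.br (nat_lit 4) (.cons (.rel (nat_lit 2684375040)) .nil)) .nil)) .nil)) (.node (.node (.node .leaf (nat_lit 1056021004182791) (.br (nat_lit 0) (.cons (.br (nat_lit 1)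 (.cons (.rel (nat_lit 23134212)) .nil)) .nil)) .leaf) (nat_lit 1056021004232730) (.br (nat_lit 0) (.cons (.br (nat_lit 1) (.cons (.rel (nat_lit 37756992)) .nil)) .nil)) .leaf) (nat_lit 1056021004398101) (.br (nat_lit 0) (.cons (.br (nat_lit 1) (.cons (.rel (nat_lit 20971872)) .nil)) .nil)) (.node .leaf (nat_lit 1056021004766446) (.br (nat_lit 1) (.cons (.br (nat_lit 3) (.cons (.rel (nat_lit 553714728)) .nil)) .nil)) .leaf))) (nat_lit 1056023436824576) (.br (nat_lit 0) (.cons (.br (nat_lit 1) (.cons (.rel (nat_lit 21038352)) .nil)) .nil)) (.node (.node (.node (.node .leaf (nat_lit 1056026283499572) (.br (nat_lit 0) (.cons (.br (nat_lit 6) (.cons (.rel (nat_lit 17184063828)) .nil)) .nil)) .leaf) (nat_lit 1056026283500895) (.br (nat_lit 0) (.cons (.br (nat_lit 1) (.cons (.rel (nat_lit 20988162)) .nil)) .nil)) .leaf) (nat_lit 1056026284862315) (.br (nat_lit 0) (.cons (.br (nat_lit 1) (.cons (.rel (nat_lit 23068737)) .nil)) .nil)) (.node (.node .leaf (nat_lit 1057132172364408) (.br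 (nat_lit 0) (.cons (.br (nat_lit 6) (.cons (.rel (nat_lit 17184063828)) (.cons (.rel (nat_lit 17184588288)) .nil))) .nil)) .leaf) (nat_lit 1057897172390700) (.br (nat_lit 1) (.cons (.br (nat_lit 3) (.cons (.rel (nat_lit 285478920)) .nil)) .nil)) .leaf)) (nat_lit 1061206023757850) (.br (nat_lit 0) (.cons (.br (nat_lit 5) (.cons (.rel (nat_lit 4299163968)) .nil)) .nil)) (.node (.node (.node .leaf (nat_lit 1061418128376485) (.br (nat_lit 4) (.cons (.br (nat_lit 6) (.cons (.rel (nat_lit 18253612161)) .nil)) .nil)) .leaf) (nat_lit 1061418129762304) (.br (nat_lit 1) (.cons (.br (nat_lit 6) (.cons (.rel (nat_lit 34376536128)) (.cons (.rel (nat_lit 34376536128)) .nil))) (.cons (.br (nat_lit 6) (.cons (.rel (nat_lit 34376515608)) (.cons (.rel (nat_lit 17196651777)) .nil))) .nil))) .leaf) (nat_lit 1061420763693732) (.br (nat_lit 1) (.cons (.br (nat_lit 2) (.cons (.rel (nat_lit 83886480)) .nil)) .nil)) (.node .leaf (nat_lit 1061420763785216) (.br (nat_lit 4) (.cons (.br (nat_lit 2) (.cons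 (.rel (nat_lit 1140867204)) (.cons (.rel (nat_lit 1140852744)) (.cons (.rel (nat_lit 1140852744)) .nil)))) (.cons (.br (nat_lit 6) (.cons (.rel (nat_lit 18253643781)) (.cons (.rel (nat_lit 18253619202)) .nil))) .nil))) .leaf)))) (nat_lit 1061420763786091) (.br (nat_lit 0) (.cons (.br (nat_lit 1) (.cons (.rel (nat_lit 23068737)) .nil)) .nil)) (.node (.node (.node (.node (.node .leaf (nat_lit 1063538283857920) (.br (nat_lit 0) (.cons (.br (nat_lit 6) (.cons (.rel (nat_lit 17184063828)) .nil)) .nil)) .leaf) (nat_lit 1063538283858181) (.br (nat_lit 0) (.cons (.br (nat_lit 1) (.cons (.rel (nat_lit 20975877)) .nil)) .nil)) .leaf) (nat_lit 1066586563674144) (.br (nat_lit 1) (.cons (.br (nat_lit 0) (.cons (.rel (nat_lit 21251136)) (.cons (.rel (nat_lit 23068737)) .nil))) .nil)) (.node (.node .leaf (nat_lit 1066706881478717) (.br (nat_lit 2) (.cons (.br (nat_lit 5) (.cons (.rel (nat_lit 4362208512)) .nil)) .nil)) .leaf) (nat_lit 1066706882865152) (.br (nat_lit 1) (.cons (.br (nat_lit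 3) (.cons (.rel (nat_lit 285213960)) .nil)) .nil)) .leaf)) (nat_lit 1066706882865178) (.br (nat_lit 1) (.cons (.br (nat_lit 6) (.cons (.rel (nat_lit 34376613888)) .nil)) .nil)) (.node (.node (.node .leaf (nat_lit 1066706882866414) (.br (nat_lit 3) (.cons (.br (nat_lit 6) (.cons (.rel (nat_lit 17448329472)) .nil)) .nil)) .leaf) (nat_lit 1066706883397658) (.br (nat_lit 0) (.cons (.br (nat_lit 6) (.cons (.rel (nat_lit 17184069888)) .nil)) .nil)) .leaf) (nat_lit 1066706883398894) (.br (nat_lit 3) (.cons (.br (nat_lit 4) (.cons (.rel (nat_lit 1342181385)) .nil)) .nil)) (.node .leaf (nat_lit 1066709529470976) (.br (nat_lit 1) (.cons (.br (nat_lit 3) (.cons (.br (nat_lit 2) (.cons (.rel (nat_lit 603979905)) (.cons (.rel (nat_lit 100668420)) (.cons (.rel (nat_lit 336069120)) .nil)))) (.cons (.rel (nat_lit 285213960)) .nil))) (.cons (.br (nat_lit 3) (.cons (.rel (nat_lit 285213960)) (.cons (.rel (nat_lit 285212946)) .nil))) .nil))) .leaf))) (nat_lit 1066709529471002) (.br (nat_lit 1)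 (.cons (.br (nat_lit 4) (.cons (.br (nat_lit 6) (.cons (.rel (nat_lit 18253617216)) .nil)) .nil)) .nil)) (.node (.node (.node (.node .leaf (nat_lit 1066709529472238) (.br (nat_lit 1) (.cons (.br (nat_lit 3) (.cons (.rel (nat_lit 285478920)) .nil)) .nil)) .leaf) (nat_lit 1066709530003718) (.br (nat_lit 0) (.cons (.br (nat_lit 1) (.cons (.rel (nat_lit 21251136)) .nil)) .nil)) .leaf) (nat_lit 1066711962168557) (.br (nat_lit 0) (.cons (.br (nat_lit 4) (.cons (.rel (nat_lit 1077958656)) .nil)) .nil)) (.node (.node .leaf (nat_lit 1066715475735789) (.br (nat_lit 1) (.cons (.br (nat_lit 4) (.cons (.rel (nat_lit 1090528260)) .nil)) .nil)) .leaf) (nat_lit 1066715477527789) (.br (nat_lit 0) (.cons (.br (nat_lit 1) (.cons (.rel (nat_lit 20988162)) .nil)) .nil)) .leaf)) (nat_lit 1068940268793856) (.br (nat_lit 0) (.cons (.br (nat_lit 1) (.cons (.rel (nat_lit 23068737)) .nil)) .nil)) (.node (.node (.node .leaf (nat_lit 1068940268794117) (.br (nat_lit 0) (.cons (.br (nat_lit 3) (.cons (.rel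 (nat_lit 272891976)) .nil)) .nil)) .leaf) (nat_lit 1068940268795117) (.br (nat_lit 1) (.cons (.br (nat_lit 2) (.cons (.rel (nat_lit 100668420)) .nil)) .nil)) .leaf) (nat_lit 1068940270587117) (.br (nat_lit 0) (.cons (.br (nat_lit 1) (.cons (.rel (nat_lit 38797572)) .nil)) .nil)) (.node .leaf (nat_lit 1068940271610117) (.br (nat_lit 0) (.cons (.br (nat_lit 1) (.cons (.rel (nat_lit 25166868)) .nil)) .nil)) .leaf)))))

/-- refutations 6 -/
def e6 : EX := (.node (.node (.node .leaf (nat_lit 2218989557672721) (.br (nat_lit 0) (.cons (.br (nat_lit 1) (.cons (.rel (nat_lit 21364737)) .nil)) .nil)) .leaf) (nat_lit 2222287987697690) (.br (nat_lit 3) (.cons (.br (nat_lit 4) (.cons (.rel (nat_lit 1342178385)) (.cons (.rel (nat_lit 1342218240)) .nil))) .nil)) .leaf) (nat_lit 2223075292113708) (.br (nat_lit 0) (.cons (.br (nat_lit 6) (.cons (.rel (nat_lit 34368389376)) .nil)) .nil)) (.node (.node .leaf (nat_lit 2223081386437420) (.br (nat_lit 6) (.cons (.br (nat_lit 2) (.cons (.rel (nat_lit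 17247240216)) (.cons (.rel (nat_lit 17314119696)) .nil))) .nil)) .leaf) (nat_lit 2228905362090796) (.br (nat_lit 0) (.cons (.br (nat_lit 4) (.cons (.rel (nat_lit 1077941316)) .nil)) .nil)) .leaf))

/-- refutations 7 -/
def e7 : EX := (.node (.node (.node .leaf (nat_lit 2305653811970110) (.br (nat_lit 2) (.cons (.br (nat_lit 1) (.cons (.rel (nat_lit 100663365)) (.cons (.rel (nat_lit 84148260)) .nil))) .nil)) .leaf) (nat_lit 2312312687444843) (.br (nat_lit 0) (.cons (.br (nat_lit 2) (.cons (.rel (nat_lit 71337216)) .nil)) .nil)) (.node .leaf (nat_lit 2312312688937135) (.br (nat_lit 0) (.cons (.br (nat_lit 2) (.cons (.rel (nat_lit 71565321)) .nil)) .nil)) .leaf)) (nat_lit 2315631772891137) (.br (nat_lit 0) (.cons (.br (nat_lit 1) (.cons (.rel (nat_lit 20975877)) .nil)) .nil)) (.node (.node .leaf (nat_lit 2316871296170290) (.br (nat_lit 0) (.cons (.br (nat_lit 2) (.cons (.rel (nat_lit 71311632)) .nil)) .nil)) .leaf) (nat_lit 2317997256983935) (.br (nat_lit 1) (.cons (.br (nat_lit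 2) (.cons (.rel (nat_lit 151126020)) .nil)) .nil)) .leaf))

/-- refutations 8 -/
def e8 : EX := (.node (.node (.node (.node (.node (.node (.node .leaf (nat_lit 2323251456479264) (.br (nat_lit 1) (.cons (.br (nat_lit 2) (.cons (.rel (nat_lit 83919105)) .nil)) .nil)) .leaf) (nat_lit 2323251648852230) (.br (nat_lit 0) (.cons (.br (nat_lit 1) (.cons (.rel (nat_lit 23068737)) .nil)) .nil)) .leaf) (nat_lit 2323251649417216) (.br (nat_lit 1) (.cons (.br (nat_lit 2) (.cons (.rel (nat_lit 100728840)) (.cons (.rel (nat_lit 83919105)) (.cons (.br (nat_lit 3) (.cons (.rel (nat_lit 285245760)) (.cons (.rel (nat_lit 553648200)) (.cons (.rel (nat_lit 285245760)) (.cons (.br (nat_lit 5) (.cons (.rel (nat_lit 8623751424)) (.cons (.rel (nat_lit 4563404037)) (.cons (.rel (nat_lit 8623751424)) (.cons (.rel (nat_lit 4831855617)) .nil))))) (.cons (.rel (nat_lit 285286656)) .nil)))))) .nil)))) (.cons (.br (nat_lit 2) (.cons (.rel (nat_lit 83919105)) (.cons (.rel (nat_lit 85463040)) (.cons (.rel (nat_lit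 100663365)) .nil)))) (.cons (.br (nat_lit 0) (.cons (.rel (nat_lit 20988162)) (.cons (.rel (nat_lit 20975877)) (.cons (.rel (nat_lit 23134212)) (.cons (.rel (nat_lit 37748757)) (.cons (.rel (nat_lit 21303312)) .nil)))))) .nil)))) (.node (.node .leaf (nat_lit 2323251649417242) (.br (nat_lit 0) (.cons (.br (nat_lit 4) (.cons (.rel (nat_lit 2155876368)) (.cons (.rel (nat_lit 1077936261)) (.cons (.rel (nat_lit 1077941316)) (.cons (.rel (nat_lit 1077953601)) .nil))))) (.cons (.br (nat_lit 1) (.cons (.rel (nat_lit 23134212)) (.cons (.rel (nat_lit 25166868)) (.cons (.rel (nat_lit 20975877)) .nil)))) (.cons (.br (nat_lit 1) (.cons (.rel (nat_lit 23068737)) (.cons (.rel (nat_lit 37748757)) (.cons (.rel (nat_lit 20975877)) .nil)))) .nil)))) .leaf) (nat_lit 2323251649417268) (.br (nat_lit 4) (.cons (.br (nat_lit 0) (.cons (.rel (nat_lit 1077953601)) (.cons (.rel (nat_lit 1079054592)) .nil))) .nil)) .leaf)) (nat_lit 2323251649417277) (.br (nat_lit 2) (.cons (.br (nat_lit 3) (.cons (.rel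 (nat_lit 335876100)) (.cons (.br (nat_lit 1) (.cons (.rel (nat_lit 100663365)) (.cons (.rel (nat_lit 285212946)) (.cons (.rel (nat_lit 100728840)) .nil)))) .nil))) .nil)) (.node (.node (.node .leaf (nat_lit 2323251649417347) (.br (nat_lit 1) (.cons (.br (nat_lit 2) (.cons (.rel (nat_lit 152305665)) (.cons (.rel (nat_lit 100728840)) .nil))) (.cons (.br (nat_lit 2) (.cons (.rel (nat_lit 84217920)) (.cons (.rel (nat_lit 85463040)) .nil))) .nil))) .leaf) (nat_lit 2323251649417893) (.br (nat_lit 5) (.cons (.br (nat_lit 2) (.cons (.rel (nat_lit 4362096897)) (.cons (.rel (nat_lit 8657108994)) .nil))) .nil)) .leaf) (nat_lit 2323251649418522) (.br (nat_lit 0) (.cons (.br (nat_lit 6) (.cons (.rel (nat_lit 17184137541)) .nil)) .nil)) (.node (.node .leaf (nat_lit 2323251650081030) (.br (nat_lit 3) (.cons (.br (nat_lit 0) (.cons (.rel (nat_lit 272896017)) (.cons (.rel (nat_lit 276840513)) .nil))) .nil)) .leaf) (nat_lit 2323251650081675) (.br (nat_lit 2) (.cons (.br (nat_lit 5) (.cons (.rel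 (nat_lit 4362084612)) .nil)) .nil)) .leaf))) (nat_lit 2323251650086390) (.br (nat_lit 0) (.cons (.br (nat_lit 3) (.cons (.rel (nat_lit 272699712)) .nil)) .nil)) (.node (.node (.node (.node .leaf (nat_lit 2323251650378504) (.br (nat_lit 5) (.cons (.br (nat_lit 3) (.cons (.rel (nat_lit 4563681282)) (.cons (.rel (nat_lit 4563423552)) .nil))) .nil)) .leaf) (nat_lit 2323251650379134) (.br (nat_lit 5) (.cons (.br (nat_lit 2) (.cons (.rel (nat_lit 4362096897)) (.cons (.rel (nat_lit 8657108994)) .nil))) .nil)) .leaf) (nat_lit 2323251650379164) (.br (nat_lit 0) (.cons (.br (nat_lit 1) (.cons (.rel (nat_lit 37749762)) (.cons (.rel (nat_lit 23073792)) .nil))) .nil)) (.node (.node .leaf (nat_lit 2323251650584608) (.br (nat_lit 2) (.cons (.br (nat_lit 1) (.cons (.rel (nat_lit 83886480)) (.cons (.rel (nat_lit 83906820)) .nil))) .nil)) .leaf) (nat_lit 2323251651376379) (.br (nat_lit 0) (.cons (.br (nat_lit 1) (.cons (.rel (nat_lit 37748757)) .nil)) .nil)) .leaf)) (nat_lit 2323251651667994)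 (.br (nat_lit 0) (.cons (.br (nat_lit 3) (.cons (.rel (nat_lit 272699712)) (.cons (.rel (nat_lit 273679872)) .nil))) (.cons (.br (nat_lit 2) (.cons (.rel (nat_lit 71319876)) (.cons (.rel (nat_lit 71565321)) .nil))) .nil))) (.node (.node (.node .leaf (nat_lit 2323251651668744) (.br (nat_lit 1) (.cons (.br (nat_lit 4) (.cons (.rel (nat_lit 1107820545)) (.cons (.rel (nat_lit 1107820545)) .nil))) (.cons (.br (nat_lit 3) (.cons (.rel (nat_lit 285286656)) (.cons (.rel (nat_lit 302120961)) .nil))) .nil))) .leaf) (nat_lit 2323251651925218) (.br (nat_lit 0) (.cons (.br (nat_lit 2) (.cons (.rel (nat_lit 71565321)) .nil)) .nil)) .leaf) (nat_lit 2323251651965605) (.br (nat_lit 1) (.cons (.br (nat_lit 5) (.cons (.rel (nat_lit 4312269312)) .nil)) .nil)) (.node (.node .leaf (nat_lit 2323251651988091) (.br (nat_lit 4) (.cons (.br (nat_lit 0) (.cons (.rel (nat_lit 1077938328)) (.cons (.rel (nat_lit 2151678336)) .nil))) .nil)) .leaf) (nat_lit 2323254039820419) (.br (nat_lit 0) (.cons (.br (nat_lit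 2) (.cons (.rel (nat_lit 71319876)) .nil)) .nil)) .leaf)))) (nat_lit 2323254040834310) (.br (nat_lit 2) (.cons (.br (nat_lit 3) (.cons (.rel (nat_lit 335544660)) .nil)) .nil)) (.node (.node (.node (.node (.node .leaf (nat_lit 2323254041131139) (.br (nat_lit 1) (.cons (.br (nat_lit 4) (.cons (.rel (nat_lit 1107820545)) .nil)) .nil)) .leaf) (nat_lit 2323254041155610) (.br (nat_lit 0) (.cons (.br (nat_lit 1) (.cons (.rel (nat_lit 20971872)) .nil)) .nil)) .leaf) (nat_lit 2323254041337882) (.br (nat_lit 0) (.cons (.br (nat_lit 2) (.cons (.rel (nat_lit 71567376)) .nil)) .nil)) (.node (.node .leaf (nat_lit 2323254042129921) (.br (nat_lit 0) (.cons (.br (nat_lit 2) (.cons (.rel (nat_lit 71565321)) .nil)) .nil)) .leaf) (nat_lit 2323254042156444) (.br (nat_lit 1) (.cons (.br (nat_lit 2) (.cons (.rel (nat_lit 83906820)) .nil)) .nil)) .leaf)) (nat_lit 2323254042688149) (.br (nat_lit 1) (.cons (.br (nat_lit 4) (.cons (.rel (nat_lit 2181038160)) .nil)) .nil)) (.node (.node (.node .leaf (nat_lit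 2323254042719470) (.br (nat_lit 1) (.cons (.br (nat_lit 2) (.cons (.rel (nat_lit 83886480)) .nil)) .nil)) .leaf) (nat_lit 2323256810661914) (.br (nat_lit 0) (.cons (.br (nat_lit 3) (.cons (.rel (nat_lit 273679872)) .nil)) .nil)) .leaf) (nat_lit 2323256810662664) (.br (nat_lit 3) (.cons (.br (nat_lit 2) (.cons (.rel (nat_lit 603979905)) (.cons (.rel (nat_lit 336069120)) .nil))) .nil)) (.node (.node .leaf (nat_lit 2323256810870784) (.br (nat_lit 0) (.cons (.br (nat_lit 2) (.cons (.rel (nat_lit 71567376)) .nil)) .nil)) .leaf) (nat_lit 2323503148273664) (.br (nat_lit 5) (.cons (.br (nat_lit 2) (.cons (.rel (nat_lit 4362084612)) (.cons (.rel (nat_lit 8657047569)) .nil))) .nil)) .leaf))) (nat_lit 2323503149297699) (.br (nat_lit 0) (.cons (.br (nat_lit 1) (.cons (.rel (nat_lit 20988162)) .nil)) .nil)) (.node (.node (.node (.node .leaf (nat_lit 2323503149441024) (.br (nat_lit 0) (.cons (.br (nat_lit 5) (.cons (.rel (nat_lit 4301262864)) .nil)) .nil)) .leaf) (nat_lit 2323775637975671)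 (.br (nat_lit 1) (.cons (.br (nat_lit 4) (.cons (.rel (nat_lit 1090539540)) .nil)) .nil)) .leaf) (nat_lit 2324362271254528) (.br (nat_lit 0) (.cons (.br (nat_lit 1) (.cons (.rel (nat_lit 20975877)) .nil)) .nil)) (.node (.node .leaf (nat_lit 2324362272716975) (.br (nat_lit 1) (.cons (.br (nat_lit 2) (.cons (.rel (nat_lit 151060545)) .nil)) .nil)) .leaf) (nat_lit 2324362272717430) (.br (nat_lit 2) (.cons (.br (nat_lit 3) (.cons (.rel (nat_lit 335888385)) .nil)) .nil)) .leaf)) (nat_lit 2324362272717576) (.br (nat_lit 1) (.cons (.br (nat_lit 2) (.cons (.rel (nat_lit 100668420)) .nil)) .nil)) (.node (.node (.node .leaf (nat_lit 2324362272717707) (.br (nat_lit 0) (.cons (.br (nat_lit 1) (.cons (.rel (nat_lit 20988162)) .nil)) .nil)) .leaf) (nat_lit 2324362272718235) (.br (nat_lit 0) (.cons (.br (nat_lit 1) (.cons (.rel (nat_lit 38797572)) .nil)) .nil)) .leaf) (nat_lit 2324378835823998) (.br (nat_lit 1) (.cons (.br (nat_lit 6) (.cons (.rel (nat_lit 17197711872)) .nil)) .nil)) (.node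 .leaf (nat_lit 2324378836231051) (.br (nat_lit 1) (.cons (.br (nat_lit 3) (.cons (.rel (nat_lit 571473936)) (.cons (.rel (nat_lit 285212946)) .nil))) .nil)) .leaf))))) (nat_lit 2328921005949104) (.br (nat_lit 0) (.cons (.br (nat_lit 1) (.cons (.rel (nat_lit 37756992)) .nil)) .nil)) (.node (.node (.node (.node (.node (.node .leaf (nat_lit 2328921008500124) (.br (nat_lit 4) (.cons (.br (nat_lit 3) (.cons (.rel (nat_lit 1342218240)) (.cons (.rel (nat_lit 1342193670)) .nil))) .nil)) .leaf) (nat_lit 2328921008796924) (.br (nat_lit 5) (.cons (.br (nat_lit 2) (.cons (.rel (nat_lit 4429185156)) (.cons (.rel (nat_lit 4429185156)) .nil))) .nil)) .leaf) (nat_lit 2328923399253404) (.br (nat_lit 4) (.cons (.br (nat_lit 3) (.cons (.rel (nat_lit 1342193670)) (.cons (.rel (nat_lit 1342218240)) .nil))) .nil)) (.node (.node .leaf (nat_lit 2328923399550204) (.br (nat_lit 1) (.cons (.br (nat_lit 3) (.cons (.rel (nat_lit 285212946)) .nil)) .nil)) .leaf) (nat_lit 2328926164943024) (.br (nat_lit 0)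 (.cons (.br (nat_lit 4) (.cons (.rel (nat_lit 1079054592)) .nil)) .nil)) .leaf)) (nat_lit 2328926165241888) (.br (nat_lit 1) (.cons (.br (nat_lit 2) (.cons (.rel (nat_lit 83919105)) .nil)) .nil)) (.node (.node (.node .leaf (nat_lit 2328926166266531) (.br (nat_lit 1) (.cons (.br (nat_lit 2) (.cons (.rel (nat_lit 100663365)) .nil)) .nil)) .leaf) (nat_lit 2328926166409216) (.br (nat_lit 2) (.cons (.br (nat_lit 1) (.cons (.rel (nat_lit 85463040)) (.cons (.rel (nat_lit 84148260)) (.cons (.rel (nat_lit 84148260)) .nil)))) (.cons (.br (nat_lit 5) (.cons (.rel (nat_lit 4362084612)) (.cons (.rel (nat_lit 8657108994)) (.cons (.rel (nat_lit 4362096897)) .nil)))) .nil))) .leaf) (nat_lit 2328926167226499) (.br (nat_lit 3) (.cons (.br (nat_lit 5) (.cons (.rel (nat_lit 4563404037)) .nil)) .nil)) (.node (.node .leaf (nat_lit 2328926167492609) (.br (nat_lit 1) (.cons (.br (nat_lit 2) (.cons (.rel (nat_lit 84217920)) .nil)) .nil)) .leaf) (nat_lit 2328926167492634) (.br (nat_lit 0) (.cons (.br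 (nat_lit 3) (.cons (.rel (nat_lit 273679872)) .nil)) .nil)) .leaf))) (nat_lit 2328926167701504) (.br (nat_lit 2) (.cons (.br (nat_lit 0) (.cons (.rel (nat_lit 138412176)) (.cons (.rel (nat_lit 71567376)) .nil))) .nil)) (.node (.node (.node (.node .leaf (nat_lit 2328926167749288) (.br (nat_lit 1) (.cons (.br (nat_lit 4) (.cons (.rel (nat_lit 2182356993)) .nil)) .nil)) .leaf) (nat_lit 2328926167749515) (.br (nat_lit 0) (.cons (.br (nat_lit 2) (.cons (.rel (nat_lit 71602176)) .nil)) .nil)) .leaf) (nat_lit 2328926167789600) (.br (nat_lit 2) (.cons (.br (nat_lit 5) (.cons (.rel (nat_lit 4362084612)) .nil)) .nil)) (.node (.node .leaf (nat_lit 2328926223962789) (.br (nat_lit 0) (.cons (.br (nat_lit 1) (.cons (.rel (nat_lit 20975877)) .nil)) .nil)) .leaf) (nat_lit 2329788590602371) (.br (nat_lit 0) (.cons (.br (nat_lit 2) (.cons (.rel (nat_lit 71311632)) .nil)) .nil)) .leaf)) (nat_lit 2329793327470768) (.br (nat_lit 2) (.cons (.br (nat_lit 3) (.cons (.rel (nat_lit 336069120)) .nil))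 .nil)) (.node (.node (.node .leaf (nat_lit 2330166547932412) (.br (nat_lit 0) (.cons (.br (nat_lit 2) (.cons (.rel (nat_lit 138444801)) .nil)) .nil)) .leaf) (nat_lit 2334461513762174) (.br (nat_lit 0) (.cons (.br (nat_lit 4) (.cons (.rel (nat_lit 1077952596)) .nil)) .nil)) .leaf) (nat_lit 2334461513762329) (.br (nat_lit 1) (.cons (.br (nat_lit 3) (.cons (.rel (nat_lit 287572548)) .nil)) .nil)) (.node .leaf (nat_lit 2334461514059776) (.br (nat_lit 2) (.cons (.br (nat_lit 3) (.cons (.br (nat_lit 5) (.cons (.rel (nat_lit 4563404037)) (.cons (.br (nat_lit 0) (.cons (.rel (nat_lit 75513858)) (.cons (.rel (nat_lit 4299163968)) (.cons (.rel (nat_lit 4299178248)) .nil)))) .nil))) (.cons (.rel (nat_lit 336069120)) .nil))) .nil)) .leaf)))) (nat_lit 2334461514059907) (.br (nat_lit 4) (.cons (.br (nat_lit 0) (.cons (.rel (nat_lit 2151678336)) (.cons (.rel (nat_lit 1077936261)) (.cons (.rel (nat_lit 1077936261)) .nil)))) .nil)) (.node (.node (.node (.node (.node .leaf (nat_lit 2334461516018939)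 (.br (nat_lit 0) (.cons (.br (nat_lit 1) (.cons (.rel (nat_lit 37748757)) .nil)) .nil)) .leaf) (nat_lit 2334461516044550) (.br (nat_lit 1) (.cons (.br (nat_lit 3) (.cons (.rel (nat_lit 285213960)) .nil)) .nil)) .leaf) (nat_lit 2334461516045064) (.br (nat_lit 3) (.cons (.br (nat_lit 5) (.cons (.rel (nat_lit 9127855104)) .nil)) .nil)) (.node (.node .leaf (nat_lit 2334461516311304) (.br (nat_lit 2) (.cons (.br (nat_lit 3) (.cons (.rel (nat_lit 336069120)) (.cons (.rel (nat_lit 603979905)) (.cons (.rel (nat_lit 336069120)) .nil)))) (.cons (.br (nat_lit 4) (.cons (.rel (nat_lit 1142165505)) (.cons (.rel (nat_lit 1140852744)) .nil))) .nil))) .leaf) (nat_lit 2334461516311964) (.br (nat_lit 2) (.cons (.br (nat_lit 3) (.cons (.rel (nat_lit 336069120)) (.cons (.rel (nat_lit 603979905)) (.cons (.rel (nat_lit 336069120)) .nil)))) (.cons (.br (nat_lit 1) (.cons (.rel (nat_lit 84217920)) (.cons (.rel (nat_lit 100679700)) (.cons (.rel (nat_lit 83906820)) .nil)))) .nil))) .leaf)) (nat_lit 2334461516519459)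 (.br (nat_lit 0) (.cons (.br (nat_lit 3) (.cons (.rel (nat_lit 272630052)) .nil)) .nil)) (.node (.node (.node .leaf (nat_lit 2334461516608119) (.br (nat_lit 3) (.cons (.br (nat_lit 5) (.cons (.rel (nat_lit 4831843332)) .nil)) .nil)) .leaf) (nat_lit 2334461516630651) (.br (nat_lit 0) (.cons (.br (nat_lit 1) (.cons (.rel (nat_lit 20988162)) .nil)) .nil)) .leaf) (nat_lit 2334463904813056) (.br (nat_lit 1) (.cons (.br (nat_lit 3) (.cons (.rel (nat_lit 285245760)) .nil)) .nil)) (.node (.node .leaf (nat_lit 2334463905773699) (.br (nat_lit 0) (.cons (.br (nat_lit 3) (.cons (.rel (nat_lit 541081632)) .nil)) .nil)) .leaf) (nat_lit 2334463905773730) (.br (nat_lit 5) (.cons (.br (nat_lit 0) (.cons (.rel (nat_lit 4299165954)) (.cons (.rel (nat_lit 4299440208)) .nil))) .nil)) .leaf))) (nat_lit 2334463905980416) (.br (nat_lit 2) (.cons (.br (nat_lit 3) (.cons (.rel (nat_lit 335545665)) .nil)) .nil)) (.node (.node (.node (.node .leaf (nat_lit 2334463907064584) (.br (nat_lit 3) (.cons (.br (nat_lit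 4) (.cons (.rel (nat_lit 2416312320)) .nil)) .nil)) .leaf) (nat_lit 2334463907065244) (.br (nat_lit 4) (.cons (.br (nat_lit 3) (.cons (.rel (nat_lit 1342178385)) (.cons (.br (nat_lit 2) (.cons (.rel (nat_lit 603979905)) (.cons (.rel (nat_lit 336069120)) (.cons (.rel (nat_lit 336069120)) .nil)))) .nil))) .nil)) .leaf) (nat_lit 2334463907330824) (.br (nat_lit 2) (.cons (.br (nat_lit 4) (.cons (.rel (nat_lit 1140858960)) .nil)) .nil)) (.node (.node .leaf (nat_lit 2334466675305224) (.br (nat_lit 4) (.cons (.br (nat_lit 2) (.cons (.br (nat_lit 3) (.cons (.rel (nat_lit 1342218240)) (.cons (.rel (nat_lit 336069120)) .nil))) (.cons (.rel (nat_lit 1140852744)) .nil))) .nil)) .leaf) (nat_lit 2334466675305884) (.br (nat_lit 2) (.cons (.br (nat_lit 4) (.cons (.rel (nat_lit 1140920385)) (.cons (.rel (nat_lit 2216689665)) .nil))) (.cons (.br (nat_lit 4) (.cons (.rel (nat_lit 1140852744)) (.cons (.rel (nat_lit 1140858960)) .nil))) .nil))) .leaf)) (nat_lit 2334466675513975) (.br (nat_lit 1)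 (.cons (.br (nat_lit 2) (.cons (.rel (nat_lit 83919105)) .nil)) .nil)) (.node (.node (.node .leaf (nat_lit 2334466731774629) (.br (nat_lit 1) (.cons (.br (nat_lit 2) (.cons (.rel (nat_lit 84217920)) .nil)) .nil)) .leaf) (nat_lit 2334467099138048) (.br (nat_lit 2) (.cons (.br (nat_lit 3) (.cons (.rel (nat_lit 402653250)) .nil)) .nil)) .leaf) (nat_lit 2335329098414856) (.br (nat_lit 1) (.cons (.br (nat_lit 2) (.cons (.rel (nat_lit 83919105)) .nil)) .nil)) (.node .leaf (nat_lit 2335331489167491) (.br (nat_lit 2) (.cons (.br (nat_lit 3) (.cons (.rel (nat_lit 336069120)) .nil)) .nil)) .leaf))))))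

/-- refutations 9 -/
def e9 : EX := (.node (.node (.node (.node .leaf (nat_lit 2403707933166243) (.br (nat_lit 1) (.cons (.br (nat_lit 3) (.cons (.rel (nat_lit 553665540)) .nil)) .nil)) .leaf) (nat_lit 2403707933166448) (.br (nat_lit 0) (.cons (.br (nat_lit 1) (.cons (.rel (nat_lit 20971872)) .nil)) .nil)) (.node .leaf (nat_lit 2403707933216794) (.br (nat_lit 0) (.cons (.br (nat_lit 1) (.cons (.rel (nat_lit 21233796)) .nil)) .nil)) .leaf)) (nat_lit 2403707933782691) (.br (nat_lit 0) (.cons (.br (nat_lit 3) (.cons (.rel (nat_lit 274726917)) .nil)) .nil)) (.node (.node .leaf (nat_lit 2403707934753398) (.br (nat_lit 1) (.cons (.br (nat_lit 2) (.cons (.rel (nat_lit 84148260)) .nil)) .nil)) .leaf) (nat_lit 2403707934813686) (.br (nat_lit 4) (.cons (.br (nat_lit 6) (.cons (.rel (nat_lit 18253677636)) .nil)) .nil)) (.node .leaf (nat_lit 2403707934957594) (.br (nat_lit 6) (.cons (.br (nat_lit 5) (.cons (.rel (nat_lit 21474854148)) (.cons (.rel (nat_lit 25769805825)) .nil))) .nil)) .leaf)))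 (nat_lit 2403707934957853) (.br (nat_lit 6) (.cons (.br (nat_lit 1) (.cons (.rel (nat_lit 17196646722)) (.cons (.rel (nat_lit 17213424657)) .nil))) .nil)) (.node (.node (.node .leaf (nat_lit 2403707934958948) (.br (nat_lit 4) (.cons (.br (nat_lit 6) (.cons (.rel (nat_lit 18253612161)) (.cons (.rel (nat_lit 18253612161)) .nil))) .nil)) .leaf) (nat_lit 2403707936043008) (.br (nat_lit 0) (.cons (.br (nat_lit 2) (.cons (.rel (nat_lit 75513858)) .nil)) .nil)) (.node .leaf (nat_lit 2403707936044263) (.br (nat_lit 3) (.cons (.br (nat_lit 5) (.cons (.rel (nat_lit 4563404037)) .nil)) .nil)) .leaf)) (nat_lit 2403707936084253) (.br (nat_lit 0) (.cons (.br (nat_lit 1) (.cons (.rel (nat_lit 20975877)) .nil)) .nil)) (.node (.node .leaf (nat_lit 2403710719975450) (.br (nat_lit 4) (.cons (.br (nat_lit 5) (.cons (.rel (nat_lit 5368711296)) (.cons (.rel (nat_lit 5368711296)) .nil))) .nil)) .leaf) (nat_lit 2405700249102362) (.br (nat_lit 0) (.cons (.br (nat_lit 1) (.cons (.rel (nat_lit 21364737))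 .nil)) .nil)) (.node .leaf (nat_lit 2405700249103262) (.br (nat_lit 0) (.cons (.br (nat_lit 2) (.cons (.rel (nat_lit 71311632)) .nil)) .nil)) .leaf))))

/-- refutations 10 -/
def e10 : EX := (.node (.node (.node (.node (.node .leaf (nat_lit 2639999913003165) (.br (nat_lit 0) (.cons (.br (nat_lit 3) (.cons (.rel (nat_lit 541065297)) .nil)) .nil)) .leaf) (nat_lit 2641193439910173) (.br (nat_lit 1) (.cons (.br (nat_lit 2) (.cons (.rel (nat_lit 84295680)) .nil)) .nil)) .leaf) (nat_lit 2641196013589855) (.br (nat_lit 0) (.cons (.br (nat_lit 3) (.cons (.rel (nat_lit 272909316)) .nil)) .nil)) (.node .leaf (nat_lit 2644300995594371) (.br (nat_lit 0) (.cons (.br (nat_lit 1) (.cons (.rel (nat_lit 25301001)) .nil)) .nil)) .leaf)) (nat_lit 2644734694780385) (.br (nat_lit 0) (.cons (.br (nat_lit 1) (.cons (.rel (nat_lit 23073792)) .nil)) .nil)) (.node (.node (.node .leaf (nat_lit 2644734696204419) (.br (nat_lit 0) (.cons (.br (nat_lit 2) (.cons (.rel (nat_lit 71565321)) .nil)) .nil)) .leaf)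 (nat_lit 2645488883733292) (.br (nat_lit 0) (.cons (.br (nat_lit 1) (.cons (.rel (nat_lit 21233796)) (.cons (.rel (nat_lit 23073792)) .nil))) .nil)) .leaf) (nat_lit 2645488883733855) (.br (nat_lit 6) (.cons (.br (nat_lit 0) (.cons (.rel (nat_lit 17184064833)) (.cons (.rel (nat_lit 34364981520)) .nil))) .nil)) (.node .leaf (nat_lit 2649786051701521) (.br (nat_lit 0) (.cons (.br (nat_lit 1) (.cons (.rel (nat_lit 25166868)) .nil)) .nil)) .leaf))) (nat_lit 2649791307164960) (.br (nat_lit 2) (.cons (.br (nat_lit 3) (.cons (.rel (nat_lit 335550720)) .nil)) .nil)) (.node (.node (.node (.node .leaf (nat_lit 2649994928409336) (.br (nat_lit 1) (.cons (.br (nat_lit 2) (.cons (.rel (nat_lit 85198080)) .nil)) .nil)) .leaf) (nat_lit 2649998597889557) (.br (nat_lit 0) (.cons (.br (nat_lit 1) (.cons (.rel (nat_lit 20971872)) .nil)) .nil)) .leaf) (nat_lit 2649998598156288) (.br (nat_lit 0) (.cons (.br (nat_lit 2) (.cons (.rel (nat_lit 71311632)) .nil)) .nil)) (.node .leaf (nat_lit 2649998599129373)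 (.br (nat_lit 3) (.cons (.br (nat_lit 6) (.cons (.rel (nat_lit 17448436032)) .nil)) .nil)) .leaf)) (nat_lit 2649998599394655) (.br (nat_lit 0) (.cons (.br (nat_lit 6) (.cons (.rel (nat_lit 17184064833)) .nil)) .nil)) (.node (.node .leaf (nat_lit 2649998599583253) (.br (nat_lit 0) (.cons (.br (nat_lit 1) (.cons (.rel (nat_lit 23073792)) .nil)) .nil)) .leaf) (nat_lit 2650000800065821) (.br (nat_lit 0) (.cons (.br (nat_lit 4) (.cons (.rel (nat_lit 2155876368)) (.cons (.rel (nat_lit 1077936261)) .nil))) .nil)) (.node .leaf (nat_lit 2651120784091421) (.br (nat_lit 2) (.cons (.br (nat_lit 3) (.cons (.rel (nat_lit 336069120)) .nil)) .nil)) .leaf))))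

/-- refutations 11 -/
def e11 : EX := (.node (.node (.node (.node (.node (.node .leaf (nat_lit 2657797776318464) (.br (nat_lit 1) (.cons (.br (nat_lit 0) (.cons (.rel (nat_lit 21364737)) (.cons (.rel (nat_lit 21364737)) (.cons (.rel (nat_lit 37749762)) .nil)))) (.cons (.br (nat_lit 5) (.cons (.rel (nat_lit 4312269312)) (.cons (.rel (nat_lit 8606842944)) (.cons (.rel (nat_lit 8606736384)) .nil)))) .nil))) .leaf) (nat_lit 2657797776318491) (.br (nat_lit 1) (.cons (.br (nat_lit 3) (.cons (.rel (nat_lit 285212946)) .nil)) .nil)) (.node .leaf (nat_lit 2657797777393949) (.br (nat_lit 6) (.cons (.br (nat_lit 0) (.cons (.rel (nat_lit 17184329793)) (.cons (.rel (nat_lit 17184063828)) .nil))) .nil)) .leaf)) (nat_lit 2657797777608861) (.br (nat_lit 0) (.cons (.br (nat_lit 1) (.cons (.rel (nat_lit 23073792)) .nil)) .nil)) (.node (.node .leaf (nat_lit 2657797777662109) (.br (nat_lit 3) (.cons (.br (nat_lit 6) (.cons (.rel (nat_lit 17448304902)) .nil)) .nil)) .leaf) (nat_lit 2657797777844224)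 (.br (nat_lit 0) (.cons (.br (nat_lit 3) (.cons (.rel (nat_lit 276840513)) .nil)) .nil)) (.node .leaf (nat_lit 2657799978429342) (.br (nat_lit 1) (.cons (.br (nat_lit 2) (.cons (.rel (nat_lit 85999680)) .nil)) .nil)) .leaf))) (nat_lit 2657799979403264) (.br (nat_lit 0) (.cons (.br (nat_lit 3) (.cons (.rel (nat_lit 272631057)) .nil)) .nil)) (.node (.node (.node .leaf (nat_lit 2658791023728640) (.br (nat_lit 0) (.cons (.br (nat_lit 1) (.cons (.rel (nat_lit 23134212)) .nil)) .nil)) .leaf) (nat_lit 2658793673150464) (.br (nat_lit 0) (.cons (.br (nat_lit 1) (.cons (.rel (nat_lit 23068737)) .nil)) .nil)) (.node .leaf (nat_lit 2661889604868148) (.br (nat_lit 0) (.cons (.br (nat_lit 2) (.cons (.rel (nat_lit 71311632)) .nil)) .nil)) .leaf)) (nat_lit 2661889605084538) (.br (nat_lit 0) (.cons (.br (nat_lit 1) (.cons (.rel (nat_lit 20975877)) .nil)) .nil)) (.node (.node .leaf (nat_lit 2661889605136384) (.br (nat_lit 0) (.cons (.br (nat_lit 2) (.cons (.rel (nat_lit 71630976)) .nil)) .nil))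 .leaf) (nat_lit 2661889605398580) (.br (nat_lit 0) (.cons (.br (nat_lit 1) (.cons (.rel (nat_lit 20971872)) .nil)) .nil)) .leaf))) (nat_lit 2661889606158388) (.br (nat_lit 4) (.cons (.br (nat_lit 6) (.cons (.rel (nat_lit 18253617216)) .nil)) .nil)) (.node (.node (.node (.node .leaf (nat_lit 2661889606426781) (.br (nat_lit 1) (.cons (.br (nat_lit 3) (.cons (.rel (nat_lit 286261761)) .nil)) .nil)) .leaf) (nat_lit 2662305289048064) (.br (nat_lit 0) (.cons (.br (nat_lit 2) (.cons (.rel (nat_lit 72876096)) .nil)) .nil)) (.node .leaf (nat_lit 2662305290070016) (.br (nat_lit 2) (.cons (.br (nat_lit 3) (.cons (.rel (nat_lit 335826960)) .nil)) .nil)) .leaf)) (nat_lit 2662307491979264) (.br (nat_lit 1) (.cons (.br (nat_lit 0) (.cons (.rel (nat_lit 21251136)) (.cons (.rel (nat_lit 21364737)) (.cons (.rel (nat_lit 37749762)) .nil)))) .nil)) (.node (.node .leaf (nat_lit 2662307491980024) (.br (nat_lit 0) (.cons (.br (nat_lit 1) (.cons (.rel (nat_lit 21364737)) .nil)) .nil)) .leaf) (nat_lit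 2667384628336640) (.br (nat_lit 0) (.cons (.br (nat_lit 1) (.cons (.rel (nat_lit 23085072)) (.cons (.rel (nat_lit 23068737)) .nil))) .nil)) (.node .leaf (nat_lit 2667384629963678) (.br (nat_lit 0) (.cons (.br (nat_lit 2) (.cons (.rel (nat_lit 72876096)) .nil)) .nil)) .leaf))) (nat_lit 2668509426280448) (.br (nat_lit 0) (.cons (.br (nat_lit 1) (.cons (.rel (nat_lit 20971872)) .nil)) .nil)) (.node (.node (.node .leaf (nat_lit 2668712403903390) (.br (nat_lit 0) (.cons (.br (nat_lit 3) (.cons (.rel (nat_lit 541065297)) .nil)) .nil)) .leaf) (nat_lit 2668712405192966) (.br (nat_lit 1) (.cons (.br (nat_lit 3) (.cons (.rel (nat_lit 285212946)) .nil)) .nil)) (.node .leaf (nat_lit 2668713380253722) (.br (nat_lit 1) (.cons (.br (nat_lit 3) (.cons (.rel (nat_lit 285245760)) .nil)) .nil)) .leaf)) (nat_lit 2668713381014430) (.br (nat_lit 1) (.cons (.br (nat_lit 2) (.cons (.rel (nat_lit 83919105)) .nil)) .nil)) (.node (.node .leaf (nat_lit 2668713381175453) (.br (nat_lit 2) (.cons (.br (nat_lit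 3) (.cons (.rel (nat_lit 671351040)) (.cons (.rel (nat_lit 336069120)) .nil))) .nil)) .leaf) (nat_lit 2668713381175558) (.br (nat_lit 0) (.cons (.br (nat_lit 3) (.cons (.rel (nat_lit 541081632)) .nil)) .nil)) .leaf)))) (nat_lit 2668713381490688) (.br (nat_lit 0) (.cons (.br (nat_lit 1) (.cons (.rel (nat_lit 21233796)) .nil)) .nil)) (.node (.node (.node (.node (.node .leaf (nat_lit 2668713382250781) (.br (nat_lit 1) (.cons (.br (nat_lit 6) (.cons (.rel (nat_lit 34376536128)) .nil)) .nil)) .leaf) (nat_lit 2668715042120492) (.br (nat_lit 0) (.cons (.br (nat_lit 1) (.cons (.rel (nat_lit 20975877)) .nil)) .nil)) (.node .leaf (nat_lit 2668715582264222) (.br (nat_lit 3) (.cons (.br (nat_lit 4) (.cons (.rel (nat_lit 2684375040)) .nil)) .nil)) .leaf)) (nat_lit 2668715582969987) (.br (nat_lit 0) (.cons (.br (nat_lit 2) (.cons (.rel (nat_lit 71373057)) .nil)) .nil)) (.node (.node .leaf (nat_lit 2668715583023261) (.br (nat_lit 0) (.cons (.br (nat_lit 6) (.cons (.rel (nat_lit 34368389376))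 .nil)) .nil)) .leaf) (nat_lit 2668715583023389) (.br (nat_lit 2) (.cons (.br (nat_lit 6) (.cons (.rel (nat_lit 34426913793)) (.cons (.rel (nat_lit 17247241221)) .nil))) .nil)) (.node .leaf (nat_lit 2668715583024030) (.br (nat_lit 3) (.cons (.br (nat_lit 0) (.cons (.rel (nat_lit 272891976)) (.cons (.rel (nat_lit 272957442)) .nil))) .nil)) .leaf))) (nat_lit 2668715583184896) (.br (nat_lit 5) (.cons (.br (nat_lit 0) (.cons (.rel (nat_lit 4299165954)) (.cons (.rel (nat_lit 8594149440)) .nil))) .nil)) (.node (.node (.node .leaf (nat_lit 2668715583185158) (.br (nat_lit 0) (.cons (.br (nat_lit 3) (.cons (.rel (nat_lit 272630052)) .nil)) .nil)) .leaf) (nat_lit 2668715583185181) (.br (nat_lit 1) (.cons (.br (nat_lit 3) (.cons (.rel (nat_lit 285286656)) (.cons (.rel (nat_lit 553652241)) .nil))) (.cons (.br (nat_lit 2) (.cons (.rel (nat_lit 83919105)) (.cons (.rel (nat_lit 83906820)) .nil))) .nil))) (.node .leaf (nat_lit 2668715583185822) (.br (nat_lit 0) (.cons (.br (nat_lit 3) (.cons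 (.rel (nat_lit 541065297)) .nil)) .nil)) .leaf)) (nat_lit 2668715583186401) (.br (nat_lit 0) (.cons (.br (nat_lit 2) (.cons (.rel (nat_lit 71373057)) .nil)) .nil)) (.node (.node .leaf (nat_lit 2668715583238144) (.br (nat_lit 2) (.cons (.br (nat_lit 6) (.cons (.br (nat_lit 0) (.cons (.rel (nat_lit 17184588288)) (.cons (.rel (nat_lit 17184329793)) .nil))) .nil)) .nil)) .leaf) (nat_lit 2668715583238800) (.br (nat_lit 0) (.cons (.br (nat_lit 3) (.cons (.rel (nat_lit 272631057)) .nil)) .nil)) .leaf))) (nat_lit 2668715583285274) (.br (nat_lit 0) (.cons (.br (nat_lit 3) (.cons (.rel (nat_lit 541065297)) .nil)) .nil)) (.node (.node (.node (.node .leaf (nat_lit 2668715583285405) (.br (nat_lit 0) (.cons (.br (nat_lit 3) (.cons (.rel (nat_lit 274726917)) .nil)) .nil)) .leaf) (nat_lit 2668715583553562) (.br (nat_lit 3) (.cons (.br (nat_lit 4) (.cons (.rel (nat_lit 1342247040)) (.cons (.rel (nat_lit 1342218240)) .nil))) .nil)) (.node .leaf (nat_lit 2668715584260122) (.br (nat_lit 5) (.cons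 (.br (nat_lit 4) (.cons (.rel (nat_lit 5368713282)) (.cons (.rel (nat_lit 5368729617)) (.cons (.rel (nat_lit 5368718337)) (.cons (.rel (nat_lit 5368841232)) .nil))))) .nil)) .leaf)) (nat_lit 2668715584260253) (.br (nat_lit 5) (.cons (.br (nat_lit 6) (.cons (.rel (nat_lit 38654713920)) (.cons (.br (nat_lit 3) (.cons (.rel (nat_lit 4831854612)) (.cons (.rel (nat_lit 17716740192)) (.cons (.rel (nat_lit 4563664992)) .nil)))) .nil))) .nil)) (.node (.node .leaf (nat_lit 2668715584260381) (.br (nat_lit 5) (.cons (.br (nat_lit 3) (.cons (.rel (nat_lit 4563681282)) (.cons (.rel (nat_lit 4563681282)) (.cons (.rel (nat_lit 4831838277)) (.cons (.rel (nat_lit 8858440704)) .nil))))) .nil)) .leaf) (nat_lit 2668715584475293) (.br (nat_lit 0) (.cons (.br (nat_lit 1) (.cons (.rel (nat_lit 37756992)) .nil)) .nil)) (.node .leaf (nat_lit 2668715584475398) (.br (nat_lit 5) (.cons (.br (nat_lit 6) (.cons (.rel (nat_lit 21475098768)) .nil)) .nil)) .leaf))) (nat_lit 2668715584528410) (.br (nat_lit 6)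 (.cons (.br (nat_lit 3) (.cons (.rel (nat_lit 34628173968)) (.cons (.rel (nat_lit 34628194308)) (.cons (.rel (nat_lit 17448305952)) .nil)))) .nil)) (.node (.node (.node .leaf (nat_lit 2668715584528541) (.br (nat_lit 3) (.cons (.br (nat_lit 2) (.cons (.rel (nat_lit 402653250)) (.cons (.rel (nat_lit 336069120)) .nil))) .nil)) .leaf) (nat_lit 2668715584528669) (.br (nat_lit 2) (.cons (.br (nat_lit 3) (.cons (.rel (nat_lit 402653250)) (.cons (.rel (nat_lit 335810625)) (.cons (.rel (nat_lit 336069120)) .nil)))) .nil)) (.node .leaf (nat_lit 2668715696799770) (.br (nat_lit 0) (.cons (.br (nat_lit 1) (.cons (.rel (nat_lit 20988162)) .nil)) .nil)) .leaf)) (nat_lit 2668718066529658) (.br (nat_lit 0) (.cons (.br (nat_lit 4) (.cons (.rel (nat_lit 1077936261)) .nil)) .nil)) (.node (.node .leaf (nat_lit 2668718067288221) (.br (nat_lit 2) (.cons (.br (nat_lit 3) (.cons (.rel (nat_lit 335810625)) (.cons (.rel (nat_lit 335826960)) (.cons (.rel (nat_lit 335810625)) .nil)))) .nil)) .leaf) (nat_lit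 2668718067739885) (.br (nat_lit 0) (.cons (.br (nat_lit 1) (.cons (.rel (nat_lit 21038352)) .nil)) .nil)) .leaf)))))

/-- refutations 12 -/
def e12 : EX := (.node (.node .leaf (nat_lit 2729159897960474) (.br (nat_lit 3) (.cons (.br (nat_lit 5) (.cons (.rel (nat_lit 4563404037)) .nil)) .nil)) .leaf) (nat_lit 2729197280161296) (.br (nat_lit 0) (.cons (.br (nat_lit 3) (.cons (.rel (nat_lit 272699712)) .nil)) .nil)) (.node .leaf (nat_lit 2729197280688154) (.br (nat_lit 0) (.cons (.br (nat_lit 3) (.cons (.rel (nat_lit 272891976)) .nil)) .nil)) .leaf))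

/-- refutations 13 -/
def e13 : EX := (.node (.node (.node (.node (.node (.node (.node .leaf (nat_lit 3079107857955473) (.br (nat_lit 0) (.cons (.br (nat_lit 1) (.cons (.rel (nat_lit 21251136)) .nil)) .nil)) .leaf) (nat_lit 3079116450557952) (.br (nat_lit 0) (.cons (.br (nat_lit 2) (.cons (.rel (nat_lit 75501573)) (.cons (.rel (nat_lit 71319876)) .nil))) .nil)) .leaf) (nat_lit 3079116452083712) (.br (nat_lit 1) (.cons (.br (nat_lit 2) (.cons (.rel (nat_lit 100668420)) .nil)) .nil)) (.node (.node .leaf (nat_lit 3079116452083974) (.br (nat_lit 1) (.cons (.br (nat_lit 3) (.cons (.rel (nat_lit 571473936)) (.cons (.rel (nat_lit 285213960)) (.cons (.rel (nat_lit 571473936)) (.cons (.rel (nat_lit 571473936)) (.cons (.rel (nat_lit 301990020)) .nil)))))) .nil)) .leaf) (nat_lit 3079116453374237) (.br (nat_lit 0) (.cons (.br (nat_lit 1) (.cons (.rel (nat_lit 21251136)) .nil)) .nil)) .leaf)) (nat_lit 3079117000011776) (.br (nat_lit 0) (.cons (.br (nat_lit 5) (.cons (.rel (nat_lit 4299178248))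 .nil)) .nil)) (.node (.node (.node .leaf (nat_lit 3079117000013281) (.br (nat_lit 0) (.cons (.br (nat_lit 5) (.cons (.rel (nat_lit 4303355940)) .nil)) .nil)) .leaf) (nat_lit 3079117000247926) (.br (nat_lit 6) (.cons (.br (nat_lit 4) (.cons (.rel (nat_lit 18253631496)) (.cons (.rel (nat_lit 36507226113)) .nil))) .nil)) .leaf) (nat_lit 3079117001752861) (.br (nat_lit 2) (.cons (.br (nat_lit 5) (.cons (.rel (nat_lit 4362338337)) .nil)) .nil)) (.node .leaf (nat_lit 3079117001805151) (.br (nat_lit 0) (.cons (.br (nat_lit 2) (.cons (.rel (nat_lit 71319876)) .nil)) .nil)) .leaf))) (nat_lit 3079117003063296) (.br (nat_lit 1) (.cons (.br (nat_lit 3) (.cons (.rel (nat_lit 285212946)) (.cons (.rel (nat_lit 287309856)) .nil))) .nil)) (.node (.node (.node (.node .leaf (nat_lit 3079117003064801) (.br (nat_lit 0) (.cons (.br (nat_lit 1) (.cons (.rel (nat_lit 21233796)) .nil)) .nil)) .leaf) (nat_lit 3079117475399167) (.br (nat_lit 0) (.cons (.br (nat_lit 1) (.cons (.rel (nat_lit 25167873)) .nil))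 .nil)) .leaf) (nat_lit 3079117475760390) (.br (nat_lit 0) (.cons (.br (nat_lit 2) (.cons (.rel (nat_lit 71567376)) .nil)) .nil)) (.node .leaf (nat_lit 3079119930656255) (.br (nat_lit 0) (.cons (.br (nat_lit 1) (.cons (.rel (nat_lit 20975877)) .nil)) .nil)) .leaf)) (nat_lit 3079120021652086) (.br (nat_lit 2) (.cons (.br (nat_lit 3) (.cons (.rel (nat_lit 402669585)) .nil)) .nil)) (.node (.node (.node .leaf (nat_lit 3079707349729941) (.br (nat_lit 1) (.cons (.br (nat_lit 5) (.cons (.rel (nat_lit 4311814560)) .nil)) .nil)) .leaf) (nat_lit 3079715456329789) (.br (nat_lit 2) (.cons (.br (nat_lit 5) (.cons (.rel (nat_lit 4362340356)) .nil)) .nil)) .leaf) (nat_lit 3079715650354587) (.br (nat_lit 1) (.cons (.br (nat_lit 2) (.cons (.rel (nat_lit 150999120)) .nil)) .nil)) (.node .leaf (nat_lit 3079718041011612) (.br (nat_lit 2) (.cons (.br (nat_lit 4) (.cons (.rel (nat_lit 2281702404)) .nil)) .nil)) .leaf)))) (nat_lit 3079967403935779) (.br (nat_lit 0) (.cons (.br (nat_lit 5) (.cons (.rel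 (nat_lit 4299163968)) .nil)) .nil)) (.node (.node (.node (.node (.node .leaf (nat_lit 3079967404965950) (.br (nat_lit 3) (.cons (.br (nat_lit 5) (.cons (.rel (nat_lit 4831854612)) .nil)) .nil)) .leaf) (nat_lit 3079967404967295) (.br (nat_lit 0) (.cons (.br (nat_lit 1) (.cons (.rel (nat_lit 20971872)) .nil)) .nil)) .leaf) (nat_lit 3079967405063579) (.br (nat_lit 0) (.cons (.br (nat_lit 2) (.cons (.rel (nat_lit 138412176)) (.cons (.br (nat_lit 1) (.cons (.rel (nat_lit 84295680)) (.cons (.rel (nat_lit 168821832)) .nil))) .nil))) (.cons (.br (nat_lit 1) (.cons (.rel (nat_lit 41964036)) (.cons (.rel (nat_lit 21364737)) .nil))) .nil))) (.node .leaf (nat_lit 3080239634710590) (.br (nat_lit 1) (.cons (.br (nat_lit 4) (.cons (.rel (nat_lit 1107820545)) .nil)) .nil)) .leaf)) (nat_lit 3080239634774792) (.br (nat_lit 1) (.cons (.br (nat_lit 5) (.cons (.rel (nat_lit 4311744852)) .nil)) .nil)) (.node (.node (.node .leaf (nat_lit 3080239634837530) (.br (nat_lit 0) (.cons (.br (nat_lit 1) (.cons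 (.rel (nat_lit 20988162)) .nil)) .nil)) .leaf) (nat_lit 3080239634837809) (.br (nat_lit 0) (.cons (.br (nat_lit 4) (.cons (.rel (nat_lit 1078001736)) (.cons (.rel (nat_lit 1077936261)) .nil))) .nil)) .leaf) (nat_lit 3080239635236864) (.br (nat_lit 0) (.cons (.br (nat_lit 3) (.cons (.rel (nat_lit 276955176)) (.cons (.rel (nat_lit 541130772)) .nil))) (.cons (.br (nat_lit 3) (.cons (.rel (nat_lit 276828228)) (.cons (.rel (nat_lit 276828228)) .nil))) .nil))) (.node .leaf (nat_lit 3080239635236899) (.br (nat_lit 2) (.cons (.br (nat_lit 6) (.cons (.rel (nat_lit 17246978436)) .nil)) .nil)) .leaf))) (nat_lit 3080239635277824) (.br (nat_lit 3) (.cons (.br (nat_lit 2) (.cons (.rel (nat_lit 336069120)) (.cons (.rel (nat_lit 335550720)) (.cons (.rel (nat_lit 335810625)) .nil)))) .nil)) (.node (.node (.node (.node .leaf (nat_lit 3080239635277856) (.br (nat_lit 3) (.cons (.br (nat_lit 5) (.cons (.rel (nat_lit 8858374224)) .nil)) .nil)) .leaf) (nat_lit 3080239636067565) (.br (nat_lit 2) (.cons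 (.br (nat_lit 5) (.cons (.rel (nat_lit 4362338337)) .nil)) .nil)) .leaf) (nat_lit 3080239636299807) (.br (nat_lit 0) (.cons (.br (nat_lit 5) (.cons (.rel (nat_lit 4299227424)) .nil)) .nil)) (.node .leaf (nat_lit 3080239636363264) (.br (nat_lit 0) (.cons (.br (nat_lit 3) (.cons (.rel (nat_lit 272631057)) (.cons (.rel (nat_lit 272630052)) (.cons (.rel (nat_lit 272891976)) .nil)))) (.cons (.br (nat_lit 3) (.cons (.rel (nat_lit 541070352)) (.cons (.rel (nat_lit 272630052)) (.cons (.rel (nat_lit 272891976)) .nil)))) .nil))) .leaf)) (nat_lit 3080239636363290) (.br (nat_lit 3) (.cons (.br (nat_lit 6) (.cons (.rel (nat_lit 17448305952)) .nil)) .nil)) (.node (.node (.node .leaf (nat_lit 3080239636364526) (.br (nat_lit 3) (.cons (.br (nat_lit 1) (.cons (.rel (nat_lit 553648200)) (.cons (.rel (nat_lit 571473936)) (.cons (.rel (nat_lit 285213960)) .nil)))) .nil)) .leaf) (nat_lit 3080239636364699) (.br (nat_lit 0) (.cons (.br (nat_lit 2) (.cons (.rel (nat_lit 71567376)) (.cons (.rel (nat_lit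 73531392)) .nil))) (.cons (.br (nat_lit 2) (.cons (.rel (nat_lit 138412176)) (.cons (.rel (nat_lit 71337216)) .nil))) .nil))) .leaf) (nat_lit 3080239636630766) (.br (nat_lit 1) (.cons (.br (nat_lit 3) (.cons (.rel (nat_lit 553689108)) .nil)) .nil)) (.node .leaf (nat_lit 3080239637654405) (.br (nat_lit 0) (.cons (.br (nat_lit 3) (.cons (.rel (nat_lit 273679872)) .nil)) .nil)) .leaf))))) (nat_lit 3080239637793430) (.br (nat_lit 1) (.cons (.br (nat_lit 3) (.cons (.rel (nat_lit 301990020)) .nil)) .nil)) (.node (.node (.node (.node (.node (.node .leaf (nat_lit 3080239637889285) (.br (nat_lit 1) (.cons (.br (nat_lit 3) (.cons (.rel (nat_lit 285213960)) (.cons (.rel (nat_lit 285212946)) .nil))) .nil)) .leaf) (nat_lit 3080239637889699) (.br (nat_lit 1) (.cons (.br (nat_lit 2) (.cons (.rel (nat_lit 83919105)) .nil)) .nil)) .leaf) (nat_lit 3080241731989504) (.br (nat_lit 0) (.cons (.br (nat_lit 2) (.cons (.rel (nat_lit 138478656)) .nil)) .nil)) (.node (.node .leaf (nat_lit 3080242069059584)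 (.br (nat_lit 0) (.cons (.br (nat_lit 3) (.cons (.rel (nat_lit 272777472)) (.cons (.rel (nat_lit 272909316)) (.cons (.rel (nat_lit 272630052)) .nil)))) .nil)) .leaf) (nat_lit 3080242070585346) (.br (nat_lit 0) (.cons (.br (nat_lit 6) (.cons (.rel (nat_lit 17184064833)) .nil)) .nil)) .leaf)) (nat_lit 3080242070586104) (.br (nat_lit 0) (.cons (.br (nat_lit 1) (.cons (.rel (nat_lit 21364737)) .nil)) .nil)) (.node (.node (.node .leaf (nat_lit 3080242281443328) (.br (nat_lit 0) (.cons (.br (nat_lit 6) (.cons (.rel (nat_lit 34368389376)) (.cons (.rel (nat_lit 17188290624)) (.cons (.br (nat_lit 5) (.cons (.rel (nat_lit 4299178248)) (.cons (.rel (nat_lit 4299163968)) (.cons (.rel (nat_lit 21476999184)) (.cons (.rel (nat_lit 8594128920)) (.cons (.rel (nat_lit 4299423873)) .nil)))))) (.cons (.rel (nat_lit 17184063828)) .nil))))) .nil)) .leaf) (nat_lit 3080242281443354) (.br (nat_lit 0) (.cons (.br (nat_lit 3) (.cons (.rel (nat_lit 272891976)) (.cons (.rel (nat_lit 542114112)) .nil))) .nil))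 .leaf) (nat_lit 3080242281443634) (.br (nat_lit 0) (.cons (.br (nat_lit 1) (.cons (.rel (nat_lit 26492928)) .nil)) .nil)) (.node .leaf (nat_lit 3080242281444088) (.br (nat_lit 1) (.cons (.br (nat_lit 0) (.cons (.br (nat_lit 5) (.cons (.br (nat_lit 6) (.cons (.rel (nat_lit 17188258824)) (.cons (.br (nat_lit 2) (.cons (.rel (nat_lit 75497568)) (.cons (.rel (nat_lit 75497568)) (.cons (.rel (nat_lit 85999680)) (.cons (.rel (nat_lit 34460663808)) (.cons (.rel (nat_lit 83906820)) .nil)))))) (.cons (.rel (nat_lit 25807552512)) (.cons (.rel (nat_lit 34368389376)) .nil))))) (.cons (.rel (nat_lit 8623751424)) (.cons (.rel (nat_lit 8594128920)) .nil)))) (.cons (.rel (nat_lit 20988162)) (.cons (.rel (nat_lit 21233796)) .nil)))) .nil)) .leaf))) (nat_lit 3080242281444833) (.br (nat_lit 0) (.cons (.br (nat_lit 1) (.cons (.br (nat_lit 6) (.cons (.rel (nat_lit 34368389376)) (.cons (.br (nat_lit 5) (.cons (.rel (nat_lit 4299163968)) (.cons (.rel (nat_lit 21476999184)) (.cons (.rel (nat_lit 8623751424))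 (.cons (.rel (nat_lit 4299178248)) .nil))))) .nil))) (.cons (.rel (nat_lit 20988162)) .nil))) (.cons (.br (nat_lit 5) (.cons (.rel (nat_lit 4299163968)) (.cons (.rel (nat_lit 8594128920)) (.cons (.rel (nat_lit 4299178248)) (.cons (.rel (nat_lit 4303355940)) .nil))))) .nil))) (.node (.node (.node (.node .leaf (nat_lit 3080242281679478) (.br (nat_lit 3) (.cons (.br (nat_lit 6) (.cons (.rel (nat_lit 34628173968)) (.cons (.rel (nat_lit 17448304902)) .nil))) .nil)) .leaf) (nat_lit 3080242281680353) (.br (nat_lit 0) (.cons (.br (nat_lit 5) (.cons (.rel (nat_lit 8594128920)) .nil)) .nil)) .leaf) (nat_lit 3080242281830426) (.br (nat_lit 0) (.cons (.br (nat_lit 2) (.cons (.rel (nat_lit 75497568)) .nil)) .nil)) (.node .leaf (nat_lit 3080242281842688) (.br (nat_lit 0) (.cons (.br (nat_lit 3) (.cons (.rel (nat_lit 272891976)) .nil)) .nil)) .leaf)) (nat_lit 3080242281842714) (.br (nat_lit 0) (.cons (.br (nat_lit 1) (.cons (.rel (nat_lit 21364737)) (.cons (.rel (nat_lit 20988162)) .nil)))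 .nil)) (.node (.node (.node .leaf (nat_lit 3080242281842723) (.br (nat_lit 0) (.cons (.br (nat_lit 2) (.cons (.br (nat_lit 3) (.cons (.rel (nat_lit 671351040)) (.cons (.rel (nat_lit 336069120)) (.cons (.rel (nat_lit 274726917)) .nil)))) (.cons (.rel (nat_lit 71319876)) .nil))) .nil)) .leaf) (nat_lit 3080242281883648) (.br (nat_lit 5) (.cons (.br (nat_lit 1) (.cons (.rel (nat_lit 4312088577)) (.cons (.rel (nat_lit 4311744852)) (.cons (.rel (nat_lit 4312088577)) .nil)))) .nil)) .leaf) (nat_lit 3080242282703478) (.br (nat_lit 0) (.cons (.br (nat_lit 3) (.cons (.rel (nat_lit 272957442)) .nil)) .nil)) (.node .leaf (nat_lit 3080242282704398) (.br (nat_lit 0) (.cons (.br (nat_lit 1) (.cons (.br (nat_lit 6) (.cons (.rel (nat_lit 17196646722)) .nil)) .nil)) .nil)) .leaf)))) (nat_lit 3080242282872858) (.br (nat_lit 1) (.cons (.br (nat_lit 3) (.cons (.br (nat_lit 2) (.cons (.rel (nat_lit 671351040)) (.cons (.rel (nat_lit 85999680)) (.cons (.rel (nat_lit 336069120)) .nil)))) (.cons (.rel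 (nat_lit 285491205)) .nil))) .nil)) (.node (.node (.node (.node (.node .leaf (nat_lit 3080242282872894) (.br (nat_lit 1) (.cons (.br (nat_lit 2) (.cons (.rel (nat_lit 83886480)) .nil)) .nil)) .leaf) (nat_lit 3080242282874239) (.br (nat_lit 1) (.cons (.br (nat_lit 0) (.cons (.rel (nat_lit 20972889)) (.cons (.rel (nat_lit 20971872)) .nil))) .nil)) .leaf) (nat_lit 3080242282915866) (.br (nat_lit 6) (.cons (.br (nat_lit 0) (.cons (.rel (nat_lit 17184063828)) (.cons (.rel (nat_lit 17184063828)) (.cons (.rel (nat_lit 17184407553)) .nil)))) .nil)) (.node .leaf (nat_lit 3080242282969088) (.br (nat_lit 0) (.cons (.br (nat_lit 2) (.cons (.br (nat_lit 1) (.cons (.br (nat_lit 3) (.cons (.rel (nat_lit 402653250)) (.cons (.br (nat_lit 5) (.cons (.rel (nat_lit 4299178248)) (.cons (.rel (nat_lit 4299178248)) (.cons (.rel (nat_lit 4362142032)) (.cons (.br (nat_lit 6) (.cons (.rel (nat_lit 34368389376)) (.cons (.rel (nat_lit 17251172418)) (.cons (.rel (nat_lit 21476999184)) (.cons (.rel (nat_lit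 17331388416)) (.cons (.rel (nat_lit 34363934724)) (.cons (.rel (nat_lit 17184588288)) (.cons (.rel (nat_lit 17246978436)) (.cons (.rel (nat_lit 17200840713)) (.cons (.rel (nat_lit 34368389376)) .nil)))))))))) (.cons (.rel (nat_lit 4299178248)) (.cons (.rel (nat_lit 4299178248)) (.cons (.rel (nat_lit 4315971648)) (.cons (.rel (nat_lit 4299423873)) (.cons (.rel (nat_lit 4303355940)) .nil)))))))))) (.cons (.rel (nat_lit 335544660)) (.cons (.rel (nat_lit 302120961)) (.cons (.rel (nat_lit 276840513)) (.cons (.rel (nat_lit 336069120)) (.cons (.rel (nat_lit 272909316)) (.cons (.rel (nat_lit 272909316)) .nil))))))))) (.cons (.rel (nat_lit 159383808)) (.cons (.rel (nat_lit 151060545)) .nil)))) (.cons (.rel (nat_lit 71319876)) (.cons (.rel (nat_lit 75497568)) (.cons (.rel (nat_lit 138412176)) (.cons (.br (nat_lit 1) (.cons (.rel (nat_lit 100663365)) (.cons (.rel (nat_lit 150999120)) (.cons (.rel (nat_lit 84295680)) .nil)))) (.cons (.rel (nat_lit 75513858)) (.cons (.rel (nat_lit 75497568))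 (.cons (.rel (nat_lit 71319876)) .nil))))))))) (.cons (.br (nat_lit 3) (.cons (.rel (nat_lit 272891976)) (.cons (.rel (nat_lit 541065297)) (.cons (.rel (nat_lit 272909316)) (.cons (.rel (nat_lit 272777472)) (.cons (.rel (nat_lit 272630052)) (.cons (.rel (nat_lit 272777472)) (.cons (.rel (nat_lit 276845568)) (.cons (.rel (nat_lit 272909316)) .nil))))))))) (.cons (.br (nat_lit 2) (.cons (.rel (nat_lit 73531392)) (.cons (.rel (nat_lit 143720448)) (.cons (.rel (nat_lit 71319876)) (.cons (.rel (nat_lit 71337216)) (.cons (.rel (nat_lit 75538440)) (.cons (.rel (nat_lit 143660040)) (.cons (.rel (nat_lit 138432516)) (.cons (.rel (nat_lit 71337216)) .nil))))))))) .nil)))) .leaf)) (nat_lit 3080242282969350) (.br (nat_lit 1) (.cons (.br (nat_lit 2) (.cons (.rel (nat_lit 83906820)) (.cons (.rel (nat_lit 152305665)) .nil))) .nil)) (.node (.node (.node .leaf (nat_lit 3080242282969848) (.br (nat_lit 0) (.cons (.br (nat_lit 2) (.cons (.br (nat_lit 1) (.cons (.br (nat_lit 5) (.cons (.rel (nat_lit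 4299423873)) (.cons (.br (nat_lit 6) (.cons (.rel (nat_lit 17184588288)) (.cons (.rel (nat_lit 21476999184)) (.cons (.rel (nat_lit 17251172418)) (.cons (.rel (nat_lit 34426847313)) .nil))))) (.cons (.rel (nat_lit 4300734468)) (.cons (.rel (nat_lit 8657108994)) .nil))))) (.cons (.rel (nat_lit 93323268)) .nil))) (.cons (.rel (nat_lit 71567376)) (.cons (.rel (nat_lit 75497568)) (.cons (.rel (nat_lit 75513858)) (.cons (.rel (nat_lit 75497568)) (.cons (.rel (nat_lit 143720448)) .nil))))))) (.cons (.br (nat_lit 5) (.cons (.rel (nat_lit 4299165954)) (.cons (.rel (nat_lit 8594128920)) (.cons (.rel (nat_lit 4299165954)) (.cons (.rel (nat_lit 4303355940)) .nil))))) .nil))) .leaf) (nat_lit 3080242282970350) (.br (nat_lit 0) (.cons (.br (nat_lit 3) (.cons (.rel (nat_lit 542114112)) (.cons (.rel (nat_lit 272909316)) .nil))) .nil)) .leaf) (nat_lit 3080242282970593) (.br (nat_lit 0) (.cons (.br (nat_lit 1) (.cons (.rel (nat_lit 23068737)) (.cons (.rel (nat_lit 20988162)) (.cons (.rel (nat_lit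 21038352)) .nil)))) (.cons (.br (nat_lit 5) (.cons (.rel (nat_lit 4299506688)) (.cons (.rel (nat_lit 4301324289)) (.cons (.rel (nat_lit 4299163968)) (.cons (.rel (nat_lit 4299178248)) .nil))))) (.cons (.br (nat_lit 5) (.cons (.rel (nat_lit 4299423873)) (.cons (.br (nat_lit 6) (.cons (.rel (nat_lit 17184588288)) (.cons (.br (nat_lit 1) (.cons (.br (nat_lit 2) (.cons (.rel (nat_lit 71319876)) (.cons (.br (nat_lit 4) (.cons (.rel (nat_lit 1077936261)) (.cons (.rel (nat_lit 1079246856)) (.cons (.rel (nat_lit 1078477056)) (.cons (.rel (nat_lit 1083195393)) (.cons (.rel (nat_lit 2151678336)) (.cons (.rel (nat_lit 1082131008)) (.cons (.rel (nat_lit 1228931136)) (.cons (.rel (nat_lit 2155876368)) (.cons (.rel (nat_lit 1078985124)) (.cons (.rel (nat_lit 18253619202)) .nil))))))))))) (.cons (.rel (nat_lit 75497568)) (.cons (.rel (nat_lit 138412176)) (.cons (.rel (nat_lit 17247109377)) (.cons (.rel (nat_lit 75497568)) (.cons (.rel (nat_lit 72876096)) .nil)))))))) (.cons (.rel (nat_lit 17198743632))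 (.cons (.rel (nat_lit 23068737)) .nil)))) (.cons (.rel (nat_lit 21475098768)) (.cons (.rel (nat_lit 17184063828)) .nil))))) (.cons (.rel (nat_lit 4300734468)) (.cons (.rel (nat_lit 4303372422)) .nil))))) .nil)))) (.node .leaf (nat_lit 3080242283235328) (.br (nat_lit 2) (.cons (.br (nat_lit 5) (.cons (.rel (nat_lit 4362354816)) (.cons (.rel (nat_lit 8657108994)) .nil))) .nil)) .leaf))) (nat_lit 3080242283236703) (.br (nat_lit 0) (.cons (.br (nat_lit 6) (.cons (.rel (nat_lit 17188258824)) .nil)) .nil)) (.node (.node (.node (.node .leaf (nat_lit 3080242284259354) (.br (nat_lit 0) (.cons (.br (nat_lit 5) (.cons (.rel (nat_lit 4299163968)) .nil)) .nil)) .leaf) (nat_lit 3080242284260703) (.br (nat_lit 1) (.cons (.br (nat_lit 2) (.cons (.rel (nat_lit 83886480)) .nil)) .nil)) .leaf) (nat_lit 3080242284494848) (.br (nat_lit 0) (.cons (.br (nat_lit 1) (.cons (.br (nat_lit 6) (.cons (.rel (nat_lit 34376613888)) (.cons (.br (nat_lit 5) (.cons (.rel (nat_lit 38679871488)) (.cons (.rel (nat_lit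 4328558592)) (.cons (.br (nat_lit 3) (.cons (.rel (nat_lit 274726917)) (.cons (.rel (nat_lit 8866758912)) (.cons (.rel (nat_lit 302120961)) (.cons (.rel (nat_lit 302120961)) (.cons (.rel (nat_lit 272891976)) .nil)))))) (.cons (.rel (nat_lit 8623751424)) .nil))))) (.cons (.rel (nat_lit 34368389376)) .nil)))) (.cons (.rel (nat_lit 20988162)) (.cons (.rel (nat_lit 20971872)) .nil)))) .nil)) (.node .leaf (nat_lit 3080242284494875) (.br (nat_lit 0) (.cons (.br (nat_lit 1) (.cons (.rel (nat_lit 38797572)) .nil)) .nil)) .leaf)) (nat_lit 3080242284495523) (.br (nat_lit 1) (.cons (.br (nat_lit 2) (.cons (.rel (nat_lit 152305665)) (.cons (.rel (nat_lit 83919105)) .nil))) .nil)) (.node (.node (.node .leaf (nat_lit 3080242284495608) (.br (nat_lit 0) (.cons (.br (nat_lit 5) (.cons (.rel (nat_lit 4299163968)) (.cons (.rel (nat_lit 4301324289)) .nil))) (.cons (.br (nat_lit 1) (.cons (.br (nat_lit 5) (.cons (.rel (nat_lit 4299178248)) (.cons (.br (nat_lit 6) (.cons (.rel (nat_lit 21476999184))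 (.cons (.rel (nat_lit 17184063828)) (.cons (.rel (nat_lit 17188290624)) (.cons (.rel (nat_lit 34368389376)) .nil))))) .nil))) (.cons (.rel (nat_lit 20988162)) .nil))) .nil))) .leaf) (nat_lit 3080242284496353) (.br (nat_lit 1) (.cons (.br (nat_lit 5) (.cons (.rel (nat_lit 8623751424)) (.cons (.rel (nat_lit 4312088577)) (.cons (.rel (nat_lit 4328521737)) (.cons (.br (nat_lit 6) (.cons (.rel (nat_lit 17196646722)) (.cons (.rel (nat_lit 21476999184)) (.cons (.rel (nat_lit 17196941316)) (.cons (.rel (nat_lit 17196646722)) (.cons (.rel (nat_lit 34376613888)) .nil)))))) .nil))))) .nil)) .leaf) (nat_lit 3080242755635830) (.br (nat_lit 0) (.cons (.br (nat_lit 2) (.cons (.rel (nat_lit 138496008)) .nil)) .nil)) (.node .leaf (nat_lit 3080242756830460) (.br (nat_lit 0) (.cons (.br (nat_lit 1) (.cons (.rel (nat_lit 21038352)) .nil)) .nil)) .leaf))))))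

/-- refutations 14 -/
def e14 : EX := (.node (.node (.node (.node (.node (.node .leaf (nat_lit 3081212394545437) (.br (nat_lit 0) (.cons (.br (nat_lit 2) (.cons (.rel (nat_lit 76809360)) .nil)) .nil)) .leaf) (nat_lit 3081212394598400) (.br (nat_lit 0) (.cons (.br (nat_lit 2) (.cons (.rel (nat_lit 138478656)) (.cons (.rel (nat_lit 71630976)) (.cons (.rel (nat_lit 71567376)) .nil)))) .nil)) (.node .leaf (nat_lit 3081212394598662) (.br (nat_lit 0) (.cons (.br (nat_lit 2) (.cons (.rel (nat_lit 71325984)) .nil)) .nil)) .leaf)) (nat_lit 3081212394834095) (.br (nat_lit 2) (.cons (.br (nat_lit 5) (.cons (.rel (nat_lit 4362084612)) .nil)) .nil)) (.node (.node .leaf (nat_lit 3081212396070938) (.br (nat_lit 2) (.cons (.br (nat_lit 3) (.cons (.rel (nat_lit 335544660)) .nil)) .nil)) .leaf) (nat_lit 3081212944052224) (.br (nat_lit 0) (.cons (.br (nat_lit 6) (.cons (.rel (nat_lit 34368389376)) (.cons (.rel (nat_lit 17188290624)) .nil))) (.cons (.br (nat_lit 6) (.cons (.rel (nat_lit 17184329793))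 (.cons (.rel (nat_lit 34363949184)) .nil))) .nil))) .leaf)) (nat_lit 3081212944288374) (.br (nat_lit 3) (.cons (.br (nat_lit 2) (.cons (.rel (nat_lit 335815680)) (.cons (.rel (nat_lit 603979905)) .nil))) .nil)) (.node (.node (.node .leaf (nat_lit 3081212944288400) (.br (nat_lit 0) (.cons (.br (nat_lit 3) (.cons (.rel (nat_lit 276856848)) .nil)) .nil)) .leaf) (nat_lit 3081212944492570) (.br (nat_lit 0) (.cons (.br (nat_lit 1) (.cons (.rel (nat_lit 21364737)) .nil)) .nil)) (.node .leaf (nat_lit 3081212945483034) (.br (nat_lit 0) (.cons (.br (nat_lit 2) (.cons (.rel (nat_lit 72876096)) (.cons (.rel (nat_lit 142901520)) .nil))) .nil)) .leaf)) (nat_lit 3081212945524762) (.br (nat_lit 6) (.cons (.br (nat_lit 3) (.cons (.rel (nat_lit 34628194308)) (.cons (.rel (nat_lit 17450402817)) .nil))) .nil)) (.node (.node .leaf (nat_lit 3081212945525021) (.br (nat_lit 3) (.cons (.br (nat_lit 2) (.cons (.rel (nat_lit 603979905)) (.cons (.rel (nat_lit 335562000)) (.cons (.rel (nat_lit 335545665))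 .nil)))) .nil)) .leaf) (nat_lit 3081212945793309) (.br (nat_lit 1) (.cons (.br (nat_lit 3) (.cons (.rel (nat_lit 553648200)) (.cons (.rel (nat_lit 285245760)) (.cons (.rel (nat_lit 285213960)) (.cons (.rel (nat_lit 285286656)) (.cons (.rel (nat_lit 285478920)) .nil)))))) .nil)) .leaf))) (nat_lit 3081212945845599) (.br (nat_lit 0) (.cons (.br (nat_lit 6) (.cons (.rel (nat_lit 17188258824)) .nil)) .nil)) (.node (.node (.node (.node .leaf (nat_lit 3081212946869599) (.br (nat_lit 0) (.cons (.br (nat_lit 1) (.cons (.rel (nat_lit 25170048)) .nil)) .nil)) .leaf) (nat_lit 3081212947105050) (.br (nat_lit 0) (.cons (.br (nat_lit 1) (.cons (.rel (nat_lit 21364737)) .nil)) .nil)) (.node .leaf (nat_lit 3081213418008602) (.br (nat_lit 0) (.cons (.br (nat_lit 5) (.cons (.rel (nat_lit 4299227424)) .nil)) .nil)) .leaf)) (nat_lit 3081213418009336) (.br (nat_lit 0) (.cons (.br (nat_lit 1) (.cons (.rel (nat_lit 25167873)) .nil)) .nil)) (.node (.node .leaf (nat_lit 3081213418244273) (.br (nat_lit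 2) (.cons (.br (nat_lit 4) (.cons (.rel (nat_lit 1140851730)) .nil)) .nil)) .leaf) (nat_lit 3081213418450333) (.br (nat_lit 1) (.cons (.br (nat_lit 4) (.cons (.rel (nat_lit 1090519200)) .nil)) .nil)) .leaf)) (nat_lit 3081213419481114) (.br (nat_lit 4) (.cons (.br (nat_lit 6) (.cons (.rel (nat_lit 18253631496)) .nil)) .nil)) (.node (.node (.node .leaf (nat_lit 3081213419481373) (.br (nat_lit 1) (.cons (.br (nat_lit 6) (.cons (.rel (nat_lit 34376516613)) (.cons (.rel (nat_lit 17196941316)) .nil))) (.cons (.br (nat_lit 2) (.cons (.rel (nat_lit 85198080)) (.cons (.rel (nat_lit 152305665)) (.cons (.rel (nat_lit 83952960)) (.cons (.rel (nat_lit 83952960)) .nil))))) .nil))) .leaf) (nat_lit 3081213419482349) (.br (nat_lit 1) (.cons (.br (nat_lit 2) (.cons (.rel (nat_lit 84148260)) .nil)) .nil)) (.node .leaf (nat_lit 3081213419749402) (.br (nat_lit 0) (.cons (.br (nat_lit 2) (.cons (.rel (nat_lit 71319876)) .nil)) .nil)) .leaf)) (nat_lit 3081213419749661) (.br (nat_lit 2) (.cons (.br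 (nat_lit 6) (.cons (.rel (nat_lit 17314119696)) .nil)) .nil)) (.node (.node .leaf (nat_lit 3081213419800603) (.br (nat_lit 0) (.cons (.br (nat_lit 2) (.cons (.rel (nat_lit 71337216)) .nil)) .nil)) .leaf) (nat_lit 3081213419800838) (.br (nat_lit 0) (.cons (.br (nat_lit 2) (.cons (.rel (nat_lit 71565321)) (.cons (.rel (nat_lit 75497568)) .nil))) .nil)) .leaf)))) (nat_lit 3081213420722461) (.br (nat_lit 5) (.cons (.br (nat_lit 6) (.cons (.rel (nat_lit 25771130880)) .nil)) .nil)) (.node (.node (.node (.node (.node .leaf (nat_lit 3081213420723051) (.br (nat_lit 0) (.cons (.br (nat_lit 1) (.cons (.rel (nat_lit 21038352)) .nil)) .nil)) .leaf) (nat_lit 3081213420723602) (.br (nat_lit 0) (.cons (.br (nat_lit 1) (.cons (.rel (nat_lit 20971872)) (.cons (.rel (nat_lit 25167873)) .nil))) .nil)) (.node .leaf (nat_lit 3081213421060381) (.br (nat_lit 3) (.cons (.br (nat_lit 6) (.cons (.rel (nat_lit 17716740192)) .nil)) .nil)) .leaf)) (nat_lit 3081215515396357) (.br (nat_lit 0) (.cons (.br (nat_lit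 1) (.cons (.rel (nat_lit 21251136)) .nil)) .nil)) (.node (.node .leaf (nat_lit 3081215516420971) (.br (nat_lit 0) (.cons (.br (nat_lit 4) (.cons (.rel (nat_lit 2151678336)) .nil)) .nil)) .leaf) (nat_lit 3081215518212096) (.br (nat_lit 0) (.cons (.br (nat_lit 5) (.cons (.rel (nat_lit 4299178248)) .nil)) .nil)) .leaf)) (nat_lit 3081215965423901) (.br (nat_lit 5) (.cons (.br (nat_lit 6) (.cons (.rel (nat_lit 21475119108)) .nil)) .nil)) (.node (.node (.node .leaf (nat_lit 3084305320505370) (.br (nat_lit 0) (.cons (.br (nat_lit 3) (.cons (.rel (nat_lit 272891976)) .nil)) .nil)) .leaf) (nat_lit 3084305321979413) (.br (nat_lit 0) (.cons (.br (nat_lit 3) (.cons (.rel (nat_lit 276828228)) .nil)) .nil)) (.node .leaf (nat_lit 3084308341876762) (.br (nat_lit 2) (.cons (.br (nat_lit 3) (.cons (.rel (nat_lit 336069120)) .nil)) .nil)) .leaf)) (nat_lit 3084537248975478) (.br (nat_lit 1) (.cons (.br (nat_lit 3) (.cons (.rel (nat_lit 285478920)) .nil)) .nil)) (.node (.node .leaf (nat_lit 3084537250265088)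 (.br (nat_lit 0) (.cons (.br (nat_lit 5) (.cons (.rel (nat_lit 4303503360)) (.cons (.rel (nat_lit 4299178248)) (.cons (.rel (nat_lit 4299440208)) .nil)))) .nil)) .leaf) (nat_lit 3084537250480413) (.br (nat_lit 0) (.cons (.br (nat_lit 3) (.cons (.rel (nat_lit 272896017)) .nil)) .nil)) .leaf))) (nat_lit 3084537250531328) (.br (nat_lit 0) (.cons (.br (nat_lit 2) (.cons (.rel (nat_lit 71373057)) (.cons (.rel (nat_lit 75501573)) .nil))) .nil)) (.node (.node (.node (.node .leaf (nat_lit 3084537251792353) (.br (nat_lit 1) (.cons (.br (nat_lit 2) (.cons (.rel (nat_lit 85999680)) .nil)) .nil)) .leaf) (nat_lit 3085293636940536) (.br (nat_lit 0) (.cons (.br (nat_lit 1) (.cons (.rel (nat_lit 23068737)) .nil)) .nil)) (.node .leaf (nat_lit 3085293639654136) (.br (nat_lit 0) (.cons (.br (nat_lit 2) (.cons (.rel (nat_lit 71630976)) .nil)) .nil)) .leaf)) (nat_lit 3085293639654802) (.br (nat_lit 0) (.cons (.br (nat_lit 5) (.cons (.rel (nat_lit 4299163968)) .nil)) .nil)) (.node (.node .leaf (nat_lit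 3085505264979181) (.br (nat_lit 1) (.cons (.br (nat_lit 3) (.cons (.rel (nat_lit 285286656)) .nil)) .nil)) .leaf) (nat_lit 3085505265141786) (.br (nat_lit 0) (.cons (.br (nat_lit 1) (.cons (.rel (nat_lit 37748757)) .nil)) .nil)) .leaf)) (nat_lit 3085508385540726) (.br (nat_lit 0) (.cons (.br (nat_lit 1) (.cons (.rel (nat_lit 20971872)) .nil)) .nil)) (.node (.node (.node .leaf (nat_lit 3085510482393864) (.br (nat_lit 1) (.cons (.br (nat_lit 2) (.cons (.rel (nat_lit 83906820)) .nil)) .nil)) .leaf) (nat_lit 3085510482692357) (.br (nat_lit 0) (.cons (.br (nat_lit 1) (.cons (.rel (nat_lit 25166868)) .nil)) .nil)) (.node .leaf (nat_lit 3085510483929745) (.br (nat_lit 1) (.cons (.br (nat_lit 3) (.cons (.rel (nat_lit 553652241)) .nil)) .nil)) .leaf)) (nat_lit 3085510485476590) (.br (nat_lit 1) (.cons (.br (nat_lit 3) (.cons (.rel (nat_lit 285213960)) .nil)) .nil)) (.node (.node .leaf (nat_lit 3085510485508357) (.br (nat_lit 1) (.cons (.br (nat_lit 3) (.cons (.rel (nat_lit 285245760))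 (.cons (.rel (nat_lit 285213960)) (.cons (.rel (nat_lit 285213960)) .nil)))) (.cons (.br (nat_lit 3) (.cons (.rel (nat_lit 285478920)) (.cons (.rel (nat_lit 285245760)) (.cons (.rel (nat_lit 285286656)) .nil)))) .nil))) .leaf) (nat_lit 3086626491807744) (.br (nat_lit 5) (.cons (.br (nat_lit 0) (.cons (.rel (nat_lit 4299489348)) (.cons (.rel (nat_lit 4299178248)) .nil))) .nil)) .leaf)))))

/-- refutations 15 -/
def e15 : EX := (.node (.node (.node (.node (.node (.node (.node .leaf (nat_lit 3086630546174853) (.br (nat_lit 0) (.cons (.br (nat_lit 1) (.cons (.rel (nat_lit 21251136)) .nil)) .nil)) .leaf) (nat_lit 3086644907470848) (.br (nat_lit 0) (.cons (.br (nat_lit 1) (.cons (.br (nat_lit 5) (.cons (.br (nat_lit 6) (.cons (.rel (nat_lit 34363949184)) (.cons (.rel (nat_lit 17188290624)) (.cons (.rel (nat_lit 21476999184)) (.cons (.rel (nat_lit 17184063828)) .nil))))) (.cons (.rel (nat_lit 4299178248)) .nil))) .nil)) .nil)) .leaf) (nat_lit 3086644907470875) (.br (nat_lit 1) (.cons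 (.br (nat_lit 3) (.cons (.rel (nat_lit 553665540)) .nil)) .nil)) (.node (.node .leaf (nat_lit 3086644907471608) (.br (nat_lit 0) (.cons (.br (nat_lit 1) (.cons (.br (nat_lit 5) (.cons (.rel (nat_lit 8594149440)) (.cons (.br (nat_lit 3) (.cons (.rel (nat_lit 302120961)) (.cons (.br (nat_lit 4) (.cons (.rel (nat_lit 2164523010)) (.cons (.rel (nat_lit 1077944352)) (.cons (.rel (nat_lit 1342193670)) (.cons (.rel (nat_lit 1077936261)) .nil))))) (.cons (.rel (nat_lit 302120961)) .nil)))) .nil))) .nil)) .nil)) .leaf) (nat_lit 3086644907472109) (.br (nat_lit 1) (.cons (.br (nat_lit 2) (.cons (.rel (nat_lit 100663365)) .nil)) .nil)) .leaf)) (nat_lit 3086644907472353) (.br (nat_lit 0) (.cons (.br (nat_lit 1) (.cons (.br (nat_lit 5) (.cons (.br (nat_lit 6) (.cons (.rel (nat_lit 34368389376)) (.cons (.rel (nat_lit 21476999184)) .nil))) .nil)) .nil)) .nil)) (.node (.node (.node .leaf (nat_lit 3086644907871739) (.br (nat_lit 0) (.cons (.br (nat_lit 1) (.cons (.rel (nat_lit 21251136)) .nil))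 .nil)) .leaf) (nat_lit 3086644908996608) (.br (nat_lit 0) (.cons (.br (nat_lit 1) (.cons (.br (nat_lit 4) (.cons (.rel (nat_lit 2151678336)) (.cons (.rel (nat_lit 2155876368)) (.cons (.rel (nat_lit 1077936261)) (.cons (.rel (nat_lit 1090535490)) (.cons (.rel (nat_lit 1077944352)) (.cons (.rel (nat_lit 1077936261)) (.cons (.rel (nat_lit 1077944352)) (.cons (.rel (nat_lit 1077941316)) .nil))))))))) (.cons (.rel (nat_lit 20971872)) .nil))) .nil)) .leaf) (nat_lit 3086644908996659) (.br (nat_lit 1) (.cons (.br (nat_lit 5) (.cons (.rel (nat_lit 4328521737)) .nil)) .nil)) (.node .leaf (nat_lit 3086644908996914) (.br (nat_lit 0) (.cons (.br (nat_lit 5) (.cons (.rel (nat_lit 4303356945)) .nil)) .nil)) .leaf))) (nat_lit 3086644908997368) (.br (nat_lit 0) (.cons (.br (nat_lit 1) (.cons (.br (nat_lit 4) (.cons (.rel (nat_lit 2151678336)) (.cons (.rel (nat_lit 2155876368)) (.cons (.rel (nat_lit 1077936261)) (.cons (.rel (nat_lit 1090535490)) .nil))))) .nil)) .nil)) (.node (.node (.node (.node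 .leaf (nat_lit 3086644908998113) (.br (nat_lit 0) (.cons (.br (nat_lit 1) (.cons (.br (nat_lit 4) (.cons (.rel (nat_lit 2151678336)) (.cons (.rel (nat_lit 1077936261)) (.cons (.rel (nat_lit 1090535490)) (.cons (.rel (nat_lit 1077944352)) .nil))))) .nil)) .nil)) .leaf) (nat_lit 3086644908998139) (.br (nat_lit 1) (.cons (.br (nat_lit 6) (.cons (.rel (nat_lit 17197039632)) .nil)) .nil)) .leaf) (nat_lit 3086644910522368) (.br (nat_lit 0) (.cons (.br (nat_lit 5) (.cons (.br (nat_lit 1) (.cons (.br (nat_lit 3) (.cons (.rel (nat_lit 302120961)) (.cons (.rel (nat_lit 276828228)) (.cons (.rel (nat_lit 8866758912)) (.cons (.rel (nat_lit 272909316)) (.cons (.rel (nat_lit 302120961)) (.cons (.rel (nat_lit 9127855104)) (.cons (.rel (nat_lit 4565501952)) .nil)))))))) (.cons (.rel (nat_lit 4328523792)) .nil))) .nil)) .nil)) (.node .leaf (nat_lit 3086644910523128) (.br (nat_lit 0) (.cons (.br (nat_lit 1) (.cons (.br (nat_lit 4) (.cons (.rel (nat_lit 1077936261)) (.cons (.rel (nat_lit 2151678336))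 (.cons (.rel (nat_lit 1090535490)) .nil)))) .nil)) .nil)) .leaf)) (nat_lit 3086644910523873) (.br (nat_lit 0) (.cons (.br (nat_lit 1) (.cons (.br (nat_lit 4) (.cons (.rel (nat_lit 1077936261)) (.cons (.rel (nat_lit 1077941316)) (.cons (.rel (nat_lit 1090652160)) (.cons (.rel (nat_lit 1077941316)) (.cons (.rel (nat_lit 2151678336)) (.cons (.rel (nat_lit 1090535490)) (.cons (.rel (nat_lit 2155876368)) .nil)))))))) .nil)) .nil)) (.node (.node (.node .leaf (nat_lit 3089803352601336) (.br (nat_lit 1) (.cons (.br (nat_lit 0) (.cons (.rel (nat_lit 23068737)) (.cons (.br (nat_lit 5) (.cons (.rel (nat_lit 8606842944)) (.cons (.rel (nat_lit 4312010817)) (.cons (.rel (nat_lit 8623751424)) (.cons (.rel (nat_lit 4328523792)) (.cons (.rel (nat_lit 4328523792)) (.cons (.rel (nat_lit 4303356945)) .nil))))))) .nil))) .nil)) .leaf) (nat_lit 3089803352601361) (.br (nat_lit 0) (.cons (.br (nat_lit 1) (.cons (.rel (nat_lit 21038352)) .nil)) .nil)) .leaf) (nat_lit 3089803352601888) (.br (nat_lit 0)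 (.cons (.br (nat_lit 4) (.cons (.rel (nat_lit 2155876368)) .nil)) .nil)) (.node .leaf (nat_lit 3089803352836726) (.br (nat_lit 0) (.cons (.br (nat_lit 1) (.cons (.rel (nat_lit 37748757)) .nil)) .nil)) .leaf)))) (nat_lit 3089803352836881) (.br (nat_lit 2) (.cons (.br (nat_lit 6) (.cons (.rel (nat_lit 17247241221)) .nil)) .nil)) (.node (.node (.node (.node (.node .leaf (nat_lit 3089803354030142) (.br (nat_lit 0) (.cons (.br (nat_lit 1) (.cons (.rel (nat_lit 23068737)) .nil)) .nil)) .leaf) (nat_lit 3089803354031516) (.br (nat_lit 0) (.cons (.br (nat_lit 1) (.cons (.rel (nat_lit 21038352)) .nil)) .nil)) .leaf) (nat_lit 3089803354031615) (.br (nat_lit 1) (.cons (.br (nat_lit 5) (.cons (.rel (nat_lit 4311750912)) (.cons (.rel (nat_lit 4328521737)) .nil))) .nil)) (.node .leaf (nat_lit 3089803354073269) (.br (nat_lit 0) (.cons (.br (nat_lit 6) (.cons (.rel (nat_lit 17184334848)) .nil)) .nil)) .leaf)) (nat_lit 3089803354392838) (.br (nat_lit 0) (.cons (.br (nat_lit 2) (.cons (.rel (nat_lit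 75497568)) .nil)) .nil)) (.node (.node (.node .leaf (nat_lit 3089803355314463) (.br (nat_lit 0) (.cons (.br (nat_lit 4) (.cons (.rel (nat_lit 2155876368)) .nil)) .nil)) .leaf) (nat_lit 3089803355417837) (.br (nat_lit 0) (.cons (.br (nat_lit 5) (.cons (.rel (nat_lit 4301262864)) .nil)) .nil)) .leaf) (nat_lit 3089803355417838) (.br (nat_lit 0) (.cons (.br (nat_lit 5) (.cons (.rel (nat_lit 4299163968)) .nil)) .nil)) (.node .leaf (nat_lit 3089803355653357) (.br (nat_lit 1) (.cons (.br (nat_lit 2) (.cons (.rel (nat_lit 83886480)) .nil)) .nil)) .leaf))) (nat_lit 3089804976195610) (.br (nat_lit 1) (.cons (.br (nat_lit 3) (.cons (.rel (nat_lit 285212946)) .nil)) .nil)) (.node (.node (.node (.node .leaf (nat_lit 3089805452804357) (.br (nat_lit 1) (.cons (.br (nat_lit 2) (.cons (.rel (nat_lit 100680705)) .nil)) .nil)) .leaf) (nat_lit 3089805452804771) (.br (nat_lit 1) (.cons (.br (nat_lit 5) (.cons (.rel (nat_lit 4311811332)) .nil)) .nil)) .leaf) (nat_lit 3090719355439104) (.br (nat_lit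 0) (.cons (.br (nat_lit 4) (.cons (.rel (nat_lit 1079246856)) .nil)) .nil)) (.node .leaf (nat_lit 3090721789262584) (.br (nat_lit 0) (.cons (.br (nat_lit 2) (.cons (.rel (nat_lit 71311632)) .nil)) .nil)) .leaf)) (nat_lit 3090721790787584) (.br (nat_lit 6) (.cons (.br (nat_lit 0) (.cons (.rel (nat_lit 34363932705)) (.cons (.rel (nat_lit 17184081168)) .nil))) .nil)) (.node (.node (.node .leaf (nat_lit 3090925323348099) (.br (nat_lit 0) (.cons (.br (nat_lit 2) (.cons (.rel (nat_lit 71567376)) .nil)) .nil)) .leaf) (nat_lit 3090928160013695) (.br (nat_lit 1) (.cons (.br (nat_lit 2) (.cons (.rel (nat_lit 152305665)) .nil)) .nil)) .leaf) (nat_lit 3090928160076082) (.br (nat_lit 0) (.cons (.br (nat_lit 1) (.cons (.rel (nat_lit 20975877)) .nil)) .nil)) (.node .leaf (nat_lit 3090928160312801) (.br (nat_lit 1) (.cons (.br (nat_lit 3) (.cons (.rel (nat_lit 286261761)) (.cons (.rel (nat_lit 571473936)) .nil))) .nil)) .leaf))))) (nat_lit 3090928160462874) (.br (nat_lit 0) (.cons (.br (nat_lit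 3) (.cons (.rel (nat_lit 276840513)) .nil)) .nil)) (.node (.node (.node (.node (.node (.node .leaf (nat_lit 3090928160475162) (.br (nat_lit 0) (.cons (.br (nat_lit 3) (.cons (.rel (nat_lit 272896017)) .nil)) .nil)) .leaf) (nat_lit 3090928160475267) (.br (nat_lit 3) (.cons (.br (nat_lit 1) (.cons (.rel (nat_lit 571473936)) (.cons (.rel (nat_lit 285212946)) .nil))) .nil)) .leaf) (nat_lit 3090928160476641) (.br (nat_lit 0) (.cons (.br (nat_lit 1) (.cons (.rel (nat_lit 21233796)) .nil)) .nil)) (.node .leaf (nat_lit 3090928160516096) (.br (nat_lit 2) (.cons (.br (nat_lit 3) (.cons (.rel (nat_lit 603979905)) (.cons (.rel (nat_lit 335550720)) .nil))) (.cons (.br (nat_lit 3) (.cons (.rel (nat_lit 402669585)) (.cons (.rel (nat_lit 335815680)) .nil))) .nil))) .leaf)) (nat_lit 3090928161306081) (.br (nat_lit 1) (.cons (.br (nat_lit 2) (.cons (.rel (nat_lit 83952960)) (.cons (.rel (nat_lit 83886480)) .nil))) (.cons (.br (nat_lit 2) (.cons (.rel (nat_lit 83906820)) (.cons (.rel (nat_lit 83906820))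 .nil))) .nil))) (.node (.node (.node .leaf (nat_lit 3090928161335322) (.br (nat_lit 0) (.cons (.br (nat_lit 2) (.cons (.rel (nat_lit 138444801)) .nil)) .nil)) .leaf) (nat_lit 3090928161505306) (.br (nat_lit 0) (.cons (.br (nat_lit 2) (.cons (.rel (nat_lit 138444801)) (.cons (.rel (nat_lit 75497568)) (.cons (.rel (nat_lit 143720448)) .nil)))) .nil)) .leaf) (nat_lit 3090928161505342) (.br (nat_lit 0) (.cons (.br (nat_lit 2) (.cons (.rel (nat_lit 75497568)) .nil)) .nil)) (.node .leaf (nat_lit 3090928161505457) (.br (nat_lit 0) (.cons (.br (nat_lit 1) (.cons (.rel (nat_lit 37749762)) .nil)) .nil)) .leaf))) (nat_lit 3090928161506586) (.br (nat_lit 2) (.cons (.br (nat_lit 0) (.cons (.rel (nat_lit 72876096)) (.cons (.rel (nat_lit 71567376)) .nil))) .nil)) (.node (.node (.node (.node .leaf (nat_lit 3090928161506687) (.br (nat_lit 5) (.cons (.br (nat_lit 2) (.cons (.rel (nat_lit 8657108994)) (.cons (.rel (nat_lit 4362142032)) (.cons (.rel (nat_lit 4362084612)) (.cons (.rel (nat_lit 4362208512))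 .nil))))) .nil)) .leaf) (nat_lit 3090928161601536) (.br (nat_lit 0) (.cons (.br (nat_lit 2) (.cons (.rel (nat_lit 75513858)) (.cons (.rel (nat_lit 71565321)) (.cons (.rel (nat_lit 138412176)) (.cons (.br (nat_lit 1) (.cons (.rel (nat_lit 83919105)) (.cons (.rel (nat_lit 20988162)) (.cons (.rel (nat_lit 83886480)) (.cons (.rel (nat_lit 25166868)) .nil))))) (.cons (.rel (nat_lit 75513858)) (.cons (.rel (nat_lit 75497568)) .nil))))))) (.cons (.br (nat_lit 2) (.cons (.rel (nat_lit 71630976)) (.cons (.rel (nat_lit 71311632)) (.cons (.rel (nat_lit 73531392)) (.cons (.rel (nat_lit 138412176)) (.cons (.rel (nat_lit 75497568)) (.cons (.rel (nat_lit 75564048)) .nil))))))) (.cons (.br (nat_lit 2) (.cons (.rel (nat_lit 73531392)) (.cons (.rel (nat_lit 71565321)) (.cons (.rel (nat_lit 75513858)) (.cons (.rel (nat_lit 138444801)) (.cons (.rel (nat_lit 138412176)) (.cons (.rel (nat_lit 138412176)) .nil))))))) .nil)))) .leaf) (nat_lit 3090928161601562) (.br (nat_lit 0) (.cons (.br (nat_lit 6)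 (.cons (.rel (nat_lit 17184064833)) (.cons (.rel (nat_lit 17184064833)) .nil))) .nil)) (.node .leaf (nat_lit 3090928161601798) (.br (nat_lit 0) (.cons (.br (nat_lit 2) (.cons (.rel (nat_lit 138674724)) .nil)) .nil)) .leaf)) (nat_lit 3090928161602798) (.br (nat_lit 1) (.cons (.br (nat_lit 3) (.cons (.rel (nat_lit 285491205)) .nil)) .nil)) (.node (.node (.node .leaf (nat_lit 3090928161603041) (.br (nat_lit 0) (.cons (.br (nat_lit 3) (.cons (.rel (nat_lit 272891976)) (.cons (.rel (nat_lit 541065297)) .nil))) (.cons (.br (nat_lit 3) (.cons (.rel (nat_lit 541065297)) (.cons (.rel (nat_lit 541081632)) .nil))) .nil))) .leaf) (nat_lit 3090928161816861) (.br (nat_lit 0) (.cons (.br (nat_lit 3) (.cons (.rel (nat_lit 272891976)) .nil)) .nil)) .leaf) (nat_lit 3090928161817206) (.br (nat_lit 0) (.cons (.br (nat_lit 2) (.cons (.rel (nat_lit 75513858)) .nil)) .nil)) (.node .leaf (nat_lit 3090928161867776) (.br (nat_lit 2) (.cons (.br (nat_lit 0) (.cons (.rel (nat_lit 138412176)) (.cons (.rel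 (nat_lit 71319876)) .nil))) .nil)) .leaf)))) (nat_lit 3090928161867802) (.br (nat_lit 1) (.cons (.br (nat_lit 5) (.cons (.br (nat_lit 6) (.cons (.rel (nat_lit 21491615748)) .nil)) .nil)) .nil)) (.node (.node (.node (.node (.node .leaf (nat_lit 3090928162581362) (.br (nat_lit 3) (.cons (.br (nat_lit 4) (.cons (.rel (nat_lit 1342244865)) .nil)) .nil)) .leaf) (nat_lit 3090928162581892) (.br (nat_lit 2) (.cons (.br (nat_lit 3) (.cons (.rel (nat_lit 336069120)) .nil)) .nil)) .leaf) (nat_lit 3090928162893151) (.br (nat_lit 1) (.cons (.br (nat_lit 0) (.cons (.rel (nat_lit 20975877)) (.cons (.rel (nat_lit 20971872)) .nil))) .nil)) (.node .leaf (nat_lit 3090928163031671) (.br (nat_lit 1) (.cons (.br (nat_lit 2) (.cons (.rel (nat_lit 83886480)) .nil)) .nil)) .leaf)) (nat_lit 3090928163095159) (.br (nat_lit 5) (.cons (.br (nat_lit 3) (.cons (.rel (nat_lit 9127855104)) (.cons (.rel (nat_lit 4563404037)) .nil))) .nil)) (.node (.node (.node .leaf (nat_lit 3090928163095304) (.br (nat_lit 0)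 (.cons (.br (nat_lit 2) (.cons (.rel (nat_lit 71567376)) .nil)) .nil)) .leaf) (nat_lit 3090928163127296) (.br (nat_lit 0) (.cons (.br (nat_lit 2) (.cons (.rel (nat_lit 143720448)) .nil)) .nil)) .leaf) (nat_lit 3090928163127581) (.br (nat_lit 0) (.cons (.br (nat_lit 2) (.cons (.rel (nat_lit 71567376)) .nil)) .nil)) (.node .leaf (nat_lit 3090928163128602) (.br (nat_lit 1) (.cons (.br (nat_lit 5) (.cons (.rel (nat_lit 8623751424)) .nil)) .nil)) .leaf))) (nat_lit 3090928163128801) (.br (nat_lit 2) (.cons (.br (nat_lit 3) (.cons (.rel (nat_lit 402653250)) (.cons (.rel (nat_lit 335826960)) (.cons (.rel (nat_lit 335810625)) (.cons (.rel (nat_lit 337657860)) .nil))))) (.cons (.br (nat_lit 0) (.cons (.rel (nat_lit 138444801)) (.cons (.br (nat_lit 3) (.cons (.rel (nat_lit 542114112)) (.cons (.rel (nat_lit 335810625)) (.cons (.rel (nat_lit 402669585)) (.cons (.rel (nat_lit 272630052)) .nil))))) (.cons (.rel (nat_lit 75513858)) .nil)))) .nil))) (.node (.node (.node (.node .leaf (nat_lit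 3090930531383296) (.br (nat_lit 0) (.cons (.br (nat_lit 3) (.cons (.rel (nat_lit 272957442)) .nil)) .nil)) .leaf) (nat_lit 3090930731625079) (.br (nat_lit 2) (.cons (.br (nat_lit 3) (.cons (.rel (nat_lit 335826960)) .nil)) .nil)) .leaf) (nat_lit 3090930732414433) (.br (nat_lit 1) (.cons (.br (nat_lit 2) (.cons (.rel (nat_lit 83886480)) .nil)) .nil)) (.node .leaf (nat_lit 3090930732976785) (.br (nat_lit 3) (.cons (.br (nat_lit 6) (.cons (.rel (nat_lit 17448567876)) .nil)) .nil)) .leaf)) (nat_lit 3090930734235909) (.br (nat_lit 1) (.cons (.br (nat_lit 3) (.cons (.rel (nat_lit 285212946)) (.cons (.rel (nat_lit 553652241)) (.cons (.rel (nat_lit 285286656)) .nil)))) .nil)) (.node (.node (.node .leaf (nat_lit 3090930734237153) (.br (nat_lit 1) (.cons (.br (nat_lit 3) (.cons (.rel (nat_lit 285213960)) .nil)) .nil)) .leaf) (nat_lit 3091615829035294) (.br (nat_lit 0) (.cons (.br (nat_lit 1) (.cons (.rel (nat_lit 43062276)) .nil)) .nil)) .leaf) (nat_lit 3091621743167773) (.br (nat_lit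 0) (.cons (.br (nat_lit 6) (.cons (.rel (nat_lit 17184588288)) .nil)) .nil)) (.node .leaf (nat_lit 3091623945177373) (.br (nat_lit 0) (.cons (.br (nat_lit 6) (.cons (.rel (nat_lit 17184064833)) .nil)) .nil)) .leaf))))))

/-- refutations 17 -/
def e17 : EX := (.node (.node (.node (.node (.node (.node .leaf (nat_lit 2833424851767328) (.br (nat_lit 2) (.cons (.br (nat_lit 5) (.cons (.rel (nat_lit 4362354816)) .nil)) .nil)) .leaf) (nat_lit 2833425044202778) (.br (nat_lit 0) (.cons (.br (nat_lit 1) (.cons (.rel (nat_lit 20975877)) .nil)) .nil)) (.node .leaf (nat_lit 2833425044705280) (.br (nat_lit 2) (.cons (.br (nat_lit 5) (.cons (.rel (nat_lit 8657108994)) .nil)) .nil)) .leaf)) (nat_lit 2833425044705941) (.br (nat_lit 2) (.cons (.br (nat_lit 3) (.cons (.rel (nat_lit 402653250)) .nil)) .nil)) (.node (.node .leaf (nat_lit 2833425045637781) (.br (nat_lit 4) (.cons (.br (nat_lit 6) (.cons (.rel (nat_lit 18253611156)) .nil)) .nil)) .leaf) (nat_lit 2833425045638555) (.br (nat_lit 1) (.cons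 (.br (nat_lit 6) (.cons (.rel (nat_lit 17196651777)) (.cons (.rel (nat_lit 17196663057)) .nil))) (.cons (.br (nat_lit 5) (.cons (.rel (nat_lit 4312088577)) (.cons (.rel (nat_lit 4328558592)) .nil))) .nil))) .leaf)) (nat_lit 2833425045638672) (.br (nat_lit 5) (.cons (.br (nat_lit 6) (.cons (.rel (nat_lit 38654713920)) .nil)) .nil)) (.node (.node (.node .leaf (nat_lit 2833425045872672) (.br (nat_lit 1) (.cons (.br (nat_lit 4) (.cons (.rel (nat_lit 1090588680)) .nil)) .nil)) .leaf) (nat_lit 2833425046691840) (.br (nat_lit 1) (.cons (.br (nat_lit 2) (.cons (.rel (nat_lit 100679700)) .nil)) .nil)) .leaf) (nat_lit 2833426948919957) (.br (nat_lit 0) (.cons (.br (nat_lit 2) (.cons (.rel (nat_lit 71630976)) .nil)) .nil)) (.node (.node .leaf (nat_lit 2833426949851267) (.br (nat_lit 0) (.cons (.br (nat_lit 6) (.cons (.rel (nat_lit 17184407553)) .nil)) .nil)) .leaf) (nat_lit 2833426950905987) (.br (nat_lit 1) (.cons (.br (nat_lit 2) (.cons (.rel (nat_lit 100663365)) .nil)) .nil)) .leaf)))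 (nat_lit 2833430203196828) (.br (nat_lit 1) (.cons (.br (nat_lit 5) (.cons (.rel (nat_lit 8623751424)) .nil)) .nil)) (.node (.node (.node (.node .leaf (nat_lit 2833673959870496) (.br (nat_lit 1) (.cons (.br (nat_lit 2) (.cons (.rel (nat_lit 100663365)) .nil)) .nil)) .leaf) (nat_lit 2833674698067968) (.br (nat_lit 1) (.cons (.br (nat_lit 2) (.cons (.rel (nat_lit 85999680)) .nil)) .nil)) .leaf) (nat_lit 2833674698735118) (.br (nat_lit 2) (.cons (.br (nat_lit 3) (.cons (.rel (nat_lit 335611140)) .nil)) .nil)) (.node (.node .leaf (nat_lit 2833674698999808) (.br (nat_lit 2) (.cons (.br (nat_lit 4) (.cons (.rel (nat_lit 1140852744)) .nil)) .nil)) .leaf) (nat_lit 2833676800582263) (.br (nat_lit 1) (.cons (.br (nat_lit 2) (.cons (.rel (nat_lit 83919105)) .nil)) .nil)) .leaf)) (nat_lit 2833679312969728) (.br (nat_lit 1) (.cons (.br (nat_lit 2) (.cons (.rel (nat_lit 151060545)) (.cons (.rel (nat_lit 83906820)) (.cons (.rel (nat_lit 83919105)) .nil)))) (.cons (.br (nat_lit 2) (.cons (.rel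 (nat_lit 85463040)) (.cons (.rel (nat_lit 83919105)) (.cons (.rel (nat_lit 83952960)) .nil)))) .nil))) (.node (.node (.node .leaf (nat_lit 2833679313995103) (.br (nat_lit 2) (.cons (.br (nat_lit 5) (.cons (.rel (nat_lit 8657060868)) .nil)) .nil)) .leaf) (nat_lit 2833949030715392) (.br (nat_lit 2) (.cons (.br (nat_lit 5) (.cons (.rel (nat_lit 4429185156)) (.cons (.rel (nat_lit 4362096897)) (.cons (.rel (nat_lit 4362084612)) .nil)))) .nil)) .leaf) (nat_lit 2833949030715453) (.br (nat_lit 2) (.cons (.br (nat_lit 5) (.cons (.rel (nat_lit 4429185156)) .nil)) .nil)) (.node (.node .leaf (nat_lit 2833951678489852) (.br (nat_lit 2) (.cons (.br (nat_lit 5) (.cons (.rel (nat_lit 4362096897)) .nil)) .nil)) .leaf) (nat_lit 2833951678613504) (.br (nat_lit 0) (.cons (.br (nat_lit 2) (.cons (.rel (nat_lit 73531392)) .nil)) .nil)) .leaf)))) (nat_lit 2837974280265728) (.br (nat_lit 0) (.cons (.br (nat_lit 1) (.cons (.rel (nat_lit 37749762)) .nil)) .nil)) (.node (.node (.node (.node (.node .leaf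 (nat_lit 2838226274928640) (.br (nat_lit 0) (.cons (.br (nat_lit 2) (.cons (.rel (nat_lit 71630976)) .nil)) .nil)) .leaf) (nat_lit 2838228921535726) (.br (nat_lit 2) (.cons (.br (nat_lit 5) (.cons (.rel (nat_lit 8657047569)) .nil)) .nil)) .leaf) (nat_lit 2839094402703360) (.br (nat_lit 1) (.cons (.br (nat_lit 5) (.cons (.rel (nat_lit 4313858052)) .nil)) .nil)) (.node (.node .leaf (nat_lit 2839099561697280) (.br (nat_lit 3) (.cons (.br (nat_lit 1) (.cons (.rel (nat_lit 285213960)) (.cons (.rel (nat_lit 553652241)) .nil))) .nil)) .leaf) (nat_lit 2839099561822240) (.br (nat_lit 2) (.cons (.br (nat_lit 5) (.cons (.rel (nat_lit 8657043528)) .nil)) .nil)) .leaf)) (nat_lit 2839099618625798) (.br (nat_lit 1) (.cons (.br (nat_lit 2) (.cons (.rel (nat_lit 83886480)) .nil)) .nil)) (.node (.node (.node .leaf (nat_lit 2839099620417568) (.br (nat_lit 0) (.cons (.br (nat_lit 5) (.cons (.rel (nat_lit 4299423873)) .nil)) .nil)) .leaf) (nat_lit 2839099620418798) (.br (nat_lit 1) (.cons (.br (nat_lit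 2) (.cons (.rel (nat_lit 84148260)) .nil)) .nil)) .leaf) (nat_lit 2839214660620288) (.br (nat_lit 2) (.cons (.br (nat_lit 5) (.cons (.rel (nat_lit 4362354816)) (.cons (.rel (nat_lit 4362354816)) .nil))) .nil)) (.node (.node .leaf (nat_lit 2839214661787648) (.br (nat_lit 6) (.cons (.br (nat_lit 0) (.cons (.rel (nat_lit 17184346128)) (.cons (.rel (nat_lit 34363934724)) .nil))) .nil)) .leaf) (nat_lit 2839214661912637) (.br (nat_lit 2) (.cons (.br (nat_lit 3) (.cons (.rel (nat_lit 336069120)) .nil)) .nil)) .leaf))) (nat_lit 2839214661913838) (.br (nat_lit 1) (.cons (.br (nat_lit 2) (.cons (.rel (nat_lit 84217920)) .nil)) .nil)) (.node (.node (.node (.node .leaf (nat_lit 2839219819554877) (.br (nat_lit 1) (.cons (.br (nat_lit 2) (.cons (.rel (nat_lit 100680705)) .nil)) .nil)) .leaf) (nat_lit 2839219820781568) (.br (nat_lit 1) (.cons (.br (nat_lit 2) (.cons (.rel (nat_lit 151060545)) (.cons (.rel (nat_lit 83906820)) .nil))) (.cons (.br (nat_lit 2) (.cons (.rel (nat_lit 85463040)) (.cons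 (.rel (nat_lit 100728840)) .nil))) .nil))) .leaf) (nat_lit 2839219821806943) (.br (nat_lit 1) (.cons (.br (nat_lit 5) (.cons (.rel (nat_lit 4312010817)) .nil)) .nil)) (.node (.node .leaf (nat_lit 2840073655011590) (.br (nat_lit 1) (.cons (.br (nat_lit 2) (.cons (.rel (nat_lit 100663365)) .nil)) .nil)) .leaf) (nat_lit 2840073656066179) (.br (nat_lit 1) (.cons (.br (nat_lit 5) (.cons (.rel (nat_lit 4328558592)) .nil)) .nil)) .leaf)) (nat_lit 2840159552851968) (.br (nat_lit 0) (.cons (.br (nat_lit 2) (.cons (.rel (nat_lit 138412176)) .nil)) .nil)) (.node (.node (.node .leaf (nat_lit 2843517674637943) (.br (nat_lit 2) (.cons (.br (nat_lit 3) (.cons (.rel (nat_lit 336069120)) .nil)) .nil)) .leaf) (nat_lit 2843517674638574) (.br (nat_lit 0) (.cons (.br (nat_lit 5) (.cons (.rel (nat_lit 4303355940)) .nil)) .nil)) .leaf) (nat_lit 2843522955266679) (.br (nat_lit 0) (.cons (.br (nat_lit 1) (.cons (.rel (nat_lit 21233796)) .nil)) .nil)) (.node (.node .leaf (nat_lit 2845752146104320) (.br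 (nat_lit 1) (.cons (.br (nat_lit 2) (.cons (.rel (nat_lit 85999680)) .nil)) .nil)) .leaf) (nat_lit 2845752146771472) (.br (nat_lit 0) (.cons (.br (nat_lit 1) (.cons (.rel (nat_lit 37748757)) .nil)) .nil)) .leaf)))))

/-- refutations 18 -/
def e18 : EX := (.node (.node (.node (.node (.node (.node (.node .leaf (nat_lit 3113875000020992) (.br (nat_lit 0) (.cons (.br (nat_lit 4) (.cons (.rel (nat_lit 1077941316)) .nil)) .nil)) .leaf) (nat_lit 3113875000524064) (.br (nat_lit 0) (.cons (.br (nat_lit 1) (.cons (.rel (nat_lit 21303312)) .nil)) .nil)) .leaf) (nat_lit 3114309419321975) (.br (nat_lit 3) (.cons (.br (nat_lit 6) (.cons (.rel (nat_lit 17448304902)) (.cons (.rel (nat_lit 17448329472)) .nil))) .nil)) (.node (.node .leaf (nat_lit 3114990452656154) (.br (nat_lit 0) (.cons (.br (nat_lit 2) (.cons (.rel (nat_lit 75513858)) .nil)) .nil)) .leaf) (nat_lit 3115417852735489) (.br (nat_lit 0) (.cons (.br (nat_lit 1) (.cons (.rel (nat_lit 37756992)) .nil)) .nil)) .leaf)) (nat_lit 3116187756057888)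 (.br (nat_lit 0) (.cons (.br (nat_lit 3) (.cons (.rel (nat_lit 542114112)) .nil)) .nil)) (.node (.node (.node .leaf (nat_lit 3116187756126234) (.br (nat_lit 0) (.cons (.br (nat_lit 5) (.cons (.rel (nat_lit 4303356945)) (.cons (.rel (nat_lit 4299423873)) .nil))) .nil)) .leaf) (nat_lit 3116187757283328) (.br (nat_lit 0) (.cons (.br (nat_lit 6) (.cons (.rel (nat_lit 17188257810)) (.cons (.rel (nat_lit 34368389376)) .nil))) .nil)) .leaf) (nat_lit 3116187757284254) (.br (nat_lit 0) (.cons (.br (nat_lit 3) (.cons (.rel (nat_lit 272631057)) (.cons (.rel (nat_lit 272631057)) .nil))) .nil)) (.node (.node .leaf (nat_lit 3116187757651968) (.br (nat_lit 2) (.cons (.br (nat_lit 3) (.cons (.rel (nat_lit 336069120)) .nil)) .nil)) .leaf) (nat_lit 3116187757651994) (.br (nat_lit 6) (.cons (.br (nat_lit 3) (.cons (.rel (nat_lit 34897678416)) (.cons (.rel (nat_lit 17448329472)) (.cons (.rel (nat_lit 34628173968)) .nil)))) .nil)) .leaf))) (nat_lit 3116187757652253) (.br (nat_lit 2) (.cons (.br (nat_lit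 3) (.cons (.rel (nat_lit 336069120)) (.cons (.rel (nat_lit 335550720)) .nil))) .nil)) (.node (.node (.node (.node .leaf (nat_lit 3116187757652894) (.br (nat_lit 3) (.cons (.br (nat_lit 2) (.cons (.rel (nat_lit 336069120)) (.cons (.rel (nat_lit 336069120)) (.cons (.rel (nat_lit 335611140)) .nil)))) .nil)) .leaf) (nat_lit 3116187757867293) (.br (nat_lit 0) (.cons (.br (nat_lit 3) (.cons (.rel (nat_lit 273679872)) .nil)) .nil)) .leaf) (nat_lit 3116187757868434) (.br (nat_lit 0) (.cons (.br (nat_lit 1) (.cons (.rel (nat_lit 21038352)) .nil)) .nil)) (.node (.node .leaf (nat_lit 3116187758842141) (.br (nat_lit 3) (.cons (.br (nat_lit 6) (.cons (.rel (nat_lit 34628206593)) .nil)) .nil)) .leaf) (nat_lit 3116187758843168) (.br (nat_lit 3) (.cons (.br (nat_lit 5) (.cons (.rel (nat_lit 8858374224)) .nil)) .nil)) .leaf)) (nat_lit 3116187759177728) (.br (nat_lit 2) (.cons (.br (nat_lit 3) (.cons (.rel (nat_lit 337657860)) .nil)) .nil)) (.node (.node (.node .leaf (nat_lit 3116191530897434)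 (.br (nat_lit 3) (.cons (.br (nat_lit 6) (.cons (.rel (nat_lit 17448304902)) .nil)) .nil)) .leaf) (nat_lit 3116191530999834) (.br (nat_lit 0) (.cons (.br (nat_lit 3) (.cons (.rel (nat_lit 272630052)) .nil)) .nil)) .leaf) (nat_lit 3116191531514531) (.br (nat_lit 0) (.cons (.br (nat_lit 2) (.cons (.rel (nat_lit 71565321)) .nil)) .nil)) (.node (.node .leaf (nat_lit 3116191532525568) (.br (nat_lit 6) (.cons (.br (nat_lit 0) (.cons (.rel (nat_lit 17188257810)) (.cons (.rel (nat_lit 34368389376)) .nil))) .nil)) .leaf) (nat_lit 3116191532525594) (.br (nat_lit 6) (.cons (.br (nat_lit 0) (.cons (.rel (nat_lit 17184069888)) (.cons (.rel (nat_lit 34368389376)) .nil))) .nil)) .leaf)))) (nat_lit 3116191532526224) (.br (nat_lit 0) (.cons (.br (nat_lit 3) (.cons (.rel (nat_lit 546456576)) .nil)) .nil)) (.node (.node (.node (.node (.node .leaf (nat_lit 3116191532526970) (.br (nat_lit 2) (.cons (.br (nat_lit 3) (.cons (.rel (nat_lit 336069120)) .nil)) .nil)) .leaf) (nat_lit 3116191533816734)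 (.br (nat_lit 0) (.cons (.br (nat_lit 2) (.cons (.rel (nat_lit 71373057)) .nil)) .nil)) .leaf) (nat_lit 3116397313468416) (.br (nat_lit 0) (.cons (.br (nat_lit 2) (.cons (.rel (nat_lit 71630976)) .nil)) .nil)) (.node (.node .leaf (nat_lit 3116397317663350) (.br (nat_lit 1) (.cons (.br (nat_lit 0) (.cons (.rel (nat_lit 25170048)) (.cons (.rel (nat_lit 21364737)) .nil))) .nil)) .leaf) (nat_lit 3116400438225157) (.br (nat_lit 5) (.cons (.br (nat_lit 6) (.cons (.rel (nat_lit 21475889664)) (.cons (.rel (nat_lit 38654705685)) .nil))) .nil)) .leaf)) (nat_lit 3116400438226157) (.br (nat_lit 6) (.cons (.br (nat_lit 1) (.cons (.rel (nat_lit 34376536128)) (.cons (.rel (nat_lit 17196909696)) .nil))) .nil)) (.node (.node (.node .leaf (nat_lit 3116400439249157) (.br (nat_lit 0) (.cons (.br (nat_lit 6) (.cons (.rel (nat_lit 34363934724)) .nil)) .nil)) .leaf) (nat_lit 3120689637330157) (.br (nat_lit 3) (.cons (.br (nat_lit 1) (.cons (.rel (nat_lit 553713666)) (.cons (.rel (nat_lit 285491205))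 .nil))) .nil)) .leaf) (nat_lit 3120689638353157) (.br (nat_lit 1) (.cons (.br (nat_lit 3) (.cons (.rel (nat_lit 570687813)) .nil)) .nil)) (.node (.node .leaf (nat_lit 3120689638354157) (.br (nat_lit 0) (.cons (.br (nat_lit 3) (.cons (.rel (nat_lit 276845568)) (.cons (.rel (nat_lit 272699712)) (.cons (.rel (nat_lit 276840513)) (.cons (.rel (nat_lit 272957442)) .nil))))) .nil)) .leaf) (nat_lit 3120689638568592) (.br (nat_lit 0) (.cons (.br (nat_lit 1) (.cons (.rel (nat_lit 21303312)) .nil)) .nil)) .leaf))) (nat_lit 3120689639377157) (.br (nat_lit 0) (.cons (.br (nat_lit 1) (.cons (.rel (nat_lit 25167873)) .nil)) .nil)) (.node (.node (.node (.node .leaf (nat_lit 3121814918156288) (.br (nat_lit 0) (.cons (.br (nat_lit 1) (.cons (.rel (nat_lit 21233796)) .nil)) .nil)) .leaf) (nat_lit 3121814918258688) (.br (nat_lit 6) (.cons (.br (nat_lit 1) (.cons (.rel (nat_lit 17196916737)) (.cons (.rel (nat_lit 34376515608)) .nil))) .nil)) .leaf) (nat_lit 3121814918258949) (.br (nat_lit 0) (.cons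 (.br (nat_lit 1) (.cons (.rel (nat_lit 20975877)) .nil)) .nil)) (.node (.node .leaf (nat_lit 3121814919417210) (.br (nat_lit 0) (.cons (.br (nat_lit 2) (.cons (.rel (nat_lit 71337216)) .nil)) .nil)) .leaf) (nat_lit 3121814919784480) (.br (nat_lit 1) (.cons (.br (nat_lit 4) (.cons (.rel (nat_lit 1090600965)) .nil)) .nil)) .leaf)) (nat_lit 3121814919785078) (.br (nat_lit 1) (.cons (.br (nat_lit 0) (.cons (.rel (nat_lit 20988162)) (.cons (.rel (nat_lit 20975877)) .nil))) .nil)) (.node (.node (.node .leaf (nat_lit 3121814919785709) (.br (nat_lit 5) (.cons (.br (nat_lit 0) (.cons (.rel (nat_lit 4299165954)) (.cons (.rel (nat_lit 8594128920)) (.cons (.rel (nat_lit 8594128920)) .nil)))) (.cons (.br (nat_lit 0) (.cons (.rel (nat_lit 4299165954)) (.cons (.rel (nat_lit 4299423873)) (.cons (.rel (nat_lit 4299165954)) .nil)))) .nil))) .leaf) (nat_lit 3121814920808709) (.br (nat_lit 6) (.cons (.br (nat_lit 0) (.cons (.rel (nat_lit 17184069888)) (.cons (.rel (nat_lit 34364067840)) .nil)))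 .nil)) .leaf) (nat_lit 3121820685928709) (.br (nat_lit 0) (.cons (.br (nat_lit 5) (.cons (.rel (nat_lit 4299165954)) .nil)) .nil)) (.node .leaf (nat_lit 3121820685929709) (.br (nat_lit 0) (.cons (.br (nat_lit 5) (.cons (.rel (nat_lit 4301324289)) .nil)) .nil)) .leaf))))) (nat_lit 3121820686952449) (.br (nat_lit 1) (.cons (.br (nat_lit 5) (.cons (.rel (nat_lit 8623751424)) .nil)) .nil)) (.node (.node (.node (.node (.node (.node .leaf (nat_lit 3121820686953709) (.br (nat_lit 0) (.cons (.br (nat_lit 5) (.cons (.rel (nat_lit 4299165954)) (.cons (.rel (nat_lit 4299165954)) (.cons (.rel (nat_lit 4301324289)) .nil)))) (.cons (.br (nat_lit 4) (.cons (.rel (nat_lit 1077944352)) (.cons (.rel (nat_lit 1078067202)) (.cons (.rel (nat_lit 1078067202)) .nil)))) .nil))) .leaf) (nat_lit 3121820688386109) (.br (nat_lit 1) (.cons (.br (nat_lit 5) (.cons (.rel (nat_lit 8606711814)) .nil)) .nil)) .leaf) (nat_lit 3124855142627354) (.br (nat_lit 1) (.cons (.br (nat_lit 6) (.cons (.rel (nat_lit 17196663057))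 (.cons (.rel (nat_lit 17196646722)) (.cons (.rel (nat_lit 17196646722)) .nil)))) .nil)) (.node (.node .leaf (nat_lit 3124855145286307) (.br (nat_lit 1) (.cons (.br (nat_lit 5) (.cons (.rel (nat_lit 4312015872)) .nil)) .nil)) .leaf) (nat_lit 3124855145760794) (.br (nat_lit 0) (.cons (.br (nat_lit 1) (.cons (.rel (nat_lit 25170048)) .nil)) .nil)) .leaf)) (nat_lit 3124984604002979) (.br (nat_lit 2) (.cons (.br (nat_lit 3) (.cons (.rel (nat_lit 336069120)) .nil)) .nil)) (.node (.node (.node .leaf (nat_lit 3124984604624896) (.br (nat_lit 2) (.cons (.br (nat_lit 3) (.cons (.rel (nat_lit 335815680)) (.cons (.rel (nat_lit 335544660)) .nil))) (.cons (.br (nat_lit 3) (.cons (.rel (nat_lit 603984960)) (.cons (.rel (nat_lit 671351040)) .nil))) .nil))) .leaf) (nat_lit 3124984604625157) (.br (nat_lit 3) (.cons (.br (nat_lit 1) (.cons (.rel (nat_lit 285212946)) (.cons (.rel (nat_lit 553652241)) .nil))) .nil)) .leaf) (nat_lit 3124984604626157) (.br (nat_lit 0) (.cons (.br (nat_lit 1) (.cons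 (.rel (nat_lit 23068737)) (.cons (.rel (nat_lit 21251136)) .nil))) .nil)) (.node (.node .leaf (nat_lit 3124984605296029) (.br (nat_lit 0) (.cons (.br (nat_lit 1) (.cons (.rel (nat_lit 23134212)) .nil)) .nil)) .leaf) (nat_lit 3124984605648948) (.br (nat_lit 3) (.cons (.br (nat_lit 5) (.cons (.rel (nat_lit 4831838277)) .nil)) .nil)) .leaf))) (nat_lit 3124984605649071) (.br (nat_lit 4) (.cons (.br (nat_lit 5) (.cons (.rel (nat_lit 5368718337)) .nil)) .nil)) (.node (.node (.node (.node .leaf (nat_lit 3124984605649157) (.br (nat_lit 0) (.cons (.br (nat_lit 3) (.cons (.rel (nat_lit 541070352)) (.cons (.br (nat_lit 2) (.cons (.rel (nat_lit 603979905)) (.cons (.rel (nat_lit 71565321)) (.cons (.rel (nat_lit 71567376)) .nil)))) .nil))) (.cons (.br (nat_lit 5) (.cons (.rel (nat_lit 4301262864)) (.cons (.rel (nat_lit 4299165954)) (.cons (.rel (nat_lit 4299227424)) (.cons (.rel (nat_lit 4299165954)) .nil))))) .nil))) .leaf) (nat_lit 3124984605649181) (.br (nat_lit 2) (.cons (.br (nat_lit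 0) (.cons (.rel (nat_lit 71565321)) (.cons (.rel (nat_lit 71565321)) .nil))) .nil)) .leaf) (nat_lit 3124984605649552) (.br (nat_lit 0) (.cons (.br (nat_lit 2) (.cons (.rel (nat_lit 71311632)) .nil)) .nil)) (.node (.node .leaf (nat_lit 3124984605650157) (.br (nat_lit 0) (.cons (.br (nat_lit 5) (.cons (.rel (nat_lit 4303356945)) (.cons (.rel (nat_lit 4301324289)) (.cons (.rel (nat_lit 4299165954)) (.cons (.rel (nat_lit 4299165954)) .nil))))) (.cons (.br (nat_lit 2) (.cons (.rel (nat_lit 71565321)) (.cons (.rel (nat_lit 71565321)) (.cons (.rel (nat_lit 71311632)) .nil)))) .nil))) .leaf) (nat_lit 3124984605650298) (.br (nat_lit 2) (.cons (.br (nat_lit 3) (.cons (.rel (nat_lit 402653250)) .nil)) .nil)) .leaf)) (nat_lit 3124984605650333) (.br (nat_lit 0) (.cons (.br (nat_lit 1) (.cons (.rel (nat_lit 25170048)) .nil)) .nil)) (.node (.node (.node .leaf (nat_lit 3124984605864592) (.br (nat_lit 2) (.cons (.br (nat_lit 3) (.cons (.rel (nat_lit 335544660)) .nil)) .nil)) .leaf) (nat_lit 3124984605864862)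 (.br (nat_lit 2) (.cons (.br (nat_lit 3) (.cons (.rel (nat_lit 335545665)) .nil)) .nil)) .leaf) (nat_lit 3124984605865248) (.br (nat_lit 2) (.cons (.br (nat_lit 3) (.cons (.rel (nat_lit 336069120)) .nil)) .nil)) (.node (.node .leaf (nat_lit 3124984606673157) (.br (nat_lit 1) (.cons (.br (nat_lit 2) (.cons (.br (nat_lit 3) (.cons (.rel (nat_lit 285475920)) (.cons (.rel (nat_lit 402653250)) .nil))) (.cons (.rel (nat_lit 100680705)) .nil))) .nil)) .leaf) (nat_lit 3124984606673181) (.br (nat_lit 0) (.cons (.br (nat_lit 1) (.cons (.rel (nat_lit 20988162)) .nil)) .nil)) .leaf)))) (nat_lit 3124984606673571) (.br (nat_lit 0) (.cons (.br (nat_lit 1) (.cons (.rel (nat_lit 23068737)) .nil)) .nil)) (.node (.node (.node (.node (.node .leaf (nat_lit 3124984606674157) (.br (nat_lit 1) (.cons (.br (nat_lit 6) (.cons (.rel (nat_lit 17196909696)) (.cons (.rel (nat_lit 17196909696)) (.cons (.rel (nat_lit 17213424657)) (.cons (.rel (nat_lit 17196941316)) .nil))))) (.cons (.br (nat_lit 0) (.cons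 (.rel (nat_lit 20975877)) (.cons (.rel (nat_lit 23073792)) (.cons (.rel (nat_lit 37756992)) .nil)))) .nil))) .leaf) (nat_lit 3124989622036480) (.br (nat_lit 3) (.cons (.br (nat_lit 6) (.cons (.rel (nat_lit 17448304902)) .nil)) .nil)) .leaf) (nat_lit 3124989622037136) (.br (nat_lit 2) (.cons (.br (nat_lit 3) (.cons (.rel (nat_lit 671351040)) .nil)) .nil)) (.node (.node .leaf (nat_lit 3124989622037406) (.br (nat_lit 0) (.cons (.br (nat_lit 4) (.cons (.rel (nat_lit 1078005777)) .nil)) .nil)) .leaf) (nat_lit 3124992648798208) (.br (nat_lit 0) (.cons (.br (nat_lit 1) (.cons (.rel (nat_lit 20988162)) .nil)) .nil)) .leaf)) (nat_lit 3124992649033729) (.br (nat_lit 0) (.cons (.br (nat_lit 3) (.cons (.rel (nat_lit 272777472)) .nil)) .nil)) (.node (.node (.node .leaf (nat_lit 3124992651347968) (.br (nat_lit 0) (.cons (.br (nat_lit 1) (.cons (.rel (nat_lit 23085072)) .nil)) .nil)) .leaf) (nat_lit 3124992651348599) (.br (nat_lit 1) (.cons (.br (nat_lit 3) (.cons (.rel (nat_lit 285491205))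 (.cons (.rel (nat_lit 285213960)) .nil))) .nil)) .leaf) (nat_lit 3124992651850359) (.br (nat_lit 0) (.cons (.br (nat_lit 1) (.cons (.rel (nat_lit 20971872)) .nil)) .nil)) (.node (.node .leaf (nat_lit 3126115104795254) (.br (nat_lit 0) (.cons (.br (nat_lit 1) (.cons (.rel (nat_lit 20988162)) .nil)) .nil)) .leaf) (nat_lit 3126115104795885) (.br (nat_lit 1) (.cons (.br (nat_lit 5) (.cons (.rel (nat_lit 8623751424)) .nil)) .nil)) .leaf))) (nat_lit 3126115652722689) (.br (nat_lit 0) (.cons (.br (nat_lit 2) (.cons (.rel (nat_lit 75497568)) .nil)) .nil)) (.node (.node (.node (.node .leaf (nat_lit 3126115652958209) (.br (nat_lit 0) (.cons (.br (nat_lit 1) (.cons (.rel (nat_lit 20975877)) .nil)) .nil)) .leaf) (nat_lit 3126115653224709) (.br (nat_lit 0) (.cons (.br (nat_lit 5) (.cons (.rel (nat_lit 4299227424)) .nil)) .nil)) .leaf) (nat_lit 3126115653955759) (.br (nat_lit 3) (.cons (.br (nat_lit 4) (.cons (.rel (nat_lit 1342193670)) .nil)) .nil)) (.node (.node .leaf (nat_lit 3126115654249709)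 (.br (nat_lit 0) (.cons (.br (nat_lit 1) (.cons (.rel (nat_lit 20988162)) (.cons (.rel (nat_lit 23073792)) .nil))) .nil)) .leaf) (nat_lit 3126115655272709) (.br (nat_lit 0) (.cons (.br (nat_lit 1) (.cons (.br (nat_lit 5) (.cons (.rel (nat_lit 4299227424)) (.cons (.br (nat_lit 3) (.cons (.rel (nat_lit 272957442)) (.cons (.rel (nat_lit 542114112)) (.cons (.rel (nat_lit 4563681282)) .nil)))) .nil))) (.cons (.rel (nat_lit 23073792)) .nil))) .nil)) .leaf)) (nat_lit 3126115655273709) (.br (nat_lit 0) (.cons (.br (nat_lit 1) (.cons (.rel (nat_lit 21233796)) (.cons (.rel (nat_lit 21364737)) .nil))) (.cons (.br (nat_lit 1) (.cons (.rel (nat_lit 20988162)) (.cons (.rel (nat_lit 23073792)) .nil))) .nil))) (.node (.node (.node .leaf (nat_lit 3126115655273850) (.br (nat_lit 0) (.cons (.br (nat_lit 1) (.cons (.rel (nat_lit 21364737)) .nil)) .nil)) .leaf) (nat_lit 3126115655538688) (.br (nat_lit 0) (.cons (.br (nat_lit 3) (.cons (.rel (nat_lit 272699712)) (.cons (.rel (nat_lit 272631057)) .nil)))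 .nil)) .leaf) (nat_lit 3126724788824064) (.br (nat_lit 3) (.cons (.br (nat_lit 4) (.cons (.rel (nat_lit 1342218240)) .nil)) .nil)) (.node .leaf (nat_lit 3126724788824221) (.br (nat_lit 0) (.cons (.br (nat_lit 2) (.cons (.rel (nat_lit 71567376)) .nil)) .nil)) .leaf))))))

/-- refutations 19 -/
def e19 : EX := (.node (.node .leaf (nat_lit 4615910353266689) (.br (nat_lit 0) (.cons (.br (nat_lit 3) (.cons (.rel (nat_lit 272699712)) (.cons (.rel (nat_lit 276845568)) .nil))) .nil)) .leaf) (nat_lit 4615910353522939) (.br (nat_lit 0) (.cons (.br (nat_lit 1) (.cons (.rel (nat_lit 20975877)) .nil)) .nil)) (.node .leaf (nat_lit 4622043990398976) (.br (nat_lit 1) (.cons (.br (nat_lit 5) (.cons (.rel (nat_lit 4312010817)) .nil)) .nil)) .leaf))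

/-- refutations 20 -/
def e20 : EX := (.node (.node (.node (.node (.node .leaf (nat_lit 4838069736114238) (.br (nat_lit 0) (.cons (.br (nat_lit 1) (.cons (.rel (nat_lit 23085072)) .nil)) .nil)) .leaf) (nat_lit 4838069737136390) (.br (nat_lit 1) (.cons (.br (nat_lit 5) (.cons (.rel (nat_lit 4311745857)) .nil)) .nil)) (.node .leaf (nat_lit 4838069737434363) (.br (nat_lit 2) (.cons (.br (nat_lit 5) (.cons (.rel (nat_lit 4362142032)) .nil)) .nil)) .leaf)) (nat_lit 4838069737702913) (.br (nat_lit 0) (.cons (.br (nat_lit 1) (.cons (.rel (nat_lit 38797572)) .nil)) .nil)) (.node (.node .leaf (nat_lit 4838069738416128) (.br (nat_lit 0) (.cons (.br (nat_lit 1) (.cons (.rel (nat_lit 21233796)) .nil)) .nil)) .leaf) (nat_lit 4840320169918726) (.br (nat_lit 5) (.cons (.br (nat_lit 1) (.cons (.rel (nat_lit 4311745857)) (.cons (.rel (nat_lit 8606736384)) .nil))) .nil)) .leaf)) (nat_lit 4840320354525459) (.br (nat_lit 1) (.cons (.br (nat_lit 2) (.cons (.rel (nat_lit 151060545)) .nil)) .nil))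 (.node (.node (.node .leaf (nat_lit 4840431969150363) (.br (nat_lit 5) (.cons (.br (nat_lit 0) (.cons (.rel (nat_lit 8594227200)) (.cons (.rel (nat_lit 4299163968)) .nil))) .nil)) .leaf) (nat_lit 4843753497149441) (.br (nat_lit 0) (.cons (.br (nat_lit 1) (.cons (.rel (nat_lit 37749762)) .nil)) .nil)) .leaf) (nat_lit 4843755853417078) (.br (nat_lit 1) (.cons (.br (nat_lit 4) (.cons (.rel (nat_lit 1091600640)) .nil)) .nil)) (.node (.node .leaf (nat_lit 4849018836683689) (.br (nat_lit 1) (.cons (.br (nat_lit 3) (.cons (.rel (nat_lit 285286656)) .nil)) .nil)) .leaf) (nat_lit 4849018836979712) (.br (nat_lit 1) (.cons (.br (nat_lit 2) (.cons (.rel (nat_lit 83906820)) .nil)) .nil)) .leaf))) (nat_lit 4849018837647422) (.br (nat_lit 0) (.cons (.br (nat_lit 3) (.cons (.rel (nat_lit 272957442)) .nil)) .nil)) (.node (.node (.node (.node .leaf (nat_lit 4849018837647635) (.br (nat_lit 0) (.cons (.br (nat_lit 1) (.cons (.rel (nat_lit 21364737)) .nil)) .nil)) .leaf) (nat_lit 4849018837648166)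 (.br (nat_lit 2) (.cons (.br (nat_lit 5) (.cons (.rel (nat_lit 8658096384)) .nil)) .nil)) (.node .leaf (nat_lit 4849018837648297) (.br (nat_lit 2) (.cons (.br (nat_lit 1) (.cons (.rel (nat_lit 85999680)) (.cons (.rel (nat_lit 83919105)) (.cons (.rel (nat_lit 100663365)) (.cons (.rel (nat_lit 83886480)) .nil))))) .nil)) .leaf)) (nat_lit 4849018837648666) (.br (nat_lit 0) (.cons (.br (nat_lit 1) (.cons (.rel (nat_lit 38822145)) .nil)) .nil)) (.node (.node .leaf (nat_lit 4849018837648667) (.br (nat_lit 5) (.cons (.br (nat_lit 1) (.cons (.rel (nat_lit 8606712864)) (.cons (.rel (nat_lit 8606711814)) .nil))) .nil)) .leaf) (nat_lit 4849018837648912) (.br (nat_lit 3) (.cons (.br (nat_lit 2) (.cons (.rel (nat_lit 335545665)) (.cons (.rel (nat_lit 603979905)) (.cons (.rel (nat_lit 335888385)) .nil)))) .nil)) .leaf)) (nat_lit 4849018839294582) (.br (nat_lit 1) (.cons (.br (nat_lit 3) (.cons (.rel (nat_lit 285286656)) .nil)) .nil)) (.node (.node (.node .leaf (nat_lit 4849018839502107) (.br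 (nat_lit 1) (.cons (.br (nat_lit 3) (.cons (.rel (nat_lit 285213960)) .nil)) .nil)) .leaf) (nat_lit 4849021958209598) (.br (nat_lit 0) (.cons (.br (nat_lit 1) (.cons (.rel (nat_lit 20988162)) .nil)) .nil)) .leaf) (nat_lit 4849021958209842) (.br (nat_lit 0) (.cons (.br (nat_lit 1) (.cons (.rel (nat_lit 37748757)) (.cons (.rel (nat_lit 20975877)) .nil))) (.cons (.br (nat_lit 1) (.cons (.rel (nat_lit 20988162)) (.cons (.rel (nat_lit 23134212)) .nil))) .nil))) (.node (.node .leaf (nat_lit 4850146765685042) (.br (nat_lit 0) (.cons (.br (nat_lit 3) (.cons (.rel (nat_lit 272957442)) .nil)) .nil)) .leaf) (nat_lit 4851014344885161) (.br (nat_lit 0) (.cons (.br (nat_lit 3) (.cons (.rel (nat_lit 541081632)) .nil)) .nil)) .leaf))))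

/-- refutations 21 -/
def e21 : EX := (.node (.node (.node (.node (.node (.node (.node .leaf (nat_lit 5383261230286305) (.br (nat_lit 0) (.cons (.br (nat_lit 1) (.cons (.rel (nat_lit 21303312)) .nil)) .nil)) .leaf) (nat_lit 5383689974442165) (.br (nat_lit 0) (.cons (.br (nat_lit 4) (.cons (.rel (nat_lit 1077941316)) .nil)) .nil)) .leaf) (nat_lit 5383689976185117) (.br (nat_lit 2) (.cons (.br (nat_lit 6) (.cons (.rel (nat_lit 17247338496)) .nil)) .nil)) (.node (.node .leaf (nat_lit 5383689976992375) (.br (nat_lit 0) (.cons (.br (nat_lit 4) (.cons (.rel (nat_lit 1077936261)) .nil)) .nil)) .leaf) (nat_lit 5383692822374562) (.br (nat_lit 0) (.cons (.br (nat_lit 1) (.cons (.rel (nat_lit 21233796)) .nil)) .nil)) .leaf)) (nat_lit 5383692822374685) (.br (nat_lit 6) (.cons (.br (nat_lit 0) (.cons (.rel (nat_lit 34368389376)) (.cons (.rel (nat_lit 17184063828)) .nil))) .nil)) (.node (.node (.node .leaf (nat_lit 5383692822375030) (.br (nat_lit 3) (.cons (.br (nat_lit 0) (.cons (.br (nat_lit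 1) (.cons (.rel (nat_lit 574881792)) (.cons (.rel (nat_lit 301990020)) (.cons (.rel (nat_lit 21251136)) (.cons (.rel (nat_lit 287309856)) .nil))))) (.cons (.rel (nat_lit 273679872)) (.cons (.rel (nat_lit 273679872)) (.cons (.rel (nat_lit 272891976)) .nil))))) .nil)) .leaf) (nat_lit 5383692822375837) (.br (nat_lit 1) (.cons (.br (nat_lit 5) (.cons (.rel (nat_lit 4312010817)) .nil)) .nil)) .leaf) (nat_lit 5383692822580452) (.br (nat_lit 0) (.cons (.br (nat_lit 2) (.cons (.rel (nat_lit 71602176)) .nil)) .nil)) (.node .leaf (nat_lit 5383692822876221) (.br (nat_lit 0) (.cons (.br (nat_lit 2) (.cons (.rel (nat_lit 71567376)) .nil)) .nil)) .leaf))) (nat_lit 5383692822876291) (.br (nat_lit 0) (.cons (.br (nat_lit 5) (.cons (.rel (nat_lit 4299428928)) (.cons (.rel (nat_lit 4299178248)) (.cons (.rel (nat_lit 4299428928)) .nil)))) (.cons (.br (nat_lit 2) (.cons (.rel (nat_lit 72876096)) (.cons (.rel (nat_lit 71319876)) (.cons (.rel (nat_lit 71337216)) .nil)))) .nil))) (.node (.node (.node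 (.node .leaf (nat_lit 5383692822877586) (.br (nat_lit 0) (.cons (.br (nat_lit 4) (.cons (.rel (nat_lit 1077941316)) .nil)) .nil)) .leaf) (nat_lit 5383692822877712) (.br (nat_lit 1) (.cons (.br (nat_lit 4) (.cons (.rel (nat_lit 1108362240)) (.cons (.rel (nat_lit 1109397768)) .nil))) .nil)) .leaf) (nat_lit 5383692823534829) (.br (nat_lit 1) (.cons (.br (nat_lit 2) (.cons (.rel (nat_lit 85463040)) .nil)) .nil)) (.node .leaf (nat_lit 5383692823580957) (.br (nat_lit 0) (.cons (.br (nat_lit 6) (.cons (.rel (nat_lit 17184063828)) .nil)) .nil)) .leaf)) (nat_lit 5383692823581933) (.br (nat_lit 0) (.cons (.br (nat_lit 4) (.cons (.rel (nat_lit 1077952596)) (.cons (.rel (nat_lit 1077941316)) .nil))) (.cons (.br (nat_lit 1) (.cons (.rel (nat_lit 23068737)) (.cons (.rel (nat_lit 20975877)) .nil))) .nil))) (.node (.node (.node .leaf (nat_lit 5383692823601183) (.br (nat_lit 0) (.cons (.br (nat_lit 1) (.cons (.rel (nat_lit 37748757)) .nil)) .nil)) .leaf) (nat_lit 5383692823900836) (.br (nat_lit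 0) (.cons (.br (nat_lit 2) (.cons (.rel (nat_lit 71565321)) .nil)) .nil)) .leaf) (nat_lit 5383692823900837) (.br (nat_lit 1) (.cons (.br (nat_lit 5) (.cons (.rel (nat_lit 4313858052)) .nil)) .nil)) (.node .leaf (nat_lit 5383692823901086) (.br (nat_lit 1) (.cons (.br (nat_lit 6) (.cons (.rel (nat_lit 17196941316)) .nil)) .nil)) .leaf)))) (nat_lit 5383692823901711) (.br (nat_lit 0) (.cons (.br (nat_lit 1) (.cons (.rel (nat_lit 23068737)) .nil)) .nil)) (.node (.node (.node (.node (.node .leaf (nat_lit 5383692824117405) (.br (nat_lit 2) (.cons (.br (nat_lit 0) (.cons (.br (nat_lit 3) (.cons (.rel (nat_lit 671351040)) (.cons (.rel (nat_lit 272891976)) .nil))) (.cons (.rel (nat_lit 71602176)) .nil))) .nil)) .leaf) (nat_lit 5383692824117429) (.br (nat_lit 0) (.cons (.br (nat_lit 2) (.cons (.rel (nat_lit 71319876)) .nil)) .nil)) .leaf) (nat_lit 5383692824117533) (.br (nat_lit 2) (.cons (.br (nat_lit 0) (.cons (.br (nat_lit 3) (.cons (.rel (nat_lit 604062720)) (.cons (.rel (nat_lit 272891976))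 .nil))) (.cons (.rel (nat_lit 71602176)) .nil))) .nil)) (.node (.node .leaf (nat_lit 5383692824117878) (.br (nat_lit 2) (.cons (.br (nat_lit 3) (.cons (.br (nat_lit 0) (.cons (.rel (nat_lit 272891976)) (.cons (.rel (nat_lit 272630052)) .nil))) .nil)) .nil)) .leaf) (nat_lit 5383692824118060) (.br (nat_lit 0) (.cons (.br (nat_lit 3) (.cons (.rel (nat_lit 541081632)) .nil)) .nil)) .leaf)) (nat_lit 5383692824118500) (.br (nat_lit 2) (.cons (.br (nat_lit 5) (.cons (.rel (nat_lit 8658096384)) .nil)) .nil)) (.node (.node (.node .leaf (nat_lit 5383692824167030) (.br (nat_lit 1) (.cons (.br (nat_lit 0) (.cons (.rel (nat_lit 21233796)) (.cons (.rel (nat_lit 37749762)) (.cons (.rel (nat_lit 37748757)) .nil)))) .nil)) .leaf) (nat_lit 5383692824821760) (.br (nat_lit 0) (.cons (.br (nat_lit 6) (.cons (.rel (nat_lit 17184329793)) .nil)) .nil)) .leaf) (nat_lit 5383692824924187) (.br (nat_lit 0) (.cons (.br (nat_lit 1) (.cons (.rel (nat_lit 25170048)) .nil)) .nil)) (.node .leaf (nat_lit 5383692824924337)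 (.br (nat_lit 2) (.cons (.br (nat_lit 0) (.cons (.br (nat_lit 4) (.cons (.rel (nat_lit 2151940116)) (.cons (.rel (nat_lit 1079246856)) .nil))) (.cons (.br (nat_lit 5) (.cons (.rel (nat_lit 4299165954)) (.cons (.br (nat_lit 4) (.cons (.rel (nat_lit 5368718337)) (.cons (.rel (nat_lit 10742661120)) .nil))) .nil))) .nil))) .nil)) .leaf))) (nat_lit 5383692824924840) (.br (nat_lit 2) (.cons (.br (nat_lit 5) (.cons (.rel (nat_lit 8658096384)) .nil)) .nil)) (.node (.node (.node (.node .leaf (nat_lit 5383692825067551) (.br (nat_lit 0) (.cons (.br (nat_lit 2) (.cons (.rel (nat_lit 71630976)) .nil)) .nil)) .leaf) (nat_lit 5383692825067552) (.br (nat_lit 0) (.cons (.br (nat_lit 1) (.cons (.br (nat_lit 5) (.cons (.rel (nat_lit 4311750912)) (.cons (.rel (nat_lit 4299163968)) .nil))) (.cons (.rel (nat_lit 23073792)) .nil))) (.cons (.br (nat_lit 1) (.cons (.rel (nat_lit 23073792)) (.cons (.rel (nat_lit 23068737)) .nil))) .nil))) .leaf) (nat_lit 5383692825067782) (.br (nat_lit 0) (.cons (.br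 (nat_lit 1) (.cons (.rel (nat_lit 21303312)) .nil)) .nil)) (.node .leaf (nat_lit 5383692825068457) (.br (nat_lit 0) (.cons (.br (nat_lit 1) (.cons (.rel (nat_lit 20971872)) .nil)) .nil)) .leaf)) (nat_lit 5383692825069070) (.br (nat_lit 0) (.cons (.br (nat_lit 2) (.cons (.rel (nat_lit 71602176)) .nil)) .nil)) (.node (.node (.node .leaf (nat_lit 5383692825190461) (.br (nat_lit 0) (.cons (.br (nat_lit 2) (.cons (.rel (nat_lit 71565321)) .nil)) .nil)) .leaf) (nat_lit 5383692825190685) (.br (nat_lit 0) (.cons (.br (nat_lit 6) (.cons (.rel (nat_lit 17184081168)) .nil)) .nil)) .leaf) (nat_lit 5383692825191030) (.br (nat_lit 0) (.cons (.br (nat_lit 3) (.cons (.rel (nat_lit 542114112)) (.cons (.rel (nat_lit 272896017)) .nil))) (.cons (.br (nat_lit 3) (.cons (.rel (nat_lit 272891976)) (.cons (.rel (nat_lit 272630052)) .nil))) .nil))) (.node .leaf (nat_lit 5383692825322898) (.br (nat_lit 0) (.cons (.br (nat_lit 3) (.cons (.rel (nat_lit 272909316)) .nil)) .nil)) .leaf))))) (nat_lit 5383692825324332)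 (.br (nat_lit 0) (.cons (.br (nat_lit 1) (.cons (.rel (nat_lit 25167873)) .nil)) .nil)) (.node (.node (.node (.node (.node (.node .leaf (nat_lit 5383693245999910) (.br (nat_lit 1) (.cons (.br (nat_lit 2) (.cons (.rel (nat_lit 100679700)) .nil)) .nil)) .leaf) (nat_lit 5383693247791734) (.br (nat_lit 0) (.cons (.br (nat_lit 1) (.cons (.rel (nat_lit 37749762)) .nil)) .nil)) .leaf) (nat_lit 5383693247792380) (.br (nat_lit 1) (.cons (.br (nat_lit 2) (.cons (.rel (nat_lit 83906820)) .nil)) .nil)) (.node (.node .leaf (nat_lit 5383693372330115) (.br (nat_lit 0) (.cons (.br (nat_lit 5) (.cons (.rel (nat_lit 4299163968)) (.cons (.rel (nat_lit 8594129925)) .nil))) .nil)) .leaf) (nat_lit 5383693372997937) (.br (nat_lit 0) (.cons (.br (nat_lit 1) (.cons (.rel (nat_lit 21364737)) .nil)) .nil)) .leaf)) (nat_lit 5383693373571229) (.br (nat_lit 0) (.cons (.br (nat_lit 6) (.cons (.rel (nat_lit 17184346128)) .nil)) .nil)) (.node (.node (.node .leaf (nat_lit 5383693373571357) (.br (nat_lit 2) (.cons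 (.br (nat_lit 6) (.cons (.rel (nat_lit 17247338496)) .nil)) .nil)) .leaf) (nat_lit 5383693374777475) (.br (nat_lit 0) (.cons (.br (nat_lit 2) (.cons (.rel (nat_lit 75564048)) (.cons (.rel (nat_lit 72876096)) .nil))) .nil)) .leaf) (nat_lit 5383693845785206) (.br (nat_lit 0) (.cons (.br (nat_lit 2) (.cons (.rel (nat_lit 71567376)) .nil)) .nil)) (.node .leaf (nat_lit 5383693845785382) (.br (nat_lit 0) (.cons (.br (nat_lit 1) (.cons (.rel (nat_lit 20971872)) .nil)) .nil)) .leaf))) (nat_lit 5383693846286336) (.br (nat_lit 0) (.cons (.br (nat_lit 2) (.cons (.rel (nat_lit 71311632)) (.cons (.rel (nat_lit 71311632)) .nil))) .nil)) (.node (.node (.node (.node .leaf (nat_lit 5383693846286968) (.br (nat_lit 0) (.cons (.br (nat_lit 1) (.cons (.rel (nat_lit 21251136)) .nil)) .nil)) .leaf) (nat_lit 5383693846944006) (.br (nat_lit 0) (.cons (.br (nat_lit 3) (.cons (.rel (nat_lit 272891976)) .nil)) .nil)) .leaf) (nat_lit 5383693847527581) (.br (nat_lit 2) (.cons (.br (nat_lit 0) (.cons (.br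 (nat_lit 4) (.cons (.rel (nat_lit 2281702404)) (.cons (.rel (nat_lit 2156923200)) .nil))) (.cons (.rel (nat_lit 71567376)) .nil))) .nil)) (.node .leaf (nat_lit 5383693847527709) (.br (nat_lit 0) (.cons (.br (nat_lit 6) (.cons (.rel (nat_lit 17184346128)) .nil)) .nil)) .leaf)) (nat_lit 5383693847576882) (.br (nat_lit 1) (.cons (.br (nat_lit 6) (.cons (.rel (nat_lit 17196646722)) .nil)) .nil)) (.node (.node (.node .leaf (nat_lit 5383693847577206) (.br (nat_lit 1) (.cons (.br (nat_lit 3) (.cons (.rel (nat_lit 571473936)) .nil)) .nil)) .leaf) (nat_lit 5383693848233493) (.br (nat_lit 0) (.cons (.br (nat_lit 1) (.cons (.rel (nat_lit 25691520)) .nil)) .nil)) .leaf) (nat_lit 5383693848733696) (.br (nat_lit 2) (.cons (.br (nat_lit 0) (.cons (.rel (nat_lit 71567376)) (.cons (.rel (nat_lit 71602176)) .nil))) .nil)) (.node .leaf (nat_lit 5383696393470109) (.br (nat_lit 0) (.cons (.br (nat_lit 2) (.cons (.rel (nat_lit 71567376)) .nil)) .nil)) .leaf)))) (nat_lit 5383696393470582) (.br (nat_lit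 2) (.cons (.br (nat_lit 6) (.cons (.rel (nat_lit 17247047952)) .nil)) .nil)) (.node (.node (.node (.node (.node .leaf (nat_lit 5383696493916160) (.br (nat_lit 0) (.cons (.br (nat_lit 2) (.cons (.rel (nat_lit 71565321)) (.cons (.rel (nat_lit 138412176)) .nil))) .nil)) .leaf) (nat_lit 5383696494182401) (.br (nat_lit 0) (.cons (.br (nat_lit 1) (.cons (.rel (nat_lit 20975877)) .nil)) .nil)) .leaf) (nat_lit 5383696494940421) (.br (nat_lit 0) (.cons (.br (nat_lit 6) (.cons (.rel (nat_lit 17184329793)) .nil)) .nil)) (.node .leaf (nat_lit 5383696494941535) (.br (nat_lit 0) (.cons (.br (nat_lit 2) (.cons (.rel (nat_lit 71565321)) (.cons (.rel (nat_lit 71565321)) (.cons (.rel (nat_lit 71565321)) (.cons (.rel (nat_lit 71337216)) .nil))))) .nil)) .leaf)) (nat_lit 5383696495207905) (.br (nat_lit 1) (.cons (.br (nat_lit 3) (.cons (.rel (nat_lit 285478920)) .nil)) .nil)) (.node (.node (.node .leaf (nat_lit 5383704051785755) (.br (nat_lit 0) (.cons (.br (nat_lit 4) (.cons (.rel (nat_lit 2151940116))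 .nil)) .nil)) .leaf) (nat_lit 5383704051786989) (.br (nat_lit 0) (.cons (.br (nat_lit 1) (.cons (.rel (nat_lit 23068737)) (.cons (.rel (nat_lit 20988162)) .nil))) .nil)) .leaf) (nat_lit 5384371427207798) (.br (nat_lit 0) (.cons (.br (nat_lit 3) (.cons (.rel (nat_lit 276828228)) .nil)) .nil)) (.node .leaf (nat_lit 5384603801298427) (.br (nat_lit 1) (.cons (.br (nat_lit 2) (.cons (.rel (nat_lit 84295680)) .nil)) .nil)) .leaf))) (nat_lit 5384818103806582) (.br (nat_lit 0) (.cons (.br (nat_lit 3) (.cons (.br (nat_lit 1) (.cons (.rel (nat_lit 574881792)) (.cons (.rel (nat_lit 301990020)) (.cons (.rel (nat_lit 25166868)) .nil)))) (.cons (.rel (nat_lit 272909316)) (.cons (.rel (nat_lit 276856848)) .nil)))) (.cons (.br (nat_lit 1) (.cons (.rel (nat_lit 21233796)) (.cons (.rel (nat_lit 38797572)) (.cons (.rel (nat_lit 23070804)) .nil)))) .nil))) (.node (.node (.node (.node .leaf (nat_lit 5384818104307843) (.br (nat_lit 0) (.cons (.br (nat_lit 2) (.cons (.rel (nat_lit 138412176)) .nil))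 .nil)) .leaf) (nat_lit 5384818104308368) (.br (nat_lit 0) (.cons (.br (nat_lit 1) (.cons (.rel (nat_lit 23068737)) .nil)) .nil)) .leaf) (nat_lit 5384818105548957) (.br (nat_lit 0) (.cons (.br (nat_lit 2) (.cons (.rel (nat_lit 75501573)) .nil)) .nil)) (.node .leaf (nat_lit 5384818105549430) (.br (nat_lit 0) (.cons (.br (nat_lit 3) (.cons (.rel (nat_lit 272630052)) .nil)) .nil)) .leaf)) (nat_lit 5384818653260406) (.br (nat_lit 0) (.cons (.br (nat_lit 2) (.cons (.rel (nat_lit 71311632)) .nil)) .nil)) (.node (.node (.node .leaf (nat_lit 5384818653761667) (.br (nat_lit 0) (.cons (.br (nat_lit 6) (.cons (.rel (nat_lit 34368389376)) (.cons (.rel (nat_lit 17188258824)) (.cons (.rel (nat_lit 17184063828)) .nil)))) .nil)) .leaf) (nat_lit 5384818654519296) (.br (nat_lit 1) (.cons (.br (nat_lit 2) (.cons (.rel (nat_lit 100663365)) .nil)) .nil)) .leaf) (nat_lit 5384818656075907) (.br (nat_lit 0) (.cons (.br (nat_lit 1) (.cons (.rel (nat_lit 20975877)) .nil)) .nil)) (.node .leaf (nat_lit 5384819130033633)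 (.br (nat_lit 0) (.cons (.br (nat_lit 1) (.cons (.rel (nat_lit 20975877)) .nil)) .nil)) .leaf))))))

/-- refutations 22 -/
def e22 : EX := (.node (.node (.node (.node (.node (.node .leaf (nat_lit 5385785936519800) (.br (nat_lit 1) (.cons (.br (nat_lit 2) (.cons (.rel (nat_lit 83906820)) .nil)) .nil)) .leaf) (nat_lit 5385786167207423) (.br (nat_lit 0) (.cons (.br (nat_lit 1) (.cons (.rel (nat_lit 21251136)) .nil)) .nil)) (.node .leaf (nat_lit 5385788766415478) (.br (nat_lit 0) (.cons (.br (nat_lit 2) (.cons (.rel (nat_lit 71565321)) (.cons (.br (nat_lit 3) (.cons (.br (nat_lit 4) (.cons (.rel (nat_lit 1149243648)) (.cons (.rel (nat_lit 2420115456)) (.cons (.rel (nat_lit 1077941316)) (.cons (.rel (nat_lit 2151678336)) .nil))))) (.cons (.rel (nat_lit 272909316)) .nil))) .nil))) (.cons (.br (nat_lit 2) (.cons (.rel (nat_lit 71565321)) (.cons (.rel (nat_lit 71602176)) .nil))) .nil))) .leaf)) (nat_lit 5385788766619910) (.br (nat_lit 0) (.cons (.br (nat_lit 5) (.cons (.rel (nat_lit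 4299165954)) .nil)) .nil)) (.node (.node .leaf (nat_lit 5385788766620910) (.br (nat_lit 0) (.cons (.br (nat_lit 1) (.cons (.rel (nat_lit 23068737)) .nil)) .nil)) .leaf) (nat_lit 5385788766916608) (.br (nat_lit 0) (.cons (.br (nat_lit 2) (.cons (.rel (nat_lit 71309649)) (.cons (.rel (nat_lit 71409924)) .nil))) .nil)) .leaf)) (nat_lit 5385788766916739) (.br (nat_lit 2) (.cons (.br (nat_lit 0) (.cons (.rel (nat_lit 142901520)) (.cons (.rel (nat_lit 71337216)) .nil))) .nil)) (.node (.node (.node .leaf (nat_lit 5385788768157981) (.br (nat_lit 0) (.cons (.br (nat_lit 2) (.cons (.rel (nat_lit 71565321)) .nil)) .nil)) .leaf) (nat_lit 5385788768207478) (.br (nat_lit 1) (.cons (.br (nat_lit 3) (.cons (.rel (nat_lit 301990020)) .nil)) .nil)) .leaf) (nat_lit 5385788769230909) (.br (nat_lit 0) (.cons (.br (nat_lit 1) (.cons (.rel (nat_lit 21038352)) .nil)) .nil)) (.node (.node .leaf (nat_lit 5385788769231478) (.br (nat_lit 0) (.cons (.br (nat_lit 3) (.cons (.rel (nat_lit 272909316)) (.cons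 (.rel (nat_lit 272630052)) .nil))) (.cons (.br (nat_lit 2) (.cons (.rel (nat_lit 71319876)) (.cons (.rel (nat_lit 71602176)) .nil))) .nil))) .leaf) (nat_lit 5385788769364598) (.br (nat_lit 0) (.cons (.br (nat_lit 3) (.cons (.rel (nat_lit 541070352)) .nil)) .nil)) .leaf))) (nat_lit 5385789315869302) (.br (nat_lit 0) (.cons (.br (nat_lit 2) (.cons (.rel (nat_lit 71337216)) .nil)) .nil)) (.node (.node (.node (.node .leaf (nat_lit 5385789316370563) (.br (nat_lit 0) (.cons (.br (nat_lit 5) (.cons (.rel (nat_lit 4299178248)) .nil)) .nil)) .leaf) (nat_lit 5385789316370717) (.br (nat_lit 0) (.cons (.br (nat_lit 1) (.cons (.rel (nat_lit 20971872)) .nil)) .nil)) (.node .leaf (nat_lit 5385789316371064) (.br (nat_lit 0) (.cons (.br (nat_lit 2) (.cons (.rel (nat_lit 71373057)) .nil)) .nil)) .leaf)) (nat_lit 5385789318684803) (.br (nat_lit 0) (.cons (.br (nat_lit 1) (.cons (.rel (nat_lit 37749762)) .nil)) .nil)) (.node (.node .leaf (nat_lit 5385789606535843) (.br (nat_lit 3) (.cons (.br (nat_lit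 5) (.cons (.rel (nat_lit 4563501312)) .nil)) .nil)) .leaf) (nat_lit 5385789789826529) (.br (nat_lit 0) (.cons (.br (nat_lit 1) (.cons (.rel (nat_lit 20988162)) .nil)) .nil)) .leaf)) (nat_lit 5385789791084675) (.br (nat_lit 0) (.cons (.br (nat_lit 2) (.cons (.rel (nat_lit 71565321)) .nil)) .nil)) (.node (.node (.node .leaf (nat_lit 5385789791084806) (.br (nat_lit 1) (.cons (.br (nat_lit 3) (.cons (.rel (nat_lit 286261761)) (.cons (.rel (nat_lit 553648200)) (.cons (.rel (nat_lit 286261761)) .nil)))) .nil)) .leaf) (nat_lit 5385789791084829) (.br (nat_lit 3) (.cons (.br (nat_lit 6) (.cons (.rel (nat_lit 17448329472)) .nil)) .nil)) .leaf) (nat_lit 5385789791085979) (.br (nat_lit 0) (.cons (.br (nat_lit 1) (.cons (.rel (nat_lit 20971872)) .nil)) .nil)) (.node (.node .leaf (nat_lit 5385789791617961) (.br (nat_lit 0) (.cons (.br (nat_lit 1) (.cons (.rel (nat_lit 21303312)) .nil)) .nil)) .leaf) (nat_lit 5385792436933483) (.br (nat_lit 0) (.cons (.br (nat_lit 1) (.cons (.rel (nat_lit 20988162))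 .nil)) .nil)) .leaf)))) (nat_lit 5385792438174353) (.br (nat_lit 0) (.cons (.br (nat_lit 5) (.cons (.rel (nat_lit 4299178248)) .nil)) .nil)) (.node (.node (.node (.node (.node .leaf (nat_lit 5385792438223480) (.br (nat_lit 0) (.cons (.br (nat_lit 1) (.cons (.rel (nat_lit 23134212)) .nil)) .nil)) .leaf) (nat_lit 5385792439124843) (.br (nat_lit 0) (.cons (.br (nat_lit 1) (.cons (.rel (nat_lit 25170048)) .nil)) .nil)) (.node .leaf (nat_lit 5388878294935837) (.br (nat_lit 6) (.cons (.br (nat_lit 0) (.cons (.rel (nat_lit 17184069888)) (.cons (.rel (nat_lit 17184081168)) .nil))) .nil)) .leaf)) (nat_lit 5388881142868253) (.br (nat_lit 6) (.cons (.br (nat_lit 0) (.cons (.rel (nat_lit 17184081168)) (.cons (.rel (nat_lit 17188258824)) .nil))) .nil)) (.node (.node .leaf (nat_lit 5388881142868598) (.br (nat_lit 6) (.cons (.br (nat_lit 0) (.cons (.rel (nat_lit 34364981520)) (.cons (.rel (nat_lit 34363932705)) .nil))) .nil)) .leaf) (nat_lit 5389099566702854) (.br (nat_lit 0) (.cons (.br (nat_lit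 1) (.cons (.rel (nat_lit 20975877)) .nil)) .nil)) .leaf)) (nat_lit 5389113622298909) (.br (nat_lit 0) (.cons (.br (nat_lit 2) (.cons (.rel (nat_lit 75501573)) .nil)) .nil)) (.node (.node (.node .leaf (nat_lit 5389657149087875) (.br (nat_lit 1) (.cons (.br (nat_lit 4) (.cons (.rel (nat_lit 1090535490)) .nil)) .nil)) .leaf) (nat_lit 5389866386137993) (.br (nat_lit 0) (.cons (.br (nat_lit 1) (.cons (.rel (nat_lit 21364737)) .nil)) .nil)) .leaf) (nat_lit 5390081636560353) (.br (nat_lit 1) (.cons (.br (nat_lit 5) (.cons (.rel (nat_lit 4311744852)) .nil)) .nil)) (.node (.node .leaf (nat_lit 5390081636765153) (.br (nat_lit 0) (.cons (.br (nat_lit 2) (.cons (.rel (nat_lit 71630976)) (.cons (.rel (nat_lit 71319876)) .nil))) .nil)) .leaf) (nat_lit 5390081637060608) (.br (nat_lit 2) (.cons (.br (nat_lit 5) (.cons (.rel (nat_lit 4362354816)) (.cons (.rel (nat_lit 8657060868)) .nil))) (.cons (.br (nat_lit 5) (.cons (.rel (nat_lit 8657043528)) (.cons (.rel (nat_lit 4362096897)) .nil))) .nil)))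 .leaf))) (nat_lit 5390081637818368) (.br (nat_lit 0) (.cons (.br (nat_lit 5) (.cons (.rel (nat_lit 4299165954)) (.cons (.rel (nat_lit 4299165954)) (.cons (.rel (nat_lit 4301324289)) .nil)))) (.cons (.br (nat_lit 2) (.cons (.rel (nat_lit 71630976)) (.cons (.rel (nat_lit 143654985)) .nil))) .nil))) (.node (.node (.node (.node .leaf (nat_lit 5390081637818673) (.br (nat_lit 0) (.cons (.br (nat_lit 1) (.cons (.rel (nat_lit 23073792)) .nil)) .nil)) .leaf) (nat_lit 5390081637818674) (.br (nat_lit 1) (.cons (.br (nat_lit 3) (.cons (.rel (nat_lit 285491205)) .nil)) .nil)) .leaf) (nat_lit 5390081637819243) (.br (nat_lit 0) (.cons (.br (nat_lit 1) (.cons (.rel (nat_lit 23068737)) .nil)) .nil)) (.node (.node .leaf (nat_lit 5390081638085983) (.br (nat_lit 1) (.cons (.br (nat_lit 2) (.cons (.br (nat_lit 5) (.cons (.rel (nat_lit 8657043528)) .nil)) .nil)) .nil)) .leaf) (nat_lit 5390081638352353) (.br (nat_lit 1) (.cons (.br (nat_lit 5) (.cons (.rel (nat_lit 4311750912)) .nil)) .nil)) .leaf))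 (nat_lit 5390081639109240) (.br (nat_lit 0) (.cons (.br (nat_lit 1) (.cons (.rel (nat_lit 21233796)) .nil)) .nil)) (.node (.node (.node .leaf (nat_lit 5390081639109483) (.br (nat_lit 0) (.cons (.br (nat_lit 2) (.cons (.rel (nat_lit 71319876)) .nil)) .nil)) .leaf) (nat_lit 5390087403728353) (.br (nat_lit 1) (.cons (.br (nat_lit 3) (.cons (.rel (nat_lit 285245760)) .nil)) .nil)) .leaf) (nat_lit 5390087403931953) (.br (nat_lit 0) (.cons (.br (nat_lit 3) (.cons (.rel (nat_lit 272891976)) .nil)) .nil)) (.node (.node .leaf (nat_lit 5390087406544353) (.br (nat_lit 1) (.cons (.br (nat_lit 0) (.cons (.rel (nat_lit 20988162)) (.cons (.rel (nat_lit 20975877)) .nil))) .nil)) .leaf) (nat_lit 5390945245483008) (.br (nat_lit 0) (.cons (.br (nat_lit 1) (.cons (.rel (nat_lit 20975877)) .nil)) .nil)) .leaf)))))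

/-- refutations 23 -/
def e23 : EX := (.node (.node (.node (.node (.node (.node .leaf (nat_lit 5391206917991905) (.br (nat_lit 1) (.cons (.br (nat_lit 0) (.cons (.rel (nat_lit 21251136)) (.cons (.rel (nat_lit 37749762)) .nil))) .nil)) .leaf) (nat_lit 5391206919517535) (.br (nat_lit 0) (.cons (.br (nat_lit 1) (.cons (.rel (nat_lit 20971872)) .nil)) .nil)) (.node .leaf (nat_lit 5391206919783905) (.br (nat_lit 1) (.cons (.br (nat_lit 3) (.cons (.rel (nat_lit 285245760)) .nil)) .nil)) .leaf)) (nat_lit 5391206920807905) (.br (nat_lit 0) (.cons (.br (nat_lit 5) (.cons (.rel (nat_lit 4299163968)) .nil)) .nil)) (.node (.node .leaf (nat_lit 5391209017959030) (.br (nat_lit 0) (.cons (.br (nat_lit 3) (.cons (.rel (nat_lit 542114112)) .nil)) .nil)) .leaf) (nat_lit 5391220244553755) (.br (nat_lit 5) (.cons (.br (nat_lit 6) (.cons (.rel (nat_lit 21474854148)) .nil)) .nil)) (.node .leaf (nat_lit 5391220244554360) (.br (nat_lit 0) (.cons (.br (nat_lit 2) (.cons (.rel (nat_lit 71337216)) (.cons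 (.rel (nat_lit 71337216)) .nil))) (.cons (.br (nat_lit 1) (.cons (.rel (nat_lit 20988162)) (.cons (.rel (nat_lit 23068737)) .nil))) .nil))) .leaf))) (nat_lit 5391220244555035) (.br (nat_lit 1) (.cons (.br (nat_lit 2) (.cons (.rel (nat_lit 100663365)) .nil)) .nil)) (.node (.node (.node .leaf (nat_lit 5391221280548077) (.br (nat_lit 0) (.cons (.br (nat_lit 1) (.cons (.rel (nat_lit 21251136)) .nil)) .nil)) .leaf) (nat_lit 5391221280548321) (.br (nat_lit 0) (.cons (.br (nat_lit 1) (.cons (.rel (nat_lit 20971872)) .nil)) .nil)) (.node .leaf (nat_lit 5394001768554758) (.br (nat_lit 0) (.cons (.br (nat_lit 1) (.cons (.rel (nat_lit 20988162)) (.cons (.rel (nat_lit 25167873)) .nil))) (.cons (.br (nat_lit 1) (.cons (.rel (nat_lit 21364737)) (.cons (.rel (nat_lit 21038352)) .nil))) .nil))) .leaf)) (nat_lit 5394375854282016) (.br (nat_lit 6) (.cons (.br (nat_lit 1) (.cons (.rel (nat_lit 34376613888)) (.cons (.rel (nat_lit 17196712197)) .nil))) .nil)) (.node (.node .leaf (nat_lit 5394375854334607)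 (.br (nat_lit 0) (.cons (.br (nat_lit 1) (.cons (.rel (nat_lit 38797572)) .nil)) .nil)) .leaf) (nat_lit 5394376604061153) (.br (nat_lit 1) (.cons (.br (nat_lit 5) (.cons (.rel (nat_lit 4329832512)) .nil)) .nil)) (.node .leaf (nat_lit 5394376604356608) (.br (nat_lit 0) (.cons (.br (nat_lit 2) (.cons (.rel (nat_lit 71319876)) (.cons (.rel (nat_lit 71311632)) .nil))) (.cons (.br (nat_lit 2) (.cons (.rel (nat_lit 71565321)) (.cons (.rel (nat_lit 71311632)) .nil))) .nil))) .leaf)))) (nat_lit 5394376605024318) (.br (nat_lit 0) (.cons (.br (nat_lit 1) (.cons (.rel (nat_lit 20988162)) .nil)) .nil)) (.node (.node (.node (.node .leaf (nat_lit 5394376605114368) (.br (nat_lit 2) (.cons (.br (nat_lit 0) (.cons (.rel (nat_lit 71337216)) (.cons (.rel (nat_lit 71630976)) .nil))) .nil)) .leaf) (nat_lit 5394376605115153) (.br (nat_lit 0) (.cons (.br (nat_lit 3) (.cons (.rel (nat_lit 272777472)) (.cons (.rel (nat_lit 272777472)) .nil))) .nil)) (.node .leaf (nat_lit 5394376605115243) (.br (nat_lit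 0) (.cons (.br (nat_lit 1) (.cons (.rel (nat_lit 25166868)) .nil)) .nil)) .leaf)) (nat_lit 5394376605380893) (.br (nat_lit 0) (.cons (.br (nat_lit 4) (.cons (.rel (nat_lit 1083183108)) .nil)) .nil)) (.node (.node .leaf (nat_lit 5394376605381393) (.br (nat_lit 0) (.cons (.br (nat_lit 1) (.cons (.rel (nat_lit 21364737)) .nil)) .nil)) .leaf) (nat_lit 5394376605648353) (.br (nat_lit 1) (.cons (.br (nat_lit 3) (.cons (.rel (nat_lit 571473936)) .nil)) .nil)) (.node .leaf (nat_lit 5394378701007478) (.br (nat_lit 1) (.cons (.br (nat_lit 3) (.cons (.rel (nat_lit 553652241)) (.cons (.rel (nat_lit 285475920)) (.cons (.rel (nat_lit 285475920)) .nil)))) (.cons (.br (nat_lit 3) (.cons (.rel (nat_lit 285212946)) (.cons (.rel (nat_lit 285286656)) (.cons (.rel (nat_lit 285213960)) .nil)))) .nil))) .leaf))) (nat_lit 5394378701008110) (.br (nat_lit 0) (.cons (.br (nat_lit 1) (.cons (.rel (nat_lit 42995796)) (.cons (.rel (nat_lit 37748757)) .nil))) .nil)) (.node (.node (.node .leaf (nat_lit 5394378701211779)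 (.br (nat_lit 0) (.cons (.br (nat_lit 2) (.cons (.rel (nat_lit 143720448)) (.cons (.rel (nat_lit 71337216)) .nil))) .nil)) .leaf) (nat_lit 5394378701211953) (.br (nat_lit 0) (.cons (.br (nat_lit 5) (.cons (.rel (nat_lit 4299163968)) .nil)) .nil)) (.node .leaf (nat_lit 5394378701212909) (.br (nat_lit 0) (.cons (.br (nat_lit 2) (.cons (.rel (nat_lit 71319876)) .nil)) .nil)) .leaf)) (nat_lit 5394378702177532) (.br (nat_lit 0) (.cons (.br (nat_lit 1) (.cons (.rel (nat_lit 37749762)) .nil)) .nil)) (.node (.node .leaf (nat_lit 5394378702214375) (.br (nat_lit 0) (.cons (.br (nat_lit 2) (.cons (.rel (nat_lit 71319876)) (.cons (.rel (nat_lit 71565321)) .nil))) .nil)) .leaf) (nat_lit 5394378702214381) (.br (nat_lit 0) (.cons (.br (nat_lit 2) (.cons (.rel (nat_lit 71602176)) .nil)) .nil)) (.node .leaf (nat_lit 5394378702799478) (.br (nat_lit 1) (.cons (.br (nat_lit 0) (.cons (.rel (nat_lit 20988162)) (.cons (.rel (nat_lit 20975877)) .nil))) .nil)) .leaf))))) (nat_lit 5394378703557285) (.br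 (nat_lit 0) (.cons (.br (nat_lit 4) (.cons (.rel (nat_lit 1077936261)) .nil)) .nil)) (.node (.node (.node (.node (.node .leaf (nat_lit 5394378703700000) (.br (nat_lit 0) (.cons (.br (nat_lit 1) (.cons (.rel (nat_lit 20988162)) .nil)) .nil)) .leaf) (nat_lit 5394378703700143) (.br (nat_lit 1) (.cons (.br (nat_lit 2) (.cons (.rel (nat_lit 83906820)) .nil)) .nil)) (.node .leaf (nat_lit 5394378703954552) (.br (nat_lit 0) (.cons (.br (nat_lit 4) (.cons (.rel (nat_lit 1077941316)) .nil)) .nil)) .leaf)) (nat_lit 5394378703955477) (.br (nat_lit 0) (.cons (.br (nat_lit 5) (.cons (.rel (nat_lit 4299178248)) .nil)) .nil)) (.node (.node .leaf (nat_lit 5394378703956753) (.br (nat_lit 0) (.cons (.br (nat_lit 4) (.cons (.rel (nat_lit 1077958656)) .nil)) .nil)) .leaf) (nat_lit 5394379541127443) (.br (nat_lit 5) (.cons (.br (nat_lit 1) (.cons (.rel (nat_lit 8606711814)) (.cons (.rel (nat_lit 4311744852)) .nil))) .nil)) (.node .leaf (nat_lit 5395501231108381) (.br (nat_lit 0) (.cons (.br (nat_lit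 2) (.cons (.rel (nat_lit 71373057)) .nil)) .nil)) .leaf))) (nat_lit 5395501885286687) (.br (nat_lit 3) (.cons (.br (nat_lit 6) (.cons (.rel (nat_lit 34629485568)) .nil)) .nil)) (.node (.node (.node .leaf (nat_lit 5395501885788160) (.br (nat_lit 0) (.cons (.br (nat_lit 2) (.cons (.rel (nat_lit 75513858)) (.cons (.rel (nat_lit 71565321)) .nil))) (.cons (.br (nat_lit 1) (.cons (.rel (nat_lit 21303312)) (.cons (.rel (nat_lit 23085072)) (.cons (.rel (nat_lit 20971872)) .nil)))) .nil))) .leaf) (nat_lit 5395501886456745) (.br (nat_lit 1) (.cons (.br (nat_lit 6) (.cons (.rel (nat_lit 17196651777)) .nil)) .nil)) (.node .leaf (nat_lit 5395501886493598) (.br (nat_lit 1) (.cons (.br (nat_lit 6) (.cons (.rel (nat_lit 17196650772)) .nil)) .nil)) .leaf)) (nat_lit 5395501886812445) (.br (nat_lit 0) (.cons (.br (nat_lit 1) (.cons (.rel (nat_lit 22021704)) .nil)) .nil)) (.node (.node .leaf (nat_lit 5395501886813535) (.br (nat_lit 6) (.cons (.br (nat_lit 0) (.cons (.rel (nat_lit 17184346128)) (.cons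 (.rel (nat_lit 17184069888)) (.cons (.rel (nat_lit 17184407553)) .nil)))) .nil)) .leaf) (nat_lit 5395501887078562) (.br (nat_lit 1) (.cons (.br (nat_lit 4) (.cons (.rel (nat_lit 1091600640)) .nil)) .nil)) (.node .leaf (nat_lit 5395501887079905) (.br (nat_lit 1) (.cons (.br (nat_lit 6) (.cons (.rel (nat_lit 17196646722)) (.cons (.rel (nat_lit 17196663057)) (.cons (.rel (nat_lit 17196646722)) (.cons (.rel (nat_lit 17196651777)) .nil))))) .nil)) .leaf)))) (nat_lit 5395501887837035) (.br (nat_lit 0) (.cons (.br (nat_lit 1) (.cons (.rel (nat_lit 21233796)) (.cons (.rel (nat_lit 25167873)) (.cons (.rel (nat_lit 37834752)) (.cons (.rel (nat_lit 23085072)) .nil))))) (.cons (.br (nat_lit 2) (.cons (.rel (nat_lit 75513858)) (.cons (.rel (nat_lit 71319876)) .nil))) .nil))) (.node (.node (.node (.node .leaf (nat_lit 5395501887837711) (.br (nat_lit 0) (.cons (.br (nat_lit 1) (.cons (.rel (nat_lit 21233796)) .nil)) .nil)) .leaf) (nat_lit 5395501888102562) (.br (nat_lit 1) (.cons (.br (nat_lit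 4) (.cons (.rel (nat_lit 1090551825)) .nil)) .nil)) (.node .leaf (nat_lit 5395501888102685) (.br (nat_lit 0) (.cons (.br (nat_lit 1) (.cons (.rel (nat_lit 23068737)) .nil)) .nil)) .leaf)) (nat_lit 5395501888102687) (.br (nat_lit 6) (.cons (.br (nat_lit 1) (.cons (.rel (nat_lit 17196916737)) (.cons (.rel (nat_lit 17198743632)) .nil))) .nil)) (.node (.node .leaf (nat_lit 5395507103205507) (.br (nat_lit 0) (.cons (.br (nat_lit 1) (.cons (.rel (nat_lit 21364737)) .nil)) .nil)) .leaf) (nat_lit 5395507103503598) (.br (nat_lit 1) (.cons (.br (nat_lit 0) (.cons (.rel (nat_lit 20988162)) (.cons (.rel (nat_lit 21303312)) .nil))) .nil)) (.node .leaf (nat_lit 5395507104260227) (.br (nat_lit 1) (.cons (.br (nat_lit 2) (.cons (.rel (nat_lit 151060545)) .nil)) .nil)) .leaf))) (nat_lit 5395507104260751) (.br (nat_lit 0) (.cons (.br (nat_lit 1) (.cons (.rel (nat_lit 20992404)) .nil)) .nil)) (.node (.node (.node .leaf (nat_lit 5395507104261358) (.br (nat_lit 1) (.cons (.br (nat_lit 0) (.cons (.rel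 (nat_lit 20971872)) (.cons (.rel (nat_lit 23134212)) .nil))) .nil)) .leaf) (nat_lit 5395507652957035) (.br (nat_lit 0) (.cons (.br (nat_lit 6) (.cons (.rel (nat_lit 17184130308)) .nil)) .nil)) (.node .leaf (nat_lit 5395507655004421) (.br (nat_lit 0) (.cons (.br (nat_lit 5) (.cons (.rel (nat_lit 8594129925)) (.cons (.rel (nat_lit 4299178248)) .nil))) .nil)) .leaf)) (nat_lit 5395507655270661) (.br (nat_lit 0) (.cons (.br (nat_lit 2) (.cons (.rel (nat_lit 75497568)) .nil)) .nil)) (.node (.node .leaf (nat_lit 5395507655270685) (.br (nat_lit 1) (.cons (.br (nat_lit 3) (.cons (.br (nat_lit 6) (.cons (.rel (nat_lit 34629485568)) .nil)) .nil)) .nil)) .leaf) (nat_lit 5396188330480928) (.br (nat_lit 0) (.cons (.br (nat_lit 1) (.cons (.rel (nat_lit 23134212)) .nil)) .nil)) .leaf)))))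

/-- refutations 24 -/
def e24 : EX := (.node (.node .leaf (nat_lit 5396629814493359) (.br (nat_lit 0) (.cons (.br (nat_lit 1) (.cons (.br (nat_lit 2) (.cons (.rel (nat_lit 100668420)) .nil)) .nil)) .nil)) .leaf) (nat_lit 5396629815117281) (.br (nat_lit 1) (.cons (.br (nat_lit 2) (.cons (.rel (nat_lit 83906820)) .nil)) .nil)) (.node .leaf (nat_lit 5396629816140406) (.br (nat_lit 1) (.cons (.br (nat_lit 3) (.cons (.rel (nat_lit 285213960)) .nil)) .nil)) .leaf))

/-- refutations 25 -/
def e25 : EX := (.node (.node (.node (.node (.node .leaf (nat_lit 4943455819370522) (.br (nat_lit 0) (.cons (.br (nat_lit 3) (.cons (.rel (nat_lit 272891976)) (.cons (.rel (nat_lit 272699712)) .nil))) .nil)) .leaf) (nat_lit 4943455819370548) (.br (nat_lit 0) (.cons (.br (nat_lit 3) (.cons (.rel (nat_lit 541065297)) .nil)) .nil)) .leaf) (nat_lit 4943455819371126) (.br (nat_lit 0) (.cons (.br (nat_lit 2) (.cons (.rel (nat_lit 75497568)) (.cons (.rel (nat_lit 138412176)) .nil))) .nil)) (.node (.node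 .leaf (nat_lit 4943896765394158) (.br (nat_lit 0) (.cons (.br (nat_lit 2) (.cons (.rel (nat_lit 71311632)) (.cons (.rel (nat_lit 71373057)) .nil))) .nil)) .leaf) (nat_lit 4943896765892739) (.br (nat_lit 0) (.cons (.br (nat_lit 1) (.cons (.rel (nat_lit 20988162)) .nil)) .nil)) .leaf)) (nat_lit 4943896765892765) (.br (nat_lit 0) (.cons (.br (nat_lit 1) (.cons (.rel (nat_lit 20988162)) .nil)) .nil)) (.node (.node (.node .leaf (nat_lit 4943896767894766) (.br (nat_lit 0) (.cons (.br (nat_lit 2) (.cons (.rel (nat_lit 71319876)) .nil)) .nil)) .leaf) (nat_lit 4944576285741082) (.br (nat_lit 0) (.cons (.br (nat_lit 1) (.cons (.rel (nat_lit 20988162)) .nil)) .nil)) .leaf) (nat_lit 4945769704985233) (.br (nat_lit 0) (.cons (.br (nat_lit 1) (.cons (.rel (nat_lit 21303312)) .nil)) .nil)) (.node (.node .leaf (nat_lit 4945770285891584) (.br (nat_lit 0) (.cons (.br (nat_lit 2) (.cons (.rel (nat_lit 71319876)) (.cons (.rel (nat_lit 71565321)) .nil))) .nil)) .leaf) (nat_lit 4945770288207329) (.br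 (nat_lit 0) (.cons (.br (nat_lit 1) (.cons (.rel (nat_lit 25166868)) .nil)) .nil)) .leaf))) (nat_lit 4949288597710848) (.br (nat_lit 0) (.cons (.br (nat_lit 2) (.cons (.rel (nat_lit 71602176)) .nil)) .nil)) (.node (.node (.node (.node .leaf (nat_lit 4949288600212113) (.br (nat_lit 0) (.cons (.br (nat_lit 5) (.cons (.rel (nat_lit 4299178248)) .nil)) .nil)) .leaf) (nat_lit 4949852707590144) (.br (nat_lit 1) (.cons (.br (nat_lit 4) (.cons (.rel (nat_lit 1090528260)) .nil)) .nil)) .leaf) (nat_lit 4954574975642861) (.br (nat_lit 0) (.cons (.br (nat_lit 1) (.cons (.rel (nat_lit 20971872)) .nil)) .nil)) (.node (.node .leaf (nat_lit 4955702453047322) (.br (nat_lit 3) (.cons (.br (nat_lit 1) (.cons (.rel (nat_lit 285491205)) (.cons (.rel (nat_lit 285212946)) .nil))) .nil)) .leaf) (nat_lit 4955702453047453) (.br (nat_lit 0) (.cons (.br (nat_lit 2) (.cons (.rel (nat_lit 71319876)) (.cons (.rel (nat_lit 71319876)) (.cons (.rel (nat_lit 73531392)) .nil)))) .nil)) .leaf)) (nat_lit 4955702453047477)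 (.br (nat_lit 1) (.cons (.br (nat_lit 4) (.cons (.rel (nat_lit 1090519200)) .nil)) .nil)) (.node (.node (.node .leaf (nat_lit 4955702454657050) (.br (nat_lit 1) (.cons (.br (nat_lit 3) (.cons (.rel (nat_lit 285478920)) .nil)) .nil)) .leaf) (nat_lit 4955702454658529) (.br (nat_lit 4) (.cons (.br (nat_lit 6) (.cons (.rel (nat_lit 18253617216)) .nil)) .nil)) .leaf) (nat_lit 4955702454839322) (.br (nat_lit 0) (.cons (.br (nat_lit 2) (.cons (.rel (nat_lit 71602176)) .nil)) .nil)) (.node .leaf (nat_lit 4955702454839953) (.br (nat_lit 1) (.cons (.br (nat_lit 3) (.cons (.rel (nat_lit 285491205)) .nil)) .nil)) .leaf))))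

/-- refutations 26 -/
def e26 : EX := (.node (.node (.node (.node .leaf (nat_lit 5489845577545754) (.br (nat_lit 0) (.cons (.br (nat_lit 2) (.cons (.rel (nat_lit 71565321)) .nil)) .nil)) .leaf) (nat_lit 5491391325270301) (.br (nat_lit 0) (.cons (.br (nat_lit 2) (.cons (.rel (nat_lit 71337216)) (.cons (.rel (nat_lit 71311632)) .nil))) .nil)) .leaf) (nat_lit 5491391325330184) (.br (nat_lit 0) (.cons (.br (nat_lit 3) (.cons (.rel (nat_lit 276840513)) .nil)) .nil)) (.node (.node .leaf (nat_lit 5491391325370525) (.br (nat_lit 1) (.cons (.br (nat_lit 2) (.cons (.rel (nat_lit 152305665)) .nil)) .nil)) .leaf) (nat_lit 5491391327840282) (.br (nat_lit 0) (.cons (.br (nat_lit 3) (.cons (.rel (nat_lit 541216770)) .nil)) .nil)) .leaf)) (nat_lit 5491391328105224) (.br (nat_lit 4) (.cons (.br (nat_lit 2) (.cons (.rel (nat_lit 2281702404)) (.cons (.rel (nat_lit 1140884544)) .nil))) .nil)) (.node (.node (.node .leaf (nat_lit 5501058147414173) (.br (nat_lit 2) (.cons (.br (nat_lit 4) (.cons (.rel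 (nat_lit 1207960080)) .nil)) .nil)) .leaf) (nat_lit 5501058150249224) (.br (nat_lit 3) (.cons (.br (nat_lit 0) (.cons (.rel (nat_lit 272630052)) (.cons (.rel (nat_lit 272699712)) .nil))) .nil)) .leaf) (nat_lit 5501058150249355) (.br (nat_lit 1) (.cons (.br (nat_lit 2) (.cons (.rel (nat_lit 84148260)) .nil)) .nil)) (.node .leaf (nat_lit 5501058150249974) (.br (nat_lit 3) (.cons (.br (nat_lit 2) (.cons (.rel (nat_lit 335545665)) (.cons (.rel (nat_lit 337657860)) .nil))) .nil)) .leaf)))

/-- refutations 27 -/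
def e27 : EX := (.node (.node (.node (.node (.node .leaf (nat_lit 11434977762215987) (.br (nat_lit 0) (.cons (.br (nat_lit 3) (.cons (.rel (nat_lit 272957442)) .nil)) .nil)) .leaf) (nat_lit 11435199208884276) (.br (nat_lit 0) (.cons (.br (nat_lit 3) (.cons (.rel (nat_lit 274726917)) .nil)) .nil)) (.node .leaf (nat_lit 11435199208884880) (.br (nat_lit 2) (.cons (.br (nat_lit 3) (.cons (.rel (nat_lit 336069120)) .nil)) .nil)) .leaf)) (nat_lit 11435199208885536) (.br (nat_lit 0) (.cons (.br (nat_lit 3) (.cons (.rel (nat_lit 274726917)) .nil)) .nil)) (.node (.node .leaf (nat_lit 11435199210175120) (.br (nat_lit 0) (.cons (.br (nat_lit 2) (.cons (.rel (nat_lit 138432516)) .nil)) .nil)) .leaf) (nat_lit 11436040787593216) (.br (nat_lit 2) (.cons (.br (nat_lit 3) (.cons (.rel (nat_lit 335545665)) .nil)) .nil)) .leaf)) (nat_lit 11436318372163584) (.br (nat_lit 0) (.cons (.br (nat_lit 1) (.cons (.rel (nat_lit 25170048)) (.cons (.rel (nat_lit 21233796)) .nil))) .nil)) (.node (.node (.node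 .leaf (nat_lit 11436521412888861) (.br (nat_lit 3) (.cons (.br (nat_lit 4) (.cons (.rel (nat_lit 1342193670)) .nil)) .nil)) .leaf) (nat_lit 11436521415540736) (.br (nat_lit 0) (.cons (.br (nat_lit 3) (.cons (.rel (nat_lit 272630052)) .nil)) .nil)) (.node .leaf (nat_lit 11436524528858400) (.br (nat_lit 3) (.cons (.br (nat_lit 4) (.cons (.rel (nat_lit 1342243860)) .nil)) .nil)) .leaf)) (nat_lit 11436524530594077) (.br (nat_lit 3) (.cons (.br (nat_lit 6) (.cons (.rel (nat_lit 34628173968)) .nil)) .nil)) (.node (.node .leaf (nat_lit 11436524530595104) (.br (nat_lit 3) (.cons (.br (nat_lit 6) (.cons (.rel (nat_lit 17450402817)) .nil)) .nil)) .leaf) (nat_lit 11436524530598045) (.br (nat_lit 0) (.cons (.br (nat_lit 1) (.cons (.rel (nat_lit 25247808)) .nil)) .nil)) .leaf))) (nat_lit 11436524531908608) (.br (nat_lit 0) (.cons (.br (nat_lit 1) (.cons (.rel (nat_lit 23134212)) .nil)) .nil)) (.node (.node (.node (.node .leaf (nat_lit 11436529998628864) (.br (nat_lit 0) (.cons (.br (nat_lit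 3) (.cons (.rel (nat_lit 272891976)) .nil)) .nil)) .leaf) (nat_lit 11436530000943410) (.br (nat_lit 0) (.cons (.br (nat_lit 1) (.cons (.rel (nat_lit 23085072)) .nil)) .nil)) (.node .leaf (nat_lit 11437501684249336) (.br (nat_lit 1) (.cons (.br (nat_lit 2) (.cons (.rel (nat_lit 100663365)) .nil)) .nil)) .leaf)) (nat_lit 11437503783138155) (.br (nat_lit 2) (.cons (.br (nat_lit 0) (.cons (.rel (nat_lit 138478656)) (.cons (.rel (nat_lit 138478656)) (.cons (.rel (nat_lit 138478656)) .nil)))) .nil)) (.node (.node .leaf (nat_lit 11440390001160192) (.br (nat_lit 1) (.cons (.br (nat_lit 6) (.cons (.rel (nat_lit 17196650772)) (.cons (.rel (nat_lit 17196909696)) .nil))) .nil)) .leaf) (nat_lit 11440390002475165) (.br (nat_lit 1) (.cons (.br (nat_lit 4) (.cons (.rel (nat_lit 2181104640)) .nil)) .nil)) .leaf)) (nat_lit 11440827615183504) (.br (nat_lit 0) (.cons (.br (nat_lit 2) (.cons (.rel (nat_lit 71311632)) .nil)) .nil)) (.node (.node (.node .leaf (nat_lit 11441386872637725) (.br (nat_lit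 2) (.cons (.br (nat_lit 3) (.cons (.rel (nat_lit 336069120)) (.cons (.rel (nat_lit 402653250)) .nil))) .nil)) .leaf) (nat_lit 11441386872638752) (.br (nat_lit 2) (.cons (.br (nat_lit 3) (.cons (.rel (nat_lit 336069120)) .nil)) .nil)) .leaf) (nat_lit 11441386873974784) (.br (nat_lit 0) (.cons (.br (nat_lit 6) (.cons (.rel (nat_lit 17188331520)) .nil)) .nil)) (.node (.node .leaf (nat_lit 11441386873975069) (.br (nat_lit 4) (.cons (.br (nat_lit 6) (.cons (.rel (nat_lit 35434528848)) .nil)) .nil)) .leaf) (nat_lit 11441386875289885) (.br (nat_lit 0) (.cons (.br (nat_lit 3) (.cons (.rel (nat_lit 272631057)) .nil)) .nil)) .leaf))))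

/-- refutations 28 -/
def e28 : EX := (.node (.node (.node (.node (.node (.node .leaf (nat_lit 11441581529833757) (.br (nat_lit 0) (.cons (.br (nat_lit 3) (.cons (.rel (nat_lit 272777472)) .nil)) .nil)) .leaf) (nat_lit 11441581531624054) (.br (nat_lit 0) (.cons (.br (nat_lit 3) (.cons (.rel (nat_lit 541065297)) .nil)) .nil)) (.node .leaf (nat_lit 11441584000230281) (.br (nat_lit 1) (.cons (.br (nat_lit 4) (.cons (.rel (nat_lit 1107820545)) (.cons (.rel (nat_lit 1091830800)) (.cons (.rel (nat_lit 2164265280)) .nil)))) .nil)) .leaf)) (nat_lit 11441584000465526) (.br (nat_lit 0) (.cons (.br (nat_lit 1) (.cons (.rel (nat_lit 21251136)) .nil)) .nil)) (.node (.node .leaf (nat_lit 11441584002021661) (.br (nat_lit 4) (.cons (.br (nat_lit 6) (.cons (.rel (nat_lit 18253619202)) .nil)) .nil)) .leaf) (nat_lit 11441584002068480) (.br (nat_lit 3) (.cons (.br (nat_lit 2) (.cons (.rel (nat_lit 336069120)) (.cons (.rel (nat_lit 336069120)) (.cons (.rel (nat_lit 603984960)) (.cons (.rel (nat_lit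 603979905)) (.cons (.rel (nat_lit 604062720)) .nil)))))) .nil)) .leaf)) (nat_lit 11441584002068765) (.br (nat_lit 3) (.cons (.br (nat_lit 6) (.cons (.rel (nat_lit 34628240448)) (.cons (.rel (nat_lit 17448329472)) .nil))) (.cons (.br (nat_lit 6) (.cons (.rel (nat_lit 17716806672)) (.cons (.rel (nat_lit 17449681152)) .nil))) .nil))) (.node (.node (.node .leaf (nat_lit 11441584002069355) (.br (nat_lit 3) (.cons (.br (nat_lit 6) (.cons (.rel (nat_lit 34896876816)) (.cons (.rel (nat_lit 17448585216)) .nil))) .nil)) .leaf) (nat_lit 11441584002072733) (.br (nat_lit 1) (.cons (.br (nat_lit 3) (.cons (.rel (nat_lit 287309856)) .nil)) .nil)) (.node .leaf (nat_lit 11441584003045376) (.br (nat_lit 0) (.cons (.br (nat_lit 3) (.cons (.rel (nat_lit 272656644)) (.cons (.rel (nat_lit 272630052)) (.cons (.rel (nat_lit 272630052)) .nil)))) (.cons (.br (nat_lit 1) (.cons (.rel (nat_lit 21251136)) (.cons (.rel (nat_lit 21251136)) (.cons (.rel (nat_lit 23068737)) .nil)))) (.cons (.br (nat_lit 6) (.cons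 (.rel (nat_lit 17184064833)) (.cons (.rel (nat_lit 34368389376)) (.cons (.rel (nat_lit 34363932705)) .nil)))) .nil)))) .leaf)) (nat_lit 11441584003045661) (.br (nat_lit 4) (.cons (.br (nat_lit 5) (.cons (.rel (nat_lit 5368711296)) .nil)) .nil)) (.node (.node .leaf (nat_lit 11441584003145780) (.br (nat_lit 0) (.cons (.br (nat_lit 3) (.cons (.rel (nat_lit 274726917)) .nil)) .nil)) .leaf) (nat_lit 11441798749901085) (.br (nat_lit 0) (.cons (.br (nat_lit 1) (.cons (.rel (nat_lit 25170048)) .nil)) .nil)) .leaf))) (nat_lit 11441858879929195) (.br (nat_lit 0) (.cons (.br (nat_lit 6) (.cons (.rel (nat_lit 17184063828)) .nil)) .nil)) (.node (.node (.node (.node .leaf (nat_lit 11441858879976736) (.br (nat_lit 0) (.cons (.br (nat_lit 3) (.cons (.rel (nat_lit 541070352)) .nil)) .nil)) .leaf) (nat_lit 11442924032841728) (.br (nat_lit 0) (.cons (.br (nat_lit 1) (.cons (.rel (nat_lit 21038352)) .nil)) .nil)) (.node .leaf (nat_lit 11442927406943739) (.br (nat_lit 0) (.cons (.br (nat_lit 2) (.cons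 (.rel (nat_lit 71344449)) .nil)) .nil)) .leaf)) (nat_lit 11442932620064032) (.br (nat_lit 4) (.cons (.br (nat_lit 3) (.cons (.rel (nat_lit 1342243860)) (.cons (.rel (nat_lit 1342218240)) .nil))) .nil)) (.node (.node .leaf (nat_lit 11442932621799424) (.br (nat_lit 0) (.cons (.br (nat_lit 3) (.cons (.br (nat_lit 2) (.cons (.rel (nat_lit 604062720)) (.cons (.rel (nat_lit 336069120)) .nil))) .nil)) .nil)) .leaf) (nat_lit 11442932621799709) (.br (nat_lit 3) (.cons (.br (nat_lit 6) (.cons (.rel (nat_lit 17448436032)) (.cons (.rel (nat_lit 34628206593)) (.cons (.rel (nat_lit 17448436032)) .nil)))) .nil)) .leaf)) (nat_lit 11445878496169984) (.br (nat_lit 0) (.cons (.br (nat_lit 3) (.cons (.rel (nat_lit 272631057)) .nil)) .nil)) (.node (.node (.node .leaf (nat_lit 11446090599625630) (.br (nat_lit 2) (.cons (.br (nat_lit 3) (.cons (.rel (nat_lit 671351040)) .nil)) .nil)) .leaf) (nat_lit 11446090600024720) (.br (nat_lit 2) (.cons (.br (nat_lit 3) (.cons (.rel (nat_lit 402653250)) .nil))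 .nil)) .leaf) (nat_lit 11446090600025376) (.br (nat_lit 0) (.cons (.br (nat_lit 2) (.cons (.rel (nat_lit 71319876)) .nil)) .nil)) (.node (.node .leaf (nat_lit 11446091618738461) (.br (nat_lit 0) (.cons (.br (nat_lit 1) (.cons (.rel (nat_lit 25170048)) .nil)) .nil)) .leaf) (nat_lit 11446093715992861) (.br (nat_lit 2) (.cons (.br (nat_lit 5) (.cons (.rel (nat_lit 4429185156)) (.cons (.rel (nat_lit 4363387152)) .nil))) .nil)) .leaf)))) (nat_lit 11446093716224630) (.br (nat_lit 0) (.cons (.br (nat_lit 3) (.cons (.rel (nat_lit 273679872)) .nil)) .nil)) (.node (.node (.node (.node (.node .leaf (nat_lit 11446093717465373) (.br (nat_lit 3) (.cons (.br (nat_lit 6) (.cons (.rel (nat_lit 17448585216)) .nil)) .nil)) .leaf) (nat_lit 11446093717465720) (.br (nat_lit 0) (.cons (.br (nat_lit 2) (.cons (.rel (nat_lit 142607940)) .nil)) .nil)) (.node .leaf (nat_lit 11446093717683102) (.br (nat_lit 3) (.cons (.br (nat_lit 4) (.cons (.rel (nat_lit 1342183440)) .nil)) .nil)) .leaf)) (nat_lit 11446093717729280)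 (.br (nat_lit 4) (.cons (.br (nat_lit 0) (.cons (.rel (nat_lit 1077953601)) (.cons (.rel (nat_lit 1078477056)) .nil))) .nil)) (.node (.node .leaf (nat_lit 11446093717729565) (.br (nat_lit 3) (.cons (.br (nat_lit 6) (.cons (.rel (nat_lit 17448436032)) .nil)) .nil)) .leaf) (nat_lit 11446093717730592) (.br (nat_lit 0) (.cons (.br (nat_lit 3) (.cons (.rel (nat_lit 276845568)) .nil)) .nil)) .leaf)) (nat_lit 11446093717733428) (.br (nat_lit 0) (.cons (.br (nat_lit 3) (.cons (.rel (nat_lit 276828228)) (.cons (.rel (nat_lit 272630052)) .nil))) (.cons (.br (nat_lit 6) (.cons (.rel (nat_lit 17186177028)) (.cons (.rel (nat_lit 17184395268)) .nil))) .nil))) (.node (.node (.node .leaf (nat_lit 11446093718706176) (.br (nat_lit 6) (.cons (.br (nat_lit 5) (.cons (.rel (nat_lit 25769804820)) (.cons (.rel (nat_lit 21475165248)) (.cons (.rel (nat_lit 21474836808)) .nil)))) .nil)) .leaf) (nat_lit 11446093718808627) (.br (nat_lit 0) (.cons (.br (nat_lit 3) (.cons (.rel (nat_lit 272909316)) .nil))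 .nil)) .leaf) (nat_lit 11446093718809978) (.br (nat_lit 3) (.cons (.br (nat_lit 5) (.cons (.rel (nat_lit 4563404037)) .nil)) .nil)) (.node (.node .leaf (nat_lit 11446093718941748) (.br (nat_lit 2) (.cons (.br (nat_lit 3) (.cons (.rel (nat_lit 335550720)) (.cons (.rel (nat_lit 335545665)) .nil))) (.cons (.br (nat_lit 3) (.cons (.rel (nat_lit 335544660)) (.cons (.rel (nat_lit 335545665)) .nil))) .nil))) .leaf) (nat_lit 11446093718942326) (.br (nat_lit 2) (.cons (.br (nat_lit 3) (.cons (.rel (nat_lit 335810625)) .nil)) .nil)) .leaf))) (nat_lit 11446093718953322) (.br (nat_lit 2) (.cons (.br (nat_lit 3) (.cons (.rel (nat_lit 335545665)) .nil)) .nil)) (.node (.node (.node (.node .leaf (nat_lit 11446093719044381) (.br (nat_lit 0) (.cons (.br (nat_lit 3) (.cons (.rel (nat_lit 272630052)) .nil)) .nil)) .leaf) (nat_lit 11446093719044728) (.br (nat_lit 0) (.cons (.br (nat_lit 3) (.cons (.rel (nat_lit 272631057)) .nil)) .nil)) (.node .leaf (nat_lit 11446093719044752) (.br (nat_lit 2) (.cons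 (.br (nat_lit 3) (.cons (.rel (nat_lit 336069120)) .nil)) .nil)) .leaf)) (nat_lit 11446093719045383) (.br (nat_lit 3) (.cons (.br (nat_lit 4) (.cons (.rel (nat_lit 2684375040)) .nil)) .nil)) (.node (.node .leaf (nat_lit 11447901414879519) (.br (nat_lit 0) (.cons (.br (nat_lit 1) (.cons (.rel (nat_lit 20971872)) .nil)) .nil)) .leaf) (nat_lit 11447901416351925) (.br (nat_lit 0) (.cons (.br (nat_lit 3) (.cons (.rel (nat_lit 272631057)) .nil)) .nil)) .leaf)) (nat_lit 11447914308569088) (.br (nat_lit 6) (.cons (.br (nat_lit 0) (.cons (.rel (nat_lit 34363932705)) (.cons (.rel (nat_lit 34368389376)) (.cons (.rel (nat_lit 17186177028)) .nil)))) (.cons (.br (nat_lit 1) (.cons (.rel (nat_lit 17196909696)) (.cons (.rel (nat_lit 17196663057)) (.cons (.rel (nat_lit 17196941316)) .nil)))) .nil))) (.node (.node (.node .leaf (nat_lit 11447914308569373) (.br (nat_lit 6) (.cons (.br (nat_lit 2) (.cons (.rel (nat_lit 17246978436)) (.cons (.rel (nat_lit 34426847313)) (.cons (.rel (nat_lit 17247062304))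 .nil)))) (.cons (.br (nat_lit 3) (.cons (.rel (nat_lit 17448436032)) (.cons (.rel (nat_lit 34628240448)) (.cons (.rel (nat_lit 34898707716)) (.cons (.rel (nat_lit 17450401812)) .nil))))) .nil))) .leaf) (nat_lit 11447914310668288) (.br (nat_lit 3) (.cons (.br (nat_lit 0) (.cons (.rel (nat_lit 272891976)) (.cons (.rel (nat_lit 272777472)) .nil))) .nil)) .leaf) (nat_lit 11447914310883613) (.br (nat_lit 0) (.cons (.br (nat_lit 3) (.cons (.rel (nat_lit 272891976)) .nil)) .nil)) (.node (.node .leaf (nat_lit 11447914310884638) (.br (nat_lit 0) (.cons (.br (nat_lit 1) (.cons (.rel (nat_lit 21364737)) .nil)) .nil)) .leaf) (nat_lit 11447915227123090) (.br (nat_lit 1) (.cons (.br (nat_lit 6) (.cons (.rel (nat_lit 17196663057)) .nil)) .nil)) .leaf)))))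

/-- refutations 30 -/
def e30 : EX := (.node (.node (.node (.node (.node .leaf (nat_lit 11910393844850688) (.br (nat_lit 0) (.cons (.br (nat_lit 2) (.cons (.rel (nat_lit 71630976)) .nil)) .nil)) .leaf) (nat_lit 11910393844850819) (.br (nat_lit 0) (.cons (.br (nat_lit 1) (.cons (.rel (nat_lit 23073792)) .nil)) .nil)) (.node .leaf (nat_lit 11910393845352480) (.br (nat_lit 0) (.cons (.br (nat_lit 5) (.cons (.rel (nat_lit 4299163968)) .nil)) .nil)) .leaf)) (nat_lit 11910393845352709) (.br (nat_lit 0) (.cons (.br (nat_lit 6) (.cons (.rel (nat_lit 34368209409)) .nil)) .nil)) (.node (.node .leaf (nat_lit 11910393845353709) (.br (nat_lit 0) (.cons (.br (nat_lit 5) (.cons (.rel (nat_lit 8594128920)) .nil)) .nil)) .leaf) (nat_lit 11910393845353979) (.br (nat_lit 0) (.cons (.br (nat_lit 1) (.cons (.rel (nat_lit 23068737)) .nil)) .nil)) (.node .leaf (nat_lit 11910393846377709) (.br (nat_lit 0) (.cons (.br (nat_lit 1) (.cons (.rel (nat_lit 20988162)) .nil)) .nil)) .leaf))) (nat_lit 11910393847400709)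 (.br (nat_lit 1) (.cons (.br (nat_lit 5) (.cons (.rel (nat_lit 4328587392)) .nil)) .nil)) (.node (.node (.node .leaf (nat_lit 11910393847401078) (.br (nat_lit 0) (.cons (.br (nat_lit 1) (.cons (.rel (nat_lit 21233796)) .nil)) .nil)) .leaf) (nat_lit 11910393847401709) (.br (nat_lit 0) (.cons (.br (nat_lit 6) (.cons (.rel (nat_lit 17184334848)) (.cons (.rel (nat_lit 17184081168)) .nil))) (.cons (.br (nat_lit 5) (.cons (.rel (nat_lit 4301324289)) (.cons (.rel (nat_lit 4299165954)) .nil))) .nil))) (.node .leaf (nat_lit 11911079278512154) (.br (nat_lit 1) (.cons (.br (nat_lit 3) (.cons (.rel (nat_lit 571473936)) .nil)) .nil)) .leaf)) (nat_lit 11911079278512809) (.br (nat_lit 0) (.cons (.br (nat_lit 3) (.cons (.rel (nat_lit 272891976)) .nil)) .nil)) (.node (.node .leaf (nat_lit 11911079279171041) (.br (nat_lit 0) (.cons (.br (nat_lit 1) (.cons (.rel (nat_lit 37749762)) .nil)) .nil)) .leaf) (nat_lit 11911079279699994) (.br (nat_lit 0) (.cons (.br (nat_lit 1) (.cons (.rel (nat_lit 20975877))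 .nil)) .nil)) .leaf))) (nat_lit 11912539231848709) (.br (nat_lit 1) (.cons (.br (nat_lit 5) (.cons (.rel (nat_lit 8623751424)) .nil)) .nil)) (.node (.node (.node (.node .leaf (nat_lit 11915381954672771) (.br (nat_lit 0) (.cons (.br (nat_lit 2) (.cons (.rel (nat_lit 77595201)) .nil)) .nil)) .leaf) (nat_lit 11915387034241024) (.br (nat_lit 0) (.cons (.br (nat_lit 3) (.cons (.rel (nat_lit 272777472)) (.cons (.rel (nat_lit 272957442)) .nil))) (.cons (.br (nat_lit 2) (.cons (.rel (nat_lit 71319876)) (.cons (.rel (nat_lit 75513858)) .nil))) .nil))) (.node .leaf (nat_lit 11915387034242555) (.br (nat_lit 3) (.cons (.br (nat_lit 1) (.cons (.rel (nat_lit 285245760)) (.cons (.rel (nat_lit 285245760)) .nil))) .nil)) .leaf)) (nat_lit 11915579317360666) (.br (nat_lit 0) (.cons (.br (nat_lit 3) (.cons (.rel (nat_lit 274726917)) .nil)) .nil)) (.node (.node .leaf (nat_lit 11915579317913757) (.br (nat_lit 5) (.cons (.br (nat_lit 0) (.cons (.rel (nat_lit 4299163968)) (.cons (.rel (nat_lit 4299423873))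 .nil))) .nil)) .leaf) (nat_lit 11915579318571034) (.br (nat_lit 3) (.cons (.br (nat_lit 4) (.cons (.rel (nat_lit 1342177380)) .nil)) .nil)) .leaf)) (nat_lit 11915579318572269) (.br (nat_lit 1) (.cons (.br (nat_lit 6) (.cons (.rel (nat_lit 34376515608)) .nil)) .nil)) (.node (.node (.node .leaf (nat_lit 11915584813109274) (.br (nat_lit 3) (.cons (.br (nat_lit 5) (.cons (.rel (nat_lit 8858435649)) (.cons (.rel (nat_lit 4831903752)) .nil))) .nil)) .leaf) (nat_lit 11915584813109929) (.br (nat_lit 3) (.cons (.br (nat_lit 5) (.cons (.rel (nat_lit 9127855104)) .nil)) .nil)) (.node .leaf (nat_lit 11915584813110509) (.br (nat_lit 1) (.cons (.br (nat_lit 5) (.cons (.rel (nat_lit 4328521737)) .nil)) .nil)) .leaf)) (nat_lit 11916370342676480) (.br (nat_lit 5) (.cons (.br (nat_lit 6) (.cons (.rel (nat_lit 21474840849)) .nil)) .nil)) (.node (.node .leaf (nat_lit 11916370342677160) (.br (nat_lit 0) (.cons (.br (nat_lit 4) (.cons (.rel (nat_lit 1077941316)) .nil)) .nil)) .leaf) (nat_lit 11916370343435501)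 (.br (nat_lit 0) (.cons (.br (nat_lit 2) (.cons (.rel (nat_lit 71319876)) .nil)) .nil)) .leaf))))

/-- refutations 31 -/
def e31 : EX := (.node (.node (.node (.node (.node (.node (.node .leaf (nat_lit 11921076876052637) (.br (nat_lit 5) (.cons (.br (nat_lit 6) (.cons (.rel (nat_lit 21475131393)) .nil)) .nil)) .leaf) (nat_lit 11921076876053741) (.br (nat_lit 3) (.cons (.br (nat_lit 6) (.cons (.rel (nat_lit 17448304902)) .nil)) .nil)) .leaf) (nat_lit 11921076876710569) (.br (nat_lit 2) (.cons (.br (nat_lit 4) (.cons (.rel (nat_lit 1140925440)) .nil)) .nil)) (.node (.node .leaf (nat_lit 11921076876711149) (.br (nat_lit 2) (.cons (.br (nat_lit 3) (.cons (.rel (nat_lit 336069120)) .nil)) .nil)) .leaf) (nat_lit 11921077501004082) (.br (nat_lit 0) (.cons (.br (nat_lit 2) (.cons (.rel (nat_lit 71311632)) .nil)) .nil)) .leaf)) (nat_lit 11921077501004406) (.br (nat_lit 2) (.cons (.br (nat_lit 0) (.cons (.rel (nat_lit 143720448)) (.cons (.rel (nat_lit 71630976)) .nil))) .nil)) (.node (.node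 (.node .leaf (nat_lit 11921077626566657) (.br (nat_lit 0) (.cons (.br (nat_lit 6) (.cons (.rel (nat_lit 17184329793)) .nil)) .nil)) .leaf) (nat_lit 11921077626832896) (.br (nat_lit 2) (.cons (.br (nat_lit 0) (.cons (.rel (nat_lit 138432516)) (.cons (.rel (nat_lit 71311632)) (.cons (.rel (nat_lit 71565321)) (.cons (.rel (nat_lit 143720448)) .nil))))) (.cons (.br (nat_lit 0) (.cons (.rel (nat_lit 71337216)) (.cons (.rel (nat_lit 73531392)) (.cons (.rel (nat_lit 72876096)) (.cons (.rel (nat_lit 71567376)) .nil))))) (.cons (.br (nat_lit 3) (.cons (.rel (nat_lit 336069120)) (.cons (.rel (nat_lit 671351040)) (.cons (.rel (nat_lit 402653250)) (.cons (.rel (nat_lit 336069120)) .nil))))) .nil)))) .leaf) (nat_lit 11921077626832897) (.br (nat_lit 0) (.cons (.br (nat_lit 1) (.cons (.rel (nat_lit 21251136)) (.cons (.rel (nat_lit 25167873)) .nil))) (.cons (.br (nat_lit 1) (.cons (.rel (nat_lit 21251136)) (.cons (.rel (nat_lit 20971872)) .nil))) .nil))) (.node .leaf (nat_lit 11921077626833027)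 (.br (nat_lit 3) (.cons (.br (nat_lit 4) (.cons (.rel (nat_lit 2684375040)) (.cons (.br (nat_lit 2) (.cons (.rel (nat_lit 1209008130)) (.cons (.rel (nat_lit 671351040)) (.cons (.rel (nat_lit 402658305)) .nil)))) .nil))) .nil)) .leaf))) (nat_lit 11921077626833157) (.br (nat_lit 3) (.cons (.br (nat_lit 6) (.cons (.rel (nat_lit 17450402817)) (.cons (.rel (nat_lit 17448329472)) (.cons (.rel (nat_lit 17448329472)) .nil)))) (.cons (.br (nat_lit 6) (.cons (.rel (nat_lit 34628194308)) (.cons (.rel (nat_lit 17716744197)) (.cons (.rel (nat_lit 17448304902)) .nil)))) (.cons (.br (nat_lit 6) (.cons (.rel (nat_lit 17716740192)) (.cons (.rel (nat_lit 17448305952)) (.cons (.rel (nat_lit 17450408064)) .nil)))) .nil)))) (.node (.node (.node (.node .leaf (nat_lit 11921077626834157) (.br (nat_lit 0) (.cons (.br (nat_lit 6) (.cons (.rel (nat_lit 17188290624)) (.cons (.rel (nat_lit 17184063828)) (.cons (.rel (nat_lit 34363949184)) (.cons (.rel (nat_lit 17184069888)) (.cons (.rel (nat_lit 17188290624))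 (.cons (.rel (nat_lit 17184069888)) .nil))))))) (.cons (.br (nat_lit 2) (.cons (.rel (nat_lit 75497568)) (.cons (.rel (nat_lit 143720448)) .nil))) .nil))) .leaf) (nat_lit 11921077626834203) (.br (nat_lit 1) (.cons (.br (nat_lit 5) (.cons (.rel (nat_lit 4329832512)) .nil)) .nil)) .leaf) (nat_lit 11921077626834332) (.br (nat_lit 1) (.cons (.br (nat_lit 3) (.cons (.rel (nat_lit 287309856)) .nil)) .nil)) (.node (.node .leaf (nat_lit 11921077627499932) (.br (nat_lit 1) (.cons (.br (nat_lit 2) (.cons (.rel (nat_lit 85999680)) .nil)) .nil)) .leaf) (nat_lit 11921077627858157) (.br (nat_lit 3) (.cons (.br (nat_lit 2) (.cons (.rel (nat_lit 603979905)) (.cons (.br (nat_lit 5) (.cons (.rel (nat_lit 4563404037)) (.cons (.rel (nat_lit 4565501952)) (.cons (.rel (nat_lit 4630511622)) .nil)))) .nil))) .nil)) .leaf)) (nat_lit 11921077628780027) (.br (nat_lit 2) (.cons (.br (nat_lit 4) (.cons (.rel (nat_lit 1140850725)) .nil)) .nil)) (.node (.node (.node .leaf (nat_lit 11921077628881157) (.br (nat_lit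 3) (.cons (.br (nat_lit 6) (.cons (.rel (nat_lit 34628194308)) (.cons (.rel (nat_lit 17448304902)) (.cons (.br (nat_lit 1) (.cons (.rel (nat_lit 17196909696)) (.cons (.rel (nat_lit 285213960)) (.cons (.rel (nat_lit 34376516613)) .nil)))) .nil)))) .nil)) .leaf) (nat_lit 11921077628882157) (.br (nat_lit 1) (.cons (.br (nat_lit 0) (.cons (.rel (nat_lit 20975877)) (.cons (.rel (nat_lit 20975877)) .nil))) .nil)) .leaf) (nat_lit 11921079723985157) (.br (nat_lit 1) (.cons (.br (nat_lit 0) (.cons (.br (nat_lit 3) (.cons (.rel (nat_lit 553648200)) (.cons (.rel (nat_lit 272630052)) (.cons (.rel (nat_lit 285212946)) .nil)))) (.cons (.rel (nat_lit 23073792)) (.cons (.rel (nat_lit 21251136)) .nil)))) .nil)) (.node .leaf (nat_lit 11921079723986157) (.br (nat_lit 0) (.cons (.br (nat_lit 2) (.cons (.rel (nat_lit 71565321)) (.cons (.rel (nat_lit 75501573)) .nil))) (.cons (.br (nat_lit 6) (.cons (.rel (nat_lit 17188290624)) (.cons (.rel (nat_lit 34363949184)) (.cons (.rel (nat_lit 34368389376))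 (.cons (.rel (nat_lit 17188290624)) (.cons (.rel (nat_lit 34363932705)) .nil)))))) .nil))) .leaf)))) (nat_lit 11921079723986446) (.br (nat_lit 1) (.cons (.br (nat_lit 2) (.cons (.rel (nat_lit 83919105)) .nil)) .nil)) (.node (.node (.node (.node (.node .leaf (nat_lit 11921079725010157) (.br (nat_lit 3) (.cons (.br (nat_lit 1) (.cons (.rel (nat_lit 285212946)) (.cons (.rel (nat_lit 553713666)) .nil))) .nil)) .leaf) (nat_lit 11921079726033157) (.br (nat_lit 3) (.cons (.br (nat_lit 1) (.cons (.rel (nat_lit 553648200)) (.cons (.rel (nat_lit 285245760)) .nil))) .nil)) .leaf) (nat_lit 11921079726034157) (.br (nat_lit 0) (.cons (.br (nat_lit 3) (.cons (.rel (nat_lit 276905988)) .nil)) .nil)) (.node (.node .leaf (nat_lit 11921082371248809) (.br (nat_lit 3) (.cons (.br (nat_lit 4) (.cons (.rel (nat_lit 1342181385)) (.cons (.rel (nat_lit 1342181385)) .nil))) .nil)) .leaf) (nat_lit 11921085671006209) (.br (nat_lit 0) (.cons (.br (nat_lit 5) (.cons (.rel (nat_lit 8594129925)) .nil)) .nil))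 .leaf)) (nat_lit 11921085671006339) (.br (nat_lit 2) (.cons (.br (nat_lit 5) (.cons (.rel (nat_lit 8658096384)) .nil)) .nil)) (.node (.node (.node .leaf (nat_lit 11921085671241859) (.br (nat_lit 0) (.cons (.br (nat_lit 3) (.cons (.rel (nat_lit 272777472)) .nil)) .nil)) .leaf) (nat_lit 11921085671507969) (.br (nat_lit 0) (.cons (.br (nat_lit 1) (.cons (.rel (nat_lit 23068737)) .nil)) .nil)) .leaf) (nat_lit 11921085671508099) (.br (nat_lit 2) (.cons (.br (nat_lit 5) (.cons (.rel (nat_lit 8657060868)) (.cons (.rel (nat_lit 8657060868)) .nil))) (.cons (.br (nat_lit 5) (.cons (.br (nat_lit 6) (.cons (.rel (nat_lit 21474854148)) (.cons (.rel (nat_lit 25904021760)) (.cons (.rel (nat_lit 17247109377)) .nil)))) (.cons (.rel (nat_lit 4429185156)) .nil))) .nil))) (.node .leaf (nat_lit 11921085671509519) (.br (nat_lit 2) (.cons (.br (nat_lit 5) (.cons (.rel (nat_lit 4362142032)) (.cons (.rel (nat_lit 4364255232)) .nil))) .nil)) .leaf))) (nat_lit 11921085672266989) (.br (nat_lit 0) (.cons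 (.br (nat_lit 1) (.cons (.rel (nat_lit 21251136)) (.cons (.rel (nat_lit 37834752)) .nil))) .nil)) (.node (.node (.node (.node .leaf (nat_lit 11922202907712914) (.br (nat_lit 6) (.cons (.br (nat_lit 1) (.cons (.rel (nat_lit 17196650772)) (.cons (.rel (nat_lit 17196663057)) .nil))) .nil)) .leaf) (nat_lit 11922202907762689) (.br (nat_lit 2) (.cons (.br (nat_lit 0) (.cons (.rel (nat_lit 71630976)) (.cons (.rel (nat_lit 71602176)) .nil))) .nil)) .leaf) (nat_lit 11922202907897234) (.br (nat_lit 0) (.cons (.br (nat_lit 3) (.cons (.rel (nat_lit 272777472)) (.cons (.rel (nat_lit 272891976)) .nil))) .nil)) (.node .leaf (nat_lit 11922202907971845) (.br (nat_lit 1) (.cons (.br (nat_lit 3) (.cons (.rel (nat_lit 285478920)) .nil)) .nil)) .leaf)) (nat_lit 11922202907972265) (.br (nat_lit 0) (.cons (.br (nat_lit 2) (.cons (.rel (nat_lit 71565321)) .nil)) .nil)) (.node (.node (.node .leaf (nat_lit 11922202907998209) (.br (nat_lit 0) (.cons (.br (nat_lit 1) (.cons (.rel (nat_lit 23068737)) .nil))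 .nil)) .leaf) (nat_lit 11922202907998339) (.br (nat_lit 3) (.cons (.br (nat_lit 0) (.cons (.br (nat_lit 1) (.cons (.rel (nat_lit 21364737)) (.cons (.rel (nat_lit 285213960)) .nil))) (.cons (.rel (nat_lit 273944832)) .nil))) .nil)) .leaf) (nat_lit 11922202907998469) (.br (nat_lit 0) (.cons (.br (nat_lit 1) (.cons (.rel (nat_lit 37749762)) (.cons (.rel (nat_lit 20971872)) .nil))) (.cons (.br (nat_lit 1) (.cons (.rel (nat_lit 23073792)) (.cons (.rel (nat_lit 37756992)) .nil))) .nil))) (.node .leaf (nat_lit 11922202907998984) (.br (nat_lit 1) (.cons (.br (nat_lit 3) (.cons (.rel (nat_lit 285212946)) .nil)) .nil)) .leaf))))) (nat_lit 11922202908264448) (.br (nat_lit 1) (.cons (.br (nat_lit 3) (.cons (.br (nat_lit 0) (.cons (.rel (nat_lit 37749762)) (.cons (.rel (nat_lit 21233796)) (.cons (.rel (nat_lit 272630052)) (.cons (.rel (nat_lit 21233796)) (.cons (.rel (nat_lit 21233796)) .nil)))))) (.cons (.rel (nat_lit 285245760)) .nil))) (.cons (.br (nat_lit 0) (.cons (.rel (nat_lit 37834752))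 (.cons (.rel (nat_lit 20975877)) (.cons (.rel (nat_lit 21364737)) (.cons (.rel (nat_lit 20988162)) (.cons (.rel (nat_lit 20975877)) .nil)))))) .nil))) (.node (.node (.node (.node (.node (.node .leaf (nat_lit 11922202908264449) (.br (nat_lit 0) (.cons (.br (nat_lit 1) (.cons (.rel (nat_lit 20988162)) (.cons (.rel (nat_lit 25166868)) .nil))) .nil)) .leaf) (nat_lit 11922202908264510) (.br (nat_lit 1) (.cons (.br (nat_lit 6) (.cons (.rel (nat_lit 17197039632)) (.cons (.rel (nat_lit 17214473472)) .nil))) .nil)) .leaf) (nat_lit 11922202908264579) (.br (nat_lit 1) (.cons (.br (nat_lit 2) (.cons (.rel (nat_lit 84148260)) (.cons (.rel (nat_lit 152305665)) (.cons (.rel (nat_lit 83906820)) .nil)))) (.cons (.br (nat_lit 2) (.cons (.br (nat_lit 3) (.cons (.rel (nat_lit 301990020)) (.cons (.rel (nat_lit 402653250)) (.cons (.rel (nat_lit 302120961)) .nil)))) (.cons (.rel (nat_lit 84295680)) (.cons (.rel (nat_lit 152305665)) .nil)))) .nil))) (.node (.node .leaf (nat_lit 11922202908264623) (.br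 (nat_lit 3) (.cons (.br (nat_lit 4) (.cons (.rel (nat_lit 1342181385)) .nil)) .nil)) .leaf) (nat_lit 11922202908264709) (.br (nat_lit 3) (.cons (.br (nat_lit 1) (.cons (.rel (nat_lit 285213960)) (.cons (.rel (nat_lit 285245760)) (.cons (.rel (nat_lit 553713666)) (.cons (.rel (nat_lit 285212946)) .nil))))) (.cons (.br (nat_lit 1) (.cons (.rel (nat_lit 286261761)) (.cons (.rel (nat_lit 285213960)) (.cons (.rel (nat_lit 285475920)) (.cons (.rel (nat_lit 285212946)) .nil))))) (.cons (.br (nat_lit 2) (.cons (.rel (nat_lit 335550720)) (.cons (.rel (nat_lit 603979905)) (.cons (.rel (nat_lit 603979905)) (.cons (.rel (nat_lit 336069120)) (.cons (.rel (nat_lit 603979905)) (.cons (.br (nat_lit 1) (.cons (.rel (nat_lit 85999680)) (.cons (.rel (nat_lit 285213960)) (.cons (.rel (nat_lit 84295680)) (.cons (.rel (nat_lit 151076880)) .nil))))) (.cons (.br (nat_lit 0) (.cons (.rel (nat_lit 541070352)) (.cons (.rel (nat_lit 75513858)) (.cons (.rel (nat_lit 541070352)) (.cons (.rel (nat_lit 138444801))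 (.cons (.rel (nat_lit 71630976)) (.cons (.rel (nat_lit 138444801)) .nil))))))) .nil)))))))) .nil)))) .leaf)) (nat_lit 11922202908265084) (.br (nat_lit 1) (.cons (.br (nat_lit 3) (.cons (.rel (nat_lit 303300618)) (.cons (.rel (nat_lit 285212946)) .nil))) (.cons (.br (nat_lit 0) (.cons (.rel (nat_lit 37750824)) (.cons (.rel (nat_lit 20971872)) (.cons (.rel (nat_lit 23068737)) .nil)))) .nil))) (.node (.node (.node .leaf (nat_lit 11922202908265109) (.br (nat_lit 0) (.cons (.br (nat_lit 1) (.cons (.rel (nat_lit 20971872)) .nil)) .nil)) .leaf) (nat_lit 11922202908265110) (.br (nat_lit 0) (.cons (.br (nat_lit 5) (.cons (.rel (nat_lit 4299423873)) (.cons (.rel (nat_lit 4299163968)) .nil))) .nil)) .leaf) (nat_lit 11922202908265260) (.br (nat_lit 3) (.cons (.br (nat_lit 4) (.cons (.rel (nat_lit 2684375040)) .nil)) .nil)) (.node .leaf (nat_lit 11922202908265355) (.br (nat_lit 2) (.cons (.br (nat_lit 3) (.cons (.rel (nat_lit 402653250)) (.cons (.rel (nat_lit 335545665)) .nil))) .nil)) .leaf)))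 (nat_lit 11922202908265709) (.br (nat_lit 0) (.cons (.br (nat_lit 1) (.cons (.rel (nat_lit 20988162)) (.cons (.rel (nat_lit 23085072)) (.cons (.rel (nat_lit 20975877)) (.cons (.rel (nat_lit 20975877)) (.cons (.rel (nat_lit 20975877)) .nil)))))) (.cons (.br (nat_lit 1) (.cons (.rel (nat_lit 20971872)) (.cons (.rel (nat_lit 23073792)) (.cons (.rel (nat_lit 21233796)) (.cons (.rel (nat_lit 42205476)) (.cons (.rel (nat_lit 21233796)) .nil)))))) .nil))) (.node (.node (.node (.node .leaf (nat_lit 11922202908265850) (.br (nat_lit 0) (.cons (.br (nat_lit 3) (.cons (.rel (nat_lit 272631057)) .nil)) .nil)) .leaf) (nat_lit 11922202908265884) (.br (nat_lit 1) (.cons (.br (nat_lit 0) (.cons (.rel (nat_lit 37834752)) (.cons (.rel (nat_lit 23085072)) .nil))) .nil)) .leaf) (nat_lit 11922202908265953) (.br (nat_lit 0) (.cons (.br (nat_lit 1) (.cons (.rel (nat_lit 23068737)) (.cons (.rel (nat_lit 42205476)) .nil))) .nil)) (.node (.node .leaf (nat_lit 11922202908265979) (.br (nat_lit 3) (.cons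 (.br (nat_lit 4) (.cons (.rel (nat_lit 1342324800)) (.cons (.rel (nat_lit 2684375040)) .nil))) .nil)) .leaf) (nat_lit 11922202908930309) (.br (nat_lit 0) (.cons (.br (nat_lit 1) (.cons (.rel (nat_lit 23068737)) (.cons (.rel (nat_lit 20975877)) .nil))) (.cons (.br (nat_lit 4) (.cons (.rel (nat_lit 1077941316)) (.cons (.rel (nat_lit 1077944352)) (.cons (.rel (nat_lit 1077941316)) .nil)))) .nil))) .leaf)) (nat_lit 11922202908932357) (.br (nat_lit 0) (.cons (.br (nat_lit 1) (.cons (.rel (nat_lit 37748757)) .nil)) .nil)) (.node (.node (.node .leaf (nat_lit 11922202909023469) (.br (nat_lit 0) (.cons (.br (nat_lit 1) (.cons (.rel (nat_lit 37756992)) (.cons (.rel (nat_lit 23073792)) .nil))) (.cons (.br (nat_lit 1) (.cons (.rel (nat_lit 21233796)) (.cons (.rel (nat_lit 38797572)) .nil))) .nil))) .leaf) (nat_lit 11922202909197695) (.br (nat_lit 0) (.cons (.br (nat_lit 1) (.cons (.rel (nat_lit 21233796)) .nil)) .nil)) .leaf) (nat_lit 11922202909288709) (.br (nat_lit 1) (.cons (.br (nat_lit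 6) (.cons (.rel (nat_lit 17197039632)) (.cons (.rel (nat_lit 17196909696)) .nil))) .nil)) (.node .leaf (nat_lit 11922202909289709) (.br (nat_lit 6) (.cons (.br (nat_lit 5) (.cons (.rel (nat_lit 21474836808)) (.cons (.rel (nat_lit 38654705685)) .nil))) .nil)) .leaf)))) (nat_lit 11922202909453549) (.br (nat_lit 0) (.cons (.br (nat_lit 6) (.cons (.rel (nat_lit 17184064833)) .nil)) .nil)) (.node (.node (.node (.node (.node .leaf (nat_lit 11922202910210179) (.br (nat_lit 0) (.cons (.br (nat_lit 1) (.cons (.rel (nat_lit 37749762)) .nil)) .nil)) .leaf) (nat_lit 11922202910210729) (.br (nat_lit 1) (.cons (.br (nat_lit 2) (.cons (.rel (nat_lit 84295680)) .nil)) .nil)) .leaf) (nat_lit 11922202910211579) (.br (nat_lit 4) (.cons (.br (nat_lit 6) (.cons (.br (nat_lit 2) (.cons (.rel (nat_lit 1140852744)) (.cons (.rel (nat_lit 17247109377)) .nil))) .nil)) .nil)) (.node (.node .leaf (nat_lit 11922202910313355) (.br (nat_lit 1) (.cons (.br (nat_lit 5) (.cons (.rel (nat_lit 4311745857)) .nil))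 .nil)) .leaf) (nat_lit 11922202910313709) (.br (nat_lit 0) (.cons (.br (nat_lit 1) (.cons (.rel (nat_lit 23073792)) .nil)) .nil)) .leaf)) (nat_lit 11922202910578688) (.br (nat_lit 0) (.cons (.br (nat_lit 1) (.cons (.rel (nat_lit 25170048)) (.cons (.rel (nat_lit 20975877)) .nil))) .nil)) (.node (.node (.node .leaf (nat_lit 11922202910815645) (.br (nat_lit 0) (.cons (.br (nat_lit 1) (.cons (.rel (nat_lit 25170048)) .nil)) .nil)) .leaf) (nat_lit 11922206053993084) (.br (nat_lit 1) (.cons (.br (nat_lit 2) (.cons (.rel (nat_lit 151126020)) .nil)) .nil)) .leaf) (nat_lit 11922208066706939) (.br (nat_lit 1) (.cons (.br (nat_lit 2) (.cons (.rel (nat_lit 84295680)) .nil)) .nil)) (.node .leaf (nat_lit 11922208066758044) (.br (nat_lit 2) (.cons (.br (nat_lit 3) (.cons (.rel (nat_lit 336069120)) .nil)) .nil)) .leaf))) (nat_lit 11922208066993434) (.br (nat_lit 0) (.cons (.br (nat_lit 5) (.cons (.rel (nat_lit 4299489348)) .nil)) .nil)) (.node (.node (.node (.node .leaf (nat_lit 11922208066993679)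 (.br (nat_lit 0) (.cons (.br (nat_lit 2) (.cons (.rel (nat_lit 71311632)) .nil)) .nil)) .leaf) (nat_lit 11922208067258394) (.br (nat_lit 3) (.cons (.br (nat_lit 4) (.cons (.rel (nat_lit 2415935745)) .nil)) .nil)) .leaf) (nat_lit 11922208067258499) (.br (nat_lit 5) (.cons (.br (nat_lit 1) (.cons (.rel (nat_lit 4311811332)) (.cons (.rel (nat_lit 4311811332)) .nil))) .nil)) (.node .leaf (nat_lit 11922208067259029) (.br (nat_lit 5) (.cons (.br (nat_lit 1) (.cons (.rel (nat_lit 4311811332)) (.cons (.rel (nat_lit 4311745857)) .nil))) .nil)) .leaf)) (nat_lit 11922208067259629) (.br (nat_lit 0) (.cons (.br (nat_lit 5) (.cons (.rel (nat_lit 4299165954)) .nil)) .nil)) (.node (.node (.node .leaf (nat_lit 11922208067259804) (.br (nat_lit 1) (.cons (.br (nat_lit 2) (.cons (.rel (nat_lit 85198080)) (.cons (.rel (nat_lit 83886480)) .nil))) .nil)) .leaf) (nat_lit 11922208067259919) (.br (nat_lit 6) (.cons (.br (nat_lit 5) (.cons (.rel (nat_lit 21475131393)) (.cons (.rel (nat_lit 21475165248))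 (.cons (.rel (nat_lit 38654706690)) .nil)))) .nil)) .leaf) (nat_lit 11922813091124461) (.br (nat_lit 0) (.cons (.br (nat_lit 1) (.cons (.br (nat_lit 3) (.cons (.rel (nat_lit 285542400)) .nil)) .nil)) .nil)) (.node .leaf (nat_lit 11922890648291328) (.br (nat_lit 0) (.cons (.br (nat_lit 1) (.cons (.rel (nat_lit 20988162)) .nil)) .nil)) .leaf))))))

/-- refutations 32 -/
def e32 : EX := (.node (.node (.node (.node .leaf (nat_lit 11102012150389643) (.br (nat_lit 1) (.cons (.br (nat_lit 2) (.cons (.rel (nat_lit 83919105)) .nil)) .nil)) .leaf) (nat_lit 11102269786533888) (.br (nat_lit 0) (.cons (.br (nat_lit 1) (.cons (.rel (nat_lit 21251136)) .nil)) .nil)) .leaf) (nat_lit 11102270948716720) (.br (nat_lit 0) (.cons (.br (nat_lit 5) (.cons (.rel (nat_lit 4299440208)) .nil)) .nil)) (.node .leaf (nat_lit 11103138532110512) (.br (nat_lit 0) (.cons (.br (nat_lit 1) (.cons (.br (nat_lit 4) (.cons (.rel (nat_lit 2151941121)) (.cons (.rel (nat_lit 1090652160)) (.cons (.rel (nat_lit 1090519200))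 .nil)))) .nil)) .nil)) .leaf)) (nat_lit 11108195456321693) (.br (nat_lit 1) (.cons (.br (nat_lit 3) (.cons (.rel (nat_lit 285491205)) .nil)) .nil)) (.node (.node (.node .leaf (nat_lit 11111838973669408) (.br (nat_lit 1) (.cons (.br (nat_lit 2) (.cons (.rel (nat_lit 100728840)) .nil)) .nil)) .leaf) (nat_lit 11111838974992384) (.br (nat_lit 2) (.cons (.br (nat_lit 4) (.cons (.rel (nat_lit 2281702404)) .nil)) .nil)) .leaf) (nat_lit 11111840136875536) (.br (nat_lit 1) (.cons (.br (nat_lit 2) (.cons (.rel (nat_lit 100668420)) .nil)) .nil)) (.node .leaf (nat_lit 11112577769937803) (.br (nat_lit 0) (.cons (.br (nat_lit 1) (.cons (.rel (nat_lit 21233796)) .nil)) .nil)) .leaf)))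

/-- refutations 33 -/
def e33 : EX := (.node (.node (.node .leaf (nat_lit 12069322718023680) (.br (nat_lit 2) (.cons (.br (nat_lit 3) (.cons (.rel (nat_lit 336069120)) .nil)) .nil)) .leaf) (nat_lit 12069322718024315) (.br (nat_lit 0) (.cons (.br (nat_lit 3) (.cons (.rel (nat_lit 274726917)) .nil)) .nil)) (.node .leaf (nat_lit 12069322719294075) (.br (nat_lit 0) (.cons (.br (nat_lit 2) (.cons (.rel (nat_lit 138432516)) .nil)) .nil)) .leaf)) (nat_lit 12069322720593920) (.br (nat_lit 0) (.cons (.br (nat_lit 1) (.cons (.rel (nat_lit 23134212)) .nil)) .nil)) (.node (.node .leaf (nat_lit 12076057226755303) (.br (nat_lit 2) (.cons (.br (nat_lit 3) (.cons (.rel (nat_lit 336069120)) .nil)) .nil)) .leaf) (nat_lit 12080535116036131) (.br (nat_lit 0) (.cons (.br (nat_lit 1) (.cons (.rel (nat_lit 20971872)) .nil)) .nil)) .leaf))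

/-- refutations 34 -/
def e34 : EX := (.node (.node (.node .leaf (nat_lit 13299748071756432) (.br (nat_lit 0) (.cons (.br (nat_lit 4) (.cons (.rel (nat_lit 1077944352)) .nil)) .nil)) .leaf) (nat_lit 13310644921565341) (.br (nat_lit 2) (.cons (.br (nat_lit 4) (.cons (.rel (nat_lit 2214854724)) .nil)) .nil)) .leaf) (nat_lit 13311984953912801) (.br (nat_lit 2) (.cons (.br (nat_lit 3) (.cons (.rel (nat_lit 335810625)) .nil)) .nil)) (.node .leaf (nat_lit 13313099267237888) (.br (nat_lit 2) (.cons (.br (nat_lit 5) (.cons (.rel (nat_lit 4362354816)) .nil)) .nil)) .leaf))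

/-- refutations 35 -/
def e35 : EX := (.node (.node (.node .leaf (nat_lit 13405521403248816) (.br (nat_lit 0) (.cons (.br (nat_lit 2) (.cons (.rel (nat_lit 71311632)) .nil)) .nil)) .leaf) (nat_lit 13405721065962379) (.br (nat_lit 1) (.cons (.br (nat_lit 2) (.cons (.rel (nat_lit 169869633)) .nil)) .nil)) (.node .leaf (nat_lit 13405721066170394) (.br (nat_lit 0) (.cons (.br (nat_lit 1) (.cons (.rel (nat_lit 20988162)) .nil)) .nil)) .leaf)) (nat_lit 13407713803698953) (.br (nat_lit 1) (.cons (.br (nat_lit 5) (.cons (.rel (nat_lit 4311811332)) .nil)) .nil)) (.node (.node .leaf (nat_lit 13411746099480065) (.br (nat_lit 2) (.cons (.br (nat_lit 0) (.cons (.rel (nat_lit 72876096)) (.cons (.rel (nat_lit 143720448)) .nil))) .nil)) .leaf) (nat_lit 13417544491665408) (.br (nat_lit 0) (.cons (.br (nat_lit 1) (.cons (.rel (nat_lit 23085072)) .nil)) .nil)) .leaf))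

/-- refutations 36 -/
def e36 : EX := (.node (.node (.node (.node .leaf (nat_lit 13635298721208382) (.br (nat_lit 1) (.cons (.br (nat_lit 2) (.cons (.rel (nat_lit 83886480)) .nil)) .nil)) .leaf) (nat_lit 13639616298192922) (.br (nat_lit 2) (.cons (.br (nat_lit 3) (.cons (.rel (nat_lit 671351040)) .nil)) .nil)) (.node .leaf (nat_lit 13639616299535017) (.br (nat_lit 1) (.cons (.br (nat_lit 2) (.cons (.rel (nat_lit 84148260)) (.cons (.rel (nat_lit 100663365)) .nil))) .nil)) .leaf)) (nat_lit 13641676428666880) (.br (nat_lit 1) (.cons (.br (nat_lit 3) (.cons (.rel (nat_lit 285213960)) .nil)) .nil)) (.node (.node .leaf (nat_lit 13645111107905562) (.br (nat_lit 1) (.cons (.br (nat_lit 6) (.cons (.rel (nat_lit 17196909696)) (.cons (.br (nat_lit 2) (.cons (.rel (nat_lit 100728840)) (.cons (.rel (nat_lit 150999120)) (.cons (.rel (nat_lit 34426912788)) .nil)))) .nil))) .nil)) .leaf) (nat_lit 13645111107906416) (.br (nat_lit 1) (.cons (.br (nat_lit 6) (.cons (.rel (nat_lit 17213423652))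 .nil)) .nil)) .leaf)) (nat_lit 13645111107906973) (.br (nat_lit 1) (.cons (.br (nat_lit 2) (.cons (.rel (nat_lit 100668420)) .nil)) .nil)) (.node (.node (.node .leaf (nat_lit 13645111109623834) (.br (nat_lit 3) (.cons (.br (nat_lit 2) (.cons (.rel (nat_lit 335611140)) (.cons (.rel (nat_lit 336069120)) .nil))) .nil)) .leaf) (nat_lit 13645979316750966) (.br (nat_lit 1) (.cons (.br (nat_lit 2) (.cons (.rel (nat_lit 83886480)) .nil)) .nil)) (.node .leaf (nat_lit 13645979319213293) (.br (nat_lit 0) (.cons (.br (nat_lit 1) (.cons (.rel (nat_lit 21038352)) .nil)) .nil)) .leaf)) (nat_lit 13647362423341118) (.br (nat_lit 0) (.cons (.br (nat_lit 1) (.cons (.rel (nat_lit 21251136)) .nil)) .nil)) (.node (.node .leaf (nat_lit 13647362423342561) (.br (nat_lit 6) (.cons (.br (nat_lit 0) (.cons (.rel (nat_lit 17184346128)) (.cons (.rel (nat_lit 17188258824)) .nil))) .nil)) .leaf) (nat_lit 13647367035726501) (.br (nat_lit 0) (.cons (.br (nat_lit 2) (.cons (.rel (nat_lit 71565321)) .nil)) .nil))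 .leaf)))

/-- refutations 37 -/
def e37 : EX := (.node (.node (.node (.node (.node .leaf (nat_lit 14179783749981035) (.br (nat_lit 0) (.cons (.br (nat_lit 2) (.cons (.rel (nat_lit 71630976)) .nil)) .nil)) .leaf) (nat_lit 14179788491189729) (.br (nat_lit 0) (.cons (.br (nat_lit 1) (.cons (.rel (nat_lit 20990229)) .nil)) .nil)) (.node .leaf (nat_lit 14179789515101035) (.br (nat_lit 0) (.cons (.br (nat_lit 1) (.cons (.rel (nat_lit 25167873)) (.cons (.rel (nat_lit 20975877)) .nil))) .nil)) .leaf)) (nat_lit 14179789516124160) (.br (nat_lit 0) (.cons (.br (nat_lit 2) (.cons (.rel (nat_lit 71565321)) .nil)) .nil)) (.node (.node .leaf (nat_lit 14179789517149535) (.br (nat_lit 1) (.cons (.br (nat_lit 6) (.cons (.rel (nat_lit 17196916737)) .nil)) .nil)) .leaf) (nat_lit 14179789517415030) (.br (nat_lit 0) (.cons (.br (nat_lit 1) (.cons (.rel (nat_lit 20988162)) .nil)) .nil)) .leaf)) (nat_lit 14179794440237056) (.br (nat_lit 0) (.cons (.br (nat_lit 2) (.cons (.rel (nat_lit 72876096)) .nil))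 .nil)) (.node (.node (.node .leaf (nat_lit 14180636543235423) (.br (nat_lit 0) (.cons (.br (nat_lit 1) (.cons (.rel (nat_lit 26492928)) .nil)) .nil)) .leaf) (nat_lit 14180677100628753) (.br (nat_lit 0) (.cons (.br (nat_lit 6) (.cons (.rel (nat_lit 17188258824)) .nil)) .nil)) (.node .leaf (nat_lit 14180911675469037) (.br (nat_lit 0) (.cons (.br (nat_lit 1) (.cons (.rel (nat_lit 37756992)) .nil)) .nil)) .leaf)) (nat_lit 14180911675970167) (.br (nat_lit 1) (.cons (.br (nat_lit 3) (.cons (.rel (nat_lit 285212946)) .nil)) .nil)) (.node (.node .leaf (nat_lit 14180911676993537) (.br (nat_lit 0) (.cons (.br (nat_lit 3) (.cons (.rel (nat_lit 272630052)) .nil)) .nil)) .leaf) (nat_lit 14180911677137202) (.br (nat_lit 1) (.cons (.br (nat_lit 2) (.cons (.rel (nat_lit 83906820)) .nil)) .nil)) .leaf))) (nat_lit 14180911677138302) (.br (nat_lit 0) (.cons (.br (nat_lit 2) (.cons (.rel (nat_lit 143720448)) .nil)) .nil)) (.node (.node (.node (.node .leaf (nat_lit 14180911677955455) (.br (nat_lit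 1) (.cons (.br (nat_lit 2) (.cons (.rel (nat_lit 168820818)) .nil)) .nil)) .leaf) (nat_lit 14180911678285037) (.br (nat_lit 1) (.cons (.br (nat_lit 3) (.cons (.rel (nat_lit 286261761)) .nil)) .nil)) (.node .leaf (nat_lit 14180911678429184) (.br (nat_lit 2) (.cons (.br (nat_lit 5) (.cons (.rel (nat_lit 4362142032)) .nil)) .nil)) .leaf)) (nat_lit 14180911678488637) (.br (nat_lit 1) (.cons (.br (nat_lit 2) (.cons (.rel (nat_lit 100668420)) .nil)) .nil)) (.node (.node .leaf (nat_lit 14180914247079150) (.br (nat_lit 1) (.cons (.br (nat_lit 2) (.cons (.rel (nat_lit 150999120)) .nil)) .nil)) .leaf) (nat_lit 14180914248368759) (.br (nat_lit 1) (.cons (.br (nat_lit 2) (.cons (.rel (nat_lit 83906820)) .nil)) .nil)) .leaf)) (nat_lit 14180914248369434) (.br (nat_lit 0) (.cons (.br (nat_lit 1) (.cons (.rel (nat_lit 20988162)) .nil)) .nil)) (.node (.node (.node .leaf (nat_lit 14180914248369633) (.br (nat_lit 1) (.cons (.br (nat_lit 6) (.cons (.rel (nat_lit 17196941316)) .nil)) .nil)) .leaf)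 (nat_lit 14180914249126648) (.br (nat_lit 0) (.cons (.br (nat_lit 1) (.cons (.rel (nat_lit 25167873)) .nil)) .nil)) (.node .leaf (nat_lit 14181881788805405) (.br (nat_lit 0) (.cons (.br (nat_lit 1) (.cons (.rel (nat_lit 23073792)) .nil)) .nil)) .leaf)) (nat_lit 14181881789124608) (.br (nat_lit 0) (.cons (.br (nat_lit 6) (.cons (.rel (nat_lit 17184064833)) (.cons (.rel (nat_lit 17184063828)) .nil))) .nil)) (.node (.node .leaf (nat_lit 14181881790416353) (.br (nat_lit 1) (.cons (.br (nat_lit 3) (.cons (.rel (nat_lit 571473936)) .nil)) .nil)) .leaf) (nat_lit 14181885458821776) (.br (nat_lit 0) (.cons (.br (nat_lit 2) (.cons (.rel (nat_lit 142607940)) .nil)) .nil)) .leaf))))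

/-- refutations 38 -/
def e38 : EX := (.node (.node (.node (.node (.node (.node (.node .leaf (nat_lit 14185208739852918) (.br (nat_lit 0) (.cons (.br (nat_lit 2) (.cons (.rel (nat_lit 71602176)) .nil)) .nil)) .leaf) (nat_lit 14185209213873633) (.br (nat_lit 0) (.cons (.br (nat_lit 1) (.cons (.rel (nat_lit 21251136)) .nil)) .nil)) .leaf) (nat_lit 14185209216422150) (.br (nat_lit 0) (.cons (.br (nat_lit 2) (.cons (.rel (nat_lit 72876096)) .nil)) .nil)) (.node .leaf (nat_lit 14186054401353116) (.br (nat_lit 3) (.cons (.br (nat_lit 4) (.cons (.rel (nat_lit 1342178385)) .nil)) .nil)) .leaf)) (nat_lit 14186056790938862) (.br (nat_lit 5) (.cons (.br (nat_lit 1) (.cons (.rel (nat_lit 4312076292)) (.cons (.rel (nat_lit 4311745857)) .nil))) .nil)) (.node (.node .leaf (nat_lit 14186174658704235) (.br (nat_lit 1) (.cons (.br (nat_lit 5) (.cons (.rel (nat_lit 4311750912)) .nil)) .nil)) .leaf) (nat_lit 14186174659209847) (.br (nat_lit 1) (.cons (.br (nat_lit 5) (.cons (.rel (nat_lit 4311745857))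 .nil)) .nil)) (.node .leaf (nat_lit 14186174659268608) (.br (nat_lit 1) (.cons (.br (nat_lit 2) (.cons (.rel (nat_lit 100663365)) (.cons (.rel (nat_lit 83906820)) (.cons (.rel (nat_lit 83919105)) (.cons (.br (nat_lit 0) (.cons (.rel (nat_lit 71630976)) (.cons (.rel (nat_lit 71602176)) (.cons (.rel (nat_lit 71319876)) (.cons (.rel (nat_lit 20975877)) (.cons (.rel (nat_lit 71567376)) .nil)))))) (.cons (.br (nat_lit 0) (.cons (.rel (nat_lit 73531392)) (.cons (.rel (nat_lit 71630976)) (.cons (.rel (nat_lit 138444801)) (.cons (.rel (nat_lit 20975877)) (.cons (.rel (nat_lit 159383808)) .nil)))))) .nil)))))) (.cons (.br (nat_lit 0) (.cons (.rel (nat_lit 20971872)) (.cons (.rel (nat_lit 25166868)) (.cons (.rel (nat_lit 21364737)) (.cons (.rel (nat_lit 21233796)) (.cons (.rel (nat_lit 20988162)) .nil)))))) .nil))) .leaf))) (nat_lit 14186174659923968) (.br (nat_lit 0) (.cons (.br (nat_lit 2) (.cons (.rel (nat_lit 143720448)) .nil)) .nil)) (.node (.node (.node (.node .leaf (nat_lit 14186174659924250)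 (.br (nat_lit 4) (.cons (.br (nat_lit 6) (.cons (.rel (nat_lit 18253617216)) .nil)) .nil)) .leaf) (nat_lit 14186174660293983) (.br (nat_lit 0) (.cons (.br (nat_lit 2) (.cons (.rel (nat_lit 71630976)) (.cons (.rel (nat_lit 71567376)) .nil))) (.cons (.br (nat_lit 1) (.cons (.rel (nat_lit 21364737)) (.cons (.rel (nat_lit 20975877)) (.cons (.rel (nat_lit 37748757)) (.cons (.rel (nat_lit 41964036)) .nil))))) .nil))) .leaf) (nat_lit 14186174660559109) (.br (nat_lit 3) (.cons (.br (nat_lit 6) (.cons (.rel (nat_lit 17448304902)) (.cons (.rel (nat_lit 17448304902)) .nil))) (.cons (.br (nat_lit 6) (.cons (.rel (nat_lit 17448305952)) (.cons (.rel (nat_lit 17448304902)) .nil))) .nil))) (.node .leaf (nat_lit 14186174661253896) (.br (nat_lit 3) (.cons (.br (nat_lit 5) (.cons (.rel (nat_lit 4831838277)) .nil)) .nil)) .leaf)) (nat_lit 14186174661316895) (.br (nat_lit 1) (.cons (.br (nat_lit 3) (.cons (.rel (nat_lit 285212946)) .nil)) .nil)) (.node (.node .leaf (nat_lit 14186174661317239) (.br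 (nat_lit 0) (.cons (.br (nat_lit 3) (.cons (.rel (nat_lit 276828228)) .nil)) .nil)) .leaf) (nat_lit 14186174661317240) (.br (nat_lit 1) (.cons (.br (nat_lit 3) (.cons (.rel (nat_lit 285286656)) (.cons (.rel (nat_lit 285491205)) .nil))) (.cons (.br (nat_lit 2) (.cons (.rel (nat_lit 100728840)) (.cons (.rel (nat_lit 85999680)) .nil))) .nil))) (.node .leaf (nat_lit 14186174661317483) (.br (nat_lit 2) (.cons (.br (nat_lit 0) (.cons (.rel (nat_lit 71319876)) (.cons (.rel (nat_lit 71319876)) .nil))) .nil)) .leaf)))) (nat_lit 14186174661318014) (.br (nat_lit 0) (.cons (.br (nat_lit 1) (.cons (.rel (nat_lit 20975877)) .nil)) .nil)) (.node (.node (.node (.node (.node .leaf (nat_lit 14186174661583633) (.br (nat_lit 0) (.cons (.br (nat_lit 1) (.cons (.rel (nat_lit 20971872)) .nil)) .nil)) .leaf) (nat_lit 14186174661717343) (.br (nat_lit 0) (.cons (.br (nat_lit 1) (.cons (.rel (nat_lit 20988162)) .nil)) .nil)) .leaf) (nat_lit 14186174661728418) (.br (nat_lit 3) (.cons (.br (nat_lit 5) (.cons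 (.rel (nat_lit 8858435649)) .nil)) .nil)) (.node .leaf (nat_lit 14186174661728562) (.br (nat_lit 4) (.cons (.br (nat_lit 5) (.cons (.rel (nat_lit 5368971777)) .nil)) .nil)) .leaf)) (nat_lit 14186174661729193) (.br (nat_lit 0) (.cons (.br (nat_lit 5) (.cons (.rel (nat_lit 4299165954)) .nil)) .nil)) (.node (.node .leaf (nat_lit 14186174661729532) (.br (nat_lit 5) (.cons (.br (nat_lit 1) (.cons (.rel (nat_lit 4311750912)) (.cons (.rel (nat_lit 4311745857)) .nil))) .nil)) .leaf) (nat_lit 14186174661787909) (.br (nat_lit 0) (.cons (.br (nat_lit 1) (.cons (.rel (nat_lit 37756992)) .nil)) .nil)) (.node .leaf (nat_lit 14186177307923063) (.br (nat_lit 0) (.cons (.br (nat_lit 1) (.cons (.rel (nat_lit 20971872)) .nil)) .nil)) .leaf))) (nat_lit 14186179676946434) (.br (nat_lit 0) (.cons (.br (nat_lit 2) (.cons (.rel (nat_lit 71319876)) .nil)) .nil)) (.node (.node (.node (.node .leaf (nat_lit 14186180427360256) (.br (nat_lit 3) (.cons (.br (nat_lit 4) (.cons (.rel (nat_lit 1342181385)) .nil))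 .nil)) .leaf) (nat_lit 14186180427727478) (.br (nat_lit 0) (.cons (.br (nat_lit 1) (.cons (.rel (nat_lit 20988162)) (.cons (.rel (nat_lit 37748757)) .nil))) (.cons (.br (nat_lit 1) (.cons (.rel (nat_lit 21038352)) (.cons (.rel (nat_lit 21303312)) .nil))) .nil))) .leaf) (nat_lit 14186180428485983) (.br (nat_lit 0) (.cons (.br (nat_lit 1) (.cons (.rel (nat_lit 25167873)) .nil)) .nil)) (.node .leaf (nat_lit 14186180428751478) (.br (nat_lit 3) (.cons (.br (nat_lit 0) (.cons (.br (nat_lit 1) (.cons (.rel (nat_lit 285212946)) (.cons (.rel (nat_lit 20988162)) .nil))) (.cons (.rel (nat_lit 272909316)) .nil))) .nil)) .leaf)) (nat_lit 14186180428892221) (.br (nat_lit 1) (.cons (.br (nat_lit 3) (.cons (.rel (nat_lit 285475920)) .nil)) .nil)) (.node (.node .leaf (nat_lit 14186180428892435) (.br (nat_lit 0) (.cons (.br (nat_lit 2) (.cons (.rel (nat_lit 71311632)) .nil)) .nil)) .leaf) (nat_lit 14187293443221790) (.br (nat_lit 0) (.cons (.br (nat_lit 1) (.cons (.rel (nat_lit 21233796)) .nil))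 .nil)) (.node .leaf (nat_lit 14187302037350401) (.br (nat_lit 1) (.cons (.br (nat_lit 6) (.cons (.rel (nat_lit 34376536128)) (.cons (.rel (nat_lit 17196650772)) .nil))) .nil)) .leaf))))) (nat_lit 14187302039143905) (.br (nat_lit 1) (.cons (.br (nat_lit 5) (.cons (.rel (nat_lit 4312027152)) .nil)) .nil)) (.node (.node (.node (.node (.node (.node .leaf (nat_lit 14187302039900337) (.br (nat_lit 0) (.cons (.br (nat_lit 2) (.cons (.br (nat_lit 5) (.cons (.rel (nat_lit 8658096384)) .nil)) .nil)) .nil)) .leaf) (nat_lit 14187302039900791) (.br (nat_lit 0) (.cons (.br (nat_lit 5) (.cons (.rel (nat_lit 4299163968)) (.cons (.rel (nat_lit 4299428928)) .nil))) .nil)) .leaf) (nat_lit 14187305158354944) (.br (nat_lit 2) (.cons (.br (nat_lit 5) (.cons (.rel (nat_lit 4429254672)) .nil)) .nil)) (.node .leaf (nat_lit 14187305159069696) (.br (nat_lit 0) (.cons (.br (nat_lit 1) (.cons (.rel (nat_lit 20971872)) .nil)) .nil)) .leaf)) (nat_lit 14187305159069853) (.br (nat_lit 0) (.cons (.br (nat_lit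 3) (.cons (.rel (nat_lit 272631057)) .nil)) .nil)) (.node (.node .leaf (nat_lit 14187305159338614) (.br (nat_lit 4) (.cons (.br (nat_lit 0) (.cons (.rel (nat_lit 2155937793)) (.cons (.rel (nat_lit 1077952596)) .nil))) .nil)) .leaf) (nat_lit 14187305160729206) (.br (nat_lit 3) (.cons (.br (nat_lit 6) (.cons (.rel (nat_lit 17716744197)) (.cons (.rel (nat_lit 17448436032)) .nil))) .nil)) (.node .leaf (nat_lit 14187305160874046) (.br (nat_lit 1) (.cons (.br (nat_lit 2) (.cons (.rel (nat_lit 83906820)) .nil)) .nil)) .leaf))) (nat_lit 14187305160875519) (.br (nat_lit 0) (.cons (.br (nat_lit 1) (.cons (.rel (nat_lit 20975877)) .nil)) .nil)) (.node (.node (.node (.node .leaf (nat_lit 14187305707242278) (.br (nat_lit 0) (.cons (.br (nat_lit 1) (.cons (.rel (nat_lit 37749762)) .nil)) .nil)) .leaf) (nat_lit 14187305707242379) (.br (nat_lit 0) (.cons (.br (nat_lit 2) (.cons (.rel (nat_lit 71337216)) .nil)) .nil)) .leaf) (nat_lit 14187305707303718) (.br (nat_lit 0) (.cons (.br (nat_lit 1)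 (.cons (.rel (nat_lit 23085072)) .nil)) .nil)) (.node .leaf (nat_lit 14187305707366687) (.br (nat_lit 1) (.cons (.br (nat_lit 3) (.cons (.rel (nat_lit 285213960)) .nil)) .nil)) .leaf)) (nat_lit 14187305707367030) (.br (nat_lit 1) (.cons (.br (nat_lit 0) (.cons (.rel (nat_lit 20972889)) (.cons (.rel (nat_lit 37749762)) (.cons (.rel (nat_lit 20971872)) .nil)))) .nil)) (.node (.node .leaf (nat_lit 14187305707367661) (.br (nat_lit 1) (.cons (.br (nat_lit 3) (.cons (.rel (nat_lit 285213960)) .nil)) .nil)) .leaf) (nat_lit 14187305707549328) (.br (nat_lit 0) (.cons (.br (nat_lit 2) (.cons (.rel (nat_lit 142607940)) .nil)) .nil)) (.node .leaf (nat_lit 14187305707868836) (.br (nat_lit 0) (.cons (.br (nat_lit 2) (.cons (.rel (nat_lit 71565321)) .nil)) .nil)) .leaf)))) (nat_lit 14187305707869035) (.br (nat_lit 0) (.cons (.br (nat_lit 1) (.cons (.rel (nat_lit 25167873)) (.cons (.rel (nat_lit 20975877)) .nil))) .nil)) (.node (.node (.node (.node (.node .leaf (nat_lit 14187305707869421) (.br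 (nat_lit 6) (.cons (.br (nat_lit 0) (.cons (.rel (nat_lit 17184329793)) (.cons (.rel (nat_lit 17184064833)) .nil))) .nil)) .leaf) (nat_lit 14187305708524895) (.br (nat_lit 0) (.cons (.br (nat_lit 1) (.cons (.rel (nat_lit 20971872)) .nil)) .nil)) .leaf) (nat_lit 14187305708791808) (.br (nat_lit 1) (.cons (.br (nat_lit 3) (.cons (.rel (nat_lit 285212946)) .nil)) .nil)) (.node .leaf (nat_lit 14187305708792438) (.br (nat_lit 1) (.cons (.br (nat_lit 2) (.cons (.rel (nat_lit 85198080)) .nil)) .nil)) .leaf)) (nat_lit 14187305708892160) (.br (nat_lit 0) (.cons (.br (nat_lit 2) (.cons (.rel (nat_lit 71565321)) (.cons (.rel (nat_lit 71337216)) .nil))) .nil)) (.node (.node .leaf (nat_lit 14187305708892337) (.br (nat_lit 0) (.cons (.br (nat_lit 5) (.cons (.rel (nat_lit 4299178248)) .nil)) .nil)) .leaf) (nat_lit 14187305708893711) (.br (nat_lit 0) (.cons (.br (nat_lit 1) (.cons (.rel (nat_lit 23085072)) .nil)) .nil)) (.node .leaf (nat_lit 14187305709035552) (.br (nat_lit 2) (.cons (.br (nat_lit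 5) (.cons (.br (nat_lit 4) (.cons (.rel (nat_lit 5368713282)) (.cons (.rel (nat_lit 5368713282)) (.cons (.rel (nat_lit 5368718337)) (.cons (.rel (nat_lit 5368711296)) .nil))))) (.cons (.rel (nat_lit 4364255232)) .nil))) .nil)) .leaf))) (nat_lit 14187305709036195) (.br (nat_lit 2) (.cons (.br (nat_lit 0) (.cons (.rel (nat_lit 73531392)) (.cons (.rel (nat_lit 71602176)) .nil))) .nil)) (.node (.node (.node (.node .leaf (nat_lit 14187305709037070) (.br (nat_lit 0) (.cons (.br (nat_lit 1) (.cons (.rel (nat_lit 25167873)) (.cons (.rel (nat_lit 37834752)) .nil))) .nil)) .leaf) (nat_lit 14187305709159030) (.br (nat_lit 0) (.cons (.br (nat_lit 1) (.cons (.rel (nat_lit 37748757)) (.cons (.rel (nat_lit 21251136)) .nil))) (.cons (.br (nat_lit 1) (.cons (.rel (nat_lit 20971872)) (.cons (.rel (nat_lit 23085072)) .nil))) .nil))) .leaf) (nat_lit 14187305709814390) (.br (nat_lit 0) (.cons (.br (nat_lit 4) (.cons (.rel (nat_lit 1077936261)) .nil)) .nil)) (.node .leaf (nat_lit 14187305709917535)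 (.br (nat_lit 1) (.cons (.br (nat_lit 2) (.cons (.rel (nat_lit 83906820)) (.cons (.rel (nat_lit 100663365)) .nil))) .nil)) .leaf)) (nat_lit 14187305710183030) (.br (nat_lit 1) (.cons (.br (nat_lit 3) (.cons (.rel (nat_lit 285245760)) (.cons (.rel (nat_lit 285212946)) .nil))) (.cons (.br (nat_lit 5) (.cons (.rel (nat_lit 8606711814)) (.cons (.rel (nat_lit 4312010817)) (.cons (.rel (nat_lit 4312269312)) .nil)))) .nil))) (.node (.node .leaf (nat_lit 14187305710323773) (.br (nat_lit 3) (.cons (.br (nat_lit 1) (.cons (.rel (nat_lit 285212946)) (.cons (.rel (nat_lit 285475920)) .nil))) .nil)) .leaf) (nat_lit 14187305710329084) (.br (nat_lit 1) (.cons (.br (nat_lit 2) (.cons (.rel (nat_lit 84295680)) .nil)) .nil)) (.node .leaf (nat_lit 14187305710388750) (.br (nat_lit 0) (.cons (.br (nat_lit 1) (.cons (.rel (nat_lit 21303312)) .nil)) .nil)) .leaf))))))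

/-- refutations 39 -/
def e39 : EX := (.node (.node (.node (.node (.node (.node (.node .leaf (nat_lit 14190469626245405) (.br (nat_lit 0) (.cons (.br (nat_lit 6) (.cons (.rel (nat_lit 34364477697)) .nil)) .nil)) .leaf) (nat_lit 14190469626245407) (.br (nat_lit 0) (.cons (.br (nat_lit 2) (.cons (.rel (nat_lit 71337216)) .nil)) .nil)) (.node .leaf (nat_lit 14190469626564608) (.br (nat_lit 0) (.cons (.br (nat_lit 2) (.cons (.rel (nat_lit 71565321)) (.cons (.rel (nat_lit 71319876)) .nil))) (.cons (.br (nat_lit 2) (.cons (.rel (nat_lit 71311632)) (.cons (.rel (nat_lit 71565321)) .nil))) .nil))) .leaf)) (nat_lit 14190469626565914) (.br (nat_lit 0) (.cons (.br (nat_lit 1) (.cons (.rel (nat_lit 20988162)) .nil)) .nil)) (.node (.node .leaf (nat_lit 14190469627219968) (.br (nat_lit 0) (.cons (.br (nat_lit 3) (.cons (.rel (nat_lit 541070352)) .nil)) .nil)) .leaf) (nat_lit 14190469627489568) (.br (nat_lit 0) (.cons (.br (nat_lit 5) (.cons (.rel (nat_lit 8594128920)) .nil)) .nil)) .leaf))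 (nat_lit 14190469627855109) (.br (nat_lit 2) (.cons (.br (nat_lit 6) (.cons (.rel (nat_lit 17314108416)) .nil)) .nil)) (.node (.node (.node .leaf (nat_lit 14190469627856353) (.br (nat_lit 1) (.cons (.br (nat_lit 3) (.cons (.rel (nat_lit 285213960)) (.cons (.rel (nat_lit 285478920)) .nil))) .nil)) .leaf) (nat_lit 14190469628880353) (.br (nat_lit 0) (.cons (.br (nat_lit 1) (.cons (.rel (nat_lit 20975877)) .nil)) .nil)) (.node .leaf (nat_lit 14190469629025193) (.br (nat_lit 1) (.cons (.br (nat_lit 5) (.cons (.rel (nat_lit 4312088577)) .nil)) .nil)) .leaf)) (nat_lit 14190469629083953) (.br (nat_lit 0) (.cons (.br (nat_lit 1) (.cons (.rel (nat_lit 23134212)) .nil)) .nil)) (.node (.node .leaf (nat_lit 14190471723216353) (.br (nat_lit 1) (.cons (.br (nat_lit 5) (.cons (.rel (nat_lit 4311811332)) .nil)) .nil)) .leaf) (nat_lit 14190471725008353) (.br (nat_lit 1) (.cons (.br (nat_lit 5) (.cons (.rel (nat_lit 4311811332)) .nil)) .nil)) .leaf))) (nat_lit 14191334386690678) (.br (nat_lit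 1) (.cons (.br (nat_lit 3) (.cons (.rel (nat_lit 285491205)) .nil)) .nil)) (.node (.node (.node (.node .leaf (nat_lit 14191594714998816) (.br (nat_lit 5) (.cons (.br (nat_lit 1) (.cons (.rel (nat_lit 4312269312)) (.cons (.rel (nat_lit 4311750912)) .nil))) .nil)) .leaf) (nat_lit 14191594716225568) (.br (nat_lit 5) (.cons (.br (nat_lit 0) (.cons (.rel (nat_lit 4299423873)) (.cons (.rel (nat_lit 8594194578)) .nil))) .nil)) (.node .leaf (nat_lit 14191594716226798) (.br (nat_lit 0) (.cons (.br (nat_lit 1) (.cons (.rel (nat_lit 23134212)) .nil)) .nil)) .leaf)) (nat_lit 14191594907494685) (.br (nat_lit 3) (.cons (.br (nat_lit 1) (.cons (.br (nat_lit 4) (.cons (.rel (nat_lit 1091600640)) (.cons (.rel (nat_lit 2164343040)) .nil))) (.cons (.br (nat_lit 6) (.cons (.rel (nat_lit 17196909696)) (.cons (.br (nat_lit 4) (.cons (.rel (nat_lit 36525047808)) (.cons (.rel (nat_lit 18253617216)) .nil))) .nil))) .nil))) .nil)) (.node (.node .leaf (nat_lit 14191594907495176) (.br (nat_lit 3) (.cons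 (.br (nat_lit 6) (.cons (.rel (nat_lit 34629485568)) .nil)) .nil)) .leaf) (nat_lit 14191594907495951) (.br (nat_lit 0) (.cons (.br (nat_lit 1) (.cons (.rel (nat_lit 37749762)) .nil)) .nil)) .leaf)) (nat_lit 14191594907677947) (.br (nat_lit 1) (.cons (.br (nat_lit 3) (.cons (.rel (nat_lit 285213960)) .nil)) .nil)) (.node (.node (.node .leaf (nat_lit 14191594907936768) (.br (nat_lit 3) (.cons (.br (nat_lit 1) (.cons (.rel (nat_lit 285213960)) (.cons (.br (nat_lit 2) (.cons (.rel (nat_lit 83906820)) (.cons (.rel (nat_lit 671351040)) .nil))) .nil))) .nil)) .leaf) (nat_lit 14191594907936800) (.br (nat_lit 2) (.cons (.br (nat_lit 1) (.cons (.rel (nat_lit 83919105)) (.cons (.rel (nat_lit 83906820)) .nil))) .nil)) .leaf) (nat_lit 14191594907937399) (.br (nat_lit 3) (.cons (.br (nat_lit 1) (.cons (.rel (nat_lit 285213960)) (.cons (.br (nat_lit 2) (.cons (.rel (nat_lit 83906820)) (.cons (.rel (nat_lit 402657300)) .nil))) .nil))) .nil)) (.node (.node .leaf (nat_lit 14191594907938204) (.br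 (nat_lit 1) (.cons (.br (nat_lit 2) (.cons (.rel (nat_lit 151126020)) .nil)) .nil)) .leaf) (nat_lit 14191594907938294) (.br (nat_lit 3) (.cons (.br (nat_lit 6) (.cons (.rel (nat_lit 34629485568)) .nil)) .nil)) .leaf)))) (nat_lit 14191594907938320) (.br (nat_lit 1) (.cons (.br (nat_lit 2) (.cons (.rel (nat_lit 151126020)) .nil)) .nil)) (.node (.node (.node (.node (.node .leaf (nat_lit 14191594907996160) (.br (nat_lit 2) (.cons (.br (nat_lit 1) (.cons (.rel (nat_lit 83919105)) (.cons (.rel (nat_lit 85463040)) (.cons (.br (nat_lit 0) (.cons (.rel (nat_lit 73531392)) (.cons (.rel (nat_lit 75513858)) (.cons (.rel (nat_lit 20975877)) (.cons (.rel (nat_lit 159383808)) .nil))))) (.cons (.rel (nat_lit 85463040)) .nil))))) .nil)) .leaf) (nat_lit 14191594907996445) (.br (nat_lit 0) (.cons (.br (nat_lit 6) (.cons (.rel (nat_lit 17184064833)) .nil)) .nil)) (.node .leaf (nat_lit 14191594907996837) (.br (nat_lit 5) (.cons (.br (nat_lit 1) (.cons (.rel (nat_lit 4311749910)) (.cons (.rel (nat_lit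 8623751424)) .nil))) .nil)) .leaf)) (nat_lit 14191594907997586) (.br (nat_lit 0) (.cons (.br (nat_lit 1) (.cons (.rel (nat_lit 20988162)) .nil)) .nil)) (.node (.node .leaf (nat_lit 14191594908663066) (.br (nat_lit 0) (.cons (.br (nat_lit 3) (.cons (.rel (nat_lit 273679872)) .nil)) .nil)) .leaf) (nat_lit 14191594908702720) (.br (nat_lit 0) (.cons (.br (nat_lit 1) (.cons (.rel (nat_lit 25247808)) .nil)) .nil)) .leaf)) (nat_lit 14191594908919808) (.br (nat_lit 0) (.cons (.br (nat_lit 6) (.cons (.rel (nat_lit 17184334848)) .nil)) .nil)) (.node (.node (.node .leaf (nat_lit 14191594908920070) (.br (nat_lit 0) (.cons (.br (nat_lit 1) (.cons (.rel (nat_lit 20971872)) .nil)) .nil)) .leaf) (nat_lit 14191594908920093) (.br (nat_lit 0) (.cons (.br (nat_lit 1) (.cons (.rel (nat_lit 23068737)) (.cons (.rel (nat_lit 23073792)) .nil))) (.cons (.br (nat_lit 6) (.cons (.rel (nat_lit 17184334848)) (.cons (.rel (nat_lit 17184334848)) .nil))) .nil))) .leaf) (nat_lit 14191594908920095) (.br (nat_lit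 1) (.cons (.br (nat_lit 3) (.cons (.rel (nat_lit 285212946)) .nil)) .nil)) (.node (.node .leaf (nat_lit 14191594908920489) (.br (nat_lit 0) (.cons (.br (nat_lit 1) (.cons (.rel (nat_lit 20971872)) .nil)) .nil)) .leaf) (nat_lit 14191594909021535) (.br (nat_lit 0) (.cons (.br (nat_lit 1) (.cons (.rel (nat_lit 25166868)) (.cons (.rel (nat_lit 20988162)) (.cons (.rel (nat_lit 25167873)) .nil)))) .nil)) .leaf))) (nat_lit 14191594909167120) (.br (nat_lit 1) (.cons (.br (nat_lit 5) (.cons (.rel (nat_lit 4311745857)) .nil)) .nil)) (.node (.node (.node (.node .leaf (nat_lit 14191594909286661) (.br (nat_lit 1) (.cons (.br (nat_lit 6) (.cons (.rel (nat_lit 17196651777)) (.cons (.rel (nat_lit 17196941316)) (.cons (.rel (nat_lit 17196651777)) .nil)))) (.cons (.br (nat_lit 3) (.cons (.rel (nat_lit 285286656)) (.cons (.rel (nat_lit 286261761)) (.cons (.rel (nat_lit 285478920)) .nil)))) .nil))) .leaf) (nat_lit 14191594909286685) (.br (nat_lit 0) (.cons (.br (nat_lit 4) (.cons (.rel (nat_lit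 1084506180)) (.cons (.rel (nat_lit 1083183108)) .nil))) .nil)) (.node .leaf (nat_lit 14191594909287057) (.br (nat_lit 1) (.cons (.br (nat_lit 3) (.cons (.rel (nat_lit 285286656)) .nil)) .nil)) .leaf)) (nat_lit 14191594909287062) (.br (nat_lit 1) (.cons (.br (nat_lit 4) (.cons (.rel (nat_lit 1090523205)) .nil)) .nil)) (.node (.node .leaf (nat_lit 14191594910044447) (.br (nat_lit 1) (.cons (.br (nat_lit 3) (.cons (.rel (nat_lit 285245760)) .nil)) .nil)) .leaf) (nat_lit 14191594910045035) (.br (nat_lit 1) (.cons (.br (nat_lit 2) (.cons (.rel (nat_lit 152305665)) (.cons (.rel (nat_lit 83886480)) .nil))) (.cons (.br (nat_lit 2) (.cons (.rel (nat_lit 83919105)) (.cons (.rel (nat_lit 83886480)) .nil))) .nil))) .leaf)) (nat_lit 14191594910045712) (.br (nat_lit 1) (.cons (.br (nat_lit 5) (.cons (.rel (nat_lit 4311744852)) .nil)) .nil)) (.node (.node (.node .leaf (nat_lit 14191594910310685) (.br (nat_lit 0) (.cons (.br (nat_lit 6) (.cons (.rel (nat_lit 17186177028)) .nil)) .nil)) .leaf)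 (nat_lit 14191594910310687) (.br (nat_lit 1) (.cons (.br (nat_lit 3) (.cons (.rel (nat_lit 285245760)) .nil)) .nil)) .leaf) (nat_lit 14191594910311062) (.br (nat_lit 0) (.cons (.br (nat_lit 5) (.cons (.rel (nat_lit 4299178248)) .nil)) .nil)) (.node (.node .leaf (nat_lit 14191594910311687) (.br (nat_lit 0) (.cons (.br (nat_lit 1) (.cons (.rel (nat_lit 23068737)) .nil)) .nil)) .leaf) (nat_lit 14191594910451712) (.br (nat_lit 1) (.cons (.br (nat_lit 2) (.cons (.rel (nat_lit 167776773)) .nil)) .nil)) .leaf))))) (nat_lit 14191594910456070) (.br (nat_lit 0) (.cons (.br (nat_lit 1) (.cons (.rel (nat_lit 25166868)) .nil)) .nil)) (.node (.node (.node (.node (.node (.node .leaf (nat_lit 14191594910515976) (.br (nat_lit 0) (.cons (.br (nat_lit 4) (.cons (.rel (nat_lit 1077936261)) (.cons (.rel (nat_lit 1083195393)) .nil))) (.cons (.br (nat_lit 1) (.cons (.rel (nat_lit 25247808)) (.cons (.rel (nat_lit 23068737)) .nil))) .nil))) .leaf) (nat_lit 14191594910516462) (.br (nat_lit 1) (.cons (.br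 (nat_lit 5) (.cons (.rel (nat_lit 4311745857)) .nil)) .nil)) (.node .leaf (nat_lit 14191596905192236) (.br (nat_lit 0) (.cons (.br (nat_lit 1) (.cons (.rel (nat_lit 20988162)) .nil)) .nil)) .leaf)) (nat_lit 14191596905408797) (.br (nat_lit 1) (.cons (.br (nat_lit 3) (.cons (.rel (nat_lit 285213960)) .nil)) .nil)) (.node (.node .leaf (nat_lit 14191597004647905) (.br (nat_lit 0) (.cons (.br (nat_lit 5) (.cons (.rel (nat_lit 4300734468)) (.cons (.rel (nat_lit 4299428928)) .nil))) .nil)) .leaf) (nat_lit 14191597006173535) (.br (nat_lit 0) (.cons (.br (nat_lit 2) (.cons (.rel (nat_lit 71319876)) .nil)) .nil)) .leaf)) (nat_lit 14191597006439905) (.br (nat_lit 1) (.cons (.br (nat_lit 5) (.cons (.rel (nat_lit 4311745857)) (.cons (.rel (nat_lit 4312010817)) (.cons (.rel (nat_lit 8623751424)) (.cons (.rel (nat_lit 4328521737)) .nil))))) .nil)) (.node (.node (.node .leaf (nat_lit 14191597007463905) (.br (nat_lit 1) (.cons (.br (nat_lit 5) (.cons (.rel (nat_lit 4311745857)) (.cons (.rel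 (nat_lit 4312010817)) (.cons (.rel (nat_lit 8623751424)) (.cons (.rel (nat_lit 4328521737)) .nil))))) .nil)) .leaf) (nat_lit 14191597298749466) (.br (nat_lit 0) (.cons (.br (nat_lit 1) (.cons (.rel (nat_lit 21303312)) .nil)) .nil)) .leaf) (nat_lit 14191597298750702) (.br (nat_lit 1) (.cons (.br (nat_lit 2) (.cons (.rel (nat_lit 85198080)) .nil)) .nil)) (.node (.node .leaf (nat_lit 14191597299919110) (.br (nat_lit 0) (.cons (.br (nat_lit 3) (.cons (.rel (nat_lit 273679872)) .nil)) .nil)) .leaf) (nat_lit 14191600125145350) (.br (nat_lit 3) (.cons (.br (nat_lit 1) (.cons (.rel (nat_lit 285286656)) (.cons (.rel (nat_lit 285212946)) .nil))) .nil)) .leaf))) (nat_lit 14191600125208861) (.br (nat_lit 3) (.cons (.br (nat_lit 6) (.cons (.rel (nat_lit 34629485568)) .nil)) .nil)) (.node (.node (.node (.node .leaf (nat_lit 14191600125345170) (.br (nat_lit 0) (.cons (.br (nat_lit 1) (.cons (.rel (nat_lit 20971872)) .nil)) .nil)) .leaf) (nat_lit 14191600125360285) (.br (nat_lit 0) (.cons (.br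 (nat_lit 2) (.cons (.rel (nat_lit 138432516)) .nil)) .nil)) (.node .leaf (nat_lit 14191600125650944) (.br (nat_lit 0) (.cons (.br (nat_lit 1) (.cons (.rel (nat_lit 20971872)) (.cons (.rel (nat_lit 20975877)) (.cons (.rel (nat_lit 23085072)) (.cons (.rel (nat_lit 20975877)) .nil))))) (.cons (.br (nat_lit 3) (.cons (.rel (nat_lit 272957442)) (.cons (.rel (nat_lit 272699712)) .nil))) .nil))) .leaf)) (nat_lit 14191600125651575) (.br (nat_lit 5) (.cons (.br (nat_lit 1) (.cons (.rel (nat_lit 4311745857)) (.cons (.rel (nat_lit 4311744852)) .nil))) .nil)) (.node (.node .leaf (nat_lit 14191600125652219) (.br (nat_lit 0) (.cons (.br (nat_lit 1) (.cons (.rel (nat_lit 23085072)) .nil)) .nil)) .leaf) (nat_lit 14191600125710362) (.br (nat_lit 1) (.cons (.br (nat_lit 5) (.cons (.rel (nat_lit 4311750912)) .nil)) .nil)) .leaf)) (nat_lit 14191600125710493) (.br (nat_lit 1) (.cons (.br (nat_lit 5) (.cons (.br (nat_lit 3) (.cons (.rel (nat_lit 9127855104)) (.cons (.rel (nat_lit 9127855104)) .nil)))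 .nil)) .nil)) (.node (.node (.node .leaf (nat_lit 14191600125710621) (.br (nat_lit 1) (.cons (.br (nat_lit 5) (.cons (.rel (nat_lit 4311750912)) .nil)) .nil)) .leaf) (nat_lit 14191600125711598) (.br (nat_lit 1) (.cons (.br (nat_lit 0) (.cons (.rel (nat_lit 21038352)) (.cons (.rel (nat_lit 21364737)) (.cons (.rel (nat_lit 20975877)) .nil)))) (.cons (.br (nat_lit 0) (.cons (.rel (nat_lit 20988162)) (.cons (.rel (nat_lit 21233796)) (.cons (.rel (nat_lit 25167873)) .nil)))) .nil))) .leaf) (nat_lit 14191600126365696) (.br (nat_lit 0) (.cons (.br (nat_lit 1) (.cons (.rel (nat_lit 20971872)) .nil)) .nil)) (.node (.node .leaf (nat_lit 14191600126365722) (.br (nat_lit 5) (.cons (.br (nat_lit 0) (.cons (.rel (nat_lit 8594128920)) (.cons (.rel (nat_lit 4304405760)) .nil))) .nil)) .leaf) (nat_lit 14191600126365853) (.br (nat_lit 0) (.cons (.br (nat_lit 3) (.cons (.rel (nat_lit 272630052)) (.cons (.rel (nat_lit 272631057)) .nil))) .nil)) .leaf)))) (nat_lit 14191600126365981) (.br (nat_lit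 0) (.cons (.br (nat_lit 3) (.cons (.rel (nat_lit 272699712)) .nil)) .nil)) (.node (.node (.node (.node (.node .leaf (nat_lit 14191600126366326) (.br (nat_lit 0) (.cons (.br (nat_lit 4) (.cons (.rel (nat_lit 1077941316)) .nil)) .nil)) .leaf) (nat_lit 14191600126366327) (.br (nat_lit 5) (.cons (.br (nat_lit 0) (.cons (.rel (nat_lit 4299178248)) (.cons (.rel (nat_lit 4299163968)) .nil))) .nil)) (.node .leaf (nat_lit 14191600126417027) (.br (nat_lit 0) (.cons (.br (nat_lit 5) (.cons (.rel (nat_lit 4299178248)) .nil)) .nil)) .leaf)) (nat_lit 14191600126634010) (.br (nat_lit 0) (.cons (.br (nat_lit 3) (.cons (.rel (nat_lit 272891976)) (.cons (.rel (nat_lit 272957442)) .nil))) .nil)) (.node (.node .leaf (nat_lit 14191600126634269) (.br (nat_lit 3) (.cons (.br (nat_lit 6) (.cons (.rel (nat_lit 17448436032)) (.cons (.rel (nat_lit 17448305952)) .nil))) (.cons (.br (nat_lit 6) (.cons (.rel (nat_lit 17450401812)) (.cons (.rel (nat_lit 17448567876)) .nil))) .nil))) .leaf) (nat_lit 14191600126634614)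 (.br (nat_lit 0) (.cons (.br (nat_lit 6) (.cons (.rel (nat_lit 17184333846)) .nil)) .nil)) .leaf)) (nat_lit 14191600126635359) (.br (nat_lit 0) (.cons (.br (nat_lit 3) (.cons (.rel (nat_lit 541065297)) .nil)) .nil)) (.node (.node (.node .leaf (nat_lit 14191600126734621) (.br (nat_lit 1) (.cons (.br (nat_lit 6) (.cons (.rel (nat_lit 17196650772)) .nil)) .nil)) .leaf) (nat_lit 14191600126878958) (.br (nat_lit 0) (.cons (.br (nat_lit 2) (.cons (.rel (nat_lit 73531392)) .nil)) .nil)) .leaf) (nat_lit 14191600126991218) (.br (nat_lit 0) (.cons (.br (nat_lit 3) (.cons (.rel (nat_lit 272630052)) .nil)) .nil)) (.node (.node .leaf (nat_lit 14191600127001206) (.br (nat_lit 0) (.cons (.br (nat_lit 1) (.cons (.rel (nat_lit 23073792)) .nil)) .nil)) .leaf) (nat_lit 14191600127001207) (.br (nat_lit 0) (.cons (.br (nat_lit 1) (.cons (.rel (nat_lit 44302341)) .nil)) .nil)) .leaf))) (nat_lit 14191600127002081) (.br (nat_lit 1) (.cons (.br (nat_lit 6) (.cons (.br (nat_lit 2) (.cons (.rel (nat_lit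 17314103361)) (.cons (.rel (nat_lit 151060545)) (.cons (.rel (nat_lit 17263771656)) (.cons (.rel (nat_lit 34495008768)) (.cons (.rel (nat_lit 83906820)) .nil)))))) .nil)) .nil)) (.node (.node (.node (.node .leaf (nat_lit 14191600127758598) (.br (nat_lit 5) (.cons (.br (nat_lit 2) (.cons (.rel (nat_lit 8657043528)) (.cons (.rel (nat_lit 4362473472)) (.cons (.rel (nat_lit 4362340356)) (.cons (.rel (nat_lit 4362084612)) .nil))))) .nil)) .leaf) (nat_lit 14191600127758621) (.br (nat_lit 0) (.cons (.br (nat_lit 1) (.cons (.rel (nat_lit 20988162)) .nil)) .nil)) (.node .leaf (nat_lit 14191600128024733) (.br (nat_lit 0) (.cons (.br (nat_lit 5) (.cons (.rel (nat_lit 4299178248)) .nil)) .nil)) .leaf)) (nat_lit 14191600128157696) (.br (nat_lit 1) (.cons (.br (nat_lit 6) (.cons (.rel (nat_lit 17196909696)) .nil)) .nil)) (.node (.node .leaf (nat_lit 14191600128157722) (.br (nat_lit 1) (.cons (.br (nat_lit 3) (.cons (.rel (nat_lit 285286656)) (.cons (.rel (nat_lit 571473936)) (.cons (.rel (nat_lit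 285212946)) .nil)))) .nil)) .leaf) (nat_lit 14191600128157827) (.br (nat_lit 0) (.cons (.br (nat_lit 6) (.cons (.rel (nat_lit 17184063828)) .nil)) .nil)) .leaf)) (nat_lit 14191600128158327) (.br (nat_lit 1) (.cons (.br (nat_lit 2) (.cons (.rel (nat_lit 85463040)) .nil)) .nil)) (.node (.node (.node .leaf (nat_lit 14191600128170615) (.br (nat_lit 1) (.cons (.br (nat_lit 2) (.cons (.rel (nat_lit 83919105)) .nil)) .nil)) .leaf) (nat_lit 14191600128170921) (.br (nat_lit 0) (.cons (.br (nat_lit 1) (.cons (.rel (nat_lit 20988162)) .nil)) .nil)) .leaf) (nat_lit 14191600128171510) (.br (nat_lit 0) (.cons (.br (nat_lit 3) (.cons (.rel (nat_lit 272630052)) .nil)) .nil)) (.node (.node .leaf (nat_lit 14192720191742614) (.br (nat_lit 0) (.cons (.br (nat_lit 1) (.cons (.rel (nat_lit 21303312)) .nil)) .nil)) .leaf) (nat_lit 14192724934110559) (.br (nat_lit 0) (.cons (.br (nat_lit 3) (.cons (.rel (nat_lit 272631057)) .nil)) .nil)) .leaf))))))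

/-- refutations 40 -/
def e40 : EX := (.node (.node (.node (.node .leaf (nat_lit 14081695159664797) (.br (nat_lit 2) (.cons (.br (nat_lit 3) (.cons (.rel (nat_lit 402653250)) (.cons (.rel (nat_lit 603996240)) .nil))) .nil)) .leaf) (nat_lit 15523833633305352) (.br (nat_lit 1) (.cons (.br (nat_lit 2) (.cons (.rel (nat_lit 100663365)) .nil)) .nil)) .leaf) (nat_lit 15523833634911134) (.br (nat_lit 0) (.cons (.br (nat_lit 6) (.cons (.rel (nat_lit 17188331520)) .nil)) .nil)) (.node (.node .leaf (nat_lit 15523833634966160) (.br (nat_lit 0) (.cons (.br (nat_lit 1) (.cons (.rel (nat_lit 23134212)) .nil)) .nil)) .leaf) (nat_lit 15523833635627139) (.br (nat_lit 0) (.cons (.br (nat_lit 1) (.cons (.rel (nat_lit 20988162)) .nil)) .nil)) .leaf)) (nat_lit 15523833635923994) (.br (nat_lit 2) (.cons (.br (nat_lit 0) (.cons (.rel (nat_lit 75513858)) (.cons (.rel (nat_lit 71565321)) .nil))) .nil)) (.node (.node (.node .leaf (nat_lit 15523833635925494) (.br (nat_lit 0) (.cons (.br (nat_lit 5) (.cons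 (.rel (nat_lit 8594129925)) .nil)) .nil)) .leaf) (nat_lit 15523835600237174) (.br (nat_lit 1) (.cons (.br (nat_lit 3) (.cons (.rel (nat_lit 286261761)) .nil)) .nil)) .leaf) (nat_lit 15527475765839898) (.br (nat_lit 1) (.cons (.br (nat_lit 2) (.cons (.rel (nat_lit 103284738)) .nil)) .nil)) (.node (.node .leaf (nat_lit 15527475765840648) (.br (nat_lit 1) (.cons (.br (nat_lit 3) (.cons (.rel (nat_lit 571473936)) .nil)) .nil)) .leaf) (nat_lit 15527475765840779) (.br (nat_lit 0) (.cons (.br (nat_lit 2) (.cons (.rel (nat_lit 71602176)) .nil)) .nil)) .leaf)))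

/-- refutations 41 -/
def e41 : EX := (.node (.node (.node (.node (.node (.node .leaf (nat_lit 15604326877698679) (.br (nat_lit 0) (.cons (.br (nat_lit 1) (.cons (.rel (nat_lit 20988162)) .nil)) .nil)) .leaf) (nat_lit 15605429963325492) (.br (nat_lit 4) (.cons (.br (nat_lit 6) (.cons (.rel (nat_lit 18253628496)) .nil)) .nil)) (.node .leaf (nat_lit 15606848858221174) (.br (nat_lit 0) (.cons (.br (nat_lit 6) (.cons (.rel (nat_lit 17184063828)) .nil)) .nil)) .leaf)) (nat_lit 15609742014121984) (.br (nat_lit 1) (.cons (.br (nat_lit 2) (.cons (.rel (nat_lit 84148260)) .nil)) .nil)) (.node (.node .leaf (nat_lit 15609742110091526) (.br (nat_lit 0) (.cons (.br (nat_lit 3) (.cons (.rel (nat_lit 541081632)) .nil)) .nil)) .leaf) (nat_lit 15609742110490676) (.br (nat_lit 1) (.cons (.br (nat_lit 4) (.cons (.rel (nat_lit 1090519200)) .nil)) .nil)) .leaf)) (nat_lit 15609742110590976) (.br (nat_lit 0) (.cons (.br (nat_lit 3) (.cons (.rel (nat_lit 541131777)) .nil)) .nil)) (.node (.node (.node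 .leaf (nat_lit 15610931515569554) (.br (nat_lit 0) (.cons (.br (nat_lit 2) (.cons (.rel (nat_lit 71337216)) .nil)) .nil)) .leaf) (nat_lit 15610932095301917) (.br (nat_lit 0) (.cons (.br (nat_lit 1) (.cons (.rel (nat_lit 21364737)) .nil)) .nil)) (.node .leaf (nat_lit 15612266800027699) (.br (nat_lit 0) (.cons (.br (nat_lit 5) (.cons (.rel (nat_lit 4299489348)) .nil)) .nil)) .leaf)) (nat_lit 15612272778702848) (.br (nat_lit 0) (.cons (.br (nat_lit 3) (.cons (.rel (nat_lit 276840513)) .nil)) .nil)) (.node (.node .leaf (nat_lit 15615232534978611) (.br (nat_lit 0) (.cons (.br (nat_lit 1) (.cons (.rel (nat_lit 20971872)) .nil)) .nil)) .leaf) (nat_lit 15616561767323648) (.br (nat_lit 1) (.cons (.br (nat_lit 6) (.cons (.rel (nat_lit 17197039632)) .nil)) .nil)) .leaf))) (nat_lit 15616561767323699) (.br (nat_lit 1) (.cons (.br (nat_lit 6) (.cons (.rel (nat_lit 17196941316)) .nil)) .nil)) (.node (.node (.node (.node .leaf (nat_lit 15616561767323779) (.br (nat_lit 3) (.cons (.br (nat_lit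 6) (.cons (.rel (nat_lit 34628173968)) .nil)) .nil)) .leaf) (nat_lit 15616561769064474) (.br (nat_lit 0) (.cons (.br (nat_lit 4) (.cons (.rel (nat_lit 2155876368)) .nil)) .nil)) (.node .leaf (nat_lit 15616561872181248) (.br (nat_lit 1) (.cons (.br (nat_lit 6) (.cons (.rel (nat_lit 17196712197)) (.cons (.rel (nat_lit 17196909696)) .nil))) .nil)) .leaf)) (nat_lit 15616561872181379) (.br (nat_lit 1) (.cons (.br (nat_lit 3) (.cons (.rel (nat_lit 302120961)) .nil)) .nil)) (.node (.node .leaf (nat_lit 15616561872181429) (.br (nat_lit 0) (.cons (.br (nat_lit 1) (.cons (.rel (nat_lit 20988162)) (.cons (.rel (nat_lit 23085072)) .nil))) .nil)) .leaf) (nat_lit 15616561872181533) (.br (nat_lit 3) (.cons (.br (nat_lit 6) (.cons (.rel (nat_lit 34628173968)) .nil)) .nil)) .leaf)) (nat_lit 15616561872181929) (.br (nat_lit 0) (.cons (.br (nat_lit 6) (.cons (.rel (nat_lit 34363932705)) .nil)) .nil)) (.node (.node (.node .leaf (nat_lit 15616561872182130) (.br (nat_lit 3) (.cons (.br (nat_lit 4)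 (.cons (.rel (nat_lit 1342181385)) .nil)) .nil)) .leaf) (nat_lit 15616561872235131) (.br (nat_lit 0) (.cons (.br (nat_lit 3) (.cons (.rel (nat_lit 272957442)) .nil)) .nil)) .leaf) (nat_lit 15616561872365594) (.br (nat_lit 1) (.cons (.br (nat_lit 3) (.cons (.rel (nat_lit 553713666)) .nil)) .nil)) (.node (.node .leaf (nat_lit 15616564074744069) (.br (nat_lit 0) (.cons (.br (nat_lit 6) (.cons (.rel (nat_lit 17184069888)) .nil)) .nil)) .leaf) (nat_lit 15616564077006899) (.br (nat_lit 6) (.cons (.br (nat_lit 0) (.cons (.rel (nat_lit 17184329793)) (.cons (.rel (nat_lit 17184064833)) .nil))) .nil)) .leaf)))) (nat_lit 15616567534444570) (.br (nat_lit 1) (.cons (.br (nat_lit 0) (.cons (.rel (nat_lit 21364737)) (.cons (.rel (nat_lit 21364737)) .nil))) .nil)) (.node (.node (.node (.node (.node .leaf (nat_lit 15616567534444829) (.br (nat_lit 0) (.cons (.br (nat_lit 1) (.cons (.rel (nat_lit 20971872)) .nil)) .nil)) .leaf) (nat_lit 15616567534445970) (.br (nat_lit 0) (.cons (.br (nat_lit 1)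 (.cons (.rel (nat_lit 25167873)) .nil)) .nil)) (.node .leaf (nat_lit 15616567534482969) (.br (nat_lit 0) (.cons (.br (nat_lit 3) (.cons (.rel (nat_lit 276856848)) .nil)) .nil)) .leaf)) (nat_lit 15616567534491648) (.br (nat_lit 6) (.cons (.br (nat_lit 0) (.cons (.rel (nat_lit 17184588288)) (.cons (.rel (nat_lit 17184588288)) (.cons (.rel (nat_lit 34368389376)) .nil)))) (.cons (.br (nat_lit 3) (.cons (.rel (nat_lit 34628173968)) (.cons (.rel (nat_lit 17716744197)) (.cons (.rel (nat_lit 17448632337)) (.cons (.rel (nat_lit 17448304902)) (.cons (.rel (nat_lit 17450402817)) .nil)))))) .nil))) (.node (.node .leaf (nat_lit 15616567534491779) (.br (nat_lit 3) (.cons (.br (nat_lit 2) (.cons (.rel (nat_lit 672157698)) (.cons (.rel (nat_lit 671351040)) (.cons (.rel (nat_lit 671351040)) (.cons (.rel (nat_lit 336069120)) .nil))))) (.cons (.br (nat_lit 0) (.cons (.rel (nat_lit 274726917)) (.cons (.rel (nat_lit 272957442)) (.cons (.rel (nat_lit 276840513)) (.cons (.rel (nat_lit 274726917)) .nil)))))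 (.cons (.br (nat_lit 0) (.cons (.rel (nat_lit 541065297)) (.cons (.rel (nat_lit 272630052)) (.cons (.rel (nat_lit 276856848)) (.cons (.rel (nat_lit 272891976)) .nil))))) .nil)))) .leaf) (nat_lit 15616567534493074) (.br (nat_lit 1) (.cons (.br (nat_lit 3) (.cons (.rel (nat_lit 287309856)) (.cons (.rel (nat_lit 285475920)) (.cons (.rel (nat_lit 287309856)) .nil)))) (.cons (.br (nat_lit 3) (.cons (.rel (nat_lit 285212946)) (.cons (.rel (nat_lit 285212946)) (.cons (.rel (nat_lit 286261761)) .nil)))) .nil))) .leaf)) (nat_lit 15616567534675994) (.br (nat_lit 0) (.cons (.br (nat_lit 3) (.cons (.rel (nat_lit 274726917)) .nil)) .nil)) (.node (.node (.node .leaf (nat_lit 15616567534783969) (.br (nat_lit 1) (.cons (.br (nat_lit 0) (.cons (.rel (nat_lit 20971872)) (.cons (.rel (nat_lit 20975877)) .nil))) .nil)) .leaf) (nat_lit 15616567534944887) (.br (nat_lit 0) (.cons (.br (nat_lit 1) (.cons (.rel (nat_lit 21233796)) .nil)) .nil)) (.node .leaf (nat_lit 15616567535802394) (.br (nat_lit 0)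 (.cons (.br (nat_lit 6) (.cons (.rel (nat_lit 17184329793)) .nil)) .nil)) .leaf)) (nat_lit 15616567536017408) (.br (nat_lit 0) (.cons (.br (nat_lit 1) (.cons (.rel (nat_lit 21364737)) .nil)) .nil)) (.node (.node .leaf (nat_lit 15616567536072082) (.br (nat_lit 0) (.cons (.br (nat_lit 1) (.cons (.rel (nat_lit 25170048)) .nil)) .nil)) .leaf) (nat_lit 15616567536080154) (.br (nat_lit 3) (.cons (.br (nat_lit 5) (.cons (.rel (nat_lit 4831854612)) .nil)) .nil)) .leaf))) (nat_lit 15616567536232448) (.br (nat_lit 0) (.cons (.br (nat_lit 1) (.cons (.rel (nat_lit 20971872)) (.cons (.rel (nat_lit 20971872)) (.cons (.rel (nat_lit 37749762)) .nil)))) (.cons (.br (nat_lit 1) (.cons (.rel (nat_lit 23073792)) (.cons (.rel (nat_lit 25167873)) (.cons (.rel (nat_lit 37749762)) .nil)))) .nil))) (.node (.node (.node (.node .leaf (nat_lit 15616567536232474) (.br (nat_lit 4) (.cons (.br (nat_lit 1) (.cons (.rel (nat_lit 1090519200)) (.cons (.rel (nat_lit 1090535490)) (.cons (.rel (nat_lit 1090551825))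 .nil)))) .nil)) .leaf) (nat_lit 15616567536338970) (.br (nat_lit 0) (.cons (.br (nat_lit 2) (.cons (.rel (nat_lit 71311632)) (.cons (.rel (nat_lit 71602176)) .nil))) (.cons (.br (nat_lit 2) (.cons (.rel (nat_lit 138432516)) (.cons (.rel (nat_lit 71373057)) .nil))) .nil))) (.node .leaf (nat_lit 15616567536340206) (.br (nat_lit 0) (.cons (.br (nat_lit 1) (.cons (.rel (nat_lit 20988162)) .nil)) .nil)) .leaf)) (nat_lit 15616567536991713) (.br (nat_lit 0) (.cons (.br (nat_lit 1) (.cons (.rel (nat_lit 21105024)) .nil)) .nil)) (.node (.node .leaf (nat_lit 15616567537051954) (.br (nat_lit 0) (.cons (.br (nat_lit 2) (.cons (.rel (nat_lit 75497568)) .nil)) .nil)) .leaf) (nat_lit 15616567537358848) (.br (nat_lit 0) (.cons (.br (nat_lit 2) (.cons (.rel (nat_lit 71373057)) .nil)) .nil)) .leaf)) (nat_lit 15616567537358874) (.br (nat_lit 0) (.cons (.br (nat_lit 3) (.cons (.rel (nat_lit 274726917)) (.cons (.rel (nat_lit 272957442)) .nil))) (.cons (.br (nat_lit 3) (.cons (.rel (nat_lit 273679872))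 (.cons (.rel (nat_lit 272631057)) .nil))) .nil))) (.node (.node (.node .leaf (nat_lit 15616567537359509) (.br (nat_lit 1) (.cons (.br (nat_lit 2) (.cons (.rel (nat_lit 84148260)) .nil)) .nil)) .leaf) (nat_lit 15616567537496090) (.br (nat_lit 4) (.cons (.br (nat_lit 5) (.cons (.rel (nat_lit 6442713096)) .nil)) .nil)) .leaf) (nat_lit 15616567537543194) (.br (nat_lit 4) (.cons (.br (nat_lit 6) (.cons (.rel (nat_lit 18254135616)) .nil)) .nil)) (.node (.node .leaf (nat_lit 15616567537543453) (.br (nat_lit 2) (.cons (.br (nat_lit 5) (.cons (.rel (nat_lit 4362142032)) .nil)) .nil)) .leaf) (nat_lit 15616567537544594) (.br (nat_lit 0) (.cons (.br (nat_lit 1) (.cons (.rel (nat_lit 21303312)) .nil)) .nil)) .leaf)))))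

/-- refutations 42 -/
def e42 : EX := (.node (.node (.node (.node .leaf (nat_lit 15861732317183478) (.br (nat_lit 0) (.cons (.br (nat_lit 1) (.cons (.rel (nat_lit 25166868)) .nil)) .nil)) .leaf) (nat_lit 15923139136187804) (.br (nat_lit 1) (.cons (.br (nat_lit 2) (.cons (.rel (nat_lit 84148260)) .nil)) .nil)) .leaf) (nat_lit 15923397508487944) (.br (nat_lit 0) (.cons (.br (nat_lit 1) (.cons (.rel (nat_lit 23068737)) .nil)) .nil)) (.node .leaf (nat_lit 15927686464782598) (.br (nat_lit 3) (.cons (.br (nat_lit 5) (.cons (.rel (nat_lit 4563664992)) .nil)) .nil)) .leaf)) (nat_lit 15928932006881280) (.br (nat_lit 0) (.cons (.br (nat_lit 1) (.cons (.rel (nat_lit 20975877)) .nil)) .nil)) (.node (.node .leaf (nat_lit 15932097948908425) (.br (nat_lit 0) (.cons (.br (nat_lit 1) (.cons (.rel (nat_lit 21364737)) .nil)) .nil)) .leaf) (nat_lit 15933227094852214) (.br (nat_lit 0) (.cons (.br (nat_lit 1) (.cons (.rel (nat_lit 23134212)) .nil)) .nil)) (.node .leaf (nat_lit 15933227095877763)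 (.br (nat_lit 0) (.cons (.br (nat_lit 1) (.cons (.rel (nat_lit 37748757)) .nil)) .nil)) .leaf)))

/-- refutations 43 -/
def e43 : EX := (.node (.node (.node (.node (.node (.node .leaf (nat_lit 15939002351749152) (.br (nat_lit 5) (.cons (.br (nat_lit 0) (.cons (.rel (nat_lit 4299163968)) (.cons (.rel (nat_lit 4299163968)) .nil))) .nil)) .leaf) (nat_lit 15939002351749271) (.br (nat_lit 1) (.cons (.br (nat_lit 2) (.cons (.rel (nat_lit 151060545)) .nil)) .nil)) .leaf) (nat_lit 15939002351749295) (.br (nat_lit 0) (.cons (.br (nat_lit 2) (.cons (.rel (nat_lit 71565321)) .nil)) .nil)) (.node .leaf (nat_lit 15946252256544943) (.br (nat_lit 1) (.cons (.br (nat_lit 2) (.cons (.rel (nat_lit 84149265)) (.cons (.rel (nat_lit 85999680)) .nil))) .nil)) .leaf)) (nat_lit 15946252256545643) (.br (nat_lit 1) (.cons (.br (nat_lit 2) (.cons (.rel (nat_lit 85999680)) .nil)) .nil)) (.node (.node (.node .leaf (nat_lit 15946252256545673) (.br (nat_lit 1) (.cons (.br (nat_lit 6) (.cons (.rel (nat_lit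 17196646722)) .nil)) .nil)) .leaf) (nat_lit 15946252256546143) (.br (nat_lit 0) (.cons (.br (nat_lit 1) (.cons (.rel (nat_lit 26492928)) .nil)) .nil)) .leaf) (nat_lit 15946252258398208) (.br (nat_lit 1) (.cons (.br (nat_lit 2) (.cons (.rel (nat_lit 85463040)) .nil)) .nil)) (.node .leaf (nat_lit 15946252258399483) (.br (nat_lit 1) (.cons (.br (nat_lit 2) (.cons (.rel (nat_lit 84148260)) .nil)) .nil)) .leaf))) (nat_lit 15946252258439168) (.br (nat_lit 1) (.cons (.br (nat_lit 3) (.cons (.rel (nat_lit 553648200)) .nil)) .nil)) (.node (.node (.node (.node .leaf (nat_lit 15946252259424918) (.br (nat_lit 0) (.cons (.br (nat_lit 1) (.cons (.rel (nat_lit 21233796)) .nil)) .nil)) .leaf) (nat_lit 15946252259425161) (.br (nat_lit 1) (.cons (.br (nat_lit 2) (.cons (.rel (nat_lit 84149265)) .nil)) .nil)) .leaf) (nat_lit 15946524311685896) (.br (nat_lit 0) (.cons (.br (nat_lit 2) (.cons (.rel (nat_lit 71319876)) .nil)) .nil)) (.node .leaf (nat_lit 15946524311686670) (.br (nat_lit 1) (.cons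 (.br (nat_lit 2) (.cons (.rel (nat_lit 100680705)) .nil)) .nil)) .leaf)) (nat_lit 15946524313331887) (.br (nat_lit 0) (.cons (.br (nat_lit 1) (.cons (.rel (nat_lit 25167873)) .nil)) .nil)) (.node (.node (.node .leaf (nat_lit 15946524313477381) (.br (nat_lit 0) (.cons (.br (nat_lit 1) (.cons (.rel (nat_lit 20988162)) .nil)) .nil)) .leaf) (nat_lit 15946524313478670) (.br (nat_lit 0) (.cons (.br (nat_lit 4) (.cons (.rel (nat_lit 1082131008)) .nil)) .nil)) .leaf) (nat_lit 15946524313598583) (.br (nat_lit 1) (.cons (.br (nat_lit 0) (.cons (.rel (nat_lit 21012744)) (.cons (.rel (nat_lit 20971872)) .nil))) .nil)) (.node .leaf (nat_lit 15949301683325103) (.br (nat_lit 1) (.cons (.br (nat_lit 3) (.cons (.rel (nat_lit 571473936)) (.cons (.rel (nat_lit 285286656)) .nil))) .nil)) .leaf)))) (nat_lit 15949558768994304) (.br (nat_lit 1) (.cons (.br (nat_lit 2) (.cons (.rel (nat_lit 84295680)) .nil)) .nil)) (.node (.node (.node (.node (.node .leaf (nat_lit 15949558768994965) (.br (nat_lit 1)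 (.cons (.br (nat_lit 4) (.cons (.rel (nat_lit 1090519200)) .nil)) .nil)) .leaf) (nat_lit 15949558772076544) (.br (nat_lit 0) (.cons (.br (nat_lit 1) (.cons (.rel (nat_lit 20988162)) .nil)) .nil)) .leaf) (nat_lit 15949558772141582) (.br (nat_lit 0) (.cons (.br (nat_lit 1) (.cons (.rel (nat_lit 25167873)) .nil)) .nil)) (.node .leaf (nat_lit 15949688231005421) (.br (nat_lit 0) (.cons (.br (nat_lit 2) (.cons (.rel (nat_lit 71602176)) .nil)) .nil)) .leaf)) (nat_lit 15949688232028335) (.br (nat_lit 0) (.cons (.br (nat_lit 2) (.cons (.rel (nat_lit 71565321)) .nil)) .nil)) (.node (.node (.node .leaf (nat_lit 15949688233321709) (.br (nat_lit 1) (.cons (.br (nat_lit 5) (.cons (.rel (nat_lit 4311745857)) .nil)) .nil)) .leaf) (nat_lit 15950547223842318) (.br (nat_lit 0) (.cons (.br (nat_lit 1) (.cons (.rel (nat_lit 20975877)) .nil)) .nil)) .leaf) (nat_lit 15950549323809443) (.br (nat_lit 0) (.cons (.br (nat_lit 1) (.cons (.rel (nat_lit 20988162)) .nil)) .nil)) (.node .leaf (nat_lit 15950549323809643)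 (.br (nat_lit 0) (.cons (.br (nat_lit 1) (.cons (.rel (nat_lit 20975877)) .nil)) .nil)) .leaf))) (nat_lit 15950552991008768) (.br (nat_lit 1) (.cons (.br (nat_lit 5) (.cons (.rel (nat_lit 4311745857)) .nil)) .nil)) (.node (.node (.node (.node .leaf (nat_lit 15950552991010318) (.br (nat_lit 5) (.cons (.br (nat_lit 1) (.cons (.rel (nat_lit 4311810330)) (.cons (.rel (nat_lit 4328558592)) .nil))) .nil)) .leaf) (nat_lit 15950810684852984) (.br (nat_lit 2) (.cons (.br (nat_lit 4) (.cons (.rel (nat_lit 1140850725)) .nil)) .nil)) .leaf) (nat_lit 15950810686706326) (.br (nat_lit 1) (.cons (.br (nat_lit 2) (.cons (.rel (nat_lit 84148260)) .nil)) .nil)) (.node .leaf (nat_lit 15950815610758527) (.br (nat_lit 0) (.cons (.br (nat_lit 5) (.cons (.rel (nat_lit 4299227424)) .nil)) .nil)) .leaf)) (nat_lit 15950815610758670) (.br (nat_lit 1) (.cons (.br (nat_lit 2) (.cons (.rel (nat_lit 83919105)) .nil)) .nil)) (.node (.node .leaf (nat_lit 15950818729528733) (.br (nat_lit 0) (.cons (.br (nat_lit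 1) (.cons (.rel (nat_lit 23068737)) .nil)) .nil)) .leaf) (nat_lit 15950818730151149) (.br (nat_lit 1) (.cons (.br (nat_lit 2) (.cons (.rel (nat_lit 84217920)) .nil)) .nil)) (.node .leaf (nat_lit 15951410832591753) (.br (nat_lit 0) (.cons (.br (nat_lit 4) (.cons (.rel (nat_lit 1077936261)) .nil)) .nil)) .leaf)))))

/-- refutations 44 -/
def e44 : EX := (.node (.node (.node (.node (.node (.node .leaf (nat_lit 16009167035173494) (.br (nat_lit 0) (.cons (.br (nat_lit 1) (.cons (.rel (nat_lit 21251136)) .nil)) .nil)) .leaf) (nat_lit 16009373193702006) (.br (nat_lit 0) (.cons (.br (nat_lit 2) (.cons (.rel (nat_lit 71630976)) .nil)) .nil)) .leaf) (nat_lit 16009373194944797) (.br (nat_lit 0) (.cons (.br (nat_lit 2) (.cons (.rel (nat_lit 71319876)) .nil)) .nil)) (.node (.node .leaf (nat_lit 16011466289209344) (.br (nat_lit 0) (.cons (.br (nat_lit 1) (.cons (.rel (nat_lit 20971872)) .nil)) .nil)) .leaf) (nat_lit 16011466289256448) (.br (nat_lit 0) (.cons (.br (nat_lit 1) (.cons (.rel (nat_lit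 20971872)) .nil)) .nil)) .leaf)) (nat_lit 16011466289309722) (.br (nat_lit 2) (.cons (.br (nat_lit 1) (.cons (.rel (nat_lit 83906820)) (.cons (.rel (nat_lit 100668420)) .nil))) .nil)) (.node (.node (.node .leaf (nat_lit 16011469138985245) (.br (nat_lit 0) (.cons (.br (nat_lit 2) (.cons (.rel (nat_lit 71565321)) .nil)) .nil)) .leaf) (nat_lit 16011469686695962) (.br (nat_lit 0) (.cons (.br (nat_lit 2) (.cons (.rel (nat_lit 73531392)) .nil)) .nil)) .leaf) (nat_lit 16011472706494464) (.br (nat_lit 0) (.cons (.br (nat_lit 1) (.cons (.rel (nat_lit 23085072)) .nil)) .nil)) (.node (.node .leaf (nat_lit 16014558665709568) (.br (nat_lit 5) (.cons (.br (nat_lit 6) (.cons (.rel (nat_lit 25769805825)) (.cons (.rel (nat_lit 25769808000)) .nil))) .nil)) .leaf) (nat_lit 16014558665762842) (.br (nat_lit 6) (.cons (.br (nat_lit 2) (.cons (.br (nat_lit 1) (.cons (.rel (nat_lit 17196646722)) (.cons (.rel (nat_lit 83886480)) (.cons (.rel (nat_lit 34376613888)) (.cons (.rel (nat_lit 17198743632))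 .nil))))) (.cons (.rel (nat_lit 17314119696)) .nil))) .nil)) .leaf))) (nat_lit 16014558666262685) (.br (nat_lit 3) (.cons (.br (nat_lit 6) (.cons (.rel (nat_lit 17448304902)) .nil)) .nil)) (.node (.node (.node (.node .leaf (nat_lit 16014558667235354) (.br (nat_lit 3) (.cons (.br (nat_lit 0) (.cons (.rel (nat_lit 272777472)) (.cons (.rel (nat_lit 272891976)) (.cons (.rel (nat_lit 541131777)) .nil)))) .nil)) .leaf) (nat_lit 16014559752087837) (.br (nat_lit 6) (.cons (.br (nat_lit 3) (.cons (.rel (nat_lit 17450401812)) (.cons (.br (nat_lit 4) (.cons (.rel (nat_lit 1342177380)) (.cons (.rel (nat_lit 1342243860)) .nil))) .nil))) .nil)) .leaf) (nat_lit 16014559752489590) (.br (nat_lit 0) (.cons (.br (nat_lit 1) (.cons (.rel (nat_lit 23085072)) .nil)) .nil)) (.node (.node .leaf (nat_lit 16014559752587290) (.br (nat_lit 5) (.cons (.br (nat_lit 3) (.cons (.rel (nat_lit 9127855104)) (.cons (.rel (nat_lit 4565501952)) .nil))) .nil)) .leaf) (nat_lit 16014559752588525) (.br (nat_lit 1) (.cons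 (.br (nat_lit 5) (.cons (.rel (nat_lit 4328558592)) .nil)) .nil)) .leaf)) (nat_lit 16014565083047962) (.br (nat_lit 4) (.cons (.br (nat_lit 2) (.cons (.br (nat_lit 0) (.cons (.rel (nat_lit 71630976)) (.cons (.rel (nat_lit 1077936261)) (.cons (.rel (nat_lit 71567376)) .nil)))) (.cons (.rel (nat_lit 1140867204)) .nil))) .nil)) (.node (.node (.node .leaf (nat_lit 16014565084791414) (.br (nat_lit 3) (.cons (.br (nat_lit 0) (.cons (.rel (nat_lit 272630052)) (.cons (.rel (nat_lit 272957442)) (.cons (.rel (nat_lit 272777472)) .nil)))) (.cons (.br (nat_lit 0) (.cons (.rel (nat_lit 272957442)) (.cons (.rel (nat_lit 272896017)) (.cons (.rel (nat_lit 272699712)) .nil)))) .nil))) .leaf) (nat_lit 16014565085999261) (.br (nat_lit 0) (.cons (.br (nat_lit 2) (.cons (.rel (nat_lit 71630976)) .nil)) .nil)) .leaf) (nat_lit 16014565085999366) (.br (nat_lit 0) (.cons (.br (nat_lit 3) (.cons (.rel (nat_lit 541065297)) .nil)) .nil)) (.node .leaf (nat_lit 16020056223801344) (.br (nat_lit 0) (.cons (.br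 (nat_lit 1) (.cons (.rel (nat_lit 20971872)) (.cons (.rel (nat_lit 25166868)) (.cons (.rel (nat_lit 20971872)) .nil)))) (.cons (.br (nat_lit 2) (.cons (.rel (nat_lit 71319876)) (.cons (.rel (nat_lit 143720448)) .nil))) .nil))) .leaf)))) (nat_lit 16020056223801370) (.br (nat_lit 6) (.cons (.br (nat_lit 0) (.cons (.br (nat_lit 1) (.cons (.rel (nat_lit 17197711872)) (.cons (.rel (nat_lit 23134212)) .nil))) (.cons (.rel (nat_lit 17186177028)) .nil))) .nil)) (.node (.node (.node (.node (.node .leaf (nat_lit 16020056223801396) (.br (nat_lit 5) (.cons (.br (nat_lit 1) (.cons (.rel (nat_lit 4311744852)) (.cons (.rel (nat_lit 4311811332)) (.cons (.rel (nat_lit 4311745857)) .nil)))) (.cons (.br (nat_lit 0) (.cons (.rel (nat_lit 4299227424)) (.cons (.rel (nat_lit 4301262864)) (.cons (.rel (nat_lit 4299165954)) .nil)))) .nil))) .leaf) (nat_lit 16020056223801630) (.br (nat_lit 0) (.cons (.br (nat_lit 1) (.cons (.rel (nat_lit 21233796)) .nil)) .nil)) .leaf) (nat_lit 16020056223801975) (.br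 (nat_lit 0) (.cons (.br (nat_lit 1) (.cons (.rel (nat_lit 20971872)) .nil)) .nil)) (.node (.node .leaf (nat_lit 16020056223848500) (.br (nat_lit 5) (.cons (.br (nat_lit 6) (.cons (.rel (nat_lit 38654705685)) .nil)) .nil)) .leaf) (nat_lit 16020056223901722) (.br (nat_lit 6) (.cons (.br (nat_lit 0) (.cons (.br (nat_lit 1) (.cons (.br (nat_lit 2) (.cons (.rel (nat_lit 100728840)) (.cons (.rel (nat_lit 17247109377)) (.cons (.rel (nat_lit 17314119696)) (.cons (.rel (nat_lit 34426847313)) (.cons (.rel (nat_lit 17247047952)) .nil)))))) (.cons (.rel (nat_lit 23134212)) (.cons (.rel (nat_lit 23134212)) .nil)))) (.cons (.rel (nat_lit 17188290624)) (.cons (.rel (nat_lit 17186177028)) (.cons (.rel (nat_lit 34363932705)) .nil))))) .nil)) .leaf)) (nat_lit 16020056223901748) (.br (nat_lit 1) (.cons (.br (nat_lit 5) (.cons (.rel (nat_lit 4311745857)) .nil)) .nil)) (.node (.node (.node .leaf (nat_lit 16020056223902456) (.br (nat_lit 0) (.cons (.br (nat_lit 1) (.cons (.rel (nat_lit 25167873))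 .nil)) .nil)) .leaf) (nat_lit 16020981764087808) (.br (nat_lit 1) (.cons (.br (nat_lit 6) (.cons (.rel (nat_lit 17198810112)) .nil)) .nil)) .leaf) (nat_lit 16020981764087809) (.br (nat_lit 2) (.cons (.br (nat_lit 5) (.cons (.rel (nat_lit 8657047569)) .nil)) .nil)) (.node .leaf (nat_lit 16020981764088439) (.br (nat_lit 0) (.cons (.br (nat_lit 6) (.cons (.rel (nat_lit 17184063828)) .nil)) .nil)) .leaf))) (nat_lit 16020981764589594) (.br (nat_lit 0) (.cons (.br (nat_lit 1) (.cons (.rel (nat_lit 20971872)) .nil)) .nil)) (.node (.node (.node (.node .leaf (nat_lit 16020981864751735) (.br (nat_lit 0) (.cons (.br (nat_lit 6) (.cons (.rel (nat_lit 17188290624)) .nil)) .nil)) .leaf) (nat_lit 16020981864852137) (.br (nat_lit 0) (.cons (.br (nat_lit 1) (.cons (.rel (nat_lit 20988162)) .nil)) .nil)) .leaf) (nat_lit 16027859171600384) (.br (nat_lit 0) (.cons (.br (nat_lit 3) (.cons (.rel (nat_lit 272777472)) .nil)) .nil)) (.node (.node .leaf (nat_lit 16037433757947904) (.br (nat_lit 1) (.cons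 (.br (nat_lit 6) (.cons (.rel (nat_lit 17198743632)) (.cons (.rel (nat_lit 17196786960)) .nil))) (.cons (.br (nat_lit 6) (.cons (.rel (nat_lit 17198743632)) (.cons (.rel (nat_lit 17196650772)) .nil))) .nil))) .leaf) (nat_lit 16037433757947955) (.br (nat_lit 3) (.cons (.br (nat_lit 4) (.cons (.rel (nat_lit 1342218240)) .nil)) .nil)) .leaf)) (nat_lit 16037433757948784) (.br (nat_lit 1) (.cons (.br (nat_lit 2) (.cons (.rel (nat_lit 150999120)) .nil)) .nil)) (.node (.node (.node .leaf (nat_lit 16037433757949165) (.br (nat_lit 0) (.cons (.br (nat_lit 6) (.cons (.rel (nat_lit 34363932705)) .nil)) .nil)) .leaf) (nat_lit 16037433759475169) (.br (nat_lit 0) (.cons (.br (nat_lit 1) (.cons (.rel (nat_lit 21038352)) .nil)) .nil)) .leaf) (nat_lit 16037648506312731) (.br (nat_lit 5) (.cons (.br (nat_lit 4) (.cons (.rel (nat_lit 5368774752)) (.cons (.rel (nat_lit 5368711296)) (.cons (.rel (nat_lit 10737419328)) .nil)))) (.cons (.br (nat_lit 0) (.cons (.rel (nat_lit 4299506688)) (.cons (.rel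 (nat_lit 4299489348)) (.cons (.rel (nat_lit 4303355940)) (.cons (.rel (nat_lit 4299423873)) .nil))))) .nil))) (.node .leaf (nat_lit 16037648506312755) (.br (nat_lit 0) (.cons (.br (nat_lit 6) (.cons (.rel (nat_lit 17184063828)) .nil)) .nil)) .leaf)))))

/-- refutations 45 -/
def e45 : EX := (.node (.node (.node (.node (.node (.node (.node .leaf (nat_lit 16448752021794816) (.br (nat_lit 3) (.cons (.br (nat_lit 0) (.cons (.rel (nat_lit 272630052)) (.cons (.rel (nat_lit 272630052)) (.cons (.rel (nat_lit 272909316)) .nil)))) (.cons (.br (nat_lit 6) (.cons (.rel (nat_lit 17448304902)) (.cons (.rel (nat_lit 17448329472)) .nil))) .nil))) .leaf) (nat_lit 16448752021795101) (.br (nat_lit 6) (.cons (.br (nat_lit 0) (.cons (.rel (nat_lit 34363949184)) (.cons (.rel (nat_lit 34363949184)) .nil))) .nil)) .leaf) (nat_lit 16448752021795742) (.br (nat_lit 0) (.cons (.br (nat_lit 2) (.cons (.rel (nat_lit 143720448)) (.cons (.rel (nat_lit 73531392)) .nil))) (.cons (.br (nat_lit 6) (.cons (.rel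 (nat_lit 34364981520)) (.cons (.rel (nat_lit 17184588288)) .nil))) .nil))) (.node (.node .leaf (nat_lit 16448752021796128) (.br (nat_lit 0) (.cons (.br (nat_lit 3) (.cons (.rel (nat_lit 272699712)) .nil)) .nil)) .leaf) (nat_lit 16448752022948125) (.br (nat_lit 5) (.cons (.br (nat_lit 2) (.cons (.rel (nat_lit 8657043528)) (.cons (.rel (nat_lit 4362473472)) .nil))) .nil)) .leaf)) (nat_lit 16448752023485096) (.br (nat_lit 0) (.cons (.br (nat_lit 1) (.cons (.rel (nat_lit 21251136)) .nil)) .nil)) (.node (.node (.node .leaf (nat_lit 16448915230993659) (.br (nat_lit 1) (.cons (.br (nat_lit 2) (.cons (.rel (nat_lit 84295680)) .nil)) .nil)) .leaf) (nat_lit 16448915233603584) (.br (nat_lit 0) (.cons (.br (nat_lit 1) (.cons (.rel (nat_lit 21364737)) .nil)) .nil)) .leaf) (nat_lit 16449186333586669) (.br (nat_lit 0) (.cons (.br (nat_lit 1) (.cons (.rel (nat_lit 23068737)) .nil)) .nil)) (.node (.node .leaf (nat_lit 16449189073618944) (.br (nat_lit 0) (.cons (.br (nat_lit 3) (.cons (.rel (nat_lit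 276856848)) (.cons (.rel (nat_lit 274751490)) .nil))) .nil)) .leaf) (nat_lit 16449189073618970) (.br (nat_lit 2) (.cons (.br (nat_lit 0) (.cons (.rel (nat_lit 71311632)) (.cons (.rel (nat_lit 71337216)) .nil))) .nil)) .leaf))) (nat_lit 16449189073619624) (.br (nat_lit 0) (.cons (.br (nat_lit 6) (.cons (.rel (nat_lit 34363932705)) .nil)) .nil)) (.node (.node (.node (.node .leaf (nat_lit 16449189074155520) (.br (nat_lit 6) (.cons (.br (nat_lit 1) (.cons (.rel (nat_lit 17213493312)) (.cons (.rel (nat_lit 17196916737)) .nil))) .nil)) .leaf) (nat_lit 16450292770009088) (.br (nat_lit 3) (.cons (.br (nat_lit 6) (.cons (.rel (nat_lit 17448329472)) .nil)) .nil)) .leaf) (nat_lit 16450292770009245) (.br (nat_lit 1) (.cons (.br (nat_lit 2) (.cons (.rel (nat_lit 84295680)) .nil)) .nil)) (.node (.node .leaf (nat_lit 16450292771163424) (.br (nat_lit 0) (.cons (.br (nat_lit 3) (.cons (.rel (nat_lit 272699712)) .nil)) .nil)) .leaf) (nat_lit 16450303675199488) (.br (nat_lit 0) (.cons (.br (nat_lit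 1) (.cons (.br (nat_lit 4) (.cons (.rel (nat_lit 2151678336)) (.cons (.rel (nat_lit 1077944352)) (.cons (.rel (nat_lit 1077936261)) (.cons (.rel (nat_lit 1090535490)) (.cons (.rel (nat_lit 1077941316)) (.cons (.rel (nat_lit 2168471556)) (.cons (.rel (nat_lit 1077941316)) (.cons (.rel (nat_lit 2151678336)) .nil))))))))) (.cons (.rel (nat_lit 20971872)) .nil))) .nil)) .leaf)) (nat_lit 16450303675200248) (.br (nat_lit 0) (.cons (.br (nat_lit 1) (.cons (.br (nat_lit 4) (.cons (.rel (nat_lit 2151678336)) (.cons (.rel (nat_lit 1077944352)) (.cons (.rel (nat_lit 2181038160)) (.cons (.rel (nat_lit 1077944352)) (.cons (.rel (nat_lit 1078477056)) (.cons (.rel (nat_lit 1077936261)) (.cons (.rel (nat_lit 1090535490)) (.cons (.rel (nat_lit 1077941316)) .nil))))))))) .nil)) .nil)) (.node (.node (.node .leaf (nat_lit 16450303675200993) (.br (nat_lit 1) (.cons (.br (nat_lit 0) (.cons (.br (nat_lit 4) (.cons (.rel (nat_lit 2151678336)) (.cons (.rel (nat_lit 2164523010)) (.cons (.rel (nat_lit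 1090535490)) (.cons (.rel (nat_lit 2168471556)) .nil))))) (.cons (.rel (nat_lit 21364737)) (.cons (.rel (nat_lit 37756992)) .nil)))) .nil)) .leaf) (nat_lit 16450303676725248) (.br (nat_lit 1) (.cons (.br (nat_lit 6) (.cons (.rel (nat_lit 34376536128)) (.cons (.rel (nat_lit 34376536128)) (.cons (.rel (nat_lit 17196916737)) (.cons (.br (nat_lit 3) (.cons (.rel (nat_lit 302007360)) (.cons (.rel (nat_lit 302120961)) (.cons (.br (nat_lit 4) (.cons (.rel (nat_lit 18253619202)) (.cons (.rel (nat_lit 2432697345)) (.cons (.rel (nat_lit 2684375040)) (.cons (.rel (nat_lit 1090540545)) (.cons (.rel (nat_lit 1090535490)) (.cons (.rel (nat_lit 36507226113)) .nil))))))) (.cons (.rel (nat_lit 285478920)) (.cons (.rel (nat_lit 302120961)) (.cons (.rel (nat_lit 285213960)) .nil))))))) (.cons (.rel (nat_lit 17196646722)) .nil)))))) .nil)) .leaf) (nat_lit 16450303676725879) (.br (nat_lit 0) (.cons (.br (nat_lit 1) (.cons (.rel (nat_lit 20971872)) (.cons (.rel (nat_lit 20971872)) .nil))) .nil)) (.node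 .leaf (nat_lit 16450303676726008) (.br (nat_lit 6) (.cons (.br (nat_lit 5) (.cons (.rel (nat_lit 21476999184)) (.cons (.rel (nat_lit 42950791170)) .nil))) .nil)) .leaf)))) (nat_lit 16450303676726753) (.br (nat_lit 0) (.cons (.br (nat_lit 1) (.cons (.br (nat_lit 4) (.cons (.rel (nat_lit 1077936261)) (.cons (.rel (nat_lit 1079246856)) (.cons (.rel (nat_lit 2151678336)) (.cons (.rel (nat_lit 1090535490)) (.cons (.rel (nat_lit 1077944352)) (.cons (.rel (nat_lit 1077941316)) .nil))))))) .nil)) .nil)) (.node (.node (.node (.node (.node .leaf (nat_lit 16450303678251008) (.br (nat_lit 1) (.cons (.br (nat_lit 0) (.cons (.rel (nat_lit 20975877)) (.cons (.br (nat_lit 5) (.cons (.rel (nat_lit 4315971648)) (.cons (.br (nat_lit 6) (.cons (.rel (nat_lit 34376536128)) (.cons (.rel (nat_lit 21476999184)) (.cons (.rel (nat_lit 17196646722)) .nil)))) (.cons (.rel (nat_lit 8623751424)) .nil)))) .nil))) .nil)) .leaf) (nat_lit 16450303678251269) (.br (nat_lit 1) (.cons (.br (nat_lit 3) (.cons (.rel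 (nat_lit 286261761)) .nil)) .nil)) .leaf) (nat_lit 16450303678251768) (.br (nat_lit 1) (.cons (.br (nat_lit 0) (.cons (.rel (nat_lit 20988162)) (.cons (.br (nat_lit 5) (.cons (.rel (nat_lit 4328558592)) (.cons (.br (nat_lit 6) (.cons (.br (nat_lit 2) (.cons (.rel (nat_lit 75497568)) (.cons (.rel (nat_lit 83906820)) (.cons (.br (nat_lit 4) (.cons (.rel (nat_lit 2164523010)) (.cons (.rel (nat_lit 1090540545)) (.cons (.rel (nat_lit 1090652160)) (.cons (.rel (nat_lit 2181038160)) (.cons (.rel (nat_lit 1228931136)) (.cons (.rel (nat_lit 1090535490)) (.cons (.rel (nat_lit 1108362240)) .nil)))))))) (.cons (.rel (nat_lit 75497568)) .nil))))) (.cons (.rel (nat_lit 17196646722)) .nil))) .nil))) .nil))) .nil)) (.node (.node .leaf (nat_lit 16450303678252513) (.br (nat_lit 1) (.cons (.br (nat_lit 0) (.cons (.rel (nat_lit 25170048)) (.cons (.br (nat_lit 6) (.cons (.rel (nat_lit 17196941316)) (.cons (.br (nat_lit 5) (.cons (.rel (nat_lit 4328558592)) (.cons (.rel (nat_lit 4315939848)) (.cons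 (.rel (nat_lit 21476999184)) (.cons (.rel (nat_lit 4328558592)) .nil))))) .nil))) .nil))) .nil)) .leaf) (nat_lit 16451071086030848) (.br (nat_lit 2) (.cons (.br (nat_lit 3) (.cons (.rel (nat_lit 335550720)) (.cons (.rel (nat_lit 402653250)) (.cons (.rel (nat_lit 402653250)) (.cons (.rel (nat_lit 336069120)) .nil))))) (.cons (.br (nat_lit 3) (.cons (.rel (nat_lit 603979905)) (.cons (.rel (nat_lit 336069120)) (.cons (.rel (nat_lit 336069120)) (.cons (.rel (nat_lit 335550720)) .nil))))) .nil))) .leaf)) (nat_lit 16451071086031110) (.br (nat_lit 0) (.cons (.br (nat_lit 1) (.cons (.rel (nat_lit 21251136)) .nil)) .nil)) (.node (.node (.node .leaf (nat_lit 16451071087556608) (.br (nat_lit 2) (.cons (.br (nat_lit 6) (.cons (.rel (nat_lit 17247338496)) .nil)) .nil)) .leaf) (nat_lit 16454584587276288) (.br (nat_lit 0) (.cons (.br (nat_lit 4) (.cons (.rel (nat_lit 2151940116)) .nil)) .nil)) .leaf) (nat_lit 16454584587329536) (.br (nat_lit 2) (.cons (.br (nat_lit 4) (.cons (.rel (nat_lit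 1140858960)) .nil)) .nil)) (.node (.node .leaf (nat_lit 16454584587329562) (.br (nat_lit 3) (.cons (.br (nat_lit 5) (.cons (.rel (nat_lit 4563664992)) .nil)) .nil)) .leaf) (nat_lit 16454584588536070) (.br (nat_lit 0) (.cons (.br (nat_lit 2) (.cons (.rel (nat_lit 73425024)) .nil)) .nil)) .leaf))) (nat_lit 16454584588536438) (.br (nat_lit 2) (.cons (.br (nat_lit 3) (.cons (.rel (nat_lit 335562000)) .nil)) .nil)) (.node (.node (.node (.node .leaf (nat_lit 16454584588910049) (.br (nat_lit 0) (.cons (.br (nat_lit 1) (.cons (.rel (nat_lit 21251136)) .nil)) .nil)) .leaf) (nat_lit 16454584589072384) (.br (nat_lit 4) (.cons (.br (nat_lit 1) (.cons (.rel (nat_lit 1090652160)) (.cons (.rel (nat_lit 1090528260)) .nil))) .nil)) .leaf) (nat_lit 16454584589881370) (.br (nat_lit 0) (.cons (.br (nat_lit 4) (.cons (.rel (nat_lit 1077941316)) .nil)) .nil)) (.node (.node .leaf (nat_lit 16454584589881629) (.br (nat_lit 1) (.cons (.br (nat_lit 3) (.cons (.rel (nat_lit 285212946)) (.cons (.rel (nat_lit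 302120961)) .nil))) .nil)) .leaf) (nat_lit 16454584590073214) (.br (nat_lit 0) (.cons (.br (nat_lit 1) (.cons (.rel (nat_lit 20975877)) .nil)) .nil)) .leaf)) (nat_lit 16454584590138281) (.br (nat_lit 1) (.cons (.br (nat_lit 2) (.cons (.rel (nat_lit 84295680)) .nil)) .nil)) (.node (.node (.node .leaf (nat_lit 16454584590381082) (.br (nat_lit 0) (.cons (.br (nat_lit 1) (.cons (.rel (nat_lit 21233796)) .nil)) .nil)) .leaf) (nat_lit 16454584590434304) (.br (nat_lit 0) (.cons (.br (nat_lit 6) (.cons (.rel (nat_lit 17188290624)) (.cons (.rel (nat_lit 17188290624)) (.cons (.rel (nat_lit 34363934724)) .nil)))) .nil)) .leaf) (nat_lit 16456259406524416) (.br (nat_lit 4) (.cons (.br (nat_lit 2) (.cons (.rel (nat_lit 1140858960)) (.cons (.rel (nat_lit 1140851730)) (.cons (.rel (nat_lit 1140852744)) (.cons (.rel (nat_lit 2281702404)) .nil))))) (.cons (.br (nat_lit 3) (.cons (.rel (nat_lit 1342193670)) (.cons (.rel (nat_lit 1342178385)) (.cons (.rel (nat_lit 1342177380)) .nil)))) .nil))) (.node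 .leaf (nat_lit 16456259406525342) (.br (nat_lit 0) (.cons (.br (nat_lit 2) (.cons (.rel (nat_lit 143720448)) (.cons (.rel (nat_lit 138444801)) .nil))) .nil)) .leaf))))) (nat_lit 16456259406525818) (.br (nat_lit 2) (.cons (.br (nat_lit 4) (.cons (.rel (nat_lit 1140858960)) .nil)) .nil)) (.node (.node (.node (.node (.node (.node .leaf (nat_lit 16456259408040712) (.br (nat_lit 2) (.cons (.br (nat_lit 4) (.cons (.rel (nat_lit 2281702404)) (.cons (.rel (nat_lit 2281702404)) .nil))) .nil)) .leaf) (nat_lit 16456259408214016) (.br (nat_lit 0) (.cons (.br (nat_lit 2) (.cons (.rel (nat_lit 139723776)) .nil)) .nil)) .leaf) (nat_lit 16456259409238016) (.br (nat_lit 0) (.cons (.br (nat_lit 2) (.cons (.rel (nat_lit 71602176)) (.cons (.rel (nat_lit 71373057)) (.cons (.rel (nat_lit 71337216)) (.cons (.rel (nat_lit 71319876)) (.cons (.rel (nat_lit 72876096)) .nil)))))) .nil)) (.node (.node .leaf (nat_lit 16456702417302160) (.br (nat_lit 2) (.cons (.br (nat_lit 3) (.cons (.rel (nat_lit 336069120))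 .nil)) .nil)) .leaf) (nat_lit 16456702417302816) (.br (nat_lit 0) (.cons (.br (nat_lit 3) (.cons (.rel (nat_lit 272699712)) .nil)) .nil)) .leaf)) (nat_lit 16456705265181598) (.br (nat_lit 2) (.cons (.br (nat_lit 3) (.cons (.rel (nat_lit 671351040)) .nil)) .nil)) (.node (.node (.node .leaf (nat_lit 16456705265633280) (.br (nat_lit 0) (.cons (.br (nat_lit 2) (.cons (.rel (nat_lit 71567376)) .nil)) .nil)) .leaf) (nat_lit 16456705266386944) (.br (nat_lit 2) (.cons (.br (nat_lit 3) (.cons (.rel (nat_lit 336069120)) .nil)) .nil)) .leaf) (nat_lit 16456705266963838) (.br (nat_lit 1) (.cons (.br (nat_lit 2) (.cons (.rel (nat_lit 83886480)) .nil)) .nil)) (.node (.node .leaf (nat_lit 16456705267732765) (.br (nat_lit 0) (.cons (.br (nat_lit 4) (.cons (.rel (nat_lit 2155876368)) .nil)) .nil)) .leaf) (nat_lit 16456705268285440) (.br (nat_lit 0) (.cons (.br (nat_lit 2) (.cons (.rel (nat_lit 71311632)) .nil)) .nil)) .leaf))) (nat_lit 16459657351759872) (.br (nat_lit 0) (.cons (.br (nat_lit 1)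 (.cons (.rel (nat_lit 25170048)) .nil)) .nil)) (.node (.node (.node (.node .leaf (nat_lit 16459878264492032) (.br (nat_lit 0) (.cons (.br (nat_lit 6) (.cons (.rel (nat_lit 17184063828)) (.cons (.rel (nat_lit 17184063828)) .nil))) .nil)) .leaf) (nat_lit 16459878264598528) (.br (nat_lit 0) (.cons (.br (nat_lit 2) (.cons (.rel (nat_lit 75497568)) (.cons (.rel (nat_lit 143720448)) (.cons (.rel (nat_lit 138412176)) (.cons (.rel (nat_lit 71311632)) (.cons (.rel (nat_lit 71311632)) (.cons (.rel (nat_lit 143720448)) (.cons (.rel (nat_lit 75513858)) (.cons (.rel (nat_lit 73531392)) .nil))))))))) (.cons (.br (nat_lit 1) (.cons (.rel (nat_lit 23073792)) (.cons (.rel (nat_lit 37749762)) (.cons (.rel (nat_lit 37749762)) (.cons (.rel (nat_lit 20988162)) (.cons (.br (nat_lit 5) (.cons (.rel (nat_lit 4299165954)) (.cons (.rel (nat_lit 4299227424)) (.cons (.rel (nat_lit 4301324289)) (.cons (.rel (nat_lit 4301262864)) (.cons (.rel (nat_lit 4301324289)) (.cons (.rel (nat_lit 4313858052)) .nil)))))))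 (.cons (.rel (nat_lit 23068737)) .nil))))))) (.cons (.br (nat_lit 1) (.cons (.rel (nat_lit 21233796)) (.cons (.rel (nat_lit 20988162)) (.cons (.rel (nat_lit 20975877)) (.cons (.br (nat_lit 5) (.cons (.rel (nat_lit 4299163968)) (.cons (.rel (nat_lit 4299165954)) (.cons (.rel (nat_lit 4311750912)) (.cons (.br (nat_lit 6) (.cons (.rel (nat_lit 17184069888)) (.cons (.rel (nat_lit 17184063828)) (.cons (.rel (nat_lit 21476999184)) (.cons (.rel (nat_lit 17184064833)) (.cons (.rel (nat_lit 17213571072)) (.cons (.rel (nat_lit 17184063828)) .nil))))))) (.cons (.rel (nat_lit 8594128920)) (.cons (.rel (nat_lit 4303355940)) .nil))))))) (.cons (.br (nat_lit 2) (.cons (.rel (nat_lit 71311632)) (.cons (.rel (nat_lit 71319876)) (.cons (.rel (nat_lit 84295680)) (.cons (.rel (nat_lit 75497568)) (.cons (.rel (nat_lit 71319876)) (.cons (.rel (nat_lit 71319876)) (.cons (.rel (nat_lit 75497568)) (.cons (.rel (nat_lit 88098816)) .nil))))))))) (.cons (.rel (nat_lit 25166868)) .nil))))))) (.cons (.br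 (nat_lit 1) (.cons (.rel (nat_lit 23068737)) (.cons (.rel (nat_lit 23068737)) (.cons (.rel (nat_lit 21251136)) (.cons (.rel (nat_lit 25167873)) (.cons (.rel (nat_lit 21233796)) (.cons (.rel (nat_lit 20975877)) .nil))))))) (.cons (.br (nat_lit 1) (.cons (.rel (nat_lit 25170048)) (.cons (.rel (nat_lit 20988162)) (.cons (.rel (nat_lit 20975877)) (.cons (.rel (nat_lit 21233796)) (.cons (.rel (nat_lit 25247808)) (.cons (.rel (nat_lit 23068737)) .nil))))))) (.cons (.br (nat_lit 6) (.cons (.rel (nat_lit 17184069888)) (.cons (.rel (nat_lit 17184063828)) (.cons (.rel (nat_lit 34363932705)) (.cons (.rel (nat_lit 34363949184)) (.cons (.rel (nat_lit 17184063828)) (.cons (.rel (nat_lit 17184407553)) .nil))))))) .nil))))))) .leaf) (nat_lit 16459878264598529) (.br (nat_lit 0) (.cons (.br (nat_lit 1) (.cons (.rel (nat_lit 21038352)) (.cons (.rel (nat_lit 21233796)) .nil))) (.cons (.br (nat_lit 1) (.cons (.rel (nat_lit 20988162)) (.cons (.rel (nat_lit 20988162)) .nil))) .nil))) (.node (.node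 .leaf (nat_lit 16459878264598555) (.br (nat_lit 0) (.cons (.br (nat_lit 1) (.cons (.rel (nat_lit 37749762)) (.cons (.rel (nat_lit 20988162)) .nil))) .nil)) .leaf) (nat_lit 16459878264598789) (.br (nat_lit 4) (.cons (.br (nat_lit 6) (.cons (.rel (nat_lit 18253643781)) (.cons (.rel (nat_lit 18253619202)) .nil))) (.cons (.br (nat_lit 6) (.cons (.rel (nat_lit 35433497088)) (.cons (.rel (nat_lit 18253643781)) .nil))) .nil))) .leaf)) (nat_lit 16459878264599288) (.br (nat_lit 0) (.cons (.br (nat_lit 1) (.cons (.br (nat_lit 5) (.cons (.rel (nat_lit 4300734468)) (.cons (.rel (nat_lit 4299423873)) (.cons (.br (nat_lit 6) (.cons (.rel (nat_lit 17197711872)) (.cons (.rel (nat_lit 21476999184)) (.cons (.rel (nat_lit 34368389376)) .nil)))) .nil)))) .nil)) .nil)) (.node (.node (.node .leaf (nat_lit 16459878264599408) (.br (nat_lit 2) (.cons (.br (nat_lit 3) (.cons (.rel (nat_lit 335545665)) (.cons (.rel (nat_lit 336069120)) .nil))) (.cons (.br (nat_lit 3) (.cons (.rel (nat_lit 336069120)) (.cons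 (.rel (nat_lit 336069120)) .nil))) .nil))) .leaf) (nat_lit 16459878264599789) (.br (nat_lit 4) (.cons (.br (nat_lit 5) (.cons (.rel (nat_lit 5368711296)) (.cons (.rel (nat_lit 5368725576)) .nil))) (.cons (.br (nat_lit 5) (.cons (.rel (nat_lit 5368725576)) (.cons (.rel (nat_lit 9664200708)) .nil))) .nil))) .leaf) (nat_lit 16459878264599964) (.br (nat_lit 1) (.cons (.br (nat_lit 0) (.cons (.rel (nat_lit 21233796)) (.cons (.rel (nat_lit 25170048)) .nil))) .nil)) (.node .leaf (nat_lit 16459878264600033) (.br (nat_lit 0) (.cons (.br (nat_lit 1) (.cons (.br (nat_lit 5) (.cons (.rel (nat_lit 4304405760)) (.cons (.rel (nat_lit 8594128920)) (.cons (.br (nat_lit 6) (.cons (.rel (nat_lit 17184069888)) (.cons (.rel (nat_lit 17200840713)) (.cons (.br (nat_lit 2) (.cons (.br (nat_lit 4) (.cons (.rel (nat_lit 1077936261)) (.cons (.rel (nat_lit 2151678336)) (.cons (.rel (nat_lit 2218790976)) (.cons (.rel (nat_lit 1077944352)) .nil))))) (.cons (.rel (nat_lit 75497568)) (.cons (.rel (nat_lit 75497568))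 (.cons (.rel (nat_lit 71311632)) .nil))))) .nil)))) .nil)))) .nil)) .nil)) .leaf)))) (nat_lit 16459878266124288) (.br (nat_lit 0) (.cons (.br (nat_lit 6) (.cons (.br (nat_lit 1) (.cons (.br (nat_lit 5) (.cons (.rel (nat_lit 4299178248)) (.cons (.br (nat_lit 3) (.cons (.rel (nat_lit 272891976)) (.cons (.rel (nat_lit 8866758912)) (.cons (.rel (nat_lit 34628206593)) (.cons (.rel (nat_lit 34628206593)) .nil))))) .nil))) (.cons (.rel (nat_lit 25166868)) .nil))) .nil)) .nil)) (.node (.node (.node (.node (.node .leaf (nat_lit 16459878266125048) (.br (nat_lit 0) (.cons (.br (nat_lit 1) (.cons (.br (nat_lit 6) (.cons (.rel (nat_lit 17188258824)) (.cons (.br (nat_lit 5) (.cons (.rel (nat_lit 4299163968)) (.cons (.rel (nat_lit 8594128920)) (.cons (.rel (nat_lit 8594128920)) (.cons (.rel (nat_lit 21476999184)) .nil))))) .nil))) .nil)) .nil)) .leaf) (nat_lit 16459878266125793) (.br (nat_lit 1) (.cons (.br (nat_lit 0) (.cons (.rel (nat_lit 37749762)) (.cons (.br (nat_lit 5) (.cons (.rel (nat_lit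 8606711814)) (.cons (.rel (nat_lit 4328521737)) (.cons (.br (nat_lit 3) (.cons (.rel (nat_lit 8866758912)) (.cons (.rel (nat_lit 285213960)) (.cons (.rel (nat_lit 302120961)) (.cons (.rel (nat_lit 302120961)) .nil))))) .nil)))) .nil))) .nil)) .leaf) (nat_lit 16459878266269083) (.br (nat_lit 1) (.cons (.br (nat_lit 5) (.cons (.rel (nat_lit 4312088577)) (.cons (.rel (nat_lit 4312088577)) .nil))) .nil)) (.node (.node .leaf (nat_lit 16459878267414789) (.br (nat_lit 0) (.cons (.br (nat_lit 1) (.cons (.rel (nat_lit 20975877)) .nil)) .nil)) .leaf) (nat_lit 16459878267650048) (.br (nat_lit 0) (.cons (.br (nat_lit 1) (.cons (.rel (nat_lit 25166868)) (.cons (.br (nat_lit 6) (.cons (.rel (nat_lit 34363949184)) (.cons (.br (nat_lit 2) (.cons (.rel (nat_lit 75497568)) (.cons (.rel (nat_lit 75497568)) (.cons (.rel (nat_lit 142607940)) (.cons (.rel (nat_lit 34460663808)) .nil))))) (.cons (.rel (nat_lit 17188290624)) .nil)))) .nil))) .nil)) .leaf)) (nat_lit 16459878267650808) (.br (nat_lit 1)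 (.cons (.br (nat_lit 5) (.cons (.br (nat_lit 0) (.cons (.br (nat_lit 6) (.cons (.br (nat_lit 2) (.cons (.rel (nat_lit 8657043528)) (.cons (.rel (nat_lit 83919105)) (.cons (.rel (nat_lit 8657043528)) (.cons (.rel (nat_lit 34460663808)) .nil))))) (.cons (.rel (nat_lit 17196646722)) .nil))) (.cons (.rel (nat_lit 37834752)) .nil))) .nil)) .nil)) (.node (.node (.node .leaf (nat_lit 16459878267651553) (.br (nat_lit 0) (.cons (.br (nat_lit 1) (.cons (.br (nat_lit 5) (.cons (.br (nat_lit 6) (.cons (.rel (nat_lit 34368389376)) (.cons (.rel (nat_lit 17200877568)) (.cons (.rel (nat_lit 21476999184)) (.cons (.rel (nat_lit 17196646722)) .nil))))) (.cons (.rel (nat_lit 4300734468)) .nil))) .nil)) .nil)) .leaf) (nat_lit 16459879350923266) (.br (nat_lit 1) (.cons (.br (nat_lit 5) (.cons (.rel (nat_lit 4311745857)) .nil)) .nil)) .leaf) (nat_lit 16459879350923525) (.br (nat_lit 0) (.cons (.br (nat_lit 1) (.cons (.rel (nat_lit 20988162)) .nil)) .nil)) (.node .leaf (nat_lit 16459883964659099) (.br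 (nat_lit 1) (.cons (.br (nat_lit 2) (.cons (.rel (nat_lit 83919105)) .nil)) .nil)) .leaf))) (nat_lit 16459883964659101) (.br (nat_lit 5) (.cons (.br (nat_lit 2) (.cons (.rel (nat_lit 4362208512)) (.cons (.rel (nat_lit 4429316097)) .nil))) .nil)) (.node (.node (.node (.node .leaf (nat_lit 16459883967709184) (.br (nat_lit 1) (.cons (.br (nat_lit 2) (.cons (.rel (nat_lit 151126020)) .nil)) .nil)) .leaf) (nat_lit 16462099745311400) (.br (nat_lit 0) (.cons (.br (nat_lit 1) (.cons (.rel (nat_lit 21251136)) .nil)) .nil)) .leaf) (nat_lit 16462103057657856) (.br (nat_lit 0) (.cons (.br (nat_lit 6) (.cons (.br (nat_lit 2) (.cons (.rel (nat_lit 71311632)) (.cons (.rel (nat_lit 34495008768)) (.cons (.rel (nat_lit 71565321)) (.cons (.rel (nat_lit 75497568)) .nil))))) (.cons (.rel (nat_lit 17184063828)) (.cons (.rel (nat_lit 17188258824)) .nil)))) (.cons (.br (nat_lit 2) (.cons (.rel (nat_lit 71565321)) (.cons (.rel (nat_lit 71337216)) (.cons (.rel (nat_lit 71311632)) (.cons (.rel (nat_lit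 71565321)) .nil))))) .nil))) (.node (.node .leaf (nat_lit 16462103057658117) (.br (nat_lit 3) (.cons (.br (nat_lit 2) (.cons (.rel (nat_lit 603979905)) (.cons (.rel (nat_lit 335544660)) (.cons (.rel (nat_lit 336069120)) .nil)))) (.cons (.br (nat_lit 0) (.cons (.rel (nat_lit 276845568)) (.cons (.rel (nat_lit 273679872)) (.cons (.rel (nat_lit 272891976)) .nil)))) .nil))) .leaf) (nat_lit 16462103057658616) (.br (nat_lit 0) (.cons (.br (nat_lit 6) (.cons (.rel (nat_lit 34368389376)) .nil)) .nil)) .leaf)) (nat_lit 16462103057659117) (.br (nat_lit 1) (.cons (.br (nat_lit 5) (.cons (.rel (nat_lit 4328521737)) .nil)) .nil)) (.node (.node (.node .leaf (nat_lit 16462103057659292) (.br (nat_lit 1) (.cons (.br (nat_lit 2) (.cons (.rel (nat_lit 100663365)) .nil)) .nil)) .leaf) (nat_lit 16462103059183616) (.br (nat_lit 0) (.cons (.br (nat_lit 5) (.cons (.rel (nat_lit 8594129925)) .nil)) .nil)) .leaf) (nat_lit 16462103059451117) (.br (nat_lit 0) (.cons (.br (nat_lit 2) (.cons (.rel (nat_lit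 71311632)) .nil)) .nil)) (.node .leaf (nat_lit 16462103060474117) (.br (nat_lit 2) (.cons (.br (nat_lit 0) (.cons (.rel (nat_lit 71630976)) (.cons (.rel (nat_lit 73531392)) .nil))) .nil)) .leaf))))))

/-- refutations 46 -/
def e46 : EX := (.node .leaf (nat_lit 22106746540504327) (.br (nat_lit 0) (.cons (.br (nat_lit 1) (.cons (.rel (nat_lit 20971872)) .nil)) .nil)) .leaf)

/-- refutations 47 -/
def e47 : EX := (.node (.node (.node (.node (.node (.node .leaf (nat_lit 22975867425937408) (.br (nat_lit 0) (.cons (.br (nat_lit 1) (.cons (.rel (nat_lit 23068737)) .nil)) .nil)) .leaf) (nat_lit 22975867425938720) (.br (nat_lit 0) (.cons (.br (nat_lit 1) (.cons (.rel (nat_lit 20971872)) .nil)) .nil)) .leaf) (nat_lit 22975867426152448) (.br (nat_lit 0) (.cons (.br (nat_lit 3) (.cons (.rel (nat_lit 541065297)) .nil)) .nil)) (.node (.node .leaf (nat_lit 22975867567837360) (.br (nat_lit 1) (.cons (.br (nat_lit 4) (.cons (.rel (nat_lit 1090519200)) .nil)) .nil)) .leaf) (nat_lit 22975867570152361)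 (.br (nat_lit 1) (.cons (.br (nat_lit 4) (.cons (.rel (nat_lit 1090535490)) .nil)) .nil)) .leaf)) (nat_lit 22975870273869850) (.br (nat_lit 0) (.cons (.br (nat_lit 3) (.cons (.rel (nat_lit 272777472)) .nil)) .nil)) (.node (.node (.node .leaf (nat_lit 22975870273921024) (.br (nat_lit 0) (.cons (.br (nat_lit 2) (.cons (.rel (nat_lit 71630976)) .nil)) .nil)) .leaf) (nat_lit 22975870274188670) (.br (nat_lit 1) (.cons (.br (nat_lit 3) (.cons (.rel (nat_lit 285212946)) .nil)) .nil)) .leaf) (nat_lit 22975870275106816) (.br (nat_lit 4) (.cons (.br (nat_lit 0) (.cons (.rel (nat_lit 2151940116)) (.cons (.rel (nat_lit 1078005777)) .nil))) .nil)) (.node (.node .leaf (nat_lit 22975870275160090) (.br (nat_lit 3) (.cons (.br (nat_lit 6) (.cons (.rel (nat_lit 17716744197)) .nil)) .nil)) .leaf) (nat_lit 22975870275428378) (.br (nat_lit 3) (.cons (.br (nat_lit 6) (.cons (.rel (nat_lit 17448436032)) .nil)) .nil)) .leaf))) (nat_lit 22975876769515552) (.br (nat_lit 0) (.cons (.br (nat_lit 2) (.cons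 (.rel (nat_lit 72876096)) .nil)) .nil)) (.node (.node (.node (.node .leaf (nat_lit 22975876769515671) (.br (nat_lit 0) (.cons (.br (nat_lit 2) (.cons (.rel (nat_lit 71337216)) .nil)) .nil)) .leaf) (nat_lit 22975876769639030) (.br (nat_lit 3) (.cons (.br (nat_lit 1) (.cons (.rel (nat_lit 287309856)) (.cons (.rel (nat_lit 285212946)) .nil))) .nil)) .leaf) (nat_lit 22975876770040593) (.br (nat_lit 1) (.cons (.br (nat_lit 3) (.cons (.rel (nat_lit 286261761)) .nil)) .nil)) (.node (.node .leaf (nat_lit 22975876770040715) (.br (nat_lit 1) (.cons (.br (nat_lit 3) (.cons (.rel (nat_lit 285212946)) .nil)) .nil)) .leaf) (nat_lit 22975876771165535) (.br (nat_lit 2) (.cons (.br (nat_lit 0) (.cons (.rel (nat_lit 71630976)) (.cons (.rel (nat_lit 73531392)) .nil))) .nil)) .leaf)) (nat_lit 22975876771431030) (.br (nat_lit 0) (.cons (.br (nat_lit 1) (.cons (.rel (nat_lit 21250134)) (.cons (.rel (nat_lit 20988162)) .nil))) (.cons (.br (nat_lit 1) (.cons (.rel (nat_lit 20988162)) (.cons (.rel (nat_lit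 20975877)) .nil))) .nil))) (.node (.node (.node .leaf (nat_lit 22975876771431185) (.br (nat_lit 1) (.cons (.br (nat_lit 4) (.cons (.rel (nat_lit 1091830800)) .nil)) .nil)) .leaf) (nat_lit 22975876772188837) (.br (nat_lit 0) (.cons (.br (nat_lit 4) (.cons (.rel (nat_lit 1079054592)) .nil)) .nil)) .leaf) (nat_lit 22975876772189035) (.br (nat_lit 0) (.cons (.br (nat_lit 1) (.cons (.rel (nat_lit 20992404)) (.cons (.rel (nat_lit 20975877)) .nil))) (.cons (.br (nat_lit 1) (.cons (.rel (nat_lit 20975877)) (.cons (.rel (nat_lit 20971872)) .nil))) .nil))) (.node (.node .leaf (nat_lit 22975878866726944) (.br (nat_lit 2) (.cons (.br (nat_lit 5) (.cons (.rel (nat_lit 4362338337)) .nil)) .nil)) .leaf) (nat_lit 22975878866727174) (.br (nat_lit 0) (.cons (.br (nat_lit 1) (.cons (.rel (nat_lit 21038352)) .nil)) .nil)) .leaf)))) (nat_lit 22975878866790401) (.br (nat_lit 0) (.cons (.br (nat_lit 1) (.cons (.rel (nat_lit 37749762)) .nil)) .nil)) (.node (.node (.node (.node (.node .leaf (nat_lit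 22975878866790685) (.br (nat_lit 4) (.cons (.br (nat_lit 6) (.cons (.rel (nat_lit 18253612161)) .nil)) .nil)) .leaf) (nat_lit 22975878866791081) (.br (nat_lit 1) (.cons (.br (nat_lit 6) (.cons (.rel (nat_lit 34376515608)) .nil)) .nil)) .leaf) (nat_lit 22975878867192620) (.br (nat_lit 0) (.cons (.br (nat_lit 1) (.cons (.rel (nat_lit 37749762)) .nil)) .nil)) (.node (.node .leaf (nat_lit 22975878867193183) (.br (nat_lit 1) (.cons (.br (nat_lit 3) (.cons (.rel (nat_lit 553648200)) .nil)) .nil)) .leaf) (nat_lit 22975878867960439) (.br (nat_lit 0) (.cons (.br (nat_lit 5) (.cons (.rel (nat_lit 4301262864)) (.cons (.rel (nat_lit 4299165954)) .nil))) .nil)) .leaf)) (nat_lit 22975878868316421) (.br (nat_lit 0) (.cons (.br (nat_lit 5) (.cons (.rel (nat_lit 4299163968)) .nil)) .nil)) (.node (.node (.node .leaf (nat_lit 22975878868316422) (.br (nat_lit 0) (.cons (.br (nat_lit 5) (.cons (.rel (nat_lit 4301324289)) .nil)) .nil)) .leaf) (nat_lit 22975878868317711) (.br (nat_lit 0) (.cons (.br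 (nat_lit 1) (.cons (.rel (nat_lit 23068737)) .nil)) .nil)) .leaf) (nat_lit 22975878868461745) (.br (nat_lit 1) (.cons (.br (nat_lit 3) (.cons (.rel (nat_lit 553648200)) .nil)) .nil)) (.node (.node .leaf (nat_lit 22975878869281399) (.br (nat_lit 1) (.cons (.br (nat_lit 2) (.cons (.rel (nat_lit 83886480)) .nil)) .nil)) .leaf) (nat_lit 22975878869340837) (.br (nat_lit 0) (.cons (.br (nat_lit 5) (.cons (.rel (nat_lit 4299165954)) .nil)) .nil)) .leaf))) (nat_lit 22975878869341422) (.br (nat_lit 0) (.cons (.br (nat_lit 5) (.cons (.rel (nat_lit 4303425600)) .nil)) .nil)) (.node (.node (.node (.node .leaf (nat_lit 22975879890702968) (.br (nat_lit 1) (.cons (.br (nat_lit 3) (.cons (.rel (nat_lit 285542400)) .nil)) .nil)) .leaf) (nat_lit 22975887358507060) (.br (nat_lit 0) (.cons (.br (nat_lit 6) (.cons (.rel (nat_lit 17184227586)) (.cons (.rel (nat_lit 34364981520)) .nil))) (.cons (.br (nat_lit 6) (.cons (.rel (nat_lit 17184395268)) (.cons (.rel (nat_lit 17188258824)) .nil))) .nil)))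 .leaf) (nat_lit 22976469764736237) (.br (nat_lit 0) (.cons (.br (nat_lit 2) (.cons (.rel (nat_lit 71567376)) .nil)) .nil)) (.node (.node .leaf (nat_lit 22976469765762299) (.br (nat_lit 1) (.cons (.br (nat_lit 2) (.cons (.rel (nat_lit 83952960)) .nil)) .nil)) .leaf) (nat_lit 22976477872623648) (.br (nat_lit 0) (.cons (.br (nat_lit 2) (.cons (.rel (nat_lit 138412176)) (.cons (.rel (nat_lit 73531392)) .nil))) .nil)) .leaf)) (nat_lit 22976479971965104) (.br (nat_lit 0) (.cons (.br (nat_lit 1) (.cons (.rel (nat_lit 20988162)) .nil)) .nil)) (.node (.node (.node .leaf (nat_lit 22976566500210973) (.br (nat_lit 0) (.cons (.br (nat_lit 1) (.cons (.rel (nat_lit 23134212)) .nil)) .nil)) .leaf) (nat_lit 22976566500532355) (.br (nat_lit 1) (.cons (.br (nat_lit 2) (.cons (.rel (nat_lit 85463040)) .nil)) .nil)) .leaf) (nat_lit 22976566500763648) (.br (nat_lit 0) (.cons (.br (nat_lit 2) (.cons (.rel (nat_lit 71311632)) (.cons (.rel (nat_lit 75564048)) .nil))) (.cons (.br (nat_lit 2) (.cons (.rel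 (nat_lit 71311632)) (.cons (.rel (nat_lit 71337216)) .nil))) .nil))) (.node .leaf (nat_lit 22976566500763674) (.br (nat_lit 1) (.cons (.br (nat_lit 5) (.cons (.rel (nat_lit 4312010817)) .nil)) .nil)) .leaf)))))

/-- refutations 48 -/
def e48 : EX := (.node (.node (.node (.node (.node .leaf (nat_lit 22976726980726816) (.br (nat_lit 1) (.cons (.br (nat_lit 5) (.cons (.rel (nat_lit 4313858052)) .nil)) .nil)) .leaf) (nat_lit 22976737856258310) (.br (nat_lit 0) (.cons (.br (nat_lit 1) (.cons (.rel (nat_lit 20975877)) .nil)) .nil)) (.node .leaf (nat_lit 22976770025125101) (.br (nat_lit 0) (.cons (.br (nat_lit 1) (.cons (.rel (nat_lit 43073556)) .nil)) .nil)) .leaf)) (nat_lit 22976772119224975) (.br (nat_lit 0) (.cons (.br (nat_lit 1) (.cons (.rel (nat_lit 21303312)) .nil)) .nil)) (.node (.node .leaf (nat_lit 22976772119726365) (.br (nat_lit 3) (.cons (.br (nat_lit 5) (.cons (.rel (nat_lit 4563403032)) .nil)) .nil)) .leaf) (nat_lit 22976772119827358) (.br (nat_lit 3) (.cons (.br (nat_lit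 4) (.cons (.rel (nat_lit 1342243860)) .nil)) .nil)) (.node .leaf (nat_lit 22977002051069952) (.br (nat_lit 0) (.cons (.br (nat_lit 3) (.cons (.rel (nat_lit 276840513)) .nil)) .nil)) .leaf))) (nat_lit 22977002051471360) (.br (nat_lit 2) (.cons (.br (nat_lit 3) (.cons (.rel (nat_lit 336069120)) .nil)) .nil)) (.node (.node (.node .leaf (nat_lit 22977002051571712) (.br (nat_lit 2) (.cons (.br (nat_lit 0) (.cons (.rel (nat_lit 71319876)) (.cons (.rel (nat_lit 71319876)) (.cons (.rel (nat_lit 71337216)) .nil)))) (.cons (.br (nat_lit 0) (.cons (.br (nat_lit 3) (.cons (.rel (nat_lit 337657860)) (.cons (.rel (nat_lit 272630052)) (.cons (.rel (nat_lit 276828228)) .nil)))) (.cons (.rel (nat_lit 71630976)) (.cons (.rel (nat_lit 71602176)) .nil)))) .nil))) .leaf) (nat_lit 22977002051572999) (.br (nat_lit 0) (.cons (.br (nat_lit 3) (.cons (.rel (nat_lit 272631057)) .nil)) .nil)) (.node .leaf (nat_lit 22977002052544538) (.br (nat_lit 0) (.cons (.br (nat_lit 2) (.cons (.rel (nat_lit 71565321))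 (.cons (.rel (nat_lit 75501573)) .nil))) .nil)) .leaf)) (nat_lit 22977002052597087) (.br (nat_lit 0) (.cons (.br (nat_lit 2) (.cons (.rel (nat_lit 71602176)) .nil)) .nil)) (.node (.node .leaf (nat_lit 22977002053569824) (.br (nat_lit 0) (.cons (.br (nat_lit 2) (.cons (.rel (nat_lit 138432516)) .nil)) .nil)) .leaf) (nat_lit 22977002053620342) (.br (nat_lit 0) (.cons (.br (nat_lit 1) (.cons (.rel (nat_lit 20988162)) .nil)) .nil)) (.node .leaf (nat_lit 22977002053620587) (.br (nat_lit 5) (.cons (.br (nat_lit 0) (.cons (.rel (nat_lit 4299163968)) (.cons (.rel (nat_lit 4299178248)) .nil))) .nil)) .leaf)))) (nat_lit 22977002053836826) (.br (nat_lit 0) (.cons (.br (nat_lit 2) (.cons (.rel (nat_lit 71565321)) (.cons (.rel (nat_lit 71602176)) (.cons (.rel (nat_lit 71337216)) (.cons (.rel (nat_lit 71602176)) .nil))))) .nil)) (.node (.node (.node (.node .leaf (nat_lit 22977002053886582) (.br (nat_lit 1) (.cons (.br (nat_lit 3) (.cons (.rel (nat_lit 285286656)) (.cons (.rel (nat_lit 285213960))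 .nil))) (.cons (.br (nat_lit 3) (.cons (.rel (nat_lit 285213960)) (.cons (.rel (nat_lit 285213960)) .nil))) .nil))) .leaf) (nat_lit 22977002053886827) (.br (nat_lit 0) (.cons (.br (nat_lit 2) (.cons (.rel (nat_lit 71565321)) .nil)) .nil)) (.node .leaf (nat_lit 22977002391209984) (.br (nat_lit 0) (.cons (.br (nat_lit 3) (.cons (.rel (nat_lit 541130772)) .nil)) .nil)) .leaf)) (nat_lit 22977004144429056) (.br (nat_lit 0) (.cons (.br (nat_lit 1) (.cons (.rel (nat_lit 20971872)) .nil)) .nil)) (.node (.node .leaf (nat_lit 22977608993194246) (.br (nat_lit 1) (.cons (.br (nat_lit 5) (.cons (.rel (nat_lit 4311744852)) .nil)) .nil)) .leaf) (nat_lit 22977608994778524) (.br (nat_lit 3) (.cons (.br (nat_lit 5) (.cons (.rel (nat_lit 9127855104)) .nil)) .nil)) (.node .leaf (nat_lit 22977765801482240) (.br (nat_lit 0) (.cons (.br (nat_lit 3) (.cons (.rel (nat_lit 272896017)) .nil)) .nil)) .leaf))) (nat_lit 22977765803272192) (.br (nat_lit 3) (.cons (.br (nat_lit 4) (.cons (.rel (nat_lit 1343569920))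 .nil)) .nil)) (.node (.node (.node .leaf (nat_lit 22977772108704670) (.br (nat_lit 0) (.cons (.br (nat_lit 2) (.cons (.rel (nat_lit 71602176)) .nil)) .nil)) .leaf) (nat_lit 22977772109994290) (.br (nat_lit 1) (.cons (.br (nat_lit 2) (.cons (.rel (nat_lit 85198080)) .nil)) .nil)) (.node .leaf (nat_lit 22977772110034208) (.br (nat_lit 0) (.cons (.br (nat_lit 3) (.cons (.rel (nat_lit 541081632)) .nil)) .nil)) .leaf)) (nat_lit 22977772110300448) (.br (nat_lit 3) (.cons (.br (nat_lit 5) (.cons (.rel (nat_lit 4563664992)) .nil)) .nil)) (.node (.node .leaf (nat_lit 22977772111220736) (.br (nat_lit 0) (.cons (.br (nat_lit 3) (.cons (.rel (nat_lit 272896017)) .nil)) .nil)) .leaf) (nat_lit 22977772111274269) (.br (nat_lit 2) (.cons (.br (nat_lit 3) (.cons (.rel (nat_lit 335826960)) .nil)) .nil)) .leaf))))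

/-- refutations 49 -/
def e49 : EX := (.node (.node (.node (.node (.node .leaf (nat_lit 22977974810832353) (.br (nat_lit 1) (.cons (.br (nat_lit 3) (.cons (.rel (nat_lit 285478920)) (.cons (.rel (nat_lit 285213960)) .nil))) .nil)) .leaf) (nat_lit 22977974811332608) (.br (nat_lit 0) (.cons (.br (nat_lit 6) (.cons (.rel (nat_lit 17184063828)) .nil)) .nil)) (.node .leaf (nat_lit 22977974811332893) (.br (nat_lit 0) (.cons (.br (nat_lit 5) (.cons (.rel (nat_lit 4299489348)) .nil)) .nil)) .leaf)) (nat_lit 22977978481349483) (.br (nat_lit 0) (.cons (.br (nat_lit 6) (.cons (.rel (nat_lit 34368389376)) (.cons (.rel (nat_lit 17184395268)) .nil))) .nil)) (.node (.node .leaf (nat_lit 22977978482372608) (.br (nat_lit 0) (.cons (.br (nat_lit 6) (.cons (.rel (nat_lit 17184329793)) (.cons (.rel (nat_lit 17188290624)) .nil))) .nil)) .leaf) (nat_lit 22977978483346834) (.br (nat_lit 0) (.cons (.br (nat_lit 1) (.cons (.rel (nat_lit 25170048)) .nil)) .nil)) .leaf)) (nat_lit 22977978483664353) (.br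 (nat_lit 1) (.cons (.br (nat_lit 5) (.cons (.rel (nat_lit 4311745857)) .nil)) .nil)) (.node (.node (.node .leaf (nat_lit 22977978483808318) (.br (nat_lit 1) (.cons (.br (nat_lit 6) (.cons (.rel (nat_lit 17197039632)) .nil)) .nil)) .leaf) (nat_lit 22977978483845405) (.br (nat_lit 0) (.cons (.br (nat_lit 2) (.cons (.rel (nat_lit 71373057)) .nil)) .nil)) (.node .leaf (nat_lit 22980861464961050) (.br (nat_lit 0) (.cons (.br (nat_lit 1) (.cons (.rel (nat_lit 25170048)) .nil)) .nil)) .leaf)) (nat_lit 22980861465462810) (.br (nat_lit 5) (.cons (.br (nat_lit 1) (.cons (.rel (nat_lit 4328558592)) (.cons (.rel (nat_lit 8606736384)) .nil))) .nil)) (.node (.node .leaf (nat_lit 22980861465463414) (.br (nat_lit 0) (.cons (.br (nat_lit 1) (.cons (.rel (nat_lit 23134212)) .nil)) .nil)) .leaf) (nat_lit 22980861466733174) (.br (nat_lit 1) (.cons (.br (nat_lit 3) (.cons (.rel (nat_lit 285478920)) .nil)) .nil)) .leaf))) (nat_lit 22980861466854688) (.br (nat_lit 2) (.cons (.br (nat_lit 5) (.cons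 (.rel (nat_lit 4362354816)) .nil)) .nil)) (.node (.node (.node (.node .leaf (nat_lit 22980861467559988) (.br (nat_lit 0) (.cons (.br (nat_lit 2) (.cons (.rel (nat_lit 71630976)) .nil)) .nil)) .leaf) (nat_lit 22980861468059674) (.br (nat_lit 5) (.cons (.br (nat_lit 3) (.cons (.rel (nat_lit 4563681282)) (.cons (.rel (nat_lit 4563681282)) .nil))) .nil)) (.node .leaf (nat_lit 22980863949881974) (.br (nat_lit 0) (.cons (.br (nat_lit 1) (.cons (.rel (nat_lit 25170048)) (.cons (.rel (nat_lit 25170048)) .nil))) .nil)) .leaf)) (nat_lit 22980863949882656) (.br (nat_lit 2) (.cons (.br (nat_lit 5) (.cons (.rel (nat_lit 4362354816)) .nil)) .nil)) (.node (.node .leaf (nat_lit 22980863950856822) (.br (nat_lit 0) (.cons (.br (nat_lit 2) (.cons (.rel (nat_lit 75513858)) .nil)) .nil)) .leaf) (nat_lit 22980869410230272) (.br (nat_lit 0) (.cons (.br (nat_lit 1) (.cons (.rel (nat_lit 20988162)) .nil)) .nil)) .leaf)) (nat_lit 22980872266551296) (.br (nat_lit 0) (.cons (.br (nat_lit 1) (.cons (.rel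 (nat_lit 21233796)) .nil)) .nil)) (.node (.node (.node .leaf (nat_lit 22981301762125037) (.br (nat_lit 0) (.cons (.br (nat_lit 6) (.cons (.rel (nat_lit 17184329793)) .nil)) .nil)) .leaf) (nat_lit 22981301763352608) (.br (nat_lit 0) (.cons (.br (nat_lit 1) (.cons (.rel (nat_lit 20988162)) .nil)) .nil)) .leaf) (nat_lit 22981301764674798) (.br (nat_lit 0) (.cons (.br (nat_lit 3) (.cons (.rel (nat_lit 272630052)) .nil)) .nil)) (.node (.node .leaf (nat_lit 22981302785535457) (.br (nat_lit 0) (.cons (.br (nat_lit 1) (.cons (.rel (nat_lit 20975877)) .nil)) .nil)) .leaf) (nat_lit 22981302786036587) (.br (nat_lit 0) (.cons (.br (nat_lit 5) (.cons (.rel (nat_lit 4299423873)) .nil)) .nil)) .leaf))))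

/-- refutations 50 -/
def e50 : EX := (.node (.node (.node (.node (.node (.node .leaf (nat_lit 22981895306409488) (.br (nat_lit 1) (.cons (.br (nat_lit 2) (.cons (.rel (nat_lit 83886480)) .nil)) .nil)) .leaf) (nat_lit 22982267680853518) (.br (nat_lit 1) (.cons (.br (nat_lit 5) (.cons (.rel (nat_lit 8606711814)) .nil)) .nil)) .leaf) (nat_lit 22982267680975478) (.br (nat_lit 1) (.cons (.br (nat_lit 3) (.cons (.rel (nat_lit 285212946)) (.cons (.rel (nat_lit 285213960)) .nil))) .nil)) (.node .leaf (nat_lit 22982267681376256) (.br (nat_lit 0) (.cons (.br (nat_lit 4) (.cons (.rel (nat_lit 2155876368)) (.cons (.rel (nat_lit 1082131008)) (.cons (.rel (nat_lit 1077953601)) (.cons (.rel (nat_lit 1077953601)) .nil))))) (.cons (.br (nat_lit 3) (.cons (.rel (nat_lit 272699712)) (.cons (.rel (nat_lit 276828228)) (.cons (.rel (nat_lit 276856848)) .nil)))) .nil))) .leaf)) (nat_lit 22982267681376282) (.br (nat_lit 3) (.cons (.br (nat_lit 0) (.cons (.rel (nat_lit 272699712)) (.cons (.rel (nat_lit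 272891976)) .nil))) .nil)) (.node (.node (.node .leaf (nat_lit 22982267681476608) (.br (nat_lit 0) (.cons (.br (nat_lit 2) (.cons (.rel (nat_lit 71319876)) (.cons (.rel (nat_lit 71602176)) (.cons (.rel (nat_lit 71630976)) (.cons (.rel (nat_lit 71630976)) (.cons (.rel (nat_lit 73531392)) .nil)))))) (.cons (.br (nat_lit 3) (.cons (.rel (nat_lit 272630052)) (.cons (.rel (nat_lit 272699712)) (.cons (.rel (nat_lit 276828228)) (.cons (.rel (nat_lit 272630052)) (.cons (.rel (nat_lit 547684356)) .nil)))))) (.cons (.br (nat_lit 1) (.cons (.rel (nat_lit 20975877)) (.cons (.rel (nat_lit 23134212)) (.cons (.rel (nat_lit 23085072)) (.cons (.rel (nat_lit 21251136)) (.cons (.rel (nat_lit 25170048)) (.cons (.rel (nat_lit 23134212)) (.cons (.rel (nat_lit 37748757)) .nil)))))))) (.cons (.br (nat_lit 2) (.cons (.rel (nat_lit 71630976)) (.cons (.rel (nat_lit 71630976)) (.cons (.rel (nat_lit 72876096)) (.cons (.rel (nat_lit 71319876)) (.cons (.rel (nat_lit 71602176)) .nil)))))) .nil))))) .leaf) (nat_lit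 22982267681476634) (.br (nat_lit 0) (.cons (.br (nat_lit 3) (.cons (.rel (nat_lit 272699712)) (.cons (.rel (nat_lit 272631057)) .nil))) (.cons (.br (nat_lit 3) (.cons (.rel (nat_lit 272699712)) (.cons (.rel (nat_lit 272896017)) .nil))) .nil))) .leaf) (nat_lit 22982267681476785) (.br (nat_lit 0) (.cons (.br (nat_lit 3) (.cons (.rel (nat_lit 272631057)) (.cons (.rel (nat_lit 276840513)) .nil))) .nil)) (.node .leaf (nat_lit 22982267682203910) (.br (nat_lit 5) (.cons (.br (nat_lit 0) (.cons (.rel (nat_lit 4299163968)) (.cons (.rel (nat_lit 4299178248)) (.cons (.rel (nat_lit 8594149440)) .nil)))) .nil)) .leaf))) (nat_lit 22982267682203953) (.br (nat_lit 1) (.cons (.br (nat_lit 5) (.cons (.rel (nat_lit 4329832512)) .nil)) .nil)) (.node (.node (.node (.node .leaf (nat_lit 22982267682449434) (.br (nat_lit 0) (.cons (.br (nat_lit 2) (.cons (.rel (nat_lit 71565321)) (.cons (.rel (nat_lit 75501573)) .nil))) .nil)) .leaf) (nat_lit 22982267682501983) (.br (nat_lit 0) (.cons (.br (nat_lit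 2) (.cons (.br (nat_lit 1) (.cons (.rel (nat_lit 21251136)) (.cons (.rel (nat_lit 25167873)) (.cons (.rel (nat_lit 100728840)) .nil)))) .nil)) .nil)) .leaf) (nat_lit 22982267682766874) (.br (nat_lit 3) (.cons (.br (nat_lit 0) (.cons (.rel (nat_lit 272699712)) (.cons (.rel (nat_lit 272891976)) .nil))) .nil)) (.node .leaf (nat_lit 22982267682766910) (.br (nat_lit 0) (.cons (.br (nat_lit 1) (.cons (.rel (nat_lit 20975877)) .nil)) .nil)) .leaf)) (nat_lit 22982267682767478) (.br (nat_lit 0) (.cons (.br (nat_lit 1) (.cons (.br (nat_lit 3) (.cons (.rel (nat_lit 272699712)) (.cons (.rel (nat_lit 285212946)) (.cons (.rel (nat_lit 541081632)) .nil)))) (.cons (.rel (nat_lit 20975877)) (.cons (.rel (nat_lit 25170048)) .nil)))) (.cons (.br (nat_lit 2) (.cons (.rel (nat_lit 71602176)) (.cons (.rel (nat_lit 75513858)) (.cons (.rel (nat_lit 71311632)) .nil)))) (.cons (.br (nat_lit 1) (.cons (.rel (nat_lit 25166868)) (.cons (.rel (nat_lit 23085072)) (.cons (.rel (nat_lit 21233796)) .nil)))) .nil))))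 (.node (.node .leaf (nat_lit 22982267682768110) (.br (nat_lit 0) (.cons (.br (nat_lit 1) (.cons (.rel (nat_lit 37748757)) .nil)) .nil)) .leaf) (nat_lit 22982267683525483) (.br (nat_lit 0) (.cons (.br (nat_lit 1) (.cons (.rel (nat_lit 21233796)) .nil)) .nil)) (.node .leaf (nat_lit 22982267683741722) (.br (nat_lit 0) (.cons (.br (nat_lit 1) (.cons (.rel (nat_lit 25166868)) .nil)) .nil)) .leaf)))) (nat_lit 22982267683791478) (.br (nat_lit 0) (.cons (.br (nat_lit 1) (.cons (.rel (nat_lit 21233796)) (.cons (.br (nat_lit 3) (.cons (.rel (nat_lit 285213960)) (.cons (.rel (nat_lit 541081632)) (.cons (.rel (nat_lit 272909316)) .nil)))) .nil))) (.cons (.br (nat_lit 1) (.cons (.rel (nat_lit 21233796)) (.cons (.rel (nat_lit 21233796)) .nil))) .nil))) (.node (.node (.node (.node (.node .leaf (nat_lit 22982267683926646) (.br (nat_lit 0) (.cons (.br (nat_lit 3) (.cons (.rel (nat_lit 272630052)) .nil)) .nil)) .leaf) (nat_lit 22982267683927277) (.br (nat_lit 0) (.cons (.br (nat_lit 4) (.cons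 (.rel (nat_lit 1077952596)) .nil)) .nil)) .leaf) (nat_lit 22982267683937193) (.br (nat_lit 1) (.cons (.br (nat_lit 5) (.cons (.rel (nat_lit 4311762192)) .nil)) .nil)) (.node .leaf (nat_lit 22982267683937511) (.br (nat_lit 0) (.cons (.br (nat_lit 2) (.cons (.rel (nat_lit 71319876)) .nil)) .nil)) .leaf)) (nat_lit 22982267683973405) (.br (nat_lit 0) (.cons (.br (nat_lit 6) (.cons (.rel (nat_lit 17184064833)) .nil)) .nil)) (.node (.node (.node .leaf (nat_lit 22982267683973750) (.br (nat_lit 3) (.cons (.br (nat_lit 4) (.cons (.rel (nat_lit 2684375040)) (.cons (.rel (nat_lit 1342177380)) .nil))) .nil)) .leaf) (nat_lit 22982267683973776) (.br (nat_lit 0) (.cons (.br (nat_lit 4) (.cons (.rel (nat_lit 1079054592)) (.cons (.rel (nat_lit 1077953601)) .nil))) .nil)) .leaf) (nat_lit 22982267683974375) (.br (nat_lit 0) (.cons (.br (nat_lit 5) (.cons (.rel (nat_lit 8594128920)) .nil)) .nil)) (.node .leaf (nat_lit 22982272700361334) (.br (nat_lit 3) (.cons (.br (nat_lit 5) (.cons (.rel (nat_lit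 9127855104)) .nil)) .nil)) .leaf))) (nat_lit 22982272841197873) (.br (nat_lit 0) (.cons (.br (nat_lit 1) (.cons (.rel (nat_lit 37834752)) .nil)) .nil)) (.node (.node (.node (.node .leaf (nat_lit 22982272842930176) (.br (nat_lit 0) (.cons (.br (nat_lit 1) (.cons (.rel (nat_lit 20971872)) .nil)) .nil)) .leaf) (nat_lit 22982273448144353) (.br (nat_lit 1) (.cons (.br (nat_lit 3) (.cons (.rel (nat_lit 571473936)) .nil)) .nil)) .leaf) (nat_lit 22982273449371910) (.br (nat_lit 0) (.cons (.br (nat_lit 3) (.cons (.rel (nat_lit 273679872)) .nil)) .nil)) (.node .leaf (nat_lit 22982920516134963) (.br (nat_lit 1) (.cons (.br (nat_lit 2) (.cons (.rel (nat_lit 84295680)) .nil)) .nil)) .leaf)) (nat_lit 22982920518553626) (.br (nat_lit 0) (.cons (.br (nat_lit 1) (.cons (.rel (nat_lit 21251136)) .nil)) .nil)) (.node (.node .leaf (nat_lit 22982920518756637) (.br (nat_lit 3) (.cons (.br (nat_lit 4) (.cons (.rel (nat_lit 1342701840)) .nil)) .nil)) .leaf) (nat_lit 22982920518757227) (.br (nat_lit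 1) (.cons (.br (nat_lit 3) (.cons (.rel (nat_lit 285286656)) .nil)) .nil)) (.node .leaf (nat_lit 22983215107336192) (.br (nat_lit 1) (.cons (.br (nat_lit 2) (.cons (.rel (nat_lit 83952960)) .nil)) .nil)) .leaf)))))

/-- refutations 51 -/
def e51 : EX := (.node (.node (.node (.node (.node (.node .leaf (nat_lit 22983386349515058) (.br (nat_lit 0) (.cons (.br (nat_lit 1) (.cons (.rel (nat_lit 37834752)) .nil)) .nil)) .leaf) (nat_lit 22983390138160366) (.br (nat_lit 1) (.cons (.br (nat_lit 3) (.cons (.rel (nat_lit 285478920)) .nil)) .nil)) .leaf) (nat_lit 22983392861743285) (.br (nat_lit 1) (.cons (.br (nat_lit 6) (.cons (.rel (nat_lit 17196650772)) .nil)) .nil)) (.node .leaf (nat_lit 22983392863268864) (.br (nat_lit 0) (.cons (.br (nat_lit 6) (.cons (.rel (nat_lit 17184064833)) .nil)) .nil)) .leaf)) (nat_lit 22983392962306833) (.br (nat_lit 0) (.cons (.br (nat_lit 3) (.cons (.rel (nat_lit 276905988)) .nil)) .nil)) (.node (.node (.node .leaf (nat_lit 22983392962406581) (.br (nat_lit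 0) (.cons (.br (nat_lit 3) (.cons (.rel (nat_lit 272631057)) .nil)) .nil)) .leaf) (nat_lit 22983392962407030) (.br (nat_lit 1) (.cons (.br (nat_lit 0) (.cons (.rel (nat_lit 20975877)) (.cons (.rel (nat_lit 23085072)) .nil))) .nil)) .leaf) (nat_lit 22983392962407185) (.br (nat_lit 1) (.cons (.br (nat_lit 6) (.cons (.rel (nat_lit 34376515608)) .nil)) .nil)) (.node .leaf (nat_lit 22983392962805941) (.br (nat_lit 0) (.cons (.br (nat_lit 6) (.cons (.rel (nat_lit 17188258824)) .nil)) .nil)) .leaf))) (nat_lit 22983392962806047) (.br (nat_lit 0) (.cons (.br (nat_lit 3) (.cons (.rel (nat_lit 272631057)) (.cons (.rel (nat_lit 541081632)) .nil))) (.cons (.br (nat_lit 3) (.cons (.rel (nat_lit 272631057)) (.cons (.rel (nat_lit 273679872)) .nil))) .nil))) (.node (.node (.node (.node .leaf (nat_lit 22983392962908160) (.br (nat_lit 0) (.cons (.br (nat_lit 2) (.cons (.rel (nat_lit 71567376)) (.cons (.rel (nat_lit 71565321)) (.cons (.rel (nat_lit 71630976)) (.cons (.rel (nat_lit 73531392)) (.cons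 (.rel (nat_lit 71565321)) .nil)))))) (.cons (.br (nat_lit 1) (.cons (.rel (nat_lit 25170048)) (.cons (.rel (nat_lit 20988162)) (.cons (.rel (nat_lit 25170048)) (.cons (.rel (nat_lit 37756992)) .nil))))) (.cons (.br (nat_lit 3) (.cons (.rel (nat_lit 272631057)) (.cons (.rel (nat_lit 274726917)) (.cons (.rel (nat_lit 272631057)) (.cons (.rel (nat_lit 272699712)) .nil))))) .nil)))) .leaf) (nat_lit 22983392962908291) (.br (nat_lit 5) (.cons (.br (nat_lit 3) (.cons (.rel (nat_lit 4831855617)) (.cons (.rel (nat_lit 4831838277)) (.cons (.rel (nat_lit 4831855617)) .nil)))) .nil)) .leaf) (nat_lit 22983392962908837) (.br (nat_lit 5) (.cons (.br (nat_lit 4) (.cons (.rel (nat_lit 5368713282)) (.cons (.rel (nat_lit 5368725576)) .nil))) .nil)) (.node .leaf (nat_lit 22983392963635226) (.br (nat_lit 0) (.cons (.br (nat_lit 4) (.cons (.rel (nat_lit 1078477056)) .nil)) .nil)) .leaf)) (nat_lit 22983392963635462) (.br (nat_lit 5) (.cons (.br (nat_lit 4) (.cons (.rel (nat_lit 10737419328)) (.cons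 (.rel (nat_lit 10737419328)) (.cons (.rel (nat_lit 5368725576)) (.cons (.rel (nat_lit 5368971777)) (.cons (.rel (nat_lit 10737419328)) .nil)))))) .nil)) (.node (.node (.node .leaf (nat_lit 22983392963635877) (.br (nat_lit 5) (.cons (.br (nat_lit 4) (.cons (.rel (nat_lit 5368725576)) (.cons (.rel (nat_lit 10737419328)) .nil))) .nil)) .leaf) (nat_lit 22983392963636761) (.br (nat_lit 0) (.cons (.br (nat_lit 1) (.cons (.rel (nat_lit 23085072)) .nil)) .nil)) .leaf) (nat_lit 22983392963932186) (.br (nat_lit 1) (.cons (.br (nat_lit 3) (.cons (.rel (nat_lit 285491205)) (.cons (.rel (nat_lit 285491205)) .nil))) .nil)) (.node .leaf (nat_lit 22983392963932337) (.br (nat_lit 5) (.cons (.br (nat_lit 1) (.cons (.rel (nat_lit 4311744852)) (.cons (.rel (nat_lit 8623751424)) .nil))) .nil)) .leaf)))) (nat_lit 22983392963932945) (.br (nat_lit 0) (.cons (.br (nat_lit 1) (.cons (.rel (nat_lit 20975877)) .nil)) .nil)) (.node (.node (.node (.node (.node .leaf (nat_lit 22983392963933535) (.br (nat_lit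 2) (.cons (.br (nat_lit 0) (.cons (.rel (nat_lit 71630976)) (.cons (.rel (nat_lit 143720448)) .nil))) .nil)) .leaf) (nat_lit 22983392963933596) (.br (nat_lit 1) (.cons (.br (nat_lit 4) (.cons (.rel (nat_lit 1091600640)) .nil)) .nil)) .leaf) (nat_lit 22983392964148602) (.br (nat_lit 0) (.cons (.br (nat_lit 1) (.cons (.rel (nat_lit 20988162)) .nil)) .nil)) (.node .leaf (nat_lit 22983392964905616) (.br (nat_lit 6) (.cons (.br (nat_lit 0) (.cons (.rel (nat_lit 17184081168)) (.cons (.rel (nat_lit 34368389376)) .nil))) .nil)) .leaf)) (nat_lit 22983392964957035) (.br (nat_lit 0) (.cons (.br (nat_lit 1) (.cons (.rel (nat_lit 20971872)) (.cons (.rel (nat_lit 20971872)) .nil))) .nil)) (.node (.node (.node .leaf (nat_lit 22983392965120656) (.br (nat_lit 0) (.cons (.br (nat_lit 2) (.cons (.rel (nat_lit 143720448)) .nil)) .nil)) .leaf) (nat_lit 22983392965222705) (.br (nat_lit 1) (.cons (.br (nat_lit 2) (.cons (.rel (nat_lit 83886480)) .nil)) .nil)) .leaf) (nat_lit 22983392965223030) (.br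 (nat_lit 1) (.cons (.br (nat_lit 2) (.cons (.br (nat_lit 0) (.cons (.rel (nat_lit 71602176)) (.cons (.rel (nat_lit 143720448)) (.cons (.rel (nat_lit 20975877)) (.cons (.rel (nat_lit 20988162)) (.cons (.rel (nat_lit 37748757)) (.cons (.rel (nat_lit 20971872)) .nil))))))) (.cons (.rel (nat_lit 100728840)) (.cons (.rel (nat_lit 100679700)) .nil)))) .nil)) (.node .leaf (nat_lit 22983392965368485) (.br (nat_lit 1) (.cons (.br (nat_lit 5) (.cons (.rel (nat_lit 8606842944)) .nil)) .nil)) .leaf))) (nat_lit 22983392965368745) (.br (nat_lit 5) (.cons (.br (nat_lit 2) (.cons (.rel (nat_lit 4362096897)) (.cons (.rel (nat_lit 4362096897)) .nil))) .nil)) (.node (.node (.node (.node .leaf (nat_lit 22983392965404853) (.br (nat_lit 5) (.cons (.br (nat_lit 0) (.cons (.rel (nat_lit 4299163968)) (.cons (.rel (nat_lit 4299163968)) .nil))) .nil)) .leaf) (nat_lit 22983392965426414) (.br (nat_lit 1) (.cons (.br (nat_lit 6) (.cons (.rel (nat_lit 17196646722)) .nil)) .nil)) .leaf) (nat_lit 22983394852394222)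 (.br (nat_lit 0) (.cons (.br (nat_lit 1) (.cons (.rel (nat_lit 23085072)) .nil)) .nil)) (.node .leaf (nat_lit 22983398515665526) (.br (nat_lit 4) (.cons (.br (nat_lit 6) (.cons (.rel (nat_lit 19327616016)) .nil)) .nil)) .leaf)) (nat_lit 22983398609465344) (.br (nat_lit 2) (.cons (.br (nat_lit 5) (.cons (.rel (nat_lit 4362473472)) (.cons (.rel (nat_lit 4364255232)) .nil))) (.cons (.br (nat_lit 5) (.cons (.rel (nat_lit 4362096897)) (.cons (.rel (nat_lit 4429254672)) .nil))) .nil))) (.node (.node .leaf (nat_lit 22983398610694275) (.br (nat_lit 0) (.cons (.br (nat_lit 2) (.cons (.rel (nat_lit 71311632)) .nil)) .nil)) .leaf) (nat_lit 22983403653687927) (.br (nat_lit 0) (.cons (.br (nat_lit 1) (.cons (.rel (nat_lit 21233796)) .nil)) .nil)) (.node .leaf (nat_lit 22983403656379903) (.br (nat_lit 0) (.cons (.br (nat_lit 1) (.cons (.rel (nat_lit 21038352)) .nil)) .nil)) .leaf)))))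

/-- refutations 52 -/
def e52 : EX := (.node (.node (.node (.node (.node (.node (.node (.node .leaf (nat_lit 22986562648148000) (.br (nat_lit 2) (.cons (.br (nat_lit 5) (.cons (.rel (nat_lit 4362080610)) .nil)) .nil)) .leaf) (nat_lit 22986562648148143) (.br (nat_lit 2) (.cons (.br (nat_lit 3) (.cons (.rel (nat_lit 336069120)) .nil)) .nil)) .leaf) (nat_lit 22986562648148273) (.br (nat_lit 0) (.cons (.br (nat_lit 1) (.cons (.rel (nat_lit 20971872)) .nil)) .nil)) (.node (.node .leaf (nat_lit 22986562648148643) (.br (nat_lit 2) (.cons (.br (nat_lit 5) (.cons (.rel (nat_lit 4362338337)) .nil)) .nil)) .leaf) (nat_lit 22986562648148843) (.br (nat_lit 1) (.cons (.br (nat_lit 4) (.cons (.rel (nat_lit 1090519200)) (.cons (.rel (nat_lit 1090519200)) (.cons (.rel (nat_lit 1090519200)) .nil)))) .nil)) .leaf)) (nat_lit 22986562648170522) (.br (nat_lit 0) (.cons (.br (nat_lit 1) (.cons (.rel (nat_lit 21233796)) (.cons (.rel (nat_lit 21251136)) .nil))) .nil)) (.node (.node (.node .leaf (nat_lit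 22986562648170548) (.br (nat_lit 0) (.cons (.br (nat_lit 2) (.cons (.rel (nat_lit 71337216)) .nil)) .nil)) .leaf) (nat_lit 22986562648170781) (.br (nat_lit 4) (.cons (.br (nat_lit 5) (.cons (.rel (nat_lit 5368713282)) .nil)) .nil)) .leaf) (nat_lit 22986562648270848) (.br (nat_lit 2) (.cons (.br (nat_lit 5) (.cons (.rel (nat_lit 4362473472)) (.cons (.rel (nat_lit 4362142032)) (.cons (.rel (nat_lit 4429202496)) .nil)))) (.cons (.br (nat_lit 5) (.cons (.rel (nat_lit 4362473472)) (.cons (.rel (nat_lit 4429185156)) (.cons (.rel (nat_lit 4362354816)) .nil)))) .nil))) (.node (.node .leaf (nat_lit 22986562648271110) (.br (nat_lit 1) (.cons (.br (nat_lit 6) (.cons (.rel (nat_lit 17196929034)) (.cons (.rel (nat_lit 17196941316)) (.cons (.rel (nat_lit 34376536128)) .nil)))) (.cons (.br (nat_lit 4) (.cons (.rel (nat_lit 2181370368)) (.cons (.rel (nat_lit 1090781700)) .nil))) .nil))) .leaf) (nat_lit 22986562648271478) (.br (nat_lit 2) (.cons (.br (nat_lit 5) (.cons (.rel (nat_lit 4362473472))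 (.cons (.br (nat_lit 3) (.cons (.rel (nat_lit 336069120)) (.cons (.rel (nat_lit 402653250)) (.cons (.rel (nat_lit 4563681282)) (.cons (.rel (nat_lit 335810625)) .nil))))) .nil))) (.cons (.br (nat_lit 5) (.cons (.rel (nat_lit 4362338337)) (.cons (.rel (nat_lit 4362096897)) .nil))) .nil))) .leaf))) (nat_lit 22986562648272250) (.br (nat_lit 0) (.cons (.br (nat_lit 4) (.cons (.rel (nat_lit 1079054592)) .nil)) .nil)) (.node (.node (.node (.node .leaf (nat_lit 22986562648401946) (.br (nat_lit 0) (.cons (.br (nat_lit 1) (.cons (.rel (nat_lit 20971872)) (.cons (.rel (nat_lit 25170048)) .nil))) .nil)) .leaf) (nat_lit 22986562648401971) (.br (nat_lit 0) (.cons (.br (nat_lit 4) (.cons (.rel (nat_lit 1083183108)) (.cons (.rel (nat_lit 1078001736)) .nil))) .nil)) .leaf) (nat_lit 22986562648402077) (.br (nat_lit 4) (.cons (.br (nat_lit 6) (.cons (.rel (nat_lit 18253643781)) .nil)) .nil)) (.node (.node .leaf (nat_lit 22986562648402101) (.br (nat_lit 1) (.cons (.br (nat_lit 0) (.cons (.rel (nat_lit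 20988162)) (.cons (.rel (nat_lit 20988162)) .nil))) .nil)) .leaf) (nat_lit 22986562648402205) (.br (nat_lit 4) (.cons (.br (nat_lit 5) (.cons (.rel (nat_lit 5368717332)) .nil)) .nil)) .leaf)) (nat_lit 22986562648402795) (.br (nat_lit 0) (.cons (.br (nat_lit 3) (.cons (.rel (nat_lit 272631057)) .nil)) .nil)) (.node (.node (.node .leaf (nat_lit 22986562648404099) (.br (nat_lit 2) (.cons (.br (nat_lit 3) (.cons (.rel (nat_lit 402657300)) .nil)) .nil)) .leaf) (nat_lit 22986562648404243) (.br (nat_lit 0) (.cons (.br (nat_lit 2) (.cons (.rel (nat_lit 71319876)) .nil)) .nil)) .leaf) (nat_lit 22986562648404253) (.br (nat_lit 6) (.cons (.br (nat_lit 3) (.cons (.rel (nat_lit 17448436032)) (.cons (.rel (nat_lit 17448305952)) (.cons (.rel (nat_lit 17448436032)) .nil)))) (.cons (.br (nat_lit 3) (.cons (.rel (nat_lit 17448436032)) (.cons (.rel (nat_lit 17448305952)) (.cons (.rel (nat_lit 34628206593)) .nil)))) .nil))) (.node .leaf (nat_lit 22986562648404598) (.br (nat_lit 3) (.cons (.br (nat_lit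 0) (.cons (.rel (nat_lit 272896017)) (.cons (.rel (nat_lit 272631057)) (.cons (.rel (nat_lit 272896017)) (.cons (.rel (nat_lit 272631057)) .nil))))) .nil)) .leaf)))) (nat_lit 22986562648404744) (.br (nat_lit 3) (.cons (.br (nat_lit 5) (.cons (.rel (nat_lit 4563423552)) .nil)) .nil)) (.node (.node (.node (.node (.node .leaf (nat_lit 22986562648404843) (.br (nat_lit 3) (.cons (.br (nat_lit 6) (.cons (.rel (nat_lit 34628173968)) (.cons (.rel (nat_lit 17448329472)) .nil))) .nil)) .leaf) (nat_lit 22986562648414513) (.br (nat_lit 1) (.cons (.br (nat_lit 2) (.cons (.rel (nat_lit 83906820)) .nil)) .nil)) .leaf) (nat_lit 22986562648415515) (.br (nat_lit 1) (.cons (.br (nat_lit 2) (.cons (.rel (nat_lit 83906820)) .nil)) .nil)) (.node (.node .leaf (nat_lit 22986562648415614) (.br (nat_lit 1) (.cons (.br (nat_lit 2) (.cons (.rel (nat_lit 83906820)) .nil)) .nil)) .leaf) (nat_lit 22986562648473776) (.br (nat_lit 0) (.cons (.br (nat_lit 1) (.cons (.rel (nat_lit 21233796)) .nil)) .nil)) .leaf))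 (nat_lit 22986562648475006) (.br (nat_lit 2) (.cons (.br (nat_lit 1) (.cons (.rel (nat_lit 83886480)) (.cons (.rel (nat_lit 83906820)) (.cons (.rel (nat_lit 83919105)) .nil)))) .nil)) (.node (.node (.node .leaf (nat_lit 22986562648526112) (.br (nat_lit 0) (.cons (.br (nat_lit 5) (.cons (.rel (nat_lit 4304670720)) .nil)) .nil)) .leaf) (nat_lit 22986562648670234) (.br (nat_lit 0) (.cons (.br (nat_lit 2) (.cons (.rel (nat_lit 71565321)) (.cons (.rel (nat_lit 71565321)) .nil))) (.cons (.br (nat_lit 1) (.cons (.rel (nat_lit 23134212)) (.cons (.rel (nat_lit 23134212)) .nil))) .nil))) .leaf) (nat_lit 22986562648670365) (.br (nat_lit 0) (.cons (.br (nat_lit 1) (.cons (.rel (nat_lit 25170048)) (.cons (.rel (nat_lit 21303312)) .nil))) .nil)) (.node (.node .leaf (nat_lit 22986562648670493) (.br (nat_lit 2) (.cons (.br (nat_lit 4) (.cons (.rel (nat_lit 2281702404)) (.cons (.rel (nat_lit 1140884544)) .nil))) (.cons (.br (nat_lit 4) (.cons (.rel (nat_lit 1140867204)) (.cons (.rel (nat_lit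 1140852744)) .nil))) .nil))) .leaf) (nat_lit 22986562648670883) (.br (nat_lit 2) (.cons (.br (nat_lit 4) (.cons (.rel (nat_lit 1140850725)) .nil)) .nil)) .leaf))) (nat_lit 22986562648672256) (.br (nat_lit 0) (.cons (.br (nat_lit 2) (.cons (.rel (nat_lit 71602176)) (.cons (.br (nat_lit 5) (.cons (.rel (nat_lit 8594149440)) (.cons (.rel (nat_lit 4303425600)) (.cons (.rel (nat_lit 4299165954)) (.cons (.rel (nat_lit 4362096897)) .nil))))) (.cons (.rel (nat_lit 71602176)) (.cons (.rel (nat_lit 71311632)) .nil))))) (.cons (.br (nat_lit 2) (.cons (.rel (nat_lit 71311632)) (.cons (.rel (nat_lit 71602176)) (.cons (.rel (nat_lit 71311632)) (.cons (.rel (nat_lit 75567240)) .nil))))) .nil))) (.node (.node (.node (.node .leaf (nat_lit 22986562648672282) (.br (nat_lit 2) (.cons (.br (nat_lit 0) (.cons (.rel (nat_lit 71602176)) (.cons (.rel (nat_lit 75497568)) (.cons (.rel (nat_lit 71565321)) (.cons (.rel (nat_lit 71337216)) (.cons (.rel (nat_lit 71337216)) .nil)))))) .nil)) .leaf) (nat_lit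 22986562648672307) (.br (nat_lit 0) (.cons (.br (nat_lit 3) (.cons (.rel (nat_lit 272631057)) (.cons (.rel (nat_lit 274726917)) .nil))) (.cons (.br (nat_lit 3) (.cons (.rel (nat_lit 272891976)) (.cons (.rel (nat_lit 541130772)) .nil))) .nil))) .leaf) (nat_lit 22986562648672308) (.br (nat_lit 2) (.cons (.br (nat_lit 3) (.cons (.rel (nat_lit 335544660)) (.cons (.rel (nat_lit 402653250)) .nil))) .nil)) (.node (.node .leaf (nat_lit 22986562648672407) (.br (nat_lit 3) (.cons (.br (nat_lit 5) (.cons (.rel (nat_lit 8858374224)) .nil)) .nil)) .leaf) (nat_lit 22986562648672413) (.br (nat_lit 3) (.cons (.br (nat_lit 2) (.cons (.rel (nat_lit 603979905)) (.cons (.rel (nat_lit 335544660)) (.cons (.rel (nat_lit 335810625)) .nil)))) .nil)) .leaf)) (nat_lit 22986562648672437) (.br (nat_lit 0) (.cons (.br (nat_lit 1) (.cons (.rel (nat_lit 20988162)) (.cons (.rel (nat_lit 21251136)) .nil))) (.cons (.br (nat_lit 1) (.cons (.rel (nat_lit 21251136)) (.cons (.rel (nat_lit 21233796)) .nil))) .nil)))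 (.node (.node (.node .leaf (nat_lit 22986562648672518) (.br (nat_lit 3) (.cons (.br (nat_lit 4) (.cons (.rel (nat_lit 1342181385)) .nil)) .nil)) .leaf) (nat_lit 22986562648672541) (.br (nat_lit 3) (.cons (.br (nat_lit 6) (.cons (.rel (nat_lit 34628194308)) (.cons (.rel (nat_lit 17448329472)) .nil))) .nil)) .leaf) (nat_lit 22986562648672543) (.br (nat_lit 0) (.cons (.br (nat_lit 1) (.cons (.rel (nat_lit 20988162)) .nil)) .nil)) (.node .leaf (nat_lit 22986562648672886) (.br (nat_lit 0) (.cons (.br (nat_lit 3) (.cons (.rel (nat_lit 272896017)) (.cons (.rel (nat_lit 276828228)) .nil))) (.cons (.br (nat_lit 3) (.cons (.rel (nat_lit 272891976)) (.cons (.rel (nat_lit 272891976)) .nil))) .nil))) .leaf))))) (nat_lit 22986562648673032) (.br (nat_lit 2) (.cons (.br (nat_lit 1) (.cons (.rel (nat_lit 152305665)) (.cons (.rel (nat_lit 152305665)) (.cons (.rel (nat_lit 167776773)) .nil)))) (.cons (.br (nat_lit 1) (.cons (.rel (nat_lit 83919105)) (.cons (.rel (nat_lit 83919105)) (.cons (.rel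 (nat_lit 84148260)) .nil)))) .nil))) (.node (.node (.node (.node (.node (.node .leaf (nat_lit 22986562648673131) (.br (nat_lit 3) (.cons (.br (nat_lit 5) (.cons (.rel (nat_lit 4563403032)) (.cons (.rel (nat_lit 4563668997)) .nil))) (.cons (.br (nat_lit 5) (.cons (.rel (nat_lit 9127855104)) (.cons (.rel (nat_lit 8859680769)) .nil))) .nil))) .leaf) (nat_lit 22986562648673517) (.br (nat_lit 0) (.cons (.br (nat_lit 3) (.cons (.rel (nat_lit 272891976)) .nil)) .nil)) .leaf) (nat_lit 22986562648673568) (.br (nat_lit 0) (.cons (.br (nat_lit 2) (.cons (.rel (nat_lit 71311632)) (.cons (.br (nat_lit 3) (.cons (.rel (nat_lit 272699712)) (.cons (.rel (nat_lit 276840513)) (.cons (.rel (nat_lit 335876100)) .nil)))) .nil))) (.cons (.br (nat_lit 2) (.cons (.rel (nat_lit 71337216)) (.cons (.rel (nat_lit 71565321)) .nil))) .nil))) (.node (.node .leaf (nat_lit 22986562648673631) (.br (nat_lit 5) (.cons (.br (nat_lit 0) (.cons (.rel (nat_lit 4299165954)) (.cons (.rel (nat_lit 4299165954)) (.cons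 (.rel (nat_lit 4301262864)) .nil)))) (.cons (.br (nat_lit 2) (.cons (.rel (nat_lit 4362142032)) (.cons (.rel (nat_lit 8724153936)) (.cons (.rel (nat_lit 4362084612)) .nil)))) .nil))) .leaf) (nat_lit 22986562648673692) (.br (nat_lit 2) (.cons (.br (nat_lit 3) (.cons (.rel (nat_lit 671351040)) .nil)) .nil)) .leaf)) (nat_lit 22986562648673791) (.br (nat_lit 0) (.cons (.br (nat_lit 2) (.cons (.rel (nat_lit 138432516)) .nil)) .nil)) (.node (.node (.node .leaf (nat_lit 22986562648772608) (.br (nat_lit 0) (.cons (.br (nat_lit 2) (.cons (.rel (nat_lit 71311632)) (.cons (.rel (nat_lit 138432516)) (.cons (.rel (nat_lit 71311632)) (.cons (.rel (nat_lit 143720448)) .nil))))) (.cons (.br (nat_lit 2) (.cons (.rel (nat_lit 71337216)) (.cons (.rel (nat_lit 71630976)) (.cons (.rel (nat_lit 71565321)) (.cons (.rel (nat_lit 71630976)) .nil))))) (.cons (.br (nat_lit 2) (.cons (.rel (nat_lit 71567376)) (.cons (.rel (nat_lit 71311632)) (.cons (.rel (nat_lit 71311632)) (.cons (.rel (nat_lit 71311632))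 .nil))))) .nil)))) .leaf) (nat_lit 22986562648772634) (.br (nat_lit 0) (.cons (.br (nat_lit 3) (.cons (.rel (nat_lit 541065297)) (.cons (.rel (nat_lit 272631057)) (.cons (.rel (nat_lit 274726917)) (.cons (.rel (nat_lit 272631057)) (.cons (.rel (nat_lit 541130772)) .nil)))))) (.cons (.br (nat_lit 2) (.cons (.rel (nat_lit 72876096)) (.cons (.rel (nat_lit 71311632)) .nil))) .nil))) .leaf) (nat_lit 22986562648772660) (.br (nat_lit 3) (.cons (.br (nat_lit 0) (.cons (.rel (nat_lit 547684356)) (.cons (.rel (nat_lit 274726917)) (.cons (.rel (nat_lit 272630052)) .nil)))) .nil)) (.node (.node .leaf (nat_lit 22986562648772739) (.br (nat_lit 5) (.cons (.br (nat_lit 6) (.cons (.rel (nat_lit 21474836808)) (.cons (.rel (nat_lit 38654713920)) .nil))) (.cons (.br (nat_lit 6) (.cons (.rel (nat_lit 21475119108)) (.cons (.rel (nat_lit 25769808000)) .nil))) .nil))) .leaf) (nat_lit 22986562648772893) (.br (nat_lit 0) (.cons (.br (nat_lit 3) (.cons (.rel (nat_lit 274726917)) (.cons (.rel (nat_lit 272699712))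 .nil))) .nil)) .leaf))) (nat_lit 22986562648773283) (.br (nat_lit 0) (.cons (.br (nat_lit 3) (.cons (.rel (nat_lit 272699712)) .nil)) .nil)) (.node (.node (.node (.node .leaf (nat_lit 22986562648773285) (.br (nat_lit 0) (.cons (.br (nat_lit 5) (.cons (.rel (nat_lit 4300734468)) (.cons (.rel (nat_lit 4303425600)) .nil))) (.cons (.br (nat_lit 2) (.cons (.rel (nat_lit 71567376)) (.cons (.rel (nat_lit 75513858)) .nil))) .nil))) .leaf) (nat_lit 22986562649436287) (.br (nat_lit 0) (.cons (.br (nat_lit 2) (.cons (.rel (nat_lit 71567376)) .nil)) .nil)) .leaf) (nat_lit 22986562649436435) (.br (nat_lit 0) (.cons (.br (nat_lit 4) (.cons (.rel (nat_lit 2151678336)) .nil)) .nil)) (.node (.node .leaf (nat_lit 22986562649437596) (.br (nat_lit 0) (.cons (.br (nat_lit 3) (.cons (.rel (nat_lit 272631057)) .nil)) .nil)) .leaf) (nat_lit 22986562649437710) (.br (nat_lit 1) (.cons (.br (nat_lit 2) (.cons (.rel (nat_lit 83886480)) .nil)) .nil)) .leaf)) (nat_lit 22986562649440518) (.br (nat_lit 2) (.cons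 (.br (nat_lit 1) (.cons (.rel (nat_lit 83919105)) (.cons (.rel (nat_lit 83906820)) .nil))) .nil)) (.node (.node (.node .leaf (nat_lit 22986562649440918) (.br (nat_lit 1) (.cons (.br (nat_lit 2) (.cons (.rel (nat_lit 84149265)) .nil)) .nil)) .leaf) (nat_lit 22986562649441563) (.br (nat_lit 1) (.cons (.br (nat_lit 2) (.cons (.rel (nat_lit 85198080)) (.cons (.rel (nat_lit 84149265)) .nil))) (.cons (.br (nat_lit 2) (.cons (.rel (nat_lit 84148260)) (.cons (.rel (nat_lit 83886480)) .nil))) .nil))) .leaf) (nat_lit 22986562649441693) (.br (nat_lit 0) (.cons (.br (nat_lit 6) (.cons (.rel (nat_lit 17184395268)) .nil)) .nil)) (.node .leaf (nat_lit 22986562649441782) (.br (nat_lit 2) (.cons (.br (nat_lit 3) (.cons (.rel (nat_lit 672141408)) .nil)) .nil)) .leaf)))) (nat_lit 22986562649441808) (.br (nat_lit 1) (.cons (.br (nat_lit 2) (.cons (.rel (nat_lit 84148260)) (.cons (.rel (nat_lit 83886480)) .nil))) (.cons (.br (nat_lit 4) (.cons (.rel (nat_lit 2164523010)) (.cons (.rel (nat_lit 1107820545))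 (.cons (.rel (nat_lit 2164523010)) (.cons (.rel (nat_lit 1107820545)) .nil))))) .nil))) (.node (.node (.node (.node (.node .leaf (nat_lit 22986562649479168) (.br (nat_lit 2) (.cons (.br (nat_lit 0) (.cons (.rel (nat_lit 143720448)) (.cons (.rel (nat_lit 71337216)) .nil))) .nil)) .leaf) (nat_lit 22986562649499910) (.br (nat_lit 5) (.cons (.br (nat_lit 4) (.cons (.rel (nat_lit 5368971777)) (.cons (.rel (nat_lit 5368742916)) (.cons (.rel (nat_lit 5368711296)) .nil)))) (.cons (.br (nat_lit 4) (.cons (.rel (nat_lit 5369778432)) (.cons (.rel (nat_lit 5370019872)) (.cons (.rel (nat_lit 5368725576)) .nil)))) .nil))) .leaf) (nat_lit 22986562649499933) (.br (nat_lit 5) (.cons (.br (nat_lit 2) (.cons (.rel (nat_lit 4362096897)) (.cons (.rel (nat_lit 4362340356)) .nil))) .nil)) (.node (.node .leaf (nat_lit 22986562649501085) (.br (nat_lit 1) (.cons (.br (nat_lit 2) (.cons (.rel (nat_lit 84148260)) .nil)) .nil)) .leaf) (nat_lit 22986562649501209) (.br (nat_lit 1) (.cons (.br (nat_lit 4) (.cons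 (.rel (nat_lit 1090523205)) .nil)) .nil)) .leaf)) (nat_lit 22986562649694208) (.br (nat_lit 2) (.cons (.br (nat_lit 6) (.cons (.rel (nat_lit 17249083392)) .nil)) .nil)) (.node (.node (.node .leaf (nat_lit 22986562649694843) (.br (nat_lit 0) (.cons (.br (nat_lit 2) (.cons (.rel (nat_lit 71319876)) .nil)) .nil)) .leaf) (nat_lit 22986562649743412) (.br (nat_lit 2) (.cons (.br (nat_lit 3) (.cons (.rel (nat_lit 335544660)) .nil)) .nil)) .leaf) (nat_lit 22986562649743491) (.br (nat_lit 3) (.cons (.br (nat_lit 1) (.cons (.rel (nat_lit 285245760)) (.cons (.rel (nat_lit 285475920)) .nil))) .nil)) (.node .leaf (nat_lit 22986562649745693) (.br (nat_lit 0) (.cons (.br (nat_lit 2) (.cons (.rel (nat_lit 71311632)) (.cons (.rel (nat_lit 139723776)) (.cons (.rel (nat_lit 71602176)) (.cons (.rel (nat_lit 71567376)) .nil))))) .nil)) .leaf))) (nat_lit 22986562649746810) (.br (nat_lit 3) (.cons (.br (nat_lit 4) (.cons (.rel (nat_lit 1342701840)) .nil)) .nil)) (.node (.node (.node (.node .leaf (nat_lit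 22986562649796634) (.br (nat_lit 5) (.cons (.br (nat_lit 6) (.cons (.rel (nat_lit 21474840849)) (.cons (.rel (nat_lit 25769804820)) .nil))) .nil)) .leaf) (nat_lit 22986562649796893) (.br (nat_lit 5) (.cons (.br (nat_lit 6) (.cons (.rel (nat_lit 21474840849)) (.cons (.rel (nat_lit 21474854148)) .nil))) (.cons (.br (nat_lit 6) (.cons (.rel (nat_lit 42949955904)) (.cons (.rel (nat_lit 21475098768)) .nil))) .nil))) .leaf) (nat_lit 22986562649797240) (.br (nat_lit 0) (.cons (.br (nat_lit 4) (.cons (.rel (nat_lit 1083183108)) .nil)) .nil)) (.node (.node .leaf (nat_lit 22986562649797284) (.br (nat_lit 0) (.cons (.br (nat_lit 1) (.cons (.rel (nat_lit 20975877)) .nil)) .nil)) .leaf) (nat_lit 22986562649797414) (.br (nat_lit 2) (.cons (.br (nat_lit 4) (.cons (.rel (nat_lit 1141899540)) .nil)) .nil)) .leaf)) (nat_lit 22986562649942143) (.br (nat_lit 1) (.cons (.br (nat_lit 2) (.cons (.rel (nat_lit 83906820)) .nil)) .nil)) (.node (.node (.node .leaf (nat_lit 22986562649943452) (.br (nat_lit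 1) (.cons (.br (nat_lit 2) (.cons (.rel (nat_lit 84217920)) .nil)) .nil)) .leaf) (nat_lit 22986562650011648) (.br (nat_lit 6) (.cons (.br (nat_lit 2) (.cons (.rel (nat_lit 17246978436)) (.cons (.rel (nat_lit 17314091076)) (.cons (.rel (nat_lit 17314119696)) .nil)))) (.cons (.br (nat_lit 2) (.cons (.rel (nat_lit 17246995776)) (.cons (.rel (nat_lit 34495008768)) (.cons (.rel (nat_lit 34495008768)) .nil)))) .nil))) .leaf) (nat_lit 22986562650013050) (.br (nat_lit 0) (.cons (.br (nat_lit 4) (.cons (.rel (nat_lit 1078477056)) (.cons (.rel (nat_lit 1077944352)) .nil))) .nil)) (.node .leaf (nat_lit 22986562650042368) (.br (nat_lit 0) (.cons (.br (nat_lit 2) (.cons (.rel (nat_lit 71311632)) (.cons (.rel (nat_lit 71337216)) .nil))) .nil)) .leaf)))))) (nat_lit 22986562650043294) (.br (nat_lit 0) (.cons (.br (nat_lit 3) (.cons (.rel (nat_lit 274726917)) .nil)) .nil)) (.node (.node (.node (.node (.node (.node (.node .leaf (nat_lit 22986562650043920) (.br (nat_lit 1) (.cons (.br (nat_lit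 2) (.cons (.rel (nat_lit 150999120)) .nil)) .nil)) .leaf) (nat_lit 22986562650062874) (.br (nat_lit 3) (.cons (.br (nat_lit 0) (.cons (.rel (nat_lit 272699712)) (.cons (.rel (nat_lit 272891976)) .nil))) .nil)) .leaf) (nat_lit 22986562650062910) (.br (nat_lit 1) (.cons (.br (nat_lit 5) (.cons (.rel (nat_lit 4312269312)) (.cons (.rel (nat_lit 4311745857)) .nil))) .nil)) (.node (.node .leaf (nat_lit 22986562650063133) (.br (nat_lit 6) (.cons (.br (nat_lit 0) (.cons (.rel (nat_lit 17184064833)) (.cons (.rel (nat_lit 17184064833)) (.cons (.rel (nat_lit 34364067840)) .nil)))) (.cons (.br (nat_lit 0) (.cons (.rel (nat_lit 34364981520)) (.cons (.rel (nat_lit 34368389376)) (.cons (.rel (nat_lit 17184588288)) .nil)))) .nil))) .leaf) (nat_lit 22986562650063478) (.br (nat_lit 0) (.cons (.br (nat_lit 2) (.cons (.rel (nat_lit 71337216)) (.cons (.rel (nat_lit 143720448)) (.cons (.rel (nat_lit 71319876)) .nil)))) (.cons (.br (nat_lit 2) (.cons (.rel (nat_lit 71311632)) (.cons (.rel (nat_lit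 75501573)) (.cons (.br (nat_lit 3) (.cons (.rel (nat_lit 335847492)) (.cons (.rel (nat_lit 272699712)) (.cons (.rel (nat_lit 276828228)) (.cons (.rel (nat_lit 272699712)) (.cons (.rel (nat_lit 336069120)) (.cons (.rel (nat_lit 335810625)) (.cons (.rel (nat_lit 340787457)) .nil)))))))) .nil)))) .nil))) .leaf)) (nat_lit 22986562650063524) (.br (nat_lit 2) (.cons (.br (nat_lit 1) (.cons (.rel (nat_lit 84149265)) (.cons (.rel (nat_lit 84148260)) .nil))) .nil)) (.node (.node (.node .leaf (nat_lit 22986562650064160) (.br (nat_lit 2) (.cons (.br (nat_lit 0) (.cons (.rel (nat_lit 72876096)) (.cons (.rel (nat_lit 71602176)) .nil))) .nil)) .leaf) (nat_lit 22986562650064405) (.br (nat_lit 0) (.cons (.br (nat_lit 1) (.cons (.rel (nat_lit 20975877)) .nil)) .nil)) .leaf) (nat_lit 22986562650716160) (.br (nat_lit 4) (.cons (.br (nat_lit 0) (.cons (.rel (nat_lit 1079246856)) (.cons (.rel (nat_lit 2155876368)) .nil))) .nil)) (.node (.node .leaf (nat_lit 22986562650716336) (.br (nat_lit 2) (.cons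 (.br (nat_lit 3) (.cons (.rel (nat_lit 335544660)) .nil)) .nil)) .leaf) (nat_lit 22986562650716945) (.br (nat_lit 0) (.cons (.br (nat_lit 4) (.cons (.rel (nat_lit 1078001736)) .nil)) .nil)) .leaf))) (nat_lit 22986562650761993) (.br (nat_lit 1) (.cons (.br (nat_lit 5) (.cons (.rel (nat_lit 4328521737)) .nil)) .nil)) (.node (.node (.node (.node .leaf (nat_lit 22986562650769565) (.br (nat_lit 1) (.cons (.br (nat_lit 6) (.cons (.rel (nat_lit 34376536128)) (.cons (.rel (nat_lit 34376516613)) (.cons (.rel (nat_lit 34376516613)) .nil)))) .nil)) .leaf) (nat_lit 22986562650769693) (.br (nat_lit 2) (.cons (.br (nat_lit 6) (.cons (.rel (nat_lit 17246978436)) (.cons (.rel (nat_lit 17246995776)) (.cons (.rel (nat_lit 17246978436)) .nil)))) (.cons (.br (nat_lit 6) (.cons (.br (nat_lit 5) (.cons (.rel (nat_lit 38654713920)) (.cons (.rel (nat_lit 38654713920)) (.cons (.rel (nat_lit 21610102848)) .nil)))) (.cons (.rel (nat_lit 17247241221)) (.cons (.rel (nat_lit 17249083392)) .nil)))) .nil)))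 .leaf) (nat_lit 22986562650770038) (.br (nat_lit 3) (.cons (.br (nat_lit 4) (.cons (.rel (nat_lit 2684375040)) (.cons (.rel (nat_lit 1342181385)) .nil))) .nil)) (.node (.node .leaf (nat_lit 22986562650770064) (.br (nat_lit 2) (.cons (.br (nat_lit 6) (.cons (.rel (nat_lit 17314091076)) .nil)) .nil)) .leaf) (nat_lit 22986562650770334) (.br (nat_lit 2) (.cons (.br (nat_lit 3) (.cons (.rel (nat_lit 336069120)) .nil)) .nil)) .leaf)) (nat_lit 22986562650820634) (.br (nat_lit 0) (.cons (.br (nat_lit 5) (.cons (.rel (nat_lit 4299178248)) .nil)) .nil)) (.node (.node (.node .leaf (nat_lit 22986562650821238) (.br (nat_lit 2) (.cons (.br (nat_lit 4) (.cons (.rel (nat_lit 1140851730)) (.cons (.rel (nat_lit 2214872064)) .nil))) .nil)) .leaf) (nat_lit 22986562650821285) (.br (nat_lit 0) (.cons (.br (nat_lit 2) (.cons (.rel (nat_lit 71337216)) .nil)) .nil)) .leaf) (nat_lit 22986562650821385) (.br (nat_lit 2) (.cons (.br (nat_lit 4) (.cons (.rel (nat_lit 1142165505)) .nil)) .nil)) (.node .leaf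 (nat_lit 22986562650821483) (.br (nat_lit 2) (.cons (.br (nat_lit 0) (.cons (.rel (nat_lit 71311632)) (.cons (.rel (nat_lit 71337216)) .nil))) .nil)) .leaf)))) (nat_lit 22986562650962096) (.br (nat_lit 0) (.cons (.br (nat_lit 1) (.cons (.rel (nat_lit 23068737)) .nil)) .nil)) (.node (.node (.node (.node (.node .leaf (nat_lit 22986562650962550) (.br (nat_lit 2) (.cons (.br (nat_lit 5) (.cons (.rel (nat_lit 4362096897)) (.cons (.rel (nat_lit 4362084612)) .nil))) .nil)) .leaf) (nat_lit 22986562650962596) (.br (nat_lit 4) (.cons (.br (nat_lit 0) (.cons (.rel (nat_lit 1077944352)) (.cons (.rel (nat_lit 1077936261)) .nil))) .nil)) .leaf) (nat_lit 22986562650962726) (.br (nat_lit 1) (.cons (.br (nat_lit 2) (.cons (.rel (nat_lit 83919105)) .nil)) .nil)) (.node (.node .leaf (nat_lit 22986562650963326) (.br (nat_lit 0) (.cons (.br (nat_lit 1) (.cons (.rel (nat_lit 37756992)) (.cons (.rel (nat_lit 37748757)) .nil))) .nil)) .leaf) (nat_lit 22986562650984448) (.br (nat_lit 2) (.cons (.br (nat_lit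 3) (.cons (.rel (nat_lit 402653250)) (.cons (.rel (nat_lit 335810625)) .nil))) .nil)) .leaf)) (nat_lit 22986562650985374) (.br (nat_lit 3) (.cons (.br (nat_lit 4) (.cons (.rel (nat_lit 2416312320)) .nil)) .nil)) (.node (.node (.node .leaf (nat_lit 22986562651023645) (.br (nat_lit 5) (.cons (.br (nat_lit 6) (.cons (.rel (nat_lit 21474854148)) (.cons (.rel (nat_lit 21475098768)) .nil))) .nil)) .leaf) (nat_lit 22986562651024235) (.br (nat_lit 1) (.cons (.br (nat_lit 3) (.cons (.rel (nat_lit 285212946)) (.cons (.rel (nat_lit 285213960)) .nil))) (.cons (.br (nat_lit 3) (.cons (.rel (nat_lit 285213960)) (.cons (.rel (nat_lit 287309856)) .nil))) .nil))) .leaf) (nat_lit 22986562651024267) (.br (nat_lit 2) (.cons (.br (nat_lit 5) (.cons (.rel (nat_lit 4364177472)) (.cons (.rel (nat_lit 4362084612)) .nil))) (.cons (.br (nat_lit 5) (.cons (.rel (nat_lit 4429202496)) (.cons (.rel (nat_lit 4362340356)) .nil))) .nil))) (.node .leaf (nat_lit 22986562651024735) (.br (nat_lit 0) (.cons (.br (nat_lit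 1) (.cons (.rel (nat_lit 20988162)) .nil)) .nil)) .leaf))) (nat_lit 22986562651024796) (.br (nat_lit 5) (.cons (.br (nat_lit 2) (.cons (.rel (nat_lit 4362142032)) (.cons (.rel (nat_lit 4363387152)) (.cons (.rel (nat_lit 4362340356)) .nil)))) .nil)) (.node (.node (.node (.node .leaf (nat_lit 22986562651024921) (.br (nat_lit 2) (.cons (.br (nat_lit 3) (.cons (.rel (nat_lit 335545665)) .nil)) .nil)) .leaf) (nat_lit 22986562651037722) (.br (nat_lit 6) (.cons (.br (nat_lit 3) (.cons (.rel (nat_lit 34628206593)) (.cons (.rel (nat_lit 17716756482)) (.cons (.rel (nat_lit 17448305952)) (.cons (.rel (nat_lit 17450402817)) .nil))))) .nil)) .leaf) (nat_lit 22986562651037748) (.br (nat_lit 3) (.cons (.br (nat_lit 6) (.cons (.rel (nat_lit 17448304902)) (.cons (.rel (nat_lit 17448304902)) .nil))) .nil)) (.node (.node .leaf (nat_lit 22986562651038326) (.br (nat_lit 0) (.cons (.br (nat_lit 3) (.cons (.rel (nat_lit 272896017)) .nil)) .nil)) .leaf) (nat_lit 22986562651039082) (.br (nat_lit 1) (.cons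 (.br (nat_lit 2) (.cons (.rel (nat_lit 84217920)) (.cons (.rel (nat_lit 83886480)) .nil))) (.cons (.br (nat_lit 2) (.cons (.rel (nat_lit 83886480)) (.cons (.rel (nat_lit 85999680)) .nil))) .nil))) .leaf)) (nat_lit 22986562651087478) (.br (nat_lit 1) (.cons (.br (nat_lit 0) (.cons (.rel (nat_lit 21251136)) (.cons (.rel (nat_lit 20971872)) (.cons (.rel (nat_lit 21251136)) (.cons (.rel (nat_lit 20971872)) (.cons (.rel (nat_lit 20988162)) (.cons (.rel (nat_lit 20988162)) .nil))))))) (.cons (.br (nat_lit 0) (.cons (.rel (nat_lit 21233796)) (.cons (.rel (nat_lit 20971872)) (.cons (.rel (nat_lit 21233796)) (.cons (.rel (nat_lit 21233796)) (.cons (.rel (nat_lit 20988162)) (.cons (.rel (nat_lit 21251136)) .nil))))))) (.cons (.br (nat_lit 3) (.cons (.rel (nat_lit 285213960)) (.cons (.rel (nat_lit 285286656)) (.cons (.rel (nat_lit 285212946)) (.cons (.br (nat_lit 4) (.cons (.rel (nat_lit 2684375040)) (.cons (.rel (nat_lit 1090781700)) (.cons (.rel (nat_lit 1107820545)) (.cons (.rel (nat_lit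 1090519200)) (.cons (.br (nat_lit 5) (.cons (.rel (nat_lit 8606711814)) (.cons (.rel (nat_lit 5368711296)) (.cons (.rel (nat_lit 4312269312)) (.cons (.rel (nat_lit 8623751424)) (.cons (.rel (nat_lit 8606712864)) (.cons (.rel (nat_lit 8606711814)) (.cons (.rel (nat_lit 10737419328)) .nil)))))))) (.cons (.rel (nat_lit 2164265280)) .nil))))))) (.cons (.rel (nat_lit 285213960)) (.cons (.rel (nat_lit 285245760)) .nil))))))) .nil)))) (.node (.node (.node .leaf (nat_lit 22986562651087510) (.br (nat_lit 1) (.cons (.br (nat_lit 2) (.cons (.rel (nat_lit 83919105)) .nil)) .nil)) .leaf) (nat_lit 22986562651088109) (.br (nat_lit 0) (.cons (.br (nat_lit 1) (.cons (.rel (nat_lit 37749762)) (.cons (.rel (nat_lit 20975877)) .nil))) (.cons (.br (nat_lit 1) (.cons (.rel (nat_lit 21251136)) (.cons (.rel (nat_lit 20975877)) .nil))) .nil))) .leaf) (nat_lit 22986562651088228) (.br (nat_lit 1) (.cons (.br (nat_lit 3) (.cons (.rel (nat_lit 285213960)) .nil)) .nil)) (.node .leaf (nat_lit 22986562651088250)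 (.br (nat_lit 3) (.cons (.br (nat_lit 1) (.cons (.rel (nat_lit 285212946)) (.cons (.rel (nat_lit 285213960)) .nil))) .nil)) .leaf))))) (nat_lit 22986562651222068) (.br (nat_lit 3) (.cons (.br (nat_lit 2) (.cons (.rel (nat_lit 335544660)) (.cons (.rel (nat_lit 335544660)) .nil))) .nil)) (.node (.node (.node (.node (.node (.node .leaf (nat_lit 22986562651222147) (.br (nat_lit 0) (.cons (.br (nat_lit 4) (.cons (.rel (nat_lit 1077944352)) (.cons (.rel (nat_lit 2156925186)) .nil))) (.cons (.br (nat_lit 4) (.cons (.rel (nat_lit 1082131008)) (.cons (.rel (nat_lit 1083195393)) .nil))) .nil))) .leaf) (nat_lit 22986562651223418) (.br (nat_lit 0) (.cons (.br (nat_lit 4) (.cons (.rel (nat_lit 1077944352)) .nil)) .nil)) .leaf) (nat_lit 22986562651232933) (.br (nat_lit 0) (.cons (.br (nat_lit 1) (.cons (.rel (nat_lit 21233796)) .nil)) .nil)) (.node (.node .leaf (nat_lit 22986562651233032) (.br (nat_lit 1) (.cons (.br (nat_lit 2) (.cons (.rel (nat_lit 83886480)) .nil)) .nil)) .leaf) (nat_lit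 22986562651233193) (.br (nat_lit 1) (.cons (.br (nat_lit 0) (.cons (.rel (nat_lit 37749762)) (.cons (.rel (nat_lit 20975877)) .nil))) .nil)) .leaf)) (nat_lit 22986562651233642) (.br (nat_lit 1) (.cons (.br (nat_lit 2) (.cons (.rel (nat_lit 83886480)) .nil)) .nil)) (.node (.node (.node .leaf (nat_lit 22986562651239176) (.br (nat_lit 2) (.cons (.br (nat_lit 4) (.cons (.rel (nat_lit 2214872064)) .nil)) .nil)) .leaf) (nat_lit 22986562651239706) (.br (nat_lit 0) (.cons (.br (nat_lit 3) (.cons (.rel (nat_lit 272631057)) .nil)) .nil)) .leaf) (nat_lit 22986562651269146) (.br (nat_lit 0) (.cons (.br (nat_lit 2) (.cons (.rel (nat_lit 71565321)) (.cons (.rel (nat_lit 71311632)) (.cons (.rel (nat_lit 73531392)) (.cons (.rel (nat_lit 143720448)) .nil))))) (.cons (.br (nat_lit 1) (.cons (.rel (nat_lit 37756992)) (.cons (.rel (nat_lit 25170048)) (.cons (.rel (nat_lit 23068737)) (.cons (.br (nat_lit 2) (.cons (.rel (nat_lit 75501573)) (.cons (.rel (nat_lit 71337216)) (.cons (.rel (nat_lit 71311632))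 (.cons (.br (nat_lit 3) (.cons (.rel (nat_lit 273679872)) (.cons (.rel (nat_lit 671351040)) (.cons (.rel (nat_lit 272630052)) (.cons (.rel (nat_lit 272699712)) .nil))))) .nil))))) .nil))))) (.cons (.br (nat_lit 2) (.cons (.rel (nat_lit 71602176)) (.cons (.rel (nat_lit 71565321)) (.cons (.rel (nat_lit 75513858)) (.cons (.rel (nat_lit 71565321)) .nil))))) .nil)))) (.node (.node .leaf (nat_lit 22986562651269171) (.br (nat_lit 1) (.cons (.br (nat_lit 4) (.cons (.rel (nat_lit 2181038160)) .nil)) .nil)) .leaf) (nat_lit 22986562651269405) (.br (nat_lit 6) (.cons (.br (nat_lit 1) (.cons (.rel (nat_lit 17196941316)) (.cons (.rel (nat_lit 17196909696)) (.cons (.rel (nat_lit 17213571072)) .nil)))) (.cons (.br (nat_lit 2) (.cons (.rel (nat_lit 17246978436)) (.cons (.rel (nat_lit 17247241221)) (.cons (.rel (nat_lit 34426847313)) .nil)))) .nil))) .leaf))) (nat_lit 22986562651270046) (.br (nat_lit 0) (.cons (.br (nat_lit 3) (.cons (.rel (nat_lit 272896017)) .nil)) .nil)) (.node (.node (.node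 (.node .leaf (nat_lit 22986562651270375) (.br (nat_lit 0) (.cons (.br (nat_lit 1) (.cons (.rel (nat_lit 20971872)) .nil)) .nil)) .leaf) (nat_lit 22986562651270381) (.br (nat_lit 4) (.cons (.br (nat_lit 0) (.cons (.rel (nat_lit 1078477056)) (.cons (.rel (nat_lit 1077953601)) .nil))) .nil)) .leaf) (nat_lit 22986562651270432) (.br (nat_lit 0) (.cons (.br (nat_lit 6) (.cons (.rel (nat_lit 17184063828)) (.cons (.rel (nat_lit 17186177028)) (.cons (.rel (nat_lit 17184588288)) .nil)))) .nil)) (.node (.node .leaf (nat_lit 22986562651284858) (.br (nat_lit 4) (.cons (.br (nat_lit 5) (.cons (.rel (nat_lit 5368725576)) .nil)) .nil)) .leaf) (nat_lit 22986562651289862) (.br (nat_lit 0) (.cons (.br (nat_lit 1) (.cons (.rel (nat_lit 21233796)) .nil)) .nil)) .leaf)) (nat_lit 22986562651290232) (.br (nat_lit 0) (.cons (.br (nat_lit 2) (.cons (.rel (nat_lit 71630976)) .nil)) .nil)) (.node (.node (.node .leaf (nat_lit 22986562651332893) (.br (nat_lit 0) (.cons (.br (nat_lit 3) (.cons (.rel (nat_lit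 272630052)) .nil)) .nil)) .leaf) (nat_lit 22986562651333915) (.br (nat_lit 0) (.cons (.br (nat_lit 2) (.cons (.rel (nat_lit 75513858)) .nil)) .nil)) .leaf) (nat_lit 22986562651343483) (.br (nat_lit 0) (.cons (.br (nat_lit 2) (.cons (.rel (nat_lit 71311632)) .nil)) .nil)) (.node .leaf (nat_lit 22986562651344103) (.br (nat_lit 1) (.cons (.br (nat_lit 2) (.cons (.rel (nat_lit 83906820)) .nil)) .nil)) .leaf)))) (nat_lit 22986564745359360) (.br (nat_lit 0) (.cons (.br (nat_lit 5) (.cons (.rel (nat_lit 4299163968)) .nil)) .nil)) (.node (.node (.node (.node (.node .leaf (nat_lit 22986564745824256) (.br (nat_lit 0) (.cons (.br (nat_lit 5) (.cons (.rel (nat_lit 4299165954)) .nil)) .nil)) .leaf) (nat_lit 22986564745825631) (.br (nat_lit 2) (.cons (.br (nat_lit 3) (.cons (.rel (nat_lit 336069120)) .nil)) .nil)) .leaf) (nat_lit 22986564746580253) (.br (nat_lit 0) (.cons (.br (nat_lit 1) (.cons (.rel (nat_lit 20988162)) .nil)) .nil)) (.node (.node .leaf (nat_lit 22986565584283953) (.br (nat_lit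 1) (.cons (.br (nat_lit 2) (.cons (.rel (nat_lit 84217920)) .nil)) .nil)) .leaf) (nat_lit 22986565585954818) (.br (nat_lit 1) (.cons (.br (nat_lit 2) (.cons (.rel (nat_lit 83952960)) .nil)) .nil)) .leaf)) (nat_lit 22986567391928372) (.br (nat_lit 0) (.cons (.br (nat_lit 1) (.cons (.rel (nat_lit 21233796)) .nil)) .nil)) (.node (.node (.node .leaf (nat_lit 22986567392028724) (.br (nat_lit 0) (.cons (.br (nat_lit 1) (.cons (.rel (nat_lit 25170048)) .nil)) .nil)) .leaf) (nat_lit 22986567392029304) (.br (nat_lit 0) (.cons (.br (nat_lit 2) (.cons (.rel (nat_lit 71373057)) .nil)) .nil)) .leaf) (nat_lit 22986567394579694) (.br (nat_lit 0) (.cons (.br (nat_lit 3) (.cons (.rel (nat_lit 272630052)) .nil)) .nil)) (.node .leaf (nat_lit 22986567665059866) (.br (nat_lit 0) (.cons (.br (nat_lit 3) (.cons (.rel (nat_lit 276828228)) .nil)) .nil)) .leaf))) (nat_lit 22986567665060470) (.br (nat_lit 0) (.cons (.br (nat_lit 1) (.cons (.rel (nat_lit 25170048)) .nil)) .nil)) (.node (.node (.node (.node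 .leaf (nat_lit 22986567665061152) (.br (nat_lit 3) (.cons (.br (nat_lit 2) (.cons (.rel (nat_lit 336069120)) (.cons (.rel (nat_lit 603979905)) .nil))) .nil)) .leaf) (nat_lit 22986567665160218) (.br (nat_lit 2) (.cons (.br (nat_lit 0) (.cons (.rel (nat_lit 71373057)) (.cons (.rel (nat_lit 71602176)) .nil))) .nil)) .leaf) (nat_lit 22986567665170432) (.br (nat_lit 0) (.cons (.br (nat_lit 1) (.cons (.rel (nat_lit 21251136)) .nil)) .nil)) (.node (.node .leaf (nat_lit 22986567666450458) (.br (nat_lit 0) (.cons (.br (nat_lit 2) (.cons (.rel (nat_lit 71311632)) .nil)) .nil)) .leaf) (nat_lit 22986567666451062) (.br (nat_lit 1) (.cons (.br (nat_lit 2) (.cons (.rel (nat_lit 84295680)) (.cons (.rel (nat_lit 151126020)) .nil))) .nil)) .leaf)) (nat_lit 22986567667157622) (.br (nat_lit 0) (.cons (.br (nat_lit 1) (.cons (.rel (nat_lit 21233796)) .nil)) .nil)) (.node (.node (.node .leaf (nat_lit 22986567667474458) (.br (nat_lit 0) (.cons (.br (nat_lit 1) (.cons (.rel (nat_lit 20988162)) .nil))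 .nil)) .leaf) (nat_lit 22986567667658016) (.br (nat_lit 0) (.cons (.br (nat_lit 2) (.cons (.br (nat_lit 3) (.cons (.rel (nat_lit 402653250)) .nil)) .nil)) .nil)) .leaf) (nat_lit 22986570692845620) (.br (nat_lit 0) (.cons (.br (nat_lit 1) (.cons (.rel (nat_lit 20975877)) .nil)) .nil)) (.node .leaf (nat_lit 22986570692946551) (.br (nat_lit 6) (.cons (.br (nat_lit 0) (.cons (.rel (nat_lit 34368389376)) (.cons (.rel (nat_lit 17184329793)) (.cons (.rel (nat_lit 17188258824)) .nil)))) .nil)) .leaf)))))))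

/-- refutations 53 -/
def e53 : EX := (.node (.node (.node (.node (.node (.node (.node .leaf (nat_lit 22987678794508288) (.br (nat_lit 1) (.cons (.br (nat_lit 2) (.cons (.rel (nat_lit 83952960)) .nil)) .nil)) .leaf) (nat_lit 22987678796035553) (.br (nat_lit 0) (.cons (.br (nat_lit 1) (.cons (.rel (nat_lit 41964036)) .nil)) .nil)) (.node .leaf (nat_lit 22987678797470358) (.br (nat_lit 1) (.cons (.br (nat_lit 2) (.cons (.rel (nat_lit 100663365)) .nil)) .nil)) .leaf)) (nat_lit 22987679885529088) (.br (nat_lit 0) (.cons (.br (nat_lit 1) (.cons (.rel (nat_lit 25166868)) .nil)) .nil)) (.node (.node .leaf (nat_lit 22987681433985024) (.br (nat_lit 0) (.cons (.br (nat_lit 1) (.cons (.rel (nat_lit 20975877)) .nil)) .nil)) .leaf) (nat_lit 22987681434251441) (.br (nat_lit 2) (.cons (.br (nat_lit 4) (.cons (.rel (nat_lit 1140852744)) .nil)) .nil)) .leaf)) (nat_lit 22987689833793568) (.br (nat_lit 2) (.cons (.br (nat_lit 5) (.cons (.rel (nat_lit 4362084612)) .nil)) .nil)) (.node (.node (.node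 .leaf (nat_lit 22987689834049798) (.br (nat_lit 0) (.cons (.br (nat_lit 3) (.cons (.rel (nat_lit 272896017)) (.cons (.rel (nat_lit 541065297)) .nil))) .nil)) .leaf) (nat_lit 22987689834050443) (.br (nat_lit 0) (.cons (.br (nat_lit 1) (.cons (.rel (nat_lit 21038352)) (.cons (.rel (nat_lit 20975877)) .nil))) .nil)) (.node .leaf (nat_lit 22987689834418982) (.br (nat_lit 1) (.cons (.br (nat_lit 4) (.cons (.rel (nat_lit 2181038160)) .nil)) .nil)) .leaf)) (nat_lit 22987689835085981) (.br (nat_lit 0) (.cons (.br (nat_lit 3) (.cons (.rel (nat_lit 273679872)) .nil)) .nil)) (.node (.node .leaf (nat_lit 22987689835442352) (.br (nat_lit 0) (.cons (.br (nat_lit 1) (.cons (.rel (nat_lit 23085072)) .nil)) .nil)) .leaf) (nat_lit 22987689835588491) (.br (nat_lit 0) (.cons (.br (nat_lit 2) (.cons (.rel (nat_lit 71567376)) .nil)) .nil)) .leaf))) (nat_lit 22987689835589136) (.br (nat_lit 1) (.cons (.br (nat_lit 2) (.cons (.rel (nat_lit 84295680)) .nil)) .nil)) (.node (.node (.node (.node .leaf (nat_lit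 22987689835708592) (.br (nat_lit 1) (.cons (.br (nat_lit 4) (.cons (.rel (nat_lit 1090519200)) .nil)) .nil)) .leaf) (nat_lit 22987689835709046) (.br (nat_lit 0) (.cons (.br (nat_lit 1) (.cons (.rel (nat_lit 21364737)) (.cons (.rel (nat_lit 23134212)) .nil))) .nil)) (.node .leaf (nat_lit 22987689835709953) (.br (nat_lit 0) (.cons (.br (nat_lit 1) (.cons (.rel (nat_lit 21233796)) (.cons (.rel (nat_lit 37756992)) .nil))) .nil)) .leaf)) (nat_lit 22987689836607664) (.br (nat_lit 2) (.cons (.br (nat_lit 4) (.cons (.br (nat_lit 1) (.cons (.rel (nat_lit 83886480)) (.cons (.rel (nat_lit 1090539540)) .nil))) .nil)) .nil)) (.node (.node .leaf (nat_lit 22987689836608118) (.br (nat_lit 1) (.cons (.br (nat_lit 4) (.cons (.rel (nat_lit 1090539540)) .nil)) .nil)) .leaf) (nat_lit 22987689926191389) (.br (nat_lit 3) (.cons (.br (nat_lit 6) (.cons (.rel (nat_lit 17448305952)) .nil)) .nil)) .leaf)) (nat_lit 22987689926324250) (.br (nat_lit 2) (.cons (.br (nat_lit 3) (.cons (.rel (nat_lit 603996240))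 (.cons (.rel (nat_lit 336069120)) .nil))) .nil)) (.node (.node (.node .leaf (nat_lit 22987689926324509) (.br (nat_lit 0) (.cons (.br (nat_lit 3) (.cons (.rel (nat_lit 272630052)) .nil)) .nil)) .leaf) (nat_lit 22987689926324854) (.br (nat_lit 0) (.cons (.br (nat_lit 2) (.cons (.rel (nat_lit 71311632)) .nil)) .nil)) .leaf) (nat_lit 22987689926590464) (.br (nat_lit 3) (.cons (.br (nat_lit 0) (.cons (.rel (nat_lit 541130772)) (.cons (.rel (nat_lit 274726917)) .nil))) .nil)) (.node (.node .leaf (nat_lit 22987689926591339) (.br (nat_lit 2) (.cons (.br (nat_lit 3) (.cons (.rel (nat_lit 402653250)) .nil)) .nil)) .leaf) (nat_lit 22987689926592797) (.br (nat_lit 3) (.cons (.br (nat_lit 6) (.cons (.rel (nat_lit 17448329472)) (.cons (.rel (nat_lit 17448304902)) (.cons (.rel (nat_lit 17448436032)) .nil)))) .nil)) .leaf)))) (nat_lit 22987689926693021) (.br (nat_lit 0) (.cons (.br (nat_lit 6) (.cons (.rel (nat_lit 34363932705)) (.cons (.rel (nat_lit 17184153876)) .nil))) .nil)) (.node (.node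 (.node (.node (.node .leaf (nat_lit 22987689927663878) (.br (nat_lit 2) (.cons (.br (nat_lit 6) (.cons (.rel (nat_lit 17314119696)) .nil)) .nil)) .leaf) (nat_lit 22987689927716864) (.br (nat_lit 4) (.cons (.br (nat_lit 6) (.cons (.rel (nat_lit 18254135616)) .nil)) .nil)) (.node .leaf (nat_lit 22987689927931955) (.br (nat_lit 0) (.cons (.br (nat_lit 3) (.cons (.rel (nat_lit 541131777)) .nil)) .nil)) .leaf)) (nat_lit 22987689927931956) (.br (nat_lit 3) (.cons (.br (nat_lit 6) (.cons (.rel (nat_lit 17448305952)) .nil)) .nil)) (.node (.node .leaf (nat_lit 22987689928689690) (.br (nat_lit 3) (.cons (.br (nat_lit 2) (.cons (.rel (nat_lit 603979905)) (.cons (.rel (nat_lit 336069120)) .nil))) .nil)) .leaf) (nat_lit 22987689928689821) (.br (nat_lit 3) (.cons (.br (nat_lit 4) (.cons (.rel (nat_lit 1342181385)) .nil)) .nil)) .leaf)) (nat_lit 22987689928689949) (.br (nat_lit 3) (.cons (.br (nat_lit 2) (.cons (.rel (nat_lit 335544660)) (.cons (.rel (nat_lit 603996240)) .nil))) .nil)) (.node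 (.node (.node .leaf (nat_lit 22987689928904704) (.br (nat_lit 3) (.cons (.br (nat_lit 5) (.cons (.rel (nat_lit 4563423552)) (.cons (.rel (nat_lit 9127855104)) (.cons (.rel (nat_lit 4563423552)) (.cons (.rel (nat_lit 4831903752)) (.cons (.rel (nat_lit 4831838277)) .nil)))))) .nil)) .leaf) (nat_lit 22987689928957978) (.br (nat_lit 3) (.cons (.br (nat_lit 2) (.cons (.rel (nat_lit 335810625)) (.cons (.rel (nat_lit 336069120)) .nil))) .nil)) .leaf) (nat_lit 22987689928958004) (.br (nat_lit 2) (.cons (.br (nat_lit 3) (.cons (.rel (nat_lit 335545665)) (.cons (.rel (nat_lit 336069120)) .nil))) (.cons (.br (nat_lit 4) (.cons (.rel (nat_lit 1140851730)) (.cons (.rel (nat_lit 1140920385)) .nil))) .nil))) (.node (.node .leaf (nat_lit 22987689928958237) (.br (nat_lit 2) (.cons (.br (nat_lit 3) (.cons (.rel (nat_lit 336069120)) .nil)) .nil)) .leaf) (nat_lit 22987689928959213) (.br (nat_lit 2) (.cons (.br (nat_lit 3) (.cons (.rel (nat_lit 336069120)) .nil)) .nil)) .leaf))) (nat_lit 22987689929007139)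 (.br (nat_lit 0) (.cons (.br (nat_lit 1) (.cons (.rel (nat_lit 23085072)) .nil)) .nil)) (.node (.node (.node (.node .leaf (nat_lit 22987689929142534) (.br (nat_lit 2) (.cons (.br (nat_lit 3) (.cons (.rel (nat_lit 336069120)) .nil)) .nil)) .leaf) (nat_lit 22987689929189533) (.br (nat_lit 2) (.cons (.br (nat_lit 3) (.cons (.rel (nat_lit 402653250)) .nil)) .nil)) (.node .leaf (nat_lit 22987689929190057) (.br (nat_lit 0) (.cons (.br (nat_lit 3) (.cons (.rel (nat_lit 276905988)) .nil)) .nil)) .leaf)) (nat_lit 22987690026732782) (.br (nat_lit 0) (.cons (.br (nat_lit 2) (.cons (.rel (nat_lit 71319876)) .nil)) .nil)) (.node (.node .leaf (nat_lit 22987690026854401) (.br (nat_lit 0) (.cons (.br (nat_lit 1) (.cons (.rel (nat_lit 21233796)) .nil)) .nil)) .leaf) (nat_lit 22987690026854402) (.br (nat_lit 0) (.cons (.br (nat_lit 6) (.cons (.rel (nat_lit 17184395268)) .nil)) .nil)) .leaf)) (nat_lit 22987690026855905) (.br (nat_lit 1) (.cons (.br (nat_lit 3) (.cons (.rel (nat_lit 285478920))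 .nil)) .nil)) (.node (.node (.node .leaf (nat_lit 22987690027256489) (.br (nat_lit 1) (.cons (.br (nat_lit 3) (.cons (.rel (nat_lit 285213960)) .nil)) .nil)) .leaf) (nat_lit 22987690028083232) (.br (nat_lit 0) (.cons (.br (nat_lit 5) (.cons (.rel (nat_lit 4299165954)) .nil)) .nil)) .leaf) (nat_lit 22987690028083877) (.br (nat_lit 1) (.cons (.br (nat_lit 4) (.cons (.rel (nat_lit 2181038160)) .nil)) .nil)) (.node (.node .leaf (nat_lit 22987690028380421) (.br (nat_lit 0) (.cons (.br (nat_lit 1) (.cons (.rel (nat_lit 20975877)) .nil)) .nil)) .leaf) (nat_lit 22987690028380422) (.br (nat_lit 0) (.cons (.br (nat_lit 5) (.cons (.rel (nat_lit 4299163968)) .nil)) .nil)) .leaf))))) (nat_lit 22987690028381535) (.br (nat_lit 0) (.cons (.br (nat_lit 2) (.cons (.rel (nat_lit 71319876)) .nil)) .nil)) (.node (.node (.node (.node (.node (.node .leaf (nat_lit 22987690029299712) (.br (nat_lit 0) (.cons (.br (nat_lit 3) (.cons (.rel (nat_lit 272891976)) .nil)) .nil)) .leaf) (nat_lit 22987690029547023)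 (.br (nat_lit 1) (.cons (.br (nat_lit 2) (.cons (.rel (nat_lit 83906820)) .nil)) .nil)) (.node .leaf (nat_lit 22987690029852674) (.br (nat_lit 1) (.cons (.br (nat_lit 5) (.cons (.rel (nat_lit 4312076292)) .nil)) .nil)) .leaf)) (nat_lit 22987690029853353) (.br (nat_lit 0) (.cons (.br (nat_lit 4) (.cons (.rel (nat_lit 2155937793)) .nil)) .nil)) (.node (.node .leaf (nat_lit 22987690029867683) (.br (nat_lit 2) (.cons (.br (nat_lit 3) (.cons (.rel (nat_lit 337641573)) .nil)) .nil)) .leaf) (nat_lit 22987693696770309) (.br (nat_lit 0) (.cons (.br (nat_lit 3) (.cons (.rel (nat_lit 542114112)) .nil)) .nil)) .leaf)) (nat_lit 22987693696870685) (.br (nat_lit 0) (.cons (.br (nat_lit 5) (.cons (.rel (nat_lit 4299440208)) (.cons (.rel (nat_lit 4299163968)) .nil))) .nil)) (.node (.node (.node .leaf (nat_lit 22987693696871062) (.br (nat_lit 4) (.cons (.br (nat_lit 5) (.cons (.rel (nat_lit 5368725576)) .nil)) .nil)) .leaf) (nat_lit 22987693696871081) (.br (nat_lit 0) (.cons (.br (nat_lit 1) (.cons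 (.rel (nat_lit 21038352)) .nil)) .nil)) .leaf) (nat_lit 22987693696871212) (.br (nat_lit 0) (.cons (.br (nat_lit 6) (.cons (.rel (nat_lit 34369183749)) .nil)) .nil)) (.node (.node .leaf (nat_lit 22987693696871905) (.br (nat_lit 1) (.cons (.br (nat_lit 5) (.cons (.rel (nat_lit 4312027152)) (.cons (.rel (nat_lit 4311811332)) (.cons (.rel (nat_lit 8623751424)) .nil)))) (.cons (.br (nat_lit 5) (.cons (.rel (nat_lit 4312010817)) (.cons (.rel (nat_lit 4312010817)) (.cons (.rel (nat_lit 4313858052)) .nil)))) .nil))) .leaf) (nat_lit 22987693697270635) (.br (nat_lit 0) (.cons (.br (nat_lit 3) (.cons (.rel (nat_lit 272957442)) .nil)) .nil)) .leaf))) (nat_lit 22987693697271186) (.br (nat_lit 0) (.cons (.br (nat_lit 3) (.cons (.rel (nat_lit 272957442)) .nil)) .nil)) (.node (.node (.node (.node .leaf (nat_lit 22987693697372336) (.br (nat_lit 1) (.cons (.br (nat_lit 2) (.cons (.rel (nat_lit 85463040)) .nil)) .nil)) .leaf) (nat_lit 22987693697372837) (.br (nat_lit 0) (.cons (.br (nat_lit 5)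 (.cons (.rel (nat_lit 4299178248)) (.cons (.rel (nat_lit 4299165954)) .nil))) (.cons (.br (nat_lit 5) (.cons (.rel (nat_lit 4299165954)) (.cons (.rel (nat_lit 4299163968)) .nil))) .nil))) (.node .leaf (nat_lit 22987693697372966) (.br (nat_lit 0) (.cons (.br (nat_lit 1) (.cons (.rel (nat_lit 38797572)) .nil)) .nil)) .leaf)) (nat_lit 22987693697373035) (.br (nat_lit 0) (.cons (.br (nat_lit 1) (.cons (.rel (nat_lit 25167873)) (.cons (.rel (nat_lit 25166868)) (.cons (.rel (nat_lit 20971872)) (.cons (.rel (nat_lit 21364737)) .nil))))) .nil)) (.node (.node .leaf (nat_lit 22987693697373562) (.br (nat_lit 0) (.cons (.br (nat_lit 3) (.cons (.rel (nat_lit 274726917)) .nil)) .nil)) .leaf) (nat_lit 22987693697373710) (.br (nat_lit 0) (.cons (.br (nat_lit 5) (.cons (.rel (nat_lit 4299440208)) .nil)) .nil)) .leaf)) (nat_lit 22987693698099462) (.br (nat_lit 5) (.cons (.br (nat_lit 0) (.cons (.rel (nat_lit 4304670720)) (.cons (.rel (nat_lit 8594149440)) .nil))) .nil)) (.node (.node (.node .leaf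 (nat_lit 22987693698100705) (.br (nat_lit 1) (.cons (.br (nat_lit 2) (.cons (.rel (nat_lit 84295680)) .nil)) .nil)) .leaf) (nat_lit 22987693698100752) (.br (nat_lit 0) (.cons (.br (nat_lit 4) (.cons (.rel (nat_lit 1078067202)) (.cons (.rel (nat_lit 2156923200)) .nil))) .nil)) .leaf) (nat_lit 22987693698100761) (.br (nat_lit 1) (.cons (.br (nat_lit 4) (.cons (.rel (nat_lit 2181038160)) .nil)) .nil)) (.node (.node .leaf (nat_lit 22987693698396160) (.br (nat_lit 0) (.cons (.br (nat_lit 1) (.cons (.rel (nat_lit 20971872)) (.cons (.rel (nat_lit 20971872)) (.cons (.rel (nat_lit 21364737)) (.cons (.rel (nat_lit 21364737)) (.cons (.rel (nat_lit 23134212)) .nil)))))) .nil)) .leaf) (nat_lit 22987693698396211) (.br (nat_lit 1) (.cons (.br (nat_lit 4) (.cons (.rel (nat_lit 2181038160)) .nil)) .nil)) .leaf)))) (nat_lit 22987693698396336) (.br (nat_lit 2) (.cons (.br (nat_lit 5) (.cons (.rel (nat_lit 4364177472)) .nil)) .nil)) (.node (.node (.node (.node (.node .leaf (nat_lit 22987693698611485)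 (.br (nat_lit 0) (.cons (.br (nat_lit 3) (.cons (.rel (nat_lit 272777472)) .nil)) .nil)) .leaf) (nat_lit 22987693698662401) (.br (nat_lit 0) (.cons (.br (nat_lit 2) (.cons (.rel (nat_lit 73531392)) (.cons (.rel (nat_lit 71319876)) .nil))) .nil)) (.node .leaf (nat_lit 22987693698662402) (.br (nat_lit 1) (.cons (.br (nat_lit 0) (.cons (.rel (nat_lit 20971872)) (.cons (.rel (nat_lit 21364737)) .nil))) .nil)) .leaf)) (nat_lit 22987693698662576) (.br (nat_lit 0) (.cons (.br (nat_lit 5) (.cons (.rel (nat_lit 4299178248)) .nil)) .nil)) (.node (.node .leaf (nat_lit 22987693698663031) (.br (nat_lit 0) (.cons (.br (nat_lit 1) (.cons (.rel (nat_lit 25170048)) .nil)) .nil)) .leaf) (nat_lit 22987693698663905) (.br (nat_lit 1) (.cons (.br (nat_lit 0) (.cons (.rel (nat_lit 20971872)) (.cons (.rel (nat_lit 25170048)) .nil))) .nil)) .leaf)) (nat_lit 22987693699369897) (.br (nat_lit 1) (.cons (.br (nat_lit 4) (.cons (.rel (nat_lit 2164343040)) .nil)) .nil)) (.node (.node (.node .leaf (nat_lit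 22987693699370386) (.br (nat_lit 1) (.cons (.br (nat_lit 4) (.cons (.rel (nat_lit 1090585680)) (.cons (.rel (nat_lit 1090652160)) (.cons (.rel (nat_lit 1090519200)) (.cons (.rel (nat_lit 1090519200)) .nil))))) .nil)) .leaf) (nat_lit 22987693699420421) (.br (nat_lit 0) (.cons (.br (nat_lit 1) (.cons (.rel (nat_lit 20975877)) (.cons (.rel (nat_lit 21038352)) .nil))) .nil)) .leaf) (nat_lit 22987693699420445) (.br (nat_lit 0) (.cons (.br (nat_lit 6) (.cons (.rel (nat_lit 17184064833)) .nil)) .nil)) (.node (.node .leaf (nat_lit 22987693699420836) (.br (nat_lit 1) (.cons (.br (nat_lit 2) (.cons (.rel (nat_lit 152305665)) .nil)) .nil)) .leaf) (nat_lit 22987693699421535) (.br (nat_lit 0) (.cons (.br (nat_lit 1) (.cons (.rel (nat_lit 21233796)) .nil)) .nil)) .leaf))) (nat_lit 22987693699421586) (.br (nat_lit 0) (.cons (.br (nat_lit 5) (.cons (.rel (nat_lit 4299489348)) .nil)) .nil)) (.node (.node (.node (.node .leaf (nat_lit 22987693699421712) (.br (nat_lit 0) (.cons (.br (nat_lit 1)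 (.cons (.rel (nat_lit 23134212)) .nil)) .nil)) .leaf) (nat_lit 22987693699585426) (.br (nat_lit 0) (.cons (.br (nat_lit 1) (.cons (.rel (nat_lit 21364737)) .nil)) .nil)) (.node .leaf (nat_lit 22987693699686685) (.br (nat_lit 1) (.cons (.br (nat_lit 3) (.cons (.rel (nat_lit 285245760)) .nil)) .nil)) .leaf)) (nat_lit 22987693699686687) (.br (nat_lit 3) (.cons (.br (nat_lit 6) (.cons (.rel (nat_lit 34629485568)) .nil)) .nil)) (.node (.node .leaf (nat_lit 22987693699687075) (.br (nat_lit 0) (.cons (.br (nat_lit 1) (.cons (.rel (nat_lit 21038352)) (.cons (.rel (nat_lit 21233796)) .nil))) .nil)) .leaf) (nat_lit 22987693699687675) (.br (nat_lit 0) (.cons (.br (nat_lit 1) (.cons (.rel (nat_lit 23134212)) .nil)) .nil)) .leaf)) (nat_lit 22987693699687687) (.br (nat_lit 0) (.cons (.br (nat_lit 5) (.cons (.rel (nat_lit 4299163968)) .nil)) .nil)) (.node (.node (.node .leaf (nat_lit 22987693699831870) (.br (nat_lit 1) (.cons (.br (nat_lit 6) (.cons (.rel (nat_lit 34376516613)) .nil)) .nil))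 .leaf) (nat_lit 22987693699868957) (.br (nat_lit 3) (.cons (.br (nat_lit 5) (.cons (.rel (nat_lit 4563664992)) (.cons (.rel (nat_lit 8858374224)) (.cons (.rel (nat_lit 9127855104)) .nil)))) .nil)) .leaf) (nat_lit 22987693699869959) (.br (nat_lit 3) (.cons (.br (nat_lit 0) (.cons (.rel (nat_lit 272957442)) (.cons (.rel (nat_lit 541131777)) .nil))) .nil)) (.node (.node .leaf (nat_lit 22987693699870177) (.br (nat_lit 0) (.cons (.br (nat_lit 1) (.cons (.rel (nat_lit 21233796)) .nil)) .nil)) .leaf) (nat_lit 22988331563955728) (.br (nat_lit 0) (.cons (.br (nat_lit 4) (.cons (.rel (nat_lit 1078067202)) .nil)) .nil)) .leaf))))))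

/-- refutations 55 -/
def e55 : EX := (.node (.node (.node (.node (.node .leaf (nat_lit 22538167411206904) (.br (nat_lit 0) (.cons (.br (nat_lit 1) (.cons (.rel (nat_lit 20971872)) .nil)) .nil)) .leaf) (nat_lit 22538167411270293) (.br (nat_lit 0) (.cons (.br (nat_lit 1) (.cons (.rel (nat_lit 20975877)) .nil)) .nil)) (.node .leaf (nat_lit 22538173073516544) (.br (nat_lit 4) (.cons (.br (nat_lit 5) (.cons (.rel (nat_lit 5368725576)) .nil)) .nil)) .leaf)) (nat_lit 22541062325164033) (.br (nat_lit 0) (.cons (.br (nat_lit 4) (.cons (.rel (nat_lit 1077944352)) .nil)) .nil)) (.node (.node .leaf (nat_lit 22541259791855073) (.br (nat_lit 3) (.cons (.br (nat_lit 6) (.cons (.rel (nat_lit 17448375624)) .nil)) .nil)) .leaf) (nat_lit 22546542594381824) (.br (nat_lit 0) (.cons (.br (nat_lit 1) (.cons (.rel (nat_lit 21251136)) (.cons (.rel (nat_lit 26492928)) .nil))) .nil)) .leaf)) (nat_lit 22546542596153344) (.br (nat_lit 0) (.cons (.br (nat_lit 2) (.cons (.rel (nat_lit 71311632)) .nil)) .nil))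 (.node (.node (.node .leaf (nat_lit 22546542597434104) (.br (nat_lit 0) (.cons (.br (nat_lit 1) (.cons (.rel (nat_lit 20988162)) .nil)) .nil)) .leaf) (nat_lit 22546542597496858) (.br (nat_lit 0) (.cons (.br (nat_lit 3) (.cons (.rel (nat_lit 541065297)) .nil)) .nil)) .leaf) (nat_lit 22546542710679552) (.br (nat_lit 0) (.cons (.br (nat_lit 1) (.cons (.rel (nat_lit 20988162)) .nil)) .nil)) (.node (.node .leaf (nat_lit 22546760097261568) (.br (nat_lit 0) (.cons (.br (nat_lit 6) (.cons (.rel (nat_lit 17184588288)) .nil)) .nil)) .leaf) (nat_lit 22546766044784640) (.br (nat_lit 3) (.cons (.br (nat_lit 6) (.cons (.rel (nat_lit 17448304902)) (.cons (.rel (nat_lit 17716740192)) .nil))) (.cons (.br (nat_lit 4) (.cons (.rel (nat_lit 1342178385)) (.cons (.rel (nat_lit 1342177380)) .nil))) .nil))) .leaf))) (nat_lit 22546766044785320) (.br (nat_lit 0) (.cons (.br (nat_lit 1) (.cons (.rel (nat_lit 21364737)) .nil)) .nil)) (.node (.node (.node (.node .leaf (nat_lit 22547676468799515) (.br (nat_lit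 0) (.cons (.br (nat_lit 2) (.cons (.rel (nat_lit 71373057)) .nil)) .nil)) .leaf) (nat_lit 22547676468800993) (.br (nat_lit 0) (.cons (.br (nat_lit 5) (.cons (.rel (nat_lit 4301262864)) .nil)) .nil)) (.node .leaf (nat_lit 22547882625703936) (.br (nat_lit 0) (.cons (.br (nat_lit 6) (.cons (.rel (nat_lit 17186177028)) .nil)) .nil)) .leaf)) (nat_lit 22547882625704198) (.br (nat_lit 3) (.cons (.br (nat_lit 4) (.cons (.rel (nat_lit 1343492160)) .nil)) .nil)) (.node (.node .leaf (nat_lit 22547882625949722) (.br (nat_lit 0) (.cons (.br (nat_lit 1) (.cons (.rel (nat_lit 37748757)) .nil)) .nil)) .leaf) (nat_lit 22547882626729362) (.br (nat_lit 0) (.cons (.br (nat_lit 1) (.cons (.rel (nat_lit 20975877)) .nil)) .nil)) .leaf)) (nat_lit 22547882627229827) (.br (nat_lit 0) (.cons (.br (nat_lit 3) (.cons (.rel (nat_lit 272699712)) .nil)) .nil)) (.node (.node (.node .leaf (nat_lit 22547882627230323) (.br (nat_lit 1) (.cons (.br (nat_lit 4) (.cons (.rel (nat_lit 1090519200)) .nil)) .nil)) .leaf)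 (nat_lit 22547882627231201) (.br (nat_lit 0) (.cons (.br (nat_lit 6) (.cons (.rel (nat_lit 34363932705)) .nil)) .nil)) .leaf) (nat_lit 22547885813374976) (.br (nat_lit 0) (.cons (.br (nat_lit 5) (.cons (.rel (nat_lit 4299163968)) .nil)) .nil)) (.node (.node .leaf (nat_lit 22548579405982351) (.br (nat_lit 0) (.cons (.br (nat_lit 1) (.cons (.rel (nat_lit 21233796)) .nil)) .nil)) .leaf) (nat_lit 22548991276823838) (.br (nat_lit 0) (.cons (.br (nat_lit 1) (.cons (.rel (nat_lit 23068737)) .nil)) .nil)) .leaf))))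

/-- refutations 56 -/
def e56 : EX := (.node (.node (.node (.node (.node (.node .leaf (nat_lit 24207930896461328) (.br (nat_lit 1) (.cons (.br (nat_lit 2) (.cons (.rel (nat_lit 84148260)) .nil)) .nil)) .leaf) (nat_lit 24207933481883709) (.br (nat_lit 1) (.cons (.br (nat_lit 3) (.cons (.rel (nat_lit 285212946)) .nil)) .nil)) .leaf) (nat_lit 24208180003540351) (.br (nat_lit 0) (.cons (.br (nat_lit 2) (.cons (.rel (nat_lit 75497568)) .nil)) .nil)) (.node (.node .leaf (nat_lit 24208182588694528) (.br (nat_lit 2) (.cons (.br (nat_lit 5) (.cons (.rel (nat_lit 4429202496)) (.cons (.rel (nat_lit 4362354816)) .nil))) (.cons (.br (nat_lit 5) (.cons (.rel (nat_lit 4362142032)) (.cons (.rel (nat_lit 4429202496)) .nil))) .nil))) .leaf) (nat_lit 24208182844548348) (.br (nat_lit 5) (.cons (.br (nat_lit 2) (.cons (.rel (nat_lit 4362354816)) (.cons (.rel (nat_lit 8657043528)) .nil))) .nil)) .leaf)) (nat_lit 24208185355267483) (.br (nat_lit 1) (.cons (.br (nat_lit 0) (.cons (.rel (nat_lit 23068737))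 (.cons (.rel (nat_lit 21233796)) (.cons (.rel (nat_lit 23068737)) (.cons (.rel (nat_lit 23134212)) .nil))))) .nil)) (.node (.node (.node .leaf (nat_lit 24208185356935168) (.br (nat_lit 3) (.cons (.br (nat_lit 5) (.cons (.rel (nat_lit 4563404037)) (.cons (.rel (nat_lit 8858435649)) .nil))) (.cons (.br (nat_lit 5) (.cons (.rel (nat_lit 4831855617)) (.cons (.rel (nat_lit 4563681282)) .nil))) .nil))) .leaf) (nat_lit 24208185358228087) (.br (nat_lit 2) (.cons (.br (nat_lit 5) (.cons (.rel (nat_lit 4362096897)) .nil)) .nil)) .leaf) (nat_lit 24209044350394368) (.br (nat_lit 1) (.cons (.br (nat_lit 5) (.cons (.rel (nat_lit 4328558592)) .nil)) .nil)) (.node (.node .leaf (nat_lit 24209044350395803) (.br (nat_lit 1) (.cons (.br (nat_lit 5) (.cons (.rel (nat_lit 4328558592)) .nil)) .nil)) .leaf) (nat_lit 24209044351479808) (.br (nat_lit 5) (.cons (.br (nat_lit 1) (.cons (.rel (nat_lit 8606711814)) (.cons (.rel (nat_lit 8623751424)) .nil))) .nil)) .leaf))) (nat_lit 24209044351480713) (.br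 (nat_lit 4) (.cons (.br (nat_lit 5) (.cons (.rel (nat_lit 9664790529)) .nil)) .nil)) (.node (.node (.node (.node .leaf (nat_lit 24209044351481243) (.br (nat_lit 1) (.cons (.br (nat_lit 5) (.cons (.rel (nat_lit 4312088577)) (.cons (.rel (nat_lit 8606711814)) .nil))) .nil)) .leaf) (nat_lit 24209058276569089) (.br (nat_lit 2) (.cons (.br (nat_lit 4) (.cons (.rel (nat_lit 1140850725)) .nil)) .nil)) .leaf) (nat_lit 24213723641765888) (.br (nat_lit 0) (.cons (.br (nat_lit 1) (.cons (.rel (nat_lit 37834752)) (.cons (.rel (nat_lit 21364737)) .nil))) (.cons (.br (nat_lit 1) (.cons (.rel (nat_lit 21012744)) (.cons (.rel (nat_lit 21364737)) .nil))) .nil))) (.node (.node .leaf (nat_lit 24213725864747008) (.br (nat_lit 2) (.cons (.br (nat_lit 3) (.cons (.rel (nat_lit 335611140)) (.cons (.rel (nat_lit 335544660)) .nil))) (.cons (.br (nat_lit 3) (.cons (.rel (nat_lit 335815680)) (.cons (.rel (nat_lit 335826960)) .nil))) .nil))) .leaf) (nat_lit 24213725865832448) (.br (nat_lit 0) (.cons (.br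 (nat_lit 2) (.cons (.rel (nat_lit 71565321)) (.cons (.rel (nat_lit 75564048)) .nil))) (.cons (.br (nat_lit 5) (.cons (.rel (nat_lit 4299227424)) (.cons (.rel (nat_lit 4303355940)) .nil))) .nil))) .leaf)) (nat_lit 24218015545757084) (.br (nat_lit 0) (.cons (.br (nat_lit 1) (.cons (.rel (nat_lit 20971872)) .nil)) .nil)) (.node (.node (.node .leaf (nat_lit 24218015548306844) (.br (nat_lit 1) (.cons (.br (nat_lit 2) (.cons (.rel (nat_lit 100663365)) .nil)) .nil)) .leaf) (nat_lit 24218017575595420) (.br (nat_lit 1) (.cons (.br (nat_lit 2) (.cons (.rel (nat_lit 83886480)) .nil)) .nil)) .leaf) (nat_lit 24218017578349981) (.br (nat_lit 1) (.cons (.br (nat_lit 6) (.cons (.rel (nat_lit 17196712197)) .nil)) .nil)) (.node (.node .leaf (nat_lit 24218017578616091) (.br (nat_lit 0) (.cons (.br (nat_lit 1) (.cons (.rel (nat_lit 20975877)) .nil)) .nil)) .leaf) (nat_lit 24218018792147206) (.br (nat_lit 0) (.cons (.br (nat_lit 2) (.cons (.rel (nat_lit 71311632)) .nil)) .nil)) .leaf)))) (nat_lit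 24218882645161343) (.br (nat_lit 0) (.cons (.br (nat_lit 5) (.cons (.rel (nat_lit 4299165954)) .nil)) .nil)) (.node (.node (.node (.node (.node .leaf (nat_lit 24218885777219586) (.br (nat_lit 0) (.cons (.br (nat_lit 2) (.cons (.rel (nat_lit 138478656)) .nil)) .nil)) .leaf) (nat_lit 24219140759812273) (.br (nat_lit 1) (.cons (.br (nat_lit 2) (.cons (.rel (nat_lit 150999120)) .nil)) .nil)) .leaf) (nat_lit 24219140759875073) (.br (nat_lit 1) (.cons (.br (nat_lit 2) (.cons (.rel (nat_lit 83886480)) .nil)) .nil)) (.node (.node .leaf (nat_lit 24219140760078398) (.br (nat_lit 0) (.cons (.br (nat_lit 5) (.cons (.rel (nat_lit 4299440208)) (.cons (.rel (nat_lit 4301262864)) .nil))) .nil)) .leaf) (nat_lit 24219140760375927) (.br (nat_lit 1) (.cons (.br (nat_lit 2) (.cons (.rel (nat_lit 85463040)) .nil)) .nil)) .leaf)) (nat_lit 24219140761154948) (.br (nat_lit 2) (.cons (.br (nat_lit 3) (.cons (.rel (nat_lit 335815680)) .nil)) .nil)) (.node (.node (.node .leaf (nat_lit 24219140761543918)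 (.br (nat_lit 1) (.cons (.br (nat_lit 4) (.cons (.rel (nat_lit 1090519200)) .nil)) .nil)) .leaf) (nat_lit 24219140761604096) (.br (nat_lit 0) (.cons (.br (nat_lit 1) (.cons (.rel (nat_lit 21303312)) .nil)) .nil)) .leaf) (nat_lit 24219140761655473) (.br (nat_lit 1) (.cons (.br (nat_lit 2) (.cons (.rel (nat_lit 83886480)) .nil)) .nil)) (.node (.node .leaf (nat_lit 24219140762628227) (.br (nat_lit 0) (.cons (.br (nat_lit 2) (.cons (.rel (nat_lit 138432516)) .nil)) .nil)) .leaf) (nat_lit 24219140762629502) (.br (nat_lit 1) (.cons (.br (nat_lit 5) (.cons (.rel (nat_lit 4311745857)) .nil)) .nil)) .leaf))) (nat_lit 24219140762629648) (.br (nat_lit 0) (.cons (.br (nat_lit 1) (.cons (.rel (nat_lit 21233796)) .nil)) .nil)) (.node (.node (.node (.node .leaf (nat_lit 24219140762691715) (.br (nat_lit 2) (.cons (.br (nat_lit 0) (.cons (.rel (nat_lit 71567376)) (.cons (.rel (nat_lit 143720448)) .nil))) .nil)) .leaf) (nat_lit 24219140762692245) (.br (nat_lit 5) (.cons (.br (nat_lit 1) (.cons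 (.rel (nat_lit 4312027152)) (.cons (.rel (nat_lit 4312010817)) .nil))) .nil)) .leaf) (nat_lit 24219140762692959) (.br (nat_lit 1) (.cons (.br (nat_lit 5) (.cons (.rel (nat_lit 4311745857)) .nil)) .nil)) (.node (.node .leaf (nat_lit 24219140762835575) (.br (nat_lit 2) (.cons (.br (nat_lit 1) (.cons (.rel (nat_lit 83952960)) (.cons (.rel (nat_lit 84148260)) .nil))) .nil)) .leaf) (nat_lit 24219143601874333) (.br (nat_lit 0) (.cons (.br (nat_lit 2) (.cons (.rel (nat_lit 71602176)) .nil)) .nil)) .leaf)) (nat_lit 24219146113474560) (.br (nat_lit 3) (.cons (.br (nat_lit 1) (.cons (.rel (nat_lit 571473936)) (.cons (.rel (nat_lit 285286656)) (.cons (.rel (nat_lit 553713666)) .nil)))) .nil)) (.node (.node (.node .leaf (nat_lit 24219146113599540) (.br (nat_lit 0) (.cons (.br (nat_lit 1) (.cons (.rel (nat_lit 25166868)) .nil)) .nil)) .leaf) (nat_lit 24219146114560000) (.br (nat_lit 0) (.cons (.br (nat_lit 5) (.cons (.rel (nat_lit 4301324289)) (.cons (.rel (nat_lit 4301324289)) .nil))) (.cons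 (.br (nat_lit 5) (.cons (.rel (nat_lit 4299165954)) (.cons (.br (nat_lit 2) (.cons (.rel (nat_lit 8657108994)) (.cons (.rel (nat_lit 73531392)) (.cons (.rel (nat_lit 75497568)) (.cons (.rel (nat_lit 71630976)) (.cons (.rel (nat_lit 73531392)) .nil)))))) .nil))) .nil))) .leaf) (nat_lit 24219146171028133) (.br (nat_lit 1) (.cons (.br (nat_lit 2) (.cons (.rel (nat_lit 152305665)) .nil)) .nil)) (.node (.node .leaf (nat_lit 24219146172195473) (.br (nat_lit 2) (.cons (.br (nat_lit 4) (.cons (.rel (nat_lit 1140850725)) .nil)) .nil)) .leaf) (nat_lit 24219146173487410) (.br (nat_lit 0) (.cons (.br (nat_lit 1) (.cons (.rel (nat_lit 20975877)) .nil)) .nil)) .leaf)))))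

/-- refutations 57 -/
def e57 : EX := (.node (.node (.node (.node (.node (.node .leaf (nat_lit 24226038968584867) (.br (nat_lit 1) (.cons (.br (nat_lit 2) (.cons (.rel (nat_lit 85999680)) .nil)) .nil)) .leaf) (nat_lit 24230937578171905) (.br (nat_lit 0) (.cons (.br (nat_lit 2) (.cons (.rel (nat_lit 75519105)) .nil)) .nil)) (.node .leaf (nat_lit 24232447061751196) (.br (nat_lit 2) (.cons (.br (nat_lit 3) (.cons (.rel (nat_lit 604045380)) (.cons (.rel (nat_lit 402653250)) .nil))) .nil)) .leaf)) (nat_lit 24232452534083584) (.br (nat_lit 1) (.cons (.br (nat_lit 2) (.cons (.rel (nat_lit 100668420)) .nil)) .nil)) (.node (.node .leaf (nat_lit 24232452535317155) (.br (nat_lit 2) (.cons (.br (nat_lit 3) (.cons (.rel (nat_lit 335544660)) .nil)) .nil)) .leaf) (nat_lit 24235221121880221) (.br (nat_lit 1) (.cons (.br (nat_lit 2) (.cons (.rel (nat_lit 84148260)) .nil)) .nil)) (.node .leaf (nat_lit 24237343322200971) (.br (nat_lit 1) (.cons (.br (nat_lit 2) (.cons (.rel (nat_lit 85463040))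 .nil)) .nil)) .leaf))) (nat_lit 24237343322210480) (.br (nat_lit 2) (.cons (.br (nat_lit 5) (.cons (.rel (nat_lit 8657043528)) .nil)) .nil)) (.node (.node (.node .leaf (nat_lit 24237343322211064) (.br (nat_lit 0) (.cons (.br (nat_lit 1) (.cons (.rel (nat_lit 21303312)) .nil)) .nil)) .leaf) (nat_lit 24237343322211565) (.br (nat_lit 1) (.cons (.br (nat_lit 4) (.cons (.rel (nat_lit 1090523205)) .nil)) .nil)) (.node .leaf (nat_lit 24237343322211566) (.br (nat_lit 1) (.cons (.br (nat_lit 2) (.cons (.rel (nat_lit 85463040)) .nil)) .nil)) .leaf)) (nat_lit 24237343322507296) (.br (nat_lit 1) (.cons (.br (nat_lit 2) (.cons (.br (nat_lit 0) (.cons (.rel (nat_lit 71602176)) (.cons (.rel (nat_lit 37749762)) .nil))) .nil)) .nil)) (.node (.node .leaf (nat_lit 24237343322507439) (.br (nat_lit 1) (.cons (.br (nat_lit 3) (.cons (.rel (nat_lit 571474953)) .nil)) .nil)) .leaf) (nat_lit 24237343323235064) (.br (nat_lit 0) (.cons (.br (nat_lit 5) (.cons (.rel (nat_lit 4299178248)) .nil)) .nil)) (.node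 .leaf (nat_lit 24237343323470000) (.br (nat_lit 1) (.cons (.br (nat_lit 5) (.cons (.rel (nat_lit 4313858052)) .nil)) .nil)) .leaf)))) (nat_lit 24237343323470109) (.br (nat_lit 3) (.cons (.br (nat_lit 6) (.cons (.rel (nat_lit 17448305952)) (.cons (.rel (nat_lit 17448304902)) .nil))) .nil)) (.node (.node (.node (.node .leaf (nat_lit 24237343323470454) (.br (nat_lit 1) (.cons (.br (nat_lit 5) (.cons (.rel (nat_lit 4311744852)) (.cons (.rel (nat_lit 4328521737)) (.cons (.rel (nat_lit 4328558592)) .nil)))) .nil)) .leaf) (nat_lit 24237343323799814) (.br (nat_lit 3) (.cons (.br (nat_lit 4) (.cons (.rel (nat_lit 1343227200)) .nil)) .nil)) (.node .leaf (nat_lit 24237343323800489) (.br (nat_lit 2) (.cons (.br (nat_lit 3) (.cons (.rel (nat_lit 336069120)) (.cons (.rel (nat_lit 604062720)) .nil))) .nil)) .leaf)) (nat_lit 24237343323801600) (.br (nat_lit 0) (.cons (.br (nat_lit 3) (.cons (.rel (nat_lit 272699712)) .nil)) .nil)) (.node (.node .leaf (nat_lit 24237343324467485) (.br (nat_lit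 2) (.cons (.br (nat_lit 3) (.cons (.rel (nat_lit 336069120)) (.cons (.rel (nat_lit 402653250)) .nil))) .nil)) .leaf) (nat_lit 24237343324494109) (.br (nat_lit 1) (.cons (.br (nat_lit 4) (.cons (.rel (nat_lit 2181038160)) .nil)) .nil)) (.node .leaf (nat_lit 24237343324494454) (.br (nat_lit 1) (.cons (.br (nat_lit 3) (.cons (.rel (nat_lit 285212946)) (.cons (.rel (nat_lit 285213960)) .nil))) .nil)) .leaf))) (nat_lit 24237343324494600) (.br (nat_lit 2) (.cons (.br (nat_lit 5) (.cons (.rel (nat_lit 4362340356)) .nil)) .nil)) (.node (.node (.node .leaf (nat_lit 24237343325026566) (.br (nat_lit 1) (.cons (.br (nat_lit 5) (.cons (.rel (nat_lit 4311750912)) .nil)) .nil)) .leaf) (nat_lit 24237343571265536) (.br (nat_lit 0) (.cons (.br (nat_lit 1) (.cons (.rel (nat_lit 23134212)) .nil)) .nil)) (.node .leaf (nat_lit 24237346091475120) (.br (nat_lit 1) (.cons (.br (nat_lit 2) (.cons (.rel (nat_lit 85198080)) .nil)) .nil)) .leaf)) (nat_lit 24365650122471581) (.br (nat_lit 0) (.cons (.br (nat_lit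 2) (.cons (.rel (nat_lit 71630976)) .nil)) .nil)) (.node (.node .leaf (nat_lit 24365650122471709) (.br (nat_lit 0) (.cons (.br (nat_lit 1) (.cons (.rel (nat_lit 25166868)) .nil)) .nil)) .leaf) (nat_lit 24365673717966226) (.br (nat_lit 0) (.cons (.br (nat_lit 1) (.cons (.rel (nat_lit 20971872)) (.cons (.rel (nat_lit 37748757)) .nil))) .nil)) .leaf)))) (nat_lit 24370805169320093) (.br (nat_lit 2) (.cons (.br (nat_lit 3) (.cons (.rel (nat_lit 402653250)) .nil)) .nil)) (.node (.node (.node (.node (.node .leaf (nat_lit 24370805169551645) (.br (nat_lit 1) (.cons (.br (nat_lit 3) (.cons (.rel (nat_lit 302007360)) .nil)) .nil)) .leaf) (nat_lit 24370848118991133) (.br (nat_lit 1) (.cons (.br (nat_lit 6) (.cons (.rel (nat_lit 17196646722)) .nil)) .nil)) (.node .leaf (nat_lit 24373126027315830) (.br (nat_lit 1) (.cons (.br (nat_lit 2) (.cons (.rel (nat_lit 84148260)) .nil)) .nil)) .leaf)) (nat_lit 24376139518701725) (.br (nat_lit 0) (.cons (.br (nat_lit 1) (.cons (.rel (nat_lit 23134212))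 .nil)) .nil)) (.node (.node .leaf (nat_lit 24376348305531165) (.br (nat_lit 1) (.cons (.br (nat_lit 3) (.cons (.rel (nat_lit 554701056)) .nil)) .nil)) .leaf) (nat_lit 24377470525067264) (.br (nat_lit 3) (.cons (.br (nat_lit 6) (.cons (.rel (nat_lit 34628206593)) .nil)) .nil)) (.node .leaf (nat_lit 24377470525120564) (.br (nat_lit 0) (.cons (.br (nat_lit 3) (.cons (.rel (nat_lit 272957442)) .nil)) .nil)) .leaf))) (nat_lit 24377470525121773) (.br (nat_lit 0) (.cons (.br (nat_lit 1) (.cons (.rel (nat_lit 37749762)) .nil)) .nil)) (.node (.node (.node .leaf (nat_lit 24377472623702042) (.br (nat_lit 4) (.cons (.br (nat_lit 5) (.cons (.rel (nat_lit 10737419328)) .nil)) .nil)) .leaf) (nat_lit 24377472623702942) (.br (nat_lit 2) (.cons (.br (nat_lit 3) (.cons (.rel (nat_lit 603979905)) .nil)) .nil)) (.node .leaf (nat_lit 24377472623933725) (.br (nat_lit 3) (.cons (.br (nat_lit 6) (.cons (.rel (nat_lit 17448436032)) (.cons (.rel (nat_lit 17448329472)) .nil))) (.cons (.br (nat_lit 6) (.cons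 (.rel (nat_lit 17448305952)) (.cons (.rel (nat_lit 17716756482)) .nil))) .nil))) .leaf)) (nat_lit 24377472624199706) (.br (nat_lit 0) (.cons (.br (nat_lit 3) (.cons (.rel (nat_lit 276828228)) .nil)) .nil)) (.node (.node .leaf (nat_lit 24377472624200337) (.br (nat_lit 0) (.cons (.br (nat_lit 3) (.cons (.rel (nat_lit 276828228)) .nil)) .nil)) .leaf) (nat_lit 24377472624858593) (.br (nat_lit 0) (.cons (.br (nat_lit 1) (.cons (.rel (nat_lit 21038352)) .nil)) .nil)) (.node .leaf (nat_lit 24377472625391642) (.br (nat_lit 2) (.cons (.br (nat_lit 3) (.cons (.rel (nat_lit 335815680)) .nil)) .nil)) .leaf)))) (nat_lit 24377472625392542) (.br (nat_lit 4) (.cons (.br (nat_lit 2) (.cons (.rel (nat_lit 1140850725)) (.cons (.rel (nat_lit 1140985860)) .nil))) .nil)) (.node (.node (.node (.node .leaf (nat_lit 24377472626413568) (.br (nat_lit 2) (.cons (.br (nat_lit 3) (.cons (.br (nat_lit 0) (.cons (.rel (nat_lit 272777472)) (.cons (.rel (nat_lit 71311632)) (.cons (.rel (nat_lit 73531392)) .nil))))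 .nil)) .nil)) .leaf) (nat_lit 24377472626466842) (.br (nat_lit 4) (.cons (.br (nat_lit 3) (.cons (.rel (nat_lit 1342181385)) (.cons (.rel (nat_lit 1342177380)) .nil))) .nil)) (.node .leaf (nat_lit 24377472626466973) (.br (nat_lit 2) (.cons (.br (nat_lit 3) (.cons (.br (nat_lit 4) (.cons (.rel (nat_lit 1342193670)) (.cons (.rel (nat_lit 1140998145)) (.cons (.rel (nat_lit 1342181385)) .nil)))) (.cons (.rel (nat_lit 335888385)) .nil))) .nil)) .leaf)) (nat_lit 24377472626467101) (.br (nat_lit 2) (.cons (.br (nat_lit 3) (.cons (.rel (nat_lit 336069120)) (.cons (.rel (nat_lit 671351040)) .nil))) .nil)) (.node (.node .leaf (nat_lit 24377472626467742) (.br (nat_lit 3) (.cons (.br (nat_lit 0) (.cons (.rel (nat_lit 276856848)) (.cons (.rel (nat_lit 541065297)) .nil))) .nil)) .leaf) (nat_lit 24377472626513920) (.br (nat_lit 2) (.cons (.br (nat_lit 6) (.cons (.rel (nat_lit 34426849380)) .nil)) .nil)) (.node .leaf (nat_lit 24377472626513946) (.br (nat_lit 2) (.cons (.br (nat_lit 3) (.cons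 (.rel (nat_lit 335888385)) (.cons (.rel (nat_lit 336069120)) .nil))) .nil)) .leaf))) (nat_lit 24378595153670170) (.br (nat_lit 4) (.cons (.br (nat_lit 6) (.cons (.rel (nat_lit 35434528848)) .nil)) .nil)) (.node (.node (.node .leaf (nat_lit 24378595153670301) (.br (nat_lit 3) (.cons (.br (nat_lit 6) (.cons (.rel (nat_lit 17716740192)) .nil)) .nil)) .leaf) (nat_lit 24378595153670429) (.br (nat_lit 3) (.cons (.br (nat_lit 6) (.cons (.rel (nat_lit 17716756482)) .nil)) .nil)) (.node .leaf (nat_lit 24378595153901594) (.br (nat_lit 3) (.cons (.br (nat_lit 1) (.cons (.rel (nat_lit 285212946)) (.cons (.rel (nat_lit 553648200)) .nil))) .nil)) .leaf)) (nat_lit 24378595153901725) (.br (nat_lit 2) (.cons (.br (nat_lit 3) (.cons (.rel (nat_lit 335826960)) (.cons (.rel (nat_lit 402653250)) .nil))) (.cons (.br (nat_lit 3) (.cons (.rel (nat_lit 336069120)) (.cons (.rel (nat_lit 604045380)) .nil))) .nil))) (.node (.node .leaf (nat_lit 24378595156435101) (.br (nat_lit 1) (.cons (.br (nat_lit 3)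 (.cons (.rel (nat_lit 285245760)) (.cons (.rel (nat_lit 285213960)) .nil))) .nil)) .leaf) (nat_lit 24378595156435574) (.br (nat_lit 0) (.cons (.br (nat_lit 3) (.cons (.rel (nat_lit 541065297)) .nil)) .nil)) .leaf)))))

/-- refutations 58 -/
def e58 : EX := (.node (.node (.node (.node .leaf (nat_lit 24752681063150198) (.br (nat_lit 2) (.cons (.br (nat_lit 4) (.cons (.rel (nat_lit 2281702404)) .nil)) .nil)) .leaf) (nat_lit 24752681063150199) (.br (nat_lit 0) (.cons (.br (nat_lit 1) (.cons (.rel (nat_lit 21012744)) .nil)) .nil)) (.node .leaf (nat_lit 24757672682231834) (.br (nat_lit 3) (.cons (.br (nat_lit 4) (.cons (.rel (nat_lit 1342247040)) .nil)) .nil)) .leaf)) (nat_lit 24763243977562872) (.br (nat_lit 2) (.cons (.br (nat_lit 3) (.cons (.rel (nat_lit 336069120)) .nil)) .nil)) (.node (.node .leaf (nat_lit 24763243979860645) (.br (nat_lit 1) (.cons (.br (nat_lit 2) (.cons (.rel (nat_lit 83906820)) .nil)) .nil)) .leaf) (nat_lit 24763243980167325) (.br (nat_lit 1) (.cons (.br (nat_lit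 2) (.cons (.rel (nat_lit 84295680)) .nil)) .nil)) (.node .leaf (nat_lit 24763243980429338) (.br (nat_lit 2) (.cons (.br (nat_lit 0) (.cons (.rel (nat_lit 71373057)) (.cons (.rel (nat_lit 71311632)) .nil))) .nil)) .leaf))) (nat_lit 24765143281573914) (.br (nat_lit 0) (.cons (.br (nat_lit 2) (.cons (.rel (nat_lit 71602176)) .nil)) .nil)) (.node (.node (.node .leaf (nat_lit 24765366178214520) (.br (nat_lit 0) (.cons (.br (nat_lit 1) (.cons (.rel (nat_lit 21364737)) .nil)) .nil)) .leaf) (nat_lit 24765366179483648) (.br (nat_lit 1) (.cons (.br (nat_lit 3) (.cons (.rel (nat_lit 285245760)) .nil)) .nil)) (.node .leaf (nat_lit 24765366180507823) (.br (nat_lit 0) (.cons (.br (nat_lit 1) (.cons (.rel (nat_lit 23085072)) .nil)) .nil)) .leaf)) (nat_lit 24765366180508278) (.br (nat_lit 5) (.cons (.br (nat_lit 1) (.cons (.rel (nat_lit 4311745857)) (.cons (.rel (nat_lit 4311745857)) .nil))) .nil)) (.node (.node .leaf (nat_lit 24765366180550813) (.br (nat_lit 1) (.cons (.br (nat_lit 6) (.cons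 (.rel (nat_lit 17197039632)) .nil)) .nil)) .leaf) (nat_lit 24765368302838536) (.br (nat_lit 1) (.cons (.br (nat_lit 3) (.cons (.rel (nat_lit 571540608)) .nil)) .nil)) .leaf)))

/-- refutations 59 -/
def e59 : EX := (.node (.node (.node (.node (.node (.node .leaf (nat_lit 24824173438700922) (.br (nat_lit 3) (.cons (.br (nat_lit 4) (.cons (.rel (nat_lit 1342193670)) .nil)) .nil)) .leaf) (nat_lit 24824178111155578) (.br (nat_lit 2) (.cons (.br (nat_lit 3) (.cons (.rel (nat_lit 402653250)) .nil)) .nil)) .leaf) (nat_lit 24824940516081664) (.br (nat_lit 0) (.cons (.br (nat_lit 6) (.cons (.rel (nat_lit 34363932705)) .nil)) .nil)) (.node .leaf (nat_lit 24824940518395904) (.br (nat_lit 0) (.cons (.br (nat_lit 4) (.cons (.rel (nat_lit 2155876368)) (.cons (.rel (nat_lit 1077941316)) (.cons (.rel (nat_lit 1077941316)) .nil)))) (.cons (.br (nat_lit 4) (.cons (.rel (nat_lit 1077936261)) (.cons (.rel (nat_lit 2151678336)) (.cons (.rel (nat_lit 1082131008)) .nil)))) .nil))) .leaf)) (nat_lit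 24824940518397306) (.br (nat_lit 0) (.cons (.br (nat_lit 6) (.cons (.rel (nat_lit 17184064833)) .nil)) .nil)) (.node (.node .leaf (nat_lit 24829235112399133) (.br (nat_lit 0) (.cons (.br (nat_lit 3) (.cons (.rel (nat_lit 546439236)) .nil)) .nil)) .leaf) (nat_lit 24829237582843956) (.br (nat_lit 0) (.cons (.br (nat_lit 1) (.cons (.rel (nat_lit 20971872)) .nil)) .nil)) (.node .leaf (nat_lit 24829237582844189) (.br (nat_lit 0) (.cons (.br (nat_lit 1) (.cons (.rel (nat_lit 37749762)) (.cons (.rel (nat_lit 20971872)) .nil))) (.cons (.br (nat_lit 1) (.cons (.rel (nat_lit 21364737)) (.cons (.rel (nat_lit 25170048)) .nil))) .nil))) .leaf))) (nat_lit 24830581528830237) (.br (nat_lit 2) (.cons (.br (nat_lit 4) (.cons (.rel (nat_lit 1140852744)) .nil)) .nil)) (.node (.node (.node (.node .leaf (nat_lit 24830586202575133) (.br (nat_lit 3) (.cons (.br (nat_lit 6) (.cons (.rel (nat_lit 17448329472)) (.cons (.rel (nat_lit 34897667136)) .nil))) .nil)) .leaf) (nat_lit 24830586202576250) (.br (nat_lit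 2) (.cons (.br (nat_lit 4) (.cons (.rel (nat_lit 1140851730)) .nil)) .nil)) .leaf) (nat_lit 24830586858315802) (.br (nat_lit 2) (.cons (.br (nat_lit 3) (.cons (.rel (nat_lit 336069120)) (.cons (.rel (nat_lit 336069120)) .nil))) (.cons (.br (nat_lit 3) (.cons (.rel (nat_lit 603979905)) (.cons (.rel (nat_lit 335810625)) .nil))) .nil))) (.node .leaf (nat_lit 24830586858366977) (.br (nat_lit 0) (.cons (.br (nat_lit 2) (.cons (.rel (nat_lit 71311632)) .nil)) .nil)) .leaf)) (nat_lit 24830586859790467) (.br (nat_lit 2) (.cons (.br (nat_lit 4) (.cons (.rel (nat_lit 1140851730)) .nil)) .nil)) (.node (.node .leaf (nat_lit 24830586861080576) (.br (nat_lit 3) (.cons (.br (nat_lit 4) (.cons (.rel (nat_lit 1342178385)) .nil)) .nil)) .leaf) (nat_lit 24830586861081232) (.br (nat_lit 4) (.cons (.br (nat_lit 6) (.cons (.rel (nat_lit 18253611156)) .nil)) .nil)) (.node .leaf (nat_lit 24833536366957356) (.br (nat_lit 0) (.cons (.br (nat_lit 5) (.cons (.rel (nat_lit 8594149440)) .nil)) .nil)) .leaf))))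 (nat_lit 24833742623735860) (.br (nat_lit 0) (.cons (.br (nat_lit 3) (.cons (.rel (nat_lit 272909316)) .nil)) .nil)) (.node (.node (.node (.node (.node .leaf (nat_lit 24833742623736093) (.br (nat_lit 0) (.cons (.br (nat_lit 3) (.cons (.rel (nat_lit 272631057)) .nil)) .nil)) .leaf) (nat_lit 24833742623736438) (.br (nat_lit 0) (.cons (.br (nat_lit 1) (.cons (.rel (nat_lit 20971872)) .nil)) .nil)) .leaf) (nat_lit 24833742624494328) (.br (nat_lit 0) (.cons (.br (nat_lit 2) (.cons (.rel (nat_lit 71319876)) .nil)) .nil)) (.node .leaf (nat_lit 24833742624544768) (.br (nat_lit 0) (.cons (.br (nat_lit 2) (.cons (.rel (nat_lit 71319876)) (.cons (.rel (nat_lit 138412176)) .nil))) .nil)) .leaf)) (nat_lit 24833742624597278) (.br (nat_lit 1) (.cons (.br (nat_lit 2) (.cons (.rel (nat_lit 150999120)) .nil)) .nil)) (.node (.node .leaf (nat_lit 24833742625128710) (.br (nat_lit 2) (.cons (.br (nat_lit 6) (.cons (.rel (nat_lit 17247047952)) .nil)) .nil)) .leaf) (nat_lit 24833742625835008) (.br (nat_lit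 4) (.cons (.br (nat_lit 3) (.cons (.rel (nat_lit 1342218240)) (.cons (.rel (nat_lit 2684375040)) .nil))) .nil)) (.node .leaf (nat_lit 24833742625835664) (.br (nat_lit 3) (.cons (.br (nat_lit 4) (.cons (.rel (nat_lit 1342247040)) .nil)) .nil)) .leaf))) (nat_lit 24833742625835934) (.br (nat_lit 3) (.cons (.br (nat_lit 4) (.cons (.rel (nat_lit 1342701840)) .nil)) .nil)) (.node (.node (.node .leaf (nat_lit 24833742626103322) (.br (nat_lit 2) (.cons (.br (nat_lit 0) (.cons (.rel (nat_lit 71319876)) (.cons (.rel (nat_lit 71337216)) .nil))) .nil)) .leaf) (nat_lit 24833742626103348) (.br (nat_lit 0) (.cons (.br (nat_lit 3) (.cons (.rel (nat_lit 272699712)) .nil)) .nil)) (.node .leaf (nat_lit 24833742626150400) (.br (nat_lit 2) (.cons (.br (nat_lit 0) (.cons (.rel (nat_lit 72876096)) (.cons (.rel (nat_lit 75501573)) .nil))) .nil)) .leaf)) (nat_lit 24833744088818571) (.br (nat_lit 2) (.cons (.br (nat_lit 4) (.cons (.rel (nat_lit 1140925440)) .nil)) .nil)) (.node (.node .leaf (nat_lit 24833744089901056)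 (.br (nat_lit 3) (.cons (.br (nat_lit 5) (.cons (.rel (nat_lit 4563681282)) .nil)) .nil)) .leaf) (nat_lit 24833745200126079) (.br (nat_lit 0) (.cons (.br (nat_lit 1) (.cons (.rel (nat_lit 20975877)) .nil)) .nil)) (.node .leaf (nat_lit 24835995281871110) (.br (nat_lit 2) (.cons (.br (nat_lit 3) (.cons (.rel (nat_lit 335550720)) .nil)) .nil)) .leaf)))))

/-- refutations 60 -/
def e60 : EX := (.node (.node .leaf (nat_lit 25093982844150390) (.br (nat_lit 2) (.cons (.br (nat_lit 6) (.cons (.rel (nat_lit 17314091076)) .nil)) .nil)) .leaf) (nat_lit 25094022754842755) (.br (nat_lit 0) (.cons (.br (nat_lit 1) (.cons (.rel (nat_lit 25170048)) .nil)) .nil)) (.node .leaf (nat_lit 25098786584716816) (.br (nat_lit 1) (.cons (.br (nat_lit 2) (.cons (.rel (nat_lit 83919105)) .nil)) .nil)) .leaf))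

/-- refutations 61 -/
def e61 : EX := (.node (.node (.node (.node .leaf (nat_lit 25245276813942810) (.br (nat_lit 0) (.cons (.br (nat_lit 2) (.cons (.rel (nat_lit 71337216)) .nil)) .nil)) .leaf) (nat_lit 25246981235207579) (.br (nat_lit 2) (.cons (.br (nat_lit 3) (.cons (.rel (nat_lit 335544660)) .nil)) .nil)) .leaf) (nat_lit 25255957716856219) (.br (nat_lit 0) (.cons (.br (nat_lit 1) (.cons (.rel (nat_lit 37756992)) .nil)) .nil)) (.node (.node .leaf (nat_lit 25257087974344966) (.br (nat_lit 2) (.cons (.br (nat_lit 0) (.cons (.rel (nat_lit 73531392)) (.cons (.rel (nat_lit 138412176)) (.cons (.rel (nat_lit 71319876)) .nil)))) (.cons (.br (nat_lit 0) (.cons (.rel (nat_lit 71311632)) (.cons (.rel (nat_lit 71337216)) (.cons (.rel (nat_lit 71319876)) .nil)))) .nil))) .leaf) (nat_lit 25257088418603059) (.br (nat_lit 2) (.cons (.br (nat_lit 3) (.cons (.rel (nat_lit 402653250)) .nil)) .nil)) .leaf)) (nat_lit 25257767459981443) (.br (nat_lit 0) (.cons (.br (nat_lit 2) (.cons (.rel (nat_lit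 71311632)) .nil)) .nil)) (.node (.node (.node .leaf (nat_lit 25258188572194997) (.br (nat_lit 3) (.cons (.br (nat_lit 2) (.cons (.rel (nat_lit 671351040)) (.cons (.rel (nat_lit 336069120)) .nil))) .nil)) .leaf) (nat_lit 25258188572195576) (.br (nat_lit 1) (.cons (.br (nat_lit 5) (.cons (.rel (nat_lit 4312015872)) .nil)) .nil)) .leaf) (nat_lit 25258188572297976) (.br (nat_lit 0) (.cons (.br (nat_lit 1) (.cons (.rel (nat_lit 23068737)) .nil)) .nil)) (.node (.node .leaf (nat_lit 25258188573728768) (.br (nat_lit 0) (.cons (.br (nat_lit 2) (.cons (.rel (nat_lit 71311632)) .nil)) .nil)) .leaf) (nat_lit 25258188573793193) (.br (nat_lit 0) (.cons (.br (nat_lit 4) (.cons (.rel (nat_lit 2151941121)) .nil)) .nil)) .leaf)))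

/-- refutations 62 -/
def e62 : EX := (.node (.node (.node (.node (.node (.node .leaf (nat_lit 26423944484771104) (.br (nat_lit 0) (.cons (.br (nat_lit 6) (.cons (.rel (nat_lit 17186177028)) .nil)) .nil)) .leaf) (nat_lit 26424632764655901) (.br (nat_lit 0) (.cons (.br (nat_lit 2) (.cons (.rel (nat_lit 71311632)) .nil)) .nil)) (.node .leaf (nat_lit 26425070852527392) (.br (nat_lit 0) (.cons (.br (nat_lit 2) (.cons (.rel (nat_lit 71319876)) .nil)) .nil)) .leaf)) (nat_lit 26428926645573632) (.br (nat_lit 0) (.cons (.br (nat_lit 6) (.cons (.rel (nat_lit 17184063828)) .nil)) .nil)) (.node (.node .leaf (nat_lit 26428926645573659) (.br (nat_lit 0) (.cons (.br (nat_lit 4) (.cons (.rel (nat_lit 1078001736)) .nil)) .nil)) .leaf) (nat_lit 26428926645573684) (.br (nat_lit 0) (.cons (.br (nat_lit 6) (.cons (.rel (nat_lit 17184069888)) .nil)) .nil)) .leaf)) (nat_lit 26428926645626880) (.br (nat_lit 0) (.cons (.br (nat_lit 6) (.cons (.rel (nat_lit 17184069888)) (.cons (.rel (nat_lit 34368389376))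 .nil))) .nil)) (.node (.node (.node .leaf (nat_lit 26428926645626906) (.br (nat_lit 3) (.cons (.br (nat_lit 6) (.cons (.rel (nat_lit 17716744197)) (.cons (.rel (nat_lit 17448304902)) .nil))) .nil)) .leaf) (nat_lit 26428926646781978) (.br (nat_lit 0) (.cons (.br (nat_lit 3) (.cons (.rel (nat_lit 541070352)) .nil)) .nil)) .leaf) (nat_lit 26428926647164406) (.br (nat_lit 0) (.cons (.br (nat_lit 1) (.cons (.rel (nat_lit 20988162)) .nil)) .nil)) (.node (.node .leaf (nat_lit 26429132804003892) (.br (nat_lit 1) (.cons (.br (nat_lit 2) (.cons (.rel (nat_lit 84295680)) (.cons (.rel (nat_lit 84148260)) (.cons (.rel (nat_lit 83886480)) .nil)))) .nil)) .leaf) (nat_lit 26429132804004472) (.br (nat_lit 0) (.cons (.br (nat_lit 2) (.cons (.rel (nat_lit 71337216)) .nil)) .nil)) .leaf))) (nat_lit 26429132804055040) (.br (nat_lit 0) (.cons (.br (nat_lit 2) (.cons (.rel (nat_lit 73531392)) .nil)) .nil)) (.node (.node (.node (.node .leaf (nat_lit 26429132804057088) (.br (nat_lit 3) (.cons (.br (nat_lit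 6) (.cons (.rel (nat_lit 34629485568)) (.cons (.rel (nat_lit 17448329472)) .nil))) (.cons (.br (nat_lit 5) (.cons (.rel (nat_lit 4831838277)) (.cons (.rel (nat_lit 8858501124)) .nil))) .nil))) .leaf) (nat_lit 26429132804057114) (.br (nat_lit 6) (.cons (.br (nat_lit 3) (.cons (.rel (nat_lit 17716744197)) (.cons (.br (nat_lit 4) (.cons (.rel (nat_lit 18522046977)) (.cons (.rel (nat_lit 36507226113)) (.cons (.rel (nat_lit 18253611156)) (.cons (.rel (nat_lit 36507226113)) .nil))))) .nil))) .nil)) .leaf) (nat_lit 26429132804057115) (.br (nat_lit 0) (.cons (.br (nat_lit 1) (.cons (.rel (nat_lit 23073792)) .nil)) .nil)) (.node (.node .leaf (nat_lit 26429132804057373) (.br (nat_lit 0) (.cons (.br (nat_lit 6) (.cons (.rel (nat_lit 17184064833)) (.cons (.rel (nat_lit 17184081168)) .nil))) .nil)) .leaf) (nat_lit 26429132804058349) (.br (nat_lit 0) (.cons (.br (nat_lit 5) (.cons (.rel (nat_lit 4303355940)) .nil)) .nil)) .leaf)) (nat_lit 26429132804556957) (.br (nat_lit 3) (.cons (.br (nat_lit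 2) (.cons (.rel (nat_lit 336069120)) (.cons (.rel (nat_lit 336069120)) .nil))) .nil)) (.node (.node (.node .leaf (nat_lit 26429133890882467) (.br (nat_lit 0) (.cons (.br (nat_lit 1) (.cons (.rel (nat_lit 37834752)) .nil)) .nil)) .leaf) (nat_lit 26429133891905562) (.br (nat_lit 0) (.cons (.br (nat_lit 3) (.cons (.rel (nat_lit 272896017)) .nil)) .nil)) .leaf) (nat_lit 26429135651989556) (.br (nat_lit 0) (.cons (.br (nat_lit 1) (.cons (.rel (nat_lit 43057221)) .nil)) .nil)) (.node (.node .leaf (nat_lit 26429135651989789) (.br (nat_lit 0) (.cons (.br (nat_lit 5) (.cons (.rel (nat_lit 4301262864)) (.cons (.rel (nat_lit 4299165954)) .nil))) (.cons (.br (nat_lit 5) (.cons (.rel (nat_lit 4299440208)) (.cons (.rel (nat_lit 4299163968)) .nil))) .nil))) .leaf) (nat_lit 26436442838341658) (.br (nat_lit 6) (.cons (.br (nat_lit 1) (.cons (.rel (nat_lit 17196916737)) (.cons (.rel (nat_lit 17198743632)) .nil))) .nil)) .leaf)))) (nat_lit 26436442838341684) (.br (nat_lit 2) (.cons (.br (nat_lit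 3) (.cons (.rel (nat_lit 335544660)) .nil)) .nil)) (.node (.node (.node (.node (.node .leaf (nat_lit 26436442838394880) (.br (nat_lit 2) (.cons (.br (nat_lit 6) (.cons (.rel (nat_lit 17247241221)) (.cons (.rel (nat_lit 17314108416)) .nil))) (.cons (.br (nat_lit 6) (.cons (.rel (nat_lit 17314103361)) (.cons (.rel (nat_lit 17247240216)) .nil))) .nil))) .leaf) (nat_lit 26436442838394906) (.br (nat_lit 2) (.cons (.br (nat_lit 0) (.cons (.rel (nat_lit 71311632)) (.cons (.rel (nat_lit 71630976)) (.cons (.rel (nat_lit 71311632)) .nil)))) .nil)) .leaf) (nat_lit 26436442838394932) (.br (nat_lit 3) (.cons (.br (nat_lit 0) (.cons (.rel (nat_lit 272891976)) (.cons (.rel (nat_lit 274726917)) .nil))) .nil)) (.node (.node .leaf (nat_lit 26436442839602464) (.br (nat_lit 0) (.cons (.br (nat_lit 3) (.cons (.rel (nat_lit 272777472)) (.cons (.rel (nat_lit 541130772)) .nil))) (.cons (.br (nat_lit 2) (.cons (.rel (nat_lit 71565321)) (.cons (.rel (nat_lit 71602176)) .nil))) .nil))) .leaf) (nat_lit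 26436442839932406) (.br (nat_lit 1) (.cons (.br (nat_lit 0) (.cons (.rel (nat_lit 20975877)) (.cons (.rel (nat_lit 23068737)) .nil))) .nil)) .leaf)) (nat_lit 26436442934810650) (.br (nat_lit 2) (.cons (.br (nat_lit 3) (.cons (.rel (nat_lit 335815680)) .nil)) .nil)) (.node (.node (.node .leaf (nat_lit 26436442934810676) (.br (nat_lit 1) (.cons (.br (nat_lit 2) (.cons (.rel (nat_lit 84295680)) .nil)) .nil)) .leaf) (nat_lit 26436442934863924) (.br (nat_lit 3) (.cons (.br (nat_lit 6) (.cons (.rel (nat_lit 17716744197)) .nil)) .nil)) .leaf) (nat_lit 26436442936387610) (.br (nat_lit 1) (.cons (.br (nat_lit 4) (.cons (.rel (nat_lit 1090535490)) .nil)) .nil)) (.node (.node .leaf (nat_lit 26436444136226029) (.br (nat_lit 1) (.cons (.br (nat_lit 2) (.cons (.rel (nat_lit 83886480)) .nil)) .nil)) .leaf) (nat_lit 26436446022371354) (.br (nat_lit 0) (.cons (.br (nat_lit 1) (.cons (.rel (nat_lit 20971872)) .nil)) .nil)) .leaf))) (nat_lit 26436446023395354) (.br (nat_lit 1) (.cons (.br (nat_lit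 2) (.cons (.rel (nat_lit 100668420)) .nil)) .nil)) (.node (.node (.node (.node .leaf (nat_lit 26436446023395360) (.br (nat_lit 0) (.cons (.br (nat_lit 1) (.cons (.rel (nat_lit 21233796)) .nil)) .nil)) .leaf) (nat_lit 26436446711261210) (.br (nat_lit 0) (.cons (.br (nat_lit 1) (.cons (.rel (nat_lit 23134212)) .nil)) .nil)) .leaf) (nat_lit 26436863745189888) (.br (nat_lit 6) (.cons (.br (nat_lit 2) (.cons (.rel (nat_lit 17247260736)) (.cons (.rel (nat_lit 17249083392)) .nil))) .nil)) (.node (.node .leaf (nat_lit 26436863745189914) (.br (nat_lit 6) (.cons (.br (nat_lit 1) (.cons (.rel (nat_lit 17198743632)) (.cons (.rel (nat_lit 17198743632)) .nil))) .nil)) .leaf) (nat_lit 26436863745189940) (.br (nat_lit 2) (.cons (.br (nat_lit 3) (.cons (.rel (nat_lit 335876100)) .nil)) .nil)) .leaf)) (nat_lit 26436863745689757) (.br (nat_lit 0) (.cons (.br (nat_lit 3) (.cons (.br (nat_lit 2) (.cons (.rel (nat_lit 138444801)) (.cons (.rel (nat_lit 75513858)) (.cons (.rel (nat_lit 336069120)) .nil))))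 .nil)) .nil)) (.node (.node (.node .leaf (nat_lit 26436863746345117) (.br (nat_lit 1) (.cons (.br (nat_lit 4) (.cons (.rel (nat_lit 2181104640)) .nil)) .nil)) .leaf) (nat_lit 26436863950710784) (.br (nat_lit 3) (.cons (.br (nat_lit 0) (.cons (.rel (nat_lit 272631057)) (.cons (.rel (nat_lit 541070352)) (.cons (.rel (nat_lit 274726917)) .nil)))) (.cons (.br (nat_lit 6) (.cons (.rel (nat_lit 17448585216)) (.cons (.rel (nat_lit 34628194308)) .nil))) .nil))) .leaf) (nat_lit 26436863950710810) (.br (nat_lit 6) (.cons (.br (nat_lit 1) (.cons (.rel (nat_lit 17198743632)) (.cons (.rel (nat_lit 17196646722)) .nil))) .nil)) (.node (.node .leaf (nat_lit 26436864835708954) (.br (nat_lit 0) (.cons (.br (nat_lit 1) (.cons (.rel (nat_lit 23134212)) .nil)) .nil)) .leaf) (nat_lit 26436864836208667) (.br (nat_lit 1) (.cons (.br (nat_lit 2) (.cons (.rel (nat_lit 151060545)) .nil)) .nil)) .leaf)))))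

/-- refutations 63 -/
def e63 : EX := (.node (.node (.node .leaf (nat_lit 26482989012086171) (.br (nat_lit 0) (.cons (.br (nat_lit 1) (.cons (.rel (nat_lit 25167873)) .nil)) .nil)) .leaf) (nat_lit 26487021422086950) (.br (nat_lit 1) (.cons (.br (nat_lit 2) (.cons (.rel (nat_lit 85198080)) .nil)) .nil)) (.node .leaf (nat_lit 26487021422342301) (.br (nat_lit 3) (.cons (.br (nat_lit 4) (.cons (.rel (nat_lit 1342177380)) .nil)) .nil)) .leaf)) (nat_lit 26488146216885131) (.br (nat_lit 0) (.cons (.br (nat_lit 1) (.cons (.rel (nat_lit 20975877)) .nil)) .nil)) (.node (.node .leaf (nat_lit 26488146218473603) (.br (nat_lit 0) (.cons (.br (nat_lit 3) (.cons (.rel (nat_lit 541065297)) .nil)) .nil)) .leaf) (nat_lit 26488146219432712) (.br (nat_lit 1) (.cons (.br (nat_lit 2) (.cons (.rel (nat_lit 100663365)) .nil)) .nil)) .leaf))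

/-- refutations 64 -/
def e64 : EX := (.node (.node (.node (.node (.node .leaf (nat_lit 26863546745174277) (.br (nat_lit 0) (.cons (.br (nat_lit 1) (.cons (.rel (nat_lit 21038352)) .nil)) .nil)) .leaf) (nat_lit 26865633075869827) (.br (nat_lit 5) (.cons (.br (nat_lit 3) (.cons (.rel (nat_lit 9127855104)) (.cons (.rel (nat_lit 4563731472)) .nil))) .nil)) (.node .leaf (nat_lit 26865633075871201) (.br (nat_lit 0) (.cons (.br (nat_lit 1) (.cons (.rel (nat_lit 20988162)) .nil)) .nil)) .leaf)) (nat_lit 26865638915985434) (.br (nat_lit 0) (.cons (.br (nat_lit 3) (.cons (.rel (nat_lit 272896017)) .nil)) .nil)) (.node (.node .leaf (nat_lit 26865638915986064) (.br (nat_lit 2) (.cons (.br (nat_lit 0) (.cons (.rel (nat_lit 71373057)) (.cons (.rel (nat_lit 71311632)) .nil))) .nil)) .leaf) (nat_lit 26865642692702493) (.br (nat_lit 0) (.cons (.br (nat_lit 3) (.cons (.rel (nat_lit 272630052)) .nil)) .nil)) .leaf)) (nat_lit 26865642693408794) (.br (nat_lit 3) (.cons (.br (nat_lit 0) (.cons (.rel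 (nat_lit 272777472)) (.cons (.rel (nat_lit 272957442)) .nil))) .nil)) (.node (.node (.node .leaf (nat_lit 26865642693408899) (.br (nat_lit 6) (.cons (.br (nat_lit 3) (.cons (.rel (nat_lit 34628240448)) (.cons (.rel (nat_lit 34897662081)) (.cons (.rel (nat_lit 17448329472)) .nil)))) .nil)) .leaf) (nat_lit 26865642693409029) (.br (nat_lit 0) (.cons (.br (nat_lit 1) (.cons (.rel (nat_lit 20971872)) .nil)) .nil)) .leaf) (nat_lit 26874223010463201) (.br (nat_lit 0) (.cons (.br (nat_lit 3) (.cons (.rel (nat_lit 276840513)) .nil)) .nil)) (.node (.node .leaf (nat_lit 26874452191427872) (.br (nat_lit 0) (.cons (.br (nat_lit 1) (.cons (.rel (nat_lit 23134212)) (.cons (.rel (nat_lit 21233796)) .nil))) (.cons (.br (nat_lit 3) (.cons (.rel (nat_lit 273679872)) (.cons (.rel (nat_lit 272697729)) .nil))) .nil))) .leaf) (nat_lit 26874453386803226) (.br (nat_lit 3) (.cons (.br (nat_lit 4) (.cons (.rel (nat_lit 1342181385)) .nil)) .nil)) .leaf))) (nat_lit 26875562949681204) (.br (nat_lit 0) (.cons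 (.br (nat_lit 3) (.cons (.rel (nat_lit 541065297)) .nil)) .nil)) (.node (.node (.node (.node .leaf (nat_lit 26875563038312448) (.br (nat_lit 0) (.cons (.br (nat_lit 3) (.cons (.rel (nat_lit 276856848)) .nil)) .nil)) .leaf) (nat_lit 26875563038313979) (.br (nat_lit 0) (.cons (.br (nat_lit 6) (.cons (.rel (nat_lit 17184063828)) .nil)) .nil)) (.node .leaf (nat_lit 26875563039500419) (.br (nat_lit 0) (.cons (.br (nat_lit 1) (.cons (.rel (nat_lit 21038352)) .nil)) .nil)) .leaf)) (nat_lit 26875563040258729) (.br (nat_lit 0) (.cons (.br (nat_lit 2) (.cons (.rel (nat_lit 71630976)) .nil)) .nil)) (.node (.node .leaf (nat_lit 26875563041955892) (.br (nat_lit 0) (.cons (.br (nat_lit 3) (.cons (.rel (nat_lit 272631057)) .nil)) .nil)) .leaf) (nat_lit 26875563042506778) (.br (nat_lit 3) (.cons (.br (nat_lit 4) (.cons (.rel (nat_lit 1342177380)) .nil)) .nil)) .leaf)) (nat_lit 26875563043264538) (.br (nat_lit 0) (.cons (.br (nat_lit 3) (.cons (.rel (nat_lit 272891976)) .nil)) .nil)) (.node (.node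 (.node .leaf (nat_lit 26875563043479578) (.br (nat_lit 0) (.cons (.br (nat_lit 6) (.cons (.rel (nat_lit 17184346128)) .nil)) .nil)) .leaf) (nat_lit 26875563044452352) (.br (nat_lit 2) (.cons (.br (nat_lit 3) (.cons (.rel (nat_lit 336069120)) (.cons (.rel (nat_lit 337657860)) .nil))) (.cons (.br (nat_lit 3) (.cons (.rel (nat_lit 336069120)) (.cons (.rel (nat_lit 336069120)) .nil))) .nil))) .leaf) (nat_lit 26875563044452982) (.br (nat_lit 0) (.cons (.br (nat_lit 2) (.cons (.rel (nat_lit 75501573)) .nil)) .nil)) (.node (.node .leaf (nat_lit 26875563044821254) (.br (nat_lit 2) (.cons (.br (nat_lit 3) (.cons (.rel (nat_lit 335550720)) .nil)) .nil)) .leaf) (nat_lit 26876689349294211) (.br (nat_lit 4) (.cons (.br (nat_lit 6) (.cons (.rel (nat_lit 18254135616)) .nil)) .nil)) .leaf))))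

/-- refutations 65 -/
def e65 : EX := (.node (.node (.node (.node (.node (.node .leaf (nat_lit 27004225821618438) (.br (nat_lit 0) (.cons (.br (nat_lit 1) (.cons (.rel (nat_lit 20988162)) .nil)) .nil)) .leaf) (nat_lit 27005615302247326) (.br (nat_lit 0) (.cons (.br (nat_lit 2) (.cons (.rel (nat_lit 75514920)) .nil)) .nil)) .leaf) (nat_lit 27005615302348976) (.br (nat_lit 2) (.cons (.br (nat_lit 3) (.cons (.rel (nat_lit 335826960)) .nil)) .nil)) (.node .leaf (nat_lit 27005615303374848) (.br (nat_lit 2) (.cons (.br (nat_lit 0) (.cons (.rel (nat_lit 71567376)) (.cons (.rel (nat_lit 75497568)) .nil))) .nil)) .leaf)) (nat_lit 27009892833923072) (.br (nat_lit 1) (.cons (.br (nat_lit 5) (.cons (.rel (nat_lit 8606842944)) .nil)) .nil)) (.node (.node (.node .leaf (nat_lit 27010758028522377) (.br (nat_lit 0) (.cons (.br (nat_lit 1) (.cons (.rel (nat_lit 25166868)) .nil)) .nil)) .leaf) (nat_lit 27010758028522747) (.br (nat_lit 1) (.cons (.br (nat_lit 6) (.cons (.rel (nat_lit 17196712197))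 .nil)) .nil)) .leaf) (nat_lit 27010763186584229) (.br (nat_lit 1) (.cons (.br (nat_lit 5) (.cons (.rel (nat_lit 4311762192)) .nil)) .nil)) (.node .leaf (nat_lit 27015044278763677) (.br (nat_lit 0) (.cons (.br (nat_lit 3) (.cons (.rel (nat_lit 272630052)) .nil)) .nil)) .leaf))) (nat_lit 27015044280653850) (.br (nat_lit 0) (.cons (.br (nat_lit 4) (.cons (.rel (nat_lit 1078477056)) .nil)) .nil)) (.node (.node (.node (.node .leaf (nat_lit 27016032248658680) (.br (nat_lit 0) (.cons (.br (nat_lit 3) (.cons (.rel (nat_lit 541130772)) .nil)) .nil)) .leaf) (nat_lit 27016040225954422) (.br (nat_lit 1) (.cons (.br (nat_lit 5) (.cons (.rel (nat_lit 4311744852)) .nil)) .nil)) .leaf) (nat_lit 27016040225955327) (.br (nat_lit 0) (.cons (.br (nat_lit 1) (.cons (.rel (nat_lit 20975877)) .nil)) .nil)) (.node .leaf (nat_lit 27016040226265245) (.br (nat_lit 1) (.cons (.br (nat_lit 2) (.cons (.rel (nat_lit 85999680)) .nil)) .nil)) .leaf)) (nat_lit 27016040226488950) (.br (nat_lit 1) (.cons (.br (nat_lit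 2) (.cons (.rel (nat_lit 83906820)) .nil)) .nil)) (.node (.node .leaf (nat_lit 27017166117709824) (.br (nat_lit 6) (.cons (.br (nat_lit 2) (.cons (.rel (nat_lit 17247260736)) (.cons (.rel (nat_lit 34494218640)) .nil))) .nil)) .leaf) (nat_lit 27017166117710729) (.br (nat_lit 2) (.cons (.br (nat_lit 0) (.cons (.rel (nat_lit 143720448)) (.cons (.rel (nat_lit 143657040)) (.cons (.rel (nat_lit 71567376)) .nil)))) .nil)) (.node .leaf (nat_lit 27017166117769891) (.br (nat_lit 0) (.cons (.br (nat_lit 2) (.cons (.rel (nat_lit 73531392)) .nil)) .nil)) .leaf)))) (nat_lit 27017166118796769) (.br (nat_lit 0) (.cons (.br (nat_lit 1) (.cons (.rel (nat_lit 23068737)) .nil)) .nil)) (.node (.node (.node (.node (.node .leaf (nat_lit 27017166119039002) (.br (nat_lit 0) (.cons (.br (nat_lit 2) (.cons (.rel (nat_lit 71311632)) .nil)) .nil)) .leaf) (nat_lit 27017166119060762) (.br (nat_lit 0) (.cons (.br (nat_lit 2) (.cons (.rel (nat_lit 143720448)) .nil)) .nil)) .leaf) (nat_lit 27017166119727779)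 (.br (nat_lit 3) (.cons (.br (nat_lit 0) (.cons (.rel (nat_lit 276840513)) (.cons (.rel (nat_lit 541065297)) (.cons (.rel (nat_lit 276828228)) .nil)))) (.cons (.br (nat_lit 0) (.cons (.rel (nat_lit 541065297)) (.cons (.rel (nat_lit 542114112)) (.cons (.rel (nat_lit 541070352)) .nil)))) .nil))) (.node .leaf (nat_lit 27017166119728009) (.br (nat_lit 2) (.cons (.br (nat_lit 4) (.cons (.rel (nat_lit 1207960080)) (.cons (.rel (nat_lit 2214854724)) .nil))) (.cons (.br (nat_lit 4) (.cons (.rel (nat_lit 1140850725)) (.cons (.rel (nat_lit 1140851730)) .nil))) .nil))) .leaf)) (nat_lit 27017166119728041) (.br (nat_lit 1) (.cons (.br (nat_lit 2) (.cons (.rel (nat_lit 100680705)) (.cons (.rel (nat_lit 83919105)) .nil))) (.cons (.br (nat_lit 2) (.cons (.rel (nat_lit 83906820)) (.cons (.rel (nat_lit 100668420)) .nil))) .nil))) (.node (.node .leaf (nat_lit 27017166119728609) (.br (nat_lit 0) (.cons (.br (nat_lit 1) (.cons (.rel (nat_lit 23134212)) .nil)) .nil)) .leaf) (nat_lit 27017166119754504)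 (.br (nat_lit 1) (.cons (.br (nat_lit 5) (.cons (.rel (nat_lit 4311745857)) .nil)) .nil)) (.node .leaf (nat_lit 27017166119755280) (.br (nat_lit 1) (.cons (.br (nat_lit 2) (.cons (.rel (nat_lit 100728840)) .nil)) .nil)) .leaf))) (nat_lit 27017166119817976) (.br (nat_lit 1) (.cons (.br (nat_lit 3) (.cons (.rel (nat_lit 553652241)) .nil)) .nil)) (.node (.node (.node (.node .leaf (nat_lit 27017166120024824) (.br (nat_lit 1) (.cons (.br (nat_lit 2) (.cons (.rel (nat_lit 84149265)) (.cons (.br (nat_lit 3) (.cons (.rel (nat_lit 335544660)) (.cons (.rel (nat_lit 571473936)) .nil))) .nil))) (.cons (.br (nat_lit 2) (.cons (.rel (nat_lit 83886480)) (.cons (.rel (nat_lit 83919105)) .nil))) .nil))) .leaf) (nat_lit 27017166120024969) (.br (nat_lit 1) (.cons (.br (nat_lit 2) (.cons (.rel (nat_lit 84148260)) .nil)) .nil)) .leaf) (nat_lit 27017166120082960) (.br (nat_lit 2) (.cons (.br (nat_lit 4) (.cons (.rel (nat_lit 1140850725)) .nil)) .nil)) (.node .leaf (nat_lit 27017166120289161) (.br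 (nat_lit 1) (.cons (.br (nat_lit 3) (.cons (.rel (nat_lit 285213960)) .nil)) .nil)) .leaf)) (nat_lit 27017166120321699) (.br (nat_lit 1) (.cons (.br (nat_lit 3) (.cons (.rel (nat_lit 553648200)) .nil)) .nil)) (.node (.node .leaf (nat_lit 27017166120321830) (.br (nat_lit 1) (.cons (.br (nat_lit 2) (.cons (.rel (nat_lit 83886480)) .nil)) .nil)) .leaf) (nat_lit 27017168508522496) (.br (nat_lit 1) (.cons (.br (nat_lit 3) (.cons (.rel (nat_lit 285478920)) .nil)) .nil)) (.node .leaf (nat_lit 27017170853049756) (.br (nat_lit 2) (.cons (.br (nat_lit 4) (.cons (.rel (nat_lit 1140852744)) .nil)) .nil)) .leaf)))))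

/-- refutations 66 -/
def e66 : EX := (.node (.node (.node (.node (.node (.node .leaf (nat_lit 27303560304233709) (.br (nat_lit 0) (.cons (.br (nat_lit 1) (.cons (.rel (nat_lit 37749762)) .nil)) .nil)) .leaf) (nat_lit 27303560305257709) (.br (nat_lit 0) (.cons (.br (nat_lit 1) (.cons (.rel (nat_lit 37749762)) .nil)) .nil)) .leaf) (nat_lit 27303560306280709) (.br (nat_lit 0) (.cons (.br (nat_lit 1) (.cons (.rel (nat_lit 37749762)) .nil)) .nil)) (.node (.node .leaf (nat_lit 27303560306281709) (.br (nat_lit 0) (.cons (.br (nat_lit 1) (.cons (.rel (nat_lit 25170048)) .nil)) .nil)) .leaf) (nat_lit 27304160991188206) (.br (nat_lit 0) (.cons (.br (nat_lit 1) (.cons (.rel (nat_lit 37749762)) .nil)) .nil)) .leaf)) (nat_lit 27305652578258157) (.br (nat_lit 0) (.cons (.br (nat_lit 1) (.cons (.rel (nat_lit 20988162)) .nil)) .nil)) (.node (.node (.node .leaf (nat_lit 27305652579281157) (.br (nat_lit 0) (.cons (.br (nat_lit 1) (.cons (.rel (nat_lit 20988162)) (.cons (.rel (nat_lit 20988162))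 (.cons (.rel (nat_lit 37749762)) .nil)))) (.cons (.br (nat_lit 2) (.cons (.rel (nat_lit 71373057)) (.cons (.rel (nat_lit 73531392)) .nil))) .nil))) .leaf) (nat_lit 27305652580305157) (.br (nat_lit 6) (.cons (.br (nat_lit 1) (.cons (.rel (nat_lit 17214473472)) (.cons (.rel (nat_lit 17196650772)) .nil))) .nil)) .leaf) (nat_lit 27305652580306157) (.br (nat_lit 1) (.cons (.br (nat_lit 0) (.cons (.rel (nat_lit 20988162)) (.cons (.rel (nat_lit 37756992)) .nil))) .nil)) (.node (.node .leaf (nat_lit 27309951217618157) (.br (nat_lit 0) (.cons (.br (nat_lit 1) (.cons (.rel (nat_lit 21251136)) .nil)) .nil)) .leaf) (nat_lit 27311072826985709) (.br (nat_lit 0) (.cons (.br (nat_lit 1) (.cons (.rel (nat_lit 37749762)) .nil)) .nil)) .leaf))) (nat_lit 27311072827742209) (.br (nat_lit 0) (.cons (.br (nat_lit 1) (.cons (.rel (nat_lit 21364737)) .nil)) .nil)) (.node (.node (.node (.node .leaf (nat_lit 27311072828008709) (.br (nat_lit 0) (.cons (.br (nat_lit 1) (.cons (.rel (nat_lit 20988162)) .nil))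 .nil)) .leaf) (nat_lit 27311072828009709) (.br (nat_lit 1) (.cons (.br (nat_lit 6) (.cons (.rel (nat_lit 17196909696)) .nil)) .nil)) .leaf) (nat_lit 27311076497001709) (.br (nat_lit 0) (.cons (.br (nat_lit 1) (.cons (.rel (nat_lit 37749762)) .nil)) .nil)) (.node (.node .leaf (nat_lit 27311076498024709) (.br (nat_lit 0) (.cons (.br (nat_lit 1) (.cons (.rel (nat_lit 20988162)) .nil)) .nil)) .leaf) (nat_lit 27311076498025709) (.br (nat_lit 1) (.cons (.br (nat_lit 0) (.cons (.rel (nat_lit 37756992)) (.cons (.rel (nat_lit 37749762)) .nil))) .nil)) .leaf)) (nat_lit 27311076499048709) (.br (nat_lit 0) (.cons (.br (nat_lit 1) (.cons (.rel (nat_lit 23073792)) (.cons (.rel (nat_lit 20988162)) .nil))) .nil)) (.node (.node (.node .leaf (nat_lit 27311076499049709) (.br (nat_lit 0) (.cons (.br (nat_lit 1) (.cons (.rel (nat_lit 25167873)) .nil)) .nil)) .leaf) (nat_lit 27314239683741696) (.br (nat_lit 3) (.cons (.br (nat_lit 1) (.cons (.rel (nat_lit 285245760)) (.cons (.rel (nat_lit 553648200))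 .nil))) .nil)) .leaf) (nat_lit 27314240715540480) (.br (nat_lit 2) (.cons (.br (nat_lit 3) (.cons (.rel (nat_lit 671351040)) .nil)) .nil)) (.node (.node .leaf (nat_lit 27314240715540482) (.br (nat_lit 0) (.cons (.br (nat_lit 2) (.cons (.rel (nat_lit 71311632)) .nil)) .nil)) .leaf) (nat_lit 27314240715541387) (.br (nat_lit 0) (.cons (.br (nat_lit 2) (.cons (.rel (nat_lit 71373057)) .nil)) .nil)) .leaf)))) (nat_lit 27314242513873157) (.br (nat_lit 0) (.cons (.br (nat_lit 1) (.cons (.rel (nat_lit 21251136)) (.cons (.rel (nat_lit 20975877)) .nil))) .nil)) (.node (.node (.node (.node (.node .leaf (nat_lit 27314242513874157) (.br (nat_lit 0) (.cons (.br (nat_lit 1) (.cons (.rel (nat_lit 21251136)) .nil)) .nil)) .leaf) (nat_lit 27314242514896896) (.br (nat_lit 2) (.cons (.br (nat_lit 6) (.cons (.rel (nat_lit 17246978436)) .nil)) .nil)) .leaf) (nat_lit 27314242514897157) (.br (nat_lit 0) (.cons (.br (nat_lit 2) (.cons (.rel (nat_lit 75501573)) (.cons (.rel (nat_lit 143720448)) (.cons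 (.rel (nat_lit 71337216)) .nil)))) .nil)) (.node (.node .leaf (nat_lit 27314242514897528) (.br (nat_lit 2) (.cons (.br (nat_lit 5) (.cons (.rel (nat_lit 4362340356)) .nil)) .nil)) .leaf) (nat_lit 27314242514897571) (.br (nat_lit 1) (.cons (.br (nat_lit 2) (.cons (.rel (nat_lit 83919105)) .nil)) .nil)) .leaf)) (nat_lit 27314242514898157) (.br (nat_lit 0) (.cons (.br (nat_lit 1) (.cons (.rel (nat_lit 23068737)) (.cons (.rel (nat_lit 20988162)) (.cons (.rel (nat_lit 20971872)) (.cons (.rel (nat_lit 21251136)) .nil))))) (.cons (.br (nat_lit 1) (.cons (.rel (nat_lit 21251136)) (.cons (.rel (nat_lit 20975877)) (.cons (.rel (nat_lit 25170048)) (.cons (.rel (nat_lit 25166868)) .nil))))) (.cons (.br (nat_lit 1) (.cons (.rel (nat_lit 21251136)) (.cons (.rel (nat_lit 21038352)) (.cons (.rel (nat_lit 21233796)) (.cons (.rel (nat_lit 21251136)) .nil))))) .nil)))) (.node (.node (.node .leaf (nat_lit 27314258140559491) (.br (nat_lit 0) (.cons (.br (nat_lit 1) (.cons (.rel (nat_lit 21251136))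 .nil)) .nil)) .leaf) (nat_lit 27314258140723200) (.br (nat_lit 1) (.cons (.br (nat_lit 3) (.cons (.rel (nat_lit 571473936)) .nil)) .nil)) .leaf) (nat_lit 27314258142816886) (.br (nat_lit 0) (.cons (.br (nat_lit 2) (.cons (.rel (nat_lit 138412176)) .nil)) .nil)) (.node (.node .leaf (nat_lit 27314258143081078) (.br (nat_lit 0) (.cons (.br (nat_lit 1) (.cons (.rel (nat_lit 21233796)) .nil)) .nil)) .leaf) (nat_lit 27314258143375990) (.br (nat_lit 0) (.cons (.br (nat_lit 1) (.cons (.rel (nat_lit 37749762)) .nil)) .nil)) .leaf))) (nat_lit 27315107875310198) (.br (nat_lit 1) (.cons (.br (nat_lit 5) (.cons (.rel (nat_lit 4328521737)) .nil)) .nil)) (.node (.node (.node (.node .leaf (nat_lit 27315958694070298) (.br (nat_lit 0) (.cons (.br (nat_lit 2) (.cons (.rel (nat_lit 71311632)) .nil)) .nil)) .leaf) (nat_lit 27315958694071177) (.br (nat_lit 1) (.cons (.br (nat_lit 5) (.cons (.rel (nat_lit 4311762192)) .nil)) .nil)) .leaf) (nat_lit 27315961339797504) (.br (nat_lit 5) (.cons (.br (nat_lit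 0) (.cons (.rel (nat_lit 4299163968)) (.cons (.rel (nat_lit 4301262864)) .nil))) .nil)) (.node (.node .leaf (nat_lit 27316481846958080) (.br (nat_lit 0) (.cons (.br (nat_lit 3) (.cons (.rel (nat_lit 272891976)) .nil)) .nil)) .leaf) (nat_lit 27316481847294214) (.br (nat_lit 0) (.cons (.br (nat_lit 6) (.cons (.rel (nat_lit 34368389376)) .nil)) .nil)) .leaf)) (nat_lit 27316481848494985) (.br (nat_lit 1) (.cons (.br (nat_lit 5) (.cons (.rel (nat_lit 4328521737)) .nil)) .nil)) (.node (.node (.node .leaf (nat_lit 27316481848800634) (.br (nat_lit 0) (.cons (.br (nat_lit 2) (.cons (.rel (nat_lit 71337216)) .nil)) .nil)) .leaf) (nat_lit 27316481848850694) (.br (nat_lit 0) (.cons (.br (nat_lit 6) (.cons (.rel (nat_lit 34368389376)) .nil)) .nil)) .leaf) (nat_lit 27316482933383299) (.br (nat_lit 2) (.cons (.br (nat_lit 3) (.cons (.rel (nat_lit 336069120)) .nil)) .nil)) (.node (.node .leaf (nat_lit 27316482933884929) (.br (nat_lit 1) (.cons (.br (nat_lit 2) (.cons (.rel (nat_lit 83906820))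 .nil)) .nil)) .leaf) (nat_lit 27316482935933865) (.br (nat_lit 0) (.cons (.br (nat_lit 1) (.cons (.rel (nat_lit 21038352)) .nil)) .nil)) .leaf)))))

/-- refutations 67 -/
def e67 : EX := (.node (.node (.node (.node .leaf (nat_lit 27462735137143671) (.br (nat_lit 0) (.cons (.br (nat_lit 2) (.cons (.rel (nat_lit 72876096)) .nil)) .nil)) .leaf) (nat_lit 27468275125067802) (.br (nat_lit 0) (.cons (.br (nat_lit 2) (.cons (.rel (nat_lit 71602176)) .nil)) .nil)) (.node .leaf (nat_lit 27468275125068433) (.br (nat_lit 0) (.cons (.br (nat_lit 3) (.cons (.rel (nat_lit 272896017)) .nil)) .nil)) .leaf)) (nat_lit 27468280342781978) (.br (nat_lit 0) (.cons (.br (nat_lit 3) (.cons (.rel (nat_lit 276828228)) .nil)) .nil)) (.node (.node .leaf (nat_lit 27472573048270106) (.br (nat_lit 1) (.cons (.br (nat_lit 2) (.cons (.rel (nat_lit 83919105)) .nil)) .nil)) .leaf) (nat_lit 27473697369962496) (.br (nat_lit 2) (.cons (.br (nat_lit 3) (.cons (.rel (nat_lit 402653250)) .nil)) .nil)) .leaf)) (nat_lit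 27473697370284958) (.br (nat_lit 0) (.cons (.br (nat_lit 1) (.cons (.rel (nat_lit 37748757)) .nil)) .nil)) (.node (.node (.node .leaf (nat_lit 27473700589243629) (.br (nat_lit 0) (.cons (.br (nat_lit 1) (.cons (.rel (nat_lit 25170048)) .nil)) .nil)) .leaf) (nat_lit 27473700590430208) (.br (nat_lit 2) (.cons (.br (nat_lit 3) (.cons (.rel (nat_lit 337657860)) .nil)) .nil)) (.node .leaf (nat_lit 27473700591509530) (.br (nat_lit 1) (.cons (.br (nat_lit 6) (.cons (.rel (nat_lit 34376515608)) .nil)) .nil)) .leaf)) (nat_lit 27473700591510161) (.br (nat_lit 2) (.cons (.br (nat_lit 3) (.cons (.rel (nat_lit 671351040)) (.cons (.rel (nat_lit 335810625)) .nil))) .nil)) (.node (.node .leaf (nat_lit 27474565363470362) (.br (nat_lit 1) (.cons (.br (nat_lit 3) (.cons (.rel (nat_lit 285212946)) .nil)) .nil)) .leaf) (nat_lit 27474565364513053) (.br (nat_lit 2) (.cons (.br (nat_lit 3) (.cons (.rel (nat_lit 336069120)) .nil)) .nil)) .leaf)))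

/-- list of the parts -/
def L0 : List (ℕ × List ℕ) := [(nat_lit 0x800000000, [Nat.sub (Nat.pow 2 904) (Nat.pow 2 0), Nat.sub (Nat.pow 2 1565) (Nat.pow 2 904), Nat.sub (Nat.pow 2 3136) (Nat.pow 2 1565)]),
  (nat_lit 0x10000, [cP]),
  (nat_lit 0x80000000000000, [cP]),
  (nat_lit 0x10000000000000000, [cP]),
  (nat_lit 0x400000000000000000000000000000000, [cP]),
  (nat_lit 0x8000000000000000000000000000000000, [cP]),
  (nat_lit 0x10000000000000000000000000000000000, [cP]),
  (nat_lit 0x100000000000000000000000000000000000, [cP]),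
  (nat_lit 0x400000000000000000000000000000000000000, [cP]),
  (nat_lit 0x800000000000000000000000000000000000000, [cP]),
  (nat_lit 0x8000000000000000000000000000000000000000, [cP]),
  (nat_lit 0x800000000000000000000000000000000000000000000, [Nat.sub (Nat.pow 2 304) (Nat.pow 2 0), Nat.sub (Nat.pow 2 935) (Nat.pow 2 304), Nat.sub (Nat.pow 2 1555) (Nat.pow 2 935), Nat.sub (Nat.pow 2 3136) (Nat.pow 2 1555)]),
  (nat_lit 0x200000000000000000000000000000000000000000, [cP]),
  (nat_lit 0x2000000000000000000000000000000000000000000000, [cP]),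
  (nat_lit 0x4000000000000000000000000000000000000000000000000000000000000000000, [cP]),
  (nat_lit 0x8000000000000000000000000000000000000000000000000000000000000000000000, [cP]),
  (nat_lit 0x400000000000000000000000000000000000000000000000000000000000000000000000000000, [Nat.sub (Nat.pow 2 304) (Nat.pow 2 0), Nat.sub (Nat.pow 2 935) (Nat.pow 2 304), Nat.sub (Nat.pow 2 1516) (Nat.pow 2 935), Nat.sub (Nat.pow 2 3136) (Nat.pow 2 1516)]),
  (nat_lit 0x200000000000000000000000000000000000000000000000000000000000000000000000, [cP]),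
  (nat_lit 0x10000000000000000000000000000000000000000000000000000000000000000000000000000000, [cP]),
  (nat_lit 0x40000000000000000000000000000000000000000000000000000000000000000000000000000000000000000000000000000000000000000000000000000000000000000000000000000000000000000000, [Nat.sub (Nat.pow 2 779) (Nat.pow 2 0), Nat.sub (Nat.pow 2 1554) (Nat.pow 2 779), Nat.sub (Nat.pow 2 3136) (Nat.pow 2 1554)]),
  (nat_lit 0x200000000000000000000000000000000000000000000000000000000000000000000000000000000000000000000000000000000000000000000000000000000000000000000000000000000000000000000000000, [Nat.sub (Nat.pow 2 1304) (Nat.pow 2 0), Nat.sub (Nat.pow 2 3136) (Nat.pow 2 1304)]),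
  (nat_lit 0x800000000000000000000000000000000000000000000000000000000000000000000000000000000000000000000000000000000000000000000000000000000000000000000000000000000000000, [cP]),
  (nat_lit 0x40000000000000000000000000000000000000000000000000000000000000000000000000000000000000000000000000000000000000000000000000000000000000000000000000000000000000000000000000000, [cP]),
  (nat_lit 0x10000000000000000000000000000000000000000000000000000000000000000000000000000000000000000000000000000000000000000000000000000000000000000000000000000000000000000000000000000000000000000000000, [cP]),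
  (nat_lit 0x400000000000000000000000000000000000000000000000000000000000000000000000000000000000000000000000000000000000000000000000000000000000000000000000000000000000000000000000000000000000000000000000, [cP]),
  (nat_lit 0x800000000000000000000000000000000000000000000000000000000000000000000000000000000000000000000000000000000000000000000000000000000000000000000000000000000000000000000000000000000000000000000000000, [cP]),
  (nat_lit 0x40000000000000000000000000000000000000000000000000000000000000000000000000000000000000000000000000000000000000000000000000000000000000000000000000000000000000000000000000000000000000000000000000000000000, [Nat.sub (Nat.pow 2 659) (Nat.pow 2 0), Nat.sub (Nat.pow 2 936) (Nat.pow 2 659), Nat.sub (Nat.pow 2 3136) (Nat.pow 2 936)]),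
  (nat_lit 0x400000000000000000001000000000000000000000000000000000000000000000000000000000000000000000000000000000000000000000000000000000000000000000000000000000000000000000000000000000000000000000000000000000000000000000000000000000, [cP]),
  (nat_lit 0x8000000000000000000000000000000000000000000000000000000000000000000000000000000000000000000000000000000000000000000000000000000000000000000000000000000000000000000000000000000000000000000000000000000000000000000000000000000, [cP]),
  (nat_lit 0x220000000000000000000000000000000000000000000000000000000000000000000000000000000000000000000000000000000000000000000000000000000000000000000000000000000000000000000000000000000000000000000000000000000000000000000000000000000000, [cP]),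
  (nat_lit 0x400000000000000000000000000000000000000000000000000000000000000000000000000000000000000000000000000000000000000000000000000000000000000000000000000000000000000000000000000000000000000000000000000000000000000000000000000000000000, [cP]),
  (nat_lit 0xc000000000000000000000000000000000000000000000000000000000000000000000000000000000000000000000000000000000000000000000000000000000000000000000000000000000000000000000000000000000000000000000000000000000000000000000000000000000000, [cP]),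
  (nat_lit 0x8000000000000000000000000000000000000000000000000000000000000000000000000000000000000000000000000000000000000000000000000000000000000000000000000000000000000000000000000000000000000000000000000000000000000000000000000000000000000000000, [cP]),
  (nat_lit 0x1000000000000000000000000000000000000000000000000000000000000000000000000000000000000000000000000000000000000000000000000000000000000000000000000000000000000000000000000000000000000000000000000000000000000000000000000000000000000000000000000000000000000000000000000000000000000000000000000000000000000000000000000000, [cP]),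
  (nat_lit 0x4000000000000000000000000000000000000000000000000000000000000000000000000000000000000000000000000000000000000000000000000000000000000000000000000000000000000000000000000000000000000000000000000000000000000000000000000000000000000000000000000000000000000000000000000000000000000000000000000000000000000000000000000000000000000000, [Nat.sub (Nat.pow 2 155) (Nat.pow 2 0), Nat.sub (Nat.pow 2 304) (Nat.pow 2 155), Nat.sub (Nat.pow 2 756) (Nat.pow 2 304), Nat.sub (Nat.pow 2 915) (Nat.pow 2 756), Nat.sub (Nat.pow 2 1304) (Nat.pow 2 915), Nat.sub (Nat.pow 2 1434) (Nat.pow 2 1304), Nat.sub (Nat.pow 2 1566) (Nat.pow 2 1434), Nat.sub (Nat.pow 2 3136) (Nat.pow 2 1566)]),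
  (nat_lit 0x2000000000000000000000000000000000000000000000000000000000000000000000000000000000000000000000000000000000000000000000000000000000000000000000000000000000000000000000000000000000000000000000000000000000000000000000000000000000000000000000000000000000000000000000000000000000000000000000000000000000000000000000000000000000, [cP]),
  (nat_lit 0x1000000000000000000000000000000000000000000000000000000000000000000000000000000000000000000000000000000000000000000000000000000000000000000000000000000000000000000000000000000000000000000000000000000000000000000000000000000000000000000000000000000000000000000000000000000000000000000000000000000000000000000000000000000000000000000000000000000000, [cP]),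
  (nat_lit 0x202000000000000000000000000000000000000000000000000000000000000000000000000000000000000000000000000000000000000000000000000000000000000000000000000000000000000000000000000000000000000000000000000000000000000000000000000000000000000000000000000000000000000000000000000000000000000000000000000000000000000000000000000000000000000000000000000000000000, [cP]),
  (nat_lit 0x80000000000000000000000000000000000000000000000000000000000000000000000000000000000000000000000000000000000000000000000000000000000000000000000000000000000000000000000000000000000000000000000000000000000000000000000000000000000000000000000000000000000000000000000000000000000000000000000000000000000000000000000000000000000000000000000000000000000000000, [cP]),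
  (nat_lit 0x800000000000000000000000000000000000000000000000000000000000000000000000000000000000000000000000000000000000000000000000000000000000000000000000000000000000000000000000000000000000000000000000000000000000000000000000000000000000000000000000000000000000000000000000000000000000000000000000000000000000000000000000000000000000000000000000000000000000000000, [cP]),
  (nat_lit 0x4000000000000000000000000000000000000000000000000000000000000000000000000000000000000000000000000000000000000000000000000000000000000000000000000000000000000000000000000000000000000000000000000000000000000000000000000000000000000000000000000000000000000000000000000000000000000000000000000000000000000000000000000000000000000000000000000000000000000000000000, [cP]),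
  (nat_lit 0x800000000000000000000000000000000000000000000000000000000000000000000000000000000000000000000000000000000000000000000000000000000000000000000000000000000000000000000000000000000000000000000000000000000000000000000000000000000000000000000000000000000000000000000000000000000000000000000000000000000000000000000000000000000000000000000000000000000000000000000000, [cP]),
  (nat_lit 0x40000000000000000000000000000000000000000000000000000000000000000000000000000000000000000000000000000000000000000000000000000000000000000000000000000000000000000000000000000000000000000000000000000000000000000000000000000000000000000000000000000000000000000000000000000000000000000000000000000000000000000000000000000000000000000000000000000000000000000000000000000000000000000, [cP]),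
  (nat_lit 0x200000000000000000000000000000000000000000000000000000000000000000000000000000000000000000000000000000000000000000000000000000000000000000000000000000000000000000000000000000000000000000000000000000000000000000000000000000000000000000000000000000000000000000000000000000000000000000000000000000000000000000000000000000000000000000000000000000000000000000000000000000000000000000, [cP]),
  (nat_lit 0x80000000000000000000000000000000000000000000000000000000000000000000000000000000000000000000000000000000000000000000000000000000000000000000000000000000000000000000000000000000000000000000000000000000000000000000000000000000000000000000000000000000000000000000000000000000000000000000000000000000000000000000000000000000000000000000000000000000000000000000000000000000000000000000000, [cP]),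
  (nat_lit 0x8000000000000000000000000000000000000000000000000000000000000000000000000000000000000000000000000000000000000000000000000000000000000000000000000000000000000000000000000000000000000000000000000000000000000000000000000000000000000000000000000000000000000000000000000000000000000000000000000000000000000000000000000000000000000000000000000000000000000000000000000000000000000000000000000, [cP]),
  (nat_lit 0x100000000000000000000000000000000000000000000000000000000000000000000000000000000000000000000000000000000000000000000000000000000000000000000000000000000000000000000000000000000000000000000000000000000000000000000000000000000000000000000000000000000000000000000000000000000000000000000000000000000000000000000000000000000000000000000000000000000000000000000000000000000000000000000000000000, [cP]),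
  (nat_lit 0x20000000000000000000000000000000000000000000000000000000000000000000000000000000000000000000000000000000000000000000000000000000000000000000000000000000000000000000000000000000000000000000000000000000000000000000000000000000000000000000000000000000000000000000000000000000000000000000000000000000000000000000000000000000000000000000000000000000000000000000000000000000000000000000000000000000, [cP])]

theorem hp0 : ∀ p ∈ L0, ∀ D2 ∈ p.2, ∃ e,
    search ext94 (Pool.Agent.H74.EGZ.vio sb) G Uc A0 p.1 D2 e = true :=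
  (List.forall_mem_cons.2 ⟨(List.forall_mem_cons.2 ⟨⟨e0, by decide +kernel⟩,
  (List.forall_mem_cons.2 ⟨⟨e1, by decide +kernel⟩,
  (List.forall_mem_singleton.2 ⟨e2, by decide +kernel⟩)⟩)⟩),
  (List.forall_mem_cons.2 ⟨(List.forall_mem_singleton.2 ⟨e3, by decide +kernel⟩),
  (List.forall_mem_cons.2 ⟨(List.forall_mem_singleton.2 ⟨e4, by decide +kernel⟩),
  (List.forall_mem_cons.2 ⟨(List.forall_mem_singleton.2 ⟨e5, by decide +kernel⟩),
  (List.forall_mem_cons.2 ⟨(List.forall_mem_singleton.2 ⟨e6, by decide +kernel⟩),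
  (List.forall_mem_cons.2 ⟨(List.forall_mem_singleton.2 ⟨e7, by decide +kernel⟩),
  (List.forall_mem_cons.2 ⟨(List.forall_mem_singleton.2 ⟨e8, by decide +kernel⟩),
  (List.forall_mem_cons.2 ⟨(List.forall_mem_singleton.2 ⟨e9, by decide +kernel⟩),
  (List.forall_mem_cons.2 ⟨(List.forall_mem_singleton.2 ⟨e10, by decide +kernel⟩),
  (List.forall_mem_cons.2 ⟨(List.forall_mem_singleton.2 ⟨e11, by decide +kernel⟩),
  (List.forall_mem_cons.2 ⟨(List.forall_mem_singleton.2 ⟨e12, by decide +kernel⟩),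
  (List.forall_mem_cons.2 ⟨(List.forall_mem_cons.2 ⟨⟨e13, by decide +kernel⟩,
  (List.forall_mem_cons.2 ⟨⟨e14, by decide +kernel⟩,
  (List.forall_mem_cons.2 ⟨⟨e15, by decide +kernel⟩,
  (List.forall_mem_singleton.2 ⟨.leaf, by decide +kernel⟩)⟩)⟩)⟩),
  (List.forall_mem_cons.2 ⟨(List.forall_mem_singleton.2 ⟨e17, by decide +kernel⟩),
  (List.forall_mem_cons.2 ⟨(List.forall_mem_singleton.2 ⟨e18, by decide +kernel⟩),
  (List.forall_mem_cons.2 ⟨(List.forall_mem_singleton.2 ⟨e19, by decide +kernel⟩),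
  (List.forall_mem_cons.2 ⟨(List.forall_mem_singleton.2 ⟨e20, by decide +kernel⟩),
  (List.forall_mem_cons.2 ⟨(List.forall_mem_cons.2 ⟨⟨e21, by decide +kernel⟩,
  (List.forall_mem_cons.2 ⟨⟨e22, by decide +kernel⟩,
  (List.forall_mem_cons.2 ⟨⟨e23, by decide +kernel⟩,
  (List.forall_mem_singleton.2 ⟨e24, by decide +kernel⟩)⟩)⟩)⟩),
  (List.forall_mem_cons.2 ⟨(List.forall_mem_singleton.2 ⟨e25, by decide +kernel⟩),
  (List.forall_mem_cons.2 ⟨(List.forall_mem_singleton.2 ⟨e26, by decide +kernel⟩),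
  (List.forall_mem_cons.2 ⟨(List.forall_mem_cons.2 ⟨⟨e27, by decide +kernel⟩,
  (List.forall_mem_cons.2 ⟨⟨e28, by decide +kernel⟩,
  (List.forall_mem_singleton.2 ⟨.leaf, by decide +kernel⟩)⟩)⟩),
  (List.forall_mem_cons.2 ⟨(List.forall_mem_cons.2 ⟨⟨e30, by decide +kernel⟩,
  (List.forall_mem_singleton.2 ⟨e31, by decide +kernel⟩)⟩),
  (List.forall_mem_cons.2 ⟨(List.forall_mem_singleton.2 ⟨e32, by decide +kernel⟩),
  (List.forall_mem_cons.2 ⟨(List.forall_mem_singleton.2 ⟨e33, by decide +kernel⟩),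
  (List.forall_mem_cons.2 ⟨(List.forall_mem_singleton.2 ⟨e34, by decide +kernel⟩),
  (List.forall_mem_cons.2 ⟨(List.forall_mem_singleton.2 ⟨e35, by decide +kernel⟩),
  (List.forall_mem_cons.2 ⟨(List.forall_mem_singleton.2 ⟨e36, by decide +kernel⟩),
  (List.forall_mem_cons.2 ⟨(List.forall_mem_cons.2 ⟨⟨e37, by decide +kernel⟩,
  (List.forall_mem_cons.2 ⟨⟨e38, by decide +kernel⟩,
  (List.forall_mem_singleton.2 ⟨e39, by decide +kernel⟩)⟩)⟩),
  (List.forall_mem_cons.2 ⟨(List.forall_mem_singleton.2 ⟨e40, by decide +kernel⟩),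
  (List.forall_mem_cons.2 ⟨(List.forall_mem_singleton.2 ⟨e41, by decide +kernel⟩),
  (List.forall_mem_cons.2 ⟨(List.forall_mem_singleton.2 ⟨e42, by decide +kernel⟩),
  (List.forall_mem_cons.2 ⟨(List.forall_mem_singleton.2 ⟨e43, by decide +kernel⟩),
  (List.forall_mem_cons.2 ⟨(List.forall_mem_singleton.2 ⟨e44, by decide +kernel⟩),
  (List.forall_mem_cons.2 ⟨(List.forall_mem_singleton.2 ⟨e45, by decide +kernel⟩),
  (List.forall_mem_cons.2 ⟨(List.forall_mem_singleton.2 ⟨e46, by decide +kernel⟩),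
  (List.forall_mem_cons.2 ⟨(List.forall_mem_cons.2 ⟨⟨e47, by decide +kernel⟩,
  (List.forall_mem_cons.2 ⟨⟨e48, by decide +kernel⟩,
  (List.forall_mem_cons.2 ⟨⟨e49, by decide +kernel⟩,
  (List.forall_mem_cons.2 ⟨⟨e50, by decide +kernel⟩,
  (List.forall_mem_cons.2 ⟨⟨e51, by decide +kernel⟩,
  (List.forall_mem_cons.2 ⟨⟨e52, by decide +kernel⟩,
  (List.forall_mem_cons.2 ⟨⟨e53, by decide +kernel⟩,
  (List.forall_mem_singleton.2 ⟨.leaf, by decide +kernel⟩)⟩)⟩)⟩)⟩)⟩)⟩)⟩),
  (List.forall_mem_cons.2 ⟨(List.forall_mem_singleton.2 ⟨e55, by decide +kernel⟩),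
  (List.forall_mem_cons.2 ⟨(List.forall_mem_singleton.2 ⟨e56, by decide +kernel⟩),
  (List.forall_mem_cons.2 ⟨(List.forall_mem_singleton.2 ⟨e57, by decide +kernel⟩),
  (List.forall_mem_cons.2 ⟨(List.forall_mem_singleton.2 ⟨e58, by decide +kernel⟩),
  (List.forall_mem_cons.2 ⟨(List.forall_mem_singleton.2 ⟨e59, by decide +kernel⟩),
  (List.forall_mem_cons.2 ⟨(List.forall_mem_singleton.2 ⟨e60, by decide +kernel⟩),
  (List.forall_mem_cons.2 ⟨(List.forall_mem_singleton.2 ⟨e61, by decide +kernel⟩),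
  (List.forall_mem_cons.2 ⟨(List.forall_mem_singleton.2 ⟨e62, by decide +kernel⟩),
  (List.forall_mem_cons.2 ⟨(List.forall_mem_singleton.2 ⟨e63, by decide +kernel⟩),
  (List.forall_mem_cons.2 ⟨(List.forall_mem_singleton.2 ⟨e64, by decide +kernel⟩),
  (List.forall_mem_cons.2 ⟨(List.forall_mem_singleton.2 ⟨e65, by decide +kernel⟩),
  (List.forall_mem_cons.2 ⟨(List.forall_mem_singleton.2 ⟨e66, by decide +kernel⟩),
  (List.forall_mem_singleton.2 (List.forall_mem_singleton.2 ⟨e67, by decide +kernel⟩))⟩)⟩)⟩)⟩)⟩)⟩)⟩)⟩)⟩)⟩)⟩)⟩)⟩)⟩)⟩)⟩)⟩)⟩)⟩)⟩)⟩)⟩)⟩)⟩)⟩)⟩)⟩)⟩)⟩)⟩)⟩)⟩)⟩)⟩)⟩)⟩)⟩)⟩)⟩)⟩)⟩)⟩)⟩)⟩)⟩)⟩)⟩)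

end

end Pool.Agent.H21.EGZ.S26
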