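import Pool.Agent.H21.EGZ.D27

/-!
# Stage 27 : search, part 0
-/

set_option autoImplicit false
set_option maxRecDepth 100000

namespace Pool.Agent.H21.EGZ.S27

noncomputable section

open Pool.Agent.H74.EGZ Pool.Agent.H94.Lift

/-- refutations 0 -/
def e0 : EX := (.node (.node (.node (.node .leaf (nat_lit 41043450388511) (.br (nat_lit 0) (.cons (.br (nat_lit 2) (.cons (.rel (nat_lit 71311872)) .nil)) .nil)) .leaf) (nat_lit 41043452765672) (.br (nat_lit 0) (.cons (.br (nat_lit 5) (.cons (.rel (nat_lit 4299167232)) .nil)) .nil)) (.node .leaf (nat_lit 46197235050506) (.br (nat_lit 0) (.cons (.br (nat_lit 1) (.cons (.rel (nat_lit 20972040)) .nil)) .nil)) .leaf)) (nat_lit 46446518742504) (.br (nat_lit 1) (.cons (.br (nat_lit 2) (.cons (.rel (nat_lit 83887428)) .nil)) .nil)) (.node (.node .leaf (nat_lit 124440323399960) (.br (nat_lit 0) (.cons (.br (nat_lit 1) (.cons (.rel (nat_lit 21004308)) .nil)) .nil)) .leaf) (nat_lit 124440324683812) (.br (nat_lit 1) (.cons (.br (nat_lit 5) (.cons (.rel (nat_lit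 8623755264)) .nil)) .nil)) .leaf)) (nat_lit 124440325606812) (.br (nat_lit 1) (.cons (.br (nat_lit 3) (.cons (.rel (nat_lit 285212706)) .nil)) .nil)) (.node (.node (.node .leaf (nat_lit 130075320650664) (.br (nat_lit 1) (.cons (.br (nat_lit 3) (.cons (.rel (nat_lit 285212706)) .nil)) .nil)) .leaf) (nat_lit 130075322801539) (.br (nat_lit 0) (.cons (.br (nat_lit 1) (.cons (.rel (nat_lit 20979969)) .nil)) .nil)) (.node .leaf (nat_lit 130075322960024) (.br (nat_lit 0) (.cons (.br (nat_lit 1) (.cons (.rel (nat_lit 20975622)) .nil)) .nil)) .leaf)) (nat_lit 136460897596278) (.br (nat_lit 0) (.cons (.br (nat_lit 1) (.cons (.rel (nat_lit 20972040)) .nil)) .nil)) (.node (.node .leaf (nat_lit 136463100127413) (.br (nat_lit 1) (.cons (.br (nat_lit 2) (.cons (.rel (nat_lit 83887428)) .nil)) .nil)) .leaf) (nat_lit 136463100128168) (.br (nat_lit 0) (.cons (.br (nat_lit 1) (.cons (.rel (nat_lit 20976657)) .nil)) .nil)) .leaf)))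

/-- refutations 1 -/
def e1 : EX := (.node (.node (.node (.node .leaf (nat_lit 440067634585611) (.br (nat_lit 1) (.cons (.br (nat_lit 3) (.cons (.rel (nat_lit 570425361)) .nil)) .nil)) .leaf) (nat_lit 440067635262216) (.br (nat_lit 1) (.cons (.br (nat_lit 2) (.cons (.rel (nat_lit 100680705)) .nil)) .nil)) (.node .leaf (nat_lit 440067635784336) (.br (nat_lit 1) (.cons (.br (nat_lit 2) (.cons (.rel (nat_lit 168035328)) .nil)) .nil)) .leaf)) (nat_lit 440067636860436) (.br (nat_lit 1) (.cons (.br (nat_lit 2) (.cons (.rel (nat_lit 83902545)) .nil)) .nil)) (.node (.node .leaf (nat_lit 442004870074379) (.br (nat_lit 1) (.cons (.br (nat_lit 2) (.cons (.rel (nat_lit 100671492)) .nil)) .nil)) .leaf) (nat_lit 442004872683007) (.br (nat_lit 1) (.cons (.br (nat_lit 2) (.cons (.rel (nat_lit 83977284)) .nil)) .nil)) (.node .leaf (nat_lit 442006295869451) (.br (nat_lit 1) (.cons (.br (nat_lit 2) (.cons (.rel (nat_lit 100671492)) .nil)) .nil)) .leaf))) (nat_lit 442006296369407) (.br (nat_lit 2) (.cons (.br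 (nat_lit 5) (.cons (.br (nat_lit 0) (.cons (.rel (nat_lit 8594408448)) (.cons (.rel (nat_lit 142607376)) .nil))) .nil)) .nil)) (.node (.node (.node .leaf (nat_lit 556370073472388) (.br (nat_lit 0) (.cons (.br (nat_lit 1) (.cons (.rel (nat_lit 20972040)) .nil)) .nil)) .leaf) (nat_lit 558260509293431) (.br (nat_lit 0) (.cons (.br (nat_lit 3) (.cons (.rel (nat_lit 545259840)) .nil)) .nil)) (.node .leaf (nat_lit 569876301847464) (.br (nat_lit 3) (.cons (.br (nat_lit 5) (.cons (.rel (nat_lit 4563403281)) .nil)) .nil)) .leaf)) (nat_lit 569876302769064) (.br (nat_lit 1) (.cons (.br (nat_lit 6) (.cons (.rel (nat_lit 17196646440)) .nil)) .nil)) (.node (.node .leaf (nat_lit 569876303793064) (.br (nat_lit 6) (.cons (.br (nat_lit 1) (.cons (.rel (nat_lit 17196647430)) (.cons (.rel (nat_lit 17196916800)) .nil))) .nil)) .leaf) (nat_lit 617874562017336) (.br (nat_lit 3) (.cons (.br (nat_lit 0) (.cons (.rel (nat_lit 276842496)) (.cons (.rel (nat_lit 273678372)) .nil))) .nil)) (.node .leaf (nat_lit 626896154461060)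 (.br (nat_lit 0) (.cons (.br (nat_lit 1) (.cons (.rel (nat_lit 41943300)) .nil)) .nil)) .leaf))))

/-- refutations 2 -/
def e2 : EX := (.node (.node (.node (.node .leaf (nat_lit 973371080704936) (.br (nat_lit 1) (.cons (.br (nat_lit 4) (.cons (.rel (nat_lit 2164269072)) .nil)) .nil)) .leaf) (nat_lit 978353350442396) (.br (nat_lit 0) (.cons (.br (nat_lit 3) (.cons (.rel (nat_lit 273752064)) .nil)) .nil)) .leaf) (nat_lit 980473074713961) (.br (nat_lit 0) (.cons (.br (nat_lit 3) (.cons (.rel (nat_lit 272958720)) .nil)) .nil)) (.node .leaf (nat_lit 987803303868428) (.br (nat_lit 0) (.cons (.br (nat_lit 1) (.cons (.rel (nat_lit 20975622)) .nil)) .nil)) .leaf)) (nat_lit 987834633101364) (.br (nat_lit 0) (.cons (.br (nat_lit 1) (.cons (.rel (nat_lit 21103872)) .nil)) .nil)) (.node (.node .leaf (nat_lit 992135401137055) (.br (nat_lit 0) (.cons (.br (nat_lit 1) (.cons (.rel (nat_lit 20997120)) .nil)) .nil)) .leaf) (nat_lit 1061117388912675) (.br (nat_lit 0) (.cons (.br (nat_lit 1) (.cons (.rel (nat_lit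 20997120)) .nil)) .nil)) (.node .leaf (nat_lit 1061117389016466) (.br (nat_lit 0) (.cons (.br (nat_lit 6) (.cons (.rel (nat_lit 17184342528)) .nil)) .nil)) .leaf)))

/-- refutations 3 -/
def e3 : EX := (.node (.node (.node (.node (.node .leaf (nat_lit 2374989261168796) (.br (nat_lit 2) (.cons (.br (nat_lit 5) (.cons (.rel (nat_lit 4429194240)) .nil)) .nil)) .leaf) (nat_lit 2374989261168800) (.br (nat_lit 0) (.cons (.br (nat_lit 3) (.cons (.rel (nat_lit 274743360)) .nil)) .nil)) (.node .leaf (nat_lit 2374989261169916) (.br (nat_lit 1) (.cons (.br (nat_lit 2) (.cons (.rel (nat_lit 169939008)) .nil)) .nil)) .leaf)) (nat_lit 2374989262890511) (.br (nat_lit 0) (.cons (.br (nat_lit 1) (.cons (.rel (nat_lit 20988192)) .nil)) .nil)) (.node (.node .leaf (nat_lit 2374989263925929) (.br (nat_lit 2) (.cons (.br (nat_lit 3) (.cons (.rel (nat_lit 335544609)) .nil)) .nil)) .leaf) (nat_lit 2374989264231676) (.br (nat_lit 1) (.cons (.br (nat_lit 2) (.cons (.rel (nat_lit 86065152)) .nil)) .nil)) (.node .leaf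 (nat_lit 2376233716795672) (.br (nat_lit 0) (.cons (.br (nat_lit 1) (.cons (.rel (nat_lit 21039108)) .nil)) .nil)) .leaf))) (nat_lit 2376236900065560) (.br (nat_lit 0) (.cons (.br (nat_lit 1) (.cons (.rel (nat_lit 41943300)) .nil)) .nil)) (.node (.node (.node .leaf (nat_lit 2376236900098824) (.br (nat_lit 1) (.cons (.br (nat_lit 2) (.cons (.rel (nat_lit 85983237)) .nil)) .nil)) .leaf) (nat_lit 2380529768878257) (.br (nat_lit 1) (.cons (.br (nat_lit 3) (.cons (.rel (nat_lit 286392384)) .nil)) .nil)) (.node .leaf (nat_lit 2380529768878761) (.br (nat_lit 0) (.cons (.br (nat_lit 1) (.cons (.rel (nat_lit 20976657)) .nil)) .nil)) .leaf)) (nat_lit 2380529768910200) (.br (nat_lit 0) (.cons (.br (nat_lit 1) (.cons (.rel (nat_lit 22020192)) .nil)) .nil)) (.node (.node .leaf (nat_lit 2380529768913577) (.br (nat_lit 3) (.cons (.br (nat_lit 4) (.cons (.rel (nat_lit 1342210080)) .nil)) .nil)) .leaf) (nat_lit 2380529771796657) (.br (nat_lit 1) (.cons (.br (nat_lit 2) (.cons (.rel (nat_lit 83902545)) .nil))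 .nil)) .leaf))) (nat_lit 2380531970888332) (.br (nat_lit 0) (.cons (.br (nat_lit 1) (.cons (.rel (nat_lit 20988192)) (.cons (.rel (nat_lit 20972040)) .nil))) .nil)) (.node (.node (.node (.node .leaf (nat_lit 2380531970888361) (.br (nat_lit 3) (.cons (.br (nat_lit 4) (.cons (.rel (nat_lit 1342183428)) .nil)) .nil)) .leaf) (nat_lit 2380531972680332) (.br (nat_lit 1) (.cons (.br (nat_lit 0) (.cons (.rel (nat_lit 20972040)) (.cons (.rel (nat_lit 41943300)) .nil))) .nil)) (.node .leaf (nat_lit 2380531972731532) (.br (nat_lit 1) (.cons (.br (nat_lit 3) (.cons (.rel (nat_lit 554237952)) .nil)) .nil)) .leaf)) (nat_lit 2380531972766348) (.br (nat_lit 1) (.cons (.br (nat_lit 3) (.cons (.rel (nat_lit 554237952)) .nil)) .nil)) (.node (.node .leaf (nat_lit 2380531973704332) (.br (nat_lit 1) (.cons (.br (nat_lit 5) (.cons (.rel (nat_lit 8606728197)) .nil)) .nil)) .leaf) (nat_lit 2388260710011036) (.br (nat_lit 0) (.cons (.br (nat_lit 4) (.cons (.rel (nat_lit 1080311808)) .nil)) .nil)) .leaf)) (nat_lit 2388260710062207)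 (.br (nat_lit 0) (.cons (.br (nat_lit 1) (.cons (.rel (nat_lit 20972040)) .nil)) .nil)) (.node (.node (.node .leaf (nat_lit 2388260710063331) (.br (nat_lit 0) (.cons (.br (nat_lit 3) (.cons (.rel (nat_lit 545259840)) .nil)) .nil)) .leaf) (nat_lit 2388260710113407) (.br (nat_lit 1) (.cons (.br (nat_lit 2) (.cons (.rel (nat_lit 168035328)) .nil)) .nil)) (.node .leaf (nat_lit 2388260710525229) (.br (nat_lit 1) (.cons (.br (nat_lit 3) (.cons (.rel (nat_lit 285212706)) .nil)) .nil)) .leaf)) (nat_lit 2388260711601433) (.br (nat_lit 0) (.cons (.br (nat_lit 1) (.cons (.rel (nat_lit 41943300)) .nil)) .nil)) (.node (.node .leaf (nat_lit 2388260713072796) (.br (nat_lit 0) (.cons (.br (nat_lit 1) (.cons (.rel (nat_lit 41943300)) .nil)) .nil)) .leaf) (nat_lit 2388262913812661) (.br (nat_lit 1) (.cons (.br (nat_lit 2) (.cons (.rel (nat_lit 150999048)) .nil)) .nil)) .leaf))))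

/-- refutations 4 -/
def e4 : EX := (.node (.node (.node (.node .leaf (nat_lit 2674548149140116) (.br (nat_lit 1) (.cons (.br (nat_lit 3) (.cons (.rel (nat_lit 285360384)) .nil)) .nil)) .leaf) (nat_lit 2674550854110120) (.br (nat_lit 2) (.cons (.br (nat_lit 3) (.cons (.rel (nat_lit 335554584)) .nil)) .nil)) .leaf) (nat_lit 2681791545035412) (.br (nat_lit 1) (.cons (.br (nat_lit 3) (.cons (.rel (nat_lit 285218052)) .nil)) .nil)) (.node (.node .leaf (nat_lit 2681791545391764) (.br (nat_lit 1) (.cons (.br (nat_lit 2) (.cons (.rel (nat_lit 83952192)) .nil)) .nil)) .leaf) (nat_lit 2681803916019764) (.br (nat_lit 0) (.cons (.br (nat_lit 4) (.cons (.rel (nat_lit 1077937416)) .nil)) .nil)) .leaf)) (nat_lit 2744390913118339) (.br (nat_lit 0) (.cons (.br (nat_lit 1) (.cons (.rel (nat_lit 20976657)) .nil)) .nil)) (.node (.node (.node .leaf (nat_lit 2744390913119743) (.br (nat_lit 0) (.cons (.br (nat_lit 1) (.cons (.rel (nat_lit 20976657)) .nil)) .nil)) .leaf) (nat_lit 2746766758252576) (.br (nat_lit 1)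 (.cons (.br (nat_lit 3) (.cons (.rel (nat_lit 285212706)) .nil)) .nil)) .leaf) (nat_lit 2750824672127856) (.br (nat_lit 0) (.cons (.br (nat_lit 1) (.cons (.rel (nat_lit 21004308)) .nil)) .nil)) (.node .leaf (nat_lit 2757543424228629) (.br (nat_lit 0) (.cons (.br (nat_lit 1) (.cons (.rel (nat_lit 41943300)) .nil)) .nil)) .leaf)))

/-- refutations 5 -/
def e5 : EX := (.node (.node (.node (.node (.node (.node (.node .leaf (nat_lit 2814855572691071) (.br (nat_lit 0) (.cons (.br (nat_lit 1) (.cons (.rel (nat_lit 41943300)) .nil)) .nil)) .leaf) (nat_lit 2814855575744639) (.br (nat_lit 1) (.cons (.br (nat_lit 4) (.cons (.rel (nat_lit 1090535748)) .nil)) .nil)) .leaf) (nat_lit 2815889014197004) (.br (nat_lit 0) (.cons (.br (nat_lit 1) (.cons (.rel (nat_lit 41943300)) .nil)) .nil)) (.node .leaf (nat_lit 2815889014307472) (.br (nat_lit 0) (.cons (.br (nat_lit 1) (.cons (.rel (nat_lit 21037074)) .nil)) .nil)) .leaf)) (nat_lit 2820334524846711) (.br (nat_lit 1) (.cons (.br (nat_lit 2) (.cons (.rel (nat_lit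 85983237)) .nil)) .nil)) (.node (.node (.node .leaf (nat_lit 2820334526673073) (.br (nat_lit 3) (.cons (.br (nat_lit 5) (.cons (.rel (nat_lit 8859484176)) .nil)) .nil)) .leaf) (nat_lit 2820334526674427) (.br (nat_lit 1) (.cons (.br (nat_lit 2) (.cons (.rel (nat_lit 85983237)) .nil)) .nil)) .leaf) (nat_lit 2820334527757068) (.br (nat_lit 0) (.cons (.br (nat_lit 1) (.cons (.rel (nat_lit 38797317)) .nil)) .nil)) (.node .leaf (nat_lit 2820334527908620) (.br (nat_lit 1) (.cons (.br (nat_lit 3) (.cons (.rel (nat_lit 285213705)) .nil)) .nil)) .leaf))) (nat_lit 2820551370363685) (.br (nat_lit 1) (.cons (.br (nat_lit 4) (.cons (.rel (nat_lit 1090519632)) .nil)) .nil)) (.node (.node (.node (.node .leaf (nat_lit 2820551370406143) (.br (nat_lit 0) (.cons (.br (nat_lit 3) (.cons (.rel (nat_lit 272630400)) .nil)) .nil)) .leaf) (nat_lit 2820551370466531) (.br (nat_lit 1) (.cons (.br (nat_lit 3) (.cons (.rel (nat_lit 285212706)) .nil)) .nil)) .leaf) (nat_lit 2820551370620436) (.br (nat_lit 0) (.cons (.br (nat_lit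 3) (.cons (.rel (nat_lit 545329233)) .nil)) .nil)) (.node .leaf (nat_lit 2820551370660095) (.br (nat_lit 1) (.cons (.br (nat_lit 6) (.cons (.rel (nat_lit 17196720132)) (.cons (.rel (nat_lit 17196646440)) (.cons (.rel (nat_lit 34393292820)) .nil)))) .nil)) .leaf)) (nat_lit 2820551371625384) (.br (nat_lit 2) (.cons (.br (nat_lit 1) (.cons (.rel (nat_lit 100663554)) (.cons (.rel (nat_lit 83955786)) .nil))) .nil)) (.node (.node (.node .leaf (nat_lit 2820551372155511) (.br (nat_lit 3) (.cons (.br (nat_lit 5) (.cons (.rel (nat_lit 4831843392)) .nil)) .nil)) .leaf) (nat_lit 2820551372155685) (.br (nat_lit 1) (.cons (.br (nat_lit 3) (.cons (.br (nat_lit 5) (.cons (.rel (nat_lit 4311810144)) (.cons (.rel (nat_lit 4831903809)) .nil))) (.cons (.rel (nat_lit 303054864)) .nil))) .nil)) .leaf) (nat_lit 2820553259070245) (.br (nat_lit 1) (.cons (.br (nat_lit 5) (.cons (.rel (nat_lit 4311810144)) (.cons (.rel (nat_lit 4311761217)) (.cons (.rel (nat_lit 4328587269)) .nil)))) .nil)) (.node .leaf (nat_lit 2820553259592311)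 (.br (nat_lit 3) (.cons (.br (nat_lit 4) (.cons (.rel (nat_lit 1343225928)) .nil)) .nil)) .leaf)))) (nat_lit 2821237916642561) (.br (nat_lit 0) (.cons (.br (nat_lit 1) (.cons (.rel (nat_lit 20972040)) .nil)) .nil)) (.node (.node (.node (.node (.node .leaf (nat_lit 2821280843714710) (.br (nat_lit 1) (.cons (.br (nat_lit 3) (.cons (.rel (nat_lit 553648200)) .nil)) .nil)) .leaf) (nat_lit 2821280844012395) (.br (nat_lit 1) (.cons (.br (nat_lit 2) (.cons (.rel (nat_lit 150999048)) .nil)) .nil)) .leaf) (nat_lit 2821280844309256) (.br (nat_lit 0) (.cons (.br (nat_lit 1) (.cons (.rel (nat_lit 21004308)) .nil)) .nil)) (.node .leaf (nat_lit 2821280844977064) (.br (nat_lit 0) (.cons (.br (nat_lit 1) (.cons (.rel (nat_lit 20972040)) .nil)) .nil)) .leaf)) (nat_lit 2821280845282155) (.br (nat_lit 0) (.cons (.br (nat_lit 1) (.cons (.rel (nat_lit 22548504)) (.cons (.rel (nat_lit 20972040)) .nil))) (.cons (.br (nat_lit 1) (.cons (.rel (nat_lit 41943300)) (.cons (.rel (nat_lit 20997120)) .nil))) .nil))) (.node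 (.node (.node .leaf (nat_lit 2821280845291581) (.br (nat_lit 1) (.cons (.br (nat_lit 0) (.cons (.rel (nat_lit 20972040)) (.cons (.rel (nat_lit 25690128)) .nil))) .nil)) .leaf) (nat_lit 2821280845292420) (.br (nat_lit 0) (.cons (.br (nat_lit 1) (.cons (.rel (nat_lit 20972040)) (.cons (.rel (nat_lit 20997120)) .nil))) .nil)) .leaf) (nat_lit 2821280845333416) (.br (nat_lit 3) (.cons (.br (nat_lit 5) (.cons (.rel (nat_lit 8859422724)) .nil)) .nil)) (.node .leaf (nat_lit 2821280845336732) (.br (nat_lit 0) (.cons (.br (nat_lit 2) (.cons (.rel (nat_lit 71305248)) .nil)) .nil)) .leaf))) (nat_lit 2822271247585936) (.br (nat_lit 0) (.cons (.br (nat_lit 2) (.cons (.rel (nat_lit 142606341)) .nil)) .nil)) (.node (.node (.node (.node .leaf (nat_lit 2822585087709811) (.br (nat_lit 0) (.cons (.br (nat_lit 1) (.cons (.rel (nat_lit 21004308)) .nil)) .nil)) .leaf) (nat_lit 2822696547195511) (.br (nat_lit 4) (.cons (.br (nat_lit 6) (.cons (.rel (nat_lit 18253627653)) .nil)) .nil)) .leaf) (nat_lit 2826655530060457)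 (.br (nat_lit 2) (.cons (.br (nat_lit 5) (.cons (.rel (nat_lit 4364206080)) .nil)) .nil)) (.node .leaf (nat_lit 2826655531255808) (.br (nat_lit 0) (.cons (.br (nat_lit 2) (.cons (.rel (nat_lit 71303178)) .nil)) .nil)) .leaf)) (nat_lit 2826655531255845) (.br (nat_lit 0) (.cons (.br (nat_lit 1) (.cons (.rel (nat_lit 20972040)) (.cons (.rel (nat_lit 22020192)) .nil))) .nil)) (.node (.node (.node .leaf (nat_lit 2826655531255984) (.br (nat_lit 0) (.cons (.br (nat_lit 1) (.cons (.rel (nat_lit 26477568)) .nil)) .nil)) .leaf) (nat_lit 2826655531540491) (.br (nat_lit 0) (.cons (.br (nat_lit 6) (.cons (.rel (nat_lit 17184342528)) .nil)) .nil)) .leaf) (nat_lit 2826655531541105) (.br (nat_lit 0) (.cons (.br (nat_lit 1) (.cons (.rel (nat_lit 20975622)) .nil)) .nil)) (.node .leaf (nat_lit 2827730320203928) (.br (nat_lit 1) (.cons (.br (nat_lit 2) (.cons (.rel (nat_lit 168035328)) .nil)) .nil)) .leaf))))) (nat_lit 2827730320203932) (.br (nat_lit 1) (.cons (.br (nat_lit 6) (.cons (.rel (nat_lit 17196663312))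 .nil)) .nil)) (.node (.node (.node (.node (.node (.node .leaf (nat_lit 2827730320203936) (.br (nat_lit 1) (.cons (.br (nat_lit 5) (.cons (.rel (nat_lit 4311810144)) .nil)) .nil)) .leaf) (nat_lit 2827850507878556) (.br (nat_lit 1) (.cons (.br (nat_lit 4) (.cons (.rel (nat_lit 1090525248)) .nil)) .nil)) .leaf) (nat_lit 2827850507879336) (.br (nat_lit 6) (.cons (.br (nat_lit 0) (.cons (.rel (nat_lit 17184067716)) (.cons (.rel (nat_lit 34363933200)) .nil))) .nil)) (.node .leaf (nat_lit 2827850507950207) (.br (nat_lit 2) (.cons (.br (nat_lit 5) (.cons (.rel (nat_lit 4429185312)) .nil)) .nil)) .leaf)) (nat_lit 2827850507950335) (.br (nat_lit 3) (.cons (.br (nat_lit 2) (.cons (.rel (nat_lit 671155200)) (.cons (.rel (nat_lit 335677440)) .nil))) .nil)) (.node (.node (.node .leaf (nat_lit 2827850507950711) (.br (nat_lit 1) (.cons (.br (nat_lit 5) (.cons (.rel (nat_lit 8606712081)) .nil)) .nil)) .leaf) (nat_lit 2827850507950982) (.br (nat_lit 6) (.cons (.br (nat_lit 0) (.cons (.rel (nat_lit 17184067716))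 (.cons (.rel (nat_lit 17184460800)) .nil))) .nil)) .leaf) (nat_lit 2827850507950990) (.br (nat_lit 4) (.cons (.br (nat_lit 6) (.cons (.rel (nat_lit 18254660688)) (.cons (.rel (nat_lit 18253644804)) .nil))) (.cons (.br (nat_lit 6) (.cons (.rel (nat_lit 19327620096)) (.cons (.rel (nat_lit 18253617153)) .nil))) .nil))) (.node .leaf (nat_lit 2827850507951016) (.br (nat_lit 1) (.cons (.br (nat_lit 0) (.cons (.rel (nat_lit 20976657)) (.cons (.rel (nat_lit 20972040)) (.cons (.rel (nat_lit 20972040)) .nil)))) .nil)) .leaf))) (nat_lit 2827850508002531) (.br (nat_lit 0) (.cons (.br (nat_lit 1) (.cons (.rel (nat_lit 20988192)) .nil)) .nil)) (.node (.node (.node (.node .leaf (nat_lit 2827850508187659) (.br (nat_lit 1) (.cons (.br (nat_lit 3) (.cons (.rel (nat_lit 285213705)) .nil)) .nil)) .leaf) (nat_lit 2827850508188928) (.br (nat_lit 1) (.cons (.br (nat_lit 2) (.cons (.rel (nat_lit 100671492)) (.cons (.rel (nat_lit 150995457)) (.cons (.rel (nat_lit 84412416)) .nil)))) .nil)) .leaf) (nat_lit 2827850508188953)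 (.br (nat_lit 0) (.cons (.br (nat_lit 6) (.cons (.rel (nat_lit 17185112097)) (.cons (.rel (nat_lit 17188258080)) (.cons (.rel (nat_lit 17188258080)) (.cons (.rel (nat_lit 17184460800)) .nil))))) .nil)) (.node .leaf (nat_lit 2827850509436964) (.br (nat_lit 1) (.cons (.br (nat_lit 2) (.cons (.rel (nat_lit 168035328)) .nil)) .nil)) .leaf)) (nat_lit 2827850509438179) (.br (nat_lit 0) (.cons (.br (nat_lit 1) (.cons (.rel (nat_lit 20972040)) .nil)) .nil)) (.node (.node (.node .leaf (nat_lit 2827850509438208) (.br (nat_lit 0) (.cons (.br (nat_lit 5) (.cons (.br (nat_lit 3) (.cons (.rel (nat_lit 9127071816)) (.cons (.rel (nat_lit 4563468324)) (.cons (.rel (nat_lit 272893956)) .nil)))) (.cons (.br (nat_lit 1) (.cons (.rel (nat_lit 4312276992)) (.cons (.rel (nat_lit 8623755264)) (.cons (.rel (nat_lit 41943300)) .nil)))) .nil))) .nil)) .leaf) (nat_lit 2827850509537415) (.br (nat_lit 1) (.cons (.br (nat_lit 6) (.cons (.br (nat_lit 2) (.cons (.rel (nat_lit 17246996484)) (.cons (.rel (nat_lit 34493960208))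 .nil))) .nil)) .nil)) .leaf) (nat_lit 2827850509537430) (.br (nat_lit 0) (.cons (.br (nat_lit 2) (.cons (.br (nat_lit 1) (.cons (.rel (nat_lit 150995457)) (.cons (.rel (nat_lit 100663554)) .nil))) .nil)) .nil)) (.node .leaf (nat_lit 2827850509538560) (.br (nat_lit 0) (.cons (.br (nat_lit 2) (.cons (.rel (nat_lit 138739716)) (.cons (.br (nat_lit 1) (.cons (.br (nat_lit 3) (.cons (.rel (nat_lit 272893956)) (.cons (.br (nat_lit 5) (.cons (.rel (nat_lit 8594408448)) (.cons (.rel (nat_lit 4898947074)) (.cons (.rel (nat_lit 8598327312)) .nil)))) (.cons (.rel (nat_lit 301990020)) .nil)))) (.cons (.rel (nat_lit 100663554)) .nil))) .nil))) .nil)) .leaf)))) (nat_lit 2827850509742211) (.br (nat_lit 1) (.cons (.br (nat_lit 2) (.cons (.rel (nat_lit 83952192)) .nil)) .nil)) (.node (.node (.node (.node (.node .leaf (nat_lit 2827850510551316) (.br (nat_lit 0) (.cons (.br (nat_lit 2) (.cons (.rel (nat_lit 71324676)) .nil)) .nil)) .leaf) (nat_lit 2827850510766215) (.br (nat_lit 1) (.cons (.br (nat_lit 5) (.cons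 (.rel (nat_lit 8623755264)) .nil)) .nil)) .leaf) (nat_lit 2827850510766711) (.br (nat_lit 1) (.cons (.br (nat_lit 3) (.cons (.rel (nat_lit 570425361)) .nil)) .nil)) (.node .leaf (nat_lit 2827850511063167) (.br (nat_lit 1) (.cons (.br (nat_lit 5) (.cons (.rel (nat_lit 4311810144)) .nil)) .nil)) .leaf)) (nat_lit 2827850511063190) (.br (nat_lit 2) (.cons (.br (nat_lit 4) (.cons (.rel (nat_lit 2214596628)) .nil)) .nil)) (.node (.node (.node .leaf (nat_lit 2827850511063920) (.br (nat_lit 0) (.cons (.br (nat_lit 4) (.cons (.br (nat_lit 6) (.cons (.rel (nat_lit 18253617153)) .nil)) .nil)) .nil)) .leaf) (nat_lit 2827850511063950) (.br (nat_lit 0) (.cons (.br (nat_lit 2) (.cons (.br (nat_lit 6) (.cons (.rel (nat_lit 17185112097)) (.cons (.br (nat_lit 3) (.cons (.rel (nat_lit 403702788)) (.cons (.rel (nat_lit 17449369608)) (.cons (.rel (nat_lit 34628173830)) .nil)))) .nil))) .nil)) .nil)) .leaf) (nat_lit 2827850511063976) (.br (nat_lit 0) (.cons (.br (nat_lit 3) (.cons (.rel (nat_lit 272630400)) (.cons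 (.rel (nat_lit 541099008)) (.cons (.rel (nat_lit 276842496)) .nil)))) (.cons (.br (nat_lit 1) (.cons (.rel (nat_lit 21037074)) (.cons (.br (nat_lit 5) (.cons (.rel (nat_lit 8606728197)) (.cons (.rel (nat_lit 8606712081)) (.cons (.rel (nat_lit 8623755264)) .nil)))) .nil))) .nil))) (.node .leaf (nat_lit 2827855949738111) (.br (nat_lit 0) (.cons (.br (nat_lit 1) (.cons (.rel (nat_lit 20975622)) .nil)) .nil)) .leaf))) (nat_lit 2828065465979057) (.br (nat_lit 1) (.cons (.br (nat_lit 2) (.cons (.rel (nat_lit 83923008)) .nil)) .nil)) (.node (.node (.node (.node .leaf (nat_lit 2828065466030207) (.br (nat_lit 0) (.cons (.br (nat_lit 1) (.cons (.rel (nat_lit 41943300)) .nil)) .nil)) .leaf) (nat_lit 2828065466081436) (.br (nat_lit 0) (.cons (.br (nat_lit 3) (.cons (.rel (nat_lit 545259840)) .nil)) .nil)) .leaf) (nat_lit 2828065466081440) (.br (nat_lit 1) (.cons (.br (nat_lit 2) (.cons (.rel (nat_lit 83887428)) .nil)) .nil)) (.node .leaf (nat_lit 2828065467569385) (.br (nat_lit 0) (.cons (.br (nat_lit 3)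 (.cons (.rel (nat_lit 273678372)) (.cons (.rel (nat_lit 545259840)) .nil))) .nil)) .leaf)) (nat_lit 2828065467569433) (.br (nat_lit 0) (.cons (.br (nat_lit 1) (.cons (.rel (nat_lit 20988192)) (.cons (.rel (nat_lit 20988192)) .nil))) .nil)) (.node (.node (.node .leaf (nat_lit 2828065467596956) (.br (nat_lit 0) (.cons (.br (nat_lit 1) (.cons (.rel (nat_lit 20976657)) .nil)) .nil)) .leaf) (nat_lit 2828065468795007) (.br (nat_lit 0) (.cons (.br (nat_lit 5) (.cons (.rel (nat_lit 4299162885)) .nil)) .nil)) .leaf) (nat_lit 2828065469041891) (.br (nat_lit 0) (.cons (.br (nat_lit 1) (.cons (.rel (nat_lit 38798352)) .nil)) .nil)) (.node .leaf (nat_lit 2828065469041945) (.br (nat_lit 1) (.cons (.br (nat_lit 5) (.cons (.rel (nat_lit 4313071620)) (.cons (.rel (nat_lit 4311810144)) .nil))) (.cons (.br (nat_lit 5) (.cons (.rel (nat_lit 4311778368)) (.cons (.rel (nat_lit 8623755264)) .nil))) .nil))) .leaf))))))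

/-- refutations 6 -/
def e6 : EX := (.node (.node (.node (.node (.node .leaf (nat_lit 3255088189610136) (.br (nat_lit 1) (.cons (.br (nat_lit 2) (.cons (.rel (nat_lit 151257168)) (.cons (.rel (nat_lit 84412416)) .nil))) .nil)) .leaf) (nat_lit 3256058854062732) (.br (nat_lit 0) (.cons (.br (nat_lit 1) (.cons (.rel (nat_lit 21004308)) .nil)) .nil)) .leaf) (nat_lit 3256062944481911) (.br (nat_lit 0) (.cons (.br (nat_lit 1) (.cons (.rel (nat_lit 20972040)) .nil)) .nil)) (.node .leaf (nat_lit 3260141168243340) (.br (nat_lit 0) (.cons (.br (nat_lit 1) (.cons (.rel (nat_lit 21103872)) .nil)) .nil)) .leaf)) (nat_lit 3260141168354836) (.br (nat_lit 1) (.cons (.br (nat_lit 2) (.cons (.rel (nat_lit 100663554)) .nil)) .nil)) (.node (.node .leaf (nat_lit 3260141169789735) (.br (nat_lit 0) (.cons (.br (nat_lit 2) (.cons (.rel (nat_lit 71303178)) .nil)) .nil)) .leaf) (nat_lit 3260141170077856) (.br (nat_lit 1) (.cons (.br (nat_lit 2) (.cons (.rel (nat_lit 85987584)) .nil)) .nil)) (.node .leaf (nat_lit 3260141170146060)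 (.br (nat_lit 0) (.cons (.br (nat_lit 2) (.cons (.rel (nat_lit 72876048)) (.cons (.rel (nat_lit 71303178)) .nil))) (.cons (.br (nat_lit 1) (.cons (.rel (nat_lit 20976657)) (.cons (.rel (nat_lit 20979969)) .nil))) .nil))) .leaf))) (nat_lit 3262174888516211) (.br (nat_lit 0) (.cons (.br (nat_lit 3) (.cons (.rel (nat_lit 276842496)) (.cons (.rel (nat_lit 276842496)) .nil))) (.cons (.br (nat_lit 3) (.cons (.rel (nat_lit 273711360)) (.cons (.rel (nat_lit 272912385)) .nil))) .nil))) (.node (.node (.node (.node .leaf (nat_lit 3267655263859993) (.br (nat_lit 0) (.cons (.br (nat_lit 3) (.cons (.rel (nat_lit 545259840)) .nil)) .nil)) .leaf) (nat_lit 3267655263969407) (.br (nat_lit 2) (.cons (.br (nat_lit 1) (.cons (.rel (nat_lit 168035328)) (.cons (.rel (nat_lit 83887428)) .nil))) .nil)) .leaf) (nat_lit 3267655265405055) (.br (nat_lit 0) (.cons (.br (nat_lit 2) (.cons (.rel (nat_lit 142610688)) .nil)) .nil)) (.node .leaf (nat_lit 3267655266726015) (.br (nat_lit 1) (.cons (.br (nat_lit 2) (.cons (.rel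 (nat_lit 100671492)) .nil)) .nil)) .leaf)) (nat_lit 3267655267031167) (.br (nat_lit 0) (.cons (.br (nat_lit 1) (.cons (.rel (nat_lit 20975622)) .nil)) .nil)) (.node (.node .leaf (nat_lit 3267655267031316) (.br (nat_lit 0) (.cons (.br (nat_lit 2) (.cons (.rel (nat_lit 71581761)) .nil)) .nil)) .leaf) (nat_lit 3267659356180607) (.br (nat_lit 1) (.cons (.br (nat_lit 2) (.cons (.rel (nat_lit 100680705)) .nil)) .nil)) (.node .leaf (nat_lit 4585136483185445) (.br (nat_lit 0) (.cons (.br (nat_lit 1) (.cons (.rel (nat_lit 38801664)) .nil)) .nil)) .leaf))))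

/-- refutations 7 -/
def e7 : EX := (.node (.node (.node (.node .leaf (nat_lit 4855552349902975) (.br (nat_lit 2) (.cons (.br (nat_lit 3) (.cons (.rel (nat_lit 335642640)) .nil)) .nil)) .leaf) (nat_lit 4861033336330301) (.br (nat_lit 1) (.cons (.br (nat_lit 3) (.cons (.rel (nat_lit 285213705)) .nil)) .nil)) .leaf) (nat_lit 4925860964538503) (.br (nat_lit 1) (.cons (.br (nat_lit 4) (.cons (.rel (nat_lit 1090519632)) (.cons (.rel (nat_lit 1090525248)) .nil))) .nil)) (.node (.node .leaf (nat_lit 4925860964539275) (.br (nat_lit 0) (.cons (.br (nat_lit 3) (.cons (.rel (nat_lit 272891922)) .nil)) .nil)) .leaf) (nat_lit 4925860967666965) (.br (nat_lit 0) (.cons (.br (nat_lit 1) (.cons (.rel (nat_lit 41943300)) .nil)) .nil)) .leaf)) (nat_lit 4932489093127051) (.br (nat_lit 1) (.cons (.br (nat_lit 3) (.cons (.br (nat_lit 4) (.cons (.rel (nat_lit 1107361800)) (.cons (.rel (nat_lit 1342210080)) .nil))) .nil)) .nil)) (.node (.node (.node .leaf (nat_lit 4932491847448711) (.br (nat_lit 0) (.cons (.br (nat_lit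 1) (.cons (.rel (nat_lit 20997120)) .nil)) .nil)) .leaf) (nat_lit 4932492394044299) (.br (nat_lit 0) (.cons (.br (nat_lit 1) (.cons (.rel (nat_lit 20972040)) .nil)) .nil)) .leaf) (nat_lit 4938098320414720) (.br (nat_lit 1) (.cons (.br (nat_lit 5) (.cons (.rel (nat_lit 4311810144)) .nil)) .nil)) (.node .leaf (nat_lit 5013774113250160) (.br (nat_lit 0) (.cons (.br (nat_lit 1) (.cons (.rel (nat_lit 20975622)) .nil)) .nil)) .leaf)))

/-- refutations 8 -/
def e8 : EX := (.node (.node (.node (.node .leaf (nat_lit 5295780684675199) (.br (nat_lit 0) (.cons (.br (nat_lit 1) (.cons (.rel (nat_lit 41943300)) .nil)) .nil)) .leaf) (nat_lit 5295780684675958) (.br (nat_lit 0) (.cons (.br (nat_lit 1) (.cons (.rel (nat_lit 21235776)) .nil)) .nil)) .leaf) (nat_lit 5295783437379761) (.br (nat_lit 0) (.cons (.br (nat_lit 1) (.cons (.rel (nat_lit 25235520)) .nil)) .nil)) (.node (.node .leaf (nat_lit 5295786897978730) (.br (nat_lit 6) (.cons (.br (nat_lit 3) (.cons (.rel (nat_lit 17448567042)) (.cons (.rel (nat_lit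 17448584193)) .nil))) .nil)) .leaf) (nat_lit 5295786898705270) (.br (nat_lit 0) (.cons (.br (nat_lit 1) (.cons (.rel (nat_lit 21103872)) .nil)) .nil)) .leaf)) (nat_lit 5295786898755711) (.br (nat_lit 0) (.cons (.br (nat_lit 1) (.cons (.rel (nat_lit 38801664)) .nil)) .nil)) (.node (.node (.node .leaf (nat_lit 5295786898756520) (.br (nat_lit 1) (.cons (.br (nat_lit 2) (.cons (.rel (nat_lit 83952192)) .nil)) .nil)) .leaf) (nat_lit 5295786898756966) (.br (nat_lit 0) (.cons (.br (nat_lit 5) (.cons (.rel (nat_lit 4299178002)) .nil)) .nil)) .leaf) (nat_lit 5295786899019114) (.br (nat_lit 0) (.cons (.br (nat_lit 1) (.cons (.rel (nat_lit 20972040)) .nil)) .nil)) (.node (.node .leaf (nat_lit 5302872672361075) (.br (nat_lit 0) (.cons (.br (nat_lit 1) (.cons (.rel (nat_lit 21057537)) .nil)) .nil)) .leaf) (nat_lit 5307156943157908) (.br (nat_lit 0) (.cons (.br (nat_lit 1) (.cons (.rel (nat_lit 21057537)) .nil)) .nil)) .leaf)))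

/-- refutations 9 -/
def e9 : EX := (.node (.node (.node (.node (.node (.node .leaf (nat_lit 11610845454237877) (.br (nat_lit 0) (.cons (.br (nat_lit 2) (.cons (.rel (nat_lit 142606341)) .nil)) .nil)) .leaf) (nat_lit 11610845454306211) (.br (nat_lit 0) (.cons (.br (nat_lit 4) (.cons (.rel (nat_lit 2151948288)) .nil)) .nil)) .leaf) (nat_lit 11610931310151805) (.br (nat_lit 0) (.cons (.br (nat_lit 2) (.cons (.rel (nat_lit 71368977)) .nil)) .nil)) (.node (.node .leaf (nat_lit 11611152035657879) (.br (nat_lit 2) (.cons (.br (nat_lit 4) (.cons (.rel (nat_lit 1141375488)) (.cons (.br (nat_lit 6) (.cons (.rel (nat_lit 18253750272)) (.cons (.rel (nat_lit 18253750272)) .nil))) (.cons (.rel (nat_lit 2214596628)) (.cons (.rel (nat_lit 1208225856)) .nil))))) (.cons (.br (nat_lit 5) (.cons (.rel (nat_lit 4362666000)) (.cons (.rel (nat_lit 4362093120)) .nil))) .nil))) .leaf) (nat_lit 11611152035659927) (.br (nat_lit 0) (.cons (.br (nat_lit 1) (.cons (.rel (nat_lit 38010912)) .nil)) .nil)) .leaf)) (nat_lit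 11611152035922202) (.br (nat_lit 0) (.cons (.br (nat_lit 1) (.cons (.rel (nat_lit 38010912)) .nil)) .nil)) (.node (.node (.node .leaf (nat_lit 11611161707485336) (.br (nat_lit 5) (.cons (.br (nat_lit 0) (.cons (.rel (nat_lit 4299198465)) (.cons (.rel (nat_lit 4299180036)) (.cons (.rel (nat_lit 4299178002)) .nil)))) (.cons (.br (nat_lit 0) (.cons (.rel (nat_lit 8598327312)) (.cons (.rel (nat_lit 4299178002)) (.cons (.br (nat_lit 1) (.cons (.rel (nat_lit 20975622)) (.cons (.rel (nat_lit 4311761217)) (.cons (.rel (nat_lit 8606712081)) .nil)))) .nil)))) .nil))) .leaf) (nat_lit 11611161707485360) (.br (nat_lit 0) (.cons (.br (nat_lit 2) (.cons (.rel (nat_lit 71467008)) .nil)) .nil)) .leaf) (nat_lit 11611161707485361) (.br (nat_lit 5) (.cons (.br (nat_lit 0) (.cons (.rel (nat_lit 8598327312)) (.cons (.rel (nat_lit 4299227649)) .nil))) .nil)) (.node .leaf (nat_lit 11611161710302120) (.br (nat_lit 0) (.cons (.br (nat_lit 1) (.cons (.rel (nat_lit 21037074)) .nil)) .nil)) .leaf))) (nat_lit 11611161710598296)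 (.br (nat_lit 2) (.cons (.br (nat_lit 5) (.cons (.rel (nat_lit 4362093120)) .nil)) .nil)) (.node (.node (.node (.node .leaf (nat_lit 11611276000943615) (.br (nat_lit 0) (.cons (.br (nat_lit 1) (.cons (.rel (nat_lit 20972040)) .nil)) .nil)) .leaf) (nat_lit 11612132370043511) (.br (nat_lit 1) (.cons (.br (nat_lit 2) (.cons (.rel (nat_lit 84412416)) .nil)) .nil)) .leaf) (nat_lit 11612132370098213) (.br (nat_lit 0) (.cons (.br (nat_lit 1) (.cons (.rel (nat_lit 21037074)) .nil)) .nil)) (.node (.node .leaf (nat_lit 11612132370331928) (.br (nat_lit 0) (.cons (.br (nat_lit 1) (.cons (.rel (nat_lit 21037074)) (.cons (.br (nat_lit 2) (.cons (.rel (nat_lit 85984272)) (.cons (.rel (nat_lit 83952192)) .nil))) .nil))) (.cons (.br (nat_lit 2) (.cons (.rel (nat_lit 142607376)) (.cons (.rel (nat_lit 71304213)) .nil))) .nil))) .leaf) (nat_lit 11612132373208476) (.br (nat_lit 0) (.cons (.br (nat_lit 6) (.cons (.rel (nat_lit 34363933200)) .nil)) .nil)) .leaf)) (nat_lit 11612133944494261) (.br (nat_lit 2) (.cons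 (.br (nat_lit 5) (.cons (.rel (nat_lit 4362211392)) .nil)) .nil)) (.node (.node (.node .leaf (nat_lit 11612137699965208) (.br (nat_lit 1) (.cons (.br (nat_lit 2) (.cons (.rel (nat_lit 86065152)) .nil)) .nil)) .leaf) (nat_lit 11612347328123057) (.br (nat_lit 1) (.cons (.br (nat_lit 6) (.cons (.rel (nat_lit 17196648465)) .nil)) .nil)) .leaf) (nat_lit 11612347328123185) (.br (nat_lit 2) (.cons (.br (nat_lit 3) (.cons (.rel (nat_lit 335581188)) (.cons (.rel (nat_lit 402915348)) .nil))) (.cons (.br (nat_lit 1) (.cons (.rel (nat_lit 83902545)) (.cons (.rel (nat_lit 84412416)) (.cons (.rel (nat_lit 83887428)) .nil)))) .nil))) (.node .leaf (nat_lit 11612347328174335) (.br (nat_lit 1) (.cons (.br (nat_lit 3) (.cons (.rel (nat_lit 285278469)) .nil)) .nil)) .leaf)))) (nat_lit 11612347328175611) (.br (nat_lit 1) (.cons (.br (nat_lit 2) (.cons (.rel (nat_lit 84412416)) .nil)) .nil)) (.node (.node (.node (.node (.node .leaf (nat_lit 11612347328175640) (.br (nat_lit 3) (.cons (.br (nat_lit 2) (.cons (.rel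 (nat_lit 671155200)) (.cons (.rel (nat_lit 671155200)) (.cons (.rel (nat_lit 335560725)) .nil)))) (.cons (.br (nat_lit 2) (.cons (.rel (nat_lit 335544609)) (.cons (.rel (nat_lit 335560725)) (.cons (.rel (nat_lit 402657408)) .nil)))) .nil))) .leaf) (nat_lit 11612347328676145) (.br (nat_lit 1) (.cons (.br (nat_lit 2) (.cons (.rel (nat_lit 83902545)) .nil)) .nil)) .leaf) (nat_lit 11612347329444145) (.br (nat_lit 0) (.cons (.br (nat_lit 3) (.cons (.rel (nat_lit 541130784)) (.cons (.br (nat_lit 4) (.cons (.rel (nat_lit 1078069248)) (.cons (.rel (nat_lit 2151948288)) (.cons (.rel (nat_lit 2684370960)) (.cons (.rel (nat_lit 1342193928)) .nil))))) .nil))) (.cons (.br (nat_lit 3) (.cons (.rel (nat_lit 545259840)) (.cons (.rel (nat_lit 541099008)) .nil))) .nil))) (.node (.node .leaf (nat_lit 11612347329710140) (.br (nat_lit 0) (.cons (.br (nat_lit 2) (.cons (.rel (nat_lit 142606341)) .nil)) .nil)) .leaf) (nat_lit 11612347329712305) (.br (nat_lit 0) (.cons (.br (nat_lit 3) (.cons (.rel (nat_lit 273679362))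 .nil)) .nil)) .leaf)) (nat_lit 11612347329742211) (.br (nat_lit 0) (.cons (.br (nat_lit 1) (.cons (.rel (nat_lit 21037074)) .nil)) .nil)) (.node (.node (.node .leaf (nat_lit 11612347329915532) (.br (nat_lit 0) (.cons (.br (nat_lit 1) (.cons (.rel (nat_lit 20975622)) (.cons (.rel (nat_lit 20988192)) .nil))) (.cons (.br (nat_lit 1) (.cons (.rel (nat_lit 22020192)) (.cons (.rel (nat_lit 21037074)) .nil))) .nil))) .leaf) (nat_lit 11612347330982065) (.br (nat_lit 2) (.cons (.br (nat_lit 3) (.cons (.rel (nat_lit 335613954)) .nil)) .nil)) .leaf) (nat_lit 11612347331033393) (.br (nat_lit 1) (.cons (.br (nat_lit 2) (.cons (.rel (nat_lit 168035328)) .nil)) .nil)) (.node .leaf (nat_lit 11612347331041457) (.br (nat_lit 2) (.cons (.br (nat_lit 3) (.cons (.rel (nat_lit 335545608)) .nil)) .nil)) .leaf))) (nat_lit 11612347331041932) (.br (nat_lit 0) (.cons (.br (nat_lit 2) (.cons (.rel (nat_lit 142606341)) .nil)) .nil)) (.node (.node (.node (.node .leaf (nat_lit 11613084770944507) (.br (nat_lit 1) (.cons (.br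 (nat_lit 2) (.cons (.rel (nat_lit 100663554)) .nil)) .nil)) .leaf) (nat_lit 11616429645998732) (.br (nat_lit 0) (.cons (.br (nat_lit 1) (.cons (.rel (nat_lit 20976657)) .nil)) .nil)) .leaf) (nat_lit 11616429646049932) (.br (nat_lit 1) (.cons (.br (nat_lit 5) (.cons (.rel (nat_lit 8606728197)) .nil)) .nil)) (.node .leaf (nat_lit 11616431531694115) (.br (nat_lit 0) (.cons (.br (nat_lit 4) (.cons (.rel (nat_lit 1077945345)) .nil)) .nil)) .leaf)) (nat_lit 11616431531695356) (.br (nat_lit 1) (.cons (.br (nat_lit 0) (.cons (.rel (nat_lit 20972040)) (.cons (.rel (nat_lit 38010912)) .nil))) .nil)) (.node (.node (.node .leaf (nat_lit 11616431531991820) (.br (nat_lit 1) (.cons (.br (nat_lit 3) (.cons (.rel (nat_lit 570445824)) .nil)) .nil)) .leaf) (nat_lit 11616431531992341) (.br (nat_lit 1) (.cons (.br (nat_lit 4) (.cons (.rel (nat_lit 1107361800)) .nil)) .nil)) .leaf) (nat_lit 11616431533016316) (.br (nat_lit 1) (.cons (.br (nat_lit 2) (.cons (.rel (nat_lit 84412416)) .nil)) .nil)) (.node .leaf (nat_lit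 11616432570237708) (.br (nat_lit 1) (.cons (.br (nat_lit 3) (.cons (.rel (nat_lit 554237952)) (.cons (.rel (nat_lit 285212706)) .nil))) .nil)) .leaf)))))

/-- refutations 10 -/
def e10 : EX := (.node (.node (.node (.node (.node (.node .leaf (nat_lit 11616642085755816) (.br (nat_lit 1) (.cons (.br (nat_lit 5) (.cons (.rel (nat_lit 4311761217)) .nil)) .nil)) .leaf) (nat_lit 11616642085756411) (.br (nat_lit 0) (.cons (.br (nat_lit 1) (.cons (.rel (nat_lit 21037074)) .nil)) .nil)) .leaf) (nat_lit 11616647526281227) (.br (nat_lit 0) (.cons (.br (nat_lit 1) (.cons (.rel (nat_lit 20997120)) .nil)) .nil)) (.node .leaf (nat_lit 11617286333615386) (.br (nat_lit 0) (.cons (.br (nat_lit 2) (.cons (.rel (nat_lit 71368977)) .nil)) .nil)) .leaf)) (nat_lit 11617287905183002) (.br (nat_lit 0) (.cons (.br (nat_lit 4) (.cons (.rel (nat_lit 1078005762)) .nil)) .nil)) (.node (.node .leaf (nat_lit 11617287905250211) (.br (nat_lit 0) (.cons (.br (nat_lit 1) (.cons (.br (nat_lit 2) (.cons (.rel (nat_lit 85984272))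 .nil)) .nil)) .nil)) .leaf) (nat_lit 11617287906786211) (.br (nat_lit 0) (.cons (.br (nat_lit 4) (.cons (.rel (nat_lit 2151948288)) .nil)) .nil)) (.node .leaf (nat_lit 11617287906786586) (.br (nat_lit 0) (.cons (.br (nat_lit 2) (.cons (.rel (nat_lit 71467008)) .nil)) .nil)) .leaf))) (nat_lit 11617334608520053) (.br (nat_lit 0) (.cons (.br (nat_lit 1) (.cons (.rel (nat_lit 20976657)) .nil)) .nil)) (.node (.node (.node .leaf (nat_lit 11618450166303345) (.br (nat_lit 0) (.cons (.br (nat_lit 1) (.cons (.rel (nat_lit 38879232)) .nil)) .nil)) .leaf) (nat_lit 11618680208913036) (.br (nat_lit 0) (.cons (.br (nat_lit 1) (.cons (.rel (nat_lit 20972040)) .nil)) .nil)) (.node .leaf (nat_lit 11618682094557361) (.br (nat_lit 0) (.cons (.br (nat_lit 1) (.cons (.rel (nat_lit 41943300)) .nil)) .nil)) .leaf)) (nat_lit 11618682096290473) (.br (nat_lit 3) (.cons (.br (nat_lit 6) (.cons (.rel (nat_lit 17448567042)) .nil)) .nil)) (.node (.node .leaf (nat_lit 11618682096349360) (.br (nat_lit 1) (.cons (.br (nat_lit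 2) (.cons (.rel (nat_lit 84412416)) .nil)) .nil)) .leaf) (nat_lit 11618682097111345) (.br (nat_lit 1) (.cons (.br (nat_lit 2) (.cons (.rel (nat_lit 84412416)) .nil)) .nil)) (.node .leaf (nat_lit 11618682732042375) (.br (nat_lit 0) (.cons (.br (nat_lit 1) (.cons (.rel (nat_lit 20988192)) .nil)) .nil)) .leaf)))) (nat_lit 11621883477268636) (.br (nat_lit 0) (.cons (.br (nat_lit 4) (.cons (.rel (nat_lit 1082658816)) .nil)) .nil)) (.node (.node (.node (.node .leaf (nat_lit 11621883478292491) (.br (nat_lit 1) (.cons (.br (nat_lit 3) (.cons (.rel (nat_lit 285214740)) .nil)) .nil)) .leaf) (nat_lit 11621883478293880) (.br (nat_lit 3) (.cons (.br (nat_lit 0) (.cons (.rel (nat_lit 272630400)) (.cons (.rel (nat_lit 273679362)) .nil))) .nil)) (.node .leaf (nat_lit 11621883478294011) (.br (nat_lit 1) (.cons (.br (nat_lit 3) (.cons (.rel (nat_lit 285212706)) .nil)) .nil)) .leaf)) (nat_lit 11621883478345066) (.br (nat_lit 0) (.cons (.br (nat_lit 2) (.cons (.rel (nat_lit 75563076)) .nil)) .nil)) (.node (.node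 .leaf (nat_lit 11621883478562168) (.br (nat_lit 1) (.cons (.br (nat_lit 3) (.cons (.rel (nat_lit 570445824)) .nil)) .nil)) .leaf) (nat_lit 11621883479645461) (.br (nat_lit 1) (.cons (.br (nat_lit 5) (.cons (.br (nat_lit 3) (.cons (.rel (nat_lit 4563542016)) (.cons (.rel (nat_lit 4563542016)) .nil))) (.cons (.rel (nat_lit 4311778368)) (.cons (.rel (nat_lit 4311778368)) .nil)))) .nil)) (.node .leaf (nat_lit 11621883479645560) (.br (nat_lit 3) (.cons (.br (nat_lit 1) (.cons (.rel (nat_lit 285212706)) (.cons (.rel (nat_lit 285253632)) .nil))) .nil)) .leaf))) (nat_lit 11621883479787531) (.br (nat_lit 1) (.cons (.br (nat_lit 3) (.cons (.rel (nat_lit 285212706)) .nil)) .nil)) (.node (.node (.node .leaf (nat_lit 11621886780822135) (.br (nat_lit 2) (.cons (.br (nat_lit 3) (.cons (.rel (nat_lit 335560725)) .nil)) .nil)) .leaf) (nat_lit 11623093197971456) (.br (nat_lit 0) (.cons (.br (nat_lit 1) (.cons (.rel (nat_lit 41943300)) .nil)) .nil)) (.node .leaf (nat_lit 11623093197971608) (.br (nat_lit 1) (.cons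 (.br (nat_lit 5) (.cons (.rel (nat_lit 8606712081)) (.cons (.rel (nat_lit 4311761217)) .nil))) .nil)) .leaf)) (nat_lit 11623093197972116) (.br (nat_lit 1) (.cons (.br (nat_lit 4) (.cons (.rel (nat_lit 1091043585)) .nil)) .nil)) (.node (.node .leaf (nat_lit 11623093199669383) (.br (nat_lit 0) (.cons (.br (nat_lit 1) (.cons (.rel (nat_lit 20975622)) .nil)) .nil)) .leaf) (nat_lit 11623097306918420) (.br (nat_lit 2) (.cons (.br (nat_lit 4) (.cons (.rel (nat_lit 2281963776)) .nil)) .nil)) (.node .leaf (nat_lit 11623098359485951) (.br (nat_lit 0) (.cons (.br (nat_lit 1) (.cons (.rel (nat_lit 20988192)) .nil)) .nil)) .leaf)))))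

/-- refutations 11 -/
def e11 : EX := (.node (.node (.node (.node (.node (.node .leaf (nat_lit 11171570823510193) (.br (nat_lit 0) (.cons (.br (nat_lit 2) (.cons (.rel (nat_lit 71303178)) .nil)) .nil)) .leaf) (nat_lit 11171570825760945) (.br (nat_lit 0) (.cons (.br (nat_lit 1) (.cons (.rel (nat_lit 20975622)) .nil)) .nil)) .leaf) (nat_lit 11171571911440561) (.br (nat_lit 1) (.cons (.br (nat_lit 3) (.cons (.rel (nat_lit 285492288)) .nil)) .nil)) (.node .leaf (nat_lit 11171571912405169) (.br (nat_lit 0) (.cons (.br (nat_lit 1) (.cons (.rel (nat_lit 20997120)) .nil)) .nil)) .leaf)) (nat_lit 11171571912464561) (.br (nat_lit 0) (.cons (.br (nat_lit 2) (.cons (.rel (nat_lit 71304213)) .nil)) .nil)) (.node (.node (.node .leaf (nat_lit 11171574111556236) (.br (nat_lit 0) (.cons (.br (nat_lit 2) (.cons (.rel (nat_lit 71304213)) .nil)) .nil)) .leaf) (nat_lit 11172327929154972) (.br (nat_lit 1) (.cons (.br (nat_lit 2) (.cons (.rel (nat_lit 100680705)) .nil)) .nil)) .leaf) (nat_lit 11172542572155057) (.br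 (nat_lit 2) (.cons (.br (nat_lit 3) (.cons (.br (nat_lit 1) (.cons (.rel (nat_lit 84412416)) (.cons (.rel (nat_lit 570425361)) .nil))) .nil)) .nil)) (.node .leaf (nat_lit 11172542572257457) (.br (nat_lit 1) (.cons (.br (nat_lit 2) (.cons (.rel (nat_lit 83887428)) (.cons (.rel (nat_lit 83923008)) .nil))) (.cons (.br (nat_lit 2) (.cons (.rel (nat_lit 83902545)) (.cons (.rel (nat_lit 83887428)) .nil))) .nil))) .leaf))) (nat_lit 11172542572258811) (.br (nat_lit 1) (.cons (.br (nat_lit 2) (.cons (.rel (nat_lit 84412416)) .nil)) .nil)) (.node (.node (.node (.node .leaf (nat_lit 11172542575014668) (.br (nat_lit 0) (.cons (.br (nat_lit 1) (.cons (.rel (nat_lit 41943300)) .nil)) .nil)) .leaf) (nat_lit 11172542575073411) (.br (nat_lit 1) (.cons (.br (nat_lit 2) (.cons (.rel (nat_lit 100663554)) .nil)) .nil)) .leaf) (nat_lit 11178658607412756) (.br (nat_lit 0) (.cons (.br (nat_lit 1) (.cons (.rel (nat_lit 21037074)) .nil)) .nil)) (.node .leaf (nat_lit 11178818029946930) (.br (nat_lit 1) (.cons (.br (nat_lit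 3) (.cons (.rel (nat_lit 285278469)) .nil)) .nil)) .leaf)) (nat_lit 11183368469801716) (.br (nat_lit 0) (.cons (.br (nat_lit 5) (.cons (.rel (nat_lit 4299167232)) .nil)) .nil)) (.node (.node .leaf (nat_lit 11184137897818239) (.br (nat_lit 3) (.cons (.br (nat_lit 0) (.cons (.rel (nat_lit 541130784)) (.cons (.rel (nat_lit 541069332)) (.cons (.rel (nat_lit 272630400)) .nil)))) .nil)) .leaf) (nat_lit 11184137897819392) (.br (nat_lit 3) (.cons (.br (nat_lit 1) (.cons (.rel (nat_lit 285278469)) (.cons (.rel (nat_lit 286785540)) .nil))) .nil)) (.node .leaf (nat_lit 11184137900186880) (.br (nat_lit 1) (.cons (.br (nat_lit 5) (.cons (.rel (nat_lit 8623755264)) .nil)) .nil)) .leaf)))) (nat_lit 11184138983956607) (.br (nat_lit 0) (.cons (.br (nat_lit 1) (.cons (.rel (nat_lit 20976657)) .nil)) .nil)) (.node (.node (.node (.node (.node .leaf (nat_lit 11184138984195328) (.br (nat_lit 0) (.cons (.br (nat_lit 3) (.cons (.rel (nat_lit 541069332)) (.cons (.rel (nat_lit 273752064)) .nil))) .nil)) .leaf) (nat_lit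 11184138985748632) (.br (nat_lit 1) (.cons (.br (nat_lit 2) (.cons (.rel (nat_lit 84412416)) .nil)) .nil)) .leaf) (nat_lit 11184138986713240) (.br (nat_lit 1) (.cons (.br (nat_lit 3) (.cons (.rel (nat_lit 285295620)) .nil)) .nil)) (.node .leaf (nat_lit 11184138987018390) (.br (nat_lit 6) (.cons (.br (nat_lit 2) (.cons (.rel (nat_lit 17246986272)) (.cons (.rel (nat_lit 34493960208)) .nil))) .nil)) .leaf)) (nat_lit 11184138987018516) (.br (nat_lit 1) (.cons (.br (nat_lit 4) (.cons (.br (nat_lit 0) (.cons (.rel (nat_lit 20988192)) (.cons (.rel (nat_lit 2152726800)) .nil))) .nil)) .nil)) (.node (.node (.node .leaf (nat_lit 11184140557008128) (.br (nat_lit 0) (.cons (.br (nat_lit 3) (.cons (.rel (nat_lit 273679362)) (.cons (.rel (nat_lit 273678372)) .nil))) .nil)) .leaf) (nat_lit 11184141186102184) (.br (nat_lit 3) (.cons (.br (nat_lit 5) (.cons (.rel (nat_lit 4563419397)) .nil)) .nil)) .leaf) (nat_lit 11184141186102528) (.br (nat_lit 1) (.cons (.br (nat_lit 3) (.cons (.rel (nat_lit 285475137)) .nil))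 .nil)) (.node .leaf (nat_lit 11184141187655807) (.br (nat_lit 3) (.cons (.br (nat_lit 2) (.cons (.rel (nat_lit 335561760)) (.cons (.rel (nat_lit 335561760)) .nil))) .nil)) .leaf))) (nat_lit 11184141187655836) (.br (nat_lit 1) (.cons (.br (nat_lit 6) (.cons (.rel (nat_lit 17196720132)) .nil)) .nil)) (.node (.node (.node (.node .leaf (nat_lit 11184141187656931) (.br (nat_lit 1) (.cons (.br (nat_lit 3) (.cons (.rel (nat_lit 285282816)) .nil)) .nil)) .leaf) (nat_lit 11184141187657065) (.br (nat_lit 6) (.cons (.br (nat_lit 0) (.cons (.rel (nat_lit 34363999233)) (.cons (.rel (nat_lit 17185177860)) .nil))) .nil)) .leaf) (nat_lit 11184141187707007) (.br (nat_lit 1) (.cons (.br (nat_lit 2) (.cons (.rel (nat_lit 84412416)) .nil)) .nil)) (.node .leaf (nat_lit 11184141187707816) (.br (nat_lit 1) (.cons (.br (nat_lit 4) (.cons (.rel (nat_lit 1091043585)) .nil)) .nil)) .leaf)) (nat_lit 11184141187758966) (.br (nat_lit 0) (.cons (.br (nat_lit 3) (.cons (.rel (nat_lit 272630400)) .nil)) .nil)) (.node (.node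 .leaf (nat_lit 11184141187759360) (.br (nat_lit 0) (.cons (.br (nat_lit 1) (.cons (.rel (nat_lit 20972040)) .nil)) .nil)) .leaf) (nat_lit 11184141188528284) (.br (nat_lit 3) (.cons (.br (nat_lit 0) (.cons (.rel (nat_lit 541130784)) (.cons (.rel (nat_lit 276893700)) .nil))) .nil)) (.node .leaf (nat_lit 11552758849919136) (.br (nat_lit 0) (.cons (.br (nat_lit 1) (.cons (.rel (nat_lit 21057537)) .nil)) .nil)) .leaf)))))

/-- refutations 12 -/
def e12 : EX := (.node (.node (.node (.node .leaf (nat_lit 11980279876497568) (.br (nat_lit 0) (.cons (.br (nat_lit 4) (.cons (.rel (nat_lit 1078005762)) .nil)) .nil)) .leaf) (nat_lit 11981417836019988) (.br (nat_lit 1) (.cons (.br (nat_lit 2) (.cons (.rel (nat_lit 85987584)) .nil)) .nil)) (.node .leaf (nat_lit 11986082172979335) (.br (nat_lit 2) (.cons (.br (nat_lit 3) (.cons (.rel (nat_lit 335545608)) .nil)) .nil)) .leaf)) (nat_lit 11987809401833607) (.br (nat_lit 1) (.cons (.br (nat_lit 2) (.cons (.rel (nat_lit 85987584)) .nil)) .nil)) (.node (.node .leaf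 (nat_lit 11993697369508000) (.br (nat_lit 0) (.cons (.br (nat_lit 4) (.cons (.rel (nat_lit 1078069248)) .nil)) .nil)) .leaf) (nat_lit 12051937126322477) (.br (nat_lit 1) (.cons (.br (nat_lit 2) (.cons (.rel (nat_lit 100671492)) .nil)) .nil)) .leaf)) (nat_lit 12051937126620572) (.br (nat_lit 1) (.cons (.br (nat_lit 2) (.cons (.rel (nat_lit 100671492)) .nil)) .nil)) (.node (.node (.node .leaf (nat_lit 12051937128818819) (.br (nat_lit 1) (.cons (.br (nat_lit 3) (.cons (.rel (nat_lit 285212706)) .nil)) .nil)) .leaf) (nat_lit 12051941215510040) (.br (nat_lit 1) (.cons (.br (nat_lit 3) (.cons (.rel (nat_lit 285279504)) .nil)) .nil)) .leaf) (nat_lit 12051941215805720) (.br (nat_lit 0) (.cons (.br (nat_lit 1) (.cons (.rel (nat_lit 20979969)) .nil)) .nil)) (.node (.node .leaf (nat_lit 12052151771361457) (.br (nat_lit 1) (.cons (.br (nat_lit 2) (.cons (.rel (nat_lit 100663554)) .nil)) .nil)) .leaf) (nat_lit 13229638544058519) (.br (nat_lit 1) (.cons (.br (nat_lit 4) (.cons (.rel (nat_lit 1107329025))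 .nil)) .nil)) .leaf)))

/-- refutations 13 -/
def e13 : EX := (.node (.node (.node (.node .leaf (nat_lit 13378008173845290) (.br (nat_lit 0) (.cons (.br (nat_lit 1) (.cons (.rel (nat_lit 22020192)) .nil)) .nil)) .leaf) (nat_lit 13651644735897727) (.br (nat_lit 0) (.cons (.br (nat_lit 1) (.cons (.rel (nat_lit 20976657)) .nil)) .nil)) (.node .leaf (nat_lit 13651644737392767) (.br (nat_lit 1) (.cons (.br (nat_lit 2) (.cons (.rel (nat_lit 168035328)) .nil)) .nil)) .leaf)) (nat_lit 13652825952568732) (.br (nat_lit 0) (.cons (.br (nat_lit 1) (.cons (.rel (nat_lit 25690128)) .nil)) .nil)) (.node (.node .leaf (nat_lit 13652827722759019) (.br (nat_lit 0) (.cons (.br (nat_lit 1) (.cons (.rel (nat_lit 20976657)) .nil)) .nil)) .leaf) (nat_lit 13658460949826816) (.br (nat_lit 0) (.cons (.br (nat_lit 5) (.cons (.rel (nat_lit 4299169824)) .nil)) .nil)) (.node .leaf (nat_lit 13659376713478449) (.br (nat_lit 0) (.cons (.br (nat_lit 1) (.cons (.rel (nat_lit 20976657)) .nil)) .nil)) .leaf))) (nat_lit 13659376714756876)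 (.br (nat_lit 0) (.cons (.br (nat_lit 1) (.cons (.rel (nat_lit 20972040)) .nil)) .nil)) (.node (.node (.node .leaf (nat_lit 13671552011784229) (.br (nat_lit 0) (.cons (.br (nat_lit 1) (.cons (.rel (nat_lit 21103872)) .nil)) .nil)) .leaf) (nat_lit 13722008305741951) (.br (nat_lit 1) (.cons (.br (nat_lit 2) (.cons (.rel (nat_lit 83923008)) .nil)) .nil)) (.node .leaf (nat_lit 13722008306089212) (.br (nat_lit 0) (.cons (.br (nat_lit 1) (.cons (.rel (nat_lit 20972040)) .nil)) .nil)) .leaf)) (nat_lit 13745942519885202) (.br (nat_lit 0) (.cons (.br (nat_lit 1) (.cons (.rel (nat_lit 21037074)) (.cons (.rel (nat_lit 41943300)) .nil))) .nil)) (.node (.node .leaf (nat_lit 13745942521165202) (.br (nat_lit 0) (.cons (.br (nat_lit 2) (.cons (.rel (nat_lit 71307525)) .nil)) .nil)) .leaf) (nat_lit 13750762102643568) (.br (nat_lit 1) (.cons (.br (nat_lit 2) (.cons (.rel (nat_lit 168067329)) .nil)) .nil)) .leaf)))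

/-- refutations 14 -/
def e14 : EX := (.node (.node .leaf (nat_lit 13820907256668222) (.br (nat_lit 0) (.cons (.br (nat_lit 1) (.cons (.rel (nat_lit 21037074)) .nil)) .nil)) .leaf) (nat_lit 13821036673147640) (.br (nat_lit 1) (.cons (.br (nat_lit 3) (.cons (.rel (nat_lit 570425361)) .nil)) .nil)) (.node .leaf (nat_lit 15406136232519860) (.br (nat_lit 1) (.cons (.br (nat_lit 3) (.cons (.rel (nat_lit 301990020)) .nil)) .nil)) .leaf))

/-- refutations 15 -/
def e15 : EX := (.node (.node (.node (.node (.node .leaf (nat_lit 15488044491634050) (.br (nat_lit 0) (.cons (.br (nat_lit 1) (.cons (.rel (nat_lit 38010912)) .nil)) .nil)) .leaf) (nat_lit 15494054192619556) (.br (nat_lit 0) (.cons (.br (nat_lit 1) (.cons (.rel (nat_lit 38010912)) .nil)) .nil)) .leaf) (nat_lit 15516841862551708) (.br (nat_lit 0) (.cons (.br (nat_lit 3) (.cons (.rel (nat_lit 273711360)) .nil)) .nil)) (.node (.node .leaf (nat_lit 15516841862569241) (.br (nat_lit 1) (.cons (.br (nat_lit 2) (.cons (.rel (nat_lit 83887428)) (.cons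 (.rel (nat_lit 83887428)) .nil))) .nil)) .leaf) (nat_lit 15516841862619313) (.br (nat_lit 3) (.cons (.br (nat_lit 5) (.cons (.rel (nat_lit 4563419397)) .nil)) .nil)) .leaf)) (nat_lit 15516841862620018) (.br (nat_lit 0) (.cons (.br (nat_lit 2) (.cons (.rel (nat_lit 72421440)) .nil)) .nil)) (.node (.node (.node .leaf (nat_lit 15516841863787797) (.br (nat_lit 1) (.cons (.br (nat_lit 2) (.cons (.rel (nat_lit 151060500)) .nil)) .nil)) .leaf) (nat_lit 15516841864106289) (.br (nat_lit 0) (.cons (.br (nat_lit 1) (.cons (.rel (nat_lit 20972040)) .nil)) .nil)) .leaf) (nat_lit 15516841864107289) (.br (nat_lit 0) (.cons (.br (nat_lit 3) (.cons (.rel (nat_lit 545259840)) .nil)) .nil)) (.node (.node .leaf (nat_lit 15516841865325980) (.br (nat_lit 0) (.cons (.br (nat_lit 1) (.cons (.rel (nat_lit 21004308)) .nil)) .nil)) .leaf) (nat_lit 15516841865672856) (.br (nat_lit 1) (.cons (.br (nat_lit 3) (.cons (.rel (nat_lit 285253632)) .nil)) .nil)) .leaf))) (nat_lit 15516841865674009) (.br (nat_lit 0) (.cons (.br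 (nat_lit 1) (.cons (.rel (nat_lit 22020192)) (.cons (.rel (nat_lit 41943300)) .nil))) .nil)) (.node (.node (.node (.node .leaf (nat_lit 15518510408874611) (.br (nat_lit 1) (.cons (.br (nat_lit 0) (.cons (.rel (nat_lit 20972040)) (.cons (.rel (nat_lit 21103872)) .nil))) .nil)) .leaf) (nat_lit 15518939472201789) (.br (nat_lit 2) (.cons (.br (nat_lit 3) (.cons (.rel (nat_lit 335553537)) .nil)) .nil)) .leaf) (nat_lit 15529408936876188) (.br (nat_lit 1) (.cons (.br (nat_lit 2) (.cons (.rel (nat_lit 150999048)) .nil)) .nil)) (.node (.node .leaf (nat_lit 15529410362991872) (.br (nat_lit 0) (.cons (.br (nat_lit 1) (.cons (.rel (nat_lit 21037074)) .nil)) .nil)) .leaf) (nat_lit 15529410601964456) (.br (nat_lit 0) (.cons (.br (nat_lit 1) (.cons (.rel (nat_lit 20975622)) .nil)) .nil)) .leaf)) (nat_lit 15529410601998463) (.br (nat_lit 1) (.cons (.br (nat_lit 5) (.cons (.rel (nat_lit 8606712081)) (.cons (.rel (nat_lit 8624603169)) .nil))) (.cons (.br (nat_lit 0) (.cons (.rel (nat_lit 20972040)) (.cons (.rel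 (nat_lit 20972040)) (.cons (.rel (nat_lit 21004308)) .nil)))) .nil))) (.node (.node (.node .leaf (nat_lit 15529410603494312) (.br (nat_lit 0) (.cons (.br (nat_lit 1) (.cons (.rel (nat_lit 21103872)) .nil)) .nil)) .leaf) (nat_lit 15582015144879015) (.br (nat_lit 1) (.cons (.br (nat_lit 2) (.cons (.rel (nat_lit 100663554)) .nil)) .nil)) .leaf) (nat_lit 15846378949435552) (.br (nat_lit 1) (.cons (.br (nat_lit 3) (.cons (.rel (nat_lit 570445824)) (.cons (.rel (nat_lit 285360384)) .nil))) .nil)) (.node (.node .leaf (nat_lit 15846378950901013) (.br (nat_lit 1) (.cons (.br (nat_lit 3) (.cons (.rel (nat_lit 570425361)) .nil)) .nil)) .leaf) (nat_lit 15846378952396053) (.br (nat_lit 0) (.cons (.br (nat_lit 1) (.cons (.rel (nat_lit 20979969)) .nil)) .nil)) .leaf))))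

/-- refutations 16 -/
def e16 : EX := (.node (.node (.node (.node (.node .leaf (nat_lit 15931711616961897) (.br (nat_lit 3) (.cons (.br (nat_lit 4) (.cons (.rel (nat_lit 1342181394)) .nil)) .nil)) .leaf) (nat_lit 15934030662963350) (.br (nat_lit 0) (.cons (.br (nat_lit 2) (.cons (.rel (nat_lit 71581761)) (.cons (.rel (nat_lit 77594889)) (.cons (.rel (nat_lit 72876048)) .nil)))) .nil)) .leaf) (nat_lit 15934030664418691) (.br (nat_lit 0) (.cons (.br (nat_lit 2) (.cons (.rel (nat_lit 73663488)) .nil)) .nil)) (.node (.node .leaf (nat_lit 15934030664459120) (.br (nat_lit 4) (.cons (.br (nat_lit 5) (.cons (.rel (nat_lit 9663676422)) (.cons (.rel (nat_lit 5370024192)) .nil))) .nil)) .leaf) (nat_lit 15934030665545090) (.br (nat_lit 0) (.cons (.br (nat_lit 1) (.cons (.rel (nat_lit 22020192)) (.cons (.rel (nat_lit 20988192)) .nil))) .nil)) .leaf)) (nat_lit 15934030666046720) (.br (nat_lit 2) (.cons (.br (nat_lit 0) (.cons (.rel (nat_lit 142606341)) (.cons (.rel (nat_lit 71581761)) (.cons (.rel (nat_lit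 142610688)) .nil)))) .nil)) (.node (.node (.node .leaf (nat_lit 15934348725332148) (.br (nat_lit 1) (.cons (.br (nat_lit 2) (.cons (.rel (nat_lit 83952192)) (.cons (.rel (nat_lit 100663554)) .nil))) .nil)) .leaf) (nat_lit 15934348726881158) (.br (nat_lit 1) (.cons (.br (nat_lit 3) (.cons (.rel (nat_lit 285253632)) (.cons (.rel (nat_lit 301990020)) .nil))) .nil)) .leaf) (nat_lit 15945227123092212) (.br (nat_lit 0) (.cons (.br (nat_lit 1) (.cons (.rel (nat_lit 20976657)) .nil)) .nil)) (.node .leaf (nat_lit 15946145229236851) (.br (nat_lit 5) (.cons (.br (nat_lit 6) (.cons (.rel (nat_lit 21474839040)) .nil)) .nil)) .leaf))) (nat_lit 15956431663569073) (.br (nat_lit 1) (.cons (.br (nat_lit 3) (.cons (.rel (nat_lit 285475137)) .nil)) .nil)) (.node (.node (.node (.node .leaf (nat_lit 15961701487480893) (.br (nat_lit 1) (.cons (.br (nat_lit 2) (.cons (.rel (nat_lit 83887428)) .nil)) .nil)) .leaf) (nat_lit 15961917481241512) (.br (nat_lit 1) (.cons (.br (nat_lit 3) (.cons (.rel (nat_lit 570425361))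 .nil)) .nil)) .leaf) (nat_lit 15963042760153215) (.br (nat_lit 1) (.cons (.br (nat_lit 0) (.cons (.rel (nat_lit 41943300)) (.cons (.rel (nat_lit 21004308)) .nil))) .nil)) (.node (.node .leaf (nat_lit 15963042762673064) (.br (nat_lit 3) (.cons (.br (nat_lit 5) (.cons (.rel (nat_lit 4563423744)) .nil)) .nil)) .leaf) (nat_lit 15966908232215914) (.br (nat_lit 1) (.cons (.br (nat_lit 2) (.cons (.rel (nat_lit 84412416)) .nil)) .nil)) .leaf)) (nat_lit 15969522933501205) (.br (nat_lit 3) (.cons (.br (nat_lit 4) (.cons (.rel (nat_lit 1342210080)) .nil)) .nil)) (.node (.node (.node .leaf (nat_lit 15969524507548530) (.br (nat_lit 0) (.cons (.br (nat_lit 1) (.cons (.rel (nat_lit 21004308)) .nil)) .nil)) .leaf) (nat_lit 15969524509035378) (.br (nat_lit 0) (.cons (.br (nat_lit 3) (.cons (.rel (nat_lit 272630400)) .nil)) .nil)) .leaf) (nat_lit 15969524509035403) (.br (nat_lit 0) (.cons (.br (nat_lit 1) (.cons (.rel (nat_lit 20988192)) .nil)) .nil)) (.node .leaf (nat_lit 15969524509035797) (.br (nat_lit 0)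 (.cons (.br (nat_lit 1) (.cons (.rel (nat_lit 20972040)) .nil)) .nil)) .leaf))))

/-- refutations 17 -/
def e17 : EX := (.node (.node (.node (.node (.node .leaf (nat_lit 16391522116785038) (.br (nat_lit 2) (.cons (.br (nat_lit 3) (.cons (.rel (nat_lit 335560725)) .nil)) .nil)) .leaf) (nat_lit 16459863634750941) (.br (nat_lit 0) (.cons (.br (nat_lit 4) (.cons (.rel (nat_lit 1078034448)) .nil)) .nil)) .leaf) (nat_lit 16459864578461160) (.br (nat_lit 0) (.cons (.br (nat_lit 2) (.cons (.rel (nat_lit 71307525)) .nil)) .nil)) (.node .leaf (nat_lit 16459864578776470) (.br (nat_lit 0) (.cons (.br (nat_lit 1) (.cons (.rel (nat_lit 21235776)) .nil)) .nil)) .leaf)) (nat_lit 16459864579810040) (.br (nat_lit 2) (.cons (.br (nat_lit 0) (.cons (.rel (nat_lit 142607376)) (.cons (.rel (nat_lit 142610688)) .nil))) .nil)) (.node (.node .leaf (nat_lit 16459864580362416) (.br (nat_lit 0) (.cons (.br (nat_lit 1) (.cons (.rel (nat_lit 20975622)) .nil)) .nil)) .leaf) (nat_lit 16459864581604110) (.br (nat_lit 0) (.cons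 (.br (nat_lit 1) (.cons (.rel (nat_lit 20972040)) (.cons (.rel (nat_lit 20972040)) .nil))) (.cons (.br (nat_lit 2) (.cons (.rel (nat_lit 71304213)) (.cons (.rel (nat_lit 142607376)) (.cons (.rel (nat_lit 142610688)) .nil)))) .nil))) (.node .leaf (nat_lit 16461794347066856) (.br (nat_lit 1) (.cons (.br (nat_lit 2) (.cons (.rel (nat_lit 84412416)) .nil)) .nil)) .leaf))) (nat_lit 16461796371682190) (.br (nat_lit 1) (.cons (.br (nat_lit 0) (.cons (.rel (nat_lit 20972040)) (.cons (.rel (nat_lit 38797317)) .nil))) .nil)) (.node (.node (.node (.node .leaf (nat_lit 16461797315093416) (.br (nat_lit 0) (.cons (.br (nat_lit 1) (.cons (.rel (nat_lit 41943300)) .nil)) .nil)) .leaf) (nat_lit 16466330285808896) (.br (nat_lit 0) (.cons (.br (nat_lit 3) (.cons (.rel (nat_lit 272630400)) .nil)) .nil)) .leaf) (nat_lit 16466334980315271) (.br (nat_lit 1) (.cons (.br (nat_lit 3) (.cons (.rel (nat_lit 570425361)) .nil)) .nil)) (.node .leaf (nat_lit 16466334981637532) (.br (nat_lit 1) (.cons (.br (nat_lit 3) (.cons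 (.rel (nat_lit 286785540)) .nil)) .nil)) .leaf)) (nat_lit 16466334983429532) (.br (nat_lit 1) (.cons (.br (nat_lit 3) (.cons (.rel (nat_lit 301990020)) (.cons (.rel (nat_lit 301990020)) .nil))) .nil)) (.node (.node .leaf (nat_lit 16479447097578354) (.br (nat_lit 0) (.cons (.br (nat_lit 1) (.cons (.rel (nat_lit 21037074)) .nil)) .nil)) .leaf) (nat_lit 16479447099145479) (.br (nat_lit 2) (.cons (.br (nat_lit 3) (.cons (.rel (nat_lit 335610372)) .nil)) .nil)) (.node .leaf (nat_lit 16479697648499975) (.br (nat_lit 1) (.cons (.br (nat_lit 2) (.cons (.rel (nat_lit 83923008)) .nil)) .nil)) .leaf))))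

/-- refutations 18 -/
def e18 : EX := (.node (.node (.node .leaf (nat_lit 22028089140242484) (.br (nat_lit 0) (.cons (.br (nat_lit 1) (.cons (.rel (nat_lit 20997120)) .nil)) .nil)) .leaf) (nat_lit 22031860576492400) (.br (nat_lit 0) (.cons (.br (nat_lit 1) (.cons (.rel (nat_lit 21004308)) .nil)) .nil)) .leaf) (nat_lit 22031864752083750) (.br (nat_lit 0) (.cons (.br (nat_lit 1) (.cons (.rel (nat_lit 20997120)) .nil)) .nil)) (.node (.node .leaf (nat_lit 22448164830685361) (.br (nat_lit 1) (.cons (.br (nat_lit 3) (.cons (.rel (nat_lit 570425361)) (.cons (.rel (nat_lit 285253632)) .nil))) .nil)) .leaf) (nat_lit 22524460646518016) (.br (nat_lit 0) (.cons (.br (nat_lit 2) (.cons (.rel (nat_lit 75563076)) .nil)) .nil)) .leaf))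

/-- refutations 19 -/
def e19 : EX := (.node (.node (.node (.node (.node .leaf (nat_lit 22613478973154040) (.br (nat_lit 0) (.cons (.br (nat_lit 1) (.cons (.rel (nat_lit 25235520)) .nil)) .nil)) .leaf) (nat_lit 22641249397229695) (.br (nat_lit 1) (.cons (.br (nat_lit 4) (.cons (.rel (nat_lit 1092632592)) .nil)) .nil)) (.node .leaf (nat_lit 22641249397230873) (.br (nat_lit 2) (.cons (.br (nat_lit 3) (.cons (.rel (nat_lit 335553537)) .nil)) .nil)) .leaf)) (nat_lit 22641584403133721) (.br (nat_lit 0) (.cons (.br (nat_lit 5) (.cons (.rel (nat_lit 4299169824)) .nil)) .nil)) (.node (.node .leaf (nat_lit 22641584404678936) (.br (nat_lit 0) (.cons (.br (nat_lit 1) (.cons (.rel (nat_lit 20997120)) .nil)) .nil)) .leaf) (nat_lit 22887537232412799) (.br (nat_lit 1) (.cons (.br (nat_lit 4) (.cons (.rel (nat_lit 2164391940)) .nil)) .nil)) .leaf)) (nat_lit 22887537233610879) (.br (nat_lit 1) (.cons (.br (nat_lit 3) (.cons (.rel (nat_lit 285253632)) (.cons (.rel (nat_lit 285213705)) (.cons (.rel (nat_lit 285212706))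 .nil)))) (.cons (.br (nat_lit 5) (.cons (.rel (nat_lit 8606729232)) (.cons (.rel (nat_lit 4328587269)) .nil))) .nil))) (.node (.node (.node .leaf (nat_lit 22887537235228799) (.br (nat_lit 3) (.cons (.br (nat_lit 5) (.cons (.rel (nat_lit 4563542016)) .nil)) .nil)) .leaf) (nat_lit 22887538318499967) (.br (nat_lit 1) (.cons (.br (nat_lit 5) (.cons (.br (nat_lit 2) (.cons (.rel (nat_lit 4429254657)) (.cons (.rel (nat_lit 83923008)) (.cons (.rel (nat_lit 100663554)) (.cons (.rel (nat_lit 150999048)) .nil))))) (.cons (.rel (nat_lit 4311810144)) (.cons (.rel (nat_lit 4328588304)) .nil)))) (.cons (.br (nat_lit 5) (.cons (.rel (nat_lit 4312276992)) (.cons (.rel (nat_lit 8606732544)) (.cons (.rel (nat_lit 4312276992)) .nil)))) .nil))) .leaf) (nat_lit 22887538318500726) (.br (nat_lit 0) (.cons (.br (nat_lit 3) (.cons (.rel (nat_lit 545259840)) .nil)) .nil)) (.node (.node .leaf (nat_lit 22887538321315967) (.br (nat_lit 0) (.cons (.br (nat_lit 3) (.cons (.rel (nat_lit 541081857)) .nil)) .nil)) .leaf) (nat_lit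 22887538321459327) (.br (nat_lit 1) (.cons (.br (nat_lit 0) (.cons (.rel (nat_lit 38010912)) (.cons (.rel (nat_lit 21037074)) .nil))) .nil)) .leaf))) (nat_lit 22887752961955992) (.br (nat_lit 1) (.cons (.br (nat_lit 6) (.cons (.rel (nat_lit 17196663312)) .nil)) .nil)) (.node (.node (.node (.node .leaf (nat_lit 22887752961956017) (.br (nat_lit 1) (.cons (.br (nat_lit 2) (.cons (.rel (nat_lit 100732944)) .nil)) .nil)) .leaf) (nat_lit 22887752962007217) (.br (nat_lit 0) (.cons (.br (nat_lit 1) (.cons (.rel (nat_lit 20979969)) .nil)) .nil)) .leaf) (nat_lit 22889633178770815) (.br (nat_lit 1) (.cons (.br (nat_lit 2) (.cons (.rel (nat_lit 100732944)) .nil)) .nil)) (.node (.node .leaf (nat_lit 22889633726132235) (.br (nat_lit 3) (.cons (.br (nat_lit 6) (.cons (.rel (nat_lit 34896609360)) .nil)) .nil)) .leaf) (nat_lit 22889633726175487) (.br (nat_lit 3) (.cons (.br (nat_lit 1) (.cons (.rel (nat_lit 285282816)) (.cons (.rel (nat_lit 303054864)) .nil))) .nil)) .leaf)) (nat_lit 22889633728223487) (.br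 (nat_lit 3) (.cons (.br (nat_lit 2) (.cons (.rel (nat_lit 335544609)) (.cons (.rel (nat_lit 603988032)) .nil))) .nil)) (.node (.node (.node .leaf (nat_lit 22889633728485387) (.br (nat_lit 3) (.cons (.br (nat_lit 0) (.cons (.rel (nat_lit 545259840)) (.cons (.rel (nat_lit 273752064)) .nil))) .nil)) .leaf) (nat_lit 22889634263707659) (.br (nat_lit 0) (.cons (.br (nat_lit 1) (.cons (.rel (nat_lit 20975622)) .nil)) .nil)) .leaf) (nat_lit 22894358623144088) (.br (nat_lit 1) (.cons (.br (nat_lit 0) (.cons (.rel (nat_lit 20976657)) (.cons (.rel (nat_lit 20972040)) .nil))) .nil)) (.node (.node .leaf (nat_lit 22894358623145216) (.br (nat_lit 1) (.cons (.br (nat_lit 5) (.cons (.rel (nat_lit 8606712081)) .nil)) .nil)) .leaf) (nat_lit 22894358624770948) (.br (nat_lit 1) (.cons (.br (nat_lit 2) (.cons (.rel (nat_lit 151012608)) .nil)) .nil)) .leaf))))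

/-- refutations 20 -/
def e20 : EX := (.node (.node (.node .leaf (nat_lit 24200299875000976) (.br (nat_lit 0) (.cons (.br (nat_lit 1) (.cons (.rel (nat_lit 20976657)) .nil)) .nil)) .leaf) (nat_lit 24200299876167836) (.br (nat_lit 0) (.cons (.br (nat_lit 1) (.cons (.rel (nat_lit 41943300)) .nil)) .nil)) (.node .leaf (nat_lit 24314601437458443) (.br (nat_lit 1) (.cons (.br (nat_lit 4) (.cons (.rel (nat_lit 1090519632)) .nil)) .nil)) .leaf)) (nat_lit 24315036164425789) (.br (nat_lit 1) (.cons (.br (nat_lit 2) (.cons (.rel (nat_lit 100680705)) .nil)) .nil)) (.node (.node .leaf (nat_lit 24635589975882603) (.br (nat_lit 1) (.cons (.br (nat_lit 3) (.cons (.rel (nat_lit 285214740)) .nil)) .nil)) .leaf) (nat_lit 24635589975882664) (.br (nat_lit 1) (.cons (.br (nat_lit 5) (.cons (.rel (nat_lit 4313842944)) .nil)) .nil)) (.node .leaf (nat_lit 24741118928834591) (.br (nat_lit 1) (.cons (.br (nat_lit 6) (.cons (.rel (nat_lit 17196646440)) .nil)) .nil)) .leaf)))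

/-- refutations 21 -/
def e21 : EX := (.node (.node (.node (.node .leaf (nat_lit 24765308813944959) (.br (nat_lit 1) (.cons (.br (nat_lit 3) (.cons (.rel (nat_lit 285218052)) .nil)) .nil)) .leaf) (nat_lit 24765311737426047) (.br (nat_lit 1) (.cons (.br (nat_lit 2) (.cons (.rel (nat_lit 100732944)) .nil)) .nil)) (.node .leaf (nat_lit 24765311737426856) (.br (nat_lit 1) (.cons (.br (nat_lit 4) (.cons (.rel (nat_lit 2164277250)) .nil)) .nil)) .leaf)) (nat_lit 24765311738137512) (.br (nat_lit 1) (.cons (.br (nat_lit 3) (.cons (.rel (nat_lit 285282816)) .nil)) .nil)) (.node (.node .leaf (nat_lit 24765311738137856) (.br (nat_lit 1) (.cons (.br (nat_lit 3) (.cons (.rel (nat_lit 285213705)) .nil)) .nil)) .leaf) (nat_lit 24765311738188712) (.br (nat_lit 1) (.cons (.br (nat_lit 3) (.cons (.rel (nat_lit 570445824)) .nil)) .nil)) (.node .leaf (nat_lit 24765311738239912) (.br (nat_lit 3) (.cons (.br (nat_lit 4) (.cons (.rel (nat_lit 1342210080)) .nil)) .nil)) .leaf))) (nat_lit 24807345121496466) (.br (nat_lit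 0) (.cons (.br (nat_lit 3) (.cons (.rel (nat_lit 273752064)) .nil)) .nil)) (.node (.node (.node .leaf (nat_lit 24807345122776541) (.br (nat_lit 1) (.cons (.br (nat_lit 5) (.cons (.rel (nat_lit 4328526852)) (.cons (.rel (nat_lit 4328591616)) (.cons (.rel (nat_lit 4328783937)) (.cons (.rel (nat_lit 4328587269)) .nil))))) .nil)) .leaf) (nat_lit 24811425866651685) (.br (nat_lit 0) (.cons (.br (nat_lit 3) (.cons (.rel (nat_lit 542113857)) (.cons (.rel (nat_lit 276825345)) .nil))) .nil)) (.node .leaf (nat_lit 24811427436964020) (.br (nat_lit 1) (.cons (.br (nat_lit 4) (.cons (.rel (nat_lit 1090525248)) .nil)) .nil)) .leaf)) (nat_lit 24811427437537336) (.br (nat_lit 3) (.cons (.br (nat_lit 4) (.cons (.rel (nat_lit 1342210080)) .nil)) .nil)) (.node (.node .leaf (nat_lit 24811427438561336) (.br (nat_lit 0) (.cons (.br (nat_lit 1) (.cons (.rel (nat_lit 20972040)) .nil)) .nil)) .leaf) (nat_lit 24815937155759011) (.br (nat_lit 2) (.cons (.br (nat_lit 3) (.cons (.rel (nat_lit 335613954)) .nil)) .nil)) (.node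 .leaf (nat_lit 25174730761652375) (.br (nat_lit 0) (.cons (.br (nat_lit 6) (.cons (.rel (nat_lit 17184342528)) .nil)) .nil)) .leaf))))

/-- refutations 22 -/
def e22 : EX := (.node (.node (.node (.node (.node .leaf (nat_lit 25194210097891339) (.br (nat_lit 1) (.cons (.br (nat_lit 5) (.cons (.rel (nat_lit 8606728197)) .nil)) .nil)) .leaf) (nat_lit 25194210097993983) (.br (nat_lit 1) (.cons (.br (nat_lit 5) (.cons (.rel (nat_lit 4311748692)) .nil)) .nil)) .leaf) (nat_lit 25194210100041739) (.br (nat_lit 2) (.cons (.br (nat_lit 5) (.cons (.rel (nat_lit 8657060100)) .nil)) .nil)) (.node .leaf (nat_lit 25194210100185099) (.br (nat_lit 3) (.cons (.br (nat_lit 4) (.cons (.rel (nat_lit 2684370960)) (.cons (.rel (nat_lit 1342248192)) (.cons (.rel (nat_lit 1342210080)) .nil)))) .nil)) .leaf)) (nat_lit 25194210100303883) (.br (nat_lit 2) (.cons (.br (nat_lit 5) (.cons (.rel (nat_lit 4364206080)) (.cons (.rel (nat_lit 4364206080)) .nil))) .nil)) (.node (.node .leaf (nat_lit 25194210634358795) (.br (nat_lit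 3) (.cons (.br (nat_lit 4) (.cons (.rel (nat_lit 1342193928)) .nil)) .nil)) .leaf) (nat_lit 25194210637174795) (.br (nat_lit 5) (.cons (.br (nat_lit 0) (.cons (.rel (nat_lit 8595308544)) (.cons (.rel (nat_lit 4299178002)) .nil))) .nil)) (.node .leaf (nat_lit 25197388476390783) (.br (nat_lit 0) (.cons (.br (nat_lit 2) (.cons (.rel (nat_lit 71307525)) .nil)) .nil)) .leaf))) (nat_lit 25197811915541416) (.br (nat_lit 0) (.cons (.br (nat_lit 1) (.cons (.rel (nat_lit 38879232)) .nil)) .nil)) (.node (.node (.node .leaf (nat_lit 25199541121027559) (.br (nat_lit 0) (.cons (.br (nat_lit 1) (.cons (.rel (nat_lit 21039108)) .nil)) .nil)) .leaf) (nat_lit 25202800034633983) (.br (nat_lit 2) (.cons (.br (nat_lit 5) (.cons (.rel (nat_lit 4362078273)) .nil)) .nil)) (.node .leaf (nat_lit 25202802667896170) (.br (nat_lit 0) (.cons (.br (nat_lit 1) (.cons (.rel (nat_lit 20975622)) .nil)) .nil)) .leaf)) (nat_lit 25257071775703301) (.br (nat_lit 1) (.cons (.br (nat_lit 2) (.cons (.rel (nat_lit 168035328)) .nil))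 .nil)) (.node (.node .leaf (nat_lit 25257071775704475) (.br (nat_lit 0) (.cons (.br (nat_lit 1) (.cons (.rel (nat_lit 38879232)) .nil)) .nil)) .leaf) (nat_lit 26487279258296976) (.br (nat_lit 2) (.cons (.br (nat_lit 4) (.cons (.rel (nat_lit 2281963776)) .nil)) .nil)) (.node .leaf (nat_lit 26507151957239939) (.br (nat_lit 0) (.cons (.br (nat_lit 1) (.cons (.rel (nat_lit 25690128)) .nil)) .nil)) .leaf))))

/-- refutations 23 -/
def e23 : EX := (.node (.node (.node (.node (.node .leaf (nat_lit 26565707459696945) (.br (nat_lit 2) (.cons (.br (nat_lit 4) (.cons (.rel (nat_lit 2214596628)) .nil)) .nil)) .leaf) (nat_lit 26569785684807857) (.br (nat_lit 3) (.cons (.br (nat_lit 5) (.cons (.rel (nat_lit 4831843392)) .nil)) .nil)) .leaf) (nat_lit 26569785686427011) (.br (nat_lit 0) (.cons (.br (nat_lit 1) (.cons (.rel (nat_lit 25690128)) .nil)) .nil)) (.node .leaf (nat_lit 26569785686599857) (.br (nat_lit 1) (.cons (.br (nat_lit 3) (.cons (.rel (nat_lit 570425361)) .nil)) .nil)) .leaf)) (nat_lit 26569785686634673)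 (.br (nat_lit 2) (.cons (.br (nat_lit 1) (.cons (.rel (nat_lit 100671492)) (.cons (.rel (nat_lit 100671492)) (.cons (.rel (nat_lit 85984272)) .nil)))) .nil)) (.node (.node (.node .leaf (nat_lit 26569785687623985) (.br (nat_lit 0) (.cons (.br (nat_lit 1) (.cons (.rel (nat_lit 21004308)) .nil)) .nil)) .leaf) (nat_lit 26569785687625236) (.br (nat_lit 0) (.cons (.br (nat_lit 1) (.cons (.rel (nat_lit 38010912)) .nil)) .nil)) .leaf) (nat_lit 26569785687870220) (.br (nat_lit 1) (.cons (.br (nat_lit 3) (.cons (.rel (nat_lit 554237952)) .nil)) .nil)) (.node .leaf (nat_lit 26577303871503616) (.br (nat_lit 0) (.cons (.br (nat_lit 1) (.cons (.rel (nat_lit 41943300)) .nil)) .nil)) .leaf))) (nat_lit 26577305848203416) (.br (nat_lit 1) (.cons (.br (nat_lit 2) (.cons (.rel (nat_lit 150995457)) .nil)) .nil)) (.node (.node (.node (.node .leaf (nat_lit 26577516625940607) (.br (nat_lit 1) (.cons (.br (nat_lit 2) (.cons (.rel (nat_lit 100671492)) .nil)) .nil)) .leaf) (nat_lit 26577516627732657) (.br (nat_lit 1)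 (.cons (.br (nat_lit 3) (.cons (.rel (nat_lit 285218052)) .nil)) .nil)) .leaf) (nat_lit 26577516627818623) (.br (nat_lit 0) (.cons (.br (nat_lit 1) (.cons (.rel (nat_lit 38797317)) .nil)) .nil)) (.node .leaf (nat_lit 26577516629003545) (.br (nat_lit 1) (.cons (.br (nat_lit 4) (.cons (.rel (nat_lit 1092632592)) (.cons (.rel (nat_lit 1092632592)) (.cons (.rel (nat_lit 1107300384)) .nil)))) (.cons (.br (nat_lit 3) (.cons (.rel (nat_lit 285213705)) (.cons (.rel (nat_lit 285214740)) .nil))) .nil))) .leaf)) (nat_lit 26876252856826731) (.br (nat_lit 1) (.cons (.br (nat_lit 2) (.cons (.rel (nat_lit 85987584)) .nil)) .nil)) (.node (.node .leaf (nat_lit 26876433156348035) (.br (nat_lit 1) (.cons (.br (nat_lit 2) (.cons (.rel (nat_lit 168035328)) .nil)) .nil)) .leaf) (nat_lit 26934077799516341) (.br (nat_lit 0) (.cons (.br (nat_lit 1) (.cons (.rel (nat_lit 20988192)) .nil)) .nil)) (.node .leaf (nat_lit 26946741752660244) (.br (nat_lit 2) (.cons (.br (nat_lit 4) (.cons (.rel (nat_lit 1140871233)) .nil))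 .nil)) .leaf))))

/-- refutations 24 -/
def e24 : EX := (.node (.node (.node (.node .leaf (nat_lit 27005514103418915) (.br (nat_lit 0) (.cons (.br (nat_lit 1) (.cons (.rel (nat_lit 20976657)) .nil)) .nil)) .leaf) (nat_lit 27011627710732915) (.br (nat_lit 0) (.cons (.br (nat_lit 1) (.cons (.rel (nat_lit 25690128)) .nil)) .nil)) (.node .leaf (nat_lit 27011965232422399) (.br (nat_lit 1) (.cons (.br (nat_lit 2) (.cons (.rel (nat_lit 84412416)) .nil)) .nil)) .leaf)) (nat_lit 27015908035781235) (.br (nat_lit 0) (.cons (.br (nat_lit 3) (.cons (.rel (nat_lit 541069332)) .nil)) .nil)) (.node (.node .leaf (nat_lit 27015908035786204) (.br (nat_lit 0) (.cons (.br (nat_lit 3) (.cons (.rel (nat_lit 272912385)) .nil)) .nil)) .leaf) (nat_lit 27017110513326207) (.br (nat_lit 1) (.cons (.br (nat_lit 2) (.cons (.rel (nat_lit 100671492)) .nil)) .nil)) .leaf)) (nat_lit 27017110516071950) (.br (nat_lit 0) (.cons (.br (nat_lit 1) (.cons (.rel (nat_lit 25235520)) .nil)) .nil)) (.node (.node (.node .leaf (nat_lit 27017110516091007)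 (.br (nat_lit 1) (.cons (.br (nat_lit 2) (.cons (.rel (nat_lit 168035328)) .nil)) .nil)) .leaf) (nat_lit 27017110516142207) (.br (nat_lit 3) (.cons (.br (nat_lit 0) (.cons (.rel (nat_lit 545267781)) (.cons (.rel (nat_lit 273752064)) .nil))) .nil)) .leaf) (nat_lit 27017110516142990) (.br (nat_lit 0) (.cons (.br (nat_lit 3) (.cons (.rel (nat_lit 545259840)) .nil)) .nil)) (.node (.node .leaf (nat_lit 27017200879642111) (.br (nat_lit 1) (.cons (.br (nat_lit 2) (.cons (.rel (nat_lit 168035328)) .nil)) .nil)) .leaf) (nat_lit 27017321067387057) (.br (nat_lit 1) (.cons (.br (nat_lit 2) (.cons (.rel (nat_lit 100732944)) .nil)) .nil)) .leaf)))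

/-- refutations 25 -/
def e25 : EX := (.node (.node (.node (.node (.node .leaf (nat_lit 27443913417678975) (.br (nat_lit 2) (.cons (.br (nat_lit 3) (.cons (.rel (nat_lit 335553537)) .nil)) .nil)) .leaf) (nat_lit 27443913417873663) (.br (nat_lit 1) (.cons (.br (nat_lit 2) (.cons (.rel (nat_lit 84412416)) .nil)) .nil)) (.node .leaf (nat_lit 27443913420435583) (.br (nat_lit 1) (.cons (.br (nat_lit 2) (.cons (.rel (nat_lit 150999048)) .nil)) .nil)) .leaf)) (nat_lit 27443913967371545) (.br (nat_lit 1) (.cons (.br (nat_lit 3) (.cons (.rel (nat_lit 285233169)) .nil)) .nil)) (.node (.node .leaf (nat_lit 27443913969948799) (.br (nat_lit 3) (.cons (.br (nat_lit 5) (.cons (.rel (nat_lit 4563468324)) .nil)) .nil)) .leaf) (nat_lit 27443914503901336) (.br (nat_lit 0) (.cons (.br (nat_lit 1) (.cons (.rel (nat_lit 20979969)) .nil)) .nil)) (.node .leaf (nat_lit 27443914503936127) (.br (nat_lit 1) (.cons (.br (nat_lit 0) (.cons (.rel (nat_lit 21037074)) (.cons (.rel (nat_lit 25825284)) (.cons (.rel (nat_lit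 20976657)) .nil)))) .nil)) .leaf))) (nat_lit 27443914505439409) (.br (nat_lit 0) (.cons (.br (nat_lit 1) (.cons (.rel (nat_lit 20979969)) .nil)) .nil)) (.node (.node (.node .leaf (nat_lit 27443914505795711) (.br (nat_lit 3) (.cons (.br (nat_lit 0) (.cons (.rel (nat_lit 272891922)) (.cons (.rel (nat_lit 273752064)) .nil))) .nil)) .leaf) (nat_lit 27443914506760319) (.br (nat_lit 2) (.cons (.br (nat_lit 3) (.cons (.rel (nat_lit 671093796)) .nil)) .nil)) (.node .leaf (nat_lit 27443914506819711) (.br (nat_lit 0) (.cons (.br (nat_lit 3) (.cons (.rel (nat_lit 272891922)) (.cons (.rel (nat_lit 272912385)) (.cons (.rel (nat_lit 545259840)) .nil)))) .nil)) .leaf)) (nat_lit 27443918596147327) (.br (nat_lit 1) (.cons (.br (nat_lit 0) (.cons (.rel (nat_lit 38010912)) (.cons (.rel (nat_lit 21037074)) .nil))) .nil)) (.node (.node .leaf (nat_lit 27443918596266111) (.br (nat_lit 1) (.cons (.br (nat_lit 3) (.cons (.rel (nat_lit 285233169)) .nil)) .nil)) .leaf) (nat_lit 27445099810621477) (.br (nat_lit 0) (.cons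 (.br (nat_lit 1) (.cons (.rel (nat_lit 20997120)) .nil)) .nil)) (.node .leaf (nat_lit 27445102013565208) (.br (nat_lit 0) (.cons (.br (nat_lit 2) (.cons (.rel (nat_lit 71307525)) .nil)) .nil)) .leaf)))) (nat_lit 27449609528486023) (.br (nat_lit 1) (.cons (.br (nat_lit 3) (.cons (.rel (nat_lit 285492288)) .nil)) .nil)) (.node (.node (.node (.node .leaf (nat_lit 27449609528546836) (.br (nat_lit 0) (.cons (.br (nat_lit 1) (.cons (.rel (nat_lit 25235520)) .nil)) .nil)) .leaf) (nat_lit 27449609528589093) (.br (nat_lit 0) (.cons (.br (nat_lit 3) (.cons (.rel (nat_lit 276825345)) (.cons (.rel (nat_lit 545259840)) .nil))) .nil)) (.node .leaf (nat_lit 27449609613801607) (.br (nat_lit 1) (.cons (.br (nat_lit 2) (.cons (.rel (nat_lit 168035328)) .nil)) .nil)) .leaf)) (nat_lit 27449609613852807) (.br (nat_lit 1) (.cons (.br (nat_lit 4) (.cons (.rel (nat_lit 2164263168)) .nil)) .nil)) (.node (.node .leaf (nat_lit 27449611729515127) (.br (nat_lit 0) (.cons (.br (nat_lit 1) (.cons (.rel (nat_lit 20972040))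 .nil)) .nil)) .leaf) (nat_lit 27449614434284325) (.br (nat_lit 1) (.cons (.br (nat_lit 2) (.cons (.rel (nat_lit 100680705)) .nil)) .nil)) (.node .leaf (nat_lit 27451413518623345) (.br (nat_lit 0) (.cons (.br (nat_lit 3) (.cons (.rel (nat_lit 273678372)) .nil)) .nil)) .leaf))) (nat_lit 27454600385453567) (.br (nat_lit 1) (.cons (.br (nat_lit 2) (.cons (.rel (nat_lit 168035328)) .nil)) .nil)) (.node (.node (.node .leaf (nat_lit 27456794906571557) (.br (nat_lit 0) (.cons (.br (nat_lit 1) (.cons (.rel (nat_lit 37847424)) .nil)) .nil)) .leaf) (nat_lit 27457125823406207) (.br (nat_lit 1) (.cons (.br (nat_lit 2) (.cons (.rel (nat_lit 83923008)) .nil)) .nil)) (.node .leaf (nat_lit 27457125826171007) (.br (nat_lit 1) (.cons (.br (nat_lit 3) (.cons (.rel (nat_lit 301990020)) .nil)) .nil)) .leaf)) (nat_lit 27457125826222207) (.br (nat_lit 0) (.cons (.br (nat_lit 1) (.cons (.rel (nat_lit 20972040)) .nil)) .nil)) (.node (.node .leaf (nat_lit 27457129915617436) (.br (nat_lit 0) (.cons (.br (nat_lit 1) (.cons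 (.rel (nat_lit 25235520)) .nil)) .nil)) .leaf) (nat_lit 27457129915669415) (.br (nat_lit 0) (.cons (.br (nat_lit 1) (.cons (.rel (nat_lit 21037074)) .nil)) .nil)) .leaf))))

/-- list of the parts -/
def L0 : List (ℕ × List ℕ) := [(nat_lit 0x850, [cP]),
  (nat_lit 0x9c20000000, [cP]),
  (nat_lit 0x10000000000000000011880000000000000, [cP]),
  (nat_lit 0x80000000000000000000000000000000000, [cP]),
  (nat_lit 0x11000000000000000000000000000000000000000, [cP]),
  (nat_lit 0x100000000000000000000000000000000000000000, [cP]),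
  (nat_lit 0x1010000000000000000201000000000000000000000000000000000000000000000, [cP]),
  (nat_lit 0x2138000000000000000000000000000000000000000000000000000000000000000000000, [cP]),
  (nat_lit 0x1020000000000000000000000000000000000000000000000000000000000000000000000000000000220000000000000000000000000000000000000000000000000000000000000000000000000000, [cP]),
  (nat_lit 0x10000000000000000000000000000000000000000000000000000000000000000000000000000000000000000000000000000000000000000000000000000000000000000000000000000000000000000000000, [Nat.sub (Nat.pow 2 656) (Nat.pow 2 0), Nat.sub (Nat.pow 2 3136) (Nat.pow 2 656)]),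
  (nat_lit 0x100001100008000000000000000000000000000000000000000000000000000000000000000000000000000000000000000000000000000000000000000000000000000000000000000000000000000000000000000, [cP]),
  (nat_lit 0x1000000000000000022000000000000000000000000000000000000000000000000000000000000000000000000000000000000000000000000000000000000000000000000000000000000000000000000000000000000000000000000000, [cP]),
  (nat_lit 0x33800100000000000000000000000000000000000000000000000000000000000000000000000000000000000000000000000000000000000000000000000000000000000000000000000000000000000000000000000000000000000000000000000, [cP]),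
  (nat_lit 0x18000000000000000022000200000000000000000000000000000000000000000000000000000000000000000000000000000000000000000000000000000000000000000000000000000000000000000000000000000000000000000000000000000000000000000000000000000, [cP]),
  (nat_lit 0x10002500000000000000000000000000000000000000000000000000000000000000000000000000000000000000000000000000000000000000000000000000000000000000000000000000000000000000000000000000000000000000000000000000000000000000000000000000000, [cP]),
  (nat_lit 0x4e00000000000000000000000000000000000000000000000000000000000000000000000000000000000000000000000000000000000000000000000000000000000000000000000000000000000000000000000000000000000000000000000000000000000000000000000000000000000, [cP]),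
  (nat_lit 0x18800000000000000000000000000000000000000000000000000000000000000000000000000000000000000000000000000000000000000000000000000000000000000000000000000000000000000000000000000000000000000000000000000000000000000000000000000000000000000000, [cP]),
  (nat_lit 0x1380010100000000000000000000000000000000000000000000000000000000000000000000000000000000000000000000000000000000000000000000000000000000000000000000000000000000000000000000000000000000000000000000000000000000000000000000000000000000000000000000000000000000000000000000000000000000000000000000000000000000000000000000000000, [cP]),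
  (nat_lit 0x22000a0000000000000000000000000000000000000000000000000000000000000000000000000000000000000000000000000000000000000000000000000000000000000000000000000000000000000000000000000000000000000000000000000000000000000000000000000000000000000000000000000000000000000000000000000000000000000000000000000000000000000000000000000000000000, [cP]),
  (nat_lit 0x61000040800000000000000000000000000000000000000000000000000000000000000000000000000000000000000000000000000000000000000000000000000000000000000000000000000000000000000000000000000000000000000000000000000000000000000000000000000000000000000000000000000000000000000000000000000000000000000000000000000000000000000000000000000000000000000000000000000000000, [cP]),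
  (nat_lit 0x80000480000000000000000000000000000000000000000000000000000000000000000000000000000000000000000000000000000000000000000000000000000000000000000000000000000000000000000000000000000000000000000000000000000000000000000000000000000000000000000000000000000000000000000000000000000000000000000000000000000000000000000000000000000000000000000000000000000000000000000, [cP]),
  (nat_lit 0x600000000000000000900000000000000000000000000000000000000000000000000000000000000000000000000000000000000000000000000000000000000000000000000000000000000000000000000000000000000000000000000000000000000000000000000000000000000000000000000000000000000000000000000000000000000000000000000000000000000000000000000000000000000000000000000000000000000000000000000000000000000000000000, [cP]),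
  (nat_lit 0x880004800000000000000000000000000000000000000000000000000000000000000000000000000000000000000000000000000000000000000000000000000000000000000000000000000000000000000000000000000000000000000000000000000000000000000000000000000000000000000000000000000000000000000000000000000000000000000000000000000000000000000000000000000000000000000000000000000000000000000000000000000000000000000000, [cP]),
  (nat_lit 0x80008000000000000000000000000000000000000000000000000000000000000000000000000000000000000000000000000000000000000000000000000000000000000000000000000000000000000000000000000000000000000000000000000000000000000000000000000000000000000000000000000000000000000000000000000000000000000000000000000000000000000000000000000000000000000000000000000000000000000000000000000000000000000000000000000, [cP]),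
  (nat_lit 0x30000000000000000000000000000000000000000000000000000000000000000000000000000000000000000000000000000000000000000000000000000000000000000000000000000000000000000000000000000000000000000000000000000000000000000000000000000000000000000000000000000000000000000000000000000000000000000000000000000000000000000000000000000000000000000000000000000000000000000000000000000000000000000000000000000000, [cP]),
  (nat_lit 0x40000000000000000000000000000000000000000000000000000000000000000000000000000000000000000000000000000000000000000000000000000000000000000000000000000000000000000000000000000000000000000000000000000000000000000000000000000000000000000000000000000000000000000000000000000000000000000000000000000000000000000000000000000000000000000000000000000000000000000000000000000000000000000000000000000000, [cP])]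

theorem hp0 : ∀ p ∈ L0, ∀ D2 ∈ p.2, ∃ e,
    search ext94 (Pool.Agent.H74.EGZ.vio sb) G Uc A0 p.1 D2 e = true :=
  (List.forall_mem_cons.2 ⟨(List.forall_mem_singleton.2 ⟨e0, by decide +kernel⟩),
  (List.forall_mem_cons.2 ⟨(List.forall_mem_singleton.2 ⟨e1, by decide +kernel⟩),
  (List.forall_mem_cons.2 ⟨(List.forall_mem_singleton.2 ⟨e2, by decide +kernel⟩),
  (List.forall_mem_cons.2 ⟨(List.forall_mem_singleton.2 ⟨e3, by decide +kernel⟩),
  (List.forall_mem_cons.2 ⟨(List.forall_mem_singleton.2 ⟨e4, by decide +kernel⟩),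
  (List.forall_mem_cons.2 ⟨(List.forall_mem_singleton.2 ⟨e5, by decide +kernel⟩),
  (List.forall_mem_cons.2 ⟨(List.forall_mem_singleton.2 ⟨e6, by decide +kernel⟩),
  (List.forall_mem_cons.2 ⟨(List.forall_mem_singleton.2 ⟨e7, by decide +kernel⟩),
  (List.forall_mem_cons.2 ⟨(List.forall_mem_singleton.2 ⟨e8, by decide +kernel⟩),
  (List.forall_mem_cons.2 ⟨(List.forall_mem_cons.2 ⟨⟨e9, by decide +kernel⟩,
  (List.forall_mem_singleton.2 ⟨e10, by decide +kernel⟩)⟩),
  (List.forall_mem_cons.2 ⟨(List.forall_mem_singleton.2 ⟨e11, by decide +kernel⟩),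
  (List.forall_mem_cons.2 ⟨(List.forall_mem_singleton.2 ⟨e12, by decide +kernel⟩),
  (List.forall_mem_cons.2 ⟨(List.forall_mem_singleton.2 ⟨e13, by decide +kernel⟩),
  (List.forall_mem_cons.2 ⟨(List.forall_mem_singleton.2 ⟨e14, by decide +kernel⟩),
  (List.forall_mem_cons.2 ⟨(List.forall_mem_singleton.2 ⟨e15, by decide +kernel⟩),
  (List.forall_mem_cons.2 ⟨(List.forall_mem_singleton.2 ⟨e16, by decide +kernel⟩),
  (List.forall_mem_cons.2 ⟨(List.forall_mem_singleton.2 ⟨e17, by decide +kernel⟩),
  (List.forall_mem_cons.2 ⟨(List.forall_mem_singleton.2 ⟨e18, by decide +kernel⟩),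
  (List.forall_mem_cons.2 ⟨(List.forall_mem_singleton.2 ⟨e19, by decide +kernel⟩),
  (List.forall_mem_cons.2 ⟨(List.forall_mem_singleton.2 ⟨e20, by decide +kernel⟩),
  (List.forall_mem_cons.2 ⟨(List.forall_mem_singleton.2 ⟨e21, by decide +kernel⟩),
  (List.forall_mem_cons.2 ⟨(List.forall_mem_singleton.2 ⟨e22, by decide +kernel⟩),
  (List.forall_mem_cons.2 ⟨(List.forall_mem_singleton.2 ⟨e23, by decide +kernel⟩),
  (List.forall_mem_cons.2 ⟨(List.forall_mem_singleton.2 ⟨e24, by decide +kernel⟩),
  (List.forall_mem_cons.2 ⟨(List.forall_mem_singleton.2 ⟨e25, by decide +kernel⟩),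
  (List.forall_mem_singleton.2 (List.forall_mem_singleton.2 ⟨.leaf, by decide +kernel⟩))⟩)⟩)⟩)⟩)⟩)⟩)⟩)⟩)⟩)⟩)⟩)⟩)⟩)⟩)⟩)⟩)⟩)⟩)⟩)⟩)⟩)⟩)⟩)⟩)⟩)

end

end Pool.Agent.H21.EGZ.S27
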