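import Pool.Agent.H21.EGZ.D28

/-!
# Stage 28 : search, part 0
-/

set_option autoImplicit false
set_option maxRecDepth 100000

namespace Pool.Agent.H21.EGZ.S28

noncomputable section

open Pool.Agent.H74.EGZ Pool.Agent.H94.Lift

/-- refutations 0 -/
def e0 : EX := (.node (.node (.node (.node .leaf (nat_lit 112004687475374) (.br (nat_lit 0) (.cons (.br (nat_lit 1) (.cons (.rel (nat_lit 22021632)) .nil)) .nil)) .leaf) (nat_lit 112004934938636) (.br (nat_lit 1) (.cons (.br (nat_lit 6) (.cons (.rel (nat_lit 17196687360)) .nil)) .nil)) .leaf) (nat_lit 112007032090636) (.br (nat_lit 2) (.cons (.br (nat_lit 4) (.cons (.rel (nat_lit 1141178376)) .nil)) .nil)) (.node .leaf (nat_lit 112007033380876) (.br (nat_lit 0) (.cons (.br (nat_lit 2) (.cons (.rel (nat_lit 75763728)) .nil)) .nil)) .leaf)) (nat_lit 112007033381491) (.br (nat_lit 0) (.cons (.br (nat_lit 1) (.cons (.rel (nat_lit 25166880)) .nil)) .nil)) (.node (.node .leaf (nat_lit 117418987419660) (.br (nat_lit 2) (.cons (.br (nat_lit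 5) (.cons (.rel (nat_lit 4362076170)) .nil)) .nil)) .leaf) (nat_lit 118441924601184) (.br (nat_lit 0) (.cons (.br (nat_lit 1) (.cons (.rel (nat_lit 20971848)) .nil)) .nil)) (.node .leaf (nat_lit 118492433999206) (.br (nat_lit 0) (.cons (.br (nat_lit 1) (.cons (.rel (nat_lit 22028289)) .nil)) .nil)) .leaf)))

/-- refutations 1 -/
def e1 : EX := (.node (.node (.node (.node (.node (.node (.node (.node .leaf (nat_lit 193785788597785) (.br (nat_lit 0) (.cons (.br (nat_lit 3) (.cons (.rel (nat_lit 272630034)) .nil)) .nil)) .leaf) (nat_lit 193785788604423) (.br (nat_lit 0) (.cons (.br (nat_lit 1) (.cons (.rel (nat_lit 20975697)) .nil)) .nil)) .leaf) (nat_lit 193785788604566) (.br (nat_lit 0) (.cons (.br (nat_lit 5) (.cons (.rel (nat_lit 8594210817)) .nil)) .nil)) (.node .leaf (nat_lit 194683372319995) (.br (nat_lit 1) (.cons (.br (nat_lit 3) (.cons (.rel (nat_lit 285376512)) (.cons (.rel (nat_lit 301991040)) .nil))) .nil)) .leaf)) (nat_lit 194683373855995) (.br (nat_lit 1) (.cons (.br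 (nat_lit 2) (.cons (.rel (nat_lit 167773440)) .nil)) .nil)) (.node (.node .leaf (nat_lit 194683374154414) (.br (nat_lit 0) (.cons (.br (nat_lit 2) (.cons (.rel (nat_lit 71335968)) .nil)) .nil)) .leaf) (nat_lit 194685110297512) (.br (nat_lit 2) (.cons (.br (nat_lit 3) (.cons (.rel (nat_lit 337117185)) .nil)) .nil)) (.node .leaf (nat_lit 194685110596841) (.br (nat_lit 3) (.cons (.br (nat_lit 6) (.cons (.rel (nat_lit 17448633348)) .nil)) .nil)) .leaf))) (nat_lit 194685111364216) (.br (nat_lit 1) (.cons (.br (nat_lit 2) (.cons (.rel (nat_lit 167773440)) .nil)) .nil)) (.node (.node (.node .leaf (nat_lit 194685111364841) (.br (nat_lit 1) (.cons (.br (nat_lit 2) (.cons (.rel (nat_lit 83951880)) .nil)) .nil)) .leaf) (nat_lit 194686083682311) (.br (nat_lit 1) (.cons (.br (nat_lit 2) (.cons (.rel (nat_lit 167773440)) .nil)) .nil)) (.node .leaf (nat_lit 194686084699369) (.br (nat_lit 0) (.cons (.br (nat_lit 1) (.cons (.rel (nat_lit 42274821)) .nil)) .nil)) .leaf)) (nat_lit 194688090910870)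 (.br (nat_lit 0) (.cons (.br (nat_lit 1) (.cons (.rel (nat_lit 22021632)) .nil)) .nil)) (.node (.node .leaf (nat_lit 194688090911031) (.br (nat_lit 4) (.cons (.br (nat_lit 0) (.cons (.rel (nat_lit 1077936162)) (.cons (.rel (nat_lit 1077960720)) .nil))) .nil)) .leaf) (nat_lit 194688090911995) (.br (nat_lit 0) (.cons (.br (nat_lit 3) (.cons (.rel (nat_lit 272761344)) .nil)) .nil)) (.node .leaf (nat_lit 194688090912120) (.br (nat_lit 4) (.cons (.br (nat_lit 1) (.cons (.rel (nat_lit 1091846160)) (.cons (.rel (nat_lit 1090520082)) .nil))) .nil)) .leaf)))) (nat_lit 194688092285560) (.br (nat_lit 6) (.cons (.br (nat_lit 3) (.cons (.rel (nat_lit 17448570897)) (.cons (.rel (nat_lit 17716740102)) .nil))) .nil)) (.node (.node (.node (.node (.node .leaf (nat_lit 194688092285689) (.br (nat_lit 1) (.cons (.br (nat_lit 3) (.cons (.rel (nat_lit 285298944)) .nil)) .nil)) .leaf) (nat_lit 194688092294377) (.br (nat_lit 1) (.cons (.br (nat_lit 2) (.cons (.rel (nat_lit 84934788)) .nil)) .nil)) .leaf)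 (nat_lit 194688092301462) (.br (nat_lit 0) (.cons (.br (nat_lit 1) (.cons (.rel (nat_lit 20971848)) .nil)) .nil)) (.node .leaf (nat_lit 194688092301623) (.br (nat_lit 3) (.cons (.br (nat_lit 4) (.cons (.rel (nat_lit 2684354628)) .nil)) .nil)) .leaf)) (nat_lit 194688092301998) (.br (nat_lit 0) (.cons (.br (nat_lit 1) (.cons (.rel (nat_lit 20987970)) .nil)) .nil)) (.node (.node .leaf (nat_lit 194688092302587) (.br (nat_lit 0) (.cons (.br (nat_lit 1) (.cons (.rel (nat_lit 21561345)) .nil)) .nil)) .leaf) (nat_lit 194688092439214) (.br (nat_lit 1) (.cons (.br (nat_lit 3) (.cons (.rel (nat_lit 570507264)) .nil)) .nil)) (.node .leaf (nat_lit 194688092447620) (.br (nat_lit 2) (.cons (.br (nat_lit 3) (.cons (.rel (nat_lit 402662400)) .nil)) .nil)) .leaf))) (nat_lit 194688092745735) (.br (nat_lit 1) (.cons (.br (nat_lit 0) (.cons (.rel (nat_lit 20975697)) (.cons (.rel (nat_lit 37750800)) .nil))) .nil)) (.node (.node (.node .leaf (nat_lit 194688092746403) (.br (nat_lit 1) (.cons (.br (nat_lit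 3) (.cons (.rel (nat_lit 285218817)) .nil)) .nil)) .leaf) (nat_lit 194688092747003) (.br (nat_lit 0) (.cons (.br (nat_lit 3) (.cons (.rel (nat_lit 272631048)) .nil)) .nil)) (.node .leaf (nat_lit 194688092754856) (.br (nat_lit 3) (.cons (.br (nat_lit 6) (.cons (.rel (nat_lit 17449369920)) .nil)) .nil)) .leaf)) (nat_lit 194688092755206) (.br (nat_lit 2) (.cons (.br (nat_lit 0) (.cons (.rel (nat_lit 139462656)) (.cons (.rel (nat_lit 142622736)) .nil))) .nil)) (.node (.node .leaf (nat_lit 194688093513735) (.br (nat_lit 1) (.cons (.br (nat_lit 4) (.cons (.rel (nat_lit 2181039108)) .nil)) .nil)) .leaf) (nat_lit 194688093514028) (.br (nat_lit 1) (.cons (.br (nat_lit 4) (.cons (.rel (nat_lit 2181039108)) .nil)) .nil)) (.node .leaf (nat_lit 194688093514039) (.br (nat_lit 1) (.cons (.br (nat_lit 4) (.cons (.rel (nat_lit 1090527504)) .nil)) .nil)) .leaf))))) (nat_lit 194688093514628) (.br (nat_lit 2) (.cons (.br (nat_lit 4) (.cons (.rel (nat_lit 1141115136)) .nil)) .nil)) (.node (.node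 (.node (.node (.node (.node .leaf (nat_lit 194688093514985) (.br (nat_lit 2) (.cons (.br (nat_lit 5) (.cons (.rel (nat_lit 4362149892)) .nil)) .nil)) .leaf) (nat_lit 194688093515164) (.br (nat_lit 1) (.cons (.br (nat_lit 2) (.cons (.rel (nat_lit 83906565)) .nil)) .nil)) .leaf) (nat_lit 194688093769735) (.br (nat_lit 0) (.cons (.br (nat_lit 1) (.cons (.rel (nat_lit 25166880)) (.cons (.rel (nat_lit 25198848)) .nil))) (.cons (.br (nat_lit 1) (.cons (.rel (nat_lit 37750800)) (.cons (.rel (nat_lit 25198848)) .nil))) .nil))) (.node .leaf (nat_lit 194688093769778) (.br (nat_lit 1) (.cons (.br (nat_lit 3) (.cons (.rel (nat_lit 285213954)) .nil)) .nil)) .leaf)) (nat_lit 194688093770360) (.br (nat_lit 1) (.cons (.br (nat_lit 2) (.cons (.rel (nat_lit 83888640)) (.cons (.rel (nat_lit 83888640)) .nil))) (.cons (.br (nat_lit 2) (.cons (.rel (nat_lit 84181056)) (.cons (.rel (nat_lit 100925700)) .nil))) .nil))) (.node (.node .leaf (nat_lit 194688093770664) (.br (nat_lit 1) (.cons (.br (nat_lit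 2) (.cons (.rel (nat_lit 83890434)) .nil)) .nil)) .leaf) (nat_lit 194688093770985) (.br (nat_lit 5) (.cons (.br (nat_lit 4) (.cons (.rel (nat_lit 5370101760)) (.cons (.rel (nat_lit 6443634696)) .nil))) .nil)) (.node .leaf (nat_lit 194688093771014) (.br (nat_lit 1) (.cons (.br (nat_lit 3) (.cons (.rel (nat_lit 285212949)) .nil)) .nil)) .leaf))) (nat_lit 194806208251288) (.br (nat_lit 0) (.cons (.br (nat_lit 1) (.cons (.rel (nat_lit 20971848)) .nil)) .nil)) (.node (.node (.node .leaf (nat_lit 195756591690985) (.br (nat_lit 0) (.cons (.br (nat_lit 3) (.cons (.rel (nat_lit 272631048)) .nil)) .nil)) .leaf) (nat_lit 199315446051591) (.br (nat_lit 0) (.cons (.br (nat_lit 1) (.cons (.rel (nat_lit 37750800)) .nil)) .nil)) (.node .leaf (nat_lit 199315924202229) (.br (nat_lit 0) (.cons (.br (nat_lit 1) (.cons (.rel (nat_lit 20987970)) .nil)) .nil)) .leaf)) (nat_lit 199316058428792) (.br (nat_lit 0) (.cons (.br (nat_lit 1) (.cons (.rel (nat_lit 20975697)) .nil)) .nil)) (.node (.node .leaf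 (nat_lit 199318065656119) (.br (nat_lit 4) (.cons (.br (nat_lit 0) (.cons (.rel (nat_lit 2155872273)) (.cons (.rel (nat_lit 1077938181)) .nil))) .nil)) .leaf) (nat_lit 199318065656708) (.br (nat_lit 0) (.cons (.br (nat_lit 2) (.cons (.rel (nat_lit 75563136)) .nil)) .nil)) (.node .leaf (nat_lit 199318065657244) (.br (nat_lit 1) (.cons (.br (nat_lit 3) (.cons (.rel (nat_lit 285217812)) .nil)) .nil)) .leaf)))) (nat_lit 199318065911994) (.br (nat_lit 1) (.cons (.br (nat_lit 2) (.cons (.rel (nat_lit 83888640)) .nil)) .nil)) (.node (.node (.node (.node .leaf (nat_lit 199318067191815) (.br (nat_lit 2) (.cons (.br (nat_lit 4) (.cons (.rel (nat_lit 1141116930)) (.cons (.rel (nat_lit 1207959816)) (.cons (.rel (nat_lit 1140868224)) .nil)))) .nil)) .leaf) (nat_lit 199318067191958) (.br (nat_lit 1) (.cons (.br (nat_lit 2) (.cons (.rel (nat_lit 167773440)) .nil)) .nil)) (.node .leaf (nat_lit 199318067192119) (.br (nat_lit 1) (.cons (.br (nat_lit 2) (.cons (.rel (nat_lit 83888640)) (.cons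 (.rel (nat_lit 83894292)) .nil))) .nil)) .leaf)) (nat_lit 199318067193194) (.br (nat_lit 0) (.cons (.br (nat_lit 1) (.cons (.rel (nat_lit 20975697)) .nil)) .nil)) (.node (.node .leaf (nat_lit 199318067200311) (.br (nat_lit 1) (.cons (.br (nat_lit 4) (.cons (.rel (nat_lit 1090519077)) .nil)) .nil)) .leaf) (nat_lit 199318067200632) (.br (nat_lit 1) (.cons (.br (nat_lit 4) (.cons (.rel (nat_lit 1090519077)) .nil)) .nil)) (.node .leaf (nat_lit 199318067490823) (.br (nat_lit 1) (.cons (.br (nat_lit 0) (.cons (.rel (nat_lit 37748745)) (.cons (.rel (nat_lit 21561345)) (.cons (.rel (nat_lit 20975697)) .nil)))) .nil)) .leaf))) (nat_lit 199318067490966) (.br (nat_lit 1) (.cons (.br (nat_lit 2) (.cons (.rel (nat_lit 83894292)) (.cons (.rel (nat_lit 83955729)) .nil))) (.cons (.br (nat_lit 2) (.cons (.rel (nat_lit 102778368)) (.cons (.rel (nat_lit 151003200)) .nil))) .nil))) (.node (.node (.node .leaf (nat_lit 199318067491127) (.br (nat_lit 1) (.cons (.br (nat_lit 0) (.cons (.rel (nat_lit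 25239552)) (.cons (.rel (nat_lit 20975697)) .nil))) .nil)) .leaf) (nat_lit 199318067491502) (.br (nat_lit 1) (.cons (.br (nat_lit 4) (.cons (.rel (nat_lit 1090544640)) (.cons (.rel (nat_lit 1090519077)) .nil))) (.cons (.br (nat_lit 4) (.cons (.rel (nat_lit 1090544640)) (.cons (.rel (nat_lit 1090519077)) .nil))) .nil))) (.node .leaf (nat_lit 199318067491573) (.br (nat_lit 0) (.cons (.br (nat_lit 1) (.cons (.rel (nat_lit 20971848)) .nil)) .nil)) .leaf)) (nat_lit 199318067492091) (.br (nat_lit 0) (.cons (.br (nat_lit 1) (.cons (.rel (nat_lit 37765632)) .nil)) .nil)) (.node (.node .leaf (nat_lit 199318067492227) (.br (nat_lit 5) (.cons (.br (nat_lit 6) (.cons (.br (nat_lit 1) (.cons (.rel (nat_lit 17196652548)) (.cons (.rel (nat_lit 17196650529)) .nil))) .nil)) .nil)) .leaf) (nat_lit 199318067500408) (.br (nat_lit 1) (.cons (.br (nat_lit 2) (.cons (.rel (nat_lit 167773440)) .nil)) .nil)) (.node .leaf (nat_lit 199318068208302) (.br (nat_lit 1) (.cons (.br (nat_lit 2) (.cons (.rel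 (nat_lit 167773440)) .nil)) .nil)) .leaf)))))) (nat_lit 199318068209002) (.br (nat_lit 1) (.cons (.br (nat_lit 3) (.cons (.rel (nat_lit 554696964)) .nil)) .nil)) (.node (.node (.node (.node (.node (.node (.node .leaf (nat_lit 199318068574215) (.br (nat_lit 0) (.cons (.br (nat_lit 1) (.cons (.rel (nat_lit 20975697)) .nil)) .nil)) .leaf) (nat_lit 199318068575144) (.br (nat_lit 1) (.cons (.br (nat_lit 0) (.cons (.rel (nat_lit 22021632)) (.cons (.rel (nat_lit 21561345)) .nil))) .nil)) .leaf) (nat_lit 200051557150756) (.br (nat_lit 1) (.cons (.br (nat_lit 3) (.cons (.rel (nat_lit 285218817)) .nil)) .nil)) (.node .leaf (nat_lit 200051557151995) (.br (nat_lit 2) (.cons (.br (nat_lit 4) (.cons (.br (nat_lit 5) (.cons (.rel (nat_lit 5370024192)) .nil)) .nil)) .nil)) .leaf)) (nat_lit 200051557406781) (.br (nat_lit 2) (.cons (.br (nat_lit 3) (.cons (.rel (nat_lit 402673668)) .nil)) .nil)) (.node (.node .leaf (nat_lit 200051557407352) (.br (nat_lit 1) (.cons (.br (nat_lit 0) (.cons (.rel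 (nat_lit 20975697)) (.cons (.rel (nat_lit 20971848)) (.cons (.rel (nat_lit 20992596)) .nil)))) .nil)) .leaf) (nat_lit 200051558525239) (.br (nat_lit 1) (.cons (.br (nat_lit 3) (.cons (.rel (nat_lit 285217812)) (.cons (.rel (nat_lit 285217812)) (.cons (.rel (nat_lit 302252064)) .nil)))) (.cons (.br (nat_lit 3) (.cons (.rel (nat_lit 285229080)) (.cons (.rel (nat_lit 285212949)) (.cons (.rel (nat_lit 285217812)) .nil)))) .nil))) (.node .leaf (nat_lit 200051558525560) (.br (nat_lit 1) (.cons (.br (nat_lit 2) (.cons (.rel (nat_lit 167773440)) (.cons (.rel (nat_lit 83888640)) .nil))) (.cons (.br (nat_lit 2) (.cons (.rel (nat_lit 84018180)) (.cons (.rel (nat_lit 167773440)) .nil))) .nil))) .leaf))) (nat_lit 200051558526328) (.br (nat_lit 5) (.cons (.br (nat_lit 1) (.cons (.rel (nat_lit 4312794132)) (.cons (.rel (nat_lit 4312301568)) .nil))) .nil)) (.node (.node (.node .leaf (nat_lit 200051558541623) (.br (nat_lit 1) (.cons (.br (nat_lit 5) (.cons (.rel (nat_lit 4311745104)) .nil))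 .nil)) .leaf) (nat_lit 200051558985735) (.br (nat_lit 5) (.cons (.br (nat_lit 0) (.cons (.rel (nat_lit 4299169860)) (.cons (.rel (nat_lit 4299169860)) (.cons (.rel (nat_lit 4299164256)) .nil)))) .nil)) (.node .leaf (nat_lit 200051558986414) (.br (nat_lit 1) (.cons (.br (nat_lit 5) (.cons (.rel (nat_lit 4311745104)) .nil)) .nil)) .leaf)) (nat_lit 200051558986985) (.br (nat_lit 0) (.cons (.br (nat_lit 6) (.cons (.rel (nat_lit 17184068628)) (.cons (.rel (nat_lit 17184068628)) .nil))) .nil)) (.node (.node .leaf (nat_lit 200051558987003) (.br (nat_lit 5) (.cons (.br (nat_lit 1) (.cons (.rel (nat_lit 4311762240)) (.cons (.rel (nat_lit 4312301568)) .nil))) .nil)) .leaf) (nat_lit 200051560069781) (.br (nat_lit 0) (.cons (.br (nat_lit 2) (.cons (.rel (nat_lit 71565888)) .nil)) .nil)) (.node .leaf (nat_lit 200053819272729) (.br (nat_lit 0) (.cons (.br (nat_lit 2) (.cons (.rel (nat_lit 71565888)) .nil)) .nil)) .leaf)))) (nat_lit 200053819716259) (.br (nat_lit 2) (.cons (.br (nat_lit 3)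 (.cons (.rel (nat_lit 603980052)) .nil)) .nil)) (.node (.node (.node (.node .leaf (nat_lit 200054790960504) (.br (nat_lit 0) (.cons (.br (nat_lit 1) (.cons (.rel (nat_lit 37750800)) (.cons (.rel (nat_lit 37750800)) (.cons (.rel (nat_lit 38011968)) .nil)))) .nil)) .leaf) (nat_lit 200054792333944) (.br (nat_lit 1) (.cons (.br (nat_lit 3) (.cons (.rel (nat_lit 285229080)) .nil)) .nil)) (.node .leaf (nat_lit 200054793818119) (.br (nat_lit 1) (.cons (.br (nat_lit 0) (.cons (.rel (nat_lit 20975697)) (.cons (.rel (nat_lit 22021632)) .nil))) .nil)) .leaf)) (nat_lit 200056439320887) (.br (nat_lit 1) (.cons (.br (nat_lit 0) (.cons (.rel (nat_lit 22028289)) (.cons (.rel (nat_lit 20975697)) .nil))) .nil)) (.node (.node .leaf (nat_lit 200056439321483) (.br (nat_lit 1) (.cons (.br (nat_lit 6) (.cons (.rel (nat_lit 17196646680)) .nil)) .nil)) .leaf) (nat_lit 200056439321976) (.br (nat_lit 0) (.cons (.br (nat_lit 1) (.cons (.rel (nat_lit 20971848)) (.cons (.rel (nat_lit 37750800)) (.cons (.rel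 (nat_lit 20971848)) .nil)))) .nil)) (.node .leaf (nat_lit 200056439322008) (.br (nat_lit 0) (.cons (.br (nat_lit 1) (.cons (.rel (nat_lit 21561345)) .nil)) .nil)) .leaf))) (nat_lit 200056439577208) (.br (nat_lit 1) (.cons (.br (nat_lit 3) (.cons (.rel (nat_lit 285221376)) .nil)) .nil)) (.node (.node (.node .leaf (nat_lit 200056439577512) (.br (nat_lit 1) (.cons (.br (nat_lit 2) (.cons (.rel (nat_lit 83895297)) .nil)) .nil)) .leaf) (nat_lit 200056440695095) (.br (nat_lit 5) (.cons (.br (nat_lit 1) (.cons (.rel (nat_lit 4312795137)) (.cons (.rel (nat_lit 4311745104)) .nil))) .nil)) (.node .leaf (nat_lit 200056440695416) (.br (nat_lit 1) (.cons (.br (nat_lit 5) (.cons (.rel (nat_lit 8623767552)) (.cons (.rel (nat_lit 4311875649)) .nil))) (.cons (.br (nat_lit 5) (.cons (.rel (nat_lit 4328526864)) (.cons (.rel (nat_lit 4311814212)) .nil))) .nil))) .leaf)) (nat_lit 200056440696184) (.br (nat_lit 0) (.cons (.br (nat_lit 3) (.cons (.rel (nat_lit 272633892)) .nil)) .nil)) (.node (.node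 .leaf (nat_lit 200056440711854) (.br (nat_lit 2) (.cons (.br (nat_lit 5) (.cons (.rel (nat_lit 4362076170)) .nil)) .nil)) .leaf) (nat_lit 200056440712068) (.br (nat_lit 1) (.cons (.br (nat_lit 3) (.cons (.rel (nat_lit 285218817)) .nil)) .nil)) (.node .leaf (nat_lit 200056440712075) (.br (nat_lit 2) (.cons (.br (nat_lit 5) (.cons (.rel (nat_lit 4362076170)) .nil)) .nil)) .leaf))))) (nat_lit 200056440712729) (.br (nat_lit 2) (.cons (.br (nat_lit 3) (.cons (.rel (nat_lit 337707012)) .nil)) .nil)) (.node (.node (.node (.node (.node (.node .leaf (nat_lit 200056440849070) (.br (nat_lit 1) (.cons (.br (nat_lit 3) (.cons (.rel (nat_lit 285229080)) .nil)) .nil)) .leaf) (nat_lit 200056440849784) (.br (nat_lit 1) (.cons (.br (nat_lit 3) (.cons (.rel (nat_lit 285213954)) .nil)) .nil)) .leaf) (nat_lit 200056441155591) (.br (nat_lit 0) (.cons (.br (nat_lit 3) (.cons (.rel (nat_lit 272634897)) .nil)) .nil)) (.node .leaf (nat_lit 200056441156341) (.br (nat_lit 3) (.cons (.br (nat_lit 5) (.cons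 (.rel (nat_lit 8860471296)) .nil)) .nil)) .leaf)) (nat_lit 200056441156466) (.br (nat_lit 4) (.cons (.br (nat_lit 6) (.cons (.rel (nat_lit 18255184128)) (.cons (.rel (nat_lit 35433488388)) .nil))) .nil)) (.node (.node .leaf (nat_lit 200056441156841) (.br (nat_lit 1) (.cons (.br (nat_lit 5) (.cons (.rel (nat_lit 4311745104)) .nil)) .nil)) .leaf) (nat_lit 200056441163783) (.br (nat_lit 1) (.cons (.br (nat_lit 3) (.cons (.rel (nat_lit 285213954)) .nil)) .nil)) (.node .leaf (nat_lit 200056441164683) (.br (nat_lit 1) (.cons (.br (nat_lit 3) (.cons (.rel (nat_lit 285213954)) (.cons (.rel (nat_lit 285213954)) .nil))) .nil)) .leaf))) (nat_lit 200056441165276) (.br (nat_lit 5) (.cons (.br (nat_lit 0) (.cons (.rel (nat_lit 4299686400)) (.cons (.rel (nat_lit 4299231297)) .nil))) .nil)) (.node (.node (.node .leaf (nat_lit 200056442179591) (.br (nat_lit 0) (.cons (.br (nat_lit 3) (.cons (.rel (nat_lit 272761344)) (.cons (.rel (nat_lit 541066320)) (.cons (.rel (nat_lit 272761344)) .nil))))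 (.cons (.br (nat_lit 1) (.cons (.rel (nat_lit 37750800)) (.cons (.rel (nat_lit 22021632)) (.cons (.rel (nat_lit 37748745)) .nil)))) (.cons (.br (nat_lit 1) (.cons (.rel (nat_lit 20975697)) (.cons (.rel (nat_lit 20975697)) (.cons (.rel (nat_lit 21038148)) .nil)))) .nil)))) .leaf) (nat_lit 201130542427669) (.br (nat_lit 0) (.cons (.br (nat_lit 1) (.cons (.rel (nat_lit 20987970)) .nil)) .nil)) (.node .leaf (nat_lit 201130543229560) (.br (nat_lit 0) (.cons (.br (nat_lit 1) (.cons (.rel (nat_lit 20989032)) .nil)) .nil)) .leaf)) (nat_lit 201130543245623) (.br (nat_lit 2) (.cons (.br (nat_lit 3) (.cons (.rel (nat_lit 335840256)) .nil)) .nil)) (.node (.node .leaf (nat_lit 201130543245998) (.br (nat_lit 0) (.cons (.br (nat_lit 1) (.cons (.rel (nat_lit 21561345)) .nil)) .nil)) .leaf) (nat_lit 201130543379059) (.br (nat_lit 1) (.cons (.br (nat_lit 2) (.cons (.rel (nat_lit 83890434)) .nil)) .nil)) (.node .leaf (nat_lit 201130543390727) (.br (nat_lit 0) (.cons (.br (nat_lit 3) (.cons (.rel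 (nat_lit 272631048)) (.cons (.rel (nat_lit 272631048)) .nil))) .nil)) .leaf)))) (nat_lit 201130543691139) (.br (nat_lit 0) (.cons (.br (nat_lit 3) (.cons (.rel (nat_lit 272647170)) .nil)) .nil)) (.node (.node (.node (.node .leaf (nat_lit 201130544713735) (.br (nat_lit 3) (.cons (.br (nat_lit 4) (.cons (.rel (nat_lit 1610613264)) .nil)) .nil)) .leaf) (nat_lit 205425148440726) (.br (nat_lit 0) (.cons (.br (nat_lit 2) (.cons (.rel (nat_lit 138543168)) .nil)) .nil)) (.node .leaf (nat_lit 205425148441976) (.br (nat_lit 1) (.cons (.br (nat_lit 5) (.cons (.rel (nat_lit 8606716164)) .nil)) .nil)) .leaf)) (nat_lit 205425149815416) (.br (nat_lit 2) (.cons (.br (nat_lit 4) (.cons (.rel (nat_lit 2214625281)) .nil)) .nil)) (.node (.node .leaf (nat_lit 205425150276841) (.br (nat_lit 0) (.cons (.br (nat_lit 6) (.cons (.rel (nat_lit 34364985360)) (.cons (.rel (nat_lit 17184079896)) .nil))) .nil)) .leaf) (nat_lit 205426123354887) (.br (nat_lit 1) (.cons (.br (nat_lit 3) (.cons (.rel (nat_lit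 570429696)) .nil)) .nil)) (.node .leaf (nat_lit 205426123362454) (.br (nat_lit 2) (.cons (.br (nat_lit 6) (.cons (.rel (nat_lit 17314091268)) .nil)) .nil)) .leaf))) (nat_lit 205758508920345) (.br (nat_lit 0) (.cons (.br (nat_lit 1) (.cons (.rel (nat_lit 20971848)) .nil)) .nil)) (.node (.node (.node .leaf (nat_lit 205818219475826) (.br (nat_lit 3) (.cons (.br (nat_lit 4) (.cons (.rel (nat_lit 2415984642)) .nil)) .nil)) .leaf) (nat_lit 205818220498994) (.br (nat_lit 2) (.cons (.br (nat_lit 3) (.cons (.rel (nat_lit 335544960)) .nil)) .nil)) (.node .leaf (nat_lit 206445804482567) (.br (nat_lit 0) (.cons (.br (nat_lit 4) (.cons (.rel (nat_lit 1077937176)) .nil)) .nil)) .leaf)) (nat_lit 206833897713671) (.br (nat_lit 0) (.cons (.br (nat_lit 1) (.cons (.rel (nat_lit 25165830)) .nil)) .nil)) (.node (.node .leaf (nat_lit 206928747704327) (.br (nat_lit 0) (.cons (.br (nat_lit 1) (.cons (.rel (nat_lit 20971848)) .nil)) .nil)) .leaf) (nat_lit 206928749228039) (.br (nat_lit 0) (.cons (.br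 (nat_lit 4) (.cons (.rel (nat_lit 1077960720)) .nil)) .nil)) (.node .leaf (nat_lit 206928749241706) (.br (nat_lit 0) (.cons (.br (nat_lit 1) (.cons (.rel (nat_lit 20971848)) .nil)) .nil)) .leaf)))))))

/-- refutations 2 -/
def e2 : EX := (.node (.node (.node (.node (.node (.node .leaf (nat_lit 475419158036531) (.br (nat_lit 4) (.cons (.br (nat_lit 2) (.cons (.rel (nat_lit 2214593028)) (.cons (.rel (nat_lit 1140868224)) (.cons (.rel (nat_lit 2214625281)) (.cons (.rel (nat_lit 2282782980)) (.cons (.rel (nat_lit 1142947845)) (.cons (.br (nat_lit 5) (.cons (.rel (nat_lit 4362076170)) (.cons (.br (nat_lit 6) (.cons (.rel (nat_lit 36507222081)) (.cons (.rel (nat_lit 34493972544)) (.cons (.rel (nat_lit 18253873176)) (.cons (.rel (nat_lit 18253873176)) (.cons (.rel (nat_lit 18255184128)) (.cons (.rel (nat_lit 17247010944)) (.cons (.rel (nat_lit 18254676048)) (.cons (.br (nat_lit 1) (.cons (.rel (nat_lit 1090544640)) (.cons (.rel (nat_lit 151003200)) (.cons (.rel (nat_lit 1108344897))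 (.cons (.rel (nat_lit 17196687360)) (.cons (.rel (nat_lit 1090521096)) (.cons (.rel (nat_lit 4328587296)) (.cons (.rel (nat_lit 17196652548)) (.cons (.rel (nat_lit 152043552)) (.cons (.rel (nat_lit 83919888)) .nil)))))))))) .nil))))))))) (.cons (.rel (nat_lit 5368709382)) .nil)))) (.cons (.rel (nat_lit 2214625281)) (.cons (.rel (nat_lit 2214625281)) (.cons (.rel (nat_lit 2214625281)) .nil)))))))))) (.cons (.br (nat_lit 5) (.cons (.rel (nat_lit 5368783104)) (.cons (.rel (nat_lit 5368710432)) (.cons (.rel (nat_lit 5368783104)) .nil)))) (.cons (.br (nat_lit 5) (.cons (.rel (nat_lit 5368713240)) (.cons (.rel (nat_lit 5368783104)) (.cons (.rel (nat_lit 5368727568)) .nil)))) .nil)))) .leaf) (nat_lit 475419158036760) (.br (nat_lit 5) (.cons (.br (nat_lit 4) (.cons (.rel (nat_lit 5368713240)) (.cons (.rel (nat_lit 5368727568)) (.cons (.rel (nat_lit 5368727568)) .nil)))) .nil)) (.node .leaf (nat_lit 475419158037382) (.br (nat_lit 5) (.cons (.br (nat_lit 6) (.cons (.rel (nat_lit 21474839040))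 (.cons (.rel (nat_lit 21474870288)) (.cons (.rel (nat_lit 42949673238)) .nil)))) (.cons (.br (nat_lit 4) (.cons (.rel (nat_lit 5368742400)) (.cons (.rel (nat_lit 5368783104)) (.cons (.rel (nat_lit 5368710432)) .nil)))) .nil))) .leaf)) (nat_lit 475419158081673) (.br (nat_lit 1) (.cons (.br (nat_lit 4) (.cons (.rel (nat_lit 1090521096)) .nil)) .nil)) (.node (.node .leaf (nat_lit 475419158081798) (.br (nat_lit 0) (.cons (.br (nat_lit 5) (.cons (.rel (nat_lit 4300211217)) .nil)) .nil)) .leaf) (nat_lit 475419158849566) (.br (nat_lit 1) (.cons (.br (nat_lit 4) (.cons (.rel (nat_lit 1091846160)) .nil)) .nil)) (.node .leaf (nat_lit 475419158849816) (.br (nat_lit 1) (.cons (.br (nat_lit 3) (.cons (.rel (nat_lit 570429696)) (.cons (.rel (nat_lit 286540032)) .nil))) (.cons (.br (nat_lit 3) (.cons (.rel (nat_lit 285217812)) (.cons (.rel (nat_lit 285212949)) .nil))) .nil))) .leaf))) (nat_lit 475419158850923) (.br (nat_lit 4) (.cons (.br (nat_lit 5) (.cons (.rel (nat_lit 5368742400)) .nil))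 .nil)) (.node (.node (.node .leaf (nat_lit 475419158858509) (.br (nat_lit 1) (.cons (.br (nat_lit 3) (.cons (.rel (nat_lit 286540032)) .nil)) .nil)) .leaf) (nat_lit 475419158865971) (.br (nat_lit 5) (.cons (.br (nat_lit 4) (.cons (.br (nat_lit 0) (.cons (.rel (nat_lit 1077940740)) (.cons (.rel (nat_lit 6451118592)) (.cons (.rel (nat_lit 2155872273)) (.cons (.rel (nat_lit 2152218624)) (.cons (.rel (nat_lit 1077938181)) .nil)))))) (.cons (.rel (nat_lit 5368742400)) .nil))) .nil)) (.node .leaf (nat_lit 475419158866057) (.br (nat_lit 4) (.cons (.br (nat_lit 3) (.cons (.rel (nat_lit 1342439445)) (.cons (.rel (nat_lit 1342177416)) (.cons (.rel (nat_lit 1342447872)) .nil)))) .nil)) .leaf)) (nat_lit 475419158866200) (.br (nat_lit 5) (.cons (.br (nat_lit 3) (.cons (.rel (nat_lit 4563404304)) (.cons (.rel (nat_lit 4563421440)) (.cons (.rel (nat_lit 4564714500)) .nil)))) (.cons (.br (nat_lit 3) (.cons (.rel (nat_lit 4832894976)) (.cons (.rel (nat_lit 4563473412)) (.cons (.rel (nat_lit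 4563473412)) .nil)))) .nil))) (.node (.node .leaf (nat_lit 475419158867195) (.br (nat_lit 1) (.cons (.br (nat_lit 5) (.cons (.rel (nat_lit 4311745104)) (.cons (.rel (nat_lit 8608023552)) .nil))) (.cons (.br (nat_lit 5) (.cons (.rel (nat_lit 4312797696)) (.cons (.rel (nat_lit 8623767552)) .nil))) .nil))) .leaf) (nat_lit 475419158867427) (.br (nat_lit 4) (.cons (.br (nat_lit 5) (.cons (.rel (nat_lit 5368714245)) .nil)) .nil)) .leaf))) (nat_lit 475419159011379) (.br (nat_lit 4) (.cons (.br (nat_lit 5) (.cons (.rel (nat_lit 5368710432)) (.cons (.rel (nat_lit 5368709382)) (.cons (.rel (nat_lit 5368713240)) (.cons (.rel (nat_lit 10737422610)) .nil))))) (.cons (.br (nat_lit 2) (.cons (.rel (nat_lit 1207975938)) (.cons (.rel (nat_lit 1141115136)) (.cons (.br (nat_lit 5) (.cons (.rel (nat_lit 4362080784)) (.cons (.rel (nat_lit 5368710432)) (.cons (.rel (nat_lit 5368713240)) (.cons (.rel (nat_lit 4362076170)) .nil))))) (.cons (.rel (nat_lit 2214593028)) (.cons (.rel (nat_lit 2282782980))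 .nil)))))) (.cons (.br (nat_lit 2) (.cons (.rel (nat_lit 2214613008)) (.cons (.rel (nat_lit 2214613008)) (.cons (.rel (nat_lit 1141178376)) (.cons (.rel (nat_lit 1141116930)) (.cons (.rel (nat_lit 2214593028)) .nil)))))) (.cons (.br (nat_lit 5) (.cons (.rel (nat_lit 5368783104)) (.cons (.rel (nat_lit 5368783104)) (.cons (.rel (nat_lit 5368742400)) (.cons (.rel (nat_lit 5368710432)) .nil))))) .nil))))) (.node (.node (.node (.node .leaf (nat_lit 475419159011465) (.br (nat_lit 3) (.cons (.br (nat_lit 5) (.cons (.rel (nat_lit 4832428032)) (.cons (.rel (nat_lit 4563404304)) .nil))) (.cons (.br (nat_lit 5) (.cons (.rel (nat_lit 4563404304)) (.cons (.rel (nat_lit 4563407112)) .nil))) .nil))) .leaf) (nat_lit 475419159011608) (.br (nat_lit 4) (.cons (.br (nat_lit 2) (.cons (.rel (nat_lit 1142947845)) (.cons (.rel (nat_lit 2214625281)) (.cons (.rel (nat_lit 1142947845)) (.cons (.rel (nat_lit 1207975938)) (.cons (.rel (nat_lit 1142947845)) (.cons (.rel (nat_lit 2282782980)) .nil)))))))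 (.cons (.br (nat_lit 5) (.cons (.rel (nat_lit 10737550356)) (.cons (.rel (nat_lit 5368742400)) .nil))) .nil))) (.node .leaf (nat_lit 475419159012703) (.br (nat_lit 5) (.cons (.br (nat_lit 6) (.cons (.rel (nat_lit 21474840834)) (.cons (.rel (nat_lit 21474840834)) (.cons (.rel (nat_lit 42949674240)) .nil)))) .nil)) .leaf)) (nat_lit 475419159012835) (.br (nat_lit 5) (.cons (.br (nat_lit 1) (.cons (.rel (nat_lit 8606716164)) (.cons (.rel (nat_lit 8606782464)) .nil))) .nil)) (.node (.node .leaf (nat_lit 475419159012865) (.br (nat_lit 0) (.cons (.br (nat_lit 1) (.cons (.rel (nat_lit 20971848)) .nil)) .nil)) .leaf) (nat_lit 475419159310387) (.br (nat_lit 5) (.cons (.br (nat_lit 4) (.cons (.rel (nat_lit 5368742400)) (.cons (.br (nat_lit 0) (.cons (.rel (nat_lit 8594138112)) (.cons (.rel (nat_lit 4299178320)) (.cons (.rel (nat_lit 2155872273)) (.cons (.rel (nat_lit 8598585600)) (.cons (.rel (nat_lit 1077937176)) .nil)))))) (.cons (.rel (nat_lit 5368710432)) (.cons (.br (nat_lit 0) (.cons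 (.rel (nat_lit 8594138112)) (.cons (.rel (nat_lit 4299178320)) (.cons (.br (nat_lit 2) (.cons (.rel (nat_lit 4362097920)) (.cons (.rel (nat_lit 71311377)) (.cons (.rel (nat_lit 2214625281)) (.cons (.rel (nat_lit 4430299152)) (.cons (.rel (nat_lit 4362076170)) (.cons (.rel (nat_lit 2214625281)) (.cons (.rel (nat_lit 71321856)) (.cons (.rel (nat_lit 142622736)) .nil))))))))) (.cons (.rel (nat_lit 8598585600)) (.cons (.rel (nat_lit 1077938181)) .nil)))))) .nil))))) (.cons (.br (nat_lit 4) (.cons (.rel (nat_lit 5368783104)) (.cons (.br (nat_lit 0) (.cons (.rel (nat_lit 1077937176)) (.cons (.rel (nat_lit 2151679296)) (.cons (.rel (nat_lit 2155872273)) (.cons (.rel (nat_lit 4300210212)) (.cons (.rel (nat_lit 1077937176)) .nil)))))) (.cons (.rel (nat_lit 5368783104)) (.cons (.br (nat_lit 0) (.cons (.rel (nat_lit 1077960720)) (.cons (.rel (nat_lit 1077937176)) (.cons (.br (nat_lit 2) (.cons (.rel (nat_lit 4362076170)) (.cons (.rel (nat_lit 71311377)) (.cons (.rel (nat_lit 2214625281))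 (.cons (.rel (nat_lit 4362093057)) (.cons (.rel (nat_lit 8657567808)) (.cons (.rel (nat_lit 2214625281)) (.cons (.rel (nat_lit 71321856)) (.cons (.rel (nat_lit 142622736)) .nil))))))))) (.cons (.rel (nat_lit 4300210212)) (.cons (.rel (nat_lit 1077938181)) .nil)))))) .nil))))) (.cons (.br (nat_lit 0) (.cons (.rel (nat_lit 8594138112)) (.cons (.rel (nat_lit 4299195456)) (.cons (.rel (nat_lit 8594129448)) (.cons (.rel (nat_lit 4299195456)) (.cons (.rel (nat_lit 4303356180)) .nil)))))) .nil)))) .leaf)) (nat_lit 475419159310473) (.br (nat_lit 5) (.cons (.br (nat_lit 4) (.cons (.rel (nat_lit 10737434880)) (.cons (.br (nat_lit 3) (.cons (.rel (nat_lit 2415923205)) (.cons (.rel (nat_lit 2415936528)) (.cons (.rel (nat_lit 4563404304)) .nil)))) (.cons (.rel (nat_lit 5368727568)) (.cons (.rel (nat_lit 5368742400)) .nil))))) (.cons (.br (nat_lit 3) (.cons (.rel (nat_lit 4563421440)) (.cons (.rel (nat_lit 4563421440)) (.cons (.rel (nat_lit 4563407112)) .nil)))) .nil))) (.node (.node (.node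 .leaf (nat_lit 475419159310616) (.br (nat_lit 5) (.cons (.br (nat_lit 3) (.cons (.rel (nat_lit 4832894976)) (.cons (.rel (nat_lit 4563421440)) (.cons (.rel (nat_lit 4563473412)) .nil)))) .nil)) .leaf) (nat_lit 475419159311238) (.br (nat_lit 5) (.cons (.br (nat_lit 3) (.cons (.rel (nat_lit 4563421440)) (.cons (.rel (nat_lit 4563407112)) .nil))) .nil)) (.node .leaf (nat_lit 475419159311267) (.br (nat_lit 1) (.cons (.br (nat_lit 2) (.cons (.rel (nat_lit 100667520)) .nil)) .nil)) .leaf)) (nat_lit 475419159311611) (.br (nat_lit 0) (.cons (.br (nat_lit 1) (.cons (.rel (nat_lit 20975697)) (.cons (.rel (nat_lit 20975697)) .nil))) (.cons (.br (nat_lit 2) (.cons (.rel (nat_lit 71307528)) (.cons (.rel (nat_lit 77595648)) .nil))) .nil))) (.node (.node .leaf (nat_lit 475419159311873) (.br (nat_lit 1) (.cons (.br (nat_lit 0) (.cons (.rel (nat_lit 20987970)) (.cons (.rel (nat_lit 37765632)) .nil))) .nil)) .leaf) (nat_lit 475419160608819) (.br (nat_lit 4) (.cons (.br (nat_lit 5) (.cons (.br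 (nat_lit 0) (.cons (.rel (nat_lit 1077938181)) (.cons (.rel (nat_lit 1077937176)) (.cons (.rel (nat_lit 1082425344)) (.cons (.rel (nat_lit 1077938181)) (.cons (.rel (nat_lit 8598585600)) (.cons (.rel (nat_lit 8594198544)) .nil))))))) (.cons (.rel (nat_lit 6443499525)) (.cons (.rel (nat_lit 5368742400)) .nil)))) (.cons (.br (nat_lit 6) (.cons (.rel (nat_lit 19327354128)) (.cons (.rel (nat_lit 35433488388)) (.cons (.rel (nat_lit 18253943040)) (.cons (.rel (nat_lit 35433488388)) .nil))))) .nil))) .leaf)))) (nat_lit 475419160609048) (.br (nat_lit 4) (.cons (.br (nat_lit 3) (.cons (.rel (nat_lit 1342177416)) (.cons (.rel (nat_lit 1610630400)) .nil))) .nil)) (.node (.node (.node (.node (.node .leaf (nat_lit 475419160610043) (.br (nat_lit 0) (.cons (.br (nat_lit 1) (.cons (.rel (nat_lit 38011968)) .nil)) .nil)) .leaf) (nat_lit 475419160610270) (.br (nat_lit 1) (.cons (.br (nat_lit 2) (.cons (.rel (nat_lit 83902752)) .nil)) .nil)) (.node .leaf (nat_lit 475419725541513) (.br (nat_lit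 3) (.cons (.br (nat_lit 4) (.cons (.rel (nat_lit 1342525440)) .nil)) .nil)) .leaf)) (nat_lit 475421189354158) (.br (nat_lit 0) (.cons (.br (nat_lit 1) (.cons (.rel (nat_lit 21038148)) .nil)) .nil)) (.node (.node .leaf (nat_lit 475421190645023) (.br (nat_lit 2) (.cons (.br (nat_lit 5) (.cons (.rel (nat_lit 4362076170)) .nil)) .nil)) .leaf) (nat_lit 475421692225587) (.br (nat_lit 2) (.cons (.br (nat_lit 3) (.cons (.rel (nat_lit 603980052)) .nil)) .nil)) (.node .leaf (nat_lit 475421692671378) (.br (nat_lit 0) (.cons (.br (nat_lit 1) (.cons (.rel (nat_lit 20971848)) .nil)) .nil)) .leaf))) (nat_lit 475421692678195) (.br (nat_lit 3) (.cons (.br (nat_lit 6) (.cons (.rel (nat_lit 17716813824)) .nil)) .nil)) (.node (.node (.node .leaf (nat_lit 475424423163292) (.br (nat_lit 1) (.cons (.br (nat_lit 4) (.cons (.rel (nat_lit 1090617345)) (.cons (.rel (nat_lit 1090539777)) .nil))) (.cons (.br (nat_lit 4) (.cons (.rel (nat_lit 2181039108)) (.cons (.rel (nat_lit 1090519077)) .nil))) .nil)))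 .leaf) (nat_lit 476291980929309) (.br (nat_lit 0) (.cons (.br (nat_lit 1) (.cons (.rel (nat_lit 37765632)) .nil)) .nil)) (.node .leaf (nat_lit 476291981082684) (.br (nat_lit 0) (.cons (.br (nat_lit 1) (.cons (.rel (nat_lit 25165830)) .nil)) .nil)) .leaf)) (nat_lit 477231635065112) (.br (nat_lit 2) (.cons (.br (nat_lit 3) (.cons (.rel (nat_lit 603981057)) .nil)) .nil)) (.node (.node .leaf (nat_lit 477231635509510) (.br (nat_lit 0) (.cons (.br (nat_lit 1) (.cons (.rel (nat_lit 20971848)) .nil)) .nil)) .leaf) (nat_lit 480632746291225) (.br (nat_lit 1) (.cons (.br (nat_lit 5) (.cons (.rel (nat_lit 4311762240)) .nil)) .nil)) .leaf))) (nat_lit 481445313000105) (.br (nat_lit 4) (.cons (.br (nat_lit 6) (.cons (.rel (nat_lit 18253611138)) .nil)) .nil)) (.node (.node (.node (.node .leaf (nat_lit 481664039924974) (.br (nat_lit 1) (.cons (.br (nat_lit 2) (.cons (.rel (nat_lit 84181056)) .nil)) .nil)) .leaf) (nat_lit 481664039925099) (.br (nat_lit 1) (.cons (.br (nat_lit 4) (.cons (.rel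 (nat_lit 1090519077)) .nil)) .nil)) (.node .leaf (nat_lit 481664040529957) (.br (nat_lit 0) (.cons (.br (nat_lit 1) (.cons (.rel (nat_lit 37748745)) .nil)) .nil)) .leaf)) (nat_lit 481664040530182) (.br (nat_lit 5) (.cons (.br (nat_lit 1) (.cons (.rel (nat_lit 8606793732)) (.cons (.rel (nat_lit 4311745104)) .nil))) .nil)) (.node (.node .leaf (nat_lit 481664041298200) (.br (nat_lit 4) (.cons (.br (nat_lit 5) (.cons (.rel (nat_lit 5368713240)) .nil)) .nil)) .leaf) (nat_lit 481664041299457) (.br (nat_lit 1) (.cons (.br (nat_lit 0) (.cons (.rel (nat_lit 22021632)) (.cons (.rel (nat_lit 20971848)) .nil))) .nil)) .leaf)) (nat_lit 481664041458350) (.br (nat_lit 0) (.cons (.br (nat_lit 1) (.cons (.rel (nat_lit 20971848)) .nil)) .nil)) (.node (.node (.node .leaf (nat_lit 481664041759000) (.br (nat_lit 1) (.cons (.br (nat_lit 5) (.cons (.rel (nat_lit 4311762240)) .nil)) .nil)) .leaf) (nat_lit 481664041768995) (.br (nat_lit 1) (.cons (.br (nat_lit 2) (.cons (.rel (nat_lit 83895297)) .nil))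 .nil)) (.node .leaf (nat_lit 486852360978712) (.br (nat_lit 0) (.cons (.br (nat_lit 2) (.cons (.rel (nat_lit 142622736)) .nil)) .nil)) .leaf)) (nat_lit 486854895611955) (.br (nat_lit 2) (.cons (.br (nat_lit 4) (.cons (.rel (nat_lit 1140868224)) .nil)) .nil)) (.node (.node .leaf (nat_lit 486854895620147) (.br (nat_lit 2) (.cons (.br (nat_lit 4) (.cons (.rel (nat_lit 1140868224)) .nil)) .nil)) .leaf) (nat_lit 486854896910387) (.br (nat_lit 2) (.cons (.br (nat_lit 5) (.cons (.rel (nat_lit 4362175488)) .nil)) .nil)) .leaf)))))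

/-- refutations 3 -/
def e3 : EX := (.node (.node (.node (.node (.node (.node .leaf (nat_lit 1073231883083808) (.br (nat_lit 1) (.cons (.br (nat_lit 2) (.cons (.rel (nat_lit 83894292)) .nil)) .nil)) .leaf) (nat_lit 1073555595847064) (.br (nat_lit 2) (.cons (.br (nat_lit 3) (.cons (.rel (nat_lit 603985920)) .nil)) .nil)) (.node .leaf (nat_lit 1073558298046496) (.br (nat_lit 1) (.cons (.br (nat_lit 0) (.cons (.rel (nat_lit 37883904)) (.cons (.rel (nat_lit 21499908)) (.cons (.rel (nat_lit 37883904)) (.cons (.rel (nat_lit 37750800)) .nil))))) .nil)) .leaf)) (nat_lit 1073558298302650) (.br (nat_lit 5) (.cons (.br (nat_lit 6) (.cons (.rel (nat_lit 21474839040)) (.cons (.rel (nat_lit 21474839040)) .nil))) .nil)) (.node (.node .leaf (nat_lit 1073558298303989) (.br (nat_lit 1) (.cons (.br (nat_lit 3) (.cons (.rel (nat_lit 570429696)) .nil)) .nil)) .leaf) (nat_lit 1073558298652858) (.br (nat_lit 2) (.cons (.br (nat_lit 3) (.cons (.rel (nat_lit 402662400)) (.cons (.rel (nat_lit 603985920))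 (.cons (.rel (nat_lit 402662400)) .nil)))) .nil)) .leaf)) (nat_lit 1073558299437242) (.br (nat_lit 1) (.cons (.br (nat_lit 6) (.cons (.rel (nat_lit 17196687360)) (.cons (.rel (nat_lit 17196687360)) (.cons (.rel (nat_lit 17196687360)) (.cons (.rel (nat_lit 17196650529)) (.cons (.rel (nat_lit 17196652548)) .nil)))))) .nil)) (.node (.node (.node .leaf (nat_lit 1073558299574304) (.br (nat_lit 1) (.cons (.br (nat_lit 2) (.cons (.rel (nat_lit 83902752)) (.cons (.rel (nat_lit 167773440)) (.cons (.rel (nat_lit 167773440)) .nil)))) .nil)) .leaf) (nat_lit 1073558299575179) (.br (nat_lit 1) (.cons (.br (nat_lit 0) (.cons (.rel (nat_lit 21038148)) (.cons (.rel (nat_lit 20971848)) .nil))) .nil)) .leaf) (nat_lit 1074257356141980) (.br (nat_lit 0) (.cons (.br (nat_lit 3) (.cons (.rel (nat_lit 272647170)) .nil)) .nil)) (.node (.node .leaf (nat_lit 1074257356158310) (.br (nat_lit 0) (.cons (.br (nat_lit 2) (.cons (.rel (nat_lit 71307528)) .nil)) .nil)) .leaf) (nat_lit 1074295460932966) (.br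 (nat_lit 0) (.cons (.br (nat_lit 1) (.cons (.rel (nat_lit 20975697)) .nil)) .nil)) .leaf))) (nat_lit 1074295461401958) (.br (nat_lit 4) (.cons (.br (nat_lit 3) (.cons (.rel (nat_lit 2415919392)) (.cons (.rel (nat_lit 1610743809)) .nil))) .nil)) (.node (.node (.node (.node .leaf (nat_lit 1074295461410150) (.br (nat_lit 0) (.cons (.br (nat_lit 1) (.cons (.rel (nat_lit 22021632)) .nil)) .nil)) .leaf) (nat_lit 1074295462161309) (.br (nat_lit 0) (.cons (.br (nat_lit 3) (.cons (.rel (nat_lit 272654592)) .nil)) .nil)) (.node .leaf (nat_lit 1074295462161766) (.br (nat_lit 1) (.cons (.br (nat_lit 3) (.cons (.rel (nat_lit 570507264)) (.cons (.rel (nat_lit 285221376)) (.cons (.rel (nat_lit 285212949)) .nil)))) .nil)) .leaf)) (nat_lit 1075548991597855) (.br (nat_lit 1) (.cons (.br (nat_lit 3) (.cons (.rel (nat_lit 285221376)) .nil)) .nil)) (.node (.node .leaf (nat_lit 1075548991768053) (.br (nat_lit 1) (.cons (.br (nat_lit 3) (.cons (.rel (nat_lit 285217812)) .nil)) .nil)) .leaf) (nat_lit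 1075795600056330) (.br (nat_lit 0) (.cons (.br (nat_lit 1) (.cons (.rel (nat_lit 22028289)) .nil)) .nil)) .leaf)) (nat_lit 1075795600355628) (.br (nat_lit 0) (.cons (.br (nat_lit 1) (.cons (.rel (nat_lit 22052880)) .nil)) .nil)) (.node (.node (.node .leaf (nat_lit 1075795600356228) (.br (nat_lit 0) (.cons (.br (nat_lit 1) (.cons (.rel (nat_lit 22021632)) .nil)) .nil)) .leaf) (nat_lit 1075795600356828) (.br (nat_lit 3) (.cons (.br (nat_lit 0) (.cons (.rel (nat_lit 272631048)) (.cons (.rel (nat_lit 272631048)) (.cons (.rel (nat_lit 272761344)) .nil)))) .nil)) .leaf) (nat_lit 1078578739164636) (.br (nat_lit 2) (.cons (.br (nat_lit 3) (.cons (.rel (nat_lit 603980052)) .nil)) .nil)) (.node (.node .leaf (nat_lit 1078583411310624) (.br (nat_lit 0) (.cons (.br (nat_lit 2) (.cons (.rel (nat_lit 71311377)) .nil)) .nil)) .leaf) (nat_lit 1078710478825504) (.br (nat_lit 0) (.cons (.br (nat_lit 1) (.cons (.rel (nat_lit 20987970)) .nil)) .nil)) .leaf)))) (nat_lit 1078712619513244) (.br (nat_lit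 1) (.cons (.br (nat_lit 3) (.cons (.rel (nat_lit 285221376)) .nil)) .nil)) (.node (.node (.node (.node (.node .leaf (nat_lit 1078712621047994) (.br (nat_lit 1) (.cons (.br (nat_lit 2) (.cons (.rel (nat_lit 83902752)) .nil)) .nil)) .leaf) (nat_lit 1078712621048494) (.br (nat_lit 0) (.cons (.br (nat_lit 3) (.cons (.rel (nat_lit 272631048)) .nil)) .nil)) (.node .leaf (nat_lit 1078712621346841) (.br (nat_lit 1) (.cons (.br (nat_lit 2) (.cons (.rel (nat_lit 83902752)) .nil)) .nil)) .leaf)) (nat_lit 1078712621347077) (.br (nat_lit 1) (.cons (.br (nat_lit 2) (.cons (.rel (nat_lit 83951880)) .nil)) .nil)) (.node (.node .leaf (nat_lit 1078712621347716) (.br (nat_lit 0) (.cons (.br (nat_lit 1) (.cons (.rel (nat_lit 21561345)) .nil)) .nil)) .leaf) (nat_lit 1078712622114848) (.br (nat_lit 1) (.cons (.br (nat_lit 6) (.cons (.rel (nat_lit 17196646680)) .nil)) .nil)) .leaf)) (nat_lit 1078712622430240) (.br (nat_lit 1) (.cons (.br (nat_lit 2) (.cons (.rel (nat_lit 83951880)) .nil)) .nil)) (.node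 (.node (.node .leaf (nat_lit 1078712622430394) (.br (nat_lit 0) (.cons (.br (nat_lit 1) (.cons (.rel (nat_lit 37765632)) .nil)) .nil)) .leaf) (nat_lit 1078712622430469) (.br (nat_lit 1) (.cons (.br (nat_lit 0) (.cons (.rel (nat_lit 42271008)) (.cons (.rel (nat_lit 20975697)) .nil))) .nil)) .leaf) (nat_lit 1078712622431594) (.br (nat_lit 1) (.cons (.br (nat_lit 6) (.cons (.rel (nat_lit 17196687360)) .nil)) .nil)) (.node (.node .leaf (nat_lit 1078712622438432) (.br (nat_lit 3) (.cons (.br (nat_lit 4) (.cons (.rel (nat_lit 2415984642)) .nil)) .nil)) .leaf) (nat_lit 1078712622439207) (.br (nat_lit 2) (.cons (.br (nat_lit 3) (.cons (.rel (nat_lit 337117185)) .nil)) .nil)) .leaf))) (nat_lit 1078712622439786) (.br (nat_lit 0) (.cons (.br (nat_lit 1) (.cons (.rel (nat_lit 20971848)) .nil)) .nil)) (.node (.node (.node (.node .leaf (nat_lit 1079798509431045) (.br (nat_lit 0) (.cons (.br (nat_lit 1) (.cons (.rel (nat_lit 37750800)) .nil)) .nil)) .leaf) (nat_lit 1085210483241146) (.br (nat_lit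 1) (.cons (.br (nat_lit 5) (.cons (.rel (nat_lit 4328522001)) .nil)) .nil)) .leaf) (nat_lit 1085210484334069) (.br (nat_lit 1) (.cons (.br (nat_lit 4) (.cons (.rel (nat_lit 1090527504)) .nil)) .nil)) (.node (.node .leaf (nat_lit 1085367304073516) (.br (nat_lit 0) (.cons (.br (nat_lit 1) (.cons (.rel (nat_lit 21561345)) .nil)) .nil)) .leaf) (nat_lit 1085369459647150) (.br (nat_lit 0) (.cons (.br (nat_lit 2) (.cons (.rel (nat_lit 142622736)) .nil)) .nil)) .leaf)) (nat_lit 1085369459647221) (.br (nat_lit 0) (.cons (.br (nat_lit 1) (.cons (.rel (nat_lit 21499908)) .nil)) .nil)) (.node (.node (.node .leaf (nat_lit 1085369459946229) (.br (nat_lit 1) (.cons (.br (nat_lit 4) (.cons (.rel (nat_lit 1090617345)) (.cons (.rel (nat_lit 1090521096)) .nil))) .nil)) .leaf) (nat_lit 1085369460662304) (.br (nat_lit 1) (.cons (.br (nat_lit 0) (.cons (.rel (nat_lit 37765632)) (.cons (.rel (nat_lit 22052880)) .nil))) .nil)) .leaf) (nat_lit 1085369460663779) (.br (nat_lit 0) (.cons (.br (nat_lit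 1) (.cons (.rel (nat_lit 21514248)) .nil)) .nil)) (.node (.node .leaf (nat_lit 1086288944629792) (.br (nat_lit 1) (.cons (.br (nat_lit 3) (.cons (.rel (nat_lit 285540417)) .nil)) .nil)) .leaf) (nat_lit 1086503675244555) (.br (nat_lit 0) (.cons (.br (nat_lit 1) (.cons (.rel (nat_lit 25165830)) .nil)) .nil)) .leaf)))))

/-- refutations 4 -/
def e4 : EX := (.node (.node (.node .leaf (nat_lit 2223333867009275) (.br (nat_lit 2) (.cons (.br (nat_lit 3) (.cons (.rel (nat_lit 403963920)) .nil)) .nil)) .leaf) (nat_lit 2224230005224806) (.br (nat_lit 0) (.cons (.br (nat_lit 1) (.cons (.rel (nat_lit 42471744)) .nil)) .nil)) .leaf) (nat_lit 2229554758806766) (.br (nat_lit 0) (.cons (.br (nat_lit 1) (.cons (.rel (nat_lit 20987970)) .nil)) .nil)) (.node (.node .leaf (nat_lit 2229555764670726) (.br (nat_lit 0) (.cons (.br (nat_lit 2) (.cons (.rel (nat_lit 142622736)) .nil)) .nil)) .leaf) (nat_lit 2229555765962086) (.br (nat_lit 0) (.cons (.br (nat_lit 1) (.cons (.rel (nat_lit 20971848)) .nil))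 .nil)) .leaf))

/-- refutations 5 -/
def e5 : EX := (.node (.node (.node (.node (.node .leaf (nat_lit 2322229766889772) (.br (nat_lit 0) (.cons (.br (nat_lit 2) (.cons (.rel (nat_lit 71335968)) (.cons (.rel (nat_lit 71311377)) (.cons (.rel (nat_lit 142622736)) .nil)))) .nil)) .leaf) (nat_lit 2322229767188637) (.br (nat_lit 0) (.cons (.br (nat_lit 3) (.cons (.rel (nat_lit 272761344)) .nil)) .nil)) (.node .leaf (nat_lit 2322229767188741) (.br (nat_lit 1) (.cons (.br (nat_lit 5) (.cons (.rel (nat_lit 4328522001)) (.cons (.rel (nat_lit 4311762240)) .nil))) .nil)) .leaf)) (nat_lit 2323339457932575) (.br (nat_lit 4) (.cons (.br (nat_lit 5) (.cons (.rel (nat_lit 5368709382)) .nil)) .nil)) (.node (.node .leaf (nat_lit 2323343090659514) (.br (nat_lit 1) (.cons (.br (nat_lit 5) (.cons (.rel (nat_lit 4311745104)) .nil)) .nil)) .leaf) (nat_lit 2324597346495150) (.br (nat_lit 0) (.cons (.br (nat_lit 1) (.cons (.rel (nat_lit 21499908)) .nil)) .nil)) .leaf)) (nat_lit 2324597346639897) (.br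 (nat_lit 1) (.cons (.br (nat_lit 4) (.cons (.rel (nat_lit 1090555908)) .nil)) .nil)) (.node (.node (.node .leaf (nat_lit 2324597346939637) (.br (nat_lit 0) (.cons (.br (nat_lit 1) (.cons (.rel (nat_lit 21499908)) .nil)) .nil)) .leaf) (nat_lit 2327624244838661) (.br (nat_lit 0) (.cons (.br (nat_lit 4) (.cons (.rel (nat_lit 1078018308)) .nil)) .nil)) (.node .leaf (nat_lit 2328027971809437) (.br (nat_lit 0) (.cons (.br (nat_lit 1) (.cons (.rel (nat_lit 25165830)) (.cons (.rel (nat_lit 20975697)) .nil))) (.cons (.br (nat_lit 1) (.cons (.rel (nat_lit 25165830)) (.cons (.rel (nat_lit 21038148)) .nil))) .nil))) .leaf)) (nat_lit 2328027973038237) (.br (nat_lit 3) (.cons (.br (nat_lit 1) (.cons (.rel (nat_lit 285218817)) (.cons (.rel (nat_lit 285376512)) .nil))) .nil)) (.node (.node .leaf (nat_lit 2328027973038837) (.br (nat_lit 1) (.cons (.br (nat_lit 3) (.cons (.rel (nat_lit 285376512)) .nil)) .nil)) .leaf) (nat_lit 2328620127536390) (.br (nat_lit 1) (.cons (.br (nat_lit 3) (.cons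 (.rel (nat_lit 285213954)) .nil)) .nil)) .leaf))) (nat_lit 2328622896038518) (.br (nat_lit 0) (.cons (.br (nat_lit 1) (.cons (.rel (nat_lit 20971848)) .nil)) .nil)) (.node (.node (.node (.node .leaf (nat_lit 2329744923512190) (.br (nat_lit 1) (.cons (.br (nat_lit 6) (.cons (.rel (nat_lit 17196687360)) .nil)) .nil)) .leaf) (nat_lit 2329750153816250) (.br (nat_lit 1) (.cons (.br (nat_lit 2) (.cons (.rel (nat_lit 167773440)) .nil)) .nil)) (.node .leaf (nat_lit 2329750333080328) (.br (nat_lit 4) (.cons (.br (nat_lit 0) (.cons (.rel (nat_lit 1077936162)) (.cons (.rel (nat_lit 1077938181)) .nil))) .nil)) .leaf)) (nat_lit 2329750333386938) (.br (nat_lit 1) (.cons (.br (nat_lit 0) (.cons (.rel (nat_lit 20975697)) (.cons (.rel (nat_lit 20975697)) .nil))) .nil)) (.node (.node .leaf (nat_lit 2329750334154902) (.br (nat_lit 0) (.cons (.br (nat_lit 1) (.cons (.rel (nat_lit 25166880)) .nil)) .nil)) .leaf) (nat_lit 2329750334171293) (.br (nat_lit 0) (.cons (.br (nat_lit 1) (.cons (.rel (nat_lit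 21499908)) .nil)) .nil)) .leaf)) (nat_lit 2329750334171893) (.br (nat_lit 0) (.cons (.br (nat_lit 1) (.cons (.rel (nat_lit 22021632)) .nil)) .nil)) (.node (.node (.node .leaf (nat_lit 2329750334325368) (.br (nat_lit 4) (.cons (.br (nat_lit 5) (.cons (.rel (nat_lit 10737434880)) .nil)) .nil)) .leaf) (nat_lit 2329750334615683) (.br (nat_lit 0) (.cons (.br (nat_lit 3) (.cons (.rel (nat_lit 272761344)) .nil)) .nil)) .leaf) (nat_lit 2333433680113850) (.br (nat_lit 0) (.cons (.br (nat_lit 6) (.cons (.rel (nat_lit 17184072192)) .nil)) .nil)) (.node (.node .leaf (nat_lit 2334411837944069) (.br (nat_lit 1) (.cons (.br (nat_lit 3) (.cons (.rel (nat_lit 285221376)) .nil)) .nil)) .leaf) (nat_lit 2334412512774405) (.br (nat_lit 1) (.cons (.br (nat_lit 0) (.cons (.rel (nat_lit 25198848)) (.cons (.rel (nat_lit 25165830)) .nil))) .nil)) .leaf))))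

/-- refutations 6 -/
def e6 : EX := (.node (.node (.node (.node (.node (.node .leaf (nat_lit 2850203598331113) (.br (nat_lit 0) (.cons (.br (nat_lit 1) (.cons (.rel (nat_lit 21038148)) .nil)) .nil)) .leaf) (nat_lit 2850364275307803) (.br (nat_lit 2) (.cons (.br (nat_lit 4) (.cons (.rel (nat_lit 2214593028)) .nil)) .nil)) .leaf) (nat_lit 2850364839959208) (.br (nat_lit 3) (.cons (.br (nat_lit 4) (.cons (.rel (nat_lit 1343227200)) .nil)) .nil)) (.node (.node .leaf (nat_lit 2850364840308863) (.br (nat_lit 0) (.cons (.br (nat_lit 2) (.cons (.rel (nat_lit 142622736)) (.cons (.rel (nat_lit 71335968)) .nil))) .nil)) .leaf) (nat_lit 2850364840309421) (.br (nat_lit 0) (.cons (.br (nat_lit 1) (.cons (.rel (nat_lit 22021632)) .nil)) .nil)) .leaf)) (nat_lit 2850364841077422) (.br (nat_lit 0) (.cons (.br (nat_lit 1) (.cons (.rel (nat_lit 26480640)) .nil)) .nil)) (.node (.node (.node .leaf (nat_lit 2850364841086303) (.br (nat_lit 0) (.cons (.br (nat_lit 2) (.cons (.rel (nat_lit 142622736))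 (.cons (.rel (nat_lit 75563136)) .nil))) (.cons (.br (nat_lit 2) (.cons (.rel (nat_lit 71304720)) (.cons (.rel (nat_lit 71307528)) .nil))) .nil))) .leaf) (nat_lit 2850364841086435) (.br (nat_lit 2) (.cons (.br (nat_lit 0) (.cons (.rel (nat_lit 71335968)) (.cons (.rel (nat_lit 71565888)) .nil))) .nil)) .leaf) (nat_lit 2850364841093175) (.br (nat_lit 2) (.cons (.br (nat_lit 5) (.cons (.rel (nat_lit 4362076170)) .nil)) .nil)) (.node (.node .leaf (nat_lit 2850364841094406) (.br (nat_lit 2) (.cons (.br (nat_lit 4) (.cons (.rel (nat_lit 1140868224)) .nil)) .nil)) .leaf) (nat_lit 2850364841094506) (.br (nat_lit 2) (.cons (.br (nat_lit 5) (.cons (.rel (nat_lit 8724284688)) (.cons (.rel (nat_lit 8657306640)) .nil))) .nil)) .leaf))) (nat_lit 2850364841231711) (.br (nat_lit 0) (.cons (.br (nat_lit 2) (.cons (.rel (nat_lit 71335968)) .nil)) .nil)) (.node (.node (.node (.node .leaf (nat_lit 2850364841231722) (.br (nat_lit 1) (.cons (.br (nat_lit 2) (.cons (.rel (nat_lit 84934788)) .nil))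 .nil)) .leaf) (nat_lit 2850364841231843) (.br (nat_lit 3) (.cons (.br (nat_lit 4) (.cons (.rel (nat_lit 1610630400)) .nil)) .nil)) .leaf) (nat_lit 2850364841238813) (.br (nat_lit 0) (.cons (.br (nat_lit 1) (.cons (.rel (nat_lit 22028289)) .nil)) .nil)) (.node (.node .leaf (nat_lit 2850364841239159) (.br (nat_lit 1) (.cons (.br (nat_lit 2) (.cons (.rel (nat_lit 83888640)) .nil)) .nil)) .leaf) (nat_lit 2850364841239213) (.br (nat_lit 5) (.cons (.br (nat_lit 2) (.cons (.rel (nat_lit 4362076170)) (.cons (.rel (nat_lit 4362076170)) .nil))) .nil)) .leaf)) (nat_lit 2850364841537663) (.br (nat_lit 0) (.cons (.br (nat_lit 2) (.cons (.rel (nat_lit 71373828)) .nil)) .nil)) (.node (.node (.node .leaf (nat_lit 2850364841537823) (.br (nat_lit 2) (.cons (.br (nat_lit 5) (.cons (.rel (nat_lit 4429447296)) .nil)) .nil)) .leaf) (nat_lit 2850364841537836) (.br (nat_lit 0) (.cons (.br (nat_lit 2) (.cons (.rel (nat_lit 71335968)) .nil)) .nil)) .leaf) (nat_lit 2850364841538338) (.br (nat_lit 0) (.cons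 (.br (nat_lit 1) (.cons (.rel (nat_lit 21499908)) (.cons (.rel (nat_lit 25166880)) .nil))) .nil)) (.node (.node .leaf (nat_lit 2850364841538822) (.br (nat_lit 1) (.cons (.br (nat_lit 0) (.cons (.rel (nat_lit 21499908)) (.cons (.rel (nat_lit 39124992)) .nil))) .nil)) .leaf) (nat_lit 2850364841538938) (.br (nat_lit 4) (.cons (.br (nat_lit 1) (.cons (.rel (nat_lit 1090527504)) (.cons (.rel (nat_lit 1091568000)) .nil))) .nil)) .leaf)))) (nat_lit 2850364842630547) (.br (nat_lit 1) (.cons (.br (nat_lit 0) (.cons (.rel (nat_lit 21499908)) (.cons (.rel (nat_lit 22021632)) .nil))) .nil)) (.node (.node (.node (.node (.node .leaf (nat_lit 2850364842826413) (.br (nat_lit 3) (.cons (.br (nat_lit 4) (.cons (.rel (nat_lit 1343227200)) .nil)) .nil)) .leaf) (nat_lit 2850364842829162) (.br (nat_lit 0) (.cons (.br (nat_lit 2) (.cons (.rel (nat_lit 71321856)) .nil)) .nil)) .leaf) (nat_lit 2850364842829313) (.br (nat_lit 0) (.cons (.br (nat_lit 1) (.cons (.rel (nat_lit 20987970)) .nil)) .nil)) (.node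 (.node .leaf (nat_lit 2850364842836095) (.br (nat_lit 1) (.cons (.br (nat_lit 4) (.cons (.rel (nat_lit 1090651392)) .nil)) .nil)) .leaf) (nat_lit 2850364842836255) (.br (nat_lit 2) (.cons (.br (nat_lit 4) (.cons (.rel (nat_lit 1141116930)) .nil)) .nil)) .leaf)) (nat_lit 2850364842836748) (.br (nat_lit 4) (.cons (.br (nat_lit 0) (.cons (.rel (nat_lit 1077972993)) (.cons (.rel (nat_lit 1077938181)) .nil))) .nil)) (.node (.node (.node .leaf (nat_lit 2850364842837368) (.br (nat_lit 0) (.cons (.br (nat_lit 1) (.cons (.rel (nat_lit 20987970)) .nil)) .nil)) .leaf) (nat_lit 2850369091136424) (.br (nat_lit 2) (.cons (.br (nat_lit 1) (.cons (.rel (nat_lit 100925700)) (.cons (.rel (nat_lit 83919888)) .nil))) .nil)) .leaf) (nat_lit 2850369513686378) (.br (nat_lit 2) (.cons (.br (nat_lit 3) (.cons (.rel (nat_lit 335876097)) .nil)) .nil)) (.node (.node .leaf (nat_lit 2850369513992479) (.br (nat_lit 1) (.cons (.br (nat_lit 2) (.cons (.rel (nat_lit 83902752)) .nil)) .nil)) .leaf) (nat_lit 2850369515282458)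 (.br (nat_lit 1) (.cons (.br (nat_lit 2) (.cons (.rel (nat_lit 167773440)) .nil)) .nil)) .leaf))) (nat_lit 2851103466401130) (.br (nat_lit 2) (.cons (.br (nat_lit 3) (.cons (.rel (nat_lit 603981057)) .nil)) .nil)) (.node (.node (.node (.node .leaf (nat_lit 2851237097079461) (.br (nat_lit 1) (.cons (.br (nat_lit 4) (.cons (.br (nat_lit 2) (.cons (.rel (nat_lit 1141129248)) (.cons (.rel (nat_lit 83919888)) (.cons (.rel (nat_lit 1207975938)) .nil)))) .nil)) .nil)) .leaf) (nat_lit 2855389951439008) (.br (nat_lit 2) (.cons (.br (nat_lit 5) (.cons (.rel (nat_lit 4362080784)) .nil)) .nil)) .leaf) (nat_lit 2855577860453288) (.br (nat_lit 1) (.cons (.br (nat_lit 6) (.cons (.rel (nat_lit 17196687360)) (.cons (.rel (nat_lit 17196662802)) (.cons (.rel (nat_lit 17196687360)) (.cons (.rel (nat_lit 34393313280)) (.cons (.rel (nat_lit 17196687360)) .nil)))))) .nil)) (.node (.node .leaf (nat_lit 2855577862287385) (.br (nat_lit 5) (.cons (.br (nat_lit 1) (.cons (.rel (nat_lit 4328526864)) (.cons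 (.rel (nat_lit 4312301568)) .nil))) .nil)) .leaf) (nat_lit 2855577863380326) (.br (nat_lit 1) (.cons (.br (nat_lit 2) (.cons (.rel (nat_lit 84181056)) .nil)) .nil)) .leaf)) (nat_lit 2855583178830510) (.br (nat_lit 1) (.cons (.br (nat_lit 4) (.cons (.rel (nat_lit 1090781250)) .nil)) .nil)) (.node (.node (.node .leaf (nat_lit 2855584250213038) (.br (nat_lit 0) (.cons (.br (nat_lit 2) (.cons (.rel (nat_lit 139462656)) .nil)) .nil)) .leaf) (nat_lit 2856385957868806) (.br (nat_lit 0) (.cons (.br (nat_lit 1) (.cons (.rel (nat_lit 37748745)) .nil)) .nil)) .leaf) (nat_lit 2856391732164895) (.br (nat_lit 1) (.cons (.br (nat_lit 2) (.cons (.rel (nat_lit 83902752)) .nil)) .nil)) (.node (.node .leaf (nat_lit 2856391734263267) (.br (nat_lit 0) (.cons (.br (nat_lit 3) (.cons (.rel (nat_lit 272761344)) .nil)) .nil)) .leaf) (nat_lit 2856609157756382) (.br (nat_lit 2) (.cons (.br (nat_lit 5) (.cons (.rel (nat_lit 4362149892)) .nil)) .nil)) .leaf)))))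

/-- refutations 7 -/
def e7 : EX := (.node (.node (.node (.node .leaf (nat_lit 2856652128400617) (.br (nat_lit 1) (.cons (.br (nat_lit 2) (.cons (.rel (nat_lit 84018180)) .nil)) .nil)) .leaf) (nat_lit 2857932653161985) (.br (nat_lit 1) (.cons (.br (nat_lit 2) (.cons (.rel (nat_lit 167773440)) .nil)) .nil)) (.node .leaf (nat_lit 2857932653299070) (.br (nat_lit 0) (.cons (.br (nat_lit 1) (.cons (.rel (nat_lit 22151172)) .nil)) .nil)) .leaf)) (nat_lit 2857932653307393) (.br (nat_lit 1) (.cons (.br (nat_lit 2) (.cons (.rel (nat_lit 167773440)) .nil)) .nil)) (.node (.node .leaf (nat_lit 2857932653606145) (.br (nat_lit 2) (.cons (.br (nat_lit 6) (.cons (.rel (nat_lit 17247371265)) .nil)) .nil)) .leaf) (nat_lit 2860932004283045) (.br (nat_lit 2) (.cons (.br (nat_lit 3) (.cons (.rel (nat_lit 603997188)) .nil)) .nil)) (.node .leaf (nat_lit 2860932004589853) (.br (nat_lit 0) (.cons (.br (nat_lit 2) (.cons (.rel (nat_lit 71321856)) .nil)) .nil)) .leaf))) (nat_lit 2861800010349346) (.br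 (nat_lit 2) (.cons (.br (nat_lit 3) (.cons (.rel (nat_lit 335544960)) .nil)) .nil)) (.node (.node (.node .leaf (nat_lit 2861800011608375) (.br (nat_lit 5) (.cons (.br (nat_lit 6) (.cons (.rel (nat_lit 25770853440)) (.cons (.rel (nat_lit 38655234048)) (.cons (.rel (nat_lit 42949674240)) .nil)))) .nil)) .leaf) (nat_lit 2861800012898615) (.br (nat_lit 1) (.cons (.br (nat_lit 4) (.cons (.rel (nat_lit 1090544640)) .nil)) .nil)) (.node .leaf (nat_lit 2862834155776752) (.br (nat_lit 0) (.cons (.br (nat_lit 4) (.cons (.rel (nat_lit 1078018308)) .nil)) .nil)) .leaf)) (nat_lit 2862919345517480) (.br (nat_lit 1) (.cons (.br (nat_lit 2) (.cons (.rel (nat_lit 83894292)) .nil)) .nil)) (.node (.node .leaf (nat_lit 2862919346285819) (.br (nat_lit 1) (.cons (.br (nat_lit 3) (.cons (.rel (nat_lit 285278244)) .nil)) .nil)) .leaf) (nat_lit 2863309872516609) (.br (nat_lit 0) (.cons (.br (nat_lit 1) (.cons (.rel (nat_lit 20987970)) .nil)) .nil)) (.node .leaf (nat_lit 2863311416471837) (.br (nat_lit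 0) (.cons (.br (nat_lit 2) (.cons (.rel (nat_lit 71335968)) .nil)) .nil)) .leaf))))

/-- refutations 9 -/
def e9 : EX := (.node (.node (.node (.node (.node (.node .leaf (nat_lit 2832403161202949) (.br (nat_lit 0) (.cons (.br (nat_lit 1) (.cons (.rel (nat_lit 22028289)) .nil)) .nil)) .leaf) (nat_lit 2832403162178968) (.br (nat_lit 4) (.cons (.br (nat_lit 2) (.cons (.rel (nat_lit 1141129248)) (.cons (.rel (nat_lit 1141129248)) (.cons (.rel (nat_lit 1207963665)) .nil)))) .nil)) (.node .leaf (nat_lit 2832403162179036) (.br (nat_lit 0) (.cons (.br (nat_lit 1) (.cons (.rel (nat_lit 20975697)) .nil)) .nil)) .leaf)) (nat_lit 2832562499585407) (.br (nat_lit 2) (.cons (.br (nat_lit 6) (.cons (.rel (nat_lit 34426847505)) .nil)) .nil)) (.node (.node .leaf (nat_lit 2832654339345320) (.br (nat_lit 1) (.cons (.br (nat_lit 2) (.cons (.rel (nat_lit 83894292)) .nil)) .nil)) .leaf) (nat_lit 2832654339345941) (.br (nat_lit 1) (.cons (.br (nat_lit 5) (.cons (.rel (nat_lit 4311745104)) .nil)) .nil))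 .leaf)) (nat_lit 2833513901804956) (.br (nat_lit 1) (.cons (.br (nat_lit 3) (.cons (.rel (nat_lit 285212949)) .nil)) .nil)) (.node (.node (.node .leaf (nat_lit 2833513901966748) (.br (nat_lit 1) (.cons (.br (nat_lit 6) (.cons (.rel (nat_lit 17196687360)) .nil)) .nil)) .leaf) (nat_lit 2833515579979114) (.br (nat_lit 1) (.cons (.br (nat_lit 0) (.cons (.rel (nat_lit 37883904)) (.cons (.rel (nat_lit 37765632)) .nil))) .nil)) (.node .leaf (nat_lit 2833515998956456) (.br (nat_lit 1) (.cons (.br (nat_lit 2) (.cons (.rel (nat_lit 83890434)) (.cons (.rel (nat_lit 167773440)) .nil))) (.cons (.br (nat_lit 0) (.cons (.rel (nat_lit 21561345)) (.cons (.rel (nat_lit 21499908)) (.cons (.rel (nat_lit 20975697)) (.cons (.rel (nat_lit 22021632)) (.cons (.rel (nat_lit 20987970)) (.cons (.rel (nat_lit 20971848)) .nil))))))) .nil))) .leaf)) (nat_lit 2833515998956956) (.br (nat_lit 1) (.cons (.br (nat_lit 3) (.cons (.rel (nat_lit 285213954)) .nil)) .nil)) (.node (.node .leaf (nat_lit 2833515999100928)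 (.br (nat_lit 0) (.cons (.br (nat_lit 1) (.cons (.rel (nat_lit 25165830)) (.cons (.rel (nat_lit 22021632)) .nil))) .nil)) .leaf) (nat_lit 2833515999101703) (.br (nat_lit 4) (.cons (.br (nat_lit 5) (.cons (.rel (nat_lit 5368713240)) .nil)) .nil)) .leaf))) (nat_lit 2833515999109127) (.br (nat_lit 1) (.cons (.br (nat_lit 2) (.cons (.rel (nat_lit 83890434)) .nil)) .nil)) (.node (.node (.node (.node .leaf (nat_lit 2833515999109752) (.br (nat_lit 3) (.cons (.br (nat_lit 5) (.cons (.rel (nat_lit 4563407112)) (.cons (.rel (nat_lit 4563435552)) .nil))) (.cons (.br (nat_lit 5) (.cons (.rel (nat_lit 4563435552)) (.cons (.rel (nat_lit 4563435552)) .nil))) .nil))) .leaf) (nat_lit 2833515999110056) (.br (nat_lit 0) (.cons (.br (nat_lit 2) (.cons (.rel (nat_lit 142622736)) (.cons (.rel (nat_lit 71323650)) .nil))) (.cons (.br (nat_lit 2) (.cons (.rel (nat_lit 142622736)) (.cons (.rel (nat_lit 71311377)) .nil))) .nil))) (.node .leaf (nat_lit 2833515999110406) (.br (nat_lit 1) (.cons (.br (nat_lit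 2) (.cons (.rel (nat_lit 83888640)) (.cons (.rel (nat_lit 83894292)) .nil))) .nil)) .leaf)) (nat_lit 2833515999110506) (.br (nat_lit 5) (.cons (.br (nat_lit 1) (.cons (.rel (nat_lit 4312279044)) (.cons (.rel (nat_lit 8606793732)) .nil))) .nil)) (.node (.node .leaf (nat_lit 2833515999110527) (.br (nat_lit 2) (.cons (.br (nat_lit 3) (.cons (.rel (nat_lit 335544960)) .nil)) .nil)) .leaf) (nat_lit 2833515999408428) (.br (nat_lit 1) (.cons (.br (nat_lit 2) (.cons (.rel (nat_lit 83890434)) .nil)) .nil)) .leaf)) (nat_lit 2833515999416320) (.br (nat_lit 2) (.cons (.br (nat_lit 3) (.cons (.rel (nat_lit 335814660)) .nil)) .nil)) (.node (.node (.node .leaf (nat_lit 2833515999425144) (.br (nat_lit 4) (.cons (.br (nat_lit 1) (.cons (.rel (nat_lit 1090520082)) (.cons (.rel (nat_lit 1090519077)) .nil))) .nil)) .leaf) (nat_lit 2833516000500398) (.br (nat_lit 0) (.cons (.br (nat_lit 1) (.cons (.rel (nat_lit 20987970)) .nil)) .nil)) .leaf) (nat_lit 2833516000696952) (.br (nat_lit 0) (.cons (.br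 (nat_lit 1) (.cons (.rel (nat_lit 21561345)) (.cons (.rel (nat_lit 37748745)) .nil))) (.cons (.br (nat_lit 6) (.cons (.rel (nat_lit 17184227328)) (.cons (.rel (nat_lit 17184064770)) .nil))) .nil))) (.node (.node .leaf (nat_lit 2833516000697006) (.br (nat_lit 2) (.cons (.br (nat_lit 6) (.cons (.rel (nat_lit 34426852368)) .nil)) .nil)) .leaf) (nat_lit 2839215083886742) (.br (nat_lit 1) (.cons (.br (nat_lit 6) (.cons (.rel (nat_lit 17196650529)) .nil)) .nil)) .leaf)))) (nat_lit 2839215084202134) (.br (nat_lit 1) (.cons (.br (nat_lit 4) (.cons (.rel (nat_lit 1090781250)) .nil)) .nil)) (.node (.node (.node (.node (.node .leaf (nat_lit 2839215085014249) (.br (nat_lit 1) (.cons (.br (nat_lit 3) (.cons (.rel (nat_lit 285376512)) .nil)) .nil)) .leaf) (nat_lit 2839215086755049) (.br (nat_lit 2) (.cons (.br (nat_lit 3) (.cons (.rel (nat_lit 335840256)) .nil)) .nil)) (.node .leaf (nat_lit 2845327159173127) (.br (nat_lit 2) (.cons (.br (nat_lit 3) (.cons (.rel (nat_lit 337707012)) .nil))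 .nil)) .leaf)) (nat_lit 2845327159173420) (.br (nat_lit 1) (.cons (.br (nat_lit 2) (.cons (.rel (nat_lit 83919888)) (.cons (.rel (nat_lit 167773440)) .nil))) .nil)) (.node (.node .leaf (nat_lit 2845327159174056) (.br (nat_lit 0) (.cons (.br (nat_lit 6) (.cons (.rel (nat_lit 17184079896)) .nil)) .nil)) .leaf) (nat_lit 2845327159473028) (.br (nat_lit 0) (.cons (.br (nat_lit 1) (.cons (.rel (nat_lit 22052880)) .nil)) .nil)) .leaf)) (nat_lit 2845327159473064) (.br (nat_lit 6) (.cons (.br (nat_lit 1) (.cons (.rel (nat_lit 17196663816)) (.cons (.rel (nat_lit 17196662802)) .nil))) .nil)) (.node (.node (.node .leaf (nat_lit 2845327160445078) (.br (nat_lit 1) (.cons (.br (nat_lit 3) (.cons (.rel (nat_lit 285221376)) .nil)) .nil)) .leaf) (nat_lit 2845327160445864) (.br (nat_lit 1) (.cons (.br (nat_lit 3) (.cons (.rel (nat_lit 286540032)) .nil)) .nil)) .leaf) (nat_lit 2845327160497628) (.br (nat_lit 1) (.cons (.br (nat_lit 3) (.cons (.rel (nat_lit 285212949)) .nil)) .nil)) (.node (.node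 .leaf (nat_lit 3167023720576412) (.br (nat_lit 1) (.cons (.br (nat_lit 2) (.cons (.rel (nat_lit 83894292)) .nil)) .nil)) .leaf) (nat_lit 3167026287028509) (.br (nat_lit 0) (.cons (.br (nat_lit 3) (.cons (.rel (nat_lit 272695329)) (.cons (.rel (nat_lit 272631048)) .nil))) (.cons (.br (nat_lit 3) (.cons (.rel (nat_lit 272633892)) (.cons (.rel (nat_lit 272631048)) .nil))) .nil))) .leaf))) (nat_lit 3167026287183130) (.br (nat_lit 0) (.cons (.br (nat_lit 1) (.cons (.rel (nat_lit 22151172)) .nil)) .nil)) (.node (.node (.node (.node .leaf (nat_lit 3167026287489309) (.br (nat_lit 0) (.cons (.br (nat_lit 2) (.cons (.rel (nat_lit 71311377)) .nil)) .nil)) .leaf) (nat_lit 3167026288777501) (.br (nat_lit 1) (.cons (.br (nat_lit 2) (.cons (.rel (nat_lit 83919888)) (.cons (.rel (nat_lit 152043552)) .nil))) (.cons (.br (nat_lit 2) (.cons (.rel (nat_lit 83888640)) (.cons (.rel (nat_lit 84018180)) .nil))) .nil))) (.node .leaf (nat_lit 3173130998957289) (.br (nat_lit 0) (.cons (.br (nat_lit 1)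 (.cons (.rel (nat_lit 25428048)) .nil)) .nil)) .leaf)) (nat_lit 3173359015150249) (.br (nat_lit 3) (.cons (.br (nat_lit 4) (.cons (.rel (nat_lit 2684452944)) .nil)) .nil)) (.node (.node .leaf (nat_lit 3173359015441641) (.br (nat_lit 0) (.cons (.br (nat_lit 2) (.cons (.rel (nat_lit 71335968)) .nil)) .nil)) .leaf) (nat_lit 3173359016729257) (.br (nat_lit 0) (.cons (.br (nat_lit 1) (.cons (.rel (nat_lit 20971848)) .nil)) .nil)) .leaf)) (nat_lit 3173360084988189) (.br (nat_lit 0) (.cons (.br (nat_lit 1) (.cons (.rel (nat_lit 20971848)) .nil)) .nil)) (.node (.node (.node .leaf (nat_lit 3173466620310761) (.br (nat_lit 3) (.cons (.br (nat_lit 5) (.cons (.rel (nat_lit 4563407112)) (.cons (.rel (nat_lit 9126821904)) .nil))) .nil)) .leaf) (nat_lit 3174346880189727) (.br (nat_lit 0) (.cons (.br (nat_lit 5) (.cons (.rel (nat_lit 4303362048)) .nil)) .nil)) .leaf) (nat_lit 3178500419737885) (.br (nat_lit 3) (.cons (.br (nat_lit 4) (.cons (.rel (nat_lit 1610630400)) .nil)) .nil)) (.node (.node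 .leaf (nat_lit 3179911768192412) (.br (nat_lit 0) (.cons (.br (nat_lit 1) (.cons (.rel (nat_lit 21111873)) .nil)) .nil)) .leaf) (nat_lit 3179911769490790) (.br (nat_lit 1) (.cons (.br (nat_lit 2) (.cons (.rel (nat_lit 102760464)) (.cons (.rel (nat_lit 152043552)) .nil))) .nil)) .leaf)))))

/-- refutations 10 -/
def e10 : EX := (.node (.node (.node (.node (.node (.node (.node .leaf (nat_lit 3184251078967583) (.br (nat_lit 0) (.cons (.br (nat_lit 2) (.cons (.rel (nat_lit 71335968)) .nil)) .nil)) .leaf) (nat_lit 3184453012137496) (.br (nat_lit 2) (.cons (.br (nat_lit 4) (.cons (.rel (nat_lit 1140851088)) .nil)) .nil)) .leaf) (nat_lit 3184453013274136) (.br (nat_lit 2) (.cons (.br (nat_lit 4) (.cons (.rel (nat_lit 1140851088)) .nil)) .nil)) (.node (.node .leaf (nat_lit 3184457416010009) (.br (nat_lit 1) (.cons (.br (nat_lit 4) (.cons (.rel (nat_lit 1090519077)) .nil)) .nil)) .leaf) (nat_lit 3184457417292683) (.br (nat_lit 1) (.cons (.br (nat_lit 5) (.cons (.rel (nat_lit 4328526864))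 .nil)) .nil)) .leaf)) (nat_lit 3184500366127391) (.br (nat_lit 2) (.cons (.br (nat_lit 6) (.cons (.rel (nat_lit 17247371265)) (.cons (.rel (nat_lit 17314157568)) .nil))) .nil)) (.node (.node (.node .leaf (nat_lit 3184616454494959) (.br (nat_lit 4) (.cons (.br (nat_lit 1) (.cons (.rel (nat_lit 1090539777)) (.cons (.rel (nat_lit 1090585092)) (.cons (.rel (nat_lit 1090520082)) (.cons (.rel (nat_lit 1090527504)) .nil))))) .nil)) .leaf) (nat_lit 3184616454495120) (.br (nat_lit 4) (.cons (.br (nat_lit 6) (.cons (.rel (nat_lit 18253873176)) .nil)) .nil)) .leaf) (nat_lit 3184616454537503) (.br (nat_lit 3) (.cons (.br (nat_lit 5) (.cons (.rel (nat_lit 4563473412)) .nil)) .nil)) (.node (.node .leaf (nat_lit 3184616454538521) (.br (nat_lit 4) (.cons (.br (nat_lit 0) (.cons (.rel (nat_lit 2155872273)) (.cons (.rel (nat_lit 1077937176)) .nil))) .nil)) .leaf) (nat_lit 3184616454799647) (.br (nat_lit 4) (.cons (.br (nat_lit 5) (.cons (.rel (nat_lit 5368742400)) (.cons (.br (nat_lit 6) (.cons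 (.rel (nat_lit 35433513984)) (.cons (.rel (nat_lit 18253611138)) (.cons (.rel (nat_lit 19327354128)) (.cons (.rel (nat_lit 18253873176)) (.cons (.br (nat_lit 2) (.cons (.rel (nat_lit 2214625281)) (.cons (.rel (nat_lit 1140868224)) (.cons (.rel (nat_lit 17314218000)) (.cons (.rel (nat_lit 2214625281)) (.cons (.rel (nat_lit 1141115136)) (.cons (.rel (nat_lit 5436883200)) (.cons (.rel (nat_lit 1207975938)) .nil)))))))) .nil)))))) (.cons (.rel (nat_lit 5368709382)) .nil)))) (.cons (.br (nat_lit 5) (.cons (.rel (nat_lit 5368713240)) (.cons (.rel (nat_lit 5368742400)) (.cons (.rel (nat_lit 5368713240)) .nil)))) (.cons (.br (nat_lit 5) (.cons (.rel (nat_lit 5368709382)) (.cons (.rel (nat_lit 5368971600)) (.cons (.rel (nat_lit 5368709382)) .nil)))) .nil)))) .leaf))) (nat_lit 3184616455620895) (.br (nat_lit 4) (.cons (.br (nat_lit 3) (.cons (.rel (nat_lit 2415919392)) (.cons (.rel (nat_lit 1342177416)) (.cons (.rel (nat_lit 1610613264)) (.cons (.rel (nat_lit 1610613264)) .nil))))) .nil))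 (.node (.node (.node (.node .leaf (nat_lit 3184616455629087) (.br (nat_lit 5) (.cons (.br (nat_lit 2) (.cons (.rel (nat_lit 8657306640)) (.cons (.br (nat_lit 4) (.cons (.rel (nat_lit 10737434880)) (.cons (.rel (nat_lit 5368742400)) (.cons (.rel (nat_lit 1140868224)) (.cons (.rel (nat_lit 1140868224)) (.cons (.rel (nat_lit 1141129248)) (.cons (.rel (nat_lit 5368742400)) .nil))))))) (.cons (.br (nat_lit 6) (.cons (.rel (nat_lit 17247010944)) (.cons (.rel (nat_lit 17247240720)) (.cons (.rel (nat_lit 34426847505)) (.cons (.rel (nat_lit 17315398656)) (.cons (.rel (nat_lit 25770074112)) .nil)))))) (.cons (.rel (nat_lit 4362076170)) (.cons (.br (nat_lit 4) (.cons (.rel (nat_lit 10737434880)) (.cons (.rel (nat_lit 5368742400)) (.cons (.rel (nat_lit 9730850832)) (.cons (.rel (nat_lit 1142947845)) (.cons (.rel (nat_lit 1141115136)) (.cons (.rel (nat_lit 5368742400)) .nil))))))) .nil)))))) (.cons (.br (nat_lit 2) (.cons (.rel (nat_lit 8657567808)) (.cons (.rel (nat_lit 8657567808)) (.cons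 (.rel (nat_lit 4362149892)) (.cons (.rel (nat_lit 4362076170)) (.cons (.rel (nat_lit 4362076170)) .nil)))))) .nil))) .leaf) (nat_lit 3184616455629431) (.br (nat_lit 1) (.cons (.br (nat_lit 5) (.cons (.rel (nat_lit 4311745104)) .nil)) .nil)) .leaf) (nat_lit 3184616455629577) (.br (nat_lit 2) (.cons (.br (nat_lit 5) (.cons (.rel (nat_lit 4362149892)) .nil)) .nil)) (.node (.node .leaf (nat_lit 3184616455630225) (.br (nat_lit 2) (.cons (.br (nat_lit 3) (.cons (.rel (nat_lit 671088960)) .nil)) .nil)) .leaf) (nat_lit 3184616455766297) (.br (nat_lit 0) (.cons (.br (nat_lit 1) (.cons (.rel (nat_lit 37765632)) (.cons (.rel (nat_lit 20987970)) .nil))) (.cons (.br (nat_lit 1) (.cons (.rel (nat_lit 20971848)) (.cons (.rel (nat_lit 22028289)) .nil))) .nil))) .leaf)) (nat_lit 3184616455766303) (.br (nat_lit 4) (.cons (.br (nat_lit 1) (.cons (.rel (nat_lit 1090527504)) (.cons (.rel (nat_lit 1090539777)) (.cons (.rel (nat_lit 1090539777)) (.cons (.rel (nat_lit 2181039108)) (.cons (.rel (nat_lit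 1090527504)) .nil)))))) (.cons (.br (nat_lit 5) (.cons (.rel (nat_lit 5368709382)) (.cons (.rel (nat_lit 5368727568)) (.cons (.rel (nat_lit 5368742400)) .nil)))) .nil))) (.node (.node (.node .leaf (nat_lit 3184616455766648) (.br (nat_lit 2) (.cons (.br (nat_lit 4) (.cons (.rel (nat_lit 2214625281)) .nil)) .nil)) .leaf) (nat_lit 3184616455767441) (.br (nat_lit 2) (.cons (.br (nat_lit 4) (.cons (.rel (nat_lit 2214625281)) (.cons (.rel (nat_lit 1140851088)) .nil))) .nil)) .leaf) (nat_lit 3184616455774495) (.br (nat_lit 6) (.cons (.br (nat_lit 4) (.cons (.rel (nat_lit 18253873176)) (.cons (.rel (nat_lit 36507222081)) (.cons (.rel (nat_lit 18253943040)) (.cons (.rel (nat_lit 18253611138)) (.cons (.rel (nat_lit 36507222081)) (.cons (.rel (nat_lit 19327354128)) .nil))))))) (.cons (.br (nat_lit 5) (.cons (.br (nat_lit 2) (.cons (.rel (nat_lit 4362076170)) (.cons (.rel (nat_lit 17314157568)) (.cons (.rel (nat_lit 17247257856)) (.cons (.rel (nat_lit 17248550916)) (.cons (.rel (nat_lit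 17247309828)) (.cons (.rel (nat_lit 17315398656)) .nil))))))) (.cons (.rel (nat_lit 21474844692)) (.cons (.rel (nat_lit 21474968580)) (.cons (.rel (nat_lit 21474839040)) (.cons (.rel (nat_lit 21474853152)) .nil)))))) (.cons (.br (nat_lit 2) (.cons (.rel (nat_lit 17247010944)) (.cons (.rel (nat_lit 34427113536)) (.cons (.rel (nat_lit 17248026705)) (.cons (.rel (nat_lit 34493972544)) (.cons (.rel (nat_lit 17247240720)) (.cons (.rel (nat_lit 34426912800)) .nil))))))) (.cons (.br (nat_lit 5) (.cons (.br (nat_lit 1) (.cons (.rel (nat_lit 17196687360)) (.cons (.rel (nat_lit 21493710864)) (.cons (.rel (nat_lit 17213686800)) (.cons (.rel (nat_lit 17196687360)) (.cons (.rel (nat_lit 17196646680)) (.cons (.rel (nat_lit 21491617920)) (.cons (.rel (nat_lit 17196687360)) .nil)))))))) (.cons (.rel (nat_lit 21474839040)) (.cons (.rel (nat_lit 21475131456)) (.cons (.rel (nat_lit 21474853152)) (.cons (.rel (nat_lit 42949674240)) .nil)))))) .nil))))) (.node .leaf (nat_lit 3184616455774839) (.br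 (nat_lit 2) (.cons (.br (nat_lit 5) (.cons (.rel (nat_lit 4362339393)) (.cons (.rel (nat_lit 8657567808)) .nil))) (.cons (.br (nat_lit 5) (.cons (.rel (nat_lit 4429447296)) (.cons (.rel (nat_lit 4429447296)) .nil))) .nil))) .leaf)))) (nat_lit 3184616456073347) (.br (nat_lit 4) (.cons (.br (nat_lit 0) (.cons (.rel (nat_lit 1077960720)) (.cons (.rel (nat_lit 1077960720)) .nil))) .nil)) (.node (.node (.node (.node (.node .leaf (nat_lit 3184616456073497) (.br (nat_lit 4) (.cons (.br (nat_lit 3) (.cons (.rel (nat_lit 1342177416)) (.cons (.rel (nat_lit 1342439445)) (.cons (.rel (nat_lit 1342439445)) .nil)))) .nil)) .leaf) (nat_lit 3184616456073503) (.br (nat_lit 4) (.cons (.br (nat_lit 0) (.cons (.rel (nat_lit 1078007040)) (.cons (.rel (nat_lit 1077960720)) (.cons (.rel (nat_lit 2152218624)) (.cons (.rel (nat_lit 1082425344)) (.cons (.rel (nat_lit 2155872273)) (.cons (.rel (nat_lit 2155872273)) (.cons (.rel (nat_lit 1082425344)) (.cons (.rel (nat_lit 1077937176)) .nil))))))))) (.cons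 (.br (nat_lit 5) (.cons (.rel (nat_lit 5368709382)) (.cons (.br (nat_lit 0) (.cons (.rel (nat_lit 4299686400)) (.cons (.rel (nat_lit 8594198544)) (.cons (.br (nat_lit 6) (.cons (.rel (nat_lit 34368131328)) (.cons (.rel (nat_lit 18253611138)) (.cons (.rel (nat_lit 34368131328)) (.cons (.rel (nat_lit 38654772288)) (.cons (.rel (nat_lit 36507222081)) .nil)))))) (.cons (.rel (nat_lit 1077936162)) (.cons (.rel (nat_lit 1079248128)) (.cons (.rel (nat_lit 8598585600)) (.cons (.rel (nat_lit 1079001216)) (.cons (.rel (nat_lit 1077938181)) .nil))))))))) (.cons (.rel (nat_lit 6443499525)) .nil)))) .nil))) .leaf) (nat_lit 3184616456091100) (.br (nat_lit 1) (.cons (.br (nat_lit 3) (.cons (.rel (nat_lit 285278244)) .nil)) .nil)) (.node (.node .leaf (nat_lit 3184616457165432) (.br (nat_lit 0) (.cons (.br (nat_lit 4) (.cons (.rel (nat_lit 1077936162)) .nil)) .nil)) .leaf) (nat_lit 3184616457371935) (.br (nat_lit 4) (.cons (.br (nat_lit 6) (.cons (.br (nat_lit 2) (.cons (.rel (nat_lit 18387829824))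 (.cons (.rel (nat_lit 1140868224)) (.cons (.rel (nat_lit 1142947845)) (.cons (.rel (nat_lit 1142947845)) (.cons (.rel (nat_lit 2214625281)) .nil)))))) (.cons (.rel (nat_lit 19327615296)) (.cons (.rel (nat_lit 35433513984)) (.cons (.rel (nat_lit 36507222081)) .nil))))) (.cons (.br (nat_lit 2) (.cons (.rel (nat_lit 2214625281)) (.cons (.rel (nat_lit 1141129248)) (.cons (.rel (nat_lit 2214593028)) (.cons (.rel (nat_lit 2214593028)) (.cons (.rel (nat_lit 2214593028)) .nil)))))) .nil))) .leaf)) (nat_lit 3184616457372285) (.br (nat_lit 3) (.cons (.br (nat_lit 4) (.cons (.rel (nat_lit 1342439445)) .nil)) .nil)) (.node (.node (.node .leaf (nat_lit 3184616457372409) (.br (nat_lit 0) (.cons (.br (nat_lit 6) (.cons (.rel (nat_lit 17184072192)) .nil)) .nil)) .leaf) (nat_lit 3184616457373175) (.br (nat_lit 6) (.cons (.br (nat_lit 5) (.cons (.rel (nat_lit 21474839040)) (.cons (.rel (nat_lit 21474870288)) .nil))) .nil)) .leaf) (nat_lit 3184618421624316) (.br (nat_lit 3) (.cons (.br (nat_lit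 0) (.cons (.rel (nat_lit 272732160)) (.cons (.rel (nat_lit 272654592)) .nil))) .nil)) (.node (.node .leaf (nat_lit 3184618424040956) (.br (nat_lit 5) (.cons (.br (nat_lit 4) (.cons (.rel (nat_lit 5368727568)) (.cons (.rel (nat_lit 5368727568)) .nil))) .nil)) .leaf) (nat_lit 3184621472162079) (.br (nat_lit 1) (.cons (.br (nat_lit 2) (.cons (.rel (nat_lit 83895297)) .nil)) .nil)) .leaf))) (nat_lit 3184713586184479) (.br (nat_lit 2) (.cons (.br (nat_lit 3) (.cons (.rel (nat_lit 671088960)) .nil)) .nil)) (.node (.node (.node (.node .leaf (nat_lit 3185320184496408) (.br (nat_lit 0) (.cons (.br (nat_lit 1) (.cons (.rel (nat_lit 21561345)) .nil)) .nil)) .leaf) (nat_lit 3185320184788376) (.br (nat_lit 4) (.cons (.br (nat_lit 6) (.cons (.rel (nat_lit 18253611138)) .nil)) .nil)) .leaf) (nat_lit 3185320184795187) (.br (nat_lit 4) (.cons (.br (nat_lit 3) (.cons (.rel (nat_lit 2415984642)) (.cons (.rel (nat_lit 1610630400)) (.cons (.rel (nat_lit 2415923205)) (.cons (.rel (nat_lit 2684354628))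 (.cons (.rel (nat_lit 1342447872)) .nil)))))) .nil)) (.node (.node .leaf (nat_lit 3185322798677500) (.br (nat_lit 2) (.cons (.br (nat_lit 4) (.cons (.rel (nat_lit 1141115136)) .nil)) .nil)) .leaf) (nat_lit 3189832936679431) (.br (nat_lit 0) (.cons (.br (nat_lit 1) (.cons (.rel (nat_lit 37883904)) .nil)) .nil)) .leaf)) (nat_lit 3189835562314358) (.br (nat_lit 0) (.cons (.br (nat_lit 4) (.cons (.rel (nat_lit 2151679296)) .nil)) .nil)) (.node (.node (.node .leaf (nat_lit 3190671714876824) (.br (nat_lit 0) (.cons (.br (nat_lit 1) (.cons (.br (nat_lit 4) (.cons (.rel (nat_lit 1090521096)) .nil)) .nil)) .nil)) .leaf) (nat_lit 3190676527517876) (.br (nat_lit 1) (.cons (.br (nat_lit 0) (.cons (.rel (nat_lit 22028289)) (.cons (.br (nat_lit 4) (.cons (.rel (nat_lit 1077960720)) (.cons (.rel (nat_lit 2165329920)) .nil))) .nil))) .nil)) .leaf) (nat_lit 3190676527518982) (.br (nat_lit 3) (.cons (.br (nat_lit 4) (.cons (.rel (nat_lit 1342440450)) .nil)) .nil)) (.node .leaf (nat_lit 3190676528654343)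 (.br (nat_lit 0) (.cons (.br (nat_lit 5) (.cons (.rel (nat_lit 4300210212)) (.cons (.rel (nat_lit 8598585600)) .nil))) .nil)) .leaf))))) (nat_lit 3190676528654516) (.br (nat_lit 0) (.cons (.br (nat_lit 4) (.cons (.br (nat_lit 6) (.cons (.rel (nat_lit 19327356936)) (.cons (.rel (nat_lit 34363932768)) .nil))) .nil)) .nil)) (.node (.node (.node (.node (.node (.node .leaf (nat_lit 3190676528654617) (.br (nat_lit 0) (.cons (.br (nat_lit 2) (.cons (.rel (nat_lit 72614916)) (.cons (.br (nat_lit 4) (.cons (.rel (nat_lit 1077972993)) (.cons (.rel (nat_lit 1208026116)) .nil))) .nil))) (.cons (.br (nat_lit 2) (.cons (.rel (nat_lit 71435265)) (.cons (.rel (nat_lit 72614916)) .nil))) .nil))) .leaf) (nat_lit 3190676528655142) (.br (nat_lit 0) (.cons (.br (nat_lit 1) (.cons (.rel (nat_lit 20971848)) (.cons (.rel (nat_lit 20971848)) .nil))) (.cons (.br (nat_lit 4) (.cons (.rel (nat_lit 1077972993)) (.cons (.br (nat_lit 6) (.cons (.rel (nat_lit 17184068628)) (.cons (.rel (nat_lit 17184068628))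 (.cons (.rel (nat_lit 17184068628)) (.cons (.rel (nat_lit 19327356936)) .nil))))) .nil))) .nil))) .leaf) (nat_lit 3190676528655768) (.br (nat_lit 0) (.cons (.br (nat_lit 1) (.cons (.br (nat_lit 2) (.cons (.rel (nat_lit 84018180)) (.cons (.br (nat_lit 5) (.cons (.rel (nat_lit 4362076170)) (.cons (.rel (nat_lit 8594138112)) .nil))) .nil))) .nil)) .nil)) (.node (.node .leaf (nat_lit 3190676529098932) (.br (nat_lit 0) (.cons (.br (nat_lit 6) (.cons (.br (nat_lit 1) (.cons (.rel (nat_lit 17196663816)) (.cons (.rel (nat_lit 17196687360)) (.cons (.rel (nat_lit 22028289)) (.cons (.rel (nat_lit 20975697)) .nil))))) (.cons (.rel (nat_lit 34363932768)) .nil))) .nil)) .leaf) (nat_lit 3190676529100038) (.br (nat_lit 0) (.cons (.br (nat_lit 4) (.cons (.rel (nat_lit 2155872273)) .nil)) .nil)) .leaf)) (nat_lit 3190676529100252) (.br (nat_lit 0) (.cons (.br (nat_lit 3) (.cons (.rel (nat_lit 541066320)) .nil)) .nil)) (.node (.node (.node .leaf (nat_lit 3190676529936564) (.br (nat_lit 0) (.cons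 (.br (nat_lit 6) (.cons (.br (nat_lit 4) (.cons (.rel (nat_lit 2155872273)) (.cons (.rel (nat_lit 18255728640)) (.cons (.rel (nat_lit 35433488388)) .nil)))) (.cons (.rel (nat_lit 34363932768)) .nil))) (.cons (.br (nat_lit 6) (.cons (.rel (nat_lit 17188521984)) (.cons (.rel (nat_lit 17184064770)) .nil))) .nil))) .leaf) (nat_lit 3190676529937190) (.br (nat_lit 0) (.cons (.br (nat_lit 1) (.cons (.br (nat_lit 4) (.cons (.br (nat_lit 6) (.cons (.rel (nat_lit 19327356936)) .nil)) .nil)) .nil)) .nil)) .leaf) (nat_lit 3190676529937670) (.br (nat_lit 0) (.cons (.br (nat_lit 4) (.cons (.rel (nat_lit 2155872273)) .nil)) .nil)) (.node (.node .leaf (nat_lit 3190676529937816) (.br (nat_lit 0) (.cons (.br (nat_lit 1) (.cons (.br (nat_lit 5) (.cons (.br (nat_lit 4) (.cons (.br (nat_lit 6) (.cons (.rel (nat_lit 19327356936)) (.cons (.rel (nat_lit 19327356936)) (.cons (.rel (nat_lit 17184068628)) .nil)))) (.cons (.rel (nat_lit 1090521096)) .nil))) .nil)) .nil)) .nil)) .leaf) (nat_lit 3190676529937914)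 (.br (nat_lit 0) (.cons (.br (nat_lit 6) (.cons (.rel (nat_lit 17184068628)) .nil)) .nil)) .leaf))) (nat_lit 3191939068684963) (.br (nat_lit 2) (.cons (.br (nat_lit 3) (.cons (.rel (nat_lit 603997188)) .nil)) .nil)) (.node (.node (.node (.node .leaf (nat_lit 3192183953260580) (.br (nat_lit 0) (.cons (.br (nat_lit 3) (.cons (.rel (nat_lit 272732160)) .nil)) .nil)) .leaf) (nat_lit 3192183954406936) (.br (nat_lit 2) (.cons (.br (nat_lit 3) (.cons (.rel (nat_lit 337707012)) .nil)) .nil)) .leaf) (nat_lit 3192184108450079) (.br (nat_lit 1) (.cons (.br (nat_lit 2) (.cons (.rel (nat_lit 83902752)) (.cons (.rel (nat_lit 167773440)) .nil))) (.cons (.br (nat_lit 2) (.cons (.rel (nat_lit 83894292)) (.cons (.rel (nat_lit 84018180)) .nil))) .nil))) (.node (.node .leaf (nat_lit 3192186578757913) (.br (nat_lit 0) (.cons (.br (nat_lit 5) (.cons (.rel (nat_lit 8594138112)) .nil)) .nil)) .leaf) (nat_lit 3192186578758262) (.br (nat_lit 0) (.cons (.br (nat_lit 5) (.cons (.rel (nat_lit 4303362048))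 (.cons (.rel (nat_lit 4303373316)) (.cons (.rel (nat_lit 4300211217)) .nil)))) .nil)) .leaf)) (nat_lit 3192188356051720) (.br (nat_lit 2) (.cons (.br (nat_lit 3) (.cons (.rel (nat_lit 671088960)) .nil)) .nil)) (.node (.node (.node .leaf (nat_lit 3192188357142708) (.br (nat_lit 0) (.cons (.br (nat_lit 4) (.cons (.rel (nat_lit 1077937176)) .nil)) .nil)) .leaf) (nat_lit 3192188357142808) (.br (nat_lit 2) (.cons (.br (nat_lit 5) (.cons (.rel (nat_lit 4362211329)) .nil)) .nil)) .leaf) (nat_lit 3192188357142809) (.br (nat_lit 0) (.cons (.br (nat_lit 6) (.cons (.rel (nat_lit 34363932768)) (.cons (.br (nat_lit 5) (.cons (.rel (nat_lit 42949674240)) (.cons (.rel (nat_lit 4299195456)) (.cons (.rel (nat_lit 21474844692)) .nil)))) (.cons (.rel (nat_lit 17184069633)) .nil)))) (.cons (.br (nat_lit 2) (.cons (.rel (nat_lit 71435265)) (.cons (.rel (nat_lit 71435265)) .nil))) .nil))) (.node .leaf (nat_lit 3192188357143779) (.br (nat_lit 0) (.cons (.br (nat_lit 2) (.cons (.rel (nat_lit 71435265))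 .nil)) .nil)) .leaf)))) (nat_lit 3192188357143814) (.br (nat_lit 0) (.cons (.br (nat_lit 3) (.cons (.rel (nat_lit 272654592)) .nil)) .nil)) (.node (.node (.node (.node (.node .leaf (nat_lit 3192188357143960) (.br (nat_lit 5) (.cons (.br (nat_lit 6) (.cons (.rel (nat_lit 21474902280)) .nil)) .nil)) .leaf) (nat_lit 3192188357144028) (.br (nat_lit 4) (.cons (.br (nat_lit 0) (.cons (.rel (nat_lit 1077940740)) (.cons (.rel (nat_lit 1077940740)) (.cons (.rel (nat_lit 1077937176)) .nil)))) .nil)) .leaf) (nat_lit 3192188357146750) (.br (nat_lit 0) (.cons (.br (nat_lit 1) (.cons (.rel (nat_lit 20976714)) .nil)) .nil)) (.node (.node .leaf (nat_lit 3192188357146911) (.br (nat_lit 0) (.cons (.br (nat_lit 2) (.cons (.rel (nat_lit 71304720)) .nil)) .nil)) .leaf) (nat_lit 3192188357147431) (.br (nat_lit 0) (.cons (.br (nat_lit 2) (.cons (.rel (nat_lit 71307528)) .nil)) .nil)) .leaf)) (nat_lit 3192188357280376) (.br (nat_lit 4) (.cons (.br (nat_lit 5) (.cons (.rel (nat_lit 5368710432)) .nil))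 .nil)) (.node (.node (.node .leaf (nat_lit 3192188357586995) (.br (nat_lit 2) (.cons (.br (nat_lit 5) (.cons (.rel (nat_lit 4429447296)) (.cons (.br (nat_lit 3) (.cons (.rel (nat_lit 4563473412)) (.cons (.rel (nat_lit 4564714500)) .nil))) .nil))) (.cons (.br (nat_lit 3) (.cons (.rel (nat_lit 335544960)) (.cons (.rel (nat_lit 671088960)) .nil))) .nil))) .leaf) (nat_lit 3192188357587124) (.br (nat_lit 0) (.cons (.br (nat_lit 1) (.cons (.rel (nat_lit 22028289)) .nil)) .nil)) .leaf) (nat_lit 3192188357587231) (.br (nat_lit 2) (.cons (.br (nat_lit 5) (.cons (.rel (nat_lit 4362076170)) .nil)) .nil)) (.node (.node .leaf (nat_lit 3192188357588230) (.br (nat_lit 5) (.cons (.br (nat_lit 1) (.cons (.rel (nat_lit 4311745104)) (.cons (.rel (nat_lit 4311745104)) (.cons (.rel (nat_lit 4311745104)) (.cons (.rel (nat_lit 4311745104)) .nil))))) .nil)) .leaf) (nat_lit 3192188358424583) (.br (nat_lit 0) (.cons (.br (nat_lit 1) (.cons (.rel (nat_lit 21499908)) .nil)) .nil)) .leaf))) (nat_lit 3192188358425862)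 (.br (nat_lit 0) (.cons (.br (nat_lit 3) (.cons (.rel (nat_lit 272634897)) .nil)) .nil)) (.node (.node (.node (.node .leaf (nat_lit 3192188358426008) (.br (nat_lit 4) (.cons (.br (nat_lit 1) (.cons (.rel (nat_lit 1090521096)) (.cons (.rel (nat_lit 1090555908)) .nil))) .nil)) .leaf) (nat_lit 3192189203300639) (.br (nat_lit 1) (.cons (.br (nat_lit 2) (.cons (.rel (nat_lit 151003200)) .nil)) .nil)) .leaf) (nat_lit 3197373891789087) (.br (nat_lit 4) (.cons (.br (nat_lit 5) (.cons (.rel (nat_lit 10737434880)) .nil)) .nil)) (.node (.node .leaf (nat_lit 3197373892618527) (.br (nat_lit 2) (.cons (.br (nat_lit 4) (.cons (.rel (nat_lit 1141115136)) (.cons (.rel (nat_lit 2214613008)) .nil))) (.cons (.br (nat_lit 4) (.cons (.rel (nat_lit 1140868224)) (.cons (.rel (nat_lit 1140868224)) .nil))) .nil))) .leaf) (nat_lit 3197373892619551) (.br (nat_lit 5) (.cons (.br (nat_lit 0) (.cons (.rel (nat_lit 4299169860)) (.cons (.rel (nat_lit 4303357185)) .nil))) .nil)) .leaf)) (nat_lit 3197373893062711)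 (.br (nat_lit 0) (.cons (.br (nat_lit 2) (.cons (.rel (nat_lit 138543168)) .nil)) .nil)) (.node (.node (.node .leaf (nat_lit 3197373893063416) (.br (nat_lit 2) (.cons (.br (nat_lit 5) (.cons (.rel (nat_lit 4362080784)) .nil)) .nil)) .leaf) (nat_lit 3197373894362399) (.br (nat_lit 2) (.cons (.br (nat_lit 5) (.cons (.rel (nat_lit 8724152325)) .nil)) .nil)) .leaf) (nat_lit 3197376678080692) (.br (nat_lit 0) (.cons (.br (nat_lit 3) (.cons (.rel (nat_lit 272761344)) (.cons (.rel (nat_lit 272761344)) .nil))) .nil)) (.node .leaf (nat_lit 3197377747321119) (.br (nat_lit 2) (.cons (.br (nat_lit 5) (.cons (.rel (nat_lit 4362109188)) .nil)) .nil)) .leaf))))))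

/-- refutations 11 -/
def e11 : EX := (.node (.node .leaf (nat_lit 4873470486764777) (.br (nat_lit 0) (.cons (.br (nat_lit 6) (.cons (.rel (nat_lit 17184329796)) (.cons (.rel (nat_lit 17184329796)) .nil))) .nil)) .leaf) (nat_lit 4884903687189765) (.br (nat_lit 0) (.cons (.br (nat_lit 1) (.cons (.rel (nat_lit 22151172)) .nil)) .nil)) .leaf)

/-- refutations 12 -/
def e12 : EX := (.node (.node (.node (.node (.node .leaf (nat_lit 5366047500109312) (.br (nat_lit 0) (.cons (.br (nat_lit 4) (.cons (.rel (nat_lit 1077960720)) .nil)) .nil)) .leaf) (nat_lit 5366052793320330) (.br (nat_lit 0) (.cons (.br (nat_lit 1) (.cons (.rel (nat_lit 22021632)) .nil)) .nil)) .leaf) (nat_lit 5368045531394823) (.br (nat_lit 4) (.cons (.br (nat_lit 5) (.cons (.rel (nat_lit 5368709382)) .nil)) .nil)) (.node .leaf (nat_lit 5368045531395479) (.br (nat_lit 0) (.cons (.br (nat_lit 1) (.cons (.rel (nat_lit 25165830)) .nil)) .nil)) .leaf)) (nat_lit 5368045533715207) (.br (nat_lit 1) (.cons (.br (nat_lit 5)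 (.cons (.rel (nat_lit 4312301568)) .nil)) .nil)) (.node (.node .leaf (nat_lit 5371037020586121) (.br (nat_lit 0) (.cons (.br (nat_lit 1) (.cons (.rel (nat_lit 25239552)) .nil)) .nil)) .leaf) (nat_lit 5371266145286771) (.br (nat_lit 0) (.cons (.br (nat_lit 1) (.cons (.rel (nat_lit 21499908)) .nil)) .nil)) (.node .leaf (nat_lit 5371463775877171) (.br (nat_lit 0) (.cons (.br (nat_lit 1) (.cons (.rel (nat_lit 25198848)) .nil)) .nil)) .leaf))) (nat_lit 5371463777137951) (.br (nat_lit 0) (.cons (.br (nat_lit 4) (.cons (.rel (nat_lit 1082425344)) .nil)) .nil)) (.node (.node (.node .leaf (nat_lit 5371463778435252) (.br (nat_lit 1) (.cons (.br (nat_lit 4) (.cons (.rel (nat_lit 1090527504)) .nil)) .nil)) .leaf) (nat_lit 5371463778436383) (.br (nat_lit 0) (.cons (.br (nat_lit 2) (.cons (.rel (nat_lit 71304720)) .nil)) .nil)) (.node .leaf (nat_lit 5372074210366126) (.br (nat_lit 0) (.cons (.br (nat_lit 3) (.cons (.rel (nat_lit 545325312)) .nil)) .nil)) .leaf)) (nat_lit 5372360515137662)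 (.br (nat_lit 2) (.cons (.br (nat_lit 5) (.cons (.rel (nat_lit 4362076170)) .nil)) .nil)) (.node (.node .leaf (nat_lit 5372549494536844) (.br (nat_lit 0) (.cons (.br (nat_lit 1) (.cons (.rel (nat_lit 25165830)) .nil)) .nil)) .leaf) (nat_lit 5373567887176585) (.br (nat_lit 1) (.cons (.br (nat_lit 2) (.cons (.rel (nat_lit 83906565)) .nil)) .nil)) (.node .leaf (nat_lit 5376449388010783) (.br (nat_lit 1) (.cons (.br (nat_lit 2) (.cons (.rel (nat_lit 83968002)) .nil)) .nil)) .leaf))))

/-- refutations 13 -/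
def e13 : EX := (.node (.node (.node (.node (.node (.node .leaf (nat_lit 5473320491037608) (.br (nat_lit 1) (.cons (.br (nat_lit 2) (.cons (.rel (nat_lit 83890434)) .nil)) .nil)) .leaf) (nat_lit 5473592358202280) (.br (nat_lit 1) (.cons (.br (nat_lit 3) (.cons (.rel (nat_lit 285218817)) (.cons (.rel (nat_lit 302252064)) .nil))) (.cons (.br (nat_lit 3) (.cons (.rel (nat_lit 285230085)) (.cons (.rel (nat_lit 570429696)) .nil))) .nil))) .leaf) (nat_lit 5473633024953106) (.br (nat_lit 0) (.cons (.br (nat_lit 1) (.cons (.rel (nat_lit 20971848)) .nil)) .nil)) (.node .leaf (nat_lit 5473633025413906) (.br (nat_lit 0) (.cons (.br (nat_lit 2) (.cons (.rel (nat_lit 71323650)) .nil)) .nil)) .leaf)) (nat_lit 5476818899705208) (.br (nat_lit 2) (.cons (.br (nat_lit 5) (.cons (.rel (nat_lit 4429447296)) .nil)) .nil)) (.node (.node .leaf (nat_lit 5476818902374586) (.br (nat_lit 1) (.cons (.br (nat_lit 2) (.cons (.rel (nat_lit 83888640)) .nil)) .nil)) .leaf) (nat_lit 5476819873917239) (.br (nat_lit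 0) (.cons (.br (nat_lit 1) (.cons (.rel (nat_lit 20987970)) .nil)) .nil)) (.node .leaf (nat_lit 5476819874362280) (.br (nat_lit 3) (.cons (.br (nat_lit 5) (.cons (.rel (nat_lit 4563410961)) .nil)) .nil)) .leaf))) (nat_lit 5477062691009448) (.br (nat_lit 1) (.cons (.br (nat_lit 2) (.cons (.rel (nat_lit 83890434)) .nil)) .nil)) (.node (.node (.node .leaf (nat_lit 5477062691777448) (.br (nat_lit 1) (.cons (.br (nat_lit 3) (.cons (.rel (nat_lit 285213954)) .nil)) .nil)) .leaf) (nat_lit 5477067830004387) (.br (nat_lit 0) (.cons (.br (nat_lit 1) (.cons (.rel (nat_lit 21038148)) .nil)) .nil)) (.node .leaf (nat_lit 5478785995852408) (.br (nat_lit 0) (.cons (.br (nat_lit 1) (.cons (.rel (nat_lit 20971848)) .nil)) .nil)) .leaf)) (nat_lit 5478785995860600) (.br (nat_lit 3) (.cons (.br (nat_lit 5) (.cons (.rel (nat_lit 4563410961)) .nil)) .nil)) (.node (.node .leaf (nat_lit 5478785995860904) (.br (nat_lit 5) (.cons (.br (nat_lit 1) (.cons (.rel (nat_lit 4311745104)) (.cons (.rel (nat_lit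 4312795137)) .nil))) .nil)) .leaf) (nat_lit 5478785996305909) (.br (nat_lit 1) (.cons (.br (nat_lit 3) (.cons (.rel (nat_lit 285218817)) .nil)) .nil)) (.node .leaf (nat_lit 5478785997592887) (.br (nat_lit 0) (.cons (.br (nat_lit 1) (.cons (.rel (nat_lit 20971848)) .nil)) .nil)) .leaf)))) (nat_lit 5478785997601400) (.br (nat_lit 3) (.cons (.br (nat_lit 1) (.cons (.rel (nat_lit 285218817)) (.cons (.rel (nat_lit 286540032)) (.cons (.rel (nat_lit 285213954)) .nil)))) .nil)) (.node (.node (.node (.node (.node .leaf (nat_lit 5478786356571048) (.br (nat_lit 2) (.cons (.br (nat_lit 3) (.cons (.rel (nat_lit 335840256)) (.cons (.rel (nat_lit 402735105)) .nil))) (.cons (.br (nat_lit 3) (.cons (.rel (nat_lit 335814660)) (.cons (.rel (nat_lit 335814660)) .nil))) .nil))) .leaf) (nat_lit 5478786356716456) (.br (nat_lit 1) (.cons (.br (nat_lit 2) (.cons (.rel (nat_lit 83968002)) .nil)) .nil)) .leaf) (nat_lit 5478786357015464) (.br (nat_lit 1) (.cons (.br (nat_lit 5) (.cons (.rel (nat_lit 4328538132))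 (.cons (.rel (nat_lit 4328539137)) .nil))) .nil)) (.node .leaf (nat_lit 5478786358310923) (.br (nat_lit 0) (.cons (.br (nat_lit 1) (.cons (.rel (nat_lit 22021632)) .nil)) .nil)) .leaf)) (nat_lit 5478786358311544) (.br (nat_lit 1) (.cons (.br (nat_lit 3) (.cons (.rel (nat_lit 285218817)) .nil)) .nil)) (.node (.node .leaf (nat_lit 5478786358311848) (.br (nat_lit 1) (.cons (.br (nat_lit 3) (.cons (.rel (nat_lit 285230085)) .nil)) .nil)) .leaf) (nat_lit 5483259180345501) (.br (nat_lit 0) (.cons (.br (nat_lit 3) (.cons (.rel (nat_lit 272631048)) .nil)) .nil)) (.node .leaf (nat_lit 5483259180346655) (.br (nat_lit 4) (.cons (.br (nat_lit 5) (.cons (.rel (nat_lit 5368710432)) .nil)) .nil)) .leaf))) (nat_lit 5483261712639377) (.br (nat_lit 0) (.cons (.br (nat_lit 2) (.cons (.rel (nat_lit 142622736)) .nil)) .nil)) (.node (.node (.node .leaf (nat_lit 5483261713705896) (.br (nat_lit 1) (.cons (.br (nat_lit 2) (.cons (.rel (nat_lit 83888640)) (.cons (.rel (nat_lit 83902752)) .nil))) .nil))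 .leaf) (nat_lit 11013023156661476) (.br (nat_lit 0) (.cons (.br (nat_lit 1) (.cons (.rel (nat_lit 37748745)) .nil)) .nil)) (.node .leaf (nat_lit 11020457748175003) (.br (nat_lit 0) (.cons (.br (nat_lit 1) (.cons (.rel (nat_lit 22021632)) (.cons (.rel (nat_lit 20971848)) .nil))) .nil)) .leaf)) (nat_lit 11020457749775588) (.br (nat_lit 3) (.cons (.br (nat_lit 0) (.cons (.rel (nat_lit 272697348)) (.cons (.rel (nat_lit 272634897)) .nil))) .nil)) (.node (.node .leaf (nat_lit 11025055607435420) (.br (nat_lit 3) (.cons (.br (nat_lit 4) (.cons (.rel (nat_lit 1610630400)) .nil)) .nil)) .leaf) (nat_lit 11025831110378408) (.br (nat_lit 0) (.cons (.br (nat_lit 2) (.cons (.rel (nat_lit 71307528)) .nil)) .nil)) (.node .leaf (nat_lit 11025831110378872) (.br (nat_lit 0) (.cons (.br (nat_lit 1) (.cons (.rel (nat_lit 25166880)) .nil)) .nil)) .leaf)))))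

/-- refutations 14 -/
def e14 : EX := (.node (.node (.node (.node (.node (.node (.node .leaf (nat_lit 11628867768825344) (.br (nat_lit 0) (.cons (.br (nat_lit 1) (.cons (.rel (nat_lit 37765632)) .nil)) .nil)) .leaf) (nat_lit 11628867769080090) (.br (nat_lit 1) (.cons (.br (nat_lit 4) (.cons (.rel (nat_lit 1090519077)) .nil)) .nil)) (.node .leaf (nat_lit 11628867769124123) (.br (nat_lit 1) (.cons (.br (nat_lit 2) (.cons (.rel (nat_lit 83895297)) (.cons (.rel (nat_lit 83895297)) (.cons (.rel (nat_lit 100992000)) .nil)))) (.cons (.br (nat_lit 2) (.cons (.rel (nat_lit 83894292)) (.cons (.rel (nat_lit 83951880)) (.cons (.rel (nat_lit 83951880)) .nil)))) (.cons (.br (nat_lit 6) (.cons (.rel (nat_lit 17196687360)) (.cons (.rel (nat_lit 17196687360)) (.cons (.rel (nat_lit 34393313280)) .nil)))) .nil)))) .leaf)) (nat_lit 11628867769386267) (.br (nat_lit 4) (.cons (.br (nat_lit 0) (.cons (.rel (nat_lit 1078198344)) (.cons (.rel (nat_lit 1077938181)) (.cons (.br (nat_lit 5) (.cons (.rel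 (nat_lit 8598585600)) (.cons (.rel (nat_lit 4299686400)) (.cons (.rel (nat_lit 8595439632)) .nil)))) (.cons (.rel (nat_lit 1077938181)) .nil))))) (.cons (.br (nat_lit 0) (.cons (.rel (nat_lit 1077937176)) (.cons (.rel (nat_lit 2155872273)) (.cons (.rel (nat_lit 1077960720)) (.cons (.rel (nat_lit 1077940740)) .nil))))) .nil))) (.node (.node .leaf (nat_lit 11628867769386496) (.br (nat_lit 5) (.cons (.br (nat_lit 3) (.cons (.rel (nat_lit 4563435552)) (.cons (.rel (nat_lit 4563404304)) (.cons (.rel (nat_lit 4563407112)) .nil)))) .nil)) .leaf) (nat_lit 11628867770198073) (.br (nat_lit 5) (.cons (.br (nat_lit 6) (.cons (.rel (nat_lit 42949674240)) .nil)) .nil)) .leaf)) (nat_lit 11628867770198766) (.br (nat_lit 6) (.cons (.br (nat_lit 1) (.cons (.rel (nat_lit 17196662802)) (.cons (.rel (nat_lit 34393313280)) .nil))) .nil)) (.node (.node (.node .leaf (nat_lit 11628867770199323) (.br (nat_lit 6) (.cons (.br (nat_lit 1) (.cons (.rel (nat_lit 17196646680)) (.cons (.rel (nat_lit 17196687360))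 .nil))) .nil)) .leaf) (nat_lit 11628867770199397) (.br (nat_lit 4) (.cons (.br (nat_lit 5) (.cons (.rel (nat_lit 5368783104)) .nil)) .nil)) (.node .leaf (nat_lit 11628867770199552) (.br (nat_lit 5) (.cons (.br (nat_lit 1) (.cons (.rel (nat_lit 4311745104)) (.cons (.rel (nat_lit 4311814212)) .nil))) .nil)) .leaf)) (nat_lit 11628867770207515) (.br (nat_lit 4) (.cons (.br (nat_lit 1) (.cons (.rel (nat_lit 1090521096)) (.cons (.rel (nat_lit 1090544640)) (.cons (.rel (nat_lit 1090527504)) (.cons (.rel (nat_lit 1090539777)) (.cons (.rel (nat_lit 1090585092)) .nil)))))) (.cons (.br (nat_lit 0) (.cons (.rel (nat_lit 2155872273)) (.cons (.rel (nat_lit 1077938181)) (.cons (.rel (nat_lit 1077936162)) (.cons (.rel (nat_lit 1078198344)) (.cons (.rel (nat_lit 2155872273)) .nil)))))) .nil))) (.node (.node .leaf (nat_lit 11628867770207583) (.br (nat_lit 4) (.cons (.br (nat_lit 1) (.cons (.rel (nat_lit 1090521096)) (.cons (.rel (nat_lit 1090527504)) .nil))) .nil)) .leaf) (nat_lit 11628867770207744)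 (.br (nat_lit 5) (.cons (.br (nat_lit 1) (.cons (.rel (nat_lit 4328526864)) (.cons (.rel (nat_lit 4313055300)) .nil))) .nil)) .leaf))) (nat_lit 11628867770215026) (.br (nat_lit 0) (.cons (.br (nat_lit 3) (.cons (.rel (nat_lit 272634897)) .nil)) .nil)) (.node (.node (.node (.node .leaf (nat_lit 11628867770215156) (.br (nat_lit 4) (.cons (.br (nat_lit 2) (.cons (.rel (nat_lit 1141178376)) (.cons (.rel (nat_lit 2214593028)) (.cons (.rel (nat_lit 1141178376)) .nil)))) .nil)) .leaf) (nat_lit 11628867770215186) (.br (nat_lit 4) (.cons (.br (nat_lit 0) (.cons (.rel (nat_lit 1078007040)) (.cons (.rel (nat_lit 1078067472)) (.cons (.rel (nat_lit 2155872273)) .nil)))) (.cons (.br (nat_lit 0) (.cons (.rel (nat_lit 1077940740)) (.cons (.rel (nat_lit 1077940740)) (.cons (.rel (nat_lit 1082425344)) .nil)))) .nil))) (.node .leaf (nat_lit 11628867770215707) (.br (nat_lit 0) (.cons (.br (nat_lit 5) (.cons (.rel (nat_lit 8594138112)) (.cons (.rel (nat_lit 4303422480)) .nil))) (.cons (.br (nat_lit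 5) (.cons (.rel (nat_lit 8594198544)) (.cons (.rel (nat_lit 4299169860)) .nil))) .nil))) .leaf)) (nat_lit 11628867770215775) (.br (nat_lit 5) (.cons (.br (nat_lit 3) (.cons (.rel (nat_lit 4563435552)) (.cons (.rel (nat_lit 4832428032)) .nil))) .nil)) (.node (.node .leaf (nat_lit 11628867770215936) (.br (nat_lit 5) (.cons (.br (nat_lit 1) (.cons (.rel (nat_lit 4330881168)) (.cons (.rel (nat_lit 4312795137)) (.cons (.rel (nat_lit 8623767552)) (.cons (.rel (nat_lit 4311814212)) (.cons (.rel (nat_lit 8606782464)) (.cons (.rel (nat_lit 4328526864)) .nil))))))) .nil)) .leaf) (nat_lit 11628867770360564) (.br (nat_lit 4) (.cons (.br (nat_lit 2) (.cons (.rel (nat_lit 2214625281)) (.cons (.rel (nat_lit 2214593028)) (.cons (.br (nat_lit 5) (.cons (.rel (nat_lit 4429447296)) (.cons (.rel (nat_lit 4429186128)) (.cons (.rel (nat_lit 5368727568)) .nil)))) (.cons (.rel (nat_lit 2214625281)) (.cons (.rel (nat_lit 1142947845)) .nil)))))) .nil)) .leaf)) (nat_lit 11628867770360594) (.br (nat_lit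 1) (.cons (.br (nat_lit 6) (.cons (.rel (nat_lit 34393313280)) .nil)) .nil)) (.node (.node (.node .leaf (nat_lit 11628867770361115) (.br (nat_lit 5) (.cons (.br (nat_lit 1) (.cons (.rel (nat_lit 4328788032)) (.cons (.rel (nat_lit 4328526864)) (.cons (.rel (nat_lit 4328587296)) (.cons (.rel (nat_lit 4311745104)) (.cons (.rel (nat_lit 4312301568)) .nil)))))) .nil)) .leaf) (nat_lit 11628867770361183) (.br (nat_lit 5) (.cons (.br (nat_lit 6) (.cons (.rel (nat_lit 21475131456)) (.cons (.rel (nat_lit 25770074112)) .nil))) .nil)) .leaf) (nat_lit 11628867770361344) (.br (nat_lit 5) (.cons (.br (nat_lit 3) (.cons (.rel (nat_lit 8859418704)) (.cons (.rel (nat_lit 4563410961)) (.cons (.rel (nat_lit 4563410961)) .nil)))) (.cons (.br (nat_lit 3) (.cons (.rel (nat_lit 4563410961)) (.cons (.rel (nat_lit 4563473412)) (.cons (.rel (nat_lit 4563410961)) .nil)))) .nil))) (.node (.node .leaf (nat_lit 11628867770658948) (.br (nat_lit 3) (.cons (.br (nat_lit 1) (.cons (.rel (nat_lit 570429696)) (.cons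 (.rel (nat_lit 285221376)) .nil))) .nil)) .leaf) (nat_lit 11628867770659602) (.br (nat_lit 5) (.cons (.br (nat_lit 2) (.cons (.rel (nat_lit 4362076170)) (.cons (.rel (nat_lit 4362076170)) (.cons (.rel (nat_lit 8657306640)) (.cons (.rel (nat_lit 4362076170)) .nil))))) .nil)) .leaf)))) (nat_lit 11628867770659716) (.br (nat_lit 3) (.cons (.br (nat_lit 6) (.cons (.rel (nat_lit 34628173833)) (.cons (.rel (nat_lit 17448567048)) (.cons (.rel (nat_lit 17716741152)) .nil)))) (.cons (.br (nat_lit 6) (.cons (.rel (nat_lit 17448570897)) (.cons (.rel (nat_lit 17448570897)) (.cons (.rel (nat_lit 17448567048)) .nil)))) (.cons (.br (nat_lit 0) (.cons (.rel (nat_lit 545325312)) (.cons (.rel (nat_lit 272654592)) (.cons (.rel (nat_lit 272761344)) (.cons (.rel (nat_lit 272654592)) .nil))))) .nil)))) (.node (.node (.node (.node (.node .leaf (nat_lit 11628867770660091) (.br (nat_lit 0) (.cons (.br (nat_lit 5) (.cons (.rel (nat_lit 8598585600)) .nil)) .nil)) .leaf) (nat_lit 11628867770660123) (.br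 (nat_lit 5) (.cons (.br (nat_lit 0) (.cons (.rel (nat_lit 8598651912)) (.cons (.rel (nat_lit 8595439632)) (.cons (.rel (nat_lit 4303357185)) (.cons (.rel (nat_lit 4299195456)) .nil))))) (.cons (.br (nat_lit 0) (.cons (.rel (nat_lit 4299195456)) (.cons (.rel (nat_lit 8594138112)) (.cons (.br (nat_lit 3) (.cons (.rel (nat_lit 4832428032)) (.cons (.rel (nat_lit 272647170)) (.cons (.rel (nat_lit 8858763264)) (.cons (.rel (nat_lit 272697348)) (.cons (.rel (nat_lit 4563421440)) .nil)))))) (.cons (.rel (nat_lit 4303362048)) .nil))))) .nil))) (.node .leaf (nat_lit 11628867770660191) (.br (nat_lit 5) (.cons (.br (nat_lit 3) (.cons (.rel (nat_lit 4563435552)) (.cons (.rel (nat_lit 4563435552)) (.cons (.rel (nat_lit 4563404304)) (.cons (.rel (nat_lit 8858763264)) .nil))))) .nil)) .leaf)) (nat_lit 11628867770660352) (.br (nat_lit 5) (.cons (.br (nat_lit 3) (.cons (.rel (nat_lit 8859418704)) (.cons (.rel (nat_lit 4832428032)) .nil))) .nil)) (.node (.node .leaf (nat_lit 11628867770676507)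 (.br (nat_lit 1) (.cons (.br (nat_lit 5) (.cons (.rel (nat_lit 8623767552)) (.cons (.rel (nat_lit 4328526864)) .nil))) (.cons (.br (nat_lit 4) (.cons (.rel (nat_lit 1090519077)) (.cons (.rel (nat_lit 1090544640)) .nil))) .nil))) .leaf) (nat_lit 11628867770676575) (.br (nat_lit 4) (.cons (.br (nat_lit 1) (.cons (.rel (nat_lit 1090539777)) (.cons (.rel (nat_lit 1090527504)) (.cons (.rel (nat_lit 1090521096)) .nil)))) .nil)) .leaf)) (nat_lit 11628867770676736) (.br (nat_lit 1) (.cons (.br (nat_lit 5) (.cons (.rel (nat_lit 4311814212)) (.cons (.rel (nat_lit 4328587296)) .nil))) (.cons (.br (nat_lit 4) (.cons (.rel (nat_lit 1090539777)) (.cons (.rel (nat_lit 1090781250)) .nil))) .nil))) (.node (.node (.node .leaf (nat_lit 11628867771426852) (.br (nat_lit 1) (.cons (.br (nat_lit 3) (.cons (.rel (nat_lit 570429696)) .nil)) .nil)) .leaf) (nat_lit 11628867771948315) (.br (nat_lit 5) (.cons (.br (nat_lit 1) (.cons (.rel (nat_lit 4311762240)) (.cons (.rel (nat_lit 4312301568)) .nil)))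 .nil)) (.node .leaf (nat_lit 11628867771957528) (.br (nat_lit 4) (.cons (.br (nat_lit 3) (.cons (.rel (nat_lit 2684354628)) (.cons (.rel (nat_lit 1610630400)) .nil))) .nil)) .leaf)) (nat_lit 11628867771957529) (.br (nat_lit 0) (.cons (.br (nat_lit 4) (.cons (.rel (nat_lit 1077936162)) (.cons (.rel (nat_lit 1078067472)) .nil))) .nil)) (.node (.node .leaf (nat_lit 11628867771958004) (.br (nat_lit 3) (.cons (.br (nat_lit 4) (.cons (.rel (nat_lit 1610613264)) .nil)) .nil)) .leaf) (nat_lit 11628867771958555) (.br (nat_lit 4) (.cons (.br (nat_lit 2) (.cons (.rel (nat_lit 2214625281)) (.cons (.rel (nat_lit 2214593028)) (.cons (.rel (nat_lit 1140868224)) (.cons (.rel (nat_lit 2214625281)) (.cons (.rel (nat_lit 1142947845)) (.cons (.rel (nat_lit 1142947845)) (.cons (.br (nat_lit 0) (.cons (.rel (nat_lit 1078198344)) (.cons (.rel (nat_lit 142622736)) (.cons (.br (nat_lit 3) (.cons (.rel (nat_lit 545325312)) (.cons (.rel (nat_lit 603985920)) (.cons (.rel (nat_lit 402662400)) (.cons (.rel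 (nat_lit 272633892)) .nil))))) (.cons (.rel (nat_lit 1079248128)) (.cons (.rel (nat_lit 1077938181)) .nil)))))) .nil)))))))) .nil)) .leaf))) (nat_lit 11628867828934788) (.br (nat_lit 1) (.cons (.br (nat_lit 2) (.cons (.rel (nat_lit 83951880)) .nil)) .nil)) (.node (.node (.node (.node .leaf (nat_lit 11629609020387353) (.br (nat_lit 1) (.cons (.br (nat_lit 2) (.cons (.rel (nat_lit 84934788)) .nil)) .nil)) .leaf) (nat_lit 11629609020387628) (.br (nat_lit 1) (.cons (.br (nat_lit 6) (.cons (.rel (nat_lit 17196646680)) .nil)) .nil)) (.node .leaf (nat_lit 11629609021156753) (.br (nat_lit 1) (.cons (.br (nat_lit 3) (.cons (.rel (nat_lit 285213954)) .nil)) .nil)) .leaf)) (nat_lit 11629609021156860) (.br (nat_lit 1) (.cons (.br (nat_lit 5) (.cons (.rel (nat_lit 4311875649)) .nil)) .nil)) (.node (.node .leaf (nat_lit 11629609021163581) (.br (nat_lit 1) (.cons (.br (nat_lit 2) (.cons (.rel (nat_lit 84934788)) (.cons (.rel (nat_lit 83902752)) .nil))) .nil)) .leaf) (nat_lit 11629609021163800)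 (.br (nat_lit 0) (.cons (.br (nat_lit 1) (.cons (.rel (nat_lit 20971848)) .nil)) .nil)) .leaf)) (nat_lit 11629609021164831) (.br (nat_lit 2) (.cons (.br (nat_lit 1) (.cons (.rel (nat_lit 83894292)) (.cons (.rel (nat_lit 83906565)) .nil))) .nil)) (.node (.node (.node .leaf (nat_lit 11629609021165056) (.br (nat_lit 2) (.cons (.br (nat_lit 4) (.cons (.rel (nat_lit 1207963665)) (.cons (.rel (nat_lit 1141129248)) (.cons (.rel (nat_lit 1141903680)) .nil)))) (.cons (.br (nat_lit 4) (.cons (.rel (nat_lit 1141129248)) (.cons (.rel (nat_lit 2214593028)) (.cons (.rel (nat_lit 1141129248)) .nil)))) (.cons (.br (nat_lit 5) (.cons (.rel (nat_lit 4362076170)) (.cons (.rel (nat_lit 4362076170)) (.cons (.rel (nat_lit 4429447296)) .nil)))) .nil)))) .leaf) (nat_lit 11629609021172987) (.br (nat_lit 1) (.cons (.br (nat_lit 2) (.cons (.rel (nat_lit 167773440)) (.cons (.rel (nat_lit 83895297)) .nil))) (.cons (.br (nat_lit 2) (.cons (.rel (nat_lit 83894292)) (.cons (.rel (nat_lit 100667520)) .nil)))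 .nil))) .leaf) (nat_lit 11629609021173248) (.br (nat_lit 1) (.cons (.br (nat_lit 4) (.cons (.rel (nat_lit 2181039108)) (.cons (.rel (nat_lit 1090617345)) .nil))) .nil)) (.node (.node .leaf (nat_lit 11629609021317181) (.br (nat_lit 2) (.cons (.br (nat_lit 4) (.cons (.rel (nat_lit 1207975938)) .nil)) .nil)) .leaf) (nat_lit 11629609021318431) (.br (nat_lit 1) (.cons (.br (nat_lit 2) (.cons (.rel (nat_lit 83888640)) .nil)) .nil)) .leaf))))) (nat_lit 11629609021318502) (.br (nat_lit 2) (.cons (.br (nat_lit 6) (.cons (.rel (nat_lit 17247010944)) .nil)) .nil)) (.node (.node (.node (.node (.node (.node .leaf (nat_lit 11629609021318506) (.br (nat_lit 1) (.cons (.br (nat_lit 0) (.cons (.rel (nat_lit 20971848)) (.cons (.rel (nat_lit 37765632)) .nil))) .nil)) .leaf) (nat_lit 11629609021318656) (.br (nat_lit 2) (.cons (.br (nat_lit 5) (.cons (.rel (nat_lit 4429447296)) (.cons (.rel (nat_lit 4362076170)) .nil))) (.cons (.br (nat_lit 5) (.cons (.rel (nat_lit 4362076170)) (.cons (.rel (nat_lit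 4362076170)) .nil))) .nil))) (.node .leaf (nat_lit 11629609021616153) (.br (nat_lit 2) (.cons (.br (nat_lit 4) (.cons (.rel (nat_lit 1142947845)) .nil)) .nil)) .leaf)) (nat_lit 11629609021617503) (.br (nat_lit 2) (.cons (.br (nat_lit 4) (.cons (.rel (nat_lit 2214593028)) .nil)) .nil)) (.node (.node .leaf (nat_lit 11629609021625631) (.br (nat_lit 1) (.cons (.br (nat_lit 3) (.cons (.rel (nat_lit 302252064)) (.cons (.rel (nat_lit 285298944)) .nil))) (.cons (.br (nat_lit 3) (.cons (.rel (nat_lit 285298944)) (.cons (.rel (nat_lit 285218817)) .nil))) .nil))) .leaf) (nat_lit 11629609021625695) (.br (nat_lit 2) (.cons (.br (nat_lit 4) (.cons (.rel (nat_lit 1207963665)) .nil)) .nil)) .leaf)) (nat_lit 11629609021625706) (.br (nat_lit 2) (.cons (.br (nat_lit 1) (.cons (.rel (nat_lit 83888640)) (.cons (.rel (nat_lit 83895297)) .nil))) .nil)) (.node (.node (.node .leaf (nat_lit 11629609021625856) (.br (nat_lit 3) (.cons (.br (nat_lit 4) (.cons (.rel (nat_lit 1343766528)) .nil)) .nil)) .leaf)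 (nat_lit 11629609021633823) (.br (nat_lit 4) (.cons (.br (nat_lit 6) (.cons (.rel (nat_lit 35433488388)) .nil)) .nil)) (.node .leaf (nat_lit 11629609021633894) (.br (nat_lit 2) (.cons (.br (nat_lit 6) (.cons (.rel (nat_lit 34426847505)) .nil)) .nil)) .leaf)) (nat_lit 11629728919547142) (.br (nat_lit 1) (.cons (.br (nat_lit 3) (.cons (.rel (nat_lit 285217812)) (.cons (.rel (nat_lit 570429696)) .nil))) (.cons (.br (nat_lit 3) (.cons (.rel (nat_lit 285213954)) (.cons (.rel (nat_lit 285217812)) .nil))) .nil))) (.node (.node .leaf (nat_lit 11629728919547356) (.br (nat_lit 1) (.cons (.br (nat_lit 2) (.cons (.rel (nat_lit 83951880)) (.cons (.rel (nat_lit 167773440)) .nil))) .nil)) .leaf) (nat_lit 11629728919692764) (.br (nat_lit 3) (.cons (.br (nat_lit 1) (.cons (.rel (nat_lit 285221376)) (.cons (.rel (nat_lit 553682256)) .nil))) .nil)) .leaf))) (nat_lit 11629728919991558) (.br (nat_lit 2) (.cons (.br (nat_lit 3) (.cons (.rel (nat_lit 335544960)) .nil)) .nil)) (.node (.node (.node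 (.node .leaf (nat_lit 11631015236267509) (.br (nat_lit 0) (.cons (.br (nat_lit 1) (.cons (.rel (nat_lit 20971848)) .nil)) .nil)) .leaf) (nat_lit 11631015237070325) (.br (nat_lit 1) (.cons (.br (nat_lit 3) (.cons (.rel (nat_lit 570429696)) .nil)) .nil)) (.node .leaf (nat_lit 11631015237078517) (.br (nat_lit 1) (.cons (.br (nat_lit 3) (.cons (.rel (nat_lit 285376512)) (.cons (.rel (nat_lit 570507264)) .nil))) .nil)) .leaf)) (nat_lit 11631015237240309) (.br (nat_lit 3) (.cons (.br (nat_lit 6) (.cons (.rel (nat_lit 17450402817)) (.cons (.rel (nat_lit 17716813824)) (.cons (.rel (nat_lit 17450402817)) (.cons (.rel (nat_lit 34628308992)) .nil))))) .nil)) (.node (.node .leaf (nat_lit 11631015237531125) (.br (nat_lit 4) (.cons (.br (nat_lit 0) (.cons (.rel (nat_lit 1078067472)) (.cons (.rel (nat_lit 1077940740)) .nil))) .nil)) .leaf) (nat_lit 11636012375872268) (.br (nat_lit 1) (.cons (.br (nat_lit 4) (.cons (.rel (nat_lit 1090520082)) .nil)) .nil)) .leaf)) (nat_lit 11636012377008428)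 (.br (nat_lit 0) (.cons (.br (nat_lit 3) (.cons (.rel (nat_lit 272630034)) (.cons (.rel (nat_lit 545325312)) .nil))) .nil)) (.node (.node (.node .leaf (nat_lit 11636012377452555) (.br (nat_lit 6) (.cons (.br (nat_lit 0) (.cons (.rel (nat_lit 17188521984)) (.cons (.br (nat_lit 3) (.cons (.rel (nat_lit 272633892)) (.cons (.rel (nat_lit 17716813824)) (.cons (.rel (nat_lit 17448633348)) .nil)))) .nil))) .nil)) .leaf) (nat_lit 11636177695945480) (.br (nat_lit 1) (.cons (.br (nat_lit 2) (.cons (.rel (nat_lit 83951880)) .nil)) .nil)) .leaf) (nat_lit 11636177695945581) (.br (nat_lit 0) (.cons (.br (nat_lit 5) (.cons (.br (nat_lit 3) (.cons (.rel (nat_lit 4563423234)) (.cons (.rel (nat_lit 272695329)) .nil))) .nil)) .nil)) (.node (.node .leaf (nat_lit 11636177788220774) (.br (nat_lit 2) (.cons (.br (nat_lit 4) (.cons (.rel (nat_lit 1141115136)) .nil)) .nil)) .leaf) (nat_lit 11636178434142883) (.br (nat_lit 2) (.cons (.br (nat_lit 1) (.cons (.rel (nat_lit 83890434)) (.cons (.rel (nat_lit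 83890434)) .nil))) .nil)) .leaf)))) (nat_lit 11636180321580383) (.br (nat_lit 2) (.cons (.br (nat_lit 3) (.cons (.rel (nat_lit 335814660)) .nil)) .nil)) (.node (.node (.node (.node (.node .leaf (nat_lit 11636180321580508) (.br (nat_lit 0) (.cons (.br (nat_lit 1) (.cons (.rel (nat_lit 22028289)) (.cons (.rel (nat_lit 22151172)) .nil))) .nil)) .leaf) (nat_lit 11639177785127223) (.br (nat_lit 0) (.cons (.br (nat_lit 2) (.cons (.rel (nat_lit 71321856)) .nil)) .nil)) (.node .leaf (nat_lit 11639177785128213) (.br (nat_lit 0) (.cons (.br (nat_lit 1) (.cons (.br (nat_lit 2) (.cons (.br (nat_lit 5) (.cons (.rel (nat_lit 4362076170)) .nil)) .nil)) .nil)) .nil)) .leaf)) (nat_lit 11639177785128412) (.br (nat_lit 0) (.cons (.br (nat_lit 1) (.cons (.rel (nat_lit 39124992)) .nil)) .nil)) (.node (.node .leaf (nat_lit 11640335316272486) (.br (nat_lit 4) (.cons (.br (nat_lit 5) (.cons (.rel (nat_lit 5368727568)) .nil)) .nil)) .leaf) (nat_lit 11640335316272629) (.br (nat_lit 4) (.cons (.br (nat_lit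 0) (.cons (.rel (nat_lit 2155872273)) (.cons (.rel (nat_lit 1077936162)) (.cons (.rel (nat_lit 1077940740)) (.cons (.rel (nat_lit 1077960720)) (.cons (.rel (nat_lit 1077940740)) (.cons (.rel (nat_lit 1077940740)) .nil))))))) (.cons (.br (nat_lit 5) (.cons (.rel (nat_lit 5368709382)) (.cons (.rel (nat_lit 10737434880)) (.cons (.rel (nat_lit 5368742400)) .nil)))) .nil))) .leaf)) (nat_lit 11640522092669228) (.br (nat_lit 0) (.cons (.br (nat_lit 1) (.cons (.rel (nat_lit 22052880)) .nil)) .nil)) (.node (.node (.node .leaf (nat_lit 11640681086151942) (.br (nat_lit 0) (.cons (.br (nat_lit 1) (.cons (.rel (nat_lit 25165830)) (.cons (.rel (nat_lit 37750800)) .nil))) (.cons (.br (nat_lit 1) (.cons (.rel (nat_lit 20971848)) (.cons (.rel (nat_lit 25165830)) .nil))) .nil))) .leaf) (nat_lit 11640681086297350) (.br (nat_lit 0) (.cons (.br (nat_lit 1) (.cons (.rel (nat_lit 21499908)) .nil)) .nil)) .leaf) (nat_lit 11640681086297564) (.br (nat_lit 3) (.cons (.br (nat_lit 0) (.cons (.rel (nat_lit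 272634897)) (.cons (.rel (nat_lit 272633892)) .nil))) .nil)) (.node (.node .leaf (nat_lit 11640681086604550) (.br (nat_lit 1) (.cons (.br (nat_lit 3) (.cons (.rel (nat_lit 302252064)) .nil)) .nil)) .leaf) (nat_lit 11640681087312008) (.br (nat_lit 0) (.cons (.br (nat_lit 1) (.cons (.rel (nat_lit 25166880)) .nil)) .nil)) .leaf))) (nat_lit 11640681087679364) (.br (nat_lit 0) (.cons (.br (nat_lit 3) (.cons (.rel (nat_lit 272761344)) .nil)) .nil)) (.node (.node (.node (.node .leaf (nat_lit 11641412195425687) (.br (nat_lit 2) (.cons (.br (nat_lit 3) (.cons (.rel (nat_lit 336593988)) .nil)) .nil)) .leaf) (nat_lit 11641412195726599) (.br (nat_lit 0) (.cons (.br (nat_lit 2) (.cons (.rel (nat_lit 71307528)) .nil)) .nil)) (.node .leaf (nat_lit 11641417665098628) (.br (nat_lit 1) (.cons (.br (nat_lit 3) (.cons (.rel (nat_lit 285221376)) .nil)) .nil)) .leaf)) (nat_lit 11641420180451628) (.br (nat_lit 0) (.cons (.br (nat_lit 6) (.cons (.rel (nat_lit 17184063765)) .nil)) .nil)) (.node (.node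 .leaf (nat_lit 11641420181219628) (.br (nat_lit 0) (.cons (.br (nat_lit 1) (.cons (.rel (nat_lit 20987970)) .nil)) .nil)) .leaf) (nat_lit 11641420181237212) (.br (nat_lit 0) (.cons (.br (nat_lit 1) (.cons (.rel (nat_lit 25166880)) .nil)) .nil)) .leaf)) (nat_lit 11641420181681028) (.br (nat_lit 1) (.cons (.br (nat_lit 6) (.cons (.rel (nat_lit 17196662802)) .nil)) .nil)) (.node (.node (.node .leaf (nat_lit 11641420181681064) (.br (nat_lit 1) (.cons (.br (nat_lit 2) (.cons (.rel (nat_lit 83895297)) .nil)) .nil)) .leaf) (nat_lit 11641420181681414) (.br (nat_lit 0) (.cons (.br (nat_lit 1) (.cons (.rel (nat_lit 20975697)) .nil)) .nil)) .leaf) (nat_lit 11641420181681628) (.br (nat_lit 1) (.cons (.br (nat_lit 6) (.cons (.rel (nat_lit 17196663816)) (.cons (.rel (nat_lit 17196687360)) .nil))) .nil)) (.node (.node .leaf (nat_lit 11641557619405100) (.br (nat_lit 1) (.cons (.br (nat_lit 2) (.cons (.rel (nat_lit 83888640)) .nil)) .nil)) .leaf) (nat_lit 11641557620336092) (.br (nat_lit 0)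 (.cons (.br (nat_lit 1) (.cons (.rel (nat_lit 38011968)) .nil)) .nil)) .leaf))))))

/-- refutations 15 -/
def e15 : EX := (.node (.node (.node (.node (.node (.node (.node .leaf (nat_lit 11646459959624986) (.br (nat_lit 1) (.cons (.br (nat_lit 2) (.cons (.rel (nat_lit 167773440)) (.cons (.rel (nat_lit 84181056)) (.cons (.rel (nat_lit 151003200)) (.cons (.rel (nat_lit 84934788)) (.cons (.rel (nat_lit 83888640)) (.cons (.rel (nat_lit 100667520)) .nil))))))) .nil)) .leaf) (nat_lit 11646459959669037) (.br (nat_lit 2) (.cons (.br (nat_lit 5) (.cons (.br (nat_lit 0) (.cons (.rel (nat_lit 4303356180)) (.cons (.rel (nat_lit 71335968)) .nil))) .nil)) .nil)) .leaf) (nat_lit 11646459959669636) (.br (nat_lit 2) (.cons (.br (nat_lit 5) (.cons (.rel (nat_lit 4362076170)) .nil)) .nil)) (.node .leaf (nat_lit 11646459960437021) (.br (nat_lit 2) (.cons (.br (nat_lit 1) (.cons (.rel (nat_lit 83919888)) (.cons (.rel (nat_lit 83888640)) (.cons (.rel (nat_lit 83951880)) (.cons (.rel (nat_lit 167773440))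 .nil))))) (.cons (.br (nat_lit 3) (.cons (.rel (nat_lit 337707012)) (.cons (.rel (nat_lit 336593988)) .nil))) .nil))) .leaf)) (nat_lit 11646459960437488) (.br (nat_lit 1) (.cons (.br (nat_lit 5) (.cons (.rel (nat_lit 4312301568)) (.cons (.rel (nat_lit 4328526864)) .nil))) (.cons (.br (nat_lit 5) (.cons (.rel (nat_lit 4311762240)) (.cons (.rel (nat_lit 8623767552)) .nil))) .nil))) (.node (.node .leaf (nat_lit 11646459960438042) (.br (nat_lit 3) (.cons (.br (nat_lit 2) (.cons (.rel (nat_lit 337707012)) (.cons (.rel (nat_lit 402662400)) (.cons (.rel (nat_lit 336593988)) .nil)))) .nil)) .leaf) (nat_lit 11646459960438261) (.br (nat_lit 0) (.cons (.br (nat_lit 1) (.cons (.rel (nat_lit 22021632)) .nil)) .nil)) (.node .leaf (nat_lit 11646459960446234) (.br (nat_lit 0) (.cons (.br (nat_lit 4) (.cons (.rel (nat_lit 1077938181)) .nil)) .nil)) .leaf))) (nat_lit 11646459960591013) (.br (nat_lit 1) (.cons (.br (nat_lit 0) (.cons (.br (nat_lit 2) (.cons (.rel (nat_lit 84181056)) (.cons (.rel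 (nat_lit 83902752)) (.cons (.rel (nat_lit 83902752)) (.cons (.rel (nat_lit 83888640)) (.cons (.rel (nat_lit 83951880)) (.cons (.rel (nat_lit 75563136)) (.cons (.rel (nat_lit 84181056)) .nil)))))))) (.cons (.rel (nat_lit 21038148)) (.cons (.rel (nat_lit 37750800)) (.cons (.rel (nat_lit 37750800)) .nil))))) (.cons (.br (nat_lit 0) (.cons (.rel (nat_lit 21038148)) (.cons (.rel (nat_lit 37750800)) (.cons (.rel (nat_lit 22151172)) (.cons (.rel (nat_lit 22052880)) .nil))))) (.cons (.br (nat_lit 0) (.cons (.rel (nat_lit 42992712)) (.cons (.rel (nat_lit 20971848)) (.cons (.rel (nat_lit 37750800)) (.cons (.rel (nat_lit 22028289)) .nil))))) .nil)))) (.node (.node (.node .leaf (nat_lit 11646459960591642) (.br (nat_lit 0) (.cons (.br (nat_lit 2) (.cons (.rel (nat_lit 72614916)) (.cons (.rel (nat_lit 71321856)) (.cons (.rel (nat_lit 72614916)) (.cons (.rel (nat_lit 72351873)) (.cons (.rel (nat_lit 139462656)) (.cons (.rel (nat_lit 72614916)) .nil))))))) .nil)) .leaf) (nat_lit 11646459960591772)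 (.br (nat_lit 4) (.cons (.br (nat_lit 5) (.cons (.rel (nat_lit 5368727568)) .nil)) .nil)) (.node .leaf (nat_lit 11646459960598659) (.br (nat_lit 2) (.cons (.br (nat_lit 4) (.cons (.rel (nat_lit 1140868224)) .nil)) .nil)) .leaf)) (nat_lit 11646459960898213) (.br (nat_lit 2) (.cons (.br (nat_lit 4) (.cons (.rel (nat_lit 1141116930)) .nil)) .nil)) (.node (.node .leaf (nat_lit 11646459960898438) (.br (nat_lit 2) (.cons (.br (nat_lit 5) (.cons (.rel (nat_lit 4362076170)) (.cons (.rel (nat_lit 4362076170)) .nil))) .nil)) .leaf) (nat_lit 11646459960898841) (.br (nat_lit 1) (.cons (.br (nat_lit 2) (.cons (.rel (nat_lit 102760464)) .nil)) .nil)) (.node .leaf (nat_lit 11646459960899061) (.br (nat_lit 0) (.cons (.br (nat_lit 1) (.cons (.rel (nat_lit 20975697)) .nil)) .nil)) .leaf)))) (nat_lit 11646459960907811) (.br (nat_lit 0) (.cons (.br (nat_lit 1) (.cons (.rel (nat_lit 37748745)) .nil)) .nil)) (.node (.node (.node (.node (.node .leaf (nat_lit 11646459961990047) (.br (nat_lit 0) (.cons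 (.br (nat_lit 1) (.cons (.rel (nat_lit 20987970)) .nil)) .nil)) .leaf) (nat_lit 11646459962185855) (.br (nat_lit 2) (.cons (.br (nat_lit 4) (.cons (.rel (nat_lit 1141178376)) .nil)) .nil)) .leaf) (nat_lit 11646459962186013) (.br (nat_lit 4) (.cons (.br (nat_lit 2) (.cons (.rel (nat_lit 1140851088)) (.cons (.rel (nat_lit 2214593028)) .nil))) .nil)) (.node .leaf (nat_lit 11646459962186480) (.br (nat_lit 4) (.cons (.br (nat_lit 3) (.cons (.rel (nat_lit 2684354628)) (.cons (.rel (nat_lit 2416197696)) (.cons (.rel (nat_lit 1610630400)) .nil)))) .nil)) .leaf)) (nat_lit 11646459962186615) (.br (nat_lit 2) (.cons (.br (nat_lit 4) (.cons (.rel (nat_lit 1208026116)) .nil)) .nil)) (.node (.node .leaf (nat_lit 11646459962187034) (.br (nat_lit 4) (.cons (.br (nat_lit 3) (.cons (.rel (nat_lit 2684354628)) (.cons (.rel (nat_lit 1343766528)) (.cons (.rel (nat_lit 1342439445)) (.cons (.rel (nat_lit 2684354628)) .nil))))) .nil)) .leaf) (nat_lit 11646461929314364) (.br (nat_lit 0) (.cons (.br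 (nat_lit 2) (.cons (.rel (nat_lit 142622736)) .nil)) .nil)) (.node .leaf (nat_lit 11646461929315061) (.br (nat_lit 0) (.cons (.br (nat_lit 2) (.cons (.rel (nat_lit 71368965)) (.cons (.rel (nat_lit 71335968)) .nil))) (.cons (.br (nat_lit 2) (.cons (.rel (nat_lit 71304720)) (.cons (.rel (nat_lit 71321856)) .nil))) .nil))) .leaf))) (nat_lit 11646462535748961) (.br (nat_lit 1) (.cons (.br (nat_lit 0) (.cons (.rel (nat_lit 25166880)) (.cons (.rel (nat_lit 37750800)) .nil))) .nil)) (.node (.node (.node .leaf (nat_lit 11647198674302453) (.br (nat_lit 2) (.cons (.br (nat_lit 3) (.cons (.rel (nat_lit 402662400)) .nil)) .nil)) .leaf) (nat_lit 11647201206431800) (.br (nat_lit 2) (.cons (.br (nat_lit 5) (.cons (.rel (nat_lit 4362076170)) (.cons (.rel (nat_lit 4362076170)) .nil))) .nil)) (.node .leaf (nat_lit 11647201206432376) (.br (nat_lit 4) (.cons (.br (nat_lit 5) (.cons (.rel (nat_lit 5368742400)) .nil)) .nil)) .leaf)) (nat_lit 11647201207207997) (.br (nat_lit 0) (.cons (.br (nat_lit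 1) (.cons (.rel (nat_lit 20987970)) .nil)) .nil)) (.node (.node .leaf (nat_lit 11647201207209313) (.br (nat_lit 0) (.cons (.br (nat_lit 1) (.cons (.rel (nat_lit 20975697)) .nil)) .nil)) .leaf) (nat_lit 11647201207220856) (.br (nat_lit 0) (.cons (.br (nat_lit 1) (.cons (.rel (nat_lit 20987970)) .nil)) .nil)) (.node .leaf (nat_lit 11647201207353344) (.br (nat_lit 2) (.cons (.br (nat_lit 1) (.cons (.rel (nat_lit 151003200)) (.cons (.rel (nat_lit 167773440)) (.cons (.rel (nat_lit 83895297)) .nil)))) .nil)) .leaf))))) (nat_lit 11647201207359674) (.br (nat_lit 0) (.cons (.br (nat_lit 1) (.cons (.rel (nat_lit 37748745)) .nil)) .nil)) (.node (.node (.node (.node (.node (.node .leaf (nat_lit 11647201207360424) (.br (nat_lit 0) (.cons (.br (nat_lit 4) (.cons (.rel (nat_lit 1077938181)) .nil)) .nil)) .leaf) (nat_lit 11647201207361543) (.br (nat_lit 1) (.cons (.br (nat_lit 2) (.cons (.rel (nat_lit 83888640)) .nil)) .nil)) .leaf) (nat_lit 11647201207661176) (.br (nat_lit 2) (.cons (.br (nat_lit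 5) (.cons (.rel (nat_lit 4362211329)) (.cons (.rel (nat_lit 8724152325)) (.cons (.rel (nat_lit 4362076170)) .nil)))) .nil)) (.node .leaf (nat_lit 11647201208429980) (.br (nat_lit 0) (.cons (.br (nat_lit 1) (.cons (.rel (nat_lit 20971848)) .nil)) .nil)) .leaf)) (nat_lit 11647201208753514) (.br (nat_lit 0) (.cons (.br (nat_lit 1) (.cons (.rel (nat_lit 20987970)) .nil)) .nil)) (.node (.node .leaf (nat_lit 11648607421994266) (.br (nat_lit 3) (.cons (.br (nat_lit 6) (.cons (.rel (nat_lit 17448570897)) .nil)) .nil)) .leaf) (nat_lit 11648607422311706) (.br (nat_lit 0) (.cons (.br (nat_lit 1) (.cons (.rel (nat_lit 25428048)) .nil)) .nil)) (.node .leaf (nat_lit 11648607424862965) (.br (nat_lit 1) (.cons (.br (nat_lit 2) (.cons (.rel (nat_lit 85196817)) .nil)) .nil)) .leaf))) (nat_lit 11651481812079504) (.br (nat_lit 0) (.cons (.br (nat_lit 3) (.cons (.rel (nat_lit 272631048)) .nil)) .nil)) (.node (.node (.node .leaf (nat_lit 11651888799252765) (.br (nat_lit 0) (.cons (.br (nat_lit 1)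 (.cons (.rel (nat_lit 21038148)) .nil)) .nil)) .leaf) (nat_lit 11651888800848157) (.br (nat_lit 1) (.cons (.br (nat_lit 2) (.cons (.rel (nat_lit 83890434)) .nil)) .nil)) (.node .leaf (nat_lit 11652792688389402) (.br (nat_lit 0) (.cons (.br (nat_lit 2) (.cons (.rel (nat_lit 71307528)) .nil)) .nil)) .leaf)) (nat_lit 11657291868112154) (.br (nat_lit 0) (.cons (.br (nat_lit 1) (.cons (.rel (nat_lit 37750800)) .nil)) .nil)) (.node (.node .leaf (nat_lit 11657294443722235) (.br (nat_lit 0) (.cons (.br (nat_lit 2) (.cons (.rel (nat_lit 71323650)) .nil)) .nil)) .leaf) (nat_lit 11657893163399925) (.br (nat_lit 2) (.cons (.br (nat_lit 1) (.cons (.rel (nat_lit 83888640)) (.cons (.rel (nat_lit 84018180)) .nil))) .nil)) (.node .leaf (nat_lit 11657893165138200) (.br (nat_lit 4) (.cons (.br (nat_lit 3) (.cons (.rel (nat_lit 1342177416)) (.cons (.rel (nat_lit 1610613264)) .nil))) .nil)) .leaf)))) (nat_lit 11657895129387288) (.br (nat_lit 1) (.cons (.br (nat_lit 3) (.cons (.rel (nat_lit 570429696))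 (.cons (.rel (nat_lit 285213954)) .nil))) (.cons (.br (nat_lit 3) (.cons (.rel (nat_lit 285213954)) (.cons (.rel (nat_lit 570429696)) .nil))) .nil))) (.node (.node (.node (.node (.node .leaf (nat_lit 11657895131941540) (.br (nat_lit 0) (.cons (.br (nat_lit 2) (.cons (.rel (nat_lit 142611480)) .nil)) .nil)) .leaf) (nat_lit 11657895132270076) (.br (nat_lit 0) (.cons (.br (nat_lit 2) (.cons (.rel (nat_lit 71311377)) .nil)) .nil)) .leaf) (nat_lit 11657934091398501) (.br (nat_lit 3) (.cons (.br (nat_lit 4) (.cons (.rel (nat_lit 1342177416)) .nil)) .nil)) (.node .leaf (nat_lit 11659001265095333) (.br (nat_lit 0) (.cons (.br (nat_lit 3) (.cons (.rel (nat_lit 272646165)) .nil)) .nil)) .leaf)) (nat_lit 11659012366495800) (.br (nat_lit 0) (.cons (.br (nat_lit 2) (.cons (.rel (nat_lit 71307528)) .nil)) .nil)) (.node (.node .leaf (nat_lit 11659012366496644) (.br (nat_lit 2) (.cons (.br (nat_lit 5) (.cons (.rel (nat_lit 4362076170)) (.cons (.rel (nat_lit 4362076170)) .nil))) .nil)) .leaf)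 (nat_lit 11659012367281064) (.br (nat_lit 0) (.cons (.br (nat_lit 1) (.cons (.rel (nat_lit 25165830)) (.cons (.rel (nat_lit 20987970)) .nil))) (.cons (.br (nat_lit 1) (.cons (.rel (nat_lit 22021632)) (.cons (.rel (nat_lit 21499908)) .nil))) .nil))) (.node .leaf (nat_lit 11659012367417344) (.br (nat_lit 0) (.cons (.br (nat_lit 1) (.cons (.br (nat_lit 2) (.cons (.rel (nat_lit 100667520)) (.cons (.rel (nat_lit 142622736)) .nil))) .nil)) .nil)) .leaf))) (nat_lit 11659012367418780) (.br (nat_lit 1) (.cons (.br (nat_lit 0) (.cons (.rel (nat_lit 22021632)) (.cons (.rel (nat_lit 25264146)) .nil))) .nil)) (.node (.node (.node .leaf (nat_lit 11659012367426838) (.br (nat_lit 1) (.cons (.br (nat_lit 5) (.cons (.rel (nat_lit 4311762240)) .nil)) .nil)) .leaf) (nat_lit 11659012367724551) (.br (nat_lit 0) (.cons (.br (nat_lit 2) (.cons (.rel (nat_lit 71304720)) .nil)) .nil)) (.node .leaf (nat_lit 11659012367725171) (.br (nat_lit 0) (.cons (.br (nat_lit 5) (.cons (.rel (nat_lit 4299169860))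 .nil)) .nil)) .leaf)) (nat_lit 11659012367725176) (.br (nat_lit 0) (.cons (.br (nat_lit 2) (.cons (.rel (nat_lit 71307528)) .nil)) .nil)) (.node (.node .leaf (nat_lit 11659012367725301) (.br (nat_lit 2) (.cons (.br (nat_lit 0) (.cons (.rel (nat_lit 71335968)) (.cons (.rel (nat_lit 71304720)) .nil))) .nil)) .leaf) (nat_lit 11659012367725830) (.br (nat_lit 0) (.cons (.br (nat_lit 2) (.cons (.rel (nat_lit 71307528)) (.cons (.rel (nat_lit 71335968)) .nil))) .nil)) (.node .leaf (nat_lit 11659012367726075) (.br (nat_lit 2) (.cons (.br (nat_lit 4) (.cons (.rel (nat_lit 1140851088)) .nil)) .nil)) .leaf))))))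

/-- refutations 16 -/
def e16 : EX := (.node (.node (.node .leaf (nat_lit 11964020573368601) (.br (nat_lit 0) (.cons (.br (nat_lit 3) (.cons (.rel (nat_lit 272654592)) .nil)) .nil)) .leaf) (nat_lit 11974777798395157) (.br (nat_lit 0) (.cons (.br (nat_lit 3) (.cons (.rel (nat_lit 272695329)) .nil)) .nil)) .leaf) (nat_lit 11974778866643880) (.br (nat_lit 0) (.cons (.br (nat_lit 1) (.cons (.rel (nat_lit 25198848)) .nil)) .nil)) (.node (.node .leaf (nat_lit 11975809658794014) (.br (nat_lit 0) (.cons (.br (nat_lit 6) (.cons (.rel (nat_lit 17184069633)) .nil)) .nil)) .leaf) (nat_lit 11976001044886440) (.br (nat_lit 1) (.cons (.br (nat_lit 3) (.cons (.rel (nat_lit 570429696)) .nil)) .nil)) .leaf))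

/-- refutations 17 -/
def e17 : EX := (.node (.node (.node (.node (.node .leaf (nat_lit 13669443247340777) (.br (nat_lit 1) (.cons (.br (nat_lit 2) (.cons (.rel (nat_lit 83895297)) .nil)) .nil)) .leaf) (nat_lit 13669443248599667) (.br (nat_lit 1) (.cons (.br (nat_lit 2) (.cons (.rel (nat_lit 83895297)) .nil)) .nil)) (.node .leaf (nat_lit 13670299621909737) (.br (nat_lit 2) (.cons (.br (nat_lit 3) (.cons (.rel (nat_lit 337117185)) .nil)) .nil)) .leaf)) (nat_lit 13671368367026487) (.br (nat_lit 0) (.cons (.br (nat_lit 6) (.cons (.rel (nat_lit 17184063765)) .nil)) .nil)) (.node (.node .leaf (nat_lit 13674777957109910) (.br (nat_lit 5) (.cons (.br (nat_lit 0) (.cons (.rel (nat_lit 8594149380)) (.cons (.br (nat_lit 1) (.cons (.rel (nat_lit 37750800)) (.cons (.rel (nat_lit 4312301568)) .nil))) .nil))) .nil)) .leaf) (nat_lit 13674777957110065) (.br (nat_lit 1) (.cons (.br (nat_lit 6) (.cons (.rel (nat_lit 17196652548)) .nil)) .nil)) .leaf)) (nat_lit 13674777958690826) (.br (nat_lit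 0) (.cons (.br (nat_lit 2) (.cons (.rel (nat_lit 142611480)) .nil)) .nil)) (.node (.node (.node .leaf (nat_lit 13674777958690966) (.br (nat_lit 0) (.cons (.br (nat_lit 4) (.cons (.rel (nat_lit 1077936162)) (.cons (.rel (nat_lit 1077972993)) .nil))) (.cons (.br (nat_lit 4) (.cons (.rel (nat_lit 1077972993)) (.cons (.rel (nat_lit 1077936162)) .nil))) .nil))) .leaf) (nat_lit 13674777959528598) (.br (nat_lit 0) (.cons (.br (nat_lit 1) (.cons (.rel (nat_lit 37750800)) .nil)) .nil)) (.node .leaf (nat_lit 13675580126194420) (.br (nat_lit 0) (.cons (.br (nat_lit 1) (.cons (.rel (nat_lit 37748745)) .nil)) .nil)) .leaf)) (nat_lit 13675580127267568) (.br (nat_lit 2) (.cons (.br (nat_lit 6) (.cons (.rel (nat_lit 17248026705)) .nil)) .nil)) (.node (.node .leaf (nat_lit 13675580127412905) (.br (nat_lit 0) (.cons (.br (nat_lit 4) (.cons (.rel (nat_lit 1077972993)) .nil)) .nil)) .leaf) (nat_lit 13675580127719475) (.br (nat_lit 0) (.cons (.br (nat_lit 4) (.cons (.rel (nat_lit 2155872273)) .nil))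 .nil)) .leaf))) (nat_lit 13675582895960720) (.br (nat_lit 1) (.cons (.br (nat_lit 6) (.cons (.rel (nat_lit 17196687360)) (.cons (.rel (nat_lit 17196687360)) (.cons (.rel (nat_lit 17196687360)) (.cons (.rel (nat_lit 34377629712)) .nil))))) .nil)) (.node (.node (.node (.node .leaf (nat_lit 13676005958184472) (.br (nat_lit 3) (.cons (.br (nat_lit 1) (.cons (.rel (nat_lit 285213954)) (.cons (.rel (nat_lit 285376512)) .nil))) .nil)) .leaf) (nat_lit 13676005958627639) (.br (nat_lit 4) (.cons (.br (nat_lit 1) (.cons (.rel (nat_lit 1090555908)) (.cons (.rel (nat_lit 2165329920)) (.cons (.rel (nat_lit 1090519077)) .nil)))) .nil)) (.node .leaf (nat_lit 13676005958628888) (.br (nat_lit 2) (.cons (.br (nat_lit 3) (.cons (.br (nat_lit 6) (.cons (.rel (nat_lit 17448567048)) .nil)) .nil)) .nil)) .leaf)) (nat_lit 13680395838830075) (.br (nat_lit 0) (.cons (.br (nat_lit 2) (.cons (.rel (nat_lit 71434260)) .nil)) .nil)) (.node (.node .leaf (nat_lit 13682104812189208) (.br (nat_lit 0) (.cons (.br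 (nat_lit 1) (.cons (.rel (nat_lit 20987970)) .nil)) .nil)) .leaf) (nat_lit 13682113762534778) (.br (nat_lit 0) (.cons (.br (nat_lit 2) (.cons (.rel (nat_lit 71304720)) .nil)) .nil)) .leaf)) (nat_lit 13682113762832689) (.br (nat_lit 0) (.cons (.br (nat_lit 1) (.cons (.rel (nat_lit 22052880)) (.cons (.rel (nat_lit 20971848)) .nil))) .nil)) (.node (.node (.node .leaf (nat_lit 13682113762833011) (.br (nat_lit 0) (.cons (.br (nat_lit 1) (.cons (.rel (nat_lit 25165830)) .nil)) .nil)) .leaf) (nat_lit 13682113762833320) (.br (nat_lit 1) (.cons (.br (nat_lit 2) (.cons (.rel (nat_lit 85196817)) .nil)) .nil)) .leaf) (nat_lit 13682113764121203) (.br (nat_lit 0) (.cons (.br (nat_lit 1) (.cons (.rel (nat_lit 22021632)) .nil)) .nil)) (.node (.node .leaf (nat_lit 13682499889199130) (.br (nat_lit 0) (.cons (.br (nat_lit 1) (.cons (.rel (nat_lit 20987970)) .nil)) .nil)) .leaf) (nat_lit 13682499890459910) (.br (nat_lit 4) (.cons (.br (nat_lit 1) (.cons (.rel (nat_lit 1090544640)) (.cons (.rel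 (nat_lit 1090521096)) .nil))) .nil)) .leaf))))

/-- refutations 18 -/
def e18 : EX := (.node (.node (.node (.node .leaf (nat_lit 13827894019408679) (.br (nat_lit 1) (.cons (.br (nat_lit 2) (.cons (.rel (nat_lit 83888640)) .nil)) .nil)) .leaf) (nat_lit 13827894020501013) (.br (nat_lit 1) (.cons (.br (nat_lit 2) (.cons (.rel (nat_lit 83895297)) .nil)) .nil)) .leaf) (nat_lit 13834330732817941) (.br (nat_lit 1) (.cons (.br (nat_lit 2) (.cons (.rel (nat_lit 83890434)) .nil)) .nil)) (.node .leaf (nat_lit 13834330734080057) (.br (nat_lit 0) (.cons (.br (nat_lit 1) (.cons (.rel (nat_lit 20987970)) .nil)) .nil)) .leaf)) (nat_lit 13834330734081557) (.br (nat_lit 1) (.cons (.br (nat_lit 3) (.cons (.rel (nat_lit 285298944)) .nil)) .nil)) (.node (.node .leaf (nat_lit 13834330735369749) (.br (nat_lit 1) (.cons (.br (nat_lit 3) (.cons (.rel (nat_lit 285376512)) .nil)) .nil)) .leaf) (nat_lit 13840658663441941) (.br (nat_lit 0) (.cons (.br (nat_lit 3) (.cons (.rel (nat_lit 272654592)) .nil))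 .nil)) (.node .leaf (nat_lit 14169703653855913) (.br (nat_lit 0) (.cons (.br (nat_lit 1) (.cons (.rel (nat_lit 21561345)) .nil)) .nil)) .leaf)))

/-- refutations 19 -/
def e19 : EX := (.node (.node (.node (.node (.node (.node .leaf (nat_lit 15393166041298428) (.br (nat_lit 3) (.cons (.br (nat_lit 0) (.cons (.rel (nat_lit 272631048)) (.cons (.rel (nat_lit 272654592)) .nil))) .nil)) .leaf) (nat_lit 15393223998189868) (.br (nat_lit 1) (.cons (.br (nat_lit 3) (.cons (.rel (nat_lit 570429696)) .nil)) .nil)) (.node .leaf (nat_lit 15393223998190943) (.br (nat_lit 1) (.cons (.br (nat_lit 3) (.cons (.rel (nat_lit 554696964)) .nil)) .nil)) .leaf)) (nat_lit 15393228372405510) (.br (nat_lit 1) (.cons (.br (nat_lit 2) (.cons (.rel (nat_lit 83888640)) .nil)) .nil)) (.node (.node .leaf (nat_lit 15393228372849571) (.br (nat_lit 0) (.cons (.br (nat_lit 3) (.cons (.rel (nat_lit 545325312)) .nil)) .nil)) .leaf) (nat_lit 15393228372849926) (.br (nat_lit 1) (.cons (.br (nat_lit 3) (.cons (.rel (nat_lit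 303104064)) (.cons (.rel (nat_lit 285376512)) .nil))) (.cons (.br (nat_lit 3) (.cons (.rel (nat_lit 285221376)) (.cons (.rel (nat_lit 285213954)) .nil))) .nil))) .leaf)) (nat_lit 15393228372850072) (.br (nat_lit 1) (.cons (.br (nat_lit 3) (.cons (.rel (nat_lit 570429696)) .nil)) .nil)) (.node (.node (.node .leaf (nat_lit 15393228374137507) (.br (nat_lit 1) (.cons (.br (nat_lit 3) (.cons (.rel (nat_lit 285212949)) .nil)) .nil)) .leaf) (nat_lit 15393597559690527) (.br (nat_lit 1) (.cons (.br (nat_lit 3) (.cons (.rel (nat_lit 285376512)) .nil)) .nil)) (.node .leaf (nat_lit 15393692274993783) (.br (nat_lit 0) (.cons (.br (nat_lit 5) (.cons (.rel (nat_lit 4299195456)) .nil)) .nil)) .leaf)) (nat_lit 15393692274994463) (.br (nat_lit 1) (.cons (.br (nat_lit 3) (.cons (.rel (nat_lit 285376512)) .nil)) .nil)) (.node (.node .leaf (nat_lit 15393692274994709) (.br (nat_lit 1) (.cons (.br (nat_lit 2) (.cons (.rel (nat_lit 152043552)) .nil)) .nil)) .leaf) (nat_lit 15393692275147683) (.br (nat_lit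 0) (.cons (.br (nat_lit 2) (.cons (.rel (nat_lit 71311377)) .nil)) .nil)) .leaf))) (nat_lit 15393692275148138) (.br (nat_lit 2) (.cons (.br (nat_lit 1) (.cons (.rel (nat_lit 83888640)) (.cons (.rel (nat_lit 84934788)) .nil))) .nil)) (.node (.node (.node (.node .leaf (nat_lit 15395591577940875) (.br (nat_lit 1) (.cons (.br (nat_lit 3) (.cons (.rel (nat_lit 570507264)) .nil)) .nil)) .leaf) (nat_lit 15395840073231622) (.br (nat_lit 1) (.cons (.br (nat_lit 3) (.cons (.rel (nat_lit 285478980)) .nil)) .nil)) (.node .leaf (nat_lit 15395840073231711) (.br (nat_lit 1) (.cons (.br (nat_lit 3) (.cons (.rel (nat_lit 553650240)) .nil)) .nil)) .leaf)) (nat_lit 15395840073231768) (.br (nat_lit 1) (.cons (.br (nat_lit 6) (.cons (.rel (nat_lit 17196687360)) .nil)) .nil)) (.node (.node .leaf (nat_lit 15395840073231872) (.br (nat_lit 3) (.cons (.br (nat_lit 1) (.cons (.rel (nat_lit 285217812)) (.cons (.rel (nat_lit 286540032)) .nil))) .nil)) .leaf) (nat_lit 15395840073377030) (.br (nat_lit 1)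 (.cons (.br (nat_lit 3) (.cons (.rel (nat_lit 285376512)) .nil)) .nil)) .leaf)) (nat_lit 15395840073377119) (.br (nat_lit 1) (.cons (.br (nat_lit 3) (.cons (.rel (nat_lit 285221376)) .nil)) .nil)) (.node (.node (.node .leaf (nat_lit 15395840073377180) (.br (nat_lit 1) (.cons (.br (nat_lit 3) (.cons (.rel (nat_lit 285212949)) .nil)) .nil)) .leaf) (nat_lit 15395840073385322) (.br (nat_lit 0) (.cons (.br (nat_lit 1) (.cons (.rel (nat_lit 22052880)) .nil)) .nil)) (.node .leaf (nat_lit 15395840073675659) (.br (nat_lit 0) (.cons (.br (nat_lit 1) (.cons (.rel (nat_lit 20971848)) .nil)) .nil)) .leaf)) (nat_lit 15395840073676038) (.br (nat_lit 3) (.cons (.br (nat_lit 0) (.cons (.rel (nat_lit 272761344)) (.cons (.rel (nat_lit 272695329)) .nil))) .nil)) (.node (.node .leaf (nat_lit 15395840073676127) (.br (nat_lit 1) (.cons (.br (nat_lit 3) (.cons (.rel (nat_lit 285218817)) (.cons (.rel (nat_lit 285255696)) .nil))) (.cons (.br (nat_lit 3) (.cons (.rel (nat_lit 570429696)) (.cons (.rel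 (nat_lit 301991040)) .nil))) .nil))) .leaf) (nat_lit 15395840073676184) (.br (nat_lit 1) (.cons (.br (nat_lit 0) (.cons (.rel (nat_lit 21499908)) (.cons (.rel (nat_lit 21499908)) .nil))) .nil)) .leaf)))) (nat_lit 15395840074759044) (.br (nat_lit 0) (.cons (.br (nat_lit 1) (.cons (.rel (nat_lit 22151172)) .nil)) .nil)) (.node (.node (.node (.node (.node .leaf (nat_lit 15398812191044345) (.br (nat_lit 0) (.cons (.br (nat_lit 1) (.cons (.rel (nat_lit 25165830)) .nil)) .nil)) .leaf) (nat_lit 15399614359766528) (.br (nat_lit 0) (.cons (.br (nat_lit 2) (.cons (.rel (nat_lit 71335968)) (.cons (.rel (nat_lit 71373828)) .nil))) (.cons (.br (nat_lit 2) (.cons (.rel (nat_lit 71311377)) (.cons (.rel (nat_lit 71304720)) .nil))) .nil))) (.node .leaf (nat_lit 15399617711322524) (.br (nat_lit 0) (.cons (.br (nat_lit 3) (.cons (.rel (nat_lit 542130180)) .nil)) .nil)) .leaf)) (nat_lit 15399651881872735) (.br (nat_lit 0) (.cons (.br (nat_lit 4) (.cons (.rel (nat_lit 2155872273)) .nil)) .nil))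 (.node (.node .leaf (nat_lit 15401109737237380) (.br (nat_lit 0) (.cons (.br (nat_lit 3) (.cons (.rel (nat_lit 272630034)) .nil)) .nil)) .leaf) (nat_lit 15401109738201220) (.br (nat_lit 0) (.cons (.br (nat_lit 1) (.cons (.rel (nat_lit 37748745)) .nil)) .nil)) .leaf)) (nat_lit 15401109738202474) (.br (nat_lit 3) (.cons (.br (nat_lit 0) (.cons (.rel (nat_lit 272761344)) (.cons (.rel (nat_lit 272761344)) .nil))) .nil)) (.node (.node (.node .leaf (nat_lit 15401109738501482) (.br (nat_lit 1) (.cons (.br (nat_lit 0) (.cons (.rel (nat_lit 20975697)) (.cons (.rel (nat_lit 25165830)) .nil))) .nil)) .leaf) (nat_lit 15403900989092101) (.br (nat_lit 1) (.cons (.br (nat_lit 3) (.cons (.rel (nat_lit 285213954)) .nil)) .nil)) (.node .leaf (nat_lit 15403903379555615) (.br (nat_lit 0) (.cons (.br (nat_lit 1) (.cons (.rel (nat_lit 25239552)) .nil)) .nil)) .leaf)) (nat_lit 15405028110550367) (.br (nat_lit 0) (.cons (.br (nat_lit 4) (.cons (.rel (nat_lit 1078084608)) .nil)) .nil)) (.node (.node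 .leaf (nat_lit 15405028111824223) (.br (nat_lit 3) (.cons (.br (nat_lit 4) (.cons (.rel (nat_lit 1342177416)) .nil)) .nil)) .leaf) (nat_lit 15405408899657240) (.br (nat_lit 0) (.cons (.br (nat_lit 1) (.cons (.rel (nat_lit 22052880)) .nil)) .nil)) .leaf))) (nat_lit 15405408899800470) (.br (nat_lit 0) (.cons (.br (nat_lit 3) (.cons (.rel (nat_lit 272633892)) (.cons (.rel (nat_lit 272761344)) .nil))) .nil)) (.node (.node (.node (.node .leaf (nat_lit 15405408899801720) (.br (nat_lit 0) (.cons (.br (nat_lit 1) (.cons (.rel (nat_lit 22052880)) .nil)) .nil)) .leaf) (nat_lit 15405408899802374) (.br (nat_lit 3) (.cons (.br (nat_lit 6) (.cons (.rel (nat_lit 17448570897)) .nil)) .nil)) (.node .leaf (nat_lit 15405408899802520) (.br (nat_lit 0) (.cons (.br (nat_lit 3) (.cons (.rel (nat_lit 272633892)) .nil)) .nil)) .leaf)) (nat_lit 15405408900101382) (.br (nat_lit 0) (.cons (.br (nat_lit 3) (.cons (.br (nat_lit 2) (.cons (.rel (nat_lit 71335968)) (.cons (.rel (nat_lit 71311377)) (.cons (.rel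 (nat_lit 335823120)) (.cons (.rel (nat_lit 335876097)) (.cons (.rel (nat_lit 335823120)) .nil)))))) (.cons (.rel (nat_lit 272633892)) (.cons (.rel (nat_lit 272761344)) (.cons (.rel (nat_lit 272761344)) .nil))))) .nil)) (.node (.node .leaf (nat_lit 15406139044541702) (.br (nat_lit 0) (.cons (.br (nat_lit 3) (.cons (.rel (nat_lit 272647170)) (.cons (.rel (nat_lit 272697348)) .nil))) .nil)) .leaf) (nat_lit 15406267704372730) (.br (nat_lit 0) (.cons (.br (nat_lit 3) (.cons (.rel (nat_lit 272634897)) .nil)) .nil)) .leaf)) (nat_lit 15406267705654155) (.br (nat_lit 0) (.cons (.br (nat_lit 1) (.cons (.rel (nat_lit 20971848)) .nil)) .nil)) (.node (.node (.node .leaf (nat_lit 15499150671762709) (.br (nat_lit 3) (.cons (.br (nat_lit 4) (.cons (.rel (nat_lit 2415919392)) .nil)) .nil)) .leaf) (nat_lit 15499841964355846) (.br (nat_lit 0) (.cons (.br (nat_lit 1) (.cons (.rel (nat_lit 21038148)) .nil)) .nil)) .leaf) (nat_lit 15511614851406750) (.br (nat_lit 0) (.cons (.br (nat_lit 3) (.cons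 (.rel (nat_lit 272654592)) .nil)) .nil)) (.node (.node .leaf (nat_lit 15512121472696996) (.br (nat_lit 5) (.cons (.br (nat_lit 6) (.cons (.rel (nat_lit 21474844692)) .nil)) .nil)) .leaf) (nat_lit 15512121472697707) (.br (nat_lit 1) (.cons (.br (nat_lit 3) (.cons (.rel (nat_lit 285298944)) .nil)) .nil)) .leaf)))))

/-- refutations 20 -/
def e20 : EX := (.node (.node (.node (.node (.node .leaf (nat_lit 15881089031353606) (.br (nat_lit 1) (.cons (.br (nat_lit 2) (.cons (.rel (nat_lit 100992000)) .nil)) .nil)) .leaf) (nat_lit 15956173951312172) (.br (nat_lit 0) (.cons (.br (nat_lit 3) (.cons (.rel (nat_lit 272631048)) .nil)) .nil)) .leaf) (nat_lit 15956178145455637) (.br (nat_lit 1) (.cons (.br (nat_lit 2) (.cons (.rel (nat_lit 83895297)) .nil)) .nil)) (.node (.node .leaf (nat_lit 15957281088182573) (.br (nat_lit 0) (.cons (.br (nat_lit 1) (.cons (.rel (nat_lit 20975697)) .nil)) .nil)) .leaf) (nat_lit 15957282069951400) (.br (nat_lit 2) (.cons (.br (nat_lit 3) (.cons (.rel (nat_lit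 335544960)) .nil)) .nil)) .leaf)) (nat_lit 15957284255184284) (.br (nat_lit 1) (.cons (.br (nat_lit 5) (.cons (.rel (nat_lit 4311875649)) .nil)) .nil)) (.node (.node (.node .leaf (nat_lit 15961759611106662) (.br (nat_lit 1) (.cons (.br (nat_lit 2) (.cons (.rel (nat_lit 83906565)) .nil)) .nil)) .leaf) (nat_lit 15961759612198300) (.br (nat_lit 1) (.cons (.br (nat_lit 2) (.cons (.rel (nat_lit 83895297)) .nil)) .nil)) .leaf) (nat_lit 15966852785100811) (.br (nat_lit 0) (.cons (.br (nat_lit 1) (.cons (.rel (nat_lit 20987970)) .nil)) .nil)) (.node .leaf (nat_lit 15968202061751708) (.br (nat_lit 1) (.cons (.br (nat_lit 3) (.cons (.rel (nat_lit 570429696)) .nil)) .nil)) .leaf))) (nat_lit 15968202063142139) (.br (nat_lit 1) (.cons (.br (nat_lit 3) (.cons (.rel (nat_lit 286540032)) .nil)) .nil)) (.node (.node (.node (.node .leaf (nat_lit 15969092869005337) (.br (nat_lit 0) (.cons (.br (nat_lit 2) (.cons (.rel (nat_lit 71335968)) (.cons (.rel (nat_lit 71304720)) (.cons (.rel (nat_lit 71323650))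 .nil)))) .nil)) .leaf) (nat_lit 15969092869005462) (.br (nat_lit 0) (.cons (.br (nat_lit 2) (.cons (.rel (nat_lit 72351873)) .nil)) .nil)) .leaf) (nat_lit 15969092869005998) (.br (nat_lit 0) (.cons (.br (nat_lit 3) (.cons (.rel (nat_lit 272633892)) .nil)) .nil)) (.node (.node .leaf (nat_lit 15969092870395911) (.br (nat_lit 0) (.cons (.br (nat_lit 1) (.cons (.rel (nat_lit 25428048)) .nil)) .nil)) .leaf) (nat_lit 15969094966457577) (.br (nat_lit 0) (.cons (.br (nat_lit 3) (.cons (.rel (nat_lit 272647170)) .nil)) .nil)) .leaf)) (nat_lit 15969095414949276) (.br (nat_lit 1) (.cons (.br (nat_lit 2) (.cons (.rel (nat_lit 83888640)) .nil)) .nil)) (.node (.node (.node .leaf (nat_lit 15969235572109363) (.br (nat_lit 0) (.cons (.br (nat_lit 2) (.cons (.rel (nat_lit 139462656)) .nil)) .nil)) .leaf) (nat_lit 15969235572110569) (.br (nat_lit 0) (.cons (.br (nat_lit 1) (.cons (.rel (nat_lit 25198848)) .nil)) .nil)) .leaf) (nat_lit 15969235572110742) (.br (nat_lit 2) (.cons (.br (nat_lit 4)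 (.cons (.rel (nat_lit 1140851088)) .nil)) .nil)) (.node .leaf (nat_lit 15969484076233990) (.br (nat_lit 3) (.cons (.br (nat_lit 4) (.cons (.rel (nat_lit 1342177416)) .nil)) .nil)) .leaf))))

/-- refutations 21 -/
def e21 : EX := (.node (.node (.node (.node (.node (.node .leaf (nat_lit 16448705319941397) (.br (nat_lit 2) (.cons (.br (nat_lit 4) (.cons (.rel (nat_lit 1207975938)) .nil)) .nil)) .leaf) (nat_lit 16448705319941498) (.br (nat_lit 2) (.cons (.br (nat_lit 6) (.cons (.br (nat_lit 4) (.cons (.rel (nat_lit 18253611138)) (.cons (.rel (nat_lit 18253874181)) .nil))) .nil)) .nil)) .leaf) (nat_lit 16448707932992789) (.br (nat_lit 4) (.cons (.br (nat_lit 1) (.cons (.rel (nat_lit 1090651392)) (.cons (.rel (nat_lit 1090539777)) .nil))) .nil)) (.node (.node .leaf (nat_lit 16449127162065827) (.br (nat_lit 0) (.cons (.br (nat_lit 1) (.cons (.rel (nat_lit 21561345)) .nil)) .nil)) .leaf) (nat_lit 16449862415168990) (.br (nat_lit 2) (.cons (.br (nat_lit 5) (.cons (.rel (nat_lit 4362076170))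 .nil)) .nil)) .leaf)) (nat_lit 16449862838349308) (.br (nat_lit 0) (.cons (.br (nat_lit 2) (.cons (.rel (nat_lit 71373828)) .nil)) .nil)) (.node (.node (.node .leaf (nat_lit 16449867997343228) (.br (nat_lit 0) (.cons (.br (nat_lit 5) (.cons (.rel (nat_lit 4299686400)) (.cons (.rel (nat_lit 4299169860)) .nil))) .nil)) .leaf) (nat_lit 16449867997786119) (.br (nat_lit 1) (.cons (.br (nat_lit 2) (.cons (.rel (nat_lit 83888640)) .nil)) .nil)) .leaf) (nat_lit 16449867997786913) (.br (nat_lit 0) (.cons (.br (nat_lit 2) (.cons (.rel (nat_lit 71311377)) .nil)) .nil)) (.node (.node .leaf (nat_lit 16449867998555498) (.br (nat_lit 0) (.cons (.br (nat_lit 2) (.cons (.rel (nat_lit 71323650)) .nil)) .nil)) .leaf) (nat_lit 16449867998878958) (.br (nat_lit 2) (.cons (.br (nat_lit 4) (.cons (.rel (nat_lit 2284064772)) .nil)) .nil)) .leaf))) (nat_lit 16449867998879132) (.br (nat_lit 4) (.cons (.br (nat_lit 5) (.cons (.rel (nat_lit 5368742400)) .nil)) .nil)) (.node (.node (.node (.node .leaf (nat_lit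 16449867999077027) (.br (nat_lit 0) (.cons (.br (nat_lit 2) (.cons (.rel (nat_lit 71335968)) .nil)) .nil)) .leaf) (nat_lit 16454171634708506) (.br (nat_lit 0) (.cons (.br (nat_lit 1) (.cons (.rel (nat_lit 20987970)) .nil)) .nil)) .leaf) (nat_lit 16454535339284635) (.br (nat_lit 1) (.cons (.br (nat_lit 0) (.cons (.rel (nat_lit 25166880)) (.cons (.rel (nat_lit 22021632)) .nil))) .nil)) (.node (.node .leaf (nat_lit 16454535339586297) (.br (nat_lit 0) (.cons (.br (nat_lit 1) (.cons (.rel (nat_lit 25166880)) .nil)) .nil)) .leaf) (nat_lit 16454535339586972) (.br (nat_lit 2) (.cons (.br (nat_lit 3) (.cons (.br (nat_lit 5) (.cons (.rel (nat_lit 4832894976)) .nil)) .nil)) .nil)) .leaf)) (nat_lit 16454538388845980) (.br (nat_lit 4) (.cons (.br (nat_lit 5) (.cons (.rel (nat_lit 5368709382)) .nil)) .nil)) (.node (.node (.node .leaf (nat_lit 16454540922205435) (.br (nat_lit 0) (.cons (.br (nat_lit 1) (.cons (.rel (nat_lit 25166880)) .nil)) .nil)) .leaf) (nat_lit 16455568677679254) (.br (nat_lit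 1) (.cons (.br (nat_lit 2) (.cons (.rel (nat_lit 83895297)) .nil)) .nil)) .leaf) (nat_lit 16455571713912344) (.br (nat_lit 0) (.cons (.br (nat_lit 1) (.cons (.rel (nat_lit 20971848)) .nil)) .nil)) (.node (.node .leaf (nat_lit 16455571714056443) (.br (nat_lit 1) (.cons (.br (nat_lit 2) (.cons (.br (nat_lit 0) (.cons (.rel (nat_lit 20971848)) (.cons (.rel (nat_lit 71385096)) .nil))) .nil)) .nil)) .leaf) (nat_lit 16455571714355875) (.br (nat_lit 0) (.cons (.br (nat_lit 1) (.cons (.rel (nat_lit 21561345)) .nil)) .nil)) .leaf)))) (nat_lit 16455571714356077) (.br (nat_lit 0) (.cons (.br (nat_lit 1) (.cons (.rel (nat_lit 20971848)) .nil)) .nil)) (.node (.node (.node (.node (.node .leaf (nat_lit 16456310087575863) (.br (nat_lit 1) (.cons (.br (nat_lit 4) (.cons (.rel (nat_lit 1090519077)) .nil)) .nil)) .leaf) (nat_lit 16456310087721271) (.br (nat_lit 0) (.cons (.br (nat_lit 1) (.cons (.rel (nat_lit 20975697)) .nil)) .nil)) .leaf) (nat_lit 16460809053218971) (.br (nat_lit 2) (.cons (.br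 (nat_lit 3) (.cons (.rel (nat_lit 603981057)) .nil)) .nil)) (.node (.node .leaf (nat_lit 16461816595544090) (.br (nat_lit 0) (.cons (.br (nat_lit 1) (.cons (.rel (nat_lit 20987970)) .nil)) .nil)) .leaf) (nat_lit 16461816595576170) (.br (nat_lit 1) (.cons (.br (nat_lit 0) (.cons (.rel (nat_lit 20971848)) (.cons (.rel (nat_lit 37748745)) .nil))) .nil)) .leaf)) (nat_lit 16461816596504577) (.br (nat_lit 0) (.cons (.br (nat_lit 1) (.cons (.rel (nat_lit 22151172)) .nil)) .nil)) (.node (.node (.node .leaf (nat_lit 16461816596504827) (.br (nat_lit 3) (.cons (.br (nat_lit 4) (.cons (.rel (nat_lit 1343766528)) .nil)) .nil)) .leaf) (nat_lit 16461816596504863) (.br (nat_lit 0) (.cons (.br (nat_lit 4) (.cons (.rel (nat_lit 1077938181)) .nil)) .nil)) .leaf) (nat_lit 16461816596504881) (.br (nat_lit 0) (.cons (.br (nat_lit 3) (.cons (.rel (nat_lit 272761344)) (.cons (.rel (nat_lit 272647170)) (.cons (.rel (nat_lit 272633892)) (.cons (.rel (nat_lit 272695329)) .nil))))) .nil)) (.node (.node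 .leaf (nat_lit 16461816596505203) (.br (nat_lit 2) (.cons (.br (nat_lit 0) (.cons (.rel (nat_lit 71311377)) (.cons (.rel (nat_lit 71304720)) (.cons (.rel (nat_lit 71434260)) .nil)))) (.cons (.br (nat_lit 5) (.cons (.rel (nat_lit 4362077220)) (.cons (.rel (nat_lit 4362076170)) .nil))) .nil))) .leaf) (nat_lit 16461816596505337) (.br (nat_lit 0) (.cons (.br (nat_lit 1) (.cons (.br (nat_lit 5) (.cons (.rel (nat_lit 4311875649)) .nil)) .nil)) .nil)) .leaf))) (nat_lit 16461816596803721) (.br (nat_lit 2) (.cons (.br (nat_lit 5) (.cons (.rel (nat_lit 8724152325)) .nil)) .nil)) (.node (.node (.node (.node .leaf (nat_lit 16461816596803889) (.br (nat_lit 1) (.cons (.br (nat_lit 0) (.cons (.rel (nat_lit 39124992)) (.cons (.rel (nat_lit 22028289)) (.cons (.rel (nat_lit 21561345)) .nil)))) .nil)) .leaf) (nat_lit 16461816596804259) (.br (nat_lit 0) (.cons (.br (nat_lit 5) (.cons (.br (nat_lit 1) (.cons (.rel (nat_lit 4312795137)) (.cons (.rel (nat_lit 4311875649)) .nil))) (.cons (.rel (nat_lit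 8598585600)) .nil))) (.cons (.br (nat_lit 1) (.cons (.rel (nat_lit 20971848)) (.cons (.rel (nat_lit 37883904)) .nil))) .nil))) .leaf) (nat_lit 16461816596804461) (.br (nat_lit 1) (.cons (.br (nat_lit 2) (.cons (.rel (nat_lit 83888640)) (.cons (.rel (nat_lit 83888640)) (.cons (.rel (nat_lit 83894292)) .nil)))) (.cons (.br (nat_lit 2) (.cons (.rel (nat_lit 167773440)) (.cons (.rel (nat_lit 84934788)) (.cons (.rel (nat_lit 151003200)) .nil)))) .nil))) (.node (.node .leaf (nat_lit 16461816596804515) (.br (nat_lit 0) (.cons (.br (nat_lit 1) (.cons (.rel (nat_lit 20971848)) (.cons (.rel (nat_lit 22028289)) .nil))) .nil)) .leaf) (nat_lit 16461816596804986) (.br (nat_lit 1) (.cons (.br (nat_lit 2) (.cons (.rel (nat_lit 83895297)) .nil)) .nil)) .leaf)) (nat_lit 16461816596805084) (.br (nat_lit 0) (.cons (.br (nat_lit 2) (.cons (.rel (nat_lit 71323650)) .nil)) .nil)) (.node (.node (.node .leaf (nat_lit 16461816597775087) (.br (nat_lit 0) (.cons (.br (nat_lit 1) (.cons (.rel (nat_lit 21561345))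 .nil)) .nil)) .leaf) (nat_lit 16461817335001238) (.br (nat_lit 0) (.cons (.br (nat_lit 1) (.cons (.rel (nat_lit 20971848)) .nil)) .nil)) .leaf) (nat_lit 16461817335001965) (.br (nat_lit 0) (.cons (.br (nat_lit 1) (.cons (.rel (nat_lit 21038148)) (.cons (.rel (nat_lit 20975697)) .nil))) .nil)) (.node .leaf (nat_lit 16461817335002588) (.br (nat_lit 4) (.cons (.br (nat_lit 0) (.cons (.rel (nat_lit 1078002177)) (.cons (.rel (nat_lit 2155872273)) (.cons (.rel (nat_lit 1077936162)) .nil)))) .nil)) .leaf)))))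

/-- refutations 22 -/
def e22 : EX := (.node (.node (.node (.node (.node (.node (.node (.node .leaf (nat_lit 22183961982449714) (.br (nat_lit 2) (.cons (.br (nat_lit 4) (.cons (.rel (nat_lit 1208026116)) .nil)) .nil)) .leaf) (nat_lit 22183961982450950) (.br (nat_lit 2) (.cons (.br (nat_lit 4) (.cons (.rel (nat_lit 1141178376)) (.cons (.rel (nat_lit 1140868224)) .nil))) .nil)) (.node .leaf (nat_lit 22183967148458909) (.br (nat_lit 3) (.cons (.br (nat_lit 1) (.cons (.rel (nat_lit 285298944)) (.cons (.rel (nat_lit 285376512)) .nil))) .nil)) .leaf)) (nat_lit 22183967148459359) (.br (nat_lit 2) (.cons (.br (nat_lit 3) (.cons (.rel (nat_lit 402673668)) .nil)) .nil)) (.node (.node .leaf (nat_lit 22184059511211416) (.br (nat_lit 1) (.cons (.br (nat_lit 3) (.cons (.rel (nat_lit 285540417)) .nil)) .nil)) .leaf) (nat_lit 22184059511211516) (.br (nat_lit 3) (.cons (.br (nat_lit 5) (.cons (.rel (nat_lit 4563533844)) .nil)) .nil)) (.node .leaf (nat_lit 22184059511518616) (.br (nat_lit 3)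 (.cons (.br (nat_lit 5) (.cons (.rel (nat_lit 4564714500)) (.cons (.rel (nat_lit 4563407112)) .nil))) (.cons (.br (nat_lit 5) (.cons (.rel (nat_lit 4563404304)) (.cons (.rel (nat_lit 4564451457)) .nil))) .nil))) .leaf))) (nat_lit 22184059511518741) (.br (nat_lit 1) (.cons (.br (nat_lit 3) (.cons (.rel (nat_lit 570507264)) .nil)) .nil)) (.node (.node (.node .leaf (nat_lit 22184059512808856) (.br (nat_lit 3) (.cons (.br (nat_lit 6) (.cons (.rel (nat_lit 34628308992)) .nil)) .nil)) .leaf) (nat_lit 22184061106644376) (.br (nat_lit 3) (.cons (.br (nat_lit 6) (.cons (.rel (nat_lit 17716740102)) .nil)) .nil)) (.node .leaf (nat_lit 22184061233840278) (.br (nat_lit 0) (.cons (.br (nat_lit 1) (.cons (.rel (nat_lit 20971848)) .nil)) .nil)) .leaf)) (nat_lit 22184061234148614) (.br (nat_lit 0) (.cons (.br (nat_lit 1) (.cons (.rel (nat_lit 37750800)) (.cons (.rel (nat_lit 37748745)) .nil))) .nil)) (.node (.node .leaf (nat_lit 22184176670550952) (.br (nat_lit 5) (.cons (.br (nat_lit 6) (.cons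 (.rel (nat_lit 21474839040)) .nil)) .nil)) .leaf) (nat_lit 22184176670559144) (.br (nat_lit 1) (.cons (.br (nat_lit 2) (.cons (.rel (nat_lit 83902752)) .nil)) .nil)) .leaf))) (nat_lit 22184176670720632) (.br (nat_lit 1) (.cons (.br (nat_lit 2) (.cons (.rel (nat_lit 83888640)) .nil)) .nil)) (.node (.node (.node (.node .leaf (nat_lit 22184176670721561) (.br (nat_lit 0) (.cons (.br (nat_lit 1) (.cons (.rel (nat_lit 21561345)) .nil)) .nil)) .leaf) (nat_lit 22184176671011127) (.br (nat_lit 0) (.cons (.br (nat_lit 1) (.cons (.rel (nat_lit 25165830)) .nil)) .nil)) (.node .leaf (nat_lit 22184176832754296) (.br (nat_lit 1) (.cons (.br (nat_lit 2) (.cons (.rel (nat_lit 83919888)) .nil)) .nil)) .leaf)) (nat_lit 22184176834144281) (.br (nat_lit 1) (.cons (.br (nat_lit 4) (.cons (.rel (nat_lit 1090539777)) .nil)) .nil)) (.node (.node .leaf (nat_lit 22184176834282104) (.br (nat_lit 1) (.cons (.br (nat_lit 4) (.cons (.rel (nat_lit 1090617345)) .nil)) .nil)) .leaf) (nat_lit 22184176834289671)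 (.br (nat_lit 0) (.cons (.br (nat_lit 4) (.cons (.rel (nat_lit 1077938181)) .nil)) .nil)) (.node .leaf (nat_lit 22184176834289689) (.br (nat_lit 1) (.cons (.br (nat_lit 2) (.cons (.rel (nat_lit 103024704)) .nil)) .nil)) .leaf))) (nat_lit 22184176834290296) (.br (nat_lit 1) (.cons (.br (nat_lit 4) (.cons (.rel (nat_lit 1090781250)) .nil)) .nil)) (.node (.node (.node .leaf (nat_lit 22184176834588697) (.br (nat_lit 1) (.cons (.br (nat_lit 2) (.cons (.rel (nat_lit 83955729)) .nil)) .nil)) .leaf) (nat_lit 22184176834588858) (.br (nat_lit 1) (.cons (.br (nat_lit 5) (.cons (.rel (nat_lit 4311745104)) .nil)) .nil)) (.node .leaf (nat_lit 22184176834605688) (.br (nat_lit 1) (.cons (.br (nat_lit 2) (.cons (.rel (nat_lit 167773440)) .nil)) .nil)) .leaf)) (nat_lit 22184176835357304) (.br (nat_lit 2) (.cons (.br (nat_lit 4) (.cons (.rel (nat_lit 1141116930)) (.cons (.rel (nat_lit 1207975938)) .nil))) .nil)) (.node (.node .leaf (nat_lit 22184176835680888) (.br (nat_lit 1) (.cons (.br (nat_lit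 2) (.cons (.rel (nat_lit 167773440)) .nil)) .nil)) .leaf) (nat_lit 22184177281544503) (.br (nat_lit 0) (.cons (.br (nat_lit 2) (.cons (.rel (nat_lit 71304720)) .nil)) .nil)) .leaf)))) (nat_lit 22184177281545128) (.br (nat_lit 0) (.cons (.br (nat_lit 1) (.cons (.rel (nat_lit 22021632)) .nil)) .nil)) (.node (.node (.node (.node (.node .leaf (nat_lit 22184177282918550) (.br (nat_lit 0) (.cons (.br (nat_lit 2) (.cons (.rel (nat_lit 71435265)) (.cons (.rel (nat_lit 71335968)) .nil))) .nil)) .leaf) (nat_lit 22184177282919657) (.br (nat_lit 0) (.cons (.br (nat_lit 1) (.cons (.rel (nat_lit 21038148)) (.cons (.rel (nat_lit 21561345)) .nil))) (.cons (.br (nat_lit 1) (.cons (.rel (nat_lit 21561345)) (.cons (.rel (nat_lit 20987970)) .nil))) .nil))) (.node .leaf (nat_lit 22184177282919900) (.br (nat_lit 0) (.cons (.br (nat_lit 1) (.cons (.rel (nat_lit 21038148)) .nil)) .nil)) .leaf)) (nat_lit 22184177282935416) (.br (nat_lit 1) (.cons (.br (nat_lit 3) (.cons (.rel (nat_lit 570507264)) .nil))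 .nil)) (.node (.node .leaf (nat_lit 22184177283072632) (.br (nat_lit 1) (.cons (.br (nat_lit 3) (.cons (.rel (nat_lit 285298944)) .nil)) .nil)) .leaf) (nat_lit 22184177283073386) (.br (nat_lit 1) (.cons (.br (nat_lit 2) (.cons (.rel (nat_lit 83890434)) .nil)) .nil)) (.node .leaf (nat_lit 22184177283088391) (.br (nat_lit 0) (.cons (.br (nat_lit 1) (.cons (.rel (nat_lit 39124992)) .nil)) .nil)) .leaf))) (nat_lit 22184177283089320) (.br (nat_lit 1) (.cons (.br (nat_lit 5) (.cons (.rel (nat_lit 4311745104)) .nil)) .nil)) (.node (.node (.node .leaf (nat_lit 22184177283379350) (.br (nat_lit 5) (.cons (.br (nat_lit 1) (.cons (.rel (nat_lit 4311762240)) (.cons (.rel (nat_lit 4312795137)) .nil))) .nil)) .leaf) (nat_lit 22184177283380100) (.br (nat_lit 0) (.cons (.br (nat_lit 3) (.cons (.rel (nat_lit 272761344)) .nil)) .nil)) (.node .leaf (nat_lit 22184177284147350) (.br (nat_lit 0) (.cons (.br (nat_lit 2) (.cons (.rel (nat_lit 71307528)) (.cons (.rel (nat_lit 71307528)) .nil))) .nil))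 .leaf)) (nat_lit 22184177284148725) (.br (nat_lit 0) (.cons (.br (nat_lit 1) (.cons (.rel (nat_lit 22021632)) .nil)) .nil)) (.node (.node .leaf (nat_lit 22184179291991273) (.br (nat_lit 2) (.cons (.br (nat_lit 4) (.cons (.rel (nat_lit 1140868224)) .nil)) .nil)) .leaf) (nat_lit 22184179291991402) (.br (nat_lit 4) (.cons (.br (nat_lit 0) (.cons (.rel (nat_lit 1077940740)) (.cons (.rel (nat_lit 1077960720)) .nil))) .nil)) .leaf))) (nat_lit 22184179291991416) (.br (nat_lit 4) (.cons (.br (nat_lit 5) (.cons (.rel (nat_lit 5368710432)) (.cons (.rel (nat_lit 5368971600)) .nil))) .nil)) (.node (.node (.node (.node .leaf (nat_lit 22184179291991577) (.br (nat_lit 4) (.cons (.br (nat_lit 0) (.cons (.rel (nat_lit 1077937176)) (.cons (.rel (nat_lit 2155872273)) .nil))) .nil)) .leaf) (nat_lit 22184179292144248) (.br (nat_lit 1) (.cons (.br (nat_lit 4) (.cons (.rel (nat_lit 1090617345)) .nil)) .nil)) (.node .leaf (nat_lit 22184179292153194) (.br (nat_lit 0) (.cons (.br (nat_lit 1) (.cons (.rel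 (nat_lit 21012576)) .nil)) .nil)) .leaf)) (nat_lit 22184179292161257) (.br (nat_lit 2) (.cons (.br (nat_lit 0) (.cons (.rel (nat_lit 71304720)) (.cons (.rel (nat_lit 71368965)) .nil))) .nil)) (.node (.node .leaf (nat_lit 22184179292161400) (.br (nat_lit 2) (.cons (.br (nat_lit 3) (.cons (.rel (nat_lit 671088960)) .nil)) .nil)) .leaf) (nat_lit 22184179292452102) (.br (nat_lit 1) (.cons (.br (nat_lit 3) (.cons (.rel (nat_lit 285221376)) .nil)) .nil)) .leaf)) (nat_lit 22184179293220341) (.br (nat_lit 2) (.cons (.br (nat_lit 3) (.cons (.rel (nat_lit 335840256)) .nil)) .nil)) (.node (.node (.node .leaf (nat_lit 22184179378696824) (.br (nat_lit 1) (.cons (.br (nat_lit 2) (.cons (.rel (nat_lit 83919888)) .nil)) .nil)) .leaf) (nat_lit 22184179378995225) (.br (nat_lit 1) (.cons (.br (nat_lit 2) (.cons (.rel (nat_lit 83888640)) .nil)) .nil)) (.node .leaf (nat_lit 22184179378995832) (.br (nat_lit 1) (.cons (.br (nat_lit 2) (.cons (.rel (nat_lit 83894292)) .nil)) .nil)) .leaf)) (nat_lit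 22184179380080117) (.br (nat_lit 0) (.cons (.br (nat_lit 4) (.cons (.rel (nat_lit 1077938181)) (.cons (.rel (nat_lit 2155872273)) .nil))) .nil)) (.node (.node .leaf (nat_lit 22184179380086809) (.br (nat_lit 2) (.cons (.br (nat_lit 5) (.cons (.rel (nat_lit 4362076170)) .nil)) .nil)) .leaf) (nat_lit 22184179380088095) (.br (nat_lit 1) (.cons (.br (nat_lit 2) (.cons (.rel (nat_lit 83894292)) .nil)) .nil)) .leaf))))) (nat_lit 22184179380088166) (.br (nat_lit 2) (.cons (.br (nat_lit 5) (.cons (.rel (nat_lit 8657567808)) .nil)) .nil)) (.node (.node (.node (.node (.node (.node .leaf (nat_lit 22184179380088309) (.br (nat_lit 4) (.cons (.br (nat_lit 0) (.cons (.rel (nat_lit 2152218624)) (.cons (.rel (nat_lit 1078002177)) (.cons (.rel (nat_lit 1077936162)) (.cons (.rel (nat_lit 1077936162)) .nil))))) (.cons (.br (nat_lit 2) (.cons (.rel (nat_lit 1141115136)) (.cons (.rel (nat_lit 1141903680)) (.cons (.rel (nat_lit 1141115136)) .nil)))) .nil))) .leaf) (nat_lit 22184179380224925) (.br (nat_lit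 0) (.cons (.br (nat_lit 1) (.cons (.rel (nat_lit 37765632)) .nil)) .nil)) (.node .leaf (nat_lit 22184179380232217) (.br (nat_lit 2) (.cons (.br (nat_lit 5) (.cons (.rel (nat_lit 4362076170)) .nil)) .nil)) .leaf)) (nat_lit 22184179380232824) (.br (nat_lit 1) (.cons (.br (nat_lit 2) (.cons (.rel (nat_lit 83894292)) .nil)) .nil)) (.node (.node .leaf (nat_lit 22184179380233503) (.br (nat_lit 2) (.cons (.br (nat_lit 4) (.cons (.rel (nat_lit 1141115136)) .nil)) .nil)) .leaf) (nat_lit 22184179380233574) (.br (nat_lit 2) (.cons (.br (nat_lit 1) (.cons (.rel (nat_lit 83888640)) (.cons (.rel (nat_lit 83951880)) .nil))) .nil)) (.node .leaf (nat_lit 22184179380531225) (.br (nat_lit 2) (.cons (.br (nat_lit 5) (.cons (.rel (nat_lit 4362149892)) .nil)) .nil)) .leaf))) (nat_lit 22184179380532002) (.br (nat_lit 0) (.cons (.br (nat_lit 2) (.cons (.rel (nat_lit 71304720)) .nil)) .nil)) (.node (.node (.node .leaf (nat_lit 22184179380532511) (.br (nat_lit 5) (.cons (.br (nat_lit 2) (.cons (.rel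 (nat_lit 4362158352)) (.cons (.rel (nat_lit 8657306640)) .nil))) .nil)) .leaf) (nat_lit 22184179380532725) (.br (nat_lit 2) (.cons (.br (nat_lit 1) (.cons (.rel (nat_lit 83888640)) (.cons (.rel (nat_lit 83888640)) (.cons (.rel (nat_lit 83951880)) .nil)))) (.cons (.br (nat_lit 1) (.cons (.rel (nat_lit 83888640)) (.cons (.rel (nat_lit 83951880)) (.cons (.rel (nat_lit 83888640)) .nil)))) .nil))) (.node .leaf (nat_lit 22184179381299225) (.br (nat_lit 1) (.cons (.br (nat_lit 2) (.cons (.rel (nat_lit 83890434)) .nil)) .nil)) .leaf)) (nat_lit 22184179381300511) (.br (nat_lit 1) (.cons (.br (nat_lit 2) (.cons (.rel (nat_lit 83890434)) (.cons (.rel (nat_lit 83919888)) .nil))) (.cons (.br (nat_lit 2) (.cons (.rel (nat_lit 83968002)) (.cons (.rel (nat_lit 83888640)) .nil))) .nil))) (.node (.node .leaf (nat_lit 22184179381300582) (.br (nat_lit 2) (.cons (.br (nat_lit 5) (.cons (.rel (nat_lit 4362076170)) .nil)) .nil)) .leaf) (nat_lit 22184179381623416) (.br (nat_lit 1) (.cons (.br (nat_lit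 2) (.cons (.rel (nat_lit 83888640)) (.cons (.rel (nat_lit 83951880)) (.cons (.rel (nat_lit 83951880)) .nil)))) .nil)) .leaf))) (nat_lit 22184179381624095) (.br (nat_lit 1) (.cons (.br (nat_lit 2) (.cons (.rel (nat_lit 84018180)) .nil)) .nil)) (.node (.node (.node (.node .leaf (nat_lit 22184179381624309) (.br (nat_lit 1) (.cons (.br (nat_lit 2) (.cons (.rel (nat_lit 83919888)) (.cons (.rel (nat_lit 83902752)) .nil))) .nil)) .leaf) (nat_lit 22184179400274221) (.br (nat_lit 2) (.cons (.br (nat_lit 5) (.cons (.br (nat_lit 0) (.cons (.rel (nat_lit 4303356180)) (.cons (.rel (nat_lit 71335968)) (.cons (.rel (nat_lit 71311377)) .nil)))) .nil)) .nil)) (.node .leaf (nat_lit 22184179400274820) (.br (nat_lit 0) (.cons (.br (nat_lit 1) (.cons (.rel (nat_lit 20971848)) .nil)) .nil)) .leaf)) (nat_lit 22184179903241128) (.br (nat_lit 1) (.cons (.br (nat_lit 2) (.cons (.rel (nat_lit 83919888)) .nil)) .nil)) (.node (.node .leaf (nat_lit 22184179904358550) (.br (nat_lit 0) (.cons (.br (nat_lit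 1) (.cons (.rel (nat_lit 20971848)) .nil)) .nil)) .leaf) (nat_lit 22184179904359800) (.br (nat_lit 0) (.cons (.br (nat_lit 1) (.cons (.rel (nat_lit 21561345)) (.cons (.rel (nat_lit 20987970)) .nil))) (.cons (.br (nat_lit 2) (.cons (.rel (nat_lit 71321856)) (.cons (.rel (nat_lit 71304720)) .nil))) .nil))) (.node .leaf (nat_lit 22184179904359961) (.br (nat_lit 4) (.cons (.br (nat_lit 5) (.cons (.rel (nat_lit 5368710432)) (.cons (.rel (nat_lit 5368774677)) .nil))) (.cons (.br (nat_lit 5) (.cons (.rel (nat_lit 5368710432)) (.cons (.rel (nat_lit 5368774677)) .nil))) .nil))) .leaf))) (nat_lit 22184179904374791) (.br (nat_lit 1) (.cons (.br (nat_lit 6) (.cons (.rel (nat_lit 17196687360)) .nil)) .nil)) (.node (.node (.node .leaf (nat_lit 22184179904529641) (.br (nat_lit 0) (.cons (.br (nat_lit 1) (.cons (.rel (nat_lit 21561345)) .nil)) .nil)) .leaf) (nat_lit 22184179904529784) (.br (nat_lit 0) (.cons (.br (nat_lit 3) (.cons (.rel (nat_lit 272633892)) .nil)) .nil)) (.node .leaf (nat_lit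 22184179904820582) (.br (nat_lit 0) (.cons (.br (nat_lit 1) (.cons (.rel (nat_lit 22021632)) .nil)) .nil)) .leaf)) (nat_lit 22184179906107542) (.br (nat_lit 1) (.cons (.br (nat_lit 0) (.cons (.rel (nat_lit 38011968)) (.cons (.rel (nat_lit 20971848)) .nil))) .nil)) (.node (.node .leaf (nat_lit 22184179906108792) (.br (nat_lit 3) (.cons (.br (nat_lit 4) (.cons (.rel (nat_lit 1343766528)) (.cons (.rel (nat_lit 2684961024)) .nil))) .nil)) .leaf) (nat_lit 22184179906108953) (.br (nat_lit 0) (.cons (.br (nat_lit 5) (.cons (.rel (nat_lit 4300210212)) (.cons (.rel (nat_lit 8594198544)) .nil))) .nil)) .leaf)))) (nat_lit 22184181492626794) (.br (nat_lit 0) (.cons (.br (nat_lit 1) (.cons (.rel (nat_lit 20971848)) .nil)) .nil)) (.node (.node (.node (.node (.node .leaf (nat_lit 22184181493999766) (.br (nat_lit 1) (.cons (.br (nat_lit 6) (.cons (.rel (nat_lit 17196713985)) .nil)) .nil)) .leaf) (nat_lit 22184181493999866) (.br (nat_lit 1) (.cons (.br (nat_lit 2) (.cons (.rel (nat_lit 167773440))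 .nil)) .nil)) (.node .leaf (nat_lit 22184181494000902) (.br (nat_lit 2) (.cons (.br (nat_lit 3) (.cons (.rel (nat_lit 335544960)) .nil)) .nil)) .leaf)) (nat_lit 22184181494001148) (.br (nat_lit 1) (.cons (.br (nat_lit 2) (.cons (.rel (nat_lit 84181056)) .nil)) .nil)) (.node (.node .leaf (nat_lit 22184181494170232) (.br (nat_lit 2) (.cons (.br (nat_lit 3) (.cons (.rel (nat_lit 335544960)) .nil)) .nil)) .leaf) (nat_lit 22184181494460441) (.br (nat_lit 2) (.cons (.br (nat_lit 5) (.cons (.rel (nat_lit 4362080784)) .nil)) .nil)) (.node .leaf (nat_lit 22184181494461191) (.br (nat_lit 1) (.cons (.br (nat_lit 2) (.cons (.rel (nat_lit 83902752)) .nil)) .nil)) .leaf))) (nat_lit 22184884400639338) (.br (nat_lit 0) (.cons (.br (nat_lit 3) (.cons (.rel (nat_lit 272654592)) .nil)) .nil)) (.node (.node (.node .leaf (nat_lit 22184884401108330) (.br (nat_lit 1) (.cons (.br (nat_lit 5) (.cons (.rel (nat_lit 4312794132)) .nil)) .nil)) .leaf) (nat_lit 22184915043139591) (.br (nat_lit 1) (.cons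 (.br (nat_lit 2) (.cons (.rel (nat_lit 83902752)) (.cons (.rel (nat_lit 83888640)) .nil))) .nil)) (.node .leaf (nat_lit 22184915043140216) (.br (nat_lit 2) (.cons (.br (nat_lit 0) (.cons (.rel (nat_lit 71335968)) (.cons (.rel (nat_lit 71311377)) (.cons (.rel (nat_lit 71335968)) .nil)))) (.cons (.br (nat_lit 0) (.cons (.rel (nat_lit 71307528)) (.cons (.rel (nat_lit 71304720)) (.cons (.rel (nat_lit 71335968)) .nil)))) .nil))) .leaf)) (nat_lit 22184915043140841) (.br (nat_lit 0) (.cons (.br (nat_lit 2) (.cons (.rel (nat_lit 71565888)) .nil)) .nil)) (.node (.node .leaf (nat_lit 22184915043140966) (.br (nat_lit 0) (.cons (.br (nat_lit 1) (.cons (.rel (nat_lit 37750800)) .nil)) .nil)) .leaf) (nat_lit 22184915044215416) (.br (nat_lit 3) (.cons (.br (nat_lit 1) (.cons (.rel (nat_lit 285229080)) (.cons (.rel (nat_lit 285229080)) (.cons (.rel (nat_lit 285221376)) .nil)))) (.cons (.br (nat_lit 1) (.cons (.rel (nat_lit 285376512)) (.cons (.rel (nat_lit 285212949)) (.cons (.rel (nat_lit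 570429696)) .nil)))) .nil))) .leaf))) (nat_lit 22184915044215546) (.br (nat_lit 4) (.cons (.br (nat_lit 2) (.cons (.rel (nat_lit 1140851088)) (.cons (.rel (nat_lit 1140851088)) .nil))) .nil)) (.node (.node (.node (.node .leaf (nat_lit 22184915044216345) (.br (nat_lit 2) (.cons (.br (nat_lit 4) (.cons (.rel (nat_lit 1141115136)) (.cons (.rel (nat_lit 1141178376)) .nil))) .nil)) .leaf) (nat_lit 22184915044231175) (.br (nat_lit 2) (.cons (.br (nat_lit 1) (.cons (.rel (nat_lit 83902752)) (.cons (.rel (nat_lit 84018180)) .nil))) .nil)) (.node .leaf (nat_lit 22184915044232104) (.br (nat_lit 0) (.cons (.br (nat_lit 4) (.cons (.rel (nat_lit 1077937176)) .nil)) .nil)) .leaf)) (nat_lit 22184915044377501) (.br (nat_lit 0) (.cons (.br (nat_lit 1) (.cons (.rel (nat_lit 25165830)) .nil)) .nil)) (.node (.node .leaf (nat_lit 22184915044385400) (.br (nat_lit 3) (.cons (.br (nat_lit 6) (.cons (.rel (nat_lit 17448633348)) (.cons (.rel (nat_lit 17716773120)) .nil))) .nil)) .leaf) (nat_lit 22184915044385543)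 (.br (nat_lit 1) (.cons (.br (nat_lit 3) (.cons (.rel (nat_lit 285212949)) .nil)) .nil)) .leaf)) (nat_lit 22184915044385704) (.br (nat_lit 3) (.cons (.br (nat_lit 1) (.cons (.rel (nat_lit 302252064)) (.cons (.rel (nat_lit 285376512)) .nil))) .nil)) (.node (.node (.node .leaf (nat_lit 22184915044386150) (.br (nat_lit 3) (.cons (.br (nat_lit 4) (.cons (.rel (nat_lit 1344340224)) .nil)) .nil)) .leaf) (nat_lit 22184915044675591) (.br (nat_lit 0) (.cons (.br (nat_lit 4) (.cons (.rel (nat_lit 1083179076)) .nil)) .nil)) (.node .leaf (nat_lit 22184915044676509) (.br (nat_lit 2) (.cons (.br (nat_lit 5) (.cons (.rel (nat_lit 4362149892)) .nil)) .nil)) .leaf)) (nat_lit 22184915044692904) (.br (nat_lit 1) (.cons (.br (nat_lit 2) (.cons (.rel (nat_lit 83888640)) (.cons (.rel (nat_lit 83894292)) .nil))) .nil)) (.node (.node .leaf (nat_lit 22184915045443591) (.br (nat_lit 1) (.cons (.br (nat_lit 2) (.cons (.rel (nat_lit 83888640)) (.cons (.rel (nat_lit 83888640)) (.cons (.rel (nat_lit 83951880))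 .nil)))) (.cons (.br (nat_lit 2) (.cons (.rel (nat_lit 151003200)) (.cons (.rel (nat_lit 83902752)) (.cons (.rel (nat_lit 84018180)) .nil)))) .nil))) .leaf) (nat_lit 22184915045444966) (.br (nat_lit 1) (.cons (.br (nat_lit 5) (.cons (.rel (nat_lit 4328587296)) (.cons (.rel (nat_lit 4328587296)) .nil))) (.cons (.br (nat_lit 5) (.cons (.rel (nat_lit 4311814212)) (.cons (.rel (nat_lit 4312875264)) .nil))) .nil))) .leaf)))))) (nat_lit 22184915045648391) (.br (nat_lit 1) (.cons (.br (nat_lit 4) (.cons (.rel (nat_lit 1090605072)) .nil)) .nil)) (.node (.node (.node (.node (.node (.node (.node .leaf (nat_lit 22184915045767175) (.br (nat_lit 1) (.cons (.br (nat_lit 2) (.cons (.rel (nat_lit 83902752)) .nil)) .nil)) .leaf) (nat_lit 22184915045964408) (.br (nat_lit 1) (.cons (.br (nat_lit 2) (.cons (.rel (nat_lit 83888640)) (.cons (.rel (nat_lit 83888640)) .nil))) (.cons (.br (nat_lit 2) (.cons (.rel (nat_lit 102760464)) (.cons (.rel (nat_lit 83902752)) .nil))) .nil))) (.node .leaf (nat_lit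 22184916015919254) (.br (nat_lit 1) (.cons (.br (nat_lit 5) (.cons (.rel (nat_lit 4311814212)) (.cons (.rel (nat_lit 4328522001)) .nil))) .nil)) .leaf)) (nat_lit 22184916015919415) (.br (nat_lit 1) (.cons (.br (nat_lit 2) (.cons (.rel (nat_lit 83888640)) .nil)) .nil)) (.node (.node .leaf (nat_lit 22184916015919736) (.br (nat_lit 1) (.cons (.br (nat_lit 3) (.cons (.rel (nat_lit 570429696)) (.cons (.rel (nat_lit 285213954)) .nil))) .nil)) .leaf) (nat_lit 22184916017293944) (.br (nat_lit 1) (.cons (.br (nat_lit 3) (.cons (.rel (nat_lit 301991040)) .nil)) .nil)) (.node .leaf (nat_lit 22184916017309828) (.br (nat_lit 2) (.cons (.br (nat_lit 3) (.cons (.rel (nat_lit 603981057)) .nil)) .nil)) .leaf))) (nat_lit 22184916017310328) (.br (nat_lit 1) (.cons (.br (nat_lit 3) (.cons (.rel (nat_lit 571867392)) .nil)) .nil)) (.node (.node (.node .leaf (nat_lit 22184916017455254) (.br (nat_lit 1) (.cons (.br (nat_lit 4) (.cons (.rel (nat_lit 1091568000)) .nil)) .nil)) .leaf) (nat_lit 22184916017456004)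 (.br (nat_lit 1) (.cons (.br (nat_lit 4) (.cons (.rel (nat_lit 1091568000)) .nil)) .nil)) (.node .leaf (nat_lit 22184916017463607) (.br (nat_lit 4) (.cons (.br (nat_lit 1) (.cons (.rel (nat_lit 1090519077)) (.cons (.rel (nat_lit 2181039108)) (.cons (.rel (nat_lit 2164785408)) .nil)))) .nil)) .leaf)) (nat_lit 22184916017463928) (.br (nat_lit 3) (.cons (.br (nat_lit 6) (.cons (.rel (nat_lit 34897658901)) .nil)) .nil)) (.node (.node .leaf (nat_lit 22184916017464071) (.br (nat_lit 3) (.cons (.br (nat_lit 1) (.cons (.rel (nat_lit 285278244)) (.cons (.rel (nat_lit 285478980)) .nil))) .nil)) .leaf) (nat_lit 22184916017754262) (.br (nat_lit 5) (.cons (.br (nat_lit 1) (.cons (.rel (nat_lit 4312794132)) (.cons (.rel (nat_lit 4328556036)) .nil))) .nil)) .leaf))) (nat_lit 22184916017754298) (.br (nat_lit 3) (.cons (.br (nat_lit 5) (.cons (.rel (nat_lit 4563410961)) .nil)) .nil)) (.node (.node (.node (.node .leaf (nat_lit 22184916017754887) (.br (nat_lit 1) (.cons (.br (nat_lit 2) (.cons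 (.rel (nat_lit 83890434)) .nil)) .nil)) .leaf) (nat_lit 22184916017755423) (.br (nat_lit 5) (.cons (.br (nat_lit 1) (.cons (.rel (nat_lit 4311745104)) (.cons (.rel (nat_lit 4312795137)) .nil))) .nil)) (.node .leaf (nat_lit 22184916018522119) (.br (nat_lit 1) (.cons (.br (nat_lit 3) (.cons (.rel (nat_lit 285278244)) .nil)) .nil)) .leaf)) (nat_lit 22184916018523619) (.br (nat_lit 3) (.cons (.br (nat_lit 4) (.cons (.rel (nat_lit 2684354628)) .nil)) .nil)) (.node (.node .leaf (nat_lit 22184917664280837) (.br (nat_lit 1) (.cons (.br (nat_lit 2) (.cons (.rel (nat_lit 100925700)) .nil)) .nil)) .leaf) (nat_lit 22184917665654834) (.br (nat_lit 2) (.cons (.br (nat_lit 3) (.cons (.rel (nat_lit 671088960)) .nil)) .nil)) (.node .leaf (nat_lit 22184917665655720) (.br (nat_lit 1) (.cons (.br (nat_lit 3) (.cons (.rel (nat_lit 285212949)) (.cons (.rel (nat_lit 285221376)) .nil))) (.cons (.br (nat_lit 3) (.cons (.rel (nat_lit 285213954)) (.cons (.rel (nat_lit 285212949)) .nil))) .nil))) .leaf)))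 (nat_lit 22184917665656041) (.br (nat_lit 3) (.cons (.br (nat_lit 2) (.cons (.rel (nat_lit 335814660)) (.cons (.rel (nat_lit 335544960)) (.cons (.rel (nat_lit 335814660)) (.cons (.rel (nat_lit 335876097)) .nil))))) (.cons (.br (nat_lit 5) (.cons (.rel (nat_lit 4563665472)) (.cons (.rel (nat_lit 4563435552)) (.cons (.rel (nat_lit 4832894976)) (.cons (.rel (nat_lit 4563534849)) .nil))))) (.cons (.br (nat_lit 1) (.cons (.rel (nat_lit 285212949)) (.cons (.rel (nat_lit 285221376)) (.cons (.rel (nat_lit 285278244)) (.cons (.rel (nat_lit 570426900)) (.cons (.rel (nat_lit 285212949)) (.cons (.rel (nat_lit 285212949)) (.cons (.rel (nat_lit 285221376)) .nil)))))))) .nil)))) (.node (.node (.node .leaf (nat_lit 22184917665656184) (.br (nat_lit 3) (.cons (.br (nat_lit 1) (.cons (.rel (nat_lit 285229080)) (.cons (.rel (nat_lit 285213954)) .nil))) .nil)) .leaf) (nat_lit 22184917665656216) (.br (nat_lit 1) (.cons (.br (nat_lit 3) (.cons (.rel (nat_lit 285212949)) (.cons (.rel (nat_lit 301991040))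 .nil))) (.cons (.br (nat_lit 3) (.cons (.rel (nat_lit 285213954)) (.cons (.rel (nat_lit 302252064)) .nil))) .nil))) (.node .leaf (nat_lit 22184917665656291) (.br (nat_lit 5) (.cons (.br (nat_lit 3) (.cons (.rel (nat_lit 4563404304)) (.cons (.rel (nat_lit 4563484680)) .nil))) .nil)) .leaf)) (nat_lit 22184917665656345) (.br (nat_lit 2) (.cons (.br (nat_lit 4) (.cons (.rel (nat_lit 1142947845)) .nil)) .nil)) (.node (.node .leaf (nat_lit 22184917665672700) (.br (nat_lit 0) (.cons (.br (nat_lit 1) (.cons (.rel (nat_lit 21038148)) .nil)) .nil)) .leaf) (nat_lit 22184917665809170) (.br (nat_lit 1) (.cons (.br (nat_lit 6) (.cons (.rel (nat_lit 17196647685)) .nil)) .nil)) .leaf)))) (nat_lit 22184917665809816) (.br (nat_lit 1) (.cons (.br (nat_lit 2) (.cons (.rel (nat_lit 167773440)) .nil)) .nil)) (.node (.node (.node (.node (.node .leaf (nat_lit 22184917665809916) (.br (nat_lit 1) (.cons (.br (nat_lit 2) (.cons (.rel (nat_lit 83890434)) .nil)) .nil)) .leaf) (nat_lit 22184917665817887)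 (.br (nat_lit 2) (.cons (.br (nat_lit 3) (.cons (.rel (nat_lit 671088960)) .nil)) .nil)) (.node .leaf (nat_lit 22184917665826168) (.br (nat_lit 3) (.cons (.br (nat_lit 1) (.cons (.rel (nat_lit 285221376)) (.cons (.rel (nat_lit 285213954)) .nil))) .nil)) .leaf)) (nat_lit 22184917665826329) (.br (nat_lit 3) (.cons (.br (nat_lit 1) (.cons (.rel (nat_lit 570429696)) (.cons (.rel (nat_lit 285229080)) .nil))) .nil)) (.node (.node .leaf (nat_lit 22184917666115591) (.br (nat_lit 2) (.cons (.br (nat_lit 5) (.cons (.rel (nat_lit 4362211329)) .nil)) .nil)) .leaf) (nat_lit 22184917666115614) (.br (nat_lit 1) (.cons (.br (nat_lit 2) (.cons (.rel (nat_lit 84018180)) .nil)) .nil)) (.node .leaf (nat_lit 22184917666116484) (.br (nat_lit 1) (.cons (.br (nat_lit 3) (.cons (.rel (nat_lit 285221376)) .nil)) .nil)) .leaf))) (nat_lit 22184917666117091) (.br (nat_lit 3) (.cons (.br (nat_lit 5) (.cons (.rel (nat_lit 9126821904)) .nil)) .nil)) (.node (.node (.node .leaf (nat_lit 22184917666117109) (.br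 (nat_lit 3) (.cons (.br (nat_lit 5) (.cons (.rel (nat_lit 4832428032)) .nil)) .nil)) .leaf) (nat_lit 22184917666136196) (.br (nat_lit 0) (.cons (.br (nat_lit 1) (.cons (.rel (nat_lit 21499908)) .nil)) .nil)) (.node .leaf (nat_lit 22184917666833016) (.br (nat_lit 1) (.cons (.br (nat_lit 3) (.cons (.rel (nat_lit 285298944)) .nil)) .nil)) .leaf)) (nat_lit 22184917666884841) (.br (nat_lit 2) (.cons (.br (nat_lit 5) (.cons (.rel (nat_lit 4362076170)) .nil)) .nil)) (.node (.node .leaf (nat_lit 22184917666884895) (.br (nat_lit 1) (.cons (.br (nat_lit 2) (.cons (.rel (nat_lit 84181056)) .nil)) .nil)) .leaf) (nat_lit 22184917666885091) (.br (nat_lit 2) (.cons (.br (nat_lit 0) (.cons (.rel (nat_lit 71435265)) (.cons (.rel (nat_lit 71335968)) .nil))) .nil)) .leaf))) (nat_lit 22184917667199608) (.br (nat_lit 2) (.cons (.br (nat_lit 5) (.cons (.rel (nat_lit 4362109188)) (.cons (.rel (nat_lit 4363452417)) .nil))) .nil)) (.node (.node (.node (.node .leaf (nat_lit 22184917667200508) (.br (nat_lit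 3) (.cons (.br (nat_lit 5) (.cons (.rel (nat_lit 4832428032)) .nil)) .nil)) .leaf) (nat_lit 22184917667406701) (.br (nat_lit 2) (.cons (.br (nat_lit 4) (.cons (.rel (nat_lit 1207963665)) .nil)) .nil)) (.node .leaf (nat_lit 22184918549278745) (.br (nat_lit 1) (.cons (.br (nat_lit 2) (.cons (.rel (nat_lit 151003200)) .nil)) .nil)) .leaf)) (nat_lit 22184918549279995) (.br (nat_lit 3) (.cons (.br (nat_lit 5) (.cons (.rel (nat_lit 9126821904)) .nil)) .nil)) (.node (.node .leaf (nat_lit 22184918549885864) (.br (nat_lit 1) (.cons (.br (nat_lit 5) (.cons (.rel (nat_lit 8623767552)) .nil)) .nil)) .leaf) (nat_lit 22184918550654435) (.br (nat_lit 2) (.cons (.br (nat_lit 3) (.cons (.rel (nat_lit 337707012)) .nil)) .nil)) .leaf)) (nat_lit 22184918550654489) (.br (nat_lit 3) (.cons (.br (nat_lit 0) (.cons (.rel (nat_lit 272695329)) (.cons (.rel (nat_lit 272631048)) .nil))) .nil)) (.node (.node (.node .leaf (nat_lit 22184918550662395) (.br (nat_lit 1) (.cons (.br (nat_lit 4) (.cons (.rel (nat_lit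 1090519077)) .nil)) .nil)) .leaf) (nat_lit 22184918550662627) (.br (nat_lit 4) (.cons (.br (nat_lit 1) (.cons (.rel (nat_lit 1090519077)) (.cons (.rel (nat_lit 1090519077)) (.cons (.rel (nat_lit 1090781250)) .nil)))) .nil)) (.node .leaf (nat_lit 22184918550669623) (.br (nat_lit 1) (.cons (.br (nat_lit 5) (.cons (.rel (nat_lit 4312794132)) .nil)) .nil)) .leaf)) (nat_lit 22184918550670114) (.br (nat_lit 0) (.cons (.br (nat_lit 1) (.cons (.rel (nat_lit 21499908)) .nil)) .nil)) (.node (.node .leaf (nat_lit 22184918550670243) (.br (nat_lit 0) (.cons (.br (nat_lit 5) (.cons (.rel (nat_lit 8598585600)) .nil)) .nil)) .leaf) (nat_lit 22184918550670819) (.br (nat_lit 1) (.cons (.br (nat_lit 0) (.cons (.rel (nat_lit 21561345)) (.cons (.rel (nat_lit 21499908)) .nil))) .nil)) .leaf))))) (nat_lit 22184918550813448) (.br (nat_lit 0) (.cons (.br (nat_lit 1) (.cons (.rel (nat_lit 21561345)) .nil)) .nil)) (.node (.node (.node (.node (.node (.node .leaf (nat_lit 22184918551113735) (.br (nat_lit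 1) (.cons (.br (nat_lit 4) (.cons (.rel (nat_lit 2182414353)) .nil)) .nil)) .leaf) (nat_lit 22184918551113784) (.br (nat_lit 2) (.cons (.br (nat_lit 5) (.cons (.rel (nat_lit 4362076170)) .nil)) .nil)) (.node .leaf (nat_lit 22184918551115003) (.br (nat_lit 2) (.cons (.br (nat_lit 5) (.cons (.rel (nat_lit 4429447296)) (.cons (.rel (nat_lit 4363390980)) .nil))) .nil)) .leaf)) (nat_lit 22184918551115110) (.br (nat_lit 1) (.cons (.br (nat_lit 3) (.cons (.rel (nat_lit 285221376)) (.cons (.rel (nat_lit 285212949)) .nil))) .nil)) (.node (.node .leaf (nat_lit 22184918551124893) (.br (nat_lit 1) (.cons (.br (nat_lit 2) (.cons (.rel (nat_lit 167773440)) .nil)) .nil)) .leaf) (nat_lit 22184918551131387) (.br (nat_lit 1) (.cons (.br (nat_lit 6) (.cons (.rel (nat_lit 17196646680)) .nil)) .nil)) (.node .leaf (nat_lit 22184918551135720) (.br (nat_lit 0) (.cons (.br (nat_lit 2) (.cons (.rel (nat_lit 71311377)) (.cons (.rel (nat_lit 71304720)) .nil))) .nil)) .leaf))) (nat_lit 22184918551882628)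 (.br (nat_lit 4) (.cons (.br (nat_lit 2) (.cons (.rel (nat_lit 2214593028)) (.cons (.rel (nat_lit 1141129248)) (.cons (.rel (nat_lit 1141178376)) .nil)))) .nil)) (.node (.node (.node .leaf (nat_lit 22184918552205972) (.br (nat_lit 0) (.cons (.br (nat_lit 1) (.cons (.rel (nat_lit 20975697)) .nil)) .nil)) .leaf) (nat_lit 22184918552402081) (.br (nat_lit 0) (.cons (.br (nat_lit 1) (.cons (.rel (nat_lit 21038148)) .nil)) .nil)) (.node .leaf (nat_lit 22184918637936099) (.br (nat_lit 1) (.cons (.br (nat_lit 2) (.cons (.rel (nat_lit 83894292)) .nil)) .nil)) .leaf)) (nat_lit 22184918638733348) (.br (nat_lit 0) (.cons (.br (nat_lit 1) (.cons (.rel (nat_lit 21499908)) .nil)) .nil)) (.node (.node .leaf (nat_lit 22184918638733448) (.br (nat_lit 0) (.cons (.br (nat_lit 1) (.cons (.rel (nat_lit 22021632)) .nil)) .nil)) .leaf) (nat_lit 22184918638733944) (.br (nat_lit 3) (.cons (.br (nat_lit 6) (.cons (.rel (nat_lit 17450401812)) (.cons (.rel (nat_lit 17448570897)) .nil))) (.cons (.br (nat_lit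 6) (.cons (.rel (nat_lit 17716740102)) (.cons (.rel (nat_lit 34628175888)) .nil))) .nil))) .leaf))) (nat_lit 22184918638734569) (.br (nat_lit 3) (.cons (.br (nat_lit 4) (.cons (.rel (nat_lit 1342525440)) .nil)) .nil)) (.node (.node (.node (.node .leaf (nat_lit 22184918638734712) (.br (nat_lit 3) (.cons (.br (nat_lit 5) (.cons (.rel (nat_lit 4563404304)) (.cons (.rel (nat_lit 4563665472)) .nil))) (.cons (.br (nat_lit 5) (.cons (.rel (nat_lit 4563533844)) (.cons (.rel (nat_lit 4563665472)) .nil))) .nil))) .leaf) (nat_lit 22184918638734873) (.br (nat_lit 2) (.cons (.br (nat_lit 3) (.cons (.rel (nat_lit 336593988)) (.cons (.rel (nat_lit 335823120)) (.cons (.rel (nat_lit 335544960)) .nil)))) (.cons (.br (nat_lit 3) (.cons (.rel (nat_lit 335876097)) (.cons (.rel (nat_lit 336593988)) (.cons (.rel (nat_lit 603981057)) .nil)))) (.cons (.br (nat_lit 3) (.cons (.rel (nat_lit 335823120)) (.cons (.rel (nat_lit 335544960)) (.cons (.rel (nat_lit 603981057)) .nil)))) .nil)))) (.node .leaf (nat_lit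 22184918638749703) (.br (nat_lit 1) (.cons (.br (nat_lit 2) (.cons (.rel (nat_lit 83888640)) .nil)) .nil)) .leaf)) (nat_lit 22184918638750328) (.br (nat_lit 5) (.cons (.br (nat_lit 0) (.cons (.rel (nat_lit 4300210212)) (.cons (.rel (nat_lit 4299169860)) .nil))) .nil)) (.node (.node .leaf (nat_lit 22184918638751078) (.br (nat_lit 4) (.cons (.br (nat_lit 5) (.cons (.rel (nat_lit 6442532928)) .nil)) .nil)) .leaf) (nat_lit 22184918638895736) (.br (nat_lit 5) (.cons (.br (nat_lit 2) (.cons (.rel (nat_lit 8657567808)) (.cons (.rel (nat_lit 4362076170)) .nil))) .nil)) (.node .leaf (nat_lit 22184918638896415) (.br (nat_lit 2) (.cons (.br (nat_lit 5) (.cons (.rel (nat_lit 4362076170)) .nil)) .nil)) .leaf))) (nat_lit 22184918638896486) (.br (nat_lit 2) (.cons (.br (nat_lit 4) (.cons (.rel (nat_lit 1142947845)) .nil)) .nil)) (.node (.node (.node .leaf (nat_lit 22184918638903933) (.br (nat_lit 3) (.cons (.br (nat_lit 4) (.cons (.rel (nat_lit 1343227200)) .nil)) .nil)) .leaf) (nat_lit 22184918638904223)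 (.br (nat_lit 4) (.cons (.br (nat_lit 3) (.cons (.rel (nat_lit 1342447872)) (.cons (.rel (nat_lit 1342440450)) .nil))) .nil)) (.node .leaf (nat_lit 22184918638904553) (.br (nat_lit 5) (.cons (.br (nat_lit 1) (.cons (.rel (nat_lit 4311745104)) (.cons (.rel (nat_lit 4312301568)) .nil))) .nil)) .leaf)) (nat_lit 22184918638904696) (.br (nat_lit 5) (.cons (.br (nat_lit 2) (.cons (.rel (nat_lit 4362076170)) (.cons (.rel (nat_lit 8724152325)) (.cons (.rel (nat_lit 4362076170)) (.cons (.rel (nat_lit 4362076170)) .nil))))) (.cons (.br (nat_lit 1) (.cons (.rel (nat_lit 8623767552)) (.cons (.rel (nat_lit 8623767552)) (.cons (.rel (nat_lit 8606842896)) (.cons (.rel (nat_lit 4312301568)) .nil))))) (.cons (.br (nat_lit 1) (.cons (.rel (nat_lit 4312794132)) (.cons (.rel (nat_lit 4312795137)) (.cons (.rel (nat_lit 4312301568)) (.cons (.rel (nat_lit 4328522001)) .nil))))) .nil)))) (.node (.node .leaf (nat_lit 22184918638904828) (.br (nat_lit 1) (.cons (.br (nat_lit 3) (.cons (.rel (nat_lit 285221376))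 .nil)) .nil)) .leaf) (nat_lit 22184918638904857) (.br (nat_lit 3) (.cons (.br (nat_lit 4) (.cons (.rel (nat_lit 1342177416)) (.cons (.rel (nat_lit 1342439445)) .nil))) (.cons (.br (nat_lit 4) (.cons (.rel (nat_lit 1342447872)) (.cons (.rel (nat_lit 2684452944)) .nil))) .nil))) .leaf)))) (nat_lit 22184918639195048) (.br (nat_lit 6) (.cons (.br (nat_lit 1) (.cons (.rel (nat_lit 17196687360)) (.cons (.rel (nat_lit 17196687360)) .nil))) .nil)) (.node (.node (.node (.node (.node .leaf (nat_lit 22184918639195387) (.br (nat_lit 0) (.cons (.br (nat_lit 4) (.cons (.rel (nat_lit 1077937176)) .nil)) .nil)) .leaf) (nat_lit 22184918639195423) (.br (nat_lit 1) (.cons (.br (nat_lit 6) (.cons (.rel (nat_lit 17196687360)) .nil)) .nil)) (.node .leaf (nat_lit 22184918639211421) (.br (nat_lit 0) (.cons (.br (nat_lit 1) (.cons (.rel (nat_lit 25165830)) .nil)) .nil)) .leaf)) (nat_lit 22184918639211432) (.br (nat_lit 0) (.cons (.br (nat_lit 1) (.cons (.rel (nat_lit 21496098)) .nil)) .nil)) (.node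 (.node .leaf (nat_lit 22184918639212057) (.br (nat_lit 5) (.cons (.br (nat_lit 1) (.cons (.rel (nat_lit 4311814212)) (.cons (.rel (nat_lit 4311814212)) .nil))) .nil)) .leaf) (nat_lit 22184918640278890) (.br (nat_lit 0) (.cons (.br (nat_lit 1) (.cons (.rel (nat_lit 37750800)) .nil)) .nil)) (.node .leaf (nat_lit 22184918640482454) (.br (nat_lit 3) (.cons (.br (nat_lit 1) (.cons (.rel (nat_lit 285213954)) (.cons (.rel (nat_lit 285221376)) .nil))) .nil)) .leaf))) (nat_lit 22184918640482936) (.br (nat_lit 2) (.cons (.br (nat_lit 5) (.cons (.rel (nat_lit 8724152325)) (.cons (.rel (nat_lit 8724152325)) .nil))) (.cons (.br (nat_lit 5) (.cons (.rel (nat_lit 4429447296)) (.cons (.rel (nat_lit 8657567808)) .nil))) .nil))) (.node (.node (.node .leaf (nat_lit 22184918640483704) (.br (nat_lit 5) (.cons (.br (nat_lit 2) (.cons (.rel (nat_lit 4362076170)) (.cons (.rel (nat_lit 4362076170)) .nil))) .nil)) .leaf) (nat_lit 22184920227000470) (.br (nat_lit 1) (.cons (.br (nat_lit 2) (.cons (.rel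 (nat_lit 167773440)) .nil)) .nil)) (.node .leaf (nat_lit 22184920227000981) (.br (nat_lit 2) (.cons (.br (nat_lit 3) (.cons (.rel (nat_lit 335544960)) (.cons (.rel (nat_lit 335823120)) .nil))) (.cons (.br (nat_lit 3) (.cons (.rel (nat_lit 335876097)) (.cons (.rel (nat_lit 335544960)) .nil))) .nil))) .leaf)) (nat_lit 22184920227299989) (.br (nat_lit 1) (.cons (.br (nat_lit 2) (.cons (.rel (nat_lit 167773440)) (.cons (.rel (nat_lit 83955729)) .nil))) (.cons (.br (nat_lit 3) (.cons (.rel (nat_lit 570429696)) (.cons (.rel (nat_lit 285229080)) (.cons (.rel (nat_lit 285376512)) .nil)))) .nil))) (.node (.node .leaf (nat_lit 22184920227562133) (.br (nat_lit 1) (.cons (.br (nat_lit 3) (.cons (.rel (nat_lit 302252064)) (.cons (.rel (nat_lit 285212949)) .nil))) .nil)) .leaf) (nat_lit 22184920228374578) (.br (nat_lit 1) (.cons (.br (nat_lit 3) (.cons (.rel (nat_lit 570429696)) .nil)) .nil)) .leaf))) (nat_lit 22184920228376053) (.br (nat_lit 1) (.cons (.br (nat_lit 2) (.cons (.rel (nat_lit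 84934788)) .nil)) .nil)) (.node (.node (.node (.node .leaf (nat_lit 22184920228391544) (.br (nat_lit 2) (.cons (.br (nat_lit 1) (.cons (.rel (nat_lit 167773440)) (.cons (.rel (nat_lit 167773440)) .nil))) .nil)) .leaf) (nat_lit 22184920228392444) (.br (nat_lit 1) (.cons (.br (nat_lit 5) (.cons (.rel (nat_lit 4312301568)) .nil)) .nil)) (.node .leaf (nat_lit 22184920228537706) (.br (nat_lit 2) (.cons (.br (nat_lit 5) (.cons (.rel (nat_lit 8724152325)) .nil)) .nil)) .leaf)) (nat_lit 22184920228545769) (.br (nat_lit 2) (.cons (.br (nat_lit 4) (.cons (.rel (nat_lit 2214625281)) (.cons (.rel (nat_lit 1207959816)) (.cons (.rel (nat_lit 1141129248)) .nil)))) (.cons (.br (nat_lit 3) (.cons (.br (nat_lit 6) (.cons (.rel (nat_lit 34494091584)) (.cons (.rel (nat_lit 17448308868)) (.cons (.rel (nat_lit 17448370305)) .nil)))) (.cons (.rel (nat_lit 671088960)) .nil))) .nil))) (.node (.node .leaf (nat_lit 22184920228545798) (.br (nat_lit 1) (.cons (.br (nat_lit 4) (.cons (.rel (nat_lit 2164785408))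 .nil)) .nil)) .leaf) (nat_lit 22184920228835989) (.br (nat_lit 5) (.cons (.br (nat_lit 6) (.cons (.rel (nat_lit 21474840834)) .nil)) .nil)) .leaf)) (nat_lit 22184921133531811) (.br (nat_lit 1) (.cons (.br (nat_lit 2) (.cons (.rel (nat_lit 83888640)) .nil)) .nil)) (.node (.node (.node .leaf (nat_lit 22184921134345717) (.br (nat_lit 0) (.cons (.br (nat_lit 1) (.cons (.rel (nat_lit 22151172)) .nil)) .nil)) .leaf) (nat_lit 22184921134362108) (.br (nat_lit 4) (.cons (.br (nat_lit 5) (.cons (.rel (nat_lit 10737434880)) (.cons (.rel (nat_lit 10737550356)) .nil))) .nil)) (.node .leaf (nat_lit 22184921134515101) (.br (nat_lit 2) (.cons (.br (nat_lit 6) (.cons (.rel (nat_lit 17247371265)) .nil)) .nil)) .leaf)) (nat_lit 22184921134515433) (.br (nat_lit 1) (.cons (.br (nat_lit 4) (.cons (.rel (nat_lit 1090520082)) .nil)) .nil)) (.node (.node .leaf (nat_lit 22184921134515558) (.br (nat_lit 0) (.cons (.br (nat_lit 2) (.cons (.rel (nat_lit 72351873)) .nil)) .nil)) .leaf) (nat_lit 22184921136104806)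 (.br (nat_lit 0) (.cons (.br (nat_lit 2) (.cons (.rel (nat_lit 71307528)) .nil)) .nil)) .leaf)))))))

/-- refutations 23 -/
def e23 : EX := (.node (.node (.node (.node (.node (.node (.node .leaf (nat_lit 22185036163148561) (.br (nat_lit 0) (.cons (.br (nat_lit 1) (.cons (.rel (nat_lit 37750800)) .nil)) .nil)) .leaf) (nat_lit 22185036163285754) (.br (nat_lit 1) (.cons (.br (nat_lit 3) (.cons (.rel (nat_lit 285221376)) .nil)) .nil)) (.node .leaf (nat_lit 22185036163613434) (.br (nat_lit 3) (.cons (.br (nat_lit 0) (.cons (.rel (nat_lit 272647170)) (.cons (.rel (nat_lit 272761344)) .nil))) .nil)) .leaf)) (nat_lit 22185038765145350) (.br (nat_lit 1) (.cons (.br (nat_lit 3) (.cons (.rel (nat_lit 285229080)) .nil)) .nil)) (.node (.node .leaf (nat_lit 22185040905515044) (.br (nat_lit 0) (.cons (.br (nat_lit 1) (.cons (.rel (nat_lit 37750800)) .nil)) .nil)) .leaf) (nat_lit 22185040905515669) (.br (nat_lit 1) (.cons (.br (nat_lit 5) (.cons (.rel (nat_lit 4311814212)) .nil)) .nil)) .leaf))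 (nat_lit 22185040906076792) (.br (nat_lit 1) (.cons (.br (nat_lit 2) (.cons (.rel (nat_lit 83894292)) (.cons (.rel (nat_lit 84181056)) .nil))) (.cons (.br (nat_lit 3) (.cons (.rel (nat_lit 570429696)) (.cons (.rel (nat_lit 285212949)) .nil))) .nil))) (.node (.node (.node .leaf (nat_lit 22185040906889366) (.br (nat_lit 1) (.cons (.br (nat_lit 5) (.cons (.rel (nat_lit 8623767552)) .nil)) .nil)) .leaf) (nat_lit 22185040906890648) (.br (nat_lit 1) (.cons (.br (nat_lit 0) (.cons (.rel (nat_lit 21499908)) (.cons (.rel (nat_lit 37750800)) .nil))) .nil)) .leaf) (nat_lit 22185040906890777) (.br (nat_lit 3) (.cons (.br (nat_lit 0) (.cons (.rel (nat_lit 272633892)) (.cons (.rel (nat_lit 272630034)) .nil))) .nil)) (.node (.node .leaf (nat_lit 22185040906897438) (.br (nat_lit 0) (.cons (.br (nat_lit 1) (.cons (.rel (nat_lit 25428048)) (.cons (.rel (nat_lit 20971848)) .nil))) .nil)) .leaf) (nat_lit 22185040906906275) (.br (nat_lit 1) (.cons (.br (nat_lit 2) (.cons (.rel (nat_lit 83919888))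 .nil)) .nil)) .leaf))) (nat_lit 22185040907052294) (.br (nat_lit 1) (.cons (.br (nat_lit 0) (.cons (.rel (nat_lit 22052880)) (.cons (.rel (nat_lit 20987970)) (.cons (.rel (nat_lit 22028289)) .nil)))) .nil)) (.node (.node (.node (.node .leaf (nat_lit 22185040907052394) (.br (nat_lit 5) (.cons (.br (nat_lit 2) (.cons (.rel (nat_lit 8657567808)) (.cons (.br (nat_lit 1) (.cons (.rel (nat_lit 4381016064)) (.cons (.rel (nat_lit 83906565)) (.cons (.rel (nat_lit 151003200)) .nil)))) (.cons (.rel (nat_lit 4362076170)) .nil)))) .nil)) .leaf) (nat_lit 22185040907350316) (.br (nat_lit 5) (.cons (.br (nat_lit 0) (.cons (.rel (nat_lit 4300210212)) (.cons (.br (nat_lit 6) (.cons (.rel (nat_lit 34368131328)) (.cons (.rel (nat_lit 17184227328)) .nil))) .nil))) .nil)) (.node .leaf (nat_lit 22185040907350648) (.br (nat_lit 5) (.cons (.br (nat_lit 3) (.cons (.br (nat_lit 1) (.cons (.rel (nat_lit 285376512)) (.cons (.rel (nat_lit 8623767552)) (.cons (.rel (nat_lit 570507264)) (.cons (.rel (nat_lit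 4328587296)) .nil))))) (.cons (.rel (nat_lit 8859418704)) (.cons (.rel (nat_lit 4831842384)) .nil)))) .nil)) .leaf)) (nat_lit 22185040907350677) (.br (nat_lit 5) (.cons (.br (nat_lit 1) (.cons (.rel (nat_lit 8623767552)) (.cons (.rel (nat_lit 4328587296)) .nil))) .nil)) (.node (.node .leaf (nat_lit 22185040907350691) (.br (nat_lit 3) (.cons (.br (nat_lit 2) (.cons (.rel (nat_lit 337707012)) (.cons (.rel (nat_lit 671088960)) .nil))) .nil)) .leaf) (nat_lit 22185040907350701) (.br (nat_lit 2) (.cons (.br (nat_lit 4) (.cons (.rel (nat_lit 1141115136)) .nil)) .nil)) .leaf)) (nat_lit 22185040907350916) (.br (nat_lit 1) (.cons (.br (nat_lit 3) (.cons (.rel (nat_lit 570507264)) .nil)) .nil)) (.node (.node (.node .leaf (nat_lit 22185040907351427) (.br (nat_lit 5) (.cons (.br (nat_lit 1) (.cons (.rel (nat_lit 8623767552)) (.cons (.rel (nat_lit 8606793732)) (.cons (.rel (nat_lit 4328522001)) .nil)))) .nil)) .leaf) (nat_lit 22185040908433458) (.br (nat_lit 0) (.cons (.br (nat_lit 1) (.cons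 (.rel (nat_lit 20987970)) .nil)) .nil)) .leaf) (nat_lit 22185040908434040) (.br (nat_lit 0) (.cons (.br (nat_lit 4) (.cons (.rel (nat_lit 2155872273)) .nil)) .nil)) (.node (.node .leaf (nat_lit 22185040908434094) (.br (nat_lit 1) (.cons (.br (nat_lit 2) (.cons (.rel (nat_lit 84934788)) .nil)) .nil)) .leaf) (nat_lit 22185040908434694) (.br (nat_lit 3) (.cons (.br (nat_lit 5) (.cons (.rel (nat_lit 4563410961)) (.cons (.rel (nat_lit 4831842384)) (.cons (.br (nat_lit 0) (.cons (.rel (nat_lit 8598585600)) (.cons (.rel (nat_lit 272630034)) (.cons (.rel (nat_lit 545325312)) (.cons (.rel (nat_lit 272647170)) (.cons (.rel (nat_lit 272732160)) .nil)))))) (.cons (.rel (nat_lit 4563404304)) .nil))))) (.cons (.br (nat_lit 5) (.cons (.rel (nat_lit 4563410961)) (.cons (.rel (nat_lit 4831842384)) (.cons (.rel (nat_lit 9126821904)) (.cons (.rel (nat_lit 4563404304)) .nil))))) .nil))) .leaf)))) (nat_lit 22185040908434794) (.br (nat_lit 0) (.cons (.br (nat_lit 2) (.cons (.rel (nat_lit 71385096))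 (.cons (.rel (nat_lit 71304720)) .nil))) (.cons (.br (nat_lit 2) (.cons (.rel (nat_lit 71304720)) (.cons (.rel (nat_lit 75563136)) .nil))) .nil))) (.node (.node (.node (.node (.node .leaf (nat_lit 22185040908647032) (.br (nat_lit 1) (.cons (.br (nat_lit 3) (.cons (.rel (nat_lit 285221376)) .nil)) .nil)) .leaf) (nat_lit 22185270826068904) (.br (nat_lit 1) (.cons (.br (nat_lit 2) (.cons (.rel (nat_lit 83968002)) .nil)) .nil)) (.node .leaf (nat_lit 22186169174666616) (.br (nat_lit 2) (.cons (.br (nat_lit 3) (.cons (.rel (nat_lit 335814660)) .nil)) .nil)) .leaf)) (nat_lit 22186169174682536) (.br (nat_lit 1) (.cons (.br (nat_lit 2) (.cons (.rel (nat_lit 83919888)) .nil)) .nil)) (.node (.node .leaf (nat_lit 22186169174835207) (.br (nat_lit 1) (.cons (.br (nat_lit 2) (.cons (.rel (nat_lit 83888640)) .nil)) .nil)) .leaf) (nat_lit 22186169174836136) (.br (nat_lit 1) (.cons (.br (nat_lit 2) (.cons (.rel (nat_lit 83919888)) .nil)) .nil)) .leaf)) (nat_lit 22186169535375992) (.br (nat_lit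 0) (.cons (.br (nat_lit 1) (.cons (.rel (nat_lit 22052880)) .nil)) .nil)) (.node (.node (.node .leaf (nat_lit 22186171796106473) (.br (nat_lit 4) (.cons (.br (nat_lit 2) (.cons (.rel (nat_lit 1141116930)) (.cons (.rel (nat_lit 1142947845)) .nil))) .nil)) .leaf) (nat_lit 22186171796122232) (.br (nat_lit 0) (.cons (.br (nat_lit 1) (.cons (.rel (nat_lit 20971848)) .nil)) .nil)) .leaf) (nat_lit 22186171796122375) (.br (nat_lit 0) (.cons (.br (nat_lit 1) (.cons (.rel (nat_lit 25165830)) .nil)) .nil)) (.node (.node .leaf (nat_lit 22186171796267640) (.br (nat_lit 0) (.cons (.br (nat_lit 1) (.cons (.rel (nat_lit 21499908)) .nil)) .nil)) .leaf) (nat_lit 22186172156816885) (.br (nat_lit 0) (.cons (.br (nat_lit 4) (.cons (.rel (nat_lit 2155872273)) .nil)) .nil)) .leaf))) (nat_lit 22186172156816921) (.br (nat_lit 0) (.cons (.br (nat_lit 2) (.cons (.rel (nat_lit 71323650)) .nil)) .nil)) (.node (.node (.node (.node .leaf (nat_lit 22186172156832376) (.br (nat_lit 1) (.cons (.br (nat_lit 5)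 (.cons (.rel (nat_lit 8606716164)) .nil)) .nil)) .leaf) (nat_lit 22186172156986601) (.br (nat_lit 1) (.cons (.br (nat_lit 4) (.cons (.rel (nat_lit 1090520082)) (.cons (.rel (nat_lit 1090521096)) .nil))) .nil)) .leaf) (nat_lit 22186172156986744) (.br (nat_lit 0) (.cons (.br (nat_lit 4) (.cons (.rel (nat_lit 1077936162)) .nil)) .nil)) (.node (.node .leaf (nat_lit 22186172156986905) (.br (nat_lit 0) (.cons (.br (nat_lit 2) (.cons (.rel (nat_lit 71323650)) .nil)) .nil)) .leaf) (nat_lit 22186172157276792) (.br (nat_lit 0) (.cons (.br (nat_lit 1) (.cons (.rel (nat_lit 22052880)) .nil)) .nil)) .leaf)) (nat_lit 22186172844698911) (.br (nat_lit 4) (.cons (.br (nat_lit 5) (.cons (.rel (nat_lit 6442455360)) .nil)) .nil)) (.node (.node (.node .leaf (nat_lit 22186172844698982) (.br (nat_lit 2) (.cons (.br (nat_lit 5) (.cons (.rel (nat_lit 4362076170)) .nil)) .nil)) .leaf) (nat_lit 22186172844699125) (.br (nat_lit 1) (.cons (.br (nat_lit 5) (.cons (.rel (nat_lit 4328587296)) .nil)) .nil))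 .leaf) (nat_lit 22186172844843033) (.br (nat_lit 1) (.cons (.br (nat_lit 5) (.cons (.rel (nat_lit 4312794132)) .nil)) .nil)) (.node (.node .leaf (nat_lit 22186172844844319) (.br (nat_lit 2) (.cons (.br (nat_lit 5) (.cons (.rel (nat_lit 4362076170)) .nil)) .nil)) .leaf) (nat_lit 22186172844844390) (.br (nat_lit 1) (.cons (.br (nat_lit 5) (.cons (.rel (nat_lit 4328587296)) (.cons (.rel (nat_lit 4311745104)) .nil))) .nil)) .leaf))))) (nat_lit 22186172844844533) (.br (nat_lit 5) (.cons (.br (nat_lit 2) (.cons (.rel (nat_lit 4362076170)) (.cons (.rel (nat_lit 4362076170)) .nil))) .nil)) (.node (.node (.node (.node (.node (.node .leaf (nat_lit 22186172845143327) (.br (nat_lit 2) (.cons (.br (nat_lit 5) (.cons (.rel (nat_lit 4362076170)) .nil)) .nil)) .leaf) (nat_lit 22186172845143398) (.br (nat_lit 2) (.cons (.br (nat_lit 5) (.cons (.rel (nat_lit 4362076170)) .nil)) .nil)) (.node .leaf (nat_lit 22186172845143541) (.br (nat_lit 2) (.cons (.br (nat_lit 5) (.cons (.rel (nat_lit 4362076170))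 .nil)) .nil)) .leaf)) (nat_lit 22186172845159336) (.br (nat_lit 0) (.cons (.br (nat_lit 3) (.cons (.rel (nat_lit 272646165)) .nil)) .nil)) (.node (.node .leaf (nat_lit 22186172845911398) (.br (nat_lit 1) (.cons (.br (nat_lit 5) (.cons (.rel (nat_lit 4312301568)) .nil)) .nil)) .leaf) (nat_lit 22186172845911541) (.br (nat_lit 1) (.cons (.br (nat_lit 4) (.cons (.rel (nat_lit 1090605072)) .nil)) .nil)) .leaf)) (nat_lit 22186172846441830) (.br (nat_lit 1) (.cons (.br (nat_lit 6) (.cons (.rel (nat_lit 34393313280)) .nil)) .nil)) (.node (.node (.node .leaf (nat_lit 22186174229262523) (.br (nat_lit 1) (.cons (.br (nat_lit 3) (.cons (.rel (nat_lit 303104064)) .nil)) .nil)) .leaf) (nat_lit 22186175512259817) (.br (nat_lit 0) (.cons (.br (nat_lit 1) (.cons (.rel (nat_lit 20971848)) .nil)) .nil)) .leaf) (nat_lit 22186175512276376) (.br (nat_lit 1) (.cons (.br (nat_lit 2) (.cons (.rel (nat_lit 83894292)) .nil)) .nil)) (.node (.node .leaf (nat_lit 22186323793488504) (.br (nat_lit 1) (.cons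 (.br (nat_lit 3) (.cons (.rel (nat_lit 285212949)) .nil)) .nil)) .leaf) (nat_lit 22186324319535736) (.br (nat_lit 2) (.cons (.br (nat_lit 3) (.cons (.rel (nat_lit 335544960)) .nil)) .nil)) .leaf))) (nat_lit 22186326863881503) (.br (nat_lit 2) (.cons (.br (nat_lit 5) (.cons (.rel (nat_lit 4362076170)) .nil)) .nil)) (.node (.node (.node (.node .leaf (nat_lit 22186326865271416) (.br (nat_lit 1) (.cons (.br (nat_lit 2) (.cons (.rel (nat_lit 83890434)) .nil)) .nil)) .leaf) (nat_lit 22186326865478943) (.br (nat_lit 4) (.cons (.br (nat_lit 2) (.cons (.rel (nat_lit 1140868224)) (.cons (.rel (nat_lit 2214593028)) .nil))) .nil)) (.node .leaf (nat_lit 22186332937225569) (.br (nat_lit 0) (.cons (.br (nat_lit 1) (.cons (.rel (nat_lit 22028289)) .nil)) .nil)) .leaf)) (nat_lit 22186332937552808) (.br (nat_lit 0) (.cons (.br (nat_lit 1) (.cons (.rel (nat_lit 20975697)) .nil)) .nil)) (.node (.node .leaf (nat_lit 22186335048035566) (.br (nat_lit 0) (.cons (.br (nat_lit 2) (.cons (.rel (nat_lit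 75776001)) .nil)) .nil)) .leaf) (nat_lit 22186423884984345) (.br (nat_lit 2) (.cons (.br (nat_lit 3) (.cons (.rel (nat_lit 671088960)) .nil)) .nil)) .leaf)) (nat_lit 22186423884984980) (.br (nat_lit 1) (.cons (.br (nat_lit 4) (.cons (.rel (nat_lit 2181039108)) .nil)) .nil)) (.node (.node (.node .leaf (nat_lit 22186423885591428) (.br (nat_lit 2) (.cons (.br (nat_lit 6) (.cons (.rel (nat_lit 17247010944)) .nil)) .nil)) .leaf) (nat_lit 22186423886358778) (.br (nat_lit 1) (.cons (.br (nat_lit 2) (.cons (.rel (nat_lit 83888640)) .nil)) .nil)) .leaf) (nat_lit 22186423886359214) (.br (nat_lit 3) (.cons (.br (nat_lit 4) (.cons (.rel (nat_lit 1342177416)) .nil)) .nil)) (.node (.node .leaf (nat_lit 22186423886359914) (.br (nat_lit 4) (.cons (.br (nat_lit 2) (.cons (.rel (nat_lit 1140868224)) (.cons (.rel (nat_lit 1142947845)) .nil))) .nil)) .leaf) (nat_lit 22186423886360028) (.br (nat_lit 4) (.cons (.br (nat_lit 0) (.cons (.rel (nat_lit 1077936162)) (.cons (.rel (nat_lit 2155872273))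 (.cons (.rel (nat_lit 1077937176)) (.cons (.rel (nat_lit 1077940740)) (.cons (.rel (nat_lit 1078018308)) .nil)))))) .nil)) .leaf)))) (nat_lit 22186423886376323) (.br (nat_lit 1) (.cons (.br (nat_lit 4) (.cons (.rel (nat_lit 1090521096)) .nil)) .nil)) (.node (.node (.node (.node (.node .leaf (nat_lit 22186423886376344) (.br (nat_lit 1) (.cons (.br (nat_lit 2) (.cons (.rel (nat_lit 83890434)) .nil)) .nil)) .leaf) (nat_lit 22186423886521606) (.br (nat_lit 1) (.cons (.br (nat_lit 2) (.cons (.rel (nat_lit 168051792)) .nil)) .nil)) (.node .leaf (nat_lit 22186423886521695) (.br (nat_lit 1) (.cons (.br (nat_lit 4) (.cons (.rel (nat_lit 1090539777)) .nil)) .nil)) .leaf)) (nat_lit 22186423886819628) (.br (nat_lit 1) (.cons (.br (nat_lit 6) (.cons (.rel (nat_lit 34393313280)) .nil)) .nil)) (.node (.node .leaf (nat_lit 22186423886820003) (.br (nat_lit 1) (.cons (.br (nat_lit 5) (.cons (.rel (nat_lit 4328538132)) .nil)) .nil)) .leaf) (nat_lit 22186423886820013) (.br (nat_lit 0) (.cons (.br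 (nat_lit 1) (.cons (.rel (nat_lit 37883904)) (.cons (.rel (nat_lit 20971848)) .nil))) (.cons (.br (nat_lit 1) (.cons (.rel (nat_lit 21041760)) (.cons (.rel (nat_lit 21499908)) .nil))) .nil))) .leaf)) (nat_lit 22186423886820130) (.br (nat_lit 1) (.cons (.br (nat_lit 2) (.cons (.rel (nat_lit 83951880)) .nil)) .nil)) (.node (.node (.node .leaf (nat_lit 22186423886820228) (.br (nat_lit 1) (.cons (.br (nat_lit 2) (.cons (.rel (nat_lit 83888640)) (.cons (.rel (nat_lit 167773440)) .nil))) (.cons (.br (nat_lit 6) (.cons (.rel (nat_lit 17198743617)) (.cons (.rel (nat_lit 34393313280)) .nil))) .nil))) .leaf) (nat_lit 22186423886820259) (.br (nat_lit 2) (.cons (.br (nat_lit 0) (.cons (.rel (nat_lit 71321856)) (.cons (.rel (nat_lit 71323650)) (.cons (.rel (nat_lit 71304720)) .nil)))) (.cons (.br (nat_lit 0) (.cons (.rel (nat_lit 71321856)) (.cons (.rel (nat_lit 71304720)) (.cons (.rel (nat_lit 75563136)) .nil)))) .nil))) .leaf) (nat_lit 22186423886820828) (.br (nat_lit 1) (.cons (.br (nat_lit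 2) (.cons (.rel (nat_lit 83890434)) (.cons (.rel (nat_lit 83888640)) (.cons (.rel (nat_lit 83890434)) (.cons (.rel (nat_lit 83906565)) .nil))))) (.cons (.br (nat_lit 2) (.cons (.rel (nat_lit 83902752)) (.cons (.rel (nat_lit 100667520)) (.cons (.rel (nat_lit 167773440)) (.cons (.rel (nat_lit 102760464)) .nil))))) .nil))) (.node (.node .leaf (nat_lit 22186423886820885) (.br (nat_lit 5) (.cons (.br (nat_lit 2) (.cons (.rel (nat_lit 4362076170)) (.cons (.rel (nat_lit 4362076170)) .nil))) .nil)) .leaf) (nat_lit 22186423887587628) (.br (nat_lit 0) (.cons (.br (nat_lit 1) (.cons (.rel (nat_lit 22021632)) (.cons (.rel (nat_lit 22028289)) .nil))) (.cons (.br (nat_lit 1) (.cons (.rel (nat_lit 22028289)) (.cons (.rel (nat_lit 20971848)) .nil))) .nil))) .leaf))) (nat_lit 22186423887588639) (.br (nat_lit 1) (.cons (.br (nat_lit 0) (.cons (.rel (nat_lit 20971848)) (.cons (.rel (nat_lit 21499908)) .nil))) .nil)) (.node (.node (.node (.node .leaf (nat_lit 22186423887902727) (.br (nat_lit 1)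 (.cons (.br (nat_lit 4) (.cons (.rel (nat_lit 1090521096)) .nil)) .nil)) .leaf) (nat_lit 22186423887902970) (.br (nat_lit 1) (.cons (.br (nat_lit 2) (.cons (.rel (nat_lit 83902752)) .nil)) .nil)) .leaf) (nat_lit 22186423887904006) (.br (nat_lit 0) (.cons (.br (nat_lit 2) (.cons (.rel (nat_lit 142622736)) .nil)) .nil)) (.node (.node .leaf (nat_lit 22186423888115737) (.br (nat_lit 1) (.cons (.br (nat_lit 3) (.cons (.rel (nat_lit 285278244)) .nil)) .nil)) .leaf) (nat_lit 22186423888115769) (.br (nat_lit 1) (.cons (.br (nat_lit 2) (.cons (.rel (nat_lit 84181056)) .nil)) .nil)) .leaf)) (nat_lit 22186423888116612) (.br (nat_lit 1) (.cons (.br (nat_lit 2) (.cons (.rel (nat_lit 167773440)) .nil)) .nil)) (.node (.node (.node .leaf (nat_lit 22186423888117269) (.br (nat_lit 1) (.cons (.br (nat_lit 2) (.cons (.rel (nat_lit 83888640)) (.cons (.rel (nat_lit 83888640)) .nil))) .nil)) .leaf) (nat_lit 22186424618988152) (.br (nat_lit 1) (.cons (.br (nat_lit 2) (.cons (.rel (nat_lit 167773440))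 (.cons (.rel (nat_lit 83902752)) .nil))) .nil)) .leaf) (nat_lit 22186424620379623) (.br (nat_lit 1) (.cons (.br (nat_lit 3) (.cons (.rel (nat_lit 285376512)) .nil)) .nil)) (.node (.node .leaf (nat_lit 22186424620823810) (.br (nat_lit 1) (.cons (.br (nat_lit 2) (.cons (.rel (nat_lit 83890434)) .nil)) .nil)) .leaf) (nat_lit 22186424622111352) (.br (nat_lit 1) (.cons (.br (nat_lit 4) (.cons (.rel (nat_lit 1090519077)) .nil)) .nil)) .leaf))))))

/-- refutations 24 -/
def e24 : EX := (.node (.node (.node (.node (.node (.node .leaf (nat_lit 22189166878518635) (.br (nat_lit 0) (.cons (.br (nat_lit 1) (.cons (.rel (nat_lit 22052880)) .nil)) .nil)) .leaf) (nat_lit 22189166879039668) (.br (nat_lit 0) (.cons (.br (nat_lit 1) (.cons (.rel (nat_lit 22028289)) .nil)) .nil)) (.node .leaf (nat_lit 22189170732008806) (.br (nat_lit 1) (.cons (.br (nat_lit 2) (.cons (.rel (nat_lit 83906565)) .nil)) .nil)) .leaf)) (nat_lit 22189218440945128) (.br (nat_lit 0) (.cons (.br (nat_lit 3) (.cons (.rel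 (nat_lit 272654592)) .nil)) .nil)) (.node (.node .leaf (nat_lit 22189332934439698) (.br (nat_lit 1) (.cons (.br (nat_lit 0) (.cons (.rel (nat_lit 20987970)) (.cons (.rel (nat_lit 25239552)) (.cons (.rel (nat_lit 22021632)) .nil)))) (.cons (.br (nat_lit 2) (.cons (.rel (nat_lit 83968002)) (.cons (.rel (nat_lit 85196817)) .nil))) .nil))) .leaf) (nat_lit 22190198315517179) (.br (nat_lit 0) (.cons (.br (nat_lit 2) (.cons (.rel (nat_lit 71323650)) .nil)) .nil)) .leaf)) (nat_lit 22190200516308206) (.br (nat_lit 0) (.cons (.br (nat_lit 2) (.cons (.rel (nat_lit 142622736)) .nil)) .nil)) (.node (.node (.node .leaf (nat_lit 22190200516604031) (.br (nat_lit 0) (.cons (.br (nat_lit 1) (.cons (.rel (nat_lit 20975697)) .nil)) .nil)) .leaf) (nat_lit 22190200517381603) (.br (nat_lit 1) (.cons (.br (nat_lit 0) (.cons (.rel (nat_lit 22151172)) (.cons (.rel (nat_lit 20987970)) .nil))) .nil)) .leaf) (nat_lit 22190200517526779) (.br (nat_lit 1) (.cons (.br (nat_lit 4) (.cons (.rel (nat_lit 1090520082))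 .nil)) .nil)) (.node (.node .leaf (nat_lit 22190200517526890) (.br (nat_lit 0) (.cons (.br (nat_lit 1) (.cons (.rel (nat_lit 37750800)) .nil)) .nil)) .leaf) (nat_lit 22190200517833331) (.br (nat_lit 0) (.cons (.br (nat_lit 2) (.cons (.rel (nat_lit 142622736)) .nil)) .nil)) .leaf))) (nat_lit 22190200941151483) (.br (nat_lit 3) (.cons (.br (nat_lit 0) (.cons (.rel (nat_lit 272697348)) (.cons (.rel (nat_lit 272630034)) .nil))) .nil)) (.node (.node (.node (.node .leaf (nat_lit 22190200942748333) (.br (nat_lit 4) (.cons (.br (nat_lit 2) (.cons (.rel (nat_lit 1207959816)) (.cons (.rel (nat_lit 1141178376)) .nil))) .nil)) .leaf) (nat_lit 22190200942756525) (.br (nat_lit 2) (.cons (.br (nat_lit 4) (.cons (.rel (nat_lit 1140851088)) .nil)) .nil)) .leaf) (nat_lit 22190284112969735) (.br (nat_lit 1) (.cons (.br (nat_lit 2) (.cons (.rel (nat_lit 102760464)) .nil)) .nil)) (.node (.node .leaf (nat_lit 22190284112970360) (.br (nat_lit 2) (.cons (.br (nat_lit 4) (.cons (.rel (nat_lit 1140851088))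 (.cons (.rel (nat_lit 1140851088)) .nil))) .nil)) .leaf) (nat_lit 22190284112970985) (.br (nat_lit 0) (.cons (.br (nat_lit 1) (.cons (.rel (nat_lit 20987970)) .nil)) .nil)) .leaf)) (nat_lit 22190284114045703) (.br (nat_lit 0) (.cons (.br (nat_lit 6) (.cons (.rel (nat_lit 17184064770)) (.cons (.rel (nat_lit 17184063765)) (.cons (.rel (nat_lit 17184064770)) .nil)))) .nil)) (.node (.node (.node .leaf (nat_lit 22190284114045864) (.br (nat_lit 2) (.cons (.br (nat_lit 0) (.cons (.rel (nat_lit 71307528)) (.cons (.rel (nat_lit 71311377)) .nil))) .nil)) .leaf) (nat_lit 22190284114506039) (.br (nat_lit 1) (.cons (.br (nat_lit 2) (.cons (.rel (nat_lit 167773440)) .nil)) .nil)) .leaf) (nat_lit 22190284114507003) (.br (nat_lit 4) (.cons (.br (nat_lit 5) (.cons (.rel (nat_lit 5368710432)) .nil)) .nil)) (.node (.node .leaf (nat_lit 22190284115794231) (.br (nat_lit 1) (.cons (.br (nat_lit 3) (.cons (.rel (nat_lit 570426900)) .nil)) .nil)) .leaf) (nat_lit 22190284171690659) (.br (nat_lit 2)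 (.cons (.br (nat_lit 4) (.cons (.rel (nat_lit 1207963665)) .nil)) .nil)) .leaf)))) (nat_lit 22190284171691241) (.br (nat_lit 1) (.cons (.br (nat_lit 2) (.cons (.rel (nat_lit 83951880)) .nil)) .nil)) (.node (.node (.node (.node (.node .leaf (nat_lit 22190284172766120) (.br (nat_lit 1) (.cons (.br (nat_lit 2) (.cons (.rel (nat_lit 83951880)) .nil)) .nil)) .leaf) (nat_lit 22190284173226616) (.br (nat_lit 1) (.cons (.br (nat_lit 3) (.cons (.rel (nat_lit 285213954)) .nil)) .nil)) (.node .leaf (nat_lit 22190284173995241) (.br (nat_lit 1) (.cons (.br (nat_lit 3) (.cons (.rel (nat_lit 285278244)) .nil)) .nil)) .leaf)) (nat_lit 22190284305908998) (.br (nat_lit 1) (.cons (.br (nat_lit 0) (.cons (.rel (nat_lit 41963664)) (.cons (.rel (nat_lit 25202709)) .nil))) .nil)) (.node (.node .leaf (nat_lit 22190284307444637) (.br (nat_lit 0) (.cons (.br (nat_lit 5) (.cons (.rel (nat_lit 4299169860)) (.cons (.rel (nat_lit 4300308480)) .nil))) .nil)) .leaf) (nat_lit 22190284308211873) (.br (nat_lit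 1) (.cons (.br (nat_lit 3) (.cons (.rel (nat_lit 285376512)) .nil)) .nil)) .leaf)) (nat_lit 22190286373700841) (.br (nat_lit 2) (.cons (.br (nat_lit 3) (.cons (.rel (nat_lit 335809056)) (.cons (.rel (nat_lit 603981057)) .nil))) .nil)) (.node (.node (.node .leaf (nat_lit 22190286373700859) (.br (nat_lit 2) (.cons (.br (nat_lit 4) (.cons (.rel (nat_lit 1141129248)) .nil)) .nil)) .leaf) (nat_lit 22190286374775534) (.br (nat_lit 0) (.cons (.br (nat_lit 1) (.cons (.rel (nat_lit 20971848)) .nil)) .nil)) .leaf) (nat_lit 22190286374775720) (.br (nat_lit 2) (.cons (.br (nat_lit 3) (.cons (.rel (nat_lit 335823120)) (.cons (.rel (nat_lit 335544960)) .nil))) (.cons (.br (nat_lit 3) (.cons (.rel (nat_lit 335876097)) (.cons (.rel (nat_lit 402722832)) .nil))) .nil))) (.node (.node .leaf (nat_lit 22190286374776041) (.br (nat_lit 2) (.cons (.br (nat_lit 4) (.cons (.rel (nat_lit 1141129248)) (.cons (.rel (nat_lit 1140868224)) .nil))) .nil)) .leaf) (nat_lit 22190286375235591) (.br (nat_lit 0)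 (.cons (.br (nat_lit 5) (.cons (.rel (nat_lit 4299178320)) .nil)) .nil)) .leaf))) (nat_lit 22190286375236216) (.br (nat_lit 0) (.cons (.br (nat_lit 3) (.cons (.rel (nat_lit 272633892)) .nil)) .nil)) (.node (.node (.node (.node .leaf (nat_lit 22190286376003716) (.br (nat_lit 3) (.cons (.br (nat_lit 4) (.cons (.rel (nat_lit 1342177416)) (.cons (.rel (nat_lit 1342439445)) .nil))) .nil)) .leaf) (nat_lit 22190286376004841) (.br (nat_lit 3) (.cons (.br (nat_lit 6) (.cons (.rel (nat_lit 17448570897)) (.cons (.rel (nat_lit 34628173833)) .nil))) (.cons (.br (nat_lit 1) (.cons (.rel (nat_lit 286540032)) (.cons (.rel (nat_lit 285279249)) (.cons (.rel (nat_lit 285278244)) .nil)))) .nil))) .leaf) (nat_lit 22190286376524408) (.br (nat_lit 2) (.cons (.br (nat_lit 4) (.cons (.rel (nat_lit 1208026116)) .nil)) .nil)) (.node (.node .leaf (nat_lit 22190510598534395) (.br (nat_lit 1) (.cons (.br (nat_lit 4) (.cons (.rel (nat_lit 1090527504)) .nil)) .nil)) .leaf) (nat_lit 22190512130742557) (.br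 (nat_lit 0) (.cons (.br (nat_lit 1) (.cons (.rel (nat_lit 22052880)) .nil)) .nil)) .leaf)) (nat_lit 22190619732744824) (.br (nat_lit 1) (.cons (.br (nat_lit 2) (.cons (.rel (nat_lit 83888640)) .nil)) .nil)) (.node (.node (.node .leaf (nat_lit 22190619732745503) (.br (nat_lit 2) (.cons (.br (nat_lit 3) (.cons (.rel (nat_lit 336593988)) .nil)) .nil)) .leaf) (nat_lit 22190619733863807) (.br (nat_lit 0) (.cons (.br (nat_lit 1) (.cons (.rel (nat_lit 20987970)) .nil)) .nil)) .leaf) (nat_lit 22190619733879416) (.br (nat_lit 5) (.cons (.br (nat_lit 3) (.cons (.rel (nat_lit 4563410961)) (.cons (.rel (nat_lit 9126821904)) .nil))) .nil)) (.node (.node .leaf (nat_lit 22190619734323975) (.br (nat_lit 3) (.cons (.br (nat_lit 4) (.cons (.rel (nat_lit 1342177416)) .nil)) .nil)) .leaf) (nat_lit 22190619734324100) (.br (nat_lit 2) (.cons (.br (nat_lit 4) (.cons (.rel (nat_lit 1141115136)) .nil)) .nil)) .leaf)))))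

/-- refutations 25 -/
def e25 : EX := (.node (.node (.node (.node (.node (.node (.node (.node .leaf (nat_lit 22190679251036792) (.br (nat_lit 1) (.cons (.br (nat_lit 4) (.cons (.rel (nat_lit 1090555908)) .nil)) .nil)) .leaf) (nat_lit 22190679251206776) (.br (nat_lit 1) (.cons (.br (nat_lit 4) (.cons (.rel (nat_lit 1090527504)) (.cons (.rel (nat_lit 2181039108)) .nil))) .nil)) .leaf) (nat_lit 22190679251207055) (.br (nat_lit 0) (.cons (.br (nat_lit 1) (.cons (.rel (nat_lit 37748745)) .nil)) .nil)) (.node .leaf (nat_lit 22190679251513976) (.br (nat_lit 1) (.cons (.br (nat_lit 3) (.cons (.rel (nat_lit 570429696)) .nil)) .nil)) .leaf)) (nat_lit 22190679252470392) (.br (nat_lit 1) (.cons (.br (nat_lit 2) (.cons (.rel (nat_lit 84018180)) .nil)) .nil)) (.node (.node .leaf (nat_lit 22190679308682502) (.br (nat_lit 0) (.cons (.br (nat_lit 4) (.cons (.rel (nat_lit 1077936162)) .nil)) .nil)) .leaf) (nat_lit 22190679308989048) (.br (nat_lit 1) (.cons (.br (nat_lit 3) (.cons (.rel (nat_lit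 570507264)) .nil)) .nil)) (.node .leaf (nat_lit 22190679309757048) (.br (nat_lit 1) (.cons (.br (nat_lit 2) (.cons (.rel (nat_lit 167773440)) .nil)) .nil)) .leaf))) (nat_lit 22190679310217516) (.br (nat_lit 0) (.cons (.br (nat_lit 1) (.cons (.rel (nat_lit 37750800)) .nil)) .nil)) (.node (.node (.node (.node .leaf (nat_lit 22190679310217848) (.br (nat_lit 3) (.cons (.br (nat_lit 4) (.cons (.rel (nat_lit 1610630400)) .nil)) .nil)) .leaf) (nat_lit 22190679352161542) (.br (nat_lit 1) (.cons (.br (nat_lit 2) (.cons (.rel (nat_lit 83951880)) .nil)) .nil)) .leaf) (nat_lit 22190679442599943) (.br (nat_lit 0) (.cons (.br (nat_lit 3) (.cons (.rel (nat_lit 272654592)) .nil)) .nil)) (.node .leaf (nat_lit 22190679442600072) (.br (nat_lit 0) (.cons (.br (nat_lit 1) (.cons (.rel (nat_lit 25165830)) .nil)) .nil)) .leaf)) (nat_lit 22190679442899869) (.br (nat_lit 0) (.cons (.br (nat_lit 3) (.cons (.rel (nat_lit 272646165)) .nil)) .nil)) (.node (.node .leaf (nat_lit 22190679442900230) (.br (nat_lit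 2) (.cons (.br (nat_lit 5) (.cons (.rel (nat_lit 4362076170)) (.cons (.rel (nat_lit 4362076170)) .nil))) .nil)) .leaf) (nat_lit 22190679443975069) (.br (nat_lit 1) (.cons (.br (nat_lit 0) (.cons (.rel (nat_lit 21038148)) (.cons (.rel (nat_lit 25166880)) .nil))) .nil)) (.node .leaf (nat_lit 22190679443975531) (.br (nat_lit 0) (.cons (.br (nat_lit 1) (.cons (.rel (nat_lit 22021632)) .nil)) .nil)) .leaf)))) (nat_lit 22190679443982586) (.br (nat_lit 0) (.cons (.br (nat_lit 1) (.cons (.rel (nat_lit 21499908)) .nil)) .nil)) (.node (.node (.node (.node (.node .leaf (nat_lit 22190679443983122) (.br (nat_lit 1) (.cons (.br (nat_lit 0) (.cons (.rel (nat_lit 25198848)) (.cons (.rel (nat_lit 25198848)) .nil))) .nil)) .leaf) (nat_lit 22190679443983261) (.br (nat_lit 0) (.cons (.br (nat_lit 2) (.cons (.rel (nat_lit 71311377)) (.cons (.rel (nat_lit 71304720)) .nil))) (.cons (.br (nat_lit 2) (.cons (.rel (nat_lit 71323650)) (.cons (.rel (nat_lit 75563136)) .nil))) .nil))) .leaf) (nat_lit 22190679443992028)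 (.br (nat_lit 0) (.cons (.br (nat_lit 3) (.cons (.rel (nat_lit 272697348)) .nil)) .nil)) (.node .leaf (nat_lit 22190679444127994) (.br (nat_lit 0) (.cons (.br (nat_lit 3) (.cons (.rel (nat_lit 272646165)) (.cons (.rel (nat_lit 272646165)) (.cons (.rel (nat_lit 272646165)) (.cons (.rel (nat_lit 272631048)) (.cons (.rel (nat_lit 545325312)) (.cons (.rel (nat_lit 272631048)) (.cons (.rel (nat_lit 272647170)) .nil)))))))) (.cons (.br (nat_lit 5) (.cons (.rel (nat_lit 4299686400)) (.cons (.rel (nat_lit 8595439632)) .nil))) .nil))) .leaf)) (nat_lit 22190679444129131) (.br (nat_lit 2) (.cons (.br (nat_lit 0) (.cons (.rel (nat_lit 71565888)) (.cons (.rel (nat_lit 139462656)) .nil))) .nil)) (.node (.node .leaf (nat_lit 22190679444435730) (.br (nat_lit 0) (.cons (.br (nat_lit 1) (.cons (.rel (nat_lit 25198848)) (.cons (.rel (nat_lit 25198848)) (.cons (.rel (nat_lit 20971848)) .nil)))) .nil)) .leaf) (nat_lit 22190679445203194) (.br (nat_lit 3) (.cons (.br (nat_lit 0) (.cons (.rel (nat_lit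 545325312)) (.cons (.rel (nat_lit 272631048)) .nil))) .nil)) (.node .leaf (nat_lit 22190679445526778) (.br (nat_lit 0) (.cons (.br (nat_lit 3) (.cons (.rel (nat_lit 545325312)) (.cons (.rel (nat_lit 272631048)) (.cons (.rel (nat_lit 272633892)) (.cons (.rel (nat_lit 545325312)) .nil))))) .nil)) .leaf))) (nat_lit 22190682350627448) (.br (nat_lit 1) (.cons (.br (nat_lit 6) (.cons (.rel (nat_lit 17196713985)) .nil)) .nil)) (.node (.node (.node (.node .leaf (nat_lit 22190682351856516) (.br (nat_lit 0) (.cons (.br (nat_lit 1) (.cons (.rel (nat_lit 21499908)) .nil)) .nil)) .leaf) (nat_lit 22190684036737656) (.br (nat_lit 2) (.cons (.br (nat_lit 4) (.cons (.rel (nat_lit 2214593028)) .nil)) .nil)) .leaf) (nat_lit 22191360159002751) (.br (nat_lit 0) (.cons (.br (nat_lit 2) (.cons (.rel (nat_lit 71311377)) .nil)) .nil)) (.node .leaf (nat_lit 22191360159003410) (.br (nat_lit 2) (.cons (.br (nat_lit 3) (.cons (.br (nat_lit 0) (.cons (.rel (nat_lit 545325312)) (.cons (.rel (nat_lit 139462656))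 (.cons (.rel (nat_lit 272761344)) .nil)))) .nil)) .nil)) .leaf)) (nat_lit 22191360159771386) (.br (nat_lit 0) (.cons (.br (nat_lit 4) (.cons (.rel (nat_lit 1077936162)) .nil)) .nil)) (.node (.node .leaf (nat_lit 22191361163800601) (.br (nat_lit 1) (.cons (.br (nat_lit 0) (.cons (.rel (nat_lit 22052880)) (.cons (.rel (nat_lit 22028289)) (.cons (.rel (nat_lit 22052880)) .nil)))) .nil)) .leaf) (nat_lit 22191361164099591) (.br (nat_lit 0) (.cons (.br (nat_lit 3) (.cons (.rel (nat_lit 272633892)) .nil)) .nil)) (.node .leaf (nat_lit 22191361165192550) (.br (nat_lit 1) (.cons (.br (nat_lit 2) (.cons (.rel (nat_lit 167773440)) (.cons (.rel (nat_lit 100992000)) (.cons (.rel (nat_lit 167773440)) .nil)))) .nil)) .leaf))))) (nat_lit 22191361165336601) (.br (nat_lit 1) (.cons (.br (nat_lit 0) (.cons (.rel (nat_lit 37765632)) (.cons (.rel (nat_lit 37765632)) (.cons (.rel (nat_lit 23070852)) (.cons (.rel (nat_lit 22021632)) .nil))))) (.cons (.br (nat_lit 3) (.cons (.rel (nat_lit 285221376))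 (.cons (.rel (nat_lit 554696964)) .nil))) .nil))) (.node (.node (.node (.node (.node (.node .leaf (nat_lit 22191361165635591) (.br (nat_lit 0) (.cons (.br (nat_lit 1) (.cons (.rel (nat_lit 25166880)) .nil)) .nil)) .leaf) (nat_lit 22191361165636520) (.br (nat_lit 1) (.cons (.br (nat_lit 3) (.cons (.rel (nat_lit 570429696)) .nil)) .nil)) .leaf) (nat_lit 22191361165636895) (.br (nat_lit 1) (.cons (.br (nat_lit 5) (.cons (.rel (nat_lit 4311762240)) (.cons (.rel (nat_lit 4312795137)) .nil))) .nil)) (.node .leaf (nat_lit 22191361165636966) (.br (nat_lit 4) (.cons (.br (nat_lit 5) (.cons (.rel (nat_lit 5368774677)) (.cons (.rel (nat_lit 5368710432)) .nil))) (.cons (.br (nat_lit 5) (.cons (.rel (nat_lit 9663942660)) (.cons (.rel (nat_lit 5368725513)) .nil))) .nil))) .leaf)) (nat_lit 22191361165636995) (.br (nat_lit 2) (.cons (.br (nat_lit 3) (.cons (.rel (nat_lit 335840256)) .nil)) .nil)) (.node (.node .leaf (nat_lit 22191361166403609) (.br (nat_lit 1) (.cons (.br (nat_lit 3) (.cons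 (.rel (nat_lit 301991040)) .nil)) .nil)) .leaf) (nat_lit 22191361166404895) (.br (nat_lit 1) (.cons (.br (nat_lit 5) (.cons (.rel (nat_lit 4312795137)) .nil)) .nil)) (.node .leaf (nat_lit 22191361166404966) (.br (nat_lit 5) (.cons (.br (nat_lit 1) (.cons (.rel (nat_lit 4328522001)) (.cons (.rel (nat_lit 8606842896)) (.cons (.rel (nat_lit 4312795137)) .nil)))) .nil)) .leaf))) (nat_lit 22191361166405009) (.br (nat_lit 2) (.cons (.br (nat_lit 3) (.cons (.rel (nat_lit 336593988)) .nil)) .nil)) (.node (.node (.node (.node .leaf (nat_lit 22191361166405109) (.br (nat_lit 5) (.cons (.br (nat_lit 1) (.cons (.rel (nat_lit 8623767552)) (.cons (.rel (nat_lit 4328587296)) .nil))) .nil)) .leaf) (nat_lit 22191361166727193) (.br (nat_lit 1) (.cons (.br (nat_lit 3) (.cons (.rel (nat_lit 301991040)) .nil)) .nil)) .leaf) (nat_lit 22191361166728479) (.br (nat_lit 1) (.cons (.br (nat_lit 4) (.cons (.rel (nat_lit 2164277328)) .nil)) .nil)) (.node .leaf (nat_lit 22191361166728705) (.br (nat_lit 0)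 (.cons (.br (nat_lit 4) (.cons (.rel (nat_lit 2155872273)) .nil)) .nil)) .leaf)) (nat_lit 22191757770633516) (.br (nat_lit 4) (.cons (.br (nat_lit 5) (.cons (.rel (nat_lit 5368725513)) .nil)) .nil)) (.node (.node .leaf (nat_lit 22194484801008516) (.br (nat_lit 3) (.cons (.br (nat_lit 2) (.cons (.rel (nat_lit 335876097)) (.cons (.rel (nat_lit 671088960)) .nil))) .nil)) .leaf) (nat_lit 22194484801776366) (.br (nat_lit 1) (.cons (.br (nat_lit 4) (.cons (.rel (nat_lit 2164277328)) .nil)) .nil)) (.node .leaf (nat_lit 22194484802236677) (.br (nat_lit 1) (.cons (.br (nat_lit 5) (.cons (.rel (nat_lit 4312795137)) .nil)) .nil)) .leaf)))) (nat_lit 22194484802237316) (.br (nat_lit 1) (.cons (.br (nat_lit 0) (.cons (.rel (nat_lit 22151172)) (.cons (.rel (nat_lit 22052880)) .nil))) .nil)) (.node (.node (.node (.node (.node .leaf (nat_lit 22194579243545958) (.br (nat_lit 1) (.cons (.br (nat_lit 5) (.cons (.rel (nat_lit 4312269318)) .nil)) .nil)) .leaf) (nat_lit 22194579243843609) (.br (nat_lit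 1) (.cons (.br (nat_lit 5) (.cons (.rel (nat_lit 4328538132)) .nil)) .nil)) .leaf) (nat_lit 22194579243844216) (.br (nat_lit 1) (.cons (.br (nat_lit 4) (.cons (.rel (nat_lit 1107558912)) (.cons (.rel (nat_lit 1109393688)) .nil))) .nil)) (.node .leaf (nat_lit 22194579243844895) (.br (nat_lit 3) (.cons (.br (nat_lit 1) (.cons (.rel (nat_lit 285213954)) (.cons (.rel (nat_lit 285221376)) .nil))) .nil)) .leaf)) (nat_lit 22194579245081208) (.br (nat_lit 1) (.cons (.br (nat_lit 4) (.cons (.rel (nat_lit 2181039108)) (.cons (.rel (nat_lit 1090519077)) .nil))) .nil)) (.node (.node .leaf (nat_lit 22194579245081887) (.br (nat_lit 4) (.cons (.br (nat_lit 5) (.cons (.rel (nat_lit 5368710432)) .nil)) .nil)) .leaf) (nat_lit 22194579245379609) (.br (nat_lit 5) (.cons (.br (nat_lit 1) (.cons (.rel (nat_lit 4311814212)) (.cons (.rel (nat_lit 8623767552)) .nil))) .nil)) (.node .leaf (nat_lit 22194579245380216) (.br (nat_lit 5) (.cons (.br (nat_lit 6) (.cons (.rel (nat_lit 21474856965)) (.cons (.rel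 (nat_lit 21474844692)) (.cons (.rel (nat_lit 42949674240)) (.cons (.rel (nat_lit 25771966464)) (.cons (.rel (nat_lit 25771966464)) (.cons (.rel (nat_lit 21474856965)) (.cons (.rel (nat_lit 38655885312)) (.cons (.rel (nat_lit 21474906129)) .nil))))))))) .nil)) .leaf))) (nat_lit 22194579246148216) (.br (nat_lit 1) (.cons (.br (nat_lit 3) (.cons (.rel (nat_lit 570429696)) .nil)) .nil)) (.node (.node (.node .leaf (nat_lit 22194579246471354) (.br (nat_lit 1) (.cons (.br (nat_lit 4) (.cons (.rel (nat_lit 1090519077)) .nil)) .nil)) .leaf) (nat_lit 22194579246472479) (.br (nat_lit 1) (.cons (.br (nat_lit 4) (.cons (.rel (nat_lit 1090519077)) .nil)) .nil)) (.node .leaf (nat_lit 22194579246678648) (.br (nat_lit 3) (.cons (.br (nat_lit 4) (.cons (.rel (nat_lit 2415919392)) .nil)) .nil)) .leaf)) (nat_lit 22194582315311736) (.br (nat_lit 0) (.cons (.br (nat_lit 1) (.cons (.rel (nat_lit 20975697)) .nil)) .nil)) (.node (.node .leaf (nat_lit 22194582315611423) (.br (nat_lit 1) (.cons (.br (nat_lit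 2) (.cons (.rel (nat_lit 83968002)) .nil)) .nil)) .leaf) (nat_lit 22194584322847352) (.br (nat_lit 1) (.cons (.br (nat_lit 3) (.cons (.rel (nat_lit 285213954)) (.cons (.rel (nat_lit 285229080)) (.cons (.rel (nat_lit 303104064)) .nil)))) .nil)) (.node .leaf (nat_lit 22194584322847656) (.br (nat_lit 1) (.cons (.br (nat_lit 5) (.cons (.rel (nat_lit 8606842896)) .nil)) .nil)) .leaf)))))) (nat_lit 22194584323145914) (.br (nat_lit 4) (.cons (.br (nat_lit 1) (.cons (.rel (nat_lit 1091568000)) (.cons (.rel (nat_lit 2181039108)) .nil))) .nil)) (.node (.node (.node (.node (.node (.node (.node .leaf (nat_lit 22194584323146360) (.br (nat_lit 3) (.cons (.br (nat_lit 4) (.cons (.rel (nat_lit 1343766528)) (.cons (.rel (nat_lit 1342177416)) .nil))) (.cons (.br (nat_lit 4) (.cons (.rel (nat_lit 2415936528)) (.cons (.rel (nat_lit 1343766528)) .nil))) .nil))) .leaf) (nat_lit 22194584323146664) (.br (nat_lit 3) (.cons (.br (nat_lit 1) (.cons (.rel (nat_lit 554172432)) (.cons (.rel (nat_lit 285212949))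 (.cons (.rel (nat_lit 287836164)) .nil)))) (.cons (.br (nat_lit 1) (.cons (.rel (nat_lit 553650240)) (.cons (.rel (nat_lit 285229080)) (.cons (.rel (nat_lit 570429696)) .nil)))) .nil))) .leaf) (nat_lit 22194584323453560) (.br (nat_lit 3) (.cons (.br (nat_lit 5) (.cons (.rel (nat_lit 4564451457)) .nil)) .nil)) (.node .leaf (nat_lit 22194584323454428) (.br (nat_lit 0) (.cons (.br (nat_lit 1) (.cons (.rel (nat_lit 20975697)) .nil)) .nil)) .leaf)) (nat_lit 22194584324221228) (.br (nat_lit 1) (.cons (.br (nat_lit 2) (.cons (.rel (nat_lit 83951880)) .nil)) .nil)) (.node (.node .leaf (nat_lit 22194584324230431) (.br (nat_lit 3) (.cons (.br (nat_lit 5) (.cons (.rel (nat_lit 4563407112)) .nil)) .nil)) .leaf) (nat_lit 22194584324230652) (.br (nat_lit 0) (.cons (.br (nat_lit 2) (.cons (.rel (nat_lit 75563136)) .nil)) .nil)) (.node .leaf (nat_lit 22194584324237337) (.br (nat_lit 1) (.cons (.br (nat_lit 5) (.cons (.rel (nat_lit 4311762240)) (.cons (.rel (nat_lit 4311745104)) .nil))) .nil))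 .leaf))) (nat_lit 22194584324237987) (.br (nat_lit 1) (.cons (.br (nat_lit 3) (.cons (.rel (nat_lit 285213954)) .nil)) .nil)) (.node (.node (.node (.node .leaf (nat_lit 22194584324238087) (.br (nat_lit 1) (.cons (.br (nat_lit 5) (.cons (.rel (nat_lit 4312301568)) .nil)) .nil)) .leaf) (nat_lit 22194584324238248) (.br (nat_lit 1) (.cons (.br (nat_lit 3) (.cons (.rel (nat_lit 285298944)) (.cons (.rel (nat_lit 570429696)) .nil))) (.cons (.br (nat_lit 3) (.cons (.rel (nat_lit 286540032)) (.cons (.rel (nat_lit 570429696)) .nil))) .nil))) .leaf) (nat_lit 22194584324238623) (.br (nat_lit 5) (.cons (.br (nat_lit 2) (.cons (.rel (nat_lit 4362076170)) (.cons (.rel (nat_lit 8657567808)) (.cons (.rel (nat_lit 4362076170)) .nil)))) .nil)) (.node .leaf (nat_lit 22194584324238694) (.br (nat_lit 1) (.cons (.br (nat_lit 3) (.cons (.rel (nat_lit 287836164)) (.cons (.rel (nat_lit 554172432)) (.cons (.rel (nat_lit 286540032)) .nil)))) .nil)) .leaf)) (nat_lit 22194584324383352) (.br (nat_lit 1) (.cons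 (.br (nat_lit 4) (.cons (.br (nat_lit 3) (.cons (.rel (nat_lit 570429696)) (.cons (.rel (nat_lit 554696964)) (.cons (.rel (nat_lit 2684354628)) .nil)))) (.cons (.rel (nat_lit 2181039108)) .nil))) (.cons (.br (nat_lit 5) (.cons (.rel (nat_lit 8623767552)) (.cons (.rel (nat_lit 4328538132)) .nil))) .nil))) (.node (.node .leaf (nat_lit 22194584324384031) (.br (nat_lit 1) (.cons (.br (nat_lit 5) (.cons (.rel (nat_lit 4311752778)) (.cons (.rel (nat_lit 8608023552)) .nil))) .nil)) .leaf) (nat_lit 22194584324384102) (.br (nat_lit 4) (.cons (.br (nat_lit 5) (.cons (.rel (nat_lit 5370024192)) (.cons (.rel (nat_lit 5368710432)) .nil))) .nil)) (.node .leaf (nat_lit 22194584324384106) (.br (nat_lit 1) (.cons (.br (nat_lit 3) (.cons (.rel (nat_lit 570507264)) .nil)) .nil)) .leaf)))) (nat_lit 22194584324681914) (.br (nat_lit 1) (.cons (.br (nat_lit 5) (.cons (.br (nat_lit 0) (.cons (.rel (nat_lit 37750800)) (.cons (.rel (nat_lit 37883904)) (.cons (.rel (nat_lit 8595439632)) (.cons (.rel (nat_lit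 37765632)) .nil))))) (.cons (.rel (nat_lit 4312795137)) (.cons (.rel (nat_lit 4312794132)) .nil)))) (.cons (.br (nat_lit 4) (.cons (.rel (nat_lit 1090527504)) (.cons (.rel (nat_lit 2181039108)) (.cons (.rel (nat_lit 1090527504)) (.cons (.rel (nat_lit 1090527504)) .nil))))) .nil))) (.node (.node (.node (.node (.node .leaf (nat_lit 22194584324682028) (.br (nat_lit 2) (.cons (.br (nat_lit 5) (.cons (.rel (nat_lit 4362076170)) (.cons (.rel (nat_lit 4362076170)) .nil))) (.cons (.br (nat_lit 5) (.cons (.rel (nat_lit 4430299152)) (.cons (.rel (nat_lit 4362076170)) .nil))) .nil))) .leaf) (nat_lit 22194584324682360) (.br (nat_lit 5) (.cons (.br (nat_lit 3) (.cons (.rel (nat_lit 4563435552)) (.cons (.rel (nat_lit 4563435552)) (.cons (.br (nat_lit 1) (.cons (.rel (nat_lit 302252064)) (.cons (.rel (nat_lit 8606842896)) (.cons (.rel (nat_lit 570507264)) (.cons (.rel (nat_lit 285230085)) .nil))))) (.cons (.rel (nat_lit 4563423234)) .nil))))) .nil)) .leaf) (nat_lit 22194584324682530) (.br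 (nat_lit 2) (.cons (.br (nat_lit 4) (.cons (.rel (nat_lit 2214593028)) .nil)) .nil)) (.node .leaf (nat_lit 22194584324682664) (.br (nat_lit 3) (.cons (.br (nat_lit 0) (.cons (.rel (nat_lit 542130180)) (.cons (.rel (nat_lit 545325312)) (.cons (.rel (nat_lit 272633892)) (.cons (.rel (nat_lit 542114049)) .nil))))) (.cons (.br (nat_lit 0) (.cons (.rel (nat_lit 272732160)) (.cons (.rel (nat_lit 272761344)) (.cons (.rel (nat_lit 272646165)) (.cons (.rel (nat_lit 272654592)) .nil))))) .nil))) .leaf)) (nat_lit 22194584324683039) (.br (nat_lit 1) (.cons (.br (nat_lit 3) (.cons (.rel (nat_lit 570429696)) (.cons (.rel (nat_lit 554172432)) (.cons (.rel (nat_lit 285221376)) .nil)))) (.cons (.br (nat_lit 2) (.cons (.rel (nat_lit 83888640)) (.cons (.rel (nat_lit 83888640)) (.cons (.rel (nat_lit 100925700)) .nil)))) .nil))) (.node (.node .leaf (nat_lit 22194584324683110) (.br (nat_lit 5) (.cons (.br (nat_lit 4) (.cons (.rel (nat_lit 5368783104)) (.cons (.rel (nat_lit 6442455360)) (.cons (.rel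 (nat_lit 5368742400)) (.cons (.rel (nat_lit 5368742400)) .nil))))) (.cons (.br (nat_lit 0) (.cons (.rel (nat_lit 4299195456)) (.cons (.rel (nat_lit 4299169860)) (.cons (.rel (nat_lit 4299195456)) .nil)))) .nil))) .leaf) (nat_lit 22194584324683139) (.br (nat_lit 5) (.cons (.br (nat_lit 3) (.cons (.rel (nat_lit 4563410961)) (.cons (.rel (nat_lit 9126821904)) .nil))) .nil)) (.node .leaf (nat_lit 22194584325449914) (.br (nat_lit 1) (.cons (.br (nat_lit 3) (.cons (.rel (nat_lit 570429696)) (.cons (.rel (nat_lit 553650240)) .nil))) (.cons (.br (nat_lit 3) (.cons (.rel (nat_lit 553650240)) (.cons (.rel (nat_lit 570429696)) .nil))) .nil))) .leaf))) (nat_lit 22194584325449989) (.br (nat_lit 1) (.cons (.br (nat_lit 4) (.cons (.rel (nat_lit 1090539777)) .nil)) .nil)) (.node (.node (.node .leaf (nat_lit 22194584325450360) (.br (nat_lit 5) (.cons (.br (nat_lit 1) (.cons (.rel (nat_lit 8623767552)) (.cons (.rel (nat_lit 4312795137)) (.cons (.rel (nat_lit 4311745104)) .nil)))) (.cons (.br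 (nat_lit 3) (.cons (.rel (nat_lit 4563435552)) (.cons (.rel (nat_lit 4563423234)) (.cons (.rel (nat_lit 9126821904)) .nil)))) .nil))) .leaf) (nat_lit 22194584325450389) (.br (nat_lit 3) (.cons (.br (nat_lit 5) (.cons (.rel (nat_lit 4563410961)) .nil)) .nil)) (.node .leaf (nat_lit 22194584325450664) (.br (nat_lit 1) (.cons (.br (nat_lit 4) (.cons (.rel (nat_lit 1107558912)) (.cons (.rel (nat_lit 1090605072)) .nil))) (.cons (.br (nat_lit 4) (.cons (.rel (nat_lit 1090527504)) (.cons (.rel (nat_lit 1090555908)) .nil))) .nil))) .leaf)) (nat_lit 22194584325451039) (.br (nat_lit 1) (.cons (.br (nat_lit 3) (.cons (.rel (nat_lit 570429696)) (.cons (.rel (nat_lit 286540032)) (.cons (.rel (nat_lit 287836164)) .nil)))) (.cons (.br (nat_lit 3) (.cons (.rel (nat_lit 303104064)) (.cons (.rel (nat_lit 285221376)) (.cons (.rel (nat_lit 554172432)) .nil)))) .nil))) (.node (.node .leaf (nat_lit 22194584325451153) (.br (nat_lit 2) (.cons (.br (nat_lit 3) (.cons (.rel (nat_lit 402657537)) (.cons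 (.rel (nat_lit 671088960)) .nil))) .nil)) .leaf) (nat_lit 22194584325765170) (.br (nat_lit 1) (.cons (.br (nat_lit 2) (.cons (.rel (nat_lit 83888640)) (.cons (.rel (nat_lit 83951880)) .nil))) (.cons (.br (nat_lit 3) (.cons (.rel (nat_lit 285213954)) (.cons (.rel (nat_lit 570429696)) .nil))) .nil))) (.node .leaf (nat_lit 22194584325765252) (.br (nat_lit 4) (.cons (.br (nat_lit 5) (.cons (.rel (nat_lit 5368725513)) .nil)) .nil)) .leaf))))) (nat_lit 22194584325765370) (.br (nat_lit 0) (.cons (.br (nat_lit 1) (.cons (.rel (nat_lit 22151172)) .nil)) .nil)) (.node (.node (.node (.node (.node (.node .leaf (nat_lit 22194584325765752) (.br (nat_lit 1) (.cons (.br (nat_lit 4) (.cons (.rel (nat_lit 2181039108)) (.cons (.rel (nat_lit 1107558912)) .nil))) (.cons (.br (nat_lit 4) (.cons (.rel (nat_lit 1108344897)) (.cons (.rel (nat_lit 1090781250)) .nil))) .nil))) .leaf) (nat_lit 22194584325766056) (.br (nat_lit 3) (.cons (.br (nat_lit 2) (.cons (.rel (nat_lit 335544960)) (.cons (.rel (nat_lit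 335544960)) .nil))) .nil)) .leaf) (nat_lit 22194584325766406) (.br (nat_lit 2) (.cons (.br (nat_lit 3) (.cons (.rel (nat_lit 671088960)) .nil)) .nil)) (.node .leaf (nat_lit 22194584325773944) (.br (nat_lit 1) (.cons (.br (nat_lit 3) (.cons (.rel (nat_lit 570507264)) (.cons (.rel (nat_lit 570426900)) .nil))) .nil)) .leaf)) (nat_lit 22194584325774087) (.br (nat_lit 1) (.cons (.br (nat_lit 5) (.cons (.rel (nat_lit 4311745104)) .nil)) .nil)) (.node (.node .leaf (nat_lit 22194584325774248) (.br (nat_lit 1) (.cons (.br (nat_lit 5) (.cons (.rel (nat_lit 4312301568)) (.cons (.rel (nat_lit 4311745104)) (.cons (.rel (nat_lit 4312277025)) .nil)))) .nil)) .leaf) (nat_lit 22194584325774623) (.br (nat_lit 1) (.cons (.br (nat_lit 5) (.cons (.rel (nat_lit 4328522001)) .nil)) .nil)) (.node .leaf (nat_lit 22194584325973399) (.br (nat_lit 0) (.cons (.br (nat_lit 1) (.cons (.rel (nat_lit 21499908)) .nil)) .nil)) .leaf))) (nat_lit 22194584325980792) (.br (nat_lit 4) (.cons (.br (nat_lit 2) (.cons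 (.rel (nat_lit 1207963665)) (.cons (.rel (nat_lit 1207975938)) .nil))) .nil)) (.node (.node (.node (.node .leaf (nat_lit 22194584325981060) (.br (nat_lit 2) (.cons (.br (nat_lit 3) (.cons (.rel (nat_lit 335823120)) .nil)) .nil)) .leaf) (nat_lit 22194699324109100) (.br (nat_lit 3) (.cons (.br (nat_lit 5) (.cons (.rel (nat_lit 4563534849)) .nil)) .nil)) .leaf) (nat_lit 22194753140917160) (.br (nat_lit 0) (.cons (.br (nat_lit 3) (.cons (.rel (nat_lit 272654592)) .nil)) .nil)) (.node .leaf (nat_lit 22195611924661599) (.br (nat_lit 1) (.cons (.br (nat_lit 4) (.cons (.rel (nat_lit 1090555908)) .nil)) .nil)) .leaf)) (nat_lit 22195611924968856) (.br (nat_lit 0) (.cons (.br (nat_lit 1) (.cons (.rel (nat_lit 22151172)) .nil)) .nil)) (.node (.node .leaf (nat_lit 22195615620149308) (.br (nat_lit 0) (.cons (.br (nat_lit 4) (.cons (.rel (nat_lit 2155872273)) .nil)) .nil)) .leaf) (nat_lit 22195652461337976) (.br (nat_lit 1) (.cons (.br (nat_lit 4) (.cons (.rel (nat_lit 1090527504)) .nil))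 .nil)) (.node .leaf (nat_lit 22195652461379591) (.br (nat_lit 0) (.cons (.br (nat_lit 1) (.cons (.rel (nat_lit 38011968)) .nil)) .nil)) .leaf)))) (nat_lit 22195652461380216) (.br (nat_lit 2) (.cons (.br (nat_lit 4) (.cons (.rel (nat_lit 1141115136)) (.cons (.rel (nat_lit 1141129248)) .nil))) .nil)) (.node (.node (.node (.node (.node .leaf (nat_lit 22195652462454934) (.br (nat_lit 0) (.cons (.br (nat_lit 1) (.cons (.rel (nat_lit 21499908)) .nil)) .nil)) .leaf) (nat_lit 22195652462455416) (.br (nat_lit 1) (.cons (.br (nat_lit 6) (.cons (.rel (nat_lit 17196647685)) (.cons (.rel (nat_lit 17196687360)) (.cons (.rel (nat_lit 17196646680)) (.cons (.rel (nat_lit 17196713985)) .nil))))) (.cons (.br (nat_lit 4) (.cons (.rel (nat_lit 1090520082)) (.cons (.rel (nat_lit 1090585092)) (.cons (.rel (nat_lit 1090520082)) (.cons (.rel (nat_lit 1090555908)) .nil))))) (.cons (.br (nat_lit 2) (.cons (.rel (nat_lit 83902752)) (.cons (.rel (nat_lit 83894292)) (.cons (.rel (nat_lit 167773440)) .nil))))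 .nil)))) .leaf) (nat_lit 22195652462455546) (.br (nat_lit 2) (.cons (.br (nat_lit 4) (.cons (.rel (nat_lit 1141178376)) .nil)) .nil)) (.node .leaf (nat_lit 22195652462456184) (.br (nat_lit 1) (.cons (.br (nat_lit 3) (.cons (.rel (nat_lit 285212949)) .nil)) .nil)) .leaf)) (nat_lit 22195652462915591) (.br (nat_lit 6) (.cons (.br (nat_lit 3) (.cons (.rel (nat_lit 17448370305)) (.cons (.rel (nat_lit 17448308868)) .nil))) .nil)) (.node (.node .leaf (nat_lit 22195652463683591) (.br (nat_lit 0) (.cons (.br (nat_lit 5) (.cons (.rel (nat_lit 4299686400)) .nil)) .nil)) .leaf) (nat_lit 22195652464008554) (.br (nat_lit 1) (.cons (.br (nat_lit 2) (.cons (.rel (nat_lit 84018180)) .nil)) .nil)) (.node .leaf (nat_lit 22195652464203926) (.br (nat_lit 1) (.cons (.br (nat_lit 5) (.cons (.rel (nat_lit 4312301568)) .nil)) .nil)) .leaf))) (nat_lit 22195652464204408) (.br (nat_lit 1) (.cons (.br (nat_lit 6) (.cons (.rel (nat_lit 17196647685)) .nil)) .nil)) (.node (.node (.node .leaf (nat_lit 22195652464205337)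 (.br (nat_lit 1) (.cons (.br (nat_lit 4) (.cons (.rel (nat_lit 1091846160)) .nil)) .nil)) .leaf) (nat_lit 22195655443231495) (.br (nat_lit 0) (.cons (.br (nat_lit 1) (.cons (.rel (nat_lit 25166880)) .nil)) .nil)) (.node .leaf (nat_lit 22195655443488120) (.br (nat_lit 1) (.cons (.br (nat_lit 4) (.cons (.rel (nat_lit 1090527504)) .nil)) .nil)) .leaf)) (nat_lit 22195655444621944) (.br (nat_lit 0) (.cons (.br (nat_lit 1) (.cons (.rel (nat_lit 20971848)) .nil)) .nil)) (.node (.node .leaf (nat_lit 22195655444760089) (.br (nat_lit 1) (.cons (.br (nat_lit 3) (.cons (.rel (nat_lit 285221376)) .nil)) .nil)) .leaf) (nat_lit 22195655445835253) (.br (nat_lit 4) (.cons (.br (nat_lit 5) (.cons (.rel (nat_lit 5368727568)) .nil)) .nil)) (.node .leaf (nat_lit 22195655446149781) (.br (nat_lit 0) (.cons (.br (nat_lit 1) (.cons (.rel (nat_lit 20987970)) .nil)) .nil)) .leaf)))))))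

/-- refutations 26 -/
def e26 : EX := (.node (.node (.node (.node (.node (.node (.node .leaf (nat_lit 22195832774209561) (.br (nat_lit 2) (.cons (.br (nat_lit 1) (.cons (.rel (nat_lit 167773440)) (.cons (.rel (nat_lit 100925700)) .nil))) .nil)) .leaf) (nat_lit 22195832774210918) (.br (nat_lit 1) (.cons (.br (nat_lit 2) (.cons (.rel (nat_lit 167773440)) .nil)) .nil)) (.node .leaf (nat_lit 22195832774466918) (.br (nat_lit 1) (.cons (.br (nat_lit 4) (.cons (.rel (nat_lit 1090519077)) .nil)) .nil)) .leaf)) (nat_lit 22195832775746918) (.br (nat_lit 1) (.cons (.br (nat_lit 5) (.cons (.rel (nat_lit 4312794132)) .nil)) .nil)) (.node (.node .leaf (nat_lit 22195832776044569) (.br (nat_lit 1) (.cons (.br (nat_lit 5) (.cons (.rel (nat_lit 4312794132)) .nil)) .nil)) .leaf) (nat_lit 22195832776045480) (.br (nat_lit 1) (.cons (.br (nat_lit 5) (.cons (.rel (nat_lit 8606842896)) .nil)) .nil)) .leaf)) (nat_lit 22195832776045926) (.br (nat_lit 2) (.cons (.br (nat_lit 1) (.cons (.rel (nat_lit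 100925700)) (.cons (.rel (nat_lit 83888640)) .nil))) .nil)) (.node (.node (.node .leaf (nat_lit 22195832776812569) (.br (nat_lit 1) (.cons (.br (nat_lit 5) (.cons (.rel (nat_lit 8606842896)) .nil)) .nil)) .leaf) (nat_lit 22195832776813926) (.br (nat_lit 2) (.cons (.br (nat_lit 4) (.cons (.rel (nat_lit 2214593028)) .nil)) .nil)) (.node .leaf (nat_lit 22195832777136153) (.br (nat_lit 1) (.cons (.br (nat_lit 2) (.cons (.rel (nat_lit 167773440)) .nil)) .nil)) .leaf)) (nat_lit 22195858641873827) (.br (nat_lit 0) (.cons (.br (nat_lit 2) (.cons (.rel (nat_lit 71335968)) .nil)) .nil)) (.node (.node .leaf (nat_lit 22196079606640696) (.br (nat_lit 0) (.cons (.br (nat_lit 1) (.cons (.rel (nat_lit 20987970)) .nil)) .nil)) .leaf) (nat_lit 22196079606641272) (.br (nat_lit 0) (.cons (.br (nat_lit 1) (.cons (.rel (nat_lit 20975697)) .nil)) .nil)) .leaf))) (nat_lit 22196632268817059) (.br (nat_lit 0) (.cons (.br (nat_lit 1) (.cons (.rel (nat_lit 25428048)) .nil)) .nil)) (.node (.node (.node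 (.node .leaf (nat_lit 22196635431153116) (.br (nat_lit 0) (.cons (.br (nat_lit 1) (.cons (.rel (nat_lit 21499908)) .nil)) .nil)) .leaf) (nat_lit 22196636899159302) (.br (nat_lit 0) (.cons (.br (nat_lit 3) (.cons (.rel (nat_lit 272633892)) .nil)) .nil)) (.node .leaf (nat_lit 22196640850653316) (.br (nat_lit 0) (.cons (.br (nat_lit 2) (.cons (.rel (nat_lit 71323650)) .nil)) .nil)) .leaf)) (nat_lit 22196683254606456) (.br (nat_lit 0) (.cons (.br (nat_lit 3) (.cons (.rel (nat_lit 272646165)) .nil)) .nil)) (.node (.node .leaf (nat_lit 22196689021928076) (.br (nat_lit 0) (.cons (.br (nat_lit 2) (.cons (.rel (nat_lit 75563136)) .nil)) .nil)) .leaf) (nat_lit 22196726226681858) (.br (nat_lit 0) (.cons (.br (nat_lit 1) (.cons (.rel (nat_lit 20971848)) .nil)) .nil)) .leaf)) (nat_lit 22196731806751020) (.br (nat_lit 1) (.cons (.br (nat_lit 3) (.cons (.rel (nat_lit 285213954)) (.cons (.rel (nat_lit 570507264)) .nil))) .nil)) (.node (.node (.node .leaf (nat_lit 22196731806751620) (.br (nat_lit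 4) (.cons (.br (nat_lit 2) (.cons (.rel (nat_lit 1141115136)) (.cons (.rel (nat_lit 1207975938)) .nil))) .nil)) .leaf) (nat_lit 22196731806751977) (.br (nat_lit 2) (.cons (.br (nat_lit 5) (.cons (.rel (nat_lit 4362078225)) (.cons (.rel (nat_lit 4429447296)) .nil))) (.cons (.br (nat_lit 5) (.cons (.rel (nat_lit 4362076170)) (.cons (.rel (nat_lit 4362076170)) .nil))) .nil))) .leaf) (nat_lit 22196731806751995) (.br (nat_lit 3) (.cons (.br (nat_lit 4) (.cons (.rel (nat_lit 1610613264)) .nil)) .nil)) (.node (.node .leaf (nat_lit 22196731806752120) (.br (nat_lit 3) (.cons (.br (nat_lit 5) (.cons (.rel (nat_lit 9126821904)) .nil)) .nil)) .leaf) (nat_lit 22196731806794985) (.br (nat_lit 4) (.cons (.br (nat_lit 6) (.cons (.rel (nat_lit 36507222081)) .nil)) .nil)) .leaf)))) (nat_lit 22196731806804653) (.br (nat_lit 4) (.cons (.br (nat_lit 0) (.cons (.rel (nat_lit 1077937176)) (.cons (.rel (nat_lit 1077936162)) .nil))) .nil)) (.node (.node (.node (.node (.node .leaf (nat_lit 22196731807056504)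 (.br (nat_lit 0) (.cons (.br (nat_lit 1) (.cons (.rel (nat_lit 20975697)) .nil)) .nil)) .leaf) (nat_lit 22196731807070893) (.br (nat_lit 0) (.cons (.br (nat_lit 4) (.cons (.rel (nat_lit 1077936162)) .nil)) .nil)) (.node .leaf (nat_lit 22196731807071739) (.br (nat_lit 0) (.cons (.br (nat_lit 1) (.cons (.rel (nat_lit 20973906)) .nil)) .nil)) .leaf)) (nat_lit 22196731807100928) (.br (nat_lit 1) (.cons (.br (nat_lit 2) (.cons (.rel (nat_lit 100667520)) .nil)) .nil)) (.node (.node .leaf (nat_lit 22196731807101229) (.br (nat_lit 0) (.cons (.br (nat_lit 2) (.cons (.rel (nat_lit 71304720)) .nil)) .nil)) .leaf) (nat_lit 22196731807101828) (.br (nat_lit 0) (.cons (.br (nat_lit 2) (.cons (.rel (nat_lit 71321856)) (.cons (.rel (nat_lit 71323650)) (.cons (.rel (nat_lit 71304720)) .nil)))) (.cons (.br (nat_lit 2) (.cons (.rel (nat_lit 71335968)) (.cons (.br (nat_lit 3) (.cons (.rel (nat_lit 272761344)) (.cons (.rel (nat_lit 272647170)) (.cons (.rel (nat_lit 671088960)) .nil)))) (.cons (.rel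 (nat_lit 71321856)) .nil)))) .nil))) .leaf)) (nat_lit 22196731807102430) (.br (nat_lit 2) (.cons (.br (nat_lit 4) (.cons (.rel (nat_lit 1141129248)) .nil)) .nil)) (.node (.node (.node .leaf (nat_lit 22196731807868978) (.br (nat_lit 1) (.cons (.br (nat_lit 2) (.cons (.rel (nat_lit 83902752)) (.cons (.rel (nat_lit 83906565)) .nil))) .nil)) .leaf) (nat_lit 22196731807869078) (.br (nat_lit 1) (.cons (.br (nat_lit 4) (.cons (.rel (nat_lit 2164785408)) (.cons (.rel (nat_lit 1090521096)) .nil))) (.cons (.br (nat_lit 0) (.cons (.rel (nat_lit 25165830)) (.cons (.rel (nat_lit 25198848)) (.cons (.rel (nat_lit 22021632)) .nil)))) .nil))) (.node .leaf (nat_lit 22196731807869560) (.br (nat_lit 4) (.cons (.br (nat_lit 5) (.cons (.rel (nat_lit 10737434880)) (.cons (.rel (nat_lit 5368783104)) .nil))) .nil)) .leaf)) (nat_lit 22196731807870428) (.br (nat_lit 1) (.cons (.br (nat_lit 2) (.cons (.rel (nat_lit 83888640)) .nil)) .nil)) (.node (.node .leaf (nat_lit 22196731807877156) (.br (nat_lit 5)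 (.cons (.br (nat_lit 6) (.cons (.rel (nat_lit 21474853152)) .nil)) .nil)) .leaf) (nat_lit 22196731807877170) (.br (nat_lit 0) (.cons (.br (nat_lit 1) (.cons (.rel (nat_lit 20987970)) .nil)) .nil)) .leaf))) (nat_lit 22196731807877431) (.br (nat_lit 4) (.cons (.br (nat_lit 2) (.cons (.rel (nat_lit 1141115136)) (.cons (.rel (nat_lit 1140851088)) .nil))) .nil)) (.node (.node (.node (.node .leaf (nat_lit 22196731807878377) (.br (nat_lit 3) (.cons (.br (nat_lit 4) (.cons (.rel (nat_lit 1342177416)) .nil)) .nil)) .leaf) (nat_lit 22196731807885623) (.br (nat_lit 4) (.cons (.br (nat_lit 5) (.cons (.rel (nat_lit 10737434880)) (.cons (.rel (nat_lit 5370024192)) .nil))) .nil)) (.node .leaf (nat_lit 22196731807885944) (.br (nat_lit 2) (.cons (.br (nat_lit 0) (.cons (.rel (nat_lit 71385096)) (.cons (.rel (nat_lit 71304720)) .nil))) .nil)) .leaf)) (nat_lit 22196731807889563) (.br (nat_lit 1) (.cons (.br (nat_lit 2) (.cons (.rel (nat_lit 83888640)) .nil)) .nil)) (.node (.node .leaf (nat_lit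 22196731807890339) (.br (nat_lit 0) (.cons (.br (nat_lit 1) (.cons (.rel (nat_lit 25165830)) .nil)) .nil)) .leaf) (nat_lit 22196731808022528) (.br (nat_lit 1) (.cons (.br (nat_lit 6) (.cons (.rel (nat_lit 17196647685)) (.cons (.rel (nat_lit 17196687360)) (.cons (.br (nat_lit 2) (.cons (.rel (nat_lit 167773440)) (.cons (.rel (nat_lit 17247240720)) (.cons (.rel (nat_lit 83902752)) (.cons (.rel (nat_lit 83902752)) (.cons (.rel (nat_lit 83919888)) (.cons (.rel (nat_lit 34493972544)) .nil))))))) (.cons (.rel (nat_lit 17196687360)) .nil))))) .nil)) .leaf)) (nat_lit 22196731808023160) (.br (nat_lit 1) (.cons (.br (nat_lit 5) (.cons (.rel (nat_lit 4311762240)) (.cons (.rel (nat_lit 4312794132)) .nil))) .nil)) (.node (.node (.node .leaf (nat_lit 22196731808023953) (.br (nat_lit 1) (.cons (.br (nat_lit 2) (.cons (.rel (nat_lit 84181056)) (.cons (.rel (nat_lit 83951880)) .nil))) .nil)) .leaf) (nat_lit 22196731808028973) (.br (nat_lit 0) (.cons (.br (nat_lit 2) (.cons (.rel (nat_lit 71321856))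 .nil)) .nil)) .leaf) (nat_lit 22196731808029298) (.br (nat_lit 3) (.cons (.br (nat_lit 4) (.cons (.rel (nat_lit 1342447872)) .nil)) .nil)) (.node (.node .leaf (nat_lit 22196731808029304) (.br (nat_lit 3) (.cons (.br (nat_lit 5) (.cons (.rel (nat_lit 4563421440)) (.cons (.rel (nat_lit 4563484680)) .nil))) (.cons (.br (nat_lit 5) (.cons (.rel (nat_lit 9126821904)) (.cons (.rel (nat_lit 4563404304)) .nil))) .nil))) .leaf) (nat_lit 22196731808029357) (.br (nat_lit 4) (.cons (.br (nat_lit 5) (.cons (.rel (nat_lit 5368725513)) .nil)) .nil)) .leaf))))) (nat_lit 22196731808030745) (.br (nat_lit 0) (.cons (.br (nat_lit 2) (.cons (.rel (nat_lit 71311377)) .nil)) .nil)) (.node (.node (.node (.node (.node (.node .leaf (nat_lit 22196731808030777) (.br (nat_lit 0) (.cons (.br (nat_lit 3) (.cons (.rel (nat_lit 272761344)) .nil)) .nil)) .leaf) (nat_lit 22196731808030870) (.br (nat_lit 5) (.cons (.br (nat_lit 0) (.cons (.rel (nat_lit 4299169860)) (.cons (.rel (nat_lit 8598601734)) .nil))) .nil))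 (.node .leaf (nat_lit 22196731808030900) (.br (nat_lit 0) (.cons (.br (nat_lit 2) (.cons (.rel (nat_lit 142622736)) .nil)) .nil)) .leaf)) (nat_lit 22196731808031031) (.br (nat_lit 2) (.cons (.br (nat_lit 5) (.cons (.rel (nat_lit 4362078225)) .nil)) .nil)) (.node (.node .leaf (nat_lit 22196731808031352) (.br (nat_lit 2) (.cons (.br (nat_lit 5) (.cons (.rel (nat_lit 8724152325)) (.cons (.rel (nat_lit 4362076170)) (.cons (.rel (nat_lit 4362076170)) .nil)))) (.cons (.br (nat_lit 5) (.cons (.rel (nat_lit 4362076170)) (.cons (.rel (nat_lit 4362076170)) (.cons (.rel (nat_lit 8724152325)) .nil)))) (.cons (.br (nat_lit 5) (.cons (.rel (nat_lit 4362076170)) (.cons (.rel (nat_lit 4362076170)) (.cons (.rel (nat_lit 4362109188)) .nil)))) .nil)))) .leaf) (nat_lit 22196731808031405) (.br (nat_lit 0) (.cons (.br (nat_lit 2) (.cons (.rel (nat_lit 71304720)) (.cons (.rel (nat_lit 71307528)) .nil))) .nil)) .leaf)) (nat_lit 22196731808031406) (.br (nat_lit 0) (.cons (.br (nat_lit 1) (.cons (.rel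 (nat_lit 20987970)) (.cons (.rel (nat_lit 25239552)) .nil))) .nil)) (.node (.node (.node .leaf (nat_lit 22196731808032006) (.br (nat_lit 0) (.cons (.br (nat_lit 1) (.cons (.rel (nat_lit 22151172)) .nil)) .nil)) .leaf) (nat_lit 22196731808032145) (.br (nat_lit 1) (.cons (.br (nat_lit 3) (.cons (.rel (nat_lit 554172432)) .nil)) .nil)) (.node .leaf (nat_lit 22196731808329728) (.br (nat_lit 1) (.cons (.br (nat_lit 2) (.cons (.rel (nat_lit 167773440)) .nil)) .nil)) .leaf)) (nat_lit 22196731808329735) (.br (nat_lit 3) (.cons (.br (nat_lit 4) (.cons (.rel (nat_lit 1343227200)) (.cons (.rel (nat_lit 1342177416)) (.cons (.rel (nat_lit 2415923205)) .nil)))) (.cons (.br (nat_lit 2) (.cons (.rel (nat_lit 335544960)) (.cons (.rel (nat_lit 337707012)) (.cons (.rel (nat_lit 337707012)) (.cons (.rel (nat_lit 336593988)) .nil))))) .nil))) (.node (.node .leaf (nat_lit 22196731808329860) (.br (nat_lit 5) (.cons (.br (nat_lit 2) (.cons (.rel (nat_lit 4362076170)) (.cons (.rel (nat_lit 4362076170))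 (.cons (.rel (nat_lit 8657567808)) (.cons (.rel (nat_lit 4362076170)) (.cons (.rel (nat_lit 4362080784)) .nil)))))) (.cons (.br (nat_lit 4) (.cons (.rel (nat_lit 5368709382)) (.cons (.rel (nat_lit 9663942660)) (.cons (.rel (nat_lit 5368710432)) (.cons (.rel (nat_lit 10737434880)) .nil))))) .nil))) .leaf) (nat_lit 22196731808329878) (.br (nat_lit 2) (.cons (.br (nat_lit 5) (.cons (.rel (nat_lit 4362080784)) (.cons (.rel (nat_lit 4429447296)) .nil))) (.cons (.br (nat_lit 5) (.cons (.rel (nat_lit 4362076170)) (.cons (.rel (nat_lit 4362076170)) .nil))) .nil))) .leaf))) (nat_lit 22196731808330008) (.br (nat_lit 2) (.cons (.br (nat_lit 5) (.cons (.rel (nat_lit 4429447296)) .nil)) .nil)) (.node (.node (.node (.node .leaf (nat_lit 22196731808330028) (.br (nat_lit 0) (.cons (.br (nat_lit 1) (.cons (.br (nat_lit 3) (.cons (.rel (nat_lit 276858240)) (.cons (.rel (nat_lit 570429696)) (.cons (.rel (nat_lit 272631048)) (.cons (.rel (nat_lit 272646165)) (.cons (.rel (nat_lit 272630034)) .nil))))))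 (.cons (.rel (nat_lit 22028289)) (.cons (.rel (nat_lit 22021632)) (.cons (.rel (nat_lit 25165830)) (.cons (.rel (nat_lit 20987970)) .nil)))))) (.cons (.br (nat_lit 1) (.cons (.rel (nat_lit 20971848)) (.cons (.rel (nat_lit 37748745)) (.cons (.rel (nat_lit 20971848)) (.cons (.br (nat_lit 6) (.cons (.rel (nat_lit 17201102880)) (.cons (.rel (nat_lit 17196687360)) (.cons (.rel (nat_lit 34363932768)) (.cons (.rel (nat_lit 17188257936)) (.cons (.rel (nat_lit 17184080901)) .nil)))))) (.cons (.rel (nat_lit 20971848)) .nil)))))) (.cons (.br (nat_lit 1) (.cons (.rel (nat_lit 22151172)) (.cons (.rel (nat_lit 20975697)) (.cons (.rel (nat_lit 20975697)) (.cons (.rel (nat_lit 20987970)) (.cons (.rel (nat_lit 20987970)) .nil)))))) (.cons (.br (nat_lit 3) (.cons (.rel (nat_lit 272630034)) (.cons (.rel (nat_lit 272647170)) (.cons (.rel (nat_lit 272647170)) (.cons (.rel (nat_lit 272761344)) (.cons (.rel (nat_lit 272761344)) .nil)))))) (.cons (.br (nat_lit 6) (.cons (.rel (nat_lit 34368131328))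 (.cons (.rel (nat_lit 17188257936)) (.cons (.rel (nat_lit 34368208896)) (.cons (.rel (nat_lit 34368145668)) (.cons (.rel (nat_lit 17184064770)) .nil)))))) .nil)))))) .leaf) (nat_lit 22196731808330359) (.br (nat_lit 0) (.cons (.br (nat_lit 1) (.cons (.rel (nat_lit 25198848)) .nil)) .nil)) (.node .leaf (nat_lit 22196731808330360) (.br (nat_lit 5) (.cons (.br (nat_lit 0) (.cons (.rel (nat_lit 8594149380)) (.cons (.rel (nat_lit 4299169860)) (.cons (.rel (nat_lit 8598601734)) (.cons (.rel (nat_lit 4303357185)) (.cons (.rel (nat_lit 4300210212)) .nil)))))) (.cons (.br (nat_lit 0) (.cons (.rel (nat_lit 4299169860)) (.cons (.rel (nat_lit 4299195456)) (.cons (.rel (nat_lit 8594133249)) (.cons (.rel (nat_lit 4300308480)) (.cons (.rel (nat_lit 8594133249)) .nil)))))) .nil))) .leaf)) (nat_lit 22196731808330628) (.br (nat_lit 1) (.cons (.br (nat_lit 3) (.cons (.rel (nat_lit 285213954)) (.cons (.rel (nat_lit 285213954)) (.cons (.rel (nat_lit 302252064)) (.cons (.rel (nat_lit 285213954)) (.cons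 (.rel (nat_lit 286540032)) (.cons (.rel (nat_lit 553650240)) .nil))))))) (.cons (.br (nat_lit 0) (.cons (.rel (nat_lit 20975697)) (.cons (.rel (nat_lit 37883904)) (.cons (.rel (nat_lit 20975697)) .nil)))) .nil))) (.node (.node .leaf (nat_lit 22196731808330659) (.br (nat_lit 0) (.cons (.br (nat_lit 1) (.cons (.rel (nat_lit 20975697)) (.cons (.rel (nat_lit 25165830)) .nil))) (.cons (.br (nat_lit 1) (.cons (.rel (nat_lit 20987970)) (.cons (.rel (nat_lit 20971848)) .nil))) .nil))) .leaf) (nat_lit 22196731808331003) (.br (nat_lit 1) (.cons (.br (nat_lit 2) (.cons (.rel (nat_lit 83888640)) .nil)) .nil)) .leaf)) (nat_lit 22196731808331139) (.br (nat_lit 3) (.cons (.br (nat_lit 5) (.cons (.rel (nat_lit 4563435552)) .nil)) .nil)) (.node (.node (.node .leaf (nat_lit 22196731808340894) (.br (nat_lit 0) (.cons (.br (nat_lit 1) (.cons (.rel (nat_lit 22028289)) .nil)) .nil)) .leaf) (nat_lit 22196731808341279) (.br (nat_lit 2) (.cons (.br (nat_lit 3) (.cons (.rel (nat_lit 672171009)) .nil))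 .nil)) .leaf) (nat_lit 22196731808346119) (.br (nat_lit 0) (.cons (.br (nat_lit 1) (.cons (.rel (nat_lit 25202709)) .nil)) .nil)) (.node (.node .leaf (nat_lit 22196731808346744) (.br (nat_lit 1) (.cons (.br (nat_lit 3) (.cons (.rel (nat_lit 285229080)) (.cons (.rel (nat_lit 285212949)) .nil))) .nil)) .leaf) (nat_lit 22196731809097764) (.br (nat_lit 1) (.cons (.br (nat_lit 3) (.cons (.rel (nat_lit 570429696)) .nil)) .nil)) .leaf)))) (nat_lit 22196731809097860) (.br (nat_lit 1) (.cons (.br (nat_lit 0) (.cons (.rel (nat_lit 20975697)) (.cons (.rel (nat_lit 22151172)) .nil))) .nil)) (.node (.node (.node (.node (.node .leaf (nat_lit 22196731809097878) (.br (nat_lit 0) (.cons (.br (nat_lit 1) (.cons (.rel (nat_lit 20987970)) .nil)) .nil)) .leaf) (nat_lit 22196731809097914) (.br (nat_lit 0) (.cons (.br (nat_lit 3) (.cons (.rel (nat_lit 545325312)) .nil)) .nil)) (.node .leaf (nat_lit 22196731809098985) (.br (nat_lit 0) (.cons (.br (nat_lit 1) (.cons (.rel (nat_lit 20975697)) (.cons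 (.rel (nat_lit 25166880)) .nil))) .nil)) .leaf)) (nat_lit 22196731809099003) (.br (nat_lit 4) (.cons (.br (nat_lit 0) (.cons (.rel (nat_lit 2155872273)) (.cons (.rel (nat_lit 1077938181)) .nil))) .nil)) (.node (.node .leaf (nat_lit 22196731809301891) (.br (nat_lit 1) (.cons (.br (nat_lit 2) (.cons (.rel (nat_lit 83890434)) .nil)) .nil)) .leaf) (nat_lit 22196731809302535) (.br (nat_lit 1) (.cons (.br (nat_lit 3) (.cons (.rel (nat_lit 285221376)) (.cons (.rel (nat_lit 285213954)) .nil))) .nil)) .leaf)) (nat_lit 22196731809302678) (.br (nat_lit 0) (.cons (.br (nat_lit 5) (.cons (.rel (nat_lit 4299686400)) .nil)) .nil)) (.node (.node (.node .leaf (nat_lit 22196731809302839) (.br (nat_lit 4) (.cons (.br (nat_lit 1) (.cons (.rel (nat_lit 2164785408)) (.cons (.rel (nat_lit 1107558912)) .nil))) .nil)) .leaf) (nat_lit 22196731809413145) (.br (nat_lit 1) (.cons (.br (nat_lit 5) (.cons (.rel (nat_lit 4328788032)) .nil)) .nil)) .leaf) (nat_lit 22196731809413170) (.br (nat_lit 1) (.cons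 (.br (nat_lit 4) (.cons (.rel (nat_lit 2165329920)) .nil)) .nil)) (.node (.node .leaf (nat_lit 22196731809413752) (.br (nat_lit 1) (.cons (.br (nat_lit 2) (.cons (.rel (nat_lit 84934788)) (.cons (.rel (nat_lit 83888640)) (.cons (.rel (nat_lit 102760464)) .nil)))) .nil)) .leaf) (nat_lit 22196731809414406) (.br (nat_lit 0) (.cons (.br (nat_lit 5) (.cons (.rel (nat_lit 4299195456)) (.cons (.rel (nat_lit 4299195456)) (.cons (.rel (nat_lit 4299195456)) .nil)))) (.cons (.br (nat_lit 4) (.cons (.rel (nat_lit 2151679296)) (.cons (.rel (nat_lit 1082425344)) (.cons (.rel (nat_lit 1077937176)) .nil)))) .nil))) .leaf))) (nat_lit 22196731809421348) (.br (nat_lit 1) (.cons (.br (nat_lit 5) (.cons (.rel (nat_lit 4312270368)) .nil)) .nil)) (.node (.node (.node (.node .leaf (nat_lit 22196731809618052) (.br (nat_lit 1) (.cons (.br (nat_lit 4) (.cons (.rel (nat_lit 1090527504)) (.cons (.rel (nat_lit 2164785408)) .nil))) (.cons (.br (nat_lit 4) (.cons (.rel (nat_lit 1090519077)) (.cons (.rel (nat_lit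 2164785408)) .nil))) .nil))) .leaf) (nat_lit 22196731809618552) (.br (nat_lit 1) (.cons (.br (nat_lit 2) (.cons (.rel (nat_lit 83888640)) (.cons (.rel (nat_lit 102760464)) (.cons (.rel (nat_lit 151003200)) .nil)))) (.cons (.br (nat_lit 4) (.cons (.rel (nat_lit 1090521096)) (.cons (.rel (nat_lit 1090520082)) .nil))) .nil))) (.node .leaf (nat_lit 22196731809619481) (.br (nat_lit 1) (.cons (.br (nat_lit 0) (.cons (.rel (nat_lit 20987970)) (.cons (.rel (nat_lit 22151172)) .nil))) .nil)) .leaf)) (nat_lit 22196731809631470) (.br (nat_lit 0) (.cons (.br (nat_lit 1) (.cons (.rel (nat_lit 22028289)) .nil)) .nil)) (.node (.node .leaf (nat_lit 22196737456223470) (.br (nat_lit 0) (.cons (.br (nat_lit 1) (.cons (.rel (nat_lit 21561345)) .nil)) .nil)) .leaf) (nat_lit 22196863475468564) (.br (nat_lit 4) (.cons (.br (nat_lit 5) (.cons (.rel (nat_lit 5368727568)) .nil)) .nil)) .leaf)) (nat_lit 22196863475623274) (.br (nat_lit 1) (.cons (.br (nat_lit 2) (.cons (.rel (nat_lit 83951880)) .nil))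 .nil)) (.node (.node (.node .leaf (nat_lit 22196863475921698) (.br (nat_lit 0) (.cons (.br (nat_lit 1) (.cons (.rel (nat_lit 21038148)) .nil)) .nil)) .leaf) (nat_lit 22196863475937410) (.br (nat_lit 2) (.cons (.br (nat_lit 4) (.cons (.rel (nat_lit 1140868224)) .nil)) .nil)) .leaf) (nat_lit 22197156119065208) (.br (nat_lit 0) (.cons (.br (nat_lit 1) (.cons (.rel (nat_lit 20971848)) .nil)) .nil)) (.node (.node .leaf (nat_lit 22197156122187926) (.br (nat_lit 1) (.cons (.br (nat_lit 2) (.cons (.rel (nat_lit 83894292)) .nil)) .nil)) .leaf) (nat_lit 22197159159935226) (.br (nat_lit 0) (.cons (.br (nat_lit 2) (.cons (.rel (nat_lit 142622736)) .nil)) .nil)) .leaf))))))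

/-- refutations 27 -/
def e27 : EX := (.node (.node (.node (.node (.node .leaf (nat_lit 16466506683870591) (.br (nat_lit 1) (.cons (.br (nat_lit 3) (.cons (.rel (nat_lit 285376512)) .nil)) .nil)) .leaf) (nat_lit 16466506684007807) (.br (nat_lit 3) (.cons (.br (nat_lit 6) (.cons (.rel (nat_lit 34628173833)) .nil)) .nil)) .leaf) (nat_lit 16466716370153497) (.br (nat_lit 1) (.cons (.br (nat_lit 5) (.cons (.rel (nat_lit 8606842896)) .nil)) .nil)) (.node .leaf (nat_lit 16466716894441658) (.br (nat_lit 1) (.cons (.br (nat_lit 5) (.cons (.rel (nat_lit 4311745104)) .nil)) .nil)) .leaf)) (nat_lit 16466716895159679) (.br (nat_lit 1) (.cons (.br (nat_lit 6) (.cons (.rel (nat_lit 17196687360)) .nil)) .nil)) (.node (.node (.node .leaf (nat_lit 16467855949524351) (.br (nat_lit 3) (.cons (.br (nat_lit 1) (.cons (.rel (nat_lit 570507264)) (.cons (.rel (nat_lit 285279249)) (.cons (.rel (nat_lit 285376512)) .nil)))) .nil)) .leaf) (nat_lit 16467855949661567) (.br (nat_lit 1) (.cons (.br (nat_lit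 3) (.cons (.rel (nat_lit 285376512)) .nil)) .nil)) .leaf) (nat_lit 16467855949968617) (.br (nat_lit 2) (.cons (.br (nat_lit 3) (.cons (.rel (nat_lit 335544960)) (.cons (.rel (nat_lit 336593988)) .nil))) (.cons (.br (nat_lit 3) (.cons (.rel (nat_lit 402735105)) (.cons (.br (nat_lit 4) (.cons (.rel (nat_lit 1342177416)) (.cons (.rel (nat_lit 1141115136)) .nil))) .nil))) .nil))) (.node .leaf (nat_lit 16467855949968767) (.br (nat_lit 3) (.cons (.br (nat_lit 6) (.cons (.rel (nat_lit 17448583170)) .nil)) .nil)) .leaf))) (nat_lit 16473004126777530) (.br (nat_lit 1) (.cons (.br (nat_lit 2) (.cons (.rel (nat_lit 83890434)) (.cons (.rel (nat_lit 83902752)) .nil))) .nil)) (.node (.node (.node (.node .leaf (nat_lit 16473159269888311) (.br (nat_lit 4) (.cons (.br (nat_lit 5) (.cons (.rel (nat_lit 5368710432)) .nil)) .nil)) .leaf) (nat_lit 16473159269889257) (.br (nat_lit 2) (.cons (.br (nat_lit 3) (.cons (.rel (nat_lit 603985920)) .nil)) .nil)) .leaf) (nat_lit 16473163539230229) (.br (nat_lit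 1) (.cons (.br (nat_lit 3) (.cons (.rel (nat_lit 285212949)) .nil)) .nil)) (.node .leaf (nat_lit 16473163540458354) (.br (nat_lit 1) (.cons (.br (nat_lit 2) (.cons (.rel (nat_lit 83890434)) .nil)) .nil)) .leaf)) (nat_lit 16474237281514729) (.br (nat_lit 1) (.cons (.br (nat_lit 0) (.cons (.rel (nat_lit 20971848)) (.cons (.rel (nat_lit 37748745)) (.cons (.rel (nat_lit 42549312)) .nil)))) .nil)) (.node (.node .leaf (nat_lit 16479262392798120) (.br (nat_lit 0) (.cons (.br (nat_lit 2) (.cons (.rel (nat_lit 71385096)) (.cons (.rel (nat_lit 71321856)) .nil))) .nil)) .leaf) (nat_lit 16479262392943224) (.br (nat_lit 0) (.cons (.br (nat_lit 1) (.cons (.rel (nat_lit 25165830)) .nil)) .nil)) (.node .leaf (nat_lit 16479265739859975) (.br (nat_lit 1) (.cons (.br (nat_lit 2) (.cons (.rel (nat_lit 84181056)) .nil)) .nil)) .leaf))))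

/-- refutations 28 -/
def e28 : EX := (.node (.node (.node .leaf (nat_lit 22518105100262757) (.br (nat_lit 1) (.cons (.br (nat_lit 3) (.cons (.rel (nat_lit 570429696)) .nil)) .nil)) .leaf) (nat_lit 22518105101396870) (.br (nat_lit 1) (.cons (.br (nat_lit 2) (.cons (.rel (nat_lit 84018180)) .nil)) .nil)) (.node .leaf (nat_lit 22518428283968173) (.br (nat_lit 0) (.cons (.br (nat_lit 2) (.cons (.rel (nat_lit 71435265)) .nil)) .nil)) .leaf)) (nat_lit 22518428285086598) (.br (nat_lit 2) (.cons (.br (nat_lit 3) (.cons (.rel (nat_lit 603981057)) .nil)) .nil)) (.node (.node .leaf (nat_lit 22518430906542765) (.br (nat_lit 5) (.cons (.br (nat_lit 6) (.cons (.rel (nat_lit 38655234048)) .nil)) .nil)) .leaf) (nat_lit 22518430906680202) (.br (nat_lit 0) (.cons (.br (nat_lit 3) (.cons (.rel (nat_lit 272631048)) .nil)) .nil)) (.node .leaf (nat_lit 22519137256850160) (.br (nat_lit 0) (.cons (.br (nat_lit 4) (.cons (.rel (nat_lit 1077940740)) .nil)) .nil)) .leaf)))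

/-- refutations 29 -/
def e29 : EX := (.node (.node (.node .leaf (nat_lit 22911478056891270) (.br (nat_lit 0) (.cons (.br (nat_lit 1) (.cons (.rel (nat_lit 22151172)) .nil)) .nil)) .leaf) (nat_lit 22911770093695126) (.br (nat_lit 0) (.cons (.br (nat_lit 2) (.cons (.rel (nat_lit 138543168)) (.cons (.rel (nat_lit 71323650)) .nil))) .nil)) .leaf) (nat_lit 22917330402515595) (.br (nat_lit 3) (.cons (.br (nat_lit 4) (.cons (.rel (nat_lit 1342514184)) .nil)) .nil)) (.node .leaf (nat_lit 22917330402516230) (.br (nat_lit 0) (.cons (.br (nat_lit 1) (.cons (.rel (nat_lit 20987970)) .nil)) .nil)) .leaf))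

/-- refutations 30 -/
def e30 : EX := (.node (.node (.node (.node (.node (.node (.node .leaf (nat_lit 24189690760409963) (.br (nat_lit 0) (.cons (.br (nat_lit 2) (.cons (.rel (nat_lit 142622736)) .nil)) .nil)) .leaf) (nat_lit 24189690761784796) (.br (nat_lit 1) (.cons (.br (nat_lit 2) (.cons (.rel (nat_lit 83888640)) (.cons (.rel (nat_lit 83968002)) .nil))) .nil)) .leaf) (nat_lit 24189690761946520) (.br (nat_lit 1) (.cons (.br (nat_lit 2) (.cons (.rel (nat_lit 83919888)) .nil)) .nil)) (.node .leaf (nat_lit 24189690762244227) (.br (nat_lit 0) (.cons (.br (nat_lit 1) (.cons (.rel (nat_lit 22052880)) .nil)) .nil)) .leaf)) (nat_lit 24189690762244282) (.br (nat_lit 1) (.cons (.br (nat_lit 0) (.cons (.rel (nat_lit 20971848)) (.cons (.rel (nat_lit 37750800)) .nil))) .nil)) (.node (.node (.node .leaf (nat_lit 24189690762252338) (.br (nat_lit 1) (.cons (.br (nat_lit 3) (.cons (.rel (nat_lit 285298944)) .nil)) .nil)) .leaf) (nat_lit 24189690762253720) (.br (nat_lit 1) (.cons (.br (nat_lit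 4) (.cons (.rel (nat_lit 1090519077)) .nil)) .nil)) .leaf) (nat_lit 24189690762253849) (.br (nat_lit 1) (.cons (.br (nat_lit 3) (.cons (.rel (nat_lit 302252064)) .nil)) .nil)) (.node .leaf (nat_lit 24189690763268128) (.br (nat_lit 1) (.cons (.br (nat_lit 2) (.cons (.rel (nat_lit 83890434)) .nil)) .nil)) .leaf))) (nat_lit 24189690763269528) (.br (nat_lit 0) (.cons (.br (nat_lit 1) (.cons (.rel (nat_lit 22028289)) .nil)) .nil)) (.node (.node (.node (.node .leaf (nat_lit 24189690763336555) (.br (nat_lit 3) (.cons (.br (nat_lit 0) (.cons (.rel (nat_lit 272654592)) (.cons (.rel (nat_lit 272647170)) .nil))) .nil)) .leaf) (nat_lit 24189691599876882) (.br (nat_lit 1) (.cons (.br (nat_lit 4) (.cons (.rel (nat_lit 1090519077)) .nil)) .nil)) .leaf) (nat_lit 24189691599876971) (.br (nat_lit 4) (.cons (.br (nat_lit 1) (.cons (.rel (nat_lit 1090519077)) (.cons (.rel (nat_lit 1091568000)) .nil))) .nil)) (.node .leaf (nat_lit 24189691599877482) (.br (nat_lit 1) (.cons (.br (nat_lit 2) (.cons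 (.rel (nat_lit 83888640)) .nil)) .nil)) .leaf)) (nat_lit 24189691600645353) (.br (nat_lit 2) (.cons (.br (nat_lit 4) (.cons (.rel (nat_lit 2214593028)) .nil)) .nil)) (.node (.node .leaf (nat_lit 24189691600645482) (.br (nat_lit 4) (.cons (.br (nat_lit 2) (.cons (.rel (nat_lit 1141129248)) (.cons (.rel (nat_lit 2214593028)) (.cons (.rel (nat_lit 1207959816)) .nil)))) .nil)) .leaf) (nat_lit 24189691600645596) (.br (nat_lit 2) (.cons (.br (nat_lit 4) (.cons (.rel (nat_lit 1141129248)) .nil)) .nil)) (.node .leaf (nat_lit 24189691600661905) (.br (nat_lit 3) (.cons (.br (nat_lit 5) (.cons (.rel (nat_lit 8860471296)) .nil)) .nil)) .leaf)))) (nat_lit 24189691600806074) (.br (nat_lit 1) (.cons (.br (nat_lit 6) (.cons (.rel (nat_lit 17196652548)) .nil)) .nil)) (.node (.node (.node (.node (.node .leaf (nat_lit 24189691600806175) (.br (nat_lit 1) (.cons (.br (nat_lit 2) (.cons (.rel (nat_lit 83902752)) .nil)) .nil)) .leaf) (nat_lit 24189691600806515) (.br (nat_lit 0) (.cons (.br (nat_lit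 1) (.cons (.rel (nat_lit 20987970)) .nil)) .nil)) .leaf) (nat_lit 24189691601104951) (.br (nat_lit 1) (.cons (.br (nat_lit 5) (.cons (.rel (nat_lit 4311814212)) .nil)) .nil)) (.node .leaf (nat_lit 24189691601105082) (.br (nat_lit 1) (.cons (.br (nat_lit 5) (.cons (.rel (nat_lit 4311745104)) (.cons (.rel (nat_lit 4312795137)) .nil))) (.cons (.br (nat_lit 5) (.cons (.rel (nat_lit 4311762240)) (.cons (.rel (nat_lit 4311762240)) .nil))) .nil))) .leaf)) (nat_lit 24189691601105682) (.br (nat_lit 6) (.cons (.br (nat_lit 1) (.cons (.rel (nat_lit 17196646680)) (.cons (.rel (nat_lit 17196687360)) .nil))) .nil)) (.node (.node .leaf (nat_lit 24189691601105698) (.br (nat_lit 5) (.cons (.br (nat_lit 0) (.cons (.rel (nat_lit 4303362048)) (.cons (.rel (nat_lit 4300211217)) .nil))) .nil)) .leaf) (nat_lit 24189691601105827) (.br (nat_lit 0) (.cons (.br (nat_lit 1) (.cons (.rel (nat_lit 37765632)) .nil)) .nil)) (.node .leaf (nat_lit 24189691601106282) (.br (nat_lit 1) (.cons (.br (nat_lit 5) (.cons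 (.rel (nat_lit 8623767552)) (.cons (.rel (nat_lit 4311814212)) .nil))) .nil)) .leaf))) (nat_lit 24189691601106432) (.br (nat_lit 2) (.cons (.br (nat_lit 4) (.cons (.rel (nat_lit 1141903680)) .nil)) .nil)) (.node (.node (.node (.node .leaf (nat_lit 24189691601873082) (.br (nat_lit 1) (.cons (.br (nat_lit 5) (.cons (.rel (nat_lit 4311814212)) .nil)) .nil)) .leaf) (nat_lit 24189691601873771) (.br (nat_lit 5) (.cons (.br (nat_lit 3) (.cons (.rel (nat_lit 4831854657)) (.cons (.rel (nat_lit 8858763264)) .nil))) .nil)) .leaf) (nat_lit 24190547972664582) (.br (nat_lit 0) (.cons (.br (nat_lit 1) (.cons (.rel (nat_lit 20971848)) .nil)) .nil)) (.node .leaf (nat_lit 24190547972834712) (.br (nat_lit 0) (.cons (.br (nat_lit 1) (.cons (.rel (nat_lit 21561345)) .nil)) .nil)) .leaf)) (nat_lit 24190547972834780) (.br (nat_lit 1) (.cons (.br (nat_lit 3) (.cons (.rel (nat_lit 285278244)) .nil)) .nil)) (.node (.node .leaf (nat_lit 24190547973125382) (.br (nat_lit 1) (.cons (.br (nat_lit 3) (.cons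 (.rel (nat_lit 285376512)) .nil)) .nil)) .leaf) (nat_lit 24190548230061432) (.br (nat_lit 0) (.cons (.br (nat_lit 1) (.cons (.rel (nat_lit 20975697)) .nil)) .nil)) (.node .leaf (nat_lit 24190549755405720) (.br (nat_lit 1) (.cons (.br (nat_lit 5) (.cons (.rel (nat_lit 4312875264)) .nil)) .nil)) .leaf))))) (nat_lit 24190549755704582) (.br (nat_lit 1) (.cons (.br (nat_lit 5) (.cons (.rel (nat_lit 4312797696)) .nil)) .nil)) (.node (.node (.node (.node (.node (.node .leaf (nat_lit 24190549755712988) (.br (nat_lit 0) (.cons (.br (nat_lit 1) (.cons (.rel (nat_lit 25198848)) .nil)) .nil)) .leaf) (nat_lit 24190549756728728) (.br (nat_lit 0) (.cons (.br (nat_lit 1) (.cons (.rel (nat_lit 20987970)) .nil)) .nil)) .leaf) (nat_lit 24190549757000330) (.br (nat_lit 0) (.cons (.br (nat_lit 1) (.cons (.rel (nat_lit 21496098)) .nil)) .nil)) (.node .leaf (nat_lit 24190822851032426) (.br (nat_lit 1) (.cons (.br (nat_lit 3) (.cons (.rel (nat_lit 570507264)) .nil)) .nil)) .leaf)) (nat_lit 24190822984959352)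 (.br (nat_lit 2) (.cons (.br (nat_lit 4) (.cons (.rel (nat_lit 1141903680)) .nil)) .nil)) (.node (.node .leaf (nat_lit 24191406680927619) (.br (nat_lit 0) (.cons (.br (nat_lit 1) (.cons (.rel (nat_lit 20975697)) .nil)) .nil)) .leaf) (nat_lit 24191406681380316) (.br (nat_lit 2) (.cons (.br (nat_lit 3) (.cons (.rel (nat_lit 402657537)) .nil)) .nil)) (.node .leaf (nat_lit 24191409586795282) (.br (nat_lit 1) (.cons (.br (nat_lit 6) (.cons (.rel (nat_lit 17196650529)) .nil)) .nil)) .leaf))) (nat_lit 24191409587579755) (.br (nat_lit 0) (.cons (.br (nat_lit 3) (.cons (.rel (nat_lit 272761344)) .nil)) .nil)) (.node (.node (.node (.node .leaf (nat_lit 24191409587579816) (.br (nat_lit 1) (.cons (.br (nat_lit 2) (.cons (.rel (nat_lit 102760464)) .nil)) .nil)) .leaf) (nat_lit 24191409587725563) (.br (nat_lit 0) (.cons (.br (nat_lit 2) (.cons (.rel (nat_lit 71304720)) .nil)) .nil)) .leaf) (nat_lit 24191409588024232) (.br (nat_lit 1) (.cons (.br (nat_lit 0) (.cons (.rel (nat_lit 37883904))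 (.cons (.rel (nat_lit 22052880)) (.cons (.rel (nat_lit 25239552)) .nil)))) .nil)) (.node .leaf (nat_lit 24191409588024682) (.br (nat_lit 1) (.cons (.br (nat_lit 2) (.cons (.rel (nat_lit 100667520)) (.cons (.rel (nat_lit 83919888)) .nil))) (.cons (.br (nat_lit 2) (.cons (.rel (nat_lit 167773440)) (.cons (.rel (nat_lit 83890434)) .nil))) .nil))) .leaf)) (nat_lit 24191409588040555) (.br (nat_lit 0) (.cons (.br (nat_lit 1) (.cons (.rel (nat_lit 39124992)) .nil)) .nil)) (.node (.node .leaf (nat_lit 24191409588041180) (.br (nat_lit 0) (.cons (.br (nat_lit 4) (.cons (.rel (nat_lit 2152792320)) .nil)) .nil)) .leaf) (nat_lit 24191409589107495) (.br (nat_lit 1) (.cons (.br (nat_lit 5) (.cons (.rel (nat_lit 4312301568)) .nil)) .nil)) (.node .leaf (nat_lit 24191409589108220) (.br (nat_lit 5) (.cons (.br (nat_lit 2) (.cons (.rel (nat_lit 4362076170)) (.cons (.rel (nat_lit 4362076170)) .nil))) .nil)) .leaf)))) (nat_lit 24191409589314922) (.br (nat_lit 2) (.cons (.br (nat_lit 1) (.cons (.rel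 (nat_lit 84181056)) (.cons (.rel (nat_lit 83895297)) .nil))) .nil)) (.node (.node (.node (.node (.node .leaf (nat_lit 24191684599704488) (.br (nat_lit 1) (.cons (.br (nat_lit 2) (.cons (.rel (nat_lit 83895297)) .nil)) .nil)) .leaf) (nat_lit 24191684599849896) (.br (nat_lit 1) (.cons (.br (nat_lit 2) (.cons (.rel (nat_lit 83890434)) .nil)) .nil)) .leaf) (nat_lit 24191684600148875) (.br (nat_lit 1) (.cons (.br (nat_lit 2) (.cons (.rel (nat_lit 83895297)) .nil)) .nil)) (.node .leaf (nat_lit 24191933572498344) (.br (nat_lit 1) (.cons (.br (nat_lit 4) (.cons (.rel (nat_lit 1090539777)) .nil)) .nil)) .leaf)) (nat_lit 24191933572805994) (.br (nat_lit 1) (.cons (.br (nat_lit 2) (.cons (.rel (nat_lit 83890434)) .nil)) .nil)) (.node (.node .leaf (nat_lit 24191933573573865) (.br (nat_lit 1) (.cons (.br (nat_lit 3) (.cons (.rel (nat_lit 553650240)) (.cons (.rel (nat_lit 301991040)) .nil))) .nil)) .leaf) (nat_lit 24191933573573994) (.br (nat_lit 1) (.cons (.br (nat_lit 5) (.cons (.rel (nat_lit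 4328587296)) .nil)) .nil)) (.node .leaf (nat_lit 24191933573574108) (.br (nat_lit 4) (.cons (.br (nat_lit 1) (.cons (.rel (nat_lit 1090520082)) (.cons (.rel (nat_lit 1090539777)) .nil))) .nil)) .leaf))) (nat_lit 24191933574034194) (.br (nat_lit 1) (.cons (.br (nat_lit 2) (.cons (.rel (nat_lit 152043552)) (.cons (.rel (nat_lit 83890434)) .nil))) (.cons (.br (nat_lit 2) (.cons (.rel (nat_lit 167773440)) (.cons (.rel (nat_lit 167773440)) .nil))) .nil))) (.node (.node (.node (.node .leaf (nat_lit 24191933574034339) (.br (nat_lit 0) (.cons (.br (nat_lit 2) (.cons (.rel (nat_lit 71323650)) .nil)) .nil)) .leaf) (nat_lit 24195057686950763) (.br (nat_lit 1) (.cons (.br (nat_lit 2) (.cons (.rel (nat_lit 84181056)) .nil)) .nil)) .leaf) (nat_lit 24195979432781881) (.br (nat_lit 1) (.cons (.br (nat_lit 3) (.cons (.rel (nat_lit 285298944)) .nil)) .nil)) (.node .leaf (nat_lit 24195979433226297) (.br (nat_lit 0) (.cons (.br (nat_lit 1) (.cons (.rel (nat_lit 21038148)) .nil)) .nil)) .leaf))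 (nat_lit 24195979433226426) (.br (nat_lit 1) (.cons (.br (nat_lit 3) (.cons (.rel (nat_lit 285212949)) .nil)) .nil)) (.node (.node .leaf (nat_lit 24195979434310439) (.br (nat_lit 0) (.cons (.br (nat_lit 2) (.cons (.rel (nat_lit 71335968)) .nil)) .nil)) .leaf) (nat_lit 24202378536038426) (.br (nat_lit 3) (.cons (.br (nat_lit 6) (.cons (.rel (nat_lit 17716741152)) .nil)) .nil)) (.node .leaf (nat_lit 24202419398032296) (.br (nat_lit 0) (.cons (.br (nat_lit 1) (.cons (.rel (nat_lit 20975697)) .nil)) .nil)) .leaf))))))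

/-- refutations 32 -/
def e32 : EX := (.node (.node (.node (.node (.node (.node (.node (.node .leaf (nat_lit 24752266973521372) (.br (nat_lit 0) (.cons (.br (nat_lit 1) (.cons (.rel (nat_lit 20975697)) .nil)) .nil)) .leaf) (nat_lit 24752272321258972) (.br (nat_lit 1) (.cons (.br (nat_lit 2) (.cons (.rel (nat_lit 83888640)) (.cons (.rel (nat_lit 83895297)) .nil))) .nil)) .leaf) (nat_lit 24752635833051447) (.br (nat_lit 2) (.cons (.br (nat_lit 4) (.cons (.rel (nat_lit 1140868224)) .nil)) .nil)) (.node .leaf (nat_lit 24752635834520488) (.br (nat_lit 1) (.cons (.br (nat_lit 0) (.cons (.rel (nat_lit 20971848)) (.cons (.rel (nat_lit 20975697)) .nil))) .nil)) .leaf)) (nat_lit 24752636444328872) (.br (nat_lit 1) (.cons (.br (nat_lit 2) (.cons (.rel (nat_lit 83951880)) .nil)) .nil)) (.node (.node .leaf (nat_lit 24752636445574056) (.br (nat_lit 1) (.cons (.br (nat_lit 3) (.cons (.rel (nat_lit 285298944)) .nil)) .nil)) .leaf) (nat_lit 24752636447153385) (.br (nat_lit 1) (.cons (.br (nat_lit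 4) (.cons (.rel (nat_lit 1090521096)) .nil)) .nil)) (.node .leaf (nat_lit 24752638454646136) (.br (nat_lit 2) (.cons (.br (nat_lit 3) (.cons (.rel (nat_lit 335876097)) .nil)) .nil)) .leaf))) (nat_lit 24752638454945001) (.br (nat_lit 2) (.cons (.br (nat_lit 3) (.cons (.rel (nat_lit 335840256)) (.cons (.rel (nat_lit 604307520)) .nil))) .nil)) (.node (.node (.node (.node .leaf (nat_lit 24752638454945144) (.br (nat_lit 1) (.cons (.br (nat_lit 2) (.cons (.rel (nat_lit 83902752)) .nil)) .nil)) .leaf) (nat_lit 24752638559793938) (.br (nat_lit 0) (.cons (.br (nat_lit 1) (.cons (.rel (nat_lit 20971848)) (.cons (.rel (nat_lit 37750800)) .nil))) (.cons (.br (nat_lit 2) (.cons (.rel (nat_lit 71434260)) (.cons (.rel (nat_lit 71311377)) .nil))) .nil))) .leaf) (nat_lit 24752639067014520) (.br (nat_lit 1) (.cons (.br (nat_lit 4) (.cons (.rel (nat_lit 1090539777)) .nil)) .nil)) (.node .leaf (nat_lit 24752639067014681) (.br (nat_lit 1) (.cons (.br (nat_lit 2) (.cons (.rel (nat_lit 83895297))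 (.cons (.rel (nat_lit 83894292)) .nil))) (.cons (.br (nat_lit 3) (.cons (.rel (nat_lit 285212949)) (.cons (.rel (nat_lit 285221376)) .nil))) .nil))) .leaf)) (nat_lit 24752639142358303) (.br (nat_lit 1) (.cons (.br (nat_lit 3) (.cons (.rel (nat_lit 285221376)) (.cons (.rel (nat_lit 302252064)) .nil))) (.cons (.br (nat_lit 2) (.cons (.rel (nat_lit 83895297)) (.cons (.rel (nat_lit 167773440)) .nil))) .nil))) (.node (.node .leaf (nat_lit 24752639142358374) (.br (nat_lit 4) (.cons (.br (nat_lit 5) (.cons (.rel (nat_lit 5370024192)) .nil)) .nil)) .leaf) (nat_lit 24752639142358517) (.br (nat_lit 2) (.cons (.br (nat_lit 4) (.cons (.rel (nat_lit 1141116930)) .nil)) .nil)) (.node .leaf (nat_lit 24752639142503711) (.br (nat_lit 2) (.cons (.br (nat_lit 5) (.cons (.rel (nat_lit 4362076170)) .nil)) .nil)) .leaf)))) (nat_lit 24752639142503782) (.br (nat_lit 2) (.cons (.br (nat_lit 5) (.cons (.rel (nat_lit 4362076170)) .nil)) .nil)) (.node (.node (.node (.node (.node .leaf (nat_lit 24752639142503925)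 (.br (nat_lit 2) (.cons (.br (nat_lit 5) (.cons (.rel (nat_lit 4362076170)) .nil)) .nil)) .leaf) (nat_lit 24752639142511903) (.br (nat_lit 4) (.cons (.br (nat_lit 6) (.cons (.rel (nat_lit 18254020608)) .nil)) .nil)) .leaf) (nat_lit 24752639142802719) (.br (nat_lit 2) (.cons (.br (nat_lit 5) (.cons (.rel (nat_lit 4362076170)) .nil)) .nil)) (.node .leaf (nat_lit 24752639142802790) (.br (nat_lit 5) (.cons (.br (nat_lit 1) (.cons (.rel (nat_lit 8606842896)) (.cons (.rel (nat_lit 4312301568)) .nil))) .nil)) .leaf)) (nat_lit 24752639142802933) (.br (nat_lit 5) (.cons (.br (nat_lit 2) (.cons (.rel (nat_lit 4362076170)) (.cons (.rel (nat_lit 4362076170)) .nil))) .nil)) (.node (.node .leaf (nat_lit 24752639143570790) (.br (nat_lit 1) (.cons (.br (nat_lit 3) (.cons (.rel (nat_lit 554172432)) (.cons (.rel (nat_lit 285376512)) .nil))) .nil)) .leaf) (nat_lit 24752639143570933) (.br (nat_lit 1) (.cons (.br (nat_lit 5) (.cons (.rel (nat_lit 4312301568)) .nil)) .nil)) (.node .leaf (nat_lit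 24752639143894374) (.br (nat_lit 1) (.cons (.br (nat_lit 5) (.cons (.rel (nat_lit 4312301568)) .nil)) .nil)) .leaf))) (nat_lit 24752640534866856) (.br (nat_lit 1) (.cons (.br (nat_lit 2) (.cons (.rel (nat_lit 167773440)) .nil)) .nil)) (.node (.node (.node .leaf (nat_lit 24752640534867206) (.br (nat_lit 1) (.cons (.br (nat_lit 2) (.cons (.rel (nat_lit 83894292)) .nil)) .nil)) .leaf) (nat_lit 24752640535020777) (.br (nat_lit 1) (.cons (.br (nat_lit 2) (.cons (.rel (nat_lit 83890434)) .nil)) .nil)) (.node .leaf (nat_lit 24752640535319785) (.br (nat_lit 0) (.cons (.br (nat_lit 1) (.cons (.rel (nat_lit 37765632)) .nil)) .nil)) .leaf)) (nat_lit 24752640536600028) (.br (nat_lit 1) (.cons (.br (nat_lit 0) (.cons (.rel (nat_lit 22028289)) (.cons (.rel (nat_lit 22021632)) .nil))) .nil)) (.node (.node .leaf (nat_lit 24752641554082567) (.br (nat_lit 3) (.cons (.br (nat_lit 5) (.cons (.rel (nat_lit 4563423234)) .nil)) .nil)) .leaf) (nat_lit 24753374206870440) (.br (nat_lit 2) (.cons (.br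 (nat_lit 6) (.cons (.rel (nat_lit 34426912800)) .nil)) .nil)) (.node .leaf (nat_lit 24753374206870936) (.br (nat_lit 1) (.cons (.br (nat_lit 2) (.cons (.rel (nat_lit 83895297)) .nil)) .nil)) .leaf))))) (nat_lit 24753374207160631) (.br (nat_lit 0) (.cons (.br (nat_lit 1) (.cons (.rel (nat_lit 22052880)) .nil)) .nil)) (.node (.node (.node (.node (.node (.node .leaf (nat_lit 24753374207168519) (.br (nat_lit 3) (.cons (.br (nat_lit 0) (.cons (.rel (nat_lit 545325312)) (.cons (.rel (nat_lit 272630034)) .nil))) .nil)) .leaf) (nat_lit 24753374207169448) (.br (nat_lit 1) (.cons (.br (nat_lit 3) (.cons (.rel (nat_lit 285212949)) .nil)) .nil)) .leaf) (nat_lit 24753374207169798) (.br (nat_lit 2) (.cons (.br (nat_lit 3) (.cons (.rel (nat_lit 672145413)) .nil)) .nil)) (.node .leaf (nat_lit 24753374207929702) (.br (nat_lit 0) (.cons (.br (nat_lit 1) (.cons (.rel (nat_lit 20975697)) .nil)) .nil)) .leaf)) (nat_lit 24753374207929756) (.br (nat_lit 1) (.cons (.br (nat_lit 2) (.cons (.rel (nat_lit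 83902752)) .nil)) .nil)) (.node (.node .leaf (nat_lit 24753374208243719) (.br (nat_lit 0) (.cons (.br (nat_lit 2) (.cons (.rel (nat_lit 71307528)) .nil)) .nil)) .leaf) (nat_lit 24753374229223461) (.br (nat_lit 0) (.cons (.br (nat_lit 3) (.cons (.rel (nat_lit 272761344)) .nil)) .nil)) (.node .leaf (nat_lit 24753374651466653) (.br (nat_lit 0) (.cons (.br (nat_lit 2) (.cons (.rel (nat_lit 71373828)) .nil)) .nil)) .leaf))) (nat_lit 24753374729613944) (.br (nat_lit 4) (.cons (.br (nat_lit 1) (.cons (.rel (nat_lit 1090617345)) (.cons (.rel (nat_lit 1091568000)) .nil))) .nil)) (.node (.node (.node .leaf (nat_lit 24753374729912345) (.br (nat_lit 1) (.cons (.br (nat_lit 5) (.cons (.rel (nat_lit 4312797696)) .nil)) .nil)) .leaf) (nat_lit 24753374729912952) (.br (nat_lit 1) (.cons (.br (nat_lit 0) (.cons (.rel (nat_lit 37765632)) (.cons (.rel (nat_lit 22021632)) (.cons (.rel (nat_lit 37765632)) .nil)))) .nil)) (.node .leaf (nat_lit 24753374729913077) (.br (nat_lit 0) (.cons (.br (nat_lit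 1) (.cons (.rel (nat_lit 20971848)) .nil)) .nil)) .leaf)) (nat_lit 24753374729913577) (.br (nat_lit 4) (.cons (.br (nat_lit 5) (.cons (.rel (nat_lit 5370024192)) .nil)) .nil)) (.node (.node .leaf (nat_lit 24753374731004536) (.br (nat_lit 1) (.cons (.br (nat_lit 2) (.cons (.rel (nat_lit 83895297)) .nil)) .nil)) .leaf) (nat_lit 24753374731141895) (.br (nat_lit 1) (.cons (.br (nat_lit 4) (.cons (.rel (nat_lit 2181039108)) .nil)) .nil)) (.node .leaf (nat_lit 24753374731142406) (.br (nat_lit 1) (.cons (.br (nat_lit 2) (.cons (.rel (nat_lit 83888640)) .nil)) .nil)) .leaf)))) (nat_lit 24753374731142502) (.br (nat_lit 0) (.cons (.br (nat_lit 2) (.cons (.rel (nat_lit 71304720)) .nil)) .nil)) (.node (.node (.node (.node (.node .leaf (nat_lit 24753374731149337) (.br (nat_lit 2) (.cons (.br (nat_lit 5) (.cons (.rel (nat_lit 4362076170)) .nil)) .nil)) .leaf) (nat_lit 24753374731149944) (.br (nat_lit 1) (.cons (.br (nat_lit 5) (.cons (.rel (nat_lit 4311814212)) (.cons (.rel (nat_lit 8606842896))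 .nil))) .nil)) .leaf) (nat_lit 24753374731448345) (.br (nat_lit 1) (.cons (.br (nat_lit 2) (.cons (.rel (nat_lit 102760464)) .nil)) .nil)) (.node .leaf (nat_lit 24753374731448506) (.br (nat_lit 2) (.cons (.br (nat_lit 5) (.cons (.rel (nat_lit 8657567808)) .nil)) .nil)) .leaf)) (nat_lit 24753374731448952) (.br (nat_lit 2) (.cons (.br (nat_lit 5) (.cons (.br (nat_lit 1) (.cons (.rel (nat_lit 4381016064)) (.cons (.rel (nat_lit 83894292)) .nil))) .nil)) .nil)) (.node (.node .leaf (nat_lit 24753374731449077) (.br (nat_lit 5) (.cons (.br (nat_lit 6) (.cons (.rel (nat_lit 42949674240)) (.cons (.rel (nat_lit 21474906129)) (.cons (.rel (nat_lit 21474902280)) .nil)))) .nil)) .leaf) (nat_lit 24753374731449631) (.br (nat_lit 2) (.cons (.br (nat_lit 5) (.cons (.rel (nat_lit 4362076170)) .nil)) .nil)) (.node .leaf (nat_lit 24753374731449831) (.br (nat_lit 1) (.cons (.br (nat_lit 3) (.cons (.rel (nat_lit 570429696)) .nil)) .nil)) .leaf))) (nat_lit 24753374731465336) (.br (nat_lit 0) (.cons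 (.br (nat_lit 4) (.cons (.rel (nat_lit 1077936162)) .nil)) .nil)) (.node (.node (.node .leaf (nat_lit 24753374732216345) (.br (nat_lit 1) (.cons (.br (nat_lit 2) (.cons (.rel (nat_lit 84018180)) .nil)) .nil)) .leaf) (nat_lit 24753374732472970) (.br (nat_lit 1) (.cons (.br (nat_lit 5) (.cons (.rel (nat_lit 4312795137)) .nil)) .nil)) (.node .leaf (nat_lit 24753374732540090) (.br (nat_lit 1) (.cons (.br (nat_lit 2) (.cons (.rel (nat_lit 167773440)) .nil)) .nil)) .leaf)) (nat_lit 24753374732540536) (.br (nat_lit 1) (.cons (.br (nat_lit 2) (.cons (.rel (nat_lit 167773440)) .nil)) .nil)) (.node (.node .leaf (nat_lit 24753375179795743) (.br (nat_lit 0) (.cons (.br (nat_lit 1) (.cons (.rel (nat_lit 39124992)) .nil)) .nil)) .leaf) (nat_lit 24753375179948807) (.br (nat_lit 1) (.cons (.br (nat_lit 2) (.cons (.rel (nat_lit 83888640)) .nil)) .nil)) (.node .leaf (nat_lit 24753375180247047) (.br (nat_lit 1) (.cons (.br (nat_lit 3) (.cons (.rel (nat_lit 285213954)) .nil)) .nil)) .leaf))))))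 (nat_lit 24753375180247976) (.br (nat_lit 1) (.cons (.br (nat_lit 2) (.cons (.rel (nat_lit 84181056)) (.cons (.rel (nat_lit 83890434)) .nil))) .nil)) (.node (.node (.node (.node (.node (.node (.node .leaf (nat_lit 24753375181211798) (.br (nat_lit 1) (.cons (.br (nat_lit 2) (.cons (.rel (nat_lit 83895297)) .nil)) .nil)) .leaf) (nat_lit 24753375181263480) (.br (nat_lit 0) (.cons (.br (nat_lit 4) (.cons (.rel (nat_lit 1077936162)) .nil)) .nil)) .leaf) (nat_lit 24753375181264409) (.br (nat_lit 2) (.cons (.br (nat_lit 0) (.cons (.rel (nat_lit 75763728)) (.cons (.rel (nat_lit 71434260)) .nil))) .nil)) (.node .leaf (nat_lit 24753375181323176) (.br (nat_lit 1) (.cons (.br (nat_lit 2) (.cons (.rel (nat_lit 83888640)) .nil)) .nil)) .leaf)) (nat_lit 24753375181323640) (.br (nat_lit 0) (.cons (.br (nat_lit 2) (.cons (.rel (nat_lit 71304720)) .nil)) .nil)) (.node (.node .leaf (nat_lit 24753376772816105) (.br (nat_lit 0) (.cons (.br (nat_lit 1) (.cons (.rel (nat_lit 20971848)) .nil)) .nil))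 .leaf) (nat_lit 24753376828149098) (.br (nat_lit 1) (.cons (.br (nat_lit 2) (.cons (.rel (nat_lit 83888640)) .nil)) .nil)) (.node .leaf (nat_lit 24753376828156840) (.br (nat_lit 0) (.cons (.br (nat_lit 1) (.cons (.rel (nat_lit 22021632)) .nil)) .nil)) .leaf))) (nat_lit 24753376828302248) (.br (nat_lit 3) (.cons (.br (nat_lit 6) (.cons (.rel (nat_lit 17448308868)) (.cons (.rel (nat_lit 17448633348)) .nil))) (.cons (.br (nat_lit 6) (.cons (.rel (nat_lit 34628308992)) (.cons (.rel (nat_lit 17716740102)) .nil))) .nil))) (.node (.node (.node (.node .leaf (nat_lit 24753376828302623) (.br (nat_lit 2) (.cons (.br (nat_lit 4) (.cons (.rel (nat_lit 1141115136)) .nil)) .nil)) .leaf) (nat_lit 24753376828601577) (.br (nat_lit 3) (.cons (.br (nat_lit 6) (.cons (.rel (nat_lit 34628175888)) (.cons (.rel (nat_lit 34628308992)) .nil))) .nil)) .leaf) (nat_lit 24753376828601702) (.br (nat_lit 2) (.cons (.br (nat_lit 4) (.cons (.rel (nat_lit 1208026116)) .nil)) .nil)) (.node .leaf (nat_lit 24753376828609912)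 (.br (nat_lit 2) (.cons (.br (nat_lit 3) (.cons (.rel (nat_lit 402735105)) .nil)) .nil)) .leaf)) (nat_lit 24753376828610037) (.br (nat_lit 3) (.cons (.br (nat_lit 4) (.cons (.rel (nat_lit 1342310784)) .nil)) .nil)) (.node (.node .leaf (nat_lit 24753376829625577) (.br (nat_lit 2) (.cons (.br (nat_lit 4) (.cons (.rel (nat_lit 1141116930)) .nil)) .nil)) .leaf) (nat_lit 24753376829625720) (.br (nat_lit 1) (.cons (.br (nat_lit 2) (.cons (.rel (nat_lit 83888640)) .nil)) .nil)) (.node .leaf (nat_lit 24753377779447868) (.br (nat_lit 0) (.cons (.br (nat_lit 1) (.cons (.rel (nat_lit 20987970)) .nil)) .nil)) .leaf)))) (nat_lit 24753377780409752) (.br (nat_lit 0) (.cons (.br (nat_lit 1) (.cons (.rel (nat_lit 22028289)) .nil)) .nil)) (.node (.node (.node (.node (.node .leaf (nat_lit 24753377780707354) (.br (nat_lit 1) (.cons (.br (nat_lit 2) (.cons (.rel (nat_lit 84934788)) .nil)) .nil)) .leaf) (nat_lit 24753377780708254) (.br (nat_lit 0) (.cons (.br (nat_lit 2) (.cons (.rel (nat_lit 142622736))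 .nil)) .nil)) .leaf) (nat_lit 24753377780708860) (.br (nat_lit 2) (.cons (.br (nat_lit 1) (.cons (.rel (nat_lit 83902752)) (.cons (.rel (nat_lit 83888640)) .nil))) .nil)) (.node .leaf (nat_lit 24753377799844615) (.br (nat_lit 1) (.cons (.br (nat_lit 2) (.cons (.rel (nat_lit 84181056)) .nil)) .nil)) .leaf)) (nat_lit 24753377801380776) (.br (nat_lit 2) (.cons (.br (nat_lit 1) (.cons (.rel (nat_lit 83890434)) (.cons (.rel (nat_lit 83968002)) .nil))) .nil)) (.node (.node .leaf (nat_lit 24753377801679784) (.br (nat_lit 6) (.cons (.br (nat_lit 1) (.cons (.rel (nat_lit 17196687360)) (.cons (.rel (nat_lit 17196662802)) .nil))) .nil)) .leaf) (nat_lit 24753377801680380) (.br (nat_lit 1) (.cons (.br (nat_lit 3) (.cons (.rel (nat_lit 285376512)) .nil)) .nil)) (.node .leaf (nat_lit 24753377801688440) (.br (nat_lit 4) (.cons (.br (nat_lit 3) (.cons (.rel (nat_lit 2684354628)) (.cons (.rel (nat_lit 1342525440)) .nil))) .nil)) .leaf))) (nat_lit 24753377802447784) (.br (nat_lit 0) (.cons (.br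 (nat_lit 1) (.cons (.rel (nat_lit 22021632)) .nil)) .nil)) (.node (.node (.node .leaf (nat_lit 24753377802704105) (.br (nat_lit 4) (.cons (.br (nat_lit 0) (.cons (.rel (nat_lit 2152218624)) (.cons (.rel (nat_lit 1077936162)) .nil))) .nil)) .leaf) (nat_lit 24753377802704248) (.br (nat_lit 1) (.cons (.br (nat_lit 4) (.cons (.rel (nat_lit 1090605072)) .nil)) .nil)) (.node .leaf (nat_lit 24753377802704409) (.br (nat_lit 0) (.cons (.br (nat_lit 2) (.cons (.rel (nat_lit 71323650)) (.cons (.rel (nat_lit 71304720)) .nil))) .nil)) .leaf)) (nat_lit 24753377880927144) (.br (nat_lit 2) (.cons (.br (nat_lit 3) (.cons (.rel (nat_lit 335544960)) .nil)) .nil)) (.node (.node .leaf (nat_lit 24753377922085800) (.br (nat_lit 3) (.cons (.br (nat_lit 1) (.cons (.rel (nat_lit 285221376)) (.cons (.rel (nat_lit 285298944)) .nil))) .nil)) .leaf) (nat_lit 24753377922086250) (.br (nat_lit 1) (.cons (.br (nat_lit 6) (.cons (.rel (nat_lit 34393313280)) (.cons (.rel (nat_lit 17196712980)) (.cons (.rel (nat_lit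 17196662802)) .nil)))) .nil)) (.node .leaf (nat_lit 24753377922861992) (.br (nat_lit 3) (.cons (.br (nat_lit 4) (.cons (.rel (nat_lit 1342447872)) (.cons (.rel (nat_lit 2684354628)) .nil))) .nil)) .leaf))))) (nat_lit 24753377922862442) (.br (nat_lit 4) (.cons (.br (nat_lit 1) (.cons (.rel (nat_lit 1090519077)) (.cons (.rel (nat_lit 1091568000)) (.cons (.rel (nat_lit 1090519077)) .nil)))) (.cons (.br (nat_lit 0) (.cons (.rel (nat_lit 2151679296)) (.cons (.rel (nat_lit 1077936162)) (.cons (.rel (nat_lit 1078007040)) (.cons (.rel (nat_lit 2155872273)) (.cons (.rel (nat_lit 1077960720)) .nil)))))) .nil))) (.node (.node (.node (.node (.node (.node .leaf (nat_lit 24753377923007850) (.br (nat_lit 4) (.cons (.br (nat_lit 0) (.cons (.rel (nat_lit 1079001216)) (.cons (.rel (nat_lit 1078067472)) (.cons (.rel (nat_lit 2155872273)) .nil)))) (.cons (.br (nat_lit 0) (.cons (.rel (nat_lit 1078007040)) (.cons (.rel (nat_lit 2155872273)) (.cons (.rel (nat_lit 2155872273)) .nil)))) .nil))) .leaf)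 (nat_lit 24753377923022874) (.br (nat_lit 0) (.cons (.br (nat_lit 2) (.cons (.rel (nat_lit 71311377)) .nil)) .nil)) .leaf) (nat_lit 24753377923022884) (.br (nat_lit 1) (.cons (.br (nat_lit 2) (.cons (.rel (nat_lit 83902752)) .nil)) .nil)) (.node .leaf (nat_lit 24753377923023784) (.br (nat_lit 2) (.cons (.br (nat_lit 3) (.cons (.rel (nat_lit 335814660)) (.cons (.rel (nat_lit 671088960)) .nil))) .nil)) .leaf)) (nat_lit 24753377923313690) (.br (nat_lit 1) (.cons (.br (nat_lit 2) (.cons (.rel (nat_lit 83890434)) .nil)) .nil)) (.node (.node .leaf (nat_lit 24753377923314450) (.br (nat_lit 1) (.cons (.br (nat_lit 3) (.cons (.rel (nat_lit 302252064)) .nil)) .nil)) .leaf) (nat_lit 24753377923314600) (.br (nat_lit 0) (.cons (.br (nat_lit 3) (.cons (.rel (nat_lit 545325312)) (.cons (.rel (nat_lit 272732160)) .nil))) (.cons (.br (nat_lit 2) (.cons (.rel (nat_lit 71335968)) (.cons (.rel (nat_lit 75763728)) .nil))) .nil))) (.node .leaf (nat_lit 24753377923314950) (.br (nat_lit 1) (.cons (.br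 (nat_lit 4) (.cons (.rel (nat_lit 1090605072)) .nil)) .nil)) .leaf))) (nat_lit 24753377923314969) (.br (nat_lit 2) (.cons (.br (nat_lit 5) (.cons (.rel (nat_lit 4362076170)) .nil)) .nil)) (.node (.node (.node .leaf (nat_lit 24753377923315071) (.br (nat_lit 0) (.cons (.br (nat_lit 1) (.cons (.rel (nat_lit 25166880)) .nil)) .nil)) .leaf) (nat_lit 24753377923315164) (.br (nat_lit 1) (.cons (.br (nat_lit 2) (.cons (.rel (nat_lit 83888640)) .nil)) .nil)) (.node .leaf (nat_lit 24753377923321863) (.br (nat_lit 0) (.cons (.br (nat_lit 1) (.cons (.rel (nat_lit 20975697)) (.cons (.rel (nat_lit 22052880)) .nil))) .nil)) .leaf)) (nat_lit 24753377923321893) (.br (nat_lit 1) (.cons (.br (nat_lit 3) (.cons (.rel (nat_lit 285279249)) .nil)) .nil)) (.node (.node .leaf (nat_lit 24753377923323242) (.br (nat_lit 3) (.cons (.br (nat_lit 0) (.cons (.rel (nat_lit 272633892)) (.cons (.rel (nat_lit 272654592)) .nil))) .nil)) .leaf) (nat_lit 24753377923323256) (.br (nat_lit 1) (.cons (.br (nat_lit 2)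 (.cons (.rel (nat_lit 83955729)) .nil)) .nil)) (.node .leaf (nat_lit 24753377923330984) (.br (nat_lit 3) (.cons (.br (nat_lit 4) (.cons (.rel (nat_lit 1342447872)) .nil)) .nil)) .leaf)))) (nat_lit 24753377923331434) (.br (nat_lit 4) (.cons (.br (nat_lit 1) (.cons (.rel (nat_lit 1090520082)) (.cons (.rel (nat_lit 2181039108)) .nil))) .nil)) (.node (.node (.node (.node (.node .leaf (nat_lit 24753377924081700) (.br (nat_lit 1) (.cons (.br (nat_lit 3) (.cons (.rel (nat_lit 285221376)) .nil)) .nil)) .leaf) (nat_lit 24753377924082600) (.br (nat_lit 4) (.cons (.br (nat_lit 1) (.cons (.rel (nat_lit 1090521096)) (.cons (.rel (nat_lit 2181039108)) (.cons (.rel (nat_lit 1090521096)) .nil)))) .nil)) .leaf) (nat_lit 24753377924083050) (.br (nat_lit 1) (.cons (.br (nat_lit 0) (.cons (.rel (nat_lit 22052880)) (.cons (.rel (nat_lit 21499908)) .nil))) .nil)) (.node .leaf (nat_lit 24753377924338600) (.br (nat_lit 4) (.cons (.br (nat_lit 2) (.cons (.rel (nat_lit 1141115136)) (.cons (.rel (nat_lit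 2214625281)) .nil))) .nil)) .leaf)) (nat_lit 24753377924398442) (.br (nat_lit 1) (.cons (.br (nat_lit 6) (.cons (.rel (nat_lit 17196650529)) (.cons (.rel (nat_lit 17196712980)) .nil))) (.cons (.br (nat_lit 3) (.cons (.rel (nat_lit 285221376)) (.cons (.rel (nat_lit 570507264)) .nil))) .nil))) (.node (.node .leaf (nat_lit 24753377924406634) (.br (nat_lit 3) (.cons (.br (nat_lit 0) (.cons (.rel (nat_lit 272697348)) (.cons (.rel (nat_lit 272630034)) .nil))) .nil)) .leaf) (nat_lit 24753377924603242) (.br (nat_lit 1) (.cons (.br (nat_lit 3) (.cons (.rel (nat_lit 570429696)) .nil)) .nil)) (.node .leaf (nat_lit 24753377924605190) (.br (nat_lit 1) (.cons (.br (nat_lit 4) (.cons (.rel (nat_lit 1090605072)) .nil)) .nil)) .leaf))) (nat_lit 24753379387126546) (.br (nat_lit 2) (.cons (.br (nat_lit 3) (.cons (.rel (nat_lit 335823120)) .nil)) .nil)) (.node (.node (.node .leaf (nat_lit 24753509271830790) (.br (nat_lit 0) (.cons (.br (nat_lit 1) (.cons (.rel (nat_lit 25165830)) .nil)) .nil))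 .leaf) (nat_lit 24753772938364280) (.br (nat_lit 0) (.cons (.br (nat_lit 1) (.cons (.rel (nat_lit 20987970)) .nil)) .nil)) (.node .leaf (nat_lit 24753772938380664) (.br (nat_lit 1) (.cons (.br (nat_lit 2) (.cons (.rel (nat_lit 83888640)) (.cons (.rel (nat_lit 102760464)) .nil))) .nil)) .leaf)) (nat_lit 24754359540992936) (.br (nat_lit 1) (.cons (.br (nat_lit 3) (.cons (.rel (nat_lit 285213954)) .nil)) .nil)) (.node (.node .leaf (nat_lit 24754359675364264) (.br (nat_lit 1) (.cons (.br (nat_lit 3) (.cons (.rel (nat_lit 570429696)) (.cons (.rel (nat_lit 285230085)) (.cons (.rel (nat_lit 285212949)) .nil)))) .nil)) .leaf) (nat_lit 24754359675663272) (.br (nat_lit 1) (.cons (.br (nat_lit 3) (.cons (.rel (nat_lit 285221376)) (.cons (.rel (nat_lit 285213954)) .nil))) (.cons (.br (nat_lit 3) (.cons (.rel (nat_lit 285229080)) (.cons (.rel (nat_lit 285217812)) .nil))) .nil))) (.node .leaf (nat_lit 24754359675680281) (.br (nat_lit 0) (.cons (.br (nat_lit 1) (.cons (.rel (nat_lit 21499908))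 .nil)) .nil)) .leaf)))))))

/-- refutations 33 -/
def e33 : EX := (.node (.node (.node (.node (.node (.node (.node .leaf (nat_lit 24754628696486199) (.br (nat_lit 1) (.cons (.br (nat_lit 4) (.cons (.rel (nat_lit 2181039108)) .nil)) .nil)) .leaf) (nat_lit 24754628696785207) (.br (nat_lit 1) (.cons (.br (nat_lit 2) (.cons (.rel (nat_lit 167773440)) .nil)) .nil)) .leaf) (nat_lit 24754628698031366) (.br (nat_lit 0) (.cons (.br (nat_lit 1) (.cons (.rel (nat_lit 20971848)) .nil)) .nil)) (.node (.node .leaf (nat_lit 24754628698031580) (.br (nat_lit 0) (.cons (.br (nat_lit 1) (.cons (.rel (nat_lit 20971848)) .nil)) .nil)) .leaf) (nat_lit 24754628699345032) (.br (nat_lit 1) (.cons (.br (nat_lit 2) (.cons (.rel (nat_lit 84018180)) .nil)) .nil)) .leaf)) (nat_lit 24754630793937046) (.br (nat_lit 0) (.cons (.br (nat_lit 1) (.cons (.rel (nat_lit 22021632)) .nil)) .nil)) (.node (.node (.node .leaf (nat_lit 24754630793937082) (.br (nat_lit 1) (.cons (.br (nat_lit 5) (.cons (.rel (nat_lit 4311762240))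 .nil)) .nil)) .leaf) (nat_lit 24754630793937832) (.br (nat_lit 1) (.cons (.br (nat_lit 5) (.cons (.rel (nat_lit 4311875649)) (.cons (.rel (nat_lit 4311762240)) .nil))) .nil)) .leaf) (nat_lit 24754630795028666) (.br (nat_lit 1) (.cons (.br (nat_lit 5) (.cons (.rel (nat_lit 4311762240)) .nil)) .nil)) (.node .leaf (nat_lit 24754630795029791) (.br (nat_lit 5) (.cons (.br (nat_lit 1) (.cons (.rel (nat_lit 4328587296)) (.cons (.rel (nat_lit 4311762240)) .nil))) .nil)) .leaf))) (nat_lit 24754630795029862) (.br (nat_lit 1) (.cons (.br (nat_lit 5) (.cons (.rel (nat_lit 4311762240)) (.cons (.rel (nat_lit 4312301568)) .nil))) .nil)) (.node (.node (.node (.node .leaf (nat_lit 24754630795030005) (.br (nat_lit 4) (.cons (.br (nat_lit 5) (.cons (.rel (nat_lit 5368709382)) (.cons (.rel (nat_lit 6442455360)) .nil))) (.cons (.br (nat_lit 5) (.cons (.rel (nat_lit 5368713240)) (.cons (.rel (nat_lit 5368742400)) .nil))) .nil))) .leaf) (nat_lit 24754630795174074) (.br (nat_lit 1) (.cons (.br (nat_lit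 4) (.cons (.rel (nat_lit 1090519077)) (.cons (.rel (nat_lit 1090519077)) .nil))) .nil)) .leaf) (nat_lit 24754630795175199) (.br (nat_lit 1) (.cons (.br (nat_lit 5) (.cons (.rel (nat_lit 4311875649)) (.cons (.rel (nat_lit 4311745104)) .nil))) .nil)) (.node (.node .leaf (nat_lit 24754630795175270) (.br (nat_lit 5) (.cons (.br (nat_lit 2) (.cons (.rel (nat_lit 8724152325)) (.cons (.rel (nat_lit 8657567808)) (.cons (.rel (nat_lit 4362078225)) .nil)))) (.cons (.br (nat_lit 3) (.cons (.rel (nat_lit 8860471296)) (.cons (.rel (nat_lit 4563421440)) (.cons (.rel (nat_lit 8860471296)) (.cons (.rel (nat_lit 8858763264)) .nil))))) .nil))) .leaf) (nat_lit 24754630795175413) (.br (nat_lit 5) (.cons (.br (nat_lit 1) (.cons (.rel (nat_lit 4328587296)) (.cons (.rel (nat_lit 4311745104)) .nil))) .nil)) .leaf)) (nat_lit 24754630795473082) (.br (nat_lit 1) (.cons (.br (nat_lit 5) (.cons (.rel (nat_lit 4311762240)) .nil)) .nil)) (.node (.node (.node .leaf (nat_lit 24754630795474207) (.br (nat_lit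 5) (.cons (.br (nat_lit 2) (.cons (.rel (nat_lit 4362076170)) (.cons (.rel (nat_lit 8657567808)) (.cons (.rel (nat_lit 8657306640)) .nil)))) (.cons (.br (nat_lit 2) (.cons (.rel (nat_lit 8724152325)) (.cons (.rel (nat_lit 8657567808)) (.cons (.rel (nat_lit 4362078225)) .nil)))) .nil))) .leaf) (nat_lit 24754630795474278) (.br (nat_lit 5) (.cons (.br (nat_lit 1) (.cons (.rel (nat_lit 4328587296)) (.cons (.rel (nat_lit 4312875264)) .nil))) .nil)) .leaf) (nat_lit 24754630795474421) (.br (nat_lit 1) (.cons (.br (nat_lit 5) (.cons (.rel (nat_lit 4312301568)) (.cons (.rel (nat_lit 8606782464)) .nil))) .nil)) (.node .leaf (nat_lit 24754630796241832) (.br (nat_lit 5) (.cons (.br (nat_lit 1) (.cons (.rel (nat_lit 8623767552)) (.cons (.rel (nat_lit 4311762240)) .nil))) .nil)) .leaf)))) (nat_lit 24754630796242207) (.br (nat_lit 5) (.cons (.br (nat_lit 2) (.cons (.rel (nat_lit 4362076170)) (.cons (.rel (nat_lit 8657306640)) (.cons (.rel (nat_lit 8657567808)) .nil)))) .nil)) (.node (.node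 (.node (.node (.node .leaf (nat_lit 24754630796566005) (.br (nat_lit 1) (.cons (.br (nat_lit 5) (.cons (.rel (nat_lit 4328587296)) .nil)) .nil)) .leaf) (nat_lit 24754630796772639) (.br (nat_lit 2) (.cons (.br (nat_lit 4) (.cons (.rel (nat_lit 1141115136)) .nil)) .nil)) .leaf) (nat_lit 24754630958752680) (.br (nat_lit 0) (.cons (.br (nat_lit 2) (.cons (.rel (nat_lit 142622736)) .nil)) .nil)) (.node (.node .leaf (nat_lit 24754630958761193) (.br (nat_lit 2) (.cons (.br (nat_lit 5) (.cons (.rel (nat_lit 4362076170)) .nil)) .nil)) .leaf) (nat_lit 24754630958761322) (.br (nat_lit 1) (.cons (.br (nat_lit 3) (.cons (.rel (nat_lit 285221376)) .nil)) .nil)) .leaf)) (nat_lit 24754630958761336) (.br (nat_lit 3) (.cons (.br (nat_lit 4) (.cons (.rel (nat_lit 1342177416)) .nil)) .nil)) (.node (.node (.node .leaf (nat_lit 24754630959050938) (.br (nat_lit 0) (.cons (.br (nat_lit 1) (.cons (.rel (nat_lit 39124992)) .nil)) .nil)) .leaf) (nat_lit 24754630959060201) (.br (nat_lit 1) (.cons (.br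 (nat_lit 2) (.cons (.rel (nat_lit 84018180)) .nil)) .nil)) .leaf) (nat_lit 24754630959060344) (.br (nat_lit 2) (.cons (.br (nat_lit 3) (.cons (.rel (nat_lit 335823120)) .nil)) .nil)) (.node .leaf (nat_lit 24754630959060505) (.br (nat_lit 1) (.cons (.br (nat_lit 3) (.cons (.rel (nat_lit 570507264)) .nil)) .nil)) .leaf))) (nat_lit 24754631319770620) (.br (nat_lit 1) (.cons (.br (nat_lit 2) (.cons (.rel (nat_lit 83894292)) .nil)) .nil)) (.node (.node (.node (.node .leaf (nat_lit 24754631319770649) (.br (nat_lit 2) (.cons (.br (nat_lit 3) (.cons (.rel (nat_lit 402657537)) .nil)) .nil)) .leaf) (nat_lit 24754631320786457) (.br (nat_lit 0) (.cons (.br (nat_lit 1) (.cons (.rel (nat_lit 21499908)) (.cons (.rel (nat_lit 20971848)) .nil))) .nil)) .leaf) (nat_lit 24754634003672565) (.br (nat_lit 2) (.cons (.br (nat_lit 4) (.cons (.rel (nat_lit 2214659328)) .nil)) .nil)) (.node .leaf (nat_lit 24754634003824820) (.br (nat_lit 0) (.cons (.br (nat_lit 1) (.cons (.rel (nat_lit 22151172)) .nil))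 .nil)) .leaf)) (nat_lit 24754634003826072) (.br (nat_lit 0) (.cons (.br (nat_lit 1) (.cons (.rel (nat_lit 39124992)) .nil)) .nil)) (.node (.node (.node .leaf (nat_lit 24754634004123685) (.br (nat_lit 0) (.cons (.br (nat_lit 1) (.cons (.rel (nat_lit 22028289)) .nil)) .nil)) .leaf) (nat_lit 24754634419352488) (.br (nat_lit 2) (.cons (.br (nat_lit 5) (.cons (.rel (nat_lit 4362076170)) .nil)) .nil)) .leaf) (nat_lit 24754634419352959) (.br (nat_lit 0) (.cons (.br (nat_lit 1) (.cons (.rel (nat_lit 42274821)) .nil)) .nil)) (.node .leaf (nat_lit 24754883661374940) (.br (nat_lit 1) (.cons (.br (nat_lit 2) (.cons (.rel (nat_lit 83902752)) (.cons (.rel (nat_lit 83890434)) .nil))) .nil)) .leaf))))) (nat_lit 24754883783316363) (.br (nat_lit 1) (.cons (.br (nat_lit 3) (.cons (.rel (nat_lit 285344262)) .nil)) .nil)) (.node (.node (.node (.node (.node (.node .leaf (nat_lit 24754883784598790) (.br (nat_lit 1) (.cons (.br (nat_lit 2) (.cons (.rel (nat_lit 167773440)) .nil)) .nil)) .leaf) (nat_lit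 24757849921958520) (.br (nat_lit 0) (.cons (.br (nat_lit 1) (.cons (.rel (nat_lit 21038148)) .nil)) .nil)) .leaf) (nat_lit 24757849923503016) (.br (nat_lit 3) (.cons (.br (nat_lit 4) (.cons (.rel (nat_lit 1343227200)) .nil)) .nil)) (.node (.node .leaf (nat_lit 24757849923801720) (.br (nat_lit 1) (.cons (.br (nat_lit 3) (.cons (.rel (nat_lit 285221376)) .nil)) .nil)) .leaf) (nat_lit 24757855777207047) (.br (nat_lit 1) (.cons (.br (nat_lit 3) (.cons (.rel (nat_lit 570429696)) (.cons (.rel (nat_lit 287836164)) .nil))) .nil)) .leaf)) (nat_lit 24757855777506216) (.br (nat_lit 1) (.cons (.br (nat_lit 0) (.cons (.rel (nat_lit 37750800)) (.cons (.rel (nat_lit 25165830)) (.cons (.rel (nat_lit 37765632)) .nil)))) .nil)) (.node (.node (.node .leaf (nat_lit 24757855778597800) (.br (nat_lit 1) (.cons (.br (nat_lit 5) (.cons (.rel (nat_lit 4312793130)) .nil)) .nil)) .leaf) (nat_lit 24757855778743172) (.br (nat_lit 0) (.cons (.br (nat_lit 1) (.cons (.rel (nat_lit 21038148)) .nil)) .nil)) .leaf)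 (nat_lit 24757855778743208) (.br (nat_lit 5) (.cons (.br (nat_lit 3) (.cons (.rel (nat_lit 4563410961)) (.cons (.rel (nat_lit 4563423234)) (.cons (.rel (nat_lit 4563410961)) (.cons (.rel (nat_lit 4563435552)) .nil))))) .nil)) (.node .leaf (nat_lit 24757855779042055) (.br (nat_lit 3) (.cons (.br (nat_lit 5) (.cons (.rel (nat_lit 4563421440)) .nil)) .nil)) .leaf))) (nat_lit 24757855779042216) (.br (nat_lit 5) (.cons (.br (nat_lit 0) (.cons (.rel (nat_lit 8594133249)) (.cons (.rel (nat_lit 8594198544)) (.cons (.rel (nat_lit 4300210212)) (.cons (.rel (nat_lit 4300308480)) (.cons (.rel (nat_lit 8594133249)) .nil)))))) (.cons (.br (nat_lit 1) (.cons (.rel (nat_lit 4312301568)) (.cons (.rel (nat_lit 4311745104)) (.cons (.rel (nat_lit 4328522001)) .nil)))) .nil))) (.node (.node (.node (.node .leaf (nat_lit 24757855780015016) (.br (nat_lit 3) (.cons (.br (nat_lit 1) (.cons (.rel (nat_lit 553650240)) (.cons (.rel (nat_lit 285229080)) .nil))) .nil)) .leaf) (nat_lit 24757855780133175) (.br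 (nat_lit 0) (.cons (.br (nat_lit 1) (.cons (.rel (nat_lit 21499908)) .nil)) .nil)) .leaf) (nat_lit 24757855780338439) (.br (nat_lit 1) (.cons (.br (nat_lit 3) (.cons (.rel (nat_lit 285221376)) .nil)) .nil)) (.node .leaf (nat_lit 24757855780340648) (.br (nat_lit 2) (.cons (.br (nat_lit 3) (.cons (.rel (nat_lit 402657537)) .nil)) .nil)) .leaf)) (nat_lit 24758047153641509) (.br (nat_lit 0) (.cons (.br (nat_lit 1) (.cons (.rel (nat_lit 21038148)) .nil)) .nil)) (.node (.node (.node .leaf (nat_lit 24759819114430650) (.br (nat_lit 1) (.cons (.br (nat_lit 2) (.cons (.rel (nat_lit 83888640)) (.cons (.rel (nat_lit 83888640)) .nil))) (.cons (.br (nat_lit 2) (.cons (.rel (nat_lit 100992000)) (.cons (.rel (nat_lit 83906565)) .nil))) .nil))) .leaf) (nat_lit 24759819114431400) (.br (nat_lit 2) (.cons (.br (nat_lit 1) (.cons (.rel (nat_lit 83888640)) (.cons (.rel (nat_lit 83888640)) .nil))) .nil)) .leaf) (nat_lit 24759819114431775) (.br (nat_lit 1) (.cons (.br (nat_lit 2) (.cons (.rel (nat_lit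 100992000)) (.cons (.rel (nat_lit 83906565)) .nil))) (.cons (.br (nat_lit 2) (.cons (.rel (nat_lit 83888640)) (.cons (.rel (nat_lit 83888640)) .nil))) .nil))) (.node .leaf (nat_lit 24759819115523573) (.br (nat_lit 1) (.cons (.br (nat_lit 2) (.cons (.rel (nat_lit 100992000)) .nil)) .nil)) .leaf)))) (nat_lit 24759819115668838) (.br (nat_lit 1) (.cons (.br (nat_lit 2) (.cons (.rel (nat_lit 100992000)) .nil)) .nil)) (.node (.node (.node (.node (.node .leaf (nat_lit 24759819115966650) (.br (nat_lit 2) (.cons (.br (nat_lit 1) (.cons (.rel (nat_lit 83888640)) (.cons (.rel (nat_lit 83888640)) .nil))) .nil)) .leaf) (nat_lit 24759819115967400) (.br (nat_lit 2) (.cons (.br (nat_lit 4) (.cons (.rel (nat_lit 1142947845)) (.cons (.rel (nat_lit 2214593028)) .nil))) .nil)) .leaf) (nat_lit 24759819115967721) (.br (nat_lit 1) (.cons (.br (nat_lit 2) (.cons (.rel (nat_lit 84934788)) .nil)) .nil)) (.node (.node .leaf (nat_lit 24759819115967775) (.br (nat_lit 1) (.cons (.br (nat_lit 2) (.cons (.rel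 (nat_lit 83888640)) (.cons (.rel (nat_lit 100992000)) .nil))) (.cons (.br (nat_lit 2) (.cons (.rel (nat_lit 83888640)) (.cons (.rel (nat_lit 83888640)) .nil))) .nil))) .leaf) (nat_lit 24759819115967846) (.br (nat_lit 1) (.cons (.br (nat_lit 5) (.cons (.rel (nat_lit 4311875649)) .nil)) .nil)) .leaf)) (nat_lit 24759819116734650) (.br (nat_lit 2) (.cons (.br (nat_lit 1) (.cons (.rel (nat_lit 83888640)) (.cons (.rel (nat_lit 100992000)) .nil))) .nil)) (.node (.node (.node .leaf (nat_lit 24759819116735400) (.br (nat_lit 2) (.cons (.br (nat_lit 1) (.cons (.rel (nat_lit 83888640)) (.cons (.rel (nat_lit 100992000)) .nil))) .nil)) .leaf) (nat_lit 24759819116735775) (.br (nat_lit 2) (.cons (.br (nat_lit 1) (.cons (.rel (nat_lit 83888640)) (.cons (.rel (nat_lit 83888640)) .nil))) .nil)) .leaf) (nat_lit 24759819116735989) (.br (nat_lit 1) (.cons (.br (nat_lit 4) (.cons (.rel (nat_lit 1090527504)) .nil)) .nil)) (.node .leaf (nat_lit 24762945805577624) (.br (nat_lit 0) (.cons (.br (nat_lit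 5) (.cons (.rel (nat_lit 4299178320)) .nil)) .nil)) .leaf))) (nat_lit 24764292537870968) (.br (nat_lit 1) (.cons (.br (nat_lit 3) (.cons (.rel (nat_lit 285221376)) (.cons (.rel (nat_lit 302252064)) .nil))) .nil)) (.node (.node (.node (.node .leaf (nat_lit 24764292538025218) (.br (nat_lit 1) (.cons (.br (nat_lit 4) (.cons (.rel (nat_lit 1090521096)) .nil)) .nil)) .leaf) (nat_lit 24764292538314938) (.br (nat_lit 1) (.cons (.br (nat_lit 5) (.cons (.rel (nat_lit 4328526864)) .nil)) .nil)) .leaf) (nat_lit 24764292538316063) (.br (nat_lit 1) (.cons (.br (nat_lit 5) (.cons (.rel (nat_lit 4312301568)) .nil)) .nil)) (.node .leaf (nat_lit 24764292539082938) (.br (nat_lit 1) (.cons (.br (nat_lit 5) (.cons (.rel (nat_lit 4312301568)) .nil)) .nil)) .leaf)) (nat_lit 24764292539084063) (.br (nat_lit 1) (.cons (.br (nat_lit 5) (.cons (.rel (nat_lit 4311762240)) (.cons (.rel (nat_lit 4328526864)) .nil))) .nil)) (.node (.node (.node .leaf (nat_lit 24764297051386792) (.br (nat_lit 1) (.cons (.br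 (nat_lit 2) (.cons (.rel (nat_lit 83951880)) .nil)) .nil)) .leaf) (nat_lit 24764298120934312) (.br (nat_lit 2) (.cons (.br (nat_lit 4) (.cons (.rel (nat_lit 1207959816)) .nil)) .nil)) .leaf) (nat_lit 24764544058143656) (.br (nat_lit 1) (.cons (.br (nat_lit 3) (.cons (.rel (nat_lit 285213954)) .nil)) .nil)) (.node .leaf (nat_lit 24765369350070904) (.br (nat_lit 0) (.cons (.br (nat_lit 1) (.cons (.rel (nat_lit 21038148)) .nil)) .nil)) .leaf))))))

/-- refutations 35 -/
def e35 : EX := (.node (.node (.node (.node (.node (.node .leaf (nat_lit 24630198260965526) (.br (nat_lit 2) (.cons (.br (nat_lit 6) (.cons (.rel (nat_lit 17314152705)) .nil)) .nil)) .leaf) (nat_lit 24630198260966762) (.br (nat_lit 4) (.cons (.br (nat_lit 6) (.cons (.rel (nat_lit 19327354128)) .nil)) .nil)) .leaf) (nat_lit 24630198261264416) (.br (nat_lit 1) (.cons (.br (nat_lit 2) (.cons (.rel (nat_lit 83955729)) .nil)) .nil)) (.node .leaf (nat_lit 24630198261265770) (.br (nat_lit 4) (.cons (.br (nat_lit 5) (.cons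 (.rel (nat_lit 6443499525)) (.cons (.rel (nat_lit 10737434880)) .nil))) (.cons (.br (nat_lit 5) (.cons (.rel (nat_lit 5368709382)) (.cons (.rel (nat_lit 5368742400)) .nil))) .nil))) .leaf)) (nat_lit 24630198261265884) (.br (nat_lit 1) (.cons (.br (nat_lit 2) (.cons (.rel (nat_lit 83894292)) .nil)) .nil)) (.node (.node .leaf (nat_lit 24630198261282154) (.br (nat_lit 0) (.cons (.br (nat_lit 1) (.cons (.rel (nat_lit 37883904)) .nil)) .nil)) .leaf) (nat_lit 24630198262357354) (.br (nat_lit 0) (.cons (.br (nat_lit 3) (.cons (.rel (nat_lit 545325312)) (.cons (.rel (nat_lit 545325312)) .nil))) .nil)) (.node .leaf (nat_lit 24631305627288838) (.br (nat_lit 0) (.cons (.br (nat_lit 1) (.cons (.rel (nat_lit 21561345)) .nil)) .nil)) .leaf))) (nat_lit 24631305629592809) (.br (nat_lit 1) (.cons (.br (nat_lit 3) (.cons (.rel (nat_lit 553650240)) .nil)) .nil)) (.node (.node (.node (.node .leaf (nat_lit 24631307887975800) (.br (nat_lit 0) (.cons (.br (nat_lit 2) (.cons (.rel (nat_lit 71335968))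 .nil)) .nil)) .leaf) (nat_lit 24631307889553719) (.br (nat_lit 2) (.cons (.br (nat_lit 4) (.cons (.rel (nat_lit 1141115136)) (.cons (.rel (nat_lit 1141129248)) .nil))) (.cons (.br (nat_lit 4) (.cons (.rel (nat_lit 1141129248)) (.cons (.rel (nat_lit 1141129248)) .nil))) .nil))) .leaf) (nat_lit 24631307889554183) (.br (nat_lit 5) (.cons (.br (nat_lit 2) (.cons (.rel (nat_lit 4362076170)) (.cons (.rel (nat_lit 8657567808)) .nil))) .nil)) (.node .leaf (nat_lit 24634647801263016) (.br (nat_lit 1) (.cons (.br (nat_lit 3) (.cons (.rel (nat_lit 285221376)) .nil)) .nil)) .leaf)) (nat_lit 24634647802338205) (.br (nat_lit 0) (.cons (.br (nat_lit 3) (.cons (.rel (nat_lit 272631048)) .nil)) .nil)) (.node (.node .leaf (nat_lit 24635993304156946) (.br (nat_lit 1) (.cons (.br (nat_lit 4) (.cons (.rel (nat_lit 1090519077)) .nil)) .nil)) .leaf) (nat_lit 24635993304157085) (.br (nat_lit 2) (.cons (.br (nat_lit 3) (.cons (.rel (nat_lit 603997188)) .nil)) .nil)) (.node .leaf (nat_lit 24635993304609693)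 (.br (nat_lit 3) (.cons (.br (nat_lit 2) (.cons (.rel (nat_lit 335814660)) (.cons (.rel (nat_lit 402735105)) .nil))) .nil)) .leaf)))) (nat_lit 24636672240339576) (.br (nat_lit 3) (.cons (.br (nat_lit 4) (.cons (.rel (nat_lit 1343227200)) .nil)) .nil)) (.node (.node (.node (.node (.node .leaf (nat_lit 24636672240792184) (.br (nat_lit 0) (.cons (.br (nat_lit 1) (.cons (.rel (nat_lit 25198848)) (.cons (.rel (nat_lit 37765632)) .nil))) (.cons (.br (nat_lit 1) (.cons (.rel (nat_lit 20987970)) (.cons (.rel (nat_lit 22028289)) .nil))) .nil))) .leaf) (nat_lit 24636672240792488) (.br (nat_lit 0) (.cons (.br (nat_lit 2) (.cons (.rel (nat_lit 71385096)) .nil)) .nil)) .leaf) (nat_lit 24636672240799930) (.br (nat_lit 1) (.cons (.br (nat_lit 5) (.cons (.rel (nat_lit 4311762240)) .nil)) .nil)) (.node .leaf (nat_lit 24636676409930039) (.br (nat_lit 0) (.cons (.br (nat_lit 2) (.cons (.rel (nat_lit 71323650)) .nil)) .nil)) .leaf)) (nat_lit 24637063082815739) (.br (nat_lit 4) (.cons (.br (nat_lit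 5) (.cons (.rel (nat_lit 10737434880)) (.cons (.rel (nat_lit 5368742400)) .nil))) .nil)) (.node (.node .leaf (nat_lit 24639798930386182) (.br (nat_lit 0) (.cons (.br (nat_lit 1) (.cons (.rel (nat_lit 20975697)) .nil)) .nil)) .leaf) (nat_lit 24639898183320309) (.br (nat_lit 0) (.cons (.br (nat_lit 1) (.cons (.rel (nat_lit 21239937)) .nil)) .nil)) (.node .leaf (nat_lit 24639898184855559) (.br (nat_lit 1) (.cons (.br (nat_lit 5) (.cons (.rel (nat_lit 4312289298)) .nil)) .nil)) .leaf))) (nat_lit 24639898184856309) (.br (nat_lit 1) (.cons (.br (nat_lit 4) (.cons (.rel (nat_lit 1090519077)) .nil)) .nil)) (.node (.node (.node .leaf (nat_lit 24639898185947168) (.br (nat_lit 2) (.cons (.br (nat_lit 3) (.cons (.rel (nat_lit 671088960)) .nil)) .nil)) .leaf) (nat_lit 24639898185948072) (.br (nat_lit 1) (.cons (.br (nat_lit 4) (.cons (.rel (nat_lit 1090544640)) (.cons (.rel (nat_lit 1090539777)) .nil))) .nil)) (.node .leaf (nat_lit 24640969303704838) (.br (nat_lit 0) (.cons (.br (nat_lit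 1) (.cons (.rel (nat_lit 21038148)) .nil)) .nil)) .leaf)) (nat_lit 24640969306008809) (.br (nat_lit 1) (.cons (.br (nat_lit 3) (.cons (.rel (nat_lit 553650240)) .nil)) .nil)) (.node (.node .leaf (nat_lit 24642378742378521) (.br (nat_lit 2) (.cons (.br (nat_lit 0) (.cons (.rel (nat_lit 71311377)) (.cons (.rel (nat_lit 71311377)) .nil))) .nil)) .leaf) (nat_lit 24642378742379432) (.br (nat_lit 1) (.cons (.br (nat_lit 2) (.cons (.rel (nat_lit 83895297)) (.cons (.rel (nat_lit 83902752)) .nil))) (.cons (.br (nat_lit 2) (.cons (.rel (nat_lit 84934788)) (.cons (.rel (nat_lit 83919888)) .nil))) .nil))) (.node .leaf (nat_lit 24642378742379932) (.br (nat_lit 1) (.cons (.br (nat_lit 0) (.cons (.rel (nat_lit 22028289)) (.cons (.rel (nat_lit 20975697)) .nil))) .nil)) .leaf)))))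

/-- refutations 36 -/
def e36 : EX := (.node (.node (.node (.node (.node .leaf (nat_lit 25086887447571334) (.br (nat_lit 2) (.cons (.br (nat_lit 3) (.cons (.rel (nat_lit 335814660)) .nil)) .nil)) .leaf) (nat_lit 25086887447724784) (.br (nat_lit 2) (.cons (.br (nat_lit 4) (.cons (.rel (nat_lit 1141116930)) .nil)) .nil)) .leaf) (nat_lit 25086890069011188) (.br (nat_lit 1) (.cons (.br (nat_lit 3) (.cons (.rel (nat_lit 570433557)) .nil)) .nil)) (.node (.node .leaf (nat_lit 25086890069027501) (.br (nat_lit 0) (.cons (.br (nat_lit 2) (.cons (.rel (nat_lit 71321856)) .nil)) .nil)) .leaf) (nat_lit 25087629416215284) (.br (nat_lit 0) (.cons (.br (nat_lit 2) (.cons (.rel (nat_lit 71373828)) .nil)) .nil)) .leaf)) (nat_lit 25087792523856774) (.br (nat_lit 1) (.cons (.br (nat_lit 2) (.cons (.rel (nat_lit 83919888)) .nil)) .nil)) (.node (.node (.node .leaf (nat_lit 25087794554052619) (.br (nat_lit 1) (.cons (.br (nat_lit 5) (.cons (.rel (nat_lit 8606720025)) .nil)) .nil)) .leaf) (nat_lit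 25087794554053364) (.br (nat_lit 1) (.cons (.br (nat_lit 2) (.cons (.rel (nat_lit 83888640)) .nil)) .nil)) .leaf) (nat_lit 25087794554352523) (.br (nat_lit 1) (.cons (.br (nat_lit 6) (.cons (.rel (nat_lit 17196687360)) .nil)) .nil)) (.node (.node .leaf (nat_lit 25087794554353172) (.br (nat_lit 0) (.cons (.br (nat_lit 2) (.cons (.rel (nat_lit 138543168)) (.cons (.rel (nat_lit 71368965)) .nil))) .nil)) .leaf) (nat_lit 25087794554368007) (.br (nat_lit 0) (.cons (.br (nat_lit 1) (.cons (.rel (nat_lit 20975697)) .nil)) .nil)) .leaf))) (nat_lit 25089046141476343) (.br (nat_lit 0) (.cons (.br (nat_lit 1) (.cons (.rel (nat_lit 25198848)) .nil)) .nil)) (.node (.node (.node (.node .leaf (nat_lit 25089046142755572) (.br (nat_lit 1) (.cons (.br (nat_lit 2) (.cons (.rel (nat_lit 167773440)) .nil)) .nil)) .leaf) (nat_lit 25094202079036073) (.br (nat_lit 4) (.cons (.br (nat_lit 5) (.cons (.rel (nat_lit 5368742400)) (.cons (.rel (nat_lit 10737434880)) (.cons (.rel (nat_lit 10737434880)) .nil))))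 .nil)) .leaf) (nat_lit 25094202079326889) (.br (nat_lit 2) (.cons (.br (nat_lit 5) (.cons (.rel (nat_lit 4362076170)) (.cons (.rel (nat_lit 4430249988)) .nil))) (.cons (.br (nat_lit 5) (.cons (.rel (nat_lit 4362077220)) (.cons (.rel (nat_lit 4362093057)) .nil))) .nil))) (.node (.node .leaf (nat_lit 25094202645557929) (.br (nat_lit 2) (.cons (.br (nat_lit 4) (.cons (.rel (nat_lit 1140851088)) .nil)) .nil)) .leaf) (nat_lit 25099577914116226) (.br (nat_lit 2) (.cons (.br (nat_lit 5) (.cons (.rel (nat_lit 4362097920)) .nil)) .nil)) .leaf)) (nat_lit 25099577914568730) (.br (nat_lit 2) (.cons (.br (nat_lit 0) (.cons (.rel (nat_lit 71385096)) (.cons (.rel (nat_lit 71311377)) .nil))) .nil)) (.node (.node (.node .leaf (nat_lit 25099579377928322) (.br (nat_lit 2) (.cons (.br (nat_lit 4) (.cons (.rel (nat_lit 2214749184)) .nil)) .nil)) .leaf) (nat_lit 25099579378381085) (.br (nat_lit 1) (.cons (.br (nat_lit 5) (.cons (.rel (nat_lit 4311762240)) .nil)) .nil)) .leaf) (nat_lit 25099579378381481)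 (.br (nat_lit 5) (.cons (.br (nat_lit 2) (.cons (.rel (nat_lit 4362093057)) (.cons (.rel (nat_lit 4362077220)) (.cons (.rel (nat_lit 4362109188)) (.cons (.rel (nat_lit 4362076170)) .nil))))) .nil)) (.node (.node .leaf (nat_lit 25099827022672774) (.br (nat_lit 1) (.cons (.br (nat_lit 2) (.cons (.rel (nat_lit 83895297)) .nil)) .nil)) .leaf) (nat_lit 25099827144308064) (.br (nat_lit 4) (.cons (.br (nat_lit 5) (.cons (.rel (nat_lit 5368742400)) .nil)) .nil)) .leaf))))

/-- refutations 37 -/
def e37 : EX := (.node (.node (.node (.node (.node (.node (.node .leaf (nat_lit 25280407394071434) (.br (nat_lit 2) (.cons (.br (nat_lit 4) (.cons (.rel (nat_lit 1207959816)) (.cons (.rel (nat_lit 1141115136)) .nil))) .nil)) .leaf) (nat_lit 25280407394327830) (.br (nat_lit 3) (.cons (.br (nat_lit 5) (.cons (.rel (nat_lit 4563421440)) .nil)) .nil)) .leaf) (nat_lit 25280407394327909) (.br (nat_lit 3) (.cons (.br (nat_lit 1) (.cons (.rel (nat_lit 286540032)) (.cons (.rel (nat_lit 285212949)) .nil)))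 .nil)) (.node .leaf (nat_lit 25280407394370442) (.br (nat_lit 4) (.cons (.br (nat_lit 0) (.cons (.rel (nat_lit 1079248128)) (.cons (.rel (nat_lit 1077937176)) .nil))) .nil)) .leaf)) (nat_lit 25280407394632586) (.br (nat_lit 4) (.cons (.br (nat_lit 5) (.cons (.rel (nat_lit 5368714245)) (.cons (.rel (nat_lit 5368709382)) (.cons (.br (nat_lit 0) (.cons (.rel (nat_lit 8598585600)) (.cons (.rel (nat_lit 1078198344)) (.cons (.rel (nat_lit 1077940740)) (.cons (.rel (nat_lit 4299686400)) (.cons (.rel (nat_lit 1077972993)) .nil)))))) (.cons (.rel (nat_lit 5368727568)) .nil))))) (.cons (.br (nat_lit 6) (.cons (.rel (nat_lit 18253611138)) (.cons (.br (nat_lit 0) (.cons (.rel (nat_lit 17184063765)) (.cons (.rel (nat_lit 1077938181)) (.cons (.rel (nat_lit 2155872273)) (.cons (.rel (nat_lit 34368131328)) (.cons (.rel (nat_lit 17184072192)) .nil)))))) (.cons (.rel (nat_lit 18253611138)) (.cons (.rel (nat_lit 36507222081)) .nil))))) (.cons (.br (nat_lit 6) (.cons (.rel (nat_lit 19327354128))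 (.cons (.rel (nat_lit 19327371264)) (.cons (.rel (nat_lit 36507222081)) (.cons (.rel (nat_lit 19327356936)) .nil))))) .nil)))) (.node (.node .leaf (nat_lit 25280407395453834) (.br (nat_lit 4) (.cons (.br (nat_lit 0) (.cons (.rel (nat_lit 1077960720)) (.cons (.rel (nat_lit 1077937176)) (.cons (.rel (nat_lit 1077938181)) (.cons (.rel (nat_lit 1077960720)) .nil))))) (.cons (.br (nat_lit 5) (.cons (.rel (nat_lit 5368714245)) (.cons (.rel (nat_lit 5368988736)) (.cons (.rel (nat_lit 10737434880)) .nil)))) .nil))) .leaf) (nat_lit 25280407395461131) (.br (nat_lit 0) (.cons (.br (nat_lit 1) (.cons (.rel (nat_lit 21627408)) .nil)) .nil)) (.node .leaf (nat_lit 25280407395461175) (.br (nat_lit 4) (.cons (.br (nat_lit 1) (.cons (.rel (nat_lit 2164785408)) (.cons (.rel (nat_lit 2181039108)) (.cons (.rel (nat_lit 1090585092)) (.cons (.rel (nat_lit 1090651392)) .nil))))) .nil)) .leaf))) (nat_lit 25280407395462026) (.br (nat_lit 0) (.cons (.br (nat_lit 5) (.cons (.rel (nat_lit 8594198544)) (.cons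 (.rel (nat_lit 4299169860)) (.cons (.rel (nat_lit 8598585600)) .nil)))) (.cons (.br (nat_lit 5) (.cons (.br (nat_lit 2) (.cons (.rel (nat_lit 8657306640)) (.cons (.rel (nat_lit 71335968)) (.cons (.rel (nat_lit 4429186128)) (.cons (.rel (nat_lit 71565888)) (.cons (.rel (nat_lit 71565888)) .nil)))))) (.cons (.rel (nat_lit 4303356180)) (.cons (.rel (nat_lit 4303356180)) .nil)))) (.cons (.br (nat_lit 6) (.cons (.rel (nat_lit 17184063765)) (.cons (.rel (nat_lit 17184064770)) (.cons (.rel (nat_lit 17184072192)) .nil)))) .nil)))) (.node (.node (.node (.node .leaf (nat_lit 25280407395599241) (.br (nat_lit 1) (.cons (.br (nat_lit 4) (.cons (.rel (nat_lit 1090527504)) .nil)) .nil)) .leaf) (nat_lit 25280407395599242) (.br (nat_lit 4) (.cons (.br (nat_lit 1) (.cons (.rel (nat_lit 1090544640)) (.cons (.rel (nat_lit 1090527504)) (.cons (.rel (nat_lit 2181039108)) (.cons (.rel (nat_lit 1090539777)) .nil))))) (.cons (.br (nat_lit 1) (.cons (.rel (nat_lit 1090521096)) (.cons (.rel (nat_lit 1090527504))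 (.cons (.rel (nat_lit 1090539777)) (.cons (.rel (nat_lit 2181039108)) .nil))))) .nil))) .leaf) (nat_lit 25280407395606583) (.br (nat_lit 5) (.cons (.br (nat_lit 1) (.cons (.rel (nat_lit 4311762240)) (.cons (.rel (nat_lit 8606842896)) (.cons (.rel (nat_lit 4328526864)) .nil)))) .nil)) (.node .leaf (nat_lit 25280407395607434) (.br (nat_lit 6) (.cons (.br (nat_lit 2) (.cons (.rel (nat_lit 17248026705)) (.cons (.rel (nat_lit 34493972544)) (.cons (.rel (nat_lit 34426912800)) (.cons (.rel (nat_lit 34427113536)) (.cons (.rel (nat_lit 17246978694)) .nil)))))) (.cons (.br (nat_lit 0) (.cons (.rel (nat_lit 34364457984)) (.cons (.rel (nat_lit 17184063765)) (.cons (.rel (nat_lit 17184064770)) (.cons (.rel (nat_lit 17184129060)) (.cons (.rel (nat_lit 34368131328)) (.cons (.rel (nat_lit 17184068628)) .nil))))))) .nil))) .leaf)) (nat_lit 25280407395905547) (.br (nat_lit 0) (.cons (.br (nat_lit 2) (.cons (.rel (nat_lit 71307528)) .nil)) .nil)) (.node (.node .leaf (nat_lit 25280407395905663)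 (.br (nat_lit 5) (.cons (.br (nat_lit 1) (.cons (.rel (nat_lit 4311745104)) (.cons (.rel (nat_lit 4311745104)) (.cons (.rel (nat_lit 8623767552)) (.cons (.rel (nat_lit 4311745104)) (.cons (.rel (nat_lit 4311745104)) (.cons (.rel (nat_lit 4311745104)) .nil))))))) .nil)) .leaf) (nat_lit 25280407395906338) (.br (nat_lit 0) (.cons (.br (nat_lit 2) (.cons (.rel (nat_lit 72614916)) .nil)) .nil)) (.node .leaf (nat_lit 25280407395906442) (.br (nat_lit 5) (.cons (.br (nat_lit 4) (.cons (.br (nat_lit 0) (.cons (.rel (nat_lit 8594198544)) (.cons (.br (nat_lit 6) (.cons (.rel (nat_lit 34368131328)) (.cons (.br (nat_lit 2) (.cons (.rel (nat_lit 17314157568)) (.cons (.rel (nat_lit 2214625281)) (.cons (.rel (nat_lit 4429186128)) (.cons (.rel (nat_lit 34493972544)) (.cons (.rel (nat_lit 4362076170)) (.cons (.rel (nat_lit 75763728)) .nil))))))) (.cons (.rel (nat_lit 18253611138)) .nil)))) (.cons (.rel (nat_lit 1077936162)) (.cons (.rel (nat_lit 1077960720)) (.cons (.rel (nat_lit 8598585600))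 (.cons (.rel (nat_lit 4299686400)) (.cons (.rel (nat_lit 4303362048)) .nil)))))))) (.cons (.br (nat_lit 2) (.cons (.rel (nat_lit 1141115136)) (.cons (.rel (nat_lit 1141115136)) (.cons (.rel (nat_lit 4429186128)) (.cons (.rel (nat_lit 1141116930)) (.cons (.rel (nat_lit 4362076170)) (.cons (.rel (nat_lit 1207959816)) .nil))))))) (.cons (.br (nat_lit 2) (.cons (.rel (nat_lit 1141115136)) (.cons (.rel (nat_lit 9730790400)) (.cons (.rel (nat_lit 4429186128)) (.cons (.rel (nat_lit 2214593028)) (.cons (.rel (nat_lit 4362076170)) (.cons (.rel (nat_lit 1140868224)) .nil))))))) .nil)))) (.cons (.br (nat_lit 0) (.cons (.rel (nat_lit 8594133249)) (.cons (.rel (nat_lit 8598585600)) (.cons (.rel (nat_lit 4299169860)) (.cons (.br (nat_lit 4) (.cons (.rel (nat_lit 1077960720)) (.cons (.rel (nat_lit 5368709382)) (.cons (.rel (nat_lit 2155872273)) .nil)))) (.cons (.rel (nat_lit 4300210212)) (.cons (.rel (nat_lit 4300210212)) (.cons (.rel (nat_lit 8594133249)) .nil)))))))) .nil))) .leaf)))) (nat_lit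 25280407397195030) (.br (nat_lit 1) (.cons (.br (nat_lit 2) (.cons (.rel (nat_lit 83919888)) .nil)) .nil)) (.node (.node (.node (.node (.node .leaf (nat_lit 25280407397204023) (.br (nat_lit 6) (.cons (.br (nat_lit 0) (.cons (.rel (nat_lit 17184064770)) (.cons (.rel (nat_lit 34368131328)) .nil))) .nil)) .leaf) (nat_lit 25280407397204874) (.br (nat_lit 4) (.cons (.br (nat_lit 5) (.cons (.rel (nat_lit 5368971600)) (.cons (.rel (nat_lit 5368742400)) .nil))) (.cons (.br (nat_lit 5) (.cons (.rel (nat_lit 5368742400)) (.cons (.br (nat_lit 0) (.cons (.rel (nat_lit 4299686400)) (.cons (.rel (nat_lit 1077938181)) (.cons (.br (nat_lit 3) (.cons (.rel (nat_lit 4563665472)) (.cons (.rel (nat_lit 272654592)) (.cons (.rel (nat_lit 8858763264)) (.cons (.rel (nat_lit 272654592)) (.cons (.rel (nat_lit 9126821904)) (.cons (.rel (nat_lit 4832428032)) .nil))))))) (.cons (.rel (nat_lit 8598585600)) .nil))))) .nil))) .nil))) .leaf) (nat_lit 25281532127576075) (.br (nat_lit 1) (.cons (.br (nat_lit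 4) (.cons (.rel (nat_lit 1090651392)) .nil)) .nil)) (.node .leaf (nat_lit 25281532127883275) (.br (nat_lit 2) (.cons (.br (nat_lit 0) (.cons (.rel (nat_lit 71321856)) (.cons (.rel (nat_lit 71368965)) .nil))) .nil)) .leaf)) (nat_lit 25285427034075893) (.br (nat_lit 0) (.cons (.br (nat_lit 3) (.cons (.rel (nat_lit 272761344)) .nil)) .nil)) (.node (.node .leaf (nat_lit 25286422915761034) (.br (nat_lit 2) (.cons (.br (nat_lit 4) (.cons (.rel (nat_lit 1207975938)) .nil)) .nil)) .leaf) (nat_lit 25286422916582282) (.br (nat_lit 4) (.cons (.br (nat_lit 2) (.cons (.rel (nat_lit 1141129248)) (.cons (.rel (nat_lit 1141178376)) .nil))) .nil)) (.node .leaf (nat_lit 25286422917034890) (.br (nat_lit 2) (.cons (.br (nat_lit 4) (.cons (.rel (nat_lit 1140851088)) (.cons (.rel (nat_lit 1141115136)) .nil))) (.cons (.br (nat_lit 4) (.cons (.rel (nat_lit 1141115136)) (.cons (.rel (nat_lit 2214625281)) .nil))) .nil))) .leaf))) (nat_lit 25286425261206189) (.br (nat_lit 0) (.cons (.br (nat_lit 2) (.cons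 (.rel (nat_lit 71311377)) .nil)) .nil)) (.node (.node (.node (.node .leaf (nat_lit 25286425261343397) (.br (nat_lit 2) (.cons (.br (nat_lit 4) (.cons (.rel (nat_lit 1142947845)) .nil)) .nil)) .leaf) (nat_lit 25286425261649946) (.br (nat_lit 0) (.cons (.br (nat_lit 1) (.cons (.rel (nat_lit 20971848)) .nil)) .nil)) .leaf) (nat_lit 25286425684968105) (.br (nat_lit 1) (.cons (.br (nat_lit 4) (.cons (.rel (nat_lit 1090539777)) .nil)) .nil)) (.node .leaf (nat_lit 25286425685275309) (.br (nat_lit 4) (.cons (.br (nat_lit 2) (.cons (.rel (nat_lit 1141129248)) (.cons (.rel (nat_lit 1141129248)) (.cons (.rel (nat_lit 2282782980)) (.cons (.rel (nat_lit 2214593028)) .nil))))) (.cons (.br (nat_lit 0) (.cons (.rel (nat_lit 2155872273)) (.cons (.rel (nat_lit 1077936162)) (.cons (.rel (nat_lit 1077937176)) .nil)))) .nil))) .leaf)) (nat_lit 25287553122134026) (.br (nat_lit 0) (.cons (.br (nat_lit 2) (.cons (.rel (nat_lit 71385096)) .nil)) .nil)) (.node (.node .leaf (nat_lit 25287745263645482)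 (.br (nat_lit 0) (.cons (.br (nat_lit 2) (.cons (.rel (nat_lit 71373828)) .nil)) .nil)) .leaf) (nat_lit 25292041485037695) (.br (nat_lit 0) (.cons (.br (nat_lit 1) (.cons (.rel (nat_lit 25165830)) .nil)) .nil)) (.node .leaf (nat_lit 26406304030892057) (.br (nat_lit 1) (.cons (.br (nat_lit 5) (.cons (.rel (nat_lit 8606716164)) .nil)) .nil)) .leaf))))) (nat_lit 26406304051702045) (.br (nat_lit 4) (.cons (.br (nat_lit 2) (.cons (.rel (nat_lit 1140868224)) (.cons (.rel (nat_lit 1141129248)) .nil))) .nil)) (.node (.node (.node (.node (.node (.node .leaf (nat_lit 26406304051702512) (.br (nat_lit 2) (.cons (.br (nat_lit 4) (.cons (.rel (nat_lit 1207959816)) (.cons (.rel (nat_lit 1140851088)) .nil))) .nil)) .leaf) (nat_lit 26406304051703066) (.br (nat_lit 3) (.cons (.br (nat_lit 6) (.cons (.rel (nat_lit 34628173833)) (.cons (.rel (nat_lit 17716813824)) .nil))) .nil)) .leaf) (nat_lit 26406304051873050) (.br (nat_lit 1) (.cons (.br (nat_lit 4) (.cons (.rel (nat_lit 1090544640)) .nil))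 .nil)) (.node .leaf (nat_lit 26406304053000944) (.br (nat_lit 0) (.cons (.br (nat_lit 3) (.cons (.rel (nat_lit 272647170)) .nil)) .nil)) .leaf)) (nat_lit 26406304053451504) (.br (nat_lit 4) (.cons (.br (nat_lit 5) (.cons (.rel (nat_lit 5368710432)) .nil)) .nil)) (.node (.node .leaf (nat_lit 26407042151663075) (.br (nat_lit 1) (.cons (.br (nat_lit 2) (.cons (.rel (nat_lit 100925700)) .nil)) .nil)) .leaf) (nat_lit 26407043385863521) (.br (nat_lit 3) (.cons (.br (nat_lit 1) (.cons (.rel (nat_lit 570429696)) (.cons (.rel (nat_lit 570429696)) .nil))) .nil)) (.node .leaf (nat_lit 26407043386033505) (.br (nat_lit 0) (.cons (.br (nat_lit 2) (.cons (.rel (nat_lit 71373828)) .nil)) .nil)) .leaf))) (nat_lit 26408073447084812) (.br (nat_lit 1) (.cons (.br (nat_lit 2) (.cons (.rel (nat_lit 83888640)) .nil)) .nil)) (.node (.node (.node (.node .leaf (nat_lit 26408118679596569) (.br (nat_lit 0) (.cons (.br (nat_lit 5) (.cons (.rel (nat_lit 8594138112)) .nil)) .nil)) .leaf) (nat_lit 26408118680039431)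 (.br (nat_lit 2) (.cons (.br (nat_lit 5) (.cons (.rel (nat_lit 8724152325)) (.cons (.rel (nat_lit 4363390980)) (.cons (.rel (nat_lit 4362175488)) .nil)))) .nil)) .leaf) (nat_lit 26411520653268245) (.br (nat_lit 0) (.cons (.br (nat_lit 1) (.cons (.rel (nat_lit 37750800)) .nil)) .nil)) (.node .leaf (nat_lit 26411520654387500) (.br (nat_lit 1) (.cons (.br (nat_lit 3) (.cons (.rel (nat_lit 285218817)) .nil)) .nil)) .leaf)) (nat_lit 26411520654540950) (.br (nat_lit 0) (.cons (.br (nat_lit 3) (.cons (.rel (nat_lit 542179344)) .nil)) .nil)) (.node (.node .leaf (nat_lit 26411520654548999) (.br (nat_lit 0) (.cons (.br (nat_lit 5) (.cons (.rel (nat_lit 4299169860)) .nil)) .nil)) .leaf) (nat_lit 26411520654549142) (.br (nat_lit 0) (.cons (.br (nat_lit 1) (.cons (.rel (nat_lit 25428048)) .nil)) .nil)) (.node .leaf (nat_lit 26411520654848180) (.br (nat_lit 1) (.cons (.br (nat_lit 4) (.cons (.rel (nat_lit 2164785408)) .nil)) .nil)) .leaf)))) (nat_lit 26412323071051110) (.br (nat_lit 0) (.cons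 (.br (nat_lit 2) (.cons (.rel (nat_lit 71321856)) .nil)) .nil)) (.node (.node (.node (.node (.node .leaf (nat_lit 26412323071340806) (.br (nat_lit 0) (.cons (.br (nat_lit 2) (.cons (.rel (nat_lit 71304720)) (.cons (.rel (nat_lit 142622736)) .nil))) (.cons (.br (nat_lit 3) (.cons (.rel (nat_lit 272633892)) (.cons (.rel (nat_lit 272633892)) .nil))) .nil))) .leaf) (nat_lit 26412323071341801) (.br (nat_lit 0) (.cons (.br (nat_lit 2) (.cons (.rel (nat_lit 71311377)) .nil)) .nil)) .leaf) (nat_lit 26412323574657709) (.br (nat_lit 4) (.cons (.br (nat_lit 6) (.cons (.rel (nat_lit 36507222081)) .nil)) .nil)) (.node .leaf (nat_lit 26412323575947526) (.br (nat_lit 0) (.cons (.br (nat_lit 2) (.cons (.rel (nat_lit 71311377)) .nil)) .nil)) .leaf)) (nat_lit 26412326175126410) (.br (nat_lit 4) (.cons (.br (nat_lit 5) (.cons (.rel (nat_lit 5368725513)) (.cons (.rel (nat_lit 5368742400)) (.cons (.rel (nat_lit 5368783104)) .nil)))) .nil)) (.node (.node .leaf (nat_lit 26412326175127006) (.br (nat_lit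 0) (.cons (.br (nat_lit 2) (.cons (.rel (nat_lit 77595648)) .nil)) .nil)) .leaf) (nat_lit 26412326176415799) (.br (nat_lit 3) (.cons (.br (nat_lit 4) (.cons (.rel (nat_lit 1342447872)) .nil)) .nil)) (.node .leaf (nat_lit 26412847065740766) (.br (nat_lit 0) (.cons (.br (nat_lit 1) (.cons (.rel (nat_lit 22151172)) .nil)) .nil)) .leaf))) (nat_lit 26412847066507295) (.br (nat_lit 5) (.cons (.br (nat_lit 0) (.cons (.rel (nat_lit 4300210212)) (.cons (.rel (nat_lit 8598585600)) .nil))) .nil)) (.node (.node (.node .leaf (nat_lit 26416708975342950) (.br (nat_lit 4) (.cons (.br (nat_lit 5) (.cons (.rel (nat_lit 10737434880)) (.cons (.rel (nat_lit 5368742400)) .nil))) .nil)) .leaf) (nat_lit 26416708975343104) (.br (nat_lit 0) (.cons (.br (nat_lit 1) (.cons (.rel (nat_lit 25198848)) .nil)) .nil)) (.node .leaf (nat_lit 26417778184411421) (.br (nat_lit 2) (.cons (.br (nat_lit 3) (.cons (.rel (nat_lit 603981057)) .nil)) .nil)) .leaf)) (nat_lit 26418769994496752) (.br (nat_lit 0) (.cons (.br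 (nat_lit 2) (.cons (.rel (nat_lit 71304720)) .nil)) .nil)) (.node (.node .leaf (nat_lit 26418769994712542) (.br (nat_lit 0) (.cons (.br (nat_lit 2) (.cons (.rel (nat_lit 71304720)) .nil)) .nil)) .leaf) (nat_lit 26418988722173205) (.br (nat_lit 0) (.cons (.br (nat_lit 4) (.cons (.rel (nat_lit 1077972993)) .nil)) .nil)) (.node .leaf (nat_lit 26419189532865894) (.br (nat_lit 2) (.cons (.br (nat_lit 5) (.cons (.rel (nat_lit 4362076170)) .nil)) .nil)) .leaf))))))

/-- refutations 38 -/
def e38 : EX := (.node (.node (.node (.node (.node (.node (.node (.node .leaf (nat_lit 26511487749332476) (.br (nat_lit 0) (.cons (.br (nat_lit 1) (.cons (.rel (nat_lit 37750800)) .nil)) .nil)) .leaf) (nat_lit 26511487749374627) (.br (nat_lit 0) (.cons (.br (nat_lit 1) (.cons (.rel (nat_lit 20971848)) .nil)) .nil)) .leaf) (nat_lit 26511487749374713) (.br (nat_lit 0) (.cons (.br (nat_lit 1) (.cons (.rel (nat_lit 22021632)) .nil)) .nil)) (.node (.node .leaf (nat_lit 26511487749647097) (.br (nat_lit 1)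 (.cons (.br (nat_lit 2) (.cons (.rel (nat_lit 167773440)) .nil)) .nil)) .leaf) (nat_lit 26511487750450409) (.br (nat_lit 0) (.cons (.br (nat_lit 1) (.cons (.rel (nat_lit 22028289)) .nil)) .nil)) .leaf)) (nat_lit 26511487750450684) (.br (nat_lit 1) (.cons (.br (nat_lit 6) (.cons (.rel (nat_lit 17196687360)) .nil)) .nil)) (.node (.node (.node .leaf (nat_lit 26511487750620422) (.br (nat_lit 0) (.cons (.br (nat_lit 3) (.cons (.rel (nat_lit 272633892)) .nil)) .nil)) .leaf) (nat_lit 26511487750910234) (.br (nat_lit 0) (.cons (.br (nat_lit 3) (.cons (.rel (nat_lit 272630034)) .nil)) .nil)) .leaf) (nat_lit 26511487750911359) (.br (nat_lit 0) (.cons (.br (nat_lit 2) (.cons (.rel (nat_lit 71307528)) .nil)) .nil)) (.node (.node .leaf (nat_lit 26511487751883513) (.br (nat_lit 1) (.cons (.br (nat_lit 5) (.cons (.rel (nat_lit 4312301568)) .nil)) .nil)) .leaf) (nat_lit 26511487752199676) (.br (nat_lit 0) (.cons (.br (nat_lit 2) (.cons (.rel (nat_lit 71335968)) .nil)) .nil)) .leaf))) (nat_lit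 26511487884668166) (.br (nat_lit 1) (.cons (.br (nat_lit 3) (.cons (.rel (nat_lit 285218817)) .nil)) .nil)) (.node (.node (.node (.node .leaf (nat_lit 26511487884838150) (.br (nat_lit 0) (.cons (.br (nat_lit 1) (.cons (.rel (nat_lit 21499908)) .nil)) .nil)) .leaf) (nat_lit 26511487885128937) (.br (nat_lit 1) (.cons (.br (nat_lit 3) (.cons (.rel (nat_lit 285221376)) .nil)) .nil)) .leaf) (nat_lit 26511487886416647) (.br (nat_lit 1) (.cons (.br (nat_lit 0) (.cons (.rel (nat_lit 20975697)) (.cons (.rel (nat_lit 22052880)) .nil))) .nil)) (.node (.node .leaf (nat_lit 26511487886417158) (.br (nat_lit 3) (.cons (.br (nat_lit 4) (.cons (.rel (nat_lit 1342439445)) .nil)) .nil)) .leaf) (nat_lit 26511489770985604) (.br (nat_lit 1) (.cons (.br (nat_lit 2) (.cons (.rel (nat_lit 83895297)) .nil)) .nil)) .leaf)) (nat_lit 26511489770987004) (.br (nat_lit 1) (.cons (.br (nat_lit 2) (.cons (.rel (nat_lit 152043552)) .nil)) .nil)) (.node (.node (.node .leaf (nat_lit 26511489771028630) (.br (nat_lit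 0) (.cons (.br (nat_lit 1) (.cons (.rel (nat_lit 20975697)) .nil)) .nil)) .leaf) (nat_lit 26511489771029241) (.br (nat_lit 0) (.cons (.br (nat_lit 1) (.cons (.rel (nat_lit 20975697)) (.cons (.rel (nat_lit 21499908)) .nil))) (.cons (.br (nat_lit 1) (.cons (.rel (nat_lit 22021632)) (.cons (.rel (nat_lit 20975697)) .nil))) .nil))) .leaf) (nat_lit 26511489771029287) (.br (nat_lit 1) (.cons (.br (nat_lit 3) (.cons (.rel (nat_lit 285221376)) (.cons (.rel (nat_lit 285213954)) .nil))) .nil)) (.node (.node .leaf (nat_lit 26511489771029866) (.br (nat_lit 0) (.cons (.br (nat_lit 4) (.cons (.rel (nat_lit 2155872273)) .nil)) .nil)) .leaf) (nat_lit 26511489772103930) (.br (nat_lit 0) (.cons (.br (nat_lit 1) (.cons (.rel (nat_lit 22021632)) .nil)) .nil)) .leaf)))) (nat_lit 26511489772104441) (.br (nat_lit 6) (.cons (.br (nat_lit 1) (.cons (.rel (nat_lit 17196646680)) (.cons (.rel (nat_lit 17196647685)) .nil))) .nil)) (.node (.node (.node (.node (.node .leaf (nat_lit 26511489772104937) (.br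 (nat_lit 1) (.cons (.br (nat_lit 0) (.cons (.rel (nat_lit 22028289)) (.cons (.rel (nat_lit 25165830)) .nil))) .nil)) .leaf) (nat_lit 26511489772104966) (.br (nat_lit 1) (.cons (.br (nat_lit 6) (.cons (.rel (nat_lit 17196646680)) .nil)) .nil)) .leaf) (nat_lit 26511489772120200) (.br (nat_lit 1) (.cons (.br (nat_lit 2) (.cons (.rel (nat_lit 83919888)) .nil)) .nil)) (.node (.node .leaf (nat_lit 26511489772120739) (.br (nat_lit 5) (.cons (.br (nat_lit 2) (.cons (.rel (nat_lit 4362076170)) (.cons (.rel (nat_lit 4362076170)) .nil))) .nil)) .leaf) (nat_lit 26511489772265529) (.br (nat_lit 2) (.cons (.br (nat_lit 3) (.cons (.rel (nat_lit 335544960)) .nil)) .nil)) .leaf)) (nat_lit 26511489772266147) (.br (nat_lit 2) (.cons (.br (nat_lit 5) (.cons (.rel (nat_lit 4362076170)) .nil)) .nil)) (.node (.node (.node .leaf (nat_lit 26511489772266233) (.br (nat_lit 2) (.cons (.br (nat_lit 5) (.cons (.rel (nat_lit 4362076170)) .nil)) .nil)) .leaf) (nat_lit 26511489772564537) (.br (nat_lit 3) (.cons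 (.br (nat_lit 5) (.cons (.rel (nat_lit 4563435552)) .nil)) .nil)) .leaf) (nat_lit 26511489772565241) (.br (nat_lit 5) (.cons (.br (nat_lit 2) (.cons (.rel (nat_lit 4362076170)) (.cons (.rel (nat_lit 4362080784)) .nil))) .nil)) (.node (.node .leaf (nat_lit 26511489772565737) (.br (nat_lit 1) (.cons (.br (nat_lit 5) (.cons (.rel (nat_lit 4312301568)) .nil)) .nil)) .leaf) (nat_lit 26511489772565791) (.br (nat_lit 1) (.cons (.br (nat_lit 2) (.cons (.rel (nat_lit 167773440)) .nil)) .nil)) .leaf))) (nat_lit 26511489773538041) (.br (nat_lit 3) (.cons (.br (nat_lit 5) (.cons (.rel (nat_lit 4563404304)) .nil)) .nil)) (.node (.node (.node (.node .leaf (nat_lit 26511489773649272) (.br (nat_lit 2) (.cons (.br (nat_lit 5) (.cons (.rel (nat_lit 4362076170)) .nil)) .nil)) .leaf) (nat_lit 26511489773853433) (.br (nat_lit 1) (.cons (.br (nat_lit 2) (.cons (.rel (nat_lit 167773440)) .nil)) .nil)) .leaf) (nat_lit 26511489773853958) (.br (nat_lit 0) (.cons (.br (nat_lit 1) (.cons (.rel (nat_lit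 21038148)) .nil)) .nil)) (.node (.node .leaf (nat_lit 26511489892664103) (.br (nat_lit 0) (.cons (.br (nat_lit 3) (.cons (.rel (nat_lit 272631048)) .nil)) .nil)) .leaf) (nat_lit 26511489892936937) (.br (nat_lit 1) (.cons (.br (nat_lit 3) (.cons (.rel (nat_lit 285217812)) .nil)) .nil)) .leaf)) (nat_lit 26511489893738746) (.br (nat_lit 0) (.cons (.br (nat_lit 1) (.cons (.rel (nat_lit 21038148)) .nil)) .nil)) (.node (.node (.node .leaf (nat_lit 26511489895284120) (.br (nat_lit 0) (.cons (.br (nat_lit 3) (.cons (.rel (nat_lit 272654592)) .nil)) .nil)) .leaf) (nat_lit 26511489895488745) (.br (nat_lit 0) (.cons (.br (nat_lit 1) (.cons (.rel (nat_lit 21499908)) .nil)) .nil)) .leaf) (nat_lit 26511489951384327) (.br (nat_lit 0) (.cons (.br (nat_lit 3) (.cons (.rel (nat_lit 272630034)) .nil)) .nil)) (.node .leaf (nat_lit 26511489951646457) (.br (nat_lit 0) (.cons (.br (nat_lit 1) (.cons (.rel (nat_lit 21499908)) (.cons (.rel (nat_lit 21499908)) .nil))) .nil)) .leaf))))) (nat_lit 26511489951646471)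 (.br (nat_lit 0) (.cons (.br (nat_lit 2) (.cons (.rel (nat_lit 71335968)) (.cons (.rel (nat_lit 71304720)) .nil))) .nil)) (.node (.node (.node (.node (.node (.node .leaf (nat_lit 26511489951656068) (.br (nat_lit 1) (.cons (.br (nat_lit 3) (.cons (.rel (nat_lit 285212949)) .nil)) .nil)) .leaf) (nat_lit 26511489951656218) (.br (nat_lit 1) (.cons (.br (nat_lit 5) (.cons (.rel (nat_lit 8623767552)) .nil)) .nil)) .leaf) (nat_lit 26511489952459034) (.br (nat_lit 0) (.cons (.br (nat_lit 1) (.cons (.rel (nat_lit 42274821)) .nil)) .nil)) (.node (.node .leaf (nat_lit 26511489952459063) (.br (nat_lit 1) (.cons (.br (nat_lit 0) (.cons (.rel (nat_lit 25166880)) (.cons (.rel (nat_lit 22028289)) .nil))) .nil)) .leaf) (nat_lit 26511489952459509) (.br (nat_lit 3) (.cons (.br (nat_lit 4) (.cons (.rel (nat_lit 1343227200)) .nil)) .nil)) .leaf)) (nat_lit 26511489952459513) (.br (nat_lit 0) (.cons (.br (nat_lit 1) (.cons (.rel (nat_lit 21561345)) .nil)) .nil)) (.node (.node (.node .leaf (nat_lit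 26511489952476043) (.br (nat_lit 0) (.cons (.br (nat_lit 1) (.cons (.rel (nat_lit 21561345)) .nil)) .nil)) .leaf) (nat_lit 26511489952476422) (.br (nat_lit 5) (.cons (.br (nat_lit 1) (.cons (.rel (nat_lit 8606716164)) (.cons (.rel (nat_lit 4313055300)) (.cons (.rel (nat_lit 4312301568)) .nil)))) .nil)) .leaf) (nat_lit 26511489952476443) (.br (nat_lit 3) (.cons (.br (nat_lit 5) (.cons (.rel (nat_lit 4563435552)) .nil)) .nil)) (.node (.node .leaf (nat_lit 26511489952621329) (.br (nat_lit 0) (.cons (.br (nat_lit 2) (.cons (.rel (nat_lit 71307528)) .nil)) .nil)) .leaf) (nat_lit 26511489952920313) (.br (nat_lit 3) (.cons (.br (nat_lit 5) (.cons (.rel (nat_lit 4564451457)) .nil)) .nil)) .leaf))) (nat_lit 26511489952920327) (.br (nat_lit 3) (.cons (.br (nat_lit 5) (.cons (.rel (nat_lit 4832428032)) (.cons (.rel (nat_lit 4563407112)) .nil))) (.cons (.br (nat_lit 5) (.cons (.rel (nat_lit 4563407112)) (.cons (.rel (nat_lit 4563421440)) .nil))) .nil))) (.node (.node (.node (.node .leaf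 (nat_lit 26511489952920984) (.br (nat_lit 1) (.cons (.br (nat_lit 5) (.cons (.rel (nat_lit 4312301568)) .nil)) .nil)) .leaf) (nat_lit 26511489952927751) (.br (nat_lit 0) (.cons (.br (nat_lit 1) (.cons (.rel (nat_lit 25165830)) .nil)) .nil)) .leaf) (nat_lit 26511489952929244) (.br (nat_lit 0) (.cons (.br (nat_lit 1) (.cons (.rel (nat_lit 25165830)) .nil)) .nil)) (.node (.node .leaf (nat_lit 26511489953944313) (.br (nat_lit 4) (.cons (.br (nat_lit 5) (.cons (.rel (nat_lit 5368709382)) .nil)) .nil)) .leaf) (nat_lit 26511489954208026) (.br (nat_lit 0) (.cons (.br (nat_lit 1) (.cons (.rel (nat_lit 21038148)) (.cons (.rel (nat_lit 25198848)) .nil))) .nil)) .leaf)) (nat_lit 26511489954208505) (.br (nat_lit 1) (.cons (.br (nat_lit 0) (.cons (.rel (nat_lit 21561345)) (.cons (.rel (nat_lit 21499908)) .nil))) .nil)) (.node (.node (.node .leaf (nat_lit 26511489954208519) (.br (nat_lit 0) (.cons (.br (nat_lit 3) (.cons (.rel (nat_lit 272761344)) .nil)) .nil)) .leaf) (nat_lit 26511489954209030)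 (.br (nat_lit 4) (.cons (.br (nat_lit 0) (.cons (.rel (nat_lit 1077960720)) (.cons (.rel (nat_lit 1077937176)) (.cons (.rel (nat_lit 1077940740)) .nil)))) (.cons (.br (nat_lit 2) (.cons (.rel (nat_lit 1141129248)) (.cons (.rel (nat_lit 1141115136)) (.cons (.rel (nat_lit 1141116930)) .nil)))) .nil))) .leaf) (nat_lit 26511652981332619) (.br (nat_lit 0) (.cons (.br (nat_lit 1) (.cons (.rel (nat_lit 22028289)) .nil)) .nil)) (.node (.node .leaf (nat_lit 26511738879132423) (.br (nat_lit 0) (.cons (.br (nat_lit 3) (.cons (.rel (nat_lit 272630034)) .nil)) .nil)) .leaf) (nat_lit 26511738880370140) (.br (nat_lit 1) (.cons (.br (nat_lit 5) (.cons (.rel (nat_lit 4311762240)) .nil)) .nil)) .leaf)))) (nat_lit 26511738880370176) (.br (nat_lit 1) (.cons (.br (nat_lit 2) (.cons (.rel (nat_lit 83888640)) .nil)) .nil)) (.node (.node (.node (.node (.node .leaf (nat_lit 26511738881752440) (.br (nat_lit 5) (.cons (.br (nat_lit 2) (.cons (.rel (nat_lit 4362076170)) (.cons (.rel (nat_lit 4362076170))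 .nil))) .nil)) .leaf) (nat_lit 26511739000724738) (.br (nat_lit 0) (.cons (.br (nat_lit 1) (.cons (.rel (nat_lit 37883904)) .nil)) .nil)) .leaf) (nat_lit 26511739000767225) (.br (nat_lit 1) (.cons (.br (nat_lit 0) (.cons (.rel (nat_lit 37748745)) (.cons (.rel (nat_lit 25239552)) (.cons (.rel (nat_lit 20975697)) .nil)))) .nil)) (.node (.node .leaf (nat_lit 26511739000767239) (.br (nat_lit 0) (.cons (.br (nat_lit 1) (.cons (.rel (nat_lit 21499908)) .nil)) .nil)) .leaf) (nat_lit 26511739000767271) (.br (nat_lit 0) (.cons (.br (nat_lit 1) (.cons (.rel (nat_lit 20975697)) (.cons (.rel (nat_lit 22028289)) .nil))) (.cons (.br (nat_lit 1) (.cons (.rel (nat_lit 21499908)) (.cons (.rel (nat_lit 37748745)) .nil))) .nil))) .leaf)) (nat_lit 26511739001842921) (.br (nat_lit 0) (.cons (.br (nat_lit 4) (.cons (.rel (nat_lit 1077972993)) .nil)) .nil)) (.node (.node (.node .leaf (nat_lit 26511739001996550) (.br (nat_lit 1) (.cons (.br (nat_lit 3) (.cons (.rel (nat_lit 553650240)) .nil)) .nil))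 .leaf) (nat_lit 26511739002003481) (.br (nat_lit 2) (.cons (.br (nat_lit 5) (.cons (.rel (nat_lit 4362078225)) .nil)) .nil)) .leaf) (nat_lit 26511739002302489) (.br (nat_lit 1) (.cons (.br (nat_lit 5) (.cons (.rel (nat_lit 4312301568)) .nil)) .nil)) (.node (.node .leaf (nat_lit 26511739002303225) (.br (nat_lit 0) (.cons (.br (nat_lit 1) (.cons (.rel (nat_lit 37748745)) .nil)) .nil)) .leaf) (nat_lit 26511739002312217) (.br (nat_lit 1) (.cons (.br (nat_lit 3) (.cons (.rel (nat_lit 285212949)) .nil)) .nil)) .leaf))) (nat_lit 26511739003387288) (.br (nat_lit 1) (.cons (.br (nat_lit 3) (.cons (.rel (nat_lit 285213954)) .nil)) .nil)) (.node (.node (.node (.node .leaf (nat_lit 26511739003591913) (.br (nat_lit 1) (.cons (.br (nat_lit 3) (.cons (.rel (nat_lit 570429696)) .nil)) .nil)) .leaf) (nat_lit 26511739003594236) (.br (nat_lit 1) (.cons (.br (nat_lit 2) (.cons (.rel (nat_lit 83888640)) .nil)) .nil)) .leaf) (nat_lit 26511739059487481) (.br (nat_lit 0) (.cons (.br (nat_lit 1) (.cons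 (.rel (nat_lit 37883904)) .nil)) .nil)) (.node (.node .leaf (nat_lit 26511739059749639) (.br (nat_lit 0) (.cons (.br (nat_lit 1) (.cons (.rel (nat_lit 37775361)) .nil)) .nil)) .leaf) (nat_lit 26511739062312169) (.br (nat_lit 1) (.cons (.br (nat_lit 3) (.cons (.rel (nat_lit 570429696)) .nil)) .nil)) .leaf)) (nat_lit 26511857058917609) (.br (nat_lit 1) (.cons (.br (nat_lit 3) (.cons (.rel (nat_lit 285218817)) (.cons (.rel (nat_lit 570429696)) .nil))) (.cons (.br (nat_lit 3) (.cons (.rel (nat_lit 285278244)) (.cons (.rel (nat_lit 570429696)) .nil))) .nil))) (.node (.node (.node .leaf (nat_lit 26511857058917738) (.br (nat_lit 1) (.cons (.br (nat_lit 4) (.cons (.rel (nat_lit 1108344897)) .nil)) .nil)) .leaf) (nat_lit 26511857059378684) (.br (nat_lit 0) (.cons (.br (nat_lit 1) (.cons (.rel (nat_lit 22028289)) .nil)) .nil)) .leaf) (nat_lit 26511857059386744) (.br (nat_lit 4) (.cons (.br (nat_lit 5) (.cons (.rel (nat_lit 5368988736)) .nil)) .nil)) (.node .leaf (nat_lit 26511857116518450)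 (.br (nat_lit 0) (.cons (.br (nat_lit 1) (.cons (.rel (nat_lit 20975697)) .nil)) .nil)) .leaf)))))) (nat_lit 26511857117638140) (.br (nat_lit 3) (.cons (.br (nat_lit 6) (.cons (.rel (nat_lit 34628173833)) .nil)) .nil)) (.node (.node (.node (.node (.node (.node (.node .leaf (nat_lit 26511857117808124) (.br (nat_lit 1) (.cons (.br (nat_lit 4) (.cons (.rel (nat_lit 1090519077)) .nil)) .nil)) .leaf) (nat_lit 26511857118098940) (.br (nat_lit 3) (.cons (.br (nat_lit 5) (.cons (.rel (nat_lit 4563473412)) (.cons (.rel (nat_lit 9126821904)) (.cons (.rel (nat_lit 4563533844)) .nil)))) .nil)) .leaf) (nat_lit 26511857119386361) (.br (nat_lit 1) (.cons (.br (nat_lit 4) (.cons (.rel (nat_lit 1090521096)) (.cons (.rel (nat_lit 1090585092)) .nil))) (.cons (.br (nat_lit 2) (.cons (.rel (nat_lit 83888640)) (.cons (.rel (nat_lit 83888640)) (.cons (.rel (nat_lit 83902752)) .nil)))) .nil))) (.node (.node .leaf (nat_lit 26511857119386857) (.br (nat_lit 1) (.cons (.br (nat_lit 3) (.cons (.rel (nat_lit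 285298944)) .nil)) .nil)) .leaf) (nat_lit 26511857119387132) (.br (nat_lit 1) (.cons (.br (nat_lit 4) (.cons (.rel (nat_lit 1090617345)) (.cons (.rel (nat_lit 1090617345)) .nil))) .nil)) .leaf)) (nat_lit 26511859137916935) (.br (nat_lit 1) (.cons (.br (nat_lit 6) (.cons (.rel (nat_lit 17196687360)) .nil)) .nil)) (.node (.node (.node .leaf (nat_lit 26511859138173178) (.br (nat_lit 3) (.cons (.br (nat_lit 4) (.cons (.rel (nat_lit 1342439445)) .nil)) .nil)) .leaf) (nat_lit 26511859138174239) (.br (nat_lit 0) (.cons (.br (nat_lit 1) (.cons (.rel (nat_lit 37750800)) .nil)) .nil)) .leaf) (nat_lit 26511859138216218) (.br (nat_lit 0) (.cons (.br (nat_lit 1) (.cons (.rel (nat_lit 20971848)) .nil)) .nil)) (.node (.node .leaf (nat_lit 26511859138216697) (.br (nat_lit 0) (.cons (.br (nat_lit 1) (.cons (.rel (nat_lit 22021632)) (.cons (.rel (nat_lit 21499908)) .nil))) (.cons (.br (nat_lit 1) (.cons (.rel (nat_lit 25165830)) (.cons (.rel (nat_lit 20971848)) .nil))) .nil))) .leaf) (nat_lit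 26511859138216711) (.br (nat_lit 0) (.cons (.br (nat_lit 3) (.cons (.rel (nat_lit 272634897)) (.cons (.rel (nat_lit 272630034)) .nil))) .nil)) .leaf))) (nat_lit 26511859138216743) (.br (nat_lit 0) (.cons (.br (nat_lit 1) (.cons (.rel (nat_lit 37750800)) (.cons (.rel (nat_lit 20971848)) (.cons (.rel (nat_lit 20975697)) .nil)))) (.cons (.br (nat_lit 1) (.cons (.rel (nat_lit 38011968)) (.cons (.rel (nat_lit 20971848)) (.cons (.rel (nat_lit 22052880)) .nil)))) .nil))) (.node (.node (.node (.node .leaf (nat_lit 26511859138478841) (.br (nat_lit 0) (.cons (.br (nat_lit 5) (.cons (.rel (nat_lit 8594138112)) (.cons (.rel (nat_lit 4299178320)) .nil))) (.cons (.br (nat_lit 5) (.cons (.rel (nat_lit 4303362048)) (.cons (.rel (nat_lit 4299178320)) .nil))) .nil))) .leaf) (nat_lit 26511859138523291) (.br (nat_lit 0) (.cons (.br (nat_lit 2) (.cons (.rel (nat_lit 71565888)) .nil)) .nil)) .leaf) (nat_lit 26511859138523943) (.br (nat_lit 1) (.cons (.br (nat_lit 2) (.cons (.rel (nat_lit 83895297))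 .nil)) .nil)) (.node (.node .leaf (nat_lit 26511859139291162) (.br (nat_lit 1) (.cons (.br (nat_lit 6) (.cons (.rel (nat_lit 17196687360)) .nil)) .nil)) .leaf) (nat_lit 26511859139291291) (.br (nat_lit 1) (.cons (.br (nat_lit 5) (.cons (.rel (nat_lit 4311814212)) .nil)) .nil)) .leaf)) (nat_lit 26511859139291418) (.br (nat_lit 4) (.cons (.br (nat_lit 1) (.cons (.rel (nat_lit 1090651392)) (.cons (.rel (nat_lit 1090539777)) (.cons (.rel (nat_lit 1090519077)) .nil)))) .nil)) (.node (.node (.node .leaf (nat_lit 26511859139291917) (.br (nat_lit 2) (.cons (.br (nat_lit 4) (.cons (.rel (nat_lit 1140868224)) .nil)) .nil)) .leaf) (nat_lit 26511859139292393) (.br (nat_lit 4) (.cons (.br (nat_lit 2) (.cons (.rel (nat_lit 1141129248)) (.cons (.rel (nat_lit 1141178376)) (.cons (.rel (nat_lit 1207963665)) (.cons (.br (nat_lit 5) (.cons (.rel (nat_lit 4362076170)) (.cons (.br (nat_lit 0) (.cons (.rel (nat_lit 1078067472)) (.cons (.rel (nat_lit 138543168)) (.cons (.rel (nat_lit 4300210212))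 (.cons (.rel (nat_lit 2155872273)) (.cons (.rel (nat_lit 4299169860)) (.cons (.rel (nat_lit 2155872273)) .nil))))))) (.cons (.br (nat_lit 0) (.cons (.rel (nat_lit 1078067472)) (.cons (.rel (nat_lit 138543168)) (.cons (.br (nat_lit 6) (.cons (.rel (nat_lit 17314157568)) (.cons (.rel (nat_lit 34364457984)) (.cons (.rel (nat_lit 17184063765)) (.cons (.rel (nat_lit 17314157568)) .nil))))) (.cons (.rel (nat_lit 2155872273)) (.cons (.rel (nat_lit 8594198544)) (.cons (.rel (nat_lit 2155872273)) .nil))))))) (.cons (.rel (nat_lit 4429447296)) .nil))))) (.cons (.rel (nat_lit 1141129248)) (.cons (.br (nat_lit 0) (.cons (.rel (nat_lit 1078067472)) (.cons (.rel (nat_lit 71307528)) (.cons (.rel (nat_lit 1145569281)) (.cons (.rel (nat_lit 2155872273)) (.cons (.rel (nat_lit 142622736)) (.cons (.rel (nat_lit 2155872273)) .nil))))))) .nil))))))) (.cons (.br (nat_lit 6) (.cons (.rel (nat_lit 18253873176)) (.cons (.rel (nat_lit 18253611138)) (.cons (.rel (nat_lit 19327615296)) (.cons (.rel (nat_lit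 18253873176)) .nil))))) (.cons (.br (nat_lit 0) (.cons (.rel (nat_lit 2151679296)) (.cons (.rel (nat_lit 1077936162)) (.cons (.rel (nat_lit 2152218624)) (.cons (.rel (nat_lit 1078198344)) (.cons (.rel (nat_lit 2155872273)) (.cons (.rel (nat_lit 1078067472)) .nil))))))) .nil)))) .leaf) (nat_lit 26511859139292422) (.br (nat_lit 3) (.cons (.br (nat_lit 4) (.cons (.rel (nat_lit 1342177416)) .nil)) .nil)) (.node (.node .leaf (nat_lit 26511859139292522) (.br (nat_lit 4) (.cons (.br (nat_lit 5) (.cons (.rel (nat_lit 5368988736)) (.cons (.br (nat_lit 0) (.cons (.rel (nat_lit 4300210212)) (.cons (.rel (nat_lit 8594198544)) (.cons (.rel (nat_lit 1077960720)) (.cons (.rel (nat_lit 2155872273)) (.cons (.rel (nat_lit 2155872273)) .nil)))))) .nil))) .nil)) .leaf) (nat_lit 26511859139292636) (.br (nat_lit 4) (.cons (.br (nat_lit 2) (.cons (.rel (nat_lit 1140868224)) (.cons (.br (nat_lit 3) (.cons (.rel (nat_lit 1342440450)) (.cons (.br (nat_lit 1) (.cons (.rel (nat_lit 285278244)) (.cons (.rel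 (nat_lit 1090781250)) (.cons (.rel (nat_lit 152043552)) (.cons (.rel (nat_lit 151003200)) .nil))))) .nil))) .nil))) .nil)) .leaf)))) (nat_lit 26511859139308281) (.br (nat_lit 5) (.cons (.br (nat_lit 0) (.cons (.rel (nat_lit 4303357185)) (.cons (.rel (nat_lit 8598324624)) (.cons (.rel (nat_lit 4299178320)) .nil)))) .nil)) (.node (.node (.node (.node (.node .leaf (nat_lit 26511859139444741) (.br (nat_lit 1) (.cons (.br (nat_lit 4) (.cons (.rel (nat_lit 1090527504)) .nil)) .nil)) .leaf) (nat_lit 26511859139445018) (.br (nat_lit 1) (.cons (.br (nat_lit 0) (.cons (.rel (nat_lit 38011968)) (.cons (.rel (nat_lit 22020630)) .nil))) .nil)) .leaf) (nat_lit 26511859139445497) (.br (nat_lit 4) (.cons (.br (nat_lit 0) (.cons (.rel (nat_lit 1077960720)) (.cons (.rel (nat_lit 1077940740)) .nil))) .nil)) (.node (.node .leaf (nat_lit 26511859139446022) (.br (nat_lit 1) (.cons (.br (nat_lit 4) (.cons (.rel (nat_lit 1090519077)) .nil)) .nil)) .leaf) (nat_lit 26511859139446247) (.br (nat_lit 4)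 (.cons (.br (nat_lit 5) (.cons (.rel (nat_lit 5368709382)) .nil)) .nil)) .leaf)) (nat_lit 26511859139446293) (.br (nat_lit 1) (.cons (.br (nat_lit 3) (.cons (.rel (nat_lit 554763264)) .nil)) .nil)) (.node (.node (.node .leaf (nat_lit 26511859139453213) (.br (nat_lit 1) (.cons (.br (nat_lit 3) (.cons (.rel (nat_lit 285212949)) .nil)) .nil)) .leaf) (nat_lit 26511859139453684) (.br (nat_lit 1) (.cons (.br (nat_lit 2) (.cons (.rel (nat_lit 83888640)) .nil)) .nil)) .leaf) (nat_lit 26511859139453689) (.br (nat_lit 3) (.cons (.br (nat_lit 5) (.cons (.rel (nat_lit 9126805785)) (.cons (.rel (nat_lit 4563435552)) .nil))) .nil)) (.node (.node .leaf (nat_lit 26511859139453730) (.br (nat_lit 0) (.cons (.br (nat_lit 5) (.cons (.rel (nat_lit 4299686400)) .nil)) .nil)) .leaf) (nat_lit 26511859139453813) (.br (nat_lit 4) (.cons (.br (nat_lit 6) (.cons (.rel (nat_lit 36507222081)) .nil)) .nil)) .leaf))) (nat_lit 26511859139751993) (.br (nat_lit 6) (.cons (.br (nat_lit 0) (.cons (.rel (nat_lit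 17188521984)) (.cons (.rel (nat_lit 34363932768)) (.cons (.rel (nat_lit 17184129060)) .nil)))) (.cons (.br (nat_lit 0) (.cons (.rel (nat_lit 17184069633)) (.cons (.rel (nat_lit 34363932768)) (.cons (.rel (nat_lit 17184064770)) .nil)))) .nil))) (.node (.node (.node (.node .leaf (nat_lit 26511859139752621) (.br (nat_lit 0) (.cons (.br (nat_lit 1) (.cons (.rel (nat_lit 37765632)) (.cons (.rel (nat_lit 39124992)) .nil))) (.cons (.br (nat_lit 1) (.cons (.rel (nat_lit 22028289)) (.cons (.rel (nat_lit 21499908)) .nil))) .nil))) .leaf) (nat_lit 26511859139752697) (.br (nat_lit 3) (.cons (.br (nat_lit 5) (.cons (.rel (nat_lit 4563407112)) (.cons (.rel (nat_lit 4563404304)) .nil))) .nil)) .leaf) (nat_lit 26511859139752711) (.br (nat_lit 1) (.cons (.br (nat_lit 3) (.cons (.rel (nat_lit 285221376)) .nil)) .nil)) (.node (.node .leaf (nat_lit 26511859139752738) (.br (nat_lit 0) (.cons (.br (nat_lit 5) (.cons (.rel (nat_lit 4299195456)) (.cons (.rel (nat_lit 4299178320)) .nil))) .nil)) .leaf)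 (nat_lit 26511859139752867) (.br (nat_lit 0) (.cons (.br (nat_lit 5) (.cons (.rel (nat_lit 4300210212)) (.cons (.rel (nat_lit 4299195456)) .nil))) (.cons (.br (nat_lit 1) (.cons (.rel (nat_lit 20971848)) (.cons (.rel (nat_lit 25166880)) .nil))) .nil))) .leaf)) (nat_lit 26511859139768570) (.br (nat_lit 0) (.cons (.br (nat_lit 1) (.cons (.rel (nat_lit 20971848)) .nil)) .nil)) (.node (.node (.node .leaf (nat_lit 26511859139769706) (.br (nat_lit 5) (.cons (.br (nat_lit 3) (.cons (.rel (nat_lit 4563410961)) (.cons (.rel (nat_lit 4564714500)) .nil))) .nil)) .leaf) (nat_lit 26511859140520236) (.br (nat_lit 1) (.cons (.br (nat_lit 3) (.cons (.rel (nat_lit 301991040)) .nil)) .nil)) .leaf) (nat_lit 26511859140521493) (.br (nat_lit 3) (.cons (.br (nat_lit 5) (.cons (.rel (nat_lit 4563665472)) .nil)) .nil)) (.node .leaf (nat_lit 26511859141040889) (.br (nat_lit 1) (.cons (.br (nat_lit 2) (.cons (.rel (nat_lit 151003200)) (.cons (.rel (nat_lit 84018180)) .nil))) (.cons (.br (nat_lit 2) (.cons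 (.rel (nat_lit 167773440)) (.cons (.rel (nat_lit 167773440)) .nil))) .nil))) .leaf))))) (nat_lit 26511859141040935) (.br (nat_lit 1) (.cons (.br (nat_lit 0) (.cons (.rel (nat_lit 25166880)) (.cons (.rel (nat_lit 20975697)) .nil))) .nil)) (.node (.node (.node (.node (.node (.node .leaf (nat_lit 26511859141041385) (.br (nat_lit 4) (.cons (.br (nat_lit 1) (.cons (.rel (nat_lit 1091568000)) (.cons (.rel (nat_lit 1090519077)) (.cons (.rel (nat_lit 1090651392)) .nil)))) .nil)) .leaf) (nat_lit 26511859141041660) (.br (nat_lit 1) (.cons (.br (nat_lit 6) (.cons (.rel (nat_lit 17196650529)) .nil)) .nil)) .leaf) (nat_lit 26511859141053728) (.br (nat_lit 2) (.cons (.br (nat_lit 4) (.cons (.rel (nat_lit 1141178376)) .nil)) .nil)) (.node (.node .leaf (nat_lit 26511859259851513) (.br (nat_lit 0) (.cons (.br (nat_lit 1) (.cons (.rel (nat_lit 37748745)) (.cons (.rel (nat_lit 37748745)) .nil))) (.cons (.br (nat_lit 1) (.cons (.rel (nat_lit 25165830)) (.cons (.rel (nat_lit 25165830)) .nil))) .nil)))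 .leaf) (nat_lit 26511859259851527) (.br (nat_lit 0) (.cons (.br (nat_lit 3) (.cons (.rel (nat_lit 272630034)) .nil)) .nil)) .leaf)) (nat_lit 26511859259851559) (.br (nat_lit 0) (.cons (.br (nat_lit 1) (.cons (.rel (nat_lit 37748745)) .nil)) .nil)) (.node (.node (.node .leaf (nat_lit 26511859260926263) (.br (nat_lit 3) (.cons (.br (nat_lit 0) (.cons (.rel (nat_lit 272695329)) (.cons (.rel (nat_lit 272630034)) (.cons (.rel (nat_lit 272631048)) .nil)))) .nil)) .leaf) (nat_lit 26511859262412138) (.br (nat_lit 0) (.cons (.br (nat_lit 1) (.cons (.rel (nat_lit 21499908)) .nil)) .nil)) .leaf) (nat_lit 26511859262676201) (.br (nat_lit 0) (.cons (.br (nat_lit 1) (.cons (.rel (nat_lit 20987970)) .nil)) .nil)) (.node (.node .leaf (nat_lit 26511859318571769) (.br (nat_lit 0) (.cons (.br (nat_lit 1) (.cons (.rel (nat_lit 22151172)) .nil)) .nil)) .leaf) (nat_lit 26511859318571783) (.br (nat_lit 3) (.cons (.br (nat_lit 1) (.cons (.rel (nat_lit 285212949)) (.cons (.rel (nat_lit 285218817)) .nil)))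 .nil)) .leaf))) (nat_lit 26511859318571815) (.br (nat_lit 0) (.cons (.br (nat_lit 1) (.cons (.rel (nat_lit 21561345)) .nil)) .nil)) (.node (.node (.node (.node .leaf (nat_lit 26511859319646519) (.br (nat_lit 1) (.cons (.br (nat_lit 3) (.cons (.rel (nat_lit 570507264)) .nil)) .nil)) .leaf) (nat_lit 26511859319647465) (.br (nat_lit 1) (.cons (.br (nat_lit 3) (.cons (.rel (nat_lit 285221376)) .nil)) .nil)) .leaf) (nat_lit 26511859319647494) (.br (nat_lit 0) (.cons (.br (nat_lit 1) (.cons (.rel (nat_lit 25428048)) .nil)) .nil)) (.node (.node .leaf (nat_lit 26511859319663353) (.br (nat_lit 2) (.cons (.br (nat_lit 5) (.cons (.rel (nat_lit 4362076170)) .nil)) .nil)) .leaf) (nat_lit 26511859319663878) (.br (nat_lit 1) (.cons (.br (nat_lit 2) (.cons (.rel (nat_lit 83919888)) .nil)) .nil)) .leaf)) (nat_lit 26511859319663899) (.br (nat_lit 1) (.cons (.br (nat_lit 5) (.cons (.rel (nat_lit 8608023552)) .nil)) .nil)) (.node (.node (.node .leaf (nat_lit 26511859319808802) (.br (nat_lit 0)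 (.cons (.br (nat_lit 2) (.cons (.rel (nat_lit 71307528)) .nil)) .nil)) .leaf) (nat_lit 26511859320107769) (.br (nat_lit 0) (.cons (.br (nat_lit 1) (.cons (.rel (nat_lit 37750800)) .nil)) .nil)) .leaf) (nat_lit 26511859320107783) (.br (nat_lit 1) (.cons (.br (nat_lit 5) (.cons (.rel (nat_lit 4312301568)) .nil)) .nil)) (.node .leaf (nat_lit 26511859320108315) (.br (nat_lit 1) (.cons (.br (nat_lit 6) (.cons (.rel (nat_lit 17196687360)) .nil)) .nil)) .leaf)))) (nat_lit 26511859320116457) (.br (nat_lit 0) (.cons (.br (nat_lit 1) (.cons (.rel (nat_lit 21038148)) .nil)) .nil)) (.node (.node (.node (.node (.node .leaf (nat_lit 26511859320116632) (.br (nat_lit 1) (.cons (.br (nat_lit 2) (.cons (.rel (nat_lit 100667520)) .nil)) .nil)) .leaf) (nat_lit 26511859320876533) (.br (nat_lit 3) (.cons (.br (nat_lit 5) (.cons (.br (nat_lit 2) (.cons (.rel (nat_lit 336593988)) (.cons (.rel (nat_lit 603985920)) (.cons (.rel (nat_lit 4429186128)) (.cons (.rel (nat_lit 4362080784)) (.cons (.rel (nat_lit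 603985920)) .nil)))))) .nil)) .nil)) .leaf) (nat_lit 26511859321132408) (.br (nat_lit 0) (.cons (.br (nat_lit 1) (.cons (.rel (nat_lit 20987970)) .nil)) .nil)) (.node (.node .leaf (nat_lit 26511860165522213) (.br (nat_lit 0) (.cons (.br (nat_lit 1) (.cons (.rel (nat_lit 22028289)) .nil)) .nil)) .leaf) (nat_lit 26511860419014943) (.br (nat_lit 0) (.cons (.br (nat_lit 2) (.cons (.rel (nat_lit 71307528)) (.cons (.rel (nat_lit 71307528)) .nil))) (.cons (.br (nat_lit 4) (.cons (.rel (nat_lit 1078002177)) (.cons (.rel (nat_lit 2155872273)) (.cons (.rel (nat_lit 1078084608)) .nil)))) .nil))) .leaf)) (nat_lit 26511860419015411) (.br (nat_lit 0) (.cons (.br (nat_lit 2) (.cons (.rel (nat_lit 71335968)) .nil)) .nil)) (.node (.node (.node .leaf (nat_lit 26511860419015556) (.br (nat_lit 0) (.cons (.br (nat_lit 2) (.cons (.rel (nat_lit 71323650)) .nil)) .nil)) .leaf) (nat_lit 26513672243561330) (.br (nat_lit 0) (.cons (.br (nat_lit 1) (.cons (.rel (nat_lit 20987970)) .nil)) .nil)) .leaf)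 (nat_lit 26513672245096580) (.br (nat_lit 1) (.cons (.br (nat_lit 3) (.cons (.rel (nat_lit 285218817)) .nil)) .nil)) (.node (.node .leaf (nat_lit 26517879315299189) (.br (nat_lit 0) (.cons (.br (nat_lit 2) (.cons (.rel (nat_lit 71321856)) .nil)) .nil)) .leaf) (nat_lit 26517879315299690) (.br (nat_lit 0) (.cons (.br (nat_lit 1) (.cons (.rel (nat_lit 22028289)) .nil)) .nil)) .leaf))) (nat_lit 26517879316559081) (.br (nat_lit 0) (.cons (.br (nat_lit 1) (.cons (.rel (nat_lit 20971848)) .nil)) .nil)) (.node (.node (.node (.node .leaf (nat_lit 26523335472261431) (.br (nat_lit 0) (.cons (.br (nat_lit 1) (.cons (.rel (nat_lit 21038148)) .nil)) .nil)) .leaf) (nat_lit 26523335473491445) (.br (nat_lit 0) (.cons (.br (nat_lit 4) (.cons (.rel (nat_lit 1077938181)) .nil)) .nil)) .leaf) (nat_lit 26523335474011369) (.br (nat_lit 1) (.cons (.br (nat_lit 4) (.cons (.rel (nat_lit 2164277328)) .nil)) .nil)) (.node (.node .leaf (nat_lit 26523728348522746) (.br (nat_lit 0) (.cons (.br (nat_lit 3)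 (.cons (.rel (nat_lit 272634897)) .nil)) .nil)) .leaf) (nat_lit 26523728348523257) (.br (nat_lit 1) (.cons (.br (nat_lit 6) (.cons (.rel (nat_lit 17196646680)) .nil)) .nil)) .leaf)) (nat_lit 26523730427523079) (.br (nat_lit 1) (.cons (.br (nat_lit 2) (.cons (.rel (nat_lit 85196817)) .nil)) .nil)) (.node (.node (.node .leaf (nat_lit 26523730427822755) (.br (nat_lit 1) (.cons (.br (nat_lit 5) (.cons (.rel (nat_lit 8623767552)) .nil)) .nil)) .leaf) (nat_lit 26523730427822887) (.br (nat_lit 1) (.cons (.br (nat_lit 6) (.cons (.rel (nat_lit 17196650529)) .nil)) .nil)) .leaf) (nat_lit 26524790837046534) (.br (nat_lit 1) (.cons (.br (nat_lit 2) (.cons (.rel (nat_lit 83890434)) .nil)) .nil)) (.node .leaf (nat_lit 26524790837490595) (.br (nat_lit 0) (.cons (.br (nat_lit 5) (.cons (.rel (nat_lit 4299178320)) .nil)) .nil)) .leaf)))))))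

/-- refutations 39 -/
def e39 : EX := (.node (.node (.node (.node (.node (.node (.node (.node (.node .leaf (nat_lit 27267953770939143) (.br (nat_lit 0) (.cons (.br (nat_lit 1) (.cons (.rel (nat_lit 20975697)) .nil)) .nil)) .leaf) (nat_lit 27267953771212009) (.br (nat_lit 1) (.cons (.br (nat_lit 3) (.cons (.rel (nat_lit 570429696)) .nil)) .nil)) .leaf) (nat_lit 27267953772031238) (.br (nat_lit 2) (.cons (.br (nat_lit 5) (.cons (.rel (nat_lit 4362175488)) .nil)) .nil)) (.node .leaf (nat_lit 27267953772176860) (.br (nat_lit 1) (.cons (.br (nat_lit 3) (.cons (.rel (nat_lit 553650240)) .nil)) .nil)) .leaf)) (nat_lit 27267953773559146) (.br (nat_lit 0) (.cons (.br (nat_lit 1) (.cons (.rel (nat_lit 22028289)) .nil)) .nil)) (.node (.node (.node .leaf (nat_lit 27267953892573959) (.br (nat_lit 0) (.cons (.br (nat_lit 1) (.cons (.rel (nat_lit 21038148)) (.cons (.rel (nat_lit 22021632)) .nil))) .nil)) .leaf) (nat_lit 27267953951293751) (.br (nat_lit 0) (.cons (.br (nat_lit 3) (.cons (.rel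 (nat_lit 272761344)) .nil)) .nil)) .leaf) (nat_lit 27267953951556359) (.br (nat_lit 2) (.cons (.br (nat_lit 0) (.cons (.rel (nat_lit 71304720)) (.cons (.rel (nat_lit 139462656)) .nil))) .nil)) (.node .leaf (nat_lit 27267953952368951) (.br (nat_lit 1) (.cons (.br (nat_lit 3) (.cons (.rel (nat_lit 285376512)) .nil)) .nil)) .leaf))) (nat_lit 27267953952369926) (.br (nat_lit 3) (.cons (.br (nat_lit 4) (.cons (.rel (nat_lit 1342177416)) .nil)) .nil)) (.node (.node (.node (.node .leaf (nat_lit 27267953952830201) (.br (nat_lit 0) (.cons (.br (nat_lit 1) (.cons (.rel (nat_lit 25165830)) .nil)) .nil)) .leaf) (nat_lit 27267953952830726) (.br (nat_lit 1) (.cons (.br (nat_lit 0) (.cons (.rel (nat_lit 21038148)) (.cons (.rel (nat_lit 22151172)) (.cons (.rel (nat_lit 37750800)) .nil)))) (.cons (.br (nat_lit 0) (.cons (.rel (nat_lit 22028289)) (.cons (.rel (nat_lit 20971848)) (.cons (.rel (nat_lit 20975697)) .nil)))) .nil))) .leaf) (nat_lit 27267953953913607) (.br (nat_lit 1) (.cons (.br (nat_lit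 4) (.cons (.rel (nat_lit 1090544640)) .nil)) .nil)) (.node .leaf (nat_lit 27267953953914264) (.br (nat_lit 1) (.cons (.br (nat_lit 2) (.cons (.rel (nat_lit 84181056)) (.cons (.rel (nat_lit 83895297)) .nil))) (.cons (.br (nat_lit 2) (.cons (.rel (nat_lit 167773440)) (.cons (.rel (nat_lit 167773440)) .nil))) .nil))) .leaf)) (nat_lit 27268157909250809) (.br (nat_lit 1) (.cons (.br (nat_lit 2) (.cons (.rel (nat_lit 83919888)) .nil)) .nil)) (.node (.node .leaf (nat_lit 27268200799743238) (.br (nat_lit 1) (.cons (.br (nat_lit 3) (.cons (.rel (nat_lit 285298944)) .nil)) .nil)) .leaf) (nat_lit 27268200799743513) (.br (nat_lit 0) (.cons (.br (nat_lit 1) (.cons (.rel (nat_lit 21561345)) .nil)) .nil)) (.node .leaf (nat_lit 27268200801491705) (.br (nat_lit 0) (.cons (.br (nat_lit 1) (.cons (.rel (nat_lit 21038148)) .nil)) .nil)) .leaf)))) (nat_lit 27268200801492505) (.br (nat_lit 1) (.cons (.br (nat_lit 3) (.cons (.rel (nat_lit 285278244)) .nil)) .nil)) (.node (.node (.node (.node (.node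 .leaf (nat_lit 27268200992834793) (.br (nat_lit 0) (.cons (.br (nat_lit 1) (.cons (.rel (nat_lit 22021632)) .nil)) .nil)) .leaf) (nat_lit 27268202879315177) (.br (nat_lit 0) (.cons (.br (nat_lit 3) (.cons (.rel (nat_lit 272761344)) (.cons (.rel (nat_lit 272647170)) (.cons (.rel (nat_lit 272647170)) .nil)))) (.cons (.br (nat_lit 1) (.cons (.rel (nat_lit 20987970)) (.cons (.rel (nat_lit 37750800)) (.cons (.rel (nat_lit 21300369)) .nil)))) .nil))) .leaf) (nat_lit 27268202880578311) (.br (nat_lit 3) (.cons (.br (nat_lit 5) (.cons (.rel (nat_lit 4563407112)) .nil)) .nil)) (.node .leaf (nat_lit 27268202881662314) (.br (nat_lit 2) (.cons (.br (nat_lit 3) (.cons (.rel (nat_lit 603981057)) .nil)) .nil)) .leaf)) (nat_lit 27268202881866985) (.br (nat_lit 0) (.cons (.br (nat_lit 1) (.cons (.rel (nat_lit 21038148)) .nil)) .nil)) (.node (.node (.node .leaf (nat_lit 27268203000677159) (.br (nat_lit 0) (.cons (.br (nat_lit 1) (.cons (.rel (nat_lit 22028289)) .nil)) .nil)) .leaf) (nat_lit 27268203000939271)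 (.br (nat_lit 0) (.cons (.br (nat_lit 1) (.cons (.rel (nat_lit 25165830)) .nil)) .nil)) .leaf) (nat_lit 27268203002213127) (.br (nat_lit 1) (.cons (.br (nat_lit 5) (.cons (.rel (nat_lit 4311762240)) .nil)) .nil)) (.node .leaf (nat_lit 27268203059396919) (.br (nat_lit 0) (.cons (.br (nat_lit 1) (.cons (.rel (nat_lit 20987970)) .nil)) .nil)) .leaf))) (nat_lit 27268203059397369) (.br (nat_lit 0) (.cons (.br (nat_lit 1) (.cons (.rel (nat_lit 20971848)) (.cons (.rel (nat_lit 20971848)) .nil))) (.cons (.br (nat_lit 1) (.cons (.rel (nat_lit 20975697)) (.cons (.rel (nat_lit 21038148)) .nil))) .nil))) (.node (.node (.node (.node .leaf (nat_lit 27268203059397383) (.br (nat_lit 0) (.cons (.br (nat_lit 1) (.cons (.rel (nat_lit 25165830)) (.cons (.rel (nat_lit 20987970)) .nil))) .nil)) .leaf) (nat_lit 27268203059397415) (.br (nat_lit 0) (.cons (.br (nat_lit 3) (.cons (.rel (nat_lit 272647170)) .nil)) .nil)) .leaf) (nat_lit 27268203059659513) (.br (nat_lit 0) (.cons (.br (nat_lit 5) (.cons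 (.rel (nat_lit 4299686400)) .nil)) .nil)) (.node .leaf (nat_lit 27268203059659527) (.br (nat_lit 0) (.cons (.br (nat_lit 2) (.cons (.rel (nat_lit 71304720)) (.cons (.rel (nat_lit 71304720)) .nil))) (.cons (.br (nat_lit 2) (.cons (.rel (nat_lit 71335968)) (.cons (.rel (nat_lit 71304720)) .nil))) .nil))) .leaf)) (nat_lit 27268203060472119) (.br (nat_lit 3) (.cons (.br (nat_lit 1) (.cons (.rel (nat_lit 301991040)) (.cons (.rel (nat_lit 285229080)) .nil))) .nil)) (.node (.node .leaf (nat_lit 27268203060473094) (.br (nat_lit 1) (.cons (.br (nat_lit 3) (.cons (.rel (nat_lit 285376512)) .nil)) .nil)) .leaf) (nat_lit 27268203060626183) (.br (nat_lit 1) (.cons (.br (nat_lit 3) (.cons (.rel (nat_lit 285213954)) .nil)) .nil)) (.node .leaf (nat_lit 27268203060626665) (.br (nat_lit 1) (.cons (.br (nat_lit 2) (.cons (.rel (nat_lit 83888640)) .nil)) .nil)) .leaf))))) (nat_lit 27268203060634375) (.br (nat_lit 1) (.cons (.br (nat_lit 5) (.cons (.rel (nat_lit 4311762240)) (.cons (.rel (nat_lit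 4328526864)) .nil))) .nil)) (.node (.node (.node (.node (.node (.node .leaf (nat_lit 27268203062017432) (.br (nat_lit 3) (.cons (.br (nat_lit 5) (.cons (.rel (nat_lit 4832894976)) .nil)) .nil)) .leaf) (nat_lit 27268203062221575) (.br (nat_lit 1) (.cons (.br (nat_lit 2) (.cons (.rel (nat_lit 84018180)) .nil)) .nil)) .leaf) (nat_lit 27268317909366168) (.br (nat_lit 1) (.cons (.br (nat_lit 2) (.cons (.rel (nat_lit 83902752)) .nil)) .nil)) (.node .leaf (nat_lit 27268317909374464) (.br (nat_lit 2) (.cons (.br (nat_lit 0) (.cons (.rel (nat_lit 142622736)) (.cons (.rel (nat_lit 71304720)) .nil))) .nil)) .leaf)) (nat_lit 27268317910655002) (.br (nat_lit 0) (.cons (.br (nat_lit 1) (.cons (.rel (nat_lit 38011968)) .nil)) .nil)) (.node (.node (.node .leaf (nat_lit 27268317999805191) (.br (nat_lit 1) (.cons (.br (nat_lit 5) (.cons (.rel (nat_lit 4311814212)) .nil)) .nil)) .leaf) (nat_lit 27268317999805798) (.br (nat_lit 1) (.cons (.br (nat_lit 3) (.cons (.rel (nat_lit 285221376)) .nil))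 .nil)) .leaf) (nat_lit 27268318000104806) (.br (nat_lit 1) (.cons (.br (nat_lit 5) (.cons (.rel (nat_lit 4311814212)) .nil)) .nil)) (.node .leaf (nat_lit 27268318001196390) (.br (nat_lit 5) (.cons (.br (nat_lit 1) (.cons (.rel (nat_lit 4311875649)) (.cons (.rel (nat_lit 4312794132)) (.cons (.rel (nat_lit 8606782464)) .nil)))) (.cons (.br (nat_lit 1) (.cons (.rel (nat_lit 4311814212)) (.cons (.rel (nat_lit 4312301568)) (.cons (.rel (nat_lit 4311814212)) .nil)))) .nil))) .leaf))) (nat_lit 27268318001332999) (.br (nat_lit 3) (.cons (.br (nat_lit 5) (.cons (.rel (nat_lit 4563421440)) .nil)) .nil)) (.node (.node (.node (.node .leaf (nat_lit 27268318001333149) (.br (nat_lit 1) (.cons (.br (nat_lit 3) (.cons (.rel (nat_lit 285279249)) .nil)) .nil)) .leaf) (nat_lit 27268318001640699) (.br (nat_lit 1) (.cons (.br (nat_lit 5) (.cons (.rel (nat_lit 4311814212)) (.cons (.rel (nat_lit 4328522001)) .nil))) .nil)) .leaf) (nat_lit 27268318001640806) (.br (nat_lit 5) (.cons (.br (nat_lit 1)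 (.cons (.rel (nat_lit 4312795137)) (.cons (.rel (nat_lit 8623767552)) .nil))) .nil)) (.node .leaf (nat_lit 27268318001648998) (.br (nat_lit 0) (.cons (.br (nat_lit 1) (.cons (.rel (nat_lit 22028289)) .nil)) .nil)) .leaf)) (nat_lit 27268318002408806) (.br (nat_lit 1) (.cons (.br (nat_lit 3) (.cons (.rel (nat_lit 570507264)) (.cons (.rel (nat_lit 285221376)) (.cons (.rel (nat_lit 285221376)) .nil)))) .nil)) (.node (.node .leaf (nat_lit 27268318002664699) (.br (nat_lit 5) (.cons (.br (nat_lit 6) (.cons (.rel (nat_lit 25771966464)) .nil)) .nil)) .leaf) (nat_lit 27268318436012039) (.br (nat_lit 5) (.cons (.br (nat_lit 1) (.cons (.rel (nat_lit 8608023552)) (.cons (.rel (nat_lit 8623767552)) .nil))) .nil)) (.node .leaf (nat_lit 27268318436012343) (.br (nat_lit 1) (.cons (.br (nat_lit 4) (.cons (.rel (nat_lit 2181039108)) .nil)) .nil)) .leaf)))) (nat_lit 27268318436268664) (.br (nat_lit 1) (.cons (.br (nat_lit 3) (.cons (.rel (nat_lit 570507264)) .nil)) .nil)) (.node (.node (.node (.node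 (.node .leaf (nat_lit 27268318437402649) (.br (nat_lit 1) (.cons (.br (nat_lit 2) (.cons (.rel (nat_lit 83895297)) .nil)) .nil)) .leaf) (nat_lit 27268318437403899) (.br (nat_lit 1) (.cons (.br (nat_lit 2) (.cons (.rel (nat_lit 83890434)) (.cons (.rel (nat_lit 83895297)) .nil))) .nil)) .leaf) (nat_lit 27268318437548039) (.br (nat_lit 0) (.cons (.br (nat_lit 1) (.cons (.rel (nat_lit 20971848)) .nil)) .nil)) (.node .leaf (nat_lit 27268318438872601) (.br (nat_lit 0) (.cons (.br (nat_lit 1) (.cons (.rel (nat_lit 20971848)) .nil)) .nil)) .leaf)) (nat_lit 27268319048380727) (.br (nat_lit 1) (.cons (.br (nat_lit 5) (.cons (.rel (nat_lit 4311745104)) .nil)) .nil)) (.node (.node (.node .leaf (nat_lit 27268319048636698) (.br (nat_lit 1) (.cons (.br (nat_lit 2) (.cons (.rel (nat_lit 83902752)) .nil)) .nil)) .leaf) (nat_lit 27268319048679574) (.br (nat_lit 1) (.cons (.br (nat_lit 2) (.cons (.rel (nat_lit 151003200)) .nil)) .nil)) .leaf) (nat_lit 27268319048679706) (.br (nat_lit 1) (.cons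 (.br (nat_lit 2) (.cons (.rel (nat_lit 153681984)) .nil)) .nil)) (.node .leaf (nat_lit 27268319050224552) (.br (nat_lit 1) (.cons (.br (nat_lit 2) (.cons (.rel (nat_lit 83888640)) (.cons (.rel (nat_lit 83902752)) .nil))) .nil)) .leaf))) (nat_lit 27268319050225016) (.br (nat_lit 0) (.cons (.br (nat_lit 1) (.cons (.rel (nat_lit 22021632)) .nil)) .nil)) (.node (.node (.node (.node .leaf (nat_lit 27268319051307319) (.br (nat_lit 1) (.cons (.br (nat_lit 4) (.cons (.rel (nat_lit 1090605072)) .nil)) .nil)) .leaf) (nat_lit 27268319051504873) (.br (nat_lit 1) (.cons (.br (nat_lit 3) (.cons (.rel (nat_lit 285376512)) (.cons (.rel (nat_lit 285280266)) .nil))) .nil)) .leaf) (nat_lit 27268319069959676) (.br (nat_lit 1) (.cons (.br (nat_lit 2) (.cons (.rel (nat_lit 83951880)) .nil)) .nil)) (.node .leaf (nat_lit 27268319070735112) (.br (nat_lit 2) (.cons (.br (nat_lit 0) (.cons (.rel (nat_lit 142622736)) (.cons (.rel (nat_lit 142622736)) .nil))) .nil)) .leaf)) (nat_lit 27268320533164218) (.br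 (nat_lit 5) (.cons (.br (nat_lit 4) (.cons (.rel (nat_lit 6442532928)) (.cons (.rel (nat_lit 5370024192)) (.cons (.rel (nat_lit 5368742400)) .nil)))) .nil)) (.node (.node .leaf (nat_lit 27268320533165343) (.br (nat_lit 1) (.cons (.br (nat_lit 5) (.cons (.rel (nat_lit 4311745104)) (.cons (.rel (nat_lit 4311745104)) .nil))) (.cons (.br (nat_lit 4) (.cons (.rel (nat_lit 1090520082)) (.cons (.rel (nat_lit 1090520082)) (.cons (.rel (nat_lit 1090544640)) (.cons (.rel (nat_lit 1107558912)) .nil))))) .nil))) .leaf) (nat_lit 27268320533464351) (.br (nat_lit 1) (.cons (.br (nat_lit 3) (.cons (.rel (nat_lit 570429696)) (.cons (.rel (nat_lit 285298944)) .nil))) .nil)) (.node .leaf (nat_lit 27268320533464565) (.br (nat_lit 1) (.cons (.br (nat_lit 4) (.cons (.rel (nat_lit 1090520082)) .nil)) .nil)) .leaf)))))) (nat_lit 27268320534554810) (.br (nat_lit 1) (.cons (.br (nat_lit 3) (.cons (.rel (nat_lit 570507264)) (.cons (.rel (nat_lit 285221376)) .nil))) .nil)) (.node (.node (.node (.node (.node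 (.node (.node .leaf (nat_lit 27268320534555899) (.br (nat_lit 3) (.cons (.br (nat_lit 1) (.cons (.rel (nat_lit 286540032)) (.cons (.rel (nat_lit 285213954)) .nil))) .nil)) .leaf) (nat_lit 27268320534555935) (.br (nat_lit 5) (.cons (.br (nat_lit 1) (.cons (.rel (nat_lit 4328587296)) (.cons (.rel (nat_lit 8606782464)) (.cons (.rel (nat_lit 4311762240)) .nil)))) .nil)) .leaf) (nat_lit 27268320534556006) (.br (nat_lit 5) (.cons (.br (nat_lit 1) (.cons (.rel (nat_lit 8606842896)) (.cons (.rel (nat_lit 4311745104)) (.cons (.br (nat_lit 6) (.cons (.rel (nat_lit 21474839040)) (.cons (.rel (nat_lit 21474839040)) (.cons (.rel (nat_lit 25770074112)) (.cons (.rel (nat_lit 17196687360)) (.cons (.rel (nat_lit 17196650529)) .nil)))))) .nil)))) .nil)) (.node .leaf (nat_lit 27268320534556149) (.br (nat_lit 1) (.cons (.br (nat_lit 5) (.cons (.rel (nat_lit 4311745104)) .nil)) .nil)) .leaf)) (nat_lit 27268320534693115) (.br (nat_lit 0) (.cons (.br (nat_lit 1) (.cons (.rel (nat_lit 20971848)) .nil))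 .nil)) (.node (.node (.node .leaf (nat_lit 27268320534693222) (.br (nat_lit 0) (.cons (.br (nat_lit 3) (.cons (.rel (nat_lit 272761344)) .nil)) .nil)) .leaf) (nat_lit 27268320534700218) (.br (nat_lit 1) (.cons (.br (nat_lit 5) (.cons (.rel (nat_lit 4311745104)) .nil)) .nil)) .leaf) (nat_lit 27268320534701343) (.br (nat_lit 5) (.cons (.br (nat_lit 1) (.cons (.rel (nat_lit 8606842896)) (.cons (.rel (nat_lit 4311762240)) .nil))) .nil)) (.node .leaf (nat_lit 27268320534701414) (.br (nat_lit 1) (.cons (.br (nat_lit 5) (.cons (.rel (nat_lit 4311762240)) .nil)) .nil)) .leaf))) (nat_lit 27268320534701557) (.br (nat_lit 3) (.cons (.br (nat_lit 5) (.cons (.rel (nat_lit 9126806790)) (.cons (.rel (nat_lit 8860471296)) .nil))) (.cons (.br (nat_lit 5) (.cons (.rel (nat_lit 9126805785)) (.cons (.rel (nat_lit 8858763264)) .nil))) .nil))) (.node (.node (.node (.node .leaf (nat_lit 27268320534999976) (.br (nat_lit 1) (.cons (.br (nat_lit 4) (.cons (.rel (nat_lit 1107558912)) (.cons (.rel (nat_lit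 2181046533)) .nil))) .nil)) .leaf) (nat_lit 27268320535000351) (.br (nat_lit 1) (.cons (.br (nat_lit 5) (.cons (.rel (nat_lit 4311875649)) (.cons (.rel (nat_lit 4328587296)) .nil))) .nil)) .leaf) (nat_lit 27268320535000422) (.br (nat_lit 5) (.cons (.br (nat_lit 3) (.cons (.rel (nat_lit 4832894976)) (.cons (.rel (nat_lit 4832428032)) (.cons (.rel (nat_lit 8860471296)) .nil)))) .nil)) (.node .leaf (nat_lit 27268320535000565) (.br (nat_lit 5) (.cons (.br (nat_lit 1) (.cons (.rel (nat_lit 8606842896)) (.cons (.rel (nat_lit 4312875264)) .nil))) .nil)) .leaf)) (nat_lit 27268320535008507) (.br (nat_lit 0) (.cons (.br (nat_lit 2) (.cons (.rel (nat_lit 71307528)) .nil)) .nil)) (.node (.node .leaf (nat_lit 27268320535008614) (.br (nat_lit 2) (.cons (.br (nat_lit 4) (.cons (.rel (nat_lit 1141129248)) .nil)) .nil)) .leaf) (nat_lit 27268320535767226) (.br (nat_lit 1) (.cons (.br (nat_lit 4) (.cons (.rel (nat_lit 1107558912)) (.cons (.rel (nat_lit 1090520082)) .nil))) .nil)) (.node .leaf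 (nat_lit 27268320535768422) (.br (nat_lit 1) (.cons (.br (nat_lit 3) (.cons (.rel (nat_lit 570507264)) (.cons (.rel (nat_lit 285221376)) (.cons (.rel (nat_lit 285221376)) (.cons (.rel (nat_lit 285279249)) .nil))))) .nil)) .leaf)))) (nat_lit 27268320535768565) (.br (nat_lit 1) (.cons (.br (nat_lit 5) (.cons (.rel (nat_lit 4312875264)) .nil)) .nil)) (.node (.node (.node (.node (.node .leaf (nat_lit 27268321039607065) (.br (nat_lit 0) (.cons (.br (nat_lit 1) (.cons (.rel (nat_lit 25166880)) .nil)) .nil)) .leaf) (nat_lit 27268321057751322) (.br (nat_lit 0) (.cons (.br (nat_lit 1) (.cons (.rel (nat_lit 21038148)) .nil)) .nil)) .leaf) (nat_lit 27268321058827497) (.br (nat_lit 1) (.cons (.br (nat_lit 3) (.cons (.rel (nat_lit 570429696)) (.cons (.rel (nat_lit 285221376)) (.cons (.rel (nat_lit 285298944)) .nil)))) (.cons (.br (nat_lit 3) (.cons (.rel (nat_lit 553650240)) (.cons (.rel (nat_lit 285218817)) (.cons (.rel (nat_lit 285278244)) .nil)))) .nil))) (.node .leaf (nat_lit 27268321058827640)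 (.br (nat_lit 1) (.cons (.br (nat_lit 2) (.cons (.rel (nat_lit 83888640)) .nil)) .nil)) .leaf)) (nat_lit 27268321058827801) (.br (nat_lit 1) (.cons (.br (nat_lit 6) (.cons (.rel (nat_lit 17196687360)) (.cons (.rel (nat_lit 17196647685)) (.cons (.rel (nat_lit 17196687360)) .nil)))) (.cons (.br (nat_lit 2) (.cons (.rel (nat_lit 84181056)) (.cons (.rel (nat_lit 100992000)) (.cons (.rel (nat_lit 83895297)) .nil)))) .nil))) (.node (.node (.node .leaf (nat_lit 27268321058843399) (.br (nat_lit 0) (.cons (.br (nat_lit 1) (.cons (.rel (nat_lit 21038148)) .nil)) .nil)) .leaf) (nat_lit 27268321059287226) (.br (nat_lit 0) (.cons (.br (nat_lit 1) (.cons (.rel (nat_lit 22028289)) .nil)) .nil)) .leaf) (nat_lit 27268321059287976) (.br (nat_lit 0) (.cons (.br (nat_lit 1) (.cons (.rel (nat_lit 20975697)) .nil)) .nil)) (.node .leaf (nat_lit 27268321059288351) (.br (nat_lit 4) (.cons (.br (nat_lit 5) (.cons (.rel (nat_lit 5370024192)) .nil)) .nil)) .leaf))) (nat_lit 27268321059296168) (.br (nat_lit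 0) (.cons (.br (nat_lit 1) (.cons (.rel (nat_lit 25165830)) .nil)) .nil)) (.node (.node (.node (.node .leaf (nat_lit 27268321059296489) (.br (nat_lit 2) (.cons (.br (nat_lit 4) (.cons (.rel (nat_lit 1140868224)) (.cons (.rel (nat_lit 1207963665)) (.cons (.rel (nat_lit 1140868224)) .nil)))) (.cons (.br (nat_lit 4) (.cons (.rel (nat_lit 1140868224)) (.cons (.rel (nat_lit 1141116930)) (.cons (.rel (nat_lit 1141903680)) .nil)))) (.cons (.br (nat_lit 4) (.cons (.rel (nat_lit 1141116930)) (.cons (.rel (nat_lit 1141129248)) (.cons (.rel (nat_lit 1140868224)) .nil)))) .nil)))) .leaf) (nat_lit 27268321059296614) (.br (nat_lit 0) (.cons (.br (nat_lit 2) (.cons (.rel (nat_lit 71321856)) .nil)) .nil)) .leaf) (nat_lit 27268321059296632) (.br (nat_lit 1) (.cons (.br (nat_lit 5) (.cons (.rel (nat_lit 4312797696)) (.cons (.rel (nat_lit 4311745104)) .nil))) (.cons (.br (nat_lit 4) (.cons (.rel (nat_lit 1090651392)) (.cons (.rel (nat_lit 1090519077)) .nil))) .nil))) (.node .leaf (nat_lit 27268321059296793)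 (.br (nat_lit 1) (.cons (.br (nat_lit 2) (.cons (.rel (nat_lit 167773440)) .nil)) .nil)) .leaf)) (nat_lit 27268321060312440) (.br (nat_lit 0) (.cons (.br (nat_lit 1) (.cons (.rel (nat_lit 21038148)) .nil)) .nil)) (.node (.node .leaf (nat_lit 27268321060576007) (.br (nat_lit 1) (.cons (.br (nat_lit 2) (.cons (.rel (nat_lit 83888640)) (.cons (.rel (nat_lit 167773440)) (.cons (.rel (nat_lit 167773440)) .nil)))) .nil)) .leaf) (nat_lit 27268321060576489) (.br (nat_lit 1) (.cons (.br (nat_lit 4) (.cons (.rel (nat_lit 1090519077)) .nil)) .nil)) (.node .leaf (nat_lit 27268321060576793) (.br (nat_lit 4) (.cons (.br (nat_lit 1) (.cons (.rel (nat_lit 1090520082)) (.cons (.rel (nat_lit 1090519077)) .nil))) .nil)) .leaf))))) (nat_lit 27268321116172295) (.br (nat_lit 1) (.cons (.br (nat_lit 2) (.cons (.rel (nat_lit 83895297)) (.cons (.rel (nat_lit 83890434)) .nil))) .nil)) (.node (.node (.node (.node (.node (.node .leaf (nat_lit 27268321116172538) (.br (nat_lit 1) (.cons (.br (nat_lit 6)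 (.cons (.rel (nat_lit 17196687360)) .nil)) .nil)) .leaf) (nat_lit 27268321116471607) (.br (nat_lit 1) (.cons (.br (nat_lit 3) (.cons (.rel (nat_lit 285298944)) .nil)) .nil)) .leaf) (nat_lit 27268321116779133) (.br (nat_lit 0) (.cons (.br (nat_lit 3) (.cons (.rel (nat_lit 272631048)) .nil)) .nil)) (.node .leaf (nat_lit 27268321116780028) (.br (nat_lit 5) (.cons (.br (nat_lit 1) (.cons (.rel (nat_lit 4312794132)) (.cons (.rel (nat_lit 4312797696)) .nil))) .nil)) .leaf)) (nat_lit 27268321117547782) (.br (nat_lit 3) (.cons (.br (nat_lit 0) (.cons (.rel (nat_lit 272761344)) (.cons (.rel (nat_lit 272634897)) .nil))) .nil)) (.node (.node (.node .leaf (nat_lit 27268321117555970) (.br (nat_lit 3) (.cons (.br (nat_lit 5) (.cons (.rel (nat_lit 4563421440)) .nil)) .nil)) .leaf) (nat_lit 27268321117556220) (.br (nat_lit 5) (.cons (.br (nat_lit 1) (.cons (.rel (nat_lit 8623767552)) (.cons (.rel (nat_lit 4311875649)) .nil))) .nil)) .leaf) (nat_lit 27268321117701408) (.br (nat_lit 0) (.cons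 (.br (nat_lit 1) (.cons (.rel (nat_lit 39124992)) .nil)) .nil)) (.node .leaf (nat_lit 27268321117701628) (.br (nat_lit 0) (.cons (.br (nat_lit 5) (.cons (.rel (nat_lit 4300211217)) .nil)) .nil)) .leaf))) (nat_lit 27268321118008057) (.br (nat_lit 0) (.cons (.br (nat_lit 1) (.cons (.rel (nat_lit 20971848)) .nil)) .nil)) (.node (.node (.node (.node .leaf (nat_lit 27268321118008582) (.br (nat_lit 5) (.cons (.br (nat_lit 3) (.cons (.rel (nat_lit 4563421440)) (.cons (.rel (nat_lit 4563533844)) .nil))) .nil)) .leaf) (nat_lit 27268321118015738) (.br (nat_lit 1) (.cons (.br (nat_lit 3) (.cons (.rel (nat_lit 285213954)) .nil)) .nil)) .leaf) (nat_lit 27268321118025212) (.br (nat_lit 1) (.cons (.br (nat_lit 3) (.cons (.rel (nat_lit 285278244)) .nil)) .nil)) (.node .leaf (nat_lit 27268321118776828) (.br (nat_lit 0) (.cons (.br (nat_lit 1) (.cons (.rel (nat_lit 37748745)) .nil)) .nil)) .leaf)) (nat_lit 27268321119100412) (.br (nat_lit 0) (.cons (.br (nat_lit 3) (.cons (.rel (nat_lit 272634897))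 (.cons (.rel (nat_lit 272761344)) .nil))) (.cons (.br (nat_lit 3) (.cons (.rel (nat_lit 272631048)) (.cons (.rel (nat_lit 272630034)) .nil))) .nil))) (.node (.node .leaf (nat_lit 27268321119296249) (.br (nat_lit 0) (.cons (.br (nat_lit 1) (.cons (.rel (nat_lit 20971848)) .nil)) .nil)) .leaf) (nat_lit 27268321119296745) (.br (nat_lit 1) (.cons (.br (nat_lit 0) (.cons (.rel (nat_lit 22151172)) (.cons (.rel (nat_lit 21038148)) .nil))) .nil)) (.node .leaf (nat_lit 27268321119299068) (.br (nat_lit 0) (.cons (.br (nat_lit 5) (.cons (.rel (nat_lit 8594138112)) (.cons (.rel (nat_lit 4299686400)) (.cons (.rel (nat_lit 4303683648)) .nil)))) (.cons (.br (nat_lit 2) (.cons (.rel (nat_lit 71311377)) (.cons (.rel (nat_lit 71304720)) (.cons (.rel (nat_lit 71565888)) (.cons (.rel (nat_lit 71311377)) .nil))))) (.cons (.br (nat_lit 5) (.cons (.rel (nat_lit 8594138112)) (.cons (.rel (nat_lit 8598585600)) (.cons (.rel (nat_lit 8598585600)) .nil)))) .nil)))) .leaf)))) (nat_lit 27268321669820727)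 (.br (nat_lit 1) (.cons (.br (nat_lit 4) (.cons (.rel (nat_lit 1090781250)) .nil)) .nil)) (.node (.node (.node (.node (.node .leaf (nat_lit 27268321669821691) (.br (nat_lit 1) (.cons (.br (nat_lit 2) (.cons (.rel (nat_lit 83902752)) .nil)) .nil)) .leaf) (nat_lit 27268321671195256) (.br (nat_lit 1) (.cons (.br (nat_lit 5) (.cons (.rel (nat_lit 4311762240)) .nil)) .nil)) .leaf) (nat_lit 27268321671195881) (.br (nat_lit 1) (.cons (.br (nat_lit 2) (.cons (.rel (nat_lit 167773440)) (.cons (.rel (nat_lit 83888640)) .nil))) .nil)) (.node .leaf (nat_lit 27268321671196024) (.br (nat_lit 1) (.cons (.br (nat_lit 3) (.cons (.rel (nat_lit 302252064)) (.cons (.rel (nat_lit 285213954)) (.cons (.rel (nat_lit 285221376)) .nil)))) .nil)) .leaf)) (nat_lit 27268321671196185) (.br (nat_lit 5) (.cons (.br (nat_lit 3) (.cons (.rel (nat_lit 4832428032)) (.cons (.rel (nat_lit 8858763264)) .nil))) .nil)) (.node (.node (.node .leaf (nat_lit 27268321671212390) (.br (nat_lit 6) (.cons (.br (nat_lit 1) (.cons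 (.rel (nat_lit 17196687360)) (.cons (.rel (nat_lit 17196687360)) .nil))) .nil)) .leaf) (nat_lit 27268321671349785) (.br (nat_lit 1) (.cons (.br (nat_lit 3) (.cons (.rel (nat_lit 554172432)) .nil)) .nil)) .leaf) (nat_lit 27268321671656199) (.br (nat_lit 3) (.cons (.br (nat_lit 5) (.cons (.rel (nat_lit 4563407112)) .nil)) .nil)) (.node .leaf (nat_lit 27268321671664873) (.br (nat_lit 1) (.cons (.br (nat_lit 2) (.cons (.rel (nat_lit 83895297)) .nil)) .nil)) .leaf))) (nat_lit 27268321671664998) (.br (nat_lit 3) (.cons (.br (nat_lit 4) (.cons (.rel (nat_lit 1342440450)) .nil)) .nil)) (.node (.node (.node (.node .leaf (nat_lit 27268321671665002) (.br (nat_lit 1) (.cons (.br (nat_lit 2) (.cons (.rel (nat_lit 83888640)) (.cons (.rel (nat_lit 83890434)) .nil))) .nil)) .leaf) (nat_lit 27268321671665016) (.br (nat_lit 1) (.cons (.br (nat_lit 2) (.cons (.rel (nat_lit 84018180)) .nil)) .nil)) .leaf) (nat_lit 27268321671665177) (.br (nat_lit 1) (.cons (.br (nat_lit 3) (.cons (.rel (nat_lit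 285218817)) (.cons (.rel (nat_lit 285278244)) .nil))) (.cons (.br (nat_lit 3) (.cons (.rel (nat_lit 285213954)) (.cons (.rel (nat_lit 285218817)) .nil))) .nil))) (.node .leaf (nat_lit 27268321672680699) (.br (nat_lit 1) (.cons (.br (nat_lit 3) (.cons (.rel (nat_lit 570429696)) .nil)) .nil)) .leaf)) (nat_lit 27268321672680824) (.br (nat_lit 0) (.cons (.br (nat_lit 5) (.cons (.rel (nat_lit 4300210212)) (.cons (.rel (nat_lit 8598585600)) .nil))) .nil)) (.node (.node .leaf (nat_lit 27268323138126585) (.br (nat_lit 0) (.cons (.br (nat_lit 3) (.cons (.rel (nat_lit 272761344)) .nil)) .nil)) .leaf) (nat_lit 27268323138126631) (.br (nat_lit 0) (.cons (.br (nat_lit 1) (.cons (.rel (nat_lit 21561345)) .nil)) .nil)) (.node .leaf (nat_lit 27268323139202310) (.br (nat_lit 3) (.cons (.br (nat_lit 1) (.cons (.rel (nat_lit 285218817)) (.cons (.rel (nat_lit 554172432)) .nil))) .nil)) .leaf))))))) (nat_lit 27268323139218694) (.br (nat_lit 1) (.cons (.br (nat_lit 2) (.cons (.rel (nat_lit 167773440))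 .nil)) .nil)) (.node (.node (.node (.node (.node (.node (.node (.node .leaf (nat_lit 27268323139661881) (.br (nat_lit 0) (.cons (.br (nat_lit 2) (.cons (.rel (nat_lit 75763728)) .nil)) .nil)) .leaf) (nat_lit 27268323139671273) (.br (nat_lit 1) (.cons (.br (nat_lit 0) (.cons (.rel (nat_lit 21499908)) (.cons (.rel (nat_lit 25239552)) .nil))) .nil)) .leaf) (nat_lit 27268323140687224) (.br (nat_lit 0) (.cons (.br (nat_lit 1) (.cons (.rel (nat_lit 37748745)) (.cons (.rel (nat_lit 20971848)) (.cons (.rel (nat_lit 21038148)) .nil)))) (.cons (.br (nat_lit 2) (.cons (.rel (nat_lit 72351873)) (.cons (.rel (nat_lit 142622736)) .nil))) .nil))) (.node .leaf (nat_lit 27268323259462407) (.br (nat_lit 1) (.cons (.br (nat_lit 2) (.cons (.rel (nat_lit 167773440)) .nil)) .nil)) .leaf)) (nat_lit 27268323259761401) (.br (nat_lit 3) (.cons (.br (nat_lit 1) (.cons (.rel (nat_lit 285221376)) (.cons (.rel (nat_lit 285298944)) .nil))) .nil)) (.node (.node (.node .leaf (nat_lit 27268323259761415) (.br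 (nat_lit 1) (.cons (.br (nat_lit 0) (.cons (.rel (nat_lit 21038148)) (.cons (.rel (nat_lit 20975697)) .nil))) .nil)) .leaf) (nat_lit 27268323259761447) (.br (nat_lit 1) (.cons (.br (nat_lit 3) (.cons (.rel (nat_lit 285298944)) .nil)) .nil)) .leaf) (nat_lit 27268323260023559) (.br (nat_lit 0) (.cons (.br (nat_lit 2) (.cons (.rel (nat_lit 71304720)) .nil)) .nil)) (.node .leaf (nat_lit 27268323260837401) (.br (nat_lit 0) (.cons (.br (nat_lit 2) (.cons (.rel (nat_lit 71335968)) .nil)) .nil)) .leaf))) (nat_lit 27268323260852410) (.br (nat_lit 0) (.cons (.br (nat_lit 1) (.cons (.rel (nat_lit 37750800)) .nil)) .nil)) (.node (.node (.node (.node .leaf (nat_lit 27268323260852856) (.br (nat_lit 1) (.cons (.br (nat_lit 2) (.cons (.rel (nat_lit 83888640)) .nil)) .nil)) .leaf) (nat_lit 27268323260852999) (.br (nat_lit 2) (.cons (.br (nat_lit 3) (.cons (.rel (nat_lit 335876097)) .nil)) .nil)) .leaf) (nat_lit 27268323260998407) (.br (nat_lit 1) (.cons (.br (nat_lit 2) (.cons (.rel (nat_lit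 83890434)) .nil)) .nil)) (.node .leaf (nat_lit 27268323262322072) (.br (nat_lit 3) (.cons (.br (nat_lit 5) (.cons (.rel (nat_lit 4563404304)) .nil)) .nil)) .leaf)) (nat_lit 27268323262585607) (.br (nat_lit 0) (.cons (.br (nat_lit 1) (.cons (.rel (nat_lit 21561345)) .nil)) .nil)) (.node (.node .leaf (nat_lit 27268323262585639) (.br (nat_lit 0) (.cons (.br (nat_lit 1) (.cons (.rel (nat_lit 20975697)) .nil)) .nil)) .leaf) (nat_lit 27268323262586089) (.br (nat_lit 1) (.cons (.br (nat_lit 0) (.cons (.rel (nat_lit 20971848)) (.cons (.rel (nat_lit 20971848)) .nil))) .nil)) (.node .leaf (nat_lit 27268323262586393) (.br (nat_lit 0) (.cons (.br (nat_lit 1) (.cons (.rel (nat_lit 20971848)) (.cons (.rel (nat_lit 20971848)) .nil))) .nil)) .leaf)))) (nat_lit 27268323318181895) (.br (nat_lit 1) (.cons (.br (nat_lit 5) (.cons (.rel (nat_lit 4311762240)) .nil)) .nil)) (.node (.node (.node (.node (.node .leaf (nat_lit 27268323318181920) (.br (nat_lit 6) (.cons (.br (nat_lit 1) (.cons (.rel (nat_lit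 17196687360)) (.cons (.rel (nat_lit 17196646680)) .nil))) .nil)) .leaf) (nat_lit 27268323318182074) (.br (nat_lit 5) (.cons (.br (nat_lit 3) (.cons (.rel (nat_lit 4563404304)) (.cons (.rel (nat_lit 4832894976)) (.cons (.rel (nat_lit 8859418704)) (.cons (.rel (nat_lit 8860471296)) (.cons (.rel (nat_lit 4563665472)) (.cons (.rel (nat_lit 8860471296)) (.cons (.rel (nat_lit 4563404304)) .nil)))))))) .nil)) .leaf) (nat_lit 27268323318182199) (.br (nat_lit 1) (.cons (.br (nat_lit 4) (.cons (.rel (nat_lit 1090781250)) (.cons (.rel (nat_lit 1090585092)) .nil))) (.cons (.br (nat_lit 4) (.cons (.rel (nat_lit 2181039108)) (.cons (.rel (nat_lit 1090519077)) .nil))) .nil))) (.node .leaf (nat_lit 27268323318182664) (.br (nat_lit 1) (.cons (.br (nat_lit 0) (.cons (.rel (nat_lit 20971848)) (.cons (.rel (nat_lit 20971848)) (.cons (.rel (nat_lit 21038148)) (.cons (.rel (nat_lit 20975697)) .nil))))) (.cons (.br (nat_lit 2) (.cons (.rel (nat_lit 167773440)) (.cons (.rel (nat_lit 167773440)) (.cons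 (.rel (nat_lit 83888640)) .nil)))) .nil))) .leaf)) (nat_lit 27268323318182694) (.br (nat_lit 2) (.cons (.br (nat_lit 4) (.cons (.br (nat_lit 1) (.cons (.rel (nat_lit 1090521096)) (.cons (.rel (nat_lit 1090544640)) .nil))) .nil)) .nil)) (.node (.node (.node .leaf (nat_lit 27268323318182695) (.br (nat_lit 1) (.cons (.br (nat_lit 5) (.cons (.rel (nat_lit 4312301568)) (.cons (.rel (nat_lit 4312301568)) .nil))) (.cons (.br (nat_lit 5) (.cons (.rel (nat_lit 4311762240)) (.cons (.rel (nat_lit 4311745104)) .nil))) .nil))) .leaf) (nat_lit 27268323318183413) (.br (nat_lit 5) (.cons (.br (nat_lit 1) (.cons (.rel (nat_lit 4311745104)) (.cons (.rel (nat_lit 8623755282)) .nil))) .nil)) .leaf) (nat_lit 27268323318438170) (.br (nat_lit 3) (.cons (.br (nat_lit 6) (.cons (.rel (nat_lit 17448567048)) (.cons (.rel (nat_lit 17448308868)) (.cons (.rel (nat_lit 17448570897)) .nil)))) (.cons (.br (nat_lit 2) (.cons (.rel (nat_lit 335611272)) (.cons (.rel (nat_lit 336593988)) (.cons (.rel (nat_lit 335544960))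 (.cons (.rel (nat_lit 335544960)) (.cons (.rel (nat_lit 335823120)) .nil)))))) .nil))) (.node .leaf (nat_lit 27268323318438574) (.br (nat_lit 4) (.cons (.br (nat_lit 1) (.cons (.rel (nat_lit 1090519077)) (.cons (.rel (nat_lit 1107568641)) .nil))) .nil)) .leaf))) (nat_lit 27268323318439288) (.br (nat_lit 5) (.cons (.br (nat_lit 2) (.cons (.rel (nat_lit 8657567808)) (.cons (.rel (nat_lit 4362076170)) (.cons (.rel (nat_lit 8657567808)) (.cons (.rel (nat_lit 8724152325)) (.cons (.rel (nat_lit 4362076170)) .nil)))))) .nil)) (.node (.node (.node (.node .leaf (nat_lit 27268323318480933) (.br (nat_lit 0) (.cons (.br (nat_lit 4) (.cons (.rel (nat_lit 1083179076)) .nil)) .nil)) .leaf) (nat_lit 27268323318481046) (.br (nat_lit 2) (.cons (.br (nat_lit 5) (.cons (.rel (nat_lit 4362076170)) .nil)) .nil)) .leaf) (nat_lit 27268323318481082) (.br (nat_lit 1) (.cons (.br (nat_lit 5) (.cons (.rel (nat_lit 4311745104)) .nil)) .nil)) (.node .leaf (nat_lit 27268323318481207) (.br (nat_lit 1) (.cons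 (.br (nat_lit 2) (.cons (.rel (nat_lit 83895297)) (.cons (.rel (nat_lit 83890434)) (.cons (.rel (nat_lit 83895297)) (.cons (.rel (nat_lit 100667520)) .nil))))) .nil)) .leaf)) (nat_lit 27268323318481582) (.br (nat_lit 1) (.cons (.br (nat_lit 5) (.cons (.rel (nat_lit 4313055300)) .nil)) .nil)) (.node (.node .leaf (nat_lit 27268323318481657) (.br (nat_lit 1) (.cons (.br (nat_lit 4) (.cons (.rel (nat_lit 1090521096)) (.cons (.rel (nat_lit 1107558912)) (.cons (.rel (nat_lit 1107558912)) (.cons (.rel (nat_lit 2181039108)) (.cons (.rel (nat_lit 1090521096)) (.cons (.rel (nat_lit 2164785408)) (.cons (.rel (nat_lit 1090585092)) .nil)))))))) (.cons (.br (nat_lit 2) (.cons (.rel (nat_lit 83895297)) (.cons (.rel (nat_lit 83895297)) (.cons (.rel (nat_lit 83902752)) (.cons (.rel (nat_lit 83902752)) .nil))))) (.cons (.br (nat_lit 2) (.cons (.rel (nat_lit 151003200)) (.cons (.rel (nat_lit 83902752)) (.cons (.rel (nat_lit 83895297)) (.cons (.rel (nat_lit 83888640)) .nil))))) .nil)))) .leaf)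 (nat_lit 27268323318481671) (.br (nat_lit 1) (.cons (.br (nat_lit 2) (.cons (.rel (nat_lit 83895297)) (.cons (.rel (nat_lit 83890434)) (.cons (.rel (nat_lit 83895297)) (.cons (.rel (nat_lit 100667520)) (.cons (.rel (nat_lit 83902752)) (.cons (.rel (nat_lit 83902752)) .nil))))))) (.cons (.br (nat_lit 0) (.cons (.rel (nat_lit 25198848)) (.cons (.rel (nat_lit 25198848)) (.cons (.rel (nat_lit 21499908)) (.cons (.rel (nat_lit 20975697)) (.cons (.rel (nat_lit 20975697)) .nil)))))) .nil))) (.node .leaf (nat_lit 27268323318481672) (.br (nat_lit 4) (.cons (.br (nat_lit 0) (.cons (.rel (nat_lit 1079248128)) (.cons (.rel (nat_lit 2152218624)) (.cons (.rel (nat_lit 1077938181)) .nil)))) (.cons (.br (nat_lit 0) (.cons (.rel (nat_lit 1079001216)) (.cons (.rel (nat_lit 2155872273)) (.cons (.rel (nat_lit 1077937176)) .nil)))) .nil))) .leaf))))) (nat_lit 27268323318481703) (.br (nat_lit 0) (.cons (.br (nat_lit 1) (.cons (.rel (nat_lit 21038148)) (.cons (.rel (nat_lit 20975697)) (.cons (.rel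 (nat_lit 22028289)) (.cons (.rel (nat_lit 21038148)) .nil))))) (.cons (.br (nat_lit 1) (.cons (.rel (nat_lit 20975697)) (.cons (.rel (nat_lit 22028289)) (.cons (.rel (nat_lit 21499908)) (.cons (.rel (nat_lit 20975697)) .nil))))) (.cons (.br (nat_lit 1) (.cons (.rel (nat_lit 25198848)) (.cons (.rel (nat_lit 20975697)) (.cons (.rel (nat_lit 20975697)) (.cons (.rel (nat_lit 25166880)) .nil))))) (.cons (.br (nat_lit 1) (.cons (.rel (nat_lit 25166880)) (.cons (.rel (nat_lit 37750800)) (.cons (.rel (nat_lit 20975697)) (.cons (.rel (nat_lit 21038148)) .nil))))) .nil))))) (.node (.node (.node (.node (.node (.node .leaf (nat_lit 27268323318482421) (.br (nat_lit 1) (.cons (.br (nat_lit 5) (.cons (.rel (nat_lit 4312301568)) .nil)) .nil)) .leaf) (nat_lit 27268323318743672) (.br (nat_lit 1) (.cons (.br (nat_lit 5) (.cons (.rel (nat_lit 4328526864)) (.cons (.rel (nat_lit 4312794132)) .nil))) .nil)) .leaf) (nat_lit 27268323318743700) (.br (nat_lit 2) (.cons (.br (nat_lit 5) (.cons (.rel (nat_lit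 4362097920)) (.cons (.rel (nat_lit 4362076170)) .nil))) .nil)) (.node .leaf (nat_lit 27268323318743801) (.br (nat_lit 1) (.cons (.br (nat_lit 2) (.cons (.rel (nat_lit 167773440)) .nil)) .nil)) .leaf)) (nat_lit 27268323318743815) (.br (nat_lit 1) (.cons (.br (nat_lit 2) (.cons (.rel (nat_lit 83888640)) (.cons (.rel (nat_lit 167773440)) (.cons (.rel (nat_lit 84018180)) .nil)))) .nil)) (.node (.node (.node .leaf (nat_lit 27268323318743945) (.br (nat_lit 5) (.cons (.br (nat_lit 1) (.cons (.rel (nat_lit 8623767552)) (.cons (.rel (nat_lit 4311814212)) .nil))) .nil)) .leaf) (nat_lit 27268323318788128) (.br (nat_lit 1) (.cons (.br (nat_lit 5) (.cons (.rel (nat_lit 4311814212)) (.cons (.rel (nat_lit 4311814212)) .nil))) .nil)) .leaf) (nat_lit 27268323318788728) (.br (nat_lit 1) (.cons (.br (nat_lit 5) (.cons (.rel (nat_lit 4311814212)) .nil)) .nil)) (.node .leaf (nat_lit 27268323318788782) (.br (nat_lit 5) (.cons (.br (nat_lit 1) (.cons (.rel (nat_lit 4312797696)) (.cons (.rel (nat_lit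 4312797696)) (.cons (.rel (nat_lit 4311762240)) .nil)))) .nil)) .leaf))) (nat_lit 27268323318788871) (.br (nat_lit 5) (.cons (.br (nat_lit 1) (.cons (.rel (nat_lit 4311762240)) (.cons (.rel (nat_lit 8608023552)) (.cons (.rel (nat_lit 8623767552)) (.cons (.rel (nat_lit 4312794132)) .nil))))) .nil)) (.node (.node (.node (.node .leaf (nat_lit 27268323318789032) (.br (nat_lit 1) (.cons (.br (nat_lit 4) (.cons (.rel (nat_lit 1091846160)) (.cons (.rel (nat_lit 1090519077)) .nil))) .nil)) .leaf) (nat_lit 27268323318789381) (.br (nat_lit 1) (.cons (.br (nat_lit 2) (.cons (.rel (nat_lit 83888640)) .nil)) .nil)) .leaf) (nat_lit 27268323318789382) (.br (nat_lit 5) (.cons (.br (nat_lit 1) (.cons (.rel (nat_lit 4311745104)) (.cons (.rel (nat_lit 8623767552)) .nil))) .nil)) (.node .leaf (nat_lit 27268323319556227) (.br (nat_lit 1) (.cons (.br (nat_lit 0) (.cons (.rel (nat_lit 22052880)) (.cons (.rel (nat_lit 22028289)) .nil))) .nil)) .leaf)) (nat_lit 27268323319556347) (.br (nat_lit 5) (.cons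 (.br (nat_lit 1) (.cons (.rel (nat_lit 4311762240)) (.cons (.rel (nat_lit 4312795137)) .nil))) .nil)) (.node (.node .leaf (nat_lit 27268323319556378) (.br (nat_lit 1) (.cons (.br (nat_lit 0) (.cons (.rel (nat_lit 22052880)) (.cons (.rel (nat_lit 22021632)) (.cons (.rel (nat_lit 22028289)) (.cons (.rel (nat_lit 22021632)) .nil))))) (.cons (.br (nat_lit 0) (.cons (.rel (nat_lit 20971848)) (.cons (.rel (nat_lit 21038148)) (.cons (.rel (nat_lit 21499908)) (.cons (.rel (nat_lit 20971848)) .nil))))) .nil))) .leaf) (nat_lit 27268323319556407) (.br (nat_lit 1) (.cons (.br (nat_lit 5) (.cons (.rel (nat_lit 4312301568)) (.cons (.rel (nat_lit 4311745104)) (.cons (.rel (nat_lit 4311762240)) (.cons (.rel (nat_lit 4312794132)) .nil))))) (.cons (.br (nat_lit 3) (.cons (.rel (nat_lit 553650240)) (.cons (.rel (nat_lit 285218817)) (.cons (.rel (nat_lit 285213954)) (.cons (.rel (nat_lit 285212949)) .nil))))) .nil))) (.node .leaf (nat_lit 27268323319556728) (.br (nat_lit 5) (.cons (.br (nat_lit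 1) (.cons (.rel (nat_lit 4311762240)) (.cons (.rel (nat_lit 8623767552)) (.cons (.rel (nat_lit 4311814212)) .nil)))) .nil)) .leaf)))) (nat_lit 27268323319556733) (.br (nat_lit 0) (.cons (.br (nat_lit 3) (.cons (.rel (nat_lit 272896065)) .nil)) .nil)) (.node (.node (.node (.node (.node .leaf (nat_lit 27268323319556871) (.br (nat_lit 1) (.cons (.br (nat_lit 5) (.cons (.rel (nat_lit 8623767552)) (.cons (.rel (nat_lit 4311762240)) (.cons (.rel (nat_lit 4312040592)) (.cons (.rel (nat_lit 4311745104)) .nil))))) (.cons (.br (nat_lit 5) (.cons (.rel (nat_lit 4313055300)) (.cons (.rel (nat_lit 4311762240)) (.cons (.rel (nat_lit 4311762240)) (.cons (.rel (nat_lit 4311745104)) .nil))))) .nil))) .leaf) (nat_lit 27268323319557353) (.br (nat_lit 1) (.cons (.br (nat_lit 3) (.cons (.rel (nat_lit 301991040)) (.cons (.rel (nat_lit 302252064)) (.cons (.rel (nat_lit 554763264)) .nil)))) .nil)) .leaf) (nat_lit 27268323319557382) (.br (nat_lit 5) (.cons (.br (nat_lit 1) (.cons (.rel (nat_lit 4312795137))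 (.cons (.rel (nat_lit 4311814212)) (.cons (.rel (nat_lit 8623767552)) (.cons (.rel (nat_lit 4312301568)) .nil))))) (.cons (.br (nat_lit 1) (.cons (.rel (nat_lit 4311814212)) (.cons (.rel (nat_lit 4311745104)) (.cons (.rel (nat_lit 4328788032)) (.cons (.rel (nat_lit 4312301568)) .nil))))) (.cons (.br (nat_lit 2) (.cons (.rel (nat_lit 4362076170)) (.cons (.rel (nat_lit 8657567808)) (.cons (.rel (nat_lit 4362076170)) (.cons (.rel (nat_lit 8657567808)) .nil))))) .nil)))) (.node .leaf (nat_lit 27268323319557596) (.br (nat_lit 1) (.cons (.br (nat_lit 5) (.cons (.rel (nat_lit 4311752778)) (.cons (.rel (nat_lit 4312794132)) (.cons (.rel (nat_lit 4311745104)) .nil)))) (.cons (.br (nat_lit 5) (.cons (.rel (nat_lit 4312794132)) (.cons (.rel (nat_lit 4311762240)) (.cons (.rel (nat_lit 4311745104)) .nil)))) (.cons (.br (nat_lit 2) (.cons (.rel (nat_lit 83902752)) (.cons (.rel (nat_lit 83895297)) (.cons (.rel (nat_lit 167773440)) .nil)))) .nil)))) .leaf)) (nat_lit 27268323319564419) (.br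 (nat_lit 1) (.cons (.br (nat_lit 4) (.cons (.rel (nat_lit 1090521096)) (.cons (.rel (nat_lit 1090520082)) (.cons (.rel (nat_lit 1090521096)) (.cons (.rel (nat_lit 1090521096)) .nil))))) .nil)) (.node (.node (.node .leaf (nat_lit 27268323319564570) (.br (nat_lit 1) (.cons (.br (nat_lit 2) (.cons (.rel (nat_lit 84181056)) (.cons (.rel (nat_lit 84018180)) .nil))) .nil)) .leaf) (nat_lit 27268323319565063) (.br (nat_lit 1) (.cons (.br (nat_lit 5) (.cons (.rel (nat_lit 4312794132)) (.cons (.rel (nat_lit 4312301568)) .nil))) (.cons (.br (nat_lit 5) (.cons (.rel (nat_lit 4312795137)) (.cons (.rel (nat_lit 8623767552)) .nil))) .nil))) .leaf) (nat_lit 27268323319565224) (.br (nat_lit 1) (.cons (.br (nat_lit 0) (.cons (.rel (nat_lit 37748745)) (.cons (.rel (nat_lit 25165830)) (.cons (.rel (nat_lit 20975697)) (.cons (.rel (nat_lit 38011968)) .nil))))) .nil)) (.node .leaf (nat_lit 27268323319565545) (.br (nat_lit 3) (.cons (.br (nat_lit 5) (.cons (.rel (nat_lit 4563407112)) .nil)) .nil))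 .leaf))) (nat_lit 27268323319565793) (.br (nat_lit 1) (.cons (.br (nat_lit 4) (.cons (.rel (nat_lit 2164277328)) (.cons (.rel (nat_lit 2181039108)) (.cons (.rel (nat_lit 1090521096)) (.cons (.rel (nat_lit 2164785408)) (.cons (.rel (nat_lit 1107558912)) (.cons (.rel (nat_lit 1090520082)) .nil))))))) (.cons (.br (nat_lit 2) (.cons (.rel (nat_lit 83895297)) (.cons (.rel (nat_lit 83951880)) .nil))) .nil))) (.node (.node (.node (.node .leaf (nat_lit 27268323319572512) (.br (nat_lit 1) (.cons (.br (nat_lit 2) (.cons (.rel (nat_lit 167773440)) (.cons (.rel (nat_lit 83895297)) .nil))) .nil)) .leaf) (nat_lit 27268323319572535) (.br (nat_lit 2) (.cons (.br (nat_lit 5) (.cons (.rel (nat_lit 4362076170)) .nil)) .nil)) .leaf) (nat_lit 27268323319572607) (.br (nat_lit 5) (.cons (.br (nat_lit 2) (.cons (.rel (nat_lit 4362076170)) (.cons (.rel (nat_lit 4362076170)) .nil))) .nil)) (.node .leaf (nat_lit 27268323319572611) (.br (nat_lit 1) (.cons (.br (nat_lit 5) (.cons (.rel (nat_lit 4312797696))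 .nil)) .nil)) .leaf)) (nat_lit 27268323319572666) (.br (nat_lit 1) (.cons (.br (nat_lit 4) (.cons (.rel (nat_lit 1090520082)) (.cons (.rel (nat_lit 1090651392)) (.cons (.rel (nat_lit 1090520082)) (.cons (.rel (nat_lit 1090520082)) (.cons (.rel (nat_lit 1107558912)) .nil)))))) .nil)) (.node (.node .leaf (nat_lit 27268323319572782) (.br (nat_lit 1) (.cons (.br (nat_lit 2) (.cons (.rel (nat_lit 83888640)) (.cons (.rel (nat_lit 85196817)) .nil))) .nil)) .leaf) (nat_lit 27268323319573255) (.br (nat_lit 5) (.cons (.br (nat_lit 2) (.cons (.rel (nat_lit 4362149892)) (.cons (.rel (nat_lit 8724152325)) (.cons (.rel (nat_lit 8724152325)) (.cons (.rel (nat_lit 4362097920)) (.cons (.rel (nat_lit 4364208192)) .nil)))))) .nil)) (.node .leaf (nat_lit 27268323319573282) (.br (nat_lit 4) (.cons (.br (nat_lit 0) (.cons (.rel (nat_lit 2151679296)) (.cons (.rel (nat_lit 1077940740)) (.cons (.rel (nat_lit 2155872273)) (.cons (.rel (nat_lit 1077938181)) .nil))))) (.cons (.br (nat_lit 5) (.cons (.rel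 (nat_lit 6443499525)) (.cons (.rel (nat_lit 10737434880)) .nil))) .nil))) .leaf)))))) (nat_lit 27268323319573782) (.br (nat_lit 2) (.cons (.br (nat_lit 5) (.cons (.rel (nat_lit 4429447296)) .nil)) .nil)) (.node (.node (.node (.node (.node (.node (.node .leaf (nat_lit 27268323319573980) (.br (nat_lit 1) (.cons (.br (nat_lit 5) (.cons (.rel (nat_lit 4311762240)) .nil)) .nil)) .leaf) (nat_lit 27268323319574005) (.br (nat_lit 1) (.cons (.br (nat_lit 5) (.cons (.rel (nat_lit 4313055300)) (.cons (.rel (nat_lit 4312795137)) (.cons (.rel (nat_lit 8606782464)) .nil)))) (.cons (.br (nat_lit 5) (.cons (.rel (nat_lit 4312794132)) (.cons (.rel (nat_lit 4312794132)) (.cons (.rel (nat_lit 8608023552)) .nil)))) .nil))) .leaf) (nat_lit 27268323319709746) (.br (nat_lit 2) (.cons (.br (nat_lit 3) (.cons (.rel (nat_lit 403963920)) .nil)) .nil)) (.node .leaf (nat_lit 27268323319710328) (.br (nat_lit 1) (.cons (.br (nat_lit 5) (.cons (.rel (nat_lit 4311745104)) (.cons (.rel (nat_lit 8623767552))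 (.cons (.rel (nat_lit 4328788032)) .nil)))) (.cons (.br (nat_lit 0) (.cons (.rel (nat_lit 37748745)) (.cons (.rel (nat_lit 22021632)) (.cons (.rel (nat_lit 22052880)) (.cons (.rel (nat_lit 22028289)) (.cons (.rel (nat_lit 22028289)) (.cons (.rel (nat_lit 37748745)) (.cons (.rel (nat_lit 22052880)) .nil)))))))) (.cons (.br (nat_lit 5) (.cons (.rel (nat_lit 4311814212)) (.cons (.rel (nat_lit 8623767552)) (.cons (.rel (nat_lit 4311745104)) .nil)))) .nil)))) .leaf)) (nat_lit 27268323319710471) (.br (nat_lit 5) (.cons (.br (nat_lit 3) (.cons (.rel (nat_lit 4563421440)) (.cons (.rel (nat_lit 4563421440)) (.cons (.rel (nat_lit 4831842384)) (.cons (.rel (nat_lit 4563404304)) .nil))))) (.cons (.br (nat_lit 1) (.cons (.rel (nat_lit 4312794132)) (.cons (.rel (nat_lit 8606716164)) (.cons (.rel (nat_lit 4311762240)) .nil)))) .nil))) (.node (.node (.node .leaf (nat_lit 27268323319710601) (.br (nat_lit 1) (.cons (.br (nat_lit 5) (.cons (.rel (nat_lit 4312794132)) .nil)) .nil)) .leaf) (nat_lit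 27268323319710632) (.br (nat_lit 1) (.cons (.br (nat_lit 0) (.cons (.rel (nat_lit 37750800)) (.cons (.rel (nat_lit 20975697)) (.cons (.rel (nat_lit 21537792)) .nil)))) .nil)) .leaf) (nat_lit 27268323319711221) (.br (nat_lit 1) (.cons (.br (nat_lit 3) (.cons (.rel (nat_lit 301991040)) (.cons (.rel (nat_lit 285221376)) (.cons (.rel (nat_lit 285221376)) .nil)))) (.cons (.br (nat_lit 3) (.cons (.rel (nat_lit 301991040)) (.cons (.rel (nat_lit 285213954)) (.cons (.rel (nat_lit 303104064)) .nil)))) (.cons (.br (nat_lit 2) (.cons (.rel (nat_lit 83895297)) (.cons (.rel (nat_lit 167773440)) (.cons (.rel (nat_lit 83888640)) (.cons (.rel (nat_lit 83888640)) (.cons (.rel (nat_lit 83890434)) .nil)))))) .nil)))) (.node .leaf (nat_lit 27268323319717895) (.br (nat_lit 5) (.cons (.br (nat_lit 0) (.cons (.rel (nat_lit 4299169860)) (.cons (.rel (nat_lit 4299169860)) .nil))) .nil)) .leaf))) (nat_lit 27268323319718074) (.br (nat_lit 5) (.cons (.br (nat_lit 1) (.cons (.rel (nat_lit 4311762240)) (.cons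 (.rel (nat_lit 4311745104)) .nil))) .nil)) (.node (.node (.node (.node .leaf (nat_lit 27268323319718075) (.br (nat_lit 2) (.cons (.br (nat_lit 5) (.cons (.rel (nat_lit 8724152325)) .nil)) .nil)) .leaf) (nat_lit 27268323319718190) (.br (nat_lit 1) (.cons (.br (nat_lit 2) (.cons (.rel (nat_lit 83951880)) .nil)) .nil)) .leaf) (nat_lit 27268323319718645) (.br (nat_lit 0) (.cons (.br (nat_lit 5) (.cons (.rel (nat_lit 4300211217)) (.cons (.rel (nat_lit 4300210212)) .nil))) .nil)) (.node .leaf (nat_lit 27268323319718663) (.br (nat_lit 5) (.cons (.br (nat_lit 2) (.cons (.rel (nat_lit 4362076170)) (.cons (.rel (nat_lit 4362076170)) (.cons (.rel (nat_lit 8724152325)) (.cons (.rel (nat_lit 8657567808)) (.cons (.rel (nat_lit 4362076170)) .nil)))))) (.cons (.br (nat_lit 2) (.cons (.rel (nat_lit 8724152325)) (.cons (.rel (nat_lit 4362076170)) (.cons (.rel (nat_lit 4362149892)) (.cons (.rel (nat_lit 4362076170)) (.cons (.rel (nat_lit 4362078225)) .nil)))))) (.cons (.br (nat_lit 2) (.cons (.rel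 (nat_lit 4362076170)) (.cons (.rel (nat_lit 4362076170)) (.cons (.rel (nat_lit 4362076170)) (.cons (.rel (nat_lit 8724152325)) (.cons (.rel (nat_lit 4362076170)) .nil)))))) .nil)))) .leaf)) (nat_lit 27268323319718673) (.br (nat_lit 2) (.cons (.br (nat_lit 0) (.cons (.rel (nat_lit 71373828)) (.cons (.rel (nat_lit 71373828)) .nil))) .nil)) (.node (.node .leaf (nat_lit 27268323319718824) (.br (nat_lit 1) (.cons (.br (nat_lit 5) (.cons (.rel (nat_lit 4312301568)) (.cons (.rel (nat_lit 4311762240)) .nil))) (.cons (.br (nat_lit 5) (.cons (.rel (nat_lit 4312301568)) (.cons (.rel (nat_lit 4311745104)) .nil))) .nil))) .leaf) (nat_lit 27268323319719320) (.br (nat_lit 1) (.cons (.br (nat_lit 5) (.cons (.rel (nat_lit 4311745104)) (.cons (.rel (nat_lit 4311762240)) .nil))) (.cons (.br (nat_lit 5) (.cons (.rel (nat_lit 4311762240)) (.cons (.rel (nat_lit 4312795137)) .nil))) .nil))) (.node .leaf (nat_lit 27268323319719413) (.br (nat_lit 5) (.cons (.br (nat_lit 4) (.cons (.rel (nat_lit 5368742400))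 (.cons (.rel (nat_lit 6443499525)) (.cons (.rel (nat_lit 6442455360)) (.cons (.rel (nat_lit 9663942660)) (.cons (.rel (nat_lit 10737434880)) .nil)))))) (.cons (.br (nat_lit 2) (.cons (.rel (nat_lit 4362076170)) (.cons (.rel (nat_lit 8724152325)) (.cons (.rel (nat_lit 4362076170)) (.cons (.rel (nat_lit 4362076170)) (.cons (.rel (nat_lit 4429186128)) .nil)))))) (.cons (.br (nat_lit 2) (.cons (.rel (nat_lit 4362076170)) (.cons (.rel (nat_lit 4362076170)) (.cons (.rel (nat_lit 4362076170)) (.cons (.br (nat_lit 1) (.cons (.rel (nat_lit 8606782464)) (.cons (.rel (nat_lit 84934788)) (.cons (.rel (nat_lit 4381016064)) (.cons (.rel (nat_lit 84018180)) (.cons (.rel (nat_lit 4312301568)) (.cons (.rel (nat_lit 4311745104)) .nil))))))) (.cons (.rel (nat_lit 4362076170)) .nil)))))) .nil)))) .leaf)))) (nat_lit 27268323320016928) (.br (nat_lit 1) (.cons (.br (nat_lit 3) (.cons (.rel (nat_lit 285213954)) (.cons (.rel (nat_lit 287834145)) .nil))) .nil)) (.node (.node (.node (.node (.node .leaf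 (nat_lit 27268323320016947) (.br (nat_lit 5) (.cons (.br (nat_lit 4) (.cons (.rel (nat_lit 5368710432)) (.cons (.rel (nat_lit 5368727568)) .nil))) .nil)) .leaf) (nat_lit 27268323320017023) (.br (nat_lit 1) (.cons (.br (nat_lit 5) (.cons (.rel (nat_lit 4311745104)) .nil)) .nil)) .leaf) (nat_lit 27268323320017082) (.br (nat_lit 5) (.cons (.br (nat_lit 1) (.cons (.rel (nat_lit 8623767552)) (.cons (.rel (nat_lit 4312301568)) .nil))) .nil)) (.node .leaf (nat_lit 27268323320017207) (.br (nat_lit 5) (.cons (.br (nat_lit 1) (.cons (.rel (nat_lit 8623767552)) (.cons (.rel (nat_lit 4311745104)) .nil))) .nil)) .leaf)) (nat_lit 27268323320017528) (.br (nat_lit 5) (.cons (.br (nat_lit 2) (.cons (.rel (nat_lit 8724152325)) (.cons (.rel (nat_lit 8724152325)) (.cons (.rel (nat_lit 4362076170)) (.cons (.rel (nat_lit 4362076170)) (.cons (.rel (nat_lit 4362076170)) (.cons (.rel (nat_lit 4362076170)) (.cons (.rel (nat_lit 4362080784)) .nil)))))))) .nil)) (.node (.node (.node .leaf (nat_lit 27268323320017582)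 (.br (nat_lit 1) (.cons (.br (nat_lit 5) (.cons (.rel (nat_lit 4311745104)) (.cons (.rel (nat_lit 4312301568)) .nil))) .nil)) .leaf) (nat_lit 27268323320018421) (.br (nat_lit 5) (.cons (.br (nat_lit 2) (.cons (.rel (nat_lit 8657567808)) (.cons (.rel (nat_lit 4362076170)) (.cons (.rel (nat_lit 8724152325)) (.cons (.rel (nat_lit 4362076170)) (.cons (.rel (nat_lit 4362076170)) .nil)))))) (.cons (.br (nat_lit 2) (.cons (.rel (nat_lit 4362076170)) (.cons (.rel (nat_lit 4362076170)) (.cons (.rel (nat_lit 8724152325)) (.cons (.rel (nat_lit 8657567808)) (.cons (.rel (nat_lit 4362080784)) .nil)))))) (.cons (.br (nat_lit 6) (.cons (.rel (nat_lit 42949674240)) (.cons (.rel (nat_lit 25770074112)) (.cons (.rel (nat_lit 25770853440)) (.cons (.rel (nat_lit 25770853440)) (.cons (.rel (nat_lit 25770853440)) (.cons (.rel (nat_lit 38654772288)) (.cons (.rel (nat_lit 21474839040)) (.cons (.rel (nat_lit 21474839040)) (.cons (.rel (nat_lit 25771966464)) (.cons (.rel (nat_lit 38654772288)) (.cons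 (.br (nat_lit 1) (.cons (.rel (nat_lit 8606782464)) (.cons (.rel (nat_lit 17196687360)) (.cons (.rel (nat_lit 17196687360)) (.cons (.rel (nat_lit 17196646680)) (.cons (.rel (nat_lit 4312301568)) (.cons (.rel (nat_lit 4312301568)) (.cons (.rel (nat_lit 8623767552)) .nil)))))))) (.cons (.rel (nat_lit 25770074112)) .nil))))))))))))) .nil)))) .leaf) (nat_lit 27268323320027418) (.br (nat_lit 6) (.cons (.br (nat_lit 5) (.cons (.rel (nat_lit 21475131456)) (.cons (.rel (nat_lit 38654772288)) .nil))) .nil)) (.node .leaf (nat_lit 27268323320027773) (.br (nat_lit 5) (.cons (.br (nat_lit 6) (.cons (.rel (nat_lit 21474870288)) .nil)) .nil)) .leaf))) (nat_lit 27268323320027816) (.br (nat_lit 2) (.cons (.br (nat_lit 5) (.cons (.rel (nat_lit 4362076170)) .nil)) .nil)) (.node (.node (.node (.node .leaf (nat_lit 27268323320027887) (.br (nat_lit 0) (.cons (.br (nat_lit 2) (.cons (.rel (nat_lit 71304720)) (.cons (.rel (nat_lit 71311377)) .nil))) (.cons (.br (nat_lit 1) (.cons (.rel (nat_lit 21499908))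 (.cons (.rel (nat_lit 25165830)) .nil))) .nil))) .leaf) (nat_lit 27268323320033411) (.br (nat_lit 0) (.cons (.br (nat_lit 2) (.cons (.rel (nat_lit 142622736)) (.cons (.rel (nat_lit 142622736)) .nil))) (.cons (.br (nat_lit 2) (.cons (.rel (nat_lit 71307528)) (.cons (.rel (nat_lit 71311377)) .nil))) .nil))) .leaf) (nat_lit 27268323320033912) (.br (nat_lit 1) (.cons (.br (nat_lit 0) (.cons (.rel (nat_lit 21038148)) (.cons (.rel (nat_lit 20971848)) (.cons (.rel (nat_lit 21038148)) (.cons (.rel (nat_lit 25165830)) (.cons (.rel (nat_lit 20975697)) (.cons (.rel (nat_lit 20971848)) (.cons (.rel (nat_lit 25166880)) .nil)))))))) .nil)) (.node .leaf (nat_lit 27268323320034055) (.br (nat_lit 5) (.cons (.br (nat_lit 1) (.cons (.rel (nat_lit 4311762240)) (.cons (.rel (nat_lit 8606716164)) .nil))) .nil)) .leaf)) (nat_lit 27268323320034680) (.br (nat_lit 5) (.cons (.br (nat_lit 4) (.cons (.rel (nat_lit 5368710432)) (.cons (.rel (nat_lit 5368727568)) .nil))) .nil)) (.node (.node .leaf (nat_lit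 27268323320784928) (.br (nat_lit 1) (.cons (.br (nat_lit 3) (.cons (.rel (nat_lit 285218817)) .nil)) .nil)) .leaf) (nat_lit 27268323320785152) (.br (nat_lit 5) (.cons (.br (nat_lit 3) (.cons (.rel (nat_lit 8858763264)) (.cons (.rel (nat_lit 8858763264)) .nil))) .nil)) (.node .leaf (nat_lit 27268323320785528) (.br (nat_lit 5) (.cons (.br (nat_lit 1) (.cons (.rel (nat_lit 4311745104)) (.cons (.rel (nat_lit 4311762240)) (.cons (.rel (nat_lit 4311814212)) .nil)))) .nil)) .leaf))))) (nat_lit 27268323320785582) (.br (nat_lit 5) (.cons (.br (nat_lit 1) (.cons (.rel (nat_lit 4328526864)) (.cons (.rel (nat_lit 4312301568)) (.cons (.rel (nat_lit 8606716164)) .nil)))) (.cons (.br (nat_lit 1) (.cons (.rel (nat_lit 4312301568)) (.cons (.rel (nat_lit 4311745104)) (.cons (.rel (nat_lit 4311745104)) .nil)))) .nil))) (.node (.node (.node (.node (.node (.node .leaf (nat_lit 27268323320785832) (.br (nat_lit 1) (.cons (.br (nat_lit 5) (.cons (.rel (nat_lit 4312795137)) (.cons (.rel (nat_lit 4311745104))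 .nil))) (.cons (.br (nat_lit 5) (.cons (.rel (nat_lit 8623767552)) (.cons (.rel (nat_lit 4311762240)) .nil))) .nil))) .leaf) (nat_lit 27268323320786306) (.br (nat_lit 2) (.cons (.br (nat_lit 5) (.cons (.rel (nat_lit 4362076170)) (.cons (.rel (nat_lit 4362076170)) .nil))) .nil)) .leaf) (nat_lit 27268323320786406) (.br (nat_lit 2) (.cons (.br (nat_lit 4) (.cons (.rel (nat_lit 1140868224)) .nil)) .nil)) (.node .leaf (nat_lit 27268323320786421) (.br (nat_lit 5) (.cons (.br (nat_lit 1) (.cons (.rel (nat_lit 4312794132)) (.cons (.rel (nat_lit 4312794132)) (.cons (.rel (nat_lit 4312797696)) (.cons (.rel (nat_lit 4312794132)) .nil))))) (.cons (.br (nat_lit 1) (.cons (.br (nat_lit 0) (.cons (.rel (nat_lit 22028289)) (.cons (.rel (nat_lit 37765632)) (.cons (.rel (nat_lit 4299686400)) (.cons (.rel (nat_lit 8595439632)) .nil))))) (.cons (.rel (nat_lit 4312301568)) (.cons (.rel (nat_lit 4311745104)) (.cons (.rel (nat_lit 4312301568)) .nil))))) .nil))) .leaf)) (nat_lit 27268323321109112)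 (.br (nat_lit 5) (.cons (.br (nat_lit 1) (.cons (.rel (nat_lit 4312301568)) (.cons (.rel (nat_lit 4311745104)) (.cons (.rel (nat_lit 4312794132)) (.cons (.rel (nat_lit 4311814212)) .nil))))) .nil)) (.node (.node (.node .leaf (nat_lit 27268323321109231) (.br (nat_lit 2) (.cons (.br (nat_lit 4) (.cons (.rel (nat_lit 1141115136)) .nil)) .nil)) .leaf) (nat_lit 27268323321109255) (.br (nat_lit 5) (.cons (.br (nat_lit 1) (.cons (.rel (nat_lit 4311745104)) (.cons (.rel (nat_lit 4311814212)) .nil))) .nil)) .leaf) (nat_lit 27268323321109416) (.br (nat_lit 1) (.cons (.br (nat_lit 4) (.cons (.rel (nat_lit 1090520082)) (.cons (.rel (nat_lit 1090519077)) (.cons (.rel (nat_lit 1090527504)) .nil)))) .nil)) (.node .leaf (nat_lit 27268323321109990) (.br (nat_lit 2) (.cons (.br (nat_lit 5) (.cons (.rel (nat_lit 4362076170)) .nil)) .nil)) .leaf))) (nat_lit 27268323321110005) (.br (nat_lit 1) (.cons (.br (nat_lit 5) (.cons (.rel (nat_lit 4311745104)) (.cons (.rel (nat_lit 4311745104)) .nil))) (.cons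 (.br (nat_lit 5) (.cons (.rel (nat_lit 4328522001)) (.cons (.rel (nat_lit 8623767552)) .nil))) .nil))) (.node (.node (.node (.node .leaf (nat_lit 27268323321305215) (.br (nat_lit 0) (.cons (.br (nat_lit 1) (.cons (.rel (nat_lit 21499908)) .nil)) .nil)) .leaf) (nat_lit 27268323321305863) (.br (nat_lit 1) (.cons (.br (nat_lit 2) (.cons (.rel (nat_lit 84018180)) (.cons (.rel (nat_lit 167773440)) (.cons (.rel (nat_lit 167773440)) .nil)))) .nil)) .leaf) (nat_lit 27268323321305895) (.br (nat_lit 1) (.cons (.br (nat_lit 0) (.cons (.rel (nat_lit 21499908)) (.cons (.rel (nat_lit 37748745)) .nil))) .nil)) (.node .leaf (nat_lit 27268323321306345) (.br (nat_lit 1) (.cons (.br (nat_lit 4) (.cons (.rel (nat_lit 1090520082)) (.cons (.rel (nat_lit 2164785408)) (.cons (.rel (nat_lit 1090585092)) (.cons (.rel (nat_lit 2164277328)) (.cons (.rel (nat_lit 1090521096)) (.cons (.rel (nat_lit 1090781250)) .nil))))))) .nil)) .leaf)) (nat_lit 27268323321306374) (.br (nat_lit 0) (.cons (.br (nat_lit 1)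 (.cons (.rel (nat_lit 37765632)) (.cons (.rel (nat_lit 21499908)) .nil))) .nil)) (.node (.node .leaf (nat_lit 27268323321306649) (.br (nat_lit 1) (.cons (.br (nat_lit 2) (.cons (.rel (nat_lit 83902752)) (.cons (.rel (nat_lit 84934788)) .nil))) (.cons (.br (nat_lit 4) (.cons (.rel (nat_lit 1107558912)) (.cons (.rel (nat_lit 2164277328)) (.cons (.rel (nat_lit 2181046533)) .nil)))) .nil))) .leaf) (nat_lit 27268323321307942) (.br (nat_lit 2) (.cons (.br (nat_lit 5) (.cons (.rel (nat_lit 8724152325)) (.cons (.rel (nat_lit 8724152325)) .nil))) .nil)) (.node .leaf (nat_lit 27268323321308422) (.br (nat_lit 5) (.cons (.br (nat_lit 2) (.cons (.rel (nat_lit 4430238720)) (.cons (.rel (nat_lit 8657567808)) .nil))) .nil)) .leaf)))) (nat_lit 27268323321308438) (.br (nat_lit 2) (.cons (.br (nat_lit 5) (.cons (.rel (nat_lit 4362076170)) .nil)) .nil)) (.node (.node (.node (.node (.node .leaf (nat_lit 27268323321315340) (.br (nat_lit 5) (.cons (.br (nat_lit 2) (.cons (.rel (nat_lit 4362076170))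 (.cons (.rel (nat_lit 4362078225)) .nil))) .nil)) .leaf) (nat_lit 27268323321315379) (.br (nat_lit 2) (.cons (.br (nat_lit 0) (.cons (.rel (nat_lit 71304720)) (.cons (.rel (nat_lit 71304720)) (.cons (.rel (nat_lit 71307528)) (.cons (.rel (nat_lit 71311377)) .nil))))) (.cons (.br (nat_lit 4) (.cons (.rel (nat_lit 1142947845)) (.cons (.rel (nat_lit 1141115136)) .nil))) .nil))) .leaf) (nat_lit 27268323321315455) (.br (nat_lit 2) (.cons (.br (nat_lit 5) (.cons (.rel (nat_lit 4362076170)) .nil)) .nil)) (.node .leaf (nat_lit 27268323321316103) (.br (nat_lit 5) (.cons (.br (nat_lit 3) (.cons (.rel (nat_lit 4563435552)) (.cons (.rel (nat_lit 4563404304)) .nil))) .nil)) .leaf)) (nat_lit 27268323321316233) (.br (nat_lit 2) (.cons (.br (nat_lit 5) (.cons (.rel (nat_lit 4362076170)) .nil)) .nil)) (.node (.node (.node .leaf (nat_lit 27268323321316884) (.br (nat_lit 1) (.cons (.br (nat_lit 2) (.cons (.rel (nat_lit 83895297)) (.cons (.rel (nat_lit 83888640)) .nil))) .nil)) .leaf) (nat_lit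 27268323321317426) (.br (nat_lit 1) (.cons (.br (nat_lit 2) (.cons (.rel (nat_lit 83895297)) .nil)) .nil)) .leaf) (nat_lit 27268323321317512) (.br (nat_lit 0) (.cons (.br (nat_lit 1) (.cons (.rel (nat_lit 21038148)) .nil)) .nil)) (.node .leaf (nat_lit 27268323321318036) (.br (nat_lit 2) (.cons (.br (nat_lit 5) (.cons (.rel (nat_lit 8657567808)) .nil)) .nil)) .leaf))) (nat_lit 27268323321318627) (.br (nat_lit 1) (.cons (.br (nat_lit 2) (.cons (.rel (nat_lit 83895297)) .nil)) .nil)) (.node (.node (.node (.node .leaf (nat_lit 27268324157604472) (.br (nat_lit 0) (.cons (.br (nat_lit 1) (.cons (.rel (nat_lit 37883904)) .nil)) .nil)) .leaf) (nat_lit 27268324158417032) (.br (nat_lit 1) (.cons (.br (nat_lit 2) (.cons (.rel (nat_lit 83902752)) (.cons (.rel (nat_lit 167773440)) .nil))) (.cons (.br (nat_lit 2) (.cons (.rel (nat_lit 100992000)) (.cons (.rel (nat_lit 83919888)) .nil))) .nil))) .leaf) (nat_lit 27268324158418396) (.br (nat_lit 1) (.cons (.br (nat_lit 2) (.cons (.rel (nat_lit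 151003200)) (.cons (.rel (nat_lit 83902752)) .nil))) .nil)) (.node .leaf (nat_lit 27268324158433580) (.br (nat_lit 2) (.cons (.br (nat_lit 3) (.cons (.rel (nat_lit 671088960)) .nil)) .nil)) .leaf)) (nat_lit 27268324158434555) (.br (nat_lit 4) (.cons (.br (nat_lit 5) (.cons (.rel (nat_lit 5368709382)) .nil)) .nil)) (.node (.node .leaf (nat_lit 27268324158578745) (.br (nat_lit 1) (.cons (.br (nat_lit 2) (.cons (.rel (nat_lit 83902752)) .nil)) .nil)) .leaf) (nat_lit 27268324158887388) (.br (nat_lit 2) (.cons (.br (nat_lit 1) (.cons (.rel (nat_lit 83888640)) (.cons (.rel (nat_lit 83919888)) .nil))) .nil)) (.node .leaf (nat_lit 27268324160169322) (.br (nat_lit 1) (.cons (.br (nat_lit 3) (.cons (.rel (nat_lit 285278244)) .nil)) .nil)) .leaf))))))))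

/-- refutations 40 -/
def e40 : EX := (.node (.node (.node (.node (.node (.node (.node .leaf (nat_lit 27268415636204802) (.br (nat_lit 1) (.cons (.br (nat_lit 3) (.cons (.rel (nat_lit 285213954)) .nil)) .nil)) .leaf) (nat_lit 27269056811051144) (.br (nat_lit 1) (.cons (.br (nat_lit 2) (.cons (.rel (nat_lit 167773440)) .nil)) .nil)) (.node .leaf (nat_lit 27269056811520936) (.br (nat_lit 1) (.cons (.br (nat_lit 3) (.cons (.rel (nat_lit 285212949)) .nil)) .nil)) .leaf)) (nat_lit 27269057694675130) (.br (nat_lit 1) (.cons (.br (nat_lit 2) (.cons (.rel (nat_lit 83888640)) .nil)) .nil)) (.node (.node .leaf (nat_lit 27269057694676255) (.br (nat_lit 1) (.cons (.br (nat_lit 2) (.cons (.rel (nat_lit 83888640)) .nil)) .nil)) .leaf) (nat_lit 27269057696065722) (.br (nat_lit 2) (.cons (.br (nat_lit 4) (.cons (.rel (nat_lit 1141129248)) .nil)) .nil)) (.node .leaf (nat_lit 27269057696066472) (.br (nat_lit 1) (.cons (.br (nat_lit 2) (.cons (.rel (nat_lit 83895297)) (.cons (.rel (nat_lit 83902752))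 .nil))) (.cons (.br (nat_lit 2) (.cons (.rel (nat_lit 83955729)) (.cons (.rel (nat_lit 83888640)) .nil))) .nil))) .leaf))) (nat_lit 27269057696066847) (.br (nat_lit 1) (.cons (.br (nat_lit 2) (.cons (.rel (nat_lit 83888640)) .nil)) .nil)) (.node (.node (.node .leaf (nat_lit 27269057696211130) (.br (nat_lit 2) (.cons (.br (nat_lit 5) (.cons (.rel (nat_lit 8657567808)) .nil)) .nil)) .leaf) (nat_lit 27269057696212255) (.br (nat_lit 2) (.cons (.br (nat_lit 4) (.cons (.rel (nat_lit 1141129248)) .nil)) .nil)) (.node .leaf (nat_lit 27269057696510138) (.br (nat_lit 2) (.cons (.br (nat_lit 4) (.cons (.rel (nat_lit 1141116930)) .nil)) .nil)) .leaf)) (nat_lit 27269057696510888) (.br (nat_lit 2) (.cons (.br (nat_lit 4) (.cons (.rel (nat_lit 1141129248)) (.cons (.rel (nat_lit 1141116930)) .nil))) .nil)) (.node (.node .leaf (nat_lit 27269057696511263) (.br (nat_lit 1) (.cons (.br (nat_lit 2) (.cons (.rel (nat_lit 83888640)) .nil)) .nil)) .leaf) (nat_lit 27269057697278138) (.br (nat_lit 4)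 (.cons (.br (nat_lit 1) (.cons (.rel (nat_lit 1090539777)) (.cons (.rel (nat_lit 2164277328)) .nil))) .nil)) .leaf))) (nat_lit 27269057697278584) (.br (nat_lit 2) (.cons (.br (nat_lit 4) (.cons (.rel (nat_lit 1141129248)) .nil)) .nil)) (.node (.node (.node (.node .leaf (nat_lit 27269057697278888) (.br (nat_lit 1) (.cons (.br (nat_lit 2) (.cons (.rel (nat_lit 83888640)) .nil)) .nil)) .leaf) (nat_lit 27269057697279263) (.br (nat_lit 2) (.cons (.br (nat_lit 4) (.cons (.rel (nat_lit 1141129248)) .nil)) .nil)) (.node .leaf (nat_lit 27269057697602472) (.br (nat_lit 1) (.cons (.br (nat_lit 4) (.cons (.rel (nat_lit 2181039108)) .nil)) .nil)) .leaf)) (nat_lit 27269057697602847) (.br (nat_lit 1) (.cons (.br (nat_lit 2) (.cons (.rel (nat_lit 83955729)) .nil)) .nil)) (.node (.node .leaf (nat_lit 27269057784291639) (.br (nat_lit 0) (.cons (.br (nat_lit 1) (.cons (.rel (nat_lit 20975697)) .nil)) .nil)) .leaf) (nat_lit 27269057784599928) (.br (nat_lit 1) (.cons (.br (nat_lit 2) (.cons (.rel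 (nat_lit 83888640)) .nil)) .nil)) .leaf)) (nat_lit 27269057785614968) (.br (nat_lit 0) (.cons (.br (nat_lit 1) (.cons (.rel (nat_lit 25559361)) .nil)) .nil)) (.node (.node (.node .leaf (nat_lit 27269057785615111) (.br (nat_lit 0) (.cons (.br (nat_lit 1) (.cons (.rel (nat_lit 20975697)) .nil)) .nil)) .leaf) (nat_lit 27269060405570168) (.br (nat_lit 3) (.cons (.br (nat_lit 4) (.cons (.rel (nat_lit 1342525440)) .nil)) .nil)) (.node .leaf (nat_lit 27269060405570936) (.br (nat_lit 4) (.cons (.br (nat_lit 2) (.cons (.rel (nat_lit 1140851088)) (.cons (.rel (nat_lit 1141115136)) (.cons (.rel (nat_lit 1141116930)) .nil)))) (.cons (.br (nat_lit 2) (.cons (.rel (nat_lit 1140851088)) (.cons (.rel (nat_lit 1141116930)) (.cons (.rel (nat_lit 1141115136)) .nil)))) .nil))) .leaf)) (nat_lit 27269060405571097) (.br (nat_lit 2) (.cons (.br (nat_lit 3) (.cons (.rel (nat_lit 335823120)) (.cons (.rel (nat_lit 603981057)) .nil))) .nil)) (.node (.node .leaf (nat_lit 27269060406039303) (.br (nat_lit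 2) (.cons (.br (nat_lit 3) (.cons (.rel (nat_lit 603985920)) .nil)) .nil)) .leaf) (nat_lit 27269060406039785) (.br (nat_lit 1) (.cons (.br (nat_lit 4) (.cons (.rel (nat_lit 1090651392)) .nil)) .nil)) .leaf)))) (nat_lit 27269060406040089) (.br (nat_lit 5) (.cons (.br (nat_lit 2) (.cons (.rel (nat_lit 4362076170)) (.cons (.rel (nat_lit 4362109188)) .nil))) .nil)) (.node (.node (.node (.node (.node .leaf (nat_lit 27269060407055272) (.br (nat_lit 1) (.cons (.br (nat_lit 3) (.cons (.rel (nat_lit 285279249)) .nil)) .nil)) .leaf) (nat_lit 27269182313033205) (.br (nat_lit 1) (.cons (.br (nat_lit 3) (.cons (.rel (nat_lit 285298944)) .nil)) .nil)) (.node .leaf (nat_lit 27269182313177845) (.br (nat_lit 0) (.cons (.br (nat_lit 1) (.cons (.rel (nat_lit 25166880)) .nil)) .nil)) .leaf)) (nat_lit 27269182313476282) (.br (nat_lit 5) (.cons (.br (nat_lit 0) (.cons (.rel (nat_lit 4303362048)) (.cons (.rel (nat_lit 4299195456)) .nil))) .nil)) (.node (.node .leaf (nat_lit 27269182313476723) (.br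 (nat_lit 2) (.cons (.br (nat_lit 5) (.cons (.rel (nat_lit 8724152325)) .nil)) .nil)) .leaf) (nat_lit 27269182313476782) (.br (nat_lit 6) (.cons (.br (nat_lit 2) (.cons (.rel (nat_lit 17249079297)) (.cons (.rel (nat_lit 17247309828)) .nil))) .nil)) (.node .leaf (nat_lit 27269182313477382) (.br (nat_lit 1) (.cons (.br (nat_lit 5) (.cons (.rel (nat_lit 4311745104)) (.cons (.rel (nat_lit 4312797696)) .nil))) (.cons (.br (nat_lit 6) (.cons (.rel (nat_lit 17196687360)) (.cons (.rel (nat_lit 17196794112)) .nil))) .nil))) .leaf))) (nat_lit 27269190901875320) (.br (nat_lit 1) (.cons (.br (nat_lit 4) (.cons (.rel (nat_lit 1090521096)) (.cons (.rel (nat_lit 1090585092)) .nil))) (.cons (.br (nat_lit 3) (.cons (.rel (nat_lit 285212949)) (.cons (.rel (nat_lit 285212949)) .nil))) .nil))) (.node (.node (.node .leaf (nat_lit 27269190902137464) (.br (nat_lit 1) (.cons (.br (nat_lit 2) (.cons (.rel (nat_lit 100925700)) (.cons (.rel (nat_lit 83888640)) .nil))) (.cons (.br (nat_lit 2) (.cons (.rel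 (nat_lit 83895297)) (.cons (.rel (nat_lit 83888640)) .nil))) .nil))) .leaf) (nat_lit 27269190902958211) (.br (nat_lit 0) (.cons (.br (nat_lit 1) (.cons (.rel (nat_lit 20975697)) .nil)) .nil)) (.node .leaf (nat_lit 27269190904179320) (.br (nat_lit 2) (.cons (.br (nat_lit 4) (.cons (.rel (nat_lit 1141116930)) (.cons (.rel (nat_lit 2214593028)) .nil))) (.cons (.br (nat_lit 5) (.cons (.rel (nat_lit 4362077220)) (.cons (.rel (nat_lit 4362076170)) .nil))) .nil))) .leaf)) (nat_lit 27270042145797032) (.br (nat_lit 3) (.cons (.br (nat_lit 5) (.cons (.rel (nat_lit 4563407112)) .nil)) .nil)) (.node (.node .leaf (nat_lit 27270042145797482) (.br (nat_lit 1) (.cons (.br (nat_lit 0) (.cons (.rel (nat_lit 42227712)) (.cons (.rel (nat_lit 21499908)) (.cons (.rel (nat_lit 20975697)) (.cons (.rel (nat_lit 20975697)) .nil))))) (.cons (.br (nat_lit 2) (.cons (.rel (nat_lit 83895297)) (.cons (.rel (nat_lit 83906565)) .nil))) .nil))) .leaf) (nat_lit 27270310941502840) (.br (nat_lit 1) (.cons (.br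 (nat_lit 2) (.cons (.rel (nat_lit 84181056)) .nil)) .nil)) .leaf))) (nat_lit 27270310941962247) (.br (nat_lit 0) (.cons (.br (nat_lit 1) (.cons (.rel (nat_lit 20975697)) .nil)) .nil)) (.node (.node (.node (.node .leaf (nat_lit 27270310941962390) (.br (nat_lit 1) (.cons (.br (nat_lit 2) (.cons (.rel (nat_lit 83888640)) .nil)) .nil)) .leaf) (nat_lit 27270310941971864) (.br (nat_lit 1) (.cons (.br (nat_lit 3) (.cons (.rel (nat_lit 285278244)) .nil)) .nil)) (.node .leaf (nat_lit 27270311302211895) (.br (nat_lit 0) (.cons (.br (nat_lit 1) (.cons (.rel (nat_lit 20971848)) .nil)) .nil)) .leaf)) (nat_lit 27270313353244124) (.br (nat_lit 1) (.cons (.br (nat_lit 3) (.cons (.rel (nat_lit 285221376)) .nil)) .nil)) (.node (.node .leaf (nat_lit 27270313562942697) (.br (nat_lit 2) (.cons (.br (nat_lit 4) (.cons (.rel (nat_lit 1140868224)) .nil)) .nil)) .leaf) (nat_lit 27270313562942840) (.br (nat_lit 2) (.cons (.br (nat_lit 4) (.cons (.rel (nat_lit 1140868224)) .nil)) .nil)) .leaf)) (nat_lit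 27270313563403551) (.br (nat_lit 0) (.cons (.br (nat_lit 1) (.cons (.rel (nat_lit 21038148)) .nil)) .nil)) (.node (.node (.node .leaf (nat_lit 27270313563411689) (.br (nat_lit 3) (.cons (.br (nat_lit 4) (.cons (.rel (nat_lit 1342440450)) .nil)) .nil)) .leaf) (nat_lit 27270313563411832) (.br (nat_lit 4) (.cons (.br (nat_lit 2) (.cons (.rel (nat_lit 1140868224)) (.cons (.rel (nat_lit 1141178376)) .nil))) .nil)) (.node .leaf (nat_lit 27270313925137016) (.br (nat_lit 0) (.cons (.br (nat_lit 1) (.cons (.rel (nat_lit 21561345)) .nil)) .nil)) .leaf)) (nat_lit 27270313925137945) (.br (nat_lit 0) (.cons (.br (nat_lit 2) (.cons (.rel (nat_lit 71323650)) .nil)) .nil)) (.node (.node .leaf (nat_lit 27270313925205279) (.br (nat_lit 0) (.cons (.br (nat_lit 1) (.cons (.rel (nat_lit 20975697)) .nil)) .nil)) .leaf) (nat_lit 27270313925401351) (.br (nat_lit 1) (.cons (.br (nat_lit 2) (.cons (.rel (nat_lit 83919888)) .nil)) .nil)) .leaf))))) (nat_lit 27270314010359142) (.br (nat_lit 1) (.cons (.br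 (nat_lit 2) (.cons (.rel (nat_lit 83888640)) .nil)) .nil)) (.node (.node (.node (.node (.node (.node .leaf (nat_lit 27270314011732218) (.br (nat_lit 1) (.cons (.br (nat_lit 3) (.cons (.rel (nat_lit 285221376)) .nil)) .nil)) .leaf) (nat_lit 27270314011733279) (.br (nat_lit 4) (.cons (.br (nat_lit 5) (.cons (.rel (nat_lit 5368783104)) .nil)) .nil)) (.node .leaf (nat_lit 27270314011748538) (.br (nat_lit 1) (.cons (.br (nat_lit 2) (.cons (.rel (nat_lit 100925700)) .nil)) .nil)) .leaf)) (nat_lit 27270314011749663) (.br (nat_lit 2) (.cons (.br (nat_lit 5) (.cons (.rel (nat_lit 4362076170)) .nil)) .nil)) (.node (.node .leaf (nat_lit 27270314011749734) (.br (nat_lit 2) (.cons (.br (nat_lit 5) (.cons (.rel (nat_lit 8657567808)) .nil)) .nil)) .leaf) (nat_lit 27270314011895071) (.br (nat_lit 4) (.cons (.br (nat_lit 5) (.cons (.rel (nat_lit 5368742400)) .nil)) .nil)) (.node .leaf (nat_lit 27270314011895285) (.br (nat_lit 2) (.cons (.br (nat_lit 1) (.cons (.rel (nat_lit 83888640)) (.cons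 (.rel (nat_lit 83951880)) .nil))) .nil)) .leaf))) (nat_lit 27270314012192793) (.br (nat_lit 2) (.cons (.br (nat_lit 1) (.cons (.rel (nat_lit 83888640)) (.cons (.rel (nat_lit 100992000)) .nil))) .nil)) (.node (.node (.node .leaf (nat_lit 27270314012194150) (.br (nat_lit 2) (.cons (.br (nat_lit 4) (.cons (.rel (nat_lit 1142947845)) .nil)) .nil)) .leaf) (nat_lit 27270314012194293) (.br (nat_lit 2) (.cons (.br (nat_lit 1) (.cons (.rel (nat_lit 83888640)) (.cons (.rel (nat_lit 83951880)) .nil))) .nil)) (.node .leaf (nat_lit 27270314012962293) (.br (nat_lit 1) (.cons (.br (nat_lit 2) (.cons (.rel (nat_lit 100992000)) .nil)) .nil)) .leaf)) (nat_lit 27270314013284984) (.br (nat_lit 1) (.cons (.br (nat_lit 2) (.cons (.rel (nat_lit 83888640)) (.cons (.rel (nat_lit 83951880)) .nil))) .nil)) (.node (.node .leaf (nat_lit 27270314013285734) (.br (nat_lit 2) (.cons (.br (nat_lit 5) (.cons (.rel (nat_lit 4362076170)) .nil)) .nil)) .leaf) (nat_lit 27270314013285877) (.br (nat_lit 1) (.cons (.br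 (nat_lit 2) (.cons (.rel (nat_lit 84018180)) .nil)) .nil)) .leaf))) (nat_lit 27270314013492725) (.br (nat_lit 2) (.cons (.br (nat_lit 5) (.cons (.br (nat_lit 4) (.cons (.rel (nat_lit 1207975938)) (.cons (.rel (nat_lit 2214593028)) (.cons (.rel (nat_lit 6442455360)) (.cons (.rel (nat_lit 10737434880)) .nil))))) .nil)) .nil)) (.node (.node (.node (.node .leaf (nat_lit 27273532090103142) (.br (nat_lit 1) (.cons (.br (nat_lit 4) (.cons (.rel (nat_lit 1107558912)) .nil)) .nil)) .leaf) (nat_lit 27273532091493734) (.br (nat_lit 1) (.cons (.br (nat_lit 5) (.cons (.rel (nat_lit 8606782464)) .nil)) .nil)) (.node .leaf (nat_lit 27273532091630343) (.br (nat_lit 4) (.cons (.br (nat_lit 5) (.cons (.rel (nat_lit 5368709382)) .nil)) .nil)) .leaf)) (nat_lit 27273532091937704) (.br (nat_lit 1) (.cons (.br (nat_lit 5) (.cons (.rel (nat_lit 4311762240)) .nil)) .nil)) (.node (.node .leaf (nat_lit 27273532091938150) (.br (nat_lit 2) (.cons (.br (nat_lit 5) (.cons (.rel (nat_lit 4362076170)) .nil))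 .nil)) .leaf) (nat_lit 27273532092706150) (.br (nat_lit 1) (.cons (.br (nat_lit 4) (.cons (.rel (nat_lit 1107558912)) (.cons (.rel (nat_lit 1090544640)) .nil))) .nil)) .leaf)) (nat_lit 27273534623462312) (.br (nat_lit 1) (.cons (.br (nat_lit 4) (.cons (.rel (nat_lit 1091846160)) .nil)) .nil)) (.node (.node (.node .leaf (nat_lit 27273534624852154) (.br (nat_lit 2) (.cons (.br (nat_lit 5) (.cons (.rel (nat_lit 4362076170)) .nil)) .nil)) .leaf) (nat_lit 27273534624853279) (.br (nat_lit 2) (.cons (.br (nat_lit 5) (.cons (.rel (nat_lit 4429447296)) .nil)) .nil)) (.node .leaf (nat_lit 27273534624998901) (.br (nat_lit 1) (.cons (.br (nat_lit 3) (.cons (.rel (nat_lit 302252064)) .nil)) .nil)) .leaf)) (nat_lit 27273534625296570) (.br (nat_lit 1) (.cons (.br (nat_lit 4) (.cons (.rel (nat_lit 1107558912)) (.cons (.rel (nat_lit 1090544640)) .nil))) .nil)) (.node (.node .leaf (nat_lit 27273534625297070) (.br (nat_lit 1) (.cons (.br (nat_lit 3) (.cons (.rel (nat_lit 285218817)) .nil)) .nil))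 .leaf) (nat_lit 27273534625297320) (.br (nat_lit 1) (.cons (.br (nat_lit 4) (.cons (.rel (nat_lit 1107558912)) .nil)) .nil)) .leaf)))) (nat_lit 27273534625297695) (.br (nat_lit 1) (.cons (.br (nat_lit 2) (.cons (.rel (nat_lit 83888640)) .nil)) .nil)) (.node (.node (.node (.node (.node .leaf (nat_lit 27273534625297766) (.br (nat_lit 2) (.cons (.br (nat_lit 1) (.cons (.rel (nat_lit 100992000)) (.cons (.rel (nat_lit 83895297)) .nil))) .nil)) .leaf) (nat_lit 27273534625305958) (.br (nat_lit 0) (.cons (.br (nat_lit 3) (.cons (.rel (nat_lit 542114049)) .nil)) .nil)) (.node .leaf (nat_lit 27273534626064570) (.br (nat_lit 1) (.cons (.br (nat_lit 4) (.cons (.rel (nat_lit 1107558912)) (.cons (.rel (nat_lit 1090520082)) .nil))) .nil)) .leaf)) (nat_lit 27273534626065320) (.br (nat_lit 1) (.cons (.br (nat_lit 2) (.cons (.rel (nat_lit 83888640)) .nil)) .nil)) (.node (.node .leaf (nat_lit 27273534626065695) (.br (nat_lit 1) (.cons (.br (nat_lit 4) (.cons (.rel (nat_lit 1107558912)) (.cons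 (.rel (nat_lit 1090544640)) .nil))) .nil)) .leaf) (nat_lit 27273534626065766) (.br (nat_lit 4) (.cons (.br (nat_lit 5) (.cons (.rel (nat_lit 10737434880)) .nil)) .nil)) (.node .leaf (nat_lit 27273534626065909) (.br (nat_lit 5) (.cons (.br (nat_lit 1) (.cons (.rel (nat_lit 4311762240)) (.cons (.rel (nat_lit 4328522001)) .nil))) .nil)) .leaf))) (nat_lit 27273537408479418) (.br (nat_lit 2) (.cons (.br (nat_lit 5) (.cons (.rel (nat_lit 4362076170)) .nil)) .nil)) (.node (.node (.node .leaf (nat_lit 27273537408480007) (.br (nat_lit 1) (.cons (.br (nat_lit 0) (.cons (.rel (nat_lit 37750800)) (.cons (.rel (nat_lit 37750800)) (.cons (.rel (nat_lit 25239552)) (.cons (.rel (nat_lit 37765632)) .nil))))) .nil)) .leaf) (nat_lit 27273537408480168) (.br (nat_lit 1) (.cons (.br (nat_lit 5) (.cons (.rel (nat_lit 4311762240)) (.cons (.rel (nat_lit 4328522001)) .nil))) .nil)) (.node .leaf (nat_lit 27273537408779015) (.br (nat_lit 1) (.cons (.br (nat_lit 2) (.cons (.rel (nat_lit 103024704)) .nil))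 .nil)) .leaf)) (nat_lit 27273537408779765) (.br (nat_lit 1) (.cons (.br (nat_lit 5) (.cons (.rel (nat_lit 4311814212)) .nil)) .nil)) (.node (.node .leaf (nat_lit 27273537409870010) (.br (nat_lit 1) (.cons (.br (nat_lit 5) (.cons (.rel (nat_lit 8623767552)) .nil)) .nil)) .leaf) (nat_lit 27273537409870599) (.br (nat_lit 5) (.cons (.br (nat_lit 2) (.cons (.rel (nat_lit 4362076170)) (.cons (.rel (nat_lit 4362076170)) .nil))) .nil)) .leaf))) (nat_lit 27273537409874075) (.br (nat_lit 0) (.cons (.br (nat_lit 1) (.cons (.rel (nat_lit 20971848)) .nil)) .nil)) (.node (.node (.node (.node .leaf (nat_lit 27273537410007815) (.br (nat_lit 4) (.cons (.br (nat_lit 5) (.cons (.rel (nat_lit 5368710432)) .nil)) .nil)) .leaf) (nat_lit 27273537410015418) (.br (nat_lit 1) (.cons (.br (nat_lit 5) (.cons (.rel (nat_lit 4328539137)) .nil)) .nil)) (.node .leaf (nat_lit 27273537410016757) (.br (nat_lit 1) (.cons (.br (nat_lit 5) (.cons (.rel (nat_lit 4311762240)) .nil)) .nil)) .leaf)) (nat_lit 27273537410314426)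 (.br (nat_lit 5) (.cons (.br (nat_lit 1) (.cons (.rel (nat_lit 4311745104)) (.cons (.rel (nat_lit 4312301568)) .nil))) .nil)) (.node (.node .leaf (nat_lit 27273537410315176) (.br (nat_lit 5) (.cons (.br (nat_lit 2) (.cons (.rel (nat_lit 4362076170)) (.cons (.rel (nat_lit 4362076170)) .nil))) .nil)) .leaf) (nat_lit 27273537411083176) (.br (nat_lit 1) (.cons (.br (nat_lit 2) (.cons (.rel (nat_lit 83906565)) .nil)) .nil)) .leaf)) (nat_lit 27273537411083765) (.br (nat_lit 2) (.cons (.br (nat_lit 5) (.cons (.br (nat_lit 1) (.cons (.rel (nat_lit 103024704)) (.cons (.rel (nat_lit 4445982720)) .nil))) .nil)) .nil)) (.node (.node (.node .leaf (nat_lit 27273537411406760) (.br (nat_lit 1) (.cons (.br (nat_lit 2) (.cons (.rel (nat_lit 83906565)) .nil)) .nil)) .leaf) (nat_lit 27273537411611399) (.br (nat_lit 1) (.cons (.br (nat_lit 3) (.cons (.rel (nat_lit 285221376)) .nil)) .nil)) (.node .leaf (nat_lit 27273537411613304) (.br (nat_lit 3) (.cons (.br (nat_lit 4) (.cons (.rel (nat_lit 2415919392))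 .nil)) .nil)) .leaf)) (nat_lit 27273686784721046) (.br (nat_lit 0) (.cons (.br (nat_lit 1) (.cons (.rel (nat_lit 21499908)) .nil)) .nil)) (.node (.node .leaf (nat_lit 27273747783576309) (.br (nat_lit 1) (.cons (.br (nat_lit 6) (.cons (.rel (nat_lit 17196663816)) .nil)) .nil)) .leaf) (nat_lit 27273747783576327) (.br (nat_lit 1) (.cons (.br (nat_lit 5) (.cons (.rel (nat_lit 4312301568)) .nil)) .nil)) .leaf))))))

/-- refutations 41 -/
def e41 : EX := (.node (.node (.node (.node (.node (.node (.node .leaf (nat_lit 27278720410596710) (.br (nat_lit 2) (.cons (.br (nat_lit 4) (.cons (.br (nat_lit 5) (.cons (.rel (nat_lit 5368714245)) .nil)) .nil)) .nil)) .leaf) (nat_lit 27278720410895272) (.br (nat_lit 1) (.cons (.br (nat_lit 3) (.cons (.rel (nat_lit 570429696)) (.cons (.rel (nat_lit 553650240)) (.cons (.rel (nat_lit 285221376)) .nil)))) .nil)) (.node .leaf (nat_lit 27278720411986856) (.br (nat_lit 1) (.cons (.br (nat_lit 4) (.cons (.rel (nat_lit 2165329920)) .nil)) .nil)) .leaf))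 (nat_lit 27278720411987302) (.br (nat_lit 1) (.cons (.br (nat_lit 5) (.cons (.rel (nat_lit 8606782464)) .nil)) .nil)) (.node (.node .leaf (nat_lit 27278720412431272) (.br (nat_lit 2) (.cons (.br (nat_lit 5) (.cons (.rel (nat_lit 4362076170)) (.cons (.br (nat_lit 3) (.cons (.rel (nat_lit 8860471296)) (.cons (.rel (nat_lit 4564451457)) .nil))) .nil))) .nil)) .leaf) (nat_lit 27278720412431718) (.br (nat_lit 5) (.cons (.br (nat_lit 2) (.cons (.rel (nat_lit 8657567808)) (.cons (.rel (nat_lit 4362076170)) .nil))) .nil)) .leaf)) (nat_lit 27278720413199272) (.br (nat_lit 1) (.cons (.br (nat_lit 2) (.cons (.rel (nat_lit 83888640)) .nil)) .nil)) (.node (.node (.node .leaf (nat_lit 27278720413199718) (.br (nat_lit 1) (.cons (.br (nat_lit 4) (.cons (.rel (nat_lit 1107558912)) (.cons (.rel (nat_lit 1090544640)) .nil))) .nil)) .leaf) (nat_lit 27278722943955130) (.br (nat_lit 1) (.cons (.br (nat_lit 5) (.cons (.rel (nat_lit 4312301568)) .nil)) .nil)) .leaf) (nat_lit 27278722944254138) (.br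 (nat_lit 1) (.cons (.br (nat_lit 2) (.cons (.rel (nat_lit 83888640)) .nil)) .nil)) (.node (.node .leaf (nat_lit 27278722944254888) (.br (nat_lit 1) (.cons (.br (nat_lit 5) (.cons (.rel (nat_lit 4312797696)) (.cons (.rel (nat_lit 4312301568)) .nil))) .nil)) .leaf) (nat_lit 27278722944255263) (.br (nat_lit 2) (.cons (.br (nat_lit 1) (.cons (.rel (nat_lit 100992000)) (.cons (.rel (nat_lit 83888640)) .nil))) .nil)) .leaf))) (nat_lit 27278722944255477) (.br (nat_lit 1) (.cons (.br (nat_lit 4) (.cons (.rel (nat_lit 1090520082)) .nil)) .nil)) (.node (.node (.node (.node .leaf (nat_lit 27278722944561338) (.br (nat_lit 0) (.cons (.br (nat_lit 3) (.cons (.rel (nat_lit 272654592)) .nil)) .nil)) .leaf) (nat_lit 27278722945346847) (.br (nat_lit 2) (.cons (.br (nat_lit 5) (.cons (.rel (nat_lit 4429447296)) .nil)) .nil)) (.node .leaf (nat_lit 27278722945346918) (.br (nat_lit 1) (.cons (.br (nat_lit 5) (.cons (.rel (nat_lit 4312301568)) .nil)) .nil)) .leaf)) (nat_lit 27278722945790138) (.br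 (nat_lit 1) (.cons (.br (nat_lit 2) (.cons (.rel (nat_lit 83888640)) .nil)) .nil)) (.node (.node .leaf (nat_lit 27278722945790888) (.br (nat_lit 2) (.cons (.br (nat_lit 4) (.cons (.br (nat_lit 3) (.cons (.rel (nat_lit 1610743809)) (.cons (.rel (nat_lit 1342525440)) .nil))) .nil)) .nil)) .leaf) (nat_lit 27278722945791263) (.br (nat_lit 1) (.cons (.br (nat_lit 2) (.cons (.rel (nat_lit 83890434)) (.cons (.rel (nat_lit 83888640)) .nil))) .nil)) .leaf)) (nat_lit 27278722945791334) (.br (nat_lit 5) (.cons (.br (nat_lit 3) (.cons (.rel (nat_lit 4563421440)) (.cons (.rel (nat_lit 8860471296)) .nil))) .nil)) (.node (.node (.node .leaf (nat_lit 27278722946558138) (.br (nat_lit 2) (.cons (.br (nat_lit 5) (.cons (.rel (nat_lit 8657567808)) (.cons (.rel (nat_lit 4429447296)) .nil))) .nil)) .leaf) (nat_lit 27278722946558888) (.br (nat_lit 1) (.cons (.br (nat_lit 2) (.cons (.rel (nat_lit 83888640)) .nil)) .nil)) .leaf) (nat_lit 27278722946559263) (.br (nat_lit 1) (.cons (.br (nat_lit 2) (.cons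 (.rel (nat_lit 83888640)) (.cons (.rel (nat_lit 83902752)) .nil))) .nil)) (.node (.node .leaf (nat_lit 27278722946882472) (.br (nat_lit 1) (.cons (.br (nat_lit 2) (.cons (.rel (nat_lit 84181056)) .nil)) .nil)) .leaf) (nat_lit 27278722946882847) (.br (nat_lit 1) (.cons (.br (nat_lit 5) (.cons (.rel (nat_lit 4311745104)) .nil)) .nil)) .leaf)))) (nat_lit 27278725728972986) (.br (nat_lit 1) (.cons (.br (nat_lit 5) (.cons (.rel (nat_lit 4312301568)) .nil)) .nil)) (.node (.node (.node (.node (.node .leaf (nat_lit 27278725728973575) (.br (nat_lit 5) (.cons (.br (nat_lit 2) (.cons (.rel (nat_lit 8657567808)) (.cons (.rel (nat_lit 4362338388)) (.cons (.rel (nat_lit 4362076170)) .nil)))) .nil)) .leaf) (nat_lit 27278725728974325) (.br (nat_lit 2) (.cons (.br (nat_lit 5) (.cons (.br (nat_lit 3) (.cons (.rel (nat_lit 4564451457)) (.cons (.rel (nat_lit 8860471296)) .nil))) .nil)) .nil)) (.node .leaf (nat_lit 27278725729272583) (.br (nat_lit 1) (.cons (.br (nat_lit 5) (.cons (.rel (nat_lit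 4311745104)) .nil)) .nil)) .leaf)) (nat_lit 27278725729579040) (.br (nat_lit 1) (.cons (.br (nat_lit 3) (.cons (.rel (nat_lit 285221376)) .nil)) .nil)) (.node (.node .leaf (nat_lit 27278725729579194) (.br (nat_lit 1) (.cons (.br (nat_lit 3) (.cons (.rel (nat_lit 301991040)) .nil)) .nil)) .leaf) (nat_lit 27278725729579694) (.br (nat_lit 3) (.cons (.br (nat_lit 1) (.cons (.rel (nat_lit 570507264)) (.cons (.rel (nat_lit 285218817)) .nil))) .nil)) .leaf)) (nat_lit 27278725729579944) (.br (nat_lit 3) (.cons (.br (nat_lit 4) (.cons (.rel (nat_lit 2684354628)) .nil)) .nil)) (.node (.node (.node .leaf (nat_lit 27278725730347259) (.br (nat_lit 0) (.cons (.br (nat_lit 1) (.cons (.rel (nat_lit 25198848)) .nil)) .nil)) .leaf) (nat_lit 27278725730364024) (.br (nat_lit 1) (.cons (.br (nat_lit 2) (.cons (.rel (nat_lit 83895297)) .nil)) .nil)) .leaf) (nat_lit 27278725730509432) (.br (nat_lit 1) (.cons (.br (nat_lit 2) (.cons (.br (nat_lit 5) (.cons (.rel (nat_lit 4362076170)) .nil)) .nil))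 .nil)) (.node (.node .leaf (nat_lit 27278725730509575) (.br (nat_lit 1) (.cons (.br (nat_lit 3) (.cons (.rel (nat_lit 302252064)) .nil)) .nil)) .leaf) (nat_lit 27278725730509736) (.br (nat_lit 1) (.cons (.br (nat_lit 2) (.cons (.rel (nat_lit 84018180)) .nil)) .nil)) .leaf))) (nat_lit 27278725730510325) (.br (nat_lit 1) (.cons (.br (nat_lit 2) (.cons (.rel (nat_lit 84934788)) .nil)) .nil)) (.node (.node (.node (.node .leaf (nat_lit 27278725730808440) (.br (nat_lit 2) (.cons (.br (nat_lit 5) (.cons (.br (nat_lit 3) (.cons (.br (nat_lit 0) (.cons (.rel (nat_lit 142622736)) (.cons (.rel (nat_lit 272761344)) (.cons (.rel (nat_lit 272761344)) (.cons (.rel (nat_lit 4299169860)) .nil))))) (.cons (.rel (nat_lit 4564451457)) .nil))) .nil)) .nil)) .leaf) (nat_lit 27278725730808494) (.br (nat_lit 1) (.cons (.br (nat_lit 3) (.cons (.rel (nat_lit 285218817)) .nil)) .nil)) (.node .leaf (nat_lit 27278725730808744) (.br (nat_lit 2) (.cons (.br (nat_lit 5) (.cons (.rel (nat_lit 4362076170)) .nil))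 .nil)) .leaf)) (nat_lit 27278725730809094) (.br (nat_lit 0) (.cons (.br (nat_lit 3) (.cons (.rel (nat_lit 272631048)) .nil)) .nil)) (.node (.node .leaf (nat_lit 27278725731575840) (.br (nat_lit 3) (.cons (.br (nat_lit 4) (.cons (.rel (nat_lit 1610630400)) .nil)) .nil)) .leaf) (nat_lit 27278725731576440) (.br (nat_lit 2) (.cons (.br (nat_lit 5) (.cons (.br (nat_lit 3) (.cons (.rel (nat_lit 671088960)) (.cons (.rel (nat_lit 4563410961)) (.cons (.rel (nat_lit 603985920)) .nil)))) .nil)) .nil)) .leaf)) (nat_lit 27278725731576744) (.br (nat_lit 1) (.cons (.br (nat_lit 4) (.cons (.rel (nat_lit 1090527504)) .nil)) .nil)) (.node (.node (.node .leaf (nat_lit 27278725731577333) (.br (nat_lit 1) (.cons (.br (nat_lit 5) (.cons (.rel (nat_lit 4312794132)) .nil)) .nil)) .leaf) (nat_lit 27278725731891232) (.br (nat_lit 3) (.cons (.br (nat_lit 5) (.cons (.rel (nat_lit 4563423234)) .nil)) .nil)) .leaf) (nat_lit 27278725731891975) (.br (nat_lit 1) (.cons (.br (nat_lit 4) (.cons (.rel (nat_lit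 1090555908)) .nil)) .nil)) (.node (.node .leaf (nat_lit 27278725732106872) (.br (nat_lit 3) (.cons (.br (nat_lit 4) (.cons (.rel (nat_lit 1343766528)) .nil)) .nil)) .leaf) (nat_lit 27279752274129027) (.br (nat_lit 0) (.cons (.br (nat_lit 4) (.cons (.rel (nat_lit 1080590340)) .nil)) .nil)) .leaf))))) (nat_lit 27279756522515334) (.br (nat_lit 0) (.cons (.br (nat_lit 2) (.cons (.rel (nat_lit 138543168)) .nil)) .nil)) (.node (.node (.node (.node (.node (.node .leaf (nat_lit 27279756522959475) (.br (nat_lit 0) (.cons (.br (nat_lit 1) (.cons (.rel (nat_lit 20975697)) .nil)) .nil)) .leaf) (nat_lit 27279756524258032) (.br (nat_lit 3) (.cons (.br (nat_lit 4) (.cons (.rel (nat_lit 2416316736)) .nil)) .nil)) (.node .leaf (nat_lit 27279919549825831) (.br (nat_lit 0) (.cons (.br (nat_lit 1) (.cons (.rel (nat_lit 21038148)) .nil)) .nil)) .leaf)) (nat_lit 27279919729881274) (.br (nat_lit 1) (.cons (.br (nat_lit 3) (.cons (.rel (nat_lit 285213954)) .nil)) .nil)) (.node (.node .leaf (nat_lit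 27279919730137370) (.br (nat_lit 0) (.cons (.br (nat_lit 1) (.cons (.rel (nat_lit 25166880)) .nil)) .nil)) .leaf) (nat_lit 27279919730180857) (.br (nat_lit 3) (.cons (.br (nat_lit 0) (.cons (.rel (nat_lit 272732160)) (.cons (.rel (nat_lit 542130180)) (.cons (.rel (nat_lit 272634897)) .nil)))) .nil)) .leaf)) (nat_lit 27279919730180871) (.br (nat_lit 3) (.cons (.br (nat_lit 1) (.cons (.rel (nat_lit 570429696)) (.cons (.rel (nat_lit 285212949)) .nil))) .nil)) (.node (.node (.node .leaf (nat_lit 27279919730180903) (.br (nat_lit 3) (.cons (.br (nat_lit 0) (.cons (.rel (nat_lit 272630034)) (.cons (.rel (nat_lit 272634897)) (.cons (.rel (nat_lit 272697348)) .nil)))) .nil)) .leaf) (nat_lit 27279919730487928) (.br (nat_lit 0) (.cons (.br (nat_lit 4) (.cons (.rel (nat_lit 1077936162)) .nil)) .nil)) .leaf) (nat_lit 27279919730488071) (.br (nat_lit 3) (.cons (.br (nat_lit 4) (.cons (.rel (nat_lit 2684354628)) .nil)) .nil)) (.node (.node .leaf (nat_lit 27279919731255578) (.br (nat_lit 3)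 (.cons (.br (nat_lit 1) (.cons (.rel (nat_lit 554696964)) (.cons (.rel (nat_lit 285213954)) (.cons (.rel (nat_lit 570507264)) .nil)))) .nil)) .leaf) (nat_lit 27279919731255928) (.br (nat_lit 0) (.cons (.br (nat_lit 3) (.cons (.rel (nat_lit 272634897)) .nil)) .nil)) .leaf))) (nat_lit 27279919731256071) (.br (nat_lit 0) (.cons (.br (nat_lit 1) (.cons (.rel (nat_lit 37750800)) (.cons (.rel (nat_lit 20975697)) .nil))) (.cons (.br (nat_lit 1) (.cons (.rel (nat_lit 20971848)) (.cons (.rel (nat_lit 20987970)) .nil))) .nil))) (.node (.node (.node (.node .leaf (nat_lit 27279919731409671) (.br (nat_lit 3) (.cons (.br (nat_lit 5) (.cons (.rel (nat_lit 4563421440)) .nil)) .nil)) .leaf) (nat_lit 27279919731410421) (.br (nat_lit 0) (.cons (.br (nat_lit 3) (.cons (.rel (nat_lit 545325312)) .nil)) .nil)) (.node .leaf (nat_lit 27279919731415815) (.br (nat_lit 0) (.cons (.br (nat_lit 5) (.cons (.rel (nat_lit 8598585600)) .nil)) .nil)) .leaf)) (nat_lit 27279919731717382) (.br (nat_lit 0) (.cons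 (.br (nat_lit 3) (.cons (.rel (nat_lit 272631048)) .nil)) .nil)) (.node (.node .leaf (nat_lit 27279919731733112) (.br (nat_lit 0) (.cons (.br (nat_lit 4) (.cons (.rel (nat_lit 1077960720)) .nil)) .nil)) .leaf) (nat_lit 27279919731734005) (.br (nat_lit 0) (.cons (.br (nat_lit 1) (.cons (.rel (nat_lit 20975697)) .nil)) .nil)) .leaf)) (nat_lit 27279919732484407) (.br (nat_lit 0) (.cons (.br (nat_lit 2) (.cons (.rel (nat_lit 71311377)) .nil)) .nil)) (.node (.node (.node .leaf (nat_lit 27279919732484728) (.br (nat_lit 1) (.cons (.br (nat_lit 0) (.cons (.rel (nat_lit 20971848)) (.cons (.rel (nat_lit 22021632)) .nil))) .nil)) .leaf) (nat_lit 27279919732800120) (.br (nat_lit 0) (.cons (.br (nat_lit 1) (.cons (.rel (nat_lit 21038148)) .nil)) .nil)) .leaf) (nat_lit 27279919732800263) (.br (nat_lit 1) (.cons (.br (nat_lit 4) (.cons (.rel (nat_lit 1090781250)) .nil)) .nil)) (.node (.node .leaf (nat_lit 27280131694619899) (.br (nat_lit 0) (.cons (.br (nat_lit 4) (.cons (.rel (nat_lit 2155872273))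 .nil)) .nil)) .leaf) (nat_lit 27280132831720199) (.br (nat_lit 3) (.cons (.br (nat_lit 4) (.cons (.rel (nat_lit 1610743809)) .nil)) .nil)) .leaf)))) (nat_lit 27280190339830696) (.br (nat_lit 0) (.cons (.br (nat_lit 1) (.cons (.rel (nat_lit 21105216)) .nil)) .nil)) (.node (.node (.node (.node (.node .leaf (nat_lit 27280192407623064) (.br (nat_lit 1) (.cons (.br (nat_lit 3) (.cons (.rel (nat_lit 553650240)) .nil)) .nil)) .leaf) (nat_lit 27280787313574649) (.br (nat_lit 1) (.cons (.br (nat_lit 2) (.cons (.rel (nat_lit 84181056)) .nil)) .nil)) (.node .leaf (nat_lit 27280787313836807) (.br (nat_lit 2) (.cons (.br (nat_lit 4) (.cons (.rel (nat_lit 1141115136)) .nil)) .nil)) .leaf)) (nat_lit 27280787313881774) (.br (nat_lit 4) (.cons (.br (nat_lit 5) (.cons (.rel (nat_lit 6443499525)) (.cons (.rel (nat_lit 5368988736)) (.cons (.rel (nat_lit 5368725513)) .nil)))) (.cons (.br (nat_lit 1) (.cons (.rel (nat_lit 1090521096)) (.cons (.rel (nat_lit 1090781250)) (.cons (.rel (nat_lit 1090544640))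 .nil)))) .nil))) (.node (.node .leaf (nat_lit 27280787314658055) (.br (nat_lit 0) (.cons (.br (nat_lit 1) (.cons (.rel (nat_lit 37750800)) .nil)) .nil)) .leaf) (nat_lit 27280787314803320) (.br (nat_lit 5) (.cons (.br (nat_lit 1) (.cons (.rel (nat_lit 4312797696)) (.cons (.rel (nat_lit 8623767552)) .nil))) .nil)) .leaf)) (nat_lit 27280787314808987) (.br (nat_lit 2) (.cons (.br (nat_lit 3) (.cons (.rel (nat_lit 335840256)) .nil)) .nil)) (.node (.node (.node .leaf (nat_lit 27280787315110015) (.br (nat_lit 0) (.cons (.br (nat_lit 3) (.cons (.rel (nat_lit 274726980)) .nil)) .nil)) .leaf) (nat_lit 27280787315110199) (.br (nat_lit 1) (.cons (.br (nat_lit 5) (.cons (.rel (nat_lit 4312795137)) .nil)) .nil)) .leaf) (nat_lit 27280787315110520) (.br (nat_lit 4) (.cons (.br (nat_lit 5) (.cons (.rel (nat_lit 5368725513)) .nil)) .nil)) (.node (.node .leaf (nat_lit 27280787315110663) (.br (nat_lit 2) (.cons (.br (nat_lit 5) (.cons (.rel (nat_lit 4362076170)) .nil)) .nil)) .leaf) (nat_lit 27280787315878574)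 (.br (nat_lit 0) (.cons (.br (nat_lit 1) (.cons (.br (nat_lit 5) (.cons (.rel (nat_lit 8606793732)) (.cons (.rel (nat_lit 4312301568)) .nil))) .nil)) .nil)) .leaf))) (nat_lit 27280864624061191) (.br (nat_lit 5) (.cons (.br (nat_lit 2) (.cons (.rel (nat_lit 4362076170)) (.cons (.rel (nat_lit 4362076170)) .nil))) .nil)) (.node (.node (.node (.node .leaf (nat_lit 27280864624068739) (.br (nat_lit 0) (.cons (.br (nat_lit 2) (.cons (.rel (nat_lit 71321856)) .nil)) .nil)) .leaf) (nat_lit 27280864624069240) (.br (nat_lit 4) (.cons (.br (nat_lit 1) (.cons (.rel (nat_lit 1090520082)) (.cons (.rel (nat_lit 2181039108)) .nil))) .nil)) (.node .leaf (nat_lit 27280864624069544) (.br (nat_lit 0) (.cons (.br (nat_lit 1) (.cons (.rel (nat_lit 20987970)) (.cons (.rel (nat_lit 21038148)) .nil))) (.cons (.br (nat_lit 1) (.cons (.rel (nat_lit 25165830)) (.cons (.rel (nat_lit 25165830)) .nil))) .nil))) .leaf)) (nat_lit 27280864624070113) (.br (nat_lit 0) (.cons (.br (nat_lit 2) (.cons (.rel (nat_lit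 75776001)) .nil)) .nil)) (.node (.node .leaf (nat_lit 27280864624081197) (.br (nat_lit 2) (.cons (.br (nat_lit 5) (.cons (.rel (nat_lit 4362076170)) .nil)) .nil)) .leaf) (nat_lit 27280864624082398) (.br (nat_lit 3) (.cons (.br (nat_lit 6) (.cons (.rel (nat_lit 17448583170)) (.cons (.rel (nat_lit 34628190720)) .nil))) .nil)) .leaf)) (nat_lit 27280864624214791) (.br (nat_lit 5) (.cons (.br (nat_lit 0) (.cons (.rel (nat_lit 4299686400)) (.cons (.rel (nat_lit 4299686400)) (.cons (.rel (nat_lit 4299195456)) .nil)))) .nil)) (.node (.node (.node .leaf (nat_lit 27280864624214952) (.br (nat_lit 0) (.cons (.br (nat_lit 1) (.cons (.rel (nat_lit 37765632)) .nil)) .nil)) .leaf) (nat_lit 27280864624220315) (.br (nat_lit 2) (.cons (.br (nat_lit 3) (.cons (.rel (nat_lit 671088960)) (.cons (.rel (nat_lit 335840256)) .nil))) .nil)) .leaf) (nat_lit 27280864624222983) (.br (nat_lit 1) (.cons (.br (nat_lit 4) (.cons (.rel (nat_lit 1090781250)) .nil)) .nil)) (.node (.node .leaf (nat_lit 27280864624538232)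 (.br (nat_lit 0) (.cons (.br (nat_lit 3) (.cons (.rel (nat_lit 272631048)) (.cons (.rel (nat_lit 272646165)) .nil))) .nil)) .leaf) (nat_lit 27280864624538375) (.br (nat_lit 5) (.cons (.br (nat_lit 4) (.cons (.rel (nat_lit 5368727568)) (.cons (.rel (nat_lit 5368710432)) .nil))) .nil)) .leaf))))))

/-- refutations 42 -/
def e42 : EX := (.node (.node (.node (.node (.node .leaf (nat_lit 27005308049830674) (.br (nat_lit 0) (.cons (.br (nat_lit 1) (.cons (.br (nat_lit 2) (.cons (.rel (nat_lit 83890434)) .nil)) .nil)) .nil)) .leaf) (nat_lit 27391466447843960) (.br (nat_lit 0) (.cons (.br (nat_lit 2) (.cons (.rel (nat_lit 71434260)) (.cons (.rel (nat_lit 71311377)) .nil))) .nil)) .leaf) (nat_lit 27391466449218818) (.br (nat_lit 1) (.cons (.br (nat_lit 3) (.cons (.rel (nat_lit 285213954)) .nil)) .nil)) (.node (.node .leaf (nat_lit 27391466449678361) (.br (nat_lit 0) (.cons (.br (nat_lit 1) (.cons (.rel (nat_lit 22021632)) .nil)) .nil)) .leaf) (nat_lit 27391524482069266) (.br (nat_lit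 1) (.cons (.br (nat_lit 3) (.cons (.rel (nat_lit 285218817)) .nil)) .nil)) .leaf)) (nat_lit 27391524482069905) (.br (nat_lit 1) (.cons (.br (nat_lit 3) (.cons (.rel (nat_lit 285221376)) .nil)) .nil)) (.node (.node (.node .leaf (nat_lit 27391526549417218) (.br (nat_lit 0) (.cons (.br (nat_lit 3) (.cons (.rel (nat_lit 272654592)) .nil)) .nil)) .leaf) (nat_lit 27391526549861884) (.br (nat_lit 0) (.cons (.br (nat_lit 1) (.cons (.rel (nat_lit 22021632)) .nil)) .nil)) .leaf) (nat_lit 27391526683626758) (.br (nat_lit 1) (.cons (.br (nat_lit 3) (.cons (.rel (nat_lit 285217812)) .nil)) .nil)) (.node (.node .leaf (nat_lit 27391526683788800) (.br (nat_lit 0) (.cons (.br (nat_lit 1) (.cons (.rel (nat_lit 21561345)) .nil)) .nil)) .leaf) (nat_lit 27391526684095250) (.br (nat_lit 1) (.cons (.br (nat_lit 3) (.cons (.rel (nat_lit 285278244)) .nil)) .nil)) .leaf))) (nat_lit 27392588978387730) (.br (nat_lit 0) (.cons (.br (nat_lit 4) (.cons (.rel (nat_lit 1079248128)) .nil)) .nil)) (.node (.node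 (.node (.node .leaf (nat_lit 27393493013901562) (.br (nat_lit 2) (.cons (.br (nat_lit 3) (.cons (.rel (nat_lit 603981057)) .nil)) .nil)) .leaf) (nat_lit 27393493015285019) (.br (nat_lit 5) (.cons (.br (nat_lit 0) (.cons (.rel (nat_lit 4300211217)) (.cons (.rel (nat_lit 4300211217)) .nil))) .nil)) .leaf) (nat_lit 27393493015737627) (.br (nat_lit 2) (.cons (.br (nat_lit 4) (.cons (.rel (nat_lit 1141115136)) .nil)) .nil)) (.node (.node .leaf (nat_lit 27393493015737695) (.br (nat_lit 2) (.cons (.br (nat_lit 4) (.cons (.rel (nat_lit 1140851088)) .nil)) .nil)) .leaf) (nat_lit 27393705922803200) (.br (nat_lit 0) (.cons (.br (nat_lit 1) (.cons (.rel (nat_lit 25239552)) .nil)) .nil)) .leaf)) (nat_lit 27398645448537590) (.br (nat_lit 0) (.cons (.br (nat_lit 2) (.cons (.rel (nat_lit 71307528)) .nil)) .nil)) (.node (.node (.node .leaf (nat_lit 27398645449313042) (.br (nat_lit 0) (.cons (.br (nat_lit 3) (.cons (.rel (nat_lit 272633892)) (.cons (.rel (nat_lit 545325312)) .nil))) (.cons (.br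 (nat_lit 2) (.cons (.rel (nat_lit 71321856)) (.cons (.rel (nat_lit 71435265)) .nil))) .nil))) .leaf) (nat_lit 27398645449765800) (.br (nat_lit 0) (.cons (.br (nat_lit 3) (.cons (.rel (nat_lit 272654592)) .nil)) .nil)) .leaf) (nat_lit 27398647651314971) (.br (nat_lit 0) (.cons (.br (nat_lit 1) (.cons (.rel (nat_lit 22052880)) .nil)) .nil)) (.node (.node .leaf (nat_lit 27403120759090438) (.br (nat_lit 0) (.cons (.br (nat_lit 3) (.cons (.rel (nat_lit 545325312)) .nil)) .nil)) .leaf) (nat_lit 27404443340743442) (.br (nat_lit 0) (.cons (.br (nat_lit 1) (.cons (.rel (nat_lit 37748745)) .nil)) .nil)) .leaf))))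

/-- list of the parts -/
def L0 : List (ℕ × List ℕ) := [(nat_lit 0x400, [cP]),
  (nat_lit 0x8000, [cP]),
  (nat_lit 0x80000000, [cP]),
  (nat_lit 0x20000000000000000, [cP]),
  (nat_lit 0x400000000000000000000000000000000, [cP]),
  (nat_lit 0x10000000000000000000000000000000000, [cP]),
  (nat_lit 0x400000000000000000000000000000000000000000, [Nat.sub (Nat.pow 2 786) (Nat.pow 2 0), Nat.sub (Nat.pow 2 1565) (Nat.pow 2 786), Nat.sub (Nat.pow 2 3136) (Nat.pow 2 1565)]),
  (nat_lit 0x10000200000000000000000000000000000000000000000, [cP]),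
  (nat_lit 0x20000000000000000000000000000000000000000000000, [cP]),
  (nat_lit 0x20000000000000000000000000000000000000000000000000000000000000000000000, [cP]),
  (nat_lit 0x200000000000000000000000000000000000000000000000000000000000000000000000000000, [cP]),
  (nat_lit 0x40000000000000000000000000000000000000000000000000000000000000000000000000000008000000000000000000000000000000000000000000000000000000000000000000000000000000, [cP]),
  (nat_lit 0x20000000000000000000000000000000000000000000000000000000000000000000000000000000000000000000000000000000000000000000000000000000000000000000000000000000000000000000000, [cP]),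
  (nat_lit 0x40000000000000000000000000000000000000000000000000000000000000000000000000000000000000000000000000000000000000000000000000000000000000000000000000000000000000000000000, [cP]),
  (nat_lit 0x1000000000000000000000000000000000000000000000000000000000000000000000000000000000000000000000000000000000000000000000000000000000000000000000000000000000000000000000000000, [cP]),
  (nat_lit 0x2000000000000000000000000000000000000000000000000000000000000000000000000000000000000000000000000000000000000000000000000000000000000000000000000000000000000000000000000000000000000000000000000000, [cP]),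
  (nat_lit 0x20000400000000000000000000000000000000000000000000000000000000000000000000000000000000000000000000000000000000000000000000000000000000000000000000000000000000000000000000000000000000000000000000000000000, [cP]),
  (nat_lit 0x208000000000000000000000000000000000000000000000000000000000000000000000000000000000000000000000000000000000000000000000000000000000000000000000000000000000000000000000000000000000000000000000000000000000000000000000000000, [cP]),
  (nat_lit 0x840000000000000000000000000000000000000000000000000000000000000000000000000000000000000000000000000000000000000000000000000000000000000000000000000000000000000000000000000000000000000000000000000000000000000000000000000000000000, [cP]),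
  (nat_lit 0x8000000000000000000000000000000000000000000000000000000000000000000000000000000000000000000000000000000000000000000000000000000000000000000000000000000000000000000000000000000000000000000000000000000000000000000000000000000000000000000, [cP]),
  (nat_lit 0x20000000000000000000000000000000000000000000000000000000000000000000000000000000000000000000000000000000000000000000000000000000000000000000000000000000000000000000000000000000000000000000000000000000000000000000000000000000000000000000000000000000000000000000000000000000000000000000000000000000000000000000000000000, [Nat.sub (Nat.pow 2 154) (Nat.pow 2 0), Nat.sub (Nat.pow 2 635) (Nat.pow 2 154), Nat.sub (Nat.pow 2 811) (Nat.pow 2 635), Nat.sub (Nat.pow 2 1404) (Nat.pow 2 811), Nat.sub (Nat.pow 2 3136) (Nat.pow 2 1404)]),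
  (nat_lit 0x10000000000000000000000000000000000000000000000000000000000000000000000000000000000000000000000000000000000000000000000000000000000000000000000000000000000000000000000000000000000000000000000000000000000000000000000000000000000000000000, [cP]),
  (nat_lit 0x1000000000000000000000000000000000000000000000000000000000000000000000000000000000000000000000000000000000000000000000000000000000000000000000000000000000000000000000000000000000000000000000000000000000000000000000000000000000000000000000000000000000000000000000000000000000000000000000000000000000000000000000000000000000, [cP]),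
  (nat_lit 0x400000000000000000000000000000000000000000000000000000000000000000000000000000000000000000000000000000000000000000000000000000000000000000000000000000000000000000000000000000000000000000000000000000000000000000000000000000000000000000000000000000000000000000000000000000000000000000000000000000000000000000000000000000000000000, [cP]),
  (nat_lit 0x800000000000000000000000000000000000000000000000000000000000000000000000000000000000000000000000000000000000000000000000000000000000000000000000000000000000000000000000000000000000000000000000000000000000000000000000000000000000000000000000000000000000000000000000000000000000000000000000000000000000000000000000000000000000000000000000000000000, [cP]),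
  (nat_lit 0x20000000000000000000000000000000000000000000000000000000000000000000000000000000000000000000000000000000000000000000000000000000000000000000000000000000000000000000000000000000000000000000000000000000000000000000000000000000000000000000000000000000000000000000000000000000000000000000000000000000000000000000000000000000000000000000000000000000000, [cP]),
  (nat_lit 0x80000000000000000000000000000000000000000000000000000000000000000000000000000000000000000000000000000000000000000000000000000000000000000000000000000000000000000000000000000000000000000000000000000000000000000000000000000000000000000000000000000000000000000000000000000000000000000000000000000000000000000000000000000000000000000000000000000000000000000, [Nat.sub (Nat.pow 2 286) (Nat.pow 2 0), Nat.sub (Nat.pow 2 1565) (Nat.pow 2 286), Nat.sub (Nat.pow 2 3136) (Nat.pow 2 1565)]),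
  (nat_lit 0x1000000000000000000000000000000000000000000000000000000000000000000000000000000000000000000000000000000000000000000000000000000000000000000000000000000000000000000000000000000000000000000000000000000000000000000000000000000000000000000000000000000000000000000000000000000000000000000000000000000000000000000000000000000000000000000000000000000000000000, [cP]),
  (nat_lit 0x4000000000000000000000000000000000000000000000000000000000000000000000000000000000000000000000000000000000000000000000000000000000000000000000000000000000000000000000000000000000000000000000000000000000000000000000000000000000000000000000000000000000000000000000000000000000000000000000000000000000000000000000000000000000000000000000000000000000000000000000, [cP]),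
  (nat_lit 0x20000000000000002000000000000000000000000000000000000000000000000000000000000000000000000000000000000000000000000000000000000000000000000000000000000000000000000000000000000000000000000000000000000000000000000000000000000000000000000000000000000000000000000000000000000000000000000000000000000000000000000000000000000000000000000000000000000000000000000000000000000000000000000, [cP]),
  (nat_lit 0x800000000000000000000000000000000000000000000000000000000000000000000000000000000000000000000000000000000000000000000000000000000000000000000000000000000000000000000000000000000000000000000000000000000000000000000000000000000000000000000000000000000000000000000000000000000000000000000000000000000000000000000000000000000000000000000000000000000000000000000000000000000000000000, [cP]),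
  (nat_lit 0x40000000000000000000000000000000000000000000000000000000000000000000000000000000000000000000000000000000000000000000000000000000000000000000000000000000000000000000000000000000000000000000000000000000000000000000000000000000000000000000000000000000000000000000000000000000000000000000000000000000000000000000000000000000000000000000000000000000000000000000000000000000000000000000000000000, [Nat.sub (Nat.pow 2 65) (Nat.pow 2 0), Nat.sub (Nat.pow 2 1265) (Nat.pow 2 65), Nat.sub (Nat.pow 2 3136) (Nat.pow 2 1265)]),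
  (nat_lit 0x2000008000000000000000000000000000000000000000000000000000000000000000000000000000000000000000000000000000000000000000000000000000000000000000000000000000000000000000000000000000000000000000000000000000000000000000000000000000000000000000000000000000000000000000000000000000000000000000000000000000000000000000000000000000000000000000000000000000000000000000000000000000000000000000000000000, [cP])]

theorem hp0 : ∀ p ∈ L0, ∀ D2 ∈ p.2, ∃ e,
    search ext94 (Pool.Agent.H74.EGZ.vio sb) G Uc A0 p.1 D2 e = true :=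
  (List.forall_mem_cons.2 ⟨(List.forall_mem_singleton.2 ⟨e0, by decide +kernel⟩),
  (List.forall_mem_cons.2 ⟨(List.forall_mem_singleton.2 ⟨e1, by decide +kernel⟩),
  (List.forall_mem_cons.2 ⟨(List.forall_mem_singleton.2 ⟨e2, by decide +kernel⟩),
  (List.forall_mem_cons.2 ⟨(List.forall_mem_singleton.2 ⟨e3, by decide +kernel⟩),
  (List.forall_mem_cons.2 ⟨(List.forall_mem_singleton.2 ⟨e4, by decide +kernel⟩),
  (List.forall_mem_cons.2 ⟨(List.forall_mem_singleton.2 ⟨e5, by decide +kernel⟩),
  (List.forall_mem_cons.2 ⟨(List.forall_mem_cons.2 ⟨⟨e6, by decide +kernel⟩,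
  (List.forall_mem_cons.2 ⟨⟨e7, by decide +kernel⟩,
  (List.forall_mem_singleton.2 ⟨.leaf, by decide +kernel⟩)⟩)⟩),
  (List.forall_mem_cons.2 ⟨(List.forall_mem_singleton.2 ⟨e9, by decide +kernel⟩),
  (List.forall_mem_cons.2 ⟨(List.forall_mem_singleton.2 ⟨e10, by decide +kernel⟩),
  (List.forall_mem_cons.2 ⟨(List.forall_mem_singleton.2 ⟨e11, by decide +kernel⟩),
  (List.forall_mem_cons.2 ⟨(List.forall_mem_singleton.2 ⟨e12, by decide +kernel⟩),
  (List.forall_mem_cons.2 ⟨(List.forall_mem_singleton.2 ⟨e13, by decide +kernel⟩),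
  (List.forall_mem_cons.2 ⟨(List.forall_mem_singleton.2 ⟨e14, by decide +kernel⟩),
  (List.forall_mem_cons.2 ⟨(List.forall_mem_singleton.2 ⟨e15, by decide +kernel⟩),
  (List.forall_mem_cons.2 ⟨(List.forall_mem_singleton.2 ⟨e16, by decide +kernel⟩),
  (List.forall_mem_cons.2 ⟨(List.forall_mem_singleton.2 ⟨e17, by decide +kernel⟩),
  (List.forall_mem_cons.2 ⟨(List.forall_mem_singleton.2 ⟨e18, by decide +kernel⟩),
  (List.forall_mem_cons.2 ⟨(List.forall_mem_singleton.2 ⟨e19, by decide +kernel⟩),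
  (List.forall_mem_cons.2 ⟨(List.forall_mem_singleton.2 ⟨e20, by decide +kernel⟩),
  (List.forall_mem_cons.2 ⟨(List.forall_mem_singleton.2 ⟨e21, by decide +kernel⟩),
  (List.forall_mem_cons.2 ⟨(List.forall_mem_cons.2 ⟨⟨e22, by decide +kernel⟩,
  (List.forall_mem_cons.2 ⟨⟨e23, by decide +kernel⟩,
  (List.forall_mem_cons.2 ⟨⟨e24, by decide +kernel⟩,
  (List.forall_mem_cons.2 ⟨⟨e25, by decide +kernel⟩,
  (List.forall_mem_singleton.2 ⟨e26, by decide +kernel⟩)⟩)⟩)⟩)⟩),
  (List.forall_mem_cons.2 ⟨(List.forall_mem_singleton.2 ⟨e27, by decide +kernel⟩),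
  (List.forall_mem_cons.2 ⟨(List.forall_mem_singleton.2 ⟨e28, by decide +kernel⟩),
  (List.forall_mem_cons.2 ⟨(List.forall_mem_singleton.2 ⟨e29, by decide +kernel⟩),
  (List.forall_mem_cons.2 ⟨(List.forall_mem_singleton.2 ⟨e30, by decide +kernel⟩),
  (List.forall_mem_cons.2 ⟨(List.forall_mem_singleton.2 ⟨.leaf, by decide +kernel⟩),
  (List.forall_mem_cons.2 ⟨(List.forall_mem_cons.2 ⟨⟨e32, by decide +kernel⟩,
  (List.forall_mem_cons.2 ⟨⟨e33, by decide +kernel⟩,
  (List.forall_mem_singleton.2 ⟨.leaf, by decide +kernel⟩)⟩)⟩),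
  (List.forall_mem_cons.2 ⟨(List.forall_mem_singleton.2 ⟨e35, by decide +kernel⟩),
  (List.forall_mem_cons.2 ⟨(List.forall_mem_singleton.2 ⟨e36, by decide +kernel⟩),
  (List.forall_mem_cons.2 ⟨(List.forall_mem_singleton.2 ⟨e37, by decide +kernel⟩),
  (List.forall_mem_cons.2 ⟨(List.forall_mem_singleton.2 ⟨e38, by decide +kernel⟩),
  (List.forall_mem_cons.2 ⟨(List.forall_mem_cons.2 ⟨⟨e39, by decide +kernel⟩,
  (List.forall_mem_cons.2 ⟨⟨e40, by decide +kernel⟩,
  (List.forall_mem_singleton.2 ⟨e41, by decide +kernel⟩)⟩)⟩),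
  (List.forall_mem_singleton.2 (List.forall_mem_singleton.2 ⟨e42, by decide +kernel⟩))⟩)⟩)⟩)⟩)⟩)⟩)⟩)⟩)⟩)⟩)⟩)⟩)⟩)⟩)⟩)⟩)⟩)⟩)⟩)⟩)⟩)⟩)⟩)⟩)⟩)⟩)⟩)⟩)⟩)⟩)⟩)⟩)

end

end Pool.Agent.H21.EGZ.S28
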