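import Pool.Agent.H21.EGZ.D29

/-!
# Stage 29 : search, part 0
-/

set_option autoImplicit false
set_option maxRecDepth 100000

namespace Pool.Agent.H21.EGZ.S29

noncomputable section

open Pool.Agent.H74.EGZ Pool.Agent.H94.Lift

/-- refutations 0 -/
def e0 : EX := (.node (.node (.node .leaf (nat_lit 17643778566145) (.br (nat_lit 0) (.cons (.br (nat_lit 1) (.cons (.rel (nat_lit 21102672)) .nil)) .nil)) .leaf) (nat_lit 17858710239889) (.br (nat_lit 0) (.cons (.br (nat_lit 1) (.cons (.rel (nat_lit 20973576)) .nil)) .nil)) .leaf) (nat_lit 17858710745989) (.br (nat_lit 3) (.cons (.br (nat_lit 4) (.cons (.rel (nat_lit 1342212096)) .nil)) .nil)) (.node (.node .leaf (nat_lit 18709951303692) (.br (nat_lit 0) (.cons (.br (nat_lit 3) (.cons (.rel (nat_lit 272908305)) .nil)) .nil)) .leaf) (nat_lit 30918433591308) (.br (nat_lit 0) (.cons (.br (nat_lit 1) (.cons (.rel (nat_lit 20971557)) (.cons (.rel (nat_lit 20973576)) .nil))) .nil)) .leaf))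

/-- refutations 2 -/
def e2 : EX := (.node (.node (.node (.node (.node .leaf (nat_lit 88227471209109) (.br (nat_lit 0) (.cons (.br (nat_lit 1) (.cons (.rel (nat_lit 20976768)) .nil)) .nil)) .leaf) (nat_lit 89078678696597) (.br (nat_lit 3) (.cons (.br (nat_lit 5) (.cons (.rel (nat_lit 4564713732)) .nil)) .nil)) .leaf) (nat_lit 89078681615766) (.br (nat_lit 0) (.cons (.br (nat_lit 1) (.cons (.rel (nat_lit 20971557)) (.cons (.rel (nat_lit 20973576)) .nil))) .nil)) (.node .leaf (nat_lit 93652844546953) (.br (nat_lit 0) (.cons (.br (nat_lit 2) (.cons (.rel (nat_lit 71340048)) (.cons (.rel (nat_lit 71340048)) (.cons (.rel (nat_lit 71401476)) .nil)))) .nil)) .leaf)) (nat_lit 93652963308950) (.br (nat_lit 4) (.cons (.br (nat_lit 6) (.cons (.rel (nat_lit 36507226368)) .nil)) .nil)) (.node (.node .leaf (nat_lit 93652964382852) (.br (nat_lit 0) (.cons (.br (nat_lit 3) (.cons (.rel (nat_lit 272662800)) .nil)) .nil)) .leaf) (nat_lit 93653913848713) (.br (nat_lit 4) (.cons (.br (nat_lit 0) (.cons (.rel (nat_lit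 1078067208)) (.cons (.rel (nat_lit 1077940290)) (.cons (.rel (nat_lit 1078264320)) .nil)))) .nil)) (.node .leaf (nat_lit 93764633478025) (.br (nat_lit 1) (.cons (.br (nat_lit 3) (.cons (.rel (nat_lit 285231240)) .nil)) .nil)) .leaf))) (nat_lit 93802106729754) (.br (nat_lit 0) (.cons (.br (nat_lit 1) (.cons (.rel (nat_lit 20973576)) .nil)) .nil)) (.node (.node (.node .leaf (nat_lit 94678269361033) (.br (nat_lit 1) (.cons (.br (nat_lit 4) (.cons (.rel (nat_lit 1090519554)) .nil)) .nil)) .leaf) (nat_lit 101287197449498) (.br (nat_lit 3) (.cons (.br (nat_lit 6) (.cons (.rel (nat_lit 34896609348)) .nil)) .nil)) (.node .leaf (nat_lit 101381700595724) (.br (nat_lit 0) (.cons (.br (nat_lit 4) (.cons (.rel (nat_lit 1077944352)) .nil)) .nil)) .leaf)) (nat_lit 101381703261065) (.br (nat_lit 5) (.cons (.br (nat_lit 6) (.cons (.rel (nat_lit 25769803842)) .nil)) .nil)) (.node (.node .leaf (nat_lit 101381703505932) (.br (nat_lit 0) (.cons (.br (nat_lit 2) (.cons (.rel (nat_lit 71368848)) .nil)) .nil)) .leaf) (nat_lit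 101381703507350) (.br (nat_lit 0) (.cons (.br (nat_lit 4) (.cons (.rel (nat_lit 1078002768)) .nil)) .nil)) (.node .leaf (nat_lit 101383785679753) (.br (nat_lit 4) (.cons (.br (nat_lit 5) (.cons (.rel (nat_lit 5369364480)) (.cons (.rel (nat_lit 9663682560)) .nil))) .nil)) .leaf))))

/-- refutations 4 -/
def e4 : EX := (.node (.node (.node (.node (.node .leaf (nat_lit 546441283480464) (.br (nat_lit 2) (.cons (.br (nat_lit 1) (.cons (.rel (nat_lit 150996993)) (.cons (.rel (nat_lit 151031808)) .nil))) .nil)) .leaf) (nat_lit 546441283488645) (.br (nat_lit 2) (.cons (.br (nat_lit 6) (.cons (.rel (nat_lit 17249077248)) (.cons (.rel (nat_lit 34426863618)) .nil))) .nil)) (.node .leaf (nat_lit 546475643204485) (.br (nat_lit 2) (.cons (.br (nat_lit 1) (.cons (.rel (nat_lit 150996993)) (.cons (.rel (nat_lit 100663317)) (.cons (.rel (nat_lit 100663317)) (.cons (.rel (nat_lit 100687872)) .nil))))) .nil)) .leaf)) (nat_lit 558265218358153) (.br (nat_lit 1) (.cons (.br (nat_lit 4) (.cons (.rel (nat_lit 2164277280))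 .nil)) .nil)) (.node (.node .leaf (nat_lit 558265218380677) (.br (nat_lit 1) (.cons (.br (nat_lit 2) (.cons (.rel (nat_lit 100664322)) (.cons (.rel (nat_lit 100664322)) .nil))) .nil)) .leaf) (nat_lit 558299578119056) (.br (nat_lit 1) (.cons (.br (nat_lit 4) (.cons (.rel (nat_lit 1090519554)) .nil)) .nil)) .leaf)) (nat_lit 558333967203205) (.br (nat_lit 1) (.cons (.br (nat_lit 5) (.cons (.rel (nat_lit 4328538120)) .nil)) .nil)) (.node (.node (.node .leaf (nat_lit 558333967217545) (.br (nat_lit 1) (.cons (.br (nat_lit 4) (.cons (.rel (nat_lit 1090519554)) (.cons (.rel (nat_lit 1090519554)) .nil))) (.cons (.br (nat_lit 4) (.cons (.rel (nat_lit 2164277280)) (.cons (.rel (nat_lit 1090519554)) .nil))) .nil))) .leaf) (nat_lit 615778182982533) (.br (nat_lit 3) (.cons (.br (nat_lit 6) (.cons (.rel (nat_lit 17448304776)) (.cons (.rel (nat_lit 17448322113)) .nil))) (.cons (.br (nat_lit 6) (.cons (.rel (nat_lit 34628175105)) (.cons (.rel (nat_lit 34896609348)) .nil))) .nil))) (.node .leaf (nat_lit 615778183759231)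 (.br (nat_lit 2) (.cons (.br (nat_lit 3) (.cons (.rel (nat_lit 335546373)) .nil)) .nil)) .leaf)) (nat_lit 615778183767292) (.br (nat_lit 0) (.cons (.br (nat_lit 3) (.cons (.rel (nat_lit 272662800)) .nil)) .nil)) (.node (.node .leaf (nat_lit 615778184013056) (.br (nat_lit 0) (.cons (.br (nat_lit 1) (.cons (.rel (nat_lit 20973576)) .nil)) .nil)) .leaf) (nat_lit 615778184013183) (.br (nat_lit 1) (.cons (.br (nat_lit 3) (.cons (.rel (nat_lit 285212697)) .nil)) .nil)) .leaf))) (nat_lit 615812557723683) (.br (nat_lit 0) (.cons (.br (nat_lit 1) (.cons (.rel (nat_lit 20972562)) .nil)) .nil)) (.node (.node (.node (.node .leaf (nat_lit 615812559301520) (.br (nat_lit 0) (.cons (.br (nat_lit 3) (.cons (.rel (nat_lit 272762112)) .nil)) .nil)) .leaf) (nat_lit 616810027658128) (.br (nat_lit 1) (.cons (.br (nat_lit 4) (.cons (.rel (nat_lit 2164277280)) .nil)) .nil)) (.node .leaf (nat_lit 616810027666069) (.br (nat_lit 1) (.cons (.br (nat_lit 2) (.cons (.rel (nat_lit 150995988)) .nil)) .nil)) .leaf)) (nat_lit 616810027666309)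 (.br (nat_lit 1) (.cons (.br (nat_lit 2) (.cons (.rel (nat_lit 100664322)) (.cons (.rel (nat_lit 100794432)) .nil))) (.cons (.br (nat_lit 2) (.cons (.rel (nat_lit 86048784)) (.cons (.rel (nat_lit 100687872)) .nil))) .nil))) (.node (.node .leaf (nat_lit 616844387382149) (.br (nat_lit 2) (.cons (.br (nat_lit 1) (.cons (.rel (nat_lit 150996993)) (.cons (.rel (nat_lit 100663317)) (.cons (.rel (nat_lit 100663317)) .nil)))) (.cons (.br (nat_lit 6) (.cons (.rel (nat_lit 17247568896)) (.cons (.rel (nat_lit 17249077248)) (.cons (.rel (nat_lit 17249077248)) .nil)))) .nil))) .leaf) (nat_lit 616844387396489) (.br (nat_lit 1) (.cons (.br (nat_lit 2) (.cons (.rel (nat_lit 100663317)) (.cons (.rel (nat_lit 83902980)) (.cons (.rel (nat_lit 84414528)) .nil)))) (.cons (.br (nat_lit 5) (.cons (.rel (nat_lit 4328525841)) (.cons (.rel (nat_lit 8623752192)) (.cons (.rel (nat_lit 8623752192)) (.cons (.rel (nat_lit 8606744580)) (.cons (.rel (nat_lit 8606715969)) (.cons (.rel (nat_lit 4328521824)) (.cons (.rel (nat_lit 8606711952))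 .nil)))))))) .nil))) .leaf)) (nat_lit 621098482213769) (.br (nat_lit 1) (.cons (.br (nat_lit 4) (.cons (.rel (nat_lit 2164277280)) .nil)) .nil)) (.node (.node (.node .leaf (nat_lit 626475292187525) (.br (nat_lit 0) (.cons (.br (nat_lit 1) (.cons (.rel (nat_lit 20972562)) .nil)) .nil)) .leaf) (nat_lit 628633945758601) (.br (nat_lit 1) (.cons (.br (nat_lit 4) (.cons (.rel (nat_lit 2164277280)) .nil)) .nil)) .leaf) (nat_lit 628633945781125) (.br (nat_lit 1) (.cons (.br (nat_lit 4) (.cons (.rel (nat_lit 2164277280)) .nil)) .nil)) (.node (.node .leaf (nat_lit 628668351642505) (.br (nat_lit 1) (.cons (.br (nat_lit 4) (.cons (.rel (nat_lit 2164277280)) .nil)) .nil)) .leaf) (nat_lit 628702665235344) (.br (nat_lit 1) (.cons (.br (nat_lit 4) (.cons (.rel (nat_lit 1090519554)) .nil)) .nil)) .leaf))))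

/-- refutations 5 -/
def e5 : EX := (.node (.node (.node .leaf (nat_lit 639122398063249) (.br (nat_lit 1) (.cons (.br (nat_lit 4) (.cons (.rel (nat_lit 1091567904)) .nil)) .nil)) .leaf) (nat_lit 639122398571401) (.br (nat_lit 0) (.cons (.br (nat_lit 1) (.cons (.rel (nat_lit 20971557)) (.cons (.rel (nat_lit 20972562)) (.cons (.rel (nat_lit 20976768)) (.cons (.rel (nat_lit 27263040)) .nil))))) (.cons (.br (nat_lit 1) (.cons (.rel (nat_lit 20996112)) (.cons (.rel (nat_lit 27263040)) (.cons (.rel (nat_lit 41944068)) (.cons (.rel (nat_lit 27263040)) .nil))))) (.cons (.br (nat_lit 1) (.cons (.rel (nat_lit 27263040)) (.cons (.rel (nat_lit 20971557)) (.cons (.rel (nat_lit 20971557)) (.cons (.rel (nat_lit 20973576)) .nil))))) .nil)))) (.node .leaf (nat_lit 639122399328416) (.br (nat_lit 1) (.cons (.br (nat_lit 6) (.cons (.rel (nat_lit 34376515665)) .nil)) .nil)) .leaf)) (nat_lit 639122400854176) (.br (nat_lit 1) (.cons (.br (nat_lit 4) (.cons (.rel (nat_lit 2181038337)) .nil)) .nil)) (.node (.node .leaf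 (nat_lit 639122400854921) (.br (nat_lit 0) (.cons (.br (nat_lit 1) (.cons (.rel (nat_lit 20996112)) (.cons (.rel (nat_lit 27263040)) .nil))) (.cons (.br (nat_lit 1) (.cons (.rel (nat_lit 27263040)) (.cons (.rel (nat_lit 20971557)) .nil))) .nil))) .leaf) (nat_lit 644362258164369) (.br (nat_lit 0) (.cons (.br (nat_lit 3) (.cons (.rel (nat_lit 541098048)) .nil)) .nil)) (.node .leaf (nat_lit 644548601568137) (.br (nat_lit 0) (.cons (.br (nat_lit 1) (.cons (.rel (nat_lit 20971557)) (.cons (.rel (nat_lit 20973576)) .nil))) (.cons (.br (nat_lit 1) (.cons (.rel (nat_lit 21102672)) (.cons (.rel (nat_lit 20976768)) .nil))) .nil))) .leaf)))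

/-- refutations 7 -/
def e7 : EX := (.node .leaf (nat_lit 925837236140937) (.br (nat_lit 1) (.cons (.br (nat_lit 2) (.cons (.rel (nat_lit 100663317)) .nil)) .nil)) .leaf)

/-- refutations 8 -/
def e8 : EX := (.node (.node (.node .leaf (nat_lit 1090801583586536) (.br (nat_lit 0) (.cons (.br (nat_lit 3) (.cons (.rel (nat_lit 272662800)) .nil)) .nil)) .leaf) (nat_lit 1096098329689339) (.br (nat_lit 0) (.cons (.br (nat_lit 4) (.cons (.rel (nat_lit 1078067208)) .nil)) .nil)) .leaf) (nat_lit 1096098330193982) (.br (nat_lit 1) (.cons (.br (nat_lit 0) (.cons (.rel (nat_lit 21102672)) (.cons (.rel (nat_lit 38797440)) .nil))) .nil)) (.node (.node .leaf (nat_lit 1096098331184009) (.br (nat_lit 0) (.cons (.br (nat_lit 2) (.cons (.rel (nat_lit 71368848)) .nil)) .nil)) .leaf) (nat_lit 1096519030915134) (.br (nat_lit 0) (.cons (.br (nat_lit 1) (.cons (.rel (nat_lit 20972562)) .nil)) .nil)) .leaf))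

/-- refutations 9 -/
def e9 : EX := (.node (.node .leaf (nat_lit 2310380072790921) (.br (nat_lit 0) (.cons (.br (nat_lit 1) (.cons (.rel (nat_lit 20976768)) .nil)) .nil)) .leaf) (nat_lit 2324317118429316) (.br (nat_lit 0) (.cons (.br (nat_lit 6) (.cons (.rel (nat_lit 17188258320)) .nil)) .nil)) (.node .leaf (nat_lit 2324317118430614) (.br (nat_lit 0) (.cons (.br (nat_lit 6) (.cons (.rel (nat_lit 17184194562)) .nil)) .nil)) .leaf))

/-- refutations 10 -/
def e10 : EX := (.node (.node (.node .leaf (nat_lit 2394780332446473) (.br (nat_lit 0) (.cons (.br (nat_lit 4) (.cons (.rel (nat_lit 1078264320)) .nil)) .nil)) .leaf) (nat_lit 2394780333798813) (.br (nat_lit 0) (.cons (.br (nat_lit 4) (.cons (.rel (nat_lit 1078460676)) .nil)) .nil)) .leaf) (nat_lit 2394780476405149) (.br (nat_lit 0) (.cons (.br (nat_lit 1) (.cons (.rel (nat_lit 21057540)) .nil)) .nil)) (.node (.node .leaf (nat_lit 2399199996168853) (.br (nat_lit 4) (.cons (.br (nat_lit 5) (.cons (.rel (nat_lit 5370021888)) .nil)) .nil)) .leaf) (nat_lit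 2399199998573321) (.br (nat_lit 0) (.cons (.br (nat_lit 3) (.cons (.rel (nat_lit 541066245)) .nil)) .nil)) .leaf))

/-- refutations 11 -/
def e11 : EX := (.node (.node (.node .leaf (nat_lit 2410654213634200) (.br (nat_lit 0) (.cons (.br (nat_lit 3) (.cons (.rel (nat_lit 274202880)) .nil)) .nil)) .leaf) (nat_lit 2416637564504969) (.br (nat_lit 3) (.cons (.br (nat_lit 4) (.cons (.rel (nat_lit 1342177413)) .nil)) .nil)) .leaf) (nat_lit 2416800646560649) (.br (nat_lit 3) (.cons (.br (nat_lit 0) (.cons (.rel (nat_lit 276824100)) (.cons (.rel (nat_lit 541066245)) .nil))) .nil)) (.node .leaf (nat_lit 2422418589674377) (.br (nat_lit 0) (.cons (.br (nat_lit 1) (.cons (.rel (nat_lit 41944068)) .nil)) .nil)) .leaf))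

/-- refutations 12 -/
def e12 : EX := (.node (.node .leaf (nat_lit 2644731866184337) (.br (nat_lit 0) (.cons (.br (nat_lit 2) (.cons (.rel (nat_lit 71304228)) .nil)) .nil)) .leaf) (nat_lit 2646794455716022) (.br (nat_lit 4) (.cons (.br (nat_lit 5) (.cons (.rel (nat_lit 5368713744)) .nil)) .nil)) (.node .leaf (nat_lit 2652156138709649) (.br (nat_lit 0) (.cons (.br (nat_lit 3) (.cons (.rel (nat_lit 274202880)) .nil)) .nil)) .leaf))

/-- refutations 13 -/
def e13 : EX := (.node (.node (.node (.node (.node .leaf (nat_lit 2658568729901191) (.br (nat_lit 0) (.cons (.br (nat_lit 2) (.cons (.rel (nat_lit 71323716)) .nil)) .nil)) .leaf) (nat_lit 2658568731375891) (.br (nat_lit 1) (.cons (.br (nat_lit 5) (.cons (.rel (nat_lit 4312270848)) .nil)) .nil)) .leaf) (nat_lit 2658568731585169) (.br (nat_lit 2) (.cons (.br (nat_lit 6) (.cons (.rel (nat_lit 17247502401)) (.cons (.rel (nat_lit 17249077248)) .nil))) (.cons (.br (nat_lit 6) (.cons (.rel (nat_lit 17247502401)) (.cons (.rel (nat_lit 17247502401)) .nil)))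 .nil))) (.node .leaf (nat_lit 2658570837141659) (.br (nat_lit 1) (.cons (.br (nat_lit 5) (.cons (.rel (nat_lit 8606711952)) (.cons (.rel (nat_lit 4328538120)) (.cons (.rel (nat_lit 4328538120)) .nil)))) .nil)) .leaf)) (nat_lit 2658570837141666) (.br (nat_lit 1) (.cons (.br (nat_lit 2) (.cons (.rel (nat_lit 151060608)) .nil)) .nil)) (.node (.node .leaf (nat_lit 2662880907864969) (.br (nat_lit 1) (.cons (.br (nat_lit 4) (.cons (.rel (nat_lit 1090519554)) .nil)) .nil)) .leaf) (nat_lit 2662885078292635) (.br (nat_lit 2) (.cons (.br (nat_lit 6) (.cons (.rel (nat_lit 17247256896)) (.cons (.rel (nat_lit 34426912776)) (.cons (.rel (nat_lit 17247256896)) (.cons (.rel (nat_lit 17246979588)) .nil))))) (.cons (.br (nat_lit 4) (.cons (.rel (nat_lit 1207963716)) (.cons (.rel (nat_lit 1141440528)) .nil))) .nil))) (.node .leaf (nat_lit 2662885078292642) (.br (nat_lit 4) (.cons (.br (nat_lit 3) (.cons (.rel (nat_lit 1342246920)) (.cons (.rel (nat_lit 2416967688)) (.cons (.rel (nat_lit 1342246920)) (.cons (.rel (nat_lit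 2416967688)) (.cons (.rel (nat_lit 2416967688)) (.cons (.rel (nat_lit 2416967688)) .nil))))))) .nil)) .leaf))) (nat_lit 2662885124415639) (.br (nat_lit 1) (.cons (.br (nat_lit 5) (.cons (.rel (nat_lit 8623491408)) (.cons (.rel (nat_lit 8606793729)) (.cons (.rel (nat_lit 4328538120)) (.cons (.rel (nat_lit 4328538120)) .nil))))) (.cons (.br (nat_lit 0) (.cons (.rel (nat_lit 41944068)) (.cons (.rel (nat_lit 20971557)) (.cons (.rel (nat_lit 20972562)) (.cons (.rel (nat_lit 38797440)) .nil))))) (.cons (.br (nat_lit 3) (.cons (.rel (nat_lit 285212697)) (.cons (.rel (nat_lit 285214752)) (.cons (.rel (nat_lit 285213702)) .nil)))) .nil)))) (.node (.node (.node (.node .leaf (nat_lit 2662885124415643) (.br (nat_lit 2) (.cons (.br (nat_lit 1) (.cons (.rel (nat_lit 100663317)) (.cons (.rel (nat_lit 150996993)) .nil))) .nil)) .leaf) (nat_lit 2662951738366609) (.br (nat_lit 1) (.cons (.br (nat_lit 5) (.cons (.rel (nat_lit 4312270848)) .nil)) .nil)) .leaf) (nat_lit 2662953843892379) (.br (nat_lit 4) (.cons (.br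 (nat_lit 3) (.cons (.rel (nat_lit 2416967688)) (.cons (.rel (nat_lit 2416967688)) (.cons (.rel (nat_lit 2416967688)) (.cons (.rel (nat_lit 1342246920)) (.cons (.rel (nat_lit 2416967688)) .nil)))))) .nil)) (.node .leaf (nat_lit 2662953843892386) (.br (nat_lit 4) (.cons (.br (nat_lit 3) (.cons (.rel (nat_lit 2416967688)) (.cons (.rel (nat_lit 1342246920)) (.cons (.rel (nat_lit 2416967688)) (.cons (.rel (nat_lit 2416967688)) (.cons (.rel (nat_lit 2416967688)) .nil)))))) .nil)) .leaf)) (nat_lit 2667171452813969) (.br (nat_lit 5) (.cons (.br (nat_lit 1) (.cons (.rel (nat_lit 4312270848)) (.cons (.rel (nat_lit 8606744580)) (.cons (.rel (nat_lit 8606782464)) (.cons (.rel (nat_lit 4311765504)) .nil))))) .nil)) (.node (.node .leaf (nat_lit 2667201614076055) (.br (nat_lit 1) (.cons (.br (nat_lit 4) (.cons (.rel (nat_lit 1090519554)) (.cons (.br (nat_lit 3) (.cons (.rel (nat_lit 2416967688)) (.cons (.rel (nat_lit 570426384)) (.cons (.rel (nat_lit 285212697)) (.cons (.rel (nat_lit 1342246920)) .nil))))) .nil)))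 (.cons (.br (nat_lit 5) (.cons (.rel (nat_lit 4328538120)) (.cons (.rel (nat_lit 4328538120)) .nil))) .nil))) .leaf) (nat_lit 2667201614076059) (.br (nat_lit 1) (.cons (.br (nat_lit 6) (.cons (.br (nat_lit 2) (.cons (.rel (nat_lit 34426912776)) (.cons (.rel (nat_lit 17249077248)) .nil))) .nil)) .nil)) (.node .leaf (nat_lit 2667203755729801) (.br (nat_lit 2) (.cons (.br (nat_lit 4) (.cons (.rel (nat_lit 1140851220)) .nil)) .nil)) .leaf))))

/-- refutations 14 -/
def e14 : EX := (.node (.node (.node (.node (.node .leaf (nat_lit 2728937474480283) (.br (nat_lit 0) (.cons (.br (nat_lit 1) (.cons (.rel (nat_lit 27263040)) .nil)) .nil)) .leaf) (nat_lit 2728937475762833) (.br (nat_lit 3) (.cons (.br (nat_lit 2) (.cons (.rel (nat_lit 335545368)) (.cons (.rel (nat_lit 335545368)) (.cons (.rel (nat_lit 671088657)) (.cons (.rel (nat_lit 335546373)) .nil))))) (.cons (.br (nat_lit 4) (.cons (.rel (nat_lit 1612709892)) (.cons (.rel (nat_lit 1612709892)) (.cons (.rel (nat_lit 1612709892)) (.cons (.rel (nat_lit 1612709892))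 (.cons (.rel (nat_lit 1342182480)) .nil)))))) (.cons (.br (nat_lit 4) (.cons (.rel (nat_lit 1342246920)) (.cons (.rel (nat_lit 1612709892)) (.cons (.rel (nat_lit 1612709892)) (.cons (.rel (nat_lit 1612709892)) (.cons (.rel (nat_lit 1342182480)) .nil)))))) .nil)))) (.node .leaf (nat_lit 2728937475762837) (.br (nat_lit 2) (.cons (.br (nat_lit 5) (.cons (.rel (nat_lit 4362354945)) .nil)) .nil)) .leaf)) (nat_lit 2728937505131153) (.br (nat_lit 2) (.cons (.br (nat_lit 1) (.cons (.rel (nat_lit 100663317)) (.cons (.rel (nat_lit 84148485)) .nil))) .nil)) (.node (.node .leaf (nat_lit 2729031965043345) (.br (nat_lit 2) (.cons (.br (nat_lit 6) (.cons (.rel (nat_lit 34426851348)) .nil)) .nil)) .leaf) (nat_lit 2729031965043349) (.br (nat_lit 2) (.cons (.br (nat_lit 5) (.cons (.rel (nat_lit 8657048640)) .nil)) .nil)) .leaf)) (nat_lit 2729032011197077) (.br (nat_lit 2) (.cons (.br (nat_lit 5) (.cons (.rel (nat_lit 4363194624)) .nil)) .nil)) (.node (.node (.node .leaf (nat_lit 2729032011293298) (.br (nat_lit 1)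 (.cons (.br (nat_lit 4) (.cons (.rel (nat_lit 1090519554)) .nil)) .nil)) .leaf) (nat_lit 2733286106014353) (.br (nat_lit 1) (.cons (.br (nat_lit 2) (.cons (.rel (nat_lit 100663317)) (.cons (.rel (nat_lit 84148485)) .nil))) .nil)) (.node .leaf (nat_lit 2733288182208663) (.br (nat_lit 6) (.cons (.br (nat_lit 5) (.cons (.rel (nat_lit 25769803842)) (.cons (.rel (nat_lit 25769803842)) (.cons (.br (nat_lit 1) (.cons (.rel (nat_lit 8606744580)) (.cons (.rel (nat_lit 8606744580)) (.cons (.rel (nat_lit 4312006992)) .nil)))) (.cons (.br (nat_lit 1) (.cons (.rel (nat_lit 8606744580)) (.cons (.rel (nat_lit 8606744580)) (.cons (.rel (nat_lit 8606744580)) .nil)))) (.cons (.rel (nat_lit 21474853377)) .nil)))))) .nil)) .leaf)) (nat_lit 2733288182208667) (.br (nat_lit 2) (.cons (.br (nat_lit 6) (.cons (.rel (nat_lit 34426912776)) (.cons (.rel (nat_lit 17248026888)) .nil))) (.cons (.br (nat_lit 4) (.cons (.rel (nat_lit 1141440528)) (.cons (.rel (nat_lit 1141440528)) .nil))) .nil))) (.node (.node .leaf (nat_lit 2733288198963355)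 (.br (nat_lit 1) (.cons (.br (nat_lit 5) (.cons (.rel (nat_lit 4328525841)) (.cons (.rel (nat_lit 8624603136)) (.cons (.rel (nat_lit 4328538120)) (.cons (.rel (nat_lit 4328538120)) (.cons (.rel (nat_lit 8624603136)) .nil)))))) (.cons (.br (nat_lit 0) (.cons (.rel (nat_lit 20973576)) (.cons (.rel (nat_lit 20972562)) (.cons (.rel (nat_lit 20971557)) (.cons (.rel (nat_lit 20972562)) .nil))))) .nil))) .leaf) (nat_lit 2733288198963362) (.br (nat_lit 4) (.cons (.br (nat_lit 3) (.cons (.rel (nat_lit 1342246920)) (.cons (.rel (nat_lit 2416967688)) (.cons (.rel (nat_lit 1342246920)) (.cons (.rel (nat_lit 2416967688)) (.cons (.rel (nat_lit 2416967688)) .nil)))))) .nil)) .leaf))) (nat_lit 2733322556421008) (.br (nat_lit 2) (.cons (.br (nat_lit 5) (.cons (.rel (nat_lit 8725201986)) .nil)) .nil)) (.node (.node (.node (.node .leaf (nat_lit 2733322558701719) (.br (nat_lit 2) (.cons (.br (nat_lit 0) (.cons (.rel (nat_lit 71303178)) (.cons (.rel (nat_lit 142606341)) (.cons (.rel (nat_lit 71439360)) (.cons (.rel (nat_lit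 71439360)) .nil))))) .nil)) .leaf) (nat_lit 2733322558701723) (.br (nat_lit 1) (.cons (.br (nat_lit 5) (.cons (.rel (nat_lit 4328525841)) (.cons (.rel (nat_lit 4328538120)) (.cons (.rel (nat_lit 4328538120)) .nil)))) (.cons (.br (nat_lit 5) (.cons (.rel (nat_lit 8606711952)) (.cons (.rel (nat_lit 4328538120)) (.cons (.rel (nat_lit 4328538120)) .nil)))) .nil))) (.node .leaf (nat_lit 2733764439734427) (.br (nat_lit 3) (.cons (.br (nat_lit 0) (.cons (.rel (nat_lit 272762112)) (.cons (.rel (nat_lit 541065240)) .nil))) .nil)) .leaf)) (nat_lit 2733769358896030) (.br (nat_lit 0) (.cons (.br (nat_lit 6) (.cons (.rel (nat_lit 17184072720)) .nil)) .nil)) (.node (.node .leaf (nat_lit 2733769361131675) (.br (nat_lit 0) (.cons (.br (nat_lit 1) (.cons (.rel (nat_lit 41944068)) (.cons (.rel (nat_lit 20973576)) .nil))) .nil)) .leaf) (nat_lit 2737535998515355) (.br (nat_lit 1) (.cons (.br (nat_lit 0) (.cons (.rel (nat_lit 41944068)) (.cons (.rel (nat_lit 20971557)) (.cons (.rel (nat_lit 20972562)) (.cons (.br (nat_lit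 2) (.cons (.rel (nat_lit 92274720)) (.cons (.rel (nat_lit 71303178)) .nil))) .nil))))) .nil)) .leaf)) (nat_lit 2737535998515362) (.br (nat_lit 6) (.cons (.br (nat_lit 1) (.cons (.rel (nat_lit 17198743572)) (.cons (.br (nat_lit 2) (.cons (.br (nat_lit 4) (.cons (.rel (nat_lit 18320736264)) (.cons (.rel (nat_lit 35433480201)) .nil))) (.cons (.rel (nat_lit 17249077248)) .nil))) .nil))) .nil)) (.node (.node (.node .leaf (nat_lit 2737536044644503) (.br (nat_lit 6) (.cons (.br (nat_lit 2) (.cons (.br (nat_lit 1) (.cons (.br (nat_lit 5) (.cons (.rel (nat_lit 4328538120)) (.cons (.rel (nat_lit 21491614728)) (.cons (.rel (nat_lit 25769803842)) .nil)))) (.cons (.br (nat_lit 4) (.cons (.rel (nat_lit 1090519554)) (.cons (.rel (nat_lit 35433480201)) (.cons (.rel (nat_lit 1107428352)) (.cons (.rel (nat_lit 18270392328)) .nil))))) .nil))) (.cons (.rel (nat_lit 17249077248)) (.cons (.rel (nat_lit 17246979588)) .nil)))) .nil)) .leaf) (nat_lit 2737536044644507) (.br (nat_lit 1) (.cons (.br (nat_lit 0) (.cons (.rel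 (nat_lit 20973576)) (.cons (.rel (nat_lit 20972562)) (.cons (.rel (nat_lit 20971557)) (.cons (.rel (nat_lit 20972562)) .nil))))) .nil)) .leaf) (nat_lit 2737570387591330) (.br (nat_lit 1) (.cons (.br (nat_lit 0) (.cons (.rel (nat_lit 41944068)) (.cons (.rel (nat_lit 38797440)) (.cons (.rel (nat_lit 20971557)) (.cons (.rel (nat_lit 20972562)) (.cons (.rel (nat_lit 20972562)) .nil)))))) .nil)) (.node (.node .leaf (nat_lit 2737574573521553) (.br (nat_lit 1) (.cons (.br (nat_lit 2) (.cons (.rel (nat_lit 100664322)) .nil)) .nil)) .leaf) (nat_lit 2738695037078409) (.br (nat_lit 0) (.cons (.br (nat_lit 1) (.cons (.rel (nat_lit 20996112)) .nil)) .nil)) .leaf))))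

/-- refutations 17 -/
def e17 : EX := (.node (.node (.node (.node (.node .leaf (nat_lit 2850020673172117) (.br (nat_lit 3) (.cons (.br (nat_lit 1) (.cons (.rel (nat_lit 285234240)) (.cons (.rel (nat_lit 285214752)) .nil))) .nil)) .leaf) (nat_lit 2850252541931682) (.br (nat_lit 0) (.cons (.br (nat_lit 1) (.cons (.rel (nat_lit 21106689)) .nil)) .nil)) .leaf) (nat_lit 2851050962512649) (.br (nat_lit 2) (.cons (.br (nat_lit 4) (.cons (.rel (nat_lit 1207960704)) .nil)) .nil)) (.node .leaf (nat_lit 2851050962512773) (.br (nat_lit 1) (.cons (.br (nat_lit 2) (.cons (.rel (nat_lit 100664322)) (.cons (.rel (nat_lit 100794432)) .nil))) .nil)) .leaf)) (nat_lit 2851050962513403) (.br (nat_lit 2) (.cons (.br (nat_lit 5) (.cons (.rel (nat_lit 4362343680)) .nil)) .nil)) (.node (.node (.node .leaf (nat_lit 2851050963542178) (.br (nat_lit 1) (.cons (.br (nat_lit 4) (.cons (.rel (nat_lit 1090519554)) .nil)) .nil)) .leaf) (nat_lit 2852177267354257) (.br (nat_lit 6) (.cons (.br (nat_lit 2) (.cons (.rel (nat_lit 17249077248))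 (.cons (.rel (nat_lit 17249077248)) .nil))) .nil)) .leaf) (nat_lit 2856399168592784) (.br (nat_lit 1) (.cons (.br (nat_lit 2) (.cons (.rel (nat_lit 151031808)) .nil)) .nil)) (.node .leaf (nat_lit 2856399170904215) (.br (nat_lit 2) (.cons (.br (nat_lit 4) (.cons (.rel (nat_lit 1141440528)) (.cons (.rel (nat_lit 1141440528)) .nil))) .nil)) .leaf))) (nat_lit 2856399170904219) (.br (nat_lit 6) (.cons (.br (nat_lit 4) (.cons (.br (nat_lit 1) (.cons (.rel (nat_lit 2181038337)) (.cons (.rel (nat_lit 1090519554)) .nil))) (.cons (.rel (nat_lit 35433480201)) .nil))) .nil)) (.node (.node (.node (.node .leaf (nat_lit 2856433501274267) (.br (nat_lit 6) (.cons (.br (nat_lit 4) (.cons (.rel (nat_lit 19327353888)) (.cons (.br (nat_lit 0) (.cons (.rel (nat_lit 34363932960)) (.cons (.rel (nat_lit 1078067208)) (.cons (.rel (nat_lit 17184096264)) (.cons (.rel (nat_lit 1078067208)) (.cons (.rel (nat_lit 34363932960)) .nil)))))) .nil))) .nil)) .leaf) (nat_lit 2856433501274274) (.br (nat_lit 4) (.cons (.br (nat_lit 3)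 (.cons (.rel (nat_lit 2416967688)) (.cons (.rel (nat_lit 1342246920)) (.cons (.rel (nat_lit 2416967688)) (.cons (.rel (nat_lit 2416967688)) (.cons (.rel (nat_lit 2416967688)) .nil)))))) (.cons (.br (nat_lit 5) (.cons (.rel (nat_lit 5368775172)) (.cons (.rel (nat_lit 6442460160)) .nil))) .nil))) .leaf) (nat_lit 2860683442471074) (.br (nat_lit 0) (.cons (.br (nat_lit 3) (.cons (.rel (nat_lit 541065240)) .nil)) .nil)) (.node .leaf (nat_lit 2860715660564631) (.br (nat_lit 1) (.cons (.br (nat_lit 5) (.cons (.rel (nat_lit 4328538120)) (.cons (.br (nat_lit 6) (.cons (.br (nat_lit 4) (.cons (.rel (nat_lit 1090519554)) (.cons (.rel (nat_lit 18270392328)) (.cons (.rel (nat_lit 1107428352)) (.cons (.rel (nat_lit 2164328448)) .nil))))) (.cons (.rel (nat_lit 21491614728)) (.cons (.rel (nat_lit 21491614728)) .nil)))) (.cons (.rel (nat_lit 4328538120)) .nil)))) (.cons (.br (nat_lit 5) (.cons (.rel (nat_lit 4328538120)) (.cons (.rel (nat_lit 4328538120)) (.cons (.rel (nat_lit 4328538120)) .nil)))) .nil))) .leaf))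 (nat_lit 2860715660564635) (.br (nat_lit 1) (.cons (.br (nat_lit 0) (.cons (.rel (nat_lit 41944068)) (.cons (.rel (nat_lit 20971557)) (.cons (.rel (nat_lit 20972562)) (.cons (.rel (nat_lit 20972562)) .nil))))) .nil)) (.node (.node .leaf (nat_lit 2860719875832469) (.br (nat_lit 1) (.cons (.br (nat_lit 4) (.cons (.rel (nat_lit 1090519554)) .nil)) .nil)) .leaf) (nat_lit 2862908720011925) (.br (nat_lit 0) (.cons (.br (nat_lit 2) (.cons (.rel (nat_lit 71304228)) .nil)) .nil)) (.node .leaf (nat_lit 2862908720020863) (.br (nat_lit 1) (.cons (.br (nat_lit 4) (.cons (.rel (nat_lit 1090519554)) .nil)) .nil)) .leaf))))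

/-- refutations 19 -/
def e19 : EX := (.node (.node .leaf (nat_lit 3166860011219124) (.br (nat_lit 0) (.cons (.br (nat_lit 3) (.cons (.rel (nat_lit 272695617)) .nil)) .nil)) .leaf) (nat_lit 3184495462534025) (.br (nat_lit 3) (.cons (.br (nat_lit 4) (.cons (.rel (nat_lit 2416197696)) .nil)) .nil)) (.node .leaf (nat_lit 3197088306645897) (.br (nat_lit 0) (.cons (.br (nat_lit 2) (.cons (.rel (nat_lit 142606341)) .nil)) .nil)) .leaf))

/-- refutations 20 -/
def e20 : EX := (.node (.node (.node (.node .leaf (nat_lit 3208285936449718) (.br (nat_lit 1) (.cons (.br (nat_lit 0) (.cons (.rel (nat_lit 38797440)) (.cons (.rel (nat_lit 38797440)) .nil))) .nil)) .leaf) (nat_lit 3208285937929093) (.br (nat_lit 2) (.cons (.br (nat_lit 3) (.cons (.rel (nat_lit 335578176)) .nil)) .nil)) .leaf) (nat_lit 3208447347440501) (.br (nat_lit 0) (.cons (.br (nat_lit 1) (.cons (.rel (nat_lit 37753152)) .nil)) .nil)) (.node (.node .leaf (nat_lit 3212795639477480) (.br (nat_lit 3) (.cons (.br (nat_lit 0) (.cons (.rel (nat_lit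 276824100)) (.cons (.rel (nat_lit 541065240)) .nil))) .nil)) .leaf) (nat_lit 3213890318553270) (.br (nat_lit 0) (.cons (.br (nat_lit 1) (.cons (.rel (nat_lit 20976768)) .nil)) .nil)) .leaf)) (nat_lit 3213895689883830) (.br (nat_lit 0) (.cons (.br (nat_lit 3) (.cons (.rel (nat_lit 272662800)) .nil)) .nil)) (.node (.node (.node .leaf (nat_lit 4433283481415940) (.br (nat_lit 0) (.cons (.br (nat_lit 1) (.cons (.rel (nat_lit 21102672)) .nil)) .nil)) .leaf) (nat_lit 4433287666295040) (.br (nat_lit 1) (.cons (.br (nat_lit 2) (.cons (.rel (nat_lit 100663317)) .nil)) .nil)) .leaf) (nat_lit 4433317857932015) (.br (nat_lit 0) (.cons (.br (nat_lit 6) (.cons (.rel (nat_lit 17188258320)) .nil)) .nil)) (.node (.node .leaf (nat_lit 4439986269895561) (.br (nat_lit 4) (.cons (.br (nat_lit 1) (.cons (.rel (nat_lit 1090519554)) (.cons (.rel (nat_lit 1091048448)) .nil))) .nil)) .leaf) (nat_lit 4440209738128265) (.br (nat_lit 0) (.cons (.br (nat_lit 1) (.cons (.rel (nat_lit 20996112)) .nil)) .nil)) .leaf)))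

/-- refutations 21 -/
def e21 : EX := (.node (.node (.node (.node .leaf (nat_lit 4574020986540292) (.br (nat_lit 0) (.cons (.br (nat_lit 1) (.cons (.rel (nat_lit 20973576)) .nil)) .nil)) .leaf) (nat_lit 4574020986548975) (.br (nat_lit 0) (.cons (.br (nat_lit 4) (.cons (.rel (nat_lit 2152727553)) .nil)) .nil)) .leaf) (nat_lit 4574055363064068) (.br (nat_lit 1) (.cons (.br (nat_lit 2) (.cons (.rel (nat_lit 100663317)) .nil)) .nil)) (.node .leaf (nat_lit 4574059560526084) (.br (nat_lit 0) (.cons (.br (nat_lit 1) (.cons (.rel (nat_lit 20973576)) .nil)) .nil)) .leaf)) (nat_lit 4580691701453060) (.br (nat_lit 3) (.cons (.br (nat_lit 6) (.cons (.rel (nat_lit 17448304776)) .nil)) .nil)) (.node (.node (.node .leaf (nat_lit 4581498445955332) (.br (nat_lit 2) (.cons (.br (nat_lit 3) (.cons (.rel (nat_lit 335578176)) .nil)) .nil)) .leaf) (nat_lit 4581721990011140) (.br (nat_lit 3) (.cons (.br (nat_lit 4) (.cons (.rel (nat_lit 1342186497)) (.cons (.rel (nat_lit 1342308384)) .nil))) .nil)) .leaf) (nat_lit 4585784823316740)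 (.br (nat_lit 0) (.cons (.br (nat_lit 1) (.cons (.rel (nat_lit 27263040)) .nil)) .nil)) (.node .leaf (nat_lit 4585802591916933) (.br (nat_lit 3) (.cons (.br (nat_lit 0) (.cons (.rel (nat_lit 276840576)) (.cons (.rel (nat_lit 272662800)) .nil))) .nil)) .leaf)))

/-- refutations 22 -/
def e22 : EX := (.node (.node (.node .leaf (nat_lit 4838934128976498) (.br (nat_lit 0) (.cons (.br (nat_lit 1) (.cons (.rel (nat_lit 38027268)) .nil)) .nil)) .leaf) (nat_lit 4838934130255074) (.br (nat_lit 0) (.cons (.br (nat_lit 1) (.cons (.rel (nat_lit 27263040)) .nil)) .nil)) (.node .leaf (nat_lit 4838968506916347) (.br (nat_lit 0) (.cons (.br (nat_lit 2) (.cons (.rel (nat_lit 71303178)) .nil)) .nil)) .leaf)) (nat_lit 4844383340551049) (.br (nat_lit 1) (.cons (.br (nat_lit 0) (.cons (.rel (nat_lit 38797440)) (.cons (.rel (nat_lit 41944068)) .nil))) .nil)) (.node (.node .leaf (nat_lit 4845381297363219) (.br (nat_lit 0) (.cons (.br (nat_lit 1) (.cons (.rel (nat_lit 20971557)) .nil)) .nil)) .leaf) (nat_lit 4845673497758353)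 (.br (nat_lit 0) (.cons (.br (nat_lit 1) (.cons (.rel (nat_lit 20976768)) .nil)) .nil)) (.node .leaf (nat_lit 4849758011652877) (.br (nat_lit 0) (.cons (.br (nat_lit 1) (.cons (.rel (nat_lit 20972562)) .nil)) .nil)) .leaf)))

/-- refutations 23 -/
def e23 : EX := (.node .leaf (nat_lit 5459055963583369) (.br (nat_lit 0) (.cons (.br (nat_lit 3) (.cons (.rel (nat_lit 272762112)) .nil)) .nil)) .leaf)

/-- refutations 24 -/
def e24 : EX := (.node (.node (.node .leaf (nat_lit 11111420674465151) (.br (nat_lit 0) (.cons (.br (nat_lit 2) (.cons (.rel (nat_lit 71340048)) .nil)) .nil)) .leaf) (nat_lit 11111420755670399) (.br (nat_lit 4) (.cons (.br (nat_lit 3) (.cons (.rel (nat_lit 1342185492)) (.cons (.rel (nat_lit 1342246920)) .nil))) .nil)) (.node .leaf (nat_lit 11111420896846459) (.br (nat_lit 0) (.cons (.br (nat_lit 4) (.cons (.rel (nat_lit 1082654784)) .nil)) .nil)) .leaf)) (nat_lit 11111712954516731) (.br (nat_lit 0) (.cons (.br (nat_lit 2) (.cons (.rel (nat_lit 142606341)) (.cons (.rel (nat_lit 142606341))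 .nil))) .nil)) (.node (.node .leaf (nat_lit 11111712955857531) (.br (nat_lit 0) (.cons (.br (nat_lit 6) (.cons (.rel (nat_lit 17184072720)) (.cons (.rel (nat_lit 17188258320)) .nil))) .nil)) .leaf) (nat_lit 11111712955900830) (.br (nat_lit 0) (.cons (.br (nat_lit 4) (.cons (.rel (nat_lit 1077944352)) .nil)) .nil)) .leaf))

/-- refutations 25 -/
def e25 : EX := (.node (.node (.node (.node .leaf (nat_lit 11434975196057755) (.br (nat_lit 1) (.cons (.br (nat_lit 2) (.cons (.rel (nat_lit 84414528)) .nil)) .nil)) .leaf) (nat_lit 11434975197452949) (.br (nat_lit 0) (.cons (.br (nat_lit 1) (.cons (.rel (nat_lit 20976768)) (.cons (.rel (nat_lit 37830912)) .nil))) .nil)) (.node .leaf (nat_lit 11434975243576208) (.br (nat_lit 2) (.cons (.br (nat_lit 3) (.cons (.rel (nat_lit 335544354)) .nil)) .nil)) .leaf)) (nat_lit 11434975243590293) (.br (nat_lit 0) (.cons (.br (nat_lit 6) (.cons (.rel (nat_lit 17184063636)) .nil)) .nil)) (.node (.node .leaf (nat_lit 11434975243590533) (.br (nat_lit 0) (.cons (.br (nat_lit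 1) (.cons (.rel (nat_lit 20973576)) .nil)) .nil)) .leaf) (nat_lit 11436527822920337) (.br (nat_lit 3) (.cons (.br (nat_lit 5) (.cons (.rel (nat_lit 4563469320)) .nil)) .nil)) .leaf)) (nat_lit 11436529974590097) (.br (nat_lit 0) (.cons (.br (nat_lit 2) (.cons (.rel (nat_lit 139526208)) .nil)) .nil)) (.node (.node (.node .leaf (nat_lit 11437071673305243) (.br (nat_lit 1) (.cons (.br (nat_lit 5) (.cons (.rel (nat_lit 4328538120)) .nil)) .nil)) .leaf) (nat_lit 11437071673305250) (.br (nat_lit 1) (.cons (.br (nat_lit 5) (.cons (.rel (nat_lit 8623752192)) .nil)) .nil)) .leaf) (nat_lit 11437071674178448) (.br (nat_lit 0) (.cons (.br (nat_lit 2) (.cons (.rel (nat_lit 71439360)) .nil)) .nil)) (.node (.node .leaf (nat_lit 11437071674423953) (.br (nat_lit 6) (.cons (.br (nat_lit 0) (.cons (.rel (nat_lit 34363932960)) (.cons (.rel (nat_lit 17184072720)) .nil))) .nil)) .leaf) (nat_lit 11437071674669833) (.br (nat_lit 6) (.cons (.br (nat_lit 0) (.cons (.rel (nat_lit 17184079968)) (.cons (.rel (nat_lit 17184072720))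 .nil))) .nil)) .leaf)))

/-- refutations 26 -/
def e26 : EX := (.node (.node (.node (.node (.node .leaf (nat_lit 11437164102921093) (.br (nat_lit 5) (.cons (.br (nat_lit 1) (.cons (.rel (nat_lit 8606782464)) (.cons (.rel (nat_lit 8606711952)) .nil))) .nil)) .leaf) (nat_lit 11437166179152653) (.br (nat_lit 0) (.cons (.br (nat_lit 3) (.cons (.rel (nat_lit 272897040)) .nil)) .nil)) .leaf) (nat_lit 11437166179346583) (.br (nat_lit 5) (.cons (.br (nat_lit 6) (.cons (.rel (nat_lit 25769803842)) .nil)) .nil)) (.node .leaf (nat_lit 11437166179346587) (.br (nat_lit 5) (.cons (.br (nat_lit 6) (.cons (.rel (nat_lit 25769803842)) .nil)) .nil)) .leaf)) (nat_lit 11437166196132621) (.br (nat_lit 4) (.cons (.br (nat_lit 1) (.cons (.rel (nat_lit 1090519554)) (.cons (.rel (nat_lit 1090519554)) .nil))) .nil)) (.node (.node .leaf (nat_lit 11440384259867525) (.br (nat_lit 1) (.cons (.br (nat_lit 2) (.cons (.rel (nat_lit 86000640)) .nil)) .nil)) .leaf) (nat_lit 11440719355506698) (.br (nat_lit 0) (.cons (.br (nat_lit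 1) (.cons (.rel (nat_lit 20973576)) .nil)) .nil)) (.node .leaf (nat_lit 11440764813367953) (.br (nat_lit 1) (.cons (.br (nat_lit 0) (.cons (.rel (nat_lit 41944068)) (.cons (.rel (nat_lit 20973576)) .nil))) .nil)) .leaf))) (nat_lit 11440764813367957) (.br (nat_lit 1) (.cons (.br (nat_lit 3) (.cons (.rel (nat_lit 285237252)) .nil)) .nil)) (.node (.node (.node (.node .leaf (nat_lit 11440764813376149) (.br (nat_lit 0) (.cons (.br (nat_lit 3) (.cons (.rel (nat_lit 276825105)) .nil)) .nil)) .leaf) (nat_lit 11441383819021543) (.br (nat_lit 0) (.cons (.br (nat_lit 1) (.cons (.rel (nat_lit 21057540)) .nil)) .nil)) .leaf) (nat_lit 11441383821343497) (.br (nat_lit 6) (.cons (.br (nat_lit 3) (.cons (.rel (nat_lit 17448304776)) (.cons (.rel (nat_lit 17448310848)) (.cons (.rel (nat_lit 34896609348)) .nil)))) .nil)) (.node .leaf (nat_lit 11441383821476497) (.br (nat_lit 1) (.cons (.br (nat_lit 0) (.cons (.rel (nat_lit 20973576)) (.cons (.rel (nat_lit 41944068)) (.cons (.rel (nat_lit 20971557)) (.cons (.rel (nat_lit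 20972562)) (.cons (.rel (nat_lit 38027268)) .nil)))))) (.cons (.br (nat_lit 0) (.cons (.rel (nat_lit 38797440)) (.cons (.rel (nat_lit 20971557)) (.cons (.rel (nat_lit 20971557)) (.cons (.rel (nat_lit 41944068)) (.cons (.rel (nat_lit 20973576)) .nil)))))) (.cons (.br (nat_lit 6) (.cons (.rel (nat_lit 17197187076)) (.cons (.rel (nat_lit 17198743572)) (.cons (.rel (nat_lit 17196646917)) (.cons (.rel (nat_lit 17197236225)) .nil))))) .nil)))) .leaf)) (nat_lit 11441383821476501) (.br (nat_lit 1) (.cons (.br (nat_lit 5) (.cons (.rel (nat_lit 8606744580)) (.cons (.rel (nat_lit 4328538120)) (.cons (.rel (nat_lit 4328538120)) .nil)))) .nil)) (.node (.node .leaf (nat_lit 11441383838261905) (.br (nat_lit 1) (.cons (.br (nat_lit 5) (.cons (.rel (nat_lit 8606744580)) (.cons (.rel (nat_lit 4328538120)) (.cons (.rel (nat_lit 4328538120)) (.cons (.rel (nat_lit 8606744580)) .nil))))) (.cons (.br (nat_lit 0) (.cons (.rel (nat_lit 38797440)) (.cons (.rel (nat_lit 20971557)) (.cons (.rel (nat_lit 41944068)) (.cons (.rel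 (nat_lit 41944068)) (.cons (.rel (nat_lit 20971557)) .nil)))))) .nil))) .leaf) (nat_lit 11441383838261909) (.br (nat_lit 1) (.cons (.br (nat_lit 5) (.cons (.rel (nat_lit 8606744580)) (.cons (.rel (nat_lit 4328538120)) (.cons (.rel (nat_lit 4328538120)) .nil)))) .nil)) (.node .leaf (nat_lit 11441383838262025) (.br (nat_lit 5) (.cons (.br (nat_lit 4) (.cons (.rel (nat_lit 6442451076)) (.cons (.rel (nat_lit 5370806337)) .nil))) .nil)) .leaf))))

/-- refutations 27 -/
def e27 : EX := (.node (.node (.node (.node (.node .leaf (nat_lit 11441418214791825) (.br (nat_lit 1) (.cons (.br (nat_lit 5) (.cons (.rel (nat_lit 4328538120)) (.cons (.rel (nat_lit 4328538120)) (.cons (.rel (nat_lit 4328538120)) .nil)))) (.cons (.br (nat_lit 5) (.cons (.rel (nat_lit 4312270848)) (.cons (.rel (nat_lit 8623752192)) (.cons (.rel (nat_lit 4328538120)) .nil)))) .nil))) .leaf) (nat_lit 11441418214791829) (.br (nat_lit 1) (.cons (.br (nat_lit 5) (.cons (.rel (nat_lit 4328538120)) (.cons (.rel (nat_lit 4328538120)) (.cons (.rel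 (nat_lit 4328538120)) (.cons (.rel (nat_lit 4312270848)) .nil))))) .nil)) .leaf) (nat_lit 11441418718093969) (.br (nat_lit 5) (.cons (.br (nat_lit 4) (.cons (.rel (nat_lit 9663682560)) (.cons (.rel (nat_lit 10737745920)) (.cons (.rel (nat_lit 5368775172)) (.cons (.rel (nat_lit 6442460160)) .nil))))) (.cons (.br (nat_lit 1) (.cons (.rel (nat_lit 4312270848)) (.cons (.rel (nat_lit 8606744580)) (.cons (.rel (nat_lit 4312270848)) .nil)))) .nil))) (.node (.node .leaf (nat_lit 11441418718094093) (.br (nat_lit 0) (.cons (.br (nat_lit 2) (.cons (.rel (nat_lit 71305233)) .nil)) .nil)) .leaf) (nat_lit 11441418718108305) (.br (nat_lit 0) (.cons (.br (nat_lit 1) (.cons (.rel (nat_lit 20973576)) (.cons (.rel (nat_lit 27263040)) .nil))) (.cons (.br (nat_lit 1) (.cons (.rel (nat_lit 20971557)) (.cons (.rel (nat_lit 20971557)) .nil))) .nil))) .leaf)) (nat_lit 11441418718108309) (.br (nat_lit 1) (.cons (.br (nat_lit 5) (.cons (.rel (nat_lit 4328538120)) (.cons (.rel (nat_lit 4328538120)) .nil))) .nil)) (.node (.node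 (.node .leaf (nat_lit 11441452571966720) (.br (nat_lit 0) (.cons (.br (nat_lit 2) (.cons (.rel (nat_lit 71303178)) (.cons (.rel (nat_lit 71320704)) .nil))) .nil)) .leaf) (nat_lit 11441452572226943) (.br (nat_lit 2) (.cons (.br (nat_lit 1) (.cons (.rel (nat_lit 150996993)) (.cons (.rel (nat_lit 83902980)) (.cons (.rel (nat_lit 150996993)) .nil)))) (.cons (.br (nat_lit 3) (.cons (.rel (nat_lit 335544354)) (.cons (.rel (nat_lit 335544354)) (.cons (.rel (nat_lit 335545368)) .nil)))) .nil))) .leaf) (nat_lit 11441452574262149) (.br (nat_lit 1) (.cons (.br (nat_lit 0) (.cons (.rel (nat_lit 20973576)) (.cons (.rel (nat_lit 41944068)) (.cons (.rel (nat_lit 20979780)) .nil)))) .nil)) (.node (.node .leaf (nat_lit 11441452574530193) (.br (nat_lit 1) (.cons (.br (nat_lit 0) (.cons (.rel (nat_lit 20973576)) (.cons (.rel (nat_lit 41944068)) (.cons (.rel (nat_lit 20971557)) (.cons (.rel (nat_lit 20972562)) (.cons (.rel (nat_lit 20972562)) .nil)))))) (.cons (.br (nat_lit 0) (.cons (.rel (nat_lit 38797440)) (.cons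 (.rel (nat_lit 20971557)) (.cons (.rel (nat_lit 20971557)) (.cons (.rel (nat_lit 41944068)) (.cons (.rel (nat_lit 20971557)) .nil)))))) .nil))) .leaf) (nat_lit 11441452574530197) (.br (nat_lit 1) (.cons (.br (nat_lit 5) (.cons (.br (nat_lit 2) (.cons (.rel (nat_lit 8724168960)) (.cons (.rel (nat_lit 8724414465)) (.cons (.rel (nat_lit 8724168960)) .nil)))) (.cons (.rel (nat_lit 4328538120)) (.cons (.rel (nat_lit 4328538120)) (.cons (.rel (nat_lit 4312270848)) .nil))))) .nil)) .leaf))) (nat_lit 11441453061046929) (.br (nat_lit 1) (.cons (.br (nat_lit 0) (.cons (.rel (nat_lit 20971557)) (.cons (.rel (nat_lit 41944068)) .nil))) .nil)) (.node (.node (.node (.node .leaf (nat_lit 11441453061055121) (.br (nat_lit 1) (.cons (.br (nat_lit 0) (.cons (.rel (nat_lit 20973576)) (.cons (.rel (nat_lit 20972562)) (.cons (.rel (nat_lit 20972562)) .nil)))) (.cons (.br (nat_lit 0) (.cons (.rel (nat_lit 38797440)) (.cons (.rel (nat_lit 41944068)) (.cons (.rel (nat_lit 41944068)) .nil)))) .nil))) .leaf) (nat_lit 11441453061055125)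 (.br (nat_lit 1) (.cons (.br (nat_lit 4) (.cons (.rel (nat_lit 2164328448)) (.cons (.rel (nat_lit 1090519554)) .nil))) .nil)) .leaf) (nat_lit 11441454680055963) (.br (nat_lit 1) (.cons (.br (nat_lit 2) (.cons (.rel (nat_lit 100664322)) .nil)) .nil)) (.node (.node .leaf (nat_lit 11441579186477713) (.br (nat_lit 0) (.cons (.br (nat_lit 2) (.cons (.rel (nat_lit 71303178)) .nil)) .nil)) .leaf) (nat_lit 11441579186477717) (.br (nat_lit 0) (.cons (.br (nat_lit 5) (.cons (.rel (nat_lit 8594391048)) .nil)) .nil)) .leaf)) (nat_lit 11441589866478469) (.br (nat_lit 0) (.cons (.br (nat_lit 1) (.cons (.rel (nat_lit 20973576)) .nil)) .nil)) (.node (.node (.node .leaf (nat_lit 11441589866732421) (.br (nat_lit 0) (.cons (.br (nat_lit 1) (.cons (.rel (nat_lit 20988033)) .nil)) .nil)) .leaf) (nat_lit 11442448440966655) (.br (nat_lit 0) (.cons (.br (nat_lit 1) (.cons (.rel (nat_lit 20971557)) .nil)) .nil)) .leaf) (nat_lit 11442448470408080) (.br (nat_lit 0) (.cons (.br (nat_lit 1) (.cons (.rel (nat_lit 20973576)) .nil))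 .nil)) (.node (.node .leaf (nat_lit 11442654712691589) (.br (nat_lit 0) (.cons (.br (nat_lit 1) (.cons (.rel (nat_lit 20973576)) .nil)) .nil)) .leaf) (nat_lit 11442752863030759) (.br (nat_lit 0) (.cons (.br (nat_lit 1) (.cons (.rel (nat_lit 38076417)) .nil)) .nil)) .leaf))))

/-- refutations 28 -/
def e28 : EX := (.node (.node (.node (.node (.node .leaf (nat_lit 11442921420126985) (.br (nat_lit 5) (.cons (.br (nat_lit 3) (.cons (.rel (nat_lit 8858374404)) (.cons (.rel (nat_lit 4563468306)) .nil))) .nil)) .leaf) (nat_lit 11445668090501275) (.br (nat_lit 1) (.cons (.br (nat_lit 2) (.cons (.rel (nat_lit 150996993)) (.cons (.rel (nat_lit 100664322)) (.cons (.rel (nat_lit 86049801)) .nil)))) .nil)) (.node .leaf (nat_lit 11445672209308425) (.br (nat_lit 1) (.cons (.br (nat_lit 4) (.cons (.rel (nat_lit 2166620160)) .nil)) .nil)) .leaf)) (nat_lit 11445672209361583) (.br (nat_lit 1) (.cons (.br (nat_lit 6) (.cons (.rel (nat_lit 17197187076)) .nil)) .nil)) (.node (.node .leaf (nat_lit 11445672288977553) (.br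 (nat_lit 6) (.cons (.br (nat_lit 5) (.cons (.rel (nat_lit 21475393536)) (.cons (.rel (nat_lit 21474842112)) (.cons (.rel (nat_lit 21476147232)) .nil)))) (.cons (.br (nat_lit 1) (.cons (.rel (nat_lit 17198743572)) (.cons (.br (nat_lit 0) (.cons (.rel (nat_lit 17184096264)) (.cons (.rel (nat_lit 20971557)) (.cons (.rel (nat_lit 17184096264)) (.cons (.rel (nat_lit 34363932960)) (.cons (.rel (nat_lit 20972562)) .nil)))))) (.cons (.rel (nat_lit 17197187076)) (.cons (.rel (nat_lit 17197187076)) (.cons (.rel (nat_lit 17198743572)) .nil)))))) .nil))) .leaf) (nat_lit 11445672289039023) (.br (nat_lit 0) (.cons (.br (nat_lit 1) (.cons (.rel (nat_lit 20972562)) (.cons (.rel (nat_lit 20972562)) (.cons (.rel (nat_lit 20971557)) (.cons (.rel (nat_lit 41944068)) .nil))))) .nil)) (.node .leaf (nat_lit 11445672289092219) (.br (nat_lit 0) (.cons (.br (nat_lit 6) (.cons (.rel (nat_lit 17188258320)) .nil)) .nil)) .leaf))) (nat_lit 11445672289104498) (.br (nat_lit 0) (.cons (.br (nat_lit 1) (.cons (.rel (nat_lit 27263040))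 .nil)) .nil)) (.node (.node (.node .leaf (nat_lit 11445672290514303) (.br (nat_lit 6) (.cons (.br (nat_lit 0) (.cons (.rel (nat_lit 34368192513)) (.cons (.rel (nat_lit 34363932960)) (.cons (.rel (nat_lit 17184096264)) .nil)))) .nil)) .leaf) (nat_lit 11445672290514427) (.br (nat_lit 5) (.cons (.br (nat_lit 1) (.cons (.rel (nat_lit 8623752192)) (.cons (.rel (nat_lit 8606744580)) .nil))) .nil)) (.node .leaf (nat_lit 11445672432167839) (.br (nat_lit 0) (.cons (.br (nat_lit 4) (.cons (.rel (nat_lit 1077968901)) .nil)) .nil)) .leaf)) (nat_lit 11445701426806946) (.br (nat_lit 1) (.cons (.br (nat_lit 4) (.cons (.rel (nat_lit 1108869120)) .nil)) .nil)) (.node (.node .leaf (nat_lit 11445702450239639) (.br (nat_lit 2) (.cons (.br (nat_lit 5) (.cons (.rel (nat_lit 8724168960)) .nil)) .nil)) .leaf) (nat_lit 11445702450239643) (.br (nat_lit 1) (.cons (.br (nat_lit 2) (.cons (.rel (nat_lit 150996993)) .nil)) .nil)) .leaf))) (nat_lit 11445702451768208) (.br (nat_lit 2) (.cons (.br (nat_lit 6) (.cons (.rel (nat_lit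 17249077248)) .nil)) .nil)) (.node (.node (.node (.node .leaf (nat_lit 11445706694875797) (.br (nat_lit 1) (.cons (.br (nat_lit 2) (.cons (.rel (nat_lit 83902980)) .nil)) .nil)) .leaf) (nat_lit 11445706694906543) (.br (nat_lit 1) (.cons (.br (nat_lit 0) (.cons (.rel (nat_lit 20972562)) (.cons (.rel (nat_lit 38797440)) .nil))) .nil)) (.node .leaf (nat_lit 11445706794189577) (.br (nat_lit 0) (.cons (.br (nat_lit 6) (.cons (.rel (nat_lit 17188258320)) .nil)) .nil)) .leaf)) (nat_lit 11445964490650850) (.br (nat_lit 0) (.cons (.br (nat_lit 3) (.cons (.rel (nat_lit 541066245)) .nil)) .nil)) (.node (.node .leaf (nat_lit 11446153326701231) (.br (nat_lit 0) (.cons (.br (nat_lit 1) (.cons (.rel (nat_lit 27263040)) .nil)) .nil)) .leaf) (nat_lit 11446153468201621) (.br (nat_lit 4) (.cons (.br (nat_lit 5) (.cons (.rel (nat_lit 5368971528)) .nil)) .nil)) .leaf)) (nat_lit 11446153468446902) (.br (nat_lit 0) (.cons (.br (nat_lit 1) (.cons (.rel (nat_lit 38797440)) .nil)) .nil)) (.node (.node (.node .leaf (nat_lit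 11446153469261879) (.br (nat_lit 0) (.cons (.br (nat_lit 2) (.cons (.rel (nat_lit 72880128)) .nil)) .nil)) .leaf) (nat_lit 11446153469262485) (.br (nat_lit 3) (.cons (.br (nat_lit 5) (.cons (.rel (nat_lit 4564713732)) .nil)) .nil)) (.node .leaf (nat_lit 11446153469262601) (.br (nat_lit 2) (.cons (.br (nat_lit 4) (.cons (.rel (nat_lit 2214597636)) .nil)) .nil)) .leaf)) (nat_lit 11446153469768367) (.br (nat_lit 0) (.cons (.br (nat_lit 1) (.cons (.rel (nat_lit 41944068)) .nil)) .nil)) (.node (.node .leaf (nat_lit 11446153469775934) (.br (nat_lit 0) (.cons (.br (nat_lit 1) (.cons (.rel (nat_lit 38797440)) (.cons (.rel (nat_lit 27263040)) .nil))) (.cons (.br (nat_lit 1) (.cons (.rel (nat_lit 26218752)) (.cons (.rel (nat_lit 20996112)) .nil))) .nil))) .leaf) (nat_lit 11446153469776773) (.br (nat_lit 4) (.cons (.br (nat_lit 0) (.cons (.rel (nat_lit 1077954624)) (.cons (.rel (nat_lit 2152726548)) (.cons (.rel (nat_lit 1077957636)) .nil)))) .nil)) .leaf))))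

/-- refutations 29 -/
def e29 : EX := (.node (.node (.node .leaf (nat_lit 11446970003977448) (.br (nat_lit 0) (.cons (.br (nat_lit 1) (.cons (.rel (nat_lit 20971557)) .nil)) .nil)) .leaf) (nat_lit 11447185269279377) (.br (nat_lit 0) (.cons (.br (nat_lit 2) (.cons (.rel (nat_lit 71323716)) .nil)) .nil)) .leaf) (nat_lit 11447826809299829) (.br (nat_lit 0) (.cons (.br (nat_lit 1) (.cons (.rel (nat_lit 20996112)) .nil)) .nil)) (.node .leaf (nat_lit 11448344404838525) (.br (nat_lit 0) (.cons (.br (nat_lit 1) (.cons (.rel (nat_lit 23068932)) .nil)) .nil)) .leaf))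

/-- refutations 31 -/
def e31 : EX := (.node (.node (.node (.node (.node .leaf (nat_lit 11633900946472443) (.br (nat_lit 1) (.cons (.br (nat_lit 4) (.cons (.rel (nat_lit 1107329040)) .nil)) .nil)) .leaf) (nat_lit 11634339035521685) (.br (nat_lit 0) (.cons (.br (nat_lit 1) (.cons (.rel (nat_lit 20979780)) .nil)) .nil)) (.node .leaf (nat_lit 11634897482111633) (.br (nat_lit 0) (.cons (.br (nat_lit 1) (.cons (.rel (nat_lit 20971557)) .nil)) .nil)) .leaf)) (nat_lit 11634897482111637) (.br (nat_lit 1) (.cons (.br (nat_lit 4) (.cons (.rel (nat_lit 1090519554)) .nil)) .nil)) (.node (.node .leaf (nat_lit 11634897865510119) (.br (nat_lit 0) (.cons (.br (nat_lit 1) (.cons (.rel (nat_lit 27263040)) .nil)) .nil)) .leaf) (nat_lit 11634897867965073) (.br (nat_lit 1) (.cons (.br (nat_lit 5) (.cons (.rel (nat_lit 8606744580)) (.cons (.rel (nat_lit 4312270848)) (.cons (.rel (nat_lit 4328538120)) (.cons (.rel (nat_lit 4328538120)) .nil))))) (.cons (.br (nat_lit 5) (.cons (.rel (nat_lit 4328538120)) (.cons (.rel (nat_lit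 4312270848)) (.cons (.rel (nat_lit 8623752192)) (.cons (.rel (nat_lit 4328538120)) .nil))))) .nil))) (.node .leaf (nat_lit 11634897867965077) (.br (nat_lit 1) (.cons (.br (nat_lit 5) (.cons (.br (nat_lit 6) (.cons (.rel (nat_lit 25769803842)) (.cons (.rel (nat_lit 21491613714)) (.cons (.rel (nat_lit 21491613714)) .nil)))) (.cons (.rel (nat_lit 4328538120)) (.cons (.rel (nat_lit 4328538120)) .nil)))) (.cons (.br (nat_lit 5) (.cons (.rel (nat_lit 4328538120)) (.cons (.rel (nat_lit 4328538120)) (.cons (.rel (nat_lit 4328538120)) .nil)))) (.cons (.br (nat_lit 5) (.cons (.rel (nat_lit 4313121792)) (.cons (.rel (nat_lit 8623752192)) (.cons (.rel (nat_lit 4328538120)) .nil)))) .nil)))) .leaf))) (nat_lit 11634898304195221) (.br (nat_lit 2) (.cons (.br (nat_lit 3) (.cons (.rel (nat_lit 335609988)) (.cons (.rel (nat_lit 335545368)) (.cons (.rel (nat_lit 402661632)) .nil)))) .nil)) (.node (.node (.node .leaf (nat_lit 11634898404835490) (.br (nat_lit 0) (.cons (.br (nat_lit 1) (.cons (.rel (nat_lit 20972562))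 .nil)) .nil)) .leaf) (nat_lit 11634898404835989) (.br (nat_lit 0) (.cons (.br (nat_lit 1) (.cons (.rel (nat_lit 20971557)) (.cons (.rel (nat_lit 20972562)) .nil))) (.cons (.br (nat_lit 1) (.cons (.rel (nat_lit 20972562)) (.cons (.rel (nat_lit 41944068)) .nil))) .nil))) (.node .leaf (nat_lit 11634898404843671) (.br (nat_lit 1) (.cons (.br (nat_lit 2) (.cons (.rel (nat_lit 100664322)) .nil)) .nil)) .leaf)) (nat_lit 11634898404844177) (.br (nat_lit 4) (.cons (.br (nat_lit 1) (.cons (.rel (nat_lit 1107428352)) (.cons (.rel (nat_lit 1090519554)) (.cons (.rel (nat_lit 1091048448)) .nil)))) (.cons (.br (nat_lit 0) (.cons (.rel (nat_lit 2155876368)) (.cons (.rel (nat_lit 1077968901)) (.cons (.rel (nat_lit 1078006785)) .nil)))) .nil))) (.node (.node .leaf (nat_lit 11634898404858513) (.br (nat_lit 1) (.cons (.br (nat_lit 5) (.cons (.rel (nat_lit 4313972736)) (.cons (.rel (nat_lit 4328538120)) .nil))) (.cons (.br (nat_lit 0) (.cons (.rel (nat_lit 20973576)) (.cons (.rel (nat_lit 20971557)) (.cons (.rel (nat_lit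 20971557)) .nil)))) .nil))) .leaf) (nat_lit 11634898404858517) (.br (nat_lit 4) (.cons (.br (nat_lit 0) (.cons (.rel (nat_lit 2155876368)) (.cons (.rel (nat_lit 1077968901)) .nil))) .nil)) (.node .leaf (nat_lit 11634932244488849) (.br (nat_lit 1) (.cons (.br (nat_lit 5) (.cons (.rel (nat_lit 4328538120)) (.cons (.rel (nat_lit 8606744580)) (.cons (.rel (nat_lit 4328538120)) (.cons (.rel (nat_lit 4328538120)) .nil))))) (.cons (.br (nat_lit 0) (.cons (.rel (nat_lit 20971557)) (.cons (.rel (nat_lit 41944068)) (.cons (.rel (nat_lit 20971557)) (.cons (.rel (nat_lit 20971557)) (.cons (.rel (nat_lit 20973576)) .nil)))))) .nil))) .leaf)))) (nat_lit 11634932244488853) (.br (nat_lit 1) (.cons (.br (nat_lit 5) (.cons (.rel (nat_lit 8606744580)) (.cons (.rel (nat_lit 4328538120)) (.cons (.rel (nat_lit 4328538120)) .nil)))) (.cons (.br (nat_lit 5) (.cons (.br (nat_lit 2) (.cons (.rel (nat_lit 8724414465)) (.cons (.rel (nat_lit 8724168960)) (.cons (.rel (nat_lit 8724168960)) .nil)))) (.cons (.rel (nat_lit 4328538120))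 (.cons (.rel (nat_lit 4328538120)) .nil)))) (.cons (.br (nat_lit 5) (.cons (.rel (nat_lit 4313972736)) (.cons (.rel (nat_lit 4328538120)) (.cons (.rel (nat_lit 8623752192)) .nil)))) .nil)))) (.node (.node (.node (.node .leaf (nat_lit 11634932261280401) (.br (nat_lit 1) (.cons (.br (nat_lit 5) (.cons (.rel (nat_lit 4328538120)) (.cons (.rel (nat_lit 4328538120)) (.cons (.rel (nat_lit 4328538120)) (.cons (.rel (nat_lit 4328538120)) .nil))))) (.cons (.br (nat_lit 5) (.cons (.rel (nat_lit 4328538120)) (.cons (.rel (nat_lit 4328538120)) (.cons (.rel (nat_lit 8623752192)) (.cons (.rel (nat_lit 4328587269)) .nil))))) .nil))) .leaf) (nat_lit 11634932261280405) (.br (nat_lit 1) (.cons (.br (nat_lit 5) (.cons (.rel (nat_lit 8606744580)) (.cons (.rel (nat_lit 4328538120)) (.cons (.rel (nat_lit 4328538120)) .nil)))) (.cons (.br (nat_lit 5) (.cons (.rel (nat_lit 8606793729)) (.cons (.rel (nat_lit 4328538120)) (.cons (.rel (nat_lit 4328538120)) .nil)))) (.cons (.br (nat_lit 4) (.cons (.rel (nat_lit 1090519554))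 (.cons (.rel (nat_lit 1090519554)) (.cons (.rel (nat_lit 1090519554)) .nil)))) .nil)))) (.node .leaf (nat_lit 11634966587245205) (.br (nat_lit 0) (.cons (.br (nat_lit 2) (.cons (.rel (nat_lit 138678276)) .nil)) .nil)) .leaf)) (nat_lit 11634966587441809) (.br (nat_lit 1) (.cons (.br (nat_lit 5) (.cons (.rel (nat_lit 8606793729)) (.cons (.rel (nat_lit 4328538120)) (.cons (.rel (nat_lit 4328538120)) .nil)))) (.cons (.br (nat_lit 5) (.cons (.rel (nat_lit 4328538120)) (.cons (.rel (nat_lit 8623752192)) (.cons (.rel (nat_lit 4328538120)) .nil)))) .nil))) (.node (.node .leaf (nat_lit 11634966587441813) (.br (nat_lit 1) (.cons (.br (nat_lit 5) (.cons (.rel (nat_lit 4328538120)) (.cons (.rel (nat_lit 4328538120)) (.cons (.rel (nat_lit 4328538120)) .nil)))) (.cons (.br (nat_lit 5) (.cons (.rel (nat_lit 8606744580)) (.cons (.rel (nat_lit 4328538120)) (.cons (.rel (nat_lit 4328538120)) .nil)))) (.cons (.br (nat_lit 4) (.cons (.rel (nat_lit 1090519554)) (.cons (.rel (nat_lit 1090519554)) (.cons (.rel (nat_lit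 1090519554)) .nil)))) .nil)))) .leaf) (nat_lit 11634967153672849) (.br (nat_lit 1) (.cons (.br (nat_lit 4) (.cons (.rel (nat_lit 1107428352)) (.cons (.rel (nat_lit 1090519554)) (.cons (.rel (nat_lit 1090519554)) .nil)))) (.cons (.br (nat_lit 4) (.cons (.rel (nat_lit 1090519554)) (.cons (.rel (nat_lit 1091048448)) (.cons (.rel (nat_lit 1090519554)) .nil)))) .nil))) (.node .leaf (nat_lit 11634967153672853) (.br (nat_lit 4) (.cons (.br (nat_lit 3) (.cons (.rel (nat_lit 2416967688)) (.cons (.rel (nat_lit 2684371968)) .nil))) .nil)) .leaf))) (nat_lit 11634967153681045) (.br (nat_lit 1) (.cons (.br (nat_lit 5) (.cons (.rel (nat_lit 4313972736)) (.cons (.rel (nat_lit 4328538120)) .nil))) (.cons (.br (nat_lit 5) (.cons (.rel (nat_lit 4313121792)) (.cons (.rel (nat_lit 8623752192)) .nil))) .nil))) (.node (.node (.node .leaf (nat_lit 11634967153695377) (.br (nat_lit 1) (.cons (.br (nat_lit 4) (.cons (.rel (nat_lit 1107428352)) (.cons (.rel (nat_lit 1090519554)) .nil))) (.cons (.br (nat_lit 4) (.cons (.rel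 (nat_lit 1090519554)) (.cons (.rel (nat_lit 1090519554)) .nil))) .nil))) .leaf) (nat_lit 11634967153695625) (.br (nat_lit 0) (.cons (.br (nat_lit 1) (.cons (.rel (nat_lit 22021632)) (.cons (.rel (nat_lit 20971557)) (.cons (.rel (nat_lit 20973576)) .nil)))) (.cons (.br (nat_lit 1) (.cons (.rel (nat_lit 20972562)) (.cons (.rel (nat_lit 20976768)) (.cons (.rel (nat_lit 20976768)) .nil)))) .nil))) (.node .leaf (nat_lit 11639216526065819) (.br (nat_lit 1) (.cons (.br (nat_lit 2) (.cons (.rel (nat_lit 100664322)) .nil)) .nil)) .leaf)) (nat_lit 11639220711996053) (.br (nat_lit 1) (.cons (.br (nat_lit 2) (.cons (.rel (nat_lit 100664322)) .nil)) .nil)) (.node (.node .leaf (nat_lit 11639220712057519) (.br (nat_lit 2) (.cons (.br (nat_lit 3) (.cons (.rel (nat_lit 671088657)) .nil)) .nil)) .leaf) (nat_lit 11639220713376424) (.br (nat_lit 0) (.cons (.br (nat_lit 2) (.cons (.rel (nat_lit 72880128)) .nil)) .nil)) .leaf))))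

/-- refutations 32 -/
def e32 : EX := (.node (.node .leaf (nat_lit 11657070723193507) (.br (nat_lit 0) (.cons (.br (nat_lit 1) (.cons (.rel (nat_lit 25330176)) .nil)) .nil)) .leaf) (nat_lit 11904135427568521) (.br (nat_lit 0) (.cons (.br (nat_lit 2) (.cons (.rel (nat_lit 71368848)) .nil)) .nil)) .leaf)

/-- refutations 34 -/
def e34 : EX := (.node (.node .leaf (nat_lit 11991245769470132) (.br (nat_lit 0) (.cons (.br (nat_lit 2) (.cons (.rel (nat_lit 71323716)) .nil)) .nil)) .leaf) (nat_lit 11993169596053017) (.br (nat_lit 0) (.cons (.br (nat_lit 1) (.cons (.rel (nat_lit 21106689)) .nil)) .nil)) .leaf)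

/-- refutations 35 -/
def e35 : EX := (.node (.node .leaf (nat_lit 11998988758446766) (.br (nat_lit 2) (.cons (.br (nat_lit 4) (.cons (.rel (nat_lit 1141440528)) .nil)) .nil)) .leaf) (nat_lit 12074747702078345) (.br (nat_lit 3) (.cons (.br (nat_lit 0) (.cons (.rel (nat_lit 541065240)) (.cons (.rel (nat_lit 272646468)) .nil))) .nil)) .leaf)

/-- refutations 36 -/
def e36 : EX := (.node (.node (.node .leaf (nat_lit 12086358472909487) (.br (nat_lit 0) (.cons (.br (nat_lit 1) (.cons (.rel (nat_lit 20973576)) .nil)) .nil)) .leaf) (nat_lit 12096583315238924) (.br (nat_lit 0) (.cons (.br (nat_lit 1) (.cons (.rel (nat_lit 20996112)) .nil)) .nil)) (.node .leaf (nat_lit 12096583315303087) (.br (nat_lit 0) (.cons (.br (nat_lit 2) (.cons (.rel (nat_lit 75759888)) .nil)) .nil)) .leaf)) (nat_lit 12096875150820015) (.br (nat_lit 1) (.cons (.br (nat_lit 0) (.cons (.rel (nat_lit 41944068)) (.cons (.rel (nat_lit 41944068)) .nil))) .nil)) (.node (.node .leaf (nat_lit 12096875373015666) (.br (nat_lit 0) (.cons (.br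 (nat_lit 3) (.cons (.rel (nat_lit 272646468)) .nil)) .nil)) .leaf) (nat_lit 12096875373109935) (.br (nat_lit 0) (.cons (.br (nat_lit 1) (.cons (.rel (nat_lit 41944068)) (.cons (.rel (nat_lit 20972562)) (.cons (.rel (nat_lit 20972562)) (.cons (.rel (nat_lit 20971557)) .nil))))) .nil)) (.node .leaf (nat_lit 12097064353411759) (.br (nat_lit 0) (.cons (.br (nat_lit 1) (.cons (.rel (nat_lit 27263040)) .nil)) .nil)) .leaf)))

/-- refutations 37 -/
def e37 : EX := (.node (.node (.node .leaf (nat_lit 13211820787053295) (.br (nat_lit 0) (.cons (.br (nat_lit 3) (.cons (.rel (nat_lit 272662800)) .nil)) .nil)) .leaf) (nat_lit 13219294014392580) (.br (nat_lit 0) (.cons (.br (nat_lit 1) (.cons (.rel (nat_lit 27263040)) .nil)) .nil)) .leaf) (nat_lit 13223543938036969) (.br (nat_lit 1) (.cons (.br (nat_lit 2) (.cons (.rel (nat_lit 100663317)) .nil)) .nil)) (.node .leaf (nat_lit 13223546077131503) (.br (nat_lit 1) (.cons (.br (nat_lit 4) (.cons (.rel (nat_lit 2181038337)) .nil)) .nil)) .leaf))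

/-- refutations 38 -/
def e38 : EX := (.node (.node (.node .leaf (nat_lit 13323188795144849) (.br (nat_lit 0) (.cons (.br (nat_lit 3) (.cons (.rel (nat_lit 272636256)) .nil)) .nil)) .leaf) (nat_lit 13323188795144949) (.br (nat_lit 0) (.cons (.br (nat_lit 3) (.cons (.rel (nat_lit 272662800)) .nil)) .nil)) .leaf) (nat_lit 13325251386571509) (.br (nat_lit 0) (.cons (.br (nat_lit 2) (.cons (.br (nat_lit 6) (.cons (.rel (nat_lit 17247502401)) .nil)) .nil)) .nil)) (.node .leaf (nat_lit 13394150848668549) (.br (nat_lit 0) (.cons (.br (nat_lit 1) (.cons (.rel (nat_lit 27263040)) .nil)) .nil)) .leaf))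

/-- refutations 39 -/
def e39 : EX := (.node (.node .leaf (nat_lit 13417058018088162) (.br (nat_lit 0) (.cons (.br (nat_lit 1) (.cons (.rel (nat_lit 27263040)) .nil)) .nil)) .leaf) (nat_lit 13417062215564015) (.br (nat_lit 3) (.cons (.br (nat_lit 4) (.cons (.rel (nat_lit 1612709892)) (.cons (.rel (nat_lit 1342246920)) .nil))) .nil)) (.node .leaf (nat_lit 13663825472056201) (.br (nat_lit 3) (.cons (.br (nat_lit 4) (.cons (.rel (nat_lit 1342185492)) (.cons (.rel (nat_lit 1342246920)) (.cons (.rel (nat_lit 1612709892)) .nil)))) .nil)) .leaf))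

/-- refutations 40 -/
def e40 : EX := (.node (.node (.node (.node .leaf (nat_lit 13671551154795273) (.br (nat_lit 0) (.cons (.br (nat_lit 2) (.cons (.rel (nat_lit 71372865)) .nil)) .nil)) .leaf) (nat_lit 13671551154795397) (.br (nat_lit 0) (.cons (.br (nat_lit 1) (.cons (.rel (nat_lit 20973576)) (.cons (.rel (nat_lit 41944068)) .nil))) (.cons (.br (nat_lit 1) (.cons (.rel (nat_lit 20971557)) (.cons (.rel (nat_lit 20979780)) .nil))) .nil))) (.node .leaf (nat_lit 13675032516483849) (.br (nat_lit 4) (.cons (.br (nat_lit 6) (.cons (.rel (nat_lit 35433482256)) .nil)) .nil)) .leaf)) (nat_lit 13676064462109573) (.br (nat_lit 0) (.cons (.br (nat_lit 1) (.cons (.rel (nat_lit 41944068)) .nil)) .nil)) (.node (.node .leaf (nat_lit 13676656600769289) (.br (nat_lit 0) (.cons (.br (nat_lit 6) (.cons (.rel (nat_lit 34368143364)) (.cons (.rel (nat_lit 17188258320)) .nil))) .nil)) .leaf) (nat_lit 13676691497884553) (.br (nat_lit 0) (.cons (.br (nat_lit 1) (.cons (.rel (nat_lit 41944068)) (.cons (.rel (nat_lit 20971557))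 .nil))) .nil)) .leaf)) (nat_lit 13680391266800521) (.br (nat_lit 3) (.cons (.br (nat_lit 0) (.cons (.rel (nat_lit 272897040)) (.cons (.rel (nat_lit 272762112)) .nil))) .nil)) (.node (.node (.node .leaf (nat_lit 13680943009641225) (.br (nat_lit 0) (.cons (.br (nat_lit 1) (.cons (.rel (nat_lit 20971557)) .nil)) .nil)) .leaf) (nat_lit 13680945069044489) (.br (nat_lit 0) (.cons (.br (nat_lit 2) (.cons (.rel (nat_lit 71320704)) .nil)) .nil)) (.node .leaf (nat_lit 13680945069044613) (.br (nat_lit 0) (.cons (.br (nat_lit 1) (.cons (.rel (nat_lit 20973576)) .nil)) .nil)) .leaf)) (nat_lit 13680945070043913) (.br (nat_lit 0) (.cons (.br (nat_lit 3) (.cons (.rel (nat_lit 276824100)) (.cons (.rel (nat_lit 274202880)) .nil))) (.cons (.br (nat_lit 3) (.cons (.rel (nat_lit 272662800)) (.cons (.rel (nat_lit 276824100)) .nil))) .nil))) (.node (.node .leaf (nat_lit 13680945070044416) (.br (nat_lit 3) (.cons (.br (nat_lit 4) (.cons (.rel (nat_lit 1612709892)) .nil)) .nil)) .leaf) (nat_lit 13681421492444041) (.br (nat_lit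 3) (.cons (.br (nat_lit 4) (.cons (.rel (nat_lit 1342212096)) (.cons (.rel (nat_lit 1342177413)) (.cons (.rel (nat_lit 1342186497)) .nil)))) (.cons (.br (nat_lit 0) (.cons (.rel (nat_lit 272646468)) (.cons (.rel (nat_lit 276824100)) (.cons (.rel (nat_lit 276959232)) .nil)))) .nil))) .leaf)))

/-- refutations 41 -/
def e41 : EX := (.node (.node (.node (.node .leaf (nat_lit 13810949011501713) (.br (nat_lit 2) (.cons (.br (nat_lit 3) (.cons (.rel (nat_lit 335544354)) .nil)) .nil)) .leaf) (nat_lit 13822129377409805) (.br (nat_lit 1) (.cons (.br (nat_lit 2) (.cons (.rel (nat_lit 86000640)) .nil)) .nil)) .leaf) (nat_lit 13822129377923849) (.br (nat_lit 0) (.cons (.br (nat_lit 2) (.cons (.rel (nat_lit 71340048)) .nil)) .nil)) (.node .leaf (nat_lit 13822129378752644) (.br (nat_lit 0) (.cons (.br (nat_lit 2) (.cons (.rel (nat_lit 138481920)) .nil)) .nil)) .leaf)) (nat_lit 13823289866351369) (.br (nat_lit 0) (.cons (.br (nat_lit 5) (.cons (.rel (nat_lit 4299161685)) .nil)) .nil)) (.node (.node .leaf (nat_lit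 13823290025734921) (.br (nat_lit 2) (.cons (.br (nat_lit 5) (.cons (.rel (nat_lit 4429250592)) .nil)) .nil)) .leaf) (nat_lit 13823290026445457) (.br (nat_lit 1) (.cons (.br (nat_lit 3) (.cons (.rel (nat_lit 285213702)) .nil)) .nil)) (.node .leaf (nat_lit 13823290026446311) (.br (nat_lit 1) (.cons (.br (nat_lit 2) (.cons (.rel (nat_lit 86000640)) .nil)) .nil)) .leaf)))

/-- refutations 42 -/
def e42 : EX := (.node (.node (.node (.node (.node (.node (.node .leaf (nat_lit 15406070114116466) (.br (nat_lit 5) (.cons (.br (nat_lit 0) (.cons (.rel (nat_lit 4299178017)) (.cons (.br (nat_lit 6) (.cons (.rel (nat_lit 17188258320)) (.cons (.rel (nat_lit 17188258320)) (.cons (.rel (nat_lit 42949951488)) .nil)))) .nil))) .nil)) .leaf) (nat_lit 15406070114116515) (.br (nat_lit 0) (.cons (.br (nat_lit 5) (.cons (.rel (nat_lit 8595181569)) .nil)) .nil)) .leaf) (nat_lit 15406070114139039) (.br (nat_lit 0) (.cons (.br (nat_lit 4) (.cons (.rel (nat_lit 1077944352)) .nil)) .nil)) (.node .leaf (nat_lit 15406070143476594)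 (.br (nat_lit 0) (.cons (.br (nat_lit 4) (.cons (.rel (nat_lit 1077944352)) .nil)) .nil)) .leaf)) (nat_lit 15406070223068018) (.br (nat_lit 5) (.cons (.br (nat_lit 4) (.cons (.rel (nat_lit 9663682560)) (.cons (.br (nat_lit 0) (.cons (.rel (nat_lit 2155876368)) (.cons (.rel (nat_lit 1078005780)) .nil))) .nil))) .nil)) (.node (.node (.node .leaf (nat_lit 15406070223068041) (.br (nat_lit 0) (.cons (.br (nat_lit 4) (.cons (.rel (nat_lit 2155876368)) (.cons (.rel (nat_lit 1078005780)) .nil))) .nil)) .leaf) (nat_lit 15406070223076214) (.br (nat_lit 5) (.cons (.br (nat_lit 2) (.cons (.rel (nat_lit 8657174544)) (.cons (.rel (nat_lit 8657174544)) .nil))) .nil)) .leaf) (nat_lit 15406070223076240) (.br (nat_lit 0) (.cons (.br (nat_lit 5) (.cons (.rel (nat_lit 4299165702)) .nil)) .nil)) (.node .leaf (nat_lit 15406070223090565) (.br (nat_lit 0) (.cons (.br (nat_lit 5) (.cons (.rel (nat_lit 4299165702)) .nil)) .nil)) .leaf))) (nat_lit 15406070239845234) (.br (nat_lit 0) (.cons (.br (nat_lit 1) (.cons (.rel (nat_lit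 41944068)) (.cons (.rel (nat_lit 20971557)) (.cons (.rel (nat_lit 27263040)) .nil)))) .nil)) (.node (.node (.node (.node .leaf (nat_lit 15406070239853430) (.br (nat_lit 0) (.cons (.br (nat_lit 1) (.cons (.rel (nat_lit 41944068)) (.cons (.rel (nat_lit 20972562)) (.cons (.rel (nat_lit 27263040)) (.cons (.rel (nat_lit 20973576)) .nil))))) .nil)) .leaf) (nat_lit 15406070365744005) (.br (nat_lit 0) (.cons (.br (nat_lit 4) (.cons (.rel (nat_lit 1082654784)) .nil)) .nil)) .leaf) (nat_lit 15406104473854879) (.br (nat_lit 0) (.cons (.br (nat_lit 3) (.cons (.rel (nat_lit 276824100)) (.cons (.rel (nat_lit 541065240)) (.cons (.rel (nat_lit 541066245)) .nil)))) (.cons (.br (nat_lit 4) (.cons (.rel (nat_lit 1078264320)) (.cons (.rel (nat_lit 1077968901)) .nil))) .nil))) (.node .leaf (nat_lit 15406104473877366) (.br (nat_lit 0) (.cons (.br (nat_lit 6) (.cons (.rel (nat_lit 17188258320)) .nil)) .nil)) .leaf)) (nat_lit 15406104473877415) (.br (nat_lit 0) (.cons (.br (nat_lit 4) (.cons (.rel (nat_lit 1077944352))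 .nil)) .nil)) (.node (.node .leaf (nat_lit 15406104599583621) (.br (nat_lit 5) (.cons (.br (nat_lit 0) (.cons (.rel (nat_lit 4299165702)) (.cons (.rel (nat_lit 4299180036)) .nil))) .nil)) .leaf) (nat_lit 15406104599591794) (.br (nat_lit 0) (.cons (.br (nat_lit 4) (.cons (.rel (nat_lit 2155876368)) (.cons (.rel (nat_lit 1078005780)) .nil))) .nil)) (.node .leaf (nat_lit 15406104599591817) (.br (nat_lit 4) (.cons (.br (nat_lit 0) (.cons (.rel (nat_lit 1077936273)) (.cons (.rel (nat_lit 2155876368)) (.cons (.rel (nat_lit 1077944352)) (.cons (.rel (nat_lit 1077954624)) .nil))))) (.cons (.br (nat_lit 5) (.cons (.rel (nat_lit 10737745920)) (.cons (.rel (nat_lit 6442460160)) (.cons (.rel (nat_lit 6442460160)) .nil)))) (.cons (.br (nat_lit 5) (.cons (.rel (nat_lit 9663692820)) (.cons (.rel (nat_lit 9663676488)) (.cons (.rel (nat_lit 9663676488)) .nil)))) .nil)))) .leaf)))) (nat_lit 15406104599591839) (.br (nat_lit 0) (.cons (.br (nat_lit 3) (.cons (.rel (nat_lit 276824100)) (.cons (.rel (nat_lit 541065240))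 .nil))) (.cons (.br (nat_lit 4) (.cons (.rel (nat_lit 2155876368)) (.cons (.rel (nat_lit 1078005780)) .nil))) .nil))) (.node (.node (.node (.node (.node .leaf (nat_lit 15406104599606134) (.br (nat_lit 0) (.cons (.br (nat_lit 4) (.cons (.rel (nat_lit 2155876368)) (.cons (.rel (nat_lit 1078005780)) .nil))) .nil)) .leaf) (nat_lit 15406104599606160) (.br (nat_lit 5) (.cons (.br (nat_lit 0) (.cons (.rel (nat_lit 4299180036)) (.cons (.rel (nat_lit 4299165702)) .nil))) .nil)) .leaf) (nat_lit 15406104599606179) (.br (nat_lit 1) (.cons (.br (nat_lit 5) (.cons (.rel (nat_lit 4328538120)) .nil)) .nil)) (.node .leaf (nat_lit 15406104725482354) (.br (nat_lit 0) (.cons (.br (nat_lit 4) (.cons (.rel (nat_lit 2155876368)) .nil)) .nil)) .leaf)) (nat_lit 15406138862953334) (.br (nat_lit 0) (.cons (.br (nat_lit 6) (.cons (.rel (nat_lit 17188258320)) (.cons (.rel (nat_lit 17188258320)) .nil))) (.cons (.br (nat_lit 5) (.cons (.rel (nat_lit 4299178017)) (.cons (.rel (nat_lit 4299165702)) .nil))) .nil))) (.node (.node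 (.node .leaf (nat_lit 15406138862953353) (.br (nat_lit 3) (.cons (.br (nat_lit 6) (.cons (.rel (nat_lit 34896625680)) .nil)) .nil)) .leaf) (nat_lit 15406138862975858) (.br (nat_lit 4) (.cons (.br (nat_lit 6) (.cons (.br (nat_lit 0) (.cons (.rel (nat_lit 34363932960)) (.cons (.rel (nat_lit 34363932960)) .nil))) .nil)) .nil)) .leaf) (nat_lit 15406138942544758) (.br (nat_lit 0) (.cons (.br (nat_lit 3) (.cons (.rel (nat_lit 276825105)) (.cons (.rel (nat_lit 541066245)) .nil))) .nil)) (.node .leaf (nat_lit 15406138942544784) (.br (nat_lit 0) (.cons (.br (nat_lit 4) (.cons (.rel (nat_lit 1078005780)) (.cons (.rel (nat_lit 2155876368)) .nil))) .nil)) .leaf))) (nat_lit 15406138942544803) (.br (nat_lit 3) (.cons (.br (nat_lit 4) (.cons (.rel (nat_lit 1612709892)) .nil)) .nil)) (.node (.node (.node (.node .leaf (nat_lit 15406138942552965) (.br (nat_lit 0) (.cons (.br (nat_lit 4) (.cons (.rel (nat_lit 1078005780)) (.cons (.rel (nat_lit 2155876368)) .nil))) .nil)) .leaf) (nat_lit 15406138942567282) (.br (nat_lit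 0) (.cons (.br (nat_lit 3) (.cons (.rel (nat_lit 541066245)) .nil)) .nil)) .leaf) (nat_lit 15406138942567305) (.br (nat_lit 0) (.cons (.br (nat_lit 4) (.cons (.rel (nat_lit 2155876368)) (.cons (.rel (nat_lit 1078005780)) .nil))) .nil)) (.node .leaf (nat_lit 15406139085220745) (.br (nat_lit 0) (.cons (.br (nat_lit 4) (.cons (.rel (nat_lit 2155876368)) (.cons (.rel (nat_lit 1077936273)) .nil))) (.cons (.br (nat_lit 3) (.cons (.rel (nat_lit 272695617)) (.cons (.rel (nat_lit 272908305)) .nil))) .nil))) .leaf)) (nat_lit 15406139085220771) (.br (nat_lit 0) (.cons (.br (nat_lit 4) (.cons (.rel (nat_lit 1077936273)) .nil)) .nil)) (.node (.node .leaf (nat_lit 15406327812154271) (.br (nat_lit 0) (.cons (.br (nat_lit 3) (.cons (.rel (nat_lit 274202880)) (.cons (.rel (nat_lit 276824100)) (.cons (.rel (nat_lit 541066245)) (.cons (.rel (nat_lit 541066245)) .nil))))) .nil)) .leaf) (nat_lit 15406327841514358) (.br (nat_lit 0) (.cons (.br (nat_lit 5) (.cons (.rel (nat_lit 4299165702)) .nil)) .nil)) (.node .leaf (nat_lit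 15406328063781050) (.br (nat_lit 0) (.cons (.br (nat_lit 3) (.cons (.rel (nat_lit 272662800)) .nil)) .nil)) .leaf))))) (nat_lit 15406328063781740) (.br (nat_lit 0) (.cons (.br (nat_lit 2) (.cons (.rel (nat_lit 142606341)) .nil)) .nil)) (.node (.node (.node (.node (.node (.node .leaf (nat_lit 15406328063781776) (.br (nat_lit 0) (.cons (.br (nat_lit 5) (.cons (.rel (nat_lit 4299166752)) (.cons (.rel (nat_lit 4299162690)) (.cons (.rel (nat_lit 4299162690)) (.cons (.rel (nat_lit 4299186240)) .nil))))) (.cons (.br (nat_lit 4) (.cons (.rel (nat_lit 1077944352)) (.cons (.rel (nat_lit 2151679248)) (.cons (.rel (nat_lit 1077936273)) .nil)))) .nil))) .leaf) (nat_lit 15406328063781795) (.br (nat_lit 0) (.cons (.br (nat_lit 4) (.cons (.rel (nat_lit 1077940290)) .nil)) .nil)) .leaf) (nat_lit 15406491020911474) (.br (nat_lit 5) (.cons (.br (nat_lit 3) (.cons (.rel (nat_lit 8859435024)) (.cons (.rel (nat_lit 8858632224)) (.cons (.br (nat_lit 0) (.cons (.rel (nat_lit 276825105)) (.cons (.rel (nat_lit 541066245))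 .nil))) .nil)))) .nil)) (.node .leaf (nat_lit 15406491020911497) (.br (nat_lit 0) (.cons (.br (nat_lit 5) (.cons (.rel (nat_lit 8598327384)) (.cons (.rel (nat_lit 4299229185)) .nil))) (.cons (.br (nat_lit 5) (.cons (.rel (nat_lit 4299178017)) (.cons (.rel (nat_lit 4299165702)) .nil))) .nil))) .leaf)) (nat_lit 15406491020911519) (.br (nat_lit 0) (.cons (.br (nat_lit 6) (.cons (.rel (nat_lit 17188258320)) (.cons (.rel (nat_lit 17188258320)) .nil))) .nil)) (.node (.node (.node .leaf (nat_lit 15406491020934021) (.br (nat_lit 0) (.cons (.br (nat_lit 5) (.cons (.rel (nat_lit 8598454293)) (.cons (.rel (nat_lit 4299229185)) .nil))) (.cons (.br (nat_lit 5) (.cons (.rel (nat_lit 4299161685)) (.cons (.rel (nat_lit 4299165702)) .nil))) .nil))) .leaf) (nat_lit 15406491020934055) (.br (nat_lit 0) (.cons (.br (nat_lit 3) (.cons (.br (nat_lit 1) (.cons (.rel (nat_lit 285213702)) (.cons (.rel (nat_lit 20971557)) (.cons (.rel (nat_lit 285213702)) .nil)))) .nil)) .nil)) .leaf) (nat_lit 15406491050271602) (.br (nat_lit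 0) (.cons (.br (nat_lit 2) (.cons (.rel (nat_lit 71304228)) (.cons (.rel (nat_lit 71303178)) .nil))) .nil)) (.node .leaf (nat_lit 15406491050271625) (.br (nat_lit 5) (.cons (.br (nat_lit 0) (.cons (.rel (nat_lit 4299229185)) (.cons (.rel (nat_lit 4299165702)) .nil))) .nil)) .leaf))) (nat_lit 15406491129863049) (.br (nat_lit 0) (.cons (.br (nat_lit 4) (.cons (.rel (nat_lit 1078005780)) .nil)) .nil)) (.node (.node (.node (.node .leaf (nat_lit 15406491129863075) (.br (nat_lit 4) (.cons (.br (nat_lit 5) (.cons (.rel (nat_lit 10737745920)) .nil)) .nil)) .leaf) (nat_lit 15406491129871218) (.br (nat_lit 0) (.cons (.br (nat_lit 4) (.cons (.rel (nat_lit 2155876368)) .nil)) .nil)) .leaf) (nat_lit 15406491129871248) (.br (nat_lit 0) (.cons (.br (nat_lit 4) (.cons (.rel (nat_lit 1077936273)) (.cons (.rel (nat_lit 1078005780)) (.cons (.rel (nat_lit 2155876368)) .nil)))) .nil)) (.node .leaf (nat_lit 15406491129885558) (.br (nat_lit 0) (.cons (.br (nat_lit 3) (.cons (.rel (nat_lit 541065240)) .nil)) .nil)) .leaf))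 (nat_lit 15406491129885573) (.br (nat_lit 0) (.cons (.br (nat_lit 4) (.cons (.rel (nat_lit 2155876368)) .nil)) .nil)) (.node (.node .leaf (nat_lit 15406491129885599) (.br (nat_lit 4) (.cons (.br (nat_lit 5) (.cons (.rel (nat_lit 9663742986)) .nil)) .nil)) .leaf) (nat_lit 15406491146640291) (.br (nat_lit 4) (.cons (.br (nat_lit 5) (.cons (.rel (nat_lit 5369758032)) .nil)) .nil)) (.node .leaf (nat_lit 15406491146648434) (.br (nat_lit 0) (.cons (.br (nat_lit 3) (.cons (.rel (nat_lit 276824100)) .nil)) .nil)) .leaf)))) (nat_lit 15406491146648487) (.br (nat_lit 5) (.cons (.br (nat_lit 0) (.cons (.rel (nat_lit 4299166752)) (.cons (.rel (nat_lit 4299162690)) .nil))) .nil)) (.node (.node (.node (.node (.node .leaf (nat_lit 15406491146662774) (.br (nat_lit 0) (.cons (.br (nat_lit 3) (.cons (.rel (nat_lit 276824100)) .nil)) .nil)) .leaf) (nat_lit 15406491272539024) (.br (nat_lit 0) (.cons (.br (nat_lit 3) (.cons (.rel (nat_lit 272695617)) .nil)) .nil)) .leaf) (nat_lit 15406525410032502) (.br (nat_lit 0) (.cons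 (.br (nat_lit 3) (.cons (.rel (nat_lit 541066245)) .nil)) .nil)) (.node .leaf (nat_lit 15406525489609609) (.br (nat_lit 0) (.cons (.br (nat_lit 4) (.cons (.rel (nat_lit 1078005780)) .nil)) .nil)) .leaf)) (nat_lit 15406525489623922) (.br (nat_lit 0) (.cons (.br (nat_lit 4) (.cons (.rel (nat_lit 2155876368)) .nil)) .nil)) (.node (.node .leaf (nat_lit 15406525489623952) (.br (nat_lit 0) (.cons (.br (nat_lit 5) (.cons (.rel (nat_lit 4299227178)) .nil)) .nil)) .leaf) (nat_lit 15406525632277385) (.br (nat_lit 0) (.cons (.br (nat_lit 4) (.cons (.rel (nat_lit 1077936273)) (.cons (.rel (nat_lit 1082654784)) (.cons (.rel (nat_lit 1077936273)) .nil)))) .nil)) (.node .leaf (nat_lit 15406525632277415) (.br (nat_lit 4) (.cons (.br (nat_lit 0) (.cons (.rel (nat_lit 2151940224)) (.cons (.rel (nat_lit 1077944352)) .nil))) .nil)) .leaf))) (nat_lit 15406585510192016) (.br (nat_lit 0) (.cons (.br (nat_lit 3) (.cons (.rel (nat_lit 276824100)) (.cons (.rel (nat_lit 541065240)) (.cons (.rel (nat_lit 541066245)) .nil))))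 (.cons (.br (nat_lit 5) (.cons (.rel (nat_lit 4303683840)) (.cons (.rel (nat_lit 8598454293)) (.cons (.rel (nat_lit 4299165702)) .nil)))) .nil))) (.node (.node (.node (.node .leaf (nat_lit 15406585510214514) (.br (nat_lit 0) (.cons (.br (nat_lit 2) (.cons (.rel (nat_lit 71304228)) (.cons (.rel (nat_lit 71303178)) .nil))) .nil)) .leaf) (nat_lit 15406585510214559) (.br (nat_lit 5) (.cons (.br (nat_lit 0) (.cons (.rel (nat_lit 4299161685)) (.cons (.rel (nat_lit 4299178017)) .nil))) .nil)) .leaf) (nat_lit 15406585635928950) (.br (nat_lit 5) (.cons (.br (nat_lit 0) (.cons (.rel (nat_lit 4299178017)) (.cons (.rel (nat_lit 4299228180)) .nil))) .nil)) (.node .leaf (nat_lit 15406585635928965) (.br (nat_lit 0) (.cons (.br (nat_lit 4) (.cons (.rel (nat_lit 1077944352)) .nil)) .nil)) .leaf)) (nat_lit 15406585635928991) (.br (nat_lit 0) (.cons (.br (nat_lit 3) (.cons (.rel (nat_lit 541066245)) (.cons (.rel (nat_lit 541066245)) .nil))) (.cons (.br (nat_lit 3) (.cons (.rel (nat_lit 541065240)) (.cons (.rel (nat_lit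 276825105)) .nil))) .nil))) (.node (.node .leaf (nat_lit 15406585635943305) (.br (nat_lit 0) (.cons (.br (nat_lit 6) (.cons (.rel (nat_lit 17184194562)) .nil)) .nil)) .leaf) (nat_lit 15406585761819506) (.br (nat_lit 0) (.cons (.br (nat_lit 5) (.cons (.rel (nat_lit 4299161685)) .nil)) .nil)) (.node .leaf (nat_lit 15406585761819525) (.br (nat_lit 0) (.cons (.br (nat_lit 4) (.cons (.rel (nat_lit 1082654784)) .nil)) .nil)) .leaf))))))

/-- refutations 43 -/
def e43 : EX := (.node (.node .leaf (nat_lit 15434879339289481) (.br (nat_lit 0) (.cons (.br (nat_lit 4) (.cons (.rel (nat_lit 2155876368)) (.cons (.rel (nat_lit 1077936273)) .nil))) (.cons (.br (nat_lit 6) (.cons (.rel (nat_lit 34368143364)) (.cons (.rel (nat_lit 34368143364)) (.cons (.rel (nat_lit 17184064641)) .nil)))) .nil))) .leaf) (nat_lit 15435282416124530) (.br (nat_lit 1) (.cons (.br (nat_lit 0) (.cons (.rel (nat_lit 37830912)) (.cons (.rel (nat_lit 38797440)) (.cons (.rel (nat_lit 20971557)) .nil)))) (.cons (.br (nat_lit 3) (.cons (.rel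 (nat_lit 285245505)) (.cons (.rel (nat_lit 285212697)) .nil))) .nil))) (.node .leaf (nat_lit 15441770133907608) (.br (nat_lit 0) (.cons (.br (nat_lit 2) (.cons (.rel (nat_lit 71340048)) .nil)) .nil)) .leaf))

/-- refutations 45 -/
def e45 : EX := (.node (.node (.node (.node (.node (.node (.node .leaf (nat_lit 15516784238259058) (.br (nat_lit 3) (.cons (.br (nat_lit 4) (.cons (.rel (nat_lit 1342186497)) .nil)) .nil)) .leaf) (nat_lit 15529215445787506) (.br (nat_lit 0) (.cons (.br (nat_lit 6) (.cons (.rel (nat_lit 17188258320)) .nil)) .nil)) .leaf) (nat_lit 15529215542156146) (.br (nat_lit 0) (.cons (.br (nat_lit 4) (.cons (.rel (nat_lit 1078005780)) (.cons (.rel (nat_lit 2155876368)) .nil))) .nil)) (.node .leaf (nat_lit 15529215542156169) (.br (nat_lit 0) (.cons (.br (nat_lit 6) (.cons (.rel (nat_lit 17188258320)) .nil)) .nil)) .leaf)) (nat_lit 15529215542164342) (.br (nat_lit 0) (.cons (.br (nat_lit 4) (.cons (.rel (nat_lit 1078005780)) (.cons (.rel (nat_lit 2155876368)) .nil))) .nil)) (.node (.node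 (.node .leaf (nat_lit 15529215542164368) (.br (nat_lit 0) (.cons (.br (nat_lit 5) (.cons (.rel (nat_lit 4299178017)) .nil)) .nil)) .leaf) (nat_lit 15529215542178693) (.br (nat_lit 0) (.cons (.br (nat_lit 5) (.cons (.rel (nat_lit 4299178017)) .nil)) .nil)) .leaf) (nat_lit 15529249822303120) (.br (nat_lit 3) (.cons (.br (nat_lit 6) (.cons (.rel (nat_lit 34896625680)) (.cons (.rel (nat_lit 17717268480)) .nil))) .nil)) (.node .leaf (nat_lit 15529249822303135) (.br (nat_lit 4) (.cons (.br (nat_lit 6) (.cons (.rel (nat_lit 18253938960)) .nil)) .nil)) .leaf))) (nat_lit 15529249822325622) (.br (nat_lit 0) (.cons (.br (nat_lit 6) (.cons (.rel (nat_lit 17188258320)) (.cons (.rel (nat_lit 17188258320)) (.cons (.rel (nat_lit 17184063636)) (.cons (.rel (nat_lit 17184079968)) .nil))))) .nil)) (.node (.node (.node (.node .leaf (nat_lit 15529249822325641) (.br (nat_lit 3) (.cons (.br (nat_lit 0) (.cons (.rel (nat_lit 276824100)) (.cons (.rel (nat_lit 541066245)) .nil))) .nil)) .leaf) (nat_lit 15529249901894533)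 (.br (nat_lit 0) (.cons (.br (nat_lit 5) (.cons (.rel (nat_lit 4299165702)) .nil)) .nil)) .leaf) (nat_lit 15529249901902706) (.br (nat_lit 3) (.cons (.br (nat_lit 0) (.cons (.rel (nat_lit 276825105)) (.cons (.rel (nat_lit 541066245)) .nil))) .nil)) (.node .leaf (nat_lit 15529249901902729) (.br (nat_lit 0) (.cons (.br (nat_lit 5) (.cons (.rel (nat_lit 4299161685)) (.cons (.rel (nat_lit 4299165702)) .nil))) (.cons (.br (nat_lit 4) (.cons (.rel (nat_lit 2155876368)) (.cons (.rel (nat_lit 1078002768)) .nil))) .nil))) .leaf)) (nat_lit 15529249901902751) (.br (nat_lit 3) (.cons (.br (nat_lit 4) (.cons (.rel (nat_lit 1612709892)) .nil)) .nil)) (.node (.node (.node .leaf (nat_lit 15529249901917046) (.br (nat_lit 3) (.cons (.br (nat_lit 5) (.cons (.rel (nat_lit 8858632224)) .nil)) .nil)) .leaf) (nat_lit 15529249901917072) (.br (nat_lit 5) (.cons (.br (nat_lit 0) (.cons (.rel (nat_lit 4299165702)) (.cons (.rel (nat_lit 4299264000)) .nil))) .nil)) .leaf) (nat_lit 15529249931262834) (.br (nat_lit 0) (.cons (.br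 (nat_lit 3) (.cons (.rel (nat_lit 276825105)) .nil)) .nil)) (.node .leaf (nat_lit 15529249931262857) (.br (nat_lit 0) (.cons (.br (nat_lit 1) (.cons (.rel (nat_lit 26218752)) (.cons (.rel (nat_lit 20971557)) .nil))) .nil)) .leaf)))) (nat_lit 15529249931277174) (.br (nat_lit 0) (.cons (.br (nat_lit 3) (.cons (.rel (nat_lit 541066245)) .nil)) .nil)) (.node (.node (.node (.node (.node .leaf (nat_lit 15529249931277200) (.br (nat_lit 0) (.cons (.br (nat_lit 5) (.cons (.rel (nat_lit 8598388800)) .nil)) .nil)) .leaf) (nat_lit 15529250027793296) (.br (nat_lit 0) (.cons (.br (nat_lit 4) (.cons (.rel (nat_lit 1077936273)) .nil)) .nil)) .leaf) (nat_lit 15529284165264246) (.br (nat_lit 0) (.cons (.br (nat_lit 5) (.cons (.rel (nat_lit 4299178017)) .nil)) .nil)) (.node .leaf (nat_lit 15529284165264265) (.br (nat_lit 4) (.cons (.br (nat_lit 5) (.cons (.rel (nat_lit 6442460160)) .nil)) .nil)) .leaf)) (nat_lit 15529284165286770) (.br (nat_lit 0) (.cons (.br (nat_lit 6) (.cons (.rel (nat_lit 17184067653)) (.cons (.rel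 (nat_lit 17188258320)) (.cons (.rel (nat_lit 17184079968)) .nil)))) .nil)) (.node (.node (.node .leaf (nat_lit 15529284182041462) (.br (nat_lit 0) (.cons (.br (nat_lit 6) (.cons (.rel (nat_lit 17188258320)) .nil)) .nil)) .leaf) (nat_lit 15529284182063986) (.br (nat_lit 0) (.cons (.br (nat_lit 6) (.cons (.rel (nat_lit 17188258320)) (.cons (.rel (nat_lit 17188258320)) (.cons (.rel (nat_lit 17188258320)) .nil)))) (.cons (.br (nat_lit 3) (.cons (.rel (nat_lit 272897040)) (.cons (.rel (nat_lit 272662800)) (.cons (.rel (nat_lit 274202880)) .nil)))) .nil))) .leaf) (nat_lit 15529284182064005) (.br (nat_lit 4) (.cons (.br (nat_lit 5) (.cons (.rel (nat_lit 6442460160)) .nil)) .nil)) (.node .leaf (nat_lit 15529284290993014) (.br (nat_lit 0) (.cons (.br (nat_lit 4) (.cons (.rel (nat_lit 1078005780)) (.cons (.rel (nat_lit 2155876368)) .nil))) .nil)) .leaf))) (nat_lit 15529284290993040) (.br (nat_lit 5) (.cons (.br (nat_lit 6) (.cons (.rel (nat_lit 25769803842)) .nil)) .nil)) (.node (.node (.node (.node .leaf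 (nat_lit 15529284291001221) (.br (nat_lit 5) (.cons (.br (nat_lit 1) (.cons (.rel (nat_lit 4328521824)) (.cons (.rel (nat_lit 4328525841)) .nil))) .nil)) .leaf) (nat_lit 15529284291001255) (.br (nat_lit 4) (.cons (.br (nat_lit 0) (.cons (.rel (nat_lit 2155876368)) (.cons (.rel (nat_lit 1078005780)) .nil))) .nil)) .leaf) (nat_lit 15529284291015538) (.br (nat_lit 0) (.cons (.br (nat_lit 4) (.cons (.rel (nat_lit 2155876368)) (.cons (.rel (nat_lit 2155876368)) (.cons (.rel (nat_lit 1078005780)) .nil)))) .nil)) (.node .leaf (nat_lit 15529284291015561) (.br (nat_lit 4) (.cons (.br (nat_lit 5) (.cons (.rel (nat_lit 9663676488)) (.cons (.rel (nat_lit 9663682560)) (.cons (.rel (nat_lit 6442451076)) .nil)))) (.cons (.br (nat_lit 5) (.cons (.rel (nat_lit 5369758032)) (.cons (.rel (nat_lit 9663676488)) (.cons (.rel (nat_lit 10737745920)) .nil)))) .nil))) .leaf)) (nat_lit 15529284387531657) (.br (nat_lit 4) (.cons (.br (nat_lit 0) (.cons (.rel (nat_lit 2155876368)) (.cons (.rel (nat_lit 1078005780)) (.cons (.rel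 (nat_lit 1077940290)) (.cons (.br (nat_lit 3) (.cons (.rel (nat_lit 272646468)) (.cons (.rel (nat_lit 273711105)) (.cons (.rel (nat_lit 1615859712)) .nil)))) .nil))))) (.cons (.br (nat_lit 3) (.cons (.rel (nat_lit 1342177413)) (.cons (.rel (nat_lit 2416967688)) (.cons (.rel (nat_lit 2416967688)) .nil)))) .nil))) (.node (.node .leaf (nat_lit 15529473143825270) (.br (nat_lit 0) (.cons (.br (nat_lit 3) (.cons (.rel (nat_lit 541066245)) .nil)) .nil)) .leaf) (nat_lit 15529473240202098) (.br (nat_lit 0) (.cons (.br (nat_lit 6) (.cons (.rel (nat_lit 17188258320)) (.cons (.rel (nat_lit 17188258320)) (.cons (.rel (nat_lit 17188258320)) .nil)))) .nil)) (.node .leaf (nat_lit 15529473269562226) (.br (nat_lit 0) (.cons (.br (nat_lit 4) (.cons (.rel (nat_lit 1078018050)) .nil)) .nil)) .leaf))))) (nat_lit 15529473269562245) (.br (nat_lit 3) (.cons (.br (nat_lit 5) (.cons (.rel (nat_lit 4563407892)) .nil)) .nil)) (.node (.node (.node (.node (.node (.node .leaf (nat_lit 15529473269576566) (.br (nat_lit 0) (.cons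 (.br (nat_lit 6) (.cons (.rel (nat_lit 17188258320)) (.cons (.rel (nat_lit 17188258320)) (.cons (.rel (nat_lit 17188258320)) .nil)))) .nil)) .leaf) (nat_lit 15529473269576585) (.br (nat_lit 0) (.cons (.br (nat_lit 5) (.cons (.rel (nat_lit 4299165702)) (.cons (.rel (nat_lit 8598388800)) .nil))) (.cons (.br (nat_lit 3) (.cons (.rel (nat_lit 272662800)) (.cons (.rel (nat_lit 272646468)) .nil))) .nil))) .leaf) (nat_lit 15529473366092688) (.br (nat_lit 0) (.cons (.br (nat_lit 5) (.cons (.rel (nat_lit 4299165702)) (.cons (.rel (nat_lit 4299166752)) .nil))) .nil)) (.node .leaf (nat_lit 15529636352582514) (.br (nat_lit 0) (.cons (.br (nat_lit 3) (.cons (.rel (nat_lit 276825105)) (.cons (.rel (nat_lit 541066245)) .nil))) .nil)) .leaf)) (nat_lit 15529636352582537) (.br (nat_lit 5) (.cons (.br (nat_lit 0) (.cons (.rel (nat_lit 4299165702)) (.cons (.rel (nat_lit 4299165702)) .nil))) .nil)) (.node (.node (.node .leaf (nat_lit 15529636352582559) (.br (nat_lit 0) (.cons (.br (nat_lit 4) (.cons (.rel (nat_lit 1077944352))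 .nil)) .nil)) .leaf) (nat_lit 15529636352605095) (.br (nat_lit 4) (.cons (.br (nat_lit 0) (.cons (.rel (nat_lit 1077944352)) (.cons (.rel (nat_lit 1077944352)) .nil))) .nil)) .leaf) (nat_lit 15529636448951177) (.br (nat_lit 0) (.cons (.br (nat_lit 4) (.cons (.rel (nat_lit 2155876368)) .nil)) .nil)) (.node .leaf (nat_lit 15529636448959346) (.br (nat_lit 3) (.cons (.br (nat_lit 5) (.cons (.rel (nat_lit 4563407892)) .nil)) .nil)) .leaf))) (nat_lit 15529636448959376) (.br (nat_lit 0) (.cons (.br (nat_lit 5) (.cons (.rel (nat_lit 8595181569)) .nil)) .nil)) (.node (.node (.node (.node .leaf (nat_lit 15529636448959399) (.br (nat_lit 3) (.cons (.br (nat_lit 0) (.cons (.rel (nat_lit 276825105)) (.cons (.rel (nat_lit 541066245)) .nil))) .nil)) .leaf) (nat_lit 15529636448973686) (.br (nat_lit 0) (.cons (.br (nat_lit 6) (.cons (.rel (nat_lit 17184079968)) (.cons (.rel (nat_lit 17188258320)) .nil))) (.cons (.br (nat_lit 3) (.cons (.rel (nat_lit 276824100)) (.cons (.rel (nat_lit 541066245)) .nil))) .nil))) .leaf)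 (nat_lit 15529636448973701) (.br (nat_lit 0) (.cons (.br (nat_lit 4) (.cons (.br (nat_lit 1) (.cons (.rel (nat_lit 41944068)) (.cons (.rel (nat_lit 2164277280)) .nil))) .nil)) .nil)) (.node .leaf (nat_lit 15529636574849176) (.br (nat_lit 0) (.cons (.br (nat_lit 2) (.cons (.rel (nat_lit 71303178)) .nil)) .nil)) .leaf)) (nat_lit 15529636574849936) (.br (nat_lit 0) (.cons (.br (nat_lit 4) (.cons (.rel (nat_lit 1077936273)) .nil)) .nil)) (.node (.node (.node .leaf (nat_lit 15529670712320935) (.br (nat_lit 0) (.cons (.br (nat_lit 6) (.cons (.rel (nat_lit 17188258320)) (.cons (.rel (nat_lit 17188258320)) .nil))) .nil)) .leaf) (nat_lit 15529670712343414) (.br (nat_lit 0) (.cons (.br (nat_lit 6) (.cons (.rel (nat_lit 17184063636)) (.cons (.rel (nat_lit 17188258320)) (.cons (.rel (nat_lit 17188258320)) (.cons (.rel (nat_lit 17188258320)) .nil))))) (.cons (.br (nat_lit 2) (.cons (.rel (nat_lit 71304228)) (.cons (.rel (nat_lit 71303178)) .nil))) .nil))) .leaf) (nat_lit 15529670729120630) (.br (nat_lit 0) (.cons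 (.br (nat_lit 6) (.cons (.rel (nat_lit 17184063636)) (.cons (.rel (nat_lit 17188258320)) (.cons (.rel (nat_lit 17188258320)) (.cons (.rel (nat_lit 17188258320)) .nil))))) .nil)) (.node .leaf (nat_lit 15529670838049654) (.br (nat_lit 0) (.cons (.br (nat_lit 4) (.cons (.rel (nat_lit 1078005780)) .nil)) .nil)) .leaf)))) (nat_lit 15529670838057865) (.br (nat_lit 0) (.cons (.br (nat_lit 4) (.cons (.rel (nat_lit 2155876368)) .nil)) .nil)) (.node (.node (.node (.node (.node .leaf (nat_lit 15529670838072178) (.br (nat_lit 0) (.cons (.br (nat_lit 6) (.cons (.rel (nat_lit 17184079968)) (.cons (.rel (nat_lit 17184063636)) (.cons (.rel (nat_lit 17188258320)) .nil)))) .nil)) .leaf) (nat_lit 15529670934588297) (.br (nat_lit 0) (.cons (.br (nat_lit 3) (.cons (.rel (nat_lit 276824100)) (.cons (.rel (nat_lit 276824100)) (.cons (.rel (nat_lit 276825105)) .nil)))) (.cons (.br (nat_lit 4) (.cons (.rel (nat_lit 1077940290)) (.cons (.rel (nat_lit 1082654784)) (.cons (.rel (nat_lit 1077936273)) .nil)))) (.cons (.br (nat_lit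 5) (.cons (.rel (nat_lit 8598388800)) (.cons (.rel (nat_lit 4299166752)) (.cons (.rel (nat_lit 4299178017)) (.cons (.rel (nat_lit 4299165702)) (.cons (.rel (nat_lit 4299166752)) (.cons (.rel (nat_lit 8594133264)) .nil))))))) .nil)))) .leaf) (nat_lit 15529670934588327) (.br (nat_lit 4) (.cons (.br (nat_lit 0) (.cons (.rel (nat_lit 2155937796)) (.cons (.rel (nat_lit 2151940224)) .nil))) .nil)) (.node .leaf (nat_lit 15529730858640246) (.br (nat_lit 0) (.cons (.br (nat_lit 1) (.cons (.rel (nat_lit 41944068)) (.cons (.rel (nat_lit 27263040)) (.cons (.rel (nat_lit 20971557)) .nil)))) .nil)) .leaf)) (nat_lit 15529730858640272) (.br (nat_lit 5) (.cons (.br (nat_lit 0) (.cons (.rel (nat_lit 4299180036)) (.cons (.rel (nat_lit 4299165702)) .nil))) .nil)) (.node (.node (.node .leaf (nat_lit 15529730858662770) (.br (nat_lit 5) (.cons (.br (nat_lit 2) (.cons (.rel (nat_lit 8657174544)) (.cons (.rel (nat_lit 8657174544)) (.cons (.rel (nat_lit 8657174544)) (.cons (.rel (nat_lit 8657174544)) (.cons (.rel (nat_lit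 8657174544)) .nil)))))) .nil)) .leaf) (nat_lit 15529730858662793) (.br (nat_lit 4) (.cons (.br (nat_lit 5) (.cons (.rel (nat_lit 9663682560)) (.cons (.rel (nat_lit 5369364480)) (.cons (.rel (nat_lit 9663676488)) .nil)))) (.cons (.br (nat_lit 5) (.cons (.rel (nat_lit 9663676488)) (.cons (.rel (nat_lit 5368713744)) (.cons (.rel (nat_lit 9663676488)) .nil)))) .nil))) .leaf) (nat_lit 15529730938231666) (.br (nat_lit 0) (.cons (.br (nat_lit 3) (.cons (.rel (nat_lit 541066245)) .nil)) .nil)) (.node .leaf (nat_lit 15529730938239862) (.br (nat_lit 0) (.cons (.br (nat_lit 3) (.cons (.rel (nat_lit 541066245)) .nil)) .nil)) .leaf))) (nat_lit 15529730938239877) (.br (nat_lit 0) (.cons (.br (nat_lit 4) (.cons (.rel (nat_lit 1078005780)) .nil)) .nil)) (.node (.node (.node (.node .leaf (nat_lit 15529730938239903) (.br (nat_lit 4) (.cons (.br (nat_lit 5) (.cons (.rel (nat_lit 9663676488)) .nil)) .nil)) .leaf) (nat_lit 15529730938254217) (.br (nat_lit 0) (.cons (.br (nat_lit 4) (.cons (.rel (nat_lit 2155876368))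 (.cons (.rel (nat_lit 1078005780)) .nil))) (.cons (.br (nat_lit 4) (.cons (.rel (nat_lit 2155876368)) (.cons (.rel (nat_lit 2155876368)) .nil))) .nil))) .leaf) (nat_lit 15529730967591794) (.br (nat_lit 3) (.cons (.br (nat_lit 5) (.cons (.rel (nat_lit 4832362512)) .nil)) .nil)) (.node .leaf (nat_lit 15529730967591824) (.br (nat_lit 4) (.cons (.br (nat_lit 5) (.cons (.rel (nat_lit 5369758032)) (.cons (.rel (nat_lit 5368713744)) .nil))) .nil)) .leaf)) (nat_lit 15529730967599990) (.br (nat_lit 3) (.cons (.br (nat_lit 5) (.cons (.rel (nat_lit 4832362512)) .nil)) .nil)) (.node (.node .leaf (nat_lit 15529730967600005) (.br (nat_lit 4) (.cons (.br (nat_lit 5) (.cons (.rel (nat_lit 6442460160)) .nil)) .nil)) .leaf) (nat_lit 15529730967614345) (.br (nat_lit 5) (.cons (.br (nat_lit 3) (.cons (.rel (nat_lit 4563402825)) (.cons (.rel (nat_lit 4563408897)) (.cons (.rel (nat_lit 9126825984)) .nil)))) (.cons (.br (nat_lit 3) (.cons (.rel (nat_lit 4563408897)) (.cons (.rel (nat_lit 8859435024)) (.cons (.rel (nat_lit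 4563402825)) .nil)))) .nil))) (.node .leaf (nat_lit 15529730967614371) (.br (nat_lit 5) (.cons (.br (nat_lit 0) (.cons (.rel (nat_lit 4299292800)) (.cons (.rel (nat_lit 4299228180)) .nil))) .nil)) .leaf))))))

/-- refutations 46 -/
def e46 : EX := (.node (.node (.node (.node (.node (.node .leaf (nat_lit 15850826150720265) (.br (nat_lit 1) (.cons (.br (nat_lit 2) (.cons (.rel (nat_lit 151031808)) .nil)) .nil)) .leaf) (nat_lit 15850826150720389) (.br (nat_lit 3) (.cons (.br (nat_lit 5) (.cons (.rel (nat_lit 4563402825)) (.cons (.rel (nat_lit 4563443712)) .nil))) (.cons (.br (nat_lit 2) (.cons (.rel (nat_lit 335581188)) (.cons (.rel (nat_lit 335581188)) (.cons (.rel (nat_lit 335552577)) .nil)))) .nil))) .leaf) (nat_lit 15851642194506633) (.br (nat_lit 6) (.cons (.br (nat_lit 2) (.cons (.rel (nat_lit 34426912776)) (.cons (.rel (nat_lit 17249077248)) .nil))) .nil)) (.node (.node .leaf (nat_lit 15851642194514832) (.br (nat_lit 2) (.cons (.br (nat_lit 6) (.cons (.rel (nat_lit 17249077248)) (.cons (.rel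 (nat_lit 17314217988)) .nil))) .nil)) .leaf) (nat_lit 15851645252154249) (.br (nat_lit 3) (.cons (.br (nat_lit 6) (.cons (.rel (nat_lit 17448337440)) .nil)) .nil)) .leaf)) (nat_lit 15851645253229445) (.br (nat_lit 0) (.cons (.br (nat_lit 2) (.cons (.rel (nat_lit 71305233)) .nil)) .nil)) (.node (.node (.node .leaf (nat_lit 15851676571022213) (.br (nat_lit 2) (.cons (.br (nat_lit 5) (.cons (.rel (nat_lit 4429250592)) (.cons (.rel (nat_lit 8724414465)) (.cons (.rel (nat_lit 8724414465)) (.cons (.rel (nat_lit 4362600450)) .nil))))) .nil)) .leaf) (nat_lit 15851676571030409) (.br (nat_lit 6) (.cons (.br (nat_lit 0) (.cons (.rel (nat_lit 17184079968)) (.cons (.rel (nat_lit 34363932960)) .nil))) .nil)) .leaf) (nat_lit 15851676571038608) (.br (nat_lit 4) (.cons (.br (nat_lit 2) (.cons (.rel (nat_lit 2214608901)) (.cons (.rel (nat_lit 1207980048)) (.cons (.rel (nat_lit 1207980048)) .nil)))) (.cons (.br (nat_lit 5) (.cons (.rel (nat_lit 5369364480)) (.cons (.br (nat_lit 2) (.cons (.rel (nat_lit 8657174544))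 (.cons (.rel (nat_lit 2281775376)) (.cons (.rel (nat_lit 6509821968)) .nil)))) (.cons (.rel (nat_lit 5369364480)) (.cons (.rel (nat_lit 5369364480)) .nil))))) .nil))) (.node (.node .leaf (nat_lit 15851679579667344) (.br (nat_lit 2) (.cons (.br (nat_lit 3) (.cons (.rel (nat_lit 402661632)) .nil)) .nil)) .leaf) (nat_lit 15851892145404681) (.br (nat_lit 0) (.cons (.br (nat_lit 1) (.cons (.rel (nat_lit 20971557)) .nil)) .nil)) .leaf))) (nat_lit 15855931596678025) (.br (nat_lit 6) (.cons (.br (nat_lit 0) (.cons (.rel (nat_lit 34363932960)) (.cons (.rel (nat_lit 17184079968)) (.cons (.rel (nat_lit 34363932960)) (.cons (.rel (nat_lit 17184096264)) (.cons (.rel (nat_lit 34363932960)) (.cons (.rel (nat_lit 34363932960)) (.cons (.rel (nat_lit 34363932960)) .nil)))))))) .nil)) (.node (.node (.node (.node .leaf (nat_lit 15855931596694405) (.br (nat_lit 2) (.cons (.br (nat_lit 6) (.cons (.rel (nat_lit 17249077248)) (.cons (.br (nat_lit 0) (.cons (.rel (nat_lit 34363932960)) (.cons (.rel (nat_lit 71304228)) (.cons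 (.rel (nat_lit 34363932960)) (.cons (.rel (nat_lit 142606341)) (.cons (.rel (nat_lit 71303178)) (.cons (.rel (nat_lit 71303178)) .nil))))))) (.cons (.rel (nat_lit 34495005696)) .nil)))) (.cons (.br (nat_lit 0) (.cons (.rel (nat_lit 71305233)) (.cons (.rel (nat_lit 71340048)) (.cons (.rel (nat_lit 71303178)) (.cons (.rel (nat_lit 71304228)) (.cons (.rel (nat_lit 71304228)) (.cons (.rel (nat_lit 71304228)) .nil))))))) .nil))) .leaf) (nat_lit 15857056892845439) (.br (nat_lit 1) (.cons (.br (nat_lit 5) (.cons (.rel (nat_lit 4328538120)) (.cons (.rel (nat_lit 4328538120)) .nil))) .nil)) .leaf) (nat_lit 15857056894886789) (.br (nat_lit 5) (.cons (.br (nat_lit 3) (.cons (.rel (nat_lit 4563408897)) (.cons (.rel (nat_lit 4563443712)) (.cons (.rel (nat_lit 4563402825)) (.cons (.rel (nat_lit 4563402825)) .nil))))) (.cons (.br (nat_lit 6) (.cons (.rel (nat_lit 21475098882)) (.cons (.br (nat_lit 3) (.cons (.rel (nat_lit 4563420162)) (.cons (.rel (nat_lit 34896609348)) (.cons (.rel (nat_lit 17448322113)) (.cons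 (.rel (nat_lit 17448337440)) .nil))))) (.cons (.rel (nat_lit 21474853377)) (.cons (.rel (nat_lit 21475098882)) .nil))))) (.cons (.br (nat_lit 6) (.cons (.rel (nat_lit 25769803842)) (.cons (.rel (nat_lit 25769803842)) (.cons (.rel (nat_lit 21475098882)) (.cons (.rel (nat_lit 42949951488)) .nil))))) .nil)))) (.node (.node .leaf (nat_lit 15857056894886793) (.br (nat_lit 4) (.cons (.br (nat_lit 1) (.cons (.rel (nat_lit 1090519554)) (.cons (.rel (nat_lit 1090519554)) .nil))) .nil)) .leaf) (nat_lit 15857228257950597) (.br (nat_lit 0) (.cons (.br (nat_lit 1) (.cons (.rel (nat_lit 20971557)) .nil)) .nil)) .leaf)) (nat_lit 15857528821717893) (.br (nat_lit 0) (.cons (.br (nat_lit 2) (.cons (.rel (nat_lit 71305233)) .nil)) .nil)) (.node (.node (.node .leaf (nat_lit 15858088190425989) (.br (nat_lit 0) (.cons (.br (nat_lit 1) (.cons (.rel (nat_lit 38076417)) .nil)) .nil)) .leaf) (nat_lit 15858088190989193) (.br (nat_lit 0) (.cons (.br (nat_lit 1) (.cons (.rel (nat_lit 41944068)) .nil)) .nil)) .leaf) (nat_lit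 15861308406651781) (.br (nat_lit 0) (.cons (.br (nat_lit 1) (.cons (.rel (nat_lit 20971557)) .nil)) .nil)) (.node (.node .leaf (nat_lit 15861786890482569) (.br (nat_lit 4) (.cons (.br (nat_lit 0) (.cons (.rel (nat_lit 1078067208)) (.cons (.rel (nat_lit 1078002768)) .nil))) .nil)) .leaf) (nat_lit 15861786890498949) (.br (nat_lit 4) (.cons (.br (nat_lit 5) (.cons (.rel (nat_lit 6442460160)) .nil)) .nil)) .leaf)))) (nat_lit 15862374611825541) (.br (nat_lit 1) (.cons (.br (nat_lit 3) (.cons (.rel (nat_lit 285212697)) .nil)) .nil)) (.node (.node (.node (.node (.node .leaf (nat_lit 15863467060222834) (.br (nat_lit 0) (.cons (.br (nat_lit 4) (.cons (.rel (nat_lit 1077944352)) .nil)) .nil)) .leaf) (nat_lit 15863467060222857) (.br (nat_lit 4) (.cons (.br (nat_lit 1) (.cons (.rel (nat_lit 2164277280)) (.cons (.rel (nat_lit 1090519554)) (.cons (.rel (nat_lit 2181038337)) (.cons (.rel (nat_lit 2164328448)) (.cons (.rel (nat_lit 1090519554)) .nil)))))) (.cons (.br (nat_lit 0) (.cons (.rel (nat_lit 2151679248))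 (.cons (.rel (nat_lit 2155876368)) (.cons (.rel (nat_lit 1077940290)) (.cons (.rel (nat_lit 1077968901)) (.cons (.rel (nat_lit 1077940290)) (.cons (.rel (nat_lit 1077940290)) .nil))))))) (.cons (.br (nat_lit 0) (.cons (.rel (nat_lit 2155876368)) (.cons (.rel (nat_lit 1077944352)) (.cons (.rel (nat_lit 1077944352)) (.cons (.rel (nat_lit 1077954624)) (.cons (.rel (nat_lit 2155874373)) (.cons (.rel (nat_lit 1077954624)) .nil))))))) (.cons (.br (nat_lit 5) (.cons (.br (nat_lit 2) (.cons (.rel (nat_lit 8657174544)) (.cons (.rel (nat_lit 8657174544)) (.cons (.rel (nat_lit 8657174544)) (.cons (.rel (nat_lit 6509821968)) (.cons (.rel (nat_lit 1140851220)) (.cons (.rel (nat_lit 8657174544)) (.cons (.rel (nat_lit 1140851220)) (.cons (.rel (nat_lit 1140851220)) (.cons (.rel (nat_lit 8657174544)) .nil)))))))))) (.cons (.br (nat_lit 1) (.cons (.rel (nat_lit 5385486360)) (.cons (.rel (nat_lit 2164260948)) (.cons (.rel (nat_lit 2164277280)) (.cons (.rel (nat_lit 4312006992)) (.cons (.rel (nat_lit 8606711952)) .nil))))))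 (.cons (.rel (nat_lit 6442460160)) (.cons (.rel (nat_lit 9663676488)) (.cons (.rel (nat_lit 6442460160)) (.cons (.rel (nat_lit 5368713744)) .nil))))))) .nil))))) .leaf) (nat_lit 15863467060231030) (.br (nat_lit 0) (.cons (.br (nat_lit 5) (.cons (.rel (nat_lit 4299178017)) .nil)) .nil)) (.node (.node .leaf (nat_lit 15863467060231056) (.br (nat_lit 4) (.cons (.br (nat_lit 5) (.cons (.rel (nat_lit 5370021888)) (.cons (.rel (nat_lit 5370021888)) .nil))) .nil)) .leaf) (nat_lit 15863467060245381) (.br (nat_lit 4) (.cons (.br (nat_lit 1) (.cons (.rel (nat_lit 1090519554)) (.cons (.rel (nat_lit 1090519554)) (.cons (.rel (nat_lit 1090519554)) (.cons (.rel (nat_lit 2164328448)) .nil))))) (.cons (.br (nat_lit 1) (.cons (.rel (nat_lit 1090519554)) (.cons (.rel (nat_lit 1090519554)) (.cons (.rel (nat_lit 2181038337)) (.cons (.rel (nat_lit 2181038337)) .nil))))) (.cons (.br (nat_lit 5) (.cons (.br (nat_lit 1) (.cons (.rel (nat_lit 2164260948)) (.cons (.rel (nat_lit 2164277280)) (.cons (.rel (nat_lit 8606711952))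 (.cons (.rel (nat_lit 4312006992)) .nil))))) (.cons (.rel (nat_lit 6442460160)) (.cons (.rel (nat_lit 6442451076)) (.cons (.rel (nat_lit 9663676488)) .nil))))) .nil)))) .leaf)) (nat_lit 15863467060991232) (.br (nat_lit 0) (.cons (.br (nat_lit 3) (.cons (.rel (nat_lit 272646468)) (.cons (.rel (nat_lit 272646468)) (.cons (.rel (nat_lit 541066245)) (.cons (.rel (nat_lit 541066245)) .nil))))) (.cons (.br (nat_lit 1) (.cons (.rel (nat_lit 20971557)) (.cons (.rel (nat_lit 20971557)) (.cons (.rel (nat_lit 27263040)) (.cons (.rel (nat_lit 20988033)) .nil))))) .nil))) (.node (.node (.node .leaf (nat_lit 15863467060991359) (.br (nat_lit 4) (.cons (.br (nat_lit 5) (.cons (.rel (nat_lit 5368713744)) .nil)) .nil)) .leaf) (nat_lit 15863501311032182) (.br (nat_lit 0) (.cons (.br (nat_lit 6) (.cons (.rel (nat_lit 17188258320)) .nil)) .nil)) .leaf) (nat_lit 15863501357169545) (.br (nat_lit 0) (.cons (.br (nat_lit 3) (.cons (.rel (nat_lit 276824100)) (.cons (.rel (nat_lit 541066245)) (.cons (.rel (nat_lit 541066245))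 .nil)))) .nil)) (.node (.node .leaf (nat_lit 15863535716907890) (.br (nat_lit 3) (.cons (.br (nat_lit 5) (.cons (.rel (nat_lit 4563407892)) .nil)) .nil)) .leaf) (nat_lit 15863535779699574) (.br (nat_lit 4) (.cons (.br (nat_lit 0) (.cons (.rel (nat_lit 1077944352)) (.cons (.rel (nat_lit 1078002768)) .nil))) .nil)) .leaf))) (nat_lit 15863535779707781) (.br (nat_lit 4) (.cons (.br (nat_lit 5) (.cons (.rel (nat_lit 5368713744)) (.cons (.rel (nat_lit 5370021888)) .nil))) (.cons (.br (nat_lit 5) (.cons (.br (nat_lit 1) (.cons (.rel (nat_lit 8606744580)) (.cons (.rel (nat_lit 8606711952)) (.cons (.rel (nat_lit 4312006992)) (.cons (.rel (nat_lit 2181038337)) .nil))))) (.cons (.rel (nat_lit 9663676488)) .nil))) .nil))) (.node (.node (.node (.node .leaf (nat_lit 15863535779722121) (.br (nat_lit 4) (.cons (.br (nat_lit 0) (.cons (.rel (nat_lit 1077944352)) (.cons (.br (nat_lit 2) (.cons (.rel (nat_lit 71303178)) (.cons (.rel (nat_lit 71303178)) (.cons (.rel (nat_lit 71304228)) (.cons (.rel (nat_lit 71303178))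 .nil))))) (.cons (.br (nat_lit 2) (.cons (.rel (nat_lit 71304228)) (.cons (.rel (nat_lit 71303178)) (.cons (.rel (nat_lit 71303178)) (.cons (.rel (nat_lit 71303178)) .nil))))) .nil)))) .nil)) .leaf) (nat_lit 15863535779722143) (.br (nat_lit 0) (.cons (.br (nat_lit 5) (.cons (.rel (nat_lit 8598327384)) (.cons (.rel (nat_lit 4299162690)) .nil))) (.cons (.br (nat_lit 3) (.cons (.rel (nat_lit 272662800)) (.cons (.rel (nat_lit 276824100)) .nil))) .nil))) .leaf) (nat_lit 15863887858088837) (.br (nat_lit 0) (.cons (.br (nat_lit 5) (.cons (.rel (nat_lit 4299180036)) (.cons (.rel (nat_lit 4299229185)) .nil))) .nil)) (.node (.node .leaf (nat_lit 15863887967026064) (.br (nat_lit 4) (.cons (.br (nat_lit 5) (.cons (.rel (nat_lit 5370021888)) .nil)) .nil)) .leaf) (nat_lit 15863887967040374) (.br (nat_lit 4) (.cons (.br (nat_lit 0) (.cons (.br (nat_lit 3) (.cons (.rel (nat_lit 1342308384)) (.cons (.rel (nat_lit 276824100)) .nil))) (.cons (.rel (nat_lit 1077944352)) .nil))) .nil)) .leaf)) (nat_lit 15863887967040389)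 (.br (nat_lit 4) (.cons (.br (nat_lit 3) (.cons (.rel (nat_lit 1342308384)) (.cons (.br (nat_lit 0) (.cons (.rel (nat_lit 276825105)) (.cons (.rel (nat_lit 1077944352)) (.cons (.rel (nat_lit 2157465600)) .nil)))) .nil))) .nil)) (.node (.node (.node .leaf (nat_lit 15863887967040415) (.br (nat_lit 4) (.cons (.br (nat_lit 5) (.cons (.rel (nat_lit 5369364480)) .nil)) .nil)) .leaf) (nat_lit 15863922326756229) (.br (nat_lit 0) (.cons (.br (nat_lit 4) (.cons (.rel (nat_lit 1078002768)) .nil)) .nil)) .leaf) (nat_lit 15863922326778738) (.br (nat_lit 4) (.cons (.br (nat_lit 5) (.cons (.br (nat_lit 6) (.cons (.rel (nat_lit 21475393536)) .nil)) .nil)) .nil)) (.node .leaf (nat_lit 15863982393506697) (.br (nat_lit 0) (.cons (.br (nat_lit 5) (.cons (.rel (nat_lit 8594133264)) (.cons (.rel (nat_lit 4299229185)) (.cons (.rel (nat_lit 4299180036)) .nil)))) (.cons (.br (nat_lit 3) (.cons (.rel (nat_lit 272908305)) (.cons (.rel (nat_lit 272662800)) .nil))) .nil))) .leaf)))))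

/-- refutations 47 -/
def e47 : EX := (.node (.node (.node (.node (.node (.node .leaf (nat_lit 15920940872104841) (.br (nat_lit 0) (.cons (.br (nat_lit 3) (.cons (.rel (nat_lit 272762112)) (.cons (.rel (nat_lit 272897040)) .nil))) (.cons (.br (nat_lit 3) (.cons (.rel (nat_lit 541066245)) (.cons (.rel (nat_lit 273699840)) .nil))) .nil))) .leaf) (nat_lit 15920942358723495) (.br (nat_lit 0) (.cons (.br (nat_lit 1) (.cons (.rel (nat_lit 20971557)) .nil)) .nil)) .leaf) (nat_lit 15920975231851401) (.br (nat_lit 0) (.cons (.br (nat_lit 1) (.cons (.rel (nat_lit 20988033)) .nil)) .nil)) (.node (.node .leaf (nat_lit 15920976689101735) (.br (nat_lit 0) (.cons (.br (nat_lit 3) (.cons (.rel (nat_lit 272908305)) .nil)) .nil)) .leaf) (nat_lit 15920980040145078) (.br (nat_lit 0) (.cons (.br (nat_lit 4) (.cons (.rel (nat_lit 2155876368)) .nil)) .nil)) .leaf)) (nat_lit 15920980041624453) (.br (nat_lit 1) (.cons (.br (nat_lit 3) (.cons (.rel (nat_lit 285212697)) .nil)) .nil)) (.node (.node (.node .leaf (nat_lit 15920980649335689)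 (.br (nat_lit 0) (.cons (.br (nat_lit 4) (.cons (.rel (nat_lit 1078002768)) (.cons (.rel (nat_lit 1078002768)) (.cons (.rel (nat_lit 1077936273)) (.cons (.rel (nat_lit 1077936273)) .nil))))) .nil)) .leaf) (nat_lit 15920980649343881) (.br (nat_lit 0) (.cons (.br (nat_lit 1) (.cons (.rel (nat_lit 20988033)) .nil)) .nil)) .leaf) (nat_lit 15920983690176663) (.br (nat_lit 3) (.cons (.br (nat_lit 5) (.cons (.rel (nat_lit 4563402825)) .nil)) .nil)) (.node (.node .leaf (nat_lit 15920983690203318) (.br (nat_lit 3) (.cons (.br (nat_lit 4) (.cons (.rel (nat_lit 1342177413)) .nil)) .nil)) .leaf) (nat_lit 15920983690214281) (.br (nat_lit 0) (.cons (.br (nat_lit 1) (.cons (.rel (nat_lit 21106689)) (.cons (.rel (nat_lit 20971557)) .nil))) .nil)) .leaf))) (nat_lit 15920983691713413) (.br (nat_lit 0) (.cons (.br (nat_lit 1) (.cons (.rel (nat_lit 41944068)) .nil)) .nil)) (.node (.node (.node (.node .leaf (nat_lit 15920983692071817) (.br (nat_lit 4) (.cons (.br (nat_lit 0) (.cons (.rel (nat_lit 1077944352)) (.cons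 (.rel (nat_lit 1077944352)) .nil))) .nil)) .leaf) (nat_lit 15920983706931355) (.br (nat_lit 0) (.cons (.br (nat_lit 2) (.cons (.rel (nat_lit 71303178)) (.cons (.rel (nat_lit 71340048)) .nil))) (.cons (.br (nat_lit 3) (.cons (.rel (nat_lit 272695617)) (.cons (.rel (nat_lit 272762112)) .nil))) .nil))) .leaf) (nat_lit 15920983708826505) (.br (nat_lit 0) (.cons (.br (nat_lit 3) (.cons (.rel (nat_lit 272646468)) .nil)) .nil)) (.node (.node .leaf (nat_lit 15921241405039497) (.br (nat_lit 0) (.cons (.br (nat_lit 3) (.cons (.rel (nat_lit 276825105)) .nil)) .nil)) .leaf) (nat_lit 15921241406610313) (.br (nat_lit 0) (.cons (.br (nat_lit 3) (.cons (.rel (nat_lit 276825105)) .nil)) .nil)) .leaf)) (nat_lit 15921444342285189) (.br (nat_lit 2) (.cons (.br (nat_lit 4) (.cons (.rel (nat_lit 1207980048)) .nil)) .nil)) (.node (.node (.node .leaf (nat_lit 15922010938373001) (.br (nat_lit 0) (.cons (.br (nat_lit 6) (.cons (.rel (nat_lit 17184079968)) .nil)) .nil)) .leaf) (nat_lit 15922010938684297) (.br (nat_lit 6) (.cons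 (.br (nat_lit 0) (.cons (.rel (nat_lit 17184079968)) (.cons (.rel (nat_lit 17184145413)) (.cons (.rel (nat_lit 34363932960)) .nil)))) (.cons (.br (nat_lit 0) (.cons (.rel (nat_lit 17184194562)) (.cons (.rel (nat_lit 17184079968)) (.cons (.rel (nat_lit 17184145413)) .nil)))) .nil))) .leaf) (nat_lit 15922010938692496) (.br (nat_lit 2) (.cons (.br (nat_lit 0) (.cons (.rel (nat_lit 71401476)) (.cons (.rel (nat_lit 71304228)) .nil))) .nil)) (.node .leaf (nat_lit 15922010938700677) (.br (nat_lit 2) (.cons (.br (nat_lit 1) (.cons (.rel (nat_lit 86048784)) (.cons (.rel (nat_lit 85197840)) (.cons (.rel (nat_lit 150995988)) .nil)))) .nil)) .leaf)))) (nat_lit 15922013962777481) (.br (nat_lit 3) (.cons (.br (nat_lit 0) (.cons (.rel (nat_lit 273747984)) (.cons (.rel (nat_lit 272897040)) .nil))) .nil)) (.node (.node (.node (.node (.node .leaf (nat_lit 15922013963860873) (.br (nat_lit 0) (.cons (.br (nat_lit 1) (.cons (.rel (nat_lit 41944068)) .nil)) .nil)) .leaf) (nat_lit 15922013964106633) (.br (nat_lit 3) (.cons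 (.br (nat_lit 5) (.cons (.rel (nat_lit 4832362512)) .nil)) .nil)) .leaf) (nat_lit 15922013980629893) (.br (nat_lit 0) (.cons (.br (nat_lit 5) (.cons (.rel (nat_lit 4299180036)) .nil)) .nil)) (.node (.node .leaf (nat_lit 15922013980891793) (.br (nat_lit 0) (.cons (.br (nat_lit 2) (.cons (.rel (nat_lit 71372865)) .nil)) .nil)) .leaf) (nat_lit 15922013996034709) (.br (nat_lit 4) (.cons (.br (nat_lit 5) (.cons (.rel (nat_lit 5369364480)) .nil)) .nil)) .leaf)) (nat_lit 15922013996094345) (.br (nat_lit 3) (.cons (.br (nat_lit 4) (.cons (.rel (nat_lit 1342177413)) .nil)) .nil)) (.node (.node (.node .leaf (nat_lit 15922013996331913) (.br (nat_lit 3) (.cons (.br (nat_lit 6) (.cons (.rel (nat_lit 17448436752)) (.cons (.rel (nat_lit 34896609348)) .nil))) .nil)) .leaf) (nat_lit 15922013997161353) (.br (nat_lit 3) (.cons (.br (nat_lit 6) (.cons (.rel (nat_lit 34896625680)) .nil)) .nil)) .leaf) (nat_lit 15922013997407109) (.br (nat_lit 0) (.cons (.br (nat_lit 5) (.cons (.rel (nat_lit 4299166752)) .nil)) .nil))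 (.node (.node .leaf (nat_lit 15922013997415305) (.br (nat_lit 0) (.cons (.br (nat_lit 5) (.cons (.rel (nat_lit 4299166752)) .nil)) .nil)) .leaf) (nat_lit 15922046246024069) (.br (nat_lit 2) (.cons (.br (nat_lit 4) (.cons (.br (nat_lit 1) (.cons (.rel (nat_lit 1107428352)) (.cons (.rel (nat_lit 100663317)) .nil))) .nil)) .nil)) .leaf))) (nat_lit 15922046246038409) (.br (nat_lit 1) (.cons (.br (nat_lit 4) (.cons (.rel (nat_lit 1107428352)) (.cons (.rel (nat_lit 1090519554)) .nil))) .nil)) (.node (.node (.node (.node .leaf (nat_lit 15922048322203710) (.br (nat_lit 0) (.cons (.br (nat_lit 1) (.cons (.rel (nat_lit 20996112)) .nil)) .nil)) .leaf) (nat_lit 15922048322524041) (.br (nat_lit 3) (.cons (.br (nat_lit 6) (.cons (.rel (nat_lit 17448304776)) .nil)) .nil)) .leaf) (nat_lit 15922048323599766) (.br (nat_lit 3) (.cons (.br (nat_lit 6) (.cons (.rel (nat_lit 34896625680)) .nil)) .nil)) (.node (.node .leaf (nat_lit 15922048354540425) (.br (nat_lit 2) (.cons (.br (nat_lit 3) (.cons (.rel (nat_lit 335548560))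 .nil)) .nil)) .leaf) (nat_lit 15922048355773073) (.br (nat_lit 4) (.cons (.br (nat_lit 5) (.cons (.rel (nat_lit 10737436992)) .nil)) .nil)) .leaf)) (nat_lit 15923173100385037) (.br (nat_lit 0) (.cons (.br (nat_lit 3) (.cons (.rel (nat_lit 276824100)) .nil)) .nil)) (.node (.node (.node .leaf (nat_lit 15923173101714313) (.br (nat_lit 0) (.cons (.br (nat_lit 3) (.cons (.rel (nat_lit 272891973)) (.cons (.rel (nat_lit 272762112)) .nil))) .nil)) .leaf) (nat_lit 15923173117111177) (.br (nat_lit 0) (.cons (.br (nat_lit 4) (.cons (.rel (nat_lit 1078006785)) .nil)) .nil)) .leaf) (nat_lit 15923173118654739) (.br (nat_lit 0) (.cons (.br (nat_lit 4) (.cons (.rel (nat_lit 2155937796)) .nil)) .nil)) (.node .leaf (nat_lit 15923301921364873) (.br (nat_lit 0) (.cons (.br (nat_lit 1) (.cons (.rel (nat_lit 21106689)) .nil)) .nil)) .leaf)))))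

/-- refutations 48 -/
def e48 : EX := (.node (.node (.node (.node (.node .leaf (nat_lit 15926299954979721) (.br (nat_lit 0) (.cons (.br (nat_lit 4) (.cons (.rel (nat_lit 1077944352)) .nil)) .nil)) .leaf) (nat_lit 15926394444260240) (.br (nat_lit 0) (.cons (.br (nat_lit 6) (.cons (.rel (nat_lit 17188258320)) .nil)) .nil)) (.node .leaf (nat_lit 15926394444268421) (.br (nat_lit 0) (.cons (.br (nat_lit 6) (.cons (.rel (nat_lit 34363932960)) (.cons (.rel (nat_lit 17188258320)) .nil))) .nil)) .leaf)) (nat_lit 15926394830136208) (.br (nat_lit 6) (.cons (.br (nat_lit 0) (.cons (.rel (nat_lit 17184079968)) (.cons (.rel (nat_lit 34363932960)) (.cons (.rel (nat_lit 34363932960)) (.cons (.rel (nat_lit 34363932960)) .nil))))) .nil)) (.node (.node .leaf (nat_lit 15926394830144389) (.br (nat_lit 2) (.cons (.br (nat_lit 6) (.cons (.rel (nat_lit 17314119681)) (.cons (.rel (nat_lit 17249077248)) .nil))) .nil)) .leaf) (nat_lit 15926395266360201) (.br (nat_lit 0) (.cons (.br (nat_lit 5) (.cons (.rel (nat_lit 4299178017))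 .nil)) .nil)) .leaf)) (nat_lit 15926401464570757) (.br (nat_lit 0) (.cons (.br (nat_lit 1) (.cons (.rel (nat_lit 20972562)) .nil)) .nil)) (.node (.node (.node .leaf (nat_lit 15926555867894665) (.br (nat_lit 0) (.cons (.br (nat_lit 1) (.cons (.rel (nat_lit 20973576)) .nil)) .nil)) .leaf) (nat_lit 15926555870804873) (.br (nat_lit 0) (.cons (.br (nat_lit 6) (.cons (.rel (nat_lit 17188258320)) .nil)) .nil)) (.node .leaf (nat_lit 15926615997420425) (.br (nat_lit 0) (.cons (.br (nat_lit 6) (.cons (.rel (nat_lit 34368192513)) (.cons (.rel (nat_lit 34363932960)) .nil))) .nil)) .leaf)) (nat_lit 15926618084662153) (.br (nat_lit 0) (.cons (.br (nat_lit 6) (.cons (.rel (nat_lit 17184072720)) (.cons (.rel (nat_lit 17184083985)) .nil))) (.cons (.br (nat_lit 4) (.cons (.rel (nat_lit 2155876368)) (.cons (.rel (nat_lit 1077944352)) .nil))) .nil))) (.node (.node .leaf (nat_lit 15926620154497929) (.br (nat_lit 0) (.cons (.br (nat_lit 4) (.cons (.rel (nat_lit 1077944352)) .nil)) .nil)) .leaf) (nat_lit 15926727230942089)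 (.br (nat_lit 0) (.cons (.br (nat_lit 3) (.cons (.rel (nat_lit 541065240)) .nil)) .nil)) .leaf))) (nat_lit 15926738993800073) (.br (nat_lit 0) (.cons (.br (nat_lit 3) (.cons (.br (nat_lit 5) (.cons (.rel (nat_lit 4563408897)) (.cons (.rel (nat_lit 4303880196)) .nil))) .nil)) .nil)) (.node (.node (.node (.node .leaf (nat_lit 15926738993800080) (.br (nat_lit 0) (.cons (.br (nat_lit 1) (.cons (.rel (nat_lit 41944068)) .nil)) .nil)) .leaf) (nat_lit 15926738993871625) (.br (nat_lit 3) (.cons (.br (nat_lit 1) (.cons (.rel (nat_lit 554958852)) (.cons (.rel (nat_lit 285214752)) .nil))) .nil)) (.node .leaf (nat_lit 15926772379405193) (.br (nat_lit 2) (.cons (.br (nat_lit 5) (.cons (.rel (nat_lit 4362600450)) (.cons (.rel (nat_lit 4429250592)) .nil))) .nil)) .leaf)) (nat_lit 15926772703388333) (.br (nat_lit 4) (.cons (.br (nat_lit 5) (.cons (.rel (nat_lit 6442460160)) .nil)) .nil)) (.node (.node .leaf (nat_lit 15926772703484809) (.br (nat_lit 2) (.cons (.br (nat_lit 5) (.cons (.rel (nat_lit 4429250592)) (.cons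 (.rel (nat_lit 8724414465)) (.cons (.rel (nat_lit 8724414465)) .nil)))) (.cons (.br (nat_lit 4) (.cons (.rel (nat_lit 2214608901)) (.cons (.rel (nat_lit 1207980048)) .nil))) .nil))) .leaf) (nat_lit 15926773223482029) (.br (nat_lit 1) (.cons (.br (nat_lit 4) (.cons (.rel (nat_lit 1090519554)) .nil)) .nil)) .leaf)) (nat_lit 15926779378244489) (.br (nat_lit 0) (.cons (.br (nat_lit 3) (.cons (.rel (nat_lit 546570258)) (.cons (.rel (nat_lit 276825105)) .nil))) .nil)) (.node (.node (.node .leaf (nat_lit 15927425119337353) (.br (nat_lit 5) (.cons (.br (nat_lit 0) (.cons (.rel (nat_lit 4299166752)) (.cons (.rel (nat_lit 4299178017)) .nil))) .nil)) .leaf) (nat_lit 15927431526644617) (.br (nat_lit 0) (.cons (.br (nat_lit 3) (.cons (.rel (nat_lit 541065240)) .nil)) .nil)) .leaf) (nat_lit 15927436726346633) (.br (nat_lit 3) (.cons (.br (nat_lit 4) (.cons (.rel (nat_lit 1342193745)) (.cons (.rel (nat_lit 2684355684)) .nil))) .nil)) (.node (.node .leaf (nat_lit 15927457354364287) (.br (nat_lit 2) (.cons (.br (nat_lit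 3) (.cons (.rel (nat_lit 402661632)) .nil)) .nil)) .leaf) (nat_lit 15927457373444753) (.br (nat_lit 0) (.cons (.br (nat_lit 1) (.cons (.rel (nat_lit 27263040)) (.cons (.rel (nat_lit 27263040)) .nil))) .nil)) .leaf))))

/-- refutations 49 -/
def e49 : EX := (.node (.node (.node (.node (.node (.node .leaf (nat_lit 15927590947130249) (.br (nat_lit 3) (.cons (.br (nat_lit 4) (.cons (.rel (nat_lit 1612709892)) .nil)) .nil)) .leaf) (nat_lit 15927597880405398) (.br (nat_lit 0) (.cons (.br (nat_lit 1) (.cons (.rel (nat_lit 38797440)) .nil)) .nil)) .leaf) (nat_lit 15927597958126473) (.br (nat_lit 0) (.cons (.br (nat_lit 6) (.cons (.rel (nat_lit 17188258320)) (.cons (.br (nat_lit 2) (.cons (.rel (nat_lit 17249077248)) (.cons (.rel (nat_lit 17247502401)) .nil))) (.cons (.rel (nat_lit 34368192513)) .nil)))) .nil)) (.node (.node .leaf (nat_lit 15927597958163094) (.br (nat_lit 0) (.cons (.br (nat_lit 1) (.cons (.rel (nat_lit 21106689)) .nil)) .nil)) .leaf) (nat_lit 15927597958206345) (.br (nat_lit 5) (.cons (.br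 (nat_lit 0) (.cons (.rel (nat_lit 4299178017)) (.cons (.rel (nat_lit 4299180036)) .nil))) .nil)) .leaf)) (nat_lit 15927597958462345) (.br (nat_lit 0) (.cons (.br (nat_lit 3) (.cons (.rel (nat_lit 541066245)) .nil)) .nil)) (.node (.node (.node .leaf (nat_lit 15927863624304822) (.br (nat_lit 1) (.cons (.br (nat_lit 4) (.cons (.rel (nat_lit 2181038337)) .nil)) .nil)) .leaf) (nat_lit 15927863624368263) (.br (nat_lit 2) (.cons (.br (nat_lit 3) (.cons (.rel (nat_lit 335544354)) .nil)) .nil)) .leaf) (nat_lit 15927863625114350) (.br (nat_lit 0) (.cons (.br (nat_lit 1) (.cons (.rel (nat_lit 20971557)) .nil)) .nil)) (.node (.node .leaf (nat_lit 15927863625431697) (.br (nat_lit 2) (.cons (.br (nat_lit 5) (.cons (.rel (nat_lit 4429202448)) (.cons (.rel (nat_lit 4429202448)) (.cons (.rel (nat_lit 8657051652)) (.cons (.rel (nat_lit 8724414465)) .nil))))) (.cons (.br (nat_lit 0) (.cons (.rel (nat_lit 75759888)) (.cons (.rel (nat_lit 71439360)) (.cons (.rel (nat_lit 71450625)) .nil)))) .nil))) .leaf) (nat_lit 15927863625431945)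 (.br (nat_lit 0) (.cons (.br (nat_lit 6) (.cons (.rel (nat_lit 17184064641)) (.cons (.br (nat_lit 1) (.cons (.rel (nat_lit 27263040)) (.cons (.rel (nat_lit 34381234176)) (.cons (.rel (nat_lit 27263040)) .nil)))) .nil))) (.cons (.br (nat_lit 6) (.cons (.rel (nat_lit 17184083985)) (.cons (.rel (nat_lit 17184145413)) .nil))) .nil))) .leaf))) (nat_lit 15927864145435309) (.br (nat_lit 0) (.cons (.br (nat_lit 1) (.cons (.rel (nat_lit 27263040)) .nil)) .nil)) (.node (.node (.node (.node .leaf (nat_lit 15927864145525393) (.br (nat_lit 0) (.cons (.br (nat_lit 3) (.cons (.rel (nat_lit 272908305)) (.cons (.rel (nat_lit 272662800)) (.cons (.rel (nat_lit 272762112)) .nil)))) .nil)) .leaf) (nat_lit 15927864145525517) (.br (nat_lit 0) (.cons (.br (nat_lit 4) (.cons (.rel (nat_lit 1077954624)) .nil)) .nil)) .leaf) (nat_lit 15927864145525641) (.br (nat_lit 4) (.cons (.br (nat_lit 0) (.cons (.rel (nat_lit 1077936273)) (.cons (.rel (nat_lit 1077936273)) (.cons (.rel (nat_lit 1077936273)) (.cons (.rel (nat_lit 1077940290))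 .nil))))) (.cons (.br (nat_lit 0) (.cons (.br (nat_lit 5) (.cons (.rel (nat_lit 6442451076)) (.cons (.rel (nat_lit 9663682560)) (.cons (.rel (nat_lit 9663682560)) (.cons (.rel (nat_lit 5369364480)) (.cons (.rel (nat_lit 4299178017)) (.cons (.rel (nat_lit 6442460160)) .nil))))))) (.cons (.rel (nat_lit 1077944352)) (.cons (.rel (nat_lit 1077954624)) (.cons (.rel (nat_lit 1077954624)) .nil))))) (.cons (.br (nat_lit 3) (.cons (.rel (nat_lit 1342212096)) (.cons (.rel (nat_lit 1342177413)) (.cons (.rel (nat_lit 1342212096)) (.cons (.rel (nat_lit 1342308384)) (.cons (.rel (nat_lit 2684371968)) (.cons (.rel (nat_lit 1342182480)) .nil))))))) .nil)))) (.node (.node .leaf (nat_lit 15927897955769225) (.br (nat_lit 0) (.cons (.br (nat_lit 5) (.cons (.rel (nat_lit 4301275392)) .nil)) .nil)) .leaf) (nat_lit 15927897955974025) (.br (nat_lit 1) (.cons (.br (nat_lit 5) (.cons (.rel (nat_lit 8606715969)) .nil)) .nil)) .leaf)) (nat_lit 15927898085825289) (.br (nat_lit 0) (.cons (.br (nat_lit 2) (.cons (.rel (nat_lit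 71450625)) .nil)) .nil)) (.node (.node (.node .leaf (nat_lit 15927898086087561) (.br (nat_lit 2) (.cons (.br (nat_lit 6) (.cons (.rel (nat_lit 17247256896)) .nil)) .nil)) .leaf) (nat_lit 15928453282922523) (.br (nat_lit 0) (.cons (.br (nat_lit 1) (.cons (.rel (nat_lit 20972562)) .nil)) .nil)) .leaf) (nat_lit 15928453284726935) (.br (nat_lit 3) (.cons (.br (nat_lit 4) (.cons (.rel (nat_lit 1342193745)) .nil)) .nil)) (.node (.node .leaf (nat_lit 15928453284727689) (.br (nat_lit 4) (.cons (.br (nat_lit 3) (.cons (.rel (nat_lit 1342186497)) (.cons (.rel (nat_lit 2684371968)) (.cons (.rel (nat_lit 2416967688)) (.cons (.rel (nat_lit 1342243908)) (.cons (.rel (nat_lit 1342177413)) .nil)))))) (.cons (.br (nat_lit 0) (.cons (.rel (nat_lit 1077940290)) (.cons (.rel (nat_lit 2151678246)) (.cons (.rel (nat_lit 1078006785)) .nil)))) .nil))) .leaf) (nat_lit 15928453285503881) (.br (nat_lit 0) (.cons (.br (nat_lit 1) (.cons (.rel (nat_lit 21102672)) .nil)) .nil)) .leaf)))) (nat_lit 15928491309885475) (.br (nat_lit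 2) (.cons (.br (nat_lit 3) (.cons (.rel (nat_lit 335619072)) .nil)) .nil)) (.node (.node (.node (.node (.node .leaf (nat_lit 15928491310286875) (.br (nat_lit 3) (.cons (.br (nat_lit 4) (.cons (.rel (nat_lit 1342193745)) .nil)) .nil)) .leaf) (nat_lit 15928491311096709) (.br (nat_lit 0) (.cons (.br (nat_lit 1) (.cons (.rel (nat_lit 38076417)) .nil)) .nil)) .leaf) (nat_lit 15928491311096720) (.br (nat_lit 0) (.cons (.br (nat_lit 3) (.cons (.rel (nat_lit 272762112)) .nil)) .nil)) (.node (.node .leaf (nat_lit 15928491311569646) (.br (nat_lit 1) (.cons (.br (nat_lit 2) (.cons (.rel (nat_lit 100687872)) .nil)) .nil)) .leaf) (nat_lit 15928491311569801) (.br (nat_lit 3) (.cons (.br (nat_lit 6) (.cons (.rel (nat_lit 17448337440)) (.cons (.rel (nat_lit 34896609348)) .nil))) (.cons (.br (nat_lit 2) (.cons (.rel (nat_lit 335544354)) (.cons (.rel (nat_lit 335552577)) (.cons (.rel (nat_lit 335546373)) .nil)))) .nil))) .leaf)) (nat_lit 15928491311659909) (.br (nat_lit 0) (.cons (.br (nat_lit 2) (.cons (.rel (nat_lit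 71372865)) .nil)) .nil)) (.node (.node (.node .leaf (nat_lit 15928491311659913) (.br (nat_lit 0) (.cons (.br (nat_lit 3) (.cons (.rel (nat_lit 541066245)) .nil)) .nil)) .leaf) (nat_lit 15928745218055049) (.br (nat_lit 0) (.cons (.br (nat_lit 6) (.cons (.rel (nat_lit 17184063636)) .nil)) .nil)) .leaf) (nat_lit 15928745231913865) (.br (nat_lit 0) (.cons (.br (nat_lit 3) (.cons (.rel (nat_lit 272897040)) .nil)) .nil)) (.node (.node .leaf (nat_lit 15928756529593225) (.br (nat_lit 0) (.cons (.br (nat_lit 5) (.cons (.rel (nat_lit 4299292800)) .nil)) .nil)) .leaf) (nat_lit 15928756529994633) (.br (nat_lit 0) (.cons (.br (nat_lit 3) (.cons (.rel (nat_lit 541098048)) .nil)) .nil)) .leaf))) (nat_lit 15928756530002825) (.br (nat_lit 5) (.cons (.br (nat_lit 6) (.cons (.rel (nat_lit 21474842112)) .nil)) .nil)) (.node (.node (.node (.node .leaf (nat_lit 15928759577723785) (.br (nat_lit 0) (.cons (.br (nat_lit 4) (.cons (.rel (nat_lit 1078006785)) .nil)) .nil)) .leaf) (nat_lit 15928929295111424) (.br (nat_lit 0)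 (.cons (.br (nat_lit 2) (.cons (.rel (nat_lit 71439360)) .nil)) .nil)) .leaf) (nat_lit 15928929295837319) (.br (nat_lit 2) (.cons (.br (nat_lit 6) (.cons (.rel (nat_lit 17246979588)) (.cons (.rel (nat_lit 17246979588)) .nil))) .nil)) (.node (.node .leaf (nat_lit 15928929296091198) (.br (nat_lit 1) (.cons (.br (nat_lit 5) (.cons (.rel (nat_lit 8606711952)) .nil)) .nil)) .leaf) (nat_lit 15928929297351341) (.br (nat_lit 1) (.cons (.br (nat_lit 3) (.cons (.rel (nat_lit 285213702)) .nil)) .nil)) .leaf)) (nat_lit 15928929297351406) (.br (nat_lit 1) (.cons (.br (nat_lit 4) (.cons (.rel (nat_lit 2164261953)) .nil)) .nil)) (.node (.node (.node .leaf (nat_lit 15928929297611502) (.br (nat_lit 1) (.cons (.br (nat_lit 2) (.cons (.rel (nat_lit 83902980)) .nil)) .nil)) .leaf) (nat_lit 15928929297611657) (.br (nat_lit 1) (.cons (.br (nat_lit 2) (.cons (.rel (nat_lit 83902980)) .nil)) .nil)) .leaf) (nat_lit 15928929297668753) (.br (nat_lit 0) (.cons (.br (nat_lit 1) (.cons (.rel (nat_lit 20972562)) .nil)) .nil))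 (.node .leaf (nat_lit 15928929297669001) (.br (nat_lit 4) (.cons (.br (nat_lit 0) (.cons (.rel (nat_lit 2155876368)) (.cons (.rel (nat_lit 1077954624)) (.cons (.rel (nat_lit 1077968901)) .nil)))) .nil)) .leaf)))))

/-- refutations 50 -/
def e50 : EX := (.node (.node (.node (.node (.node (.node .leaf (nat_lit 15931941850688393) (.br (nat_lit 4) (.cons (.br (nat_lit 1) (.cons (.rel (nat_lit 1090519554)) (.cons (.rel (nat_lit 1107312708)) .nil))) .nil)) .leaf) (nat_lit 15931943395326014) (.br (nat_lit 0) (.cons (.br (nat_lit 2) (.cons (.rel (nat_lit 71320704)) .nil)) .nil)) .leaf) (nat_lit 15931947113270153) (.br (nat_lit 3) (.cons (.br (nat_lit 0) (.cons (.rel (nat_lit 272695617)) (.cons (.rel (nat_lit 272646468)) .nil))) .nil)) (.node .leaf (nat_lit 15932156595172233) (.br (nat_lit 3) (.cons (.br (nat_lit 0) (.cons (.rel (nat_lit 541065240)) (.cons (.rel (nat_lit 273747984)) .nil))) .nil)) .leaf)) (nat_lit 15932158274165641) (.br (nat_lit 4) (.cons (.br (nat_lit 0) (.cons (.rel (nat_lit 1077954624))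 (.cons (.rel (nat_lit 1077936273)) (.cons (.rel (nat_lit 1077968901)) .nil)))) (.cons (.br (nat_lit 0) (.cons (.rel (nat_lit 2155876368)) (.cons (.rel (nat_lit 1077936273)) (.cons (.rel (nat_lit 1077940290)) .nil)))) .nil))) (.node (.node .leaf (nat_lit 15932159200791433) (.br (nat_lit 4) (.cons (.br (nat_lit 1) (.cons (.rel (nat_lit 1107312708)) (.cons (.rel (nat_lit 2181038337)) (.cons (.rel (nat_lit 1090519554)) .nil)))) (.cons (.br (nat_lit 3) (.cons (.rel (nat_lit 1342310406)) (.cons (.rel (nat_lit 2416967688)) (.cons (.rel (nat_lit 1342212096)) .nil)))) .nil))) .leaf) (nat_lit 15932161295127433) (.br (nat_lit 4) (.cons (.br (nat_lit 1) (.cons (.rel (nat_lit 2181038337)) (.cons (.rel (nat_lit 1090519554)) .nil))) .nil)) (.node .leaf (nat_lit 15932161917489214) (.br (nat_lit 3) (.cons (.br (nat_lit 0) (.cons (.rel (nat_lit 272646468)) (.cons (.rel (nat_lit 273699840)) .nil))) .nil)) .leaf))) (nat_lit 15932161917490057) (.br (nat_lit 0) (.cons (.br (nat_lit 3) (.cons (.rel (nat_lit 276824100))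 (.cons (.rel (nat_lit 273711105)) .nil))) (.cons (.br (nat_lit 3) (.cons (.rel (nat_lit 272908305)) (.cons (.rel (nat_lit 273699840)) .nil))) .nil))) (.node (.node (.node .leaf (nat_lit 15932161917744009) (.br (nat_lit 0) (.cons (.br (nat_lit 6) (.cons (.rel (nat_lit 17184083985)) (.cons (.rel (nat_lit 17188258320)) .nil))) .nil)) .leaf) (nat_lit 15932743357330069) (.br (nat_lit 0) (.cons (.br (nat_lit 1) (.cons (.rel (nat_lit 27263040)) .nil)) .nil)) (.node .leaf (nat_lit 15932977445303528) (.br (nat_lit 3) (.cons (.br (nat_lit 4) (.cons (.rel (nat_lit 1342182480)) .nil)) .nil)) .leaf)) (nat_lit 15932977446942902) (.br (nat_lit 3) (.cons (.br (nat_lit 1) (.cons (.rel (nat_lit 570426384)) (.cons (.rel (nat_lit 285234240)) .nil))) .nil)) (.node (.node .leaf (nat_lit 15933186426811273) (.br (nat_lit 3) (.cons (.br (nat_lit 4) (.cons (.br (nat_lit 0) (.cons (.rel (nat_lit 276824100)) (.cons (.rel (nat_lit 272646468)) (.cons (.rel (nat_lit 1346912256)) (.cons (.rel (nat_lit 1078006785)) .nil))))) (.cons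 (.rel (nat_lit 1612709892)) (.cons (.rel (nat_lit 1342177413)) .nil)))) (.cons (.br (nat_lit 4) (.cons (.rel (nat_lit 1612709892)) (.cons (.rel (nat_lit 1342177413)) (.cons (.rel (nat_lit 1612709892)) .nil)))) .nil))) .leaf) (nat_lit 15933186463073161) (.br (nat_lit 0) (.cons (.br (nat_lit 4) (.cons (.rel (nat_lit 1077968901)) .nil)) .nil)) (.node .leaf (nat_lit 15933186783335305) (.br (nat_lit 0) (.cons (.br (nat_lit 3) (.cons (.rel (nat_lit 273711105)) .nil)) .nil)) .leaf)))) (nat_lit 15933191584483584) (.br (nat_lit 0) (.cons (.br (nat_lit 1) (.cons (.rel (nat_lit 21106689)) (.cons (.rel (nat_lit 20996112)) .nil))) (.cons (.br (nat_lit 1) (.cons (.rel (nat_lit 21102672)) (.cons (.rel (nat_lit 23068932)) .nil))) .nil))) (.node (.node (.node (.node (.node .leaf (nat_lit 15933191584484240) (.br (nat_lit 2) (.cons (.br (nat_lit 3) (.cons (.rel (nat_lit 402661632)) .nil)) .nil)) .leaf) (nat_lit 15933191584484889) (.br (nat_lit 5) (.cons (.br (nat_lit 0) (.cons (.rel (nat_lit 4299161685)) (.cons (.rel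 (nat_lit 4299228180)) .nil))) .nil)) .leaf) (nat_lit 15933191982738313) (.br (nat_lit 0) (.cons (.br (nat_lit 1) (.cons (.rel (nat_lit 20971557)) (.cons (.rel (nat_lit 20972562)) .nil))) (.cons (.br (nat_lit 1) (.cons (.rel (nat_lit 41944068)) (.cons (.rel (nat_lit 20976768)) .nil))) .nil))) (.node .leaf (nat_lit 15933191982776977) (.br (nat_lit 3) (.cons (.br (nat_lit 2) (.cons (.rel (nat_lit 603984384)) (.cons (.rel (nat_lit 671088657)) .nil))) .nil)) .leaf)) (nat_lit 15933191985553543) (.br (nat_lit 0) (.cons (.br (nat_lit 3) (.cons (.rel (nat_lit 272667009)) .nil)) .nil)) (.node (.node .leaf (nat_lit 15933220820120457) (.br (nat_lit 6) (.cons (.br (nat_lit 0) (.cons (.rel (nat_lit 34363932960)) (.cons (.rel (nat_lit 17188258320)) .nil))) .nil)) .leaf) (nat_lit 15933818767207305) (.br (nat_lit 0) (.cons (.br (nat_lit 4) (.cons (.rel (nat_lit 1078018050)) (.cons (.rel (nat_lit 1077968901)) .nil))) .nil)) (.node .leaf (nat_lit 15933835695448946) (.br (nat_lit 0) (.cons (.br (nat_lit 5) (.cons (.rel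 (nat_lit 4299166752)) .nil)) .nil)) .leaf))) (nat_lit 15933835724809074) (.br (nat_lit 0) (.cons (.br (nat_lit 5) (.cons (.rel (nat_lit 4299166752)) .nil)) .nil)) (.node (.node (.node .leaf (nat_lit 15933835821177737) (.br (nat_lit 4) (.cons (.br (nat_lit 5) (.cons (.rel (nat_lit 10737745920)) (.cons (.br (nat_lit 2) (.cons (.rel (nat_lit 8657174544)) (.cons (.rel (nat_lit 8657174544)) (.cons (.rel (nat_lit 8657174544)) (.cons (.rel (nat_lit 1140851220)) .nil))))) (.cons (.br (nat_lit 2) (.cons (.rel (nat_lit 8657174544)) (.cons (.rel (nat_lit 8657174544)) (.cons (.rel (nat_lit 8657174544)) (.cons (.rel (nat_lit 1140851220)) .nil))))) (.cons (.rel (nat_lit 9663676488)) (.cons (.rel (nat_lit 9663682560)) (.cons (.rel (nat_lit 5368775172)) .nil))))))) (.cons (.br (nat_lit 3) (.cons (.rel (nat_lit 1342308384)) (.cons (.rel (nat_lit 2416967688)) (.cons (.rel (nat_lit 1342182480)) (.cons (.br (nat_lit 0) (.cons (.rel (nat_lit 1077944352)) (.cons (.rel (nat_lit 273747984)) (.cons (.rel (nat_lit 272897040))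 .nil)))) (.cons (.rel (nat_lit 2416967688)) .nil)))))) .nil))) .leaf) (nat_lit 15933835821185900) (.br (nat_lit 1) (.cons (.br (nat_lit 2) (.cons (.rel (nat_lit 150996993)) .nil)) .nil)) (.node .leaf (nat_lit 15933835821185910) (.br (nat_lit 0) (.cons (.br (nat_lit 4) (.cons (.rel (nat_lit 1077944352)) .nil)) .nil)) .leaf)) (nat_lit 15933835821185936) (.br (nat_lit 4) (.cons (.br (nat_lit 5) (.cons (.br (nat_lit 2) (.cons (.rel (nat_lit 8657174544)) (.cons (.rel (nat_lit 8657174544)) (.cons (.rel (nat_lit 8657174544)) (.cons (.br (nat_lit 0) (.cons (.rel (nat_lit 4299178017)) (.cons (.rel (nat_lit 71340048)) (.cons (.rel (nat_lit 71303178)) .nil)))) (.cons (.rel (nat_lit 6509821968)) .nil)))))) (.cons (.rel (nat_lit 5369364480)) (.cons (.rel (nat_lit 9663676488)) (.cons (.rel (nat_lit 5370872832)) .nil))))) (.cons (.br (nat_lit 0) (.cons (.rel (nat_lit 1077936273)) (.cons (.rel (nat_lit 1082654784)) (.cons (.rel (nat_lit 2155876368)) .nil)))) .nil))) (.node (.node .leaf (nat_lit 15933835821200261)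 (.br (nat_lit 4) (.cons (.br (nat_lit 5) (.cons (.br (nat_lit 1) (.cons (.rel (nat_lit 8606744580)) (.cons (.rel (nat_lit 8606711952)) (.cons (.rel (nat_lit 4312006992)) .nil)))) (.cons (.rel (nat_lit 9663676488)) .nil))) (.cons (.br (nat_lit 5) (.cons (.rel (nat_lit 5369364480)) (.cons (.rel (nat_lit 10737745920)) .nil))) .nil))) .leaf) (nat_lit 15933835947076511) (.br (nat_lit 0) (.cons (.br (nat_lit 4) (.cons (.rel (nat_lit 2155937796)) (.cons (.rel (nat_lit 1077944352)) .nil))) .nil)) (.node .leaf (nat_lit 15933835947834249) (.br (nat_lit 0) (.cons (.br (nat_lit 2) (.cons (.rel (nat_lit 71303178)) .nil)) .nil)) .leaf)))))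

/-- refutations 51 -/
def e51 : EX := (.node (.node (.node (.node (.node (.node (.node .leaf (nat_lit 15933865995000465) (.br (nat_lit 1) (.cons (.br (nat_lit 3) (.cons (.rel (nat_lit 285213702)) .nil)) .nil)) .leaf) (nat_lit 15933870055187344) (.br (nat_lit 3) (.cons (.br (nat_lit 0) (.cons (.rel (nat_lit 276825105)) (.cons (.rel (nat_lit 272695617)) .nil))) .nil)) (.node .leaf (nat_lit 15933870055187359) (.br (nat_lit 0) (.cons (.br (nat_lit 3) (.cons (.rel (nat_lit 276825105)) (.cons (.rel (nat_lit 272662800)) .nil))) .nil)) .leaf)) (nat_lit 15933870180916101) (.br (nat_lit 4) (.cons (.br (nat_lit 5) (.cons (.rel (nat_lit 10737745920)) (.cons (.rel (nat_lit 5370021888)) .nil))) (.cons (.br (nat_lit 5) (.cons (.br (nat_lit 2) (.cons (.rel (nat_lit 8657174544)) (.cons (.rel (nat_lit 8657174544)) (.cons (.rel (nat_lit 8657174544)) (.cons (.rel (nat_lit 1140851220)) (.cons (.rel (nat_lit 6509821968)) .nil)))))) (.cons (.br (nat_lit 3) (.cons (.rel (nat_lit 2416967688)) (.cons (.rel (nat_lit 4563420162))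 (.cons (.rel (nat_lit 1342308384)) (.cons (.rel (nat_lit 4563419157)) .nil))))) .nil))) .nil))) (.node (.node .leaf (nat_lit 15933870180924274) (.br (nat_lit 0) (.cons (.br (nat_lit 5) (.cons (.rel (nat_lit 4299166752)) .nil)) .nil)) .leaf) (nat_lit 15933870180924297) (.br (nat_lit 3) (.cons (.br (nat_lit 4) (.cons (.rel (nat_lit 1342182480)) (.cons (.rel (nat_lit 1342197762)) (.cons (.rel (nat_lit 1342308384)) (.cons (.br (nat_lit 1) (.cons (.rel (nat_lit 285212697)) (.cons (.rel (nat_lit 2164260948)) (.cons (.rel (nat_lit 2164277280)) (.cons (.rel (nat_lit 285213702)) (.cons (.rel (nat_lit 285214752)) .nil)))))) .nil))))) (.cons (.br (nat_lit 4) (.cons (.rel (nat_lit 1342197762)) (.cons (.rel (nat_lit 1342243908)) (.cons (.br (nat_lit 6) (.cons (.rel (nat_lit 17448337440)) (.cons (.br (nat_lit 0) (.cons (.rel (nat_lit 276824100)) (.cons (.rel (nat_lit 34363932960)) (.cons (.rel (nat_lit 541066245)) (.cons (.rel (nat_lit 541065240)) (.cons (.rel (nat_lit 541066245)) (.cons (.rel (nat_lit 276824100))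 (.cons (.rel (nat_lit 273688578)) .nil)))))))) (.cons (.rel (nat_lit 19327353888)) (.cons (.rel (nat_lit 17450680320)) .nil))))) (.cons (.rel (nat_lit 1612709892)) .nil))))) (.cons (.br (nat_lit 1) (.cons (.rel (nat_lit 285214752)) (.cons (.rel (nat_lit 285212697)) (.cons (.rel (nat_lit 285212697)) (.cons (.rel (nat_lit 285214752)) (.cons (.rel (nat_lit 285212697)) .nil)))))) (.cons (.br (nat_lit 2) (.cons (.rel (nat_lit 603984384)) (.cons (.rel (nat_lit 335546373)) (.cons (.rel (nat_lit 335546373)) (.cons (.rel (nat_lit 335552577)) (.cons (.rel (nat_lit 335548560)) (.cons (.rel (nat_lit 335626320)) (.cons (.rel (nat_lit 335619072)) (.cons (.rel (nat_lit 335545368)) .nil))))))))) .nil))))) .leaf)) (nat_lit 15933870180924319) (.br (nat_lit 3) (.cons (.br (nat_lit 5) (.cons (.rel (nat_lit 4563443712)) (.cons (.rel (nat_lit 4563402825)) .nil))) .nil)) (.node (.node (.node .leaf (nat_lit 15933870180924647) (.br (nat_lit 1) (.cons (.br (nat_lit 3) (.cons (.rel (nat_lit 302252112)) .nil)) .nil)) .leaf)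 (nat_lit 15933870180938614) (.br (nat_lit 0) (.cons (.br (nat_lit 5) (.cons (.rel (nat_lit 4299178017)) .nil)) .nil)) (.node .leaf (nat_lit 15933870180938640) (.br (nat_lit 4) (.cons (.br (nat_lit 5) (.cons (.rel (nat_lit 5370021888)) (.cons (.rel (nat_lit 5370021888)) .nil))) (.cons (.br (nat_lit 5) (.cons (.br (nat_lit 2) (.cons (.rel (nat_lit 8657174544)) (.cons (.rel (nat_lit 8657174544)) (.cons (.rel (nat_lit 8657174544)) (.cons (.rel (nat_lit 1141440528)) (.cons (.rel (nat_lit 1141440528)) .nil)))))) (.cons (.rel (nat_lit 9663676488)) .nil))) .nil))) .leaf)) (nat_lit 15933870210276229) (.br (nat_lit 4) (.cons (.br (nat_lit 5) (.cons (.br (nat_lit 2) (.cons (.rel (nat_lit 8657174544)) (.cons (.rel (nat_lit 8657174544)) (.cons (.rel (nat_lit 8657174544)) (.cons (.rel (nat_lit 1141440528)) (.cons (.rel (nat_lit 8657174544)) (.cons (.rel (nat_lit 1141440528)) .nil))))))) (.cons (.br (nat_lit 1) (.cons (.rel (nat_lit 8623489353)) (.cons (.rel (nat_lit 8623555848)) (.cons (.rel (nat_lit 8623752192))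 .nil)))) (.cons (.rel (nat_lit 5369364480)) .nil)))) .nil)) (.node (.node .leaf (nat_lit 15933870210276263) (.br (nat_lit 3) (.cons (.br (nat_lit 4) (.cons (.rel (nat_lit 1342308384)) .nil)) .nil)) .leaf) (nat_lit 15933870210284402) (.br (nat_lit 4) (.cons (.br (nat_lit 0) (.cons (.rel (nat_lit 1077944352)) (.cons (.rel (nat_lit 2152726548)) .nil))) .nil)) .leaf))) (nat_lit 15933870210284425) (.br (nat_lit 4) (.cons (.br (nat_lit 0) (.cons (.rel (nat_lit 1077944352)) (.cons (.rel (nat_lit 1077944352)) (.cons (.br (nat_lit 3) (.cons (.rel (nat_lit 2416967688)) (.cons (.rel (nat_lit 541066245)) (.cons (.rel (nat_lit 1342308384)) (.cons (.rel (nat_lit 276824100)) .nil))))) (.cons (.br (nat_lit 6) (.cons (.rel (nat_lit 17184079968)) (.cons (.rel (nat_lit 17188258320)) (.cons (.rel (nat_lit 19327353888)) (.cons (.rel (nat_lit 18254135316)) .nil))))) .nil))))) (.cons (.br (nat_lit 3) (.cons (.br (nat_lit 1) (.cons (.rel (nat_lit 285213702)) (.cons (.rel (nat_lit 2164277280)) (.cons (.rel (nat_lit 285213702))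 (.cons (.rel (nat_lit 285214752)) .nil))))) (.cons (.rel (nat_lit 1342308384)) (.cons (.br (nat_lit 1) (.cons (.rel (nat_lit 285737280)) (.cons (.rel (nat_lit 2164277280)) (.cons (.rel (nat_lit 285214752)) (.cons (.rel (nat_lit 285212697)) .nil))))) (.cons (.rel (nat_lit 2416967688)) .nil))))) .nil))) (.node (.node (.node (.node .leaf (nat_lit 15933870210298742) (.br (nat_lit 5) (.cons (.br (nat_lit 0) (.cons (.rel (nat_lit 4299180036)) (.cons (.rel (nat_lit 4299178017)) .nil))) .nil)) .leaf) (nat_lit 15933870210298768) (.br (nat_lit 4) (.cons (.br (nat_lit 5) (.cons (.rel (nat_lit 5369364480)) (.cons (.rel (nat_lit 5370021888)) .nil))) (.cons (.br (nat_lit 5) (.cons (.br (nat_lit 2) (.cons (.rel (nat_lit 8657174544)) (.cons (.rel (nat_lit 8657174544)) (.cons (.rel (nat_lit 8657174544)) (.cons (.rel (nat_lit 1140851220)) (.cons (.rel (nat_lit 6509821968)) (.cons (.rel (nat_lit 6509821968)) .nil))))))) (.cons (.rel (nat_lit 9663676488)) .nil))) .nil))) (.node .leaf (nat_lit 15933870210298787) (.br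 (nat_lit 3) (.cons (.br (nat_lit 5) (.cons (.rel (nat_lit 4563408897)) .nil)) .nil)) .leaf)) (nat_lit 15933870306814887) (.br (nat_lit 4) (.cons (.br (nat_lit 0) (.cons (.rel (nat_lit 2155876368)) (.cons (.rel (nat_lit 2151679248)) .nil))) .nil)) (.node (.node .leaf (nat_lit 15933870307625865) (.br (nat_lit 0) (.cons (.br (nat_lit 3) (.cons (.rel (nat_lit 276824100)) .nil)) .nil)) .leaf) (nat_lit 15933902430920056) (.br (nat_lit 2) (.cons (.br (nat_lit 5) (.cons (.rel (nat_lit 8724218121)) .nil)) .nil)) .leaf)) (nat_lit 15933904570014582) (.br (nat_lit 0) (.cons (.br (nat_lit 6) (.cons (.rel (nat_lit 17188258320)) (.cons (.rel (nat_lit 17188258320)) .nil))) .nil)) (.node (.node (.node .leaf (nat_lit 15933904570014608) (.br (nat_lit 5) (.cons (.br (nat_lit 2) (.cons (.rel (nat_lit 8657174544)) (.cons (.rel (nat_lit 8657174544)) (.cons (.rel (nat_lit 8657174544)) (.cons (.rel (nat_lit 8657174544)) .nil))))) (.cons (.br (nat_lit 6) (.cons (.rel (nat_lit 25769803842)) (.cons (.rel (nat_lit 25769803842))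 (.cons (.rel (nat_lit 25769803842)) .nil)))) (.cons (.br (nat_lit 6) (.cons (.rel (nat_lit 25769803842)) (.cons (.rel (nat_lit 21475393536)) (.cons (.rel (nat_lit 21476950032)) .nil)))) .nil)))) .leaf) (nat_lit 15933904570022789) (.br (nat_lit 4) (.cons (.br (nat_lit 5) (.cons (.br (nat_lit 1) (.cons (.rel (nat_lit 2164260948)) (.cons (.rel (nat_lit 2164277280)) (.cons (.rel (nat_lit 8606711952)) (.cons (.rel (nat_lit 4312006992)) .nil))))) (.cons (.rel (nat_lit 9663676488)) .nil))) .nil)) .leaf) (nat_lit 15933904570022823) (.br (nat_lit 3) (.cons (.br (nat_lit 0) (.cons (.rel (nat_lit 541066245)) (.cons (.rel (nat_lit 541065240)) .nil))) .nil)) (.node (.node .leaf (nat_lit 15933904570037106) (.br (nat_lit 4) (.cons (.br (nat_lit 0) (.cons (.rel (nat_lit 2152726548)) (.cons (.rel (nat_lit 1077940290)) .nil))) .nil)) .leaf) (nat_lit 15933904570037129) (.br (nat_lit 4) (.cons (.br (nat_lit 0) (.cons (.rel (nat_lit 2155876368)) (.cons (.rel (nat_lit 1077936273)) (.cons (.rel (nat_lit 1077940290)) (.cons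 (.rel (nat_lit 1077954624)) (.cons (.rel (nat_lit 1077944352)) (.cons (.rel (nat_lit 2155874373)) (.cons (.rel (nat_lit 1078006785)) .nil)))))))) (.cons (.br (nat_lit 3) (.cons (.rel (nat_lit 1342182480)) (.cons (.rel (nat_lit 1342197762)) (.cons (.rel (nat_lit 2684420112)) (.cons (.rel (nat_lit 2684371968)) (.cons (.rel (nat_lit 1342182480)) (.cons (.rel (nat_lit 1342177413)) (.cons (.rel (nat_lit 1342186497)) .nil)))))))) (.cons (.br (nat_lit 3) (.cons (.rel (nat_lit 1342186497)) (.cons (.rel (nat_lit 2416967688)) (.cons (.rel (nat_lit 1342197762)) (.cons (.rel (nat_lit 1342182480)) (.cons (.rel (nat_lit 1342182480)) (.cons (.rel (nat_lit 2416967688)) (.cons (.rel (nat_lit 2684420112)) .nil)))))))) (.cons (.br (nat_lit 3) (.cons (.rel (nat_lit 1342186497)) (.cons (.rel (nat_lit 2415920388)) (.cons (.rel (nat_lit 1342186497)) (.cons (.rel (nat_lit 1342186497)) (.cons (.rel (nat_lit 1342197762)) (.cons (.rel (nat_lit 2416967688)) (.cons (.rel (nat_lit 1342193745)) .nil)))))))) (.cons (.br (nat_lit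 3) (.cons (.rel (nat_lit 1342197762)) (.cons (.rel (nat_lit 2416967688)) (.cons (.rel (nat_lit 1342308384)) (.cons (.rel (nat_lit 1342182480)) (.cons (.rel (nat_lit 2416967688)) (.cons (.rel (nat_lit 1342308384)) (.cons (.br (nat_lit 1) (.cons (.rel (nat_lit 1090519554)) (.cons (.rel (nat_lit 285234240)) (.cons (.rel (nat_lit 2164260948)) (.cons (.rel (nat_lit 1091059713)) (.cons (.rel (nat_lit 2164277280)) (.cons (.rel (nat_lit 285214752)) (.cons (.rel (nat_lit 285212697)) (.cons (.rel (nat_lit 1090519554)) .nil))))))))) .nil)))))))) (.cons (.br (nat_lit 5) (.cons (.rel (nat_lit 5369364480)) (.cons (.br (nat_lit 1) (.cons (.rel (nat_lit 1090519554)) (.cons (.rel (nat_lit 2164260948)) (.cons (.rel (nat_lit 8606744580)) (.cons (.rel (nat_lit 1090519554)) (.cons (.rel (nat_lit 4328521824)) (.cons (.rel (nat_lit 8606711952)) (.cons (.rel (nat_lit 4312006992)) (.cons (.rel (nat_lit 1090519554)) .nil))))))))) (.cons (.br (nat_lit 2) (.cons (.rel (nat_lit 8657174544)) (.cons (.rel (nat_lit 6509821968))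 (.cons (.rel (nat_lit 8657174544)) (.cons (.rel (nat_lit 8657174544)) (.cons (.rel (nat_lit 1140851220)) (.cons (.rel (nat_lit 6509821968)) (.cons (.rel (nat_lit 8657174544)) (.cons (.rel (nat_lit 5437915392)) .nil))))))))) (.cons (.rel (nat_lit 9663742986)) (.cons (.rel (nat_lit 5368713744)) (.cons (.rel (nat_lit 9663676488)) (.cons (.rel (nat_lit 5370021888)) .nil)))))))) .nil))))))) .leaf)))) (nat_lit 15933904570037151) (.br (nat_lit 0) (.cons (.br (nat_lit 6) (.cons (.rel (nat_lit 17188258320)) (.cons (.rel (nat_lit 17184063636)) .nil))) (.cons (.br (nat_lit 6) (.cons (.rel (nat_lit 17188258320)) (.cons (.rel (nat_lit 17188258320)) .nil))) .nil))) (.node (.node (.node (.node (.node .leaf (nat_lit 15933904570037479) (.br (nat_lit 1) (.cons (.br (nat_lit 2) (.cons (.rel (nat_lit 150995988)) .nil)) .nil)) .leaf) (nat_lit 15933904570805504) (.br (nat_lit 1) (.cons (.br (nat_lit 3) (.cons (.rel (nat_lit 285214752)) .nil)) .nil)) (.node .leaf (nat_lit 15933904666537192) (.br (nat_lit 0) (.cons (.br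 (nat_lit 1) (.cons (.rel (nat_lit 21102672)) .nil)) .nil)) .leaf)) (nat_lit 15933904666553225) (.br (nat_lit 0) (.cons (.br (nat_lit 4) (.cons (.rel (nat_lit 1078264320)) (.cons (.rel (nat_lit 1077944352)) .nil))) (.cons (.br (nat_lit 5) (.cons (.rel (nat_lit 8594133264)) (.cons (.rel (nat_lit 4299186240)) (.cons (.rel (nat_lit 4299292800)) (.cons (.rel (nat_lit 4299166752)) (.cons (.rel (nat_lit 4299161685)) (.cons (.rel (nat_lit 4299162690)) (.cons (.rel (nat_lit 4299162690)) (.cons (.rel (nat_lit 8598388800)) (.cons (.rel (nat_lit 4299161685)) (.cons (.rel (nat_lit 4299161685)) (.cons (.rel (nat_lit 4299162690)) .nil)))))))))))) .nil))) (.node (.node .leaf (nat_lit 15933921624067478) (.br (nat_lit 1) (.cons (.br (nat_lit 2) (.cons (.rel (nat_lit 86048784)) .nil)) .nil)) .leaf) (nat_lit 15933921833833353) (.br (nat_lit 3) (.cons (.br (nat_lit 4) (.cons (.rel (nat_lit 1612709892)) (.cons (.rel (nat_lit 1342212096)) .nil))) .nil)) .leaf)) (nat_lit 15934088702266249) (.br (nat_lit 0) (.cons (.br (nat_lit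 3) (.cons (.rel (nat_lit 274202880)) .nil)) .nil)) (.node (.node (.node .leaf (nat_lit 15934093393486710) (.br (nat_lit 0) (.cons (.br (nat_lit 4) (.cons (.rel (nat_lit 1077936273)) .nil)) .nil)) .leaf) (nat_lit 15934093393486751) (.br (nat_lit 0) (.cons (.br (nat_lit 5) (.cons (.rel (nat_lit 8594133264)) .nil)) .nil)) (.node .leaf (nat_lit 15934093519223666) (.br (nat_lit 0) (.cons (.br (nat_lit 5) (.cons (.rel (nat_lit 4299161685)) .nil)) .nil)) .leaf)) (nat_lit 15934093548598134) (.br (nat_lit 0) (.cons (.br (nat_lit 5) (.cons (.rel (nat_lit 4299228180)) .nil)) .nil)) (.node (.node .leaf (nat_lit 15934093548598153) (.br (nat_lit 0) (.cons (.br (nat_lit 6) (.cons (.rel (nat_lit 17184195624)) (.cons (.rel (nat_lit 17188258320)) (.cons (.rel (nat_lit 17188258320)) (.cons (.rel (nat_lit 17188258320)) .nil))))) (.cons (.br (nat_lit 4) (.cons (.rel (nat_lit 1077936273)) (.cons (.rel (nat_lit 1077936273)) .nil))) .nil))) .leaf) (nat_lit 15934093645114256) (.br (nat_lit 0) (.cons (.br (nat_lit 6) (.cons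 (.rel (nat_lit 17184063636)) (.cons (.rel (nat_lit 17188258320)) (.cons (.rel (nat_lit 17185378560)) .nil)))) .nil)) .leaf))) (nat_lit 15934137652980968) (.br (nat_lit 0) (.cons (.br (nat_lit 3) (.cons (.rel (nat_lit 272958468)) .nil)) .nil)) (.node (.node (.node (.node .leaf (nat_lit 15934137653036288) (.br (nat_lit 1) (.cons (.br (nat_lit 5) (.cons (.rel (nat_lit 4328522841)) .nil)) .nil)) .leaf) (nat_lit 15934256602243729) (.br (nat_lit 0) (.cons (.br (nat_lit 4) (.cons (.rel (nat_lit 1077954624)) .nil)) .nil)) (.node .leaf (nat_lit 15934256602243977) (.br (nat_lit 0) (.cons (.br (nat_lit 5) (.cons (.rel (nat_lit 8595181569)) (.cons (.rel (nat_lit 8594133264)) (.cons (.rel (nat_lit 8594130264)) (.cons (.rel (nat_lit 4299180036)) (.cons (.rel (nat_lit 4299229185)) .nil)))))) (.cons (.br (nat_lit 3) (.cons (.rel (nat_lit 273711105)) (.cons (.rel (nat_lit 272908305)) (.cons (.rel (nat_lit 272762112)) (.cons (.rel (nat_lit 272662800)) .nil))))) .nil))) .leaf)) (nat_lit 15934256631604105) (.br (nat_lit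 0) (.cons (.br (nat_lit 5) (.cons (.rel (nat_lit 4299228180)) (.cons (.rel (nat_lit 4299161685)) (.cons (.rel (nat_lit 4299180036)) (.cons (.rel (nat_lit 4299229185)) .nil))))) .nil)) (.node (.node .leaf (nat_lit 15934256631604127) (.br (nat_lit 0) (.cons (.br (nat_lit 5) (.cons (.rel (nat_lit 4299162690)) .nil)) .nil)) .leaf) (nat_lit 15934256631626663) (.br (nat_lit 0) (.cons (.br (nat_lit 3) (.cons (.rel (nat_lit 276824100)) (.cons (.rel (nat_lit 276824100)) .nil))) .nil)) .leaf)) (nat_lit 15934256727980914) (.br (nat_lit 0) (.cons (.br (nat_lit 4) (.cons (.rel (nat_lit 1077944352)) .nil)) .nil)) (.node (.node (.node .leaf (nat_lit 15934256727980967) (.br (nat_lit 4) (.cons (.br (nat_lit 0) (.cons (.br (nat_lit 3) (.cons (.rel (nat_lit 276824100)) (.cons (.rel (nat_lit 541065240)) (.cons (.rel (nat_lit 541066245)) .nil)))) (.cons (.rel (nat_lit 1077944352)) .nil))) .nil)) .leaf) (nat_lit 15934256853291913) (.br (nat_lit 2) (.cons (.br (nat_lit 4) (.cons (.rel (nat_lit 1141121280)) .nil)) .nil))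 .leaf) (nat_lit 15934256853871504) (.br (nat_lit 0) (.cons (.br (nat_lit 4) (.cons (.rel (nat_lit 1077936273)) (.cons (.rel (nat_lit 1077936273)) .nil))) .nil)) (.node (.node .leaf (nat_lit 15934256854629129) (.br (nat_lit 0) (.cons (.br (nat_lit 4) (.cons (.rel (nat_lit 2155876368)) .nil)) .nil)) .leaf) (nat_lit 15934256854629264) (.br (nat_lit 0) (.cons (.br (nat_lit 4) (.cons (.rel (nat_lit 1077968901)) (.cons (.rel (nat_lit 1077944352)) .nil))) (.cons (.br (nat_lit 6) (.cons (.rel (nat_lit 17188258320)) (.cons (.rel (nat_lit 17184096264)) (.cons (.rel (nat_lit 17184072720)) (.cons (.rel (nat_lit 17188258320)) .nil))))) .nil))) .leaf))))) (nat_lit 15934256855135109) (.br (nat_lit 0) (.cons (.br (nat_lit 1) (.cons (.rel (nat_lit 20973576)) .nil)) .nil)) (.node (.node (.node (.node (.node (.node .leaf (nat_lit 15934256855143305) (.br (nat_lit 0) (.cons (.br (nat_lit 5) (.cons (.rel (nat_lit 8594391048)) .nil)) .nil)) .leaf) (nat_lit 15934256856107913) (.br (nat_lit 0) (.cons (.br (nat_lit 3) (.cons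 (.rel (nat_lit 272662800)) .nil)) .nil)) (.node .leaf (nat_lit 15934256856124297) (.br (nat_lit 1) (.cons (.br (nat_lit 4) (.cons (.rel (nat_lit 1090519554)) .nil)) .nil)) .leaf)) (nat_lit 15934290991342503) (.br (nat_lit 0) (.cons (.br (nat_lit 3) (.cons (.rel (nat_lit 541066245)) .nil)) .nil)) (.node (.node .leaf (nat_lit 15934291117071222) (.br (nat_lit 0) (.cons (.br (nat_lit 3) (.cons (.rel (nat_lit 541066245)) .nil)) .nil)) .leaf) (nat_lit 15934291117071237) (.br (nat_lit 0) (.cons (.br (nat_lit 3) (.cons (.rel (nat_lit 541066245)) (.cons (.rel (nat_lit 541066245)) .nil))) .nil)) .leaf)) (nat_lit 15934291117079433) (.br (nat_lit 0) (.cons (.br (nat_lit 3) (.cons (.rel (nat_lit 541066245)) .nil)) .nil)) (.node (.node (.node .leaf (nat_lit 15934291117093776) (.br (nat_lit 0) (.cons (.br (nat_lit 3) (.cons (.rel (nat_lit 541066245)) .nil)) .nil)) .leaf) (nat_lit 15934291213609865) (.br (nat_lit 0) (.cons (.br (nat_lit 3) (.cons (.rel (nat_lit 276824100)) (.cons (.rel (nat_lit 272646468)) (.cons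 (.rel (nat_lit 272646468)) (.cons (.rel (nat_lit 272695617)) .nil))))) (.cons (.br (nat_lit 3) (.cons (.rel (nat_lit 541066245)) (.cons (.rel (nat_lit 272897040)) (.cons (.rel (nat_lit 272908305)) (.cons (.rel (nat_lit 272632194)) .nil))))) .nil))) (.node .leaf (nat_lit 15934291213609895) (.br (nat_lit 4) (.cons (.br (nat_lit 0) (.cons (.rel (nat_lit 2155937796)) (.cons (.rel (nat_lit 2155876368)) .nil))) .nil)) .leaf)) (nat_lit 15934291214873488) (.br (nat_lit 6) (.cons (.br (nat_lit 3) (.cons (.rel (nat_lit 17448337440)) (.cons (.rel (nat_lit 17449877520)) .nil))) .nil)) (.node (.node .leaf (nat_lit 15934291214881549) (.br (nat_lit 0) (.cons (.br (nat_lit 2) (.cons (.rel (nat_lit 71305233)) .nil)) .nil)) .leaf) (nat_lit 15934291215846281) (.br (nat_lit 0) (.cons (.br (nat_lit 3) (.cons (.rel (nat_lit 272891973)) .nil)) .nil)) .leaf))) (nat_lit 15934346587583369) (.br (nat_lit 0) (.cons (.br (nat_lit 3) (.cons (.rel (nat_lit 272958468)) .nil)) .nil)) (.node (.node (.node (.node .leaf (nat_lit 15934351091524470)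 (.br (nat_lit 0) (.cons (.br (nat_lit 5) (.cons (.rel (nat_lit 4299161685)) .nil)) .nil)) .leaf) (nat_lit 15934351091524496) (.br (nat_lit 0) (.cons (.br (nat_lit 5) (.cons (.rel (nat_lit 4299161685)) (.cons (.rel (nat_lit 4299180036)) (.cons (.rel (nat_lit 4299229185)) .nil)))) (.cons (.br (nat_lit 4) (.cons (.rel (nat_lit 1077944352)) (.cons (.rel (nat_lit 1082654784)) (.cons (.rel (nat_lit 1077940290)) .nil)))) .nil))) (.node .leaf (nat_lit 15934351091524515) (.br (nat_lit 0) (.cons (.br (nat_lit 5) (.cons (.rel (nat_lit 4299161685)) .nil)) .nil)) .leaf)) (nat_lit 15934351137684361) (.br (nat_lit 0) (.cons (.br (nat_lit 4) (.cons (.rel (nat_lit 2155876368)) (.cons (.br (nat_lit 3) (.cons (.rel (nat_lit 274202880)) (.cons (.rel (nat_lit 276824100)) (.cons (.rel (nat_lit 1342308384)) (.cons (.rel (nat_lit 541066245)) (.cons (.rel (nat_lit 272762112)) .nil)))))) .nil))) (.cons (.br (nat_lit 4) (.cons (.rel (nat_lit 2155876368)) (.cons (.rel (nat_lit 2155876368)) .nil))) .nil))) (.node (.node .leaf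 (nat_lit 15934351217261430) (.br (nat_lit 0) (.cons (.br (nat_lit 4) (.cons (.rel (nat_lit 1077936273)) (.cons (.rel (nat_lit 1077944352)) .nil))) .nil)) .leaf) (nat_lit 15934351217261471) (.br (nat_lit 0) (.cons (.br (nat_lit 5) (.cons (.rel (nat_lit 4299292800)) (.cons (.rel (nat_lit 4299161685)) (.cons (.rel (nat_lit 4299162690)) .nil)))) (.cons (.br (nat_lit 4) (.cons (.rel (nat_lit 1077944352)) (.cons (.rel (nat_lit 1077936273)) .nil))) .nil))) .leaf)) (nat_lit 15934351217275785) (.br (nat_lit 0) (.cons (.br (nat_lit 6) (.cons (.rel (nat_lit 17184072720)) (.cons (.rel (nat_lit 17184072720)) .nil))) .nil)) (.node (.node (.node .leaf (nat_lit 15934351225654153) (.br (nat_lit 4) (.cons (.br (nat_lit 1) (.cons (.rel (nat_lit 1090519554)) (.cons (.rel (nat_lit 1090519554)) (.cons (.rel (nat_lit 1090814208)) (.cons (.rel (nat_lit 1092616209)) (.cons (.rel (nat_lit 1090519554)) (.cons (.rel (nat_lit 1090519554)) .nil))))))) .nil)) .leaf) (nat_lit 15934351225710744) (.br (nat_lit 2) (.cons (.br (nat_lit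 5) (.cons (.rel (nat_lit 8724414465)) .nil)) .nil)) .leaf) (nat_lit 15934351228006582) (.br (nat_lit 0) (.cons (.br (nat_lit 3) (.cons (.rel (nat_lit 272646468)) .nil)) .nil)) (.node (.node .leaf (nat_lit 15934351246613392) (.br (nat_lit 0) (.cons (.br (nat_lit 3) (.cons (.rel (nat_lit 276824100)) (.cons (.rel (nat_lit 276825105)) (.cons (.rel (nat_lit 541066245)) .nil)))) .nil)) .leaf) (nat_lit 15934351246613415) (.br (nat_lit 4) (.cons (.br (nat_lit 5) (.cons (.br (nat_lit 0) (.cons (.rel (nat_lit 1077944352)) (.cons (.rel (nat_lit 4299229185)) .nil))) .nil)) .nil)) .leaf)))) (nat_lit 15934351246621558) (.br (nat_lit 0) (.cons (.br (nat_lit 3) (.cons (.rel (nat_lit 276824100)) (.cons (.rel (nat_lit 541065240)) .nil))) .nil)) (.node (.node (.node (.node (.node .leaf (nat_lit 15934351246621573) (.br (nat_lit 0) (.cons (.br (nat_lit 3) (.cons (.rel (nat_lit 276824100)) (.cons (.rel (nat_lit 276825105)) .nil))) .nil)) .leaf) (nat_lit 15934351246635913) (.br (nat_lit 0) (.cons (.br (nat_lit 3) (.cons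 (.rel (nat_lit 276824100)) (.cons (.rel (nat_lit 541066245)) (.cons (.rel (nat_lit 541066245)) .nil)))) .nil)) (.node .leaf (nat_lit 15934351305356169) (.br (nat_lit 0) (.cons (.br (nat_lit 2) (.cons (.rel (nat_lit 71304228)) .nil)) .nil)) .leaf)) (nat_lit 15934351342572432) (.br (nat_lit 0) (.cons (.br (nat_lit 6) (.cons (.rel (nat_lit 17184072720)) (.cons (.rel (nat_lit 34368192513)) (.cons (.rel (nat_lit 17184072720)) .nil)))) (.cons (.br (nat_lit 3) (.cons (.rel (nat_lit 272662800)) (.cons (.br (nat_lit 6) (.cons (.rel (nat_lit 17184079968)) (.cons (.rel (nat_lit 34896625680)) (.cons (.rel (nat_lit 17184079968)) .nil)))) .nil))) .nil))) (.node (.node .leaf (nat_lit 15934351342580613) (.br (nat_lit 0) (.cons (.br (nat_lit 4) (.cons (.rel (nat_lit 1077944352)) .nil)) .nil)) .leaf) (nat_lit 15934351342848657) (.br (nat_lit 2) (.cons (.br (nat_lit 4) (.cons (.rel (nat_lit 1142948880)) .nil)) .nil)) .leaf)) (nat_lit 15934351343094537) (.br (nat_lit 4) (.cons (.br (nat_lit 5) (.cons (.rel (nat_lit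 5370806337)) (.cons (.rel (nat_lit 5368713744)) .nil))) .nil)) (.node (.node (.node .leaf (nat_lit 15934351343094642) (.br (nat_lit 1) (.cons (.br (nat_lit 2) (.cons (.rel (nat_lit 168829953)) .nil)) .nil)) .leaf) (nat_lit 15934351343094665) (.br (nat_lit 4) (.cons (.br (nat_lit 3) (.cons (.rel (nat_lit 1342177413)) (.cons (.rel (nat_lit 1342444032)) (.cons (.rel (nat_lit 1342212096)) (.cons (.rel (nat_lit 2416967688)) .nil))))) .nil)) .leaf) (nat_lit 15934351343151140) (.br (nat_lit 0) (.cons (.br (nat_lit 1) (.cons (.rel (nat_lit 21102672)) (.cons (.rel (nat_lit 38797440)) .nil))) .nil)) (.node (.node .leaf (nat_lit 15934351343151256) (.br (nat_lit 0) (.cons (.br (nat_lit 4) (.cons (.rel (nat_lit 1077944352)) (.cons (.rel (nat_lit 1077944352)) (.cons (.rel (nat_lit 1078067208)) .nil)))) (.cons (.br (nat_lit 6) (.cons (.rel (nat_lit 34363932960)) (.cons (.rel (nat_lit 17188258320)) (.cons (.rel (nat_lit 17184063636)) (.cons (.rel (nat_lit 34363932960)) (.cons (.rel (nat_lit 17188258320)) (.cons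 (.rel (nat_lit 34368143364)) .nil))))))) (.cons (.br (nat_lit 4) (.cons (.rel (nat_lit 1077944352)) (.cons (.rel (nat_lit 1078067208)) (.cons (.rel (nat_lit 1077944352)) .nil)))) .nil)))) .leaf) (nat_lit 15934351343151885) (.br (nat_lit 0) (.cons (.br (nat_lit 1) (.cons (.rel (nat_lit 20972562)) (.cons (.rel (nat_lit 20971557)) .nil))) (.cons (.br (nat_lit 4) (.cons (.rel (nat_lit 1083216144)) (.cons (.rel (nat_lit 1078067208)) (.cons (.rel (nat_lit 1078067208)) .nil)))) .nil))) .leaf))) (nat_lit 15934351343151986) (.br (nat_lit 5) (.cons (.br (nat_lit 0) (.cons (.rel (nat_lit 4300472592)) (.cons (.rel (nat_lit 8595177552)) .nil))) .nil)) (.node (.node (.node (.node .leaf (nat_lit 15934351343152035) (.br (nat_lit 0) (.cons (.br (nat_lit 4) (.cons (.rel (nat_lit 1077940290)) (.cons (.rel (nat_lit 2151679248)) .nil))) (.cons (.br (nat_lit 4) (.cons (.rel (nat_lit 1078067208)) (.cons (.rel (nat_lit 1077940290)) .nil))) .nil))) .leaf) (nat_lit 15934351343152390) (.br (nat_lit 0) (.cons (.br (nat_lit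 2) (.cons (.rel (nat_lit 71368848)) (.cons (.rel (nat_lit 71368848)) .nil))) (.cons (.br (nat_lit 2) (.cons (.rel (nat_lit 71582304)) (.cons (.rel (nat_lit 142606341)) .nil))) .nil))) (.node .leaf (nat_lit 15934351343909016) (.br (nat_lit 2) (.cons (.br (nat_lit 1) (.cons (.rel (nat_lit 100687872)) (.cons (.rel (nat_lit 150996993)) .nil))) .nil)) .leaf)) (nat_lit 15934351343909776) (.br (nat_lit 2) (.cons (.br (nat_lit 3) (.cons (.rel (nat_lit 402661632)) (.cons (.rel (nat_lit 335544354)) (.cons (.rel (nat_lit 335544354)) .nil)))) .nil)) (.node (.node .leaf (nat_lit 15934351344415377) (.br (nat_lit 0) (.cons (.br (nat_lit 1) (.cons (.rel (nat_lit 27263040)) .nil)) .nil)) .leaf) (nat_lit 15934351344415625) (.br (nat_lit 0) (.cons (.br (nat_lit 1) (.cons (.rel (nat_lit 21102672)) .nil)) .nil)) .leaf)) (nat_lit 15934351344423569) (.br (nat_lit 0) (.cons (.br (nat_lit 1) (.cons (.rel (nat_lit 38797440)) .nil)) .nil)) (.node (.node (.node .leaf (nat_lit 15934351344423573) (.br (nat_lit 0) (.cons (.br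 (nat_lit 1) (.cons (.rel (nat_lit 27263040)) .nil)) .nil)) .leaf) (nat_lit 15934351344423824) (.br (nat_lit 0) (.cons (.br (nat_lit 4) (.cons (.rel (nat_lit 1078460676)) .nil)) .nil)) .leaf) (nat_lit 15934351345387706) (.br (nat_lit 0) (.cons (.br (nat_lit 3) (.cons (.rel (nat_lit 272662800)) .nil)) .nil)) (.node (.node .leaf (nat_lit 15934351345388432) (.br (nat_lit 0) (.cons (.br (nat_lit 4) (.cons (.rel (nat_lit 1082654784)) (.cons (.rel (nat_lit 1077944352)) .nil))) .nil)) .leaf) (nat_lit 15934351345404809) (.br (nat_lit 3) (.cons (.br (nat_lit 0) (.cons (.rel (nat_lit 273747984)) (.cons (.rel (nat_lit 272897040)) .nil))) .nil)) .leaf))))))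

/-- refutations 52 -/
def e52 : EX := (.node (.node (.node .leaf (nat_lit 15875688971037577) (.br (nat_lit 0) (.cons (.br (nat_lit 2) (.cons (.rel (nat_lit 71305233)) .nil)) .nil)) .leaf) (nat_lit 16032941793913732) (.br (nat_lit 0) (.cons (.br (nat_lit 1) (.cons (.rel (nat_lit 20971557)) .nil)) .nil)) .leaf) (nat_lit 16037740802257801) (.br (nat_lit 1) (.cons (.br (nat_lit 3) (.cons (.rel (nat_lit 285286401)) .nil)) .nil)) (.node .leaf (nat_lit 16039801380203422) (.br (nat_lit 0) (.cons (.br (nat_lit 4) (.cons (.rel (nat_lit 1077936273)) .nil)) .nil)) .leaf))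

/-- refutations 53 -/
def e53 : EX := (.node (.node (.node (.node (.node (.node (.node .leaf (nat_lit 16044567210752905) (.br (nat_lit 0) (.cons (.br (nat_lit 3) (.cons (.rel (nat_lit 276825105)) (.cons (.rel (nat_lit 272662800)) (.cons (.rel (nat_lit 541065240)) .nil)))) .nil)) .leaf) (nat_lit 16044567210753275) (.br (nat_lit 0) (.cons (.br (nat_lit 1) (.cons (.rel (nat_lit 20973576)) .nil)) .nil)) .leaf) (nat_lit 16044568796445577) (.br (nat_lit 0) (.cons (.br (nat_lit 4) (.cons (.rel (nat_lit 1078067208)) .nil)) .nil)) (.node (.node .leaf (nat_lit 16045159298345621) (.br (nat_lit 0) (.cons (.br (nat_lit 1) (.cons (.rel (nat_lit 20971557)) .nil)) .nil)) .leaf) (nat_lit 16045190617518985) (.br (nat_lit 6) (.cons (.br (nat_lit 2) (.cons (.rel (nat_lit 34426912776)) (.cons (.rel (nat_lit 34495005696)) .nil))) .nil)) .leaf)) (nat_lit 16045190617527184) (.br (nat_lit 2) (.cons (.br (nat_lit 6) (.cons (.rel (nat_lit 17314217988)) (.cons (.rel (nat_lit 17249077248)) .nil))) .nil)) (.node (.node (.node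 .leaf (nat_lit 16045193624826757) (.br (nat_lit 3) (.cons (.br (nat_lit 6) (.cons (.rel (nat_lit 17448337440)) .nil)) .nil)) .leaf) (nat_lit 16045193639776268) (.br (nat_lit 0) (.cons (.br (nat_lit 3) (.cons (.rel (nat_lit 272897040)) .nil)) .nil)) .leaf) (nat_lit 16045193641292557) (.br (nat_lit 0) (.cons (.br (nat_lit 3) (.cons (.rel (nat_lit 272958468)) .nil)) .nil)) (.node .leaf (nat_lit 16045193641619716) (.br (nat_lit 0) (.cons (.br (nat_lit 4) (.cons (.rel (nat_lit 1078264320)) .nil)) .nil)) .leaf))) (nat_lit 16045193642941321) (.br (nat_lit 0) (.cons (.br (nat_lit 6) (.cons (.rel (nat_lit 17184079968)) (.cons (.rel (nat_lit 17188258320)) (.cons (.rel (nat_lit 17188258320)) (.cons (.rel (nat_lit 17184096264)) .nil))))) .nil)) (.node (.node (.node (.node .leaf (nat_lit 16045193658381189) (.br (nat_lit 3) (.cons (.br (nat_lit 6) (.cons (.rel (nat_lit 17448304776)) .nil)) .nil)) .leaf) (nat_lit 16049445223744400) (.br (nat_lit 0) (.cons (.br (nat_lit 4) (.cons (.rel (nat_lit 1077944352)) .nil))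 .nil)) .leaf) (nat_lit 16049445643166601) (.br (nat_lit 6) (.cons (.br (nat_lit 0) (.cons (.rel (nat_lit 34363932960)) (.cons (.rel (nat_lit 17184079968)) (.cons (.rel (nat_lit 34363932960)) (.cons (.rel (nat_lit 34363932960)) (.cons (.rel (nat_lit 34363932960)) .nil)))))) .nil)) (.node (.node .leaf (nat_lit 16049445643182981) (.br (nat_lit 2) (.cons (.br (nat_lit 6) (.cons (.rel (nat_lit 17249077248)) (.cons (.br (nat_lit 0) (.cons (.rel (nat_lit 34363932960)) (.cons (.rel (nat_lit 71304228)) (.cons (.rel (nat_lit 34363932960)) (.cons (.rel (nat_lit 142606341)) (.cons (.rel (nat_lit 71303178)) .nil)))))) (.cons (.rel (nat_lit 34495005696)) .nil)))) (.cons (.br (nat_lit 4) (.cons (.rel (nat_lit 1140851220)) (.cons (.rel (nat_lit 1208090625)) (.cons (.rel (nat_lit 1208041476)) .nil)))) .nil))) .leaf) (nat_lit 16049540132447120) (.br (nat_lit 2) (.cons (.br (nat_lit 4) (.cons (.br (nat_lit 6) (.cons (.br (nat_lit 0) (.cons (.rel (nat_lit 71304228)) (.cons (.rel (nat_lit 34363932960)) (.cons (.rel (nat_lit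 34363932960)) (.cons (.rel (nat_lit 71305233)) (.cons (.rel (nat_lit 142606341)) (.cons (.rel (nat_lit 71303178)) .nil))))))) .nil)) .nil)) .nil)) .leaf)) (nat_lit 16049540132455301) (.br (nat_lit 2) (.cons (.br (nat_lit 6) (.cons (.rel (nat_lit 17314119681)) (.cons (.rel (nat_lit 17249077248)) .nil))) .nil)) (.node (.node (.node .leaf (nat_lit 16049761266176905) (.br (nat_lit 1) (.cons (.br (nat_lit 3) (.cons (.rel (nat_lit 570426384)) .nil)) .nil)) .leaf) (nat_lit 16049761266185104) (.br (nat_lit 3) (.cons (.br (nat_lit 5) (.cons (.rel (nat_lit 4563468306)) (.cons (.rel (nat_lit 4563408897)) .nil))) .nil)) .leaf) (nat_lit 16050536580622371) (.br (nat_lit 0) (.cons (.br (nat_lit 2) (.cons (.rel (nat_lit 71304228)) .nil)) .nil)) (.node .leaf (nat_lit 16050536581653381) (.br (nat_lit 6) (.cons (.br (nat_lit 2) (.cons (.rel (nat_lit 17249077248)) (.cons (.rel (nat_lit 17247256896)) .nil))) .nil)) .leaf)))) (nat_lit 16050536581653392) (.br (nat_lit 1) (.cons (.br (nat_lit 3) (.cons (.rel (nat_lit 285245505))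 (.cons (.rel (nat_lit 285360144)) .nil))) .nil)) (.node (.node (.node (.node (.node .leaf (nat_lit 16050605315863935) (.br (nat_lit 2) (.cons (.br (nat_lit 5) (.cons (.rel (nat_lit 8724218121)) (.cons (.rel (nat_lit 4362354945)) .nil))) (.cons (.br (nat_lit 4) (.cons (.rel (nat_lit 1141121280)) (.cons (.rel (nat_lit 1141121280)) .nil))) .nil))) .leaf) (nat_lit 16050605317899141) (.br (nat_lit 6) (.cons (.br (nat_lit 5) (.cons (.rel (nat_lit 21475098882)) (.cons (.rel (nat_lit 38654705793)) .nil))) .nil)) .leaf) (nat_lit 16050605317899152) (.br (nat_lit 1) (.cons (.br (nat_lit 2) (.cons (.rel (nat_lit 150996993)) (.cons (.rel (nat_lit 100663317)) (.cons (.rel (nat_lit 100663317)) .nil)))) .nil)) (.node (.node .leaf (nat_lit 16051632963562377) (.br (nat_lit 3) (.cons (.br (nat_lit 6) (.cons (.rel (nat_lit 17448325125)) .nil)) .nil)) .leaf) (nat_lit 16051636613407632) (.br (nat_lit 0) (.cons (.br (nat_lit 5) (.cons (.rel (nat_lit 4299229185)) .nil)) .nil)) .leaf)) (nat_lit 16051636643339145) (.br (nat_lit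 1) (.cons (.br (nat_lit 5) (.cons (.rel (nat_lit 8606711952)) .nil)) .nil)) (.node (.node (.node .leaf (nat_lit 16051636643339152) (.br (nat_lit 0) (.cons (.br (nat_lit 5) (.cons (.rel (nat_lit 8598388800)) .nil)) .nil)) .leaf) (nat_lit 16051821814762377) (.br (nat_lit 0) (.cons (.br (nat_lit 1) (.cons (.rel (nat_lit 20973576)) .nil)) .nil)) .leaf) (nat_lit 16051821847018377) (.br (nat_lit 0) (.cons (.br (nat_lit 1) (.cons (.rel (nat_lit 41944068)) .nil)) .nil)) (.node .leaf (nat_lit 16055335312980880) (.br (nat_lit 0) (.cons (.br (nat_lit 1) (.cons (.rel (nat_lit 21057540)) .nil)) .nil)) .leaf))) (nat_lit 16055335313503120) (.br (nat_lit 0) (.cons (.br (nat_lit 4) (.cons (.rel (nat_lit 1077936273)) .nil)) .nil)) (.node (.node (.node (.node .leaf (nat_lit 16056979162676105) (.br (nat_lit 1) (.cons (.br (nat_lit 4) (.cons (.rel (nat_lit 2181038337)) (.cons (.rel (nat_lit 2164260948)) .nil))) .nil)) .leaf) (nat_lit 16056980997759907) (.br (nat_lit 0) (.cons (.br (nat_lit 5) (.cons (.rel (nat_lit 4300472592))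 (.cons (.rel (nat_lit 8598327384)) .nil))) .nil)) .leaf) (nat_lit 16056981106711410) (.br (nat_lit 0) (.cons (.br (nat_lit 4) (.cons (.rel (nat_lit 2152726548)) .nil)) .nil)) (.node .leaf (nat_lit 16056981106711433) (.br (nat_lit 4) (.cons (.br (nat_lit 3) (.cons (.rel (nat_lit 2416967688)) (.cons (.rel (nat_lit 1342197762)) (.cons (.rel (nat_lit 1342308384)) (.cons (.rel (nat_lit 1342197762)) .nil))))) (.cons (.br (nat_lit 3) (.cons (.br (nat_lit 0) (.cons (.br (nat_lit 1) (.cons (.rel (nat_lit 20972562)) (.cons (.rel (nat_lit 285212697)) (.cons (.rel (nat_lit 2164277280)) (.cons (.rel (nat_lit 285214752)) (.cons (.rel (nat_lit 285213702)) .nil)))))) (.cons (.rel (nat_lit 276824100)) (.cons (.rel (nat_lit 1077944352)) (.cons (.rel (nat_lit 541066245)) (.cons (.rel (nat_lit 541066245)) .nil)))))) (.cons (.rel (nat_lit 2416967688)) (.cons (.rel (nat_lit 1342308384)) (.cons (.br (nat_lit 1) (.cons (.rel (nat_lit 285234240)) (.cons (.rel (nat_lit 285237252)) (.cons (.rel (nat_lit 2164277280)) (.cons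 (.rel (nat_lit 285245505)) (.cons (.rel (nat_lit 285214752)) .nil)))))) .nil))))) .nil))) .leaf)) (nat_lit 16056981106719606) (.br (nat_lit 0) (.cons (.br (nat_lit 3) (.cons (.rel (nat_lit 276824100)) (.cons (.rel (nat_lit 541065240)) .nil))) .nil)) (.node (.node (.node .leaf (nat_lit 16056981106719632) (.br (nat_lit 4) (.cons (.br (nat_lit 2) (.cons (.rel (nat_lit 2214658050)) (.cons (.rel (nat_lit 2214608901)) (.cons (.rel (nat_lit 1207980048)) (.cons (.rel (nat_lit 1142948880)) .nil))))) (.cons (.br (nat_lit 5) (.cons (.br (nat_lit 2) (.cons (.rel (nat_lit 8657174544)) (.cons (.rel (nat_lit 8657174544)) (.cons (.rel (nat_lit 8657174544)) (.cons (.rel (nat_lit 1141440528)) .nil))))) (.cons (.rel (nat_lit 9663676488)) (.cons (.rel (nat_lit 9663693825)) .nil)))) .nil))) .leaf) (nat_lit 16056981249387397) (.br (nat_lit 0) (.cons (.br (nat_lit 4) (.cons (.rel (nat_lit 1082654784)) .nil)) .nil)) .leaf) (nat_lit 16057015357498256) (.br (nat_lit 4) (.cons (.br (nat_lit 5) (.cons (.rel (nat_lit 6442460160))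 (.cons (.rel (nat_lit 9663676488)) (.cons (.rel (nat_lit 9663676488)) .nil)))) .nil)) (.node .leaf (nat_lit 16057015357498271) (.br (nat_lit 0) (.cons (.br (nat_lit 4) (.cons (.rel (nat_lit 2152726548)) .nil)) .nil)) .leaf))))) (nat_lit 16057015403635600) (.br (nat_lit 4) (.cons (.br (nat_lit 5) (.cons (.rel (nat_lit 6442460160)) (.cons (.br (nat_lit 0) (.cons (.rel (nat_lit 4299161685)) (.cons (.rel (nat_lit 4299229185)) .nil))) (.cons (.rel (nat_lit 5369364480)) (.cons (.rel (nat_lit 6442460160)) (.cons (.rel (nat_lit 9663676488)) (.cons (.rel (nat_lit 9663676488)) (.cons (.rel (nat_lit 10737745920)) .nil)))))))) .nil)) (.node (.node (.node (.node (.node (.node .leaf (nat_lit 16057049826188150) (.br (nat_lit 0) (.cons (.br (nat_lit 3) (.cons (.rel (nat_lit 541065240)) (.cons (.rel (nat_lit 276824100)) (.cons (.rel (nat_lit 276825105)) .nil)))) (.cons (.br (nat_lit 3) (.cons (.rel (nat_lit 276824100)) (.cons (.rel (nat_lit 541066245)) (.cons (.rel (nat_lit 541066245)) .nil)))) .nil))) .leaf) (nat_lit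 16057049826188176) (.br (nat_lit 4) (.cons (.br (nat_lit 5) (.cons (.br (nat_lit 1) (.cons (.rel (nat_lit 2164260948)) (.cons (.rel (nat_lit 5385486360)) (.cons (.rel (nat_lit 2164277280)) (.cons (.rel (nat_lit 4312006992)) (.cons (.rel (nat_lit 8606711952)) .nil)))))) (.cons (.rel (nat_lit 6442467408)) (.cons (.br (nat_lit 6) (.cons (.rel (nat_lit 19327353888)) (.cons (.rel (nat_lit 25769803842)) (.cons (.rel (nat_lit 25769803842)) .nil)))) .nil)))) .nil)) .leaf) (nat_lit 16057049826188195) (.br (nat_lit 5) (.cons (.br (nat_lit 0) (.cons (.rel (nat_lit 4299165702)) (.cons (.rel (nat_lit 4299162690)) .nil))) .nil)) (.node (.node .leaf (nat_lit 16057049826196357) (.br (nat_lit 4) (.cons (.br (nat_lit 0) (.cons (.rel (nat_lit 1077936273)) (.cons (.rel (nat_lit 2155876368)) (.cons (.rel (nat_lit 1077940290)) (.cons (.rel (nat_lit 1077944352)) .nil))))) .nil)) .leaf) (nat_lit 16057049826210674) (.br (nat_lit 4) (.cons (.br (nat_lit 0) (.cons (.rel (nat_lit 2152726548)) (.cons (.rel (nat_lit 1077944352))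 .nil))) .nil)) .leaf)) (nat_lit 16057049826210697) (.br (nat_lit 4) (.cons (.br (nat_lit 6) (.cons (.br (nat_lit 0) (.cons (.rel (nat_lit 1077944352)) (.cons (.rel (nat_lit 1077944352)) (.cons (.rel (nat_lit 17184079968)) (.cons (.rel (nat_lit 34363932960)) .nil))))) (.cons (.rel (nat_lit 19327353888)) (.cons (.br (nat_lit 0) (.cons (.rel (nat_lit 1077944352)) (.cons (.rel (nat_lit 1077944352)) (.cons (.rel (nat_lit 34363932960)) (.cons (.rel (nat_lit 17184079968)) .nil))))) .nil)))) .nil)) (.node (.node (.node .leaf (nat_lit 16057049826210719) (.br (nat_lit 5) (.cons (.br (nat_lit 0) (.cons (.rel (nat_lit 4299162690)) (.cons (.rel (nat_lit 4299165702)) .nil))) .nil)) .leaf) (nat_lit 16057238947424311) (.br (nat_lit 0) (.cons (.br (nat_lit 1) (.cons (.rel (nat_lit 20996112)) .nil)) .nil)) .leaf) (nat_lit 16057397400591241) (.br (nat_lit 3) (.cons (.br (nat_lit 0) (.cons (.rel (nat_lit 541098048)) (.cons (.rel (nat_lit 272646468)) .nil))) .nil)) (.node .leaf (nat_lit 16057397400599440) (.br (nat_lit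 0) (.cons (.br (nat_lit 2) (.cons (.rel (nat_lit 71439360)) (.cons (.rel (nat_lit 142606341)) .nil))) .nil)) .leaf))) (nat_lit 16057397965493129) (.br (nat_lit 0) (.cons (.br (nat_lit 1) (.cons (.rel (nat_lit 20972562)) .nil)) .nil)) (.node (.node (.node (.node .leaf (nat_lit 16057397967076240) (.br (nat_lit 0) (.cons (.br (nat_lit 2) (.cons (.rel (nat_lit 71401476)) .nil)) .nil)) .leaf) (nat_lit 16057397967090565) (.br (nat_lit 0) (.cons (.br (nat_lit 2) (.cons (.rel (nat_lit 71401476)) .nil)) .nil)) .leaf) (nat_lit 16057401904554889) (.br (nat_lit 0) (.cons (.br (nat_lit 5) (.cons (.rel (nat_lit 4299227178)) (.cons (.rel (nat_lit 4299161685)) (.cons (.rel (nat_lit 4299229185)) (.cons (.rel (nat_lit 4299180036)) (.cons (.rel (nat_lit 4299161685)) .nil)))))) (.cons (.br (nat_lit 5) (.cons (.rel (nat_lit 4299166752)) (.cons (.rel (nat_lit 4299165702)) (.cons (.rel (nat_lit 4299180036)) (.cons (.rel (nat_lit 4299229185)) (.cons (.rel (nat_lit 4299165702)) .nil)))))) .nil))) (.node .leaf (nat_lit 16057401904554911)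 (.br (nat_lit 0) (.cons (.br (nat_lit 4) (.cons (.rel (nat_lit 2152726548)) .nil)) .nil)) .leaf)) (nat_lit 16057402013506441) (.br (nat_lit 0) (.cons (.br (nat_lit 3) (.cons (.rel (nat_lit 272695617)) (.cons (.rel (nat_lit 541066245)) (.cons (.rel (nat_lit 276825105)) (.cons (.rel (nat_lit 541066245)) .nil))))) .nil)) (.node (.node (.node .leaf (nat_lit 16057402013506467) (.br (nat_lit 5) (.cons (.br (nat_lit 0) (.cons (.rel (nat_lit 4299165702)) (.cons (.rel (nat_lit 4299162690)) .nil))) .nil)) .leaf) (nat_lit 16057402013514640) (.br (nat_lit 0) (.cons (.br (nat_lit 3) (.cons (.rel (nat_lit 541066245)) .nil)) .nil)) .leaf) (nat_lit 16057402013528991) (.br (nat_lit 4) (.cons (.br (nat_lit 5) (.cons (.rel (nat_lit 9663742986)) (.cons (.rel (nat_lit 6442451076)) .nil))) .nil)) (.node .leaf (nat_lit 16057402155602825) (.br (nat_lit 0) (.cons (.br (nat_lit 3) (.cons (.rel (nat_lit 274202880)) .nil)) .nil)) .leaf)))) (nat_lit 16057402155610773) (.br (nat_lit 0) (.cons (.br (nat_lit 3) (.cons (.rel (nat_lit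 272897040)) .nil)) .nil)) (.node (.node (.node (.node (.node .leaf (nat_lit 16057402156940169) (.br (nat_lit 2) (.cons (.br (nat_lit 3) (.cons (.rel (nat_lit 335544354)) .nil)) .nil)) .leaf) (nat_lit 16057402157446021) (.br (nat_lit 5) (.cons (.br (nat_lit 6) (.cons (.rel (nat_lit 25769803842)) .nil)) .nil)) .leaf) (nat_lit 16057402157454217) (.br (nat_lit 1) (.cons (.br (nat_lit 0) (.cons (.rel (nat_lit 38076417)) (.cons (.rel (nat_lit 20973576)) (.cons (.rel (nat_lit 20973576)) .nil)))) (.cons (.br (nat_lit 0) (.cons (.rel (nat_lit 20971557)) (.cons (.rel (nat_lit 41944068)) (.cons (.rel (nat_lit 20996112)) .nil)))) .nil))) (.node (.node .leaf (nat_lit 16057402158435209) (.br (nat_lit 0) (.cons (.br (nat_lit 3) (.cons (.rel (nat_lit 541066245)) .nil)) .nil)) .leaf) (nat_lit 16057436373244790) (.br (nat_lit 4) (.cons (.br (nat_lit 5) (.cons (.rel (nat_lit 9663676488)) .nil)) .nil)) .leaf)) (nat_lit 16057436373267344) (.br (nat_lit 0) (.cons (.br (nat_lit 3) (.cons (.rel (nat_lit 276824100)) (.cons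 (.rel (nat_lit 541066245)) .nil))) .nil)) (.node (.node (.node .leaf (nat_lit 16057436515904400) (.br (nat_lit 0) (.cons (.br (nat_lit 3) (.cons (.rel (nat_lit 272908305)) .nil)) .nil)) .leaf) (nat_lit 16057436515920777) (.br (nat_lit 0) (.cons (.br (nat_lit 3) (.cons (.rel (nat_lit 541066245)) (.cons (.rel (nat_lit 541066245)) .nil))) .nil)) .leaf) (nat_lit 16057436515920807) (.br (nat_lit 0) (.cons (.br (nat_lit 4) (.cons (.rel (nat_lit 1082654784)) .nil)) .nil)) (.node .leaf (nat_lit 16057436516678537) (.br (nat_lit 0) (.cons (.br (nat_lit 2) (.cons (.rel (nat_lit 76808193)) .nil)) .nil)) .leaf))) (nat_lit 16057436517184400) (.br (nat_lit 6) (.cons (.br (nat_lit 0) (.cons (.rel (nat_lit 17184072720)) (.cons (.rel (nat_lit 34368143364)) .nil))) .nil)) (.node (.node (.node (.node .leaf (nat_lit 16057436517192581) (.br (nat_lit 0) (.cons (.br (nat_lit 1) (.cons (.rel (nat_lit 21102672)) .nil)) .nil)) .leaf) (nat_lit 16057496393835382) (.br (nat_lit 0) (.cons (.br (nat_lit 5) (.cons (.rel (nat_lit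 8598454293)) .nil)) .nil)) .leaf) (nat_lit 16057496393835408) (.br (nat_lit 0) (.cons (.br (nat_lit 5) (.cons (.rel (nat_lit 4299180036)) (.cons (.rel (nat_lit 4299229185)) .nil))) (.cons (.br (nat_lit 5) (.cons (.rel (nat_lit 4299229185)) (.cons (.rel (nat_lit 4299180036)) .nil))) .nil))) (.node .leaf (nat_lit 16057496393835427) (.br (nat_lit 0) (.cons (.br (nat_lit 5) (.cons (.rel (nat_lit 4300472592)) .nil)) .nil)) .leaf)) (nat_lit 16057496439972752) (.br (nat_lit 4) (.cons (.br (nat_lit 5) (.cons (.br (nat_lit 0) (.cons (.rel (nat_lit 4299161685)) (.cons (.rel (nat_lit 4299229185)) .nil))) (.cons (.rel (nat_lit 6442460160)) (.cons (.rel (nat_lit 9663676488)) .nil)))) .nil)) (.node (.node (.node .leaf (nat_lit 16057496644891525) (.br (nat_lit 0) (.cons (.br (nat_lit 5) (.cons (.rel (nat_lit 8594391048)) .nil)) .nil)) .leaf) (nat_lit 16057496645462917) (.br (nat_lit 0) (.cons (.br (nat_lit 4) (.cons (.rel (nat_lit 1082654784)) .nil)) .nil)) .leaf) (nat_lit 16057496646734485) (.br (nat_lit 0) (.cons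 (.br (nat_lit 1) (.cons (.rel (nat_lit 27263040)) .nil)) .nil)) (.node .leaf (nat_lit 16057496646734736) (.br (nat_lit 4) (.cons (.br (nat_lit 0) (.cons (.rel (nat_lit 1077940290)) (.cons (.rel (nat_lit 2155937796)) .nil))) .nil)) .leaf))))))

/-- refutations 54 -/
def e54 : EX := (.node (.node (.node (.node (.node (.node .leaf (nat_lit 16290685889305502) (.br (nat_lit 0) (.cons (.br (nat_lit 1) (.cons (.rel (nat_lit 21102672)) .nil)) .nil)) .leaf) (nat_lit 16297082345562237) (.br (nat_lit 0) (.cons (.br (nat_lit 1) (.cons (.rel (nat_lit 20973576)) .nil)) .nil)) .leaf) (nat_lit 16303782330989470) (.br (nat_lit 0) (.cons (.br (nat_lit 3) (.cons (.rel (nat_lit 272646468)) .nil)) .nil)) (.node (.node .leaf (nat_lit 16320863788448671) (.br (nat_lit 0) (.cons (.br (nat_lit 4) (.cons (.rel (nat_lit 2155876368)) .nil)) .nil)) .leaf) (nat_lit 16320863897385872) (.br (nat_lit 0) (.cons (.br (nat_lit 3) (.cons (.rel (nat_lit 541066245)) (.cons (.rel (nat_lit 541066245)) .nil))) .nil)) .leaf)) (nat_lit 16320863897400197)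 (.br (nat_lit 0) (.cons (.br (nat_lit 5) (.cons (.rel (nat_lit 4299165702)) (.cons (.rel (nat_lit 4299166752)) .nil))) .nil)) (.node (.node (.node .leaf (nat_lit 16320863914163062) (.br (nat_lit 0) (.cons (.br (nat_lit 5) (.cons (.rel (nat_lit 4300472592)) .nil)) .nil)) .leaf) (nat_lit 16320863914163088) (.br (nat_lit 0) (.cons (.br (nat_lit 3) (.cons (.rel (nat_lit 541066245)) (.cons (.rel (nat_lit 541066245)) .nil))) .nil)) .leaf) (nat_lit 16320898148164511) (.br (nat_lit 0) (.cons (.br (nat_lit 3) (.cons (.rel (nat_lit 276825105)) (.cons (.rel (nat_lit 541066245)) (.cons (.rel (nat_lit 541066245)) .nil)))) .nil)) (.node .leaf (nat_lit 16320898148186998) (.br (nat_lit 0) (.cons (.br (nat_lit 3) (.cons (.rel (nat_lit 541065240)) (.cons (.rel (nat_lit 541066245)) .nil))) .nil)) .leaf))) (nat_lit 16320898148187047) (.br (nat_lit 0) (.cons (.br (nat_lit 4) (.cons (.rel (nat_lit 2155876368)) .nil)) .nil)) (.node (.node (.node (.node .leaf (nat_lit 16320898273901449) (.br (nat_lit 0) (.cons (.br (nat_lit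 3) (.cons (.rel (nat_lit 272695617)) (.cons (.rel (nat_lit 272646468)) .nil))) .nil)) .leaf) (nat_lit 16320898273901471) (.br (nat_lit 0) (.cons (.br (nat_lit 5) (.cons (.rel (nat_lit 8598405144)) .nil)) .nil)) .leaf) (nat_lit 16320898303275939) (.br (nat_lit 0) (.cons (.br (nat_lit 5) (.cons (.rel (nat_lit 4299292800)) (.cons (.rel (nat_lit 4299228180)) .nil))) .nil)) (.node (.node .leaf (nat_lit 16320932616876914) (.br (nat_lit 0) (.cons (.br (nat_lit 6) (.cons (.rel (nat_lit 17188258320)) (.cons (.rel (nat_lit 17184063636)) .nil))) .nil)) .leaf) (nat_lit 16320932616876959) (.br (nat_lit 0) (.cons (.br (nat_lit 5) (.cons (.rel (nat_lit 4299162690)) .nil)) .nil)) .leaf)) (nat_lit 16320932663014258) (.br (nat_lit 0) (.cons (.br (nat_lit 6) (.cons (.rel (nat_lit 17188258320)) (.cons (.rel (nat_lit 17184063636)) (.cons (.rel (nat_lit 17188258320)) .nil)))) .nil)) (.node (.node (.node .leaf (nat_lit 16320932663014281) (.br (nat_lit 0) (.cons (.br (nat_lit 3) (.cons (.rel (nat_lit 272908305)) (.cons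 (.rel (nat_lit 276824100)) (.cons (.rel (nat_lit 276825105)) (.cons (.rel (nat_lit 541066245)) .nil))))) (.cons (.br (nat_lit 4) (.cons (.rel (nat_lit 1077936273)) (.cons (.rel (nat_lit 1077940290)) .nil))) .nil))) .leaf) (nat_lit 16320932663014303) (.br (nat_lit 5) (.cons (.br (nat_lit 0) (.cons (.rel (nat_lit 4299162690)) (.cons (.rel (nat_lit 4299186240)) .nil))) .nil)) .leaf) (nat_lit 16321121486463862) (.br (nat_lit 0) (.cons (.br (nat_lit 6) (.cons (.rel (nat_lit 17188258320)) .nil)) .nil)) (.node .leaf (nat_lit 16321121486463903) (.br (nat_lit 4) (.cons (.br (nat_lit 5) (.cons (.rel (nat_lit 10737745920)) (.cons (.rel (nat_lit 6442467408)) (.cons (.rel (nat_lit 6442460160)) .nil)))) .nil)) .leaf)))) (nat_lit 16321121487252361) (.br (nat_lit 0) (.cons (.br (nat_lit 1) (.cons (.rel (nat_lit 22021632)) .nil)) .nil)) (.node (.node (.node (.node (.node .leaf (nat_lit 16321121641575305) (.br (nat_lit 4) (.cons (.br (nat_lit 0) (.cons (.rel (nat_lit 1077936273)) (.cons (.rel (nat_lit 1077936273))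 .nil))) .nil)) .leaf) (nat_lit 16321284695221129) (.br (nat_lit 0) (.cons (.br (nat_lit 6) (.cons (.rel (nat_lit 17184079968)) (.cons (.rel (nat_lit 17188258320)) .nil))) (.cons (.br (nat_lit 6) (.cons (.rel (nat_lit 17188258320)) (.cons (.rel (nat_lit 17188258320)) .nil))) .nil))) .leaf) (nat_lit 16321284695221151) (.br (nat_lit 5) (.cons (.br (nat_lit 6) (.cons (.rel (nat_lit 21474853377)) (.cons (.rel (nat_lit 42949951488)) (.cons (.rel (nat_lit 25769803842)) .nil)))) .nil)) (.node (.node .leaf (nat_lit 16321284695243653) (.br (nat_lit 4) (.cons (.br (nat_lit 5) (.cons (.rel (nat_lit 9663742986)) .nil)) .nil)) .leaf) (nat_lit 16321284695243687) (.br (nat_lit 4) (.cons (.br (nat_lit 0) (.cons (.rel (nat_lit 2155876368)) (.cons (.rel (nat_lit 2151940224)) (.cons (.rel (nat_lit 1078067208)) .nil)))) .nil)) .leaf)) (nat_lit 16321284804180880) (.br (nat_lit 4) (.cons (.br (nat_lit 0) (.cons (.br (nat_lit 3) (.cons (.rel (nat_lit 2416967688)) (.cons (.rel (nat_lit 276824100)) .nil))) (.cons (.rel (nat_lit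 1077944352)) .nil))) .nil)) (.node (.node (.node .leaf (nat_lit 16321284804195190) (.br (nat_lit 0) (.cons (.br (nat_lit 5) (.cons (.rel (nat_lit 4299165702)) .nil)) .nil)) .leaf) (nat_lit 16321284820958096) (.br (nat_lit 0) (.cons (.br (nat_lit 3) (.cons (.rel (nat_lit 541066245)) (.cons (.rel (nat_lit 276824100)) .nil))) .nil)) .leaf) (nat_lit 16321284820958119) (.br (nat_lit 0) (.cons (.br (nat_lit 4) (.cons (.rel (nat_lit 1078005780)) .nil)) .nil)) (.node .leaf (nat_lit 16321319163933554) (.br (nat_lit 0) (.cons (.br (nat_lit 6) (.cons (.rel (nat_lit 17188258320)) .nil)) .nil)) .leaf))) (nat_lit 16321319210070898) (.br (nat_lit 0) (.cons (.br (nat_lit 4) (.cons (.br (nat_lit 3) (.cons (.rel (nat_lit 1342308384)) (.cons (.rel (nat_lit 541066245)) .nil))) .nil)) .nil)) (.node (.node (.node (.node .leaf (nat_lit 16321379184501622) (.br (nat_lit 0) (.cons (.br (nat_lit 6) (.cons (.rel (nat_lit 17188258320)) (.cons (.rel (nat_lit 17188258320)) (.cons (.rel (nat_lit 17188258320)) (.cons (.rel (nat_lit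 17188258320)) .nil))))) .nil)) .leaf) (nat_lit 16321379184501648) (.br (nat_lit 4) (.cons (.br (nat_lit 5) (.cons (.rel (nat_lit 9663676488)) .nil)) .nil)) .leaf) (nat_lit 16321379184501667) (.br (nat_lit 0) (.cons (.br (nat_lit 3) (.cons (.rel (nat_lit 541066245)) .nil)) .nil)) (.node .leaf (nat_lit 16321379184524146) (.br (nat_lit 0) (.cons (.br (nat_lit 4) (.cons (.rel (nat_lit 1078005780)) (.cons (.rel (nat_lit 2155876368)) .nil))) .nil)) .leaf)) (nat_lit 16321379184524191) (.br (nat_lit 0) (.cons (.br (nat_lit 5) (.cons (.rel (nat_lit 4299161685)) .nil)) .nil)) (.node (.node (.node .leaf (nat_lit 16321379310238582) (.br (nat_lit 0) (.cons (.br (nat_lit 5) (.cons (.rel (nat_lit 4300472592)) .nil)) .nil)) .leaf) (nat_lit 16321379310238597) (.br (nat_lit 0) (.cons (.br (nat_lit 3) (.cons (.rel (nat_lit 541066245)) (.cons (.rel (nat_lit 276824100)) .nil))) .nil)) .leaf) (nat_lit 16321379339613065) (.br (nat_lit 0) (.cons (.br (nat_lit 5) (.cons (.rel (nat_lit 4299165702)) (.cons (.rel (nat_lit 4299166752))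 .nil))) .nil)) (.node .leaf (nat_lit 16321379339613091) (.br (nat_lit 0) (.cons (.br (nat_lit 6) (.cons (.rel (nat_lit 17184063636)) (.cons (.rel (nat_lit 17188258320)) (.cons (.rel (nat_lit 17188258320)) .nil)))) .nil)) .leaf)))))

/-- refutations 55 -/
def e55 : EX := (.node (.node (.node (.node (.node (.node .leaf (nat_lit 16391232641555089) (.br (nat_lit 0) (.cons (.br (nat_lit 4) (.cons (.rel (nat_lit 1082654784)) .nil)) .nil)) .leaf) (nat_lit 16391232641555337) (.br (nat_lit 0) (.cons (.br (nat_lit 3) (.cons (.rel (nat_lit 541066245)) (.cons (.rel (nat_lit 541066245)) .nil))) .nil)) .leaf) (nat_lit 16391266938502025) (.br (nat_lit 0) (.cons (.br (nat_lit 4) (.cons (.rel (nat_lit 1077936273)) (.cons (.rel (nat_lit 1078005780)) .nil))) (.cons (.br (nat_lit 5) (.cons (.rel (nat_lit 4299165702)) (.cons (.rel (nat_lit 8598388800)) (.cons (.rel (nat_lit 4299165702)) (.cons (.rel (nat_lit 4300472592)) .nil))))) .nil))) (.node (.node .leaf (nat_lit 16391267018070917) (.br (nat_lit 0) (.cons (.br (nat_lit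 6) (.cons (.rel (nat_lit 17188258320)) (.cons (.rel (nat_lit 17184063636)) .nil))) (.cons (.br (nat_lit 6) (.cons (.rel (nat_lit 17188258320)) (.cons (.rel (nat_lit 17188258320)) .nil))) .nil))) .leaf) (nat_lit 16391267018093430) (.br (nat_lit 0) (.cons (.br (nat_lit 6) (.cons (.rel (nat_lit 17188258320)) (.cons (.rel (nat_lit 17188258320)) .nil))) .nil)) .leaf)) (nat_lit 16391267018093456) (.br (nat_lit 0) (.cons (.br (nat_lit 3) (.cons (.rel (nat_lit 541066245)) (.cons (.rel (nat_lit 541066245)) .nil))) (.cons (.br (nat_lit 3) (.cons (.rel (nat_lit 541065240)) (.cons (.rel (nat_lit 541066245)) .nil))) .nil))) (.node (.node (.node .leaf (nat_lit 16391267018093475) (.br (nat_lit 4) (.cons (.br (nat_lit 5) (.cons (.rel (nat_lit 6442460160)) .nil)) .nil)) .leaf) (nat_lit 16391267047453558) (.br (nat_lit 4) (.cons (.br (nat_lit 5) (.cons (.rel (nat_lit 6442460160)) .nil)) .nil)) .leaf) (nat_lit 16391267047453584) (.br (nat_lit 0) (.cons (.br (nat_lit 3) (.cons (.rel (nat_lit 541066245)) (.cons (.rel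 (nat_lit 541066245)) .nil))) .nil)) (.node (.node .leaf (nat_lit 16391267047453603) (.br (nat_lit 5) (.cons (.br (nat_lit 4) (.cons (.rel (nat_lit 9663741969)) (.cons (.rel (nat_lit 9663682560)) .nil))) .nil)) .leaf) (nat_lit 16391301281440630) (.br (nat_lit 0) (.cons (.br (nat_lit 5) (.cons (.rel (nat_lit 4299165702)) .nil)) .nil)) .leaf))) (nat_lit 16391301281440649) (.br (nat_lit 3) (.cons (.br (nat_lit 4) (.cons (.rel (nat_lit 1612709892)) .nil)) .nil)) (.node (.node (.node (.node .leaf (nat_lit 16391301281463154) (.br (nat_lit 0) (.cons (.br (nat_lit 5) (.cons (.rel (nat_lit 4299161685)) .nil)) .nil)) .leaf) (nat_lit 16391301281463203) (.br (nat_lit 0) (.cons (.br (nat_lit 3) (.cons (.rel (nat_lit 276824100)) (.cons (.rel (nat_lit 541066245)) .nil))) .nil)) .leaf) (nat_lit 16391301298217846) (.br (nat_lit 0) (.cons (.br (nat_lit 5) (.cons (.rel (nat_lit 4299165702)) .nil)) .nil)) (.node (.node .leaf (nat_lit 16391301298240389) (.br (nat_lit 3) (.cons (.br (nat_lit 4) (.cons (.rel (nat_lit 1342308384))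 .nil)) .nil)) .leaf) (nat_lit 16391301361032054) (.br (nat_lit 0) (.cons (.br (nat_lit 6) (.cons (.rel (nat_lit 17184064641)) (.cons (.rel (nat_lit 17188258320)) (.cons (.rel (nat_lit 17184063636)) (.cons (.rel (nat_lit 17184079968)) .nil))))) .nil)) .leaf)) (nat_lit 16391301361032080) (.br (nat_lit 0) (.cons (.br (nat_lit 5) (.cons (.rel (nat_lit 4299161685)) (.cons (.rel (nat_lit 4299166752)) (.cons (.rel (nat_lit 4299165702)) .nil)))) .nil)) (.node (.node (.node .leaf (nat_lit 16391301361032099) (.br (nat_lit 3) (.cons (.br (nat_lit 5) (.cons (.rel (nat_lit 4563407892)) .nil)) .nil)) .leaf) (nat_lit 16391301407191945) (.br (nat_lit 0) (.cons (.br (nat_lit 3) (.cons (.rel (nat_lit 276824100)) (.cons (.rel (nat_lit 541066245)) .nil))) .nil)) .leaf) (nat_lit 16391301407960320) (.br (nat_lit 0) (.cons (.br (nat_lit 1) (.cons (.rel (nat_lit 20973576)) .nil)) .nil)) (.node .leaf (nat_lit 16391301503699845) (.br (nat_lit 0) (.cons (.br (nat_lit 4) (.cons (.rel (nat_lit 1077944352)) .nil)) .nil)) .leaf))))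 (nat_lit 16391301503708041) (.br (nat_lit 4) (.cons (.br (nat_lit 3) (.cons (.rel (nat_lit 1342242906)) (.cons (.rel (nat_lit 2684371968)) (.cons (.rel (nat_lit 1342182480)) (.cons (.rel (nat_lit 2684371968)) .nil))))) (.cons (.br (nat_lit 5) (.cons (.rel (nat_lit 6442460160)) (.cons (.rel (nat_lit 5369364480)) (.cons (.rel (nat_lit 6442460160)) (.cons (.rel (nat_lit 5368713744)) (.cons (.rel (nat_lit 6442460160)) (.cons (.rel (nat_lit 9663676488)) (.cons (.rel (nat_lit 6442460160)) (.cons (.rel (nat_lit 5368713744)) .nil))))))))) .nil))) (.node (.node (.node (.node (.node .leaf (nat_lit 16391301503708067) (.br (nat_lit 4) (.cons (.br (nat_lit 0) (.cons (.rel (nat_lit 1077936273)) (.cons (.rel (nat_lit 2155937796)) .nil))) .nil)) .leaf) (nat_lit 16391490260001654) (.br (nat_lit 0) (.cons (.br (nat_lit 3) (.cons (.rel (nat_lit 276824100)) .nil)) .nil)) .leaf) (nat_lit 16391490482269091) (.br (nat_lit 0) (.cons (.br (nat_lit 3) (.cons (.rel (nat_lit 541066245)) .nil)) .nil)) (.node (.node .leaf (nat_lit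 16391653468758921) (.br (nat_lit 6) (.cons (.br (nat_lit 0) (.cons (.rel (nat_lit 34363932960)) (.cons (.rel (nat_lit 34363932960)) .nil))) .nil)) .leaf) (nat_lit 16391653468758943) (.br (nat_lit 0) (.cons (.br (nat_lit 5) (.cons (.rel (nat_lit 4299162690)) .nil)) .nil)) .leaf)) (nat_lit 16391653548350371) (.br (nat_lit 4) (.cons (.br (nat_lit 5) (.cons (.rel (nat_lit 10737745920)) .nil)) .nil)) (.node (.node (.node .leaf (nat_lit 16391653565150070) (.br (nat_lit 0) (.cons (.br (nat_lit 3) (.cons (.rel (nat_lit 276824100)) (.cons (.rel (nat_lit 276824100)) .nil))) .nil)) .leaf) (nat_lit 16391687828519798) (.br (nat_lit 5) (.cons (.br (nat_lit 3) (.cons (.rel (nat_lit 4563443712)) (.cons (.rel (nat_lit 4563443712)) .nil))) .nil)) .leaf) (nat_lit 16391687828519843) (.br (nat_lit 0) (.cons (.br (nat_lit 6) (.cons (.rel (nat_lit 17188258320)) .nil)) .nil)) (.node .leaf (nat_lit 16391687845297014) (.br (nat_lit 0) (.cons (.br (nat_lit 5) (.cons (.rel (nat_lit 4299166752)) .nil)) .nil)) .leaf))) (nat_lit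 16391687908088694) (.br (nat_lit 0) (.cons (.br (nat_lit 3) (.cons (.br (nat_lit 4) (.cons (.rel (nat_lit 1342308384)) .nil)) .nil)) .nil)) (.node (.node (.node (.node .leaf (nat_lit 16391687908088709) (.br (nat_lit 0) (.cons (.br (nat_lit 3) (.cons (.rel (nat_lit 541065240)) (.cons (.rel (nat_lit 276824100)) .nil))) (.cons (.br (nat_lit 3) (.cons (.rel (nat_lit 272695617)) (.cons (.rel (nat_lit 273711105)) .nil))) .nil))) .leaf) (nat_lit 16391687954248592) (.br (nat_lit 0) (.cons (.br (nat_lit 3) (.cons (.rel (nat_lit 541065240)) (.cons (.rel (nat_lit 541066245)) .nil))) .nil)) .leaf) (nat_lit 16391688050756485) (.br (nat_lit 0) (.cons (.br (nat_lit 4) (.cons (.rel (nat_lit 1077944352)) .nil)) .nil)) (.node (.node .leaf (nat_lit 16391747974816630) (.br (nat_lit 0) (.cons (.br (nat_lit 5) (.cons (.rel (nat_lit 4299165702)) .nil)) .nil)) .leaf) (nat_lit 16391747974839154) (.br (nat_lit 0) (.cons (.br (nat_lit 5) (.cons (.rel (nat_lit 4299166752)) .nil)) .nil)) .leaf)) (nat_lit 16391747974839177) (.br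 (nat_lit 5) (.cons (.br (nat_lit 0) (.cons (.rel (nat_lit 4299161685)) (.cons (.rel (nat_lit 4299165702)) (.cons (.rel (nat_lit 4299166752)) .nil)))) (.cons (.br (nat_lit 0) (.cons (.rel (nat_lit 4299165702)) (.cons (.rel (nat_lit 4299165702)) (.cons (.rel (nat_lit 4299161685)) .nil)))) .nil))) (.node (.node (.node .leaf (nat_lit 16391748054430627) (.br (nat_lit 4) (.cons (.br (nat_lit 5) (.cons (.rel (nat_lit 6442460160)) .nil)) .nil)) .leaf) (nat_lit 16391748083790729) (.br (nat_lit 0) (.cons (.br (nat_lit 3) (.cons (.rel (nat_lit 276824100)) (.cons (.rel (nat_lit 541065240)) (.cons (.rel (nat_lit 541066245)) .nil)))) .nil)) .leaf) (nat_lit 16391748083790755) (.br (nat_lit 4) (.cons (.br (nat_lit 5) (.cons (.rel (nat_lit 6442460160)) .nil)) .nil)) (.node .leaf (nat_lit 16391748180306802) (.br (nat_lit 0) (.cons (.br (nat_lit 5) (.cons (.rel (nat_lit 4299292800)) .nil)) .nil)) .leaf)))))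

/-- refutations 56 -/
def e56 : EX := (.node (.node (.node (.node (.node (.node .leaf (nat_lit 16461601385733001) (.br (nat_lit 0) (.cons (.br (nat_lit 3) (.cons (.rel (nat_lit 276824100)) (.cons (.rel (nat_lit 541066245)) (.cons (.rel (nat_lit 276825105)) .nil)))) .nil)) .leaf) (nat_lit 16461601386501376) (.br (nat_lit 0) (.cons (.br (nat_lit 3) (.cons (.rel (nat_lit 276824100)) (.cons (.rel (nat_lit 272646468)) .nil))) .nil)) .leaf) (nat_lit 16461601402518416) (.br (nat_lit 0) (.cons (.br (nat_lit 3) (.cons (.rel (nat_lit 541065240)) (.cons (.rel (nat_lit 276824100)) (.cons (.rel (nat_lit 541066245)) .nil)))) (.cons (.br (nat_lit 4) (.cons (.rel (nat_lit 1077944352)) (.cons (.rel (nat_lit 1078002768)) (.cons (.rel (nat_lit 1078264320)) .nil)))) .nil))) (.node .leaf (nat_lit 16461601528408364) (.br (nat_lit 0) (.cons (.br (nat_lit 1) (.cons (.rel (nat_lit 27263040)) .nil)) .nil)) .leaf)) (nat_lit 16461601528408991) (.br (nat_lit 0) (.cons (.br (nat_lit 4) (.cons (.rel (nat_lit 2155937796)) (.cons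 (.rel (nat_lit 1078005780)) .nil))) .nil)) (.node (.node (.node .leaf (nat_lit 16461635636519824) (.br (nat_lit 3) (.cons (.br (nat_lit 5) (.cons (.rel (nat_lit 4832362512)) (.cons (.rel (nat_lit 4563407892)) (.cons (.rel (nat_lit 4563408897)) .nil)))) .nil)) .leaf) (nat_lit 16461635762256754) (.br (nat_lit 0) (.cons (.br (nat_lit 6) (.cons (.rel (nat_lit 17188258320)) (.cons (.rel (nat_lit 17188258320)) .nil))) .nil)) .leaf) (nat_lit 16461635762256777) (.br (nat_lit 0) (.cons (.br (nat_lit 5) (.cons (.rel (nat_lit 4299292800)) (.cons (.rel (nat_lit 4299161685)) (.cons (.rel (nat_lit 4299161685)) (.cons (.rel (nat_lit 4299229185)) .nil))))) (.cons (.br (nat_lit 3) (.cons (.rel (nat_lit 273699840)) (.cons (.rel (nat_lit 272662800)) (.cons (.rel (nat_lit 272908305)) .nil)))) (.cons (.br (nat_lit 3) (.cons (.rel (nat_lit 272636256)) (.cons (.rel (nat_lit 272908305)) (.cons (.rel (nat_lit 272695617)) .nil)))) .nil)))) (.node .leaf (nat_lit 16461635762256799) (.br (nat_lit 0) (.cons (.br (nat_lit 3) (.cons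 (.rel (nat_lit 541066245)) .nil)) .nil)) .leaf))) (nat_lit 16461635791608743) (.br (nat_lit 0) (.cons (.br (nat_lit 3) (.cons (.rel (nat_lit 541066245)) .nil)) .nil)) (.node (.node (.node (.node .leaf (nat_lit 16461635888147344) (.br (nat_lit 0) (.cons (.br (nat_lit 4) (.cons (.rel (nat_lit 1077936273)) .nil)) .nil)) .leaf) (nat_lit 16461670105209744) (.br (nat_lit 4) (.cons (.br (nat_lit 0) (.cons (.rel (nat_lit 2155876368)) (.cons (.rel (nat_lit 1077944352)) .nil))) .nil)) .leaf) (nat_lit 16461670151347088) (.br (nat_lit 0) (.cons (.br (nat_lit 3) (.cons (.rel (nat_lit 541066245)) (.cons (.rel (nat_lit 276825105)) .nil))) (.cons (.br (nat_lit 3) (.cons (.rel (nat_lit 276824100)) (.cons (.rel (nat_lit 274202880)) .nil))) .nil))) (.node .leaf (nat_lit 16461670151355269) (.br (nat_lit 3) (.cons (.br (nat_lit 0) (.cons (.rel (nat_lit 541066245)) (.cons (.rel (nat_lit 276824100)) .nil))) .nil)) .leaf)) (nat_lit 16461670151355303) (.br (nat_lit 0) (.cons (.br (nat_lit 5) (.cons (.rel (nat_lit 4299178017))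 (.cons (.rel (nat_lit 8598388800)) .nil))) .nil)) (.node (.node .leaf (nat_lit 16461670247885705) (.br (nat_lit 4) (.cons (.br (nat_lit 0) (.cons (.rel (nat_lit 1077944352)) (.cons (.rel (nat_lit 1077968901)) (.cons (.rel (nat_lit 1077940290)) .nil)))) (.cons (.br (nat_lit 0) (.cons (.rel (nat_lit 1078067208)) (.cons (.rel (nat_lit 1078005780)) (.cons (.rel (nat_lit 2155876368)) .nil)))) .nil))) .leaf) (nat_lit 16461859226430375) (.br (nat_lit 3) (.cons (.br (nat_lit 4) (.cons (.rel (nat_lit 2684371968)) .nil)) .nil)) (.node .leaf (nat_lit 16461859226438559) (.br (nat_lit 0) (.cons (.br (nat_lit 5) (.cons (.rel (nat_lit 4299178017)) .nil)) .nil)) .leaf)))) (nat_lit 16462022183576434) (.br (nat_lit 0) (.cons (.br (nat_lit 5) (.cons (.rel (nat_lit 4299166752)) .nil)) .nil)) (.node (.node (.node (.node (.node .leaf (nat_lit 16462022183576457) (.br (nat_lit 0) (.cons (.br (nat_lit 3) (.cons (.rel (nat_lit 276825105)) (.cons (.rel (nat_lit 541066245)) .nil))) (.cons (.br (nat_lit 3) (.cons (.rel (nat_lit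 541066245)) (.cons (.rel (nat_lit 276825105)) .nil))) .nil))) .leaf) (nat_lit 16462022292528009) (.br (nat_lit 0) (.cons (.br (nat_lit 3) (.cons (.rel (nat_lit 276824100)) (.cons (.rel (nat_lit 541066245)) .nil))) .nil)) .leaf) (nat_lit 16462022309313394) (.br (nat_lit 3) (.cons (.br (nat_lit 5) (.cons (.rel (nat_lit 4833165312)) .nil)) .nil)) (.node .leaf (nat_lit 16462022309313424) (.br (nat_lit 0) (.cons (.br (nat_lit 3) (.cons (.rel (nat_lit 541066245)) (.cons (.rel (nat_lit 276824100)) .nil))) (.cons (.br (nat_lit 3) (.cons (.rel (nat_lit 276824100)) (.cons (.rel (nat_lit 272908305)) .nil))) .nil))) .leaf)) (nat_lit 16462022309313447) (.br (nat_lit 0) (.cons (.br (nat_lit 6) (.cons (.rel (nat_lit 17188258320)) (.cons (.rel (nat_lit 17188258320)) (.cons (.rel (nat_lit 17188258320)) (.cons (.rel (nat_lit 17188258320)) .nil))))) .nil)) (.node (.node .leaf (nat_lit 16462022435203984) (.br (nat_lit 0) (.cons (.br (nat_lit 3) (.cons (.rel (nat_lit 272695617)) (.cons (.rel (nat_lit 276824100)) .nil)))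 .nil)) .leaf) (nat_lit 16462056652266373) (.br (nat_lit 4) (.cons (.br (nat_lit 0) (.cons (.rel (nat_lit 1078067208)) (.cons (.rel (nat_lit 1077968901)) .nil))) .nil)) (.node .leaf (nat_lit 16462056698403702) (.br (nat_lit 0) (.cons (.br (nat_lit 5) (.cons (.rel (nat_lit 8594133264)) .nil)) .nil)) .leaf))) (nat_lit 16462056794942345) (.br (nat_lit 4) (.cons (.br (nat_lit 0) (.cons (.rel (nat_lit 2155876368)) (.cons (.rel (nat_lit 2155937796)) (.cons (.rel (nat_lit 2151940224)) .nil)))) .nil)) (.node (.node (.node (.node .leaf (nat_lit 16462056794942375) (.br (nat_lit 4) (.cons (.br (nat_lit 0) (.cons (.rel (nat_lit 2155876368)) (.cons (.rel (nat_lit 2155937796)) (.cons (.rel (nat_lit 2151940224)) .nil)))) .nil)) .leaf) (nat_lit 16462116672856976) (.br (nat_lit 0) (.cons (.br (nat_lit 4) (.cons (.rel (nat_lit 2155876368)) (.cons (.rel (nat_lit 1078067208)) .nil))) (.cons (.br (nat_lit 4) (.cons (.rel (nat_lit 1078005780)) (.cons (.rel (nat_lit 1077936273)) .nil))) .nil))) .leaf) (nat_lit 16462116798593951)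 (.br (nat_lit 0) (.cons (.br (nat_lit 5) (.cons (.rel (nat_lit 4299229185)) .nil)) .nil)) (.node .leaf (nat_lit 16462116827945872) (.br (nat_lit 0) (.cons (.br (nat_lit 3) (.cons (.rel (nat_lit 276824100)) (.cons (.rel (nat_lit 541066245)) (.cons (.rel (nat_lit 541066245)) .nil)))) (.cons (.br (nat_lit 4) (.cons (.rel (nat_lit 1078006785)) (.cons (.rel (nat_lit 1077944352)) .nil))) .nil))) .leaf)) (nat_lit 16462116827945895) (.br (nat_lit 0) (.cons (.br (nat_lit 5) (.cons (.rel (nat_lit 4300472592)) .nil)) .nil)) (.node (.node .leaf (nat_lit 16462116924468105) (.br (nat_lit 0) (.cons (.br (nat_lit 4) (.cons (.rel (nat_lit 1077944352)) .nil)) .nil)) .leaf) (nat_lit 16462116924468135) (.br (nat_lit 0) (.cons (.br (nat_lit 4) (.cons (.rel (nat_lit 1077944352)) .nil)) .nil)) (.node .leaf (nat_lit 16462116924484466) (.br (nat_lit 0) (.cons (.br (nat_lit 5) (.cons (.rel (nat_lit 4299292800)) (.cons (.rel (nat_lit 4299165702)) .nil))) .nil)) .leaf)))))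

/-- refutations 57 -/
def e57 : EX := (.node (.node (.node .leaf (nat_lit 16466298639481737) (.br (nat_lit 0) (.cons (.br (nat_lit 4) (.cons (.rel (nat_lit 1077944352)) .nil)) .nil)) .leaf) (nat_lit 16474287064988553) (.br (nat_lit 1) (.cons (.br (nat_lit 2) (.cons (.rel (nat_lit 83902980)) .nil)) .nil)) .leaf) (nat_lit 16479176287153010) (.br (nat_lit 0) (.cons (.br (nat_lit 4) (.cons (.rel (nat_lit 1077944352)) .nil)) .nil)) (.node (.node .leaf (nat_lit 16479176287161225) (.br (nat_lit 0) (.cons (.br (nat_lit 1) (.cons (.rel (nat_lit 38797440)) .nil)) .nil)) .leaf) (nat_lit 16479176534584201) (.br (nat_lit 4) (.cons (.br (nat_lit 0) (.cons (.rel (nat_lit 1078067208)) (.cons (.rel (nat_lit 1077936273)) .nil))) .nil)) .leaf))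

/-- refutations 58 -/
def e58 : EX := (.node (.node (.node (.node .leaf (nat_lit 21990289338644740) (.br (nat_lit 0) (.cons (.br (nat_lit 3) (.cons (.rel (nat_lit 272695617)) .nil)) .nil)) .leaf) (nat_lit 21990289368004864) (.br (nat_lit 0) (.cons (.br (nat_lit 2) (.cons (.rel (nat_lit 71303178)) .nil)) .nil)) .leaf) (nat_lit 21990289384782080) (.br (nat_lit 0) (.cons (.br (nat_lit 2) (.cons (.rel (nat_lit 71304228)) .nil)) .nil)) (.node (.node .leaf (nat_lit 21990323729770752) (.br (nat_lit 1) (.cons (.br (nat_lit 3) (.cons (.rel (nat_lit 285214752)) .nil)) .nil)) .leaf) (nat_lit 21990323729771746) (.br (nat_lit 0) (.cons (.br (nat_lit 1) (.cons (.rel (nat_lit 20971557)) .nil)) .nil)) .leaf)) (nat_lit 21990323729779938) (.br (nat_lit 3) (.cons (.br (nat_lit 0) (.cons (.rel (nat_lit 541065240)) (.cons (.rel (nat_lit 541066245)) .nil))) .nil)) (.node (.node (.node .leaf (nat_lit 21990323746557154) (.br (nat_lit 1) (.cons (.br (nat_lit 2) (.cons (.rel (nat_lit 100687872)) .nil)) .nil)) .leaf) (nat_lit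 21996039563707618) (.br (nat_lit 0) (.cons (.br (nat_lit 2) (.cons (.rel (nat_lit 71305233)) .nil)) .nil)) .leaf) (nat_lit 21997760490810594) (.br (nat_lit 0) (.cons (.br (nat_lit 2) (.cons (.rel (nat_lit 71304228)) .nil)) .nil)) (.node .leaf (nat_lit 22002044774208738) (.br (nat_lit 1) (.cons (.br (nat_lit 3) (.cons (.rel (nat_lit 570426384)) .nil)) .nil)) .leaf)))

/-- refutations 59 -/
def e59 : EX := (.node .leaf (nat_lit 22009156330040201) (.br (nat_lit 0) (.cons (.br (nat_lit 1) (.cons (.rel (nat_lit 20971557)) .nil)) .nil)) .leaf)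

/-- refutations 60 -/
def e60 : EX := (.node (.node (.node .leaf (nat_lit 22096903016332520) (.br (nat_lit 0) (.cons (.br (nat_lit 3) (.cons (.rel (nat_lit 276824100)) .nil)) .nil)) .leaf) (nat_lit 22109143695975656) (.br (nat_lit 0) (.cons (.br (nat_lit 1) (.cons (.rel (nat_lit 27263040)) (.cons (.rel (nat_lit 27263040)) .nil))) .nil)) .leaf) (nat_lit 22109203825516726) (.br (nat_lit 3) (.cons (.br (nat_lit 0) (.cons (.rel (nat_lit 272958468)) (.cons (.rel (nat_lit 274202880)) .nil))) .nil)) (.node (.node .leaf (nat_lit 22109203825517796) (.br (nat_lit 0) (.cons (.br (nat_lit 3) (.cons (.rel (nat_lit 272897040)) .nil)) .nil)) .leaf) (nat_lit 22109203890638056) (.br (nat_lit 0) (.cons (.br (nat_lit 3) (.cons (.rel (nat_lit 272646468)) .nil)) .nil)) .leaf))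

/-- refutations 61 -/
def e61 : EX := (.node (.node (.node (.node (.node .leaf (nat_lit 22113391691980008) (.br (nat_lit 0) (.cons (.br (nat_lit 1) (.cons (.rel (nat_lit 20988033)) .nil)) .nil)) .leaf) (nat_lit 22113434640934121) (.br (nat_lit 0) (.cons (.br (nat_lit 3) (.cons (.rel (nat_lit 276824100)) (.cons (.rel (nat_lit 541066245)) .nil))) .nil)) .leaf) (nat_lit 22113434640955652) (.br (nat_lit 3) (.cons (.br (nat_lit 5) (.cons (.rel (nat_lit 4563404880)) .nil)) .nil)) (.node .leaf (nat_lit 22113434643006701) (.br (nat_lit 3) (.cons (.br (nat_lit 0) (.cons (.rel (nat_lit 541066245)) (.cons (.rel (nat_lit 541065240)) .nil))) .nil)) .leaf)) (nat_lit 22113434672344290) (.br (nat_lit 1) (.cons (.br (nat_lit 5) (.cons (.rel (nat_lit 4313055297)) .nil)) .nil)) (.node (.node .leaf (nat_lit 22113469030032115) (.br (nat_lit 0) (.cons (.br (nat_lit 3) (.cons (.rel (nat_lit 276825105)) .nil)) .nil)) .leaf) (nat_lit 22113469032090850) (.br (nat_lit 0) (.cons (.br (nat_lit 1) (.cons (.rel (nat_lit 20972562))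 .nil)) .nil)) (.node .leaf (nat_lit 22113469046808836) (.br (nat_lit 0) (.cons (.br (nat_lit 3) (.cons (.rel (nat_lit 276825105)) (.cons (.rel (nat_lit 276824100)) .nil))) .nil)) .leaf))) (nat_lit 22113469048868066) (.br (nat_lit 0) (.cons (.br (nat_lit 2) (.cons (.rel (nat_lit 75759888)) .nil)) .nil)) (.node (.node (.node .leaf (nat_lit 22113692343167858) (.br (nat_lit 0) (.cons (.br (nat_lit 4) (.cons (.rel (nat_lit 2155876368)) .nil)) .nil)) .leaf) (nat_lit 22119069772155785) (.br (nat_lit 0) (.cons (.br (nat_lit 1) (.cons (.rel (nat_lit 20988033)) .nil)) .nil)) (.node .leaf (nat_lit 22120048919952617) (.br (nat_lit 0) (.cons (.br (nat_lit 3) (.cons (.rel (nat_lit 276824100)) .nil)) .nil)) .leaf)) (nat_lit 22120942275176704) (.br (nat_lit 1) (.cons (.br (nat_lit 2) (.cons (.rel (nat_lit 83902980)) .nil)) .nil)) (.node (.node .leaf (nat_lit 22120942275185391) (.br (nat_lit 0) (.cons (.br (nat_lit 1) (.cons (.rel (nat_lit 20972562)) .nil)) .nil)) .leaf) (nat_lit 22125284582569193) (.br (nat_lit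 0) (.cons (.br (nat_lit 1) (.cons (.rel (nat_lit 27263040)) .nil)) .nil)) (.node .leaf (nat_lit 22125288782089449) (.br (nat_lit 0) (.cons (.br (nat_lit 3) (.cons (.rel (nat_lit 541066245)) .nil)) .nil)) .leaf))))

/-- refutations 62 -/
def e62 : EX := (.node .leaf (nat_lit 22179575782554505) (.br (nat_lit 0) (.cons (.br (nat_lit 3) (.cons (.rel (nat_lit 272897040)) .nil)) .nil)) .leaf)

/-- refutations 63 -/
def e63 : EX := (.node (.node (.node .leaf (nat_lit 22183803387184365) (.br (nat_lit 0) (.cons (.br (nat_lit 2) (.cons (.rel (nat_lit 142606341)) .nil)) .nil)) .leaf) (nat_lit 22183837776260333) (.br (nat_lit 2) (.cons (.br (nat_lit 3) (.cons (.rel (nat_lit 335578176)) .nil)) .nil)) (.node .leaf (nat_lit 22183837776268514) (.br (nat_lit 0) (.cons (.br (nat_lit 3) (.cons (.rel (nat_lit 276824100)) .nil)) .nil)) .leaf)) (nat_lit 22183837790986500) (.br (nat_lit 2) (.cons (.br (nat_lit 5) (.cons (.rel (nat_lit 8657174544)) .nil)) .nil)) (.node (.node .leaf (nat_lit 22183837793045730) (.br (nat_lit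 3) (.cons (.br (nat_lit 0) (.cons (.rel (nat_lit 272897040)) (.cons (.rel (nat_lit 541065240)) .nil))) .nil)) .leaf) (nat_lit 22183837793045741) (.br (nat_lit 3) (.cons (.br (nat_lit 0) (.cons (.rel (nat_lit 541065240)) (.cons (.rel (nat_lit 541066245)) .nil))) .nil)) (.node .leaf (nat_lit 22195558855279853) (.br (nat_lit 0) (.cons (.br (nat_lit 3) (.cons (.rel (nat_lit 276824100)) .nil)) .nil)) .leaf)))

/-- refutations 64 -/
def e64 : EX := (.node (.node (.node (.node .leaf (nat_lit 22201428484586377) (.br (nat_lit 0) (.cons (.br (nat_lit 3) (.cons (.rel (nat_lit 272662800)) .nil)) .nil)) .leaf) (nat_lit 22201429934549049) (.br (nat_lit 1) (.cons (.br (nat_lit 2) (.cons (.rel (nat_lit 100663317)) .nil)) .nil)) (.node .leaf (nat_lit 22201438571838341) (.br (nat_lit 0) (.cons (.br (nat_lit 5) (.cons (.rel (nat_lit 4299178017)) .nil)) .nil)) .leaf)) (nat_lit 22208319695360905) (.br (nat_lit 1) (.cons (.br (nat_lit 6) (.cons (.rel (nat_lit 17213506569)) .nil)) .nil)) (.node (.node .leaf (nat_lit 22430527572434182)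 (.br (nat_lit 0) (.cons (.br (nat_lit 3) (.cons (.rel (nat_lit 276825105)) .nil)) .nil)) .leaf) (nat_lit 22430532327453298) (.br (nat_lit 0) (.cons (.br (nat_lit 1) (.cons (.rel (nat_lit 20971557)) .nil)) .nil)) (.node .leaf (nat_lit 22430532328781886) (.br (nat_lit 2) (.cons (.br (nat_lit 4) (.cons (.rel (nat_lit 1207960704)) .nil)) .nil)) .leaf))) (nat_lit 22430532328781976) (.br (nat_lit 1) (.cons (.br (nat_lit 4) (.cons (.rel (nat_lit 1090519554)) .nil)) .nil)) (.node (.node (.node .leaf (nat_lit 22430532328783110) (.br (nat_lit 0) (.cons (.br (nat_lit 1) (.cons (.rel (nat_lit 20973576)) .nil)) .nil)) .leaf) (nat_lit 22430532330308485) (.br (nat_lit 0) (.cons (.br (nat_lit 1) (.cons (.rel (nat_lit 27263040)) .nil)) .nil)) (.node .leaf (nat_lit 22441080767132274) (.br (nat_lit 0) (.cons (.br (nat_lit 1) (.cons (.rel (nat_lit 20971557)) .nil)) .nil)) .leaf)) (nat_lit 22441080767195793) (.br (nat_lit 0) (.cons (.br (nat_lit 2) (.cons (.rel (nat_lit 75759888)) .nil)) .nil)) (.node (.node .leaf (nat_lit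 22443360936271099) (.br (nat_lit 0) (.cons (.br (nat_lit 4) (.cons (.rel (nat_lit 1077957636)) .nil)) .nil)) .leaf) (nat_lit 22443364104842491) (.br (nat_lit 0) (.cons (.br (nat_lit 1) (.cons (.rel (nat_lit 20988033)) .nil)) .nil)) .leaf)))

/-- refutations 65 -/
def e65 : EX := (.node (.node (.node (.node .leaf (nat_lit 22518055028929792) (.br (nat_lit 6) (.cons (.br (nat_lit 0) (.cons (.rel (nat_lit 17184096264)) (.cons (.rel (nat_lit 34363932960)) .nil))) .nil)) .leaf) (nat_lit 22518089407472896) (.br (nat_lit 2) (.cons (.br (nat_lit 3) (.cons (.rel (nat_lit 335544354)) .nil)) .nil)) .leaf) (nat_lit 22519115480079023) (.br (nat_lit 0) (.cons (.br (nat_lit 2) (.cons (.rel (nat_lit 71372865)) .nil)) .nil)) (.node .leaf (nat_lit 22519115481294080) (.br (nat_lit 5) (.cons (.br (nat_lit 0) (.cons (.rel (nat_lit 4299166752)) (.cons (.rel (nat_lit 4299161685)) (.cons (.rel (nat_lit 4299166752)) .nil)))) .nil)) .leaf)) (nat_lit 22519115481554303) (.br (nat_lit 1) (.cons (.br (nat_lit 5) (.cons (.rel (nat_lit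 4312006992)) .nil)) .nil)) (.node (.node .leaf (nat_lit 22523464107711744) (.br (nat_lit 6) (.cons (.br (nat_lit 2) (.cons (.rel (nat_lit 17247502401)) (.cons (.rel (nat_lit 34426851348)) .nil))) .nil)) .leaf) (nat_lit 22523464110269073) (.br (nat_lit 0) (.cons (.br (nat_lit 3) (.cons (.rel (nat_lit 272662800)) .nil)) .nil)) (.node .leaf (nat_lit 22523464110775173) (.br (nat_lit 4) (.cons (.br (nat_lit 5) (.cons (.rel (nat_lit 10737745920)) .nil)) .nil)) .leaf)))

/-- refutations 66 -/
def e66 : EX := (.node .leaf (nat_lit 22564409773405065) (.br (nat_lit 0) (.cons (.br (nat_lit 1) (.cons (.rel (nat_lit 37753152)) (.cons (.rel (nat_lit 20976768)) .nil))) .nil)) .leaf)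

/-- refutations 68 -/
def e68 : EX := (.node (.node (.node .leaf (nat_lit 22641234690441251) (.br (nat_lit 3) (.cons (.br (nat_lit 6) (.cons (.rel (nat_lit 34896609348)) .nil)) .nil)) .leaf) (nat_lit 22641234690956045) (.br (nat_lit 0) (.cons (.br (nat_lit 3) (.cons (.rel (nat_lit 272662800)) (.cons (.rel (nat_lit 276824100)) .nil))) .nil)) .leaf) (nat_lit 22651923937100557) (.br (nat_lit 1) (.cons (.br (nat_lit 2) (.cons (.rel (nat_lit 100687872)) .nil)) .nil)) (.node .leaf (nat_lit 22651926533374114) (.br (nat_lit 2) (.cons (.br (nat_lit 3) (.cons (.rel (nat_lit 671088657)) .nil)) .nil)) .leaf))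

/-- refutations 69 -/
def e69 : EX := (.node (.node .leaf (nat_lit 22887482488580106) (.br (nat_lit 0) (.cons (.br (nat_lit 1) (.cons (.rel (nat_lit 20996112)) .nil)) .nil)) .leaf) (nat_lit 22887963524918153) (.br (nat_lit 4) (.cons (.br (nat_lit 3) (.cons (.rel (nat_lit 1342308384)) (.cons (.rel (nat_lit 2684371968)) .nil))) .nil)) (.node .leaf (nat_lit 22893237744757641) (.br (nat_lit 0) (.cons (.br (nat_lit 1) (.cons (.rel (nat_lit 20996112)) (.cons (.rel (nat_lit 20996112)) (.cons (.rel (nat_lit 27263040)) .nil)))) .nil)) .leaf))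

/-- refutations 70 -/
def e70 : EX := (.node (.node .leaf (nat_lit 22916069589045909) (.br (nat_lit 0) (.cons (.br (nat_lit 6) (.cons (.rel (nat_lit 17184064641)) .nil)) .nil)) .leaf) (nat_lit 22916253327351190) (.br (nat_lit 0) (.cons (.br (nat_lit 1) (.cons (.rel (nat_lit 20971557)) .nil)) .nil)) .leaf)

/-- refutations 73 -/
def e73 : EX := (.node (.node (.node (.node .leaf (nat_lit 24630143978285968) (.br (nat_lit 1) (.cons (.br (nat_lit 4) (.cons (.rel (nat_lit 2164277280)) .nil)) .nil)) .leaf) (nat_lit 24630143978294149) (.br (nat_lit 1) (.cons (.br (nat_lit 2) (.cons (.rel (nat_lit 100664322)) .nil)) .nil)) (.node .leaf (nat_lit 24634430356669816) (.br (nat_lit 2) (.cons (.br (nat_lit 6) (.cons (.rel (nat_lit 17249077248)) .nil)) .nil)) .leaf)) (nat_lit 24634432432841609) (.br (nat_lit 1) (.cons (.br (nat_lit 2) (.cons (.rel (nat_lit 150996993)) (.cons (.rel (nat_lit 150996993)) .nil))) .nil)) (.node (.node .leaf (nat_lit 24634432432857989) (.br (nat_lit 2) (.cons (.br (nat_lit 5) (.cons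 (.rel (nat_lit 4429186116)) .nil)) .nil)) .leaf) (nat_lit 24634524816582008) (.br (nat_lit 2) (.cons (.br (nat_lit 5) (.cons (.rel (nat_lit 4429250592)) .nil)) .nil)) .leaf)) (nat_lit 24636589026794373) (.br (nat_lit 1) (.cons (.br (nat_lit 4) (.cons (.rel (nat_lit 1090519554)) .nil)) .nil)) (.node (.node (.node .leaf (nat_lit 24642035043790207) (.br (nat_lit 0) (.cons (.br (nat_lit 2) (.cons (.rel (nat_lit 71305233)) .nil)) .nil)) .leaf) (nat_lit 24642036615863184) (.br (nat_lit 1) (.cons (.br (nat_lit 5) (.cons (.rel (nat_lit 4328521824)) (.cons (.rel (nat_lit 8606744580)) .nil))) .nil)) (.node .leaf (nat_lit 24642036615871365) (.br (nat_lit 1) (.cons (.br (nat_lit 2) (.cons (.rel (nat_lit 150996993)) (.cons (.rel (nat_lit 100664322)) .nil))) .nil)) .leaf)) (nat_lit 24642036662000528) (.br (nat_lit 1) (.cons (.br (nat_lit 4) (.cons (.rel (nat_lit 2164277280)) (.cons (.rel (nat_lit 1090519554)) .nil))) (.cons (.br (nat_lit 5) (.cons (.rel (nat_lit 4328521824)) (.cons (.rel (nat_lit 8606744580))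 .nil))) .nil))) (.node (.node .leaf (nat_lit 24642036662008709) (.br (nat_lit 1) (.cons (.br (nat_lit 2) (.cons (.rel (nat_lit 150996993)) (.cons (.rel (nat_lit 100664322)) .nil))) (.cons (.br (nat_lit 2) (.cons (.rel (nat_lit 100664322)) (.cons (.rel (nat_lit 100664322)) .nil))) .nil))) .leaf) (nat_lit 24642036662023049) (.br (nat_lit 4) (.cons (.br (nat_lit 2) (.cons (.rel (nat_lit 1141440528)) (.cons (.rel (nat_lit 2214597636)) (.cons (.rel (nat_lit 1140851220)) .nil)))) (.cons (.br (nat_lit 1) (.cons (.rel (nat_lit 1091059713)) (.cons (.rel (nat_lit 1090519554)) (.cons (.rel (nat_lit 1090519554)) (.cons (.rel (nat_lit 1091048448)) .nil))))) .nil))) .leaf)))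

/-- refutations 74 -/
def e74 : EX := (.node .leaf (nat_lit 24817885710422921) (.br (nat_lit 0) (.cons (.br (nat_lit 1) (.cons (.rel (nat_lit 27263040)) .nil)) .nil)) .leaf)

/-- refutations 75 -/
def e75 : EX := (.node (.node (.node (.node .leaf (nat_lit 24824817682721669) (.br (nat_lit 6) (.cons (.br (nat_lit 4) (.cons (.rel (nat_lit 19327353888)) (.cons (.rel (nat_lit 18253619712)) .nil))) .nil)) .leaf) (nat_lit 24824817683752192) (.br (nat_lit 0) (.cons (.br (nat_lit 1) (.cons (.rel (nat_lit 20971557)) .nil)) .nil)) (.node .leaf (nat_lit 24824817683752319) (.br (nat_lit 1) (.cons (.br (nat_lit 5) (.cons (.rel (nat_lit 4328538120)) (.cons (.rel (nat_lit 4328538120)) .nil))) (.cons (.br (nat_lit 4) (.cons (.rel (nat_lit 1090519554)) (.cons (.rel (nat_lit 2164328448)) .nil))) .nil))) .leaf)) (nat_lit 24827946479330185) (.br (nat_lit 1) (.cons (.br (nat_lit 2) (.cons (.rel (nat_lit 100663317)) .nil)) .nil)) (.node (.node .leaf (nat_lit 24828040968610704) (.br (nat_lit 1) (.cons (.br (nat_lit 4)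 (.cons (.rel (nat_lit 1090519554)) .nil)) .nil)) .leaf) (nat_lit 24828040968618885) (.br (nat_lit 1) (.cons (.br (nat_lit 2) (.cons (.rel (nat_lit 150996993)) .nil)) .nil)) .leaf)) (nat_lit 24835481942875017) (.br (nat_lit 4) (.cons (.br (nat_lit 1) (.cons (.rel (nat_lit 1090519554)) (.cons (.rel (nat_lit 1090519554)) (.cons (.rel (nat_lit 1090519554)) (.cons (.rel (nat_lit 1090519554)) .nil))))) (.cons (.br (nat_lit 1) (.cons (.rel (nat_lit 2181038337)) (.cons (.rel (nat_lit 1090519554)) (.cons (.rel (nat_lit 1090519554)) (.cons (.br (nat_lit 2) (.cons (.rel (nat_lit 100664322)) (.cons (.rel (nat_lit 150996993)) (.cons (.rel (nat_lit 1140851220)) (.cons (.rel (nat_lit 1142165568)) .nil))))) .nil))))) .nil))) (.node (.node (.node .leaf (nat_lit 24835481942883216) (.br (nat_lit 4) (.cons (.br (nat_lit 1) (.cons (.rel (nat_lit 2164277280)) (.cons (.rel (nat_lit 1090519554)) .nil))) .nil)) .leaf) (nat_lit 24835481942897541) (.br (nat_lit 1) (.cons (.br (nat_lit 2) (.cons (.rel (nat_lit 100664322)) (.cons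 (.rel (nat_lit 100664322)) .nil))) (.cons (.br (nat_lit 2) (.cons (.rel (nat_lit 150996993)) (.cons (.rel (nat_lit 100664322)) .nil))) .nil))) .leaf) (nat_lit 24835481959652233) (.br (nat_lit 4) (.cons (.br (nat_lit 5) (.cons (.rel (nat_lit 5369364480)) (.cons (.rel (nat_lit 5369364480)) (.cons (.rel (nat_lit 5369364480)) .nil)))) .nil)) (.node (.node .leaf (nat_lit 24835481959660432) (.br (nat_lit 1) (.cons (.br (nat_lit 4) (.cons (.rel (nat_lit 2164277280)) .nil)) .nil)) .leaf) (nat_lit 24835481959674757) (.br (nat_lit 1) (.cons (.br (nat_lit 2) (.cons (.rel (nat_lit 100664322)) (.cons (.rel (nat_lit 100664322)) .nil))) .nil)) .leaf)))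

/-- refutations 76 -/
def e76 : EX := (.node (.node (.node .leaf (nat_lit 25087579485653769) (.br (nat_lit 6) (.cons (.br (nat_lit 3) (.cons (.rel (nat_lit 34896609348)) (.cons (.rel (nat_lit 34896609348)) .nil))) .nil)) .leaf) (nat_lit 25087579485654422) (.br (nat_lit 0) (.cons (.br (nat_lit 5) (.cons (.rel (nat_lit 4299180036)) (.cons (.rel (nat_lit 8594194692)) .nil))) .nil)) (.node .leaf (nat_lit 25094458224202984) (.br (nat_lit 1) (.cons (.br (nat_lit 4) (.cons (.rel (nat_lit 1090519554)) .nil)) .nil)) .leaf)) (nat_lit 25099781364809110) (.br (nat_lit 0) (.cons (.br (nat_lit 3) (.cons (.rel (nat_lit 272762112)) .nil)) .nil)) (.node (.node .leaf (nat_lit 25099815706449302) (.br (nat_lit 0) (.cons (.br (nat_lit 6) (.cons (.rel (nat_lit 17184079968)) .nil)) .nil)) .leaf) (nat_lit 25099875853835670) (.br (nat_lit 0) (.cons (.br (nat_lit 4) (.cons (.rel (nat_lit 1078005780)) .nil)) .nil)) .leaf))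

/-- refutations 77 -/
def e77 : EX := (.node (.node (.node .leaf (nat_lit 25156917943915926) (.br (nat_lit 0) (.cons (.br (nat_lit 1) (.cons (.rel (nat_lit 20971557)) .nil)) .nil)) .leaf) (nat_lit 25156917943915933) (.br (nat_lit 0) (.cons (.br (nat_lit 1) (.cons (.rel (nat_lit 27263040)) .nil)) .nil)) .leaf) (nat_lit 25157948232430998) (.br (nat_lit 0) (.cons (.br (nat_lit 3) (.cons (.rel (nat_lit 541065240)) .nil)) .nil)) (.node (.node .leaf (nat_lit 25164794913936790) (.br (nat_lit 3) (.cons (.br (nat_lit 4) (.cons (.rel (nat_lit 1342283793)) .nil)) .nil)) .leaf) (nat_lit 25169115145104265) (.br (nat_lit 6) (.cons (.br (nat_lit 0) (.cons (.rel (nat_lit 17186422848)) (.cons (.rel (nat_lit 17184064641)) .nil))) .nil)) .leaf))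

/-- refutations 78 -/
def e78 : EX := (.node .leaf (nat_lit 25269916317014198) (.br (nat_lit 0) (.cons (.br (nat_lit 1) (.cons (.rel (nat_lit 41944068)) .nil)) .nil)) .leaf)

/-- refutations 81 -/
def e81 : EX := (.node .leaf (nat_lit 26829690255455113) (.br (nat_lit 1) (.cons (.br (nat_lit 2) (.cons (.rel (nat_lit 100794432)) .nil)) .nil)) .leaf)

/-- refutations 82 -/
def e82 : EX := (.node (.node (.node (.node .leaf (nat_lit 26863577899299721) (.br (nat_lit 0) (.cons (.br (nat_lit 3) (.cons (.rel (nat_lit 272762112)) .nil)) .nil)) .leaf) (nat_lit 26865416728701585) (.br (nat_lit 6) (.cons (.br (nat_lit 2) (.cons (.rel (nat_lit 17249077248)) (.cons (.rel (nat_lit 17247256896)) .nil))) .nil)) .leaf) (nat_lit 26865513357084827) (.br (nat_lit 2) (.cons (.br (nat_lit 6) (.cons (.rel (nat_lit 17249077248)) .nil)) .nil)) (.node (.node .leaf (nat_lit 26868640580852613) (.br (nat_lit 2) (.cons (.br (nat_lit 5) (.cons (.rel (nat_lit 8724168960)) .nil)) .nil)) .leaf) (nat_lit 26869730979974375) (.br (nat_lit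 0) (.cons (.br (nat_lit 4) (.cons (.rel (nat_lit 1077940290)) .nil)) .nil)) .leaf)) (nat_lit 26869730982429329) (.br (nat_lit 1) (.cons (.br (nat_lit 6) (.cons (.rel (nat_lit 17197187076)) (.cons (.rel (nat_lit 17198743572)) .nil))) (.cons (.br (nat_lit 0) (.cons (.rel (nat_lit 41944068)) (.cons (.rel (nat_lit 20972562)) (.cons (.rel (nat_lit 20972562)) (.cons (.rel (nat_lit 20972562)) (.cons (.rel (nat_lit 20973576)) .nil)))))) .nil))) (.node (.node (.node .leaf (nat_lit 26869730982808304) (.br (nat_lit 0) (.cons (.br (nat_lit 2) (.cons (.rel (nat_lit 71305233)) .nil)) .nil)) .leaf) (nat_lit 26869733075409051) (.br (nat_lit 1) (.cons (.br (nat_lit 2) (.cons (.rel (nat_lit 100664322)) .nil)) .nil)) .leaf) (nat_lit 26869733075409058) (.br (nat_lit 1) (.cons (.br (nat_lit 2) (.cons (.rel (nat_lit 100663317)) .nil)) .nil)) (.node .leaf (nat_lit 26874015251454107) (.br (nat_lit 1) (.cons (.br (nat_lit 5) (.cons (.rel (nat_lit 8606715969)) (.cons (.rel (nat_lit 4328538120)) .nil))) .nil)) .leaf)))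

/-- refutations 83 -/
def e83 : EX := (.node (.node (.node (.node .leaf (nat_lit 27006250828654743) (.br (nat_lit 6) (.cons (.br (nat_lit 2) (.cons (.br (nat_lit 1) (.cons (.rel (nat_lit 100663317)) (.cons (.rel (nat_lit 100664322)) .nil))) (.cons (.rel (nat_lit 17249077248)) (.cons (.rel (nat_lit 17246979588)) .nil)))) .nil)) .leaf) (nat_lit 27006252903553929) (.br (nat_lit 1) (.cons (.br (nat_lit 4) (.cons (.rel (nat_lit 1090519554)) .nil)) .nil)) (.node .leaf (nat_lit 27010504940257435) (.br (nat_lit 1) (.cons (.br (nat_lit 2) (.cons (.rel (nat_lit 100663317)) (.cons (.rel (nat_lit 83902980)) (.cons (.rel (nat_lit 151031808)) .nil)))) .nil)) .leaf)) (nat_lit 27010504940257442) (.br (nat_lit 5) (.cons (.br (nat_lit 6) (.cons (.rel (nat_lit 42949951488)) .nil)) .nil)) (.node (.node .leaf (nat_lit 27010537223570309) (.br (nat_lit 2) (.cons (.br (nat_lit 4) (.cons (.rel (nat_lit 1141392384)) .nil)) .nil)) .leaf) (nat_lit 27014752785938583) (.br (nat_lit 1) (.cons (.br (nat_lit 5) (.cons (.rel (nat_lit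 8623752192)) .nil)) .nil)) .leaf)) (nat_lit 27014756955077269) (.br (nat_lit 2) (.cons (.br (nat_lit 6) (.cons (.rel (nat_lit 34426912776)) .nil)) .nil)) (.node (.node (.node .leaf (nat_lit 27014787128885403) (.br (nat_lit 1) (.cons (.br (nat_lit 6) (.cons (.rel (nat_lit 17197187076)) .nil)) .nil)) .leaf) (nat_lit 27014787131979803) (.br (nat_lit 2) (.cons (.br (nat_lit 3) (.cons (.rel (nat_lit 402980880)) .nil)) .nil)) .leaf) (nat_lit 27270135836593678) (.br (nat_lit 1) (.cons (.br (nat_lit 4) (.cons (.rel (nat_lit 2164260948)) .nil)) .nil)) (.node (.node .leaf (nat_lit 27274608993424910) (.br (nat_lit 4) (.cons (.br (nat_lit 6) (.cons (.rel (nat_lit 35433480201)) .nil)) .nil)) .leaf) (nat_lit 27274643319586329) (.br (nat_lit 0) (.cons (.br (nat_lit 1) (.cons (.br (nat_lit 3) (.cons (.rel (nat_lit 285212697)) .nil)) .nil)) .nil)) .leaf)))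

/-- refutations 84 -/
def e84 : EX := (.node (.node (.node (.node (.node .leaf (nat_lit 27391085950294921) (.br (nat_lit 4) (.cons (.br (nat_lit 5) (.cons (.rel (nat_lit 6442460160)) .nil)) .nil)) .leaf) (nat_lit 27393278319056405) (.br (nat_lit 1) (.cons (.br (nat_lit 4) (.cons (.rel (nat_lit 2181038337)) .nil)) .nil)) .leaf) (nat_lit 27393281138635657) (.br (nat_lit 6) (.cons (.br (nat_lit 0) (.cons (.rel (nat_lit 17185378560)) (.cons (.rel (nat_lit 17184079968)) (.cons (.rel (nat_lit 34363932960)) (.cons (.rel (nat_lit 17188258320)) .nil))))) .nil)) (.node .leaf (nat_lit 27393281138636302) (.br (nat_lit 0) (.cons (.br (nat_lit 6) (.cons (.rel (nat_lit 17184072720)) .nil)) .nil)) .leaf)) (nat_lit 27393281139206449) (.br (nat_lit 5) (.cons (.br (nat_lit 6) (.cons (.rel (nat_lit 21474842112)) .nil)) .nil)) (.node (.node (.node .leaf (nat_lit 27393281139964561) (.br (nat_lit 2) (.cons (.br (nat_lit 6) (.cons (.rel (nat_lit 17247256896)) .nil)) .nil)) .leaf) (nat_lit 27393281139965454) (.br (nat_lit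 0) (.cons (.br (nat_lit 2) (.cons (.rel (nat_lit 71305233)) .nil)) .nil)) .leaf) (nat_lit 27393281140478857) (.br (nat_lit 6) (.cons (.br (nat_lit 0) (.cons (.rel (nat_lit 17184072720)) (.cons (.rel (nat_lit 34363932960)) .nil))) .nil)) (.node .leaf (nat_lit 27393281141308297) (.br (nat_lit 0) (.cons (.br (nat_lit 3) (.cons (.rel (nat_lit 541066245)) .nil)) .nil)) .leaf))) (nat_lit 27393281141308698) (.br (nat_lit 1) (.cons (.br (nat_lit 6) (.cons (.rel (nat_lit 17196646917)) .nil)) .nil)) (.node (.node (.node (.node .leaf (nat_lit 27393459332017033) (.br (nat_lit 0) (.cons (.br (nat_lit 3) (.cons (.rel (nat_lit 272646468)) .nil)) .nil)) .leaf) (nat_lit 27397524566895497) (.br (nat_lit 1) (.cons (.br (nat_lit 3) (.cons (.rel (nat_lit 285234240)) (.cons (.rel (nat_lit 570426384)) .nil))) .nil)) .leaf) (nat_lit 27397541746764681) (.br (nat_lit 3) (.cons (.br (nat_lit 0) (.cons (.rel (nat_lit 276824100)) (.cons (.rel (nat_lit 274202880)) .nil))) .nil)) (.node .leaf (nat_lit 27398011849309710) (.br (nat_lit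 0) (.cons (.br (nat_lit 2) (.cons (.rel (nat_lit 72880128)) .nil)) .nil)) .leaf)) (nat_lit 27398853268895253) (.br (nat_lit 0) (.cons (.br (nat_lit 2) (.cons (.rel (nat_lit 76562688)) .nil)) .nil)) (.node (.node .leaf (nat_lit 27402261773966862) (.br (nat_lit 3) (.cons (.br (nat_lit 0) (.cons (.rel (nat_lit 272958468)) (.cons (.rel (nat_lit 541066245)) .nil))) .nil)) .leaf) (nat_lit 27404451200654217) (.br (nat_lit 0) (.cons (.br (nat_lit 3) (.cons (.rel (nat_lit 272891973)) .nil)) .nil)) (.node .leaf (nat_lit 27404451202504960) (.br (nat_lit 5) (.cons (.br (nat_lit 6) (.cons (.rel (nat_lit 25769803842)) .nil)) .nil)) .leaf))))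

/-- refutations 85 -/
def e85 : EX := (.node (.node (.node .leaf (nat_lit 27463555393801753) (.br (nat_lit 4) (.cons (.br (nat_lit 3) (.cons (.rel (nat_lit 1342185492)) (.cons (.rel (nat_lit 1611202593)) .nil))) .nil)) .leaf) (nat_lit 27463555396206094) (.br (nat_lit 2) (.cons (.br (nat_lit 3) (.cons (.rel (nat_lit 335545368)) .nil)) .nil)) (.node .leaf (nat_lit 27463556345908761) (.br (nat_lit 0) (.cons (.br (nat_lit 2) (.cons (.rel (nat_lit 71303178)) .nil)) .nil)) .leaf)) (nat_lit 27463649883082265) (.br (nat_lit 1) (.cons (.br (nat_lit 4) (.cons (.rel (nat_lit 1107329040)) (.cons (.rel (nat_lit 2164260948)) .nil))) .nil)) (.node (.node .leaf (nat_lit 27468380593487385) (.br (nat_lit 0) (.cons (.br (nat_lit 3) (.cons (.rel (nat_lit 276825105)) .nil)) .nil)) .leaf) (nat_lit 27473695138700825) (.br (nat_lit 0) (.cons (.br (nat_lit 3) (.cons (.rel (nat_lit 541149264)) .nil)) .nil)) .leaf))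

/-- list of the parts -/
def L0 : List (ℕ × List ℕ) := [(nat_lit 0x30, [cP]),
  (nat_lit 0x40, [cP]),
  (nat_lit 0xa00, [cP]),
  (nat_lit 0x420000000, [cP]),
  (nat_lit 0x8800000000, [cP]),
  (nat_lit 0x10000000000, [cP]),
  (nat_lit 0x80000000000000, [cP]),
  (nat_lit 0x100000000000000, [cP]),
  (nat_lit 0x60000000000000000, [cP]),
  (nat_lit 0x18000000000000000000000000000000000, [cP]),
  (nat_lit 0x100000000000000000000000000000000000, [cP]),
  (nat_lit 0x200000000000000000000000000000000000, [cP]),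
  (nat_lit 0x400000000000000000000000000000000000000, [cP]),
  (nat_lit 0x800000000000000000000000000000000000000, [cP]),
  (nat_lit 0x8000000000000000000000000000000000000000, [cP]),
  (nat_lit 0x10000000000000000000000000000000000000000, [cP]),
  (nat_lit 0x120000000000000000000000000000000000000000, [cP]),
  (nat_lit 0x400000000000000000000000000000000000000000, [cP]),
  (nat_lit 0x1800000000000000000000000000000000000000000000, [cP]),
  (nat_lit 0x30000000000000000000000000000000000000000000000, [cP]),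
  (nat_lit 0x10000000000000000040000000000000000000000000000000000000000000000, [cP]),
  (nat_lit 0x3000000000000000000000000000000000000000000000000000000000000000000, [cP]),
  (nat_lit 0x20000108004000000000000000000000000000000000000000000000000000000000000000000, [cP]),
  (nat_lit 0x4800000000000000000000000000000000000000000000000000000000000000000000000000000, [cP]),
  (nat_lit 0x1800000000000000000000000000000000000000000000000000000000000000000000000000000000000000000000000000000000000000000000000000000000000000000000000000000000000000, [cP]),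
  (nat_lit 0x40000000000000000000000000000000000000000000000000000000000000000000000000000000000000000000000000000000000000000000000000000000000000000000000000000000000000000000, [Nat.sub (Nat.pow 2 265) (Nat.pow 2 0), Nat.sub (Nat.pow 2 760) (Nat.pow 2 265), Nat.sub (Nat.pow 2 935) (Nat.pow 2 760), Nat.sub (Nat.pow 2 1315) (Nat.pow 2 935), Nat.sub (Nat.pow 2 3136) (Nat.pow 2 1315)]),
  (nat_lit 0x1000010000000000000000000000000000000000000000000000000000000000000000000000000000000000000000000000000000000000000000000000000000000000000000000000000000000000000000, [cP]),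
  (nat_lit 0x20000000000000000000000000000000000000000000000000000000000000000000000000000000000000000000000000000000000000000000000000000000000000000000000000000000000000000000000, [cP]),
  (nat_lit 0x100040000000000000000000000000000000000000000000000000000000000000000000000000000000000000000000000000000000000000000000000000000000000000000000000000000000000000000000000, [cP]),
  (nat_lit 0x200000000000000000000000000000000000000000000000000000000000000000000000000000000000000000000000000000000000000000000000000000000000000000000000000000000000000000000000000, [cP]),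
  (nat_lit 0x2000000000000000000000000000000000000000000000000000000000000000000000000000000000000000000000000000000000000000000000000000000000000000000000000000000000000000000000000000, [cP]),
  (nat_lit 0x44000000000000000000000000000000000000000000000000000000000000000000000000000000000000000000000000000000000000000000000000000000000000000000000000000000000000000000000000000, [cP]),
  (nat_lit 0x80000000000000000000000000000000000000000000000000000000000000000000000000000000000000000000000000000000000000000000000000000000000000000000000000000000000000000000000000000, [cP]),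
  (nat_lit 0x1800000000000000000000000000000000000000000000000000000000000000000000000000000000000000000000000000000000000000000000000000000000000000000000000000000000000000000000000000000000000000000000, [cP]),
  (nat_lit 0x220000000000000000000000000000000000000000000000000000000000000000000000000000000000000000000000000000000000000000000000000000000000000000000000000000000000000000000000000000000000000000000000, [cP]),
  (nat_lit 0x1000400000000000000000000000000000000000000000000000000000000000000000000000000000000000000000000000000000000000000000000000000000000000000000000000000000000000000000000000000000000000000000000000, [cP]),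
  (nat_lit 0x42000000000000000000000000000000000000000000000000000000000000000000000000000000000000000000000000000000000000000000000000000000000000000000000000000000000000000000000000000000000000000000000000000, [cP]),
  (nat_lit 0x200000000000000000000000000000000000000000000000000000000000000000000000000000000000000000000000000000000000000000000000000000000000000000000000000000000000000000000000000000000000000000000000000000, [cP]),
  (nat_lit 0x8000000000000000000000000000000000000000000000000000000000000000000000000000000000000000000000000000000000000000000000000000000000000000000000000000000000000000000000000000000000000000000000000000000000000000000000000000, [cP]),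
  (nat_lit 0x20000000000000000000000000000000000000000000000000000000000000000000000000000000000000000000000000000000000000000000000000000000000000000000000000000000000000000000000000000000000000000000000000000000000000000000000000000, [cP]),
  (nat_lit 0x200000000000000000000000000000000000000000000000000000000000000000000000000000000000000000000000000000000000000000000000000000000000000000000000000000000000000000000000000000000000000000000000000000000000000000000000000000, [cP]),
  (nat_lit 0x400000000000000000000000000000000000000000000000000000000000000000000000000000000000000000000000000000000000000000000000000000000000000000000000000000000000000000000000000000000000000000000000000000000000000000000000000000, [cP]),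
  (nat_lit 0x20000000000000000000000000000000000000000000000000000000000000000000000000000000000000000000000000000000000000000000000000000000000000000000000000000000000000000000000000000000000000000000000000000000000000000000000000000000000, [cP]),
  (nat_lit 0x200000000000000000000000000000000000000000000000000000000000000000000000000000000000000000000000000000000000000000000000000000000000000000000000000000000000000000000000000000000000000000000000000000000000000000000000000000000000, [Nat.sub (Nat.pow 2 284) (Nat.pow 2 0), Nat.sub (Nat.pow 2 779) (Nat.pow 2 284), Nat.sub (Nat.pow 2 1286) (Nat.pow 2 779), Nat.sub (Nat.pow 2 1510) (Nat.pow 2 1286), Nat.sub (Nat.pow 2 3136) (Nat.pow 2 1510)]),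
  (nat_lit 0x8040000000000000000000000000000000000000000000000000000000000000000000000000000000000000000000000000000000000000000000000000000000000000000000000000000000000000000000000000000000000000000000000000000000000000000000000000000000000, [cP]),
  (nat_lit 0x10000000000000000000000000000000000000000000000000000000000000000000000000000000000000000000000000000000000000000000000000000000000000000000000000000000000000000000000000000000000000000000000000000000000000000000000000000000000000, [cP]),
  (nat_lit 0xc0000000000000000000000000000000000000000000000000000000000000000000000000000000000000000000000000000000000000000000000000000000000000000000000000000000000000000000000000000000000000000000000000000000000000000000000000000000000000000, [cP]),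
  (nat_lit 0x1800000000000000000000000000000000000000000000000000000000000000000000000000000000000000000000000000000000000000000000000000000000000000000000000000000000000000000000000000000000000000000000000000000000000000000000000000000000000000000, [cP]),
  (nat_lit 0x8000000000000000000000000000000000000000000000000000000000000000000000000000000000000000000000000000000000000000000000000000000000000000000000000000000000000000000000000000000000000000000000000000000000000000000000000000000000000000000, [cP]),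
  (nat_lit 0x10000000000000000000000000000000000000000000000000000000000000000000000000000000000000000000000000000000000000000000000000000000000000000000000000000000000000000000000000000000000000000000000000000000000000000000000000000000000000000000, [cP]),
  (nat_lit 0x40000000000000000000000000000000000000000000000000000000000000000000000000000000000000000000000000000000000000000000000000000000000000000000000000000000000000000000000000000000000000000000000000000000000000000000000000000000000000000000000000000000000000000000000000000000000000000000000000000000000000000000000000, [cP]),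
  (nat_lit 0x80000000000000000000000000000000000000000000000000000000000000000000000000000000000000000000000000000000000000000000000000000000000000000000000000000000000000000000000000000000000000000000000000000000000000000000000000000000000000000000000000000000000000000000000000000000000000000000000000000000000000000000000000, [cP]),
  (nat_lit 0x1000000000000000000000000000000000000000000000000000000000000000000000000000000000000000000000000000000000000000000000000000000000000000000000000000000000000000000000000000000000000000000000000000000000000000000000000000000000000000000000000000000000000000000000000000000000000000000000000000000000000000000000000000, [cP]),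
  (nat_lit 0x2000000000000000000000000000000000000000000000000000000000000000000000000000000000000000000000000000000000000000000000000000000000000000000000000000000000000000000000000000000000000000000000000000000000000000000000000000000000000000000000000000000000000000000000000000000000000000000000000000000000000000000000000000, [cP]),
  (nat_lit 0x10000000000000000000000000000000000000000000000000000000000000000000000000000000000000000000000000000000000000000000000000000000000000000000000000000000000000000000000000000000000000000000000000000000000000000000000000000000000000000000000000000000000000000000000000000000000000000000000000000000000000000000000000000, [cP]),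
  (nat_lit 0x20000000000000000000000000000000000000000000000000000000000000000000000000000000000000000000000000000000000000000000000000000000000000000000000000000000000000000000000000000000000000000000000000000000000000000000000000000000000000000000000000000000000000000000000000000000000000000000000000000000000000000000000000000, [cP]),
  (nat_lit 0x80040000000000000000000000000000000000000000000000000000000000000000000000000000000000000000000000000000000000000000000000000000000000000000000000000000000000000000000000000000000000000000000000000000000000000000000000000000000000000000000000000000000000000000000000000000000000000000000000000000000000000000000000000000, [cP]),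
  (nat_lit 0x1000000000000000000000000000000000000000000000000000000000000000000000000000000000000000000000000000000000000000000000000000000000000000000000000000000000000000000000000000000000000000000000000000000000000000000000000000000000000000000000000000000000000000000000000000000000000000000000000000000000000000000000000000000000, [cP]),
  (nat_lit 0x4000000000000000000000000000000000000000000000000000000000000000000000000000000000000000000000000000000000000000000000000000000000000000000000000000000000000000000000000000000000000000000000000000000000000000000000000000000000000000000000000000000000000000000000000000000000000000000000000000000000000000000000000000000000, [cP]),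
  (nat_lit 0x20000000000000000000000000000000000000000000000000000000000000000000000000000000000000000000000000000000000000000000000000000000000000000000000000000000000000000000000000000000000000000000000000000000000000000000000000000000000000000000000000000000000000000000000000000000000000000000000000000000000000000000000000000000000, [cP]),
  (nat_lit 0x80000000000000000000000000000000000000000000000000000000000000000000000000000000000000000000000000000000000000000000000000000000000000000000000000000000000000000000000000000000000000000000000000000000000000000000000000000000000000000000000000000000000000000000000000000000000000000000000000000000000000000000000000000000000, [cP]),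
  (nat_lit 0x200000000000000000000000000000000000000000000000000000000000000000000000000000000000000000000000000000000000000000000000000000000000000000000000000000000000000000000000000000000000000000000000000000000000000000000000000000000000000000000000000000000000000000000000000000000000000000000000000000000000000000000000000000000000000, [cP]),
  (nat_lit 0x400000000000000000000000000000000000000000000000000000000000000000000000000000000000000000000000000000000000000000000000000000000000000000000000000000000000000000000000000000000000000000000000000000000000000000000000000000000000000000000000000000000000000000000000000000000000000000000000000000000000000000000000000000000000000, [cP]),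
  (nat_lit 0x8000000000000000000000000000000000000000000000000000000000000000000000000000000000000000000000000000000000000000000000000000000000000000000000000000000000000000000000000000000000000000000000000000000000000000000000000000000000000000000000000000000000000000000000000000000000000000000000000000000000000000000000000000000000000000, [cP]),
  (nat_lit 0x2000000000000000000000000000000000000000000000000000000000000000000000000000000000000000000000000000000000000000000000000000000000000000000000000000000000000000000000000000000000000000000000000000000000000000000000000000000000000000000000000000000000000000000000000000000000000000000000000000000000000000000000000000000000000000000000000000000000, [cP]),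
  (nat_lit 0x1000400000000000000000000000000000000000000000000000000000000000000000000000000000000000000000000000000000000000000000000000000000000000000000000000000000000000000000000000000000000000000000000000000000000000000000000000000000000000000000000000000000000000000000000000000000000000000000000000000000000000000000000000000000000000000000000000000000000000, [cP]),
  (nat_lit 0x404000000000000000000000000000000000000000000000000000000000000000000000000000000000000000000000000000000000000000000000000000000000000000000000000000000000000000000000000000000000000000000000000000000000000000000000000000000000000000000000000000000000000000000000000000000000000000000000000000000000000000000000000000000000000000000000000000000000000000, [cP]),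
  (nat_lit 0x800000000000000000000000000000000000000000000000000000000000000000000000000000000000000000000000000000000000000000000000000000000000000000000000000000000000000000000000000000000000000000000000000000000000000000000000000000000000000000000000000000000000000000000000000000000000000000000000000000000000000000000000000000000000000000000000000000000000000000, [cP]),
  (nat_lit 0x4000000000000000000000000000000000000000000000000000000000000000000000000000000000000000000000000000000000000000000000000000000000000000000000000000000000000000000000000000000000000000000000000000000000000000000000000000000000000000000000000000000000000000000000000000000000000000000000000000000000000000000000000000000000000000000000000000000000000000000000, [cP]),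
  (nat_lit 0xc0000000000000000000000000000000000000000000000000000000000000000000000000000000000000000000000000000000000000000000000000000000000000000000000000000000000000000000000000000000000000000000000000000000000000000000000000000000000000000000000000000000000000000000000000000000000000000000000000000000000000000000000000000000000000000000000000000000000000000000000, [cP]),
  (nat_lit 0x1100000000000000000000000000000000000000000000000000000000000000000000000000000000000000000000000000000000000000000000000000000000000000000000000000000000000000000000000000000000000000000000000000000000000000000000000000000000000000000000000000000000000000000000000000000000000000000000000000000000000000000000000000000000000000000000000000000000000000000000000, [cP]),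
  (nat_lit 0x50000000000000000000000000000000000000000000000000000000000000000000000000000000000000000000000000000000000000000000000000000000000000000000000000000000000000000000000000000000000000000000000000000000000000000000000000000000000000000000000000000000000000000000000000000000000000000000000000000000000000000000000000000000000000000000000000000000000000000000000000000000000000000, [cP]),
  (nat_lit 0x10000000000000000000000000000000000000000000000000000000000000000000000000000000000000000000000000000000000000000000000000000000000000000000000000000000000000000000000000000000000000000000000000000000000000000000000000000000000000000000000000000000000000000000000000000000000000000000000000000000000000000000000000000000000000000000000000000000000000000000000000000000000000000000, [cP]),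
  (nat_lit 0x20000000000000000000000000000000000000000000000000000000000000000000000000000000000000000000000000000000000000000000000000000000000000000000000000000000000000000000000000000000000000000000000000000000000000000000000000000000000000000000000000000000000000000000000000000000000000000000000000000000000000000000000000000000000000000000000000000000000000000000000000000000000000000000000, [cP]),
  (nat_lit 0x480000000000000000000000000000000000000000000000000000000000000000000000000000000000000000000000000000000000000000000000000000000000000000000000000000000000000000000000000000000000000000000000000000000000000000000000000000000000000000000000000000000000000000000000000000000000000000000000000000000000000000000000000000000000000000000000000000000000000000000000000000000000000000000000, [cP]),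
  (nat_lit 0x40008000000000000000000000000000000000000000000000000000000000000000000000000000000000000000000000000000000000000000000000000000000000000000000000000000000000000000000000000000000000000000000000000000000000000000000000000000000000000000000000000000000000000000000000000000000000000000000000000000000000000000000000000000000000000000000000000000000000000000000000000000000000000000000000000, [cP]),
  (nat_lit 0x2080000000000000000000000000000000000000000000000000000000000000000000000000000000000000000000000000000000000000000000000000000000000000000000000000000000000000000000000000000000000000000000000000000000000000000000000000000000000000000000000000000000000000000000000000000000000000000000000000000000000000000000000000000000000000000000000000000000000000000000000000000000000000000000000000000, [cP]),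
  (nat_lit 0x20000000000000000000000000000000000000000000000000000000000000000000000000000000000000000000000000000000000000000000000000000000000000000000000000000000000000000000000000000000000000000000000000000000000000000000000000000000000000000000000000000000000000000000000000000000000000000000000000000000000000000000000000000000000000000000000000000000000000000000000000000000000000000000000000000000, [cP])]

theorem hp0 : ∀ p ∈ L0, ∀ D2 ∈ p.2, ∃ e,
    search ext94 (Pool.Agent.H74.EGZ.vio sb) G Uc A0 p.1 D2 e = true :=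
  (List.forall_mem_cons.2 ⟨(List.forall_mem_singleton.2 ⟨e0, by decide +kernel⟩),
  (List.forall_mem_cons.2 ⟨(List.forall_mem_singleton.2 ⟨.leaf, by decide +kernel⟩),
  (List.forall_mem_cons.2 ⟨(List.forall_mem_singleton.2 ⟨e2, by decide +kernel⟩),
  (List.forall_mem_cons.2 ⟨(List.forall_mem_singleton.2 ⟨.leaf, by decide +kernel⟩),
  (List.forall_mem_cons.2 ⟨(List.forall_mem_singleton.2 ⟨e4, by decide +kernel⟩),
  (List.forall_mem_cons.2 ⟨(List.forall_mem_singleton.2 ⟨e5, by decide +kernel⟩),
  (List.forall_mem_cons.2 ⟨(List.forall_mem_singleton.2 ⟨.leaf, by decide +kernel⟩),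
  (List.forall_mem_cons.2 ⟨(List.forall_mem_singleton.2 ⟨e7, by decide +kernel⟩),
  (List.forall_mem_cons.2 ⟨(List.forall_mem_singleton.2 ⟨e8, by decide +kernel⟩),
  (List.forall_mem_cons.2 ⟨(List.forall_mem_singleton.2 ⟨e9, by decide +kernel⟩),
  (List.forall_mem_cons.2 ⟨(List.forall_mem_singleton.2 ⟨e10, by decide +kernel⟩),
  (List.forall_mem_cons.2 ⟨(List.forall_mem_singleton.2 ⟨e11, by decide +kernel⟩),
  (List.forall_mem_cons.2 ⟨(List.forall_mem_singleton.2 ⟨e12, by decide +kernel⟩),
  (List.forall_mem_cons.2 ⟨(List.forall_mem_singleton.2 ⟨e13, by decide +kernel⟩),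
  (List.forall_mem_cons.2 ⟨(List.forall_mem_singleton.2 ⟨e14, by decide +kernel⟩),
  (List.forall_mem_cons.2 ⟨(List.forall_mem_singleton.2 ⟨.leaf, by decide +kernel⟩),
  (List.forall_mem_cons.2 ⟨(List.forall_mem_singleton.2 ⟨.leaf, by decide +kernel⟩),
  (List.forall_mem_cons.2 ⟨(List.forall_mem_singleton.2 ⟨e17, by decide +kernel⟩),
  (List.forall_mem_cons.2 ⟨(List.forall_mem_singleton.2 ⟨.leaf, by decide +kernel⟩),
  (List.forall_mem_cons.2 ⟨(List.forall_mem_singleton.2 ⟨e19, by decide +kernel⟩),
  (List.forall_mem_cons.2 ⟨(List.forall_mem_singleton.2 ⟨e20, by decide +kernel⟩),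
  (List.forall_mem_cons.2 ⟨(List.forall_mem_singleton.2 ⟨e21, by decide +kernel⟩),
  (List.forall_mem_cons.2 ⟨(List.forall_mem_singleton.2 ⟨e22, by decide +kernel⟩),
  (List.forall_mem_cons.2 ⟨(List.forall_mem_singleton.2 ⟨e23, by decide +kernel⟩),
  (List.forall_mem_cons.2 ⟨(List.forall_mem_singleton.2 ⟨e24, by decide +kernel⟩),
  (List.forall_mem_cons.2 ⟨(List.forall_mem_cons.2 ⟨⟨e25, by decide +kernel⟩,
  (List.forall_mem_cons.2 ⟨⟨e26, by decide +kernel⟩,
  (List.forall_mem_cons.2 ⟨⟨e27, by decide +kernel⟩,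
  (List.forall_mem_cons.2 ⟨⟨e28, by decide +kernel⟩,
  (List.forall_mem_singleton.2 ⟨e29, by decide +kernel⟩)⟩)⟩)⟩)⟩),
  (List.forall_mem_cons.2 ⟨(List.forall_mem_singleton.2 ⟨.leaf, by decide +kernel⟩),
  (List.forall_mem_cons.2 ⟨(List.forall_mem_singleton.2 ⟨e31, by decide +kernel⟩),
  (List.forall_mem_cons.2 ⟨(List.forall_mem_singleton.2 ⟨e32, by decide +kernel⟩),
  (List.forall_mem_cons.2 ⟨(List.forall_mem_singleton.2 ⟨.leaf, by decide +kernel⟩),
  (List.forall_mem_cons.2 ⟨(List.forall_mem_singleton.2 ⟨e34, by decide +kernel⟩),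
  (List.forall_mem_cons.2 ⟨(List.forall_mem_singleton.2 ⟨e35, by decide +kernel⟩),
  (List.forall_mem_cons.2 ⟨(List.forall_mem_singleton.2 ⟨e36, by decide +kernel⟩),
  (List.forall_mem_cons.2 ⟨(List.forall_mem_singleton.2 ⟨e37, by decide +kernel⟩),
  (List.forall_mem_cons.2 ⟨(List.forall_mem_singleton.2 ⟨e38, by decide +kernel⟩),
  (List.forall_mem_cons.2 ⟨(List.forall_mem_singleton.2 ⟨e39, by decide +kernel⟩),
  (List.forall_mem_cons.2 ⟨(List.forall_mem_singleton.2 ⟨e40, by decide +kernel⟩),
  (List.forall_mem_cons.2 ⟨(List.forall_mem_singleton.2 ⟨e41, by decide +kernel⟩),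
  (List.forall_mem_cons.2 ⟨(List.forall_mem_singleton.2 ⟨e42, by decide +kernel⟩),
  (List.forall_mem_cons.2 ⟨(List.forall_mem_singleton.2 ⟨e43, by decide +kernel⟩),
  (List.forall_mem_cons.2 ⟨(List.forall_mem_singleton.2 ⟨.leaf, by decide +kernel⟩),
  (List.forall_mem_cons.2 ⟨(List.forall_mem_singleton.2 ⟨e45, by decide +kernel⟩),
  (List.forall_mem_cons.2 ⟨(List.forall_mem_singleton.2 ⟨e46, by decide +kernel⟩),
  (List.forall_mem_cons.2 ⟨(List.forall_mem_cons.2 ⟨⟨e47, by decide +kernel⟩,
  (List.forall_mem_cons.2 ⟨⟨e48, by decide +kernel⟩,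
  (List.forall_mem_cons.2 ⟨⟨e49, by decide +kernel⟩,
  (List.forall_mem_cons.2 ⟨⟨e50, by decide +kernel⟩,
  (List.forall_mem_singleton.2 ⟨e51, by decide +kernel⟩)⟩)⟩)⟩)⟩),
  (List.forall_mem_cons.2 ⟨(List.forall_mem_singleton.2 ⟨e52, by decide +kernel⟩),
  (List.forall_mem_cons.2 ⟨(List.forall_mem_singleton.2 ⟨e53, by decide +kernel⟩),
  (List.forall_mem_cons.2 ⟨(List.forall_mem_singleton.2 ⟨e54, by decide +kernel⟩),
  (List.forall_mem_cons.2 ⟨(List.forall_mem_singleton.2 ⟨e55, by decide +kernel⟩),
  (List.forall_mem_cons.2 ⟨(List.forall_mem_singleton.2 ⟨e56, by decide +kernel⟩),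
  (List.forall_mem_cons.2 ⟨(List.forall_mem_singleton.2 ⟨e57, by decide +kernel⟩),
  (List.forall_mem_cons.2 ⟨(List.forall_mem_singleton.2 ⟨e58, by decide +kernel⟩),
  (List.forall_mem_cons.2 ⟨(List.forall_mem_singleton.2 ⟨e59, by decide +kernel⟩),
  (List.forall_mem_cons.2 ⟨(List.forall_mem_singleton.2 ⟨e60, by decide +kernel⟩),
  (List.forall_mem_cons.2 ⟨(List.forall_mem_singleton.2 ⟨e61, by decide +kernel⟩),
  (List.forall_mem_cons.2 ⟨(List.forall_mem_singleton.2 ⟨e62, by decide +kernel⟩),
  (List.forall_mem_cons.2 ⟨(List.forall_mem_singleton.2 ⟨e63, by decide +kernel⟩),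
  (List.forall_mem_cons.2 ⟨(List.forall_mem_singleton.2 ⟨e64, by decide +kernel⟩),
  (List.forall_mem_cons.2 ⟨(List.forall_mem_singleton.2 ⟨e65, by decide +kernel⟩),
  (List.forall_mem_cons.2 ⟨(List.forall_mem_singleton.2 ⟨e66, by decide +kernel⟩),
  (List.forall_mem_cons.2 ⟨(List.forall_mem_singleton.2 ⟨.leaf, by decide +kernel⟩),
  (List.forall_mem_cons.2 ⟨(List.forall_mem_singleton.2 ⟨e68, by decide +kernel⟩),
  (List.forall_mem_cons.2 ⟨(List.forall_mem_singleton.2 ⟨e69, by decide +kernel⟩),
  (List.forall_mem_cons.2 ⟨(List.forall_mem_singleton.2 ⟨e70, by decide +kernel⟩),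
  (List.forall_mem_cons.2 ⟨(List.forall_mem_singleton.2 ⟨.leaf, by decide +kernel⟩),
  (List.forall_mem_cons.2 ⟨(List.forall_mem_singleton.2 ⟨.leaf, by decide +kernel⟩),
  (List.forall_mem_cons.2 ⟨(List.forall_mem_singleton.2 ⟨e73, by decide +kernel⟩),
  (List.forall_mem_cons.2 ⟨(List.forall_mem_singleton.2 ⟨e74, by decide +kernel⟩),
  (List.forall_mem_cons.2 ⟨(List.forall_mem_singleton.2 ⟨e75, by decide +kernel⟩),
  (List.forall_mem_cons.2 ⟨(List.forall_mem_singleton.2 ⟨e76, by decide +kernel⟩),
  (List.forall_mem_cons.2 ⟨(List.forall_mem_singleton.2 ⟨e77, by decide +kernel⟩),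
  (List.forall_mem_cons.2 ⟨(List.forall_mem_singleton.2 ⟨e78, by decide +kernel⟩),
  (List.forall_mem_cons.2 ⟨(List.forall_mem_singleton.2 ⟨.leaf, by decide +kernel⟩),
  (List.forall_mem_cons.2 ⟨(List.forall_mem_singleton.2 ⟨.leaf, by decide +kernel⟩),
  (List.forall_mem_cons.2 ⟨(List.forall_mem_singleton.2 ⟨e81, by decide +kernel⟩),
  (List.forall_mem_cons.2 ⟨(List.forall_mem_singleton.2 ⟨e82, by decide +kernel⟩),
  (List.forall_mem_cons.2 ⟨(List.forall_mem_singleton.2 ⟨e83, by decide +kernel⟩),
  (List.forall_mem_cons.2 ⟨(List.forall_mem_singleton.2 ⟨e84, by decide +kernel⟩),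
  (List.forall_mem_singleton.2 (List.forall_mem_singleton.2 ⟨e85, by decide +kernel⟩))⟩)⟩)⟩)⟩)⟩)⟩)⟩)⟩)⟩)⟩)⟩)⟩)⟩)⟩)⟩)⟩)⟩)⟩)⟩)⟩)⟩)⟩)⟩)⟩)⟩)⟩)⟩)⟩)⟩)⟩)⟩)⟩)⟩)⟩)⟩)⟩)⟩)⟩)⟩)⟩)⟩)⟩)⟩)⟩)⟩)⟩)⟩)⟩)⟩)⟩)⟩)⟩)⟩)⟩)⟩)⟩)⟩)⟩)⟩)⟩)⟩)⟩)⟩)⟩)⟩)⟩)⟩)⟩)⟩)⟩)⟩)⟩)⟩)⟩)⟩)⟩)⟩)

end

end Pool.Agent.H21.EGZ.S29
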