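import Pool.Agent.H21.EGZ.D2

/-!
# Stage 2 : search, part 0
-/

set_option autoImplicit false
set_option maxRecDepth 100000

namespace Pool.Agent.H21.EGZ.S2

noncomputable section

open Pool.Agent.H74.EGZ Pool.Agent.H94.Lift

/-- refutations 0 -/
def e0 : EX := (.node (.node (.node .leaf (nat_lit 194911619542492) (.br (nat_lit 4) (.cons (.br (nat_lit 0) (.cons (.br (nat_lit 5) (.cons (.rel (nat_lit 9663746052)) (.cons (.rel (nat_lit 4299182208)) .nil))) (.cons (.rel (nat_lit 2151686148)) .nil))) .nil)) .leaf) (nat_lit 195765142051573) (.br (nat_lit 1) (.cons (.br (nat_lit 6) (.cons (.rel (nat_lit 17213423892)) .nil)) .nil)) .leaf) (nat_lit 196153819812647) (.br (nat_lit 3) (.cons (.br (nat_lit 5) (.cons (.rel (nat_lit 9126805584)) .nil)) .nil)) (.node (.node .leaf (nat_lit 198885408994187) (.br (nat_lit 0) (.cons (.br (nat_lit 4) (.cons (.rel (nat_lit 1077941376)) .nil)) .nil)) .leaf) (nat_lit 198888672163292) (.br (nat_lit 6) (.cons (.br (nat_lit 0) (.cons (.rel (nat_lit 17188323840))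 (.cons (.rel (nat_lit 34363934736)) .nil))) .nil)) .leaf))

/-- refutations 1 -/
def e1 : EX := (.node (.node (.node (.node (.node .leaf (nat_lit 201045273243100) (.br (nat_lit 0) (.cons (.br (nat_lit 1) (.cons (.rel (nat_lit 25182468)) .nil)) .nil)) .leaf) (nat_lit 201288093098911) (.br (nat_lit 2) (.cons (.br (nat_lit 4) (.cons (.rel (nat_lit 1140850818)) .nil)) .nil)) .leaf) (nat_lit 201526287330780) (.br (nat_lit 0) (.cons (.br (nat_lit 1) (.cons (.rel (nat_lit 21241920)) .nil)) .nil)) (.node .leaf (nat_lit 201526309520860) (.br (nat_lit 1) (.cons (.br (nat_lit 2) (.cons (.rel (nat_lit 84414480)) .nil)) .nil)) .leaf)) (nat_lit 201566699449201) (.br (nat_lit 0) (.cons (.br (nat_lit 1) (.cons (.rel (nat_lit 22085637)) .nil)) .nil)) (.node (.node .leaf (nat_lit 204268757867996) (.br (nat_lit 0) (.cons (.br (nat_lit 1) (.cons (.rel (nat_lit 21241920)) .nil)) .nil)) .leaf) (nat_lit 204271316392817) (.br (nat_lit 2) (.cons (.br (nat_lit 3) (.cons (.rel (nat_lit 673190928)) .nil))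 .nil)) (.node .leaf (nat_lit 204271316393188) (.br (nat_lit 3) (.cons (.br (nat_lit 6) (.cons (.rel (nat_lit 17448308868)) (.cons (.rel (nat_lit 17449391112)) .nil))) .nil)) .leaf))) (nat_lit 204271316393373) (.br (nat_lit 0) (.cons (.br (nat_lit 1) (.cons (.rel (nat_lit 37752864)) .nil)) .nil)) (.node (.node (.node .leaf (nat_lit 204271316393436) (.br (nat_lit 3) (.cons (.br (nat_lit 5) (.cons (.rel (nat_lit 4563928068)) (.cons (.rel (nat_lit 4831903749)) .nil))) (.cons (.br (nat_lit 4) (.cons (.rel (nat_lit 1610612742)) (.cons (.rel (nat_lit 1343230980)) .nil))) .nil))) .leaf) (nat_lit 204273912666288) (.br (nat_lit 3) (.cons (.br (nat_lit 4) (.cons (.rel (nat_lit 1343242242)) .nil)) .nil)) (.node .leaf (nat_lit 204273912667612) (.br (nat_lit 1) (.cons (.br (nat_lit 4) (.cons (.rel (nat_lit 2181300225)) .nil)) .nil)) .leaf)) (nat_lit 205334329441756) (.br (nat_lit 4) (.cons (.br (nat_lit 6) (.cons (.rel (nat_lit 19327385604)) (.cons (.rel (nat_lit 35433480453)) (.cons (.rel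 (nat_lit 18254659593)) .nil)))) .nil)) (.node (.node .leaf (nat_lit 205334330548981) (.br (nat_lit 0) (.cons (.br (nat_lit 1) (.cons (.rel (nat_lit 21042321)) .nil)) .nil)) .leaf) (nat_lit 205337508723350) (.br (nat_lit 3) (.cons (.br (nat_lit 5) (.cons (.rel (nat_lit 4564583424)) .nil)) .nil)) (.node .leaf (nat_lit 205337508724188) (.br (nat_lit 6) (.cons (.br (nat_lit 0) (.cons (.rel (nat_lit 17184587784)) (.cons (.rel (nat_lit 17184587784)) (.cons (.rel (nat_lit 17188257813)) .nil)))) (.cons (.br (nat_lit 0) (.cons (.rel (nat_lit 34368127041)) (.cons (.rel (nat_lit 17184587784)) (.cons (.rel (nat_lit 17184325701)) .nil)))) .nil))) .leaf))))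

/-- refutations 2 -/
def e2 : EX := (.node .leaf (nat_lit 36476767492353) (.br (nat_lit 1) (.cons (.br (nat_lit 2) (.cons (.rel (nat_lit 83887488)) .nil)) .nil)) .leaf)

/-- refutations 3 -/
def e3 : EX := (.node (.node (.node .leaf (nat_lit 476332325077117) (.br (nat_lit 2) (.cons (.br (nat_lit 3) (.cons (.rel (nat_lit 402718980)) (.cons (.rel (nat_lit 336598308)) .nil))) .nil)) .leaf) (nat_lit 481703033030108) (.br (nat_lit 2) (.cons (.br (nat_lit 5) (.cons (.rel (nat_lit 4363124742)) .nil)) .nil)) .leaf) (nat_lit 481703683147228) (.br (nat_lit 2) (.cons (.br (nat_lit 3) (.cons (.rel (nat_lit 604045329)) .nil)) .nil)) (.node .leaf (nat_lit 481743962387932) (.br (nat_lit 1) (.cons (.br (nat_lit 4) (.cons (.rel (nat_lit 1091043330)) .nil)) .nil)) .leaf))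

/-- refutations 4 -/
def e4 : EX := (.node (.node (.node (.node .leaf (nat_lit 482731301549532) (.br (nat_lit 0) (.cons (.br (nat_lit 1) (.cons (.rel (nat_lit 42008640)) .nil)) .nil)) .leaf) (nat_lit 482984196081116) (.br (nat_lit 1) (.cons (.br (nat_lit 2) (.cons (.rel (nat_lit 84427776)) .nil)) .nil)) .leaf) (nat_lit 485748891264476) (.br (nat_lit 1) (.cons (.br (nat_lit 2) (.cons (.rel (nat_lit 100664340)) .nil)) .nil)) (.node .leaf (nat_lit 485789843062909) (.br (nat_lit 3) (.cons (.br (nat_lit 5) (.cons (.rel (nat_lit 8858378244)) .nil)) .nil)) .leaf)) (nat_lit 485832267935805) (.br (nat_lit 1) (.cons (.br (nat_lit 0) (.cons (.rel (nat_lit 22085637)) (.cons (.rel (nat_lit 22151712)) .nil))) .nil)) (.node (.node .leaf (nat_lit 485832267937050) (.br (nat_lit 1) (.cons (.br (nat_lit 3) (.cons (.rel (nat_lit 285212802)) .nil)) .nil)) .leaf) (nat_lit 485832267937145) (.br (nat_lit 0) (.cons (.br (nat_lit 2) (.cons (.rel (nat_lit 72355845)) .nil)) .nil)) (.node .leaf (nat_lit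 488309952360475) (.br (nat_lit 1) (.cons (.br (nat_lit 2) (.cons (.rel (nat_lit 83887488)) .nil)) .nil)) .leaf)))

/-- refutations 5 -/
def e5 : EX := (.node .leaf (nat_lit 219107383633372) (.br (nat_lit 0) (.cons (.br (nat_lit 2) (.cons (.rel (nat_lit 72356880)) .nil)) .nil)) .leaf)

/-- refutations 6 -/
def e6 : EX := (.node (.node (.node .leaf (nat_lit 652294915895431) (.br (nat_lit 0) (.cons (.br (nat_lit 3) (.cons (.rel (nat_lit 276824340)) .nil)) .nil)) .leaf) (nat_lit 652294915896101) (.br (nat_lit 0) (.cons (.br (nat_lit 3) (.cons (.rel (nat_lit 276842496)) .nil)) .nil)) .leaf) (nat_lit 653490512545829) (.br (nat_lit 1) (.cons (.br (nat_lit 3) (.cons (.rel (nat_lit 570425409)) .nil)) .nil)) (.node .leaf (nat_lit 657668448763356) (.br (nat_lit 1) (.cons (.br (nat_lit 2) (.cons (.rel (nat_lit 85000704)) .nil)) .nil)) .leaf))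

/-- refutations 7 -/
def e7 : EX := (.node (.node (.node .leaf (nat_lit 661668250015781) (.br (nat_lit 0) (.cons (.br (nat_lit 5) (.cons (.rel (nat_lit 4300226562)) .nil)) .nil)) .leaf) (nat_lit 661668250017244) (.br (nat_lit 0) (.cons (.br (nat_lit 5) (.cons (.rel (nat_lit 4300276737)) .nil)) .nil)) (.node .leaf (nat_lit 661668776191452) (.br (nat_lit 1) (.cons (.br (nat_lit 2) (.cons (.rel (nat_lit 100798464)) .nil)) .nil)) .leaf)) (nat_lit 661670751708636) (.br (nat_lit 1) (.cons (.br (nat_lit 5) (.cons (.rel (nat_lit 4312272900)) .nil)) .nil)) (.node (.node .leaf (nat_lit 661709719080412) (.br (nat_lit 0) (.cons (.br (nat_lit 1) (.cons (.rel (nat_lit 37752864)) .nil)) .nil)) .leaf) (nat_lit 661752010256421) (.br (nat_lit 0) (.cons (.br (nat_lit 4) (.cons (.rel (nat_lit 1079054592)) .nil)) .nil)) (.node .leaf (nat_lit 661754655522997) (.br (nat_lit 1) (.cons (.br (nat_lit 2) (.cons (.rel (nat_lit 84427776)) .nil)) .nil)) .leaf)))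

/-- refutations 8 -/
def e8 : EX := (.node (.node .leaf (nat_lit 880727295493407) (.br (nat_lit 0) (.cons (.br (nat_lit 3) (.cons (.rel (nat_lit 272630145)) .nil)) .nil)) .leaf) (nat_lit 881981300176278) (.br (nat_lit 0) (.cons (.br (nat_lit 1) (.cons (.rel (nat_lit 22024200)) .nil)) .nil)) .leaf)

/-- refutations 9 -/
def e9 : EX := (.node .leaf (nat_lit 887401005168092) (.br (nat_lit 0) (.cons (.br (nat_lit 1) (.cons (.rel (nat_lit 42223620)) .nil)) .nil)) .leaf)

/-- refutations 10 -/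
def e10 : EX := (.node (.node (.node .leaf (nat_lit 527860071894492) (.br (nat_lit 1) (.cons (.br (nat_lit 2) (.cons (.rel (nat_lit 84427776)) .nil)) .nil)) .leaf) (nat_lit 534257378273310) (.br (nat_lit 0) (.cons (.br (nat_lit 1) (.cons (.rel (nat_lit 22058256)) .nil)) .nil)) .leaf) (nat_lit 535560364289500) (.br (nat_lit 2) (.cons (.br (nat_lit 5) (.cons (.rel (nat_lit 4363198464)) .nil)) .nil)) (.node .leaf (nat_lit 539889699706910) (.br (nat_lit 1) (.cons (.br (nat_lit 5) (.cons (.rel (nat_lit 4311810180)) .nil)) .nil)) .leaf))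

/-- refutations 11 -/
def e11 : EX := (.node (.node .leaf (nat_lit 915914250009257) (.br (nat_lit 3) (.cons (.br (nat_lit 4) (.cons (.rel (nat_lit 1343226120)) .nil)) .nil)) .leaf) (nat_lit 920165036814388) (.br (nat_lit 5) (.cons (.br (nat_lit 0) (.cons (.rel (nat_lit 8594129169)) (.cons (.rel (nat_lit 4300210440)) .nil))) .nil)) (.node .leaf (nat_lit 922324441183708) (.br (nat_lit 1) (.cons (.br (nat_lit 6) (.cons (.rel (nat_lit 34393360464)) .nil)) .nil)) .leaf))

/-- refutations 12 -/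
def e12 : EX := (.node (.node .leaf (nat_lit 926617308511708) (.br (nat_lit 0) (.cons (.br (nat_lit 4) (.cons (.rel (nat_lit 1082195973)) .nil)) .nil)) .leaf) (nat_lit 926880266239452) (.br (nat_lit 0) (.cons (.br (nat_lit 1) (.cons (.rel (nat_lit 21102720)) .nil)) .nil)) .leaf)

/-- refutations 13 -/
def e13 : EX := (.node (.node .leaf (nat_lit 909322649656796) (.br (nat_lit 0) (.cons (.br (nat_lit 3) (.cons (.rel (nat_lit 273679368)) .nil)) .nil)) .leaf) (nat_lit 909325682137713) (.br (nat_lit 3) (.cons (.br (nat_lit 4) (.cons (.rel (nat_lit 1342197888)) .nil)) .nil)) (.node .leaf (nat_lit 909325682138588) (.br (nat_lit 3) (.cons (.br (nat_lit 6) (.cons (.rel (nat_lit 17449353222)) .nil)) .nil)) .leaf))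

/-- refutations 14 -/
def e14 : EX := (.node (.node (.node (.node .leaf (nat_lit 2200569591197821) (.br (nat_lit 3) (.cons (.br (nat_lit 4) (.cons (.rel (nat_lit 1610612742)) .nil)) .nil)) .leaf) (nat_lit 2201395253758077) (.br (nat_lit 3) (.cons (.br (nat_lit 1) (.cons (.rel (nat_lit 285212802)) (.cons (.rel (nat_lit 570425409)) .nil))) .nil)) .leaf) (nat_lit 2201395253768317) (.br (nat_lit 3) (.cons (.br (nat_lit 5) (.cons (.rel (nat_lit 8858371584)) (.cons (.rel (nat_lit 4563402912)) .nil))) (.cons (.br (nat_lit 5) (.cons (.rel (nat_lit 4563402912)) (.cons (.rel (nat_lit 4564455681)) .nil))) .nil))) (.node (.node .leaf (nat_lit 2201395253814174) (.br (nat_lit 0) (.cons (.br (nat_lit 2) (.cons (.rel (nat_lit 138477600)) .nil)) .nil)) .leaf) (nat_lit 2201395253814184) (.br (nat_lit 0) (.cons (.br (nat_lit 1) (.cons (.rel (nat_lit 21241920)) .nil)) .nil)) .leaf)) (nat_lit 2201397350920317) (.br (nat_lit 5) (.cons (.br (nat_lit 0) (.cons (.rel (nat_lit 8594129169)) (.cons (.rel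 (nat_lit 4303364097)) (.cons (.rel (nat_lit 4300226562)) .nil)))) .nil)) (.node (.node (.node .leaf (nat_lit 2201397350920817) (.br (nat_lit 5) (.cons (.br (nat_lit 3) (.cons (.rel (nat_lit 4563665985)) (.cons (.rel (nat_lit 4563402912)) .nil))) .nil)) .leaf) (nat_lit 2201397350921692) (.br (nat_lit 0) (.cons (.br (nat_lit 4) (.cons (.rel (nat_lit 1082134536)) (.cons (.rel (nat_lit 2151686148)) .nil))) (.cons (.br (nat_lit 1) (.cons (.rel (nat_lit 21241920)) (.cons (.rel (nat_lit 21102720)) (.cons (.rel (nat_lit 25166337)) (.cons (.rel (nat_lit 25166337)) .nil))))) .nil))) .leaf) (nat_lit 2201399448072317) (.br (nat_lit 4) (.cons (.br (nat_lit 6) (.cons (.rel (nat_lit 19327385604)) (.cons (.rel (nat_lit 19327385604)) (.cons (.rel (nat_lit 18254660628)) .nil)))) .nil)) (.node .leaf (nat_lit 2201399448073692) (.br (nat_lit 6) (.cons (.br (nat_lit 0) (.cons (.rel (nat_lit 17188258848)) (.cons (.rel (nat_lit 17184587784)) .nil))) .nil)) .leaf)))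

/-- refutations 15 -/
def e15 : EX := (.node (.node (.node (.node (.node .leaf (nat_lit 2205692316356060) (.br (nat_lit 4) (.cons (.br (nat_lit 5) (.cons (.rel (nat_lit 5368710273)) .nil)) .nil)) .leaf) (nat_lit 2205692316366300) (.br (nat_lit 0) (.cons (.br (nat_lit 3) (.cons (.rel (nat_lit 273170433)) (.cons (.br (nat_lit 1) (.cons (.rel (nat_lit 289443840)) (.cons (.rel (nat_lit 286265616)) .nil))) .nil))) .nil)) .leaf) (nat_lit 2205692316926077) (.br (nat_lit 3) (.cons (.br (nat_lit 6) (.cons (.rel (nat_lit 17449353222)) .nil)) .nil)) (.node .leaf (nat_lit 2205692316991669) (.br (nat_lit 0) (.cons (.br (nat_lit 2) (.cons (.rel (nat_lit 71835648)) .nil)) .nil)) .leaf)) (nat_lit 2205692318251189) (.br (nat_lit 1) (.cons (.br (nat_lit 3) (.cons (.rel (nat_lit 285212802)) (.cons (.rel (nat_lit 286265616)) .nil))) .nil)) (.node (.node (.node .leaf (nat_lit 2205692318261429) (.br (nat_lit 4) (.cons (.br (nat_lit 5) (.cons (.rel (nat_lit 5368710273)) (.cons (.rel (nat_lit 5368710273))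 .nil))) .nil)) .leaf) (nat_lit 2205694415358077) (.br (nat_lit 0) (.cons (.br (nat_lit 1) (.cons (.rel (nat_lit 21241920)) .nil)) .nil)) .leaf) (nat_lit 2205694415359452) (.br (nat_lit 0) (.cons (.br (nat_lit 1) (.cons (.rel (nat_lit 21102720)) .nil)) .nil)) (.node .leaf (nat_lit 2205694415368317) (.br (nat_lit 1) (.cons (.br (nat_lit 3) (.cons (.rel (nat_lit 285475920)) .nil)) .nil)) .leaf))) (nat_lit 2205694415369692) (.br (nat_lit 1) (.cons (.br (nat_lit 3) (.cons (.rel (nat_lit 285212802)) .nil)) .nil)) (.node (.node (.node (.node .leaf (nat_lit 2209821872885212) (.br (nat_lit 0) (.cons (.br (nat_lit 2) (.cons (.rel (nat_lit 72356880)) .nil)) .nil)) .leaf) (nat_lit 2209870194443041) (.br (nat_lit 0) (.cons (.br (nat_lit 2) (.cons (.rel (nat_lit 72356880)) .nil)) .nil)) .leaf) (nat_lit 2209986741011932) (.br (nat_lit 0) (.cons (.br (nat_lit 2) (.cons (.rel (nat_lit 142872576)) .nil)) .nil)) (.node .leaf (nat_lit 2209987285502077) (.br (nat_lit 0) (.cons (.br (nat_lit 3)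 (.cons (.rel (nat_lit 273686784)) .nil)) .nil)) .leaf)) (nat_lit 2209989382654077) (.br (nat_lit 0) (.cons (.br (nat_lit 1) (.cons (.rel (nat_lit 21241920)) .nil)) .nil)) (.node (.node (.node .leaf (nat_lit 2209989382664817) (.br (nat_lit 3) (.cons (.br (nat_lit 5) (.cons (.rel (nat_lit 4563665985)) .nil)) .nil)) .leaf) (nat_lit 2209989382665692) (.br (nat_lit 3) (.cons (.br (nat_lit 5) (.cons (.rel (nat_lit 4563928068)) .nil)) .nil)) .leaf) (nat_lit 2209989382709929) (.br (nat_lit 3) (.cons (.br (nat_lit 2) (.cons (.rel (nat_lit 671088708)) (.cons (.rel (nat_lit 603983892)) .nil))) .nil)) (.node .leaf (nat_lit 2212340926365877) (.br (nat_lit 1) (.cons (.br (nat_lit 4) (.cons (.rel (nat_lit 1107314949)) .nil)) .nil)) .leaf))))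

/-- refutations 17 -/
def e17 : EX := (.node (.node (.node (.node .leaf (nat_lit 1080642291925053) (.br (nat_lit 1) (.cons (.br (nat_lit 3) (.cons (.rel (nat_lit 570687492)) .nil)) .nil)) .leaf) (nat_lit 1081115177100764) (.br (nat_lit 0) (.cons (.br (nat_lit 1) (.cons (.br (nat_lit 2) (.cons (.rel (nat_lit 83892360)) .nil)) .nil)) .nil)) (.node .leaf (nat_lit 1081117781763548) (.br (nat_lit 2) (.cons (.br (nat_lit 5) (.cons (.rel (nat_lit 4429186050)) .nil)) .nil)) .leaf)) (nat_lit 1081117783392317) (.br (nat_lit 3) (.cons (.br (nat_lit 6) (.cons (.rel (nat_lit 17448370305)) (.cons (.rel (nat_lit 17449426944)) (.cons (.rel (nat_lit 17716748304)) .nil)))) (.cons (.br (nat_lit 5) (.cons (.rel (nat_lit 9126805584)) (.cons (.rel (nat_lit 9126805584)) (.cons (.rel (nat_lit 4831903749)) (.cons (.rel (nat_lit 8858378244)) .nil))))) .nil))) (.node (.node .leaf (nat_lit 1081117783393756) (.br (nat_lit 5) (.cons (.br (nat_lit 6) (.cons (.rel (nat_lit 21475891236)) (.cons (.rel (nat_lit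 21474844800)) .nil))) (.cons (.br (nat_lit 6) (.cons (.rel (nat_lit 21475889154)) (.cons (.rel (nat_lit 21475950600)) .nil))) .nil))) .leaf) (nat_lit 1084089900762388) (.br (nat_lit 2) (.cons (.br (nat_lit 3) (.cons (.rel (nat_lit 335544456)) .nil)) .nil)) .leaf)) (nat_lit 1085159135053276) (.br (nat_lit 0) (.cons (.br (nat_lit 3) (.cons (.rel (nat_lit 273170433)) .nil)) .nil)) (.node (.node (.node .leaf (nat_lit 1085163723621852) (.br (nat_lit 0) (.cons (.br (nat_lit 3) (.cons (.rel (nat_lit 273679368)) .nil)) .nil)) .leaf) (nat_lit 1085247521609789) (.br (nat_lit 3) (.cons (.br (nat_lit 6) (.cons (.rel (nat_lit 17716748304)) (.cons (.rel (nat_lit 17716748304)) (.cons (.rel (nat_lit 17448847368)) .nil)))) (.cons (.br (nat_lit 5) (.cons (.rel (nat_lit 4831847940)) (.cons (.rel (nat_lit 9126805584)) (.cons (.rel (nat_lit 4563928068)) .nil)))) .nil))) .leaf) (nat_lit 1085247521610410) (.br (nat_lit 2) (.cons (.br (nat_lit 5) (.cons (.rel (nat_lit 4363198464)) .nil)) .nil)) (.node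 (.node .leaf (nat_lit 1085247521611228) (.br (nat_lit 3) (.cons (.br (nat_lit 5) (.cons (.rel (nat_lit 9126805584)) (.cons (.rel (nat_lit 4563402912)) .nil))) (.cons (.br (nat_lit 5) (.cons (.rel (nat_lit 4563402912)) (.cons (.rel (nat_lit 4563665985)) .nil))) .nil))) .leaf) (nat_lit 1085247524470845) (.br (nat_lit 0) (.cons (.br (nat_lit 1) (.cons (.rel (nat_lit 21565440)) .nil)) .nil)) .leaf)))

/-- refutations 18 -/
def e18 : EX := (.node .leaf (nat_lit 2235710980075647) (.br (nat_lit 0) (.cons (.br (nat_lit 6) (.cons (.rel (nat_lit 17185243140)) .nil)) .nil)) .leaf)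

/-- refutations 19 -/
def e19 : EX := (.node (.node .leaf (nat_lit 2245043465235932) (.br (nat_lit 0) (.cons (.br (nat_lit 1) (.cons (.rel (nat_lit 20994180)) .nil)) .nil)) .leaf) (nat_lit 2246253547424374) (.br (nat_lit 0) (.cons (.br (nat_lit 3) (.cons (.rel (nat_lit 273170433)) .nil)) .nil)) (.node .leaf (nat_lit 2247585427974269) (.br (nat_lit 0) (.cons (.br (nat_lit 1) (.cons (.rel (nat_lit 22036497)) .nil)) .nil)) .leaf))

/-- refutations 20 -/
def e20 : EX := (.node .leaf (nat_lit 2377196731642167) (.br (nat_lit 4) (.cons (.br (nat_lit 5) (.cons (.rel (nat_lit 6442455045)) .nil)) .nil)) .leaf)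

/-- refutations 21 -/
def e21 : EX := (.node (.node .leaf (nat_lit 2381611053950234) (.br (nat_lit 0) (.cons (.br (nat_lit 1) (.cons (.rel (nat_lit 22024200)) .nil)) .nil)) .leaf) (nat_lit 2381654506416934) (.br (nat_lit 0) (.cons (.br (nat_lit 1) (.cons (.rel (nat_lit 22036497)) .nil)) .nil)) .leaf)

/-- refutations 22 -/
def e22 : EX := (.node (.node (.node .leaf (nat_lit 2385906022203527) (.br (nat_lit 0) (.cons (.br (nat_lit 4) (.cons (.rel (nat_lit 2151686148)) .nil)) .nil)) .leaf) (nat_lit 2385908643955989) (.br (nat_lit 0) (.cons (.br (nat_lit 1) (.cons (.rel (nat_lit 22085637)) .nil)) .nil)) .leaf) (nat_lit 2387022711141852) (.br (nat_lit 0) (.cons (.br (nat_lit 3) (.cons (.rel (nat_lit 272646276)) .nil)) .nil)) (.node .leaf (nat_lit 2388260194731484) (.br (nat_lit 2) (.cons (.br (nat_lit 5) (.cons (.rel (nat_lit 4363141641)) .nil)) .nil)) .leaf))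

/-- refutations 24 -/
def e24 : EX := (.node .leaf (nat_lit 2222456830473692) (.br (nat_lit 0) (.cons (.br (nat_lit 1) (.cons (.rel (nat_lit 21102720)) .nil)) .nil)) .leaf)

/-- refutations 25 -/
def e25 : EX := (.node .leaf (nat_lit 2411504936187166) (.br (nat_lit 0) (.cons (.br (nat_lit 1) (.cons (.rel (nat_lit 22041090)) .nil)) .nil)) .leaf)

/-- refutations 26 -/
def e26 : EX := (.node .leaf (nat_lit 2674238909582593) (.br (nat_lit 0) (.cons (.br (nat_lit 1) (.cons (.rel (nat_lit 22086672)) .nil)) .nil)) .leaf)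

/-- refutations 27 -/
def e27 : EX := (.node (.node (.node (.node (.node .leaf (nat_lit 2680681339575772) (.br (nat_lit 1) (.cons (.br (nat_lit 3) (.cons (.rel (nat_lit 570425409)) .nil)) .nil)) .leaf) (nat_lit 2680681340126684) (.br (nat_lit 0) (.cons (.br (nat_lit 3) (.cons (.rel (nat_lit 276828165)) .nil)) .nil)) .leaf) (nat_lit 2680681341471372) (.br (nat_lit 3) (.cons (.br (nat_lit 5) (.cons (.rel (nat_lit 4563665985)) .nil)) .nil)) (.node .leaf (nat_lit 2680724310198283) (.br (nat_lit 0) (.cons (.br (nat_lit 2) (.cons (.rel (nat_lit 71835648)) .nil)) .nil)) .leaf)) (nat_lit 2680724310198303) (.br (nat_lit 0) (.cons (.br (nat_lit 2) (.cons (.rel (nat_lit 71835648)) .nil)) .nil)) (.node (.node .leaf (nat_lit 2680724310198304) (.br (nat_lit 2) (.cons (.br (nat_lit 5) (.cons (.rel (nat_lit 4362080388)) .nil)) .nil)) .leaf) (nat_lit 2680724310199703) (.br (nat_lit 1) (.cons (.br (nat_lit 3) (.cons (.rel (nat_lit 302055681)) .nil)) .nil)) (.node .leaf (nat_lit 2680724310218788)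 (.br (nat_lit 2) (.cons (.br (nat_lit 4) (.cons (.rel (nat_lit 1141374984)) .nil)) .nil)) .leaf))) (nat_lit 2680724313064924) (.br (nat_lit 3) (.cons (.br (nat_lit 5) (.cons (.br (nat_lit 1) (.cons (.rel (nat_lit 4311761040)) (.cons (.rel (nat_lit 286269441)) (.cons (.rel (nat_lit 4580212737)) .nil)))) (.cons (.rel (nat_lit 4564455681)) .nil))) .nil)) (.node (.node (.node .leaf (nat_lit 2680767217948824) (.br (nat_lit 4) (.cons (.br (nat_lit 5) (.cons (.rel (nat_lit 5369762052)) .nil)) .nil)) .leaf) (nat_lit 2680767217950172) (.br (nat_lit 5) (.cons (.br (nat_lit 1) (.cons (.rel (nat_lit 4311761040)) (.cons (.rel (nat_lit 4312006992)) (.cons (.rel (nat_lit 4312010817)) .nil)))) (.cons (.br (nat_lit 1) (.cons (.rel (nat_lit 4328522760)) (.cons (.rel (nat_lit 4312928256)) (.cons (.rel (nat_lit 4328521761)) .nil)))) .nil))) (.node .leaf (nat_lit 2680767218255105) (.br (nat_lit 4) (.cons (.br (nat_lit 5) (.cons (.rel (nat_lit 6442456080)) .nil)) .nil)) .leaf)) (nat_lit 2680767219465077)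 (.br (nat_lit 0) (.cons (.br (nat_lit 1) (.cons (.rel (nat_lit 21565440)) .nil)) .nil)) (.node (.node .leaf (nat_lit 2681537827911132) (.br (nat_lit 0) (.cons (.br (nat_lit 3) (.cons (.rel (nat_lit 273678369)) .nil)) .nil)) .leaf) (nat_lit 2684976306860083) (.br (nat_lit 1) (.cons (.br (nat_lit 2) (.cons (.rel (nat_lit 83887488)) .nil)) .nil)) (.node .leaf (nat_lit 2687339151865308) (.br (nat_lit 0) (.cons (.br (nat_lit 3) (.cons (.rel (nat_lit 276842496)) .nil)) .nil)) .leaf))))

/-- refutations 28 -/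
def e28 : EX := (.node (.node .leaf (nat_lit 2816351396263389) (.br (nat_lit 1) (.cons (.br (nat_lit 2) (.cons (.rel (nat_lit 100664340)) .nil)) .nil)) .leaf) (nat_lit 2820178762515742) (.br (nat_lit 0) (.cons (.br (nat_lit 2) (.cons (.rel (nat_lit 71835648)) .nil)) .nil)) .leaf)

/-- refutations 29 -/
def e29 : EX := (.node .leaf (nat_lit 2826784391628252) (.br (nat_lit 1) (.cons (.br (nat_lit 2) (.cons (.rel (nat_lit 85000704)) .nil)) .nil)) .leaf)

/-- refutations 30 -/
def e30 : EX := (.node (.node (.node .leaf (nat_lit 2850032538187228) (.br (nat_lit 0) (.cons (.br (nat_lit 2) (.cons (.rel (nat_lit 71372928)) .nil)) .nil)) .leaf) (nat_lit 2850249818192798) (.br (nat_lit 1) (.cons (.br (nat_lit 2) (.cons (.rel (nat_lit 84427776)) .nil)) .nil)) (.node .leaf (nat_lit 2851025208308992) (.br (nat_lit 0) (.cons (.br (nat_lit 2) (.cons (.rel (nat_lit 72392736)) .nil)) .nil)) .leaf)) (nat_lit 2851028970598562) (.br (nat_lit 0) (.cons (.br (nat_lit 1) (.cons (.rel (nat_lit 21102720))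 (.cons (.rel (nat_lit 25166337)) .nil))) .nil)) (.node (.node .leaf (nat_lit 2851093885857954) (.br (nat_lit 1) (.cons (.br (nat_lit 6) (.cons (.rel (nat_lit 17196647040)) .nil)) .nil)) .leaf) (nat_lit 2851483598981171) (.br (nat_lit 2) (.cons (.br (nat_lit 0) (.cons (.rel (nat_lit 71835648)) (.cons (.rel (nat_lit 138428424)) .nil))) .nil)) .leaf))

/-- refutations 31 -/
def e31 : EX := (.node (.node (.node (.node (.node .leaf (nat_lit 2855779114202588) (.br (nat_lit 0) (.cons (.br (nat_lit 1) (.cons (.rel (nat_lit 21102720)) .nil)) .nil)) .leaf) (nat_lit 2856603199998133) (.br (nat_lit 5) (.cons (.br (nat_lit 3) (.cons (.rel (nat_lit 4563402912)) (.cons (.rel (nat_lit 4563665985)) (.cons (.rel (nat_lit 4563665985)) .nil)))) .nil)) .leaf) (nat_lit 2856603200520354) (.br (nat_lit 0) (.cons (.br (nat_lit 1) (.cons (.rel (nat_lit 21102720)) .nil)) .nil)) (.node .leaf (nat_lit 2856603200634332) (.br (nat_lit 2) (.cons (.br (nat_lit 4) (.cons (.rel (nat_lit 2281963524)) .nil)) .nil))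 .leaf)) (nat_lit 2856603201904821) (.br (nat_lit 3) (.cons (.br (nat_lit 5) (.cons (.br (nat_lit 2) (.cons (.rel (nat_lit 4363124742)) (.cons (.rel (nat_lit 335544456)) (.cons (.rel (nat_lit 402673665)) .nil)))) .nil)) .nil)) (.node (.node .leaf (nat_lit 2856646171226274) (.br (nat_lit 0) (.cons (.br (nat_lit 1) (.cons (.rel (nat_lit 21565440)) .nil)) .nil)) .leaf) (nat_lit 2856689078381194) (.br (nat_lit 0) (.cons (.br (nat_lit 1) (.cons (.rel (nat_lit 42008640)) .nil)) .nil)) (.node .leaf (nat_lit 2856689078384092) (.br (nat_lit 3) (.cons (.br (nat_lit 1) (.cons (.rel (nat_lit 286265616)) (.cons (.rel (nat_lit 285475920)) (.cons (.rel (nat_lit 286265616)) .nil)))) (.cons (.br (nat_lit 1) (.cons (.rel (nat_lit 285475920)) (.cons (.rel (nat_lit 285212802)) (.cons (.rel (nat_lit 301999104)) .nil)))) .nil))) .leaf))) (nat_lit 2856689080289461) (.br (nat_lit 0) (.cons (.br (nat_lit 5) (.cons (.rel (nat_lit 4299428160)) .nil)) .nil)) (.node (.node (.node .leaf (nat_lit 2857465367442908)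 (.br (nat_lit 5) (.cons (.br (nat_lit 6) (.cons (.rel (nat_lit 38654726145)) .nil)) .nil)) .leaf) (nat_lit 2861101057032354) (.br (nat_lit 0) (.cons (.br (nat_lit 1) (.cons (.rel (nat_lit 42008640)) .nil)) .nil)) (.node .leaf (nat_lit 2863091770407838) (.br (nat_lit 1) (.cons (.br (nat_lit 2) (.cons (.rel (nat_lit 84935712)) .nil)) .nil)) .leaf)) (nat_lit 2863343161936034) (.br (nat_lit 3) (.cons (.br (nat_lit 1) (.cons (.rel (nat_lit 285212802)) (.cons (.rel (nat_lit 286278912)) .nil))) .nil)) (.node (.node .leaf (nat_lit 2863343162852828) (.br (nat_lit 0) (.cons (.br (nat_lit 3) (.cons (.rel (nat_lit 541085712)) .nil)) .nil)) .leaf) (nat_lit 2863346320247466) (.br (nat_lit 1) (.cons (.br (nat_lit 3) (.cons (.rel (nat_lit 570425409)) .nil)) .nil)) (.node .leaf (nat_lit 2863346320248284) (.br (nat_lit 0) (.cons (.br (nat_lit 1) (.cons (.rel (nat_lit 21241920)) .nil)) .nil)) .leaf))))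

/-- refutations 32 -/
def e32 : EX := (.node (.node .leaf (nat_lit 3078632559078876) (.br (nat_lit 2) (.cons (.br (nat_lit 4) (.cons (.rel (nat_lit 2281701441)) .nil)) .nil)) .leaf) (nat_lit 3078633838340907) (.br (nat_lit 4) (.cons (.br (nat_lit 6) (.cons (.rel (nat_lit 35433545760)) .nil)) .nil)) .leaf)

/-- refutations 34 -/
def e34 : EX := (.node (.node (.node (.node .leaf (nat_lit 3096241949180080) (.br (nat_lit 1) (.cons (.br (nat_lit 2) (.cons (.rel (nat_lit 85000704)) .nil)) .nil)) .leaf) (nat_lit 3096247796029616) (.br (nat_lit 1) (.cons (.br (nat_lit 4) (.cons (.rel (nat_lit 1091637249)) .nil)) .nil)) (.node .leaf (nat_lit 3097570669232304) (.br (nat_lit 1) (.cons (.br (nat_lit 2) (.cons (.rel (nat_lit 167805012)) .nil)) .nil)) .leaf)) (nat_lit 3097616449039836) (.br (nat_lit 0) (.cons (.br (nat_lit 3) (.cons (.rel (nat_lit 272630145)) .nil)) .nil)) (.node (.node .leaf (nat_lit 3097622736301532) (.br (nat_lit 2) (.cons (.br (nat_lit 3) (.cons (.rel (nat_lit 336723969))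 .nil)) .nil)) .leaf) (nat_lit 3098803011858608) (.br (nat_lit 2) (.cons (.br (nat_lit 3) (.cons (.rel (nat_lit 336626688)) .nil)) .nil)) .leaf)) (nat_lit 3098803013765296) (.br (nat_lit 4) (.cons (.br (nat_lit 1) (.cons (.rel (nat_lit 1091575812)) (.cons (.rel (nat_lit 1107312912)) .nil))) .nil)) (.node (.node (.node .leaf (nat_lit 3098803013766006) (.br (nat_lit 3) (.cons (.br (nat_lit 4) (.cons (.rel (nat_lit 1610645760)) .nil)) .nil)) .leaf) (nat_lit 3098804372721116) (.br (nat_lit 2) (.cons (.br (nat_lit 4) (.cons (.rel (nat_lit 1141916928)) .nil)) .nil)) .leaf) (nat_lit 3101596106321956) (.br (nat_lit 1) (.cons (.br (nat_lit 5) (.cons (.rel (nat_lit 4312272900)) .nil)) .nil)) (.node (.node .leaf (nat_lit 3101596106680496) (.br (nat_lit 0) (.cons (.br (nat_lit 1) (.cons (.rel (nat_lit 25174032)) .nil)) .nil)) .leaf) (nat_lit 3103962085480459) (.br (nat_lit 0) (.cons (.br (nat_lit 1) (.cons (.rel (nat_lit 21102720)) .nil)) .nil)) .leaf)))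

/-- refutations 35 -/
def e35 : EX := (.node (.node (.node (.node (.node .leaf (nat_lit 3104174342714844) (.br (nat_lit 1) (.cons (.br (nat_lit 4) (.cons (.rel (nat_lit 1091043330)) .nil)) .nil)) .leaf) (nat_lit 3104174343032284) (.br (nat_lit 1) (.cons (.br (nat_lit 0) (.cons (.rel (nat_lit 22024200)) (.cons (.rel (nat_lit 22024200)) .nil))) .nil)) .leaf) (nat_lit 3104174343698608) (.br (nat_lit 2) (.cons (.br (nat_lit 5) (.cons (.rel (nat_lit 4362354768)) .nil)) .nil)) (.node (.node .leaf (nat_lit 3104174345029084) (.br (nat_lit 1) (.cons (.br (nat_lit 5) (.cons (.rel (nat_lit 4312809984)) .nil)) .nil)) .leaf) (nat_lit 3104216675825116) (.br (nat_lit 1) (.cons (.br (nat_lit 2) (.cons (.rel (nat_lit 100664340)) .nil)) .nil)) .leaf)) (nat_lit 3104216675835356) (.br (nat_lit 1) (.cons (.br (nat_lit 5) (.cons (.rel (nat_lit 4312928256)) .nil)) .nil)) (.node (.node (.node .leaf (nat_lit 3104216677435568) (.br (nat_lit 1) (.cons (.br (nat_lit 3) (.cons (.rel (nat_lit 570425409))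 .nil)) .nil)) .leaf) (nat_lit 3104216678695088) (.br (nat_lit 2) (.cons (.br (nat_lit 5) (.cons (.rel (nat_lit 4429332480)) .nil)) .nil)) .leaf) (nat_lit 3104216678696412) (.br (nat_lit 1) (.cons (.br (nat_lit 6) (.cons (.rel (nat_lit 34393293120)) .nil)) .nil)) (.node (.node .leaf (nat_lit 3106982173359580) (.br (nat_lit 0) (.cons (.br (nat_lit 4) (.cons (.rel (nat_lit 2151679488)) .nil)) .nil)) .leaf) (nat_lit 3106985872481756) (.br (nat_lit 1) (.cons (.br (nat_lit 2) (.cons (.rel (nat_lit 83951760)) .nil)) .nil)) .leaf))) (nat_lit 3108045026770396) (.br (nat_lit 4) (.cons (.br (nat_lit 1) (.cons (.rel (nat_lit 1090519173)) (.cons (.rel (nat_lit 2181111876)) .nil))) .nil)) (.node (.node (.node (.node .leaf (nat_lit 3108047325248988) (.br (nat_lit 3) (.cons (.br (nat_lit 5) (.cons (.rel (nat_lit 4564583424)) .nil)) .nil)) .leaf) (nat_lit 3108260530161116) (.br (nat_lit 3) (.cons (.br (nat_lit 4) (.cons (.rel (nat_lit 1610612742)) .nil)) .nil)) .leaf) (nat_lit 3108265135505444)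 (.br (nat_lit 2) (.cons (.br (nat_lit 3) (.cons (.rel (nat_lit 402673665)) .nil)) .nil)) (.node (.node .leaf (nat_lit 3108265135506908) (.br (nat_lit 1) (.cons (.br (nat_lit 5) (.cons (.rel (nat_lit 4312809984)) .nil)) .nil)) .leaf) (nat_lit 3108347889113264) (.br (nat_lit 6) (.cons (.br (nat_lit 0) (.cons (.rel (nat_lit 34363933701)) (.cons (.rel (nat_lit 34363934736)) .nil))) .nil)) .leaf)) (nat_lit 3108348434374108) (.br (nat_lit 0) (.cons (.br (nat_lit 3) (.cons (.rel (nat_lit 273686784)) .nil)) .nil)) (.node (.node (.node .leaf (nat_lit 3108348437233840) (.br (nat_lit 1) (.cons (.br (nat_lit 5) (.cons (.rel (nat_lit 4328521761)) .nil)) .nil)) .leaf) (nat_lit 3108349072103600) (.br (nat_lit 1) (.cons (.br (nat_lit 3) (.cons (.rel (nat_lit 570687492)) .nil)) .nil)) .leaf) (nat_lit 3109335731591344) (.br (nat_lit 6) (.cons (.br (nat_lit 1) (.cons (.rel (nat_lit 34393293120)) (.cons (.rel (nat_lit 34393293120)) .nil))) .nil)) (.node .leaf (nat_lit 3109597228228784) (.br (nat_lit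 1) (.cons (.br (nat_lit 6) (.cons (.rel (nat_lit 34393293120)) .nil)) .nil)) .leaf))))

/-- refutations 37 -/
def e37 : EX := (.node (.node .leaf (nat_lit 2639944746501507) (.br (nat_lit 1) (.cons (.br (nat_lit 3) (.cons (.rel (nat_lit 302055681)) .nil)) .nil)) .leaf) (nat_lit 2639944746501596) (.br (nat_lit 0) (.cons (.br (nat_lit 3) (.cons (.rel (nat_lit 541196289)) .nil)) .nil)) (.node .leaf (nat_lit 2645794493346597) (.br (nat_lit 2) (.cons (.br (nat_lit 3) (.cons (.rel (nat_lit 335806530)) .nil)) .nil)) .leaf))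

/-- refutations 38 -/
def e38 : EX := (.node (.node (.node (.node .leaf (nat_lit 4486273878009119) (.br (nat_lit 2) (.cons (.br (nat_lit 3) (.cons (.rel (nat_lit 603997188)) .nil)) .nil)) .leaf) (nat_lit 4486277002464732) (.br (nat_lit 0) (.cons (.br (nat_lit 1) (.cons (.rel (nat_lit 42008640)) .nil)) .nil)) .leaf) (nat_lit 4487305174449433) (.br (nat_lit 1) (.cons (.br (nat_lit 2) (.cons (.rel (nat_lit 151027968)) .nil)) .nil)) (.node (.node .leaf (nat_lit 4487307773643007) (.br (nat_lit 0) (.cons (.br (nat_lit 1) (.cons (.rel (nat_lit 21102720)) .nil)) .nil)) .leaf) (nat_lit 4487307773644252) (.br (nat_lit 0) (.cons (.br (nat_lit 1) (.cons (.rel (nat_lit 22022400)) (.cons (.rel (nat_lit 22036497)) .nil))) .nil)) .leaf)) (nat_lit 4487307774978933) (.br (nat_lit 1) (.cons (.br (nat_lit 4) (.cons (.rel (nat_lit 1091569152)) .nil)) .nil)) (.node (.node (.node .leaf (nat_lit 4487348144832767) (.br (nat_lit 5) (.cons (.br (nat_lit 4) (.cons (.rel (nat_lit 5369233440)) (.cons (.rel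 (nat_lit 6442451220)) .nil))) .nil)) .leaf) (nat_lit 4487348145103733) (.br (nat_lit 1) (.cons (.br (nat_lit 2) (.cons (.rel (nat_lit 84934677)) .nil)) .nil)) .leaf) (nat_lit 4487350724329727) (.br (nat_lit 1) (.cons (.br (nat_lit 3) (.cons (.rel (nat_lit 301999104)) .nil)) .nil)) (.node (.node .leaf (nat_lit 4487350724651893) (.br (nat_lit 1) (.cons (.br (nat_lit 2) (.cons (.rel (nat_lit 84414480)) .nil)) .nil)) .leaf) (nat_lit 4487350743008732) (.br (nat_lit 2) (.cons (.br (nat_lit 4) (.cons (.rel (nat_lit 1143275520)) .nil)) .nil)) .leaf)))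

/-- refutations 39 -/
def e39 : EX := (.node (.node (.node (.node .leaf (nat_lit 4487391052562687) (.br (nat_lit 1) (.cons (.br (nat_lit 3) (.cons (.rel (nat_lit 286343184)) (.cons (.rel (nat_lit 301999104)) .nil))) .nil)) .leaf) (nat_lit 4487393692662642) (.br (nat_lit 0) (.cons (.br (nat_lit 2) (.cons (.rel (nat_lit 72417282)) .nil)) .nil)) .leaf) (nat_lit 4487393694974207) (.br (nat_lit 1) (.cons (.br (nat_lit 2) (.cons (.rel (nat_lit 151519296)) .nil)) .nil)) (.node .leaf (nat_lit 4492676502127252) (.br (nat_lit 0) (.cons (.br (nat_lit 4) (.cons (.rel (nat_lit 1077941376)) .nil)) .nil)) .leaf)) (nat_lit 4492676503726962) (.br (nat_lit 2) (.cons (.br (nat_lit 4) (.cons (.rel (nat_lit 1141374984)) .nil)) .nil)) (.node (.node (.node .leaf (nat_lit 4492676504748287) (.br (nat_lit 4) (.cons (.br (nat_lit 5) (.cons (.rel (nat_lit 5369766912)) (.cons (.rel (nat_lit 5369790480)) .nil))) .nil)) .leaf) (nat_lit 4492676504748917) (.br (nat_lit 1) (.cons (.br (nat_lit 2) (.cons (.rel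 (nat_lit 84414480)) .nil)) .nil)) .leaf) (nat_lit 4492676504994674) (.br (nat_lit 1) (.cons (.br (nat_lit 2) (.cons (.rel (nat_lit 84971520)) .nil)) .nil)) (.node .leaf (nat_lit 4492679759480284) (.br (nat_lit 1) (.cons (.br (nat_lit 4) (.cons (.rel (nat_lit 1091569152)) .nil)) .nil)) .leaf)))

/-- refutations 40 -/
def e40 : EX := (.node (.node (.node (.node (.node .leaf (nat_lit 4492716812255487) (.br (nat_lit 1) (.cons (.br (nat_lit 4) (.cons (.rel (nat_lit 1090519173)) .nil)) .nil)) .leaf) (nat_lit 4492716833228252) (.br (nat_lit 1) (.cons (.br (nat_lit 3) (.cons (.rel (nat_lit 570425409)) .nil)) .nil)) .leaf) (nat_lit 4492719473090012) (.br (nat_lit 1) (.cons (.br (nat_lit 4) (.cons (.rel (nat_lit 1091637249)) .nil)) .nil)) (.node .leaf (nat_lit 4492719473400614) (.br (nat_lit 1) (.cons (.br (nat_lit 2) (.cons (.rel (nat_lit 83887488)) .nil)) .nil)) .leaf)) (nat_lit 4492719474371442) (.br (nat_lit 1) (.cons (.br (nat_lit 3) (.cons (.rel (nat_lit 303316992)) .nil)) .nil))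 (.node (.node .leaf (nat_lit 4492719474379637) (.br (nat_lit 1) (.cons (.br (nat_lit 5) (.cons (.rel (nat_lit 4312272900)) .nil)) .nil)) .leaf) (nat_lit 4492720068364543) (.br (nat_lit 0) (.cons (.br (nat_lit 1) (.cons (.rel (nat_lit 42008640)) .nil)) .nil)) (.node .leaf (nat_lit 4492722055135487) (.br (nat_lit 1) (.cons (.br (nat_lit 3) (.cons (.rel (nat_lit 286265616)) .nil)) .nil)) .leaf))) (nat_lit 4492722076107007) (.br (nat_lit 1) (.cons (.br (nat_lit 5) (.cons (.rel (nat_lit 4311810180)) .nil)) .nil)) (.node (.node (.node (.node .leaf (nat_lit 4492722076108252) (.br (nat_lit 2) (.cons (.br (nat_lit 5) (.cons (.rel (nat_lit 4429185060)) .nil)) .nil)) .leaf) (nat_lit 4492759803947893) (.br (nat_lit 0) (.cons (.br (nat_lit 1) (.cons (.rel (nat_lit 22024200)) .nil)) .nil)) .leaf) (nat_lit 4492762382345452) (.br (nat_lit 0) (.cons (.br (nat_lit 1) (.cons (.rel (nat_lit 25166337)) .nil)) .nil)) (.node .leaf (nat_lit 4493790071488767) (.br (nat_lit 1) (.cons (.br (nat_lit 2)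 (.cons (.rel (nat_lit 150995985)) .nil)) .nil)) .leaf)) (nat_lit 4493793740747007) (.br (nat_lit 0) (.cons (.br (nat_lit 1) (.cons (.rel (nat_lit 22022400)) .nil)) .nil)) (.node (.node .leaf (nat_lit 4493999373344220) (.br (nat_lit 1) (.cons (.br (nat_lit 2) (.cons (.rel (nat_lit 84935712)) .nil)) .nil)) .leaf) (nat_lit 4494001976437547) (.br (nat_lit 0) (.cons (.br (nat_lit 1) (.cons (.rel (nat_lit 22024200)) .nil)) .nil)) (.node .leaf (nat_lit 4497177084436735) (.br (nat_lit 1) (.cons (.br (nat_lit 3) (.cons (.rel (nat_lit 570687492)) .nil)) .nil)) .leaf))))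

/-- refutations 41 -/
def e41 : EX := (.node (.node (.node (.node (.node .leaf (nat_lit 4498042611106047) (.br (nat_lit 1) (.cons (.br (nat_lit 2) (.cons (.rel (nat_lit 83887488)) .nil)) .nil)) .leaf) (nat_lit 4498042611107292) (.br (nat_lit 2) (.cons (.br (nat_lit 1) (.cons (.rel (nat_lit 84414480)) (.cons (.rel (nat_lit 84935712)) .nil))) .nil)) .leaf) (nat_lit 4498042613338772) (.br (nat_lit 2) (.cons (.br (nat_lit 3) (.cons (.rel (nat_lit 336068613)) .nil)) .nil)) (.node .leaf (nat_lit 4498045190586623) (.br (nat_lit 2) (.cons (.br (nat_lit 3) (.cons (.rel (nat_lit 337907712)) .nil)) .nil)) .leaf)) (nat_lit 4498045191878108) (.br (nat_lit 2) (.cons (.br (nat_lit 3) (.cons (.rel (nat_lit 337907712)) .nil)) .nil)) (.node (.node (.node .leaf (nat_lit 4498047834596134) (.br (nat_lit 4) (.cons (.br (nat_lit 5) (.cons (.rel (nat_lit 10737680400)) .nil)) .nil)) .leaf) (nat_lit 4498085539787007) (.br (nat_lit 1) (.cons (.br (nat_lit 2) (.cons (.rel (nat_lit 83887488)) (.cons (.rel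 (nat_lit 100664340)) .nil))) .nil)) .leaf) (nat_lit 4498088140255487) (.br (nat_lit 1) (.cons (.br (nat_lit 2) (.cons (.rel (nat_lit 84414480)) .nil)) .nil)) (.node .leaf (nat_lit 4498088161228252) (.br (nat_lit 0) (.cons (.br (nat_lit 3) (.cons (.rel (nat_lit 276889602)) .nil)) .nil)) .leaf))) (nat_lit 4498090803639772) (.br (nat_lit 1) (.cons (.br (nat_lit 5) (.cons (.rel (nat_lit 4311761040)) .nil)) .nil)) (.node (.node (.node (.node .leaf (nat_lit 4498090804624860) (.br (nat_lit 1) (.cons (.br (nat_lit 2) (.cons (.rel (nat_lit 84414480)) .nil)) .nil)) .leaf) (nat_lit 4498091327927532) (.br (nat_lit 0) (.cons (.br (nat_lit 1) (.cons (.rel (nat_lit 22024200)) .nil)) .nil)) .leaf) (nat_lit 4498128492021212) (.br (nat_lit 1) (.cons (.br (nat_lit 3) (.cons (.rel (nat_lit 285736968)) .nil)) .nil)) (.node .leaf (nat_lit 4498128510134932) (.br (nat_lit 0) (.cons (.br (nat_lit 4) (.cons (.rel (nat_lit 1077941376)) .nil)) .nil)) .leaf)) (nat_lit 4498131110901212) (.br (nat_lit 0)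 (.cons (.br (nat_lit 1) (.cons (.rel (nat_lit 22022400)) .nil)) .nil)) (.node (.node .leaf (nat_lit 4498133711378687) (.br (nat_lit 1) (.cons (.br (nat_lit 2) (.cons (.rel (nat_lit 83887488)) (.cons (.rel (nat_lit 83951760)) .nil))) .nil)) .leaf) (nat_lit 4498133713953653) (.br (nat_lit 1) (.cons (.br (nat_lit 2) (.cons (.rel (nat_lit 84414480)) .nil)) .nil)) (.node .leaf (nat_lit 4498133714240294) (.br (nat_lit 2) (.cons (.br (nat_lit 3) (.cons (.rel (nat_lit 604045329)) .nil)) .nil)) .leaf))))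

/-- refutations 42 -/
def e42 : EX := (.node (.node (.node (.node .leaf (nat_lit 4434348150849788) (.br (nat_lit 5) (.cons (.br (nat_lit 3) (.cons (.rel (nat_lit 4564455681)) (.cons (.rel (nat_lit 4831903749)) (.cons (.rel (nat_lit 4564471812)) .nil)))) .nil)) .leaf) (nat_lit 4434348150850198) (.br (nat_lit 5) (.cons (.br (nat_lit 1) (.cons (.rel (nat_lit 4328522760)) (.cons (.rel (nat_lit 4311810180)) (.cons (.rel (nat_lit 4311810180)) .nil)))) .nil)) .leaf) (nat_lit 4434348150850443) (.br (nat_lit 3) (.cons (.br (nat_lit 5) (.cons (.rel (nat_lit 9126805584)) .nil)) .nil)) (.node (.node .leaf (nat_lit 4434348150850788) (.br (nat_lit 3) (.cons (.br (nat_lit 4) (.cons (.rel (nat_lit 1343226120)) .nil)) .nil)) .leaf) (nat_lit 4434348150851036) (.br (nat_lit 6) (.cons (.br (nat_lit 0) (.cons (.rel (nat_lit 17185120257)) (.cons (.rel (nat_lit 17184326736)) .nil))) .nil)) .leaf)) (nat_lit 4439899944261084) (.br (nat_lit 0) (.cons (.br (nat_lit 1) (.cons (.rel (nat_lit 25174032))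 .nil)) .nil)) (.node (.node (.node .leaf (nat_lit 4446563141795292) (.br (nat_lit 4) (.cons (.br (nat_lit 6) (.cons (.rel (nat_lit 19327363074)) .nil)) .nil)) .leaf) (nat_lit 4446565733875164) (.br (nat_lit 1) (.cons (.br (nat_lit 2) (.cons (.rel (nat_lit 84934677)) (.cons (.rel (nat_lit 150994950)) .nil))) .nil)) .leaf) (nat_lit 4446565735146972) (.br (nat_lit 0) (.cons (.br (nat_lit 1) (.cons (.rel (nat_lit 37748994)) .nil)) .nil)) (.node .leaf (nat_lit 4446568355315164) (.br (nat_lit 1) (.cons (.br (nat_lit 2) (.cons (.rel (nat_lit 150994950)) .nil)) .nil)) .leaf)))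

/-- refutations 43 -/
def e43 : EX := (.node (.node (.node .leaf (nat_lit 4522266109143297) (.br (nat_lit 1) (.cons (.br (nat_lit 2) (.cons (.rel (nat_lit 100663305)) (.cons (.rel (nat_lit 100680192)) .nil))) .nil)) .leaf) (nat_lit 4523772679637249) (.br (nat_lit 1) (.cons (.br (nat_lit 4) (.cons (.rel (nat_lit 1091569152)) .nil)) .nil)) .leaf) (nat_lit 4527903847933304) (.br (nat_lit 0) (.cons (.br (nat_lit 1) (.cons (.rel (nat_lit 42008640)) .nil)) .nil)) (.node .leaf (nat_lit 4533230196032144) (.br (nat_lit 2) (.cons (.br (nat_lit 4) (.cons (.rel (nat_lit 1141113936)) .nil)) .nil)) .leaf))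

/-- refutations 44 -/
def e44 : EX := (.node (.node (.node .leaf (nat_lit 4856603522383324) (.br (nat_lit 2) (.cons (.br (nat_lit 4) (.cons (.rel (nat_lit 1141374984)) .nil)) .nil)) .leaf) (nat_lit 4858126038266792) (.br (nat_lit 1) (.cons (.br (nat_lit 2) (.cons (.rel (nat_lit 84414480)) .nil)) .nil)) .leaf) (nat_lit 4860815331520788) (.br (nat_lit 0) (.cons (.br (nat_lit 1) (.cons (.rel (nat_lit 21102720)) .nil)) .nil)) (.node (.node .leaf (nat_lit 4860815964860603) (.br (nat_lit 0) (.cons (.br (nat_lit 3) (.cons (.rel (nat_lit 273764352)) .nil)) .nil)) .leaf) (nat_lit 4860815964860692) (.br (nat_lit 0) (.cons (.br (nat_lit 2) (.cons (.rel (nat_lit 75564288)) .nil)) .nil)) .leaf))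

/-- refutations 45 -/
def e45 : EX := (.node .leaf (nat_lit 4863177121183196) (.br (nat_lit 1) (.cons (.br (nat_lit 3) (.cons (.rel (nat_lit 553654272)) .nil)) .nil)) .leaf)

/-- refutations 46 -/
def e46 : EX := (.node (.node (.node .leaf (nat_lit 4863265456797148) (.br (nat_lit 1) (.cons (.br (nat_lit 2) (.cons (.rel (nat_lit 85000704)) .nil)) .nil)) .leaf) (nat_lit 4863265457061340) (.br (nat_lit 2) (.cons (.br (nat_lit 3) (.cons (.rel (nat_lit 671088708)) .nil)) .nil)) .leaf) (nat_lit 4867483114997212) (.br (nat_lit 2) (.cons (.br (nat_lit 5) (.cons (.rel (nat_lit 4363124742)) .nil)) .nil)) (.node (.node .leaf (nat_lit 4867704477706997) (.br (nat_lit 1) (.cons (.br (nat_lit 3) (.cons (.rel (nat_lit 302022672)) .nil)) .nil)) .leaf) (nat_lit 4867793066945822) (.br (nat_lit 0) (.cons (.br (nat_lit 4) (.cons (.rel (nat_lit 1078985730)) .nil)) .nil)) .leaf))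

/-- refutations 47 -/
def e47 : EX := (.node (.node (.node .leaf (nat_lit 4609247232940294) (.br (nat_lit 1) (.cons (.br (nat_lit 4) (.cons (.rel (nat_lit 1090520208)) .nil)) .nil)) .leaf) (nat_lit 4609453506503956) (.br (nat_lit 1) (.cons (.br (nat_lit 2) (.cons (.rel (nat_lit 84414480)) .nil)) .nil)) (.node .leaf (nat_lit 4610312917760262) (.br (nat_lit 1) (.cons (.br (nat_lit 2) (.cons (.rel (nat_lit 83887488)) .nil)) .nil)) .leaf)) (nat_lit 4610312917761500) (.br (nat_lit 4) (.cons (.br (nat_lit 1) (.cons (.rel (nat_lit 2164278276)) (.cons (.rel (nat_lit 1091117064)) .nil))) .nil)) (.node (.node .leaf (nat_lit 4620973026590172) (.br (nat_lit 4) (.cons (.br (nat_lit 5) (.cons (.rel (nat_lit 9663710208)) (.cons (.rel (nat_lit 5369762052)) .nil))) .nil)) .leaf) (nat_lit 4622527909948892) (.br (nat_lit 1) (.cons (.br (nat_lit 2) (.cons (.rel (nat_lit 84427776)) .nil)) .nil)) .leaf))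

/-- refutations 48 -/
def e48 : EX := (.node (.node .leaf (nat_lit 4881026942229980) (.br (nat_lit 0) (.cons (.br (nat_lit 1) (.cons (.rel (nat_lit 42008640)) .nil)) .nil)) .leaf) (nat_lit 4883793907309924) (.br (nat_lit 0) (.cons (.br (nat_lit 1) (.cons (.rel (nat_lit 23330817)) .nil)) .nil)) .leaf)

/-- refutations 49 -/
def e49 : EX := (.node .leaf (nat_lit 4945654997159193) (.br (nat_lit 0) (.cons (.br (nat_lit 1) (.cons (.rel (nat_lit 25174032)) .nil)) .nil)) .leaf)

/-- refutations 50 -/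
def e50 : EX := (.node (.node (.node .leaf (nat_lit 4950073339559193) (.br (nat_lit 3) (.cons (.br (nat_lit 1) (.cons (.rel (nat_lit 570425409)) (.cons (.rel (nat_lit 286265616)) .nil))) .nil)) .leaf) (nat_lit 4950073339559298) (.br (nat_lit 1) (.cons (.br (nat_lit 3) (.cons (.rel (nat_lit 285474885)) .nil)) .nil)) .leaf) (nat_lit 4950116312794588) (.br (nat_lit 0) (.cons (.br (nat_lit 3) (.cons (.rel (nat_lit 273686784)) .nil)) .nil)) (.node (.node .leaf (nat_lit 4950159217912708) (.br (nat_lit 2) (.cons (.br (nat_lit 3) (.cons (.rel (nat_lit 336723969)) .nil)) .nil)) .leaf) (nat_lit 4950159220599721) (.br (nat_lit 0) (.cons (.br (nat_lit 1) (.cons (.rel (nat_lit 21102720)) .nil)) .nil)) .leaf))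

/-- refutations 51 -/
def e51 : EX := (.node (.node (.node .leaf (nat_lit 4951224369801497) (.br (nat_lit 2) (.cons (.br (nat_lit 6) (.cons (.rel (nat_lit 17314091016)) .nil)) .nil)) .leaf) (nat_lit 4951370422603228) (.br (nat_lit 0) (.cons (.br (nat_lit 3) (.cons (.rel (nat_lit 276824340)) .nil)) .nil)) .leaf) (nat_lit 4955708336650997) (.br (nat_lit 1) (.cons (.br (nat_lit 3) (.cons (.rel (nat_lit 286265616)) .nil)) .nil)) (.node .leaf (nat_lit 4955711088198569) (.br (nat_lit 0) (.cons (.br (nat_lit 1) (.cons (.rel (nat_lit 22085637)) .nil)) .nil)) .leaf))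

/-- refutations 52 -/
def e52 : EX := (.node .leaf (nat_lit 4960996495191516) (.br (nat_lit 1) (.cons (.br (nat_lit 6) (.cons (.rel (nat_lit 17213489154)) .nil)) .nil)) .leaf)

/-- refutations 53 -/
def e53 : EX := (.node .leaf (nat_lit 4973117628170522) (.br (nat_lit 1) (.cons (.br (nat_lit 3) (.cons (.rel (nat_lit 570425409)) .nil)) .nil)) .leaf)

/-- refutations 54 -/
def e54 : EX := (.node (.node (.node .leaf (nat_lit 4926886485985582) (.br (nat_lit 1) (.cons (.br (nat_lit 2) (.cons (.rel (nat_lit 151027968)) .nil)) .nil)) .leaf) (nat_lit 4927412652044448) (.br (nat_lit 0) (.cons (.br (nat_lit 2) (.cons (.rel (nat_lit 71835648)) .nil)) .nil)) .leaf) (nat_lit 4932781887763932) (.br (nat_lit 1) (.cons (.br (nat_lit 2) (.cons (.rel (nat_lit 84971520)) .nil)) .nil)) (.node .leaf (nat_lit 4939136339916252) (.br (nat_lit 0) (.cons (.br (nat_lit 2) (.cons (.rel (nat_lit 75564288)) .nil)) .nil)) .leaf))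

/-- refutations 56 -/
def e56 : EX := (.node (.node (.node .leaf (nat_lit 5284324874447024) (.br (nat_lit 2) (.cons (.br (nat_lit 5) (.cons (.rel (nat_lit 4362141825)) .nil)) .nil)) .leaf) (nat_lit 5288414295382053) (.br (nat_lit 0) (.cons (.br (nat_lit 3) (.cons (.rel (nat_lit 276842496)) .nil)) .nil)) .leaf) (nat_lit 5288414295383516) (.br (nat_lit 4) (.cons (.br (nat_lit 3) (.cons (.rel (nat_lit 1343226120)) (.cons (.rel (nat_lit 1343292417)) .nil))) .nil)) (.node .leaf (nat_lit 5289479447272924) (.br (nat_lit 2) (.cons (.br (nat_lit 3) (.cons (.rel (nat_lit 336723969)) .nil)) .nil)) .leaf))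

/-- refutations 57 -/
def e57 : EX := (.node (.node .leaf (nat_lit 5295514437085485) (.br (nat_lit 0) (.cons (.br (nat_lit 3) (.cons (.rel (nat_lit 273170433)) .nil)) .nil)) .leaf) (nat_lit 5296752002834732) (.br (nat_lit 0) (.cons (.br (nat_lit 1) (.cons (.rel (nat_lit 22094100)) .nil)) .nil)) (.node .leaf (nat_lit 5296797459471218) (.br (nat_lit 0) (.cons (.br (nat_lit 2) (.cons (.rel (nat_lit 71372928)) .nil)) .nil)) .leaf))

/-- refutations 58 -/
def e58 : EX := (.node (.node .leaf (nat_lit 5303070632499381) (.br (nat_lit 2) (.cons (.br (nat_lit 5) (.cons (.rel (nat_lit 4362403908)) .nil)) .nil)) .leaf) (nat_lit 5303239409959213) (.br (nat_lit 2) (.cons (.br (nat_lit 3) (.cons (.rel (nat_lit 671088708)) .nil)) .nil)) (.node .leaf (nat_lit 5303240571782620) (.br (nat_lit 0) (.cons (.br (nat_lit 1) (.cons (.rel (nat_lit 21102720)) .nil)) .nil)) .leaf))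

/-- refutations 59 -/
def e59 : EX := (.node .leaf (nat_lit 5314172304752667) (.br (nat_lit 0) (.cons (.br (nat_lit 1) (.cons (.rel (nat_lit 21565440)) .nil)) .nil)) .leaf)

/-- refutations 60 -/
def e60 : EX := (.node (.node .leaf (nat_lit 5319549459875292) (.br (nat_lit 6) (.cons (.br (nat_lit 2) (.cons (.rel (nat_lit 17248032768)) (.cons (.rel (nat_lit 17247535104)) .nil))) .nil)) .leaf) (nat_lit 5319549480846812) (.br (nat_lit 0) (.cons (.br (nat_lit 3) (.cons (.rel (nat_lit 273679368)) .nil)) .nil)) (.node .leaf (nat_lit 5324917767976412) (.br (nat_lit 3) (.cons (.br (nat_lit 4) (.cons (.rel (nat_lit 1342194066)) .nil)) .nil)) .leaf))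

/-- refutations 61 -/
def e61 : EX := (.node (.node (.node .leaf (nat_lit 5366917730176476) (.br (nat_lit 2) (.cons (.br (nat_lit 5) (.cons (.rel (nat_lit 4363157760)) .nil)) .nil)) .leaf) (nat_lit 5372274698148145) (.br (nat_lit 1) (.cons (.br (nat_lit 2) (.cons (.rel (nat_lit 151519296)) .nil)) .nil)) .leaf) (nat_lit 5372328775300572) (.br (nat_lit 0) (.cons (.br (nat_lit 3) (.cons (.rel (nat_lit 273170433)) .nil)) .nil)) (.node .leaf (nat_lit 5372328777860572) (.br (nat_lit 0) (.cons (.br (nat_lit 1) (.cons (.rel (nat_lit 21241920)) .nil)) .nil)) .leaf))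

/-- refutations 62 -/
def e62 : EX := (.node (.node (.node .leaf (nat_lit 5373583517834653) (.br (nat_lit 1) (.cons (.br (nat_lit 5) (.cons (.rel (nat_lit 4328607744)) .nil)) .nil)) .leaf) (nat_lit 5373609315959420) (.br (nat_lit 0) (.cons (.br (nat_lit 1) (.cons (.rel (nat_lit 21102720)) .nil)) .nil)) .leaf) (nat_lit 5373610628776747) (.br (nat_lit 0) (.cons (.br (nat_lit 3) (.cons (.rel (nat_lit 276842496)) (.cons (.rel (nat_lit 276824340)) .nil))) (.cons (.br (nat_lit 3) (.cons (.rel (nat_lit 273686784)) (.cons (.rel (nat_lit 273678369)) .nil))) .nil))) (.node .leaf (nat_lit 5373610628777436) (.br (nat_lit 5) (.cons (.br (nat_lit 0) (.cons (.rel (nat_lit 4300226562)) (.cons (.rel (nat_lit 4300220928)) .nil))) .nil)) .leaf))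

/-- refutations 63 -/
def e63 : EX := (.node .leaf (nat_lit 5379029536968156) (.br (nat_lit 0) (.cons (.br (nat_lit 1) (.cons (.rel (nat_lit 42008640)) (.cons (.rel (nat_lit 37765125)) (.cons (.rel (nat_lit 22085637)) .nil)))) .nil)) .leaf)

/-- refutations 64 -/
def e64 : EX := (.node (.node .leaf (nat_lit 5402090264350752) (.br (nat_lit 2) (.cons (.br (nat_lit 3) (.cons (.rel (nat_lit 337907712)) .nil)) .nil)) .leaf) (nat_lit 5407470177716251) (.br (nat_lit 0) (.cons (.br (nat_lit 2) (.cons (.rel (nat_lit 138413328)) .nil)) .nil)) .leaf)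

/-- refutations 65 -/
def e65 : EX := (.node (.node .leaf (nat_lit 5407694151017948) (.br (nat_lit 1) (.cons (.br (nat_lit 3) (.cons (.rel (nat_lit 286269441)) .nil)) .nil)) .leaf) (nat_lit 5408802269589680) (.br (nat_lit 1) (.cons (.br (nat_lit 2) (.cons (.rel (nat_lit 84935712)) .nil)) .nil)) .leaf)

/-- refutations 66 -/
def e66 : EX := (.node (.node (.node (.node .leaf (nat_lit 5488767962716961) (.br (nat_lit 0) (.cons (.br (nat_lit 3) (.cons (.rel (nat_lit 273678369)) .nil)) .nil)) .leaf) (nat_lit 5490137072936997) (.br (nat_lit 2) (.cons (.br (nat_lit 3) (.cons (.rel (nat_lit 336069648)) (.cons (.rel (nat_lit 335544456)) .nil))) .nil)) (.node .leaf (nat_lit 5490137073238678) (.br (nat_lit 1) (.cons (.br (nat_lit 3) (.cons (.rel (nat_lit 301999104)) .nil)) .nil)) .leaf)) (nat_lit 5490137074528288) (.br (nat_lit 5) (.cons (.br (nat_lit 4) (.cons (.rel (nat_lit 9664991232)) (.cons (.rel (nat_lit 6443499588)) (.cons (.rel (nat_lit 6442456080)) .nil)))) .nil)) (.node (.node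 .leaf (nat_lit 5490137074528557) (.br (nat_lit 5) (.cons (.br (nat_lit 6) (.cons (.rel (nat_lit 21475885329)) .nil)) .nil)) .leaf) (nat_lit 5490137074528567) (.br (nat_lit 4) (.cons (.br (nat_lit 1) (.cons (.rel (nat_lit 2164278276)) (.cons (.rel (nat_lit 1090519173)) .nil))) .nil)) (.node .leaf (nat_lit 5490137074529063) (.br (nat_lit 5) (.cons (.br (nat_lit 3) (.cons (.rel (nat_lit 4563402912)) (.cons (.rel (nat_lit 4564451856)) .nil))) .nil)) .leaf))) (nat_lit 5490137074529183) (.br (nat_lit 4) (.cons (.br (nat_lit 5) (.cons (.rel (nat_lit 5368840584)) (.cons (.rel (nat_lit 5368710273)) .nil))) .nil)) (.node (.node (.node .leaf (nat_lit 5490137074529513) (.br (nat_lit 5) (.cons (.br (nat_lit 2) (.cons (.rel (nat_lit 4362354768)) (.cons (.rel (nat_lit 4363157760)) .nil))) .nil)) .leaf) (nat_lit 5490137074529558) (.br (nat_lit 1) (.cons (.br (nat_lit 5) (.cons (.rel (nat_lit 4312273938)) .nil)) .nil)) (.node .leaf (nat_lit 5490137074529756) (.br (nat_lit 5) (.cons (.br (nat_lit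 4) (.cons (.rel (nat_lit 5368710273)) (.cons (.rel (nat_lit 10737680400)) .nil))) .nil)) .leaf)) (nat_lit 5490137075511333) (.br (nat_lit 0) (.cons (.br (nat_lit 2) (.cons (.rel (nat_lit 138412293)) .nil)) .nil)) (.node (.node .leaf (nat_lit 5490139078420516) (.br (nat_lit 2) (.cons (.br (nat_lit 3) (.cons (.rel (nat_lit 336593448)) .nil)) .nil)) .leaf) (nat_lit 5490139079406998) (.br (nat_lit 0) (.cons (.br (nat_lit 1) (.cons (.rel (nat_lit 21102720)) .nil)) .nil)) (.node .leaf (nat_lit 5490140319329067) (.br (nat_lit 2) (.cons (.br (nat_lit 4) (.cons (.rel (nat_lit 1141903632)) .nil)) .nil)) .leaf))))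

/-- refutations 67 -/
def e67 : EX := (.node (.node .leaf (nat_lit 5495474077316572) (.br (nat_lit 1) (.cons (.br (nat_lit 2) (.cons (.rel (nat_lit 84935712)) .nil)) .nil)) .leaf) (nat_lit 5495474077633394) (.br (nat_lit 1) (.cons (.br (nat_lit 2) (.cons (.rel (nat_lit 100663305)) .nil)) .nil)) (.node .leaf (nat_lit 5499597837314859) (.br (nat_lit 4) (.cons (.br (nat_lit 5) (.cons (.rel (nat_lit 5369823489)) .nil)) .nil)) .leaf))

/-- refutations 68 -/
def e68 : EX := (.node (.node (.node (.node (.node .leaf (nat_lit 10996238950921692) (.br (nat_lit 0) (.cons (.br (nat_lit 3) (.cons (.rel (nat_lit 273678369)) .nil)) .nil)) .leaf) (nat_lit 10996666283377265) (.br (nat_lit 1) (.cons (.br (nat_lit 2) (.cons (.rel (nat_lit 84414480)) .nil)) .nil)) .leaf) (nat_lit 10996711397323379) (.br (nat_lit 0) (.cons (.br (nat_lit 2) (.cons (.rel (nat_lit 138417153)) .nil)) .nil)) (.node .leaf (nat_lit 10997488275976317) (.br (nat_lit 3) (.cons (.br (nat_lit 4) (.cons (.rel (nat_lit 1610612742))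 (.cons (.rel (nat_lit 1610612742)) .nil))) .nil)) .leaf)) (nat_lit 10997488275976817) (.br (nat_lit 3) (.cons (.br (nat_lit 4) (.cons (.rel (nat_lit 2415920148)) .nil)) .nil)) (.node (.node (.node .leaf (nat_lit 10997490373128817) (.br (nat_lit 4) (.cons (.br (nat_lit 3) (.cons (.rel (nat_lit 2415920148)) (.cons (.rel (nat_lit 2415936000)) .nil))) .nil)) .leaf) (nat_lit 10997490373129692) (.br (nat_lit 3) (.cons (.br (nat_lit 5) (.cons (.rel (nat_lit 4563928068)) .nil)) .nil)) .leaf) (nat_lit 10997493497886172) (.br (nat_lit 1) (.cons (.br (nat_lit 3) (.cons (.rel (nat_lit 570687492)) .nil)) .nil)) (.node .leaf (nat_lit 10997493539827837) (.br (nat_lit 2) (.cons (.br (nat_lit 4) (.cons (.rel (nat_lit 1142030340)) .nil)) .nil)) .leaf))) (nat_lit 11001785338561172) (.br (nat_lit 2) (.cons (.br (nat_lit 3) (.cons (.rel (nat_lit 335544456)) .nil)) .nil)) (.node (.node (.node (.node .leaf (nat_lit 11001785338564060) (.br (nat_lit 5) (.cons (.br (nat_lit 3) (.cons (.rel (nat_lit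 4564451856)) (.cons (.rel (nat_lit 8858371584)) .nil))) .nil)) .leaf) (nat_lit 11001785339179189) (.br (nat_lit 2) (.cons (.br (nat_lit 5) (.cons (.rel (nat_lit 4362080388)) .nil)) .nil)) .leaf) (nat_lit 11001785340414577) (.br (nat_lit 0) (.cons (.br (nat_lit 1) (.cons (.rel (nat_lit 23330817)) .nil)) .nil)) (.node .leaf (nat_lit 11001785340425692) (.br (nat_lit 3) (.cons (.br (nat_lit 5) (.cons (.rel (nat_lit 4563928068)) .nil)) .nil)) .leaf)) (nat_lit 11001785340459189) (.br (nat_lit 3) (.cons (.br (nat_lit 1) (.cons (.rel (nat_lit 286269441)) (.cons (.rel (nat_lit 285212802)) .nil))) .nil)) (.node (.node (.node .leaf (nat_lit 11001785340469283) (.br (nat_lit 0) (.cons (.br (nat_lit 1) (.cons (.rel (nat_lit 21102720)) .nil)) .nil)) .leaf) (nat_lit 11001785340469429) (.br (nat_lit 5) (.cons (.br (nat_lit 3) (.cons (.rel (nat_lit 8858378244)) (.cons (.rel (nat_lit 4564451856)) .nil))) .nil)) .leaf) (nat_lit 11001785341182077) (.br (nat_lit 1) (.cons (.br (nat_lit 3) (.cons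 (.rel (nat_lit 286392324)) .nil)) .nil)) (.node .leaf (nat_lit 11001785341227189) (.br (nat_lit 1) (.cons (.br (nat_lit 2) (.cons (.rel (nat_lit 84971520)) .nil)) .nil)) .leaf))))

/-- refutations 69 -/
def e69 : EX := (.node (.node (.node (.node .leaf (nat_lit 11003082421882332) (.br (nat_lit 0) (.cons (.br (nat_lit 3) (.cons (.rel (nat_lit 276828165)) (.cons (.rel (nat_lit 272646276)) .nil))) .nil)) .leaf) (nat_lit 11003114189516831) (.br (nat_lit 0) (.cons (.br (nat_lit 2) (.cons (.rel (nat_lit 73400388)) .nil)) .nil)) (.node .leaf (nat_lit 11005914463090140) (.br (nat_lit 0) (.cons (.br (nat_lit 1) (.cons (.rel (nat_lit 21102720)) .nil)) .nil)) .leaf)) (nat_lit 11005917726247574) (.br (nat_lit 1) (.cons (.br (nat_lit 2) (.cons (.rel (nat_lit 167781444)) .nil)) .nil)) (.node (.node .leaf (nat_lit 11006078210559452) (.br (nat_lit 3) (.cons (.br (nat_lit 6) (.cons (.rel (nat_lit 17716740609)) .nil)) .nil)) .leaf) (nat_lit 11006080307720817) (.br (nat_lit 3) (.cons (.br (nat_lit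 5) (.cons (.rel (nat_lit 4563402912)) .nil)) .nil)) .leaf)) (nat_lit 11006080307765283) (.br (nat_lit 0) (.cons (.br (nat_lit 1) (.cons (.rel (nat_lit 21241920)) .nil)) .nil)) (.node (.node (.node .leaf (nat_lit 11006082404862077) (.br (nat_lit 1) (.cons (.br (nat_lit 3) (.cons (.rel (nat_lit 285212802)) .nil)) .nil)) .leaf) (nat_lit 11006082404862577) (.br (nat_lit 1) (.cons (.br (nat_lit 3) (.cons (.rel (nat_lit 285212802)) .nil)) .nil)) (.node .leaf (nat_lit 11006082404872817) (.br (nat_lit 3) (.cons (.br (nat_lit 5) (.cons (.rel (nat_lit 4563665985)) .nil)) .nil)) .leaf)) (nat_lit 11006082404917929) (.br (nat_lit 3) (.cons (.br (nat_lit 4) (.cons (.rel (nat_lit 1343226120)) .nil)) .nil)) (.node (.node .leaf (nat_lit 11007157196588309) (.br (nat_lit 0) (.cons (.br (nat_lit 1) (.cons (.rel (nat_lit 42008640)) .nil)) .nil)) .leaf) (nat_lit 11008316815472092) (.br (nat_lit 0) (.cons (.br (nat_lit 2) (.cons (.rel (nat_lit 72352020)) .nil)) .nil)) .leaf)))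

/-- refutations 70 -/
def e70 : EX := (.node (.node (.node .leaf (nat_lit 11085328306595292) (.br (nat_lit 0) (.cons (.br (nat_lit 1) (.cons (.rel (nat_lit 41980224)) .nil)) .nil)) .leaf) (nat_lit 11089829569558709) (.br (nat_lit 3) (.cons (.br (nat_lit 5) (.cons (.rel (nat_lit 4831842312)) .nil)) .nil)) .leaf) (nat_lit 11089832777582622) (.br (nat_lit 0) (.cons (.br (nat_lit 3) (.cons (.rel (nat_lit 272646276)) .nil)) .nil)) (.node .leaf (nat_lit 11089832778201269) (.br (nat_lit 0) (.cons (.br (nat_lit 1) (.cons (.rel (nat_lit 42008640)) .nil)) .nil)) .leaf))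

/-- refutations 71 -/
def e71 : EX := (.node (.node (.node (.node .leaf (nat_lit 11093837074150876) (.br (nat_lit 3) (.cons (.br (nat_lit 5) (.cons (.rel (nat_lit 4831840512)) (.cons (.rel (nat_lit 4564471812)) .nil))) (.cons (.br (nat_lit 5) (.cons (.rel (nat_lit 4563665985)) (.cons (.rel (nat_lit 4831840512)) .nil))) .nil))) .leaf) (nat_lit 11093837074159878) (.br (nat_lit 3) (.cons (.br (nat_lit 4) (.cons (.rel (nat_lit 2415919113)) (.cons (.rel (nat_lit 1343226120)) .nil))) .nil)) (.node .leaf (nat_lit 11093837074159897) (.br (nat_lit 0) (.cons (.br (nat_lit 5) (.cons (.rel (nat_lit 8598323556)) .nil)) .nil)) .leaf)) (nat_lit 11093837074160246) (.br (nat_lit 0) (.cons (.br (nat_lit 3) (.cons (.rel (nat_lit 273678369)) .nil)) .nil)) (.node (.node .leaf (nat_lit 11093837074160268) (.br (nat_lit 5) (.cons (.br (nat_lit 6) (.cons (.rel (nat_lit 21475901460)) (.cons (.rel (nat_lit 38654722320)) .nil))) .nil)) .leaf) (nat_lit 11093837074160428) (.br (nat_lit 0) (.cons (.br (nat_lit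 2) (.cons (.rel (nat_lit 138477600)) (.cons (.rel (nat_lit 138412293)) .nil))) .nil)) .leaf)) (nat_lit 11093837074160501) (.br (nat_lit 2) (.cons (.br (nat_lit 5) (.cons (.rel (nat_lit 4363198464)) .nil)) .nil)) (.node (.node (.node .leaf (nat_lit 11093837074160523) (.br (nat_lit 3) (.cons (.br (nat_lit 5) (.cons (.rel (nat_lit 4563665985)) (.cons (.rel (nat_lit 4564455681)) .nil))) .nil)) .leaf) (nat_lit 11093837074161116) (.br (nat_lit 5) (.cons (.br (nat_lit 6) (.cons (.rel (nat_lit 25769869329)) (.cons (.rel (nat_lit 42949677120)) (.cons (.rel (nat_lit 21475901460)) .nil)))) (.cons (.br (nat_lit 6) (.cons (.rel (nat_lit 38654722320)) (.cons (.rel (nat_lit 21475889154)) (.cons (.rel (nat_lit 21475889154)) .nil)))) (.cons (.br (nat_lit 3) (.cons (.rel (nat_lit 4831842312)) (.cons (.rel (nat_lit 4563402912)) (.cons (.rel (nat_lit 4831842312)) (.cons (.rel (nat_lit 8858371584)) (.cons (.rel (nat_lit 4831840512)) .nil)))))) .nil)))) .leaf) (nat_lit 11094040733336182) (.br (nat_lit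 3) (.cons (.br (nat_lit 5) (.cons (.rel (nat_lit 4563402912)) .nil)) .nil)) (.node (.node .leaf (nat_lit 11095155306443637) (.br (nat_lit 0) (.cons (.br (nat_lit 2) (.cons (.rel (nat_lit 75564288)) .nil)) .nil)) .leaf) (nat_lit 11096276616136156) (.br (nat_lit 0) (.cons (.br (nat_lit 1) (.cons (.rel (nat_lit 21565440)) .nil)) .nil)) .leaf)))

/-- refutations 73 -/
def e73 : EX := (.node .leaf (nat_lit 11108636171488732) (.br (nat_lit 0) (.cons (.br (nat_lit 5) (.cons (.rel (nat_lit 4300226562)) .nil)) .nil)) .leaf)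

/-- refutations 74 -/
def e74 : EX := (.node .leaf (nat_lit 5025816643964380) (.br (nat_lit 1) (.cons (.br (nat_lit 3) (.cons (.rel (nat_lit 285736968)) .nil)) .nil)) .leaf)

/-- refutations 75 -/
def e75 : EX := (.node (.node (.node (.node .leaf (nat_lit 11646045630227932) (.br (nat_lit 1) (.cons (.br (nat_lit 2) (.cons (.rel (nat_lit 84935712)) .nil)) .nil)) .leaf) (nat_lit 11647121993747932) (.br (nat_lit 1) (.cons (.br (nat_lit 2) (.cons (.rel (nat_lit 84971520)) .nil)) .nil)) .leaf) (nat_lit 11648610036697750) (.br (nat_lit 4) (.cons (.br (nat_lit 6) (.cons (.rel (nat_lit 18254660628)) .nil)) .nil)) (.node .leaf (nat_lit 11651398523233756) (.br (nat_lit 1) (.cons (.br (nat_lit 2) (.cons (.rel (nat_lit 84427776)) .nil)) .nil)) .leaf)) (nat_lit 11651398523909596) (.br (nat_lit 2) (.cons (.br (nat_lit 6) (.cons (.rel (nat_lit 17314089216)) .nil)) .nil)) (.node (.node (.node .leaf (nat_lit 11651402273617372) (.br (nat_lit 2) (.cons (.br (nat_lit 0) (.cons (.rel (nat_lit 138412293))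 (.cons (.rel (nat_lit 71372928)) .nil))) .nil)) .leaf) (nat_lit 11652741171234268) (.br (nat_lit 5) (.cons (.br (nat_lit 1) (.cons (.rel (nat_lit 8606713860)) (.cons (.rel (nat_lit 8606711826)) .nil))) .nil)) .leaf) (nat_lit 11653801606125020) (.br (nat_lit 0) (.cons (.br (nat_lit 1) (.cons (.rel (nat_lit 41943381)) .nil)) .nil)) (.node .leaf (nat_lit 11653807452984796) (.br (nat_lit 1) (.cons (.br (nat_lit 2) (.cons (.rel (nat_lit 85068048)) .nil)) .nil)) .leaf)))

/-- refutations 76 -/
def e76 : EX := (.node (.node (.node (.node .leaf (nat_lit 11653992682196444) (.br (nat_lit 0) (.cons (.br (nat_lit 1) (.cons (.rel (nat_lit 22022400)) .nil)) .nil)) .leaf) (nat_lit 11654016567116077) (.br (nat_lit 1) (.cons (.br (nat_lit 2) (.cons (.rel (nat_lit 150994950)) (.cons (.rel (nat_lit 100663305)) .nil))) .nil)) (.node .leaf (nat_lit 11654019731929750) (.br (nat_lit 3) (.cons (.br (nat_lit 1) (.cons (.rel (nat_lit 302071812)) (.cons (.rel (nat_lit 570687492)) .nil))) .nil)) .leaf))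 (nat_lit 11654019731939990) (.br (nat_lit 1) (.cons (.br (nat_lit 3) (.cons (.rel (nat_lit 285212802)) .nil)) .nil)) (.node (.node .leaf (nat_lit 11658066929095318) (.br (nat_lit 1) (.cons (.br (nat_lit 2) (.cons (.rel (nat_lit 83887488)) .nil)) .nil)) .leaf) (nat_lit 11658147584596630) (.br (nat_lit 1) (.cons (.br (nat_lit 5) (.cons (.rel (nat_lit 4312010817)) (.cons (.rel (nat_lit 8623506756)) .nil))) .nil)) (.node .leaf (nat_lit 11658147584597468) (.br (nat_lit 2) (.cons (.br (nat_lit 5) (.cons (.rel (nat_lit 4363198464)) .nil)) .nil)) .leaf))) (nat_lit 11658151490478261) (.br (nat_lit 1) (.cons (.br (nat_lit 5) (.cons (.rel (nat_lit 8623752708)) .nil)) .nil)) (.node (.node (.node .leaf (nat_lit 11659226569557468) (.br (nat_lit 2) (.cons (.br (nat_lit 5) (.cons (.rel (nat_lit 4362403908)) .nil)) .nil)) .leaf) (nat_lit 11659341585827292) (.br (nat_lit 1) (.cons (.br (nat_lit 6) (.cons (.rel (nat_lit 17196736896)) .nil)) .nil)) (.node .leaf (nat_lit 11659348091192796) (.br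 (nat_lit 1) (.cons (.br (nat_lit 2) (.cons (.rel (nat_lit 84414480)) .nil)) .nil)) .leaf)) (nat_lit 11659356173611670) (.br (nat_lit 5) (.cons (.br (nat_lit 2) (.cons (.rel (nat_lit 8657064192)) (.cons (.rel (nat_lit 8657043480)) .nil))) .nil)) (.node (.node .leaf (nat_lit 11659356173612260) (.br (nat_lit 1) (.cons (.br (nat_lit 3) (.cons (.rel (nat_lit 286392324)) .nil)) .nil)) .leaf) (nat_lit 11659356173612508) (.br (nat_lit 5) (.cons (.br (nat_lit 0) (.cons (.rel (nat_lit 4300275750)) (.cons (.rel (nat_lit 4300215300)) (.cons (.rel (nat_lit 8594145300)) .nil)))) (.cons (.br (nat_lit 0) (.cons (.rel (nat_lit 4300215300)) (.cons (.rel (nat_lit 4300276737)) (.cons (.rel (nat_lit 8598324546)) .nil)))) .nil))) .leaf)))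

/-- refutations 77 -/
def e77 : EX := (.node (.node (.node .leaf (nat_lit 11892627109156925) (.br (nat_lit 1) (.cons (.br (nat_lit 2) (.cons (.rel (nat_lit 83951760)) .nil)) .nil)) .leaf) (nat_lit 11893618140286308) (.br (nat_lit 1) (.cons (.br (nat_lit 4) (.cons (.rel (nat_lit 2164326417)) .nil)) .nil)) .leaf) (nat_lit 11893701798277255) (.br (nat_lit 0) (.cons (.br (nat_lit 1) (.cons (.rel (nat_lit 42209289)) .nil)) .nil)) (.node .leaf (nat_lit 11894569384602276) (.br (nat_lit 3) (.cons (.br (nat_lit 0) (.cons (.rel (nat_lit 276889602)) (.cons (.rel (nat_lit 276824340)) .nil))) .nil)) .leaf))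

/-- refutations 78 -/
def e78 : EX := (.node (.node (.node (.node .leaf (nat_lit 11899029799009062) (.br (nat_lit 0) (.cons (.br (nat_lit 1) (.cons (.rel (nat_lit 22024200)) .nil)) .nil)) .leaf) (nat_lit 11899029799314788) (.br (nat_lit 1) (.cons (.br (nat_lit 3) (.cons (.rel (nat_lit 553654272)) .nil)) .nil)) .leaf) (nat_lit 11899029800338908) (.br (nat_lit 5) (.cons (.br (nat_lit 6) (.cons (.rel (nat_lit 38654715921)) .nil)) .nil)) (.node .leaf (nat_lit 11900309699263270) (.br (nat_lit 0) (.cons (.br (nat_lit 1) (.cons (.rel (nat_lit 39060480)) .nil)) .nil)) .leaf)) (nat_lit 11900310336797348) (.br (nat_lit 5) (.cons (.br (nat_lit 6) (.cons (.rel (nat_lit 42949677120)) .nil)) .nil)) (.node (.node .leaf (nat_lit 11900330006866725) (.br (nat_lit 1) (.cons (.br (nat_lit 3) (.cons (.rel (nat_lit 553664544)) .nil)) .nil)) .leaf) (nat_lit 11900370418920100) (.br (nat_lit 0) (.cons (.br (nat_lit 3) (.cons (.rel (nat_lit 276829200)) .nil)) .nil)) (.node .leaf (nat_lit 11904147161671717)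 (.br (nat_lit 0) (.cons (.br (nat_lit 4) (.cons (.rel (nat_lit 1078460673)) .nil)) .nil)) .leaf)))

/-- refutations 80 -/
def e80 : EX := (.node (.node (.node .leaf (nat_lit 11964926315006013) (.br (nat_lit 0) (.cons (.br (nat_lit 2) (.cons (.rel (nat_lit 71372928)) .nil)) .nil)) .leaf) (nat_lit 11969354920889820) (.br (nat_lit 0) (.cons (.br (nat_lit 2) (.cons (.rel (nat_lit 75530244)) .nil)) .nil)) .leaf) (nat_lit 11969578912245212) (.br (nat_lit 4) (.cons (.br (nat_lit 5) (.cons (.rel (nat_lit 6442455045)) .nil)) .nil)) (.node .leaf (nat_lit 11970212059361556) (.br (nat_lit 2) (.cons (.br (nat_lit 5) (.cons (.rel (nat_lit 4363149336)) .nil)) .nil)) .leaf))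

/-- refutations 81 -/
def e81 : EX := (.node (.node (.node (.node .leaf (nat_lit 11970679082614965) (.br (nat_lit 1) (.cons (.br (nat_lit 2) (.cons (.rel (nat_lit 83887488)) .nil)) .nil)) .leaf) (nat_lit 11970679082615420) (.br (nat_lit 5) (.cons (.br (nat_lit 1) (.cons (.rel (nat_lit 4312010817)) (.cons (.rel (nat_lit 4328521761)) .nil))) .nil)) .leaf) (nat_lit 11970679082616284) (.br (nat_lit 2) (.cons (.br (nat_lit 4) (.cons (.rel (nat_lit 1141907457)) .nil)) .nil)) (.node .leaf (nat_lit 11973446586095677) (.br (nat_lit 0) (.cons (.br (nat_lit 4) (.cons (.rel (nat_lit 1077941376)) .nil)) .nil)) .leaf)) (nat_lit 11973446586096497) (.br (nat_lit 2) (.cons (.br (nat_lit 4) (.cons (.rel (nat_lit 2281701441)) .nil)) .nil)) (.node (.node .leaf (nat_lit 11974732870389212) (.br (nat_lit 2) (.cons (.br (nat_lit 4) (.cons (.rel (nat_lit 1140850818)) (.cons (.rel (nat_lit 2214609921)) .nil))) .nil)) .leaf) (nat_lit 11974736020310293) (.br (nat_lit 3) (.cons (.br (nat_lit 5) (.cons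 (.rel (nat_lit 4565500224)) .nil)) .nil)) (.node .leaf (nat_lit 11974736020311516) (.br (nat_lit 4) (.cons (.br (nat_lit 0) (.cons (.br (nat_lit 1) (.cons (.rel (nat_lit 1107362052)) (.cons (.rel (nat_lit 22024200)) (.cons (.rel (nat_lit 1091569152)) (.cons (.rel (nat_lit 21241920)) (.cons (.rel (nat_lit 25182468)) .nil)))))) (.cons (.rel (nat_lit 1082134536)) (.cons (.rel (nat_lit 1082195973)) .nil)))) (.cons (.br (nat_lit 0) (.cons (.rel (nat_lit 2151694632)) (.cons (.rel (nat_lit 1082146833)) (.cons (.rel (nat_lit 2155905093)) .nil)))) .nil))) .leaf)))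

/-- refutations 82 -/
def e82 : EX := (.node (.node (.node (.node .leaf (nat_lit 11190008599310373) (.br (nat_lit 4) (.cons (.br (nat_lit 5) (.cons (.rel (nat_lit 5369233440)) .nil)) .nil)) .leaf) (nat_lit 11190008599311742) (.br (nat_lit 0) (.cons (.br (nat_lit 3) (.cons (.rel (nat_lit 276824340)) .nil)) .nil)) .leaf) (nat_lit 11190008599311836) (.br (nat_lit 6) (.cons (.br (nat_lit 3) (.cons (.rel (nat_lit 34628174082)) (.cons (.rel (nat_lit 17449353222)) .nil))) .nil)) (.node .leaf (nat_lit 11191212780112508) (.br (nat_lit 1) (.cons (.br (nat_lit 2) (.cons (.rel (nat_lit 83894916)) .nil)) .nil)) .leaf)) (nat_lit 11191212780113372) (.br (nat_lit 1) (.cons (.br (nat_lit 2) (.cons (.rel (nat_lit 100664340)) .nil)) .nil)) (.node (.node (.node .leaf (nat_lit 11196628206646053) (.br (nat_lit 3) (.cons (.br (nat_lit 4) (.cons (.rel (nat_lit 2684359776)) .nil)) .nil)) .leaf) (nat_lit 11199467474659964) (.br (nat_lit 5) (.cons (.br (nat_lit 6) (.cons (.rel (nat_lit 25769821188))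 .nil)) .nil)) .leaf) (nat_lit 11199467474660828) (.br (nat_lit 3) (.cons (.br (nat_lit 4) (.cons (.rel (nat_lit 1610613777)) .nil)) .nil)) (.node .leaf (nat_lit 11200763242276316) (.br (nat_lit 2) (.cons (.br (nat_lit 3) (.cons (.rel (nat_lit 603981057)) .nil)) .nil)) .leaf)))

/-- refutations 83 -/
def e83 : EX := (.node (.node .leaf (nat_lit 11999266270113244) (.br (nat_lit 6) (.cons (.br (nat_lit 0) (.cons (.rel (nat_lit 17184326736)) (.cons (.rel (nat_lit 17188294656)) .nil))) .nil)) .leaf) (nat_lit 12004533541282474) (.br (nat_lit 1) (.cons (.br (nat_lit 3) (.cons (.rel (nat_lit 570687492)) .nil)) .nil)) .leaf)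

/-- refutations 84 -/
def e84 : EX := (.node (.node (.node (.node .leaf (nat_lit 12008831752712874) (.br (nat_lit 2) (.cons (.br (nat_lit 5) (.cons (.rel (nat_lit 8657045505)) .nil)) .nil)) .leaf) (nat_lit 12008831755257108) (.br (nat_lit 1) (.cons (.br (nat_lit 2) (.cons (.rel (nat_lit 100663305)) .nil)) .nil)) .leaf) (nat_lit 12008837095622143) (.br (nat_lit 2) (.cons (.br (nat_lit 5) (.cons (.rel (nat_lit 4429185060)) .nil)) .nil)) (.node .leaf (nat_lit 12009959567179228) (.br (nat_lit 1) (.cons (.br (nat_lit 2) (.cons (.rel (nat_lit 100664340)) .nil)) .nil)) .leaf)) (nat_lit 12011194406699269) (.br (nat_lit 3) (.cons (.br (nat_lit 4) (.cons (.rel (nat_lit 1343226120)) .nil)) .nil)) (.node (.node (.node .leaf (nat_lit 12011199663814108) (.br (nat_lit 2) (.cons (.br (nat_lit 6) (.cons (.rel (nat_lit 17248092180)) .nil)) .nil)) .leaf) (nat_lit 12011199663814168) (.br (nat_lit 2) (.cons (.br (nat_lit 5) (.cons (.rel (nat_lit 8657045505)) .nil)) .nil)) .leaf) (nat_lit 12011206387285468)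 (.br (nat_lit 1) (.cons (.br (nat_lit 2) (.cons (.rel (nat_lit 84934677)) .nil)) .nil)) (.node .leaf (nat_lit 12011249315965060) (.br (nat_lit 1) (.cons (.br (nat_lit 2) (.cons (.rel (nat_lit 84934677)) .nil)) .nil)) .leaf)))

/-- refutations 85 -/
def e85 : EX := (.node (.node (.node (.node .leaf (nat_lit 11980545131639465) (.br (nat_lit 6) (.cons (.br (nat_lit 1) (.cons (.rel (nat_lit 34376549376)) (.cons (.rel (nat_lit 17196647040)) .nil))) .nil)) .leaf) (nat_lit 11980548803703421) (.br (nat_lit 0) (.cons (.br (nat_lit 1) (.cons (.rel (nat_lit 42008640)) .nil)) .nil)) .leaf) (nat_lit 11980583271173596) (.br (nat_lit 1) (.cons (.br (nat_lit 5) (.cons (.rel (nat_lit 4312794132)) .nil)) .nil)) (.node .leaf (nat_lit 11981399273210537) (.br (nat_lit 0) (.cons (.br (nat_lit 3) (.cons (.rel (nat_lit 273170433)) .nil)) .nil)) .leaf)) (nat_lit 11981399273211262) (.br (nat_lit 1) (.cons (.br (nat_lit 2) (.cons (.rel (nat_lit 84414480)) .nil)) .nil)) (.node (.node (.node .leaf (nat_lit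 11981665493068457) (.br (nat_lit 0) (.cons (.br (nat_lit 1) (.cons (.rel (nat_lit 22024200)) .nil)) .nil)) .leaf) (nat_lit 11981665495200425) (.br (nat_lit 1) (.cons (.br (nat_lit 2) (.cons (.rel (nat_lit 84427776)) .nil)) .nil)) .leaf) (nat_lit 11993390866511324) (.br (nat_lit 0) (.cons (.br (nat_lit 1) (.cons (.rel (nat_lit 42008640)) .nil)) .nil)) (.node .leaf (nat_lit 11993605611304412) (.br (nat_lit 1) (.cons (.br (nat_lit 2) (.cons (.rel (nat_lit 83887488)) .nil)) .nil)) .leaf)))

/-- refutations 86 -/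
def e86 : EX := (.node (.node .leaf (nat_lit 13370284859804324) (.br (nat_lit 1) (.cons (.br (nat_lit 2) (.cons (.rel (nat_lit 100798464)) .nil)) .nil)) .leaf) (nat_lit 13370373904823772) (.br (nat_lit 3) (.cons (.br (nat_lit 1) (.cons (.rel (nat_lit 285212802)) (.cons (.rel (nat_lit 285212802)) .nil))) .nil)) (.node .leaf (nat_lit 13371407296217269) (.br (nat_lit 1) (.cons (.br (nat_lit 2) (.cons (.rel (nat_lit 83887488)) .nil)) .nil)) .leaf))

/-- refutations 87 -/
def e87 : EX := (.node (.node (.node .leaf (nat_lit 13375905800439260) (.br (nat_lit 0) (.cons (.br (nat_lit 2) (.cons (.rel (nat_lit 71696448)) .nil)) .nil)) .leaf) (nat_lit 13375922980094879) (.br (nat_lit 2) (.cons (.br (nat_lit 5) (.cons (.rel (nat_lit 4429185060)) .nil)) .nil)) (.node .leaf (nat_lit 13376816333505272) (.br (nat_lit 1) (.cons (.br (nat_lit 2) (.cons (.rel (nat_lit 84414480)) (.cons (.rel (nat_lit 84411657)) .nil))) (.cons (.br (nat_lit 2) (.cons (.rel (nat_lit 84427776)) (.cons (.rel (nat_lit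 83887488)) .nil))) .nil))) .leaf)) (nat_lit 13377892698049272) (.br (nat_lit 1) (.cons (.br (nat_lit 3) (.cons (.rel (nat_lit 285212802)) .nil)) .nil)) (.node (.node .leaf (nat_lit 13378064498062812) (.br (nat_lit 0) (.cons (.br (nat_lit 1) (.cons (.rel (nat_lit 21102720)) .nil)) .nil)) .leaf) (nat_lit 13380905162780733) (.br (nat_lit 0) (.cons (.br (nat_lit 1) (.cons (.rel (nat_lit 42008640)) .nil)) .nil)) (.node .leaf (nat_lit 13380905162782172) (.br (nat_lit 0) (.cons (.br (nat_lit 6) (.cons (.rel (nat_lit 17184325701)) .nil)) .nil)) .leaf)))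

/-- refutations 88 -/
def e88 : EX := (.node (.node (.node .leaf (nat_lit 13382098522277340) (.br (nat_lit 1) (.cons (.br (nat_lit 4) (.cons (.rel (nat_lit 1091637249)) .nil)) .nil)) .leaf) (nat_lit 13382142092686812) (.br (nat_lit 3) (.cons (.br (nat_lit 5) (.cons (.rel (nat_lit 9126805584)) .nil)) .nil)) .leaf) (nat_lit 13382142092952312) (.br (nat_lit 1) (.cons (.br (nat_lit 3) (.cons (.rel (nat_lit 553649412)) .nil)) .nil)) (.node (.node .leaf (nat_lit 13382142616974812) (.br (nat_lit 0) (.cons (.br (nat_lit 1) (.cons (.rel (nat_lit 42209289)) .nil)) .nil)) .leaf) (nat_lit 13382365431038879) (.br (nat_lit 1) (.cons (.br (nat_lit 0) (.cons (.rel (nat_lit 22036497)) (.cons (.rel (nat_lit 37748994)) .nil))) .nil)) .leaf))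

/-- refutations 89 -/
def e89 : EX := (.node (.node (.node .leaf (nat_lit 13310444445914348) (.br (nat_lit 0) (.cons (.br (nat_lit 3) (.cons (.rel (nat_lit 272646276)) .nil)) .nil)) .leaf) (nat_lit 13310444445914588) (.br (nat_lit 0) (.cons (.br (nat_lit 3) (.cons (.rel (nat_lit 273170433)) .nil)) .nil)) .leaf) (nat_lit 13311824909100508) (.br (nat_lit 0) (.cons (.br (nat_lit 1) (.cons (.rel (nat_lit 21102720)) .nil)) .nil)) (.node (.node .leaf (nat_lit 13313010319764106) (.br (nat_lit 0) (.cons (.br (nat_lit 1) (.cons (.rel (nat_lit 22022400)) .nil)) .nil)) .leaf) (nat_lit 13313010320392453) (.br (nat_lit 1) (.cons (.br (nat_lit 2) (.cons (.rel (nat_lit 84414480)) .nil)) .nil)) .leaf))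

/-- refutations 90 -/
def e90 : EX := (.node (.node .leaf (nat_lit 13639375690993116) (.br (nat_lit 0) (.cons (.br (nat_lit 2) (.cons (.rel (nat_lit 71372928)) .nil)) .nil)) .leaf) (nat_lit 13640436128772871) (.br (nat_lit 1) (.cons (.br (nat_lit 2) (.cons (.rel (nat_lit 84414480)) .nil)) .nil)) (.node .leaf (nat_lit 13640441363990589) (.br (nat_lit 0) (.cons (.br (nat_lit 1) (.cons (.rel (nat_lit 37765125)) .nil)) .nil)) .leaf))

/-- refutations 91 -/
def e91 : EX := (.node (.node (.node .leaf (nat_lit 13644747650369713) (.br (nat_lit 0) (.cons (.br (nat_lit 5) (.cons (.rel (nat_lit 4300226562)) .nil)) .nil)) .leaf) (nat_lit 13644747650370318) (.br (nat_lit 0) (.cons (.br (nat_lit 1) (.cons (.rel (nat_lit 22022400)) .nil)) .nil)) .leaf) (nat_lit 13644747650371036) (.br (nat_lit 0) (.cons (.br (nat_lit 4) (.cons (.rel (nat_lit 2151747585)) .nil)) .nil)) (.node .leaf (nat_lit 13646076443944412) (.br (nat_lit 0) (.cons (.br (nat_lit 2) (.cons (.rel (nat_lit 71696448)) .nil))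 .nil)) .leaf))

/-- refutations 92 -/
def e92 : EX := (.node .leaf (nat_lit 13401065114929913) (.br (nat_lit 0) (.cons (.br (nat_lit 3) (.cons (.rel (nat_lit 273170433)) .nil)) .nil)) .leaf)

/-- refutations 93 -/
def e93 : EX := (.node (.node (.node .leaf (nat_lit 13723022382302684) (.br (nat_lit 0) (.cons (.br (nat_lit 5) (.cons (.rel (nat_lit 4300210440)) (.cons (.rel (nat_lit 4300226562)) .nil))) .nil)) .leaf) (nat_lit 13723022383629215) (.br (nat_lit 0) (.cons (.br (nat_lit 1) (.cons (.rel (nat_lit 25182468)) .nil)) .nil)) .leaf) (nat_lit 13729745577967918) (.br (nat_lit 0) (.cons (.br (nat_lit 1) (.cons (.rel (nat_lit 42008640)) .nil)) .nil)) (.node .leaf (nat_lit 13733994445454812) (.br (nat_lit 3) (.cons (.br (nat_lit 1) (.cons (.rel (nat_lit 553654272)) (.cons (.rel (nat_lit 553654272)) (.cons (.rel (nat_lit 553654272)) .nil)))) .nil)) .leaf))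

/-- refutations 94 -/
def e94 : EX := (.node (.node (.node .leaf (nat_lit 13765080895694300) (.br (nat_lit 6) (.cons (.br (nat_lit 3) (.cons (.rel (nat_lit 17448833025)) (.cons (.rel (nat_lit 34628174082)) .nil))) .nil)) .leaf) (nat_lit 13767840759089188) (.br (nat_lit 0) (.cons (.br (nat_lit 2) (.cons (.rel (nat_lit 138428424)) .nil)) .nil)) .leaf) (nat_lit 13767927312427185) (.br (nat_lit 1) (.cons (.br (nat_lit 2) (.cons (.rel (nat_lit 83902632)) .nil)) .nil)) (.node (.node .leaf (nat_lit 13768053013061693) (.br (nat_lit 5) (.cons (.br (nat_lit 0) (.cons (.rel (nat_lit 4299182208)) (.cons (.rel (nat_lit 4299182208)) .nil))) .nil)) .leaf) (nat_lit 13769129878423004) (.br (nat_lit 3) (.cons (.br (nat_lit 1) (.cons (.rel (nat_lit 286269441)) (.cons (.rel (nat_lit 553654272)) (.cons (.rel (nat_lit 285736968)) .nil)))) .nil)) .leaf))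

/-- refutations 95 -/
def e95 : EX := (.node (.node .leaf (nat_lit 14180687701110238) (.br (nat_lit 0) (.cons (.br (nat_lit 1) (.cons (.rel (nat_lit 22024200)) .nil)) .nil)) .leaf) (nat_lit 14181880221111078) (.br (nat_lit 0) (.cons (.br (nat_lit 2) (.cons (.rel (nat_lit 71835648)) .nil)) .nil)) .leaf)

/-- refutations 96 -/
def e96 : EX := (.node (.node (.node .leaf (nat_lit 14187291646918693) (.br (nat_lit 0) (.cons (.br (nat_lit 2) (.cons (.rel (nat_lit 138477600)) .nil)) .nil)) .leaf) (nat_lit 14187291646918791) (.br (nat_lit 0) (.cons (.br (nat_lit 3) (.cons (.rel (nat_lit 273679368)) .nil)) .nil)) (.node .leaf (nat_lit 14187291646919462) (.br (nat_lit 2) (.cons (.br (nat_lit 5) (.cons (.rel (nat_lit 4362080388)) .nil)) .nil)) .leaf)) (nat_lit 14187294522952486) (.br (nat_lit 1) (.cons (.br (nat_lit 2) (.cons (.rel (nat_lit 84971520)) .nil)) .nil)) (.node (.node .leaf (nat_lit 14187294523618086) (.br (nat_lit 0) (.cons (.br (nat_lit 1) (.cons (.rel (nat_lit 37773588))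 .nil)) .nil)) .leaf) (nat_lit 14187296463008550) (.br (nat_lit 0) (.cons (.br (nat_lit 1) (.cons (.rel (nat_lit 25187328)) .nil)) .nil)) .leaf))

/-- refutations 97 -/
def e97 : EX := (.node (.node .leaf (nat_lit 14268560613871068) (.br (nat_lit 2) (.cons (.br (nat_lit 1) (.cons (.rel (nat_lit 100663305)) (.cons (.rel (nat_lit 84414480)) .nil))) .nil)) .leaf) (nat_lit 14268646493258539) (.br (nat_lit 0) (.cons (.br (nat_lit 2) (.cons (.rel (nat_lit 142872576)) .nil)) .nil)) (.node .leaf (nat_lit 14268648588407595) (.br (nat_lit 1) (.cons (.br (nat_lit 2) (.cons (.rel (nat_lit 84414480)) .nil)) .nil)) .leaf))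

/-- refutations 98 -/
def e98 : EX := (.node (.node (.node .leaf (nat_lit 14275257417368363) (.br (nat_lit 2) (.cons (.br (nat_lit 4) (.cons (.rel (nat_lit 2214592800)) .nil)) .nil)) .leaf) (nat_lit 14275257417369052) (.br (nat_lit 4) (.cons (.br (nat_lit 5) (.cons (.rel (nat_lit 9663760386)) .nil)) .nil)) (.node .leaf (nat_lit 14275298360901084) (.br (nat_lit 1) (.cons (.br (nat_lit 2) (.cons (.rel (nat_lit 84971520)) .nil)) .nil)) .leaf)) (nat_lit 14278107267610076) (.br (nat_lit 4) (.cons (.br (nat_lit 5) (.cons (.rel (nat_lit 5369233440)) .nil)) .nil)) (.node (.node .leaf (nat_lit 14280459748471595) (.br (nat_lit 0) (.cons (.br (nat_lit 1) (.cons (.rel (nat_lit 42008640)) .nil)) .nil)) .leaf) (nat_lit 14280462290175452) (.br (nat_lit 0) (.cons (.br (nat_lit 1) (.cons (.rel (nat_lit 37752864)) .nil)) .nil)) .leaf))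

/-- refutations 99 -/
def e99 : EX := (.node (.node .leaf (nat_lit 13829830230336414) (.br (nat_lit 0) (.cons (.br (nat_lit 1) (.cons (.rel (nat_lit 21102720)) .nil)) .nil)) .leaf) (nat_lit 13839765422310876) (.br (nat_lit 0) (.cons (.br (nat_lit 2) (.cons (.rel (nat_lit 72417282)) .nil)) .nil)) (.node .leaf (nat_lit 13840878381143516) (.br (nat_lit 0) (.cons (.br (nat_lit 2) (.cons (.rel (nat_lit 72417282)) .nil)) .nil)) .leaf))

/-- refutations 100 -/
def e100 : EX := (.node .leaf (nat_lit 15500107474557809) (.br (nat_lit 0) (.cons (.br (nat_lit 3) (.cons (.rel (nat_lit 273686784)) .nil)) .nil)) .leaf)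

/-- refutations 101 -/
def e101 : EX := (.node (.node .leaf (nat_lit 15510541443546340) (.br (nat_lit 3) (.cons (.br (nat_lit 5) (.cons (.rel (nat_lit 4563402912)) .nil)) .nil)) .leaf) (nat_lit 15510541444549238) (.br (nat_lit 0) (.cons (.br (nat_lit 3) (.cons (.rel (nat_lit 276828165)) .nil)) .nil)) .leaf)

/-- refutations 102 -/
def e102 : EX := (.node (.node (.node (.node .leaf (nat_lit 15570382379867612) (.br (nat_lit 1) (.cons (.br (nat_lit 2) (.cons (.rel (nat_lit 85000704)) .nil)) .nil)) .leaf) (nat_lit 15570384981625087) (.br (nat_lit 0) (.cons (.br (nat_lit 1) (.cons (.rel (nat_lit 21565440)) .nil)) .nil)) .leaf) (nat_lit 15570385023568757) (.br (nat_lit 1) (.cons (.br (nat_lit 3) (.cons (.rel (nat_lit 286269441)) .nil)) .nil)) (.node .leaf (nat_lit 15570387602086064) (.br (nat_lit 2) (.cons (.br (nat_lit 0) (.cons (.rel (nat_lit 142872576)) (.cons (.rel (nat_lit 75564288)) .nil))) .nil)) .leaf)) (nat_lit 15570427929703900) (.br (nat_lit 1) (.cons (.br (nat_lit 3)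 (.cons (.rel (nat_lit 301994244)) .nil)) .nil)) (.node (.node (.node .leaf (nat_lit 15570427950682762) (.br (nat_lit 0) (.cons (.br (nat_lit 2) (.cons (.rel (nat_lit 72370176)) .nil)) .nil)) .leaf) (nat_lit 15570430704747996) (.br (nat_lit 0) (.cons (.br (nat_lit 1) (.cons (.rel (nat_lit 37765125)) .nil)) .nil)) .leaf) (nat_lit 15570470900338140) (.br (nat_lit 1) (.cons (.br (nat_lit 2) (.cons (.rel (nat_lit 84414480)) .nil)) .nil)) (.node .leaf (nat_lit 15570474025665397) (.br (nat_lit 1) (.cons (.br (nat_lit 2) (.cons (.rel (nat_lit 85067013)) .nil)) .nil)) .leaf)))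

/-- refutations 103 -/
def e103 : EX := (.node (.node (.node (.node (.node (.node .leaf (nat_lit 15571662282981552) (.br (nat_lit 1) (.cons (.br (nat_lit 3) (.cons (.rel (nat_lit 286278912)) .nil)) .nil)) .leaf) (nat_lit 15571664882170032) (.br (nat_lit 3) (.cons (.br (nat_lit 5) (.cons (.rel (nat_lit 4563402912)) .nil)) .nil)) .leaf) (nat_lit 15571664882190512) (.br (nat_lit 1) (.cons (.br (nat_lit 2) (.cons (.rel (nat_lit 84414480)) .nil)) .nil)) (.node .leaf (nat_lit 15571664882190517) (.br (nat_lit 1) (.cons (.br (nat_lit 5) (.cons (.rel (nat_lit 4312817682)) .nil)) .nil)) .leaf)) (nat_lit 15574516738885084) (.br (nat_lit 1) (.cons (.br (nat_lit 4) (.cons (.rel (nat_lit 1107316737)) .nil)) .nil)) (.node (.node (.node .leaf (nat_lit 15575745123067137) (.br (nat_lit 1) (.cons (.br (nat_lit 5) (.cons (.rel (nat_lit 4312010817)) .nil)) .nil)) .leaf) (nat_lit 15575745123067356) (.br (nat_lit 1) (.cons (.br (nat_lit 2) (.cons (.rel (nat_lit 85000704)) .nil)) .nil)) .leaf) (nat_lit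 15575753710112220) (.br (nat_lit 1) (.cons (.br (nat_lit 2) (.cons (.rel (nat_lit 100664340)) (.cons (.rel (nat_lit 150995985)) .nil))) (.cons (.br (nat_lit 6) (.cons (.rel (nat_lit 17213489154)) (.cons (.rel (nat_lit 17197187328)) (.cons (.rel (nat_lit 34377830400)) (.cons (.rel (nat_lit 34393293120)) (.cons (.rel (nat_lit 17197712385)) .nil)))))) .nil))) (.node .leaf (nat_lit 15575753710119562) (.br (nat_lit 1) (.cons (.br (nat_lit 2) (.cons (.rel (nat_lit 100664340)) .nil)) .nil)) .leaf))) (nat_lit 15575753710129802) (.br (nat_lit 0) (.cons (.br (nat_lit 2) (.cons (.rel (nat_lit 72370176)) (.cons (.rel (nat_lit 71303844)) .nil))) .nil)) (.node (.node (.node (.node .leaf (nat_lit 15575753710727344) (.br (nat_lit 1) (.cons (.br (nat_lit 3) (.cons (.rel (nat_lit 287637504)) .nil)) .nil)) .leaf) (nat_lit 15575753710727349) (.br (nat_lit 1) (.cons (.br (nat_lit 3) (.cons (.rel (nat_lit 286265616)) .nil)) .nil)) .leaf) (nat_lit 15575753710737584) (.br (nat_lit 1) (.cons (.br (nat_lit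 5) (.cons (.rel (nat_lit 4311761040)) (.cons (.rel (nat_lit 4313055360)) .nil))) .nil)) (.node .leaf (nat_lit 15575753710737589) (.br (nat_lit 1) (.cons (.br (nat_lit 3) (.cons (.rel (nat_lit 285221265)) .nil)) .nil)) .leaf)) (nat_lit 15575753710745776) (.br (nat_lit 2) (.cons (.br (nat_lit 3) (.cons (.rel (nat_lit 336068613)) .nil)) .nil)) (.node (.node .leaf (nat_lit 15575753712007344) (.br (nat_lit 1) (.cons (.br (nat_lit 2) (.cons (.rel (nat_lit 84427776)) (.cons (.rel (nat_lit 84414480)) .nil))) (.cons (.br (nat_lit 3) (.cons (.rel (nat_lit 301999104)) (.cons (.rel (nat_lit 301999104)) (.cons (.rel (nat_lit 285212802)) .nil)))) .nil))) .leaf) (nat_lit 15575753712007349) (.br (nat_lit 1) (.cons (.br (nat_lit 3) (.cons (.rel (nat_lit 286265616)) (.cons (.rel (nat_lit 570425409)) .nil))) .nil)) (.node .leaf (nat_lit 15575753712017584) (.br (nat_lit 2) (.cons (.br (nat_lit 3) (.cons (.rel (nat_lit 671088708)) (.cons (.rel (nat_lit 336068613)) .nil))) .nil)) .leaf)))) (nat_lit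 15575753712017589) (.br (nat_lit 3) (.cons (.br (nat_lit 1) (.cons (.rel (nat_lit 285212802)) (.cons (.rel (nat_lit 285212802)) (.cons (.rel (nat_lit 285212802)) .nil)))) .nil)) (.node (.node (.node (.node (.node .leaf (nat_lit 15575753712027824) (.br (nat_lit 1) (.cons (.br (nat_lit 3) (.cons (.rel (nat_lit 570687492)) (.cons (.rel (nat_lit 570425409)) .nil))) .nil)) .leaf) (nat_lit 15575753712027829) (.br (nat_lit 2) (.cons (.br (nat_lit 5) (.cons (.rel (nat_lit 4362080388)) (.cons (.rel (nat_lit 4362141825)) .nil))) .nil)) .leaf) (nat_lit 15575753712679562) (.br (nat_lit 0) (.cons (.br (nat_lit 4) (.cons (.rel (nat_lit 1077936516)) .nil)) .nil)) (.node .leaf (nat_lit 15575753712976053) (.br (nat_lit 1) (.cons (.br (nat_lit 3) (.cons (.rel (nat_lit 286278912)) (.cons (.rel (nat_lit 285212802)) (.cons (.rel (nat_lit 285736968)) .nil)))) .nil)) .leaf)) (nat_lit 15575753713201328) (.br (nat_lit 0) (.cons (.br (nat_lit 1) (.cons (.rel (nat_lit 21102720)) .nil)) .nil)) (.node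 (.node .leaf (nat_lit 15575753713287349) (.br (nat_lit 1) (.cons (.br (nat_lit 2) (.cons (.rel (nat_lit 84414480)) .nil)) .nil)) .leaf) (nat_lit 15575794038674908) (.br (nat_lit 1) (.cons (.br (nat_lit 3) (.cons (.rel (nat_lit 301994244)) .nil)) .nil)) (.node .leaf (nat_lit 15575796680766940) (.br (nat_lit 1) (.cons (.br (nat_lit 4) (.cons (.rel (nat_lit 1091043330)) (.cons (.rel (nat_lit 1090781256)) .nil))) .nil)) .leaf))) (nat_lit 15575796680777180) (.br (nat_lit 1) (.cons (.br (nat_lit 5) (.cons (.rel (nat_lit 8606711826)) (.cons (.rel (nat_lit 4311761040)) .nil))) .nil)) (.node (.node (.node (.node .leaf (nat_lit 15575796681382064) (.br (nat_lit 3) (.cons (.br (nat_lit 5) (.cons (.rel (nat_lit 9126805584)) .nil)) .nil)) .leaf) (nat_lit 15575796682361087) (.br (nat_lit 1) (.cons (.br (nat_lit 2) (.cons (.rel (nat_lit 100664340)) .nil)) .nil)) .leaf) (nat_lit 15575796682662064) (.br (nat_lit 2) (.cons (.br (nat_lit 3) (.cons (.rel (nat_lit 335544456)) .nil)) .nil)) (.node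 .leaf (nat_lit 15575796682663388) (.br (nat_lit 1) (.cons (.br (nat_lit 5) (.cons (.rel (nat_lit 4328530176)) .nil)) .nil)) .leaf)) (nat_lit 15575796682672304) (.br (nat_lit 3) (.cons (.br (nat_lit 1) (.cons (.rel (nat_lit 285212802)) (.cons (.rel (nat_lit 285212802)) (.cons (.rel (nat_lit 285212802)) .nil)))) .nil)) (.node (.node .leaf (nat_lit 15575796682672309) (.br (nat_lit 3) (.cons (.br (nat_lit 6) (.cons (.rel (nat_lit 17716740609)) (.cons (.rel (nat_lit 17448308868)) .nil))) .nil)) .leaf) (nat_lit 15575798658180572) (.br (nat_lit 1) (.cons (.br (nat_lit 5) (.cons (.rel (nat_lit 4328530176)) .nil)) .nil)) (.node .leaf (nat_lit 15575798659139036) (.br (nat_lit 1) (.cons (.br (nat_lit 3) (.cons (.rel (nat_lit 570687492)) .nil)) .nil)) .leaf)))))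

/-- refutations 104 -/
def e104 : EX := (.node (.node (.node (.node (.node .leaf (nat_lit 15575837010884789) (.br (nat_lit 0) (.cons (.br (nat_lit 3) (.cons (.rel (nat_lit 276889602)) .nil)) .nil)) .leaf) (nat_lit 15575837011929973) (.br (nat_lit 1) (.cons (.br (nat_lit 5) (.cons (.rel (nat_lit 4312793097)) .nil)) .nil)) (.node .leaf (nat_lit 15575839588496860) (.br (nat_lit 5) (.cons (.br (nat_lit 1) (.cons (.rel (nat_lit 4312272900)) (.cons (.br (nat_lit 3) (.cons (.rel (nat_lit 8858378244)) (.cons (.rel (nat_lit 8860991490)) (.cons (.rel (nat_lit 570425409)) (.cons (.rel (nat_lit 8858371584)) (.cons (.rel (nat_lit 9126805584)) .nil)))))) .nil))) .nil)) .leaf)) (nat_lit 15575839588795253) (.br (nat_lit 0) (.cons (.br (nat_lit 1) (.cons (.rel (nat_lit 22085637)) .nil)) .nil)) (.node (.node .leaf (nat_lit 15575839589101744) (.br (nat_lit 1) (.cons (.br (nat_lit 4) (.cons (.rel (nat_lit 2181300225)) .nil)) .nil)) .leaf) (nat_lit 15575839589101749) (.br (nat_lit 5) (.cons (.br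 (nat_lit 0) (.cons (.rel (nat_lit 4299505728)) (.cons (.rel (nat_lit 4303364097)) .nil))) .nil)) .leaf)) (nat_lit 15575839589122224) (.br (nat_lit 0) (.cons (.br (nat_lit 1) (.cons (.rel (nat_lit 21102720)) .nil)) .nil)) (.node (.node (.node .leaf (nat_lit 15575839589122229) (.br (nat_lit 3) (.cons (.br (nat_lit 4) (.cons (.rel (nat_lit 1342767360)) .nil)) .nil)) .leaf) (nat_lit 15575839589776245) (.br (nat_lit 5) (.cons (.br (nat_lit 1) (.cons (.rel (nat_lit 4311761040)) (.cons (.rel (nat_lit 4312334337)) .nil))) .nil)) .leaf) (nat_lit 15575839590381744) (.br (nat_lit 1) (.cons (.br (nat_lit 3) (.cons (.rel (nat_lit 301999104)) .nil)) .nil)) (.node (.node .leaf (nat_lit 15575839590381749) (.br (nat_lit 1) (.cons (.br (nat_lit 3) (.cons (.rel (nat_lit 301999104)) (.cons (.rel (nat_lit 286265616)) .nil))) .nil)) .leaf) (nat_lit 15575839590391984) (.br (nat_lit 2) (.cons (.br (nat_lit 5) (.cons (.rel (nat_lit 4362141825)) (.cons (.rel (nat_lit 4362141825)) .nil))) .nil)) .leaf)))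 (nat_lit 15575839590391989) (.br (nat_lit 1) (.cons (.br (nat_lit 5) (.cons (.rel (nat_lit 4328521761)) .nil)) .nil)) (.node (.node (.node (.node .leaf (nat_lit 15575839590402229) (.br (nat_lit 5) (.cons (.br (nat_lit 4) (.cons (.rel (nat_lit 5369762052)) (.cons (.rel (nat_lit 5368710273)) .nil))) .nil)) .leaf) (nat_lit 15575839591376348) (.br (nat_lit 1) (.cons (.br (nat_lit 3) (.cons (.rel (nat_lit 286269441)) .nil)) .nil)) (.node .leaf (nat_lit 15575839591426933) (.br (nat_lit 1) (.cons (.br (nat_lit 2) (.cons (.rel (nat_lit 100664340)) .nil)) .nil)) .leaf)) (nat_lit 15575839591661744) (.br (nat_lit 1) (.cons (.br (nat_lit 2) (.cons (.rel (nat_lit 84935712)) .nil)) .nil)) (.node (.node .leaf (nat_lit 15576054443307284) (.br (nat_lit 0) (.cons (.br (nat_lit 2) (.cons (.rel (nat_lit 138428424)) .nil)) .nil)) .leaf) (nat_lit 15576867759768437) (.br (nat_lit 0) (.cons (.br (nat_lit 1) (.cons (.rel (nat_lit 25182468)) .nil)) .nil)) .leaf)) (nat_lit 15576870947439477) (.br (nat_lit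 0) (.cons (.br (nat_lit 2) (.cons (.rel (nat_lit 138428424)) .nil)) .nil)) (.node (.node (.node .leaf (nat_lit 15577087757809116) (.br (nat_lit 0) (.cons (.br (nat_lit 4) (.cons (.rel (nat_lit 1079083032)) .nil)) .nil)) .leaf) (nat_lit 15579926434725340) (.br (nat_lit 2) (.cons (.br (nat_lit 3) (.cons (.rel (nat_lit 336613392)) .nil)) .nil)) .leaf) (nat_lit 15579928420219056) (.br (nat_lit 1) (.cons (.br (nat_lit 5) (.cons (.rel (nat_lit 4311810180)) .nil)) .nil)) (.node (.node .leaf (nat_lit 15579928420229296) (.br (nat_lit 3) (.cons (.br (nat_lit 5) (.cons (.rel (nat_lit 9126805584)) .nil)) .nil)) .leaf) (nat_lit 15579928439304368) (.br (nat_lit 5) (.cons (.br (nat_lit 1) (.cons (.rel (nat_lit 8606711826)) (.cons (.rel (nat_lit 4312334337)) .nil))) .nil)) .leaf))))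

/-- refutations 105 -/
def e105 : EX := (.node (.node (.node (.node (.node .leaf (nat_lit 15581119821382517) (.br (nat_lit 0) (.cons (.br (nat_lit 1) (.cons (.rel (nat_lit 22036497)) .nil)) .nil)) .leaf) (nat_lit 15581122400155824) (.br (nat_lit 0) (.cons (.br (nat_lit 3) (.cons (.rel (nat_lit 273170433)) .nil)) .nil)) .leaf) (nat_lit 15581125042270463) (.br (nat_lit 2) (.cons (.br (nat_lit 3) (.cons (.rel (nat_lit 336723969)) .nil)) .nil)) (.node .leaf (nat_lit 15581125043290997) (.br (nat_lit 2) (.cons (.br (nat_lit 4) (.cons (.rel (nat_lit 1140850818)) .nil)) .nil)) .leaf)) (nat_lit 15581125043597617) (.br (nat_lit 0) (.cons (.br (nat_lit 1) (.cons (.rel (nat_lit 42008640)) .nil)) .nil)) (.node (.node (.node .leaf (nat_lit 15581205697452917) (.br (nat_lit 2) (.cons (.br (nat_lit 3) (.cons (.rel (nat_lit 671088708)) .nil)) .nil)) .leaf) (nat_lit 15581205718424437) (.br (nat_lit 5) (.cons (.br (nat_lit 1) (.cons (.rel (nat_lit 4312793097)) (.cons (.rel (nat_lit 4312010817))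 .nil))) .nil)) .leaf) (nat_lit 15581205718425052) (.br (nat_lit 5) (.cons (.br (nat_lit 0) (.cons (.rel (nat_lit 4300226562)) (.cons (.rel (nat_lit 8594132994)) .nil))) .nil)) (.node .leaf (nat_lit 15581208318892917) (.br (nat_lit 0) (.cons (.br (nat_lit 2) (.cons (.rel (nat_lit 71835648)) .nil)) .nil)) .leaf))) (nat_lit 15581208320493744) (.br (nat_lit 1) (.cons (.br (nat_lit 2) (.cons (.rel (nat_lit 168050964)) .nil)) .nil)) (.node (.node (.node (.node .leaf (nat_lit 15581208320493749) (.br (nat_lit 2) (.cons (.br (nat_lit 4) (.cons (.rel (nat_lit 1140850818)) .nil)) .nil)) .leaf) (nat_lit 15581208321753269) (.br (nat_lit 1) (.cons (.br (nat_lit 2) (.cons (.rel (nat_lit 83887488)) .nil)) .nil)) .leaf) (nat_lit 15581208342724784) (.br (nat_lit 1) (.cons (.br (nat_lit 3) (.cons (.rel (nat_lit 285736968)) .nil)) .nil)) (.node .leaf (nat_lit 15581210919361397) (.br (nat_lit 1) (.cons (.br (nat_lit 3) (.cons (.rel (nat_lit 285736968)) .nil)) .nil)) .leaf)) (nat_lit 15581210919362012)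 (.br (nat_lit 5) (.cons (.br (nat_lit 0) (.cons (.rel (nat_lit 8594145300)) (.cons (.rel (nat_lit 4300226562)) .nil))) .nil)) (.node (.node .leaf (nat_lit 15581210919682229) (.br (nat_lit 2) (.cons (.br (nat_lit 5) (.cons (.rel (nat_lit 8657045505)) .nil)) .nil)) .leaf) (nat_lit 15581210922221744) (.br (nat_lit 1) (.cons (.br (nat_lit 2) (.cons (.rel (nat_lit 83951760)) .nil)) .nil)) (.node .leaf (nat_lit 15581210922221749) (.br (nat_lit 1) (.cons (.br (nat_lit 4) (.cons (.rel (nat_lit 1090519173)) .nil)) .nil)) .leaf))))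

/-- refutations 106 -/
def e106 : EX := (.node (.node .leaf (nat_lit 15418717847473628) (.br (nat_lit 1) (.cons (.br (nat_lit 2) (.cons (.rel (nat_lit 84935712)) .nil)) .nil)) .leaf) (nat_lit 15422803961036987) (.br (nat_lit 1) (.cons (.br (nat_lit 4) (.cons (.rel (nat_lit 1107312912)) .nil)) .nil)) .leaf)

/-- refutations 107 -/
def e107 : EX := (.node (.node (.node .leaf (nat_lit 15834480025301892) (.br (nat_lit 2) (.cons (.br (nat_lit 3) (.cons (.rel (nat_lit 671088708)) .nil)) .nil)) .leaf) (nat_lit 15834480026531292) (.br (nat_lit 0) (.cons (.br (nat_lit 1) (.cons (.rel (nat_lit 41944416)) .nil)) .nil)) (.node .leaf (nat_lit 15835203573417242) (.br (nat_lit 0) (.cons (.br (nat_lit 4) (.cons (.rel (nat_lit 1077941376)) .nil)) .nil)) .leaf)) (nat_lit 15839636500778460) (.br (nat_lit 1) (.cons (.br (nat_lit 2) (.cons (.rel (nat_lit 85000704)) .nil)) .nil)) (.node (.node .leaf (nat_lit 15839636501052292) (.br (nat_lit 1) (.cons (.br (nat_lit 2) (.cons (.rel (nat_lit 84971520))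 .nil)) .nil)) .leaf) (nat_lit 15839636502639492) (.br (nat_lit 2) (.cons (.br (nat_lit 4) (.cons (.rel (nat_lit 1140850818)) .nil)) .nil)) .leaf))

/-- refutations 108 -/
def e108 : EX := (.node (.node (.node (.node .leaf (nat_lit 15839679472968580) (.br (nat_lit 1) (.cons (.br (nat_lit 4) (.cons (.rel (nat_lit 1090781256)) .nil)) .nil)) .leaf) (nat_lit 15839679474288092) (.br (nat_lit 1) (.cons (.br (nat_lit 3) (.cons (.rel (nat_lit 286269441)) .nil)) .nil)) .leaf) (nat_lit 15839722379466757) (.br (nat_lit 1) (.cons (.br (nat_lit 2) (.cons (.rel (nat_lit 100664340)) .nil)) .nil)) (.node .leaf (nat_lit 15839722380688260) (.br (nat_lit 0) (.cons (.br (nat_lit 4) (.cons (.rel (nat_lit 1078476804)) .nil)) .nil)) .leaf)) (nat_lit 15844792978434729) (.br (nat_lit 1) (.cons (.br (nat_lit 5) (.cons (.rel (nat_lit 4328522760)) .nil)) .nil)) (.node (.node .leaf (nat_lit 15845056728840848) (.br (nat_lit 1) (.cons (.br (nat_lit 3) (.cons (.rel (nat_lit 570687492)) .nil)) .nil)) .leaf)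 (nat_lit 15845099699496412) (.br (nat_lit 0) (.cons (.br (nat_lit 2) (.cons (.rel (nat_lit 72370176)) .nil)) .nil)) (.node .leaf (nat_lit 15846336650372572) (.br (nat_lit 0) (.cons (.br (nat_lit 4) (.cons (.rel (nat_lit 1077936516)) .nil)) .nil)) .leaf)))

/-- list of the parts -/
def L0 : List (ℕ × List ℕ) := [(nat_lit 0x8000, [Nat.sub (Nat.pow 2 880) (Nat.pow 2 0), Nat.sub (Nat.pow 2 3136) (Nat.pow 2 880)]),
  (nat_lit 0x40, [cP]),
  (nat_lit 0x80000000, [Nat.sub (Nat.pow 2 905) (Nat.pow 2 0), Nat.sub (Nat.pow 2 3136) (Nat.pow 2 905)]),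
  (nat_lit 0x10000, [cP]),
  (nat_lit 0x20000000000, [Nat.sub (Nat.pow 2 929) (Nat.pow 2 0), Nat.sub (Nat.pow 2 3136) (Nat.pow 2 929)]),
  (nat_lit 0x40000000000000, [Nat.sub (Nat.pow 2 905) (Nat.pow 2 0), Nat.sub (Nat.pow 2 3136) (Nat.pow 2 905)]),
  (nat_lit 0x400000000, [cP]),
  (nat_lit 0x100000000000000, [Nat.sub (Nat.pow 2 889) (Nat.pow 2 0), Nat.sub (Nat.pow 2 3136) (Nat.pow 2 889)]),
  (nat_lit 0x80000000000000, [cP]),
  (nat_lit 0x200000000000000000000000000000000, [Nat.sub (Nat.pow 2 780) (Nat.pow 2 0), Nat.sub (Nat.pow 2 1555) (Nat.pow 2 780), Nat.sub (Nat.pow 2 3136) (Nat.pow 2 1555)]),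
  (nat_lit 0x20000000000000000, [cP]),
  (nat_lit 0x800000000000000000000000000000000, [Nat.sub (Nat.pow 2 1255) (Nat.pow 2 0), Nat.sub (Nat.pow 2 3136) (Nat.pow 2 1255)]),
  (nat_lit 0x80000000000000000000000000000000000, [Nat.sub (Nat.pow 2 636) (Nat.pow 2 0), Nat.sub (Nat.pow 2 1260) (Nat.pow 2 636), Nat.sub (Nat.pow 2 1565) (Nat.pow 2 1260), Nat.sub (Nat.pow 2 3136) (Nat.pow 2 1565)]),
  (nat_lit 0x400000000000000000000000000000000, [cP]),
  (nat_lit 0x200000000000000000000000000000000000, [cP]),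
  (nat_lit 0x1000000000000000000000000000000000000000, [Nat.sub (Nat.pow 2 780) (Nat.pow 2 0), Nat.sub (Nat.pow 2 3136) (Nat.pow 2 780)]),
  (nat_lit 0x100000000000000000000000000000000000000000, [Nat.sub (Nat.pow 2 681) (Nat.pow 2 0), Nat.sub (Nat.pow 2 3136) (Nat.pow 2 681)]),
  (nat_lit 0x400000000000000000000000000000000000000000, [Nat.sub (Nat.pow 2 681) (Nat.pow 2 0), Nat.sub (Nat.pow 2 3136) (Nat.pow 2 681)]),
  (nat_lit 0x800000000000000000000000000000000000000000000, [Nat.sub (Nat.pow 2 686) (Nat.pow 2 0), Nat.sub (Nat.pow 2 3136) (Nat.pow 2 686)]),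
  (nat_lit 0x1000000000000000000000000000000000000000000000, [Nat.sub (Nat.pow 2 914) (Nat.pow 2 0), Nat.sub (Nat.pow 2 1561) (Nat.pow 2 914), Nat.sub (Nat.pow 2 3136) (Nat.pow 2 1561)]),
  (nat_lit 0x400000000000000000000000000000000000000, [cP]),
  (nat_lit 0x80000000000000000000000000000000000000000000000000000000000000000, [Nat.sub (Nat.pow 2 164) (Nat.pow 2 0), Nat.sub (Nat.pow 2 785) (Nat.pow 2 164), Nat.sub (Nat.pow 2 1380) (Nat.pow 2 785), Nat.sub (Nat.pow 2 3136) (Nat.pow 2 1380)]),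
  (nat_lit 0x10000000000000000000000000000000000000000000000000000000000000000, [cP]),
  (nat_lit 0x200000000000000000000000000000000000000000000000000000000000000000, [cP]),
  (nat_lit 0x10000000000000000000000000000000000000000000000000000000000000000000000, [Nat.sub (Nat.pow 2 759) (Nat.pow 2 0), Nat.sub (Nat.pow 2 914) (Nat.pow 2 759), Nat.sub (Nat.pow 2 3136) (Nat.pow 2 914)]),
  (nat_lit 0x4000000000000000000000000000000000000000000000000000000000000000000, [cP]),
  (nat_lit 0x20000000000000000000000000000000000000000000000000000000000000000000000, [cP]),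
  (nat_lit 0x200000000000000000000000000000000000000000000000000000000000000000000000, [Nat.sub (Nat.pow 2 759) (Nat.pow 2 0), Nat.sub (Nat.pow 2 909) (Nat.pow 2 759), Nat.sub (Nat.pow 2 3136) (Nat.pow 2 909)]),
  (nat_lit 0x400000000000000000000000000000000000000000000000000000000000000000000000, [Nat.sub (Nat.pow 2 815) (Nat.pow 2 0), Nat.sub (Nat.pow 2 3136) (Nat.pow 2 815)]),
  (nat_lit 0x100000000000000000000000000000000000000000000000000000000000000000000000, [cP]),
  (nat_lit 0x10000000000000000000000000000000000000000000000000000000000000000000000000000, [Nat.sub (Nat.pow 2 780) (Nat.pow 2 0), Nat.sub (Nat.pow 2 3136) (Nat.pow 2 780)]),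
  (nat_lit 0x20000000000000000000000000000000000000000000000000000000000000000000000000000, [Nat.sub (Nat.pow 2 815) (Nat.pow 2 0), Nat.sub (Nat.pow 2 3136) (Nat.pow 2 815)]),
  (nat_lit 0x40000000000000000000000000000000000000000000000000000000000000000000000000000, [Nat.sub (Nat.pow 2 759) (Nat.pow 2 0), Nat.sub (Nat.pow 2 3136) (Nat.pow 2 759)]),
  (nat_lit 0x200000000000000000000000000000000000000000000000000000000000000000000000000000, [Nat.sub (Nat.pow 2 790) (Nat.pow 2 0), Nat.sub (Nat.pow 2 1565) (Nat.pow 2 790), Nat.sub (Nat.pow 2 3136) (Nat.pow 2 1565)]),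
  (nat_lit 0x800000000000000000000000000000000000000000000000000000000000000000000000000000, [Nat.sub (Nat.pow 2 790) (Nat.pow 2 0), Nat.sub (Nat.pow 2 3136) (Nat.pow 2 790)]),
  (nat_lit 0x10000000000000000000000000000000000000000000000000000000000000000000000000000000, [Nat.sub (Nat.pow 2 760) (Nat.pow 2 0), Nat.sub (Nat.pow 2 3136) (Nat.pow 2 760)]),
  (nat_lit 0x20000000000000000000000000000000000000000000000000000000000000000000000000000000000000000000000000000000000000000000000000000000000000000000000000000000000000, [Nat.sub (Nat.pow 2 914) (Nat.pow 2 0), Nat.sub (Nat.pow 2 3136) (Nat.pow 2 914)]),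
  (nat_lit 0x400000000000000000000000000000000000000000000000000000000000000000000000000000000000000000000000000000000000000000000000000000000000000000000000000000000000000, [Nat.sub (Nat.pow 2 1256) (Nat.pow 2 0), Nat.sub (Nat.pow 2 3136) (Nat.pow 2 1256)]),
  (nat_lit 0x800000000000000000000000000000000000000000000000000000000000000000000000000000000000000000000000000000000000000000000000000000000000000000000000000000000000000, [Nat.sub (Nat.pow 2 884) (Nat.pow 2 0), Nat.sub (Nat.pow 2 3136) (Nat.pow 2 884)]),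
  (nat_lit 0x2000000000000000000000000000000000000000000000000000000000000000000000000, [cP]),
  (nat_lit 0x40000000000000000000000000000000000000000000000000000000000000000000000000000000000000000000000000000000000000000000000000000000000000000000000000000000000000000000000, [Nat.sub (Nat.pow 2 929) (Nat.pow 2 0), Nat.sub (Nat.pow 2 3136) (Nat.pow 2 929)]),
  (nat_lit 0x100000000000000000000000000000000000000000000000000000000000000000000000000000000000000000000000000000000000000000000000000000000000000000000000000000000000000000000000000, [Nat.sub (Nat.pow 2 785) (Nat.pow 2 0), Nat.sub (Nat.pow 2 1560) (Nat.pow 2 785), Nat.sub (Nat.pow 2 3136) (Nat.pow 2 1560)]),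
  (nat_lit 0x1000000000000000000000000000000000000000000000000000000000000000000000000000000000000000000000000000000000000000000000000000000000000000000000000000000000000000000000000000, [Nat.sub (Nat.pow 2 931) (Nat.pow 2 0), Nat.sub (Nat.pow 2 3136) (Nat.pow 2 931)]),
  (nat_lit 0x10000000000000000000000000000000000000000000000000000000000000000000000000000000000000000000000000000000000000000000000000000000000000000000000000000000000000000, [cP]),
  (nat_lit 0x4000000000000000000000000000000000000000000000000000000000000000000000000000000000000000000000000000000000000000000000000000000000000000000000000000000000000000000000000000, [Nat.sub (Nat.pow 2 914) (Nat.pow 2 0), Nat.sub (Nat.pow 2 3136) (Nat.pow 2 914)]),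
  (nat_lit 0x2000000000000000000000000000000000000000000000000000000000000000000000000000000000000000000000000000000000000000000000000000000000000000000000000000000000000000000000000000, [cP]),
  (nat_lit 0x100000000000000000000000000000000000000000000000000000000000000000000000000000000000000000000000000000000000000000000000000000000000000000000000000000000000000000000000000000000000000000000000, [Nat.sub (Nat.pow 2 684) (Nat.pow 2 0), Nat.sub (Nat.pow 2 1280) (Nat.pow 2 684), Nat.sub (Nat.pow 2 3136) (Nat.pow 2 1280)]),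
  (nat_lit 0x10000000000000000000000000000000000000000000000000000000000000000000000000000000000000000000000000000000000000000000000000000000000000000000000000000000000000000000000000000000000000000000000, [cP]),
  (nat_lit 0x800000000000000000000000000000000000000000000000000000000000000000000000000000000000000000000000000000000000000000000000000000000000000000000000000000000000000000000000000000000000000000000000000, [Nat.sub (Nat.pow 2 906) (Nat.pow 2 0), Nat.sub (Nat.pow 2 3136) (Nat.pow 2 906)]),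
  (nat_lit 0x200000000000000000000000000000000000000000000000000000000000000000000000000000000000000000000000000000000000000000000000000000000000000000000000000000000000000000000000000000000000000000000000, [cP]),
  (nat_lit 0x10000000000000000000000000000000000000000000000000000000000000000000000000000000000000000000000000000000000000000000000000000000000000000000000000000000000000000000000000000000000000000000000000000, [cP]),
  (nat_lit 0x40000000000000000000000000000000000000000000000000000000000000000000000000000000000000000000000000000000000000000000000000000000000000000000000000000000000000000000000000000000000000000000000000000, [cP]),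
  (nat_lit 0x40000000000000000000000000000000000000000000000000000000000000000000000000000000000000000000000000000000000000000000000000000000000000000000000000000000000000000000000000000000000000000000000000000000000, [Nat.sub (Nat.pow 2 906) (Nat.pow 2 0), Nat.sub (Nat.pow 2 3136) (Nat.pow 2 906)]),
  (nat_lit 0x800000000000000000000000000000000000000000000000000000000000000000000000000000000000000000000000000000000000000000000000000000000000000000000000000000000000000000000000000000000000000000000000000000000000, [Nat.sub (Nat.pow 2 905) (Nat.pow 2 0), Nat.sub (Nat.pow 2 3136) (Nat.pow 2 905)]),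
  (nat_lit 0x400000000000000000000000000000000000000000000000000000000000000000000000000000000000000000000000000000000000000000000000000000000000000000000000000000000000000000000000000000000000000000000000000000, [cP]),
  (nat_lit 0x200000000000000000000000000000000000000000000000000000000000000000000000000000000000000000000000000000000000000000000000000000000000000000000000000000000000000000000000000000000000000000000000000000000000000000000000000000, [Nat.sub (Nat.pow 2 889) (Nat.pow 2 0), Nat.sub (Nat.pow 2 3136) (Nat.pow 2 889)]),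
  (nat_lit 0x2000000000000000000000000000000000000000000000000000000000000000000000000000000000000000000000000000000000000000000000000000000000000000000000000000000000000000000000000000000000000000000000000000000000000000000000000000000, [Nat.sub (Nat.pow 2 304) (Nat.pow 2 0), Nat.sub (Nat.pow 2 790) (Nat.pow 2 304), Nat.sub (Nat.pow 2 1405) (Nat.pow 2 790), Nat.sub (Nat.pow 2 3136) (Nat.pow 2 1405)]),
  (nat_lit 0x10000000000000000000000000000000000000000000000000000000000000000000000000000000000000000000000000000000000000000000000000000000000000000000000000000000000000000000000000000000000000000000000000000000000000000000000000000, [cP]),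
  (nat_lit 0x10000000000000000000000000000000000000000000000000000000000000000000000000000000000000000000000000000000000000000000000000000000000000000000000000000000000000000000000000000000000000000000000000000000000000000000000000000000000, [Nat.sub (Nat.pow 2 785) (Nat.pow 2 0), Nat.sub (Nat.pow 2 3136) (Nat.pow 2 785)])]

theorem hp0 : ∀ p ∈ L0, ∀ D2 ∈ p.2, ∃ e,
    search ext94 (Pool.Agent.H74.EGZ.vio sb) G Uc A0 p.1 D2 e = true :=
  (List.forall_mem_cons.2 ⟨(List.forall_mem_cons.2 ⟨⟨e0, by decide +kernel⟩,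
  (List.forall_mem_singleton.2 ⟨e1, by decide +kernel⟩)⟩),
  (List.forall_mem_cons.2 ⟨(List.forall_mem_singleton.2 ⟨e2, by decide +kernel⟩),
  (List.forall_mem_cons.2 ⟨(List.forall_mem_cons.2 ⟨⟨e3, by decide +kernel⟩,
  (List.forall_mem_singleton.2 ⟨e4, by decide +kernel⟩)⟩),
  (List.forall_mem_cons.2 ⟨(List.forall_mem_singleton.2 ⟨e5, by decide +kernel⟩),
  (List.forall_mem_cons.2 ⟨(List.forall_mem_cons.2 ⟨⟨e6, by decide +kernel⟩,
  (List.forall_mem_singleton.2 ⟨e7, by decide +kernel⟩)⟩),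
  (List.forall_mem_cons.2 ⟨(List.forall_mem_cons.2 ⟨⟨e8, by decide +kernel⟩,
  (List.forall_mem_singleton.2 ⟨e9, by decide +kernel⟩)⟩),
  (List.forall_mem_cons.2 ⟨(List.forall_mem_singleton.2 ⟨e10, by decide +kernel⟩),
  (List.forall_mem_cons.2 ⟨(List.forall_mem_cons.2 ⟨⟨e11, by decide +kernel⟩,
  (List.forall_mem_singleton.2 ⟨e12, by decide +kernel⟩)⟩),
  (List.forall_mem_cons.2 ⟨(List.forall_mem_singleton.2 ⟨e13, by decide +kernel⟩),
  (List.forall_mem_cons.2 ⟨(List.forall_mem_cons.2 ⟨⟨e14, by decide +kernel⟩,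
  (List.forall_mem_cons.2 ⟨⟨e15, by decide +kernel⟩,
  (List.forall_mem_singleton.2 ⟨.leaf, by decide +kernel⟩)⟩)⟩),
  (List.forall_mem_cons.2 ⟨(List.forall_mem_singleton.2 ⟨e17, by decide +kernel⟩),
  (List.forall_mem_cons.2 ⟨(List.forall_mem_cons.2 ⟨⟨e18, by decide +kernel⟩,
  (List.forall_mem_singleton.2 ⟨e19, by decide +kernel⟩)⟩),
  (List.forall_mem_cons.2 ⟨(List.forall_mem_cons.2 ⟨⟨e20, by decide +kernel⟩,
  (List.forall_mem_cons.2 ⟨⟨e21, by decide +kernel⟩,
  (List.forall_mem_cons.2 ⟨⟨e22, by decide +kernel⟩,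
  (List.forall_mem_singleton.2 ⟨.leaf, by decide +kernel⟩)⟩)⟩)⟩),
  (List.forall_mem_cons.2 ⟨(List.forall_mem_singleton.2 ⟨e24, by decide +kernel⟩),
  (List.forall_mem_cons.2 ⟨(List.forall_mem_singleton.2 ⟨e25, by decide +kernel⟩),
  (List.forall_mem_cons.2 ⟨(List.forall_mem_cons.2 ⟨⟨e26, by decide +kernel⟩,
  (List.forall_mem_singleton.2 ⟨e27, by decide +kernel⟩)⟩),
  (List.forall_mem_cons.2 ⟨(List.forall_mem_cons.2 ⟨⟨e28, by decide +kernel⟩,
  (List.forall_mem_singleton.2 ⟨e29, by decide +kernel⟩)⟩),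
  (List.forall_mem_cons.2 ⟨(List.forall_mem_cons.2 ⟨⟨e30, by decide +kernel⟩,
  (List.forall_mem_singleton.2 ⟨e31, by decide +kernel⟩)⟩),
  (List.forall_mem_cons.2 ⟨(List.forall_mem_cons.2 ⟨⟨e32, by decide +kernel⟩,
  (List.forall_mem_singleton.2 ⟨.leaf, by decide +kernel⟩)⟩),
  (List.forall_mem_cons.2 ⟨(List.forall_mem_cons.2 ⟨⟨e34, by decide +kernel⟩,
  (List.forall_mem_cons.2 ⟨⟨e35, by decide +kernel⟩,
  (List.forall_mem_singleton.2 ⟨.leaf, by decide +kernel⟩)⟩)⟩),
  (List.forall_mem_cons.2 ⟨(List.forall_mem_singleton.2 ⟨e37, by decide +kernel⟩),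
  (List.forall_mem_cons.2 ⟨(List.forall_mem_cons.2 ⟨⟨e38, by decide +kernel⟩,
  (List.forall_mem_cons.2 ⟨⟨e39, by decide +kernel⟩,
  (List.forall_mem_cons.2 ⟨⟨e40, by decide +kernel⟩,
  (List.forall_mem_singleton.2 ⟨e41, by decide +kernel⟩)⟩)⟩)⟩),
  (List.forall_mem_cons.2 ⟨(List.forall_mem_singleton.2 ⟨e42, by decide +kernel⟩),
  (List.forall_mem_cons.2 ⟨(List.forall_mem_singleton.2 ⟨e43, by decide +kernel⟩),
  (List.forall_mem_cons.2 ⟨(List.forall_mem_cons.2 ⟨⟨e44, by decide +kernel⟩,
  (List.forall_mem_cons.2 ⟨⟨e45, by decide +kernel⟩,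
  (List.forall_mem_singleton.2 ⟨e46, by decide +kernel⟩)⟩)⟩),
  (List.forall_mem_cons.2 ⟨(List.forall_mem_singleton.2 ⟨e47, by decide +kernel⟩),
  (List.forall_mem_cons.2 ⟨(List.forall_mem_singleton.2 ⟨e48, by decide +kernel⟩),
  (List.forall_mem_cons.2 ⟨(List.forall_mem_cons.2 ⟨⟨e49, by decide +kernel⟩,
  (List.forall_mem_cons.2 ⟨⟨e50, by decide +kernel⟩,
  (List.forall_mem_singleton.2 ⟨e51, by decide +kernel⟩)⟩)⟩),
  (List.forall_mem_cons.2 ⟨(List.forall_mem_cons.2 ⟨⟨e52, by decide +kernel⟩,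
  (List.forall_mem_singleton.2 ⟨e53, by decide +kernel⟩)⟩),
  (List.forall_mem_cons.2 ⟨(List.forall_mem_singleton.2 ⟨e54, by decide +kernel⟩),
  (List.forall_mem_cons.2 ⟨(List.forall_mem_cons.2 ⟨⟨.leaf, by decide +kernel⟩,
  (List.forall_mem_singleton.2 ⟨e56, by decide +kernel⟩)⟩),
  (List.forall_mem_cons.2 ⟨(List.forall_mem_cons.2 ⟨⟨e57, by decide +kernel⟩,
  (List.forall_mem_singleton.2 ⟨e58, by decide +kernel⟩)⟩),
  (List.forall_mem_cons.2 ⟨(List.forall_mem_cons.2 ⟨⟨e59, by decide +kernel⟩,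
  (List.forall_mem_singleton.2 ⟨e60, by decide +kernel⟩)⟩),
  (List.forall_mem_cons.2 ⟨(List.forall_mem_cons.2 ⟨⟨e61, by decide +kernel⟩,
  (List.forall_mem_cons.2 ⟨⟨e62, by decide +kernel⟩,
  (List.forall_mem_singleton.2 ⟨e63, by decide +kernel⟩)⟩)⟩),
  (List.forall_mem_cons.2 ⟨(List.forall_mem_cons.2 ⟨⟨e64, by decide +kernel⟩,
  (List.forall_mem_singleton.2 ⟨e65, by decide +kernel⟩)⟩),
  (List.forall_mem_cons.2 ⟨(List.forall_mem_cons.2 ⟨⟨e66, by decide +kernel⟩,
  (List.forall_mem_singleton.2 ⟨e67, by decide +kernel⟩)⟩),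
  (List.forall_mem_cons.2 ⟨(List.forall_mem_cons.2 ⟨⟨e68, by decide +kernel⟩,
  (List.forall_mem_singleton.2 ⟨e69, by decide +kernel⟩)⟩),
  (List.forall_mem_cons.2 ⟨(List.forall_mem_cons.2 ⟨⟨e70, by decide +kernel⟩,
  (List.forall_mem_singleton.2 ⟨e71, by decide +kernel⟩)⟩),
  (List.forall_mem_cons.2 ⟨(List.forall_mem_cons.2 ⟨⟨.leaf, by decide +kernel⟩,
  (List.forall_mem_singleton.2 ⟨e73, by decide +kernel⟩)⟩),
  (List.forall_mem_cons.2 ⟨(List.forall_mem_singleton.2 ⟨e74, by decide +kernel⟩),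
  (List.forall_mem_cons.2 ⟨(List.forall_mem_cons.2 ⟨⟨e75, by decide +kernel⟩,
  (List.forall_mem_singleton.2 ⟨e76, by decide +kernel⟩)⟩),
  (List.forall_mem_cons.2 ⟨(List.forall_mem_cons.2 ⟨⟨e77, by decide +kernel⟩,
  (List.forall_mem_cons.2 ⟨⟨e78, by decide +kernel⟩,
  (List.forall_mem_singleton.2 ⟨.leaf, by decide +kernel⟩)⟩)⟩),
  (List.forall_mem_cons.2 ⟨(List.forall_mem_cons.2 ⟨⟨e80, by decide +kernel⟩,
  (List.forall_mem_singleton.2 ⟨e81, by decide +kernel⟩)⟩),
  (List.forall_mem_cons.2 ⟨(List.forall_mem_singleton.2 ⟨e82, by decide +kernel⟩),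
  (List.forall_mem_cons.2 ⟨(List.forall_mem_cons.2 ⟨⟨e83, by decide +kernel⟩,
  (List.forall_mem_singleton.2 ⟨e84, by decide +kernel⟩)⟩),
  (List.forall_mem_cons.2 ⟨(List.forall_mem_singleton.2 ⟨e85, by decide +kernel⟩),
  (List.forall_mem_cons.2 ⟨(List.forall_mem_cons.2 ⟨⟨e86, by decide +kernel⟩,
  (List.forall_mem_cons.2 ⟨⟨e87, by decide +kernel⟩,
  (List.forall_mem_singleton.2 ⟨e88, by decide +kernel⟩)⟩)⟩),
  (List.forall_mem_cons.2 ⟨(List.forall_mem_singleton.2 ⟨e89, by decide +kernel⟩),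
  (List.forall_mem_cons.2 ⟨(List.forall_mem_cons.2 ⟨⟨e90, by decide +kernel⟩,
  (List.forall_mem_singleton.2 ⟨e91, by decide +kernel⟩)⟩),
  (List.forall_mem_cons.2 ⟨(List.forall_mem_singleton.2 ⟨e92, by decide +kernel⟩),
  (List.forall_mem_cons.2 ⟨(List.forall_mem_singleton.2 ⟨e93, by decide +kernel⟩),
  (List.forall_mem_cons.2 ⟨(List.forall_mem_singleton.2 ⟨e94, by decide +kernel⟩),
  (List.forall_mem_cons.2 ⟨(List.forall_mem_cons.2 ⟨⟨e95, by decide +kernel⟩,
  (List.forall_mem_singleton.2 ⟨e96, by decide +kernel⟩)⟩),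
  (List.forall_mem_cons.2 ⟨(List.forall_mem_cons.2 ⟨⟨e97, by decide +kernel⟩,
  (List.forall_mem_singleton.2 ⟨e98, by decide +kernel⟩)⟩),
  (List.forall_mem_cons.2 ⟨(List.forall_mem_singleton.2 ⟨e99, by decide +kernel⟩),
  (List.forall_mem_cons.2 ⟨(List.forall_mem_cons.2 ⟨⟨e100, by decide +kernel⟩,
  (List.forall_mem_singleton.2 ⟨e101, by decide +kernel⟩)⟩),
  (List.forall_mem_cons.2 ⟨(List.forall_mem_cons.2 ⟨⟨e102, by decide +kernel⟩,
  (List.forall_mem_cons.2 ⟨⟨e103, by decide +kernel⟩,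
  (List.forall_mem_cons.2 ⟨⟨e104, by decide +kernel⟩,
  (List.forall_mem_singleton.2 ⟨e105, by decide +kernel⟩)⟩)⟩)⟩),
  (List.forall_mem_cons.2 ⟨(List.forall_mem_singleton.2 ⟨e106, by decide +kernel⟩),
  (List.forall_mem_singleton.2 (List.forall_mem_cons.2 ⟨⟨e107, by decide +kernel⟩,
  (List.forall_mem_singleton.2 ⟨e108, by decide +kernel⟩)⟩))⟩)⟩)⟩)⟩)⟩)⟩)⟩)⟩)⟩)⟩)⟩)⟩)⟩)⟩)⟩)⟩)⟩)⟩)⟩)⟩)⟩)⟩)⟩)⟩)⟩)⟩)⟩)⟩)⟩)⟩)⟩)⟩)⟩)⟩)⟩)⟩)⟩)⟩)⟩)⟩)⟩)⟩)⟩)⟩)⟩)⟩)⟩)⟩)⟩)⟩)⟩)⟩)⟩)⟩)⟩)⟩)⟩)⟩)

end

end Pool.Agent.H21.EGZ.S2
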