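import Pool.Agent.H21.EGZ.D2

/-!
# Stage 2 : search, part 1
-/

set_option autoImplicit false
set_option maxRecDepth 100000

namespace Pool.Agent.H21.EGZ.S2

noncomputable section

open Pool.Agent.H74.EGZ Pool.Agent.H94.Lift

/-- refutations 110 -/
def e110 : EX := (.node (.node .leaf (nat_lit 15857452661401052) (.br (nat_lit 1) (.cons (.br (nat_lit 2) (.cons (.rel (nat_lit 84427776)) .nil)) .nil)) .leaf) (nat_lit 15863980355065308) (.br (nat_lit 2) (.cons (.br (nat_lit 3) (.cons (.rel (nat_lit 336723969)) .nil)) .nil)) .leaf)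

/-- refutations 111 -/
def e111 : EX := (.node (.node (.node .leaf (nat_lit 15868172264792966) (.br (nat_lit 5) (.cons (.br (nat_lit 2) (.cons (.rel (nat_lit 4362080388)) (.cons (.rel (nat_lit 4362403908)) .nil))) .nil)) .leaf) (nat_lit 15869744242515420) (.br (nat_lit 0) (.cons (.br (nat_lit 1) (.cons (.rel (nat_lit 25187328)) .nil)) .nil)) .leaf) (nat_lit 15869746742614703) (.br (nat_lit 0) (.cons (.br (nat_lit 3) (.cons (.rel (nat_lit 272892228)) .nil)) .nil)) (.node .leaf (nat_lit 15870408792223879) (.br (nat_lit 0) (.cons (.br (nat_lit 1) (.cons (.rel (nat_lit 37752864)) .nil)) .nil)) .leaf))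

/-- refutations 112 -/
def e112 : EX := (.node (.node (.node (.node .leaf (nat_lit 15874820873192709) (.br (nat_lit 0) (.cons (.br (nat_lit 1) (.cons (.rel (nat_lit 21565440)) .nil)) .nil)) .leaf) (nat_lit 15874820874412914) (.br (nat_lit 0) (.cons (.br (nat_lit 5) (.cons (.rel (nat_lit 8594194440)) .nil)) .nil)) .leaf) (nat_lit 15874820874423803) (.br (nat_lit 0) (.cons (.br (nat_lit 1) (.cons (.rel (nat_lit 21504006)) .nil)) .nil)) (.node .leaf (nat_lit 15874820875731826) (.br (nat_lit 0) (.cons (.br (nat_lit 2) (.cons (.rel (nat_lit 73400388)) .nil)) .nil)) .leaf)) (nat_lit 15876144381614742) (.br (nat_lit 0) (.cons (.br (nat_lit 3) (.cons (.rel (nat_lit 272892228)) .nil)) .nil)) (.node (.node .leaf (nat_lit 15876144384476636) (.br (nat_lit 5) (.cons (.br (nat_lit 1) (.cons (.rel (nat_lit 4328522760)) (.cons (.rel (nat_lit 8623506756)) .nil))) .nil)) .leaf) (nat_lit 15876146246747612) (.br (nat_lit 2) (.cons (.br (nat_lit 5) (.cons (.rel (nat_lit 8657045505)) .nil)) .nil)) (.node .leaf (nat_lit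 15876187323966342) (.br (nat_lit 0) (.cons (.br (nat_lit 3) (.cons (.rel (nat_lit 273678369)) .nil)) .nil)) .leaf)))

/-- refutations 113 -/
def e113 : EX := (.node (.node (.node (.node .leaf (nat_lit 15878904220767468) (.br (nat_lit 0) (.cons (.br (nat_lit 2) (.cons (.rel (nat_lit 138413328)) .nil)) .nil)) .leaf) (nat_lit 15878904220767614) (.br (nat_lit 0) (.cons (.br (nat_lit 3) (.cons (.rel (nat_lit 273686784)) .nil)) .nil)) (.node .leaf (nat_lit 15878904220767708) (.br (nat_lit 0) (.cons (.br (nat_lit 3) (.cons (.rel (nat_lit 273170433)) .nil)) .nil)) .leaf)) (nat_lit 15878907462966748) (.br (nat_lit 4) (.cons (.br (nat_lit 6) (.cons (.rel (nat_lit 18254139396)) .nil)) .nil)) (.node (.node .leaf (nat_lit 15878909079593766) (.br (nat_lit 1) (.cons (.br (nat_lit 2) (.cons (.rel (nat_lit 100664340)) .nil)) .nil)) .leaf) (nat_lit 15878909702725084) (.br (nat_lit 1) (.cons (.br (nat_lit 2) (.cons (.rel (nat_lit 84971520)) .nil)) .nil)) .leaf)) (nat_lit 15878912806510044) (.br (nat_lit 3) (.cons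 (.br (nat_lit 5) (.cons (.rel (nat_lit 4563928068)) .nil)) .nil)) (.node (.node (.node .leaf (nat_lit 15878947212361789) (.br (nat_lit 0) (.cons (.br (nat_lit 2) (.cons (.rel (nat_lit 142872576)) .nil)) .nil)) .leaf) (nat_lit 15878947212363133) (.br (nat_lit 0) (.cons (.br (nat_lit 3) (.cons (.rel (nat_lit 273678369)) .nil)) .nil)) (.node .leaf (nat_lit 15879325146162554) (.br (nat_lit 0) (.cons (.br (nat_lit 2) (.cons (.rel (nat_lit 142872576)) .nil)) .nil)) .leaf)) (nat_lit 15881261106408826) (.br (nat_lit 0) (.cons (.br (nat_lit 3) (.cons (.rel (nat_lit 276828165)) .nil)) .nil)) (.node (.node .leaf (nat_lit 15881306275029173) (.br (nat_lit 5) (.cons (.br (nat_lit 0) (.cons (.rel (nat_lit 8594132994)) (.cons (.rel (nat_lit 4299428160)) .nil))) .nil)) .leaf) (nat_lit 15881351870334428) (.br (nat_lit 1) (.cons (.br (nat_lit 6) (.cons (.rel (nat_lit 17196647040)) .nil)) .nil)) .leaf)))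

/-- refutations 116 -/
def e116 : EX := (.node .leaf (nat_lit 15950601276143068) (.br (nat_lit 0) (.cons (.br (nat_lit 1) (.cons (.rel (nat_lit 21241920)) .nil)) .nil)) .leaf)

/-- refutations 117 -/
def e117 : EX := (.node (.node (.node .leaf (nat_lit 15957498993885309) (.br (nat_lit 0) (.cons (.br (nat_lit 1) (.cons (.rel (nat_lit 21241920)) .nil)) .nil)) .leaf) (nat_lit 15957662202386489) (.br (nat_lit 0) (.cons (.br (nat_lit 2) (.cons (.rel (nat_lit 71696448)) .nil)) .nil)) .leaf) (nat_lit 15957662202687613) (.br (nat_lit 0) (.cons (.br (nat_lit 1) (.cons (.rel (nat_lit 37748994)) .nil)) .nil)) (.node .leaf (nat_lit 15958753102793360) (.br (nat_lit 1) (.cons (.br (nat_lit 2) (.cons (.rel (nat_lit 84414480)) .nil)) .nil)) .leaf))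

/-- refutations 118 -/
def e118 : EX := (.node (.node (.node .leaf (nat_lit 15962598782038942) (.br (nat_lit 0) (.cons (.br (nat_lit 2) (.cons (.rel (nat_lit 75564288)) .nil)) .nil)) .leaf) (nat_lit 15962827898510613) (.br (nat_lit 3) (.cons (.br (nat_lit 4) (.cons (.rel (nat_lit 1343242242)) .nil)) .nil)) .leaf) (nat_lit 15962867682096011) (.br (nat_lit 0) (.cons (.br (nat_lit 2) (.cons (.rel (nat_lit 72417282)) .nil)) .nil)) (.node .leaf (nat_lit 15962867682999157) (.br (nat_lit 0) (.cons (.br (nat_lit 3) (.cons (.rel (nat_lit 273679368)) .nil)) .nil)) .leaf))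

/-- refutations 119 -/
def e119 : EX := (.node (.node (.node .leaf (nat_lit 15966916686383381) (.br (nat_lit 3) (.cons (.br (nat_lit 0) (.cons (.rel (nat_lit 541085712)) (.cons (.rel (nat_lit 276829200)) .nil))) .nil)) .leaf) (nat_lit 15966916686383915) (.br (nat_lit 3) (.cons (.br (nat_lit 6) (.cons (.rel (nat_lit 17449386240)) (.cons (.rel (nat_lit 17716740609)) .nil))) .nil)) .leaf) (nat_lit 15966916686384015) (.br (nat_lit 3) (.cons (.br (nat_lit 4) (.cons (.rel (nat_lit 2684358741)) .nil)) .nil)) (.node (.node .leaf (nat_lit 15966916686384415) (.br (nat_lit 3) (.cons (.br (nat_lit 5) (.cons (.rel (nat_lit 4564471812)) .nil)) .nil)) .leaf) (nat_lit 15969313278135083) (.br (nat_lit 1) (.cons (.br (nat_lit 4) (.cons (.rel (nat_lit 1107312912)) .nil)) .nil)) .leaf))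

/-- refutations 120 -/
def e120 : EX := (.node (.node (.node .leaf (nat_lit 16011125409721230) (.br (nat_lit 0) (.cons (.br (nat_lit 3) (.cons (.rel (nat_lit 273678369)) .nil)) .nil)) .leaf) (nat_lit 16011263374816732) (.br (nat_lit 0) (.cons (.br (nat_lit 3) (.cons (.rel (nat_lit 541134852)) .nil)) .nil)) (.node .leaf (nat_lit 16011263376024462) (.br (nat_lit 0) (.cons (.br (nat_lit 1) (.cons (.rel (nat_lit 42008640)) .nil)) .nil)) .leaf)) (nat_lit 16014261262710236) (.br (nat_lit 3) (.cons (.br (nat_lit 4) (.cons (.rel (nat_lit 1610612742)) .nil)) .nil)) (.node (.node .leaf (nat_lit 16015558363082877) (.br (nat_lit 1) (.cons (.br (nat_lit 3) (.cons (.rel (nat_lit 285212802)) .nil)) .nil)) .leaf) (nat_lit 16015558363129308) (.br (nat_lit 3) (.cons (.br (nat_lit 4) (.cons (.rel (nat_lit 1342767360)) .nil)) .nil)) (.node .leaf (nat_lit 16015558364312462) (.br (nat_lit 1) (.cons (.br (nat_lit 3) (.cons (.rel (nat_lit 570447168)) .nil)) .nil)) .leaf)))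

/-- refutations 121 -/
def e121 : EX := (.node (.node (.node (.node (.node .leaf (nat_lit 16016406667848590) (.br (nat_lit 1) (.cons (.br (nat_lit 3) (.cons (.rel (nat_lit 301999104)) .nil)) .nil)) .leaf) (nat_lit 16016417986917852) (.br (nat_lit 2) (.cons (.br (nat_lit 3) (.cons (.rel (nat_lit 604045329)) .nil)) .nil)) .leaf) (nat_lit 16020935681576412) (.br (nat_lit 0) (.cons (.br (nat_lit 4) (.cons (.rel (nat_lit 1078476804)) .nil)) .nil)) (.node .leaf (nat_lit 16021021559940572) (.br (nat_lit 2) (.cons (.br (nat_lit 3) (.cons (.rel (nat_lit 671088708)) .nil)) .nil)) .leaf)) (nat_lit 16021239017515918) (.br (nat_lit 0) (.cons (.br (nat_lit 1) (.cons (.rel (nat_lit 25182468)) .nil)) .nil)) (.node (.node .leaf (nat_lit 16021239020448020) (.br (nat_lit 1) (.cons (.br (nat_lit 2) (.cons (.rel (nat_lit 100663305)) .nil)) .nil)) .leaf) (nat_lit 16022212402852750) (.br (nat_lit 0) (.cons (.br (nat_lit 3) (.cons (.rel (nat_lit 273764352)) .nil)) .nil)) (.node .leaf (nat_lit 16022212402853340) (.br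 (nat_lit 0) (.cons (.br (nat_lit 1) (.cons (.rel (nat_lit 22036497)) (.cons (.rel (nat_lit 22085637)) .nil))) .nil)) .leaf))) (nat_lit 16022212404061070) (.br (nat_lit 1) (.cons (.br (nat_lit 2) (.cons (.rel (nat_lit 100663305)) .nil)) .nil)) (.node (.node (.node .leaf (nat_lit 16022215540192732) (.br (nat_lit 0) (.cons (.br (nat_lit 3) (.cons (.rel (nat_lit 273679368)) .nil)) .nil)) .leaf) (nat_lit 16022255995472782) (.br (nat_lit 1) (.cons (.br (nat_lit 2) (.cons (.rel (nat_lit 84935712)) .nil)) .nil)) (.node .leaf (nat_lit 16022258510816732) (.br (nat_lit 0) (.cons (.br (nat_lit 2) (.cons (.rel (nat_lit 71372928)) (.cons (.rel (nat_lit 72370176)) .nil))) .nil)) .leaf)) (nat_lit 16022258512055182) (.br (nat_lit 2) (.cons (.br (nat_lit 1) (.cons (.rel (nat_lit 84935712)) (.cons (.rel (nat_lit 100798464)) .nil))) .nil)) (.node (.node .leaf (nat_lit 16022258512065422) (.br (nat_lit 0) (.cons (.br (nat_lit 1) (.cons (.rel (nat_lit 42008640)) .nil)) .nil)) .leaf) (nat_lit 16022298323160540) (.br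 (nat_lit 0) (.cons (.br (nat_lit 1) (.cons (.rel (nat_lit 22085637)) .nil)) .nil)) (.node .leaf (nat_lit 16022302093839836) (.br (nat_lit 0) (.cons (.br (nat_lit 1) (.cons (.rel (nat_lit 37752864)) .nil)) .nil)) .leaf))))

/-- refutations 122 -/
def e122 : EX := (.node (.node .leaf (nat_lit 16026710303142799) (.br (nat_lit 0) (.cons (.br (nat_lit 2) (.cons (.rel (nat_lit 71835648)) .nil)) .nil)) .leaf) (nat_lit 16033236427022512) (.br (nat_lit 1) (.cons (.br (nat_lit 2) (.cons (.rel (nat_lit 84971520)) .nil)) .nil)) (.node .leaf (nat_lit 16033236427195018) (.br (nat_lit 0) (.cons (.br (nat_lit 1) (.cons (.rel (nat_lit 21102720)) .nil)) .nil)) .leaf))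

/-- refutations 123 -/
def e123 : EX := (.node (.node (.node .leaf (nat_lit 16038519869080208) (.br (nat_lit 5) (.cons (.br (nat_lit 6) (.cons (.rel (nat_lit 38654776320)) .nil)) .nil)) .leaf) (nat_lit 16038605177019019) (.br (nat_lit 1) (.cons (.br (nat_lit 3) (.cons (.rel (nat_lit 301999104)) .nil)) .nil)) .leaf) (nat_lit 16038785469219727) (.br (nat_lit 1) (.cons (.br (nat_lit 5) (.cons (.rel (nat_lit 4312334337)) .nil)) .nil)) (.node .leaf (nat_lit 16039679510496143) (.br (nat_lit 1) (.cons (.br (nat_lit 2) (.cons (.rel (nat_lit 84935712)) .nil)) .nil)) .leaf))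

/-- refutations 124 -/
def e124 : EX := (.node (.node .leaf (nat_lit 15592048818615158) (.br (nat_lit 1) (.cons (.br (nat_lit 5) (.cons (.rel (nat_lit 8606711826)) .nil)) .nil)) .leaf) (nat_lit 15600085858093218) (.br (nat_lit 0) (.cons (.br (nat_lit 1) (.cons (.rel (nat_lit 21241920)) .nil)) .nil)) .leaf)

/-- refutations 125 -/
def e125 : EX := (.node (.node (.node .leaf (nat_lit 16309116637297397) (.br (nat_lit 1) (.cons (.br (nat_lit 4) (.cons (.rel (nat_lit 1091575812)) .nil)) .nil)) .leaf) (nat_lit 16309116637298140) (.br (nat_lit 0) (.cons (.br (nat_lit 1) (.cons (.rel (nat_lit 21565440)) .nil)) .nil)) (.node .leaf (nat_lit 16309116639964541) (.br (nat_lit 1) (.cons (.br (nat_lit 0) (.cons (.rel (nat_lit 21241920)) (.cons (.rel (nat_lit 21537024)) .nil))) .nil)) .leaf)) (nat_lit 16313325330068956) (.br (nat_lit 2) (.cons (.br (nat_lit 0) (.cons (.rel (nat_lit 72355845)) (.cons (.rel (nat_lit 71835648)) .nil))) .nil)) (.node (.node .leaf (nat_lit 16313331153733084) (.br (nat_lit 0) (.cons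 (.br (nat_lit 3) (.cons (.rel (nat_lit 276828165)) .nil)) .nil)) .leaf) (nat_lit 16313852409463544) (.br (nat_lit 0) (.cons (.br (nat_lit 1) (.cons (.rel (nat_lit 22036497)) .nil)) .nil)) (.node .leaf (nat_lit 16313855602674591) (.br (nat_lit 2) (.cons (.br (nat_lit 6) (.cons (.rel (nat_lit 17314153488)) .nil)) .nil)) .leaf)))

/-- refutations 126 -/
def e126 : EX := (.node (.node (.node .leaf (nat_lit 16314625524589471) (.br (nat_lit 0) (.cons (.br (nat_lit 1) (.cons (.rel (nat_lit 21241920)) .nil)) .nil)) .leaf) (nat_lit 16314628233771670) (.br (nat_lit 0) (.cons (.br (nat_lit 1) (.cons (.rel (nat_lit 25166337)) .nil)) .nil)) .leaf) (nat_lit 16314665737709629) (.br (nat_lit 0) (.cons (.br (nat_lit 1) (.cons (.rel (nat_lit 25166337)) .nil)) .nil)) (.node (.node .leaf (nat_lit 16314671183445468) (.br (nat_lit 1) (.cons (.br (nat_lit 3) (.cons (.rel (nat_lit 285736968)) .nil)) .nil)) .leaf) (nat_lit 16314671183529436) (.br (nat_lit 1) (.cons (.br (nat_lit 2) (.cons (.rel (nat_lit 151068672))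 .nil)) .nil)) .leaf))

/-- refutations 127 -/
def e127 : EX := (.node (.node (.node (.node .leaf (nat_lit 16319997404316958) (.br (nat_lit 0) (.cons (.br (nat_lit 2) (.cons (.rel (nat_lit 72355845)) .nil)) .nil)) .leaf) (nat_lit 16320260500456080) (.br (nat_lit 1) (.cons (.br (nat_lit 3) (.cons (.rel (nat_lit 286269441)) .nil)) .nil)) (.node .leaf (nat_lit 16321151156929439) (.br (nat_lit 1) (.cons (.br (nat_lit 0) (.cons (.rel (nat_lit 21102720)) (.cons (.rel (nat_lit 42008640)) .nil))) .nil)) .leaf)) (nat_lit 16321279565607839) (.br (nat_lit 1) (.cons (.br (nat_lit 5) (.cons (.rel (nat_lit 4312794132)) .nil)) .nil)) (.node (.node .leaf (nat_lit 16321279565608412) (.br (nat_lit 6) (.cons (.br (nat_lit 5) (.cons (.rel (nat_lit 21475889154)) (.cons (.rel (nat_lit 42950000640)) .nil))) .nil)) .leaf) (nat_lit 16321280529970079) (.br (nat_lit 0) (.cons (.br (nat_lit 3) (.cons (.rel (nat_lit 545523216)) .nil)) .nil)) .leaf)) (nat_lit 16321282702947231) (.br (nat_lit 3) (.cons (.br (nat_lit 5) (.cons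 (.rel (nat_lit 4831854609)) .nil)) .nil)) (.node (.node (.node .leaf (nat_lit 16321282702947804) (.br (nat_lit 2) (.cons (.br (nat_lit 4) (.cons (.rel (nat_lit 2281963524)) .nil)) .nil)) .leaf) (nat_lit 16321325673571231) (.br (nat_lit 4) (.cons (.br (nat_lit 5) (.cons (.rel (nat_lit 5369762052)) .nil)) .nil)) (.node .leaf (nat_lit 16321325673571804) (.br (nat_lit 0) (.cons (.br (nat_lit 5) (.cons (.rel (nat_lit 4300276737)) (.cons (.rel (nat_lit 4300215300)) .nil))) .nil)) .leaf)) (nat_lit 16321325674555573) (.br (nat_lit 2) (.cons (.br (nat_lit 5) (.cons (.rel (nat_lit 4362080388)) .nil)) .nil)) (.node (.node .leaf (nat_lit 16321328944515253) (.br (nat_lit 1) (.cons (.br (nat_lit 2) (.cons (.rel (nat_lit 83951760)) .nil)) .nil)) .leaf) (nat_lit 16321328944515999) (.br (nat_lit 3) (.cons (.br (nat_lit 4) (.cons (.rel (nat_lit 1610645760)) .nil)) .nil)) .leaf)))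

/-- refutations 128 -/
def e128 : EX := (.node (.node .leaf (nat_lit 16367402082128522) (.br (nat_lit 1) (.cons (.br (nat_lit 2) (.cons (.rel (nat_lit 84414480)) (.cons (.rel (nat_lit 84414480)) .nil))) .nil)) .leaf) (nat_lit 16367402082487202) (.br (nat_lit 0) (.cons (.br (nat_lit 1) (.cons (.rel (nat_lit 21537024)) .nil)) .nil)) (.node .leaf (nat_lit 16367487960810357) (.br (nat_lit 1) (.cons (.br (nat_lit 2) (.cons (.rel (nat_lit 83887488)) .nil)) .nil)) .leaf))

/-- refutations 129 -/
def e129 : EX := (.node (.node (.node .leaf (nat_lit 16372782007126203) (.br (nat_lit 2) (.cons (.br (nat_lit 4) (.cons (.rel (nat_lit 1142030340)) (.cons (.rel (nat_lit 2214596625)) .nil))) (.cons (.br (nat_lit 4) (.cons (.rel (nat_lit 2214592800)) (.cons (.rel (nat_lit 2214592800)) .nil))) .nil))) .leaf) (nat_lit 16372782007126652) (.br (nat_lit 3) (.cons (.br (nat_lit 1) (.cons (.rel (nat_lit 570687492)) (.cons (.rel (nat_lit 285474885)) .nil))) .nil)) .leaf) (nat_lit 16372782007126823) (.br (nat_lit 1)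 (.cons (.br (nat_lit 0) (.cons (.rel (nat_lit 23330817)) (.cons (.rel (nat_lit 37752864)) .nil))) .nil)) (.node (.node .leaf (nat_lit 16372782007126828) (.br (nat_lit 5) (.cons (.br (nat_lit 0) (.cons (.rel (nat_lit 4299182208)) (.cons (.rel (nat_lit 4303364097)) .nil))) .nil)) .leaf) (nat_lit 16372782007127516) (.br (nat_lit 3) (.cons (.br (nat_lit 0) (.cons (.rel (nat_lit 273686784)) (.cons (.rel (nat_lit 276828165)) .nil))) .nil)) .leaf))

/-- refutations 130 -/
def e130 : EX := (.node (.node .leaf (nat_lit 16290633837278110) (.br (nat_lit 0) (.cons (.br (nat_lit 1) (.cons (.rel (nat_lit 22022400)) .nil)) .nil)) .leaf) (nat_lit 16291458471939548) (.br (nat_lit 4) (.cons (.br (nat_lit 5) (.cons (.rel (nat_lit 5368727172)) .nil)) .nil)) (.node .leaf (nat_lit 16303681948912268) (.br (nat_lit 0) (.cons (.br (nat_lit 3) (.cons (.rel (nat_lit 541196289)) .nil)) .nil)) .leaf))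

/-- refutations 131 -/
def e131 : EX := (.node (.node (.node .leaf (nat_lit 16450930165689255) (.br (nat_lit 0) (.cons (.br (nat_lit 1) (.cons (.rel (nat_lit 42008640)) .nil)) .nil)) .leaf) (nat_lit 16455363013635548) (.br (nat_lit 2) (.cons (.br (nat_lit 3) (.cons (.rel (nat_lit 336613392)) .nil)) .nil)) (.node .leaf (nat_lit 16455363014238389) (.br (nat_lit 0) (.cons (.br (nat_lit 2) (.cons (.rel (nat_lit 72352020)) .nil)) .nil)) .leaf)) (nat_lit 16455363015505307) (.br (nat_lit 1) (.cons (.br (nat_lit 2) (.cons (.rel (nat_lit 84935712)) .nil)) .nil)) (.node (.node .leaf (nat_lit 16455448893289729) (.br (nat_lit 3) (.cons (.br (nat_lit 4) (.cons (.rel (nat_lit 1610613777)) .nil)) .nil)) .leaf) (nat_lit 16460731700807132) (.br (nat_lit 0) (.cons (.br (nat_lit 3) (.cons (.rel (nat_lit 276842496)) .nil)) .nil)) (.node .leaf (nat_lit 16460820221585444) (.br (nat_lit 1) (.cons (.br (nat_lit 2) (.cons (.rel (nat_lit 84427776)) .nil)) .nil)) .leaf)))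

/-- refutations 132 -/
def e132 : EX := (.node (.node .leaf (nat_lit 16484995591275433) (.br (nat_lit 0) (.cons (.br (nat_lit 1) (.cons (.rel (nat_lit 25174032)) .nil)) .nil)) .leaf) (nat_lit 16484995592678786) (.br (nat_lit 5) (.cons (.br (nat_lit 1) (.cons (.rel (nat_lit 8606713860)) (.cons (.rel (nat_lit 4313055360)) .nil))) .nil)) (.node .leaf (nat_lit 16485043967093493) (.br (nat_lit 0) (.cons (.br (nat_lit 5) (.cons (.rel (nat_lit 4299182208)) .nil)) .nil)) .leaf))

/-- refutations 133 -/
def e133 : EX := (.node (.node .leaf (nat_lit 16490547385034204) (.br (nat_lit 0) (.cons (.br (nat_lit 3) (.cons (.rel (nat_lit 276842496)) .nil)) .nil)) .leaf) (nat_lit 16490547385803689) (.br (nat_lit 1) (.cons (.br (nat_lit 5) (.cons (.rel (nat_lit 4328530176)) .nil)) .nil)) (.node .leaf (nat_lit 16490547386018444) (.br (nat_lit 1) (.cons (.br (nat_lit 2) (.cons (.rel (nat_lit 83887488)) .nil)) .nil)) .leaf))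

/-- refutations 134 -/
def e134 : EX := (.node (.node (.node (.node .leaf (nat_lit 16494842353314549) (.br (nat_lit 0) (.cons (.br (nat_lit 1) (.cons (.rel (nat_lit 22036497)) .nil)) .nil)) .leaf) (nat_lit 16495959043233024) (.br (nat_lit 0) (.cons (.br (nat_lit 3) (.cons (.rel (nat_lit 273679368)) .nil)) .nil)) (.node .leaf (nat_lit 16496004597865254) (.br (nat_lit 1) (.cons (.br (nat_lit 2) (.cons (.rel (nat_lit 167788881)) .nil)) .nil)) .leaf)) (nat_lit 16496004597867302) (.br (nat_lit 0) (.cons (.br (nat_lit 3) (.cons (.rel (nat_lit 276828165)) .nil)) .nil)) (.node (.node .leaf (nat_lit 16496182383110901) (.br (nat_lit 1) (.cons (.br (nat_lit 5) (.cons (.rel (nat_lit 4312334337)) .nil)) .nil)) .leaf) (nat_lit 16496185133251865) (.br (nat_lit 1) (.cons (.br (nat_lit 2) (.cons (.rel (nat_lit 100663305)) (.cons (.rel (nat_lit 84414480)) .nil))) .nil)) .leaf)) (nat_lit 16497247533923584) (.br (nat_lit 0) (.cons (.br (nat_lit 5) (.cons (.rel (nat_lit 4299428160)) .nil)) .nil)) (.node (.node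 (.node .leaf (nat_lit 16497247534015401) (.br (nat_lit 0) (.cons (.br (nat_lit 3) (.cons (.rel (nat_lit 541196289)) .nil)) .nil)) .leaf) (nat_lit 16497250264507868) (.br (nat_lit 1) (.cons (.br (nat_lit 4) (.cons (.rel (nat_lit 1091043330)) .nil)) .nil)) (.node .leaf (nat_lit 16497287346359772) (.br (nat_lit 5) (.cons (.br (nat_lit 2) (.cons (.rel (nat_lit 4362081426)) (.cons (.rel (nat_lit 4363157760)) .nil))) .nil)) .leaf)) (nat_lit 16497287786761129) (.br (nat_lit 0) (.cons (.br (nat_lit 4) (.cons (.rel (nat_lit 1078984740)) .nil)) .nil)) (.node (.node .leaf (nat_lit 16497287789079833) (.br (nat_lit 2) (.cons (.br (nat_lit 3) (.cons (.rel (nat_lit 671088708)) .nil)) .nil)) .leaf) (nat_lit 16497290504670121) (.br (nat_lit 0) (.cons (.br (nat_lit 1) (.cons (.rel (nat_lit 37752864)) .nil)) .nil)) .leaf)))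

/-- refutations 135 -/
def e135 : EX := (.node (.node (.node .leaf (nat_lit 22078420077807068) (.br (nat_lit 0) (.cons (.br (nat_lit 1) (.cons (.rel (nat_lit 25166337)) .nil)) .nil)) .leaf) (nat_lit 22080565483959179) (.br (nat_lit 1) (.cons (.br (nat_lit 3) (.cons (.rel (nat_lit 553654272)) .nil)) .nil)) .leaf) (nat_lit 22080876817200604) (.br (nat_lit 2) (.cons (.br (nat_lit 4) (.cons (.rel (nat_lit 2281963524)) .nil)) .nil)) (.node .leaf (nat_lit 22085979783607772) (.br (nat_lit 0) (.cons (.br (nat_lit 1) (.cons (.rel (nat_lit 21241920)) .nil)) .nil)) .leaf))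

/-- refutations 136 -/
def e136 : EX := (.node (.node (.node (.node (.node .leaf (nat_lit 22089158059672807) (.br (nat_lit 0) (.cons (.br (nat_lit 2) (.cons (.rel (nat_lit 142872576)) .nil)) .nil)) .leaf) (nat_lit 22089159611565287) (.br (nat_lit 0) (.cons (.br (nat_lit 1) (.cons (.rel (nat_lit 21041286)) .nil)) .nil)) .leaf) (nat_lit 22090231801251292) (.br (nat_lit 0) (.cons (.br (nat_lit 1) (.cons (.rel (nat_lit 22086672)) (.cons (.rel (nat_lit 22024200)) .nil))) (.cons (.br (nat_lit 1) (.cons (.rel (nat_lit 22085637)) (.cons (.rel (nat_lit 21254229)) .nil))) .nil))) (.node .leaf (nat_lit 22090274205644252) (.br (nat_lit 5) (.cons (.br (nat_lit 1) (.cons (.rel (nat_lit 4328522760)) (.cons (.rel (nat_lit 4312334337)) (.cons (.rel (nat_lit 4311744921)) .nil)))) .nil)) .leaf)) (nat_lit 22090276848055772) (.br (nat_lit 0) (.cons (.br (nat_lit 3) (.cons (.rel (nat_lit 541196289)) (.cons (.rel (nat_lit 276828165)) .nil))) (.cons (.br (nat_lit 3) (.cons (.rel (nat_lit 276828165)) (.cons (.rel (nat_lit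 541196289)) .nil))) .nil))) (.node (.node .leaf (nat_lit 22090316652010972) (.br (nat_lit 0) (.cons (.br (nat_lit 1) (.cons (.rel (nat_lit 21241920)) .nil)) .nil)) .leaf) (nat_lit 22090317158187189) (.br (nat_lit 5) (.cons (.br (nat_lit 0) (.cons (.rel (nat_lit 4303486980)) (.cons (.rel (nat_lit 8594132994)) .nil))) .nil)) (.node .leaf (nat_lit 22091351116727527) (.br (nat_lit 0) (.cons (.br (nat_lit 1) (.cons (.rel (nat_lit 22022400)) .nil)) .nil)) .leaf))) (nat_lit 22091388254995932) (.br (nat_lit 3) (.cons (.br (nat_lit 5) (.cons (.rel (nat_lit 4564533249)) .nil)) .nil)) (.node (.node (.node (.node .leaf (nat_lit 22091388255040988) (.br (nat_lit 0) (.cons (.br (nat_lit 1) (.cons (.rel (nat_lit 22024200)) .nil)) .nil)) .leaf) (nat_lit 22091390897140967) (.br (nat_lit 0) (.cons (.br (nat_lit 5) (.cons (.rel (nat_lit 4299182208)) .nil)) .nil)) .leaf) (nat_lit 22091390897451184) (.br (nat_lit 1) (.cons (.br (nat_lit 2) (.cons (.rel (nat_lit 84427776)) .nil)) .nil)) (.node .leaf (nat_lit 22091394022163932)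 (.br (nat_lit 0) (.cons (.br (nat_lit 2) (.cons (.rel (nat_lit 142872576)) .nil)) .nil)) .leaf)) (nat_lit 22091565967696183) (.br (nat_lit 1) (.cons (.br (nat_lit 4) (.cons (.rel (nat_lit 1090520208)) (.cons (.rel (nat_lit 2164278276)) .nil))) .nil)) (.node (.node .leaf (nat_lit 22091565967697372) (.br (nat_lit 3) (.cons (.br (nat_lit 4) (.cons (.rel (nat_lit 2415936000)) .nil)) .nil)) .leaf) (nat_lit 22091565967701223) (.br (nat_lit 0) (.cons (.br (nat_lit 4) (.cons (.rel (nat_lit 1078461720)) (.cons (.rel (nat_lit 1078476804)) .nil))) .nil)) (.node .leaf (nat_lit 22091565968362979) (.br (nat_lit 1) (.cons (.br (nat_lit 2) (.cons (.rel (nat_lit 85463616)) .nil)) .nil)) .leaf))))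

/-- refutations 138 -/
def e138 : EX := (.node .leaf (nat_lit 16468658135790869) (.br (nat_lit 1) (.cons (.br (nat_lit 2) (.cons (.rel (nat_lit 84414480)) .nil)) .nil)) .leaf)

/-- refutations 139 -/
def e139 : EX := (.node (.node .leaf (nat_lit 22107830048066973) (.br (nat_lit 0) (.cons (.br (nat_lit 2) (.cons (.rel (nat_lit 72355845)) .nil)) .nil)) .leaf) (nat_lit 22107832031972828) (.br (nat_lit 1) (.cons (.br (nat_lit 2) (.cons (.rel (nat_lit 84934677)) .nil)) .nil)) .leaf)

/-- refutations 140 -/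
def e140 : EX := (.node (.node .leaf (nat_lit 22519121226203897) (.br (nat_lit 0) (.cons (.br (nat_lit 2) (.cons (.rel (nat_lit 142872576)) .nil)) .nil)) .leaf) (nat_lit 22519121226203922) (.br (nat_lit 0) (.cons (.br (nat_lit 1) (.cons (.rel (nat_lit 21102720)) .nil)) .nil)) (.node .leaf (nat_lit 22519121226203947) (.br (nat_lit 3) (.cons (.br (nat_lit 5) (.cons (.rel (nat_lit 4831854609)) .nil)) .nil)) .leaf))

/-- refutations 141 -/
def e141 : EX := (.node (.node (.node (.node .leaf (nat_lit 22528744279266780) (.br (nat_lit 6) (.cons (.br (nat_lit 0) (.cons (.rel (nat_lit 17188323840)) (.cons (.rel (nat_lit 17185116432)) .nil))) .nil)) .leaf) (nat_lit 22528748025087232) (.br (nat_lit 2) (.cons (.br (nat_lit 6) (.cons (.rel (nat_lit 17247535104)) .nil)) .nil)) .leaf) (nat_lit 22528787207946517) (.br (nat_lit 2) (.cons (.br (nat_lit 3) (.cons (.rel (nat_lit 336068613)) .nil)) .nil)) (.node (.node .leaf (nat_lit 22528787207947121) (.br (nat_lit 0) (.cons (.br (nat_lit 3) (.cons (.rel (nat_lit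 272646276)) (.cons (.rel (nat_lit 273686784)) .nil))) (.cons (.br (nat_lit 3) (.cons (.rel (nat_lit 273170433)) (.cons (.rel (nat_lit 272630145)) .nil))) .nil))) .leaf) (nat_lit 22528787207947740) (.br (nat_lit 6) (.cons (.br (nat_lit 5) (.cons (.rel (nat_lit 38654726145)) (.cons (.rel (nat_lit 21474844800)) .nil))) .nil)) .leaf)) (nat_lit 22528790996038912) (.br (nat_lit 2) (.cons (.br (nat_lit 6) (.cons (.rel (nat_lit 17247273033)) .nil)) .nil)) (.node (.node (.node .leaf (nat_lit 22528790998295808) (.br (nat_lit 0) (.cons (.br (nat_lit 2) (.cons (.rel (nat_lit 142872576)) .nil)) .nil)) .leaf) (nat_lit 22530035927756032) (.br (nat_lit 3) (.cons (.br (nat_lit 4) (.cons (.rel (nat_lit 1343230980)) .nil)) .nil)) .leaf) (nat_lit 22531410317290752) (.br (nat_lit 3) (.cons (.br (nat_lit 5) (.cons (.rel (nat_lit 9126805584)) .nil)) .nil)) (.node .leaf (nat_lit 22531412268256732) (.br (nat_lit 0) (.cons (.br (nat_lit 3) (.cons (.rel (nat_lit 276889602)) .nil)) .nil)) .leaf)))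

/-- refutations 142 -/
def e142 : EX := (.node (.node .leaf (nat_lit 22611330427006213) (.br (nat_lit 0) (.cons (.br (nat_lit 2) (.cons (.rel (nat_lit 75628560)) .nil)) .nil)) .leaf) (nat_lit 22611331050337756) (.br (nat_lit 0) (.cons (.br (nat_lit 2) (.cons (.rel (nat_lit 138417153)) .nil)) .nil)) .leaf)

/-- refutations 143 -/
def e143 : EX := (.node (.node (.node (.node .leaf (nat_lit 22613967536925957) (.br (nat_lit 0) (.cons (.br (nat_lit 1) (.cons (.rel (nat_lit 37815300)) .nil)) .nil)) .leaf) (nat_lit 22616705230459011) (.br (nat_lit 0) (.cons (.br (nat_lit 4) (.cons (.rel (nat_lit 1078476804)) .nil)) .nil)) (.node .leaf (nat_lit 22616707699570864) (.br (nat_lit 0) (.cons (.br (nat_lit 2) (.cons (.rel (nat_lit 142872576)) .nil)) .nil)) .leaf)) (nat_lit 22616708955002332) (.br (nat_lit 2) (.cons (.br (nat_lit 3) (.cons (.rel (nat_lit 336660744)) .nil)) .nil)) (.node (.node .leaf (nat_lit 22616710548837852) (.br (nat_lit 0) (.cons (.br (nat_lit 3) (.cons (.rel (nat_lit 273170433)) .nil))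 .nil)) .leaf) (nat_lit 22616791087852805) (.br (nat_lit 6) (.cons (.br (nat_lit 0) (.cons (.rel (nat_lit 17184063618)) (.cons (.rel (nat_lit 17184587784)) .nil))) .nil)) .leaf)) (nat_lit 22616791087853020) (.br (nat_lit 0) (.cons (.br (nat_lit 6) (.cons (.rel (nat_lit 17184326736)) .nil)) .nil)) (.node (.node (.node .leaf (nat_lit 22616793625406725) (.br (nat_lit 0) (.cons (.br (nat_lit 2) (.cons (.rel (nat_lit 138428424)) .nil)) .nil)) .leaf) (nat_lit 22616793625406940) (.br (nat_lit 2) (.cons (.br (nat_lit 3) (.cons (.rel (nat_lit 671088708)) .nil)) .nil)) (.node .leaf (nat_lit 22616794896281052) (.br (nat_lit 4) (.cons (.br (nat_lit 6) (.cons (.rel (nat_lit 35433481488)) (.cons (.rel (nat_lit 18254676480)) .nil))) .nil)) .leaf)) (nat_lit 22618039766004997) (.br (nat_lit 3) (.cons (.br (nat_lit 5) (.cons (.rel (nat_lit 4564471812)) .nil)) .nil)) (.node (.node .leaf (nat_lit 22618039766005212) (.br (nat_lit 3) (.cons (.br (nat_lit 4) (.cons (.rel (nat_lit 1342197888)) .nil)) .nil)) .leaf) (nat_lit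 22619285309094149) (.br (nat_lit 1) (.cons (.br (nat_lit 4) (.cons (.rel (nat_lit 1107366912)) .nil)) .nil)) .leaf)))

/-- refutations 144 -/
def e144 : EX := (.node (.node .leaf (nat_lit 22641370028367324) (.br (nat_lit 1) (.cons (.br (nat_lit 4) (.cons (.rel (nat_lit 1090519173)) .nil)) .nil)) .leaf) (nat_lit 22643723066465543) (.br (nat_lit 0) (.cons (.br (nat_lit 1) (.cons (.rel (nat_lit 21102720)) .nil)) .nil)) .leaf)

/-- refutations 145 -/
def e145 : EX := (.node (.node (.node (.node .leaf (nat_lit 22646574945406359) (.br (nat_lit 0) (.cons (.br (nat_lit 1) (.cons (.rel (nat_lit 42008640)) .nil)) .nil)) .leaf) (nat_lit 22646574945721820) (.br (nat_lit 0) (.cons (.br (nat_lit 1) (.cons (.br (nat_lit 2) (.cons (.rel (nat_lit 100663305)) .nil)) .nil)) .nil)) (.node .leaf (nat_lit 22646574945977820) (.br (nat_lit 1) (.cons (.br (nat_lit 2) (.cons (.rel (nat_lit 84971520)) .nil)) .nil)) .leaf)) (nat_lit 22646574946033116) (.br (nat_lit 1) (.cons (.br (nat_lit 4) (.cons (.rel (nat_lit 2164326417))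 .nil)) .nil)) (.node (.node .leaf (nat_lit 22646576208207324) (.br (nat_lit 0) (.cons (.br (nat_lit 1) (.cons (.br (nat_lit 4) (.cons (.rel (nat_lit 2164326417)) .nil)) .nil)) .nil)) .leaf) (nat_lit 22646576208216870) (.br (nat_lit 0) (.cons (.br (nat_lit 1) (.cons (.rel (nat_lit 37752864)) .nil)) .nil)) .leaf)) (nat_lit 22646576208518620) (.br (nat_lit 1) (.cons (.br (nat_lit 4) (.cons (.rel (nat_lit 2164326417)) .nil)) .nil)) (.node (.node (.node .leaf (nat_lit 22647801691559997) (.br (nat_lit 0) (.cons (.br (nat_lit 1) (.cons (.rel (nat_lit 37765125)) .nil)) .nil)) .leaf) (nat_lit 22647852828712199) (.br (nat_lit 0) (.cons (.br (nat_lit 1) (.cons (.rel (nat_lit 21241920)) .nil)) .nil)) .leaf) (nat_lit 22647854845976028) (.br (nat_lit 0) (.cons (.br (nat_lit 4) (.cons (.rel (nat_lit 1078476804)) .nil)) .nil)) (.node (.node .leaf (nat_lit 22647854846287324) (.br (nat_lit 1) (.cons (.br (nat_lit 2) (.cons (.rel (nat_lit 100663305)) .nil)) .nil)) .leaf) (nat_lit 22647855473704323) (.br (nat_lit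 1) (.cons (.br (nat_lit 3) (.cons (.rel (nat_lit 285474885)) .nil)) .nil)) .leaf)))

/-- refutations 146 -/
def e146 : EX := (.node (.node (.node .leaf (nat_lit 22649136008400135) (.br (nat_lit 1) (.cons (.br (nat_lit 2) (.cons (.rel (nat_lit 100680192)) .nil)) .nil)) .leaf) (nat_lit 22649136008715740) (.br (nat_lit 1) (.cons (.br (nat_lit 5) (.cons (.rel (nat_lit 4328522760)) .nil)) .nil)) (.node .leaf (nat_lit 22649136009016796) (.br (nat_lit 0) (.cons (.br (nat_lit 1) (.cons (.rel (nat_lit 25187328)) .nil)) .nil)) .leaf)) (nat_lit 22649136009026342) (.br (nat_lit 1) (.cons (.br (nat_lit 2) (.cons (.rel (nat_lit 83951760)) .nil)) .nil)) (.node (.node .leaf (nat_lit 22649136011340087) (.br (nat_lit 0) (.cons (.br (nat_lit 1) (.cons (.rel (nat_lit 21102720)) .nil)) .nil)) .leaf) (nat_lit 22649178916130199) (.br (nat_lit 1) (.cons (.br (nat_lit 4) (.cons (.rel (nat_lit 2181300225)) .nil)) .nil)) (.node .leaf (nat_lit 22649178916756956) (.br (nat_lit 1) (.cons (.br (nat_lit 4) (.cons (.rel (nat_lit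 2164278276)) .nil)) .nil)) .leaf)))

/-- refutations 147 -/
def e147 : EX := (.node (.node .leaf (nat_lit 22653181230384604) (.br (nat_lit 1) (.cons (.br (nat_lit 4) (.cons (.rel (nat_lit 1090520208)) .nil)) .nil)) .leaf) (nat_lit 22653264889960509) (.br (nat_lit 0) (.cons (.br (nat_lit 1) (.cons (.rel (nat_lit 22024200)) (.cons (.rel (nat_lit 26282049)) (.cons (.rel (nat_lit 22036497)) .nil)))) .nil)) (.node .leaf (nat_lit 22653267746282972) (.br (nat_lit 0) (.cons (.br (nat_lit 5) (.cons (.rel (nat_lit 4299505728)) .nil)) .nil)) .leaf))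

/-- refutations 149 -/
def e149 : EX := (.node (.node (.node (.node .leaf (nat_lit 22869939619165460) (.br (nat_lit 0) (.cons (.br (nat_lit 1) (.cons (.rel (nat_lit 42008640)) .nil)) .nil)) .leaf) (nat_lit 22869940060835092) (.br (nat_lit 2) (.cons (.br (nat_lit 3) (.cons (.rel (nat_lit 402673665)) .nil)) .nil)) .leaf) (nat_lit 22871236699063772) (.br (nat_lit 0) (.cons (.br (nat_lit 1) (.cons (.rel (nat_lit 21004452)) .nil)) .nil)) (.node .leaf (nat_lit 22871236700302812) (.br (nat_lit 0) (.cons (.br (nat_lit 1) (.cons (.rel (nat_lit 22022400)) (.cons (.rel (nat_lit 22036497)) (.cons (.rel (nat_lit 21102720)) .nil)))) .nil)) .leaf)) (nat_lit 22871239430794716) (.br (nat_lit 0) (.cons (.br (nat_lit 1) (.cons (.rel (nat_lit 22022400)) (.cons (.rel (nat_lit 37766160)) .nil))) (.cons (.br (nat_lit 6) (.cons (.rel (nat_lit 17184325701)) (.cons (.rel (nat_lit 17184063618)) .nil))) .nil))) (.node (.node .leaf (nat_lit 22871239849250068) (.br (nat_lit 0) (.cons (.br (nat_lit 2) (.cons (.rel (nat_lit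 71835648)) .nil)) .nil)) .leaf) (nat_lit 22871239850225116) (.br (nat_lit 0) (.cons (.br (nat_lit 2) (.cons (.rel (nat_lit 72355845)) (.cons (.rel (nat_lit 138477600)) (.cons (.rel (nat_lit 142872576)) .nil)))) (.cons (.br (nat_lit 3) (.cons (.rel (nat_lit 273679368)) (.cons (.rel (nat_lit 541099008)) (.cons (.rel (nat_lit 276829200)) .nil)))) .nil))) (.node .leaf (nat_lit 22876508180297180) (.br (nat_lit 0) (.cons (.br (nat_lit 2) (.cons (.rel (nat_lit 142872576)) .nil)) .nil)) .leaf)))

/-- refutations 150 -/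
def e150 : EX := (.node (.node (.node .leaf (nat_lit 22880805383157012) (.br (nat_lit 3) (.cons (.br (nat_lit 2) (.cons (.rel (nat_lit 603983892)) (.cons (.rel (nat_lit 603997188)) .nil))) .nil)) .leaf) (nat_lit 22880805886473492) (.br (nat_lit 2) (.cons (.br (nat_lit 5) (.cons (.rel (nat_lit 4362080388)) .nil)) .nil)) (.node .leaf (nat_lit 22881662140693980) (.br (nat_lit 5) (.cons (.br (nat_lit 2) (.cons (.rel (nat_lit 4363258113)) (.cons (.rel (nat_lit 8657043480)) .nil))) .nil)) .leaf)) (nat_lit 22881667396156892) (.br (nat_lit 1) (.cons (.br (nat_lit 3) (.cons (.rel (nat_lit 553654272)) .nil)) .nil)) (.node (.node .leaf (nat_lit 22881965615406556) (.br (nat_lit 1) (.cons (.br (nat_lit 4) (.cons (.rel (nat_lit 2164266018)) .nil)) .nil)) .leaf) (nat_lit 22883165379605740) (.br (nat_lit 2) (.cons (.br (nat_lit 3) (.cons (.rel (nat_lit 336068613)) .nil)) .nil)) (.node .leaf (nat_lit 22883165379605980) (.br (nat_lit 5) (.cons (.br (nat_lit 2) (.cons (.rel (nat_lit 4363198464)) (.cons (.rel (nat_lit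 4363124742)) .nil))) .nil)) .leaf)))

/-- refutations 151 -/
def e151 : EX := (.node .leaf (nat_lit 22883254038793692) (.br (nat_lit 3) (.cons (.br (nat_lit 1) (.cons (.rel (nat_lit 301994244)) (.cons (.rel (nat_lit 301999104)) .nil))) .nil)) .leaf)

/-- refutations 152 -/
def e152 : EX := (.node (.node (.node .leaf (nat_lit 22195784351286748) (.br (nat_lit 2) (.cons (.br (nat_lit 3) (.cons (.rel (nat_lit 671088708)) .nil)) .nil)) .leaf) (nat_lit 22195790223314396) (.br (nat_lit 0) (.cons (.br (nat_lit 4) (.cons (.rel (nat_lit 1082134536)) .nil)) .nil)) .leaf) (nat_lit 22195796112117212) (.br (nat_lit 0) (.cons (.br (nat_lit 1) (.cons (.rel (nat_lit 21102720)) (.cons (.rel (nat_lit 21102720)) .nil))) .nil)) (.node .leaf (nat_lit 22197084707470812) (.br (nat_lit 4) (.cons (.br (nat_lit 5) (.cons (.rel (nat_lit 5368972356)) .nil)) .nil)) .leaf))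

/-- refutations 153 -/
def e153 : EX := (.node .leaf (nat_lit 22963698315788464) (.br (nat_lit 1) (.cons (.br (nat_lit 3) (.cons (.rel (nat_lit 302022672)) .nil)) .nil)) .leaf)

/-- refutations 154 -/
def e154 : EX := (.node (.node .leaf (nat_lit 22964514819421660) (.br (nat_lit 1) (.cons (.br (nat_lit 3) (.cons (.rel (nat_lit 285212802)) .nil)) .nil)) .leaf) (nat_lit 22971175269917482) (.br (nat_lit 0) (.cons (.br (nat_lit 1) (.cons (.rel (nat_lit 39060480)) .nil)) .nil)) .leaf)

/-- refutations 156 -/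
def e156 : EX := (.node (.node .leaf (nat_lit 23047144505636316) (.br (nat_lit 0) (.cons (.br (nat_lit 5) (.cons (.rel (nat_lit 4300226562)) .nil)) .nil)) .leaf) (nat_lit 23047161689697756) (.br (nat_lit 0) (.cons (.br (nat_lit 2) (.cons (.rel (nat_lit 142610505)) .nil)) .nil)) (.node .leaf (nat_lit 23048343951732917) (.br (nat_lit 1) (.cons (.br (nat_lit 2) (.cons (.rel (nat_lit 100680192)) .nil)) .nil)) .leaf))

/-- refutations 157 -/
def e157 : EX := (.node (.node .leaf (nat_lit 23059132928582942) (.br (nat_lit 2) (.cons (.br (nat_lit 4) (.cons (.rel (nat_lit 1140850818)) .nil)) .nil)) .leaf) (nat_lit 23059132928583132) (.br (nat_lit 2) (.cons (.br (nat_lit 4) (.cons (.rel (nat_lit 2214660096)) .nil)) .nil)) (.node .leaf (nat_lit 23059132929568220) (.br (nat_lit 2) (.cons (.br (nat_lit 5) (.cons (.rel (nat_lit 8657043480)) .nil)) .nil)) .leaf))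

/-- refutations 158 -/
def e158 : EX := (.node (.node .leaf (nat_lit 22905026985329401) (.br (nat_lit 0) (.cons (.br (nat_lit 1) (.cons (.rel (nat_lit 25182468)) .nil)) .nil)) .leaf) (nat_lit 22906100202352942) (.br (nat_lit 0) (.cons (.br (nat_lit 1) (.cons (.rel (nat_lit 37748994)) .nil)) .nil)) .leaf)

/-- refutations 159 -/
def e159 : EX := (.node (.node (.node (.node .leaf (nat_lit 23064736695873698) (.br (nat_lit 3) (.cons (.br (nat_lit 4) (.cons (.rel (nat_lit 1342197888)) .nil)) .nil)) .leaf) (nat_lit 23064736695874173) (.br (nat_lit 0) (.cons (.br (nat_lit 2) (.cons (.rel (nat_lit 72355845)) .nil)) .nil)) .leaf) (nat_lit 23064736695874343) (.br (nat_lit 0) (.cons (.br (nat_lit 4) (.cons (.rel (nat_lit 2151743760)) .nil)) .nil)) (.node (.node .leaf (nat_lit 23071351077111260) (.br (nat_lit 1) (.cons (.br (nat_lit 3) (.cons (.rel (nat_lit 553654272)) .nil)) .nil)) .leaf) (nat_lit 23074319389689119) (.br (nat_lit 4) (.cons (.br (nat_lit 6) (.cons (.rel (nat_lit 19327385604)) .nil)) .nil))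 .leaf)) (nat_lit 23075396295919068) (.br (nat_lit 1) (.cons (.br (nat_lit 3) (.cons (.rel (nat_lit 570425409)) .nil)) .nil)) (.node (.node (.node .leaf (nat_lit 23075396297433343) (.br (nat_lit 3) (.cons (.br (nat_lit 6) (.cons (.rel (nat_lit 17449354257)) .nil)) .nil)) .leaf) (nat_lit 23075396297434399) (.br (nat_lit 3) (.cons (.br (nat_lit 5) (.cons (.rel (nat_lit 4563402912)) .nil)) .nil)) .leaf) (nat_lit 23076260714906911) (.br (nat_lit 1) (.cons (.br (nat_lit 3) (.cons (.rel (nat_lit 553664544)) .nil)) .nil)) (.node .leaf (nat_lit 23076694009690373) (.br (nat_lit 3) (.cons (.br (nat_lit 1) (.cons (.rel (nat_lit 302022672)) (.cons (.rel (nat_lit 570425409)) .nil))) .nil)) .leaf)))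

/-- refutations 161 -/
def e161 : EX := (.node (.node (.node (.node .leaf (nat_lit 24287976607473116) (.br (nat_lit 2) (.cons (.br (nat_lit 5) (.cons (.rel (nat_lit 4429186050)) .nil)) .nil)) .leaf) (nat_lit 24288049223444661) (.br (nat_lit 0) (.cons (.br (nat_lit 2) (.cons (.rel (nat_lit 71372928)) .nil)) .nil)) .leaf) (nat_lit 24288059986031229) (.br (nat_lit 0) (.cons (.br (nat_lit 1) (.cons (.rel (nat_lit 22024200)) .nil)) .nil)) (.node (.node .leaf (nat_lit 24289340914195932) (.br (nat_lit 0) (.cons (.br (nat_lit 2) (.cons (.rel (nat_lit 138417153)) .nil)) .nil)) .leaf) (nat_lit 24289340917055669) (.br (nat_lit 2) (.cons (.br (nat_lit 5) (.cons (.rel (nat_lit 4362080388)) (.cons (.rel (nat_lit 4429185060)) .nil))) .nil)) .leaf)) (nat_lit 24289343011347932) (.br (nat_lit 0) (.cons (.br (nat_lit 1) (.cons (.rel (nat_lit 21565440)) (.cons (.rel (nat_lit 37748994)) (.cons (.rel (nat_lit 21241920)) .nil)))) .nil)) (.node (.node (.node .leaf (nat_lit 24289343012937909) (.br (nat_lit 1) (.cons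 (.br (nat_lit 3) (.cons (.rel (nat_lit 570687492)) .nil)) .nil)) .leaf) (nat_lit 24289343014207669) (.br (nat_lit 4) (.cons (.br (nat_lit 1) (.cons (.rel (nat_lit 2164278276)) (.cons (.br (nat_lit 2) (.cons (.rel (nat_lit 1142030340)) (.cons (.rel (nat_lit 83887488)) .nil))) .nil))) .nil)) .leaf) (nat_lit 24290414700310709) (.br (nat_lit 0) (.cons (.br (nat_lit 1) (.cons (.rel (nat_lit 22024200)) .nil)) .nil)) (.node .leaf (nat_lit 24290416150432406) (.br (nat_lit 2) (.cons (.br (nat_lit 3) (.cons (.rel (nat_lit 603983892)) .nil)) .nil)) .leaf)))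

/-- refutations 164 -/
def e164 : EX := (.node (.node (.node .leaf (nat_lit 24631312079465848) (.br (nat_lit 0) (.cons (.br (nat_lit 3) (.cons (.rel (nat_lit 276842496)) .nil)) .nil)) .leaf) (nat_lit 24631316295960028) (.br (nat_lit 1) (.cons (.br (nat_lit 3) (.cons (.rel (nat_lit 285736968)) .nil)) .nil)) (.node .leaf (nat_lit 24631317446548856) (.br (nat_lit 0) (.cons (.br (nat_lit 1) (.cons (.rel (nat_lit 37752864)) .nil)) .nil)) .leaf)) (nat_lit 24635548633625831) (.br (nat_lit 2) (.cons (.br (nat_lit 3) (.cons (.rel (nat_lit 402673665)) .nil)) .nil)) (.node (.node .leaf (nat_lit 24635772494256934) (.br (nat_lit 1) (.cons (.br (nat_lit 5) (.cons (.rel (nat_lit 4328530176)) .nil)) .nil)) .leaf) (nat_lit 24635772495168394) (.br (nat_lit 0) (.cons (.br (nat_lit 1) (.cons (.rel (nat_lit 22022400)) .nil)) .nil)) (.node .leaf (nat_lit 24635772495546544) (.br (nat_lit 1) (.cons (.br (nat_lit 4) (.cons (.rel (nat_lit 1091633424)) .nil)) .nil)) .leaf)))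

/-- refutations 165 -/
def e165 : EX := (.node (.node (.node (.node .leaf (nat_lit 24639850099508700) (.br (nat_lit 3) (.cons (.br (nat_lit 5) (.cons (.rel (nat_lit 8858371584)) .nil)) .nil)) .leaf) (nat_lit 24639854705171867) (.br (nat_lit 0) (.cons (.br (nat_lit 1) (.cons (.rel (nat_lit 25182468)) .nil)) .nil)) .leaf) (nat_lit 24639892483227000) (.br (nat_lit 1) (.cons (.br (nat_lit 2) (.cons (.rel (nat_lit 100798464)) .nil)) .nil)) (.node (.node .leaf (nat_lit 24640021332245880) (.br (nat_lit 3) (.cons (.br (nat_lit 1) (.cons (.rel (nat_lit 570687492)) (.cons (.rel (nat_lit 570425409)) (.cons (.rel (nat_lit 553649412)) (.cons (.rel (nat_lit 553649412)) .nil))))) .nil)) .leaf) (nat_lit 24640023987281372) (.br (nat_lit 0) (.cons (.br (nat_lit 2) (.cons (.rel (nat_lit 75530244)) .nil)) .nil)) .leaf)) (nat_lit 24640880325705180) (.br (nat_lit 1) (.cons (.br (nat_lit 5) (.cons (.rel (nat_lit 8606713860)) (.cons (.rel (nat_lit 4312272900)) .nil))) (.cons (.br (nat_lit 6) (.cons (.rel (nat_lit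 17196647040)) (.cons (.rel (nat_lit 17196647040)) .nil))) .nil))) (.node (.node (.node .leaf (nat_lit 24640880326063480) (.br (nat_lit 5) (.cons (.br (nat_lit 6) (.cons (.rel (nat_lit 21475385856)) .nil)) .nil)) .leaf) (nat_lit 24640883046280453) (.br (nat_lit 0) (.cons (.br (nat_lit 3) (.cons (.rel (nat_lit 276842496)) .nil)) .nil)) .leaf) (nat_lit 24642389475140984) (.br (nat_lit 2) (.cons (.br (nat_lit 4) (.cons (.rel (nat_lit 1207980036)) .nil)) .nil)) (.node .leaf (nat_lit 24642472643235292) (.br (nat_lit 1) (.cons (.br (nat_lit 3) (.cons (.rel (nat_lit 301999104)) .nil)) .nil)) .leaf)))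

/-- refutations 166 -/
def e166 : EX := (.node (.node (.node .leaf (nat_lit 24717038597769878) (.br (nat_lit 0) (.cons (.br (nat_lit 2) (.cons (.rel (nat_lit 75514113)) .nil)) .nil)) .leaf) (nat_lit 24718416780226012) (.br (nat_lit 0) (.cons (.br (nat_lit 6) (.cons (.rel (nat_lit 17188323840)) .nil)) .nil)) .leaf) (nat_lit 24718418965458396) (.br (nat_lit 2) (.cons (.br (nat_lit 1) (.cons (.rel (nat_lit 83951760)) (.cons (.rel (nat_lit 100663305)) .nil))) .nil)) (.node (.node .leaf (nat_lit 24724627304421507) (.br (nat_lit 0) (.cons (.br (nat_lit 2) (.cons (.rel (nat_lit 75514113)) .nil)) .nil)) .leaf) (nat_lit 24724627304422183) (.br (nat_lit 0) (.cons (.br (nat_lit 3) (.cons (.rel (nat_lit 272897088)) .nil)) .nil)) .leaf))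

/-- refutations 167 -/
def e167 : EX := (.node (.node .leaf (nat_lit 24727768059106780) (.br (nat_lit 3) (.cons (.br (nat_lit 5) (.cons (.rel (nat_lit 9126805584)) .nil)) .nil)) .leaf) (nat_lit 24730393874359772) (.br (nat_lit 3) (.cons (.br (nat_lit 4) (.cons (.rel (nat_lit 1610612742)) .nil)) .nil)) .leaf)

/-- refutations 169 -/
def e169 : EX := (.node (.node .leaf (nat_lit 24806361956643627) (.br (nat_lit 0) (.cons (.br (nat_lit 5) (.cons (.rel (nat_lit 4303360272)) (.cons (.rel (nat_lit 4303360272)) (.cons (.rel (nat_lit 8594132994)) .nil)))) (.cons (.br (nat_lit 5) (.cons (.rel (nat_lit 8594129169)) (.cons (.rel (nat_lit 8594145300)) (.cons (.rel (nat_lit 8594129169)) .nil)))) .nil))) .leaf) (nat_lit 24810877849189762) (.br (nat_lit 0) (.cons (.br (nat_lit 1) (.cons (.rel (nat_lit 37765125)) .nil)) .nil)) (.node .leaf (nat_lit 24810877849541244) (.br (nat_lit 0) (.cons (.br (nat_lit 1) (.cons (.rel (nat_lit 42008640)) .nil)) .nil)) .leaf))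

/-- refutations 170 -/
def e170 : EX := (.node (.node .leaf (nat_lit 24815814867691557) (.br (nat_lit 5) (.cons (.br (nat_lit 4) (.cons (.rel (nat_lit 5368972356)) (.cons (.rel (nat_lit 9663807489)) .nil))) .nil)) .leaf) (nat_lit 24816805784862172) (.br (nat_lit 0) (.cons (.br (nat_lit 1) (.cons (.rel (nat_lit 22085637)) .nil)) .nil)) .leaf)

/-- refutations 174 -/
def e174 : EX := (.node (.node (.node (.node (.node .leaf (nat_lit 25167660593755542) (.br (nat_lit 0) (.cons (.br (nat_lit 2) (.cons (.rel (nat_lit 138428424)) .nil)) .nil)) .leaf) (nat_lit 25168903638674919) (.br (nat_lit 2) (.cons (.br (nat_lit 3) (.cons (.rel (nat_lit 336723969)) .nil)) .nil)) .leaf) (nat_lit 25168903638988182) (.br (nat_lit 0) (.cons (.br (nat_lit 2) (.cons (.rel (nat_lit 71372928)) .nil)) .nil)) (.node .leaf (nat_lit 25168906742445317) (.br (nat_lit 2) (.cons (.br (nat_lit 5) (.cons (.rel (nat_lit 8724546576)) .nil)) .nil)) .leaf)) (nat_lit 25168906742773142) (.br (nat_lit 2) (.cons (.br (nat_lit 3) (.cons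 (.rel (nat_lit 335544456)) (.cons (.rel (nat_lit 603983892)) .nil))) .nil)) (.node (.node (.node .leaf (nat_lit 25168946596731012) (.br (nat_lit 0) (.cons (.br (nat_lit 2) (.cons (.rel (nat_lit 72370176)) .nil)) .nil)) .leaf) (nat_lit 25168946596731692) (.br (nat_lit 0) (.cons (.br (nat_lit 6) (.cons (.rel (nat_lit 17184137352)) .nil)) .nil)) .leaf) (nat_lit 25168946596732380) (.br (nat_lit 0) (.cons (.br (nat_lit 4) (.cons (.rel (nat_lit 1078985730)) .nil)) .nil)) (.node .leaf (nat_lit 25168950349216395) (.br (nat_lit 0) (.cons (.br (nat_lit 2) (.cons (.rel (nat_lit 72356880)) .nil)) .nil)) .leaf))) (nat_lit 25170150110638742) (.br (nat_lit 0) (.cons (.br (nat_lit 2) (.cons (.rel (nat_lit 72355845)) .nil)) .nil)) (.node (.node (.node (.node .leaf (nat_lit 25170150110638892) (.br (nat_lit 4) (.cons (.br (nat_lit 6) (.cons (.rel (nat_lit 18254139396)) .nil)) .nil)) .leaf) (nat_lit 25170150110639640) (.br (nat_lit 0) (.cons (.br (nat_lit 2) (.cons (.rel (nat_lit 72370176)) .nil)) .nil)) .leaf)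 (nat_lit 25170152282664342) (.br (nat_lit 2) (.cons (.br (nat_lit 3) (.cons (.rel (nat_lit 671088708)) .nil)) .nil)) (.node .leaf (nat_lit 25170152283288982) (.br (nat_lit 5) (.cons (.br (nat_lit 2) (.cons (.rel (nat_lit 4362078600)) (.cons (.rel (nat_lit 8657064192)) .nil))) .nil)) .leaf)) (nat_lit 25170152962766230) (.br (nat_lit 2) (.cons (.br (nat_lit 3) (.cons (.rel (nat_lit 336613392)) .nil)) .nil)) (.node (.node .leaf (nat_lit 25170201625061437) (.br (nat_lit 5) (.cons (.br (nat_lit 6) (.cons (.br (nat_lit 1) (.cons (.rel (nat_lit 4328521761)) (.cons (.rel (nat_lit 17196941376)) .nil))) .nil)) .nil)) .leaf) (nat_lit 25170201625062876) (.br (nat_lit 5) (.cons (.br (nat_lit 6) (.cons (.rel (nat_lit 38654726145)) .nil)) .nil)) (.node .leaf (nat_lit 25170203864821212) (.br (nat_lit 1) (.cons (.br (nat_lit 3) (.cons (.rel (nat_lit 285736968)) .nil)) .nil)) .leaf))))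

/-- refutations 175 -/
def e175 : EX := (.node (.node (.node .leaf (nat_lit 25174645456598423) (.br (nat_lit 1) (.cons (.br (nat_lit 2) (.cons (.rel (nat_lit 100680192)) .nil)) .nil)) .leaf) (nat_lit 25175922231498803) (.br (nat_lit 1) (.cons (.br (nat_lit 0) (.cons (.rel (nat_lit 42008640)) (.cons (.rel (nat_lit 22085637)) .nil))) .nil)) .leaf) (nat_lit 25176996498871703) (.br (nat_lit 0) (.cons (.br (nat_lit 2) (.cons (.rel (nat_lit 75514113)) .nil)) .nil)) (.node .leaf (nat_lit 25179787568444823) (.br (nat_lit 1) (.cons (.br (nat_lit 3) (.cons (.rel (nat_lit 286343184)) .nil)) .nil)) .leaf))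

/-- refutations 176 -/
def e176 : EX := (.node (.node (.node (.node .leaf (nat_lit 25179849736372535) (.br (nat_lit 0) (.cons (.br (nat_lit 1) (.cons (.rel (nat_lit 23330817)) .nil)) .nil)) .leaf) (nat_lit 25181087290363356) (.br (nat_lit 1) (.cons (.br (nat_lit 4) (.cons (.rel (nat_lit 2164262145)) (.cons (.rel (nat_lit 1091076360)) .nil))) .nil)) (.node .leaf (nat_lit 25181087290372748) (.br (nat_lit 1) (.cons (.br (nat_lit 2) (.cons (.rel (nat_lit 167805012)) .nil)) .nil)) .leaf)) (nat_lit 25181087292982779) (.br (nat_lit 1) (.cons (.br (nat_lit 2) (.cons (.rel (nat_lit 84414480)) .nil)) .nil)) (.node (.node .leaf (nat_lit 25181087293535638) (.br (nat_lit 0) (.cons (.br (nat_lit 2) (.cons (.rel (nat_lit 71696448)) .nil)) .nil)) .leaf) (nat_lit 25181130261007767) (.br (nat_lit 1) (.cons (.br (nat_lit 0) (.cons (.rel (nat_lit 22022400)) (.cons (.rel (nat_lit 23330817)) .nil))) .nil)) (.node .leaf (nat_lit 25181130263627259) (.br (nat_lit 0) (.cons (.br (nat_lit 2) (.cons (.rel (nat_lit 142872576))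 .nil)) .nil)) .leaf))) (nat_lit 25181130263872988) (.br (nat_lit 1) (.cons (.br (nat_lit 5) (.cons (.rel (nat_lit 4311810180)) .nil)) .nil)) (.node (.node (.node .leaf (nat_lit 25181173168747927) (.br (nat_lit 1) (.cons (.br (nat_lit 4) (.cons (.rel (nat_lit 1091043330)) .nil)) .nil)) .leaf) (nat_lit 25181173169053148) (.br (nat_lit 1) (.cons (.br (nat_lit 2) (.cons (.rel (nat_lit 83951760)) (.cons (.rel (nat_lit 83887488)) .nil))) .nil)) (.node .leaf (nat_lit 25181173170577444) (.br (nat_lit 0) (.cons (.br (nat_lit 2) (.cons (.rel (nat_lit 71696448)) .nil)) .nil)) .leaf)) (nat_lit 25181173827263895) (.br (nat_lit 0) (.cons (.br (nat_lit 1) (.cons (.rel (nat_lit 22086672)) .nil)) .nil)) (.node (.node .leaf (nat_lit 25181173827814876) (.br (nat_lit 1) (.cons (.br (nat_lit 2) (.cons (.rel (nat_lit 84935712)) .nil)) .nil)) .leaf) (nat_lit 25181173844327060) (.br (nat_lit 1) (.cons (.br (nat_lit 3) (.cons (.rel (nat_lit 286278912)) .nil)) .nil)) .leaf)))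

/-- refutations 177 -/
def e177 : EX := (.node (.node (.node (.node (.node .leaf (nat_lit 25185173591054988) (.br (nat_lit 2) (.cons (.br (nat_lit 4) (.cons (.rel (nat_lit 1140850818)) .nil)) .nil)) .leaf) (nat_lit 25185173591054998) (.br (nat_lit 1) (.cons (.br (nat_lit 2) (.cons (.rel (nat_lit 150995985)) .nil)) .nil)) .leaf) (nat_lit 25185173591055596) (.br (nat_lit 0) (.cons (.br (nat_lit 1) (.cons (.rel (nat_lit 22085637)) (.cons (.rel (nat_lit 22024200)) .nil))) (.cons (.br (nat_lit 4) (.cons (.rel (nat_lit 1077941376)) (.cons (.rel (nat_lit 1082134536)) .nil))) .nil))) (.node .leaf (nat_lit 25185176078278108) (.br (nat_lit 1) (.cons (.br (nat_lit 2) (.cons (.rel (nat_lit 150995985)) (.cons (.rel (nat_lit 100664340)) .nil))) .nil)) .leaf)) (nat_lit 25185176078572951) (.br (nat_lit 0) (.cons (.br (nat_lit 1) (.cons (.rel (nat_lit 37766160)) .nil)) .nil)) (.node (.node .leaf (nat_lit 25185176120220908) (.br (nat_lit 1) (.cons (.br (nat_lit 2) (.cons (.rel (nat_lit 100664340)) .nil)) .nil))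 .leaf) (nat_lit 25185176120221148) (.br (nat_lit 6) (.cons (.br (nat_lit 3) (.cons (.rel (nat_lit 34628190213)) (.cons (.rel (nat_lit 17449386240)) .nil))) .nil)) (.node .leaf (nat_lit 25185176120515991) (.br (nat_lit 0) (.cons (.br (nat_lit 2) (.cons (.rel (nat_lit 71696448)) .nil)) .nil)) .leaf))) (nat_lit 25185176736783836) (.br (nat_lit 0) (.cons (.br (nat_lit 3) (.cons (.rel (nat_lit 273686784)) .nil)) .nil)) (.node (.node (.node (.node .leaf (nat_lit 25185176737078679) (.br (nat_lit 0) (.cons (.br (nat_lit 3) (.cons (.rel (nat_lit 273170433)) .nil)) .nil)) .leaf) (nat_lit 25185219027930588) (.br (nat_lit 6) (.cons (.br (nat_lit 2) (.cons (.rel (nat_lit 34494234624)) (.cons (.rel (nat_lit 17314153488)) .nil))) .nil)) .leaf) (nat_lit 25185219048902108) (.br (nat_lit 1) (.cons (.br (nat_lit 2) (.cons (.rel (nat_lit 84427776)) (.cons (.rel (nat_lit 83887488)) .nil))) (.cons (.br (nat_lit 2) (.cons (.rel (nat_lit 150995985)) (.cons (.rel (nat_lit 100663305)) .nil))) .nil))) (.node .leaf (nat_lit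 25186538774387318) (.br (nat_lit 1) (.cons (.br (nat_lit 3) (.cons (.rel (nat_lit 570687492)) .nil)) .nil)) .leaf)) (nat_lit 25186538774387350) (.br (nat_lit 3) (.cons (.br (nat_lit 4) (.cons (.rel (nat_lit 1610612742)) .nil)) .nil)) (.node (.node .leaf (nat_lit 25186541253221852) (.br (nat_lit 0) (.cons (.br (nat_lit 1) (.cons (.rel (nat_lit 21565440)) .nil)) .nil)) .leaf) (nat_lit 25186541920116188) (.br (nat_lit 1) (.cons (.br (nat_lit 3) (.cons (.rel (nat_lit 285736968)) .nil)) .nil)) (.node .leaf (nat_lit 25186541920417175) (.br (nat_lit 2) (.cons (.br (nat_lit 3) (.cons (.rel (nat_lit 402723840)) .nil)) .nil)) .leaf))))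

/-- refutations 178 -/
def e178 : EX := (.node .leaf (nat_lit 25187735296394716) (.br (nat_lit 0) (.cons (.br (nat_lit 4) (.cons (.rel (nat_lit 1078214721)) .nil)) .nil)) .leaf)

/-- refutations 180 -/
def e180 : EX := (.node (.node (.node .leaf (nat_lit 25255576045149595) (.br (nat_lit 6) (.cons (.br (nat_lit 0) (.cons (.rel (nat_lit 17184213120)) (.cons (.rel (nat_lit 34368389124)) .nil))) .nil)) .leaf) (nat_lit 25255576694949220) (.br (nat_lit 2) (.cons (.br (nat_lit 3) (.cons (.rel (nat_lit 335544456)) .nil)) .nil)) .leaf) (nat_lit 25255578553026012) (.br (nat_lit 0) (.cons (.br (nat_lit 2) (.cons (.rel (nat_lit 138413328)) .nil)) .nil)) (.node .leaf (nat_lit 25255578553343387) (.br (nat_lit 2) (.cons (.br (nat_lit 5) (.cons (.rel (nat_lit 4362600720)) .nil)) .nil)) .leaf))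

/-- refutations 182 -/
def e182 : EX := (.node .leaf (nat_lit 25280272107105693) (.br (nat_lit 2) (.cons (.br (nat_lit 3) (.cons (.rel (nat_lit 335544456)) .nil)) .nil)) .leaf)

/-- refutations 183 -/
def e183 : EX := (.node (.node (.node (.node .leaf (nat_lit 25287762530069980) (.br (nat_lit 0) (.cons (.br (nat_lit 1) (.cons (.rel (nat_lit 37748994)) .nil)) .nil)) .leaf) (nat_lit 25287938120113565) (.br (nat_lit 1) (.cons (.br (nat_lit 4) (.cons (.rel (nat_lit 1107312912)) .nil)) .nil)) .leaf) (nat_lit 25287938120715740) (.br (nat_lit 0) (.cons (.br (nat_lit 1) (.cons (.rel (nat_lit 25187328)) .nil)) .nil)) (.node .leaf (nat_lit 25287938121996464) (.br (nat_lit 0) (.cons (.br (nat_lit 1) (.cons (.rel (nat_lit 21241920)) .nil)) .nil)) .leaf)) (nat_lit 25290814515066269) (.br (nat_lit 2) (.cons (.br (nat_lit 3) (.cons (.rel (nat_lit 402669840)) .nil)) .nil)) (.node (.node (.node .leaf (nat_lit 25290814515066332) (.br (nat_lit 4) (.cons (.br (nat_lit 5) (.cons (.rel (nat_lit 5368710273)) .nil))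 .nil)) .leaf) (nat_lit 25290815769471111) (.br (nat_lit 0) (.cons (.br (nat_lit 4) (.cons (.rel (nat_lit 1082197008)) .nil)) .nil)) .leaf) (nat_lit 25293341168000476) (.br (nat_lit 1) (.cons (.br (nat_lit 4) (.cons (.rel (nat_lit 2164264980)) .nil)) .nil)) (.node .leaf (nat_lit 25293341189574108) (.br (nat_lit 1) (.cons (.br (nat_lit 2) (.cons (.rel (nat_lit 83951760)) .nil)) .nil)) .leaf)))

/-- refutations 184 -/
def e184 : EX := (.node (.node (.node (.node .leaf (nat_lit 26388296271977948) (.br (nat_lit 1) (.cons (.br (nat_lit 3) (.cons (.rel (nat_lit 285212802)) .nil)) .nil)) .leaf) (nat_lit 26388296272962198) (.br (nat_lit 1) (.cons (.br (nat_lit 5) (.cons (.rel (nat_lit 8606713860)) .nil)) .nil)) (.node .leaf (nat_lit 26388297010175452) (.br (nat_lit 0) (.cons (.br (nat_lit 1) (.cons (.rel (nat_lit 25166337)) .nil)) .nil)) .leaf)) (nat_lit 26388299521228981) (.br (nat_lit 1) (.cons (.br (nat_lit 3) (.cons (.rel (nat_lit 285736968)) .nil)) .nil)) (.node (.node .leaf (nat_lit 26388299521229702)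 (.br (nat_lit 0) (.cons (.br (nat_lit 1) (.cons (.rel (nat_lit 21102720)) .nil)) .nil)) .leaf) (nat_lit 26388300137708331) (.br (nat_lit 0) (.cons (.br (nat_lit 1) (.cons (.rel (nat_lit 21565440)) .nil)) .nil)) .leaf)) (nat_lit 26388300176874972) (.br (nat_lit 1) (.cons (.br (nat_lit 5) (.cons (.rel (nat_lit 8606713860)) .nil)) .nil)) (.node (.node (.node .leaf (nat_lit 26388505697760732) (.br (nat_lit 1) (.cons (.br (nat_lit 2) (.cons (.rel (nat_lit 83951760)) .nil)) .nil)) .leaf) (nat_lit 26388505697781212) (.br (nat_lit 1) (.cons (.br (nat_lit 2) (.cons (.rel (nat_lit 83951760)) .nil)) .nil)) .leaf) (nat_lit 26388505698072028) (.br (nat_lit 1) (.cons (.br (nat_lit 5) (.cons (.rel (nat_lit 4312334337)) .nil)) .nil)) (.node (.node .leaf (nat_lit 26389353362363868) (.br (nat_lit 0) (.cons (.br (nat_lit 5) (.cons (.rel (nat_lit 4299182208)) .nil)) .nil)) .leaf) (nat_lit 26389356061976852) (.br (nat_lit 0) (.cons (.br (nat_lit 1) (.cons (.rel (nat_lit 22024200)) .nil)) .nil)) .leaf)))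

/-- refutations 185 -/
def e185 : EX := (.node (.node (.node .leaf (nat_lit 26389370626231832) (.br (nat_lit 0) (.cons (.br (nat_lit 1) (.cons (.rel (nat_lit 22022400)) .nil)) .nil)) .leaf) (nat_lit 26389396810914597) (.br (nat_lit 0) (.cons (.br (nat_lit 1) (.cons (.rel (nat_lit 21241920)) .nil)) .nil)) (.node .leaf (nat_lit 26389399011649812) (.br (nat_lit 0) (.cons (.br (nat_lit 1) (.cons (.rel (nat_lit 37748994)) .nil)) .nil)) .leaf)) (nat_lit 26389399029945820) (.br (nat_lit 0) (.cons (.br (nat_lit 1) (.cons (.rel (nat_lit 42008640)) .nil)) .nil)) (.node (.node .leaf (nat_lit 26389399031218832) (.br (nat_lit 1) (.cons (.br (nat_lit 3) (.cons (.rel (nat_lit 570687492)) .nil)) .nil)) .leaf) (nat_lit 26389441979628930) (.br (nat_lit 1) (.cons (.br (nat_lit 4) (.cons (.rel (nat_lit 1091575812)) .nil)) .nil)) (.node .leaf (nat_lit 26389444497483229) (.br (nat_lit 2) (.cons (.br (nat_lit 5) (.cons (.rel (nat_lit 8657043480)) .nil)) .nil)) .leaf)))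

/-- refutations 186 -/
def e186 : EX := (.node (.node (.node (.node (.node .leaf (nat_lit 26389576797176693) (.br (nat_lit 1) (.cons (.br (nat_lit 2) (.cons (.rel (nat_lit 84427776)) .nil)) .nil)) .leaf) (nat_lit 26389576797483809) (.br (nat_lit 1) (.cons (.br (nat_lit 2) (.cons (.rel (nat_lit 151068672)) .nil)) .nil)) .leaf) (nat_lit 26389576798158300) (.br (nat_lit 4) (.cons (.br (nat_lit 5) (.cons (.rel (nat_lit 10737484356)) .nil)) .nil)) (.node .leaf (nat_lit 26389576798464262) (.br (nat_lit 0) (.cons (.br (nat_lit 2) (.cons (.rel (nat_lit 71372928)) .nil)) .nil)) .leaf)) (nat_lit 26389576798472447) (.br (nat_lit 1) (.cons (.br (nat_lit 2) (.cons (.rel (nat_lit 84427776)) .nil)) .nil)) (.node (.node (.node .leaf (nat_lit 26389576799438300) (.br (nat_lit 0) (.cons (.br (nat_lit 4) (.cons (.rel (nat_lit 1078476804)) .nil)) .nil)) .leaf) (nat_lit 26389576800043814) (.br (nat_lit 1) (.cons (.br (nat_lit 2) (.cons (.rel (nat_lit 84414480)) .nil)) .nil)) .leaf) (nat_lit 26389579397972144) (.br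 (nat_lit 1) (.cons (.br (nat_lit 5) (.cons (.rel (nat_lit 4311761040)) .nil)) .nil)) (.node .leaf (nat_lit 26389579399955932) (.br (nat_lit 0) (.cons (.br (nat_lit 1) (.cons (.rel (nat_lit 42205464)) .nil)) .nil)) .leaf))) (nat_lit 26389579400214783) (.br (nat_lit 1) (.cons (.br (nat_lit 2) (.cons (.rel (nat_lit 84414480)) .nil)) .nil)) (.node (.node (.node (.node .leaf (nat_lit 26389579400215413) (.br (nat_lit 0) (.cons (.br (nat_lit 1) (.cons (.rel (nat_lit 21565440)) .nil)) .nil)) .leaf) (nat_lit 26389579400276144) (.br (nat_lit 5) (.cons (.br (nat_lit 1) (.cons (.rel (nat_lit 4312809984)) (.cons (.rel (nat_lit 4328522760)) .nil))) .nil)) .leaf) (nat_lit 26389579439289820) (.br (nat_lit 5) (.cons (.br (nat_lit 1) (.cons (.rel (nat_lit 4311810180)) (.cons (.rel (nat_lit 4312272900)) .nil))) .nil)) (.node .leaf (nat_lit 26389579439594972) (.br (nat_lit 3) (.cons (.br (nat_lit 1) (.cons (.rel (nat_lit 286278912)) (.cons (.rel (nat_lit 303316992)) .nil))) .nil)) .leaf)) (nat_lit 26389579439605212)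 (.br (nat_lit 1) (.cons (.br (nat_lit 4) (.cons (.rel (nat_lit 1090519173)) .nil)) .nil)) (.node (.node (.node .leaf (nat_lit 26389579442144732) (.br (nat_lit 1) (.cons (.br (nat_lit 5) (.cons (.rel (nat_lit 4311810180)) (.cons (.rel (nat_lit 4311761040)) .nil))) .nil)) .leaf) (nat_lit 26389581414807004) (.br (nat_lit 3) (.cons (.br (nat_lit 5) (.cons (.rel (nat_lit 8858371584)) .nil)) .nil)) .leaf) (nat_lit 26389611081362663) (.br (nat_lit 5) (.cons (.br (nat_lit 0) (.cons (.rel (nat_lit 4300276737)) (.cons (.rel (nat_lit 8594129169)) .nil))) .nil)) (.node .leaf (nat_lit 26389613799333340) (.br (nat_lit 1) (.cons (.br (nat_lit 3) (.cons (.rel (nat_lit 553664544)) .nil)) .nil)) .leaf))))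

/-- refutations 187 -/
def e187 : EX := (.node (.node (.node (.node (.node (.node .leaf (nat_lit 26389619768148149) (.br (nat_lit 0) (.cons (.br (nat_lit 5) (.cons (.rel (nat_lit 4299428160)) .nil)) .nil)) .leaf) (nat_lit 26389619768148774) (.br (nat_lit 1) (.cons (.br (nat_lit 2) (.cons (.rel (nat_lit 83951760)) .nil)) .nil)) .leaf) (nat_lit 26389619769417909) (.br (nat_lit 1) (.cons (.br (nat_lit 2) (.cons (.rel (nat_lit 83887488)) .nil)) .nil)) (.node .leaf (nat_lit 26389619770402268) (.br (nat_lit 4) (.cons (.br (nat_lit 5) (.cons (.rel (nat_lit 5368710273)) .nil)) .nil)) .leaf)) (nat_lit 26389622347029980) (.br (nat_lit 1) (.cons (.br (nat_lit 3) (.cons (.rel (nat_lit 285736968)) (.cons (.rel (nat_lit 553649412)) .nil))) .nil)) (.node (.node (.node .leaf (nat_lit 26389622347314652) (.br (nat_lit 0) (.cons (.br (nat_lit 1) (.cons (.rel (nat_lit 21102720)) .nil)) .nil)) .leaf) (nat_lit 26389622347333887) (.br (nat_lit 2) (.cons (.br (nat_lit 5) (.cons (.br (nat_lit 4) (.cons (.rel (nat_lit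 5502992448)) (.cons (.rel (nat_lit 2281701441)) .nil))) .nil)) .nil)) .leaf) (nat_lit 26389622347367900) (.br (nat_lit 0) (.cons (.br (nat_lit 1) (.cons (.rel (nat_lit 21565440)) .nil)) .nil)) (.node .leaf (nat_lit 26389622348607743) (.br (nat_lit 1) (.cons (.br (nat_lit 4) (.cons (.rel (nat_lit 1090519173)) .nil)) .nil)) .leaf))) (nat_lit 26389622348860777) (.br (nat_lit 3) (.cons (.br (nat_lit 5) (.cons (.rel (nat_lit 4831840512)) .nil)) .nil)) (.node (.node (.node (.node .leaf (nat_lit 26389622349873333) (.br (nat_lit 0) (.cons (.br (nat_lit 1) (.cons (.rel (nat_lit 23330817)) .nil)) .nil)) .leaf) (nat_lit 26389622349949104) (.br (nat_lit 1) (.cons (.br (nat_lit 5) (.cons (.rel (nat_lit 8606711826)) .nil)) .nil)) .leaf) (nat_lit 26389622368305407) (.br (nat_lit 4) (.cons (.br (nat_lit 5) (.cons (.rel (nat_lit 5369839620)) .nil)) .nil)) (.node .leaf (nat_lit 26389622368616629) (.br (nat_lit 4) (.cons (.br (nat_lit 5) (.cons (.rel (nat_lit 6443499588)) .nil)) .nil)) .leaf)) (nat_lit 26389622369886389)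 (.br (nat_lit 1) (.cons (.br (nat_lit 2) (.cons (.rel (nat_lit 83887488)) .nil)) .nil)) (.node (.node .leaf (nat_lit 26389624969085109) (.br (nat_lit 1) (.cons (.br (nat_lit 2) (.cons (.rel (nat_lit 83887488)) .nil)) .nil)) .leaf) (nat_lit 26389624992040412) (.br (nat_lit 1) (.cons (.br (nat_lit 2) (.cons (.rel (nat_lit 84427776)) .nil)) .nil)) (.node .leaf (nat_lit 26389662675547612) (.br (nat_lit 4) (.cons (.br (nat_lit 5) (.cons (.rel (nat_lit 5371084800)) .nil)) .nil)) .leaf)))) (nat_lit 26389662675618092) (.br (nat_lit 0) (.cons (.br (nat_lit 2) (.cons (.rel (nat_lit 71696448)) .nil)) .nil)) (.node (.node (.node (.node (.node .leaf (nat_lit 26389662675858719) (.br (nat_lit 1) (.cons (.br (nat_lit 5) (.cons (.rel (nat_lit 8606711826)) .nil)) .nil)) .leaf) (nat_lit 26389662675869079) (.br (nat_lit 1) (.cons (.br (nat_lit 3) (.cons (.rel (nat_lit 286278912)) .nil)) .nil)) .leaf) (nat_lit 26389662675878689) (.br (nat_lit 1) (.cons (.br (nat_lit 2) (.cons (.rel (nat_lit 83951760)) .nil)) .nil))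 (.node .leaf (nat_lit 26389662677820052) (.br (nat_lit 0) (.cons (.br (nat_lit 2) (.cons (.rel (nat_lit 72370176)) .nil)) .nil)) .leaf)) (nat_lit 26389662677861163) (.br (nat_lit 0) (.cons (.br (nat_lit 1) (.cons (.rel (nat_lit 41959512)) .nil)) .nil)) (.node (.node (.node .leaf (nat_lit 26389662677861852) (.br (nat_lit 1) (.cons (.br (nat_lit 2) (.cons (.rel (nat_lit 84427776)) .nil)) .nil)) .leaf) (nat_lit 26389665317662747) (.br (nat_lit 2) (.cons (.br (nat_lit 4) (.cons (.rel (nat_lit 1207980036)) .nil)) .nil)) .leaf) (nat_lit 26389665317957887) (.br (nat_lit 3) (.cons (.br (nat_lit 5) (.cons (.rel (nat_lit 4564583424)) .nil)) .nil)) (.node .leaf (nat_lit 26389665318223997) (.br (nat_lit 0) (.cons (.br (nat_lit 5) (.cons (.rel (nat_lit 4299227526)) .nil)) .nil)) .leaf))) (nat_lit 26389665318225127) (.br (nat_lit 1) (.cons (.br (nat_lit 3) (.cons (.rel (nat_lit 286265616)) .nil)) .nil)) (.node (.node (.node (.node .leaf (nat_lit 26389665318270359) (.br (nat_lit 1) (.cons (.br (nat_lit 2)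 (.cons (.rel (nat_lit 150994950)) .nil)) .nil)) .leaf) (nat_lit 26389665318280599) (.br (nat_lit 1) (.cons (.br (nat_lit 2) (.cons (.rel (nat_lit 84414480)) .nil)) .nil)) .leaf) (nat_lit 26389665338929407) (.br (nat_lit 2) (.cons (.br (nat_lit 4) (.cons (.rel (nat_lit 2281701441)) .nil)) .nil)) (.node .leaf (nat_lit 26389665340487017) (.br (nat_lit 2) (.cons (.br (nat_lit 3) (.cons (.rel (nat_lit 336662532)) .nil)) .nil)) .leaf)) (nat_lit 26389667550864740) (.br (nat_lit 0) (.cons (.br (nat_lit 3) (.cons (.rel (nat_lit 273679368)) .nil)) .nil)) (.node (.node .leaf (nat_lit 26389667941713372) (.br (nat_lit 1) (.cons (.br (nat_lit 5) (.cons (.rel (nat_lit 8606713860)) .nil)) .nil)) .leaf) (nat_lit 26389667960635517) (.br (nat_lit 0) (.cons (.br (nat_lit 1) (.cons (.rel (nat_lit 42008640)) .nil)) .nil)) (.node .leaf (nat_lit 26389667962684892) (.br (nat_lit 0) (.cons (.br (nat_lit 1) (.cons (.rel (nat_lit 39060480)) .nil)) .nil)) .leaf)))))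

/-- refutations 188 -/
def e188 : EX := (.node (.node (.node (.node .leaf (nat_lit 26389673907946972) (.br (nat_lit 0) (.cons (.br (nat_lit 1) (.cons (.rel (nat_lit 37748994)) .nil)) .nil)) .leaf) (nat_lit 26389676638343179) (.br (nat_lit 0) (.cons (.br (nat_lit 1) (.cons (.rel (nat_lit 21102720)) .nil)) .nil)) .leaf) (nat_lit 26389676639676452) (.br (nat_lit 4) (.cons (.br (nat_lit 1) (.cons (.rel (nat_lit 1090519173)) (.cons (.rel (nat_lit 1090520208)) .nil))) .nil)) (.node .leaf (nat_lit 26389676639677916) (.br (nat_lit 5) (.cons (.br (nat_lit 6) (.cons (.rel (nat_lit 38654722320)) .nil)) .nil)) .leaf)) (nat_lit 26389677059108316) (.br (nat_lit 0) (.cons (.br (nat_lit 1) (.cons (.rel (nat_lit 22086672)) .nil)) .nil)) (.node (.node .leaf (nat_lit 26389791650723292) (.br (nat_lit 3) (.cons (.br (nat_lit 4) (.cons (.rel (nat_lit 2416054272)) .nil)) .nil)) .leaf) (nat_lit 26389800240343067) (.br (nat_lit 0) (.cons (.br (nat_lit 2) (.cons (.rel (nat_lit 142872576)) .nil)) .nil)) (.node .leaf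 (nat_lit 26389848252529290) (.br (nat_lit 1) (.cons (.br (nat_lit 5) (.cons (.rel (nat_lit 8606716416)) .nil)) .nil)) .leaf)))

/-- refutations 189 -/
def e189 : EX := (.node (.node (.node (.node (.node .leaf (nat_lit 26389868230008284) (.br (nat_lit 0) (.cons (.br (nat_lit 1) (.cons (.rel (nat_lit 42008640)) .nil)) .nil)) .leaf) (nat_lit 26389868230983132) (.br (nat_lit 1) (.cons (.br (nat_lit 3) (.cons (.rel (nat_lit 285475920)) .nil)) .nil)) (.node .leaf (nat_lit 26389868414864860) (.br (nat_lit 2) (.cons (.br (nat_lit 4) (.cons (.rel (nat_lit 1141374984)) .nil)) .nil)) .leaf)) (nat_lit 26389868842376668) (.br (nat_lit 0) (.cons (.br (nat_lit 1) (.cons (.rel (nat_lit 42223620)) .nil)) .nil)) (.node (.node .leaf (nat_lit 26389868842436870) (.br (nat_lit 0) (.cons (.br (nat_lit 1) (.cons (.rel (nat_lit 22085637)) .nil)) .nil)) .leaf) (nat_lit 26389868842683868) (.br (nat_lit 0) (.cons (.br (nat_lit 2) (.cons (.rel (nat_lit 71372928)) .nil)) .nil)) .leaf)) (nat_lit 26389871497063835) (.br (nat_lit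 0) (.cons (.br (nat_lit 2) (.cons (.rel (nat_lit 72417282)) .nil)) .nil)) (.node (.node (.node .leaf (nat_lit 26389871497076188) (.br (nat_lit 1) (.cons (.br (nat_lit 5) (.cons (.rel (nat_lit 4312334337)) .nil)) .nil)) .leaf) (nat_lit 26389871497370885) (.br (nat_lit 4) (.cons (.br (nat_lit 5) (.cons (.rel (nat_lit 10737566784)) .nil)) .nil)) (.node .leaf (nat_lit 26389871497371100) (.br (nat_lit 3) (.cons (.br (nat_lit 1) (.cons (.rel (nat_lit 553649412)) (.cons (.br (nat_lit 2) (.cons (.rel (nat_lit 352403457)) (.cons (.rel (nat_lit 336626688)) .nil))) .nil))) .nil)) .leaf)) (nat_lit 26389871497566370) (.br (nat_lit 0) (.cons (.br (nat_lit 2) (.cons (.rel (nat_lit 139461696)) .nil)) .nil)) (.node (.node .leaf (nat_lit 26389871497566389) (.br (nat_lit 1) (.cons (.br (nat_lit 3) (.cons (.rel (nat_lit 286265616)) .nil)) .nil)) .leaf) (nat_lit 26389871497678300) (.br (nat_lit 2) (.cons (.br (nat_lit 4) (.cons (.rel (nat_lit 1141374984)) .nil)) .nil)) .leaf))) (nat_lit 26389871497691317) (.br (nat_lit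 0) (.cons (.br (nat_lit 3) (.cons (.rel (nat_lit 273686784)) .nil)) .nil)) (.node (.node (.node (.node .leaf (nat_lit 26389871498438692) (.br (nat_lit 0) (.cons (.br (nat_lit 1) (.cons (.rel (nat_lit 22022400)) .nil)) .nil)) .leaf) (nat_lit 26389874097849820) (.br (nat_lit 1) (.cons (.br (nat_lit 5) (.cons (.rel (nat_lit 4312793097)) .nil)) .nil)) (.node .leaf (nat_lit 26389874097899782) (.br (nat_lit 1) (.cons (.br (nat_lit 5) (.cons (.rel (nat_lit 4311761040)) .nil)) .nil)) .leaf)) (nat_lit 26389874098867432) (.br (nat_lit 0) (.cons (.br (nat_lit 2) (.cons (.rel (nat_lit 72356880)) .nil)) .nil)) (.node (.node .leaf (nat_lit 26389874099375580) (.br (nat_lit 0) (.cons (.br (nat_lit 1) (.cons (.rel (nat_lit 37765125)) .nil)) .nil)) .leaf) (nat_lit 26389880087309788) (.br (nat_lit 2) (.cons (.br (nat_lit 5) (.cons (.rel (nat_lit 4363157760)) .nil)) .nil)) .leaf)) (nat_lit 26389886122920693) (.br (nat_lit 0) (.cons (.br (nat_lit 4) (.cons (.rel (nat_lit 2151679488)) .nil)) .nil)) (.node (.node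 (.node .leaf (nat_lit 26389886122921313) (.br (nat_lit 0) (.cons (.br (nat_lit 2) (.cons (.rel (nat_lit 71835648)) .nil)) .nil)) .leaf) (nat_lit 26389886122921323) (.br (nat_lit 0) (.cons (.br (nat_lit 1) (.cons (.rel (nat_lit 21241920)) .nil)) .nil)) (.node .leaf (nat_lit 26390534897546716) (.br (nat_lit 5) (.cons (.br (nat_lit 3) (.cons (.rel (nat_lit 8858378244)) (.cons (.rel (nat_lit 4563402912)) .nil))) .nil)) .leaf)) (nat_lit 26390534897556956) (.br (nat_lit 4) (.cons (.br (nat_lit 5) (.cons (.rel (nat_lit 5368972356)) .nil)) .nil)) (.node (.node .leaf (nat_lit 26390534897809419) (.br (nat_lit 4) (.cons (.br (nat_lit 6) (.cons (.rel (nat_lit 19327385604)) .nil)) .nil)) .leaf) (nat_lit 26390534897862108) (.br (nat_lit 2) (.cons (.br (nat_lit 3) (.cons (.rel (nat_lit 671089746)) (.cons (.rel (nat_lit 336723969)) .nil))) (.cons (.br (nat_lit 3) (.cons (.rel (nat_lit 336662532)) (.cons (.rel (nat_lit 603981057)) .nil))) .nil))) .leaf))))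

/-- refutations 190 -/
def e190 : EX := (.node (.node (.node (.node (.node .leaf (nat_lit 26390649914262166) (.br (nat_lit 1) (.cons (.br (nat_lit 5) (.cons (.rel (nat_lit 4328521761)) .nil)) .nil)) .leaf) (nat_lit 26390650002453880) (.br (nat_lit 1) (.cons (.br (nat_lit 5) (.cons (.rel (nat_lit 8606713860)) .nil)) .nil)) .leaf) (nat_lit 26390651064840244) (.br (nat_lit 1) (.cons (.br (nat_lit 3) (.cons (.rel (nat_lit 553649412)) .nil)) .nil)) (.node (.node .leaf (nat_lit 26390653139792772) (.br (nat_lit 0) (.cons (.br (nat_lit 1) (.cons (.rel (nat_lit 21102720)) .nil)) .nil)) .leaf) (nat_lit 26390653141022172) (.br (nat_lit 1) (.cons (.br (nat_lit 5) (.cons (.rel (nat_lit 4312334337)) .nil)) .nil)) .leaf)) (nat_lit 26390653161993692) (.br (nat_lit 3) (.cons (.br (nat_lit 5) (.cons (.rel (nat_lit 4563402912)) .nil)) .nil)) (.node (.node (.node .leaf (nat_lit 26390653163221892) (.br (nat_lit 1) (.cons (.br (nat_lit 3) (.cons (.rel (nat_lit 285212802)) .nil)) .nil)) .leaf) (nat_lit 26390655259135452)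 (.br (nat_lit 0) (.cons (.br (nat_lit 3) (.cons (.rel (nat_lit 276889602)) .nil)) .nil)) .leaf) (nat_lit 26390655259144317) (.br (nat_lit 1) (.cons (.br (nat_lit 3) (.cons (.rel (nat_lit 286343184)) .nil)) .nil)) (.node (.node .leaf (nat_lit 26390655259145692) (.br (nat_lit 2) (.cons (.br (nat_lit 5) (.cons (.rel (nat_lit 4362354768)) (.cons (.rel (nat_lit 4363124742)) (.cons (.rel (nat_lit 8657045505)) .nil)))) (.cons (.br (nat_lit 4) (.cons (.rel (nat_lit 1141981200)) (.cons (.rel (nat_lit 2281963524)) .nil))) .nil))) .leaf) (nat_lit 26390656332887516) (.br (nat_lit 2) (.cons (.br (nat_lit 3) (.cons (.rel (nat_lit 402718980)) .nil)) .nil)) .leaf))) (nat_lit 26390858721641948) (.br (nat_lit 0) (.cons (.br (nat_lit 1) (.cons (.rel (nat_lit 42205464)) .nil)) .nil)) (.node (.node (.node (.node .leaf (nat_lit 26390859297590748) (.br (nat_lit 1) (.cons (.br (nat_lit 2) (.cons (.rel (nat_lit 83951760)) .nil)) .nil)) .leaf) (nat_lit 26390859298203824) (.br (nat_lit 1) (.cons (.br (nat_lit 2) (.cons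 (.rel (nat_lit 100664340)) .nil)) .nil)) .leaf) (nat_lit 26390859299188188) (.br (nat_lit 2) (.cons (.br (nat_lit 5) (.cons (.rel (nat_lit 8657043480)) .nil)) .nil)) (.node (.node .leaf (nat_lit 26390859299485872) (.br (nat_lit 1) (.cons (.br (nat_lit 3) (.cons (.rel (nat_lit 285474885)) (.cons (.rel (nat_lit 285212802)) .nil))) .nil)) .leaf) (nat_lit 26390859299506352) (.br (nat_lit 3) (.cons (.br (nat_lit 4) (.cons (.rel (nat_lit 2415936000)) .nil)) .nil)) .leaf)) (nat_lit 26390859299506357) (.br (nat_lit 1) (.cons (.br (nat_lit 5) (.cons (.rel (nat_lit 4312809984)) (.cons (.rel (nat_lit 4312809984)) .nil))) (.cons (.br (nat_lit 5) (.cons (.rel (nat_lit 4328603922)) (.cons (.rel (nat_lit 8606713860)) .nil))) .nil))) (.node (.node (.node .leaf (nat_lit 26390859299507676) (.br (nat_lit 1) (.cons (.br (nat_lit 5) (.cons (.rel (nat_lit 4312334337)) (.cons (.rel (nat_lit 4312334337)) .nil))) (.cons (.br (nat_lit 4) (.cons (.rel (nat_lit 1091575812)) (.cons (.rel (nat_lit 2181111876)) (.cons (.rel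 (nat_lit 1091575812)) .nil)))) .nil))) .leaf) (nat_lit 26390859300171957) (.br (nat_lit 1) (.cons (.br (nat_lit 2) (.cons (.rel (nat_lit 100700196)) .nil)) .nil)) .leaf) (nat_lit 26390959659169853) (.br (nat_lit 4) (.cons (.br (nat_lit 5) (.cons (.br (nat_lit 1) (.cons (.rel (nat_lit 4328530176)) (.cons (.rel (nat_lit 1091575812)) .nil))) .nil)) .nil)) (.node .leaf (nat_lit 26390959764129803) (.br (nat_lit 1) (.cons (.br (nat_lit 2) (.cons (.rel (nat_lit 85000704)) .nil)) .nil)) .leaf))))

/-- refutations 191 -/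
def e191 : EX := (.node (.node (.node (.node .leaf (nat_lit 26394123473307100) (.br (nat_lit 5) (.cons (.br (nat_lit 0) (.cons (.rel (nat_lit 4303373568)) (.cons (.br (nat_lit 1) (.cons (.rel (nat_lit 21565440)) (.cons (.rel (nat_lit 42008640)) .nil))) .nil))) .nil)) .leaf) (nat_lit 26394123475398717) (.br (nat_lit 1) (.cons (.br (nat_lit 3) (.cons (.rel (nat_lit 285212802)) .nil)) .nil)) (.node .leaf (nat_lit 26394123475400156) (.br (nat_lit 1) (.cons (.br (nat_lit 2) (.cons (.rel (nat_lit 84414480)) .nil)) .nil)) .leaf)) (nat_lit 26394123475675197) (.br (nat_lit 3) (.cons (.br (nat_lit 0) (.cons (.rel (nat_lit 545276229)) (.cons (.rel (nat_lit 276824340)) .nil))) .nil)) (.node (.node .leaf (nat_lit 26394123475675312) (.br (nat_lit 5) (.cons (.br (nat_lit 1) (.cons (.rel (nat_lit 4312006992)) (.cons (.rel (nat_lit 4311761040)) .nil))) .nil)) .leaf) (nat_lit 26394123493707228) (.br (nat_lit 1) (.cons (.br (nat_lit 0) (.cons (.rel (nat_lit 42008640)) (.cons (.rel (nat_lit 21241920)) .nil))) .nil))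 .leaf)) (nat_lit 26394123494032860) (.br (nat_lit 1) (.cons (.br (nat_lit 5) (.cons (.rel (nat_lit 4312334337)) .nil)) .nil)) (.node (.node (.node .leaf (nat_lit 26394123494278620) (.br (nat_lit 0) (.cons (.br (nat_lit 1) (.cons (.rel (nat_lit 42008640)) (.cons (.rel (nat_lit 21565440)) .nil))) .nil)) .leaf) (nat_lit 26394123494323676) (.br (nat_lit 0) (.cons (.br (nat_lit 2) (.cons (.rel (nat_lit 71835648)) .nil)) .nil)) .leaf) (nat_lit 26394123494329820) (.br (nat_lit 5) (.cons (.br (nat_lit 0) (.cons (.rel (nat_lit 4299751680)) (.cons (.rel (nat_lit 4300226562)) .nil))) .nil)) (.node (.node .leaf (nat_lit 26394123495262389) (.br (nat_lit 2) (.cons (.br (nat_lit 3) (.cons (.rel (nat_lit 671088708)) .nil)) .nil)) .leaf) (nat_lit 26394123496370357) (.br (nat_lit 1) (.cons (.br (nat_lit 3) (.cons (.rel (nat_lit 285474885)) (.cons (.rel (nat_lit 303316992)) .nil))) (.cons (.br (nat_lit 3) (.cons (.rel (nat_lit 285212802)) (.cons (.rel (nat_lit 285474885)) .nil))) .nil))) .leaf)))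

/-- refutations 192 -/
def e192 : EX := (.node (.node (.node (.node (.node (.node (.node .leaf (nat_lit 26394945002997212) (.br (nat_lit 0) (.cons (.br (nat_lit 3) (.cons (.rel (nat_lit 273170433)) .nil)) .nil)) .leaf) (nat_lit 26394945003242972) (.br (nat_lit 5) (.cons (.br (nat_lit 6) (.cons (.rel (nat_lit 25769807892)) .nil)) .nil)) .leaf) (nat_lit 26394945003288028) (.br (nat_lit 3) (.cons (.br (nat_lit 5) (.cons (.rel (nat_lit 4563404949)) .nil)) .nil)) (.node (.node .leaf (nat_lit 26394945485628892) (.br (nat_lit 1) (.cons (.br (nat_lit 5) (.cons (.rel (nat_lit 4311810180)) .nil)) .nil)) .leaf) (nat_lit 26394945527575959) (.br (nat_lit 0) (.cons (.br (nat_lit 2) (.cons (.rel (nat_lit 71835648)) .nil)) .nil)) .leaf)) (nat_lit 26394947506681308) (.br (nat_lit 1) (.cons (.br (nat_lit 4) (.cons (.rel (nat_lit 2181062736)) .nil)) .nil)) (.node (.node (.node .leaf (nat_lit 26394947508267765) (.br (nat_lit 0) (.cons (.br (nat_lit 1) (.cons (.rel (nat_lit 37765125)) .nil)) .nil)) .leaf) (nat_lit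 26394948127425797) (.br (nat_lit 0) (.cons (.br (nat_lit 2) (.cons (.rel (nat_lit 142872576)) .nil)) .nil)) .leaf) (nat_lit 26394948127428060) (.br (nat_lit 4) (.cons (.br (nat_lit 5) (.cons (.rel (nat_lit 10737680400)) (.cons (.br (nat_lit 1) (.cons (.br (nat_lit 0) (.cons (.rel (nat_lit 21102720)) (.cons (.rel (nat_lit 1078476804)) (.cons (.rel (nat_lit 37766160)) (.cons (.rel (nat_lit 1094715393)) (.cons (.rel (nat_lit 21241920)) .nil)))))) (.cons (.rel (nat_lit 1107362052)) (.cons (.rel (nat_lit 1091043330)) (.cons (.rel (nat_lit 2181300225)) .nil))))) .nil))) (.cons (.br (nat_lit 1) (.cons (.rel (nat_lit 2181300225)) (.cons (.rel (nat_lit 2181300225)) (.cons (.rel (nat_lit 2181300225)) (.cons (.br (nat_lit 2) (.cons (.rel (nat_lit 2281963524)) (.cons (.rel (nat_lit 1143275520)) (.cons (.rel (nat_lit 1207980036)) (.cons (.rel (nat_lit 1141374984)) (.cons (.rel (nat_lit 1141374984)) (.cons (.rel (nat_lit 84935712)) .nil))))))) .nil))))) .nil))) (.node (.node .leaf (nat_lit 26394948127436037)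 (.br (nat_lit 0) (.cons (.br (nat_lit 1) (.cons (.rel (nat_lit 25187328)) .nil)) .nil)) .leaf) (nat_lit 26394948127436981) (.br (nat_lit 4) (.cons (.br (nat_lit 5) (.cons (.rel (nat_lit 5368972356)) .nil)) .nil)) .leaf))) (nat_lit 26394948127447216) (.br (nat_lit 4) (.cons (.br (nat_lit 5) (.cons (.rel (nat_lit 10737680400)) .nil)) .nil)) (.node (.node (.node (.node .leaf (nat_lit 26394948127448540) (.br (nat_lit 1) (.cons (.br (nat_lit 0) (.cons (.rel (nat_lit 37748994)) (.cons (.rel (nat_lit 42008640)) (.cons (.rel (nat_lit 37766160)) (.cons (.rel (nat_lit 37765125)) (.cons (.rel (nat_lit 42008640)) (.cons (.rel (nat_lit 21102720)) (.cons (.rel (nat_lit 22024200)) (.cons (.rel (nat_lit 21241920)) .nil))))))))) .nil)) .leaf) (nat_lit 26394948127701292) (.br (nat_lit 1) (.cons (.br (nat_lit 3) (.cons (.rel (nat_lit 302022672)) .nil)) .nil)) .leaf) (nat_lit 26394948127702292) (.br (nat_lit 4) (.cons (.br (nat_lit 5) (.cons (.rel (nat_lit 5369766912)) (.cons (.br (nat_lit 1) (.cons (.rel (nat_lit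 4328530176)) (.cons (.rel (nat_lit 2181300225)) (.cons (.rel (nat_lit 1090519173)) .nil)))) .nil))) (.cons (.br (nat_lit 5) (.cons (.rel (nat_lit 6442456080)) (.cons (.rel (nat_lit 6442469376)) .nil))) .nil))) (.node (.node .leaf (nat_lit 26394948127702402) (.br (nat_lit 0) (.cons (.br (nat_lit 1) (.cons (.rel (nat_lit 37765125)) .nil)) .nil)) .leaf) (nat_lit 26394948127702492) (.br (nat_lit 4) (.cons (.br (nat_lit 5) (.cons (.rel (nat_lit 10737680400)) (.cons (.rel (nat_lit 9663710208)) .nil))) .nil)) .leaf)) (nat_lit 26394948127731967) (.br (nat_lit 1) (.cons (.br (nat_lit 2) (.cons (.rel (nat_lit 100925568)) .nil)) .nil)) (.node (.node (.node .leaf (nat_lit 26394948127736694) (.br (nat_lit 2) (.cons (.br (nat_lit 5) (.cons (.rel (nat_lit 4362080388)) .nil)) .nil)) .leaf) (nat_lit 26394948127744276) (.br (nat_lit 0) (.cons (.br (nat_lit 1) (.cons (.rel (nat_lit 21241920)) .nil)) .nil)) .leaf) (nat_lit 26394948127947527) (.br (nat_lit 0) (.cons (.br (nat_lit 2) (.cons (.rel (nat_lit 72356880))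 .nil)) .nil)) (.node (.node .leaf (nat_lit 26394948127948976) (.br (nat_lit 0) (.cons (.br (nat_lit 1) (.cons (.rel (nat_lit 42207489)) (.cons (.rel (nat_lit 21102720)) .nil))) .nil)) .leaf) (nat_lit 26394948127959202) (.br (nat_lit 1) (.cons (.br (nat_lit 2) (.cons (.rel (nat_lit 100664340)) .nil)) .nil)) .leaf)))) (nat_lit 26394948127997957) (.br (nat_lit 5) (.cons (.br (nat_lit 1) (.cons (.rel (nat_lit 4328530176)) (.cons (.rel (nat_lit 4311810180)) .nil))) .nil)) (.node (.node (.node (.node (.node .leaf (nat_lit 26394948127999337) (.br (nat_lit 1) (.cons (.br (nat_lit 2) (.cons (.rel (nat_lit 84427776)) .nil)) .nil)) .leaf) (nat_lit 26394948127999452) (.br (nat_lit 0) (.cons (.br (nat_lit 1) (.cons (.rel (nat_lit 21102720)) (.cons (.rel (nat_lit 42008640)) (.cons (.rel (nat_lit 21102720)) .nil)))) (.cons (.br (nat_lit 4) (.cons (.rel (nat_lit 1078476804)) (.cons (.rel (nat_lit 1078476804)) (.cons (.br (nat_lit 6) (.cons (.rel (nat_lit 18254139396)) (.cons (.rel (nat_lit 34368389124)) (.cons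 (.rel (nat_lit 17185129728)) (.cons (.rel (nat_lit 17185243140)) .nil))))) (.cons (.rel (nat_lit 2151686148)) .nil))))) .nil))) .leaf) (nat_lit 26394948128039064) (.br (nat_lit 3) (.cons (.br (nat_lit 4) (.cons (.rel (nat_lit 1342443840)) (.cons (.rel (nat_lit 1342521408)) .nil))) .nil)) (.node (.node .leaf (nat_lit 26394948128039088) (.br (nat_lit 4) (.cons (.br (nat_lit 5) (.cons (.rel (nat_lit 10737680400)) .nil)) .nil)) .leaf) (nat_lit 26394948128039093) (.br (nat_lit 1) (.cons (.br (nat_lit 2) (.cons (.rel (nat_lit 84414480)) .nil)) .nil)) .leaf)) (nat_lit 26394948128041136) (.br (nat_lit 0) (.cons (.br (nat_lit 4) (.cons (.rel (nat_lit 1078476804)) .nil)) .nil)) (.node (.node (.node .leaf (nat_lit 26394948128043184) (.br (nat_lit 2) (.cons (.br (nat_lit 4) (.cons (.rel (nat_lit 1141374984)) .nil)) .nil)) .leaf) (nat_lit 26394948128044415) (.br (nat_lit 4) (.cons (.br (nat_lit 1) (.cons (.rel (nat_lit 2181300225)) (.cons (.rel (nat_lit 1091117064)) .nil))) .nil)) .leaf) (nat_lit 26394948128044439)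 (.br (nat_lit 0) (.cons (.br (nat_lit 1) (.cons (.rel (nat_lit 25182468)) (.cons (.rel (nat_lit 25166337)) .nil))) (.cons (.br (nat_lit 1) (.cons (.rel (nat_lit 21565440)) (.cons (.rel (nat_lit 22085637)) .nil))) .nil))) (.node (.node .leaf (nat_lit 26394948128044508) (.br (nat_lit 5) (.cons (.br (nat_lit 1) (.cons (.rel (nat_lit 4311810180)) (.cons (.rel (nat_lit 4311761040)) (.cons (.rel (nat_lit 4312272900)) .nil)))) .nil)) .leaf) (nat_lit 26394948128050452) (.br (nat_lit 3) (.cons (.br (nat_lit 4) (.cons (.rel (nat_lit 1343226120)) .nil)) .nil)) .leaf))) (nat_lit 26394948128053424) (.br (nat_lit 1) (.cons (.br (nat_lit 5) (.cons (.rel (nat_lit 4312794132)) (.cons (.rel (nat_lit 4311810180)) .nil))) .nil)) (.node (.node (.node (.node .leaf (nat_lit 26394948128054049) (.br (nat_lit 1) (.cons (.br (nat_lit 2) (.cons (.rel (nat_lit 84427776)) .nil)) .nil)) .leaf) (nat_lit 26394948128054679) (.br (nat_lit 4) (.cons (.br (nat_lit 6) (.cons (.rel (nat_lit 35433496584)) (.cons (.rel (nat_lit 18254139396))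 .nil))) .nil)) .leaf) (nat_lit 26394948128059554) (.br (nat_lit 4) (.cons (.br (nat_lit 5) (.cons (.rel (nat_lit 9664991232)) (.cons (.rel (nat_lit 6443499588)) .nil))) .nil)) (.node (.node .leaf (nat_lit 26394948128059573) (.br (nat_lit 3) (.cons (.br (nat_lit 2) (.cons (.br (nat_lit 1) (.cons (.rel (nat_lit 151519296)) (.cons (.rel (nat_lit 285736968)) (.cons (.rel (nat_lit 285212802)) .nil)))) (.cons (.rel (nat_lit 335806530)) .nil))) .nil)) .leaf) (nat_lit 26394948128059692) (.br (nat_lit 3) (.cons (.br (nat_lit 4) (.cons (.rel (nat_lit 1342521408)) .nil)) .nil)) .leaf)) (nat_lit 26394948128060692) (.br (nat_lit 4) (.cons (.br (nat_lit 5) (.cons (.rel (nat_lit 5368710273)) (.cons (.rel (nat_lit 5369790480)) .nil))) .nil)) (.node (.node (.node .leaf (nat_lit 26394948128705422) (.br (nat_lit 5) (.cons (.br (nat_lit 4) (.cons (.rel (nat_lit 5368710273)) (.cons (.rel (nat_lit 5368710273)) .nil))) .nil)) .leaf) (nat_lit 26394948128707361) (.br (nat_lit 1) (.cons (.br (nat_lit 2) (.cons (.rel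 (nat_lit 168100104)) .nil)) .nil)) .leaf) (nat_lit 26394948128707445) (.br (nat_lit 1) (.cons (.br (nat_lit 4) (.cons (.rel (nat_lit 1090520208)) .nil)) .nil)) (.node (.node .leaf (nat_lit 26394948128717685) (.br (nat_lit 1) (.cons (.br (nat_lit 2) (.cons (.rel (nat_lit 150994950)) (.cons (.rel (nat_lit 100925568)) .nil))) .nil)) .leaf) (nat_lit 26394948128718231) (.br (nat_lit 0) (.cons (.br (nat_lit 1) (.cons (.rel (nat_lit 21241920)) .nil)) .nil)) .leaf))))) (nat_lit 26394948128770958) (.br (nat_lit 3) (.cons (.br (nat_lit 1) (.cons (.rel (nat_lit 285212802)) (.cons (.rel (nat_lit 285475920)) .nil))) .nil)) (.node (.node (.node (.node (.node (.node .leaf (nat_lit 26394948128770975) (.br (nat_lit 5) (.cons (.br (nat_lit 1) (.cons (.rel (nat_lit 4312272900)) (.cons (.rel (nat_lit 4312006992)) .nil))) .nil)) .leaf) (nat_lit 26394948128809897) (.br (nat_lit 1) (.cons (.br (nat_lit 2) (.cons (.rel (nat_lit 83887488)) (.cons (.rel (nat_lit 84414480)) .nil))) .nil)) .leaf) (nat_lit 26394948128810217)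 (.br (nat_lit 4) (.cons (.br (nat_lit 1) (.cons (.rel (nat_lit 1090781256)) (.cons (.rel (nat_lit 1090519173)) .nil))) .nil)) (.node (.node .leaf (nat_lit 26394948128810260) (.br (nat_lit 1) (.cons (.br (nat_lit 4) (.cons (.rel (nat_lit 2164524420)) .nil)) .nil)) .leaf) (nat_lit 26394948128811809) (.br (nat_lit 4) (.cons (.br (nat_lit 5) (.cons (.rel (nat_lit 5369839620)) .nil)) .nil)) .leaf)) (nat_lit 26394948128812293) (.br (nat_lit 1) (.cons (.br (nat_lit 4) (.cons (.rel (nat_lit 1090519173)) .nil)) .nil)) (.node (.node (.node .leaf (nat_lit 26394948128962736) (.br (nat_lit 1) (.cons (.br (nat_lit 3) (.cons (.rel (nat_lit 286265616)) .nil)) .nil)) .leaf) (nat_lit 26394948128981767) (.br (nat_lit 0) (.cons (.br (nat_lit 1) (.cons (.rel (nat_lit 22024200)) .nil)) .nil)) .leaf) (nat_lit 26394948128983216) (.br (nat_lit 1) (.cons (.br (nat_lit 3) (.cons (.rel (nat_lit 285736968)) .nil)) .nil)) (.node (.node .leaf (nat_lit 26394948128983727) (.br (nat_lit 0) (.cons (.br (nat_lit 1) (.cons (.rel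 (nat_lit 21241920)) .nil)) .nil)) .leaf) (nat_lit 26394948129033692) (.br (nat_lit 2) (.cons (.br (nat_lit 5) (.cons (.rel (nat_lit 8657045505)) .nil)) .nil)) .leaf))) (nat_lit 26394948129268622) (.br (nat_lit 4) (.cons (.br (nat_lit 1) (.cons (.rel (nat_lit 1090519173)) (.cons (.rel (nat_lit 1090519173)) .nil))) .nil)) (.node (.node (.node (.node .leaf (nat_lit 26394948129278577) (.br (nat_lit 0) (.cons (.br (nat_lit 5) (.cons (.rel (nat_lit 8595177537)) .nil)) .nil)) .leaf) (nat_lit 26394948129278862) (.br (nat_lit 1) (.cons (.br (nat_lit 3) (.cons (.rel (nat_lit 285475920)) .nil)) .nil)) .leaf) (nat_lit 26394948129288817) (.br (nat_lit 5) (.cons (.br (nat_lit 3) (.cons (.rel (nat_lit 8859484224)) (.cons (.rel (nat_lit 4563928068)) .nil))) .nil)) (.node (.node .leaf (nat_lit 26394948129289092) (.br (nat_lit 1) (.cons (.br (nat_lit 3) (.cons (.rel (nat_lit 570687492)) (.cons (.rel (nat_lit 285212802)) .nil))) (.cons (.br (nat_lit 4) (.cons (.rel (nat_lit 2181300225)) (.cons (.rel (nat_lit 1090519173))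 .nil))) .nil))) .leaf) (nat_lit 26394948129289102) (.br (nat_lit 1) (.cons (.br (nat_lit 4) (.cons (.rel (nat_lit 1091575812)) .nil)) .nil)) .leaf)) (nat_lit 26394948129289577) (.br (nat_lit 1) (.cons (.br (nat_lit 2) (.cons (.rel (nat_lit 83887488)) .nil)) .nil)) (.node (.node (.node .leaf (nat_lit 26394948129289692) (.br (nat_lit 4) (.cons (.br (nat_lit 5) (.cons (.rel (nat_lit 9663807489)) .nil)) .nil)) .leaf) (nat_lit 26394948129323184) (.br (nat_lit 2) (.cons (.br (nat_lit 4) (.cons (.rel (nat_lit 2281963524)) (.cons (.rel (nat_lit 2281701441)) .nil))) .nil)) .leaf) (nat_lit 26394948129323189) (.br (nat_lit 1) (.cons (.br (nat_lit 2) (.cons (.rel (nat_lit 100663305)) (.cons (.rel (nat_lit 84427776)) .nil))) (.cons (.br (nat_lit 5) (.cons (.rel (nat_lit 4311761040)) (.cons (.rel (nat_lit 4311761040)) .nil))) .nil))) (.node (.node .leaf (nat_lit 26394948129333424) (.br (nat_lit 3) (.cons (.br (nat_lit 1) (.cons (.rel (nat_lit 285474885)) (.cons (.rel (nat_lit 286392324)) .nil))) .nil)) .leaf)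 (nat_lit 26394948129333429) (.br (nat_lit 2) (.cons (.br (nat_lit 4) (.cons (.rel (nat_lit 2281701441)) (.cons (.rel (nat_lit 2281963524)) .nil))) .nil)) .leaf)))) (nat_lit 26394948129334049) (.br (nat_lit 0) (.cons (.br (nat_lit 2) (.cons (.rel (nat_lit 138413328)) .nil)) .nil)) (.node (.node (.node (.node (.node .leaf (nat_lit 26394948129343664) (.br (nat_lit 4) (.cons (.br (nat_lit 1) (.cons (.rel (nat_lit 2181300225)) (.cons (.rel (nat_lit 1090520208)) (.cons (.rel (nat_lit 1090520208)) .nil)))) (.cons (.br (nat_lit 5) (.cons (.rel (nat_lit 9663710208)) (.cons (.rel (nat_lit 5369766912)) (.cons (.rel (nat_lit 5369790480)) .nil)))) .nil))) .leaf) (nat_lit 26394948129343669) (.br (nat_lit 2) (.cons (.br (nat_lit 5) (.cons (.rel (nat_lit 4362141825)) .nil)) .nil)) .leaf) (nat_lit 26394948129996952) (.br (nat_lit 0) (.cons (.br (nat_lit 1) (.cons (.rel (nat_lit 21102720)) .nil)) .nil)) (.node (.node .leaf (nat_lit 26394948130009364) (.br (nat_lit 0) (.cons (.br (nat_lit 1) (.cons (.rel (nat_lit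 21102720)) .nil)) .nil)) .leaf) (nat_lit 26394948130091059) (.br (nat_lit 1) (.cons (.br (nat_lit 4) (.cons (.rel (nat_lit 1090781256)) .nil)) .nil)) .leaf)) (nat_lit 26394948130091189) (.br (nat_lit 1) (.cons (.br (nat_lit 2) (.cons (.rel (nat_lit 84414480)) .nil)) .nil)) (.node (.node (.node .leaf (nat_lit 26394948130353452) (.br (nat_lit 2) (.cons (.br (nat_lit 3) (.cons (.rel (nat_lit 671375376)) .nil)) .nil)) .leaf) (nat_lit 26394948130354707) (.br (nat_lit 2) (.cons (.br (nat_lit 4) (.cons (.rel (nat_lit 1141112901)) (.cons (.rel (nat_lit 1142952000)) .nil))) (.cons (.br (nat_lit 5) (.cons (.rel (nat_lit 4362080388)) (.cons (.rel (nat_lit 8657045505)) .nil))) .nil))) .leaf) (nat_lit 26394948130366346) (.br (nat_lit 1) (.cons (.br (nat_lit 2) (.cons (.rel (nat_lit 84427776)) .nil)) .nil)) (.node (.node .leaf (nat_lit 26394948130517144) (.br (nat_lit 0) (.cons (.br (nat_lit 3) (.cons (.rel (nat_lit 272646276)) .nil)) .nil)) .leaf) (nat_lit 26394948130519045) (.br (nat_lit 0) (.cons (.br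 (nat_lit 1) (.cons (.rel (nat_lit 21102720)) (.cons (.rel (nat_lit 21102720)) .nil))) .nil)) .leaf))) (nat_lit 26394948130519165) (.br (nat_lit 1) (.cons (.br (nat_lit 4) (.cons (.rel (nat_lit 1090781256)) .nil)) .nil)) (.node (.node (.node (.node .leaf (nat_lit 26394948130603189) (.br (nat_lit 2) (.cons (.br (nat_lit 4) (.cons (.rel (nat_lit 2281963524)) .nil)) .nil)) .leaf) (nat_lit 26394948130604439) (.br (nat_lit 1) (.cons (.br (nat_lit 4) (.cons (.rel (nat_lit 1091043330)) .nil)) .nil)) .leaf) (nat_lit 26394950227243059) (.br (nat_lit 1) (.cons (.br (nat_lit 2) (.cons (.rel (nat_lit 84935712)) .nil)) .nil)) (.node (.node .leaf (nat_lit 26394950728170972) (.br (nat_lit 0) (.cons (.br (nat_lit 2) (.cons (.rel (nat_lit 71835648)) .nil)) .nil)) .leaf) (nat_lit 26394950729812779) (.br (nat_lit 0) (.cons (.br (nat_lit 1) (.cons (.rel (nat_lit 21102720)) .nil)) .nil)) .leaf)) (nat_lit 26394951295510829) (.br (nat_lit 1) (.cons (.br (nat_lit 2) (.cons (.rel (nat_lit 100798464)) .nil)) .nil)) (.node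 (.node (.node .leaf (nat_lit 26394951295511813) (.br (nat_lit 0) (.cons (.br (nat_lit 2) (.cons (.rel (nat_lit 71372928)) .nil)) .nil)) .leaf) (nat_lit 26394951295987717) (.br (nat_lit 0) (.cons (.br (nat_lit 1) (.cons (.rel (nat_lit 21102720)) .nil)) .nil)) .leaf) (nat_lit 26394951399596167) (.br (nat_lit 1) (.cons (.br (nat_lit 2) (.cons (.rel (nat_lit 84414480)) .nil)) .nil)) (.node .leaf (nat_lit 26394951399616693) (.br (nat_lit 1) (.cons (.br (nat_lit 2) (.cons (.rel (nat_lit 84414480)) .nil)) .nil)) .leaf))))))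

/-- refutations 193 -/
def e193 : EX := (.node (.node (.node (.node (.node (.node (.node .leaf (nat_lit 26394988341085660) (.br (nat_lit 5) (.cons (.br (nat_lit 0) (.cons (.rel (nat_lit 4303486980)) (.cons (.rel (nat_lit 8594145300)) .nil))) .nil)) .leaf) (nat_lit 26394990480179335) (.br (nat_lit 3) (.cons (.br (nat_lit 5) (.cons (.rel (nat_lit 4564451856)) .nil)) .nil)) .leaf) (nat_lit 26394990480180700) (.br (nat_lit 0) (.cons (.br (nat_lit 1) (.cons (.rel (nat_lit 37748994)) (.cons (.rel (nat_lit 42008640)) .nil))) (.cons (.br (nat_lit 1) (.cons (.rel (nat_lit 21102720)) (.cons (.rel (nat_lit 21102720)) .nil))) .nil))) (.node .leaf (nat_lit 26394991098069027) (.br (nat_lit 1) (.cons (.br (nat_lit 3) (.cons (.rel (nat_lit 286343184)) .nil)) .nil)) .leaf)) (nat_lit 26394991098069642) (.br (nat_lit 6) (.cons (.br (nat_lit 2) (.cons (.rel (nat_lit 17247240768)) (.cons (.rel (nat_lit 34426848768)) .nil))) .nil)) (.node (.node .leaf (nat_lit 26394991098070272) (.br (nat_lit 0) (.cons (.br (nat_lit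 2) (.cons (.rel (nat_lit 71372928)) .nil)) .nil)) .leaf) (nat_lit 26394991098072477) (.br (nat_lit 2) (.cons (.br (nat_lit 4) (.cons (.rel (nat_lit 1140850818)) .nil)) .nil)) (.node .leaf (nat_lit 26394991098072540) (.br (nat_lit 1) (.cons (.br (nat_lit 4) (.cons (.rel (nat_lit 1090519173)) (.cons (.rel (nat_lit 2181300225)) .nil))) (.cons (.br (nat_lit 4) (.cons (.rel (nat_lit 1090519173)) (.cons (.rel (nat_lit 1091569152)) .nil))) .nil))) .leaf))) (nat_lit 26394991098082780) (.br (nat_lit 1) (.cons (.br (nat_lit 2) (.cons (.rel (nat_lit 84427776)) (.cons (.rel (nat_lit 151027968)) (.cons (.rel (nat_lit 83887488)) (.cons (.rel (nat_lit 100663305)) (.cons (.rel (nat_lit 84414480)) .nil)))))) .nil)) (.node (.node (.node .leaf (nat_lit 26394991098090752) (.br (nat_lit 0) (.cons (.br (nat_lit 1) (.cons (.rel (nat_lit 25187328)) .nil)) .nil)) .leaf) (nat_lit 26394991098090907) (.br (nat_lit 4) (.cons (.br (nat_lit 6) (.cons (.rel (nat_lit 18254139396)) .nil)) .nil)) (.node .leaf (nat_lit 26394991098092807)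 (.br (nat_lit 1) (.cons (.br (nat_lit 4) (.cons (.rel (nat_lit 1108607232)) .nil)) .nil)) .leaf)) (nat_lit 26394991098093020) (.br (nat_lit 5) (.cons (.br (nat_lit 4) (.cons (.rel (nat_lit 5369233440)) (.cons (.rel (nat_lit 10737680400)) .nil))) .nil)) (.node (.node .leaf (nat_lit 26394991098325249) (.br (nat_lit 1) (.cons (.br (nat_lit 2) (.cons (.rel (nat_lit 84414480)) .nil)) .nil)) .leaf) (nat_lit 26394991098336732) (.br (nat_lit 1) (.cons (.br (nat_lit 0) (.cons (.rel (nat_lit 21516312)) (.cons (.rel (nat_lit 21565440)) .nil))) .nil)) (.node .leaf (nat_lit 26394991098377692) (.br (nat_lit 4) (.cons (.br (nat_lit 5) (.cons (.rel (nat_lit 5368709286)) .nil)) .nil)) .leaf)))) (nat_lit 26394991098387932) (.br (nat_lit 4) (.cons (.br (nat_lit 5) (.cons (.rel (nat_lit 9664991232)) (.cons (.rel (nat_lit 5369233440)) .nil))) (.cons (.br (nat_lit 5) (.cons (.rel (nat_lit 5369766912)) (.cons (.br (nat_lit 2) (.cons (.rel (nat_lit 1141916928)) (.cons (.rel (nat_lit 4429186050)) (.cons (.rel (nat_lit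 2281963524)) .nil)))) .nil))) .nil))) (.node (.node (.node (.node (.node .leaf (nat_lit 26394991098389362) (.br (nat_lit 1) (.cons (.br (nat_lit 3) (.cons (.rel (nat_lit 570687492)) .nil)) .nil)) .leaf) (nat_lit 26394991098391965) (.br (nat_lit 1) (.cons (.br (nat_lit 2) (.cons (.rel (nat_lit 83887488)) .nil)) .nil)) .leaf) (nat_lit 26394991098392028) (.br (nat_lit 1) (.cons (.br (nat_lit 2) (.cons (.rel (nat_lit 84971520)) .nil)) .nil)) (.node .leaf (nat_lit 26394991098401653) (.br (nat_lit 0) (.cons (.br (nat_lit 1) (.cons (.rel (nat_lit 39060480)) .nil)) .nil)) .leaf)) (nat_lit 26394991098592012) (.br (nat_lit 0) (.cons (.br (nat_lit 1) (.cons (.rel (nat_lit 21565440)) .nil)) .nil)) (.node (.node .leaf (nat_lit 26394991098685616) (.br (nat_lit 1) (.cons (.br (nat_lit 3) (.cons (.rel (nat_lit 570425409)) .nil)) .nil)) .leaf) (nat_lit 26394991098687664) (.br (nat_lit 2) (.cons (.br (nat_lit 4) (.cons (.rel (nat_lit 1141374984)) .nil)) .nil)) (.node .leaf (nat_lit 26394991098695132) (.br (nat_lit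 3) (.cons (.br (nat_lit 5) (.cons (.rel (nat_lit 9126805584)) (.cons (.rel (nat_lit 4563928068)) .nil))) (.cons (.br (nat_lit 1) (.cons (.rel (nat_lit 287637504)) (.cons (.rel (nat_lit 570425409)) (.cons (.rel (nat_lit 285736968)) .nil)))) .nil))) .leaf))) (nat_lit 26394991098697904) (.br (nat_lit 2) (.cons (.br (nat_lit 1) (.cons (.rel (nat_lit 83887488)) (.cons (.rel (nat_lit 100663305)) .nil))) .nil)) (.node (.node (.node .leaf (nat_lit 26394991098697909) (.br (nat_lit 1) (.cons (.br (nat_lit 3) (.cons (.rel (nat_lit 285212802)) .nil)) .nil)) .leaf) (nat_lit 26394991098698378) (.br (nat_lit 0) (.cons (.br (nat_lit 2) (.cons (.rel (nat_lit 72417282)) .nil)) .nil)) (.node .leaf (nat_lit 26394991098698534) (.br (nat_lit 5) (.cons (.br (nat_lit 1) (.cons (.rel (nat_lit 4328607744)) (.cons (.rel (nat_lit 4311761040)) .nil))) .nil)) .leaf)) (nat_lit 26394991098709399) (.br (nat_lit 5) (.cons (.br (nat_lit 1) (.cons (.rel (nat_lit 4313055360)) (.cons (.rel (nat_lit 4311761040)) .nil))) .nil)) (.node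 (.node .leaf (nat_lit 26394991099349022) (.br (nat_lit 1) (.cons (.br (nat_lit 3) (.cons (.rel (nat_lit 287313984)) .nil)) .nil)) .leaf) (nat_lit 26394991099349622) (.br (nat_lit 0) (.cons (.br (nat_lit 1) (.cons (.rel (nat_lit 25182468)) .nil)) .nil)) (.node .leaf (nat_lit 26394991099349767) (.br (nat_lit 1) (.cons (.br (nat_lit 2) (.cons (.rel (nat_lit 83886501)) .nil)) .nil)) .leaf))))) (nat_lit 26394991099349772) (.br (nat_lit 0) (.cons (.br (nat_lit 1) (.cons (.rel (nat_lit 22022400)) .nil)) .nil)) (.node (.node (.node (.node (.node (.node .leaf (nat_lit 26394991099372405) (.br (nat_lit 1) (.cons (.br (nat_lit 2) (.cons (.rel (nat_lit 84414480)) (.cons (.rel (nat_lit 84427776)) .nil))) .nil)) .leaf) (nat_lit 26394991099456294) (.br (nat_lit 3) (.cons (.br (nat_lit 6) (.cons (.rel (nat_lit 17449353222)) .nil)) .nil)) .leaf) (nat_lit 26394991099719132) (.br (nat_lit 1) (.cons (.br (nat_lit 4) (.cons (.rel (nat_lit 1091043330)) .nil)) .nil)) (.node .leaf (nat_lit 26394991099912822) (.br (nat_lit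 3) (.cons (.br (nat_lit 5) (.cons (.rel (nat_lit 4832888928)) .nil)) .nil)) .leaf)) (nat_lit 26394991099915671) (.br (nat_lit 1) (.cons (.br (nat_lit 2) (.cons (.rel (nat_lit 100664340)) .nil)) .nil)) (.node (.node .leaf (nat_lit 26394991099923932) (.br (nat_lit 4) (.cons (.br (nat_lit 3) (.cons (.rel (nat_lit 1342197888)) (.cons (.rel (nat_lit 2415919113)) .nil))) .nil)) .leaf) (nat_lit 26394991099967664) (.br (nat_lit 1) (.cons (.br (nat_lit 2) (.cons (.rel (nat_lit 83887488)) (.cons (.rel (nat_lit 84414480)) .nil))) (.cons (.br (nat_lit 2) (.cons (.rel (nat_lit 100798464)) (.cons (.rel (nat_lit 83887488)) .nil))) .nil))) (.node .leaf (nat_lit 26394991099967669) (.br (nat_lit 2) (.cons (.br (nat_lit 3) (.cons (.rel (nat_lit 671088708)) .nil)) .nil)) .leaf))) (nat_lit 26394991099977904) (.br (nat_lit 3) (.cons (.br (nat_lit 1) (.cons (.rel (nat_lit 286265616)) (.cons (.rel (nat_lit 285212802)) .nil))) .nil)) (.node (.node (.node .leaf (nat_lit 26394991099977909) (.br (nat_lit 1) (.cons (.br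 (nat_lit 2) (.cons (.rel (nat_lit 84427776)) (.cons (.rel (nat_lit 83951760)) .nil))) (.cons (.br (nat_lit 2) (.cons (.rel (nat_lit 84427776)) (.cons (.rel (nat_lit 83887488)) .nil))) .nil))) .leaf) (nat_lit 26394991099988003) (.br (nat_lit 1) (.cons (.br (nat_lit 4) (.cons (.rel (nat_lit 1090520208)) .nil)) .nil)) (.node .leaf (nat_lit 26394991099988144) (.br (nat_lit 2) (.cons (.br (nat_lit 5) (.cons (.rel (nat_lit 4362080388)) (.cons (.rel (nat_lit 4362354768)) .nil))) (.cons (.br (nat_lit 5) (.cons (.rel (nat_lit 4362080388)) (.cons (.rel (nat_lit 4362080388)) .nil))) .nil))) .leaf)) (nat_lit 26394991099988774) (.br (nat_lit 1) (.cons (.br (nat_lit 2) (.cons (.rel (nat_lit 102826116)) .nil)) .nil)) (.node (.node .leaf (nat_lit 26394991100735664) (.br (nat_lit 2) (.cons (.br (nat_lit 5) (.cons (.rel (nat_lit 8657064192)) .nil)) .nil)) .leaf) (nat_lit 26394991100936368) (.br (nat_lit 1) (.cons (.br (nat_lit 4) (.cons (.rel (nat_lit 2164326417)) (.cons (.rel (nat_lit 2181300225)) (.cons (.rel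 (nat_lit 1091633424)) .nil)))) .nil)) (.node .leaf (nat_lit 26394991100936449) (.br (nat_lit 1) (.cons (.br (nat_lit 5) (.cons (.rel (nat_lit 4312272900)) .nil)) .nil)) .leaf)))) (nat_lit 26394991100936468) (.br (nat_lit 1) (.cons (.br (nat_lit 5) (.cons (.rel (nat_lit 8606711826)) .nil)) .nil)) (.node (.node (.node (.node (.node .leaf (nat_lit 26394991100936497) (.br (nat_lit 1) (.cons (.br (nat_lit 2) (.cons (.rel (nat_lit 167776584)) (.cons (.rel (nat_lit 84427776)) .nil))) (.cons (.br (nat_lit 2) (.cons (.rel (nat_lit 84427776)) (.cons (.rel (nat_lit 84414480)) .nil))) .nil))) .leaf) (nat_lit 26394991100936828) (.br (nat_lit 4) (.cons (.br (nat_lit 1) (.cons (.rel (nat_lit 1090520208)) (.cons (.rel (nat_lit 1091575812)) .nil))) .nil)) .leaf) (nat_lit 26394991100937077) (.br (nat_lit 1) (.cons (.br (nat_lit 5) (.cons (.rel (nat_lit 4312793097)) .nil)) .nil)) (.node .leaf (nat_lit 26394991100937119) (.br (nat_lit 1) (.cons (.br (nat_lit 3) (.cons (.rel (nat_lit 303316992)) (.cons (.rel (nat_lit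 570687492)) (.cons (.rel (nat_lit 570425409)) .nil)))) .nil)) .leaf)) (nat_lit 26394991100937129) (.br (nat_lit 1) (.cons (.br (nat_lit 2) (.cons (.rel (nat_lit 151027968)) (.cons (.rel (nat_lit 84427776)) (.cons (.rel (nat_lit 100925568)) (.cons (.rel (nat_lit 84414480)) .nil))))) .nil)) (.node (.node .leaf (nat_lit 26394991100937692) (.br (nat_lit 1) (.cons (.br (nat_lit 3) (.cons (.rel (nat_lit 286278912)) (.cons (.rel (nat_lit 570425409)) (.cons (.rel (nat_lit 285474885)) .nil)))) (.cons (.br (nat_lit 5) (.cons (.rel (nat_lit 4312272900)) (.cons (.rel (nat_lit 4311810180)) (.cons (.rel (nat_lit 4328530176)) (.cons (.rel (nat_lit 8606793984)) .nil))))) .nil))) .leaf) (nat_lit 26394991100937699) (.br (nat_lit 1) (.cons (.br (nat_lit 2) (.cons (.rel (nat_lit 84935712)) .nil)) .nil)) (.node .leaf (nat_lit 26394991101012844) (.br (nat_lit 1) (.cons (.br (nat_lit 4) (.cons (.rel (nat_lit 1090781256)) .nil)) .nil)) .leaf))) (nat_lit 26394991101265955) (.br (nat_lit 1) (.cons (.br (nat_lit 4) (.cons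 (.rel (nat_lit 1092681792)) .nil)) .nil)) (.node (.node (.node .leaf (nat_lit 26394993073905116) (.br (nat_lit 0) (.cons (.br (nat_lit 2) (.cons (.rel (nat_lit 71835648)) .nil)) .nil)) .leaf) (nat_lit 26394993076454876) (.br (nat_lit 6) (.cons (.br (nat_lit 1) (.cons (.rel (nat_lit 17213442048)) (.cons (.rel (nat_lit 34376549376)) .nil))) .nil)) (.node .leaf (nat_lit 26394993677874652) (.br (nat_lit 1) (.cons (.br (nat_lit 3) (.cons (.rel (nat_lit 285736968)) .nil)) .nil)) .leaf)) (nat_lit 26394993698551260) (.br (nat_lit 2) (.cons (.br (nat_lit 3) (.cons (.rel (nat_lit 335546529)) .nil)) .nil)) (.node (.node .leaf (nat_lit 26394993701405334) (.br (nat_lit 1) (.cons (.br (nat_lit 4) (.cons (.rel (nat_lit 2181300225)) .nil)) .nil)) .leaf) (nat_lit 26394993701406172) (.br (nat_lit 5) (.cons (.br (nat_lit 6) (.cons (.rel (nat_lit 25769869329)) (.cons (.rel (nat_lit 25769869329)) (.cons (.rel (nat_lit 21475491840)) .nil)))) .nil)) (.node .leaf (nat_lit 26394994224679047) (.br (nat_lit 0) (.cons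 (.br (nat_lit 1) (.cons (.rel (nat_lit 25187328)) .nil)) .nil)) .leaf))))))

/-- refutations 194 -/
def e194 : EX := (.node (.node (.node (.node (.node (.node (.node .leaf (nat_lit 26395031309129180) (.br (nat_lit 0) (.cons (.br (nat_lit 1) (.cons (.rel (nat_lit 22036497)) .nil)) .nil)) .leaf) (nat_lit 26395031405642613) (.br (nat_lit 1) (.cons (.br (nat_lit 3) (.cons (.rel (nat_lit 286343184)) .nil)) .nil)) .leaf) (nat_lit 26395033380861404) (.br (nat_lit 1) (.cons (.br (nat_lit 4) (.cons (.rel (nat_lit 1107362052)) .nil)) .nil)) (.node .leaf (nat_lit 26395034005802460) (.br (nat_lit 1) (.cons (.br (nat_lit 4) (.cons (.rel (nat_lit 2164262145)) .nil)) .nil)) .leaf)) (nat_lit 26395034005809812) (.br (nat_lit 5) (.cons (.br (nat_lit 1) (.cons (.rel (nat_lit 4312272900)) (.cons (.rel (nat_lit 4311761040)) .nil))) .nil)) (.node (.node (.node .leaf (nat_lit 26395034005812700) (.br (nat_lit 1) (.cons (.br (nat_lit 5) (.cons (.rel (nat_lit 4311761040)) (.cons (.rel (nat_lit 8606713860)) .nil))) (.cons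 (.br (nat_lit 5) (.cons (.rel (nat_lit 4311810180)) (.cons (.rel (nat_lit 4328522760)) .nil))) .nil))) .leaf) (nat_lit 26395034005820672) (.br (nat_lit 3) (.cons (.br (nat_lit 4) (.cons (.rel (nat_lit 1610645760)) .nil)) .nil)) .leaf) (nat_lit 26395034005822940) (.br (nat_lit 1) (.cons (.br (nat_lit 4) (.cons (.rel (nat_lit 1090520208)) .nil)) .nil)) (.node .leaf (nat_lit 26395034006076702) (.br (nat_lit 1) (.cons (.br (nat_lit 4) (.cons (.rel (nat_lit 1107312912)) .nil)) .nil)) .leaf))) (nat_lit 26395034006109667) (.br (nat_lit 1) (.cons (.br (nat_lit 2) (.cons (.rel (nat_lit 100664340)) .nil)) .nil)) (.node (.node (.node (.node .leaf (nat_lit 26395034006116357) (.br (nat_lit 2) (.cons (.br (nat_lit 3) (.cons (.rel (nat_lit 337907712)) .nil)) .nil)) .leaf) (nat_lit 26395034006117237) (.br (nat_lit 1) (.cons (.br (nat_lit 4) (.cons (.rel (nat_lit 1090520208)) .nil)) .nil)) .leaf) (nat_lit 26395034006117852) (.br (nat_lit 4) (.cons (.br (nat_lit 2) (.cons (.rel (nat_lit 2281963524)) (.cons (.rel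 (nat_lit 1141374984)) (.cons (.rel (nat_lit 1207980036)) .nil)))) .nil)) (.node .leaf (nat_lit 26395034006128092) (.br (nat_lit 4) (.cons (.br (nat_lit 5) (.cons (.rel (nat_lit 5369766912)) .nil)) .nil)) .leaf)) (nat_lit 26395034006372357) (.br (nat_lit 1) (.cons (.br (nat_lit 2) (.cons (.rel (nat_lit 84414480)) .nil)) .nil)) (.node (.node .leaf (nat_lit 26395034006373852) (.br (nat_lit 1) (.cons (.br (nat_lit 2) (.cons (.rel (nat_lit 83887488)) (.cons (.rel (nat_lit 83887488)) .nil))) (.cons (.br (nat_lit 2) (.cons (.rel (nat_lit 151519296)) (.cons (.rel (nat_lit 100680192)) .nil))) .nil))) .leaf) (nat_lit 26395034006414812) (.br (nat_lit 5) (.cons (.br (nat_lit 0) (.cons (.rel (nat_lit 4299182208)) (.cons (.rel (nat_lit 4300226562)) (.cons (.rel (nat_lit 4300212513)) .nil)))) .nil)) (.node .leaf (nat_lit 26395034006417589) (.br (nat_lit 1) (.cons (.br (nat_lit 4) (.cons (.rel (nat_lit 1090520208)) .nil)) .nil)) .leaf)))) (nat_lit 26395034006425052) (.br (nat_lit 4) (.cons (.br (nat_lit 5)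 (.cons (.br (nat_lit 1) (.cons (.br (nat_lit 2) (.cons (.rel (nat_lit 1157632260)) (.cons (.rel (nat_lit 84414480)) .nil))) (.cons (.rel (nat_lit 1091043330)) (.cons (.rel (nat_lit 2181062736)) .nil)))) .nil)) .nil)) (.node (.node (.node (.node (.node .leaf (nat_lit 26395034006429079) (.br (nat_lit 2) (.cons (.br (nat_lit 4) (.cons (.rel (nat_lit 1141374984)) .nil)) .nil)) .leaf) (nat_lit 26395034006435092) (.br (nat_lit 1) (.cons (.br (nat_lit 2) (.cons (.rel (nat_lit 84971520)) (.cons (.rel (nat_lit 100664340)) (.cons (.rel (nat_lit 84935712)) .nil)))) (.cons (.br (nat_lit 2) (.cons (.rel (nat_lit 169099332)) (.cons (.rel (nat_lit 84414480)) (.cons (.rel (nat_lit 84427776)) .nil)))) .nil))) .leaf) (nat_lit 26395034006435292) (.br (nat_lit 2) (.cons (.br (nat_lit 4) (.cons (.rel (nat_lit 2281963524)) (.cons (.rel (nat_lit 1141374984)) .nil))) .nil)) (.node .leaf (nat_lit 26395034006438064) (.br (nat_lit 1) (.cons (.br (nat_lit 2) (.cons (.rel (nat_lit 150995985)) .nil)) .nil)) .leaf)) (nat_lit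 26395034006438069) (.br (nat_lit 3) (.cons (.br (nat_lit 4) (.cons (.rel (nat_lit 1610612742)) .nil)) .nil)) (.node (.node (.node .leaf (nat_lit 26395034006439319) (.br (nat_lit 1) (.cons (.br (nat_lit 4) (.cons (.rel (nat_lit 1091081220)) (.cons (.rel (nat_lit 2181300225)) .nil))) .nil)) .leaf) (nat_lit 26395034007078947) (.br (nat_lit 1) (.cons (.br (nat_lit 2) (.cons (.rel (nat_lit 83951760)) .nil)) .nil)) .leaf) (nat_lit 26395034007079822) (.br (nat_lit 3) (.cons (.br (nat_lit 4) (.cons (.rel (nat_lit 1342521408)) .nil)) .nil)) (.node .leaf (nat_lit 26395034007081845) (.br (nat_lit 1) (.cons (.br (nat_lit 4) (.cons (.rel (nat_lit 1091575812)) .nil)) .nil)) .leaf))) (nat_lit 26395034007184297) (.br (nat_lit 1) (.cons (.br (nat_lit 3) (.cons (.rel (nat_lit 570425409)) .nil)) .nil)) (.node (.node (.node (.node .leaf (nat_lit 26395034007192312) (.br (nat_lit 2) (.cons (.br (nat_lit 3) (.cons (.rel (nat_lit 671088708)) .nil)) .nil)) .leaf) (nat_lit 26395034007448482) (.br (nat_lit 3) (.cons (.br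 (nat_lit 4) (.cons (.rel (nat_lit 1343230980)) .nil)) .nil)) .leaf) (nat_lit 26395034007643012) (.br (nat_lit 1) (.cons (.br (nat_lit 3) (.cons (.rel (nat_lit 286392324)) .nil)) .nil)) (.node .leaf (nat_lit 26395034007643022) (.br (nat_lit 1) (.cons (.br (nat_lit 3) (.cons (.rel (nat_lit 285736968)) .nil)) .nil)) .leaf)) (nat_lit 26395034007653262) (.br (nat_lit 2) (.cons (.br (nat_lit 3) (.cons (.rel (nat_lit 337907712)) .nil)) .nil)) (.node (.node .leaf (nat_lit 26395034007663492) (.br (nat_lit 1) (.cons (.br (nat_lit 2) (.cons (.rel (nat_lit 84414480)) .nil)) .nil)) .leaf) (nat_lit 26395034007664092) (.br (nat_lit 5) (.cons (.br (nat_lit 3) (.cons (.rel (nat_lit 4831842312)) (.cons (.rel (nat_lit 4831840512)) .nil))) .nil)) (.node .leaf (nat_lit 26395034007697584) (.br (nat_lit 2) (.cons (.br (nat_lit 5) (.cons (.rel (nat_lit 4362141825)) .nil)) .nil)) .leaf))))) (nat_lit 26395034007697589) (.br (nat_lit 1) (.cons (.br (nat_lit 3) (.cons (.rel (nat_lit 285475920)) (.cons (.rel (nat_lit 285736968))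 (.cons (.rel (nat_lit 286265616)) .nil)))) (.cons (.br (nat_lit 3) (.cons (.rel (nat_lit 285736968)) (.cons (.rel (nat_lit 570425409)) (.cons (.rel (nat_lit 285212802)) .nil)))) .nil))) (.node (.node (.node (.node (.node (.node .leaf (nat_lit 26395034007707824) (.br (nat_lit 3) (.cons (.br (nat_lit 5) (.cons (.rel (nat_lit 4563665985)) .nil)) .nil)) .leaf) (nat_lit 26395034007707829) (.br (nat_lit 1) (.cons (.br (nat_lit 3) (.cons (.rel (nat_lit 285212802)) .nil)) .nil)) .leaf) (nat_lit 26395034007715294) (.br (nat_lit 0) (.cons (.br (nat_lit 1) (.cons (.rel (nat_lit 21241920)) .nil)) .nil)) (.node .leaf (nat_lit 26395034007718064) (.br (nat_lit 3) (.cons (.br (nat_lit 4) (.cons (.rel (nat_lit 1342443840)) .nil)) .nil)) .leaf)) (nat_lit 26395034007718069) (.br (nat_lit 2) (.cons (.br (nat_lit 4) (.cons (.rel (nat_lit 1140850818)) (.cons (.rel (nat_lit 1207980036)) (.cons (.rel (nat_lit 1140850818)) .nil)))) (.cons (.br (nat_lit 4) (.cons (.rel (nat_lit 1141374984)) (.cons (.rel (nat_lit 2281701441))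 (.cons (.rel (nat_lit 2281701441)) .nil)))) .nil))) (.node (.node (.node .leaf (nat_lit 26395034008383669) (.br (nat_lit 4) (.cons (.br (nat_lit 5) (.cons (.rel (nat_lit 5369823489)) .nil)) .nil)) .leaf) (nat_lit 26395034008666274) (.br (nat_lit 1) (.cons (.br (nat_lit 4) (.cons (.rel (nat_lit 1090781256)) .nil)) .nil)) .leaf) (nat_lit 26395034008666288) (.br (nat_lit 1) (.cons (.br (nat_lit 5) (.cons (.rel (nat_lit 4311761040)) .nil)) .nil)) (.node .leaf (nat_lit 26395034008666293) (.br (nat_lit 1) (.cons (.br (nat_lit 5) (.cons (.rel (nat_lit 4311761040)) .nil)) .nil)) .leaf))) (nat_lit 26395034008667049) (.br (nat_lit 1) (.cons (.br (nat_lit 5) (.cons (.br (nat_lit 2) (.cons (.rel (nat_lit 84427776)) (.cons (.rel (nat_lit 4463788032)) (.cons (.rel (nat_lit 151027968)) (.cons (.rel (nat_lit 84414480)) (.cons (.rel (nat_lit 84427776)) .nil)))))) (.cons (.rel (nat_lit 4311761040)) .nil))) .nil)) (.node (.node (.node (.node .leaf (nat_lit 26395034008741939) (.br (nat_lit 0) (.cons (.br (nat_lit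 5) (.cons (.rel (nat_lit 4300210440)) .nil)) .nil)) .leaf) (nat_lit 26395034008741949) (.br (nat_lit 0) (.cons (.br (nat_lit 1) (.cons (.rel (nat_lit 21241920)) .nil)) .nil)) .leaf) (nat_lit 26395034008742040) (.br (nat_lit 1) (.cons (.br (nat_lit 0) (.cons (.rel (nat_lit 23330817)) (.cons (.rel (nat_lit 25174032)) .nil))) .nil)) (.node .leaf (nat_lit 26395034008742050) (.br (nat_lit 0) (.cons (.br (nat_lit 3) (.cons (.rel (nat_lit 272892228)) .nil)) .nil)) .leaf)) (nat_lit 26395034008742064) (.br (nat_lit 1) (.cons (.br (nat_lit 0) (.cons (.rel (nat_lit 22022400)) (.cons (.rel (nat_lit 21102720)) (.cons (.rel (nat_lit 22022400)) (.cons (.rel (nat_lit 25174032)) (.cons (.rel (nat_lit 37748994)) .nil)))))) .nil)) (.node (.node .leaf (nat_lit 26395034008742164) (.br (nat_lit 0) (.cons (.br (nat_lit 1) (.cons (.rel (nat_lit 22024200)) .nil)) .nil)) .leaf) (nat_lit 26395034008742570) (.br (nat_lit 1) (.cons (.br (nat_lit 2) (.cons (.rel (nat_lit 83887488)) .nil)) .nil)) (.node .leaf (nat_lit 26395034008742773)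 (.br (nat_lit 1) (.cons (.br (nat_lit 0) (.cons (.rel (nat_lit 25174032)) (.cons (.rel (nat_lit 22036497)) .nil))) .nil)) .leaf)))) (nat_lit 26395034008742788) (.br (nat_lit 3) (.cons (.br (nat_lit 5) (.cons (.rel (nat_lit 4563928068)) .nil)) .nil)) (.node (.node (.node (.node (.node .leaf (nat_lit 26395034008742798) (.br (nat_lit 3) (.cons (.br (nat_lit 5) (.cons (.rel (nat_lit 4563928068)) (.cons (.rel (nat_lit 8858371584)) .nil))) (.cons (.br (nat_lit 5) (.cons (.rel (nat_lit 9126805584)) (.cons (.rel (nat_lit 9126805584)) .nil))) .nil))) .leaf) (nat_lit 26395034008743188) (.br (nat_lit 1) (.cons (.br (nat_lit 4) (.cons (.rel (nat_lit 1090519173)) .nil)) .nil)) .leaf) (nat_lit 26395034008977589) (.br (nat_lit 1) (.cons (.br (nat_lit 2) (.cons (.rel (nat_lit 84971520)) (.cons (.rel (nat_lit 83887488)) .nil))) (.cons (.br (nat_lit 2) (.cons (.rel (nat_lit 83887488)) (.cons (.rel (nat_lit 83951760)) .nil))) .nil))) (.node .leaf (nat_lit 26395034664633820) (.br (nat_lit 1) (.cons (.br (nat_lit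 4) (.cons (.rel (nat_lit 2181300225)) .nil)) .nil)) .leaf)) (nat_lit 26395036649490467) (.br (nat_lit 0) (.cons (.br (nat_lit 3) (.cons (.rel (nat_lit 541099008)) .nil)) .nil)) (.node (.node (.node .leaf (nat_lit 26396012839219476) (.br (nat_lit 1) (.cons (.br (nat_lit 6) (.cons (.rel (nat_lit 34376585220)) .nil)) .nil)) .leaf) (nat_lit 26396012840562140) (.br (nat_lit 0) (.cons (.br (nat_lit 1) (.cons (.rel (nat_lit 21565440)) .nil)) .nil)) .leaf) (nat_lit 26396012841496852) (.br (nat_lit 3) (.cons (.br (nat_lit 5) (.cons (.rel (nat_lit 4563928068)) .nil)) .nil)) (.node .leaf (nat_lit 26396012841855152) (.br (nat_lit 0) (.cons (.br (nat_lit 5) (.cons (.rel (nat_lit 4299182208)) .nil)) .nil)) .leaf))) (nat_lit 26396013258620380) (.br (nat_lit 5) (.cons (.br (nat_lit 1) (.cons (.rel (nat_lit 4328607744)) (.cons (.rel (nat_lit 8623511616)) .nil))) .nil)) (.node (.node (.node (.node .leaf (nat_lit 26396013258649876) (.br (nat_lit 0) (.cons (.br (nat_lit 1) (.cons (.rel (nat_lit 21241920)) .nil))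 .nil)) .leaf) (nat_lit 26396013260927152) (.br (nat_lit 3) (.cons (.br (nat_lit 5) (.cons (.rel (nat_lit 4565500224)) .nil)) .nil)) .leaf) (nat_lit 26396013261285406) (.br (nat_lit 0) (.cons (.br (nat_lit 1) (.cons (.rel (nat_lit 42008640)) .nil)) .nil)) (.node .leaf (nat_lit 26396013261285552) (.br (nat_lit 4) (.cons (.br (nat_lit 2) (.cons (.rel (nat_lit 2281963524)) (.cons (.rel (nat_lit 1141374984)) (.cons (.rel (nat_lit 1141374984)) .nil)))) .nil)) .leaf)) (nat_lit 26396013261285652) (.br (nat_lit 0) (.cons (.br (nat_lit 5) (.cons (.rel (nat_lit 4304408640)) .nil)) .nil)) (.node (.node .leaf (nat_lit 26396013300592651) (.br (nat_lit 0) (.cons (.br (nat_lit 1) (.cons (.rel (nat_lit 25182468)) .nil)) .nil)) .leaf) (nat_lit 26396013300921820) (.br (nat_lit 2) (.cons (.br (nat_lit 4) (.cons (.br (nat_lit 5) (.cons (.rel (nat_lit 10737680400)) .nil)) .nil)) .nil)) (.node .leaf (nat_lit 26396016408542684) (.br (nat_lit 3) (.cons (.br (nat_lit 1) (.cons (.rel (nat_lit 285212802)) (.cons (.rel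 (nat_lit 285474885)) .nil))) .nil)) .leaf))))))

/-- refutations 195 -/
def e195 : EX := (.node (.node (.node (.node (.node (.node .leaf (nat_lit 26396107223643612) (.br (nat_lit 0) (.cons (.br (nat_lit 1) (.cons (.rel (nat_lit 21241920)) .nil)) .nil)) .leaf) (nat_lit 26396110369371612) (.br (nat_lit 0) (.cons (.br (nat_lit 4) (.cons (.rel (nat_lit 1077936516)) .nil)) .nil)) (.node .leaf (nat_lit 26396227483977779) (.br (nat_lit 1) (.cons (.br (nat_lit 2) (.cons (.rel (nat_lit 84414480)) .nil)) .nil)) .leaf)) (nat_lit 26396227485085747) (.br (nat_lit 1) (.cons (.br (nat_lit 3) (.cons (.rel (nat_lit 286265616)) .nil)) .nil)) (.node (.node .leaf (nat_lit 26396228657440220) (.br (nat_lit 0) (.cons (.br (nat_lit 1) (.cons (.rel (nat_lit 23330817)) .nil)) .nil)) .leaf) (nat_lit 26396228665226017) (.br (nat_lit 1) (.cons (.br (nat_lit 4) (.cons (.rel (nat_lit 1090520208)) .nil)) .nil)) .leaf)) (nat_lit 26396228665521628) (.br (nat_lit 4) (.cons (.br (nat_lit 5) (.cons (.rel (nat_lit 5369762052)) .nil))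 .nil)) (.node (.node (.node .leaf (nat_lit 26396228665832924) (.br (nat_lit 2) (.cons (.br (nat_lit 1) (.cons (.rel (nat_lit 84427776)) (.cons (.rel (nat_lit 100664340)) .nil))) .nil)) .leaf) (nat_lit 26396228666813916) (.br (nat_lit 1) (.cons (.br (nat_lit 5) (.cons (.rel (nat_lit 4311810180)) .nil)) .nil)) .leaf) (nat_lit 26396228667834400) (.br (nat_lit 2) (.cons (.br (nat_lit 3) (.cons (.rel (nat_lit 335806530)) .nil)) .nil)) (.node (.node .leaf (nat_lit 26396228667834530) (.br (nat_lit 5) (.cons (.br (nat_lit 0) (.cons (.rel (nat_lit 4299182208)) (.cons (.rel (nat_lit 4303437840)) .nil))) .nil)) .leaf) (nat_lit 26396228667835020) (.br (nat_lit 3) (.cons (.br (nat_lit 5) (.cons (.rel (nat_lit 4564471812)) .nil)) .nil)) .leaf))) (nat_lit 26396228667835668) (.br (nat_lit 5) (.cons (.br (nat_lit 6) (.cons (.rel (nat_lit 21475901460)) .nil)) .nil)) (.node (.node (.node (.node .leaf (nat_lit 26396228667835803) (.br (nat_lit 0) (.cons (.br (nat_lit 1) (.cons (.rel (nat_lit 22022400)) .nil)) .nil))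 .leaf) (nat_lit 26396228667835868) (.br (nat_lit 6) (.cons (.br (nat_lit 3) (.cons (.rel (nat_lit 17449426944)) (.cons (.rel (nat_lit 17448829200)) (.cons (.rel (nat_lit 17448308868)) .nil)))) (.cons (.br (nat_lit 3) (.cons (.rel (nat_lit 17716740609)) (.cons (.rel (nat_lit 17448308868)) (.cons (.rel (nat_lit 17448370305)) .nil)))) .nil))) (.node .leaf (nat_lit 26396228668081415) (.br (nat_lit 1) (.cons (.br (nat_lit 4) (.cons (.rel (nat_lit 2164264980)) .nil)) .nil)) .leaf)) (nat_lit 26396228668391605) (.br (nat_lit 1) (.cons (.br (nat_lit 4) (.cons (.rel (nat_lit 1090520208)) (.cons (.rel (nat_lit 2164264980)) .nil))) .nil)) (.node (.node .leaf (nat_lit 26396230126739507) (.br (nat_lit 2) (.cons (.br (nat_lit 1) (.cons (.rel (nat_lit 83951760)) (.cons (.rel (nat_lit 85000704)) .nil))) .nil)) .leaf) (nat_lit 26396230631325872) (.br (nat_lit 1) (.cons (.br (nat_lit 5) (.cons (.rel (nat_lit 4328522760)) .nil)) .nil)) .leaf)) (nat_lit 26396230631325877) (.br (nat_lit 1) (.cons (.br (nat_lit 4)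 (.cons (.rel (nat_lit 1107312912)) .nil)) .nil)) (.node (.node (.node .leaf (nat_lit 26396267918689756) (.br (nat_lit 3) (.cons (.br (nat_lit 5) (.cons (.rel (nat_lit 4831842312)) .nil)) .nil)) .leaf) (nat_lit 26396270331442652) (.br (nat_lit 1) (.cons (.br (nat_lit 4) (.cons (.rel (nat_lit 2164328454)) .nil)) .nil)) .leaf) (nat_lit 26396270331747804) (.br (nat_lit 1) (.cons (.br (nat_lit 2) (.cons (.rel (nat_lit 84934677)) .nil)) .nil)) (.node (.node .leaf (nat_lit 26396270334523419) (.br (nat_lit 1) (.cons (.br (nat_lit 2) (.cons (.rel (nat_lit 83951760)) .nil)) .nil)) .leaf) (nat_lit 26396270369191388) (.br (nat_lit 1) (.cons (.br (nat_lit 2) (.cons (.rel (nat_lit 83887488)) .nil)) .nil)) .leaf)))) (nat_lit 26396270474048988) (.br (nat_lit 0) (.cons (.br (nat_lit 1) (.cons (.rel (nat_lit 42270726)) .nil)) .nil)) (.node (.node (.node (.node (.node .leaf (nat_lit 26396270474343900) (.br (nat_lit 0) (.cons (.br (nat_lit 5) (.cons (.br (nat_lit 3) (.cons (.rel (nat_lit 4831840512)) (.cons (.rel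 (nat_lit 4833148929)) .nil))) .nil)) .nil)) .leaf) (nat_lit 26396270474354140) (.br (nat_lit 5) (.cons (.br (nat_lit 0) (.cons (.rel (nat_lit 8598602760)) (.cons (.rel (nat_lit 4300226562)) .nil))) .nil)) (.node .leaf (nat_lit 26396270475422502) (.br (nat_lit 1) (.cons (.br (nat_lit 3) (.cons (.rel (nat_lit 285736968)) .nil)) .nil)) .leaf)) (nat_lit 26396270475584988) (.br (nat_lit 0) (.cons (.br (nat_lit 3) (.cons (.rel (nat_lit 541196289)) .nil)) .nil)) (.node (.node .leaf (nat_lit 26396270477213757) (.br (nat_lit 3) (.cons (.br (nat_lit 1) (.cons (.rel (nat_lit 286278912)) (.cons (.rel (nat_lit 285475920)) (.cons (.rel (nat_lit 285474885)) (.cons (.rel (nat_lit 570687492)) (.cons (.rel (nat_lit 285474885)) .nil)))))) (.cons (.br (nat_lit 5) (.cons (.rel (nat_lit 4831903749)) (.cons (.rel (nat_lit 4831842312)) (.cons (.rel (nat_lit 8860467333)) .nil)))) (.cons (.br (nat_lit 5) (.cons (.rel (nat_lit 4831842312)) (.cons (.rel (nat_lit 4831854609)) (.cons (.rel (nat_lit 9126805584)) .nil))))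 .nil)))) .leaf) (nat_lit 26396270477213877) (.br (nat_lit 1) (.cons (.br (nat_lit 3) (.cons (.rel (nat_lit 570687492)) (.cons (.rel (nat_lit 285212802)) .nil))) .nil)) .leaf)) (nat_lit 26396270477213997) (.br (nat_lit 3) (.cons (.br (nat_lit 0) (.cons (.rel (nat_lit 273170433)) (.cons (.rel (nat_lit 276889602)) (.cons (.br (nat_lit 6) (.cons (.rel (nat_lit 34632433728)) (.cons (.rel (nat_lit 17184587784)) .nil))) (.cons (.rel (nat_lit 273170433)) (.cons (.rel (nat_lit 272646276)) .nil)))))) .nil)) (.node (.node (.node .leaf (nat_lit 26396270477214478) (.br (nat_lit 5) (.cons (.br (nat_lit 0) (.cons (.rel (nat_lit 4300210440)) (.cons (.rel (nat_lit 8595177537)) (.cons (.rel (nat_lit 4303373568)) (.cons (.rel (nat_lit 4300226562)) (.cons (.rel (nat_lit 8595177537)) .nil)))))) .nil)) .leaf) (nat_lit 26396270477214977) (.br (nat_lit 2) (.cons (.br (nat_lit 3) (.cons (.rel (nat_lit 335544456)) (.cons (.rel (nat_lit 603981057)) .nil))) (.cons (.br (nat_lit 3) (.cons (.rel (nat_lit 335544456)) (.cons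 (.rel (nat_lit 671088708)) .nil))) .nil))) .leaf) (nat_lit 26396270477214997) (.br (nat_lit 5) (.cons (.br (nat_lit 3) (.cons (.rel (nat_lit 8858371584)) (.cons (.rel (nat_lit 8858371584)) .nil))) .nil)) (.node (.node .leaf (nat_lit 26396270477215196) (.br (nat_lit 6) (.cons (.br (nat_lit 3) (.cons (.br (nat_lit 5) (.cons (.rel (nat_lit 4564471812)) (.cons (.rel (nat_lit 21743273985)) (.cons (.rel (nat_lit 42949677120)) .nil)))) (.cons (.rel (nat_lit 34628177952)) (.cons (.rel (nat_lit 34628177952)) .nil)))) (.cons (.br (nat_lit 5) (.cons (.rel (nat_lit 21475950600)) (.cons (.rel (nat_lit 21475887366)) (.cons (.rel (nat_lit 42949677120)) .nil)))) .nil))) .leaf) (nat_lit 26396270896644157) (.br (nat_lit 2) (.cons (.br (nat_lit 5) (.cons (.rel (nat_lit 4363157760)) .nil)) .nil)) .leaf))) (nat_lit 26396270998336988) (.br (nat_lit 1) (.cons (.br (nat_lit 2) (.cons (.rel (nat_lit 100663305)) (.cons (.rel (nat_lit 151068672)) .nil))) .nil)) (.node (.node (.node (.node .leaf (nat_lit 26396270998631900)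 (.br (nat_lit 5) (.cons (.br (nat_lit 1) (.cons (.rel (nat_lit 4328521761)) (.cons (.rel (nat_lit 4328521761)) .nil))) .nil)) .leaf) (nat_lit 26396270998640816) (.br (nat_lit 1) (.cons (.br (nat_lit 2) (.cons (.rel (nat_lit 100663305)) .nil)) .nil)) (.node .leaf (nat_lit 26396270998642140) (.br (nat_lit 1) (.cons (.br (nat_lit 3) (.cons (.rel (nat_lit 285736968)) (.cons (.rel (nat_lit 285736968)) (.cons (.rel (nat_lit 286265616)) .nil)))) (.cons (.br (nat_lit 5) (.cons (.rel (nat_lit 4328607744)) (.cons (.rel (nat_lit 4328521761)) (.cons (.rel (nat_lit 4328522760)) .nil)))) .nil))) .leaf)) (nat_lit 26396270998952112) (.br (nat_lit 1) (.cons (.br (nat_lit 5) (.cons (.rel (nat_lit 4312272900)) .nil)) .nil)) (.node (.node .leaf (nat_lit 26396270998958261) (.br (nat_lit 0) (.cons (.br (nat_lit 1) (.cons (.rel (nat_lit 42008640)) .nil)) .nil)) .leaf) (nat_lit 26396270998959337) (.br (nat_lit 1) (.cons (.br (nat_lit 3) (.cons (.rel (nat_lit 285212802)) .nil)) .nil)) .leaf)) (nat_lit 26396271001501872)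 (.br (nat_lit 2) (.cons (.br (nat_lit 5) (.cons (.rel (nat_lit 8657043480)) (.cons (.rel (nat_lit 4362403908)) .nil))) (.cons (.br (nat_lit 4) (.cons (.rel (nat_lit 1141374984)) (.cons (.rel (nat_lit 1140850818)) (.cons (.rel (nat_lit 1208041473)) .nil)))) .nil))) (.node (.node (.node .leaf (nat_lit 26396271630648102) (.br (nat_lit 1) (.cons (.br (nat_lit 3) (.cons (.rel (nat_lit 570687492)) .nil)) .nil)) .leaf) (nat_lit 26396273499678172) (.br (nat_lit 3) (.cons (.br (nat_lit 6) (.cons (.rel (nat_lit 17449353222)) (.cons (.rel (nat_lit 17449353222)) .nil))) .nil)) .leaf) (nat_lit 26396273501306941) (.br (nat_lit 0) (.cons (.br (nat_lit 6) (.cons (.rel (nat_lit 34368127041)) .nil)) .nil)) (.node (.node .leaf (nat_lit 26396273578456540) (.br (nat_lit 4) (.cons (.br (nat_lit 6) (.cons (.rel (nat_lit 35433496584)) .nil)) .nil)) .leaf) (nat_lit 26396273580998837) (.br (nat_lit 5) (.cons (.br (nat_lit 1) (.cons (.rel (nat_lit 4312809984)) (.cons (.rel (nat_lit 4312794132)) .nil))) .nil)) .leaf)))))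

/-- refutations 196 -/
def e196 : EX := (.node (.node (.node (.node .leaf (nat_lit 26396285420249350) (.br (nat_lit 2) (.cons (.br (nat_lit 3) (.cons (.rel (nat_lit 671088708)) .nil)) .nil)) .leaf) (nat_lit 26396287557459420) (.br (nat_lit 1) (.cons (.br (nat_lit 4) (.cons (.rel (nat_lit 2164262145)) .nil)) .nil)) (.node .leaf (nat_lit 26396287557758428) (.br (nat_lit 3) (.cons (.br (nat_lit 5) (.cons (.rel (nat_lit 4833148929)) .nil)) .nil)) .leaf)) (nat_lit 26396287665468893) (.br (nat_lit 1) (.cons (.br (nat_lit 2) (.cons (.rel (nat_lit 85000704)) .nil)) .nil)) (.node (.node .leaf (nat_lit 26396290256281862) (.br (nat_lit 5) (.cons (.br (nat_lit 6) (.cons (.rel (nat_lit 25769821188)) .nil)) .nil)) .leaf) (nat_lit 26396291329499298) (.br (nat_lit 0) (.cons (.br (nat_lit 2) (.cons (.rel (nat_lit 142872576)) .nil)) .nil)) .leaf)) (nat_lit 26396291331207330) (.br (nat_lit 1) (.cons (.br (nat_lit 2) (.cons (.rel (nat_lit 83887488)) .nil)) .nil)) (.node (.node (.node .leaf (nat_lit 26396313403055580)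 (.br (nat_lit 1) (.cons (.br (nat_lit 3) (.cons (.rel (nat_lit 553649412)) .nil)) .nil)) .leaf) (nat_lit 26396313403065820) (.br (nat_lit 1) (.cons (.br (nat_lit 3) (.cons (.rel (nat_lit 287637504)) .nil)) .nil)) .leaf) (nat_lit 26396313403115695) (.br (nat_lit 0) (.cons (.br (nat_lit 2) (.cons (.rel (nat_lit 71320965)) .nil)) .nil)) (.node (.node .leaf (nat_lit 26396317095110957) (.br (nat_lit 1) (.cons (.br (nat_lit 3) (.cons (.rel (nat_lit 301999104)) .nil)) .nil)) .leaf) (nat_lit 26396317096903457) (.br (nat_lit 1) (.cons (.br (nat_lit 3) (.cons (.rel (nat_lit 285736968)) .nil)) .nil)) .leaf)))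

/-- refutations 197 -/
def e197 : EX := (.node (.node (.node (.node (.node .leaf (nat_lit 26399034717515911) (.br (nat_lit 1) (.cons (.br (nat_lit 3) (.cons (.rel (nat_lit 553649412)) .nil)) .nil)) .leaf) (nat_lit 26399034717526053) (.br (nat_lit 4) (.cons (.br (nat_lit 0) (.cons (.rel (nat_lit 1079054592)) (.cons (.rel (nat_lit 2151686148)) .nil))) .nil)) (.node .leaf (nat_lit 26399034717526143) (.br (nat_lit 0) (.cons (.br (nat_lit 5) (.cons (.rel (nat_lit 8594129169)) .nil)) .nil)) .leaf)) (nat_lit 26399034717526151) (.br (nat_lit 0) (.cons (.br (nat_lit 3) (.cons (.rel (nat_lit 541099008)) .nil)) .nil)) (.node (.node .leaf (nat_lit 26399034717526821) (.br (nat_lit 5) (.cons (.br (nat_lit 6) (.cons (.rel (nat_lit 21475901460)) (.cons (.rel (nat_lit 38654771460)) (.cons (.rel (nat_lit 21475950600)) .nil)))) .nil)) .leaf) (nat_lit 26399034717526822) (.br (nat_lit 5) (.cons (.br (nat_lit 0) (.cons (.rel (nat_lit 4300226562)) (.cons (.rel (nat_lit 8594194440)) .nil))) .nil)) (.node .leaf (nat_lit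 26399034717526897) (.br (nat_lit 5) (.cons (.br (nat_lit 6) (.cons (.rel (nat_lit 21477195780)) .nil)) .nil)) .leaf))) (nat_lit 26399034717526918) (.br (nat_lit 0) (.cons (.br (nat_lit 3) (.cons (.rel (nat_lit 272646276)) .nil)) .nil)) (.node (.node (.node .leaf (nat_lit 26399034717527396) (.br (nat_lit 1) (.cons (.br (nat_lit 2) (.cons (.rel (nat_lit 84935712)) (.cons (.rel (nat_lit 150995985)) .nil))) .nil)) .leaf) (nat_lit 26399034717527453) (.br (nat_lit 5) (.cons (.br (nat_lit 0) (.cons (.rel (nat_lit 4300215300)) (.cons (.rel (nat_lit 4299182208)) .nil))) .nil)) (.node .leaf (nat_lit 26399034719346725) (.br (nat_lit 3) (.cons (.br (nat_lit 4) (.cons (.rel (nat_lit 1610612742)) .nil)) .nil)) .leaf)) (nat_lit 26399034720598151) (.br (nat_lit 1) (.cons (.br (nat_lit 3) (.cons (.rel (nat_lit 286392324)) .nil)) .nil)) (.node (.node .leaf (nat_lit 26399036290391516) (.br (nat_lit 0) (.cons (.br (nat_lit 2) (.cons (.rel (nat_lit 71835648)) .nil)) .nil)) .leaf) (nat_lit 26399036294585820) (.br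 (nat_lit 4) (.cons (.br (nat_lit 0) (.cons (.rel (nat_lit 2151686148)) (.cons (.rel (nat_lit 1078214721)) .nil))) .nil)) .leaf))) (nat_lit 26399036307168732) (.br (nat_lit 1) (.cons (.br (nat_lit 2) (.cons (.rel (nat_lit 83886501)) .nil)) .nil)) (.node (.node (.node (.node .leaf (nat_lit 26399036336528860) (.br (nat_lit 4) (.cons (.br (nat_lit 1) (.cons (.rel (nat_lit 1090781256)) (.cons (.rel (nat_lit 1090520208)) .nil))) .nil)) .leaf) (nat_lit 26399036915322332) (.br (nat_lit 4) (.cons (.br (nat_lit 1) (.cons (.rel (nat_lit 2164326417)) (.cons (.rel (nat_lit 1090781256)) .nil))) .nil)) (.node .leaf (nat_lit 26399036957275612) (.br (nat_lit 3) (.cons (.br (nat_lit 5) (.cons (.rel (nat_lit 4564583424)) .nil)) .nil)) .leaf)) (nat_lit 26399036957285852) (.br (nat_lit 3) (.cons (.br (nat_lit 6) (.cons (.br (nat_lit 4) (.cons (.rel (nat_lit 2415919113)) (.cons (.rel (nat_lit 1610612742)) (.cons (.rel (nat_lit 1343230980)) (.cons (.br (nat_lit 5) (.cons (.rel (nat_lit 10737680400)) (.cons (.rel (nat_lit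 25769821188)) (.cons (.rel (nat_lit 6442469376)) .nil)))) (.cons (.rel (nat_lit 18254139396)) .nil)))))) (.cons (.br (nat_lit 5) (.cons (.rel (nat_lit 21475901460)) (.cons (.rel (nat_lit 21474844800)) (.cons (.rel (nat_lit 21743370240)) .nil)))) (.cons (.rel (nat_lit 34628190213)) .nil)))) (.cons (.br (nat_lit 6) (.cons (.rel (nat_lit 17716748304)) (.cons (.rel (nat_lit 17449386240)) (.cons (.rel (nat_lit 17448308868)) .nil)))) (.cons (.br (nat_lit 6) (.cons (.rel (nat_lit 34628190213)) (.cons (.rel (nat_lit 17448632388)) (.cons (.rel (nat_lit 17449386240)) .nil)))) .nil)))) (.node (.node .leaf (nat_lit 26399036957594476) (.br (nat_lit 1) (.cons (.br (nat_lit 2) (.cons (.rel (nat_lit 84971520)) .nil)) .nil)) .leaf) (nat_lit 26399036960130524) (.br (nat_lit 0) (.cons (.br (nat_lit 1) (.cons (.rel (nat_lit 22022400)) .nil)) .nil)) (.node .leaf (nat_lit 26399037565459932) (.br (nat_lit 1) (.cons (.br (nat_lit 2) (.cons (.rel (nat_lit 100798464)) .nil)) .nil)) .leaf))) (nat_lit 26399079265209820)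 (.br (nat_lit 1) (.cons (.br (nat_lit 2) (.cons (.rel (nat_lit 84935712)) .nil)) .nil)) (.node (.node (.node .leaf (nat_lit 26399079885966812) (.br (nat_lit 4) (.cons (.br (nat_lit 5) (.cons (.rel (nat_lit 5368710273)) .nil)) .nil)) .leaf) (nat_lit 26399083157523932) (.br (nat_lit 0) (.cons (.br (nat_lit 1) (.cons (.rel (nat_lit 37786884)) .nil)) .nil)) (.node .leaf (nat_lit 26399112052090941) (.br (nat_lit 0) (.cons (.br (nat_lit 4) (.cons (.rel (nat_lit 1078984740)) .nil)) .nil)) .leaf)) (nat_lit 26399112052092380) (.br (nat_lit 3) (.cons (.br (nat_lit 0) (.cons (.rel (nat_lit 272630145)) (.cons (.rel (nat_lit 272647314)) .nil))) .nil)) (.node (.node .leaf (nat_lit 26399114895830492) (.br (nat_lit 3) (.cons (.br (nat_lit 4) (.cons (.rel (nat_lit 1610612742)) .nil)) .nil)) .leaf) (nat_lit 26399114904219030) (.br (nat_lit 0) (.cons (.br (nat_lit 2) (.cons (.rel (nat_lit 73400388)) .nil)) .nil)) .leaf))))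

/-- refutations 198 -/
def e198 : EX := (.node (.node (.node (.node (.node (.node .leaf (nat_lit 26399119589258716) (.br (nat_lit 2) (.cons (.br (nat_lit 5) (.cons (.rel (nat_lit 4363157760)) .nil)) .nil)) .leaf) (nat_lit 26399122235864540) (.br (nat_lit 1) (.cons (.br (nat_lit 2) (.cons (.rel (nat_lit 100663305)) (.cons (.rel (nat_lit 83951760)) .nil))) (.cons (.br (nat_lit 2) (.cons (.rel (nat_lit 83951760)) (.cons (.rel (nat_lit 84427776)) .nil))) .nil))) .leaf) (nat_lit 26399122238436828) (.br (nat_lit 4) (.cons (.br (nat_lit 5) (.cons (.rel (nat_lit 5368710273)) .nil)) .nil)) (.node (.node .leaf (nat_lit 26399122835639772) (.br (nat_lit 3) (.cons (.br (nat_lit 4) (.cons (.rel (nat_lit 2415919113)) .nil)) .nil)) .leaf) (nat_lit 26399122835650012) (.br (nat_lit 4) (.cons (.br (nat_lit 5) (.cons (.rel (nat_lit 9663710208)) .nil)) .nil)) .leaf)) (nat_lit 26399122835660252) (.br (nat_lit 1) (.cons (.br (nat_lit 5) (.cons (.rel (nat_lit 4312006992)) .nil)) .nil)) (.node (.node (.node .leaf (nat_lit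 26399122835969437) (.br (nat_lit 1) (.cons (.br (nat_lit 2) (.cons (.rel (nat_lit 84427776)) .nil)) .nil)) .leaf) (nat_lit 26399122837245404) (.br (nat_lit 0) (.cons (.br (nat_lit 5) (.cons (.rel (nat_lit 8598589464)) .nil)) .nil)) .leaf) (nat_lit 26399123452211232) (.br (nat_lit 2) (.cons (.br (nat_lit 4) (.cons (.rel (nat_lit 2281963524)) .nil)) .nil)) (.node (.node .leaf (nat_lit 26399123452211381) (.br (nat_lit 1) (.cons (.br (nat_lit 2) (.cons (.rel (nat_lit 100664340)) .nil)) .nil)) .leaf) (nat_lit 26399123452212011) (.br (nat_lit 3) (.cons (.br (nat_lit 4) (.cons (.br (nat_lit 1) (.cons (.rel (nat_lit 1091569152)) (.cons (.rel (nat_lit 1107829824)) (.cons (.rel (nat_lit 286278912)) .nil)))) .nil)) .nil)) .leaf))) (nat_lit 26399123452212700) (.br (nat_lit 6) (.cons (.br (nat_lit 1) (.cons (.rel (nat_lit 17196647040)) (.cons (.rel (nat_lit 34393382976)) .nil))) .nil)) (.node (.node (.node (.node .leaf (nat_lit 26399125981378012) (.br (nat_lit 5) (.cons (.br (nat_lit 6) (.cons (.rel (nat_lit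 21474844800)) (.cons (.rel (nat_lit 42950000640)) .nil))) .nil)) .leaf) (nat_lit 26399239937045780) (.br (nat_lit 3) (.cons (.br (nat_lit 6) (.cons (.rel (nat_lit 17449353222)) (.cons (.rel (nat_lit 17716748304)) (.cons (.rel (nat_lit 17449353222)) (.cons (.rel (nat_lit 17448829200)) (.cons (.rel (nat_lit 17448370305)) (.cons (.rel (nat_lit 17716756740)) (.cons (.rel (nat_lit 17716761600)) .nil)))))))) (.cons (.br (nat_lit 2) (.cons (.rel (nat_lit 603981057)) (.cons (.br (nat_lit 4) (.cons (.rel (nat_lit 1141374984)) (.cons (.rel (nat_lit 2214660096)) (.cons (.rel (nat_lit 2281963524)) (.cons (.rel (nat_lit 1610612742)) (.cons (.rel (nat_lit 1140850818)) (.cons (.rel (nat_lit 2281963524)) .nil))))))) (.cons (.rel (nat_lit 603997188)) (.cons (.rel (nat_lit 335544456)) .nil))))) (.cons (.br (nat_lit 5) (.cons (.rel (nat_lit 4563928068)) (.cons (.rel (nat_lit 8858371584)) (.cons (.rel (nat_lit 4563665985)) .nil)))) .nil)))) .leaf) (nat_lit 26399239937756017) (.br (nat_lit 3) (.cons (.br (nat_lit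 1) (.cons (.rel (nat_lit 570687492)) (.cons (.rel (nat_lit 286392324)) .nil))) .nil)) (.node (.node .leaf (nat_lit 26399239939353876) (.br (nat_lit 1) (.cons (.br (nat_lit 3) (.cons (.rel (nat_lit 570687492)) .nil)) .nil)) .leaf) (nat_lit 26399239939504155) (.br (nat_lit 2) (.cons (.br (nat_lit 3) (.cons (.rel (nat_lit 671088708)) .nil)) .nil)) .leaf)) (nat_lit 26399240356117880) (.br (nat_lit 5) (.cons (.br (nat_lit 3) (.cons (.rel (nat_lit 9126937920)) (.cons (.rel (nat_lit 4831903749)) .nil))) .nil)) (.node (.node (.node .leaf (nat_lit 26399240356476180) (.br (nat_lit 2) (.cons (.br (nat_lit 5) (.cons (.rel (nat_lit 4362403908)) .nil)) .nil)) .leaf) (nat_lit 26399240358424852) (.br (nat_lit 0) (.cons (.br (nat_lit 1) (.cons (.rel (nat_lit 37765125)) .nil)) .nil)) .leaf) (nat_lit 26399240586845420) (.br (nat_lit 1) (.cons (.br (nat_lit 0) (.cons (.rel (nat_lit 21241920)) (.cons (.rel (nat_lit 22086672)) .nil))) .nil)) (.node .leaf (nat_lit 26399240586845660) (.br (nat_lit 1) (.cons (.br (nat_lit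 0) (.cons (.rel (nat_lit 22022400)) (.cons (.rel (nat_lit 42008640)) .nil))) .nil)) .leaf)))) (nat_lit 26399240999433692) (.br (nat_lit 0) (.cons (.br (nat_lit 1) (.cons (.rel (nat_lit 21102720)) .nil)) .nil)) (.node (.node (.node (.node (.node .leaf (nat_lit 26399242591405432) (.br (nat_lit 0) (.cons (.br (nat_lit 2) (.cons (.rel (nat_lit 71372928)) .nil)) .nil)) .leaf) (nat_lit 26399242591722732) (.br (nat_lit 0) (.cons (.br (nat_lit 1) (.cons (.rel (nat_lit 22086672)) .nil)) .nil)) .leaf) (nat_lit 26399242591722972) (.br (nat_lit 0) (.cons (.br (nat_lit 3) (.cons (.rel (nat_lit 273679368)) .nil)) .nil)) (.node (.node .leaf (nat_lit 26399243094722047) (.br (nat_lit 2) (.cons (.br (nat_lit 5) (.cons (.rel (nat_lit 8657045505)) .nil)) .nil)) .leaf) (nat_lit 26399243094734300) (.br (nat_lit 3) (.cons (.br (nat_lit 4) (.cons (.rel (nat_lit 1342197888)) .nil)) .nil)) .leaf)) (nat_lit 26399243095039332) (.br (nat_lit 2) (.cons (.br (nat_lit 5) (.cons (.rel (nat_lit 4362600720)) .nil)) .nil)) (.node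 (.node (.node .leaf (nat_lit 26399243095356692) (.br (nat_lit 5) (.cons (.br (nat_lit 2) (.cons (.rel (nat_lit 4362354768)) (.cons (.rel (nat_lit 4429332480)) .nil))) .nil)) .leaf) (nat_lit 26399243096262108) (.br (nat_lit 4) (.cons (.br (nat_lit 5) (.cons (.rel (nat_lit 5369839620)) .nil)) .nil)) .leaf) (nat_lit 26399243096574837) (.br (nat_lit 0) (.cons (.br (nat_lit 1) (.cons (.rel (nat_lit 22085637)) .nil)) .nil)) (.node .leaf (nat_lit 26399243096584817) (.br (nat_lit 3) (.cons (.br (nat_lit 5) (.cons (.rel (nat_lit 4563928068)) .nil)) .nil)) .leaf))) (nat_lit 26399243096584952) (.br (nat_lit 2) (.cons (.br (nat_lit 3) (.cons (.rel (nat_lit 336068613)) .nil)) .nil)) (.node (.node (.node (.node .leaf (nat_lit 26399245191874047) (.br (nat_lit 3) (.cons (.br (nat_lit 0) (.cons (.rel (nat_lit 272892228)) (.cons (.rel (nat_lit 273678369)) .nil))) .nil)) .leaf) (nat_lit 26399245192150392) (.br (nat_lit 5) (.cons (.br (nat_lit 2) (.cons (.rel (nat_lit 4362141825)) (.cons (.rel (nat_lit 4363124742))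 .nil))) .nil)) .leaf) (nat_lit 26399245193727452) (.br (nat_lit 0) (.cons (.br (nat_lit 3) (.cons (.rel (nat_lit 272897088)) .nil)) .nil)) (.node (.node .leaf (nat_lit 26399245193781299) (.br (nat_lit 0) (.cons (.br (nat_lit 1) (.cons (.rel (nat_lit 25166337)) .nil)) .nil)) .leaf) (nat_lit 26399245193781524) (.br (nat_lit 0) (.cons (.br (nat_lit 2) (.cons (.rel (nat_lit 71835648)) .nil)) .nil)) .leaf)) (nat_lit 26399245193781929) (.br (nat_lit 5) (.cons (.br (nat_lit 3) (.cons (.rel (nat_lit 4563402912)) (.cons (.rel (nat_lit 4563402912)) (.cons (.rel (nat_lit 4563402912)) (.cons (.rel (nat_lit 4564453893)) .nil))))) .nil)) (.node (.node (.node .leaf (nat_lit 26399245617045565) (.br (nat_lit 3) (.cons (.br (nat_lit 6) (.cons (.rel (nat_lit 17716740609)) .nil)) .nil)) .leaf) (nat_lit 26399245617046286) (.br (nat_lit 5) (.cons (.br (nat_lit 3) (.cons (.rel (nat_lit 9126807621)) (.cons (.rel (nat_lit 9127077120)) (.cons (.rel (nat_lit 4563928068)) .nil)))) .nil)) .leaf) (nat_lit 26399246265628124)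 (.br (nat_lit 0) (.cons (.br (nat_lit 5) (.cons (.rel (nat_lit 4303373568)) .nil)) .nil)) (.node .leaf (nat_lit 26399246266250516) (.br (nat_lit 2) (.cons (.br (nat_lit 5) (.cons (.rel (nat_lit 4362080388)) (.cons (.rel (nat_lit 4363125777)) .nil))) (.cons (.br (nat_lit 5) (.cons (.rel (nat_lit 4363124742)) (.cons (.rel (nat_lit 4362141825)) .nil))) .nil))) .leaf)))))

/-- refutations 199 -/
def e199 : EX := (.node (.node (.node (.node .leaf (nat_lit 26400098930146780) (.br (nat_lit 0) (.cons (.br (nat_lit 6) (.cons (.rel (nat_lit 17184063618)) (.cons (.rel (nat_lit 34363933701)) .nil))) (.cons (.br (nat_lit 6) (.cons (.rel (nat_lit 34368127041)) (.cons (.rel (nat_lit 17185243140)) .nil))) .nil))) .leaf) (nat_lit 26400098930505080) (.br (nat_lit 3) (.cons (.br (nat_lit 6) (.cons (.rel (nat_lit 17449353222)) (.cons (.rel (nat_lit 17448370305)) .nil))) (.cons (.br (nat_lit 1) (.cons (.rel (nat_lit 570687492)) (.cons (.rel (nat_lit 570425409)) (.cons (.rel (nat_lit 570687492)) (.cons (.rel (nat_lit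 570425409)) .nil))))) .nil))) (.node .leaf (nat_lit 26400098930505215) (.br (nat_lit 2) (.cons (.br (nat_lit 3) (.cons (.rel (nat_lit 671088708)) .nil)) .nil)) .leaf)) (nat_lit 26400099349575856) (.br (nat_lit 5) (.cons (.br (nat_lit 3) (.cons (.rel (nat_lit 4564471812)) (.cons (.rel (nat_lit 9126807621)) .nil))) .nil)) (.node (.node .leaf (nat_lit 26400099349575942) (.br (nat_lit 3) (.cons (.br (nat_lit 5) (.cons (.rel (nat_lit 4831840512)) .nil)) .nil)) .leaf) (nat_lit 26400099349577180) (.br (nat_lit 5) (.cons (.br (nat_lit 0) (.cons (.rel (nat_lit 4300210440)) (.cons (.rel (nat_lit 8598324546)) (.cons (.rel (nat_lit 4300215300)) (.cons (.rel (nat_lit 4299182208)) .nil))))) (.cons (.br (nat_lit 0) (.cons (.rel (nat_lit 8594194440)) (.cons (.rel (nat_lit 4300210440)) (.cons (.rel (nat_lit 4300210440)) (.cons (.rel (nat_lit 4303373568)) .nil))))) (.cons (.br (nat_lit 6) (.cons (.rel (nat_lit 25769821188)) (.cons (.rel (nat_lit 42949677120)) (.cons (.rel (nat_lit 42949677120)) (.cons (.rel (nat_lit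 25769807892)) .nil))))) .nil)))) (.node .leaf (nat_lit 26400099349935480) (.br (nat_lit 3) (.cons (.br (nat_lit 5) (.cons (.rel (nat_lit 4831903749)) .nil)) .nil)) .leaf))) (nat_lit 26400099350645417) (.br (nat_lit 1) (.cons (.br (nat_lit 2) (.cons (.rel (nat_lit 84414480)) .nil)) .nil)) (.node (.node (.node .leaf (nat_lit 26400102088202251) (.br (nat_lit 1) (.cons (.br (nat_lit 3) (.cons (.rel (nat_lit 570687492)) .nil)) .nil)) .leaf) (nat_lit 26400102528859612) (.br (nat_lit 4) (.cons (.br (nat_lit 0) (.cons (.rel (nat_lit 1082132736)) (.cons (.rel (nat_lit 1079132160)) (.cons (.rel (nat_lit 2151679488)) .nil)))) .nil)) (.node .leaf (nat_lit 26400104605039222) (.br (nat_lit 0) (.cons (.br (nat_lit 1) (.cons (.rel (nat_lit 21241920)) .nil)) .nil)) .leaf)) (nat_lit 26400104605040092) (.br (nat_lit 1) (.cons (.br (nat_lit 3) (.cons (.rel (nat_lit 286265616)) .nil)) .nil)) (.node (.node .leaf (nat_lit 26400104606627292) (.br (nat_lit 1) (.cons (.br (nat_lit 3) (.cons (.rel (nat_lit 285474885))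 .nil)) .nil)) .leaf) (nat_lit 26400104607856092) (.br (nat_lit 1) (.cons (.br (nat_lit 2) (.cons (.rel (nat_lit 83887488)) .nil)) .nil)) (.node .leaf (nat_lit 26400113201986296) (.br (nat_lit 0) (.cons (.br (nat_lit 3) (.cons (.rel (nat_lit 541196289)) .nil)) .nil)) .leaf))))

/-- refutations 200 -/
def e200 : EX := (.node (.node (.node (.node (.node (.node (.node .leaf (nat_lit 26400314194461557) (.br (nat_lit 1) (.cons (.br (nat_lit 2) (.cons (.rel (nat_lit 151068672)) .nil)) .nil)) .leaf) (nat_lit 26400314194462172) (.br (nat_lit 1) (.cons (.br (nat_lit 2) (.cons (.rel (nat_lit 83887488)) .nil)) .nil)) .leaf) (nat_lit 26400314194752988) (.br (nat_lit 0) (.cons (.br (nat_lit 1) (.cons (.rel (nat_lit 21102720)) .nil)) .nil)) (.node (.node .leaf (nat_lit 26400314202840540) (.br (nat_lit 0) (.cons (.br (nat_lit 4) (.cons (.rel (nat_lit 1078985730)) .nil)) .nil)) .leaf) (nat_lit 26400314202849316) (.br (nat_lit 0) (.cons (.br (nat_lit 1) (.cons (.rel (nat_lit 21565440)) .nil)) .nil)) .leaf)) (nat_lit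 26400314202850780) (.br (nat_lit 0) (.cons (.br (nat_lit 5) (.cons (.rel (nat_lit 8594194440)) .nil)) .nil)) (.node (.node (.node .leaf (nat_lit 26400314236384732) (.br (nat_lit 1) (.cons (.br (nat_lit 2) (.cons (.rel (nat_lit 84971520)) .nil)) .nil)) .leaf) (nat_lit 26400316291614172) (.br (nat_lit 5) (.cons (.br (nat_lit 0) (.cons (.rel (nat_lit 4303486980)) (.cons (.rel (nat_lit 4299182208)) .nil))) .nil)) .leaf) (nat_lit 26400316815880447) (.br (nat_lit 2) (.cons (.br (nat_lit 3) (.cons (.rel (nat_lit 603983892)) .nil)) .nil)) (.node .leaf (nat_lit 26400316815881692) (.br (nat_lit 2) (.cons (.br (nat_lit 5) (.cons (.rel (nat_lit 4362141825)) .nil)) .nil)) .leaf))) (nat_lit 26400316815885173) (.br (nat_lit 0) (.cons (.br (nat_lit 1) (.cons (.rel (nat_lit 23330817)) .nil)) .nil)) (.node (.node (.node (.node .leaf (nat_lit 26400316815891932) (.br (nat_lit 3) (.cons (.br (nat_lit 4) (.cons (.rel (nat_lit 1343226120)) .nil)) .nil)) .leaf) (nat_lit 26400316815901432) (.br (nat_lit 1) (.cons (.br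 (nat_lit 2) (.cons (.rel (nat_lit 83887488)) .nil)) .nil)) .leaf) (nat_lit 26400316815902172) (.br (nat_lit 4) (.cons (.br (nat_lit 2) (.cons (.rel (nat_lit 2281963524)) (.cons (.br (nat_lit 3) (.cons (.rel (nat_lit 1610686464)) (.cons (.rel (nat_lit 603981057)) (.cons (.rel (nat_lit 604080384)) .nil)))) .nil))) .nil)) (.node (.node .leaf (nat_lit 26400316816147932) (.br (nat_lit 4) (.cons (.br (nat_lit 5) (.cons (.rel (nat_lit 6442469376)) .nil)) .nil)) .leaf) (nat_lit 26400316816199132) (.br (nat_lit 2) (.cons (.br (nat_lit 4) (.cons (.rel (nat_lit 1141374984)) .nil)) .nil)) .leaf)) (nat_lit 26400316817471664) (.br (nat_lit 3) (.cons (.br (nat_lit 5) (.cons (.rel (nat_lit 4563928068)) .nil)) .nil)) (.node (.node (.node .leaf (nat_lit 26400316817481904) (.br (nat_lit 4) (.cons (.br (nat_lit 5) (.cons (.rel (nat_lit 9663746052)) .nil)) .nil)) .leaf) (nat_lit 26400316818646272) (.br (nat_lit 2) (.cons (.br (nat_lit 4) (.cons (.rel (nat_lit 1143275520)) .nil)) .nil)) .leaf) (nat_lit 26400316818751664)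 (.br (nat_lit 1) (.cons (.br (nat_lit 2) (.cons (.rel (nat_lit 100663305)) .nil)) .nil)) (.node .leaf (nat_lit 26400316857527552) (.br (nat_lit 2) (.cons (.br (nat_lit 3) (.cons (.rel (nat_lit 336662532)) .nil)) .nil)) .leaf)))) (nat_lit 26400316857529820) (.br (nat_lit 4) (.cons (.br (nat_lit 5) (.cons (.rel (nat_lit 5369766912)) (.cons (.rel (nat_lit 5369233440)) .nil))) .nil)) (.node (.node (.node (.node (.node .leaf (nat_lit 26400316857537947) (.br (nat_lit 2) (.cons (.br (nat_lit 4) (.cons (.rel (nat_lit 1141374984)) .nil)) .nil)) .leaf) (nat_lit 26400316857824512) (.br (nat_lit 0) (.cons (.br (nat_lit 2) (.cons (.rel (nat_lit 75760257)) .nil)) .nil)) .leaf) (nat_lit 26400316857824732) (.br (nat_lit 3) (.cons (.br (nat_lit 0) (.cons (.rel (nat_lit 273170433)) (.cons (.rel (nat_lit 541085712)) .nil))) .nil)) (.node (.node .leaf (nat_lit 26400316857843988) (.br (nat_lit 2) (.cons (.br (nat_lit 0) (.cons (.rel (nat_lit 73400388)) (.cons (.rel (nat_lit 71696448)) .nil))) .nil)) .leaf) (nat_lit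 26400316857845212) (.br (nat_lit 3) (.cons (.br (nat_lit 5) (.cons (.rel (nat_lit 8858403849)) (.cons (.br (nat_lit 6) (.cons (.rel (nat_lit 21474837153)) (.cons (.rel (nat_lit 17449353222)) (.cons (.rel (nat_lit 17449386240)) (.cons (.rel (nat_lit 42949673298)) .nil))))) (.cons (.rel (nat_lit 4831840512)) (.cons (.rel (nat_lit 4564583424)) .nil))))) .nil)) .leaf)) (nat_lit 26400316858090972) (.br (nat_lit 3) (.cons (.br (nat_lit 5) (.cons (.rel (nat_lit 4564471812)) .nil)) .nil)) (.node (.node (.node .leaf (nat_lit 26400316858131867) (.br (nat_lit 2) (.cons (.br (nat_lit 3) (.cons (.rel (nat_lit 671088708)) .nil)) .nil)) .leaf) (nat_lit 26400316858142172) (.br (nat_lit 3) (.cons (.br (nat_lit 0) (.cons (.br (nat_lit 4) (.cons (.rel (nat_lit 1610612742)) (.cons (.rel (nat_lit 2151686148)) .nil))) (.cons (.rel (nat_lit 276842496)) .nil))) .nil)) .leaf) (nat_lit 26400316860388135) (.br (nat_lit 0) (.cons (.br (nat_lit 1) (.cons (.rel (nat_lit 22086672)) .nil)) .nil)) (.node .leaf (nat_lit 26400317361141212)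 (.br (nat_lit 3) (.cons (.br (nat_lit 1) (.cons (.rel (nat_lit 285736968)) (.cons (.rel (nat_lit 286392324)) .nil))) .nil)) .leaf))) (nat_lit 26400317361151452) (.br (nat_lit 0) (.cons (.br (nat_lit 4) (.cons (.rel (nat_lit 1082146833)) .nil)) .nil)) (.node (.node (.node (.node .leaf (nat_lit 26400317361161692) (.br (nat_lit 5) (.cons (.br (nat_lit 3) (.cons (.rel (nat_lit 4564583424)) (.cons (.rel (nat_lit 4564583424)) .nil))) .nil)) .leaf) (nat_lit 26400317361407452) (.br (nat_lit 1) (.cons (.br (nat_lit 5) (.cons (.rel (nat_lit 4311810180)) .nil)) .nil)) .leaf) (nat_lit 26400317453436380) (.br (nat_lit 2) (.cons (.br (nat_lit 5) (.cons (.rel (nat_lit 4362078600)) .nil)) .nil)) (.node (.node .leaf (nat_lit 26400318833360932) (.br (nat_lit 2) (.cons (.br (nat_lit 3) (.cons (.rel (nat_lit 603983892)) .nil)) .nil)) .leaf) (nat_lit 26400318833362396) (.br (nat_lit 4) (.cons (.br (nat_lit 6) (.cons (.rel (nat_lit 18254200833)) (.cons (.rel (nat_lit 18254676480)) (.cons (.rel (nat_lit 19327369473))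 .nil)))) (.cons (.br (nat_lit 1) (.cons (.rel (nat_lit 2164278276)) (.cons (.rel (nat_lit 1091569152)) (.cons (.br (nat_lit 2) (.cons (.rel (nat_lit 100663305)) (.cons (.rel (nat_lit 2281963524)) (.cons (.rel (nat_lit 2214660096)) .nil)))) .nil)))) .nil))) .leaf)) (nat_lit 26400319457997601) (.br (nat_lit 1) (.cons (.br (nat_lit 2) (.cons (.rel (nat_lit 85000704)) .nil)) .nil)) (.node (.node (.node .leaf (nat_lit 26400319457998300) (.br (nat_lit 1) (.cons (.br (nat_lit 5) (.cons (.rel (nat_lit 4312272900)) .nil)) .nil)) .leaf) (nat_lit 26400319458312468) (.br (nat_lit 2) (.cons (.br (nat_lit 3) (.cons (.rel (nat_lit 671088708)) .nil)) .nil)) .leaf) (nat_lit 26400319458312844) (.br (nat_lit 1) (.cons (.br (nat_lit 2) (.cons (.rel (nat_lit 83892360)) .nil)) .nil)) (.node .leaf (nat_lit 26400319458313692) (.br (nat_lit 1) (.cons (.br (nat_lit 5) (.cons (.rel (nat_lit 4312272900)) (.cons (.rel (nat_lit 8606716416)) .nil))) (.cons (.br (nat_lit 2) (.cons (.rel (nat_lit 84427776)) (.cons (.rel (nat_lit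 84971520)) (.cons (.rel (nat_lit 85000704)) (.cons (.rel (nat_lit 151519296)) .nil))))) .nil))) .leaf))))) (nat_lit 26400319458603814) (.br (nat_lit 1) (.cons (.br (nat_lit 4) (.cons (.rel (nat_lit 2181300225)) .nil)) .nil)) (.node (.node (.node (.node (.node (.node .leaf (nat_lit 26400319458603819) (.br (nat_lit 0) (.cons (.br (nat_lit 1) (.cons (.rel (nat_lit 37748994)) .nil)) .nil)) .leaf) (nat_lit 26400319459633452) (.br (nat_lit 1) (.cons (.br (nat_lit 2) (.cons (.rel (nat_lit 151068672)) .nil)) .nil)) .leaf) (nat_lit 26400319459883814) (.br (nat_lit 1) (.cons (.br (nat_lit 3) (.cons (.rel (nat_lit 285212802)) .nil)) .nil)) (.node (.node .leaf (nat_lit 26400319459883819) (.br (nat_lit 5) (.cons (.br (nat_lit 1) (.cons (.rel (nat_lit 4311761040)) (.cons (.rel (nat_lit 4328521761)) .nil))) .nil)) .leaf) (nat_lit 26400319459894054) (.br (nat_lit 2) (.cons (.br (nat_lit 5) (.cons (.rel (nat_lit 4363124742)) .nil)) .nil)) .leaf)) (nat_lit 26400319459894059) (.br (nat_lit 0) (.cons (.br (nat_lit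 1) (.cons (.rel (nat_lit 42008640)) .nil)) .nil)) (.node (.node (.node .leaf (nat_lit 26400319460607452) (.br (nat_lit 4) (.cons (.br (nat_lit 1) (.cons (.rel (nat_lit 1090585248)) (.cons (.rel (nat_lit 1090520208)) .nil))) .nil)) .leaf) (nat_lit 26400320007452124) (.br (nat_lit 2) (.cons (.br (nat_lit 3) (.cons (.rel (nat_lit 671088708)) .nil)) .nil)) .leaf) (nat_lit 26400356661769692) (.br (nat_lit 0) (.cons (.br (nat_lit 5) (.cons (.rel (nat_lit 4299182208)) .nil)) .nil)) (.node .leaf (nat_lit 26400357144114652) (.br (nat_lit 3) (.cons (.br (nat_lit 5) (.cons (.rel (nat_lit 4831903749)) .nil)) .nil)) .leaf))) (nat_lit 26400357146696562) (.br (nat_lit 1) (.cons (.br (nat_lit 3) (.cons (.rel (nat_lit 570687492)) .nil)) .nil)) (.node (.node (.node (.node .leaf (nat_lit 26400357253165113) (.br (nat_lit 0) (.cons (.br (nat_lit 2) (.cons (.rel (nat_lit 138412293)) .nil)) .nil)) .leaf) (nat_lit 26400359166096860) (.br (nat_lit 0) (.cons (.br (nat_lit 2) (.cons (.br (nat_lit 4) (.cons (.rel (nat_lit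 1141374984)) .nil)) .nil)) .nil)) .leaf) (nat_lit 26400359182546396) (.br (nat_lit 3) (.cons (.br (nat_lit 6) (.cons (.rel (nat_lit 17449426944)) .nil)) .nil)) (.node (.node .leaf (nat_lit 26400359241266652) (.br (nat_lit 3) (.cons (.br (nat_lit 0) (.cons (.rel (nat_lit 273170433)) (.cons (.rel (nat_lit 272630145)) .nil))) .nil)) .leaf) (nat_lit 26400359765553407) (.br (nat_lit 1) (.cons (.br (nat_lit 3) (.cons (.rel (nat_lit 285212802)) .nil)) .nil)) .leaf)) (nat_lit 26400359765554437) (.br (nat_lit 3) (.cons (.br (nat_lit 5) (.cons (.rel (nat_lit 4564471812)) (.cons (.rel (nat_lit 4564471812)) .nil))) (.cons (.br (nat_lit 4) (.cons (.rel (nat_lit 2415919113)) (.cons (.rel (nat_lit 1611137088)) .nil))) .nil))) (.node (.node (.node .leaf (nat_lit 26400359765554652) (.br (nat_lit 5) (.cons (.br (nat_lit 0) (.cons (.rel (nat_lit 8594129169)) (.cons (.br (nat_lit 4) (.cons (.rel (nat_lit 5368710273)) (.cons (.rel (nat_lit 2151679488)) .nil))) .nil))) .nil)) .leaf) (nat_lit 26400359765554712) (.br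 (nat_lit 0) (.cons (.br (nat_lit 5) (.cons (.rel (nat_lit 4300226562)) .nil)) .nil)) .leaf) (nat_lit 26400359765564892) (.br (nat_lit 2) (.cons (.br (nat_lit 5) (.cons (.rel (nat_lit 4362080388)) .nil)) .nil)) (.node .leaf (nat_lit 26400359765876119) (.br (nat_lit 0) (.cons (.br (nat_lit 1) (.cons (.rel (nat_lit 22022400)) .nil)) .nil)) .leaf)))) (nat_lit 26400359765882262) (.br (nat_lit 0) (.cons (.br (nat_lit 4) (.cons (.rel (nat_lit 2151679488)) .nil)) .nil)) (.node (.node (.node (.node (.node .leaf (nat_lit 26400359765882332) (.br (nat_lit 2) (.cons (.br (nat_lit 4) (.cons (.rel (nat_lit 1141374984)) .nil)) .nil)) .leaf) (nat_lit 26400359765886359) (.br (nat_lit 2) (.cons (.br (nat_lit 4) (.cons (.rel (nat_lit 2214660096)) .nil)) .nil)) .leaf) (nat_lit 26400359767807237) (.br (nat_lit 0) (.cons (.br (nat_lit 2) (.cons (.rel (nat_lit 71696448)) .nil)) .nil)) (.node (.node .leaf (nat_lit 26400359768114652) (.br (nat_lit 0) (.cons (.br (nat_lit 3) (.cons (.rel (nat_lit 272646276)) .nil)) .nil))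 .leaf) (nat_lit 26400359786217523) (.br (nat_lit 1) (.cons (.br (nat_lit 2) (.cons (.rel (nat_lit 100664340)) .nil)) .nil)) .leaf)) (nat_lit 26400359786524948) (.br (nat_lit 0) (.cons (.br (nat_lit 2) (.cons (.rel (nat_lit 71835648)) .nil)) .nil)) (.node (.node (.node .leaf (nat_lit 26400359786525957) (.br (nat_lit 3) (.cons (.br (nat_lit 6) (.cons (.rel (nat_lit 17449426944)) .nil)) .nil)) .leaf) (nat_lit 26400359786526052) (.br (nat_lit 0) (.cons (.br (nat_lit 2) (.cons (.rel (nat_lit 71696448)) (.cons (.rel (nat_lit 138413328)) .nil))) .nil)) .leaf) (nat_lit 26400359786526172) (.br (nat_lit 3) (.cons (.br (nat_lit 5) (.cons (.rel (nat_lit 4563402912)) .nil)) .nil)) (.node .leaf (nat_lit 26400359786528227) (.br (nat_lit 0) (.cons (.br (nat_lit 1) (.cons (.rel (nat_lit 21102720)) .nil)) .nil)) .leaf))) (nat_lit 26400359786545407) (.br (nat_lit 2) (.cons (.br (nat_lit 4) (.cons (.rel (nat_lit 1142030340)) .nil)) .nil)) (.node (.node (.node (.node .leaf (nat_lit 26400359786853852) (.br (nat_lit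 5) (.cons (.br (nat_lit 4) (.cons (.rel (nat_lit 9663710208)) (.cons (.rel (nat_lit 5369839620)) .nil))) .nil)) .leaf) (nat_lit 26400359786857879) (.br (nat_lit 0) (.cons (.br (nat_lit 1) (.cons (.rel (nat_lit 25166337)) .nil)) .nil)) .leaf) (nat_lit 26400359788126389) (.br (nat_lit 2) (.cons (.br (nat_lit 3) (.cons (.rel (nat_lit 335544456)) (.cons (.rel (nat_lit 671088708)) .nil))) .nil)) (.node (.node .leaf (nat_lit 26400360401506559) (.br (nat_lit 1) (.cons (.br (nat_lit 3) (.cons (.rel (nat_lit 570688530)) .nil)) .nil)) .leaf) (nat_lit 26400362428630277) (.br (nat_lit 0) (.cons (.br (nat_lit 2) (.cons (.rel (nat_lit 142872576)) .nil)) .nil)) .leaf)) (nat_lit 26400362428947932) (.br (nat_lit 2) (.cons (.br (nat_lit 3) (.cons (.rel (nat_lit 402669840)) .nil)) .nil)) (.node (.node (.node .leaf (nat_lit 26400362430472317) (.br (nat_lit 1) (.cons (.br (nat_lit 2) (.cons (.rel (nat_lit 100680192)) .nil)) .nil)) .leaf) (nat_lit 26400362430528294) (.br (nat_lit 0) (.cons (.br (nat_lit 1) (.cons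 (.rel (nat_lit 21565440)) .nil)) .nil)) .leaf) (nat_lit 26400362430538529) (.br (nat_lit 1) (.cons (.br (nat_lit 2) (.cons (.rel (nat_lit 83887488)) .nil)) .nil)) (.node .leaf (nat_lit 26400362431497692) (.br (nat_lit 1) (.cons (.br (nat_lit 4) (.cons (.rel (nat_lit 1091633424)) .nil)) .nil)) .leaf))))))

/-- refutations 201 -/
def e201 : EX := (.node (.node (.node (.node (.node (.node (.node .leaf (nat_lit 26400400114768127) (.br (nat_lit 1) (.cons (.br (nat_lit 2) (.cons (.rel (nat_lit 84414480)) .nil)) .nil)) .leaf) (nat_lit 26400400114769372) (.br (nat_lit 3) (.cons (.br (nat_lit 5) (.cons (.rel (nat_lit 4563402912)) .nil)) .nil)) .leaf) (nat_lit 26400400115089584) (.br (nat_lit 1) (.cons (.br (nat_lit 2) (.cons (.rel (nat_lit 168887424)) .nil)) .nil)) (.node (.node .leaf (nat_lit 26400400116370214) (.br (nat_lit 1) (.cons (.br (nat_lit 2) (.cons (.rel (nat_lit 84935712)) .nil)) .nil)) .leaf) (nat_lit 26400400117072502) (.br (nat_lit 1) (.cons (.br (nat_lit 2) (.cons (.rel (nat_lit 150994950))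 .nil)) .nil)) .leaf)) (nat_lit 26400400135739647) (.br (nat_lit 0) (.cons (.br (nat_lit 5) (.cons (.rel (nat_lit 4300276737)) .nil)) .nil)) (.node (.node (.node .leaf (nat_lit 26400400135740303) (.br (nat_lit 2) (.cons (.br (nat_lit 3) (.cons (.rel (nat_lit 671088708)) .nil)) .nil)) .leaf) (nat_lit 26400400135740892) (.br (nat_lit 0) (.cons (.br (nat_lit 2) (.cons (.rel (nat_lit 142872576)) .nil)) .nil)) .leaf) (nat_lit 26400400138312562) (.br (nat_lit 1) (.cons (.br (nat_lit 2) (.cons (.rel (nat_lit 100925568)) .nil)) .nil)) (.node (.node .leaf (nat_lit 26400400138351527) (.br (nat_lit 1) (.cons (.br (nat_lit 3) (.cons (.rel (nat_lit 285214884)) .nil)) .nil)) .leaf) (nat_lit 26400400219631069) (.br (nat_lit 0) (.cons (.br (nat_lit 5) (.cons (.rel (nat_lit 8594194440)) .nil)) .nil)) .leaf))) (nat_lit 26400400228014342) (.br (nat_lit 2) (.cons (.br (nat_lit 3) (.cons (.rel (nat_lit 671088708)) .nil)) .nil)) (.node (.node (.node (.node .leaf (nat_lit 26400400228014361) (.br (nat_lit 2) (.cons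 (.br (nat_lit 5) (.cons (.rel (nat_lit 4429186050)) .nil)) .nil)) .leaf) (nat_lit 26400400228014730) (.br (nat_lit 0) (.cons (.br (nat_lit 6) (.cons (.rel (nat_lit 34364064000)) .nil)) .nil)) .leaf) (nat_lit 26400400228014742) (.br (nat_lit 0) (.cons (.br (nat_lit 5) (.cons (.rel (nat_lit 4299182208)) (.cons (.rel (nat_lit 4300276737)) .nil))) .nil)) (.node (.node .leaf (nat_lit 26400400228014991) (.br (nat_lit 3) (.cons (.br (nat_lit 6) (.cons (.rel (nat_lit 17716740609)) .nil)) .nil)) .leaf) (nat_lit 26400400228015365) (.br (nat_lit 5) (.cons (.br (nat_lit 6) (.cons (.rel (nat_lit 21475885329)) (.cons (.rel (nat_lit 38654722320)) .nil))) .nil)) .leaf)) (nat_lit 26400400228015460) (.br (nat_lit 2) (.cons (.br (nat_lit 1) (.cons (.rel (nat_lit 84414480)) (.cons (.rel (nat_lit 84414480)) (.cons (.rel (nat_lit 84935712)) (.cons (.rel (nat_lit 84414480)) (.cons (.rel (nat_lit 83887488)) .nil)))))) (.cons (.br (nat_lit 0) (.cons (.rel (nat_lit 71835648)) (.cons (.rel (nat_lit 71372928)) (.cons (.rel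 (nat_lit 71372928)) (.cons (.rel (nat_lit 71372928)) (.cons (.rel (nat_lit 73400388)) (.cons (.rel (nat_lit 72356880)) .nil))))))) .nil))) (.node (.node (.node .leaf (nat_lit 26400400228015580) (.br (nat_lit 6) (.cons (.br (nat_lit 3) (.cons (.rel (nat_lit 17448370305)) (.cons (.br (nat_lit 5) (.cons (.rel (nat_lit 4831842312)) (.cons (.rel (nat_lit 21475885329)) (.cons (.rel (nat_lit 8858371584)) .nil)))) (.cons (.rel (nat_lit 17449353222)) (.cons (.rel (nat_lit 17448370305)) .nil))))) (.cons (.br (nat_lit 3) (.cons (.rel (nat_lit 17448583248)) (.cons (.rel (nat_lit 17449353222)) (.cons (.rel (nat_lit 34628190213)) (.cons (.rel (nat_lit 17448308868)) .nil))))) .nil))) .leaf) (nat_lit 26400400228332820) (.br (nat_lit 0) (.cons (.br (nat_lit 3) (.cons (.rel (nat_lit 273170433)) .nil)) .nil)) .leaf) (nat_lit 26400400228990428) (.br (nat_lit 0) (.cons (.br (nat_lit 3) (.cons (.br (nat_lit 5) (.cons (.rel (nat_lit 4563402912)) .nil)) .nil)) .nil)) (.node .leaf (nat_lit 26400400230791330) (.br (nat_lit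 3) (.cons (.br (nat_lit 6) (.cons (.rel (nat_lit 17448308868)) .nil)) .nil)) .leaf)))) (nat_lit 26400402089991431) (.br (nat_lit 0) (.cons (.br (nat_lit 1) (.cons (.rel (nat_lit 21241920)) .nil)) .nil)) (.node (.node (.node (.node (.node .leaf (nat_lit 26400402090286341) (.br (nat_lit 0) (.cons (.br (nat_lit 1) (.cons (.rel (nat_lit 21102720)) .nil)) .nil)) .leaf) (nat_lit 26400402090286556) (.br (nat_lit 2) (.cons (.br (nat_lit 5) (.cons (.rel (nat_lit 8657043480)) (.cons (.rel (nat_lit 4362109584)) .nil))) (.cons (.br (nat_lit 5) (.cons (.rel (nat_lit 4362080388)) (.cons (.rel (nat_lit 4362080388)) .nil))) .nil))) .leaf) (nat_lit 26400402094472675) (.br (nat_lit 2) (.cons (.br (nat_lit 3) (.cons (.rel (nat_lit 336613392)) .nil)) .nil)) (.node (.node .leaf (nat_lit 26400402094482910) (.br (nat_lit 0) (.cons (.br (nat_lit 3) (.cons (.rel (nat_lit 276889602)) .nil)) .nil)) .leaf) (nat_lit 26400402094777820) (.br (nat_lit 0) (.cons (.br (nat_lit 1) (.cons (.rel (nat_lit 39060480)) .nil)) .nil))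 .leaf)) (nat_lit 26400402094779870) (.br (nat_lit 0) (.cons (.br (nat_lit 1) (.cons (.rel (nat_lit 42008640)) .nil)) .nil)) (.node (.node (.node .leaf (nat_lit 26400402232882652) (.br (nat_lit 0) (.cons (.br (nat_lit 4) (.cons (.rel (nat_lit 1078460673)) .nil)) .nil)) .leaf) (nat_lit 26400402735891712) (.br (nat_lit 4) (.cons (.br (nat_lit 0) (.cons (.rel (nat_lit 2151686148)) (.cons (.rel (nat_lit 1077936516)) .nil))) .nil)) .leaf) (nat_lit 26400402736168192) (.br (nat_lit 0) (.cons (.br (nat_lit 5) (.cons (.rel (nat_lit 8595439620)) .nil)) .nil)) (.node .leaf (nat_lit 26400402736199132) (.br (nat_lit 0) (.cons (.br (nat_lit 2) (.cons (.rel (nat_lit 72356880)) .nil)) .nil)) .leaf))) (nat_lit 26400402736208053) (.br (nat_lit 5) (.cons (.br (nat_lit 0) (.cons (.rel (nat_lit 4299182208)) (.cons (.rel (nat_lit 4300215300)) (.cons (.rel (nat_lit 8595177537)) (.cons (.rel (nat_lit 4299505728)) .nil))))) .nil)) (.node (.node (.node (.node .leaf (nat_lit 26400402736209252) (.br (nat_lit 2) (.cons (.br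 (nat_lit 0) (.cons (.rel (nat_lit 139461696)) (.cons (.rel (nat_lit 73400388)) (.cons (.rel (nat_lit 71372928)) (.cons (.rel (nat_lit 72370176)) (.cons (.rel (nat_lit 71835648)) .nil)))))) .nil)) .leaf) (nat_lit 26400402736209279) (.br (nat_lit 0) (.cons (.br (nat_lit 3) (.cons (.rel (nat_lit 541099008)) (.cons (.rel (nat_lit 273170433)) (.cons (.rel (nat_lit 273220608)) .nil)))) (.cons (.br (nat_lit 1) (.cons (.rel (nat_lit 25174032)) (.cons (.rel (nat_lit 22036497)) .nil))) .nil))) .leaf) (nat_lit 26400402736219612) (.br (nat_lit 5) (.cons (.br (nat_lit 2) (.cons (.rel (nat_lit 4362141825)) (.cons (.rel (nat_lit 4429223940)) .nil))) .nil)) (.node (.node .leaf (nat_lit 26400402736506332) (.br (nat_lit 2) (.cons (.br (nat_lit 5) (.cons (.rel (nat_lit 8724448260)) .nil)) .nil)) .leaf) (nat_lit 26400402736510359) (.br (nat_lit 2) (.cons (.br (nat_lit 3) (.cons (.rel (nat_lit 336068613)) .nil)) .nil)) .leaf)) (nat_lit 26400402736529584) (.br (nat_lit 0) (.cons (.br (nat_lit 4) (.cons (.rel (nat_lit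 1078476804)) .nil)) .nil)) (.node (.node (.node .leaf (nat_lit 26400402737499612) (.br (nat_lit 0) (.cons (.br (nat_lit 3) (.cons (.rel (nat_lit 272646276)) .nil)) .nil)) .leaf) (nat_lit 26400402737754872) (.br (nat_lit 0) (.cons (.br (nat_lit 1) (.cons (.rel (nat_lit 21102720)) .nil)) .nil)) .leaf) (nat_lit 26400402737789104) (.br (nat_lit 0) (.cons (.br (nat_lit 2) (.cons (.rel (nat_lit 142872576)) .nil)) .nil)) (.node .leaf (nat_lit 26400402737789109) (.br (nat_lit 0) (.cons (.br (nat_lit 5) (.cons (.rel (nat_lit 4299428160)) .nil)) .nil)) .leaf))))) (nat_lit 26400402737799344) (.br (nat_lit 0) (.cons (.br (nat_lit 2) (.cons (.rel (nat_lit 73400388)) .nil)) .nil)) (.node (.node (.node (.node (.node (.node .leaf (nat_lit 26400402737809584) (.br (nat_lit 2) (.cons (.br (nat_lit 4) (.cons (.rel (nat_lit 1207980036)) (.cons (.rel (nat_lit 1141374984)) .nil))) .nil)) .leaf) (nat_lit 26400402737809589) (.br (nat_lit 5) (.cons (.br (nat_lit 0) (.cons (.rel (nat_lit 4300210440)) (.cons (.rel (nat_lit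 4303364097)) .nil))) .nil)) .leaf) (nat_lit 26400402738819372) (.br (nat_lit 0) (.cons (.br (nat_lit 1) (.cons (.rel (nat_lit 21102720)) .nil)) .nil)) (.node (.node .leaf (nat_lit 26400402738820007) (.br (nat_lit 0) (.cons (.br (nat_lit 1) (.cons (.rel (nat_lit 21102720)) .nil)) .nil)) .leaf) (nat_lit 26400402739069109) (.br (nat_lit 2) (.cons (.br (nat_lit 5) (.cons (.rel (nat_lit 8657043480)) .nil)) .nil)) .leaf)) (nat_lit 26400402757169187) (.br (nat_lit 0) (.cons (.br (nat_lit 3) (.cons (.rel (nat_lit 272892228)) .nil)) .nil)) (.node (.node (.node .leaf (nat_lit 26400402757170034) (.br (nat_lit 0) (.cons (.br (nat_lit 2) (.cons (.rel (nat_lit 75530244)) .nil)) .nil)) .leaf) (nat_lit 26400402757180198) (.br (nat_lit 1) (.cons (.br (nat_lit 5) (.cons (.rel (nat_lit 4330619265)) .nil)) .nil)) .leaf) (nat_lit 26400402757180677) (.br (nat_lit 5) (.cons (.br (nat_lit 2) (.cons (.rel (nat_lit 4363649088)) (.cons (.rel (nat_lit 4362403908)) .nil))) .nil)) (.node .leaf (nat_lit 26400402757180892)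 (.br (nat_lit 3) (.cons (.br (nat_lit 5) (.cons (.rel (nat_lit 4564533249)) (.cons (.rel (nat_lit 8858371584)) (.cons (.rel (nat_lit 4564583424)) .nil)))) (.cons (.br (nat_lit 4) (.cons (.rel (nat_lit 1343242242)) (.cons (.rel (nat_lit 1343242242)) (.cons (.rel (nat_lit 1610645760)) .nil)))) .nil))) .leaf))) (nat_lit 26400402757191132) (.br (nat_lit 3) (.cons (.br (nat_lit 0) (.cons (.rel (nat_lit 272630145)) (.cons (.rel (nat_lit 541099008)) (.cons (.rel (nat_lit 273686784)) (.cons (.rel (nat_lit 273679368)) .nil))))) (.cons (.br (nat_lit 4) (.cons (.rel (nat_lit 1611137088)) (.cons (.rel (nat_lit 1342767360)) .nil))) .nil))) (.node (.node (.node (.node .leaf (nat_lit 26400402757477852) (.br (nat_lit 3) (.cons (.br (nat_lit 0) (.cons (.rel (nat_lit 273170433)) (.cons (.br (nat_lit 6) (.cons (.rel (nat_lit 17716756740)) (.cons (.rel (nat_lit 17184063618)) .nil))) .nil))) .nil)) .leaf) (nat_lit 26400402757501104) (.br (nat_lit 0) (.cons (.br (nat_lit 2) (.cons (.rel (nat_lit 75628560)) .nil))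 .nil)) .leaf) (nat_lit 26400402758760624) (.br (nat_lit 0) (.cons (.br (nat_lit 5) (.cons (.rel (nat_lit 4299751680)) .nil)) .nil)) (.node (.node .leaf (nat_lit 26400402758770864) (.br (nat_lit 0) (.cons (.br (nat_lit 3) (.cons (.rel (nat_lit 272892228)) .nil)) .nil)) .leaf) (nat_lit 26400402758781104) (.br (nat_lit 0) (.cons (.br (nat_lit 5) (.cons (.rel (nat_lit 8594194440)) .nil)) .nil)) .leaf)) (nat_lit 26400402760040624) (.br (nat_lit 2) (.cons (.br (nat_lit 3) (.cons (.rel (nat_lit 335544456)) .nil)) .nil)) (.node (.node (.node .leaf (nat_lit 26400402826860806) (.br (nat_lit 0) (.cons (.br (nat_lit 2) (.cons (.rel (nat_lit 71303844)) .nil)) .nil)) .leaf) (nat_lit 26400403260487132) (.br (nat_lit 1) (.cons (.br (nat_lit 4) (.cons (.rel (nat_lit 1090520208)) .nil)) .nil)) .leaf) (nat_lit 26400403260507612) (.br (nat_lit 0) (.cons (.br (nat_lit 1) (.cons (.rel (nat_lit 21565440)) .nil)) .nil)) (.node .leaf (nat_lit 26400403373742261) (.br (nat_lit 0) (.cons (.br (nat_lit 5) (.cons (.rel (nat_lit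 4303373568)) .nil)) .nil)) .leaf)))) (nat_lit 26400403373743580) (.br (nat_lit 0) (.cons (.br (nat_lit 5) (.cons (.rel (nat_lit 4299505728)) (.cons (.rel (nat_lit 4300226562)) .nil))) .nil)) (.node (.node (.node (.node (.node .leaf (nat_lit 26400403376047580) (.br (nat_lit 5) (.cons (.br (nat_lit 6) (.cons (.rel (nat_lit 25769807892)) .nil)) .nil)) .leaf) (nat_lit 26400403394704860) (.br (nat_lit 2) (.cons (.br (nat_lit 3) (.cons (.rel (nat_lit 671088708)) .nil)) .nil)) .leaf) (nat_lit 26400403394713781) (.br (nat_lit 2) (.cons (.br (nat_lit 6) (.cons (.rel (nat_lit 17247535104)) .nil)) .nil)) (.node (.node .leaf (nat_lit 26400403394714406) (.br (nat_lit 1) (.cons (.br (nat_lit 2) (.cons (.rel (nat_lit 100798464)) .nil)) .nil)) .leaf) (nat_lit 26400403394715100) (.br (nat_lit 3) (.cons (.br (nat_lit 4) (.cons (.rel (nat_lit 1343242242)) (.cons (.rel (nat_lit 1343242242)) (.cons (.rel (nat_lit 1610645760)) .nil)))) (.cons (.br (nat_lit 5) (.cons (.rel (nat_lit 4831842312)) (.cons (.rel (nat_lit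 4563928068)) .nil))) .nil))) .leaf)) (nat_lit 26400405336360192) (.br (nat_lit 5) (.cons (.br (nat_lit 1) (.cons (.rel (nat_lit 8606713860)) (.cons (.rel (nat_lit 8606713860)) .nil))) .nil)) (.node (.node (.node .leaf (nat_lit 26400405336380672) (.br (nat_lit 2) (.cons (.br (nat_lit 3) (.cons (.rel (nat_lit 336613392)) .nil)) .nil)) .leaf) (nat_lit 26400405336667612) (.br (nat_lit 2) (.cons (.br (nat_lit 4) (.cons (.rel (nat_lit 1140850818)) .nil)) .nil)) .leaf) (nat_lit 26400405336679206) (.br (nat_lit 0) (.cons (.br (nat_lit 1) (.cons (.rel (nat_lit 21565440)) .nil)) .nil)) (.node .leaf (nat_lit 26400405336998694) (.br (nat_lit 1) (.cons (.br (nat_lit 2) (.cons (.rel (nat_lit 83887488)) .nil)) .nil)) .leaf))) (nat_lit 26400405337745589) (.br (nat_lit 2) (.cons (.br (nat_lit 3) (.cons (.rel (nat_lit 336068613)) .nil)) .nil)) (.node (.node (.node (.node .leaf (nat_lit 26400405338267829) (.br (nat_lit 2) (.cons (.br (nat_lit 4) (.cons (.rel (nat_lit 1141374984)) .nil)) .nil)) .leaf) (nat_lit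 26400405338268449) (.br (nat_lit 6) (.cons (.br (nat_lit 1) (.cons (.rel (nat_lit 17196647040)) (.cons (.rel (nat_lit 17198743632)) .nil))) .nil)) .leaf) (nat_lit 26400405338268454) (.br (nat_lit 1) (.cons (.br (nat_lit 2) (.cons (.rel (nat_lit 83887488)) .nil)) .nil)) (.node (.node .leaf (nat_lit 26400405338268459) (.br (nat_lit 2) (.cons (.br (nat_lit 0) (.cons (.rel (nat_lit 142872576)) (.cons (.rel (nat_lit 142872576)) .nil))) .nil)) .leaf) (nat_lit 26400405338278694) (.br (nat_lit 4) (.cons (.br (nat_lit 1) (.cons (.rel (nat_lit 1090520208)) (.cons (.rel (nat_lit 2181076032)) .nil))) .nil)) .leaf)) (nat_lit 26400405338278699) (.br (nat_lit 1) (.cons (.br (nat_lit 4) (.cons (.rel (nat_lit 1091569152)) .nil)) .nil)) (.node (.node (.node .leaf (nat_lit 26400405339537589) (.br (nat_lit 1) (.cons (.br (nat_lit 2) (.cons (.rel (nat_lit 100663305)) .nil)) .nil)) .leaf) (nat_lit 26400405339538688) (.br (nat_lit 1) (.cons (.br (nat_lit 2) (.cons (.rel (nat_lit 150994950)) .nil)) .nil)) .leaf) (nat_lit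 26400540198708082) (.br (nat_lit 0) (.cons (.br (nat_lit 1) (.cons (.rel (nat_lit 25187328)) .nil)) .nil)) (.node .leaf (nat_lit 26400542906935948) (.br (nat_lit 3) (.cons (.br (nat_lit 4) (.cons (.rel (nat_lit 1610612742)) .nil)) .nil)) .leaf))))))

/-- refutations 202 -/
def e202 : EX := (.node (.node (.node (.node .leaf (nat_lit 26400580385997076) (.br (nat_lit 1) (.cons (.br (nat_lit 3) (.cons (.rel (nat_lit 570688530)) .nil)) .nil)) .leaf) (nat_lit 26400628784072156) (.br (nat_lit 1) (.cons (.br (nat_lit 3) (.cons (.rel (nat_lit 570688530)) .nil)) .nil)) .leaf) (nat_lit 26401430789684480) (.br (nat_lit 0) (.cons (.br (nat_lit 3) (.cons (.rel (nat_lit 272646276)) .nil)) .nil)) (.node (.node .leaf (nat_lit 26401433025043932) (.br (nat_lit 0) (.cons (.br (nat_lit 1) (.cons (.rel (nat_lit 42008640)) .nil)) .nil)) .leaf) (nat_lit 26401433026111789) (.br (nat_lit 0) (.cons (.br (nat_lit 3) (.cons (.rel (nat_lit 272630145)) .nil)) .nil)) .leaf)) (nat_lit 26401433507388892) (.br (nat_lit 0) (.cons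 (.br (nat_lit 1) (.cons (.rel (nat_lit 42207489)) .nil)) .nil)) (.node (.node (.node .leaf (nat_lit 26401433529591260) (.br (nat_lit 1) (.cons (.br (nat_lit 2) (.cons (.rel (nat_lit 84971520)) .nil)) .nil)) .leaf) (nat_lit 26401436695059692) (.br (nat_lit 0) (.cons (.br (nat_lit 2) (.cons (.rel (nat_lit 71696448)) (.cons (.rel (nat_lit 71835648)) .nil))) .nil)) .leaf) (nat_lit 26401436696127789) (.br (nat_lit 1) (.cons (.br (nat_lit 4) (.cons (.rel (nat_lit 2164262145)) .nil)) .nil)) (.node .leaf (nat_lit 26401436696650029) (.br (nat_lit 0) (.cons (.br (nat_lit 1) (.cons (.rel (nat_lit 21102720)) .nil)) .nil)) .leaf)))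

/-- refutations 203 -/
def e203 : EX := (.node (.node (.node (.node (.node (.node .leaf (nat_lit 26401473353266407) (.br (nat_lit 0) (.cons (.br (nat_lit 5) (.cons (.rel (nat_lit 4299428160)) .nil)) .nil)) .leaf) (nat_lit 26401473353532892) (.br (nat_lit 6) (.cons (.br (nat_lit 5) (.cons (.rel (nat_lit 42949677120)) (.cons (.rel (nat_lit 38654771460)) .nil))) .nil)) .leaf) (nat_lit 26401473353577129) (.br (nat_lit 6) (.cons (.br (nat_lit 2) (.cons (.rel (nat_lit 17247535104)) (.cons (.rel (nat_lit 34426855428)) .nil))) .nil)) (.node (.node .leaf (nat_lit 26401475933029852) (.br (nat_lit 3) (.cons (.br (nat_lit 5) (.cons (.rel (nat_lit 9126903876)) .nil)) .nil)) .leaf) (nat_lit 26401476478289372) (.br (nat_lit 0) (.cons (.br (nat_lit 5) (.cons (.rel (nat_lit 8594145300)) .nil)) .nil)) .leaf)) (nat_lit 26401476478350812) (.br (nat_lit 3) (.cons (.br (nat_lit 0) (.cons (.rel (nat_lit 541085712)) (.cons (.rel (nat_lit 273686784)) .nil))) .nil)) (.node (.node (.node .leaf (nat_lit 26401476479273141)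 (.br (nat_lit 1) (.cons (.br (nat_lit 4) (.cons (.rel (nat_lit 1090781256)) .nil)) .nil)) .leaf) (nat_lit 26401476479613104) (.br (nat_lit 1) (.cons (.br (nat_lit 3) (.cons (.rel (nat_lit 303316992)) .nil)) .nil)) .leaf) (nat_lit 26401476480657709) (.br (nat_lit 0) (.cons (.br (nat_lit 3) (.cons (.rel (nat_lit 272897088)) (.cons (.rel (nat_lit 273678369)) .nil))) (.cons (.br (nat_lit 3) (.cons (.rel (nat_lit 273678369)) (.cons (.rel (nat_lit 273686784)) .nil))) .nil))) (.node (.node .leaf (nat_lit 26401476499260892) (.br (nat_lit 5) (.cons (.br (nat_lit 6) (.cons (.rel (nat_lit 21475491840)) (.cons (.rel (nat_lit 21475950600)) .nil))) .nil)) .leaf) (nat_lit 26401476500584624) (.br (nat_lit 1) (.cons (.br (nat_lit 2) (.cons (.rel (nat_lit 100798464)) .nil)) .nil)) .leaf))) (nat_lit 26401477002577252) (.br (nat_lit 0) (.cons (.br (nat_lit 1) (.cons (.rel (nat_lit 21005442)) .nil)) .nil)) (.node (.node (.node (.node .leaf (nat_lit 26401477115823580) (.br (nat_lit 1) (.cons (.br (nat_lit 2) (.cons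 (.rel (nat_lit 100664340)) .nil)) .nil)) .leaf) (nat_lit 26401477117870761) (.br (nat_lit 2) (.cons (.br (nat_lit 3) (.cons (.rel (nat_lit 603997188)) (.cons (.rel (nat_lit 402718980)) .nil))) .nil)) .leaf) (nat_lit 26401478474778076) (.br (nat_lit 6) (.cons (.br (nat_lit 0) (.cons (.rel (nat_lit 17184587784)) (.cons (.rel (nat_lit 17184587784)) .nil))) .nil)) (.node (.node .leaf (nat_lit 26401479603045852) (.br (nat_lit 0) (.cons (.br (nat_lit 3) (.cons (.rel (nat_lit 272897088)) .nil)) .nil)) .leaf) (nat_lit 26401479605093128) (.br (nat_lit 0) (.cons (.br (nat_lit 1) (.cons (.rel (nat_lit 22036497)) .nil)) .nil)) .leaf)) (nat_lit 26401479605093852) (.br (nat_lit 0) (.cons (.br (nat_lit 3) (.cons (.rel (nat_lit 272892228)) .nil)) .nil)) (.node (.node (.node .leaf (nat_lit 26401479605138219) (.br (nat_lit 1) (.cons (.br (nat_lit 2) (.cons (.rel (nat_lit 84935712)) .nil)) .nil)) .leaf) (nat_lit 26401602168700180) (.br (nat_lit 3) (.cons (.br (nat_lit 2) (.cons (.rel (nat_lit 603981057)) (.cons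 (.rel (nat_lit 335544456)) .nil))) .nil)) .leaf) (nat_lit 26401602169057962) (.br (nat_lit 4) (.cons (.br (nat_lit 5) (.cons (.rel (nat_lit 6442451220)) .nil)) .nil)) (.node .leaf (nat_lit 26401602169058180) (.br (nat_lit 3) (.cons (.br (nat_lit 4) (.cons (.rel (nat_lit 1343242242)) .nil)) .nil)) .leaf)))) (nat_lit 26401602169058190) (.br (nat_lit 5) (.cons (.br (nat_lit 0) (.cons (.rel (nat_lit 8594129169)) (.cons (.rel (nat_lit 4300210440)) .nil))) .nil)) (.node (.node (.node (.node (.node .leaf (nat_lit 26401602169058207) (.br (nat_lit 5) (.cons (.br (nat_lit 3) (.cons (.rel (nat_lit 4563402912)) (.cons (.rel (nat_lit 4563928068)) .nil))) .nil)) .leaf) (nat_lit 26401602169058561) (.br (nat_lit 5) (.cons (.br (nat_lit 0) (.cons (.rel (nat_lit 4299458625)) (.cons (.rel (nat_lit 4300276737)) .nil))) .nil)) .leaf) (nat_lit 26401602169058565) (.br (nat_lit 5) (.cons (.br (nat_lit 0) (.cons (.rel (nat_lit 4303486980)) (.cons (.rel (nat_lit 4299182208)) .nil))) .nil)) (.node (.node .leaf (nat_lit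 26401602169058590) (.br (nat_lit 5) (.cons (.br (nat_lit 0) (.cons (.rel (nat_lit 4303364097)) (.cons (.rel (nat_lit 4300476576)) (.cons (.rel (nat_lit 4300276737)) (.cons (.rel (nat_lit 4300215300)) .nil))))) .nil)) .leaf) (nat_lit 26401602169058717) (.br (nat_lit 0) (.cons (.br (nat_lit 3) (.cons (.rel (nat_lit 276829200)) .nil)) .nil)) .leaf)) (nat_lit 26401602169058780) (.br (nat_lit 0) (.cons (.br (nat_lit 3) (.cons (.rel (nat_lit 273170433)) (.cons (.rel (nat_lit 276824340)) (.cons (.rel (nat_lit 545326404)) (.cons (.rel (nat_lit 272646276)) (.cons (.rel (nat_lit 541099008)) .nil)))))) (.cons (.br (nat_lit 6) (.cons (.br (nat_lit 2) (.cons (.rel (nat_lit 17314089216)) (.cons (.rel (nat_lit 138428424)) (.cons (.rel (nat_lit 142872576)) (.cons (.rel (nat_lit 138428424)) (.cons (.rel (nat_lit 17314091016)) (.cons (.rel (nat_lit 71835648)) (.cons (.rel (nat_lit 138428424)) (.cons (.rel (nat_lit 71372928)) (.cons (.rel (nat_lit 17314089216)) (.cons (.rel (nat_lit 17248027908)) (.cons (.rel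 (nat_lit 71372928)) .nil)))))))))))) (.cons (.rel (nat_lit 34368389124)) .nil))) .nil))) (.node (.node (.node .leaf (nat_lit 26401602169768836) (.br (nat_lit 1) (.cons (.br (nat_lit 4) (.cons (.rel (nat_lit 1090519173)) .nil)) .nil)) .leaf) (nat_lit 26401602170332017) (.br (nat_lit 6) (.cons (.br (nat_lit 0) (.cons (.rel (nat_lit 34368127041)) (.cons (.rel (nat_lit 17184063618)) .nil))) .nil)) .leaf) (nat_lit 26401602171312410) (.br (nat_lit 0) (.cons (.br (nat_lit 2) (.cons (.rel (nat_lit 72370176)) .nil)) .nil)) (.node (.node .leaf (nat_lit 26401602171506140) (.br (nat_lit 0) (.cons (.br (nat_lit 2) (.cons (.rel (nat_lit 71696448)) (.cons (.rel (nat_lit 75628560)) .nil))) .nil)) .leaf) (nat_lit 26401602307470812) (.br (nat_lit 0) (.cons (.br (nat_lit 2) (.cons (.rel (nat_lit 142671942)) .nil)) .nil)) .leaf))) (nat_lit 26401602588130580) (.br (nat_lit 3) (.cons (.br (nat_lit 5) (.cons (.rel (nat_lit 4831903749)) .nil)) .nil)) (.node (.node (.node (.node .leaf (nat_lit 26401602588489180) (.br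 (nat_lit 0) (.cons (.br (nat_lit 1) (.cons (.rel (nat_lit 42008640)) (.cons (.rel (nat_lit 37748994)) .nil))) (.cons (.br (nat_lit 1) (.cons (.rel (nat_lit 42008640)) (.cons (.rel (nat_lit 21516312)) .nil))) .nil))) .leaf) (nat_lit 26401605305773317) (.br (nat_lit 2) (.cons (.br (nat_lit 4) (.cons (.rel (nat_lit 1141374984)) .nil)) .nil)) .leaf) (nat_lit 26401605306070492) (.br (nat_lit 2) (.cons (.br (nat_lit 3) (.cons (.rel (nat_lit 671088708)) .nil)) .nil)) (.node (.node .leaf (nat_lit 26401605306397572) (.br (nat_lit 1) (.cons (.br (nat_lit 4) (.cons (.rel (nat_lit 1090519173)) .nil)) .nil)) .leaf) (nat_lit 26401605306398102) (.br (nat_lit 0) (.cons (.br (nat_lit 3) (.cons (.rel (nat_lit 541099008)) .nil)) .nil)) .leaf)) (nat_lit 26401605306398172) (.br (nat_lit 2) (.cons (.br (nat_lit 3) (.cons (.rel (nat_lit 335544456)) (.cons (.rel (nat_lit 671088708)) (.cons (.rel (nat_lit 603983892)) .nil)))) .nil)) (.node (.node (.node .leaf (nat_lit 26401605307626372) (.br (nat_lit 2) (.cons (.br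 (nat_lit 1) (.cons (.rel (nat_lit 150994950)) (.cons (.rel (nat_lit 83887488)) .nil))) .nil)) .leaf) (nat_lit 26401605939738076) (.br (nat_lit 1) (.cons (.br (nat_lit 4) (.cons (.rel (nat_lit 1091043330)) (.cons (.rel (nat_lit 2164278276)) .nil))) .nil)) .leaf) (nat_lit 26401605985547740) (.br (nat_lit 3) (.cons (.br (nat_lit 4) (.cons (.rel (nat_lit 1343226120)) (.cons (.rel (nat_lit 2416054272)) .nil))) .nil)) (.node .leaf (nat_lit 26401607319662649) (.br (nat_lit 1) (.cons (.br (nat_lit 2) (.cons (.rel (nat_lit 83887488)) .nil)) .nil)) .leaf)))))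

/-- refutations 204 -/
def e204 : EX := (.node (.node (.node (.node (.node .leaf (nat_lit 26401645156459996) (.br (nat_lit 4) (.cons (.br (nat_lit 6) (.cons (.rel (nat_lit 19327385604)) .nil)) .nil)) .leaf) (nat_lit 26401645236151772) (.br (nat_lit 2) (.cons (.br (nat_lit 4) (.cons (.rel (nat_lit 2281836612)) .nil)) .nil)) (.node .leaf (nat_lit 26401645560097430) (.br (nat_lit 1) (.cons (.br (nat_lit 2) (.cons (.rel (nat_lit 83887488)) .nil)) .nil)) .leaf)) (nat_lit 26401647631099286) (.br (nat_lit 3) (.cons (.br (nat_lit 4) (.cons (.rel (nat_lit 1343230980)) .nil)) .nil)) (.node (.node .leaf (nat_lit 26401647836640732) (.br (nat_lit 0) (.cons (.br (nat_lit 1) (.cons (.rel (nat_lit 42008640)) .nil)) .nil)) .leaf) (nat_lit 26401648277021982) (.br (nat_lit 2) (.cons (.br (nat_lit 4) (.cons (.rel (nat_lit 1142030340)) .nil)) .nil)) .leaf)) (nat_lit 26401648277022172) (.br (nat_lit 5) (.cons (.br (nat_lit 6) (.cons (.rel (nat_lit 21475885329)) .nil)) .nil)) (.node (.node (.node .leaf (nat_lit 26401648277032412)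 (.br (nat_lit 3) (.cons (.br (nat_lit 5) (.cons (.rel (nat_lit 4831842312)) .nil)) .nil)) .leaf) (nat_lit 26401648277042652) (.br (nat_lit 2) (.cons (.br (nat_lit 3) (.cons (.rel (nat_lit 335806530)) .nil)) .nil)) (.node .leaf (nat_lit 26401648278260622) (.br (nat_lit 0) (.cons (.br (nat_lit 2) (.cons (.br (nat_lit 1) (.cons (.rel (nat_lit 42008640)) (.cons (.rel (nat_lit 150994950)) (.cons (.rel (nat_lit 42008640)) .nil)))) .nil)) .nil)) .leaf)) (nat_lit 26401650273510876) (.br (nat_lit 4) (.cons (.br (nat_lit 6) (.cons (.rel (nat_lit 19327385604)) .nil)) .nil)) (.node (.node .leaf (nat_lit 26401650797798013) (.br (nat_lit 1) (.cons (.br (nat_lit 2) (.cons (.rel (nat_lit 83887488)) .nil)) .nil)) .leaf) (nat_lit 26401690622725497) (.br (nat_lit 0) (.cons (.br (nat_lit 2) (.cons (.rel (nat_lit 71835648)) (.cons (.rel (nat_lit 71372928)) .nil))) .nil)) .leaf))) (nat_lit 26401690626317788) (.br (nat_lit 1) (.cons (.br (nat_lit 5) (.cons (.rel (nat_lit 4312809984)) .nil)) .nil)) (.node (.node (.node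 (.node .leaf (nat_lit 26401690626918705) (.br (nat_lit 0) (.cons (.br (nat_lit 1) (.cons (.rel (nat_lit 21565440)) .nil)) .nil)) .leaf) (nat_lit 26401690629367260) (.br (nat_lit 0) (.cons (.br (nat_lit 1) (.cons (.rel (nat_lit 21102720)) .nil)) .nil)) (.node .leaf (nat_lit 26401691247062272) (.br (nat_lit 2) (.cons (.br (nat_lit 6) (.cons (.rel (nat_lit 34426855428)) .nil)) .nil)) .leaf)) (nat_lit 26401691247379932) (.br (nat_lit 3) (.cons (.br (nat_lit 5) (.cons (.rel (nat_lit 4564451856)) (.cons (.rel (nat_lit 4831854609)) .nil))) .nil)) (.node (.node .leaf (nat_lit 26401691247666028) (.br (nat_lit 1) (.cons (.br (nat_lit 2) (.cons (.rel (nat_lit 151027968)) .nil)) .nil)) .leaf) (nat_lit 26401691247666652) (.br (nat_lit 0) (.cons (.br (nat_lit 4) (.cons (.rel (nat_lit 1077936516)) .nil)) .nil)) .leaf)) (nat_lit 26401691247676074) (.br (nat_lit 2) (.cons (.br (nat_lit 4) (.cons (.rel (nat_lit 2281701441)) .nil)) .nil)) (.node (.node (.node .leaf (nat_lit 26401691247676292) (.br (nat_lit 2)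 (.cons (.br (nat_lit 1) (.cons (.rel (nat_lit 84414480)) (.cons (.rel (nat_lit 84427776)) (.cons (.rel (nat_lit 150994950)) .nil)))) .nil)) .leaf) (nat_lit 26401691247676793) (.br (nat_lit 1) (.cons (.br (nat_lit 2) (.cons (.rel (nat_lit 84414480)) .nil)) .nil)) (.node .leaf (nat_lit 26401691247676892) (.br (nat_lit 6) (.cons (.br (nat_lit 3) (.cons (.rel (nat_lit 17449386240)) (.cons (.rel (nat_lit 17448308868)) .nil))) .nil)) .leaf)) (nat_lit 26401691247687132) (.br (nat_lit 3) (.cons (.br (nat_lit 4) (.cons (.rel (nat_lit 1343226120)) .nil)) .nil)) (.node (.node .leaf (nat_lit 26401691250134492) (.br (nat_lit 1) (.cons (.br (nat_lit 0) (.cons (.rel (nat_lit 23330817)) (.cons (.rel (nat_lit 25174032)) .nil))) .nil)) .leaf) (nat_lit 26401691842971100) (.br (nat_lit 2) (.cons (.br (nat_lit 5) (.cons (.rel (nat_lit 4362078600)) .nil)) .nil)) .leaf))))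

/-- refutations 205 -/
def e205 : EX := (.node .leaf (nat_lit 26407251645853149) (.br (nat_lit 0) (.cons (.br (nat_lit 1) (.cons (.rel (nat_lit 42008640)) .nil)) .nil)) .leaf)

/-- refutations 206 -/
def e206 : EX := (.node (.node .leaf (nat_lit 26417705386323420) (.br (nat_lit 1) (.cons (.br (nat_lit 5) (.cons (.rel (nat_lit 4311761040)) .nil)) .nil)) .leaf) (nat_lit 26419245936633988) (.br (nat_lit 0) (.cons (.br (nat_lit 5) (.cons (.rel (nat_lit 4303486980)) .nil)) .nil)) (.node .leaf (nat_lit 26419245936635356) (.br (nat_lit 0) (.cons (.br (nat_lit 3) (.cons (.rel (nat_lit 272646276)) (.cons (.rel (nat_lit 272630145)) .nil))) .nil)) .leaf))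

/-- refutations 207 -/
def e207 : EX := (.node .leaf (nat_lit 26429365487463177) (.br (nat_lit 1) (.cons (.br (nat_lit 2) (.cons (.rel (nat_lit 84414480)) .nil)) .nil)) .leaf)

/-- refutations 208 -/
def e208 : EX := (.node (.node .leaf (nat_lit 26431429582835101) (.br (nat_lit 4) (.cons (.br (nat_lit 5) (.cons (.rel (nat_lit 10737566784)) .nil)) .nil)) .leaf) (nat_lit 26431430216174380) (.br (nat_lit 0) (.cons (.br (nat_lit 1) (.cons (.rel (nat_lit 22022400)) .nil)) .nil)) (.node .leaf (nat_lit 26436838122681822) (.br (nat_lit 1) (.cons (.br (nat_lit 2) (.cons (.rel (nat_lit 83903622)) .nil)) .nil)) .leaf))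

/-- refutations 211 -/
def e211 : EX := (.node .leaf (nat_lit 26917124283035130) (.br (nat_lit 3) (.cons (.br (nat_lit 5) (.cons (.rel (nat_lit 9126805584)) .nil)) .nil)) .leaf)

/-- refutations 212 -/
def e212 : EX := (.node (.node (.node .leaf (nat_lit 26923563588005370) (.br (nat_lit 0) (.cons (.br (nat_lit 1) (.cons (.rel (nat_lit 25187328)) (.cons (.rel (nat_lit 22022400)) .nil))) .nil)) .leaf) (nat_lit 26923563590885437) (.br (nat_lit 1) (.cons (.br (nat_lit 2) (.cons (.rel (nat_lit 83951760)) .nil)) .nil)) .leaf) (nat_lit 26923649511398182) (.br (nat_lit 4) (.cons (.br (nat_lit 5) (.cons (.rel (nat_lit 5369790480)) .nil)) .nil)) (.node .leaf (nat_lit 26924036121461987) (.br (nat_lit 2) (.cons (.br (nat_lit 3) (.cons (.rel (nat_lit 336613392)) .nil)) .nil)) .leaf))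

/-- refutations 214 -/
def e214 : EX := (.node (.node (.node .leaf (nat_lit 27011610399677228) (.br (nat_lit 3) (.cons (.br (nat_lit 5) (.cons (.rel (nat_lit 4564471812)) .nil)) .nil)) .leaf) (nat_lit 27014795794318812) (.br (nat_lit 2) (.cons (.br (nat_lit 6) (.cons (.rel (nat_lit 17246994816)) .nil)) .nil)) .leaf) (nat_lit 27014799820850652) (.br (nat_lit 3) (.cons (.br (nat_lit 0) (.cons (.rel (nat_lit 276824340)) (.cons (.rel (nat_lit 273679368)) (.cons (.rel (nat_lit 272630145)) .nil)))) .nil)) (.node .leaf (nat_lit 27016126005566940) (.br (nat_lit 0) (.cons (.br (nat_lit 1) (.cons (.rel (nat_lit 21102720)) .nil)) .nil)) .leaf))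

/-- refutations 215 -/
def e215 : EX := (.node (.node .leaf (nat_lit 27444884734733588) (.br (nat_lit 3) (.cons (.br (nat_lit 4) (.cons (.rel (nat_lit 1343230980)) .nil)) .nil)) .leaf) (nat_lit 27445400005040390) (.br (nat_lit 2) (.cons (.br (nat_lit 5) (.cons (.rel (nat_lit 4429185060)) .nil)) .nil)) .leaf)

/-- refutations 216 -/
def e216 : EX := (.node (.node .leaf (nat_lit 27455893591602652) (.br (nat_lit 3) (.cons (.br (nat_lit 5) (.cons (.rel (nat_lit 4831842312)) .nil)) .nil)) .leaf) (nat_lit 27456922246975619) (.br (nat_lit 2) (.cons (.br (nat_lit 3) (.cons (.rel (nat_lit 336723969)) .nil)) .nil)) (.node .leaf (nat_lit 27456922246975664) (.br (nat_lit 3) (.cons (.br (nat_lit 5) (.cons (.rel (nat_lit 4564451856)) .nil)) .nil)) .leaf))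

/-- refutations 219 -/
def e219 : EX := (.node (.node .leaf (nat_lit 27486832403416602) (.br (nat_lit 0) (.cons (.br (nat_lit 4) (.cons (.rel (nat_lit 1078985730)) .nil)) .nil)) .leaf) (nat_lit 27489750499745306) (.br (nat_lit 3) (.cons (.br (nat_lit 5) (.cons (.rel (nat_lit 4832116884)) .nil)) .nil)) .leaf)

/-- refutations 220 -/
def e220 : EX := (.node (.node .leaf (nat_lit 24841550303342629) (.br (nat_lit 0) (.cons (.br (nat_lit 4) (.cons (.rel (nat_lit 1078984740)) .nil)) .nil)) .leaf) (nat_lit 24841550305250711) (.br (nat_lit 0) (.cons (.br (nat_lit 2) (.cons (.rel (nat_lit 71696448)) .nil)) .nil)) .leaf)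

/-- list of the parts -/
def L1 : List (ℕ × List ℕ) := [(nat_lit 0x20000000000000000000000000000000000000000000000000000000000000000000000000000000000000000000000000000000000000000000000000000000000000000000000000000000000000000000000000000000000000000000000000000000000000000000000000000000000, [Nat.sub (Nat.pow 2 806) (Nat.pow 2 0), Nat.sub (Nat.pow 2 3136) (Nat.pow 2 806)]),
  (nat_lit 0x40000000000000000000000000000000000000000000000000000000000000000000000000000000000000000000000000000000000000000000000000000000000000000000000000000000000000000000000000000000000000000000000000000000000000000000000000000000000, [Nat.sub (Nat.pow 2 759) (Nat.pow 2 0), Nat.sub (Nat.pow 2 1255) (Nat.pow 2 759), Nat.sub (Nat.pow 2 1565) (Nat.pow 2 1255), Nat.sub (Nat.pow 2 3136) (Nat.pow 2 1565)]),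
  (nat_lit 0x400000000000000000000000000000000000000000000000000000000000000000000000000000000000000000000000000000000000000000000000000000000000000000000000000000000000000000000000000000000000000000000000000000000000000000000000000000000000, [Nat.sub (Nat.pow 2 815) (Nat.pow 2 0), Nat.sub (Nat.pow 2 3136) (Nat.pow 2 815)]),
  (nat_lit 0x800000000000000000000000000000000000000000000000000000000000000000000000000000000000000000000000000000000000000000000000000000000000000000000000000000000000000000000000000000000000000000000000000000000000000000000000000000000000, [Nat.sub (Nat.pow 2 684) (Nat.pow 2 0), Nat.sub (Nat.pow 2 1255) (Nat.pow 2 684), Nat.sub (Nat.pow 2 3136) (Nat.pow 2 1255)]),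
  (nat_lit 0x4000000000000000000000000000000000000000000000000000000000000000000000000000000000000000000000000000000000000000000000000000000000000000000000000000000000000000000000000000000000000000000000000000000000000000000000000000000000000, [Nat.sub (Nat.pow 2 790) (Nat.pow 2 0), Nat.sub (Nat.pow 2 3136) (Nat.pow 2 790)]),
  (nat_lit 0x8000000000000000000000000000000000000000000000000000000000000000000000000000000000000000000000000000000000000000000000000000000000000000000000000000000000000000000000000000000000000000000000000000000000000000000000000000000000000, [Nat.sub (Nat.pow 2 806) (Nat.pow 2 0), Nat.sub (Nat.pow 2 3136) (Nat.pow 2 806)]),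
  (nat_lit 0x4000000000000000000000000000000000000000000000000000000000000000000000000000000000000000000000000000000000000000000000000000000000000000000000000000000000000000000000000000000000000000000000000000000000000000000000000000000, [cP]),
  (nat_lit 0x80000000000000000000000000000000000000000000000000000000000000000000000000000000000000000000000000000000000000000000000000000000000000000000000000000000000000000000000000000000000000000000000000000000000000000000000000000000000000000, [Nat.sub (Nat.pow 2 780) (Nat.pow 2 0), Nat.sub (Nat.pow 2 1405) (Nat.pow 2 780), Nat.sub (Nat.pow 2 3136) (Nat.pow 2 1405)]),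
  (nat_lit 0x400000000000000000000000000000000000000000000000000000000000000000000000000000000000000000000000000000000000000000000000000000000000000000000000000000000000000000000000000000000000000000000000000000000000000000000000000000000000000000, [Nat.sub (Nat.pow 2 914) (Nat.pow 2 0), Nat.sub (Nat.pow 2 3136) (Nat.pow 2 914)]),
  (nat_lit 0x40000000000000000000000000000000000000000000000000000000000000000000000000000000000000000000000000000000000000000000000000000000000000000000000000000000000000000000000000000000000000000000000000000000000000000000000000000000000000000, [cP]),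
  (nat_lit 0x8000000000000000000000000000000000000000000000000000000000000000000000000000000000000000000000000000000000000000000000000000000000000000000000000000000000000000000000000000000000000000000000000000000000000000000000000000000000000000000, [cP]),
  (nat_lit 0x20000000000000000000000000000000000000000000000000000000000000000000000000000000000000000000000000000000000000000000000000000000000000000000000000000000000000000000000000000000000000000000000000000000000000000000000000000000000000000000, [Nat.sub (Nat.pow 2 759) (Nat.pow 2 0), Nat.sub (Nat.pow 2 1280) (Nat.pow 2 759), Nat.sub (Nat.pow 2 3136) (Nat.pow 2 1280)]),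
  (nat_lit 0x800000000000000000000000000000000000000000000000000000000000000000000000000000000000000000000000000000000000000000000000000000000000000000000000000000000000000000000000000000000000000000000000000000000000000000000000000000000000000000000000000000000000000000000000000000000000000000000000000000000000000000000000000, [Nat.sub (Nat.pow 2 935) (Nat.pow 2 0), Nat.sub (Nat.pow 2 1565) (Nat.pow 2 935), Nat.sub (Nat.pow 2 3136) (Nat.pow 2 1565)]),
  (nat_lit 0x10000000000000000000000000000000000000000000000000000000000000000000000000000000000000000000000000000000000000000000000000000000000000000000000000000000000000000000000000000000000000000000000000000000000000000000000000000000000000000000, [cP]),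
  (nat_lit 0x1000000000000000000000000000000000000000000000000000000000000000000000000000000000000000000000000000000000000000000000000000000000000000000000000000000000000000000000000000000000000000000000000000000000000000000000000000000000000000000000000000000000000000000000000000000000000000000000000000000000000000000000000000, [cP]),
  (nat_lit 0x1000000000000000000000000000000000000000000000000000000000000000000000000000000000000000000000000000000000000000000000000000000000000000000000000000000000000000000000000000000000000000000000000000000000000000000000000000000000000000000000000000000000000000000000000000000000000000000000000000000000000000000000000000000000, [Nat.sub (Nat.pow 2 939) (Nat.pow 2 0), Nat.sub (Nat.pow 2 3136) (Nat.pow 2 939)]),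
  (nat_lit 0x20000000000000000000000000000000000000000000000000000000000000000000000000000000000000000000000000000000000000000000000000000000000000000000000000000000000000000000000000000000000000000000000000000000000000000000000000000000000000000000000000000000000000000000000000000000000000000000000000000000000000000000000000000000000, [Nat.sub (Nat.pow 2 929) (Nat.pow 2 0), Nat.sub (Nat.pow 2 3136) (Nat.pow 2 929)]),
  (nat_lit 0x80000000000000000000000000000000000000000000000000000000000000000000000000000000000000000000000000000000000000000000000000000000000000000000000000000000000000000000000000000000000000000000000000000000000000000000000000000000000000000000000000000000000000000000000000000000000000000000000000000000000000000000000000000000000, [Nat.sub (Nat.pow 2 636) (Nat.pow 2 0), Nat.sub (Nat.pow 2 929) (Nat.pow 2 636), Nat.sub (Nat.pow 2 1405) (Nat.pow 2 929), Nat.sub (Nat.pow 2 1561) (Nat.pow 2 1405), Nat.sub (Nat.pow 2 3136) (Nat.pow 2 1561)]),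
  (nat_lit 0x100000000000000000000000000000000000000000000000000000000000000000000000000000000000000000000000000000000000000000000000000000000000000000000000000000000000000000000000000000000000000000000000000000000000000000000000000000000000000000000000000000000000000000000000000000000000000000000000000000000000000000000000000000000000000, [Nat.sub (Nat.pow 2 1260) (Nat.pow 2 0), Nat.sub (Nat.pow 2 1565) (Nat.pow 2 1260), Nat.sub (Nat.pow 2 3136) (Nat.pow 2 1565)]),
  (nat_lit 0x20000000000000000000000000000000000000000000000000000000000000000000000000000000000000000000000000000000000000000000000000000000000000000000000000000000000000000000000000000000000000000000000000000000000000000000000000000000000000000000000000000000000000000000000000000000000000000000000000000000000000000000000000000, [cP]),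
  (nat_lit 0x2000000000000000000000000000000000000000000000000000000000000000000000000000000000000000000000000000000000000000000000000000000000000000000000000000000000000000000000000000000000000000000000000000000000000000000000000000000000000000000000000000000000000000000000000000000000000000000000000000000000000000000000000000000000000000, [Nat.sub (Nat.pow 2 785) (Nat.pow 2 0), Nat.sub (Nat.pow 2 1565) (Nat.pow 2 785), Nat.sub (Nat.pow 2 3136) (Nat.pow 2 1565)]),
  (nat_lit 0x40000000000000000000000000000000000000000000000000000000000000000000000000000000000000000000000000000000000000000000000000000000000000000000000000000000000000000000000000000000000000000000000000000000000000000000000000000000000000000000000000000000000000000000000000000000000000000000000000000000000000000000000000000000000000000, [Nat.sub (Nat.pow 2 939) (Nat.pow 2 0), Nat.sub (Nat.pow 2 3136) (Nat.pow 2 939)]),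
  (nat_lit 0x400000000000000000000000000000000000000000000000000000000000000000000000000000000000000000000000000000000000000000000000000000000000000000000000000000000000000000000000000000000000000000000000000000000000000000000000000000000000000000000000000000000000000000000000000000000000000000000000000000000000000000000000000000000000000, [cP]),
  (nat_lit 0x80000000000000000000000000000000000000000000000000000000000000000000000000000000000000000000000000000000000000000000000000000000000000000000000000000000000000000000000000000000000000000000000000000000000000000000000000000000000000000000000000000000000000000000000000000000000000000000000000000000000000000000000000000000000000000, [cP]),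
  (nat_lit 0x10000000000000000000000000000000000000000000000000000000000000000000000000000000000000000000000000000000000000000000000000000000000000000000000000000000000000000000000000000000000000000000000000000000000000000000000000000000000000000000000000000000000000000000000000000000000000000000000000000000000000000000000000000000000000000000000000000000000, [Nat.sub (Nat.pow 2 889) (Nat.pow 2 0), Nat.sub (Nat.pow 2 3136) (Nat.pow 2 889)]),
  (nat_lit 0x2000000000000000000000000000000000000000000000000000000000000000000000000000000000000000000000000000000000000000000000000000000000000000000000000000000000000000000000000000000000000000000000000000000000000000000000000000000000000000000000000000000000000000000000000000000000000000000000000000000000000000000000000000000000000000000000000000000000, [cP]),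
  (nat_lit 0x400000000000000000000000000000000000000000000000000000000000000000000000000000000000000000000000000000000000000000000000000000000000000000000000000000000000000000000000000000000000000000000000000000000000000000000000000000000000000000000000000000000000000000000000000000000000000000000000000000000000000000000000000000000000000000000000000000000000, [cP]),
  (nat_lit 0x1000000000000000000000000000000000000000000000000000000000000000000000000000000000000000000000000000000000000000000000000000000000000000000000000000000000000000000000000000000000000000000000000000000000000000000000000000000000000000000000000000000000000000000000000000000000000000000000000000000000000000000000000000000000000000000000000000000000000000, [Nat.sub (Nat.pow 2 889) (Nat.pow 2 0), Nat.sub (Nat.pow 2 3136) (Nat.pow 2 889)]),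
  (nat_lit 0x20000000000000000000000000000000000000000000000000000000000000000000000000000000000000000000000000000000000000000000000000000000000000000000000000000000000000000000000000000000000000000000000000000000000000000000000000000000000000000000000000000000000000000000000000000000000000000000000000000000000000000000000000000000000000000000000000000000000000000, [Nat.sub (Nat.pow 2 1255) (Nat.pow 2 0), Nat.sub (Nat.pow 2 3136) (Nat.pow 2 1255)]),
  (nat_lit 0x800000000000000000000000000000000000000000000000000000000000000000000000000000000000000000000000000000000000000000000000000000000000000000000000000000000000000000000000000000000000000000000000000000000000000000000000000000000000000000000000000000000000000000000000000000000000000000000000000000000000000000000000000000000000000000000000000000000000, [cP]),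
  (nat_lit 0x400000000000000000000000000000000000000000000000000000000000000000000000000000000000000000000000000000000000000000000000000000000000000000000000000000000000000000000000000000000000000000000000000000000000000000000000000000000000000000000000000000000000000000000000000000000000000000000000000000000000000000000000000000000000000000000000000000000000000000, [Nat.sub (Nat.pow 2 889) (Nat.pow 2 0), Nat.sub (Nat.pow 2 3136) (Nat.pow 2 889)]),
  (nat_lit 0x40000000000000000000000000000000000000000000000000000000000000000000000000000000000000000000000000000000000000000000000000000000000000000000000000000000000000000000000000000000000000000000000000000000000000000000000000000000000000000000000000000000000000000000000000000000000000000000000000000000000000000000000000000000000000000000000000000000000000000, [cP]),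
  (nat_lit 0x40000000000000000000000000000000000000000000000000000000000000000000000000000000000000000000000000000000000000000000000000000000000000000000000000000000000000000000000000000000000000000000000000000000000000000000000000000000000000000000000000000000000000000000000000000000000000000000000000000000000000000000000000000000000000000000000000000000000000000000000, [Nat.sub (Nat.pow 2 691) (Nat.pow 2 0), Nat.sub (Nat.pow 2 1260) (Nat.pow 2 691), Nat.sub (Nat.pow 2 3136) (Nat.pow 2 1260)]),
  (nat_lit 0x80000000000000000000000000000000000000000000000000000000000000000000000000000000000000000000000000000000000000000000000000000000000000000000000000000000000000000000000000000000000000000000000000000000000000000000000000000000000000000000000000000000000000000000000000000000000000000000000000000000000000000000000000000000000000000000000000000000000000000000000, [Nat.sub (Nat.pow 2 636) (Nat.pow 2 0), Nat.sub (Nat.pow 2 941) (Nat.pow 2 636), Nat.sub (Nat.pow 2 1554) (Nat.pow 2 941), Nat.sub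 (Nat.pow 2 3136) (Nat.pow 2 1554)]),
  (nat_lit 0x800000000000000000000000000000000000000000000000000000000000000000000000000000000000000000000000000000000000000000000000000000000000000000000000000000000000000000000000000000000000000000000000000000000000000000000000000000000000000000000000000000000000000000000000000000000000000000000000000000000000000000000000000000000000000000000000000000000000000000000000, [Nat.sub (Nat.pow 2 914) (Nat.pow 2 0), Nat.sub (Nat.pow 2 1560) (Nat.pow 2 914), Nat.sub (Nat.pow 2 3136) (Nat.pow 2 1560)]),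
  (nat_lit 0x2000000000000000000000000000000000000000000000000000000000000000000000000000000000000000000000000000000000000000000000000000000000000000000000000000000000000000000000000000000000000000000000000000000000000000000000000000000000000000000000000000000000000000000000000000000000000000000000000000000000000000000000000000000000000000000000000000000000000000000000000, [Nat.sub (Nat.pow 2 911) (Nat.pow 2 0), Nat.sub (Nat.pow 2 3136) (Nat.pow 2 911)]),
  (nat_lit 0x10000000000000000000000000000000000000000000000000000000000000000000000000000000000000000000000000000000000000000000000000000000000000000000000000000000000000000000000000000000000000000000000000000000000000000000000000000000000000000000000000000000000000000000000000000000000000000000000000000000000000000000000000000000000000000000000000000000000000000000000000000000000000000, [Nat.sub (Nat.pow 2 131) (Nat.pow 2 0), Nat.sub (Nat.pow 2 155) (Nat.pow 2 131), Nat.sub (Nat.pow 2 160) (Nat.pow 2 155), Nat.sub (Nat.pow 2 166) (Nat.pow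 2 160), Nat.sub (Nat.pow 2 189) (Nat.pow 2 166), Nat.sub (Nat.pow 2 280) (Nat.pow 2 189), Nat.sub (Nat.pow 2 684) (Nat.pow 2 280), Nat.sub (Nat.pow 2 780) (Nat.pow 2 684), Nat.sub (Nat.pow 2 785) (Nat.pow 2 780), Nat.sub (Nat.pow 2 790) (Nat.pow 2 785), Nat.sub (Nat.pow 2 915) (Nat.pow 2 790), Nat.sub (Nat.pow 2 936) (Nat.pow 2 915), Nat.sub (Nat.pow 2 1256) (Nat.pow 2 936), Nat.sub (Nat.pow 2 1266) (Nat.pow 2 1256), Nat.sub (Nat.pow 2 1380) (Nat.pow 2 1266), Nat.sub (Nat.pow 2 1405) (Nat.pow 2 1380), Nat.sub (Nat.pow 2 1415) (Nat.pow 2 1405), Nat.sub (Nat.pow 2 1436) (Nat.pow 2 1415), Nat.sub (Nat.pow 2 1540) (Nat.pow 2 1436), Nat.sub (Nat.pow 2 1560) (Nat.pow 2 1540), Nat.sub (Nat.pow 2 3136) (Nat.pow 2 1560)]),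
  (nat_lit 0x20000000000000000000000000000000000000000000000000000000000000000000000000000000000000000000000000000000000000000000000000000000000000000000000000000000000000000000000000000000000000000000000000000000000000000000000000000000000000000000000000000000000000000000000000000000000000000000000000000000000000000000000000000000000000000000000000000000000000000000000000000000000000000, [Nat.sub (Nat.pow 2 905) (Nat.pow 2 0), Nat.sub (Nat.pow 2 3136) (Nat.pow 2 905)]),
  (nat_lit 0x40000000000000000000000000000000000000000000000000000000000000000000000000000000000000000000000000000000000000000000000000000000000000000000000000000000000000000000000000000000000000000000000000000000000000000000000000000000000000000000000000000000000000000000000000000000000000000000000000000000000000000000000000000000000000000000000000000000000000000000000000000000000000000, [Nat.sub (Nat.pow 2 790) (Nat.pow 2 0), Nat.sub (Nat.pow 2 3136) (Nat.pow 2 790)]),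
  (nat_lit 0x800000000000000000000000000000000000000000000000000000000000000000000000000000000000000000000000000000000000000000000000000000000000000000000000000000000000000000000000000000000000000000000000000000000000000000000000000000000000000000000000000000000000000000000000000000000000000000000000000000000000000000000000000000000000000000000000000000000000000000000000000000000000000000, [Nat.sub (Nat.pow 2 904) (Nat.pow 2 0), Nat.sub (Nat.pow 2 3136) (Nat.pow 2 904)]),
  (nat_lit 0x400000000000000000000000000000000000000000000000000000000000000000000000000000000000000000000000000000000000000000000000000000000000000000000000000000000000000000000000000000000000000000000000000000000000000000000000000000000000000000000000000000000000000000000000000000000000000000000000000000000000000000000000000000000000000000000000000000000000000000000000000000000000000000000000, [Nat.sub (Nat.pow 2 806) (Nat.pow 2 0), Nat.sub (Nat.pow 2 3136) (Nat.pow 2 806)]),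
  (nat_lit 0x8000000000000000000000000000000000000000000000000000000000000000000000000000000000000000000000000000000000000000000000000000000000000000000000000000000000000000000000000000000000000000000000000000000000000000000000000000000000000000000000000000000000000000000000000000000000000000000000000000000000000000000000000000000000000000000000000000000000000000000000000000000000000000000000000, [Nat.sub (Nat.pow 2 889) (Nat.pow 2 0), Nat.sub (Nat.pow 2 3136) (Nat.pow 2 889)]),
  (nat_lit 0x10000000000000000000000000000000000000000000000000000000000000000000000000000000000000000000000000000000000000000000000000000000000000000000000000000000000000000000000000000000000000000000000000000000000000000000000000000000000000000000000000000000000000000000000000000000000000000000000000000000000000000000000000000000000000000000000000000000000000000000000000000000000000000000000000000000, [Nat.sub (Nat.pow 2 790) (Nat.pow 2 0), Nat.sub (Nat.pow 2 1556) (Nat.pow 2 790), Nat.sub (Nat.pow 2 3136) (Nat.pow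 2 1556)]),
  (nat_lit 0x40000000000000000000000000000000000000000000000000000000000000000000000000000000000000000000000000000000000000000000000000000000000000000000000000000000000000000000000000000000000000000000000000000000000000000000000000000000000000000000000000000000000000000000000000000000000000000000000000000000000000000000000000000000000000000000000000000000000000000000000000000000000000000000000000000000, [Nat.sub (Nat.pow 2 815) (Nat.pow 2 0), Nat.sub (Nat.pow 2 3136) (Nat.pow 2 815)]),
  (nat_lit 0x1000000000000000000000000000000000000000000000000000000000000000000000000000000000000000000000000000000000000000000000000000000000000000000000000000000000000000000000000000000000000000000000000000000000000000000000000000000000000000000000000000000000000000000000000000000000000000000000000000000000000000000000000000000000000000000000000000000000000000000, [cP])]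

theorem hp1 : ∀ p ∈ L1, ∀ D2 ∈ p.2, ∃ e,
    search ext94 (Pool.Agent.H74.EGZ.vio sb) G Uc A0 p.1 D2 e = true :=
  (List.forall_mem_cons.2 ⟨(List.forall_mem_cons.2 ⟨⟨.leaf, by decide +kernel⟩,
  (List.forall_mem_singleton.2 ⟨e110, by decide +kernel⟩)⟩),
  (List.forall_mem_cons.2 ⟨(List.forall_mem_cons.2 ⟨⟨e111, by decide +kernel⟩,
  (List.forall_mem_cons.2 ⟨⟨e112, by decide +kernel⟩,
  (List.forall_mem_cons.2 ⟨⟨e113, by decide +kernel⟩,
  (List.forall_mem_singleton.2 ⟨.leaf, by decide +kernel⟩)⟩)⟩)⟩),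
  (List.forall_mem_cons.2 ⟨(List.forall_mem_cons.2 ⟨⟨.leaf, by decide +kernel⟩,
  (List.forall_mem_singleton.2 ⟨e116, by decide +kernel⟩)⟩),
  (List.forall_mem_cons.2 ⟨(List.forall_mem_cons.2 ⟨⟨e117, by decide +kernel⟩,
  (List.forall_mem_cons.2 ⟨⟨e118, by decide +kernel⟩,
  (List.forall_mem_singleton.2 ⟨e119, by decide +kernel⟩)⟩)⟩),
  (List.forall_mem_cons.2 ⟨(List.forall_mem_cons.2 ⟨⟨e120, by decide +kernel⟩,
  (List.forall_mem_singleton.2 ⟨e121, by decide +kernel⟩)⟩),
  (List.forall_mem_cons.2 ⟨(List.forall_mem_cons.2 ⟨⟨e122, by decide +kernel⟩,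
  (List.forall_mem_singleton.2 ⟨e123, by decide +kernel⟩)⟩),
  (List.forall_mem_cons.2 ⟨(List.forall_mem_singleton.2 ⟨e124, by decide +kernel⟩),
  (List.forall_mem_cons.2 ⟨(List.forall_mem_cons.2 ⟨⟨e125, by decide +kernel⟩,
  (List.forall_mem_cons.2 ⟨⟨e126, by decide +kernel⟩,
  (List.forall_mem_singleton.2 ⟨e127, by decide +kernel⟩)⟩)⟩),
  (List.forall_mem_cons.2 ⟨(List.forall_mem_cons.2 ⟨⟨e128, by decide +kernel⟩,
  (List.forall_mem_singleton.2 ⟨e129, by decide +kernel⟩)⟩),
  (List.forall_mem_cons.2 ⟨(List.forall_mem_singleton.2 ⟨e130, by decide +kernel⟩),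
  (List.forall_mem_cons.2 ⟨(List.forall_mem_singleton.2 ⟨e131, by decide +kernel⟩),
  (List.forall_mem_cons.2 ⟨(List.forall_mem_cons.2 ⟨⟨e132, by decide +kernel⟩,
  (List.forall_mem_cons.2 ⟨⟨e133, by decide +kernel⟩,
  (List.forall_mem_singleton.2 ⟨e134, by decide +kernel⟩)⟩)⟩),
  (List.forall_mem_cons.2 ⟨(List.forall_mem_cons.2 ⟨⟨e135, by decide +kernel⟩,
  (List.forall_mem_cons.2 ⟨⟨e136, by decide +kernel⟩,
  (List.forall_mem_singleton.2 ⟨.leaf, by decide +kernel⟩)⟩)⟩),
  (List.forall_mem_cons.2 ⟨(List.forall_mem_singleton.2 ⟨e138, by decide +kernel⟩),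
  (List.forall_mem_cons.2 ⟨(List.forall_mem_singleton.2 ⟨e139, by decide +kernel⟩),
  (List.forall_mem_cons.2 ⟨(List.forall_mem_cons.2 ⟨⟨e140, by decide +kernel⟩,
  (List.forall_mem_singleton.2 ⟨e141, by decide +kernel⟩)⟩),
  (List.forall_mem_cons.2 ⟨(List.forall_mem_cons.2 ⟨⟨e142, by decide +kernel⟩,
  (List.forall_mem_singleton.2 ⟨e143, by decide +kernel⟩)⟩),
  (List.forall_mem_cons.2 ⟨(List.forall_mem_cons.2 ⟨⟨e144, by decide +kernel⟩,
  (List.forall_mem_cons.2 ⟨⟨e145, by decide +kernel⟩,
  (List.forall_mem_cons.2 ⟨⟨e146, by decide +kernel⟩,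
  (List.forall_mem_cons.2 ⟨⟨e147, by decide +kernel⟩,
  (List.forall_mem_singleton.2 ⟨.leaf, by decide +kernel⟩)⟩)⟩)⟩)⟩),
  (List.forall_mem_cons.2 ⟨(List.forall_mem_cons.2 ⟨⟨e149, by decide +kernel⟩,
  (List.forall_mem_cons.2 ⟨⟨e150, by decide +kernel⟩,
  (List.forall_mem_singleton.2 ⟨e151, by decide +kernel⟩)⟩)⟩),
  (List.forall_mem_cons.2 ⟨(List.forall_mem_singleton.2 ⟨e152, by decide +kernel⟩),
  (List.forall_mem_cons.2 ⟨(List.forall_mem_cons.2 ⟨⟨e153, by decide +kernel⟩,
  (List.forall_mem_cons.2 ⟨⟨e154, by decide +kernel⟩,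
  (List.forall_mem_singleton.2 ⟨.leaf, by decide +kernel⟩)⟩)⟩),
  (List.forall_mem_cons.2 ⟨(List.forall_mem_cons.2 ⟨⟨e156, by decide +kernel⟩,
  (List.forall_mem_singleton.2 ⟨e157, by decide +kernel⟩)⟩),
  (List.forall_mem_cons.2 ⟨(List.forall_mem_singleton.2 ⟨e158, by decide +kernel⟩),
  (List.forall_mem_cons.2 ⟨(List.forall_mem_singleton.2 ⟨e159, by decide +kernel⟩),
  (List.forall_mem_cons.2 ⟨(List.forall_mem_cons.2 ⟨⟨.leaf, by decide +kernel⟩,
  (List.forall_mem_singleton.2 ⟨e161, by decide +kernel⟩)⟩),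
  (List.forall_mem_cons.2 ⟨(List.forall_mem_singleton.2 ⟨.leaf, by decide +kernel⟩),
  (List.forall_mem_cons.2 ⟨(List.forall_mem_singleton.2 ⟨.leaf, by decide +kernel⟩),
  (List.forall_mem_cons.2 ⟨(List.forall_mem_cons.2 ⟨⟨e164, by decide +kernel⟩,
  (List.forall_mem_singleton.2 ⟨e165, by decide +kernel⟩)⟩),
  (List.forall_mem_cons.2 ⟨(List.forall_mem_cons.2 ⟨⟨e166, by decide +kernel⟩,
  (List.forall_mem_singleton.2 ⟨e167, by decide +kernel⟩)⟩),
  (List.forall_mem_cons.2 ⟨(List.forall_mem_singleton.2 ⟨.leaf, by decide +kernel⟩),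
  (List.forall_mem_cons.2 ⟨(List.forall_mem_cons.2 ⟨⟨e169, by decide +kernel⟩,
  (List.forall_mem_singleton.2 ⟨e170, by decide +kernel⟩)⟩),
  (List.forall_mem_cons.2 ⟨(List.forall_mem_singleton.2 ⟨.leaf, by decide +kernel⟩),
  (List.forall_mem_cons.2 ⟨(List.forall_mem_cons.2 ⟨⟨.leaf, by decide +kernel⟩,
  (List.forall_mem_cons.2 ⟨⟨.leaf, by decide +kernel⟩,
  (List.forall_mem_singleton.2 ⟨e174, by decide +kernel⟩)⟩)⟩),
  (List.forall_mem_cons.2 ⟨(List.forall_mem_cons.2 ⟨⟨e175, by decide +kernel⟩,
  (List.forall_mem_cons.2 ⟨⟨e176, by decide +kernel⟩,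
  (List.forall_mem_cons.2 ⟨⟨e177, by decide +kernel⟩,
  (List.forall_mem_singleton.2 ⟨e178, by decide +kernel⟩)⟩)⟩)⟩),
  (List.forall_mem_cons.2 ⟨(List.forall_mem_cons.2 ⟨⟨.leaf, by decide +kernel⟩,
  (List.forall_mem_cons.2 ⟨⟨e180, by decide +kernel⟩,
  (List.forall_mem_singleton.2 ⟨.leaf, by decide +kernel⟩)⟩)⟩),
  (List.forall_mem_cons.2 ⟨(List.forall_mem_cons.2 ⟨⟨e182, by decide +kernel⟩,
  (List.forall_mem_singleton.2 ⟨e183, by decide +kernel⟩)⟩),
  (List.forall_mem_cons.2 ⟨(List.forall_mem_cons.2 ⟨⟨e184, by decide +kernel⟩,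
  (List.forall_mem_cons.2 ⟨⟨e185, by decide +kernel⟩,
  (List.forall_mem_cons.2 ⟨⟨e186, by decide +kernel⟩,
  (List.forall_mem_cons.2 ⟨⟨e187, by decide +kernel⟩,
  (List.forall_mem_cons.2 ⟨⟨e188, by decide +kernel⟩,
  (List.forall_mem_cons.2 ⟨⟨e189, by decide +kernel⟩,
  (List.forall_mem_cons.2 ⟨⟨e190, by decide +kernel⟩,
  (List.forall_mem_cons.2 ⟨⟨e191, by decide +kernel⟩,
  (List.forall_mem_cons.2 ⟨⟨e192, by decide +kernel⟩,
  (List.forall_mem_cons.2 ⟨⟨e193, by decide +kernel⟩,
  (List.forall_mem_cons.2 ⟨⟨e194, by decide +kernel⟩,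
  (List.forall_mem_cons.2 ⟨⟨e195, by decide +kernel⟩,
  (List.forall_mem_cons.2 ⟨⟨e196, by decide +kernel⟩,
  (List.forall_mem_cons.2 ⟨⟨e197, by decide +kernel⟩,
  (List.forall_mem_cons.2 ⟨⟨e198, by decide +kernel⟩,
  (List.forall_mem_cons.2 ⟨⟨e199, by decide +kernel⟩,
  (List.forall_mem_cons.2 ⟨⟨e200, by decide +kernel⟩,
  (List.forall_mem_cons.2 ⟨⟨e201, by decide +kernel⟩,
  (List.forall_mem_cons.2 ⟨⟨e202, by decide +kernel⟩,
  (List.forall_mem_cons.2 ⟨⟨e203, by decide +kernel⟩,
  (List.forall_mem_singleton.2 ⟨e204, by decide +kernel⟩)⟩)⟩)⟩)⟩)⟩)⟩)⟩)⟩)⟩)⟩)⟩)⟩)⟩)⟩)⟩)⟩)⟩)⟩)⟩)⟩),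
  (List.forall_mem_cons.2 ⟨(List.forall_mem_cons.2 ⟨⟨e205, by decide +kernel⟩,
  (List.forall_mem_singleton.2 ⟨e206, by decide +kernel⟩)⟩),
  (List.forall_mem_cons.2 ⟨(List.forall_mem_cons.2 ⟨⟨e207, by decide +kernel⟩,
  (List.forall_mem_singleton.2 ⟨e208, by decide +kernel⟩)⟩),
  (List.forall_mem_cons.2 ⟨(List.forall_mem_cons.2 ⟨⟨.leaf, by decide +kernel⟩,
  (List.forall_mem_singleton.2 ⟨.leaf, by decide +kernel⟩)⟩),
  (List.forall_mem_cons.2 ⟨(List.forall_mem_cons.2 ⟨⟨e211, by decide +kernel⟩,
  (List.forall_mem_singleton.2 ⟨e212, by decide +kernel⟩)⟩),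
  (List.forall_mem_cons.2 ⟨(List.forall_mem_cons.2 ⟨⟨.leaf, by decide +kernel⟩,
  (List.forall_mem_singleton.2 ⟨e214, by decide +kernel⟩)⟩),
  (List.forall_mem_cons.2 ⟨(List.forall_mem_cons.2 ⟨⟨e215, by decide +kernel⟩,
  (List.forall_mem_cons.2 ⟨⟨e216, by decide +kernel⟩,
  (List.forall_mem_singleton.2 ⟨.leaf, by decide +kernel⟩)⟩)⟩),
  (List.forall_mem_cons.2 ⟨(List.forall_mem_cons.2 ⟨⟨.leaf, by decide +kernel⟩,
  (List.forall_mem_singleton.2 ⟨e219, by decide +kernel⟩)⟩),
  (List.forall_mem_singleton.2 (List.forall_mem_singleton.2 ⟨e220, by decide +kernel⟩))⟩)⟩)⟩)⟩)⟩)⟩)⟩)⟩)⟩)⟩)⟩)⟩)⟩)⟩)⟩)⟩)⟩)⟩)⟩)⟩)⟩)⟩)⟩)⟩)⟩)⟩)⟩)⟩)⟩)⟩)⟩)⟩)⟩)⟩)⟩)⟩)⟩)⟩)⟩)⟩)⟩)⟩)⟩)⟩)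

end

end Pool.Agent.H21.EGZ.S2
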