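import Pool.Agent.H21.EGZ.D3

/-!
# Stage 3 : search, part 0
-/

set_option autoImplicit false
set_option maxRecDepth 100000

namespace Pool.Agent.H21.EGZ.S3

noncomputable section

open Pool.Agent.H74.EGZ Pool.Agent.H94.Lift

/-- refutations 2 -/
def e2 : EX := (.node (.node (.node (.node .leaf (nat_lit 18021892489891) (.br (nat_lit 0) (.cons (.br (nat_lit 2) (.cons (.rel (nat_lit 75497538)) .nil)) .nil)) .leaf) (nat_lit 18021892489901) (.br (nat_lit 2) (.cons (.br (nat_lit 3) (.cons (.rel (nat_lit 335545602)) .nil)) .nil)) (.node .leaf (nat_lit 18021892509746) (.br (nat_lit 0) (.cons (.br (nat_lit 1) (.cons (.rel (nat_lit 20976912)) .nil)) .nil)) .leaf)) (nat_lit 18021892510346) (.br (nat_lit 3) (.cons (.br (nat_lit 4) (.cons (.rel (nat_lit 1343291424)) .nil)) .nil)) (.node (.node .leaf (nat_lit 18021892514479) (.br (nat_lit 0) (.cons (.br (nat_lit 3) (.cons (.rel (nat_lit 273154086)) .nil)) .nil)) .leaf) (nat_lit 18021892797091) (.br (nat_lit 0) (.cons (.br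 (nat_lit 2) (.cons (.rel (nat_lit 71827488)) .nil)) .nil)) (.node .leaf (nat_lit 18021892797326) (.br (nat_lit 0) (.cons (.br (nat_lit 5) (.cons (.rel (nat_lit 4300210245)) .nil)) .nil)) .leaf))) (nat_lit 18021893108374) (.br (nat_lit 0) (.cons (.br (nat_lit 1) (.cons (.rel (nat_lit 20989185)) .nil)) .nil)) (.node (.node (.node .leaf (nat_lit 18021913461411) (.br (nat_lit 0) (.cons (.br (nat_lit 2) (.cons (.rel (nat_lit 71385345)) (.cons (.rel (nat_lit 72351768)) .nil))) .nil)) .leaf) (nat_lit 18021913471656) (.br (nat_lit 0) (.cons (.br (nat_lit 2) (.cons (.rel (nat_lit 71336196)) (.cons (.rel (nat_lit 71336196)) .nil))) (.cons (.br (nat_lit 2) (.cons (.rel (nat_lit 71373072)) (.cons (.rel (nat_lit 71385345)) .nil))) .nil))) (.node .leaf (nat_lit 18021913481896) (.br (nat_lit 0) (.cons (.br (nat_lit 3) (.cons (.rel (nat_lit 276840480)) .nil)) .nil)) .leaf)) (nat_lit 18021913482491) (.br (nat_lit 0) (.cons (.br (nat_lit 1) (.cons (.rel (nat_lit 20971848)) .nil))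 .nil)) (.node (.node .leaf (nat_lit 18021934432931) (.br (nat_lit 0) (.cons (.br (nat_lit 3) (.cons (.rel (nat_lit 272646480)) (.cons (.rel (nat_lit 276825168)) .nil))) (.cons (.br (nat_lit 2) (.cons (.rel (nat_lit 71385345)) (.cons (.rel (nat_lit 75514884)) .nil))) .nil))) .leaf) (nat_lit 18022941065891) (.br (nat_lit 0) (.cons (.br (nat_lit 6) (.cons (.rel (nat_lit 17184063585)) .nil)) .nil)) .leaf)))

/-- refutations 3 -/
def e3 : EX := (.node (.node (.node (.node (.node (.node .leaf (nat_lit 18064842162861) (.br (nat_lit 2) (.cons (.br (nat_lit 3) (.cons (.rel (nat_lit 336658437)) .nil)) .nil)) .leaf) (nat_lit 18064842183331) (.br (nat_lit 2) (.cons (.br (nat_lit 3) (.cons (.rel (nat_lit 335675712)) .nil)) .nil)) .leaf) (nat_lit 18064842482576) (.br (nat_lit 0) (.cons (.br (nat_lit 1) (.cons (.rel (nat_lit 25167873)) .nil)) .nil)) (.node (.node .leaf (nat_lit 18064863133758) (.br (nat_lit 1) (.cons (.br (nat_lit 3) (.cons (.rel (nat_lit 286262277)) (.cons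 (.rel (nat_lit 553682961)) .nil))) .nil)) .leaf) (nat_lit 18064863134371) (.br (nat_lit 2) (.cons (.br (nat_lit 5) (.cons (.rel (nat_lit 8657113092)) (.cons (.rel (nat_lit 4362078528)) (.cons (.rel (nat_lit 4429186116)) .nil)))) .nil)) .leaf)) (nat_lit 18064863137852) (.br (nat_lit 0) (.cons (.br (nat_lit 1) (.cons (.rel (nat_lit 20989185)) .nil)) .nil)) (.node (.node (.node .leaf (nat_lit 18064863138099) (.br (nat_lit 0) (.cons (.br (nat_lit 6) (.cons (.rel (nat_lit 17184325920)) (.cons (.rel (nat_lit 34364986368)) .nil))) .nil)) .leaf) (nat_lit 18064863138472) (.br (nat_lit 0) (.cons (.br (nat_lit 2) (.cons (.rel (nat_lit 138493968)) (.cons (.rel (nat_lit 75501576)) .nil))) (.cons (.br (nat_lit 2) (.cons (.br (nat_lit 6) (.cons (.rel (nat_lit 17184325920)) (.cons (.rel (nat_lit 17184130080)) (.cons (.rel (nat_lit 17184202752)) (.cons (.rel (nat_lit 34426914048)) .nil))))) (.cons (.rel (nat_lit 142868496)) .nil))) .nil))) .leaf) (nat_lit 18064863144616) (.br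 (nat_lit 2) (.cons (.br (nat_lit 0) (.cons (.rel (nat_lit 71373072)) (.cons (.rel (nat_lit 71373072)) (.cons (.rel (nat_lit 71312640)) .nil)))) .nil)) (.node (.node .leaf (nat_lit 18064863144621) (.br (nat_lit 3) (.cons (.br (nat_lit 0) (.cons (.rel (nat_lit 272711940)) (.cons (.rel (nat_lit 272662794)) .nil))) .nil)) .leaf) (nat_lit 18064863144622) (.br (nat_lit 2) (.cons (.br (nat_lit 1) (.cons (.rel (nat_lit 83903808)) (.cons (.rel (nat_lit 151003152)) .nil))) .nil)) .leaf))) (nat_lit 18064863154176) (.br (nat_lit 0) (.cons (.br (nat_lit 2) (.cons (.rel (nat_lit 71827488)) .nil)) .nil)) (.node (.node (.node (.node .leaf (nat_lit 18064863154851) (.br (nat_lit 3) (.cons (.br (nat_lit 2) (.cons (.rel (nat_lit 336599040)) (.cons (.rel (nat_lit 336659472)) (.cons (.rel (nat_lit 605291520)) (.cons (.rel (nat_lit 402657408)) .nil))))) (.cons (.br (nat_lit 2) (.cons (.rel (nat_lit 336599040)) (.cons (.rel (nat_lit 335545602)) (.cons (.rel (nat_lit 605291520)) (.cons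 (.rel (nat_lit 335630592)) .nil))))) .nil))) .leaf) (nat_lit 18064863154856) (.br (nat_lit 2) (.cons (.br (nat_lit 6) (.cons (.rel (nat_lit 17247010821)) (.cons (.rel (nat_lit 17247010821)) (.cons (.rel (nat_lit 34426914048)) (.cons (.rel (nat_lit 34493956176)) (.cons (.rel (nat_lit 34494021636)) .nil)))))) .nil)) .leaf) (nat_lit 18064863154857) (.br (nat_lit 2) (.cons (.br (nat_lit 3) (.cons (.rel (nat_lit 402653190)) .nil)) .nil)) (.node (.node .leaf (nat_lit 18064863154862) (.br (nat_lit 3) (.cons (.br (nat_lit 0) (.cons (.rel (nat_lit 272711940)) (.cons (.rel (nat_lit 272646480)) .nil))) .nil)) .leaf) (nat_lit 18064863451142) (.br (nat_lit 2) (.cons (.br (nat_lit 3) (.cons (.rel (nat_lit 335545602)) .nil)) .nil)) .leaf)) (nat_lit 18064863452041) (.br (nat_lit 2) (.cons (.br (nat_lit 3) (.cons (.rel (nat_lit 335544612)) .nil)) .nil)) (.node (.node (.node .leaf (nat_lit 18064863452437) (.br (nat_lit 2) (.cons (.br (nat_lit 3) (.cons (.rel (nat_lit 336085008))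 (.cons (.rel (nat_lit 402657408)) .nil))) .nil)) .leaf) (nat_lit 18064863453491) (.br (nat_lit 4) (.cons (.br (nat_lit 0) (.cons (.rel (nat_lit 1077944592)) (.cons (.rel (nat_lit 1078462464)) .nil))) .nil)) .leaf) (nat_lit 18064863453870) (.br (nat_lit 1) (.cons (.br (nat_lit 2) (.cons (.rel (nat_lit 85020672)) .nil)) .nil)) (.node .leaf (nat_lit 18064863454084) (.br (nat_lit 1) (.cons (.br (nat_lit 4) (.cons (.rel (nat_lit 1090520448)) .nil)) .nil)) .leaf)))) (nat_lit 18064863454096) (.br (nat_lit 5) (.cons (.br (nat_lit 1) (.cons (.rel (nat_lit 4311744804)) (.cons (.rel (nat_lit 4311745794)) .nil))) .nil)) (.node (.node (.node (.node (.node .leaf (nat_lit 18064864469802) (.br (nat_lit 0) (.cons (.br (nat_lit 4) (.cons (.rel (nat_lit 1078264320)) .nil)) .nil)) .leaf) (nat_lit 18064864540049) (.br (nat_lit 0) (.cons (.br (nat_lit 1) (.cons (.rel (nat_lit 25186368)) .nil)) .nil)) .leaf) (nat_lit 18064864937237) (.br (nat_lit 5) (.cons (.br (nat_lit 2) (.cons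 (.rel (nat_lit 4362080532)) (.cons (.br (nat_lit 4) (.cons (.rel (nat_lit 2214593568)) (.cons (.rel (nat_lit 1207961616)) .nil))) .nil))) .nil)) (.node (.node .leaf (nat_lit 18064865809194) (.br (nat_lit 1) (.cons (.br (nat_lit 3) (.cons (.rel (nat_lit 286262277)) .nil)) .nil)) .leaf) (nat_lit 18064865952406) (.br (nat_lit 0) (.cons (.br (nat_lit 1) (.cons (.rel (nat_lit 39059472)) .nil)) .nil)) .leaf)) (nat_lit 18064866209799) (.br (nat_lit 0) (.cons (.br (nat_lit 3) (.cons (.rel (nat_lit 272646480)) .nil)) .nil)) (.node (.node (.node .leaf (nat_lit 18064884105891) (.br (nat_lit 2) (.cons (.br (nat_lit 6) (.cons (.rel (nat_lit 17246978208)) .nil)) .nil)) .leaf) (nat_lit 18064884126376) (.br (nat_lit 2) (.cons (.br (nat_lit 3) (.cons (.rel (nat_lit 336659472)) .nil)) .nil)) .leaf) (nat_lit 18067782389760) (.br (nat_lit 2) (.cons (.br (nat_lit 3) (.cons (.rel (nat_lit 603979785)) .nil)) .nil)) (.node .leaf (nat_lit 18067782390440) (.br (nat_lit 2) (.cons (.br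 (nat_lit 3) (.cons (.rel (nat_lit 335545602)) .nil)) .nil)) .leaf))) (nat_lit 18068516393635) (.br (nat_lit 1) (.cons (.br (nat_lit 2) (.cons (.rel (nat_lit 84935682)) (.cons (.rel (nat_lit 83919120)) .nil))) (.cons (.br (nat_lit 0) (.cons (.rel (nat_lit 25231488)) (.cons (.rel (nat_lit 37748772)) (.cons (.rel (nat_lit 25165848)) .nil)))) .nil))) (.node (.node (.node (.node .leaf (nat_lit 18068558320296) (.br (nat_lit 0) (.cons (.br (nat_lit 1) (.cons (.rel (nat_lit 39059472)) .nil)) .nil)) .leaf) (nat_lit 18068558336675) (.br (nat_lit 3) (.cons (.br (nat_lit 1) (.cons (.rel (nat_lit 286396416)) (.cons (.rel (nat_lit 285221124)) .nil))) .nil)) .leaf) (nat_lit 18068558336680) (.br (nat_lit 2) (.cons (.br (nat_lit 3) (.cons (.rel (nat_lit 336599040)) (.cons (.rel (nat_lit 603988032)) .nil))) .nil)) (.node (.node .leaf (nat_lit 18068559651626) (.br (nat_lit 0) (.cons (.br (nat_lit 4) (.cons (.rel (nat_lit 1078001985)) .nil)) .nil)) .leaf) (nat_lit 18068559669300)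 (.br (nat_lit 0) (.cons (.br (nat_lit 3) (.cons (.rel (nat_lit 276824133)) .nil)) .nil)) .leaf)) (nat_lit 18068560184696) (.br (nat_lit 0) (.cons (.br (nat_lit 1) (.cons (.rel (nat_lit 20989185)) .nil)) .nil)) (.node (.node (.node .leaf (nat_lit 18069896319651) (.br (nat_lit 2) (.cons (.br (nat_lit 3) (.cons (.rel (nat_lit 335544612)) .nil)) .nil)) .leaf) (nat_lit 18069984399360) (.br (nat_lit 0) (.cons (.br (nat_lit 2) (.cons (.rel (nat_lit 72351768)) .nil)) .nil)) .leaf) (nat_lit 18071079103149) (.br (nat_lit 0) (.cons (.br (nat_lit 2) (.cons (.rel (nat_lit 71373072)) .nil)) .nil)) (.node .leaf (nat_lit 18071183970979) (.br (nat_lit 0) (.cons (.br (nat_lit 1) (.cons (.rel (nat_lit 22102020)) (.cons (.rel (nat_lit 20989185)) .nil))) (.cons (.br (nat_lit 1) (.cons (.rel (nat_lit 22036560)) (.cons (.rel (nat_lit 37748772)) .nil))) .nil))) .leaf)))))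

/-- refutations 4 -/
def e4 : EX := (.node (.node (.node (.node .leaf (nat_lit 18107791835821) (.br (nat_lit 3) (.cons (.br (nat_lit 5) (.cons (.rel (nat_lit 4563469584)) (.cons (.rel (nat_lit 4831842336)) .nil))) .nil)) .leaf) (nat_lit 18107812807331) (.br (nat_lit 0) (.cons (.br (nat_lit 2) (.cons (.rel (nat_lit 71336196)) .nil)) .nil)) (.node .leaf (nat_lit 18107812807341) (.br (nat_lit 2) (.cons (.br (nat_lit 6) (.cons (.rel (nat_lit 17247011856)) .nil)) .nil)) .leaf)) (nat_lit 18107833778851) (.br (nat_lit 2) (.cons (.br (nat_lit 0) (.cons (.rel (nat_lit 71321922)) (.cons (.rel (nat_lit 71312640)) (.cons (.rel (nat_lit 71336196)) .nil)))) .nil)) (.node (.node .leaf (nat_lit 18107833789092) (.br (nat_lit 0) (.cons (.br (nat_lit 2) (.cons (.rel (nat_lit 71304585)) .nil)) .nil)) .leaf) (nat_lit 18107833789096) (.br (nat_lit 2) (.cons (.br (nat_lit 3) (.cons (.rel (nat_lit 335544612)) .nil)) .nil)) (.node .leaf (nat_lit 18107833799336) (.br (nat_lit 3) (.cons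 (.br (nat_lit 5) (.cons (.rel (nat_lit 4831842336)) (.cons (.rel (nat_lit 4831842336)) .nil))) .nil)) .leaf))) (nat_lit 18107833799337) (.br (nat_lit 2) (.cons (.br (nat_lit 3) (.cons (.rel (nat_lit 335544612)) .nil)) .nil)) (.node (.node (.node .leaf (nat_lit 18107833799343) (.br (nat_lit 0) (.cons (.br (nat_lit 2) (.cons (.rel (nat_lit 72372288)) .nil)) .nil)) .leaf) (nat_lit 18107834106761) (.br (nat_lit 1) (.cons (.br (nat_lit 3) (.cons (.rel (nat_lit 285221124)) .nil)) .nil)) (.node .leaf (nat_lit 18107836609312) (.br (nat_lit 1) (.cons (.br (nat_lit 3) (.cons (.rel (nat_lit 570687489)) .nil)) .nil)) .leaf)) (nat_lit 18111508009640) (.br (nat_lit 3) (.cons (.br (nat_lit 0) (.cons (.rel (nat_lit 276840480)) (.cons (.rel (nat_lit 276825168)) (.cons (.rel (nat_lit 272711940)) .nil)))) .nil)) (.node (.node .leaf (nat_lit 18125022057134) (.br (nat_lit 1) (.cons (.br (nat_lit 4) (.cons (.rel (nat_lit 1090520448)) .nil)) .nil)) .leaf) (nat_lit 18128035349405)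 (.br (nat_lit 0) (.cons (.br (nat_lit 1) (.cons (.rel (nat_lit 42209280)) .nil)) .nil)) .leaf)))

/-- refutations 5 -/
def e5 : EX := (.node (.node (.node .leaf (nat_lit 19096158621696) (.br (nat_lit 1) (.cons (.br (nat_lit 3) (.cons (.rel (nat_lit 286396416)) .nil)) .nil)) .leaf) (nat_lit 19096158621748) (.br (nat_lit 0) (.cons (.br (nat_lit 1) (.cons (.rel (nat_lit 21037344)) .nil)) .nil)) (.node .leaf (nat_lit 19096682889393) (.br (nat_lit 0) (.cons (.br (nat_lit 1) (.cons (.rel (nat_lit 22036560)) .nil)) .nil)) .leaf)) (nat_lit 19099223587616) (.br (nat_lit 0) (.cons (.br (nat_lit 1) (.cons (.rel (nat_lit 37879872)) .nil)) .nil)) (.node (.node .leaf (nat_lit 19109281006248) (.br (nat_lit 0) (.cons (.br (nat_lit 1) (.cons (.rel (nat_lit 37879872)) .nil)) .nil)) .leaf) (nat_lit 19109488119858) (.br (nat_lit 0) (.cons (.br (nat_lit 1) (.cons (.rel (nat_lit 21037344)) .nil)) .nil)) (.node .leaf (nat_lit 19110537958177) (.br (nat_lit 0) (.cons (.br (nat_lit 1)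 (.cons (.rel (nat_lit 21037344)) .nil)) .nil)) .leaf)))

/-- refutations 6 -/
def e6 : EX := (.node (.node (.node (.node (.node (.node (.node .leaf (nat_lit 19757906634110) (.br (nat_lit 1) (.cons (.br (nat_lit 2) (.cons (.rel (nat_lit 84935682)) .nil)) .nil)) .leaf) (nat_lit 20041512779903) (.br (nat_lit 0) (.cons (.br (nat_lit 2) (.cons (.rel (nat_lit 72372288)) .nil)) .nil)) .leaf) (nat_lit 20041512781307) (.br (nat_lit 0) (.cons (.br (nat_lit 1) (.cons (.rel (nat_lit 20976912)) .nil)) .nil)) (.node .leaf (nat_lit 20041512784179) (.br (nat_lit 0) (.cons (.br (nat_lit 5) (.cons (.rel (nat_lit 4299161880)) .nil)) .nil)) .leaf)) (nat_lit 20041512785403) (.br (nat_lit 0) (.cons (.br (nat_lit 5) (.cons (.rel (nat_lit 4303486980)) .nil)) .nil)) (.node (.node (.node .leaf (nat_lit 20041512790696) (.br (nat_lit 2) (.cons (.br (nat_lit 0) (.cons (.rel (nat_lit 72353793)) (.cons (.rel (nat_lit 71312640)) .nil))) .nil)) .leaf) (nat_lit 20041512800431) (.br (nat_lit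 1) (.cons (.br (nat_lit 5) (.cons (.rel (nat_lit 4312793169)) .nil)) .nil)) .leaf) (nat_lit 20041512800441) (.br (nat_lit 2) (.cons (.br (nat_lit 3) (.cons (.rel (nat_lit 335544612)) .nil)) .nil)) (.node .leaf (nat_lit 20041512800906) (.br (nat_lit 3) (.cons (.br (nat_lit 1) (.cons (.rel (nat_lit 285221124)) (.cons (.rel (nat_lit 554697216)) .nil))) .nil)) .leaf))) (nat_lit 20041512800943) (.br (nat_lit 5) (.cons (.br (nat_lit 6) (.cons (.rel (nat_lit 21474838530)) .nil)) .nil)) (.node (.node (.node (.node .leaf (nat_lit 20041512801007) (.br (nat_lit 4) (.cons (.br (nat_lit 5) (.cons (.br (nat_lit 1) (.cons (.rel (nat_lit 2164270080)) (.cons (.rel (nat_lit 4312285200)) (.cons (.rel (nat_lit 2164330512)) .nil)))) .nil)) .nil)) .leaf) (nat_lit 20041512801011) (.br (nat_lit 0) (.cons (.br (nat_lit 4) (.cons (.rel (nat_lit 2151747588)) .nil)) .nil)) .leaf) (nat_lit 20041512801536) (.br (nat_lit 2) (.cons (.br (nat_lit 1) (.cons (.rel (nat_lit 83919120)) (.cons (.rel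 (nat_lit 83903808)) .nil))) .nil)) (.node .leaf (nat_lit 20041512801758) (.br (nat_lit 2) (.cons (.br (nat_lit 5) (.cons (.rel (nat_lit 8657047632)) (.cons (.rel (nat_lit 4362078528)) .nil))) .nil)) .leaf)) (nat_lit 20041512884409) (.br (nat_lit 5) (.cons (.br (nat_lit 0) (.cons (.rel (nat_lit 4299182400)) (.cons (.rel (nat_lit 8594128980)) .nil))) .nil)) (.node (.node .leaf (nat_lit 20041512885134) (.br (nat_lit 0) (.cons (.br (nat_lit 2) (.cons (.rel (nat_lit 142868496)) (.cons (.rel (nat_lit 142868496)) .nil))) .nil)) .leaf) (nat_lit 20041512902918) (.br (nat_lit 0) (.cons (.br (nat_lit 1) (.cons (.rel (nat_lit 20976912)) .nil)) .nil)) (.node .leaf (nat_lit 20041513097347) (.br (nat_lit 3) (.cons (.br (nat_lit 4) (.cons (.rel (nat_lit 1343291424)) .nil)) .nil)) .leaf)))) (nat_lit 20041513099571) (.br (nat_lit 4) (.cons (.br (nat_lit 5) (.cons (.rel (nat_lit 5368709445)) .nil)) .nil)) (.node (.node (.node (.node (.node .leaf (nat_lit 20041513108841) (.br (nat_lit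 0) (.cons (.br (nat_lit 1) (.cons (.rel (nat_lit 39059472)) .nil)) .nil)) .leaf) (nat_lit 20041513111679) (.br (nat_lit 2) (.cons (.br (nat_lit 3) (.cons (.rel (nat_lit 402657408)) .nil)) .nil)) .leaf) (nat_lit 20041513148696) (.br (nat_lit 2) (.cons (.br (nat_lit 5) (.cons (.rel (nat_lit 8657047632)) .nil)) .nil)) (.node .leaf (nat_lit 20041513149296) (.br (nat_lit 0) (.cons (.br (nat_lit 2) (.cons (.rel (nat_lit 142868496)) .nil)) .nil)) .leaf)) (nat_lit 20041513354601) (.br (nat_lit 0) (.cons (.br (nat_lit 1) (.cons (.rel (nat_lit 20989185)) .nil)) .nil)) (.node (.node .leaf (nat_lit 20041513394927) (.br (nat_lit 0) (.cons (.br (nat_lit 3) (.cons (.rel (nat_lit 273702912)) .nil)) .nil)) .leaf) (nat_lit 20041513395707) (.br (nat_lit 0) (.cons (.br (nat_lit 3) (.cons (.rel (nat_lit 276825168)) .nil)) .nil)) (.node .leaf (nat_lit 20041513398547) (.br (nat_lit 0) (.cons (.br (nat_lit 2) (.cons (.rel (nat_lit 71827488)) .nil)) .nil)) .leaf))) (nat_lit 20041513399023)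 (.br (nat_lit 3) (.cons (.br (nat_lit 4) (.cons (.rel (nat_lit 1343230992)) .nil)) .nil)) (.node (.node (.node (.node .leaf (nat_lit 20041513399803) (.br (nat_lit 1) (.cons (.br (nat_lit 4) (.cons (.rel (nat_lit 1107558672)) (.cons (.rel (nat_lit 2181301284)) .nil))) (.cons (.br (nat_lit 3) (.cons (.rel (nat_lit 570687489)) (.cons (.rel (nat_lit 570687489)) (.cons (.rel (nat_lit 286263312)) .nil)))) .nil))) .leaf) (nat_lit 20041513407215) (.br (nat_lit 4) (.cons (.br (nat_lit 0) (.cons (.rel (nat_lit 2151747588)) (.cons (.br (nat_lit 3) (.cons (.rel (nat_lit 1615073280)) (.cons (.rel (nat_lit 1342179588)) .nil))) .nil))) .nil)) .leaf) (nat_lit 20041513407224) (.br (nat_lit 0) (.cons (.br (nat_lit 1) (.cons (.rel (nat_lit 20989185)) .nil)) .nil)) (.node .leaf (nat_lit 20041514065433) (.br (nat_lit 0) (.cons (.br (nat_lit 1) (.cons (.rel (nat_lit 21504000)) .nil)) .nil)) .leaf)) (nat_lit 20041514125617) (.br (nat_lit 0) (.cons (.br (nat_lit 3) (.cons (.rel (nat_lit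 273678354)) .nil)) .nil)) (.node (.node .leaf (nat_lit 20041514125619) (.br (nat_lit 0) (.cons (.br (nat_lit 2) (.cons (.rel (nat_lit 71373072)) .nil)) .nil)) .leaf) (nat_lit 20041514126843) (.br (nat_lit 5) (.cons (.br (nat_lit 0) (.cons (.rel (nat_lit 4303376400)) (.cons (.rel (nat_lit 4299702276)) .nil))) .nil)) (.node .leaf (nat_lit 20041514136964) (.br (nat_lit 0) (.cons (.br (nat_lit 1) (.cons (.rel (nat_lit 20976912)) .nil)) .nil)) .leaf))))) (nat_lit 20041514184961) (.br (nat_lit 3) (.cons (.br (nat_lit 1) (.cons (.rel (nat_lit 286262277)) (.cons (.rel (nat_lit 301990980)) .nil))) .nil)) (.node (.node (.node (.node (.node (.node .leaf (nat_lit 20041514326926) (.br (nat_lit 0) (.cons (.br (nat_lit 4) (.cons (.rel (nat_lit 2156135424)) .nil)) .nil)) .leaf) (nat_lit 20041514327317) (.br (nat_lit 0) (.cons (.br (nat_lit 1) (.cons (.rel (nat_lit 37748772)) .nil)) .nil)) .leaf) (nat_lit 20041514438918) (.br (nat_lit 1) (.cons (.br (nat_lit 5) (.cons (.rel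 (nat_lit 4311830784)) .nil)) .nil)) (.node .leaf (nat_lit 20041514439911) (.br (nat_lit 1) (.cons (.br (nat_lit 3) (.cons (.rel (nat_lit 285221124)) (.cons (.rel (nat_lit 285475392)) .nil))) .nil)) .leaf)) (nat_lit 20041514442235) (.br (nat_lit 0) (.cons (.br (nat_lit 3) (.cons (.rel (nat_lit 272711940)) .nil)) .nil)) (.node (.node .leaf (nat_lit 20041514582201) (.br (nat_lit 0) (.cons (.br (nat_lit 1) (.cons (.rel (nat_lit 22021248)) .nil)) .nil)) .leaf) (nat_lit 20041514583317) (.br (nat_lit 3) (.cons (.br (nat_lit 5) (.cons (.rel (nat_lit 4564484112)) (.cons (.rel (nat_lit 4563403089)) .nil))) .nil)) (.node .leaf (nat_lit 20041514583547) (.br (nat_lit 2) (.cons (.br (nat_lit 4) (.cons (.rel (nat_lit 1140850968)) (.cons (.rel (nat_lit 1140850968)) .nil))) (.cons (.br (nat_lit 3) (.cons (.rel (nat_lit 335545602)) (.cons (.rel (nat_lit 603988032)) .nil))) .nil))) .leaf))) (nat_lit 20041514674308) (.br (nat_lit 0) (.cons (.br (nat_lit 1) (.cons (.rel (nat_lit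 21504000)) .nil)) .nil)) (.node (.node (.node (.node .leaf (nat_lit 20041514674856) (.br (nat_lit 0) (.cons (.br (nat_lit 1) (.cons (.rel (nat_lit 21504000)) .nil)) .nil)) .leaf) (nat_lit 20041514675561) (.br (nat_lit 4) (.cons (.br (nat_lit 6) (.cons (.rel (nat_lit 36507223104)) (.cons (.rel (nat_lit 18253680648)) .nil))) .nil)) .leaf) (nat_lit 20041514698235) (.br (nat_lit 0) (.cons (.br (nat_lit 2) (.cons (.rel (nat_lit 71827488)) .nil)) .nil)) (.node .leaf (nat_lit 20041515351271) (.br (nat_lit 1) (.cons (.br (nat_lit 2) (.cons (.rel (nat_lit 83903808)) .nil)) .nil)) .leaf)) (nat_lit 20041515354389) (.br (nat_lit 6) (.cons (.br (nat_lit 0) (.cons (.rel (nat_lit 17184069648)) (.cons (.rel (nat_lit 17184063585)) (.cons (.rel (nat_lit 17184064584)) .nil)))) (.cons (.br (nat_lit 0) (.cons (.rel (nat_lit 17184069648)) (.cons (.rel (nat_lit 17184063585)) (.cons (.rel (nat_lit 17184064584)) .nil)))) .nil))) (.node (.node .leaf (nat_lit 20041515391661) (.br (nat_lit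 2) (.cons (.br (nat_lit 4) (.cons (.rel (nat_lit 2214666240)) .nil)) .nil)) .leaf) (nat_lit 20041515391886) (.br (nat_lit 1) (.cons (.br (nat_lit 0) (.cons (.rel (nat_lit 42209280)) (.cons (.rel (nat_lit 20988198)) .nil))) .nil)) (.node .leaf (nat_lit 20041515453947) (.br (nat_lit 5) (.cons (.br (nat_lit 3) (.cons (.rel (nat_lit 4831854609)) (.cons (.rel (nat_lit 4563665424)) .nil))) .nil)) .leaf)))) (nat_lit 20041515454715) (.br (nat_lit 0) (.cons (.br (nat_lit 1) (.cons (.rel (nat_lit 20989185)) (.cons (.rel (nat_lit 25165848)) .nil))) .nil)) (.node (.node (.node (.node (.node .leaf (nat_lit 20041515454745) (.br (nat_lit 0) (.cons (.br (nat_lit 3) (.cons (.rel (nat_lit 273678354)) .nil)) .nil)) .leaf) (nat_lit 20041515455346) (.br (nat_lit 0) (.cons (.br (nat_lit 2) (.cons (.rel (nat_lit 142868496)) .nil)) .nil)) .leaf) (nat_lit 20041515599084) (.br (nat_lit 1) (.cons (.br (nat_lit 2) (.cons (.rel (nat_lit 83919120)) .nil)) .nil)) (.node .leaf (nat_lit 20041515608090)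 (.br (nat_lit 2) (.cons (.br (nat_lit 5) (.cons (.rel (nat_lit 4362078528)) .nil)) .nil)) .leaf)) (nat_lit 20041515649085) (.br (nat_lit 3) (.cons (.br (nat_lit 2) (.cons (.br (nat_lit 6) (.cons (.rel (nat_lit 17448568128)) (.cons (.rel (nat_lit 34427109888)) (.cons (.rel (nat_lit 34896625668)) .nil)))) (.cons (.rel (nat_lit 336069696)) .nil))) .nil)) (.node (.node .leaf (nat_lit 20041515650555) (.br (nat_lit 3) (.cons (.br (nat_lit 0) (.cons (.rel (nat_lit 272631168)) (.cons (.rel (nat_lit 276825168)) .nil))) .nil)) .leaf) (nat_lit 20041515661364) (.br (nat_lit 2) (.cons (.br (nat_lit 6) (.cons (.rel (nat_lit 17246978208)) .nil)) .nil)) (.node .leaf (nat_lit 20041515661997) (.br (nat_lit 1) (.cons (.br (nat_lit 3) (.cons (.rel (nat_lit 553652304)) .nil)) .nil)) .leaf))) (nat_lit 20041515662843) (.br (nat_lit 1) (.cons (.br (nat_lit 3) (.cons (.rel (nat_lit 302006292)) .nil)) .nil)) (.node (.node (.node (.node .leaf (nat_lit 20041515721331) (.br (nat_lit 2)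 (.cons (.br (nat_lit 3) (.cons (.rel (nat_lit 336085008)) .nil)) .nil)) .leaf) (nat_lit 20041515903106) (.br (nat_lit 4) (.cons (.br (nat_lit 5) (.cons (.rel (nat_lit 5369766912)) .nil)) .nil)) .leaf) (nat_lit 20041515903882) (.br (nat_lit 0) (.cons (.br (nat_lit 1) (.cons (.rel (nat_lit 20976912)) (.cons (.rel (nat_lit 20971848)) .nil))) .nil)) (.node .leaf (nat_lit 20041515914747) (.br (nat_lit 0) (.cons (.br (nat_lit 4) (.cons (.rel (nat_lit 1078264320)) .nil)) .nil)) .leaf)) (nat_lit 20041515924366) (.br (nat_lit 5) (.cons (.br (nat_lit 1) (.cons (.rel (nat_lit 4311745794)) (.cons (.rel (nat_lit 4311830784)) .nil))) .nil)) (.node (.node .leaf (nat_lit 20041515969422) (.br (nat_lit 0) (.cons (.br (nat_lit 4) (.cons (.rel (nat_lit 1078988928)) (.cons (.rel (nat_lit 1077944592)) .nil))) .nil)) .leaf) (nat_lit 20041515969887) (.br (nat_lit 0) (.cons (.br (nat_lit 2) (.cons (.rel (nat_lit 71827488)) .nil)) .nil)) (.node .leaf (nat_lit 20054926185359) (.br (nat_lit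 0) (.cons (.br (nat_lit 2) (.cons (.rel (nat_lit 71312640)) .nil)) .nil)) .leaf))))))

/-- refutations 7 -/
def e7 : EX := (.node (.node (.node (.node .leaf (nat_lit 20170361819816) (.br (nat_lit 0) (.cons (.br (nat_lit 1) (.cons (.rel (nat_lit 20971848)) .nil)) .nil)) .leaf) (nat_lit 20170361861597) (.br (nat_lit 1) (.cons (.br (nat_lit 3) (.cons (.rel (nat_lit 285475392)) .nil)) .nil)) .leaf) (nat_lit 20170364485919) (.br (nat_lit 2) (.cons (.br (nat_lit 3) (.cons (.rel (nat_lit 335544612)) .nil)) .nil)) (.node (.node .leaf (nat_lit 20170424714141) (.br (nat_lit 3) (.cons (.br (nat_lit 6) (.cons (.rel (nat_lit 17448305793)) (.cons (.rel (nat_lit 17448568128)) .nil))) (.cons (.br (nat_lit 6) (.cons (.rel (nat_lit 17448337416)) (.cons (.rel (nat_lit 17448305793)) .nil))) .nil))) .leaf) (nat_lit 20174567178527) (.br (nat_lit 0) (.cons (.br (nat_lit 1) (.cons (.rel (nat_lit 20971848)) .nil)) .nil)) .leaf)) (nat_lit 23056581175328) (.br (nat_lit 1) (.cons (.br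 (nat_lit 2) (.cons (.rel (nat_lit 168034308)) (.cons (.rel (nat_lit 100664385)) .nil))) .nil)) (.node (.node (.node .leaf (nat_lit 23056581624113) (.br (nat_lit 0) (.cons (.br (nat_lit 1) (.cons (.rel (nat_lit 37834752)) .nil)) .nil)) .leaf) (nat_lit 23061727586336) (.br (nat_lit 1) (.cons (.br (nat_lit 2) (.cons (.rel (nat_lit 168034308)) (.cons (.rel (nat_lit 83903808)) .nil))) .nil)) .leaf) (nat_lit 23061727587580) (.br (nat_lit 0) (.cons (.br (nat_lit 1) (.cons (.rel (nat_lit 22102020)) .nil)) .nil)) (.node (.node .leaf (nat_lit 23227414142229) (.br (nat_lit 1) (.cons (.br (nat_lit 3) (.cons (.rel (nat_lit 286262277)) .nil)) .nil)) .leaf) (nat_lit 23233734660153) (.br (nat_lit 1) (.cons (.br (nat_lit 2) (.cons (.rel (nat_lit 83919120)) .nil)) .nil)) .leaf)))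

/-- refutations 8 -/
def e8 : EX := (.node (.node (.node (.node .leaf (nat_lit 24120771236521) (.br (nat_lit 1) (.cons (.br (nat_lit 2) (.cons (.rel (nat_lit 84935682)) .nil)) .nil)) .leaf) (nat_lit 24120771536150) (.br (nat_lit 2) (.cons (.br (nat_lit 3) (.cons (.rel (nat_lit 402657408)) .nil)) .nil)) .leaf) (nat_lit 24120774338865) (.br (nat_lit 2) (.cons (.br (nat_lit 6) (.cons (.rel (nat_lit 17246996544)) (.cons (.rel (nat_lit 17247010821)) .nil))) .nil)) (.node .leaf (nat_lit 24120774363773) (.br (nat_lit 0) (.cons (.br (nat_lit 2) (.cons (.rel (nat_lit 75514884)) .nil)) .nil)) .leaf)) (nat_lit 24123943978462) (.br (nat_lit 1) (.cons (.br (nat_lit 3) (.cons (.rel (nat_lit 285221124)) .nil)) .nil)) (.node (.node (.node .leaf (nat_lit 24125934424745) (.br (nat_lit 1) (.cons (.br (nat_lit 2) (.cons (.rel (nat_lit 84935682)) .nil)) .nil)) .leaf) (nat_lit 24129356960424) (.br (nat_lit 0) (.cons (.br (nat_lit 3) (.cons (.rel (nat_lit 273702912)) .nil)) .nil))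 .leaf) (nat_lit 24129356976128) (.br (nat_lit 5) (.cons (.br (nat_lit 0) (.cons (.rel (nat_lit 4300276740)) (.cons (.rel (nat_lit 4299163905)) .nil))) .nil)) (.node .leaf (nat_lit 24335834164600) (.br (nat_lit 0) (.cons (.br (nat_lit 2) (.cons (.rel (nat_lit 75497538)) .nil)) .nil)) .leaf)))

/-- refutations 10 -/
def e10 : EX := (.node (.node (.node (.node .leaf (nat_lit 25344090329388) (.br (nat_lit 0) (.cons (.br (nat_lit 2) (.cons (.rel (nat_lit 71436576)) .nil)) .nil)) .leaf) (nat_lit 25344090330640) (.br (nat_lit 0) (.cons (.br (nat_lit 2) (.cons (.rel (nat_lit 71336196)) .nil)) .nil)) (.node .leaf (nat_lit 25344091969721) (.br (nat_lit 0) (.cons (.br (nat_lit 4) (.cons (.rel (nat_lit 2156135424)) .nil)) .nil)) .leaf)) (nat_lit 25344092203008) (.br (nat_lit 0) (.cons (.br (nat_lit 1) (.cons (.rel (nat_lit 25165848)) .nil)) .nil)) (.node (.node .leaf (nat_lit 25344092204268) (.br (nat_lit 0) (.cons (.br (nat_lit 3) (.cons (.rel (nat_lit 276825168)) .nil))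 .nil)) .leaf) (nat_lit 25344092986225) (.br (nat_lit 3) (.cons (.br (nat_lit 4) (.cons (.rel (nat_lit 1342177554)) .nil)) .nil)) (.node .leaf (nat_lit 25344093498100) (.br (nat_lit 0) (.cons (.br (nat_lit 1) (.cons (.rel (nat_lit 21037344)) .nil)) .nil)) .leaf))) (nat_lit 25546696183808) (.br (nat_lit 0) (.cons (.br (nat_lit 2) (.cons (.rel (nat_lit 71312640)) .nil)) .nil)) (.node (.node (.node .leaf (nat_lit 25546696183983) (.br (nat_lit 0) (.cons (.br (nat_lit 1) (.cons (.rel (nat_lit 22102020)) .nil)) .nil)) .leaf) (nat_lit 25550349422767) (.br (nat_lit 2) (.cons (.br (nat_lit 3) (.cons (.rel (nat_lit 336592977)) .nil)) .nil)) (.node .leaf (nat_lit 25550349423977) (.br (nat_lit 0) (.cons (.br (nat_lit 1) (.cons (.rel (nat_lit 22021248)) .nil)) .nil)) .leaf)) (nat_lit 25550349424117) (.br (nat_lit 1) (.cons (.br (nat_lit 4) (.cons (.rel (nat_lit 1091569668)) .nil)) .nil)) (.node (.node .leaf (nat_lit 25550352024433) (.br (nat_lit 3) (.cons (.br (nat_lit 4)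 (.cons (.rel (nat_lit 1342177554)) .nil)) .nil)) .leaf) (nat_lit 25550392627502) (.br (nat_lit 1) (.cons (.br (nat_lit 0) (.cons (.rel (nat_lit 20971848)) (.cons (.rel (nat_lit 20971848)) .nil))) .nil)) .leaf)))

/-- refutations 11 -/
def e11 : EX := (.node (.node (.node .leaf (nat_lit 25555290314256) (.br (nat_lit 2) (.cons (.br (nat_lit 3) (.cons (.rel (nat_lit 402654225)) .nil)) .nil)) .leaf) (nat_lit 25558943552239) (.br (nat_lit 0) (.cons (.br (nat_lit 3) (.cons (.rel (nat_lit 541073409)) .nil)) .nil)) (.node .leaf (nat_lit 25558945374335) (.br (nat_lit 0) (.cons (.br (nat_lit 4) (.cons (.rel (nat_lit 2156135424)) .nil)) .nil)) .leaf)) (nat_lit 25558964523809) (.br (nat_lit 1) (.cons (.br (nat_lit 2) (.cons (.rel (nat_lit 83919120)) .nil)) .nil)) (.node (.node .leaf (nat_lit 25584709161741) (.br (nat_lit 0) (.cons (.br (nat_lit 1) (.cons (.rel (nat_lit 21037344)) .nil)) .nil)) .leaf) (nat_lit 25584726554126) (.br (nat_lit 0) (.cons (.br (nat_lit 1) (.cons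 (.rel (nat_lit 42222600)) .nil)) .nil)) .leaf))

/-- refutations 12 -/
def e12 : EX := (.node (.node (.node (.node (.node .leaf (nat_lit 25598239987216) (.br (nat_lit 1) (.cons (.br (nat_lit 3) (.cons (.rel (nat_lit 285736962)) .nil)) .nil)) .leaf) (nat_lit 25601914177045) (.br (nat_lit 3) (.cons (.br (nat_lit 4) (.cons (.rel (nat_lit 1610612772)) (.cons (.rel (nat_lit 1610612772)) .nil))) .nil)) (.node .leaf (nat_lit 25601914187280) (.br (nat_lit 3) (.cons (.br (nat_lit 5) (.cons (.rel (nat_lit 4564468800)) .nil)) .nil)) .leaf)) (nat_lit 25601915522555) (.br (nat_lit 0) (.cons (.br (nat_lit 1) (.cons (.rel (nat_lit 20976912)) .nil)) .nil)) (.node (.node .leaf (nat_lit 25601916760990) (.br (nat_lit 0) (.cons (.br (nat_lit 1) (.cons (.rel (nat_lit 42221601)) .nil)) .nil)) .leaf) (nat_lit 25601935148565) (.br (nat_lit 0) (.cons (.br (nat_lit 3) (.cons (.rel (nat_lit 272631168)) .nil)) .nil)) .leaf)) (nat_lit 25604002960912) (.br (nat_lit 1) (.cons (.br (nat_lit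 3) (.cons (.rel (nat_lit 285279552)) .nil)) .nil)) (.node (.node (.node .leaf (nat_lit 25644863850005) (.br (nat_lit 3) (.cons (.br (nat_lit 5) (.cons (.rel (nat_lit 4563419400)) .nil)) .nil)) .leaf) (nat_lit 25644863860240) (.br (nat_lit 0) (.cons (.br (nat_lit 3) (.cons (.rel (nat_lit 541134888)) .nil)) .nil)) (.node .leaf (nat_lit 25644884819970) (.br (nat_lit 0) (.cons (.br (nat_lit 3) (.cons (.rel (nat_lit 276840480)) .nil)) .nil)) .leaf)) (nat_lit 25644884821525) (.br (nat_lit 3) (.cons (.br (nat_lit 0) (.cons (.rel (nat_lit 272631168)) (.cons (.rel (nat_lit 273680388)) .nil))) .nil)) (.node (.node .leaf (nat_lit 25644884830513) (.br (nat_lit 0) (.cons (.br (nat_lit 1) (.cons (.rel (nat_lit 20989185)) .nil)) .nil)) .leaf) (nat_lit 25644884831760) (.br (nat_lit 0) (.cons (.br (nat_lit 3) (.cons (.rel (nat_lit 273687648)) .nil)) .nil)) .leaf))) (nat_lit 25644884840448) (.br (nat_lit 6) (.cons (.br (nat_lit 3) (.cons (.rel (nat_lit 17448321105)) (.cons (.rel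 (nat_lit 17448374292)) (.cons (.rel (nat_lit 34629304320)) .nil)))) .nil)) (.node (.node (.node (.node .leaf (nat_lit 25644884840498) (.br (nat_lit 0) (.cons (.br (nat_lit 1) (.cons (.rel (nat_lit 37748772)) .nil)) .nil)) .leaf) (nat_lit 25644884840748) (.br (nat_lit 4) (.cons (.br (nat_lit 0) (.cons (.rel (nat_lit 1078068480)) (.cons (.rel (nat_lit 1077952836)) .nil))) .nil)) (.node .leaf (nat_lit 25644884925971) (.br (nat_lit 0) (.cons (.br (nat_lit 1) (.cons (.rel (nat_lit 20971848)) .nil)) .nil)) .leaf)) (nat_lit 25644885138660) (.br (nat_lit 3) (.cons (.br (nat_lit 6) (.cons (.rel (nat_lit 17448308832)) .nil)) .nil)) (.node (.node .leaf (nat_lit 25644885152520) (.br (nat_lit 1) (.cons (.br (nat_lit 2) (.cons (.rel (nat_lit 86245392)) .nil)) .nil)) .leaf) (nat_lit 25644885386142) (.br (nat_lit 1) (.cons (.br (nat_lit 3) (.cons (.rel (nat_lit 285475392)) .nil)) .nil)) .leaf)) (nat_lit 25644886176555) (.br (nat_lit 3) (.cons (.br (nat_lit 5) (.cons (.rel (nat_lit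 4831842336)) .nil)) .nil)) (.node (.node (.node .leaf (nat_lit 25644886480898) (.br (nat_lit 0) (.cons (.br (nat_lit 2) (.cons (.rel (nat_lit 71312640)) .nil)) .nil)) .leaf) (nat_lit 25644887395230) (.br (nat_lit 0) (.cons (.br (nat_lit 6) (.cons (.rel (nat_lit 17184081921)) (.cons (.rel (nat_lit 17184202752)) (.cons (.rel (nat_lit 17184130080)) .nil)))) (.cons (.br (nat_lit 3) (.cons (.rel (nat_lit 276890628)) (.cons (.rel (nat_lit 272646480)) .nil))) .nil))) .leaf) (nat_lit 25644887485803) (.br (nat_lit 0) (.cons (.br (nat_lit 1) (.cons (.rel (nat_lit 20971848)) .nil)) .nil)) (.node (.node .leaf (nat_lit 25644887661225) (.br (nat_lit 3) (.cons (.br (nat_lit 0) (.cons (.rel (nat_lit 541082688)) (.cons (.rel (nat_lit 273155073)) .nil))) .nil)) .leaf) (nat_lit 25644887897625) (.br (nat_lit 0) (.cons (.br (nat_lit 3) (.cons (.rel (nat_lit 276824133)) .nil)) .nil)) .leaf))))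

/-- refutations 13 -/
def e13 : EX := (.node (.node (.node (.node (.node .leaf (nat_lit 28329605944821) (.br (nat_lit 0) (.cons (.br (nat_lit 1) (.cons (.rel (nat_lit 37749762)) .nil)) .nil)) .leaf) (nat_lit 28329839185920) (.br (nat_lit 0) (.cons (.br (nat_lit 2) (.cons (.rel (nat_lit 142870533)) .nil)) .nil)) .leaf) (nat_lit 28329839186601) (.br (nat_lit 4) (.cons (.br (nat_lit 0) (.cons (.rel (nat_lit 1078068480)) (.cons (.rel (nat_lit 1079083008)) (.cons (.rel (nat_lit 1079083008)) (.cons (.rel (nat_lit 1082146836)) .nil))))) .nil)) (.node .leaf (nat_lit 28329839187422) (.br (nat_lit 0) (.cons (.br (nat_lit 5) (.cons (.rel (nat_lit 4300226592)) .nil)) .nil)) .leaf)) (nat_lit 28333425317342) (.br (nat_lit 0) (.cons (.br (nat_lit 2) (.cons (.rel (nat_lit 71373072)) .nil)) .nil)) (.node (.node .leaf (nat_lit 28333530174725) (.br (nat_lit 0) (.cons (.br (nat_lit 2) (.cons (.rel (nat_lit 138433536)) .nil)) .nil)) .leaf) (nat_lit 28333531506995) (.br (nat_lit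 0) (.cons (.br (nat_lit 1) (.cons (.rel (nat_lit 37749762)) .nil)) .nil)) (.node .leaf (nat_lit 28333533229866) (.br (nat_lit 0) (.cons (.br (nat_lit 1) (.cons (.rel (nat_lit 20989185)) .nil)) .nil)) .leaf))) (nat_lit 28333533230617) (.br (nat_lit 1) (.cons (.br (nat_lit 3) (.cons (.rel (nat_lit 285736962)) .nil)) .nil)) (.node (.node (.node .leaf (nat_lit 28333537536781) (.br (nat_lit 0) (.cons (.br (nat_lit 2) (.cons (.rel (nat_lit 71336196)) .nil)) .nil)) .leaf) (nat_lit 28334868156416) (.br (nat_lit 2) (.cons (.br (nat_lit 6) (.cons (.rel (nat_lit 17316200448)) .nil)) .nil)) (.node .leaf (nat_lit 28334868156716) (.br (nat_lit 0) (.cons (.br (nat_lit 1) (.cons (.rel (nat_lit 22036560)) .nil)) .nil)) .leaf)) (nat_lit 28334868197431) (.br (nat_lit 0) (.cons (.br (nat_lit 2) (.cons (.rel (nat_lit 71336196)) .nil)) .nil)) (.node (.node .leaf (nat_lit 28334869794816) (.br (nat_lit 0) (.cons (.br (nat_lit 1) (.cons (.rel (nat_lit 25165848)) .nil)) .nil)) .leaf)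 (nat_lit 28334870033796) (.br (nat_lit 0) (.cons (.br (nat_lit 4) (.cons (.rel (nat_lit 2156135424)) .nil)) .nil)) (.node .leaf (nat_lit 28334893322240) (.br (nat_lit 0) (.cons (.br (nat_lit 1) (.cons (.rel (nat_lit 22151169)) .nil)) .nil)) .leaf))))

/-- refutations 14 -/
def e14 : EX := (.node (.node (.node .leaf (nat_lit 28425288962228) (.br (nat_lit 0) (.cons (.br (nat_lit 1) (.cons (.rel (nat_lit 21037344)) .nil)) .nil)) .leaf) (nat_lit 28429382602932) (.br (nat_lit 0) (.cons (.br (nat_lit 1) (.cons (.rel (nat_lit 20971848)) .nil)) .nil)) (.node .leaf (nat_lit 28429382604037) (.br (nat_lit 0) (.cons (.br (nat_lit 5) (.cons (.rel (nat_lit 4303486980)) .nil)) .nil)) .leaf)) (nat_lit 28429384491933) (.br (nat_lit 3) (.cons (.br (nat_lit 2) (.cons (.rel (nat_lit 335545602)) (.cons (.rel (nat_lit 335544612)) .nil))) .nil)) (.node (.node .leaf (nat_lit 28429385270553) (.br (nat_lit 1) (.cons (.br (nat_lit 2) (.cons (.rel (nat_lit 84934692)) .nil)) .nil)) .leaf)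 (nat_lit 28601159232298) (.br (nat_lit 0) (.cons (.br (nat_lit 2) (.cons (.rel (nat_lit 71385345)) .nil)) .nil)) .leaf))

/-- refutations 15 -/
def e15 : EX := (.node (.node (.node (.node (.node .leaf (nat_lit 28648606290570) (.br (nat_lit 1) (.cons (.br (nat_lit 0) (.cons (.rel (nat_lit 25167873)) (.cons (.rel (nat_lit 37749762)) .nil))) .nil)) .leaf) (nat_lit 28648627255322) (.br (nat_lit 0) (.cons (.br (nat_lit 2) (.cons (.rel (nat_lit 72353793)) .nil)) .nil)) .leaf) (nat_lit 28651357753401) (.br (nat_lit 1) (.cons (.br (nat_lit 4) (.cons (.rel (nat_lit 1091044353)) .nil)) .nil)) (.node .leaf (nat_lit 28651361949023) (.br (nat_lit 0) (.cons (.br (nat_lit 1) (.cons (.rel (nat_lit 25204752)) .nil)) .nil)) .leaf)) (nat_lit 28652829954098) (.br (nat_lit 3) (.cons (.br (nat_lit 4) (.cons (.rel (nat_lit 2415919128)) .nil)) .nil)) (.node (.node (.node .leaf (nat_lit 28652829954698) (.br (nat_lit 3) (.cons (.br (nat_lit 4) (.cons (.rel (nat_lit 1342210404)) .nil))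 .nil)) .leaf) (nat_lit 28652829954734) (.br (nat_lit 0) (.cons (.br (nat_lit 2) (.cons (.rel (nat_lit 71336196)) .nil)) .nil)) .leaf) (nat_lit 28652831286773) (.br (nat_lit 1) (.cons (.br (nat_lit 3) (.cons (.rel (nat_lit 285221124)) .nil)) .nil)) (.node .leaf (nat_lit 28652831594801) (.br (nat_lit 1) (.cons (.br (nat_lit 2) (.cons (.rel (nat_lit 83890500)) .nil)) .nil)) .leaf))) (nat_lit 28652832598321) (.br (nat_lit 0) (.cons (.br (nat_lit 2) (.cons (.rel (nat_lit 142868496)) .nil)) .nil)) (.node (.node (.node (.node .leaf (nat_lit 28652832774945) (.br (nat_lit 2) (.cons (.br (nat_lit 3) (.cons (.rel (nat_lit 603979785)) .nil)) .nil)) .leaf) (nat_lit 28652832775556) (.br (nat_lit 6) (.cons (.br (nat_lit 0) (.cons (.rel (nat_lit 17184081921)) (.cons (.rel (nat_lit 17184064584)) .nil))) .nil)) .leaf) (nat_lit 28807524274226) (.br (nat_lit 4) (.cons (.br (nat_lit 6) (.cons (.rel (nat_lit 18253680648)) (.cons (.br (nat_lit 1) (.cons (.rel (nat_lit 17196662820))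 (.cons (.rel (nat_lit 17196646473)) .nil))) .nil))) .nil)) (.node .leaf (nat_lit 28808048562226) (.br (nat_lit 0) (.cons (.br (nat_lit 4) (.cons (.rel (nat_lit 1082131524)) .nil)) .nil)) .leaf)) (nat_lit 28824497226615) (.br (nat_lit 0) (.cons (.br (nat_lit 2) (.cons (.rel (nat_lit 71827488)) .nil)) .nil)) (.node (.node (.node .leaf (nat_lit 28824582508601) (.br (nat_lit 0) (.cons (.br (nat_lit 4) (.cons (.rel (nat_lit 1078068480)) .nil)) .nil)) .leaf) (nat_lit 28824712521733) (.br (nat_lit 1) (.cons (.br (nat_lit 3) (.cons (.rel (nat_lit 285294864)) .nil)) .nil)) .leaf) (nat_lit 28824714408841) (.br (nat_lit 0) (.cons (.br (nat_lit 1) (.cons (.rel (nat_lit 21037344)) .nil)) .nil)) (.node .leaf (nat_lit 28824715393929) (.br (nat_lit 1) (.cons (.br (nat_lit 2) (.cons (.rel (nat_lit 84410376)) .nil)) .nil)) .leaf))))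

/-- refutations 16 -/
def e16 : EX := (.node (.node (.node (.node .leaf (nat_lit 29464673714208) (.br (nat_lit 0) (.cons (.br (nat_lit 4) (.cons (.rel (nat_lit 1077944592)) .nil)) .nil)) .leaf) (nat_lit 29876027412655) (.br (nat_lit 1) (.cons (.br (nat_lit 5) (.cons (.rel (nat_lit 4312809480)) .nil)) .nil)) (.node .leaf (nat_lit 29879701622784) (.br (nat_lit 1) (.cons (.br (nat_lit 3) (.cons (.rel (nat_lit 286262277)) .nil)) .nil)) .leaf)) (nat_lit 29879701622959) (.br (nat_lit 1) (.cons (.br (nat_lit 0) (.cons (.rel (nat_lit 21504000)) (.cons (.rel (nat_lit 20971848)) .nil))) .nil)) (.node (.node .leaf (nat_lit 29879704279796) (.br (nat_lit 0) (.cons (.br (nat_lit 1) (.cons (.rel (nat_lit 22036560)) .nil)) .nil)) .leaf) (nat_lit 29879722584249) (.br (nat_lit 1) (.cons (.br (nat_lit 2) (.cons (.rel (nat_lit 84934692)) .nil)) .nil)) .leaf)) (nat_lit 29879722594479) (.br (nat_lit 3) (.cons (.br (nat_lit 4) (.cons (.rel (nat_lit 1610612772)) .nil)) .nil)) (.node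 (.node (.node .leaf (nat_lit 29879723931006) (.br (nat_lit 0) (.cons (.br (nat_lit 4) (.cons (.rel (nat_lit 2151682128)) .nil)) .nil)) .leaf) (nat_lit 29881266098351) (.br (nat_lit 5) (.cons (.br (nat_lit 1) (.cons (.rel (nat_lit 4312269888)) (.cons (.rel (nat_lit 4311875904)) .nil))) .nil)) .leaf) (nat_lit 29881790386351) (.br (nat_lit 4) (.cons (.br (nat_lit 6) (.cons (.br (nat_lit 3) (.cons (.rel (nat_lit 34896625668)) (.cons (.rel (nat_lit 17448327168)) .nil))) (.cons (.rel (nat_lit 36507238416)) .nil))) .nil)) (.node (.node .leaf (nat_lit 29881790734466) (.br (nat_lit 1) (.cons (.br (nat_lit 5) (.cons (.rel (nat_lit 4328555520)) .nil)) .nil)) .leaf) (nat_lit 29882314674351) (.br (nat_lit 1) (.cons (.br (nat_lit 2) (.cons (.rel (nat_lit 86245392)) (.cons (.rel (nat_lit 100730880)) .nil))) (.cons (.br (nat_lit 2) (.cons (.rel (nat_lit 83903808)) (.cons (.rel (nat_lit 83890500)) .nil))) .nil))) .leaf)))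

/-- refutations 17 -/
def e17 : EX := (.node (.node (.node (.node (.node .leaf (nat_lit 29918977065140) (.br (nat_lit 1) (.cons (.br (nat_lit 3) (.cons (.rel (nat_lit 570687489)) .nil)) .nil)) .leaf) (nat_lit 29918977065145) (.br (nat_lit 1) (.cons (.br (nat_lit 0) (.cons (.br (nat_lit 2) (.cons (.rel (nat_lit 100730880)) (.cons (.rel (nat_lit 138493968)) .nil))) (.cons (.rel (nat_lit 25165848)) .nil))) .nil)) .leaf) (nat_lit 29919937581743) (.br (nat_lit 1) (.cons (.br (nat_lit 2) (.cons (.rel (nat_lit 84934692)) .nil)) .nil)) (.node .leaf (nat_lit 29921405567161) (.br (nat_lit 1) (.cons (.br (nat_lit 2) (.cons (.rel (nat_lit 100730880)) .nil)) .nil)) .leaf)) (nat_lit 29922630303924) (.br (nat_lit 1) (.cons (.br (nat_lit 3) (.cons (.rel (nat_lit 570687489)) .nil)) .nil)) (.node (.node (.node .leaf (nat_lit 29922630303929) (.br (nat_lit 1) (.cons (.br (nat_lit 4) (.cons (.rel (nat_lit 1107558672)) .nil)) .nil)) .leaf) (nat_lit 29922630324404) (.br (nat_lit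 0) (.cons (.br (nat_lit 3) (.cons (.rel (nat_lit 272631168)) .nil)) .nil)) .leaf) (nat_lit 29922630325025) (.br (nat_lit 0) (.cons (.br (nat_lit 2) (.cons (.rel (nat_lit 71312640)) .nil)) .nil)) (.node .leaf (nat_lit 29922631658774) (.br (nat_lit 0) (.cons (.br (nat_lit 1) (.cons (.rel (nat_lit 20971848)) .nil)) .nil)) .leaf))) (nat_lit 29924761030791) (.br (nat_lit 0) (.cons (.br (nat_lit 1) (.cons (.rel (nat_lit 20976912)) .nil)) .nil)) (.node (.node (.node (.node .leaf (nat_lit 29924761030841) (.br (nat_lit 2) (.cons (.br (nat_lit 3) (.cons (.rel (nat_lit 335544612)) (.cons (.rel (nat_lit 336659472)) .nil))) .nil)) .leaf) (nat_lit 29924761031457) (.br (nat_lit 1) (.cons (.br (nat_lit 2) (.cons (.rel (nat_lit 151127040)) .nil)) .nil)) .leaf) (nat_lit 29924761031586) (.br (nat_lit 0) (.cons (.br (nat_lit 4) (.cons (.rel (nat_lit 1077944592)) .nil)) .nil)) (.node .leaf (nat_lit 29924762364204) (.br (nat_lit 1) (.cons (.br (nat_lit 5) (.cons (.rel (nat_lit 4312799232))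 .nil)) .nil)) .leaf)) (nat_lit 29924764155268) (.br (nat_lit 2) (.cons (.br (nat_lit 3) (.cons (.rel (nat_lit 336069696)) .nil)) .nil)) (.node (.node .leaf (nat_lit 29924764158753) (.br (nat_lit 0) (.cons (.br (nat_lit 1) (.cons (.rel (nat_lit 25165848)) .nil)) .nil)) .leaf) (nat_lit 30523310966286) (.br (nat_lit 0) (.cons (.br (nat_lit 1) (.cons (.rel (nat_lit 20971848)) .nil)) .nil)) (.node .leaf (nat_lit 30526353157648) (.br (nat_lit 0) (.cons (.br (nat_lit 1) (.cons (.rel (nat_lit 21504000)) .nil)) .nil)) .leaf))))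

/-- refutations 18 -/
def e18 : EX := (.node (.node (.node .leaf (nat_lit 30578101930289) (.br (nat_lit 1) (.cons (.br (nat_lit 4) (.cons (.rel (nat_lit 1107558672)) .nil)) .nil)) .leaf) (nat_lit 30749797404948) (.br (nat_lit 3) (.cons (.br (nat_lit 6) (.cons (.rel (nat_lit 17448305793)) .nil)) .nil)) .leaf) (nat_lit 30780483014961) (.br (nat_lit 0) (.cons (.br (nat_lit 2) (.cons (.rel (nat_lit 138478656)) .nil)) .nil)) (.node (.node .leaf (nat_lit 30781666340994) (.br (nat_lit 0) (.cons (.br (nat_lit 1) (.cons (.rel (nat_lit 22021248)) .nil)) .nil)) .leaf) (nat_lit 30906819863929) (.br (nat_lit 0) (.cons (.br (nat_lit 1) (.cons (.rel (nat_lit 20971848)) .nil)) .nil)) .leaf))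

/-- refutations 19 -/
def e19 : EX := (.node (.node (.node (.node (.node .leaf (nat_lit 30952940131736) (.br (nat_lit 1) (.cons (.br (nat_lit 2) (.cons (.rel (nat_lit 84934692)) .nil)) .nil)) .leaf) (nat_lit 30952940131806) (.br (nat_lit 1) (.cons (.br (nat_lit 3) (.cons (.rel (nat_lit 554697216)) .nil)) .nil)) .leaf) (nat_lit 30953317617964) (.br (nat_lit 6) (.cons (.br (nat_lit 0) (.cons (.rel (nat_lit 17184081921)) (.cons (.rel (nat_lit 17184129045)) .nil))) .nil)) (.node (.node .leaf (nat_lit 30955532200241) (.br (nat_lit 1) (.cons (.br (nat_lit 2) (.cons (.rel (nat_lit 83919120)) .nil)) .nil)) .leaf) (nat_lit 30955532210476) (.br (nat_lit 3) (.cons (.br (nat_lit 4) (.cons (.rel (nat_lit 1342179588)) .nil)) .nil)) .leaf)) (nat_lit 30955532507441) (.br (nat_lit 1) (.cons (.br (nat_lit 3) (.cons (.rel (nat_lit 285221124)) .nil)) .nil)) (.node (.node (.node .leaf (nat_lit 30956056478001) (.br (nat_lit 3) (.cons (.br (nat_lit 2) (.cons (.rel (nat_lit 335545602))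 (.cons (.rel (nat_lit 336069696)) .nil))) .nil)) .leaf) (nat_lit 30956056498176) (.br (nat_lit 1) (.cons (.br (nat_lit 2) (.cons (.rel (nat_lit 83890500)) (.cons (.rel (nat_lit 84410376)) .nil))) (.cons (.br (nat_lit 3) (.cons (.rel (nat_lit 285234432)) (.cons (.rel (nat_lit 286396416)) .nil))) .nil))) .leaf) (nat_lit 30956056498476) (.br (nat_lit 3) (.cons (.br (nat_lit 4) (.cons (.rel (nat_lit 1342179588)) (.cons (.rel (nat_lit 1343243265)) .nil))) (.cons (.br (nat_lit 4) (.cons (.br (nat_lit 6) (.cons (.rel (nat_lit 17448327168)) (.cons (.br (nat_lit 5) (.cons (.rel (nat_lit 4563469584)) (.cons (.rel (nat_lit 21474844752)) (.cons (.rel (nat_lit 4564484112)) .nil)))) .nil))) (.cons (.rel (nat_lit 1343291424)) .nil))) .nil))) (.node .leaf (nat_lit 30956056499678) (.br (nat_lit 0) (.cons (.br (nat_lit 3) (.cons (.rel (nat_lit 273702912)) .nil)) .nil)) .leaf))) (nat_lit 30956056795441) (.br (nat_lit 5) (.cons (.br (nat_lit 3) (.cons (.rel (nat_lit 4563409152))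 (.cons (.rel (nat_lit 8858378256)) (.cons (.rel (nat_lit 4563665424)) (.cons (.rel (nat_lit 8858378256)) .nil))))) .nil)) (.node (.node (.node (.node .leaf (nat_lit 30956056795887) (.br (nat_lit 3) (.cons (.br (nat_lit 4) (.cons (.rel (nat_lit 1342202112)) .nil)) .nil)) .leaf) (nat_lit 30956056796568) (.br (nat_lit 0) (.cons (.br (nat_lit 3) (.cons (.rel (nat_lit 272631168)) .nil)) .nil)) .leaf) (nat_lit 30956057781150) (.br (nat_lit 3) (.cons (.br (nat_lit 6) (.cons (.br (nat_lit 2) (.cons (.rel (nat_lit 17247109128)) (.cons (.rel (nat_lit 336069696)) (.cons (.rel (nat_lit 34494220548)) (.cons (.rel (nat_lit 17246983236)) .nil))))) (.cons (.br (nat_lit 1) (.cons (.rel (nat_lit 17196908808)) (.cons (.rel (nat_lit 34377564228)) (.cons (.rel (nat_lit 553652304)) .nil)))) .nil))) .nil)) (.node (.node .leaf (nat_lit 30956059049496) (.br (nat_lit 0) (.cons (.br (nat_lit 2) (.cons (.rel (nat_lit 138420228)) .nil)) .nil)) .leaf) (nat_lit 30956059052337) (.br (nat_lit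 1) (.cons (.br (nat_lit 6) (.cons (.rel (nat_lit 17196654720)) (.cons (.rel (nat_lit 17198743824)) .nil))) (.cons (.br (nat_lit 5) (.cons (.rel (nat_lit 4312859664)) (.cons (.rel (nat_lit 4312269888)) (.cons (.rel (nat_lit 4311744804)) .nil)))) .nil))) .leaf)) (nat_lit 30956059099311) (.br (nat_lit 1) (.cons (.br (nat_lit 4) (.cons (.rel (nat_lit 2164330512)) .nil)) .nil)) (.node (.node (.node .leaf (nat_lit 30956059370859) (.br (nat_lit 0) (.cons (.br (nat_lit 2) (.cons (.rel (nat_lit 72351768)) .nil)) .nil)) .leaf) (nat_lit 30956059555224) (.br (nat_lit 0) (.cons (.br (nat_lit 1) (.cons (.rel (nat_lit 42209280)) (.cons (.rel (nat_lit 37748772)) .nil))) (.cons (.br (nat_lit 6) (.cons (.rel (nat_lit 34368196608)) (.cons (.rel (nat_lit 17184081921)) (.cons (.rel (nat_lit 17184069648)) .nil)))) .nil))) .leaf) (nat_lit 31009894585250) (.br (nat_lit 0) (.cons (.br (nat_lit 1) (.cons (.rel (nat_lit 42209280)) .nil)) .nil)) (.node .leaf (nat_lit 31016188912542) (.br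 (nat_lit 1) (.cons (.br (nat_lit 2) (.cons (.rel (nat_lit 100667424)) .nil)) .nil)) .leaf))))

/-- refutations 20 -/
def e20 : EX := (.node (.node (.node (.node (.node .leaf (nat_lit 105982822722216) (.br (nat_lit 3) (.cons (.br (nat_lit 0) (.cons (.rel (nat_lit 276890628)) (.cons (.rel (nat_lit 541073409)) .nil))) .nil)) .leaf) (nat_lit 105982843693736) (.br (nat_lit 2) (.cons (.br (nat_lit 1) (.cons (.rel (nat_lit 100926720)) (.cons (.rel (nat_lit 84935682)) (.cons (.rel (nat_lit 83903808)) .nil)))) (.cons (.br (nat_lit 1) (.cons (.rel (nat_lit 84934692)) (.cons (.rel (nat_lit 100679697)) (.cons (.rel (nat_lit 83919120)) .nil)))) .nil))) .leaf) (nat_lit 105982843703977) (.br (nat_lit 0) (.cons (.br (nat_lit 2) (.cons (.rel (nat_lit 71336196)) .nil)) .nil)) (.node (.node .leaf (nat_lit 105982864665256) (.br (nat_lit 0) (.cons (.br (nat_lit 2) (.cons (.rel (nat_lit 71312640)) (.cons (.rel (nat_lit 71373072)) .nil))) (.cons (.br (nat_lit 2) (.cons (.rel (nat_lit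 71336196)) (.cons (.rel (nat_lit 71827488)) .nil))) .nil))) .leaf) (nat_lit 105982864675491) (.br (nat_lit 2) (.cons (.br (nat_lit 3) (.cons (.rel (nat_lit 335630592)) .nil)) .nil)) .leaf)) (nat_lit 106025793366696) (.br (nat_lit 2) (.cons (.br (nat_lit 0) (.cons (.rel (nat_lit 71336196)) (.cons (.rel (nat_lit 138420228)) .nil))) .nil)) (.node (.node (.node .leaf (nat_lit 106025793376937) (.br (nat_lit 0) (.cons (.br (nat_lit 3) (.cons (.rel (nat_lit 272711940)) .nil)) .nil)) .leaf) (nat_lit 106025814348451) (.br (nat_lit 2) (.cons (.br (nat_lit 3) (.cons (.rel (nat_lit 335630592)) .nil)) .nil)) .leaf) (nat_lit 106025814348457) (.br (nat_lit 0) (.cons (.br (nat_lit 2) (.cons (.rel (nat_lit 138433536)) .nil)) .nil)) (.node .leaf (nat_lit 106025814348461) (.br (nat_lit 2) (.cons (.br (nat_lit 0) (.cons (.rel (nat_lit 71385345)) (.cons (.rel (nat_lit 71385345)) .nil))) .nil)) .leaf))) (nat_lit 106068722057896) (.br (nat_lit 5) (.cons (.br (nat_lit 0) (.cons (.rel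 (nat_lit 4303376400)) (.cons (.rel (nat_lit 4300226592)) .nil))) .nil)) (.node (.node (.node (.node .leaf (nat_lit 106068725192061) (.br (nat_lit 2) (.cons (.br (nat_lit 5) (.cons (.rel (nat_lit 8657047632)) .nil)) .nil)) .leaf) (nat_lit 106068743039656) (.br (nat_lit 2) (.cons (.br (nat_lit 5) (.cons (.rel (nat_lit 4429201428)) .nil)) .nil)) .leaf) (nat_lit 106068764011171) (.br (nat_lit 3) (.cons (.br (nat_lit 2) (.cons (.rel (nat_lit 336085008)) (.cons (.rel (nat_lit 336659472)) (.cons (.rel (nat_lit 604116996)) .nil)))) (.cons (.br (nat_lit 2) (.cons (.rel (nat_lit 335545602)) (.cons (.rel (nat_lit 335545602)) (.cons (.rel (nat_lit 335630592)) .nil)))) .nil))) (.node .leaf (nat_lit 106068764021411) (.br (nat_lit 3) (.cons (.br (nat_lit 2) (.cons (.rel (nat_lit 335544612)) (.cons (.rel (nat_lit 335675712)) .nil))) .nil)) .leaf)) (nat_lit 106068764021421) (.br (nat_lit 2) (.cons (.br (nat_lit 5) (.cons (.rel (nat_lit 4429190145)) .nil)) .nil)) (.node (.node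 (.node .leaf (nat_lit 106670353033976) (.br (nat_lit 2) (.cons (.br (nat_lit 3) (.cons (.rel (nat_lit 335545602)) .nil)) .nil)) .leaf) (nat_lit 106670353044206) (.br (nat_lit 2) (.cons (.br (nat_lit 3) (.cons (.rel (nat_lit 335545602)) .nil)) .nil)) .leaf) (nat_lit 106670353351556) (.br (nat_lit 1) (.cons (.br (nat_lit 3) (.cons (.rel (nat_lit 286263312)) .nil)) .nil)) (.node .leaf (nat_lit 108002443319976) (.br (nat_lit 0) (.cons (.br (nat_lit 1) (.cons (.rel (nat_lit 20989185)) .nil)) .nil)) .leaf))))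

/-- refutations 21 -/
def e21 : EX := (.node (.node .leaf (nat_lit 113519894736405) (.br (nat_lit 0) (.cons (.br (nat_lit 5) (.cons (.rel (nat_lit 4299182400)) .nil)) .nil)) .leaf) (nat_lit 113605794072090) (.br (nat_lit 0) (.cons (.br (nat_lit 2) (.cons (.rel (nat_lit 71827488)) .nil)) .nil)) (.node .leaf (nat_lit 113605815042353) (.br (nat_lit 0) (.cons (.br (nat_lit 3) (.cons (.rel (nat_lit 276890628)) .nil)) .nil)) .leaf))

/-- refutations 22 -/
def e22 : EX := (.node (.node .leaf (nat_lit 116823341137982) (.br (nat_lit 1) (.cons (.br (nat_lit 2) (.cons (.rel (nat_lit 100664385)) .nil)) .nil)) .leaf) (nat_lit 118959433056566) (.br (nat_lit 1) (.cons (.br (nat_lit 2) (.cons (.rel (nat_lit 83919120)) .nil)) .nil)) .leaf)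

/-- refutations 23 -/
def e23 : EX := (.node (.node (.node (.node (.node .leaf (nat_lit 193943752934056) (.br (nat_lit 2) (.cons (.br (nat_lit 3) (.cons (.rel (nat_lit 335545602)) .nil)) .nil)) .leaf) (nat_lit 193943752954541) (.br (nat_lit 2) (.cons (.br (nat_lit 5) (.cons (.rel (nat_lit 4362082569)) (.cons (.rel (nat_lit 4362080532)) (.cons (.rel (nat_lit 8726266881)) .nil)))) .nil)) .leaf) (nat_lit 193943773905571) (.br (nat_lit 2) (.cons (.br (nat_lit 3) (.cons (.rel (nat_lit 335630592)) .nil)) .nil)) (.node (.node .leaf (nat_lit 193943773915821) (.br (nat_lit 2) (.cons (.br (nat_lit 6) (.cons (.rel (nat_lit 17247059970)) .nil)) .nil)) .leaf) (nat_lit 193943794877096) (.br (nat_lit 3) (.cons (.br (nat_lit 5) (.cons (.rel (nat_lit 4564484112)) .nil)) .nil)) .leaf)) (nat_lit 193958131028268) (.br (nat_lit 1) (.cons (.br (nat_lit 6) (.cons (.rel (nat_lit 17196712968)) (.cons (.rel (nat_lit 17196654720)) .nil))) .nil)) (.node (.node (.node .leaf (nat_lit 193986702617251)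 (.br (nat_lit 0) (.cons (.br (nat_lit 2) (.cons (.rel (nat_lit 75501576)) .nil)) .nil)) .leaf) (nat_lit 193986723578531) (.br (nat_lit 2) (.cons (.br (nat_lit 5) (.cons (.rel (nat_lit 4362078528)) .nil)) .nil)) .leaf) (nat_lit 193986723578536) (.br (nat_lit 3) (.cons (.br (nat_lit 4) (.cons (.rel (nat_lit 1610612772)) (.cons (.rel (nat_lit 1610743872)) (.cons (.rel (nat_lit 1610612772)) .nil)))) .nil)) (.node .leaf (nat_lit 193986723588781) (.br (nat_lit 2) (.cons (.br (nat_lit 3) (.cons (.rel (nat_lit 335544612)) (.cons (.rel (nat_lit 335675712)) .nil))) (.cons (.br (nat_lit 3) (.cons (.rel (nat_lit 603979785)) (.cons (.rel (nat_lit 335675712)) .nil))) .nil))) .leaf))) (nat_lit 193986723599021) (.br (nat_lit 2) (.cons (.br (nat_lit 3) (.cons (.rel (nat_lit 335544612)) .nil)) .nil)) (.node (.node (.node (.node .leaf (nat_lit 193986723599722) (.br (nat_lit 2) (.cons (.br (nat_lit 3) (.cons (.rel (nat_lit 335544612)) .nil)) .nil)) .leaf) (nat_lit 193986744550056)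 (.br (nat_lit 3) (.cons (.br (nat_lit 5) (.cons (.rel (nat_lit 4831854609)) .nil)) .nil)) .leaf) (nat_lit 194029652279976) (.br (nat_lit 0) (.cons (.br (nat_lit 2) (.cons (.rel (nat_lit 71373072)) .nil)) .nil)) (.node (.node .leaf (nat_lit 194029673251491) (.br (nat_lit 2) (.cons (.br (nat_lit 0) (.cons (.rel (nat_lit 71336196)) (.cons (.rel (nat_lit 71312640)) .nil))) .nil)) .leaf) (nat_lit 194029673271981) (.br (nat_lit 3) (.cons (.br (nat_lit 0) (.cons (.rel (nat_lit 276824133)) (.cons (.rel (nat_lit 273155073)) .nil))) .nil)) .leaf)) (nat_lit 194029694233251) (.br (nat_lit 3) (.cons (.br (nat_lit 5) (.cons (.rel (nat_lit 4563403089)) .nil)) .nil)) (.node (.node (.node .leaf (nat_lit 194029694243496) (.br (nat_lit 3) (.cons (.br (nat_lit 5) (.cons (.rel (nat_lit 4831842336)) .nil)) .nil)) .leaf) (nat_lit 194029694243502) (.br (nat_lit 0) (.cons (.br (nat_lit 4) (.cons (.rel (nat_lit 1078068480)) .nil)) .nil)) .leaf) (nat_lit 194630968693416) (.br (nat_lit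 3) (.cons (.br (nat_lit 5) (.cons (.rel (nat_lit 4563419400)) .nil)) .nil)) (.node .leaf (nat_lit 195963352273806) (.br (nat_lit 2) (.cons (.br (nat_lit 3) (.cons (.rel (nat_lit 603980820)) .nil)) .nil)) .leaf))))

/-- refutations 24 -/
def e24 : EX := (.node (.node (.node .leaf (nat_lit 201523753649690) (.br (nat_lit 2) (.cons (.br (nat_lit 3) (.cons (.rel (nat_lit 335544612)) .nil)) .nil)) .leaf) (nat_lit 201523753670160) (.br (nat_lit 0) (.cons (.br (nat_lit 2) (.cons (.rel (nat_lit 72372288)) .nil)) .nil)) (.node .leaf (nat_lit 201523774641680) (.br (nat_lit 3) (.cons (.br (nat_lit 5) (.cons (.rel (nat_lit 4563419400)) .nil)) .nil)) .leaf)) (nat_lit 205803652604585) (.br (nat_lit 2) (.cons (.br (nat_lit 3) (.cons (.rel (nat_lit 335630592)) .nil)) .nil)) (.node (.node .leaf (nat_lit 206417302672270) (.br (nat_lit 0) (.cons (.br (nat_lit 1) (.cons (.rel (nat_lit 20976912)) .nil)) .nil)) .leaf) (nat_lit 206895086784025) (.br (nat_lit 4) (.cons (.br (nat_lit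 5) (.cons (.rel (nat_lit 5368713474)) .nil)) .nil)) .leaf))

/-- refutations 26 -/
def e26 : EX := (.node (.node .leaf (nat_lit 465014073384448) (.br (nat_lit 1) (.cons (.br (nat_lit 5) (.cons (.rel (nat_lit 8606730240)) .nil)) .nil)) .leaf) (nat_lit 465363639149180) (.br (nat_lit 0) (.cons (.br (nat_lit 1) (.cons (.rel (nat_lit 37749762)) .nil)) .nil)) .leaf)

/-- refutations 28 -/
def e28 : EX := (.node .leaf (nat_lit 622608244561257) (.br (nat_lit 2) (.cons (.br (nat_lit 3) (.cons (.rel (nat_lit 335675712)) .nil)) .nil)) .leaf)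

/-- refutations 31 -/
def e31 : EX := (.node (.node (.node .leaf (nat_lit 644327885787162) (.br (nat_lit 0) (.cons (.br (nat_lit 2) (.cons (.rel (nat_lit 72417408)) .nil)) .nil)) .leaf) (nat_lit 644589889725727) (.br (nat_lit 0) (.cons (.br (nat_lit 1) (.cons (.rel (nat_lit 37748772)) .nil)) .nil)) .leaf) (nat_lit 646638971431693) (.br (nat_lit 1) (.cons (.br (nat_lit 2) (.cons (.rel (nat_lit 83890500)) .nil)) .nil)) (.node .leaf (nat_lit 646694421156102) (.br (nat_lit 2) (.cons (.br (nat_lit 6) (.cons (.rel (nat_lit 17246978208)) .nil)) .nil)) .leaf))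

/-- refutations 32 -/
def e32 : EX := (.node .leaf (nat_lit 898318725042926) (.br (nat_lit 2) (.cons (.br (nat_lit 3) (.cons (.rel (nat_lit 335630592)) .nil)) .nil)) .leaf)

/-- refutations 33 -/
def e33 : EX := (.node .leaf (nat_lit 910582360899616) (.br (nat_lit 0) (.cons (.br (nat_lit 1) (.cons (.rel (nat_lit 20989185)) .nil)) .nil)) .leaf)

/-- refutations 34 -/
def e34 : EX := (.node .leaf (nat_lit 992914323315319) (.br (nat_lit 0) (.cons (.br (nat_lit 1) (.cons (.rel (nat_lit 20989185)) .nil)) .nil)) .leaf)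

/-- refutations 35 -/
def e35 : EX := (.node (.node .leaf (nat_lit 998280339231605) (.br (nat_lit 0) (.cons (.br (nat_lit 5) (.cons (.rel (nat_lit 8600437824)) .nil)) .nil)) .leaf) (nat_lit 998285695368048) (.br (nat_lit 0) (.cons (.br (nat_lit 1) (.cons (.rel (nat_lit 20989185)) .nil)) .nil)) .leaf)

/-- refutations 41 -/
def e41 : EX := (.node .leaf (nat_lit 2222199111664416) (.br (nat_lit 3) (.cons (.br (nat_lit 4) (.cons (.rel (nat_lit 1610612772)) .nil)) .nil)) .leaf)

/-- refutations 42 -/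
def e42 : EX := (.node (.node (.node (.node .leaf (nat_lit 2227830782688163) (.br (nat_lit 1) (.cons (.br (nat_lit 3) (.cons (.rel (nat_lit 286294080)) .nil)) .nil)) .leaf) (nat_lit 2227831304114226) (.br (nat_lit 0) (.cons (.br (nat_lit 1) (.cons (.rel (nat_lit 20971848)) .nil)) .nil)) .leaf) (nat_lit 2228900246117008) (.br (nat_lit 0) (.cons (.br (nat_lit 1) (.cons (.rel (nat_lit 20975877)) .nil)) .nil)) (.node .leaf (nat_lit 2228905570226351) (.br (nat_lit 1) (.cons (.br (nat_lit 3) (.cons (.rel (nat_lit 285234432)) .nil)) .nil)) .leaf)) (nat_lit 2229978263474476) (.br (nat_lit 3) (.cons (.br (nat_lit 5) (.cons (.rel (nat_lit 4563409152)) .nil)) .nil)) (.node (.node .leaf (nat_lit 2229978264027316) (.br (nat_lit 0) (.cons (.br (nat_lit 1) (.cons (.rel (nat_lit 20975877)) .nil)) .nil)) .leaf) (nat_lit 2229979312050476) (.br (nat_lit 1) (.cons (.br (nat_lit 3) (.cons (.rel (nat_lit 285279552)) .nil)) .nil)) (.node .leaf (nat_lit 2229979312603316) (.br (nat_lit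 0) (.cons (.br (nat_lit 1) (.cons (.rel (nat_lit 20975877)) .nil)) .nil)) .leaf)))

/-- refutations 43 -/
def e43 : EX := (.node (.node (.node (.node .leaf (nat_lit 2656850113725091) (.br (nat_lit 2) (.cons (.br (nat_lit 0) (.cons (.rel (nat_lit 71336196)) (.cons (.rel (nat_lit 75501576)) .nil))) .nil)) .leaf) (nat_lit 2656850114339716) (.br (nat_lit 0) (.cons (.br (nat_lit 1) (.cons (.rel (nat_lit 22102020)) .nil)) .nil)) .leaf) (nat_lit 2656936055034536) (.br (nat_lit 0) (.cons (.br (nat_lit 1) (.cons (.rel (nat_lit 25165848)) (.cons (.rel (nat_lit 25165848)) .nil))) .nil)) (.node .leaf (nat_lit 2656936057895822) (.br (nat_lit 0) (.cons (.br (nat_lit 1) (.cons (.rel (nat_lit 20989185)) .nil)) .nil)) .leaf)) (nat_lit 2656936058202389) (.br (nat_lit 2) (.cons (.br (nat_lit 3) (.cons (.rel (nat_lit 604127232)) .nil)) .nil)) (.node (.node .leaf (nat_lit 2656939414672040) (.br (nat_lit 0) (.cons (.br (nat_lit 5) (.cons (.rel (nat_lit 4299182400)) .nil)) .nil))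 .leaf) (nat_lit 2658868476052136) (.br (nat_lit 2) (.cons (.br (nat_lit 4) (.cons (.rel (nat_lit 1140850968)) .nil)) .nil)) (.node .leaf (nat_lit 2658868476359411) (.br (nat_lit 1) (.cons (.br (nat_lit 2) (.cons (.rel (nat_lit 168034308)) (.cons (.rel (nat_lit 84935682)) .nil))) .nil)) .leaf)))

/-- refutations 44 -/
def e44 : EX := (.node (.node (.node .leaf (nat_lit 2667648332615812) (.br (nat_lit 1) (.cons (.br (nat_lit 4) (.cons (.rel (nat_lit 2164293636)) .nil)) .nil)) .leaf) (nat_lit 2668707610901857) (.br (nat_lit 2) (.cons (.br (nat_lit 3) (.cons (.rel (nat_lit 335545602)) .nil)) .nil)) .leaf) (nat_lit 2668770170523830) (.br (nat_lit 0) (.cons (.br (nat_lit 1) (.cons (.rel (nat_lit 37749762)) .nil)) .nil)) (.node .leaf (nat_lit 2668770170608376) (.br (nat_lit 0) (.cons (.br (nat_lit 1) (.cons (.rel (nat_lit 21504000)) .nil)) .nil)) .leaf))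

/-- refutations 46 -/
def e46 : EX := (.node .leaf (nat_lit 2680543818580273) (.br (nat_lit 1) (.cons (.br (nat_lit 2) (.cons (.rel (nat_lit 100730880)) (.cons (.rel (nat_lit 83919120)) (.cons (.rel (nat_lit 151003152)) (.cons (.rel (nat_lit 86245392)) .nil))))) .nil)) .leaf)

/-- refutations 47 -/
def e47 : EX := (.node (.node .leaf (nat_lit 2682062244709012) (.br (nat_lit 1) (.cons (.br (nat_lit 3) (.cons (.rel (nat_lit 301995009)) .nil)) .nil)) .leaf) (nat_lit 2686995600617657) (.br (nat_lit 0) (.cons (.br (nat_lit 2) (.cons (.rel (nat_lit 142868496)) .nil)) .nil)) .leaf)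

/-- refutations 48 -/
def e48 : EX := (.node .leaf (nat_lit 2729237187986668) (.br (nat_lit 0) (.cons (.br (nat_lit 2) (.cons (.rel (nat_lit 138412161)) .nil)) .nil)) .leaf)

/-- refutations 50 -/
def e50 : EX := (.node (.node .leaf (nat_lit 2833459189928846) (.br (nat_lit 0) (.cons (.br (nat_lit 2) (.cons (.rel (nat_lit 71312640)) .nil)) .nil)) .leaf) (nat_lit 2834791279907691) (.br (nat_lit 0) (.cons (.br (nat_lit 1) (.cons (.rel (nat_lit 25165848)) .nil)) .nil)) .leaf)

/-- refutations 51 -/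
def e51 : EX := (.node .leaf (nat_lit 2839051246034457) (.br (nat_lit 0) (.cons (.br (nat_lit 1) (.cons (.rel (nat_lit 22102020)) .nil)) .nil)) .leaf)

/-- refutations 55 -/
def e55 : EX := (.node .leaf (nat_lit 2245460994557410) (.br (nat_lit 0) (.cons (.br (nat_lit 1) (.cons (.rel (nat_lit 20971848)) .nil)) .nil)) .leaf)

/-- refutations 56 -/
def e56 : EX := (.node (.node (.node (.node .leaf (nat_lit 3186634372163761) (.br (nat_lit 0) (.cons (.br (nat_lit 1) (.cons (.rel (nat_lit 20971848)) .nil)) .nil)) .leaf) (nat_lit 3186634372244216) (.br (nat_lit 1) (.cons (.br (nat_lit 2) (.cons (.rel (nat_lit 84410376)) .nil)) .nil)) .leaf) (nat_lit 3186635000775416) (.br (nat_lit 0) (.cons (.br (nat_lit 1) (.cons (.rel (nat_lit 25165848)) .nil)) .nil)) (.node .leaf (nat_lit 3186635000796046) (.br (nat_lit 1) (.cons (.br (nat_lit 6) (.cons (.rel (nat_lit 17197958208)) .nil)) .nil)) .leaf)) (nat_lit 3186635001133691) (.br (nat_lit 1) (.cons (.br (nat_lit 3) (.cons (.br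 (nat_lit 0) (.cons (.rel (nat_lit 25186368)) (.cons (.rel (nat_lit 272631168)) (.cons (.rel (nat_lit 37748772)) (.cons (.rel (nat_lit 37748772)) (.cons (.rel (nat_lit 20989185)) .nil)))))) .nil)) .nil)) (.node (.node (.node .leaf (nat_lit 3186635001309311) (.br (nat_lit 0) (.cons (.br (nat_lit 1) (.cons (.rel (nat_lit 21037344)) .nil)) .nil)) .leaf) (nat_lit 3186635001389966) (.br (nat_lit 2) (.cons (.br (nat_lit 3) (.cons (.rel (nat_lit 335545602)) .nil)) .nil)) .leaf) (nat_lit 3186635003963668) (.br (nat_lit 0) (.cons (.br (nat_lit 2) (.cons (.rel (nat_lit 71312640)) .nil)) .nil)) (.node .leaf (nat_lit 3189821719811349) (.br (nat_lit 1) (.cons (.br (nat_lit 2) (.cons (.rel (nat_lit 83894529)) .nil)) .nil)) .leaf)))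

/-- refutations 57 -/
def e57 : EX := (.node (.node (.node .leaf (nat_lit 3191935099490304) (.br (nat_lit 0) (.cons (.br (nat_lit 1) (.cons (.rel (nat_lit 21504000)) .nil)) .nil)) .leaf) (nat_lit 3194925868929710) (.br (nat_lit 0) (.cons (.br (nat_lit 1) (.cons (.rel (nat_lit 25165848)) .nil)) .nil)) (.node .leaf (nat_lit 3194927024906545) (.br (nat_lit 1) (.cons (.br (nat_lit 2) (.cons (.rel (nat_lit 83919120)) .nil)) .nil)) .leaf)) (nat_lit 3196516118319284) (.br (nat_lit 2) (.cons (.br (nat_lit 3) (.cons (.rel (nat_lit 335544612)) .nil)) .nil)) (.node (.node .leaf (nat_lit 3196518249025716) (.br (nat_lit 3) (.cons (.br (nat_lit 4) (.cons (.rel (nat_lit 1342179588)) .nil)) .nil)) .leaf) (nat_lit 3197162809235616) (.br (nat_lit 0) (.cons (.br (nat_lit 1) (.cons (.rel (nat_lit 37765266)) .nil)) .nil)) .leaf))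

/-- refutations 58 -/
def e58 : EX := (.node (.node .leaf (nat_lit 3097571190919944) (.br (nat_lit 0) (.cons (.br (nat_lit 1) (.cons (.rel (nat_lit 21037344)) .nil)) .nil)) .leaf) (nat_lit 3108514872447151) (.br (nat_lit 0) (.cons (.br (nat_lit 3) (.cons (.rel (nat_lit 541082688)) .nil)) .nil)) .leaf)

/-- refutations 61 -/
def e61 : EX := (.node (.node (.node (.node .leaf (nat_lit 4415959196521105) (.br (nat_lit 2) (.cons (.br (nat_lit 3) (.cons (.rel (nat_lit 336658437)) .nil)) .nil)) .leaf) (nat_lit 4416069453716886) (.br (nat_lit 0) (.cons (.br (nat_lit 3) (.cons (.rel (nat_lit 272631168)) .nil)) .nil)) .leaf) (nat_lit 4416111374258851) (.br (nat_lit 3) (.cons (.br (nat_lit 5) (.cons (.rel (nat_lit 4831905792)) .nil)) .nil)) (.node .leaf (nat_lit 4416111374258856) (.br (nat_lit 2) (.cons (.br (nat_lit 3) (.cons (.rel (nat_lit 336085008)) .nil)) .nil)) .leaf)) (nat_lit 4416111376802428) (.br (nat_lit 4) (.cons (.br (nat_lit 6) (.cons (.rel (nat_lit 35433485568))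 .nil)) .nil)) (.node (.node (.node .leaf (nat_lit 4416112317977251) (.br (nat_lit 1) (.cons (.br (nat_lit 3) (.cons (.rel (nat_lit 285234432)) .nil)) .nil)) .leaf) (nat_lit 4416113890841251) (.br (nat_lit 6) (.cons (.br (nat_lit 2) (.cons (.rel (nat_lit 17246983236)) (.cons (.rel (nat_lit 17246996544)) (.cons (.rel (nat_lit 34427928576)) .nil)))) .nil)) .leaf) (nat_lit 4416113890927228) (.br (nat_lit 0) (.cons (.br (nat_lit 5) (.cons (.rel (nat_lit 4300226592)) .nil)) .nil)) (.node .leaf (nat_lit 4416116407423651) (.br (nat_lit 2) (.cons (.br (nat_lit 3) (.cons (.rel (nat_lit 335544612)) .nil)) .nil)) .leaf)))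

/-- refutations 62 -/
def e62 : EX := (.node (.node .leaf (nat_lit 4421103090946728) (.br (nat_lit 2) (.cons (.br (nat_lit 3) (.cons (.rel (nat_lit 336069696)) .nil)) .nil)) .leaf) (nat_lit 4422176833067070) (.br (nat_lit 0) (.cons (.br (nat_lit 1) (.cons (.rel (nat_lit 25165848)) .nil)) .nil)) .leaf)

/-- refutations 63 -/
def e63 : EX := (.node (.node (.node (.node .leaf (nat_lit 4426854035378226) (.br (nat_lit 3) (.cons (.br (nat_lit 4) (.cons (.rel (nat_lit 1610698752)) .nil)) .nil)) .leaf) (nat_lit 4426854559655991) (.br (nat_lit 0) (.cons (.br (nat_lit 1) (.cons (.rel (nat_lit 37879872)) .nil)) .nil)) .leaf) (nat_lit 4426854559666226) (.br (nat_lit 0) (.cons (.br (nat_lit 1) (.cons (.rel (nat_lit 22021248)) .nil)) .nil)) (.node .leaf (nat_lit 4426855083954226) (.br (nat_lit 3) (.cons (.br (nat_lit 6) (.cons (.rel (nat_lit 34896674817)) .nil)) .nil)) .leaf)) (nat_lit 4427928825778351) (.br (nat_lit 0) (.cons (.br (nat_lit 1) (.cons (.rel (nat_lit 20975877))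 .nil)) .nil)) (.node (.node .leaf (nat_lit 4428619283714348) (.br (nat_lit 0) (.cons (.br (nat_lit 2) (.cons (.rel (nat_lit 71827488)) .nil)) .nil)) .leaf) (nat_lit 4429002043304241) (.br (nat_lit 0) (.cons (.br (nat_lit 2) (.cons (.rel (nat_lit 72353793)) .nil)) .nil)) (.node .leaf (nat_lit 4429002043314476) (.br (nat_lit 3) (.cons (.br (nat_lit 5) (.cons (.rel (nat_lit 4564484112)) (.cons (.rel (nat_lit 4564484112)) (.cons (.rel (nat_lit 8858378256)) .nil)))) .nil)) .leaf)))

/-- refutations 65 -/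
def e65 : EX := (.node (.node .leaf (nat_lit 4943920869954216) (.br (nat_lit 3) (.cons (.br (nat_lit 6) (.cons (.rel (nat_lit 34628174148)) .nil)) .nil)) .leaf) (nat_lit 4945651497208433) (.br (nat_lit 1) (.cons (.br (nat_lit 2) (.cons (.rel (nat_lit 152044038)) .nil)) .nil)) .leaf)

/-- refutations 66 -/
def e66 : EX := (.node .leaf (nat_lit 4949040366113393) (.br (nat_lit 0) (.cons (.br (nat_lit 2) (.cons (.rel (nat_lit 71336196)) .nil)) .nil)) .leaf)

/-- refutations 67 -/
def e67 : EX := (.node (.node .leaf (nat_lit 4954660994841201) (.br (nat_lit 1) (.cons (.br (nat_lit 2) (.cons (.rel (nat_lit 100667424)) .nil)) .nil)) .leaf) (nat_lit 4955482921914993) (.br (nat_lit 1) (.cons (.br (nat_lit 5) (.cons (.rel (nat_lit 4312809480)) .nil)) .nil)) (.node .leaf (nat_lit 4956591023478122) (.br (nat_lit 0) (.cons (.br (nat_lit 1) (.cons (.rel (nat_lit 21504000)) .nil)) .nil)) .leaf))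

/-- refutations 68 -/
def e68 : EX := (.node .leaf (nat_lit 4855887432798208) (.br (nat_lit 1) (.cons (.br (nat_lit 2) (.cons (.rel (nat_lit 168034308)) .nil)) .nil)) .leaf)

/-- refutations 69 -/
def e69 : EX := (.node .leaf (nat_lit 4961515789081261) (.br (nat_lit 0) (.cons (.br (nat_lit 1) (.cons (.rel (nat_lit 25167873)) .nil)) .nil)) .leaf)

/-- refutations 71 -/
def e71 : EX := (.node (.node (.node .leaf (nat_lit 5295678754390691) (.br (nat_lit 0) (.cons (.br (nat_lit 1) (.cons (.rel (nat_lit 20989185)) .nil)) .nil)) .leaf) (nat_lit 5295764590842536) (.br (nat_lit 3) (.cons (.br (nat_lit 5) (.cons (.rel (nat_lit 4564468800)) .nil)) .nil)) (.node .leaf (nat_lit 5295764591436526) (.br (nat_lit 1) (.cons (.br (nat_lit 2) (.cons (.rel (nat_lit 83903808)) (.cons (.rel (nat_lit 83903808)) .nil))) .nil)) .leaf)) (nat_lit 5295764591457161) (.br (nat_lit 2) (.cons (.br (nat_lit 4) (.cons (.rel (nat_lit 1141900368)) .nil)) .nil)) (.node (.node .leaf (nat_lit 5295764593395839)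 (.br (nat_lit 0) (.cons (.br (nat_lit 1) (.cons (.rel (nat_lit 20975877)) .nil)) .nil)) .leaf) (nat_lit 5297696697594611) (.br (nat_lit 3) (.cons (.br (nat_lit 4) (.cons (.br (nat_lit 5) (.cons (.rel (nat_lit 8858378256)) (.cons (.rel (nat_lit 6442455048)) .nil))) .nil)) .nil)) (.node .leaf (nat_lit 5297696700149098) (.br (nat_lit 2) (.cons (.br (nat_lit 6) (.cons (.rel (nat_lit 17247059970)) (.cons (.rel (nat_lit 17246998548)) .nil))) .nil)) .leaf)))

/-- refutations 72 -/
def e72 : EX := (.node (.node (.node .leaf (nat_lit 5300712393208468) (.br (nat_lit 1) (.cons (.br (nat_lit 0) (.cons (.rel (nat_lit 42209280)) (.cons (.rel (nat_lit 37748772)) .nil))) .nil)) .leaf) (nat_lit 5300712393515918) (.br (nat_lit 1) (.cons (.br (nat_lit 4) (.cons (.rel (nat_lit 1090535760)) .nil)) .nil)) .leaf) (nat_lit 5300712394500128) (.br (nat_lit 4) (.cons (.br (nat_lit 1) (.cons (.rel (nat_lit 1090535760)) (.cons (.rel (nat_lit 1090601220)) .nil))) .nil)) (.node (.node .leaf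 (nat_lit 5300712477094763) (.br (nat_lit 1) (.cons (.br (nat_lit 2) (.cons (.rel (nat_lit 83903808)) .nil)) .nil)) .leaf) (nat_lit 5302014800056320) (.br (nat_lit 1) (.cons (.br (nat_lit 2) (.cons (.rel (nat_lit 84410376)) .nil)) .nil)) .leaf))

/-- refutations 73 -/
def e73 : EX := (.node (.node (.node .leaf (nat_lit 5365937242919569) (.br (nat_lit 3) (.cons (.br (nat_lit 5) (.cons (.rel (nat_lit 4831854609)) .nil)) .nil)) .leaf) (nat_lit 5365937242962556) (.br (nat_lit 0) (.cons (.br (nat_lit 2) (.cons (.rel (nat_lit 71312640)) .nil)) .nil)) (.node .leaf (nat_lit 5365939835041849) (.br (nat_lit 1) (.cons (.br (nat_lit 0) (.cons (.rel (nat_lit 20976912)) (.cons (.rel (nat_lit 42209280)) .nil))) .nil)) .leaf)) (nat_lit 5366133335020200) (.br (nat_lit 3) (.cons (.br (nat_lit 6) (.cons (.rel (nat_lit 17448374292)) .nil)) .nil)) (.node (.node .leaf (nat_lit 5366751810311529) (.br (nat_lit 1) (.cons (.br (nat_lit 2) (.cons (.rel (nat_lit 83903808)) .nil)) .nil))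 .leaf) (nat_lit 5366787649097905) (.br (nat_lit 0) (.cons (.br (nat_lit 1) (.cons (.rel (nat_lit 25167873)) .nil)) .nil)) .leaf))

/-- refutations 74 -/
def e74 : EX := (.node (.node (.node (.node (.node .leaf (nat_lit 5368066070303400) (.br (nat_lit 2) (.cons (.br (nat_lit 0) (.cons (.rel (nat_lit 142868496)) (.cons (.rel (nat_lit 142868496)) .nil))) .nil)) .leaf) (nat_lit 5368066070303471) (.br (nat_lit 1) (.cons (.br (nat_lit 0) (.cons (.rel (nat_lit 37879872)) (.cons (.rel (nat_lit 21037344)) .nil))) .nil)) .leaf) (nat_lit 5368066070304105) (.br (nat_lit 2) (.cons (.br (nat_lit 4) (.cons (.br (nat_lit 3) (.cons (.rel (nat_lit 335675712)) (.cons (.rel (nat_lit 1342202112)) .nil))) .nil)) .nil)) (.node (.node .leaf (nat_lit 5368066070304282) (.br (nat_lit 0) (.cons (.br (nat_lit 1) (.cons (.rel (nat_lit 20976912)) (.cons (.rel (nat_lit 25165848)) .nil))) (.cons (.br (nat_lit 1) (.cons (.rel (nat_lit 21037344)) (.cons (.rel (nat_lit 25165848)) .nil))) .nil)))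 .leaf) (nat_lit 5368066070911107) (.br (nat_lit 1) (.cons (.br (nat_lit 4) (.cons (.br (nat_lit 3) (.cons (.rel (nat_lit 285294864)) (.cons (.rel (nat_lit 1343243265)) .nil))) .nil)) .nil)) .leaf)) (nat_lit 5368066070912256) (.br (nat_lit 1) (.cons (.br (nat_lit 5) (.cons (.rel (nat_lit 4312285200)) .nil)) .nil)) (.node (.node (.node .leaf (nat_lit 5368066071575280) (.br (nat_lit 0) (.cons (.br (nat_lit 3) (.cons (.rel (nat_lit 276825168)) .nil)) .nil)) .leaf) (nat_lit 5368066071614825) (.br (nat_lit 2) (.cons (.br (nat_lit 4) (.cons (.rel (nat_lit 2214666240)) .nil)) .nil)) .leaf) (nat_lit 5368066071675682) (.br (nat_lit 1) (.cons (.br (nat_lit 2) (.cons (.rel (nat_lit 83919120)) .nil)) .nil)) (.node .leaf (nat_lit 5368066071676380) (.br (nat_lit 1) (.cons (.br (nat_lit 6) (.cons (.rel (nat_lit 17196654720)) .nil)) .nil)) .leaf))) (nat_lit 5368066071840220) (.br (nat_lit 0) (.cons (.br (nat_lit 2) (.cons (.rel (nat_lit 72417408)) .nil)) .nil)) (.node (.node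 (.node (.node .leaf (nat_lit 5368066071942375) (.br (nat_lit 3) (.cons (.br (nat_lit 5) (.cons (.rel (nat_lit 4563409152)) (.cons (.rel (nat_lit 4831842336)) (.cons (.rel (nat_lit 4563409152)) .nil)))) (.cons (.br (nat_lit 4) (.cons (.rel (nat_lit 1342177554)) (.cons (.rel (nat_lit 1343229957)) (.cons (.rel (nat_lit 1342179588)) (.cons (.rel (nat_lit 1342179588)) .nil))))) .nil))) .leaf) (nat_lit 5368066072178025) (.br (nat_lit 3) (.cons (.br (nat_lit 4) (.cons (.rel (nat_lit 1610698752)) (.cons (.rel (nat_lit 1342177554)) .nil))) (.cons (.br (nat_lit 4) (.cons (.rel (nat_lit 1342177554)) (.cons (.rel (nat_lit 1342177554)) .nil))) .nil))) .leaf) (nat_lit 5368066072957179) (.br (nat_lit 0) (.cons (.br (nat_lit 1) (.cons (.rel (nat_lit 25165848)) .nil)) .nil)) (.node (.node .leaf (nat_lit 5368066072957810) (.br (nat_lit 0) (.cons (.br (nat_lit 1) (.cons (.rel (nat_lit 42209280)) .nil)) .nil)) .leaf) (nat_lit 5368066072967429) (.br (nat_lit 1) (.cons (.br (nat_lit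 2) (.cons (.br (nat_lit 5) (.cons (.rel (nat_lit 4362078528)) .nil)) .nil)) .nil)) .leaf)) (nat_lit 5371081137345192) (.br (nat_lit 3) (.cons (.br (nat_lit 5) (.cons (.rel (nat_lit 4564468800)) .nil)) .nil)) (.node (.node (.node .leaf (nat_lit 5371081139888259) (.br (nat_lit 0) (.cons (.br (nat_lit 2) (.cons (.rel (nat_lit 72417408)) .nil)) .nil)) .leaf) (nat_lit 5371082610155022) (.br (nat_lit 1) (.cons (.br (nat_lit 2) (.cons (.br (nat_lit 6) (.cons (.rel (nat_lit 17246987265)) .nil)) .nil)) .nil)) .leaf) (nat_lit 5372326680515322) (.br (nat_lit 0) (.cons (.br (nat_lit 4) (.cons (.rel (nat_lit 1078001985)) .nil)) .nil)) (.node .leaf (nat_lit 5372328628810983) (.br (nat_lit 0) (.cons (.br (nat_lit 1) (.cons (.rel (nat_lit 20975877)) .nil)) .nil)) .leaf))))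

/-- refutations 75 -/
def e75 : EX := (.node (.node .leaf (nat_lit 5376832081776690) (.br (nat_lit 4) (.cons (.br (nat_lit 6) (.cons (.rel (nat_lit 36507238416)) (.cons (.rel (nat_lit 18253643808)) .nil))) (.cons (.br (nat_lit 0) (.cons (.rel (nat_lit 1077952836)) (.cons (.rel (nat_lit 2156135424)) (.cons (.rel (nat_lit 1077944592)) .nil)))) .nil))) .leaf) (nat_lit 5376832084633650) (.br (nat_lit 2) (.cons (.br (nat_lit 3) (.cons (.rel (nat_lit 335545602)) .nil)) .nil)) .leaf)

/-- refutations 76 -/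
def e76 : EX := (.node (.node (.node (.node .leaf (nat_lit 5383638950619816) (.br (nat_lit 0) (.cons (.br (nat_lit 1) (.cons (.rel (nat_lit 20976912)) .nil)) .nil)) .leaf) (nat_lit 5383682655267496) (.br (nat_lit 0) (.cons (.br (nat_lit 2) (.cons (.rel (nat_lit 72353793)) .nil)) .nil)) .leaf) (nat_lit 5385658256349186) (.br (nat_lit 0) (.cons (.br (nat_lit 3) (.cons (.rel (nat_lit 541098000)) .nil)) .nil)) (.node .leaf (nat_lit 5385658256956142) (.br (nat_lit 0) (.cons (.br (nat_lit 1) (.cons (.rel (nat_lit 22021248)) .nil)) .nil)) .leaf)) (nat_lit 5385658257720796) (.br (nat_lit 0) (.cons (.br (nat_lit 3) (.cons (.rel (nat_lit 541069380)) .nil)) .nil)) (.node (.node .leaf (nat_lit 5385658257987586) (.br (nat_lit 1) (.cons (.br (nat_lit 3) (.cons (.br (nat_lit 0) (.cons (.br (nat_lit 2) (.cons (.rel (nat_lit 75567264)) (.cons (.rel (nat_lit 83903808)) .nil))) (.cons (.rel (nat_lit 42209280)) .nil))) .nil)) .nil)) .leaf) (nat_lit 5385658259260298) (.br (nat_lit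 4) (.cons (.br (nat_lit 2) (.cons (.rel (nat_lit 1141391364)) (.cons (.rel (nat_lit 2214609024)) .nil))) .nil)) (.node .leaf (nat_lit 5389918866701194) (.br (nat_lit 0) (.cons (.br (nat_lit 1) (.cons (.rel (nat_lit 22021248)) .nil)) .nil)) .leaf)))

/-- refutations 77 -/
def e77 : EX := (.node (.node .leaf (nat_lit 5395321828008066) (.br (nat_lit 1) (.cons (.br (nat_lit 3) (.cons (.rel (nat_lit 285279552)) .nil)) .nil)) .leaf) (nat_lit 5396186064787616) (.br (nat_lit 0) (.cons (.br (nat_lit 1) (.cons (.rel (nat_lit 42221601)) .nil)) .nil)) .leaf)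

/-- refutations 78 -/
def e78 : EX := (.node (.node .leaf (nat_lit 5489235649901226) (.br (nat_lit 0) (.cons (.br (nat_lit 1) (.cons (.rel (nat_lit 20971848)) .nil)) .nil)) .leaf) (nat_lit 5489235649909411) (.br (nat_lit 0) (.cons (.br (nat_lit 2) (.cons (.rel (nat_lit 75501576)) .nil)) .nil)) (.node .leaf (nat_lit 5491210727297775) (.br (nat_lit 0) (.cons (.br (nat_lit 1) (.cons (.rel (nat_lit 42209280)) (.cons (.rel (nat_lit 20975877)) .nil))) .nil)) .leaf))

/-- refutations 79 -/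
def e79 : EX := (.node .leaf (nat_lit 5501064028205818) (.br (nat_lit 0) (.cons (.br (nat_lit 1) (.cons (.rel (nat_lit 20971848)) .nil)) .nil)) .leaf)

/-- refutations 80 -/
def e80 : EX := (.node .leaf (nat_lit 5278128490435241) (.br (nat_lit 0) (.cons (.br (nat_lit 2) (.cons (.rel (nat_lit 72417408)) .nil)) .nil)) .leaf)

/-- refutations 81 -/
def e81 : EX := (.node (.node (.node .leaf (nat_lit 11032749976707952) (.br (nat_lit 4) (.cons (.br (nat_lit 5) (.cons (.br (nat_lit 0) (.cons (.rel (nat_lit 1082131524)) (.cons (.rel (nat_lit 4299227520)) .nil))) .nil)) .nil)) .leaf) (nat_lit 11032749976708483) (.br (nat_lit 0) (.cons (.br (nat_lit 2) (.cons (.rel (nat_lit 75497538)) .nil)) .nil)) (.node .leaf (nat_lit 11032749976904982) (.br (nat_lit 0) (.cons (.br (nat_lit 2) (.cons (.rel (nat_lit 138420228)) .nil)) .nil)) .leaf)) (nat_lit 11032749977199503) (.br (nat_lit 1) (.cons (.br (nat_lit 4) (.cons (.rel (nat_lit 1090520448)) .nil)) .nil)) (.node (.node .leaf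 (nat_lit 11032749977989377) (.br (nat_lit 0) (.cons (.br (nat_lit 3) (.cons (.rel (nat_lit 541069380)) .nil)) .nil)) .leaf) (nat_lit 11032749978244327) (.br (nat_lit 3) (.cons (.br (nat_lit 4) (.cons (.rel (nat_lit 2415919128)) .nil)) .nil)) (.node .leaf (nat_lit 11036113956474932) (.br (nat_lit 1) (.cons (.br (nat_lit 2) (.cons (.rel (nat_lit 84934692)) .nil)) .nil)) .leaf)))

/-- refutations 82 -/
def e82 : EX := (.node .leaf (nat_lit 11043664520302892) (.br (nat_lit 4) (.cons (.br (nat_lit 6) (.cons (.rel (nat_lit 18253613184)) .nil)) .nil)) .leaf)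

/-- refutations 83 -/
def e83 : EX := (.node .leaf (nat_lit 11085663974030222) (.br (nat_lit 0) (.cons (.br (nat_lit 1) (.cons (.rel (nat_lit 25165848)) .nil)) .nil)) .leaf)

/-- refutations 84 -/
def e84 : EX := (.node (.node .leaf (nat_lit 11090860884120462) (.br (nat_lit 2) (.cons (.br (nat_lit 4) (.cons (.rel (nat_lit 1141903362)) .nil)) .nil)) .leaf) (nat_lit 11096453043717006) (.br (nat_lit 0) (.cons (.br (nat_lit 5) (.cons (.rel (nat_lit 4299163905)) .nil)) .nil)) .leaf)

/-- refutations 85 -/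
def e85 : EX := (.node .leaf (nat_lit 11118477377114737) (.br (nat_lit 0) (.cons (.br (nat_lit 2) (.cons (.rel (nat_lit 72417408)) .nil)) .nil)) .leaf)

/-- refutations 87 -/
def e87 : EX := (.node (.node .leaf (nat_lit 11470621895600405) (.br (nat_lit 0) (.cons (.br (nat_lit 1) (.cons (.rel (nat_lit 21037344)) .nil)) .nil)) .leaf) (nat_lit 11470627038843560) (.br (nat_lit 3) (.cons (.br (nat_lit 4) (.cons (.rel (nat_lit 1342179588)) .nil)) .nil)) (.node .leaf (nat_lit 11471274102510954) (.br (nat_lit 0) (.cons (.br (nat_lit 2) (.cons (.rel (nat_lit 71336196)) .nil)) .nil)) .leaf))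

/-- refutations 88 -/
def e88 : EX := (.node (.node .leaf (nat_lit 11482394906615172) (.br (nat_lit 0) (.cons (.br (nat_lit 3) (.cons (.rel (nat_lit 272646480)) .nil)) .nil)) .leaf) (nat_lit 11483082436155552) (.br (nat_lit 0) (.cons (.br (nat_lit 4) (.cons (.rel (nat_lit 1078462464)) .nil)) .nil)) (.node .leaf (nat_lit 11483222382761322) (.br (nat_lit 0) (.cons (.br (nat_lit 1) (.cons (.rel (nat_lit 25165848)) .nil)) .nil)) .leaf))

/-- refutations 89 -/
def e89 : EX := (.node .leaf (nat_lit 11523354536501555) (.br (nat_lit 0) (.cons (.br (nat_lit 1) (.cons (.rel (nat_lit 20975877)) .nil)) .nil)) .leaf)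

/-- refutations 90 -/
def e90 : EX := (.node .leaf (nat_lit 11530934557890074) (.br (nat_lit 0) (.cons (.br (nat_lit 1) (.cons (.rel (nat_lit 20989185)) .nil)) .nil)) .leaf)

/-- refutations 91 -/
def e91 : EX := (.node (.node (.node (.node .leaf (nat_lit 11540990639735691) (.br (nat_lit 0) (.cons (.br (nat_lit 1) (.cons (.rel (nat_lit 21037344)) .nil)) .nil)) .leaf) (nat_lit 11542889013517794) (.br (nat_lit 0) (.cons (.br (nat_lit 1) (.cons (.rel (nat_lit 21037344)) .nil)) .nil)) .leaf) (nat_lit 11542923372000793) (.br (nat_lit 0) (.cons (.br (nat_lit 1) (.cons (.rel (nat_lit 20975877)) .nil)) .nil)) (.node .leaf (nat_lit 11542923372231291) (.br (nat_lit 2) (.cons (.br (nat_lit 3) (.cons (.rel (nat_lit 402654225)) .nil)) .nil)) .leaf)) (nat_lit 11542923372487406) (.br (nat_lit 1) (.cons (.br (nat_lit 3) (.cons (.rel (nat_lit 553926912)) .nil)) .nil)) (.node (.node (.node .leaf (nat_lit 11542923375017237) (.br (nat_lit 2) (.cons (.br (nat_lit 3) (.cons (.rel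 (nat_lit 335545602)) .nil)) .nil)) .leaf) (nat_lit 11545938440216583) (.br (nat_lit 0) (.cons (.br (nat_lit 4) (.cons (.rel (nat_lit 1077952836)) .nil)) .nil)) .leaf) (nat_lit 11545938442060683) (.br (nat_lit 1) (.cons (.br (nat_lit 2) (.cons (.rel (nat_lit 84410376)) .nil)) .nil)) (.node .leaf (nat_lit 11545939912776342) (.br (nat_lit 2) (.cons (.br (nat_lit 4) (.cons (.rel (nat_lit 1141899333)) .nil)) .nil)) .leaf)))

/-- refutations 92 -/
def e92 : EX := (.node (.node .leaf (nat_lit 11547131462570164) (.br (nat_lit 1) (.cons (.br (nat_lit 2) (.cons (.rel (nat_lit 100730880)) .nil)) .nil)) .leaf) (nat_lit 11551426736050211) (.br (nat_lit 1) (.cons (.br (nat_lit 2) (.cons (.rel (nat_lit 168034308)) .nil)) .nil)) .leaf)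

/-- refutations 94 -/
def e94 : EX := (.node (.node .leaf (nat_lit 11560518247800345) (.br (nat_lit 1) (.cons (.br (nat_lit 3) (.cons (.rel (nat_lit 285221124)) .nil)) .nil)) .leaf) (nat_lit 11560644472415769) (.br (nat_lit 1) (.cons (.br (nat_lit 3) (.cons (.rel (nat_lit 286263312)) .nil)) .nil)) (.node .leaf (nat_lit 11560646906762141) (.br (nat_lit 0) (.cons (.br (nat_lit 1) (.cons (.rel (nat_lit 21037344)) .nil)) .nil)) .leaf))

/-- refutations 95 -/
def e95 : EX := (.node .leaf (nat_lit 11571381936124835) (.br (nat_lit 0) (.cons (.br (nat_lit 1) (.cons (.rel (nat_lit 37749762)) .nil)) .nil)) .leaf)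

/-- refutations 96 -/
def e96 : EX := (.node (.node (.node .leaf (nat_lit 11613008511100390) (.br (nat_lit 1) (.cons (.br (nat_lit 2) (.cons (.rel (nat_lit 151322880)) .nil)) .nil)) .leaf) (nat_lit 11613292116357805) (.br (nat_lit 2) (.cons (.br (nat_lit 4) (.cons (.rel (nat_lit 1207961616)) .nil)) .nil)) .leaf) (nat_lit 11613292116377900) (.br (nat_lit 1) (.cons (.br (nat_lit 4) (.cons (.rel (nat_lit 1090520448)) .nil)) .nil)) (.node (.node .leaf (nat_lit 11613292117386752) (.br (nat_lit 0) (.cons (.br (nat_lit 2) (.cons (.rel (nat_lit 71373072)) .nil)) .nil)) .leaf) (nat_lit 11613292118724091) (.br (nat_lit 2) (.cons (.br (nat_lit 5) (.cons (.rel (nat_lit 4363391232)) .nil)) .nil)) .leaf))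

/-- refutations 98 -/
def e98 : EX := (.node (.node .leaf (nat_lit 11623828518097196) (.br (nat_lit 1) (.cons (.br (nat_lit 5) (.cons (.rel (nat_lit 8606730240)) .nil)) .nil)) .leaf) (nat_lit 11623828520762254) (.br (nat_lit 0) (.cons (.br (nat_lit 2) (.cons (.rel (nat_lit 73401936)) .nil)) .nil)) .leaf)

/-- refutations 104 -/
def e104 : EX := (.node .leaf (nat_lit 11002899953899002) (.br (nat_lit 1) (.cons (.br (nat_lit 3) (.cons (.rel (nat_lit 285234432)) .nil)) .nil)) .leaf)

/-- refutations 105 -/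
def e105 : EX := (.node .leaf (nat_lit 12005654558410235) (.br (nat_lit 3) (.cons (.br (nat_lit 1) (.cons (.rel (nat_lit 285475392)) (.cons (.rel (nat_lit 285294864)) .nil))) .nil)) .leaf)

/-- refutations 106 -/
def e106 : EX := (.node (.node (.node (.node .leaf (nat_lit 12008703009258978) (.br (nat_lit 0) (.cons (.br (nat_lit 2) (.cons (.rel (nat_lit 142902336)) .nil)) .nil)) .leaf) (nat_lit 12010988907811696) (.br (nat_lit 2) (.cons (.br (nat_lit 4) (.cons (.rel (nat_lit 1208094720)) .nil)) .nil)) .leaf) (nat_lit 12010988907914096) (.br (nat_lit 2) (.cons (.br (nat_lit 3) (.cons (.rel (nat_lit 603988032)) .nil)) .nil)) (.node .leaf (nat_lit 12010988909185311) (.br (nat_lit 0) (.cons (.br (nat_lit 2) (.cons (.rel (nat_lit 71312640)) .nil)) .nil)) .leaf)) (nat_lit 12010994138200944) (.br (nat_lit 0) (.cons (.br (nat_lit 1) (.cons (.rel (nat_lit 25231488)) .nil)) .nil)) (.node (.node .leaf (nat_lit 12011246605848838) (.br (nat_lit 2) (.cons (.br (nat_lit 3)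 (.cons (.rel (nat_lit 335545602)) .nil)) .nil)) .leaf) (nat_lit 12011246607223046) (.br (nat_lit 1) (.cons (.br (nat_lit 3) (.cons (.rel (nat_lit 286262277)) .nil)) .nil)) (.node .leaf (nat_lit 12011246608920578) (.br (nat_lit 0) (.cons (.br (nat_lit 2) (.cons (.rel (nat_lit 71827488)) .nil)) .nil)) .leaf)))

/-- list of the parts -/
def L0 : List (ℕ × List ℕ) := [(nat_lit 0x10, [Nat.sub (Nat.pow 2 789) (Nat.pow 2 0), Nat.sub (Nat.pow 2 3136) (Nat.pow 2 789)]),
  (nat_lit 0x20, [Nat.sub (Nat.pow 2 59) (Nat.pow 2 0), Nat.sub (Nat.pow 2 64) (Nat.pow 2 59), Nat.sub (Nat.pow 2 131) (Nat.pow 2 64), Nat.sub (Nat.pow 2 256) (Nat.pow 2 131), Nat.sub (Nat.pow 2 304) (Nat.pow 2 256), Nat.sub (Nat.pow 2 764) (Nat.pow 2 304), Nat.sub (Nat.pow 2 791) (Nat.pow 2 764), Nat.sub (Nat.pow 2 906) (Nat.pow 2 791), Nat.sub (Nat.pow 2 931) (Nat.pow 2 906), Nat.sub (Nat.pow 2 936) (Nat.pow 2 931), Nat.sub (Nat.pow 2 1254) (Nat.pow 2 936), Nat.sub (Nat.pow 2 1265) (Nat.pow 2 1254),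 Nat.sub (Nat.pow 2 1291) (Nat.pow 2 1265), Nat.sub (Nat.pow 2 1386) (Nat.pow 2 1291), Nat.sub (Nat.pow 2 1439) (Nat.pow 2 1386), Nat.sub (Nat.pow 2 1515) (Nat.pow 2 1439), Nat.sub (Nat.pow 2 1559) (Nat.pow 2 1515), Nat.sub (Nat.pow 2 3136) (Nat.pow 2 1559)]),
  (nat_lit 0x400, [Nat.sub (Nat.pow 2 681) (Nat.pow 2 0), Nat.sub (Nat.pow 2 1289) (Nat.pow 2 681), Nat.sub (Nat.pow 2 3136) (Nat.pow 2 1289)]),
  (nat_lit 0x8000, [Nat.sub (Nat.pow 2 931) (Nat.pow 2 0), Nat.sub (Nat.pow 2 3136) (Nat.pow 2 931)]),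
  (nat_lit 0x40000000, [Nat.sub (Nat.pow 2 890) (Nat.pow 2 0), Nat.sub (Nat.pow 2 3136) (Nat.pow 2 890)]),
  (nat_lit 0x8000000000, [Nat.sub (Nat.pow 2 805) (Nat.pow 2 0), Nat.sub (Nat.pow 2 1306) (Nat.pow 2 805), Nat.sub (Nat.pow 2 3136) (Nat.pow 2 1306)]),
  (nat_lit 0x10000000000, [Nat.sub (Nat.pow 2 941) (Nat.pow 2 0), Nat.sub (Nat.pow 2 3136) (Nat.pow 2 941)]),
  (nat_lit 0x80000000000000, [Nat.sub (Nat.pow 2 904) (Nat.pow 2 0), Nat.sub (Nat.pow 2 3136) (Nat.pow 2 904)]),
  (nat_lit 0x1000000000000000, [Nat.sub (Nat.pow 2 931) (Nat.pow 2 0), Nat.sub (Nat.pow 2 1564) (Nat.pow 2 931), Nat.sub (Nat.pow 2 3136) (Nat.pow 2 1564)]),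
  (nat_lit 0x2000000000000000, [Nat.sub (Nat.pow 2 931) (Nat.pow 2 0), Nat.sub (Nat.pow 2 1566) (Nat.pow 2 931), Nat.sub (Nat.pow 2 3136) (Nat.pow 2 1566)]),
  (nat_lit 0x40, [cP]),
  (nat_lit 0x400000000000000000000000000000000, [Nat.sub (Nat.pow 2 1265) (Nat.pow 2 0), Nat.sub (Nat.pow 2 3136) (Nat.pow 2 1265)]),
  (nat_lit 0x800000000000000000000000000000000000000, [Nat.sub (Nat.pow 2 791) (Nat.pow 2 0), Nat.sub (Nat.pow 2 3136) (Nat.pow 2 791)]),
  (nat_lit 0x1000000000000000000000000000000000000000, [Nat.sub (Nat.pow 2 290) (Nat.pow 2 0), Nat.sub (Nat.pow 2 941) (Nat.pow 2 290), Nat.sub (Nat.pow 2 3136) (Nat.pow 2 941)]),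
  (nat_lit 0x8000000000000000000000000000000000000000, [Nat.sub (Nat.pow 2 654) (Nat.pow 2 0), Nat.sub (Nat.pow 2 3136) (Nat.pow 2 654)]),
  (nat_lit 0x200000000000000000000000000000000000000000, [Nat.sub (Nat.pow 2 785) (Nat.pow 2 0), Nat.sub (Nat.pow 2 1509) (Nat.pow 2 785), Nat.sub (Nat.pow 2 3136) (Nat.pow 2 1509)]),
  (nat_lit 0x400000000000000000000000000000000000000000, [Nat.sub (Nat.pow 2 785) (Nat.pow 2 0), Nat.sub (Nat.pow 2 3136) (Nat.pow 2 785)]),
  (nat_lit 0xa00000000000000000000000000000000, [cP]),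
  (nat_lit 0x20000000000000000000000000000000000000000000000, [Nat.sub (Nat.pow 2 906) (Nat.pow 2 0), Nat.sub (Nat.pow 2 3136) (Nat.pow 2 906)]),
  (nat_lit 0x1000000000000000000000000000000000000000000000, [cP]),
  (nat_lit 0x200000000000000000000000000000000000000000000000, [cP]),
  (nat_lit 0x400000000000000000000000000000000000000000000000, [cP]),
  (nat_lit 0x8000000000000000000000000000000000000000000000000000000000000000, [Nat.sub (Nat.pow 2 304) (Nat.pow 2 0), Nat.sub (Nat.pow 2 1261) (Nat.pow 2 304), Nat.sub (Nat.pow 2 3136) (Nat.pow 2 1261)]),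
  (nat_lit 0x4000000000000000000000000000000000000000000000000000000000000000, [cP]),
  (nat_lit 0x200000000000000000000000000000000000000000000000000000000000000000000000, [Nat.sub (Nat.pow 2 660) (Nat.pow 2 0), Nat.sub (Nat.pow 2 1285) (Nat.pow 2 660), Nat.sub (Nat.pow 2 3136) (Nat.pow 2 1285)]),
  (nat_lit 0x10000010000000000000000000000000000000000000000000000000000000000000000, [cP]),
  (nat_lit 0x400000000000000000000000000000000000000000000000000000000000000000000000, [cP]),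
  (nat_lit 0x4000000000000000000000000000000000000000000000000000000000000000000000000, [cP]),
  (nat_lit 0x20000000000000000000000000000000000000000000000000000000000000000000000000000, [Nat.sub (Nat.pow 2 640) (Nat.pow 2 0), Nat.sub (Nat.pow 2 3136) (Nat.pow 2 640)]),
  (nat_lit 0x200000000000000000000000000000000000000000000000000000000000000000000000000000, [Nat.sub (Nat.pow 2 289) (Nat.pow 2 0), Nat.sub (Nat.pow 2 806) (Nat.pow 2 289), Nat.sub (Nat.pow 2 3136) (Nat.pow 2 806)]),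
  (nat_lit 0x400000000000000000000000000000000000000000000000000000000000000000000000000000, [Nat.sub (Nat.pow 2 789) (Nat.pow 2 0), Nat.sub (Nat.pow 2 3136) (Nat.pow 2 789)]),
  (nat_lit 0x10000000000000000000000000000000000000000000000000000000000000000000000000000000, [Nat.sub (Nat.pow 2 765) (Nat.pow 2 0), Nat.sub (Nat.pow 2 3136) (Nat.pow 2 765)]),
  (nat_lit 0x10000000000000000000000000000000000000000000000000000000000000000000000000000, [cP]),
  (nat_lit 0x80000000000000000000000000000000000000000000000000000000000000000000000000000000000000000000000000000000000000000000000000000000000000000000000000000000000000, [Nat.sub (Nat.pow 2 806) (Nat.pow 2 0), Nat.sub (Nat.pow 2 3136) (Nat.pow 2 806)]),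
  (nat_lit 0x400000000000000000000000000000000000000000000000000000000000000000000000000000000000000000000000000000000000000000000000000000000000000000000000000000000000000, [Nat.sub (Nat.pow 2 905) (Nat.pow 2 0), Nat.sub (Nat.pow 2 3136) (Nat.pow 2 905)]),
  (nat_lit 0x1000000000000000000000000000000000000000000000000000000000000000000000000000000000000000000000000000000000000000000000000000000000000000000000000000000000000000, [Nat.sub (Nat.pow 2 910) (Nat.pow 2 0), Nat.sub (Nat.pow 2 3136) (Nat.pow 2 910)]),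
  (nat_lit 0x100000000000000000000000000000000000000000000000000000000000000000000000000000000000000000000000000000000000000000000000000000000000000000000000000000000000000000000, [Nat.sub (Nat.pow 2 1291) (Nat.pow 2 0), Nat.sub (Nat.pow 2 3136) (Nat.pow 2 1291)]),
  (nat_lit 0x800000000000000000000000000000000000000000000000000000000000000000000000000000000000000000000000000000000000000000000000000000000000000000000000000000000000000000000, [Nat.sub (Nat.pow 2 930) (Nat.pow 2 0), Nat.sub (Nat.pow 2 3136) (Nat.pow 2 930)]),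
  (nat_lit 0x1000000000000000000000000000000000000000000000000000000000000000000000000000000000000000000000000000000000000000000000000000000000000000000000000000000000000000000000, [Nat.sub (Nat.pow 2 779) (Nat.pow 2 0), Nat.sub (Nat.pow 2 1314) (Nat.pow 2 779), Nat.sub (Nat.pow 2 3136) (Nat.pow 2 1314)]),
  (nat_lit 0x2000000000000000000000000000000000000000000000000000000000000000000000000000000000000000000000000000000000000000000000000000000000000000000000000000000000000000000000, [Nat.sub (Nat.pow 2 930) (Nat.pow 2 0), Nat.sub (Nat.pow 2 3136) (Nat.pow 2 930)]),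
  (nat_lit 0x10000000000000000000000000000000000000000000000000000000000000000000000000000000000000000000000000000000000000000000000000000000000000000000000000000000000000000000000, [Nat.sub (Nat.pow 2 890) (Nat.pow 2 0), Nat.sub (Nat.pow 2 1434) (Nat.pow 2 890), Nat.sub (Nat.pow 2 1566) (Nat.pow 2 1434), Nat.sub (Nat.pow 2 3136) (Nat.pow 2 1566)]),
  (nat_lit 0x80000000000000000000000000000000000000000000000000000000000000000000000000000000000000000000000000000000000000000000000000000000000000000000000000000000000000000000000000, [Nat.sub (Nat.pow 2 910) (Nat.pow 2 0), Nat.sub (Nat.pow 2 3136) (Nat.pow 2 910)]),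
  (nat_lit 0x100000000000000000000000000000000000000000000000000000000000000000000000000000000000000000000000000000000000000000000000000000000000000000000000000000000000000000000000000, [Nat.sub (Nat.pow 2 906) (Nat.pow 2 0), Nat.sub (Nat.pow 2 3136) (Nat.pow 2 906)]),
  (nat_lit 0x20000000000000000000000000000000000000000000000000000000000000000000000000000000000000000000000000000000000000000000000000000000000000000000000000000000000000, [cP]),
  (nat_lit 0x4000000000000000000000000000000000000000000000000000000000000000000000000000000000000000000000000000000000000000000000000000000000000000000000000000000000000000000000000000, [Nat.sub (Nat.pow 2 1265) (Nat.pow 2 0), Nat.sub (Nat.pow 2 1566) (Nat.pow 2 1265), Nat.sub (Nat.pow 2 3136) (Nat.pow 2 1566)])]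

theorem hp0 : ∀ p ∈ L0, ∀ D2 ∈ p.2, ∃ e,
    search ext94 (Pool.Agent.H74.EGZ.vio sb) G Uc A0 p.1 D2 e = true :=
  (List.forall_mem_cons.2 ⟨(List.forall_mem_cons.2 ⟨⟨.leaf, by decide +kernel⟩,
  (List.forall_mem_singleton.2 ⟨.leaf, by decide +kernel⟩)⟩),
  (List.forall_mem_cons.2 ⟨(List.forall_mem_cons.2 ⟨⟨e2, by decide +kernel⟩,
  (List.forall_mem_cons.2 ⟨⟨e3, by decide +kernel⟩,
  (List.forall_mem_cons.2 ⟨⟨e4, by decide +kernel⟩,
  (List.forall_mem_cons.2 ⟨⟨e5, by decide +kernel⟩,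
  (List.forall_mem_cons.2 ⟨⟨e6, by decide +kernel⟩,
  (List.forall_mem_cons.2 ⟨⟨e7, by decide +kernel⟩,
  (List.forall_mem_cons.2 ⟨⟨e8, by decide +kernel⟩,
  (List.forall_mem_cons.2 ⟨⟨.leaf, by decide +kernel⟩,
  (List.forall_mem_cons.2 ⟨⟨e10, by decide +kernel⟩,
  (List.forall_mem_cons.2 ⟨⟨e11, by decide +kernel⟩,
  (List.forall_mem_cons.2 ⟨⟨e12, by decide +kernel⟩,
  (List.forall_mem_cons.2 ⟨⟨e13, by decide +kernel⟩,
  (List.forall_mem_cons.2 ⟨⟨e14, by decide +kernel⟩,
  (List.forall_mem_cons.2 ⟨⟨e15, by decide +kernel⟩,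
  (List.forall_mem_cons.2 ⟨⟨e16, by decide +kernel⟩,
  (List.forall_mem_cons.2 ⟨⟨e17, by decide +kernel⟩,
  (List.forall_mem_cons.2 ⟨⟨e18, by decide +kernel⟩,
  (List.forall_mem_singleton.2 ⟨e19, by decide +kernel⟩)⟩)⟩)⟩)⟩)⟩)⟩)⟩)⟩)⟩)⟩)⟩)⟩)⟩)⟩)⟩)⟩)⟩),
  (List.forall_mem_cons.2 ⟨(List.forall_mem_cons.2 ⟨⟨e20, by decide +kernel⟩,
  (List.forall_mem_cons.2 ⟨⟨e21, by decide +kernel⟩,
  (List.forall_mem_singleton.2 ⟨e22, by decide +kernel⟩)⟩)⟩),
  (List.forall_mem_cons.2 ⟨(List.forall_mem_cons.2 ⟨⟨e23, by decide +kernel⟩,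
  (List.forall_mem_singleton.2 ⟨e24, by decide +kernel⟩)⟩),
  (List.forall_mem_cons.2 ⟨(List.forall_mem_cons.2 ⟨⟨.leaf, by decide +kernel⟩,
  (List.forall_mem_singleton.2 ⟨e26, by decide +kernel⟩)⟩),
  (List.forall_mem_cons.2 ⟨(List.forall_mem_cons.2 ⟨⟨.leaf, by decide +kernel⟩,
  (List.forall_mem_cons.2 ⟨⟨e28, by decide +kernel⟩,
  (List.forall_mem_singleton.2 ⟨.leaf, by decide +kernel⟩)⟩)⟩),
  (List.forall_mem_cons.2 ⟨(List.forall_mem_cons.2 ⟨⟨.leaf, by decide +kernel⟩,
  (List.forall_mem_singleton.2 ⟨e31, by decide +kernel⟩)⟩),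
  (List.forall_mem_cons.2 ⟨(List.forall_mem_cons.2 ⟨⟨e32, by decide +kernel⟩,
  (List.forall_mem_singleton.2 ⟨e33, by decide +kernel⟩)⟩),
  (List.forall_mem_cons.2 ⟨(List.forall_mem_cons.2 ⟨⟨e34, by decide +kernel⟩,
  (List.forall_mem_cons.2 ⟨⟨e35, by decide +kernel⟩,
  (List.forall_mem_singleton.2 ⟨.leaf, by decide +kernel⟩)⟩)⟩),
  (List.forall_mem_cons.2 ⟨(List.forall_mem_cons.2 ⟨⟨.leaf, by decide +kernel⟩,
  (List.forall_mem_cons.2 ⟨⟨.leaf, by decide +kernel⟩,
  (List.forall_mem_singleton.2 ⟨.leaf, by decide +kernel⟩)⟩)⟩),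
  (List.forall_mem_cons.2 ⟨(List.forall_mem_singleton.2 ⟨.leaf, by decide +kernel⟩),
  (List.forall_mem_cons.2 ⟨(List.forall_mem_cons.2 ⟨⟨e41, by decide +kernel⟩,
  (List.forall_mem_singleton.2 ⟨e42, by decide +kernel⟩)⟩),
  (List.forall_mem_cons.2 ⟨(List.forall_mem_cons.2 ⟨⟨e43, by decide +kernel⟩,
  (List.forall_mem_singleton.2 ⟨e44, by decide +kernel⟩)⟩),
  (List.forall_mem_cons.2 ⟨(List.forall_mem_cons.2 ⟨⟨.leaf, by decide +kernel⟩,
  (List.forall_mem_cons.2 ⟨⟨e46, by decide +kernel⟩,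
  (List.forall_mem_singleton.2 ⟨e47, by decide +kernel⟩)⟩)⟩),
  (List.forall_mem_cons.2 ⟨(List.forall_mem_cons.2 ⟨⟨e48, by decide +kernel⟩,
  (List.forall_mem_singleton.2 ⟨.leaf, by decide +kernel⟩)⟩),
  (List.forall_mem_cons.2 ⟨(List.forall_mem_cons.2 ⟨⟨e50, by decide +kernel⟩,
  (List.forall_mem_cons.2 ⟨⟨e51, by decide +kernel⟩,
  (List.forall_mem_singleton.2 ⟨.leaf, by decide +kernel⟩)⟩)⟩),
  (List.forall_mem_cons.2 ⟨(List.forall_mem_cons.2 ⟨⟨.leaf, by decide +kernel⟩,
  (List.forall_mem_singleton.2 ⟨.leaf, by decide +kernel⟩)⟩),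
  (List.forall_mem_cons.2 ⟨(List.forall_mem_singleton.2 ⟨e55, by decide +kernel⟩),
  (List.forall_mem_cons.2 ⟨(List.forall_mem_cons.2 ⟨⟨e56, by decide +kernel⟩,
  (List.forall_mem_singleton.2 ⟨e57, by decide +kernel⟩)⟩),
  (List.forall_mem_cons.2 ⟨(List.forall_mem_singleton.2 ⟨e58, by decide +kernel⟩),
  (List.forall_mem_cons.2 ⟨(List.forall_mem_singleton.2 ⟨.leaf, by decide +kernel⟩),
  (List.forall_mem_cons.2 ⟨(List.forall_mem_singleton.2 ⟨.leaf, by decide +kernel⟩),
  (List.forall_mem_cons.2 ⟨(List.forall_mem_cons.2 ⟨⟨e61, by decide +kernel⟩,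
  (List.forall_mem_cons.2 ⟨⟨e62, by decide +kernel⟩,
  (List.forall_mem_singleton.2 ⟨e63, by decide +kernel⟩)⟩)⟩),
  (List.forall_mem_cons.2 ⟨(List.forall_mem_singleton.2 ⟨.leaf, by decide +kernel⟩),
  (List.forall_mem_cons.2 ⟨(List.forall_mem_cons.2 ⟨⟨e65, by decide +kernel⟩,
  (List.forall_mem_cons.2 ⟨⟨e66, by decide +kernel⟩,
  (List.forall_mem_singleton.2 ⟨e67, by decide +kernel⟩)⟩)⟩),
  (List.forall_mem_cons.2 ⟨(List.forall_mem_singleton.2 ⟨e68, by decide +kernel⟩),
  (List.forall_mem_cons.2 ⟨(List.forall_mem_singleton.2 ⟨e69, by decide +kernel⟩),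
  (List.forall_mem_cons.2 ⟨(List.forall_mem_singleton.2 ⟨.leaf, by decide +kernel⟩),
  (List.forall_mem_cons.2 ⟨(List.forall_mem_cons.2 ⟨⟨e71, by decide +kernel⟩,
  (List.forall_mem_singleton.2 ⟨e72, by decide +kernel⟩)⟩),
  (List.forall_mem_cons.2 ⟨(List.forall_mem_cons.2 ⟨⟨e73, by decide +kernel⟩,
  (List.forall_mem_cons.2 ⟨⟨e74, by decide +kernel⟩,
  (List.forall_mem_singleton.2 ⟨e75, by decide +kernel⟩)⟩)⟩),
  (List.forall_mem_cons.2 ⟨(List.forall_mem_cons.2 ⟨⟨e76, by decide +kernel⟩,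
  (List.forall_mem_singleton.2 ⟨e77, by decide +kernel⟩)⟩),
  (List.forall_mem_cons.2 ⟨(List.forall_mem_cons.2 ⟨⟨e78, by decide +kernel⟩,
  (List.forall_mem_singleton.2 ⟨e79, by decide +kernel⟩)⟩),
  (List.forall_mem_cons.2 ⟨(List.forall_mem_singleton.2 ⟨e80, by decide +kernel⟩),
  (List.forall_mem_cons.2 ⟨(List.forall_mem_cons.2 ⟨⟨e81, by decide +kernel⟩,
  (List.forall_mem_singleton.2 ⟨e82, by decide +kernel⟩)⟩),
  (List.forall_mem_cons.2 ⟨(List.forall_mem_cons.2 ⟨⟨e83, by decide +kernel⟩,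
  (List.forall_mem_singleton.2 ⟨e84, by decide +kernel⟩)⟩),
  (List.forall_mem_cons.2 ⟨(List.forall_mem_cons.2 ⟨⟨e85, by decide +kernel⟩,
  (List.forall_mem_singleton.2 ⟨.leaf, by decide +kernel⟩)⟩),
  (List.forall_mem_cons.2 ⟨(List.forall_mem_cons.2 ⟨⟨e87, by decide +kernel⟩,
  (List.forall_mem_singleton.2 ⟨e88, by decide +kernel⟩)⟩),
  (List.forall_mem_cons.2 ⟨(List.forall_mem_cons.2 ⟨⟨e89, by decide +kernel⟩,
  (List.forall_mem_singleton.2 ⟨e90, by decide +kernel⟩)⟩),
  (List.forall_mem_cons.2 ⟨(List.forall_mem_cons.2 ⟨⟨e91, by decide +kernel⟩,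
  (List.forall_mem_cons.2 ⟨⟨e92, by decide +kernel⟩,
  (List.forall_mem_singleton.2 ⟨.leaf, by decide +kernel⟩)⟩)⟩),
  (List.forall_mem_cons.2 ⟨(List.forall_mem_cons.2 ⟨⟨e94, by decide +kernel⟩,
  (List.forall_mem_singleton.2 ⟨e95, by decide +kernel⟩)⟩),
  (List.forall_mem_cons.2 ⟨(List.forall_mem_cons.2 ⟨⟨e96, by decide +kernel⟩,
  (List.forall_mem_cons.2 ⟨⟨.leaf, by decide +kernel⟩,
  (List.forall_mem_cons.2 ⟨⟨e98, by decide +kernel⟩,
  (List.forall_mem_singleton.2 ⟨.leaf, by decide +kernel⟩)⟩)⟩)⟩),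
  (List.forall_mem_cons.2 ⟨(List.forall_mem_cons.2 ⟨⟨.leaf, by decide +kernel⟩,
  (List.forall_mem_singleton.2 ⟨.leaf, by decide +kernel⟩)⟩),
  (List.forall_mem_cons.2 ⟨(List.forall_mem_cons.2 ⟨⟨.leaf, by decide +kernel⟩,
  (List.forall_mem_singleton.2 ⟨.leaf, by decide +kernel⟩)⟩),
  (List.forall_mem_cons.2 ⟨(List.forall_mem_singleton.2 ⟨e104, by decide +kernel⟩),
  (List.forall_mem_singleton.2 (List.forall_mem_cons.2 ⟨⟨e105, by decide +kernel⟩,
  (List.forall_mem_cons.2 ⟨⟨e106, by decide +kernel⟩,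
  (List.forall_mem_singleton.2 ⟨.leaf, by decide +kernel⟩)⟩)⟩))⟩)⟩)⟩)⟩)⟩)⟩)⟩)⟩)⟩)⟩)⟩)⟩)⟩)⟩)⟩)⟩)⟩)⟩)⟩)⟩)⟩)⟩)⟩)⟩)⟩)⟩)⟩)⟩)⟩)⟩)⟩)⟩)⟩)⟩)⟩)⟩)⟩)⟩)⟩)⟩)⟩)⟩)⟩)⟩)

end

end Pool.Agent.H21.EGZ.S3
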