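import Pool.Agent.H21.EGZ.D3

/-!
# Stage 3 : search, part 1
-/

set_option autoImplicit false
set_option maxRecDepth 100000

namespace Pool.Agent.H21.EGZ.S3

noncomputable section

open Pool.Agent.H74.EGZ Pool.Agent.H94.Lift

/-- refutations 108 -/
def e108 : EX := (.node .leaf (nat_lit 13234749555039768) (.br (nat_lit 0) (.cons (.br (nat_lit 1) (.cons (.rel (nat_lit 21037344)) .nil)) .nil)) .leaf)

/-- refutations 109 -/
def e109 : EX := (.node .leaf (nat_lit 13237287009670672) (.br (nat_lit 1) (.cons (.br (nat_lit 4) (.cons (.rel (nat_lit 1091637312)) .nil)) .nil)) .leaf)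

/-- refutations 111 -/
def e111 : EX := (.node (.node .leaf (nat_lit 11912359278816167) (.br (nat_lit 0) (.cons (.br (nat_lit 3) (.cons (.rel (nat_lit 276824133)) .nil)) .nil)) .leaf) (nat_lit 11912359278928752) (.br (nat_lit 4) (.cons (.br (nat_lit 5) (.cons (.rel (nat_lit 6442455048)) .nil)) .nil)) (.node .leaf (nat_lit 11923027977692016) (.br (nat_lit 0) (.cons (.br (nat_lit 1) (.cons (.rel (nat_lit 21504000)) .nil)) .nil)) .leaf))

/-- refutations 112 -/
def e112 : EX := (.node .leaf (nat_lit 13282576317575475) (.br (nat_lit 1) (.cons (.br (nat_lit 6) (.cons (.rel (nat_lit 17196712968)) .nil)) .nil)) .leaf)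

/-- refutations 113 -/
def e113 : EX := (.node .leaf (nat_lit 13318453637173284) (.br (nat_lit 0) (.cons (.br (nat_lit 1) (.cons (.rel (nat_lit 42209280)) .nil)) .nil)) .leaf)

/-- refutations 115 -/
def e115 : EX := (.node .leaf (nat_lit 13729645383931392) (.br (nat_lit 2) (.cons (.br (nat_lit 5) (.cons (.rel (nat_lit 4363124868)) .nil)) .nil)) .leaf)

/-- refutations 118 -/
def e118 : EX := (.node .leaf (nat_lit 13746035438975031) (.br (nat_lit 1) (.cons (.br (nat_lit 2) (.cons (.rel (nat_lit 84410376)) .nil)) .nil)) .leaf)

/-- refutations 121 -/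
def e121 : EX := (.node (.node (.node (.node (.node .leaf (nat_lit 14091813698686976) (.br (nat_lit 0) (.cons (.br (nat_lit 1) (.cons (.rel (nat_lit 20971848)) .nil)) .nil)) .leaf) (nat_lit 14091813698687726) (.br (nat_lit 2) (.cons (.br (nat_lit 6) (.cons (.rel (nat_lit 17247109128)) .nil)) .nil)) .leaf) (nat_lit 14092458258354926) (.br (nat_lit 0) (.cons (.br (nat_lit 4) (.cons (.rel (nat_lit 2151682128)) .nil)) .nil)) (.node .leaf (nat_lit 14092848035005216) (.br (nat_lit 0) (.cons (.br (nat_lit 3) (.cons (.rel (nat_lit 272631168)) .nil)) .nil)) .leaf)) (nat_lit 14093790348644383) (.br (nat_lit 0) (.cons (.br (nat_lit 3) (.cons (.rel (nat_lit 272711940)) .nil)) .nil)) (.node (.node (.node .leaf (nat_lit 14093790348645664) (.br (nat_lit 0) (.cons (.br (nat_lit 4) (.cons (.rel (nat_lit 1077944592)) .nil)) .nil)) .leaf) (nat_lit 14093790348932603) (.br (nat_lit 0) (.cons (.br (nat_lit 1) (.cons (.rel (nat_lit 25165848)) .nil)) .nil)) .leaf) (nat_lit 14093790349706716) (.br (nat_lit 3) (.cons (.br (nat_lit 0) (.cons (.rel (nat_lit 272646480)) (.cons (.rel (nat_lit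 272631168)) .nil))) .nil)) (.node .leaf (nat_lit 14093790349972711) (.br (nat_lit 1) (.cons (.br (nat_lit 0) (.cons (.rel (nat_lit 20975877)) (.cons (.rel (nat_lit 20971848)) (.cons (.rel (nat_lit 37748772)) (.cons (.rel (nat_lit 25165848)) .nil))))) (.cons (.br (nat_lit 5) (.cons (.rel (nat_lit 8606711904)) (.cons (.rel (nat_lit 4328521872)) (.cons (.rel (nat_lit 8606716932)) .nil)))) .nil))) .leaf))) (nat_lit 14093790350987515) (.br (nat_lit 0) (.cons (.br (nat_lit 1) (.cons (.rel (nat_lit 25165848)) (.cons (.rel (nat_lit 22021248)) .nil))) .nil)) (.node (.node (.node (.node .leaf (nat_lit 14093791816319151) (.br (nat_lit 0) (.cons (.br (nat_lit 3) (.cons (.rel (nat_lit 276840480)) .nil)) .nil)) .leaf) (nat_lit 14093791817978118) (.br (nat_lit 0) (.cons (.br (nat_lit 2) (.cons (.rel (nat_lit 72351768)) .nil)) .nil)) .leaf) (nat_lit 14093791817979111) (.br (nat_lit 3) (.cons (.br (nat_lit 4) (.cons (.br (nat_lit 5) (.cons (.br (nat_lit 1) (.cons (.br (nat_lit 0) (.cons (.rel (nat_lit 276824133)) (.cons (.rel (nat_lit 37748772)) (.cons (.rel (nat_lit 276825168))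 (.cons (.rel (nat_lit 272631168)) .nil))))) (.cons (.rel (nat_lit 4328521872)) (.cons (.rel (nat_lit 2164293636)) .nil)))) (.cons (.rel (nat_lit 4831842336)) (.cons (.rel (nat_lit 4563409152)) .nil)))) (.cons (.rel (nat_lit 2415921153)) .nil))) .nil)) (.node .leaf (nat_lit 14096770092584960) (.br (nat_lit 0) (.cons (.br (nat_lit 1) (.cons (.rel (nat_lit 25165848)) .nil)) .nil)) .leaf)) (nat_lit 14097999417901306) (.br (nat_lit 0) (.cons (.br (nat_lit 1) (.cons (.rel (nat_lit 20975877)) .nil)) .nil)) (.node (.node .leaf (nat_lit 14098050955890868) (.br (nat_lit 1) (.cons (.br (nat_lit 2) (.cons (.rel (nat_lit 83919120)) (.cons (.rel (nat_lit 83890500)) .nil))) .nil)) .leaf) (nat_lit 14098050956187833) (.br (nat_lit 1) (.cons (.br (nat_lit 2) (.cons (.rel (nat_lit 100663398)) .nil)) .nil)) (.node .leaf (nat_lit 14098050957530473) (.br (nat_lit 1) (.cons (.br (nat_lit 3) (.cons (.rel (nat_lit 285213057)) .nil)) .nil)) .leaf))))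

/-- refutations 122 -/
def e122 : EX := (.node (.node (.node (.node .leaf (nat_lit 14098903855026476) (.br (nat_lit 1) (.cons (.br (nat_lit 2) (.cons (.rel (nat_lit 84410376)) .nil)) .nil)) .leaf) (nat_lit 14099390985795067) (.br (nat_lit 0) (.cons (.br (nat_lit 2) (.cons (.rel (nat_lit 138544164)) .nil)) .nil)) .leaf) (nat_lit 14103668773114036) (.br (nat_lit 3) (.cons (.br (nat_lit 2) (.cons (.rel (nat_lit 603988032)) (.cons (.rel (nat_lit 335630592)) .nil))) .nil)) (.node (.node .leaf (nat_lit 14103668774430073) (.br (nat_lit 0) (.cons (.br (nat_lit 2) (.cons (.rel (nat_lit 71312640)) .nil)) .nil)) .leaf) (nat_lit 14103668774732686) (.br (nat_lit 2) (.cons (.br (nat_lit 4) (.cons (.rel (nat_lit 1140850968)) (.cons (.rel (nat_lit 1140850968)) .nil))) (.cons (.br (nat_lit 4) (.cons (.rel (nat_lit 1141915680)) (.cons (.rel (nat_lit 2281967712)) .nil))) .nil))) .leaf)) (nat_lit 14103668774992002) (.br (nat_lit 1) (.cons (.br (nat_lit 2) (.cons (.rel (nat_lit 168034308)) .nil)) .nil)) (.node (.node (.node .leaf (nat_lit 14103668776239729) (.br (nat_lit 1) (.cons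 (.br (nat_lit 2) (.cons (.rel (nat_lit 83919120)) .nil)) .nil)) .leaf) (nat_lit 14103672929966330) (.br (nat_lit 1) (.cons (.br (nat_lit 2) (.cons (.rel (nat_lit 84410376)) .nil)) .nil)) .leaf) (nat_lit 14103673596563636) (.br (nat_lit 0) (.cons (.br (nat_lit 3) (.cons (.rel (nat_lit 273155073)) .nil)) .nil)) (.node (.node .leaf (nat_lit 14104321608144233) (.br (nat_lit 0) (.cons (.br (nat_lit 1) (.cons (.rel (nat_lit 37749762)) .nil)) .nil)) .leaf) (nat_lit 14104326753486211) (.br (nat_lit 0) (.cons (.br (nat_lit 2) (.cons (.rel (nat_lit 71373072)) .nil)) .nil)) .leaf)))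

/-- refutations 123 -/
def e123 : EX := (.node (.node .leaf (nat_lit 14109033568989835) (.br (nat_lit 1) (.cons (.br (nat_lit 3) (.cons (.rel (nat_lit 285294864)) .nil)) .nil)) .leaf) (nat_lit 14116687641072417) (.br (nat_lit 0) (.cons (.br (nat_lit 1) (.cons (.rel (nat_lit 22151169)) .nil)) .nil)) (.node .leaf (nat_lit 14116716883802774) (.br (nat_lit 0) (.cons (.br (nat_lit 2) (.cons (.rel (nat_lit 138674496)) .nil)) .nil)) .leaf))

/-- refutations 124 -/
def e124 : EX := (.node (.node (.node .leaf (nat_lit 14119989022821153) (.br (nat_lit 0) (.cons (.br (nat_lit 2) (.cons (.rel (nat_lit 71336196)) .nil)) .nil)) .leaf) (nat_lit 14120807778980520) (.br (nat_lit 0) (.cons (.br (nat_lit 5) (.cons (.rel (nat_lit 8594128980)) .nil)) .nil)) (.node .leaf (nat_lit 14121278139028332) (.br (nat_lit 2) (.cons (.br (nat_lit 4) (.cons (.rel (nat_lit 1140852993)) .nil)) .nil)) .leaf)) (nat_lit 14121278139068471) (.br (nat_lit 0) (.cons (.br (nat_lit 1) (.cons (.rel (nat_lit 20975877)) .nil)) .nil)) (.node (.node .leaf (nat_lit 14121278140291832) (.br (nat_lit 2) (.cons (.br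 (nat_lit 3) (.cons (.rel (nat_lit 336609288)) .nil)) .nil)) .leaf) (nat_lit 14121278141823256) (.br (nat_lit 1) (.cons (.br (nat_lit 2) (.cons (.rel (nat_lit 84934692)) .nil)) .nil)) .leaf))

/-- refutations 125 -/
def e125 : EX := (.node (.node .leaf (nat_lit 13817399966978799) (.br (nat_lit 0) (.cons (.br (nat_lit 1) (.cons (.rel (nat_lit 42209280)) .nil)) .nil)) .leaf) (nat_lit 13821136271073916) (.br (nat_lit 0) (.cons (.br (nat_lit 1) (.cons (.rel (nat_lit 20971848)) .nil)) .nil)) .leaf)

/-- refutations 126 -/
def e126 : EX := (.node (.node (.node (.node (.node .leaf (nat_lit 15428617144634254) (.br (nat_lit 1) (.cons (.br (nat_lit 2) (.cons (.rel (nat_lit 83919120)) .nil)) .nil)) .leaf) (nat_lit 15430512884624141) (.br (nat_lit 0) (.cons (.br (nat_lit 2) (.cons (.rel (nat_lit 138412161)) .nil)) .nil)) .leaf) (nat_lit 15430761484858030) (.br (nat_lit 0) (.cons (.br (nat_lit 1) (.cons (.rel (nat_lit 42209280)) .nil)) .nil)) (.node .leaf (nat_lit 15430795546851380) (.br (nat_lit 0) (.cons (.br (nat_lit 3) (.cons (.rel (nat_lit 273155073)) .nil)) .nil)) .leaf))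 (nat_lit 15430795547042702) (.br (nat_lit 0) (.cons (.br (nat_lit 1) (.cons (.rel (nat_lit 20971848)) .nil)) .nil)) (.node (.node .leaf (nat_lit 15430795859178227) (.br (nat_lit 3) (.cons (.br (nat_lit 4) (.cons (.rel (nat_lit 1342767108)) (.cons (.rel (nat_lit 1342183809)) .nil))) .nil)) .leaf) (nat_lit 15430795861424180) (.br (nat_lit 0) (.cons (.br (nat_lit 2) (.cons (.rel (nat_lit 72351768)) .nil)) .nil)) (.node .leaf (nat_lit 15430796489327852) (.br (nat_lit 2) (.cons (.br (nat_lit 5) (.cons (.rel (nat_lit 4362620928)) .nil)) .nil)) .leaf))) (nat_lit 15430796489605805) (.br (nat_lit 1) (.cons (.br (nat_lit 6) (.cons (.rel (nat_lit 17196748800)) .nil)) .nil)) (.node (.node (.node .leaf (nat_lit 15430796490300077) (.br (nat_lit 0) (.cons (.br (nat_lit 1) (.cons (.rel (nat_lit 22021248)) .nil)) .nil)) .leaf) (nat_lit 15430796490300173) (.br (nat_lit 4) (.cons (.br (nat_lit 5) (.cons (.rel (nat_lit 5368709445)) .nil)) .nil)) (.node .leaf (nat_lit 15430796490569780) (.br (nat_lit 3) (.cons (.br (nat_lit 6) (.cons (.rel (nat_lit 17448305793)) .nil)) .nil)) .leaf))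 (nat_lit 15430796490761102) (.br (nat_lit 2) (.cons (.br (nat_lit 4) (.cons (.rel (nat_lit 1142161668)) .nil)) .nil)) (.node (.node .leaf (nat_lit 15430796490834830) (.br (nat_lit 3) (.cons (.br (nat_lit 4) (.cons (.rel (nat_lit 1610613762)) .nil)) .nil)) .leaf) (nat_lit 15430796490878464) (.br (nat_lit 0) (.cons (.br (nat_lit 3) (.cons (.rel (nat_lit 272646480)) .nil)) .nil)) (.node .leaf (nat_lit 15430798589670131) (.br (nat_lit 3) (.cons (.br (nat_lit 4) (.cons (.rel (nat_lit 1610743872)) (.cons (.rel (nat_lit 1342183809)) .nil))) .nil)) .leaf))))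

/-- refutations 127 -/
def e127 : EX := (.node (.node (.node (.node .leaf (nat_lit 15430938207709835) (.br (nat_lit 1) (.cons (.br (nat_lit 2) (.cons (.rel (nat_lit 83919120)) .nil)) .nil)) .leaf) (nat_lit 15433781872277018) (.br (nat_lit 0) (.cons (.br (nat_lit 4) (.cons (.rel (nat_lit 1082131524)) .nil)) .nil)) .leaf) (nat_lit 15433811554833660) (.br (nat_lit 0) (.cons (.br (nat_lit 2) (.cons (.rel (nat_lit 71827488)) .nil)) .nil)) (.node (.node .leaf (nat_lit 15433811556524294) (.br (nat_lit 1) (.cons (.br (nat_lit 4) (.cons (.rel (nat_lit 1090535760)) .nil)) .nil)) .leaf) (nat_lit 15433811557416992) (.br (nat_lit 2) (.cons (.br (nat_lit 3) (.cons (.rel (nat_lit 335545602)) .nil)) .nil)) .leaf)) (nat_lit 15433937018967301) (.br (nat_lit 1) (.cons (.br (nat_lit 5) (.cons (.rel (nat_lit 4311750024)) .nil)) .nil)) (.node (.node (.node .leaf (nat_lit 15433937019019264) (.br (nat_lit 0) (.cons (.br (nat_lit 1) (.cons (.rel (nat_lit 25167873)) .nil)) .nil)) .leaf) (nat_lit 15433937019073823) (.br (nat_lit 0) (.cons (.br (nat_lit 4) (.cons (.rel (nat_lit 1084227840))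 .nil)) .nil)) .leaf) (nat_lit 15434162782856470) (.br (nat_lit 0) (.cons (.br (nat_lit 1) (.cons (.rel (nat_lit 21037344)) .nil)) .nil)) (.node .leaf (nat_lit 15435005556975104) (.br (nat_lit 0) (.cons (.br (nat_lit 2) (.cons (.rel (nat_lit 142868496)) .nil)) .nil)) .leaf)))

/-- refutations 128 -/
def e128 : EX := (.node (.node (.node (.node .leaf (nat_lit 15436356889105936) (.br (nat_lit 1) (.cons (.br (nat_lit 2) (.cons (.rel (nat_lit 83919120)) .nil)) .nil)) .leaf) (nat_lit 15436356890878132) (.br (nat_lit 1) (.cons (.br (nat_lit 2) (.cons (.rel (nat_lit 83888544)) .nil)) .nil)) (.node .leaf (nat_lit 15436356891966371) (.br (nat_lit 1) (.cons (.br (nat_lit 2) (.cons (.rel (nat_lit 168034308)) .nil)) .nil)) .leaf)) (nat_lit 15436358977869328) (.br (nat_lit 1) (.cons (.br (nat_lit 2) (.cons (.rel (nat_lit 168034308)) .nil)) .nil)) (.node (.node .leaf (nat_lit 15439403602163744) (.br (nat_lit 1) (.cons (.br (nat_lit 3) (.cons (.rel (nat_lit 570687489)) .nil)) .nil)) .leaf) (nat_lit 15439403602170657) (.br (nat_lit 2) (.cons (.br (nat_lit 3) (.cons (.rel (nat_lit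 336592977)) .nil)) .nil)) (.node .leaf (nat_lit 15439403602171112) (.br (nat_lit 2) (.cons (.br (nat_lit 3) (.cons (.rel (nat_lit 336069696)) .nil)) .nil)) .leaf))) (nat_lit 15439403602171392) (.br (nat_lit 0) (.cons (.br (nat_lit 2) (.cons (.rel (nat_lit 71336196)) .nil)) .nil)) (.node (.node (.node .leaf (nat_lit 15439403602221113) (.br (nat_lit 1) (.cons (.br (nat_lit 3) (.cons (.rel (nat_lit 285221124)) .nil)) .nil)) .leaf) (nat_lit 15439403602784907) (.br (nat_lit 1) (.cons (.br (nat_lit 4) (.cons (.rel (nat_lit 1107302400)) .nil)) .nil)) (.node .leaf (nat_lit 15439403603485358) (.br (nat_lit 1) (.cons (.br (nat_lit 3) (.cons (.rel (nat_lit 570687489)) .nil)) .nil)) .leaf)) (nat_lit 15439403603789032) (.br (nat_lit 1) (.cons (.br (nat_lit 4) (.cons (.rel (nat_lit 2181301284)) .nil)) .nil)) (.node (.node .leaf (nat_lit 15439403603789311) (.br (nat_lit 2) (.cons (.br (nat_lit 3) (.cons (.rel (nat_lit 335544612)) .nil)) .nil)) .leaf) (nat_lit 15439403604836384) (.br (nat_lit 1) (.cons (.br (nat_lit 4) (.cons (.rel (nat_lit 1091567634)) .nil)) .nil)) (.node .leaf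 (nat_lit 15439403604836409) (.br (nat_lit 1) (.cons (.br (nat_lit 3) (.cons (.rel (nat_lit 570687489)) .nil)) .nil)) .leaf))))

/-- refutations 129 -/
def e129 : EX := (.node (.node (.node .leaf (nat_lit 15440219648818688) (.br (nat_lit 0) (.cons (.br (nat_lit 3) (.cons (.rel (nat_lit 276824133)) .nil)) .nil)) .leaf) (nat_lit 15440219649125888) (.br (nat_lit 0) (.cons (.br (nat_lit 1) (.cons (.rel (nat_lit 20989185)) .nil)) .nil)) (.node .leaf (nat_lit 15440221747343522) (.br (nat_lit 0) (.cons (.br (nat_lit 1) (.cons (.rel (nat_lit 42209280)) .nil)) .nil)) .leaf)) (nat_lit 15440674915156878) (.br (nat_lit 0) (.cons (.br (nat_lit 2) (.cons (.rel (nat_lit 72351768)) .nil)) .nil)) (.node (.node .leaf (nat_lit 15441499009339668) (.br (nat_lit 1) (.cons (.br (nat_lit 3) (.cons (.rel (nat_lit 285221124)) .nil)) .nil)) .leaf) (nat_lit 15441504772313364) (.br (nat_lit 1) (.cons (.br (nat_lit 3) (.cons (.rel (nat_lit 285221124)) .nil)) .nil)) .leaf))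

/-- refutations 130 -/
def e130 : EX := (.node .leaf (nat_lit 14209196122490368) (.br (nat_lit 0) (.cons (.br (nat_lit 1) (.cons (.rel (nat_lit 20976912)) .nil)) .nil)) .leaf)

/-- refutations 131 -/
def e131 : EX := (.node (.node .leaf (nat_lit 15521897970160901) (.br (nat_lit 0) (.cons (.br (nat_lit 1) (.cons (.rel (nat_lit 20989185)) (.cons (.rel (nat_lit 21037344)) .nil))) .nil)) .leaf) (nat_lit 15523020761510699) (.br (nat_lit 1) (.cons (.br (nat_lit 2) (.cons (.rel (nat_lit 151015425)) .nil)) .nil)) .leaf)

/-- refutations 132 -/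
def e132 : EX := (.node (.node (.node (.node .leaf (nat_lit 15524360789951851) (.br (nat_lit 0) (.cons (.br (nat_lit 1) (.cons (.rel (nat_lit 42209280)) .nil)) .nil)) .leaf) (nat_lit 15524360789952021) (.br (nat_lit 0) (.cons (.br (nat_lit 1) (.cons (.rel (nat_lit 39059472)) .nil)) .nil)) (.node .leaf (nat_lit 15524360791307051) (.br (nat_lit 1) (.cons (.br (nat_lit 2) (.cons (.rel (nat_lit 100730880)) .nil)) .nil)) .leaf)) (nat_lit 15524360791307150) (.br (nat_lit 4) (.cons (.br (nat_lit 1) (.cons (.rel (nat_lit 1107296337)) (.cons (.rel (nat_lit 2164270080)) .nil))) .nil)) (.node (.node .leaf (nat_lit 15524360791307802) (.br (nat_lit 1) (.cons (.br (nat_lit 2) (.cons (.br (nat_lit 4) (.cons (.rel (nat_lit 1208094720)) .nil)) .nil)) .nil)) .leaf) (nat_lit 15524360791356203) (.br (nat_lit 1) (.cons (.br (nat_lit 2) (.cons (.rel (nat_lit 83919120)) .nil)) .nil)) .leaf)) (nat_lit 15524360791541274) (.br (nat_lit 0) (.cons (.br (nat_lit 1) (.cons (.rel (nat_lit 37749762)) .nil)) .nil)) (.node (.node (.node .leaf (nat_lit 15524360792514865) (.br (nat_lit 0) (.cons (.br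 (nat_lit 4) (.cons (.rel (nat_lit 1077944592)) .nil)) .nil)) .leaf) (nat_lit 15524360792525726) (.br (nat_lit 1) (.cons (.br (nat_lit 3) (.cons (.rel (nat_lit 285475392)) (.cons (.rel (nat_lit 285234432)) .nil))) (.cons (.br (nat_lit 3) (.cons (.rel (nat_lit 285221124)) (.cons (.rel (nat_lit 285213057)) .nil))) .nil))) .leaf) (nat_lit 15524360792791721) (.br (nat_lit 3) (.cons (.br (nat_lit 0) (.cons (.rel (nat_lit 273680388)) (.cons (.rel (nat_lit 276825168)) .nil))) .nil)) (.node (.node .leaf (nat_lit 15524360793027371) (.br (nat_lit 1) (.cons (.br (nat_lit 6) (.cons (.rel (nat_lit 17196712968)) .nil)) .nil)) .leaf) (nat_lit 15524362860583593) (.br (nat_lit 0) (.cons (.br (nat_lit 1) (.cons (.rel (nat_lit 20975877)) .nil)) .nil)) .leaf)))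

/-- refutations 133 -/
def e133 : EX := (.node (.node (.node .leaf (nat_lit 15569317772939300) (.br (nat_lit 0) (.cons (.br (nat_lit 1) (.cons (.rel (nat_lit 21504000)) .nil)) .nil)) .leaf) (nat_lit 15571533976066728) (.br (nat_lit 1) (.cons (.br (nat_lit 3) (.cons (.rel (nat_lit 286262277)) .nil)) .nil)) (.node .leaf (nat_lit 15571533976066954) (.br (nat_lit 3) (.cons (.br (nat_lit 4) (.cons (.rel (nat_lit 1610612772)) .nil)) .nil)) .leaf)) (nat_lit 15571533976658680) (.br (nat_lit 4) (.cons (.br (nat_lit 6) (.cons (.rel (nat_lit 35433485568)) (.cons (.rel (nat_lit 35433485568)) .nil))) .nil)) (.node (.node .leaf (nat_lit 15571533977851258) (.br (nat_lit 3) (.cons (.br (nat_lit 5) (.cons (.rel (nat_lit 4831842336)) .nil)) .nil)) .leaf) (nat_lit 15571533978721642) (.br (nat_lit 0) (.cons (.br (nat_lit 1) (.cons (.rel (nat_lit 21037344)) .nil)) .nil)) (.node .leaf (nat_lit 15571539218946954) (.br (nat_lit 0) (.cons (.br (nat_lit 4) (.cons (.rel (nat_lit 1077944592)) .nil)) .nil)) .leaf)))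

/-- refutations 135 -/
def e135 : EX := (.node (.node .leaf (nat_lit 15606858521794074) (.br (nat_lit 0) (.cons (.br (nat_lit 2) (.cons (.rel (nat_lit 71336196)) .nil)) .nil)) .leaf) (nat_lit 15612232125666832) (.br (nat_lit 1) (.cons (.br (nat_lit 3) (.cons (.rel (nat_lit 553717764)) (.cons (.rel (nat_lit 285234432)) .nil))) .nil)) (.node .leaf (nat_lit 15612235778885146) (.br (nat_lit 1) (.cons (.br (nat_lit 3) (.cons (.rel (nat_lit 285234432)) .nil)) .nil)) .leaf))

/-- refutations 136 -/
def e136 : EX := (.node (.node (.node (.node .leaf (nat_lit 15616570017448113) (.br (nat_lit 1) (.cons (.br (nat_lit 3) (.cons (.rel (nat_lit 553717764)) .nil)) .nil)) .leaf) (nat_lit 15616595812438201) (.br (nat_lit 1) (.cons (.br (nat_lit 4) (.cons (.br (nat_lit 3) (.cons (.rel (nat_lit 285221124)) (.cons (.rel (nat_lit 1610612772)) .nil))) .nil)) .nil)) .leaf) (nat_lit 15616595812735006) (.br (nat_lit 0) (.cons (.br (nat_lit 1) (.cons (.rel (nat_lit 20971848)) .nil)) .nil)) (.node .leaf (nat_lit 15616599465676985) (.br (nat_lit 1) (.cons (.br (nat_lit 2) (.cons (.rel (nat_lit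 151003152)) .nil)) .nil)) .leaf)) (nat_lit 15616601596383417) (.br (nat_lit 3) (.cons (.br (nat_lit 2) (.cons (.rel (nat_lit 603979785)) (.cons (.rel (nat_lit 335544612)) .nil))) .nil)) (.node (.node .leaf (nat_lit 15617627107905536) (.br (nat_lit 1) (.cons (.br (nat_lit 2) (.cons (.rel (nat_lit 168034308)) .nil)) .nil)) .leaf) (nat_lit 15617627107906968) (.br (nat_lit 1) (.cons (.br (nat_lit 6) (.cons (.rel (nat_lit 17196647508)) .nil)) .nil)) (.node .leaf (nat_lit 15617632891850752) (.br (nat_lit 4) (.cons (.br (nat_lit 2) (.cons (.rel (nat_lit 1141965828)) (.cons (.rel (nat_lit 1140916608)) .nil))) .nil)) .leaf)))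

/-- refutations 137 -/
def e137 : EX := (.node .leaf (nat_lit 15835418978977275) (.br (nat_lit 0) (.cons (.br (nat_lit 5) (.cons (.rel (nat_lit 4299161880)) .nil)) .nil)) .leaf)

/-- refutations 138 -/
def e138 : EX := (.node (.node .leaf (nat_lit 15843800545487534) (.br (nat_lit 1) (.cons (.br (nat_lit 3) (.cons (.rel (nat_lit 286294080)) .nil)) .nil)) .leaf) (nat_lit 15843800545749652) (.br (nat_lit 1) (.cons (.br (nat_lit 3) (.cons (.rel (nat_lit 285294864)) .nil)) .nil)) (.node .leaf (nat_lit 15846156397216020) (.br (nat_lit 0) (.cons (.br (nat_lit 1) (.cons (.rel (nat_lit 20971848)) .nil)) .nil)) .leaf))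

/-- refutations 139 -/
def e139 : EX := (.node .leaf (nat_lit 15846342517608724) (.br (nat_lit 0) (.cons (.br (nat_lit 3) (.cons (.rel (nat_lit 273155073)) .nil)) .nil)) .leaf)

/-- refutations 140 -/
def e140 : EX := (.node .leaf (nat_lit 15489083997001087) (.br (nat_lit 3) (.cons (.br (nat_lit 5) (.cons (.rel (nat_lit 4563419400)) .nil)) .nil)) .leaf)

/-- refutations 141 -/
def e141 : EX := (.node (.node .leaf (nat_lit 15938520556600576) (.br (nat_lit 0) (.cons (.br (nat_lit 3) (.cons (.rel (nat_lit 276840480)) .nil)) .nil)) .leaf) (nat_lit 15938793367657698) (.br (nat_lit 0) (.cons (.br (nat_lit 1) (.cons (.rel (nat_lit 42222600)) .nil)) .nil)) .leaf)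

/-- refutations 142 -/
def e142 : EX := (.node (.node .leaf (nat_lit 15946131238310188) (.br (nat_lit 1) (.cons (.br (nat_lit 2) (.cons (.rel (nat_lit 84934692)) .nil)) .nil)) .leaf) (nat_lit 15946131238647808) (.br (nat_lit 4) (.cons (.br (nat_lit 0) (.cons (.rel (nat_lit 1078001985)) (.cons (.rel (nat_lit 1077944592)) .nil))) .nil)) .leaf)

/-- refutations 144 -/
def e144 : EX := (.node .leaf (nat_lit 16011338089008014) (.br (nat_lit 0) (.cons (.br (nat_lit 1) (.cons (.rel (nat_lit 20976912)) .nil)) .nil)) .leaf)

/-- refutations 145 -/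
def e145 : EX := (.node (.node .leaf (nat_lit 16044293821782178) (.br (nat_lit 2) (.cons (.br (nat_lit 3) (.cons (.rel (nat_lit 335675712)) .nil)) .nil)) .leaf) (nat_lit 16057431654159838) (.br (nat_lit 0) (.cons (.br (nat_lit 2) (.cons (.rel (nat_lit 71312640)) .nil)) .nil)) (.node .leaf (nat_lit 16057431760391055) (.br (nat_lit 1) (.cons (.br (nat_lit 3) (.cons (.rel (nat_lit 285249936)) .nil)) .nil)) .leaf))

/-- refutations 146 -/
def e146 : EX := (.node (.node (.node .leaf (nat_lit 16301163022925052) (.br (nat_lit 3) (.cons (.br (nat_lit 5) (.cons (.rel (nat_lit 4563403089)) .nil)) .nil)) .leaf) (nat_lit 16301201475576733) (.br (nat_lit 2) (.cons (.br (nat_lit 3) (.cons (.rel (nat_lit 335545602)) .nil)) .nil)) (.node .leaf (nat_lit 16301618286841911) (.br (nat_lit 1) (.cons (.br (nat_lit 4) (.cons (.rel (nat_lit 2164330512)) .nil)) .nil)) .leaf)) (nat_lit 16301618288481036) (.br (nat_lit 0) (.cons (.br (nat_lit 2) (.cons (.rel (nat_lit 72353793)) .nil)) .nil)) (.node (.node .leaf (nat_lit 16301618289651887) (.br (nat_lit 0) (.cons (.br (nat_lit 1) (.cons (.rel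 (nat_lit 25165848)) .nil)) .nil)) .leaf) (nat_lit 16301618395893815) (.br (nat_lit 0) (.cons (.br (nat_lit 1) (.cons (.rel (nat_lit 22036560)) .nil)) .nil)) .leaf))

/-- refutations 147 -/
def e147 : EX := (.node (.node .leaf (nat_lit 16319227652756841) (.br (nat_lit 0) (.cons (.br (nat_lit 2) (.cons (.rel (nat_lit 138420228)) .nil)) .nil)) .leaf) (nat_lit 16319227654629508) (.br (nat_lit 0) (.cons (.br (nat_lit 1) (.cons (.rel (nat_lit 21037344)) .nil)) .nil)) (.node .leaf (nat_lit 16319227655626813) (.br (nat_lit 0) (.cons (.br (nat_lit 5) (.cons (.rel (nat_lit 4299163905)) .nil)) .nil)) .leaf))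

/-- refutations 149 -/
def e149 : EX := (.node .leaf (nat_lit 16407145636203182) (.br (nat_lit 1) (.cons (.br (nat_lit 3) (.cons (.rel (nat_lit 570687489)) .nil)) .nil)) .leaf)

/-- refutations 150 -/
def e150 : EX := (.node (.node .leaf (nat_lit 16455579753009827) (.br (nat_lit 0) (.cons (.br (nat_lit 2) (.cons (.rel (nat_lit 72351768)) .nil)) .nil)) .leaf) (nat_lit 16461848959856122) (.br (nat_lit 0) (.cons (.br (nat_lit 1) (.cons (.rel (nat_lit 22103058)) .nil)) .nil)) .leaf)

/-- refutations 151 -/
def e151 : EX := (.node (.node .leaf (nat_lit 21998242283673104) (.br (nat_lit 1) (.cons (.br (nat_lit 4) (.cons (.rel (nat_lit 2164330512)) .nil)) .nil)) .leaf) (nat_lit 21998242286236574) (.br (nat_lit 0) (.cons (.br (nat_lit 1) (.cons (.rel (nat_lit 42209280)) .nil)) .nil)) (.node .leaf (nat_lit 22001447893749810) (.br (nat_lit 4) (.cons (.br (nat_lit 1) (.cons (.rel (nat_lit 1090520448)) (.cons (.rel (nat_lit 1090520448)) .nil))) .nil)) .leaf))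

/-- refutations 152 -/
def e152 : EX := (.node .leaf (nat_lit 22166426156603442) (.br (nat_lit 0) (.cons (.br (nat_lit 1) (.cons (.rel (nat_lit 20976912)) .nil)) .nil)) .leaf)

/-- refutations 154 -/
def e154 : EX := (.node .leaf (nat_lit 22179518104422677) (.br (nat_lit 1) (.cons (.br (nat_lit 4) (.cons (.rel (nat_lit 1090650369)) .nil)) .nil)) .leaf)

/-- refutations 155 -/
def e155 : EX := (.node (.node .leaf (nat_lit 22201814384399011) (.br (nat_lit 0) (.cons (.br (nat_lit 1) (.cons (.rel (nat_lit 21504000)) .nil)) .nil)) .leaf) (nat_lit 22203793340911892) (.br (nat_lit 0) (.cons (.br (nat_lit 1) (.cons (.rel (nat_lit 21504000)) .nil)) .nil)) .leaf)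

/-- refutations 157 -/
def e157 : EX := (.node (.node (.node .leaf (nat_lit 22432202930301709) (.br (nat_lit 0) (.cons (.br (nat_lit 2) (.cons (.rel (nat_lit 71438724)) .nil)) .nil)) .leaf) (nat_lit 22432208270676229) (.br (nat_lit 0) (.cons (.br (nat_lit 1) (.cons (.rel (nat_lit 22021248)) .nil)) .nil)) (.node .leaf (nat_lit 22432208271959526) (.br (nat_lit 1) (.cons (.br (nat_lit 2) (.cons (.rel (nat_lit 83890500)) (.cons (.rel (nat_lit 83890500)) .nil))) (.cons (.br (nat_lit 2) (.cons (.rel (nat_lit 83894529)) (.cons (.rel (nat_lit 100667424)) .nil))) .nil))) .leaf)) (nat_lit 22435620882530340) (.br (nat_lit 0) (.cons (.br (nat_lit 1) (.cons (.rel (nat_lit 22151169)) .nil)) .nil)) (.node (.node .leaf (nat_lit 22435620884804246) (.br (nat_lit 0) (.cons (.br (nat_lit 4) (.cons (.rel (nat_lit 2155889169)) .nil)) .nil)) .leaf) (nat_lit 22435627067769742) (.br (nat_lit 0) (.cons (.br (nat_lit 2) (.cons (.rel (nat_lit 72351768)) .nil)) .nil)) .leaf))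

/-- refutations 158 -/
def e158 : EX := (.node (.node .leaf (nat_lit 22443192297820297) (.br (nat_lit 3) (.cons (.br (nat_lit 5) (.cons (.rel (nat_lit 4831839297)) .nil)) .nil)) .leaf) (nat_lit 22443192298536418) (.br (nat_lit 0) (.cons (.br (nat_lit 2) (.cons (.rel (nat_lit 72351768)) .nil)) .nil)) .leaf)

/-- refutations 159 -/
def e159 : EX := (.node (.node (.node .leaf (nat_lit 22448102069785251) (.br (nat_lit 3) (.cons (.br (nat_lit 5) (.cons (.rel (nat_lit 4831905792)) .nil)) .nil)) .leaf) (nat_lit 22448107102949376) (.br (nat_lit 3) (.cons (.br (nat_lit 0) (.cons (.rel (nat_lit 272711940)) (.cons (.rel (nat_lit 273678354)) .nil))) .nil)) (.node .leaf (nat_lit 22448107102950051) (.br (nat_lit 5) (.cons (.br (nat_lit 1) (.cons (.rel (nat_lit 4311745794)) (.cons (.rel (nat_lit 8606716932)) .nil))) .nil)) .leaf)) (nat_lit 22448107105545099) (.br (nat_lit 0) (.cons (.br (nat_lit 1) (.cons (.rel (nat_lit 23462916)) .nil)) .nil)) (.node (.node .leaf (nat_lit 22449872460443674) (.br (nat_lit 0) (.cons (.br (nat_lit 1) (.cons (.rel (nat_lit 21504000)) .nil)) .nil))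 .leaf) (nat_lit 22453213060182043) (.br (nat_lit 1) (.cons (.br (nat_lit 2) (.cons (.rel (nat_lit 83903808)) .nil)) .nil)) .leaf))

/-- refutations 160 -/
def e160 : EX := (.node (.node (.node .leaf (nat_lit 22458587955613731) (.br (nat_lit 0) (.cons (.br (nat_lit 3) (.cons (.rel (nat_lit 276890628)) .nil)) .nil)) .leaf) (nat_lit 22458884872033036) (.br (nat_lit 1) (.cons (.br (nat_lit 3) (.cons (.rel (nat_lit 285217098)) .nil)) .nil)) .leaf) (nat_lit 22460945095741750) (.br (nat_lit 0) (.cons (.br (nat_lit 1) (.cons (.rel (nat_lit 26476548)) .nil)) .nil)) (.node .leaf (nat_lit 22460990433346446) (.br (nat_lit 0) (.cons (.br (nat_lit 1) (.cons (.rel (nat_lit 20971848)) .nil)) .nil)) .leaf))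

/-- refutations 164 -/
def e164 : EX := (.node (.node .leaf (nat_lit 22606230600846847) (.br (nat_lit 1) (.cons (.br (nat_lit 2) (.cons (.rel (nat_lit 84410376)) .nil)) .nil)) .leaf) (nat_lit 22613914437150208) (.br (nat_lit 2) (.cons (.br (nat_lit 3) (.cons (.rel (nat_lit 335544612)) .nil)) .nil)) .leaf)

/-- refutations 165 -/
def e165 : EX := (.node (.node .leaf (nat_lit 22616701731112990) (.br (nat_lit 0) (.cons (.br (nat_lit 1) (.cons (.rel (nat_lit 20976912)) .nil)) .nil)) .leaf) (nat_lit 22616701731384077) (.br (nat_lit 0) (.cons (.br (nat_lit 5) (.cons (.rel (nat_lit 4299163905)) .nil)) .nil)) .leaf)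

/-- refutations 166 -/
def e166 : EX := (.node (.node (.node .leaf (nat_lit 22870358449214696) (.br (nat_lit 1) (.cons (.br (nat_lit 2) (.cons (.rel (nat_lit 83919120)) .nil)) .nil)) .leaf) (nat_lit 22872291184599920) (.br (nat_lit 0) (.cons (.br (nat_lit 2) (.cons (.rel (nat_lit 71827488)) .nil)) .nil)) (.node .leaf (nat_lit 22872291185808240) (.br (nat_lit 0) (.cons (.br (nat_lit 3) (.cons (.br (nat_lit 4) (.cons (.rel (nat_lit 1611923472)) .nil)) .nil)) .nil)) .leaf)) (nat_lit 22872291185810969) (.br (nat_lit 0) (.cons (.br (nat_lit 2) (.cons (.rel (nat_lit 142868496)) .nil)) .nil)) (.node (.node .leaf (nat_lit 22872291187163823) (.br (nat_lit 0) (.cons (.br (nat_lit 4) (.cons (.rel (nat_lit 2151747588)) .nil)) .nil)) .leaf) (nat_lit 22875306335425442) (.br (nat_lit 0) (.cons (.br (nat_lit 2) (.cons (.rel (nat_lit 71307624)) .nil)) .nil)) .leaf))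

/-- refutations 167 -/
def e167 : EX := (.node (.node .leaf (nat_lit 22880855349889904) (.br (nat_lit 0) (.cons (.br (nat_lit 1) (.cons (.rel (nat_lit 25186368)) .nil)) .nil)) .leaf) (nat_lit 22881752983799042) (.br (nat_lit 1) (.cons (.br (nat_lit 4) (.cons (.rel (nat_lit 1091567634)) .nil)) .nil)) (.node .leaf (nat_lit 22882125699109039) (.br (nat_lit 0) (.cons (.br (nat_lit 1) (.cons (.rel (nat_lit 37748772)) .nil)) .nil)) .leaf))

/-- refutations 168 -/
def e168 : EX := (.node .leaf (nat_lit 22995628088090088) (.br (nat_lit 0) (.cons (.br (nat_lit 2) (.cons (.rel (nat_lit 71312640)) .nil)) .nil)) .leaf)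

/-- refutations 169 -/
def e169 : EX := (.node (.node .leaf (nat_lit 23004047807064369) (.br (nat_lit 0) (.cons (.br (nat_lit 2) (.cons (.rel (nat_lit 71336196)) .nil)) .nil)) .leaf) (nat_lit 23005271961915567) (.br (nat_lit 3) (.cons (.br (nat_lit 4) (.cons (.rel (nat_lit 2415921153)) .nil)) .nil)) (.node .leaf (nat_lit 23005916081165823) (.br (nat_lit 0) (.cons (.br (nat_lit 1) (.cons (.rel (nat_lit 25231488)) .nil)) .nil)) .leaf))

/-- refutations 170 -/
def e170 : EX := (.node .leaf (nat_lit 23048006785847481) (.br (nat_lit 2) (.cons (.br (nat_lit 3) (.cons (.rel (nat_lit 336069696)) .nil)) .nil)) .leaf)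

/-- refutations 171 -/
def e171 : EX := (.node (.node (.node .leaf (nat_lit 23056719165350138) (.br (nat_lit 3) (.cons (.br (nat_lit 4) (.cons (.rel (nat_lit 1343225928)) .nil)) .nil)) .leaf) (nat_lit 23056820160735912) (.br (nat_lit 1) (.cons (.br (nat_lit 2) (.cons (.rel (nat_lit 83894529)) .nil)) .nil)) .leaf) (nat_lit 23058695457886243) (.br (nat_lit 0) (.cons (.br (nat_lit 3) (.cons (.rel (nat_lit 272631168)) .nil)) .nil)) (.node (.node .leaf (nat_lit 23058695458480308) (.br (nat_lit 3) (.cons (.br (nat_lit 6) (.cons (.rel (nat_lit 17448435714)) .nil)) .nil)) .leaf) (nat_lit 23058695458480378) (.br (nat_lit 1) (.cons (.br (nat_lit 3) (.cons (.rel (nat_lit 286263312)) .nil)) .nil)) .leaf))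

/-- refutations 175 -/
def e175 : EX := (.node (.node (.node .leaf (nat_lit 23083397418669287) (.br (nat_lit 1) (.cons (.br (nat_lit 0) (.cons (.rel (nat_lit 22036560)) (.cons (.rel (nat_lit 20976912)) .nil))) .nil)) .leaf) (nat_lit 23083397419684091) (.br (nat_lit 0) (.cons (.br (nat_lit 4) (.cons (.rel (nat_lit 1082131524)) .nil)) .nil)) .leaf) (nat_lit 23087658024588065) (.br (nat_lit 0) (.cons (.br (nat_lit 1) (.cons (.rel (nat_lit 25165848)) .nil)) .nil)) (.node .leaf (nat_lit 23087658027242234) (.br (nat_lit 0) (.cons (.br (nat_lit 4) (.cons (.rel (nat_lit 1082131524)) .nil)) .nil)) .leaf))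

/-- refutations 176 -/
def e176 : EX := (.node .leaf (nat_lit 23089000789070124) (.br (nat_lit 0) (.cons (.br (nat_lit 1) (.cons (.rel (nat_lit 21037344)) .nil)) .nil)) .leaf)

/-- refutations 178 -/
def e178 : EX := (.node .leaf (nat_lit 24189699898724652) (.br (nat_lit 1) (.cons (.br (nat_lit 3) (.cons (.rel (nat_lit 285213057)) .nil)) .nil)) .leaf)

/-- refutations 179 -/
def e179 : EX := (.node (.node (.node .leaf (nat_lit 24191705138422520) (.br (nat_lit 0) (.cons (.br (nat_lit 2) (.cons (.rel (nat_lit 71827488)) (.cons (.rel (nat_lit 75759873)) .nil))) (.cons (.br (nat_lit 3) (.cons (.rel (nat_lit 272711940)) (.cons (.rel (nat_lit 273155073)) .nil))) .nil))) .leaf) (nat_lit 24191709343382435) (.br (nat_lit 1) (.cons (.br (nat_lit 2) (.cons (.rel (nat_lit 84410376)) .nil)) .nil)) .leaf) (nat_lit 24194677255197928) (.br (nat_lit 1) (.cons (.br (nat_lit 2) (.cons (.rel (nat_lit 84934692)) .nil)) .nil)) (.node .leaf (nat_lit 24195063802869248) (.br (nat_lit 0) (.cons (.br (nat_lit 2) (.cons (.rel (nat_lit 72353793)) .nil)) .nil)) .leaf))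

/-- refutations 180 -/
def e180 : EX := (.node (.node (.node .leaf (nat_lit 24197261867834220) (.br (nat_lit 1) (.cons (.br (nat_lit 4) (.cons (.rel (nat_lit 2164270080)) .nil)) .nil)) .leaf) (nat_lit 24197265539204629) (.br (nat_lit 3) (.cons (.br (nat_lit 4) (.cons (.rel (nat_lit 1610612772)) .nil)) .nil)) (.node .leaf (nat_lit 24197308509859344) (.br (nat_lit 4) (.cons (.br (nat_lit 0) (.cons (.rel (nat_lit 2151682128)) (.cons (.rel (nat_lit 1078462464)) .nil))) .nil)) .leaf)) (nat_lit 24200264892056477) (.br (nat_lit 0) (.cons (.br (nat_lit 1) (.cons (.rel (nat_lit 21037344)) .nil)) .nil)) (.node (.node .leaf (nat_lit 24200312252289704) (.br (nat_lit 0) (.cons (.br (nat_lit 1) (.cons (.rel (nat_lit 25165848)) .nil)) .nil)) .leaf) (nat_lit 24200314355277303) (.br (nat_lit 4) (.cons (.br (nat_lit 6) (.cons (.rel (nat_lit 18253615188)) .nil)) .nil)) .leaf))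

/-- refutations 181 -/
def e181 : EX := (.node (.node .leaf (nat_lit 24201543348958590) (.br (nat_lit 0) (.cons (.br (nat_lit 4) (.cons (.rel (nat_lit 2151682128)) .nil)) .nil)) .leaf) (nat_lit 24202237823702377) (.br (nat_lit 1) (.cons (.br (nat_lit 2) (.cons (.rel (nat_lit 83903808)) .nil)) .nil)) .leaf)

/-- refutations 182 -/
def e182 : EX := (.node .leaf (nat_lit 24202409748266337) (.br (nat_lit 0) (.cons (.br (nat_lit 2) (.cons (.rel (nat_lit 138420228)) .nil)) .nil)) .leaf)

/-- refutations 183 -/
def e183 : EX := (.node .leaf (nat_lit 24278311552443769) (.br (nat_lit 1) (.cons (.br (nat_lit 3) (.cons (.rel (nat_lit 285213057)) .nil)) .nil)) .leaf)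

/-- refutations 184 -/
def e184 : EX := (.node (.node (.node (.node (.node .leaf (nat_lit 24285185629509146) (.br (nat_lit 0) (.cons (.br (nat_lit 4) (.cons (.rel (nat_lit 1078984710)) .nil)) .nil)) .leaf) (nat_lit 24288171579691043) (.br (nat_lit 1) (.cons (.br (nat_lit 2) (.cons (.rel (nat_lit 83894529)) .nil)) .nil)) .leaf) (nat_lit 24288171579988218) (.br (nat_lit 0) (.cons (.br (nat_lit 1) (.cons (.rel (nat_lit 20989185)) .nil)) .nil)) (.node .leaf (nat_lit 24288171580285108) (.br (nat_lit 0) (.cons (.br (nat_lit 2) (.cons (.rel (nat_lit 138412161)) .nil)) .nil)) .leaf)) (nat_lit 24289543532314809) (.br (nat_lit 1) (.cons (.br (nat_lit 5) (.cons (.rel (nat_lit 4312799232)) (.cons (.rel (nat_lit 4312799232)) .nil))) .nil)) (.node (.node .leaf (nat_lit 24289545969225763) (.br (nat_lit 0) (.cons (.br (nat_lit 4) (.cons (.rel (nat_lit 1078068480)) .nil)) .nil)) .leaf) (nat_lit 24289545969522938) (.br (nat_lit 1) (.cons (.br (nat_lit 3) (.cons (.rel (nat_lit 285279552)) .nil)) .nil)) (.node .leaf (nat_lit 24289545969819828) (.br (nat_lit 0) (.cons (.br (nat_lit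 1) (.cons (.rel (nat_lit 20989185)) .nil)) .nil)) .leaf))) (nat_lit 24289547185553588) (.br (nat_lit 1) (.cons (.br (nat_lit 3) (.cons (.rel (nat_lit 553717764)) .nil)) .nil)) (.node (.node (.node (.node .leaf (nat_lit 24289547185553593) (.br (nat_lit 1) (.cons (.br (nat_lit 4) (.cons (.rel (nat_lit 1107558672)) .nil)) .nil)) .leaf) (nat_lit 24289547185574068) (.br (nat_lit 2) (.cons (.br (nat_lit 3) (.cons (.rel (nat_lit 402657408)) .nil)) .nil)) .leaf) (nat_lit 24289547185871033) (.br (nat_lit 1) (.cons (.br (nat_lit 2) (.cons (.rel (nat_lit 151003152)) .nil)) .nil)) (.node .leaf (nat_lit 24289547186890105) (.br (nat_lit 3) (.cons (.br (nat_lit 4) (.cons (.rel (nat_lit 1342179588)) .nil)) .nil)) .leaf)) (nat_lit 24289549316260025) (.br (nat_lit 0) (.cons (.br (nat_lit 2) (.cons (.rel (nat_lit 138420228)) .nil)) .nil)) (.node (.node .leaf (nat_lit 24289549316280505) (.br (nat_lit 2) (.cons (.br (nat_lit 3) (.cons (.rel (nat_lit 402654225)) .nil)) .nil)) .leaf) (nat_lit 24289564361248950) (.br (nat_lit 4) (.cons (.br (nat_lit 1) (.cons (.rel (nat_lit 2164293636))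 (.cons (.rel (nat_lit 1090535760)) (.cons (.rel (nat_lit 2164270080)) .nil)))) .nil)) (.node .leaf (nat_lit 24289564403191990) (.br (nat_lit 1) (.cons (.br (nat_lit 5) (.cons (.rel (nat_lit 4312859664)) .nil)) .nil)) .leaf))))

/-- refutations 185 -/
def e185 : EX := (.node (.node (.node .leaf (nat_lit 24314850440691738) (.br (nat_lit 3) (.cons (.br (nat_lit 6) (.cons (.rel (nat_lit 17448305793)) .nil)) .nil)) .leaf) (nat_lit 24314850440737519) (.br (nat_lit 2) (.cons (.br (nat_lit 3) (.cons (.rel (nat_lit 335545602)) .nil)) .nil)) .leaf) (nat_lit 24314850441757932) (.br (nat_lit 2) (.cons (.br (nat_lit 3) (.cons (.rel (nat_lit 335545602)) .nil)) .nil)) (.node (.node .leaf (nat_lit 24314850442014057) (.br (nat_lit 2) (.cons (.br (nat_lit 4) (.cons (.rel (nat_lit 1207961616)) .nil)) .nil)) .leaf) (nat_lit 24314850443051034) (.br (nat_lit 3) (.cons (.br (nat_lit 5) (.cons (.rel (nat_lit 4563403089)) .nil)) .nil)) .leaf))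

/-- refutations 186 -/
def e186 : EX := (.node .leaf (nat_lit 24324685915246767) (.br (nat_lit 0) (.cons (.br (nat_lit 1) (.cons (.rel (nat_lit 20971848)) .nil)) .nil)) .leaf)

/-- refutations 188 -/
def e188 : EX := (.node (.node .leaf (nat_lit 24365693319578910) (.br (nat_lit 0) (.cons (.br (nat_lit 1) (.cons (.rel (nat_lit 20971848)) .nil)) .nil)) .leaf) (nat_lit 24373144429014549) (.br (nat_lit 0) (.cons (.br (nat_lit 2) (.cons (.rel (nat_lit 71373072)) .nil)) .nil)) .leaf)

/-- refutations 189 -/
def e189 : EX := (.node .leaf (nat_lit 24405791407171093) (.br (nat_lit 2) (.cons (.br (nat_lit 5) (.cons (.rel (nat_lit 8657047632)) .nil)) .nil)) .leaf)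

/-- refutations 190 -/
def e190 : EX := (.node (.node .leaf (nat_lit 24634489955176448) (.br (nat_lit 0) (.cons (.br (nat_lit 2) (.cons (.rel (nat_lit 72351768)) .nil)) .nil)) .leaf) (nat_lit 24634696011405947) (.br (nat_lit 0) (.cons (.br (nat_lit 1) (.cons (.rel (nat_lit 20976912)) .nil)) .nil)) .leaf)

/-- refutations 192 -/
def e192 : EX := (.node .leaf (nat_lit 24758735310163306) (.br (nat_lit 0) (.cons (.br (nat_lit 2) (.cons (.rel (nat_lit 71312640)) .nil)) .nil)) .leaf)

/-- refutations 193 -/
def e193 : EX := (.node .leaf (nat_lit 24829103096965425) (.br (nat_lit 1) (.cons (.br (nat_lit 6) (.cons (.rel (nat_lit 17196662820)) .nil)) .nil)) .leaf)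

/-- refutations 196 -/
def e196 : EX := (.node (.node (.node .leaf (nat_lit 24807435935962474) (.br (nat_lit 0) (.cons (.br (nat_lit 1) (.cons (.rel (nat_lit 20975877)) (.cons (.rel (nat_lit 20971848)) .nil))) .nil)) .leaf) (nat_lit 24807435936309505) (.br (nat_lit 1) (.cons (.br (nat_lit 2) (.cons (.rel (nat_lit 83894529)) .nil)) .nil)) .leaf) (nat_lit 24807435937838442) (.br (nat_lit 0) (.cons (.br (nat_lit 5) (.cons (.rel (nat_lit 4299688002)) .nil)) .nil)) (.node .leaf (nat_lit 24807435938822196) (.br (nat_lit 5) (.cons (.br (nat_lit 3) (.cons (.rel (nat_lit 4563403089)) (.cons (.rel (nat_lit 4563468549)) .nil))) .nil)) .leaf))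

/-- refutations 198 -/
def e198 : EX := (.node (.node .leaf (nat_lit 25159073491856772) (.br (nat_lit 1) (.cons (.br (nat_lit 3) (.cons (.rel (nat_lit 570687489)) .nil)) .nil)) .leaf) (nat_lit 25168941781372928) (.br (nat_lit 0) (.cons (.br (nat_lit 2) (.cons (.rel (nat_lit 75564033)) .nil)) .nil)) .leaf)

/-- refutations 200 -/
def e200 : EX := (.node (.node .leaf (nat_lit 25274711734767796) (.br (nat_lit 1) (.cons (.br (nat_lit 3) (.cons (.rel (nat_lit 285279552)) .nil)) .nil)) .leaf) (nat_lit 25275743030235136) (.br (nat_lit 2) (.cons (.br (nat_lit 3) (.cons (.rel (nat_lit 604127232)) .nil)) .nil)) (.node .leaf (nat_lit 25275743030235436) (.br (nat_lit 0) (.cons (.br (nat_lit 3) (.cons (.rel (nat_lit 272646480)) .nil)) .nil)) .leaf))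

/-- refutations 202 -/
def e202 : EX := (.node (.node (.node .leaf (nat_lit 26396248458154284) (.br (nat_lit 1) (.cons (.br (nat_lit 2) (.cons (.rel (nat_lit 84410376)) .nil)) .nil)) .leaf) (nat_lit 26399235054261726) (.br (nat_lit 0) (.cons (.br (nat_lit 2) (.cons (.rel (nat_lit 72353793)) .nil)) .nil)) (.node .leaf (nat_lit 26400151518057128) (.br (nat_lit 0) (.cons (.br (nat_lit 1) (.cons (.rel (nat_lit 22036560)) .nil)) .nil)) .leaf)) (nat_lit 26400151553523844) (.br (nat_lit 0) (.cons (.br (nat_lit 1) (.cons (.rel (nat_lit 25165848)) .nil)) .nil)) (.node (.node .leaf (nat_lit 26400151554243240) (.br (nat_lit 0) (.cons (.br (nat_lit 1) (.cons (.rel (nat_lit 20971848)) .nil)) .nil)) .leaf) (nat_lit 26400154177856398) (.br (nat_lit 0) (.cons (.br (nat_lit 1) (.cons (.rel (nat_lit 22102020)) .nil)) .nil)) .leaf))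

/-- refutations 204 -/
def e204 : EX := (.node (.node (.node .leaf (nat_lit 26581893893870193) (.br (nat_lit 1) (.cons (.br (nat_lit 4) (.cons (.rel (nat_lit 1090520448)) .nil)) .nil)) .leaf) (nat_lit 26582026239308438) (.br (nat_lit 0) (.cons (.br (nat_lit 1) (.cons (.rel (nat_lit 21504000)) .nil)) .nil)) .leaf) (nat_lit 26587377765995121) (.br (nat_lit 0) (.cons (.br (nat_lit 2) (.cons (.rel (nat_lit 73662468)) .nil)) .nil)) (.node (.node .leaf (nat_lit 26587377765995781) (.br (nat_lit 2) (.cons (.br (nat_lit 1) (.cons (.rel (nat_lit 84934692)) (.cons (.rel (nat_lit 100667424)) (.cons (.rel (nat_lit 168034308)) (.cons (.rel (nat_lit 83890500)) (.cons (.rel (nat_lit 168034308)) .nil)))))) .nil)) .leaf) (nat_lit 26587377767817516) (.br (nat_lit 1) (.cons (.br (nat_lit 2) (.cons (.rel (nat_lit 84410376)) .nil)) .nil)) .leaf))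

/-- refutations 205 -/
def e205 : EX := (.node .leaf (nat_lit 26593049828151351) (.br (nat_lit 1) (.cons (.br (nat_lit 6) (.cons (.rel (nat_lit 17196647508)) .nil)) .nil)) .leaf)

/-- refutations 209 -/
def e209 : EX := (.node .leaf (nat_lit 26836038521475384) (.br (nat_lit 0) (.cons (.br (nat_lit 1) (.cons (.rel (nat_lit 25165848)) .nil)) .nil)) .leaf)

/-- refutations 210 -/
def e210 : EX := (.node (.node (.node (.node .leaf (nat_lit 26839142889444584) (.br (nat_lit 1) (.cons (.br (nat_lit 5) (.cons (.rel (nat_lit 4311744804)) (.cons (.rel (nat_lit 4328555520)) .nil))) .nil)) .leaf) (nat_lit 26840388429960424) (.br (nat_lit 1) (.cons (.br (nat_lit 2) (.cons (.rel (nat_lit 151029780)) .nil)) .nil)) .leaf) (nat_lit 26840410509072639) (.br (nat_lit 2) (.cons (.br (nat_lit 4) (.cons (.rel (nat_lit 1207960581)) .nil)) .nil)) (.node .leaf (nat_lit 26840412945667480) (.br (nat_lit 0) (.cons (.br (nat_lit 4) (.cons (.rel (nat_lit 1082146836)) .nil)) .nil)) .leaf)) (nat_lit 26841014849261868) (.br (nat_lit 0) (.cons (.br (nat_lit 1) (.cons (.rel (nat_lit 37749762)) .nil))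 .nil)) (.node (.node .leaf (nat_lit 26841014849855668) (.br (nat_lit 1) (.cons (.br (nat_lit 3) (.cons (.rel (nat_lit 570687489)) .nil)) .nil)) .leaf) (nat_lit 26841014850595717) (.br (nat_lit 1) (.cons (.br (nat_lit 3) (.cons (.rel (nat_lit 286294080)) .nil)) .nil)) (.node .leaf (nat_lit 26841066390655656) (.br (nat_lit 0) (.cons (.br (nat_lit 4) (.cons (.rel (nat_lit 2151694401)) .nil)) .nil)) .leaf)))

/-- refutations 211 -/
def e211 : EX := (.node (.node .leaf (nat_lit 26848125233660814) (.br (nat_lit 0) (.cons (.br (nat_lit 1) (.cons (.rel (nat_lit 25167873)) .nil)) .nil)) .leaf) (nat_lit 26852390664665123) (.br (nat_lit 0) (.cons (.br (nat_lit 2) (.cons (.rel (nat_lit 71373072)) .nil)) .nil)) .leaf)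

/-- refutations 212 -/
def e212 : EX := (.node .leaf (nat_lit 26856417255206389) (.br (nat_lit 0) (.cons (.br (nat_lit 2) (.cons (.rel (nat_lit 72372288)) .nil)) .nil)) .leaf)

/-- refutations 214 -/
def e214 : EX := (.node .leaf (nat_lit 27015196185767419) (.br (nat_lit 1) (.cons (.br (nat_lit 3) (.cons (.rel (nat_lit 570834948)) .nil)) .nil)) .leaf)

/-- refutations 215 -/
def e215 : EX := (.node .leaf (nat_lit 27402307440234553) (.br (nat_lit 0) (.cons (.br (nat_lit 1) (.cons (.rel (nat_lit 26476548)) .nil)) .nil)) .leaf)

/-- refutations 216 -/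
def e216 : EX := (.node (.node .leaf (nat_lit 27484811184060543) (.br (nat_lit 2) (.cons (.br (nat_lit 5) (.cons (.rel (nat_lit 4362093840)) .nil)) .nil)) .leaf) (nat_lit 27484811184382233) (.br (nat_lit 0) (.cons (.br (nat_lit 1) (.cons (.rel (nat_lit 20972886)) .nil)) .nil)) (.node .leaf (nat_lit 27486557434827052) (.br (nat_lit 1) (.cons (.br (nat_lit 2) (.cons (.rel (nat_lit 84410376)) .nil)) .nil)) .leaf))

/-- refutations 217 -/
def e217 : EX := (.node (.node (.node .leaf (nat_lit 27492112627505283) (.br (nat_lit 0) (.cons (.br (nat_lit 4) (.cons (.rel (nat_lit 1078001985)) .nil)) .nil)) .leaf) (nat_lit 27492112627505904) (.br (nat_lit 1) (.cons (.br (nat_lit 4) (.cons (.rel (nat_lit 1090520448)) .nil)) .nil)) .leaf) (nat_lit 27492112629440643) (.br (nat_lit 0) (.cons (.br (nat_lit 2) (.cons (.rel (nat_lit 71827488)) .nil)) .nil)) (.node .leaf (nat_lit 27492112629440817) (.br (nat_lit 0) (.cons (.br (nat_lit 2) (.cons (.rel (nat_lit 71312640)) .nil)) .nil)) .leaf))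

/-- list of the parts -/
def L1 : List (ℕ × List ℕ) := [(nat_lit 0x1000000000000000000000000000000000000000000000000000000000000000000000000000000000000000000000000000000000000000000000000000000000000000000000000000000000000000000000000000000000000000000000, [Nat.sub (Nat.pow 2 906) (Nat.pow 2 0), Nat.sub (Nat.pow 2 1566) (Nat.pow 2 906), Nat.sub (Nat.pow 2 3136) (Nat.pow 2 1566)]),
  (nat_lit 0x200000000000000000000000000000000000000000000000000000000000000000000000000000000000000000000000000000000000000000000000000000000000000000000000000000000000000000000000000, [cP]),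
  (nat_lit 0x8000000000000000000000000000000000000000000000000000000000000000000000000000000000000000000000000000000000000000000000000000000000000000000000000000000000000000000000000000000000000000000000, [cP]),
  (nat_lit 0x20000000000000000000000000000000000000000000000000000000000000000000000000000000000000000000000000000000000000000000000000000000000000000000000000000000000000000000000000000000000000000000000, [Nat.sub (Nat.pow 2 1254) (Nat.pow 2 0), Nat.sub (Nat.pow 2 3136) (Nat.pow 2 1254)]),
  (nat_lit 0x10000000000000000000000000000000000000000000000000000000000000000000000000000000000000000000000000000000000000000000000000000000000000000000000000000000000000000000000000000000000000000000000000000, [Nat.sub (Nat.pow 2 930) (Nat.pow 2 0), Nat.sub (Nat.pow 2 1539) (Nat.pow 2 930), Nat.sub (Nat.pow 2 3136) (Nat.pow 2 1539)]),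
  (nat_lit 0x20000000000000000000000000000000000000000000000000000000000000000000000000000000000000000000000000000000000000000000000000000000000000000000000000000000000000000000000000000000000000000000000000000, [Nat.sub (Nat.pow 2 931) (Nat.pow 2 0), Nat.sub (Nat.pow 2 3136) (Nat.pow 2 931)]),
  (nat_lit 0x10000000000000000000000000000000000000000000000000000000000000000000000000000000000000000000000000000000000000000000000000000000000000000000000000000000000000000000000000000000000000000000000, [cP]),
  (nat_lit 0x2000000000000000000000000000000000000000000000000000000000000000000000000000000000000000000000000000000000000000000000000000000000000000000000000000000000000000000000000000000000000000000000000000000000, [Nat.sub (Nat.pow 2 881) (Nat.pow 2 0), Nat.sub (Nat.pow 2 3136) (Nat.pow 2 881)]),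
  (nat_lit 0x4000000000000000000000000000000000000000000000000000000000000000000000000000000000000000000000000000000000000000000000000000000000000000000000000000000000000000000000000000000000000000000000000000000000, [Nat.sub (Nat.pow 2 1254) (Nat.pow 2 0), Nat.sub (Nat.pow 2 3136) (Nat.pow 2 1254)]),
  (nat_lit 0x200000000000000000000000000000000000000000000000000000000000000000000000000000000000000000000000000000000000000000000000000000000000000000000000000000000000000000000000000000000000000000000000000000, [cP]),
  (nat_lit 0x20000000000000000000000000000000000000000000000000000000000000000000000000000000000000000000000000000000000000000000000000000000000000000000000000000000000000000000000000000000000000000000000000000000000000000000000000000, [Nat.sub (Nat.pow 2 305) (Nat.pow 2 0), Nat.sub (Nat.pow 2 789) (Nat.pow 2 305), Nat.sub (Nat.pow 2 1314) (Nat.pow 2 789), Nat.sub (Nat.pow 2 3136) (Nat.pow 2 1314)]),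
  (nat_lit 0x80000000000000000000000000000000000000000000000000000000000000000000000000000000000000000000000000000000000000000000000000000000000000000000000000000000000000000000000000000000000000000000000000000000000, [cP]),
  (nat_lit 0x400000000000000000000000000000000000000000000000000000000000000000000000000000000000000000000000000000000000000000000000000000000000000000000000000000000000000000000000000000000000000000000000000000000000000000000000000000, [Nat.sub (Nat.pow 2 934) (Nat.pow 2 0), Nat.sub (Nat.pow 2 3136) (Nat.pow 2 934)]),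
  (nat_lit 0x2000000000000000000000000000000000000000000000000000000000000000000000000000000000000000000000000000000000000000000000000000000000000000000000000000000000000000000000000000000000000000000000000000000000000000000000000000000, [Nat.sub (Nat.pow 2 765) (Nat.pow 2 0), Nat.sub (Nat.pow 2 3136) (Nat.pow 2 765)]),
  (nat_lit 0x8000000000000000000000000000000000000000000000000000000000000000000000000000000000000000000000000000000000000000000000000000000000000000000000000000000000000000000000000000000000000000000000000000000000000000000000000000000, [Nat.sub (Nat.pow 2 1285) (Nat.pow 2 0), Nat.sub (Nat.pow 2 3136) (Nat.pow 2 1285)]),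
  (nat_lit 0x10000000000000000000000000000000000000000000000000000000000000000000000000000000000000000000000000000000000000000000000000000000000000000000000000000000000000000000000000000000000000000000000000000000000000000000000000000000000, [Nat.sub (Nat.pow 2 805) (Nat.pow 2 0), Nat.sub (Nat.pow 2 1561) (Nat.pow 2 805), Nat.sub (Nat.pow 2 3136) (Nat.pow 2 1561)]),
  (nat_lit 0x100000000000000000000000000000000000000000000000000000000000000000000000000000000000000000000000000000000000000000000000000000000000000000000000000000000000000000000000000000000000000000000000000000000000000000000000000000, [cP]),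
  (nat_lit 0x400000000000000000000000000000000000000000000000000000000000000000000000000000000000000000000000000000000000000000000000000000000000000000000000000000000000000000000000000000000000000000000000000000000000000000000000000000000000, [Nat.sub (Nat.pow 2 890) (Nat.pow 2 0), Nat.sub (Nat.pow 2 3136) (Nat.pow 2 890)]),
  (nat_lit 0x200000000000000000000000000000000000000000000000000000000000000000000000000000000000000000000000000000000000000000000000000000000000000000000000000000000000000000000000000000000000000000000000000000000000000000000000000000000000, [cP]),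
  (nat_lit 0x4000000000000000000000000000000000000000000000000000000000000000000000000000000000000000000000000000000000000000000000000000000000000000000000000000000000000000000000000000000000000000000000000000000000000000000000000000000000000, [cP]),
  (nat_lit 0x10000000000000000000000000000000000000000000000000000000000000000000000000000000000000000000000000000000000000000000000000000000000000000000000000000000000000000000000000000000000000000000000000000000000000000000000000000000000000, [cP]),
  (nat_lit 0x40000000000000000000000000000000000000000000000000000000000000000000000000000000000000000000000000000000000000000000000000000000000000000000000000000000000000000000000000000000000000000000000000000000000000000000000000000000000000000, [cP]),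
  (nat_lit 0x80000000000000000000000000000000000000000000000000000000000000000000000000000000000000000000000000000000000000000000000000000000000000000000000000000000000000000000000000000000000000000000000000000000000000000000000000000000000000000, [cP]),
  (nat_lit 0x800000000000000000000000000000000000000000000000000000000000000000000000000000000000000000000000000000000000000000000000000000000000000000000000000000000000000000000000000000000000000000000000000000000000000000000000000000000000000000, [cP]),
  (nat_lit 0x1000000000000000000000000000000000000000000000000000000000000000000000000000000000000000000000000000000000000000000000000000000000000000000000000000000000000000000000000000000000000000000000000000000000000000000000000000000000000000000, [cP]),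
  (nat_lit 0x8000000000000000000000000000000000000000000000000000000000000000000000000000000000000000000000000000000000000000000000000000000000000000000000000000000000000000000000000000000000000000000000000000000000000000000000000000000000000000000, [cP]),
  (nat_lit 0x40000000000000000000000000000000000000000000000000000000000000000000000000000000000000000000000000000000000000000000000000000000000000000000000000000000000000000000000000000000000000000000000000000000000000000000000000000000000000000000000000000000000000000000000000000000000000000000000000000000000000000000000000, [cP]),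
  (nat_lit 0x10000000000000000000000000000000000000000000000000000000000000000000000000000000000000000000000000000000000000000000000000000000000000000000000000000000000000000000000000000000000000000000000000000000000000000000000000000000000000000000000000000000000000000000000000000000000000000000000000000000000000000000000000000, [Nat.sub (Nat.pow 2 906) (Nat.pow 2 0), Nat.sub (Nat.pow 2 1559) (Nat.pow 2 906), Nat.sub (Nat.pow 2 3136) (Nat.pow 2 1559)]),
  (nat_lit 0x40000000000000000000000000000000000000000000000000000000000000000000000000000000000000000000000000000000000000000000000000000000000000000000000000000000000000000000000000000000000000000000000000000000000000000000000000000000000000000000000000000000000000000000000000000000000000000000000000000000000000000000000000000, [Nat.sub (Nat.pow 2 879) (Nat.pow 2 0), Nat.sub (Nat.pow 2 3136) (Nat.pow 2 879)]),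
  (nat_lit 0x80000000000000000000000000000000000000000000000000000000000000000000000000000000000000000000000000000000000000000000000000000000000000000000000000000000000000000000000000000000000000000000000000000000000000000000000000000000000000000000000000000000000000000000000000000000000000000000000000000000000000000000000000000000, [Nat.sub (Nat.pow 2 680) (Nat.pow 2 0), Nat.sub (Nat.pow 2 3136) (Nat.pow 2 680)]),
  (nat_lit 0x100000000000000000000000000000000000000000000000000000000000000000000000000000000000000000000000000000000000000000000000000000000000000000000000000000000000000000000000000000000000000000000000000000000000000000000000000000000000000000000000000000000000000000000000000000000000000000000000000000000000000000000000000000000, [Nat.sub (Nat.pow 2 884) (Nat.pow 2 0), Nat.sub (Nat.pow 2 1561) (Nat.pow 2 884), Nat.sub (Nat.pow 2 3136) (Nat.pow 2 1561)]),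
  (nat_lit 0x200000000000000000000000000000000000000000000000000000000000000000000000000000000000000000000000000000000000000000000000000000000000000000000000000000000000000000000000000000000000000000000000000000000000000000000000000000000000000000000000000000000000000000000000000000000000000000000000000000000000000000000000000000000, [Nat.sub (Nat.pow 2 910) (Nat.pow 2 0), Nat.sub (Nat.pow 2 3136) (Nat.pow 2 910)]),
  (nat_lit 0x20000000000000000000000000000000000000000000000000000000000000000000000000000000000000000000000000000000000000000000000000000000000000000000000000000000000000000000000000000000000000000000000000000000000000000000000000000000000000000000000000000000000000000000000000000000000000000000000000000000000000000000000000000000000, [Nat.sub (Nat.pow 2 931) (Nat.pow 2 0), Nat.sub (Nat.pow 2 3136) (Nat.pow 2 931)]),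
  (nat_lit 0x100000000000000000000000000000000000000000000000000000000000000000000000000000000000000000000000000000000000000000000000000000000000000000000000000000000000000000000000000000000000000000000000000000000000000000000000000000000000000000000000000000000000000000000000000000000000000000000000000000000000000000000000000000000000000, [Nat.sub (Nat.pow 2 681) (Nat.pow 2 0), Nat.sub (Nat.pow 2 3136) (Nat.pow 2 681)]),
  (nat_lit 0x8000000000000000000000000000000000000000000000000000000000000000000000000000000000000000000000000000000000000000000000000000000000000000000000000000000000000000000000000000000000000000000000000000000000000000000000000000000000000000000000000000000000000000000000000000000000000000000000000000000000000000000000000000000000000000, [Nat.sub (Nat.pow 2 1279) (Nat.pow 2 0), Nat.sub (Nat.pow 2 3136) (Nat.pow 2 1279)]),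
  (nat_lit 0x40000000000000000000000000000000000000000000000000000000000000000000000000000000000000000000000000000000000000000000000000000000000000000000000000000000000000000000000000000000000000000000000000000000000000000000000000000000000000000000000000000000000000000000000000000000000000000000000000000000000000000000000000000000000000000, [Nat.sub (Nat.pow 2 881) (Nat.pow 2 0), Nat.sub (Nat.pow 2 3136) (Nat.pow 2 881)]),
  (nat_lit 0x80000000000000000000000000000000000000000000000000000000000000000000000000000000000000000000000000000000000000000000000000000000000000000000000000000000000000000000000000000000000000000000000000000000000000000000000000000000000000000000000000000000000000000000000000000000000000000000000000000000000000000000000000000000000000000, [Nat.sub (Nat.pow 2 930) (Nat.pow 2 0), Nat.sub (Nat.pow 2 1566) (Nat.pow 2 930), Nat.sub (Nat.pow 2 3136) (Nat.pow 2 1566)]),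
  (nat_lit 0x100000000000000000000000000000000000000000000000000000000000000000000000000000000000000000000000000000000000000000000000000000000000000000000000000000000000000000000000000000000000000000000000000000000000000000000000000000000000000000000000000000000000000000000000000000000000000000000000000000000000000000000000000000000000000000, [Nat.sub (Nat.pow 2 930) (Nat.pow 2 0), Nat.sub (Nat.pow 2 1554) (Nat.pow 2 930), Nat.sub (Nat.pow 2 3136) (Nat.pow 2 1554)]),
  (nat_lit 0x800000000000000000000000000000000000000000000000000000000000000000000000000000000000000000000000000000000000000000000000000000000000000000000000000000000000000000000000000000000000000000000000000000000000000000000000000000000000000000000000000000000000000000000000000000000000000000000000000000000000000000000000000000000000000000000000000000000, [Nat.sub (Nat.pow 2 289) (Nat.pow 2 0), Nat.sub (Nat.pow 2 681) (Nat.pow 2 289), Nat.sub (Nat.pow 2 1314) (Nat.pow 2 681), Nat.sub (Nat.pow 2 1535) (Nat.pow 2 1314), Nat.sub (Nat.pow 2 3136) (Nat.pow 2 1535)]),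
  (nat_lit 0x10000000000000000000000000000000000000000000000000000000000000000000000000000000000000000000000000000000000000000000000000000000000000000000000000000000000000000000000000000000000000000000000000000000000000000000000000000000000000000000000000000000000000000000000000000000000000000000000000000000000000000000000000000000000000000000000000000000000, [Nat.sub (Nat.pow 2 931) (Nat.pow 2 0), Nat.sub (Nat.pow 2 3136) (Nat.pow 2 931)]),
  (nat_lit 0x40000000000000000000000000000000000000000000000000000000000000000000000000000000000000000000000000000000000000000000000000000000000000000000000000000000000000000000000000000000000000000000000000000000000000000000000000000000000000000000000000000000000000000000000000000000000000000000000000000000000000000000000000000000000000000000000000000000000, [Nat.sub (Nat.pow 2 764) (Nat.pow 2 0), Nat.sub (Nat.pow 2 3136) (Nat.pow 2 764)]),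
  (nat_lit 0x100000000000000000000000000000000000000000000000000000000000000000000000000000000000000000000000000000000000000000000000000000000000000000000000000000000000000000000000000000000000000000000000000000000000000000000000000000000000000000000000000000000000000000000000000000000000000000000000000000000000000000000000000, [cP]),
  (nat_lit 0x200000000000000000000000000000000000000000000000000000000000000000000000000000000000000000000000000000000000000000000000000000000000000000000000000000000000000000000000000000000000000000000000000000000000000000000000000000000000000000000000000000000000000000000000000000000000000000000000000000000000000000000000000000000000000000000000000000000000, [cP]),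
  (nat_lit 0x800000000000000000000000000000000000000000000000000000000000000000000000000000000000000000000000000000000000000000000000000000000000000000000000000000000000000000000000000000000000000000000000000000000000000000000000000000000000000000000000000000000000000000000000000000000000000000000000000000000000000000000000000000000000000000000000000000000000, [cP]),
  (nat_lit 0x1000000000000000000000000000000000000000000000000000000000000000000000000000000000000000000000000000000000000000000000000000000000000000000000000000000000000000000000000000000000000000000000000000000000000000000000000000000000000000000000000000000000000000000000000000000000000000000000000000000000000000000000000000000000000000000000000000000000000000, [cP]),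
  (nat_lit 0x2000000000000000000000000000000000000000000000000000000000000000000000000000000000000000000000000000000000000000000000000000000000000000000000000000000000000000000000000000000000000000000000000000000000000000000000000000000000000000000000000000000000000000000000000000000000000000000000000000000000000000000000000000000000000000000000000000000000000000, [cP]),
  (nat_lit 0x80000000000000000000000000000000000000000000000000000000000000000000000000000000000000000000000000000000000000000000000000000000000000000000000000000000000000000000000000000000000000000000000000000000000000000000000000000000000000000000000000000000000000000000000000000000000000000000000000000000000000000000000000000000000000000000000000000000000000000, [cP]),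
  (nat_lit 0x800000000000000000000000000000000000000000000000000000000000000000000000000000000000000000000000000000000000000000000000000000000000000000000000000000000000000000000000000000000000000000000000000000000000000000000000000000000000000000000000000000000000000000000000000000000000000000000000000000000000000000000000000000000000000000000000000000000000000000, [Nat.sub (Nat.pow 2 1279) (Nat.pow 2 0), Nat.sub (Nat.pow 2 1566) (Nat.pow 2 1279), Nat.sub (Nat.pow 2 3136) (Nat.pow 2 1566)]),
  (nat_lit 0x400000000000000000000000000000000000000000000000000000000000000000000000000000000000000000000000000000000000000000000000000000000000000000000000000000000000000000000000000000000000000000000000000000000000000000000000000000000000000000000000000000000000000000000000000000000000000000000000000000000000000000000000000000000000000000000000000000000000000000, [cP]),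
  (nat_lit 0x8000000000000000000000000000000000000000000000000000000000000000000000000000000000000000000000000000000000000000000000000000000000000000000000000000000000000000000000000000000000000000000000000000000000000000000000000000000000000000000000000000000000000000000000000000000000000000000000000000000000000000000000000000000000000000000000000000000000000000000000, [cP]),
  (nat_lit 0x40000000000000000000000000000000000000000000000000000000000000000000000000000000000000000000000000000000000000000000000000000000000000000000000000000000000000000000000000000000000000000000000000000000000000000000000000000000000000000000000000000000000000000000000000000000000000000000000000000000000000000000000000000000000000000000000000000000000000000000000, [cP]),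
  (nat_lit 0x100000000000000000000000000000000000000000000000000000000000000000000000000000000000000000000000000000000000000000000000000000000000000000000000000000000000000000000000000000000000000000000000000000000000000000000000000000000000000000000000000000000000000000000000000000000000000000000000000000000000000000000000000000000000000000000000000000000000000000000000, [cP]),
  (nat_lit 0x1000000000000000000000000000000000000000000000000000000000000000000000000000000000000000000000000000000000000000000000000000000000000000000000000000000000000000000000000000000000000000000000000000000000000000000000000000000000000000000000000000000000000000000000000000000000000000000000000000000000000000000000000000000000000000000000000000000000000000000000000, [cP]),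
  (nat_lit 0x10000000000000000000000000000000000000000000000000000000000000000000000000000000000000000000000000000000000000000000000000000000000000000000000000000000000000000000000000000000000000000000000000000000000000000000000000000000000000000000000000000000000000000000000000000000000000000000000000000000000000000000000000000000000000000000000000000000000000000000000000000000000000000, [Nat.sub (Nat.pow 2 881) (Nat.pow 2 0), Nat.sub (Nat.pow 2 3136) (Nat.pow 2 881)]),
  (nat_lit 0x2000000000000000000000000000000000000000000000000000000000000000000000000000000000000000000000000000000000000000000000000000000000000000000000000000000000000000000000000000000000000000000000000000000000000000000000000000000000000000000000000000000000000000000000000000000000000000000000000000000000000000000000000000000000000000000000000000000000000000000000000, [cP]),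
  (nat_lit 0x8000000000000000000000000000000000000000000000000000000000000000000000000000000000000000000000000000000000000000000000000000000000000000000000000000000000000000000000000000000000000000000000000000000000000000000000000000000000000000000000000000000000000000000000000000000000000000000000000000000000000000000000000000000000000000000000000000000000000000000000000000000000000000000, [Nat.sub (Nat.pow 2 904) (Nat.pow 2 0), Nat.sub (Nat.pow 2 1566) (Nat.pow 2 904), Nat.sub (Nat.pow 2 3136) (Nat.pow 2 1566)]),
  (nat_lit 0x4000000000000000000000000000000000000000000000000000000000000000000000000000000000000000000000000000000000000000000000000000000000000000000000000000000000000000000000000000000000000000000000000000000000000000000000000000000000000000000000000000000000000000000000000000000000000000000000000000000000000000000000000000000000000000000000000000000000000000000000000000000000000000000, [cP]),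
  (nat_lit 0x20000000000000000000000000000000000000000000000000000000000000000000000000000000000000000000000000000000000000000000000000000000000000000000000000000000000000000000000000000000000000000000000000000000000000000000000000000000000000000000000000000000000000000000000000000000000000000000000000000000000000000000000000000000000000000000000000000000000000000000000000000000000000000000000, [Nat.sub (Nat.pow 2 779) (Nat.pow 2 0), Nat.sub (Nat.pow 2 1254) (Nat.pow 2 779), Nat.sub (Nat.pow 2 3136) (Nat.pow 2 1254)]),
  (nat_lit 0x40000000000000000000000000000000000000000000000000000000000000000000000000000000000000000000000000000000000000000000000000000000000000000000000000000000000000000000000000000000000000000000000000000000000000000000000000000000000000000000000000000000000000000000000000000000000000000000000000000000000000000000000000000000000000000000000000000000000000000000000000000000000000000000000, [Nat.sub (Nat.pow 2 1254) (Nat.pow 2 0), Nat.sub (Nat.pow 2 3136) (Nat.pow 2 1254)]),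
  (nat_lit 0x10000000000000000000000000000000000000000000000000000000000000000000000000000000000000000000000000000000000000000000000000000000000000000000000000000000000000000000000000000000000000000000000000000000000000000000000000000000000000000000000000000000000000000000000000000000000000000000000000000000000000000000000000000000000000000000000000000000000000000000000000000000000000000000, [cP]),
  (nat_lit 0x8000000000000000000000000000000000000000000000000000000000000000000000000000000000000000000000000000000000000000000000000000000000000000000000000000000000000000000000000000000000000000000000000000000000000000000000000000000000000000000000000000000000000000000000000000000000000000000000000000000000000000000000000000000000000000000000000000000000000000000000000000000000000000000000000, [cP]),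
  (nat_lit 0x2000000000000000000000000000000000000000000000000000000000000000000000000000000000000000000000000000000000000000000000000000000000000000000000000000000000000000000000000000000000000000000000000000000000000000000000000000000000000000000000000000000000000000000000000000000000000000000000000000000000000000000000000000000000000000000000000000000000000000000000000000000000000000000000000000000, [cP]),
  (nat_lit 0x40000000000000000000000000000000000000000000000000000000000000000000000000000000000000000000000000000000000000000000000000000000000000000000000000000000000000000000000000000000000000000000000000000000000000000000000000000000000000000000000000000000000000000000000000000000000000000000000000000000000000000000000000000000000000000000000000000000000000000000000000000000000000000000000000000000, [Nat.sub (Nat.pow 2 904) (Nat.pow 2 0), Nat.sub (Nat.pow 2 3136) (Nat.pow 2 904)]),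
  (nat_lit 0x20000000000000000000000000000000000000000000000000000000000000000000000000000000000000000000000000000000000000000000000000000000000000000000000000000000000000000000000000000000000000000000000000000000000000000000000000000000000000000000000000000000000000000000000000000000000000000000000000000000000000000000000000000000000000000000000000000000000000000000000000000000000000000000000000000000, [cP])]

theorem hp1 : ∀ p ∈ L1, ∀ D2 ∈ p.2, ∃ e,
    search ext94 (Pool.Agent.H74.EGZ.vio sb) G Uc A0 p.1 D2 e = true :=
  (List.forall_mem_cons.2 ⟨(List.forall_mem_cons.2 ⟨⟨e108, by decide +kernel⟩,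
  (List.forall_mem_cons.2 ⟨⟨e109, by decide +kernel⟩,
  (List.forall_mem_singleton.2 ⟨.leaf, by decide +kernel⟩)⟩)⟩),
  (List.forall_mem_cons.2 ⟨(List.forall_mem_singleton.2 ⟨e111, by decide +kernel⟩),
  (List.forall_mem_cons.2 ⟨(List.forall_mem_singleton.2 ⟨e112, by decide +kernel⟩),
  (List.forall_mem_cons.2 ⟨(List.forall_mem_cons.2 ⟨⟨e113, by decide +kernel⟩,
  (List.forall_mem_singleton.2 ⟨.leaf, by decide +kernel⟩)⟩),
  (List.forall_mem_cons.2 ⟨(List.forall_mem_cons.2 ⟨⟨e115, by decide +kernel⟩,
  (List.forall_mem_cons.2 ⟨⟨.leaf, by decide +kernel⟩,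
  (List.forall_mem_singleton.2 ⟨.leaf, by decide +kernel⟩)⟩)⟩),
  (List.forall_mem_cons.2 ⟨(List.forall_mem_cons.2 ⟨⟨e118, by decide +kernel⟩,
  (List.forall_mem_singleton.2 ⟨.leaf, by decide +kernel⟩)⟩),
  (List.forall_mem_cons.2 ⟨(List.forall_mem_singleton.2 ⟨.leaf, by decide +kernel⟩),
  (List.forall_mem_cons.2 ⟨(List.forall_mem_cons.2 ⟨⟨e121, by decide +kernel⟩,
  (List.forall_mem_singleton.2 ⟨e122, by decide +kernel⟩)⟩),
  (List.forall_mem_cons.2 ⟨(List.forall_mem_cons.2 ⟨⟨e123, by decide +kernel⟩,
  (List.forall_mem_singleton.2 ⟨e124, by decide +kernel⟩)⟩),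
  (List.forall_mem_cons.2 ⟨(List.forall_mem_singleton.2 ⟨e125, by decide +kernel⟩),
  (List.forall_mem_cons.2 ⟨(List.forall_mem_cons.2 ⟨⟨e126, by decide +kernel⟩,
  (List.forall_mem_cons.2 ⟨⟨e127, by decide +kernel⟩,
  (List.forall_mem_cons.2 ⟨⟨e128, by decide +kernel⟩,
  (List.forall_mem_singleton.2 ⟨e129, by decide +kernel⟩)⟩)⟩)⟩),
  (List.forall_mem_cons.2 ⟨(List.forall_mem_singleton.2 ⟨e130, by decide +kernel⟩),
  (List.forall_mem_cons.2 ⟨(List.forall_mem_cons.2 ⟨⟨e131, by decide +kernel⟩,
  (List.forall_mem_singleton.2 ⟨e132, by decide +kernel⟩)⟩),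
  (List.forall_mem_cons.2 ⟨(List.forall_mem_cons.2 ⟨⟨e133, by decide +kernel⟩,
  (List.forall_mem_singleton.2 ⟨.leaf, by decide +kernel⟩)⟩),
  (List.forall_mem_cons.2 ⟨(List.forall_mem_cons.2 ⟨⟨e135, by decide +kernel⟩,
  (List.forall_mem_singleton.2 ⟨e136, by decide +kernel⟩)⟩),
  (List.forall_mem_cons.2 ⟨(List.forall_mem_cons.2 ⟨⟨e137, by decide +kernel⟩,
  (List.forall_mem_cons.2 ⟨⟨e138, by decide +kernel⟩,
  (List.forall_mem_singleton.2 ⟨e139, by decide +kernel⟩)⟩)⟩),
  (List.forall_mem_cons.2 ⟨(List.forall_mem_singleton.2 ⟨e140, by decide +kernel⟩),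
  (List.forall_mem_cons.2 ⟨(List.forall_mem_cons.2 ⟨⟨e141, by decide +kernel⟩,
  (List.forall_mem_singleton.2 ⟨e142, by decide +kernel⟩)⟩),
  (List.forall_mem_cons.2 ⟨(List.forall_mem_singleton.2 ⟨.leaf, by decide +kernel⟩),
  (List.forall_mem_cons.2 ⟨(List.forall_mem_singleton.2 ⟨e144, by decide +kernel⟩),
  (List.forall_mem_cons.2 ⟨(List.forall_mem_singleton.2 ⟨e145, by decide +kernel⟩),
  (List.forall_mem_cons.2 ⟨(List.forall_mem_singleton.2 ⟨e146, by decide +kernel⟩),
  (List.forall_mem_cons.2 ⟨(List.forall_mem_singleton.2 ⟨e147, by decide +kernel⟩),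
  (List.forall_mem_cons.2 ⟨(List.forall_mem_singleton.2 ⟨.leaf, by decide +kernel⟩),
  (List.forall_mem_cons.2 ⟨(List.forall_mem_singleton.2 ⟨e149, by decide +kernel⟩),
  (List.forall_mem_cons.2 ⟨(List.forall_mem_singleton.2 ⟨e150, by decide +kernel⟩),
  (List.forall_mem_cons.2 ⟨(List.forall_mem_singleton.2 ⟨e151, by decide +kernel⟩),
  (List.forall_mem_cons.2 ⟨(List.forall_mem_cons.2 ⟨⟨e152, by decide +kernel⟩,
  (List.forall_mem_cons.2 ⟨⟨.leaf, by decide +kernel⟩,
  (List.forall_mem_singleton.2 ⟨e154, by decide +kernel⟩)⟩)⟩),
  (List.forall_mem_cons.2 ⟨(List.forall_mem_cons.2 ⟨⟨e155, by decide +kernel⟩,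
  (List.forall_mem_singleton.2 ⟨.leaf, by decide +kernel⟩)⟩),
  (List.forall_mem_cons.2 ⟨(List.forall_mem_cons.2 ⟨⟨e157, by decide +kernel⟩,
  (List.forall_mem_singleton.2 ⟨e158, by decide +kernel⟩)⟩),
  (List.forall_mem_cons.2 ⟨(List.forall_mem_cons.2 ⟨⟨e159, by decide +kernel⟩,
  (List.forall_mem_cons.2 ⟨⟨e160, by decide +kernel⟩,
  (List.forall_mem_singleton.2 ⟨.leaf, by decide +kernel⟩)⟩)⟩),
  (List.forall_mem_cons.2 ⟨(List.forall_mem_cons.2 ⟨⟨.leaf, by decide +kernel⟩,
  (List.forall_mem_singleton.2 ⟨.leaf, by decide +kernel⟩)⟩),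
  (List.forall_mem_cons.2 ⟨(List.forall_mem_cons.2 ⟨⟨e164, by decide +kernel⟩,
  (List.forall_mem_singleton.2 ⟨e165, by decide +kernel⟩)⟩),
  (List.forall_mem_cons.2 ⟨(List.forall_mem_cons.2 ⟨⟨e166, by decide +kernel⟩,
  (List.forall_mem_singleton.2 ⟨e167, by decide +kernel⟩)⟩),
  (List.forall_mem_cons.2 ⟨(List.forall_mem_cons.2 ⟨⟨e168, by decide +kernel⟩,
  (List.forall_mem_singleton.2 ⟨e169, by decide +kernel⟩)⟩),
  (List.forall_mem_cons.2 ⟨(List.forall_mem_cons.2 ⟨⟨e170, by decide +kernel⟩,
  (List.forall_mem_singleton.2 ⟨e171, by decide +kernel⟩)⟩),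
  (List.forall_mem_cons.2 ⟨(List.forall_mem_cons.2 ⟨⟨.leaf, by decide +kernel⟩,
  (List.forall_mem_cons.2 ⟨⟨.leaf, by decide +kernel⟩,
  (List.forall_mem_singleton.2 ⟨.leaf, by decide +kernel⟩)⟩)⟩),
  (List.forall_mem_cons.2 ⟨(List.forall_mem_cons.2 ⟨⟨e175, by decide +kernel⟩,
  (List.forall_mem_cons.2 ⟨⟨e176, by decide +kernel⟩,
  (List.forall_mem_singleton.2 ⟨.leaf, by decide +kernel⟩)⟩)⟩),
  (List.forall_mem_cons.2 ⟨(List.forall_mem_cons.2 ⟨⟨e178, by decide +kernel⟩,
  (List.forall_mem_cons.2 ⟨⟨e179, by decide +kernel⟩,
  (List.forall_mem_cons.2 ⟨⟨e180, by decide +kernel⟩,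
  (List.forall_mem_cons.2 ⟨⟨e181, by decide +kernel⟩,
  (List.forall_mem_singleton.2 ⟨e182, by decide +kernel⟩)⟩)⟩)⟩)⟩),
  (List.forall_mem_cons.2 ⟨(List.forall_mem_cons.2 ⟨⟨e183, by decide +kernel⟩,
  (List.forall_mem_singleton.2 ⟨e184, by decide +kernel⟩)⟩),
  (List.forall_mem_cons.2 ⟨(List.forall_mem_cons.2 ⟨⟨e185, by decide +kernel⟩,
  (List.forall_mem_singleton.2 ⟨e186, by decide +kernel⟩)⟩),
  (List.forall_mem_cons.2 ⟨(List.forall_mem_singleton.2 ⟨.leaf, by decide +kernel⟩),
  (List.forall_mem_cons.2 ⟨(List.forall_mem_singleton.2 ⟨e188, by decide +kernel⟩),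
  (List.forall_mem_cons.2 ⟨(List.forall_mem_singleton.2 ⟨e189, by decide +kernel⟩),
  (List.forall_mem_cons.2 ⟨(List.forall_mem_singleton.2 ⟨e190, by decide +kernel⟩),
  (List.forall_mem_cons.2 ⟨(List.forall_mem_singleton.2 ⟨.leaf, by decide +kernel⟩),
  (List.forall_mem_cons.2 ⟨(List.forall_mem_singleton.2 ⟨e192, by decide +kernel⟩),
  (List.forall_mem_cons.2 ⟨(List.forall_mem_cons.2 ⟨⟨e193, by decide +kernel⟩,
  (List.forall_mem_cons.2 ⟨⟨.leaf, by decide +kernel⟩,
  (List.forall_mem_singleton.2 ⟨.leaf, by decide +kernel⟩)⟩)⟩),
  (List.forall_mem_cons.2 ⟨(List.forall_mem_singleton.2 ⟨e196, by decide +kernel⟩),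
  (List.forall_mem_cons.2 ⟨(List.forall_mem_singleton.2 ⟨.leaf, by decide +kernel⟩),
  (List.forall_mem_cons.2 ⟨(List.forall_mem_singleton.2 ⟨e198, by decide +kernel⟩),
  (List.forall_mem_cons.2 ⟨(List.forall_mem_singleton.2 ⟨.leaf, by decide +kernel⟩),
  (List.forall_mem_cons.2 ⟨(List.forall_mem_singleton.2 ⟨e200, by decide +kernel⟩),
  (List.forall_mem_cons.2 ⟨(List.forall_mem_cons.2 ⟨⟨.leaf, by decide +kernel⟩,
  (List.forall_mem_singleton.2 ⟨e202, by decide +kernel⟩)⟩),
  (List.forall_mem_cons.2 ⟨(List.forall_mem_singleton.2 ⟨.leaf, by decide +kernel⟩),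
  (List.forall_mem_cons.2 ⟨(List.forall_mem_cons.2 ⟨⟨e204, by decide +kernel⟩,
  (List.forall_mem_cons.2 ⟨⟨e205, by decide +kernel⟩,
  (List.forall_mem_singleton.2 ⟨.leaf, by decide +kernel⟩)⟩)⟩),
  (List.forall_mem_cons.2 ⟨(List.forall_mem_singleton.2 ⟨.leaf, by decide +kernel⟩),
  (List.forall_mem_cons.2 ⟨(List.forall_mem_cons.2 ⟨⟨.leaf, by decide +kernel⟩,
  (List.forall_mem_cons.2 ⟨⟨e209, by decide +kernel⟩,
  (List.forall_mem_singleton.2 ⟨e210, by decide +kernel⟩)⟩)⟩),
  (List.forall_mem_cons.2 ⟨(List.forall_mem_cons.2 ⟨⟨e211, by decide +kernel⟩,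
  (List.forall_mem_singleton.2 ⟨e212, by decide +kernel⟩)⟩),
  (List.forall_mem_cons.2 ⟨(List.forall_mem_singleton.2 ⟨.leaf, by decide +kernel⟩),
  (List.forall_mem_cons.2 ⟨(List.forall_mem_singleton.2 ⟨e214, by decide +kernel⟩),
  (List.forall_mem_cons.2 ⟨(List.forall_mem_singleton.2 ⟨e215, by decide +kernel⟩),
  (List.forall_mem_cons.2 ⟨(List.forall_mem_cons.2 ⟨⟨e216, by decide +kernel⟩,
  (List.forall_mem_singleton.2 ⟨e217, by decide +kernel⟩)⟩),
  (List.forall_mem_singleton.2 (List.forall_mem_singleton.2 ⟨.leaf, by decide +kernel⟩))⟩)⟩)⟩)⟩)⟩)⟩)⟩)⟩)⟩)⟩)⟩)⟩)⟩)⟩)⟩)⟩)⟩)⟩)⟩)⟩)⟩)⟩)⟩)⟩)⟩)⟩)⟩)⟩)⟩)⟩)⟩)⟩)⟩)⟩)⟩)⟩)⟩)⟩)⟩)⟩)⟩)⟩)⟩)⟩)⟩)⟩)⟩)⟩)⟩)⟩)⟩)⟩)⟩)⟩)⟩)⟩)⟩)⟩)⟩)⟩)⟩)⟩)⟩)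

end

end Pool.Agent.H21.EGZ.S3
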