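import Pool.Agent.H21.EGZ.D4

/-!
# Stage 4 : search, part 0
-/

set_option autoImplicit false
set_option maxRecDepth 100000

namespace Pool.Agent.H21.EGZ.S4

noncomputable section

open Pool.Agent.H74.EGZ Pool.Agent.H94.Lift

/-- refutations 0 -/
def e0 : EX := (.node (.node (.node .leaf (nat_lit 35227456004128) (.br (nat_lit 3) (.cons (.br (nat_lit 6) (.cons (.rel (nat_lit 17448309252)) .nil)) .nil)) .leaf) (nat_lit 35227457264278) (.br (nat_lit 2) (.cons (.br (nat_lit 0) (.cons (.rel (nat_lit 138412128)) (.cons (.rel (nat_lit 138418176)) .nil))) .nil)) (.node .leaf (nat_lit 35230205107103) (.br (nat_lit 0) (.cons (.br (nat_lit 2) (.cons (.rel (nat_lit 71569428)) .nil)) .nil)) .leaf)) (nat_lit 35230206377498) (.br (nat_lit 0) (.cons (.br (nat_lit 1) (.cons (.rel (nat_lit 20980740)) .nil)) .nil)) (.node (.node .leaf (nat_lit 35232607869590) (.br (nat_lit 0) (.cons (.br (nat_lit 1) (.cons (.rel (nat_lit 22020420)) .nil)) .nil)) .leaf) (nat_lit 35233222139356) (.br (nat_lit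 1) (.cons (.br (nat_lit 2) (.cons (.rel (nat_lit 83886180)) .nil)) .nil)) (.node .leaf (nat_lit 37383549525278) (.br (nat_lit 1) (.cons (.br (nat_lit 2) (.cons (.rel (nat_lit 83886180)) .nil)) .nil)) .leaf)))

/-- refutations 1 -/
def e1 : EX := (.node (.node .leaf (nat_lit 45982057274629) (.br (nat_lit 0) (.cons (.br (nat_lit 3) (.cons (.rel (nat_lit 273711168)) .nil)) .nil)) .leaf) (nat_lit 48078001315292) (.br (nat_lit 0) (.cons (.br (nat_lit 2) (.cons (.rel (nat_lit 142606593)) .nil)) .nil)) .leaf)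

/-- refutations 3 -/
def e3 : EX := (.node (.node .leaf (nat_lit 123631611402521) (.br (nat_lit 1) (.cons (.br (nat_lit 2) (.cons (.rel (nat_lit 151257600)) (.cons (.rel (nat_lit 83903493)) .nil))) (.cons (.br (nat_lit 3) (.cons (.rel (nat_lit 285246480)) (.cons (.rel (nat_lit 285217857)) .nil))) .nil))) .leaf) (nat_lit 123631612449545) (.br (nat_lit 0) (.cons (.br (nat_lit 1) (.cons (.rel (nat_lit 20992005)) .nil)) .nil)) (.node .leaf (nat_lit 123631613961722) (.br (nat_lit 0) (.cons (.br (nat_lit 1) (.cons (.rel (nat_lit 20971668)) .nil)) .nil)) .leaf))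

/-- refutations 4 -/
def e4 : EX := (.node (.node .leaf (nat_lit 133980993096582) (.br (nat_lit 0) (.cons (.br (nat_lit 1) (.cons (.rel (nat_lit 20992005)) .nil)) .nil)) .leaf) (nat_lit 134326081371413) (.br (nat_lit 2) (.cons (.br (nat_lit 3) (.cons (.rel (nat_lit 335872002)) .nil)) .nil)) .leaf)

/-- refutations 5 -/
def e5 : EX := (.node (.node (.node (.node .leaf (nat_lit 211106362886901) (.br (nat_lit 1) (.cons (.br (nat_lit 4) (.cons (.rel (nat_lit 2181038097)) .nil)) .nil)) .leaf) (nat_lit 211106763586816) (.br (nat_lit 0) (.cons (.br (nat_lit 1) (.cons (.rel (nat_lit 20990016)) .nil)) .nil)) (.node .leaf (nat_lit 211109068468535) (.br (nat_lit 3) (.cons (.br (nat_lit 6) (.cons (.rel (nat_lit 17448309252)) .nil)) .nil)) .leaf)) (nat_lit 211109069228789) (.br (nat_lit 1) (.cons (.br (nat_lit 4) (.cons (.rel (nat_lit 1090536576)) .nil)) .nil)) (.node (.node .leaf (nat_lit 211109069484839) (.br (nat_lit 1) (.cons (.br (nat_lit 4) (.cons (.rel (nat_lit 2181038097))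 .nil)) .nil)) .leaf) (nat_lit 211109093687558) (.br (nat_lit 1) (.cons (.br (nat_lit 0) (.cons (.rel (nat_lit 20971668)) (.cons (.rel (nat_lit 20980740)) .nil))) .nil)) .leaf)) (nat_lit 211109094843269) (.br (nat_lit 0) (.cons (.br (nat_lit 1) (.cons (.rel (nat_lit 20990016)) .nil)) .nil)) (.node (.node (.node .leaf (nat_lit 211109096224220) (.br (nat_lit 1) (.cons (.br (nat_lit 0) (.cons (.rel (nat_lit 21037125)) (.cons (.rel (nat_lit 38010885)) .nil))) .nil)) .leaf) (nat_lit 211111632461276) (.br (nat_lit 1) (.cons (.br (nat_lit 3) (.cons (.rel (nat_lit 570425412)) .nil)) .nil)) .leaf) (nat_lit 211112111928796) (.br (nat_lit 4) (.cons (.br (nat_lit 0) (.cons (.rel (nat_lit 1077953088)) (.cons (.rel (nat_lit 1078267968)) .nil))) .nil)) (.node (.node .leaf (nat_lit 211599561356564) (.br (nat_lit 1) (.cons (.br (nat_lit 4) (.cons (.rel (nat_lit 1090519074)) .nil)) .nil)) .leaf) (nat_lit 212242967590364) (.br (nat_lit 1) (.cons (.br (nat_lit 3) (.cons (.br (nat_lit 0)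 (.cons (.rel (nat_lit 306249729)) (.cons (.rel (nat_lit 20980740)) .nil))) .nil)) .nil)) .leaf)))

/-- refutations 6 -/
def e6 : EX := (.node (.node .leaf (nat_lit 213747045004564) (.br (nat_lit 3) (.cons (.br (nat_lit 5) (.cons (.rel (nat_lit 8858378244)) (.cons (.rel (nat_lit 4564456449)) .nil))) .nil)) .leaf) (nat_lit 221858682140124) (.br (nat_lit 3) (.cons (.br (nat_lit 4) (.cons (.rel (nat_lit 1342439448)) .nil)) .nil)) .leaf)

/-- refutations 7 -/
def e7 : EX := (.node (.node .leaf (nat_lit 222327548262661) (.br (nat_lit 3) (.cons (.br (nat_lit 5) (.cons (.rel (nat_lit 4563665937)) .nil)) .nil)) .leaf) (nat_lit 223190122001884) (.br (nat_lit 0) (.cons (.br (nat_lit 3) (.cons (.rel (nat_lit 276848640)) .nil)) .nil)) (.node .leaf (nat_lit 224217336411612) (.br (nat_lit 0) (.cons (.br (nat_lit 3) (.cons (.rel (nat_lit 276824100)) .nil)) .nil)) .leaf))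

/-- refutations 10 -/
def e10 : EX := (.node (.node (.node (.node (.node .leaf (nat_lit 475032108374678) (.br (nat_lit 2) (.cons (.br (nat_lit 3) (.cons (.rel (nat_lit 335806545)) .nil)) .nil)) .leaf) (nat_lit 475032108495479) (.br (nat_lit 0) (.cons (.br (nat_lit 2) (.cons (.rel (nat_lit 71303682)) .nil)) .nil)) (.node .leaf (nat_lit 475246858538270) (.br (nat_lit 0) (.cons (.br (nat_lit 2) (.cons (.rel (nat_lit 72369216)) .nil)) .nil)) .leaf)) (nat_lit 475246960388373) (.br (nat_lit 0) (.cons (.br (nat_lit 1) (.cons (.br (nat_lit 3) (.cons (.rel (nat_lit 306249729)) .nil)) .nil)) .nil)) (.node (.node .leaf (nat_lit 475246960388977) (.br (nat_lit 0) (.cons (.br (nat_lit 2) (.cons (.rel (nat_lit 142606593)) (.cons (.rel (nat_lit 71303682)) .nil))) .nil)) .leaf) (nat_lit 475246960389497) (.br (nat_lit 3) (.cons (.br (nat_lit 1) (.cons (.rel (nat_lit 285345792)) (.cons (.rel (nat_lit 570491904)) .nil))) .nil)) .leaf)) (nat_lit 475246961649116) (.br (nat_lit 5) (.cons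 (.br (nat_lit 3) (.cons (.rel (nat_lit 4563665937)) (.cons (.rel (nat_lit 4564467714)) .nil))) .nil)) (.node (.node (.node .leaf (nat_lit 475246961699117) (.br (nat_lit 3) (.cons (.br (nat_lit 4) (.cons (.rel (nat_lit 1342308864)) .nil)) .nil)) .leaf) (nat_lit 475246962128129) (.br (nat_lit 0) (.cons (.br (nat_lit 3) (.cons (.rel (nat_lit 272634369)) .nil)) .nil)) .leaf) (nat_lit 475246962128408) (.br (nat_lit 0) (.cons (.br (nat_lit 1) (.cons (.rel (nat_lit 21103617)) .nil)) .nil)) (.node (.node .leaf (nat_lit 475246962873820) (.br (nat_lit 0) (.cons (.br (nat_lit 6) (.cons (.rel (nat_lit 17185210368)) .nil)) .nil)) .leaf) (nat_lit 475246962985841) (.br (nat_lit 1) (.cons (.br (nat_lit 3) (.cons (.rel (nat_lit 285245445)) .nil)) .nil)) .leaf))) (nat_lit 475246963192063) (.br (nat_lit 1) (.cons (.br (nat_lit 2) (.cons (.rel (nat_lit 84168960)) (.cons (.rel (nat_lit 83910720)) .nil))) .nil)) (.node (.node (.node (.node .leaf (nat_lit 475246963395222) (.br (nat_lit 4)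 (.cons (.br (nat_lit 3) (.cons (.rel (nat_lit 2684420352)) (.cons (.rel (nat_lit 1342439448)) .nil))) .nil)) .leaf) (nat_lit 475246963395940) (.br (nat_lit 0) (.cons (.br (nat_lit 2) (.cons (.rel (nat_lit 71303682)) .nil)) .nil)) .leaf) (nat_lit 475246963498270) (.br (nat_lit 0) (.cons (.br (nat_lit 1) (.cons (.rel (nat_lit 21233922)) .nil)) .nil)) (.node (.node .leaf (nat_lit 475249574648690) (.br (nat_lit 1) (.cons (.br (nat_lit 2) (.cons (.rel (nat_lit 100929600)) .nil)) .nil)) .leaf) (nat_lit 475249574649308) (.br (nat_lit 3) (.cons (.br (nat_lit 6) (.cons (.rel (nat_lit 17448566916)) (.cons (.rel (nat_lit 17449426944)) .nil))) .nil)) .leaf)) (nat_lit 475249574750509) (.br (nat_lit 5) (.cons (.br (nat_lit 1) (.cons (.rel (nat_lit 4311745572)) (.cons (.rel (nat_lit 4311748740)) (.cons (.rel (nat_lit 4311770112)) .nil)))) .nil)) (.node (.node (.node .leaf (nat_lit 475249575939449) (.br (nat_lit 0) (.cons (.br (nat_lit 3) (.cons (.rel (nat_lit 272634369)) .nil)) .nil))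 .leaf) (nat_lit 475249575978361) (.br (nat_lit 0) (.cons (.br (nat_lit 1) (.cons (.rel (nat_lit 22086912)) .nil)) .nil)) .leaf) (nat_lit 475249576497934) (.br (nat_lit 0) (.cons (.br (nat_lit 4) (.cons (.rel (nat_lit 2152730880)) .nil)) .nil)) (.node (.node .leaf (nat_lit 475249576538139) (.br (nat_lit 1) (.cons (.br (nat_lit 2) (.cons (.rel (nat_lit 100929600)) .nil)) .nil)) .leaf) (nat_lit 475249576549039) (.br (nat_lit 0) (.cons (.br (nat_lit 1) (.cons (.rel (nat_lit 20980740)) .nil)) .nil)) .leaf))))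

/-- refutations 11 -/
def e11 : EX := (.node (.node (.node (.node .leaf (nat_lit 480449024429317) (.br (nat_lit 0) (.cons (.br (nat_lit 6) (.cons (.rel (nat_lit 17184407556)) .nil)) .nil)) .leaf) (nat_lit 485826323483909) (.br (nat_lit 0) (.cons (.br (nat_lit 4) (.cons (.rel (nat_lit 1082134533)) .nil)) .nil)) .leaf) (nat_lit 485963762437381) (.br (nat_lit 0) (.cons (.br (nat_lit 1) (.cons (.rel (nat_lit 21004305)) .nil)) .nil)) (.node .leaf (nat_lit 486158791682349) (.br (nat_lit 0) (.cons (.br (nat_lit 1) (.cons (.rel (nat_lit 20975682)) .nil)) .nil)) .leaf)) (nat_lit 486168227595177) (.br (nat_lit 1) (.cons (.br (nat_lit 4) (.cons (.rel (nat_lit 1107623937)) .nil)) .nil)) (.node (.node (.node .leaf (nat_lit 486168230103045) (.br (nat_lit 0) (.cons (.br (nat_lit 3) (.cons (.rel (nat_lit 272892033)) .nil)) .nil)) .leaf) (nat_lit 487247100274140) (.br (nat_lit 3) (.cons (.br (nat_lit 4) (.cons (.rel (nat_lit 1342441473)) .nil)) .nil)) .leaf) (nat_lit 487247102020246)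 (.br (nat_lit 3) (.cons (.br (nat_lit 4) (.cons (.rel (nat_lit 1342439448)) .nil)) .nil)) (.node .leaf (nat_lit 487252634307222) (.br (nat_lit 3) (.cons (.br (nat_lit 4) (.cons (.rel (nat_lit 1342439448)) .nil)) .nil)) .leaf)))

/-- refutations 12 -/
def e12 : EX := (.node (.node (.node .leaf (nat_lit 545618320638854) (.br (nat_lit 0) (.cons (.br (nat_lit 2) (.cons (.rel (nat_lit 71566404)) .nil)) .nil)) .leaf) (nat_lit 546491897693062) (.br (nat_lit 0) (.cons (.br (nat_lit 1) (.cons (.rel (nat_lit 20975682)) .nil)) .nil)) (.node .leaf (nat_lit 546492309834630) (.br (nat_lit 4) (.cons (.br (nat_lit 5) (.cons (.rel (nat_lit 10737418497)) .nil)) .nil)) .leaf)) (nat_lit 546492311378080) (.br (nat_lit 1) (.cons (.br (nat_lit 2) (.cons (.rel (nat_lit 83890194)) .nil)) .nil)) (.node (.node .leaf (nat_lit 546492312928416) (.br (nat_lit 1) (.cons (.br (nat_lit 3) (.cons (.rel (nat_lit 285294624)) .nil)) .nil)) .leaf) (nat_lit 546492901550381) (.br (nat_lit 0) (.cons (.br (nat_lit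 2) (.cons (.rel (nat_lit 142606593)) .nil)) .nil)) (.node .leaf (nat_lit 546492904326401) (.br (nat_lit 4) (.cons (.br (nat_lit 0) (.cons (.rel (nat_lit 1079052288)) (.cons (.rel (nat_lit 1082134533)) .nil))) .nil)) .leaf)))

/-- refutations 13 -/
def e13 : EX := (.node (.node (.node (.node .leaf (nat_lit 552100898489601) (.br (nat_lit 0) (.cons (.br (nat_lit 6) (.cons (.rel (nat_lit 17184068112)) .nil)) .nil)) .leaf) (nat_lit 552101540217593) (.br (nat_lit 0) (.cons (.br (nat_lit 4) (.cons (.rel (nat_lit 1082134533)) .nil)) .nil)) .leaf) (nat_lit 552101540218113) (.br (nat_lit 0) (.cons (.br (nat_lit 5) (.cons (.rel (nat_lit 4303372296)) .nil)) .nil)) (.node .leaf (nat_lit 552102128839417) (.br (nat_lit 0) (.cons (.br (nat_lit 1) (.cons (.rel (nat_lit 20990016)) .nil)) .nil)) .leaf)) (nat_lit 552106242032377) (.br (nat_lit 0) (.cons (.br (nat_lit 4) (.cons (.rel (nat_lit 2155962624)) .nil)) .nil)) (.node (.node .leaf (nat_lit 552106242032897) (.br (nat_lit 0) (.cons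 (.br (nat_lit 1) (.cons (.rel (nat_lit 20980740)) (.cons (.rel (nat_lit 20971668)) .nil))) (.cons (.br (nat_lit 4) (.cons (.rel (nat_lit 1082134533)) (.cons (.rel (nat_lit 2155962624)) .nil))) .nil))) .leaf) (nat_lit 552973823876353) (.br (nat_lit 0) (.cons (.br (nat_lit 2) (.cons (.rel (nat_lit 71303682)) .nil)) .nil)) (.node .leaf (nat_lit 556538648282369) (.br (nat_lit 1) (.cons (.br (nat_lit 6) (.cons (.rel (nat_lit 17196654624)) .nil)) .nil)) .leaf)))

/-- refutations 14 -/
def e14 : EX := (.node (.node (.node (.node (.node (.node .leaf (nat_lit 615949873665431) (.br (nat_lit 0) (.cons (.br (nat_lit 1) (.cons (.rel (nat_lit 21038160)) .nil)) .nil)) .leaf) (nat_lit 615950922477020) (.br (nat_lit 6) (.cons (.br (nat_lit 0) (.cons (.rel (nat_lit 17185113120)) (.cons (.rel (nat_lit 17185113120)) .nil))) .nil)) (.node .leaf (nat_lit 615951129128412) (.br (nat_lit 0) (.cons (.br (nat_lit 2) (.cons (.rel (nat_lit 71566404)) .nil)) .nil)) .leaf)) (nat_lit 615952495105385)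 (.br (nat_lit 1) (.cons (.br (nat_lit 3) (.cons (.rel (nat_lit 285234180)) .nil)) .nil)) (.node (.node .leaf (nat_lit 615952577485450) (.br (nat_lit 3) (.cons (.br (nat_lit 4) (.cons (.rel (nat_lit 2415923268)) .nil)) .nil)) .leaf) (nat_lit 615952579227100) (.br (nat_lit 2) (.cons (.br (nat_lit 4) (.cons (.rel (nat_lit 1141179456)) .nil)) .nil)) .leaf)) (nat_lit 615952629558748) (.br (nat_lit 0) (.cons (.br (nat_lit 3) (.cons (.rel (nat_lit 272695812)) .nil)) .nil)) (.node (.node (.node .leaf (nat_lit 615952686555792) (.br (nat_lit 0) (.cons (.br (nat_lit 1) (.cons (.rel (nat_lit 20990016)) .nil)) .nil)) .leaf) (nat_lit 615952686556636) (.br (nat_lit 0) (.cons (.br (nat_lit 6) (.cons (.rel (nat_lit 17185210368)) (.cons (.rel (nat_lit 34364065857)) .nil))) .nil)) .leaf) (nat_lit 615952688277515) (.br (nat_lit 0) (.cons (.br (nat_lit 2) (.cons (.rel (nat_lit 142606593)) .nil)) .nil)) (.node (.node .leaf (nat_lit 615952688278789) (.br (nat_lit 1) (.cons (.br (nat_lit 3)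 (.cons (.rel (nat_lit 285212808)) .nil)) .nil)) .leaf) (nat_lit 615953212177694) (.br (nat_lit 0) (.cons (.br (nat_lit 5) (.cons (.rel (nat_lit 4299425796)) .nil)) .nil)) .leaf))) (nat_lit 615953733805532) (.br (nat_lit 0) (.cons (.br (nat_lit 1) (.cons (.rel (nat_lit 20971668)) .nil)) .nil)) (.node (.node (.node (.node .leaf (nat_lit 615953736352999) (.br (nat_lit 1) (.cons (.br (nat_lit 3) (.cons (.rel (nat_lit 285279300)) .nil)) .nil)) .leaf) (nat_lit 615953736855004) (.br (nat_lit 3) (.cons (.br (nat_lit 0) (.cons (.rel (nat_lit 272695812)) (.cons (.rel (nat_lit 273022992)) .nil))) .nil)) (.node .leaf (nat_lit 615955114238214) (.br (nat_lit 2) (.cons (.br (nat_lit 3) (.cons (.rel (nat_lit 336658500)) .nil)) .nil)) .leaf)) (nat_lit 615955116781020) (.br (nat_lit 2) (.cons (.br (nat_lit 4) (.cons (.rel (nat_lit 1141182480)) (.cons (.rel (nat_lit 1141179456)) .nil))) .nil)) (.node (.node .leaf (nat_lit 615955118432518) (.br (nat_lit 0) (.cons (.br (nat_lit 3) (.cons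 (.rel (nat_lit 272892033)) .nil)) .nil)) .leaf) (nat_lit 615955118526769) (.br (nat_lit 0) (.cons (.br (nat_lit 2) (.cons (.rel (nat_lit 138429441)) (.cons (.rel (nat_lit 71303682)) .nil))) .nil)) .leaf)) (nat_lit 615955119440684) (.br (nat_lit 1) (.cons (.br (nat_lit 3) (.cons (.rel (nat_lit 285217857)) .nil)) .nil)) (.node (.node (.node .leaf (nat_lit 615955120473319) (.br (nat_lit 1) (.cons (.br (nat_lit 3) (.cons (.rel (nat_lit 570425412)) (.cons (.rel (nat_lit 285345792)) .nil))) .nil)) .leaf) (nat_lit 615955120475368) (.br (nat_lit 0) (.cons (.br (nat_lit 1) (.cons (.rel (nat_lit 20980740)) (.cons (.rel (nat_lit 20990016)) .nil))) (.cons (.br (nat_lit 1) (.cons (.rel (nat_lit 20971668)) (.cons (.rel (nat_lit 21041184)) .nil))) .nil))) .leaf) (nat_lit 615955120975324) (.br (nat_lit 2) (.cons (.br (nat_lit 3) (.cons (.rel (nat_lit 336658500)) .nil)) .nil)) (.node (.node .leaf (nat_lit 615955239559179) (.br (nat_lit 3) (.cons (.br (nat_lit 0) (.cons (.rel (nat_lit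 273022992)) (.cons (.rel (nat_lit 272634369)) .nil))) .nil)) .leaf) (nat_lit 615955239611868) (.br (nat_lit 0) (.cons (.br (nat_lit 1) (.cons (.rel (nat_lit 20980740)) .nil)) .nil)) .leaf)))) (nat_lit 615955239895227) (.br (nat_lit 0) (.cons (.br (nat_lit 2) (.cons (.rel (nat_lit 75506688)) .nil)) .nil)) (.node (.node (.node (.node (.node .leaf (nat_lit 615955240067334) (.br (nat_lit 0) (.cons (.br (nat_lit 2) (.cons (.rel (nat_lit 138418176)) (.cons (.rel (nat_lit 72482817)) (.cons (.rel (nat_lit 138412128)) .nil)))) (.cons (.br (nat_lit 2) (.cons (.rel (nat_lit 73466112)) (.cons (.rel (nat_lit 138477585)) (.cons (.rel (nat_lit 72943104)) .nil)))) .nil))) .leaf) (nat_lit 615955240161585) (.br (nat_lit 2) (.cons (.br (nat_lit 4) (.cons (.rel (nat_lit 1141112964)) (.cons (.rel (nat_lit 2214593616)) .nil))) (.cons (.br (nat_lit 3) (.cons (.rel (nat_lit 604013568)) (.cons (.rel (nat_lit 335545857)) .nil))) .nil))) (.node .leaf (nat_lit 615955240170102) (.br (nat_lit 0)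 (.cons (.br (nat_lit 1) (.cons (.rel (nat_lit 20971668)) .nil)) .nil)) .leaf)) (nat_lit 615955240878342) (.br (nat_lit 0) (.cons (.br (nat_lit 1) (.cons (.rel (nat_lit 20975682)) (.cons (.rel (nat_lit 38813697)) .nil))) .nil)) (.node (.node .leaf (nat_lit 615955241075500) (.br (nat_lit 0) (.cons (.br (nat_lit 1) (.cons (.rel (nat_lit 20975682)) .nil)) .nil)) .leaf) (nat_lit 615955242107017) (.br (nat_lit 1) (.cons (.br (nat_lit 3) (.cons (.rel (nat_lit 285217857)) .nil)) .nil)) .leaf)) (nat_lit 615955242108135) (.br (nat_lit 3) (.cons (.br (nat_lit 1) (.cons (.rel (nat_lit 285212808)) (.cons (.rel (nat_lit 285217857)) (.cons (.rel (nat_lit 285345792)) .nil)))) .nil)) (.node (.node (.node .leaf (nat_lit 615955242374505) (.br (nat_lit 1) (.cons (.br (nat_lit 3) (.cons (.rel (nat_lit 570425412)) .nil)) .nil)) .leaf) (nat_lit 615955242609291) (.br (nat_lit 0) (.cons (.br (nat_lit 2) (.cons (.rel (nat_lit 72369216)) .nil)) .nil)) .leaf) (nat_lit 615955242609925) (.br (nat_lit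 3) (.cons (.br (nat_lit 0) (.cons (.rel (nat_lit 541067265)) (.cons (.rel (nat_lit 273678342)) .nil))) .nil)) (.node (.node .leaf (nat_lit 615955242610140) (.br (nat_lit 0) (.cons (.br (nat_lit 4) (.cons (.rel (nat_lit 1078199298)) (.cons (.rel (nat_lit 1082132544)) .nil))) (.cons (.br (nat_lit 3) (.cons (.rel (nat_lit 272974848)) (.cons (.rel (nat_lit 272974848)) (.cons (.rel (nat_lit 272908356)) (.cons (.rel (nat_lit 276824100)) .nil))))) .nil))) .leaf) (nat_lit 615955242673659) (.br (nat_lit 1) (.cons (.br (nat_lit 0) (.cons (.rel (nat_lit 21038160)) (.cons (.rel (nat_lit 25167168)) .nil))) .nil)) .leaf))) (nat_lit 615955242731034) (.br (nat_lit 3) (.cons (.br (nat_lit 6) (.cons (.rel (nat_lit 17448566916)) .nil)) .nil)) (.node (.node (.node (.node .leaf (nat_lit 615955311370502) (.br (nat_lit 3) (.cons (.br (nat_lit 2) (.cons (.rel (nat_lit 336724992)) (.cons (.rel (nat_lit 335545857)) .nil))) .nil)) .leaf) (nat_lit 615955311464753) (.br (nat_lit 4) (.cons (.br (nat_lit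 0) (.cons (.rel (nat_lit 1078019592)) (.cons (.rel (nat_lit 1077958149)) .nil))) .nil)) (.node .leaf (nat_lit 615955312233128) (.br (nat_lit 0) (.cons (.br (nat_lit 1) (.cons (.rel (nat_lit 20992005)) (.cons (.rel (nat_lit 38011920)) .nil))) (.cons (.br (nat_lit 1) (.cons (.rel (nat_lit 20971668)) (.cons (.rel (nat_lit 20975682)) .nil))) .nil))) .leaf)) (nat_lit 615955312653173) (.br (nat_lit 0) (.cons (.br (nat_lit 3) (.cons (.rel (nat_lit 276893760)) .nil)) .nil)) (.node (.node .leaf (nat_lit 615955313472790) (.br (nat_lit 3) (.cons (.br (nat_lit 6) (.cons (.rel (nat_lit 17449353225)) .nil)) .nil)) .leaf) (nat_lit 615955313913308) (.br (nat_lit 0) (.cons (.br (nat_lit 3) (.cons (.rel (nat_lit 272924682)) .nil)) .nil)) .leaf)) (nat_lit 615955314034202) (.br (nat_lit 2) (.cons (.br (nat_lit 3) (.cons (.rel (nat_lit 335872002)) .nil)) .nil)) (.node (.node (.node .leaf (nat_lit 615955659591985) (.br (nat_lit 0) (.cons (.br (nat_lit 3) (.cons (.rel (nat_lit 272974848))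 .nil)) .nil)) .leaf) (nat_lit 615955660318172) (.br (nat_lit 1) (.cons (.br (nat_lit 2) (.cons (.rel (nat_lit 83892228)) .nil)) .nil)) .leaf) (nat_lit 615955661538535) (.br (nat_lit 2) (.cons (.br (nat_lit 3) (.cons (.rel (nat_lit 335806545)) (.cons (.rel (nat_lit 335810568)) .nil))) .nil)) (.node (.node .leaf (nat_lit 615955661804905) (.br (nat_lit 5) (.cons (.br (nat_lit 6) (.cons (.rel (nat_lit 21475196928)) .nil)) .nil)) .leaf) (nat_lit 615955662040540) (.br (nat_lit 2) (.cons (.br (nat_lit 0) (.cons (.rel (nat_lit 138418176)) (.cons (.rel (nat_lit 72482817)) (.cons (.rel (nat_lit 75506688)) .nil)))) (.cons (.br (nat_lit 0) (.cons (.rel (nat_lit 138412128)) (.cons (.rel (nat_lit 71303682)) (.cons (.rel (nat_lit 138418176)) .nil)))) .nil))) .leaf)))))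

/-- refutations 15 -/
def e15 : EX := (.node (.node .leaf (nat_lit 623554778670556) (.br (nat_lit 0) (.cons (.br (nat_lit 3) (.cons (.rel (nat_lit 541147200)) .nil)) .nil)) .leaf) (nat_lit 626678891001319) (.br (nat_lit 1) (.cons (.br (nat_lit 3) (.cons (.rel (nat_lit 285345792)) .nil)) .nil)) (.node .leaf (nat_lit 626684070503685) (.br (nat_lit 0) (.cons (.br (nat_lit 1) (.cons (.rel (nat_lit 20990016)) .nil)) .nil)) .leaf))

/-- refutations 16 -/
def e16 : EX := (.node (.node .leaf (nat_lit 627804720574645) (.br (nat_lit 0) (.cons (.br (nat_lit 1) (.cons (.rel (nat_lit 21053448)) .nil)) .nil)) .leaf) (nat_lit 628923430791830) (.br (nat_lit 1) (.cons (.br (nat_lit 4) (.cons (.rel (nat_lit 1090521108)) .nil)) .nil)) .leaf)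

/-- refutations 17 -/
def e17 : EX := (.node .leaf (nat_lit 446548421134617) (.br (nat_lit 2) (.cons (.br (nat_lit 3) (.cons (.br (nat_lit 4) (.cons (.rel (nat_lit 1342521408)) (.cons (.rel (nat_lit 1141182480)) .nil))) .nil)) .nil)) .leaf)

/-- refutations 18 -/
def e18 : EX := (.node (.node (.node .leaf (nat_lit 880090470178951) (.br (nat_lit 5) (.cons (.br (nat_lit 0) (.cons (.rel (nat_lit 4299425796)) (.cons (.rel (nat_lit 4300214274)) .nil))) .nil)) .leaf) (nat_lit 880090470479380) (.br (nat_lit 2) (.cons (.br (nat_lit 3) (.cons (.rel (nat_lit 402653268)) .nil)) .nil)) (.node .leaf (nat_lit 880095793724328) (.br (nat_lit 1) (.cons (.br (nat_lit 3) (.cons (.rel (nat_lit 285212808)) .nil)) .nil)) .leaf)) (nat_lit 880095797140757) (.br (nat_lit 1) (.cons (.br (nat_lit 3) (.cons (.rel (nat_lit 286785537)) .nil)) .nil)) (.node (.node .leaf (nat_lit 880911839413525) (.br (nat_lit 0) (.cons (.br (nat_lit 2) (.cons (.rel (nat_lit 138412128)) .nil)) .nil)) .leaf) (nat_lit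 881199112513817) (.br (nat_lit 4) (.cons (.br (nat_lit 6) (.cons (.rel (nat_lit 18253874181)) (.cons (.rel (nat_lit 35434529028)) .nil))) .nil)) (.node .leaf (nat_lit 885496176961817) (.br (nat_lit 1) (.cons (.br (nat_lit 4) (.cons (.rel (nat_lit 1090519074)) (.cons (.rel (nat_lit 1107623937)) .nil))) .nil)) .leaf)))

/-- refutations 19 -/
def e19 : EX := (.node (.node (.node (.node (.node .leaf (nat_lit 886353073269017) (.br (nat_lit 1) (.cons (.br (nat_lit 3) (.cons (.rel (nat_lit 285220881)) .nil)) .nil)) .leaf) (nat_lit 886357853473528) (.br (nat_lit 0) (.cons (.br (nat_lit 2) (.cons (.rel (nat_lit 71566404)) .nil)) .nil)) .leaf) (nat_lit 886357856046343) (.br (nat_lit 1) (.cons (.br (nat_lit 3) (.cons (.rel (nat_lit 285220881)) .nil)) .nil)) (.node .leaf (nat_lit 890360769758486) (.br (nat_lit 0) (.cons (.br (nat_lit 2) (.cons (.rel (nat_lit 142606593)) .nil)) .nil)) .leaf)) (nat_lit 890400907043626) (.br (nat_lit 3) (.cons (.br (nat_lit 4) (.cons (.rel (nat_lit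 1342476288)) .nil)) .nil)) (.node (.node .leaf (nat_lit 890618463600127) (.br (nat_lit 1) (.cons (.br (nat_lit 2) (.cons (.rel (nat_lit 83903493)) .nil)) .nil)) .leaf) (nat_lit 891872594049960) (.br (nat_lit 0) (.cons (.br (nat_lit 2) (.cons (.rel (nat_lit 73466112)) .nil)) .nil)) (.node .leaf (nat_lit 891872594050284) (.br (nat_lit 0) (.cons (.br (nat_lit 1) (.cons (.rel (nat_lit 20971668)) .nil)) .nil)) .leaf))) (nat_lit 891872594050559) (.br (nat_lit 4) (.cons (.br (nat_lit 0) (.cons (.rel (nat_lit 1078199298)) (.cons (.rel (nat_lit 1078198308)) (.cons (.rel (nat_lit 1082132544)) .nil)))) (.cons (.br (nat_lit 0) (.cons (.rel (nat_lit 1078222848)) (.cons (.rel (nat_lit 1079052288)) (.cons (.rel (nat_lit 1078267968)) .nil)))) .nil))) (.node (.node (.node .leaf (nat_lit 891873021869567) (.br (nat_lit 1) (.cons (.br (nat_lit 4) (.cons (.rel (nat_lit 1090536576)) .nil)) .nil)) .leaf) (nat_lit 891873022434781) (.br (nat_lit 0) (.cons (.br (nat_lit 4) (.cons (.rel (nat_lit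 1077953088)) .nil)) .nil)) (.node .leaf (nat_lit 891873437105663) (.br (nat_lit 0) (.cons (.br (nat_lit 1) (.cons (.rel (nat_lit 20975682)) .nil)) .nil)) .leaf)) (nat_lit 892722998139562) (.br (nat_lit 0) (.cons (.br (nat_lit 2) (.cons (.rel (nat_lit 72482817)) .nil)) .nil)) (.node (.node .leaf (nat_lit 892722998140180) (.br (nat_lit 1) (.cons (.br (nat_lit 4) (.cons (.rel (nat_lit 1090536576)) .nil)) .nil)) .leaf) (nat_lit 892723841193436) (.br (nat_lit 2) (.cons (.br (nat_lit 3) (.cons (.rel (nat_lit 335545857)) .nil)) .nil)) (.node .leaf (nat_lit 892723841195284) (.br (nat_lit 0) (.cons (.br (nat_lit 1) (.cons (.rel (nat_lit 20990016)) .nil)) .nil)) .leaf))))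

/-- refutations 20 -/
def e20 : EX := (.node (.node (.node (.node (.node (.node .leaf (nat_lit 897206752629386) (.br (nat_lit 0) (.cons (.br (nat_lit 1) (.cons (.rel (nat_lit 20971668)) .nil)) .nil)) .leaf) (nat_lit 897481823238924) (.br (nat_lit 1) (.cons (.br (nat_lit 2) (.cons (.rel (nat_lit 83887170)) .nil)) .nil)) (.node .leaf (nat_lit 897481826100461) (.br (nat_lit 0) (.cons (.br (nat_lit 1) (.cons (.rel (nat_lit 21103617)) .nil)) .nil)) .leaf)) (nat_lit 897691335779804) (.br (nat_lit 3) (.cons (.br (nat_lit 5) (.cons (.rel (nat_lit 4831838289)) .nil)) .nil)) (.node (.node .leaf (nat_lit 897693743310300) (.br (nat_lit 1) (.cons (.br (nat_lit 4) (.cons (.rel (nat_lit 1090520073)) .nil)) .nil)) .leaf) (nat_lit 897694267598300) (.br (nat_lit 0) (.cons (.br (nat_lit 1) (.cons (.rel (nat_lit 25167168)) .nil)) .nil)) .leaf)) (nat_lit 897696513938044) (.br (nat_lit 1) (.cons (.br (nat_lit 3) (.cons (.rel (nat_lit 285212808)) .nil)) .nil)) (.node (.node (.node .leaf (nat_lit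 897696514204399) (.br (nat_lit 0) (.cons (.br (nat_lit 2) (.cons (.rel (nat_lit 71632896)) .nil)) .nil)) .leaf) (nat_lit 897696515181844) (.br (nat_lit 1) (.cons (.br (nat_lit 2) (.cons (.rel (nat_lit 84168960)) (.cons (.rel (nat_lit 100929600)) (.cons (.rel (nat_lit 83886180)) (.cons (.rel (nat_lit 153093120)) .nil))))) (.cons (.br (nat_lit 2) (.cons (.rel (nat_lit 83886180)) (.cons (.rel (nat_lit 83910720)) (.cons (.rel (nat_lit 83952672)) (.cons (.rel (nat_lit 83886180)) .nil))))) .nil))) .leaf) (nat_lit 897696515540344) (.br (nat_lit 0) (.cons (.br (nat_lit 4) (.cons (.rel (nat_lit 1077953088)) .nil)) .nil)) (.node (.node .leaf (nat_lit 897696515745244) (.br (nat_lit 0) (.cons (.br (nat_lit 2) (.cons (.rel (nat_lit 75497616)) .nil)) .nil)) .leaf) (nat_lit 897696569707796) (.br (nat_lit 2) (.cons (.br (nat_lit 4) (.cons (.rel (nat_lit 1141182480)) .nil)) .nil)) .leaf))) (nat_lit 897696571452793) (.br (nat_lit 2) (.cons (.br (nat_lit 3) (.cons (.rel (nat_lit 402657282))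 .nil)) .nil)) (.node (.node (.node (.node .leaf (nat_lit 897696571607220) (.br (nat_lit 0) (.cons (.br (nat_lit 4) (.cons (.rel (nat_lit 1078198308)) (.cons (.rel (nat_lit 1077953088)) .nil))) (.cons (.br (nat_lit 4) (.cons (.rel (nat_lit 1079052288)) (.cons (.rel (nat_lit 1077953088)) .nil))) .nil))) .leaf) (nat_lit 897696571608341) (.br (nat_lit 0) (.cons (.br (nat_lit 3) (.cons (.rel (nat_lit 276824100)) .nil)) .nil)) (.node .leaf (nat_lit 897696571706906) (.br (nat_lit 0) (.cons (.br (nat_lit 1) (.cons (.rel (nat_lit 20971668)) .nil)) .nil)) .leaf)) (nat_lit 897696571890289) (.br (nat_lit 0) (.cons (.br (nat_lit 3) (.cons (.rel (nat_lit 273711168)) .nil)) .nil)) (.node (.node .leaf (nat_lit 897696571915641) (.br (nat_lit 1) (.cons (.br (nat_lit 3) (.cons (.rel (nat_lit 285217857)) (.cons (.rel (nat_lit 285220881)) .nil))) .nil)) .leaf) (nat_lit 897696571951380) (.br (nat_lit 2) (.cons (.br (nat_lit 4) (.cons (.rel (nat_lit 1140855300)) (.cons (.rel (nat_lit 1141899273))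 .nil))) .nil)) .leaf)) (nat_lit 897696572658300) (.br (nat_lit 3) (.cons (.br (nat_lit 5) (.cons (.rel (nat_lit 4563485184)) (.cons (.rel (nat_lit 4563485184)) .nil))) (.cons (.br (nat_lit 2) (.cons (.rel (nat_lit 604013568)) (.cons (.rel (nat_lit 335806545)) (.cons (.rel (nat_lit 335872002)) (.cons (.rel (nat_lit 402657282)) .nil))))) .nil))) (.node (.node (.node .leaf (nat_lit 897696572862740) (.br (nat_lit 0) (.cons (.br (nat_lit 1) (.cons (.rel (nat_lit 21103617)) .nil)) .nil)) .leaf) (nat_lit 897696572980500) (.br (nat_lit 0) (.cons (.br (nat_lit 1) (.cons (.rel (nat_lit 20971668)) .nil)) .nil)) .leaf) (nat_lit 897696573120539) (.br (nat_lit 3) (.cons (.br (nat_lit 6) (.cons (.rel (nat_lit 34628304960)) (.cons (.rel (nat_lit 17448599553)) (.cons (.rel (nat_lit 17448633408)) .nil)))) (.cons (.br (nat_lit 0) (.cons (.rel (nat_lit 272892033)) (.cons (.rel (nat_lit 272908356)) (.cons (.rel (nat_lit 541065240)) .nil)))) .nil))) (.node (.node .leaf (nat_lit 897696573120693)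 (.br (nat_lit 1) (.cons (.br (nat_lit 2) (.cons (.rel (nat_lit 100668960)) .nil)) .nil)) .leaf) (nat_lit 897696573121449) (.br (nat_lit 2) (.cons (.br (nat_lit 0) (.cons (.rel (nat_lit 71303682)) (.cons (.rel (nat_lit 75497616)) (.cons (.rel (nat_lit 73466112)) (.cons (.rel (nat_lit 71303682)) (.cons (.rel (nat_lit 75497616)) .nil)))))) (.cons (.br (nat_lit 4) (.cons (.rel (nat_lit 1141134336)) (.cons (.rel (nat_lit 1141182480)) (.cons (.rel (nat_lit 2214593616)) (.cons (.rel (nat_lit 1141112964)) (.cons (.rel (nat_lit 1140855300)) (.cons (.rel (nat_lit 1141900308)) .nil))))))) (.cons (.br (nat_lit 1) (.cons (.rel (nat_lit 83892228)) (.cons (.rel (nat_lit 101187840)) (.cons (.rel (nat_lit 83952672)) (.cons (.rel (nat_lit 83886180)) (.cons (.rel (nat_lit 83952672)) (.cons (.rel (nat_lit 83887170)) .nil))))))) .nil)))) .leaf)))) (nat_lit 897696573121812) (.br (nat_lit 1) (.cons (.br (nat_lit 2) (.cons (.rel (nat_lit 84934932)) (.cons (.rel (nat_lit 83952672)) .nil))) .nil))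 (.node (.node (.node (.node (.node .leaf (nat_lit 897696573900054) (.br (nat_lit 2) (.cons (.br (nat_lit 4) (.cons (.rel (nat_lit 1141112964)) (.cons (.rel (nat_lit 1141134336)) .nil))) (.cons (.br (nat_lit 4) (.cons (.rel (nat_lit 1141900308)) (.cons (.rel (nat_lit 1141134336)) .nil))) .nil))) .leaf) (nat_lit 897696573900981) (.br (nat_lit 3) (.cons (.br (nat_lit 6) (.cons (.rel (nat_lit 17448633408)) (.cons (.rel (nat_lit 34628174856)) .nil))) (.cons (.br (nat_lit 2) (.cons (.rel (nat_lit 336613380)) (.cons (.rel (nat_lit 604013568)) (.cons (.rel (nat_lit 336724992)) .nil)))) .nil))) (.node .leaf (nat_lit 897696573901737) (.br (nat_lit 1) (.cons (.br (nat_lit 2) (.cons (.rel (nat_lit 83892228)) (.cons (.rel (nat_lit 83886180)) .nil))) (.cons (.br (nat_lit 2) (.cons (.rel (nat_lit 83886180)) (.cons (.rel (nat_lit 83903493)) .nil))) .nil))) .leaf)) (nat_lit 897696573902100) (.br (nat_lit 5) (.cons (.br (nat_lit 2) (.cons (.rel (nat_lit 4362355776)) (.cons (.rel (nat_lit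 4362143232)) (.cons (.rel (nat_lit 4363125762)) (.cons (.rel (nat_lit 4362403920)) (.cons (.rel (nat_lit 8657045568)) (.cons (.rel (nat_lit 4362403920)) .nil))))))) (.cons (.br (nat_lit 0) (.cons (.rel (nat_lit 4299444288)) (.cons (.rel (nat_lit 4300210260)) (.cons (.rel (nat_lit 4300210260)) (.cons (.rel (nat_lit 4303357008)) (.cons (.rel (nat_lit 4299231744)) (.cons (.rel (nat_lit 4299231744)) (.cons (.rel (nat_lit 4300210260)) .nil)))))))) (.cons (.br (nat_lit 6) (.cons (.rel (nat_lit 21474845184)) (.cons (.rel (nat_lit 42949673301)) (.cons (.rel (nat_lit 21475361088)) (.cons (.rel (nat_lit 21475098645)) (.cons (.rel (nat_lit 21474845184)) .nil)))))) (.cons (.br (nat_lit 6) (.cons (.rel (nat_lit 21474845184)) (.cons (.rel (nat_lit 42949677312)) (.cons (.rel (nat_lit 38654722053)) (.cons (.rel (nat_lit 21475098645)) (.cons (.rel (nat_lit 42949677312)) .nil)))))) (.cons (.br (nat_lit 0) (.cons (.rel (nat_lit 4299425796)) (.cons (.rel (nat_lit 4303360032)) (.cons (.rel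 (nat_lit 8595701760)) (.cons (.rel (nat_lit 4299231744)) (.cons (.rel (nat_lit 4300210260)) (.cons (.rel (nat_lit 4299231744)) (.cons (.rel (nat_lit 4299423762)) .nil)))))))) .nil)))))) (.node (.node .leaf (nat_lit 897696573999405) (.br (nat_lit 0) (.cons (.br (nat_lit 2) (.cons (.rel (nat_lit 71566404)) .nil)) .nil)) .leaf) (nat_lit 897696574256505) (.br (nat_lit 2) (.cons (.br (nat_lit 1) (.cons (.rel (nat_lit 153093120)) (.cons (.rel (nat_lit 153093120)) (.cons (.rel (nat_lit 83886180)) .nil)))) (.cons (.br (nat_lit 1) (.cons (.rel (nat_lit 83892228)) (.cons (.rel (nat_lit 84934932)) (.cons (.rel (nat_lit 151257600)) .nil)))) .nil))) .leaf)) (nat_lit 897696574260600) (.br (nat_lit 0) (.cons (.br (nat_lit 5) (.cons (.rel (nat_lit 4301259012)) (.cons (.rel (nat_lit 4299425796)) (.cons (.rel (nat_lit 4303357008)) .nil)))) .nil)) (.node (.node (.node .leaf (nat_lit 897696574402074) (.br (nat_lit 1) (.cons (.br (nat_lit 2) (.cons (.rel (nat_lit 84214080)) (.cons (.rel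 (nat_lit 83886180)) .nil))) (.cons (.br (nat_lit 3) (.cons (.rel (nat_lit 285217857)) (.cons (.rel (nat_lit 285476097)) .nil))) .nil))) .leaf) (nat_lit 897696574463454) (.br (nat_lit 4) (.cons (.br (nat_lit 5) (.cons (.rel (nat_lit 5368709634)) (.cons (.rel (nat_lit 5368709634)) (.cons (.rel (nat_lit 6442459200)) .nil)))) (.cons (.br (nat_lit 5) (.cons (.rel (nat_lit 5369303328)) (.cons (.rel (nat_lit 5369038848)) (.cons (.rel (nat_lit 10737418497)) .nil)))) (.cons (.br (nat_lit 0) (.cons (.rel (nat_lit 1077953088)) (.cons (.rel (nat_lit 1082132544)) (.cons (.rel (nat_lit 1077953088)) (.cons (.rel (nat_lit 1079052288)) .nil))))) .nil)))) .leaf) (nat_lit 897696574465500) (.br (nat_lit 5) (.cons (.br (nat_lit 2) (.cons (.rel (nat_lit 4362355776)) (.cons (.rel (nat_lit 4362403920)) (.cons (.rel (nat_lit 4362355776)) .nil)))) (.cons (.br (nat_lit 2) (.cons (.rel (nat_lit 4362346500)) (.cons (.rel (nat_lit 4362469377)) (.cons (.rel (nat_lit 8657045568)) .nil)))) .nil))) (.node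 (.node .leaf (nat_lit 897696574521371) (.br (nat_lit 0) (.cons (.br (nat_lit 1) (.cons (.rel (nat_lit 20990016)) .nil)) .nil)) .leaf) (nat_lit 897696574522875) (.br (nat_lit 3) (.cons (.br (nat_lit 1) (.cons (.rel (nat_lit 570491904)) (.cons (.rel (nat_lit 285345792)) (.cons (.rel (nat_lit 285234180)) .nil)))) (.cons (.br (nat_lit 1) (.cons (.rel (nat_lit 285220881)) (.cons (.rel (nat_lit 285217857)) (.cons (.rel (nat_lit 570491904)) .nil)))) .nil))) .leaf))) (nat_lit 897696575797429) (.br (nat_lit 1) (.cons (.br (nat_lit 5) (.cons (.rel (nat_lit 4311744537)) .nil)) .nil)) (.node (.node (.node (.node .leaf (nat_lit 897696578094358) (.br (nat_lit 2) (.cons (.br (nat_lit 4) (.cons (.rel (nat_lit 1141112964)) (.cons (.rel (nat_lit 1141134336)) .nil))) .nil)) .leaf) (nat_lit 897696989496696) (.br (nat_lit 0) (.cons (.br (nat_lit 2) (.cons (.rel (nat_lit 71569428)) .nil)) .nil)) .leaf) (nat_lit 897696993893854) (.br (nat_lit 0) (.cons (.br (nat_lit 2) (.cons (.rel (nat_lit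 142606593)) .nil)) .nil)) (.node (.node .leaf (nat_lit 897696993895900) (.br (nat_lit 0) (.cons (.br (nat_lit 2) (.cons (.rel (nat_lit 71569428)) .nil)) .nil)) .leaf) (nat_lit 897697416957204) (.br (nat_lit 2) (.cons (.br (nat_lit 3) (.cons (.rel (nat_lit 336724992)) .nil)) .nil)) .leaf)) (nat_lit 897697417518558) (.br (nat_lit 5) (.cons (.br (nat_lit 2) (.cons (.rel (nat_lit 8657109000)) (.cons (.rel (nat_lit 8657048592)) .nil))) .nil)) (.node (.node (.node .leaf (nat_lit 898495435520181) (.br (nat_lit 0) (.cons (.br (nat_lit 5) (.cons (.rel (nat_lit 4303357008)) .nil)) .nil)) .leaf) (nat_lit 898495437818617) (.br (nat_lit 2) (.cons (.br (nat_lit 0) (.cons (.rel (nat_lit 142606593)) (.cons (.rel (nat_lit 71566404)) .nil))) .nil)) .leaf) (nat_lit 898495437819156) (.br (nat_lit 0) (.cons (.br (nat_lit 5) (.cons (.rel (nat_lit 8594392320)) (.cons (.rel (nat_lit 4299444288)) (.cons (.rel (nat_lit 4300276752)) .nil)))) .nil)) (.node (.node .leaf (nat_lit 898495438382556)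 (.br (nat_lit 0) (.cons (.br (nat_lit 4) (.cons (.rel (nat_lit 1077953088)) .nil)) .nil)) .leaf) (nat_lit 899835465316613) (.br (nat_lit 0) (.cons (.br (nat_lit 2) (.cons (.rel (nat_lit 72482817)) .nil)) .nil)) .leaf)))))

/-- refutations 21 -/
def e21 : EX := (.node (.node (.node .leaf (nat_lit 907952949315764) (.br (nat_lit 0) (.cons (.br (nat_lit 2) (.cons (.rel (nat_lit 72369216)) .nil)) .nil)) .leaf) (nat_lit 907952953510068) (.br (nat_lit 0) (.cons (.br (nat_lit 2) (.cons (.rel (nat_lit 71303682)) .nil)) .nil)) (.node .leaf (nat_lit 907961543440565) (.br (nat_lit 1) (.cons (.br (nat_lit 3) (.cons (.rel (nat_lit 553664772)) (.cons (.rel (nat_lit 285217857)) .nil))) .nil)) .leaf)) (nat_lit 907961543441684) (.br (nat_lit 0) (.cons (.br (nat_lit 1) (.cons (.rel (nat_lit 20990016)) .nil)) .nil)) (.node (.node .leaf (nat_lit 907961546302940) (.br (nat_lit 1) (.cons (.br (nat_lit 4) (.cons (.rel (nat_lit 1090605057)) (.cons (.rel (nat_lit 1090519074)) .nil))) (.cons (.br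 (nat_lit 3) (.cons (.rel (nat_lit 285217857)) (.cons (.rel (nat_lit 303104016)) .nil))) .nil))) .leaf) (nat_lit 910624426025261) (.br (nat_lit 2) (.cons (.br (nat_lit 3) (.cons (.rel (nat_lit 604061712)) .nil)) .nil)) .leaf))

/-- refutations 22 -/
def e22 : EX := (.node (.node (.node (.node (.node .leaf (nat_lit 914842088101142) (.br (nat_lit 2) (.cons (.br (nat_lit 3) (.cons (.rel (nat_lit 335810568)) .nil)) .nil)) .leaf) (nat_lit 915017041979399) (.br (nat_lit 3) (.cons (.br (nat_lit 5) (.cons (.rel (nat_lit 4564456449)) .nil)) .nil)) (.node .leaf (nat_lit 915019792373212) (.br (nat_lit 0) (.cons (.br (nat_lit 3) (.cons (.rel (nat_lit 273678342)) .nil)) .nil)) .leaf)) (nat_lit 915019851093468) (.br (nat_lit 3) (.cons (.br (nat_lit 6) (.cons (.rel (nat_lit 17449369728)) .nil)) .nil)) (.node (.node .leaf (nat_lit 915022282246920) (.br (nat_lit 0) (.cons (.br (nat_lit 1) (.cons (.rel (nat_lit 20990016)) .nil)) .nil)) .leaf) (nat_lit 915022283230440) (.br (nat_lit 3)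 (.cons (.br (nat_lit 6) (.cons (.rel (nat_lit 17716742148)) .nil)) .nil)) (.node .leaf (nat_lit 915022283789788) (.br (nat_lit 4) (.cons (.br (nat_lit 5) (.cons (.rel (nat_lit 5369888769)) .nil)) .nil)) .leaf))) (nat_lit 915022403625611) (.br (nat_lit 0) (.cons (.br (nat_lit 2) (.cons (.rel (nat_lit 75563073)) .nil)) .nil)) (.node (.node (.node .leaf (nat_lit 915022474126599) (.br (nat_lit 0) (.cons (.br (nat_lit 1) (.cons (.rel (nat_lit 25167168)) .nil)) .nil)) .leaf) (nat_lit 915022476227862) (.br (nat_lit 6) (.cons (.br (nat_lit 3) (.cons (.rel (nat_lit 17449369728)) (.cons (.rel (nat_lit 17448309252)) .nil))) .nil)) (.node .leaf (nat_lit 915022476727574) (.br (nat_lit 0) (.cons (.br (nat_lit 3) (.cons (.rel (nat_lit 272634369)) .nil)) .nil)) .leaf)) (nat_lit 915022476727772) (.br (nat_lit 0) (.cons (.br (nat_lit 5) (.cons (.rel (nat_lit 4305715200)) (.cons (.rel (nat_lit 8594137104)) .nil))) (.cons (.br (nat_lit 5) (.cons (.rel (nat_lit 4299423762)) (.cons (.rel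 (nat_lit 4299423762)) .nil))) .nil))) (.node (.node .leaf (nat_lit 915022893651420) (.br (nat_lit 0) (.cons (.br (nat_lit 2) (.cons (.rel (nat_lit 142606593)) .nil)) .nil)) .leaf) (nat_lit 915928305123509) (.br (nat_lit 3) (.cons (.br (nat_lit 4) (.cons (.rel (nat_lit 1342448712)) (.cons (.rel (nat_lit 1342439448)) (.cons (.rel (nat_lit 2684420352)) .nil)))) (.cons (.br (nat_lit 5) (.cons (.rel (nat_lit 8858387520)) (.cons (.rel (nat_lit 4563665937)) (.cons (.rel (nat_lit 4563664902)) .nil)))) .nil))) .leaf))) (nat_lit 915928305123629) (.br (nat_lit 4) (.cons (.br (nat_lit 5) (.cons (.rel (nat_lit 5369038848)) .nil)) .nil)) (.node (.node (.node (.node .leaf (nat_lit 915928305124110) (.br (nat_lit 5) (.cons (.br (nat_lit 6) (.cons (.rel (nat_lit 21475098645)) .nil)) .nil)) .leaf) (nat_lit 915928306231958) (.br (nat_lit 3) (.cons (.br (nat_lit 5) (.cons (.rel (nat_lit 8858387520)) .nil)) .nil)) (.node .leaf (nat_lit 915928307979740) (.br (nat_lit 5) (.cons (.br (nat_lit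 3) (.cons (.rel (nat_lit 8858387520)) (.cons (.rel (nat_lit 4563485184)) .nil))) .nil)) .leaf)) (nat_lit 915928808439989) (.br (nat_lit 3) (.cons (.br (nat_lit 4) (.cons (.rel (nat_lit 1342439448)) .nil)) .nil)) (.node (.node .leaf (nat_lit 915928811295021) (.br (nat_lit 4) (.cons (.br (nat_lit 6) (.cons (.rel (nat_lit 35433480276)) .nil)) .nil)) .leaf) (nat_lit 916091281855964) (.br (nat_lit 5) (.cons (.br (nat_lit 0) (.cons (.rel (nat_lit 4300210260)) (.cons (.rel (nat_lit 4300210260)) .nil))) .nil)) .leaf)) (nat_lit 916959601699117) (.br (nat_lit 4) (.cons (.br (nat_lit 6) (.cons (.rel (nat_lit 35433546768)) (.cons (.br (nat_lit 1) (.cons (.rel (nat_lit 1090593792)) (.cons (.rel (nat_lit 1090521108)) (.cons (.rel (nat_lit 17196662865)) .nil)))) .nil))) (.cons (.br (nat_lit 6) (.cons (.rel (nat_lit 18253875216)) (.cons (.rel (nat_lit 18254725137)) .nil))) .nil))) (.node (.node (.node .leaf (nat_lit 916959601699478) (.br (nat_lit 5) (.cons (.br (nat_lit 6) (.cons (.rel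 (nat_lit 38654771232)) .nil)) .nil)) .leaf) (nat_lit 916959603447020) (.br (nat_lit 0) (.cons (.br (nat_lit 3) (.cons (.rel (nat_lit 272695812)) .nil)) .nil)) (.node .leaf (nat_lit 916959603447260) (.br (nat_lit 0) (.cons (.br (nat_lit 5) (.cons (.rel (nat_lit 4300210260)) .nil)) .nil)) .leaf)) (nat_lit 916961115842861) (.br (nat_lit 3) (.cons (.br (nat_lit 0) (.cons (.rel (nat_lit 276828306)) (.cons (.rel (nat_lit 541065240)) .nil))) .nil)) (.node (.node .leaf (nat_lit 916961115843222) (.br (nat_lit 5) (.cons (.br (nat_lit 6) (.cons (.rel (nat_lit 25769886720)) .nil)) .nil)) .leaf) (nat_lit 916964219628182) (.br (nat_lit 1) (.cons (.br (nat_lit 5) (.cons (.rel (nat_lit 8623490049)) .nil)) .nil)) .leaf))))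

/-- refutations 23 -/
def e23 : EX := (.node (.node (.node (.node (.node .leaf (nat_lit 916998158560732) (.br (nat_lit 0) (.cons (.br (nat_lit 1) (.cons (.rel (nat_lit 20993040)) .nil)) .nil)) .leaf) (nat_lit 916998158827800) (.br (nat_lit 2) (.cons (.br (nat_lit 3) (.cons (.rel (nat_lit 336724992)) .nil)) .nil)) .leaf) (nat_lit 916998159936988) (.br (nat_lit 0) (.cons (.br (nat_lit 5) (.cons (.rel (nat_lit 4299423762)) .nil)) .nil)) (.node (.node .leaf (nat_lit 916998161683112) (.br (nat_lit 0) (.cons (.br (nat_lit 1) (.cons (.rel (nat_lit 25167168)) .nil)) .nil)) .leaf) (nat_lit 916998161683734) (.br (nat_lit 0) (.cons (.br (nat_lit 5) (.cons (.rel (nat_lit 4299423762)) (.cons (.rel (nat_lit 4300214274)) .nil))) (.cons (.br (nat_lit 5) (.cons (.rel (nat_lit 4300214274)) (.cons (.rel (nat_lit 4300276752)) .nil))) .nil))) .leaf)) (nat_lit 920679042269365) (.br (nat_lit 5) (.cons (.br (nat_lit 3) (.cons (.rel (nat_lit 4831854612)) (.cons (.rel (nat_lit 4564518930)) .nil)))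 .nil)) (.node (.node (.node .leaf (nat_lit 920679042269485) (.br (nat_lit 4) (.cons (.br (nat_lit 5) (.cons (.rel (nat_lit 10737418497)) .nil)) .nil)) .leaf) (nat_lit 920679043377453) (.br (nat_lit 4) (.cons (.br (nat_lit 6) (.cons (.rel (nat_lit 19327434768)) .nil)) .nil)) .leaf) (nat_lit 920679043377814) (.br (nat_lit 5) (.cons (.br (nat_lit 4) (.cons (.rel (nat_lit 5369888769)) (.cons (.rel (nat_lit 6442598400)) (.cons (.rel (nat_lit 10737418497)) .nil)))) .nil)) (.node .leaf (nat_lit 920680556413109) (.br (nat_lit 3) (.cons (.br (nat_lit 5) (.cons (.rel (nat_lit 8858378244)) (.cons (.rel (nat_lit 8858387520)) (.cons (.rel (nat_lit 4563472932)) .nil)))) (.cons (.br (nat_lit 5) (.cons (.rel (nat_lit 9126824208)) (.cons (.rel (nat_lit 8858387520)) (.cons (.rel (nat_lit 4563664902)) .nil)))) .nil))) .leaf))) (nat_lit 920680556515484) (.br (nat_lit 1) (.cons (.br (nat_lit 2) (.cons (.rel (nat_lit 84049920)) .nil)) .nil)) (.node (.node (.node (.node .leaf (nat_lit 920680557521558)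 (.br (nat_lit 5) (.cons (.br (nat_lit 3) (.cons (.rel (nat_lit 8858387520)) (.cons (.rel (nat_lit 8858390544)) .nil))) .nil)) .leaf) (nat_lit 920680558761188) (.br (nat_lit 4) (.cons (.br (nat_lit 5) (.cons (.rel (nat_lit 5369888769)) .nil)) .nil)) .leaf) (nat_lit 920680559268141) (.br (nat_lit 4) (.cons (.br (nat_lit 0) (.cons (.rel (nat_lit 1079001120)) (.cons (.rel (nat_lit 1079001120)) (.cons (.rel (nat_lit 1078198308)) .nil)))) (.cons (.br (nat_lit 6) (.cons (.rel (nat_lit 18254665728)) (.cons (.rel (nat_lit 35433498624)) (.cons (.rel (nat_lit 36507222336)) (.cons (.rel (nat_lit 18254665728)) .nil))))) .nil))) (.node .leaf (nat_lit 920680559268502) (.br (nat_lit 4) (.cons (.br (nat_lit 6) (.cons (.rel (nat_lit 18254665728)) (.cons (.rel (nat_lit 18253611648)) (.cons (.rel (nat_lit 36507222336)) (.cons (.rel (nat_lit 18254665728)) .nil))))) .nil)) .leaf)) (nat_lit 920680559269100) (.br (nat_lit 1) (.cons (.br (nat_lit 5) (.cons (.rel (nat_lit 4311761040)) (.cons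 (.rel (nat_lit 8606712096)) .nil))) (.cons (.br (nat_lit 3) (.cons (.br (nat_lit 4) (.cons (.rel (nat_lit 1090519074)) (.cons (.rel (nat_lit 1361051652)) .nil))) (.cons (.rel (nat_lit 285345792)) .nil))) .nil))) (.node (.node (.node .leaf (nat_lit 920680559269340) (.br (nat_lit 1) (.cons (.br (nat_lit 5) (.cons (.rel (nat_lit 4311746562)) (.cons (.rel (nat_lit 8623490049)) (.cons (.rel (nat_lit 4311746562)) .nil)))) (.cons (.br (nat_lit 3) (.cons (.rel (nat_lit 285345792)) (.cons (.rel (nat_lit 285217857)) (.cons (.rel (nat_lit 285345792)) .nil)))) (.cons (.br (nat_lit 5) (.cons (.rel (nat_lit 4311842820)) (.cons (.rel (nat_lit 4311744537)) (.cons (.rel (nat_lit 8623490049)) .nil)))) .nil)))) .leaf) (nat_lit 921774165317084) (.br (nat_lit 0) (.cons (.br (nat_lit 4) (.cons (.rel (nat_lit 1077953088)) (.cons (.rel (nat_lit 1079001120)) .nil))) .nil)) .leaf) (nat_lit 922568119297287) (.br (nat_lit 0) (.cons (.br (nat_lit 2) (.cons (.rel (nat_lit 72369216)) .nil)) .nil))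 (.node .leaf (nat_lit 922571264853468) (.br (nat_lit 0) (.cons (.br (nat_lit 1) (.cons (.rel (nat_lit 21004305)) .nil)) .nil)) .leaf))))

/-- refutations 24 -/
def e24 : EX := (.node (.node (.node (.node (.node (.node .leaf (nat_lit 925545135358734) (.br (nat_lit 0) (.cons (.br (nat_lit 2) (.cons (.rel (nat_lit 72372240)) .nil)) .nil)) .leaf) (nat_lit 925545139552437) (.br (nat_lit 0) (.cons (.br (nat_lit 1) (.cons (.rel (nat_lit 21038160)) .nil)) .nil)) .leaf) (nat_lit 925548799841756) (.br (nat_lit 0) (.cons (.br (nat_lit 2) (.cons (.rel (nat_lit 142606593)) .nil)) .nil)) (.node .leaf (nat_lit 925549535183149) (.br (nat_lit 2) (.cons (.br (nat_lit 4) (.cons (.rel (nat_lit 1208222976)) .nil)) .nil)) .leaf)) (nat_lit 925549536291117) (.br (nat_lit 4) (.cons (.br (nat_lit 6) (.cons (.br (nat_lit 5) (.cons (.rel (nat_lit 6442598400)) (.cons (.rel (nat_lit 38654771232)) .nil))) .nil)) .nil)) (.node (.node .leaf (nat_lit 925553729487149) (.br (nat_lit 3) (.cons (.br (nat_lit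 4) (.cons (.rel (nat_lit 2415989760)) .nil)) .nil)) .leaf) (nat_lit 925553729487630) (.br (nat_lit 2) (.cons (.br (nat_lit 5) (.cons (.rel (nat_lit 4429316100)) (.cons (.rel (nat_lit 4429189200)) .nil))) (.cons (.br (nat_lit 4) (.cons (.rel (nat_lit 1207992324)) (.cons (.rel (nat_lit 1141899273)) .nil))) .nil))) (.node .leaf (nat_lit 925553729488108) (.br (nat_lit 5) (.cons (.br (nat_lit 3) (.cons (.rel (nat_lit 4563673176)) (.cons (.rel (nat_lit 4563485184)) .nil))) .nil)) .leaf))) (nat_lit 925553732342061) (.br (nat_lit 2) (.cons (.br (nat_lit 5) (.cons (.rel (nat_lit 4362346500)) .nil)) .nil)) (.node (.node (.node (.node .leaf (nat_lit 925553732342542) (.br (nat_lit 2) (.cons (.br (nat_lit 3) (.cons (.rel (nat_lit 603987969)) .nil)) .nil)) .leaf) (nat_lit 925553732343020) (.br (nat_lit 2) (.cons (.br (nat_lit 3) (.cons (.rel (nat_lit 336724992)) .nil)) .nil)) .leaf) (nat_lit 925553732343260) (.br (nat_lit 3) (.cons (.br (nat_lit 1) (.cons (.rel (nat_lit 285345792))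 (.cons (.rel (nat_lit 285220881)) .nil))) .nil)) (.node .leaf (nat_lit 925553733681333) (.br (nat_lit 0) (.cons (.br (nat_lit 2) (.cons (.rel (nat_lit 71303682)) .nil)) .nil)) .leaf)) (nat_lit 925553733684501) (.br (nat_lit 0) (.cons (.br (nat_lit 3) (.cons (.rel (nat_lit 277102869)) .nil)) .nil)) (.node (.node .leaf (nat_lit 925978850218640) (.br (nat_lit 0) (.cons (.br (nat_lit 1) (.cons (.rel (nat_lit 20993040)) .nil)) .nil)) .leaf) (nat_lit 926622046737669) (.br (nat_lit 0) (.cons (.br (nat_lit 5) (.cons (.rel (nat_lit 4299423762)) .nil)) .nil)) (.node .leaf (nat_lit 926622773690549) (.br (nat_lit 3) (.cons (.br (nat_lit 5) (.cons (.rel (nat_lit 4831903746)) .nil)) .nil)) .leaf)))) (nat_lit 926622774798998) (.br (nat_lit 3) (.cons (.br (nat_lit 4) (.cons (.rel (nat_lit 2415989760)) .nil)) .nil)) (.node (.node (.node (.node (.node .leaf (nat_lit 926624791150773) (.br (nat_lit 5) (.cons (.br (nat_lit 3) (.cons (.rel (nat_lit 4563485184)) (.cons (.rel (nat_lit 4832887041))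 .nil))) .nil)) .leaf) (nat_lit 926624792259222) (.br (nat_lit 3) (.cons (.br (nat_lit 5) (.cons (.br (nat_lit 6) (.cons (.rel (nat_lit 38654705730)) (.cons (.rel (nat_lit 21475196928)) .nil))) .nil)) .nil)) .leaf) (nat_lit 926624794007004) (.br (nat_lit 3) (.cons (.br (nat_lit 1) (.cons (.rel (nat_lit 285234180)) (.cons (.rel (nat_lit 285246480)) .nil))) .nil)) (.node .leaf (nat_lit 927902673944757) (.br (nat_lit 5) (.cons (.br (nat_lit 4) (.cons (.rel (nat_lit 5369038848)) (.cons (.rel (nat_lit 10737418497)) .nil))) .nil)) .leaf)) (nat_lit 927902673944877) (.br (nat_lit 2) (.cons (.br (nat_lit 6) (.cons (.rel (nat_lit 34426851396)) .nil)) .nil)) (.node (.node .leaf (nat_lit 927902675053326) (.br (nat_lit 0) (.cons (.br (nat_lit 2) (.cons (.rel (nat_lit 71632896)) .nil)) .nil)) .leaf) (nat_lit 927902676800988) (.br (nat_lit 4) (.cons (.br (nat_lit 5) (.cons (.rel (nat_lit 5369038848)) .nil)) .nil)) (.node .leaf (nat_lit 927903177261357) (.br (nat_lit 4) (.cons (.br (nat_lit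 0) (.cons (.rel (nat_lit 1077953088)) (.cons (.rel (nat_lit 1077953088)) (.cons (.rel (nat_lit 1078199298)) .nil)))) .nil)) .leaf))) (nat_lit 927903178369325) (.br (nat_lit 3) (.cons (.br (nat_lit 4) (.cons (.rel (nat_lit 1343229960)) (.cons (.rel (nat_lit 1343229960)) .nil))) (.cons (.br (nat_lit 4) (.cons (.br (nat_lit 5) (.cons (.rel (nat_lit 5369038848)) (.cons (.rel (nat_lit 8858378244)) (.cons (.rel (nat_lit 4831842312)) (.cons (.rel (nat_lit 4564467714)) .nil))))) (.cons (.rel (nat_lit 1610616849)) .nil))) .nil))) (.node (.node (.node .leaf (nat_lit 927903180116269) (.br (nat_lit 3) (.cons (.br (nat_lit 5) (.cons (.rel (nat_lit 4563664902)) .nil)) .nil)) .leaf) (nat_lit 927903180117468) (.br (nat_lit 5) (.cons (.br (nat_lit 6) (.cons (.rel (nat_lit 21475901457)) .nil)) .nil)) (.node .leaf (nat_lit 927904691404981) (.br (nat_lit 3) (.cons (.br (nat_lit 5) (.cons (.rel (nat_lit 4564467714)) .nil)) .nil)) .leaf)) (nat_lit 927904692513069) (.br (nat_lit 4) (.cons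 (.br (nat_lit 6) (.cons (.rel (nat_lit 36507222336)) (.cons (.rel (nat_lit 19327422468)) .nil))) .nil)) (.node (.node .leaf (nat_lit 927904692513430) (.br (nat_lit 5) (.cons (.br (nat_lit 3) (.cons (.rel (nat_lit 4564467714)) (.cons (.rel (nat_lit 4563800064)) .nil))) .nil)) .leaf) (nat_lit 927904694261212) (.br (nat_lit 5) (.cons (.br (nat_lit 3) (.cons (.rel (nat_lit 4564467714)) (.cons (.rel (nat_lit 4563485184)) .nil))) .nil)) (.node .leaf (nat_lit 927907370227164) (.br (nat_lit 4) (.cons (.br (nat_lit 5) (.cons (.rel (nat_lit 5369038848)) .nil)) .nil)) .leaf)))))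

/-- refutations 25 -/
def e25 : EX := (.node (.node (.node .leaf (nat_lit 651191160132234) (.br (nat_lit 0) (.cons (.br (nat_lit 1) (.cons (.rel (nat_lit 21004305)) .nil)) .nil)) .leaf) (nat_lit 658527068685174) (.br (nat_lit 0) (.cons (.br (nat_lit 3) (.cons (.rel (nat_lit 276824100)) .nil)) .nil)) .leaf) (nat_lit 661919990998492) (.br (nat_lit 0) (.cons (.br (nat_lit 1) (.cons (.rel (nat_lit 20993040)) .nil)) .nil)) (.node (.node .leaf (nat_lit 661920045022484) (.br (nat_lit 2) (.cons (.br (nat_lit 4) (.cons (.rel (nat_lit 1207964736)) .nil)) .nil)) .leaf) (nat_lit 661920045524244) (.br (nat_lit 1) (.cons (.br (nat_lit 5) (.cons (.rel (nat_lit 8623490049)) .nil)) .nil)) .leaf))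

/-- refutations 26 -/
def e26 : EX := (.node (.node (.node .leaf (nat_lit 973027618822176) (.br (nat_lit 0) (.cons (.br (nat_lit 2) (.cons (.rel (nat_lit 72482817)) .nil)) .nil)) .leaf) (nat_lit 973031370392478) (.br (nat_lit 2) (.cons (.br (nat_lit 4) (.cons (.rel (nat_lit 1141145601)) .nil)) .nil)) .leaf) (nat_lit 975184799697578) (.br (nat_lit 0) (.cons (.br (nat_lit 1) (.cons (.rel (nat_lit 21004305)) .nil)) .nil)) (.node .leaf (nat_lit 978526284257312) (.br (nat_lit 0) (.cons (.br (nat_lit 2) (.cons (.rel (nat_lit 72417360)) .nil)) .nil)) .leaf))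

/-- refutations 27 -/
def e27 : EX := (.node (.node .leaf (nat_lit 1079654366705176) (.br (nat_lit 0) (.cons (.br (nat_lit 1) (.cons (.rel (nat_lit 21103617)) .nil)) .nil)) .leaf) (nat_lit 1084127084358288) (.br (nat_lit 3) (.cons (.br (nat_lit 4) (.cons (.rel (nat_lit 2684420352)) .nil)) .nil)) .leaf)

/-- refutations 28 -/
def e28 : EX := (.node (.node (.node .leaf (nat_lit 2235325397445420) (.br (nat_lit 0) (.cons (.br (nat_lit 1) (.cons (.rel (nat_lit 38813697)) .nil)) .nil)) .leaf) (nat_lit 2236412429127192) (.br (nat_lit 3) (.cons (.br (nat_lit 4) (.cons (.rel (nat_lit 1344274689)) .nil)) .nil)) .leaf) (nat_lit 2245217229522996) (.br (nat_lit 2) (.cons (.br (nat_lit 3) (.cons (.rel (nat_lit 604013568)) .nil)) .nil)) (.node .leaf (nat_lit 2246042263608797) (.br (nat_lit 0) (.cons (.br (nat_lit 1) (.cons (.rel (nat_lit 20992005)) .nil)) .nil)) .leaf))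

/-- refutations 29 -/
def e29 : EX := (.node .leaf (nat_lit 2640173811559656) (.br (nat_lit 0) (.cons (.br (nat_lit 1) (.cons (.rel (nat_lit 22086912)) .nil)) .nil)) .leaf)

/-- refutations 30 -/
def e30 : EX := (.node (.node (.node .leaf (nat_lit 2646432767582868) (.br (nat_lit 0) (.cons (.br (nat_lit 2) (.cons (.rel (nat_lit 75497616)) .nil)) .nil)) .leaf) (nat_lit 2646779055769052) (.br (nat_lit 1) (.cons (.br (nat_lit 2) (.cons (.rel (nat_lit 83904528)) .nil)) .nil)) (.node .leaf (nat_lit 2649577616786070) (.br (nat_lit 3) (.cons (.br (nat_lit 6) (.cons (.rel (nat_lit 17448305241)) .nil)) .nil)) .leaf)) (nat_lit 2649582620837242) (.br (nat_lit 1) (.cons (.br (nat_lit 5) (.cons (.rel (nat_lit 4311744537)) .nil)) .nil)) (.node (.node .leaf (nat_lit 2651092046011274) (.br (nat_lit 0) (.cons (.br (nat_lit 1) (.cons (.rel (nat_lit 38802432)) .nil)) .nil)) .leaf) (nat_lit 2651092046011870) (.br (nat_lit 3) (.cons (.br (nat_lit 5) (.cons (.rel (nat_lit 4564467714)) .nil))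 .nil)) (.node .leaf (nat_lit 2651942021805467) (.br (nat_lit 1) (.cons (.br (nat_lit 2) (.cons (.rel (nat_lit 83903493)) .nil)) .nil)) .leaf)))

/-- refutations 32 -/
def e32 : EX := (.node (.node (.node (.node .leaf (nat_lit 2657554725816982) (.br (nat_lit 0) (.cons (.br (nat_lit 1) (.cons (.rel (nat_lit 20971668)) .nil)) .nil)) .leaf) (nat_lit 2658620427160953) (.br (nat_lit 0) (.cons (.br (nat_lit 1) (.cons (.rel (nat_lit 25170192)) .nil)) .nil)) .leaf) (nat_lit 2658624992461080) (.br (nat_lit 3) (.cons (.br (nat_lit 5) (.cons (.rel (nat_lit 4563664902)) .nil)) .nil)) (.node .leaf (nat_lit 2658624994758009) (.br (nat_lit 5) (.cons (.br (nat_lit 0) (.cons (.rel (nat_lit 4303372296)) (.cons (.rel (nat_lit 4303355973)) .nil))) .nil)) .leaf)) (nat_lit 2658624995020153) (.br (nat_lit 2) (.cons (.br (nat_lit 3) (.cons (.rel (nat_lit 336625680)) .nil)) .nil)) (.node (.node .leaf (nat_lit 2658793693859292) (.br (nat_lit 0) (.cons (.br (nat_lit 1) (.cons (.rel (nat_lit 20993040))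 .nil)) .nil)) .leaf) (nat_lit 2664031950952728) (.br (nat_lit 0) (.cons (.br (nat_lit 1) (.cons (.rel (nat_lit 20975682)) .nil)) .nil)) (.node .leaf (nat_lit 2664036653551068) (.br (nat_lit 2) (.cons (.br (nat_lit 4) (.cons (.rel (nat_lit 1207992324)) .nil)) .nil)) .leaf)))

/-- refutations 33 -/
def e33 : EX := (.node (.node (.node .leaf (nat_lit 2664246834318073) (.br (nat_lit 1) (.cons (.br (nat_lit 0) (.cons (.rel (nat_lit 20975682)) (.cons (.rel (nat_lit 41945169)) .nil))) .nil)) .leaf) (nat_lit 2664246834318087) (.br (nat_lit 0) (.cons (.br (nat_lit 3) (.cons (.rel (nat_lit 273678342)) .nil)) .nil)) (.node .leaf (nat_lit 2664248302883478) (.br (nat_lit 1) (.cons (.br (nat_lit 3) (.cons (.rel (nat_lit 285220881)) .nil)) .nil)) .leaf)) (nat_lit 2664367092641824) (.br (nat_lit 0) (.cons (.br (nat_lit 3) (.cons (.rel (nat_lit 272892033)) .nil)) .nil)) (.node (.node .leaf (nat_lit 2664367092736061) (.br (nat_lit 0) (.cons (.br (nat_lit 3) (.cons (.rel (nat_lit 272634369))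 .nil)) .nil)) .leaf) (nat_lit 2667180150535544) (.br (nat_lit 1) (.cons (.br (nat_lit 3) (.cons (.rel (nat_lit 285345792)) .nil)) .nil)) (.node .leaf (nat_lit 2667375038515862) (.br (nat_lit 0) (.cons (.br (nat_lit 5) (.cons (.rel (nat_lit 4300275717)) .nil)) .nil)) .leaf)))

/-- refutations 34 -/
def e34 : EX := (.node (.node (.node .leaf (nat_lit 2412729527389660) (.br (nat_lit 1) (.cons (.br (nat_lit 2) (.cons (.rel (nat_lit 83952672)) .nil)) .nil)) .leaf) (nat_lit 2415589489315077) (.br (nat_lit 3) (.cons (.br (nat_lit 5) (.cons (.rel (nat_lit 4563436053)) .nil)) .nil)) (.node .leaf (nat_lit 2416586407847388) (.br (nat_lit 4) (.cons (.br (nat_lit 5) (.cons (.rel (nat_lit 10737418497)) .nil)) .nil)) .leaf)) (nat_lit 2417956229784359) (.br (nat_lit 1) (.cons (.br (nat_lit 6) (.cons (.rel (nat_lit 17196717057)) .nil)) .nil)) (.node (.node .leaf (nat_lit 2417960797381415) (.br (nat_lit 0) (.cons (.br (nat_lit 1) (.cons (.rel (nat_lit 38802432)) .nil)) .nil)) .leaf) (nat_lit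 2420962572674524) (.br (nat_lit 0) (.cons (.br (nat_lit 4) (.cons (.rel (nat_lit 2151679104)) .nil)) .nil)) .leaf))

/-- refutations 35 -/
def e35 : EX := (.node (.node (.node (.node (.node .leaf (nat_lit 2851223909992709) (.br (nat_lit 0) (.cons (.br (nat_lit 1) (.cons (.rel (nat_lit 41947158)) .nil)) .nil)) .leaf) (nat_lit 2851225257579996) (.br (nat_lit 2) (.cons (.br (nat_lit 3) (.cons (.rel (nat_lit 335810568)) .nil)) .nil)) .leaf) (nat_lit 2851225781867996) (.br (nat_lit 0) (.cons (.br (nat_lit 1) (.cons (.rel (nat_lit 21037125)) .nil)) .nil)) (.node .leaf (nat_lit 2851228088083239) (.br (nat_lit 0) (.cons (.br (nat_lit 6) (.cons (.rel (nat_lit 17184334848)) .nil)) .nil)) .leaf)) (nat_lit 2851228088735196) (.br (nat_lit 1) (.cons (.br (nat_lit 0) (.cons (.rel (nat_lit 20975682)) (.cons (.rel (nat_lit 23396352)) .nil))) .nil)) (.node (.node .leaf (nat_lit 2851228089320835) (.br (nat_lit 1) (.cons (.br (nat_lit 3) (.cons (.rel (nat_lit 285229122)) (.cons (.rel (nat_lit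 285220881)) .nil))) (.cons (.br (nat_lit 3) (.cons (.rel (nat_lit 285345792)) (.cons (.rel (nat_lit 570491904)) .nil))) .nil))) .leaf) (nat_lit 2851228524034730) (.br (nat_lit 5) (.cons (.br (nat_lit 0) (.cons (.rel (nat_lit 4300276752)) (.cons (.rel (nat_lit 4299425796)) .nil))) .nil)) (.node .leaf (nat_lit 2851228552102798) (.br (nat_lit 1) (.cons (.br (nat_lit 2) (.cons (.rel (nat_lit 83890194)) .nil)) .nil)) .leaf))) (nat_lit 2851228552274055) (.br (nat_lit 1) (.cons (.br (nat_lit 2) (.cons (.rel (nat_lit 83952672)) (.cons (.rel (nat_lit 83890194)) (.cons (.rel (nat_lit 83887170)) .nil)))) .nil)) (.node (.node (.node .leaf (nat_lit 2851228553395587) (.br (nat_lit 1) (.cons (.br (nat_lit 2) (.cons (.rel (nat_lit 83886180)) .nil)) .nil)) .leaf) (nat_lit 2851228553595032) (.br (nat_lit 1) (.cons (.br (nat_lit 3) (.cons (.rel (nat_lit 285212808)) .nil)) .nil)) (.node .leaf (nat_lit 2851228553650237) (.br (nat_lit 5) (.cons (.br (nat_lit 4) (.cons (.rel (nat_lit 10737418497))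 (.cons (.rel (nat_lit 5368972356)) .nil))) .nil)) .leaf)) (nat_lit 2851228554302940) (.br (nat_lit 0) (.cons (.br (nat_lit 1) (.cons (.rel (nat_lit 21041184)) (.cons (.rel (nat_lit 21038160)) .nil))) .nil)) (.node (.node .leaf (nat_lit 2851228554888579) (.br (nat_lit 3) (.cons (.br (nat_lit 1) (.cons (.rel (nat_lit 286785537)) (.cons (.rel (nat_lit 285220881)) (.cons (.rel (nat_lit 553664772)) .nil)))) .nil)) .leaf) (nat_lit 2852171341567452) (.br (nat_lit 1) (.cons (.br (nat_lit 4) (.cons (.rel (nat_lit 1090520073)) .nil)) .nil)) (.node .leaf (nat_lit 2856388999720324) (.br (nat_lit 0) (.cons (.br (nat_lit 3) (.cons (.rel (nat_lit 272634369)) .nil)) .nil)) .leaf))))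

/-- refutations 36 -/
def e36 : EX := (.node (.node .leaf (nat_lit 2857545062880732) (.br (nat_lit 1) (.cons (.br (nat_lit 4) (.cons (.rel (nat_lit 1090605057)) .nil)) .nil)) .leaf) (nat_lit 2857550697743118) (.br (nat_lit 0) (.cons (.br (nat_lit 2) (.cons (.rel (nat_lit 75628578)) .nil)) .nil)) (.node .leaf (nat_lit 2860737565757476) (.br (nat_lit 4) (.cons (.br (nat_lit 5) (.cons (.rel (nat_lit 10737418497)) .nil)) .nil)) .leaf))

/-- refutations 39 -/
def e39 : EX := (.node (.node .leaf (nat_lit 3089604553936133) (.br (nat_lit 0) (.cons (.br (nat_lit 2) (.cons (.rel (nat_lit 71632896)) .nil)) .nil)) .leaf) (nat_lit 3090530289809560) (.br (nat_lit 1) (.cons (.br (nat_lit 3) (.cons (.rel (nat_lit 285234180)) .nil)) .nil)) (.node .leaf (nat_lit 3090530289832092) (.br (nat_lit 1) (.cons (.br (nat_lit 4) (.cons (.rel (nat_lit 2181038097)) .nil)) .nil)) .leaf))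

/-- refutations 40 -/
def e40 : EX := (.node .leaf (nat_lit 3177551444545572) (.br (nat_lit 0) (.cons (.br (nat_lit 2) (.cons (.rel (nat_lit 142606593)) .nil)) .nil)) .leaf)

/-- refutations 41 -/
def e41 : EX := (.node (.node (.node (.node .leaf (nat_lit 4416933485921192) (.br (nat_lit 4) (.cons (.br (nat_lit 5) (.cons (.rel (nat_lit 10737418497)) .nil)) .nil)) .leaf) (nat_lit 4427473335666141) (.br (nat_lit 1) (.cons (.br (nat_lit 3) (.cons (.rel (nat_lit 285345792)) .nil)) .nil)) .leaf) (nat_lit 4427901988976667) (.br (nat_lit 0) (.cons (.br (nat_lit 1) (.cons (.rel (nat_lit 21041184)) .nil)) .nil)) (.node .leaf (nat_lit 4428746961241000) (.br (nat_lit 1) (.cons (.br (nat_lit 2) (.cons (.br (nat_lit 4) (.cons (.rel (nat_lit 2214608904)) .nil)) .nil)) .nil)) .leaf)) (nat_lit 4428747675535536) (.br (nat_lit 3) (.cons (.br (nat_lit 4) (.cons (.rel (nat_lit 2684420352)) .nil)) .nil)) (.node (.node (.node .leaf (nat_lit 4428748199824161) (.br (nat_lit 0) (.cons (.br (nat_lit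 1) (.cons (.rel (nat_lit 20980740)) .nil)) .nil)) .leaf) (nat_lit 4428752820683688) (.br (nat_lit 0) (.cons (.br (nat_lit 1) (.cons (.rel (nat_lit 38011920)) (.cons (.rel (nat_lit 41945169)) .nil))) .nil)) .leaf) (nat_lit 4428753235557754) (.br (nat_lit 0) (.cons (.br (nat_lit 1) (.cons (.rel (nat_lit 20971668)) .nil)) .nil)) (.node .leaf (nat_lit 4428753235920148) (.br (nat_lit 0) (.cons (.br (nat_lit 1) (.cons (.rel (nat_lit 25167168)) .nil)) .nil)) .leaf)))

/-- refutations 42 -/
def e42 : EX := (.node (.node (.node (.node .leaf (nat_lit 4435396076783742) (.br (nat_lit 1) (.cons (.br (nat_lit 3) (.cons (.rel (nat_lit 285246480)) .nil)) .nil)) .leaf) (nat_lit 4435396076785151) (.br (nat_lit 1) (.cons (.br (nat_lit 2) (.cons (.rel (nat_lit 83904528)) .nil)) .nil)) (.node .leaf (nat_lit 4435396077764095) (.br (nat_lit 0) (.cons (.br (nat_lit 1) (.cons (.rel (nat_lit 21041184)) .nil)) .nil)) .leaf)) (nat_lit 4435396078121622) (.br (nat_lit 0) (.cons (.br (nat_lit 2) (.cons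 (.rel (nat_lit 71566404)) .nil)) .nil)) (.node (.node .leaf (nat_lit 4435421466502432) (.br (nat_lit 0) (.cons (.br (nat_lit 2) (.cons (.rel (nat_lit 72417360)) .nil)) .nil)) .leaf) (nat_lit 4435427616995380) (.br (nat_lit 0) (.cons (.br (nat_lit 4) (.cons (.rel (nat_lit 1079052288)) .nil)) .nil)) .leaf)) (nat_lit 4435427616996010) (.br (nat_lit 0) (.cons (.br (nat_lit 4) (.cons (.rel (nat_lit 1077953088)) .nil)) .nil)) (.node (.node (.node .leaf (nat_lit 4439138471241180) (.br (nat_lit 0) (.cons (.br (nat_lit 1) (.cons (.rel (nat_lit 20971668)) .nil)) .nil)) .leaf) (nat_lit 4439777158673819) (.br (nat_lit 3) (.cons (.br (nat_lit 2) (.cons (.rel (nat_lit 335872002)) (.cons (.rel (nat_lit 335874084)) .nil))) .nil)) (.node .leaf (nat_lit 4441240085771770) (.br (nat_lit 0) (.cons (.br (nat_lit 3) (.cons (.rel (nat_lit 273678342)) .nil)) .nil)) .leaf)) (nat_lit 4444241008556039) (.br (nat_lit 1) (.cons (.br (nat_lit 6) (.cons (.rel (nat_lit 34393293888)) (.cons (.rel (nat_lit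 34393293888)) (.cons (.rel (nat_lit 17196651600)) (.cons (.rel (nat_lit 17196654624)) .nil))))) .nil)) (.node (.node .leaf (nat_lit 4444241009619750) (.br (nat_lit 1) (.cons (.br (nat_lit 2) (.cons (.rel (nat_lit 83951637)) .nil)) .nil)) .leaf) (nat_lit 4445495022839061) (.br (nat_lit 0) (.cons (.br (nat_lit 3) (.cons (.rel (nat_lit 272892033)) .nil)) .nil)) .leaf)))

/-- refutations 43 -/
def e43 : EX := (.node (.node (.node (.node .leaf (nat_lit 4593725355454599) (.br (nat_lit 5) (.cons (.br (nat_lit 0) (.cons (.rel (nat_lit 4303357008)) (.cons (.rel (nat_lit 4303357008)) .nil))) .nil)) .leaf) (nat_lit 4593726500425905) (.br (nat_lit 0) (.cons (.br (nat_lit 3) (.cons (.rel (nat_lit 272695812)) .nil)) .nil)) (.node .leaf (nat_lit 4593726500909091) (.br (nat_lit 0) (.cons (.br (nat_lit 2) (.cons (.rel (nat_lit 71566404)) .nil)) .nil)) .leaf)) (nat_lit 4593726501767925) (.br (nat_lit 0) (.cons (.br (nat_lit 2) (.cons (.rel (nat_lit 72417360)) .nil)) .nil)) (.node (.node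 .leaf (nat_lit 4593726503296476) (.br (nat_lit 0) (.cons (.br (nat_lit 2) (.cons (.rel (nat_lit 71303682)) (.cons (.rel (nat_lit 71303682)) .nil))) (.cons (.br (nat_lit 2) (.cons (.rel (nat_lit 71566404)) (.cons (.rel (nat_lit 71566404)) .nil))) .nil))) .leaf) (nat_lit 4593728480108704) (.br (nat_lit 0) (.cons (.br (nat_lit 2) (.cons (.rel (nat_lit 73466112)) (.cons (.rel (nat_lit 71303682)) .nil))) .nil)) (.node .leaf (nat_lit 4593728480145589) (.br (nat_lit 3) (.cons (.br (nat_lit 0) (.cons (.rel (nat_lit 272695812)) (.cons (.rel (nat_lit 272650884)) .nil))) .nil)) .leaf))) (nat_lit 4593728481366793) (.br (nat_lit 1) (.cons (.br (nat_lit 3) (.cons (.rel (nat_lit 285212808)) (.cons (.rel (nat_lit 570425412)) .nil))) .nil)) (.node (.node (.node .leaf (nat_lit 4593728481735538) (.br (nat_lit 0) (.cons (.br (nat_lit 2) (.cons (.rel (nat_lit 75506688)) .nil)) .nil)) .leaf) (nat_lit 4593728481938089) (.br (nat_lit 0) (.cons (.br (nat_lit 1) (.cons (.rel (nat_lit 20975682))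 .nil)) .nil)) (.node .leaf (nat_lit 4593728483007964) (.br (nat_lit 1) (.cons (.br (nat_lit 5) (.cons (.rel (nat_lit 4311746562)) .nil)) .nil)) .leaf)) (nat_lit 4593729004397450) (.br (nat_lit 0) (.cons (.br (nat_lit 2) (.cons (.rel (nat_lit 72357954)) (.cons (.rel (nat_lit 71569428)) .nil))) .nil)) (.node (.node .leaf (nat_lit 4593729005766968) (.br (nat_lit 0) (.cons (.br (nat_lit 1) (.cons (.rel (nat_lit 21037125)) .nil)) .nil)) .leaf) (nat_lit 4593978044095964) (.br (nat_lit 3) (.cons (.br (nat_lit 5) (.cons (.rel (nat_lit 4831838289)) .nil)) .nil)) (.node .leaf (nat_lit 4594192894455935) (.br (nat_lit 0) (.cons (.br (nat_lit 2) (.cons (.rel (nat_lit 75497616)) .nil)) .nil)) .leaf))))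

/-- refutations 44 -/
def e44 : EX := (.node (.node .leaf (nat_lit 4597445422018741) (.br (nat_lit 0) (.cons (.br (nat_lit 3) (.cons (.rel (nat_lit 545276256)) .nil)) .nil)) .leaf) (nat_lit 4599570194844405) (.br (nat_lit 0) (.cons (.br (nat_lit 3) (.cons (.rel (nat_lit 272695812)) .nil)) .nil)) (.node .leaf (nat_lit 4604455331601884) (.br (nat_lit 0) (.cons (.br (nat_lit 2) (.cons (.rel (nat_lit 71303682)) .nil)) .nil)) .leaf))

/-- refutations 45 -/
def e45 : EX := (.node .leaf (nat_lit 4496802398672105) (.br (nat_lit 0) (.cons (.br (nat_lit 2) (.cons (.rel (nat_lit 138418176)) .nil)) .nil)) .leaf)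

/-- refutations 46 -/
def e46 : EX := (.node (.node (.node (.node .leaf (nat_lit 4840017106390492) (.br (nat_lit 0) (.cons (.br (nat_lit 1) (.cons (.rel (nat_lit 20990016)) .nil)) .nil)) .leaf) (nat_lit 4840019608996742) (.br (nat_lit 0) (.cons (.br (nat_lit 6) (.cons (.rel (nat_lit 34363933716)) (.cons (.rel (nat_lit 17184325776)) .nil))) .nil)) .leaf) (nat_lit 4840019610389382) (.br (nat_lit 0) (.cons (.br (nat_lit 1) (.cons (.rel (nat_lit 20975682)) .nil)) .nil)) (.node (.node .leaf (nat_lit 4840050858096792) (.br (nat_lit 3) (.cons (.br (nat_lit 4) (.cons (.rel (nat_lit 2684420352)) .nil)) .nil)) .leaf) (nat_lit 4840050858104992) (.br (nat_lit 4) (.cons (.br (nat_lit 5) (.cons (.rel (nat_lit 5368975380)) .nil)) .nil)) .leaf)) (nat_lit 4840051361414030) (.br (nat_lit 0) (.cons (.br (nat_lit 1) (.cons (.rel (nat_lit 21041184)) (.cons (.rel (nat_lit 20990016)) .nil))) .nil)) (.node (.node (.node .leaf (nat_lit 4840051464758154) (.br (nat_lit 0) (.cons (.br (nat_lit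 2) (.cons (.rel (nat_lit 71581728)) .nil)) .nil)) .leaf) (nat_lit 4840088362050446) (.br (nat_lit 0) (.cons (.br (nat_lit 1) (.cons (.rel (nat_lit 20971668)) .nil)) .nil)) .leaf) (nat_lit 4840268720231660) (.br (nat_lit 0) (.cons (.br (nat_lit 1) (.cons (.rel (nat_lit 20971668)) (.cons (.rel (nat_lit 20990016)) .nil))) .nil)) (.node .leaf (nat_lit 4843743878341909) (.br (nat_lit 1) (.cons (.br (nat_lit 4) (.cons (.rel (nat_lit 1090519074)) .nil)) .nil)) .leaf)))

/-- refutations 47 -/
def e47 : EX := (.node (.node .leaf (nat_lit 4845465662618510) (.br (nat_lit 1) (.cons (.br (nat_lit 2) (.cons (.rel (nat_lit 83886180)) .nil)) .nil)) .leaf) (nat_lit 4849748892715168) (.br (nat_lit 0) (.cons (.br (nat_lit 4) (.cons (.rel (nat_lit 1078198308)) .nil)) .nil)) (.node .leaf (nat_lit 4849748894273692) (.br (nat_lit 0) (.cons (.br (nat_lit 3) (.cons (.rel (nat_lit 272634369)) .nil)) .nil)) .leaf))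

/-- refutations 48 -/
def e48 : EX := (.node (.node .leaf (nat_lit 4616678166793692) (.br (nat_lit 0) (.cons (.br (nat_lit 1) (.cons (.rel (nat_lit 20971668)) .nil)) .nil)) .leaf) (nat_lit 4621456892530140) (.br (nat_lit 1) (.cons (.br (nat_lit 4) (.cons (.rel (nat_lit 2181038097)) .nil)) .nil)) (.node .leaf (nat_lit 4622349662719452) (.br (nat_lit 0) (.cons (.br (nat_lit 5) (.cons (.rel (nat_lit 4299489408)) .nil)) .nil)) .leaf))

/-- refutations 50 -/
def e50 : EX := (.node (.node (.node (.node (.node (.node .leaf (nat_lit 4962385998335452) (.br (nat_lit 0) (.cons (.br (nat_lit 3) (.cons (.rel (nat_lit 541065240)) .nil)) .nil)) .leaf) (nat_lit 4963164911307654) (.br (nat_lit 1) (.cons (.br (nat_lit 4) (.cons (.rel (nat_lit 1090666500)) (.cons (.rel (nat_lit 1090605057)) .nil))) (.cons (.br (nat_lit 4) (.cons (.rel (nat_lit 1090521108)) (.cons (.rel (nat_lit 1090519074)) .nil))) .nil))) .leaf) (nat_lit 4963164912691501) (.br (nat_lit 2) (.cons (.br (nat_lit 6) (.cons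 (.rel (nat_lit 17247257601)) .nil)) .nil)) (.node .leaf (nat_lit 4963164912700892) (.br (nat_lit 0) (.cons (.br (nat_lit 1) (.cons (.rel (nat_lit 20975682)) .nil)) .nil)) .leaf)) (nat_lit 4963164912948102) (.br (nat_lit 6) (.cons (.br (nat_lit 1) (.cons (.rel (nat_lit 34393293888)) (.cons (.rel (nat_lit 34393296912)) .nil))) .nil)) (.node (.node (.node .leaf (nat_lit 4963195697498272) (.br (nat_lit 1) (.cons (.br (nat_lit 4) (.cons (.rel (nat_lit 1107297792)) .nil)) .nil)) .leaf) (nat_lit 4963195697572021) (.br (nat_lit 0) (.cons (.br (nat_lit 5) (.cons (.rel (nat_lit 4299231744)) .nil)) .nil)) .leaf) (nat_lit 4963195697600693) (.br (nat_lit 0) (.cons (.br (nat_lit 6) (.cons (.rel (nat_lit 34363933716)) .nil)) .nil)) (.node .leaf (nat_lit 4963195700332594) (.br (nat_lit 1) (.cons (.br (nat_lit 5) (.cons (.rel (nat_lit 4311744537)) .nil)) .nil)) .leaf))) (nat_lit 4963195700334044) (.br (nat_lit 2) (.cons (.br (nat_lit 3) (.cons (.rel (nat_lit 335872002)) .nil)) .nil))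 (.node (.node (.node (.node .leaf (nat_lit 4963195700366872) (.br (nat_lit 0) (.cons (.br (nat_lit 3) (.cons (.rel (nat_lit 272892033)) .nil)) .nil)) .leaf) (nat_lit 4963196796414087) (.br (nat_lit 0) (.cons (.br (nat_lit 5) (.cons (.rel (nat_lit 8594161668)) .nil)) .nil)) .leaf) (nat_lit 4963196796414104) (.br (nat_lit 4) (.cons (.br (nat_lit 6) (.cons (.rel (nat_lit 18253611648)) .nil)) .nil)) (.node .leaf (nat_lit 4963196796414862) (.br (nat_lit 0) (.cons (.br (nat_lit 3) (.cons (.rel (nat_lit 272695812)) .nil)) .nil)) .leaf)) (nat_lit 4963196796479623) (.br (nat_lit 0) (.cons (.br (nat_lit 5) (.cons (.rel (nat_lit 4300275717)) (.cons (.rel (nat_lit 8594161668)) .nil))) .nil)) (.node (.node (.node .leaf (nat_lit 4963196796479669) (.br (nat_lit 0) (.cons (.br (nat_lit 4) (.cons (.rel (nat_lit 1082195976)) (.cons (.rel (nat_lit 1082132544)) .nil))) .nil)) .leaf) (nat_lit 4963196796509087) (.br (nat_lit 0) (.cons (.br (nat_lit 1) (.cons (.rel (nat_lit 20993040)) .nil))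 .nil)) .leaf) (nat_lit 4963196796971040) (.br (nat_lit 3) (.cons (.br (nat_lit 5) (.cons (.rel (nat_lit 4831854612)) .nil)) .nil)) (.node .leaf (nat_lit 4963196797799211) (.br (nat_lit 0) (.cons (.br (nat_lit 2) (.cons (.rel (nat_lit 71581728)) .nil)) .nil)) .leaf)))) (nat_lit 4963196799241692) (.br (nat_lit 0) (.cons (.br (nat_lit 3) (.cons (.rel (nat_lit 272908356)) .nil)) .nil)) (.node (.node (.node (.node (.node .leaf (nat_lit 4963198349652128) (.br (nat_lit 0) (.cons (.br (nat_lit 1) (.cons (.rel (nat_lit 20992005)) .nil)) .nil)) .leaf) (nat_lit 4963198350194200) (.br (nat_lit 0) (.cons (.br (nat_lit 3) (.cons (.rel (nat_lit 273022992)) .nil)) .nil)) .leaf) (nat_lit 4963198679656600) (.br (nat_lit 2) (.cons (.br (nat_lit 6) (.cons (.rel (nat_lit 17314088001)) .nil)) .nil)) (.node .leaf (nat_lit 4963198681193350) (.br (nat_lit 0) (.cons (.br (nat_lit 1) (.cons (.rel (nat_lit 20990016)) .nil)) .nil)) .leaf)) (nat_lit 4963198682484188) (.br (nat_lit 2) (.cons (.br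 (nat_lit 0) (.cons (.rel (nat_lit 71632896)) (.cons (.rel (nat_lit 142606593)) .nil))) .nil)) (.node (.node (.node .leaf (nat_lit 4963198682517016) (.br (nat_lit 3) (.cons (.br (nat_lit 5) (.cons (.rel (nat_lit 8858378244)) .nil)) .nil)) .leaf) (nat_lit 4963198885734432) (.br (nat_lit 1) (.cons (.br (nat_lit 2) (.cons (.rel (nat_lit 83903493)) .nil)) .nil)) .leaf) (nat_lit 4963198886809776) (.br (nat_lit 1) (.cons (.br (nat_lit 4) (.cons (.rel (nat_lit 1090584720)) .nil)) .nil)) (.node .leaf (nat_lit 4963198887064233) (.br (nat_lit 2) (.cons (.br (nat_lit 3) (.cons (.rel (nat_lit 604061712)) .nil)) .nil)) .leaf))) (nat_lit 4963198887753057) (.br (nat_lit 2) (.cons (.br (nat_lit 3) (.cons (.rel (nat_lit 335810568)) .nil)) .nil)) (.node (.node (.node (.node .leaf (nat_lit 4963201487173784) (.br (nat_lit 0) (.cons (.br (nat_lit 1) (.cons (.rel (nat_lit 21004305)) .nil)) .nil)) .leaf) (nat_lit 4963201488506392) (.br (nat_lit 1) (.cons (.br (nat_lit 2) (.cons (.rel (nat_lit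 84214080)) .nil)) .nil)) .leaf) (nat_lit 4963201783433376) (.br (nat_lit 1) (.cons (.br (nat_lit 0) (.cons (.rel (nat_lit 20993040)) (.cons (.rel (nat_lit 25167168)) .nil))) .nil)) (.node .leaf (nat_lit 4963201786269148) (.br (nat_lit 3) (.cons (.br (nat_lit 5) (.cons (.rel (nat_lit 8858378244)) (.cons (.rel (nat_lit 4831838289)) .nil))) .nil)) .leaf)) (nat_lit 4963201787687089) (.br (nat_lit 3) (.cons (.br (nat_lit 4) (.cons (.rel (nat_lit 1610616849)) .nil)) .nil)) (.node (.node .leaf (nat_lit 4963202030897312) (.br (nat_lit 4) (.cons (.br (nat_lit 5) (.cons (.rel (nat_lit 9663680640)) .nil)) .nil)) .leaf) (nat_lit 4963202032538486) (.br (nat_lit 2) (.cons (.br (nat_lit 3) (.cons (.rel (nat_lit 402653268)) .nil)) .nil)) (.node .leaf (nat_lit 4963202033765912) (.br (nat_lit 4) (.cons (.br (nat_lit 0) (.cons (.rel (nat_lit 1078222848)) (.cons (.rel (nat_lit 1082132544)) .nil))) .nil)) .leaf)))))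

/-- refutations 51 -/
def e51 : EX := (.node (.node (.node (.node (.node (.node .leaf (nat_lit 4963230486614172) (.br (nat_lit 0) (.cons (.br (nat_lit 4) (.cons (.rel (nat_lit 1079001120)) .nil)) .nil)) .leaf) (nat_lit 4963590834563207) (.br (nat_lit 5) (.cons (.br (nat_lit 0) (.cons (.rel (nat_lit 8594161668)) (.cons (.br (nat_lit 2) (.cons (.rel (nat_lit 4429316100)) (.cons (.rel (nat_lit 4366368768)) .nil))) .nil))) .nil)) .leaf) (nat_lit 4963590834591896) (.br (nat_lit 6) (.cons (.br (nat_lit 0) (.cons (.rel (nat_lit 34363933716)) (.cons (.rel (nat_lit 17185374528)) .nil))) .nil)) (.node .leaf (nat_lit 4963590834614432) (.br (nat_lit 0) (.cons (.br (nat_lit 5) (.cons (.rel (nat_lit 4303360032)) .nil)) .nil)) .leaf)) (nat_lit 4963590834615524) (.br (nat_lit 1) (.cons (.br (nat_lit 5) (.cons (.rel (nat_lit 4311746562)) .nil)) .nil)) (.node (.node (.node .leaf (nat_lit 4963590835122226) (.br (nat_lit 0) (.cons (.br (nat_lit 4) (.cons (.rel (nat_lit 1079052288)) (.cons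 (.rel (nat_lit 1079001120)) .nil))) .nil)) .leaf) (nat_lit 4963590837328649) (.br (nat_lit 0) (.cons (.br (nat_lit 1) (.cons (.rel (nat_lit 21004305)) .nil)) .nil)) .leaf) (nat_lit 4963590837329432) (.br (nat_lit 5) (.cons (.br (nat_lit 3) (.cons (.rel (nat_lit 4563664902)) (.cons (.rel (nat_lit 8858378244)) .nil))) .nil)) (.node .leaf (nat_lit 4963591890099582) (.br (nat_lit 1) (.cons (.br (nat_lit 6) (.cons (.rel (nat_lit 17197711617)) .nil)) .nil)) .leaf))) (nat_lit 4963591933405319) (.br (nat_lit 0) (.cons (.br (nat_lit 5) (.cons (.rel (nat_lit 4300228608)) .nil)) .nil)) (.node (.node (.node (.node .leaf (nat_lit 4963591933405336) (.br (nat_lit 0) (.cons (.br (nat_lit 6) (.cons (.rel (nat_lit 17188257798)) .nil)) .nil)) .leaf) (nat_lit 4963591933470855) (.br (nat_lit 1) (.cons (.br (nat_lit 0) (.cons (.rel (nat_lit 20990016)) (.cons (.rel (nat_lit 21037125)) .nil))) .nil)) .leaf) (nat_lit 4963591933499544) (.br (nat_lit 5) (.cons (.br (nat_lit 6) (.cons (.rel (nat_lit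 21475196928)) .nil)) .nil)) (.node .leaf (nat_lit 4963591933499573) (.br (nat_lit 5) (.cons (.br (nat_lit 6) (.cons (.rel (nat_lit 38654771232)) .nil)) .nil)) .leaf)) (nat_lit 4963591933962272) (.br (nat_lit 3) (.cons (.br (nat_lit 5) (.cons (.rel (nat_lit 9126811908)) .nil)) .nil)) (.node (.node .leaf (nat_lit 4963593295191422) (.br (nat_lit 0) (.cons (.br (nat_lit 1) (.cons (.rel (nat_lit 21103617)) .nil)) .nil)) .leaf) (nat_lit 4963593295191576) (.br (nat_lit 1) (.cons (.br (nat_lit 3) (.cons (.rel (nat_lit 285220881)) (.cons (.rel (nat_lit 570425412)) .nil))) .nil)) (.node .leaf (nat_lit 4963593818023448) (.br (nat_lit 3) (.cons (.br (nat_lit 4) (.cons (.rel (nat_lit 1342521408)) .nil)) .nil)) .leaf)))) (nat_lit 4963594024998944) (.br (nat_lit 0) (.cons (.br (nat_lit 1) (.cons (.rel (nat_lit 21037125)) .nil)) .nil)) (.node (.node (.node (.node (.node .leaf (nat_lit 4963594025000318) (.br (nat_lit 1) (.cons (.br (nat_lit 5) (.cons (.rel (nat_lit 4312073472)) .nil))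 .nil)) .leaf) (nat_lit 4963596625464796) (.br (nat_lit 0) (.cons (.br (nat_lit 2) (.cons (.rel (nat_lit 138418176)) .nil)) .nil)) .leaf) (nat_lit 4963597170728472) (.br (nat_lit 4) (.cons (.br (nat_lit 0) (.cons (.rel (nat_lit 1078526208)) (.cons (.rel (nat_lit 2151809028)) (.cons (.rel (nat_lit 2151679104)) .nil)))) (.cons (.br (nat_lit 0) (.cons (.rel (nat_lit 1082132544)) (.cons (.rel (nat_lit 1078198308)) (.cons (.rel (nat_lit 1082132544)) .nil)))) .nil))) (.node .leaf (nat_lit 4963597179112061) (.br (nat_lit 1) (.cons (.br (nat_lit 2) (.cons (.rel (nat_lit 153093120)) .nil)) .nil)) .leaf)) (nat_lit 4963597179112854) (.br (nat_lit 0) (.cons (.br (nat_lit 1) (.cons (.rel (nat_lit 20990016)) .nil)) .nil)) (.node (.node (.node .leaf (nat_lit 4963597179112924) (.br (nat_lit 3) (.cons (.br (nat_lit 1) (.cons (.rel (nat_lit 570491904)) (.cons (.rel (nat_lit 570442773)) (.cons (.rel (nat_lit 285245445)) .nil)))) (.cons (.br (nat_lit 1) (.cons (.rel (nat_lit 285217857))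 (.cons (.rel (nat_lit 285220881)) (.cons (.rel (nat_lit 285233193)) .nil)))) .nil))) .leaf) (nat_lit 4966881833593133) (.br (nat_lit 0) (.cons (.br (nat_lit 1) (.cons (.rel (nat_lit 21053448)) .nil)) .nil)) .leaf) (nat_lit 4966887124061660) (.br (nat_lit 1) (.cons (.br (nat_lit 2) (.cons (.rel (nat_lit 83892228)) .nil)) .nil)) (.node .leaf (nat_lit 4967542550230552) (.br (nat_lit 2) (.cons (.br (nat_lit 3) (.cons (.rel (nat_lit 402653268)) .nil)) .nil)) .leaf))) (nat_lit 4967545712481031) (.br (nat_lit 1) (.cons (.br (nat_lit 2) (.cons (.rel (nat_lit 83952672)) .nil)) .nil)) (.node (.node (.node (.node .leaf (nat_lit 4967548537865752) (.br (nat_lit 0) (.cons (.br (nat_lit 4) (.cons (.rel (nat_lit 1078199298)) .nil)) .nil)) .leaf) (nat_lit 4967892138024472) (.br (nat_lit 1) (.cons (.br (nat_lit 2) (.cons (.rel (nat_lit 83890194)) (.cons (.rel (nat_lit 83903493)) .nil))) .nil)) .leaf) (nat_lit 4968601815872265) (.br (nat_lit 0) (.cons (.br (nat_lit 2) (.cons (.rel (nat_lit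 75579396)) .nil)) .nil)) (.node .leaf (nat_lit 4968601816249097) (.br (nat_lit 1) (.cons (.br (nat_lit 3) (.cons (.rel (nat_lit 285245445)) .nil)) .nil)) .leaf)) (nat_lit 4968601816970718) (.br (nat_lit 3) (.cons (.br (nat_lit 4) (.cons (.rel (nat_lit 1610613825)) .nil)) .nil)) (.node (.node .leaf (nat_lit 4968601817470987) (.br (nat_lit 0) (.cons (.br (nat_lit 1) (.cons (.rel (nat_lit 21103617)) .nil)) .nil)) .leaf) (nat_lit 4968601818449972) (.br (nat_lit 0) (.cons (.br (nat_lit 2) (.cons (.rel (nat_lit 72482817)) .nil)) .nil)) (.node .leaf (nat_lit 4968602274436572) (.br (nat_lit 0) (.cons (.br (nat_lit 2) (.cons (.rel (nat_lit 75497616)) .nil)) .nil)) .leaf)))))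

/-- refutations 52 -/
def e52 : EX := (.node (.node (.node (.node .leaf (nat_lit 4968612519480198) (.br (nat_lit 1) (.cons (.br (nat_lit 5) (.cons (.rel (nat_lit 4311745572)) .nil)) .nil)) .leaf) (nat_lit 4968612520864045) (.br (nat_lit 1) (.cons (.br (nat_lit 2) (.cons (.rel (nat_lit 83890194)) .nil)) .nil)) (.node .leaf (nat_lit 4968612522575105) (.br (nat_lit 0) (.cons (.br (nat_lit 4) (.cons (.rel (nat_lit 1082146833)) .nil)) .nil)) .leaf)) (nat_lit 4968823203666847) (.br (nat_lit 0) (.cons (.br (nat_lit 1) (.cons (.rel (nat_lit 25428624)) .nil)) .nil)) (.node (.node .leaf (nat_lit 4972000727483649) (.br (nat_lit 1) (.cons (.br (nat_lit 2) (.cons (.rel (nat_lit 83904528)) .nil)) .nil)) .leaf) (nat_lit 4972000908937392) (.br (nat_lit 1) (.cons (.br (nat_lit 3) (.cons (.rel (nat_lit 285231204)) .nil)) .nil)) (.node .leaf (nat_lit 4972000909000836) (.br (nat_lit 1) (.cons (.br (nat_lit 3) (.cons (.rel (nat_lit 303104016)) .nil)) .nil)) .leaf))) (nat_lit 4972000909058224)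 (.br (nat_lit 2) (.cons (.br (nat_lit 4) (.cons (.rel (nat_lit 1141972992)) .nil)) .nil)) (.node (.node (.node .leaf (nat_lit 4972000911773208) (.br (nat_lit 0) (.cons (.br (nat_lit 4) (.cons (.rel (nat_lit 1078198308)) .nil)) .nil)) .leaf) (nat_lit 4972003955643254) (.br (nat_lit 1) (.cons (.br (nat_lit 2) (.cons (.rel (nat_lit 83904528)) .nil)) .nil)) (.node .leaf (nat_lit 4972006713854128) (.br (nat_lit 0) (.cons (.br (nat_lit 2) (.cons (.rel (nat_lit 75579396)) .nil)) .nil)) .leaf)) (nat_lit 4972006716689944) (.br (nat_lit 4) (.cons (.br (nat_lit 3) (.cons (.rel (nat_lit 1343229960)) (.cons (.rel (nat_lit 2415923268)) .nil))) .nil)) (.node (.node .leaf (nat_lit 4972272754426742) (.br (nat_lit 1) (.cons (.br (nat_lit 4) (.cons (.rel (nat_lit 1090536576)) .nil)) .nil)) .leaf) (nat_lit 4972272757196852) (.br (nat_lit 1) (.cons (.br (nat_lit 3) (.cons (.rel (nat_lit 287588361)) .nil)) .nil)) .leaf)))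

/-- refutations 53 -/
def e53 : EX := (.node (.node (.node (.node (.node .leaf (nat_lit 4972825017270432) (.br (nat_lit 0) (.cons (.br (nat_lit 1) (.cons (.rel (nat_lit 21041184)) .nil)) .nil)) .leaf) (nat_lit 4972825443530904) (.br (nat_lit 1) (.cons (.br (nat_lit 2) (.cons (.rel (nat_lit 83887170)) (.cons (.rel (nat_lit 84049920)) (.cons (.rel (nat_lit 83886180)) (.cons (.rel (nat_lit 83910720)) .nil))))) .nil)) .leaf) (nat_lit 4972825443531662) (.br (nat_lit 0) (.cons (.br (nat_lit 3) (.cons (.rel (nat_lit 541102080)) .nil)) .nil)) (.node (.node .leaf (nat_lit 4972825443553436) (.br (nat_lit 0) (.cons (.br (nat_lit 4) (.cons (.rel (nat_lit 1078198308)) .nil)) .nil)) .leaf) (nat_lit 4972826114940310) (.br (nat_lit 0) (.cons (.br (nat_lit 5) (.cons (.rel (nat_lit 4299194913)) .nil)) .nil)) .leaf)) (nat_lit 4972827997885701) (.br (nat_lit 2) (.cons (.br (nat_lit 3) (.cons (.rel (nat_lit 402671616)) .nil)) .nil)) (.node (.node (.node .leaf (nat_lit 4972830180459777)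 (.br (nat_lit 4) (.cons (.br (nat_lit 0) (.cons (.rel (nat_lit 1078199298)) (.cons (.rel (nat_lit 1082146833)) .nil))) .nil)) .leaf) (nat_lit 4973074123630044) (.br (nat_lit 2) (.cons (.br (nat_lit 3) (.cons (.rel (nat_lit 336724992)) .nil)) .nil)) .leaf) (nat_lit 4973074125114844) (.br (nat_lit 2) (.cons (.br (nat_lit 0) (.cons (.rel (nat_lit 71632896)) (.cons (.rel (nat_lit 75579396)) .nil))) .nil)) (.node (.node .leaf (nat_lit 4973257709800924) (.br (nat_lit 3) (.cons (.br (nat_lit 5) (.cons (.rel (nat_lit 8858501121)) .nil)) .nil)) .leaf) (nat_lit 4973259569338549) (.br (nat_lit 3) (.cons (.br (nat_lit 5) (.cons (.rel (nat_lit 4564451400)) .nil)) .nil)) .leaf))) (nat_lit 4973259569339270) (.br (nat_lit 1) (.cons (.br (nat_lit 5) (.cons (.br (nat_lit 0) (.cons (.rel (nat_lit 20975682)) (.cons (.rel (nat_lit 4299423762)) .nil))) .nil)) .nil)) (.node (.node (.node (.node .leaf (nat_lit 4973259571130420) (.br (nat_lit 0) (.cons (.br (nat_lit 1) (.cons (.rel (nat_lit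 38011920)) .nil)) .nil)) .leaf) (nat_lit 4973259572071900) (.br (nat_lit 2) (.cons (.br (nat_lit 5) (.cons (.rel (nat_lit 8657109000)) .nil)) .nil)) .leaf) (nat_lit 4973259572309224) (.br (nat_lit 0) (.cons (.br (nat_lit 2) (.cons (.rel (nat_lit 71303682)) .nil)) .nil)) (.node (.node .leaf (nat_lit 4973895849410612) (.br (nat_lit 0) (.cons (.br (nat_lit 1) (.cons (.rel (nat_lit 38813697)) .nil)) .nil)) .leaf) (nat_lit 4973895849411446) (.br (nat_lit 0) (.cons (.br (nat_lit 6) (.cons (.rel (nat_lit 17185210368)) .nil)) .nil)) .leaf)) (nat_lit 4973895852182390) (.br (nat_lit 1) (.cons (.br (nat_lit 2) (.cons (.rel (nat_lit 83887170)) .nil)) .nil)) (.node (.node (.node .leaf (nat_lit 4973899710932354) (.br (nat_lit 0) (.cons (.br (nat_lit 3) (.cons (.rel (nat_lit 541102080)) .nil)) .nil)) .leaf) (nat_lit 4974107588058588) (.br (nat_lit 0) (.cons (.br (nat_lit 3) (.cons (.rel (nat_lit 276848640)) .nil)) .nil)) .leaf) (nat_lit 4974108487977862) (.br (nat_lit 1) (.cons (.br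 (nat_lit 3) (.cons (.rel (nat_lit 553664772)) .nil)) .nil)) (.node (.node .leaf (nat_lit 4974110703082124) (.br (nat_lit 3) (.cons (.br (nat_lit 5) (.cons (.rel (nat_lit 4563436053)) .nil)) .nil)) .leaf) (nat_lit 4974110705405404) (.br (nat_lit 5) (.cons (.br (nat_lit 0) (.cons (.rel (nat_lit 4300210260)) (.cons (.rel (nat_lit 4300276752)) .nil))) .nil)) .leaf))))

/-- refutations 55 -/
def e55 : EX := (.node (.node (.node (.node (.node .leaf (nat_lit 5278749994251017) (.br (nat_lit 0) (.cons (.br (nat_lit 1) (.cons (.rel (nat_lit 27295746)) .nil)) .nil)) .leaf) (nat_lit 5279224955663836) (.br (nat_lit 2) (.cons (.br (nat_lit 3) (.cons (.rel (nat_lit 335822868)) .nil)) .nil)) .leaf) (nat_lit 5280284354394264) (.br (nat_lit 0) (.cons (.br (nat_lit 1) (.cons (.rel (nat_lit 20992005)) .nil)) .nil)) (.node (.node .leaf (nat_lit 5280284357162460) (.br (nat_lit 2) (.cons (.br (nat_lit 0) (.cons (.rel (nat_lit 71632896)) (.cons (.rel (nat_lit 142606593)) .nil))) .nil)) .leaf)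 (nat_lit 5280284572498072) (.br (nat_lit 0) (.cons (.br (nat_lit 2) (.cons (.rel (nat_lit 142606593)) .nil)) .nil)) .leaf)) (nat_lit 5280284575563030) (.br (nat_lit 1) (.cons (.br (nat_lit 3) (.cons (.rel (nat_lit 285229122)) .nil)) .nil)) (.node (.node (.node .leaf (nat_lit 5280284585298175) (.br (nat_lit 0) (.cons (.br (nat_lit 2) (.cons (.rel (nat_lit 71632896)) .nil)) .nil)) .leaf) (nat_lit 5280284587849180) (.br (nat_lit 2) (.cons (.br (nat_lit 0) (.cons (.rel (nat_lit 71632896)) (.cons (.rel (nat_lit 71303682)) .nil))) .nil)) .leaf) (nat_lit 5280285402984604) (.br (nat_lit 0) (.cons (.br (nat_lit 5) (.cons (.rel (nat_lit 4299231744)) (.cons (.rel (nat_lit 4301259012)) .nil))) .nil)) (.node (.node .leaf (nat_lit 5280285403187455) (.br (nat_lit 0) (.cons (.br (nat_lit 3) (.cons (.rel (nat_lit 273678342)) .nil)) .nil)) .leaf) (nat_lit 5280285404142379) (.br (nat_lit 0) (.cons (.br (nat_lit 5) (.cons (.rel (nat_lit 8594133093)) .nil)) .nil)) .leaf))) (nat_lit 5280285404764810)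 (.br (nat_lit 4) (.cons (.br (nat_lit 2) (.cons (.rel (nat_lit 1141899273)) (.cons (.rel (nat_lit 1141145601)) .nil))) .nil)) (.node (.node (.node (.node .leaf (nat_lit 5280285405484384) (.br (nat_lit 5) (.cons (.br (nat_lit 6) (.cons (.rel (nat_lit 25769886720)) .nil)) .nil)) .leaf) (nat_lit 5280286982501783) (.br (nat_lit 0) (.cons (.br (nat_lit 2) (.cons (.rel (nat_lit 71894352)) .nil)) .nil)) .leaf) (nat_lit 5280286982796764) (.br (nat_lit 1) (.cons (.br (nat_lit 4) (.cons (.rel (nat_lit 1090520073)) .nil)) .nil)) (.node (.node .leaf (nat_lit 5280286982999301) (.br (nat_lit 1) (.cons (.br (nat_lit 3) (.cons (.rel (nat_lit 285213846)) (.cons (.rel (nat_lit 285220881)) .nil))) .nil)) .leaf) (nat_lit 5280288150137009) (.br (nat_lit 0) (.cons (.br (nat_lit 1) (.cons (.rel (nat_lit 21041184)) .nil)) .nil)) .leaf)) (nat_lit 5280288150753337) (.br (nat_lit 0) (.cons (.br (nat_lit 1) (.cons (.rel (nat_lit 20992005)) .nil)) .nil)) (.node (.node (.node .leaf (nat_lit 5280288151411499)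 (.br (nat_lit 1) (.cons (.br (nat_lit 2) (.cons (.rel (nat_lit 101713920)) .nil)) .nil)) .leaf) (nat_lit 5280288151767217) (.br (nat_lit 0) (.cons (.br (nat_lit 1) (.cons (.rel (nat_lit 21053448)) .nil)) .nil)) .leaf) (nat_lit 5280288152753690) (.br (nat_lit 1) (.cons (.br (nat_lit 2) (.cons (.rel (nat_lit 83892228)) .nil)) .nil)) (.node (.node .leaf (nat_lit 5280288153007580) (.br (nat_lit 4) (.cons (.br (nat_lit 5) (.cons (.rel (nat_lit 5369038848)) .nil)) .nil)) .leaf) (nat_lit 5280290774138367) (.br (nat_lit 1) (.cons (.br (nat_lit 2) (.cons (.rel (nat_lit 83910720)) .nil)) .nil)) .leaf))))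

/-- refutations 56 -/
def e56 : EX := (.node (.node (.node .leaf (nat_lit 5283545203622670) (.br (nat_lit 0) (.cons (.br (nat_lit 1) (.cons (.rel (nat_lit 20975682)) .nil)) .nil)) .leaf) (nat_lit 5283545692763612) (.br (nat_lit 1) (.cons (.br (nat_lit 5) (.cons (.rel (nat_lit 4311744537)) .nil)) .nil)) (.node .leaf (nat_lit 5284367320595367) (.br (nat_lit 1) (.cons (.br (nat_lit 3) (.cons (.rel (nat_lit 570425412)) .nil)) .nil)) .leaf)) (nat_lit 5284370448118410) (.br (nat_lit 1) (.cons (.br (nat_lit 2) (.cons (.rel (nat_lit 83904528)) .nil)) .nil)) (.node (.node .leaf (nat_lit 5288445010360472) (.br (nat_lit 0) (.cons (.br (nat_lit 1) (.cons (.rel (nat_lit 20980740)) .nil)) .nil)) .leaf) (nat_lit 5288496565318282) (.br (nat_lit 1) (.cons (.br (nat_lit 2) (.cons (.rel (nat_lit 83886180)) .nil)) .nil)) .leaf))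

/-- refutations 57 -/
def e57 : EX := (.node (.node (.node .leaf (nat_lit 5049237539323256) (.br (nat_lit 0) (.cons (.br (nat_lit 1) (.cons (.rel (nat_lit 21004305)) .nil)) .nil)) .leaf) (nat_lit 5049238063611256) (.br (nat_lit 0) (.cons (.br (nat_lit 1) (.cons (.rel (nat_lit 20993040)) .nil)) .nil)) (.node .leaf (nat_lit 5051594759142876) (.br (nat_lit 0) (.cons (.br (nat_lit 2) (.cons (.rel (nat_lit 71303682)) .nil)) .nil)) .leaf)) (nat_lit 5051597913259484) (.br (nat_lit 1) (.cons (.br (nat_lit 4) (.cons (.rel (nat_lit 1090519074)) .nil)) .nil)) (.node (.node .leaf (nat_lit 5055706512343977) (.br (nat_lit 1) (.cons (.br (nat_lit 3) (.cons (.rel (nat_lit 553648449)) .nil)) .nil)) .leaf) (nat_lit 5062071653876649) (.br (nat_lit 1) (.cons (.br (nat_lit 3) (.cons (.rel (nat_lit 570425412)) .nil)) .nil)) .leaf))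

/-- refutations 58 -/
def e58 : EX := (.node (.node (.node (.node (.node (.node .leaf (nat_lit 5401935242856475) (.br (nat_lit 1) (.cons (.br (nat_lit 2) (.cons (.rel (nat_lit 83887170)) .nil)) .nil)) .leaf) (nat_lit 5401935242856629) (.br (nat_lit 3) (.cons (.br (nat_lit 4) (.cons (.rel (nat_lit 1342441473)) .nil)) .nil)) .leaf) (nat_lit 5401935244764636) (.br (nat_lit 3) (.cons (.br (nat_lit 4) (.cons (.rel (nat_lit 1342441473)) (.cons (.rel (nat_lit 1343225937)) .nil))) .nil)) (.node (.node .leaf (nat_lit 5401935749058741) (.br (nat_lit 3) (.cons (.br (nat_lit 4) (.cons (.rel (nat_lit 1343225937)) .nil)) .nil)) .leaf) (nat_lit 5401935749059940) (.br (nat_lit 0) (.cons (.br (nat_lit 5) (.cons (.rel (nat_lit 4300275717)) .nil)) .nil)) .leaf)) (nat_lit 5401935749060060) (.br (nat_lit 0) (.cons (.br (nat_lit 3) (.cons (.rel (nat_lit 273022992)) .nil)) .nil)) (.node (.node (.node .leaf (nat_lit 5401937765540502) (.br (nat_lit 3) (.cons (.br (nat_lit 5) (.cons (.rel (nat_lit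 8858387520)) (.cons (.rel (nat_lit 4831838289)) (.cons (.rel (nat_lit 4563664902)) .nil)))) .nil)) .leaf) (nat_lit 5401937765541340) (.br (nat_lit 0) (.cons (.br (nat_lit 4) (.cons (.rel (nat_lit 1078267968)) .nil)) .nil)) .leaf) (nat_lit 5401937766520284) (.br (nat_lit 2) (.cons (.br (nat_lit 4) (.cons (.rel (nat_lit 1141114002)) (.cons (.rel (nat_lit 1140855300)) .nil))) (.cons (.br (nat_lit 4) (.cons (.rel (nat_lit 2214593616)) (.cons (.rel (nat_lit 1141179456)) .nil))) .nil))) (.node .leaf (nat_lit 5401938773153124) (.br (nat_lit 4) (.cons (.br (nat_lit 0) (.cons (.rel (nat_lit 1079001120)) (.cons (.rel (nat_lit 1082195976)) .nil))) .nil)) .leaf))) (nat_lit 5401938773153244) (.br (nat_lit 4) (.cons (.br (nat_lit 3) (.cons (.rel (nat_lit 2415989760)) (.cons (.rel (nat_lit 2415935568)) .nil))) .nil)) (.node (.node (.node (.node .leaf (nat_lit 5401940777051612) (.br (nat_lit 3) (.cons (.br (nat_lit 4) (.cons (.rel (nat_lit 1342441473)) .nil)) .nil)) .leaf) (nat_lit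 5401940778030436) (.br (nat_lit 0) (.cons (.br (nat_lit 4) (.cons (.rel (nat_lit 1079001120)) .nil)) .nil)) .leaf) (nat_lit 5401940778030556) (.br (nat_lit 3) (.cons (.br (nat_lit 5) (.cons (.rel (nat_lit 4564467714)) (.cons (.rel (nat_lit 8858501121)) (.cons (.rel (nat_lit 8858387520)) .nil)))) .nil)) (.node (.node .leaf (nat_lit 5402966035007669) (.br (nat_lit 5) (.cons (.br (nat_lit 0) (.cons (.rel (nat_lit 4299489408)) (.cons (.rel (nat_lit 4299231744)) .nil))) .nil)) .leaf) (nat_lit 5402966037894500) (.br (nat_lit 0) (.cons (.br (nat_lit 4) (.cons (.rel (nat_lit 1079052288)) .nil)) .nil)) .leaf)) (nat_lit 5402966541211100) (.br (nat_lit 0) (.cons (.br (nat_lit 5) (.cons (.rel (nat_lit 4299423762)) .nil)) .nil)) (.node (.node (.node .leaf (nat_lit 5402968969713116) (.br (nat_lit 2) (.cons (.br (nat_lit 3) (.cons (.rel (nat_lit 335872002)) .nil)) .nil)) .leaf) (nat_lit 5402969565304164) (.br (nat_lit 3) (.cons (.br (nat_lit 6) (.cons (.rel (nat_lit 17448599553)) .nil))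 .nil)) .leaf) (nat_lit 5402969565304284) (.br (nat_lit 5) (.cons (.br (nat_lit 3) (.cons (.rel (nat_lit 4564467714)) (.cons (.rel (nat_lit 4563665937)) .nil))) .nil)) (.node .leaf (nat_lit 5402971567294645) (.br (nat_lit 4) (.cons (.br (nat_lit 5) (.cons (.rel (nat_lit 9663774720)) .nil)) .nil)) .leaf)))) (nat_lit 5402971567295844) (.br (nat_lit 0) (.cons (.br (nat_lit 4) (.cons (.rel (nat_lit 1079001120)) .nil)) .nil)) (.node (.node (.node (.node (.node .leaf (nat_lit 5402971570180758) (.br (nat_lit 3) (.cons (.br (nat_lit 5) (.cons (.rel (nat_lit 4831838289)) .nil)) .nil)) .leaf) (nat_lit 5402971570181476) (.br (nat_lit 0) (.cons (.br (nat_lit 6) (.cons (.rel (nat_lit 17184407556)) (.cons (.rel (nat_lit 17188257798)) (.cons (.rel (nat_lit 34363932681)) .nil)))) .nil)) .leaf) (nat_lit 5402971570181596) (.br (nat_lit 0) (.cons (.br (nat_lit 4) (.cons (.rel (nat_lit 1082134533)) (.cons (.rel (nat_lit 2151679104)) .nil))) .nil)) (.node (.node .leaf (nat_lit 5403218149119452)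 (.br (nat_lit 0) (.cons (.br (nat_lit 2) (.cons (.rel (nat_lit 142606593)) .nil)) .nil)) .leaf) (nat_lit 5403218670520501) (.br (nat_lit 4) (.cons (.br (nat_lit 0) (.cons (.rel (nat_lit 1078199298)) (.cons (.rel (nat_lit 2151679104)) .nil))) .nil)) .leaf)) (nat_lit 5403218673407452) (.br (nat_lit 0) (.cons (.br (nat_lit 3) (.cons (.rel (nat_lit 273022992)) .nil)) .nil)) (.node (.node (.node .leaf (nat_lit 5403220675397813) (.br (nat_lit 3) (.cons (.br (nat_lit 4) (.cons (.rel (nat_lit 1343225937)) .nil)) .nil)) .leaf) (nat_lit 5406685476687204) (.br (nat_lit 0) (.cons (.br (nat_lit 4) (.cons (.rel (nat_lit 1078199298)) .nil)) .nil)) .leaf) (nat_lit 5406685478592573) (.br (nat_lit 4) (.cons (.br (nat_lit 5) (.cons (.rel (nat_lit 5368987680)) .nil)) .nil)) (.node .leaf (nat_lit 5406685479571637) (.br (nat_lit 0) (.cons (.br (nat_lit 5) (.cons (.rel (nat_lit 4299231744)) .nil)) .nil)) .leaf))) (nat_lit 5406689004095669) (.br (nat_lit 3) (.cons (.br (nat_lit 5) (.cons (.rel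 (nat_lit 9126806850)) .nil)) .nil)) (.node (.node (.node (.node .leaf (nat_lit 5406689004096890) (.br (nat_lit 2) (.cons (.br (nat_lit 3) (.cons (.rel (nat_lit 336597057)) .nil)) .nil)) .leaf) (nat_lit 5406689006981301) (.br (nat_lit 3) (.cons (.br (nat_lit 5) (.cons (.rel (nat_lit 4564451400)) (.cons (.rel (nat_lit 4563664902)) .nil))) .nil)) .leaf) (nat_lit 5406689006981782) (.br (nat_lit 4) (.cons (.br (nat_lit 5) (.cons (.rel (nat_lit 5369038848)) .nil)) .nil)) (.node (.node .leaf (nat_lit 5406689006982500) (.br (nat_lit 5) (.cons (.br (nat_lit 4) (.cons (.rel (nat_lit 6442451973)) (.cons (.rel (nat_lit 5368987680)) .nil))) .nil)) .leaf) (nat_lit 5406689006982620) (.br (nat_lit 5) (.cons (.br (nat_lit 3) (.cons (.rel (nat_lit 8858387520)) (.cons (.rel (nat_lit 8858387520)) (.cons (.rel (nat_lit 4563665937)) .nil)))) (.cons (.br (nat_lit 4) (.cons (.rel (nat_lit 5369888769)) (.cons (.rel (nat_lit 5368975380)) (.cons (.rel (nat_lit 5369775168)) (.cons (.rel (nat_lit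 5369888769)) .nil))))) .nil))) .leaf)) (nat_lit 5406691010879669) (.br (nat_lit 0) (.cons (.br (nat_lit 6) (.cons (.rel (nat_lit 17188257798)) .nil)) .nil)) (.node (.node (.node .leaf (nat_lit 5406691011858613) (.br (nat_lit 0) (.cons (.br (nat_lit 6) (.cons (.rel (nat_lit 17185210368)) .nil)) .nil)) .leaf) (nat_lit 5406691011859094) (.br (nat_lit 5) (.cons (.br (nat_lit 6) (.cons (.rel (nat_lit 38654710788)) .nil)) .nil)) .leaf) (nat_lit 5406691011859334) (.br (nat_lit 4) (.cons (.br (nat_lit 3) (.cons (.rel (nat_lit 2684354898)) (.cons (.rel (nat_lit 1344274689)) .nil))) .nil)) (.node .leaf (nat_lit 5406691011859932) (.br (nat_lit 6) (.cons (.br (nat_lit 4) (.cons (.rel (nat_lit 35433484290)) (.cons (.rel (nat_lit 35433545733)) .nil))) .nil)) .leaf)))))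

/-- refutations 59 -/
def e59 : EX := (.node (.node (.node (.node (.node .leaf (nat_lit 5411553648842084) (.br (nat_lit 3) (.cons (.br (nat_lit 5) (.cons (.rel (nat_lit 4563412488)) .nil)) .nil)) .leaf) (nat_lit 5411562242970262) (.br (nat_lit 4) (.cons (.br (nat_lit 2) (.cons (.rel (nat_lit 2214592581)) (.cons (.rel (nat_lit 1140867600)) .nil))) .nil)) (.node .leaf (nat_lit 5412629571702845) (.br (nat_lit 3) (.cons (.br (nat_lit 5) (.cons (.rel (nat_lit 8858435664)) .nil)) .nil)) .leaf)) (nat_lit 5412632646127677) (.br (nat_lit 0) (.cons (.br (nat_lit 1) (.cons (.rel (nat_lit 20975682)) .nil)) .nil)) (.node (.node .leaf (nat_lit 5412634936217661) (.br (nat_lit 4) (.cons (.br (nat_lit 5) (.cons (.rel (nat_lit 10737418497)) .nil)) .nil)) .leaf) (nat_lit 5412878587531926) (.br (nat_lit 1) (.cons (.br (nat_lit 3) (.cons (.rel (nat_lit 285345792)) .nil)) .nil)) .leaf)) (nat_lit 5412878819527558) (.br (nat_lit 0) (.cons (.br (nat_lit 4) (.cons (.rel (nat_lit 1078199298))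 .nil)) .nil)) (.node (.node (.node .leaf (nat_lit 5412882346937222) (.br (nat_lit 3) (.cons (.br (nat_lit 5) (.cons (.rel (nat_lit 8858390544)) .nil)) .nil)) .leaf) (nat_lit 5413909613584445) (.br (nat_lit 0) (.cons (.br (nat_lit 4) (.cons (.rel (nat_lit 1078198308)) .nil)) .nil)) .leaf) (nat_lit 5413909613585286) (.br (nat_lit 4) (.cons (.br (nat_lit 5) (.cons (.rel (nat_lit 6442598400)) .nil)) .nil)) (.node (.node .leaf (nat_lit 5413910117879989) (.br (nat_lit 0) (.cons (.br (nat_lit 2) (.cons (.rel (nat_lit 71569428)) .nil)) .nil)) .leaf) (nat_lit 5413910117880710) (.br (nat_lit 3) (.cons (.br (nat_lit 4) (.cons (.rel (nat_lit 2415989760)) .nil)) .nil)) .leaf))) (nat_lit 5413910117881188) (.br (nat_lit 0) (.cons (.br (nat_lit 3) (.cons (.rel (nat_lit 273679377)) .nil)) .nil)) (.node (.node (.node (.node .leaf (nat_lit 5413910117881308) (.br (nat_lit 0) (.cons (.br (nat_lit 3) (.cons (.rel (nat_lit 272908356)) .nil)) .nil)) .leaf) (nat_lit 5413912134362468) (.br (nat_lit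 0) (.cons (.br (nat_lit 4) (.cons (.rel (nat_lit 1078985796)) .nil)) .nil)) (.node .leaf (nat_lit 5413913139088142) (.br (nat_lit 0) (.cons (.br (nat_lit 4) (.cons (.rel (nat_lit 1082132544)) .nil)) .nil)) .leaf)) (nat_lit 5413913141973173) (.br (nat_lit 3) (.cons (.br (nat_lit 5) (.cons (.rel (nat_lit 4563664902)) .nil)) .nil)) (.node (.node .leaf (nat_lit 5413913141974372) (.br (nat_lit 3) (.cons (.br (nat_lit 4) (.cons (.rel (nat_lit 1343229960)) .nil)) .nil)) .leaf) (nat_lit 5413913141974492) (.br (nat_lit 3) (.cons (.br (nat_lit 4) (.cons (.br (nat_lit 6) (.cons (.rel (nat_lit 35433545733)) .nil)) .nil)) .nil)) .leaf)) (nat_lit 5413915144284287) (.br (nat_lit 1) (.cons (.br (nat_lit 2) (.cons (.rel (nat_lit 83886180)) .nil)) .nil)) (.node (.node (.node .leaf (nat_lit 5413915145872022) (.br (nat_lit 0) (.cons (.br (nat_lit 4) (.cons (.rel (nat_lit 1077953088)) .nil)) .nil)) .leaf) (nat_lit 5413915146850485) (.br (nat_lit 0) (.cons (.br (nat_lit 5) (.cons (.rel (nat_lit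 4303372296)) .nil)) .nil)) .leaf) (nat_lit 5413915146850966) (.br (nat_lit 4) (.cons (.br (nat_lit 5) (.cons (.rel (nat_lit 10737418497)) (.cons (.rel (nat_lit 9663676437)) .nil))) .nil)) (.node (.node .leaf (nat_lit 5413915146851684) (.br (nat_lit 4) (.cons (.br (nat_lit 5) (.cons (.rel (nat_lit 10737418497)) (.cons (.rel (nat_lit 5368987680)) (.cons (.rel (nat_lit 9663676437)) .nil)))) (.cons (.br (nat_lit 6) (.cons (.rel (nat_lit 18253611648)) (.cons (.rel (nat_lit 18254725137)) .nil))) .nil))) .leaf) (nat_lit 5413915146851804) (.br (nat_lit 3) (.cons (.br (nat_lit 5) (.cons (.rel (nat_lit 8858501121)) .nil)) .nil)) .leaf))))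

/-- refutations 60 -/
def e60 : EX := (.node .leaf (nat_lit 5372366367235548) (.br (nat_lit 0) (.cons (.br (nat_lit 1) (.cons (.rel (nat_lit 20980740)) .nil)) .nil)) .leaf)

/-- refutations 61 -/
def e61 : EX := (.node (.node (.node .leaf (nat_lit 5455777368179969) (.br (nat_lit 0) (.cons (.br (nat_lit 4) (.cons (.rel (nat_lit 2151679104)) .nil)) .nil)) .leaf) (nat_lit 5455783243009560) (.br (nat_lit 0) (.cons (.br (nat_lit 1) (.cons (.rel (nat_lit 20993040)) (.cons (.rel (nat_lit 20990016)) .nil))) (.cons (.br (nat_lit 1) (.cons (.rel (nat_lit 21041184)) (.cons (.rel (nat_lit 25170192)) .nil))) .nil))) (.node .leaf (nat_lit 5459038828219174) (.br (nat_lit 4) (.cons (.br (nat_lit 6) (.cons (.rel (nat_lit 18253874181)) .nil)) .nil)) .leaf)) (nat_lit 5460129747108016) (.br (nat_lit 2) (.cons (.br (nat_lit 3) (.cons (.rel (nat_lit 335810568)) .nil)) .nil)) (.node (.node .leaf (nat_lit 5465406234675252) (.br (nat_lit 0) (.cons (.br (nat_lit 2) (.cons (.rel (nat_lit 72417360))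 .nil)) .nil)) .leaf) (nat_lit 5465618716897467) (.br (nat_lit 0) (.cons (.br (nat_lit 2) (.cons (.rel (nat_lit 75497616)) .nil)) .nil)) .leaf))

/-- refutations 62 -/
def e62 : EX := (.node (.node (.node (.node (.node .leaf (nat_lit 11085276252846855) (.br (nat_lit 2) (.cons (.br (nat_lit 4) (.cons (.rel (nat_lit 2214659073)) .nil)) .nil)) .leaf) (nat_lit 11085276252847581) (.br (nat_lit 0) (.cons (.br (nat_lit 4) (.cons (.rel (nat_lit 1082132544)) .nil)) .nil)) .leaf) (nat_lit 11085276253597148) (.br (nat_lit 0) (.cons (.br (nat_lit 5) (.cons (.rel (nat_lit 4303360032)) .nil)) .nil)) (.node .leaf (nat_lit 11085276253851824) (.br (nat_lit 2) (.cons (.br (nat_lit 4) (.cons (.rel (nat_lit 1141179456)) .nil)) .nil)) .leaf)) (nat_lit 11085276441588392) (.br (nat_lit 0) (.cons (.br (nat_lit 1) (.cons (.rel (nat_lit 22086912)) .nil)) .nil)) (.node (.node .leaf (nat_lit 11085276441589212) (.br (nat_lit 0) (.cons (.br (nat_lit 1) (.cons (.rel (nat_lit 38011920)) .nil)) .nil))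 .leaf) (nat_lit 11085282527524316) (.br (nat_lit 0) (.cons (.br (nat_lit 1) (.cons (.rel (nat_lit 20990016)) .nil)) .nil)) (.node .leaf (nat_lit 11085282527526365) (.br (nat_lit 0) (.cons (.br (nat_lit 1) (.cons (.rel (nat_lit 20990016)) .nil)) .nil)) .leaf))) (nat_lit 11088755175742347) (.br (nat_lit 0) (.cons (.br (nat_lit 1) (.cons (.rel (nat_lit 38010885)) .nil)) .nil)) (.node (.node (.node .leaf (nat_lit 11088969924107540) (.br (nat_lit 0) (.cons (.br (nat_lit 1) (.cons (.rel (nat_lit 20990016)) .nil)) .nil)) .leaf) (nat_lit 11088969924670940) (.br (nat_lit 1) (.cons (.br (nat_lit 5) (.cons (.rel (nat_lit 4311815232)) .nil)) .nil)) (.node .leaf (nat_lit 11088969927259019) (.br (nat_lit 0) (.cons (.br (nat_lit 2) (.cons (.rel (nat_lit 75497616)) .nil)) .nil)) .leaf)) (nat_lit 11088969927281540) (.br (nat_lit 1) (.cons (.br (nat_lit 3) (.cons (.rel (nat_lit 285220881)) .nil)) .nil)) (.node (.node .leaf (nat_lit 11088971077591822) (.br (nat_lit 0) (.cons (.br (nat_lit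 1) (.cons (.rel (nat_lit 20993040)) .nil)) .nil)) .leaf) (nat_lit 11088973301136142) (.br (nat_lit 0) (.cons (.br (nat_lit 1) (.cons (.rel (nat_lit 25167168)) .nil)) .nil)) (.node .leaf (nat_lit 11088976199400106) (.br (nat_lit 0) (.cons (.br (nat_lit 4) (.cons (.rel (nat_lit 2155872582)) .nil)) .nil)) .leaf))))

/-- refutations 63 -/
def e63 : EX := (.node (.node (.node .leaf (nat_lit 11089622759750314) (.br (nat_lit 2) (.cons (.br (nat_lit 4) (.cons (.rel (nat_lit 1207967760)) .nil)) .nil)) .leaf) (nat_lit 11089625469270698) (.br (nat_lit 3) (.cons (.br (nat_lit 5) (.cons (.rel (nat_lit 4563485184)) .nil)) .nil)) .leaf) (nat_lit 11091026682129884) (.br (nat_lit 1) (.cons (.br (nat_lit 2) (.cons (.rel (nat_lit 83910720)) .nil)) .nil)) (.node .leaf (nat_lit 11093880259328036) (.br (nat_lit 0) (.cons (.br (nat_lit 1) (.cons (.rel (nat_lit 20992005)) .nil)) .nil)) .leaf))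

/-- refutations 64 -/
def e64 : EX := (.node (.node (.node (.node .leaf (nat_lit 11100930874307186) (.br (nat_lit 0) (.cons (.br (nat_lit 1) (.cons (.rel (nat_lit 20975682)) .nil)) .nil)) .leaf) (nat_lit 11100935703609626) (.br (nat_lit 4) (.cons (.br (nat_lit 0) (.cons (.rel (nat_lit 2151809028)) (.cons (.rel (nat_lit 1082195976)) .nil))) .nil)) .leaf) (nat_lit 11100935703610844) (.br (nat_lit 0) (.cons (.br (nat_lit 1) (.cons (.rel (nat_lit 21053448)) .nil)) .nil)) (.node .leaf (nat_lit 11100938538959529) (.br (nat_lit 1) (.cons (.br (nat_lit 4) (.cons (.rel (nat_lit 1090605057)) .nil)) .nil)) .leaf)) (nat_lit 11100938538960348) (.br (nat_lit 1) (.cons (.br (nat_lit 3) (.cons (.rel (nat_lit 302253060)) .nil)) .nil)) (.node (.node (.node .leaf (nat_lit 11100938941612713) (.br (nat_lit 0) (.cons (.br (nat_lit 2) (.cons (.rel (nat_lit 71566404)) .nil)) .nil)) .leaf) (nat_lit 11102866127829044) (.br (nat_lit 0) (.cons (.br (nat_lit 3) (.cons (.rel (nat_lit 272634369))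 .nil)) .nil)) .leaf) (nat_lit 11107421104227804) (.br (nat_lit 3) (.cons (.br (nat_lit 4) (.cons (.rel (nat_lit 1342308864)) (.cons (.rel (nat_lit 1343242260)) .nil))) .nil)) (.node .leaf (nat_lit 11107421104973829) (.br (nat_lit 2) (.cons (.br (nat_lit 3) (.cons (.rel (nat_lit 335822868)) .nil)) .nil)) .leaf)))

/-- refutations 65 -/
def e65 : EX := (.node (.node (.node (.node .leaf (nat_lit 11108272567263914) (.br (nat_lit 0) (.cons (.br (nat_lit 1) (.cons (.rel (nat_lit 22020420)) .nil)) .nil)) .leaf) (nat_lit 11111419181908649) (.br (nat_lit 0) (.cons (.br (nat_lit 2) (.cons (.rel (nat_lit 71303682)) .nil)) .nil)) .leaf) (nat_lit 11111419181909468) (.br (nat_lit 3) (.cons (.br (nat_lit 4) (.cons (.rel (nat_lit 1343243298)) .nil)) .nil)) (.node (.node .leaf (nat_lit 11111421421666985) (.br (nat_lit 2) (.cons (.br (nat_lit 5) (.cons (.rel (nat_lit 4362346500)) .nil)) .nil)) .leaf) (nat_lit 11111426848580835) (.br (nat_lit 0) (.cons (.br (nat_lit 1) (.cons (.rel (nat_lit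 20990016)) .nil)) .nil)) .leaf)) (nat_lit 11111426849096361) (.br (nat_lit 0) (.cons (.br (nat_lit 4) (.cons (.rel (nat_lit 2151809028)) .nil)) .nil)) (.node (.node (.node .leaf (nat_lit 11111426849097180) (.br (nat_lit 3) (.cons (.br (nat_lit 4) (.cons (.rel (nat_lit 2415935568)) .nil)) .nil)) .leaf) (nat_lit 11113565556613171) (.br (nat_lit 0) (.cons (.br (nat_lit 1) (.cons (.br (nat_lit 3) (.cons (.rel (nat_lit 570425412)) .nil)) .nil)) .nil)) .leaf) (nat_lit 11113575192576681) (.br (nat_lit 3) (.cons (.br (nat_lit 4) (.cons (.rel (nat_lit 1343242260)) .nil)) .nil)) (.node .leaf (nat_lit 11113780822525404) (.br (nat_lit 0) (.cons (.br (nat_lit 2) (.cons (.rel (nat_lit 142606593)) .nil)) .nil)) .leaf)))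

/-- refutations 66 -/
def e66 : EX := (.node (.node (.node (.node (.node (.node (.node .leaf (nat_lit 11118524651015644) (.br (nat_lit 0) (.cons (.br (nat_lit 2) (.cons (.rel (nat_lit 72372240)) .nil)) .nil)) .leaf) (nat_lit 11118536487414641) (.br (nat_lit 0) (.cons (.br (nat_lit 1) (.cons (.rel (nat_lit 21041184)) .nil)) .nil)) .leaf) (nat_lit 11118536488722734) (.br (nat_lit 1) (.cons (.br (nat_lit 6) (.cons (.rel (nat_lit 17196666888)) .nil)) .nil)) (.node (.node .leaf (nat_lit 11119649933080028) (.br (nat_lit 2) (.cons (.br (nat_lit 3) (.cons (.rel (nat_lit 604013568)) .nil)) .nil)) .leaf) (nat_lit 11120460632762549) (.br (nat_lit 1) (.cons (.br (nat_lit 3) (.cons (.rel (nat_lit 285212808)) .nil)) .nil)) .leaf)) (nat_lit 11120460633321479) (.br (nat_lit 0) (.cons (.br (nat_lit 1) (.cons (.rel (nat_lit 20993040)) (.cons (.rel (nat_lit 20992005)) .nil))) (.cons (.br (nat_lit 1) (.cons (.rel (nat_lit 20993040)) (.cons (.rel (nat_lit 25170192)) .nil))) .nil))) (.node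 (.node (.node .leaf (nat_lit 11120460633322152) (.br (nat_lit 0) (.cons (.br (nat_lit 4) (.cons (.rel (nat_lit 2151809028)) .nil)) .nil)) .leaf) (nat_lit 11120460633322774) (.br (nat_lit 0) (.cons (.br (nat_lit 2) (.cons (.rel (nat_lit 71303682)) .nil)) .nil)) .leaf) (nat_lit 11120460633322972) (.br (nat_lit 2) (.cons (.br (nat_lit 0) (.cons (.rel (nat_lit 71632896)) (.cons (.br (nat_lit 1) (.cons (.rel (nat_lit 25170192)) (.cons (.rel (nat_lit 83887170)) (.cons (.rel (nat_lit 20990016)) .nil)))) (.cons (.rel (nat_lit 71303682)) .nil)))) (.cons (.br (nat_lit 3) (.cons (.rel (nat_lit 402719760)) (.cons (.rel (nat_lit 336724992)) (.cons (.rel (nat_lit 402671616)) (.cons (.rel (nat_lit 402653268)) .nil))))) .nil))) (.node .leaf (nat_lit 11120460634327217) (.br (nat_lit 0) (.cons (.br (nat_lit 1) (.cons (.rel (nat_lit 20990016)) (.cons (.rel (nat_lit 21004305)) .nil))) (.cons (.br (nat_lit 4) (.cons (.rel (nat_lit 1078267968)) (.cons (.rel (nat_lit 2151682128)) .nil))) .nil)))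 .leaf))) (nat_lit 11120460634327925) (.br (nat_lit 5) (.cons (.br (nat_lit 0) (.cons (.rel (nat_lit 4299425796)) (.cons (.rel (nat_lit 4301259012)) (.cons (.rel (nat_lit 4299231744)) .nil)))) (.cons (.br (nat_lit 0) (.cons (.rel (nat_lit 4299231744)) (.cons (.rel (nat_lit 4300276752)) (.cons (.rel (nat_lit 4299231744)) .nil)))) .nil))) (.node (.node (.node (.node .leaf (nat_lit 11120460634328321) (.br (nat_lit 1) (.cons (.br (nat_lit 0) (.cons (.rel (nat_lit 20993040)) (.cons (.rel (nat_lit 20990016)) .nil))) .nil)) .leaf) (nat_lit 11120460635813092) (.br (nat_lit 1) (.cons (.br (nat_lit 6) (.cons (.br (nat_lit 0) (.cons (.rel (nat_lit 17221812480)) (.cons (.rel (nat_lit 17217683472)) .nil))) .nil)) .nil)) .leaf) (nat_lit 11120460813117621) (.br (nat_lit 1) (.cons (.br (nat_lit 2) (.cons (.rel (nat_lit 84049920)) .nil)) .nil)) (.node .leaf (nat_lit 11120460813146264) (.br (nat_lit 0) (.cons (.br (nat_lit 3) (.cons (.rel (nat_lit 276893760)) .nil)) .nil)) .leaf)) (nat_lit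 11120460813146293) (.br (nat_lit 2) (.cons (.br (nat_lit 3) (.cons (.rel (nat_lit 402719760)) (.cons (.rel (nat_lit 336724992)) .nil))) .nil)) (.node (.node (.node .leaf (nat_lit 11120460813676594) (.br (nat_lit 2) (.cons (.br (nat_lit 1) (.cons (.rel (nat_lit 83904528)) (.cons (.rel (nat_lit 84049920)) .nil))) .nil)) .leaf) (nat_lit 11120460814393394) (.br (nat_lit 1) (.cons (.br (nat_lit 2) (.cons (.rel (nat_lit 84049920)) .nil)) .nil)) .leaf) (nat_lit 11120460816227614) (.br (nat_lit 1) (.cons (.br (nat_lit 4) (.cons (.rel (nat_lit 1090650177)) .nil)) .nil)) (.node .leaf (nat_lit 11120466903232689) (.br (nat_lit 1) (.cons (.br (nat_lit 3) (.cons (.rel (nat_lit 285246480)) .nil)) .nil)) .leaf)))) (nat_lit 11120855892874151) (.br (nat_lit 1) (.cons (.br (nat_lit 2) (.cons (.rel (nat_lit 83887170)) .nil)) .nil)) (.node (.node (.node (.node (.node .leaf (nat_lit 11120855894498590) (.br (nat_lit 0) (.cons (.br (nat_lit 1) (.cons (.rel (nat_lit 20980740)) .nil)) .nil))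 .leaf) (nat_lit 11120855950108853) (.br (nat_lit 1) (.cons (.br (nat_lit 5) (.cons (.rel (nat_lit 4311744537)) .nil)) .nil)) .leaf) (nat_lit 11120855950137496) (.br (nat_lit 3) (.cons (.br (nat_lit 6) (.cons (.rel (nat_lit 17448633408)) .nil)) .nil)) (.node .leaf (nat_lit 11120855950137525) (.br (nat_lit 1) (.cons (.br (nat_lit 6) (.cons (.rel (nat_lit 17196648576)) .nil)) .nil)) .leaf)) (nat_lit 11120855950672649) (.br (nat_lit 0) (.cons (.br (nat_lit 2) (.cons (.rel (nat_lit 142606593)) .nil)) .nil)) (.node (.node (.node .leaf (nat_lit 11120855951418121) (.br (nat_lit 0) (.cons (.br (nat_lit 3) (.cons (.rel (nat_lit 273022992)) (.cons (.rel (nat_lit 272908356)) (.cons (.rel (nat_lit 272892033)) .nil)))) (.cons (.br (nat_lit 1) (.cons (.rel (nat_lit 20971668)) (.cons (.rel (nat_lit 20975682)) .nil))) .nil))) .leaf) (nat_lit 11120855952874249) (.br (nat_lit 3) (.cons (.br (nat_lit 0) (.cons (.rel (nat_lit 272908356)) (.cons (.rel (nat_lit 273678342)) .nil))) .nil)) .leaf)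 (nat_lit 11120899450546477) (.br (nat_lit 1) (.cons (.br (nat_lit 4) (.cons (.rel (nat_lit 1090666500)) .nil)) .nil)) (.node .leaf (nat_lit 11123716217900289) (.br (nat_lit 0) (.cons (.br (nat_lit 1) (.cons (.rel (nat_lit 21041184)) (.cons (.rel (nat_lit 21041184)) .nil))) .nil)) .leaf))) (nat_lit 11123716217921813) (.br (nat_lit 3) (.cons (.br (nat_lit 5) (.cons (.rel (nat_lit 8858501121)) (.cons (.rel (nat_lit 4564456449)) .nil))) .nil)) (.node (.node (.node (.node .leaf (nat_lit 11123716217974021) (.br (nat_lit 0) (.cons (.br (nat_lit 1) (.cons (.rel (nat_lit 20971668)) (.cons (.rel (nat_lit 20980740)) (.cons (.rel (nat_lit 20971668)) .nil)))) .nil)) .leaf) (nat_lit 11123716217974038) (.br (nat_lit 5) (.cons (.br (nat_lit 0) (.cons (.rel (nat_lit 4299423762)) (.cons (.rel (nat_lit 8594131104)) .nil))) .nil)) .leaf) (nat_lit 11123716218020722) (.br (nat_lit 0) (.cons (.br (nat_lit 2) (.cons (.rel (nat_lit 72359940)) .nil)) .nil)) (.node .leaf (nat_lit 11123716218025188)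 (.br (nat_lit 5) (.cons (.br (nat_lit 3) (.cons (.rel (nat_lit 8858378244)) (.cons (.rel (nat_lit 4563485184)) (.cons (.rel (nat_lit 4563485184)) .nil)))) (.cons (.br (nat_lit 3) (.cons (.rel (nat_lit 4563485184)) (.cons (.rel (nat_lit 4563664902)) (.cons (.rel (nat_lit 4563485184)) .nil)))) .nil))) .leaf)) (nat_lit 11123716218280742) (.br (nat_lit 2) (.cons (.br (nat_lit 3) (.cons (.rel (nat_lit 335872002)) .nil)) .nil)) (.node (.node (.node .leaf (nat_lit 11123716218486146) (.br (nat_lit 2) (.cons (.br (nat_lit 3) (.cons (.rel (nat_lit 335872002)) .nil)) .nil)) .leaf) (nat_lit 11123716218531847) (.br (nat_lit 3) (.cons (.br (nat_lit 1) (.cons (.rel (nat_lit 285229122)) (.cons (.rel (nat_lit 285212808)) .nil))) .nil)) .leaf) (nat_lit 11123716218533340) (.br (nat_lit 3) (.cons (.br (nat_lit 0) (.cons (.rel (nat_lit 541067265)) (.cons (.rel (nat_lit 276825090)) (.cons (.rel (nat_lit 541102080)) (.cons (.rel (nat_lit 272634369)) .nil))))) (.cons (.br (nat_lit 4) (.cons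 (.rel (nat_lit 1342441473)) (.cons (.rel (nat_lit 2684358921)) (.cons (.rel (nat_lit 1342308864)) (.cons (.rel (nat_lit 1342441473)) (.cons (.rel (nat_lit 1342308864)) (.cons (.rel (nat_lit 1342439448)) .nil))))))) (.cons (.br (nat_lit 0) (.cons (.rel (nat_lit 276824100)) (.cons (.rel (nat_lit 272974848)) (.cons (.rel (nat_lit 273679377)) (.cons (.rel (nat_lit 272892033)) .nil))))) .nil)))) (.node .leaf (nat_lit 11123716219189255) (.br (nat_lit 0) (.cons (.br (nat_lit 5) (.cons (.rel (nat_lit 4299423762)) (.cons (.rel (nat_lit 8594137104)) (.cons (.rel (nat_lit 4299231744)) (.cons (.rel (nat_lit 4303360032)) (.cons (.rel (nat_lit 4299444288)) .nil)))))) (.cons (.br (nat_lit 3) (.cons (.rel (nat_lit 273813504)) (.cons (.rel (nat_lit 276824100)) .nil))) .nil))) .leaf))))) (nat_lit 11123716219282185) (.br (nat_lit 0) (.cons (.br (nat_lit 1) (.cons (.rel (nat_lit 22086912)) .nil)) .nil)) (.node (.node (.node (.node (.node (.node .leaf (nat_lit 11123716219282660) (.br (nat_lit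 4) (.cons (.br (nat_lit 5) (.cons (.rel (nat_lit 10737418497)) .nil)) .nil)) .leaf) (nat_lit 11123716219537585) (.br (nat_lit 0) (.cons (.br (nat_lit 6) (.cons (.rel (nat_lit 17184325776)) .nil)) .nil)) .leaf) (nat_lit 11123716219691289) (.br (nat_lit 3) (.cons (.br (nat_lit 0) (.cons (.rel (nat_lit 272974848)) (.cons (.rel (nat_lit 272634369)) .nil))) .nil)) (.node .leaf (nat_lit 11123716219765038) (.br (nat_lit 4) (.cons (.br (nat_lit 2) (.cons (.rel (nat_lit 1141119060)) (.cons (.rel (nat_lit 1141182480)) .nil))) .nil)) .leaf)) (nat_lit 11123716220738313) (.br (nat_lit 3) (.cons (.br (nat_lit 4) (.cons (.rel (nat_lit 1342308864)) (.cons (.rel (nat_lit 2684420352)) (.cons (.rel (nat_lit 1342308864)) (.cons (.rel (nat_lit 1342308864)) (.cons (.rel (nat_lit 2415989760)) (.cons (.rel (nat_lit 1610630148)) .nil))))))) (.cons (.br (nat_lit 1) (.cons (.rel (nat_lit 285217857)) (.cons (.rel (nat_lit 285234180)) (.cons (.rel (nat_lit 285476097)) .nil)))) .nil))) (.node (.node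 (.node .leaf (nat_lit 11123716220971914) (.br (nat_lit 0) (.cons (.br (nat_lit 2) (.cons (.rel (nat_lit 71632896)) (.cons (.rel (nat_lit 138418176)) (.cons (.rel (nat_lit 71569428)) (.cons (.rel (nat_lit 71569428)) .nil))))) (.cons (.br (nat_lit 3) (.cons (.rel (nat_lit 273679377)) (.cons (.rel (nat_lit 273678342)) .nil))) .nil))) .leaf) (nat_lit 11123716221074289) (.br (nat_lit 0) (.cons (.br (nat_lit 6) (.cons (.rel (nat_lit 34363949184)) (.cons (.rel (nat_lit 17188257798)) .nil))) (.cons (.br (nat_lit 6) (.cons (.rel (nat_lit 17184334848)) (.cons (.rel (nat_lit 17188258833)) .nil))) .nil))) .leaf) (nat_lit 11123716339534726) (.br (nat_lit 0) (.cons (.br (nat_lit 5) (.cons (.rel (nat_lit 4299231744)) .nil)) .nil)) (.node .leaf (nat_lit 11123716339535105) (.br (nat_lit 3) (.cons (.br (nat_lit 5) (.cons (.rel (nat_lit 4563697728)) (.cons (.rel (nat_lit 4563664902)) .nil))) (.cons (.br (nat_lit 5) (.cons (.rel (nat_lit 9126830400)) (.cons (.rel (nat_lit 4563665937)) .nil)))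 .nil))) .leaf))) (nat_lit 11123716339916129) (.br (nat_lit 3) (.cons (.br (nat_lit 4) (.cons (.rel (nat_lit 1342308864)) .nil)) .nil)) (.node (.node (.node (.node .leaf (nat_lit 11123716340168156) (.br (nat_lit 2) (.cons (.br (nat_lit 3) (.cons (.br (nat_lit 1) (.cons (.rel (nat_lit 83887170)) (.cons (.rel (nat_lit 83887170)) (.cons (.rel (nat_lit 285282324)) .nil)))) .nil)) .nil)) .leaf) (nat_lit 11123716340918308) (.br (nat_lit 0) (.cons (.br (nat_lit 3) (.cons (.rel (nat_lit 545327424)) .nil)) .nil)) .leaf) (nat_lit 11123716342401830) (.br (nat_lit 3) (.cons (.br (nat_lit 2) (.cons (.rel (nat_lit 335806545)) (.cons (.rel (nat_lit 335810568)) (.cons (.rel (nat_lit 335810568)) (.cons (.rel (nat_lit 335806545)) .nil))))) (.cons (.br (nat_lit 2) (.cons (.rel (nat_lit 335810568)) (.cons (.rel (nat_lit 604112928)) (.cons (.rel (nat_lit 335810568)) (.cons (.rel (nat_lit 335806545)) .nil))))) .nil))) (.node .leaf (nat_lit 11123716398357736) (.br (nat_lit 0) (.cons (.br (nat_lit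 3) (.cons (.rel (nat_lit 273022992)) .nil)) .nil)) .leaf)) (nat_lit 11123716398380260) (.br (nat_lit 5) (.cons (.br (nat_lit 0) (.cons (.rel (nat_lit 4303355973)) (.cons (.rel (nat_lit 4303357008)) (.cons (.rel (nat_lit 4299231744)) .nil)))) .nil)) (.node (.node (.node .leaf (nat_lit 11123716398888412) (.br (nat_lit 1) (.cons (.br (nat_lit 3) (.cons (.rel (nat_lit 553664772)) .nil)) .nil)) .leaf) (nat_lit 11123716399603762) (.br (nat_lit 0) (.cons (.br (nat_lit 3) (.cons (.rel (nat_lit 541065240)) (.cons (.rel (nat_lit 273678342)) .nil))) (.cons (.br (nat_lit 3) (.cons (.rel (nat_lit 273679377)) (.cons (.rel (nat_lit 541067265)) .nil))) .nil))) .leaf) (nat_lit 11123716399637257) (.br (nat_lit 5) (.cons (.br (nat_lit 1) (.cons (.rel (nat_lit 4311744537)) (.cons (.rel (nat_lit 4311748740)) .nil))) .nil)) (.node .leaf (nat_lit 11123716401093385) (.br (nat_lit 3) (.cons (.br (nat_lit 1) (.cons (.rel (nat_lit 285217857)) (.cons (.rel (nat_lit 285212808)) (.cons (.rel (nat_lit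 285229122)) .nil)))) (.cons (.br (nat_lit 1) (.cons (.rel (nat_lit 285212808)) (.cons (.rel (nat_lit 570425412)) (.cons (.rel (nat_lit 285212808)) .nil)))) .nil))) .leaf)))) (nat_lit 11123716401326986) (.br (nat_lit 0) (.cons (.br (nat_lit 1) (.cons (.rel (nat_lit 21103617)) .nil)) .nil)) (.node (.node (.node (.node (.node .leaf (nat_lit 11123716407277020) (.br (nat_lit 2) (.cons (.br (nat_lit 1) (.cons (.rel (nat_lit 84049920)) (.cons (.rel (nat_lit 83886180)) .nil))) .nil)) .leaf) (nat_lit 11123716407279069) (.br (nat_lit 2) (.cons (.br (nat_lit 4) (.cons (.rel (nat_lit 1141182480)) .nil)) .nil)) .leaf) (nat_lit 11123716409509940) (.br (nat_lit 0) (.cons (.br (nat_lit 1) (.cons (.rel (nat_lit 20971668)) .nil)) .nil)) (.node .leaf (nat_lit 11123716409789343) (.br (nat_lit 3) (.cons (.br (nat_lit 5) (.cons (.rel (nat_lit 4563664902)) .nil)) .nil)) .leaf)) (nat_lit 11123716427688817) (.br (nat_lit 1) (.cons (.br (nat_lit 3) (.cons (.rel (nat_lit 285345792)) .nil)) .nil))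 (.node (.node (.node .leaf (nat_lit 11123716427740017) (.br (nat_lit 1) (.cons (.br (nat_lit 5) (.cons (.rel (nat_lit 4311746562)) .nil)) .nil)) .leaf) (nat_lit 11123718831584732) (.br (nat_lit 0) (.cons (.br (nat_lit 1) (.cons (.rel (nat_lit 20975682)) .nil)) .nil)) .leaf) (nat_lit 11123718832560259) (.br (nat_lit 0) (.cons (.br (nat_lit 2) (.cons (.rel (nat_lit 71632896)) .nil)) .nil)) (.node .leaf (nat_lit 11123718834125681) (.br (nat_lit 2) (.cons (.br (nat_lit 6) (.cons (.rel (nat_lit 17248157700)) .nil)) .nil)) .leaf))) (nat_lit 11123718966450208) (.br (nat_lit 3) (.cons (.br (nat_lit 6) (.cons (.rel (nat_lit 17716740114)) .nil)) .nil)) (.node (.node (.node (.node .leaf (nat_lit 11123719025281336) (.br (nat_lit 0) (.cons (.br (nat_lit 1) (.cons (.rel (nat_lit 21038160)) .nil)) .nil)) .leaf) (nat_lit 11123719026961290) (.br (nat_lit 0) (.cons (.br (nat_lit 1) (.cons (.rel (nat_lit 21038160)) .nil)) .nil)) .leaf) (nat_lit 11123721649597718) (.br (nat_lit 3) (.cons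 (.br (nat_lit 5) (.cons (.rel (nat_lit 4563664902)) (.cons (.rel (nat_lit 4831838289)) .nil))) (.cons (.br (nat_lit 5) (.cons (.rel (nat_lit 4563665937)) (.cons (.rel (nat_lit 4831842312)) .nil))) .nil))) (.node .leaf (nat_lit 11123721649831319) (.br (nat_lit 1) (.cons (.br (nat_lit 3) (.cons (.rel (nat_lit 285217857)) .nil)) .nil)) .leaf)) (nat_lit 11123721650157020) (.br (nat_lit 2) (.cons (.br (nat_lit 5) (.cons (.rel (nat_lit 4429193226)) (.cons (.rel (nat_lit 8724160785)) .nil))) .nil)) (.node (.node (.node .leaf (nat_lit 11123721652361993) (.br (nat_lit 1) (.cons (.br (nat_lit 3) (.cons (.rel (nat_lit 285212808)) (.cons (.rel (nat_lit 285212808)) .nil))) (.cons (.br (nat_lit 3) (.cons (.rel (nat_lit 285212808)) (.cons (.rel (nat_lit 285279300)) .nil))) .nil))) .leaf) (nat_lit 11123721652595594) (.br (nat_lit 0) (.cons (.br (nat_lit 5) (.cons (.rel (nat_lit 8595701760)) .nil)) .nil)) .leaf) (nat_lit 11123721652697969) (.br (nat_lit 3) (.cons (.br (nat_lit 5) (.cons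 (.rel (nat_lit 4563664902)) (.cons (.rel (nat_lit 4563697728)) .nil))) (.cons (.br (nat_lit 4) (.cons (.rel (nat_lit 1610613825)) (.cons (.rel (nat_lit 1342441473)) .nil))) .nil))) (.node .leaf (nat_lit 11124807141230769) (.br (nat_lit 1) (.cons (.br (nat_lit 2) (.cons (.rel (nat_lit 83890194)) .nil)) .nil)) .leaf))))))

/-- refutations 67 -/
def e67 : EX := (.node (.node (.node (.node (.node (.node .leaf (nat_lit 11125875115632941) (.br (nat_lit 4) (.cons (.br (nat_lit 0) (.cons (.rel (nat_lit 2152730880)) (.cons (.rel (nat_lit 1082135568)) .nil))) .nil)) .leaf) (nat_lit 11125877635026396) (.br (nat_lit 2) (.cons (.br (nat_lit 6) (.cons (.rel (nat_lit 34426929153)) (.cons (.rel (nat_lit 34426851396)) .nil))) .nil)) .leaf) (nat_lit 11125877635658408) (.br (nat_lit 1) (.cons (.br (nat_lit 2) (.cons (.rel (nat_lit 101187840)) .nil)) .nil)) (.node (.node .leaf (nat_lit 11125877635659165) (.br (nat_lit 2) (.cons (.br (nat_lit 4) (.cons (.rel (nat_lit 1140855300)) .nil))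 .nil)) .leaf) (nat_lit 11125877635659228) (.br (nat_lit 2) (.cons (.br (nat_lit 4) (.cons (.rel (nat_lit 1140855300)) .nil)) .nil)) .leaf)) (nat_lit 11125877636409645) (.br (nat_lit 4) (.cons (.br (nat_lit 5) (.cons (.rel (nat_lit 9663774720)) .nil)) .nil)) (.node (.node (.node .leaf (nat_lit 11125877765681832) (.br (nat_lit 1) (.cons (.br (nat_lit 3) (.cons (.rel (nat_lit 302253060)) .nil)) .nil)) .leaf) (nat_lit 11129021639800284) (.br (nat_lit 1) (.cons (.br (nat_lit 2) (.cons (.rel (nat_lit 83955840)) .nil)) .nil)) .leaf) (nat_lit 11129021642238858) (.br (nat_lit 0) (.cons (.br (nat_lit 2) (.cons (.rel (nat_lit 138429441)) .nil)) .nil)) (.node .leaf (nat_lit 11129053797528434) (.br (nat_lit 1) (.cons (.br (nat_lit 2) (.cons (.rel (nat_lit 83904528)) .nil)) .nil)) .leaf))) (nat_lit 11129433868580316) (.br (nat_lit 0) (.cons (.br (nat_lit 2) (.cons (.rel (nat_lit 71303682)) .nil)) .nil)) (.node (.node (.node (.node .leaf (nat_lit 11129482895166342) (.br (nat_lit 0)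 (.cons (.br (nat_lit 1) (.cons (.rel (nat_lit 20990016)) .nil)) .nil)) .leaf) (nat_lit 11129486474289454) (.br (nat_lit 0) (.cons (.br (nat_lit 1) (.cons (.rel (nat_lit 38813697)) .nil)) .nil)) .leaf) (nat_lit 11130089949426549) (.br (nat_lit 0) (.cons (.br (nat_lit 3) (.cons (.rel (nat_lit 273678342)) .nil)) .nil)) (.node (.node .leaf (nat_lit 11130089949999111) (.br (nat_lit 1) (.cons (.br (nat_lit 3) (.cons (.rel (nat_lit 285217857)) .nil)) .nil)) .leaf) (nat_lit 11130089950003252) (.br (nat_lit 0) (.cons (.br (nat_lit 1) (.cons (.rel (nat_lit 20971668)) .nil)) .nil)) .leaf)) (nat_lit 11130089950926331) (.br (nat_lit 3) (.cons (.br (nat_lit 6) (.cons (.rel (nat_lit 17448566916)) .nil)) .nil)) (.node (.node (.node .leaf (nat_lit 11130089950976131) (.br (nat_lit 0) (.cons (.br (nat_lit 1) (.cons (.rel (nat_lit 21041184)) .nil)) .nil)) .leaf) (nat_lit 11130089950976902) (.br (nat_lit 0) (.cons (.br (nat_lit 1) (.cons (.rel (nat_lit 21041184)) .nil)) .nil)) .leaf) (nat_lit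 11130089952548995) (.br (nat_lit 5) (.cons (.br (nat_lit 0) (.cons (.rel (nat_lit 4299231744)) (.cons (.rel (nat_lit 4301259012)) .nil))) .nil)) (.node .leaf (nat_lit 11130090130354226) (.br (nat_lit 0) (.cons (.br (nat_lit 3) (.cons (.rel (nat_lit 273022992)) .nil)) .nil)) .leaf)))) (nat_lit 11130090130355676) (.br (nat_lit 0) (.cons (.br (nat_lit 2) (.cons (.rel (nat_lit 142606593)) .nil)) .nil)) (.node (.node (.node (.node (.node .leaf (nat_lit 11130090130358324) (.br (nat_lit 0) (.cons (.br (nat_lit 1) (.cons (.rel (nat_lit 20975682)) .nil)) .nil)) .leaf) (nat_lit 11130090131071026) (.br (nat_lit 0) (.cons (.br (nat_lit 5) (.cons (.rel (nat_lit 4299489408)) .nil)) .nil)) .leaf) (nat_lit 11130090132588596) (.br (nat_lit 1) (.cons (.br (nat_lit 3) (.cons (.rel (nat_lit 285212808)) .nil)) .nil)) (.node (.node .leaf (nat_lit 11130339057470342) (.br (nat_lit 0) (.cons (.br (nat_lit 3) (.cons (.rel (nat_lit 276824100)) (.cons (.rel (nat_lit 272634369)) (.cons (.rel (nat_lit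 541065240)) .nil)))) .nil)) .leaf) (nat_lit 11130339057581292) (.br (nat_lit 0) (.cons (.br (nat_lit 5) (.cons (.rel (nat_lit 4299423762)) .nil)) .nil)) .leaf)) (nat_lit 11130339058103772) (.br (nat_lit 1) (.cons (.br (nat_lit 4) (.cons (.br (nat_lit 2) (.cons (.rel (nat_lit 1141179456)) (.cons (.rel (nat_lit 83904528)) (.cons (.br (nat_lit 0) (.cons (.rel (nat_lit 1145047056)) (.cons (.rel (nat_lit 25170192)) (.cons (.rel (nat_lit 20980740)) (.cons (.rel (nat_lit 21041184)) .nil))))) .nil)))) (.cons (.rel (nat_lit 2164263168)) .nil))) (.cons (.br (nat_lit 2) (.cons (.rel (nat_lit 84049920)) (.cons (.rel (nat_lit 83904528)) (.cons (.rel (nat_lit 83952672)) .nil)))) .nil))) (.node (.node (.node .leaf (nat_lit 11130339058853242) (.br (nat_lit 0) (.cons (.br (nat_lit 1) (.cons (.rel (nat_lit 21041184)) .nil)) .nil)) .leaf) (nat_lit 11130339059262842) (.br (nat_lit 1) (.cons (.br (nat_lit 3) (.cons (.rel (nat_lit 285212808)) .nil)) .nil)) .leaf) (nat_lit 11130339060082142)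 (.br (nat_lit 1) (.cons (.br (nat_lit 4) (.cons (.rel (nat_lit 1090785540)) .nil)) .nil)) (.node .leaf (nat_lit 11130339060308745) (.br (nat_lit 1) (.cons (.br (nat_lit 3) (.cons (.rel (nat_lit 285294624)) .nil)) .nil)) .leaf))) (nat_lit 11130339179738588) (.br (nat_lit 1) (.cons (.br (nat_lit 2) (.cons (.rel (nat_lit 83887170)) .nil)) .nil)) (.node (.node (.node (.node .leaf (nat_lit 11130339238458844) (.br (nat_lit 1) (.cons (.br (nat_lit 0) (.cons (.rel (nat_lit 25170192)) (.cons (.rel (nat_lit 21041184)) .nil))) .nil)) .leaf) (nat_lit 11130341889257633) (.br (nat_lit 0) (.cons (.br (nat_lit 2) (.cons (.rel (nat_lit 73466112)) .nil)) .nil)) .leaf) (nat_lit 11130342287717127) (.br (nat_lit 0) (.cons (.br (nat_lit 1) (.cons (.rel (nat_lit 20971668)) .nil)) .nil)) (.node (.node .leaf (nat_lit 11130342289922825) (.br (nat_lit 1) (.cons (.br (nat_lit 2) (.cons (.br (nat_lit 3) (.cons (.rel (nat_lit 570695940)) (.cons (.rel (nat_lit 402719760)) .nil))) (.cons (.rel (nat_lit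 84049920)) .nil))) .nil)) .leaf) (nat_lit 11130519446169781) (.br (nat_lit 1) (.cons (.br (nat_lit 0) (.cons (.rel (nat_lit 22086912)) (.cons (.rel (nat_lit 20971668)) .nil))) .nil)) .leaf)) (nat_lit 11130519446730204) (.br (nat_lit 0) (.cons (.br (nat_lit 1) (.cons (.rel (nat_lit 20990016)) (.cons (.rel (nat_lit 20992005)) (.cons (.rel (nat_lit 20971668)) .nil)))) .nil)) (.node (.node (.node .leaf (nat_lit 11130524790273500) (.br (nat_lit 0) (.cons (.br (nat_lit 4) (.cons (.rel (nat_lit 1079001120)) .nil)) .nil)) .leaf) (nat_lit 11131679087266694) (.br (nat_lit 4) (.cons (.br (nat_lit 5) (.cons (.rel (nat_lit 5368972356)) .nil)) .nil)) .leaf) (nat_lit 11131679087899304) (.br (nat_lit 3) (.cons (.br (nat_lit 4) (.cons (.rel (nat_lit 2684420352)) .nil)) .nil)) (.node .leaf (nat_lit 11131679088904369) (.br (nat_lit 0) (.cons (.br (nat_lit 2) (.cons (.rel (nat_lit 71566404)) .nil)) .nil)) .leaf)))))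

/-- refutations 68 -/
def e68 : EX := (.node .leaf (nat_lit 11041304482514974) (.br (nat_lit 1) (.cons (.br (nat_lit 6) (.cons (.rel (nat_lit 17196651600)) .nil)) .nil)) .leaf)

/-- refutations 69 -/
def e69 : EX := (.node (.node (.node (.node (.node (.node .leaf (nat_lit 11434921169845476) (.br (nat_lit 0) (.cons (.br (nat_lit 1) (.cons (.rel (nat_lit 26476608)) .nil)) .nil)) .leaf) (nat_lit 11435181479090951) (.br (nat_lit 0) (.cons (.br (nat_lit 1) (.cons (.rel (nat_lit 21233922)) .nil)) .nil)) .leaf) (nat_lit 11435181479140103) (.br (nat_lit 0) (.cons (.br (nat_lit 1) (.cons (.rel (nat_lit 25167168)) .nil)) .nil)) (.node .leaf (nat_lit 11435181479140255) (.br (nat_lit 1) (.cons (.br (nat_lit 5) (.cons (.rel (nat_lit 4311744537)) (.cons (.rel (nat_lit 4311744537)) (.cons (.rel (nat_lit 4311745572)) .nil)))) .nil)) .leaf)) (nat_lit 11435181479395629) (.br (nat_lit 1) (.cons (.br (nat_lit 5) (.cons (.rel (nat_lit 4311746562)) .nil)) .nil)) (.node (.node (.node .leaf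 (nat_lit 11435181479396228) (.br (nat_lit 1) (.cons (.br (nat_lit 2) (.cons (.rel (nat_lit 101713920)) (.cons (.rel (nat_lit 83903493)) .nil))) .nil)) .leaf) (nat_lit 11435181479396734) (.br (nat_lit 0) (.cons (.br (nat_lit 5) (.cons (.rel (nat_lit 4299702528)) .nil)) .nil)) .leaf) (nat_lit 11435181479415869) (.br (nat_lit 0) (.cons (.br (nat_lit 3) (.cons (.rel (nat_lit 541067265)) .nil)) .nil)) (.node .leaf (nat_lit 11435181479557397) (.br (nat_lit 1) (.cons (.br (nat_lit 4) (.cons (.rel (nat_lit 1090666500)) .nil)) .nil)) .leaf))) (nat_lit 11435181479557780) (.br (nat_lit 3) (.cons (.br (nat_lit 5) (.cons (.rel (nat_lit 4564467714)) (.cons (.rel (nat_lit 4563485184)) .nil))) .nil)) (.node (.node (.node (.node .leaf (nat_lit 11435181479558001) (.br (nat_lit 3) (.cons (.br (nat_lit 5) (.cons (.rel (nat_lit 4563485184)) .nil)) .nil)) .leaf) (nat_lit 11435181479558655) (.br (nat_lit 0) (.cons (.br (nat_lit 3) (.cons (.rel (nat_lit 272695812)) .nil)) .nil)) .leaf) (nat_lit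 11435181479560449) (.br (nat_lit 0) (.cons (.br (nat_lit 3) (.cons (.rel (nat_lit 272908356)) .nil)) .nil)) (.node .leaf (nat_lit 11435181479651504) (.br (nat_lit 1) (.cons (.br (nat_lit 6) (.cons (.rel (nat_lit 17196679188)) .nil)) .nil)) .leaf)) (nat_lit 11435181479661845) (.br (nat_lit 0) (.cons (.br (nat_lit 1) (.cons (.rel (nat_lit 20975682)) .nil)) .nil)) (.node (.node (.node .leaf (nat_lit 11435181480320476) (.br (nat_lit 5) (.cons (.br (nat_lit 6) (.cons (.rel (nat_lit 38654723088)) .nil)) .nil)) .leaf) (nat_lit 11435181480433118) (.br (nat_lit 1) (.cons (.br (nat_lit 4) (.cons (.rel (nat_lit 1090520073)) .nil)) .nil)) .leaf) (nat_lit 11435181480687099) (.br (nat_lit 0) (.cons (.br (nat_lit 1) (.cons (.rel (nat_lit 20971668)) .nil)) .nil)) (.node .leaf (nat_lit 11435181480849440) (.br (nat_lit 1) (.cons (.br (nat_lit 6) (.cons (.rel (nat_lit 17196908805)) .nil)) .nil)) .leaf)))) (nat_lit 11435181481648383) (.br (nat_lit 1) (.cons (.br (nat_lit 3) (.cons (.rel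 (nat_lit 285212808)) .nil)) .nil)) (.node (.node (.node (.node (.node .leaf (nat_lit 11435181481648439) (.br (nat_lit 1) (.cons (.br (nat_lit 2) (.cons (.rel (nat_lit 83904528)) (.cons (.rel (nat_lit 83887170)) .nil))) (.cons (.br (nat_lit 2) (.cons (.rel (nat_lit 101187840)) (.cons (.rel (nat_lit 85213701)) .nil))) .nil))) .leaf) (nat_lit 11435181481649534) (.br (nat_lit 0) (.cons (.br (nat_lit 1) (.cons (.rel (nat_lit 25437696)) .nil)) .nil)) .leaf) (nat_lit 11435181481649563) (.br (nat_lit 3) (.cons (.br (nat_lit 5) (.cons (.rel (nat_lit 4563485184)) .nil)) .nil)) (.node .leaf (nat_lit 11435181481661916) (.br (nat_lit 2) (.cons (.br (nat_lit 3) (.cons (.rel (nat_lit 335872002)) .nil)) .nil)) .leaf)) (nat_lit 11435181481670115) (.br (nat_lit 1) (.cons (.br (nat_lit 3) (.cons (.rel (nat_lit 285245445)) .nil)) .nil)) (.node (.node (.node .leaf (nat_lit 11435181482110463) (.br (nat_lit 0) (.cons (.br (nat_lit 1) (.cons (.rel (nat_lit 22020420)) .nil)) .nil)) .leaf) (nat_lit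 11435181482118380) (.br (nat_lit 0) (.cons (.br (nat_lit 2) (.cons (.rel (nat_lit 71566404)) .nil)) .nil)) .leaf) (nat_lit 11435181482131517) (.br (nat_lit 0) (.cons (.br (nat_lit 5) (.cons (.rel (nat_lit 8594392320)) .nil)) .nil)) (.node .leaf (nat_lit 11435181482132737) (.br (nat_lit 1) (.cons (.br (nat_lit 3) (.cons (.rel (nat_lit 570425412)) (.cons (.rel (nat_lit 285217857)) .nil))) .nil)) .leaf))) (nat_lit 11435181482132891) (.br (nat_lit 4) (.cons (.br (nat_lit 5) (.cons (.rel (nat_lit 5368709634)) .nil)) .nil)) (.node (.node (.node (.node .leaf (nat_lit 11435181482133011) (.br (nat_lit 0) (.cons (.br (nat_lit 1) (.cons (.rel (nat_lit 20975682)) .nil)) .nil)) .leaf) (nat_lit 11435181482160189) (.br (nat_lit 0) (.cons (.br (nat_lit 1) (.cons (.rel (nat_lit 21004305)) .nil)) .nil)) .leaf) (nat_lit 11435181482161534) (.br (nat_lit 0) (.cons (.br (nat_lit 1) (.cons (.rel (nat_lit 38813697)) .nil)) .nil)) (.node .leaf (nat_lit 11435181482173353) (.br (nat_lit 0) (.cons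 (.br (nat_lit 3) (.cons (.rel (nat_lit 541102080)) .nil)) .nil)) .leaf)) (nat_lit 11435181482209581) (.br (nat_lit 5) (.cons (.br (nat_lit 0) (.cons (.rel (nat_lit 8598360384)) (.cons (.rel (nat_lit 4299425796)) .nil))) .nil)) (.node (.node .leaf (nat_lit 11435181482231267) (.br (nat_lit 1) (.cons (.br (nat_lit 3) (.cons (.rel (nat_lit 285753876)) .nil)) .nil)) .leaf) (nat_lit 11435184106266759) (.br (nat_lit 0) (.cons (.br (nat_lit 1) (.cons (.rel (nat_lit 20990016)) .nil)) .nil)) (.node .leaf (nat_lit 11435187330614785) (.br (nat_lit 1) (.cons (.br (nat_lit 4) (.cons (.rel (nat_lit 1090527300)) .nil)) .nil)) .leaf)))))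

/-- refutations 70 -/
def e70 : EX := (.node (.node (.node (.node .leaf (nat_lit 11435404612182826) (.br (nat_lit 3) (.cons (.br (nat_lit 6) (.cons (.rel (nat_lit 17448321552)) (.cons (.rel (nat_lit 17449369728)) .nil))) (.cons (.br (nat_lit 6) (.cons (.rel (nat_lit 17448566916)) (.cons (.rel (nat_lit 17448588288)) .nil))) .nil))) .leaf) (nat_lit 11435404612327705) (.br (nat_lit 3) (.cons (.br (nat_lit 4) (.cons (.rel (nat_lit 2684420352)) (.cons (.rel (nat_lit 1343225937)) (.cons (.rel (nat_lit 2415935568)) (.cons (.rel (nat_lit 1344274689)) .nil))))) .nil)) (.node .leaf (nat_lit 11435404612338440) (.br (nat_lit 0) (.cons (.br (nat_lit 2) (.cons (.rel (nat_lit 71303682)) .nil)) .nil)) .leaf)) (nat_lit 11435404614641026) (.br (nat_lit 1) (.cons (.br (nat_lit 3) (.cons (.rel (nat_lit 570425412)) (.cons (.rel (nat_lit 285212808)) .nil))) (.cons (.br (nat_lit 2) (.cons (.rel (nat_lit 83887170)) (.cons (.rel (nat_lit 83904528)) .nil))) .nil))) (.node (.node .leaf (nat_lit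 11435404615008887) (.br (nat_lit 0) (.cons (.br (nat_lit 1) (.cons (.rel (nat_lit 20971668)) .nil)) .nil)) .leaf) (nat_lit 11435404615009561) (.br (nat_lit 6) (.cons (.br (nat_lit 1) (.cons (.rel (nat_lit 17196908805)) (.cons (.rel (nat_lit 17196650565)) .nil))) .nil)) .leaf)) (nat_lit 11435407237817130) (.br (nat_lit 1) (.cons (.br (nat_lit 6) (.cons (.rel (nat_lit 17196650565)) (.cons (.rel (nat_lit 17196728322)) .nil))) .nil)) (.node (.node (.node .leaf (nat_lit 11436221368634246) (.br (nat_lit 1) (.cons (.br (nat_lit 5) (.cons (.rel (nat_lit 4311744537)) .nil)) .nil)) .leaf) (nat_lit 11436221368962309) (.br (nat_lit 0) (.cons (.br (nat_lit 1) (.cons (.rel (nat_lit 22020420)) .nil)) .nil)) .leaf) (nat_lit 11436221371806996) (.br (nat_lit 2) (.cons (.br (nat_lit 3) (.cons (.rel (nat_lit 336597057)) .nil)) .nil)) (.node (.node .leaf (nat_lit 11436221934864411) (.br (nat_lit 0) (.cons (.br (nat_lit 2) (.cons (.rel (nat_lit 75517953)) .nil)) .nil)) .leaf) (nat_lit 11436223797413340)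 (.br (nat_lit 2) (.cons (.br (nat_lit 5) (.cons (.rel (nat_lit 4362143232)) .nil)) .nil)) .leaf)))

/-- refutations 71 -/
def e71 : EX := (.node (.node (.node (.node .leaf (nat_lit 11436304979170836) (.br (nat_lit 1) (.cons (.br (nat_lit 3) (.cons (.rel (nat_lit 285245445)) .nil)) .nil)) .leaf) (nat_lit 11436307309983196) (.br (nat_lit 1) (.cons (.br (nat_lit 2) (.cons (.rel (nat_lit 83904528)) .nil)) .nil)) .leaf) (nat_lit 11436307310445355) (.br (nat_lit 0) (.cons (.br (nat_lit 2) (.cons (.rel (nat_lit 71303682)) .nil)) .nil)) (.node .leaf (nat_lit 11436307311272191) (.br (nat_lit 5) (.cons (.br (nat_lit 6) (.cons (.rel (nat_lit 21475099680)) .nil)) .nil)) .leaf)) (nat_lit 11436307311273436) (.br (nat_lit 2) (.cons (.br (nat_lit 4) (.cons (.rel (nat_lit 1141900308)) .nil)) .nil)) (.node (.node .leaf (nat_lit 11436307311517831) (.br (nat_lit 6) (.cons (.br (nat_lit 0) (.cons (.rel (nat_lit 17184334848)) (.cons (.rel (nat_lit 17184334848)) .nil))) .nil)) .leaf) (nat_lit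 11436307312747906) (.br (nat_lit 0) (.cons (.br (nat_lit 3) (.cons (.rel (nat_lit 541065240)) .nil)) .nil)) (.node .leaf (nat_lit 11436307312844252) (.br (nat_lit 0) (.cons (.br (nat_lit 4) (.cons (.rel (nat_lit 1079052288)) .nil)) .nil)) .leaf)))

/-- refutations 72 -/
def e72 : EX := (.node (.node (.node (.node (.node .leaf (nat_lit 11436513255979160) (.br (nat_lit 0) (.cons (.br (nat_lit 1) (.cons (.rel (nat_lit 21053448)) .nil)) .nil)) .leaf) (nat_lit 11437086116678534) (.br (nat_lit 4) (.cons (.br (nat_lit 6) (.cons (.rel (nat_lit 18253875216)) (.cons (.rel (nat_lit 36507222336)) (.cons (.rel (nat_lit 36507222336)) .nil)))) .nil)) .leaf) (nat_lit 11437089375651901) (.br (nat_lit 5) (.cons (.br (nat_lit 6) (.cons (.rel (nat_lit 38654723088)) .nil)) .nil)) (.node .leaf (nat_lit 11437089375652641) (.br (nat_lit 1) (.cons (.br (nat_lit 3) (.cons (.rel (nat_lit 285212808)) .nil)) .nil)) .leaf)) (nat_lit 11437089375652742) (.br (nat_lit 3) (.cons (.br (nat_lit 6) (.cons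 (.rel (nat_lit 34628173857)) (.cons (.br (nat_lit 4) (.cons (.rel (nat_lit 36507222336)) (.cons (.rel (nat_lit 18253874181)) (.cons (.rel (nat_lit 35433484290)) .nil)))) (.cons (.br (nat_lit 4) (.cons (.rel (nat_lit 18253881408)) (.cons (.rel (nat_lit 36507222336)) (.cons (.rel (nat_lit 19327422468)) .nil)))) .nil)))) (.cons (.br (nat_lit 4) (.cons (.rel (nat_lit 1342476288)) (.cons (.rel (nat_lit 1342439448)) (.cons (.rel (nat_lit 1342308864)) .nil)))) (.cons (.br (nat_lit 4) (.cons (.rel (nat_lit 2684420352)) (.cons (.rel (nat_lit 2684420352)) (.cons (.rel (nat_lit 1343291394)) .nil)))) .nil)))) (.node (.node .leaf (nat_lit 11437089375653340) (.br (nat_lit 3) (.cons (.br (nat_lit 4) (.cons (.rel (nat_lit 1342308864)) .nil)) .nil)) .leaf) (nat_lit 11437089375660934) (.br (nat_lit 4) (.cons (.br (nat_lit 6) (.cons (.rel (nat_lit 18254659680)) (.cons (.rel (nat_lit 18253881408)) (.cons (.rel (nat_lit 18253875216)) .nil)))) .nil)) (.node .leaf (nat_lit 11437089375660942)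 (.br (nat_lit 3) (.cons (.br (nat_lit 5) (.cons (.rel (nat_lit 4831838289)) (.cons (.rel (nat_lit 4831854612)) .nil))) .nil)) .leaf))) (nat_lit 11437089377045382) (.br (nat_lit 2) (.cons (.br (nat_lit 5) (.cons (.rel (nat_lit 4363125762)) .nil)) .nil)) (.node (.node (.node .leaf (nat_lit 11437089377247367) (.br (nat_lit 1) (.cons (.br (nat_lit 3) (.cons (.rel (nat_lit 285246480)) .nil)) .nil)) .leaf) (nat_lit 11437089377292444) (.br (nat_lit 0) (.cons (.br (nat_lit 1) (.cons (.rel (nat_lit 22086912)) .nil)) .nil)) (.node .leaf (nat_lit 11437089377300605) (.br (nat_lit 0) (.cons (.br (nat_lit 3) (.cons (.rel (nat_lit 273813504)) .nil)) .nil)) .leaf)) (nat_lit 11437089378210694) (.br (nat_lit 0) (.cons (.br (nat_lit 2) (.cons (.rel (nat_lit 75579396)) .nil)) .nil)) (.node (.node .leaf (nat_lit 11437089378314871) (.br (nat_lit 0) (.cons (.br (nat_lit 1) (.cons (.rel (nat_lit 20980740)) .nil)) .nil)) .leaf) (nat_lit 11437089378486304) (.br (nat_lit 3) (.cons (.br (nat_lit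 4) (.cons (.br (nat_lit 0) (.cons (.rel (nat_lit 2151679104)) (.cons (.rel (nat_lit 273711168)) .nil))) .nil)) .nil)) (.node .leaf (nat_lit 11437089378487047) (.br (nat_lit 0) (.cons (.br (nat_lit 1) (.cons (.rel (nat_lit 21008520)) .nil)) .nil)) .leaf))))

/-- refutations 73 -/
def e73 : EX := (.node (.node (.node (.node (.node .leaf (nat_lit 11437154447643526) (.br (nat_lit 0) (.cons (.br (nat_lit 6) (.cons (.rel (nat_lit 17184325776)) .nil)) .nil)) .leaf) (nat_lit 11437154449157002) (.br (nat_lit 0) (.cons (.br (nat_lit 1) (.cons (.rel (nat_lit 21038160)) .nil)) .nil)) (.node .leaf (nat_lit 11437158128683910) (.br (nat_lit 0) (.cons (.br (nat_lit 5) (.cons (.rel (nat_lit 4299444288)) .nil)) .nil)) .leaf)) (nat_lit 11437158128692110) (.br (nat_lit 0) (.cons (.br (nat_lit 2) (.cons (.rel (nat_lit 75506688)) (.cons (.rel (nat_lit 75497616)) (.cons (.rel (nat_lit 138412128)) .nil)))) (.cons (.br (nat_lit 1) (.cons (.rel (nat_lit 38010885)) (.cons (.rel (nat_lit 21233922))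 (.cons (.rel (nat_lit 42225924)) .nil)))) .nil))) (.node (.node .leaf (nat_lit 11437158128960270) (.br (nat_lit 0) (.cons (.br (nat_lit 4) (.cons (.rel (nat_lit 1079001120)) .nil)) .nil)) .leaf) (nat_lit 11437158128960390) (.br (nat_lit 0) (.cons (.br (nat_lit 2) (.cons (.rel (nat_lit 142606593)) .nil)) .nil)) .leaf)) (nat_lit 11437158129206059) (.br (nat_lit 0) (.cons (.br (nat_lit 4) (.cons (.rel (nat_lit 1082132544)) .nil)) .nil)) (.node (.node (.node .leaf (nat_lit 11437158129206150) (.br (nat_lit 0) (.cons (.br (nat_lit 6) (.cons (.rel (nat_lit 17184065088)) .nil)) .nil)) .leaf) (nat_lit 11437158129965212) (.br (nat_lit 0) (.cons (.br (nat_lit 2) (.cons (.rel (nat_lit 71303682)) .nil)) .nil)) (.node .leaf (nat_lit 11437158129987067) (.br (nat_lit 4) (.cons (.br (nat_lit 0) (.cons (.rel (nat_lit 1077936777)) (.cons (.rel (nat_lit 1077953088)) .nil))) .nil)) .leaf)) (nat_lit 11437158130033550) (.br (nat_lit 0) (.cons (.br (nat_lit 1) (.cons (.rel (nat_lit 26476608))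 (.cons (.rel (nat_lit 20980740)) .nil))) .nil)) (.node (.node .leaf (nat_lit 11437158130065710) (.br (nat_lit 0) (.cons (.br (nat_lit 1) (.cons (.rel (nat_lit 20971668)) .nil)) .nil)) .leaf) (nat_lit 11437158130076460) (.br (nat_lit 0) (.cons (.br (nat_lit 1) (.cons (.rel (nat_lit 20980740)) .nil)) .nil)) .leaf))) (nat_lit 11437158130077148) (.br (nat_lit 3) (.cons (.br (nat_lit 0) (.cons (.rel (nat_lit 541067265)) (.cons (.rel (nat_lit 273813504)) .nil))) .nil)) (.node (.node (.node (.node .leaf (nat_lit 11437158130241572) (.br (nat_lit 0) (.cons (.br (nat_lit 2) (.cons (.rel (nat_lit 75497616)) .nil)) .nil)) .leaf) (nat_lit 11437158130241692) (.br (nat_lit 5) (.cons (.br (nat_lit 0) (.cons (.rel (nat_lit 4299423762)) (.cons (.rel (nat_lit 4299423762)) .nil))) .nil)) (.node .leaf (nat_lit 11437158130332558) (.br (nat_lit 3) (.cons (.br (nat_lit 5) (.cons (.rel (nat_lit 4831854612)) (.cons (.rel (nat_lit 4563697728)) .nil))) .nil)) .leaf)) (nat_lit 11437158130487332)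 (.br (nat_lit 0) (.cons (.br (nat_lit 5) (.cons (.rel (nat_lit 4303372296)) (.cons (.rel (nat_lit 4299444288)) .nil))) (.cons (.br (nat_lit 5) (.cons (.rel (nat_lit 4300214274)) (.cons (.rel (nat_lit 4300214274)) .nil))) .nil))) (.node (.node .leaf (nat_lit 11437158131241742) (.br (nat_lit 2) (.cons (.br (nat_lit 0) (.cons (.rel (nat_lit 71581728)) (.cons (.rel (nat_lit 142606593)) .nil))) .nil)) .leaf) (nat_lit 11437158131306531) (.br (nat_lit 0) (.cons (.br (nat_lit 2) (.cons (.rel (nat_lit 142606593)) .nil)) .nil)) .leaf)) (nat_lit 11437158131496996) (.br (nat_lit 0) (.cons (.br (nat_lit 1) (.cons (.rel (nat_lit 20990016)) .nil)) .nil)) (.node (.node (.node .leaf (nat_lit 11437160839485616) (.br (nat_lit 0) (.cons (.br (nat_lit 1) (.cons (.rel (nat_lit 21103617)) .nil)) .nil)) .leaf) (nat_lit 11437558169327627) (.br (nat_lit 0) (.cons (.br (nat_lit 1) (.cons (.rel (nat_lit 20992005)) .nil)) .nil)) .leaf) (nat_lit 11437558172009948) (.br (nat_lit 1) (.cons (.br (nat_lit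 3) (.cons (.rel (nat_lit 570425412)) .nil)) .nil)) (.node (.node .leaf (nat_lit 11437563323984173) (.br (nat_lit 0) (.cons (.br (nat_lit 1) (.cons (.rel (nat_lit 20980740)) .nil)) .nil)) .leaf) (nat_lit 11437563326788884) (.br (nat_lit 0) (.cons (.br (nat_lit 1) (.cons (.rel (nat_lit 21103617)) .nil)) .nil)) .leaf))))

/-- refutations 74 -/
def e74 : EX := (.node (.node (.node (.node .leaf (nat_lit 11440380928833567) (.br (nat_lit 1) (.cons (.br (nat_lit 4) (.cons (.rel (nat_lit 1090519074)) .nil)) .nil)) .leaf) (nat_lit 11440380928834442) (.br (nat_lit 0) (.cons (.br (nat_lit 5) (.cons (.rel (nat_lit 8594161668)) .nil)) .nil)) .leaf) (nat_lit 11440380928874507) (.br (nat_lit 0) (.cons (.br (nat_lit 1) (.cons (.rel (nat_lit 20980740)) .nil)) .nil)) (.node (.node .leaf (nat_lit 11440380930092293) (.br (nat_lit 0) (.cons (.br (nat_lit 6) (.cons (.rel (nat_lit 17184407556)) .nil)) .nil)) .leaf) (nat_lit 11440380930099356) (.br (nat_lit 0) (.cons (.br (nat_lit 2) (.cons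 (.rel (nat_lit 142606593)) .nil)) .nil)) .leaf)) (nat_lit 11440380930100485) (.br (nat_lit 6) (.cons (.br (nat_lit 4) (.cons (.rel (nat_lit 36507222336)) (.cons (.rel (nat_lit 36507222336)) (.cons (.rel (nat_lit 19327361025)) .nil)))) .nil)) (.node (.node (.node .leaf (nat_lit 11440381001395082) (.br (nat_lit 0) (.cons (.br (nat_lit 3) (.cons (.rel (nat_lit 273022992)) .nil)) .nil)) .leaf) (nat_lit 11440381430358922) (.br (nat_lit 1) (.cons (.br (nat_lit 5) (.cons (.br (nat_lit 0) (.cons (.rel (nat_lit 4316463168)) (.cons (.rel (nat_lit 8598327558)) .nil))) .nil)) .nil)) .leaf) (nat_lit 11440381978667914) (.br (nat_lit 0) (.cons (.br (nat_lit 6) (.cons (.rel (nat_lit 17185112085)) .nil)) .nil)) (.node .leaf (nat_lit 11440612971335037) (.br (nat_lit 0) (.cons (.br (nat_lit 1) (.cons (.rel (nat_lit 20975682)) .nil)) .nil)) .leaf)))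

/-- refutations 75 -/
def e75 : EX := (.node (.node (.node (.node (.node (.node .leaf (nat_lit 11440736556791012) (.br (nat_lit 0) (.cons (.br (nat_lit 1) (.cons (.rel (nat_lit 21037125)) .nil)) .nil)) .leaf) (nat_lit 11440806296830734) (.br (nat_lit 0) (.cons (.br (nat_lit 4) (.cons (.rel (nat_lit 1082134533)) .nil)) .nil)) .leaf) (nat_lit 11440807803611417) (.br (nat_lit 0) (.cons (.br (nat_lit 1) (.cons (.rel (nat_lit 20975682)) .nil)) .nil)) (.node .leaf (nat_lit 11440808817331078) (.br (nat_lit 0) (.cons (.br (nat_lit 6) (.cons (.rel (nat_lit 17184334848)) .nil)) .nil)) .leaf)) (nat_lit 11440808817852477) (.br (nat_lit 3) (.cons (.br (nat_lit 4) (.cons (.rel (nat_lit 2415989760)) .nil)) .nil)) (.node (.node .leaf (nat_lit 11440810318892388) (.br (nat_lit 3) (.cons (.br (nat_lit 5) (.cons (.rel (nat_lit 4563800064)) .nil)) .nil)) .leaf) (nat_lit 11440810318965617) (.br (nat_lit 1) (.cons (.br (nat_lit 0) (.cons (.rel (nat_lit 22020420)) (.cons (.rel (nat_lit 20975682))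 (.cons (.rel (nat_lit 20971668)) .nil)))) (.cons (.br (nat_lit 5) (.cons (.rel (nat_lit 4311746562)) (.cons (.rel (nat_lit 4311744537)) (.cons (.rel (nat_lit 4311748740)) (.cons (.rel (nat_lit 4329570432)) (.cons (.rel (nat_lit 4311781377)) .nil)))))) .nil))) (.node .leaf (nat_lit 11440810318994335) (.br (nat_lit 1) (.cons (.br (nat_lit 0) (.cons (.rel (nat_lit 21233922)) (.cons (.rel (nat_lit 38813697)) .nil))) .nil)) .leaf))) (nat_lit 11440810319005203) (.br (nat_lit 0) (.cons (.br (nat_lit 4) (.cons (.rel (nat_lit 1077953088)) (.cons (.rel (nat_lit 1077953088)) .nil))) .nil)) (.node (.node (.node .leaf (nat_lit 11440810319168988) (.br (nat_lit 4) (.cons (.br (nat_lit 5) (.cons (.rel (nat_lit 5368709634)) .nil)) .nil)) .leaf) (nat_lit 11440810319211406) (.br (nat_lit 0) (.cons (.br (nat_lit 2) (.cons (.rel (nat_lit 71632896)) .nil)) .nil)) (.node .leaf (nat_lit 11440810319250708) (.br (nat_lit 0) (.cons (.br (nat_lit 3) (.cons (.rel (nat_lit 272892033)) .nil)) .nil))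 .leaf)) (nat_lit 11440810319412081) (.br (nat_lit 0) (.cons (.br (nat_lit 5) (.cons (.rel (nat_lit 4300210260)) .nil)) .nil)) (.node (.node .leaf (nat_lit 11440810319413549) (.br (nat_lit 5) (.cons (.br (nat_lit 1) (.cons (.rel (nat_lit 4313382912)) (.cons (.rel (nat_lit 4328522256)) .nil))) .nil)) .leaf) (nat_lit 11440810319414030) (.br (nat_lit 4) (.cons (.br (nat_lit 5) (.cons (.rel (nat_lit 10737418497)) .nil)) .nil)) (.node .leaf (nat_lit 11440810319414508) (.br (nat_lit 6) (.cons (.br (nat_lit 0) (.cons (.rel (nat_lit 17184407556)) (.cons (.rel (nat_lit 17184065088)) .nil))) .nil)) .leaf)))) (nat_lit 11440810319414628) (.br (nat_lit 5) (.cons (.br (nat_lit 6) (.cons (.rel (nat_lit 42949677312)) .nil)) .nil)) (.node (.node (.node (.node .leaf (nat_lit 11440810319477012) (.br (nat_lit 0) (.cons (.br (nat_lit 1) (.cons (.rel (nat_lit 23396352)) .nil)) .nil)) .leaf) (nat_lit 11440810319516335) (.br (nat_lit 5) (.cons (.br (nat_lit 1) (.cons (.rel (nat_lit 4328788992))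 (.cons (.rel (nat_lit 4312006980)) .nil))) .nil)) (.node .leaf (nat_lit 11440810319517083) (.br (nat_lit 0) (.cons (.br (nat_lit 3) (.cons (.rel (nat_lit 272634369)) .nil)) .nil)) .leaf)) (nat_lit 11440810320173332) (.br (nat_lit 1) (.cons (.br (nat_lit 3) (.cons (.rel (nat_lit 553664772)) .nil)) .nil)) (.node (.node .leaf (nat_lit 11440810320224532) (.br (nat_lit 0) (.cons (.br (nat_lit 5) (.cons (.rel (nat_lit 4299423762)) .nil)) .nil)) .leaf) (nat_lit 11440810320240895) (.br (nat_lit 3) (.cons (.br (nat_lit 1) (.cons (.rel (nat_lit 553648449)) (.cons (.rel (nat_lit 285245445)) .nil))) .nil)) (.node .leaf (nat_lit 11440810320427935) (.br (nat_lit 0) (.cons (.br (nat_lit 5) (.cons (.rel (nat_lit 4303372296)) (.cons (.rel (nat_lit 4303372296)) .nil))) .nil)) .leaf))) (nat_lit 11440810320428260) (.br (nat_lit 0) (.cons (.br (nat_lit 1) (.cons (.rel (nat_lit 20992005)) (.cons (.rel (nat_lit 20975682)) .nil))) (.cons (.br (nat_lit 1) (.cons (.rel (nat_lit 37765713)) (.cons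 (.rel (nat_lit 20971668)) .nil))) .nil))) (.node (.node (.node .leaf (nat_lit 11440810320704175) (.br (nat_lit 1) (.cons (.br (nat_lit 0) (.cons (.rel (nat_lit 37751424)) (.cons (.rel (nat_lit 22086912)) .nil))) .nil)) .leaf) (nat_lit 11440810320758291) (.br (nat_lit 0) (.cons (.br (nat_lit 4) (.cons (.rel (nat_lit 1082195976)) .nil)) .nil)) (.node .leaf (nat_lit 11440810321524195) (.br (nat_lit 1) (.cons (.br (nat_lit 3) (.cons (.rel (nat_lit 285245445)) .nil)) .nil)) .leaf)) (nat_lit 11440810321986162) (.br (nat_lit 0) (.cons (.br (nat_lit 5) (.cons (.rel (nat_lit 4299231744)) .nil)) .nil)) (.node (.node .leaf (nat_lit 11440810322015460) (.br (nat_lit 0) (.cons (.br (nat_lit 1) (.cons (.rel (nat_lit 20975682)) (.cons (.rel (nat_lit 20992005)) (.cons (.rel (nat_lit 21004305)) .nil)))) (.cons (.br (nat_lit 4) (.cons (.rel (nat_lit 1077953088)) (.cons (.rel (nat_lit 1077953088)) (.cons (.rel (nat_lit 2151940368)) (.cons (.rel (nat_lit 1077953088)) (.cons (.rel (nat_lit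 2151809028)) (.cons (.rel (nat_lit 1078526208)) .nil))))))) .nil))) .leaf) (nat_lit 11440810322037996) (.br (nat_lit 0) (.cons (.br (nat_lit 1) (.cons (.rel (nat_lit 23396352)) .nil)) .nil)) (.node .leaf (nat_lit 11440810322064660) (.br (nat_lit 0) (.cons (.br (nat_lit 1) (.cons (.rel (nat_lit 21004305)) (.cons (.rel (nat_lit 20975682)) .nil))) (.cons (.br (nat_lit 1) (.cons (.rel (nat_lit 20971668)) (.cons (.rel (nat_lit 20990016)) .nil))) .nil))) .leaf)))))

/-- refutations 76 -/
def e76 : EX := (.node (.node (.node (.node .leaf (nat_lit 11441372107050245) (.br (nat_lit 0) (.cons (.br (nat_lit 2) (.cons (.rel (nat_lit 75517953)) .nil)) .nil)) .leaf) (nat_lit 11441377846493220) (.br (nat_lit 0) (.cons (.br (nat_lit 1) (.cons (.rel (nat_lit 20971668)) .nil)) .nil)) (.node .leaf (nat_lit 11441377846494086) (.br (nat_lit 4) (.cons (.br (nat_lit 6) (.cons (.rel (nat_lit 18254659680)) .nil)) .nil)) .leaf)) (nat_lit 11441377847529628) (.br (nat_lit 5) (.cons (.br (nat_lit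 6) (.cons (.rel (nat_lit 21475361088)) .nil)) .nil)) (.node (.node .leaf (nat_lit 11441377847762297) (.br (nat_lit 4) (.cons (.br (nat_lit 5) (.cons (.rel (nat_lit 10737418497)) .nil)) .nil)) .leaf) (nat_lit 11441377848806158) (.br (nat_lit 3) (.cons (.br (nat_lit 5) (.cons (.rel (nat_lit 4831854612)) .nil)) .nil)) (.node .leaf (nat_lit 11441377849052038) (.br (nat_lit 0) (.cons (.br (nat_lit 4) (.cons (.rel (nat_lit 1082146833)) .nil)) .nil)) .leaf))) (nat_lit 11441411719193482) (.br (nat_lit 0) (.cons (.br (nat_lit 5) (.cons (.rel (nat_lit 4299444288)) .nil)) .nil)) (.node (.node (.node .leaf (nat_lit 11441412222509962) (.br (nat_lit 0) (.cons (.br (nat_lit 5) (.cons (.rel (nat_lit 4299444288)) (.cons (.rel (nat_lit 4300214274)) (.cons (.rel (nat_lit 4299423762)) (.cons (.rel (nat_lit 4299423762)) .nil))))) .nil)) .leaf) (nat_lit 11441412223009579) (.br (nat_lit 3) (.cons (.br (nat_lit 4) (.cons (.rel (nat_lit 2415989760)) .nil)) .nil)) (.node .leaf (nat_lit 11441412223111444)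 (.br (nat_lit 0) (.cons (.br (nat_lit 1) (.cons (.rel (nat_lit 21004305)) .nil)) .nil)) .leaf)) (nat_lit 11441412224136070) (.br (nat_lit 1) (.cons (.br (nat_lit 5) (.cons (.rel (nat_lit 8623490049)) .nil)) .nil)) (.node (.node .leaf (nat_lit 11441412224299040) (.br (nat_lit 0) (.cons (.br (nat_lit 6) (.cons (.rel (nat_lit 34363932681)) .nil)) .nil)) .leaf) (nat_lit 11441412225559434) (.br (nat_lit 0) (.cons (.br (nat_lit 1) (.cons (.rel (nat_lit 20975682)) .nil)) .nil)) .leaf)))

/-- refutations 77 -/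
def e77 : EX := (.node (.node (.node (.node .leaf (nat_lit 11441455194689692) (.br (nat_lit 4) (.cons (.br (nat_lit 5) (.cons (.rel (nat_lit 5368987680)) .nil)) .nil)) .leaf) (nat_lit 11441455194691067) (.br (nat_lit 0) (.cons (.br (nat_lit 4) (.cons (.rel (nat_lit 2151679104)) (.cons (.br (nat_lit 6) (.cons (.rel (nat_lit 17185116288)) (.cons (.rel (nat_lit 18254823432)) (.cons (.rel (nat_lit 18253611648)) .nil)))) .nil))) .nil)) (.node .leaf (nat_lit 11441455195956610) (.br (nat_lit 2) (.cons (.br (nat_lit 4) (.cons (.rel (nat_lit 1141112964)) (.cons (.rel (nat_lit 1141112964)) .nil))) (.cons (.br (nat_lit 6) (.cons (.rel (nat_lit 34426851396)) (.cons (.rel (nat_lit 34426929153)) (.cons (.rel (nat_lit 34493964624)) .nil)))) .nil))) .leaf)) (nat_lit 11441670467086617) (.br (nat_lit 3) (.cons (.br (nat_lit 4) (.cons (.rel (nat_lit 1343225937)) .nil)) .nil)) (.node (.node .leaf (nat_lit 11441670468879617) (.br (nat_lit 1) (.cons (.br (nat_lit 2) (.cons (.rel (nat_lit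 83903493)) .nil)) .nil)) .leaf) (nat_lit 11441816601344906) (.br (nat_lit 0) (.cons (.br (nat_lit 2) (.cons (.rel (nat_lit 72417360)) .nil)) .nil)) (.node .leaf (nat_lit 11442529459355773) (.br (nat_lit 0) (.cons (.br (nat_lit 3) (.cons (.rel (nat_lit 272892033)) .nil)) .nil)) .leaf))) (nat_lit 11442529459763860) (.br (nat_lit 0) (.cons (.br (nat_lit 6) (.cons (.rel (nat_lit 17184407556)) .nil)) .nil)) (.node (.node (.node .leaf (nat_lit 11442529460545817) (.br (nat_lit 5) (.cons (.br (nat_lit 1) (.cons (.rel (nat_lit 4311761040)) (.cons (.rel (nat_lit 4311746562)) (.cons (.rel (nat_lit 4311781377)) (.cons (.rel (nat_lit 4311748740)) .nil))))) .nil)) .leaf) (nat_lit 11442529460901375) (.br (nat_lit 0) (.cons (.br (nat_lit 2) (.cons (.rel (nat_lit 75497616)) .nil)) .nil)) (.node .leaf (nat_lit 11442529461098507) (.br (nat_lit 0) (.cons (.br (nat_lit 3) (.cons (.rel (nat_lit 272892033)) .nil)) .nil)) .leaf)) (nat_lit 11442529461099308) (.br (nat_lit 1) (.cons (.br (nat_lit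 3) (.cons (.rel (nat_lit 285246480)) .nil)) .nil)) (.node (.node .leaf (nat_lit 11442529461803289) (.br (nat_lit 0) (.cons (.br (nat_lit 4) (.cons (.rel (nat_lit 2151747585)) .nil)) .nil)) .leaf) (nat_lit 11442529461804539) (.br (nat_lit 3) (.cons (.br (nat_lit 4) (.cons (.rel (nat_lit 1342439448)) .nil)) .nil)) (.node .leaf (nat_lit 11442529462367639) (.br (nat_lit 0) (.cons (.br (nat_lit 3) (.cons (.rel (nat_lit 273678342)) .nil)) .nil)) .leaf))))

/-- refutations 78 -/
def e78 : EX := (.node (.node (.node (.node .leaf (nat_lit 11442701341821830) (.br (nat_lit 0) (.cons (.br (nat_lit 1) (.cons (.rel (nat_lit 20990016)) .nil)) .nil)) .leaf) (nat_lit 11442701342343469) (.br (nat_lit 0) (.cons (.br (nat_lit 3) (.cons (.rel (nat_lit 272892033)) .nil)) .nil)) (.node .leaf (nat_lit 11442867256161756) (.br (nat_lit 0) (.cons (.br (nat_lit 1) (.cons (.rel (nat_lit 38802432)) .nil)) .nil)) .leaf)) (nat_lit 11442867781542165) (.br (nat_lit 1) (.cons (.br (nat_lit 3) (.cons (.rel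 (nat_lit 285212808)) .nil)) .nil)) (.node (.node .leaf (nat_lit 11442869978009052) (.br (nat_lit 1) (.cons (.br (nat_lit 2) (.cons (.rel (nat_lit 83892228)) .nil)) .nil)) .leaf) (nat_lit 11442871903194468) (.br (nat_lit 3) (.cons (.br (nat_lit 5) (.cons (.rel (nat_lit 4564451400)) .nil)) .nil)) (.node .leaf (nat_lit 11442871903194588) (.br (nat_lit 4) (.cons (.br (nat_lit 5) (.cons (.rel (nat_lit 6442453008)) (.cons (.rel (nat_lit 6442598400)) .nil))) .nil)) .leaf))) (nat_lit 11442871903267697) (.br (nat_lit 0) (.cons (.br (nat_lit 5) (.cons (.rel (nat_lit 4300210260)) .nil)) .nil)) (.node (.node (.node .leaf (nat_lit 11442871903470828) (.br (nat_lit 3) (.cons (.br (nat_lit 5) (.cons (.rel (nat_lit 8858387520)) .nil)) .nil)) .leaf) (nat_lit 11442872406510948) (.br (nat_lit 3) (.cons (.br (nat_lit 5) (.cons (.rel (nat_lit 4564451400)) (.cons (.rel (nat_lit 8858387520)) (.cons (.rel (nat_lit 4564456449)) .nil)))) .nil)) (.node .leaf (nat_lit 11442872406511068) (.br (nat_lit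 3) (.cons (.br (nat_lit 4) (.cons (.br (nat_lit 6) (.cons (.rel (nat_lit 18254020608)) .nil)) .nil)) .nil)) .leaf)) (nat_lit 11442872406622269) (.br (nat_lit 0) (.cons (.br (nat_lit 4) (.cons (.rel (nat_lit 1079001120)) .nil)) .nil)) (.node (.node .leaf (nat_lit 11442872406869268) (.br (nat_lit 3) (.cons (.br (nat_lit 5) (.cons (.rel (nat_lit 4563485184)) .nil)) .nil)) .leaf) (nat_lit 11442890100696542) (.br (nat_lit 0) (.cons (.br (nat_lit 2) (.cons (.rel (nat_lit 142606593)) .nil)) .nil)) (.node .leaf (nat_lit 11442890101267742) (.br (nat_lit 0) (.cons (.br (nat_lit 3) (.cons (.rel (nat_lit 273678342)) .nil)) .nil)) .leaf))))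

/-- refutations 79 -/
def e79 : EX := (.node (.node (.node (.node .leaf (nat_lit 11442933068750983) (.br (nat_lit 2) (.cons (.br (nat_lit 3) (.cons (.rel (nat_lit 335822868)) .nil)) .nil)) .leaf) (nat_lit 11442933068751754) (.br (nat_lit 1) (.cons (.br (nat_lit 5) (.cons (.rel (nat_lit 4311748740)) .nil)) .nil)) (.node .leaf (nat_lit 11442933068839039) (.br (nat_lit 0) (.cons (.br (nat_lit 1) (.cons (.rel (nat_lit 21103617)) .nil)) .nil)) .leaf)) (nat_lit 11442933070323847) (.br (nat_lit 2) (.cons (.br (nat_lit 3) (.cons (.rel (nat_lit 335545857)) .nil)) .nil)) (.node (.node .leaf (nat_lit 11442933071823758) (.br (nat_lit 0) (.cons (.br (nat_lit 1) (.cons (.rel (nat_lit 20971668)) .nil)) .nil)) .leaf) (nat_lit 11442933071922652) (.br (nat_lit 1) (.cons (.br (nat_lit 3) (.cons (.rel (nat_lit 570425412)) .nil)) .nil)) .leaf)) (nat_lit 11445675640749567) (.br (nat_lit 0) (.cons (.br (nat_lit 3) (.cons (.rel (nat_lit 273678342)) (.cons (.rel (nat_lit 276824100)) .nil)))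 .nil)) (.node (.node (.node .leaf (nat_lit 11445675640750381) (.br (nat_lit 0) (.cons (.br (nat_lit 1) (.cons (.rel (nat_lit 21004305)) .nil)) .nil)) .leaf) (nat_lit 11445675640750382) (.br (nat_lit 0) (.cons (.br (nat_lit 1) (.cons (.rel (nat_lit 21053448)) .nil)) .nil)) .leaf) (nat_lit 11445675640751460) (.br (nat_lit 0) (.cons (.br (nat_lit 3) (.cons (.rel (nat_lit 276824100)) .nil)) .nil)) (.node (.node .leaf (nat_lit 11445675640751617) (.br (nat_lit 1) (.cons (.br (nat_lit 3) (.cons (.rel (nat_lit 285212808)) .nil)) .nil)) .leaf) (nat_lit 11445675640843775) (.br (nat_lit 0) (.cons (.br (nat_lit 1) (.cons (.rel (nat_lit 22041984)) .nil)) .nil)) .leaf)))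

/-- refutations 80 -/
def e80 : EX := (.node (.node (.node (.node (.node .leaf (nat_lit 11445710017071280) (.br (nat_lit 3) (.cons (.br (nat_lit 4) (.cons (.rel (nat_lit 1343225937)) .nil)) .nil)) .leaf) (nat_lit 11445710017071861) (.br (nat_lit 1) (.cons (.br (nat_lit 6) (.cons (.rel (nat_lit 17196648576)) .nil)) .nil)) (.node .leaf (nat_lit 11445710017072604) (.br (nat_lit 2) (.cons (.br (nat_lit 5) (.cons (.rel (nat_lit 4363124772)) .nil)) .nil)) .leaf)) (nat_lit 11445710017256924) (.br (nat_lit 2) (.cons (.br (nat_lit 3) (.cons (.rel (nat_lit 335872002)) .nil)) .nil)) (.node (.node .leaf (nat_lit 11445710018384048) (.br (nat_lit 3) (.cons (.br (nat_lit 1) (.cons (.rel (nat_lit 285212808)) (.cons (.rel (nat_lit 285229122)) (.cons (.rel (nat_lit 285212808)) .nil)))) .nil)) .leaf) (nat_lit 11445710018557983) (.br (nat_lit 1) (.cons (.br (nat_lit 4) (.cons (.rel (nat_lit 1090520073)) (.cons (.rel (nat_lit 1090521108)) .nil))) .nil)) .leaf)) (nat_lit 11445710018598923)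 (.br (nat_lit 1) (.cons (.br (nat_lit 2) (.cons (.rel (nat_lit 83887170)) .nil)) .nil)) (.node (.node (.node .leaf (nat_lit 11445710019568373) (.br (nat_lit 4) (.cons (.br (nat_lit 5) (.cons (.rel (nat_lit 5369765892)) .nil)) .nil)) .leaf) (nat_lit 11445710019926047) (.br (nat_lit 0) (.cons (.br (nat_lit 1) (.cons (.rel (nat_lit 20980740)) .nil)) .nil)) (.node .leaf (nat_lit 11445710019926926) (.br (nat_lit 0) (.cons (.br (nat_lit 1) (.cons (.rel (nat_lit 38010885)) (.cons (.rel (nat_lit 21053448)) .nil))) .nil)) .leaf)) (nat_lit 11445710019927326) (.br (nat_lit 0) (.cons (.br (nat_lit 5) (.cons (.rel (nat_lit 4303372296)) .nil)) .nil)) (.node (.node .leaf (nat_lit 11445710019937756) (.br (nat_lit 3) (.cons (.br (nat_lit 4) (.cons (.rel (nat_lit 1343291394)) .nil)) .nil)) .leaf) (nat_lit 11445712536520156) (.br (nat_lit 1) (.cons (.br (nat_lit 4) (.cons (.rel (nat_lit 2181038097)) .nil)) .nil)) .leaf))) (nat_lit 11445715885088220) (.br (nat_lit 1) (.cons (.br (nat_lit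 3) (.cons (.rel (nat_lit 570425412)) .nil)) .nil)) (.node (.node (.node (.node .leaf (nat_lit 11445716326832139) (.br (nat_lit 0) (.cons (.br (nat_lit 1) (.cons (.rel (nat_lit 21053448)) .nil)) .nil)) .leaf) (nat_lit 11445718610873222) (.br (nat_lit 0) (.cons (.br (nat_lit 4) (.cons (.rel (nat_lit 2151809028)) .nil)) .nil)) (.node .leaf (nat_lit 11445718610881422) (.br (nat_lit 0) (.cons (.br (nat_lit 2) (.cons (.rel (nat_lit 72359940)) .nil)) .nil)) .leaf)) (nat_lit 11445718610936710) (.br (nat_lit 0) (.cons (.br (nat_lit 1) (.cons (.rel (nat_lit 21004305)) .nil)) .nil)) (.node (.node .leaf (nat_lit 11445718611394596) (.br (nat_lit 0) (.cons (.br (nat_lit 4) (.cons (.rel (nat_lit 1077953088)) .nil)) .nil)) .leaf) (nat_lit 11445718612431750) (.br (nat_lit 0) (.cons (.br (nat_lit 5) (.cons (.rel (nat_lit 4299425796)) .nil)) .nil)) .leaf)) (nat_lit 11445718612521862) (.br (nat_lit 0) (.cons (.br (nat_lit 1) (.cons (.rel (nat_lit 21103617)) .nil)) .nil)) (.node (.node (.node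 .leaf (nat_lit 11445718612684832) (.br (nat_lit 0) (.cons (.br (nat_lit 6) (.cons (.rel (nat_lit 17185210368)) (.cons (.rel (nat_lit 34368259332)) (.cons (.rel (nat_lit 17184065088)) .nil)))) .nil)) .leaf) (nat_lit 11445723762000774) (.br (nat_lit 0) (.cons (.br (nat_lit 3) (.cons (.rel (nat_lit 276825090)) .nil)) .nil)) (.node .leaf (nat_lit 11445723954416518) (.br (nat_lit 0) (.cons (.br (nat_lit 1) (.cons (.rel (nat_lit 21053448)) .nil)) .nil)) .leaf)) (nat_lit 11445723956011143) (.br (nat_lit 0) (.cons (.br (nat_lit 5) (.cons (.rel (nat_lit 4300228608)) .nil)) .nil)) (.node (.node .leaf (nat_lit 11445724288325140) (.br (nat_lit 0) (.cons (.br (nat_lit 1) (.cons (.rel (nat_lit 41944134)) .nil)) .nil)) .leaf) (nat_lit 11445725004632240) (.br (nat_lit 0) (.cons (.br (nat_lit 3) (.cons (.rel (nat_lit 545282304)) .nil)) .nil)) .leaf))))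

/-- refutations 81 -/
def e81 : EX := (.node (.node (.node (.node .leaf (nat_lit 11445752987491231) (.br (nat_lit 4) (.cons (.br (nat_lit 5) (.cons (.rel (nat_lit 10737418497)) .nil)) .nil)) .leaf) (nat_lit 11445752987901404) (.br (nat_lit 2) (.cons (.br (nat_lit 4) (.cons (.rel (nat_lit 1141112964)) .nil)) .nil)) .leaf) (nat_lit 11445752988924810) (.br (nat_lit 0) (.cons (.br (nat_lit 6) (.cons (.rel (nat_lit 34368147720)) .nil)) .nil)) (.node (.node .leaf (nat_lit 11445752988946588) (.br (nat_lit 5) (.cons (.br (nat_lit 6) (.cons (.rel (nat_lit 21475102848)) .nil)) .nil)) .leaf) (nat_lit 11445752990060056) (.br (nat_lit 1) (.cons (.br (nat_lit 2) (.cons (.rel (nat_lit 150999360)) .nil)) .nil)) .leaf)) (nat_lit 11445752990512031) (.br (nat_lit 5) (.cons (.br (nat_lit 0) (.cons (.rel (nat_lit 4301259012)) (.cons (.rel (nat_lit 4300210260)) .nil))) .nil)) (.node (.node (.node .leaf (nat_lit 11445758731949437) (.br (nat_lit 0) (.cons (.br (nat_lit 3) (.cons (.rel (nat_lit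 272908356)) .nil)) .nil)) .leaf) (nat_lit 11445761582039077) (.br (nat_lit 2) (.cons (.br (nat_lit 6) (.cons (.rel (nat_lit 17247240288)) .nil)) .nil)) .leaf) (nat_lit 11445761583319077) (.br (nat_lit 2) (.cons (.br (nat_lit 0) (.cons (.rel (nat_lit 142606593)) (.cons (.rel (nat_lit 142606593)) (.cons (.rel (nat_lit 71632896)) .nil)))) .nil)) (.node .leaf (nat_lit 11445761583383913) (.br (nat_lit 1) (.cons (.br (nat_lit 2) (.cons (.rel (nat_lit 101713920)) .nil)) .nil)) .leaf)))

/-- refutations 82 -/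
def e82 : EX := (.node (.node (.node (.node .leaf (nat_lit 11445873305303192) (.br (nat_lit 0) (.cons (.br (nat_lit 1) (.cons (.rel (nat_lit 20992005)) .nil)) .nil)) .leaf) (nat_lit 11445873305705948) (.br (nat_lit 1) (.cons (.br (nat_lit 3) (.cons (.rel (nat_lit 570425412)) .nil)) .nil)) .leaf) (nat_lit 11445873305712816) (.br (nat_lit 0) (.cons (.br (nat_lit 2) (.cons (.rel (nat_lit 71566404)) .nil)) .nil)) (.node .leaf (nat_lit 11445873305714738) (.br (nat_lit 2) (.cons (.br (nat_lit 4) (.cons (.rel (nat_lit 1140855300)) (.cons (.rel (nat_lit 1207976001)) .nil))) (.cons (.br (nat_lit 4) (.cons (.rel (nat_lit 1140855300)) (.cons (.rel (nat_lit 1141145601)) .nil))) .nil))) .leaf)) (nat_lit 11445873307048562) (.br (nat_lit 0) (.cons (.br (nat_lit 3) (.cons (.rel (nat_lit 272634369)) .nil)) .nil)) (.node (.node (.node .leaf (nat_lit 11445873308132865) (.br (nat_lit 0) (.cons (.br (nat_lit 2) (.cons (.rel (nat_lit 71303682)) .nil)) .nil)) .leaf) (nat_lit 11445873308316529)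 (.br (nat_lit 2) (.cons (.br (nat_lit 3) (.cons (.rel (nat_lit 335822868)) .nil)) .nil)) .leaf) (nat_lit 11445882755482411) (.br (nat_lit 0) (.cons (.br (nat_lit 1) (.cons (.rel (nat_lit 20992005)) .nil)) .nil)) (.node .leaf (nat_lit 11445884309773788) (.br (nat_lit 0) (.cons (.br (nat_lit 1) (.cons (.rel (nat_lit 20971668)) .nil)) .nil)) .leaf)))

/-- refutations 83 -/
def e83 : EX := (.node (.node (.node (.node (.node .leaf (nat_lit 11445890912993432) (.br (nat_lit 0) (.cons (.br (nat_lit 1) (.cons (.rel (nat_lit 20971668)) .nil)) .nil)) .leaf) (nat_lit 11445890915976449) (.br (nat_lit 1) (.cons (.br (nat_lit 4) (.cons (.rel (nat_lit 1090519074)) .nil)) .nil)) .leaf) (nat_lit 11445895549145244) (.br (nat_lit 0) (.cons (.br (nat_lit 4) (.cons (.rel (nat_lit 1078199298)) .nil)) .nil)) (.node .leaf (nat_lit 11445895752008985) (.br (nat_lit 0) (.cons (.br (nat_lit 4) (.cons (.rel (nat_lit 1078526208)) .nil)) .nil)) .leaf)) (nat_lit 11445895752057742) (.br (nat_lit 1) (.cons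 (.br (nat_lit 3) (.cons (.rel (nat_lit 285246480)) .nil)) .nil)) (.node (.node (.node .leaf (nat_lit 11445895752107289) (.br (nat_lit 1) (.cons (.br (nat_lit 2) (.cons (.rel (nat_lit 83892228)) .nil)) .nil)) .leaf) (nat_lit 11446190973461765) (.br (nat_lit 3) (.cons (.br (nat_lit 4) (.cons (.rel (nat_lit 2416001025)) .nil)) .nil)) .leaf) (nat_lit 11446749906400117) (.br (nat_lit 0) (.cons (.br (nat_lit 1) (.cons (.rel (nat_lit 22086912)) .nil)) .nil)) (.node .leaf (nat_lit 11446749906595992) (.br (nat_lit 3) (.cons (.br (nat_lit 6) (.cons (.rel (nat_lit 34628173857)) .nil)) .nil)) .leaf))) (nat_lit 11446749907669144) (.br (nat_lit 3) (.cons (.br (nat_lit 1) (.cons (.rel (nat_lit 285212808)) (.cons (.rel (nat_lit 570425412)) .nil))) .nil)) (.node (.node (.node (.node .leaf (nat_lit 11446749907875891) (.br (nat_lit 1) (.cons (.br (nat_lit 3) (.cons (.rel (nat_lit 285245445)) .nil)) .nil)) .leaf) (nat_lit 11446749907875992) (.br (nat_lit 3) (.cons (.br (nat_lit 6) (.cons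 (.rel (nat_lit 17448321552)) (.cons (.rel (nat_lit 17717018880)) (.cons (.rel (nat_lit 17448309252)) .nil)))) (.cons (.br (nat_lit 6) (.cons (.br (nat_lit 1) (.cons (.rel (nat_lit 17196648576)) (.cons (.rel (nat_lit 17196650565)) (.cons (.rel (nat_lit 285212808)) (.cons (.rel (nat_lit 570425412)) .nil))))) (.cons (.br (nat_lit 0) (.cons (.rel (nat_lit 34363932681)) (.cons (.rel (nat_lit 17184407556)) (.cons (.rel (nat_lit 17184407556)) (.cons (.rel (nat_lit 34363932681)) (.cons (.rel (nat_lit 17185113120)) .nil)))))) (.cons (.rel (nat_lit 34628173857)) .nil)))) .nil))) .leaf) (nat_lit 11446749907877146) (.br (nat_lit 2) (.cons (.br (nat_lit 3) (.cons (.rel (nat_lit 335806545)) .nil)) .nil)) (.node .leaf (nat_lit 11446749907898524) (.br (nat_lit 0) (.cons (.br (nat_lit 5) (.cons (.rel (nat_lit 4299423762)) (.cons (.rel (nat_lit 8598341892)) .nil))) .nil)) .leaf)) (nat_lit 11446749909421317) (.br (nat_lit 0) (.cons (.br (nat_lit 1) (.cons (.rel (nat_lit 20990016)) (.cons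 (.rel (nat_lit 21004305)) .nil))) .nil)) (.node (.node .leaf (nat_lit 11446754748103962) (.br (nat_lit 0) (.cons (.br (nat_lit 1) (.cons (.rel (nat_lit 25167168)) .nil)) .nil)) .leaf) (nat_lit 11446754748162183) (.br (nat_lit 0) (.cons (.br (nat_lit 1) (.cons (.rel (nat_lit 20971668)) .nil)) .nil)) (.node .leaf (nat_lit 11446755058540679) (.br (nat_lit 0) (.cons (.br (nat_lit 1) (.cons (.rel (nat_lit 20990016)) .nil)) .nil)) .leaf))))

/-- refutations 84 -/
def e84 : EX := (.node (.node (.node .leaf (nat_lit 11446818125594656) (.br (nat_lit 0) (.cons (.br (nat_lit 1) (.cons (.rel (nat_lit 20992005)) .nil)) .nil)) .leaf) (nat_lit 11446820757825817) (.br (nat_lit 0) (.cons (.br (nat_lit 5) (.cons (.rel (nat_lit 8594161668)) .nil)) .nil)) (.node .leaf (nat_lit 11446824429634817) (.br (nat_lit 0) (.cons (.br (nat_lit 5) (.cons (.rel (nat_lit 4303355973)) (.cons (.rel (nat_lit 4300214274)) (.cons (.rel (nat_lit 8594161668)) .nil)))) .nil)) .leaf)) (nat_lit 11446960712060380)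 (.br (nat_lit 0) (.cons (.br (nat_lit 2) (.cons (.rel (nat_lit 75579396)) .nil)) .nil)) (.node (.node .leaf (nat_lit 11447002160171910) (.br (nat_lit 3) (.cons (.br (nat_lit 5) (.cons (.br (nat_lit 0) (.cons (.rel (nat_lit 4303357008)) (.cons (.rel (nat_lit 4299444288)) (.cons (.rel (nat_lit 272695812)) .nil)))) (.cons (.rel (nat_lit 4564467714)) .nil))) .nil)) .leaf) (nat_lit 11447003661732742) (.br (nat_lit 0) (.cons (.br (nat_lit 5) (.cons (.rel (nat_lit 4300210260)) .nil)) .nil)) (.node .leaf (nat_lit 11447004165049820) (.br (nat_lit 4) (.cons (.br (nat_lit 6) (.cons (.rel (nat_lit 19327386624)) .nil)) .nil)) .leaf)))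

/-- refutations 85 -/
def e85 : EX := (.node (.node (.node (.node (.node .leaf (nat_lit 11447179298579242) (.br (nat_lit 0) (.cons (.br (nat_lit 4) (.cons (.rel (nat_lit 2151747585)) .nil)) .nil)) .leaf) (nat_lit 11447179298734381) (.br (nat_lit 0) (.cons (.br (nat_lit 4) (.cons (.rel (nat_lit 1079001120)) .nil)) .nil)) .leaf) (nat_lit 11447179300824542) (.br (nat_lit 0) (.cons (.br (nat_lit 4) (.cons (.rel (nat_lit 2156007744)) .nil)) .nil)) (.node .leaf (nat_lit 11447179838266654) (.br (nat_lit 0) (.cons (.br (nat_lit 1) (.cons (.rel (nat_lit 38813697)) .nil)) .nil)) .leaf)) (nat_lit 11447824172460942) (.br (nat_lit 0) (.cons (.br (nat_lit 3) (.cons (.rel (nat_lit 272892033)) .nil)) .nil)) (.node (.node .leaf (nat_lit 11447824173754649) (.br (nat_lit 0) (.cons (.br (nat_lit 4) (.cons (.rel (nat_lit 1078222848)) .nil)) .nil)) .leaf) (nat_lit 11447824173802972) (.br (nat_lit 1) (.cons (.br (nat_lit 2) (.cons (.rel (nat_lit 101187840)) .nil)) .nil)) (.node .leaf (nat_lit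 11447824175013125) (.br (nat_lit 0) (.cons (.br (nat_lit 1) (.cons (.rel (nat_lit 20971668)) .nil)) .nil)) .leaf))) (nat_lit 11447849419503768) (.br (nat_lit 0) (.cons (.br (nat_lit 1) (.cons (.rel (nat_lit 21038160)) .nil)) .nil)) (.node (.node (.node .leaf (nat_lit 11447851510933656) (.br (nat_lit 0) (.cons (.br (nat_lit 1) (.cons (.rel (nat_lit 20980740)) .nil)) .nil)) .leaf) (nat_lit 11447851512461464) (.br (nat_lit 1) (.cons (.br (nat_lit 6) (.cons (.rel (nat_lit 17196666888)) .nil)) .nil)) (.node .leaf (nat_lit 11447851512520839) (.br (nat_lit 1) (.cons (.br (nat_lit 2) (.cons (.rel (nat_lit 83903493)) .nil)) .nil)) .leaf)) (nat_lit 11447851513557293) (.br (nat_lit 0) (.cons (.br (nat_lit 1) (.cons (.rel (nat_lit 21233922)) .nil)) .nil)) (.node (.node .leaf (nat_lit 11447851513841816) (.br (nat_lit 0) (.cons (.br (nat_lit 1) (.cons (.rel (nat_lit 21037125)) .nil)) .nil)) .leaf) (nat_lit 11447851514048573) (.br (nat_lit 0) (.cons (.br (nat_lit 1) (.cons (.rel (nat_lit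 20992005)) .nil)) .nil)) (.node .leaf (nat_lit 11447851514069168) (.br (nat_lit 0) (.cons (.br (nat_lit 1) (.cons (.rel (nat_lit 20992005)) .nil)) .nil)) .leaf))))

/-- refutations 86 -/
def e86 : EX := (.node (.node (.node (.node .leaf (nat_lit 11448030431545405) (.br (nat_lit 0) (.cons (.br (nat_lit 3) (.cons (.rel (nat_lit 273679377)) .nil)) .nil)) .leaf) (nat_lit 11448030431546246) (.br (nat_lit 3) (.cons (.br (nat_lit 4) (.cons (.rel (nat_lit 1342439448)) .nil)) .nil)) .leaf) (nat_lit 11448030431568778) (.br (nat_lit 0) (.cons (.br (nat_lit 1) (.cons (.rel (nat_lit 21233922)) .nil)) .nil)) (.node (.node .leaf (nat_lit 11448030431822726) (.br (nat_lit 0) (.cons (.br (nat_lit 5) (.cons (.rel (nat_lit 4299702528)) .nil)) .nil)) .leaf) (nat_lit 11448030431865133) (.br (nat_lit 1) (.cons (.br (nat_lit 4) (.cons (.rel (nat_lit 1090527300)) .nil)) .nil)) .leaf)) (nat_lit 11448030433082254) (.br (nat_lit 1) (.cons (.br (nat_lit 2) (.cons (.rel (nat_lit 83886180)) .nil))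 .nil)) (.node (.node (.node .leaf (nat_lit 11448034453883782) (.br (nat_lit 0) (.cons (.br (nat_lit 6) (.cons (.rel (nat_lit 17188290624)) .nil)) .nil)) .leaf) (nat_lit 11448034957200860) (.br (nat_lit 3) (.cons (.br (nat_lit 6) (.cons (.rel (nat_lit 17449354260)) .nil)) .nil)) .leaf) (nat_lit 11448115594088759) (.br (nat_lit 0) (.cons (.br (nat_lit 2) (.cons (.rel (nat_lit 71566404)) .nil)) .nil)) (.node .leaf (nat_lit 11448120353332127) (.br (nat_lit 1) (.cons (.br (nat_lit 2) (.cons (.rel (nat_lit 167854080)) .nil)) .nil)) .leaf)))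

/-- refutations 88 -/
def e88 : EX := (.node (.node (.node .leaf (nat_lit 11525081008302141) (.br (nat_lit 0) (.cons (.br (nat_lit 1) (.cons (.rel (nat_lit 25167168)) .nil)) .nil)) .leaf) (nat_lit 11525081008558887) (.br (nat_lit 1) (.cons (.br (nat_lit 2) (.cons (.rel (nat_lit 83890194)) (.cons (.rel (nat_lit 83952672)) .nil))) .nil)) (.node .leaf (nat_lit 11525081008744509) (.br (nat_lit 0) (.cons (.br (nat_lit 1) (.cons (.rel (nat_lit 41944134)) .nil)) .nil)) .leaf)) (nat_lit 11525081010791207) (.br (nat_lit 1) (.cons (.br (nat_lit 3) (.cons (.rel (nat_lit 570425412)) .nil)) .nil)) (.node (.node .leaf (nat_lit 11525081010839613) (.br (nat_lit 0) (.cons (.br (nat_lit 1) (.cons (.rel (nat_lit 21103617)) .nil)) .nil)) .leaf) (nat_lit 11525081138767933) (.br (nat_lit 0) (.cons (.br (nat_lit 1) (.cons (.rel (nat_lit 25170192)) .nil)) .nil)) (.node .leaf (nat_lit 11525298383818928) (.br (nat_lit 0) (.cons (.br (nat_lit 1) (.cons (.rel (nat_lit 25172229)) .nil)) .nil))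 .leaf)))

/-- refutations 89 -/
def e89 : EX := (.node (.node (.node (.node (.node .leaf (nat_lit 11528559931761522) (.br (nat_lit 5) (.cons (.br (nat_lit 0) (.cons (.rel (nat_lit 4299231744)) (.cons (.rel (nat_lit 8594134080)) .nil))) .nil)) .leaf) (nat_lit 11528559931761547) (.br (nat_lit 0) (.cons (.br (nat_lit 1) (.cons (.rel (nat_lit 20990016)) .nil)) .nil)) .leaf) (nat_lit 11528559931790619) (.br (nat_lit 0) (.cons (.br (nat_lit 2) (.cons (.rel (nat_lit 71303682)) .nil)) .nil)) (.node (.node .leaf (nat_lit 11528559931812722) (.br (nat_lit 2) (.cons (.br (nat_lit 5) (.cons (.rel (nat_lit 4362469377)) .nil)) .nil)) .leaf) (nat_lit 11528559931813140) (.br (nat_lit 2) (.cons (.br (nat_lit 3) (.cons (.rel (nat_lit 603987969)) (.cons (.rel (nat_lit 335806545)) (.cons (.rel (nat_lit 335545857)) .nil)))) (.cons (.br (nat_lit 5) (.cons (.rel (nat_lit 4362355776)) (.cons (.rel (nat_lit 4362143232)) (.cons (.rel (nat_lit 4362143232)) (.cons (.rel (nat_lit 4362355776)) .nil)))))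 (.cons (.br (nat_lit 4) (.cons (.rel (nat_lit 1141182480)) (.cons (.rel (nat_lit 2214593616)) (.cons (.rel (nat_lit 1209532416)) (.cons (.rel (nat_lit 1141134336)) (.cons (.rel (nat_lit 1207964736)) .nil)))))) .nil)))) .leaf)) (nat_lit 11528559932017397) (.br (nat_lit 2) (.cons (.br (nat_lit 0) (.cons (.rel (nat_lit 71303682)) (.cons (.rel (nat_lit 71303682)) .nil))) .nil)) (.node (.node (.node .leaf (nat_lit 11528559932222197) (.br (nat_lit 1) (.cons (.br (nat_lit 4) (.cons (.rel (nat_lit 1090519074)) .nil)) .nil)) .leaf) (nat_lit 11528559932313114) (.br (nat_lit 3) (.cons (.br (nat_lit 6) (.cons (.rel (nat_lit 17448566916)) .nil)) .nil)) .leaf) (nat_lit 11528559932970272) (.br (nat_lit 1) (.cons (.br (nat_lit 2) (.cons (.rel (nat_lit 83886180)) .nil)) .nil)) (.node (.node .leaf (nat_lit 11528559932970361) (.br (nat_lit 1) (.cons (.br (nat_lit 6) (.cons (.rel (nat_lit 17197700352)) .nil)) .nil)) .leaf) (nat_lit 11528559933018144) (.br (nat_lit 3) (.cons (.br (nat_lit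 1) (.cons (.rel (nat_lit 285217857)) (.cons (.rel (nat_lit 285245445)) (.cons (.rel (nat_lit 285217857)) (.cons (.rel (nat_lit 285229122)) (.cons (.rel (nat_lit 285212808)) (.cons (.rel (nat_lit 570818817)) .nil))))))) (.cons (.br (nat_lit 0) (.cons (.rel (nat_lit 273022992)) (.cons (.rel (nat_lit 541067265)) (.cons (.rel (nat_lit 273678342)) (.cons (.rel (nat_lit 273678342)) (.cons (.rel (nat_lit 272634369)) (.cons (.rel (nat_lit 272892033)) .nil))))))) (.cons (.br (nat_lit 0) (.cons (.rel (nat_lit 276848640)) (.cons (.rel (nat_lit 276893760)) (.cons (.rel (nat_lit 273678342)) (.cons (.rel (nat_lit 272974848)) (.cons (.rel (nat_lit 272634369)) (.cons (.rel (nat_lit 277152000)) .nil))))))) (.cons (.br (nat_lit 1) (.cons (.rel (nat_lit 285229122)) (.cons (.rel (nat_lit 285212808)) (.cons (.rel (nat_lit 285217857)) (.cons (.rel (nat_lit 286785537)) (.cons (.rel (nat_lit 285229122)) (.cons (.rel (nat_lit 286785537)) .nil))))))) .nil))))) .leaf))) (nat_lit 11528559933493509)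 (.br (nat_lit 5) (.cons (.br (nat_lit 0) (.cons (.rel (nat_lit 8594134080)) (.cons (.rel (nat_lit 4299231744)) .nil))) .nil)) (.node (.node (.node (.node .leaf (nat_lit 11528559933554964) (.br (nat_lit 3) (.cons (.br (nat_lit 6) (.cons (.rel (nat_lit 17716740114)) .nil)) .nil)) .leaf) (nat_lit 11528559934606119) (.br (nat_lit 0) (.cons (.br (nat_lit 6) (.cons (.rel (nat_lit 17188257798)) .nil)) .nil)) .leaf) (nat_lit 11528559934606194) (.br (nat_lit 0) (.cons (.br (nat_lit 2) (.cons (.rel (nat_lit 71569428)) .nil)) .nil)) (.node (.node .leaf (nat_lit 11528559934759794) (.br (nat_lit 4) (.cons (.br (nat_lit 5) (.cons (.rel (nat_lit 5368709634)) (.cons (.rel (nat_lit 10737418497)) .nil))) (.cons (.br (nat_lit 5) (.cons (.rel (nat_lit 5369823312)) (.cons (.rel (nat_lit 9663680640)) .nil))) .nil))) .leaf) (nat_lit 11528559934760212) (.br (nat_lit 4) (.cons (.br (nat_lit 5) (.cons (.rel (nat_lit 5368975380)) .nil)) .nil)) .leaf)) (nat_lit 11528559934862612) (.br (nat_lit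 0) (.cons (.br (nat_lit 1) (.cons (.rel (nat_lit 41945169)) (.cons (.rel (nat_lit 20992005)) .nil))) (.cons (.br (nat_lit 1) (.cons (.rel (nat_lit 20980740)) (.cons (.rel (nat_lit 20971668)) .nil))) .nil))) (.node (.node (.node .leaf (nat_lit 11528560875428747) (.br (nat_lit 0) (.cons (.br (nat_lit 1) (.cons (.rel (nat_lit 20990016)) .nil)) .nil)) .leaf) (nat_lit 11528562449600544) (.br (nat_lit 0) (.cons (.br (nat_lit 3) (.cons (.rel (nat_lit 276848640)) .nil)) .nil)) .leaf) (nat_lit 11528565678509594) (.br (nat_lit 0) (.cons (.br (nat_lit 2) (.cons (.rel (nat_lit 72482817)) .nil)) .nil)) (.node (.node .leaf (nat_lit 11528565804248540) (.br (nat_lit 0) (.cons (.br (nat_lit 3) (.cons (.rel (nat_lit 272908356)) .nil)) .nil)) .leaf) (nat_lit 11528565806785394) (.br (nat_lit 0) (.cons (.br (nat_lit 1) (.cons (.rel (nat_lit 21266760)) .nil)) .nil)) .leaf))))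

/-- refutations 90 -/
def e90 : EX := (.node .leaf (nat_lit 11533885693767710) (.br (nat_lit 0) (.cons (.br (nat_lit 3) (.cons (.rel (nat_lit 273680424)) .nil)) .nil)) .leaf)

/-- refutations 91 -/
def e91 : EX := (.node (.node .leaf (nat_lit 11176416075410908) (.br (nat_lit 6) (.cons (.br (nat_lit 2) (.cons (.rel (nat_lit 17247240288)) (.cons (.rel (nat_lit 17246979600)) .nil))) .nil)) .leaf) (nat_lit 11176418164174300) (.br (nat_lit 0) (.cons (.br (nat_lit 2) (.cons (.rel (nat_lit 71303682)) (.cons (.rel (nat_lit 138418176)) .nil))) (.cons (.br (nat_lit 2) (.cons (.rel (nat_lit 72417360)) (.cons (.rel (nat_lit 142606593)) .nil))) .nil))) .leaf)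

/-- refutations 92 -/
def e92 : EX := (.node (.node (.node .leaf (nat_lit 11546160712397726) (.br (nat_lit 0) (.cons (.br (nat_lit 3) (.cons (.rel (nat_lit 272634369)) .nil)) .nil)) .leaf) (nat_lit 11546160712398300) (.br (nat_lit 3) (.cons (.br (nat_lit 5) (.cons (.rel (nat_lit 4563665937)) (.cons (.rel (nat_lit 4563664902)) .nil))) (.cons (.br (nat_lit 5) (.cons (.rel (nat_lit 4563665937)) (.cons (.rel (nat_lit 4563665937)) .nil))) .nil))) (.node .leaf (nat_lit 11546160713664774) (.br (nat_lit 0) (.cons (.br (nat_lit 1) (.cons (.rel (nat_lit 21103617)) .nil)) .nil)) .leaf)) (nat_lit 11546160713759025) (.br (nat_lit 1) (.cons (.br (nat_lit 6) (.cons (.rel (nat_lit 17196650565)) (.cons (.rel (nat_lit 17196717057)) .nil))) .nil)) (.node (.node .leaf (nat_lit 11546160833619221) (.br (nat_lit 3) (.cons (.br (nat_lit 4) (.cons (.rel (nat_lit 1610630148)) .nil)) .nil)) .leaf) (nat_lit 11546163203814876) (.br (nat_lit 1) (.cons (.br (nat_lit 3) (.cons (.rel (nat_lit 285212808))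 .nil)) .nil)) (.node .leaf (nat_lit 11546166878025180) (.br (nat_lit 2) (.cons (.br (nat_lit 3) (.cons (.rel (nat_lit 335806545)) .nil)) .nil)) .leaf)))

/-- refutations 93 -/
def e93 : EX := (.node .leaf (nat_lit 11621814990501371) (.br (nat_lit 5) (.cons (.br (nat_lit 6) (.cons (.rel (nat_lit 38655230484)) .nil)) .nil)) .leaf)

/-- refutations 94 -/
def e94 : EX := (.node (.node .leaf (nat_lit 11648226340360229) (.br (nat_lit 0) (.cons (.br (nat_lit 3) (.cons (.rel (nat_lit 272634369)) .nil)) .nil)) .leaf) (nat_lit 11648226340361693) (.br (nat_lit 0) (.cons (.br (nat_lit 2) (.cons (.rel (nat_lit 71632896)) .nil)) .nil)) (.node .leaf (nat_lit 11656859195265054) (.br (nat_lit 0) (.cons (.br (nat_lit 1) (.cons (.rel (nat_lit 41960457)) .nil)) .nil)) .leaf))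

/-- refutations 95 -/
def e95 : EX := (.node (.node (.node (.node .leaf (nat_lit 11968061034033163) (.br (nat_lit 0) (.cons (.br (nat_lit 2) (.cons (.rel (nat_lit 138418176)) .nil)) .nil)) .leaf) (nat_lit 11968579226328340) (.br (nat_lit 2) (.cons (.br (nat_lit 5) (.cons (.rel (nat_lit 4362469377)) .nil)) .nil)) (.node .leaf (nat_lit 11968579226330389) (.br (nat_lit 2) (.cons (.br (nat_lit 3) (.cons (.rel (nat_lit 336724992)) (.cons (.rel (nat_lit 335806545)) .nil))) (.cons (.br (nat_lit 4) (.cons (.rel (nat_lit 2214596640)) (.cons (.rel (nat_lit 1141182480)) .nil))) .nil))) .leaf)) (nat_lit 11968579226686840) (.br (nat_lit 0) (.cons (.br (nat_lit 2) (.cons (.rel (nat_lit 75497616)) .nil)) .nil)) (.node (.node .leaf (nat_lit 11968579226891740) (.br (nat_lit 3) (.cons (.br (nat_lit 0) (.cons (.rel (nat_lit 272892033)) (.cons (.rel (nat_lit 273022992)) .nil))) .nil)) .leaf) (nat_lit 11968579227637765) (.br (nat_lit 2) (.cons (.br (nat_lit 3) (.cons (.rel (nat_lit 671114496))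 .nil)) .nil)) (.node .leaf (nat_lit 11968579229428594) (.br (nat_lit 0) (.cons (.br (nat_lit 2) (.cons (.rel (nat_lit 75506688)) .nil)) .nil)) .leaf))) (nat_lit 11968579256251868) (.br (nat_lit 3) (.cons (.br (nat_lit 1) (.cons (.rel (nat_lit 285220881)) (.cons (.rel (nat_lit 285212808)) .nil))) .nil)) (.node (.node (.node .leaf (nat_lit 11968582603306460) (.br (nat_lit 0) (.cons (.br (nat_lit 6) (.cons (.rel (nat_lit 17184325776)) .nil)) .nil)) .leaf) (nat_lit 11968582917879260) (.br (nat_lit 1) (.cons (.br (nat_lit 3) (.cons (.rel (nat_lit 285220881)) .nil)) .nil)) (.node .leaf (nat_lit 11968584603784568) (.br (nat_lit 4) (.cons (.br (nat_lit 0) (.cons (.rel (nat_lit 1082132544)) (.cons (.rel (nat_lit 1078222848)) .nil))) .nil)) .leaf)) (nat_lit 11968584603989468) (.br (nat_lit 0) (.cons (.br (nat_lit 2) (.cons (.rel (nat_lit 71303682)) .nil)) .nil)) (.node (.node .leaf (nat_lit 11968585077945820) (.br (nat_lit 1) (.cons (.br (nat_lit 3) (.cons (.rel (nat_lit 570425412))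 .nil)) .nil)) .leaf) (nat_lit 11968585646510860) (.br (nat_lit 0) (.cons (.br (nat_lit 3) (.cons (.rel (nat_lit 272974848)) .nil)) .nil)) (.node .leaf (nat_lit 11968585749780485) (.br (nat_lit 0) (.cons (.br (nat_lit 1) (.cons (.rel (nat_lit 20975682)) .nil)) .nil)) .leaf))))

/-- refutations 96 -/
def e96 : EX := (.node .leaf (nat_lit 11973858814878997) (.br (nat_lit 1) (.cons (.br (nat_lit 2) (.cons (.rel (nat_lit 83892228)) .nil)) .nil)) .leaf)

/-- refutations 97 -/
def e97 : EX := (.node (.node .leaf (nat_lit 11893437838710266) (.br (nat_lit 0) (.cons (.br (nat_lit 2) (.cons (.rel (nat_lit 138412128)) .nil)) .nil)) .leaf) (nat_lit 11903321502176762) (.br (nat_lit 2) (.cons (.br (nat_lit 3) (.cons (.rel (nat_lit 604013568)) .nil)) .nil)) (.node .leaf (nat_lit 11904138258994682) (.br (nat_lit 2) (.cons (.br (nat_lit 3) (.cons (.rel (nat_lit 335545857)) .nil)) .nil)) .leaf))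

/-- refutations 98 -/
def e98 : EX := (.node (.node (.node .leaf (nat_lit 12068509613820839) (.br (nat_lit 0) (.cons (.br (nat_lit 2) (.cons (.rel (nat_lit 71303682)) .nil)) .nil)) .leaf) (nat_lit 12070438906144829) (.br (nat_lit 3) (.cons (.br (nat_lit 0) (.cons (.rel (nat_lit 541065240)) (.cons (.rel (nat_lit 272908356)) .nil))) .nil)) .leaf) (nat_lit 12073694491355197) (.br (nat_lit 0) (.cons (.br (nat_lit 3) (.cons (.rel (nat_lit 273679377)) .nil)) .nil)) (.node (.node .leaf (nat_lit 12073694492428465) (.br (nat_lit 2) (.cons (.br (nat_lit 3) (.cons (.rel (nat_lit 402671616)) .nil)) .nil)) .leaf) (nat_lit 12073694493936922) (.br (nat_lit 3) (.cons (.br (nat_lit 4) (.cons (.rel (nat_lit 2415989760)) .nil)) .nil)) .leaf))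

/-- refutations 99 -/
def e99 : EX := (.node (.node (.node .leaf (nat_lit 12079209194194996) (.br (nat_lit 0) (.cons (.br (nat_lit 1) (.cons (.rel (nat_lit 20975682)) .nil)) .nil)) .leaf) (nat_lit 12079463453952902) (.br (nat_lit 1) (.cons (.br (nat_lit 3) (.cons (.rel (nat_lit 285212808)) .nil)) .nil)) (.node .leaf (nat_lit 12080317330361222) (.br (nat_lit 0) (.cons (.br (nat_lit 5) (.cons (.rel (nat_lit 4299231744)) (.cons (.rel (nat_lit 4303355973)) (.cons (.rel (nat_lit 4300210260)) .nil)))) .nil)) .leaf)) (nat_lit 12080317333043462) (.br (nat_lit 2) (.cons (.br (nat_lit 4) (.cons (.rel (nat_lit 2214593616)) .nil)) .nil)) (.node (.node .leaf (nat_lit 12080317333491864) (.br (nat_lit 0) (.cons (.br (nat_lit 2) (.cons (.rel (nat_lit 71632896)) .nil)) .nil)) .leaf) (nat_lit 12081657363293560) (.br (nat_lit 0) (.cons (.br (nat_lit 1) (.cons (.rel (nat_lit 20975682)) .nil)) .nil)) .leaf))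

/-- list of the parts -/
def L0 : List (ℕ × List ℕ) := [(nat_lit 0x40, [Nat.sub (Nat.pow 2 689) (Nat.pow 2 0), Nat.sub (Nat.pow 2 1566) (Nat.pow 2 689), Nat.sub (Nat.pow 2 3136) (Nat.pow 2 1566)]),
  (nat_lit 0x800, [Nat.sub (Nat.pow 2 1260) (Nat.pow 2 0), Nat.sub (Nat.pow 2 3136) (Nat.pow 2 1260)]),
  (nat_lit 0x10000, [Nat.sub (Nat.pow 2 280) (Nat.pow 2 0), Nat.sub (Nat.pow 2 1260) (Nat.pow 2 280), Nat.sub (Nat.pow 2 1566) (Nat.pow 2 1260), Nat.sub (Nat.pow 2 3136) (Nat.pow 2 1566)]),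
  (nat_lit 0x4000, [cP]),
  (nat_lit 0x80000000, [Nat.sub (Nat.pow 2 639) (Nat.pow 2 0), Nat.sub (Nat.pow 2 3136) (Nat.pow 2 639)]),
  (nat_lit 0x800000000, [Nat.sub (Nat.pow 2 690) (Nat.pow 2 0), Nat.sub (Nat.pow 2 3136) (Nat.pow 2 690)]),
  (nat_lit 0x8000000000, [Nat.sub (Nat.pow 2 316) (Nat.pow 2 0), Nat.sub (Nat.pow 2 1280) (Nat.pow 2 316), Nat.sub (Nat.pow 2 3136) (Nat.pow 2 1280)]),
  (nat_lit 0x20000000, [cP]),
  (nat_lit 0x40000000000000, [Nat.sub (Nat.pow 2 764) (Nat.pow 2 0), Nat.sub (Nat.pow 2 3136) (Nat.pow 2 764)]),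
  (nat_lit 0x80000000000000, [Nat.sub (Nat.pow 2 690) (Nat.pow 2 0), Nat.sub (Nat.pow 2 3136) (Nat.pow 2 690)]),
  (nat_lit 0x100000000000000, [Nat.sub (Nat.pow 2 260) (Nat.pow 2 0), Nat.sub (Nat.pow 2 929) (Nat.pow 2 260), Nat.sub (Nat.pow 2 3136) (Nat.pow 2 929)]),
  (nat_lit 0x20000000000, [cP]),
  (nat_lit 0x800000000000000, [cP]),
  (nat_lit 0x20000000000000000, [cP]),
  (nat_lit 0x800000000000000000000000000000000, [cP]),
  (nat_lit 0x400000000000000000000000000000000000000, [Nat.sub (Nat.pow 2 780) (Nat.pow 2 0), Nat.sub (Nat.pow 2 1566) (Nat.pow 2 780), Nat.sub (Nat.pow 2 3136) (Nat.pow 2 1566)]),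
  (nat_lit 0x800000000000000000000000000000000000000, [Nat.sub (Nat.pow 2 909) (Nat.pow 2 0), Nat.sub (Nat.pow 2 3136) (Nat.pow 2 909)]),
  (nat_lit 0x200000000000000000000000000000000000, [cP]),
  (nat_lit 0x400000000000000000000000000000000000000000, [Nat.sub (Nat.pow 2 759) (Nat.pow 2 0), Nat.sub (Nat.pow 2 1556) (Nat.pow 2 759), Nat.sub (Nat.pow 2 3136) (Nat.pow 2 1556)]),
  (nat_lit 0x10000000000000000000000000000000000000000, [cP]),
  (nat_lit 0x800000000000000000000000000000000000000000000, [cP]),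
  (nat_lit 0x10000000000000000000000000000000000000000000000, [cP]),
  (nat_lit 0x8000000000000000000000000000000000000000000000000000000000000000, [cP]),
  (nat_lit 0x10000000000000000000000000000000000000000000000000000000000000000, [cP]),
  (nat_lit 0x2000000000000000000000000000000000000000000000000000000000000000000, [Nat.sub (Nat.pow 2 689) (Nat.pow 2 0), Nat.sub (Nat.pow 2 3136) (Nat.pow 2 689)]),
  (nat_lit 0x80000000000000000000000000000000000000000000000000000000000000000, [cP]),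
  (nat_lit 0x8000000000000000000000000000000000000000000000000000000000000000000000, [Nat.sub (Nat.pow 2 759) (Nat.pow 2 0), Nat.sub (Nat.pow 2 3136) (Nat.pow 2 759)]),
  (nat_lit 0x4000000000000000000000000000000000000000000000000000000000000000000, [cP]),
  (nat_lit 0x100000000000000000000000000000000000000000000000000000000000000000000000, [cP]),
  (nat_lit 0x400000000000000000000000000000000000000000000000000000000000000000000000, [Nat.sub (Nat.pow 2 264) (Nat.pow 2 0), Nat.sub (Nat.pow 2 890) (Nat.pow 2 264), Nat.sub (Nat.pow 2 1381) (Nat.pow 2 890), Nat.sub (Nat.pow 2 1535) (Nat.pow 2 1381), Nat.sub (Nat.pow 2 3136) (Nat.pow 2 1535)]),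
  (nat_lit 0x10000000000000000000000000000000000000000000000000000000000000000000000000000, [Nat.sub (Nat.pow 2 689) (Nat.pow 2 0), Nat.sub (Nat.pow 2 3136) (Nat.pow 2 689)]),
  (nat_lit 0x8200000000000000000000000000000000000000000000000000000000000000000000000, [cP]),
  (nat_lit 0x800000000000000000000000000000000000000000000000000000000000000000000000000000, [Nat.sub (Nat.pow 2 890) (Nat.pow 2 0), Nat.sub (Nat.pow 2 3136) (Nat.pow 2 890)]),
  (nat_lit 0x200000000000000000000000000000000000000000000000000000000000000000000000000000, [cP]),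
  (nat_lit 0x4000000000000000000000000000000000000000000000000000000000000000000000000000000, [cP]),
  (nat_lit 0x400000000000000000000000000000000000000000000000000000000000000000000000000000000000000000000000000000000000000000000000000000000000000000000000000000000000000, [Nat.sub (Nat.pow 2 759) (Nat.pow 2 0), Nat.sub (Nat.pow 2 3136) (Nat.pow 2 759)]),
  (nat_lit 0x800000000000000000000000000000000000000000000000000000000000000000000000000000000000000000000000000000000000000000000000000000000000000000000000000000000000000, [Nat.sub (Nat.pow 2 889) (Nat.pow 2 0), Nat.sub (Nat.pow 2 3136) (Nat.pow 2 889)]),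
  (nat_lit 0x1000000000000000000000000000000000000000000000000000000000000000000000000000000000000000000000000000000000000000000000000000000000000000000000000000000000000000, [Nat.sub (Nat.pow 2 791) (Nat.pow 2 0), Nat.sub (Nat.pow 2 3136) (Nat.pow 2 791)]),
  (nat_lit 0x80000000000000000000000000000000000000000000000000000000000000000000000000000000000000000000000000000000000000000000000000000000000000000000000000000000000000, [cP]),
  (nat_lit 0x40000000000000000000000000000000000000000000000000000000000000000000000000000000000000000000000000000000000000000000000000000000000000000000000000000000000000000000, [Nat.sub (Nat.pow 2 36) (Nat.pow 2 0), Nat.sub (Nat.pow 2 165) (Nat.pow 2 36), Nat.sub (Nat.pow 2 189) (Nat.pow 2 165), Nat.sub (Nat.pow 2 264) (Nat.pow 2 189), Nat.sub (Nat.pow 2 639) (Nat.pow 2 264), Nat.sub (Nat.pow 2 681) (Nat.pow 2 639), Nat.sub (Nat.pow 2 690) (Nat.pow 2 681), Nat.sub (Nat.pow 2 764) (Nat.pow 2 690), Nat.sub (Nat.pow 2 909) (Nat.pow 2 764),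 Nat.sub (Nat.pow 2 936) (Nat.pow 2 909), Nat.sub (Nat.pow 2 1260) (Nat.pow 2 936), Nat.sub (Nat.pow 2 1265) (Nat.pow 2 1260), Nat.sub (Nat.pow 2 1279) (Nat.pow 2 1265), Nat.sub (Nat.pow 2 1281) (Nat.pow 2 1279), Nat.sub (Nat.pow 2 1389) (Nat.pow 2 1281), Nat.sub (Nat.pow 2 1431) (Nat.pow 2 1389), Nat.sub (Nat.pow 2 1530) (Nat.pow 2 1431), Nat.sub (Nat.pow 2 1556) (Nat.pow 2 1530), Nat.sub (Nat.pow 2 3136) (Nat.pow 2 1556)]),
  (nat_lit 0x800000000000000000000000000000000000000000000000000000000000000000000000000000000000000000000000000000000000000000000000000000000000000000000000000000000000000000000, [Nat.sub (Nat.pow 2 316) (Nat.pow 2 0), Nat.sub (Nat.pow 2 1256) (Nat.pow 2 316), Nat.sub (Nat.pow 2 3136) (Nat.pow 2 1256)]),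
  (nat_lit 0x8000000000000000000000000000000000000000000000000000000000000000000000000000000000000000000000000000000000000000000000000000000000000000000000000000000000000000, [cP]),
  (nat_lit 0x1000000000000000000000000000000000000000000000000000000000000000000000000000000000000000000000000000000000000000000000000000000000000000000000000000000000000000000000, [cP]),
  (nat_lit 0x10000000000000000000000000000000000000000000000000000000000000000000000000000000000000000000000000000000000000000000000000000000000000000000000000000000000000000000000, [cP]),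
  (nat_lit 0x40000000000000000000000000000000000000000000000000000000000000000000000000000000000000000000000000000000000000000000000000000000000000000000000000000000000000000000000, [cP]),
  (nat_lit 0x1000000000000000000000000000000000000000000000000000000000000000000000000000000000000000000000000000000000000000000000000000000000000000000000000000000000000000000000000000, [Nat.sub (Nat.pow 2 785) (Nat.pow 2 0), Nat.sub (Nat.pow 2 3136) (Nat.pow 2 785)]),
  (nat_lit 0x100000000000000000000000000000000000000000000000000000000000000000000000000000000000000000000000000000000000000000000000000000000000000000000000000000000000000000000000000, [cP]),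
  (nat_lit 0x40000000000000000000000000000000000000000000000000000000000000000000000000000000000000000000000000000000000000000000000000000000000000000000000000000000000000000000000000000, [Nat.sub (Nat.pow 2 785) (Nat.pow 2 0), Nat.sub (Nat.pow 2 3136) (Nat.pow 2 785)])]

theorem hp0 : ∀ p ∈ L0, ∀ D2 ∈ p.2, ∃ e,
    search ext94 (Pool.Agent.H74.EGZ.vio sb) G Uc A0 p.1 D2 e = true :=
  (List.forall_mem_cons.2 ⟨(List.forall_mem_cons.2 ⟨⟨e0, by decide +kernel⟩,
  (List.forall_mem_cons.2 ⟨⟨e1, by decide +kernel⟩,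
  (List.forall_mem_singleton.2 ⟨.leaf, by decide +kernel⟩)⟩)⟩),
  (List.forall_mem_cons.2 ⟨(List.forall_mem_cons.2 ⟨⟨e3, by decide +kernel⟩,
  (List.forall_mem_singleton.2 ⟨e4, by decide +kernel⟩)⟩),
  (List.forall_mem_cons.2 ⟨(List.forall_mem_cons.2 ⟨⟨e5, by decide +kernel⟩,
  (List.forall_mem_cons.2 ⟨⟨e6, by decide +kernel⟩,
  (List.forall_mem_cons.2 ⟨⟨e7, by decide +kernel⟩,
  (List.forall_mem_singleton.2 ⟨.leaf, by decide +kernel⟩)⟩)⟩)⟩),
  (List.forall_mem_cons.2 ⟨(List.forall_mem_singleton.2 ⟨.leaf, by decide +kernel⟩),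
  (List.forall_mem_cons.2 ⟨(List.forall_mem_cons.2 ⟨⟨e10, by decide +kernel⟩,
  (List.forall_mem_singleton.2 ⟨e11, by decide +kernel⟩)⟩),
  (List.forall_mem_cons.2 ⟨(List.forall_mem_cons.2 ⟨⟨e12, by decide +kernel⟩,
  (List.forall_mem_singleton.2 ⟨e13, by decide +kernel⟩)⟩),
  (List.forall_mem_cons.2 ⟨(List.forall_mem_cons.2 ⟨⟨e14, by decide +kernel⟩,
  (List.forall_mem_cons.2 ⟨⟨e15, by decide +kernel⟩,
  (List.forall_mem_singleton.2 ⟨e16, by decide +kernel⟩)⟩)⟩),
  (List.forall_mem_cons.2 ⟨(List.forall_mem_singleton.2 ⟨e17, by decide +kernel⟩),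
  (List.forall_mem_cons.2 ⟨(List.forall_mem_cons.2 ⟨⟨e18, by decide +kernel⟩,
  (List.forall_mem_singleton.2 ⟨e19, by decide +kernel⟩)⟩),
  (List.forall_mem_cons.2 ⟨(List.forall_mem_cons.2 ⟨⟨e20, by decide +kernel⟩,
  (List.forall_mem_singleton.2 ⟨e21, by decide +kernel⟩)⟩),
  (List.forall_mem_cons.2 ⟨(List.forall_mem_cons.2 ⟨⟨e22, by decide +kernel⟩,
  (List.forall_mem_cons.2 ⟨⟨e23, by decide +kernel⟩,
  (List.forall_mem_singleton.2 ⟨e24, by decide +kernel⟩)⟩)⟩),
  (List.forall_mem_cons.2 ⟨(List.forall_mem_singleton.2 ⟨e25, by decide +kernel⟩),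
  (List.forall_mem_cons.2 ⟨(List.forall_mem_singleton.2 ⟨e26, by decide +kernel⟩),
  (List.forall_mem_cons.2 ⟨(List.forall_mem_singleton.2 ⟨e27, by decide +kernel⟩),
  (List.forall_mem_cons.2 ⟨(List.forall_mem_singleton.2 ⟨e28, by decide +kernel⟩),
  (List.forall_mem_cons.2 ⟨(List.forall_mem_cons.2 ⟨⟨e29, by decide +kernel⟩,
  (List.forall_mem_cons.2 ⟨⟨e30, by decide +kernel⟩,
  (List.forall_mem_singleton.2 ⟨.leaf, by decide +kernel⟩)⟩)⟩),
  (List.forall_mem_cons.2 ⟨(List.forall_mem_cons.2 ⟨⟨e32, by decide +kernel⟩,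
  (List.forall_mem_singleton.2 ⟨e33, by decide +kernel⟩)⟩),
  (List.forall_mem_cons.2 ⟨(List.forall_mem_singleton.2 ⟨e34, by decide +kernel⟩),
  (List.forall_mem_cons.2 ⟨(List.forall_mem_cons.2 ⟨⟨e35, by decide +kernel⟩,
  (List.forall_mem_cons.2 ⟨⟨e36, by decide +kernel⟩,
  (List.forall_mem_singleton.2 ⟨.leaf, by decide +kernel⟩)⟩)⟩),
  (List.forall_mem_cons.2 ⟨(List.forall_mem_singleton.2 ⟨.leaf, by decide +kernel⟩),
  (List.forall_mem_cons.2 ⟨(List.forall_mem_singleton.2 ⟨e39, by decide +kernel⟩),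
  (List.forall_mem_cons.2 ⟨(List.forall_mem_singleton.2 ⟨e40, by decide +kernel⟩),
  (List.forall_mem_cons.2 ⟨(List.forall_mem_singleton.2 ⟨e41, by decide +kernel⟩),
  (List.forall_mem_cons.2 ⟨(List.forall_mem_singleton.2 ⟨e42, by decide +kernel⟩),
  (List.forall_mem_cons.2 ⟨(List.forall_mem_cons.2 ⟨⟨e43, by decide +kernel⟩,
  (List.forall_mem_singleton.2 ⟨e44, by decide +kernel⟩)⟩),
  (List.forall_mem_cons.2 ⟨(List.forall_mem_singleton.2 ⟨e45, by decide +kernel⟩),
  (List.forall_mem_cons.2 ⟨(List.forall_mem_cons.2 ⟨⟨e46, by decide +kernel⟩,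
  (List.forall_mem_singleton.2 ⟨e47, by decide +kernel⟩)⟩),
  (List.forall_mem_cons.2 ⟨(List.forall_mem_singleton.2 ⟨e48, by decide +kernel⟩),
  (List.forall_mem_cons.2 ⟨(List.forall_mem_singleton.2 ⟨.leaf, by decide +kernel⟩),
  (List.forall_mem_cons.2 ⟨(List.forall_mem_cons.2 ⟨⟨e50, by decide +kernel⟩,
  (List.forall_mem_cons.2 ⟨⟨e51, by decide +kernel⟩,
  (List.forall_mem_cons.2 ⟨⟨e52, by decide +kernel⟩,
  (List.forall_mem_cons.2 ⟨⟨e53, by decide +kernel⟩,
  (List.forall_mem_singleton.2 ⟨.leaf, by decide +kernel⟩)⟩)⟩)⟩)⟩),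
  (List.forall_mem_cons.2 ⟨(List.forall_mem_cons.2 ⟨⟨e55, by decide +kernel⟩,
  (List.forall_mem_singleton.2 ⟨e56, by decide +kernel⟩)⟩),
  (List.forall_mem_cons.2 ⟨(List.forall_mem_singleton.2 ⟨e57, by decide +kernel⟩),
  (List.forall_mem_cons.2 ⟨(List.forall_mem_cons.2 ⟨⟨e58, by decide +kernel⟩,
  (List.forall_mem_singleton.2 ⟨e59, by decide +kernel⟩)⟩),
  (List.forall_mem_cons.2 ⟨(List.forall_mem_singleton.2 ⟨e60, by decide +kernel⟩),
  (List.forall_mem_cons.2 ⟨(List.forall_mem_singleton.2 ⟨e61, by decide +kernel⟩),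
  (List.forall_mem_cons.2 ⟨(List.forall_mem_cons.2 ⟨⟨e62, by decide +kernel⟩,
  (List.forall_mem_singleton.2 ⟨e63, by decide +kernel⟩)⟩),
  (List.forall_mem_cons.2 ⟨(List.forall_mem_cons.2 ⟨⟨e64, by decide +kernel⟩,
  (List.forall_mem_singleton.2 ⟨e65, by decide +kernel⟩)⟩),
  (List.forall_mem_cons.2 ⟨(List.forall_mem_cons.2 ⟨⟨e66, by decide +kernel⟩,
  (List.forall_mem_singleton.2 ⟨e67, by decide +kernel⟩)⟩),
  (List.forall_mem_cons.2 ⟨(List.forall_mem_singleton.2 ⟨e68, by decide +kernel⟩),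
  (List.forall_mem_cons.2 ⟨(List.forall_mem_cons.2 ⟨⟨e69, by decide +kernel⟩,
  (List.forall_mem_cons.2 ⟨⟨e70, by decide +kernel⟩,
  (List.forall_mem_cons.2 ⟨⟨e71, by decide +kernel⟩,
  (List.forall_mem_cons.2 ⟨⟨e72, by decide +kernel⟩,
  (List.forall_mem_cons.2 ⟨⟨e73, by decide +kernel⟩,
  (List.forall_mem_cons.2 ⟨⟨e74, by decide +kernel⟩,
  (List.forall_mem_cons.2 ⟨⟨e75, by decide +kernel⟩,
  (List.forall_mem_cons.2 ⟨⟨e76, by decide +kernel⟩,
  (List.forall_mem_cons.2 ⟨⟨e77, by decide +kernel⟩,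
  (List.forall_mem_cons.2 ⟨⟨e78, by decide +kernel⟩,
  (List.forall_mem_cons.2 ⟨⟨e79, by decide +kernel⟩,
  (List.forall_mem_cons.2 ⟨⟨e80, by decide +kernel⟩,
  (List.forall_mem_cons.2 ⟨⟨e81, by decide +kernel⟩,
  (List.forall_mem_cons.2 ⟨⟨e82, by decide +kernel⟩,
  (List.forall_mem_cons.2 ⟨⟨e83, by decide +kernel⟩,
  (List.forall_mem_cons.2 ⟨⟨e84, by decide +kernel⟩,
  (List.forall_mem_cons.2 ⟨⟨e85, by decide +kernel⟩,
  (List.forall_mem_cons.2 ⟨⟨e86, by decide +kernel⟩,
  (List.forall_mem_singleton.2 ⟨.leaf, by decide +kernel⟩)⟩)⟩)⟩)⟩)⟩)⟩)⟩)⟩)⟩)⟩)⟩)⟩)⟩)⟩)⟩)⟩)⟩)⟩),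
  (List.forall_mem_cons.2 ⟨(List.forall_mem_cons.2 ⟨⟨e88, by decide +kernel⟩,
  (List.forall_mem_cons.2 ⟨⟨e89, by decide +kernel⟩,
  (List.forall_mem_singleton.2 ⟨e90, by decide +kernel⟩)⟩)⟩),
  (List.forall_mem_cons.2 ⟨(List.forall_mem_singleton.2 ⟨e91, by decide +kernel⟩),
  (List.forall_mem_cons.2 ⟨(List.forall_mem_singleton.2 ⟨e92, by decide +kernel⟩),
  (List.forall_mem_cons.2 ⟨(List.forall_mem_singleton.2 ⟨e93, by decide +kernel⟩),
  (List.forall_mem_cons.2 ⟨(List.forall_mem_singleton.2 ⟨e94, by decide +kernel⟩),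
  (List.forall_mem_cons.2 ⟨(List.forall_mem_cons.2 ⟨⟨e95, by decide +kernel⟩,
  (List.forall_mem_singleton.2 ⟨e96, by decide +kernel⟩)⟩),
  (List.forall_mem_cons.2 ⟨(List.forall_mem_singleton.2 ⟨e97, by decide +kernel⟩),
  (List.forall_mem_singleton.2 (List.forall_mem_cons.2 ⟨⟨e98, by decide +kernel⟩,
  (List.forall_mem_singleton.2 ⟨e99, by decide +kernel⟩)⟩))⟩)⟩)⟩)⟩)⟩)⟩)⟩)⟩)⟩)⟩)⟩)⟩)⟩)⟩)⟩)⟩)⟩)⟩)⟩)⟩)⟩)⟩)⟩)⟩)⟩)⟩)⟩)⟩)⟩)⟩)⟩)⟩)⟩)⟩)⟩)⟩)⟩)⟩)⟩)⟩)⟩)⟩)⟩)⟩)⟩)⟩)⟩)

end

end Pool.Agent.H21.EGZ.S4
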