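import Pool.Agent.H21.EGZ.D4

/-!
# Stage 4 : search, part 1
-/

set_option autoImplicit false
set_option maxRecDepth 100000

namespace Pool.Agent.H21.EGZ.S4

noncomputable section

open Pool.Agent.H74.EGZ Pool.Agent.H94.Lift

/-- refutations 100 -/
def e100 : EX := (.node (.node .leaf (nat_lit 12056334231979289) (.br (nat_lit 0) (.cons (.br (nat_lit 1) (.cons (.rel (nat_lit 20975682)) .nil)) .nil)) .leaf) (nat_lit 12056339483239712) (.br (nat_lit 0) (.cons (.br (nat_lit 2) (.cons (.rel (nat_lit 71566404)) .nil)) .nil)) .leaf)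

/-- refutations 101 -/
def e101 : EX := (.node (.node (.node .leaf (nat_lit 12088451998981652) (.br (nat_lit 0) (.cons (.br (nat_lit 3) (.cons (.rel (nat_lit 541065240)) .nil)) .nil)) .leaf) (nat_lit 12091509887949686) (.br (nat_lit 1) (.cons (.br (nat_lit 3) (.cons (.rel (nat_lit 285212808)) .nil)) .nil)) .leaf) (nat_lit 12096583697472150) (.br (nat_lit 2) (.cons (.br (nat_lit 3) (.cons (.rel (nat_lit 336597057)) .nil)) .nil)) (.node .leaf (nat_lit 12097010071516643) (.br (nat_lit 1) (.cons (.br (nat_lit 4) (.cons (.rel (nat_lit 1090593792)) .nil)) .nil)) .leaf))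

/-- refutations 102 -/
def e102 : EX := (.node .leaf (nat_lit 13235815628228920) (.br (nat_lit 0) (.cons (.br (nat_lit 1) (.cons (.rel (nat_lit 21053448)) .nil)) .nil)) .leaf)

/-- refutations 103 -/
def e103 : EX := (.node (.node (.node .leaf (nat_lit 13317771263537204) (.br (nat_lit 0) (.cons (.br (nat_lit 2) (.cons (.rel (nat_lit 71581728)) .nil)) .nil)) .leaf) (nat_lit 13323813739842942) (.br (nat_lit 0) (.cons (.br (nat_lit 1) (.cons (.rel (nat_lit 20975682)) .nil)) .nil)) .leaf) (nat_lit 13323813739940516) (.br (nat_lit 0) (.cons (.br (nat_lit 3) (.cons (.rel (nat_lit 272974848)) .nil)) .nil)) (.node .leaf (nat_lit 13323819485881001) (.br (nat_lit 0) (.cons (.br (nat_lit 1) (.cons (.rel (nat_lit 20990016)) .nil)) .nil)) .leaf))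

/-- refutations 104 -/
def e104 : EX := (.node (.node (.node (.node .leaf (nat_lit 13324901020722529) (.br (nat_lit 4) (.cons (.br (nat_lit 5) (.cons (.rel (nat_lit 9663676437)) .nil)) .nil)) .leaf) (nat_lit 13328289095485492) (.br (nat_lit 4) (.cons (.br (nat_lit 5) (.cons (.rel (nat_lit 9663680640)) .nil)) .nil)) (.node .leaf (nat_lit 13328289096072074) (.br (nat_lit 0) (.cons (.br (nat_lit 2) (.cons (.rel (nat_lit 71581728)) .nil)) .nil)) .leaf)) (nat_lit 13328289097379892) (.br (nat_lit 0) (.cons (.br (nat_lit 3) (.cons (.rel (nat_lit 272634369)) .nil)) .nil)) (.node (.node .leaf (nat_lit 13328289097379972) (.br (nat_lit 0) (.cons (.br (nat_lit 2) (.cons (.rel (nat_lit 75506688)) .nil)) .nil)) .leaf) (nat_lit 13328289097381217) (.br (nat_lit 0) (.cons (.br (nat_lit 1) (.cons (.rel (nat_lit 25170192)) .nil)) .nil)) (.node .leaf (nat_lit 13328289098352800) (.br (nat_lit 3) (.cons (.br (nat_lit 4) (.cons (.rel (nat_lit 1342308864)) .nil)) .nil)) .leaf))) (nat_lit 13328289098354017) (.br (nat_lit 2) (.cons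 (.br (nat_lit 3) (.cons (.rel (nat_lit 604061712)) .nil)) .nil)) (.node (.node (.node .leaf (nat_lit 13328289098580093) (.br (nat_lit 0) (.cons (.br (nat_lit 2) (.cons (.rel (nat_lit 71569428)) .nil)) .nil)) .leaf) (nat_lit 13328289098581249) (.br (nat_lit 2) (.cons (.br (nat_lit 3) (.cons (.rel (nat_lit 604061712)) (.cons (.rel (nat_lit 335872002)) .nil))) .nil)) (.node .leaf (nat_lit 13328289212926838) (.br (nat_lit 1) (.cons (.br (nat_lit 2) (.cons (.rel (nat_lit 83904528)) .nil)) .nil)) .leaf)) (nat_lit 13328289214821912) (.br (nat_lit 0) (.cons (.br (nat_lit 2) (.cons (.rel (nat_lit 138418176)) .nil)) .nil)) (.node (.node .leaf (nat_lit 13328289215793312) (.br (nat_lit 2) (.cons (.br (nat_lit 4) (.cons (.rel (nat_lit 1141112964)) .nil)) .nil)) .leaf) (nat_lit 13328289705298097) (.br (nat_lit 0) (.cons (.br (nat_lit 3) (.cons (.rel (nat_lit 541065240)) .nil)) .nil)) (.node .leaf (nat_lit 13328555501019296) (.br (nat_lit 1) (.cons (.br (nat_lit 4) (.cons (.rel (nat_lit 1090520073)) .nil)) .nil)) .leaf))))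

/-- refutations 106 -/
def e106 : EX := (.node (.node (.node .leaf (nat_lit 13284300159520944) (.br (nat_lit 1) (.cons (.br (nat_lit 3) (.cons (.rel (nat_lit 285234180)) .nil)) .nil)) .leaf) (nat_lit 13290047416081009) (.br (nat_lit 0) (.cons (.br (nat_lit 1) (.cons (.rel (nat_lit 20980740)) .nil)) .nil)) .leaf) (nat_lit 13290047432858225) (.br (nat_lit 0) (.cons (.br (nat_lit 1) (.cons (.rel (nat_lit 20980740)) .nil)) .nil)) (.node .leaf (nat_lit 13290047432858236) (.br (nat_lit 0) (.cons (.br (nat_lit 1) (.cons (.rel (nat_lit 21004305)) .nil)) .nil)) .leaf))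

/-- refutations 107 -/
def e107 : EX := (.node (.node .leaf (nat_lit 13376517827390215) (.br (nat_lit 0) (.cons (.br (nat_lit 2) (.cons (.rel (nat_lit 75506688)) .nil)) .nil)) .leaf) (nat_lit 13380856791717899) (.br (nat_lit 0) (.cons (.br (nat_lit 3) (.cons (.rel (nat_lit 272892033)) .nil)) .nil)) .leaf)

/-- refutations 108 -/
def e108 : EX := (.node (.node (.node .leaf (nat_lit 13633965077788824) (.br (nat_lit 0) (.cons (.br (nat_lit 1) (.cons (.rel (nat_lit 20980740)) .nil)) .nil)) .leaf) (nat_lit 13635536511531160) (.br (nat_lit 1) (.cons (.br (nat_lit 4) (.cons (.rel (nat_lit 1090539600)) .nil)) .nil)) .leaf) (nat_lit 13636579145235967) (.br (nat_lit 1) (.cons (.br (nat_lit 2) (.cons (.rel (nat_lit 83910720)) .nil)) .nil)) (.node (.node .leaf (nat_lit 13639404184385567) (.br (nat_lit 4) (.cons (.br (nat_lit 5) (.cons (.rel (nat_lit 9663676437)) (.cons (.rel (nat_lit 9663677472)) .nil))) .nil)) .leaf) (nat_lit 13640478973484543) (.br (nat_lit 0) (.cons (.br (nat_lit 1) (.cons (.rel (nat_lit 20975682))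 .nil)) .nil)) .leaf))

/-- refutations 109 -/
def e109 : EX := (.node (.node (.node (.node (.node (.node .leaf (nat_lit 13640653162427868) (.br (nat_lit 2) (.cons (.br (nat_lit 0) (.cons (.rel (nat_lit 138429441)) (.cons (.rel (nat_lit 138477585)) (.cons (.rel (nat_lit 71303682)) (.cons (.rel (nat_lit 75506688)) (.cons (.rel (nat_lit 142606593)) .nil)))))) .nil)) .leaf) (nat_lit 13640653163042150) (.br (nat_lit 0) (.cons (.br (nat_lit 1) (.cons (.rel (nat_lit 21037125)) .nil)) .nil)) .leaf) (nat_lit 13640653164267672) (.br (nat_lit 2) (.cons (.br (nat_lit 4) (.cons (.rel (nat_lit 1141900308)) (.cons (.rel (nat_lit 1141112964)) .nil))) (.cons (.br (nat_lit 4) (.cons (.rel (nat_lit 1141112964)) (.cons (.rel (nat_lit 1140855300)) .nil))) .nil))) (.node (.node .leaf (nat_lit 13640653165294218) (.br (nat_lit 1) (.cons (.br (nat_lit 2) (.cons (.rel (nat_lit 83892228)) .nil)) .nil)) .leaf) (nat_lit 13640653447640425) (.br (nat_lit 1) (.cons (.br (nat_lit 2) (.cons (.rel (nat_lit 83892228)) .nil)) .nil)) .leaf))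 (nat_lit 13640653450509788) (.br (nat_lit 0) (.cons (.br (nat_lit 1) (.cons (.rel (nat_lit 20971668)) .nil)) .nil)) (.node (.node (.node .leaf (nat_lit 13640655544792540) (.br (nat_lit 0) (.cons (.br (nat_lit 5) (.cons (.rel (nat_lit 8594161668)) (.cons (.rel (nat_lit 4299425796)) (.cons (.rel (nat_lit 4303372296)) (.cons (.rel (nat_lit 4300276752)) .nil))))) (.cons (.br (nat_lit 3) (.cons (.rel (nat_lit 545800197)) (.cons (.rel (nat_lit 276893760)) (.cons (.rel (nat_lit 541065240)) .nil)))) (.cons (.br (nat_lit 3) (.cons (.rel (nat_lit 545327424)) (.cons (.rel (nat_lit 273678342)) (.cons (.rel (nat_lit 541147200)) .nil)))) .nil)))) .leaf) (nat_lit 13640655693117491) (.br (nat_lit 0) (.cons (.br (nat_lit 1) (.cons (.rel (nat_lit 20971668)) .nil)) .nil)) .leaf) (nat_lit 13640656111525271) (.br (nat_lit 1) (.cons (.br (nat_lit 2) (.cons (.rel (nat_lit 83890194)) (.cons (.rel (nat_lit 83890194)) .nil))) .nil)) (.node (.node .leaf (nat_lit 13640656740169180) (.br (nat_lit 1) (.cons (.br (nat_lit 2) (.cons (.rel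 (nat_lit 83903493)) .nil)) .nil)) .leaf) (nat_lit 13640656740670825) (.br (nat_lit 0) (.cons (.br (nat_lit 1) (.cons (.rel (nat_lit 20971668)) .nil)) .nil)) .leaf))) (nat_lit 13640656825581579) (.br (nat_lit 0) (.cons (.br (nat_lit 2) (.cons (.rel (nat_lit 138429441)) .nil)) .nil)) (.node (.node (.node (.node .leaf (nat_lit 13640656825895064) (.br (nat_lit 0) (.cons (.br (nat_lit 3) (.cons (.rel (nat_lit 272634369)) .nil)) .nil)) .leaf) (nat_lit 13640656826654781) (.br (nat_lit 0) (.cons (.br (nat_lit 1) (.cons (.rel (nat_lit 20992005)) .nil)) .nil)) .leaf) (nat_lit 13640656826704809) (.br (nat_lit 0) (.cons (.br (nat_lit 2) (.cons (.rel (nat_lit 71303682)) .nil)) .nil)) (.node (.node .leaf (nat_lit 13640656849219038) (.br (nat_lit 1) (.cons (.br (nat_lit 3) (.cons (.rel (nat_lit 570425412)) .nil)) .nil)) .leaf) (nat_lit 13640656849221084) (.br (nat_lit 3) (.cons (.br (nat_lit 1) (.cons (.rel (nat_lit 285217857)) (.cons (.rel (nat_lit 285282324)) (.cons (.rel (nat_lit 570425412)) .nil)))) .nil)) .leaf))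 (nat_lit 13640656851060888) (.br (nat_lit 4) (.cons (.br (nat_lit 3) (.cons (.rel (nat_lit 1342308864)) (.cons (.rel (nat_lit 1342521408)) .nil))) .nil)) (.node (.node (.node .leaf (nat_lit 13640658187204060) (.br (nat_lit 3) (.cons (.br (nat_lit 6) (.cons (.rel (nat_lit 17448588288)) .nil)) .nil)) .leaf) (nat_lit 13640658188728472) (.br (nat_lit 1) (.cons (.br (nat_lit 3) (.cons (.rel (nat_lit 553664772)) (.cons (.rel (nat_lit 285220881)) .nil))) .nil)) .leaf) (nat_lit 13640658189043864) (.br (nat_lit 0) (.cons (.br (nat_lit 1) (.cons (.rel (nat_lit 21037125)) (.cons (.rel (nat_lit 20971668)) .nil))) .nil)) (.node (.node .leaf (nat_lit 13640658189804430) (.br (nat_lit 0) (.cons (.br (nat_lit 1) (.cons (.rel (nat_lit 20992005)) .nil)) .nil)) .leaf) (nat_lit 13640658190070410) (.br (nat_lit 1) (.cons (.br (nat_lit 5) (.cons (.rel (nat_lit 4328788992)) .nil)) .nil)) .leaf)))) (nat_lit 13640658732463465) (.br (nat_lit 2) (.cons (.br (nat_lit 3) (.cons (.rel (nat_lit 402671616)) .nil)) .nil)) (.node (.node (.node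 (.node (.node .leaf (nat_lit 13640658732463580) (.br (nat_lit 2) (.cons (.br (nat_lit 3) (.cons (.rel (nat_lit 402671616)) (.cons (.rel (nat_lit 335810568)) (.cons (.rel (nat_lit 402653268)) .nil)))) (.cons (.br (nat_lit 3) (.cons (.rel (nat_lit 603987969)) (.cons (.br (nat_lit 6) (.cons (.rel (nat_lit 17314104324)) (.cons (.rel (nat_lit 17247257601)) (.cons (.rel (nat_lit 17448566916)) (.cons (.rel (nat_lit 17314091025)) .nil))))) (.cons (.rel (nat_lit 336724992)) .nil)))) (.cons (.br (nat_lit 3) (.cons (.rel (nat_lit 335810568)) (.cons (.rel (nat_lit 336658500)) (.cons (.rel (nat_lit 402671616)) .nil)))) .nil)))) .leaf) (nat_lit 13640658732709340) (.br (nat_lit 1) (.cons (.br (nat_lit 2) (.cons (.rel (nat_lit 100929600)) .nil)) .nil)) .leaf) (nat_lit 13640658732965225) (.br (nat_lit 5) (.cons (.br (nat_lit 4) (.cons (.rel (nat_lit 6442453008)) (.cons (.rel (nat_lit 5369888769)) (.cons (.rel (nat_lit 5368975380)) .nil)))) .nil)) (.node (.node .leaf (nat_lit 13640658734102579) (.br (nat_lit 0) (.cons (.br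 (nat_lit 2) (.cons (.rel (nat_lit 72417360)) (.cons (.rel (nat_lit 71632896)) .nil))) (.cons (.br (nat_lit 2) (.cons (.rel (nat_lit 71303682)) (.cons (.rel (nat_lit 71632896)) .nil))) .nil))) .leaf) (nat_lit 13640659449687297) (.br (nat_lit 0) (.cons (.br (nat_lit 1) (.cons (.rel (nat_lit 21053448)) .nil)) .nil)) .leaf)) (nat_lit 13640659449688701) (.br (nat_lit 2) (.cons (.br (nat_lit 5) (.cons (.rel (nat_lit 4362469377)) .nil)) .nil)) (.node (.node (.node .leaf (nat_lit 13640659449689564) (.br (nat_lit 4) (.cons (.br (nat_lit 1) (.cons (.rel (nat_lit 2181038097)) (.cons (.rel (nat_lit 2181038097)) (.cons (.rel (nat_lit 1107623937)) (.cons (.rel (nat_lit 2165572608)) (.cons (.rel (nat_lit 1090519074)) (.cons (.br (nat_lit 6) (.cons (.rel (nat_lit 34393296912)) (.cons (.rel (nat_lit 19327386624)) (.cons (.rel (nat_lit 18254725137)) (.cons (.rel (nat_lit 17196728322)) (.cons (.rel (nat_lit 35433545733)) .nil)))))) .nil))))))) (.cons (.br (nat_lit 3) (.cons (.rel (nat_lit 2684420352)) (.cons (.rel (nat_lit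 1343225937)) (.cons (.rel (nat_lit 1342439448)) (.cons (.rel (nat_lit 1342476288)) .nil))))) (.cons (.br (nat_lit 2) (.cons (.rel (nat_lit 1141900308)) (.cons (.rel (nat_lit 1140852324)) (.cons (.rel (nat_lit 1140855300)) (.cons (.rel (nat_lit 1207992324)) .nil))))) .nil)))) .leaf) (nat_lit 13640659449942943) (.br (nat_lit 6) (.cons (.br (nat_lit 0) (.cons (.rel (nat_lit 17184065088)) (.cons (.rel (nat_lit 17184068112)) .nil))) .nil)) .leaf) (nat_lit 13640659449943297) (.br (nat_lit 0) (.cons (.br (nat_lit 1) (.cons (.rel (nat_lit 21053448)) (.cons (.rel (nat_lit 21103617)) .nil))) .nil)) (.node (.node .leaf (nat_lit 13640659450037534) (.br (nat_lit 5) (.cons (.br (nat_lit 0) (.cons (.rel (nat_lit 4299423762)) (.cons (.rel (nat_lit 4303357008)) (.cons (.rel (nat_lit 4299444288)) .nil)))) (.cons (.br (nat_lit 4) (.cons (.rel (nat_lit 5368975380)) (.cons (.rel (nat_lit 5368972356)) (.cons (.rel (nat_lit 6442459200)) (.cons (.rel (nat_lit 5368972356)) .nil))))) .nil))) .leaf) (nat_lit 13640659450047276) (.br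 (nat_lit 1) (.cons (.br (nat_lit 3) (.cons (.rel (nat_lit 553648449)) (.cons (.rel (nat_lit 285220881)) .nil))) .nil)) .leaf))) (nat_lit 13640659450047774) (.br (nat_lit 0) (.cons (.br (nat_lit 1) (.cons (.rel (nat_lit 20971668)) .nil)) .nil)) (.node (.node (.node (.node .leaf (nat_lit 13640659451287583) (.br (nat_lit 5) (.cons (.br (nat_lit 0) (.cons (.rel (nat_lit 4299425796)) (.cons (.rel (nat_lit 4300275717)) .nil))) .nil)) .leaf) (nat_lit 13640659451530497) (.br (nat_lit 0) (.cons (.br (nat_lit 1) (.cons (.rel (nat_lit 22086912)) (.cons (.rel (nat_lit 21103617)) .nil))) .nil)) .leaf) (nat_lit 13640659451583089) (.br (nat_lit 1) (.cons (.br (nat_lit 2) (.cons (.rel (nat_lit 83951637)) .nil)) .nil)) (.node (.node .leaf (nat_lit 13640659452290305) (.br (nat_lit 0) (.cons (.br (nat_lit 1) (.cons (.rel (nat_lit 20975682)) .nil)) .nil)) .leaf) (nat_lit 13640659452339103) (.br (nat_lit 1) (.cons (.br (nat_lit 3) (.cons (.rel (nat_lit 570491904)) .nil)) .nil)) .leaf)) (nat_lit 13640659452339113) (.br (nat_lit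 3) (.cons (.br (nat_lit 6) (.cons (.rel (nat_lit 17448309252)) .nil)) .nil)) (.node (.node (.node .leaf (nat_lit 13640659452339587) (.br (nat_lit 0) (.cons (.br (nat_lit 1) (.cons (.rel (nat_lit 22086912)) .nil)) .nil)) .leaf) (nat_lit 13640659452349343) (.br (nat_lit 0) (.cons (.br (nat_lit 5) (.cons (.rel (nat_lit 4300275717)) .nil)) .nil)) .leaf) (nat_lit 13640659452349697) (.br (nat_lit 1) (.cons (.br (nat_lit 2) (.cons (.rel (nat_lit 83910720)) .nil)) .nil)) (.node .leaf (nat_lit 13640659452851103) (.br (nat_lit 0) (.cons (.br (nat_lit 1) (.cons (.rel (nat_lit 38010885)) .nil)) .nil)) .leaf)))))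

/-- refutations 110 -/
def e110 : EX := (.node (.node (.node .leaf (nat_lit 13641552716098817) (.br (nat_lit 3) (.cons (.br (nat_lit 4) (.cons (.rel (nat_lit 2415923268)) (.cons (.rel (nat_lit 1610616849)) .nil))) .nil)) .leaf) (nat_lit 13644733381358218) (.br (nat_lit 0) (.cons (.br (nat_lit 4) (.cons (.rel (nat_lit 1078198308)) .nil)) .nil)) (.node .leaf (nat_lit 13644739583098367) (.br (nat_lit 0) (.cons (.br (nat_lit 4) (.cons (.rel (nat_lit 1079148549)) .nil)) .nil)) .leaf)) (nat_lit 13644910206711859) (.br (nat_lit 1) (.cons (.br (nat_lit 3) (.cons (.rel (nat_lit 303104016)) .nil)) .nil)) (.node (.node .leaf (nat_lit 13644910751971379) (.br (nat_lit 1) (.cons (.br (nat_lit 4) (.cons (.rel (nat_lit 1090519074)) .nil)) .nil)) .leaf) (nat_lit 13645117625742812) (.br (nat_lit 3) (.cons (.br (nat_lit 5) (.cons (.rel (nat_lit 4564451400)) .nil)) .nil)) (.node .leaf (nat_lit 13645773163427891) (.br (nat_lit 1) (.cons (.br (nat_lit 3) (.cons (.rel (nat_lit 285217857)) .nil)) .nil)) .leaf)))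

/-- refutations 111 -/
def e111 : EX := (.node (.node .leaf (nat_lit 13647052949413340) (.br (nat_lit 0) (.cons (.br (nat_lit 1) (.cons (.rel (nat_lit 21004305)) .nil)) .nil)) .leaf) (nat_lit 13647057688976860) (.br (nat_lit 3) (.cons (.br (nat_lit 4) (.cons (.rel (nat_lit 1342439448)) .nil)) .nil)) .leaf)

/-- refutations 112 -/
def e112 : EX := (.node (.node (.node .leaf (nat_lit 13724279822372071) (.br (nat_lit 0) (.cons (.br (nat_lit 6) (.cons (.rel (nat_lit 17184325776)) .nil)) .nil)) .leaf) (nat_lit 13728657872805340) (.br (nat_lit 3) (.cons (.br (nat_lit 5) (.cons (.rel (nat_lit 8858387520)) .nil)) .nil)) .leaf) (nat_lit 13728659424697820) (.br (nat_lit 5) (.cons (.br (nat_lit 3) (.cons (.rel (nat_lit 4831903746)) (.cons (.rel (nat_lit 4563800064)) .nil))) .nil)) (.node (.node .leaf (nat_lit 13728659655998122) (.br (nat_lit 0) (.cons (.br (nat_lit 1) (.cons (.rel (nat_lit 38010885)) .nil)) .nil)) .leaf) (nat_lit 13728660620074460) (.br (nat_lit 2) (.cons (.br (nat_lit 3) (.cons (.rel (nat_lit 335810568))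 .nil)) .nil)) .leaf))

/-- refutations 113 -/
def e113 : EX := (.node .leaf (nat_lit 13729854688091612) (.br (nat_lit 0) (.cons (.br (nat_lit 3) (.cons (.rel (nat_lit 273022992)) .nil)) .nil)) .leaf)

/-- refutations 114 -/
def e114 : EX := (.node (.node (.node (.node .leaf (nat_lit 13811000068774048) (.br (nat_lit 0) (.cons (.br (nat_lit 1) (.cons (.rel (nat_lit 20975682)) .nil)) .nil)) .leaf) (nat_lit 13811003699497622) (.br (nat_lit 4) (.cons (.br (nat_lit 5) (.cons (.rel (nat_lit 5368972356)) .nil)) .nil)) (.node .leaf (nat_lit 13811003699497862) (.br (nat_lit 3) (.cons (.br (nat_lit 4) (.cons (.rel (nat_lit 2684354898)) .nil)) .nil)) .leaf)) (nat_lit 13811003699561350) (.br (nat_lit 0) (.cons (.br (nat_lit 4) (.cons (.rel (nat_lit 1078198308)) .nil)) .nil)) (.node (.node .leaf (nat_lit 13811003701405148) (.br (nat_lit 3) (.cons (.br (nat_lit 4) (.cons (.rel (nat_lit 1342441473)) .nil)) .nil)) .leaf) (nat_lit 13811003702383972) (.br (nat_lit 0) (.cons (.br (nat_lit 4) (.cons (.rel (nat_lit 1082146833))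 .nil)) .nil)) .leaf)) (nat_lit 13811005704374934) (.br (nat_lit 4) (.cons (.br (nat_lit 5) (.cons (.rel (nat_lit 5368709634)) .nil)) .nil)) (.node (.node (.node .leaf (nat_lit 13811005706282460) (.br (nat_lit 4) (.cons (.br (nat_lit 5) (.cons (.rel (nat_lit 10737418497)) .nil)) .nil)) .leaf) (nat_lit 13811005707260566) (.br (nat_lit 0) (.cons (.br (nat_lit 4) (.cons (.rel (nat_lit 1082134533)) .nil)) .nil)) (.node .leaf (nat_lit 13811167053747556) (.br (nat_lit 1) (.cons (.br (nat_lit 3) (.cons (.rel (nat_lit 285212808)) .nil)) .nil)) .leaf)) (nat_lit 13811168913655140) (.br (nat_lit 0) (.cons (.br (nat_lit 6) (.cons (.rel (nat_lit 17188290624)) .nil)) .nil)) (.node (.node .leaf (nat_lit 13812486232678461) (.br (nat_lit 0) (.cons (.br (nat_lit 1) (.cons (.rel (nat_lit 20971668)) .nil)) .nil)) .leaf) (nat_lit 13812506854165980) (.br (nat_lit 2) (.cons (.br (nat_lit 4) (.cons (.rel (nat_lit 1141134336)) .nil)) .nil)) .leaf)))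

/-- refutations 115 -/
def e115 : EX := (.node (.node (.node (.node (.node (.node .leaf (nat_lit 13815750407824860) (.br (nat_lit 3) (.cons (.br (nat_lit 5) (.cons (.rel (nat_lit 8858378244)) .nil)) .nil)) .leaf) (nat_lit 13815750408803684) (.br (nat_lit 0) (.cons (.br (nat_lit 4) (.cons (.rel (nat_lit 1079052288)) .nil)) .nil)) .leaf) (nat_lit 13815753933326397) (.br (nat_lit 0) (.cons (.br (nat_lit 4) (.cons (.rel (nat_lit 1082195976)) .nil)) .nil)) (.node .leaf (nat_lit 13815753933326517) (.br (nat_lit 0) (.cons (.br (nat_lit 4) (.cons (.rel (nat_lit 1082195976)) .nil)) .nil)) .leaf)) (nat_lit 13815753936213468) (.br (nat_lit 3) (.cons (.br (nat_lit 5) (.cons (.rel (nat_lit 4563665937)) .nil)) .nil)) (.node (.node (.node .leaf (nat_lit 13815755938205028) (.br (nat_lit 3) (.cons (.br (nat_lit 4) (.cons (.br (nat_lit 0) (.cons (.rel (nat_lit 272892033)) (.cons (.rel (nat_lit 2420637696)) (.cons (.rel (nat_lit 1082195976)) .nil)))) .nil)) .nil)) .leaf) (nat_lit 13815755938205148) (.br (nat_lit 3) (.cons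 (.br (nat_lit 4) (.cons (.rel (nat_lit 1343225937)) (.cons (.rel (nat_lit 1342439448)) .nil))) (.cons (.br (nat_lit 4) (.cons (.br (nat_lit 5) (.cons (.rel (nat_lit 4564467714)) (.cons (.rel (nat_lit 5368709634)) .nil))) (.cons (.rel (nat_lit 1342441473)) .nil))) .nil))) .leaf) (nat_lit 13815755938563348) (.br (nat_lit 1) (.cons (.br (nat_lit 4) (.cons (.rel (nat_lit 1090527300)) .nil)) .nil)) (.node .leaf (nat_lit 13815755938727268) (.br (nat_lit 4) (.cons (.br (nat_lit 5) (.cons (.rel (nat_lit 6442453008)) .nil)) .nil)) .leaf))) (nat_lit 13815755939494023) (.br (nat_lit 1) (.cons (.br (nat_lit 5) (.cons (.rel (nat_lit 4311746562)) .nil)) .nil)) (.node (.node (.node (.node .leaf (nat_lit 13815755940110397) (.br (nat_lit 4) (.cons (.br (nat_lit 5) (.cons (.rel (nat_lit 5368709634)) (.cons (.rel (nat_lit 5370872064)) .nil))) (.cons (.br (nat_lit 5) (.cons (.rel (nat_lit 5368709634)) (.cons (.rel (nat_lit 6442717440)) .nil))) .nil))) .leaf) (nat_lit 13815755940110471) (.br (nat_lit 2) (.cons (.br (nat_lit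 4) (.cons (.rel (nat_lit 1141112964)) .nil)) .nil)) .leaf) (nat_lit 13815755940110517) (.br (nat_lit 5) (.cons (.br (nat_lit 0) (.cons (.rel (nat_lit 4299231744)) (.cons (.rel (nat_lit 8594145345)) (.cons (.rel (nat_lit 4301259012)) (.cons (.rel (nat_lit 4299231744)) .nil))))) (.cons (.br (nat_lit 4) (.cons (.rel (nat_lit 6442453008)) (.cons (.rel (nat_lit 6442453008)) (.cons (.rel (nat_lit 6442717440)) (.cons (.rel (nat_lit 6442453008)) .nil))))) .nil))) (.node .leaf (nat_lit 13815755941082475) (.br (nat_lit 0) (.cons (.br (nat_lit 1) (.cons (.rel (nat_lit 25170192)) .nil)) .nil)) .leaf)) (nat_lit 13815755941090660) (.br (nat_lit 0) (.cons (.br (nat_lit 5) (.cons (.rel (nat_lit 4299423762)) .nil)) .nil)) (.node (.node .leaf (nat_lit 13816323381398406) (.br (nat_lit 1) (.cons (.br (nat_lit 4) (.cons (.rel (nat_lit 2181038097)) .nil)) .nil)) .leaf) (nat_lit 13816531987975521) (.br (nat_lit 3) (.cons (.br (nat_lit 4) (.cons (.rel (nat_lit 1343291394)) .nil)) .nil)) (.node .leaf (nat_lit 13816534477088120)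 (.br (nat_lit 1) (.cons (.br (nat_lit 3) (.cons (.rel (nat_lit 285217857)) .nil)) .nil)) .leaf)))) (nat_lit 13816534665268700) (.br (nat_lit 0) (.cons (.br (nat_lit 6) (.cons (.rel (nat_lit 17184346113)) .nil)) .nil)) (.node (.node (.node (.node (.node .leaf (nat_lit 13816534667174069) (.br (nat_lit 3) (.cons (.br (nat_lit 4) (.cons (.rel (nat_lit 1342308864)) .nil)) .nil)) .leaf) (nat_lit 13816537207336193) (.br (nat_lit 6) (.cons (.br (nat_lit 0) (.cons (.rel (nat_lit 17184065088)) (.cons (.rel (nat_lit 34363932681)) .nil))) .nil)) .leaf) (nat_lit 13816537210110713) (.br (nat_lit 4) (.cons (.br (nat_lit 3) (.cons (.rel (nat_lit 2684420352)) (.cons (.rel (nat_lit 1342308864)) (.cons (.rel (nat_lit 2684420352)) .nil)))) .nil)) (.node .leaf (nat_lit 13816537609670108) (.br (nat_lit 2) (.cons (.br (nat_lit 3) (.cons (.rel (nat_lit 402671616)) .nil)) .nil)) .leaf)) (nat_lit 13816537622253020) (.br (nat_lit 0) (.cons (.br (nat_lit 4) (.cons (.rel (nat_lit 1078199298)) (.cons (.rel (nat_lit 1078199298)) .nil)))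 (.cons (.br (nat_lit 4) (.cons (.rel (nat_lit 2151679104)) (.cons (.rel (nat_lit 2151679104)) .nil))) .nil))) (.node (.node (.node .leaf (nat_lit 13816537622529260) (.br (nat_lit 0) (.cons (.br (nat_lit 4) (.cons (.rel (nat_lit 1078267968)) .nil)) .nil)) .leaf) (nat_lit 13816537624158389) (.br (nat_lit 3) (.cons (.br (nat_lit 0) (.cons (.rel (nat_lit 272695812)) (.cons (.rel (nat_lit 541147200)) (.cons (.rel (nat_lit 272634369)) .nil)))) (.cons (.br (nat_lit 0) (.cons (.rel (nat_lit 273022992)) (.cons (.rel (nat_lit 272892033)) (.cons (.rel (nat_lit 273679377)) .nil)))) .nil))) .leaf) (nat_lit 13816537625137814) (.br (nat_lit 0) (.cons (.br (nat_lit 6) (.cons (.rel (nat_lit 17184065088)) (.cons (.rel (nat_lit 17184407556)) .nil))) .nil)) (.node .leaf (nat_lit 13816537625139860) (.br (nat_lit 3) (.cons (.br (nat_lit 4) (.cons (.rel (nat_lit 1342308864)) (.cons (.rel (nat_lit 1342441473)) .nil))) .nil)) .leaf))) (nat_lit 13816538378772485) (.br (nat_lit 3) (.cons (.br (nat_lit 0) (.cons (.rel (nat_lit 272695812))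 (.cons (.rel (nat_lit 276825090)) .nil))) .nil)) (.node (.node (.node (.node .leaf (nat_lit 13816609814613468) (.br (nat_lit 0) (.cons (.br (nat_lit 6) (.cons (.rel (nat_lit 17185210368)) .nil)) .nil)) .leaf) (nat_lit 13816609816156320) (.br (nat_lit 2) (.cons (.br (nat_lit 3) (.cons (.rel (nat_lit 604013568)) .nil)) .nil)) .leaf) (nat_lit 13816609817499100) (.br (nat_lit 0) (.cons (.br (nat_lit 2) (.cons (.rel (nat_lit 71632896)) .nil)) .nil)) (.node .leaf (nat_lit 13816615165236580) (.br (nat_lit 0) (.cons (.br (nat_lit 4) (.cons (.rel (nat_lit 1078198308)) .nil)) .nil)) .leaf)) (nat_lit 13816615165236700) (.br (nat_lit 2) (.cons (.br (nat_lit 4) (.cons (.rel (nat_lit 1141972992)) .nil)) .nil)) (.node (.node .leaf (nat_lit 13816844855020422) (.br (nat_lit 1) (.cons (.br (nat_lit 2) (.cons (.rel (nat_lit 83904528)) .nil)) .nil)) .leaf) (nat_lit 13817482099821825) (.br (nat_lit 2) (.cons (.br (nat_lit 3) (.cons (.rel (nat_lit 604013568)) .nil)) .nil)) (.node .leaf (nat_lit 13817482102453134) (.br (nat_lit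 4) (.cons (.br (nat_lit 5) (.cons (.rel (nat_lit 10737418497)) .nil)) .nil)) .leaf)))))

/-- refutations 116 -/
def e116 : EX := (.node (.node (.node (.node (.node .leaf (nat_lit 13821943748759004) (.br (nat_lit 3) (.cons (.br (nat_lit 4) (.cons (.rel (nat_lit 1343225937)) .nil)) .nil)) .leaf) (nat_lit 13821949281567382) (.br (nat_lit 0) (.cons (.br (nat_lit 4) (.cons (.rel (nat_lit 1078988820)) .nil)) .nil)) .leaf) (nat_lit 13822974540908605) (.br (nat_lit 3) (.cons (.br (nat_lit 4) (.cons (.br (nat_lit 0) (.cons (.rel (nat_lit 1619263488)) (.cons (.rel (nat_lit 273678342)) .nil))) .nil)) .nil)) (.node .leaf (nat_lit 13822974540909206) (.br (nat_lit 0) (.cons (.br (nat_lit 4) (.cons (.rel (nat_lit 2151679104)) .nil)) .nil)) .leaf)) (nat_lit 13822974540909924) (.br (nat_lit 0) (.cons (.br (nat_lit 4) (.cons (.rel (nat_lit 2155876641)) .nil)) .nil)) (.node (.node .leaf (nat_lit 13822974540910044) (.br (nat_lit 3) (.cons (.br (nat_lit 4) (.cons (.rel (nat_lit 2684420352)) .nil)) .nil)) .leaf) (nat_lit 13822974542815293)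 (.br (nat_lit 3) (.cons (.br (nat_lit 4) (.cons (.rel (nat_lit 1343225937)) .nil)) .nil)) (.node .leaf (nat_lit 13822974542815413) (.br (nat_lit 0) (.cons (.br (nat_lit 4) (.cons (.rel (nat_lit 2151682128)) .nil)) .nil)) .leaf))) (nat_lit 13822974543794357) (.br (nat_lit 3) (.cons (.br (nat_lit 5) (.cons (.rel (nat_lit 4563664902)) .nil)) .nil)) (.node (.node (.node .leaf (nat_lit 13822974543795676) (.br (nat_lit 3) (.cons (.br (nat_lit 5) (.cons (.rel (nat_lit 4563485184)) .nil)) .nil)) .leaf) (nat_lit 13822978068319110) (.br (nat_lit 4) (.cons (.br (nat_lit 2) (.cons (.rel (nat_lit 1141134336)) (.cons (.rel (nat_lit 1207992324)) (.cons (.rel (nat_lit 2214593616)) (.cons (.rel (nat_lit 1141179456)) .nil))))) .nil)) (.node .leaf (nat_lit 13822978068319708) (.br (nat_lit 5) (.cons (.br (nat_lit 3) (.cons (.rel (nat_lit 4563485184)) (.cons (.rel (nat_lit 9126830400)) (.cons (.rel (nat_lit 4564467714)) .nil)))) (.cons (.br (nat_lit 3) (.cons (.rel (nat_lit 4831842312)) (.cons (.rel (nat_lit 4563485184)) (.cons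 (.rel (nat_lit 4563664902)) .nil)))) .nil))) .leaf)) (nat_lit 13822978070225077) (.br (nat_lit 0) (.cons (.br (nat_lit 4) (.cons (.rel (nat_lit 1079052288)) .nil)) .nil)) (.node (.node .leaf (nat_lit 13822980073195581) (.br (nat_lit 4) (.cons (.br (nat_lit 0) (.cons (.rel (nat_lit 1082195976)) (.cons (.br (nat_lit 3) (.cons (.rel (nat_lit 273678342)) (.cons (.rel (nat_lit 2420637696)) .nil))) .nil))) .nil)) .leaf) (nat_lit 13822980073197020) (.br (nat_lit 4) (.cons (.br (nat_lit 3) (.cons (.rel (nat_lit 1343242260)) (.cons (.rel (nat_lit 1342177953)) (.cons (.rel (nat_lit 1610678292)) .nil)))) .nil)) (.node .leaf (nat_lit 13822980075102389) (.br (nat_lit 4) (.cons (.br (nat_lit 6) (.cons (.rel (nat_lit 36507222336)) .nil)) .nil)) .leaf))))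

/-- refutations 118 -/
def e118 : EX := (.node (.node (.node (.node (.node .leaf (nat_lit 14091387351925622) (.br (nat_lit 4) (.cons (.br (nat_lit 2) (.cons (.rel (nat_lit 1207976001)) (.cons (.rel (nat_lit 1140855300)) .nil))) .nil)) .leaf) (nat_lit 14091387353756534) (.br (nat_lit 0) (.cons (.br (nat_lit 4) (.cons (.rel (nat_lit 1078985796)) .nil)) .nil)) .leaf) (nat_lit 14092475631206532) (.br (nat_lit 2) (.cons (.br (nat_lit 3) (.cons (.rel (nat_lit 402719760)) .nil)) .nil)) (.node .leaf (nat_lit 14092475631207175) (.br (nat_lit 1) (.cons (.br (nat_lit 4) (.cons (.rel (nat_lit 2181038097)) .nil)) .nil)) .leaf)) (nat_lit 14092475631207286) (.br (nat_lit 4) (.cons (.br (nat_lit 1) (.cons (.rel (nat_lit 2181038097)) (.cons (.rel (nat_lit 1090553937)) .nil))) .nil)) (.node (.node (.node .leaf (nat_lit 14092475634073900) (.br (nat_lit 1) (.cons (.br (nat_lit 2) (.cons (.rel (nat_lit 167854080)) .nil)) .nil)) .leaf) (nat_lit 14092477623500932) (.br (nat_lit 1) (.cons (.br (nat_lit 2) (.cons (.rel (nat_lit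 83904528)) (.cons (.rel (nat_lit 83904528)) .nil))) .nil)) .leaf) (nat_lit 14092477626368886) (.br (nat_lit 2) (.cons (.br (nat_lit 4) (.cons (.rel (nat_lit 1141915776)) .nil)) .nil)) (.node .leaf (nat_lit 14092478793711652) (.br (nat_lit 1) (.cons (.br (nat_lit 4) (.cons (.rel (nat_lit 1090666500)) .nil)) .nil)) .leaf))) (nat_lit 14092478793712502) (.br (nat_lit 1) (.cons (.br (nat_lit 4) (.cons (.rel (nat_lit 2181038097)) (.cons (.rel (nat_lit 1090666500)) .nil))) (.cons (.br (nat_lit 2) (.cons (.rel (nat_lit 83904528)) (.cons (.rel (nat_lit 83903493)) .nil))) .nil))) (.node (.node (.node (.node .leaf (nat_lit 14093540715987830) (.br (nat_lit 1) (.cons (.br (nat_lit 6) (.cons (.rel (nat_lit 34393296912)) .nil)) .nil)) .leaf) (nat_lit 14093540715988225) (.br (nat_lit 3) (.cons (.br (nat_lit 4) (.cons (.rel (nat_lit 1342184001)) .nil)) .nil)) .leaf) (nat_lit 14093540717564080) (.br (nat_lit 3) (.cons (.br (nat_lit 6) (.cons (.rel (nat_lit 17448309252)) .nil)) .nil)) (.node .leaf (nat_lit 14093540717565185)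 (.br (nat_lit 1) (.cons (.br (nat_lit 2) (.cons (.rel (nat_lit 150999360)) .nil)) .nil)) .leaf)) (nat_lit 14093546342379652) (.br (nat_lit 2) (.cons (.br (nat_lit 4) (.cons (.rel (nat_lit 1141134336)) .nil)) .nil)) (.node (.node (.node .leaf (nat_lit 14097887108221060) (.br (nat_lit 2) (.cons (.br (nat_lit 3) (.cons (.rel (nat_lit 402653268)) .nil)) .nil)) .leaf) (nat_lit 14097887290000135) (.br (nat_lit 0) (.cons (.br (nat_lit 2) (.cons (.rel (nat_lit 71303682)) .nil)) .nil)) .leaf) (nat_lit 14097889285064836) (.br (nat_lit 2) (.cons (.br (nat_lit 3) (.cons (.rel (nat_lit 402653268)) .nil)) .nil)) (.node .leaf (nat_lit 14097891927313270) (.br (nat_lit 0) (.cons (.br (nat_lit 3) (.cons (.rel (nat_lit 273813504)) .nil)) .nil)) .leaf))))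

/-- refutations 119 -/
def e119 : EX := (.node (.node (.node (.node (.node .leaf (nat_lit 14098955604394870) (.br (nat_lit 1) (.cons (.br (nat_lit 3) (.cons (.rel (nat_lit 285282324)) .nil)) .nil)) .leaf) (nat_lit 14098957206618998) (.br (nat_lit 1) (.cons (.br (nat_lit 4) (.cons (.br (nat_lit 3) (.cons (.rel (nat_lit 1342308864)) (.cons (.rel (nat_lit 303104016)) .nil))) .nil)) .nil)) .leaf) (nat_lit 14098957209390461) (.br (nat_lit 1) (.cons (.br (nat_lit 3) (.cons (.rel (nat_lit 285282324)) .nil)) .nil)) (.node .leaf (nat_lit 14098957599460733) (.br (nat_lit 0) (.cons (.br (nat_lit 2) (.cons (.rel (nat_lit 138412128)) .nil)) .nil)) .leaf)) (nat_lit 14098957599746730) (.br (nat_lit 0) (.cons (.br (nat_lit 1) (.cons (.rel (nat_lit 21103617)) .nil)) .nil)) (.node (.node (.node .leaf (nat_lit 14102345281503364) (.br (nat_lit 3) (.cons (.br (nat_lit 4) (.cons (.rel (nat_lit 1343229960)) .nil)) .nil)) .leaf) (nat_lit 14102345283334795) (.br (nat_lit 2) (.cons (.br (nat_lit 3) (.cons (.rel (nat_lit 604013568))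 .nil)) .nil)) .leaf) (nat_lit 14102345284274308) (.br (nat_lit 4) (.cons (.br (nat_lit 2) (.cons (.rel (nat_lit 1207967760)) (.cons (.rel (nat_lit 1141900308)) .nil))) .nil)) (.node .leaf (nat_lit 14102345284275581) (.br (nat_lit 1) (.cons (.br (nat_lit 3) (.cons (.rel (nat_lit 285220881)) .nil)) .nil)) .leaf))) (nat_lit 14102345284561547) (.br (nat_lit 0) (.cons (.br (nat_lit 2) (.cons (.rel (nat_lit 71303682)) .nil)) .nil)) (.node (.node (.node (.node .leaf (nat_lit 14102345400520880) (.br (nat_lit 1) (.cons (.br (nat_lit 3) (.cons (.rel (nat_lit 285220881)) .nil)) .nil)) .leaf) (nat_lit 14102345465989296) (.br (nat_lit 0) (.cons (.br (nat_lit 3) (.cons (.rel (nat_lit 273813504)) .nil)) .nil)) .leaf) (nat_lit 14102345466052660) (.br (nat_lit 2) (.cons (.br (nat_lit 3) (.cons (.rel (nat_lit 603987969)) .nil)) .nil)) (.node .leaf (nat_lit 14102345467629744) (.br (nat_lit 4) (.cons (.br (nat_lit 6) (.cons (.rel (nat_lit 19327386624)) .nil)) .nil)) .leaf)) (nat_lit 14102347458347140) (.br (nat_lit 2) (.cons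 (.br (nat_lit 3) (.cons (.br (nat_lit 0) (.cons (.rel (nat_lit 75579396)) (.cons (.rel (nat_lit 339808272)) .nil))) .nil)) .nil)) (.node (.node (.node .leaf (nat_lit 14102347460178571) (.br (nat_lit 2) (.cons (.br (nat_lit 3) (.cons (.rel (nat_lit 604013568)) .nil)) .nil)) .leaf) (nat_lit 14102611686916256) (.br (nat_lit 1) (.cons (.br (nat_lit 2) (.cons (.rel (nat_lit 83952672)) .nil)) .nil)) .leaf) (nat_lit 14102617311477920) (.br (nat_lit 2) (.cons (.br (nat_lit 3) (.cons (.rel (nat_lit 335822868)) .nil)) .nil)) (.node .leaf (nat_lit 14102617311478646) (.br (nat_lit 0) (.cons (.br (nat_lit 5) (.cons (.rel (nat_lit 4300275717)) .nil)) .nil)) .leaf))))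

/-- refutations 122 -/
def e122 : EX := (.node (.node (.node (.node .leaf (nat_lit 14161976808776562) (.br (nat_lit 0) (.cons (.br (nat_lit 1) (.cons (.rel (nat_lit 22086912)) .nil)) .nil)) .leaf) (nat_lit 14167611805869532) (.br (nat_lit 4) (.cons (.br (nat_lit 0) (.cons (.rel (nat_lit 1078222848)) (.cons (.rel (nat_lit 1078222848)) .nil))) .nil)) .leaf) (nat_lit 14167611806075060) (.br (nat_lit 2) (.cons (.br (nat_lit 3) (.cons (.rel (nat_lit 335822868)) .nil)) .nil)) (.node .leaf (nat_lit 14168462209342940) (.br (nat_lit 0) (.cons (.br (nat_lit 1) (.cons (.rel (nat_lit 21233922)) .nil)) .nil)) .leaf)) (nat_lit 14168462209393522) (.br (nat_lit 2) (.cons (.br (nat_lit 4) (.cons (.rel (nat_lit 1140855300)) .nil)) .nil)) (.node (.node .leaf (nat_lit 14168462209956622) (.br (nat_lit 0) (.cons (.br (nat_lit 2) (.cons (.rel (nat_lit 71303682)) .nil)) .nil)) .leaf) (nat_lit 14174604014344197) (.br (nat_lit 0) (.cons (.br (nat_lit 1) (.cons (.rel (nat_lit 20990016)) .nil)) .nil)) (.node .leaf (nat_lit 14174638791794724)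 (.br (nat_lit 0) (.cons (.br (nat_lit 1) (.cons (.rel (nat_lit 22086912)) .nil)) .nil)) .leaf)))

/-- refutations 123 -/
def e123 : EX := (.node (.node (.node .leaf (nat_lit 14249714956181565) (.br (nat_lit 1) (.cons (.br (nat_lit 2) (.cons (.rel (nat_lit 83904528)) .nil)) .nil)) .leaf) (nat_lit 14251838241608367) (.br (nat_lit 3) (.cons (.br (nat_lit 4) (.cons (.rel (nat_lit 1610613825)) .nil)) .nil)) .leaf) (nat_lit 14261500344586301) (.br (nat_lit 0) (.cons (.br (nat_lit 2) (.cons (.rel (nat_lit 72369216)) .nil)) .nil)) (.node .leaf (nat_lit 14262564443705405) (.br (nat_lit 2) (.cons (.br (nat_lit 4) (.cons (.rel (nat_lit 1141131360)) .nil)) .nil)) .leaf))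

/-- refutations 125 -/
def e125 : EX := (.node (.node (.node (.node (.node (.node .leaf (nat_lit 15481385234322908) (.br (nat_lit 3) (.cons (.br (nat_lit 2) (.cons (.rel (nat_lit 402671616)) (.cons (.rel (nat_lit 336724992)) .nil))) .nil)) .leaf) (nat_lit 15481387188868572) (.br (nat_lit 3) (.cons (.br (nat_lit 4) (.cons (.rel (nat_lit 1342441473)) .nil)) .nil)) .leaf) (nat_lit 15482413279203389) (.br (nat_lit 1) (.cons (.br (nat_lit 5) (.cons (.rel (nat_lit 4311761040)) .nil)) .nil)) (.node .leaf (nat_lit 15482415061782589) (.br (nat_lit 0) (.cons (.br (nat_lit 1) (.cons (.rel (nat_lit 26476608)) .nil)) .nil)) .leaf)) (nat_lit 15482415061784028) (.br (nat_lit 1) (.cons (.br (nat_lit 3) (.cons (.rel (nat_lit 570425412)) .nil)) .nil)) (.node (.node .leaf (nat_lit 15482415988365573) (.br (nat_lit 0) (.cons (.br (nat_lit 1) (.cons (.rel (nat_lit 20975682)) .nil)) .nil)) .leaf) (nat_lit 15483317343265448) (.br (nat_lit 0) (.cons (.br (nat_lit 2) (.cons (.rel (nat_lit 71581728)) .nil)) .nil)) (.node .leaf (nat_lit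 15483538560635687) (.br (nat_lit 0) (.cons (.br (nat_lit 1) (.cons (.rel (nat_lit 20971668)) .nil)) .nil)) .leaf))) (nat_lit 15488734529626869) (.br (nat_lit 0) (.cons (.br (nat_lit 2) (.cons (.rel (nat_lit 71566404)) .nil)) .nil)) (.node (.node (.node (.node .leaf (nat_lit 15488735156439797) (.br (nat_lit 1) (.cons (.br (nat_lit 0) (.cons (.rel (nat_lit 20990016)) (.cons (.rel (nat_lit 20975682)) .nil))) .nil)) .leaf) (nat_lit 15488735159232773) (.br (nat_lit 0) (.cons (.br (nat_lit 1) (.cons (.rel (nat_lit 20980740)) .nil)) .nil)) .leaf) (nat_lit 15488735458481628) (.br (nat_lit 1) (.cons (.br (nat_lit 5) (.cons (.rel (nat_lit 8623490049)) .nil)) .nil)) (.node .leaf (nat_lit 15488735470810464) (.br (nat_lit 0) (.cons (.br (nat_lit 3) (.cons (.rel (nat_lit 273022992)) (.cons (.rel (nat_lit 272908356)) .nil))) (.cons (.br (nat_lit 3) (.cons (.rel (nat_lit 273022992)) (.cons (.rel (nat_lit 272908356)) .nil))) .nil))) .leaf)) (nat_lit 15488735471064540) (.br (nat_lit 2) (.cons (.br (nat_lit 1) (.cons (.rel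 (nat_lit 83952672)) (.cons (.rel (nat_lit 83886180)) (.cons (.rel (nat_lit 83910720)) (.cons (.rel (nat_lit 83890194)) .nil))))) (.cons (.br (nat_lit 1) (.cons (.rel (nat_lit 83886180)) (.cons (.rel (nat_lit 100935696)) (.cons (.rel (nat_lit 83890194)) (.cons (.rel (nat_lit 84049920)) .nil))))) (.cons (.br (nat_lit 1) (.cons (.rel (nat_lit 83952672)) (.cons (.rel (nat_lit 83952672)) (.cons (.rel (nat_lit 83892228)) (.cons (.br (nat_lit 3) (.cons (.rel (nat_lit 285234180)) (.cons (.rel (nat_lit 570425412)) (.cons (.rel (nat_lit 335810568)) (.cons (.rel (nat_lit 336724992)) (.cons (.rel (nat_lit 336724992)) .nil)))))) .nil))))) .nil)))) (.node (.node .leaf (nat_lit 15488735471966364) (.br (nat_lit 0) (.cons (.br (nat_lit 3) (.cons (.rel (nat_lit 276825090)) .nil)) .nil)) .leaf) (nat_lit 15488735473308459) (.br (nat_lit 3) (.cons (.br (nat_lit 5) (.cons (.rel (nat_lit 4563664902)) (.cons (.rel (nat_lit 4563485184)) (.cons (.rel (nat_lit 4831903746)) .nil)))) .nil)) (.node .leaf (nat_lit 15488735578166059) (.br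 (nat_lit 2) (.cons (.br (nat_lit 6) (.cons (.rel (nat_lit 17246978565)) .nil)) .nil)) .leaf)))) (nat_lit 15488735663748448) (.br (nat_lit 0) (.cons (.br (nat_lit 1) (.cons (.rel (nat_lit 20990016)) .nil)) .nil)) (.node (.node (.node (.node (.node .leaf (nat_lit 15488735664002524) (.br (nat_lit 1) (.cons (.br (nat_lit 2) (.cons (.rel (nat_lit 167854080)) .nil)) .nil)) .leaf) (nat_lit 15488735664904348) (.br (nat_lit 0) (.cons (.br (nat_lit 2) (.cons (.rel (nat_lit 71569428)) .nil)) .nil)) .leaf) (nat_lit 15488735666246443) (.br (nat_lit 5) (.cons (.br (nat_lit 4) (.cons (.rel (nat_lit 9663676437)) (.cons (.rel (nat_lit 5370872064)) .nil))) .nil)) (.node .leaf (nat_lit 15488737022957020) (.br (nat_lit 1) (.cons (.br (nat_lit 3) (.cons (.rel (nat_lit 570425412)) .nil)) .nil)) .leaf)) (nat_lit 15488738218079584) (.br (nat_lit 2) (.cons (.br (nat_lit 5) (.cons (.rel (nat_lit 4363452672)) .nil)) .nil)) (.node (.node .leaf (nat_lit 15488738218333660) (.br (nat_lit 0) (.cons (.br (nat_lit 2) (.cons (.rel (nat_lit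 142606593)) (.cons (.rel (nat_lit 72482817)) (.cons (.rel (nat_lit 71632896)) .nil)))) (.cons (.br (nat_lit 3) (.cons (.rel (nat_lit 272695812)) (.cons (.rel (nat_lit 273022992)) (.cons (.rel (nat_lit 273022992)) .nil)))) (.cons (.br (nat_lit 4) (.cons (.rel (nat_lit 1082195976)) (.cons (.rel (nat_lit 1078198308)) (.cons (.rel (nat_lit 1078222848)) .nil)))) .nil)))) .leaf) (nat_lit 15488738219235484) (.br (nat_lit 2) (.cons (.br (nat_lit 4) (.cons (.rel (nat_lit 1141112964)) (.cons (.rel (nat_lit 1141112964)) .nil))) .nil)) (.node .leaf (nat_lit 15488738219512084) (.br (nat_lit 1) (.cons (.br (nat_lit 5) (.cons (.rel (nat_lit 4311746562)) .nil)) .nil)) .leaf))) (nat_lit 15488738220577579) (.br (nat_lit 1) (.cons (.br (nat_lit 5) (.cons (.rel (nat_lit 4311842820)) (.cons (.rel (nat_lit 4311826497)) .nil))) (.cons (.br (nat_lit 2) (.cons (.rel (nat_lit 153093120)) (.cons (.rel (nat_lit 83952672)) .nil))) .nil))) (.node (.node (.node .leaf (nat_lit 15488738302219740) (.br (nat_lit 2) (.cons (.br (nat_lit 0)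 (.cons (.rel (nat_lit 142606593)) (.cons (.rel (nat_lit 142606593)) .nil))) .nil)) .leaf) (nat_lit 15488739686340060) (.br (nat_lit 0) (.cons (.br (nat_lit 1) (.cons (.rel (nat_lit 20980740)) (.cons (.rel (nat_lit 21053448)) .nil))) (.cons (.br (nat_lit 1) (.cons (.rel (nat_lit 41944134)) (.cons (.rel (nat_lit 21053448)) .nil))) .nil))) (.node .leaf (nat_lit 15488739854112220) (.br (nat_lit 2) (.cons (.br (nat_lit 4) (.cons (.rel (nat_lit 1209532416)) .nil)) .nil)) .leaf)) (nat_lit 15488739854357740) (.br (nat_lit 0) (.cons (.br (nat_lit 1) (.cons (.rel (nat_lit 41945169)) .nil)) .nil)) (.node (.node .leaf (nat_lit 15488740172879324) (.br (nat_lit 3) (.cons (.br (nat_lit 2) (.cons (.rel (nat_lit 336724992)) (.cons (.rel (nat_lit 335872002)) (.cons (.rel (nat_lit 402671616)) .nil)))) (.cons (.br (nat_lit 1) (.cons (.rel (nat_lit 285217857)) (.cons (.rel (nat_lit 285282324)) (.cons (.rel (nat_lit 570425412)) .nil)))) .nil))) .leaf) (nat_lit 15488740175123243) (.br (nat_lit 6) (.cons (.br (nat_lit 4) (.cons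 (.rel (nat_lit 35433480276)) (.cons (.rel (nat_lit 18253875216)) .nil))) .nil)) (.node .leaf (nat_lit 15488740175385503) (.br (nat_lit 0) (.cons (.br (nat_lit 3) (.cons (.rel (nat_lit 541065240)) .nil)) .nil)) .leaf)))))

/-- refutations 126 -/
def e126 : EX := (.node (.node (.node .leaf (nat_lit 15489070672414981) (.br (nat_lit 0) (.cons (.br (nat_lit 1) (.cons (.rel (nat_lit 20975682)) .nil)) .nil)) .leaf) (nat_lit 15492291703934428) (.br (nat_lit 0) (.cons (.br (nat_lit 1) (.cons (.rel (nat_lit 21041184)) .nil)) .nil)) .leaf) (nat_lit 15492291703985628) (.br (nat_lit 2) (.cons (.br (nat_lit 6) (.cons (.br (nat_lit 0) (.cons (.rel (nat_lit 17184065088)) (.cons (.rel (nat_lit 142606593)) .nil))) .nil)) .nil)) (.node .leaf (nat_lit 15492291915945436) (.br (nat_lit 1) (.cons (.br (nat_lit 3) (.cons (.rel (nat_lit 285245445)) .nil)) .nil)) .leaf))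

/-- refutations 127 -/
def e127 : EX := (.node (.node (.node .leaf (nat_lit 15429483679294102) (.br (nat_lit 1) (.cons (.br (nat_lit 0) (.cons (.rel (nat_lit 21103617)) (.cons (.rel (nat_lit 21103617)) .nil))) .nil)) .leaf) (nat_lit 15429483682007227) (.br (nat_lit 1) (.cons (.br (nat_lit 3) (.cons (.rel (nat_lit 570425412)) .nil)) .nil)) (.node .leaf (nat_lit 15431030622495977) (.br (nat_lit 2) (.cons (.br (nat_lit 3) (.cons (.br (nat_lit 4) (.cons (.rel (nat_lit 2684420352)) .nil)) .nil)) .nil)) .leaf)) (nat_lit 15435963652481686) (.br (nat_lit 0) (.cons (.br (nat_lit 2) (.cons (.rel (nat_lit 138429441)) .nil)) .nil)) (.node (.node .leaf (nat_lit 15435963652482281) (.br (nat_lit 0) (.cons (.br (nat_lit 3) (.cons (.rel (nat_lit 272695812)) .nil)) .nil)) .leaf) (nat_lit 15435963654941582) (.br (nat_lit 1) (.cons (.br (nat_lit 2) (.cons (.rel (nat_lit 83904528)) .nil)) .nil)) .leaf))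

/-- refutations 128 -/
def e128 : EX := (.node (.node (.node (.node .leaf (nat_lit 15518508192745729) (.br (nat_lit 3) (.cons (.br (nat_lit 1) (.cons (.rel (nat_lit 285220881)) (.cons (.rel (nat_lit 570425412)) .nil))) .nil)) .leaf) (nat_lit 15518508194263092) (.br (nat_lit 0) (.cons (.br (nat_lit 3) (.cons (.rel (nat_lit 272634369)) .nil)) .nil)) .leaf) (nat_lit 15518508194981275) (.br (nat_lit 0) (.cons (.br (nat_lit 1) (.cons (.rel (nat_lit 21041184)) .nil)) .nil)) (.node (.node .leaf (nat_lit 15518513660415512) (.br (nat_lit 0) (.cons (.br (nat_lit 1) (.cons (.rel (nat_lit 20990016)) .nil)) .nil)) .leaf) (nat_lit 15523060858980609) (.br (nat_lit 2) (.cons (.br (nat_lit 3) (.cons (.rel (nat_lit 335810568)) .nil)) .nil)) .leaf)) (nat_lit 15523911261558271) (.br (nat_lit 0) (.cons (.br (nat_lit 1) (.cons (.rel (nat_lit 20990016)) .nil)) .nil)) (.node (.node (.node .leaf (nat_lit 15523911261604597) (.br (nat_lit 0) (.cons (.br (nat_lit 1) (.cons (.rel (nat_lit 20971668)) (.cons (.rel (nat_lit 22086912))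 .nil))) (.cons (.br (nat_lit 1) (.cons (.rel (nat_lit 20975682)) (.cons (.rel (nat_lit 20979753)) .nil))) .nil))) .leaf) (nat_lit 15523911263839489) (.br (nat_lit 0) (.cons (.br (nat_lit 1) (.cons (.rel (nat_lit 25167168)) .nil)) .nil)) .leaf) (nat_lit 15528386617479824) (.br (nat_lit 0) (.cons (.br (nat_lit 3) (.cons (.rel (nat_lit 541067265)) .nil)) .nil)) (.node .leaf (nat_lit 15528386619760925) (.br (nat_lit 1) (.cons (.br (nat_lit 2) (.cons (.rel (nat_lit 83904528)) (.cons (.rel (nat_lit 167776326)) .nil))) .nil)) .leaf)))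

/-- refutations 129 -/
def e129 : EX := (.node (.node .leaf (nat_lit 15839501705793692) (.br (nat_lit 3) (.cons (.br (nat_lit 4) (.cons (.rel (nat_lit 1343225937)) (.cons (.rel (nat_lit 1610613825)) .nil))) (.cons (.br (nat_lit 5) (.cons (.rel (nat_lit 4831838289)) (.cons (.rel (nat_lit 8858378244)) (.cons (.rel (nat_lit 4831842312)) .nil)))) .nil))) .leaf) (nat_lit 15843722153123867) (.br (nat_lit 1) (.cons (.br (nat_lit 4) (.cons (.rel (nat_lit 1090527300)) .nil)) .nil)) .leaf)

/-- refutations 130 -/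
def e130 : EX := (.node (.node (.node .leaf (nat_lit 15844796419002524) (.br (nat_lit 0) (.cons (.br (nat_lit 3) (.cons (.rel (nat_lit 276824100)) .nil)) .nil)) .leaf) (nat_lit 15845002678177968) (.br (nat_lit 1) (.cons (.br (nat_lit 2) (.cons (.rel (nat_lit 83890194)) .nil)) .nil)) .leaf) (nat_lit 15845007728119984) (.br (nat_lit 1) (.cons (.br (nat_lit 4) (.cons (.rel (nat_lit 1090666500)) .nil)) .nil)) (.node .leaf (nat_lit 15846075795202075) (.br (nat_lit 0) (.cons (.br (nat_lit 2) (.cons (.rel (nat_lit 71581728)) .nil)) .nil)) .leaf))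

/-- refutations 131 -/
def e131 : EX := (.node (.node (.node (.node (.node (.node .leaf (nat_lit 15921199943270581) (.br (nat_lit 1) (.cons (.br (nat_lit 4) (.cons (.rel (nat_lit 1091633472)) .nil)) .nil)) .leaf) (nat_lit 15922065018471801) (.br (nat_lit 2) (.cons (.br (nat_lit 3) (.cons (.rel (nat_lit 403702020)) .nil)) .nil)) .leaf) (nat_lit 15922065018471900) (.br (nat_lit 4) (.cons (.br (nat_lit 5) (.cons (.rel (nat_lit 5368972356)) .nil)) .nil)) (.node .leaf (nat_lit 15922065019578549) (.br (nat_lit 4) (.cons (.br (nat_lit 5) (.cons (.rel (nat_lit 5369038848)) .nil)) .nil)) .leaf)) (nat_lit 15922065021325974) (.br (nat_lit 5) (.cons (.br (nat_lit 4) (.cons (.rel (nat_lit 5368709634)) (.cons (.rel (nat_lit 5369038848)) (.cons (.rel (nat_lit 10737418497)) (.cons (.rel (nat_lit 5368709634)) .nil))))) .nil)) (.node (.node (.node .leaf (nat_lit 15922067526664373) (.br (nat_lit 4) (.cons (.br (nat_lit 5) (.cons (.rel (nat_lit 5368975380)) .nil)) .nil)) .leaf) (nat_lit 15922067527772461) (.br (nat_lit 0)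 (.cons (.br (nat_lit 4) (.cons (.rel (nat_lit 2151809028)) .nil)) .nil)) .leaf) (nat_lit 15922067527773420) (.br (nat_lit 0) (.cons (.br (nat_lit 6) (.cons (.rel (nat_lit 17188392960)) (.cons (.rel (nat_lit 34363933716)) .nil))) .nil)) (.node .leaf (nat_lit 15922228306920924) (.br (nat_lit 2) (.cons (.br (nat_lit 4) (.cons (.rel (nat_lit 1141134336)) .nil)) .nil)) .leaf))) (nat_lit 15922228810237404) (.br (nat_lit 2) (.cons (.br (nat_lit 4) (.cons (.rel (nat_lit 1207964736)) .nil)) .nil)) (.node (.node (.node (.node .leaf (nat_lit 15923549060802741) (.br (nat_lit 2) (.cons (.br (nat_lit 3) (.cons (.rel (nat_lit 336658500)) .nil)) .nil)) .leaf) (nat_lit 15926813234564452) (.br (nat_lit 0) (.cons (.br (nat_lit 5) (.cons (.rel (nat_lit 4300228608)) .nil)) .nil)) .leaf) (nat_lit 15926813234839733) (.br (nat_lit 4) (.cons (.br (nat_lit 5) (.cons (.rel (nat_lit 5368972356)) .nil)) .nil)) (.node .leaf (nat_lit 15926813234841052) (.br (nat_lit 3) (.cons (.br (nat_lit 6) (.cons (.br (nat_lit 4) (.cons (.rel (nat_lit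 1342441473)) (.cons (.rel (nat_lit 18253611648)) .nil))) .nil)) .nil)) .leaf)) (nat_lit 15926813235947701) (.br (nat_lit 3) (.cons (.br (nat_lit 5) (.cons (.rel (nat_lit 4831903746)) (.cons (.rel (nat_lit 4563800064)) .nil))) (.cons (.br (nat_lit 5) (.cons (.rel (nat_lit 8858501121)) (.cons (.br (nat_lit 6) (.cons (.rel (nat_lit 34628173857)) (.cons (.rel (nat_lit 25769886720)) .nil))) .nil))) .nil))) (.node (.node (.node .leaf (nat_lit 15926813237695126) (.br (nat_lit 5) (.cons (.br (nat_lit 3) (.cons (.rel (nat_lit 4832887041)) (.cons (.rel (nat_lit 4565502225)) .nil))) .nil)) .leaf) (nat_lit 15926815252301276) (.br (nat_lit 4) (.cons (.br (nat_lit 5) (.cons (.rel (nat_lit 5368972356)) .nil)) .nil)) .leaf) (nat_lit 15926815253407925) (.br (nat_lit 3) (.cons (.br (nat_lit 5) (.cons (.rel (nat_lit 4831903746)) .nil)) .nil)) (.node .leaf (nat_lit 15926815255155350) (.br (nat_lit 5) (.cons (.br (nat_lit 6) (.cons (.rel (nat_lit 38654705730)) (.cons (.rel (nat_lit 42949677312)) (.cons (.rel (nat_lit 42949677312))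 .nil)))) .nil)) .leaf)))) (nat_lit 15926815331993052) (.br (nat_lit 0) (.cons (.br (nat_lit 4) (.cons (.rel (nat_lit 2151809028)) .nil)) .nil)) (.node (.node (.node (.node (.node .leaf (nat_lit 15926815835555052) (.br (nat_lit 0) (.cons (.br (nat_lit 3) (.cons (.rel (nat_lit 541065240)) .nil)) .nil)) .leaf) (nat_lit 15926817760218588) (.br (nat_lit 3) (.cons (.br (nat_lit 5) (.cons (.rel (nat_lit 8858501121)) .nil)) .nil)) .leaf) (nat_lit 15926817760292217) (.br (nat_lit 4) (.cons (.br (nat_lit 5) (.cons (.rel (nat_lit 5369775168)) .nil)) .nil)) (.node .leaf (nat_lit 15926817760330388) (.br (nat_lit 1) (.cons (.br (nat_lit 3) (.cons (.rel (nat_lit 285220881)) .nil)) .nil)) .leaf)) (nat_lit 15926817760331163) (.br (nat_lit 1) (.cons (.br (nat_lit 3) (.cons (.rel (nat_lit 570425412)) .nil)) .nil)) (.node (.node (.node .leaf (nat_lit 15926817760331283) (.br (nat_lit 4) (.cons (.br (nat_lit 5) (.cons (.rel (nat_lit 5368709634)) .nil)) .nil)) .leaf) (nat_lit 15926817760494828) (.br (nat_lit 4) (.cons (.br (nat_lit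 6) (.cons (.br (nat_lit 1) (.cons (.rel (nat_lit 34393296912)) (.cons (.rel (nat_lit 2165572608)) (.cons (.rel (nat_lit 34393293888)) (.cons (.rel (nat_lit 18270421248)) (.cons (.rel (nat_lit 1090521108)) (.cons (.rel (nat_lit 1090666500)) .nil))))))) (.cons (.rel (nat_lit 18254020608)) .nil))) .nil)) .leaf) (nat_lit 15926817760495068) (.br (nat_lit 4) (.cons (.br (nat_lit 6) (.cons (.rel (nat_lit 35433480276)) (.cons (.rel (nat_lit 18254020608)) .nil))) (.cons (.br (nat_lit 5) (.cons (.rel (nat_lit 9663774720)) (.cons (.br (nat_lit 6) (.cons (.br (nat_lit 0) (.cons (.rel (nat_lit 5372985348)) (.cons (.rel (nat_lit 1082195976)) (.cons (.rel (nat_lit 23627563008)) .nil)))) (.cons (.rel (nat_lit 19327386624)) .nil))) .nil))) .nil))) (.node .leaf (nat_lit 15926817760740588) (.br (nat_lit 3) (.cons (.br (nat_lit 4) (.cons (.rel (nat_lit 1342521408)) .nil)) .nil)) .leaf))) (nat_lit 15926817760782591) (.br (nat_lit 1) (.cons (.br (nat_lit 4) (.cons (.rel (nat_lit 2181038097)) .nil)) .nil)) (.node (.node (.node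 (.node .leaf (nat_lit 15926817760853268) (.br (nat_lit 1) (.cons (.br (nat_lit 5) (.cons (.rel (nat_lit 4311744537)) .nil)) .nil)) .leaf) (nat_lit 15926817761559788) (.br (nat_lit 5) (.cons (.br (nat_lit 6) (.cons (.rel (nat_lit 38654710788)) .nil)) .nil)) .leaf) (nat_lit 15926817761601717) (.br (nat_lit 4) (.cons (.br (nat_lit 5) (.cons (.rel (nat_lit 5368709634)) (.cons (.rel (nat_lit 9663774720)) (.cons (.rel (nat_lit 5369775168)) .nil)))) (.cons (.br (nat_lit 2) (.cons (.rel (nat_lit 2214608904)) (.cons (.rel (nat_lit 2214608904)) (.cons (.rel (nat_lit 1140855300)) (.cons (.rel (nat_lit 1140867600)) .nil))))) (.cons (.br (nat_lit 2) (.cons (.rel (nat_lit 2214596640)) (.cons (.rel (nat_lit 2214659073)) (.cons (.rel (nat_lit 1140855300)) (.cons (.rel (nat_lit 2214659073)) .nil))))) .nil)))) (.node .leaf (nat_lit 15926817761601837) (.br (nat_lit 4) (.cons (.br (nat_lit 6) (.cons (.rel (nat_lit 18254139648)) (.cons (.rel (nat_lit 36507222336)) (.cons (.rel (nat_lit 18253611648)) (.cons (.rel (nat_lit 18254139648))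 .nil))))) .nil)) .leaf)) (nat_lit 15926817761602796) (.br (nat_lit 5) (.cons (.br (nat_lit 6) (.cons (.rel (nat_lit 21475098645)) .nil)) .nil)) (.node (.node (.node .leaf (nat_lit 15926817763348791) (.br (nat_lit 2) (.cons (.br (nat_lit 5) (.cons (.rel (nat_lit 8657059857)) .nil)) .nil)) .leaf) (nat_lit 15926817763349142) (.br (nat_lit 4) (.cons (.br (nat_lit 5) (.cons (.rel (nat_lit 5370806610)) .nil)) .nil)) .leaf) (nat_lit 15926817763394337) (.br (nat_lit 4) (.cons (.br (nat_lit 0) (.cons (.rel (nat_lit 1082132544)) (.cons (.rel (nat_lit 1082135568)) .nil))) .nil)) (.node .leaf (nat_lit 15927677487956750) (.br (nat_lit 0) (.cons (.br (nat_lit 1) (.cons (.rel (nat_lit 20993040)) .nil)) .nil)) .leaf)))))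

/-- refutations 132 -/
def e132 : EX := (.node (.node (.node (.node (.node (.node .leaf (nat_lit 15927904571822762) (.br (nat_lit 0) (.cons (.br (nat_lit 1) (.cons (.rel (nat_lit 20971668)) .nil)) .nil)) .leaf) (nat_lit 15928539807499022) (.br (nat_lit 0) (.cons (.br (nat_lit 4) (.cons (.rel (nat_lit 2151809028)) .nil)) .nil)) .leaf) (nat_lit 15928539807857422) (.br (nat_lit 0) (.cons (.br (nat_lit 1) (.cons (.rel (nat_lit 26476608)) .nil)) .nil)) (.node (.node .leaf (nat_lit 15928540226724622) (.br (nat_lit 2) (.cons (.br (nat_lit 5) (.cons (.rel (nat_lit 4362403920)) .nil)) .nil)) .leaf) (nat_lit 15928540226724722) (.br (nat_lit 0) (.cons (.br (nat_lit 1) (.cons (.rel (nat_lit 20992005)) .nil)) .nil)) .leaf)) (nat_lit 15928540229210894) (.br (nat_lit 0) (.cons (.br (nat_lit 1) (.cons (.rel (nat_lit 21038160)) .nil)) .nil)) (.node (.node (.node .leaf (nat_lit 15928542870448429) (.br (nat_lit 0) (.cons (.br (nat_lit 2) (.cons (.rel (nat_lit 75517953)) .nil)) .nil)) .leaf) (nat_lit 15928544928744684) (.br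 (nat_lit 0) (.cons (.br (nat_lit 2) (.cons (.rel (nat_lit 71632896)) (.cons (.rel (nat_lit 142606593)) .nil))) .nil)) .leaf) (nat_lit 15928753821861340) (.br (nat_lit 1) (.cons (.br (nat_lit 5) (.cons (.rel (nat_lit 4311744537)) .nil)) .nil)) (.node (.node .leaf (nat_lit 15928753822967989) (.br (nat_lit 2) (.cons (.br (nat_lit 5) (.cons (.rel (nat_lit 4362355776)) (.cons (.rel (nat_lit 4363125762)) .nil))) (.cons (.br (nat_lit 0) (.cons (.rel (nat_lit 71303682)) (.cons (.rel (nat_lit 71632896)) (.cons (.rel (nat_lit 71303682)) .nil)))) .nil))) .leaf) (nat_lit 15928753823375365) (.br (nat_lit 1) (.cons (.br (nat_lit 2) (.cons (.rel (nat_lit 83886180)) .nil)) .nil)) .leaf))) (nat_lit 15928754559782244) (.br (nat_lit 3) (.cons (.br (nat_lit 6) (.cons (.rel (nat_lit 17448636432)) .nil)) .nil)) (.node (.node (.node (.node .leaf (nat_lit 15928754560057525) (.br (nat_lit 3) (.cons (.br (nat_lit 5) (.cons (.rel (nat_lit 4563485184)) .nil)) .nil)) .leaf) (nat_lit 15928754560058844) (.br (nat_lit 3) (.cons (.br (nat_lit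 5) (.cons (.rel (nat_lit 8858501121)) (.cons (.rel (nat_lit 9126809874)) .nil))) (.cons (.br (nat_lit 4) (.cons (.rel (nat_lit 1342476288)) (.cons (.rel (nat_lit 1342476288)) .nil))) .nil))) .leaf) (nat_lit 15928754561165493) (.br (nat_lit 3) (.cons (.br (nat_lit 6) (.cons (.rel (nat_lit 34628173857)) (.cons (.rel (nat_lit 17449354260)) (.cons (.rel (nat_lit 34628173857)) .nil)))) .nil)) (.node (.node .leaf (nat_lit 15928754561572869) (.br (nat_lit 1) (.cons (.br (nat_lit 3) (.cons (.rel (nat_lit 285476097)) .nil)) .nil)) .leaf) (nat_lit 15928756444407989) (.br (nat_lit 0) (.cons (.br (nat_lit 1) (.cons (.rel (nat_lit 20980740)) (.cons (.rel (nat_lit 20971668)) .nil))) .nil)) .leaf)) (nat_lit 15928756571411189) (.br (nat_lit 5) (.cons (.br (nat_lit 6) (.cons (.rel (nat_lit 42949677312)) .nil)) .nil)) (.node (.node (.node .leaf (nat_lit 15928756578584737) (.br (nat_lit 0) (.cons (.br (nat_lit 1) (.cons (.rel (nat_lit 20980740)) .nil)) .nil)) .leaf) (nat_lit 15928756579799797) (.br (nat_lit 0) (.cons (.br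 (nat_lit 6) (.cons (.rel (nat_lit 34364065857)) .nil)) .nil)) .leaf) (nat_lit 15928756580373142) (.br (nat_lit 3) (.cons (.br (nat_lit 2) (.cons (.rel (nat_lit 336724992)) (.cons (.rel (nat_lit 335810568)) .nil))) .nil)) (.node .leaf (nat_lit 15928759609734505) (.br (nat_lit 3) (.cons (.br (nat_lit 4) (.cons (.rel (nat_lit 1342441473)) .nil)) .nil)) .leaf)))) (nat_lit 15928759610236265) (.br (nat_lit 0) (.cons (.br (nat_lit 2) (.cons (.rel (nat_lit 75579396)) .nil)) .nil)) (.node (.node (.node (.node (.node .leaf (nat_lit 15928760323032540) (.br (nat_lit 0) (.cons (.br (nat_lit 4) (.cons (.rel (nat_lit 1082195976)) .nil)) .nil)) .leaf) (nat_lit 15928760325313269) (.br (nat_lit 2) (.cons (.br (nat_lit 5) (.cons (.rel (nat_lit 4363255878)) .nil)) .nil)) .leaf) (nat_lit 15928874588804382) (.br (nat_lit 0) (.cons (.br (nat_lit 1) (.cons (.rel (nat_lit 20992005)) .nil)) .nil)) (.node (.node .leaf (nat_lit 15928874588813994) (.br (nat_lit 0) (.cons (.br (nat_lit 5) (.cons (.rel (nat_lit 8598325569)) .nil)) .nil))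 .leaf) (nat_lit 15928874819388652) (.br (nat_lit 3) (.cons (.br (nat_lit 5) (.cons (.rel (nat_lit 8858387520)) .nil)) .nil)) .leaf)) (nat_lit 15928874820249781) (.br (nat_lit 3) (.cons (.br (nat_lit 6) (.cons (.rel (nat_lit 17449369728)) .nil)) .nil)) (.node (.node (.node .leaf (nat_lit 15928875234176377) (.br (nat_lit 5) (.cons (.br (nat_lit 0) (.cons (.rel (nat_lit 4299231744)) (.cons (.rel (nat_lit 4299231744)) .nil))) .nil)) .leaf) (nat_lit 15928875234224908) (.br (nat_lit 0) (.cons (.br (nat_lit 1) (.cons (.rel (nat_lit 23332932)) .nil)) .nil)) .leaf) (nat_lit 15928875234667777) (.br (nat_lit 1) (.cons (.br (nat_lit 2) (.cons (.rel (nat_lit 153093120)) (.cons (.rel (nat_lit 83904528)) (.cons (.rel (nat_lit 101713920)) .nil)))) .nil)) (.node .leaf (nat_lit 15928875235391623) (.br (nat_lit 3) (.cons (.br (nat_lit 5) (.cons (.rel (nat_lit 4563697728)) .nil)) .nil)) .leaf))) (nat_lit 15928875235485877) (.br (nat_lit 5) (.cons (.br (nat_lit 3) (.cons (.rel (nat_lit 4563664902)) (.cons (.rel (nat_lit 4563485184))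 (.cons (.rel (nat_lit 8859484416)) (.cons (.rel (nat_lit 4563423753)) .nil))))) .nil)) (.node (.node (.node (.node .leaf (nat_lit 15928875235486977) (.br (nat_lit 1) (.cons (.br (nat_lit 5) (.cons (.rel (nat_lit 4313382912)) .nil)) .nil)) .leaf) (nat_lit 15928875236713228) (.br (nat_lit 1) (.cons (.br (nat_lit 4) (.cons (.rel (nat_lit 1090521108)) (.cons (.rel (nat_lit 1090521108)) .nil))) .nil)) .leaf) (nat_lit 15928875236785628) (.br (nat_lit 3) (.cons (.br (nat_lit 5) (.cons (.rel (nat_lit 4563800064)) .nil)) .nil)) (.node (.node .leaf (nat_lit 15928875237225849) (.br (nat_lit 1) (.cons (.br (nat_lit 5) (.cons (.rel (nat_lit 4311748740)) .nil)) .nil)) .leaf) (nat_lit 15928875237236123) (.br (nat_lit 3) (.cons (.br (nat_lit 5) (.cons (.rel (nat_lit 8858387520)) .nil)) .nil)) .leaf)) (nat_lit 15928875237245104) (.br (nat_lit 0) (.cons (.br (nat_lit 1) (.cons (.rel (nat_lit 25170192)) .nil)) .nil)) (.node (.node (.node .leaf (nat_lit 15928876703492277) (.br (nat_lit 0) (.cons (.br (nat_lit 3) (.cons (.rel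 (nat_lit 273711168)) .nil)) .nil)) .leaf) (nat_lit 15928876837710005) (.br (nat_lit 0) (.cons (.br (nat_lit 3) (.cons (.rel (nat_lit 273022992)) .nil)) .nil)) .leaf) (nat_lit 15928876916295132) (.br (nat_lit 0) (.cons (.br (nat_lit 5) (.cons (.rel (nat_lit 4300228608)) .nil)) .nil)) (.node .leaf (nat_lit 15928877419611612) (.br (nat_lit 3) (.cons (.br (nat_lit 4) (.cons (.rel (nat_lit 1342439448)) (.cons (.rel (nat_lit 2684420352)) .nil))) .nil)) .leaf)))))

/-- refutations 133 -/
def e133 : EX := (.node (.node (.node (.node (.node .leaf (nat_lit 15931881711282456) (.br (nat_lit 1) (.cons (.br (nat_lit 3) (.cons (.rel (nat_lit 285212808)) .nil)) .nil)) .leaf) (nat_lit 15931881712490772) (.br (nat_lit 0) (.cons (.br (nat_lit 1) (.cons (.rel (nat_lit 20971668)) .nil)) .nil)) (.node .leaf (nat_lit 15931881712593077) (.br (nat_lit 2) (.cons (.br (nat_lit 5) (.cons (.br (nat_lit 6) (.cons (.rel (nat_lit 38654705730)) .nil)) .nil)) .nil)) .leaf)) (nat_lit 15931881816344028) (.br (nat_lit 1) (.cons (.br (nat_lit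 6) (.cons (.rel (nat_lit 34393293888)) (.cons (.rel (nat_lit 17196679188)) .nil))) .nil)) (.node (.node .leaf (nat_lit 15932098141767132) (.br (nat_lit 0) (.cons (.br (nat_lit 3) (.cons (.rel (nat_lit 272974848)) .nil)) .nil)) .leaf) (nat_lit 15933006580536796) (.br (nat_lit 5) (.cons (.br (nat_lit 6) (.cons (.rel (nat_lit 21475098645)) .nil)) .nil)) .leaf)) (nat_lit 15933011103059420) (.br (nat_lit 2) (.cons (.br (nat_lit 4) (.cons (.rel (nat_lit 1207992324)) .nil)) .nil)) (.node (.node (.node .leaf (nat_lit 15933011103335660) (.br (nat_lit 3) (.cons (.br (nat_lit 6) (.cons (.rel (nat_lit 34628259840)) .nil)) .nil)) .leaf) (nat_lit 15933011106189493) (.br (nat_lit 0) (.cons (.br (nat_lit 4) (.cons (.rel (nat_lit 1078222848)) .nil)) .nil)) (.node .leaf (nat_lit 15934037369556324) (.br (nat_lit 0) (.cons (.br (nat_lit 4) (.cons (.rel (nat_lit 1078198308)) .nil)) .nil)) .leaf)) (nat_lit 15934037369831725) (.br (nat_lit 3) (.cons (.br (nat_lit 4) (.cons (.rel (nat_lit 2684420352)) .nil)) .nil)) (.node (.node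 .leaf (nat_lit 15934037369832086) (.br (nat_lit 3) (.cons (.br (nat_lit 4) (.cons (.rel (nat_lit 1610613825)) .nil)) .nil)) .leaf) (nat_lit 15934037369832206) (.br (nat_lit 5) (.cons (.br (nat_lit 2) (.cons (.rel (nat_lit 8657059857)) (.cons (.rel (nat_lit 4429316100)) .nil))) .nil)) .leaf))) (nat_lit 15934037369832684) (.br (nat_lit 0) (.cons (.br (nat_lit 4) (.cons (.rel (nat_lit 1079001120)) .nil)) .nil)) (.node (.node (.node (.node .leaf (nat_lit 15934037369832924) (.br (nat_lit 4) (.cons (.br (nat_lit 2) (.cons (.rel (nat_lit 2214659073)) (.cons (.rel (nat_lit 2214593616)) .nil))) .nil)) .leaf) (nat_lit 15934037370077846) (.br (nat_lit 0) (.cons (.br (nat_lit 4) (.cons (.rel (nat_lit 1078526208)) (.cons (.rel (nat_lit 1079001120)) .nil))) .nil)) (.node .leaf (nat_lit 15934037370939573) (.br (nat_lit 2) (.cons (.br (nat_lit 4) (.cons (.rel (nat_lit 2214596640)) (.cons (.rel (nat_lit 1141134336)) .nil))) (.cons (.br (nat_lit 4) (.cons (.rel (nat_lit 1141901346)) (.cons (.rel (nat_lit 1207964736)) .nil)))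 .nil))) .leaf)) (nat_lit 15934037370940174) (.br (nat_lit 0) (.cons (.br (nat_lit 2) (.cons (.rel (nat_lit 71303682)) .nil)) .nil)) (.node (.node .leaf (nat_lit 15934037370940652) (.br (nat_lit 2) (.cons (.br (nat_lit 3) (.cons (.rel (nat_lit 335806545)) .nil)) .nil)) .leaf) (nat_lit 15934037372686998) (.br (nat_lit 3) (.cons (.br (nat_lit 5) (.cons (.rel (nat_lit 8858387520)) .nil)) .nil)) .leaf)) (nat_lit 15934041874750940) (.br (nat_lit 4) (.cons (.br (nat_lit 5) (.cons (.rel (nat_lit 6442598400)) .nil)) .nil)) (.node (.node (.node .leaf (nat_lit 15934041895210460) (.br (nat_lit 2) (.cons (.br (nat_lit 6) (.cons (.rel (nat_lit 17314104324)) .nil)) .nil)) .leaf) (nat_lit 15934041895486700) (.br (nat_lit 4) (.cons (.br (nat_lit 6) (.cons (.rel (nat_lit 35433498624)) .nil)) .nil)) (.node .leaf (nat_lit 15934041895486940) (.br (nat_lit 3) (.cons (.br (nat_lit 6) (.cons (.rel (nat_lit 34628173857)) .nil)) .nil)) .leaf)) (nat_lit 15934041896593589) (.br (nat_lit 4) (.cons (.br (nat_lit 6) (.cons (.rel (nat_lit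 36507222336)) .nil)) .nil)) (.node (.node .leaf (nat_lit 15934041896594668) (.br (nat_lit 0) (.cons (.br (nat_lit 4) (.cons (.rel (nat_lit 1078199298)) .nil)) .nil)) .leaf) (nat_lit 15934041896594788) (.br (nat_lit 0) (.cons (.br (nat_lit 2) (.cons (.rel (nat_lit 71569428)) .nil)) .nil)) .leaf))))

/-- refutations 134 -/
def e134 : EX := (.node (.node .leaf (nat_lit 15576612159967494) (.br (nat_lit 0) (.cons (.br (nat_lit 3) (.cons (.rel (nat_lit 273679377)) .nil)) .nil)) .leaf) (nat_lit 15576612830024935) (.br (nat_lit 0) (.cons (.br (nat_lit 5) (.cons (.rel (nat_lit 4299425796)) .nil)) .nil)) .leaf)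

/-- refutations 135 -/
def e135 : EX := (.node (.node .leaf (nat_lit 16009384715089372) (.br (nat_lit 1) (.cons (.br (nat_lit 6) (.cons (.rel (nat_lit 17196648576)) .nil)) .nil)) .leaf) (nat_lit 16010278834516605) (.br (nat_lit 0) (.cons (.br (nat_lit 1) (.cons (.rel (nat_lit 21004305)) .nil)) .nil)) (.node .leaf (nat_lit 16014263881823609) (.br (nat_lit 1) (.cons (.br (nat_lit 3) (.cons (.rel (nat_lit 570491904)) .nil)) .nil)) .leaf))

/-- refutations 136 -/
def e136 : EX := (.node (.node (.node .leaf (nat_lit 16362299015368156) (.br (nat_lit 1) (.cons (.br (nat_lit 4) (.cons (.rel (nat_lit 1090520073)) .nil)) .nil)) .leaf) (nat_lit 16366190514342575) (.br (nat_lit 1) (.cons (.br (nat_lit 2) (.cons (.rel (nat_lit 83886180)) .nil)) .nil)) .leaf) (nat_lit 16366193020788867) (.br (nat_lit 0) (.cons (.br (nat_lit 1) (.cons (.rel (nat_lit 20971668)) .nil)) .nil)) (.node (.node .leaf (nat_lit 16367221304038661) (.br (nat_lit 0) (.cons (.br (nat_lit 1) (.cons (.rel (nat_lit 20975682)) .nil)) .nil)) .leaf) (nat_lit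 16368344774187164) (.br (nat_lit 0) (.cons (.br (nat_lit 2) (.cons (.rel (nat_lit 71569428)) .nil)) .nil)) .leaf))

/-- refutations 137 -/
def e137 : EX := (.node (.node (.node (.node .leaf (nat_lit 16371531848681773) (.br (nat_lit 0) (.cons (.br (nat_lit 1) (.cons (.rel (nat_lit 21038160)) .nil)) .nil)) .leaf) (nat_lit 16371531848682972) (.br (nat_lit 0) (.cons (.br (nat_lit 3) (.cons (.rel (nat_lit 273679377)) .nil)) .nil)) .leaf) (nat_lit 16371686467504429) (.br (nat_lit 0) (.cons (.br (nat_lit 1) (.cons (.rel (nat_lit 20971668)) .nil)) .nil)) (.node .leaf (nat_lit 16371686467505628) (.br (nat_lit 4) (.cons (.br (nat_lit 2) (.cons (.rel (nat_lit 2216951808)) (.cons (.rel (nat_lit 1141145601)) .nil))) .nil)) .leaf)) (nat_lit 16371686468509827) (.br (nat_lit 1) (.cons (.br (nat_lit 2) (.cons (.rel (nat_lit 84049920)) .nil)) .nil)) (.node (.node (.node .leaf (nat_lit 16371901215870428) (.br (nat_lit 0) (.cons (.br (nat_lit 2) (.cons (.rel (nat_lit 71303682)) .nil)) .nil)) .leaf) (nat_lit 16371901216874627)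 (.br (nat_lit 0) (.cons (.br (nat_lit 1) (.cons (.rel (nat_lit 20975682)) .nil)) .nil)) .leaf) (nat_lit 16373842524310814) (.br (nat_lit 0) (.cons (.br (nat_lit 5) (.cons (.rel (nat_lit 4303360032)) .nil)) .nil)) (.node .leaf (nat_lit 16374151778733532) (.br (nat_lit 1) (.cons (.br (nat_lit 6) (.cons (.rel (nat_lit 34393296912)) .nil)) .nil)) .leaf)))

/-- refutations 138 -/
def e138 : EX := (.node (.node (.node (.node (.node .leaf (nat_lit 16291654076263161) (.br (nat_lit 0) (.cons (.br (nat_lit 2) (.cons (.rel (nat_lit 72482817)) .nil)) .nil)) .leaf) (nat_lit 16296820779314652) (.br (nat_lit 0) (.cons (.br (nat_lit 1) (.cons (.rel (nat_lit 20971668)) .nil)) .nil)) .leaf) (nat_lit 16298370117400090) (.br (nat_lit 2) (.cons (.br (nat_lit 3) (.cons (.rel (nat_lit 604049412)) .nil)) .nil)) (.node .leaf (nat_lit 16298370117463516) (.br (nat_lit 2) (.cons (.br (nat_lit 5) (.cons (.rel (nat_lit 4362469377)) (.cons (.rel (nat_lit 4362346500)) (.cons (.rel (nat_lit 4363125762)) .nil)))) .nil)) .leaf)) (nat_lit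 16298370120266365) (.br (nat_lit 0) (.cons (.br (nat_lit 1) (.cons (.rel (nat_lit 21103617)) .nil)) .nil)) (.node (.node .leaf (nat_lit 16298370838883804) (.br (nat_lit 0) (.cons (.br (nat_lit 3) (.cons (.rel (nat_lit 273679377)) .nil)) .nil)) .leaf) (nat_lit 16298371166039516) (.br (nat_lit 2) (.cons (.br (nat_lit 3) (.cons (.rel (nat_lit 402671616)) (.cons (.rel (nat_lit 336724992)) .nil))) (.cons (.br (nat_lit 3) (.cons (.rel (nat_lit 335872002)) (.cons (.rel (nat_lit 335872002)) .nil))) .nil))) (.node .leaf (nat_lit 16298371404905849) (.br (nat_lit 0) (.cons (.br (nat_lit 2) (.cons (.rel (nat_lit 75563073)) .nil)) .nil)) .leaf))) (nat_lit 16298373875240349) (.br (nat_lit 0) (.cons (.br (nat_lit 1) (.cons (.rel (nat_lit 20980740)) .nil)) .nil)) (.node (.node (.node (.node .leaf (nat_lit 16298375368732124) (.br (nat_lit 3) (.cons (.br (nat_lit 4) (.cons (.rel (nat_lit 1342308864)) .nil)) .nil)) .leaf) (nat_lit 16298375989489116) (.br (nat_lit 3) (.cons (.br (nat_lit 0) (.cons (.rel (nat_lit 273679377))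 (.cons (.rel (nat_lit 273679377)) (.cons (.rel (nat_lit 272634369)) .nil)))) (.cons (.br (nat_lit 0) (.cons (.rel (nat_lit 272695812)) (.cons (.rel (nat_lit 272695812)) (.cons (.rel (nat_lit 273678342)) .nil)))) .nil))) .leaf) (nat_lit 16298375992289916) (.br (nat_lit 2) (.cons (.br (nat_lit 4) (.cons (.rel (nat_lit 2214659073)) .nil)) .nil)) (.node .leaf (nat_lit 16301197493595612) (.br (nat_lit 2) (.cons (.br (nat_lit 6) (.cons (.rel (nat_lit 17247257601)) .nil)) .nil)) .leaf)) (nat_lit 16302442987972735) (.br (nat_lit 0) (.cons (.br (nat_lit 4) (.cons (.rel (nat_lit 1082146833)) .nil)) .nil)) (.node (.node .leaf (nat_lit 16302442987973888) (.br (nat_lit 0) (.cons (.br (nat_lit 4) (.cons (.rel (nat_lit 1078222848)) .nil)) .nil)) .leaf) (nat_lit 16302442987974108) (.br (nat_lit 4) (.cons (.br (nat_lit 6) (.cons (.rel (nat_lit 18254676993)) .nil)) .nil)) (.node .leaf (nat_lit 16302444914221358) (.br (nat_lit 1) (.cons (.br (nat_lit 2) (.cons (.rel (nat_lit 83892228)) .nil)) .nil)) .leaf))))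

/-- refutations 139 -/
def e139 : EX := (.node (.node .leaf (nat_lit 16386099652338951) (.br (nat_lit 0) (.cons (.br (nat_lit 1) (.cons (.rel (nat_lit 20990016)) .nil)) .nil)) .leaf) (nat_lit 16386099654472492) (.br (nat_lit 0) (.cons (.br (nat_lit 1) (.cons (.rel (nat_lit 20980740)) .nil)) .nil)) (.node .leaf (nat_lit 16386104367743238) (.br (nat_lit 2) (.cons (.br (nat_lit 3) (.cons (.rel (nat_lit 335806545)) .nil)) .nil)) .leaf))

/-- refutations 141 -/
def e141 : EX := (.node (.node (.node (.node .leaf (nat_lit 21990235282457457) (.br (nat_lit 0) (.cons (.br (nat_lit 2) (.cons (.rel (nat_lit 144703569)) .nil)) .nil)) .leaf) (nat_lit 21995606722834443) (.br (nat_lit 0) (.cons (.br (nat_lit 2) (.cons (.rel (nat_lit 71303682)) .nil)) .nil)) .leaf) (nat_lit 21995606723337692) (.br (nat_lit 0) (.cons (.br (nat_lit 2) (.cons (.rel (nat_lit 142606593)) .nil)) .nil)) (.node (.node .leaf (nat_lit 21996116913013617) (.br (nat_lit 0) (.cons (.br (nat_lit 3) (.cons (.rel (nat_lit 541067265)) (.cons (.rel (nat_lit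 272974848)) .nil))) .nil)) .leaf) (nat_lit 21996116914278460) (.br (nat_lit 0) (.cons (.br (nat_lit 3) (.cons (.rel (nat_lit 273711168)) .nil)) .nil)) .leaf)) (nat_lit 21996116914281948) (.br (nat_lit 0) (.cons (.br (nat_lit 2) (.cons (.rel (nat_lit 72482817)) (.cons (.rel (nat_lit 71303682)) .nil))) (.cons (.br (nat_lit 6) (.cons (.rel (nat_lit 17188257798)) (.cons (.rel (nat_lit 34363932681)) .nil))) .nil))) (.node (.node (.node .leaf (nat_lit 21996116915499889) (.br (nat_lit 0) (.cons (.br (nat_lit 6) (.cons (.rel (nat_lit 17184325776)) (.cons (.rel (nat_lit 17188290624)) .nil))) .nil)) .leaf) (nat_lit 21996945195152860) (.br (nat_lit 1) (.cons (.br (nat_lit 3) (.cons (.rel (nat_lit 285294624)) .nil)) .nil)) .leaf) (nat_lit 21996978278434170) (.br (nat_lit 0) (.cons (.br (nat_lit 1) (.cons (.rel (nat_lit 38896704)) .nil)) .nil)) (.node .leaf (nat_lit 21996981673640617) (.br (nat_lit 0) (.cons (.br (nat_lit 3) (.cons (.rel (nat_lit 276825090)) .nil)) .nil)) .leaf)))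

/-- refutations 142 -/
def e142 : EX := (.node (.node (.node (.node (.node .leaf (nat_lit 22001021522125610) (.br (nat_lit 1) (.cons (.br (nat_lit 6) (.cons (.rel (nat_lit 17196647589)) .nil)) .nil)) .leaf) (nat_lit 22001021523664348) (.br (nat_lit 1) (.cons (.br (nat_lit 2) (.cons (.rel (nat_lit 83887170)) (.cons (.rel (nat_lit 83952672)) .nil))) .nil)) (.node .leaf (nat_lit 22001021534978929) (.br (nat_lit 0) (.cons (.br (nat_lit 3) (.cons (.rel (nat_lit 272924682)) .nil)) .nil)) .leaf)) (nat_lit 22001021536247260) (.br (nat_lit 0) (.cons (.br (nat_lit 1) (.cons (.rel (nat_lit 20971668)) .nil)) .nil)) (.node (.node .leaf (nat_lit 22001021537259655) (.br (nat_lit 0) (.cons (.br (nat_lit 3) (.cons (.rel (nat_lit 542180676)) .nil)) .nil)) .leaf) (nat_lit 22001021765038730) (.br (nat_lit 3) (.cons (.br (nat_lit 5) (.cons (.rel (nat_lit 8858501121)) .nil)) .nil)) (.node .leaf (nat_lit 22001021766679904) (.br (nat_lit 0) (.cons (.br (nat_lit 3) (.cons (.rel (nat_lit 541102080)) (.cons (.rel (nat_lit 272974848))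 .nil))) (.cons (.br (nat_lit 3) (.cons (.rel (nat_lit 541147200)) (.cons (.rel (nat_lit 272974848)) .nil))) .nil))) .leaf))) (nat_lit 22001021766931934) (.br (nat_lit 2) (.cons (.br (nat_lit 3) (.cons (.rel (nat_lit 335841408)) .nil)) .nil)) (.node (.node (.node .leaf (nat_lit 22001021766933980) (.br (nat_lit 3) (.cons (.br (nat_lit 1) (.cons (.rel (nat_lit 570491904)) (.cons (.rel (nat_lit 285220881)) (.cons (.rel (nat_lit 302288913)) .nil)))) (.cons (.br (nat_lit 4) (.cons (.rel (nat_lit 1610616849)) (.cons (.rel (nat_lit 1342441473)) (.cons (.rel (nat_lit 1342439448)) (.cons (.rel (nat_lit 1342476288)) .nil))))) .nil))) .leaf) (nat_lit 22001021767905455) (.br (nat_lit 1) (.cons (.br (nat_lit 4) (.cons (.rel (nat_lit 2181038097)) .nil)) .nil)) (.node .leaf (nat_lit 22001022584823260) (.br (nat_lit 0) (.cons (.br (nat_lit 1) (.cons (.rel (nat_lit 38011920)) .nil)) .nil)) .leaf)) (nat_lit 22001024161881564) (.br (nat_lit 1) (.cons (.br (nat_lit 5) (.cons (.rel (nat_lit 8623490049)) (.cons (.rel (nat_lit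 4311744537)) (.cons (.rel (nat_lit 4311745572)) .nil)))) .nil)) (.node (.node .leaf (nat_lit 22001024240180110) (.br (nat_lit 6) (.cons (.br (nat_lit 1) (.cons (.rel (nat_lit 17196648576)) (.cons (.rel (nat_lit 17196651600)) .nil))) .nil)) .leaf) (nat_lit 22001024240305009) (.br (nat_lit 0) (.cons (.br (nat_lit 1) (.cons (.rel (nat_lit 20992005)) .nil)) .nil)) (.node .leaf (nat_lit 22001024241563156) (.br (nat_lit 1) (.cons (.br (nat_lit 2) (.cons (.rel (nat_lit 83887170)) .nil)) .nil)) .leaf)))) (nat_lit 22001024241573340) (.br (nat_lit 3) (.cons (.br (nat_lit 5) (.cons (.rel (nat_lit 8858411073)) .nil)) .nil)) (.node (.node (.node (.node .leaf (nat_lit 22001024242227235) (.br (nat_lit 2) (.cons (.br (nat_lit 3) (.cons (.rel (nat_lit 336724992)) .nil)) .nil)) .leaf) (nat_lit 22001024242331659) (.br (nat_lit 3) (.cons (.br (nat_lit 2) (.cons (.rel (nat_lit 403702020)) (.cons (.rel (nat_lit 335872002)) .nil))) .nil)) (.node .leaf (nat_lit 22001025414083210) (.br (nat_lit 1) (.cons (.br (nat_lit 4) (.cons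 (.rel (nat_lit 2165572608)) .nil)) .nil)) .leaf)) (nat_lit 22001025415978460) (.br (nat_lit 0) (.cons (.br (nat_lit 1) (.cons (.rel (nat_lit 20990016)) (.cons (.rel (nat_lit 20990016)) .nil))) .nil)) (.node (.node .leaf (nat_lit 22001025416736779) (.br (nat_lit 0) (.cons (.br (nat_lit 3) (.cons (.rel (nat_lit 272634369)) .nil)) .nil)) .leaf) (nat_lit 22001025416896664) (.br (nat_lit 0) (.cons (.br (nat_lit 1) (.cons (.rel (nat_lit 41945169)) .nil)) .nil)) (.node .leaf (nat_lit 22001026972065244) (.br (nat_lit 4) (.cons (.br (nat_lit 2) (.cons (.rel (nat_lit 1207992324)) (.cons (.rel (nat_lit 1141899273)) .nil))) .nil)) .leaf))) (nat_lit 22001026973253913) (.br (nat_lit 0) (.cons (.br (nat_lit 3) (.cons (.rel (nat_lit 272695812)) .nil)) .nil)) (.node (.node (.node .leaf (nat_lit 22001027932560860) (.br (nat_lit 1) (.cons (.br (nat_lit 2) (.cons (.rel (nat_lit 83903493)) .nil)) .nil)) .leaf) (nat_lit 22001027953532380) (.br (nat_lit 2) (.cons (.br (nat_lit 4) (.cons (.rel (nat_lit 1207992324)) .nil)) .nil))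 (.node .leaf (nat_lit 22001027954750321) (.br (nat_lit 1) (.cons (.br (nat_lit 2) (.cons (.rel (nat_lit 83886180)) .nil)) .nil)) .leaf)) (nat_lit 22001239092963984) (.br (nat_lit 4) (.cons (.br (nat_lit 5) (.cons (.rel (nat_lit 6442453008)) .nil)) .nil)) (.node (.node .leaf (nat_lit 22001241653320336) (.br (nat_lit 0) (.cons (.br (nat_lit 1) (.cons (.rel (nat_lit 25167168)) .nil)) .nil)) .leaf) (nat_lit 22002129869714289) (.br (nat_lit 0) (.cons (.br (nat_lit 2) (.cons (.rel (nat_lit 71632896)) .nil)) .nil)) (.node .leaf (nat_lit 22002136056283417) (.br (nat_lit 0) (.cons (.br (nat_lit 3) (.cons (.rel (nat_lit 273679377)) .nil)) .nil)) .leaf)))))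

/-- refutations 143 -/
def e143 : EX := (.node (.node (.node (.node (.node (.node .leaf (nat_lit 22007845327579948) (.br (nat_lit 0) (.cons (.br (nat_lit 2) (.cons (.rel (nat_lit 72359940)) .nil)) .nil)) .leaf) (nat_lit 22008087812508550) (.br (nat_lit 4) (.cons (.br (nat_lit 0) (.cons (.rel (nat_lit 1079001120)) (.cons (.rel (nat_lit 1078988820)) .nil))) .nil)) .leaf) (nat_lit 22008958868785814) (.br (nat_lit 0) (.cons (.br (nat_lit 5) (.cons (.rel (nat_lit 4303372296)) .nil)) .nil)) (.node .leaf (nat_lit 22008958870691901) (.br (nat_lit 5) (.cons (.br (nat_lit 0) (.cons (.rel (nat_lit 4299489408)) (.cons (.rel (nat_lit 4299231744)) .nil))) .nil)) .leaf)) (nat_lit 22008958870693340) (.br (nat_lit 5) (.cons (.br (nat_lit 3) (.cons (.rel (nat_lit 4563485184)) (.cons (.rel (nat_lit 8858387520)) .nil))) .nil)) (.node (.node .leaf (nat_lit 22008962396194877) (.br (nat_lit 4) (.cons (.br (nat_lit 5) (.cons (.rel (nat_lit 6442459200)) .nil)) .nil)) .leaf) (nat_lit 22008962398103004) (.br (nat_lit 3) (.cons (.br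 (nat_lit 4) (.cons (.rel (nat_lit 1342441473)) .nil)) .nil)) (.node .leaf (nat_lit 22008964402980316) (.br (nat_lit 4) (.cons (.br (nat_lit 5) (.cons (.rel (nat_lit 9663676437)) .nil)) .nil)) .leaf))) (nat_lit 22008964403957821) (.br (nat_lit 3) (.cons (.br (nat_lit 4) (.cons (.rel (nat_lit 1343225937)) .nil)) .nil)) (.node (.node (.node (.node .leaf (nat_lit 22008964403957941) (.br (nat_lit 3) (.cons (.br (nat_lit 4) (.cons (.rel (nat_lit 1343225937)) .nil)) .nil)) .leaf) (nat_lit 22008964403959140) (.br (nat_lit 4) (.cons (.br (nat_lit 5) (.cons (.rel (nat_lit 9663676437)) .nil)) .nil)) .leaf) (nat_lit 22009115860073948) (.br (nat_lit 0) (.cons (.br (nat_lit 5) (.cons (.rel (nat_lit 4300228608)) .nil)) .nil)) (.node .leaf (nat_lit 22009127705226618) (.br (nat_lit 0) (.cons (.br (nat_lit 2) (.cons (.rel (nat_lit 71451156)) .nil)) .nil)) .leaf)) (nat_lit 22009989660937094) (.br (nat_lit 4) (.cons (.br (nat_lit 5) (.cons (.rel (nat_lit 5369038848)) .nil)) .nil)) (.node (.node .leaf (nat_lit 22009993188345917)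 (.br (nat_lit 3) (.cons (.br (nat_lit 5) (.cons (.rel (nat_lit 8858378244)) (.cons (.rel (nat_lit 8858501121)) .nil))) .nil)) .leaf) (nat_lit 22009993188346758) (.br (nat_lit 4) (.cons (.br (nat_lit 5) (.cons (.rel (nat_lit 5369778192)) .nil)) .nil)) (.node .leaf (nat_lit 22009993188347236) (.br (nat_lit 3) (.cons (.br (nat_lit 5) (.cons (.rel (nat_lit 4563664902)) .nil)) .nil)) .leaf)))) (nat_lit 22009993188347356) (.br (nat_lit 3) (.cons (.br (nat_lit 4) (.cons (.rel (nat_lit 1342441473)) .nil)) .nil)) (.node (.node (.node (.node (.node .leaf (nat_lit 22009993190252605) (.br (nat_lit 0) (.cons (.br (nat_lit 3) (.cons (.rel (nat_lit 541065240)) (.cons (.rel (nat_lit 272908356)) .nil))) (.cons (.br (nat_lit 1) (.cons (.rel (nat_lit 20971668)) (.cons (.rel (nat_lit 21004305)) .nil))) .nil))) .leaf) (nat_lit 22009993191232988) (.br (nat_lit 0) (.cons (.br (nat_lit 6) (.cons (.rel (nat_lit 17184325776)) (.cons (.rel (nat_lit 17188257798)) (.cons (.rel (nat_lit 34363949184)) .nil)))) .nil)) .leaf) (nat_lit 22009995196110180)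 (.br (nat_lit 3) (.cons (.br (nat_lit 4) (.cons (.rel (nat_lit 1343229960)) .nil)) .nil)) (.node .leaf (nat_lit 22009995196110300) (.br (nat_lit 5) (.cons (.br (nat_lit 3) (.cons (.rel (nat_lit 4564467714)) (.cons (.rel (nat_lit 4563697728)) .nil))) .nil)) .leaf)) (nat_lit 22013709102717830) (.br (nat_lit 0) (.cons (.br (nat_lit 4) (.cons (.rel (nat_lit 1078222848)) .nil)) .nil)) (.node (.node .leaf (nat_lit 22013709104203837) (.br (nat_lit 0) (.cons (.br (nat_lit 3) (.cons (.rel (nat_lit 272634369)) .nil)) .nil)) .leaf) (nat_lit 22013709104522118) (.br (nat_lit 4) (.cons (.br (nat_lit 5) (.cons (.rel (nat_lit 5369038848)) .nil)) .nil)) (.node .leaf (nat_lit 22013709104522716) (.br (nat_lit 0) (.cons (.br (nat_lit 3) (.cons (.rel (nat_lit 545329413)) (.cons (.rel (nat_lit 276825090)) .nil))) (.cons (.br (nat_lit 4) (.cons (.rel (nat_lit 1079052288)) (.cons (.rel (nat_lit 1082134533)) .nil))) .nil))) .leaf))) (nat_lit 22013709105500341) (.br (nat_lit 3) (.cons (.br (nat_lit 5) (.cons (.rel (nat_lit 9126806850))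 .nil)) .nil)) (.node (.node (.node .leaf (nat_lit 22013709105501540) (.br (nat_lit 3) (.cons (.br (nat_lit 4) (.cons (.rel (nat_lit 1343229960)) .nil)) .nil)) .leaf) (nat_lit 22013712206400390) (.br (nat_lit 0) (.cons (.br (nat_lit 1) (.cons (.rel (nat_lit 20980740)) .nil)) .nil)) (.node .leaf (nat_lit 22013712632910005) (.br (nat_lit 0) (.cons (.br (nat_lit 6) (.cons (.rel (nat_lit 34363932681)) (.cons (.rel (nat_lit 17188257798)) .nil))) .nil)) .leaf)) (nat_lit 22013712632911324) (.br (nat_lit 3) (.cons (.br (nat_lit 4) (.cons (.rel (nat_lit 2415923268)) .nil)) .nil)) (.node (.node .leaf (nat_lit 22013714634902406) (.br (nat_lit 4) (.cons (.br (nat_lit 0) (.cons (.rel (nat_lit 2151809028)) (.cons (.rel (nat_lit 1078198308)) .nil))) .nil)) .leaf) (nat_lit 22013714637787317) (.br (nat_lit 3) (.cons (.br (nat_lit 4) (.cons (.rel (nat_lit 2415989760)) .nil)) .nil)) (.node .leaf (nat_lit 22013714637787798) (.br (nat_lit 0) (.cons (.br (nat_lit 4) (.cons (.rel (nat_lit 1082132544)) .nil)) .nil)) .leaf)))))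

/-- refutations 144 -/
def e144 : EX := (.node (.node (.node (.node (.node .leaf (nat_lit 22015598890131517) (.br (nat_lit 4) (.cons (.br (nat_lit 5) (.cons (.rel (nat_lit 10737418497)) .nil)) .nil)) .leaf) (nat_lit 22015770688823357) (.br (nat_lit 5) (.cons (.br (nat_lit 6) (.cons (.rel (nat_lit 21475102848)) .nil)) .nil)) (.node .leaf (nat_lit 22015776219204486) (.br (nat_lit 4) (.cons (.br (nat_lit 0) (.cons (.rel (nat_lit 1082195976)) (.cons (.rel (nat_lit 2151809028)) .nil))) .nil)) .leaf)) (nat_lit 22018624916838411) (.br (nat_lit 2) (.cons (.br (nat_lit 0) (.cons (.rel (nat_lit 138477585)) (.cons (.rel (nat_lit 142606593)) .nil))) .nil)) (.node (.node .leaf (nat_lit 22018624917644764) (.br (nat_lit 0) (.cons (.br (nat_lit 2) (.cons (.rel (nat_lit 71566404)) .nil)) .nil)) .leaf) (nat_lit 22018624917665799) (.br (nat_lit 3) (.cons (.br (nat_lit 0) (.cons (.rel (nat_lit 272908356)) (.cons (.rel (nat_lit 272908356)) .nil))) .nil)) (.node .leaf (nat_lit 22018624918054364) (.br (nat_lit 0) (.cons (.br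 (nat_lit 3) (.cons (.rel (nat_lit 272892033)) .nil)) .nil)) .leaf))) (nat_lit 22018624918157574) (.br (nat_lit 2) (.cons (.br (nat_lit 4) (.cons (.rel (nat_lit 1141899273)) .nil)) .nil)) (.node (.node (.node .leaf (nat_lit 22018624933668316) (.br (nat_lit 2) (.cons (.br (nat_lit 4) (.cons (.br (nat_lit 6) (.cons (.rel (nat_lit 17246978565)) (.cons (.rel (nat_lit 17247246336)) (.cons (.rel (nat_lit 35433484290)) (.cons (.rel (nat_lit 34426917888)) (.cons (.rel (nat_lit 17314091025)) .nil)))))) (.cons (.rel (nat_lit 1207992324)) (.cons (.rel (nat_lit 2214608904)) .nil)))) (.cons (.br (nat_lit 5) (.cons (.br (nat_lit 0) (.cons (.rel (nat_lit 4299423762)) (.cons (.rel (nat_lit 4299444288)) (.cons (.rel (nat_lit 72482817)) (.cons (.rel (nat_lit 4299425796)) .nil))))) (.cons (.rel (nat_lit 4362469377)) .nil))) .nil))) .leaf) (nat_lit 22018624934934790) (.br (nat_lit 3) (.cons (.br (nat_lit 4) (.cons (.rel (nat_lit 2684420352)) .nil)) .nil)) (.node .leaf (nat_lit 22018625173393444) (.br (nat_lit 3) (.cons (.br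 (nat_lit 5) (.cons (.rel (nat_lit 4831838289)) .nil)) .nil)) .leaf)) (nat_lit 22018626074519004) (.br (nat_lit 3) (.cons (.br (nat_lit 5) (.cons (.rel (nat_lit 4563664902)) .nil)) .nil)) (.node (.node .leaf (nat_lit 22018627748046300) (.br (nat_lit 3) (.cons (.br (nat_lit 2) (.cons (.rel (nat_lit 335806545)) (.cons (.rel (nat_lit 335806545)) .nil))) .nil)) .leaf) (nat_lit 22018628213614044) (.br (nat_lit 4) (.cons (.br (nat_lit 5) (.cons (.rel (nat_lit 5369888769)) .nil)) .nil)) (.node .leaf (nat_lit 22018779535712317) (.br (nat_lit 1) (.cons (.br (nat_lit 4) (.cons (.rel (nat_lit 1090519074)) .nil)) .nil)) .leaf)))) (nat_lit 22018997446582333) (.br (nat_lit 0) (.cons (.br (nat_lit 4) (.cons (.rel (nat_lit 1078198308)) .nil)) .nil)) (.node (.node (.node (.node .leaf (nat_lit 22020087953040860) (.br (nat_lit 0) (.cons (.br (nat_lit 3) (.cons (.rel (nat_lit 276825090)) .nil)) .nil)) .leaf) (nat_lit 22020087953967165) (.br (nat_lit 0) (.cons (.br (nat_lit 1) (.cons (.rel (nat_lit 20971668)) .nil)) .nil)) (.node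 .leaf (nat_lit 22020933237607062) (.br (nat_lit 3) (.cons (.br (nat_lit 4) (.cons (.rel (nat_lit 1343225937)) (.cons (.rel (nat_lit 1343225937)) .nil))) .nil)) .leaf)) (nat_lit 22020933239513149) (.br (nat_lit 3) (.cons (.br (nat_lit 4) (.cons (.rel (nat_lit 1343242260)) .nil)) .nil)) (.node (.node .leaf (nat_lit 22020936765016125) (.br (nat_lit 5) (.cons (.br (nat_lit 0) (.cons (.rel (nat_lit 4303355973)) (.cons (.rel (nat_lit 4299425796)) .nil))) .nil)) .leaf) (nat_lit 22020936765016245) (.br (nat_lit 0) (.cons (.br (nat_lit 5) (.cons (.rel (nat_lit 4299425796)) .nil)) .nil)) (.node .leaf (nat_lit 22020936765017444) (.br (nat_lit 0) (.cons (.br (nat_lit 4) (.cons (.rel (nat_lit 1082135568)) .nil)) .nil)) .leaf))) (nat_lit 22020936766922933) (.br (nat_lit 0) (.cons (.br (nat_lit 5) (.cons (.rel (nat_lit 4300214274)) .nil)) .nil)) (.node (.node (.node .leaf (nat_lit 22020936767901877) (.br (nat_lit 0) (.cons (.br (nat_lit 5) (.cons (.rel (nat_lit 4303372296)) .nil)) .nil)) .leaf) (nat_lit 22020936767902358)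 (.br (nat_lit 3) (.cons (.br (nat_lit 4) (.cons (.rel (nat_lit 2415989760)) .nil)) .nil)) (.node .leaf (nat_lit 22020936767903196) (.br (nat_lit 3) (.cons (.br (nat_lit 4) (.cons (.rel (nat_lit 2415923268)) .nil)) .nil)) .leaf)) (nat_lit 22020938772779189) (.br (nat_lit 3) (.cons (.br (nat_lit 4) (.cons (.rel (nat_lit 2415989760)) .nil)) .nil)) (.node (.node .leaf (nat_lit 22020938772780388) (.br (nat_lit 3) (.cons (.br (nat_lit 4) (.cons (.rel (nat_lit 1342308864)) .nil)) .nil)) .leaf) (nat_lit 22020938772780508) (.br (nat_lit 3) (.cons (.br (nat_lit 4) (.cons (.rel (nat_lit 2415923268)) .nil)) .nil)) (.node .leaf (nat_lit 22020938865053877) (.br (nat_lit 0) (.cons (.br (nat_lit 3) (.cons (.rel (nat_lit 273022992)) .nil)) .nil)) .leaf)))))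

/-- refutations 145 -/
def e145 : EX := (.node .leaf (nat_lit 16478114732247196) (.br (nat_lit 0) (.cons (.br (nat_lit 3) (.cons (.rel (nat_lit 272695812)) .nil)) .nil)) .leaf)

/-- refutations 146 -/
def e146 : EX := (.node (.node .leaf (nat_lit 22036595185526166) (.br (nat_lit 1) (.cons (.br (nat_lit 3) (.cons (.rel (nat_lit 285220881)) .nil)) .nil)) .leaf) (nat_lit 22036595186866311) (.br (nat_lit 3) (.cons (.br (nat_lit 4) (.cons (.rel (nat_lit 1342521408)) .nil)) .nil)) .leaf)

/-- refutations 147 -/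
def e147 : EX := (.node (.node .leaf (nat_lit 22166200748143478) (.br (nat_lit 2) (.cons (.br (nat_lit 0) (.cons (.rel (nat_lit 71569428)) (.cons (.rel (nat_lit 75499653)) .nil))) .nil)) .leaf) (nat_lit 22171609048334341) (.br (nat_lit 3) (.cons (.br (nat_lit 4) (.cons (.rel (nat_lit 1343225937)) .nil)) .nil)) .leaf)

/-- refutations 148 -/
def e148 : EX := (.node (.node (.node (.node .leaf (nat_lit 22172700083178123) (.br (nat_lit 0) (.cons (.br (nat_lit 4) (.cons (.rel (nat_lit 1082132544)) .nil)) .nil)) .leaf) (nat_lit 22172702676681355) (.br (nat_lit 0) (.cons (.br (nat_lit 2) (.cons (.rel (nat_lit 71566404)) .nil)) .nil)) (.node .leaf (nat_lit 22172702679452299) (.br (nat_lit 0) (.cons (.br (nat_lit 3) (.cons (.rel (nat_lit 272892033)) .nil)) .nil)) .leaf)) (nat_lit 22172706491134603) (.br (nat_lit 2) (.cons (.br (nat_lit 3) (.cons (.rel (nat_lit 336625680)) .nil)) .nil)) (.node (.node .leaf (nat_lit 22172706492074635) (.br (nat_lit 0) (.cons (.br (nat_lit 3) (.cons (.rel (nat_lit 272974848)) .nil))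 .nil)) .leaf) (nat_lit 22177160852734603) (.br (nat_lit 0) (.cons (.br (nat_lit 4) (.cons (.rel (nat_lit 1078198308)) (.cons (.rel (nat_lit 1078199298)) .nil))) (.cons (.br (nat_lit 2) (.cons (.rel (nat_lit 71303682)) (.cons (.rel (nat_lit 71566404)) .nil))) .nil))) .leaf)) (nat_lit 22177160852734838) (.br (nat_lit 1) (.cons (.br (nat_lit 3) (.cons (.rel (nat_lit 285229122)) .nil)) .nil)) (.node (.node (.node .leaf (nat_lit 22177160854565515) (.br (nat_lit 2) (.cons (.br (nat_lit 3) (.cons (.br (nat_lit 4) (.cons (.rel (nat_lit 1342439448)) (.cons (.rel (nat_lit 2684420352)) .nil))) .nil)) .nil)) .leaf) (nat_lit 22177424462377012) (.br (nat_lit 1) (.cons (.br (nat_lit 3) (.cons (.rel (nat_lit 285246480)) .nil)) .nil)) (.node .leaf (nat_lit 22177425083134112) (.br (nat_lit 0) (.cons (.br (nat_lit 1) (.cons (.rel (nat_lit 21038160)) .nil)) .nil)) .leaf)) (nat_lit 22177425083134603) (.br (nat_lit 0) (.cons (.br (nat_lit 3) (.cons (.rel (nat_lit 273679377)) .nil)) .nil)) (.node (.node .leaf (nat_lit 22177427270729758)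 (.br (nat_lit 0) (.cons (.br (nat_lit 1) (.cons (.rel (nat_lit 20975682)) .nil)) .nil)) .leaf) (nat_lit 22177427272561322) (.br (nat_lit 1) (.cons (.br (nat_lit 2) (.cons (.rel (nat_lit 83952672)) .nil)) .nil)) .leaf)))

/-- refutations 149 -/
def e149 : EX := (.node (.node .leaf (nat_lit 22430263272561290) (.br (nat_lit 1) (.cons (.br (nat_lit 3) (.cons (.rel (nat_lit 285234180)) .nil)) .nil)) .leaf) (nat_lit 22432241703966755) (.br (nat_lit 0) (.cons (.br (nat_lit 1) (.cons (.rel (nat_lit 20975682)) .nil)) .nil)) (.node .leaf (nat_lit 22435498361052042) (.br (nat_lit 0) (.cons (.br (nat_lit 1) (.cons (.rel (nat_lit 20980740)) .nil)) .nil)) .leaf))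

/-- refutations 150 -/
def e150 : EX := (.node (.node (.node .leaf (nat_lit 22441041039260554) (.br (nat_lit 3) (.cons (.br (nat_lit 4) (.cons (.rel (nat_lit 1342521408)) .nil)) .nil)) .leaf) (nat_lit 22441041041541280) (.br (nat_lit 3) (.cons (.br (nat_lit 4) (.cons (.rel (nat_lit 1342441473)) .nil)) .nil)) (.node .leaf (nat_lit 22441041585737180) (.br (nat_lit 1) (.cons (.br (nat_lit 4) (.cons (.rel (nat_lit 2181038097)) .nil)) .nil)) .leaf)) (nat_lit 22441041585829400) (.br (nat_lit 0) (.cons (.br (nat_lit 3) (.cons (.rel (nat_lit 272908356)) .nil)) .nil)) (.node (.node .leaf (nat_lit 22441041586800800) (.br (nat_lit 2) (.cons (.br (nat_lit 4) (.cons (.rel (nat_lit 1141134336)) (.cons (.rel (nat_lit 1207964736)) .nil))) (.cons (.br (nat_lit 3) (.cons (.rel (nat_lit 336658500)) (.cons (.rel (nat_lit 335545857)) .nil))) .nil))) .leaf) (nat_lit 22441047458793604) (.br (nat_lit 2) (.cons (.br (nat_lit 3) (.cons (.rel (nat_lit 335545857)) .nil)) .nil)) .leaf))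

/-- refutations 151 -/
def e151 : EX := (.node (.node (.node .leaf (nat_lit 22447677821916636) (.br (nat_lit 0) (.cons (.br (nat_lit 3) (.cons (.rel (nat_lit 273711168)) .nil)) .nil)) .leaf) (nat_lit 22447889944236343) (.br (nat_lit 0) (.cons (.br (nat_lit 1) (.cons (.rel (nat_lit 20993040)) .nil)) .nil)) (.node .leaf (nat_lit 22447889945474531) (.br (nat_lit 0) (.cons (.br (nat_lit 1) (.cons (.rel (nat_lit 20971668)) .nil)) .nil)) .leaf)) (nat_lit 22453084152258596) (.br (nat_lit 0) (.cons (.br (nat_lit 2) (.cons (.rel (nat_lit 75506688)) .nil)) .nil)) (.node (.node .leaf (nat_lit 22453089895945692) (.br (nat_lit 0) (.cons (.br (nat_lit 1) (.cons (.rel (nat_lit 21041184)) .nil)) .nil)) .leaf) (nat_lit 22453090546061348) (.br (nat_lit 0) (.cons (.br (nat_lit 2) (.cons (.rel (nat_lit 71566404)) .nil)) .nil)) .leaf))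

/-- refutations 152 -/
def e152 : EX := (.node (.node (.node (.node .leaf (nat_lit 22453447509418865) (.br (nat_lit 2) (.cons (.br (nat_lit 1) (.cons (.rel (nat_lit 153093120)) (.cons (.rel (nat_lit 151257600)) .nil))) .nil)) .leaf) (nat_lit 22453447510693340) (.br (nat_lit 1) (.cons (.br (nat_lit 4) (.cons (.rel (nat_lit 2181038097)) .nil)) .nil)) .leaf) (nat_lit 22458429672755236) (.br (nat_lit 6) (.cons (.br (nat_lit 0) (.cons (.rel (nat_lit 17184325776)) (.cons (.rel (nat_lit 17185113120)) .nil))) .nil)) (.node .leaf (nat_lit 22458429672756082) (.br (nat_lit 0) (.cons (.br (nat_lit 1) (.cons (.rel (nat_lit 20980740)) .nil)) .nil)) .leaf)) (nat_lit 22458461452996644) (.br (nat_lit 1) (.cons (.br (nat_lit 2) (.cons (.rel (nat_lit 83886180)) .nil)) .nil)) (.node (.node .leaf (nat_lit 22458467194998820) (.br (nat_lit 0) (.cons (.br (nat_lit 4) (.cons (.rel (nat_lit 1078222848)) .nil)) .nil)) .leaf) (nat_lit 22458798935085092) (.br (nat_lit 0) (.cons (.br (nat_lit 2) (.cons (.rel (nat_lit 71569428)) .nil))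 .nil)) (.node .leaf (nat_lit 22458802202447908) (.br (nat_lit 0) (.cons (.br (nat_lit 2) (.cons (.rel (nat_lit 142606593)) .nil)) .nil)) .leaf)))

/-- refutations 153 -/
def e153 : EX := (.node .leaf (nat_lit 22459709573816357) (.br (nat_lit 1) (.cons (.br (nat_lit 2) (.cons (.rel (nat_lit 84214080)) .nil)) .nil)) .leaf)

/-- refutations 154 -/
def e154 : EX := (.node (.node .leaf (nat_lit 22519134786662432) (.br (nat_lit 0) (.cons (.br (nat_lit 2) (.cons (.rel (nat_lit 71303682)) .nil)) .nil)) .leaf) (nat_lit 22523678705621617) (.br (nat_lit 0) (.cons (.br (nat_lit 1) (.cons (.rel (nat_lit 21038160)) .nil)) .nil)) .leaf)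

/-- refutations 155 -/
def e155 : EX := (.node (.node (.node .leaf (nat_lit 22528795820666912) (.br (nat_lit 2) (.cons (.br (nat_lit 5) (.cons (.rel (nat_lit 4429316100)) .nil)) .nil)) .leaf) (nat_lit 22528796210737184) (.br (nat_lit 0) (.cons (.br (nat_lit 1) (.cons (.rel (nat_lit 20992005)) .nil)) .nil)) .leaf) (nat_lit 22529895867875979) (.br (nat_lit 0) (.cons (.br (nat_lit 2) (.cons (.rel (nat_lit 138412128)) .nil)) .nil)) (.node .leaf (nat_lit 22529895869010571) (.br (nat_lit 1) (.cons (.br (nat_lit 0) (.cons (.rel (nat_lit 20980740)) (.cons (.rel (nat_lit 20990016)) .nil))) .nil)) .leaf))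

/-- refutations 156 -/
def e156 : EX := (.node (.node (.node (.node .leaf (nat_lit 22124347422429834) (.br (nat_lit 3) (.cons (.br (nat_lit 4) (.cons (.rel (nat_lit 1342308864)) .nil)) .nil)) .leaf) (nat_lit 22124347422429866) (.br (nat_lit 0) (.cons (.br (nat_lit 1) (.cons (.rel (nat_lit 20980740)) .nil)) .nil)) .leaf) (nat_lit 22124347422987177) (.br (nat_lit 0) (.cons (.br (nat_lit 3) (.cons (.rel (nat_lit 272908356)) (.cons (.rel (nat_lit 541065240)) .nil))) .nil)) (.node .leaf (nat_lit 22124347422997407) (.br (nat_lit 1) (.cons (.br (nat_lit 6) (.cons (.rel (nat_lit 34393296912)) .nil)) .nil)) .leaf)) (nat_lit 22124347424263704) (.br (nat_lit 1) (.cons (.br (nat_lit 3) (.cons (.rel (nat_lit 285245445)) (.cons (.rel (nat_lit 570425412)) .nil))) (.cons (.br (nat_lit 3) (.cons (.rel (nat_lit 570491904)) (.cons (.rel (nat_lit 285217857)) .nil))) .nil))) (.node (.node .leaf (nat_lit 22124347425082904) (.br (nat_lit 6) (.cons (.br (nat_lit 0) (.cons (.rel (nat_lit 17184065088)) (.cons (.rel (nat_lit 17184065088))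 (.cons (.rel (nat_lit 17185116288)) .nil)))) (.cons (.br (nat_lit 0) (.cons (.rel (nat_lit 17184065088)) (.cons (.rel (nat_lit 17185116288)) (.cons (.rel (nat_lit 17184065088)) .nil)))) .nil))) .leaf) (nat_lit 22124352662949400) (.br (nat_lit 0) (.cons (.br (nat_lit 2) (.cons (.rel (nat_lit 142606593)) .nil)) .nil)) (.node .leaf (nat_lit 22124352663768600) (.br (nat_lit 1) (.cons (.br (nat_lit 3) (.cons (.rel (nat_lit 285282324)) .nil)) .nil)) .leaf)))

/-- refutations 157 -/
def e157 : EX := (.node .leaf (nat_lit 22641369614105511) (.br (nat_lit 0) (.cons (.br (nat_lit 1) (.cons (.rel (nat_lit 20990016)) .nil)) .nil)) .leaf)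

/-- refutations 158 -/
def e158 : EX := (.node (.node (.node (.node .leaf (nat_lit 22648759997710998) (.br (nat_lit 0) (.cons (.br (nat_lit 5) (.cons (.rel (nat_lit 4299423762)) .nil)) .nil)) .leaf) (nat_lit 22648974332352519) (.br (nat_lit 1) (.cons (.br (nat_lit 3) (.cons (.rel (nat_lit 285245445)) .nil)) .nil)) .leaf) (nat_lit 22648974747588615) (.br (nat_lit 0) (.cons (.br (nat_lit 3) (.cons (.rel (nat_lit 272634369)) .nil)) .nil)) (.node (.node .leaf (nat_lit 22651978125888988) (.br (nat_lit 0) (.cons (.br (nat_lit 1) (.cons (.rel (nat_lit 38010885)) .nil)) .nil)) .leaf) (nat_lit 22652098384973276) (.br (nat_lit 2) (.cons (.br (nat_lit 3) (.cons (.rel (nat_lit 336597057)) .nil)) .nil)) .leaf)) (nat_lit 22652974557519225) (.br (nat_lit 2) (.cons (.br (nat_lit 5) (.cons (.rel (nat_lit 8657045568)) .nil)) .nil)) (.node (.node (.node .leaf (nat_lit 22652974615799260) (.br (nat_lit 0) (.cons (.br (nat_lit 1) (.cons (.rel (nat_lit 20992005)) .nil)) .nil)) .leaf) (nat_lit 22652974972755321) (.br (nat_lit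 4) (.cons (.br (nat_lit 1) (.cons (.rel (nat_lit 1090593792)) (.cons (.rel (nat_lit 1090527300)) .nil))) .nil)) .leaf) (nat_lit 22653404467768057) (.br (nat_lit 0) (.cons (.br (nat_lit 2) (.cons (.rel (nat_lit 71566404)) .nil)) .nil)) (.node .leaf (nat_lit 22653404467768796) (.br (nat_lit 2) (.cons (.br (nat_lit 3) (.cons (.rel (nat_lit 335806545)) .nil)) .nil)) .leaf)))

/-- refutations 159 -/
def e159 : EX := (.node (.node (.node .leaf (nat_lit 22887697011727836) (.br (nat_lit 0) (.cons (.br (nat_lit 4) (.cons (.rel (nat_lit 1078198308)) .nil)) .nil)) .leaf) (nat_lit 22887711785393628) (.br (nat_lit 1) (.cons (.br (nat_lit 3) (.cons (.rel (nat_lit 285229122)) .nil)) .nil)) (.node .leaf (nat_lit 22888569225631805) (.br (nat_lit 0) (.cons (.br (nat_lit 1) (.cons (.rel (nat_lit 25170192)) .nil)) .nil)) .leaf)) (nat_lit 22888573914864278) (.br (nat_lit 0) (.cons (.br (nat_lit 1) (.cons (.rel (nat_lit 21041184)) .nil)) .nil)) (.node (.node .leaf (nat_lit 22888573914865002) (.br (nat_lit 0) (.cons (.br (nat_lit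 5) (.cons (.rel (nat_lit 8598325569)) (.cons (.rel (nat_lit 4300214274)) .nil))) .nil)) .leaf) (nat_lit 22890120541740508) (.br (nat_lit 3) (.cons (.br (nat_lit 5) (.cons (.rel (nat_lit 4563800064)) .nil)) .nil)) .leaf))

/-- refutations 160 -/
def e160 : EX := (.node (.node (.node .leaf (nat_lit 22892816734379484) (.br (nat_lit 0) (.cons (.br (nat_lit 2) (.cons (.rel (nat_lit 71369376)) .nil)) .nil)) .leaf) (nat_lit 22893114618043868) (.br (nat_lit 0) (.cons (.br (nat_lit 1) (.cons (.rel (nat_lit 21038160)) .nil)) .nil)) (.node .leaf (nat_lit 22893318301833252) (.br (nat_lit 0) (.cons (.br (nat_lit 3) (.cons (.rel (nat_lit 541067265)) .nil)) .nil)) .leaf)) (nat_lit 22893318301834716) (.br (nat_lit 0) (.cons (.br (nat_lit 3) (.cons (.rel (nat_lit 541065240)) .nil)) .nil)) (.node (.node .leaf (nat_lit 22895046036315612) (.br (nat_lit 0) (.cons (.br (nat_lit 4) (.cons (.rel (nat_lit 1078199298)) .nil)) .nil)) .leaf) (nat_lit 22895047563042268) (.br (nat_lit 2) (.cons (.br (nat_lit 4) (.cons (.rel (nat_lit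 1141145601)) .nil)) .nil)) .leaf))

/-- refutations 161 -/
def e161 : EX := (.node (.node (.node .leaf (nat_lit 22898388836649586) (.br (nat_lit 0) (.cons (.br (nat_lit 2) (.cons (.rel (nat_lit 72359940)) .nil)) .nil)) .leaf) (nat_lit 22898388837881867) (.br (nat_lit 0) (.cons (.br (nat_lit 1) (.cons (.rel (nat_lit 20980740)) .nil)) .nil)) .leaf) (nat_lit 22898388838841820) (.br (nat_lit 0) (.cons (.br (nat_lit 1) (.cons (.rel (nat_lit 38010885)) .nil)) .nil)) (.node .leaf (nat_lit 22898603796013117) (.br (nat_lit 1) (.cons (.br (nat_lit 3) (.cons (.rel (nat_lit 303104016)) .nil)) .nil)) .leaf))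

/-- refutations 163 -/
def e163 : EX := (.node (.node (.node .leaf (nat_lit 22541268398371743) (.br (nat_lit 0) (.cons (.br (nat_lit 1) (.cons (.rel (nat_lit 21041184)) .nil)) .nil)) .leaf) (nat_lit 22541271669967029) (.br (nat_lit 0) (.cons (.br (nat_lit 2) (.cons (.rel (nat_lit 71632896)) .nil)) .nil)) (.node .leaf (nat_lit 22541494360829159) (.br (nat_lit 1) (.cons (.br (nat_lit 3) (.cons (.rel (nat_lit 570491904)) .nil)) .nil)) .leaf)) (nat_lit 22546650842498404) (.br (nat_lit 0) (.cons (.br (nat_lit 1) (.cons (.rel (nat_lit 20975682)) (.cons (.rel (nat_lit 20975682)) .nil))) (.cons (.br (nat_lit 1) (.cons (.rel (nat_lit 21037125)) (.cons (.rel (nat_lit 20992005)) .nil))) .nil))) (.node (.node .leaf (nat_lit 22546768579777439) (.br (nat_lit 1) (.cons (.br (nat_lit 3) (.cons (.rel (nat_lit 285220881)) .nil)) .nil)) .leaf) (nat_lit 22546768581839125) (.br (nat_lit 1) (.cons (.br (nat_lit 3) (.cons (.rel (nat_lit 285229122)) .nil)) .nil)) .leaf))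

/-- refutations 165 -/
def e165 : EX := (.node (.node .leaf (nat_lit 22986144766828704) (.br (nat_lit 0) (.cons (.br (nat_lit 1) (.cons (.rel (nat_lit 20990016)) .nil)) .nil)) .leaf) (nat_lit 22986150835988781) (.br (nat_lit 1) (.cons (.br (nat_lit 0) (.cons (.rel (nat_lit 25170192)) (.cons (.rel (nat_lit 20993040)) .nil))) .nil)) (.node .leaf (nat_lit 22986670784421395) (.br (nat_lit 0) (.cons (.br (nat_lit 1) (.cons (.rel (nat_lit 20990016)) .nil)) .nil)) .leaf))

/-- refutations 166 -/
def e166 : EX := (.node (.node (.node (.node (.node .leaf (nat_lit 22958925500152709) (.br (nat_lit 0) (.cons (.br (nat_lit 4) (.cons (.rel (nat_lit 1078006293)) .nil)) .nil)) .leaf) (nat_lit 22959094130383149) (.br (nat_lit 3) (.cons (.br (nat_lit 4) (.cons (.rel (nat_lit 1610613825)) .nil)) .nil)) .leaf) (nat_lit 22959094130638899) (.br (nat_lit 1) (.cons (.br (nat_lit 3) (.cons (.rel (nat_lit 285234180)) .nil)) .nil)) (.node (.node .leaf (nat_lit 22959094130846577) (.br (nat_lit 6) (.cons (.br (nat_lit 4) (.cons (.rel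 (nat_lit 36507222336)) (.cons (.br (nat_lit 5) (.cons (.rel (nat_lit 10737418497)) (.cons (.rel (nat_lit 42949677312)) (.cons (.rel (nat_lit 5368709634)) (.cons (.rel (nat_lit 25769820228)) .nil))))) .nil))) .nil)) .leaf) (nat_lit 22959094130846977) (.br (nat_lit 6) (.cons (.br (nat_lit 0) (.cons (.rel (nat_lit 34363933716)) (.cons (.rel (nat_lit 17184325776)) (.cons (.rel (nat_lit 17188258833)) .nil)))) .nil)) .leaf)) (nat_lit 22959094131665197) (.br (nat_lit 1) (.cons (.br (nat_lit 6) (.cons (.rel (nat_lit 17196662865)) (.cons (.rel (nat_lit 17197711617)) .nil))) (.cons (.br (nat_lit 4) (.cons (.rel (nat_lit 1090520073)) (.cons (.rel (nat_lit 1090539600)) .nil))) .nil))) (.node (.node (.node .leaf (nat_lit 22959094131666177) (.br (nat_lit 0) (.cons (.br (nat_lit 3) (.cons (.rel (nat_lit 541065240)) (.cons (.rel (nat_lit 272634369)) .nil))) .nil)) .leaf) (nat_lit 22959094131828123) (.br (nat_lit 5) (.cons (.br (nat_lit 0) (.cons (.rel (nat_lit 8594145345)) (.cons (.rel (nat_lit 8594137104)) .nil))) .nil))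 .leaf) (nat_lit 22959094132145628) (.br (nat_lit 5) (.cons (.br (nat_lit 0) (.cons (.rel (nat_lit 4303355973)) (.cons (.rel (nat_lit 4299423762)) .nil))) .nil)) (.node .leaf (nat_lit 22963620904741745) (.br (nat_lit 3) (.cons (.br (nat_lit 4) (.cons (.rel (nat_lit 2416001025)) .nil)) .nil)) .leaf))) (nat_lit 22963620906040796) (.br (nat_lit 3) (.cons (.br (nat_lit 1) (.cons (.rel (nat_lit 285345792)) (.cons (.rel (nat_lit 285345792)) .nil))) .nil)) (.node (.node (.node (.node .leaf (nat_lit 22963621026435982) (.br (nat_lit 3) (.cons (.br (nat_lit 4) (.cons (.rel (nat_lit 2415935568)) .nil)) .nil)) .leaf) (nat_lit 22963621027675612) (.br (nat_lit 1) (.cons (.br (nat_lit 2) (.cons (.rel (nat_lit 83887170)) (.cons (.rel (nat_lit 167777361)) (.cons (.rel (nat_lit 84049920)) .nil)))) (.cons (.br (nat_lit 2) (.cons (.rel (nat_lit 84049920)) (.cons (.rel (nat_lit 153093120)) (.cons (.rel (nat_lit 84049920)) .nil)))) (.cons (.br (nat_lit 2) (.cons (.rel (nat_lit 153093120)) (.cons (.rel (nat_lit 83952672)) (.cons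 (.rel (nat_lit 83904528)) .nil)))) .nil)))) .leaf) (nat_lit 22968551654325125) (.br (nat_lit 2) (.cons (.br (nat_lit 0) (.cons (.rel (nat_lit 71303682)) (.cons (.rel (nat_lit 142606593)) .nil))) .nil)) (.node (.node .leaf (nat_lit 22968551654326433) (.br (nat_lit 0) (.cons (.br (nat_lit 2) (.cons (.rel (nat_lit 142607640)) .nil)) .nil)) .leaf) (nat_lit 22968603189737479) (.br (nat_lit 1) (.cons (.br (nat_lit 2) (.cons (.rel (nat_lit 101713920)) .nil)) .nil)) .leaf)) (nat_lit 22968637550757097) (.br (nat_lit 0) (.cons (.br (nat_lit 1) (.cons (.rel (nat_lit 22086912)) .nil)) .nil)) (.node (.node (.node .leaf (nat_lit 22968972556924935) (.br (nat_lit 0) (.cons (.br (nat_lit 1) (.cons (.rel (nat_lit 21004305)) (.cons (.rel (nat_lit 20980740)) .nil))) .nil)) .leaf) (nat_lit 22969705869129115) (.br (nat_lit 0) (.cons (.br (nat_lit 1) (.cons (.rel (nat_lit 25170192)) .nil)) .nil)) .leaf) (nat_lit 22971223119309101) (.br (nat_lit 2) (.cons (.br (nat_lit 3) (.cons (.rel (nat_lit 335822868)) .nil)) .nil)) (.node .leaf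 (nat_lit 22971223119789532) (.br (nat_lit 1) (.cons (.br (nat_lit 3) (.cons (.rel (nat_lit 570425412)) (.cons (.rel (nat_lit 570491904)) .nil))) (.cons (.br (nat_lit 3) (.cons (.rel (nat_lit 285245445)) (.cons (.rel (nat_lit 285212808)) .nil))) .nil))) .leaf))))

/-- refutations 167 -/
def e167 : EX := (.node (.node .leaf (nat_lit 23069240141297116) (.br (nat_lit 3) (.cons (.br (nat_lit 1) (.cons (.rel (nat_lit 285212808)) (.cons (.rel (nat_lit 285245445)) .nil))) .nil)) .leaf) (nat_lit 23074540130940380) (.br (nat_lit 2) (.cons (.br (nat_lit 1) (.cons (.rel (nat_lit 83951637)) (.cons (.rel (nat_lit 83951637)) .nil))) .nil)) (.node .leaf (nat_lit 23074540252575196) (.br (nat_lit 3) (.cons (.br (nat_lit 6) (.cons (.rel (nat_lit 17716742148)) .nil)) .nil)) .leaf))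

/-- refutations 168 -/
def e168 : EX := (.node (.node (.node (.node .leaf (nat_lit 24191493012278748) (.br (nat_lit 0) (.cons (.br (nat_lit 3) (.cons (.rel (nat_lit 541067265)) (.cons (.rel (nat_lit 272908356)) .nil))) .nil)) .leaf) (nat_lit 24195744614665692) (.br (nat_lit 1) (.cons (.br (nat_lit 3) (.cons (.rel (nat_lit 285212808)) .nil)) .nil)) .leaf) (nat_lit 24200057177066972) (.br (nat_lit 2) (.cons (.br (nat_lit 6) (.cons (.rel (nat_lit 17247257601)) .nil)) .nil)) (.node .leaf (nat_lit 24200059274218972) (.br (nat_lit 2) (.cons (.br (nat_lit 3) (.cons (.rel (nat_lit 603987969)) .nil)) .nil)) .leaf)) (nat_lit 24201084791672984) (.br (nat_lit 0) (.cons (.br (nat_lit 1) (.cons (.rel (nat_lit 20980740)) .nil)) .nil)) (.node (.node .leaf (nat_lit 24201514181807580) (.br (nat_lit 1) (.cons (.br (nat_lit 2) (.cons (.rel (nat_lit 153093120)) .nil)) .nil)) .leaf) (nat_lit 24201517050711516) (.br (nat_lit 1) (.cons (.br (nat_lit 2) (.cons (.rel (nat_lit 83892228)) .nil)) .nil)) (.node .leaf (nat_lit 24201519542128092)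 (.br (nat_lit 1) (.cons (.br (nat_lit 2) (.cons (.rel (nat_lit 83892228)) .nil)) .nil)) .leaf)))

/-- refutations 170 -/
def e170 : EX := (.node (.node (.node (.node (.node (.node (.node .leaf (nat_lit 24383904488374934) (.br (nat_lit 3) (.cons (.br (nat_lit 5) (.cons (.rel (nat_lit 4831838289)) .nil)) .nil)) .leaf) (nat_lit 24383904489482902) (.br (nat_lit 3) (.cons (.br (nat_lit 4) (.cons (.rel (nat_lit 2415935568)) (.cons (.rel (nat_lit 2415989760)) .nil))) .nil)) .leaf) (nat_lit 24383904992799021) (.br (nat_lit 0) (.cons (.br (nat_lit 4) (.cons (.rel (nat_lit 2151809028)) .nil)) .nil)) (.node (.node .leaf (nat_lit 24383904992799502) (.br (nat_lit 0) (.cons (.br (nat_lit 2) (.cons (.rel (nat_lit 71632896)) .nil)) .nil)) .leaf) (nat_lit 24383904994545965) (.br (nat_lit 0) (.cons (.br (nat_lit 4) (.cons (.rel (nat_lit 1078198308)) .nil)) .nil)) .leaf)) (nat_lit 24383904994547164) (.br (nat_lit 0) (.cons (.br (nat_lit 4) (.cons (.rel (nat_lit 1082195976)) .nil)) .nil)) (.node (.node (.node .leaf (nat_lit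 24383906505835158) (.br (nat_lit 4) (.cons (.br (nat_lit 5) (.cons (.rel (nat_lit 5369038848)) .nil)) .nil)) .leaf) (nat_lit 24383906505835996) (.br (nat_lit 4) (.cons (.br (nat_lit 5) (.cons (.rel (nat_lit 5368709634)) .nil)) .nil)) .leaf) (nat_lit 24383906506942645) (.br (nat_lit 3) (.cons (.br (nat_lit 5) (.cons (.rel (nat_lit 8858387520)) .nil)) .nil)) (.node .leaf (nat_lit 24383906506943126) (.br (nat_lit 2) (.cons (.br (nat_lit 3) (.cons (.br (nat_lit 4) (.cons (.rel (nat_lit 2415935568)) (.cons (.rel (nat_lit 1342439448)) .nil))) (.cons (.rel (nat_lit 336724992)) .nil))) (.cons (.br (nat_lit 5) (.cons (.rel (nat_lit 8657059857)) (.cons (.rel (nat_lit 4429316100)) .nil))) .nil))) .leaf))) (nat_lit 24383906506943964) (.br (nat_lit 3) (.cons (.br (nat_lit 4) (.cons (.rel (nat_lit 1342441473)) .nil)) .nil)) (.node (.node (.node (.node .leaf (nat_lit 24383906508689589) (.br (nat_lit 3) (.cons (.br (nat_lit 4) (.cons (.rel (nat_lit 1342441473)) .nil)) .nil)) .leaf) (nat_lit 24383906508690908) (.br (nat_lit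 4) (.cons (.br (nat_lit 5) (.cons (.rel (nat_lit 10737418497)) .nil)) .nil)) .leaf) (nat_lit 24383909015136918) (.br (nat_lit 3) (.cons (.br (nat_lit 5) (.cons (.rel (nat_lit 4831842312)) .nil)) .nil)) (.node .leaf (nat_lit 24383909015137516) (.br (nat_lit 0) (.cons (.br (nat_lit 4) (.cons (.rel (nat_lit 1082135568)) .nil)) .nil)) .leaf)) (nat_lit 24383909015137756) (.br (nat_lit 4) (.cons (.br (nat_lit 5) (.cons (.rel (nat_lit 6442598400)) .nil)) .nil)) (.node (.node (.node .leaf (nat_lit 24384359756015917) (.br (nat_lit 0) (.cons (.br (nat_lit 4) (.cons (.rel (nat_lit 1082146833)) .nil)) .nil)) .leaf) (nat_lit 24384360259332397) (.br (nat_lit 4) (.cons (.br (nat_lit 3) (.cons (.rel (nat_lit 1342441473)) (.cons (.rel (nat_lit 2684420352)) .nil))) .nil)) .leaf) (nat_lit 24384360259332758) (.br (nat_lit 2) (.cons (.br (nat_lit 4) (.cons (.rel (nat_lit 2214592581)) .nil)) .nil)) (.node .leaf (nat_lit 24384361773476502) (.br (nat_lit 2) (.cons (.br (nat_lit 3) (.cons (.rel (nat_lit 335545857)) .nil)) .nil))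 .leaf)))) (nat_lit 24384362186064534) (.br (nat_lit 3) (.cons (.br (nat_lit 5) (.cons (.rel (nat_lit 4563697728)) .nil)) .nil)) (.node (.node (.node (.node (.node .leaf (nat_lit 24384364260698774) (.br (nat_lit 0) (.cons (.br (nat_lit 2) (.cons (.rel (nat_lit 75579396)) .nil)) .nil)) .leaf) (nat_lit 24384935784950061) (.br (nat_lit 3) (.cons (.br (nat_lit 6) (.cons (.rel (nat_lit 17448566916)) (.cons (.rel (nat_lit 17448633408)) .nil))) (.cons (.br (nat_lit 6) (.cons (.rel (nat_lit 34896679170)) (.cons (.rel (nat_lit 17448588288)) .nil))) .nil))) .leaf) (nat_lit 24384935784951260) (.br (nat_lit 6) (.cons (.br (nat_lit 2) (.cons (.rel (nat_lit 17247246336)) (.cons (.rel (nat_lit 17248027776)) .nil))) .nil)) (.node .leaf (nat_lit 24384935786697486) (.br (nat_lit 3) (.cons (.br (nat_lit 4) (.cons (.rel (nat_lit 1342447713)) .nil)) .nil)) .leaf)) (nat_lit 24384937300841708) (.br (nat_lit 0) (.cons (.br (nat_lit 4) (.cons (.rel (nat_lit 1078222848)) .nil)) .nil)) (.node (.node (.node .leaf (nat_lit 24384939807288796)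 (.br (nat_lit 4) (.cons (.br (nat_lit 5) (.cons (.rel (nat_lit 6442453008)) .nil)) .nil)) .leaf) (nat_lit 24384939809035500) (.br (nat_lit 3) (.cons (.br (nat_lit 4) (.cons (.rel (nat_lit 2415923268)) (.cons (.rel (nat_lit 1610616849)) .nil))) .nil)) .leaf) (nat_lit 24384939809035740) (.br (nat_lit 3) (.cons (.br (nat_lit 4) (.cons (.rel (nat_lit 1343229960)) .nil)) .nil)) (.node .leaf (nat_lit 24384972072691864) (.br (nat_lit 3) (.cons (.br (nat_lit 1) (.cons (.rel (nat_lit 285246480)) (.cons (.rel (nat_lit 570425412)) .nil))) .nil)) .leaf))) (nat_lit 24384972074014872) (.br (nat_lit 1) (.cons (.br (nat_lit 2) (.cons (.rel (nat_lit 83890194)) .nil)) .nil)) (.node (.node (.node (.node .leaf (nat_lit 24384972074068624) (.br (nat_lit 0) (.cons (.br (nat_lit 3) (.cons (.rel (nat_lit 541065240)) .nil)) .nil)) .leaf) (nat_lit 24384972074068729) (.br (nat_lit 0) (.cons (.br (nat_lit 3) (.cons (.rel (nat_lit 276893760)) (.cons (.rel (nat_lit 272908356)) (.cons (.rel (nat_lit 541067265)) (.cons (.rel (nat_lit 272974848))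 .nil))))) .nil)) .leaf) (nat_lit 24384972074069468) (.br (nat_lit 2) (.cons (.br (nat_lit 0) (.cons (.br (nat_lit 4) (.cons (.rel (nat_lit 1077953088)) (.cons (.rel (nat_lit 1077953088)) .nil))) (.cons (.rel (nat_lit 71632896)) (.cons (.rel (nat_lit 142606593)) .nil)))) (.cons (.br (nat_lit 4) (.cons (.rel (nat_lit 2214593616)) (.cons (.rel (nat_lit 1141915776)) .nil))) .nil))) (.node .leaf (nat_lit 24384972074322805) (.br (nat_lit 5) (.cons (.br (nat_lit 0) (.cons (.rel (nat_lit 4301259012)) (.cons (.rel (nat_lit 4301259012)) .nil))) .nil)) .leaf)) (nat_lit 24384972074547880) (.br (nat_lit 0) (.cons (.br (nat_lit 2) (.cons (.rel (nat_lit 73466112)) .nil)) .nil)) (.node (.node (.node .leaf (nat_lit 24384972075355672) (.br (nat_lit 3) (.cons (.br (nat_lit 6) (.cons (.rel (nat_lit 17448588288)) .nil)) .nil)) .leaf) (nat_lit 24384972075610147) (.br (nat_lit 0) (.cons (.br (nat_lit 1) (.cons (.rel (nat_lit 21038160)) .nil)) .nil)) .leaf) (nat_lit 24384972075611547) (.br (nat_lit 1) (.cons (.br (nat_lit 2) (.cons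 (.rel (nat_lit 83890194)) .nil)) .nil)) (.node .leaf (nat_lit 24384972075807972) (.br (nat_lit 0) (.cons (.br (nat_lit 1) (.cons (.rel (nat_lit 20971668)) .nil)) .nil)) .leaf))))) (nat_lit 24384972075867422) (.br (nat_lit 0) (.cons (.br (nat_lit 4) (.cons (.rel (nat_lit 1078199298)) (.cons (.rel (nat_lit 1077953088)) .nil))) .nil)) (.node (.node (.node (.node (.node (.node .leaf (nat_lit 24385401569691100) (.br (nat_lit 0) (.cons (.br (nat_lit 2) (.cons (.rel (nat_lit 72482817)) .nil)) .nil)) .leaf) (nat_lit 24385401570799068) (.br (nat_lit 0) (.cons (.br (nat_lit 4) (.cons (.rel (nat_lit 1077953088)) .nil)) .nil)) .leaf) (nat_lit 24385401570957614) (.br (nat_lit 0) (.cons (.br (nat_lit 2) (.cons (.rel (nat_lit 71712834)) .nil)) .nil)) (.node .leaf (nat_lit 24385401572546012) (.br (nat_lit 0) (.cons (.br (nat_lit 1) (.cons (.rel (nat_lit 25170192)) .nil)) .nil)) .leaf)) (nat_lit 24388224618378776) (.br (nat_lit 0) (.cons (.br (nat_lit 1) (.cons (.rel (nat_lit 20971668)) .nil)) .nil)) (.node (.node (.node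 .leaf (nat_lit 24388224618407972) (.br (nat_lit 0) (.cons (.br (nat_lit 5) (.cons (.rel (nat_lit 4305715200)) (.cons (.rel (nat_lit 8594137104)) .nil))) .nil)) .leaf) (nat_lit 24388227658020068) (.br (nat_lit 0) (.cons (.br (nat_lit 3) (.cons (.rel (nat_lit 541067265)) .nil)) .nil)) .leaf) (nat_lit 24388227658221693) (.br (nat_lit 0) (.cons (.br (nat_lit 4) (.cons (.rel (nat_lit 1078985796)) .nil)) .nil)) (.node .leaf (nat_lit 24388227659278637) (.br (nat_lit 2) (.cons (.br (nat_lit 4) (.cons (.rel (nat_lit 1140867600)) .nil)) .nil)) .leaf))) (nat_lit 24388227659279097) (.br (nat_lit 0) (.cons (.br (nat_lit 1) (.cons (.rel (nat_lit 20980740)) .nil)) .nil)) (.node (.node (.node (.node .leaf (nat_lit 24388227659279836) (.br (nat_lit 4) (.cons (.br (nat_lit 5) (.cons (.rel (nat_lit 5369775168)) .nil)) .nil)) .leaf) (nat_lit 24388227659503747) (.br (nat_lit 3) (.cons (.br (nat_lit 6) (.cons (.rel (nat_lit 17448566916)) .nil)) .nil)) .leaf) (nat_lit 24388227659759918) (.br (nat_lit 0) (.cons (.br (nat_lit 3)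 (.cons (.rel (nat_lit 273022992)) .nil)) .nil)) (.node .leaf (nat_lit 24388227660966794) (.br (nat_lit 2) (.cons (.br (nat_lit 6) (.cons (.rel (nat_lit 17314088001)) (.cons (.rel (nat_lit 17314088001)) .nil))) (.cons (.br (nat_lit 6) (.cons (.rel (nat_lit 17247246336)) (.cons (.rel (nat_lit 34426851396)) .nil))) .nil))) .leaf)) (nat_lit 24388654722204310) (.br (nat_lit 4) (.cons (.br (nat_lit 5) (.cons (.rel (nat_lit 5369038848)) .nil)) .nil)) (.node (.node (.node .leaf (nat_lit 24388654722204908) (.br (nat_lit 3) (.cons (.br (nat_lit 4) (.cons (.rel (nat_lit 1343225937)) .nil)) .nil)) .leaf) (nat_lit 24388654723311797) (.br (nat_lit 3) (.cons (.br (nat_lit 4) (.cons (.rel (nat_lit 2415989760)) .nil)) .nil)) .leaf) (nat_lit 24388654723311917) (.br (nat_lit 3) (.cons (.br (nat_lit 4) (.cons (.rel (nat_lit 1342439448)) (.cons (.rel (nat_lit 1342308864)) .nil))) (.cons (.br (nat_lit 4) (.cons (.rel (nat_lit 1343291394)) (.cons (.rel (nat_lit 1343225937)) .nil))) .nil))) (.node .leaf (nat_lit 24388654723313116)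 (.br (nat_lit 3) (.cons (.br (nat_lit 5) (.cons (.rel (nat_lit 4564467714)) (.cons (.rel (nat_lit 8858387520)) .nil))) .nil)) .leaf)))) (nat_lit 24388654724999349) (.br (nat_lit 2) (.cons (.br (nat_lit 5) (.cons (.rel (nat_lit 4362355776)) .nil)) .nil)) (.node (.node (.node (.node (.node .leaf (nat_lit 24388654725058741) (.br (nat_lit 3) (.cons (.br (nat_lit 5) (.cons (.rel (nat_lit 4564467714)) .nil)) .nil)) .leaf) (nat_lit 24388655226628397) (.br (nat_lit 4) (.cons (.br (nat_lit 5) (.cons (.rel (nat_lit 6442453008)) (.cons (.rel (nat_lit 6442598400)) .nil))) .nil)) .leaf) (nat_lit 24388655226628758) (.br (nat_lit 0) (.cons (.br (nat_lit 4) (.cons (.rel (nat_lit 2151747585)) .nil)) .nil)) (.node .leaf (nat_lit 24388659247858924) (.br (nat_lit 3) (.cons (.br (nat_lit 5) (.cons (.rel (nat_lit 4564467714)) .nil)) .nil)) .leaf)) (nat_lit 24388659248966892) (.br (nat_lit 4) (.cons (.br (nat_lit 6) (.cons (.rel (nat_lit 35433498624)) .nil)) .nil)) (.node (.node (.node .leaf (nat_lit 24388659248967132) (.br (nat_lit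 5) (.cons (.br (nat_lit 6) (.cons (.rel (nat_lit 21475196928)) (.cons (.rel (nat_lit 21475098645)) .nil))) .nil)) .leaf) (nat_lit 24388659250712757) (.br (nat_lit 4) (.cons (.br (nat_lit 5) (.cons (.rel (nat_lit 5368975380)) .nil)) .nil)) .leaf) (nat_lit 24388659250713358) (.br (nat_lit 4) (.cons (.br (nat_lit 5) (.cons (.rel (nat_lit 6442453008)) .nil)) .nil)) (.node .leaf (nat_lit 24388659250713836) (.br (nat_lit 3) (.cons (.br (nat_lit 4) (.cons (.rel (nat_lit 2415923268)) (.cons (.rel (nat_lit 1610616849)) .nil))) .nil)) .leaf))) (nat_lit 24388659250714076) (.br (nat_lit 3) (.cons (.br (nat_lit 4) (.cons (.rel (nat_lit 1343229960)) .nil)) .nil)) (.node (.node (.node (.node .leaf (nat_lit 24389479759939761) (.br (nat_lit 0) (.cons (.br (nat_lit 1) (.cons (.rel (nat_lit 38813697)) .nil)) .nil)) .leaf) (nat_lit 24389524323058326) (.br (nat_lit 3) (.cons (.br (nat_lit 4) (.cons (.rel (nat_lit 2415935568)) .nil)) .nil)) .leaf) (nat_lit 24389524735208684) (.br (nat_lit 4) (.cons (.br (nat_lit 6) (.cons (.rel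 (nat_lit 18255708432)) .nil)) .nil)) (.node .leaf (nat_lit 24389524735208924) (.br (nat_lit 3) (.cons (.br (nat_lit 1) (.cons (.rel (nat_lit 285345792)) (.cons (.rel (nat_lit 285229122)) .nil))) .nil)) .leaf)) (nat_lit 24389524738294422) (.br (nat_lit 1) (.cons (.br (nat_lit 2) (.cons (.rel (nat_lit 83952672)) .nil)) .nil)) (.node (.node (.node .leaf (nat_lit 24389524739402029) (.br (nat_lit 0) (.cons (.br (nat_lit 1) (.cons (.rel (nat_lit 20990016)) (.cons (.rel (nat_lit 21041184)) .nil))) (.cons (.br (nat_lit 1) (.cons (.rel (nat_lit 21004305)) (.cons (.rel (nat_lit 20980740)) .nil))) .nil))) .leaf) (nat_lit 24389524739402489) (.br (nat_lit 0) (.cons (.br (nat_lit 1) (.cons (.rel (nat_lit 22545444)) .nil)) .nil)) .leaf) (nat_lit 24389524739403228) (.br (nat_lit 1) (.cons (.br (nat_lit 2) (.cons (.rel (nat_lit 83952672)) .nil)) .nil)) (.node .leaf (nat_lit 24389524741148853) (.br (nat_lit 2) (.cons (.br (nat_lit 5) (.cons (.rel (nat_lit 4362143232)) .nil)) .nil)) .leaf))))))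

/-- refutations 171 -/
def e171 : EX := (.node (.node (.node (.node (.node (.node (.node .leaf (nat_lit 24389533329337820) (.br (nat_lit 4) (.cons (.br (nat_lit 6) (.cons (.rel (nat_lit 18253874181)) (.cons (.rel (nat_lit 36507746325)) (.cons (.rel (nat_lit 18253611648)) .nil)))) .nil)) .leaf) (nat_lit 24390374726582453) (.br (nat_lit 2) (.cons (.br (nat_lit 3) (.cons (.rel (nat_lit 604013568)) .nil)) .nil)) .leaf) (nat_lit 24390550271897052) (.br (nat_lit 4) (.cons (.br (nat_lit 5) (.cons (.rel (nat_lit 5368709634)) .nil)) .nil)) (.node (.node .leaf (nat_lit 24390550273194246) (.br (nat_lit 0) (.cons (.br (nat_lit 1) (.cons (.rel (nat_lit 25170192)) .nil)) .nil)) .leaf) (nat_lit 24390596047422102) (.br (nat_lit 3) (.cons (.br (nat_lit 5) (.cons (.rel (nat_lit 4564467714)) .nil)) .nil)) .leaf)) (nat_lit 24390596048529589) (.br (nat_lit 3) (.cons (.br (nat_lit 5) (.cons (.rel (nat_lit 4831838289)) .nil)) .nil)) (.node (.node (.node .leaf (nat_lit 24390596048530908) (.br (nat_lit 1) (.cons (.br (nat_lit 3)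 (.cons (.rel (nat_lit 285245445)) (.cons (.rel (nat_lit 285345792)) (.cons (.rel (nat_lit 285246480)) .nil)))) .nil)) .leaf) (nat_lit 24390596050276533) (.br (nat_lit 3) (.cons (.br (nat_lit 5) (.cons (.rel (nat_lit 4831838289)) .nil)) .nil)) .leaf) (nat_lit 24390598065991132) (.br (nat_lit 3) (.cons (.br (nat_lit 5) (.cons (.rel (nat_lit 4831838289)) (.cons (.rel (nat_lit 4563664902)) .nil))) .nil)) (.node .leaf (nat_lit 24394598416985564) (.br (nat_lit 3) (.cons (.br (nat_lit 4) (.cons (.rel (nat_lit 2684356932)) .nil)) .nil)) .leaf))) (nat_lit 24394598417159429) (.br (nat_lit 6) (.cons (.br (nat_lit 1) (.cons (.rel (nat_lit 17196648576)) (.cons (.rel (nat_lit 34393293888)) .nil))) .nil)) (.node (.node (.node (.node .leaf (nat_lit 24394598835656156) (.br (nat_lit 1) (.cons (.br (nat_lit 2) (.cons (.rel (nat_lit 83892228)) .nil)) .nil)) .leaf) (nat_lit 24394598836415126) (.br (nat_lit 1) (.cons (.br (nat_lit 3) (.cons (.br (nat_lit 0) (.cons (.rel (nat_lit 21053448)) (.cons (.rel (nat_lit 272908356)) .nil)))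 .nil)) .nil)) .leaf) (nat_lit 24394598836590044) (.br (nat_lit 0) (.cons (.br (nat_lit 1) (.cons (.rel (nat_lit 20971668)) .nil)) .nil)) (.node (.node .leaf (nat_lit 24394598838111493) (.br (nat_lit 0) (.cons (.br (nat_lit 3) (.cons (.rel (nat_lit 272634369)) .nil)) .nil)) .leaf) (nat_lit 24394598958049461) (.br (nat_lit 3) (.cons (.br (nat_lit 6) (.cons (.rel (nat_lit 34628173857)) .nil)) .nil)) .leaf)) (nat_lit 24394598958050780) (.br (nat_lit 2) (.cons (.br (nat_lit 3) (.cons (.rel (nat_lit 336658500)) (.cons (.rel (nat_lit 402671616)) .nil))) (.cons (.br (nat_lit 4) (.cons (.rel (nat_lit 2214593616)) (.cons (.rel (nat_lit 2214593616)) .nil))) .nil))) (.node (.node (.node .leaf (nat_lit 24394599360702741) (.br (nat_lit 1) (.cons (.br (nat_lit 5) (.cons (.rel (nat_lit 4311842820)) .nil)) .nil)) .leaf) (nat_lit 24394599360703964) (.br (nat_lit 1) (.cons (.br (nat_lit 6) (.cons (.rel (nat_lit 34393293888)) (.cons (.rel (nat_lit 17196728322)) .nil))) .nil)) .leaf) (nat_lit 24394600975511004) (.br (nat_lit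 3) (.cons (.br (nat_lit 5) (.cons (.rel (nat_lit 4564451400)) .nil)) .nil)) (.node .leaf (nat_lit 24394600975916409) (.br (nat_lit 1) (.cons (.br (nat_lit 2) (.cons (.rel (nat_lit 83890194)) .nil)) .nil)) .leaf)))) (nat_lit 24394601385546365) (.br (nat_lit 3) (.cons (.br (nat_lit 4) (.cons (.rel (nat_lit 1342308864)) .nil)) .nil)) (.node (.node (.node (.node (.node .leaf (nat_lit 24394601386777886) (.br (nat_lit 0) (.cons (.br (nat_lit 3) (.cons (.rel (nat_lit 273022992)) .nil)) .nil)) .leaf) (nat_lit 24394601390745877) (.br (nat_lit 1) (.cons (.br (nat_lit 2) (.cons (.rel (nat_lit 83887170)) .nil)) .nil)) .leaf) (nat_lit 24394601390746256) (.br (nat_lit 1) (.cons (.br (nat_lit 2) (.cons (.rel (nat_lit 83887170)) .nil)) .nil)) (.node (.node .leaf (nat_lit 24394601390746881) (.br (nat_lit 2) (.cons (.br (nat_lit 4) (.cons (.rel (nat_lit 2214608904)) .nil)) .nil)) .leaf) (nat_lit 24394601390746885) (.br (nat_lit 0) (.cons (.br (nat_lit 1) (.cons (.rel (nat_lit 20971668)) .nil)) .nil)) .leaf)) (nat_lit 24394601390747100)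 (.br (nat_lit 4) (.cons (.br (nat_lit 5) (.cons (.rel (nat_lit 9663774720)) (.cons (.rel (nat_lit 6442453008)) (.cons (.rel (nat_lit 5369038848)) .nil)))) .nil)) (.node (.node (.node .leaf (nat_lit 24394601390906625) (.br (nat_lit 0) (.cons (.br (nat_lit 3) (.cons (.rel (nat_lit 272634369)) (.cons (.rel (nat_lit 272892033)) (.cons (.rel (nat_lit 272634369)) .nil)))) .nil)) .leaf) (nat_lit 24394601390920965) (.br (nat_lit 0) (.cons (.br (nat_lit 2) (.cons (.rel (nat_lit 75517953)) (.cons (.rel (nat_lit 71632896)) .nil))) (.cons (.br (nat_lit 3) (.cons (.rel (nat_lit 276848640)) (.cons (.rel (nat_lit 541065240)) (.cons (.rel (nat_lit 276825090)) (.cons (.rel (nat_lit 541065240)) .nil))))) .nil))) .leaf) (nat_lit 24394601390971011) (.br (nat_lit 0) (.cons (.br (nat_lit 1) (.cons (.rel (nat_lit 21233922)) .nil)) .nil)) (.node .leaf (nat_lit 24394601390971165) (.br (nat_lit 0) (.cons (.br (nat_lit 4) (.cons (.rel (nat_lit 1078988820)) .nil)) .nil)) .leaf))) (nat_lit 24394601390972190) (.br (nat_lit 0) (.cons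 (.br (nat_lit 4) (.cons (.rel (nat_lit 1078985796)) (.cons (.rel (nat_lit 1078985796)) (.cons (.rel (nat_lit 1082135568)) (.cons (.rel (nat_lit 1078198308)) .nil))))) (.cons (.br (nat_lit 2) (.cons (.rel (nat_lit 138429441)) (.cons (.rel (nat_lit 138477585)) (.cons (.rel (nat_lit 71566404)) .nil)))) (.cons (.br (nat_lit 2) (.cons (.rel (nat_lit 73466112)) (.cons (.rel (nat_lit 71632896)) (.cons (.rel (nat_lit 75563073)) .nil)))) .nil)))) (.node (.node (.node (.node .leaf (nat_lit 24394601391152505) (.br (nat_lit 1) (.cons (.br (nat_lit 2) (.cons (.rel (nat_lit 101187840)) .nil)) .nil)) .leaf) (nat_lit 24394601392033304) (.br (nat_lit 0) (.cons (.br (nat_lit 5) (.cons (.rel (nat_lit 4299423762)) .nil)) .nil)) .leaf) (nat_lit 24394601392044294) (.br (nat_lit 6) (.cons (.br (nat_lit 0) (.cons (.rel (nat_lit 17184325776)) (.cons (.rel (nat_lit 17184325776)) .nil))) .nil)) (.node (.node .leaf (nat_lit 24394601392442000) (.br (nat_lit 0) (.cons (.br (nat_lit 2) (.cons (.rel (nat_lit 138477585)) .nil)) .nil)) .leaf)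 (nat_lit 24394601392492696) (.br (nat_lit 1) (.cons (.br (nat_lit 2) (.cons (.rel (nat_lit 83903493)) .nil)) .nil)) .leaf)) (nat_lit 24394601392492725) (.br (nat_lit 1) (.cons (.br (nat_lit 5) (.cons (.rel (nat_lit 4311781377)) .nil)) .nil)) (.node (.node (.node .leaf (nat_lit 24394601392543875) (.br (nat_lit 5) (.cons (.br (nat_lit 6) (.cons (.rel (nat_lit 21475098645)) (.cons (.rel (nat_lit 38654705730)) (.cons (.rel (nat_lit 21475361088)) (.cons (.rel (nat_lit 21475099680)) (.cons (.rel (nat_lit 21475367184)) .nil)))))) (.cons (.br (nat_lit 0) (.cons (.rel (nat_lit 8594161668)) (.cons (.rel (nat_lit 4299444288)) (.cons (.rel (nat_lit 4299231744)) (.cons (.rel (nat_lit 4299423762)) .nil))))) .nil))) .leaf) (nat_lit 24394601392545054) (.br (nat_lit 0) (.cons (.br (nat_lit 1) (.cons (.rel (nat_lit 20990016)) .nil)) .nil)) .leaf) (nat_lit 24394601392545924) (.br (nat_lit 3) (.cons (.br (nat_lit 2) (.cons (.rel (nat_lit 335545857)) (.cons (.rel (nat_lit 604013568)) .nil))) .nil)) (.node .leaf (nat_lit 24394601910839933)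 (.br (nat_lit 2) (.cons (.br (nat_lit 3) (.cons (.rel (nat_lit 402653268)) .nil)) .nil)) .leaf))))) (nat_lit 24394601912527029) (.br (nat_lit 1) (.cons (.br (nat_lit 3) (.cons (.rel (nat_lit 285245445)) .nil)) .nil)) (.node (.node (.node (.node (.node (.node .leaf (nat_lit 24394847457106680) (.br (nat_lit 1) (.cons (.br (nat_lit 3) (.cons (.rel (nat_lit 570425412)) .nil)) .nil)) .leaf) (nat_lit 24394848066153948) (.br (nat_lit 5) (.cons (.br (nat_lit 2) (.cons (.rel (nat_lit 4362469377)) (.cons (.rel (nat_lit 4362358800)) (.cons (.rel (nat_lit 4362346500)) .nil)))) .nil)) .leaf) (nat_lit 24394848067899573) (.br (nat_lit 3) (.cons (.br (nat_lit 5) (.cons (.rel (nat_lit 9126875520)) .nil)) .nil)) (.node (.node .leaf (nat_lit 24394850083613334) (.br (nat_lit 3) (.cons (.br (nat_lit 6) (.cons (.rel (nat_lit 17448599553)) .nil)) .nil)) .leaf) (nat_lit 24394850083614172) (.br (nat_lit 0) (.cons (.br (nat_lit 2) (.cons (.rel (nat_lit 75579396)) (.cons (.rel (nat_lit 75497616)) (.cons (.rel (nat_lit 138418176))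 .nil)))) .nil)) .leaf)) (nat_lit 24394850497741462) (.br (nat_lit 3) (.cons (.br (nat_lit 0) (.cons (.rel (nat_lit 545263956)) (.cons (.rel (nat_lit 541198416)) .nil))) .nil)) (.node (.node (.node .leaf (nat_lit 24394850498849430) (.br (nat_lit 0) (.cons (.br (nat_lit 6) (.cons (.rel (nat_lit 34363932681)) .nil)) .nil)) .leaf) (nat_lit 24394850498850268) (.br (nat_lit 5) (.cons (.br (nat_lit 3) (.cons (.rel (nat_lit 4563485184)) (.cons (.rel (nat_lit 4563697728)) (.cons (.rel (nat_lit 8858378244)) .nil)))) .nil)) .leaf) (nat_lit 24394850499008672) (.br (nat_lit 0) (.cons (.br (nat_lit 3) (.cons (.rel (nat_lit 541065240)) (.cons (.rel (nat_lit 273711168)) .nil))) (.cons (.br (nat_lit 3) (.cons (.rel (nat_lit 272765520)) (.cons (.rel (nat_lit 272634369)) .nil))) .nil))) (.node .leaf (nat_lit 24394850499009764) (.br (nat_lit 3) (.cons (.br (nat_lit 0) (.cons (.rel (nat_lit 272898129)) (.cons (.rel (nat_lit 273679377)) .nil))) .nil)) .leaf))) (nat_lit 24394850499104030) (.br (nat_lit 3) (.cons (.br (nat_lit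 5) (.cons (.rel (nat_lit 4831903746)) (.cons (.rel (nat_lit 4831838289)) .nil))) .nil)) (.node (.node (.node (.node .leaf (nat_lit 24394850500147462) (.br (nat_lit 4) (.cons (.br (nat_lit 5) (.cons (.rel (nat_lit 10737418497)) .nil)) .nil)) .leaf) (nat_lit 24394850500587680) (.br (nat_lit 1) (.cons (.br (nat_lit 0) (.cons (.rel (nat_lit 20990016)) (.cons (.rel (nat_lit 20990016)) .nil))) .nil)) .leaf) (nat_lit 24394850567412489) (.br (nat_lit 1) (.cons (.br (nat_lit 2) (.cons (.rel (nat_lit 83892228)) .nil)) .nil)) (.node (.node .leaf (nat_lit 24394852591056348) (.br (nat_lit 0) (.cons (.br (nat_lit 1) (.cons (.rel (nat_lit 23396352)) .nil)) .nil)) .leaf) (nat_lit 24394852591807964) (.br (nat_lit 5) (.cons (.br (nat_lit 6) (.cons (.rel (nat_lit 21475950600)) (.cons (.rel (nat_lit 38654705730)) .nil))) (.cons (.br (nat_lit 6) (.cons (.rel (nat_lit 38654710788)) (.cons (.br (nat_lit 0) (.cons (.rel (nat_lit 17184407556)) (.cons (.rel (nat_lit 8594161668)) (.cons (.rel (nat_lit 34363932681)) .nil)))) .nil)))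 .nil))) .leaf)) (nat_lit 24394852593554668) (.br (nat_lit 1) (.cons (.br (nat_lit 5) (.cons (.rel (nat_lit 4311842820)) (.cons (.rel (nat_lit 4311818256)) .nil))) (.cons (.br (nat_lit 5) (.cons (.rel (nat_lit 4311748740)) (.cons (.rel (nat_lit 8623490049)) .nil))) .nil))) (.node (.node (.node .leaf (nat_lit 24395879360512782) (.br (nat_lit 4) (.cons (.br (nat_lit 5) (.cons (.rel (nat_lit 5368972356)) .nil)) .nil)) .leaf) (nat_lit 24395879360555309) (.br (nat_lit 2) (.cons (.br (nat_lit 0) (.cons (.rel (nat_lit 71632896)) (.cons (.rel (nat_lit 138412128)) (.cons (.rel (nat_lit 75497616)) .nil)))) .nil)) .leaf) (nat_lit 24395879361620269) (.br (nat_lit 2) (.cons (.br (nat_lit 4) (.cons (.rel (nat_lit 1141134336)) (.cons (.rel (nat_lit 1141179456)) .nil))) (.cons (.br (nat_lit 4) (.cons (.br (nat_lit 6) (.cons (.rel (nat_lit 34426863696)) (.cons (.rel (nat_lit 17248027776)) (.cons (.br (nat_lit 3) (.cons (.rel (nat_lit 336724992)) (.cons (.rel (nat_lit 335822868)) (.cons (.rel (nat_lit 17448309252)) (.cons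 (.rel (nat_lit 34628173857)) .nil))))) .nil)))) (.cons (.rel (nat_lit 1141900308)) .nil))) .nil))) (.node .leaf (nat_lit 24395879361620630) (.br (nat_lit 0) (.cons (.br (nat_lit 2) (.cons (.rel (nat_lit 75579396)) (.cons (.rel (nat_lit 71632896)) .nil))) .nil)) .leaf)))) (nat_lit 24395879361620729) (.br (nat_lit 1) (.cons (.br (nat_lit 2) (.cons (.rel (nat_lit 101187840)) (.cons (.rel (nat_lit 83904528)) .nil))) .nil)) (.node (.node (.node (.node (.node .leaf (nat_lit 24395879361620750) (.br (nat_lit 2) (.cons (.br (nat_lit 4) (.cons (.rel (nat_lit 1141134336)) .nil)) .nil)) .leaf) (nat_lit 24395879361621468) (.br (nat_lit 4) (.cons (.br (nat_lit 6) (.cons (.rel (nat_lit 18253611648)) (.cons (.rel (nat_lit 18253611648)) .nil))) (.cons (.br (nat_lit 2) (.cons (.rel (nat_lit 2214593616)) (.cons (.rel (nat_lit 1141112964)) (.cons (.rel (nat_lit 1207976001)) .nil)))) .nil))) .leaf) (nat_lit 24395879363367093) (.br (nat_lit 4) (.cons (.br (nat_lit 5) (.cons (.rel (nat_lit 5368987680)) .nil)) .nil)) (.node (.node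 .leaf (nat_lit 24395879363367213) (.br (nat_lit 4) (.cons (.br (nat_lit 6) (.cons (.rel (nat_lit 18253611648)) .nil)) .nil)) .leaf) (nat_lit 24395879363367694) (.br (nat_lit 0) (.cons (.br (nat_lit 6) (.cons (.rel (nat_lit 17188392960)) .nil)) .nil)) .leaf)) (nat_lit 24395879363368412) (.br (nat_lit 3) (.cons (.br (nat_lit 4) (.cons (.rel (nat_lit 1342308864)) .nil)) .nil)) (.node (.node (.node .leaf (nat_lit 24395880874656406) (.br (nat_lit 3) (.cons (.br (nat_lit 4) (.cons (.rel (nat_lit 2415989760)) .nil)) .nil)) .leaf) (nat_lit 24395880875763893) (.br (nat_lit 3) (.cons (.br (nat_lit 4) (.cons (.rel (nat_lit 2415989760)) .nil)) .nil)) .leaf) (nat_lit 24395880875764013) (.br (nat_lit 2) (.cons (.br (nat_lit 4) (.cons (.rel (nat_lit 1207992324)) .nil)) .nil)) (.node .leaf (nat_lit 24395880875764494) (.br (nat_lit 2) (.cons (.br (nat_lit 5) (.cons (.rel (nat_lit 8657109000)) .nil)) .nil)) .leaf))) (nat_lit 24395880875765212) (.br (nat_lit 6) (.cons (.br (nat_lit 5) (.cons (.rel (nat_lit 42949677312)) (.cons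 (.rel (nat_lit 21475098645)) (.cons (.rel (nat_lit 21474845184)) .nil)))) (.cons (.br (nat_lit 2) (.cons (.rel (nat_lit 34426851396)) (.cons (.rel (nat_lit 34426929153)) (.cons (.rel (nat_lit 17314152468)) .nil)))) .nil))) (.node (.node (.node (.node .leaf (nat_lit 24395880877510837) (.br (nat_lit 3) (.cons (.br (nat_lit 5) (.cons (.rel (nat_lit 4831838289)) .nil)) .nil)) .leaf) (nat_lit 24395880877510957) (.br (nat_lit 3) (.cons (.br (nat_lit 5) (.cons (.rel (nat_lit 4563664902)) .nil)) .nil)) .leaf) (nat_lit 24395880877511438) (.br (nat_lit 0) (.cons (.br (nat_lit 2) (.cons (.rel (nat_lit 75579396)) .nil)) .nil)) (.node (.node .leaf (nat_lit 24395880877511916) (.br (nat_lit 4) (.cons (.br (nat_lit 5) (.cons (.rel (nat_lit 5369038848)) .nil)) .nil)) .leaf) (nat_lit 24395880877512156) (.br (nat_lit 3) (.cons (.br (nat_lit 5) (.cons (.br (nat_lit 4) (.cons (.rel (nat_lit 1343229960)) (.cons (.rel (nat_lit 9663677472)) .nil))) .nil)) .nil)) .leaf)) (nat_lit 24395883382850796) (.br (nat_lit 0) (.cons (.br (nat_lit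 4) (.cons (.rel (nat_lit 1082135568)) .nil)) .nil)) (.node (.node (.node .leaf (nat_lit 24395883383959004) (.br (nat_lit 4) (.cons (.br (nat_lit 6) (.cons (.rel (nat_lit 18253611648)) .nil)) .nil)) .leaf) (nat_lit 24395883385705230) (.br (nat_lit 0) (.cons (.br (nat_lit 2) (.cons (.rel (nat_lit 71569428)) .nil)) .nil)) .leaf) (nat_lit 24395883385705708) (.br (nat_lit 3) (.cons (.br (nat_lit 4) (.cons (.rel (nat_lit 1342308864)) .nil)) .nil)) (.node .leaf (nat_lit 24395883385705948) (.br (nat_lit 3) (.cons (.br (nat_lit 4) (.cons (.rel (nat_lit 1343229960)) .nil)) .nil)) .leaf))))))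

/-- refutations 172 -/
def e172 : EX := (.node (.node (.node (.node .leaf (nat_lit 24629286637689508) (.br (nat_lit 3) (.cons (.br (nat_lit 0) (.cons (.rel (nat_lit 541065240)) (.cons (.rel (nat_lit 272892033)) .nil))) .nil)) .leaf) (nat_lit 24630627613543302) (.br (nat_lit 0) (.cons (.br (nat_lit 2) (.cons (.rel (nat_lit 75579396)) .nil)) .nil)) (.node .leaf (nat_lit 24631654651865223) (.br (nat_lit 0) (.cons (.br (nat_lit 2) (.cons (.rel (nat_lit 142606593)) .nil)) .nil)) .leaf)) (nat_lit 24631654653082407) (.br (nat_lit 5) (.cons (.br (nat_lit 6) (.cons (.rel (nat_lit 25769934864)) .nil)) .nil)) (.node (.node .leaf (nat_lit 24631659908546012) (.br (nat_lit 2) (.cons (.br (nat_lit 3) (.cons (.rel (nat_lit 335822868)) .nil)) .nil)) .leaf) (nat_lit 24634515100644828) (.br (nat_lit 0) (.cons (.br (nat_lit 3) (.cons (.rel (nat_lit 272974848)) .nil)) .nil)) (.node .leaf (nat_lit 24634515101394456) (.br (nat_lit 0) (.cons (.br (nat_lit 3) (.cons (.rel (nat_lit 272974848)) .nil)) .nil)) .leaf))) (nat_lit 24634515103083402)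 (.br (nat_lit 0) (.cons (.br (nat_lit 5) (.cons (.rel (nat_lit 8594137104)) .nil)) .nil)) (.node (.node (.node .leaf (nat_lit 24634515103105926) (.br (nat_lit 0) (.cons (.br (nat_lit 1) (.cons (.rel (nat_lit 20975682)) .nil)) .nil)) .leaf) (nat_lit 24634520460354442) (.br (nat_lit 0) (.cons (.br (nat_lit 6) (.cons (.rel (nat_lit 17184325776)) (.cons (.rel (nat_lit 17184407556)) .nil))) .nil)) (.node .leaf (nat_lit 24634521616633368) (.br (nat_lit 1) (.cons (.br (nat_lit 0) (.cons (.rel (nat_lit 20975682)) (.cons (.rel (nat_lit 21004305)) .nil))) .nil)) .leaf)) (nat_lit 24634948350643078) (.br (nat_lit 3) (.cons (.br (nat_lit 4) (.cons (.rel (nat_lit 2415989760)) .nil)) .nil)) (.node (.node .leaf (nat_lit 24634949853494748) (.br (nat_lit 0) (.cons (.br (nat_lit 3) (.cons (.rel (nat_lit 272892033)) .nil)) .nil)) .leaf) (nat_lit 24635588961857692) (.br (nat_lit 0) (.cons (.br (nat_lit 5) (.cons (.rel (nat_lit 8594161668)) .nil)) .nil)) (.node .leaf (nat_lit 24635589991074694) (.br (nat_lit 1) (.cons (.br (nat_lit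 3) (.cons (.rel (nat_lit 285217857)) .nil)) .nil)) .leaf))))

/-- refutations 173 -/
def e173 : EX := (.node (.node (.node (.node (.node .leaf (nat_lit 24637008988323292) (.br (nat_lit 0) (.cons (.br (nat_lit 3) (.cons (.rel (nat_lit 541102080)) .nil)) .nil)) .leaf) (nat_lit 24637067024906247) (.br (nat_lit 1) (.cons (.br (nat_lit 2) (.cons (.rel (nat_lit 83904528)) .nil)) .nil)) .leaf) (nat_lit 24640889441187992) (.br (nat_lit 3) (.cons (.br (nat_lit 6) (.cons (.br (nat_lit 4) (.cons (.rel (nat_lit 18254659680)) (.cons (.rel (nat_lit 18253881408)) .nil))) (.cons (.rel (nat_lit 34628173857)) .nil))) .nil)) (.node .leaf (nat_lit 24640889442275604) (.br (nat_lit 0) (.cons (.br (nat_lit 1) (.cons (.rel (nat_lit 20975682)) .nil)) .nil)) .leaf)) (nat_lit 24640889442335025) (.br (nat_lit 0) (.cons (.br (nat_lit 1) (.cons (.rel (nat_lit 21004305)) .nil)) .nil)) (.node (.node (.node .leaf (nat_lit 24640891640283942) (.br (nat_lit 1) (.cons (.br (nat_lit 2) (.cons (.rel (nat_lit 83890194)) .nil)) .nil)) .leaf) (nat_lit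 24640891640562945) (.br (nat_lit 0) (.cons (.br (nat_lit 1) (.cons (.rel (nat_lit 21037125)) .nil)) .nil)) .leaf) (nat_lit 24640958195777817) (.br (nat_lit 0) (.cons (.br (nat_lit 1) (.cons (.rel (nat_lit 21004305)) .nil)) .nil)) (.node .leaf (nat_lit 24640958195778817) (.br (nat_lit 0) (.cons (.br (nat_lit 1) (.cons (.rel (nat_lit 20980740)) .nil)) .nil)) .leaf))) (nat_lit 24641137932484060) (.br (nat_lit 2) (.cons (.br (nat_lit 1) (.cons (.rel (nat_lit 151257600)) (.cons (.rel (nat_lit 167854080)) .nil))) .nil)) (.node (.node (.node (.node .leaf (nat_lit 24641137933863214) (.br (nat_lit 0) (.cons (.br (nat_lit 2) (.cons (.rel (nat_lit 142606593)) .nil)) .nil)) .leaf) (nat_lit 24641137934028252) (.br (nat_lit 0) (.cons (.br (nat_lit 1) (.cons (.rel (nat_lit 38010885)) .nil)) .nil)) .leaf) (nat_lit 24641137934028805) (.br (nat_lit 2) (.cons (.br (nat_lit 3) (.cons (.rel (nat_lit 336658500)) .nil)) .nil)) (.node .leaf (nat_lit 24641137934317729) (.br (nat_lit 0) (.cons (.br (nat_lit 1) (.cons (.rel (nat_lit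 20975682)) .nil)) .nil)) .leaf)) (nat_lit 24641140553924060) (.br (nat_lit 5) (.cons (.br (nat_lit 0) (.cons (.rel (nat_lit 4299423762)) (.cons (.rel (nat_lit 4299425796)) .nil))) .nil)) (.node (.node (.node .leaf (nat_lit 24641140555704455) (.br (nat_lit 0) (.cons (.br (nat_lit 1) (.cons (.rel (nat_lit 20971668)) .nil)) .nil)) .leaf) (nat_lit 24641141099183580) (.br (nat_lit 2) (.cons (.br (nat_lit 3) (.cons (.rel (nat_lit 335810568)) (.cons (.rel (nat_lit 402653268)) .nil))) (.cons (.br (nat_lit 4) (.cons (.rel (nat_lit 1207961760)) (.cons (.rel (nat_lit 2214592581)) (.cons (.rel (nat_lit 1141134336)) .nil)))) .nil))) .leaf) (nat_lit 24641141099437284) (.br (nat_lit 1) (.cons (.br (nat_lit 5) (.cons (.rel (nat_lit 4311770112)) .nil)) .nil)) (.node .leaf (nat_lit 24641144348854954) (.br (nat_lit 1) (.cons (.br (nat_lit 2) (.cons (.rel (nat_lit 83952672)) .nil)) .nil)) .leaf))))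

/-- refutations 175 -/
def e175 : EX := (.node (.node (.node .leaf (nat_lit 24371073555703322) (.br (nat_lit 2) (.cons (.br (nat_lit 3) (.cons (.rel (nat_lit 335810568)) .nil)) .nil)) .leaf) (nat_lit 24371073555908734) (.br (nat_lit 4) (.cons (.br (nat_lit 0) (.cons (.rel (nat_lit 1078267968)) (.cons (.rel (nat_lit 1079001120)) .nil))) .nil)) (.node .leaf (nat_lit 24371707091675897) (.br (nat_lit 1) (.cons (.br (nat_lit 3) (.cons (.rel (nat_lit 285212808)) .nil)) .nil)) .leaf)) (nat_lit 24376998179369087) (.br (nat_lit 0) (.cons (.br (nat_lit 1) (.cons (.rel (nat_lit 20975682)) .nil)) .nil)) (.node (.node .leaf (nat_lit 24377001139001521) (.br (nat_lit 0) (.cons (.br (nat_lit 1) (.cons (.rel (nat_lit 20990016)) .nil)) .nil)) .leaf) (nat_lit 24377258311932664) (.br (nat_lit 3) (.cons (.br (nat_lit 4) (.cons (.rel (nat_lit 1343225937)) .nil)) .nil)) (.node .leaf (nat_lit 24378598934157472) (.br (nat_lit 0) (.cons (.br (nat_lit 1) (.cons (.rel (nat_lit 25170192)) .nil)) .nil)) .leaf)))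

/-- refutations 176 -/
def e176 : EX := (.node .leaf (nat_lit 24805248632903932) (.br (nat_lit 0) (.cons (.br (nat_lit 1) (.cons (.rel (nat_lit 20990016)) .nil)) .nil)) .leaf)

/-- refutations 177 -/
def e177 : EX := (.node .leaf (nat_lit 24812813154194695) (.br (nat_lit 0) (.cons (.br (nat_lit 1) (.cons (.rel (nat_lit 20990016)) .nil)) .nil)) .leaf)

/-- refutations 178 -/
def e178 : EX := (.node (.node (.node (.node (.node .leaf (nat_lit 24823668689454556) (.br (nat_lit 1) (.cons (.br (nat_lit 3) (.cons (.rel (nat_lit 553648449)) .nil)) .nil)) .leaf) (nat_lit 24824811708484486) (.br (nat_lit 1) (.cons (.br (nat_lit 0) (.cons (.rel (nat_lit 20975682)) (.cons (.rel (nat_lit 22086912)) .nil))) .nil)) .leaf) (nat_lit 24824811708491953) (.br (nat_lit 0) (.cons (.br (nat_lit 1) (.cons (.rel (nat_lit 21053448)) .nil)) .nil)) (.node (.node .leaf (nat_lit 24824811708492686) (.br (nat_lit 1) (.cons (.br (nat_lit 0) (.cons (.rel (nat_lit 20971668)) (.cons (.rel (nat_lit 20987994)) (.cons (.rel (nat_lit 20992005))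 .nil)))) .nil)) .leaf) (nat_lit 24824811709765908) (.br (nat_lit 0) (.cons (.br (nat_lit 6) (.cons (.rel (nat_lit 17184391233)) .nil)) .nil)) .leaf)) (nat_lit 24824811710042268) (.br (nat_lit 1) (.cons (.br (nat_lit 4) (.cons (.rel (nat_lit 1090527300)) .nil)) .nil)) (.node (.node (.node .leaf (nat_lit 24824813264571270) (.br (nat_lit 1) (.cons (.br (nat_lit 2) (.cons (.rel (nat_lit 83890194)) .nil)) .nil)) .leaf) (nat_lit 24825206223604997) (.br (nat_lit 0) (.cons (.br (nat_lit 2) (.cons (.rel (nat_lit 71303682)) .nil)) .nil)) .leaf) (nat_lit 24825215318082473) (.br (nat_lit 0) (.cons (.br (nat_lit 4) (.cons (.rel (nat_lit 1078199298)) (.cons (.rel (nat_lit 1079001120)) (.cons (.rel (nat_lit 1079001120)) .nil)))) .nil)) (.node (.node .leaf (nat_lit 24825215318082841) (.br (nat_lit 1) (.cons (.br (nat_lit 3) (.cons (.rel (nat_lit 285246480)) .nil)) .nil)) .leaf) (nat_lit 24825215318083036) (.br (nat_lit 3) (.cons (.br (nat_lit 4) (.cons (.rel (nat_lit 2684420352)) .nil)) .nil)) .leaf))) (nat_lit 24825215319505806)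 (.br (nat_lit 1) (.cons (.br (nat_lit 2) (.cons (.rel (nat_lit 83910720)) .nil)) .nil)) (.node (.node (.node (.node .leaf (nat_lit 24825215319528306) (.br (nat_lit 0) (.cons (.br (nat_lit 1) (.cons (.rel (nat_lit 20990016)) .nil)) .nil)) .leaf) (nat_lit 24825215319528729) (.br (nat_lit 1) (.cons (.br (nat_lit 2) (.cons (.rel (nat_lit 83887170)) .nil)) .nil)) .leaf) (nat_lit 24825215320793740) (.br (nat_lit 2) (.cons (.br (nat_lit 6) (.cons (.rel (nat_lit 17247246336)) .nil)) .nil)) (.node (.node .leaf (nat_lit 24825215321163033) (.br (nat_lit 1) (.cons (.br (nat_lit 5) (.cons (.rel (nat_lit 4312006980)) (.cons (.rel (nat_lit 8623490049)) .nil))) .nil)) .leaf) (nat_lit 24828031894136169) (.br (nat_lit 0) (.cons (.br (nat_lit 2) (.cons (.rel (nat_lit 138412128)) .nil)) .nil)) .leaf)) (nat_lit 24828034509901061) (.br (nat_lit 3) (.cons (.br (nat_lit 4) (.cons (.br (nat_lit 0) (.cons (.rel (nat_lit 1078199298)) (.cons (.rel (nat_lit 1078222848)) (.cons (.rel (nat_lit 1077953088)) .nil)))) (.cons (.rel (nat_lit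 1610616849)) .nil))) (.cons (.br (nat_lit 4) (.cons (.rel (nat_lit 1342308864)) (.cons (.rel (nat_lit 1342439448)) .nil))) .nil))) (.node (.node (.node .leaf (nat_lit 24829240971882528) (.br (nat_lit 0) (.cons (.br (nat_lit 4) (.cons (.rel (nat_lit 1082134533)) .nil)) .nil)) .leaf) (nat_lit 24833366726778332) (.br (nat_lit 0) (.cons (.br (nat_lit 1) (.cons (.rel (nat_lit 20971668)) .nil)) .nil)) .leaf) (nat_lit 24833366727135408) (.br (nat_lit 0) (.cons (.br (nat_lit 1) (.cons (.rel (nat_lit 21004305)) .nil)) .nil)) (.node (.node .leaf (nat_lit 24833369464887948) (.br (nat_lit 0) (.cons (.br (nat_lit 1) (.cons (.rel (nat_lit 21053448)) .nil)) .nil)) .leaf) (nat_lit 24833530078141227) (.br (nat_lit 2) (.cons (.br (nat_lit 4) (.cons (.rel (nat_lit 1141145601)) (.cons (.rel (nat_lit 1141145601)) .nil))) .nil)) .leaf))))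

/-- refutations 179 -/
def e179 : EX := (.node (.node (.node (.node (.node .leaf (nat_lit 24834402985904284) (.br (nat_lit 0) (.cons (.br (nat_lit 4) (.cons (.rel (nat_lit 1082195976)) .nil)) .nil)) .leaf) (nat_lit 24834406665446286) (.br (nat_lit 0) (.cons (.br (nat_lit 2) (.cons (.rel (nat_lit 71303682)) .nil)) .nil)) .leaf) (nat_lit 24834408224591109) (.br (nat_lit 2) (.cons (.br (nat_lit 3) (.cons (.rel (nat_lit 336625680)) .nil)) .nil)) (.node .leaf (nat_lit 24834472239806496) (.br (nat_lit 0) (.cons (.br (nat_lit 1) (.cons (.rel (nat_lit 21004305)) .nil)) .nil)) .leaf)) (nat_lit 24834472240455132) (.br (nat_lit 2) (.cons (.br (nat_lit 4) (.cons (.rel (nat_lit 1141179456)) (.cons (.rel (nat_lit 2214659073)) .nil))) .nil)) (.node (.node .leaf (nat_lit 24834472240707736) (.br (nat_lit 3) (.cons (.br (nat_lit 1) (.cons (.rel (nat_lit 285245445)) (.cons (.rel (nat_lit 285220881)) .nil))) .nil)) .leaf) (nat_lit 24834472240708971) (.br (nat_lit 0) (.cons (.br (nat_lit 1) (.cons (.rel (nat_lit 20980740))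 .nil)) .nil)) (.node .leaf (nat_lit 24834472240984096) (.br (nat_lit 1) (.cons (.br (nat_lit 3) (.cons (.rel (nat_lit 285217857)) (.cons (.rel (nat_lit 285220881)) .nil))) .nil)) .leaf))) (nat_lit 24834472242010163) (.br (nat_lit 0) (.cons (.br (nat_lit 3) (.cons (.rel (nat_lit 272634369)) .nil)) .nil)) (.node (.node (.node .leaf (nat_lit 24834472242049056) (.br (nat_lit 1) (.cons (.br (nat_lit 5) (.cons (.rel (nat_lit 4311745572)) .nil)) .nil)) .leaf) (nat_lit 24834472242267393) (.br (nat_lit 0) (.cons (.br (nat_lit 1) (.cons (.rel (nat_lit 21004305)) (.cons (.rel (nat_lit 21053448)) .nil))) (.cons (.br (nat_lit 1) (.cons (.rel (nat_lit 20971668)) (.cons (.rel (nat_lit 20971668)) .nil))) .nil))) (.node .leaf (nat_lit 24834658509756576) (.br (nat_lit 0) (.cons (.br (nat_lit 1) (.cons (.rel (nat_lit 20975682)) .nil)) .nil)) .leaf)) (nat_lit 24834832881195670) (.br (nat_lit 1) (.cons (.br (nat_lit 2) (.cons (.rel (nat_lit 83886180)) .nil)) .nil)) (.node (.node .leaf (nat_lit 24835468135996054) (.br (nat_lit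 0) (.cons (.br (nat_lit 1) (.cons (.rel (nat_lit 21037125)) .nil)) .nil)) .leaf) (nat_lit 24835468137592171) (.br (nat_lit 0) (.cons (.br (nat_lit 1) (.cons (.rel (nat_lit 21037125)) .nil)) .nil)) (.node .leaf (nat_lit 24835685631629588) (.br (nat_lit 1) (.cons (.br (nat_lit 4) (.cons (.rel (nat_lit 1090519074)) .nil)) .nil)) .leaf))))

/-- refutations 180 -/
def e180 : EX := (.node (.node (.node (.node .leaf (nat_lit 24734891320046868) (.br (nat_lit 3) (.cons (.br (nat_lit 5) (.cons (.rel (nat_lit 4563673176)) .nil)) .nil)) .leaf) (nat_lit 24740498213718142) (.br (nat_lit 4) (.cons (.br (nat_lit 5) (.cons (.rel (nat_lit 9663774720)) .nil)) .nil)) (.node .leaf (nat_lit 24740498214944220) (.br (nat_lit 0) (.cons (.br (nat_lit 3) (.cons (.rel (nat_lit 273711168)) .nil)) .nil)) .leaf)) (nat_lit 24740498215263489) (.br (nat_lit 1) (.cons (.br (nat_lit 0) (.cons (.rel (nat_lit 20990016)) (.cons (.rel (nat_lit 20980740)) .nil))) .nil)) (.node (.node .leaf (nat_lit 24740498215312670) (.br (nat_lit 1) (.cons (.br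 (nat_lit 3) (.cons (.rel (nat_lit 285294624)) .nil)) .nil)) .leaf) (nat_lit 24740504123207132) (.br (nat_lit 0) (.cons (.br (nat_lit 3) (.cons (.rel (nat_lit 541065240)) .nil)) .nil)) .leaf)) (nat_lit 24741323626254972) (.br (nat_lit 0) (.cons (.br (nat_lit 5) (.cons (.rel (nat_lit 4299231744)) .nil)) .nil)) (.node (.node (.node .leaf (nat_lit 24741328756926475) (.br (nat_lit 0) (.cons (.br (nat_lit 1) (.cons (.rel (nat_lit 21038160)) .nil)) .nil)) .leaf) (nat_lit 24741363116666113) (.br (nat_lit 0) (.cons (.br (nat_lit 1) (.cons (.rel (nat_lit 21004305)) .nil)) .nil)) .leaf) (nat_lit 24741363116666332) (.br (nat_lit 0) (.cons (.br (nat_lit 3) (.cons (.rel (nat_lit 541065240)) .nil)) .nil)) (.node (.node .leaf (nat_lit 24747724682287266) (.br (nat_lit 0) (.cons (.br (nat_lit 4) (.cons (.rel (nat_lit 1078199298)) .nil)) .nil)) .leaf) (nat_lit 24747727276731649) (.br (nat_lit 2) (.cons (.br (nat_lit 6) (.cons (.rel (nat_lit 17314088001)) .nil)) .nil)) .leaf)))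

/-- refutations 181 -/
def e181 : EX := (.node .leaf (nat_lit 24846921028277106) (.br (nat_lit 0) (.cons (.br (nat_lit 1) (.cons (.rel (nat_lit 21233922)) .nil)) .nil)) .leaf)

/-- refutations 182 -/
def e182 : EX := (.node (.node (.node .leaf (nat_lit 25105189884427740) (.br (nat_lit 1) (.cons (.br (nat_lit 2) (.cons (.rel (nat_lit 83904528)) (.cons (.rel (nat_lit 83886180)) (.cons (.rel (nat_lit 101713920)) .nil)))) (.cons (.br (nat_lit 4) (.cons (.br (nat_lit 3) (.cons (.rel (nat_lit 2416001025)) (.cons (.rel (nat_lit 1610616849)) .nil))) (.cons (.rel (nat_lit 1090519074)) (.cons (.rel (nat_lit 1090519074)) .nil)))) .nil))) .leaf) (nat_lit 25106219607030566) (.br (nat_lit 2) (.cons (.br (nat_lit 3) (.cons (.rel (nat_lit 335806545)) .nil)) .nil)) (.node .leaf (nat_lit 25106285516323626) (.br (nat_lit 0) (.cons (.br (nat_lit 1) (.cons (.rel (nat_lit 20980740)) .nil)) .nil)) .leaf)) (nat_lit 25106424192905403) (.br (nat_lit 0) (.cons (.br (nat_lit 3) (.cons (.rel (nat_lit 272908356)) .nil)) .nil)) (.node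 (.node .leaf (nat_lit 25111663985589724) (.br (nat_lit 0) (.cons (.br (nat_lit 2) (.cons (.rel (nat_lit 71581728)) .nil)) .nil)) .leaf) (nat_lit 25111664051992028) (.br (nat_lit 0) (.cons (.br (nat_lit 2) (.cons (.rel (nat_lit 71303682)) .nil)) .nil)) .leaf))

/-- refutations 183 -/
def e183 : EX := (.node (.node (.node .leaf (nat_lit 25116084723585200) (.br (nat_lit 1) (.cons (.br (nat_lit 3) (.cons (.rel (nat_lit 285229122)) (.cons (.rel (nat_lit 285229122)) (.cons (.rel (nat_lit 285229122)) .nil)))) (.cons (.br (nat_lit 3) (.cons (.rel (nat_lit 285217857)) (.cons (.rel (nat_lit 285217857)) (.cons (.rel (nat_lit 570425412)) .nil)))) (.cons (.br (nat_lit 3) (.cons (.rel (nat_lit 285212808)) (.cons (.rel (nat_lit 285220881)) (.cons (.rel (nat_lit 285212808)) .nil)))) .nil)))) .leaf) (nat_lit 25116307575045596) (.br (nat_lit 4) (.cons (.br (nat_lit 6) (.cons (.rel (nat_lit 18253874181)) .nil)) .nil)) .leaf) (nat_lit 25117160348351126) (.br (nat_lit 3) (.cons (.br (nat_lit 4) (.cons (.rel (nat_lit 1610616849))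 .nil)) .nil)) (.node .leaf (nat_lit 25117160348351964) (.br (nat_lit 1) (.cons (.br (nat_lit 6) (.cons (.rel (nat_lit 17196728322)) .nil)) .nil)) .leaf))

/-- refutations 184 -/
def e184 : EX := (.node (.node (.node .leaf (nat_lit 25175719092947846) (.br (nat_lit 1) (.cons (.br (nat_lit 3) (.cons (.rel (nat_lit 285220881)) .nil)) .nil)) .leaf) (nat_lit 25176620634779684) (.br (nat_lit 0) (.cons (.br (nat_lit 3) (.cons (.rel (nat_lit 276825090)) .nil)) .nil)) .leaf) (nat_lit 25176620634780454) (.br (nat_lit 0) (.cons (.br (nat_lit 6) (.cons (.rel (nat_lit 17184334848)) .nil)) .nil)) (.node .leaf (nat_lit 25180108150056224) (.br (nat_lit 0) (.cons (.br (nat_lit 4) (.cons (.rel (nat_lit 1077953088)) .nil)) .nil)) .leaf))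

/-- refutations 185 -/
def e185 : EX := (.node (.node .leaf (nat_lit 25186246721844760) (.br (nat_lit 3) (.cons (.br (nat_lit 6) (.cons (.rel (nat_lit 17448599553)) .nil)) .nil)) .leaf) (nat_lit 25186246723675424) (.br (nat_lit 2) (.cons (.br (nat_lit 4) (.cons (.rel (nat_lit 2214593616)) .nil)) .nil)) (.node .leaf (nat_lit 25186453467762864) (.br (nat_lit 1) (.cons (.br (nat_lit 6) (.cons (.rel (nat_lit 17196648576)) .nil)) .nil)) .leaf))

/-- refutations 186 -/
def e186 : EX := (.node (.node (.node (.node (.node .leaf (nat_lit 25194209648679093) (.br (nat_lit 0) (.cons (.br (nat_lit 3) (.cons (.rel (nat_lit 273022992)) .nil)) .nil)) .leaf) (nat_lit 25194209649210844) (.br (nat_lit 0) (.cons (.br (nat_lit 2) (.cons (.rel (nat_lit 71632896)) .nil)) .nil)) .leaf) (nat_lit 25194209649927644) (.br (nat_lit 1) (.cons (.br (nat_lit 3) (.cons (.rel (nat_lit 285220881)) .nil)) .nil)) (.node .leaf (nat_lit 25194209649930292) (.br (nat_lit 1) (.cons (.br (nat_lit 3) (.cons (.rel (nat_lit 285212808)) .nil)) .nil))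 .leaf)) (nat_lit 25194209649931742) (.br (nat_lit 3) (.cons (.br (nat_lit 5) (.cons (.rel (nat_lit 4564451400)) .nil)) .nil)) (.node (.node (.node .leaf (nat_lit 25194210112562654) (.br (nat_lit 0) (.cons (.br (nat_lit 1) (.cons (.rel (nat_lit 25170192)) .nil)) .nil)) .leaf) (nat_lit 25194212168027489) (.br (nat_lit 0) (.cons (.br (nat_lit 3) (.cons (.rel (nat_lit 272908356)) .nil)) .nil)) .leaf) (nat_lit 25194215735145948) (.br (nat_lit 0) (.cons (.br (nat_lit 1) (.cons (.rel (nat_lit 20980740)) .nil)) .nil)) (.node .leaf (nat_lit 25194215740060454) (.br (nat_lit 0) (.cons (.br (nat_lit 1) (.cons (.rel (nat_lit 20975682)) .nil)) .nil)) .leaf))) (nat_lit 25194215740061150) (.br (nat_lit 0) (.cons (.br (nat_lit 1) (.cons (.rel (nat_lit 20971668)) .nil)) .nil)) (.node (.node (.node (.node .leaf (nat_lit 25194604786205449) (.br (nat_lit 0) (.cons (.br (nat_lit 2) (.cons (.rel (nat_lit 142606593)) .nil)) .nil)) .leaf) (nat_lit 25194604786206203) (.br (nat_lit 0) (.cons (.br (nat_lit 2) (.cons (.rel (nat_lit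 142606593)) .nil)) .nil)) .leaf) (nat_lit 25194604786950921) (.br (nat_lit 5) (.cons (.br (nat_lit 0) (.cons (.rel (nat_lit 4299440277)) (.cons (.rel (nat_lit 4299423762)) (.cons (.rel (nat_lit 4299425796)) .nil)))) .nil)) (.node .leaf (nat_lit 25194604787112096) (.br (nat_lit 2) (.cons (.br (nat_lit 3) (.cons (.rel (nat_lit 402671616)) .nil)) .nil)) .leaf)) (nat_lit 25194604788402226) (.br (nat_lit 0) (.cons (.br (nat_lit 3) (.cons (.rel (nat_lit 276824100)) .nil)) .nil)) (.node (.node (.node .leaf (nat_lit 25194607353832199) (.br (nat_lit 2) (.cons (.br (nat_lit 5) (.cons (.rel (nat_lit 8657059857)) .nil)) .nil)) .leaf) (nat_lit 25199613181904129) (.br (nat_lit 0) (.cons (.br (nat_lit 3) (.cons (.rel (nat_lit 272634369)) .nil)) .nil)) .leaf) (nat_lit 25199616224129705) (.br (nat_lit 0) (.cons (.br (nat_lit 2) (.cons (.rel (nat_lit 138429441)) .nil)) .nil)) (.node .leaf (nat_lit 25199616225256201) (.br (nat_lit 0) (.cons (.br (nat_lit 1) (.cons (.rel (nat_lit 21037125)) .nil)) .nil)) .leaf))))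

/-- refutations 187 -/
def e187 : EX := (.node (.node (.node (.node .leaf (nat_lit 25199958883082421) (.br (nat_lit 0) (.cons (.br (nat_lit 3) (.cons (.rel (nat_lit 541147200)) .nil)) .nil)) .leaf) (nat_lit 25203838966607924) (.br (nat_lit 2) (.cons (.br (nat_lit 4) (.cons (.rel (nat_lit 1140855300)) .nil)) .nil)) (.node .leaf (nat_lit 25203838968088626) (.br (nat_lit 1) (.cons (.br (nat_lit 3) (.cons (.rel (nat_lit 285212808)) .nil)) .nil)) .leaf)) (nat_lit 25204088073991644) (.br (nat_lit 1) (.cons (.br (nat_lit 2) (.cons (.rel (nat_lit 83887170)) .nil)) .nil)) (.node (.node .leaf (nat_lit 25204088074706994) (.br (nat_lit 0) (.cons (.br (nat_lit 1) (.cons (.rel (nat_lit 20971668)) .nil)) .nil)) .leaf) (nat_lit 25204088076429493) (.br (nat_lit 0) (.cons (.br (nat_lit 1) (.cons (.rel (nat_lit 20993040)) .nil)) .nil)) .leaf)) (nat_lit 25204088624162268) (.br (nat_lit 0) (.cons (.br (nat_lit 3) (.cons (.rel (nat_lit 276848640)) (.cons (.rel (nat_lit 272695812)) .nil))) .nil)) (.node (.node (.node .leaf (nat_lit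 25204088625369393) (.br (nat_lit 0) (.cons (.br (nat_lit 3) (.cons (.rel (nat_lit 272908356)) .nil)) .nil)) .leaf) (nat_lit 25204088625883317) (.br (nat_lit 0) (.cons (.br (nat_lit 1) (.cons (.rel (nat_lit 20990016)) .nil)) .nil)) .leaf) (nat_lit 25204090641622492) (.br (nat_lit 3) (.cons (.br (nat_lit 0) (.cons (.rel (nat_lit 272634369)) (.cons (.rel (nat_lit 541147200)) .nil))) .nil)) (.node (.node .leaf (nat_lit 25204090643343541) (.br (nat_lit 0) (.cons (.br (nat_lit 5) (.cons (.rel (nat_lit 4300276752)) .nil)) .nil)) .leaf) (nat_lit 25204091124161764) (.br (nat_lit 0) (.cons (.br (nat_lit 3) (.cons (.rel (nat_lit 272974848)) .nil)) .nil)) .leaf)))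

/-- refutations 189 -/
def e189 : EX := (.node (.node (.node .leaf (nat_lit 25246987171512445) (.br (nat_lit 3) (.cons (.br (nat_lit 6) (.cons (.rel (nat_lit 17449354260)) .nil)) .nil)) .leaf) (nat_lit 25246989395712810) (.br (nat_lit 0) (.cons (.br (nat_lit 3) (.cons (.rel (nat_lit 273679377)) .nil)) .nil)) .leaf) (nat_lit 25246989395712926) (.br (nat_lit 0) (.cons (.br (nat_lit 4) (.cons (.rel (nat_lit 1077953088)) .nil)) .nil)) (.node (.node .leaf (nat_lit 25250468319171247) (.br (nat_lit 1) (.cons (.br (nat_lit 3) (.cons (.rel (nat_lit 285229122)) .nil)) .nil)) .leaf) (nat_lit 25250468319787918) (.br (nat_lit 1) (.cons (.br (nat_lit 3) (.cons (.rel (nat_lit 303104016)) .nil)) .nil)) .leaf))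

/-- refutations 190 -/
def e190 : EX := (.node (.node (.node .leaf (nat_lit 25251765400892174) (.br (nat_lit 1) (.cons (.br (nat_lit 2) (.cons (.rel (nat_lit 83892228)) .nil)) .nil)) .leaf) (nat_lit 25252836296631559) (.br (nat_lit 0) (.cons (.br (nat_lit 2) (.cons (.rel (nat_lit 73466112)) .nil)) .nil)) .leaf) (nat_lit 25256824871130025) (.br (nat_lit 1) (.cons (.br (nat_lit 3) (.cons (.rel (nat_lit 570491904)) .nil)) .nil)) (.node .leaf (nat_lit 25257717577388719) (.br (nat_lit 5) (.cons (.br (nat_lit 1) (.cons (.rel (nat_lit 4311826497)) (.cons (.rel (nat_lit 4311815232)) .nil))) .nil)) .leaf))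

/-- refutations 191 -/
def e191 : EX := (.node (.node (.node .leaf (nat_lit 25087580517449236) (.br (nat_lit 0) (.cons (.br (nat_lit 4) (.cons (.rel (nat_lit 1078985796)) .nil)) .nil)) .leaf) (nat_lit 25087580518516997) (.br (nat_lit 2) (.cons (.br (nat_lit 4) (.cons (.rel (nat_lit 1207992324)) .nil)) .nil)) .leaf) (nat_lit 25089080007925821) (.br (nat_lit 0) (.cons (.br (nat_lit 1) (.cons (.rel (nat_lit 20975682)) .nil)) .nil)) (.node (.node .leaf (nat_lit 25092361337509125) (.br (nat_lit 0) (.cons (.br (nat_lit 1) (.cons (.rel (nat_lit 20971668)) .nil)) .nil)) .leaf) (nat_lit 25098761867630599) (.br (nat_lit 0) (.cons (.br (nat_lit 1) (.cons (.rel (nat_lit 20980740)) .nil)) .nil)) .leaf))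

/-- refutations 192 -/
def e192 : EX := (.node (.node .leaf (nat_lit 26399455328154486) (.br (nat_lit 1) (.cons (.br (nat_lit 2) (.cons (.rel (nat_lit 167854080)) (.cons (.rel (nat_lit 83892228)) .nil))) .nil)) .leaf) (nat_lit 26399455328154857) (.br (nat_lit 1) (.cons (.br (nat_lit 3) (.cons (.rel (nat_lit 285229122)) .nil)) .nil)) (.node .leaf (nat_lit 26400113934749033) (.br (nat_lit 0) (.cons (.br (nat_lit 1) (.cons (.rel (nat_lit 21038160)) (.cons (.rel (nat_lit 20971668)) .nil))) .nil)) .leaf))

/-- refutations 193 -/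
def e193 : EX := (.node (.node .leaf (nat_lit 26830283413627562) (.br (nat_lit 1) (.cons (.br (nat_lit 3) (.cons (.rel (nat_lit 303104016)) .nil)) .nil)) .leaf) (nat_lit 26830323017281692) (.br (nat_lit 0) (.cons (.br (nat_lit 6) (.cons (.rel (nat_lit 17184346113)) .nil)) .nil)) .leaf)

/-- refutations 194 -/
def e194 : EX := (.node (.node (.node (.node .leaf (nat_lit 26834839192148103) (.br (nat_lit 0) (.cons (.br (nat_lit 4) (.cons (.rel (nat_lit 1078199298)) .nil)) .nil)) .leaf) (nat_lit 26835686483551093) (.br (nat_lit 0) (.cons (.br (nat_lit 2) (.cons (.rel (nat_lit 71303682)) .nil)) .nil)) .leaf) (nat_lit 26836047122391167) (.br (nat_lit 0) (.cons (.br (nat_lit 2) (.cons (.rel (nat_lit 138412128)) .nil)) .nil)) (.node (.node .leaf (nat_lit 26838842100654242) (.br (nat_lit 1) (.cons (.br (nat_lit 4) (.cons (.rel (nat_lit 1090519074)) (.cons (.rel (nat_lit 1090605057)) .nil))) (.cons (.br (nat_lit 2) (.cons (.rel (nat_lit 83951637)) (.cons (.rel (nat_lit 83910720)) .nil))) .nil))) .leaf) (nat_lit 26838842100900742)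 (.br (nat_lit 5) (.cons (.br (nat_lit 1) (.cons (.rel (nat_lit 4313382912)) (.cons (.rel (nat_lit 4311818256)) .nil))) .nil)) .leaf)) (nat_lit 26839981450847710) (.br (nat_lit 0) (.cons (.br (nat_lit 2) (.cons (.rel (nat_lit 73466112)) (.cons (.rel (nat_lit 71632896)) .nil))) .nil)) (.node (.node (.node .leaf (nat_lit 26840989058528009) (.br (nat_lit 0) (.cons (.br (nat_lit 1) (.cons (.rel (nat_lit 20971668)) .nil)) .nil)) .leaf) (nat_lit 26840991257564521) (.br (nat_lit 0) (.cons (.br (nat_lit 1) (.cons (.rel (nat_lit 21038160)) .nil)) .nil)) .leaf) (nat_lit 26841235039167964) (.br (nat_lit 1) (.cons (.br (nat_lit 5) (.cons (.rel (nat_lit 4311746562)) .nil)) .nil)) (.node (.node .leaf (nat_lit 26841240718255580) (.br (nat_lit 1) (.cons (.br (nat_lit 2) (.cons (.rel (nat_lit 167854080)) .nil)) .nil)) .leaf) (nat_lit 26841240927970780) (.br (nat_lit 1) (.cons (.br (nat_lit 3) (.cons (.rel (nat_lit 285245445)) .nil)) .nil)) .leaf)))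

/-- refutations 195 -/
def e195 : EX := (.node (.node (.node (.node .leaf (nat_lit 26864405744454534) (.br (nat_lit 1) (.cons (.br (nat_lit 0) (.cons (.rel (nat_lit 21041184)) (.cons (.rel (nat_lit 21004305)) .nil))) .nil)) .leaf) (nat_lit 26864405745999105) (.br (nat_lit 0) (.cons (.br (nat_lit 2) (.cons (.rel (nat_lit 71303682)) .nil)) .nil)) (.node .leaf (nat_lit 26864405745999324) (.br (nat_lit 1) (.cons (.br (nat_lit 3) (.cons (.rel (nat_lit 285234180)) .nil)) .nil)) .leaf)) (nat_lit 26864405746094982) (.br (nat_lit 1) (.cons (.br (nat_lit 0) (.cons (.rel (nat_lit 21041184)) (.cons (.rel (nat_lit 21041184)) (.cons (.rel (nat_lit 25170192)) .nil)))) .nil)) (.node (.node .leaf (nat_lit 26865685647390901) (.br (nat_lit 2) (.cons (.br (nat_lit 4) (.cons (.rel (nat_lit 1141900308)) .nil)) .nil)) .leaf) (nat_lit 26870882556681692) (.br (nat_lit 2) (.cons (.br (nat_lit 4) (.cons (.rel (nat_lit 1207967760)) .nil)) .nil)) .leaf)) (nat_lit 26870882557000961) (.br (nat_lit 0) (.cons (.br (nat_lit 1) (.cons (.rel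 (nat_lit 20993040)) .nil)) .nil)) (.node (.node (.node .leaf (nat_lit 26870882557001117) (.br (nat_lit 0) (.cons (.br (nat_lit 2) (.cons (.rel (nat_lit 75506688)) .nil)) .nil)) .leaf) (nat_lit 26870884144778497) (.br (nat_lit 0) (.cons (.br (nat_lit 2) (.cons (.rel (nat_lit 71311956)) .nil)) .nil)) .leaf) (nat_lit 26870884649639289) (.br (nat_lit 0) (.cons (.br (nat_lit 2) (.cons (.rel (nat_lit 71303682)) .nil)) .nil)) (.node (.node .leaf (nat_lit 26871217563970973) (.br (nat_lit 0) (.cons (.br (nat_lit 3) (.cons (.rel (nat_lit 273711168)) .nil)) .nil)) .leaf) (nat_lit 26871217565268149) (.br (nat_lit 0) (.cons (.br (nat_lit 4) (.cons (.rel (nat_lit 1077953088)) .nil)) .nil)) .leaf)))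

/-- refutations 196 -/
def e196 : EX := (.node (.node (.node (.node .leaf (nat_lit 26874016955865248) (.br (nat_lit 0) (.cons (.br (nat_lit 1) (.cons (.rel (nat_lit 22020420)) .nil)) .nil)) .leaf) (nat_lit 26875346617343452) (.br (nat_lit 1) (.cons (.br (nat_lit 2) (.cons (.rel (nat_lit 83892228)) .nil)) .nil)) .leaf) (nat_lit 26875349321124742) (.br (nat_lit 0) (.cons (.br (nat_lit 1) (.cons (.rel (nat_lit 20971668)) .nil)) .nil)) (.node (.node .leaf (nat_lit 26875349322509788) (.br (nat_lit 0) (.cons (.br (nat_lit 2) (.cons (.rel (nat_lit 72372240)) .nil)) .nil)) .leaf) (nat_lit 26875349322668192) (.br (nat_lit 4) (.cons (.br (nat_lit 2) (.cons (.rel (nat_lit 1140855300)) (.cons (.rel (nat_lit 1141112964)) .nil))) .nil)) .leaf)) (nat_lit 26875349322987527) (.br (nat_lit 0) (.cons (.br (nat_lit 3) (.cons (.rel (nat_lit 541065240)) .nil)) .nil)) (.node (.node (.node .leaf (nat_lit 26876162254282204) (.br (nat_lit 2) (.cons (.br (nat_lit 3) (.cons (.rel (nat_lit 336724992)) .nil)) .nil)) .leaf) (nat_lit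 26876165366455772) (.br (nat_lit 2) (.cons (.br (nat_lit 4) (.cons (.rel (nat_lit 2214659073)) .nil)) .nil)) .leaf) (nat_lit 26876686241841159) (.br (nat_lit 0) (.cons (.br (nat_lit 1) (.cons (.rel (nat_lit 38813697)) .nil)) .nil)) (.node (.node .leaf (nat_lit 26876689352464544) (.br (nat_lit 2) (.cons (.br (nat_lit 3) (.cons (.rel (nat_lit 402671616)) .nil)) .nil)) .leaf) (nat_lit 26876689352465884) (.br (nat_lit 1) (.cons (.br (nat_lit 3) (.cons (.rel (nat_lit 285246480)) .nil)) .nil)) .leaf)))

/-- refutations 197 -/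
def e197 : EX := (.node (.node .leaf (nat_lit 26570750170826929) (.br (nat_lit 2) (.cons (.br (nat_lit 4) (.cons (.rel (nat_lit 1140867600)) .nil)) .nil)) .leaf) (nat_lit 26577097612397305) (.br (nat_lit 1) (.cons (.br (nat_lit 2) (.cons (.rel (nat_lit 83910720)) .nil)) .nil)) .leaf)

/-- refutations 198 -/
def e198 : EX := (.node (.node (.node .leaf (nat_lit 26935874033814406) (.br (nat_lit 0) (.cons (.br (nat_lit 2) (.cons (.rel (nat_lit 72482817)) .nil)) .nil)) .leaf) (nat_lit 26935874035373437) (.br (nat_lit 0) (.cons (.br (nat_lit 1) (.cons (.rel (nat_lit 20971668)) .nil)) .nil)) (.node .leaf (nat_lit 26935876094776198) (.br (nat_lit 4) (.cons (.br (nat_lit 6) (.cons (.rel (nat_lit 18254725137)) .nil)) .nil)) .leaf)) (nat_lit 26941643933865436) (.br (nat_lit 0) (.cons (.br (nat_lit 1) (.cons (.rel (nat_lit 21053448)) .nil)) .nil)) (.node (.node .leaf (nat_lit 26944434517562629) (.br (nat_lit 0) (.cons (.br (nat_lit 1) (.cons (.rel (nat_lit 20975682)) .nil)) .nil)) .leaf) (nat_lit 26944438198610830)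 (.br (nat_lit 0) (.cons (.br (nat_lit 2) (.cons (.rel (nat_lit 71569428)) .nil)) .nil)) (.node .leaf (nat_lit 26944816155732878) (.br (nat_lit 0) (.cons (.br (nat_lit 1) (.cons (.rel (nat_lit 20990016)) .nil)) .nil)) .leaf)))

/-- list of the parts -/
def L1 : List (ℕ × List ℕ) := [(nat_lit 0x20000000000000000000000000000000000000000000000000000000000000000000000000000000000000000000000000000000000000000000000000000000000000000000000000000000000000000000000000000, [cP]),
  (nat_lit 0x80000000000000000000000000000000000000000000000000000000000000000000000000000000000000000000000000000000000000000000000000000000000000000000000000000000000000000000000000000, [cP]),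
  (nat_lit 0x1000000000000000000000000000000000000000000000000000000000000000000000000000000000000000000000000000000000000000000000000000000000000000000000000000000000000000000000000000000000000000000000, [cP]),
  (nat_lit 0x20000000000000000000000000000000000000000000000000000000000000000000000000000000000000000000000000000000000000000000000000000000000000000000000000000000000000000000000000000000000000000000000, [Nat.sub (Nat.pow 2 890) (Nat.pow 2 0), Nat.sub (Nat.pow 2 1556) (Nat.pow 2 890), Nat.sub (Nat.pow 2 3136) (Nat.pow 2 1556)]),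
  (nat_lit 0x8000000000000000000000000000000000000000000000000000000000000000000000000000000000000000000000000000000000000000000000000000000000000000000000000000000000000000000000000000000000000000000000, [cP]),
  (nat_lit 0x100000000000000000000000000000000000000000000000000000000000000000000000000000000000000000000000000000000000000000000000000000000000000000000000000000000000000000000000000000000000000000000000, [cP]),
  (nat_lit 0x800000000000000000000000000000000000000000000000000000000000000000000000000000000000000000000000000000000000000000000000000000000000000000000000000000000000000000000000000000000000000000000000000, [Nat.sub (Nat.pow 2 785) (Nat.pow 2 0), Nat.sub (Nat.pow 2 791) (Nat.pow 2 785), Nat.sub (Nat.pow 2 1530) (Nat.pow 2 791), Nat.sub (Nat.pow 2 3136) (Nat.pow 2 1530)]),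
  (nat_lit 0x10000000000000000000000000000000000000000000000000000000000000000000000000000000000000000000000000000000000000000000000000000000000000000000000000000000000000000000000000000000000000000000000000000, [Nat.sub (Nat.pow 2 889) (Nat.pow 2 0), Nat.sub (Nat.pow 2 3136) (Nat.pow 2 889)]),
  (nat_lit 0x200000000000000000000000000000000000000000000000000000000000000000000000000000000000000000000000000000000000000000000000000000000000000000000000000000000000000000000000000000000000000000000000000000, [Nat.sub (Nat.pow 2 681) (Nat.pow 2 0), Nat.sub (Nat.pow 2 929) (Nat.pow 2 681), Nat.sub (Nat.pow 2 1566) (Nat.pow 2 929), Nat.sub (Nat.pow 2 3136) (Nat.pow 2 1566)]),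
  (nat_lit 0x2000000000000000000000000000000000000000000000000000000000000000000000000000000000000000000000000000000000000000000000000000000000000000000000000000000000000000000000000000000000000000000000000000000000, [Nat.sub (Nat.pow 2 890) (Nat.pow 2 0), Nat.sub (Nat.pow 2 1540) (Nat.pow 2 890), Nat.sub (Nat.pow 2 3136) (Nat.pow 2 1540)]),
  (nat_lit 0x400000000000000000000000000000000000000000000000000000000000000000000000000000000000000000000000000000000000000000000000000000000000000000000000000000000000000000000000000000000000000000000000, [cP]),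
  (nat_lit 0x20000000000000000000000000000000000000000000000000000000000000000000000000000000000000000000000000000000000000000000000000000000000000000000000000000000000000000000000000000000000000000000000000000000000, [cP]),
  (nat_lit 0x400000000000000000000000000000000000000000000000000000000000000000000000000000000000000000000000000000000000000000000000000000000000000000000000000000000000000000000000000000000000000000000000000000000000, [cP]),
  (nat_lit 0x800000000000000000000000000000000000000000000000000000000000000000000000000000000000000000000000000000000000000000000000000000000000000000000000000000000000000000000000000000000000000000000000000000000000, [cP]),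
  (nat_lit 0x100000000000000000000000000000000000000000000000000000000000000000000000000000000000000000000000000000000000000000000000000000000000000000000000000000000000000000000000000000000000000000000000000000000000000000000000000000, [Nat.sub (Nat.pow 2 915) (Nat.pow 2 0), Nat.sub (Nat.pow 2 3136) (Nat.pow 2 915)]),
  (nat_lit 0x20000000000000000000000000000000000000000000000000000000000000000000000000000000000000000000000000000000000000000000000000000000000000000000000000000000000000000000000000000000000000000000000000000000000000000000000000000, [cP]),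
  (nat_lit 0x400000000000000000000000000000000000000000000000000000000000000000000000000000000000000000000000000000000000000000000000000000000000000000000000000000000000000000000000000000000000000000000000000000000000000000000000000000, [cP]),
  (nat_lit 0x10000000000000000000000000000000000000000000000000000000000000000000000000000000000000000000000000000000000000000000000000000000000000000000000000000000000000000000000000000000000000000000000000000000000000000000000000000000000, [Nat.sub (Nat.pow 2 1280) (Nat.pow 2 0), Nat.sub (Nat.pow 2 3136) (Nat.pow 2 1280)]),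
  (nat_lit 0x200000000000000000000000000000000000000000000000000000000000000000000000000000000000000000000000000000000000000000000000000000000000000000000000000000000000000000000000000000000000000000000000000000000000000000000000000000000000, [Nat.sub (Nat.pow 2 816) (Nat.pow 2 0), Nat.sub (Nat.pow 2 1279) (Nat.pow 2 816), Nat.sub (Nat.pow 2 3136) (Nat.pow 2 1279)]),
  (nat_lit 0x2000000000000000000000000000000000000000000000000000000000000000000000000000000000000000000000000000000000000000000000000000000000000000000000000000000000000000000000000000000000000000000000000000000000000000000000000000000, [cP]),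
  (nat_lit 0x4000000000000000000000000000000000000000000000000000000000000000000000000000000000000000000000000000000000000000000000000000000000000000000000000000000000000000000000000000000000000000000000000000000000000000000000000000000000000, [cP]),
  (nat_lit 0x400000000000000000000000000000000000000000000000000000000000000000000000000000000000000000000000000000000000000000000000000000000000000000000000000000000000000000000000000000000000000000000000000000000000000000000000000000000000000000, [Nat.sub (Nat.pow 2 915) (Nat.pow 2 0), Nat.sub (Nat.pow 2 3136) (Nat.pow 2 915)]),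
  (nat_lit 0x40000000000000000000000000000000000000000000000000000000000000000000000000000000000000000000000000000000000000000000000000000000000000000000000000000000000000000000000000000000000000000000000000000000000000000000000000000000000000000, [cP]),
  (nat_lit 0x800000000000000000000000000000000000000000000000000000000000000000000000000000000000000000000000000000000000000000000000000000000000000000000000000000000000000000000000000000000000000000000000000000000000000000000000000000000000000000, [cP]),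
  (nat_lit 0x8000000000000000000000000000000000000000000000000000000000000000000000000000000000000000000000000000000000000000000000000000000000000000000000000000000000000000000000000000000000000000000000000000000000000000000000000000000000000000000, [cP]),
  (nat_lit 0x40000000000000000000000000000000000000000000000000000000000000000000000000000000000000000000000000000000000000000000000000000000000000000000000000000000000000000000000000000000000000000000000000000000000000000000000000000000000000000000000000000000000000000000000000000000000000000000000000000000000000000000000000, [Nat.sub (Nat.pow 2 941) (Nat.pow 2 0), Nat.sub (Nat.pow 2 3136) (Nat.pow 2 941)]),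
  (nat_lit 0x80000000000000000000000000000000000000000000000000000000000000000000000000000000000000000000000000000000000000000000000000000000000000000000000000000000000000000000000000000000000000000000000000000000000000000000000000000000000000000000000000000000000000000000000000000000000000000000000000000000000000000000000000, [Nat.sub (Nat.pow 2 780) (Nat.pow 2 0), Nat.sub (Nat.pow 2 3136) (Nat.pow 2 780)]),
  (nat_lit 0x10000000000000000000000000000000000000000000000000000000000000000000000000000000000000000000000000000000000000000000000000000000000000000000000000000000000000000000000000000000000000000000000000000000000000000000000000000000000000000000, [cP]),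
  (nat_lit 0x100000000000000000000000000000000000000000000000000000000000000000000000000000000000000000000000000000000000000000000000000000000000000000000000000000000000000000000000000000000000000000000000000000000000000000000000000000000000000000000000000000000000000000000000000000000000000000000000000000000000000000000000000, [cP]),
  (nat_lit 0x10000000000000000000000000000000000000000000000000000000000000000000000000000000000000000000000000000000000000000000000000000000000000000000000000000000000000000000000000000000000000000000000000000000000000000000000000000000000000000000000000000000000000000000000000000000000000000000000000000000000000000000000000000, [Nat.sub (Nat.pow 2 666) (Nat.pow 2 0), Nat.sub (Nat.pow 2 3136) (Nat.pow 2 666)]),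
  (nat_lit 0x80000000000000000000000000000000000000000000000000000000000000000000000000000000000000000000000000000000000000000000000000000000000000000000000000000000000000000000000000000000000000000000000000000000000000000000000000000000000000000000000000000000000000000000000000000000000000000000000000000000000000000000000000000000, [Nat.sub (Nat.pow 2 816) (Nat.pow 2 0), Nat.sub (Nat.pow 2 3136) (Nat.pow 2 816)]),
  (nat_lit 0x100000000000000000000000000000000000000000000000000000000000000000000000000000000000000000000000000000000000000000000000000000000000000000000000000000000000000000000000000000000000000000000000000000000000000000000000000000000000000000000000000000000000000000000000000000000000000000000000000000000000000000000000000000000, [Nat.sub (Nat.pow 2 666) (Nat.pow 2 0), Nat.sub (Nat.pow 2 1410) (Nat.pow 2 666), Nat.sub (Nat.pow 2 3136) (Nat.pow 2 1410)]),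
  (nat_lit 0x1000000000000000000000000000000000000000000000000000000000000000000000000000000000000000000000000000000000000000000000000000000000000000000000000000000000000000000000000000000000000000000000000000000000000000000000000000000000000000000000000000000000000000000000000000000000000000000000000000000000000000000000000000000000, [Nat.sub (Nat.pow 2 806) (Nat.pow 2 0), Nat.sub (Nat.pow 2 3136) (Nat.pow 2 806)]),
  (nat_lit 0x2000000000000000000000000000000000000000000000000000000000000000000000000000000000000000000000000000000000000000000000000000000000000000000000000000000000000000000000000000000000000000000000000000000000000000000000000000000000000000000000000000000000000000000000000000000000000000000000000000000000000000000000000000, [cP]),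
  (nat_lit 0x80000000000000000000000000000000000000000000000000000000000000000000000000000000000000000000000000000000000000000000000000000000000000000000000000000000000000000000000000000000000000000000000000000000000000000000000000000000000000000000000000000000000000000000000000000000000000000000000000000000000000000000000000000000000, [Nat.sub (Nat.pow 2 890) (Nat.pow 2 0), Nat.sub (Nat.pow 2 3136) (Nat.pow 2 890)]),
  (nat_lit 0x200000000000000000000000000000000000000000000000000000000000000000000000000000000000000000000000000000000000000000000000000000000000000000000000000000000000000000000000000000000000000000000000000000000000000000000000000000000000000000000000000000000000000000000000000000000000000000000000000000000000000000000000000000000000000, [Nat.sub (Nat.pow 2 630) (Nat.pow 2 0), Nat.sub (Nat.pow 2 1265) (Nat.pow 2 630), Nat.sub (Nat.pow 2 1509) (Nat.pow 2 1265), Nat.sub (Nat.pow 2 3136) (Nat.pow 2 1509)]),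
  (nat_lit 0x2000000000000000000000000000000000000000000000000000000000000000000000000000000000000000000000000000000000000000000000000000000000000000000000000000000000000000000000000000000000000000000000000000000000000000000000000000000000000000000000000000000000000000000000000000000000000000000000000000000000000000000000000000000000, [cP]),
  (nat_lit 0x4000000000000000000000000000000000000000000000000000000000000000000000000000000000000000000000000000000000000000000000000000000000000000000000000000000000000000000000000000000000000000000000000000000000000000000000000000000000000000000000000000000000000000000000000000000000000000000000000000000000000000000000000000000000000000, [Nat.sub (Nat.pow 2 936) (Nat.pow 2 0), Nat.sub (Nat.pow 2 3136) (Nat.pow 2 936)]),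
  (nat_lit 0x2000000000000000000000000000000000000000000000000000000000000000000000000000000000000000000000000000000000000000000000000000000000000000000000000000000000000000000000000000000000000000000000000000000000000000000000000000000000000000000000000000000000000000000000000000000000000000000000000000000000000000000000000000000000000000, [cP]),
  (nat_lit 0x80000000000000000000000000000000000000000000000000000000000000000000000000000000000000000000000000000000000000000000000000000000000000000000000000000000000000000000000000000000000000000000000000000000000000000000000000000000000000000000000000000000000000000000000000000000000000000000000000000000000000000000000000000000000000000, [cP]),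
  (nat_lit 0x800000000000000000000000000000000000000000000000000000000000000000000000000000000000000000000000000000000000000000000000000000000000000000000000000000000000000000000000000000000000000000000000000000000000000000000000000000000000000000000000000000000000000000000000000000000000000000000000000000000000000000000000000000000000000000000000000000000, [cP]),
  (nat_lit 0x10000000000000000000000000000000000000000000000000000000000000000000000000000000000000000000000000000000000000000000000000000000000000000000000000000000000000000000000000000000000000000000000000000000000000000000000000000000000000000000000000000000000000000000000000000000000000000000000000000000000000000000000000000000000000000000000000000000000, [cP]),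
  (nat_lit 0x400000000000000000000000000000000000000000000000000000000000000000000000000000000000000000000000000000000000000000000000000000000000000000000000000000000000000000000000000000000000000000000000000000000000000000000000000000000000000000000000000000000000000000000000000000000000000000000000000000000000000000000000000000000000000000000000000000000000, [Nat.sub (Nat.pow 2 791) (Nat.pow 2 0), Nat.sub (Nat.pow 2 3136) (Nat.pow 2 791)]),
  (nat_lit 0x1000000000000000000000000000000000000000000000000000000000000000000000000000000000000000000000000000000000000000000000000000000000000000000000000000000000000000000000000000000000000000000000000000000000000000000000000000000000000000000000000000000000000000000000000000000000000000000000000000000000000000000000000000000000000000000000000000000000000000, [Nat.sub (Nat.pow 2 806) (Nat.pow 2 0), Nat.sub (Nat.pow 2 1556) (Nat.pow 2 806), Nat.sub (Nat.pow 2 3136) (Nat.pow 2 1556)]),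
  (nat_lit 0x200000000000000000000000000000000000000000000000000000000000000000000000000000000000000000000000000000000000000000000000000000000000000000000000000000000000000000000000000000000000000000000000000000000000000000000000000000000000000000000000000000000000000000000000000000000000000000000000000000000000000000000000000000000000000000000000000000000000, [cP]),
  (nat_lit 0x400000000000000000000000000000000000000000000000000000000000000000000000000000000000000000000000000000000000000000000000000000000000000000000000000000000000000000000000000000000000000000000000000000000000000000000000000000000000000000000000000000000000000000000000000000000000000000000000000000000000000000000000000000000000000000000000000000000000000000, [Nat.sub (Nat.pow 2 789) (Nat.pow 2 0), Nat.sub (Nat.pow 2 3136) (Nat.pow 2 789)]),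
  (nat_lit 0x800000000000000000000000000000000000000000000000000000000000000000000000000000000000000000000000000000000000000000000000000000000000000000000000000000000000000000000000000000000000000000000000000000000000000000000000000000000000000000000000000000000000000000000000000000000000000000000000000000000000000000000000000000000000000000000000000000000000000000, [Nat.sub (Nat.pow 2 1280) (Nat.pow 2 0), Nat.sub (Nat.pow 2 3136) (Nat.pow 2 1280)]),
  (nat_lit 0x40000000000000000000000000000000000000000000000000000000000000000000000000000000000000000000000000000000000000000000000000000000000000000000000000000000000000000000000000000000000000000000000000000000000000000000000000000000000000000000000000000000000000000000000000000000000000000000000000000000000000000000000000000000000000000000000000000000000000000, [cP]),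
  (nat_lit 0x1000000000000000000000000000000000000000000000000000000000000000000000000000000000000000000000000000000000000000000000000000000000000000000000000000000000000000000000000000000000000000000000000000000000000000000000000000000000000000000000000000000000000000000000000000000000000000000000000000000000000000000000000000000000000000000000000000000000000000000, [cP]),
  (nat_lit 0x8000000000000000000000000000000000000000000000000000000000000000000000000000000000000000000000000000000000000000000000000000000000000000000000000000000000000000000000000000000000000000000000000000000000000000000000000000000000000000000000000000000000000000000000000000000000000000000000000000000000000000000000000000000000000000000000000000000000000000000000, [Nat.sub (Nat.pow 2 929) (Nat.pow 2 0), Nat.sub (Nat.pow 2 3136) (Nat.pow 2 929)]),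
  (nat_lit 0x80000000000000000000000000000000000000000000000000000000000000000000000000000000000000000000000000000000000000000000000000000000000000000000000000000000000000000000000000000000000000000000000000000000000000000000000000000000000000000000000000000000000000000000000000000000000000000000000000000000000000000000000000000000000000000000000000000000000000000000000, [Nat.sub (Nat.pow 2 806) (Nat.pow 2 0), Nat.sub (Nat.pow 2 3136) (Nat.pow 2 806)]),
  (nat_lit 0x100000000000000000000000000000000000000000000000000000000000000000000000000000000000000000000000000000000000000000000000000000000000000000000000000000000000000000000000000000000000000000000000000000000000000000000000000000000000000000000000000000000000000000000000000000000000000000000000000000000000000000000000000000000000000000000000000000000000000000000000, [Nat.sub (Nat.pow 2 890) (Nat.pow 2 0), Nat.sub (Nat.pow 2 1566) (Nat.pow 2 890), Nat.sub (Nat.pow 2 3136) (Nat.pow 2 1566)]),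
  (nat_lit 0x800000000000000000000000000000000000000000000000000000000000000000000000000000000000000000000000000000000000000000000000000000000000000000000000000000000000000000000000000000000000000000000000000000000000000000000000000000000000000000000000000000000000000000000000000000000000000000000000000000000000000000000000000000000000000000000000000000000000000000000000, [Nat.sub (Nat.pow 2 666) (Nat.pow 2 0), Nat.sub (Nat.pow 2 3136) (Nat.pow 2 666)]),
  (nat_lit 0x4000000000000000000000000000000000000000000000000000000000000000000000000000000000000000000000000000000000000000000000000000000000000000000000000000000000000000000000000000000000000000000000000000000000000000000000000000000000000000000000000000000000000000000000000000000000000000000000000000000000000000000000000000000000000000000000000000000000000000000000, [cP]),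
  (nat_lit 0x10000000000000000000000000000000000000000000000000000000000000000000000000000000000000000000000000000000000000000000000000000000000000000000000000000000000000000000000000000000000000000000000000000000000000000000000000000000000000000000000000000000000000000000000000000000000000000000000000000000000000000000000000000000000000000000000000000000000000000000000000000000000000000, [cP]),
  (nat_lit 0x20000000000000000000000000000000000000000000000000000000000000000000000000000000000000000000000000000000000000000000000000000000000000000000000000000000000000000000000000000000000000000000000000000000000000000000000000000000000000000000000000000000000000000000000000000000000000000000000000000000000000000000000000000000000000000000000000000000000000000000000000000000000000000000000, [Nat.sub (Nat.pow 2 790) (Nat.pow 2 0), Nat.sub (Nat.pow 2 3136) (Nat.pow 2 790)]),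
  (nat_lit 0x80000000000000000000000000000000000000000000000000000000000000000000000000000000000000000000000000000000000000000000000000000000000000000000000000000000000000000000000000000000000000000000000000000000000000000000000000000000000000000000000000000000000000000000000000000000000000000000000000000000000000000000000000000000000000000000000000000000000000000000000000000000000000000000000, [Nat.sub (Nat.pow 2 931) (Nat.pow 2 0), Nat.sub (Nat.pow 2 3136) (Nat.pow 2 931)]),
  (nat_lit 0x4000000000000000000000000000000000000000000000000000000000000000000000000000000000000000000000000000000000000000000000000000000000000000000000000000000000000000000000000000000000000000000000000000000000000000000000000000000000000000000000000000000000000000000000000000000000000000000000000000000000000000000000000000000000000000000000000000000000000000000000000000000000000000000, [cP]),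
  (nat_lit 0x800000000000000000000000000000000000000000000000000000000000000000000000000000000000000000000000000000000000000000000000000000000000000000000000000000000000000000000000000000000000000000000000000000000000000000000000000000000000000000000000000000000000000000000000000000000000000000000000000000000000000000000000000000000000000000000000000000000000000000000000000000000000000000000000, [cP]),
  (nat_lit 0x80020000000000000000000000000000000000000000000000000000000000000000000000000000000000000000000000000000000000000000000000000000000000000000000000000000000000000000000000000000000000000000000000000000000000000000000000000000000000000000000000000000000000000000000000000000000000000000000000000000000000000000000000000000000000000000000000000000000000000000000000000000000000000000000000000, [cP]),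
  (nat_lit 0x1000000000000000000000000000000000000000000000000000000000000000000000000000000000000000000000000000000000000000000000000000000000000000000000000000000000000000000000000000000000000000000000000000000000000000000000000000000000000000000000000000000000000000000000000000000000000000000000000000000000000000000000000000000000000000000000000000000000000000000000000000000000000000000000000000000, [cP])]

theorem hp1 : ∀ p ∈ L1, ∀ D2 ∈ p.2, ∃ e,
    search ext94 (Pool.Agent.H74.EGZ.vio sb) G Uc A0 p.1 D2 e = true :=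
  (List.forall_mem_cons.2 ⟨(List.forall_mem_singleton.2 ⟨e100, by decide +kernel⟩),
  (List.forall_mem_cons.2 ⟨(List.forall_mem_singleton.2 ⟨e101, by decide +kernel⟩),
  (List.forall_mem_cons.2 ⟨(List.forall_mem_singleton.2 ⟨e102, by decide +kernel⟩),
  (List.forall_mem_cons.2 ⟨(List.forall_mem_cons.2 ⟨⟨e103, by decide +kernel⟩,
  (List.forall_mem_cons.2 ⟨⟨e104, by decide +kernel⟩,
  (List.forall_mem_singleton.2 ⟨.leaf, by decide +kernel⟩)⟩)⟩),
  (List.forall_mem_cons.2 ⟨(List.forall_mem_singleton.2 ⟨e106, by decide +kernel⟩),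
  (List.forall_mem_cons.2 ⟨(List.forall_mem_singleton.2 ⟨e107, by decide +kernel⟩),
  (List.forall_mem_cons.2 ⟨(List.forall_mem_cons.2 ⟨⟨e108, by decide +kernel⟩,
  (List.forall_mem_cons.2 ⟨⟨e109, by decide +kernel⟩,
  (List.forall_mem_cons.2 ⟨⟨e110, by decide +kernel⟩,
  (List.forall_mem_singleton.2 ⟨e111, by decide +kernel⟩)⟩)⟩)⟩),
  (List.forall_mem_cons.2 ⟨(List.forall_mem_cons.2 ⟨⟨e112, by decide +kernel⟩,
  (List.forall_mem_singleton.2 ⟨e113, by decide +kernel⟩)⟩),
  (List.forall_mem_cons.2 ⟨(List.forall_mem_cons.2 ⟨⟨e114, by decide +kernel⟩,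
  (List.forall_mem_cons.2 ⟨⟨e115, by decide +kernel⟩,
  (List.forall_mem_cons.2 ⟨⟨e116, by decide +kernel⟩,
  (List.forall_mem_singleton.2 ⟨.leaf, by decide +kernel⟩)⟩)⟩)⟩),
  (List.forall_mem_cons.2 ⟨(List.forall_mem_cons.2 ⟨⟨e118, by decide +kernel⟩,
  (List.forall_mem_cons.2 ⟨⟨e119, by decide +kernel⟩,
  (List.forall_mem_singleton.2 ⟨.leaf, by decide +kernel⟩)⟩)⟩),
  (List.forall_mem_cons.2 ⟨(List.forall_mem_singleton.2 ⟨.leaf, by decide +kernel⟩),
  (List.forall_mem_cons.2 ⟨(List.forall_mem_singleton.2 ⟨e122, by decide +kernel⟩),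
  (List.forall_mem_cons.2 ⟨(List.forall_mem_singleton.2 ⟨e123, by decide +kernel⟩),
  (List.forall_mem_cons.2 ⟨(List.forall_mem_singleton.2 ⟨.leaf, by decide +kernel⟩),
  (List.forall_mem_cons.2 ⟨(List.forall_mem_cons.2 ⟨⟨e125, by decide +kernel⟩,
  (List.forall_mem_singleton.2 ⟨e126, by decide +kernel⟩)⟩),
  (List.forall_mem_cons.2 ⟨(List.forall_mem_singleton.2 ⟨e127, by decide +kernel⟩),
  (List.forall_mem_cons.2 ⟨(List.forall_mem_singleton.2 ⟨e128, by decide +kernel⟩),
  (List.forall_mem_cons.2 ⟨(List.forall_mem_cons.2 ⟨⟨e129, by decide +kernel⟩,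
  (List.forall_mem_singleton.2 ⟨e130, by decide +kernel⟩)⟩),
  (List.forall_mem_cons.2 ⟨(List.forall_mem_cons.2 ⟨⟨e131, by decide +kernel⟩,
  (List.forall_mem_cons.2 ⟨⟨e132, by decide +kernel⟩,
  (List.forall_mem_singleton.2 ⟨e133, by decide +kernel⟩)⟩)⟩),
  (List.forall_mem_cons.2 ⟨(List.forall_mem_singleton.2 ⟨e134, by decide +kernel⟩),
  (List.forall_mem_cons.2 ⟨(List.forall_mem_singleton.2 ⟨e135, by decide +kernel⟩),
  (List.forall_mem_cons.2 ⟨(List.forall_mem_cons.2 ⟨⟨e136, by decide +kernel⟩,
  (List.forall_mem_singleton.2 ⟨e137, by decide +kernel⟩)⟩),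
  (List.forall_mem_cons.2 ⟨(List.forall_mem_singleton.2 ⟨e138, by decide +kernel⟩),
  (List.forall_mem_cons.2 ⟨(List.forall_mem_singleton.2 ⟨e139, by decide +kernel⟩),
  (List.forall_mem_cons.2 ⟨(List.forall_mem_singleton.2 ⟨.leaf, by decide +kernel⟩),
  (List.forall_mem_cons.2 ⟨(List.forall_mem_cons.2 ⟨⟨e141, by decide +kernel⟩,
  (List.forall_mem_singleton.2 ⟨e142, by decide +kernel⟩)⟩),
  (List.forall_mem_cons.2 ⟨(List.forall_mem_cons.2 ⟨⟨e143, by decide +kernel⟩,
  (List.forall_mem_singleton.2 ⟨e144, by decide +kernel⟩)⟩),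
  (List.forall_mem_cons.2 ⟨(List.forall_mem_singleton.2 ⟨e145, by decide +kernel⟩),
  (List.forall_mem_cons.2 ⟨(List.forall_mem_singleton.2 ⟨e146, by decide +kernel⟩),
  (List.forall_mem_cons.2 ⟨(List.forall_mem_cons.2 ⟨⟨e147, by decide +kernel⟩,
  (List.forall_mem_singleton.2 ⟨e148, by decide +kernel⟩)⟩),
  (List.forall_mem_cons.2 ⟨(List.forall_mem_cons.2 ⟨⟨e149, by decide +kernel⟩,
  (List.forall_mem_singleton.2 ⟨e150, by decide +kernel⟩)⟩),
  (List.forall_mem_cons.2 ⟨(List.forall_mem_cons.2 ⟨⟨e151, by decide +kernel⟩,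
  (List.forall_mem_cons.2 ⟨⟨e152, by decide +kernel⟩,
  (List.forall_mem_singleton.2 ⟨e153, by decide +kernel⟩)⟩)⟩),
  (List.forall_mem_cons.2 ⟨(List.forall_mem_cons.2 ⟨⟨e154, by decide +kernel⟩,
  (List.forall_mem_singleton.2 ⟨e155, by decide +kernel⟩)⟩),
  (List.forall_mem_cons.2 ⟨(List.forall_mem_singleton.2 ⟨e156, by decide +kernel⟩),
  (List.forall_mem_cons.2 ⟨(List.forall_mem_cons.2 ⟨⟨e157, by decide +kernel⟩,
  (List.forall_mem_singleton.2 ⟨e158, by decide +kernel⟩)⟩),
  (List.forall_mem_cons.2 ⟨(List.forall_mem_cons.2 ⟨⟨e159, by decide +kernel⟩,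
  (List.forall_mem_cons.2 ⟨⟨e160, by decide +kernel⟩,
  (List.forall_mem_cons.2 ⟨⟨e161, by decide +kernel⟩,
  (List.forall_mem_singleton.2 ⟨.leaf, by decide +kernel⟩)⟩)⟩)⟩),
  (List.forall_mem_cons.2 ⟨(List.forall_mem_singleton.2 ⟨e163, by decide +kernel⟩),
  (List.forall_mem_cons.2 ⟨(List.forall_mem_cons.2 ⟨⟨.leaf, by decide +kernel⟩,
  (List.forall_mem_singleton.2 ⟨e165, by decide +kernel⟩)⟩),
  (List.forall_mem_cons.2 ⟨(List.forall_mem_singleton.2 ⟨e166, by decide +kernel⟩),
  (List.forall_mem_cons.2 ⟨(List.forall_mem_singleton.2 ⟨e167, by decide +kernel⟩),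
  (List.forall_mem_cons.2 ⟨(List.forall_mem_singleton.2 ⟨e168, by decide +kernel⟩),
  (List.forall_mem_cons.2 ⟨(List.forall_mem_singleton.2 ⟨.leaf, by decide +kernel⟩),
  (List.forall_mem_cons.2 ⟨(List.forall_mem_cons.2 ⟨⟨e170, by decide +kernel⟩,
  (List.forall_mem_singleton.2 ⟨e171, by decide +kernel⟩)⟩),
  (List.forall_mem_cons.2 ⟨(List.forall_mem_cons.2 ⟨⟨e172, by decide +kernel⟩,
  (List.forall_mem_cons.2 ⟨⟨e173, by decide +kernel⟩,
  (List.forall_mem_singleton.2 ⟨.leaf, by decide +kernel⟩)⟩)⟩),
  (List.forall_mem_cons.2 ⟨(List.forall_mem_singleton.2 ⟨e175, by decide +kernel⟩),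
  (List.forall_mem_cons.2 ⟨(List.forall_mem_cons.2 ⟨⟨e176, by decide +kernel⟩,
  (List.forall_mem_singleton.2 ⟨e177, by decide +kernel⟩)⟩),
  (List.forall_mem_cons.2 ⟨(List.forall_mem_cons.2 ⟨⟨e178, by decide +kernel⟩,
  (List.forall_mem_singleton.2 ⟨e179, by decide +kernel⟩)⟩),
  (List.forall_mem_cons.2 ⟨(List.forall_mem_singleton.2 ⟨e180, by decide +kernel⟩),
  (List.forall_mem_cons.2 ⟨(List.forall_mem_singleton.2 ⟨e181, by decide +kernel⟩),
  (List.forall_mem_cons.2 ⟨(List.forall_mem_cons.2 ⟨⟨e182, by decide +kernel⟩,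
  (List.forall_mem_singleton.2 ⟨e183, by decide +kernel⟩)⟩),
  (List.forall_mem_cons.2 ⟨(List.forall_mem_cons.2 ⟨⟨e184, by decide +kernel⟩,
  (List.forall_mem_singleton.2 ⟨e185, by decide +kernel⟩)⟩),
  (List.forall_mem_cons.2 ⟨(List.forall_mem_cons.2 ⟨⟨e186, by decide +kernel⟩,
  (List.forall_mem_cons.2 ⟨⟨e187, by decide +kernel⟩,
  (List.forall_mem_singleton.2 ⟨.leaf, by decide +kernel⟩)⟩)⟩),
  (List.forall_mem_cons.2 ⟨(List.forall_mem_cons.2 ⟨⟨e189, by decide +kernel⟩,
  (List.forall_mem_singleton.2 ⟨e190, by decide +kernel⟩)⟩),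
  (List.forall_mem_cons.2 ⟨(List.forall_mem_singleton.2 ⟨e191, by decide +kernel⟩),
  (List.forall_mem_cons.2 ⟨(List.forall_mem_singleton.2 ⟨e192, by decide +kernel⟩),
  (List.forall_mem_cons.2 ⟨(List.forall_mem_cons.2 ⟨⟨e193, by decide +kernel⟩,
  (List.forall_mem_singleton.2 ⟨e194, by decide +kernel⟩)⟩),
  (List.forall_mem_cons.2 ⟨(List.forall_mem_cons.2 ⟨⟨e195, by decide +kernel⟩,
  (List.forall_mem_singleton.2 ⟨e196, by decide +kernel⟩)⟩),
  (List.forall_mem_cons.2 ⟨(List.forall_mem_singleton.2 ⟨e197, by decide +kernel⟩),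
  (List.forall_mem_cons.2 ⟨(List.forall_mem_singleton.2 ⟨e198, by decide +kernel⟩),
  (List.forall_mem_cons.2 ⟨(List.forall_mem_singleton.2 ⟨.leaf, by decide +kernel⟩),
  (List.forall_mem_singleton.2 (List.forall_mem_singleton.2 ⟨.leaf, by decide +kernel⟩))⟩)⟩)⟩)⟩)⟩)⟩)⟩)⟩)⟩)⟩)⟩)⟩)⟩)⟩)⟩)⟩)⟩)⟩)⟩)⟩)⟩)⟩)⟩)⟩)⟩)⟩)⟩)⟩)⟩)⟩)⟩)⟩)⟩)⟩)⟩)⟩)⟩)⟩)⟩)⟩)⟩)⟩)⟩)⟩)⟩)⟩)⟩)⟩)⟩)⟩)⟩)⟩)⟩)⟩)⟩)⟩)⟩)⟩)⟩)⟩)

end

end Pool.Agent.H21.EGZ.S4
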