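import Pool.Agent.H21.EGZ.D5

/-!
# Stage 5 : search, part 0
-/

set_option autoImplicit false
set_option maxRecDepth 100000

namespace Pool.Agent.H21.EGZ.S5

noncomputable section

open Pool.Agent.H74.EGZ Pool.Agent.H94.Lift

/-- refutations 0 -/
def e0 : EX := (.node .leaf (nat_lit 182382760805127) (.br (nat_lit 1) (.cons (.br (nat_lit 2) (.cons (.rel (nat_lit 168820752)) .nil)) .nil)) .leaf)

/-- refutations 1 -/
def e1 : EX := (.node (.node .leaf (nat_lit 186919628038900) (.br (nat_lit 0) (.cons (.br (nat_lit 1) (.cons (.rel (nat_lit 20973825)) .nil)) .nil)) .leaf) (nat_lit 188827874078102) (.br (nat_lit 0) (.cons (.br (nat_lit 1) (.cons (.rel (nat_lit 20975637)) .nil)) .nil)) .leaf)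

/-- refutations 2 -/
def e2 : EX := (.node .leaf (nat_lit 547764039687401) (.br (nat_lit 0) (.cons (.br (nat_lit 6) (.cons (.rel (nat_lit 17184067620)) .nil)) .nil)) .leaf)

/-- refutations 3 -/
def e3 : EX := (.node .leaf (nat_lit 557232420920048) (.br (nat_lit 0) (.cons (.br (nat_lit 3) (.cons (.rel (nat_lit 272630880)) .nil)) .nil)) .leaf)

/-- refutations 5 -/
def e5 : EX := (.node (.node (.node .leaf (nat_lit 130937677469707) (.br (nat_lit 0) (.cons (.br (nat_lit 1) (.cons (.rel (nat_lit 20976672)) .nil)) .nil)) .leaf) (nat_lit 135234486268186) (.br (nat_lit 0) (.cons (.br (nat_lit 4) (.cons (.rel (nat_lit 1077936450)) .nil)) .nil)) .leaf) (nat_lit 135234487929114) (.br (nat_lit 3) (.cons (.br (nat_lit 0) (.cons (.rel (nat_lit 272630880)) (.cons (.rel (nat_lit 273678849)) .nil))) .nil)) (.node (.node .leaf (nat_lit 135234489205993) (.br (nat_lit 2) (.cons (.br (nat_lit 3) (.cons (.rel (nat_lit 335544597)) .nil)) .nil)) .leaf) (nat_lit 136554974804029) (.br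 (nat_lit 1) (.cons (.br (nat_lit 2) (.cons (.rel (nat_lit 84154368)) .nil)) .nil)) .leaf))

/-- refutations 6 -/
def e6 : EX := (.node (.node .leaf (nat_lit 920180087611422) (.br (nat_lit 0) (.cons (.br (nat_lit 1) (.cons (.rel (nat_lit 41959680)) .nil)) .nil)) .leaf) (nat_lit 920182214124897) (.br (nat_lit 1) (.cons (.br (nat_lit 3) (.cons (.rel (nat_lit 285217032)) .nil)) .nil)) (.node .leaf (nat_lit 920183448520033) (.br (nat_lit 0) (.cons (.br (nat_lit 1) (.cons (.rel (nat_lit 20975637)) .nil)) .nil)) .leaf))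

/-- refutations 8 -/
def e8 : EX := (.node (.node .leaf (nat_lit 990587919835141) (.br (nat_lit 0) (.cons (.br (nat_lit 2) (.cons (.rel (nat_lit 71303202)) .nil)) .nil)) .leaf) (nat_lit 990587921424666) (.br (nat_lit 2) (.cons (.br (nat_lit 5) (.cons (.rel (nat_lit 8657109012)) .nil)) .nil)) .leaf)

/-- refutations 9 -/
def e9 : EX := (.node .leaf (nat_lit 990798613623090) (.br (nat_lit 0) (.cons (.br (nat_lit 1) (.cons (.rel (nat_lit 20971800)) .nil)) .nil)) .leaf)

/-- refutations 13 -/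
def e13 : EX := (.node .leaf (nat_lit 1016123276116024) (.br (nat_lit 0) (.cons (.br (nat_lit 1) (.cons (.rel (nat_lit 20971800)) .nil)) .nil)) .leaf)

/-- refutations 15 -/
def e15 : EX := (.node .leaf (nat_lit 2207026405955609) (.br (nat_lit 0) (.cons (.br (nat_lit 2) (.cons (.rel (nat_lit 71303202)) .nil)) .nil)) .leaf)

/-- refutations 16 -/
def e16 : EX := (.node (.node .leaf (nat_lit 2292573671880056) (.br (nat_lit 0) (.cons (.br (nat_lit 1) (.cons (.rel (nat_lit 20988930)) .nil)) .nil)) .leaf) (nat_lit 2293684860704256) (.br (nat_lit 0) (.cons (.br (nat_lit 1) (.cons (.rel (nat_lit 20971800)) .nil)) .nil)) .leaf)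

/-- refutations 17 -/
def e17 : EX := (.node (.node .leaf (nat_lit 2297981924009313) (.br (nat_lit 0) (.cons (.br (nat_lit 1) (.cons (.rel (nat_lit 22290432)) .nil)) .nil)) .leaf) (nat_lit 2298245591880316) (.br (nat_lit 0) (.cons (.br (nat_lit 1) (.cons (.rel (nat_lit 20976672)) .nil)) .nil)) (.node .leaf (nat_lit 2299225368514860) (.br (nat_lit 0) (.cons (.br (nat_lit 3) (.cons (.rel (nat_lit 273686532)) .nil)) .nil)) .leaf))

/-- refutations 18 -/
def e18 : EX := (.node (.node .leaf (nat_lit 881971745291140) (.br (nat_lit 0) (.cons (.br (nat_lit 2) (.cons (.rel (nat_lit 71304201)) .nil)) .nil)) .leaf) (nat_lit 884983493373190) (.br (nat_lit 0) (.cons (.br (nat_lit 2) (.cons (.rel (nat_lit 142606353)) .nil)) .nil)) (.node .leaf (nat_lit 891700824001287) (.br (nat_lit 0) (.cons (.br (nat_lit 1) (.cons (.rel (nat_lit 20971800)) .nil)) .nil)) .leaf))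

/-- refutations 20 -/
def e20 : EX := (.node (.node .leaf (nat_lit 2410224132564994) (.br (nat_lit 1) (.cons (.br (nat_lit 2) (.cons (.rel (nat_lit 100667664)) .nil)) .nil)) .leaf) (nat_lit 2412812929937409) (.br (nat_lit 0) (.cons (.br (nat_lit 1) (.cons (.rel (nat_lit 27262977)) .nil)) .nil)) .leaf)

/-- refutations 21 -/
def e21 : EX := (.node (.node .leaf (nat_lit 2422038916880645) (.br (nat_lit 0) (.cons (.br (nat_lit 2) (.cons (.rel (nat_lit 71304201)) .nil)) .nil)) .leaf) (nat_lit 2423251814285339) (.br (nat_lit 0) (.cons (.br (nat_lit 1) (.cons (.rel (nat_lit 22290432)) .nil)) .nil)) .leaf)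

/-- refutations 22 -/
def e22 : EX := (.node .leaf (nat_lit 2656858400611091) (.br (nat_lit 0) (.cons (.br (nat_lit 2) (.cons (.rel (nat_lit 71434497)) .nil)) .nil)) .leaf)

/-- refutations 23 -/
def e23 : EX := (.node (.node (.node (.node .leaf (nat_lit 2663300861079016) (.br (nat_lit 0) (.cons (.br (nat_lit 2) (.cons (.rel (nat_lit 71304201)) .nil)) .nil)) .leaf) (nat_lit 2663301898646891) (.br (nat_lit 0) (.cons (.br (nat_lit 5) (.cons (.br (nat_lit 3) (.cons (.rel (nat_lit 9126805521)) (.cons (.rel (nat_lit 273686532)) (.cons (.rel (nat_lit 272630880)) .nil)))) (.cons (.rel (nat_lit 4299162120)) .nil))) (.cons (.br (nat_lit 2) (.cons (.rel (nat_lit 71434497)) (.cons (.rel (nat_lit 71305236)) .nil))) .nil))) (.node .leaf (nat_lit 2663301898808726) (.br (nat_lit 0) (.cons (.br (nat_lit 1) (.cons (.rel (nat_lit 20971800)) .nil)) .nil)) .leaf)) (nat_lit 2663301900068067) (.br (nat_lit 1) (.cons (.br (nat_lit 3) (.cons (.rel (nat_lit 285221904)) .nil)) .nil))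 (.node (.node .leaf (nat_lit 2663301900082539) (.br (nat_lit 0) (.cons (.br (nat_lit 6) (.cons (.rel (nat_lit 17184084480)) .nil)) .nil)) .leaf) (nat_lit 2663304014114319) (.br (nat_lit 0) (.cons (.br (nat_lit 4) (.cons (.rel (nat_lit 1077936450)) .nil)) .nil)) (.node .leaf (nat_lit 2663306967934479) (.br (nat_lit 0) (.cons (.br (nat_lit 4) (.cons (.rel (nat_lit 1077940296)) .nil)) .nil)) .leaf))) (nat_lit 2663307057341967) (.br (nat_lit 0) (.cons (.br (nat_lit 1) (.cons (.rel (nat_lit 21038100)) .nil)) .nil)) (.node (.node (.node .leaf (nat_lit 2663307057649128) (.br (nat_lit 0) (.cons (.br (nat_lit 4) (.cons (.rel (nat_lit 1079083008)) .nil)) .nil)) .leaf) (nat_lit 2664194115188239) (.br (nat_lit 1) (.cons (.br (nat_lit 4) (.cons (.rel (nat_lit 1090521105)) .nil)) .nil)) (.node .leaf (nat_lit 2664194116213017) (.br (nat_lit 0) (.cons (.br (nat_lit 2) (.cons (.rel (nat_lit 71327745)) .nil)) .nil)) .leaf)) (nat_lit 2664194116213411) (.br (nat_lit 4) (.cons (.br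 (nat_lit 6) (.cons (.rel (nat_lit 18253611018)) .nil)) .nil)) (.node (.node .leaf (nat_lit 2668713556353699) (.br (nat_lit 0) (.cons (.br (nat_lit 1) (.cons (.rel (nat_lit 20975637)) .nil)) .nil)) .leaf) (nat_lit 2669328201740290) (.br (nat_lit 0) (.cons (.br (nat_lit 1) (.cons (.rel (nat_lit 20976672)) .nil)) .nil)) .leaf)))

/-- refutations 24 -/
def e24 : EX := (.node .leaf (nat_lit 2669821483001916) (.br (nat_lit 0) (.cons (.br (nat_lit 1) (.cons (.rel (nat_lit 41952261)) .nil)) .nil)) .leaf)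

/-- refutations 25 -/
def e25 : EX := (.node .leaf (nat_lit 2733710055050771) (.br (nat_lit 2) (.cons (.br (nat_lit 3) (.cons (.rel (nat_lit 335544597)) .nil)) .nil)) .leaf)

/-- refutations 26 -/
def e26 : EX := (.node .leaf (nat_lit 2734614317988615) (.br (nat_lit 0) (.cons (.br (nat_lit 2) (.cons (.rel (nat_lit 71305236)) .nil)) .nil)) .leaf)

/-- refutations 27 -/
def e27 : EX := (.node (.node (.node .leaf (nat_lit 2394135031270258) (.br (nat_lit 1) (.cons (.br (nat_lit 2) (.cons (.rel (nat_lit 100667664)) .nil)) .nil)) .leaf) (nat_lit 2399289208811008) (.br (nat_lit 0) (.cons (.br (nat_lit 2) (.cons (.rel (nat_lit 71303202)) .nil)) .nil)) (.node .leaf (nat_lit 2399289210537472) (.br (nat_lit 1) (.cons (.br (nat_lit 3) (.cons (.rel (nat_lit 570425601)) .nil)) .nil)) .leaf)) (nat_lit 2399289232526848) (.br (nat_lit 2) (.cons (.br (nat_lit 3) (.cons (.rel (nat_lit 335550468)) .nil)) .nil)) (.node (.node .leaf (nat_lit 2405734587326500) (.br (nat_lit 0) (.cons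 (.br (nat_lit 3) (.cons (.rel (nat_lit 273219585)) .nil)) .nil)) .leaf) (nat_lit 2405734589157412) (.br (nat_lit 0) (.cons (.br (nat_lit 2) (.cons (.rel (nat_lit 71327745)) .nil)) .nil)) .leaf))

/-- refutations 28 -/
def e28 : EX := (.node (.node (.node (.node .leaf (nat_lit 2761973448153838) (.br (nat_lit 1) (.cons (.br (nat_lit 2) (.cons (.rel (nat_lit 167788608)) .nil)) .nil)) .leaf) (nat_lit 2764550429778856) (.br (nat_lit 2) (.cons (.br (nat_lit 0) (.cons (.rel (nat_lit 71303202)) (.cons (.rel (nat_lit 71303202)) .nil))) .nil)) .leaf) (nat_lit 2768905337826837) (.br (nat_lit 0) (.cons (.br (nat_lit 1) (.cons (.rel (nat_lit 20975637)) .nil)) .nil)) (.node .leaf (nat_lit 2768908543856821) (.br (nat_lit 1) (.cons (.br (nat_lit 2) (.cons (.rel (nat_lit 83918976)) .nil)) .nil)) .leaf)) (nat_lit 2768908544165397) (.br (nat_lit 3) (.cons (.br (nat_lit 0) (.cons (.rel (nat_lit 273700872)) (.cons (.rel (nat_lit 272630880)) .nil))) .nil)) (.node (.node (.node .leaf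 (nat_lit 2768908582967332) (.br (nat_lit 3) (.cons (.br (nat_lit 5) (.cons (.rel (nat_lit 9126805521)) .nil)) .nil)) .leaf) (nat_lit 2768908583539963) (.br (nat_lit 0) (.cons (.br (nat_lit 2) (.cons (.rel (nat_lit 71369232)) .nil)) .nil)) .leaf) (nat_lit 2768908584461038) (.br (nat_lit 1) (.cons (.br (nat_lit 3) (.cons (.rel (nat_lit 285221904)) .nil)) .nil)) (.node .leaf (nat_lit 2768908585732228) (.br (nat_lit 0) (.cons (.br (nat_lit 1) (.cons (.rel (nat_lit 20973825)) .nil)) .nil)) .leaf)))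

/-- refutations 29 -/
def e29 : EX := (.node .leaf (nat_lit 2775167588866084) (.br (nat_lit 0) (.cons (.br (nat_lit 1) (.cons (.rel (nat_lit 20987940)) .nil)) .nil)) .leaf)

/-- refutations 30 -/
def e30 : EX := (.node .leaf (nat_lit 2756673874002226) (.br (nat_lit 1) (.cons (.br (nat_lit 2) (.cons (.rel (nat_lit 100729092)) .nil)) .nil)) .leaf)

/-- refutations 31 -/
def e31 : EX := (.node (.node .leaf (nat_lit 2832350545720703) (.br (nat_lit 0) (.cons (.br (nat_lit 1) (.cons (.rel (nat_lit 20973825)) .nil)) .nil)) .leaf) (nat_lit 2837733346986735) (.br (nat_lit 1) (.cons (.br (nat_lit 5) (.cons (.rel (nat_lit 4328522016)) .nil)) .nil)) (.node .leaf (nat_lit 2840072896950572) (.br (nat_lit 0) (.cons (.br (nat_lit 2) (.cons (.rel (nat_lit 139465728)) .nil)) .nil)) .leaf))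

/-- refutations 32 -/
def e32 : EX := (.node (.node (.node .leaf (nat_lit 2843079371762300) (.br (nat_lit 0) (.cons (.br (nat_lit 2) (.cons (.rel (nat_lit 71303202)) .nil)) .nil)) .leaf) (nat_lit 2843082728630908) (.br (nat_lit 0) (.cons (.br (nat_lit 1) (.cons (.rel (nat_lit 37752912)) .nil)) .nil)) .leaf) (nat_lit 2843603359257212) (.br (nat_lit 0) (.cons (.br (nat_lit 4) (.cons (.rel (nat_lit 1077936450)) .nil)) .nil)) (.node (.node .leaf (nat_lit 2843603360238493) (.br (nat_lit 1) (.cons (.br (nat_lit 2) (.cons (.rel (nat_lit 167788608)) .nil)) .nil)) .leaf) (nat_lit 2843605980694714) (.br (nat_lit 0) (.cons (.br (nat_lit 1) (.cons (.rel (nat_lit 20976672)) .nil)) .nil)) .leaf))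

/-- refutations 33 -/
def e33 : EX := (.node .leaf (nat_lit 2815024778232620) (.br (nat_lit 0) (.cons (.br (nat_lit 1) (.cons (.rel (nat_lit 20976672)) .nil)) .nil)) .leaf)

/-- refutations 34 -/
def e34 : EX := (.node .leaf (nat_lit 3101615884180963) (.br (nat_lit 0) (.cons (.br (nat_lit 2) (.cons (.rel (nat_lit 71305236)) .nil)) .nil)) .leaf)

/-- refutations 36 -/
def e36 : EX := (.node (.node (.node .leaf (nat_lit 3120480532867882) (.br (nat_lit 0) (.cons (.br (nat_lit 3) (.cons (.rel (nat_lit 541134852)) .nil)) .nil)) .leaf) (nat_lit 3120703868083727) (.br (nat_lit 1) (.cons (.br (nat_lit 5) (.cons (.rel (nat_lit 4313849856)) .nil)) .nil)) .leaf) (nat_lit 3120703871113227) (.br (nat_lit 1) (.cons (.br (nat_lit 3) (.cons (.rel (nat_lit 285221904)) .nil)) .nil)) (.node .leaf (nat_lit 3120703871114003) (.br (nat_lit 1) (.cons (.br (nat_lit 3) (.cons (.br (nat_lit 4) (.cons (.rel (nat_lit 1343232000)) .nil)) .nil)) .nil)) .leaf))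

/-- refutations 37 -/
def e37 : EX := (.node (.node (.node (.node .leaf (nat_lit 3121814289272161) (.br (nat_lit 0) (.cons (.br (nat_lit 1) (.cons (.rel (nat_lit 20973825)) .nil)) .nil)) .leaf) (nat_lit 3121814290845025) (.br (nat_lit 0) (.cons (.br (nat_lit 1) (.cons (.rel (nat_lit 20971800)) .nil)) .nil)) .leaf) (nat_lit 3121818048371994) (.br (nat_lit 0) (.cons (.br (nat_lit 1) (.cons (.rel (nat_lit 20988930)) .nil)) .nil)) (.node .leaf (nat_lit 3126971521415925) (.br (nat_lit 2) (.cons (.br (nat_lit 3) (.cons (.rel (nat_lit 603980964)) (.cons (.rel (nat_lit 335548434)) (.cons (.rel (nat_lit 335560737)) .nil)))) .nil)) .leaf)) (nat_lit 3126971521891841) (.br (nat_lit 0) (.cons (.br (nat_lit 4) (.cons (.rel (nat_lit 1078986768)) .nil)) .nil)) (.node (.node (.node .leaf (nat_lit 3126971522689159) (.br (nat_lit 0) (.cons (.br (nat_lit 2) (.cons (.rel (nat_lit 71327745)) .nil)) .nil)) .leaf) (nat_lit 3126971522689781) (.br (nat_lit 0) (.cons (.br (nat_lit 3) (.cons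 (.rel (nat_lit 272629845)) .nil)) .nil)) .leaf) (nat_lit 3126971524427265) (.br (nat_lit 5) (.cons (.br (nat_lit 2) (.cons (.rel (nat_lit 8657059842)) (.cons (.rel (nat_lit 4362338817)) .nil))) .nil)) (.node .leaf (nat_lit 3127183001246447) (.br (nat_lit 0) (.cons (.br (nat_lit 1) (.cons (.rel (nat_lit 20988930)) .nil)) .nil)) .leaf)))

/-- refutations 38 -/
def e38 : EX := (.node (.node (.node .leaf (nat_lit 3079922306530180) (.br (nat_lit 0) (.cons (.br (nat_lit 1) (.cons (.rel (nat_lit 20971800)) .nil)) .nil)) .leaf) (nat_lit 3079922307648163) (.br (nat_lit 1) (.cons (.br (nat_lit 3) (.cons (.rel (nat_lit 285278496)) .nil)) .nil)) .leaf) (nat_lit 3089645111568670) (.br (nat_lit 0) (.cons (.br (nat_lit 1) (.cons (.rel (nat_lit 20988930)) .nil)) .nil)) (.node .leaf (nat_lit 3091520758043431) (.br (nat_lit 0) (.cons (.br (nat_lit 3) (.cons (.rel (nat_lit 272699712)) .nil)) .nil)) .leaf))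

/-- refutations 40 -/
def e40 : EX := (.node (.node .leaf (nat_lit 3214073836958471) (.br (nat_lit 0) (.cons (.br (nat_lit 5) (.cons (.rel (nat_lit 4299165957)) .nil)) .nil)) .leaf) (nat_lit 3214073838686514) (.br (nat_lit 1) (.cons (.br (nat_lit 3) (.cons (.rel (nat_lit 285478977)) .nil)) .nil)) .leaf)

/-- refutations 41 -/
def e41 : EX := (.node (.node .leaf (nat_lit 3290220057443834) (.br (nat_lit 0) (.cons (.br (nat_lit 2) (.cons (.rel (nat_lit 71303202)) .nil)) .nil)) .leaf) (nat_lit 3291293677849511) (.br (nat_lit 0) (.cons (.br (nat_lit 1) (.cons (.rel (nat_lit 20988930)) .nil)) .nil)) .leaf)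

/-- refutations 42 -/
def e42 : EX := (.node .leaf (nat_lit 3303105907400760) (.br (nat_lit 0) (.cons (.br (nat_lit 1) (.cons (.rel (nat_lit 21004800)) .nil)) .nil)) .leaf)

/-- refutations 44 -/
def e44 : EX := (.node (.node (.node .leaf (nat_lit 4405780210475665) (.br (nat_lit 0) (.cons (.br (nat_lit 2) (.cons (.rel (nat_lit 71323908)) .nil)) .nil)) .leaf) (nat_lit 4405780210518652) (.br (nat_lit 0) (.cons (.br (nat_lit 4) (.cons (.rel (nat_lit 1078001760)) .nil)) .nil)) .leaf) (nat_lit 4405780283976430) (.br (nat_lit 0) (.cons (.br (nat_lit 3) (.cons (.rel (nat_lit 272630880)) .nil)) .nil)) (.node (.node .leaf (nat_lit 4405782915844722) (.br (nat_lit 0) (.cons (.br (nat_lit 1) (.cons (.rel (nat_lit 27262977)) .nil)) .nil)) .leaf) (nat_lit 4410931415573155) (.br (nat_lit 0) (.cons (.br (nat_lit 2) (.cons (.rel (nat_lit 142606353)) .nil)) .nil)) .leaf))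

/-- refutations 45 -/
def e45 : EX := (.node .leaf (nat_lit 4411447901245500) (.br (nat_lit 0) (.cons (.br (nat_lit 2) (.cons (.rel (nat_lit 71390208)) .nil)) .nil)) .leaf)

/-- refutations 49 -/
def e49 : EX := (.node (.node .leaf (nat_lit 4604715439017242) (.br (nat_lit 0) (.cons (.br (nat_lit 2) (.cons (.rel (nat_lit 71305236)) .nil)) .nil)) .leaf) (nat_lit 4604715440099503) (.br (nat_lit 1) (.cons (.br (nat_lit 4) (.cons (.rel (nat_lit 1090521105)) .nil)) .nil)) .leaf)

/-- refutations 51 -/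
def e51 : EX := (.node (.node .leaf (nat_lit 4844736951102700) (.br (nat_lit 0) (.cons (.br (nat_lit 1) (.cons (.rel (nat_lit 20988930)) .nil)) .nil)) .leaf) (nat_lit 4848866634084509) (.br (nat_lit 0) (.cons (.br (nat_lit 3) (.cons (.rel (nat_lit 272630880)) .nil)) .nil)) .leaf)

/-- refutations 53 -/
def e53 : EX := (.node (.node .leaf (nat_lit 4951178169671062) (.br (nat_lit 0) (.cons (.br (nat_lit 3) (.cons (.rel (nat_lit 276889620)) .nil)) .nil)) .leaf) (nat_lit 4951178171153015) (.br (nat_lit 0) (.cons (.br (nat_lit 1) (.cons (.rel (nat_lit 20975637)) .nil)) .nil)) (.node .leaf (nat_lit 4951181987916433) (.br (nat_lit 1) (.cons (.br (nat_lit 2) (.cons (.rel (nat_lit 151062528)) .nil)) .nil)) .leaf))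

/-- refutations 54 -/
def e54 : EX := (.node (.node (.node (.node .leaf (nat_lit 4951401638952164) (.br (nat_lit 0) (.cons (.br (nat_lit 1) (.cons (.rel (nat_lit 20976672)) .nil)) .nil)) .leaf) (nat_lit 4951401638995226) (.br (nat_lit 0) (.cons (.br (nat_lit 1) (.cons (.rel (nat_lit 20976672)) .nil)) .nil)) (.node .leaf (nat_lit 4951401640297133) (.br (nat_lit 6) (.cons (.br (nat_lit 2) (.cons (.rel (nat_lit 17247305745)) (.cons (.rel (nat_lit 17247240480)) .nil))) .nil)) .leaf)) (nat_lit 4951404762749238) (.br (nat_lit 0) (.cons (.br (nat_lit 1) (.cons (.rel (nat_lit 20988930)) .nil)) .nil)) (.node (.node .leaf (nat_lit 4951405324786970) (.br (nat_lit 3) (.cons (.br (nat_lit 5) (.cons (.rel (nat_lit 9126805521)) .nil)) .nil)) .leaf) (nat_lit 4951405327090970) (.br (nat_lit 1) (.cons (.br (nat_lit 2) (.cons (.rel (nat_lit 150996228)) .nil)) .nil)) (.node .leaf (nat_lit 4951406758931738) (.br (nat_lit 3) (.cons (.br (nat_lit 5) (.cons (.rel (nat_lit 4563423492))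 .nil)) .nil)) .leaf))) (nat_lit 4951406761542938) (.br (nat_lit 5) (.cons (.br (nat_lit 6) (.cons (.rel (nat_lit 25769812992)) .nil)) .nil)) (.node (.node (.node .leaf (nat_lit 4951407929448704) (.br (nat_lit 2) (.cons (.br (nat_lit 3) (.cons (.rel (nat_lit 335609862)) .nil)) .nil)) .leaf) (nat_lit 4951407929448758) (.br (nat_lit 0) (.cons (.br (nat_lit 1) (.cons (.rel (nat_lit 20973825)) .nil)) .nil)) (.node .leaf (nat_lit 4951407931752758) (.br (nat_lit 6) (.cons (.br (nat_lit 0) (.cons (.rel (nat_lit 17184067620)) (.cons (.rel (nat_lit 34368196608)) .nil))) .nil)) .leaf)) (nat_lit 4951407931753079) (.br (nat_lit 0) (.cons (.br (nat_lit 2) (.cons (.rel (nat_lit 75497856)) .nil)) .nil)) (.node (.node .leaf (nat_lit 4954230330830230) (.br (nat_lit 0) (.cons (.br (nat_lit 2) (.cons (.rel (nat_lit 71323908)) .nil)) .nil)) .leaf) (nat_lit 4955696714574130) (.br (nat_lit 1) (.cons (.br (nat_lit 2) (.cons (.rel (nat_lit 167788608)) .nil)) .nil)) (.node .leaf (nat_lit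 4955702481742130) (.br (nat_lit 2) (.cons (.br (nat_lit 3) (.cons (.rel (nat_lit 335610897)) .nil)) .nil)) .leaf))))

/-- refutations 56 -/
def e56 : EX := (.node .leaf (nat_lit 4961486617667093) (.br (nat_lit 1) (.cons (.br (nat_lit 2) (.cons (.rel (nat_lit 85479444)) .nil)) .nil)) .leaf)

/-- refutations 57 -/
def e57 : EX := (.node (.node .leaf (nat_lit 4969002523257093) (.br (nat_lit 0) (.cons (.br (nat_lit 4) (.cons (.rel (nat_lit 2156138496)) .nil)) .nil)) .leaf) (nat_lit 4969008709858587) (.br (nat_lit 2) (.cons (.br (nat_lit 0) (.cons (.rel (nat_lit 71304201)) (.cons (.rel (nat_lit 71305236)) .nil))) .nil)) .leaf)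

/-- refutations 58 -/
def e58 : EX := (.node (.node .leaf (nat_lit 4972808197596686) (.br (nat_lit 0) (.cons (.br (nat_lit 1) (.cons (.rel (nat_lit 20971800)) .nil)) .nil)) .leaf) (nat_lit 4973117433962782) (.br (nat_lit 0) (.cons (.br (nat_lit 3) (.cons (.rel (nat_lit 273154320)) .nil)) .nil)) (.node .leaf (nat_lit 4973117435293148) (.br (nat_lit 0) (.cons (.br (nat_lit 3) (.cons (.rel (nat_lit 272630880)) .nil)) .nil)) .leaf))

/-- refutations 59 -/
def e59 : EX := (.node (.node (.node .leaf (nat_lit 5031460222860025) (.br (nat_lit 0) (.cons (.br (nat_lit 3) (.cons (.rel (nat_lit 273219585)) .nil)) .nil)) .leaf) (nat_lit 5031460225194745) (.br (nat_lit 0) (.cons (.br (nat_lit 1) (.cons (.rel (nat_lit 20975637)) .nil)) .nil)) .leaf) (nat_lit 5033608440306300) (.br (nat_lit 1) (.cons (.br (nat_lit 3) (.cons (.rel (nat_lit 285213186)) .nil)) .nil)) (.node (.node .leaf (nat_lit 5033608441472512) (.br (nat_lit 0) (.cons (.br (nat_lit 2) (.cons (.rel (nat_lit 73958400))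 (.cons (.rel (nat_lit 139465728)) .nil))) .nil)) .leaf) (nat_lit 5033608442546812) (.br (nat_lit 0) (.cons (.br (nat_lit 3) (.cons (.rel (nat_lit 273219585)) .nil)) .nil)) .leaf))

/-- refutations 60 -/
def e60 : EX := (.node (.node .leaf (nat_lit 5038335002492939) (.br (nat_lit 0) (.cons (.br (nat_lit 1) (.cons (.rel (nat_lit 20976672)) .nil)) .nil)) .leaf) (nat_lit 5039411266368270) (.br (nat_lit 1) (.cons (.br (nat_lit 2) (.cons (.rel (nat_lit 84213762)) .nil)) .nil)) (.node .leaf (nat_lit 5039411417276716) (.br (nat_lit 0) (.cons (.br (nat_lit 1) (.cons (.rel (nat_lit 20971800)) .nil)) .nil)) .leaf))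

/-- refutations 61 -/
def e61 : EX := (.node (.node .leaf (nat_lit 5042629759307962) (.br (nat_lit 0) (.cons (.br (nat_lit 3) (.cons (.rel (nat_lit 272630880)) .nil)) .nil)) .leaf) (nat_lit 5042629760537212) (.br (nat_lit 0) (.cons (.br (nat_lit 1) (.cons (.rel (nat_lit 20976672)) .nil)) .nil)) (.node .leaf (nat_lit 5043176893588092) (.br (nat_lit 0) (.cons (.br (nat_lit 4) (.cons (.rel (nat_lit 1077936450)) .nil)) .nil)) .leaf))

/-- refutations 62 -/
def e62 : EX := (.node (.node .leaf (nat_lit 5277655925500654) (.br (nat_lit 0) (.cons (.br (nat_lit 3) (.cons (.rel (nat_lit 273219585)) .nil)) .nil)) .leaf) (nat_lit 5277658645014012) (.br (nat_lit 0) (.cons (.br (nat_lit 2) (.cons (.rel (nat_lit 71312640)) .nil)) .nil)) .leaf)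

/-- refutations 63 -/
def e63 : EX := (.node .leaf (nat_lit 5285178434339091) (.br (nat_lit 0) (.cons (.br (nat_lit 3) (.cons (.rel (nat_lit 541097985)) .nil)) .nil)) .leaf)

/-- refutations 64 -/
def e64 : EX := (.node (.node (.node (.node .leaf (nat_lit 5400801251205870) (.br (nat_lit 0) (.cons (.br (nat_lit 1) (.cons (.rel (nat_lit 37752912)) .nil)) .nil)) .leaf) (nat_lit 5400801356371420) (.br (nat_lit 0) (.cons (.br (nat_lit 1) (.cons (.rel (nat_lit 25493520)) .nil)) .nil)) .leaf) (nat_lit 5400803871574927) (.br (nat_lit 0) (.cons (.br (nat_lit 3) (.cons (.rel (nat_lit 276828192)) .nil)) .nil)) (.node (.node .leaf (nat_lit 5400803947307194) (.br (nat_lit 2) (.cons (.br (nat_lit 3) (.cons (.rel (nat_lit 335560737)) .nil)) .nil)) .leaf) (nat_lit 5400804412874938) (.br (nat_lit 3) (.cons (.br (nat_lit 5) (.cons (.rel (nat_lit 4563501060)) .nil)) .nil)) .leaf)) (nat_lit 5402089846755964) (.br (nat_lit 0) (.cons (.br (nat_lit 1) (.cons (.rel (nat_lit 20973825))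 .nil)) .nil)) (.node (.node (.node .leaf (nat_lit 5402089847480602) (.br (nat_lit 1) (.cons (.br (nat_lit 2) (.cons (.rel (nat_lit 100732929)) .nil)) .nil)) .leaf) (nat_lit 5402089847566972) (.br (nat_lit 0) (.cons (.br (nat_lit 4) (.cons (.rel (nat_lit 1078001760)) .nil)) .nil)) .leaf) (nat_lit 5403164635304242) (.br (nat_lit 0) (.cons (.br (nat_lit 1) (.cons (.rel (nat_lit 20975637)) .nil)) .nil)) (.node (.node .leaf (nat_lit 5403164635816586) (.br (nat_lit 5) (.cons (.br (nat_lit 6) (.cons (.rel (nat_lit 21474840705)) .nil)) .nil)) .leaf) (nat_lit 5403164636951178) (.br (nat_lit 1) (.cons (.br (nat_lit 6) (.cons (.rel (nat_lit 17213460480)) .nil)) .nil)) .leaf)))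

/-- refutations 65 -/
def e65 : EX := (.node (.node (.node (.node (.node .leaf (nat_lit 5408377658737271) (.br (nat_lit 0) (.cons (.br (nat_lit 2) (.cons (.rel (nat_lit 142606353)) (.cons (.rel (nat_lit 142606353)) .nil))) (.cons (.br (nat_lit 2) (.cons (.rel (nat_lit 71303202)) (.cons (.rel (nat_lit 142606353)) .nil))) .nil))) .leaf) (nat_lit 5408377677383941) (.br (nat_lit 0) (.cons (.br (nat_lit 1) (.cons (.rel (nat_lit 21233745)) .nil)) .nil)) .leaf) (nat_lit 5408377678834300) (.br (nat_lit 0) (.cons (.br (nat_lit 2) (.cons (.rel (nat_lit 71327745)) .nil)) .nil)) (.node (.node .leaf (nat_lit 5408377678835089) (.br (nat_lit 0) (.cons (.br (nat_lit 2) (.cons (.rel (nat_lit 71327745)) .nil)) .nil)) .leaf) (nat_lit 5408377678876933) (.br (nat_lit 0) (.cons (.br (nat_lit 2) (.cons (.rel (nat_lit 71303202)) .nil)) .nil)) .leaf)) (nat_lit 5408377678876954) (.br (nat_lit 0) (.cons (.br (nat_lit 6) (.cons (.rel (nat_lit 34363932996)) (.cons (.rel (nat_lit 34363936833))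 .nil))) .nil)) (.node (.node (.node .leaf (nat_lit 5408377678877308) (.br (nat_lit 1) (.cons (.br (nat_lit 4) (.cons (.rel (nat_lit 1090519080)) .nil)) .nil)) .leaf) (nat_lit 5408377679601946) (.br (nat_lit 0) (.cons (.br (nat_lit 3) (.cons (.rel (nat_lit 272699712)) .nil)) .nil)) .leaf) (nat_lit 5408377679602339) (.br (nat_lit 3) (.cons (.br (nat_lit 4) (.cons (.rel (nat_lit 1343243268)) .nil)) .nil)) (.node (.node .leaf (nat_lit 5408377679644933) (.br (nat_lit 1) (.cons (.br (nat_lit 2) (.cons (.rel (nat_lit 167788608)) .nil)) .nil)) .leaf) (nat_lit 5408377679688316) (.br (nat_lit 0) (.cons (.br (nat_lit 3) (.cons (.rel (nat_lit 276828192)) .nil)) .nil)) .leaf))) (nat_lit 5408378220710149) (.br (nat_lit 1) (.cons (.br (nat_lit 3) (.cons (.rel (nat_lit 553910280)) .nil)) .nil)) (.node (.node (.node (.node .leaf (nat_lit 5408378220753571) (.br (nat_lit 0) (.cons (.br (nat_lit 2) (.cons (.rel (nat_lit 71401476)) .nil)) .nil)) .leaf) (nat_lit 5408378221224743) (.br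 (nat_lit 0) (.cons (.br (nat_lit 4) (.cons (.rel (nat_lit 1082130960)) .nil)) .nil)) .leaf) (nat_lit 5408380735031578) (.br (nat_lit 1) (.cons (.br (nat_lit 3) (.cons (.rel (nat_lit 285246465)) (.cons (.rel (nat_lit 285278496)) .nil))) .nil)) (.node (.node .leaf (nat_lit 5408380737249562) (.br (nat_lit 2) (.cons (.br (nat_lit 6) (.cons (.rel (nat_lit 17248030800)) .nil)) .nil)) .leaf) (nat_lit 5408380737335578) (.br (nat_lit 1) (.cons (.br (nat_lit 0) (.cons (.rel (nat_lit 20971800)) (.cons (.rel (nat_lit 41959680)) .nil))) .nil)) .leaf)) (nat_lit 5408381323790341) (.br (nat_lit 1) (.cons (.br (nat_lit 5) (.cons (.rel (nat_lit 4311745920)) (.cons (.rel (nat_lit 4311745920)) .nil))) .nil)) (.node (.node (.node .leaf (nat_lit 5408381324453397) (.br (nat_lit 1) (.cons (.br (nat_lit 5) (.cons (.rel (nat_lit 8624541696)) (.cons (.rel (nat_lit 4313849856)) .nil))) .nil)) .leaf) (nat_lit 5408383865538842) (.br (nat_lit 0) (.cons (.br (nat_lit 1) (.cons (.rel (nat_lit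 20975637)) .nil)) .nil)) .leaf) (nat_lit 5408383866200346) (.br (nat_lit 1) (.cons (.br (nat_lit 2) (.cons (.rel (nat_lit 84148497)) .nil)) .nil)) (.node .leaf (nat_lit 5408383866200700) (.br (nat_lit 0) (.cons (.br (nat_lit 4) (.cons (.rel (nat_lit 1082130960)) .nil)) .nil)) .leaf))))

/-- refutations 66 -/
def e66 : EX := (.node (.node (.node .leaf (nat_lit 5408798476416527) (.br (nat_lit 0) (.cons (.br (nat_lit 1) (.cons (.rel (nat_lit 20976672)) .nil)) .nil)) .leaf) (nat_lit 5411756579479738) (.br (nat_lit 0) (.cons (.br (nat_lit 2) (.cons (.rel (nat_lit 71434497)) .nil)) .nil)) (.node .leaf (nat_lit 5412065816886655) (.br (nat_lit 0) (.cons (.br (nat_lit 1) (.cons (.rel (nat_lit 20973825)) .nil)) .nil)) .leaf)) (nat_lit 5412065817125050) (.br (nat_lit 0) (.cons (.br (nat_lit 3) (.cons (.rel (nat_lit 276840450)) .nil)) .nil)) (.node (.node .leaf (nat_lit 5412065818465663) (.br (nat_lit 1) (.cons (.br (nat_lit 3) (.cons (.rel (nat_lit 570425601)) .nil)) .nil))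 .leaf) (nat_lit 5412925398922016) (.br (nat_lit 0) (.cons (.br (nat_lit 4) (.cons (.rel (nat_lit 1077954624)) .nil)) .nil)) .leaf))

/-- refutations 67 -/
def e67 : EX := (.node (.node .leaf (nat_lit 5414169785758002) (.br (nat_lit 0) (.cons (.br (nat_lit 1) (.cons (.rel (nat_lit 20976672)) .nil)) .nil)) .leaf) (nat_lit 5414170833445514) (.br (nat_lit 0) (.cons (.br (nat_lit 1) (.cons (.rel (nat_lit 20975637)) .nil)) .nil)) (.node .leaf (nat_lit 5414170833446139) (.br (nat_lit 0) (.cons (.br (nat_lit 5) (.cons (.rel (nat_lit 4299169794)) .nil)) .nil)) .leaf))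

/-- refutations 68 -/
def e68 : EX := (.node (.node .leaf (nat_lit 11084635351307497) (.br (nat_lit 0) (.cons (.br (nat_lit 2) (.cons (.rel (nat_lit 142606353)) .nil)) .nil)) .leaf) (nat_lit 11084635352853737) (.br (nat_lit 0) (.cons (.br (nat_lit 2) (.cons (.rel (nat_lit 71303202)) .nil)) .nil)) (.node .leaf (nat_lit 11084635917856900) (.br (nat_lit 1) (.cons (.br (nat_lit 2) (.cons (.rel (nat_lit 167788608)) .nil)) .nil)) .leaf))

/-- refutations 69 -/
def e69 : EX := (.node (.node (.node .leaf (nat_lit 11091083809744155) (.br (nat_lit 0) (.cons (.br (nat_lit 2) (.cons (.rel (nat_lit 71305236)) .nil)) .nil)) .leaf) (nat_lit 11091085906132251) (.br (nat_lit 0) (.cons (.br (nat_lit 2) (.cons (.rel (nat_lit 71303202)) .nil)) .nil)) .leaf) (nat_lit 11094988781016416) (.br (nat_lit 0) (.cons (.br (nat_lit 1) (.cons (.rel (nat_lit 21037065)) .nil)) .nil)) (.node .leaf (nat_lit 11094988782872837) (.br (nat_lit 0) (.cons (.br (nat_lit 3) (.cons (.rel (nat_lit 272630880))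 .nil)) .nil)) .leaf))

/-- refutations 71 -/
def e71 : EX := (.node .leaf (nat_lit 11196636925246747) (.br (nat_lit 1) (.cons (.br (nat_lit 2) (.cons (.rel (nat_lit 84154368)) .nil)) .nil)) .leaf)

/-- refutations 72 -/
def e72 : EX := (.node (.node (.node (.node .leaf (nat_lit 11628744214596370) (.br (nat_lit 3) (.cons (.br (nat_lit 4) (.cons (.rel (nat_lit 1342178880)) .nil)) .nil)) .leaf) (nat_lit 11629723706435866) (.br (nat_lit 0) (.cons (.br (nat_lit 1) (.cons (.rel (nat_lit 20987940)) .nil)) .nil)) .leaf) (nat_lit 11629723706436259) (.br (nat_lit 0) (.cons (.br (nat_lit 2) (.cons (.rel (nat_lit 72679425)) .nil)) .nil)) (.node (.node .leaf (nat_lit 11629726762633498) (.br (nat_lit 0) (.cons (.br (nat_lit 1) (.cons (.rel (nat_lit 20975637)) .nil)) .nil)) .leaf) (nat_lit 11629726763571961) (.br (nat_lit 0) (.cons (.br (nat_lit 1) (.cons (.rel (nat_lit 20971800)) .nil)) .nil)) .leaf)) (nat_lit 11629726764126883) (.br (nat_lit 1) (.cons (.br (nat_lit 2) (.cons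 (.rel (nat_lit 84148497)) .nil)) .nil)) (.node (.node (.node .leaf (nat_lit 11629727135677327) (.br (nat_lit 0) (.cons (.br (nat_lit 5) (.cons (.rel (nat_lit 8598323460)) .nil)) .nil)) .leaf) (nat_lit 11629727137366027) (.br (nat_lit 0) (.cons (.br (nat_lit 1) (.cons (.rel (nat_lit 25707072)) .nil)) .nil)) .leaf) (nat_lit 11629727137420689) (.br (nat_lit 0) (.cons (.br (nat_lit 1) (.cons (.rel (nat_lit 20971800)) .nil)) .nil)) (.node (.node .leaf (nat_lit 11630033963383720) (.br (nat_lit 2) (.cons (.br (nat_lit 3) (.cons (.rel (nat_lit 335610897)) .nil)) .nil)) .leaf) (nat_lit 11630036375789850) (.br (nat_lit 0) (.cons (.br (nat_lit 1) (.cons (.rel (nat_lit 41952261)) .nil)) .nil)) .leaf)))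

/-- refutations 73 -/
def e73 : EX := (.node (.node .leaf (nat_lit 11630797449539595) (.br (nat_lit 0) (.cons (.br (nat_lit 1) (.cons (.rel (nat_lit 21037065)) .nil)) .nil)) .leaf) (nat_lit 11631107754941966) (.br (nat_lit 1) (.cons (.br (nat_lit 3) (.cons (.rel (nat_lit 570430485)) .nil)) .nil)) .leaf)

/-- refutations 74 -/
def e74 : EX := (.node (.node (.node .leaf (nat_lit 11635370350693288) (.br (nat_lit 0) (.cons (.br (nat_lit 3) (.cons (.rel (nat_lit 272777280)) .nil)) .nil)) .leaf) (nat_lit 11636011538601218) (.br (nat_lit 0) (.cons (.br (nat_lit 1) (.cons (.rel (nat_lit 37814340)) .nil)) .nil)) .leaf) (nat_lit 11636475154500970) (.br (nat_lit 0) (.cons (.br (nat_lit 3) (.cons (.rel (nat_lit 273809424)) .nil)) .nil)) (.node (.node .leaf (nat_lit 11636475155533033) (.br (nat_lit 1) (.cons (.br (nat_lit 6) (.cons (.rel (nat_lit 17196926208)) .nil)) .nil)) .leaf) (nat_lit 11636475156804220) (.br (nat_lit 0) (.cons (.br (nat_lit 3) (.cons (.rel (nat_lit 276840450))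 .nil)) .nil)) .leaf))

/-- refutations 75 -/
def e75 : EX := (.node (.node (.node (.node (.node .leaf (nat_lit 11639696427559587) (.br (nat_lit 1) (.cons (.br (nat_lit 2) (.cons (.rel (nat_lit 100729092)) .nil)) .nil)) .leaf) (nat_lit 11639696618740462) (.br (nat_lit 0) (.cons (.br (nat_lit 5) (.cons (.rel (nat_lit 4299294720)) .nil)) .nil)) .leaf) (nat_lit 11639696619047587) (.br (nat_lit 0) (.cons (.br (nat_lit 2) (.cons (.rel (nat_lit 71304201)) .nil)) .nil)) (.node (.node .leaf (nat_lit 11639696619048319) (.br (nat_lit 0) (.cons (.br (nat_lit 1) (.cons (.rel (nat_lit 20975637)) .nil)) .nil)) .leaf) (nat_lit 11639696620540540) (.br (nat_lit 0) (.cons (.br (nat_lit 3) (.cons (.rel (nat_lit 272630880)) .nil)) .nil)) .leaf)) (nat_lit 11639696620540579) (.br (nat_lit 1) (.cons (.br (nat_lit 2) (.cons (.rel (nat_lit 167788608)) .nil)) .nil)) (.node (.node (.node .leaf (nat_lit 11639696621265178) (.br (nat_lit 0) (.cons (.br (nat_lit 1) (.cons (.rel (nat_lit 22020228))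 .nil)) .nil)) .leaf) (nat_lit 11639696621351194) (.br (nat_lit 6) (.cons (.br (nat_lit 1) (.cons (.rel (nat_lit 34376515617)) (.cons (.rel (nat_lit 17196926208)) .nil))) .nil)) .leaf) (nat_lit 11639696621351212) (.br (nat_lit 0) (.cons (.br (nat_lit 3) (.cons (.rel (nat_lit 272629845)) .nil)) .nil)) (.node .leaf (nat_lit 11639697689628031) (.br (nat_lit 0) (.cons (.br (nat_lit 1) (.cons (.rel (nat_lit 21004800)) .nil)) .nil)) .leaf))) (nat_lit 11639699676609919) (.br (nat_lit 0) (.cons (.br (nat_lit 4) (.cons (.rel (nat_lit 1078001760)) .nil)) .nil)) (.node (.node (.node (.node .leaf (nat_lit 11639699676695953) (.br (nat_lit 0) (.cons (.br (nat_lit 3) (.cons (.rel (nat_lit 276840450)) .nil)) .nil)) .leaf) (nat_lit 11639699678188927) (.br (nat_lit 0) (.cons (.br (nat_lit 1) (.cons (.rel (nat_lit 20973825)) .nil)) .nil)) .leaf) (nat_lit 11639699678913187) (.br (nat_lit 1) (.cons (.br (nat_lit 3) (.cons (.rel (nat_lit 285213186)) .nil)) .nil)) (.node .leaf (nat_lit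 11639699678998810) (.br (nat_lit 0) (.cons (.br (nat_lit 2) (.cons (.rel (nat_lit 71327745)) .nil)) .nil)) .leaf)) (nat_lit 11639699678999203) (.br (nat_lit 0) (.cons (.br (nat_lit 2) (.cons (.rel (nat_lit 71327745)) .nil)) .nil)) (.node (.node (.node .leaf (nat_lit 11639699785661091) (.br (nat_lit 0) (.cons (.br (nat_lit 6) (.cons (.rel (nat_lit 17184079878)) .nil)) .nil)) .leaf) (nat_lit 11639699785747068) (.br (nat_lit 1) (.cons (.br (nat_lit 3) (.cons (.rel (nat_lit 285343761)) .nil)) .nil)) .leaf) (nat_lit 11639699787186812) (.br (nat_lit 0) (.cons (.br (nat_lit 4) (.cons (.rel (nat_lit 1078198404)) .nil)) .nil)) (.node .leaf (nat_lit 11639699787197802) (.br (nat_lit 1) (.cons (.br (nat_lit 2) (.cons (.rel (nat_lit 84213762)) .nil)) .nil)) .leaf))))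

/-- refutations 76 -/
def e76 : EX := (.node .leaf (nat_lit 11440510156412280) (.br (nat_lit 0) (.cons (.br (nat_lit 1) (.cons (.rel (nat_lit 20987940)) .nil)) .nil)) .leaf)

/-- refutations 77 -/
def e77 : EX := (.node .leaf (nat_lit 12088240774562468) (.br (nat_lit 0) (.cons (.br (nat_lit 2) (.cons (.rel (nat_lit 71303202)) (.cons (.rel (nat_lit 142606353)) .nil))) .nil)) .leaf)

/-- refutations 78 -/
def e78 : EX := (.node .leaf (nat_lit 12093841413305627) (.br (nat_lit 0) (.cons (.br (nat_lit 2) (.cons (.rel (nat_lit 71312640)) .nil)) .nil)) .leaf)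

/-- refutations 80 -/
def e80 : EX := (.node (.node .leaf (nat_lit 13195431695125380) (.br (nat_lit 2) (.cons (.br (nat_lit 5) (.cons (.rel (nat_lit 8725210113)) .nil)) .nil)) .leaf) (nat_lit 13196504430316420) (.br (nat_lit 0) (.cons (.br (nat_lit 1) (.cons (.rel (nat_lit 21004800)) .nil)) .nil)) .leaf)

/-- refutations 81 -/
def e81 : EX := (.node (.node .leaf (nat_lit 13201971389931681) (.br (nat_lit 3) (.cons (.br (nat_lit 5) (.cons (.rel (nat_lit 4563402786)) .nil)) .nil)) .leaf) (nat_lit 13201971391008231) (.br (nat_lit 0) (.cons (.br (nat_lit 2) (.cons (.rel (nat_lit 71303202)) .nil)) .nil)) .leaf)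

/-- refutations 82 -/
def e82 : EX := (.node .leaf (nat_lit 13206166730780135) (.br (nat_lit 1) (.cons (.br (nat_lit 2) (.cons (.rel (nat_lit 85983264)) .nil)) .nil)) .leaf)

/-- refutations 83 -/
def e83 : EX := (.node (.node .leaf (nat_lit 13319528068434556) (.br (nat_lit 1) (.cons (.br (nat_lit 2) (.cons (.rel (nat_lit 83918976)) .nil)) .nil)) .leaf) (nat_lit 13319532308875900) (.br (nat_lit 0) (.cons (.br (nat_lit 3) (.cons (.rel (nat_lit 272630880)) (.cons (.rel (nat_lit 273678849)) .nil))) .nil)) (.node .leaf (nat_lit 13319867316324988) (.br (nat_lit 0) (.cons (.br (nat_lit 3) (.cons (.rel (nat_lit 272630880)) .nil)) .nil)) .leaf))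

/-- refutations 84 -/
def e84 : EX := (.node (.node .leaf (nat_lit 13324216966294314) (.br (nat_lit 0) (.cons (.br (nat_lit 1) (.cons (.rel (nat_lit 20975637)) .nil)) .nil)) .leaf) (nat_lit 13324218171715093) (.br (nat_lit 0) (.cons (.br (nat_lit 2) (.cons (.rel (nat_lit 71303202)) .nil)) .nil)) .leaf)

/-- refutations 85 -/
def e85 : EX := (.node (.node .leaf (nat_lit 13329371967208049) (.br (nat_lit 0) (.cons (.br (nat_lit 2) (.cons (.rel (nat_lit 71305236)) .nil)) .nil)) .leaf) (nat_lit 13329537863069882) (.br (nat_lit 0) (.cons (.br (nat_lit 1) (.cons (.rel (nat_lit 41959680)) .nil)) .nil)) .leaf)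

/-- refutations 86 -/
def e86 : EX := (.node (.node .leaf (nat_lit 13371353183280491) (.br (nat_lit 0) (.cons (.br (nat_lit 1) (.cons (.rel (nat_lit 20976672)) .nil)) .nil)) .leaf) (nat_lit 13371356218942340) (.br (nat_lit 0) (.cons (.br (nat_lit 2) (.cons (.rel (nat_lit 71304201)) .nil)) .nil)) .leaf)

/-- refutations 87 -/
def e87 : EX := (.node (.node .leaf (nat_lit 13382173855946933) (.br (nat_lit 0) (.cons (.br (nat_lit 1) (.cons (.rel (nat_lit 20971800)) .nil)) .nil)) .leaf) (nat_lit 13382174511966235) (.br (nat_lit 4) (.cons (.br (nat_lit 5) (.cons (.rel (nat_lit 10737434880)) .nil)) .nil)) (.node .leaf (nat_lit 13382174513342491) (.br (nat_lit 4) (.cons (.br (nat_lit 5) (.cons (.rel (nat_lit 10737434880)) .nil)) .nil)) .leaf))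

/-- refutations 88 -/
def e88 : EX := (.node (.node (.node .leaf (nat_lit 13634376303158048) (.br (nat_lit 4) (.cons (.br (nat_lit 3) (.cons (.rel (nat_lit 1610617857)) (.cons (.rel (nat_lit 1610617857)) .nil))) .nil)) .leaf) (nat_lit 13636154448415352) (.br (nat_lit 1) (.cons (.br (nat_lit 2) (.cons (.rel (nat_lit 84165636)) .nil)) .nil)) .leaf) (nat_lit 13640707618603815) (.br (nat_lit 1) (.cons (.br (nat_lit 3) (.cons (.rel (nat_lit 285213186)) .nil)) .nil)) (.node .leaf (nat_lit 13640707620252455) (.br (nat_lit 2) (.cons (.br (nat_lit 4) (.cons (.rel (nat_lit 2281701633)) .nil)) .nil)) .leaf))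

/-- refutations 89 -/
def e89 : EX := (.node (.node (.node .leaf (nat_lit 13646187462912300) (.br (nat_lit 0) (.cons (.br (nat_lit 2) (.cons (.rel (nat_lit 71312640)) .nil)) .nil)) .leaf) (nat_lit 13646187597129989) (.br (nat_lit 0) (.cons (.br (nat_lit 4) (.cons (.rel (nat_lit 1078001760)) .nil)) .nil)) .leaf) (nat_lit 13646187597390085) (.br (nat_lit 0) (.cons (.br (nat_lit 3) (.cons (.rel (nat_lit 276840450)) .nil)) .nil)) (.node .leaf (nat_lit 13646187597458944) (.br (nat_lit 0) (.cons (.br (nat_lit 2) (.cons (.rel (nat_lit 71369232)) .nil)) .nil)) .leaf))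

/-- refutations 90 -/
def e90 : EX := (.node (.node (.node .leaf (nat_lit 13827896429817345) (.br (nat_lit 0) (.cons (.br (nat_lit 3) (.cons (.rel (nat_lit 273686532)) .nil)) .nil)) .leaf) (nat_lit 13829015632328836) (.br (nat_lit 2) (.cons (.br (nat_lit 6) (.cons (.rel (nat_lit 34495004673)) .nil)) .nil)) .leaf) (nat_lit 13829016942323838) (.br (nat_lit 0) (.cons (.br (nat_lit 3) (.cons (.br (nat_lit 4) (.cons (.rel (nat_lit 1610614020)) .nil)) .nil)) .nil)) (.node .leaf (nat_lit 13829059890459435) (.br (nat_lit 0) (.cons (.br (nat_lit 1) (.cons (.rel (nat_lit 41959680)) .nil)) .nil)) .leaf))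

/-- refutations 91 -/
def e91 : EX := (.node (.node (.node .leaf (nat_lit 13832889691295078) (.br (nat_lit 0) (.cons (.br (nat_lit 6) (.cons (.rel (nat_lit 17184065808)) .nil)) .nil)) .leaf) (nat_lit 13832889693902182) (.br (nat_lit 0) (.cons (.br (nat_lit 1) (.cons (.rel (nat_lit 20987940)) .nil)) .nil)) .leaf) (nat_lit 13833949969234731) (.br (nat_lit 0) (.cons (.br (nat_lit 1) (.cons (.rel (nat_lit 20987940)) .nil)) .nil)) (.node (.node .leaf (nat_lit 13833949970772028) (.br (nat_lit 2) (.cons (.br (nat_lit 6) (.cons (.rel (nat_lit 17249075202)) .nil)) .nil)) .leaf) (nat_lit 13834130360937259) (.br (nat_lit 0) (.cons (.br (nat_lit 1) (.cons (.br (nat_lit 6) (.cons (.rel (nat_lit 17213423634)) .nil)) .nil)) .nil)) .leaf))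

/-- refutations 92 -/
def e92 : EX := (.node (.node (.node (.node .leaf (nat_lit 13834395597710748) (.br (nat_lit 3) (.cons (.br (nat_lit 4) (.cons (.rel (nat_lit 1610617857)) .nil)) .nil)) .leaf) (nat_lit 13835464830205404) (.br (nat_lit 2) (.cons (.br (nat_lit 3) (.cons (.rel (nat_lit 335548434)) .nil)) .nil)) .leaf) (nat_lit 13835464832673051) (.br (nat_lit 2) (.cons (.br (nat_lit 5) (.cons (.rel (nat_lit 4429202688)) .nil)) .nil)) (.node .leaf (nat_lit 13835466674525596) (.br (nat_lit 1) (.cons (.br (nat_lit 3) (.cons (.rel (nat_lit 285221904)) .nil)) .nil)) .leaf)) (nat_lit 13835466674591003) (.br (nat_lit 0) (.cons (.br (nat_lit 1) (.cons (.rel (nat_lit 20973825)) .nil)) .nil)) (.node (.node .leaf (nat_lit 13835470389194763) (.br (nat_lit 1) (.cons (.br (nat_lit 2) (.cons (.rel (nat_lit 84148497)) .nil)) .nil)) .leaf) (nat_lit 13835470389196302) (.br (nat_lit 0) (.cons (.br (nat_lit 6) (.cons (.rel (nat_lit 34364981280)) .nil)) .nil)) (.node .leaf (nat_lit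 13835470390117002) (.br (nat_lit 0) (.cons (.br (nat_lit 2) (.cons (.rel (nat_lit 71327745)) .nil)) .nil)) .leaf)))

/-- refutations 93 -/
def e93 : EX := (.node (.node (.node .leaf (nat_lit 13839366502017285) (.br (nat_lit 0) (.cons (.br (nat_lit 4) (.cons (.rel (nat_lit 2151678240)) .nil)) .nil)) .leaf) (nat_lit 13839366503512196) (.br (nat_lit 1) (.cons (.br (nat_lit 3) (.cons (.rel (nat_lit 285221904)) (.cons (.rel (nat_lit 570425601)) .nil))) .nil)) (.node .leaf (nat_lit 13839366504884485) (.br (nat_lit 0) (.cons (.br (nat_lit 2) (.cons (.rel (nat_lit 142606353)) .nil)) .nil)) .leaf)) (nat_lit 13839798621167118) (.br (nat_lit 0) (.cons (.br (nat_lit 1) (.cons (.rel (nat_lit 20971800)) .nil)) .nil)) (.node (.node .leaf (nat_lit 13840360424910337) (.br (nat_lit 3) (.cons (.br (nat_lit 0) (.cons (.rel (nat_lit 273686532)) (.cons (.rel (nat_lit 541073424)) .nil))) .nil)) .leaf) (nat_lit 13840360546545153) (.br (nat_lit 0) (.cons (.br (nat_lit 3) (.cons (.rel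 (nat_lit 272630880)) .nil)) .nil)) .leaf))

/-- refutations 94 -/
def e94 : EX := (.node (.node (.node .leaf (nat_lit 14073751592747690) (.br (nat_lit 0) (.cons (.br (nat_lit 1) (.cons (.rel (nat_lit 20988930)) .nil)) .nil)) .leaf) (nat_lit 14073751593058440) (.br (nat_lit 0) (.cons (.br (nat_lit 2) (.cons (.rel (nat_lit 71304201)) .nil)) .nil)) (.node .leaf (nat_lit 14074026469108362) (.br (nat_lit 0) (.cons (.br (nat_lit 5) (.cons (.rel (nat_lit 4299162120)) .nil)) .nil)) .leaf)) (nat_lit 14074026469378959) (.br (nat_lit 1) (.cons (.br (nat_lit 5) (.cons (.rel (nat_lit 8624541696)) .nil)) .nil)) (.node (.node .leaf (nat_lit 14074030052591104) (.br (nat_lit 0) (.cons (.br (nat_lit 1) (.cons (.rel (nat_lit 38797314)) .nil)) .nil)) .leaf) (nat_lit 14074238573981185) (.br (nat_lit 0) (.cons (.br (nat_lit 2) (.cons (.rel (nat_lit 71582016)) .nil)) .nil)) (.node .leaf (nat_lit 14074241217473162) (.br (nat_lit 0) (.cons (.br (nat_lit 1) (.cons (.rel (nat_lit 20988930))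 .nil)) .nil)) .leaf)))

/-- refutations 95 -/
def e95 : EX := (.node .leaf (nat_lit 14080406268623658) (.br (nat_lit 1) (.cons (.br (nat_lit 3) (.cons (.rel (nat_lit 285233172)) .nil)) .nil)) .leaf)

/-- refutations 96 -/
def e96 : EX := (.node (.node (.node .leaf (nat_lit 14085012863076538) (.br (nat_lit 0) (.cons (.br (nat_lit 1) (.cons (.rel (nat_lit 41959680)) .nil)) .nil)) .leaf) (nat_lit 14085560229407030) (.br (nat_lit 0) (.cons (.br (nat_lit 2) (.cons (.rel (nat_lit 71369232)) .nil)) .nil)) .leaf) (nat_lit 14085560520266034) (.br (nat_lit 0) (.cons (.br (nat_lit 1) (.cons (.rel (nat_lit 21045504)) .nil)) .nil)) (.node (.node .leaf (nat_lit 14085566317049333) (.br (nat_lit 3) (.cons (.br (nat_lit 4) (.cons (.rel (nat_lit 1342178880)) .nil)) .nil)) .leaf) (nat_lit 14085835951544602) (.br (nat_lit 0) (.cons (.br (nat_lit 1) (.cons (.rel (nat_lit 41959680)) .nil)) .nil)) .leaf))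

/-- refutations 97 -/
def e97 : EX := (.node (.node .leaf (nat_lit 14086900078820879) (.br (nat_lit 3) (.cons (.br (nat_lit 0) (.cons (.rel (nat_lit 272777280)) (.cons (.rel (nat_lit 272699712)) .nil))) .nil)) .leaf) (nat_lit 14086900259175210) (.br (nat_lit 0) (.cons (.br (nat_lit 2) (.cons (.rel (nat_lit 71304201)) .nil)) .nil)) (.node .leaf (nat_lit 14086900259269418) (.br (nat_lit 2) (.cons (.br (nat_lit 0) (.cons (.rel (nat_lit 71434497)) (.cons (.rel (nat_lit 139476996)) .nil))) .nil)) .leaf))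

/-- refutations 98 -/
def e98 : EX := (.node .leaf (nat_lit 14197206254321839) (.br (nat_lit 0) (.cons (.br (nat_lit 2) (.cons (.rel (nat_lit 138412608)) .nil)) .nil)) .leaf)

/-- refutations 99 -/
def e99 : EX := (.node .leaf (nat_lit 14204411110865028) (.br (nat_lit 1) (.cons (.br (nat_lit 2) (.cons (.rel (nat_lit 168820752)) .nil)) .nil)) .leaf)

/-- list of the parts -/
def L0 : List (ℕ × List ℕ) := [(nat_lit 0x4000, [Nat.sub (Nat.pow 2 904) (Nat.pow 2 0), Nat.sub (Nat.pow 2 3136) (Nat.pow 2 904)]),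
  (nat_lit 0x800000000, [Nat.sub (Nat.pow 2 936) (Nat.pow 2 0), Nat.sub (Nat.pow 2 1560) (Nat.pow 2 936), Nat.sub (Nat.pow 2 3136) (Nat.pow 2 1560)]),
  (nat_lit 0x800, [cP]),
  (nat_lit 0x100000000000000, [Nat.sub (Nat.pow 2 879) (Nat.pow 2 0), Nat.sub (Nat.pow 2 3136) (Nat.pow 2 879)]),
  (nat_lit 0x1000000000000000, [Nat.sub (Nat.pow 2 636) (Nat.pow 2 0), Nat.sub (Nat.pow 2 3136) (Nat.pow 2 636)]),
  (nat_lit 0x2000000000000000, [Nat.sub (Nat.pow 2 636) (Nat.pow 2 0), Nat.sub (Nat.pow 2 891) (Nat.pow 2 636), Nat.sub (Nat.pow 2 1560) (Nat.pow 2 891), Nat.sub (Nat.pow 2 3136) (Nat.pow 2 1560)]),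
  (nat_lit 0x200000000000000000000000000000000, [Nat.sub (Nat.pow 2 811) (Nat.pow 2 0), Nat.sub (Nat.pow 2 3136) (Nat.pow 2 811)]),
  (nat_lit 0x4000000000000000000000000000000000, [Nat.sub (Nat.pow 2 786) (Nat.pow 2 0), Nat.sub (Nat.pow 2 3136) (Nat.pow 2 786)]),
  (nat_lit 0x40000000000000, [cP]),
  (nat_lit 0x80000000000000000000000000000000000, [cP]),
  (nat_lit 0x200000000000000000000000000000000000, [Nat.sub (Nat.pow 2 879) (Nat.pow 2 0), Nat.sub (Nat.pow 2 3136) (Nat.pow 2 879)]),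
  (nat_lit 0x800000000000000000000000000000000000000, [Nat.sub (Nat.pow 2 805) (Nat.pow 2 0), Nat.sub (Nat.pow 2 1534) (Nat.pow 2 805), Nat.sub (Nat.pow 2 3136) (Nat.pow 2 1534)]),
  (nat_lit 0x8000000000000000000000000000000000000000, [Nat.sub (Nat.pow 2 811) (Nat.pow 2 0), Nat.sub (Nat.pow 2 3136) (Nat.pow 2 811)]),
  (nat_lit 0x100000000000000000000000000000000000, [cP]),
  (nat_lit 0x20000000000000000000000000000000000000000, [Nat.sub (Nat.pow 2 909) (Nat.pow 2 0), Nat.sub (Nat.pow 2 3136) (Nat.pow 2 909)]),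
  (nat_lit 0x10000000000000000000000000000000000000000, [cP]),
  (nat_lit 0x200000000000000000000000000000000000000000, [Nat.sub (Nat.pow 2 909) (Nat.pow 2 0), Nat.sub (Nat.pow 2 3136) (Nat.pow 2 909)]),
  (nat_lit 0x100000000000000000000000000000000000000000, [cP]),
  (nat_lit 0x1000000000000000000000000000000000000000000000, [Nat.sub (Nat.pow 2 756) (Nat.pow 2 0), Nat.sub (Nat.pow 2 3136) (Nat.pow 2 756)]),
  (nat_lit 0x2000000000000000000000000000000000000000000000, [Nat.sub (Nat.pow 2 909) (Nat.pow 2 0), Nat.sub (Nat.pow 2 3136) (Nat.pow 2 909)]),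
  (nat_lit 0x800000000000000000000000000000000000000000000, [cP]),
  (nat_lit 0x40000000000000000000000000000000000000000000000, [Nat.sub (Nat.pow 2 891) (Nat.pow 2 0), Nat.sub (Nat.pow 2 3136) (Nat.pow 2 891)]),
  (nat_lit 0x800000000000000000000000000000000000000000000000, [Nat.sub (Nat.pow 2 811) (Nat.pow 2 0), Nat.sub (Nat.pow 2 3136) (Nat.pow 2 811)]),
  (nat_lit 0x4000000000000000000000000000000000000000000000000000000000000000, [Nat.sub (Nat.pow 2 904) (Nat.pow 2 0), Nat.sub (Nat.pow 2 1564) (Nat.pow 2 904), Nat.sub (Nat.pow 2 3136) (Nat.pow 2 1564)]),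
  (nat_lit 0x80000000000000000000000000000000000000000000000000000000000000000, [Nat.sub (Nat.pow 2 935) (Nat.pow 2 0), Nat.sub (Nat.pow 2 3136) (Nat.pow 2 935)]),
  (nat_lit 0x2000000000000000000000000000000000000000000000000000000000000000000, [Nat.sub (Nat.pow 2 915) (Nat.pow 2 0), Nat.sub (Nat.pow 2 3136) (Nat.pow 2 915)]),
  (nat_lit 0x8000000000000000000000000000000000000000000000000000000000000000000000, [Nat.sub (Nat.pow 2 805) (Nat.pow 2 0), Nat.sub (Nat.pow 2 1560) (Nat.pow 2 805), Nat.sub (Nat.pow 2 3136) (Nat.pow 2 1560)]),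
  (nat_lit 0x200000000000000000000000000000000000000000000000000000000000000000000000, [Nat.sub (Nat.pow 2 935) (Nat.pow 2 0), Nat.sub (Nat.pow 2 1560) (Nat.pow 2 935), Nat.sub (Nat.pow 2 3136) (Nat.pow 2 1560)]),
  (nat_lit 0x400000000000000000000000000000000000000000000000000000000000000000000000, [Nat.sub (Nat.pow 2 316) (Nat.pow 2 0), Nat.sub (Nat.pow 2 1259) (Nat.pow 2 316), Nat.sub (Nat.pow 2 3136) (Nat.pow 2 1259)]),
  (nat_lit 0x4000000000000000000000000000000000000000000000000000000000000000000000000, [Nat.sub (Nat.pow 2 654) (Nat.pow 2 0), Nat.sub (Nat.pow 2 1254) (Nat.pow 2 654), Nat.sub (Nat.pow 2 3136) (Nat.pow 2 1254)]),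
  (nat_lit 0x10000000000000000000000000000000000000000000000000000000000000000000000000000, [Nat.sub (Nat.pow 2 781) (Nat.pow 2 0), Nat.sub (Nat.pow 2 3136) (Nat.pow 2 781)]),
  (nat_lit 0x800000000000000000000000000000000000000000000000000000000000000000000000000000, [Nat.sub (Nat.pow 2 316) (Nat.pow 2 0), Nat.sub (Nat.pow 2 909) (Nat.pow 2 316), Nat.sub (Nat.pow 2 1430) (Nat.pow 2 909), Nat.sub (Nat.pow 2 3136) (Nat.pow 2 1430)]),
  (nat_lit 0x400000000000000000000000000000000000000000000000000000000000000000000000000000000000000000000000000000000000000000000000000000000000000000000000000000000000000, [Nat.sub (Nat.pow 2 936) (Nat.pow 2 0), Nat.sub (Nat.pow 2 3136) (Nat.pow 2 936)]),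
  (nat_lit 0x20000000000000000000000000000000000000000000000, [cP]),
  (nat_lit 0x10000000000000000000000000000000000000000000000000000000000000000000000000000000000000000000000000000000000000000000000000000000000000000000000000000000000000000, [cP]),
  (nat_lit 0x20000000000000000000000000000000000000000000000000000000000000000000000000000000000000000000000000000000000000000000000000000000000000000000000000000000000000000000000, [Nat.sub (Nat.pow 2 261) (Nat.pow 2 0), Nat.sub (Nat.pow 2 811) (Nat.pow 2 261), Nat.sub (Nat.pow 2 1315) (Nat.pow 2 811), Nat.sub (Nat.pow 2 3136) (Nat.pow 2 1315)]),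
  (nat_lit 0x40000000000000000000000000000000000000000000000000000000000000000000000000000000000000000000000000000000000000000000000000000000000000000000000000000000000000000000, [cP]),
  (nat_lit 0x80000000000000000000000000000000000000000000000000000000000000000000000000000000000000000000000000000000000000000000000000000000000000000000000000000000000000000000000000000, [Nat.sub (Nat.pow 2 915) (Nat.pow 2 0), Nat.sub (Nat.pow 2 1515) (Nat.pow 2 915), Nat.sub (Nat.pow 2 3136) (Nat.pow 2 1515)]),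
  (nat_lit 0x400000000000000000000000000000000000000000000000000000000000000000000000000000000000000000000000000000000000000000000000000000000000000000000000000000000000000000000000000000000000000000000, [Nat.sub (Nat.pow 2 759) (Nat.pow 2 0), Nat.sub (Nat.pow 2 1404) (Nat.pow 2 759), Nat.sub (Nat.pow 2 3136) (Nat.pow 2 1404)]),
  (nat_lit 0x20000000000000000000000000000000000000000000000000000000000000000000000000000000000000000000000000000000000000000000000000000000000000000000000000000000000000000000000000000000000000000000000, [Nat.sub (Nat.pow 2 780) (Nat.pow 2 0), Nat.sub (Nat.pow 2 1291) (Nat.pow 2 780), Nat.sub (Nat.pow 2 3136) (Nat.pow 2 1291)]),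
  (nat_lit 0x100000000000000000000000000000000000000000000000000000000000000000000000000000000000000000000000000000000000000000000000000000000000000000000000000000000000000000000000000000000000000000000000, [Nat.sub (Nat.pow 2 935) (Nat.pow 2 0), Nat.sub (Nat.pow 2 3136) (Nat.pow 2 935)]),
  (nat_lit 0x800000000000000000000000000000000000000000000000000000000000000000000000000000000000000000000000000000000000000000000000000000000000000000000000000000000000000000000000000000000000000000000000000, [Nat.sub (Nat.pow 2 809) (Nat.pow 2 0), Nat.sub (Nat.pow 2 3136) (Nat.pow 2 809)]),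
  (nat_lit 0x400000000000000000000000000000000000000000000000000000000000000000000000000000000000000000000000000000000000000000000000000000000000000000000000000000000000000000000000000000000000000000000000000000, [Nat.sub (Nat.pow 2 315) (Nat.pow 2 0), Nat.sub (Nat.pow 2 809) (Nat.pow 2 315), Nat.sub (Nat.pow 2 1390) (Nat.pow 2 809), Nat.sub (Nat.pow 2 3136) (Nat.pow 2 1390)]),
  (nat_lit 0x1000000000000000000000000000000000000000000000000000000000000000000000000000000000000000000000000000000000000000000000000000000000000000000000000000000000000000000000000000000000000000000000000000000000, [Nat.sub (Nat.pow 2 654) (Nat.pow 2 0), Nat.sub (Nat.pow 2 1264) (Nat.pow 2 654), Nat.sub (Nat.pow 2 1535) (Nat.pow 2 1264), Nat.sub (Nat.pow 2 3136) (Nat.pow 2 1535)]),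
  (nat_lit 0x80000000000000000000000000000000000000000000000000000000000000000000000000000000000000000000000000000000000000000000000000000000000000000000000000000000000000000000000000000000000000000000000000000000000, [Nat.sub (Nat.pow 2 654) (Nat.pow 2 0), Nat.sub (Nat.pow 2 1564) (Nat.pow 2 654), Nat.sub (Nat.pow 2 3136) (Nat.pow 2 1564)])]

theorem hp0 : ∀ p ∈ L0, ∀ D2 ∈ p.2, ∃ e,
    search ext94 (Pool.Agent.H74.EGZ.vio sb) G Uc A0 p.1 D2 e = true :=
  (List.forall_mem_cons.2 ⟨(List.forall_mem_cons.2 ⟨⟨e0, by decide +kernel⟩,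
  (List.forall_mem_singleton.2 ⟨e1, by decide +kernel⟩)⟩),
  (List.forall_mem_cons.2 ⟨(List.forall_mem_cons.2 ⟨⟨e2, by decide +kernel⟩,
  (List.forall_mem_cons.2 ⟨⟨e3, by decide +kernel⟩,
  (List.forall_mem_singleton.2 ⟨.leaf, by decide +kernel⟩)⟩)⟩),
  (List.forall_mem_cons.2 ⟨(List.forall_mem_singleton.2 ⟨e5, by decide +kernel⟩),
  (List.forall_mem_cons.2 ⟨(List.forall_mem_cons.2 ⟨⟨e6, by decide +kernel⟩,
  (List.forall_mem_singleton.2 ⟨.leaf, by decide +kernel⟩)⟩),
  (List.forall_mem_cons.2 ⟨(List.forall_mem_cons.2 ⟨⟨e8, by decide +kernel⟩,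
  (List.forall_mem_singleton.2 ⟨e9, by decide +kernel⟩)⟩),
  (List.forall_mem_cons.2 ⟨(List.forall_mem_cons.2 ⟨⟨.leaf, by decide +kernel⟩,
  (List.forall_mem_cons.2 ⟨⟨.leaf, by decide +kernel⟩,
  (List.forall_mem_cons.2 ⟨⟨.leaf, by decide +kernel⟩,
  (List.forall_mem_singleton.2 ⟨e13, by decide +kernel⟩)⟩)⟩)⟩),
  (List.forall_mem_cons.2 ⟨(List.forall_mem_cons.2 ⟨⟨.leaf, by decide +kernel⟩,
  (List.forall_mem_singleton.2 ⟨e15, by decide +kernel⟩)⟩),
  (List.forall_mem_cons.2 ⟨(List.forall_mem_cons.2 ⟨⟨e16, by decide +kernel⟩,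
  (List.forall_mem_singleton.2 ⟨e17, by decide +kernel⟩)⟩),
  (List.forall_mem_cons.2 ⟨(List.forall_mem_singleton.2 ⟨e18, by decide +kernel⟩),
  (List.forall_mem_cons.2 ⟨(List.forall_mem_singleton.2 ⟨.leaf, by decide +kernel⟩),
  (List.forall_mem_cons.2 ⟨(List.forall_mem_cons.2 ⟨⟨e20, by decide +kernel⟩,
  (List.forall_mem_singleton.2 ⟨e21, by decide +kernel⟩)⟩),
  (List.forall_mem_cons.2 ⟨(List.forall_mem_cons.2 ⟨⟨e22, by decide +kernel⟩,
  (List.forall_mem_cons.2 ⟨⟨e23, by decide +kernel⟩,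
  (List.forall_mem_singleton.2 ⟨e24, by decide +kernel⟩)⟩)⟩),
  (List.forall_mem_cons.2 ⟨(List.forall_mem_cons.2 ⟨⟨e25, by decide +kernel⟩,
  (List.forall_mem_singleton.2 ⟨e26, by decide +kernel⟩)⟩),
  (List.forall_mem_cons.2 ⟨(List.forall_mem_singleton.2 ⟨e27, by decide +kernel⟩),
  (List.forall_mem_cons.2 ⟨(List.forall_mem_cons.2 ⟨⟨e28, by decide +kernel⟩,
  (List.forall_mem_singleton.2 ⟨e29, by decide +kernel⟩)⟩),
  (List.forall_mem_cons.2 ⟨(List.forall_mem_singleton.2 ⟨e30, by decide +kernel⟩),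
  (List.forall_mem_cons.2 ⟨(List.forall_mem_cons.2 ⟨⟨e31, by decide +kernel⟩,
  (List.forall_mem_singleton.2 ⟨e32, by decide +kernel⟩)⟩),
  (List.forall_mem_cons.2 ⟨(List.forall_mem_singleton.2 ⟨e33, by decide +kernel⟩),
  (List.forall_mem_cons.2 ⟨(List.forall_mem_cons.2 ⟨⟨e34, by decide +kernel⟩,
  (List.forall_mem_singleton.2 ⟨.leaf, by decide +kernel⟩)⟩),
  (List.forall_mem_cons.2 ⟨(List.forall_mem_cons.2 ⟨⟨e36, by decide +kernel⟩,
  (List.forall_mem_singleton.2 ⟨e37, by decide +kernel⟩)⟩),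
  (List.forall_mem_cons.2 ⟨(List.forall_mem_singleton.2 ⟨e38, by decide +kernel⟩),
  (List.forall_mem_cons.2 ⟨(List.forall_mem_cons.2 ⟨⟨.leaf, by decide +kernel⟩,
  (List.forall_mem_singleton.2 ⟨e40, by decide +kernel⟩)⟩),
  (List.forall_mem_cons.2 ⟨(List.forall_mem_cons.2 ⟨⟨e41, by decide +kernel⟩,
  (List.forall_mem_singleton.2 ⟨e42, by decide +kernel⟩)⟩),
  (List.forall_mem_cons.2 ⟨(List.forall_mem_cons.2 ⟨⟨.leaf, by decide +kernel⟩,
  (List.forall_mem_cons.2 ⟨⟨e44, by decide +kernel⟩,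
  (List.forall_mem_singleton.2 ⟨e45, by decide +kernel⟩)⟩)⟩),
  (List.forall_mem_cons.2 ⟨(List.forall_mem_cons.2 ⟨⟨.leaf, by decide +kernel⟩,
  (List.forall_mem_singleton.2 ⟨.leaf, by decide +kernel⟩)⟩),
  (List.forall_mem_cons.2 ⟨(List.forall_mem_cons.2 ⟨⟨.leaf, by decide +kernel⟩,
  (List.forall_mem_singleton.2 ⟨e49, by decide +kernel⟩)⟩),
  (List.forall_mem_cons.2 ⟨(List.forall_mem_cons.2 ⟨⟨.leaf, by decide +kernel⟩,
  (List.forall_mem_cons.2 ⟨⟨e51, by decide +kernel⟩,
  (List.forall_mem_singleton.2 ⟨.leaf, by decide +kernel⟩)⟩)⟩),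
  (List.forall_mem_cons.2 ⟨(List.forall_mem_cons.2 ⟨⟨e53, by decide +kernel⟩,
  (List.forall_mem_cons.2 ⟨⟨e54, by decide +kernel⟩,
  (List.forall_mem_singleton.2 ⟨.leaf, by decide +kernel⟩)⟩)⟩),
  (List.forall_mem_cons.2 ⟨(List.forall_mem_cons.2 ⟨⟨e56, by decide +kernel⟩,
  (List.forall_mem_cons.2 ⟨⟨e57, by decide +kernel⟩,
  (List.forall_mem_singleton.2 ⟨e58, by decide +kernel⟩)⟩)⟩),
  (List.forall_mem_cons.2 ⟨(List.forall_mem_cons.2 ⟨⟨e59, by decide +kernel⟩,
  (List.forall_mem_cons.2 ⟨⟨e60, by decide +kernel⟩,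
  (List.forall_mem_singleton.2 ⟨e61, by decide +kernel⟩)⟩)⟩),
  (List.forall_mem_cons.2 ⟨(List.forall_mem_cons.2 ⟨⟨e62, by decide +kernel⟩,
  (List.forall_mem_singleton.2 ⟨e63, by decide +kernel⟩)⟩),
  (List.forall_mem_cons.2 ⟨(List.forall_mem_cons.2 ⟨⟨e64, by decide +kernel⟩,
  (List.forall_mem_cons.2 ⟨⟨e65, by decide +kernel⟩,
  (List.forall_mem_cons.2 ⟨⟨e66, by decide +kernel⟩,
  (List.forall_mem_singleton.2 ⟨e67, by decide +kernel⟩)⟩)⟩)⟩),
  (List.forall_mem_cons.2 ⟨(List.forall_mem_cons.2 ⟨⟨e68, by decide +kernel⟩,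
  (List.forall_mem_singleton.2 ⟨e69, by decide +kernel⟩)⟩),
  (List.forall_mem_cons.2 ⟨(List.forall_mem_singleton.2 ⟨.leaf, by decide +kernel⟩),
  (List.forall_mem_cons.2 ⟨(List.forall_mem_singleton.2 ⟨e71, by decide +kernel⟩),
  (List.forall_mem_cons.2 ⟨(List.forall_mem_cons.2 ⟨⟨e72, by decide +kernel⟩,
  (List.forall_mem_cons.2 ⟨⟨e73, by decide +kernel⟩,
  (List.forall_mem_cons.2 ⟨⟨e74, by decide +kernel⟩,
  (List.forall_mem_singleton.2 ⟨e75, by decide +kernel⟩)⟩)⟩)⟩),
  (List.forall_mem_cons.2 ⟨(List.forall_mem_singleton.2 ⟨e76, by decide +kernel⟩),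
  (List.forall_mem_cons.2 ⟨(List.forall_mem_cons.2 ⟨⟨e77, by decide +kernel⟩,
  (List.forall_mem_cons.2 ⟨⟨e78, by decide +kernel⟩,
  (List.forall_mem_singleton.2 ⟨.leaf, by decide +kernel⟩)⟩)⟩),
  (List.forall_mem_cons.2 ⟨(List.forall_mem_cons.2 ⟨⟨e80, by decide +kernel⟩,
  (List.forall_mem_cons.2 ⟨⟨e81, by decide +kernel⟩,
  (List.forall_mem_singleton.2 ⟨e82, by decide +kernel⟩)⟩)⟩),
  (List.forall_mem_cons.2 ⟨(List.forall_mem_cons.2 ⟨⟨e83, by decide +kernel⟩,
  (List.forall_mem_cons.2 ⟨⟨e84, by decide +kernel⟩,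
  (List.forall_mem_singleton.2 ⟨e85, by decide +kernel⟩)⟩)⟩),
  (List.forall_mem_cons.2 ⟨(List.forall_mem_cons.2 ⟨⟨e86, by decide +kernel⟩,
  (List.forall_mem_singleton.2 ⟨e87, by decide +kernel⟩)⟩),
  (List.forall_mem_cons.2 ⟨(List.forall_mem_cons.2 ⟨⟨e88, by decide +kernel⟩,
  (List.forall_mem_singleton.2 ⟨e89, by decide +kernel⟩)⟩),
  (List.forall_mem_cons.2 ⟨(List.forall_mem_cons.2 ⟨⟨e90, by decide +kernel⟩,
  (List.forall_mem_cons.2 ⟨⟨e91, by decide +kernel⟩,
  (List.forall_mem_cons.2 ⟨⟨e92, by decide +kernel⟩,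
  (List.forall_mem_singleton.2 ⟨e93, by decide +kernel⟩)⟩)⟩)⟩),
  (List.forall_mem_cons.2 ⟨(List.forall_mem_cons.2 ⟨⟨e94, by decide +kernel⟩,
  (List.forall_mem_cons.2 ⟨⟨e95, by decide +kernel⟩,
  (List.forall_mem_cons.2 ⟨⟨e96, by decide +kernel⟩,
  (List.forall_mem_singleton.2 ⟨e97, by decide +kernel⟩)⟩)⟩)⟩),
  (List.forall_mem_singleton.2 (List.forall_mem_cons.2 ⟨⟨e98, by decide +kernel⟩,
  (List.forall_mem_cons.2 ⟨⟨e99, by decide +kernel⟩,
  (List.forall_mem_singleton.2 ⟨.leaf, by decide +kernel⟩)⟩)⟩))⟩)⟩)⟩)⟩)⟩)⟩)⟩)⟩)⟩)⟩)⟩)⟩)⟩)⟩)⟩)⟩)⟩)⟩)⟩)⟩)⟩)⟩)⟩)⟩)⟩)⟩)⟩)⟩)⟩)⟩)⟩)⟩)⟩)⟩)⟩)⟩)⟩)⟩)⟩)⟩)⟩)⟩)⟩)⟩)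

end

end Pool.Agent.H21.EGZ.S5
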