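import Pool.Agent.H21.EGZ.D5

/-!
# Stage 5 : search, part 1
-/

set_option autoImplicit false
set_option maxRecDepth 100000

namespace Pool.Agent.H21.EGZ.S5

noncomputable section

open Pool.Agent.H74.EGZ Pool.Agent.H94.Lift

/-- refutations 101 -/
def e101 : EX := (.node (.node (.node .leaf (nat_lit 14269507688024700) (.br (nat_lit 0) (.cons (.br (nat_lit 2) (.cons (.rel (nat_lit 71303202)) .nil)) .nil)) .leaf) (nat_lit 14269507688772220) (.br (nat_lit 0) (.cons (.br (nat_lit 3) (.cons (.rel (nat_lit 541097985)) .nil)) .nil)) .leaf) (nat_lit 14269625324337309) (.br (nat_lit 3) (.cons (.br (nat_lit 5) (.cons (.rel (nat_lit 8859418629)) .nil)) .nil)) (.node .leaf (nat_lit 14274015830451712) (.br (nat_lit 0) (.cons (.br (nat_lit 3) (.cons (.rel (nat_lit 273219585)) .nil)) .nil)) .leaf))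

/-- refutations 102 -/
def e102 : EX := (.node (.node (.node (.node .leaf (nat_lit 14279171287539973) (.br (nat_lit 3) (.cons (.br (nat_lit 0) (.cons (.rel (nat_lit 545527044)) (.cons (.rel (nat_lit 541073424)) (.cons (.rel (nat_lit 273154320)) .nil)))) (.cons (.br (nat_lit 0) (.cons (.rel (nat_lit 276825345)) (.cons (.rel (nat_lit 272777280)) (.cons (.rel (nat_lit 273154320)) .nil)))) .nil))) .leaf) (nat_lit 14279171288573161) (.br (nat_lit 0) (.cons (.br (nat_lit 3) (.cons (.rel (nat_lit 272777280)) .nil)) .nil)) .leaf) (nat_lit 14279171363147908) (.br (nat_lit 2) (.cons (.br (nat_lit 3) (.cons (.rel (nat_lit 605552640)) .nil)) .nil)) (.node .leaf (nat_lit 14279171363149333) (.br (nat_lit 0) (.cons (.br (nat_lit 1) (.cons (.rel (nat_lit 38797314)) .nil)) .nil)) .leaf)) (nat_lit 14279171364069658) (.br (nat_lit 0) (.cons (.br (nat_lit 4) (.cons (.rel (nat_lit 1077954624)) .nil)) .nil)) (.node (.node .leaf (nat_lit 14279171364070933) (.br (nat_lit 0) (.cons (.br (nat_lit 1) (.cons (.rel (nat_lit 21123072)) .nil)) .nil))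 .leaf) (nat_lit 14279171365617018) (.br (nat_lit 0) (.cons (.br (nat_lit 3) (.cons (.rel (nat_lit 273678849)) .nil)) .nil)) (.node .leaf (nat_lit 14279295339308509) (.br (nat_lit 0) (.cons (.br (nat_lit 2) (.cons (.rel (nat_lit 71305236)) .nil)) .nil)) .leaf)))

/-- refutations 107 -/
def e107 : EX := (.node (.node .leaf (nat_lit 14297182191839542) (.br (nat_lit 4) (.cons (.br (nat_lit 2) (.cons (.rel (nat_lit 1141129296)) (.cons (.rel (nat_lit 1208025153)) .nil))) .nil)) .leaf) (nat_lit 14297182191840508) (.br (nat_lit 1) (.cons (.br (nat_lit 2) (.cons (.rel (nat_lit 83918976)) .nil)) .nil)) .leaf)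

/-- refutations 109 -/
def e109 : EX := (.node (.node (.node .leaf (nat_lit 15511867225126964) (.br (nat_lit 1) (.cons (.br (nat_lit 6) (.cons (.rel (nat_lit 34394345745)) (.cons (.rel (nat_lit 17213425668)) (.cons (.rel (nat_lit 17213423634)) .nil)))) .nil)) .leaf) (nat_lit 15511867253326585) (.br (nat_lit 3) (.cons (.br (nat_lit 5) (.cons (.rel (nat_lit 9126805521)) .nil)) .nil)) (.node .leaf (nat_lit 15511867313170463) (.br (nat_lit 5) (.cons (.br (nat_lit 3) (.cons (.rel (nat_lit 9126805521)) (.cons (.rel (nat_lit 4832105472)) .nil))) .nil)) .leaf)) (nat_lit 15511867315782263) (.br (nat_lit 0) (.cons (.br (nat_lit 2) (.cons (.rel (nat_lit 142606353)) .nil)) .nil)) (.node (.node .leaf (nat_lit 15511868361673006) (.br (nat_lit 1) (.cons (.br (nat_lit 3) (.cons (.rel (nat_lit 285217032)) .nil)) .nil)) .leaf) (nat_lit 15511873099614383) (.br (nat_lit 0) (.cons (.br (nat_lit 3) (.cons (.rel (nat_lit 273712128)) .nil)) .nil)) .leaf))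

/-- refutations 111 -/
def e111 : EX := (.node .leaf (nat_lit 15575573416830478) (.br (nat_lit 0) (.cons (.br (nat_lit 2) (.cons (.rel (nat_lit 71303202)) (.cons (.rel (nat_lit 71323908)) .nil))) .nil)) .leaf)

/-- refutations 113 -/
def e113 : EX := (.node .leaf (nat_lit 15832970616660718) (.br (nat_lit 0) (.cons (.br (nat_lit 1) (.cons (.rel (nat_lit 20971800)) .nil)) .nil)) .leaf)

/-- refutations 114 -/
def e114 : EX := (.node (.node (.node .leaf (nat_lit 15839885512521779) (.br (nat_lit 1) (.cons (.br (nat_lit 4) (.cons (.rel (nat_lit 1090521105)) .nil)) .nil)) .leaf) (nat_lit 15840976436675996) (.br (nat_lit 0) (.cons (.br (nat_lit 2) (.cons (.rel (nat_lit 138412608)) .nil)) .nil)) .leaf) (nat_lit 15840976558574875) (.br (nat_lit 0) (.cons (.br (nat_lit 1) (.cons (.rel (nat_lit 20987940)) .nil)) .nil)) (.node .leaf (nat_lit 15845855517063168) (.br (nat_lit 1) (.cons (.br (nat_lit 4) (.cons (.rel (nat_lit 1090519080)) .nil)) .nil)) .leaf))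

/-- refutations 115 -/
def e115 : EX := (.node (.node .leaf (nat_lit 15516743086750457) (.br (nat_lit 0) (.cons (.br (nat_lit 2) (.cons (.rel (nat_lit 71340048)) .nil)) .nil)) .leaf) (nat_lit 15524315168834843) (.br (nat_lit 0) (.cons (.br (nat_lit 1) (.cons (.rel (nat_lit 20976672)) .nil)) .nil)) (.node .leaf (nat_lit 15524315168874632) (.br (nat_lit 0) (.cons (.br (nat_lit 2) (.cons (.rel (nat_lit 142606353)) .nil)) .nil)) .leaf))

/-- refutations 116 -/
def e116 : EX := (.node .leaf (nat_lit 15874602983077940) (.br (nat_lit 2) (.cons (.br (nat_lit 3) (.cons (.rel (nat_lit 335550468)) .nil)) .nil)) .leaf)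

/-- refutations 117 -/
def e117 : EX := (.node (.node (.node .leaf (nat_lit 15881484481072391) (.br (nat_lit 3) (.cons (.br (nat_lit 5) (.cons (.rel (nat_lit 4563404820)) .nil)) .nil)) .leaf) (nat_lit 15881486221818492) (.br (nat_lit 0) (.cons (.br (nat_lit 4) (.cons (.rel (nat_lit 1077940296)) .nil)) .nil)) (.node .leaf (nat_lit 15881486771161870) (.br (nat_lit 3) (.cons (.br (nat_lit 4) (.cons (.rel (nat_lit 1610614020)) .nil)) .nil)) .leaf)) (nat_lit 15881489812142132) (.br (nat_lit 5) (.cons (.br (nat_lit 6) (.cons (.rel (nat_lit 38654771202)) .nil)) .nil)) (.node (.node .leaf (nat_lit 15881489815218228) (.br (nat_lit 0) (.cons (.br (nat_lit 4) (.cons (.rel (nat_lit 1082140680)) .nil)) .nil)) .leaf) (nat_lit 15881489939416595) (.br (nat_lit 0) (.cons (.br (nat_lit 1) (.cons (.rel (nat_lit 21123072)) .nil)) .nil)) .leaf))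

/-- refutations 118 -/
def e118 : EX := (.node (.node .leaf (nat_lit 15939812827300122) (.br (nat_lit 0) (.cons (.br (nat_lit 1) (.cons (.rel (nat_lit 20971800)) .nil)) .nil)) .leaf) (nat_lit 15940929519924637) (.br (nat_lit 1) (.cons (.br (nat_lit 2) (.cons (.rel (nat_lit 83918976)) .nil)) .nil)) .leaf)

/-- refutations 119 -/
def e119 : EX := (.node (.node .leaf (nat_lit 15950860989035406) (.br (nat_lit 1) (.cons (.br (nat_lit 4) (.cons (.rel (nat_lit 1092616512)) .nil)) .nil)) .leaf) (nat_lit 15951889667256601) (.br (nat_lit 0) (.cons (.br (nat_lit 1) (.cons (.rel (nat_lit 20971800)) .nil)) .nil)) (.node .leaf (nat_lit 15951890276607229) (.br (nat_lit 0) (.cons (.br (nat_lit 4) (.cons (.rel (nat_lit 1077936450)) .nil)) .nil)) .leaf))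

/-- refutations 120 -/
def e120 : EX := (.node (.node .leaf (nat_lit 15852117070485760) (.br (nat_lit 0) (.cons (.br (nat_lit 3) (.cons (.rel (nat_lit 541073424)) .nil)) .nil)) .leaf) (nat_lit 15862857110165791) (.br (nat_lit 2) (.cons (.br (nat_lit 3) (.cons (.rel (nat_lit 335545632)) .nil)) .nil)) .leaf)

/-- refutations 121 -/
def e121 : EX := (.node (.node .leaf (nat_lit 16397051400835708) (.br (nat_lit 1) (.cons (.br (nat_lit 2) (.cons (.rel (nat_lit 84154368)) .nil)) .nil)) .leaf) (nat_lit 16398130402317174) (.br (nat_lit 1) (.cons (.br (nat_lit 3) (.cons (.rel (nat_lit 285246465)) .nil)) .nil)) (.node .leaf (nat_lit 16402801289642009) (.br (nat_lit 0) (.cons (.br (nat_lit 1) (.cons (.rel (nat_lit 20988930)) .nil)) .nil)) .leaf))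

/-- refutations 122 -/
def e122 : EX := (.node (.node (.node .leaf (nat_lit 16403923348449580) (.br (nat_lit 0) (.cons (.br (nat_lit 2) (.cons (.rel (nat_lit 71434497)) .nil)) .nil)) .leaf) (nat_lit 16407182096225663) (.br (nat_lit 0) (.cons (.br (nat_lit 1) (.cons (.rel (nat_lit 22562880)) .nil)) .nil)) (.node .leaf (nat_lit 16407185135517055) (.br (nat_lit 0) (.cons (.br (nat_lit 2) (.cons (.rel (nat_lit 142606353)) .nil)) .nil)) .leaf)) (nat_lit 16408862680791047) (.br (nat_lit 3) (.cons (.br (nat_lit 5) (.cons (.rel (nat_lit 4563402786)) .nil)) .nil)) (.node (.node .leaf (nat_lit 16408863712498464) (.br (nat_lit 0) (.cons (.br (nat_lit 1) (.cons (.rel (nat_lit 20975637)) .nil)) .nil)) .leaf) (nat_lit 16409283464219274) (.br (nat_lit 0) (.cons (.br (nat_lit 1) (.cons (.rel (nat_lit 21045504)) .nil)) .nil)) .leaf))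

/-- refutations 124 -/
def e124 : EX := (.node .leaf (nat_lit 16449183688401646) (.br (nat_lit 2) (.cons (.br (nat_lit 4) (.cons (.rel (nat_lit 1140872226)) .nil)) .nil)) .leaf)

/-- refutations 125 -/
def e125 : EX := (.node (.node (.node .leaf (nat_lit 16461666019518495) (.br (nat_lit 0) (.cons (.br (nat_lit 4) (.cons (.rel (nat_lit 1077940296)) .nil)) .nil)) .leaf) (nat_lit 16461666019518745) (.br (nat_lit 0) (.cons (.br (nat_lit 4) (.cons (.rel (nat_lit 1082196225)) .nil)) .nil)) .leaf) (nat_lit 16461668133448465) (.br (nat_lit 0) (.cons (.br (nat_lit 1) (.cons (.rel (nat_lit 38797314)) .nil)) .nil)) (.node .leaf (nat_lit 16461668531907440) (.br (nat_lit 0) (.cons (.br (nat_lit 3) (.cons (.rel (nat_lit 272699712)) .nil)) .nil)) .leaf))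

/-- refutations 129 -/
def e129 : EX := (.node (.node (.node .leaf (nat_lit 21990662579170787) (.br (nat_lit 0) (.cons (.br (nat_lit 2) (.cons (.rel (nat_lit 138412608)) .nil)) .nil)) .leaf) (nat_lit 21990664674255648) (.br (nat_lit 3) (.cons (.br (nat_lit 0) (.cons (.rel (nat_lit 273219585)) (.cons (.rel (nat_lit 273154320)) .nil))) .nil)) (.node .leaf (nat_lit 21990664675031840) (.br (nat_lit 0) (.cons (.br (nat_lit 1) (.cons (.rel (nat_lit 22020228)) .nil)) .nil)) .leaf)) (nat_lit 21990665432869664) (.br (nat_lit 0) (.cons (.br (nat_lit 1) (.cons (.rel (nat_lit 20988930)) .nil)) .nil)) (.node (.node .leaf (nat_lit 21990665434400250) (.br (nat_lit 0) (.cons (.br (nat_lit 1) (.cons (.rel (nat_lit 20971800)) .nil)) .nil)) .leaf) (nat_lit 21990665455233935) (.br (nat_lit 2) (.cons (.br (nat_lit 5) (.cons (.rel (nat_lit 4362076296)) .nil)) .nil)) (.node .leaf (nat_lit 21990670754426369) (.br (nat_lit 0) (.cons (.br (nat_lit 3) (.cons (.rel (nat_lit 276828192)) .nil)) .nil)) .leaf)))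

/-- refutations 130 -/
def e130 : EX := (.node (.node (.node (.node .leaf (nat_lit 21990724832850727) (.br (nat_lit 2) (.cons (.br (nat_lit 3) (.cons (.rel (nat_lit 335561736)) .nil)) .nil)) .leaf) (nat_lit 21990724833157927) (.br (nat_lit 1) (.cons (.br (nat_lit 4) (.cons (.rel (nat_lit 1090552080)) .nil)) .nil)) .leaf) (nat_lit 21990724834133493) (.br (nat_lit 0) (.cons (.br (nat_lit 1) (.cons (.rel (nat_lit 27262977)) .nil)) .nil)) (.node .leaf (nat_lit 21990728729423229) (.br (nat_lit 1) (.cons (.br (nat_lit 2) (.cons (.rel (nat_lit 168035460)) .nil)) .nil)) .leaf)) (nat_lit 21990728730641921) (.br (nat_lit 0) (.cons (.br (nat_lit 4) (.cons (.rel (nat_lit 2156199972)) .nil)) .nil)) (.node (.node (.node .leaf (nat_lit 21991366562755371) (.br (nat_lit 0) (.cons (.br (nat_lit 1) (.cons (.rel (nat_lit 25493520)) .nil)) .nil)) .leaf) (nat_lit 21991366562959996) (.br (nat_lit 0) (.cons (.br (nat_lit 2) (.cons (.rel (nat_lit 142606353)) .nil)) .nil)) .leaf) (nat_lit 21991366685668210) (.br (nat_lit 1) (.cons (.br (nat_lit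 2) (.cons (.rel (nat_lit 84213762)) .nil)) .nil)) (.node .leaf (nat_lit 21991369602343562) (.br (nat_lit 0) (.cons (.br (nat_lit 1) (.cons (.rel (nat_lit 20971800)) .nil)) .nil)) .leaf)))

/-- refutations 131 -/
def e131 : EX := (.node (.node .leaf (nat_lit 21992638264125595) (.br (nat_lit 0) (.cons (.br (nat_lit 1) (.cons (.rel (nat_lit 20973825)) .nil)) .nil)) .leaf) (nat_lit 21992701247470320) (.br (nat_lit 2) (.cons (.br (nat_lit 3) (.cons (.rel (nat_lit 335544597)) .nil)) .nil)) .leaf)

/-- refutations 132 -/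
def e132 : EX := (.node (.node (.node .leaf (nat_lit 21995621324434845) (.br (nat_lit 3) (.cons (.br (nat_lit 4) (.cons (.rel (nat_lit 1342178880)) .nil)) .nil)) .leaf) (nat_lit 21995622225432587) (.br (nat_lit 0) (.cons (.br (nat_lit 3) (.cons (.rel (nat_lit 272699712)) .nil)) .nil)) .leaf) (nat_lit 21995622226507165) (.br (nat_lit 0) (.cons (.br (nat_lit 2) (.cons (.rel (nat_lit 142606353)) .nil)) .nil)) (.node (.node .leaf (nat_lit 21995622226650525) (.br (nat_lit 0) (.cons (.br (nat_lit 3) (.cons (.rel (nat_lit 273219585)) .nil)) .nil)) .leaf) (nat_lit 21995659125589349) (.br (nat_lit 0) (.cons (.br (nat_lit 2) (.cons (.rel (nat_lit 142606353)) .nil)) .nil)) .leaf))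

/-- refutations 133 -/
def e133 : EX := (.node (.node .leaf (nat_lit 21995876400962222) (.br (nat_lit 1) (.cons (.br (nat_lit 2) (.cons (.rel (nat_lit 167788608)) .nil)) .nil)) .leaf) (nat_lit 21996692970939620) (.br (nat_lit 0) (.cons (.br (nat_lit 1) (.cons (.rel (nat_lit 21037065)) .nil)) .nil)) (.node .leaf (nat_lit 21996890281749880) (.br (nat_lit 0) (.cons (.br (nat_lit 1) (.cons (.rel (nat_lit 41959680)) .nil)) .nil)) .leaf))

/-- refutations 134 -/
def e134 : EX := (.node (.node (.node (.node (.node .leaf (nat_lit 21996936085223476) (.br (nat_lit 2) (.cons (.br (nat_lit 3) (.cons (.rel (nat_lit 335544597)) .nil)) .nil)) .leaf) (nat_lit 21996996005015041) (.br (nat_lit 0) (.cons (.br (nat_lit 4) (.cons (.rel (nat_lit 1077936450)) (.cons (.rel (nat_lit 1077936450)) (.cons (.rel (nat_lit 1077940296)) .nil)))) (.cons (.br (nat_lit 1) (.cons (.rel (nat_lit 20971800)) (.cons (.rel (nat_lit 21004800)) .nil))) .nil))) (.node .leaf (nat_lit 21996996006479211) (.br (nat_lit 0) (.cons (.br (nat_lit 1) (.cons (.rel (nat_lit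 20973825)) .nil)) .nil)) .leaf)) (nat_lit 21996996006479361) (.br (nat_lit 0) (.cons (.br (nat_lit 4) (.cons (.rel (nat_lit 1077940296)) .nil)) .nil)) (.node (.node .leaf (nat_lit 21996996237012481) (.br (nat_lit 0) (.cons (.br (nat_lit 1) (.cons (.rel (nat_lit 27262977)) .nil)) .nil)) .leaf) (nat_lit 21997116456970242) (.br (nat_lit 1) (.cons (.br (nat_lit 4) (.cons (.rel (nat_lit 1090521105)) .nil)) .nil)) .leaf)) (nat_lit 21997116456971022) (.br (nat_lit 0) (.cons (.br (nat_lit 3) (.cons (.rel (nat_lit 272630880)) .nil)) .nil)) (.node (.node (.node .leaf (nat_lit 21997116457021442) (.br (nat_lit 0) (.cons (.br (nat_lit 3) (.cons (.br (nat_lit 1) (.cons (.rel (nat_lit 306186240)) (.cons (.rel (nat_lit 41959680)) (.cons (.rel (nat_lit 21038100)) .nil)))) .nil)) .nil)) .leaf) (nat_lit 21997116457022215) (.br (nat_lit 0) (.cons (.br (nat_lit 1) (.cons (.rel (nat_lit 41959680)) (.cons (.rel (nat_lit 21004800)) .nil))) .nil)) .leaf) (nat_lit 21997116457343003) (.br (nat_lit 1) (.cons (.br (nat_lit 5) (.cons (.rel (nat_lit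 8606777601)) .nil)) .nil)) (.node (.node .leaf (nat_lit 21997116458508290) (.br (nat_lit 2) (.cons (.br (nat_lit 3) (.cons (.rel (nat_lit 335545632)) .nil)) .nil)) .leaf) (nat_lit 21997116458814991) (.br (nat_lit 2) (.cons (.br (nat_lit 4) (.cons (.rel (nat_lit 1140869376)) .nil)) .nil)) .leaf))) (nat_lit 21997116459591980) (.br (nat_lit 0) (.cons (.br (nat_lit 1) (.cons (.rel (nat_lit 37752912)) .nil)) .nil)) (.node (.node (.node (.node .leaf (nat_lit 21997116460043017) (.br (nat_lit 4) (.cons (.br (nat_lit 2) (.cons (.rel (nat_lit 1140916512)) (.cons (.rel (nat_lit 1140916512)) .nil))) .nil)) .leaf) (nat_lit 21997116460046338) (.br (nat_lit 1) (.cons (.br (nat_lit 4) (.cons (.rel (nat_lit 1090654212)) .nil)) .nil)) (.node .leaf (nat_lit 21997116460047887) (.br (nat_lit 0) (.cons (.br (nat_lit 1) (.cons (.rel (nat_lit 21045504)) (.cons (.rel (nat_lit 22020228)) (.cons (.rel (nat_lit 27337728)) .nil)))) .nil)) .leaf)) (nat_lit 21997116460054530) (.br (nat_lit 0) (.cons (.br (nat_lit 3) (.cons (.rel (nat_lit 272654436))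 .nil)) .nil)) (.node (.node .leaf (nat_lit 21997116460157703) (.br (nat_lit 4) (.cons (.br (nat_lit 1) (.cons (.rel (nat_lit 2181038100)) (.cons (.rel (nat_lit 2166382848)) .nil))) .nil)) .leaf) (nat_lit 21997116460158479) (.br (nat_lit 4) (.cons (.br (nat_lit 3) (.cons (.rel (nat_lit 1342701600)) (.cons (.rel (nat_lit 1343243268)) .nil))) .nil)) .leaf)) (nat_lit 21997118555981327) (.br (nat_lit 0) (.cons (.br (nat_lit 2) (.cons (.rel (nat_lit 71303202)) .nil)) .nil)) (.node (.node (.node .leaf (nat_lit 21997118557310479) (.br (nat_lit 0) (.cons (.br (nat_lit 2) (.cons (.rel (nat_lit 71434497)) .nil)) .nil)) .leaf) (nat_lit 21997119120962937) (.br (nat_lit 0) (.cons (.br (nat_lit 1) (.cons (.rel (nat_lit 20971800)) .nil)) .nil)) .leaf) (nat_lit 21997119123437570) (.br (nat_lit 0) (.cons (.br (nat_lit 1) (.cons (.rel (nat_lit 20973825)) .nil)) .nil)) (.node (.node .leaf (nat_lit 21997119494202595) (.br (nat_lit 0) (.cons (.br (nat_lit 1) (.cons (.rel (nat_lit 21004800)) .nil)) .nil)) .leaf) (nat_lit 21997119519421967) (.br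 (nat_lit 0) (.cons (.br (nat_lit 4) (.cons (.rel (nat_lit 1082151936)) .nil)) .nil)) .leaf))))

/-- refutations 136 -/
def e136 : EX := (.node (.node (.node .leaf (nat_lit 21997812569445609) (.br (nat_lit 0) (.cons (.br (nat_lit 1) (.cons (.rel (nat_lit 37752912)) .nil)) .nil)) .leaf) (nat_lit 21997812657415054) (.br (nat_lit 0) (.cons (.br (nat_lit 2) (.cons (.rel (nat_lit 71303202)) (.cons (.rel (nat_lit 71434497)) .nil))) .nil)) .leaf) (nat_lit 21997815425758709) (.br (nat_lit 0) (.cons (.br (nat_lit 2) (.cons (.rel (nat_lit 71303202)) .nil)) .nil)) (.node .leaf (nat_lit 21997969817776434) (.br (nat_lit 2) (.cons (.br (nat_lit 5) (.cons (.rel (nat_lit 4362604608)) .nil)) .nil)) .leaf))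

/-- refutations 137 -/
def e137 : EX := (.node (.node (.node (.node .leaf (nat_lit 21998012474105987) (.br (nat_lit 0) (.cons (.br (nat_lit 1) (.cons (.rel (nat_lit 20971800)) .nil)) .nil)) .leaf) (nat_lit 21998012474107393) (.br (nat_lit 0) (.cons (.br (nat_lit 5) (.cons (.rel (nat_lit 8598389760)) .nil)) .nil)) .leaf) (nat_lit 21998238510165275) (.br (nat_lit 1) (.cons (.br (nat_lit 4) (.cons (.rel (nat_lit 1090519080)) .nil)) .nil)) (.node .leaf (nat_lit 21998241252225649) (.br (nat_lit 0) (.cons (.br (nat_lit 1) (.cons (.rel (nat_lit 20988930)) .nil)) .nil)) .leaf)) (nat_lit 21998241252368645) (.br (nat_lit 0) (.cons (.br (nat_lit 1) (.cons (.rel (nat_lit 20976672)) .nil)) .nil)) (.node (.node (.node .leaf (nat_lit 21998244714725531) (.br (nat_lit 0) (.cons (.br (nat_lit 1) (.cons (.rel (nat_lit 20987940)) .nil)) .nil)) .leaf) (nat_lit 21998244714785068) (.br (nat_lit 2) (.cons (.br (nat_lit 3) (.cons (.rel (nat_lit 335550468)) .nil)) .nil)) .leaf) (nat_lit 21998244714785404) (.br (nat_lit 0) (.cons (.br (nat_lit 2)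 (.cons (.rel (nat_lit 71303202)) .nil)) .nil)) (.node .leaf (nat_lit 21998244714820959) (.br (nat_lit 0) (.cons (.br (nat_lit 1) (.cons (.rel (nat_lit 21038100)) .nil)) .nil)) .leaf)))

/-- refutations 138 -/
def e138 : EX := (.node (.node (.node .leaf (nat_lit 22000973332131965) (.br (nat_lit 0) (.cons (.br (nat_lit 3) (.cons (.rel (nat_lit 272630880)) .nil)) .nil)) .leaf) (nat_lit 22001228762833707) (.br (nat_lit 0) (.cons (.br (nat_lit 1) (.cons (.rel (nat_lit 37752912)) .nil)) .nil)) .leaf) (nat_lit 22001228764171051) (.br (nat_lit 0) (.cons (.br (nat_lit 2) (.cons (.rel (nat_lit 71340048)) .nil)) .nil)) (.node .leaf (nat_lit 22001228764171546) (.br (nat_lit 0) (.cons (.br (nat_lit 2) (.cons (.rel (nat_lit 71304201)) .nil)) .nil)) .leaf))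

/-- refutations 139 -/
def e139 : EX := (.node (.node (.node (.node .leaf (nat_lit 22001245109376412) (.br (nat_lit 1) (.cons (.br (nat_lit 2) (.cons (.rel (nat_lit 84154368)) .nil)) .nil)) .leaf) (nat_lit 22001248027390109) (.br (nat_lit 0) (.cons (.br (nat_lit 1) (.cons (.rel (nat_lit 20976672)) .nil)) .nil)) .leaf) (nat_lit 22001248028552543) (.br (nat_lit 0) (.cons (.br (nat_lit 1) (.cons (.rel (nat_lit 21045504)) .nil)) .nil)) (.node (.node .leaf (nat_lit 22001248029327660) (.br (nat_lit 0) (.cons (.br (nat_lit 3) (.cons (.rel (nat_lit 272629845)) .nil)) .nil)) .leaf) (nat_lit 22001494744376548) (.br (nat_lit 0) (.cons (.br (nat_lit 1) (.cons (.rel (nat_lit 20971800)) .nil)) .nil)) .leaf)) (nat_lit 22001499203166394) (.br (nat_lit 0) (.cons (.br (nat_lit 3) (.cons (.rel (nat_lit 273678849)) .nil)) .nil)) (.node (.node (.node .leaf (nat_lit 22001499205281978) (.br (nat_lit 0) (.cons (.br (nat_lit 1) (.cons (.rel (nat_lit 20973825)) .nil)) .nil)) .leaf) (nat_lit 22001500297640236) (.br (nat_lit 1) (.cons (.br (nat_lit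 6) (.cons (.rel (nat_lit 17196916752)) (.cons (.rel (nat_lit 17213460480)) (.cons (.rel (nat_lit 17213460480)) (.cons (.rel (nat_lit 17196916752)) .nil))))) .nil)) .leaf) (nat_lit 22001500297641343) (.br (nat_lit 0) (.cons (.br (nat_lit 1) (.cons (.rel (nat_lit 37752912)) .nil)) .nil)) (.node .leaf (nat_lit 22001500297879738) (.br (nat_lit 0) (.cons (.br (nat_lit 2) (.cons (.rel (nat_lit 142606353)) .nil)) .nil)) .leaf)))

/-- refutations 140 -/
def e140 : EX := (.node (.node .leaf (nat_lit 22002104506263854) (.br (nat_lit 0) (.cons (.br (nat_lit 2) (.cons (.rel (nat_lit 71304201)) .nil)) .nil)) .leaf) (nat_lit 22002258990869885) (.br (nat_lit 1) (.cons (.br (nat_lit 2) (.cons (.rel (nat_lit 100667664)) .nil)) .nil)) (.node .leaf (nat_lit 22002350393450498) (.br (nat_lit 0) (.cons (.br (nat_lit 1) (.cons (.rel (nat_lit 20973825)) .nil)) .nil)) .leaf))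

/-- refutations 141 -/
def e141 : EX := (.node (.node (.node .leaf (nat_lit 22002475835310237) (.br (nat_lit 3) (.cons (.br (nat_lit 4) (.cons (.rel (nat_lit 1343232000)) .nil)) .nil)) .leaf) (nat_lit 22002479550183724) (.br (nat_lit 0) (.cons (.br (nat_lit 1) (.cons (.rel (nat_lit 20987940)) .nil)) .nil)) (.node .leaf (nat_lit 22002479552539306) (.br (nat_lit 0) (.cons (.br (nat_lit 1) (.cons (.rel (nat_lit 20971800)) .nil)) .nil)) .leaf)) (nat_lit 22002568273414944) (.br (nat_lit 0) (.cons (.br (nat_lit 2) (.cons (.rel (nat_lit 71303202)) .nil)) .nil)) (.node (.node .leaf (nat_lit 22002568273670276) (.br (nat_lit 0) (.cons (.br (nat_lit 2) (.cons (.rel (nat_lit 71369232)) .nil)) .nil)) .leaf) (nat_lit 22002572944586938) (.br (nat_lit 2) (.cons (.br (nat_lit 4) (.cons (.rel (nat_lit 1140921348)) .nil)) .nil)) .leaf))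

/-- refutations 142 -/
def e142 : EX := (.node (.node (.node (.node .leaf (nat_lit 22003134747980551) (.br (nat_lit 0) (.cons (.br (nat_lit 6) (.cons (.rel (nat_lit 17184131073)) (.cons (.rel (nat_lit 17184084480)) .nil))) .nil)) .leaf) (nat_lit 22003134749415426) (.br (nat_lit 0) (.cons (.br (nat_lit 1) (.cons (.rel (nat_lit 21045504)) .nil)) .nil)) (.node .leaf (nat_lit 22003134749416975) (.br (nat_lit 1) (.cons (.br (nat_lit 6) (.cons (.rel (nat_lit 17196916752)) .nil)) .nil)) .leaf)) (nat_lit 22003134749519361) (.br (nat_lit 4) (.cons (.br (nat_lit 1) (.cons (.rel (nat_lit 1090520070)) (.cons (.br (nat_lit 6) (.cons (.rel (nat_lit 18287165568)) (.cons (.rel (nat_lit 18253611018)) (.cons (.rel (nat_lit 36507222021)) (.cons (.rel (nat_lit 17213423634)) .nil))))) (.cons (.rel (nat_lit 1107297345)) .nil)))) .nil)) (.node (.node .leaf (nat_lit 22003134794006530) (.br (nat_lit 0) (.cons (.br (nat_lit 1) (.cons (.rel (nat_lit 21045504)) (.cons (.rel (nat_lit 20976672)) .nil))) (.cons (.br (nat_lit 4) (.cons (.rel (nat_lit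 1077954624)) (.cons (.rel (nat_lit 2151683076)) .nil))) .nil))) .leaf) (nat_lit 22003137261915642) (.br (nat_lit 0) (.cons (.br (nat_lit 1) (.cons (.rel (nat_lit 21123072)) .nil)) .nil)) .leaf)) (nat_lit 22003137808233953) (.br (nat_lit 1) (.cons (.br (nat_lit 2) (.cons (.rel (nat_lit 168820752)) .nil)) .nil)) (.node (.node (.node .leaf (nat_lit 22003137811266347) (.br (nat_lit 0) (.cons (.br (nat_lit 1) (.cons (.rel (nat_lit 21004800)) .nil)) .nil)) .leaf) (nat_lit 22003140515037186) (.br (nat_lit 0) (.cons (.br (nat_lit 1) (.cons (.rel (nat_lit 20973825)) (.cons (.rel (nat_lit 20976672)) .nil))) .nil)) (.node .leaf (nat_lit 22003140516128770) (.br (nat_lit 0) (.cons (.br (nat_lit 1) (.cons (.rel (nat_lit 20976672)) .nil)) .nil)) .leaf)) (nat_lit 22003177842915335) (.br (nat_lit 2) (.cons (.br (nat_lit 4) (.cons (.rel (nat_lit 1140921348)) .nil)) .nil)) (.node (.node .leaf (nat_lit 22003180867009312) (.br (nat_lit 1) (.cons (.br (nat_lit 5) (.cons (.rel (nat_lit 8624541696)) .nil)) .nil)) .leaf) (nat_lit 22003206723218219)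 (.br (nat_lit 1) (.cons (.br (nat_lit 2) (.cons (.rel (nat_lit 85001280)) .nil)) .nil)) .leaf)))

/-- refutations 143 -/
def e143 : EX := (.node (.node .leaf (nat_lit 22003564292394515) (.br (nat_lit 2) (.cons (.br (nat_lit 4) (.cons (.rel (nat_lit 1140921348)) .nil)) .nil)) .leaf) (nat_lit 22003567517763041) (.br (nat_lit 0) (.cons (.br (nat_lit 4) (.cons (.rel (nat_lit 1078468608)) .nil)) .nil)) .leaf)

/-- refutations 144 -/
def e144 : EX := (.node .leaf (nat_lit 22003647212142749) (.br (nat_lit 0) (.cons (.br (nat_lit 3) (.cons (.rel (nat_lit 541392960)) .nil)) .nil)) .leaf)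

/-- refutations 148 -/
def e148 : EX := (.node (.node (.node .leaf (nat_lit 22184056622726056) (.br (nat_lit 0) (.cons (.br (nat_lit 2) (.cons (.rel (nat_lit 142606353)) .nil)) .nil)) .leaf) (nat_lit 22184058672401020) (.br (nat_lit 0) (.cons (.br (nat_lit 5) (.cons (.rel (nat_lit 8598327297)) .nil)) .nil)) .leaf) (nat_lit 22184059222887801) (.br (nat_lit 0) (.cons (.br (nat_lit 1) (.cons (.rel (nat_lit 21004800)) .nil)) .nil)) (.node .leaf (nat_lit 22190415758259738) (.br (nat_lit 0) (.cons (.br (nat_lit 2) (.cons (.rel (nat_lit 71303202)) .nil)) .nil)) .leaf))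

/-- refutations 149 -/
def e149 : EX := (.node (.node (.node .leaf (nat_lit 22191577530150150) (.br (nat_lit 0) (.cons (.br (nat_lit 1) (.cons (.rel (nat_lit 22020228)) .nil)) .nil)) .leaf) (nat_lit 22195011152613562) (.br (nat_lit 0) (.cons (.br (nat_lit 1) (.cons (.rel (nat_lit 20987940)) (.cons (.rel (nat_lit 20975637)) .nil))) .nil)) .leaf) (nat_lit 22195833421669888) (.br (nat_lit 0) (.cons (.br (nat_lit 2) (.cons (.rel (nat_lit 142606353)) .nil)) .nil)) (.node (.node .leaf (nat_lit 22196940741597970) (.br (nat_lit 1) (.cons (.br (nat_lit 2) (.cons (.rel (nat_lit 84154368)) .nil)) .nil)) .leaf) (nat_lit 22196940743134720) (.br (nat_lit 1) (.cons (.br (nat_lit 3) (.cons (.rel (nat_lit 285233172)) (.cons (.rel (nat_lit 285231360)) .nil))) .nil)) .leaf))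

/-- refutations 150 -/
def e150 : EX := (.node (.node (.node (.node (.node .leaf (nat_lit 22430466859944736) (.br (nat_lit 0) (.cons (.br (nat_lit 1) (.cons (.rel (nat_lit 20975637)) .nil)) .nil)) .leaf) (nat_lit 22430466861744928) (.br (nat_lit 0) (.cons (.br (nat_lit 1) (.cons (.rel (nat_lit 20975637)) .nil)) .nil)) .leaf) (nat_lit 22430466959325191) (.br (nat_lit 1) (.cons (.br (nat_lit 3) (.cons (.rel (nat_lit 303054849)) .nil)) .nil)) (.node .leaf (nat_lit 22430467227659040) (.br (nat_lit 0) (.cons (.br (nat_lit 1) (.cons (.rel (nat_lit 20975637)) .nil)) .nil)) .leaf)) (nat_lit 22430467228213923) (.br (nat_lit 0) (.cons (.br (nat_lit 3) (.cons (.rel (nat_lit 276828192)) .nil)) .nil)) (.node (.node .leaf (nat_lit 22430467793991961) (.br (nat_lit 0) (.cons (.br (nat_lit 6) (.cons (.rel (nat_lit 17184065808)) .nil)) .nil)) .leaf) (nat_lit 22430469324810876) (.br (nat_lit 0) (.cons (.br (nat_lit 1) (.cons (.rel (nat_lit 20976672)) .nil)) .nil)) (.node .leaf (nat_lit 22430469324861622) (.br (nat_lit 0) (.cons (.br (nat_lit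 1) (.cons (.rel (nat_lit 20973825)) .nil)) .nil)) .leaf))) (nat_lit 22430469460558499) (.br (nat_lit 0) (.cons (.br (nat_lit 3) (.cons (.rel (nat_lit 276825345)) .nil)) .nil)) (.node (.node (.node (.node .leaf (nat_lit 22430469461700740) (.br (nat_lit 0) (.cons (.br (nat_lit 5) (.cons (.rel (nat_lit 4299162120)) .nil)) .nil)) .leaf) (nat_lit 22430469536166574) (.br (nat_lit 1) (.cons (.br (nat_lit 2) (.cons (.rel (nat_lit 150996228)) .nil)) .nil)) .leaf) (nat_lit 22430469537199380) (.br (nat_lit 0) (.cons (.br (nat_lit 5) (.cons (.rel (nat_lit 4299232257)) .nil)) .nil)) (.node .leaf (nat_lit 22430469537203433) (.br (nat_lit 0) (.cons (.br (nat_lit 3) (.cons (.rel (nat_lit 272630880)) .nil)) .nil)) .leaf)) (nat_lit 22430470084082425) (.br (nat_lit 3) (.cons (.br (nat_lit 4) (.cons (.rel (nat_lit 1342701600)) .nil)) .nil)) (.node (.node .leaf (nat_lit 22430472576926332) (.br (nat_lit 0) (.cons (.br (nat_lit 1) (.cons (.rel (nat_lit 20971800)) .nil)) .nil)) .leaf) (nat_lit 22430472577037088) (.br (nat_lit 3) (.cons (.br (nat_lit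 4) (.cons (.rel (nat_lit 1342246992)) (.cons (.rel (nat_lit 2684616720)) .nil))) (.cons (.br (nat_lit 5) (.cons (.rel (nat_lit 4563402786)) (.cons (.rel (nat_lit 4563402786)) .nil))) .nil))) (.node .leaf (nat_lit 22431389106420512) (.br (nat_lit 1) (.cons (.br (nat_lit 2) (.cons (.rel (nat_lit 84213762)) .nil)) .nil)) .leaf))))

/-- refutations 151 -/
def e151 : EX := (.node .leaf (nat_lit 22436958424804139) (.br (nat_lit 1) (.cons (.br (nat_lit 6) (.cons (.rel (nat_lit 34376646912)) .nil)) .nil)) .leaf)

/-- refutations 152 -/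
def e152 : EX := (.node .leaf (nat_lit 22443157207707675) (.br (nat_lit 0) (.cons (.br (nat_lit 1) (.cons (.rel (nat_lit 21045504)) .nil)) .nil)) .leaf)

/-- refutations 153 -/
def e153 : EX := (.node .leaf (nat_lit 22536071580410656) (.br (nat_lit 0) (.cons (.br (nat_lit 3) (.cons (.rel (nat_lit 276840450)) .nil)) .nil)) .leaf)

/-- refutations 154 -/
def e154 : EX := (.node .leaf (nat_lit 22548739256479082) (.br (nat_lit 0) (.cons (.br (nat_lit 5) (.cons (.rel (nat_lit 4299165957)) (.cons (.rel (nat_lit 4299162120)) .nil))) .nil)) .leaf)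

/-- refutations 156 -/
def e156 : EX := (.node (.node (.node (.node .leaf (nat_lit 22553672917013287) (.br (nat_lit 2) (.cons (.br (nat_lit 3) (.cons (.rel (nat_lit 403767552)) .nil)) .nil)) .leaf) (nat_lit 22553674787672871) (.br (nat_lit 0) (.cons (.br (nat_lit 2) (.cons (.rel (nat_lit 73404480)) .nil)) .nil)) .leaf) (nat_lit 22553674892420329) (.br (nat_lit 0) (.cons (.br (nat_lit 3) (.cons (.rel (nat_lit 545538312)) .nil)) .nil)) (.node (.node .leaf (nat_lit 22553674967917201) (.br (nat_lit 0) (.cons (.br (nat_lit 5) (.cons (.rel (nat_lit 8596488192)) .nil)) .nil)) .leaf) (nat_lit 22553674967960188) (.br (nat_lit 0) (.cons (.br (nat_lit 3) (.cons (.rel (nat_lit 272699712)) .nil)) .nil)) .leaf)) (nat_lit 22553674968027811) (.br (nat_lit 0) (.cons (.br (nat_lit 2) (.cons (.rel (nat_lit 71303202)) (.cons (.rel (nat_lit 71303202)) .nil))) .nil)) (.node (.node (.node .leaf (nat_lit 22553674969564517) (.br (nat_lit 0) (.cons (.br (nat_lit 1) (.cons (.rel (nat_lit 20988930)) .nil)) .nil)) .leaf) (nat_lit 22553675432213887)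 (.br (nat_lit 0) (.cons (.br (nat_lit 4) (.cons (.rel (nat_lit 1078986768)) .nil)) .nil)) .leaf) (nat_lit 22553675433595687) (.br (nat_lit 3) (.cons (.br (nat_lit 2) (.cons (.rel (nat_lit 335548434)) (.cons (.rel (nat_lit 605028933)) .nil))) .nil)) (.node .leaf (nat_lit 22553675435131687) (.br (nat_lit 3) (.cons (.br (nat_lit 4) (.cons (.rel (nat_lit 1342701600)) .nil)) .nil)) .leaf)))

/-- refutations 157 -/
def e157 : EX := (.node (.node (.node (.node .leaf (nat_lit 22559671087719905) (.br (nat_lit 2) (.cons (.br (nat_lit 6) (.cons (.rel (nat_lit 17247256584)) .nil)) .nil)) .leaf) (nat_lit 22559674247228942) (.br (nat_lit 0) (.cons (.br (nat_lit 1) (.cons (.rel (nat_lit 25493520)) .nil)) .nil)) (.node .leaf (nat_lit 22559674250223676) (.br (nat_lit 2) (.cons (.br (nat_lit 3) (.cons (.rel (nat_lit 335585280)) .nil)) .nil)) .leaf)) (nat_lit 22559674250224892) (.br (nat_lit 0) (.cons (.br (nat_lit 1) (.cons (.rel (nat_lit 20987940)) .nil)) .nil)) (.node (.node .leaf (nat_lit 22559674250225121) (.br (nat_lit 0) (.cons (.br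 (nat_lit 3) (.cons (.rel (nat_lit 272715864)) .nil)) .nil)) .leaf) (nat_lit 22561014277523581) (.br (nat_lit 0) (.cons (.br (nat_lit 1) (.cons (.rel (nat_lit 20973825)) .nil)) .nil)) (.node .leaf (nat_lit 22561014279615146) (.br (nat_lit 0) (.cons (.br (nat_lit 3) (.cons (.rel (nat_lit 272699712)) .nil)) .nil)) .leaf))) (nat_lit 22561190950753563) (.br (nat_lit 0) (.cons (.br (nat_lit 1) (.cons (.rel (nat_lit 20971800)) .nil)) .nil)) (.node (.node (.node .leaf (nat_lit 22561194665651726) (.br (nat_lit 0) (.cons (.br (nat_lit 5) (.cons (.rel (nat_lit 8596488192)) (.cons (.rel (nat_lit 4299165957)) .nil))) .nil)) .leaf) (nat_lit 22561194665887132) (.br (nat_lit 0) (.cons (.br (nat_lit 1) (.cons (.rel (nat_lit 20971800)) .nil)) .nil)) (.node .leaf (nat_lit 22561194665945388) (.br (nat_lit 0) (.cons (.br (nat_lit 1) (.cons (.rel (nat_lit 37752912)) .nil)) .nil)) .leaf)) (nat_lit 22561194668147338) (.br (nat_lit 0) (.cons (.br (nat_lit 2) (.cons (.rel (nat_lit 71323908)) .nil)) .nil)) (.node (.node .leaf (nat_lit 22561194668206380)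 (.br (nat_lit 3) (.cons (.br (nat_lit 4) (.cons (.rel (nat_lit 1342246992)) .nil)) .nil)) .leaf) (nat_lit 22564197981973162) (.br (nat_lit 0) (.cons (.br (nat_lit 1) (.cons (.rel (nat_lit 20971800)) .nil)) .nil)) .leaf)))

/-- refutations 158 -/
def e158 : EX := (.node (.node (.node (.node .leaf (nat_lit 22564447210192255) (.br (nat_lit 0) (.cons (.br (nat_lit 1) (.cons (.rel (nat_lit 20971800)) .nil)) .nil)) .leaf) (nat_lit 22564450251062655) (.br (nat_lit 0) (.cons (.br (nat_lit 3) (.cons (.rel (nat_lit 273219585)) .nil)) .nil)) .leaf) (nat_lit 22564450253357738) (.br (nat_lit 1) (.cons (.br (nat_lit 6) (.cons (.rel (nat_lit 17196646548)) .nil)) .nil)) (.node .leaf (nat_lit 22565423948542627) (.br (nat_lit 0) (.cons (.br (nat_lit 2) (.cons (.rel (nat_lit 71312640)) .nil)) .nil)) .leaf)) (nat_lit 22565429505959947) (.br (nat_lit 0) (.cons (.br (nat_lit 1) (.cons (.rel (nat_lit 20976672)) .nil)) .nil)) (.node (.node (.node .leaf (nat_lit 22565429506523436) (.br (nat_lit 0) (.cons (.br (nat_lit 1) (.cons (.rel (nat_lit 27262977))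 .nil)) .nil)) .leaf) (nat_lit 22566305679728667) (.br (nat_lit 0) (.cons (.br (nat_lit 6) (.cons (.rel (nat_lit 17184129048)) .nil)) .nil)) .leaf) (nat_lit 22566305679728700) (.br (nat_lit 0) (.cons (.br (nat_lit 3) (.cons (.rel (nat_lit 276825345)) .nil)) .nil)) (.node .leaf (nat_lit 22566305679802395) (.br (nat_lit 0) (.cons (.br (nat_lit 2) (.cons (.rel (nat_lit 139476996)) .nil)) .nil)) .leaf)))

/-- refutations 160 -/
def e160 : EX := (.node (.node (.node (.node .leaf (nat_lit 22869842098169083) (.br (nat_lit 0) (.cons (.br (nat_lit 2) (.cons (.rel (nat_lit 71303202)) .nil)) .nil)) .leaf) (nat_lit 22869842098365166) (.br (nat_lit 3) (.cons (.br (nat_lit 1) (.cons (.rel (nat_lit 285278496)) (.cons (.rel (nat_lit 570425601)) .nil))) .nil)) (.node .leaf (nat_lit 22869842098476508) (.br (nat_lit 4) (.cons (.br (nat_lit 6) (.cons (.rel (nat_lit 18253612053)) .nil)) .nil)) .leaf)) (nat_lit 22869842098672252) (.br (nat_lit 0) (.cons (.br (nat_lit 1) (.cons (.rel (nat_lit 37814340)) .nil)) .nil)) (.node (.node .leaf (nat_lit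 22869842100011758) (.br (nat_lit 1) (.cons (.br (nat_lit 3) (.cons (.rel (nat_lit 285213186)) .nil)) .nil)) .leaf) (nat_lit 22869844689152750) (.br (nat_lit 0) (.cons (.br (nat_lit 1) (.cons (.rel (nat_lit 22020228)) .nil)) .nil)) (.node .leaf (nat_lit 22869844689153275) (.br (nat_lit 0) (.cons (.br (nat_lit 2) (.cons (.rel (nat_lit 71312640)) .nil)) .nil)) .leaf))) (nat_lit 22869844690248430) (.br (nat_lit 2) (.cons (.br (nat_lit 3) (.cons (.rel (nat_lit 335548434)) .nil)) .nil)) (.node (.node (.node .leaf (nat_lit 22869844691477155) (.br (nat_lit 0) (.cons (.br (nat_lit 5) (.cons (.rel (nat_lit 4299169794)) .nil)) .nil)) .leaf) (nat_lit 22869844691783680) (.br (nat_lit 0) (.cons (.br (nat_lit 1) (.cons (.rel (nat_lit 21037065)) .nil)) .nil)) (.node .leaf (nat_lit 22869845155859368) (.br (nat_lit 1) (.cons (.br (nat_lit 3) (.cons (.rel (nat_lit 286523424)) (.cons (.rel (nat_lit 285231360)) .nil))) .nil)) .leaf)) (nat_lit 22869845156012782) (.br (nat_lit 3) (.cons (.br (nat_lit 6) (.cons (.rel (nat_lit 17448337413)) .nil))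 .nil)) (.node (.node .leaf (nat_lit 22869845157284590) (.br (nat_lit 0) (.cons (.br (nat_lit 2) (.cons (.rel (nat_lit 71323908)) .nil)) .nil)) .leaf) (nat_lit 22869845238455022) (.br (nat_lit 0) (.cons (.br (nat_lit 1) (.cons (.rel (nat_lit 21037065)) .nil)) .nil)) (.node .leaf (nat_lit 22869845238463214) (.br (nat_lit 0) (.cons (.br (nat_lit 3) (.cons (.rel (nat_lit 273686532)) (.cons (.rel (nat_lit 273686532)) (.cons (.rel (nat_lit 273686532)) .nil)))) .nil)) .leaf))))

/-- refutations 161 -/
def e161 : EX := (.node (.node .leaf (nat_lit 22876333684108775) (.br (nat_lit 0) (.cons (.br (nat_lit 2) (.cons (.rel (nat_lit 71401476)) .nil)) .nil)) .leaf) (nat_lit 22876514072772122) (.br (nat_lit 2) (.cons (.br (nat_lit 3) (.cons (.rel (nat_lit 335544597)) .nil)) .nil)) (.node .leaf (nat_lit 22876514075846716) (.br (nat_lit 3) (.cons (.br (nat_lit 6) (.cons (.rel (nat_lit 17448337413)) .nil)) .nil)) .leaf))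

/-- refutations 162 -/
def e162 : EX := (.node (.node (.node (.node .leaf (nat_lit 22877848459502875) (.br (nat_lit 5) (.cons (.br (nat_lit 2) (.cons (.rel (nat_lit 4362372096)) (.cons (.rel (nat_lit 4429193232)) .nil))) .nil)) .leaf) (nat_lit 22877854102568219) (.br (nat_lit 2) (.cons (.br (nat_lit 4) (.cons (.rel (nat_lit 1140851202)) .nil)) .nil)) .leaf) (nat_lit 22877854102777115) (.br (nat_lit 3) (.cons (.br (nat_lit 5) (.cons (.rel (nat_lit 4563404820)) .nil)) .nil)) (.node (.node .leaf (nat_lit 22877854102838555) (.br (nat_lit 0) (.cons (.br (nat_lit 3) (.cons (.rel (nat_lit 273154320)) .nil)) .nil)) .leaf) (nat_lit 22877854103074075) (.br (nat_lit 1) (.cons (.br (nat_lit 2) (.cons (.rel (nat_lit 167788608)) (.cons (.br (nat_lit 3) (.cons (.rel (nat_lit 335545632)) (.cons (.rel (nat_lit 285221904)) .nil))) .nil))) .nil)) .leaf)) (nat_lit 22877854103786779) (.br (nat_lit 0) (.cons (.br (nat_lit 4) (.cons (.rel (nat_lit 1077954624)) .nil)) .nil)) (.node (.node (.node .leaf (nat_lit 22880797171426180) (.br (nat_lit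 0) (.cons (.br (nat_lit 1) (.cons (.rel (nat_lit 21045504)) .nil)) .nil)) .leaf) (nat_lit 22881750339572969) (.br (nat_lit 0) (.cons (.br (nat_lit 2) (.cons (.rel (nat_lit 71312640)) (.cons (.rel (nat_lit 139476996)) .nil))) .nil)) .leaf) (nat_lit 22881753934044393) (.br (nat_lit 0) (.cons (.br (nat_lit 1) (.cons (.rel (nat_lit 22020228)) .nil)) .nil)) (.node (.node .leaf (nat_lit 22881753934409914) (.br (nat_lit 0) (.cons (.br (nat_lit 4) (.cons (.rel (nat_lit 1078001760)) .nil)) .nil)) .leaf) (nat_lit 22881753935340156) (.br (nat_lit 0) (.cons (.br (nat_lit 4) (.cons (.rel (nat_lit 2151678240)) .nil)) .nil)) .leaf)))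

/-- refutations 163 -/
def e163 : EX := (.node (.node (.node .leaf (nat_lit 22882727000364508) (.br (nat_lit 2) (.cons (.br (nat_lit 3) (.cons (.rel (nat_lit 335545632)) .nil)) .nil)) .leaf) (nat_lit 22882958738255899) (.br (nat_lit 0) (.cons (.br (nat_lit 3) (.cons (.rel (nat_lit 272777280)) .nil)) .nil)) (.node .leaf (nat_lit 22882965113613850) (.br (nat_lit 0) (.cons (.br (nat_lit 2) (.cons (.rel (nat_lit 71340048)) .nil)) .nil)) .leaf)) (nat_lit 22882965113642511) (.br (nat_lit 1) (.cons (.br (nat_lit 2) (.cons (.rel (nat_lit 150996228)) .nil)) .nil)) (.node (.node .leaf (nat_lit 22882965113649179) (.br (nat_lit 0) (.cons (.br (nat_lit 2) (.cons (.rel (nat_lit 71303202)) .nil)) .nil)) .leaf) (nat_lit 22882965115187260) (.br (nat_lit 0) (.cons (.br (nat_lit 5) (.cons (.rel (nat_lit 8598327297)) .nil)) .nil)) (.node .leaf (nat_lit 22882965116725275) (.br (nat_lit 0) (.cons (.br (nat_lit 6) (.cons (.br (nat_lit 2) (.cons (.rel (nat_lit 17247245316)) (.cons (.rel (nat_lit 139476996)) .nil))) .nil)) .nil)) .leaf)))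

/-- refutations 164 -/
def e164 : EX := (.node (.node .leaf (nat_lit 23063453150708387) (.br (nat_lit 0) (.cons (.br (nat_lit 2) (.cons (.rel (nat_lit 71303202)) .nil)) .nil)) .leaf) (nat_lit 23070122521938730) (.br (nat_lit 0) (.cons (.br (nat_lit 1) (.cons (.rel (nat_lit 21045504)) .nil)) .nil)) .leaf)

/-- refutations 165 -/
def e165 : EX := (.node (.node .leaf (nat_lit 23071090202158331) (.br (nat_lit 1) (.cons (.br (nat_lit 3) (.cons (.rel (nat_lit 285213186)) .nil)) .nil)) .leaf) (nat_lit 23071090202602908) (.br (nat_lit 1) (.cons (.br (nat_lit 2) (.cons (.rel (nat_lit 83918976)) .nil)) .nil)) (.node .leaf (nat_lit 23074623646350719) (.br (nat_lit 0) (.cons (.br (nat_lit 2) (.cons (.rel (nat_lit 71369232)) .nil)) .nil)) .leaf))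

/-- refutations 167 -/
def e167 : EX := (.node (.node (.node (.node (.node (.node .leaf (nat_lit 24189565831439122) (.br (nat_lit 0) (.cons (.br (nat_lit 1) (.cons (.rel (nat_lit 20971800)) .nil)) .nil)) .leaf) (nat_lit 24189568195797892) (.br (nat_lit 0) (.cons (.br (nat_lit 1) (.cons (.rel (nat_lit 41959680)) .nil)) .nil)) .leaf) (nat_lit 24190544540613283) (.br (nat_lit 0) (.cons (.br (nat_lit 4) (.cons (.rel (nat_lit 1077936450)) .nil)) .nil)) (.node .leaf (nat_lit 24190544540655898) (.br (nat_lit 2) (.cons (.br (nat_lit 3) (.cons (.rel (nat_lit 335585280)) .nil)) .nil)) .leaf)) (nat_lit 24190544541688744) (.br (nat_lit 0) (.cons (.br (nat_lit 3) (.cons (.rel (nat_lit 541134852)) .nil)) .nil)) (.node (.node .leaf (nat_lit 24190544541885166) (.br (nat_lit 0) (.cons (.br (nat_lit 5) (.cons (.rel (nat_lit 4299162120)) .nil)) .nil)) .leaf) (nat_lit 24190544542149265) (.br (nat_lit 0) (.cons (.br (nat_lit 1) (.cons (.rel (nat_lit 20973825)) .nil)) .nil)) (.node .leaf (nat_lit 24190544542150033) (.br (nat_lit 0) (.cons (.br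 (nat_lit 6) (.cons (.rel (nat_lit 17184079878)) .nil)) .nil)) .leaf))) (nat_lit 24190544542191898) (.br (nat_lit 2) (.cons (.br (nat_lit 3) (.cons (.rel (nat_lit 335609862)) .nil)) .nil)) (.node (.node (.node .leaf (nat_lit 24190544542192252) (.br (nat_lit 1) (.cons (.br (nat_lit 2) (.cons (.rel (nat_lit 83918976)) .nil)) .nil)) .leaf) (nat_lit 24190544542193023) (.br (nat_lit 3) (.cons (.br (nat_lit 1) (.cons (.rel (nat_lit 303054849)) (.cons (.rel (nat_lit 302514180)) .nil))) .nil)) (.node .leaf (nat_lit 24190544542916890) (.br (nat_lit 0) (.cons (.br (nat_lit 1) (.cons (.rel (nat_lit 20975637)) .nil)) .nil)) .leaf)) (nat_lit 24190544542917283) (.br (nat_lit 3) (.cons (.br (nat_lit 0) (.cons (.rel (nat_lit 272630880)) (.cons (.rel (nat_lit 272629845)) .nil))) .nil)) (.node (.node .leaf (nat_lit 24190544543002906) (.br (nat_lit 0) (.cons (.br (nat_lit 3) (.cons (.rel (nat_lit 276840450)) .nil)) .nil)) .leaf) (nat_lit 24190547057302440) (.br (nat_lit 2) (.cons (.br (nat_lit 4) (.cons (.rel (nat_lit 2281701633)) .nil)) .nil))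 (.node .leaf (nat_lit 24190547059861018) (.br (nat_lit 2) (.cons (.br (nat_lit 3) (.cons (.rel (nat_lit 335548434)) .nil)) .nil)) .leaf)))) (nat_lit 24190547598097191) (.br (nat_lit 0) (.cons (.br (nat_lit 2) (.cons (.rel (nat_lit 71369232)) .nil)) .nil)) (.node (.node (.node (.node .leaf (nat_lit 24190547598346501) (.br (nat_lit 0) (.cons (.br (nat_lit 1) (.cons (.rel (nat_lit 21004800)) .nil)) .nil)) .leaf) (nat_lit 24190547598346540) (.br (nat_lit 0) (.cons (.br (nat_lit 1) (.cons (.rel (nat_lit 20973825)) .nil)) .nil)) (.node .leaf (nat_lit 24190547598347647) (.br (nat_lit 0) (.cons (.br (nat_lit 2) (.cons (.rel (nat_lit 71303202)) .nil)) .nil)) .leaf)) (nat_lit 24190547599532782) (.br (nat_lit 3) (.cons (.br (nat_lit 5) (.cons (.rel (nat_lit 9126805521)) .nil)) .nil)) (.node (.node .leaf (nat_lit 24190547599635243) (.br (nat_lit 0) (.cons (.br (nat_lit 1) (.cons (.rel (nat_lit 20971800)) .nil)) .nil)) .leaf) (nat_lit 24190547599786266) (.br (nat_lit 2) (.cons (.br (nat_lit 4) (.cons (.rel (nat_lit 1140981777)) .nil))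 .nil)) (.node .leaf (nat_lit 24190547599796881) (.br (nat_lit 0) (.cons (.br (nat_lit 3) (.cons (.rel (nat_lit 273686532)) .nil)) .nil)) .leaf))) (nat_lit 24190547599797631) (.br (nat_lit 0) (.cons (.br (nat_lit 2) (.cons (.rel (nat_lit 71304201)) .nil)) .nil)) (.node (.node (.node .leaf (nat_lit 24190547599840639) (.br (nat_lit 2) (.cons (.br (nat_lit 0) (.cons (.rel (nat_lit 142606353)) (.cons (.rel (nat_lit 71304201)) .nil))) .nil)) .leaf) (nat_lit 24190547599883665) (.br (nat_lit 0) (.cons (.br (nat_lit 1) (.cons (.rel (nat_lit 20975637)) .nil)) .nil)) (.node .leaf (nat_lit 24190547600650540) (.br (nat_lit 0) (.cons (.br (nat_lit 2) (.cons (.rel (nat_lit 71305236)) .nil)) .nil)) .leaf)) (nat_lit 24190549591870372) (.br (nat_lit 0) (.cons (.br (nat_lit 1) (.cons (.rel (nat_lit 20973825)) .nil)) .nil)) (.node (.node .leaf (nat_lit 24190822537498874) (.br (nat_lit 0) (.cons (.br (nat_lit 1) (.cons (.rel (nat_lit 20987940)) .nil)) .nil)) .leaf) (nat_lit 24194644431070561) (.br (nat_lit 1) (.cons (.br (nat_lit 2) (.cons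 (.rel (nat_lit 84148497)) .nil)) .nil)) (.node .leaf (nat_lit 24194690134578534) (.br (nat_lit 0) (.cons (.br (nat_lit 1) (.cons (.rel (nat_lit 20973825)) .nil)) .nil)) .leaf)))))

/-- refutations 168 -/
def e168 : EX := (.node (.node (.node .leaf (nat_lit 24196835432772220) (.br (nat_lit 0) (.cons (.br (nat_lit 2) (.cons (.rel (nat_lit 142606353)) .nil)) .nil)) .leaf) (nat_lit 24200297175294702) (.br (nat_lit 0) (.cons (.br (nat_lit 2) (.cons (.rel (nat_lit 75759621)) .nil)) .nil)) .leaf) (nat_lit 24200517456049510) (.br (nat_lit 0) (.cons (.br (nat_lit 1) (.cons (.rel (nat_lit 20971800)) .nil)) .nil)) (.node .leaf (nat_lit 24200517457064218) (.br (nat_lit 1) (.cons (.br (nat_lit 3) (.cons (.rel (nat_lit 285220869)) .nil)) .nil)) .leaf))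

/-- refutations 169 -/
def e169 : EX := (.node .leaf (nat_lit 24201592247686502) (.br (nat_lit 0) (.cons (.br (nat_lit 1) (.cons (.rel (nat_lit 41963529)) .nil)) .nil)) .leaf)

/-- refutations 170 -/
def e170 : EX := (.node (.node .leaf (nat_lit 23087414123136478) (.br (nat_lit 0) (.cons (.br (nat_lit 3) (.cons (.rel (nat_lit 273154320)) .nil)) .nil)) .leaf) (nat_lit 23094071323975707) (.br (nat_lit 0) (.cons (.br (nat_lit 2) (.cons (.rel (nat_lit 71323908)) (.cons (.rel (nat_lit 71303202)) .nil))) .nil)) (.node .leaf (nat_lit 23094148633514766) (.br (nat_lit 0) (.cons (.br (nat_lit 1) (.cons (.rel (nat_lit 20973825)) .nil)) .nil)) .leaf))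

/-- refutations 172 -/
def e172 : EX := (.node (.node (.node (.node .leaf (nat_lit 24376215957374363) (.br (nat_lit 0) (.cons (.br (nat_lit 2) (.cons (.rel (nat_lit 71340048)) .nil)) .nil)) .leaf) (nat_lit 24377204673341715) (.br (nat_lit 0) (.cons (.br (nat_lit 4) (.cons (.rel (nat_lit 1082130960)) .nil)) .nil)) .leaf) (nat_lit 24377471155573042) (.br (nat_lit 0) (.cons (.br (nat_lit 3) (.cons (.rel (nat_lit 276825345)) .nil)) .nil)) (.node .leaf (nat_lit 24377471157125152) (.br (nat_lit 1) (.cons (.br (nat_lit 4) (.cons (.rel (nat_lit 1090552080)) .nil)) .nil)) .leaf)) (nat_lit 24377471157126555) (.br (nat_lit 1) (.cons (.br (nat_lit 3) (.cons (.rel (nat_lit 285246465)) .nil)) .nil)) (.node (.node .leaf (nat_lit 24377471157230955) (.br (nat_lit 0) (.cons (.br (nat_lit 5) (.cons (.rel (nat_lit 8598339600)) .nil)) .nil)) .leaf) (nat_lit 24377471158446386) (.br (nat_lit 0) (.cons (.br (nat_lit 1) (.cons (.rel (nat_lit 20987940)) .nil)) .nil)) (.node .leaf (nat_lit 24377471158446985) (.br (nat_lit 0) (.cons (.br (nat_lit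 2) (.cons (.rel (nat_lit 142606353)) .nil)) .nil)) .leaf)))

/-- refutations 174 -/
def e174 : EX := (.node .leaf (nat_lit 24811868114433277) (.br (nat_lit 0) (.cons (.br (nat_lit 4) (.cons (.rel (nat_lit 1082163204)) .nil)) .nil)) .leaf)

/-- refutations 175 -/
def e175 : EX := (.node .leaf (nat_lit 24812993395508080) (.br (nat_lit 0) (.cons (.br (nat_lit 1) (.cons (.rel (nat_lit 20987940)) .nil)) .nil)) .leaf)

/-- refutations 176 -/
def e176 : EX := (.node (.node (.node .leaf (nat_lit 24824174887637928) (.br (nat_lit 0) (.cons (.br (nat_lit 2) (.cons (.rel (nat_lit 71327745)) .nil)) .nil)) .leaf) (nat_lit 24824175534623656) (.br (nat_lit 2) (.cons (.br (nat_lit 3) (.cons (.rel (nat_lit 335548434)) .nil)) .nil)) (.node .leaf (nat_lit 24824175535084906) (.br (nat_lit 1) (.cons (.br (nat_lit 2) (.cons (.rel (nat_lit 151000065)) .nil)) .nil)) .leaf)) (nat_lit 24824175536159506) (.br (nat_lit 0) (.cons (.br (nat_lit 3) (.cons (.rel (nat_lit 273809424)) .nil)) .nil)) (.node (.node .leaf (nat_lit 24824175536159656) (.br (nat_lit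 2) (.cons (.br (nat_lit 6) (.cons (.rel (nat_lit 17314087176)) .nil)) .nil)) .leaf) (nat_lit 24829326199927084) (.br (nat_lit 0) (.cons (.br (nat_lit 3) (.cons (.rel (nat_lit 272630880)) .nil)) .nil)) (.node .leaf (nat_lit 24829329344538112) (.br (nat_lit 1) (.cons (.br (nat_lit 3) (.cons (.rel (nat_lit 285221904)) .nil)) .nil)) .leaf)))

/-- refutations 177 -/
def e177 : EX := (.node (.node (.node (.node .leaf (nat_lit 24830617833497962) (.br (nat_lit 0) (.cons (.br (nat_lit 3) (.cons (.rel (nat_lit 273809424)) .nil)) .nil)) .leaf) (nat_lit 24830617835033962) (.br (nat_lit 0) (.cons (.br (nat_lit 1) (.cons (.rel (nat_lit 20975637)) .nil)) .nil)) .leaf) (nat_lit 24830617835844970) (.br (nat_lit 0) (.cons (.br (nat_lit 3) (.cons (.rel (nat_lit 276828192)) (.cons (.rel (nat_lit 272629845)) .nil))) .nil)) (.node (.node .leaf (nat_lit 24830617836107962) (.br (nat_lit 0) (.cons (.br (nat_lit 3) (.cons (.rel (nat_lit 272630880)) .nil)) .nil)) .leaf) (nat_lit 24833835913197868) (.br (nat_lit 0) (.cons (.br (nat_lit 4) (.cons (.rel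 (nat_lit 2156138496)) .nil)) .nil)) .leaf)) (nat_lit 24833835915587884) (.br (nat_lit 0) (.cons (.br (nat_lit 2) (.cons (.rel (nat_lit 71312640)) (.cons (.rel (nat_lit 142606353)) .nil))) .nil)) (.node (.node (.node .leaf (nat_lit 24833835915588220) (.br (nat_lit 2) (.cons (.br (nat_lit 3) (.cons (.rel (nat_lit 335808576)) .nil)) .nil)) .leaf) (nat_lit 24833841158467884) (.br (nat_lit 1) (.cons (.br (nat_lit 5) (.cons (.rel (nat_lit 8606712336)) .nil)) .nil)) .leaf) (nat_lit 24833841158468220) (.br (nat_lit 0) (.cons (.br (nat_lit 2) (.cons (.rel (nat_lit 138412608)) .nil)) .nil)) (.node .leaf (nat_lit 24834700150552862) (.br (nat_lit 0) (.cons (.br (nat_lit 3) (.cons (.rel (nat_lit 272777280)) .nil)) .nil)) .leaf)))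

/-- refutations 179 -/
def e179 : EX := (.node .leaf (nat_lit 25076871066921596) (.br (nat_lit 0) (.cons (.br (nat_lit 1) (.cons (.rel (nat_lit 20987940)) .nil)) .nil)) .leaf)

/-- refutations 181 -/
def e181 : EX := (.node (.node (.node .leaf (nat_lit 24284996136832252) (.br (nat_lit 0) (.cons (.br (nat_lit 4) (.cons (.rel (nat_lit 1078468608)) .nil)) .nil)) .leaf) (nat_lit 24288211857594523) (.br (nat_lit 2) (.cons (.br (nat_lit 3) (.cons (.rel (nat_lit 335544597)) .nil)) .nil)) .leaf) (nat_lit 24288211857848576) (.br (nat_lit 1) (.cons (.br (nat_lit 3) (.cons (.rel (nat_lit 285221904)) .nil)) .nil)) (.node (.node .leaf (nat_lit 24288484567661296) (.br (nat_lit 0) (.cons (.br (nat_lit 2) (.cons (.rel (nat_lit 75760656)) .nil)) .nil)) .leaf) (nat_lit 24290365350330398) (.br (nat_lit 0) (.cons (.br (nat_lit 1) (.cons (.rel (nat_lit 20976672)) .nil)) .nil)) .leaf))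

/-- refutations 182 -/
def e182 : EX := (.node .leaf (nat_lit 25158383445932939) (.br (nat_lit 0) (.cons (.br (nat_lit 1) (.cons (.rel (nat_lit 27262977)) .nil)) .nil)) .leaf)

/-- refutations 183 -/
def e183 : EX := (.node (.node (.node (.node .leaf (nat_lit 25193144543387809) (.br (nat_lit 0) (.cons (.br (nat_lit 2) (.cons (.rel (nat_lit 71401476)) .nil)) .nil)) .leaf) (nat_lit 25193147569497471) (.br (nat_lit 0) (.cons (.br (nat_lit 1) (.cons (.rel (nat_lit 40371264)) .nil)) .nil)) .leaf) (nat_lit 25193147569845524) (.br (nat_lit 1) (.cons (.br (nat_lit 2) (.cons (.rel (nat_lit 84154368)) .nil)) .nil)) (.node (.node .leaf (nat_lit 25193147583969562) (.br (nat_lit 2) (.cons (.br (nat_lit 3) (.cons (.rel (nat_lit 335808576)) .nil)) .nil)) .leaf) (nat_lit 25193147585505916) (.br (nat_lit 0) (.cons (.br (nat_lit 2) (.cons (.rel (nat_lit 71303202)) .nil)) .nil)) .leaf)) (nat_lit 25193147586316963) (.br (nat_lit 0) (.cons (.br (nat_lit 1) (.cons (.rel (nat_lit 20988930)) .nil)) .nil)) (.node (.node (.node .leaf (nat_lit 25193571594656026)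 (.br (nat_lit 1) (.cons (.br (nat_lit 2) (.cons (.rel (nat_lit 151011333)) .nil)) .nil)) .leaf) (nat_lit 25193571596138778) (.br (nat_lit 0) (.cons (.br (nat_lit 2) (.cons (.rel (nat_lit 72614160)) .nil)) .nil)) .leaf) (nat_lit 25194685032342190) (.br (nat_lit 0) (.cons (.br (nat_lit 2) (.cons (.rel (nat_lit 71434497)) .nil)) .nil)) (.node (.node .leaf (nat_lit 25199839249451290) (.br (nat_lit 1) (.cons (.br (nat_lit 3) (.cons (.rel (nat_lit 285246465)) .nil)) .nil)) .leaf) (nat_lit 25200013040182554) (.br (nat_lit 0) (.cons (.br (nat_lit 1) (.cons (.rel (nat_lit 20988930)) .nil)) .nil)) .leaf)))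

/-- refutations 184 -/
def e184 : EX := (.node (.node (.node .leaf (nat_lit 25204097711941914) (.br (nat_lit 3) (.cons (.br (nat_lit 5) (.cons (.rel (nat_lit 4563402786)) .nil)) .nil)) .leaf) (nat_lit 25204097712142618) (.br (nat_lit 3) (.cons (.br (nat_lit 5) (.cons (.rel (nat_lit 8858387520)) .nil)) .nil)) .leaf) (nat_lit 25204097713171989) (.br (nat_lit 2) (.cons (.br (nat_lit 3) (.cons (.rel (nat_lit 335550468)) .nil)) .nil)) (.node .leaf (nat_lit 25204912627767606) (.br (nat_lit 1) (.cons (.br (nat_lit 5) (.cons (.rel (nat_lit 4328522016)) (.cons (.rel (nat_lit 4312793169)) .nil))) .nil)) .leaf))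

/-- refutations 187 -/
def e187 : EX := (.node .leaf (nat_lit 26477549599785862) (.br (nat_lit 0) (.cons (.br (nat_lit 1) (.cons (.rel (nat_lit 27262977)) .nil)) .nil)) .leaf)

/-- refutations 188 -/
def e188 : EX := (.node (.node .leaf (nat_lit 26484019917991189) (.br (nat_lit 0) (.cons (.br (nat_lit 3) (.cons (.rel (nat_lit 276840450)) .nil)) .nil)) .leaf) (nat_lit 26489148106384897) (.br (nat_lit 0) (.cons (.br (nat_lit 2) (.cons (.rel (nat_lit 138412608)) .nil)) .nil)) (.node .leaf (nat_lit 26489211994021898) (.br (nat_lit 0) (.cons (.br (nat_lit 2) (.cons (.rel (nat_lit 71305236)) .nil)) .nil)) .leaf))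

/-- refutations 190 -/
def e190 : EX := (.node .leaf (nat_lit 26828364933311246) (.br (nat_lit 0) (.cons (.br (nat_lit 1) (.cons (.rel (nat_lit 20988930)) .nil)) .nil)) .leaf)

/-- refutations 193 -/
def e193 : EX := (.node (.node (.node .leaf (nat_lit 27024269804382210) (.br (nat_lit 0) (.cons (.br (nat_lit 1) (.cons (.rel (nat_lit 21004800)) .nil)) .nil)) .leaf) (nat_lit 27024270542514862) (.br (nat_lit 0) (.cons (.br (nat_lit 1) (.cons (.rel (nat_lit 20976672)) .nil)) .nil)) (.node .leaf (nat_lit 27024270542514976) (.br (nat_lit 1) (.cons (.br (nat_lit 3) (.cons (.rel (nat_lit 285221904)) .nil)) .nil)) .leaf)) (nat_lit 27024270542579714) (.br (nat_lit 0) (.cons (.br (nat_lit 4) (.cons (.rel (nat_lit 1077954624)) .nil)) .nil)) (.node (.node .leaf (nat_lit 27024272065602311) (.br (nat_lit 0) (.cons (.br (nat_lit 1) (.cons (.rel (nat_lit 20973825)) .nil)) .nil)) .leaf) (nat_lit 27024272905181995) (.br (nat_lit 0) (.cons (.br (nat_lit 3) (.cons (.rel (nat_lit 272630880)) .nil)) .nil)) (.node .leaf (nat_lit 27024272907086749)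 (.br (nat_lit 0) (.cons (.br (nat_lit 2) (.cons (.rel (nat_lit 71305236)) .nil)) .nil)) .leaf)))

/-- refutations 195 -/
def e195 : EX := (.node (.node .leaf (nat_lit 27033932913390868) (.br (nat_lit 0) (.cons (.br (nat_lit 1) (.cons (.rel (nat_lit 20976672)) .nil)) .nil)) .leaf) (nat_lit 27033938199881116) (.br (nat_lit 0) (.cons (.br (nat_lit 3) (.cons (.rel (nat_lit 276828192)) .nil)) .nil)) (.node .leaf (nat_lit 27034749100894239) (.br (nat_lit 1) (.cons (.br (nat_lit 3) (.cons (.rel (nat_lit 285283332)) .nil)) .nil)) .leaf))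

/-- refutations 196 -/
def e196 : EX := (.node (.node .leaf (nat_lit 27041873702132393) (.br (nat_lit 0) (.cons (.br (nat_lit 1) (.cons (.rel (nat_lit 20973825)) .nil)) .nil)) .leaf) (nat_lit 27045862080293675) (.br (nat_lit 0) (.cons (.br (nat_lit 3) (.cons (.rel (nat_lit 273678849)) .nil)) .nil)) (.node .leaf (nat_lit 27045862166836002) (.br (nat_lit 1) (.cons (.br (nat_lit 6) (.cons (.rel (nat_lit 17196646548)) .nil)) .nil)) .leaf))

/-- refutations 197 -/
def e197 : EX := (.node (.node .leaf (nat_lit 27051101097339141) (.br (nat_lit 1) (.cons (.br (nat_lit 4) (.cons (.rel (nat_lit 1108410624)) .nil)) .nil)) .leaf) (nat_lit 27052312278117914) (.br (nat_lit 2) (.cons (.br (nat_lit 3) (.cons (.rel (nat_lit 403767552)) .nil)) .nil)) .leaf)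

/-- refutations 198 -/
def e198 : EX := (.node (.node (.node .leaf (nat_lit 27361238362023395) (.br (nat_lit 2) (.cons (.br (nat_lit 3) (.cons (.rel (nat_lit 335550468)) .nil)) .nil)) .leaf) (nat_lit 27362515141714677) (.br (nat_lit 0) (.cons (.br (nat_lit 6) (.cons (.rel (nat_lit 17184080913)) .nil)) .nil)) (.node .leaf (nat_lit 27362515141715482) (.br (nat_lit 0) (.cons (.br (nat_lit 2) (.cons (.rel (nat_lit 71303202)) .nil)) .nil)) .leaf)) (nat_lit 27362521013741082) (.br (nat_lit 3) (.cons (.br (nat_lit 2) (.cons (.rel (nat_lit 335609862)) (.cons (.rel (nat_lit 335548434)) .nil))) .nil)) (.node (.node .leaf (nat_lit 27362521517057562) (.br (nat_lit 0) (.cons (.br (nat_lit 2) (.cons (.rel (nat_lit 71303202)) .nil)) .nil)) .leaf) (nat_lit 27362612748561921) (.br (nat_lit 0) (.cons (.br (nat_lit 5) (.cons (.rel (nat_lit 4299169794)) .nil)) .nil)) .leaf))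

/-- refutations 199 -/
def e199 : EX := (.node (.node (.node .leaf (nat_lit 27363858897497371) (.br (nat_lit 4) (.cons (.br (nat_lit 5) (.cons (.rel (nat_lit 5368714272)) .nil)) .nil)) .leaf) (nat_lit 27363858900247805) (.br (nat_lit 4) (.cons (.br (nat_lit 3) (.cons (.rel (nat_lit 1342308420)) (.cons (.rel (nat_lit 1342308420)) .nil))) .nil)) (.node .leaf (nat_lit 27368820334059530) (.br (nat_lit 0) (.cons (.br (nat_lit 6) (.cons (.rel (nat_lit 17184162048)) .nil)) .nil)) .leaf)) (nat_lit 27368966181060635) (.br (nat_lit 2) (.cons (.br (nat_lit 3) (.cons (.rel (nat_lit 405012480)) .nil)) .nil)) (.node (.node .leaf (nat_lit 27368966182593269) (.br (nat_lit 0) (.cons (.br (nat_lit 2) (.cons (.rel (nat_lit 71327745)) .nil)) .nil)) .leaf) (nat_lit 27368969303154715) (.br (nat_lit 4) (.cons (.br (nat_lit 6) (.cons (.rel (nat_lit 36507222021)) .nil)) .nil)) (.node .leaf (nat_lit 27369249650434108) (.br (nat_lit 2) (.cons (.br (nat_lit 3) (.cons (.rel (nat_lit 335561736)) .nil)) .nil)) .leaf)))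

/-- refutations 200 -/
def e200 : EX := (.node (.node (.node .leaf (nat_lit 26571820438387950) (.br (nat_lit 0) (.cons (.br (nat_lit 1) (.cons (.rel (nat_lit 41948424)) .nil)) .nil)) .leaf) (nat_lit 26571820439532782) (.br (nat_lit 1) (.cons (.br (nat_lit 3) (.cons (.rel (nat_lit 285478977)) .nil)) .nil)) .leaf) (nat_lit 26571820441261294) (.br (nat_lit 0) (.cons (.br (nat_lit 1) (.cons (.rel (nat_lit 22020228)) .nil)) .nil)) (.node (.node .leaf (nat_lit 26576493363949874) (.br (nat_lit 0) (.cons (.br (nat_lit 1) (.cons (.rel (nat_lit 20971800)) (.cons (.rel (nat_lit 37752912)) .nil))) .nil)) .leaf) (nat_lit 26576493365678855) (.br (nat_lit 0) (.cons (.br (nat_lit 1) (.cons (.rel (nat_lit 20973825)) .nil)) .nil)) .leaf))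

/-- list of the parts -/
def L1 : List (ℕ × List ℕ) := [(nat_lit 0x800000000000000000000000000000000000000000000000000000000000000000000000000000000000000000000000000000000000000000000000000000000000000000000000000000000000000000000000000000000000000000000000000000000000, [Nat.sub (Nat.pow 2 886) (Nat.pow 2 0), Nat.sub (Nat.pow 2 3136) (Nat.pow 2 886)]),
  (nat_lit 0x40000000000000000000000000000000000000000000000000000000000000000000000000000000000000000000000000000000000000000000000000000000000000000000000000000000000000000000000, [cP]),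
  (nat_lit 0x8000000000000000000000000000000000000000000000000000000000000000000000000000000000000000000000000000000000000000000000000000000000000000000000000000000000000000000000000000000000000000000000000000000000000000000000000000, [Nat.sub (Nat.pow 2 779) (Nat.pow 2 0), Nat.sub (Nat.pow 2 1560) (Nat.pow 2 779), Nat.sub (Nat.pow 2 3136) (Nat.pow 2 1560)]),
  (nat_lit 0x1000000000000000000000000000000000000000000000000000000000000000000000000000000000000000000000000000000000000000000000000000000000000000000000000000000000000000000000000000000000000000000000000000000000000, [cP]),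
  (nat_lit 0x200000000000000000000000000000000000000000000000000000000000000000000000000000000000000000000000000000000000000000000000000000000000000000000000000000000000000000000000000000000000000000000000000000000000000000000000000000, [Nat.sub (Nat.pow 2 1411) (Nat.pow 2 0), Nat.sub (Nat.pow 2 3136) (Nat.pow 2 1411)]),
  (nat_lit 0x100000000000000000000000000000000000000000000000000000000000000000000000000000000000000000000000000000000000000000000000000000000000000000000000000000000000000000000000000000000000000000000000000000000000000000000000000000, [cP]),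
  (nat_lit 0x2000000000000000000000000000000000000000000000000000000000000000000000000000000000000000000000000000000000000000000000000000000000000000000000000000000000000000000000000000000000000000000000000000000000000000000000000000000, [Nat.sub (Nat.pow 2 784) (Nat.pow 2 0), Nat.sub (Nat.pow 2 3136) (Nat.pow 2 784)]),
  (nat_lit 0x10000000000000000000000000000000000000000000000000000000000000000000000000000000000000000000000000000000000000000000000000000000000000000000000000000000000000000000000000000000000000000000000000000000000000000000000000000000000, [Nat.sub (Nat.pow 2 791) (Nat.pow 2 0), Nat.sub (Nat.pow 2 3136) (Nat.pow 2 791)]),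
  (nat_lit 0x400000000000000000000000000000000000000000000000000000000000000000000000000000000000000000000000000000000000000000000000000000000000000000000000000000000000000000000000000000000000000000000000000000000000000000000000000000, [cP]),
  (nat_lit 0x40000000000000000000000000000000000000000000000000000000000000000000000000000000000000000000000000000000000000000000000000000000000000000000000000000000000000000000000000000000000000000000000000000000000000000000000000000000000, [Nat.sub (Nat.pow 2 936) (Nat.pow 2 0), Nat.sub (Nat.pow 2 3136) (Nat.pow 2 936)]),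
  (nat_lit 0x400000000000000000000000000000000000000000000000000000000000000000000000000000000000000000000000000000000000000000000000000000000000000000000000000000000000000000000000000000000000000000000000000000000000000000000000000000000000, [Nat.sub (Nat.pow 2 780) (Nat.pow 2 0), Nat.sub (Nat.pow 2 3136) (Nat.pow 2 780)]),
  (nat_lit 0x20000000000000000000000000000000000000000000000000000000000000000000000000000000000000000000000000000000000000000000000000000000000000000000000000000000000000000000000000000000000000000000000000000000000000000000000000000000000, [cP]),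
  (nat_lit 0x1000000000000000000000000000000000000000000000000000000000000000000000000000000000000000000000000000000000000000000000000000000000000000000000000000000000000000000000000000000000000000000000000000000000000000000000000000000000000000000, [Nat.sub (Nat.pow 2 815) (Nat.pow 2 0), Nat.sub (Nat.pow 2 1564) (Nat.pow 2 815), Nat.sub (Nat.pow 2 3136) (Nat.pow 2 1564)]),
  (nat_lit 0x8000000000000000000000000000000000000000000000000000000000000000000000000000000000000000000000000000000000000000000000000000000000000000000000000000000000000000000000000000000000000000000000000000000000000000000000000000000000000000000, [Nat.sub (Nat.pow 2 879) (Nat.pow 2 0), Nat.sub (Nat.pow 2 3136) (Nat.pow 2 879)]),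
  (nat_lit 0x10000000000000000000000000000000000000000000000000000000000000000000000000000000000000000000000000000000000000000000000000000000000000000000000000000000000000000000000000000000000000000000000000000000000000000000000000000000000000000000, [Nat.sub (Nat.pow 2 755) (Nat.pow 2 0), Nat.sub (Nat.pow 2 3136) (Nat.pow 2 755)]),
  (nat_lit 0x10000000000000000000000000000000000000000000000000000000000000000000000000000000000000000000000000000000000000000000000000000000000000000000000000000000000000000000000000000000000000000000000000000000000000000000000000000000000000, [cP]),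
  (nat_lit 0x40000000000000000000000000000000000000000000000000000000000000000000000000000000000000000000000000000000000000000000000000000000000000000000000000000000000000000000000000000000000000000000000000000000000000000000000000000000000000000000000000000000000000000000000000000000000000000000000000000000000000000000000000, [Nat.sub (Nat.pow 2 61) (Nat.pow 2 0), Nat.sub (Nat.pow 2 281) (Nat.pow 2 61), Nat.sub (Nat.pow 2 629) (Nat.pow 2 281), Nat.sub (Nat.pow 2 636) (Nat.pow 2 629), Nat.sub (Nat.pow 2 784) (Nat.pow 2 636), Nat.sub (Nat.pow 2 809) (Nat.pow 2 784), Nat.sub (Nat.pow 2 886) (Nat.pow 2 809), Nat.sub (Nat.pow 2 909) (Nat.pow 2 886), Nat.sub (Nat.pow 2 940) (Nat.pow 2 909), Nat.sub (Nat.pow 2 1286) (Nat.pow 2 940), Nat.sub (Nat.pow 2 1386) (Nat.pow 2 1286), Nat.sub (Nat.pow 2 1429) (Nat.pow 2 1386), Nat.sub (Nat.pow 2 1506) (Nat.pow 2 1429), Nat.sub (Nat.pow 2 1534) (Nat.pow 2 1506), Nat.sub (Nat.pow 2 1565) (Nat.pow 2 1534), Nat.sub (Nat.pow 2 3136) (Nat.pow 2 1565)]),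
  (nat_lit 0x2000000000000000000000000000000000000000000000000000000000000000000000000000000000000000000000000000000000000000000000000000000000000000000000000000000000000000000000000000000000000000000000000000000000000000000000000000000000000000000000000000000000000000000000000000000000000000000000000000000000000000000000000000, [Nat.sub (Nat.pow 2 786) (Nat.pow 2 0), Nat.sub (Nat.pow 2 1564) (Nat.pow 2 786), Nat.sub (Nat.pow 2 3136) (Nat.pow 2 1564)]),
  (nat_lit 0x20000000000000000000000000000000000000000000000000000000000000000000000000000000000000000000000000000000000000000000000000000000000000000000000000000000000000000000000000000000000000000000000000000000000000000000000000000000000000000000000000000000000000000000000000000000000000000000000000000000000000000000000000000, [Nat.sub (Nat.pow 2 879) (Nat.pow 2 0), Nat.sub (Nat.pow 2 3136) (Nat.pow 2 879)]),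
  (nat_lit 0x80000000000000000000000000000000000000000000000000000000000000000000000000000000000000000000000000000000000000000000000000000000000000000000000000000000000000000000000000000000000000000000000000000000000000000000000000000000000000000000000000000000000000000000000000000000000000000000000000000000000000000000000000000000, [Nat.sub (Nat.pow 2 290) (Nat.pow 2 0), Nat.sub (Nat.pow 2 1291) (Nat.pow 2 290), Nat.sub (Nat.pow 2 3136) (Nat.pow 2 1291)]),
  (nat_lit 0x2000000000000000000000000000000000000000000000000000000000000000000000000000000000000000000000000000000000000000000000000000000000000000000000000000000000000000000000000000000000000000000000000000000000000000000000000000000000000000000000000000000000000000000000000000000000000000000000000000000000000000000000000000000000, [Nat.sub (Nat.pow 2 815) (Nat.pow 2 0), Nat.sub (Nat.pow 2 1565) (Nat.pow 2 815), Nat.sub (Nat.pow 2 3136) (Nat.pow 2 1565)]),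
  (nat_lit 0x4000000000000000000000000000000000000000000000000000000000000000000000000000000000000000000000000000000000000000000000000000000000000000000000000000000000000000000000000000000000000000000000000000000000000000000000000000000000000000000000000000000000000000000000000000000000000000000000000000000000000000000000000000000000, [Nat.sub (Nat.pow 2 306) (Nat.pow 2 0), Nat.sub (Nat.pow 2 1315) (Nat.pow 2 306), Nat.sub (Nat.pow 2 3136) (Nat.pow 2 1315)]),
  (nat_lit 0x20000000000000000000000000000000000000000000000000000000000000000000000000000000000000000000000000000000000000000000000000000000000000000000000000000000000000000000000000000000000000000000000000000000000000000000000000000000000000000000, [cP]),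
  (nat_lit 0x100000000000000000000000000000000000000000000000000000000000000000000000000000000000000000000000000000000000000000000000000000000000000000000000000000000000000000000000000000000000000000000000000000000000000000000000000000000000000000000000000000000000000000000000000000000000000000000000000000000000000000000000000000000000000, [Nat.sub (Nat.pow 2 635) (Nat.pow 2 0), Nat.sub (Nat.pow 2 915) (Nat.pow 2 635), Nat.sub (Nat.pow 2 1404) (Nat.pow 2 915), Nat.sub (Nat.pow 2 3136) (Nat.pow 2 1404)]),
  (nat_lit 0x80000000000000000000000000000000000000000000000000000000000000000000000000000000000000000000000000000000000000000000000000000000000000000000000000000000000000000000000000000000000000000000000000000000000000000000000000000000000000000000000000000000000000000000000000000000000000000000000000000000000000000000000000000000000000000, [Nat.sub (Nat.pow 2 904) (Nat.pow 2 0), Nat.sub (Nat.pow 2 3136) (Nat.pow 2 904)]),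
  (nat_lit 0x4000080000000000000000000000000000000000000000000000000000000000000000000000000000000000000000000000000000000000000000000000000000000000000000000000000000000000000000000000000000000000000000000000000000000000000000000000000000000000000000000000000000000000000000000000000000000000000000000000000000000000000000000000000000000000, [cP]),
  (nat_lit 0x800000000000000000000000000000000000000000000000000000000000000000000000000000000000000000000000000000000000000000000000000000000000000000000000000000000000000000000000000000000000000000000000000000000000000000000000000000000000000000000000000000000000000000000000000000000000000000000000000000000000000000000000000000000000000000000000000000000, [Nat.sub (Nat.pow 2 779) (Nat.pow 2 0), Nat.sub (Nat.pow 2 1379) (Nat.pow 2 779), Nat.sub (Nat.pow 2 3136) (Nat.pow 2 1379)]),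
  (nat_lit 0x100000000000000000000000000000000000000000000000000000000000000000000000000000000000000000000000000000000000000000000000000000000000000000000000000000000000000000000000000000000000000000000000000000000000000000000000000000000000000000000000000000000000000000000000000000000000000000000000000000000000000000000000000000000000000000, [cP]),
  (nat_lit 0x200000000000000000000000000000000000000000000000000000000000000000000000000000000000000000000000000000000000000000000000000000000000000000000000000000000000000000000000000000000000000000000000000000000000000000000000000000000000000000000000000000000000000000000000000000000000000000000000000000000000000000000000000000000000000000000000000000000000, [Nat.sub (Nat.pow 2 911) (Nat.pow 2 0), Nat.sub (Nat.pow 2 1565) (Nat.pow 2 911), Nat.sub (Nat.pow 2 3136) (Nat.pow 2 1565)]),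
  (nat_lit 0x400000000000000000000000000000000000000000000000000000000000000000000000000000000000000000000000000000000000000000000000000000000000000000000000000000000000000000000000000000000000000000000000000000000000000000000000000000000000000000000000000000000000000000000000000000000000000000000000000000000000000000000000000000000000000000000000000000000000000000, [Nat.sub (Nat.pow 2 879) (Nat.pow 2 0), Nat.sub (Nat.pow 2 3136) (Nat.pow 2 879)]),
  (nat_lit 0x800000000000000000000000000000000000000000000000000000000000000000000000000000000000000000000000000000000000000000000000000000000000000000000000000000000000000000000000000000000000000000000000000000000000000000000000000000000000000000000000000000000000000000000000000000000000000000000000000000000000000000000000000000000000000000000000000000000000000000, [Nat.sub (Nat.pow 2 940) (Nat.pow 2 0), Nat.sub (Nat.pow 2 3136) (Nat.pow 2 940)]),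
  (nat_lit 0x2000000000000000000000000000000000000000000000000000000000000000000000000000000000000000000000000000000000000000000000000000000000000000000000000000000000000000000000000000000000000000000000000000000000000000000000000000000000000000000000000000000000000000000000000000000000000000000000000000000000000000000000000000000000000000000000000000000000000000000000, [Nat.sub (Nat.pow 2 904) (Nat.pow 2 0), Nat.sub (Nat.pow 2 1564) (Nat.pow 2 904), Nat.sub (Nat.pow 2 3136) (Nat.pow 2 1564)]),
  (nat_lit 0x10000000000000000000000000000000000000000000000000000000000000000000000000000000000000000000000000000000000000000000000000000000000000000000000000000000000000000000000000000000000000000000000000000000000000000000000000000000000000000000000000000000000000000000000000000000000000000000000000000000000000000000000000000000000000000000000000000000000, [cP]),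
  (nat_lit 0x40000000000000000000000000000000000000000000000000000000000000000000000000000000000000000000000000000000000000000000000000000000000000000000000000000000000000000000000000000000000000000000000000000000000000000000000000000000000000000000000000000000000000000000000000000000000000000000000000000000000000000000000000000000000000000000000000000000000000000000000, [cP]),
  (nat_lit 0x100000000000000000000000000000000000000000000000000000000000000000000000000000000000000000000000000000000000000000000000000000000000000000000000000000000000000000000000000000000000000000000000000000000000000000000000000000000000000000000000000000000000000000000000000000000000000000000000000000000000000000000000000000000000000000000000000000000000000000000000, [Nat.sub (Nat.pow 2 1279) (Nat.pow 2 0), Nat.sub (Nat.pow 2 3136) (Nat.pow 2 1279)]),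
  (nat_lit 0x10000000000000000000000000000000000000000000000000000000000000000000000000000000000000000000000000000000000000000000000000000000000000000000000000000000000000000000000000000000000000000000000000000000000000000000000000000000000000000000000000000000000000000000000000000000000000000000000000000000000000000000000000000000000000000000000000000000000000000000000000000000000000000, [Nat.sub (Nat.pow 2 1264) (Nat.pow 2 0), Nat.sub (Nat.pow 2 3136) (Nat.pow 2 1264)]),
  (nat_lit 0x200000000000000000000000000000000000000000000000000000000000000000000000000000000000000000000000000000000000000000000000000000000000000000000000000000000000000000000000000000000000000000000000000000000000000000000000000000000000000000000000000000000000000000000000000000000000000000000000000000000000000000000000000000000000000000000000000000000000000000000000000000000000000000, [Nat.sub (Nat.pow 2 886) (Nat.pow 2 0), Nat.sub (Nat.pow 2 3136) (Nat.pow 2 886)]),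
  (nat_lit 0x80000000000000000000000000000000000000000000000000000000000000000000000000000000000000000000000000000000000000000000000000000000000000000000000000000000000000000000000000000000000000000000000000000000000000000000000000000000000000000000000000000000000000000000000000000000000000000000000000000000000000000000000000000000000000000000000000000000000000000000000, [cP]),
  (nat_lit 0x20000000000000000000000000000000000000000000000000000000000000000000000000000000000000000000000000000000000000000000000000000000000000000000000000000000000000000000000000000000000000000000000000000000000000000000000000000000000000000000000000000000000000000000000000000000000000000000000000000000000000000000000000000000000000000000000000000000000000000000000000000000000000000000000, [Nat.sub (Nat.pow 2 935) (Nat.pow 2 0), Nat.sub (Nat.pow 2 1565) (Nat.pow 2 935), Nat.sub (Nat.pow 2 3136) (Nat.pow 2 1565)]),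
  (nat_lit 0x10000000000000000000000000000000000000000000000000000000000000000000000000000000000000000000000000000000000000000000000000000000000000000000000000000000000000000000000000000000000000000000000000000000000000000000000000000000000000000000000000000000000000000000000000000000000000000000000000000000000000000000000000000000000000000000000000000000000000000000000000000000000000000000000000, [Nat.sub (Nat.pow 2 654) (Nat.pow 2 0), Nat.sub (Nat.pow 2 1390) (Nat.pow 2 654), Nat.sub (Nat.pow 2 3136) (Nat.pow 2 1390)]),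
  (nat_lit 0x20000000000000000000000000000000000000000000000000000000000000000000000000000000000000000000000000000000000000000000000000000000000000000000000000000000000000000000000000000000000000000000000000000000000000000000000000000000000000000000000000000000000000000000000000000000000000000000000000000000000000000000000000000000000000000000000000000000000000000000000000000000000000000000000000, [Nat.sub (Nat.pow 2 936) (Nat.pow 2 0), Nat.sub (Nat.pow 2 3136) (Nat.pow 2 936)]),
  (nat_lit 0x800000000000000000000000000000000000000000000000000000000000000000000000000000000000000000000000000000000000000000000000000000000000000000000000000000000000000000000000000000000000000000000000000000000000000000000000000000000000000000000000000000000000000000000000000000000000000000000000000000000000000000000000000000000000000000000000000000000000000000000000000000000000000000000000000000, [Nat.sub (Nat.pow 2 880) (Nat.pow 2 0), Nat.sub (Nat.pow 2 3136) (Nat.pow 2 880)]),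
  (nat_lit 0x4000000000000000000000000000000000000000000000000000000000000000000000000000000000000000000000000000000000000000000000000000000000000000000000000000000000000000000000000000000000000000000000000000000000000000000000000000000000000000000000000000000000000000000000000000000000000000000000000000000000000000000000000000000000000000000000000000000000000000000000000000000000000000000, [cP])]

theorem hp1 : ∀ p ∈ L1, ∀ D2 ∈ p.2, ∃ e,
    search ext94 (Pool.Agent.H74.EGZ.vio sb) G Uc A0 p.1 D2 e = true :=
  (List.forall_mem_cons.2 ⟨(List.forall_mem_cons.2 ⟨⟨e101, by decide +kernel⟩,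
  (List.forall_mem_singleton.2 ⟨e102, by decide +kernel⟩)⟩),
  (List.forall_mem_cons.2 ⟨(List.forall_mem_singleton.2 ⟨.leaf, by decide +kernel⟩),
  (List.forall_mem_cons.2 ⟨(List.forall_mem_cons.2 ⟨⟨.leaf, by decide +kernel⟩,
  (List.forall_mem_cons.2 ⟨⟨.leaf, by decide +kernel⟩,
  (List.forall_mem_singleton.2 ⟨.leaf, by decide +kernel⟩)⟩)⟩),
  (List.forall_mem_cons.2 ⟨(List.forall_mem_singleton.2 ⟨e107, by decide +kernel⟩),
  (List.forall_mem_cons.2 ⟨(List.forall_mem_cons.2 ⟨⟨.leaf, by decide +kernel⟩,
  (List.forall_mem_singleton.2 ⟨e109, by decide +kernel⟩)⟩),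
  (List.forall_mem_cons.2 ⟨(List.forall_mem_singleton.2 ⟨.leaf, by decide +kernel⟩),
  (List.forall_mem_cons.2 ⟨(List.forall_mem_cons.2 ⟨⟨e111, by decide +kernel⟩,
  (List.forall_mem_singleton.2 ⟨.leaf, by decide +kernel⟩)⟩),
  (List.forall_mem_cons.2 ⟨(List.forall_mem_cons.2 ⟨⟨e113, by decide +kernel⟩,
  (List.forall_mem_singleton.2 ⟨e114, by decide +kernel⟩)⟩),
  (List.forall_mem_cons.2 ⟨(List.forall_mem_singleton.2 ⟨e115, by decide +kernel⟩),
  (List.forall_mem_cons.2 ⟨(List.forall_mem_cons.2 ⟨⟨e116, by decide +kernel⟩,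
  (List.forall_mem_singleton.2 ⟨e117, by decide +kernel⟩)⟩),
  (List.forall_mem_cons.2 ⟨(List.forall_mem_cons.2 ⟨⟨e118, by decide +kernel⟩,
  (List.forall_mem_singleton.2 ⟨e119, by decide +kernel⟩)⟩),
  (List.forall_mem_cons.2 ⟨(List.forall_mem_singleton.2 ⟨e120, by decide +kernel⟩),
  (List.forall_mem_cons.2 ⟨(List.forall_mem_cons.2 ⟨⟨e121, by decide +kernel⟩,
  (List.forall_mem_cons.2 ⟨⟨e122, by decide +kernel⟩,
  (List.forall_mem_singleton.2 ⟨.leaf, by decide +kernel⟩)⟩)⟩),
  (List.forall_mem_cons.2 ⟨(List.forall_mem_cons.2 ⟨⟨e124, by decide +kernel⟩,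
  (List.forall_mem_singleton.2 ⟨e125, by decide +kernel⟩)⟩),
  (List.forall_mem_cons.2 ⟨(List.forall_mem_cons.2 ⟨⟨.leaf, by decide +kernel⟩,
  (List.forall_mem_singleton.2 ⟨.leaf, by decide +kernel⟩)⟩),
  (List.forall_mem_cons.2 ⟨(List.forall_mem_singleton.2 ⟨.leaf, by decide +kernel⟩),
  (List.forall_mem_cons.2 ⟨(List.forall_mem_cons.2 ⟨⟨e129, by decide +kernel⟩,
  (List.forall_mem_cons.2 ⟨⟨e130, by decide +kernel⟩,
  (List.forall_mem_cons.2 ⟨⟨e131, by decide +kernel⟩,
  (List.forall_mem_cons.2 ⟨⟨e132, by decide +kernel⟩,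
  (List.forall_mem_cons.2 ⟨⟨e133, by decide +kernel⟩,
  (List.forall_mem_cons.2 ⟨⟨e134, by decide +kernel⟩,
  (List.forall_mem_cons.2 ⟨⟨.leaf, by decide +kernel⟩,
  (List.forall_mem_cons.2 ⟨⟨e136, by decide +kernel⟩,
  (List.forall_mem_cons.2 ⟨⟨e137, by decide +kernel⟩,
  (List.forall_mem_cons.2 ⟨⟨e138, by decide +kernel⟩,
  (List.forall_mem_cons.2 ⟨⟨e139, by decide +kernel⟩,
  (List.forall_mem_cons.2 ⟨⟨e140, by decide +kernel⟩,
  (List.forall_mem_cons.2 ⟨⟨e141, by decide +kernel⟩,
  (List.forall_mem_cons.2 ⟨⟨e142, by decide +kernel⟩,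
  (List.forall_mem_cons.2 ⟨⟨e143, by decide +kernel⟩,
  (List.forall_mem_singleton.2 ⟨e144, by decide +kernel⟩)⟩)⟩)⟩)⟩)⟩)⟩)⟩)⟩)⟩)⟩)⟩)⟩)⟩)⟩)⟩),
  (List.forall_mem_cons.2 ⟨(List.forall_mem_cons.2 ⟨⟨.leaf, by decide +kernel⟩,
  (List.forall_mem_cons.2 ⟨⟨.leaf, by decide +kernel⟩,
  (List.forall_mem_singleton.2 ⟨.leaf, by decide +kernel⟩)⟩)⟩),
  (List.forall_mem_cons.2 ⟨(List.forall_mem_cons.2 ⟨⟨e148, by decide +kernel⟩,
  (List.forall_mem_singleton.2 ⟨e149, by decide +kernel⟩)⟩),
  (List.forall_mem_cons.2 ⟨(List.forall_mem_cons.2 ⟨⟨e150, by decide +kernel⟩,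
  (List.forall_mem_cons.2 ⟨⟨e151, by decide +kernel⟩,
  (List.forall_mem_singleton.2 ⟨e152, by decide +kernel⟩)⟩)⟩),
  (List.forall_mem_cons.2 ⟨(List.forall_mem_cons.2 ⟨⟨e153, by decide +kernel⟩,
  (List.forall_mem_cons.2 ⟨⟨e154, by decide +kernel⟩,
  (List.forall_mem_singleton.2 ⟨.leaf, by decide +kernel⟩)⟩)⟩),
  (List.forall_mem_cons.2 ⟨(List.forall_mem_cons.2 ⟨⟨e156, by decide +kernel⟩,
  (List.forall_mem_cons.2 ⟨⟨e157, by decide +kernel⟩,
  (List.forall_mem_singleton.2 ⟨e158, by decide +kernel⟩)⟩)⟩),
  (List.forall_mem_cons.2 ⟨(List.forall_mem_singleton.2 ⟨.leaf, by decide +kernel⟩),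
  (List.forall_mem_cons.2 ⟨(List.forall_mem_cons.2 ⟨⟨e160, by decide +kernel⟩,
  (List.forall_mem_cons.2 ⟨⟨e161, by decide +kernel⟩,
  (List.forall_mem_cons.2 ⟨⟨e162, by decide +kernel⟩,
  (List.forall_mem_singleton.2 ⟨e163, by decide +kernel⟩)⟩)⟩)⟩),
  (List.forall_mem_cons.2 ⟨(List.forall_mem_cons.2 ⟨⟨e164, by decide +kernel⟩,
  (List.forall_mem_singleton.2 ⟨e165, by decide +kernel⟩)⟩),
  (List.forall_mem_cons.2 ⟨(List.forall_mem_singleton.2 ⟨.leaf, by decide +kernel⟩),
  (List.forall_mem_cons.2 ⟨(List.forall_mem_cons.2 ⟨⟨e167, by decide +kernel⟩,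
  (List.forall_mem_cons.2 ⟨⟨e168, by decide +kernel⟩,
  (List.forall_mem_singleton.2 ⟨e169, by decide +kernel⟩)⟩)⟩),
  (List.forall_mem_cons.2 ⟨(List.forall_mem_singleton.2 ⟨e170, by decide +kernel⟩),
  (List.forall_mem_cons.2 ⟨(List.forall_mem_cons.2 ⟨⟨.leaf, by decide +kernel⟩,
  (List.forall_mem_cons.2 ⟨⟨e172, by decide +kernel⟩,
  (List.forall_mem_singleton.2 ⟨.leaf, by decide +kernel⟩)⟩)⟩),
  (List.forall_mem_cons.2 ⟨(List.forall_mem_cons.2 ⟨⟨e174, by decide +kernel⟩,
  (List.forall_mem_singleton.2 ⟨e175, by decide +kernel⟩)⟩),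
  (List.forall_mem_cons.2 ⟨(List.forall_mem_cons.2 ⟨⟨e176, by decide +kernel⟩,
  (List.forall_mem_singleton.2 ⟨e177, by decide +kernel⟩)⟩),
  (List.forall_mem_cons.2 ⟨(List.forall_mem_cons.2 ⟨⟨.leaf, by decide +kernel⟩,
  (List.forall_mem_cons.2 ⟨⟨e179, by decide +kernel⟩,
  (List.forall_mem_singleton.2 ⟨.leaf, by decide +kernel⟩)⟩)⟩),
  (List.forall_mem_cons.2 ⟨(List.forall_mem_singleton.2 ⟨e181, by decide +kernel⟩),
  (List.forall_mem_cons.2 ⟨(List.forall_mem_singleton.2 ⟨e182, by decide +kernel⟩),
  (List.forall_mem_cons.2 ⟨(List.forall_mem_cons.2 ⟨⟨e183, by decide +kernel⟩,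
  (List.forall_mem_singleton.2 ⟨e184, by decide +kernel⟩)⟩),
  (List.forall_mem_cons.2 ⟨(List.forall_mem_cons.2 ⟨⟨.leaf, by decide +kernel⟩,
  (List.forall_mem_singleton.2 ⟨.leaf, by decide +kernel⟩)⟩),
  (List.forall_mem_cons.2 ⟨(List.forall_mem_cons.2 ⟨⟨e187, by decide +kernel⟩,
  (List.forall_mem_singleton.2 ⟨e188, by decide +kernel⟩)⟩),
  (List.forall_mem_cons.2 ⟨(List.forall_mem_singleton.2 ⟨.leaf, by decide +kernel⟩),
  (List.forall_mem_cons.2 ⟨(List.forall_mem_cons.2 ⟨⟨e190, by decide +kernel⟩,
  (List.forall_mem_cons.2 ⟨⟨.leaf, by decide +kernel⟩,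
  (List.forall_mem_singleton.2 ⟨.leaf, by decide +kernel⟩)⟩)⟩),
  (List.forall_mem_cons.2 ⟨(List.forall_mem_cons.2 ⟨⟨e193, by decide +kernel⟩,
  (List.forall_mem_cons.2 ⟨⟨.leaf, by decide +kernel⟩,
  (List.forall_mem_singleton.2 ⟨e195, by decide +kernel⟩)⟩)⟩),
  (List.forall_mem_cons.2 ⟨(List.forall_mem_cons.2 ⟨⟨e196, by decide +kernel⟩,
  (List.forall_mem_singleton.2 ⟨e197, by decide +kernel⟩)⟩),
  (List.forall_mem_cons.2 ⟨(List.forall_mem_cons.2 ⟨⟨e198, by decide +kernel⟩,
  (List.forall_mem_singleton.2 ⟨e199, by decide +kernel⟩)⟩),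
  (List.forall_mem_singleton.2 (List.forall_mem_singleton.2 ⟨e200, by decide +kernel⟩))⟩)⟩)⟩)⟩)⟩)⟩)⟩)⟩)⟩)⟩)⟩)⟩)⟩)⟩)⟩)⟩)⟩)⟩)⟩)⟩)⟩)⟩)⟩)⟩)⟩)⟩)⟩)⟩)⟩)⟩)⟩)⟩)⟩)⟩)⟩)⟩)⟩)⟩)⟩)⟩)⟩)⟩)

end

end Pool.Agent.H21.EGZ.S5
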