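import Pool.Agent.H21.EGZ.D6

/-!
# Stage 6 : search, part 0
-/

set_option autoImplicit false
set_option maxRecDepth 100000

namespace Pool.Agent.H21.EGZ.S6

noncomputable section

open Pool.Agent.H74.EGZ Pool.Agent.H94.Lift

/-- refutations 3 -/
def e3 : EX := (.node .leaf (nat_lit 107937815552287) (.br (nat_lit 0) (.cons (.br (nat_lit 4) (.cons (.rel (nat_lit 1078480896)) .nil)) .nil)) .leaf)

/-- refutations 4 -/
def e4 : EX := (.node (.node .leaf (nat_lit 194593063127175) (.br (nat_lit 0) (.cons (.br (nat_lit 3) (.cons (.rel (nat_lit 273686592)) .nil)) .nil)) .leaf) (nat_lit 194867941034136) (.br (nat_lit 0) (.cons (.br (nat_lit 1) (.cons (.rel (nat_lit 20972112)) .nil)) .nil)) (.node .leaf (nat_lit 195727473496316) (.br (nat_lit 0) (.cons (.br (nat_lit 1) (.cons (.rel (nat_lit 20972112)) .nil)) .nil)) .leaf))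

/-- refutations 5 -/
def e5 : EX := (.node (.node (.node .leaf (nat_lit 440019420458520) (.br (nat_lit 0) (.cons (.br (nat_lit 4) (.cons (.rel (nat_lit 1078985793)) .nil)) .nil)) .leaf) (nat_lit 440023203811363) (.br (nat_lit 0) (.cons (.br (nat_lit 1) (.cons (.rel (nat_lit 22085760)) .nil)) .nil)) (.node .leaf (nat_lit 440023205363195) (.br (nat_lit 0) (.cons (.br (nat_lit 2) (.cons (.rel (nat_lit 142606596)) .nil)) .nil)) .leaf)) (nat_lit 440025403085585) (.br (nat_lit 0) (.cons (.br (nat_lit 1) (.cons (.rel (nat_lit 21561360)) .nil)) .nil)) (.node (.node .leaf (nat_lit 440025826711066) (.br (nat_lit 0) (.cons (.br (nat_lit 2) (.cons (.rel (nat_lit 75498501)) .nil)) .nil)) .leaf) (nat_lit 440025828287274) (.br (nat_lit 0) (.cons (.br (nat_lit 4) (.cons (.rel (nat_lit 2151679056)) .nil)) .nil)) (.node .leaf (nat_lit 440085957829418) (.br (nat_lit 0) (.cons (.br (nat_lit 1) (.cons (.rel (nat_lit 20972112)) .nil)) .nil)) .leaf)))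

/-- refutations 6 -/
def e6 : EX := (.node (.node (.node .leaf (nat_lit 440883667748999) (.br (nat_lit 0) (.cons (.br (nat_lit 1) (.cons (.rel (nat_lit 25231368)) .nil)) .nil)) .leaf) (nat_lit 440944336294015) (.br (nat_lit 0) (.cons (.br (nat_lit 1) (.cons (.rel (nat_lit 21499908)) .nil)) .nil)) .leaf) (nat_lit 441099045863584) (.br (nat_lit 0) (.cons (.br (nat_lit 1) (.cons (.rel (nat_lit 22022148)) .nil)) .nil)) (.node .leaf (nat_lit 441159699652760) (.br (nat_lit 1) (.cons (.br (nat_lit 2) (.cons (.rel (nat_lit 167789904)) .nil)) .nil)) .leaf))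

/-- refutations 7 -/
def e7 : EX := (.node (.node .leaf (nat_lit 441179295244443) (.br (nat_lit 0) (.cons (.br (nat_lit 1) (.cons (.rel (nat_lit 21499908)) .nil)) .nil)) .leaf) (nat_lit 441995336601850) (.br (nat_lit 0) (.cons (.br (nat_lit 2) (.cons (.rel (nat_lit 142606596)) .nil)) .nil)) (.node .leaf (nat_lit 442264653951632) (.br (nat_lit 0) (.cons (.br (nat_lit 1) (.cons (.rel (nat_lit 22085760)) .nil)) .nil)) .leaf))

/-- refutations 8 -/
def e8 : EX := (.node (.node (.node .leaf (nat_lit 445389157684760) (.br (nat_lit 0) (.cons (.br (nat_lit 1) (.cons (.rel (nat_lit 37749888)) .nil)) .nil)) .leaf) (nat_lit 446255909034791) (.br (nat_lit 0) (.cons (.br (nat_lit 1) (.cons (.rel (nat_lit 20972112)) .nil)) .nil)) (.node .leaf (nat_lit 446255909094137) (.br (nat_lit 0) (.cons (.br (nat_lit 1) (.cons (.rel (nat_lit 20977152)) .nil)) .nil)) .leaf)) (nat_lit 446256239104060) (.br (nat_lit 1) (.cons (.br (nat_lit 2) (.cons (.rel (nat_lit 151000068)) .nil)) .nil)) (.node (.node .leaf (nat_lit 446260979393314) (.br (nat_lit 0) (.cons (.br (nat_lit 2) (.cons (.rel (nat_lit 71829504))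 .nil)) .nil)) .leaf) (nat_lit 446261461738274) (.br (nat_lit 1) (.cons (.br (nat_lit 2) (.cons (.rel (nat_lit 100728897)) .nil)) .nil)) .leaf))

/-- refutations 9 -/
def e9 : EX := (.node (.node .leaf (nat_lit 446524752909848) (.br (nat_lit 1) (.cons (.br (nat_lit 2) (.cons (.rel (nat_lit 84942912)) .nil)) .nil)) .leaf) (nat_lit 446527853546249) (.br (nat_lit 0) (.cons (.br (nat_lit 2) (.cons (.rel (nat_lit 72355920)) .nil)) .nil)) (.node .leaf (nat_lit 446527853630217) (.br (nat_lit 1) (.cons (.br (nat_lit 2) (.cons (.rel (nat_lit 167854338)) .nil)) .nil)) .leaf))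

/-- refutations 10 -/
def e10 : EX := (.node .leaf (nat_lit 447602150041855) (.br (nat_lit 0) (.cons (.br (nat_lit 1) (.cons (.rel (nat_lit 21250305)) .nil)) .nil)) .leaf)

/-- refutations 11 -/
def e11 : EX := (.node (.node .leaf (nat_lit 451894496454010) (.br (nat_lit 0) (.cons (.br (nat_lit 1) (.cons (.rel (nat_lit 20972112)) .nil)) .nil)) .leaf) (nat_lit 452132306488726) (.br (nat_lit 1) (.cons (.br (nat_lit 6) (.cons (.rel (nat_lit 34393554948)) .nil)) .nil)) .leaf)

/-- refutations 12 -/
def e12 : EX := (.node (.node (.node .leaf (nat_lit 452786904649788) (.br (nat_lit 1) (.cons (.br (nat_lit 2) (.cons (.rel (nat_lit 100728897)) .nil)) .nil)) .leaf) (nat_lit 452965106519543) (.br (nat_lit 0) (.cons (.br (nat_lit 4) (.cons (.rel (nat_lit 2151679056)) .nil)) .nil)) .leaf) (nat_lit 452967712454168) (.br (nat_lit 1) (.cons (.br (nat_lit 0) (.cons (.rel (nat_lit 20977152)) (.cons (.rel (nat_lit 20972112)) .nil))) .nil)) (.node .leaf (nat_lit 453122300827131) (.br (nat_lit 1) (.cons (.br (nat_lit 2) (.cons (.rel (nat_lit 83952132)) .nil)) .nil)) .leaf))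

/-- refutations 13 -/
def e13 : EX := (.node (.node .leaf (nat_lit 217827237153545) (.br (nat_lit 0) (.cons (.br (nat_lit 3) (.cons (.rel (nat_lit 273155136)) .nil)) .nil)) .leaf) (nat_lit 217827238770146) (.br (nat_lit 0) (.cons (.br (nat_lit 1) (.cons (.rel (nat_lit 21499908)) .nil)) .nil)) .leaf)

/-- refutations 14 -/
def e14 : EX := (.node (.node .leaf (nat_lit 563224852311568) (.br (nat_lit 2) (.cons (.br (nat_lit 3) (.cons (.rel (nat_lit 402718728)) .nil)) .nil)) .leaf) (nat_lit 563225509789723) (.br (nat_lit 0) (.cons (.br (nat_lit 4) (.cons (.rel (nat_lit 1082139648)) .nil)) .nil)) (.node .leaf (nat_lit 563231260140276) (.br (nat_lit 3) (.cons (.br (nat_lit 4) (.cons (.rel (nat_lit 2684616720)) .nil)) .nil)) .leaf))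

/-- refutations 15 -/
def e15 : EX := (.node .leaf (nat_lit 576315912629749) (.br (nat_lit 3) (.cons (.br (nat_lit 5) (.cons (.rel (nat_lit 4564471809)) .nil)) .nil)) .leaf)

/-- refutations 16 -/
def e16 : EX := (.node .leaf (nat_lit 488307352190488) (.br (nat_lit 0) (.cons (.br (nat_lit 2) (.cons (.rel (nat_lit 71566596)) .nil)) .nil)) .leaf)

/-- refutations 17 -/
def e17 : EX := (.node .leaf (nat_lit 890776997713182) (.br (nat_lit 0) (.cons (.br (nat_lit 1) (.cons (.rel (nat_lit 37879812)) .nil)) .nil)) .leaf)

/-- refutations 19 -/
def e19 : EX := (.node (.node .leaf (nat_lit 985646715390003) (.br (nat_lit 0) (.cons (.br (nat_lit 2) (.cons (.rel (nat_lit 72482817)) .nil)) .nil)) .leaf) (nat_lit 985646716465203) (.br (nat_lit 0) (.cons (.br (nat_lit 2) (.cons (.rel (nat_lit 71565585)) .nil)) .nil)) (.node .leaf (nat_lit 991879982335504) (.br (nat_lit 1) (.cons (.br (nat_lit 2) (.cons (.rel (nat_lit 85082112)) .nil)) .nil)) .leaf))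

/-- refutations 20 -/
def e20 : EX := (.node .leaf (nat_lit 2223067531563769) (.br (nat_lit 1) (.cons (.br (nat_lit 2) (.cons (.rel (nat_lit 150999057)) .nil)) .nil)) .leaf)

/-- refutations 22 -/
def e22 : EX := (.node (.node .leaf (nat_lit 2762194386149657) (.br (nat_lit 0) (.cons (.br (nat_lit 1) (.cons (.rel (nat_lit 25167936)) .nil)) .nil)) .leaf) (nat_lit 2762405547827260) (.br (nat_lit 0) (.cons (.br (nat_lit 1) (.cons (.rel (nat_lit 21561360)) .nil)) .nil)) .leaf)

/-- refutations 23 -/
def e23 : EX := (.node .leaf (nat_lit 2774062019892602) (.br (nat_lit 0) (.cons (.br (nat_lit 2) (.cons (.rel (nat_lit 142869504)) .nil)) .nil)) .leaf)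

/-- refutations 28 -/
def e28 : EX := (.node .leaf (nat_lit 3272640156913716) (.br (nat_lit 0) (.cons (.br (nat_lit 1) (.cons (.rel (nat_lit 22085760)) .nil)) .nil)) .leaf)

/-- refutations 30 -/
def e30 : EX := (.node (.node .leaf (nat_lit 4487339450554404) (.br (nat_lit 1) (.cons (.br (nat_lit 3) (.cons (.rel (nat_lit 570491136)) .nil)) .nil)) .leaf) (nat_lit 4488199177513096) (.br (nat_lit 1) (.cons (.br (nat_lit 2) (.cons (.rel (nat_lit 84934665)) .nil)) .nil)) (.node .leaf (nat_lit 4488200717326586) (.br (nat_lit 0) (.cons (.br (nat_lit 1) (.cons (.br (nat_lit 3) (.cons (.rel (nat_lit 273155136)) (.cons (.rel (nat_lit 285540672)) .nil))) .nil)) .nil)) .leaf))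

/-- refutations 34 -/
def e34 : EX := (.node .leaf (nat_lit 5032720257245336) (.br (nat_lit 0) (.cons (.br (nat_lit 1) (.cons (.rel (nat_lit 21561360)) .nil)) .nil)) .leaf)

/-- refutations 35 -/
def e35 : EX := (.node (.node .leaf (nat_lit 5033824702709812) (.br (nat_lit 0) (.cons (.br (nat_lit 1) (.cons (.rel (nat_lit 37781505)) .nil)) .nil)) .leaf) (nat_lit 5033827850842393) (.br (nat_lit 1) (.cons (.br (nat_lit 2) (.cons (.rel (nat_lit 85082112)) .nil)) .nil)) .leaf)

/-- refutations 37 -/
def e37 : EX := (.node .leaf (nat_lit 3255036608551042) (.br (nat_lit 1) (.cons (.br (nat_lit 5) (.cons (.rel (nat_lit 8623489281)) .nil)) .nil)) .leaf)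

/-- refutations 39 -/
def e39 : EX := (.node .leaf (nat_lit 5473844086475554) (.br (nat_lit 0) (.cons (.br (nat_lit 1) (.cons (.rel (nat_lit 20977152)) .nil)) .nil)) .leaf)

/-- refutations 40 -/
def e40 : EX := (.node .leaf (nat_lit 5479210715433891) (.br (nat_lit 0) (.cons (.br (nat_lit 1) (.cons (.rel (nat_lit 20977152)) .nil)) .nil)) .leaf)

/-- refutations 44 -/
def e44 : EX := (.node .leaf (nat_lit 11435136726324075) (.br (nat_lit 2) (.cons (.br (nat_lit 0) (.cons (.rel (nat_lit 138413076)) (.cons (.rel (nat_lit 71829504)) .nil))) .nil)) .leaf)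

/-- refutations 45 -/
def e45 : EX := (.node (.node (.node (.node .leaf (nat_lit 11440504539205913) (.br (nat_lit 0) (.cons (.br (nat_lit 1) (.cons (.rel (nat_lit 37756944)) .nil)) .nil)) .leaf) (nat_lit 11440510206990996) (.br (nat_lit 0) (.cons (.br (nat_lit 1) (.cons (.rel (nat_lit 25167936)) .nil)) .nil)) .leaf) (nat_lit 11440510261013140) (.br (nat_lit 0) (.cons (.br (nat_lit 1) (.cons (.rel (nat_lit 37756944)) (.cons (.rel (nat_lit 25169952)) .nil))) .nil)) (.node (.node .leaf (nat_lit 11440510261253002) (.br (nat_lit 0) (.cons (.br (nat_lit 3) (.cons (.rel (nat_lit 276841476)) .nil)) .nil)) .leaf) (nat_lit 11440510261517194) (.br (nat_lit 0) (.cons (.br (nat_lit 1) (.cons (.rel (nat_lit 37756944)) .nil)) .nil)) .leaf)) (nat_lit 11440510815165076) (.br (nat_lit 0) (.cons (.br (nat_lit 1) (.cons (.rel (nat_lit 25167936)) .nil)) .nil)) (.node (.node (.node .leaf (nat_lit 11441644132619017) (.br (nat_lit 0) (.cons (.br (nat_lit 4) (.cons (.rel (nat_lit 2155872576)) .nil)) .nil)) .leaf) (nat_lit 11441644132946552) (.br (nat_lit 0) (.cons (.br (nat_lit 1) (.cons (.rel (nat_lit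 25169952)) .nil)) .nil)) .leaf) (nat_lit 11441644686267145) (.br (nat_lit 1) (.cons (.br (nat_lit 6) (.cons (.rel (nat_lit 34376585220)) .nil)) .nil)) (.node .leaf (nat_lit 11441644686533385) (.br (nat_lit 0) (.cons (.br (nat_lit 1) (.cons (.rel (nat_lit 25169952)) .nil)) .nil)) .leaf)))

/-- refutations 46 -/
def e46 : EX := (.node (.node .leaf (nat_lit 11442866769876229) (.br (nat_lit 0) (.cons (.br (nat_lit 1) (.cons (.rel (nat_lit 22040640)) .nil)) .nil)) .leaf) (nat_lit 11447248788440470) (.br (nat_lit 0) (.cons (.br (nat_lit 2) (.cons (.rel (nat_lit 72482817)) .nil)) .nil)) .leaf)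

/-- refutations 52 -/
def e52 : EX := (.node .leaf (nat_lit 12057099530392313) (.br (nat_lit 1) (.cons (.br (nat_lit 4) (.cons (.rel (nat_lit 1107296352)) .nil)) .nil)) .leaf)

/-- refutations 53 -/
def e53 : EX := (.node .leaf (nat_lit 13200582226467722) (.br (nat_lit 0) (.cons (.br (nat_lit 1) (.cons (.rel (nat_lit 21499908)) .nil)) .nil)) .leaf)

/-- refutations 54 -/
def e54 : EX := (.node (.node .leaf (nat_lit 13211947014900369) (.br (nat_lit 0) (.cons (.br (nat_lit 1) (.cons (.rel (nat_lit 20977152)) .nil)) .nil)) .leaf) (nat_lit 13211958318222812) (.br (nat_lit 0) (.cons (.br (nat_lit 1) (.cons (.rel (nat_lit 37781505)) .nil)) .nil)) .leaf)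

/-- refutations 57 -/
def e57 : EX := (.node (.node (.node .leaf (nat_lit 13634222866587127) (.br (nat_lit 4) (.cons (.br (nat_lit 6) (.cons (.rel (nat_lit 19327354884)) .nil)) .nil)) .leaf) (nat_lit 13634257243101215) (.br (nat_lit 0) (.cons (.br (nat_lit 3) (.cons (.rel (nat_lit 272695812)) .nil)) .nil)) .leaf) (nat_lit 13634257244638715) (.br (nat_lit 0) (.cons (.br (nat_lit 1) (.cons (.rel (nat_lit 20977152)) .nil)) .nil)) (.node .leaf (nat_lit 13634377560905788) (.br (nat_lit 1) (.cons (.br (nat_lit 3) (.cons (.rel (nat_lit 286266384)) .nil)) .nil)) .leaf))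

/-- refutations 59 -/
def e59 : EX := (.node (.node (.node .leaf (nat_lit 13646236617242103) (.br (nat_lit 0) (.cons (.br (nat_lit 1) (.cons (.rel (nat_lit 25182210)) .nil)) .nil)) .leaf) (nat_lit 13647104622746377) (.br (nat_lit 1) (.cons (.br (nat_lit 6) (.cons (.rel (nat_lit 17213427732)) .nil)) .nil)) .leaf) (nat_lit 13647104622747127) (.br (nat_lit 1) (.cons (.br (nat_lit 3) (.cons (.br (nat_lit 4) (.cons (.rel (nat_lit 2684616720)) .nil)) .nil)) .nil)) (.node (.node .leaf (nat_lit 13647104624259857) (.br (nat_lit 0) (.cons (.br (nat_lit 1) (.cons (.rel (nat_lit 20977152)) .nil)) .nil)) .leaf) (nat_lit 13647104625917983) (.br (nat_lit 1) (.cons (.br (nat_lit 2) (.cons (.rel (nat_lit 85082112)) .nil)) .nil)) .leaf))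

/-- refutations 61 -/
def e61 : EX := (.node (.node (.node .leaf (nat_lit 13757304389230873) (.br (nat_lit 0) (.cons (.br (nat_lit 2) (.cons (.rel (nat_lit 71303688)) .nil)) .nil)) .leaf) (nat_lit 13757310661283875) (.br (nat_lit 1) (.cons (.br (nat_lit 2) (.cons (.rel (nat_lit 84935712)) .nil)) .nil)) (.node .leaf (nat_lit 13757310663909428) (.br (nat_lit 3) (.cons (.br (nat_lit 4) (.cons (.rel (nat_lit 2684616720)) .nil)) .nil)) .leaf)) (nat_lit 13757310663910186) (.br (nat_lit 0) (.cons (.br (nat_lit 1) (.cons (.rel (nat_lit 22282752)) .nil)) .nil)) (.node (.node .leaf (nat_lit 13757402546949627) (.br (nat_lit 1) (.cons (.br (nat_lit 4) (.cons (.rel (nat_lit 1090521600)) .nil)) .nil)) .leaf) (nat_lit 13757522894095892) (.br (nat_lit 0) (.cons (.br (nat_lit 1) (.cons (.rel (nat_lit 22021137)) .nil)) .nil)) (.node .leaf (nat_lit 13757522895689788) (.br (nat_lit 5) (.cons (.br (nat_lit 0) (.cons (.rel (nat_lit 4299493632)) (.cons (.rel (nat_lit 4299690048)) .nil))) .nil)) .leaf)))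

/-- refutations 62 -/
def e62 : EX := (.node (.node (.node (.node .leaf (nat_lit 13757585539315764) (.br (nat_lit 0) (.cons (.br (nat_lit 1) (.cons (.rel (nat_lit 37879812)) .nil)) .nil)) .leaf) (nat_lit 13757585541816372) (.br (nat_lit 1) (.cons (.br (nat_lit 3) (.cons (.rel (nat_lit 301990917)) .nil)) .nil)) .leaf) (nat_lit 13757585541817096) (.br (nat_lit 1) (.cons (.br (nat_lit 4) (.cons (.rel (nat_lit 1107296352)) .nil)) .nil)) (.node .leaf (nat_lit 13758229800931455) (.br (nat_lit 0) (.cons (.br (nat_lit 2) (.cons (.rel (nat_lit 71829504)) .nil)) .nil)) .leaf)) (nat_lit 13759552634213754) (.br (nat_lit 1) (.cons (.br (nat_lit 2) (.cons (.rel (nat_lit 151000068)) .nil)) .nil)) (.node (.node (.node .leaf (nat_lit 13762679370171899) (.br (nat_lit 1) (.cons (.br (nat_lit 3) (.cons (.rel (nat_lit 570491136)) .nil)) .nil)) .leaf) (nat_lit 13762679372764042) (.br (nat_lit 0) (.cons (.br (nat_lit 2) (.cons (.rel (nat_lit 138436608)) .nil)) .nil)) .leaf) (nat_lit 13762679373030036) (.br (nat_lit 4) (.cons (.br (nat_lit 6) (.cons (.rel (nat_lit 18253877520)) .nil)) .nil)) (.node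 .leaf (nat_lit 13762679373030907) (.br (nat_lit 2) (.cons (.br (nat_lit 3) (.cons (.rel (nat_lit 603987984)) .nil)) .nil)) .leaf)))

/-- refutations 63 -/
def e63 : EX := (.node (.node (.node .leaf (nat_lit 13763812690481929) (.br (nat_lit 0) (.cons (.br (nat_lit 4) (.cons (.rel (nat_lit 2151679056)) .nil)) .nil)) .leaf) (nat_lit 13763812690482058) (.br (nat_lit 0) (.cons (.br (nat_lit 2) (.cons (.rel (nat_lit 142606596)) .nil)) .nil)) .leaf) (nat_lit 13763813243890441) (.br (nat_lit 0) (.cons (.br (nat_lit 1) (.cons (.rel (nat_lit 25231368)) .nil)) .nil)) (.node (.node .leaf (nat_lit 13763813243890570) (.br (nat_lit 0) (.cons (.br (nat_lit 1) (.cons (.rel (nat_lit 25231368)) .nil)) .nil)) .leaf) (nat_lit 13769175678838138) (.br (nat_lit 0) (.cons (.br (nat_lit 1) (.cons (.rel (nat_lit 20972112)) .nil)) .nil)) .leaf))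

/-- refutations 64 -/
def e64 : EX := (.node .leaf (nat_lit 13675806088809074) (.br (nat_lit 0) (.cons (.br (nat_lit 2) (.cons (.rel (nat_lit 142606596)) .nil)) .nil)) .leaf)

/-- refutations 65 -/
def e65 : EX := (.node (.node (.node .leaf (nat_lit 14197108929800227) (.br (nat_lit 0) (.cons (.br (nat_lit 3) (.cons (.rel (nat_lit 273155136)) .nil)) .nil)) .leaf) (nat_lit 14197108930767473) (.br (nat_lit 0) (.cons (.br (nat_lit 1) (.cons (.rel (nat_lit 22021137)) .nil)) .nil)) .leaf) (nat_lit 14197109668924677) (.br (nat_lit 0) (.cons (.br (nat_lit 1) (.cons (.rel (nat_lit 25167936)) .nil)) .nil)) (.node (.node .leaf (nat_lit 14197326938626108) (.br (nat_lit 1) (.cons (.br (nat_lit 2) (.cons (.rel (nat_lit 100728897)) .nil)) .nil)) .leaf) (nat_lit 14197327514327100) (.br (nat_lit 0) (.cons (.br (nat_lit 5) (.cons (.rel (nat_lit 4303421508)) (.cons (.rel (nat_lit 4303376388)) .nil))) .nil)) .leaf))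

/-- refutations 66 -/
def e66 : EX := (.node .leaf (nat_lit 14203826260201504) (.br (nat_lit 2) (.cons (.br (nat_lit 5) (.cons (.rel (nat_lit 4362142272)) .nil)) .nil)) .leaf)

/-- refutations 69 -/
def e69 : EX := (.node (.node (.node .leaf (nat_lit 14251023247690985) (.br (nat_lit 0) (.cons (.br (nat_lit 1) (.cons (.rel (nat_lit 20972112)) (.cons (.rel (nat_lit 22022148)) .nil))) .nil)) .leaf) (nat_lit 14257660079396317) (.br (nat_lit 0) (.cons (.br (nat_lit 1) (.cons (.rel (nat_lit 25169952)) .nil)) .nil)) .leaf) (nat_lit 14257664622551195) (.br (nat_lit 0) (.cons (.br (nat_lit 2) (.cons (.rel (nat_lit 138412065)) .nil)) .nil)) (.node .leaf (nat_lit 14257664622551965) (.br (nat_lit 5) (.cons (.br (nat_lit 6) (.cons (.br (nat_lit 0) (.cons (.rel (nat_lit 4300214304)) (.cons (.rel (nat_lit 34368454656)) .nil))) .nil)) .nil)) .leaf))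

/-- refutations 70 -/
def e70 : EX := (.node (.node .leaf (nat_lit 14267361175639576) (.br (nat_lit 1) (.cons (.br (nat_lit 3) (.cons (.rel (nat_lit 301989906)) .nil)) .nil)) .leaf) (nat_lit 14267361175814150) (.br (nat_lit 0) (.cons (.br (nat_lit 3) (.cons (.rel (nat_lit 273679392)) .nil)) .nil)) (.node .leaf (nat_lit 14274234591852579) (.br (nat_lit 0) (.cons (.br (nat_lit 1) (.cons (.rel (nat_lit 20972112)) .nil)) .nil)) .leaf))

/-- refutations 74 -/
def e74 : EX := (.node (.node .leaf (nat_lit 15521896824095351) (.br (nat_lit 0) (.cons (.br (nat_lit 1) (.cons (.rel (nat_lit 41959752)) .nil)) .nil)) .leaf) (nat_lit 15522756358562423) (.br (nat_lit 0) (.cons (.br (nat_lit 1) (.cons (.rel (nat_lit 21561360)) .nil)) .nil)) (.node .leaf (nat_lit 15528180161303959) (.br (nat_lit 1) (.cons (.br (nat_lit 2) (.cons (.rel (nat_lit 84942912)) .nil)) .nil)) .leaf))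

/-- refutations 77 -/
def e77 : EX := (.node (.node .leaf (nat_lit 15963677889706121) (.br (nat_lit 1) (.cons (.br (nat_lit 4) (.cons (.rel (nat_lit 1091044356)) .nil)) .nil)) .leaf) (nat_lit 15963910241773056) (.br (nat_lit 4) (.cons (.br (nat_lit 5) (.cons (.rel (nat_lit 5369765952)) .nil)) .nil)) (.node .leaf (nat_lit 15966899539011072) (.br (nat_lit 1) (.cons (.br (nat_lit 5) (.cons (.rel (nat_lit 8623489281)) .nil)) .nil)) .leaf))

/-- refutations 79 -/
def e79 : EX := (.node (.node (.node .leaf (nat_lit 16028675595553018) (.br (nat_lit 1) (.cons (.br (nat_lit 4) (.cons (.rel (nat_lit 2164261008)) (.cons (.rel (nat_lit 1091044356)) .nil))) .nil)) .leaf) (nat_lit 16032065051941524) (.br (nat_lit 0) (.cons (.br (nat_lit 1) (.cons (.rel (nat_lit 25167936)) .nil)) .nil)) .leaf) (nat_lit 16032071372759700) (.br (nat_lit 0) (.cons (.br (nat_lit 2) (.cons (.rel (nat_lit 71829504)) .nil)) .nil)) (.node .leaf (nat_lit 16033204690211593) (.br (nat_lit 0) (.cons (.br (nat_lit 2) (.cons (.rel (nat_lit 71829504)) .nil)) .nil)) .leaf))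

/-- refutations 85 -/
def e85 : EX := (.node (.node (.node .leaf (nat_lit 21990449955249413) (.br (nat_lit 0) (.cons (.br (nat_lit 1) (.cons (.rel (nat_lit 20972112)) .nil)) .nil)) .leaf) (nat_lit 21991802352160945) (.br (nat_lit 5) (.cons (.br (nat_lit 0) (.cons (.rel (nat_lit 8594129988)) (.cons (.rel (nat_lit 4299493632)) .nil))) .nil)) .leaf) (nat_lit 21991802352427910) (.br (nat_lit 0) (.cons (.br (nat_lit 1) (.cons (.rel (nat_lit 21561360)) .nil)) .nil)) (.node .leaf (nat_lit 22002107755861345) (.br (nat_lit 0) (.cons (.br (nat_lit 1) (.cons (.rel (nat_lit 21561360)) .nil)) .nil)) .leaf))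

/-- refutations 87 -/
def e87 : EX := (.node .leaf (nat_lit 22201554820246379) (.br (nat_lit 0) (.cons (.br (nat_lit 2) (.cons (.rel (nat_lit 71303688)) .nil)) .nil)) .leaf)

/-- refutations 89 -/
def e89 : EX := (.node (.node .leaf (nat_lit 22558766625313399) (.br (nat_lit 0) (.cons (.br (nat_lit 1) (.cons (.rel (nat_lit 25182210)) .nil)) .nil)) .leaf) (nat_lit 22558772395235988) (.br (nat_lit 0) (.cons (.br (nat_lit 1) (.cons (.rel (nat_lit 21499908)) .nil)) .nil)) .leaf)

/-- refutations 92 -/
def e92 : EX := (.node .leaf (nat_lit 22631592108739491) (.br (nat_lit 0) (.cons (.br (nat_lit 1) (.cons (.rel (nat_lit 25167936)) .nil)) .nil)) .leaf)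

/-- refutations 94 -/
def e94 : EX := (.node (.node .leaf (nat_lit 23074623313459360) (.br (nat_lit 0) (.cons (.br (nat_lit 3) (.cons (.rel (nat_lit 276890625)) .nil)) .nil)) .leaf) (nat_lit 23074623736821018) (.br (nat_lit 0) (.cons (.br (nat_lit 1) (.cons (.rel (nat_lit 21499908)) .nil)) .nil)) .leaf)

/-- refutations 95 -/
def e95 : EX := (.node .leaf (nat_lit 22652203972386952) (.br (nat_lit 2) (.cons (.br (nat_lit 3) (.cons (.rel (nat_lit 336592920)) .nil)) .nil)) .leaf)

/-- refutations 96 -/
def e96 : EX := (.node .leaf (nat_lit 24194840317771288) (.br (nat_lit 0) (.cons (.br (nat_lit 1) (.cons (.rel (nat_lit 21561360)) .nil)) .nil)) .leaf)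

/-- refutations 98 -/
def e98 : EX := (.node (.node .leaf (nat_lit 24314858615197977) (.br (nat_lit 0) (.cons (.br (nat_lit 3) (.cons (.rel (nat_lit 541130832)) .nil)) .nil)) .leaf) (nat_lit 24317835748844451) (.br (nat_lit 0) (.cons (.br (nat_lit 1) (.cons (.rel (nat_lit 37749888)) .nil)) .nil)) .leaf)

/-- refutations 101 -/
def e101 : EX := (.node (.node (.node .leaf (nat_lit 24758657854460665) (.br (nat_lit 2) (.cons (.br (nat_lit 4) (.cons (.rel (nat_lit 1141383168)) .nil)) .nil)) .leaf) (nat_lit 24758923244851977) (.br (nat_lit 1) (.cons (.br (nat_lit 3) (.cons (.rel (nat_lit 570687552)) .nil)) .nil)) .leaf) (nat_lit 24764292851553058) (.br (nat_lit 4) (.cons (.br (nat_lit 6) (.cons (.rel (nat_lit 18253628928)) .nil)) .nil)) (.node .leaf (nat_lit 24764292851553762) (.br (nat_lit 6) (.cons (.br (nat_lit 1) (.cons (.rel (nat_lit 17196647940)) (.cons (.rel (nat_lit 17196647940)) .nil))) .nil)) .leaf))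

/-- refutations 103 -/
def e103 : EX := (.node (.node .leaf (nat_lit 24822789918472452) (.br (nat_lit 0) (.cons (.br (nat_lit 3) (.cons (.rel (nat_lit 272695812)) .nil)) .nil)) .leaf) (nat_lit 24822790307531033) (.br (nat_lit 0) (.cons (.br (nat_lit 1) (.cons (.rel (nat_lit 37749888)) .nil)) .nil)) .leaf)

/-- refutations 104 -/
def e104 : EX := (.node .leaf (nat_lit 24834697681482005) (.br (nat_lit 0) (.cons (.br (nat_lit 1) (.cons (.rel (nat_lit 20972112)) .nil)) .nil)) .leaf)

/-- refutations 107 -/
def e107 : EX := (.node .leaf (nat_lit 25262593940138019) (.br (nat_lit 0) (.cons (.br (nat_lit 3) (.cons (.rel (nat_lit 272896257)) .nil)) .nil)) .leaf)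

/-- refutations 108 -/
def e108 : EX := (.node (.node (.node .leaf (nat_lit 26476724286965272) (.br (nat_lit 0) (.cons (.br (nat_lit 2) (.cons (.rel (nat_lit 142606596)) .nil)) .nil)) .leaf) (nat_lit 26476779022583865) (.br (nat_lit 4) (.cons (.br (nat_lit 0) (.cons (.rel (nat_lit 2155872576)) (.cons (.rel (nat_lit 1078480896)) .nil))) .nil)) .leaf) (nat_lit 26489174296701714) (.br (nat_lit 0) (.cons (.br (nat_lit 1) (.cons (.rel (nat_lit 20977152)) .nil)) .nil)) (.node .leaf (nat_lit 26489227998931719) (.br (nat_lit 0) (.cons (.br (nat_lit 2) (.cons (.rel (nat_lit 71565585)) .nil)) .nil)) .leaf))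

/-- refutations 110 -/
def e110 : EX := (.node (.node (.node .leaf (nat_lit 26828363972762377) (.br (nat_lit 0) (.cons (.br (nat_lit 1) (.cons (.rel (nat_lit 21499908)) .nil)) .nil)) .leaf) (nat_lit 26828518667673731) (.br (nat_lit 2) (.cons (.br (nat_lit 4) (.cons (.rel (nat_lit 1207963713)) .nil)) .nil)) .leaf) (nat_lit 26828518670194748) (.br (nat_lit 1) (.cons (.br (nat_lit 4) (.cons (.rel (nat_lit 1090521600)) .nil)) .nil)) (.node .leaf (nat_lit 26829653094944945) (.br (nat_lit 4) (.cons (.br (nat_lit 5) (.cons (.rel (nat_lit 5368975617)) .nil)) .nil)) .leaf))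

/-- refutations 111 -/
def e111 : EX := (.node (.node .leaf (nat_lit 26835050935210265) (.br (nat_lit 0) (.cons (.br (nat_lit 1) (.cons (.rel (nat_lit 22022148)) .nil)) .nil)) .leaf) (nat_lit 26840327730227360) (.br (nat_lit 0) (.cons (.br (nat_lit 2) (.cons (.rel (nat_lit 142606596)) .nil)) .nil)) .leaf)

/-- refutations 113 -/
def e113 : EX := (.node .leaf (nat_lit 26951543606987529) (.br (nat_lit 0) (.cons (.br (nat_lit 1) (.cons (.rel (nat_lit 21325056)) .nil)) .nil)) .leaf)

/-- refutations 114 -/
def e114 : EX := (.node .leaf (nat_lit 26964394149137915) (.br (nat_lit 0) (.cons (.br (nat_lit 1) (.cons (.rel (nat_lit 37879812)) .nil)) .nil)) .leaf)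

/-- refutations 115 -/
def e115 : EX := (.node (.node .leaf (nat_lit 27268105889748200) (.br (nat_lit 1) (.cons (.br (nat_lit 2) (.cons (.rel (nat_lit 167805189)) .nil)) .nil)) .leaf) (nat_lit 27269023020732543) (.br (nat_lit 0) (.cons (.br (nat_lit 4) (.cons (.rel (nat_lit 1082212356)) .nil)) .nil)) .leaf)

/-- refutations 116 -/
def e116 : EX := (.node (.node .leaf (nat_lit 27274332004375784) (.br (nat_lit 0) (.cons (.br (nat_lit 1) (.cons (.rel (nat_lit 37756944)) .nil)) .nil)) .leaf) (nat_lit 27281202800019491) (.br (nat_lit 0) (.cons (.br (nat_lit 1) (.cons (.rel (nat_lit 20972112)) .nil)) .nil)) (.node .leaf (nat_lit 27281206018151930) (.br (nat_lit 0) (.cons (.br (nat_lit 1) (.cons (.rel (nat_lit 20972112)) .nil)) .nil)) .leaf))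

/-- refutations 120 -/
def e120 : EX := (.node (.node .leaf (nat_lit 27386810180658703) (.br (nat_lit 0) (.cons (.br (nat_lit 1) (.cons (.rel (nat_lit 20972112)) .nil)) .nil)) .leaf) (nat_lit 27386811314593295) (.br (nat_lit 0) (.cons (.br (nat_lit 3) (.cons (.rel (nat_lit 545653764)) .nil)) .nil)) .leaf)

/-- refutations 122 -/
def e122 : EX := (.node (.node .leaf (nat_lit 27461837289263164) (.br (nat_lit 0) (.cons (.br (nat_lit 1) (.cons (.rel (nat_lit 22022148)) .nil)) .nil)) .leaf) (nat_lit 27474811542330900) (.br (nat_lit 0) (.cons (.br (nat_lit 1) (.cons (.rel (nat_lit 37879812)) .nil)) .nil)) .leaf)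

/-- list of the parts -/
def L0 : List (ℕ × List ℕ) := [(nat_lit 0x10, [Nat.sub (Nat.pow 2 804) (Nat.pow 2 0), Nat.sub (Nat.pow 2 3136) (Nat.pow 2 804)]),
  (nat_lit 0x60, [cP]),
  (nat_lit 0x4400, [cP]),
  (nat_lit 0x8000, [cP]),
  (nat_lit 0x20000000, [Nat.sub (Nat.pow 2 129) (Nat.pow 2 0), Nat.sub (Nat.pow 2 164) (Nat.pow 2 129), Nat.sub (Nat.pow 2 310) (Nat.pow 2 164), Nat.sub (Nat.pow 2 759) (Nat.pow 2 310), Nat.sub (Nat.pow 2 811) (Nat.pow 2 759), Nat.sub (Nat.pow 2 1290) (Nat.pow 2 811), Nat.sub (Nat.pow 2 1511) (Nat.pow 2 1290), Nat.sub (Nat.pow 2 3136) (Nat.pow 2 1511)]),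
  (nat_lit 0x10000, [cP]),
  (nat_lit 0x1000000000, [Nat.sub (Nat.pow 2 804) (Nat.pow 2 0), Nat.sub (Nat.pow 2 3136) (Nat.pow 2 804)]),
  (nat_lit 0xc0000000, [cP]),
  (nat_lit 0x40000000000000, [cP]),
  (nat_lit 0x880000000000000, [cP]),
  (nat_lit 0x1000000000000000, [cP]),
  (nat_lit 0x400000000000000000000000000000000, [cP]),
  (nat_lit 0x4000000000000000000000000000000000, [cP]),
  (nat_lit 0x20000000000000000000000000000000000000000, [Nat.sub (Nat.pow 2 654) (Nat.pow 2 0), Nat.sub (Nat.pow 2 3136) (Nat.pow 2 654)]),
  (nat_lit 0x8800008000000000000000000000000000000000, [cP]),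
  (nat_lit 0x100000000000000000000000000000000000000000, [cP]),
  (nat_lit 0x20000000000000000000000000000000000000000000000, [cP]),
  (nat_lit 0x40000000000000000000000000000000000000000000000, [cP]),
  (nat_lit 0x400000000000000000000000000000000000000000000000, [Nat.sub (Nat.pow 2 279) (Nat.pow 2 0), Nat.sub (Nat.pow 2 3136) (Nat.pow 2 279)]),
  (nat_lit 0x80000000000000000000000000000000000000000000000000000000000000000, [Nat.sub (Nat.pow 2 659) (Nat.pow 2 0), Nat.sub (Nat.pow 2 3136) (Nat.pow 2 659)]),
  (nat_lit 0x8000000000000000000000000000000000000000000000000000000000000000000000, [Nat.sub (Nat.pow 2 786) (Nat.pow 2 0), Nat.sub (Nat.pow 2 3136) (Nat.pow 2 786)]),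
  (nat_lit 0x4000000000000000000000000000000000000000000000000000000000000000000000000, [Nat.sub (Nat.pow 2 290) (Nat.pow 2 0), Nat.sub (Nat.pow 2 1284) (Nat.pow 2 290), Nat.sub (Nat.pow 2 3136) (Nat.pow 2 1284)]),
  (nat_lit 0x20000000000000000000000200000000000000000000000000000000000000000000000, [cP]),
  (nat_lit 0x400008000000000000000000000000000000000000000000000000000000000000000000000000, [cP]),
  (nat_lit 0x8000000000000000000000000000000000000000000000000000000000000000000000000000000, [Nat.sub (Nat.pow 2 881) (Nat.pow 2 0), Nat.sub (Nat.pow 2 3136) (Nat.pow 2 881)]),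
  (nat_lit 0x20000000000000000000000000000000000000000000000000000000000000000000000000000000000000000000000000000000000000000000000000000000000000000000000000000000000000, [Nat.sub (Nat.pow 2 636) (Nat.pow 2 0), Nat.sub (Nat.pow 2 3136) (Nat.pow 2 636)]),
  (nat_lit 0x800000000000000000000000000000000000000000000000000000000000000000000000000000004000000000000000000000000000000000000000000000000000000000000000000000000000000, [cP]),
  (nat_lit 0x40000000000000000000000000000000000000000000000000000000000000000000000000000000000000000000000000000000000000000000000000000000000000000000000000000000000000000000, [Nat.sub (Nat.pow 2 290) (Nat.pow 2 0), Nat.sub (Nat.pow 2 789) (Nat.pow 2 290), Nat.sub (Nat.pow 2 3136) (Nat.pow 2 789)]),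
  (nat_lit 0x1000000000000000000000000000000000000000000000000000000000000000000000000000000000000000000000000000000000000000000000000000000000000000000000000000000000000000, [cP]),
  (nat_lit 0x2000000000000000000000000000000000000000000000000000000000000000000000000000000000000000000000000000000000000000000000000000000000000000000000000000000000000000000000, [Nat.sub (Nat.pow 2 661) (Nat.pow 2 0), Nat.sub (Nat.pow 2 3136) (Nat.pow 2 661)]),
  (nat_lit 0x10800000000000000000000000000000000000000000000000000000000000000000000000000000000000000000000000000000000000000000000000000000000000000000000000000000000000000000000, [cP]),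
  (nat_lit 0x2000000000000000000000000000000000000000000000000000000000000000000000000000000000000000000000000000000000000000000000000000000000000000000000000000000000000000000000000000, [cP]),
  (nat_lit 0x20000000000000000000000000000000000000000000000000000000000000000000000000000000000000000000000000000000000000000000000000000000000000000000000000000000000000000000000000000, [cP]),
  (nat_lit 0x400000000000000000000000000000000000000000000000000000000000000000000000000000000000000000000000000000000000000000000000000000000000000000000000000000000000000000000000000000000000000000000, [cP]),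
  (nat_lit 0x800000000000000000000000000000000000000000000000000000000000000000000000000000000000000000000000000000000000000000000000000000000000000000000000000000000000000000000000000000000000000000000, [cP]),
  (nat_lit 0x1000000000000000000000000000000000000000000000000000000000000000000000000000000000000000000000000000000000000000000000000000000000000000000000000000000000000000000000000000000000000000000000, [cP]),
  (nat_lit 0x8000000000000000000000000000000000000000000000000000000000000000000000000000000000000000000000000000000000000000000000000000000000000000000000000000000000000000000000000000000000000000000000, [cP]),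
  (nat_lit 0x800000000000000000000000000000000000000000000000000000000000000000000000000000000000000000000000000000000000000000000000000000000000000000000000000000000000000000000000000000000000000000000000000, [Nat.sub (Nat.pow 2 279) (Nat.pow 2 0), Nat.sub (Nat.pow 2 911) (Nat.pow 2 279), Nat.sub (Nat.pow 2 3136) (Nat.pow 2 911)]),
  (nat_lit 0x410000000000000000000000000000000000000000000000000000000000000000000000000000000000000000000000000000000000000000000000000000000000000000000000000000000000000000000000000000000000000000000000, [cP]),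
  (nat_lit 0x40000000000000000000000000000000000000000000000000000000000000000000000000000000000000000000000000000000000000000000000000000000000000000000000000000000000000000000000000000000000000000000000000000, [Nat.sub (Nat.pow 2 61) (Nat.pow 2 0), Nat.sub (Nat.pow 2 786) (Nat.pow 2 61), Nat.sub (Nat.pow 2 3136) (Nat.pow 2 786)]),
  (nat_lit 0xa12000000000000000000000000000000000000000000000000000000000000000000000000000000000000000000000000000000000000000000000000000000000000000000000000000000000000000000000000000000000000000000000000000, [cP]),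
  (nat_lit 0x80000000000000000000000000000000000000000000000000000000000000000000000000000000000000000000000000000000000000000000000000000000000000000000000000000000000000000000000000000000000000000000000000000000000, [Nat.sub (Nat.pow 2 811) (Nat.pow 2 0), Nat.sub (Nat.pow 2 1536) (Nat.pow 2 811), Nat.sub (Nat.pow 2 3136) (Nat.pow 2 1536)]),
  (nat_lit 0x40000000000000000000000000000000000000000000000000000000000000000000000000000000000000000000000000000000000000000000000000000000000000000000000000000000000000000000000000000000000000000000000000000000000, [cP]),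
  (nat_lit 0x400000000000000000000000000000000000000000000000000000000000000000000000000000000000000000000000000000000000000000000000000000000000000000000000000000000000000000000000000000000000000000000000000000000000, [cP]),
  (nat_lit 0x800000000000000000000000000000000000000000000000000000000000000000000000000000000000000000000000000000000000000000000000000000000000000000000000000000000000000000000000000000000000000000000000000000000000, [cP]),
  (nat_lit 0x8000000000000000000000000000000000000000000000000000000000000000000000000000000000000000000000000000000000000000000000000000000000000000000000000000000000000000000000000000000000000000000000000000000000000000000000000000, [cP]),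
  (nat_lit 0x10000000000000000000000000000000000000000000000000000000000000000000000000000000000000000000000000000000000000000000000000000000000000000000000000000000000000000000000000000000000000000000000000000000000000000000000000000, [cP]),
  (nat_lit 0x100000000000000000000000000000000000000000000000000000000000000000000000000000000000000000000000000000000000000000000000000000000000000000000000000000000000000000000000000000000000000000000000000000000000000000000000000000, [cP]),
  (nat_lit 0x400000000000000000000000000000000000000000000000000000000000000000000000000000000000000000000000000000000000000000000000000000000000000000000000000000000000000000000000000000000000000000000000000000000000000000000000000000, [cP]),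
  (nat_lit 0x8000000000000000000000000000000000000000000000000000000000000000000000000000000000000000000000000000000000000000000000000000000000000000000000000000000000000000000000000000000000000000000000000000000000000000000000000000000, [cP]),
  (nat_lit 0x800000000000000000000000000000000000000000000000000000000000000000000000000000000000000000000000000000000000000000000000000000000000000000000000000000000000000000000000000000000000000000000000000000000000000000000000000000000000, [Nat.sub (Nat.pow 2 804) (Nat.pow 2 0), Nat.sub (Nat.pow 2 3136) (Nat.pow 2 804)]),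
  (nat_lit 0x8000000000000000000000000000000000000000000000000000000000000000000000000000000000000000000000000000000000000000000000000000000000000000000000000000000000000000000000000000000000000000000000000000000000000000000000000000000000000, [Nat.sub (Nat.pow 2 259) (Nat.pow 2 0), Nat.sub (Nat.pow 2 815) (Nat.pow 2 259), Nat.sub (Nat.pow 2 1565) (Nat.pow 2 815), Nat.sub (Nat.pow 2 3136) (Nat.pow 2 1565)]),
  (nat_lit 0x400000200000000000000000000000000000000000000000000000000000000000000000000000000000000000000000000000000000000000000000000000000000000000000000000000000000000000000000000000000000000000000000000000000000000000000000000000000000000000, [cP]),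
  (nat_lit 0x800000000000000000000000000000000000000000000000000000000000000000000000000000000000000000000000000000000000000000000000000000000000000000000000000000000000000000000000000000000000000000000000000000000000000000000000000000000000000000, [cP]),
  (nat_lit 0x8000000000000000000000000000000000000000000000000000000000000000000000000000000000000000000000000000000000000000000000000000000000000000000000000000000000000000000000000000000000000000000000000000000000000000000000000000000000000000000, [cP]),
  (nat_lit 0x40000000000000000000000000000000000000000000000000000000000000000000000000000000000000000000000000000000000000000000000000000000000000000000000000000000000000000000000000000000000000000000000000000000000000000000000000000000000000000000000000000000000000000000000000000000000000000000000000000000000000000000000000, [cP]),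
  (nat_lit 0x800000000000000000000000000000000000000000000000000000000000000000000000000000000000000000000000000000000000000000000000000000000000000000000000000000000000000000000000000000000000000000000000000000000000000000000000000000000000000000000000000000000000000000000000000000000000000000000000000000000000000000000000000, [cP]),
  (nat_lit 0x40000000000000000000000000000000000000000000000000000000000000000000000000000000000000000000000000000000000000000000000000000000000000000000000000000000000000000000000000000000000000000000000000000000000000000000000000000000000000000000000000000000000000000000000000000000000000000000000000000000000000000000000000000, [cP]),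
  (nat_lit 0x4000000000000000000000000000000000000000000000000000000000000000000000000000000000000000000000000000000000000000000000000000000000000000000000000000000000000000000000000000000000000000000000000000000000000000000000000000000000000000000000000000000000000000000000000000000000000000000000000000000000000000000000000000000000, [Nat.sub (Nat.pow 2 279) (Nat.pow 2 0), Nat.sub (Nat.pow 2 936) (Nat.pow 2 279), Nat.sub (Nat.pow 2 3136) (Nat.pow 2 936)]),
  (nat_lit 0x40000000000000000000000000000000000000000000000000000000000000000000000000000000000000000000000000000000000000000000000000000000000000000000000000000000000000000000000000000000000000000000000000000000000000000000000000000000000000000000000000000000000000000000000000000000000000000000000000000000000000000000000000000000000, [Nat.sub (Nat.pow 2 884) (Nat.pow 2 0), Nat.sub (Nat.pow 2 3136) (Nat.pow 2 884)]),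
  (nat_lit 0x80000000000000000000000000000000000000000000000000000000000000000000000000000000000000000000000000000000000000000000000000000000000000000000000000000000000000000000000000000000000000000000000000000000000000000000000000000000000000000000000000000000000000000000000000000000000000000000000000000000000000000000000000000000000000000, [Nat.sub (Nat.pow 2 940) (Nat.pow 2 0), Nat.sub (Nat.pow 2 3136) (Nat.pow 2 940)]),
  (nat_lit 0x100000081000000000000000000000000000000000000000000000000000000000000000000000000000000000000000000000000000000000000000000000000000000000000000000000000000000000000000000000000000000000000000000000000000000000000000000000000000000000000000000000000000000000000000000000000000000000000000000000000000000000000000000000000000000000, [cP]),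
  (nat_lit 0x800000000000000000000000000000000000000000000000000000000000000000000000000000000000000000000000000000000000000000000000000000000000000000000000000000000000000000000000000000000000000000000000000000000000000000000000000000000000000000000000000000000000000000000000000000000000000000000000000000000000000000000000000000000000000000000000000000000, [cP]),
  (nat_lit 0x10000000000000000000000000000000000000000000000000000000000000000000000000000000000000000000000000000000000000000000000000000000000000000000000000000000000000000000000000000000000000000000000000000000000000000000000000000000000000000000000000000000000000000000000000000000000000000000000000000000000000000000000000000000000000000000000000000000000, [cP]),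
  (nat_lit 0x40000000000000000000000000000000000000000000000000000000000000000000000000000000000000000000000000000000000000000000000000000000000000000000000000000000000000000000000000000000000000000000000000000000000000000000000000000000000000000000000000000000000000000000000000000000000000000000000000000000000000000000000000000000000000000000000000000000000, [cP]),
  (nat_lit 0x200000000000000000000000000000000000000000000000000000000000000000000000000000000000000000000000000000000000000000000000000000000000000000000000000000000000000000000000000000000000000000000000000000000000000000000000000000000000000000000000000000000000000000000000000000000000000000000000000000000000000000000000000000000000000000000000000000000000, [cP]),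
  (nat_lit 0x80000000000000000000000000000000000000000000000000000000000000000000000000000000000000000000000000000000000000000000000000000000000000000000000000000000000000000000000000000000000000000000000000000000000000000000000000000000000000000000000000000000000000000000000000000000000000000000000000000000000000000000000000000000000000000000000000000000000000000, [Nat.sub (Nat.pow 2 654) (Nat.pow 2 0), Nat.sub (Nat.pow 2 3136) (Nat.pow 2 654)]),
  (nat_lit 0x800000000000000000000000000000000000000000000000000000000000000000000000000000000000000000000000000000000000000000000000000000000000000000000000000000000000000000000000000000000000000000000000000000000000000000000000000000000000000000000000000000000000000000000000000000000000000000000000000000000000000000000000000000000000000000000000000000000000, [cP]),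
  (nat_lit 0x800000000000000000000000000000000000000000000000000000000000000000000000000000000000000000000000000000000000000000000000000000000000000000000000000000000000000000000000000000000000000000000000000000000000000000000000000000000000000000000000000000000000000000000000000000000000000000000000000000000000000000000000000000000000000000000000000000000000000000, [Nat.sub (Nat.pow 2 786) (Nat.pow 2 0), Nat.sub (Nat.pow 2 3136) (Nat.pow 2 786)]),
  (nat_lit 0x2000400000000000000000000000000000000000000000000000000000000000000000000000000000000000000000000000000000000000000000000000000000000000000000000000000000000000000000000000000000000000000000000000000000000000000000000000000000000000000000000000000000000000000000000000000000000000000000000000000000000000000000000000000000000000000000000000000000000000000000, [cP]),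
  (nat_lit 0xc000000000000000000000000000000000000000000000000000000000000000000000000000000000000000000000000000000000000000000000000000000000000000000000000000000000000000000000000000000000000000000000000000000000000000000000000000000000000000000000000000000000000000000000000000000000000000000000000000000000000000000000000000000000000000000000000000000000000000000000, [cP]),
  (nat_lit 0x1000000000000000000000000000000000000000000000000000000000000000000000000000000000000000000000000000000000000000000000000000000000000000000000000000000000000000000000000000000000000000000000000000000000000000000000000000000000000000000000000000000000000000000000000000000000000000000000000000000000000000000000000000000000000000000000000000000000000000000000000, [cP]),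
  (nat_lit 0x200000000000000000000000000000000000000000000000000000000000000000000000000000000000000000000000000000000000000000000000000000000000000000000000000000000000000000000000000000000000000000000000000000000000000000000000000000000000000000000000000000000000000000000000000000000000000000000000000000000000000000000000000000000000000000000000000000000000000000000000000000000000000000, [cP]),
  (nat_lit 0x4000000000000000000000000000000000000000000000000000000000000000000000000000000000000000000000000000000000000000000000000000000000000000000000000000000000000000000000000000000000000000000000000000000000000000000000000000000000000000000000000000000000000000000000000000000000000000000000000000000000000000000000000000000000000000000000000000000000000000000000000000000000000000000, [cP]),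
  (nat_lit 0x20000000000000000000000000000000000000000000000000000000000000000000000000000000000000000000000000000000000000000000000000000000000000000000000000000000000000000000000000000000000000000000000000000000000000000000000000000000000000000000000000000000000000000000000000000000000000000000000000000000000000000000000000000000000000000000000000000000000000000000000000000000000000000000000, [Nat.sub (Nat.pow 2 689) (Nat.pow 2 0), Nat.sub (Nat.pow 2 3136) (Nat.pow 2 689)]),
  (nat_lit 0x10000000000000000000000000000000000000000000000000000000000000000000000000000000000000000000000000000000000000000000000000000000000000000000000000000000000000000000000000000000000000000000000000000000000000000000000000000000000000000000000000000000000000000000000000000000000000000000000000000000000000000000000000000000000000000000000000000000000000000000000000000000000000000000, [cP]),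
  (nat_lit 0x1000000000000000000000000000000000000000000000000000000000000000000000000000000000000000000000000000000000000000000000000000000000000000000000000000000000000000000000000000000000000000000000000000000000000000000000000000000000000000000000000000000000000000000000000000000000000000000000000000000000000000000000000000000000000000000000000000000000000000000000000000000000000000000000000, [Nat.sub (Nat.pow 2 779) (Nat.pow 2 0), Nat.sub (Nat.pow 2 3136) (Nat.pow 2 779)]),
  (nat_lit 0x40000000000000000000000000000000000000000000000000000000000000000000000000000000000000000000000000000000000000000000000000000000000000000000000000000000000000000000000000000000000000000000000000000000000000000000000000000000000000000000000000000000000000000000000000000000000000000000000000000000000000000000000000000000000000000000000000000000000000000000000000000000000000000000000000000, [Nat.sub (Nat.pow 2 190) (Nat.pow 2 0), Nat.sub (Nat.pow 2 3136) (Nat.pow 2 190)]),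
  (nat_lit 0x880000000000000000000000000000000000000000000000000000000000000000000000000000000000000000000000000000000000000000000000000000000000000000000000000000000000000000000000000000000000000000000000000000000000000000000000000000000000000000000000000000000000000000000000000000000000000000000000000000000000000000000000000000000000000000000000000000000000000000000000000000000000000000000000, [cP]),
  (nat_lit 0x100000000000000000000000000000000000000000000000000000000000000000000000000000000000000000000000000000000000000000000000000000000000000000000000000000000000000000000000000000000000000000000000000000000000000000000000000000000000000000000000000000000000000000000000000000000000000000000000000000000000000000000000000000000000000000000000000000000000000000000000000000000000000000000000000000, [cP]),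
  (nat_lit 0x800000000000000000000000000000000000000000000000000000000000000000000000000000000000000000000000000000000000000000000000000000000000000000000000000000000000000000000000000000000000000000000000000000000000000000000000000000000000000000000000000000000000000000000000000000000000000000000000000000000000000000000000000000000000000000000000000000000000000000000000000000000000000000000000000000, [cP]),
  (nat_lit 0x1000000000000000000000000000000000000000000000000000000000000000000000000000000000000000000000000000000000000000000000000000000000000000000000000000000000000000000000000000000000000000000000000000000000000000000000000000000000000000000000000000000000000000000000000000000000000000000000000000000000000000000000000000000000000000000000000000000000000000000000000000000000000000000000000000000, [cP]),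
  (nat_lit 0x10000000000000000000000000000000000000000000000000000000000000000000000000000000000000000000000000000000000000000000000000000000000000000000000000000000000000000000000000000000000000000000000000000000000000000000000000000000000000000000000000000000000000000000000000000000000000000000000000000000000000000000000000000000000000000000000000000000000000000000000000000000000000000000000000000000, [cP]),
  (nat_lit 0x20000000000000000000000000000000000000000000000000000000000000000000000000000000000000000000000000000000000000000000000000000000000000000000000000000000000000000000000000000000000000000000000000000000000000000000000000000000000000000000000000000000000000000000000000000000000000000000000000000000000000000000000000000000000000000000000000000000000000000000000000000000000000000000000000000000, [cP])]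

theorem hp0 : ∀ p ∈ L0, ∀ D2 ∈ p.2, ∃ e,
    search ext94 (Pool.Agent.H74.EGZ.vio sb) G Uc A0 p.1 D2 e = true :=
  (List.forall_mem_cons.2 ⟨(List.forall_mem_cons.2 ⟨⟨.leaf, by decide +kernel⟩,
  (List.forall_mem_singleton.2 ⟨.leaf, by decide +kernel⟩)⟩),
  (List.forall_mem_cons.2 ⟨(List.forall_mem_singleton.2 ⟨.leaf, by decide +kernel⟩),
  (List.forall_mem_cons.2 ⟨(List.forall_mem_singleton.2 ⟨e3, by decide +kernel⟩),
  (List.forall_mem_cons.2 ⟨(List.forall_mem_singleton.2 ⟨e4, by decide +kernel⟩),
  (List.forall_mem_cons.2 ⟨(List.forall_mem_cons.2 ⟨⟨e5, by decide +kernel⟩,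
  (List.forall_mem_cons.2 ⟨⟨e6, by decide +kernel⟩,
  (List.forall_mem_cons.2 ⟨⟨e7, by decide +kernel⟩,
  (List.forall_mem_cons.2 ⟨⟨e8, by decide +kernel⟩,
  (List.forall_mem_cons.2 ⟨⟨e9, by decide +kernel⟩,
  (List.forall_mem_cons.2 ⟨⟨e10, by decide +kernel⟩,
  (List.forall_mem_cons.2 ⟨⟨e11, by decide +kernel⟩,
  (List.forall_mem_singleton.2 ⟨e12, by decide +kernel⟩)⟩)⟩)⟩)⟩)⟩)⟩)⟩),
  (List.forall_mem_cons.2 ⟨(List.forall_mem_singleton.2 ⟨e13, by decide +kernel⟩),
  (List.forall_mem_cons.2 ⟨(List.forall_mem_cons.2 ⟨⟨e14, by decide +kernel⟩,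
  (List.forall_mem_singleton.2 ⟨e15, by decide +kernel⟩)⟩),
  (List.forall_mem_cons.2 ⟨(List.forall_mem_singleton.2 ⟨e16, by decide +kernel⟩),
  (List.forall_mem_cons.2 ⟨(List.forall_mem_singleton.2 ⟨e17, by decide +kernel⟩),
  (List.forall_mem_cons.2 ⟨(List.forall_mem_singleton.2 ⟨.leaf, by decide +kernel⟩),
  (List.forall_mem_cons.2 ⟨(List.forall_mem_singleton.2 ⟨e19, by decide +kernel⟩),
  (List.forall_mem_cons.2 ⟨(List.forall_mem_singleton.2 ⟨e20, by decide +kernel⟩),
  (List.forall_mem_cons.2 ⟨(List.forall_mem_singleton.2 ⟨.leaf, by decide +kernel⟩),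
  (List.forall_mem_cons.2 ⟨(List.forall_mem_cons.2 ⟨⟨e22, by decide +kernel⟩,
  (List.forall_mem_singleton.2 ⟨e23, by decide +kernel⟩)⟩),
  (List.forall_mem_cons.2 ⟨(List.forall_mem_singleton.2 ⟨.leaf, by decide +kernel⟩),
  (List.forall_mem_cons.2 ⟨(List.forall_mem_singleton.2 ⟨.leaf, by decide +kernel⟩),
  (List.forall_mem_cons.2 ⟨(List.forall_mem_singleton.2 ⟨.leaf, by decide +kernel⟩),
  (List.forall_mem_cons.2 ⟨(List.forall_mem_singleton.2 ⟨.leaf, by decide +kernel⟩),
  (List.forall_mem_cons.2 ⟨(List.forall_mem_cons.2 ⟨⟨e28, by decide +kernel⟩,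
  (List.forall_mem_singleton.2 ⟨.leaf, by decide +kernel⟩)⟩),
  (List.forall_mem_cons.2 ⟨(List.forall_mem_cons.2 ⟨⟨e30, by decide +kernel⟩,
  (List.forall_mem_singleton.2 ⟨.leaf, by decide +kernel⟩)⟩),
  (List.forall_mem_cons.2 ⟨(List.forall_mem_cons.2 ⟨⟨.leaf, by decide +kernel⟩,
  (List.forall_mem_singleton.2 ⟨.leaf, by decide +kernel⟩)⟩),
  (List.forall_mem_cons.2 ⟨(List.forall_mem_cons.2 ⟨⟨e34, by decide +kernel⟩,
  (List.forall_mem_cons.2 ⟨⟨e35, by decide +kernel⟩,
  (List.forall_mem_singleton.2 ⟨.leaf, by decide +kernel⟩)⟩)⟩),
  (List.forall_mem_cons.2 ⟨(List.forall_mem_singleton.2 ⟨e37, by decide +kernel⟩),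
  (List.forall_mem_cons.2 ⟨(List.forall_mem_singleton.2 ⟨.leaf, by decide +kernel⟩),
  (List.forall_mem_cons.2 ⟨(List.forall_mem_cons.2 ⟨⟨e39, by decide +kernel⟩,
  (List.forall_mem_singleton.2 ⟨e40, by decide +kernel⟩)⟩),
  (List.forall_mem_cons.2 ⟨(List.forall_mem_cons.2 ⟨⟨.leaf, by decide +kernel⟩,
  (List.forall_mem_singleton.2 ⟨.leaf, by decide +kernel⟩)⟩),
  (List.forall_mem_cons.2 ⟨(List.forall_mem_singleton.2 ⟨.leaf, by decide +kernel⟩),
  (List.forall_mem_cons.2 ⟨(List.forall_mem_cons.2 ⟨⟨e44, by decide +kernel⟩,
  (List.forall_mem_cons.2 ⟨⟨e45, by decide +kernel⟩,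
  (List.forall_mem_singleton.2 ⟨e46, by decide +kernel⟩)⟩)⟩),
  (List.forall_mem_cons.2 ⟨(List.forall_mem_singleton.2 ⟨.leaf, by decide +kernel⟩),
  (List.forall_mem_cons.2 ⟨(List.forall_mem_cons.2 ⟨⟨.leaf, by decide +kernel⟩,
  (List.forall_mem_singleton.2 ⟨.leaf, by decide +kernel⟩)⟩),
  (List.forall_mem_cons.2 ⟨(List.forall_mem_singleton.2 ⟨.leaf, by decide +kernel⟩),
  (List.forall_mem_cons.2 ⟨(List.forall_mem_singleton.2 ⟨.leaf, by decide +kernel⟩),
  (List.forall_mem_cons.2 ⟨(List.forall_mem_singleton.2 ⟨e52, by decide +kernel⟩),
  (List.forall_mem_cons.2 ⟨(List.forall_mem_singleton.2 ⟨e53, by decide +kernel⟩),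
  (List.forall_mem_cons.2 ⟨(List.forall_mem_singleton.2 ⟨e54, by decide +kernel⟩),
  (List.forall_mem_cons.2 ⟨(List.forall_mem_singleton.2 ⟨.leaf, by decide +kernel⟩),
  (List.forall_mem_cons.2 ⟨(List.forall_mem_singleton.2 ⟨.leaf, by decide +kernel⟩),
  (List.forall_mem_cons.2 ⟨(List.forall_mem_cons.2 ⟨⟨e57, by decide +kernel⟩,
  (List.forall_mem_cons.2 ⟨⟨.leaf, by decide +kernel⟩,
  (List.forall_mem_singleton.2 ⟨e59, by decide +kernel⟩)⟩)⟩),
  (List.forall_mem_cons.2 ⟨(List.forall_mem_singleton.2 ⟨.leaf, by decide +kernel⟩),
  (List.forall_mem_cons.2 ⟨(List.forall_mem_cons.2 ⟨⟨e61, by decide +kernel⟩,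
  (List.forall_mem_cons.2 ⟨⟨e62, by decide +kernel⟩,
  (List.forall_mem_singleton.2 ⟨e63, by decide +kernel⟩)⟩)⟩),
  (List.forall_mem_cons.2 ⟨(List.forall_mem_singleton.2 ⟨e64, by decide +kernel⟩),
  (List.forall_mem_cons.2 ⟨(List.forall_mem_cons.2 ⟨⟨e65, by decide +kernel⟩,
  (List.forall_mem_cons.2 ⟨⟨e66, by decide +kernel⟩,
  (List.forall_mem_singleton.2 ⟨.leaf, by decide +kernel⟩)⟩)⟩),
  (List.forall_mem_cons.2 ⟨(List.forall_mem_singleton.2 ⟨.leaf, by decide +kernel⟩),
  (List.forall_mem_cons.2 ⟨(List.forall_mem_singleton.2 ⟨e69, by decide +kernel⟩),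
  (List.forall_mem_cons.2 ⟨(List.forall_mem_singleton.2 ⟨e70, by decide +kernel⟩),
  (List.forall_mem_cons.2 ⟨(List.forall_mem_singleton.2 ⟨.leaf, by decide +kernel⟩),
  (List.forall_mem_cons.2 ⟨(List.forall_mem_singleton.2 ⟨.leaf, by decide +kernel⟩),
  (List.forall_mem_cons.2 ⟨(List.forall_mem_singleton.2 ⟨.leaf, by decide +kernel⟩),
  (List.forall_mem_cons.2 ⟨(List.forall_mem_singleton.2 ⟨e74, by decide +kernel⟩),
  (List.forall_mem_cons.2 ⟨(List.forall_mem_singleton.2 ⟨.leaf, by decide +kernel⟩),
  (List.forall_mem_cons.2 ⟨(List.forall_mem_cons.2 ⟨⟨.leaf, by decide +kernel⟩,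
  (List.forall_mem_singleton.2 ⟨e77, by decide +kernel⟩)⟩),
  (List.forall_mem_cons.2 ⟨(List.forall_mem_cons.2 ⟨⟨.leaf, by decide +kernel⟩,
  (List.forall_mem_cons.2 ⟨⟨e79, by decide +kernel⟩,
  (List.forall_mem_cons.2 ⟨⟨.leaf, by decide +kernel⟩,
  (List.forall_mem_singleton.2 ⟨.leaf, by decide +kernel⟩)⟩)⟩)⟩),
  (List.forall_mem_cons.2 ⟨(List.forall_mem_singleton.2 ⟨.leaf, by decide +kernel⟩),
  (List.forall_mem_cons.2 ⟨(List.forall_mem_singleton.2 ⟨.leaf, by decide +kernel⟩),
  (List.forall_mem_cons.2 ⟨(List.forall_mem_singleton.2 ⟨.leaf, by decide +kernel⟩),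
  (List.forall_mem_cons.2 ⟨(List.forall_mem_singleton.2 ⟨e85, by decide +kernel⟩),
  (List.forall_mem_cons.2 ⟨(List.forall_mem_singleton.2 ⟨.leaf, by decide +kernel⟩),
  (List.forall_mem_cons.2 ⟨(List.forall_mem_singleton.2 ⟨e87, by decide +kernel⟩),
  (List.forall_mem_cons.2 ⟨(List.forall_mem_cons.2 ⟨⟨.leaf, by decide +kernel⟩,
  (List.forall_mem_cons.2 ⟨⟨e89, by decide +kernel⟩,
  (List.forall_mem_singleton.2 ⟨.leaf, by decide +kernel⟩)⟩)⟩),
  (List.forall_mem_cons.2 ⟨(List.forall_mem_cons.2 ⟨⟨.leaf, by decide +kernel⟩,
  (List.forall_mem_singleton.2 ⟨e92, by decide +kernel⟩)⟩),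
  (List.forall_mem_cons.2 ⟨(List.forall_mem_cons.2 ⟨⟨.leaf, by decide +kernel⟩,
  (List.forall_mem_singleton.2 ⟨e94, by decide +kernel⟩)⟩),
  (List.forall_mem_cons.2 ⟨(List.forall_mem_singleton.2 ⟨e95, by decide +kernel⟩),
  (List.forall_mem_cons.2 ⟨(List.forall_mem_singleton.2 ⟨e96, by decide +kernel⟩),
  (List.forall_mem_cons.2 ⟨(List.forall_mem_singleton.2 ⟨.leaf, by decide +kernel⟩),
  (List.forall_mem_cons.2 ⟨(List.forall_mem_singleton.2 ⟨e98, by decide +kernel⟩),
  (List.forall_mem_cons.2 ⟨(List.forall_mem_singleton.2 ⟨.leaf, by decide +kernel⟩),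
  (List.forall_mem_cons.2 ⟨(List.forall_mem_cons.2 ⟨⟨.leaf, by decide +kernel⟩,
  (List.forall_mem_singleton.2 ⟨e101, by decide +kernel⟩)⟩),
  (List.forall_mem_cons.2 ⟨(List.forall_mem_singleton.2 ⟨.leaf, by decide +kernel⟩),
  (List.forall_mem_cons.2 ⟨(List.forall_mem_cons.2 ⟨⟨e103, by decide +kernel⟩,
  (List.forall_mem_singleton.2 ⟨e104, by decide +kernel⟩)⟩),
  (List.forall_mem_cons.2 ⟨(List.forall_mem_singleton.2 ⟨.leaf, by decide +kernel⟩),
  (List.forall_mem_cons.2 ⟨(List.forall_mem_singleton.2 ⟨.leaf, by decide +kernel⟩),
  (List.forall_mem_cons.2 ⟨(List.forall_mem_singleton.2 ⟨e107, by decide +kernel⟩),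
  (List.forall_mem_cons.2 ⟨(List.forall_mem_singleton.2 ⟨e108, by decide +kernel⟩),
  (List.forall_mem_cons.2 ⟨(List.forall_mem_singleton.2 ⟨.leaf, by decide +kernel⟩),
  (List.forall_mem_cons.2 ⟨(List.forall_mem_cons.2 ⟨⟨e110, by decide +kernel⟩,
  (List.forall_mem_singleton.2 ⟨e111, by decide +kernel⟩)⟩),
  (List.forall_mem_cons.2 ⟨(List.forall_mem_singleton.2 ⟨.leaf, by decide +kernel⟩),
  (List.forall_mem_cons.2 ⟨(List.forall_mem_cons.2 ⟨⟨e113, by decide +kernel⟩,
  (List.forall_mem_singleton.2 ⟨e114, by decide +kernel⟩)⟩),
  (List.forall_mem_cons.2 ⟨(List.forall_mem_cons.2 ⟨⟨e115, by decide +kernel⟩,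
  (List.forall_mem_singleton.2 ⟨e116, by decide +kernel⟩)⟩),
  (List.forall_mem_cons.2 ⟨(List.forall_mem_singleton.2 ⟨.leaf, by decide +kernel⟩),
  (List.forall_mem_cons.2 ⟨(List.forall_mem_singleton.2 ⟨.leaf, by decide +kernel⟩),
  (List.forall_mem_cons.2 ⟨(List.forall_mem_singleton.2 ⟨.leaf, by decide +kernel⟩),
  (List.forall_mem_cons.2 ⟨(List.forall_mem_singleton.2 ⟨e120, by decide +kernel⟩),
  (List.forall_mem_cons.2 ⟨(List.forall_mem_singleton.2 ⟨.leaf, by decide +kernel⟩),
  (List.forall_mem_singleton.2 (List.forall_mem_singleton.2 ⟨e122, by decide +kernel⟩))⟩)⟩)⟩)⟩)⟩)⟩)⟩)⟩)⟩)⟩)⟩)⟩)⟩)⟩)⟩)⟩)⟩)⟩)⟩)⟩)⟩)⟩)⟩)⟩)⟩)⟩)⟩)⟩)⟩)⟩)⟩)⟩)⟩)⟩)⟩)⟩)⟩)⟩)⟩)⟩)⟩)⟩)⟩)⟩)⟩)⟩)⟩)⟩)⟩)⟩)⟩)⟩)⟩)⟩)⟩)⟩)⟩)⟩)⟩)⟩)⟩)⟩)⟩)⟩)⟩)⟩)⟩)⟩)⟩)⟩)⟩)⟩)⟩)⟩)⟩)⟩)⟩)⟩)⟩)⟩)⟩)⟩)⟩)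

end

end Pool.Agent.H21.EGZ.S6
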