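import Pool.Agent.H21.EGZ.D7

/-!
# Stage 7 : search, part 0
-/

set_option autoImplicit false
set_option maxRecDepth 100000

namespace Pool.Agent.H21.EGZ.S7

noncomputable section

open Pool.Agent.H74.EGZ Pool.Agent.H94.Lift

/-- refutations 0 -/
def e0 : EX := (.node .leaf (nat_lit 43705017751) (.br (nat_lit 3) (.cons (.br (nat_lit 4) (.cons (.rel (nat_lit 1342455873)) .nil)) .nil)) .leaf)

/-- refutations 1 -/
def e1 : EX := (.node (.node (.node .leaf (nat_lit 2190664120970) (.br (nat_lit 0) (.cons (.br (nat_lit 1) (.cons (.rel (nat_lit 22021128)) .nil)) .nil)) .leaf) (nat_lit 5584129158396) (.br (nat_lit 1) (.cons (.br (nat_lit 2) (.cons (.rel (nat_lit 84935712)) .nil)) .nil)) .leaf) (nat_lit 5584739358721) (.br (nat_lit 0) (.cons (.br (nat_lit 3) (.cons (.rel (nat_lit 272711808)) .nil)) .nil)) (.node .leaf (nat_lit 5589796936442) (.br (nat_lit 0) (.cons (.br (nat_lit 1) (.cons (.rel (nat_lit 22021128)) .nil)) .nil)) .leaf))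

/-- refutations 2 -/
def e2 : EX := (.node (.node (.node .leaf (nat_lit 11047935220968) (.br (nat_lit 0) (.cons (.br (nat_lit 6) (.cons (.rel (nat_lit 34363933968)) .nil)) .nil)) .leaf) (nat_lit 12120628509577) (.br (nat_lit 0) (.cons (.br (nat_lit 3) (.cons (.rel (nat_lit 273154560)) .nil)) .nil)) (.node .leaf (nat_lit 12126737160954) (.br (nat_lit 0) (.cons (.br (nat_lit 4) (.cons (.rel (nat_lit 1077936288)) .nil)) .nil)) .leaf)) (nat_lit 12893722623508) (.br (nat_lit 0) (.cons (.br (nat_lit 2) (.cons (.rel (nat_lit 72353796)) .nil)) .nil)) (.node (.node .leaf (nat_lit 12894163496188) (.br (nat_lit 0) (.cons (.br (nat_lit 4) (.cons (.rel (nat_lit 1082138625)) .nil)) .nil)) .leaf) (nat_lit 13143774904970) (.br (nat_lit 1) (.cons (.br (nat_lit 3) (.cons (.rel (nat_lit 286327824)) .nil)) .nil)) (.node .leaf (nat_lit 13143776901245) (.br (nat_lit 1) (.cons (.br (nat_lit 2) (.cons (.rel (nat_lit 100810752)) .nil)) .nil)) .leaf)))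

/-- refutations 3 -/
def e3 : EX := (.node .leaf (nat_lit 89465364521720) (.br (nat_lit 1) (.cons (.br (nat_lit 3) (.cons (.rel (nat_lit 285605952)) .nil)) .nil)) .leaf)

/-- refutations 4 -/
def e4 : EX := (.node (.node .leaf (nat_lit 100250936145921) (.br (nat_lit 0) (.cons (.br (nat_lit 6) (.cons (.rel (nat_lit 17185113600)) .nil)) .nil)) .leaf) (nat_lit 101108775609880) (.br (nat_lit 4) (.cons (.br (nat_lit 5) (.cons (.rel (nat_lit 5369757720)) .nil)) .nil)) .leaf)

/-- refutations 5 -/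
def e5 : EX := (.node (.node .leaf (nat_lit 615812412509661) (.br (nat_lit 0) (.cons (.br (nat_lit 1) (.cons (.rel (nat_lit 22024704)) .nil)) .nil)) .leaf) (nat_lit 617058624113926) (.br (nat_lit 1) (.cons (.br (nat_lit 4) (.cons (.rel (nat_lit 1091601408)) .nil)) .nil)) .leaf)

/-- refutations 6 -/
def e6 : EX := (.node (.node (.node .leaf (nat_lit 623286325341541) (.br (nat_lit 0) (.cons (.br (nat_lit 1) (.cons (.rel (nat_lit 20988033)) .nil)) .nil)) .leaf) (nat_lit 628620674538252) (.br (nat_lit 1) (.cons (.br (nat_lit 2) (.cons (.rel (nat_lit 84935712)) .nil)) .nil)) .leaf) (nat_lit 628620674722467) (.br (nat_lit 1) (.cons (.br (nat_lit 2) (.cons (.rel (nat_lit 84935712)) .nil)) .nil)) (.node (.node .leaf (nat_lit 628829834752626) (.br (nat_lit 0) (.cons (.br (nat_lit 1) (.cons (.rel (nat_lit 21037200)) .nil)) .nil)) .leaf) (nat_lit 628920651201437) (.br (nat_lit 0) (.cons (.br (nat_lit 2) (.cons (.rel (nat_lit 72351777)) .nil)) .nil)) .leaf))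

/-- refutations 7 -/
def e7 : EX := (.node (.node (.node (.node .leaf (nat_lit 457408681893889) (.br (nat_lit 2) (.cons (.br (nat_lit 5) (.cons (.rel (nat_lit 4362145920)) .nil)) .nil)) .leaf) (nat_lit 457408681923360) (.br (nat_lit 1) (.cons (.br (nat_lit 2) (.cons (.rel (nat_lit 100664328)) .nil)) .nil)) .leaf) (nat_lit 457408683405313) (.br (nat_lit 0) (.cons (.br (nat_lit 2) (.cons (.rel (nat_lit 75518208)) .nil)) .nil)) (.node .leaf (nat_lit 457408683406098) (.br (nat_lit 0) (.cons (.br (nat_lit 1) (.cons (.rel (nat_lit 22021128)) .nil)) .nil)) .leaf)) (nat_lit 457408683406822) (.br (nat_lit 0) (.cons (.br (nat_lit 5) (.cons (.rel (nat_lit 4301520897)) .nil)) .nil)) (.node (.node (.node .leaf (nat_lit 463902673956865) (.br (nat_lit 5) (.cons (.br (nat_lit 2) (.cons (.rel (nat_lit 4363125009)) (.cons (.rel (nat_lit 4363141128)) .nil))) .nil)) .leaf) (nat_lit 464326644243189) (.br (nat_lit 0) (.cons (.br (nat_lit 5) (.cons (.rel (nat_lit 4300226580)) .nil)) .nil))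 .leaf) (nat_lit 470766031696672) (.br (nat_lit 0) (.cons (.br (nat_lit 1) (.cons (.rel (nat_lit 25182720)) .nil)) .nil)) (.node .leaf (nat_lit 470766031762208) (.br (nat_lit 2) (.cons (.br (nat_lit 3) (.cons (.rel (nat_lit 402718752)) .nil)) .nil)) .leaf)))

/-- refutations 10 -/
def e10 : EX := (.node (.node (.node (.node (.node .leaf (nat_lit 967578969202718) (.br (nat_lit 0) (.cons (.br (nat_lit 1) (.cons (.rel (nat_lit 22021128)) .nil)) .nil)) .leaf) (nat_lit 967578969290782) (.br (nat_lit 0) (.cons (.br (nat_lit 5) (.cons (.rel (nat_lit 4300212480)) .nil)) .nil)) .leaf) (nat_lit 967578970780898) (.br (nat_lit 0) (.cons (.br (nat_lit 1) (.cons (.rel (nat_lit 22021128)) .nil)) .nil)) (.node .leaf (nat_lit 967585116977952) (.br (nat_lit 0) (.cons (.br (nat_lit 2) (.cons (.rel (nat_lit 71319696)) .nil)) .nil)) .leaf)) (nat_lit 967656278702081) (.br (nat_lit 4) (.cons (.br (nat_lit 5) (.cons (.rel (nat_lit 5369298945)) .nil)) .nil)) (.node (.node (.node .leaf (nat_lit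 967656279214755) (.br (nat_lit 0) (.cons (.br (nat_lit 1) (.cons (.rel (nat_lit 20972928)) .nil)) .nil)) .leaf) (nat_lit 967656677160961) (.br (nat_lit 0) (.cons (.br (nat_lit 2) (.cons (.rel (nat_lit 71308416)) .nil)) .nil)) .leaf) (nat_lit 967828077393921) (.br (nat_lit 4) (.cons (.br (nat_lit 6) (.cons (.rel (nat_lit 19327354881)) .nil)) .nil)) (.node .leaf (nat_lit 967828077394720) (.br (nat_lit 5) (.cons (.br (nat_lit 0) (.cons (.rel (nat_lit 8594129424)) (.cons (.rel (nat_lit 4299702528)) .nil))) .nil)) .leaf))) (nat_lit 967828078818080) (.br (nat_lit 0) (.cons (.br (nat_lit 3) (.cons (.rel (nat_lit 273679617)) .nil)) .nil)) (.node (.node (.node (.node .leaf (nat_lit 967828078882817) (.br (nat_lit 1) (.cons (.br (nat_lit 3) (.cons (.rel (nat_lit 286327824)) .nil)) .nil)) .leaf) (nat_lit 967828080424990) (.br (nat_lit 1) (.cons (.br (nat_lit 5) (.cons (.rel (nat_lit 4328588289)) .nil)) .nil)) .leaf) (nat_lit 967828979640350) (.br (nat_lit 2) (.cons (.br (nat_lit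 5) (.cons (.rel (nat_lit 4362731520)) .nil)) .nil)) (.node .leaf (nat_lit 967828980362743) (.br (nat_lit 0) (.cons (.br (nat_lit 2) (.cons (.rel (nat_lit 72360192)) .nil)) .nil)) .leaf)) (nat_lit 967834221962016) (.br (nat_lit 0) (.cons (.br (nat_lit 1) (.cons (.rel (nat_lit 37750785)) .nil)) .nil)) (.node (.node (.node .leaf (nat_lit 967834223472670) (.br (nat_lit 0) (.cons (.br (nat_lit 5) (.cons (.rel (nat_lit 4303356192)) .nil)) .nil)) .leaf) (nat_lit 967834225081830) (.br (nat_lit 1) (.cons (.br (nat_lit 2) (.cons (.rel (nat_lit 100664328)) .nil)) .nil)) .leaf) (nat_lit 967834225116663) (.br (nat_lit 1) (.cons (.br (nat_lit 3) (.cons (.rel (nat_lit 301995024)) .nil)) .nil)) (.node .leaf (nat_lit 968086384016666) (.br (nat_lit 0) (.cons (.br (nat_lit 5) (.cons (.rel (nat_lit 4300212480)) .nil)) .nil)) .leaf))))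

/-- refutations 11 -/
def e11 : EX := (.node (.node (.node (.node .leaf (nat_lit 968687973099680) (.br (nat_lit 0) (.cons (.br (nat_lit 1) (.cons (.rel (nat_lit 22020114)) .nil)) .nil)) .leaf) (nat_lit 968902721464600) (.br (nat_lit 1) (.cons (.br (nat_lit 3) (.cons (.rel (nat_lit 285220992)) .nil)) .nil)) (.node .leaf (nat_lit 969073618309121) (.br (nat_lit 0) (.cons (.br (nat_lit 3) (.cons (.rel (nat_lit 272912448)) .nil)) .nil)) .leaf)) (nat_lit 974067416460064) (.br (nat_lit 0) (.cons (.br (nat_lit 1) (.cons (.rel (nat_lit 20975748)) (.cons (.rel (nat_lit 37781760)) .nil))) .nil)) (.node (.node .leaf (nat_lit 974079105921824) (.br (nat_lit 1) (.cons (.br (nat_lit 5) (.cons (.rel (nat_lit 8606728464)) .nil)) .nil)) .leaf) (nat_lit 974079107470839) (.br (nat_lit 2) (.cons (.br (nat_lit 5) (.cons (.rel (nat_lit 4363128834)) .nil)) .nil)) .leaf)) (nat_lit 974079107565076) (.br (nat_lit 1) (.cons (.br (nat_lit 2) (.cons (.rel (nat_lit 84934662)) .nil)) .nil)) (.node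 (.node (.node .leaf (nat_lit 974328212514295) (.br (nat_lit 1) (.cons (.br (nat_lit 5) (.cons (.rel (nat_lit 8606720004)) .nil)) .nil)) .leaf) (nat_lit 974328214149121) (.br (nat_lit 1) (.cons (.br (nat_lit 2) (.cons (.rel (nat_lit 100664328)) .nil)) .nil)) .leaf) (nat_lit 974328215573990) (.br (nat_lit 1) (.cons (.br (nat_lit 3) (.cons (.rel (nat_lit 285753600)) .nil)) .nil)) (.node (.node .leaf (nat_lit 974328215631902) (.br (nat_lit 0) (.cons (.br (nat_lit 1) (.cons (.rel (nat_lit 22021128)) (.cons (.rel (nat_lit 37750785)) .nil))) (.cons (.br (nat_lit 1) (.cons (.rel (nat_lit 22021128)) (.cons (.rel (nat_lit 22021128)) .nil))) .nil))) .leaf) (nat_lit 974328215633399) (.br (nat_lit 1) (.cons (.br (nat_lit 3) (.cons (.rel (nat_lit 286278657)) (.cons (.rel (nat_lit 285753600)) .nil))) (.cons (.br (nat_lit 2) (.cons (.rel (nat_lit 100664328)) (.cons (.rel (nat_lit 100664328)) .nil))) .nil))) .leaf)))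

/-- refutations 12 -/
def e12 : EX := (.node (.node (.node (.node .leaf (nat_lit 978316995705632) (.br (nat_lit 0) (.cons (.br (nat_lit 2) (.cons (.rel (nat_lit 75518208)) .nil)) .nil)) .leaf) (nat_lit 979691678984193) (.br (nat_lit 2) (.cons (.br (nat_lit 5) (.cons (.rel (nat_lit 8657052672)) .nil)) .nil)) (.node .leaf (nat_lit 979691679311873) (.br (nat_lit 4) (.cons (.br (nat_lit 5) (.cons (.br (nat_lit 0) (.cons (.rel (nat_lit 5372908032)) (.cons (.rel (nat_lit 4300212480)) .nil))) .nil)) .nil)) .leaf)) (nat_lit 980541182013470) (.br (nat_lit 0) (.cons (.br (nat_lit 1) (.cons (.rel (nat_lit 37750785)) .nil)) .nil)) (.node (.node .leaf (nat_lit 980541183621920) (.br (nat_lit 1) (.cons (.br (nat_lit 3) (.cons (.rel (nat_lit 553680912)) (.cons (.rel (nat_lit 553713924)) .nil))) .nil)) .leaf) (nat_lit 980541183622630) (.br (nat_lit 2) (.cons (.br (nat_lit 0) (.cons (.rel (nat_lit 71308416)) (.cons (.rel (nat_lit 71308416)) .nil))) .nil)) (.node .leaf (nat_lit 980547325158176)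 (.br (nat_lit 2) (.cons (.br (nat_lit 4) (.cons (.rel (nat_lit 2214658050)) (.cons (.rel (nat_lit 1207992336)) .nil))) .nil)) .leaf))) (nat_lit 980547326668830) (.br (nat_lit 1) (.cons (.br (nat_lit 3) (.cons (.rel (nat_lit 286263552)) .nil)) .nil)) (.node (.node (.node .leaf (nat_lit 980547328218644) (.br (nat_lit 1) (.cons (.br (nat_lit 5) (.cons (.rel (nat_lit 8623491408)) .nil)) .nil)) .leaf) (nat_lit 980547328276510) (.br (nat_lit 0) (.cons (.br (nat_lit 5) (.cons (.rel (nat_lit 4299702528)) .nil)) .nil)) (.node .leaf (nat_lit 980547328277990) (.br (nat_lit 2) (.cons (.br (nat_lit 5) (.cons (.rel (nat_lit 4362731520)) (.cons (.rel (nat_lit 4429185288)) .nil))) .nil)) .leaf)) (nat_lit 980927727555360) (.br (nat_lit 0) (.cons (.br (nat_lit 1) (.cons (.rel (nat_lit 26484744)) .nil)) .nil)) (.node (.node .leaf (nat_lit 980928335964320) (.br (nat_lit 2) (.cons (.br (nat_lit 5) (.cons (.rel (nat_lit 4362092928)) .nil)) .nil)) .leaf) (nat_lit 980928335964960) (.br (nat_lit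 4) (.cons (.br (nat_lit 0) (.cons (.rel (nat_lit 1082213376)) (.cons (.rel (nat_lit 2155872336)) .nil))) .nil)) .leaf)))

/-- refutations 13 -/
def e13 : EX := (.node .leaf (nat_lit 980936317582112) (.br (nat_lit 2) (.cons (.br (nat_lit 5) (.cons (.rel (nat_lit 4363141128)) (.cons (.rel (nat_lit 4362731520)) .nil))) .nil)) .leaf)

/-- refutations 15 -/
def e15 : EX := (.node (.node (.node (.node .leaf (nat_lit 2234465350957057) (.br (nat_lit 3) (.cons (.br (nat_lit 0) (.cons (.rel (nat_lit 273679617)) (.cons (.rel (nat_lit 273678612)) .nil))) .nil)) .leaf) (nat_lit 2234465352445953) (.br (nat_lit 5) (.cons (.br (nat_lit 6) (.cons (.rel (nat_lit 21475364880)) .nil)) .nil)) (.node .leaf (nat_lit 2234465352446752) (.br (nat_lit 1) (.cons (.br (nat_lit 3) (.cons (.rel (nat_lit 286327824)) .nil)) .nil)) .leaf)) (nat_lit 2234465354022913) (.br (nat_lit 2) (.cons (.br (nat_lit 3) (.cons (.rel (nat_lit 336611337)) (.cons (.rel (nat_lit 604061697)) .nil))) .nil)) (.node (.node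 .leaf (nat_lit 2234468514951169) (.br (nat_lit 0) (.cons (.br (nat_lit 4) (.cons (.rel (nat_lit 1082134800)) .nil)) .nil)) .leaf) (nat_lit 2234468582060033) (.br (nat_lit 1) (.cons (.br (nat_lit 2) (.cons (.rel (nat_lit 84934662)) (.cons (.rel (nat_lit 84164673)) .nil))) .nil)) .leaf)) (nat_lit 2234468583638548) (.br (nat_lit 0) (.cons (.br (nat_lit 3) (.cons (.rel (nat_lit 276828168)) .nil)) .nil)) (.node (.node (.node .leaf (nat_lit 2234471754497510) (.br (nat_lit 1) (.cons (.br (nat_lit 3) (.cons (.rel (nat_lit 285220992)) .nil)) .nil)) .leaf) (nat_lit 2234479200551217) (.br (nat_lit 0) (.cons (.br (nat_lit 1) (.cons (.rel (nat_lit 25182720)) .nil)) .nil)) (.node .leaf (nat_lit 2247399517958906) (.br (nat_lit 0) (.cons (.br (nat_lit 2) (.cons (.rel (nat_lit 72450048)) .nil)) .nil)) .leaf)) (nat_lit 2247573591144449) (.br (nat_lit 2) (.cons (.br (nat_lit 3) (.cons (.rel (nat_lit 673206288)) .nil)) .nil)) (.node (.node .leaf (nat_lit 2247573594176274) (.br (nat_lit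 1) (.cons (.br (nat_lit 3) (.cons (.rel (nat_lit 285220992)) .nil)) .nil)) .leaf) (nat_lit 2247579991652353) (.br (nat_lit 2) (.cons (.br (nat_lit 4) (.cons (.rel (nat_lit 1140851841)) .nil)) .nil)) .leaf)))

/-- refutations 17 -/
def e17 : EX := (.node .leaf (nat_lit 2324325940438242) (.br (nat_lit 1) (.cons (.br (nat_lit 2) (.cons (.rel (nat_lit 84213840)) .nil)) .nil)) .leaf)

/-- refutations 20 -/
def e20 : EX := (.node .leaf (nat_lit 2375208099370490) (.br (nat_lit 0) (.cons (.br (nat_lit 3) (.cons (.rel (nat_lit 545521920)) .nil)) .nil)) .leaf)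

/-- refutations 22 -/
def e22 : EX := (.node .leaf (nat_lit 2392808882102273) (.br (nat_lit 0) (.cons (.br (nat_lit 1) (.cons (.rel (nat_lit 22021128)) .nil)) .nil)) .leaf)

/-- refutations 23 -/
def e23 : EX := (.node .leaf (nat_lit 2398426657392945) (.br (nat_lit 0) (.cons (.br (nat_lit 1) (.cons (.rel (nat_lit 20975748)) .nil)) .nil)) .leaf)

/-- refutations 25 -/
def e25 : EX := (.node .leaf (nat_lit 2639085838566932) (.br (nat_lit 2) (.cons (.br (nat_lit 5) (.cons (.rel (nat_lit 8657052672)) .nil)) .nil)) .leaf)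

/-- refutations 26 -/
def e26 : EX := (.node (.node .leaf (nat_lit 2657579759667201) (.br (nat_lit 0) (.cons (.br (nat_lit 3) (.cons (.rel (nat_lit 273678612)) .nil)) .nil)) .leaf) (nat_lit 2663171807087267) (.br (nat_lit 1) (.cons (.br (nat_lit 2) (.cons (.rel (nat_lit 84934662)) .nil)) .nil)) (.node .leaf (nat_lit 2663171809547796) (.br (nat_lit 0) (.cons (.br (nat_lit 1) (.cons (.rel (nat_lit 22021128)) .nil)) .nil)) .leaf))

/-- refutations 28 -/
def e28 : EX := (.node .leaf (nat_lit 3166605980168193) (.br (nat_lit 0) (.cons (.br (nat_lit 3) (.cons (.rel (nat_lit 273678612)) .nil)) .nil)) .leaf)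

/-- refutations 29 -/
def e29 : EX := (.node (.node (.node .leaf (nat_lit 3166868513328031) (.br (nat_lit 0) (.cons (.br (nat_lit 2) (.cons (.rel (nat_lit 71565633)) .nil)) .nil)) .leaf) (nat_lit 3167037554123004) (.br (nat_lit 0) (.cons (.br (nat_lit 1) (.cons (.rel (nat_lit 25165845)) .nil)) .nil)) .leaf) (nat_lit 3167037554123059) (.br (nat_lit 0) (.cons (.br (nat_lit 1) (.cons (.rel (nat_lit 21561348)) .nil)) .nil)) (.node (.node .leaf (nat_lit 3167067214285080) (.br (nat_lit 4) (.cons (.br (nat_lit 1) (.cons (.rel (nat_lit 1091575824)) (.cons (.rel (nat_lit 1092894720)) .nil))) .nil)) .leaf) (nat_lit 3167069814149180) (.br (nat_lit 0) (.cons (.br (nat_lit 1) (.cons (.rel (nat_lit 25165845)) .nil)) .nil)) .leaf))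

/-- refutations 30 -/
def e30 : EX := (.node (.node (.node (.node (.node .leaf (nat_lit 3167114274376986) (.br (nat_lit 0) (.cons (.br (nat_lit 3) (.cons (.rel (nat_lit 273678612)) .nil)) .nil)) .leaf) (nat_lit 3167114275543041) (.br (nat_lit 0) (.cons (.br (nat_lit 2) (.cons (.rel (nat_lit 72450048)) .nil)) .nil)) .leaf) (nat_lit 3167114275615346) (.br (nat_lit 0) (.cons (.br (nat_lit 3) (.cons (.rel (nat_lit 273694722)) .nil)) .nil)) (.node .leaf (nat_lit 3167114275615381) (.br (nat_lit 0) (.cons (.br (nat_lit 3) (.cons (.rel (nat_lit 545521920)) .nil)) .nil)) .leaf)) (nat_lit 3167114276936986) (.br (nat_lit 4) (.cons (.br (nat_lit 6) (.cons (.rel (nat_lit 18254725122)) .nil)) .nil)) (.node (.node .leaf (nat_lit 3167753154914305) (.br (nat_lit 0) (.cons (.br (nat_lit 3) (.cons (.rel (nat_lit 545521920)) .nil)) .nil)) .leaf) (nat_lit 3167753154955265) (.br (nat_lit 0) (.cons (.br (nat_lit 3) (.cons (.rel (nat_lit 272711808)) (.cons (.rel (nat_lit 545521920)) (.cons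 (.rel (nat_lit 273694722)) .nil)))) .nil)) (.node .leaf (nat_lit 3167753360220446) (.br (nat_lit 0) (.cons (.br (nat_lit 1) (.cons (.rel (nat_lit 37750785)) .nil)) .nil)) .leaf))) (nat_lit 3167753385529345) (.br (nat_lit 0) (.cons (.br (nat_lit 2) (.cons (.rel (nat_lit 75497508)) .nil)) .nil)) (.node (.node (.node .leaf (nat_lit 3167754324910206) (.br (nat_lit 0) (.cons (.br (nat_lit 1) (.cons (.rel (nat_lit 20988033)) .nil)) .nil)) .leaf) (nat_lit 3167754325166880) (.br (nat_lit 0) (.cons (.br (nat_lit 1) (.cons (.rel (nat_lit 25166850)) .nil)) .nil)) (.node .leaf (nat_lit 3167754408683521) (.br (nat_lit 0) (.cons (.br (nat_lit 6) (.cons (.rel (nat_lit 34363933968)) .nil)) .nil)) .leaf)) (nat_lit 3167754409052440) (.br (nat_lit 0) (.cons (.br (nat_lit 1) (.cons (.rel (nat_lit 22167552)) .nil)) .nil)) (.node (.node .leaf (nat_lit 3167754438412289) (.br (nat_lit 0) (.cons (.br (nat_lit 3) (.cons (.rel (nat_lit 273154560)) .nil)) .nil)) .leaf) (nat_lit 3167758603315861)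 (.br (nat_lit 0) (.cons (.br (nat_lit 5) (.cons (.rel (nat_lit 4299169920)) .nil)) .nil)) (.node .leaf (nat_lit 3167891847637927) (.br (nat_lit 0) (.cons (.br (nat_lit 3) (.cons (.rel (nat_lit 273694722)) .nil)) .nil)) .leaf))))

/-- refutations 31 -/
def e31 : EX := (.node (.node (.node (.node (.node .leaf (nat_lit 3167924928440321) (.br (nat_lit 0) (.cons (.br (nat_lit 2) (.cons (.rel (nat_lit 72351777)) (.cons (.rel (nat_lit 72351777)) .nil))) .nil)) .leaf) (nat_lit 3167924928481281) (.br (nat_lit 0) (.cons (.br (nat_lit 2) (.cons (.br (nat_lit 3) (.cons (.br (nat_lit 5) (.cons (.rel (nat_lit 8858403072)) .nil)) .nil)) .nil)) .nil)) .leaf) (nat_lit 3167924929454205) (.br (nat_lit 0) (.cons (.br (nat_lit 1) (.cons (.rel (nat_lit 25166850)) .nil)) .nil)) (.node .leaf (nat_lit 3167924953534465) (.br (nat_lit 0) (.cons (.br (nat_lit 3) (.cons (.rel (nat_lit 545521920)) .nil)) .nil)) .leaf)) (nat_lit 3167924953647105) (.br (nat_lit 5) (.cons (.br (nat_lit 4) (.cons (.rel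 (nat_lit 9663676674)) (.cons (.rel (nat_lit 5369757720)) .nil))) .nil)) (.node (.node .leaf (nat_lit 3167925037420545) (.br (nat_lit 0) (.cons (.br (nat_lit 5) (.cons (.rel (nat_lit 4304666628)) .nil)) .nil)) .leaf) (nat_lit 3167925037533185) (.br (nat_lit 0) (.cons (.br (nat_lit 5) (.cons (.rel (nat_lit 4299702528)) .nil)) .nil)) (.node .leaf (nat_lit 3167926006304769) (.br (nat_lit 0) (.cons (.br (nat_lit 2) (.cons (.rel (nat_lit 71843844)) .nil)) .nil)) .leaf))) (nat_lit 3167926207703165) (.br (nat_lit 0) (.cons (.br (nat_lit 5) (.cons (.rel (nat_lit 4303356192)) .nil)) .nil)) (.node (.node (.node (.node .leaf (nat_lit 3167926208717580) (.br (nat_lit 0) (.cons (.br (nat_lit 2) (.cons (.rel (nat_lit 71319696)) .nil)) .nil)) .leaf) (nat_lit 3167926210059675) (.br (nat_lit 0) (.cons (.br (nat_lit 1) (.cons (.rel (nat_lit 25182720)) .nil)) .nil)) .leaf) (nat_lit 3167928808213155) (.br (nat_lit 0) (.cons (.br (nat_lit 4) (.cons (.rel (nat_lit 1079017473)) .nil)) .nil))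 (.node .leaf (nat_lit 3167930172653630) (.br (nat_lit 1) (.cons (.br (nat_lit 2) (.cons (.rel (nat_lit 100663314)) .nil)) .nil)) .leaf)) (nat_lit 3167930320211476) (.br (nat_lit 1) (.cons (.br (nat_lit 2) (.cons (.rel (nat_lit 150994977)) .nil)) .nil)) (.node (.node .leaf (nat_lit 3167930320722546) (.br (nat_lit 0) (.cons (.br (nat_lit 2) (.cons (.rel (nat_lit 71565633)) .nil)) .nil)) .leaf) (nat_lit 3167930425477900) (.br (nat_lit 0) (.cons (.br (nat_lit 3) (.cons (.rel (nat_lit 273154560)) .nil)) .nil)) (.node .leaf (nat_lit 3168120417873921) (.br (nat_lit 0) (.cons (.br (nat_lit 2) (.cons (.rel (nat_lit 138547200)) .nil)) .nil)) .leaf))))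

/-- refutations 32 -/
def e32 : EX := (.node (.node .leaf (nat_lit 3168754805994258) (.br (nat_lit 0) (.cons (.br (nat_lit 3) (.cons (.rel (nat_lit 276825348)) .nil)) .nil)) .leaf) (nat_lit 3168754807601438) (.br (nat_lit 0) (.cons (.br (nat_lit 1) (.cons (.rel (nat_lit 37749780)) .nil)) .nil)) .leaf)

/-- refutations 33 -/
def e33 : EX := (.node (.node .leaf (nat_lit 3168956883687560) (.br (nat_lit 0) (.cons (.br (nat_lit 1) (.cons (.rel (nat_lit 22021128)) .nil)) .nil)) .leaf) (nat_lit 3168961217628965) (.br (nat_lit 0) (.cons (.br (nat_lit 1) (.cons (.rel (nat_lit 20988033)) .nil)) .nil)) .leaf)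

/-- refutations 34 -/
def e34 : EX := (.node (.node (.node .leaf (nat_lit 3169188927760510) (.br (nat_lit 0) (.cons (.br (nat_lit 1) (.cons (.rel (nat_lit 21561348)) .nil)) .nil)) .leaf) (nat_lit 3169256997120935) (.br (nat_lit 0) (.cons (.br (nat_lit 1) (.cons (.rel (nat_lit 25166850)) .nil)) .nil)) (.node .leaf (nat_lit 3169259626764313) (.br (nat_lit 3) (.cons (.br (nat_lit 6) (.cons (.rel (nat_lit 17449353249)) .nil)) .nil)) .leaf)) (nat_lit 3169261863854360) (.br (nat_lit 0) (.cons (.br (nat_lit 1) (.cons (.rel (nat_lit 25165845)) .nil)) .nil)) (.node (.node .leaf (nat_lit 3169262136801405) (.br (nat_lit 4) (.cons (.br (nat_lit 5) (.cons (.rel (nat_lit 6442451457)) .nil)) .nil)) .leaf) (nat_lit 3169262137825340) (.br (nat_lit 0) (.cons (.br (nat_lit 3) (.cons (.rel (nat_lit 273154560)) .nil)) .nil)) .leaf))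

/-- refutations 35 -/
def e35 : EX := (.node (.node (.node .leaf (nat_lit 3172176945592605) (.br (nat_lit 0) (.cons (.br (nat_lit 1) (.cons (.rel (nat_lit 25235712)) .nil)) .nil)) .leaf) (nat_lit 3172176946063361) (.br (nat_lit 0) (.cons (.br (nat_lit 3) (.cons (.rel (nat_lit 273154560)) .nil)) .nil)) (.node .leaf (nat_lit 3172176946064021) (.br (nat_lit 0) (.cons (.br (nat_lit 3) (.cons (.rel (nat_lit 272711808)) .nil)) .nil)) .leaf)) (nat_lit 3172176948552986) (.br (nat_lit 0) (.cons (.br (nat_lit 3) (.cons (.rel (nat_lit 273154560)) .nil)) .nil)) (.node (.node .leaf (nat_lit 3172177577195521) (.br (nat_lit 0) (.cons (.br (nat_lit 2) (.cons (.rel (nat_lit 71565633)) .nil)) .nil)) .leaf) (nat_lit 3172182337024661) (.br (nat_lit 0) (.cons (.br (nat_lit 3) (.cons (.rel (nat_lit 545521920)) .nil)) .nil)) (.node .leaf (nat_lit 3172182338344961) (.br (nat_lit 0) (.cons (.br (nat_lit 3) (.cons (.rel (nat_lit 273743889)) .nil)) .nil)) .leaf)))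

/-- refutations 36 -/
def e36 : EX := (.node (.node (.node (.node .leaf (nat_lit 3172221091154720) (.br (nat_lit 0) (.cons (.br (nat_lit 6) (.cons (.rel (nat_lit 34363998240)) .nil)) .nil)) .leaf) (nat_lit 3172223566777251) (.br (nat_lit 0) (.cons (.br (nat_lit 3) (.cons (.rel (nat_lit 273154560)) .nil)) .nil)) .leaf) (nat_lit 3172225370010535) (.br (nat_lit 0) (.cons (.br (nat_lit 3) (.cons (.rel (nat_lit 273154560)) .nil)) .nil)) (.node .leaf (nat_lit 3172238385560489) (.br (nat_lit 0) (.cons (.br (nat_lit 1) (.cons (.rel (nat_lit 21037200)) .nil)) .nil)) .leaf)) (nat_lit 3172242572642435) (.br (nat_lit 0) (.cons (.br (nat_lit 1) (.cons (.rel (nat_lit 22020114)) .nil)) .nil)) (.node (.node .leaf (nat_lit 3173044554092545) (.br (nat_lit 0) (.cons (.br (nat_lit 1) (.cons (.rel (nat_lit 25182720)) .nil)) .nil)) .leaf) (nat_lit 3173049921626113) (.br (nat_lit 0) (.cons (.br (nat_lit 2) (.cons (.rel (nat_lit 75518208)) .nil)) .nil)) (.node .leaf (nat_lit 3173050005512952)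 (.br (nat_lit 1) (.cons (.br (nat_lit 2) (.cons (.rel (nat_lit 101188704)) .nil)) .nil)) .leaf)))

/-- refutations 37 -/
def e37 : EX := (.node (.node (.node (.node .leaf (nat_lit 3173096096790529) (.br (nat_lit 0) (.cons (.br (nat_lit 1) (.cons (.rel (nat_lit 22021128)) .nil)) .nil)) .leaf) (nat_lit 3173345287553699) (.br (nat_lit 0) (.cons (.br (nat_lit 3) (.cons (.rel (nat_lit 273743889)) .nil)) .nil)) .leaf) (nat_lit 3173345287554551) (.br (nat_lit 2) (.cons (.br (nat_lit 4) (.cons (.rel (nat_lit 1140850836)) .nil)) .nil)) (.node (.node .leaf (nat_lit 3173350422607873) (.br (nat_lit 0) (.cons (.br (nat_lit 1) (.cons (.rel (nat_lit 20972928)) .nil)) .nil)) .leaf) (nat_lit 3173350422607902) (.br (nat_lit 1) (.cons (.br (nat_lit 2) (.cons (.rel (nat_lit 84213840)) .nil)) .nil)) .leaf)) (nat_lit 3173350422608658) (.br (nat_lit 2) (.cons (.br (nat_lit 3) (.cons (.rel (nat_lit 335544960)) .nil)) .nil)) (.node (.node (.node .leaf (nat_lit 3173350652992419) (.br (nat_lit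 0) (.cons (.br (nat_lit 1) (.cons (.rel (nat_lit 25182720)) .nil)) .nil)) .leaf) (nat_lit 3173488090712846) (.br (nat_lit 0) (.cons (.br (nat_lit 1) (.cons (.rel (nat_lit 22167552)) .nil)) .nil)) .leaf) (nat_lit 3173489037017870) (.br (nat_lit 0) (.cons (.br (nat_lit 3) (.cons (.rel (nat_lit 273679617)) .nil)) .nil)) (.node .leaf (nat_lit 3173489038625550) (.br (nat_lit 0) (.cons (.br (nat_lit 2) (.cons (.rel (nat_lit 75497508)) (.cons (.rel (nat_lit 72360192)) .nil))) .nil)) .leaf)))

/-- refutations 38 -/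
def e38 : EX := (.node (.node (.node (.node .leaf (nat_lit 3173517085926152) (.br (nat_lit 0) (.cons (.br (nat_lit 2) (.cons (.rel (nat_lit 72353796)) .nil)) .nil)) .leaf) (nat_lit 3173523272524552) (.br (nat_lit 1) (.cons (.br (nat_lit 2) (.cons (.rel (nat_lit 151003392)) .nil)) .nil)) .leaf) (nat_lit 3174153301637797) (.br (nat_lit 0) (.cons (.br (nat_lit 1) (.cons (.rel (nat_lit 22020114)) .nil)) .nil)) (.node .leaf (nat_lit 3174153301638045) (.br (nat_lit 1) (.cons (.br (nat_lit 5) (.cons (.rel (nat_lit 4314104832)) (.cons (.rel (nat_lit 8606720004)) .nil))) .nil)) .leaf)) (nat_lit 3174153909954561) (.br (nat_lit 1) (.cons (.br (nat_lit 3) (.cons (.rel (nat_lit 285605952)) .nil)) .nil)) (.node (.node .leaf (nat_lit 3174153909954685) (.br (nat_lit 4) (.cons (.br (nat_lit 0) (.cons (.rel (nat_lit 1077936288)) (.cons (.rel (nat_lit 1080295680)) .nil))) .nil)) .leaf) (nat_lit 3174153910282365) (.br (nat_lit 0) (.cons (.br (nat_lit 2) (.cons (.rel (nat_lit 72360192))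 .nil)) .nil)) (.node .leaf (nat_lit 3174588631173381) (.br (nat_lit 3) (.cons (.br (nat_lit 4) (.cons (.rel (nat_lit 1610678289)) .nil)) .nil)) .leaf)))

/-- refutations 39 -/
def e39 : EX := (.node (.node (.node .leaf (nat_lit 3177340692058912) (.br (nat_lit 0) (.cons (.br (nat_lit 1) (.cons (.rel (nat_lit 20988033)) .nil)) .nil)) .leaf) (nat_lit 3177340775688972) (.br (nat_lit 2) (.cons (.br (nat_lit 0) (.cons (.rel (nat_lit 71319696)) (.cons (.rel (nat_lit 71565633)) .nil))) .nil)) (.node .leaf (nat_lit 3177340776732957) (.br (nat_lit 0) (.cons (.br (nat_lit 4) (.cons (.rel (nat_lit 1077936288)) .nil)) .nil)) .leaf)) (nat_lit 3177373856491521) (.br (nat_lit 0) (.cons (.br (nat_lit 3) (.cons (.rel (nat_lit 273679617)) .nil)) .nil)) (.node (.node .leaf (nat_lit 3177373856492181) (.br (nat_lit 3) (.cons (.br (nat_lit 4) (.cons (.rel (nat_lit 1610678289)) .nil)) .nil)) .leaf) (nat_lit 3177373858981146) (.br (nat_lit 0) (.cons (.br (nat_lit 4) (.cons (.rel (nat_lit 1079055360))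 .nil)) .nil)) .leaf))

/-- refutations 40 -/
def e40 : EX := (.node (.node (.node (.node .leaf (nat_lit 3177641192784129) (.br (nat_lit 3) (.cons (.br (nat_lit 1) (.cons (.rel (nat_lit 286278657)) (.cons (.rel (nat_lit 285220992)) .nil))) .nil)) .leaf) (nat_lit 3178410122200320) (.br (nat_lit 0) (.cons (.br (nat_lit 3) (.cons (.rel (nat_lit 274726992)) .nil)) .nil)) .leaf) (nat_lit 3178410124697660) (.br (nat_lit 0) (.cons (.br (nat_lit 3) (.cons (.rel (nat_lit 273743889)) .nil)) .nil)) (.node (.node .leaf (nat_lit 3178410145679645) (.br (nat_lit 1) (.cons (.br (nat_lit 2) (.cons (.rel (nat_lit 100664328)) .nil)) .nil)) .leaf) (nat_lit 3178411160813569) (.br (nat_lit 0) (.cons (.br (nat_lit 1) (.cons (.rel (nat_lit 42221856)) .nil)) .nil)) .leaf)) (nat_lit 3178447599341021) (.br (nat_lit 0) (.cons (.br (nat_lit 1) (.cons (.rel (nat_lit 25166850)) .nil)) .nil)) (.node (.node (.node .leaf (nat_lit 3178448877250840) (.br (nat_lit 1) (.cons (.br (nat_lit 3) (.cons (.rel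 (nat_lit 285605952)) .nil)) .nil)) .leaf) (nat_lit 3178450367581466) (.br (nat_lit 0) (.cons (.br (nat_lit 1) (.cons (.rel (nat_lit 20988033)) .nil)) .nil)) .leaf) (nat_lit 3178451269357021) (.br (nat_lit 0) (.cons (.br (nat_lit 3) (.cons (.rel (nat_lit 545521920)) .nil)) .nil)) (.node .leaf (nat_lit 3178451480094721) (.br (nat_lit 0) (.cons (.br (nat_lit 1) (.cons (.rel (nat_lit 20972928)) .nil)) .nil)) .leaf)))

/-- refutations 41 -/
def e41 : EX := (.node (.node .leaf (nat_lit 3178665114963226) (.br (nat_lit 0) (.cons (.br (nat_lit 2) (.cons (.rel (nat_lit 75498513)) .nil)) .nil)) .leaf) (nat_lit 3178667592121606) (.br (nat_lit 0) (.cons (.br (nat_lit 2) (.cons (.rel (nat_lit 71308416)) .nil)) .nil)) (.node .leaf (nat_lit 3178713886288158) (.br (nat_lit 0) (.cons (.br (nat_lit 2) (.cons (.rel (nat_lit 71565633)) .nil)) .nil)) .leaf))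

/-- refutations 42 -/
def e42 : EX := (.node .leaf (nat_lit 3179487211016254) (.br (nat_lit 0) (.cons (.br (nat_lit 1) (.cons (.rel (nat_lit 22020114)) .nil)) .nil)) .leaf)

/-- refutations 43 -/
def e43 : EX := (.node (.node (.node (.node (.node .leaf (nat_lit 3179737367439637) (.br (nat_lit 3) (.cons (.br (nat_lit 4) (.cons (.rel (nat_lit 1343250432)) .nil)) .nil)) .leaf) (nat_lit 3179737367439640) (.br (nat_lit 0) (.cons (.br (nat_lit 6) (.cons (.rel (nat_lit 17188274436)) .nil)) .nil)) .leaf) (nat_lit 3179737367756925) (.br (nat_lit 0) (.cons (.br (nat_lit 3) (.cons (.rel (nat_lit 273679617)) .nil)) .nil)) (.node .leaf (nat_lit 3179737369098365) (.br (nat_lit 0) (.cons (.br (nat_lit 1) (.cons (.rel (nat_lit 22024704)) .nil)) .nil)) .leaf)) (nat_lit 3179738711225597) (.br (nat_lit 0) (.cons (.br (nat_lit 1) (.cons (.rel (nat_lit 22021128)) .nil)) .nil)) (.node (.node .leaf (nat_lit 3179741333945080) (.br (nat_lit 0) (.cons (.br (nat_lit 2) (.cons (.rel (nat_lit 72353796))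 .nil)) .nil)) .leaf) (nat_lit 3179741562000021) (.br (nat_lit 0) (.cons (.br (nat_lit 1) (.cons (.rel (nat_lit 20972928)) .nil)) .nil)) (.node .leaf (nat_lit 3179787628112649) (.br (nat_lit 0) (.cons (.br (nat_lit 2) (.cons (.rel (nat_lit 71308416)) .nil)) .nil)) .leaf))) (nat_lit 3179790398380668) (.br (nat_lit 3) (.cons (.br (nat_lit 0) (.cons (.rel (nat_lit 545333568)) (.cons (.rel (nat_lit 541134864)) .nil))) .nil)) (.node (.node (.node .leaf (nat_lit 3179801674836895) (.br (nat_lit 0) (.cons (.br (nat_lit 2) (.cons (.rel (nat_lit 71843844)) .nil)) .nil)) .leaf) (nat_lit 3179908935516440) (.br (nat_lit 5) (.cons (.br (nat_lit 1) (.cons (.rel (nat_lit 4311810432)) (.cons (.rel (nat_lit 8623767552)) .nil))) .nil)) (.node .leaf (nat_lit 3179908935813400) (.br (nat_lit 0) (.cons (.br (nat_lit 3) (.cons (.rel (nat_lit 545521920)) .nil)) .nil)) .leaf)) (nat_lit 3179913132636190) (.br (nat_lit 0) (.cons (.br (nat_lit 1) (.cons (.rel (nat_lit 22167552)) .nil)) .nil)) (.node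 (.node .leaf (nat_lit 3179913276574607) (.br (nat_lit 0) (.cons (.br (nat_lit 1) (.cons (.rel (nat_lit 20972928)) .nil)) .nil)) .leaf) (nat_lit 3179913279477772) (.br (nat_lit 0) (.cons (.br (nat_lit 3) (.cons (.rel (nat_lit 272924745)) .nil)) .nil)) (.node .leaf (nat_lit 3179913279478386) (.br (nat_lit 2) (.cons (.br (nat_lit 4) (.cons (.rel (nat_lit 1140851841)) .nil)) .nil)) .leaf))))

/-- refutations 44 -/
def e44 : EX := (.node (.node .leaf (nat_lit 3179960099166209) (.br (nat_lit 0) (.cons (.br (nat_lit 2) (.cons (.rel (nat_lit 71843844)) .nil)) .nil)) .leaf) (nat_lit 3179962593034246) (.br (nat_lit 1) (.cons (.br (nat_lit 2) (.cons (.rel (nat_lit 151093248)) .nil)) .nil)) .leaf)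

/-- refutations 46 -/
def e46 : EX := (.node (.node (.node .leaf (nat_lit 4398094934927361) (.br (nat_lit 0) (.cons (.br (nat_lit 1) (.cons (.rel (nat_lit 22020114)) .nil)) .nil)) .leaf) (nat_lit 4398113089927300) (.br (nat_lit 0) (.cons (.br (nat_lit 1) (.cons (.rel (nat_lit 25165845)) .nil)) .nil)) .leaf) (nat_lit 4398132411033726) (.br (nat_lit 0) (.cons (.br (nat_lit 1) (.cons (.rel (nat_lit 21037200)) .nil)) .nil)) (.node (.node .leaf (nat_lit 4398132412059101) (.br (nat_lit 0) (.cons (.br (nat_lit 1) (.cons (.rel (nat_lit 25165845)) .nil)) .nil)) .leaf) (nat_lit 4398476679507206) (.br (nat_lit 0) (.cons (.br (nat_lit 4) (.cons (.rel (nat_lit 1077936288)) .nil)) .nil)) .leaf))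

/-- refutations 47 -/
def e47 : EX := (.node (.node (.node .leaf (nat_lit 4403629968590181) (.br (nat_lit 0) (.cons (.br (nat_lit 1) (.cons (.rel (nat_lit 21627393)) .nil)) .nil)) .leaf) (nat_lit 4403630640261900) (.br (nat_lit 1) (.cons (.br (nat_lit 5) (.cons (.rel (nat_lit 4312138818)) .nil)) .nil)) .leaf) (nat_lit 4403631247964217) (.br (nat_lit 0) (.cons (.br (nat_lit 6) (.cons (.rel (nat_lit 34363936788)) (.cons (.rel (nat_lit 17184587778)) .nil))) .nil)) (.node .leaf (nat_lit 4403645007804548) (.br (nat_lit 1) (.cons (.br (nat_lit 2) (.cons (.rel (nat_lit 83951748)) .nil)) .nil)) .leaf))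

/-- refutations 48 -/
def e48 : EX := (.node (.node (.node .leaf (nat_lit 4405778208505114) (.br (nat_lit 1) (.cons (.br (nat_lit 2) (.cons (.rel (nat_lit 167856192)) .nil)) .nil)) .leaf) (nat_lit 4405778210293920) (.br (nat_lit 0) (.cons (.br (nat_lit 2) (.cons (.rel (nat_lit 71565633)) .nil)) .nil)) .leaf) (nat_lit 4408793274365953) (.br (nat_lit 0) (.cons (.br (nat_lit 4) (.cons (.rel (nat_lit 1079002368)) .nil)) .nil)) (.node (.node .leaf (nat_lit 4408793274879258) (.br (nat_lit 1) (.cons (.br (nat_lit 3) (.cons (.rel (nat_lit 570429504)) .nil)) .nil)) .leaf) (nat_lit 4409094446324968) (.br (nat_lit 0) (.cons (.br (nat_lit 1) (.cons (.rel (nat_lit 21037200)) .nil)) .nil)) .leaf))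

/-- refutations 49 -/
def e49 : EX := (.node (.node (.node .leaf (nat_lit 4411146834053182) (.br (nat_lit 0) (.cons (.br (nat_lit 1) (.cons (.rel (nat_lit 22020114)) .nil)) .nil)) .leaf) (nat_lit 4411146834054406) (.br (nat_lit 0) (.cons (.br (nat_lit 2) (.cons (.rel (nat_lit 138413061)) .nil)) .nil)) (.node .leaf (nat_lit 4411240650893438) (.br (nat_lit 1) (.cons (.br (nat_lit 0) (.cons (.rel (nat_lit 20972928)) (.cons (.rel (nat_lit 21037200)) .nil))) .nil)) .leaf)) (nat_lit 4411240650893598) (.br (nat_lit 0) (.cons (.br (nat_lit 4) (.cons (.rel (nat_lit 1079017473)) .nil)) .nil)) (.node (.node .leaf (nat_lit 4411240650894217) (.br (nat_lit 0) (.cons (.br (nat_lit 1) (.cons (.rel (nat_lit 25182720)) .nil)) .nil)) .leaf) (nat_lit 4411240651221118) (.br (nat_lit 0) (.cons (.br (nat_lit 1) (.cons (.rel (nat_lit 21037200)) .nil)) .nil)) (.node .leaf (nat_lit 4411244320724993) (.br (nat_lit 3) (.cons (.br (nat_lit 4) (.cons (.rel (nat_lit 1343225862)) .nil)) .nil)) .leaf)))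

/-- refutations 52 -/
def e52 : EX := (.node (.node .leaf (nat_lit 4875460632081059) (.br (nat_lit 0) (.cons (.br (nat_lit 2) (.cons (.rel (nat_lit 72351777)) .nil)) .nil)) .leaf) (nat_lit 4879492605541152) (.br (nat_lit 0) (.cons (.br (nat_lit 1) (.cons (.rel (nat_lit 22020114)) .nil)) .nil)) .leaf)

/-- refutations 53 -/
def e53 : EX := (.node (.node (.node .leaf (nat_lit 5013859593605121) (.br (nat_lit 0) (.cons (.br (nat_lit 1) (.cons (.rel (nat_lit 25166850)) .nil)) .nil)) .leaf) (nat_lit 5014031475783681) (.br (nat_lit 2) (.cons (.br (nat_lit 3) (.cons (.rel (nat_lit 402658305)) .nil)) .nil)) (.node .leaf (nat_lit 5014031476255520) (.br (nat_lit 0) (.cons (.br (nat_lit 1) (.cons (.rel (nat_lit 25166850)) .nil)) .nil)) .leaf)) (nat_lit 5016135401728305) (.br (nat_lit 0) (.cons (.br (nat_lit 3) (.cons (.rel (nat_lit 272640129)) .nil)) .nil)) (.node (.node .leaf (nat_lit 5016136009902385) (.br (nat_lit 0) (.cons (.br (nat_lit 5) (.cons (.rel (nat_lit 4300226580))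 .nil)) .nil)) .leaf) (nat_lit 5016136010229761) (.br (nat_lit 0) (.cons (.br (nat_lit 3) (.cons (.rel (nat_lit 276889620)) .nil)) .nil)) .leaf))

/-- refutations 54 -/
def e54 : EX := (.node (.node .leaf (nat_lit 5016393100093715) (.br (nat_lit 0) (.cons (.br (nat_lit 2) (.cons (.rel (nat_lit 138412056)) .nil)) .nil)) .leaf) (nat_lit 5019420542566705) (.br (nat_lit 0) (.cons (.br (nat_lit 4) (.cons (.rel (nat_lit 2155872336)) .nil)) .nil)) (.node .leaf (nat_lit 5021811010385921) (.br (nat_lit 0) (.cons (.br (nat_lit 2) (.cons (.rel (nat_lit 71308416)) .nil)) .nil)) .leaf))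

/-- refutations 55 -/
def e55 : EX := (.node (.node (.node (.node .leaf (nat_lit 5024519786063873) (.br (nat_lit 0) (.cons (.br (nat_lit 5) (.cons (.rel (nat_lit 4300226580)) .nil)) .nil)) .leaf) (nat_lit 5025885879122720) (.br (nat_lit 2) (.cons (.br (nat_lit 4) (.cons (.rel (nat_lit 2214597648)) .nil)) .nil)) .leaf) (nat_lit 5025885881948465) (.br (nat_lit 2) (.cons (.br (nat_lit 3) (.cons (.rel (nat_lit 402718752)) .nil)) .nil)) (.node .leaf (nat_lit 5025898877157377) (.br (nat_lit 0) (.cons (.br (nat_lit 1) (.cons (.rel (nat_lit 25166850)) .nil)) .nil)) .leaf)) (nat_lit 5025898877157662) (.br (nat_lit 0) (.cons (.br (nat_lit 6) (.cons (.rel (nat_lit 34368389121)) (.cons (.rel (nat_lit 17185116420)) .nil))) .nil)) (.node (.node .leaf (nat_lit 5027130519347505) (.br (nat_lit 0) (.cons (.br (nat_lit 2) (.cons (.rel (nat_lit 72351777)) (.cons (.rel (nat_lit 138412056)) .nil))) .nil)) .leaf) (nat_lit 5027131126179841) (.br (nat_lit 0) (.cons (.br (nat_lit 1) (.cons (.rel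 (nat_lit 25165845)) .nil)) .nil)) (.node .leaf (nat_lit 5027179090974721) (.br (nat_lit 2) (.cons (.br (nat_lit 4) (.cons (.rel (nat_lit 2283815940)) .nil)) .nil)) .leaf)))

/-- refutations 56 -/
def e56 : EX := (.node (.node .leaf (nat_lit 5277722287834344) (.br (nat_lit 0) (.cons (.br (nat_lit 2) (.cons (.rel (nat_lit 71308416)) .nil)) .nil)) .leaf) (nat_lit 5278171964898586) (.br (nat_lit 0) (.cons (.br (nat_lit 5) (.cons (.rel (nat_lit 8598327360)) .nil)) .nil)) .leaf)

/-- refutations 57 -/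
def e57 : EX := (.node (.node (.node .leaf (nat_lit 5279180034931970) (.br (nat_lit 0) (.cons (.br (nat_lit 3) (.cons (.rel (nat_lit 541073412)) .nil)) .nil)) .leaf) (nat_lit 5280275953346865) (.br (nat_lit 0) (.cons (.br (nat_lit 1) (.cons (.rel (nat_lit 22020114)) .nil)) .nil)) .leaf) (nat_lit 5289472216293637) (.br (nat_lit 3) (.cons (.br (nat_lit 5) (.cons (.rel (nat_lit 4565500224)) .nil)) .nil)) (.node (.node .leaf (nat_lit 5289515187293670) (.br (nat_lit 3) (.cons (.br (nat_lit 5) (.cons (.rel (nat_lit 4563665985)) .nil)) .nil)) .leaf) (nat_lit 5289515188215270) (.br (nat_lit 1) (.cons (.br (nat_lit 2) (.cons (.rel (nat_lit 84959232)) .nil)) .nil)) .leaf))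

/-- refutations 58 -/
def e58 : EX := (.node .leaf (nat_lit 5290759136532606) (.br (nat_lit 2) (.cons (.br (nat_lit 3) (.cons (.rel (nat_lit 336599040)) .nil)) .nil)) .leaf)

/-- refutations 59 -/
def e59 : EX := (.node .leaf (nat_lit 5366136040396830) (.br (nat_lit 1) (.cons (.br (nat_lit 3) (.cons (.rel (nat_lit 553713924)) .nil)) .nil)) .leaf)

/-- refutations 60 -/
def e60 : EX := (.node (.node .leaf (nat_lit 5373177144300946) (.br (nat_lit 0) (.cons (.br (nat_lit 2) (.cons (.rel (nat_lit 71319696)) .nil)) .nil)) .leaf) (nat_lit 5373177145877405) (.br (nat_lit 0) (.cons (.br (nat_lit 3) (.cons (.rel (nat_lit 276889620)) .nil)) .nil)) (.node .leaf (nat_lit 5376363947426717) (.br (nat_lit 2) (.cons (.br (nat_lit 3) (.cons (.rel (nat_lit 336593160)) (.cons (.rel (nat_lit 336089088)) .nil))) .nil)) .leaf))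

/-- refutations 61 -/
def e61 : EX := (.node (.node (.node .leaf (nat_lit 5378510466128547) (.br (nat_lit 0) (.cons (.br (nat_lit 3) (.cons (.rel (nat_lit 276825348)) .nil)) .nil)) .leaf) (nat_lit 5378510466312867) (.br (nat_lit 3) (.cons (.br (nat_lit 4) (.cons (.rel (nat_lit 1610629122)) .nil)) .nil)) .leaf) (nat_lit 5378510906572278) (.br (nat_lit 0) (.cons (.br (nat_lit 1) (.cons (.rel (nat_lit 22020114)) .nil)) .nil)) (.node .leaf (nat_lit 5378510906714787) (.br (nat_lit 1) (.cons (.br (nat_lit 5) (.cons (.rel (nat_lit 4312011072)) .nil)) .nil)) .leaf))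

/-- refutations 65 -/
def e65 : EX := (.node .leaf (nat_lit 5482222541391873) (.br (nat_lit 0) (.cons (.br (nat_lit 4) (.cons (.rel (nat_lit 1079066640)) .nil)) .nil)) .leaf)

/-- refutations 67 -/
def e67 : EX := (.node (.node .leaf (nat_lit 10997481785525631) (.br (nat_lit 0) (.cons (.br (nat_lit 1) (.cons (.rel (nat_lit 37781760)) .nil)) .nil)) .leaf) (nat_lit 10997484801598375) (.br (nat_lit 0) (.cons (.br (nat_lit 3) (.cons (.rel (nat_lit 273678612)) .nil)) .nil)) .leaf)

/-- refutations 68 -/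
def e68 : EX := (.node .leaf (nat_lit 11008430825811456) (.br (nat_lit 0) (.cons (.br (nat_lit 1) (.cons (.rel (nat_lit 22020114)) .nil)) .nil)) .leaf)

/-- refutations 70 -/
def e70 : EX := (.node (.node .leaf (nat_lit 11171301124138490) (.br (nat_lit 0) (.cons (.br (nat_lit 1) (.cons (.rel (nat_lit 42013761)) .nil)) .nil)) .leaf) (nat_lit 11176668216914720) (.br (nat_lit 0) (.cons (.br (nat_lit 2) (.cons (.rel (nat_lit 71897604)) .nil)) .nil)) .leaf)

/-- refutations 71 -/
def e71 : EX := (.node (.node .leaf (nat_lit 11183163821320193) (.br (nat_lit 1) (.cons (.br (nat_lit 2) (.cons (.rel (nat_lit 84959232)) .nil)) .nil)) .leaf) (nat_lit 11183163913594881) (.br (nat_lit 0) (.cons (.br (nat_lit 3) (.cons (.rel (nat_lit 545521920)) .nil)) .nil)) (.node .leaf (nat_lit 11184398674422560) (.br (nat_lit 0) (.cons (.br (nat_lit 1) (.cons (.rel (nat_lit 37750785)) .nil)) .nil)) .leaf))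

/-- refutations 72 -/
def e72 : EX := (.node .leaf (nat_lit 11188897397860514) (.br (nat_lit 0) (.cons (.br (nat_lit 1) (.cons (.rel (nat_lit 23134548)) .nil)) .nil)) .leaf)

/-- refutations 73 -/
def e73 : EX := (.node (.node (.node .leaf (nat_lit 11196364100844320) (.br (nat_lit 5) (.cons (.br (nat_lit 0) (.cons (.rel (nat_lit 8594260992)) (.cons (.rel (nat_lit 4300226580)) .nil))) .nil)) .leaf) (nat_lit 11199476110746535) (.br (nat_lit 0) (.cons (.br (nat_lit 1) (.cons (.rel (nat_lit 21561348)) .nil)) .nil)) .leaf) (nat_lit 11199680255946784) (.br (nat_lit 2) (.cons (.br (nat_lit 5) (.cons (.rel (nat_lit 4362731520)) .nil)) .nil)) (.node (.node .leaf (nat_lit 11199680256213279) (.br (nat_lit 0) (.cons (.br (nat_lit 1) (.cons (.rel (nat_lit 25182720)) .nil)) .nil)) .leaf) (nat_lit 11200753557420832) (.br (nat_lit 2) (.cons (.br (nat_lit 5) (.cons (.rel (nat_lit 4362145920)) .nil)) .nil)) .leaf))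

/-- refutations 74 -/
def e74 : EX := (.node (.node .leaf (nat_lit 11012772393959581) (.br (nat_lit 3) (.cons (.br (nat_lit 4) (.cons (.rel (nat_lit 1610616837)) .nil)) .nil)) .leaf) (nat_lit 11012772393960960) (.br (nat_lit 1) (.cons (.br (nat_lit 3) (.cons (.rel (nat_lit 570703893)) .nil)) .nil)) (.node .leaf (nat_lit 11018596369612957) (.br (nat_lit 0) (.cons (.br (nat_lit 5) (.cons (.rel (nat_lit 8598327360)) .nil)) .nil)) .leaf))

/-- refutations 77 -/
def e77 : EX := (.node .leaf (nat_lit 11624158238414176) (.br (nat_lit 0) (.cons (.br (nat_lit 1) (.cons (.rel (nat_lit 20975748)) .nil)) .nil)) .leaf)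

/-- refutations 78 -/
def e78 : EX := (.node (.node (.node (.node .leaf (nat_lit 11962735228651580) (.br (nat_lit 6) (.cons (.br (nat_lit 1) (.cons (.rel (nat_lit 17213424132)) (.cons (.rel (nat_lit 17197712640)) .nil))) .nil)) .leaf) (nat_lit 11962735228959350) (.br (nat_lit 0) (.cons (.br (nat_lit 1) (.cons (.rel (nat_lit 22021128)) .nil)) .nil)) (.node .leaf (nat_lit 11962735900037906) (.br (nat_lit 1) (.cons (.br (nat_lit 2) (.cons (.rel (nat_lit 83951748)) .nil)) .nil)) .leaf)) (nat_lit 11964023424206080) (.br (nat_lit 0) (.cons (.br (nat_lit 1) (.cons (.rel (nat_lit 25174308)) .nil)) .nil)) (.node (.node .leaf (nat_lit 11964023425546300) (.br (nat_lit 1) (.cons (.br (nat_lit 2) (.cons (.rel (nat_lit 100663314)) .nil)) .nil)) .leaf) (nat_lit 11965354863564860) (.br (nat_lit 0) (.cons (.br (nat_lit 3) (.cons (.rel (nat_lit 273678612)) .nil)) .nil)) (.node .leaf (nat_lit 11965354863750400) (.br (nat_lit 1) (.cons (.br (nat_lit 4) (.cons (.br (nat_lit 5) (.cons (.rel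 (nat_lit 5368713345)) .nil)) .nil)) .nil)) .leaf))) (nat_lit 11965354863774476) (.br (nat_lit 1) (.cons (.br (nat_lit 4) (.cons (.rel (nat_lit 1107363072)) .nil)) .nil)) (.node (.node (.node .leaf (nat_lit 11965354864784860) (.br (nat_lit 0) (.cons (.br (nat_lit 3) (.cons (.rel (nat_lit 273154560)) .nil)) .nil)) .leaf) (nat_lit 11965354865090840) (.br (nat_lit 1) (.cons (.br (nat_lit 6) (.cons (.rel (nat_lit 17213424132)) .nil)) .nil)) (.node .leaf (nat_lit 11965354866432060) (.br (nat_lit 2) (.cons (.br (nat_lit 3) (.cons (.rel (nat_lit 402658305)) .nil)) .nil)) .leaf)) (nat_lit 11965354866432931) (.br (nat_lit 0) (.cons (.br (nat_lit 2) (.cons (.rel (nat_lit 75497508)) .nil)) .nil)) (.node (.node .leaf (nat_lit 11965354866565400) (.br (nat_lit 1) (.cons (.br (nat_lit 5) (.cons (.br (nat_lit 2) (.cons (.rel (nat_lit 4362346560)) (.cons (.rel (nat_lit 4362346560)) .nil))) .nil)) .nil)) .leaf) (nat_lit 11965354866565406) (.br (nat_lit 1) (.cons (.br (nat_lit 4) (.cons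 (.rel (nat_lit 2164277265)) .nil)) .nil)) .leaf)))

/-- refutations 79 -/
def e79 : EX := (.node (.node (.node (.node .leaf (nat_lit 11968279233021339) (.br (nat_lit 1) (.cons (.br (nat_lit 2) (.cons (.rel (nat_lit 84935712)) .nil)) .nil)) .leaf) (nat_lit 11968314199695640) (.br (nat_lit 0) (.cons (.br (nat_lit 2) (.cons (.rel (nat_lit 75518208)) .nil)) .nil)) .leaf) (nat_lit 11968571372953775) (.br (nat_lit 0) (.cons (.br (nat_lit 5) (.cons (.rel (nat_lit 4299169920)) .nil)) .nil)) (.node .leaf (nat_lit 11968571373455665) (.br (nat_lit 0) (.cons (.br (nat_lit 1) (.cons (.rel (nat_lit 37749780)) (.cons (.rel (nat_lit 20975748)) (.cons (.rel (nat_lit 37750785)) .nil)))) .nil)) .leaf)) (nat_lit 11968576614789295) (.br (nat_lit 1) (.cons (.br (nat_lit 5) (.cons (.rel (nat_lit 4328538117)) .nil)) .nil)) (.node (.node .leaf (nat_lit 11969142841742089) (.br (nat_lit 1) (.cons (.br (nat_lit 3) (.cons (.rel (nat_lit 301990149)) .nil)) .nil)) .leaf) (nat_lit 11973435710861589)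 (.br (nat_lit 0) (.cons (.br (nat_lit 2) (.cons (.rel (nat_lit 72351777)) .nil)) .nil)) (.node .leaf (nat_lit 11973467552134056) (.br (nat_lit 0) (.cons (.br (nat_lit 1) (.cons (.rel (nat_lit 22167552)) .nil)) .nil)) .leaf)))

/-- refutations 80 -/
def e80 : EX := (.node (.node (.node .leaf (nat_lit 11974544289980591) (.br (nat_lit 1) (.cons (.br (nat_lit 2) (.cons (.rel (nat_lit 83951748)) .nil)) .nil)) .leaf) (nat_lit 11974544290539580) (.br (nat_lit 3) (.cons (.br (nat_lit 5) (.cons (.rel (nat_lit 9127067664)) .nil)) .nil)) (.node .leaf (nat_lit 11975788929075505) (.br (nat_lit 1) (.cons (.br (nat_lit 3) (.cons (.rel (nat_lit 301995024)) .nil)) .nil)) .leaf)) (nat_lit 11975789831056291) (.br (nat_lit 0) (.cons (.br (nat_lit 1) (.cons (.rel (nat_lit 20972928)) .nil)) .nil)) (.node (.node .leaf (nat_lit 11975834584988925) (.br (nat_lit 1) (.cons (.br (nat_lit 3) (.cons (.rel (nat_lit 303038529)) .nil)) .nil)) .leaf) (nat_lit 11975834586635175) (.br (nat_lit 0) (.cons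 (.br (nat_lit 4) (.cons (.rel (nat_lit 1078198344)) .nil)) .nil)) (.node .leaf (nat_lit 11975886124608765) (.br (nat_lit 0) (.cons (.br (nat_lit 1) (.cons (.rel (nat_lit 22021128)) .nil)) .nil)) .leaf)))

/-- refutations 81 -/
def e81 : EX := (.node .leaf (nat_lit 11570956418408735) (.br (nat_lit 1) (.cons (.br (nat_lit 2) (.cons (.rel (nat_lit 84934662)) .nil)) .nil)) .leaf)

/-- refutations 82 -/
def e82 : EX := (.node .leaf (nat_lit 12088195354710297) (.br (nat_lit 1) (.cons (.br (nat_lit 2) (.cons (.rel (nat_lit 100667904)) .nil)) .nil)) .leaf)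

/-- refutations 83 -/
def e83 : EX := (.node (.node .leaf (nat_lit 12091220960845854) (.br (nat_lit 0) (.cons (.br (nat_lit 1) (.cons (.rel (nat_lit 25166850)) .nil)) .nil)) .leaf) (nat_lit 12092756464801793) (.br (nat_lit 0) (.cons (.br (nat_lit 1) (.cons (.rel (nat_lit 20988033)) .nil)) .nil)) .leaf)

/-- refutations 84 -/
def e84 : EX := (.node (.node .leaf (nat_lit 12096673391049486) (.br (nat_lit 1) (.cons (.br (nat_lit 2) (.cons (.rel (nat_lit 150994977)) .nil)) .nil)) .leaf) (nat_lit 12096677600896356) (.br (nat_lit 0) (.cons (.br (nat_lit 3) (.cons (.rel (nat_lit 273154560)) .nil)) .nil)) .leaf)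

/-- refutations 85 -/
def e85 : EX := (.node .leaf (nat_lit 12099037948012831) (.br (nat_lit 0) (.cons (.br (nat_lit 1) (.cons (.rel (nat_lit 20972928)) .nil)) .nil)) .leaf)

/-- refutations 86 -/
def e86 : EX := (.node (.node (.node (.node (.node (.node .leaf (nat_lit 13194154414815262) (.br (nat_lit 0) (.cons (.br (nat_lit 2) (.cons (.rel (nat_lit 72353796)) .nil)) .nil)) .leaf) (nat_lit 13194154416238622) (.br (nat_lit 2) (.cons (.br (nat_lit 5) (.cons (.rel (nat_lit 8724156504)) .nil)) .nil)) .leaf) (nat_lit 13194154416240102) (.br (nat_lit 0) (.cons (.br (nat_lit 1) (.cons (.rel (nat_lit 25182720)) .nil)) .nil)) (.node (.node .leaf (nat_lit 13194154416240119) (.br (nat_lit 1) (.cons (.br (nat_lit 4) (.cons (.rel (nat_lit 2164328454)) .nil)) .nil)) .leaf) (nat_lit 13194154417847072) (.br (nat_lit 2) (.cons (.br (nat_lit 1) (.cons (.rel (nat_lit 83923329)) (.cons (.rel (nat_lit 150996996)) .nil))) .nil)) .leaf)) (nat_lit 13194185107568641) (.br (nat_lit 0) (.cons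 (.br (nat_lit 5) (.cons (.rel (nat_lit 8598327360)) .nil)) .nil)) (.node (.node (.node .leaf (nat_lit 13194187957135361) (.br (nat_lit 0) (.cons (.br (nat_lit 3) (.cons (.rel (nat_lit 545325153)) .nil)) .nil)) .leaf) (nat_lit 13194187958456321) (.br (nat_lit 0) (.cons (.br (nat_lit 2) (.cons (.rel (nat_lit 72353796)) .nil)) .nil)) .leaf) (nat_lit 13194187959623681) (.br (nat_lit 0) (.cons (.br (nat_lit 3) (.cons (.rel (nat_lit 273679617)) .nil)) .nil)) (.node (.node .leaf (nat_lit 13194354955398045) (.br (nat_lit 0) (.cons (.br (nat_lit 1) (.cons (.rel (nat_lit 22020114)) .nil)) .nil)) .leaf) (nat_lit 13194359525069426) (.br (nat_lit 0) (.cons (.br (nat_lit 4) (.cons (.rel (nat_lit 1080295680)) .nil)) .nil)) .leaf))) (nat_lit 13194359525141786) (.br (nat_lit 0) (.cons (.br (nat_lit 3) (.cons (.rel (nat_lit 273154560)) (.cons (.rel (nat_lit 545521920)) .nil))) .nil)) (.node (.node (.node (.node .leaf (nat_lit 13194359526348801) (.br (nat_lit 0) (.cons (.br (nat_lit 3)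 (.cons (.rel (nat_lit 545521920)) .nil)) .nil)) .leaf) (nat_lit 13194359526349426) (.br (nat_lit 0) (.cons (.br (nat_lit 3) (.cons (.rel (nat_lit 545521920)) .nil)) .nil)) .leaf) (nat_lit 13194359526350106) (.br (nat_lit 0) (.cons (.br (nat_lit 3) (.cons (.rel (nat_lit 274726992)) .nil)) .nil)) (.node (.node .leaf (nat_lit 13194359526421766) (.br (nat_lit 0) (.cons (.br (nat_lit 3) (.cons (.rel (nat_lit 541073412)) .nil)) .nil)) .leaf) (nat_lit 13194359527700510) (.br (nat_lit 0) (.cons (.br (nat_lit 1) (.cons (.rel (nat_lit 20975748)) .nil)) .nil)) .leaf)) (nat_lit 13194359527701766) (.br (nat_lit 0) (.cons (.br (nat_lit 6) (.cons (.rel (nat_lit 17185113600)) .nil)) .nil)) (.node (.node (.node .leaf (nat_lit 13194397378175038) (.br (nat_lit 1) (.cons (.br (nat_lit 5) (.cons (.rel (nat_lit 4312301568)) .nil)) .nil)) .leaf) (nat_lit 13194397378175762) (.br (nat_lit 2) (.cons (.br (nat_lit 5) (.cons (.rel (nat_lit 4362145920)) .nil)) .nil)) .leaf) (nat_lit 13194397378176486)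 (.br (nat_lit 2) (.cons (.br (nat_lit 1) (.cons (.rel (nat_lit 83951748)) (.cons (.rel (nat_lit 150996996)) .nil))) .nil)) (.node .leaf (nat_lit 13194397378263041) (.br (nat_lit 3) (.cons (.br (nat_lit 4) (.cons (.rel (nat_lit 1610629122)) .nil)) .nil)) .leaf)))) (nat_lit 13194397379687200) (.br (nat_lit 5) (.cons (.br (nat_lit 0) (.cons (.rel (nat_lit 4303360017)) (.cons (.rel (nat_lit 4299702528)) .nil))) .nil)) (.node (.node (.node (.node (.node .leaf (nat_lit 13194397381234750) (.br (nat_lit 3) (.cons (.br (nat_lit 5) (.cons (.rel (nat_lit 4563927072)) .nil)) .nil)) .leaf) (nat_lit 13194397381294110) (.br (nat_lit 3) (.cons (.br (nat_lit 5) (.cons (.rel (nat_lit 9126805572)) (.cons (.rel (nat_lit 4563477633)) .nil))) .nil)) .leaf) (nat_lit 13194397381294142) (.br (nat_lit 3) (.cons (.br (nat_lit 1) (.cons (.rel (nat_lit 570429504)) (.cons (.rel (nat_lit 285220992)) .nil))) .nil)) (.node (.node .leaf (nat_lit 13194397381294880) (.br (nat_lit 2) (.cons (.br (nat_lit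 5) (.cons (.rel (nat_lit 4363125009)) .nil)) .nil)) .leaf) (nat_lit 13194397444210150) (.br (nat_lit 0) (.cons (.br (nat_lit 2) (.cons (.rel (nat_lit 71308416)) .nil)) .nil)) .leaf)) (nat_lit 13194398406134445) (.br (nat_lit 3) (.cons (.br (nat_lit 4) (.cons (.rel (nat_lit 1342455873)) .nil)) .nil)) (.node (.node (.node .leaf (nat_lit 13194398406135270) (.br (nat_lit 1) (.cons (.br (nat_lit 2) (.cons (.rel (nat_lit 84935712)) .nil)) .nil)) .leaf) (nat_lit 13194402495314720) (.br (nat_lit 0) (.cons (.br (nat_lit 3) (.cons (.rel (nat_lit 272711808)) (.cons (.rel (nat_lit 272711808)) (.cons (.rel (nat_lit 273743889)) .nil)))) .nil)) .leaf) (nat_lit 13194402495581670) (.br (nat_lit 1) (.cons (.br (nat_lit 2) (.cons (.rel (nat_lit 150994977)) .nil)) .nil)) (.node .leaf (nat_lit 13194402498346470) (.br (nat_lit 2) (.cons (.br (nat_lit 5) (.cons (.rel (nat_lit 8724414726)) .nil)) .nil)) .leaf))) (nat_lit 13194403524341790) (.br (nat_lit 1) (.cons (.br (nat_lit 5) (.cons (.rel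 (nat_lit 4312793346)) (.cons (.rel (nat_lit 8623767552)) .nil))) .nil)) (.node (.node (.node (.node .leaf (nat_lit 13194403524342560) (.br (nat_lit 2) (.cons (.br (nat_lit 5) (.cons (.rel (nat_lit 8724157509)) .nil)) .nil)) .leaf) (nat_lit 13194403524343287) (.br (nat_lit 2) (.cons (.br (nat_lit 1) (.cons (.rel (nat_lit 84934662)) (.cons (.rel (nat_lit 84935712)) .nil))) .nil)) .leaf) (nat_lit 13194403524343316) (.br (nat_lit 2) (.cons (.br (nat_lit 5) (.cons (.rel (nat_lit 4363128834)) .nil)) .nil)) (.node (.node .leaf (nat_lit 13194403524408806) (.br (nat_lit 1) (.cons (.br (nat_lit 2) (.cons (.rel (nat_lit 100664328)) .nil)) .nil)) .leaf) (nat_lit 13194403525891604) (.br (nat_lit 1) (.cons (.br (nat_lit 2) (.cons (.rel (nat_lit 100664328)) .nil)) .nil)) .leaf)) (nat_lit 13194658117079840) (.br (nat_lit 0) (.cons (.br (nat_lit 1) (.cons (.rel (nat_lit 25182720)) .nil)) .nil)) (.node (.node (.node .leaf (nat_lit 13194660319686718) (.br (nat_lit 0) (.cons (.br (nat_lit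 3) (.cons (.rel (nat_lit 545521920)) .nil)) .nil)) .leaf) (nat_lit 13194660320931841) (.br (nat_lit 3) (.cons (.br (nat_lit 4) (.cons (.rel (nat_lit 2416001040)) .nil)) .nil)) .leaf) (nat_lit 13194660322246718) (.br (nat_lit 0) (.cons (.br (nat_lit 3) (.cons (.rel (nat_lit 276828168)) (.cons (.rel (nat_lit 273154560)) .nil))) .nil)) (.node .leaf (nat_lit 13194660322254106) (.br (nat_lit 0) (.cons (.br (nat_lit 4) (.cons (.rel (nat_lit 1078460436)) .nil)) .nil)) .leaf)))))

/-- refutations 87 -/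
def e87 : EX := (.node (.node (.node .leaf (nat_lit 13195476217911297) (.br (nat_lit 0) (.cons (.br (nat_lit 2) (.cons (.rel (nat_lit 71312004)) .nil)) .nil)) .leaf) (nat_lit 13200891371786302) (.br (nat_lit 2) (.cons (.br (nat_lit 5) (.cons (.rel (nat_lit 8724480000)) .nil)) .nil)) (.node .leaf (nat_lit 13200891371845633) (.br (nat_lit 1) (.cons (.br (nat_lit 2) (.cons (.rel (nat_lit 100664328)) (.cons (.rel (nat_lit 100664328)) .nil))) .nil)) .leaf)) (nat_lit 13200891371880510) (.br (nat_lit 1) (.cons (.br (nat_lit 0) (.cons (.rel (nat_lit 22021128)) (.cons (.rel (nat_lit 22021128)) .nil))) .nil)) (.node (.node .leaf (nat_lit 13200893990767898) (.br (nat_lit 0) (.cons (.br (nat_lit 2) (.cons (.rel (nat_lit 72351777)) .nil)) .nil)) .leaf) (nat_lit 13201871525836801) (.br (nat_lit 0) (.cons (.br (nat_lit 2) (.cons (.rel (nat_lit 71894016)) .nil)) .nil)) .leaf))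

/-- refutations 88 -/
def e88 : EX := (.node (.node (.node (.node .leaf (nat_lit 13206262699845633) (.br (nat_lit 2) (.cons (.br (nat_lit 3) (.cons (.rel (nat_lit 402669585)) (.cons (.rel (nat_lit 604049412)) .nil))) .nil)) .leaf) (nat_lit 13206262700871008) (.br (nat_lit 0) (.cons (.br (nat_lit 3) (.cons (.rel (nat_lit 273679617)) .nil)) .nil)) (.node .leaf (nat_lit 13206262701874657) (.br (nat_lit 0) (.cons (.br (nat_lit 1) (.cons (.rel (nat_lit 21037200)) .nil)) .nil)) .leaf)) (nat_lit 13207505618339328) (.br (nat_lit 0) (.cons (.br (nat_lit 1) (.cons (.rel (nat_lit 21561348)) .nil)) .nil)) (.node (.node .leaf (nat_lit 13207505618362430) (.br (nat_lit 3) (.cons (.br (nat_lit 4) (.cons (.rel (nat_lit 2415929361)) .nil)) .nil)) .leaf) (nat_lit 13207505618363154) (.br (nat_lit 1) (.cons (.br (nat_lit 5) (.cons (.rel (nat_lit 8623767552)) .nil)) .nil)) .leaf)) (nat_lit 13207505618363878) (.br (nat_lit 1) (.cons (.br (nat_lit 4) (.cons (.rel (nat_lit 2164262160)) .nil))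 .nil)) (.node (.node (.node .leaf (nat_lit 13207505618450494) (.br (nat_lit 0) (.cons (.br (nat_lit 2) (.cons (.rel (nat_lit 72353796)) .nil)) .nil)) .leaf) (nat_lit 13207505621481534) (.br (nat_lit 5) (.cons (.br (nat_lit 1) (.cons (.rel (nat_lit 4328523012)) (.cons (.rel (nat_lit 4314104832)) .nil))) .nil)) .leaf) (nat_lit 13207505621516350) (.br (nat_lit 5) (.cons (.br (nat_lit 3) (.cons (.rel (nat_lit 4563927072)) (.cons (.rel (nat_lit 4563402888)) .nil))) .nil)) (.node (.node .leaf (nat_lit 13207509271577226) (.br (nat_lit 0) (.cons (.br (nat_lit 1) (.cons (.rel (nat_lit 22021128)) .nil)) .nil)) .leaf) (nat_lit 13207511764529952) (.br (nat_lit 0) (.cons (.br (nat_lit 5) (.cons (.rel (nat_lit 4303356192)) .nil)) .nil)) .leaf)))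

/-- refutations 89 -/
def e89 : EX := (.node .leaf (nat_lit 12058207844239485) (.br (nat_lit 1) (.cons (.br (nat_lit 2) (.cons (.rel (nat_lit 86016084)) .nil)) .nil)) .leaf)

/-- refutations 91 -/
def e91 : EX := (.node (.node (.node (.node .leaf (nat_lit 13370061396838401) (.br (nat_lit 0) (.cons (.br (nat_lit 2) (.cons (.rel (nat_lit 71305608)) .nil)) .nil)) .leaf) (nat_lit 13371398642842525) (.br (nat_lit 0) (.cons (.br (nat_lit 3) (.cons (.rel (nat_lit 545521920)) .nil)) .nil)) .leaf) (nat_lit 13371398643242487) (.br (nat_lit 0) (.cons (.br (nat_lit 1) (.cons (.rel (nat_lit 22021128)) .nil)) .nil)) (.node .leaf (nat_lit 13371398643302680) (.br (nat_lit 0) (.cons (.br (nat_lit 1) (.cons (.rel (nat_lit 25166850)) .nil)) .nil)) .leaf)) (nat_lit 13371398643303680) (.br (nat_lit 3) (.cons (.br (nat_lit 5) (.cons (.rel (nat_lit 4564517121)) .nil)) .nil)) (.node (.node (.node .leaf (nat_lit 13371398645669275) (.br (nat_lit 1) (.cons (.br (nat_lit 0) (.cons (.rel (nat_lit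 37750785)) (.cons (.rel (nat_lit 25166850)) .nil))) .nil)) .leaf) (nat_lit 13371398645812081) (.br (nat_lit 0) (.cons (.br (nat_lit 1) (.cons (.rel (nat_lit 21561348)) .nil)) .nil)) .leaf) (nat_lit 13375653467939452) (.br (nat_lit 3) (.cons (.br (nat_lit 4) (.cons (.rel (nat_lit 1342242948)) .nil)) .nil)) (.node .leaf (nat_lit 13375693612964476) (.br (nat_lit 0) (.cons (.br (nat_lit 1) (.cons (.rel (nat_lit 20975748)) .nil)) .nil)) .leaf)))

/-- refutations 92 -/
def e92 : EX := (.node (.node .leaf (nat_lit 13382177111134209) (.br (nat_lit 0) (.cons (.br (nat_lit 2) (.cons (.rel (nat_lit 71894016)) .nil)) .nil)) .leaf) (nat_lit 13383209803049240) (.br (nat_lit 0) (.cons (.br (nat_lit 1) (.cons (.rel (nat_lit 25166850)) .nil)) .nil)) (.node .leaf (nat_lit 13383209803050395) (.br (nat_lit 1) (.cons (.br (nat_lit 4) (.cons (.rel (nat_lit 1091045376)) .nil)) .nil)) .leaf))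

/-- refutations 93 -/
def e93 : EX := (.node .leaf (nat_lit 13393237069585311) (.br (nat_lit 0) (.cons (.br (nat_lit 1) (.cons (.rel (nat_lit 22024704)) .nil)) .nil)) .leaf)

/-- refutations 95 -/
def e95 : EX := (.node (.node .leaf (nat_lit 13721905264527390) (.br (nat_lit 0) (.cons (.br (nat_lit 1) (.cons (.rel (nat_lit 22021128)) .nil)) .nil)) .leaf) (nat_lit 13722162959596320) (.br (nat_lit 0) (.cons (.br (nat_lit 2) (.cons (.rel (nat_lit 75518208)) .nil)) .nil)) (.node .leaf (nat_lit 13722162960067360) (.br (nat_lit 0) (.cons (.br (nat_lit 2) (.cons (.rel (nat_lit 75497508)) .nil)) .nil)) .leaf))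

/-- refutations 96 -/
def e96 : EX := (.node (.node (.node .leaf (nat_lit 13729636205661540) (.br (nat_lit 0) (.cons (.br (nat_lit 2) (.cons (.rel (nat_lit 75497508)) .nil)) .nil)) .leaf) (nat_lit 13729639243561265) (.br (nat_lit 0) (.cons (.br (nat_lit 2) (.cons (.rel (nat_lit 138494208)) .nil)) .nil)) .leaf) (nat_lit 13729639243561760) (.br (nat_lit 4) (.cons (.br (nat_lit 0) (.cons (.rel (nat_lit 1079005188)) (.cons (.rel (nat_lit 2151678225)) .nil))) .nil)) (.node (.node .leaf (nat_lit 13735219724514080) (.br (nat_lit 0) (.cons (.br (nat_lit 2) (.cons (.rel (nat_lit 72450048)) .nil)) .nil)) .leaf) (nat_lit 13735265650719520) (.br (nat_lit 0) (.cons (.br (nat_lit 3) (.cons (.rel (nat_lit 273743889)) (.cons (.rel (nat_lit 273678612)) .nil))) .nil)) .leaf))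

/-- refutations 97 -/
def e97 : EX := (.node .leaf (nat_lit 13295292411054856) (.br (nat_lit 0) (.cons (.br (nat_lit 2) (.cons (.rel (nat_lit 75497508)) .nil)) .nil)) .leaf)

/-- refutations 98 -/
def e98 : EX := (.node (.node .leaf (nat_lit 13757175523368961) (.br (nat_lit 2) (.cons (.br (nat_lit 0) (.cons (.rel (nat_lit 71308416)) (.cons (.rel (nat_lit 71308416)) .nil))) .nil)) .leaf) (nat_lit 13758611215675393) (.br (nat_lit 0) (.cons (.br (nat_lit 1) (.cons (.rel (nat_lit 20988033)) .nil)) .nil)) .leaf)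

/-- list of the parts -/
def L0 : List (ℕ × List ℕ) := [(nat_lit 0x10, [Nat.sub (Nat.pow 2 179) (Nat.pow 2 0), Nat.sub (Nat.pow 2 1290) (Nat.pow 2 179), Nat.sub (Nat.pow 2 3136) (Nat.pow 2 1290)]),
  (nat_lit 0x200, [Nat.sub (Nat.pow 2 286) (Nat.pow 2 0), Nat.sub (Nat.pow 2 3136) (Nat.pow 2 286)]),
  (nat_lit 0x8000000000, [Nat.sub (Nat.pow 2 755) (Nat.pow 2 0), Nat.sub (Nat.pow 2 3136) (Nat.pow 2 755)]),
  (nat_lit 0x20040000000, [cP]),
  (nat_lit 0x40000000000000, [cP]),
  (nat_lit 0x80000000000000, [cP]),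
  (nat_lit 0x800000000000000, [Nat.sub (Nat.pow 2 134) (Nat.pow 2 0), Nat.sub (Nat.pow 2 905) (Nat.pow 2 134), Nat.sub (Nat.pow 2 1560) (Nat.pow 2 905), Nat.sub (Nat.pow 2 3136) (Nat.pow 2 1560)]),
  (nat_lit 0x100000000000000, [cP]),
  (nat_lit 0x800000000000000000000000000000000, [cP]),
  (nat_lit 0x10000000000000000000000000000000000, [Nat.sub (Nat.pow 2 255) (Nat.pow 2 0), Nat.sub (Nat.pow 2 1259) (Nat.pow 2 255), Nat.sub (Nat.pow 2 1565) (Nat.pow 2 1259), Nat.sub (Nat.pow 2 3136) (Nat.pow 2 1565)]),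
  (nat_lit 0x80000000000000000000000000000000000, [Nat.sub (Nat.pow 2 309) (Nat.pow 2 0), Nat.sub (Nat.pow 2 3136) (Nat.pow 2 309)]),
  (nat_lit 0x100000000000000000000000000000000000, [Nat.sub (Nat.pow 2 661) (Nat.pow 2 0), Nat.sub (Nat.pow 2 3136) (Nat.pow 2 661)]),
  (nat_lit 0x4000000000000000000000000000000000, [cP]),
  (nat_lit 0x400000000000000000000000000000000000000, [cP]),
  (nat_lit 0x800000000000000000000000000000000000000, [cP]),
  (nat_lit 0x20000000000000000000000000000000000000000, [cP]),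
  (nat_lit 0x10000000000000000000000000000000000000000000000, [Nat.sub (Nat.pow 2 16) (Nat.pow 2 0), Nat.sub (Nat.pow 2 64) (Nat.pow 2 16), Nat.sub (Nat.pow 2 159) (Nat.pow 2 64), Nat.sub (Nat.pow 2 255) (Nat.pow 2 159), Nat.sub (Nat.pow 2 279) (Nat.pow 2 255), Nat.sub (Nat.pow 2 306) (Nat.pow 2 279), Nat.sub (Nat.pow 2 631) (Nat.pow 2 306), Nat.sub (Nat.pow 2 659) (Nat.pow 2 631), Nat.sub (Nat.pow 2 761) (Nat.pow 2 659), Nat.sub (Nat.pow 2 810) (Nat.pow 2 761), Nat.sub (Nat.pow 2 1255) (Nat.pow 2 810), Nat.sub (Nat.pow 2 1290) (Nat.pow 2 1255), Nat.sub (Nat.pow 2 1409) (Nat.pow 2 1290), Nat.sub (Nat.pow 2 1505) (Nat.pow 2 1409), Nat.sub (Nat.pow 2 1534) (Nat.pow 2 1505), Nat.sub (Nat.pow 2 1560) (Nat.pow 2 1534), Nat.sub (Nat.pow 2 3136) (Nat.pow 2 1560)]),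
  (nat_lit 0x20000200000000000000000000000000000000000000000, [cP]),
  (nat_lit 0x4000000000000000000000000000000000000000000000000000000000000000, [Nat.sub (Nat.pow 2 134) (Nat.pow 2 0), Nat.sub (Nat.pow 2 661) (Nat.pow 2 134), Nat.sub (Nat.pow 2 1409) (Nat.pow 2 661), Nat.sub (Nat.pow 2 3136) (Nat.pow 2 1409)]),
  (nat_lit 0x40000000000000000000000000000000000000000000000, [cP]),
  (nat_lit 0x4000000000000000000000000000000000000000000000000000000000000000000, [cP]),
  (nat_lit 0x20000000000000000000000000000000000000000000000000000000000000000000000, [cP]),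
  (nat_lit 0x2000000000000000000000000000000000000000000000000000000000000000000000000, [Nat.sub (Nat.pow 2 286) (Nat.pow 2 0), Nat.sub (Nat.pow 2 1255) (Nat.pow 2 286), Nat.sub (Nat.pow 2 3136) (Nat.pow 2 1255)]),
  (nat_lit 0x10000000000000000000000000000000000000000000000000000000000000000000000000000, [Nat.sub (Nat.pow 2 181) (Nat.pow 2 0), Nat.sub (Nat.pow 2 1414) (Nat.pow 2 181), Nat.sub (Nat.pow 2 3136) (Nat.pow 2 1414)]),
  (nat_lit 0x200000000000000000000000000000000000000000000000000000000000000000000000000000, [Nat.sub (Nat.pow 2 266) (Nat.pow 2 0), Nat.sub (Nat.pow 2 1284) (Nat.pow 2 266), Nat.sub (Nat.pow 2 3136) (Nat.pow 2 1284)]),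
  (nat_lit 0x200000000000000000000000000000000000000000000000000000000000000000000000, [cP]),
  (nat_lit 0x400000000000000000000000000000000000000000000000000000000000000000000000000000, [cP]),
  (nat_lit 0x4000000000000000000000000000000000000000000000000000000000000000000000000000000, [cP]),
  (nat_lit 0x8000000000000000000000000000000000000000000000000000000000000000000000000000000, [cP]),
  (nat_lit 0x20000000000000000000000000000000000000000000000000000000000000000000000000000000000000000000000000000000000000000000000000000000000000000000000000000000000000, [Nat.sub (Nat.pow 2 279) (Nat.pow 2 0), Nat.sub (Nat.pow 2 806) (Nat.pow 2 279), Nat.sub (Nat.pow 2 3136) (Nat.pow 2 806)]),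
  (nat_lit 0x10000000000000000000000000000000000000000000000000000000000000000000000000000000, [cP]),
  (nat_lit 0x8000000000000000000000000000000000000000000000000000000000000000000000000000000000000000000000000000000000000000000000000000000000000000000000000000000000000000, [Nat.sub (Nat.pow 2 661) (Nat.pow 2 0), Nat.sub (Nat.pow 2 3136) (Nat.pow 2 661)]),
  (nat_lit 0x10000000000000000000000000000000000000000000000000000000000000000000000000000000000000000000000000000000000000000000000000000000000000000000000000000000000000000, [Nat.sub (Nat.pow 2 755) (Nat.pow 2 0), Nat.sub (Nat.pow 2 3136) (Nat.pow 2 755)]),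
  (nat_lit 0x40000000000000000000000000000000000000000000000000000000000000000000000000000000000000000000000000000000000000000000000000000000000000000000000000000000000000, [cP]),
  (nat_lit 0x10000000000000000000000000000000000000000000000000000000000000000000000000000000000000000000000000000000000000000000000000000000000000000000000000000000000000000000000, [Nat.sub (Nat.pow 2 654) (Nat.pow 2 0), Nat.sub (Nat.pow 2 1290) (Nat.pow 2 654), Nat.sub (Nat.pow 2 3136) (Nat.pow 2 1290)]),
  (nat_lit 0x1000000000000000000000000000000000000000000000000000000000000000000000000000000000000000000000000000000000000000000000000000000000000000000000000000000000000000000000000000, [Nat.sub (Nat.pow 2 631) (Nat.pow 2 0), Nat.sub (Nat.pow 2 1266) (Nat.pow 2 631), Nat.sub (Nat.pow 2 3136) (Nat.pow 2 1266)]),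
  (nat_lit 0x2000000000000000000000000000000000000000000000000000000000000000000000000000000000000000000000000000000000000000000000000000000000000000000000000000000000000000000000, [cP]),
  (nat_lit 0x80000000000000000000000000000000000000000000000000000000000000000000000000000000000000000000000000000000000000000000000000000000000000000000000000000000000000000000000000000, [Nat.sub (Nat.pow 2 306) (Nat.pow 2 0), Nat.sub (Nat.pow 2 1255) (Nat.pow 2 306), Nat.sub (Nat.pow 2 1541) (Nat.pow 2 1255), Nat.sub (Nat.pow 2 3136) (Nat.pow 2 1541)]),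
  (nat_lit 0x400000000000000000000000000000000000000000000000000000000000000000000000000000000000000000000000000000000000000000000000000000000000000000000000000000000000000000000000000000000000000000000, [Nat.sub (Nat.pow 2 159) (Nat.pow 2 0), Nat.sub (Nat.pow 2 931) (Nat.pow 2 159), Nat.sub (Nat.pow 2 3136) (Nat.pow 2 931)]),
  (nat_lit 0x20000000000000000000000000000000000000000000000000000000000000000000000000000000000000000000000000000000000000000000000000000000000000000000000000000000000000000000000000000, [cP]),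
  (nat_lit 0x1000000000000000000000000000000000000000000000000000000000000000000000000000000000000000000000000000000000000000000000000000000000000000000000000000000000000000000000000000000000000000000000, [cP]),
  (nat_lit 0x100000000000000000000000000000000000000000000000000000000000000000000000000000000000000000000000000000000000000000000000000000000000000000000000000000000000000000000000000000000000000000000000, [Nat.sub (Nat.pow 2 884) (Nat.pow 2 0), Nat.sub (Nat.pow 2 3136) (Nat.pow 2 884)]),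
  (nat_lit 0x200000000000000000000000000000000000000000000000000000000000000000000000000000000000000000000000000000000000000000000000000000000000000000000000000000000000000000000000000000000000000000000000, [Nat.sub (Nat.pow 2 661) (Nat.pow 2 0), Nat.sub (Nat.pow 2 3136) (Nat.pow 2 661)]),
  (nat_lit 0x10000000000000000000000000000000000000000000000000000000000000000000000000000000000000000000000000000000000000000000000000000000000000000000000000000000000000000000000000000000000000000000000000000, [Nat.sub (Nat.pow 2 904) (Nat.pow 2 0), Nat.sub (Nat.pow 2 3136) (Nat.pow 2 904)]),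
  (nat_lit 0x8000000000000000000000000000000000000000000000000000000000000000000000000000000000000000000000000000000000000000000000000000000000000000000000000000000000000000000000000000000000000000000000, [cP]),
  (nat_lit 0x40000000000000000000000000000000000000000000000000000000000000000000000000000000000000000000000000000000000000000000000000000000000000000000000000000000000000000000000000000000000000000000000000000, [cP])]

theorem hp0 : ∀ p ∈ L0, ∀ D2 ∈ p.2, ∃ e,
    search ext94 (Pool.Agent.H74.EGZ.vio sb) G Uc A0 p.1 D2 e = true :=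
  (List.forall_mem_cons.2 ⟨(List.forall_mem_cons.2 ⟨⟨e0, by decide +kernel⟩,
  (List.forall_mem_cons.2 ⟨⟨e1, by decide +kernel⟩,
  (List.forall_mem_singleton.2 ⟨e2, by decide +kernel⟩)⟩)⟩),
  (List.forall_mem_cons.2 ⟨(List.forall_mem_cons.2 ⟨⟨e3, by decide +kernel⟩,
  (List.forall_mem_singleton.2 ⟨e4, by decide +kernel⟩)⟩),
  (List.forall_mem_cons.2 ⟨(List.forall_mem_cons.2 ⟨⟨e5, by decide +kernel⟩,
  (List.forall_mem_singleton.2 ⟨e6, by decide +kernel⟩)⟩),
  (List.forall_mem_cons.2 ⟨(List.forall_mem_singleton.2 ⟨e7, by decide +kernel⟩),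
  (List.forall_mem_cons.2 ⟨(List.forall_mem_singleton.2 ⟨.leaf, by decide +kernel⟩),
  (List.forall_mem_cons.2 ⟨(List.forall_mem_singleton.2 ⟨.leaf, by decide +kernel⟩),
  (List.forall_mem_cons.2 ⟨(List.forall_mem_cons.2 ⟨⟨e10, by decide +kernel⟩,
  (List.forall_mem_cons.2 ⟨⟨e11, by decide +kernel⟩,
  (List.forall_mem_cons.2 ⟨⟨e12, by decide +kernel⟩,
  (List.forall_mem_singleton.2 ⟨e13, by decide +kernel⟩)⟩)⟩)⟩),
  (List.forall_mem_cons.2 ⟨(List.forall_mem_singleton.2 ⟨.leaf, by decide +kernel⟩),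
  (List.forall_mem_cons.2 ⟨(List.forall_mem_singleton.2 ⟨e15, by decide +kernel⟩),
  (List.forall_mem_cons.2 ⟨(List.forall_mem_cons.2 ⟨⟨.leaf, by decide +kernel⟩,
  (List.forall_mem_cons.2 ⟨⟨e17, by decide +kernel⟩,
  (List.forall_mem_cons.2 ⟨⟨.leaf, by decide +kernel⟩,
  (List.forall_mem_singleton.2 ⟨.leaf, by decide +kernel⟩)⟩)⟩)⟩),
  (List.forall_mem_cons.2 ⟨(List.forall_mem_cons.2 ⟨⟨e20, by decide +kernel⟩,
  (List.forall_mem_singleton.2 ⟨.leaf, by decide +kernel⟩)⟩),
  (List.forall_mem_cons.2 ⟨(List.forall_mem_cons.2 ⟨⟨e22, by decide +kernel⟩,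
  (List.forall_mem_singleton.2 ⟨e23, by decide +kernel⟩)⟩),
  (List.forall_mem_cons.2 ⟨(List.forall_mem_singleton.2 ⟨.leaf, by decide +kernel⟩),
  (List.forall_mem_cons.2 ⟨(List.forall_mem_singleton.2 ⟨e25, by decide +kernel⟩),
  (List.forall_mem_cons.2 ⟨(List.forall_mem_singleton.2 ⟨e26, by decide +kernel⟩),
  (List.forall_mem_cons.2 ⟨(List.forall_mem_singleton.2 ⟨.leaf, by decide +kernel⟩),
  (List.forall_mem_cons.2 ⟨(List.forall_mem_cons.2 ⟨⟨e28, by decide +kernel⟩,
  (List.forall_mem_cons.2 ⟨⟨e29, by decide +kernel⟩,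
  (List.forall_mem_cons.2 ⟨⟨e30, by decide +kernel⟩,
  (List.forall_mem_cons.2 ⟨⟨e31, by decide +kernel⟩,
  (List.forall_mem_cons.2 ⟨⟨e32, by decide +kernel⟩,
  (List.forall_mem_cons.2 ⟨⟨e33, by decide +kernel⟩,
  (List.forall_mem_cons.2 ⟨⟨e34, by decide +kernel⟩,
  (List.forall_mem_cons.2 ⟨⟨e35, by decide +kernel⟩,
  (List.forall_mem_cons.2 ⟨⟨e36, by decide +kernel⟩,
  (List.forall_mem_cons.2 ⟨⟨e37, by decide +kernel⟩,
  (List.forall_mem_cons.2 ⟨⟨e38, by decide +kernel⟩,
  (List.forall_mem_cons.2 ⟨⟨e39, by decide +kernel⟩,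
  (List.forall_mem_cons.2 ⟨⟨e40, by decide +kernel⟩,
  (List.forall_mem_cons.2 ⟨⟨e41, by decide +kernel⟩,
  (List.forall_mem_cons.2 ⟨⟨e42, by decide +kernel⟩,
  (List.forall_mem_cons.2 ⟨⟨e43, by decide +kernel⟩,
  (List.forall_mem_singleton.2 ⟨e44, by decide +kernel⟩)⟩)⟩)⟩)⟩)⟩)⟩)⟩)⟩)⟩)⟩)⟩)⟩)⟩)⟩)⟩)⟩),
  (List.forall_mem_cons.2 ⟨(List.forall_mem_singleton.2 ⟨.leaf, by decide +kernel⟩),
  (List.forall_mem_cons.2 ⟨(List.forall_mem_cons.2 ⟨⟨e46, by decide +kernel⟩,
  (List.forall_mem_cons.2 ⟨⟨e47, by decide +kernel⟩,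
  (List.forall_mem_cons.2 ⟨⟨e48, by decide +kernel⟩,
  (List.forall_mem_singleton.2 ⟨e49, by decide +kernel⟩)⟩)⟩)⟩),
  (List.forall_mem_cons.2 ⟨(List.forall_mem_singleton.2 ⟨.leaf, by decide +kernel⟩),
  (List.forall_mem_cons.2 ⟨(List.forall_mem_singleton.2 ⟨.leaf, by decide +kernel⟩),
  (List.forall_mem_cons.2 ⟨(List.forall_mem_singleton.2 ⟨e52, by decide +kernel⟩),
  (List.forall_mem_cons.2 ⟨(List.forall_mem_cons.2 ⟨⟨e53, by decide +kernel⟩,
  (List.forall_mem_cons.2 ⟨⟨e54, by decide +kernel⟩,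
  (List.forall_mem_singleton.2 ⟨e55, by decide +kernel⟩)⟩)⟩),
  (List.forall_mem_cons.2 ⟨(List.forall_mem_cons.2 ⟨⟨e56, by decide +kernel⟩,
  (List.forall_mem_cons.2 ⟨⟨e57, by decide +kernel⟩,
  (List.forall_mem_singleton.2 ⟨e58, by decide +kernel⟩)⟩)⟩),
  (List.forall_mem_cons.2 ⟨(List.forall_mem_cons.2 ⟨⟨e59, by decide +kernel⟩,
  (List.forall_mem_cons.2 ⟨⟨e60, by decide +kernel⟩,
  (List.forall_mem_singleton.2 ⟨e61, by decide +kernel⟩)⟩)⟩),
  (List.forall_mem_cons.2 ⟨(List.forall_mem_singleton.2 ⟨.leaf, by decide +kernel⟩),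
  (List.forall_mem_cons.2 ⟨(List.forall_mem_singleton.2 ⟨.leaf, by decide +kernel⟩),
  (List.forall_mem_cons.2 ⟨(List.forall_mem_singleton.2 ⟨.leaf, by decide +kernel⟩),
  (List.forall_mem_cons.2 ⟨(List.forall_mem_singleton.2 ⟨e65, by decide +kernel⟩),
  (List.forall_mem_cons.2 ⟨(List.forall_mem_cons.2 ⟨⟨.leaf, by decide +kernel⟩,
  (List.forall_mem_cons.2 ⟨⟨e67, by decide +kernel⟩,
  (List.forall_mem_singleton.2 ⟨e68, by decide +kernel⟩)⟩)⟩),
  (List.forall_mem_cons.2 ⟨(List.forall_mem_singleton.2 ⟨.leaf, by decide +kernel⟩),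
  (List.forall_mem_cons.2 ⟨(List.forall_mem_cons.2 ⟨⟨e70, by decide +kernel⟩,
  (List.forall_mem_singleton.2 ⟨e71, by decide +kernel⟩)⟩),
  (List.forall_mem_cons.2 ⟨(List.forall_mem_cons.2 ⟨⟨e72, by decide +kernel⟩,
  (List.forall_mem_singleton.2 ⟨e73, by decide +kernel⟩)⟩),
  (List.forall_mem_cons.2 ⟨(List.forall_mem_singleton.2 ⟨e74, by decide +kernel⟩),
  (List.forall_mem_cons.2 ⟨(List.forall_mem_cons.2 ⟨⟨.leaf, by decide +kernel⟩,
  (List.forall_mem_cons.2 ⟨⟨.leaf, by decide +kernel⟩,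
  (List.forall_mem_singleton.2 ⟨e77, by decide +kernel⟩)⟩)⟩),
  (List.forall_mem_cons.2 ⟨(List.forall_mem_cons.2 ⟨⟨e78, by decide +kernel⟩,
  (List.forall_mem_cons.2 ⟨⟨e79, by decide +kernel⟩,
  (List.forall_mem_singleton.2 ⟨e80, by decide +kernel⟩)⟩)⟩),
  (List.forall_mem_cons.2 ⟨(List.forall_mem_singleton.2 ⟨e81, by decide +kernel⟩),
  (List.forall_mem_cons.2 ⟨(List.forall_mem_cons.2 ⟨⟨e82, by decide +kernel⟩,
  (List.forall_mem_cons.2 ⟨⟨e83, by decide +kernel⟩,
  (List.forall_mem_cons.2 ⟨⟨e84, by decide +kernel⟩,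
  (List.forall_mem_singleton.2 ⟨e85, by decide +kernel⟩)⟩)⟩)⟩),
  (List.forall_mem_cons.2 ⟨(List.forall_mem_cons.2 ⟨⟨e86, by decide +kernel⟩,
  (List.forall_mem_cons.2 ⟨⟨e87, by decide +kernel⟩,
  (List.forall_mem_singleton.2 ⟨e88, by decide +kernel⟩)⟩)⟩),
  (List.forall_mem_cons.2 ⟨(List.forall_mem_singleton.2 ⟨e89, by decide +kernel⟩),
  (List.forall_mem_cons.2 ⟨(List.forall_mem_singleton.2 ⟨.leaf, by decide +kernel⟩),
  (List.forall_mem_cons.2 ⟨(List.forall_mem_cons.2 ⟨⟨e91, by decide +kernel⟩,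
  (List.forall_mem_singleton.2 ⟨e92, by decide +kernel⟩)⟩),
  (List.forall_mem_cons.2 ⟨(List.forall_mem_cons.2 ⟨⟨e93, by decide +kernel⟩,
  (List.forall_mem_singleton.2 ⟨.leaf, by decide +kernel⟩)⟩),
  (List.forall_mem_cons.2 ⟨(List.forall_mem_cons.2 ⟨⟨e95, by decide +kernel⟩,
  (List.forall_mem_singleton.2 ⟨e96, by decide +kernel⟩)⟩),
  (List.forall_mem_cons.2 ⟨(List.forall_mem_singleton.2 ⟨e97, by decide +kernel⟩),
  (List.forall_mem_singleton.2 (List.forall_mem_singleton.2 ⟨e98, by decide +kernel⟩))⟩)⟩)⟩)⟩)⟩)⟩)⟩)⟩)⟩)⟩)⟩)⟩)⟩)⟩)⟩)⟩)⟩)⟩)⟩)⟩)⟩)⟩)⟩)⟩)⟩)⟩)⟩)⟩)⟩)⟩)⟩)⟩)⟩)⟩)⟩)⟩)⟩)⟩)⟩)⟩)⟩)⟩)⟩)⟩)⟩)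

end

end Pool.Agent.H21.EGZ.S7
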