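import Pool.Agent.H21.EGZ.D7

/-!
# Stage 7 : search, part 1
-/

set_option autoImplicit false
set_option maxRecDepth 100000

namespace Pool.Agent.H21.EGZ.S7

noncomputable section

open Pool.Agent.H74.EGZ Pool.Agent.H94.Lift

/-- refutations 99 -/
def e99 : EX := (.node (.node .leaf (nat_lit 14074178565888760) (.br (nat_lit 0) (.cons (.br (nat_lit 1) (.cons (.rel (nat_lit 25235712)) .nil)) .nil)) .leaf) (nat_lit 14076417695223195) (.br (nat_lit 0) (.cons (.br (nat_lit 1) (.cons (.rel (nat_lit 20975748)) .nil)) .nil)) .leaf)

/-- refutations 101 -/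
def e101 : EX := (.node (.node .leaf (nat_lit 14161795815086130) (.br (nat_lit 1) (.cons (.br (nat_lit 6) (.cons (.rel (nat_lit 17196654978)) .nil)) .nil)) .leaf) (nat_lit 14161927282984961) (.br (nat_lit 0) (.cons (.br (nat_lit 4) (.cons (.rel (nat_lit 2155872336)) .nil)) .nil)) .leaf)

/-- refutations 102 -/
def e102 : EX := (.node .leaf (nat_lit 14167595131811841) (.br (nat_lit 0) (.cons (.br (nat_lit 2) (.cons (.rel (nat_lit 138413061)) .nil)) .nil)) .leaf)

/-- refutations 106 -/
def e106 : EX := (.node (.node (.node (.node (.node .leaf (nat_lit 14267271497146430) (.br (nat_lit 3) (.cons (.br (nat_lit 4) (.cons (.rel (nat_lit 1610629122)) .nil)) .nil)) .leaf) (nat_lit 14267271497235218) (.br (nat_lit 1) (.cons (.br (nat_lit 2) (.cons (.br (nat_lit 0) (.cons (.rel (nat_lit 173015040)) (.cons (.rel (nat_lit 37750785)) .nil))) .nil)) .nil)) (.node .leaf (nat_lit 14267271498657793) (.br (nat_lit 0) (.cons (.br (nat_lit 2) (.cons (.rel (nat_lit 71319696)) .nil)) .nil)) .leaf)) (nat_lit 14267271500206081) (.br (nat_lit 1) (.cons (.br (nat_lit 2) (.cons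 (.rel (nat_lit 83951748)) .nil)) .nil)) (.node (.node .leaf (nat_lit 14267271500206110) (.br (nat_lit 1) (.cons (.br (nat_lit 3) (.cons (.rel (nat_lit 301995024)) .nil)) .nil)) .leaf) (nat_lit 14268594350193517) (.br (nat_lit 0) (.cons (.br (nat_lit 1) (.cons (.rel (nat_lit 21561348)) .nil)) .nil)) .leaf)) (nat_lit 14268597053667605) (.br (nat_lit 1) (.cons (.br (nat_lit 2) (.cons (.rel (nat_lit 84152388)) .nil)) .nil)) (.node (.node (.node .leaf (nat_lit 14273147535112349) (.br (nat_lit 0) (.cons (.br (nat_lit 1) (.cons (.rel (nat_lit 37750785)) .nil)) .nil)) .leaf) (nat_lit 14273713949603348) (.br (nat_lit 0) (.cons (.br (nat_lit 1) (.cons (.rel (nat_lit 22021128)) .nil)) .nil)) .leaf) (nat_lit 14273765487786014) (.br (nat_lit 0) (.cons (.br (nat_lit 1) (.cons (.rel (nat_lit 25182720)) .nil)) .nil)) (.node (.node .leaf (nat_lit 14273765490757662) (.br (nat_lit 1) (.cons (.br (nat_lit 0) (.cons (.rel (nat_lit 22021128)) (.cons (.rel (nat_lit 22021128)) .nil))) .nil)) .leaf) (nat_lit 14273765490817054) (.br (nat_lit 0) (.cons (.br (nat_lit 2) (.cons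 (.rel (nat_lit 75497508)) .nil)) .nil)) .leaf))) (nat_lit 14273765490817086) (.br (nat_lit 5) (.cons (.br (nat_lit 0) (.cons (.rel (nat_lit 8598327360)) (.cons (.rel (nat_lit 4303356192)) .nil))) .nil)) (.node (.node (.node (.node .leaf (nat_lit 14273765490851870) (.br (nat_lit 1) (.cons (.br (nat_lit 0) (.cons (.rel (nat_lit 25165845)) (.cons (.rel (nat_lit 22021128)) (.cons (.rel (nat_lit 37781760)) .nil)))) .nil)) .leaf) (nat_lit 14274014595801150) (.br (nat_lit 4) (.cons (.br (nat_lit 1) (.cons (.rel (nat_lit 2181301248)) (.cons (.rel (nat_lit 1107427344)) .nil))) .nil)) .leaf) (nat_lit 14274014595889153) (.br (nat_lit 0) (.cons (.br (nat_lit 3) (.cons (.rel (nat_lit 272711808)) .nil)) .nil)) (.node (.node .leaf (nat_lit 14274014597314068) (.br (nat_lit 0) (.cons (.br (nat_lit 1) (.cons (.rel (nat_lit 37781760)) .nil)) .nil)) .leaf) (nat_lit 14274014598860830) (.br (nat_lit 1) (.cons (.br (nat_lit 5) (.cons (.rel (nat_lit 4312797216)) .nil)) .nil)) .leaf)) (nat_lit 14274014598920193) (.br (nat_lit 2) (.cons (.br (nat_lit 5) (.cons (.rel (nat_lit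 4362092928)) .nil)) .nil)) (.node (.node (.node .leaf (nat_lit 14274014598920222) (.br (nat_lit 1) (.cons (.br (nat_lit 2) (.cons (.rel (nat_lit 100664328)) .nil)) .nil)) .leaf) (nat_lit 14274014598920254) (.br (nat_lit 1) (.cons (.br (nat_lit 2) (.cons (.rel (nat_lit 84164673)) (.cons (.rel (nat_lit 83911044)) .nil))) (.cons (.br (nat_lit 2) (.cons (.rel (nat_lit 100664328)) (.cons (.rel (nat_lit 100664328)) .nil))) .nil))) .leaf) (nat_lit 14274014598920978) (.br (nat_lit 2) (.cons (.br (nat_lit 0) (.cons (.rel (nat_lit 72353796)) (.cons (.rel (nat_lit 75759744)) .nil))) .nil)) (.node (.node .leaf (nat_lit 14274014598955038) (.br (nat_lit 2) (.cons (.br (nat_lit 1) (.cons (.rel (nat_lit 100664328)) (.cons (.rel (nat_lit 100663314)) .nil))) .nil)) .leaf) (nat_lit 14274014598955070) (.br (nat_lit 2) (.cons (.br (nat_lit 5) (.cons (.rel (nat_lit 8657043972)) .nil)) .nil)) .leaf))))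

/-- refutations 107 -/
def e107 : EX := (.node (.node (.node .leaf (nat_lit 14280233708445697) (.br (nat_lit 5) (.cons (.br (nat_lit 1) (.cons (.rel (nat_lit 8606728464)) (.cons (.rel (nat_lit 4312301568)) .nil))) .nil)) .leaf) (nat_lit 14280233708445726) (.br (nat_lit 1) (.cons (.br (nat_lit 4) (.cons (.rel (nat_lit 2181301248)) .nil)) .nil)) (.node .leaf (nat_lit 14280233711505438) (.br (nat_lit 1) (.cons (.br (nat_lit 2) (.cons (.rel (nat_lit 100664328)) .nil)) .nil)) .leaf)) (nat_lit 14280233711564830) (.br (nat_lit 2) (.cons (.br (nat_lit 5) (.cons (.rel (nat_lit 4362092928)) .nil)) .nil)) (.node (.node .leaf (nat_lit 14280233711565557) (.br (nat_lit 0) (.cons (.br (nat_lit 2) (.cons (.rel (nat_lit 72353796)) .nil)) .nil)) .leaf) (nat_lit 14280233711600402) (.br (nat_lit 1) (.cons (.br (nat_lit 4) (.cons (.rel (nat_lit 2164326432)) .nil)) .nil)) .leaf))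

/-- refutations 109 -/
def e109 : EX := (.node .leaf (nat_lit 14296975495250225) (.br (nat_lit 0) (.cons (.br (nat_lit 1) (.cons (.rel (nat_lit 22024704)) .nil)) .nil)) .leaf)

/-- refutations 110 -/
def e110 : EX := (.node (.node (.node .leaf (nat_lit 15586769245818881) (.br (nat_lit 0) (.cons (.br (nat_lit 1) (.cons (.rel (nat_lit 25165845)) .nil)) .nil)) .leaf) (nat_lit 15586769245820387) (.br (nat_lit 0) (.cons (.br (nat_lit 3) (.cons (.rel (nat_lit 273154560)) .nil)) .nil)) .leaf) (nat_lit 15592564195399707) (.br (nat_lit 0) (.cons (.br (nat_lit 2) (.cons (.rel (nat_lit 72351777)) .nil)) .nil)) (.node .leaf (nat_lit 15593185926959105) (.br (nat_lit 0) (.cons (.br (nat_lit 1) (.cons (.rel (nat_lit 25165845)) .nil)) .nil)) .leaf))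

/-- refutations 111 -/
def e111 : EX := (.node .leaf (nat_lit 15600089083512989) (.br (nat_lit 0) (.cons (.br (nat_lit 2) (.cons (.rel (nat_lit 72369669)) .nil)) .nil)) .leaf)

/-- refutations 113 -/
def e113 : EX := (.node (.node .leaf (nat_lit 15617414880307225) (.br (nat_lit 1) (.cons (.br (nat_lit 2) (.cons (.rel (nat_lit 84213840)) .nil)) .nil)) .leaf) (nat_lit 15617638839468208) (.br (nat_lit 5) (.cons (.br (nat_lit 6) (.cons (.rel (nat_lit 25769806080)) .nil)) .nil)) .leaf)

/-- refutations 114 -/
def e114 : EX := (.node (.node .leaf (nat_lit 15832973836861720) (.br (nat_lit 0) (.cons (.br (nat_lit 1) (.cons (.rel (nat_lit 22020114)) .nil)) .nil)) .leaf) (nat_lit 15832973836862375) (.br (nat_lit 0) (.cons (.br (nat_lit 4) (.cons (.rel (nat_lit 1077936288)) .nil)) .nil)) (.node .leaf (nat_lit 15832973837897180) (.br (nat_lit 0) (.cons (.br (nat_lit 3) (.cons (.rel (nat_lit 545521920)) .nil)) .nil)) .leaf))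

/-- refutations 115 -/
def e115 : EX := (.node (.node .leaf (nat_lit 15835636718951900) (.br (nat_lit 0) (.cons (.br (nat_lit 3) (.cons (.rel (nat_lit 273679617)) .nil)) .nil)) .leaf) (nat_lit 15838600244019480) (.br (nat_lit 0) (.cons (.br (nat_lit 1) (.cons (.rel (nat_lit 22020114)) .nil)) .nil)) (.node .leaf (nat_lit 15838600246386140) (.br (nat_lit 0) (.cons (.br (nat_lit 4) (.cons (.rel (nat_lit 2151678225)) .nil)) .nil)) .leaf))

/-- refutations 116 -/
def e116 : EX := (.node (.node .leaf (nat_lit 15844784999291660) (.br (nat_lit 0) (.cons (.br (nat_lit 4) (.cons (.rel (nat_lit 1078460436)) .nil)) .nil)) .leaf) (nat_lit 15845852890301192) (.br (nat_lit 0) (.cons (.br (nat_lit 1) (.cons (.rel (nat_lit 22024704)) .nil)) .nil)) (.node .leaf (nat_lit 15845852890307336) (.br (nat_lit 1) (.cons (.br (nat_lit 2) (.cons (.rel (nat_lit 84959232)) .nil)) .nil)) .leaf))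

/-- refutations 122 -/
def e122 : EX := (.node (.node .leaf (nat_lit 15921235542886681) (.br (nat_lit 0) (.cons (.br (nat_lit 1) (.cons (.rel (nat_lit 22024704)) .nil)) .nil)) .leaf) (nat_lit 15926515209891897) (.br (nat_lit 1) (.cons (.br (nat_lit 3) (.cons (.rel (nat_lit 553713924)) .nil)) .nil)) .leaf)

/-- refutations 123 -/
def e123 : EX := (.node (.node .leaf (nat_lit 16011509988384230) (.br (nat_lit 0) (.cons (.br (nat_lit 2) (.cons (.rel (nat_lit 138494208)) .nil)) .nil)) .leaf) (nat_lit 16011515671666150) (.br (nat_lit 0) (.cons (.br (nat_lit 1) (.cons (.rel (nat_lit 22020114)) .nil)) .nil)) (.node .leaf (nat_lit 16011557950494721) (.br (nat_lit 0) (.cons (.br (nat_lit 2) (.cons (.rel (nat_lit 71565633)) .nil)) .nil)) .leaf))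

/-- refutations 124 -/
def e124 : EX := (.node (.node .leaf (nat_lit 16014474037494546) (.br (nat_lit 0) (.cons (.br (nat_lit 1) (.cons (.rel (nat_lit 20975748)) .nil)) .nil)) .leaf) (nat_lit 16014474039983511) (.br (nat_lit 2) (.cons (.br (nat_lit 5) (.cons (.rel (nat_lit 4363141128)) .nil)) .nil)) (.node .leaf (nat_lit 16016620998062980) (.br (nat_lit 1) (.cons (.br (nat_lit 6) (.cons (.rel (nat_lit 17197171713)) .nil)) .nil)) .leaf))

/-- refutations 125 -/
def e125 : EX := (.node (.node .leaf (nat_lit 16022086802201212) (.br (nat_lit 0) (.cons (.br (nat_lit 3) (.cons (.rel (nat_lit 277873728)) .nil)) .nil)) .leaf) (nat_lit 16022290356501266) (.br (nat_lit 0) (.cons (.br (nat_lit 1) (.cons (.rel (nat_lit 22020114)) .nil)) .nil)) .leaf)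

/-- refutations 127 -/
def e127 : EX := (.node (.node .leaf (nat_lit 16039455547195524) (.br (nat_lit 2) (.cons (.br (nat_lit 3) (.cons (.rel (nat_lit 402669585)) .nil)) .nil)) .leaf) (nat_lit 16039893653291770) (.br (nat_lit 0) (.cons (.br (nat_lit 1) (.cons (.rel (nat_lit 20975748)) .nil)) .nil)) .leaf)

/-- refutations 128 -/
def e128 : EX := (.node .leaf (nat_lit 15962563808382977) (.br (nat_lit 0) (.cons (.br (nat_lit 1) (.cons (.rel (nat_lit 22021128)) .nil)) .nil)) .leaf)

/-- refutations 129 -/
def e129 : EX := (.node (.node (.node .leaf (nat_lit 16273038590669105) (.br (nat_lit 0) (.cons (.br (nat_lit 3) (.cons (.rel (nat_lit 276828168)) .nil)) .nil)) .leaf) (nat_lit 16274276084725761) (.br (nat_lit 1) (.cons (.br (nat_lit 2) (.cons (.br (nat_lit 3) (.cons (.rel (nat_lit 604049412)) .nil)) .nil)) .nil)) .leaf) (nat_lit 16275140132731665) (.br (nat_lit 0) (.cons (.br (nat_lit 1) (.cons (.rel (nat_lit 20975748)) .nil)) .nil)) (.node .leaf (nat_lit 16279667641715470) (.br (nat_lit 1) (.cons (.br (nat_lit 2) (.cons (.rel (nat_lit 150996996))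 .nil)) .nil)) .leaf))

/-- refutations 130 -/
def e130 : EX := (.node (.node (.node .leaf (nat_lit 16280760942551100) (.br (nat_lit 0) (.cons (.br (nat_lit 1) (.cons (.rel (nat_lit 20975748)) .nil)) .nil)) .leaf) (nat_lit 16284892599150754) (.br (nat_lit 0) (.cons (.br (nat_lit 1) (.cons (.rel (nat_lit 21037200)) .nil)) .nil)) .leaf) (nat_lit 16284892600458102) (.br (nat_lit 1) (.cons (.br (nat_lit 2) (.cons (.rel (nat_lit 84935712)) .nil)) .nil)) (.node .leaf (nat_lit 16284897773732145) (.br (nat_lit 3) (.cons (.br (nat_lit 5) (.cons (.rel (nat_lit 9127067664)) .nil)) .nil)) .leaf))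

/-- refutations 132 -/
def e132 : EX := (.node (.node (.node .leaf (nat_lit 16455145017585123) (.br (nat_lit 1) (.cons (.br (nat_lit 2) (.cons (.rel (nat_lit 100664328)) .nil)) .nil)) .leaf) (nat_lit 16455145020410036) (.br (nat_lit 0) (.cons (.br (nat_lit 1) (.cons (.rel (nat_lit 20975748)) .nil)) .nil)) (.node .leaf (nat_lit 16455145020645377) (.br (nat_lit 1) (.cons (.br (nat_lit 5) (.cons (.rel (nat_lit 4312793346)) (.cons (.rel (nat_lit 8606732289)) .nil))) .nil)) .leaf)) (nat_lit 16455145020717086) (.br (nat_lit 0) (.cons (.br (nat_lit 1) (.cons (.rel (nat_lit 22021128)) .nil)) .nil)) (.node (.node .leaf (nat_lit 16459477159569409) (.br (nat_lit 4) (.cons (.br (nat_lit 6) (.cons (.rel (nat_lit 36507287616)) .nil)) .nil)) .leaf) (nat_lit 16461630421262337) (.br (nat_lit 1) (.cons (.br (nat_lit 4) (.cons (.rel (nat_lit 2164326432)) .nil)) .nil)) (.node .leaf (nat_lit 16461633584900097) (.br (nat_lit 1) (.cons (.br (nat_lit 3) (.cons (.rel (nat_lit 285753600)) .nil)) .nil)) .leaf)))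

/-- refutations 133 -/
def e133 : EX := (.node (.node .leaf (nat_lit 16461664984023220) (.br (nat_lit 0) (.cons (.br (nat_lit 2) (.cons (.rel (nat_lit 72351777)) .nil)) .nil)) .leaf) (nat_lit 16461666014138369) (.br (nat_lit 0) (.cons (.br (nat_lit 1) (.cons (.rel (nat_lit 21037200)) .nil)) .nil)) (.node .leaf (nat_lit 16462106199589044) (.br (nat_lit 1) (.cons (.br (nat_lit 2) (.cons (.rel (nat_lit 100663314)) .nil)) .nil)) .leaf))

/-- refutations 135 -/
def e135 : EX := (.node .leaf (nat_lit 16496005144408846) (.br (nat_lit 0) (.cons (.br (nat_lit 2) (.cons (.rel (nat_lit 138494208)) .nil)) .nil)) .leaf)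

/-- refutations 137 -/
def e137 : EX := (.node (.node .leaf (nat_lit 22095794288422913) (.br (nat_lit 0) (.cons (.br (nat_lit 1) (.cons (.rel (nat_lit 25182720)) .nil)) .nil)) .leaf) (nat_lit 22097122922359420) (.br (nat_lit 2) (.cons (.br (nat_lit 4) (.cons (.rel (nat_lit 1207981056)) .nil)) .nil)) .leaf)

/-- refutations 138 -/
def e138 : EX := (.node .leaf (nat_lit 22102236741009409) (.br (nat_lit 1) (.cons (.br (nat_lit 2) (.cons (.rel (nat_lit 150996996)) .nil)) .nil)) .leaf)

/-- refutations 139 -/
def e139 : EX := (.node (.node .leaf (nat_lit 22113467139388192) (.br (nat_lit 0) (.cons (.br (nat_lit 1) (.cons (.rel (nat_lit 20972928)) .nil)) .nil)) .leaf) (nat_lit 22113819877742642) (.br (nat_lit 0) (.cons (.br (nat_lit 4) (.cons (.rel (nat_lit 1078460436)) .nil)) .nil)) .leaf)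

/-- refutations 140 -/
def e140 : EX := (.node (.node .leaf (nat_lit 22120129693333505) (.br (nat_lit 0) (.cons (.br (nat_lit 1) (.cons (.rel (nat_lit 21561348)) .nil)) .nil)) .leaf) (nat_lit 22126577500404637) (.br (nat_lit 1) (.cons (.br (nat_lit 2) (.cons (.rel (nat_lit 84934662)) (.cons (.rel (nat_lit 84934662)) .nil))) .nil)) (.node .leaf (nat_lit 22126577500660637) (.br (nat_lit 0) (.cons (.br (nat_lit 1) (.cons (.rel (nat_lit 22020114)) .nil)) .nil)) .leaf))

/-- refutations 141 -/
def e141 : EX := (.node .leaf (nat_lit 22185270822367233) (.br (nat_lit 0) (.cons (.br (nat_lit 3) (.cons (.rel (nat_lit 547377156)) .nil)) .nil)) .leaf)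

/-- refutations 142 -/
def e142 : EX := (.node .leaf (nat_lit 22196720596643841) (.br (nat_lit 0) (.cons (.br (nat_lit 1) (.cons (.rel (nat_lit 22024704)) .nil)) .nil)) .leaf)

/-- refutations 143 -/
def e143 : EX := (.node (.node (.node .leaf (nat_lit 22430467774813446) (.br (nat_lit 1) (.cons (.br (nat_lit 5) (.cons (.rel (nat_lit 4312811520)) .nil)) .nil)) .leaf) (nat_lit 22431545710633120) (.br (nat_lit 3) (.cons (.br (nat_lit 4) (.cons (.rel (nat_lit 1343250432)) .nil)) .nil)) .leaf) (nat_lit 22436539813883905) (.br (nat_lit 1) (.cons (.br (nat_lit 3) (.cons (.rel (nat_lit 286277652)) .nil)) .nil)) (.node (.node .leaf (nat_lit 22436546214391809) (.br (nat_lit 3) (.cons (.br (nat_lit 0) (.cons (.rel (nat_lit 276829221)) (.cons (.rel (nat_lit 273678612)) .nil))) .nil)) .leaf) (nat_lit 22436546214393335) (.br (nat_lit 3) (.cons (.br (nat_lit 5) (.cons (.rel (nat_lit 4563664980)) .nil)) .nil)) .leaf))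

/-- refutations 144 -/
def e144 : EX := (.node (.node (.node .leaf (nat_lit 22438027020319970) (.br (nat_lit 3) (.cons (.br (nat_lit 5) (.cons (.rel (nat_lit 8858372097)) .nil)) .nil)) .leaf) (nat_lit 22438031109766370) (.br (nat_lit 6) (.cons (.br (nat_lit 5) (.cons (.br (nat_lit 4) (.cons (.rel (nat_lit 9663676674)) (.cons (.rel (nat_lit 9663676674)) .nil))) (.cons (.rel (nat_lit 21475885062)) .nil))) .nil)) (.node .leaf (nat_lit 22443234116986212) (.br (nat_lit 0) (.cons (.br (nat_lit 1) (.cons (.rel (nat_lit 22020114)) .nil)) .nil)) .leaf)) (nat_lit 22443403171622913) (.br (nat_lit 5) (.cons (.br (nat_lit 0) (.cons (.rel (nat_lit 4303356192)) (.cons (.rel (nat_lit 8594133249)) .nil))) .nil)) (.node (.node .leaf (nat_lit 22443403173105665) (.br (nat_lit 1) (.cons (.br (nat_lit 6) (.cons (.rel (nat_lit 17213444112)) .nil)) .nil)) .leaf) (nat_lit 22443403173106464) (.br (nat_lit 2) (.cons (.br (nat_lit 3) (.cons (.rel (nat_lit 336610320)) .nil)) .nil)) (.node .leaf (nat_lit 22443409572130817) (.br (nat_lit 2) (.cons (.br (nat_lit 3) (.cons (.rel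 (nat_lit 336599040)) .nil)) .nil)) .leaf)))

/-- refutations 145 -/
def e145 : EX := (.node .leaf (nat_lit 22518061526915097) (.br (nat_lit 0) (.cons (.br (nat_lit 1) (.cons (.rel (nat_lit 21037200)) .nil)) .nil)) .leaf)

/-- refutations 146 -/
def e146 : EX := (.node .leaf (nat_lit 22519333459589780) (.br (nat_lit 0) (.cons (.br (nat_lit 1) (.cons (.rel (nat_lit 20972928)) .nil)) .nil)) .leaf)

/-- refutations 148 -/
def e148 : EX := (.node (.node .leaf (nat_lit 16050828619020289) (.br (nat_lit 0) (.cons (.br (nat_lit 3) (.cons (.rel (nat_lit 273682437)) .nil)) .nil)) .leaf) (nat_lit 16050831655696385) (.br (nat_lit 0) (.cons (.br (nat_lit 2) (.cons (.rel (nat_lit 138547200)) .nil)) .nil)) (.node .leaf (nat_lit 16057010649865697) (.br (nat_lit 0) (.cons (.br (nat_lit 3) (.cons (.rel (nat_lit 273679617)) .nil)) .nil)) .leaf))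

/-- refutations 150 -/
def e150 : EX := (.node .leaf (nat_lit 22871001709916841) (.br (nat_lit 0) (.cons (.br (nat_lit 1) (.cons (.rel (nat_lit 20975748)) .nil)) .nil)) .leaf)

/-- refutations 151 -/
def e151 : EX := (.node (.node .leaf (nat_lit 22883156466094140) (.br (nat_lit 0) (.cons (.br (nat_lit 6) (.cons (.rel (nat_lit 17185116420)) .nil)) .nil)) .leaf) (nat_lit 22883156466094740) (.br (nat_lit 0) (.cons (.br (nat_lit 6) (.cons (.rel (nat_lit 17184587778)) .nil)) .nil)) (.node .leaf (nat_lit 22883156467682040) (.br (nat_lit 0) (.cons (.br (nat_lit 2) (.cons (.rel (nat_lit 71565633)) .nil)) .nil)) .leaf))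

/-- refutations 153 -/
def e153 : EX := (.node .leaf (nat_lit 22887442744380919) (.br (nat_lit 0) (.cons (.br (nat_lit 1) (.cons (.rel (nat_lit 25165845)) .nil)) .nil)) .leaf)

/-- refutations 154 -/
def e154 : EX := (.node .leaf (nat_lit 22900748589228094) (.br (nat_lit 0) (.cons (.br (nat_lit 1) (.cons (.rel (nat_lit 25165845)) .nil)) .nil)) .leaf)

/-- refutations 155 -/
def e155 : EX := (.node (.node .leaf (nat_lit 22957849410797080) (.br (nat_lit 0) (.cons (.br (nat_lit 1) (.cons (.rel (nat_lit 20972928)) .nil)) .nil)) .leaf) (nat_lit 22958923404217570) (.br (nat_lit 0) (.cons (.br (nat_lit 3) (.cons (.rel (nat_lit 272711808)) .nil)) .nil)) .leaf)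

/-- refutations 157 -/
def e157 : EX := (.node .leaf (nat_lit 22971203319737876) (.br (nat_lit 0) (.cons (.br (nat_lit 2) (.cons (.rel (nat_lit 71843844)) .nil)) .nil)) .leaf)

/-- refutations 158 -/
def e158 : EX := (.node (.node (.node .leaf (nat_lit 22993047425413121) (.br (nat_lit 0) (.cons (.br (nat_lit 2) (.cons (.rel (nat_lit 138547200)) .nil)) .nil)) .leaf) (nat_lit 22993053631955871) (.br (nat_lit 0) (.cons (.br (nat_lit 3) (.cons (.rel (nat_lit 545521920)) .nil)) .nil)) .leaf) (nat_lit 22993053737841425) (.br (nat_lit 0) (.cons (.br (nat_lit 2) (.cons (.rel (nat_lit 75518208)) .nil)) .nil)) (.node .leaf (nat_lit 22993084824445680) (.br (nat_lit 0) (.cons (.br (nat_lit 3) (.cons (.rel (nat_lit 272912448)) .nil)) .nil)) .leaf))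

/-- refutations 159 -/
def e159 : EX := (.node (.node (.node .leaf (nat_lit 22998871415191553) (.br (nat_lit 0) (.cons (.br (nat_lit 3) (.cons (.rel (nat_lit 273154560)) .nil)) .nil)) .leaf) (nat_lit 23005957986476033) (.br (nat_lit 3) (.cons (.br (nat_lit 5) (.cons (.rel (nat_lit 9126805572)) (.cons (.rel (nat_lit 8858372097)) .nil))) (.cons (.br (nat_lit 0) (.cons (.rel (nat_lit 272912448)) (.cons (.rel (nat_lit 273682437)) (.cons (.rel (nat_lit 545521920)) .nil)))) .nil))) .leaf) (nat_lit 23005957989630738) (.br (nat_lit 4) (.cons (.br (nat_lit 5) (.cons (.rel (nat_lit 5369757720)) .nil)) .nil)) (.node .leaf (nat_lit 23006301669324279) (.br (nat_lit 0) (.cons (.br (nat_lit 1) (.cons (.rel (nat_lit 25165845)) .nil)) .nil)) .leaf))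

/-- refutations 160 -/
def e160 : EX := (.node (.node .leaf (nat_lit 22565308191588657) (.br (nat_lit 1) (.cons (.br (nat_lit 2) (.cons (.rel (nat_lit 84934662)) .nil)) .nil)) .leaf) (nat_lit 22565309416794113) (.br (nat_lit 0) (.cons (.br (nat_lit 1) (.cons (.rel (nat_lit 25235712)) .nil)) .nil)) (.node .leaf (nat_lit 22975664621628168) (.br (nat_lit 0) (.cons (.br (nat_lit 1) (.cons (.rel (nat_lit 25182720)) .nil)) .nil)) .leaf))

/-- refutations 161 -/
def e161 : EX := (.node (.node .leaf (nat_lit 23063419225662200) (.br (nat_lit 0) (.cons (.br (nat_lit 1) (.cons (.rel (nat_lit 22021128)) .nil)) .nil)) .leaf) (nat_lit 23065514620747777) (.br (nat_lit 0) (.cons (.br (nat_lit 2) (.cons (.rel (nat_lit 71319696)) .nil)) .nil)) (.node .leaf (nat_lit 23069864823869441) (.br (nat_lit 0) (.cons (.br (nat_lit 1) (.cons (.rel (nat_lit 22021128)) .nil)) .nil)) .leaf))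

/-- refutations 162 -/
def e162 : EX := (.node (.node .leaf (nat_lit 23071410129741949) (.br (nat_lit 0) (.cons (.br (nat_lit 2) (.cons (.rel (nat_lit 72351777)) .nil)) .nil)) .leaf) (nat_lit 23071410129742751) (.br (nat_lit 0) (.cons (.br (nat_lit 2) (.cons (.rel (nat_lit 72450048)) .nil)) .nil)) .leaf)

/-- refutations 163 -/
def e163 : EX := (.node .leaf (nat_lit 23053796062115841) (.br (nat_lit 0) (.cons (.br (nat_lit 1) (.cons (.rel (nat_lit 20988033)) .nil)) .nil)) .leaf)

/-- refutations 164 -/
def e164 : EX := (.node (.node .leaf (nat_lit 24277657455194364) (.br (nat_lit 1) (.cons (.br (nat_lit 4) (.cons (.rel (nat_lit 1107427344)) .nil)) .nil)) .leaf) (nat_lit 24278550807373825) (.br (nat_lit 0) (.cons (.br (nat_lit 1) (.cons (.rel (nat_lit 21237840)) .nil)) .nil)) (.node .leaf (nat_lit 24279579520165221) (.br (nat_lit 0) (.cons (.br (nat_lit 2) (.cons (.rel (nat_lit 138547200)) .nil)) .nil)) .leaf))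

/-- refutations 166 -/
def e166 : EX := (.node .leaf (nat_lit 24209273553117440) (.br (nat_lit 0) (.cons (.br (nat_lit 2) (.cons (.rel (nat_lit 72360192)) .nil)) .nil)) .leaf)

/-- refutations 167 -/
def e167 : EX := (.node (.node .leaf (nat_lit 24630569195857921) (.br (nat_lit 2) (.cons (.br (nat_lit 3) (.cons (.rel (nat_lit 604110864)) .nil)) .nil)) .leaf) (nat_lit 24631425316014755) (.br (nat_lit 0) (.cons (.br (nat_lit 1) (.cons (.rel (nat_lit 37781760)) .nil)) .nil)) .leaf)

/-- refutations 168 -/
def e168 : EX := (.node (.node (.node .leaf (nat_lit 24634692343480370) (.br (nat_lit 0) (.cons (.br (nat_lit 4) (.cons (.rel (nat_lit 1079005188)) .nil)) .nil)) .leaf) (nat_lit 24634692343480600) (.br (nat_lit 0) (.cons (.br (nat_lit 3) (.cons (.rel (nat_lit 545521920)) .nil)) .nil)) (.node .leaf (nat_lit 24634692344823260) (.br (nat_lit 0) (.cons (.br (nat_lit 3) (.cons (.rel (nat_lit 545521920)) .nil)) .nil)) .leaf)) (nat_lit 24635989406369244) (.br (nat_lit 0) (.cons (.br (nat_lit 3) (.cons (.rel (nat_lit 545521920)) .nil)) .nil)) (.node (.node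 .leaf (nat_lit 24640872251649280) (.br (nat_lit 0) (.cons (.br (nat_lit 1) (.cons (.rel (nat_lit 20988033)) .nil)) .nil)) .leaf) (nat_lit 24640877117369755) (.br (nat_lit 1) (.cons (.br (nat_lit 0) (.cons (.rel (nat_lit 22020114)) (.cons (.rel (nat_lit 25165845)) .nil))) .nil)) .leaf))

/-- refutations 170 -/
def e170 : EX := (.node (.node .leaf (nat_lit 24805030746449921) (.br (nat_lit 3) (.cons (.br (nat_lit 4) (.cons (.rel (nat_lit 1610678289)) .nil)) .nil)) .leaf) (nat_lit 24805030746450855) (.br (nat_lit 1) (.cons (.br (nat_lit 0) (.cons (.rel (nat_lit 20972928)) (.cons (.rel (nat_lit 20988033)) .nil))) .nil)) (.node .leaf (nat_lit 24805071894918630) (.br (nat_lit 0) (.cons (.br (nat_lit 1) (.cons (.rel (nat_lit 20972928)) .nil)) .nil)) .leaf))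

/-- refutations 171 -/
def e171 : EX := (.node (.node (.node (.node .leaf (nat_lit 24810565780696346) (.br (nat_lit 4) (.cons (.br (nat_lit 6) (.cons (.rel (nat_lit 18254725122)) .nil)) .nil)) .leaf) (nat_lit 24810565783184666) (.br (nat_lit 1) (.cons (.br (nat_lit 3) (.cons (.rel (nat_lit 302055426)) .nil)) .nil)) .leaf) (nat_lit 24810866576415381) (.br (nat_lit 0) (.cons (.br (nat_lit 3) (.cons (.rel (nat_lit 274726992)) .nil)) .nil)) (.node .leaf (nat_lit 24810866577766401) (.br (nat_lit 0) (.cons (.br (nat_lit 3) (.cons (.rel (nat_lit 276828168)) .nil)) .nil)) .leaf)) (nat_lit 24810866577801278) (.br (nat_lit 4) (.cons (.br (nat_lit 5) (.cons (.br (nat_lit 0) (.cons (.rel (nat_lit 4299169920)) (.cons (.rel (nat_lit 8598327360)) .nil))) .nil)) .nil)) (.node (.node (.node .leaf (nat_lit 24810871901973786) (.br (nat_lit 0) (.cons (.br (nat_lit 3) (.cons (.rel (nat_lit 273154560)) .nil)) .nil)) .leaf) (nat_lit 24810871904461461) (.br (nat_lit 0) (.cons (.br (nat_lit 4) (.cons (.rel (nat_lit 1079055360)) .nil)) .nil)) .leaf) (nat_lit 24811906483935368)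 (.br (nat_lit 3) (.cons (.br (nat_lit 4) (.cons (.rel (nat_lit 1611661392)) .nil)) .nil)) (.node .leaf (nat_lit 24818082647041286) (.br (nat_lit 1) (.cons (.br (nat_lit 4) (.cons (.rel (nat_lit 1090519173)) .nil)) .nil)) .leaf)))

/-- refutations 173 -/
def e173 : EX := (.node (.node .leaf (nat_lit 24717036378929433) (.br (nat_lit 0) (.cons (.br (nat_lit 2) (.cons (.rel (nat_lit 71319696)) .nil)) .nil)) .leaf) (nat_lit 24717537543978266) (.br (nat_lit 0) (.cons (.br (nat_lit 3) (.cons (.rel (nat_lit 273694722)) .nil)) .nil)) .leaf)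

/-- refutations 174 -/
def e174 : EX := (.node .leaf (nat_lit 24822672381192193) (.br (nat_lit 0) (.cons (.br (nat_lit 1) (.cons (.rel (nat_lit 22020114)) .nil)) .nil)) .leaf)

/-- refutations 176 -/
def e176 : EX := (.node (.node (.node .leaf (nat_lit 25157043563192321) (.br (nat_lit 0) (.cons (.br (nat_lit 2) (.cons (.rel (nat_lit 75498513)) .nil)) .nil)) .leaf) (nat_lit 25157043563193001) (.br (nat_lit 3) (.cons (.br (nat_lit 4) (.cons (.rel (nat_lit 1610629122)) .nil)) .nil)) (.node .leaf (nat_lit 25157043563304961) (.br (nat_lit 1) (.cons (.br (nat_lit 3) (.cons (.rel (nat_lit 286278657)) .nil)) .nil)) .leaf)) (nat_lit 25157046037831681) (.br (nat_lit 0) (.cons (.br (nat_lit 3) (.cons (.rel (nat_lit 276825348)) .nil)) .nil)) (.node (.node .leaf (nat_lit 25157046037938828) (.br (nat_lit 0) (.cons (.br (nat_lit 3) (.cons (.rel (nat_lit 276828168)) .nil)) .nil)) .leaf) (nat_lit 25158160252241921) (.br (nat_lit 0) (.cons (.br (nat_lit 3) (.cons (.rel (nat_lit 545259876)) .nil)) .nil)) .leaf))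

/-- refutations 177 -/
def e177 : EX := (.node (.node (.node .leaf (nat_lit 25158334567464965) (.br (nat_lit 4) (.cons (.br (nat_lit 5) (.cons (.rel (nat_lit 5369233668)) .nil)) .nil)) .leaf) (nat_lit 25159449854588187) (.br (nat_lit 0) (.cons (.br (nat_lit 1) (.cons (.rel (nat_lit 20972928)) .nil)) .nil)) (.node .leaf (nat_lit 25162414891304961) (.br (nat_lit 0) (.cons (.br (nat_lit 3) (.cons (.rel (nat_lit 273154560)) .nil)) .nil)) .leaf)) (nat_lit 25162414892584961) (.br (nat_lit 0) (.cons (.br (nat_lit 6) (.cons (.rel (nat_lit 17184064644)) .nil)) .nil)) (.node (.node .leaf (nat_lit 25162414893752321) (.br (nat_lit 0) (.cons (.br (nat_lit 6) (.cons (.rel (nat_lit 34363933968)) (.cons (.rel (nat_lit 17184064644)) .nil))) .nil)) .leaf) (nat_lit 25162710297416361) (.br (nat_lit 0) (.cons (.br (nat_lit 3) (.cons (.rel (nat_lit 545521920)) .nil)) .nil)) (.node .leaf (nat_lit 25162715625349121) (.br (nat_lit 0) (.cons (.br (nat_lit 3) (.cons (.rel (nat_lit 276828168)) .nil)) .nil)) .leaf)))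

/-- refutations 178 -/
def e178 : EX := (.node (.node .leaf (nat_lit 25167574823115038) (.br (nat_lit 1) (.cons (.br (nat_lit 2) (.cons (.rel (nat_lit 84213840)) .nil)) .nil)) .leaf) (nat_lit 25169722159921153) (.br (nat_lit 0) (.cons (.br (nat_lit 2) (.cons (.rel (nat_lit 75661824)) .nil)) .nil)) .leaf)

/-- refutations 179 -/
def e179 : EX := (.node .leaf (nat_lit 25245952109957121) (.br (nat_lit 0) (.cons (.br (nat_lit 5) (.cons (.rel (nat_lit 4299169920)) .nil)) .nil)) .leaf)

/-- refutations 181 -/
def e181 : EX := (.node (.node (.node .leaf (nat_lit 26389611555645720) (.br (nat_lit 0) (.cons (.br (nat_lit 4) (.cons (.rel (nat_lit 2156004672)) .nil)) .nil)) .leaf) (nat_lit 26389783354132640) (.br (nat_lit 0) (.cons (.br (nat_lit 1) (.cons (.rel (nat_lit 25166850)) .nil)) .nil)) (.node .leaf (nat_lit 26389783354337440) (.br (nat_lit 0) (.cons (.br (nat_lit 1) (.cons (.rel (nat_lit 25166850)) .nil)) .nil)) .leaf)) (nat_lit 26390642608820505) (.br (nat_lit 0) (.cons (.br (nat_lit 2) (.cons (.rel (nat_lit 71565633)) .nil)) .nil)) (.node (.node .leaf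 (nat_lit 26390643922689250) (.br (nat_lit 1) (.cons (.br (nat_lit 3) (.cons (.rel (nat_lit 285220992)) .nil)) .nil)) .leaf) (nat_lit 26390646801589159) (.br (nat_lit 0) (.cons (.br (nat_lit 1) (.cons (.rel (nat_lit 20975748)) .nil)) .nil)) (.node .leaf (nat_lit 26390647297004957) (.br (nat_lit 1) (.cons (.br (nat_lit 2) (.cons (.rel (nat_lit 84943125)) .nil)) .nil)) .leaf)))

/-- refutations 183 -/
def e183 : EX := (.node .leaf (nat_lit 26401597293082800) (.br (nat_lit 0) (.cons (.br (nat_lit 2) (.cons (.rel (nat_lit 75518208)) .nil)) .nil)) .leaf)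

/-- refutations 184 -/
def e184 : EX := (.node (.node (.node .leaf (nat_lit 26476500885637425) (.br (nat_lit 4) (.cons (.br (nat_lit 6) (.cons (.br (nat_lit 0) (.cons (.rel (nat_lit 34368389121)) (.cons (.rel (nat_lit 2151678225)) .nil))) .nil)) .nil)) .leaf) (nat_lit 26476506831675393) (.br (nat_lit 2) (.cons (.br (nat_lit 4) (.cons (.rel (nat_lit 1141112928)) .nil)) .nil)) .leaf) (nat_lit 26476512786573313) (.br (nat_lit 2) (.cons (.br (nat_lit 3) (.cons (.rel (nat_lit 336610320)) .nil)) .nil)) (.node .leaf (nat_lit 26483974127247665) (.br (nat_lit 0) (.cons (.br (nat_lit 1) (.cons (.rel (nat_lit 22167552)) (.cons (.rel (nat_lit 21037200)) .nil))) .nil)) .leaf))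

/-- refutations 185 -/
def e185 : EX := (.node (.node .leaf (nat_lit 26489600534405425) (.br (nat_lit 4) (.cons (.br (nat_lit 5) (.cons (.rel (nat_lit 6442451457)) .nil)) .nil)) .leaf) (nat_lit 26489602611600670) (.br (nat_lit 0) (.cons (.br (nat_lit 2) (.cons (.rel (nat_lit 72351777)) .nil)) .nil)) .leaf)

/-- refutations 186 -/
def e186 : EX := (.node (.node (.node .leaf (nat_lit 26511683146510337) (.br (nat_lit 0) (.cons (.br (nat_lit 1) (.cons (.rel (nat_lit 20988033)) .nil)) .nil)) .leaf) (nat_lit 26513850091984897) (.br (nat_lit 0) (.cons (.br (nat_lit 1) (.cons (.br (nat_lit 2) (.cons (.rel (nat_lit 100663314)) .nil)) .nil)) .nil)) .leaf) (nat_lit 26513850092036097) (.br (nat_lit 0) (.cons (.br (nat_lit 1) (.cons (.rel (nat_lit 21561348)) .nil)) .nil)) (.node .leaf (nat_lit 26518318886271776) (.br (nat_lit 1) (.cons (.br (nat_lit 4) (.cons (.rel (nat_lit 1107427344)) .nil)) .nil)) .leaf))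

/-- refutations 187 -/
def e187 : EX := (.node .leaf (nat_lit 26524624011508637) (.br (nat_lit 0) (.cons (.br (nat_lit 1) (.cons (.rel (nat_lit 25235712)) .nil)) .nil)) .leaf)

/-- refutations 189 -/
def e189 : EX := (.node (.node .leaf (nat_lit 26840206886296438) (.br (nat_lit 0) (.cons (.br (nat_lit 1) (.cons (.rel (nat_lit 22020114)) .nil)) .nil)) .leaf) (nat_lit 26840210141649583) (.br (nat_lit 0) (.cons (.br (nat_lit 3) (.cons (.rel (nat_lit 276889620)) .nil)) .nil)) .leaf)

/-- refutations 191 -/
def e191 : EX := (.node (.node (.node (.node .leaf (nat_lit 27004014316449854) (.br (nat_lit 2) (.cons (.br (nat_lit 6) (.cons (.rel (nat_lit 34493956161)) .nil)) .nil)) .leaf) (nat_lit 27004014316450549) (.br (nat_lit 1) (.cons (.br (nat_lit 5) (.cons (.rel (nat_lit 4311810432)) .nil)) .nil)) .leaf) (nat_lit 27004014317998081) (.br (nat_lit 1) (.cons (.br (nat_lit 2) (.cons (.rel (nat_lit 100664328)) .nil)) .nil)) (.node (.node .leaf (nat_lit 27004538302459905) (.br (nat_lit 2) (.cons (.br (nat_lit 0) (.cons (.rel (nat_lit 72353796)) (.cons (.rel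 (nat_lit 75497508)) .nil))) .nil)) .leaf) (nat_lit 27004538302459934) (.br (nat_lit 0) (.cons (.br (nat_lit 3) (.cons (.rel (nat_lit 545521920)) .nil)) .nil)) .leaf)) (nat_lit 27004538302459966) (.br (nat_lit 2) (.cons (.br (nat_lit 0) (.cons (.rel (nat_lit 71307414)) (.cons (.rel (nat_lit 138494208)) .nil))) .nil)) (.node (.node (.node .leaf (nat_lit 27004538302460704) (.br (nat_lit 0) (.cons (.br (nat_lit 5) (.cons (.rel (nat_lit 4299554880)) .nil)) .nil)) .leaf) (nat_lit 27004539349780760) (.br (nat_lit 0) (.cons (.br (nat_lit 1) (.cons (.rel (nat_lit 25313286)) .nil)) .nil)) .leaf) (nat_lit 27005166417612801) (.br (nat_lit 0) (.cons (.br (nat_lit 2) (.cons (.rel (nat_lit 138547200)) .nil)) .nil)) (.node .leaf (nat_lit 27006162847762712) (.br (nat_lit 1) (.cons (.br (nat_lit 3) (.cons (.br (nat_lit 2) (.cons (.rel (nat_lit 671088960)) (.cons (.rel (nat_lit 150996996)) .nil))) .nil)) .nil)) .leaf)))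

/-- refutations 192 -/
def e192 : EX := (.node (.node (.node (.node .leaf (nat_lit 27006674225694877) (.br (nat_lit 0) (.cons (.br (nat_lit 1) (.cons (.rel (nat_lit 22021128)) .nil)) .nil)) .leaf) (nat_lit 27006674456341161) (.br (nat_lit 0) (.cons (.br (nat_lit 2) (.cons (.rel (nat_lit 71565633)) .nil)) .nil)) .leaf) (nat_lit 27010757413681182) (.br (nat_lit 1) (.cons (.br (nat_lit 3) (.cons (.rel (nat_lit 553779201)) .nil)) .nil)) (.node .leaf (nat_lit 27010757415104574) (.br (nat_lit 1) (.cons (.br (nat_lit 2) (.cons (.rel (nat_lit 84934662)) .nil)) .nil)) .leaf)) (nat_lit 27010758023606273) (.br (nat_lit 0) (.cons (.br (nat_lit 1) (.cons (.rel (nat_lit 21037200)) .nil)) .nil)) (.node (.node .leaf (nat_lit 27010763558336542) (.br (nat_lit 0) (.cons (.br (nat_lit 5) (.cons (.rel (nat_lit 4299554880)) .nil)) .nil)) .leaf) (nat_lit 27010763561367582) (.br (nat_lit 2) (.cons (.br (nat_lit 5) (.cons (.rel (nat_lit 4363191300)) .nil)) .nil)) (.node .leaf (nat_lit 27010763561368352) (.br (nat_lit 1) (.cons (.br (nat_lit 2) (.cons (.rel (nat_lit 84935712))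 .nil)) .nil)) .leaf)))

/-- refutations 193 -/
def e193 : EX := (.node (.node (.node (.node (.node .leaf (nat_lit 27016976526239206) (.br (nat_lit 1) (.cons (.br (nat_lit 5) (.cons (.rel (nat_lit 4312011072)) .nil)) .nil)) .leaf) (nat_lit 27016976527749150) (.br (nat_lit 0) (.cons (.br (nat_lit 1) (.cons (.rel (nat_lit 37750785)) .nil)) .nil)) .leaf) (nat_lit 27016976527749182) (.br (nat_lit 0) (.cons (.br (nat_lit 5) (.cons (.rel (nat_lit 4299169920)) .nil)) .nil)) (.node .leaf (nat_lit 27016976527749877) (.br (nat_lit 0) (.cons (.br (nat_lit 2) (.cons (.rel (nat_lit 71319696)) .nil)) .nil)) .leaf)) (nat_lit 27016976527749920) (.br (nat_lit 0) (.cons (.br (nat_lit 3) (.cons (.rel (nat_lit 273679617)) .nil)) .nil)) (.node (.node .leaf (nat_lit 27016976527750630) (.br (nat_lit 0) (.cons (.br (nat_lit 1) (.cons (.rel (nat_lit 25182720)) (.cons (.rel (nat_lit 37781760)) .nil))) .nil)) .leaf) (nat_lit 27016976527814686) (.br (nat_lit 1) (.cons (.br (nat_lit 5) (.cons (.rel (nat_lit 8606720004)) .nil)) .nil)) (.node .leaf (nat_lit 27016976529357600) (.br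 (nat_lit 1) (.cons (.br (nat_lit 5) (.cons (.rel (nat_lit 8623767552)) .nil)) .nil)) .leaf))) (nat_lit 27016976529358310) (.br (nat_lit 1) (.cons (.br (nat_lit 0) (.cons (.rel (nat_lit 22021128)) (.cons (.rel (nat_lit 37750785)) .nil))) .nil)) (.node (.node (.node .leaf (nat_lit 27016982670981920) (.br (nat_lit 0) (.cons (.br (nat_lit 2) (.cons (.rel (nat_lit 71319696)) .nil)) .nil)) .leaf) (nat_lit 27016982672404510) (.br (nat_lit 0) (.cons (.br (nat_lit 1) (.cons (.rel (nat_lit 37750785)) .nil)) .nil)) (.node .leaf (nat_lit 27016982674013670) (.br (nat_lit 1) (.cons (.br (nat_lit 5) (.cons (.rel (nat_lit 4328588289)) .nil)) .nil)) .leaf)) (nat_lit 27017320125133600) (.br (nat_lit 2) (.cons (.br (nat_lit 5) (.cons (.rel (nat_lit 4363141128)) .nil)) .nil)) (.node (.node .leaf (nat_lit 27017374140772603) (.br (nat_lit 0) (.cons (.br (nat_lit 1) (.cons (.rel (nat_lit 37781760)) .nil)) .nil)) .leaf) (nat_lit 27017377807972414) (.br (nat_lit 0) (.cons (.br (nat_lit 1) (.cons (.rel (nat_lit 22021128)) .nil)) .nil)) (.node .leaf (nat_lit 27017377807973862)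 (.br (nat_lit 0) (.cons (.br (nat_lit 2) (.cons (.rel (nat_lit 75497508)) .nil)) .nil)) .leaf))))

/-- refutations 194 -/
def e194 : EX := (.node .leaf (nat_lit 26918665650750217) (.br (nat_lit 0) (.cons (.br (nat_lit 1) (.cons (.rel (nat_lit 22021128)) .nil)) .nil)) .leaf)

/-- refutations 195 -/
def e195 : EX := (.node (.node .leaf (nat_lit 27355849300675995) (.br (nat_lit 0) (.cons (.br (nat_lit 2) (.cons (.rel (nat_lit 142607940)) .nil)) .nil)) .leaf) (nat_lit 27355895921368540) (.br (nat_lit 1) (.cons (.br (nat_lit 3) (.cons (.rel (nat_lit 570691608)) .nil)) .nil)) (.node .leaf (nat_lit 27355941636782866) (.br (nat_lit 0) (.cons (.br (nat_lit 3) (.cons (.rel (nat_lit 541081872)) .nil)) .nil)) .leaf))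

/-- refutations 196 -/
def e196 : EX := (.node (.node (.node .leaf (nat_lit 27358011140401432) (.br (nat_lit 0) (.cons (.br (nat_lit 1) (.cons (.rel (nat_lit 22020114)) .nil)) .nil)) .leaf) (nat_lit 27358042993220471) (.br (nat_lit 1) (.cons (.br (nat_lit 4) (.cons (.rel (nat_lit 2164262160)) .nil)) .nil)) (.node .leaf (nat_lit 27358274922227968) (.br (nat_lit 2) (.cons (.br (nat_lit 4) (.cons (.rel (nat_lit 1141899792)) .nil)) .nil)) .leaf)) (nat_lit 27361476985744640) (.br (nat_lit 0) (.cons (.br (nat_lit 2) (.cons (.rel (nat_lit 75518208)) .nil)) .nil)) (.node (.node .leaf (nat_lit 27361476987403520) (.br (nat_lit 0) (.cons (.br (nat_lit 1) (.cons (.rel (nat_lit 22020114)) .nil)) .nil)) .leaf) (nat_lit 27361476988559640) (.br (nat_lit 0) (.cons (.br (nat_lit 1) (.cons (.rel (nat_lit 22024704)) .nil)) .nil)) (.node .leaf (nat_lit 27361481180048640) (.br (nat_lit 0) (.cons (.br (nat_lit 2) (.cons (.rel (nat_lit 75518208)) .nil)) .nil)) .leaf)))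

/-- refutations 197 -/
def e197 : EX := (.node (.node .leaf (nat_lit 27366691078856981) (.br (nat_lit 1) (.cons (.br (nat_lit 2) (.cons (.rel (nat_lit 151093248)) .nil)) .nil)) .leaf) (nat_lit 27366691078857490) (.br (nat_lit 2) (.cons (.br (nat_lit 4) (.cons (.rel (nat_lit 2214658050)) .nil)) .nil)) .leaf)

/-- refutations 198 -/
def e198 : EX := (.node (.node .leaf (nat_lit 27368993180928280) (.br (nat_lit 0) (.cons (.br (nat_lit 2) (.cons (.rel (nat_lit 71843844)) .nil)) .nil)) .leaf) (nat_lit 27369250352629886) (.br (nat_lit 0) (.cons (.br (nat_lit 1) (.cons (.rel (nat_lit 25165845)) .nil)) .nil)) .leaf)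

/-- refutations 199 -/
def e199 : EX := (.node (.node (.node (.node .leaf (nat_lit 27267891556629990) (.br (nat_lit 0) (.cons (.br (nat_lit 1) (.cons (.rel (nat_lit 25182720)) .nil)) .nil)) .leaf) (nat_lit 27267891558052626) (.br (nat_lit 0) (.cons (.br (nat_lit 2) (.cons (.rel (nat_lit 75518208)) .nil)) .nil)) (.node .leaf (nat_lit 27267891559661030) (.br (nat_lit 3) (.cons (.br (nat_lit 0) (.cons (.rel (nat_lit 545327172)) (.cons (.rel (nat_lit 273154560)) .nil))) .nil)) .leaf)) (nat_lit 27267977459005441) (.br (nat_lit 4) (.cons (.br (nat_lit 2) (.cons (.rel (nat_lit 1141899792)) (.cons (.rel (nat_lit 1141899792)) .nil))) .nil)) (.node (.node .leaf (nat_lit 27270251860746500) (.br (nat_lit 0) (.cons (.br (nat_lit 2) (.cons (.rel (nat_lit 138547200)) .nil)) .nil)) .leaf) (nat_lit 27273776398296550) (.br (nat_lit 0) (.cons (.br (nat_lit 1) (.cons (.rel (nat_lit 21037200)) .nil)) .nil)) .leaf)) (nat_lit 27275453007422365) (.br (nat_lit 0) (.cons (.br (nat_lit 2) (.cons (.rel (nat_lit 72360192)) .nil)) .nil)) (.node (.node (.node .leaf (nat_lit 27275453301023645)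 (.br (nat_lit 0) (.cons (.br (nat_lit 1) (.cons (.rel (nat_lit 25165845)) .nil)) .nil)) .leaf) (nat_lit 27280988230411750) (.br (nat_lit 0) (.cons (.br (nat_lit 2) (.cons (.rel (nat_lit 138412056)) .nil)) .nil)) .leaf) (nat_lit 27280993807810695) (.br (nat_lit 4) (.cons (.br (nat_lit 5) (.cons (.rel (nat_lit 6442451457)) .nil)) .nil)) (.node (.node .leaf (nat_lit 27281248906343200) (.br (nat_lit 0) (.cons (.br (nat_lit 1) (.cons (.rel (nat_lit 20975748)) .nil)) .nil)) .leaf) (nat_lit 27281248906343910) (.br (nat_lit 0) (.cons (.br (nat_lit 1) (.cons (.rel (nat_lit 25166850)) .nil)) .nil)) .leaf)))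

/-- list of the parts -/
def L1 : List (ℕ × List ℕ) := [(nat_lit 0x1000000000000000000000000000000000000000000000000000000000000000000000000000000000000000000000000000000000000000000000000000000000000000000000000000000000000000000000000000000000000000000000000000000000, [Nat.sub (Nat.pow 2 939) (Nat.pow 2 0), Nat.sub (Nat.pow 2 3136) (Nat.pow 2 939)]),
  (nat_lit 0x20000000000000000000000000000000000000000000000000000000000000000000000000000000000000000000000000000000000000000000000000000000000000000000000000000000000000000000000000000000000000000000000000000000000, [Nat.sub (Nat.pow 2 64) (Nat.pow 2 0), Nat.sub (Nat.pow 2 755) (Nat.pow 2 64), Nat.sub (Nat.pow 2 1409) (Nat.pow 2 755), Nat.sub (Nat.pow 2 3136) (Nat.pow 2 1409)]),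
  (nat_lit 0x800000000000000000000000000000000000000000000000000000000000000000000000000000000000000000000000000000000000000000000000000000000000000000000000000000000000000000000000000000000000000000000000000000, [cP]),
  (nat_lit 0x800000000000000000000000000000000000000000000000000000000000000000000000000000000000000000000000000000000000000000000000000000000000000000000000000000000000000000000000000000000000000000000000000000000000, [Nat.sub (Nat.pow 2 935) (Nat.pow 2 0), Nat.sub (Nat.pow 2 3136) (Nat.pow 2 935)]),
  (nat_lit 0x1000000000000000000000000000000000000000000000000000000000000000000000000000000000000000000000000000000000000000000000000000000000000000000000000000000000000000000000000000000000000000000000000000000000000, [Nat.sub (Nat.pow 2 806) (Nat.pow 2 0), Nat.sub (Nat.pow 2 3136) (Nat.pow 2 806)]),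
  (nat_lit 0x4000000000000000000000000000000000000000000000000000000000000000000000000000000000000000000000000000000000000000000000000000000000000000000000000000000000000000000000000000000000000000000000000000000000000000000000000000000, [Nat.sub (Nat.pow 2 806) (Nat.pow 2 0), Nat.sub (Nat.pow 2 3136) (Nat.pow 2 806)]),
  (nat_lit 0x8000000000000000000000000000000000000000000000000000000000000000000000000000000000000000000000000000000000000000000000000000000000000000000000000000000000000000000000000000000000000000000000000000000000000000000000000000000, [Nat.sub (Nat.pow 2 941) (Nat.pow 2 0), Nat.sub (Nat.pow 2 3136) (Nat.pow 2 941)]),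
  (nat_lit 0x10000000000000000000000000000000000000000000000000000000000000000000000000000000000000000000000000000000000000000000000000000000000000000000000000000000000000000000000000000000000000000000000000000000000000000000000000000000000, [Nat.sub (Nat.pow 2 309) (Nat.pow 2 0), Nat.sub (Nat.pow 2 934) (Nat.pow 2 309), Nat.sub (Nat.pow 2 1510) (Nat.pow 2 934), Nat.sub (Nat.pow 2 1565) (Nat.pow 2 1510), Nat.sub (Nat.pow 2 3136) (Nat.pow 2 1565)]),
  (nat_lit 0x40000000000000000000000000000000000000000000000000000000000000000000000000000000000000000000000000000000000000000000000000000000000000000000000000000000000000000000000000000000000000000000000000000000000000000000000000000000000, [Nat.sub (Nat.pow 2 935) (Nat.pow 2 0), Nat.sub (Nat.pow 2 3136) (Nat.pow 2 935)]),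
  (nat_lit 0x400000000000000000000000000000000000000000000000000000000000000000000000000000000000000000000000000000000000000000000000000000000000000000000000000000000000000000000000000000000000000000000000000000000000, [cP]),
  (nat_lit 0x200000000000000000000000000000000000000000000000000000000000000000000000000000000000000000000000000000000000000000000000000000000000000000000000000000000000000000000000000000000000000000000000000000000000000000000000000000000000, [cP]),
  (nat_lit 0x4000000000000000000000000000000000000000000000000000000000000000000000000000000000000000000000000000000000000000000000000000000000000000000000000000000000000000000000000000000000000000000000000000000000000000000000000000000000000, [Nat.sub (Nat.pow 2 654) (Nat.pow 2 0), Nat.sub (Nat.pow 2 935) (Nat.pow 2 654), Nat.sub (Nat.pow 2 3136) (Nat.pow 2 935)]),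
  (nat_lit 0x8000000000000000000000000000000000000000000000000000000000000000000000000000000000000000000000000000000000000000000000000000000000000000000000000000000000000000000000000000000000000000000000000000000000000000000000000000000000000, [Nat.sub (Nat.pow 2 1290) (Nat.pow 2 0), Nat.sub (Nat.pow 2 3136) (Nat.pow 2 1290)]),
  (nat_lit 0x800000000000000000000000000000000000000000000000000000000000000000000000000000000000000000000000000000000000000000000000000000000000000000000000000000000000000000000000000000000000000000000000000000000000000000000000000000000000, [cP]),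
  (nat_lit 0x20000000000000000000000000000000000000000000000000000000000000000000000000000000000000000000000000000000000000000000000000000000000000000000000000000000000000000000000000000000000000000000000000000000000000000000000000000000000000000, [Nat.sub (Nat.pow 2 904) (Nat.pow 2 0), Nat.sub (Nat.pow 2 3136) (Nat.pow 2 904)]),
  (nat_lit 0x8000000000000000000000000000000000000000000000000000000000000000000000000000000000000000000000000000000000000000000000000000000000000000000000000000000000000000000000000000000000000000000000000000000000000000000000000000000000000000000, [Nat.sub (Nat.pow 2 659) (Nat.pow 2 0), Nat.sub (Nat.pow 2 1514) (Nat.pow 2 659), Nat.sub (Nat.pow 2 3136) (Nat.pow 2 1514)]),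
  (nat_lit 0x20000000000000000000000000000000000000000000000000000000000000000000000000000000000000000000000000000000000000000000000000000000000000000000000000000000000000000000000000000000000000000000000000000000000000000000000000000000000000000000, [Nat.sub (Nat.pow 2 806) (Nat.pow 2 0), Nat.sub (Nat.pow 2 1516) (Nat.pow 2 806), Nat.sub (Nat.pow 2 3136) (Nat.pow 2 1516)]),
  (nat_lit 0x1000000000000000000000000000000000000000000000000000000000000000000000000000000000000000000000000000000000000000000000000000000000000000000000000000000000000000000000000000000000000000000000000000000000000000000000000000000000000000000000000000000000000000000000000000000000000000000000000000000000000000000000000000, [Nat.sub (Nat.pow 2 691) (Nat.pow 2 0), Nat.sub (Nat.pow 2 3136) (Nat.pow 2 691)]),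
  (nat_lit 0x2000000000000000000000000000000000000000000000000000000000000000000000000000000000000000000000000000000000000000000000000000000000000000000000000000000000000000000000000000000000000000000000000000000000000000000000000000000000000000000000000000000000000000000000000000000000000000000000000000000000000000000000000000, [Nat.sub (Nat.pow 2 760) (Nat.pow 2 0), Nat.sub (Nat.pow 2 3136) (Nat.pow 2 760)]),
  (nat_lit 0x20000000000000000000000000000000000000000000000000000000000000000000000000000000000000000000000000000000000000000000000000000000000000000000000000000000000000000000000000000000000000000000000000000000000000000000000000000000000000000000000000000000000000000000000000000000000000000000000000000000000000000000000000000, [Nat.sub (Nat.pow 2 755) (Nat.pow 2 0), Nat.sub (Nat.pow 2 3136) (Nat.pow 2 755)]),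
  (nat_lit 0x80000000000000000000000000000000000000000000000000000000000000000000000000000000000000000000000000000000000000000000000000000000000000000000000000000000000000000000000000000000000000000000000000000000000000000000000000000000000000000000000000000000000000000000000000000000000000000000000000000000000000000000000000000000, [Nat.sub (Nat.pow 2 904) (Nat.pow 2 0), Nat.sub (Nat.pow 2 3136) (Nat.pow 2 904)]),
  (nat_lit 0x1000000000000000000000000000000000000000000000000000000000000000000000000000000000000000000000000000000000000000000000000000000000000000000000000000000000000000000000000000000000000000000000000000000000000000000000000000000000000000000000000000000000000000000000000000000000000000000000000000000000000000000000000000000000, [Nat.sub (Nat.pow 2 159) (Nat.pow 2 0), Nat.sub (Nat.pow 2 1259) (Nat.pow 2 159), Nat.sub (Nat.pow 2 3136) (Nat.pow 2 1259)]),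
  (nat_lit 0x10000000000000000000000000000000000000000000000000000000000000000000000000000000000000000000000000000000000000000000000000000000000000000000000000000000000000000000000000000000000000000000000000000000000000000000000000000000000000, [cP]),
  (nat_lit 0x100000000000000000000000000000000000000000000000000000000000000000000000000000000000000000000000000000000000000000000000000000000000000000000000000000000000000000000000000000000000000000000000000000000000000000000000000000000000000000000000000000000000000000000000000000000000000000000000000000000000000000000000000000000000000, [Nat.sub (Nat.pow 2 139) (Nat.pow 2 0), Nat.sub (Nat.pow 2 934) (Nat.pow 2 139), Nat.sub (Nat.pow 2 1565) (Nat.pow 2 934), Nat.sub (Nat.pow 2 3136) (Nat.pow 2 1565)]),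
  (nat_lit 0x200000000000000000000000000000000000000000000000000000000000000000000000000000000000000000000000000000000000000000000000000000000000000000000000000000000000000000000000000000000000000000000000000000000000000000000000000000000000000000000000000000000000000000000000000000000000000000000000000000000000000000000000000000000000000, [Nat.sub (Nat.pow 2 766) (Nat.pow 2 0), Nat.sub (Nat.pow 2 3136) (Nat.pow 2 766)]),
  (nat_lit 0x2000000000000000000000000000000000000000000000000000000000000000000000000000000000000000000000000000000000000000000000000000000000000000000000000000000000000000000000000000000000000000000000000000000000000000000000000000000000000000000000000000000000000000000000000000000000000000000000000000000000000000000000000000000000000000, [Nat.sub (Nat.pow 2 139) (Nat.pow 2 0), Nat.sub (Nat.pow 2 935) (Nat.pow 2 139), Nat.sub (Nat.pow 2 3136) (Nat.pow 2 935)]),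
  (nat_lit 0x8000000000000000000000000000000000000000000000000000000000000000000000000000000000000000000000000000000000000000000000000000000000000000000000000000000000000000000000000000000000000000000000000000000000000000000000000000000000000000000000000000000000000000000000000000000000000000000000000000000000000000000000000000000000000000, [Nat.sub (Nat.pow 2 655) (Nat.pow 2 0), Nat.sub (Nat.pow 2 3136) (Nat.pow 2 655)]),
  (nat_lit 0x4000004000000000000000000000000000000000000000000000000000000000000000000000000000000000000000000000000000000000000000000000000000000000000000000000000000000000000000000000000000000000000000000000000000000000000000000000000000000000000000000000000000000000000000000000000000000000000000000000000000000000000000000000000000000000, [cP]),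
  (nat_lit 0x80000000000000000000000000000000000000000000000000000000000000000000000000000000000000000000000000000000000000000000000000000000000000000000000000000000000000000000000000000000000000000000000000000000000000000000000000000000000000000000000000000000000000000000000000000000000000000000000000000000000000000000000000000000000000000, [Nat.sub (Nat.pow 2 766) (Nat.pow 2 0), Nat.sub (Nat.pow 2 3136) (Nat.pow 2 766)]),
  (nat_lit 0x40000000000000000000000000000000000000000000000000000000000000000000000000000000000000000000000000000000000000000000000000000000000000000000000000000000000000000000000000000000000000000000000000000000000000000000000000000000000000000000000000000000000000000000000000000000000000000000000000000000000000000000000000000000000000000, [cP]),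
  (nat_lit 0x10000000000000000000000000000000000000000000000000000000000000000000000000000000000000000000000000000000000000000000000000000000000000000000000000000000000000000000000000000000000000000000000000000000000000000000000000000000000000000000000000000000000000000000000000000000000000000000000000000000000000000000000000000000000000000000000000000000000, [Nat.sub (Nat.pow 2 286) (Nat.pow 2 0), Nat.sub (Nat.pow 2 3136) (Nat.pow 2 286)]),
  (nat_lit 0x3000000000000000000000000000000000000000000000000000000000000000000000000000000000000000000000000000000000000000000000000000000000000000000000000000000000000000000000000000000000000000000000000000000000000000000000000000000000000000000000000000000000000000000000000000000000000000000000000000000000000000000000000000000000000000000000000000000000, [cP]),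
  (nat_lit 0x1000000000000000000000000000000000000000000000000000000000000000000000000000000000000000000000000000000000000000000000000000000000000000000000000000000000000000000000000000000000000000000000000000000000000000000000000000000000000000000000000000000000000000000000000000000000000000000000000000000000000000000000000000000000000000000000000000000000000000, [Nat.sub (Nat.pow 2 659) (Nat.pow 2 0), Nat.sub (Nat.pow 2 3136) (Nat.pow 2 659)]),
  (nat_lit 0x20000000000000000000000000000000000000000000000000000000000000000000000000000000000000000000000000000000000000000000000000000000000000000000000000000000000000000000000000000000000000000000000000000000000000000000000000000000000000000000000000000000000000000000000000000000000000000000000000000000000000000000000000000000000000000000000000000000000, [cP]),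
  (nat_lit 0x400000000000000000000000000000000000000000000000000000000000000000000000000000000000000000000000000000000000000000000000000000000000000000000000000000000000000000000000000000000000000000000000000000000000000000000000000000000000000000000000000000000000000000000000000000000000000000000000000000000000000000000000000000000000000000000000000000000000000000, [Nat.sub (Nat.pow 2 654) (Nat.pow 2 0), Nat.sub (Nat.pow 2 1564) (Nat.pow 2 654), Nat.sub (Nat.pow 2 3136) (Nat.pow 2 1564)]),
  (nat_lit 0x20000000000000000000000000000000000000000000000000000000000000000000000000000000000000000000000000000000000000000000000000000000000000000000000000000000000000000000000000000000000000000000000000000000000000000000000000000000000000000000000000000000000000000000000000000000000000000000000000000000000000000000000000000000000000000000000000000000000000000, [cP]),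
  (nat_lit 0x800000000000000000000000000000000000000000000000000000000000000000000000000000000000000000000000000000000000000000000000000000000000000000000000000000000000000000000000000000000000000000000000000000000000000000000000000000000000000000000000000000000000000000000000000000000000000000000000000000000000000000000000000000000000000000000000000000000000000000, [cP]),
  (nat_lit 0x2000000000000000000000000000000000000000000000000000000000000000000000000000000000000000000000000000000000000000000000000000000000000000000000000000000000000000000000000000000000000000000000000000000000000000000000000000000000000000000000000000000000000000000000000000000000000000000000000000000000000000000000000000000000000000000000000000000000000000000000, [cP]),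
  (nat_lit 0x40000000000000000000000000000000000000000000000000000000000000000000000000000000000000000000000000000000000000000000000000000000000000000000000000000000000000000000000000000000000000000000000000000000000000000000000000000000000000000000000000000000000000000000000000000000000000000000000000000000000000000000000000000000000000000000000000000000000000000000000, [Nat.sub (Nat.pow 2 179) (Nat.pow 2 0), Nat.sub (Nat.pow 2 931) (Nat.pow 2 179), Nat.sub (Nat.pow 2 3136) (Nat.pow 2 931)]),
  (nat_lit 0x800000000000000000000000000000000000000000000000000000000000000000000000000000000000000000000000000000000000000000000000000000000000000000000000000000000000000000000000000000000000000000000000000000000000000000000000000000000000000000000000000000000000000000000000000000000000000000000000000000000000000000000000000000000000000000000000000000000000000000000000, [Nat.sub (Nat.pow 2 806) (Nat.pow 2 0), Nat.sub (Nat.pow 2 3136) (Nat.pow 2 806)]),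
  (nat_lit 0x10000000000000000000000000000000000000000000000000000000000000000000000000000000000000000000000000000000000000000000000000000000000000000000000000000000000000000000000000000000000000000000000000000000000000000000000000000000000000000000000000000000000000000000000000000000000000000000000000000000000000000000000000000000000000000000000000000000000000000000000000000000000000000, [Nat.sub (Nat.pow 2 286) (Nat.pow 2 0), Nat.sub (Nat.pow 2 1384) (Nat.pow 2 286), Nat.sub (Nat.pow 2 3136) (Nat.pow 2 1384)]),
  (nat_lit 0x200000000000000000000000000000000000000000000000000000000000000000000000000000000000000000000000000000000000000000000000000000000000000000000000000000000000000000000000000000000000000000000000000000000000000000000000000000000000000000000000000000000000000000000000000000000000000000000000000000000000000000000000000000000000000000000000000000000000000000000000000000000000000000, [Nat.sub (Nat.pow 2 934) (Nat.pow 2 0), Nat.sub (Nat.pow 2 3136) (Nat.pow 2 934)]),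
  (nat_lit 0x800000000000000000000000000000000000000000000000000000000000000000000000000000000000000000000000000000000000000000000000000000000000000000000000000000000000000000000000000000000000000000000000000000000000000000000000000000000000000000000000000000000000000000000000000000000000000000000000000000000000000000000000000000000000000000000000000000000000000000000000000000000000000000, [Nat.sub (Nat.pow 2 904) (Nat.pow 2 0), Nat.sub (Nat.pow 2 3136) (Nat.pow 2 904)]),
  (nat_lit 0x20000000000000000000000000000000000000000000000000000000000000000000000000000000000000000000000000000000000000000000000000000000000000000000000000000000000000000000000000000000000000000000000000000000000000000000000000000000000000000000000000000000000000000000000000000000000000000000000000000000000000000000000000000000000000000000000000000000000000000000000000000000000000000000000, [Nat.sub (Nat.pow 2 1415) (Nat.pow 2 0), Nat.sub (Nat.pow 2 3136) (Nat.pow 2 1415)]),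
  (nat_lit 0x4000000000000000000000000000000000000000000000000000000000000000000000000000000000000000000000000000000000000000000000000000000000000000000000000000000000000000000000000000000000000000000000000000000000000000000000000000000000000000000000000000000000000000000000000000000000000000000000000000000000000000000000000000000000000000000000000000000000000000000000, [cP]),
  (nat_lit 0x8000000000000000000000000000000000000000000000000000000000000000000000000000000000000000000000000000000000000000000000000000000000000000000000000000000000000000000000000000000000000000000000000000000000000000000000000000000000000000000000000000000000000000000000000000000000000000000000000000000000000000000000000000000000000000000000000000000000000000000000000000000000000000000000000, [Nat.sub (Nat.pow 2 314) (Nat.pow 2 0), Nat.sub (Nat.pow 2 1259) (Nat.pow 2 314), Nat.sub (Nat.pow 2 3136) (Nat.pow 2 1259)]),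
  (nat_lit 0x400000000000000000000000000000000000000000000000000000000000000000000000000000000000000000000000000000000000000000000000000000000000000000000000000000000000000000000000000000000000000000000000000000000000000000000000000000000000000000000000000000000000000000000000000000000000000000000000000000000000000000000000000000000000000000000000000000000000000000000000000000000000000000000000, [cP]),
  (nat_lit 0x800000000000000000000000000000000000000000000000000000000000000000000000000000000000000000000000000000000000000000000000000000000000000000000000000000000000000000000000000000000000000000000000000000000000000000000000000000000000000000000000000000000000000000000000000000000000000000000000000000000000000000000000000000000000000000000000000000000000000000000000000000000000000000000000000000, [Nat.sub (Nat.pow 2 255) (Nat.pow 2 0), Nat.sub (Nat.pow 2 689) (Nat.pow 2 255), Nat.sub (Nat.pow 2 1434) (Nat.pow 2 689), Nat.sub (Nat.pow 2 3136) (Nat.pow 2 1434)]),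
  (nat_lit 0x40000000000000000000000000000000000000000000000000000000000000000000000000000000000000000000000000000000000000000000000000000000000000000000000000000000000000000000000000000000000000000000000000000000000000000000000000000000000000000000000000000000000000000000000000000000000000000000000000000000000000000000000000000000000000000000000000000000000000000000000000000000000000000000000000000, [cP])]

theorem hp1 : ∀ p ∈ L1, ∀ D2 ∈ p.2, ∃ e,
    search ext94 (Pool.Agent.H74.EGZ.vio sb) G Uc A0 p.1 D2 e = true :=
  (List.forall_mem_cons.2 ⟨(List.forall_mem_cons.2 ⟨⟨e99, by decide +kernel⟩,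
  (List.forall_mem_singleton.2 ⟨.leaf, by decide +kernel⟩)⟩),
  (List.forall_mem_cons.2 ⟨(List.forall_mem_cons.2 ⟨⟨e101, by decide +kernel⟩,
  (List.forall_mem_cons.2 ⟨⟨e102, by decide +kernel⟩,
  (List.forall_mem_cons.2 ⟨⟨.leaf, by decide +kernel⟩,
  (List.forall_mem_singleton.2 ⟨.leaf, by decide +kernel⟩)⟩)⟩)⟩),
  (List.forall_mem_cons.2 ⟨(List.forall_mem_singleton.2 ⟨.leaf, by decide +kernel⟩),
  (List.forall_mem_cons.2 ⟨(List.forall_mem_cons.2 ⟨⟨e106, by decide +kernel⟩,
  (List.forall_mem_singleton.2 ⟨e107, by decide +kernel⟩)⟩),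
  (List.forall_mem_cons.2 ⟨(List.forall_mem_cons.2 ⟨⟨.leaf, by decide +kernel⟩,
  (List.forall_mem_singleton.2 ⟨e109, by decide +kernel⟩)⟩),
  (List.forall_mem_cons.2 ⟨(List.forall_mem_cons.2 ⟨⟨e110, by decide +kernel⟩,
  (List.forall_mem_singleton.2 ⟨e111, by decide +kernel⟩)⟩),
  (List.forall_mem_cons.2 ⟨(List.forall_mem_cons.2 ⟨⟨.leaf, by decide +kernel⟩,
  (List.forall_mem_singleton.2 ⟨e113, by decide +kernel⟩)⟩),
  (List.forall_mem_cons.2 ⟨(List.forall_mem_cons.2 ⟨⟨e114, by decide +kernel⟩,
  (List.forall_mem_cons.2 ⟨⟨e115, by decide +kernel⟩,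
  (List.forall_mem_cons.2 ⟨⟨e116, by decide +kernel⟩,
  (List.forall_mem_cons.2 ⟨⟨.leaf, by decide +kernel⟩,
  (List.forall_mem_singleton.2 ⟨.leaf, by decide +kernel⟩)⟩)⟩)⟩)⟩),
  (List.forall_mem_cons.2 ⟨(List.forall_mem_cons.2 ⟨⟨.leaf, by decide +kernel⟩,
  (List.forall_mem_singleton.2 ⟨.leaf, by decide +kernel⟩)⟩),
  (List.forall_mem_cons.2 ⟨(List.forall_mem_singleton.2 ⟨.leaf, by decide +kernel⟩),
  (List.forall_mem_cons.2 ⟨(List.forall_mem_singleton.2 ⟨e122, by decide +kernel⟩),
  (List.forall_mem_cons.2 ⟨(List.forall_mem_cons.2 ⟨⟨e123, by decide +kernel⟩,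
  (List.forall_mem_cons.2 ⟨⟨e124, by decide +kernel⟩,
  (List.forall_mem_singleton.2 ⟨e125, by decide +kernel⟩)⟩)⟩),
  (List.forall_mem_cons.2 ⟨(List.forall_mem_cons.2 ⟨⟨.leaf, by decide +kernel⟩,
  (List.forall_mem_singleton.2 ⟨e127, by decide +kernel⟩)⟩),
  (List.forall_mem_cons.2 ⟨(List.forall_mem_singleton.2 ⟨e128, by decide +kernel⟩),
  (List.forall_mem_cons.2 ⟨(List.forall_mem_cons.2 ⟨⟨e129, by decide +kernel⟩,
  (List.forall_mem_singleton.2 ⟨e130, by decide +kernel⟩)⟩),
  (List.forall_mem_cons.2 ⟨(List.forall_mem_cons.2 ⟨⟨.leaf, by decide +kernel⟩,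
  (List.forall_mem_cons.2 ⟨⟨e132, by decide +kernel⟩,
  (List.forall_mem_singleton.2 ⟨e133, by decide +kernel⟩)⟩)⟩),
  (List.forall_mem_cons.2 ⟨(List.forall_mem_cons.2 ⟨⟨.leaf, by decide +kernel⟩,
  (List.forall_mem_cons.2 ⟨⟨e135, by decide +kernel⟩,
  (List.forall_mem_singleton.2 ⟨.leaf, by decide +kernel⟩)⟩)⟩),
  (List.forall_mem_cons.2 ⟨(List.forall_mem_cons.2 ⟨⟨e137, by decide +kernel⟩,
  (List.forall_mem_singleton.2 ⟨e138, by decide +kernel⟩)⟩),
  (List.forall_mem_cons.2 ⟨(List.forall_mem_cons.2 ⟨⟨e139, by decide +kernel⟩,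
  (List.forall_mem_singleton.2 ⟨e140, by decide +kernel⟩)⟩),
  (List.forall_mem_cons.2 ⟨(List.forall_mem_cons.2 ⟨⟨e141, by decide +kernel⟩,
  (List.forall_mem_singleton.2 ⟨e142, by decide +kernel⟩)⟩),
  (List.forall_mem_cons.2 ⟨(List.forall_mem_cons.2 ⟨⟨e143, by decide +kernel⟩,
  (List.forall_mem_singleton.2 ⟨e144, by decide +kernel⟩)⟩),
  (List.forall_mem_cons.2 ⟨(List.forall_mem_cons.2 ⟨⟨e145, by decide +kernel⟩,
  (List.forall_mem_cons.2 ⟨⟨e146, by decide +kernel⟩,
  (List.forall_mem_singleton.2 ⟨.leaf, by decide +kernel⟩)⟩)⟩),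
  (List.forall_mem_cons.2 ⟨(List.forall_mem_singleton.2 ⟨e148, by decide +kernel⟩),
  (List.forall_mem_cons.2 ⟨(List.forall_mem_cons.2 ⟨⟨.leaf, by decide +kernel⟩,
  (List.forall_mem_cons.2 ⟨⟨e150, by decide +kernel⟩,
  (List.forall_mem_cons.2 ⟨⟨e151, by decide +kernel⟩,
  (List.forall_mem_singleton.2 ⟨.leaf, by decide +kernel⟩)⟩)⟩)⟩),
  (List.forall_mem_cons.2 ⟨(List.forall_mem_cons.2 ⟨⟨e153, by decide +kernel⟩,
  (List.forall_mem_singleton.2 ⟨e154, by decide +kernel⟩)⟩),
  (List.forall_mem_cons.2 ⟨(List.forall_mem_cons.2 ⟨⟨e155, by decide +kernel⟩,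
  (List.forall_mem_cons.2 ⟨⟨.leaf, by decide +kernel⟩,
  (List.forall_mem_singleton.2 ⟨e157, by decide +kernel⟩)⟩)⟩),
  (List.forall_mem_cons.2 ⟨(List.forall_mem_cons.2 ⟨⟨e158, by decide +kernel⟩,
  (List.forall_mem_singleton.2 ⟨e159, by decide +kernel⟩)⟩),
  (List.forall_mem_cons.2 ⟨(List.forall_mem_singleton.2 ⟨e160, by decide +kernel⟩),
  (List.forall_mem_cons.2 ⟨(List.forall_mem_cons.2 ⟨⟨e161, by decide +kernel⟩,
  (List.forall_mem_singleton.2 ⟨e162, by decide +kernel⟩)⟩),
  (List.forall_mem_cons.2 ⟨(List.forall_mem_singleton.2 ⟨e163, by decide +kernel⟩),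
  (List.forall_mem_cons.2 ⟨(List.forall_mem_cons.2 ⟨⟨e164, by decide +kernel⟩,
  (List.forall_mem_singleton.2 ⟨.leaf, by decide +kernel⟩)⟩),
  (List.forall_mem_cons.2 ⟨(List.forall_mem_singleton.2 ⟨e166, by decide +kernel⟩),
  (List.forall_mem_cons.2 ⟨(List.forall_mem_cons.2 ⟨⟨e167, by decide +kernel⟩,
  (List.forall_mem_singleton.2 ⟨e168, by decide +kernel⟩)⟩),
  (List.forall_mem_cons.2 ⟨(List.forall_mem_singleton.2 ⟨.leaf, by decide +kernel⟩),
  (List.forall_mem_cons.2 ⟨(List.forall_mem_cons.2 ⟨⟨e170, by decide +kernel⟩,
  (List.forall_mem_cons.2 ⟨⟨e171, by decide +kernel⟩,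
  (List.forall_mem_singleton.2 ⟨.leaf, by decide +kernel⟩)⟩)⟩),
  (List.forall_mem_cons.2 ⟨(List.forall_mem_singleton.2 ⟨e173, by decide +kernel⟩),
  (List.forall_mem_cons.2 ⟨(List.forall_mem_singleton.2 ⟨e174, by decide +kernel⟩),
  (List.forall_mem_cons.2 ⟨(List.forall_mem_singleton.2 ⟨.leaf, by decide +kernel⟩),
  (List.forall_mem_cons.2 ⟨(List.forall_mem_cons.2 ⟨⟨e176, by decide +kernel⟩,
  (List.forall_mem_cons.2 ⟨⟨e177, by decide +kernel⟩,
  (List.forall_mem_singleton.2 ⟨e178, by decide +kernel⟩)⟩)⟩),
  (List.forall_mem_cons.2 ⟨(List.forall_mem_cons.2 ⟨⟨e179, by decide +kernel⟩,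
  (List.forall_mem_singleton.2 ⟨.leaf, by decide +kernel⟩)⟩),
  (List.forall_mem_cons.2 ⟨(List.forall_mem_cons.2 ⟨⟨e181, by decide +kernel⟩,
  (List.forall_mem_cons.2 ⟨⟨.leaf, by decide +kernel⟩,
  (List.forall_mem_singleton.2 ⟨e183, by decide +kernel⟩)⟩)⟩),
  (List.forall_mem_cons.2 ⟨(List.forall_mem_cons.2 ⟨⟨e184, by decide +kernel⟩,
  (List.forall_mem_singleton.2 ⟨e185, by decide +kernel⟩)⟩),
  (List.forall_mem_cons.2 ⟨(List.forall_mem_cons.2 ⟨⟨e186, by decide +kernel⟩,
  (List.forall_mem_singleton.2 ⟨e187, by decide +kernel⟩)⟩),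
  (List.forall_mem_cons.2 ⟨(List.forall_mem_cons.2 ⟨⟨.leaf, by decide +kernel⟩,
  (List.forall_mem_singleton.2 ⟨e189, by decide +kernel⟩)⟩),
  (List.forall_mem_cons.2 ⟨(List.forall_mem_singleton.2 ⟨.leaf, by decide +kernel⟩),
  (List.forall_mem_cons.2 ⟨(List.forall_mem_cons.2 ⟨⟨e191, by decide +kernel⟩,
  (List.forall_mem_cons.2 ⟨⟨e192, by decide +kernel⟩,
  (List.forall_mem_singleton.2 ⟨e193, by decide +kernel⟩)⟩)⟩),
  (List.forall_mem_cons.2 ⟨(List.forall_mem_singleton.2 ⟨e194, by decide +kernel⟩),
  (List.forall_mem_cons.2 ⟨(List.forall_mem_cons.2 ⟨⟨e195, by decide +kernel⟩,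
  (List.forall_mem_cons.2 ⟨⟨e196, by decide +kernel⟩,
  (List.forall_mem_cons.2 ⟨⟨e197, by decide +kernel⟩,
  (List.forall_mem_singleton.2 ⟨e198, by decide +kernel⟩)⟩)⟩)⟩),
  (List.forall_mem_singleton.2 (List.forall_mem_singleton.2 ⟨e199, by decide +kernel⟩))⟩)⟩)⟩)⟩)⟩)⟩)⟩)⟩)⟩)⟩)⟩)⟩)⟩)⟩)⟩)⟩)⟩)⟩)⟩)⟩)⟩)⟩)⟩)⟩)⟩)⟩)⟩)⟩)⟩)⟩)⟩)⟩)⟩)⟩)⟩)⟩)⟩)⟩)⟩)⟩)⟩)⟩)⟩)⟩)⟩)⟩)⟩)⟩)

end

end Pool.Agent.H21.EGZ.S7
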