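import Pool.Agent.H21.EGZ.D8

/-!
# Stage 8 : search, part 0
-/

set_option autoImplicit false
set_option maxRecDepth 100000

namespace Pool.Agent.H21.EGZ.S8

noncomputable section

open Pool.Agent.H74.EGZ Pool.Agent.H94.Lift

/-- refutations 0 -/
def e0 : EX := (.node (.node (.node .leaf (nat_lit 432687221363) (.br (nat_lit 0) (.cons (.br (nat_lit 1) (.cons (.rel (nat_lit 20980737)) .nil)) .nil)) .leaf) (nat_lit 1073745010848) (.br (nat_lit 0) (.cons (.br (nat_lit 2) (.cons (.rel (nat_lit 75497490)) .nil)) .nil)) .leaf) (nat_lit 5800848522468) (.br (nat_lit 0) (.cons (.br (nat_lit 3) (.cons (.rel (nat_lit 273776640)) .nil)) .nil)) (.node .leaf (nat_lit 6528352870700) (.br (nat_lit 0) (.cons (.br (nat_lit 1) (.cons (.rel (nat_lit 21054468)) .nil)) .nil)) .leaf))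

/-- refutations 1 -/
def e1 : EX := (.node (.node (.node .leaf (nat_lit 8031590127868) (.br (nat_lit 1) (.cons (.br (nat_lit 2) (.cons (.rel (nat_lit 83895312)) .nil)) .nil)) .leaf) (nat_lit 11167072824676) (.br (nat_lit 1) (.cons (.br (nat_lit 2) (.cons (.rel (nat_lit 100728897)) .nil)) .nil)) (.node .leaf (nat_lit 11167985801843) (.br (nat_lit 0) (.cons (.br (nat_lit 1) (.cons (.rel (nat_lit 20972052)) .nil)) .nil)) .leaf)) (nat_lit 11170320758017) (.br (nat_lit 0) (.cons (.br (nat_lit 2) (.cons (.rel (nat_lit 72356880)) .nil)) .nil)) (.node (.node .leaf (nat_lit 12075171813628) (.br (nat_lit 0) (.cons (.br (nat_lit 1) (.cons (.rel (nat_lit 41959428)) .nil)) .nil)) .leaf) (nat_lit 13148076117223) (.br (nat_lit 0) (.cons (.br (nat_lit 1) (.cons (.rel (nat_lit 20980737)) .nil)) .nil)) .leaf))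

/-- refutations 2 -/
def e2 : EX := (.node .leaf (nat_lit 13403486939398) (.br (nat_lit 0) (.cons (.br (nat_lit 1) (.cons (.rel (nat_lit 20980737)) .nil)) .nil)) .leaf)

/-- refutations 3 -/
def e3 : EX := (.node (.node (.node (.node .leaf (nat_lit 35463182682374) (.br (nat_lit 0) (.cons (.br (nat_lit 1) (.cons (.rel (nat_lit 20992017)) .nil)) .nil)) .leaf) (nat_lit 36490044062376) (.br (nat_lit 3) (.cons (.br (nat_lit 5) (.cons (.rel (nat_lit 4564457472)) .nil)) .nil)) .leaf) (nat_lit 36702200347304) (.br (nat_lit 0) (.cons (.br (nat_lit 1) (.cons (.rel (nat_lit 20975877)) .nil)) .nil)) (.node (.node .leaf (nat_lit 36736330107142) (.br (nat_lit 0) (.cons (.br (nat_lit 1) (.cons (.rel (nat_lit 41959428)) .nil)) .nil)) .leaf) (nat_lit 40854296504582) (.br (nat_lit 2) (.cons (.br (nat_lit 6) (.cons (.rel (nat_lit 17247502341)) .nil)) .nil)) .leaf)) (nat_lit 40857659346152) (.br (nat_lit 1) (.cons (.br (nat_lit 2) (.cons (.rel (nat_lit 83895312)) .nil)) .nil)) (.node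 (.node (.node .leaf (nat_lit 40857660336390) (.br (nat_lit 4) (.cons (.br (nat_lit 5) (.cons (.rel (nat_lit 6442452240)) (.cons (.rel (nat_lit 5368710468)) .nil))) (.cons (.br (nat_lit 5) (.cons (.rel (nat_lit 5369827344)) (.cons (.rel (nat_lit 5368715328)) .nil))) .nil))) .leaf) (nat_lit 40857661606150) (.br (nat_lit 1) (.cons (.br (nat_lit 3) (.cons (.rel (nat_lit 570429696)) (.cons (.rel (nat_lit 285280272)) (.cons (.rel (nat_lit 553648257)) .nil)))) .nil)) .leaf) (nat_lit 40859727032582) (.br (nat_lit 0) (.cons (.br (nat_lit 1) (.cons (.rel (nat_lit 20980737)) .nil)) .nil)) (.node (.node .leaf (nat_lit 40859729398022) (.br (nat_lit 1) (.cons (.br (nat_lit 4) (.cons (.rel (nat_lit 1090551825)) .nil)) .nil)) .leaf) (nat_lit 40859729399140) (.br (nat_lit 0) (.cons (.br (nat_lit 1) (.cons (.rel (nat_lit 38805504)) .nil)) .nil)) .leaf)))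

/-- refutations 4 -/
def e4 : EX := (.node (.node (.node .leaf (nat_lit 42056886364422) (.br (nat_lit 0) (.cons (.br (nat_lit 2) (.cons (.rel (nat_lit 71303256)) .nil)) .nil)) .leaf) (nat_lit 42060252449030) (.br (nat_lit 1) (.cons (.br (nat_lit 3) (.cons (.rel (nat_lit 285221376)) .nil)) .nil)) .leaf) (nat_lit 46151632423817) (.br (nat_lit 1) (.cons (.br (nat_lit 4) (.cons (.rel (nat_lit 1090520580)) .nil)) .nil)) (.node (.node .leaf (nat_lit 46351524563206) (.br (nat_lit 0) (.cons (.br (nat_lit 3) (.cons (.rel (nat_lit 276893700)) (.cons (.rel (nat_lit 276893700)) .nil))) .nil)) .leaf) (nat_lit 46357788558692) (.br (nat_lit 3) (.cons (.br (nat_lit 1) (.cons (.rel (nat_lit 287310912)) (.cons (.rel (nat_lit 285315072)) .nil))) .nil)) .leaf))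

/-- refutations 8 -/
def e8 : EX := (.node .leaf (nat_lit 440282572486918) (.br (nat_lit 0) (.cons (.br (nat_lit 3) (.cons (.rel (nat_lit 273680388)) .nil)) .nil)) .leaf)

/-- refutations 9 -/
def e9 : EX := (.node (.node .leaf (nat_lit 450846103271686) (.br (nat_lit 1) (.cons (.br (nat_lit 2) (.cons (.rel (nat_lit 83920896)) .nil)) .nil)) .leaf) (nat_lit 450846104488198) (.br (nat_lit 1) (.cons (.br (nat_lit 2) (.cons (.rel (nat_lit 83890452)) .nil)) .nil)) (.node .leaf (nat_lit 451708234070278) (.br (nat_lit 2) (.cons (.br (nat_lit 0) (.cons (.rel (nat_lit 71827713)) (.cons (.rel (nat_lit 138412065)) .nil))) .nil)) .leaf))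

/-- refutations 10 -/
def e10 : EX := (.node (.node (.node .leaf (nat_lit 458516802022182) (.br (nat_lit 2) (.cons (.br (nat_lit 3) (.cons (.rel (nat_lit 335545920)) .nil)) .nil)) .leaf) (nat_lit 463069910192763) (.br (nat_lit 4) (.cons (.br (nat_lit 2) (.cons (.rel (nat_lit 1141905408)) (.cons (.rel (nat_lit 1140850785)) .nil))) .nil)) .leaf) (nat_lit 463069911493243) (.br (nat_lit 6) (.cons (.br (nat_lit 4) (.cons (.rel (nat_lit 18254135304)) (.cons (.rel (nat_lit 35433547776)) (.cons (.rel (nat_lit 19327484928)) .nil)))) (.cons (.br (nat_lit 5) (.cons (.rel (nat_lit 21474971712)) (.cons (.rel (nat_lit 25769809920)) (.cons (.rel (nat_lit 21475890192)) .nil)))) .nil))) (.node (.node .leaf (nat_lit 463069912763003) (.br (nat_lit 0) (.cons (.br (nat_lit 2) (.cons (.rel (nat_lit 75502080)) (.cons (.rel (nat_lit 72417297)) .nil))) (.cons (.br (nat_lit 2) (.cons (.rel (nat_lit 75502080)) (.cons (.br (nat_lit 6) (.cons (.rel (nat_lit 34426864641)) (.cons (.rel (nat_lit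 34426849536)) .nil))) .nil))) .nil))) .leaf) (nat_lit 463298252550771) (.br (nat_lit 0) (.cons (.br (nat_lit 2) (.cons (.rel (nat_lit 71827713)) .nil)) .nil)) .leaf))

/-- refutations 12 -/
def e12 : EX := (.node .leaf (nat_lit 616157203682810) (.br (nat_lit 2) (.cons (.br (nat_lit 6) (.cons (.rel (nat_lit 17247503376)) .nil)) .nil)) .leaf)

/-- refutations 13 -/
def e13 : EX := (.node (.node (.node .leaf (nat_lit 622599115180932) (.br (nat_lit 0) (.cons (.br (nat_lit 2) (.cons (.rel (nat_lit 72368160)) .nil)) .nil)) .leaf) (nat_lit 626513380966662) (.br (nat_lit 0) (.cons (.br (nat_lit 3) (.cons (.rel (nat_lit 545521668)) .nil)) .nil)) .leaf) (nat_lit 626513380967787) (.br (nat_lit 0) (.cons (.br (nat_lit 1) (.cons (.rel (nat_lit 21004296)) .nil)) .nil)) (.node .leaf (nat_lit 626524191983878) (.br (nat_lit 0) (.cons (.br (nat_lit 1) (.cons (.rel (nat_lit 42009600)) .nil)) .nil)) .leaf))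

/-- refutations 14 -/
def e14 : EX := (.node (.node (.node (.node (.node .leaf (nat_lit 626893426780786) (.br (nat_lit 2) (.cons (.br (nat_lit 1) (.cons (.rel (nat_lit 101712384)) (.cons (.rel (nat_lit 83887617)) .nil))) .nil)) .leaf) (nat_lit 626893427059623) (.br (nat_lit 1) (.cons (.br (nat_lit 2) (.cons (.rel (nat_lit 85327872)) .nil)) .nil)) .leaf) (nat_lit 626896092846260) (.br (nat_lit 1) (.cons (.br (nat_lit 2) (.cons (.rel (nat_lit 83894277)) .nil)) .nil)) (.node (.node .leaf (nat_lit 626896096928680) (.br (nat_lit 1) (.cons (.br (nat_lit 2) (.cons (.rel (nat_lit 83890452)) .nil)) .nil)) .leaf) (nat_lit 626896096941307) (.br (nat_lit 2) (.cons (.br (nat_lit 0) (.cons (.rel (nat_lit 75497490)) (.cons (.rel (nat_lit 71305281)) .nil))) .nil)) .leaf)) (nat_lit 626897099473523) (.br (nat_lit 0) (.cons (.br (nat_lit 4) (.cons (.rel (nat_lit 1078525953)) .nil)) .nil)) (.node (.node (.node .leaf (nat_lit 626897099474183) (.br (nat_lit 0) (.cons (.br (nat_lit 2) (.cons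 (.rel (nat_lit 138413064)) .nil)) .nil)) .leaf) (nat_lit 626897142698865) (.br (nat_lit 1) (.cons (.br (nat_lit 3) (.cons (.rel (nat_lit 285229065)) .nil)) .nil)) .leaf) (nat_lit 626897142699514) (.br (nat_lit 2) (.cons (.br (nat_lit 6) (.cons (.rel (nat_lit 17248026648)) .nil)) .nil)) (.node .leaf (nat_lit 626897144033587) (.br (nat_lit 3) (.cons (.br (nat_lit 4) (.cons (.br (nat_lit 2) (.cons (.rel (nat_lit 2214592521)) (.cons (.rel (nat_lit 336070656)) .nil))) .nil)) .nil)) .leaf))) (nat_lit 626897145343207) (.br (nat_lit 1) (.cons (.br (nat_lit 2) (.cons (.rel (nat_lit 84936852)) .nil)) .nil)) (.node (.node (.node (.node .leaf (nat_lit 626898691731513) (.br (nat_lit 3) (.cons (.br (nat_lit 4) (.cons (.rel (nat_lit 1342198848)) .nil)) .nil)) .leaf) (nat_lit 626898692182278) (.br (nat_lit 2) (.cons (.br (nat_lit 0) (.cons (.rel (nat_lit 138413064)) (.cons (.rel (nat_lit 138413064)) .nil))) .nil)) .leaf) (nat_lit 626898693309703) (.br (nat_lit 0) (.cons (.br (nat_lit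 2) (.cons (.rel (nat_lit 76809216)) (.cons (.rel (nat_lit 138413064)) .nil))) .nil)) (.node .leaf (nat_lit 626899235657210) (.br (nat_lit 1) (.cons (.br (nat_lit 2) (.cons (.rel (nat_lit 101712384)) .nil)) .nil)) .leaf)) (nat_lit 626899299906462) (.br (nat_lit 0) (.cons (.br (nat_lit 1) (.cons (.rel (nat_lit 20972052)) .nil)) .nil)) (.node (.node (.node .leaf (nat_lit 626899832519943) (.br (nat_lit 0) (.cons (.br (nat_lit 2) (.cons (.rel (nat_lit 138483969)) .nil)) .nil)) .leaf) (nat_lit 626899849644932) (.br (nat_lit 0) (.cons (.br (nat_lit 3) (.cons (.rel (nat_lit 541069332)) .nil)) .nil)) .leaf) (nat_lit 626899929051443) (.br (nat_lit 0) (.cons (.br (nat_lit 2) (.cons (.rel (nat_lit 138559488)) .nil)) .nil)) (.node .leaf (nat_lit 626899929542918) (.br (nat_lit 0) (.cons (.br (nat_lit 1) (.cons (.rel (nat_lit 20972052)) .nil)) .nil)) .leaf))))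

/-- refutations 15 -/
def e15 : EX := (.node (.node .leaf (nat_lit 627799085830920) (.br (nat_lit 0) (.cons (.br (nat_lit 1) (.cons (.rel (nat_lit 21041154)) .nil)) .nil)) .leaf) (nat_lit 627801244306683) (.br (nat_lit 0) (.cons (.br (nat_lit 1) (.cons (.rel (nat_lit 42009600)) .nil)) .nil)) (.node .leaf (nat_lit 629046825988358) (.br (nat_lit 1) (.cons (.br (nat_lit 4) (.cons (.rel (nat_lit 1090527240)) .nil)) .nil)) .leaf))

/-- refutations 16 -/
def e16 : EX := (.node (.node (.node (.node .leaf (nat_lit 212415097538822) (.br (nat_lit 0) (.cons (.br (nat_lit 1) (.cons (.rel (nat_lit 20972052)) .nil)) .nil)) .leaf) (nat_lit 216738539505926) (.br (nat_lit 0) (.cons (.br (nat_lit 1) (.cons (.rel (nat_lit 20975877)) .nil)) .nil)) .leaf) (nat_lit 217013832648966) (.br (nat_lit 0) (.cons (.br (nat_lit 3) (.cons (.rel (nat_lit 272695632)) .nil)) .nil)) (.node .leaf (nat_lit 221906933170852) (.br (nat_lit 2) (.cons (.br (nat_lit 3) (.cons (.rel (nat_lit 402718980)) .nil))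 .nil)) .leaf)) (nat_lit 221909130677124) (.br (nat_lit 2) (.cons (.br (nat_lit 5) (.cons (.rel (nat_lit 4429201428)) .nil)) .nil)) (.node (.node .leaf (nat_lit 221909130945813) (.br (nat_lit 4) (.cons (.br (nat_lit 5) (.cons (.rel (nat_lit 6442713168)) .nil)) .nil)) .leaf) (nat_lit 644285854670332) (.br (nat_lit 1) (.cons (.br (nat_lit 2) (.cons (.rel (nat_lit 83951904)) .nil)) .nil)) (.node .leaf (nat_lit 644322641356807) (.br (nat_lit 0) (.cons (.br (nat_lit 1) (.cons (.rel (nat_lit 20980737)) .nil)) .nil)) .leaf)))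

/-- refutations 17 -/
def e17 : EX := (.node (.node .leaf (nat_lit 879653324022695) (.br (nat_lit 4) (.cons (.br (nat_lit 5) (.cons (.rel (nat_lit 5368710468)) .nil)) .nil)) .leaf) (nat_lit 880041989245190) (.br (nat_lit 0) (.cons (.br (nat_lit 2) (.cons (.rel (nat_lit 75499524)) .nil)) .nil)) (.node .leaf (nat_lit 880731994196230) (.br (nat_lit 1) (.cons (.br (nat_lit 4) (.cons (.rel (nat_lit 2165309505)) .nil)) .nil)) .leaf))

/-- refutations 18 -/
def e18 : EX := (.node (.node .leaf (nat_lit 885076216796017) (.br (nat_lit 0) (.cons (.br (nat_lit 2) (.cons (.rel (nat_lit 71305281)) .nil)) .nil)) .leaf) (nat_lit 885076219951880) (.br (nat_lit 0) (.cons (.br (nat_lit 1) (.cons (.rel (nat_lit 21104640)) .nil)) .nil)) (.node .leaf (nat_lit 885514303491548) (.br (nat_lit 4) (.cons (.br (nat_lit 0) (.cons (.rel (nat_lit 2151680016)) (.cons (.rel (nat_lit 1077938244)) .nil))) .nil)) .leaf))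

/-- refutations 19 -/
def e19 : EX := (.node (.node .leaf (nat_lit 887435266717983) (.br (nat_lit 0) (.cons (.br (nat_lit 1) (.cons (.rel (nat_lit 20988192)) .nil)) .nil)) .leaf) (nat_lit 887435267883295) (.br (nat_lit 0) (.cons (.br (nat_lit 1) (.cons (.rel (nat_lit 21041154)) .nil)) .nil)) (.node .leaf (nat_lit 890395983948053) (.br (nat_lit 2) (.cons (.br (nat_lit 4) (.cons (.rel (nat_lit 1140851784)) .nil)) .nil)) .leaf))

/-- refutations 20 -/
def e20 : EX := (.node (.node (.node (.node .leaf (nat_lit 890782216892678) (.br (nat_lit 0) (.cons (.br (nat_lit 1) (.cons (.rel (nat_lit 21004296)) .nil)) .nil)) .leaf) (nat_lit 890782217668870) (.br (nat_lit 0) (.cons (.br (nat_lit 1) (.cons (.rel (nat_lit 21004296)) (.cons (.rel (nat_lit 21041154)) .nil))) .nil)) .leaf) (nat_lit 890782217669260) (.br (nat_lit 0) (.cons (.br (nat_lit 3) (.cons (.rel (nat_lit 272634180)) .nil)) .nil)) (.node .leaf (nat_lit 890782217937158) (.br (nat_lit 0) (.cons (.br (nat_lit 5) (.cons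 (.rel (nat_lit 4299165765)) .nil)) .nil)) .leaf)) (nat_lit 890782620322444) (.br (nat_lit 1) (.cons (.br (nat_lit 6) (.cons (.rel (nat_lit 17198743632)) .nil)) .nil)) (.node (.node (.node .leaf (nat_lit 890782764612364) (.br (nat_lit 2) (.cons (.br (nat_lit 3) (.cons (.rel (nat_lit 335561025)) .nil)) .nil)) .leaf) (nat_lit 892970366717404) (.br (nat_lit 0) (.cons (.br (nat_lit 1) (.cons (.rel (nat_lit 20972052)) .nil)) .nil)) .leaf) (nat_lit 892972650989830) (.br (nat_lit 3) (.cons (.br (nat_lit 4) (.cons (.rel (nat_lit 1342259265)) .nil)) .nil)) (.node .leaf (nat_lit 892972651552895) (.br (nat_lit 0) (.cons (.br (nat_lit 4) (.cons (.rel (nat_lit 1078476816)) .nil)) .nil)) .leaf)))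

/-- refutations 21 -/
def e21 : EX := (.node .leaf (nat_lit 893032780531974) (.br (nat_lit 0) (.cons (.br (nat_lit 1) (.cons (.rel (nat_lit 20992017)) .nil)) .nil)) .leaf)

/-- refutations 22 -/
def e22 : EX := (.node (.node (.node (.node .leaf (nat_lit 651426848573702) (.br (nat_lit 1) (.cons (.br (nat_lit 6) (.cons (.rel (nat_lit 17196648705)) .nil)) .nil)) .leaf) (nat_lit 651429056402910) (.br (nat_lit 0) (.cons (.br (nat_lit 1) (.cons (.rel (nat_lit 22020240)) .nil)) .nil)) .leaf) (nat_lit 651432615742702) (.br (nat_lit 0) (.cons (.br (nat_lit 6) (.cons (.rel (nat_lit 34363999248)) .nil)) .nil)) (.node .leaf (nat_lit 651432615987327) (.br (nat_lit 0) (.cons (.br (nat_lit 2) (.cons (.rel (nat_lit 71438400)) .nil)) .nil)) .leaf)) (nat_lit 652216555045164) (.br (nat_lit 0) (.cons (.br (nat_lit 1) (.cons (.rel (nat_lit 42009600)) .nil)) .nil)) (.node (.node .leaf (nat_lit 656753109082792) (.br (nat_lit 3) (.cons (.br (nat_lit 4) (.cons (.rel (nat_lit 1610629140))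 .nil)) .nil)) .leaf) (nat_lit 658943041341702) (.br (nat_lit 1) (.cons (.br (nat_lit 6) (.cons (.rel (nat_lit 17196648705)) .nil)) .nil)) (.node .leaf (nat_lit 661871642746940) (.br (nat_lit 0) (.cons (.br (nat_lit 1) (.cons (.rel (nat_lit 41959428)) .nil)) .nil)) .leaf)))

/-- refutations 23 -/
def e23 : EX := (.node (.node .leaf (nat_lit 968961804411812) (.br (nat_lit 0) (.cons (.br (nat_lit 1) (.cons (.rel (nat_lit 41959428)) .nil)) .nil)) .leaf) (nat_lit 972947689310470) (.br (nat_lit 0) (.cons (.br (nat_lit 1) (.cons (.rel (nat_lit 20972052)) .nil)) .nil)) .leaf)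

/-- refutations 24 -/
def e24 : EX := (.node (.node (.node (.node .leaf (nat_lit 975187357005286) (.br (nat_lit 1) (.cons (.br (nat_lit 3) (.cons (.rel (nat_lit 285213960)) .nil)) .nil)) .leaf) (nat_lit 978737147475430) (.br (nat_lit 0) (.cons (.br (nat_lit 3) (.cons (.rel (nat_lit 541066497)) .nil)) .nil)) (.node .leaf (nat_lit 978737147537469) (.br (nat_lit 3) (.cons (.br (nat_lit 4) (.cons (.rel (nat_lit 1342505088)) .nil)) .nil)) .leaf)) (nat_lit 978737149977508) (.br (nat_lit 4) (.cons (.br (nat_lit 2) (.cons (.rel (nat_lit 2214723840)) (.cons (.rel (nat_lit 1141905408)) (.cons (.rel (nat_lit 1141900548)) .nil)))) .nil)) (.node (.node .leaf (nat_lit 978737149993760) (.br (nat_lit 2) (.cons (.br (nat_lit 3) (.cons (.rel (nat_lit 336601344)) .nil)) .nil)) .leaf) (nat_lit 978737150077808) (.br (nat_lit 1) (.cons (.br (nat_lit 4) (.cons (.rel (nat_lit 1090525440)) .nil)) .nil)) .leaf)) (nat_lit 978737150238880) (.br (nat_lit 1) (.cons (.br (nat_lit 2) (.cons (.rel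 (nat_lit 83920896)) .nil)) .nil)) (.node (.node (.node .leaf (nat_lit 978737150345878) (.br (nat_lit 0) (.cons (.br (nat_lit 1) (.cons (.rel (nat_lit 42009600)) .nil)) .nil)) .leaf) (nat_lit 978740555852038) (.br (nat_lit 0) (.cons (.br (nat_lit 2) (.cons (.rel (nat_lit 75499524)) .nil)) .nil)) (.node .leaf (nat_lit 978743570491417) (.br (nat_lit 0) (.cons (.br (nat_lit 4) (.cons (.rel (nat_lit 1082131488)) .nil)) .nil)) .leaf)) (nat_lit 979810889299430) (.br (nat_lit 1) (.cons (.br (nat_lit 0) (.cons (.rel (nat_lit 42009600)) (.cons (.rel (nat_lit 41965056)) .nil))) .nil)) (.node (.node .leaf (nat_lit 980541034058660) (.br (nat_lit 0) (.cons (.br (nat_lit 1) (.cons (.rel (nat_lit 20975877)) .nil)) .nil)) .leaf) (nat_lit 980541036241828) (.br (nat_lit 4) (.cons (.br (nat_lit 1) (.cons (.rel (nat_lit 2181042180)) (.cons (.rel (nat_lit 1090520580)) .nil))) .nil)) .leaf)))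

/-- refutations 25 -/
def e25 : EX := (.node (.node .leaf (nat_lit 898793909236464) (.br (nat_lit 0) (.cons (.br (nat_lit 2) (.cons (.rel (nat_lit 71303256)) .nil)) .nil)) .leaf) (nat_lit 898793988426990) (.br (nat_lit 1) (.cons (.br (nat_lit 2) (.cons (.rel (nat_lit 100679760)) .nil)) .nil)) (.node .leaf (nat_lit 909505466848664) (.br (nat_lit 0) (.cons (.br (nat_lit 1) (.cons (.rel (nat_lit 42009600)) .nil)) .nil)) .leaf))

/-- refutations 27 -/
def e27 : EX := (.node (.node .leaf (nat_lit 1084293040383459) (.br (nat_lit 1) (.cons (.br (nat_lit 3) (.cons (.rel (nat_lit 285315072)) .nil)) .nil)) .leaf) (nat_lit 1084293042873255) (.br (nat_lit 4) (.cons (.br (nat_lit 0) (.cons (.rel (nat_lit 1077940800)) (.cons (.rel (nat_lit 1077940800)) .nil))) .nil)) (.node .leaf (nat_lit 1084293042873572) (.br (nat_lit 0) (.cons (.br (nat_lit 3) (.cons (.rel (nat_lit 272639040)) .nil)) .nil)) .leaf))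

/-- refutations 29 -/
def e29 : EX := (.node (.node (.node .leaf (nat_lit 985637507366376) (.br (nat_lit 3) (.cons (.br (nat_lit 1) (.cons (.rel (nat_lit 285212961)) (.cons (.rel (nat_lit 302530560)) .nil))) .nil)) .leaf) (nat_lit 986711249385734) (.br (nat_lit 2) (.cons (.br (nat_lit 3) (.cons (.rel (nat_lit 603980037)) .nil)) .nil)) (.node .leaf (nat_lit 986725789452920) (.br (nat_lit 2) (.cons (.br (nat_lit 5) (.cons (.rel (nat_lit 4362633216)) .nil)) .nil)) .leaf)) (nat_lit 992788237843944) (.br (nat_lit 3) (.cons (.br (nat_lit 5) (.cons (.rel (nat_lit 4563411264)) .nil)) .nil)) (.node (.node .leaf (nat_lit 992788240402694) (.br (nat_lit 1) (.cons (.br (nat_lit 4) (.cons (.rel (nat_lit 1090525440)) .nil)) .nil)) .leaf) (nat_lit 996166359954809) (.br (nat_lit 0) (.cons (.br (nat_lit 1) (.cons (.rel (nat_lit 20976912)) .nil)) .nil)) (.node .leaf (nat_lit 996166362204422) (.br (nat_lit 2) (.cons (.br (nat_lit 3) (.cons (.rel (nat_lit 671351808)) (.cons (.rel (nat_lit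 335545920)) .nil))) .nil)) .leaf)))

/-- refutations 30 -/
def e30 : EX := (.node (.node (.node (.node .leaf (nat_lit 2200320336035217) (.br (nat_lit 3) (.cons (.br (nat_lit 0) (.cons (.rel (nat_lit 272650320)) (.cons (.rel (nat_lit 272650320)) (.cons (.rel (nat_lit 541066497)) .nil)))) .nil)) .leaf) (nat_lit 2200323695416846) (.br (nat_lit 0) (.cons (.br (nat_lit 1) (.cons (.rel (nat_lit 38805504)) .nil)) .nil)) (.node .leaf (nat_lit 2200323696607494) (.br (nat_lit 1) (.cons (.br (nat_lit 3) (.cons (.rel (nat_lit 285216786)) .nil)) .nil)) .leaf)) (nat_lit 2200323697936646) (.br (nat_lit 1) (.cons (.br (nat_lit 2) (.cons (.rel (nat_lit 100663620)) (.cons (.rel (nat_lit 83920896)) (.cons (.rel (nat_lit 83906592)) .nil)))) .nil)) (.node (.node .leaf (nat_lit 2200323698509057) (.br (nat_lit 0) (.cons (.br (nat_lit 1) (.cons (.rel (nat_lit 21004296)) .nil)) .nil)) .leaf) (nat_lit 2200326648484102) (.br (nat_lit 0) (.cons (.br (nat_lit 2) (.cons (.rel (nat_lit 138412065))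 .nil)) .nil)) (.node .leaf (nat_lit 2201428437597585) (.br (nat_lit 1) (.cons (.br (nat_lit 2) (.cons (.rel (nat_lit 83895312)) .nil)) .nil)) .leaf))) (nat_lit 2204913674715263) (.br (nat_lit 0) (.cons (.br (nat_lit 4) (.cons (.rel (nat_lit 1078034496)) .nil)) .nil)) (.node (.node (.node .leaf (nat_lit 2204921949944070) (.br (nat_lit 4) (.cons (.br (nat_lit 5) (.cons (.rel (nat_lit 6442592256)) .nil)) .nil)) .leaf) (nat_lit 2204921951160582) (.br (nat_lit 4) (.cons (.br (nat_lit 5) (.cons (.rel (nat_lit 6442451205)) .nil)) .nil)) (.node .leaf (nat_lit 2205723407729575) (.br (nat_lit 2) (.cons (.br (nat_lit 3) (.cons (.rel (nat_lit 336070656)) .nil)) .nil)) .leaf)) (nat_lit 2205723619983487) (.br (nat_lit 3) (.cons (.br (nat_lit 4) (.cons (.rel (nat_lit 1610629140)) .nil)) .nil)) (.node (.node .leaf (nat_lit 2205724476705703) (.br (nat_lit 3) (.cons (.br (nat_lit 0) (.cons (.rel (nat_lit 272634180)) (.cons (.rel (nat_lit 276856833)) .nil))) .nil)) .leaf) (nat_lit 2205729405281688)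 (.br (nat_lit 1) (.cons (.br (nat_lit 2) (.cons (.rel (nat_lit 83920896)) .nil)) .nil)) (.node .leaf (nat_lit 2205900973264273) (.br (nat_lit 3) (.cons (.br (nat_lit 4) (.cons (.rel (nat_lit 1342198848)) .nil)) .nil)) .leaf))))

/-- refutations 31 -/
def e31 : EX := (.node (.node (.node (.node (.node (.node .leaf (nat_lit 2207012652893720) (.br (nat_lit 0) (.cons (.br (nat_lit 1) (.cons (.rel (nat_lit 21037329)) .nil)) .nil)) .leaf) (nat_lit 2207017663185158) (.br (nat_lit 0) (.cons (.br (nat_lit 1) (.cons (.rel (nat_lit 20972052)) .nil)) .nil)) .leaf) (nat_lit 2207018208946428) (.br (nat_lit 0) (.cons (.br (nat_lit 3) (.cons (.rel (nat_lit 272650320)) .nil)) .nil)) (.node .leaf (nat_lit 2207018209775128) (.br (nat_lit 2) (.cons (.br (nat_lit 3) (.cons (.rel (nat_lit 336601344)) .nil)) .nil)) .leaf)) (nat_lit 2207069434809231) (.br (nat_lit 0) (.cons (.br (nat_lit 1) (.cons (.rel (nat_lit 20972052)) .nil)) .nil)) (.node (.node .leaf (nat_lit 2209821019868696) (.br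 (nat_lit 3) (.cons (.br (nat_lit 6) (.cons (.rel (nat_lit 17449422849)) .nil)) .nil)) .leaf) (nat_lit 2210923677224472) (.br (nat_lit 1) (.cons (.br (nat_lit 2) (.cons (.rel (nat_lit 83920896)) .nil)) .nil)) (.node .leaf (nat_lit 2210923677438762) (.br (nat_lit 1) (.cons (.br (nat_lit 2) (.cons (.rel (nat_lit 83890452)) .nil)) .nil)) .leaf))) (nat_lit 2211092328199079) (.br (nat_lit 0) (.cons (.br (nat_lit 2) (.cons (.rel (nat_lit 71305281)) .nil)) .nil)) (.node (.node (.node .leaf (nat_lit 2211092329104295) (.br (nat_lit 5) (.cons (.br (nat_lit 0) (.cons (.rel (nat_lit 4299161940)) (.cons (.rel (nat_lit 4303358208)) .nil))) .nil)) .leaf) (nat_lit 2211092330187687) (.br (nat_lit 0) (.cons (.br (nat_lit 3) (.cons (.rel (nat_lit 272634180)) (.cons (.rel (nat_lit 272634180)) .nil))) (.cons (.br (nat_lit 3) (.cons (.rel (nat_lit 541081602)) (.cons (.rel (nat_lit 276955152)) .nil))) .nil))) (.node .leaf (nat_lit 2211092330758800) (.br (nat_lit 0) (.cons (.br (nat_lit 1)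 (.cons (.rel (nat_lit 20972052)) (.cons (.rel (nat_lit 20992017)) .nil))) .nil)) .leaf)) (nat_lit 2211092330759079) (.br (nat_lit 2) (.cons (.br (nat_lit 6) (.cons (.rel (nat_lit 17247010884)) .nil)) .nil)) (.node (.node .leaf (nat_lit 2211097995608840) (.br (nat_lit 0) (.cons (.br (nat_lit 4) (.cons (.rel (nat_lit 1078034496)) .nil)) .nil)) .leaf) (nat_lit 2211098111509860) (.br (nat_lit 0) (.cons (.br (nat_lit 1) (.cons (.rel (nat_lit 20980737)) .nil)) .nil)) (.node .leaf (nat_lit 2211098111868305) (.br (nat_lit 3) (.cons (.br (nat_lit 2) (.cons (.rel (nat_lit 603996177)) (.cons (.rel (nat_lit 336740352)) .nil))) .nil)) .leaf)))) (nat_lit 2211098114133348) (.br (nat_lit 4) (.cons (.br (nat_lit 3) (.cons (.rel (nat_lit 1610613000)) (.cons (.rel (nat_lit 1343242752)) .nil))) .nil)) (.node (.node (.node (.node .leaf (nat_lit 2211098426441105) (.br (nat_lit 6) (.cons (.br (nat_lit 1) (.cons (.rel (nat_lit 17196679680)) (.cons (.rel (nat_lit 17196646680)) (.cons (.rel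 (nat_lit 17196663810)) .nil)))) .nil)) .leaf) (nat_lit 2211098426716816) (.br (nat_lit 0) (.cons (.br (nat_lit 1) (.cons (.rel (nat_lit 20972052)) .nil)) .nil)) (.node .leaf (nat_lit 2211098427621503) (.br (nat_lit 1) (.cons (.br (nat_lit 3) (.cons (.rel (nat_lit 285229065)) (.cons (.rel (nat_lit 285212961)) .nil))) .nil)) .leaf)) (nat_lit 2211098429276287) (.br (nat_lit 0) (.cons (.br (nat_lit 2) (.cons (.rel (nat_lit 71305281)) .nil)) .nil)) (.node (.node .leaf (nat_lit 2211098429277441) (.br (nat_lit 2) (.cons (.br (nat_lit 3) (.cons (.rel (nat_lit 336593928)) .nil)) .nil)) .leaf) (nat_lit 2211263912705425) (.br (nat_lit 2) (.cons (.br (nat_lit 4) (.cons (.rel (nat_lit 1140859200)) .nil)) .nil)) (.node .leaf (nat_lit 2211264436698023) (.br (nat_lit 3) (.cons (.br (nat_lit 4) (.cons (.rel (nat_lit 1343299584)) .nil)) .nil)) .leaf))) (nat_lit 2211264436738948) (.br (nat_lit 1) (.cons (.br (nat_lit 2) (.cons (.rel (nat_lit 167789568)) .nil)) .nil)) (.node (.node (.node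 .leaf (nat_lit 2211264438173823) (.br (nat_lit 4) (.cons (.br (nat_lit 5) (.cons (.rel (nat_lit 9663742212)) (.cons (.rel (nat_lit 9663696900)) (.cons (.rel (nat_lit 5368710468)) .nil)))) .nil)) .leaf) (nat_lit 2211269682138023) (.br (nat_lit 2) (.cons (.br (nat_lit 3) (.cons (.rel (nat_lit 335552580)) .nil)) .nil)) (.node .leaf (nat_lit 2211994057145745) (.br (nat_lit 0) (.cons (.br (nat_lit 4) (.cons (.rel (nat_lit 1078476816)) (.cons (.rel (nat_lit 1078476816)) .nil))) .nil)) .leaf)) (nat_lit 2212343946920198) (.br (nat_lit 0) (.cons (.br (nat_lit 1) (.cons (.rel (nat_lit 20975877)) .nil)) .nil)) (.node (.node .leaf (nat_lit 2212386916905616) (.br (nat_lit 2) (.cons (.br (nat_lit 3) (.cons (.rel (nat_lit 335561025)) .nil)) .nil)) .leaf) (nat_lit 2212386918895128) (.br (nat_lit 1) (.cons (.br (nat_lit 2) (.cons (.rel (nat_lit 83890452)) .nil)) .nil)) (.node .leaf (nat_lit 2212386919465087) (.br (nat_lit 3) (.cons (.br (nat_lit 4) (.cons (.rel (nat_lit 2416967808))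 .nil)) .nil)) .leaf)))))

/-- refutations 32 -/
def e32 : EX := (.node (.node (.node (.node .leaf (nat_lit 2288104148895207) (.br (nat_lit 0) (.cons (.br (nat_lit 1) (.cons (.rel (nat_lit 20976912)) .nil)) .nil)) .leaf) (nat_lit 2288104151761708) (.br (nat_lit 4) (.cons (.br (nat_lit 5) (.cons (.rel (nat_lit 9663807489)) .nil)) .nil)) (.node .leaf (nat_lit 2288530941583385) (.br (nat_lit 0) (.cons (.br (nat_lit 3) (.cons (.rel (nat_lit 276955152)) .nil)) .nil)) .leaf)) (nat_lit 2288530942038278) (.br (nat_lit 0) (.cons (.br (nat_lit 3) (.cons (.rel (nat_lit 541066497)) .nil)) .nil)) (.node (.node .leaf (nat_lit 2288536710023430) (.br (nat_lit 0) (.cons (.br (nat_lit 4) (.cons (.rel (nat_lit 2156462160)) .nil)) .nil)) .leaf) (nat_lit 2289193005619976) (.br (nat_lit 0) (.cons (.br (nat_lit 1) (.cons (.rel (nat_lit 41959428)) .nil)) .nil)) .leaf)) (nat_lit 2289193005658374) (.br (nat_lit 0) (.cons (.br (nat_lit 1) (.cons (.rel (nat_lit 20980737)) .nil)) .nil)) (.node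 (.node (.node .leaf (nat_lit 2292785581101318) (.br (nat_lit 4) (.cons (.br (nat_lit 5) (.cons (.rel (nat_lit 6442516482)) .nil)) .nil)) .leaf) (nat_lit 2295016342655238) (.br (nat_lit 0) (.cons (.br (nat_lit 3) (.cons (.rel (nat_lit 541327425)) .nil)) .nil)) .leaf) (nat_lit 2295016343472390) (.br (nat_lit 0) (.cons (.br (nat_lit 3) (.cons (.rel (nat_lit 272650320)) .nil)) .nil)) (.node (.node .leaf (nat_lit 2295019157043856) (.br (nat_lit 0) (.cons (.br (nat_lit 4) (.cons (.rel (nat_lit 1078987008)) (.cons (.rel (nat_lit 1078988808)) .nil))) .nil)) .leaf) (nat_lit 2295022110886015) (.br (nat_lit 0) (.cons (.br (nat_lit 3) (.cons (.rel (nat_lit 272650320)) .nil)) .nil)) .leaf)))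

/-- refutations 33 -/
def e33 : EX := (.node (.node (.node (.node .leaf (nat_lit 2298151668781318) (.br (nat_lit 6) (.cons (.br (nat_lit 0) (.cons (.rel (nat_lit 17184097344)) (.cons (.rel (nat_lit 17184064065)) .nil))) .nil)) .leaf) (nat_lit 2298152153580807) (.br (nat_lit 0) (.cons (.br (nat_lit 1) (.cons (.rel (nat_lit 20980737)) (.cons (.rel (nat_lit 20980737)) .nil))) (.cons (.br (nat_lit 1) (.cons (.rel (nat_lit 20975877)) (.cons (.rel (nat_lit 20980737)) .nil))) .nil))) .leaf) (nat_lit 2298152170366204) (.br (nat_lit 1) (.cons (.br (nat_lit 4) (.cons (.rel (nat_lit 1090540545)) .nil)) .nil)) (.node .leaf (nat_lit 2298157604538630) (.br (nat_lit 0) (.cons (.br (nat_lit 1) (.cons (.rel (nat_lit 20980737)) .nil)) .nil)) .leaf)) (nat_lit 2300342102102278) (.br (nat_lit 0) (.cons (.br (nat_lit 1) (.cons (.rel (nat_lit 20988192)) .nil)) .nil)) (.node (.node (.node .leaf (nat_lit 2300342102210860) (.br (nat_lit 0) (.cons (.br (nat_lit 1) (.cons (.rel (nat_lit 20972052))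 .nil)) .nil)) .leaf) (nat_lit 2300342605529215) (.br (nat_lit 0) (.cons (.br (nat_lit 1) (.cons (.rel (nat_lit 21004296)) .nil)) .nil)) .leaf) (nat_lit 2300347870354184) (.br (nat_lit 0) (.cons (.br (nat_lit 1) (.cons (.rel (nat_lit 20980737)) .nil)) .nil)) (.node .leaf (nat_lit 2300385053055238) (.br (nat_lit 1) (.cons (.br (nat_lit 3) (.cons (.rel (nat_lit 285213960)) .nil)) .nil)) .leaf)))

/-- refutations 34 -/
def e34 : EX := (.node .leaf (nat_lit 1103016975478242) (.br (nat_lit 1) (.cons (.br (nat_lit 2) (.cons (.rel (nat_lit 83890452)) (.cons (.rel (nat_lit 83887617)) .nil))) .nil)) .leaf)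

/-- refutations 35 -/
def e35 : EX := (.node .leaf (nat_lit 2641233657204070) (.br (nat_lit 1) (.cons (.br (nat_lit 2) (.cons (.rel (nat_lit 83887617)) .nil)) .nil)) .leaf)

/-- refutations 36 -/
def e36 : EX := (.node (.node .leaf (nat_lit 2650000590719238) (.br (nat_lit 1) (.cons (.br (nat_lit 3) (.cons (.rel (nat_lit 285216786)) .nil)) .nil)) .leaf) (nat_lit 2650000591423750) (.br (nat_lit 3) (.cons (.br (nat_lit 4) (.cons (.rel (nat_lit 1342198848)) .nil)) .nil)) (.node .leaf (nat_lit 2650000591882502) (.br (nat_lit 1) (.cons (.br (nat_lit 3) (.cons (.rel (nat_lit 285280272)) .nil)) .nil)) .leaf))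

/-- refutations 37 -/
def e37 : EX := (.node .leaf (nat_lit 2388308758366470) (.br (nat_lit 1) (.cons (.br (nat_lit 6) (.cons (.rel (nat_lit 17213424708)) .nil)) .nil)) .leaf)

/-- refutations 38 -/
def e38 : EX := (.node (.node (.node (.node .leaf (nat_lit 2674505267284230) (.br (nat_lit 1) (.cons (.br (nat_lit 3) (.cons (.rel (nat_lit 570429696)) .nil)) .nil)) .leaf) (nat_lit 2674507788060934) (.br (nat_lit 0) (.cons (.br (nat_lit 1) (.cons (.rel (nat_lit 42009600)) .nil)) .nil)) .leaf) (nat_lit 2675581458581766) (.br (nat_lit 4) (.cons (.br (nat_lit 3) (.cons (.rel (nat_lit 2415919620)) (.cons (.rel (nat_lit 1342193988)) .nil))) .nil)) (.node (.node .leaf (nat_lit 2675581459152951) (.br (nat_lit 1) (.cons (.br (nat_lit 5) (.cons (.rel (nat_lit 8623526913)) .nil)) .nil)) .leaf) (nat_lit 2676380320136569) (.br (nat_lit 0) (.cons (.br (nat_lit 1) (.cons (.rel (nat_lit 20988192)) .nil)) .nil)) .leaf)) (nat_lit 2676380321790632) (.br (nat_lit 0) (.cons (.br (nat_lit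 1) (.cons (.rel (nat_lit 20980737)) .nil)) .nil)) (.node (.node (.node .leaf (nat_lit 2680718310967447) (.br (nat_lit 0) (.cons (.br (nat_lit 3) (.cons (.rel (nat_lit 273680388)) .nil)) .nil)) .leaf) (nat_lit 2680973485669753) (.br (nat_lit 1) (.cons (.br (nat_lit 3) (.cons (.rel (nat_lit 285212961)) .nil)) .nil)) .leaf) (nat_lit 2680976425876857) (.br (nat_lit 1) (.cons (.br (nat_lit 3) (.cons (.rel (nat_lit 285221376)) .nil)) .nil)) (.node .leaf (nat_lit 2686087134969209) (.br (nat_lit 0) (.cons (.br (nat_lit 1) (.cons (.rel (nat_lit 42009600)) .nil)) .nil)) .leaf)))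

/-- refutations 39 -/
def e39 : EX := (.node (.node .leaf (nat_lit 2750185256254845) (.br (nat_lit 0) (.cons (.br (nat_lit 1) (.cons (.rel (nat_lit 21104640)) .nil)) .nil)) .leaf) (nat_lit 2750185257900294) (.br (nat_lit 0) (.cons (.br (nat_lit 5) (.cons (.rel (nat_lit 4299161940)) .nil)) .nil)) .leaf)

/-- refutations 40 -/
def e40 : EX := (.node (.node (.node (.node .leaf (nat_lit 2816142094418672) (.br (nat_lit 1) (.cons (.br (nat_lit 4) (.cons (.rel (nat_lit 1090536720)) .nil)) .nil)) .leaf) (nat_lit 2817115693040368) (.br (nat_lit 1) (.cons (.br (nat_lit 5) (.cons (.rel (nat_lit 8606712192)) (.cons (.rel (nat_lit 8623489041)) .nil))) .nil)) .leaf) (nat_lit 2817175318956294) (.br (nat_lit 0) (.cons (.br (nat_lit 2) (.cons (.rel (nat_lit 72368160)) .nil)) .nil)) (.node (.node .leaf (nat_lit 2817332517275910) (.br (nat_lit 0) (.cons (.br (nat_lit 3) (.cons (.rel (nat_lit 272639040)) .nil)) .nil)) .leaf) (nat_lit 2817332517585648) (.br (nat_lit 2) (.cons (.br (nat_lit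 4) (.cons (.rel (nat_lit 1141916688)) (.cons (.rel (nat_lit 1140851784)) .nil))) .nil)) .leaf)) (nat_lit 2820643018508550) (.br (nat_lit 1) (.cons (.br (nat_lit 2) (.cons (.rel (nat_lit 167789568)) .nil)) .nil)) (.node (.node (.node .leaf (nat_lit 2821622371716577) (.br (nat_lit 2) (.cons (.br (nat_lit 3) (.cons (.rel (nat_lit 335561025)) .nil)) .nil)) .leaf) (nat_lit 2821622372025220) (.br (nat_lit 3) (.cons (.br (nat_lit 4) (.cons (.rel (nat_lit 1610679312)) .nil)) .nil)) .leaf) (nat_lit 2821624909269254) (.br (nat_lit 2) (.cons (.br (nat_lit 0) (.cons (.rel (nat_lit 71305281)) (.cons (.rel (nat_lit 71336256)) .nil))) .nil)) (.node (.node .leaf (nat_lit 2821624909578502) (.br (nat_lit 0) (.cons (.br (nat_lit 3) (.cons (.br (nat_lit 5) (.cons (.rel (nat_lit 4831872000)) .nil)) .nil)) .nil)) .leaf) (nat_lit 2821624909578992) (.br (nat_lit 2) (.cons (.br (nat_lit 4) (.cons (.rel (nat_lit 1140851784)) .nil)) .nil)) .leaf)))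

/-- refutations 41 -/
def e41 : EX := (.node (.node (.node (.node (.node .leaf (nat_lit 2825917238348038) (.br (nat_lit 6) (.cons (.br (nat_lit 1) (.cons (.rel (nat_lit 17196648705)) (.cons (.rel (nat_lit 17196663810)) .nil))) .nil)) .leaf) (nat_lit 2825917439675120) (.br (nat_lit 1) (.cons (.br (nat_lit 5) (.cons (.rel (nat_lit 4313055237)) .nil)) .nil)) .leaf) (nat_lit 2825917439716888) (.br (nat_lit 1) (.cons (.br (nat_lit 2) (.cons (.rel (nat_lit 100728897)) .nil)) .nil)) (.node .leaf (nat_lit 2825917439984368) (.br (nat_lit 3) (.cons (.br (nat_lit 4) (.cons (.rel (nat_lit 2415984897)) .nil)) .nil)) .leaf)) (nat_lit 2825917439984516) (.br (nat_lit 1) (.cons (.br (nat_lit 3) (.cons (.rel (nat_lit 553943040)) .nil)) .nil)) (.node (.node (.node .leaf (nat_lit 2825919876565254) (.br (nat_lit 1) (.cons (.br (nat_lit 2) (.cons (.rel (nat_lit 83895312)) .nil)) .nil)) .leaf) (nat_lit 2825919876607512) (.br (nat_lit 1) (.cons (.br (nat_lit 2) (.cons (.rel (nat_lit 100728897))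 .nil)) .nil)) .leaf) (nat_lit 2825919876874992) (.br (nat_lit 2) (.cons (.br (nat_lit 4) (.cons (.rel (nat_lit 1141440528)) .nil)) .nil)) (.node .leaf (nat_lit 2825919977228550) (.br (nat_lit 2) (.cons (.br (nat_lit 1) (.cons (.rel (nat_lit 83887617)) (.cons (.rel (nat_lit 83895312)) .nil))) .nil)) .leaf))) (nat_lit 2825919977228964) (.br (nat_lit 1) (.cons (.br (nat_lit 3) (.cons (.rel (nat_lit 285218820)) .nil)) .nil)) (.node (.node (.node (.node .leaf (nat_lit 2825919977538288) (.br (nat_lit 4) (.cons (.br (nat_lit 6) (.cons (.rel (nat_lit 18253620288)) (.cons (.rel (nat_lit 35433547776)) .nil))) .nil)) .leaf) (nat_lit 2825922179279135) (.br (nat_lit 1) (.cons (.br (nat_lit 2) (.cons (.rel (nat_lit 85327872)) .nil)) .nil)) .leaf) (nat_lit 2825922598668550) (.br (nat_lit 0) (.cons (.br (nat_lit 3) (.cons (.rel (nat_lit 273154056)) .nil)) .nil)) (.node .leaf (nat_lit 2826821295981845) (.br (nat_lit 0) (.cons (.br (nat_lit 1) (.cons (.rel (nat_lit 37765185)) .nil))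 .nil)) .leaf)) (nat_lit 2826821819697828) (.br (nat_lit 0) (.cons (.br (nat_lit 2) (.cons (.rel (nat_lit 71438400)) .nil)) .nil)) (.node (.node .leaf (nat_lit 2826821819954078) (.br (nat_lit 1) (.cons (.br (nat_lit 2) (.cons (.rel (nat_lit 100663620)) .nil)) .nil)) .leaf) (nat_lit 2827723762829574) (.br (nat_lit 2) (.cons (.br (nat_lit 4) (.cons (.rel (nat_lit 1140859200)) .nil)) .nil)) (.node .leaf (nat_lit 2827723762829988) (.br (nat_lit 2) (.cons (.br (nat_lit 3) (.cons (.rel (nat_lit 603980037)) .nil)) .nil)) .leaf))))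

/-- refutations 44 -/
def e44 : EX := (.node (.node (.node (.node .leaf (nat_lit 4400417547537194) (.br (nat_lit 3) (.cons (.br (nat_lit 0) (.cons (.rel (nat_lit 541081602)) (.cons (.rel (nat_lit 272639040)) .nil))) .nil)) .leaf) (nat_lit 4400422597479210) (.br (nat_lit 0) (.cons (.br (nat_lit 2) (.cons (.rel (nat_lit 72355845)) .nil)) .nil)) .leaf) (nat_lit 4400623491793572) (.br (nat_lit 0) (.cons (.br (nat_lit 2) (.cons (.rel (nat_lit 71336256)) .nil)) .nil)) (.node .leaf (nat_lit 4400623492787606) (.br (nat_lit 0) (.cons (.br (nat_lit 2) (.cons (.rel (nat_lit 138413064)) .nil)) .nil)) .leaf)) (nat_lit 4400623493297008) (.br (nat_lit 0) (.cons (.br (nat_lit 1) (.cons (.rel (nat_lit 21004296)) .nil)) .nil)) (.node (.node (.node .leaf (nat_lit 4400623494350898) (.br (nat_lit 0) (.cons (.br (nat_lit 3) (.cons (.rel (nat_lit 272639040)) .nil)) .nil)) .leaf) (nat_lit 4400623494352398) (.br (nat_lit 0) (.cons (.br (nat_lit 1) (.cons (.rel (nat_lit 20980737)) .nil)) .nil))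 .leaf) (nat_lit 4400623494679405) (.br (nat_lit 0) (.cons (.br (nat_lit 4) (.cons (.rel (nat_lit 1079002113)) .nil)) .nil)) (.node .leaf (nat_lit 4403892930482303) (.br (nat_lit 0) (.cons (.br (nat_lit 1) (.cons (.rel (nat_lit 20972052)) .nil)) .nil)) .leaf)))

/-- refutations 45 -/
def e45 : EX := (.node (.node (.node (.node (.node .leaf (nat_lit 4405668562340102) (.br (nat_lit 0) (.cons (.br (nat_lit 1) (.cons (.rel (nat_lit 20988192)) .nil)) .nil)) .leaf) (nat_lit 4409213427368847) (.br (nat_lit 0) (.cons (.br (nat_lit 2) (.cons (.rel (nat_lit 75499524)) .nil)) .nil)) .leaf) (nat_lit 4409213429222663) (.br (nat_lit 0) (.cons (.br (nat_lit 1) (.cons (.rel (nat_lit 41959428)) (.cons (.rel (nat_lit 41959428)) .nil))) .nil)) (.node .leaf (nat_lit 4409213688744198) (.br (nat_lit 1) (.cons (.br (nat_lit 4) (.cons (.rel (nat_lit 1090527240)) .nil)) .nil)) .leaf)) (nat_lit 4409213688786151) (.br (nat_lit 0) (.cons (.br (nat_lit 1) (.cons (.rel (nat_lit 20972052)) .nil))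 .nil)) (.node (.node (.node .leaf (nat_lit 4409216195598463) (.br (nat_lit 0) (.cons (.br (nat_lit 1) (.cons (.rel (nat_lit 41959428)) .nil)) .nil)) .leaf) (nat_lit 4409216785825304) (.br (nat_lit 0) (.cons (.br (nat_lit 1) (.cons (.rel (nat_lit 37765185)) .nil)) .nil)) .leaf) (nat_lit 4409218690027782) (.br (nat_lit 0) (.cons (.br (nat_lit 1) (.cons (.rel (nat_lit 20975877)) .nil)) .nil)) (.node .leaf (nat_lit 4409218690194695) (.br (nat_lit 0) (.cons (.br (nat_lit 2) (.cons (.rel (nat_lit 71827713)) .nil)) .nil)) .leaf))) (nat_lit 4409218691209343) (.br (nat_lit 0) (.cons (.br (nat_lit 1) (.cons (.rel (nat_lit 20976912)) (.cons (.rel (nat_lit 21004296)) .nil))) .nil)) (.node (.node (.node (.node .leaf (nat_lit 4409218691731718) (.br (nat_lit 0) (.cons (.br (nat_lit 1) (.cons (.rel (nat_lit 20975877)) .nil)) .nil)) .leaf) (nat_lit 4409218693061264) (.br (nat_lit 0) (.cons (.br (nat_lit 1) (.cons (.rel (nat_lit 20980737)) .nil)) .nil)) .leaf) (nat_lit 4409218923235590)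 (.br (nat_lit 0) (.cons (.br (nat_lit 4) (.cons (.rel (nat_lit 1078460676)) .nil)) .nil)) (.node .leaf (nat_lit 4409218923707628) (.br (nat_lit 0) (.cons (.br (nat_lit 1) (.cons (.rel (nat_lit 20980737)) .nil)) .nil)) .leaf)) (nat_lit 4409218923707748) (.br (nat_lit 1) (.cons (.br (nat_lit 2) (.cons (.rel (nat_lit 83887617)) .nil)) .nil)) (.node (.node .leaf (nat_lit 4409219308128518) (.br (nat_lit 2) (.cons (.br (nat_lit 4) (.cons (.rel (nat_lit 1140851784)) .nil)) .nil)) .leaf) (nat_lit 4409219309101832) (.br (nat_lit 3) (.cons (.br (nat_lit 4) (.cons (.rel (nat_lit 1342193988)) .nil)) .nil)) (.node .leaf (nat_lit 4409219850117796) (.br (nat_lit 0) (.cons (.br (nat_lit 1) (.cons (.rel (nat_lit 20972052)) .nil)) .nil)) .leaf))))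

/-- refutations 46 -/
def e46 : EX := (.node (.node (.node .leaf (nat_lit 4410121894229348) (.br (nat_lit 1) (.cons (.br (nat_lit 3) (.cons (.rel (nat_lit 570429696)) .nil)) .nil)) .leaf) (nat_lit 4411018510338310) (.br (nat_lit 1) (.cons (.br (nat_lit 2) (.cons (.rel (nat_lit 83895312)) .nil)) .nil)) .leaf) (nat_lit 4411195635091718) (.br (nat_lit 0) (.cons (.br (nat_lit 1) (.cons (.rel (nat_lit 41959428)) .nil)) .nil)) (.node .leaf (nat_lit 4411464205410960) (.br (nat_lit 0) (.cons (.br (nat_lit 2) (.cons (.rel (nat_lit 72355845)) .nil)) .nil)) .leaf))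

/-- refutations 47 -/
def e47 : EX := (.node .leaf (nat_lit 4492885159294228) (.br (nat_lit 0) (.cons (.br (nat_lit 1) (.cons (.rel (nat_lit 20992017)) .nil)) .nil)) .leaf)

/-- refutations 48 -/
def e48 : EX := (.node (.node (.node (.node .leaf (nat_lit 4497174357652337) (.br (nat_lit 0) (.cons (.br (nat_lit 1) (.cons (.rel (nat_lit 20972052)) .nil)) .nil)) .leaf) (nat_lit 4497174358909180) (.br (nat_lit 5) (.cons (.br (nat_lit 1) (.cons (.rel (nat_lit 8623489041)) (.cons (.rel (nat_lit 4311744546)) .nil))) .nil)) (.node .leaf (nat_lit 4497174358958232) (.br (nat_lit 2) (.cons (.br (nat_lit 6) (.cons (.rel (nat_lit 17248059648)) .nil)) .nil)) .leaf)) (nat_lit 4497174358958380) (.br (nat_lit 5) (.cons (.br (nat_lit 2) (.cons (.rel (nat_lit 4362092610)) (.cons (.rel (nat_lit 4362141792)) .nil))) .nil)) (.node (.node .leaf (nat_lit 4497174359122220) (.br (nat_lit 1) (.cons (.br (nat_lit 4) (.cons (.rel (nat_lit 1090525440)) .nil)) .nil)) .leaf) (nat_lit 4497177025720352)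 (.br (nat_lit 2) (.cons (.br (nat_lit 3) (.cons (.rel (nat_lit 402671880)) .nil)) .nil)) .leaf)) (nat_lit 4497177025720946) (.br (nat_lit 0) (.cons (.br (nat_lit 2) (.cons (.rel (nat_lit 71305281)) .nil)) .nil)) (.node (.node (.node .leaf (nat_lit 4497177737274904) (.br (nat_lit 2) (.cons (.br (nat_lit 3) (.cons (.rel (nat_lit 335561025)) .nil)) .nil)) .leaf) (nat_lit 4497177739567909) (.br (nat_lit 3) (.cons (.br (nat_lit 6) (.cons (.rel (nat_lit 17448307008)) .nil)) .nil)) .leaf) (nat_lit 4497177739723633) (.br (nat_lit 0) (.cons (.br (nat_lit 1) (.cons (.rel (nat_lit 20975877)) .nil)) .nil)) (.node (.node .leaf (nat_lit 4497180272111648) (.br (nat_lit 1) (.cons (.br (nat_lit 4) (.cons (.rel (nat_lit 1090520580)) .nil)) .nil)) .leaf) (nat_lit 4497910416111793) (.br (nat_lit 1) (.cons (.br (nat_lit 2) (.cons (.rel (nat_lit 83895312)) .nil)) .nil)) .leaf)))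

/-- refutations 49 -/
def e49 : EX := (.node (.node (.node (.node (.node .leaf (nat_lit 4522588657682694) (.br (nat_lit 0) (.cons (.br (nat_lit 1) (.cons (.rel (nat_lit 20988192)) .nil)) .nil)) .leaf) (nat_lit 4523596995408802) (.br (nat_lit 0) (.cons (.br (nat_lit 1) (.cons (.rel (nat_lit 41959428)) .nil)) .nil)) .leaf) (nat_lit 4527725438568710) (.br (nat_lit 0) (.cons (.br (nat_lit 1) (.cons (.rel (nat_lit 22020240)) .nil)) .nil)) (.node .leaf (nat_lit 4527893032272807) (.br (nat_lit 1) (.cons (.br (nat_lit 2) (.cons (.rel (nat_lit 83890452)) .nil)) .nil)) .leaf)) (nat_lit 4527893034568615) (.br (nat_lit 0) (.cons (.br (nat_lit 1) (.cons (.rel (nat_lit 20988192)) .nil)) .nil)) (.node (.node .leaf (nat_lit 4527897961851142) (.br (nat_lit 1) (.cons (.br (nat_lit 3) (.cons (.rel (nat_lit 285230100)) (.cons (.rel (nat_lit 285315072)) .nil))) .nil)) .leaf) (nat_lit 4527897962834182) (.br (nat_lit 4) (.cons (.br (nat_lit 6) (.cons (.rel (nat_lit 18253676880)) (.cons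 (.rel (nat_lit 18254135304)) .nil))) (.cons (.br (nat_lit 5) (.cons (.rel (nat_lit 5368725573)) (.cons (.rel (nat_lit 5369237760)) .nil))) .nil))) (.node .leaf (nat_lit 4527897962875142) (.br (nat_lit 3) (.cons (.br (nat_lit 4) (.cons (.rel (nat_lit 1343225892)) (.cons (.rel (nat_lit 1343299584)) .nil))) .nil)) .leaf))) (nat_lit 4527897962875530) (.br (nat_lit 1) (.cons (.br (nat_lit 2) (.cons (.rel (nat_lit 167789568)) .nil)) .nil)) (.node (.node (.node .leaf (nat_lit 4527897962916102) (.br (nat_lit 0) (.cons (.br (nat_lit 2) (.cons (.rel (nat_lit 72356880)) (.cons (.rel (nat_lit 71438400)) .nil))) (.cons (.br (nat_lit 3) (.cons (.rel (nat_lit 545521668)) (.cons (.rel (nat_lit 541130784)) .nil))) .nil))) .leaf) (nat_lit 4527897963441529) (.br (nat_lit 1) (.cons (.br (nat_lit 2) (.cons (.rel (nat_lit 83920896)) .nil)) .nil)) (.node .leaf (nat_lit 4528066431791759) (.br (nat_lit 2) (.cons (.br (nat_lit 3) (.cons (.rel (nat_lit 335552580)) .nil)) .nil)) .leaf)) (nat_lit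 4528069529897222) (.br (nat_lit 5) (.cons (.br (nat_lit 4) (.cons (.rel (nat_lit 6442452240)) (.cons (.rel (nat_lit 5369237760)) (.cons (.rel (nat_lit 5368715328)) (.cons (.rel (nat_lit 5368725573)) (.cons (.rel (nat_lit 5368710468)) (.cons (.rel (nat_lit 5369237760)) .nil))))))) .nil)) (.node (.node .leaf (nat_lit 4528069530839302) (.br (nat_lit 4) (.cons (.br (nat_lit 5) (.cons (.rel (nat_lit 5369237760)) .nil)) .nil)) .leaf) (nat_lit 4528069530880262) (.br (nat_lit 1) (.cons (.br (nat_lit 5) (.cons (.rel (nat_lit 4329047040)) (.cons (.rel (nat_lit 4311744546)) .nil))) (.cons (.br (nat_lit 2) (.cons (.rel (nat_lit 167789568)) (.cons (.br (nat_lit 3) (.cons (.rel (nat_lit 570429696)) (.cons (.rel (nat_lit 336070656)) .nil))) .nil))) .nil))) (.node .leaf (nat_lit 4528069530921222) (.br (nat_lit 0) (.cons (.br (nat_lit 4) (.cons (.rel (nat_lit 1078460676)) (.cons (.rel (nat_lit 1079050260)) (.cons (.rel (nat_lit 1078465536)) .nil)))) .nil)) .leaf))))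

/-- refutations 50 -/
def e50 : EX := (.node (.node (.node (.node .leaf (nat_lit 4528722999557031) (.br (nat_lit 0) (.cons (.br (nat_lit 5) (.cons (.rel (nat_lit 4300242948)) .nil)) .nil)) .leaf) (nat_lit 4528722999558199) (.br (nat_lit 3) (.cons (.br (nat_lit 5) (.cons (.rel (nat_lit 4563550272)) .nil)) .nil)) (.node .leaf (nat_lit 4532158567885486) (.br (nat_lit 1) (.cons (.br (nat_lit 3) (.cons (.rel (nat_lit 285218820)) .nil)) .nil)) .leaf)) (nat_lit 4532158570882455) (.br (nat_lit 1) (.cons (.br (nat_lit 6) (.cons (.rel (nat_lit 17196648705)) .nil)) .nil)) (.node (.node .leaf (nat_lit 4532358730189462) (.br (nat_lit 2) (.cons (.br (nat_lit 4) (.cons (.rel (nat_lit 1140850785)) .nil)) .nil)) .leaf) (nat_lit 4532358731316135) (.br (nat_lit 0) (.cons (.br (nat_lit 4) (.cons (.rel (nat_lit 1078204800)) .nil)) .nil)) (.node .leaf (nat_lit 4532358731510415) (.br (nat_lit 5) (.cons (.br (nat_lit 2) (.cons (.rel (nat_lit 4362092610)) (.cons (.rel (nat_lit 4362141792))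 .nil))) .nil)) .leaf))) (nat_lit 4532358945484153) (.br (nat_lit 2) (.cons (.br (nat_lit 5) (.cons (.rel (nat_lit 4362080340)) .nil)) .nil)) (.node (.node (.node .leaf (nat_lit 4532364002224390) (.br (nat_lit 1) (.cons (.br (nat_lit 2) (.cons (.rel (nat_lit 83890452)) .nil)) .nil)) .leaf) (nat_lit 4532364225546502) (.br (nat_lit 2) (.cons (.br (nat_lit 4) (.cons (.rel (nat_lit 1141440528)) .nil)) .nil)) (.node .leaf (nat_lit 4532364225587255) (.br (nat_lit 1) (.cons (.br (nat_lit 2) (.cons (.rel (nat_lit 83955729)) .nil)) .nil)) .leaf)) (nat_lit 4532364726291112) (.br (nat_lit 1) (.cons (.br (nat_lit 2) (.cons (.rel (nat_lit 83890452)) .nil)) .nil)) (.node (.node .leaf (nat_lit 4532364727838982) (.br (nat_lit 0) (.cons (.br (nat_lit 4) (.cons (.rel (nat_lit 2151714816)) (.cons (.rel (nat_lit 1079050260)) .nil))) .nil)) .leaf) (nat_lit 4532365275805751) (.br (nat_lit 1) (.cons (.br (nat_lit 2) (.cons (.rel (nat_lit 83890452)) .nil)) .nil)) (.node .leaf (nat_lit 4532365278816407)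 (.br (nat_lit 0) (.cons (.br (nat_lit 2) (.cons (.rel (nat_lit 72355845)) .nil)) .nil)) .leaf))))

/-- refutations 51 -/
def e51 : EX := (.node (.node (.node .leaf (nat_lit 3191063392075831) (.br (nat_lit 0) (.cons (.br (nat_lit 1) (.cons (.rel (nat_lit 20992017)) .nil)) .nil)) .leaf) (nat_lit 3192017652337902) (.br (nat_lit 3) (.cons (.br (nat_lit 5) (.cons (.rel (nat_lit 4831846416)) .nil)) .nil)) (.node .leaf (nat_lit 3195357875235746) (.br (nat_lit 0) (.cons (.br (nat_lit 1) (.cons (.rel (nat_lit 42009600)) .nil)) .nil)) .leaf)) (nat_lit 3195358505601286) (.br (nat_lit 0) (.cons (.br (nat_lit 5) (.cons (.rel (nat_lit 4299727104)) .nil)) .nil)) (.node (.node .leaf (nat_lit 3195358505642246) (.br (nat_lit 1) (.cons (.br (nat_lit 3) (.cons (.rel (nat_lit 285212961)) .nil)) .nil)) .leaf) (nat_lit 3195359138941190) (.br (nat_lit 1) (.cons (.br (nat_lit 2) (.cons (.rel (nat_lit 83968008)) .nil)) .nil)) (.node .leaf (nat_lit 3195359139137687) (.br (nat_lit 0) (.cons (.br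 (nat_lit 1) (.cons (.rel (nat_lit 20976912)) .nil)) .nil)) .leaf)))

/-- refutations 52 -/
def e52 : EX := (.node (.node .leaf (nat_lit 4875613587375462) (.br (nat_lit 0) (.cons (.br (nat_lit 3) (.cons (.rel (nat_lit 272650320)) .nil)) .nil)) .leaf) (nat_lit 4879907484590880) (.br (nat_lit 0) (.cons (.br (nat_lit 1) (.cons (.rel (nat_lit 20976912)) .nil)) .nil)) .leaf)

/-- refutations 53 -/
def e53 : EX := (.node (.node (.node (.node .leaf (nat_lit 4884202495477143) (.br (nat_lit 3) (.cons (.br (nat_lit 4) (.cons (.rel (nat_lit 1610617860)) .nil)) .nil)) .leaf) (nat_lit 4884206122366364) (.br (nat_lit 0) (.cons (.br (nat_lit 4) (.cons (.rel (nat_lit 2151680016)) .nil)) .nil)) .leaf) (nat_lit 4884207715748102) (.br (nat_lit 0) (.cons (.br (nat_lit 2) (.cons (.rel (nat_lit 71438400)) .nil)) .nil)) (.node (.node .leaf (nat_lit 4884208219054880) (.br (nat_lit 0) (.cons (.br (nat_lit 2) (.cons (.rel (nat_lit 75502080)) .nil)) .nil)) .leaf) (nat_lit 4884208219064582) (.br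 (nat_lit 5) (.cons (.br (nat_lit 0) (.cons (.rel (nat_lit 4300242948)) (.cons (.rel (nat_lit 8594137092)) .nil))) .nil)) .leaf)) (nat_lit 4884208219103359) (.br (nat_lit 0) (.cons (.br (nat_lit 2) (.cons (.rel (nat_lit 71303256)) .nil)) .nil)) (.node (.node (.node .leaf (nat_lit 4884208364800262) (.br (nat_lit 2) (.cons (.br (nat_lit 3) (.cons (.rel (nat_lit 335614032)) .nil)) .nil)) .leaf) (nat_lit 4884208365906182) (.br (nat_lit 0) (.cons (.br (nat_lit 2) (.cons (.rel (nat_lit 72418344)) .nil)) .nil)) .leaf) (nat_lit 4884208999245879) (.br (nat_lit 0) (.cons (.br (nat_lit 3) (.cons (.rel (nat_lit 272639040)) .nil)) .nil)) (.node (.node .leaf (nat_lit 4885336321021410) (.br (nat_lit 0) (.cons (.br (nat_lit 1) (.cons (.rel (nat_lit 21237840)) .nil)) .nil)) .leaf) (nat_lit 4886183903244550) (.br (nat_lit 1) (.cons (.br (nat_lit 4) (.cons (.rel (nat_lit 2181042180)) .nil)) .nil)) .leaf)))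

/-- refutations 54 -/
def e54 : EX := (.node (.node (.node (.node (.node .leaf (nat_lit 4576158910354295) (.br (nat_lit 0) (.cons (.br (nat_lit 1) (.cons (.rel (nat_lit 21041154)) .nil)) .nil)) .leaf) (nat_lit 4576158911078555) (.br (nat_lit 0) (.cons (.br (nat_lit 1) (.cons (.rel (nat_lit 21041154)) .nil)) .nil)) .leaf) (nat_lit 4576331170428185) (.br (nat_lit 3) (.cons (.br (nat_lit 2) (.cons (.rel (nat_lit 603980037)) (.cons (.rel (nat_lit 336592929)) .nil))) .nil)) (.node .leaf (nat_lit 4576331799556358) (.br (nat_lit 2) (.cons (.br (nat_lit 3) (.cons (.rel (nat_lit 335614032)) .nil)) .nil)) .leaf)) (nat_lit 4579658295667475) (.br (nat_lit 3) (.cons (.br (nat_lit 6) (.cons (.rel (nat_lit 17448308808)) .nil)) .nil)) (.node (.node .leaf (nat_lit 4579658295675142) (.br (nat_lit 1) (.cons (.br (nat_lit 0) (.cons (.rel (nat_lit 20976912)) (.cons (.rel (nat_lit 21104640)) (.cons (.rel (nat_lit 20972052)) .nil)))) (.cons (.br (nat_lit 5) (.cons (.rel (nat_lit 8623489041))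 (.cons (.rel (nat_lit 4311746580)) .nil))) .nil))) .leaf) (nat_lit 4579660791286022) (.br (nat_lit 0) (.cons (.br (nat_lit 2) (.cons (.rel (nat_lit 71336256)) (.cons (.br (nat_lit 3) (.cons (.rel (nat_lit 541081602)) (.cons (.rel (nat_lit 603996177)) .nil))) .nil))) .nil)) (.node .leaf (nat_lit 4579769220069638) (.br (nat_lit 0) (.cons (.br (nat_lit 2) (.cons (.rel (nat_lit 71336256)) .nil)) .nil)) .leaf))) (nat_lit 4582002605426950) (.br (nat_lit 0) (.cons (.br (nat_lit 3) (.cons (.rel (nat_lit 273680388)) .nil)) .nil)) (.node (.node (.node .leaf (nat_lit 4584754614110470) (.br (nat_lit 2) (.cons (.br (nat_lit 6) (.cons (.rel (nat_lit 17314156560)) .nil)) .nil)) .leaf) (nat_lit 4585135854290408) (.br (nat_lit 3) (.cons (.br (nat_lit 4) (.cons (.rel (nat_lit 1342198848)) .nil)) .nil)) (.node .leaf (nat_lit 4585135855372550) (.br (nat_lit 2) (.cons (.br (nat_lit 3) (.cons (.rel (nat_lit 671351808)) .nil)) .nil)) .leaf)) (nat_lit 4585135855945192) (.br (nat_lit 2) (.cons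 (.br (nat_lit 4) (.cons (.rel (nat_lit 1140850785)) .nil)) .nil)) (.node (.node .leaf (nat_lit 4586215363656360) (.br (nat_lit 0) (.cons (.br (nat_lit 2) (.cons (.rel (nat_lit 138420480)) .nil)) .nil)) .leaf) (nat_lit 4586215364887833) (.br (nat_lit 1) (.cons (.br (nat_lit 2) (.cons (.rel (nat_lit 83890452)) .nil)) .nil)) (.node .leaf (nat_lit 4587332221646105) (.br (nat_lit 1) (.cons (.br (nat_lit 2) (.cons (.rel (nat_lit 153092352)) .nil)) .nil)) .leaf))))

/-- refutations 55 -/
def e55 : EX := (.node .leaf (nat_lit 4949938542996987) (.br (nat_lit 1) (.cons (.br (nat_lit 2) (.cons (.rel (nat_lit 83887617)) .nil)) .nil)) .leaf)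

/-- refutations 56 -/
def e56 : EX := (.node (.node (.node .leaf (nat_lit 4954574993818980) (.br (nat_lit 0) (.cons (.br (nat_lit 2) (.cons (.rel (nat_lit 71827713)) .nil)) .nil)) .leaf) (nat_lit 4954577108816808) (.br (nat_lit 0) (.cons (.br (nat_lit 1) (.cons (.rel (nat_lit 21037329)) .nil)) .nil)) .leaf) (nat_lit 4954577109984012) (.br (nat_lit 1) (.cons (.br (nat_lit 4) (.cons (.rel (nat_lit 1090527240)) .nil)) .nil)) (.node .leaf (nat_lit 4954577193928966) (.br (nat_lit 0) (.cons (.br (nat_lit 2) (.cons (.rel (nat_lit 138413064)) .nil)) .nil)) .leaf))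

/-- refutations 57 -/
def e57 : EX := (.node .leaf (nat_lit 5020739590010268) (.br (nat_lit 0) (.cons (.br (nat_lit 3) (.cons (.rel (nat_lit 272634180)) .nil)) .nil)) .leaf)

/-- refutations 58 -/
def e58 : EX := (.node (.node (.node .leaf (nat_lit 5024939970124652) (.br (nat_lit 0) (.cons (.br (nat_lit 1) (.cons (.rel (nat_lit 21004296)) .nil)) .nil)) .leaf) (nat_lit 5024943655649337) (.br (nat_lit 4) (.cons (.br (nat_lit 1) (.cons (.rel (nat_lit 1090650144)) (.cons (.rel (nat_lit 1090525440)) .nil))) .nil)) .leaf) (nat_lit 5024945204103430) (.br (nat_lit 0) (.cons (.br (nat_lit 4) (.cons (.rel (nat_lit 1077936210)) .nil)) .nil)) (.node (.node .leaf (nat_lit 5026749297532440) (.br (nat_lit 1) (.cons (.br (nat_lit 3) (.cons (.rel (nat_lit 285278250)) .nil)) .nil)) .leaf) (nat_lit 5027135721351430) (.br (nat_lit 0) (.cons (.br (nat_lit 1) (.cons (.rel (nat_lit 21004296)) .nil)) .nil)) .leaf))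

/-- refutations 60 -/
def e60 : EX := (.node (.node .leaf (nat_lit 5295351081149216) (.br (nat_lit 1) (.cons (.br (nat_lit 5) (.cons (.rel (nat_lit 4311781380)) .nil)) .nil)) .leaf) (nat_lit 5297659210894118) (.br (nat_lit 4) (.cons (.br (nat_lit 6) (.cons (.rel (nat_lit 36507484164)) .nil)) .nil)) .leaf)

/-- refutations 61 -/
def e61 : EX := (.node (.node .leaf (nat_lit 5301140694756879) (.br (nat_lit 0) (.cons (.br (nat_lit 1) (.cons (.rel (nat_lit 20988192)) .nil)) .nil)) .leaf) (nat_lit 5301140697064224) (.br (nat_lit 0) (.cons (.br (nat_lit 4) (.cons (.rel (nat_lit 1078465536)) .nil)) .nil)) (.node .leaf (nat_lit 5301776349713810) (.br (nat_lit 1) (.cons (.br (nat_lit 2) (.cons (.rel (nat_lit 83920896)) .nil)) .nil)) .leaf))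

/-- refutations 62 -/
def e62 : EX := (.node .leaf (nat_lit 5372583211269476) (.br (nat_lit 1) (.cons (.br (nat_lit 2) (.cons (.rel (nat_lit 83902722)) .nil)) .nil)) .leaf)

/-- refutations 63 -/
def e63 : EX := (.node (.node (.node (.node (.node .leaf (nat_lit 5376786809013484) (.br (nat_lit 0) (.cons (.br (nat_lit 2) (.cons (.rel (nat_lit 72352020)) .nil)) .nil)) .leaf) (nat_lit 5376786811104507) (.br (nat_lit 0) (.cons (.br (nat_lit 1) (.cons (.rel (nat_lit 20972052)) .nil)) .nil)) .leaf) (nat_lit 5376786811370383) (.br (nat_lit 3) (.cons (.br (nat_lit 4) (.cons (.rel (nat_lit 1610679312)) .nil)) .nil)) (.node .leaf (nat_lit 5376786909676780) (.br (nat_lit 3) (.cons (.br (nat_lit 0) (.cons (.rel (nat_lit 276856833)) (.cons (.rel (nat_lit 272639040)) .nil))) .nil)) .leaf)) (nat_lit 5376786935563620) (.br (nat_lit 1) (.cons (.br (nat_lit 2) (.cons (.rel (nat_lit 83955729)) .nil)) .nil)) (.node (.node (.node .leaf (nat_lit 5376786935623807) (.br (nat_lit 3) (.cons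 (.br (nat_lit 2) (.cons (.rel (nat_lit 336592929)) (.cons (.rel (nat_lit 335545920)) .nil))) .nil)) .leaf) (nat_lit 5376787459130604) (.br (nat_lit 0) (.cons (.br (nat_lit 4) (.cons (.rel (nat_lit 2151745026)) .nil)) .nil)) .leaf) (nat_lit 5376787461651108) (.br (nat_lit 2) (.cons (.br (nat_lit 3) (.cons (.rel (nat_lit 402784257)) .nil)) .nil)) (.node .leaf (nat_lit 5376789154410623) (.br (nat_lit 0) (.cons (.br (nat_lit 2) (.cons (.rel (nat_lit 71305281)) .nil)) .nil)) .leaf))) (nat_lit 5376789154595123) (.br (nat_lit 2) (.cons (.br (nat_lit 3) (.cons (.rel (nat_lit 336593928)) .nil)) .nil)) (.node (.node (.node (.node .leaf (nat_lit 5376789154902278) (.br (nat_lit 2) (.cons (.br (nat_lit 3) (.cons (.rel (nat_lit 335614032)) .nil)) .nil)) .leaf) (nat_lit 5376789156149924) (.br (nat_lit 1) (.cons (.br (nat_lit 2) (.cons (.rel (nat_lit 83951904)) .nil)) .nil)) .leaf) (nat_lit 5376789156232548) (.br (nat_lit 1) (.cons (.br (nat_lit 2) (.cons (.rel (nat_lit 83920896))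 .nil)) .nil)) (.node .leaf (nat_lit 5376789688396038) (.br (nat_lit 2) (.cons (.br (nat_lit 3) (.cons (.rel (nat_lit 335552580)) .nil)) .nil)) .leaf)) (nat_lit 5378590823627014) (.br (nat_lit 3) (.cons (.br (nat_lit 0) (.cons (.rel (nat_lit 272634180)) (.cons (.rel (nat_lit 541069332)) .nil))) .nil)) (.node (.node (.node .leaf (nat_lit 5378936616266538) (.br (nat_lit 0) (.cons (.br (nat_lit 1) (.cons (.rel (nat_lit 25690176)) .nil)) .nil)) .leaf) (nat_lit 5378977342997740) (.br (nat_lit 3) (.cons (.br (nat_lit 4) (.cons (.rel (nat_lit 1610679312)) .nil)) .nil)) .leaf) (nat_lit 5378979588999430) (.br (nat_lit 0) (.cons (.br (nat_lit 4) (.cons (.rel (nat_lit 1078034496)) .nil)) .nil)) (.node .leaf (nat_lit 5378979589553508) (.br (nat_lit 0) (.cons (.br (nat_lit 1) (.cons (.rel (nat_lit 37765185)) .nil)) .nil)) .leaf))))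

/-- refutations 65 -/
def e65 : EX := (.node (.node .leaf (nat_lit 4962119559154316) (.br (nat_lit 0) (.cons (.br (nat_lit 1) (.cons (.rel (nat_lit 20992017)) .nil)) .nil)) .leaf) (nat_lit 4974196414726924) (.br (nat_lit 0) (.cons (.br (nat_lit 1) (.cons (.rel (nat_lit 20972052)) .nil)) .nil)) .leaf)

/-- refutations 66 -/
def e66 : EX := (.node (.node (.node (.node (.node .leaf (nat_lit 5494228410962606) (.br (nat_lit 0) (.cons (.br (nat_lit 1) (.cons (.rel (nat_lit 20972052)) .nil)) .nil)) .leaf) (nat_lit 5494434682691037) (.br (nat_lit 2) (.cons (.br (nat_lit 3) (.cons (.rel (nat_lit 603984897)) .nil)) .nil)) .leaf) (nat_lit 5494434683986800) (.br (nat_lit 2) (.cons (.br (nat_lit 3) (.cons (.rel (nat_lit 603984897)) .nil)) .nil)) (.node .leaf (nat_lit 5494436898878252) (.br (nat_lit 0) (.cons (.br (nat_lit 1) (.cons (.rel (nat_lit 20975877)) .nil)) .nil)) .leaf)) (nat_lit 5494436899809407) (.br (nat_lit 1) (.cons (.br (nat_lit 2) (.cons (.rel (nat_lit 83895312))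 .nil)) .nil)) (.node (.node (.node .leaf (nat_lit 5494436899850502) (.br (nat_lit 1) (.cons (.br (nat_lit 4) (.cons (.rel (nat_lit 1090525440)) (.cons (.br (nat_lit 0) (.cons (.rel (nat_lit 37750080)) (.cons (.rel (nat_lit 21104640)) (.cons (.rel (nat_lit 37765185)) (.cons (.rel (nat_lit 1082131488)) .nil))))) (.cons (.rel (nat_lit 1090536720)) .nil)))) .nil)) .leaf) (nat_lit 5495296311675142) (.br (nat_lit 4) (.cons (.br (nat_lit 1) (.cons (.rel (nat_lit 2181042180)) (.cons (.rel (nat_lit 1090551825)) .nil))) .nil)) .leaf) (nat_lit 5495296312699142) (.br (nat_lit 4) (.cons (.br (nat_lit 5) (.cons (.rel (nat_lit 5369237760)) .nil)) .nil)) (.node .leaf (nat_lit 5495296312740102) (.br (nat_lit 0) (.cons (.br (nat_lit 2) (.cons (.rel (nat_lit 71303256)) (.cons (.rel (nat_lit 138412065)) .nil))) (.cons (.br (nat_lit 3) (.cons (.rel (nat_lit 545521668)) (.cons (.rel (nat_lit 272639040)) .nil))) .nil))) .leaf))) (nat_lit 5495296312781062) (.br (nat_lit 1) (.cons (.br (nat_lit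 6) (.cons (.rel (nat_lit 17196736512)) .nil)) .nil)) (.node (.node (.node (.node .leaf (nat_lit 5495468195277062) (.br (nat_lit 0) (.cons (.br (nat_lit 3) (.cons (.rel (nat_lit 541069332)) .nil)) .nil)) .leaf) (nat_lit 5495468195318022) (.br (nat_lit 6) (.cons (.br (nat_lit 1) (.cons (.br (nat_lit 3) (.cons (.rel (nat_lit 34628198400)) (.cons (.rel (nat_lit 285218820)) .nil))) (.cons (.rel (nat_lit 17213952000)) .nil))) .nil)) .leaf) (nat_lit 5495468195358982) (.br (nat_lit 2) (.cons (.br (nat_lit 4) (.cons (.rel (nat_lit 1141379076)) .nil)) .nil)) (.node .leaf (nat_lit 5495637187037446) (.br (nat_lit 6) (.cons (.br (nat_lit 2) (.cons (.rel (nat_lit 17247503376)) (.cons (.rel (nat_lit 34426849536)) .nil))) .nil)) .leaf)) (nat_lit 5495637188020486) (.br (nat_lit 0) (.cons (.br (nat_lit 3) (.cons (.rel (nat_lit 272650320)) (.cons (.rel (nat_lit 541130784)) .nil))) (.cons (.br (nat_lit 1) (.cons (.rel (nat_lit 21037329)) (.cons (.rel (nat_lit 21104640)) .nil))) .nil)))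 (.node (.node (.node .leaf (nat_lit 5495637924925702) (.br (nat_lit 1) (.cons (.br (nat_lit 4) (.cons (.rel (nat_lit 1090527240)) (.cons (.rel (nat_lit 2181103632)) (.cons (.rel (nat_lit 1090525440)) (.cons (.rel (nat_lit 1090786368)) .nil))))) .nil)) .leaf) (nat_lit 5495637924929798) (.br (nat_lit 2) (.cons (.br (nat_lit 4) (.cons (.rel (nat_lit 1141379076)) (.cons (.rel (nat_lit 1140859200)) (.cons (.rel (nat_lit 1141379076)) .nil)))) .nil)) .leaf) (nat_lit 5495637925234950) (.br (nat_lit 0) (.cons (.br (nat_lit 1) (.cons (.rel (nat_lit 20976912)) (.cons (.rel (nat_lit 20976912)) (.cons (.rel (nat_lit 21104640)) .nil)))) (.cons (.br (nat_lit 6) (.cons (.rel (nat_lit 34363999248)) (.cons (.rel (nat_lit 17184097344)) (.cons (.rel (nat_lit 17188258308)) .nil)))) (.cons (.br (nat_lit 1) (.cons (.rel (nat_lit 21104640)) (.cons (.rel (nat_lit 20975877)) (.cons (.br (nat_lit 6) (.cons (.br (nat_lit 4) (.cons (.rel (nat_lit 1078034496)) (.cons (.rel (nat_lit 1078034496))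 (.cons (.rel (nat_lit 35433547776)) (.cons (.rel (nat_lit 18270404736)) (.cons (.rel (nat_lit 1077938244)) (.cons (.rel (nat_lit 1090520580)) (.cons (.rel (nat_lit 35433547776)) .nil)))))))) (.cons (.rel (nat_lit 17196712992)) (.cons (.rel (nat_lit 34363932936)) .nil)))) .nil)))) .nil)))) (.node .leaf (nat_lit 5495637926217990) (.br (nat_lit 1) (.cons (.br (nat_lit 2) (.cons (.rel (nat_lit 83887617)) (.cons (.rel (nat_lit 83906592)) (.cons (.rel (nat_lit 167789568)) .nil)))) (.cons (.br (nat_lit 2) (.cons (.br (nat_lit 6) (.cons (.rel (nat_lit 34510733313)) (.cons (.rel (nat_lit 17248026648)) (.cons (.rel (nat_lit 17246978640)) (.cons (.rel (nat_lit 17196712992)) .nil))))) (.cons (.rel (nat_lit 100679760)) (.cons (.br (nat_lit 3) (.cons (.rel (nat_lit 335545920)) (.cons (.rel (nat_lit 553648257)) (.cons (.rel (nat_lit 285280272)) (.cons (.br (nat_lit 5) (.cons (.rel (nat_lit 4563931140)) (.cons (.rel (nat_lit 8623489041)) (.cons (.rel (nat_lit 8858388480)) (.cons (.rel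 (nat_lit 8606712192)) .nil))))) (.cons (.rel (nat_lit 301989954)) (.cons (.rel (nat_lit 285280272)) .nil))))))) .nil)))) .nil))) .leaf))))

/-- refutations 67 -/
def e67 : EX := (.node (.node (.node .leaf (nat_lit 5496321320945926) (.br (nat_lit 4) (.cons (.br (nat_lit 6) (.cons (.rel (nat_lit 18254661636)) .nil)) .nil)) .leaf) (nat_lit 5496327608207622) (.br (nat_lit 1) (.cons (.br (nat_lit 2) (.cons (.rel (nat_lit 83951904)) (.cons (.rel (nat_lit 167796996)) .nil))) (.cons (.br (nat_lit 6) (.cons (.rel (nat_lit 17196736512)) (.cons (.rel (nat_lit 17196736512)) (.cons (.rel (nat_lit 17196663810)) .nil)))) .nil))) (.node .leaf (nat_lit 5499932243593367) (.br (nat_lit 0) (.cons (.br (nat_lit 1) (.cons (.rel (nat_lit 42009600)) .nil)) .nil)) .leaf)) (nat_lit 5499934877419782) (.br (nat_lit 3) (.cons (.br (nat_lit 2) (.cons (.rel (nat_lit 335614032)) (.cons (.rel (nat_lit 603984897)) (.cons (.rel (nat_lit 671351808)) .nil)))) .nil)) (.node (.node .leaf (nat_lit 5499934960240902)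 (.br (nat_lit 2) (.cons (.br (nat_lit 4) (.cons (.rel (nat_lit 1140851784)) .nil)) .nil)) .leaf) (nat_lit 5499934961305862) (.br (nat_lit 6) (.cons (.br (nat_lit 4) (.cons (.rel (nat_lit 18253676880)) (.cons (.br (nat_lit 2) (.cons (.rel (nat_lit 1141379076)) (.cons (.rel (nat_lit 2214678528)) .nil))) .nil))) .nil)) (.node .leaf (nat_lit 5499934961575320) (.br (nat_lit 2) (.cons (.br (nat_lit 3) (.cons (.rel (nat_lit 335552580)) .nil)) .nil)) .leaf)))

/-- refutations 68 -/
def e68 : EX := (.node (.node (.node .leaf (nat_lit 10995207524919583) (.br (nat_lit 1) (.cons (.br (nat_lit 3) (.cons (.rel (nat_lit 285218820)) .nil)) .nil)) .leaf) (nat_lit 10995549447129273) (.br (nat_lit 3) (.cons (.br (nat_lit 4) (.cons (.rel (nat_lit 2415919620)) .nil)) .nil)) (.node .leaf (nat_lit 10995549447375773) (.br (nat_lit 0) (.cons (.br (nat_lit 3) (.cons (.rel (nat_lit 272699457)) .nil)) .nil)) .leaf)) (nat_lit 10995549447631773) (.br (nat_lit 0) (.cons (.br (nat_lit 1) (.cons (.rel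 (nat_lit 20980737)) .nil)) .nil)) (.node (.node .leaf (nat_lit 10996416719061619) (.br (nat_lit 0) (.cons (.br (nat_lit 3) (.cons (.rel (nat_lit 272639040)) .nil)) .nil)) .leaf) (nat_lit 10996665111484678) (.br (nat_lit 0) (.cons (.br (nat_lit 3) (.cons (.rel (nat_lit 272639040)) .nil)) .nil)) (.node .leaf (nat_lit 10996711185914118) (.br (nat_lit 2) (.cons (.br (nat_lit 6) (.cons (.rel (nat_lit 17247010884)) .nil)) .nil)) .leaf)))

/-- refutations 69 -/
def e69 : EX := (.node (.node (.node (.node .leaf (nat_lit 10997736210374932) (.br (nat_lit 0) (.cons (.br (nat_lit 1) (.cons (.rel (nat_lit 20988192)) .nil)) .nil)) .leaf) (nat_lit 10997739377074957) (.br (nat_lit 0) (.cons (.br (nat_lit 1) (.cons (.rel (nat_lit 20975877)) .nil)) .nil)) .leaf) (nat_lit 11000749208601203) (.br (nat_lit 0) (.cons (.br (nat_lit 3) (.cons (.rel (nat_lit 273680388)) .nil)) .nil)) (.node .leaf (nat_lit 11001822427220230) (.br (nat_lit 3) (.cons (.br (nat_lit 4) (.cons (.rel (nat_lit 1610613000))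 .nil)) .nil)) .leaf)) (nat_lit 11001993573247263) (.br (nat_lit 1) (.cons (.br (nat_lit 2) (.cons (.rel (nat_lit 83968008)) .nil)) .nil)) (.node (.node .leaf (nat_lit 11001993994242310) (.br (nat_lit 6) (.cons (.br (nat_lit 1) (.cons (.br (nat_lit 2) (.cons (.rel (nat_lit 17247061056)) (.cons (.rel (nat_lit 83968008)) .nil))) (.cons (.rel (nat_lit 17196736512)) .nil))) .nil)) .leaf) (nat_lit 11001993995184390) (.br (nat_lit 1) (.cons (.br (nat_lit 4) (.cons (.rel (nat_lit 1090535685)) .nil)) .nil)) (.node .leaf (nat_lit 11001993995225350) (.br (nat_lit 1) (.cons (.br (nat_lit 6) (.cons (.rel (nat_lit 17196712992)) (.cons (.rel (nat_lit 17213952000)) .nil))) (.cons (.br (nat_lit 6) (.cons (.rel (nat_lit 17196736512)) (.cons (.br (nat_lit 3) (.cons (.rel (nat_lit 285221376)) (.cons (.rel (nat_lit 285221376)) (.cons (.rel (nat_lit 34628198400)) .nil)))) .nil))) .nil))) .leaf)))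

/-- refutations 70 -/
def e70 : EX := (.node (.node (.node .leaf (nat_lit 11006283195295198) (.br (nat_lit 2) (.cons (.br (nat_lit 3) (.cons (.rel (nat_lit 336740352)) .nil)) .nil)) .leaf) (nat_lit 11006283195353273) (.br (nat_lit 0) (.cons (.br (nat_lit 1) (.cons (.rel (nat_lit 20972052)) .nil)) .nil)) (.node .leaf (nat_lit 11006283350542598) (.br (nat_lit 3) (.cons (.br (nat_lit 5) (.cons (.rel (nat_lit 4563411264)) .nil)) .nil)) .leaf)) (nat_lit 11006283350810006) (.br (nat_lit 1) (.cons (.br (nat_lit 3) (.cons (.rel (nat_lit 285221376)) .nil)) .nil)) (.node (.node .leaf (nat_lit 11006285837706718) (.br (nat_lit 3) (.cons (.br (nat_lit 5) (.cons (.rel (nat_lit 4563402849)) .nil)) .nil)) .leaf) (nat_lit 11006286865408300) (.br (nat_lit 2) (.cons (.br (nat_lit 1) (.cons (.rel (nat_lit 83895312)) (.cons (.rel (nat_lit 83920896)) .nil))) .nil)) (.node .leaf (nat_lit 11007422834192646) (.br (nat_lit 0) (.cons (.br (nat_lit 2) (.cons (.rel (nat_lit 72368160)) .nil))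 .nil)) .leaf)))

/-- refutations 72 -/
def e72 : EX := (.node (.node (.node (.node .leaf (nat_lit 5471648621268504) (.br (nat_lit 2) (.cons (.br (nat_lit 3) (.cons (.rel (nat_lit 335552580)) .nil)) .nil)) .leaf) (nat_lit 5471648621464929) (.br (nat_lit 2) (.cons (.br (nat_lit 3) (.cons (.rel (nat_lit 335552580)) .nil)) .nil)) .leaf) (nat_lit 5472759233927430) (.br (nat_lit 0) (.cons (.br (nat_lit 1) (.cons (.rel (nat_lit 21104640)) .nil)) .nil)) (.node (.node .leaf (nat_lit 5472759554304686) (.br (nat_lit 0) (.cons (.br (nat_lit 1) (.cons (.rel (nat_lit 42009600)) .nil)) .nil)) .leaf) (nat_lit 5473360509668080) (.br (nat_lit 0) (.cons (.br (nat_lit 3) (.cons (.rel (nat_lit 545521668)) .nil)) .nil)) .leaf)) (nat_lit 5473366608186096) (.br (nat_lit 2) (.cons (.br (nat_lit 3) (.cons (.rel (nat_lit 603980037)) .nil)) .nil)) (.node (.node (.node .leaf (nat_lit 5478694859049895) (.br (nat_lit 0) (.cons (.br (nat_lit 1) (.cons (.rel (nat_lit 20992017)) .nil)) .nil)) .leaf)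 (nat_lit 5478694859246320) (.br (nat_lit 0) (.cons (.br (nat_lit 3) (.cons (.rel (nat_lit 272639040)) .nil)) .nil)) .leaf) (nat_lit 5478695714687728) (.br (nat_lit 1) (.cons (.br (nat_lit 6) (.cons (.rel (nat_lit 17196646680)) (.cons (.rel (nat_lit 17196650505)) .nil))) .nil)) (.node (.node .leaf (nat_lit 5479161144216929) (.br (nat_lit 2) (.cons (.br (nat_lit 3) (.cons (.rel (nat_lit 335552580)) (.cons (.rel (nat_lit 603981072)) .nil))) .nil)) .leaf) (nat_lit 5482176756320518) (.br (nat_lit 5) (.cons (.br (nat_lit 6) (.cons (.rel (nat_lit 25769821200)) .nil)) .nil)) .leaf)))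

/-- refutations 73 -/
def e73 : EX := (.node (.node (.node .leaf (nat_lit 11435138930444550) (.br (nat_lit 0) (.cons (.br (nat_lit 2) (.cons (.rel (nat_lit 138559488)) .nil)) .nil)) .leaf) (nat_lit 11435997923903750) (.br (nat_lit 0) (.cons (.br (nat_lit 4) (.cons (.rel (nat_lit 1078476816)) .nil)) .nil)) (.node .leaf (nat_lit 11437497912192238) (.br (nat_lit 0) (.cons (.br (nat_lit 1) (.cons (.rel (nat_lit 41959428)) .nil)) .nil)) .leaf)) (nat_lit 11437500575254790) (.br (nat_lit 2) (.cons (.br (nat_lit 3) (.cons (.rel (nat_lit 335561025)) .nil)) .nil)) (.node (.node .leaf (nat_lit 11437501162457350) (.br (nat_lit 5) (.cons (.br (nat_lit 6) (.cons (.rel (nat_lit 21474869568)) .nil)) .nil)) .leaf) (nat_lit 11437501162766598) (.br (nat_lit 0) (.cons (.br (nat_lit 4) (.cons (.rel (nat_lit 1077938244)) .nil)) .nil)) (.node .leaf (nat_lit 11437544133422318) (.br (nat_lit 0) (.cons (.br (nat_lit 2) (.cons (.rel (nat_lit 71336256)) .nil)) .nil)) .leaf)))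

/-- refutations 74 -/
def e74 : EX := (.node (.node (.node (.node (.node .leaf (nat_lit 11440294988351750) (.br (nat_lit 3) (.cons (.br (nat_lit 5) (.cons (.rel (nat_lit 4831846416)) (.cons (.rel (nat_lit 4563931140)) (.cons (.rel (nat_lit 4564467717)) .nil)))) .nil)) .leaf) (nat_lit 11440294988353044) (.br (nat_lit 5) (.cons (.br (nat_lit 2) (.cons (.rel (nat_lit 8657060112)) (.cons (.rel (nat_lit 8657043972)) .nil))) .nil)) .leaf) (nat_lit 11440295407782150) (.br (nat_lit 3) (.cons (.br (nat_lit 4) (.cons (.rel (nat_lit 1342210128)) (.cons (.rel (nat_lit 2416967808)) .nil))) .nil)) (.node (.node .leaf (nat_lit 11440295554582790) (.br (nat_lit 3) (.cons (.br (nat_lit 4) (.cons (.rel (nat_lit 1342244160)) (.cons (.rel (nat_lit 1342210128)) .nil))) .nil)) .leaf) (nat_lit 11440553648828543) (.br (nat_lit 2) (.cons (.br (nat_lit 3) (.cons (.rel (nat_lit 335614032)) .nil)) .nil)) .leaf)) (nat_lit 11440596622245895) (.br (nat_lit 3) (.cons (.br (nat_lit 4) (.cons (.rel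 (nat_lit 2415935760)) .nil)) .nil)) (.node (.node (.node .leaf (nat_lit 11440767854184710) (.br (nat_lit 4) (.cons (.br (nat_lit 6) (.cons (.rel (nat_lit 36507484164)) .nil)) .nil)) .leaf) (nat_lit 11441627078535295) (.br (nat_lit 3) (.cons (.br (nat_lit 5) (.cons (.rel (nat_lit 8858388480)) (.cons (.rel (nat_lit 4563992592)) (.cons (.rel (nat_lit 4563550272)) (.cons (.rel (nat_lit 4563402849)) .nil))))) .nil)) .leaf) (nat_lit 11441798225922310) (.br (nat_lit 0) (.cons (.br (nat_lit 5) (.cons (.rel (nat_lit 8598650880)) .nil)) .nil)) (.node .leaf (nat_lit 11441798226075910) (.br (nat_lit 0) (.cons (.br (nat_lit 3) (.cons (.rel (nat_lit 273776640)) .nil)) .nil)) .leaf))) (nat_lit 11441798226905350) (.br (nat_lit 3) (.cons (.br (nat_lit 4) (.cons (.rel (nat_lit 1342259265)) .nil)) .nil)) (.node (.node (.node (.node .leaf (nat_lit 11441798226905988) (.br (nat_lit 4) (.cons (.br (nat_lit 5) (.cons (.rel (nat_lit 10737696777)) .nil)) .nil)) .leaf) (nat_lit 11441798226906644)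 (.br (nat_lit 1) (.cons (.br (nat_lit 5) (.cons (.rel (nat_lit 4311749136)) (.cons (.rel (nat_lit 4311842832)) .nil))) .nil)) .leaf) (nat_lit 11441798645352710) (.br (nat_lit 0) (.cons (.br (nat_lit 5) (.cons (.rel (nat_lit 4303373313)) .nil)) .nil)) (.node .leaf (nat_lit 11441798646335750) (.br (nat_lit 3) (.cons (.br (nat_lit 6) (.cons (.rel (nat_lit 17448370260)) (.cons (.rel (nat_lit 17448308808)) (.cons (.rel (nat_lit 17449362432)) (.cons (.rel (nat_lit 17716742160)) .nil))))) .nil)) .leaf)) (nat_lit 11441798646644998) (.br (nat_lit 2) (.cons (.br (nat_lit 3) (.cons (.rel (nat_lit 335545920)) .nil)) .nil)) (.node (.node (.node .leaf (nat_lit 11441798646646292) (.br (nat_lit 1) (.cons (.br (nat_lit 2) (.cons (.rel (nat_lit 83906592)) .nil)) .nil)) .leaf) (nat_lit 11441798646795645) (.br (nat_lit 1) (.cons (.br (nat_lit 3) (.cons (.rel (nat_lit 285213960)) .nil)) .nil)) .leaf) (nat_lit 11441798760040710) (.br (nat_lit 3) (.cons (.br (nat_lit 4) (.cons (.rel (nat_lit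 1342198848)) .nil)) .nil)) (.node .leaf (nat_lit 11445924872587526) (.br (nat_lit 3) (.cons (.br (nat_lit 4) (.cons (.rel (nat_lit 1343299584)) .nil)) .nil)) .leaf))))

/-- refutations 76 -/
def e76 : EX := (.node .leaf (nat_lit 11530918714411270) (.br (nat_lit 0) (.cons (.br (nat_lit 1) (.cons (.rel (nat_lit 22020240)) .nil)) .nil)) .leaf)

/-- refutations 78 -/
def e78 : EX := (.node (.node (.node (.node (.node .leaf (nat_lit 11563533123194392) (.br (nat_lit 0) (.cons (.br (nat_lit 2) (.cons (.rel (nat_lit 71336256)) .nil)) .nil)) .leaf) (nat_lit 11563535743303942) (.br (nat_lit 1) (.cons (.br (nat_lit 3) (.cons (.rel (nat_lit 302284929)) .nil)) .nil)) .leaf) (nat_lit 11563535744634392) (.br (nat_lit 0) (.cons (.br (nat_lit 1) (.cons (.rel (nat_lit 20972052)) (.cons (.rel (nat_lit 21004296)) (.cons (.rel (nat_lit 20988192)) .nil)))) (.cons (.br (nat_lit 6) (.cons (.rel (nat_lit 17184064065)) (.cons (.rel (nat_lit 17184064065)) (.cons (.rel (nat_lit 17188258308))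 .nil)))) .nil))) (.node .leaf (nat_lit 11563910052710662) (.br (nat_lit 1) (.cons (.br (nat_lit 3) (.cons (.rel (nat_lit 285221376)) .nil)) .nil)) .leaf)) (nat_lit 11563967732779760) (.br (nat_lit 0) (.cons (.br (nat_lit 2) (.cons (.rel (nat_lit 71336256)) .nil)) .nil)) (.node (.node (.node .leaf (nat_lit 11563967732780568) (.br (nat_lit 2) (.cons (.br (nat_lit 4) (.cons (.rel (nat_lit 1141905408)) .nil)) .nil)) .leaf) (nat_lit 11563967778917912) (.br (nat_lit 0) (.cons (.br (nat_lit 1) (.cons (.rel (nat_lit 20988192)) .nil)) .nil)) .leaf) (nat_lit 11563968587196543) (.br (nat_lit 0) (.cons (.br (nat_lit 1) (.cons (.rel (nat_lit 25429248)) .nil)) .nil)) (.node .leaf (nat_lit 11563968588418584) (.br (nat_lit 0) (.cons (.br (nat_lit 2) (.cons (.br (nat_lit 3) (.cons (.rel (nat_lit 272634180)) (.cons (.rel (nat_lit 336593928)) .nil))) (.cons (.rel (nat_lit 71305281)) .nil))) .nil)) .leaf))) (nat_lit 11563970669099664) (.br (nat_lit 0) (.cons (.br (nat_lit 4) (.cons (.rel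 (nat_lit 1078034496)) .nil)) .nil)) (.node (.node (.node (.node .leaf (nat_lit 11563971209857776) (.br (nat_lit 0) (.cons (.br (nat_lit 2) (.cons (.rel (nat_lit 71336256)) .nil)) .nil)) .leaf) (nat_lit 11563972780220668) (.br (nat_lit 0) (.cons (.br (nat_lit 6) (.cons (.rel (nat_lit 17185112073)) .nil)) .nil)) .leaf) (nat_lit 11563972782721286) (.br (nat_lit 2) (.cons (.br (nat_lit 3) (.cons (.rel (nat_lit 671351808)) .nil)) .nil)) (.node .leaf (nat_lit 11563973830589976) (.br (nat_lit 0) (.cons (.br (nat_lit 2) (.cons (.rel (nat_lit 71336256)) .nil)) .nil)) .leaf)) (nat_lit 11564766596697624) (.br (nat_lit 1) (.cons (.br (nat_lit 6) (.cons (.rel (nat_lit 17196650505)) .nil)) .nil)) (.node (.node (.node .leaf (nat_lit 11564767451626224) (.br (nat_lit 0) (.cons (.br (nat_lit 2) (.cons (.rel (nat_lit 71303256)) (.cons (.rel (nat_lit 75497490)) (.cons (.rel (nat_lit 138446112)) .nil)))) .nil)) .leaf) (nat_lit 11564770073066224) (.br (nat_lit 0) (.cons (.br (nat_lit 4)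 (.cons (.rel (nat_lit 1082155008)) .nil)) .nil)) .leaf) (nat_lit 11564771646638342) (.br (nat_lit 1) (.cons (.br (nat_lit 2) (.cons (.rel (nat_lit 167789568)) .nil)) .nil)) (.node .leaf (nat_lit 11564771646883967) (.br (nat_lit 1) (.cons (.br (nat_lit 3) (.cons (.rel (nat_lit 302530560)) .nil)) .nil)) .leaf))))

/-- refutations 79 -/
def e79 : EX := (.node (.node (.node (.node (.node (.node .leaf (nat_lit 11564943445330182) (.br (nat_lit 1) (.cons (.br (nat_lit 2) (.cons (.rel (nat_lit 83895312)) .nil)) .nil)) .leaf) (nat_lit 11564943445534727) (.br (nat_lit 4) (.cons (.br (nat_lit 5) (.cons (.rel (nat_lit 6442456065)) .nil)) .nil)) .leaf) (nat_lit 11564943445575807) (.br (nat_lit 1) (.cons (.br (nat_lit 3) (.cons (.rel (nat_lit 302530560)) (.cons (.rel (nat_lit 301989954)) .nil))) .nil)) (.node .leaf (nat_lit 11564944682651160) (.br (nat_lit 3) (.cons (.br (nat_lit 4) (.cons (.rel (nat_lit 1342193988)) .nil)) .nil)) .leaf)) (nat_lit 11565630640097542) (.br (nat_lit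 2) (.cons (.br (nat_lit 4) (.cons (.rel (nat_lit 2214592521)) .nil)) .nil)) (.node (.node (.node .leaf (nat_lit 11565630640343167) (.br (nat_lit 2) (.cons (.br (nat_lit 4) (.cons (.rel (nat_lit 1207980288)) (.cons (.rel (nat_lit 1140998208)) .nil))) .nil)) .leaf) (nat_lit 11565630640619527) (.br (nat_lit 1) (.cons (.br (nat_lit 2) (.cons (.rel (nat_lit 151261188)) .nil)) .nil)) .leaf) (nat_lit 11568863993508496) (.br (nat_lit 0) (.cons (.br (nat_lit 1) (.cons (.rel (nat_lit 20975877)) .nil)) .nil)) (.node .leaf (nat_lit 11568863995498008) (.br (nat_lit 3) (.cons (.br (nat_lit 5) (.cons (.rel (nat_lit 4563403848)) .nil)) .nil)) .leaf))) (nat_lit 11569033490187151) (.br (nat_lit 1) (.cons (.br (nat_lit 2) (.cons (.rel (nat_lit 167789568)) .nil)) .nil)) (.node (.node (.node (.node .leaf (nat_lit 11569033492037639) (.br (nat_lit 1) (.cons (.br (nat_lit 2) (.cons (.rel (nat_lit 83955729)) .nil)) .nil)) .leaf) (nat_lit 11569110609673103) (.br (nat_lit 0) (.cons (.br (nat_lit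 1) (.cons (.rel (nat_lit 21041154)) .nil)) .nil)) .leaf) (nat_lit 11569110612183302) (.br (nat_lit 0) (.cons (.br (nat_lit 1) (.cons (.rel (nat_lit 20972052)) .nil)) .nil)) (.node .leaf (nat_lit 11569110612184600) (.br (nat_lit 2) (.cons (.br (nat_lit 3) (.cons (.rel (nat_lit 335545920)) (.cons (.rel (nat_lit 336593928)) .nil))) .nil)) .leaf)) (nat_lit 11569233361355432) (.br (nat_lit 0) (.cons (.br (nat_lit 3) (.cons (.rel (nat_lit 273678354)) .nil)) .nil)) (.node (.node .leaf (nat_lit 11569233361355663) (.br (nat_lit 1) (.cons (.br (nat_lit 3) (.cons (.rel (nat_lit 285212961)) .nil)) .nil)) .leaf) (nat_lit 11569233362684656) (.br (nat_lit 2) (.cons (.br (nat_lit 3) (.cons (.rel (nat_lit 336593928)) .nil)) .nil)) (.node .leaf (nat_lit 11569233715273990) (.br (nat_lit 0) (.cons (.br (nat_lit 1) (.cons (.rel (nat_lit 41959428)) .nil)) .nil)) .leaf)))) (nat_lit 11569234457438858) (.br (nat_lit 1) (.cons (.br (nat_lit 3) (.cons (.rel (nat_lit 285221376)) .nil)) .nil))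 (.node (.node (.node (.node (.node .leaf (nat_lit 11569234457951588) (.br (nat_lit 1) (.cons (.br (nat_lit 2) (.cons (.rel (nat_lit 83951904)) .nil)) .nil)) .leaf) (nat_lit 11569235813841158) (.br (nat_lit 3) (.cons (.br (nat_lit 4) (.cons (.rel (nat_lit 1342198848)) .nil)) .nil)) .leaf) (nat_lit 11569235815023503) (.br (nat_lit 1) (.cons (.br (nat_lit 3) (.cons (.rel (nat_lit 285279237)) .nil)) .nil)) (.node .leaf (nat_lit 11569235816352006) (.br (nat_lit 0) (.cons (.br (nat_lit 2) (.cons (.rel (nat_lit 71438400)) .nil)) .nil)) .leaf)) (nat_lit 11569235816555783) (.br (nat_lit 1) (.cons (.br (nat_lit 2) (.cons (.rel (nat_lit 83894277)) .nil)) .nil)) (.node (.node (.node .leaf (nat_lit 11569236297368463) (.br (nat_lit 3) (.cons (.br (nat_lit 4) (.cons (.rel (nat_lit 2416018944)) .nil)) .nil)) .leaf) (nat_lit 11569236298900743) (.br (nat_lit 1) (.cons (.br (nat_lit 5) (.cons (.rel (nat_lit 4311745545)) .nil)) .nil)) .leaf) (nat_lit 11569236397311212) (.br (nat_lit 0)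 (.cons (.br (nat_lit 1) (.cons (.rel (nat_lit 38805504)) .nil)) .nil)) (.node .leaf (nat_lit 11569236399564039) (.br (nat_lit 1) (.cons (.br (nat_lit 2) (.cons (.rel (nat_lit 83951904)) .nil)) .nil)) .leaf))) (nat_lit 11569238410125968) (.br (nat_lit 0) (.cons (.br (nat_lit 4) (.cons (.rel (nat_lit 1078525953)) .nil)) .nil)) (.node (.node (.node (.node .leaf (nat_lit 11569238412626182) (.br (nat_lit 0) (.cons (.br (nat_lit 1) (.cons (.rel (nat_lit 21004296)) (.cons (.rel (nat_lit 37750080)) .nil))) (.cons (.br (nat_lit 1) (.cons (.rel (nat_lit 42009600)) (.cons (.rel (nat_lit 21104640)) .nil))) .nil))) .leaf) (nat_lit 11569238412626672) (.br (nat_lit 0) (.cons (.br (nat_lit 2) (.cons (.rel (nat_lit 72352020)) .nil)) .nil)) .leaf) (nat_lit 11569239061414799) (.br (nat_lit 0) (.cons (.br (nat_lit 3) (.cons (.rel (nat_lit 272639040)) .nil)) .nil)) (.node .leaf (nat_lit 11569239062743302) (.br (nat_lit 0) (.cons (.br (nat_lit 1) (.cons (.rel (nat_lit 21041154)) .nil))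 .nil)) .leaf)) (nat_lit 11569239062744600) (.br (nat_lit 1) (.cons (.br (nat_lit 4) (.cons (.rel (nat_lit 2164527105)) .nil)) .nil)) (.node (.node .leaf (nat_lit 11569239647426815) (.br (nat_lit 0) (.cons (.br (nat_lit 1) (.cons (.rel (nat_lit 21004296)) .nil)) .nil)) .leaf) (nat_lit 11569239647896812) (.br (nat_lit 2) (.cons (.br (nat_lit 5) (.cons (.rel (nat_lit 4431282240)) .nil)) .nil)) (.node .leaf (nat_lit 11569239648617359) (.br (nat_lit 3) (.cons (.br (nat_lit 1) (.cons (.rel (nat_lit 285216786)) (.cons (.rel (nat_lit 285221376)) .nil))) .nil)) .leaf)))))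

/-- refutations 80 -/
def e80 : EX := (.node .leaf (nat_lit 11616741483707873) (.br (nat_lit 3) (.cons (.br (nat_lit 4) (.cons (.rel (nat_lit 1342244160)) .nil)) .nil)) .leaf)

/-- refutations 81 -/
def e81 : EX := (.node (.node (.node (.node .leaf (nat_lit 11618837198276870) (.br (nat_lit 1) (.cons (.br (nat_lit 2) (.cons (.rel (nat_lit 167789568)) .nil)) .nil)) .leaf) (nat_lit 11622009918207239) (.br (nat_lit 1) (.cons (.br (nat_lit 3) (.cons (.rel (nat_lit 285221376)) .nil)) .nil)) (.node .leaf (nat_lit 11622009921014036) (.br (nat_lit 0) (.cons (.br (nat_lit 1) (.cons (.rel (nat_lit 21041154)) .nil)) .nil)) .leaf)) (nat_lit 11622012982855831) (.br (nat_lit 0) (.cons (.br (nat_lit 6) (.cons (.rel (nat_lit 17188323585)) .nil)) .nil)) (.node (.node .leaf (nat_lit 11622012982856967) (.br (nat_lit 5) (.cons (.br (nat_lit 0) (.cons (.rel (nat_lit 4299165765)) (.cons (.rel (nat_lit 4299165765)) (.cons (.rel (nat_lit 4299227217)) .nil)))) .nil)) .leaf) (nat_lit 11622015198897415)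 (.br (nat_lit 0) (.cons (.br (nat_lit 1) (.cons (.rel (nat_lit 38805504)) .nil)) .nil)) (.node .leaf (nat_lit 11622015201446150) (.br (nat_lit 4) (.cons (.br (nat_lit 1) (.cons (.rel (nat_lit 1090527240)) (.cons (.rel (nat_lit 1090525440)) .nil))) .nil)) .leaf))) (nat_lit 11622015201447268) (.br (nat_lit 1) (.cons (.br (nat_lit 6) (.cons (.rel (nat_lit 34376785920)) (.cons (.rel (nat_lit 17196648705)) .nil))) .nil)) (.node (.node (.node .leaf (nat_lit 11622015201643783) (.br (nat_lit 1) (.cons (.br (nat_lit 0) (.cons (.rel (nat_lit 21037329)) (.cons (.rel (nat_lit 21104640)) (.cons (.rel (nat_lit 20976912)) .nil)))) (.cons (.br (nat_lit 4) (.cons (.rel (nat_lit 1090527240)) (.cons (.rel (nat_lit 1090527240)) (.cons (.br (nat_lit 5) (.cons (.rel (nat_lit 9663807489)) (.cons (.rel (nat_lit 4311781380)) (.cons (.rel (nat_lit 4311876864)) .nil)))) .nil)))) .nil))) .leaf) (nat_lit 11622015202017335) (.br (nat_lit 2) (.cons (.br (nat_lit 3) (.cons (.rel (nat_lit 336070656))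 .nil)) .nil)) (.node .leaf (nat_lit 11622015474117988) (.br (nat_lit 1) (.cons (.br (nat_lit 2) (.cons (.rel (nat_lit 83951904)) .nil)) .nil)) .leaf)) (nat_lit 11622015703474438) (.br (nat_lit 2) (.cons (.br (nat_lit 4) (.cons (.rel (nat_lit 1140850785)) .nil)) .nil)) (.node (.node .leaf (nat_lit 11622015704721670) (.br (nat_lit 0) (.cons (.br (nat_lit 4) (.cons (.rel (nat_lit 1077936210)) .nil)) .nil)) .leaf) (nat_lit 11622915366759777) (.br (nat_lit 0) (.cons (.br (nat_lit 3) (.cons (.rel (nat_lit 272639040)) .nil)) .nil)) (.node .leaf (nat_lit 11623782525962502) (.br (nat_lit 0) (.cons (.br (nat_lit 1) (.cons (.rel (nat_lit 21004296)) .nil)) .nil)) .leaf))))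

/-- refutations 82 -/
def e82 : EX := (.node .leaf (nat_lit 11628656040400103) (.br (nat_lit 2) (.cons (.br (nat_lit 5) (.cons (.rel (nat_lit 8657043972)) .nil)) .nil)) .leaf)

/-- refutations 83 -/
def e83 : EX := (.node (.node .leaf (nat_lit 11634109826794724) (.br (nat_lit 3) (.cons (.br (nat_lit 4) (.cons (.rel (nat_lit 1343226882)) .nil)) .nil)) .leaf) (nat_lit 11634109826840827) (.br (nat_lit 4) (.cons (.br (nat_lit 5) (.cons (.rel (nat_lit 5369237760)) .nil)) .nil)) .leaf)

/-- refutations 84 -/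
def e84 : EX := (.node (.node (.node .leaf (nat_lit 11981584366878856) (.br (nat_lit 1) (.cons (.br (nat_lit 5) (.cons (.rel (nat_lit 8623489041)) .nil)) .nil)) .leaf) (nat_lit 11981793891191046) (.br (nat_lit 0) (.cons (.br (nat_lit 1) (.cons (.rel (nat_lit 20976912)) .nil)) .nil)) .leaf) (nat_lit 11982652900621088) (.br (nat_lit 1) (.cons (.br (nat_lit 4) (.cons (.rel (nat_lit 1090525440)) .nil)) .nil)) (.node .leaf (nat_lit 11987153834215686) (.br (nat_lit 2) (.cons (.br (nat_lit 3) (.cons (.rel (nat_lit 335545920)) .nil)) .nil)) .leaf))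

/-- refutations 85 -/
def e85 : EX := (.node (.node (.node (.node .leaf (nat_lit 11991282639255814) (.br (nat_lit 1) (.cons (.br (nat_lit 3) (.cons (.rel (nat_lit 285212961)) .nil)) .nil)) .leaf) (nat_lit 11991282640535607) (.br (nat_lit 1) (.cons (.br (nat_lit 2) (.cons (.rel (nat_lit 83902722)) .nil)) .nil)) (.node .leaf (nat_lit 11991448993179703) (.br (nat_lit 2) (.cons (.br (nat_lit 4) (.cons (.rel (nat_lit 1141379076)) .nil)) .nil)) .leaf)) (nat_lit 11991451420589433) (.br (nat_lit 1) (.cons (.br (nat_lit 5) (.cons (.rel (nat_lit 8623489041)) .nil)) .nil)) (.node (.node .leaf (nat_lit 11991451421672311) (.br (nat_lit 2) (.cons (.br (nat_lit 5) (.cons (.rel (nat_lit 4362077505)) .nil)) .nil)) .leaf) (nat_lit 11991451422951686) (.br (nat_lit 2) (.cons (.br (nat_lit 4) (.cons (.rel (nat_lit 1141440528)) .nil)) .nil)) (.node .leaf (nat_lit 11991451423148183) (.br (nat_lit 0) (.cons (.br (nat_lit 2) (.cons (.rel (nat_lit 71303256)) .nil)) .nil)) .leaf))) (nat_lit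 11991451423522871) (.br (nat_lit 2) (.cons (.br (nat_lit 6) (.cons (.rel (nat_lit 17247502341)) .nil)) .nil)) (.node (.node (.node .leaf (nat_lit 11991451639776119) (.br (nat_lit 1) (.cons (.br (nat_lit 4) (.cons (.rel (nat_lit 1090600962)) .nil)) .nil)) .leaf) (nat_lit 11991451912405879) (.br (nat_lit 0) (.cons (.br (nat_lit 4) (.cons (.rel (nat_lit 1078987008)) .nil)) .nil)) (.node .leaf (nat_lit 11991451913953542) (.br (nat_lit 0) (.cons (.br (nat_lit 2) (.cons (.rel (nat_lit 138412065)) .nil)) .nil)) .leaf)) (nat_lit 11991452011849783) (.br (nat_lit 2) (.cons (.br (nat_lit 0) (.cons (.rel (nat_lit 71305281)) (.cons (.rel (nat_lit 75502080)) .nil))) .nil)) (.node (.node .leaf (nat_lit 11991452013069175) (.br (nat_lit 0) (.cons (.br (nat_lit 1) (.cons (.rel (nat_lit 21041154)) .nil)) .nil)) .leaf) (nat_lit 11991452014389303) (.br (nat_lit 5) (.cons (.br (nat_lit 2) (.cons (.rel (nat_lit 4362080340)) (.cons (.rel (nat_lit 4363132929)) .nil))) .nil)) .leaf)))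

/-- refutations 86 -/
def e86 : EX := (.node .leaf (nat_lit 11899017917833376) (.br (nat_lit 1) (.cons (.br (nat_lit 5) (.cons (.rel (nat_lit 4311744546)) .nil)) .nil)) .leaf)

/-- refutations 87 -/
def e87 : EX := (.node (.node (.node .leaf (nat_lit 12086265242148327) (.br (nat_lit 0) (.cons (.br (nat_lit 1) (.cons (.rel (nat_lit 20972052)) .nil)) .nil)) .leaf) (nat_lit 12086265242496377) (.br (nat_lit 1) (.cons (.br (nat_lit 3) (.cons (.rel (nat_lit 285280272)) .nil)) .nil)) .leaf) (nat_lit 12086326934731014) (.br (nat_lit 0) (.cons (.br (nat_lit 1) (.cons (.rel (nat_lit 21104640)) .nil)) .nil)) (.node (.node .leaf (nat_lit 12091524770798205) (.br (nat_lit 4) (.cons (.br (nat_lit 2) (.cons (.rel (nat_lit 1140850785)) (.cons (.rel (nat_lit 1140850785)) .nil))) .nil)) .leaf) (nat_lit 12091524772045437) (.br (nat_lit 2) (.cons (.br (nat_lit 3) (.cons (.rel (nat_lit 402673668)) .nil)) .nil)) .leaf))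

/-- refutations 88 -/
def e88 : EX := (.node (.node (.node (.node .leaf (nat_lit 12097002134594791) (.br (nat_lit 0) (.cons (.br (nat_lit 1) (.cons (.rel (nat_lit 20980737)) .nil)) .nil)) .leaf) (nat_lit 12097004223377535) (.br (nat_lit 0) (.cons (.br (nat_lit 2) (.cons (.rel (nat_lit 71305281)) .nil)) .nil)) .leaf) (nat_lit 12097004223378289) (.br (nat_lit 1) (.cons (.br (nat_lit 0) (.cons (.rel (nat_lit 37822785)) (.cons (.rel (nat_lit 20975877)) .nil))) .nil)) (.node .leaf (nat_lit 12097004223869190) (.br (nat_lit 2) (.cons (.br (nat_lit 3) (.cons (.rel (nat_lit 335552580)) .nil)) .nil)) .leaf)) (nat_lit 12097005167034630) (.br (nat_lit 1) (.cons (.br (nat_lit 2) (.cons (.rel (nat_lit 83890452)) .nil)) .nil)) (.node (.node .leaf (nat_lit 12097005167096115) (.br (nat_lit 3) (.cons (.br (nat_lit 4) (.cons (.rel (nat_lit 1342505088)) .nil)) .nil)) .leaf) (nat_lit 12098803167908102) (.br (nat_lit 3) (.cons (.br (nat_lit 6) (.cons (.rel (nat_lit 34896871680)) .nil))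 .nil)) (.node .leaf (nat_lit 12098803168936697) (.br (nat_lit 0) (.cons (.br (nat_lit 1) (.cons (.rel (nat_lit 20972052)) .nil)) .nil)) .leaf)))

/-- refutations 89 -/
def e89 : EX := (.node (.node .leaf (nat_lit 13282536254541158) (.br (nat_lit 0) (.cons (.br (nat_lit 3) (.cons (.rel (nat_lit 272639040)) .nil)) .nil)) .leaf) (nat_lit 13289668199097855) (.br (nat_lit 0) (.cons (.br (nat_lit 2) (.cons (.rel (nat_lit 71307849)) .nil)) .nil)) .leaf)

/-- refutations 90 -/
def e90 : EX := (.node (.node (.node .leaf (nat_lit 13293267536258310) (.br (nat_lit 2) (.cons (.br (nat_lit 4) (.cons (.rel (nat_lit 1140850785)) .nil)) .nil)) .leaf) (nat_lit 13295503951990118) (.br (nat_lit 1) (.cons (.br (nat_lit 3) (.cons (.rel (nat_lit 285213960)) .nil)) .nil)) .leaf) (nat_lit 13295507054258438) (.br (nat_lit 0) (.cons (.br (nat_lit 2) (.cons (.rel (nat_lit 138413064)) .nil)) .nil)) (.node .leaf (nat_lit 13295507055775078) (.br (nat_lit 0) (.cons (.br (nat_lit 3) (.cons (.rel (nat_lit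 272639040)) .nil)) .nil)) .leaf))

/-- refutations 91 -/
def e91 : EX := (.node (.node .leaf (nat_lit 13318796796758278) (.br (nat_lit 4) (.cons (.br (nat_lit 5) (.cons (.rel (nat_lit 5369827344)) .nil)) .nil)) .leaf) (nat_lit 13319524643173132) (.br (nat_lit 0) (.cons (.br (nat_lit 3) (.cons (.rel (nat_lit 545326209)) .nil)) .nil)) .leaf)

/-- refutations 92 -/
def e92 : EX := (.node (.node (.node (.node .leaf (nat_lit 13323984985140080) (.br (nat_lit 0) (.cons (.br (nat_lit 1) (.cons (.rel (nat_lit 21104640)) .nil)) .nil)) .leaf) (nat_lit 13323984985938797) (.br (nat_lit 0) (.cons (.br (nat_lit 3) (.cons (.rel (nat_lit 273154056)) .nil)) .nil)) .leaf) (nat_lit 13323984987432299) (.br (nat_lit 0) (.cons (.br (nat_lit 1) (.cons (.rel (nat_lit 20972052)) .nil)) .nil)) (.node (.node .leaf (nat_lit 13323990982719615) (.br (nat_lit 2) (.cons (.br (nat_lit 3) (.cons (.rel (nat_lit 336070656)) (.cons (.rel (nat_lit 335552580)) .nil))) .nil)) .leaf) (nat_lit 13323990983078768)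 (.br (nat_lit 1) (.cons (.br (nat_lit 2) (.cons (.rel (nat_lit 83887617)) .nil)) .nil)) .leaf)) (nat_lit 13323990985042182) (.br (nat_lit 2) (.cons (.br (nat_lit 3) (.cons (.rel (nat_lit 337903620)) (.cons (.rel (nat_lit 402673668)) .nil))) (.cons (.br (nat_lit 3) (.cons (.rel (nat_lit 336592929)) (.cons (.rel (nat_lit 402735120)) .nil))) .nil))) (.node (.node (.node .leaf (nat_lit 13323990985043356) (.br (nat_lit 0) (.cons (.br (nat_lit 2) (.cons (.rel (nat_lit 72356880)) .nil)) .nil)) .leaf) (nat_lit 13323990985083142) (.br (nat_lit 1) (.cons (.br (nat_lit 2) (.cons (.rel (nat_lit 83895312)) .nil)) .nil)) .leaf) (nat_lit 13323990985125345) (.br (nat_lit 1) (.cons (.br (nat_lit 3) (.cons (.rel (nat_lit 285212961)) .nil)) .nil)) (.node (.node .leaf (nat_lit 13324251405224198) (.br (nat_lit 1) (.cons (.br (nat_lit 2) (.cons (.rel (nat_lit 83887617)) .nil)) .nil)) .leaf) (nat_lit 13324904240253190) (.br (nat_lit 3) (.cons (.br (nat_lit 4) (.cons (.rel (nat_lit 1342210128))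 .nil)) .nil)) .leaf)))

/-- refutations 93 -/
def e93 : EX := (.node (.node (.node (.node .leaf (nat_lit 13328451750849138) (.br (nat_lit 0) (.cons (.br (nat_lit 1) (.cons (.rel (nat_lit 20975877)) .nil)) .nil)) .leaf) (nat_lit 13328455033356440) (.br (nat_lit 0) (.cons (.br (nat_lit 1) (.cons (.rel (nat_lit 21104640)) .nil)) .nil)) .leaf) (nat_lit 13328455156695302) (.br (nat_lit 0) (.cons (.br (nat_lit 2) (.cons (.rel (nat_lit 71321154)) .nil)) .nil)) (.node .leaf (nat_lit 13328457749854470) (.br (nat_lit 1) (.cons (.br (nat_lit 4) (.cons (.rel (nat_lit 1090529313)) .nil)) .nil)) .leaf)) (nat_lit 13328457750251782) (.br (nat_lit 1) (.cons (.br (nat_lit 2) (.cons (.rel (nat_lit 83951904)) (.cons (.rel (nat_lit 83890452)) .nil))) .nil)) (.node (.node .leaf (nat_lit 13328457750294790) (.br (nat_lit 4) (.cons (.br (nat_lit 6) (.cons (.rel (nat_lit 19327361025)) .nil)) .nil)) .leaf) (nat_lit 13328457751070982) (.br (nat_lit 4) (.cons (.br (nat_lit 5) (.cons (.rel (nat_lit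 6442452240)) .nil)) .nil)) (.node .leaf (nat_lit 13328457751111942) (.br (nat_lit 4) (.cons (.br (nat_lit 2) (.cons (.rel (nat_lit 1140859200)) (.cons (.rel (nat_lit 1140998208)) (.cons (.rel (nat_lit 1140859200)) .nil)))) .nil)) .leaf)))

/-- refutations 94 -/
def e94 : EX := (.node .leaf (nat_lit 11998363703052550) (.br (nat_lit 0) (.cons (.br (nat_lit 1) (.cons (.rel (nat_lit 21104640)) .nil)) .nil)) .leaf)

/-- list of the parts -/
def L0 : List (ℕ × List ℕ) := [(nat_lit 0x10, [Nat.sub (Nat.pow 2 939) (Nat.pow 2 0), Nat.sub (Nat.pow 2 1564) (Nat.pow 2 939), Nat.sub (Nat.pow 2 3136) (Nat.pow 2 1564)]),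
  (nat_lit 0x40, [Nat.sub (Nat.pow 2 804) (Nat.pow 2 0), Nat.sub (Nat.pow 2 3136) (Nat.pow 2 804)]),
  (nat_lit 0x400, [Nat.sub (Nat.pow 2 891) (Nat.pow 2 0), Nat.sub (Nat.pow 2 3136) (Nat.pow 2 891)]),
  (nat_lit 0x800, [cP]),
  (nat_lit 0x20000000, [Nat.sub (Nat.pow 2 1285) (Nat.pow 2 0), Nat.sub (Nat.pow 2 3136) (Nat.pow 2 1285)]),
  (nat_lit 0x40000000, [Nat.sub (Nat.pow 2 884) (Nat.pow 2 0), Nat.sub (Nat.pow 2 3136) (Nat.pow 2 884)]),
  (nat_lit 0x8000000000, [Nat.sub (Nat.pow 2 804) (Nat.pow 2 0), Nat.sub (Nat.pow 2 1304) (Nat.pow 2 804), Nat.sub (Nat.pow 2 1409) (Nat.pow 2 1304), Nat.sub (Nat.pow 2 3136) (Nat.pow 2 1409)]),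
  (nat_lit 0x10000010000, [cP]),
  (nat_lit 0x40000000000000, [Nat.sub (Nat.pow 2 179) (Nat.pow 2 0), Nat.sub (Nat.pow 2 784) (Nat.pow 2 179), Nat.sub (Nat.pow 2 1304) (Nat.pow 2 784), Nat.sub (Nat.pow 2 1566) (Nat.pow 2 1304), Nat.sub (Nat.pow 2 3136) (Nat.pow 2 1566)]),
  (nat_lit 0x20000000000, [cP]),
  (nat_lit 0x800000000000000, [Nat.sub (Nat.pow 2 890) (Nat.pow 2 0), Nat.sub (Nat.pow 2 3136) (Nat.pow 2 890)]),
  (nat_lit 0x80000000000000, [cP]),
  (nat_lit 0x20000000000000000, [Nat.sub (Nat.pow 2 1255) (Nat.pow 2 0), Nat.sub (Nat.pow 2 1554) (Nat.pow 2 1255), Nat.sub (Nat.pow 2 3136) (Nat.pow 2 1554)]),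
  (nat_lit 0x1000000000000000, [cP]),
  (nat_lit 0x200000000000000000000000000000000, [Nat.sub (Nat.pow 2 934) (Nat.pow 2 0), Nat.sub (Nat.pow 2 3136) (Nat.pow 2 934)]),
  (nat_lit 0x4000000000000000000000000000000000, [Nat.sub (Nat.pow 2 1304) (Nat.pow 2 0), Nat.sub (Nat.pow 2 3136) (Nat.pow 2 1304)]),
  (nat_lit 0x40000000000000000, [cP]),
  (nat_lit 0x400000000000000000000000000000000000000, [Nat.sub (Nat.pow 2 880) (Nat.pow 2 0), Nat.sub (Nat.pow 2 3136) (Nat.pow 2 880)]),
  (nat_lit 0x80000000000000000000000000000000000, [cP]),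
  (nat_lit 0x1000000000000000000000000000000000000000, [cP]),
  (nat_lit 0x10000000000000000000000000000000000000000, [cP]),
  (nat_lit 0x100000000000000000000000000000000000000000, [Nat.sub (Nat.pow 2 1304) (Nat.pow 2 0), Nat.sub (Nat.pow 2 1534) (Nat.pow 2 1304), Nat.sub (Nat.pow 2 3136) (Nat.pow 2 1534)]),
  (nat_lit 0x20000000000000000000000000000000000000000, [cP]),
  (nat_lit 0x4000000000000000000000000000000000000000000000000000000000000000, [Nat.sub (Nat.pow 2 791) (Nat.pow 2 0), Nat.sub (Nat.pow 2 1386) (Nat.pow 2 791), Nat.sub (Nat.pow 2 3136) (Nat.pow 2 1386)]),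
  (nat_lit 0x80000000000000000000000000000000000000000000000000000000000000000, [Nat.sub (Nat.pow 2 1285) (Nat.pow 2 0), Nat.sub (Nat.pow 2 3136) (Nat.pow 2 1285)]),
  (nat_lit 0x200000000000000000000000000000000000000000000000000000000000000000, [Nat.sub (Nat.pow 2 880) (Nat.pow 2 0), Nat.sub (Nat.pow 2 3136) (Nat.pow 2 880)]),
  (nat_lit 0x10000000000000000020000000000000000000000000000000000000000000000, [cP]),
  (nat_lit 0x20000000000000000000000000000000000000000000000000000000000000000000000, [Nat.sub (Nat.pow 2 915) (Nat.pow 2 0), Nat.sub (Nat.pow 2 3136) (Nat.pow 2 915)]),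
  (nat_lit 0x1000000000000000000000000000000000000000000000000000000000000000000, [cP]),
  (nat_lit 0x200000000000000000000000000000000000000000000000000000000000000000000000, [Nat.sub (Nat.pow 2 791) (Nat.pow 2 0), Nat.sub (Nat.pow 2 3136) (Nat.pow 2 791)]),
  (nat_lit 0x2000000000000000000000000000000000000000000000000000000000000000000000000, [Nat.sub (Nat.pow 2 1304) (Nat.pow 2 0), Nat.sub (Nat.pow 2 1565) (Nat.pow 2 1304), Nat.sub (Nat.pow 2 3136) (Nat.pow 2 1565)]),
  (nat_lit 0x20000000000000000000000000000000000000000000000000000000000000000000000000000, [Nat.sub (Nat.pow 2 660) (Nat.pow 2 0), Nat.sub (Nat.pow 2 3136) (Nat.pow 2 660)]),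
  (nat_lit 0x200000000000000000000000000000000000000000000000000000000000000000000000000000, [Nat.sub (Nat.pow 2 1304) (Nat.pow 2 0), Nat.sub (Nat.pow 2 1565) (Nat.pow 2 1304), Nat.sub (Nat.pow 2 3136) (Nat.pow 2 1565)]),
  (nat_lit 0x500000000000000000000000000000000000000000000000000000000000000000000000, [cP]),
  (nat_lit 0x10000000000000000000000000000000000000000000000000000000000000000000000000000000, [Nat.sub (Nat.pow 2 884) (Nat.pow 2 0), Nat.sub (Nat.pow 2 3136) (Nat.pow 2 884)]),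
  (nat_lit 0x20000000000000000000000000000000000000000000000000000000000000000000000000000000000000000000000000000000000000000000000000000000000000000000000000000000000000, [Nat.sub (Nat.pow 2 309) (Nat.pow 2 0), Nat.sub (Nat.pow 2 1304) (Nat.pow 2 309), Nat.sub (Nat.pow 2 1565) (Nat.pow 2 1304), Nat.sub (Nat.pow 2 3136) (Nat.pow 2 1565)]),
  (nat_lit 0x800000000000000000000000000000000000000000000000000000000000000000000000000000008000000000000000000000000000000000000000000000000000000000000000000000000000000, [cP]),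
  (nat_lit 0x40000000000000000000000000000000000000000000000000000000000000000000000000000000000000000000000000000000000000000000000000000000000000000000000000000000000000000000, [Nat.sub (Nat.pow 2 629) (Nat.pow 2 0), Nat.sub (Nat.pow 2 3136) (Nat.pow 2 629)]),
  (nat_lit 0x800000000000000000000000000000000000000000000000000000000000000000000000000000000000000000000000000000000000000000000000000000000000000000000000000000000000000000000, [Nat.sub (Nat.pow 2 786) (Nat.pow 2 0), Nat.sub (Nat.pow 2 3136) (Nat.pow 2 786)]),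
  (nat_lit 0x1000000000000000000000000000000000000000000000000000000000000000000000000000000000000000000000000000000000000000000000000000000000000000000000000000000000000000, [cP]),
  (nat_lit 0x2000000000000000000000000000000000000000000000000000000000000000000000000000000000000000000000000000000000000000000000000000000000000000000000000000000000000000000000, [Nat.sub (Nat.pow 2 786) (Nat.pow 2 0), Nat.sub (Nat.pow 2 3136) (Nat.pow 2 786)]),
  (nat_lit 0x10000000000000000000000000000000000000000000000000000000000000000000000000000000000000000000000000000000000000000000000000000000000000000000000000000000000000000000000, [Nat.sub (Nat.pow 2 764) (Nat.pow 2 0), Nat.sub (Nat.pow 2 3136) (Nat.pow 2 764)]),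
  (nat_lit 0x20000000000000000000000000000000000000000000000000000000000000000000000000000000000000000000000000000000000000000000000000000000000000000000000000000000000000000000000, [Nat.sub (Nat.pow 2 640) (Nat.pow 2 0), Nat.sub (Nat.pow 2 3136) (Nat.pow 2 640)]),
  (nat_lit 0x2000000000000000000000000000000000000000000000000000000000000000000000000000000000000000000000000000000000000000000000000000000000000000000000000000000000000000000000000000, [Nat.sub (Nat.pow 2 815) (Nat.pow 2 0), Nat.sub (Nat.pow 2 3136) (Nat.pow 2 815)]),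
  (nat_lit 0x100041000000000000000000000000000000000000000000000000000000000000000000000000000000000000000000000000000000000000000000000000000000000000000000000000000000000000000000000, [cP]),
  (nat_lit 0x80000000000000000000000000000000000000000000000000000000000000000000000000000000000000000000000000000000000000000000000000000000000000000000000000000000000000000000000000000, [Nat.sub (Nat.pow 2 1304) (Nat.pow 2 0), Nat.sub (Nat.pow 2 3136) (Nat.pow 2 1304)]),
  (nat_lit 0x8000000000000000000000000000000000000000000000000000000000000000000000000000000000000000000000000000000000000000000000000000000000000000000000000000000000000000000000000000000000000000000000, [Nat.sub (Nat.pow 2 1261) (Nat.pow 2 0), Nat.sub (Nat.pow 2 3136) (Nat.pow 2 1261)]),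
  (nat_lit 0x20000000000000000000000000000000000000000000000000000000000000000000000000000000000000000000000000000000000000000000000000000000000000000000000000000000000000000000000000000000000000000000000, [Nat.sub (Nat.pow 2 666) (Nat.pow 2 0), Nat.sub (Nat.pow 2 940) (Nat.pow 2 666), Nat.sub (Nat.pow 2 3136) (Nat.pow 2 940)]),
  (nat_lit 0x4000000000000000000000000000000000000000000000000000000000000000000000000000000000000000000000000000000000000000000000000000000000000000000000000000000000000000000000000000, [cP])]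

theorem hp0 : ∀ p ∈ L0, ∀ D2 ∈ p.2, ∃ e,
    search ext94 (Pool.Agent.H74.EGZ.vio sb) G Uc A0 p.1 D2 e = true :=
  (List.forall_mem_cons.2 ⟨(List.forall_mem_cons.2 ⟨⟨e0, by decide +kernel⟩,
  (List.forall_mem_cons.2 ⟨⟨e1, by decide +kernel⟩,
  (List.forall_mem_singleton.2 ⟨e2, by decide +kernel⟩)⟩)⟩),
  (List.forall_mem_cons.2 ⟨(List.forall_mem_cons.2 ⟨⟨e3, by decide +kernel⟩,
  (List.forall_mem_singleton.2 ⟨e4, by decide +kernel⟩)⟩),
  (List.forall_mem_cons.2 ⟨(List.forall_mem_cons.2 ⟨⟨.leaf, by decide +kernel⟩,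
  (List.forall_mem_singleton.2 ⟨.leaf, by decide +kernel⟩)⟩),
  (List.forall_mem_cons.2 ⟨(List.forall_mem_singleton.2 ⟨.leaf, by decide +kernel⟩),
  (List.forall_mem_cons.2 ⟨(List.forall_mem_cons.2 ⟨⟨e8, by decide +kernel⟩,
  (List.forall_mem_singleton.2 ⟨e9, by decide +kernel⟩)⟩),
  (List.forall_mem_cons.2 ⟨(List.forall_mem_cons.2 ⟨⟨e10, by decide +kernel⟩,
  (List.forall_mem_singleton.2 ⟨.leaf, by decide +kernel⟩)⟩),
  (List.forall_mem_cons.2 ⟨(List.forall_mem_cons.2 ⟨⟨e12, by decide +kernel⟩,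
  (List.forall_mem_cons.2 ⟨⟨e13, by decide +kernel⟩,
  (List.forall_mem_cons.2 ⟨⟨e14, by decide +kernel⟩,
  (List.forall_mem_singleton.2 ⟨e15, by decide +kernel⟩)⟩)⟩)⟩),
  (List.forall_mem_cons.2 ⟨(List.forall_mem_singleton.2 ⟨e16, by decide +kernel⟩),
  (List.forall_mem_cons.2 ⟨(List.forall_mem_cons.2 ⟨⟨e17, by decide +kernel⟩,
  (List.forall_mem_cons.2 ⟨⟨e18, by decide +kernel⟩,
  (List.forall_mem_cons.2 ⟨⟨e19, by decide +kernel⟩,
  (List.forall_mem_cons.2 ⟨⟨e20, by decide +kernel⟩,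
  (List.forall_mem_singleton.2 ⟨e21, by decide +kernel⟩)⟩)⟩)⟩)⟩),
  (List.forall_mem_cons.2 ⟨(List.forall_mem_singleton.2 ⟨e22, by decide +kernel⟩),
  (List.forall_mem_cons.2 ⟨(List.forall_mem_cons.2 ⟨⟨e23, by decide +kernel⟩,
  (List.forall_mem_singleton.2 ⟨e24, by decide +kernel⟩)⟩),
  (List.forall_mem_cons.2 ⟨(List.forall_mem_singleton.2 ⟨e25, by decide +kernel⟩),
  (List.forall_mem_cons.2 ⟨(List.forall_mem_cons.2 ⟨⟨.leaf, by decide +kernel⟩,
  (List.forall_mem_cons.2 ⟨⟨e27, by decide +kernel⟩,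
  (List.forall_mem_singleton.2 ⟨.leaf, by decide +kernel⟩)⟩)⟩),
  (List.forall_mem_cons.2 ⟨(List.forall_mem_singleton.2 ⟨e29, by decide +kernel⟩),
  (List.forall_mem_cons.2 ⟨(List.forall_mem_cons.2 ⟨⟨e30, by decide +kernel⟩,
  (List.forall_mem_singleton.2 ⟨e31, by decide +kernel⟩)⟩),
  (List.forall_mem_cons.2 ⟨(List.forall_mem_cons.2 ⟨⟨e32, by decide +kernel⟩,
  (List.forall_mem_singleton.2 ⟨e33, by decide +kernel⟩)⟩),
  (List.forall_mem_cons.2 ⟨(List.forall_mem_singleton.2 ⟨e34, by decide +kernel⟩),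
  (List.forall_mem_cons.2 ⟨(List.forall_mem_cons.2 ⟨⟨e35, by decide +kernel⟩,
  (List.forall_mem_singleton.2 ⟨e36, by decide +kernel⟩)⟩),
  (List.forall_mem_cons.2 ⟨(List.forall_mem_singleton.2 ⟨e37, by decide +kernel⟩),
  (List.forall_mem_cons.2 ⟨(List.forall_mem_singleton.2 ⟨e38, by decide +kernel⟩),
  (List.forall_mem_cons.2 ⟨(List.forall_mem_singleton.2 ⟨e39, by decide +kernel⟩),
  (List.forall_mem_cons.2 ⟨(List.forall_mem_cons.2 ⟨⟨e40, by decide +kernel⟩,
  (List.forall_mem_cons.2 ⟨⟨e41, by decide +kernel⟩,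
  (List.forall_mem_singleton.2 ⟨.leaf, by decide +kernel⟩)⟩)⟩),
  (List.forall_mem_cons.2 ⟨(List.forall_mem_singleton.2 ⟨.leaf, by decide +kernel⟩),
  (List.forall_mem_cons.2 ⟨(List.forall_mem_cons.2 ⟨⟨e44, by decide +kernel⟩,
  (List.forall_mem_cons.2 ⟨⟨e45, by decide +kernel⟩,
  (List.forall_mem_singleton.2 ⟨e46, by decide +kernel⟩)⟩)⟩),
  (List.forall_mem_cons.2 ⟨(List.forall_mem_cons.2 ⟨⟨e47, by decide +kernel⟩,
  (List.forall_mem_singleton.2 ⟨e48, by decide +kernel⟩)⟩),
  (List.forall_mem_cons.2 ⟨(List.forall_mem_cons.2 ⟨⟨e49, by decide +kernel⟩,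
  (List.forall_mem_singleton.2 ⟨e50, by decide +kernel⟩)⟩),
  (List.forall_mem_cons.2 ⟨(List.forall_mem_singleton.2 ⟨e51, by decide +kernel⟩),
  (List.forall_mem_cons.2 ⟨(List.forall_mem_cons.2 ⟨⟨e52, by decide +kernel⟩,
  (List.forall_mem_singleton.2 ⟨e53, by decide +kernel⟩)⟩),
  (List.forall_mem_cons.2 ⟨(List.forall_mem_singleton.2 ⟨e54, by decide +kernel⟩),
  (List.forall_mem_cons.2 ⟨(List.forall_mem_cons.2 ⟨⟨e55, by decide +kernel⟩,
  (List.forall_mem_singleton.2 ⟨e56, by decide +kernel⟩)⟩),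
  (List.forall_mem_cons.2 ⟨(List.forall_mem_cons.2 ⟨⟨e57, by decide +kernel⟩,
  (List.forall_mem_cons.2 ⟨⟨e58, by decide +kernel⟩,
  (List.forall_mem_singleton.2 ⟨.leaf, by decide +kernel⟩)⟩)⟩),
  (List.forall_mem_cons.2 ⟨(List.forall_mem_cons.2 ⟨⟨e60, by decide +kernel⟩,
  (List.forall_mem_singleton.2 ⟨e61, by decide +kernel⟩)⟩),
  (List.forall_mem_cons.2 ⟨(List.forall_mem_cons.2 ⟨⟨e62, by decide +kernel⟩,
  (List.forall_mem_cons.2 ⟨⟨e63, by decide +kernel⟩,
  (List.forall_mem_singleton.2 ⟨.leaf, by decide +kernel⟩)⟩)⟩),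
  (List.forall_mem_cons.2 ⟨(List.forall_mem_singleton.2 ⟨e65, by decide +kernel⟩),
  (List.forall_mem_cons.2 ⟨(List.forall_mem_cons.2 ⟨⟨e66, by decide +kernel⟩,
  (List.forall_mem_singleton.2 ⟨e67, by decide +kernel⟩)⟩),
  (List.forall_mem_cons.2 ⟨(List.forall_mem_cons.2 ⟨⟨e68, by decide +kernel⟩,
  (List.forall_mem_cons.2 ⟨⟨e69, by decide +kernel⟩,
  (List.forall_mem_cons.2 ⟨⟨e70, by decide +kernel⟩,
  (List.forall_mem_singleton.2 ⟨.leaf, by decide +kernel⟩)⟩)⟩)⟩),
  (List.forall_mem_cons.2 ⟨(List.forall_mem_singleton.2 ⟨e72, by decide +kernel⟩),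
  (List.forall_mem_cons.2 ⟨(List.forall_mem_cons.2 ⟨⟨e73, by decide +kernel⟩,
  (List.forall_mem_singleton.2 ⟨e74, by decide +kernel⟩)⟩),
  (List.forall_mem_cons.2 ⟨(List.forall_mem_cons.2 ⟨⟨.leaf, by decide +kernel⟩,
  (List.forall_mem_singleton.2 ⟨e76, by decide +kernel⟩)⟩),
  (List.forall_mem_cons.2 ⟨(List.forall_mem_singleton.2 ⟨.leaf, by decide +kernel⟩),
  (List.forall_mem_cons.2 ⟨(List.forall_mem_cons.2 ⟨⟨e78, by decide +kernel⟩,
  (List.forall_mem_singleton.2 ⟨e79, by decide +kernel⟩)⟩),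
  (List.forall_mem_cons.2 ⟨(List.forall_mem_cons.2 ⟨⟨e80, by decide +kernel⟩,
  (List.forall_mem_singleton.2 ⟨e81, by decide +kernel⟩)⟩),
  (List.forall_mem_cons.2 ⟨(List.forall_mem_cons.2 ⟨⟨e82, by decide +kernel⟩,
  (List.forall_mem_singleton.2 ⟨e83, by decide +kernel⟩)⟩),
  (List.forall_mem_cons.2 ⟨(List.forall_mem_cons.2 ⟨⟨e84, by decide +kernel⟩,
  (List.forall_mem_singleton.2 ⟨e85, by decide +kernel⟩)⟩),
  (List.forall_mem_cons.2 ⟨(List.forall_mem_singleton.2 ⟨e86, by decide +kernel⟩),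
  (List.forall_mem_cons.2 ⟨(List.forall_mem_cons.2 ⟨⟨e87, by decide +kernel⟩,
  (List.forall_mem_singleton.2 ⟨e88, by decide +kernel⟩)⟩),
  (List.forall_mem_cons.2 ⟨(List.forall_mem_cons.2 ⟨⟨e89, by decide +kernel⟩,
  (List.forall_mem_singleton.2 ⟨e90, by decide +kernel⟩)⟩),
  (List.forall_mem_cons.2 ⟨(List.forall_mem_cons.2 ⟨⟨e91, by decide +kernel⟩,
  (List.forall_mem_cons.2 ⟨⟨e92, by decide +kernel⟩,
  (List.forall_mem_singleton.2 ⟨e93, by decide +kernel⟩)⟩)⟩),
  (List.forall_mem_singleton.2 (List.forall_mem_singleton.2 ⟨e94, by decide +kernel⟩))⟩)⟩)⟩)⟩)⟩)⟩)⟩)⟩)⟩)⟩)⟩)⟩)⟩)⟩)⟩)⟩)⟩)⟩)⟩)⟩)⟩)⟩)⟩)⟩)⟩)⟩)⟩)⟩)⟩)⟩)⟩)⟩)⟩)⟩)⟩)⟩)⟩)⟩)⟩)⟩)⟩)⟩)⟩)⟩)⟩)⟩)⟩)⟩)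

end

end Pool.Agent.H21.EGZ.S8
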