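import Pool.Agent.H21.EGZ.D8

/-!
# Stage 8 : search, part 1
-/

set_option autoImplicit false
set_option maxRecDepth 100000

namespace Pool.Agent.H21.EGZ.S8

noncomputable section

open Pool.Agent.H74.EGZ Pool.Agent.H94.Lift

/-- refutations 95 -/
def e95 : EX := (.node (.node (.node .leaf (nat_lit 13388736016678420) (.br (nat_lit 0) (.cons (.br (nat_lit 1) (.cons (.rel (nat_lit 20980737)) .nil)) .nil)) .leaf) (nat_lit 13394181930346796) (.br (nat_lit 1) (.cons (.br (nat_lit 4) (.cons (.rel (nat_lit 1090786368)) .nil)) .nil)) (.node .leaf (nat_lit 13394181930451244) (.br (nat_lit 1) (.cons (.br (nat_lit 2) (.cons (.rel (nat_lit 83890452)) .nil)) .nil)) .leaf)) (nat_lit 13394187959969799) (.br (nat_lit 0) (.cons (.br (nat_lit 1) (.cons (.rel (nat_lit 20975877)) .nil)) .nil)) (.node (.node .leaf (nat_lit 13394419331913735) (.br (nat_lit 0) (.cons (.br (nat_lit 1) (.cons (.rel (nat_lit 20976912)) .nil)) .nil)) .leaf) (nat_lit 13394419887192864) (.br (nat_lit 3) (.cons (.br (nat_lit 5) (.cons (.rel (nat_lit 4565762304))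 .nil)) .nil)) (.node .leaf (nat_lit 13394419888734343) (.br (nat_lit 1) (.cons (.br (nat_lit 2) (.cons (.rel (nat_lit 83895312)) .nil)) .nil)) .leaf)))

/-- refutations 96 -/
def e96 : EX := (.node .leaf (nat_lit 13395279400909456) (.br (nat_lit 0) (.cons (.br (nat_lit 2) (.cons (.rel (nat_lit 75502080)) .nil)) .nil)) .leaf)

/-- refutations 97 -/
def e97 : EX := (.node (.node (.node (.node (.node .leaf (nat_lit 13669618736813464) (.br (nat_lit 2) (.cons (.br (nat_lit 3) (.cons (.rel (nat_lit 335675496)) .nil)) .nil)) .leaf) (nat_lit 13669618737766662) (.br (nat_lit 0) (.cons (.br (nat_lit 5) (.cons (.rel (nat_lit 4300242948)) .nil)) .nil)) (.node .leaf (nat_lit 13669618737767276) (.br (nat_lit 0) (.cons (.br (nat_lit 1) (.cons (.rel (nat_lit 21104640)) .nil)) .nil)) .leaf)) (nat_lit 13669621855462628) (.br (nat_lit 0) (.cons (.br (nat_lit 1) (.cons (.rel (nat_lit 20988192)) .nil)) .nil)) (.node (.node .leaf (nat_lit 13669623679944966) (.br (nat_lit 2) (.cons (.br (nat_lit 3) (.cons (.rel (nat_lit 336740352)) .nil))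 .nil)) .leaf) (nat_lit 13669623950063878) (.br (nat_lit 1) (.cons (.br (nat_lit 4) (.cons (.rel (nat_lit 1090525440)) .nil)) .nil)) .leaf)) (nat_lit 13669623950333336) (.br (nat_lit 0) (.cons (.br (nat_lit 2) (.cons (.rel (nat_lit 71303256)) .nil)) .nil)) (.node (.node (.node .leaf (nat_lit 13669623951245574) (.br (nat_lit 2) (.cons (.br (nat_lit 4) (.cons (.rel (nat_lit 1140998208)) .nil)) .nil)) .leaf) (nat_lit 13669623952574726) (.br (nat_lit 1) (.cons (.br (nat_lit 2) (.cons (.rel (nat_lit 100663620)) .nil)) .nil)) (.node .leaf (nat_lit 13669623952575969) (.br (nat_lit 1) (.cons (.br (nat_lit 4) (.cons (.rel (nat_lit 2181042180)) .nil)) .nil)) .leaf)) (nat_lit 13669624064738056) (.br (nat_lit 0) (.cons (.br (nat_lit 2) (.cons (.rel (nat_lit 138559488)) .nil)) .nil)) (.node (.node .leaf (nat_lit 13670202298707357) (.br (nat_lit 0) (.cons (.br (nat_lit 1) (.cons (.rel (nat_lit 20988192)) .nil)) .nil)) .leaf) (nat_lit 13670202299936257) (.br (nat_lit 1) (.cons (.br (nat_lit 6) (.cons (.rel (nat_lit 17198743632)) .nil))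 .nil)) .leaf))) (nat_lit 13670202866107144) (.br (nat_lit 2) (.cons (.br (nat_lit 3) (.cons (.rel (nat_lit 336740352)) (.cons (.rel (nat_lit 335561025)) .nil))) .nil)) (.node (.node (.node (.node .leaf (nat_lit 13670205551544582) (.br (nat_lit 2) (.cons (.br (nat_lit 5) (.cons (.rel (nat_lit 8725225536)) .nil)) .nil)) .leaf) (nat_lit 13670523319321352) (.br (nat_lit 4) (.cons (.br (nat_lit 3) (.cons (.rel (nat_lit 1342210128)) (.cons (.rel (nat_lit 1342198848)) .nil))) .nil)) (.node .leaf (nat_lit 13670523320404230) (.br (nat_lit 2) (.cons (.br (nat_lit 4) (.cons (.rel (nat_lit 1140851784)) .nil)) .nil)) .leaf)) (nat_lit 13670523532071688) (.br (nat_lit 2) (.cons (.br (nat_lit 4) (.cons (.rel (nat_lit 1141900548)) .nil)) .nil)) (.node (.node .leaf (nat_lit 13670523534313734) (.br (nat_lit 3) (.cons (.br (nat_lit 2) (.cons (.rel (nat_lit 671351808)) (.cons (.rel (nat_lit 402784257)) .nil))) .nil)) .leaf) (nat_lit 13670525893464840) (.br (nat_lit 1) (.cons (.br (nat_lit 2) (.cons (.rel (nat_lit 83920896)) .nil)) .nil))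 .leaf)) (nat_lit 13670525895747846) (.br (nat_lit 3) (.cons (.br (nat_lit 4) (.cons (.rel (nat_lit 1342701585)) .nil)) .nil)) (.node (.node (.node .leaf (nat_lit 13670692479795976) (.br (nat_lit 2) (.cons (.br (nat_lit 3) (.cons (.rel (nat_lit 603996177)) (.cons (.rel (nat_lit 603981072)) .nil))) .nil)) .leaf) (nat_lit 13670695094175871) (.br (nat_lit 0) (.cons (.br (nat_lit 1) (.cons (.rel (nat_lit 20988192)) .nil)) .nil)) .leaf) (nat_lit 13670738172543752) (.br (nat_lit 0) (.cons (.br (nat_lit 3) (.cons (.rel (nat_lit 273154056)) .nil)) .nil)) (.node (.node .leaf (nat_lit 13671361942588829) (.br (nat_lit 0) (.cons (.br (nat_lit 1) (.cons (.rel (nat_lit 25690176)) .nil)) .nil)) .leaf) (nat_lit 13671367836958073) (.br (nat_lit 1) (.cons (.br (nat_lit 3) (.cons (.rel (nat_lit 285280272)) .nil)) .nil)) .leaf))))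

/-- refutations 98 -/
def e98 : EX := (.node (.node (.node (.node (.node (.node .leaf (nat_lit 13671705536943582) (.br (nat_lit 0) (.cons (.br (nat_lit 1) (.cons (.rel (nat_lit 21004296)) .nil)) .nil)) .leaf) (nat_lit 13671709207276957) (.br (nat_lit 0) (.cons (.br (nat_lit 4) (.cons (.rel (nat_lit 1077940800)) .nil)) .nil)) .leaf) (nat_lit 13671709208307719) (.br (nat_lit 0) (.cons (.br (nat_lit 1) (.cons (.rel (nat_lit 22020240)) .nil)) .nil)) (.node (.node .leaf (nat_lit 13676003673753727) (.br (nat_lit 1) (.cons (.br (nat_lit 4) (.cons (.rel (nat_lit 1090650144)) .nil)) .nil)) .leaf) (nat_lit 13676003911500552) (.br (nat_lit 6) (.cons (.br (nat_lit 1) (.cons (.rel (nat_lit 17196712992)) (.cons (.rel (nat_lit 17196909633)) .nil))) .nil)) .leaf)) (nat_lit 13676004175741704) (.br (nat_lit 3) (.cons (.br (nat_lit 5) (.cons (.rel (nat_lit 4831838721)) (.cons (.rel (nat_lit 4563550272)) .nil))) .nil)) (.node (.node (.node .leaf (nat_lit 13676004176863532) (.br (nat_lit 0) (.cons (.br (nat_lit 5) (.cons (.rel (nat_lit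 4299165765)) .nil)) .nil)) .leaf) (nat_lit 13676004177071505) (.br (nat_lit 0) (.cons (.br (nat_lit 1) (.cons (.rel (nat_lit 20988192)) .nil)) .nil)) .leaf) (nat_lit 13676006271613190) (.br (nat_lit 2) (.cons (.br (nat_lit 3) (.cons (.rel (nat_lit 335552580)) .nil)) .nil)) (.node (.node .leaf (nat_lit 13676006271614329) (.br (nat_lit 3) (.cons (.br (nat_lit 4) (.cons (.rel (nat_lit 1342198848)) .nil)) .nil)) .leaf) (nat_lit 13676006271723782) (.br (nat_lit 1) (.cons (.br (nat_lit 3) (.cons (.rel (nat_lit 285280272)) .nil)) .nil)) .leaf))) (nat_lit 13676006271734536) (.br (nat_lit 2) (.cons (.br (nat_lit 4) (.cons (.rel (nat_lit 1140998208)) .nil)) .nil)) (.node (.node (.node (.node .leaf (nat_lit 13676006271735192) (.br (nat_lit 2) (.cons (.br (nat_lit 4) (.cons (.rel (nat_lit 1207980288)) (.cons (.br (nat_lit 1) (.cons (.rel (nat_lit 2181103632)) (.cons (.rel (nat_lit 1090540545)) (.cons (.rel (nat_lit 1090527240)) .nil)))) .nil))) .nil)) .leaf) (nat_lit 13676006272893055) (.br (nat_lit 1) (.cons (.br (nat_lit 3) (.cons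 (.rel (nat_lit 285360384)) .nil)) .nil)) .leaf) (nat_lit 13676006272893704) (.br (nat_lit 3) (.cons (.br (nat_lit 4) (.cons (.rel (nat_lit 1342193988)) (.cons (.rel (nat_lit 1610613000)) .nil))) (.cons (.br (nat_lit 4) (.cons (.rel (nat_lit 1342210128)) (.cons (.rel (nat_lit 1343242752)) .nil))) .nil))) (.node (.node .leaf (nat_lit 13676006272952582) (.br (nat_lit 0) (.cons (.br (nat_lit 1) (.cons (.rel (nat_lit 21004296)) .nil)) .nil)) .leaf) (nat_lit 13676006272993542) (.br (nat_lit 2) (.cons (.br (nat_lit 6) (.cons (.rel (nat_lit 17247061056)) (.cons (.rel (nat_lit 17246982465)) .nil))) (.cons (.br (nat_lit 1) (.cons (.rel (nat_lit 83906592)) (.cons (.rel (nat_lit 83894277)) (.cons (.rel (nat_lit 83890452)) .nil)))) .nil))) .leaf)) (nat_lit 13676006272993931) (.br (nat_lit 1) (.cons (.br (nat_lit 2) (.cons (.rel (nat_lit 83895312)) .nil)) .nil)) (.node (.node (.node .leaf (nat_lit 13676006273935622) (.br (nat_lit 4) (.cons (.br (nat_lit 3) (.cons (.rel (nat_lit 1342701585)) (.cons (.rel (nat_lit 2415939585)) .nil)))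 .nil)) .leaf) (nat_lit 13676006273976582) (.br (nat_lit 2) (.cons (.br (nat_lit 5) (.cons (.rel (nat_lit 4362633216)) (.cons (.rel (nat_lit 4362077505)) (.cons (.rel (nat_lit 8724430848)) (.cons (.rel (nat_lit 4362080340)) .nil))))) (.cons (.br (nat_lit 5) (.cons (.rel (nat_lit 4362077505)) (.cons (.rel (nat_lit 4363132929)) (.cons (.rel (nat_lit 4362633216)) (.cons (.rel (nat_lit 4362092610)) .nil))))) .nil))) .leaf) (nat_lit 13676006274222207) (.br (nat_lit 2) (.cons (.br (nat_lit 3) (.cons (.rel (nat_lit 335806848)) (.cons (.rel (nat_lit 603984897)) .nil))) (.cons (.br (nat_lit 3) (.cons (.rel (nat_lit 335552580)) (.cons (.br (nat_lit 5) (.cons (.rel (nat_lit 4831846416)) (.cons (.rel (nat_lit 4563550272)) (.cons (.rel (nat_lit 4831846416)) .nil)))) .nil))) .nil))) (.node (.node .leaf (nat_lit 13676006274498567) (.br (nat_lit 2) (.cons (.br (nat_lit 3) (.cons (.rel (nat_lit 402673668)) (.cons (.rel (nat_lit 336740352)) .nil))) (.cons (.br (nat_lit 4) (.cons (.rel (nat_lit 2214678528)) (.cons (.rel (nat_lit 1140998208))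 .nil))) .nil))) .leaf) (nat_lit 13676006384662583) (.br (nat_lit 3) (.cons (.br (nat_lit 4) (.cons (.rel (nat_lit 1343225892)) .nil)) .nil)) .leaf)))) (nat_lit 13676006384981400) (.br (nat_lit 4) (.cons (.br (nat_lit 2) (.cons (.rel (nat_lit 1140850785)) (.cons (.rel (nat_lit 1141905408)) (.cons (.rel (nat_lit 2214633984)) .nil)))) .nil)) (.node (.node (.node (.node (.node .leaf (nat_lit 13676006385934598) (.br (nat_lit 3) (.cons (.br (nat_lit 6) (.cons (.rel (nat_lit 17716742160)) .nil)) .nil)) .leaf) (nat_lit 13676006386139912) (.br (nat_lit 3) (.cons (.br (nat_lit 4) (.cons (.rel (nat_lit 1342193988)) (.cons (.rel (nat_lit 1610613000)) (.cons (.rel (nat_lit 1342701585)) (.cons (.rel (nat_lit 1342210128)) (.cons (.rel (nat_lit 1342210128)) (.cons (.rel (nat_lit 1342259265)) (.cons (.rel (nat_lit 1610629140)) .nil)))))))) (.cons (.br (nat_lit 6) (.cons (.rel (nat_lit 17716742160)) (.cons (.rel (nat_lit 17716776960)) (.cons (.br (nat_lit 1) (.cons (.rel (nat_lit 285280272)) (.cons (.rel (nat_lit 285280272)) (.cons (.rel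 (nat_lit 17481990144)) (.cons (.br (nat_lit 2) (.cons (.br (nat_lit 4) (.cons (.rel (nat_lit 1342210128)) (.cons (.rel (nat_lit 1343242752)) (.cons (.rel (nat_lit 2415935760)) (.cons (.rel (nat_lit 1342210128)) (.cons (.rel (nat_lit 18254659602)) (.cons (.br (nat_lit 5) (.cons (.rel (nat_lit 4564517889)) (.cons (.rel (nat_lit 4563402849)) (.cons (.rel (nat_lit 4563411264)) (.cons (.rel (nat_lit 25769809920)) (.cons (.rel (nat_lit 4563402849)) (.cons (.rel (nat_lit 8657043972)) (.cons (.rel (nat_lit 6442467345)) .nil)))))))) (.cons (.rel (nat_lit 1343242752)) .nil)))))))) (.cons (.rel (nat_lit 402784257)) (.cons (.rel (nat_lit 336592929)) (.cons (.rel (nat_lit 83920896)) .nil))))) .nil))))) .nil)))) .nil))) .leaf) (nat_lit 13676006386198790) (.br (nat_lit 4) (.cons (.br (nat_lit 6) (.cons (.rel (nat_lit 18254135304)) .nil)) .nil)) (.node (.node .leaf (nat_lit 13676006386239743) (.br (nat_lit 0) (.cons (.br (nat_lit 1) (.cons (.rel (nat_lit 20980737)) .nil)) .nil)) .leaf) (nat_lit 13676006386239750) (.br (nat_lit 2) (.cons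 (.br (nat_lit 6) (.cons (.rel (nat_lit 17248028673)) .nil)) .nil)) .leaf)) (nat_lit 13676006387222790) (.br (nat_lit 2) (.cons (.br (nat_lit 3) (.cons (.rel (nat_lit 336070656)) (.cons (.rel (nat_lit 336070656)) .nil))) .nil)) (.node (.node (.node .leaf (nat_lit 13676006387224033) (.br (nat_lit 2) (.cons (.br (nat_lit 4) (.cons (.rel (nat_lit 1141900548)) .nil)) .nil)) .leaf) (nat_lit 13676006387224065) (.br (nat_lit 1) (.cons (.br (nat_lit 2) (.cons (.rel (nat_lit 83902722)) .nil)) .nil)) .leaf) (nat_lit 13676006387230982) (.br (nat_lit 3) (.cons (.br (nat_lit 6) (.cons (.rel (nat_lit 17448308808)) .nil)) .nil)) (.node (.node .leaf (nat_lit 13676006404000006) (.br (nat_lit 0) (.cons (.br (nat_lit 1) (.cons (.rel (nat_lit 20980737)) (.cons (.rel (nat_lit 21037329)) (.cons (.rel (nat_lit 21037329)) .nil)))) .nil)) .leaf) (nat_lit 13676100874391814) (.br (nat_lit 1) (.cons (.br (nat_lit 3) (.cons (.rel (nat_lit 285212961)) .nil)) .nil)) .leaf))) (nat_lit 13676100876495099) (.br (nat_lit 0) (.cons (.br (nat_lit 1) (.cons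 (.rel (nat_lit 20976912)) .nil)) .nil)) (.node (.node (.node (.node .leaf (nat_lit 13676659739794913) (.br (nat_lit 1) (.cons (.br (nat_lit 2) (.cons (.rel (nat_lit 83895312)) .nil)) .nil)) .leaf) (nat_lit 13676694118861062) (.br (nat_lit 0) (.cons (.br (nat_lit 1) (.cons (.rel (nat_lit 38805504)) (.cons (.rel (nat_lit 37765185)) .nil))) .nil)) .leaf) (nat_lit 13676694232099067) (.br (nat_lit 1) (.cons (.br (nat_lit 4) (.cons (.rel (nat_lit 1090600962)) .nil)) .nil)) (.node (.node .leaf (nat_lit 13676699695043992) (.br (nat_lit 1) (.cons (.br (nat_lit 0) (.cons (.rel (nat_lit 20992017)) (.cons (.rel (nat_lit 41959428)) .nil))) .nil)) .leaf) (nat_lit 13676953988219791) (.br (nat_lit 1) (.cons (.br (nat_lit 0) (.cons (.rel (nat_lit 41959428)) (.cons (.rel (nat_lit 20992017)) (.cons (.rel (nat_lit 37750080)) .nil)))) .nil)) .leaf)) (nat_lit 13677165914063624) (.br (nat_lit 0) (.cons (.br (nat_lit 2) (.cons (.rel (nat_lit 71336256)) .nil)) .nil)) (.node (.node (.node .leaf (nat_lit 13677165915146502) (.br (nat_lit 3) (.cons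 (.br (nat_lit 2) (.cons (.rel (nat_lit 335545920)) (.cons (.rel (nat_lit 335552580)) (.cons (.rel (nat_lit 402673668)) .nil)))) (.cons (.br (nat_lit 5) (.cons (.rel (nat_lit 4563550272)) (.cons (.rel (nat_lit 4563992592)) (.cons (.rel (nat_lit 4564467717)) .nil)))) .nil))) .leaf) (nat_lit 13677165915668487) (.br (nat_lit 1) (.cons (.br (nat_lit 3) (.cons (.rel (nat_lit 285280272)) .nil)) .nil)) .leaf) (nat_lit 13677166678509830) (.br (nat_lit 1) (.cons (.br (nat_lit 3) (.cons (.rel (nat_lit 570429696)) .nil)) .nil)) (.node .leaf (nat_lit 13679969056591086) (.br (nat_lit 4) (.cons (.br (nat_lit 0) (.cons (.rel (nat_lit 1077936210)) (.cons (.rel (nat_lit 2151714816)) .nil))) .nil)) .leaf)))))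

/-- refutations 99 -/
def e99 : EX := (.node (.node (.node (.node (.node (.node .leaf (nat_lit 13680089313430934) (.br (nat_lit 1) (.cons (.br (nat_lit 4) (.cons (.rel (nat_lit 2181042180)) .nil)) .nil)) .leaf) (nat_lit 13680089313616552) (.br (nat_lit 0) (.cons (.br (nat_lit 1) (.cons (.rel (nat_lit 21004296)) .nil)) .nil)) .leaf) (nat_lit 13680089314345871) (.br (nat_lit 3) (.cons (.br (nat_lit 5) (.cons (.rel (nat_lit 4563550272)) (.cons (.rel (nat_lit 4563402849)) .nil))) (.cons (.br (nat_lit 5) (.cons (.rel (nat_lit 4831872000)) (.cons (.rel (nat_lit 8858374176)) .nil))) .nil))) (.node .leaf (nat_lit 13680089314394999) (.br (nat_lit 1) (.cons (.br (nat_lit 5) (.cons (.rel (nat_lit 8623489041)) (.cons (.rel (nat_lit 8606712192)) (.cons (.rel (nat_lit 4311744546)) .nil)))) .nil)) .leaf)) (nat_lit 13680089316124151) (.br (nat_lit 1) (.cons (.br (nat_lit 2) (.cons (.rel (nat_lit 83902722)) .nil)) .nil)) (.node (.node (.node .leaf (nat_lit 13680092506456840) (.br (nat_lit 4) (.cons (.br (nat_lit 6) (.cons (.rel (nat_lit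 18254661636)) (.cons (.rel (nat_lit 18254659602)) .nil))) .nil)) .leaf) (nat_lit 13680092607120136) (.br (nat_lit 1) (.cons (.br (nat_lit 6) (.cons (.rel (nat_lit 17196909633)) .nil)) .nil)) .leaf) (nat_lit 13680092720366344) (.br (nat_lit 4) (.cons (.br (nat_lit 6) (.cons (.rel (nat_lit 18254659602)) .nil)) .nil)) (.node .leaf (nat_lit 13680093029207543) (.br (nat_lit 0) (.cons (.br (nat_lit 2) (.cons (.rel (nat_lit 138412065)) .nil)) .nil)) .leaf))) (nat_lit 13680295474607630) (.br (nat_lit 1) (.cons (.br (nat_lit 2) (.cons (.rel (nat_lit 83887617)) .nil)) .nil)) (.node (.node (.node (.node .leaf (nat_lit 13680295707902728) (.br (nat_lit 5) (.cons (.br (nat_lit 3) (.cons (.rel (nat_lit 8858370306)) (.cons (.rel (nat_lit 4831838721)) .nil))) .nil)) .leaf) (nat_lit 13680295708985606) (.br (nat_lit 0) (.cons (.br (nat_lit 1) (.cons (.rel (nat_lit 42009600)) (.cons (.rel (nat_lit 20980737)) .nil))) .nil)) .leaf) (nat_lit 13680295709556791) (.br (nat_lit 2) (.cons (.br (nat_lit 3) (.cons (.rel (nat_lit 603984897)) .nil))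 .nil)) (.node .leaf (nat_lit 13680298765550344) (.br (nat_lit 1) (.cons (.br (nat_lit 4) (.cons (.rel (nat_lit 2181042180)) .nil)) .nil)) .leaf)) (nat_lit 13680298766633222) (.br (nat_lit 2) (.cons (.br (nat_lit 4) (.cons (.rel (nat_lit 1207980288)) (.cons (.rel (nat_lit 2214592521)) .nil))) .nil)) (.node (.node (.node .leaf (nat_lit 13680298878796552) (.br (nat_lit 1) (.cons (.br (nat_lit 4) (.cons (.rel (nat_lit 2181038358)) .nil)) .nil)) .leaf) (nat_lit 13680299190719994) (.br (nat_lit 0) (.cons (.br (nat_lit 3) (.cons (.rel (nat_lit 273776640)) .nil)) .nil)) .leaf) (nat_lit 13680300745067382) (.br (nat_lit 0) (.cons (.br (nat_lit 1) (.cons (.rel (nat_lit 21004296)) .nil)) .nil)) (.node .leaf (nat_lit 13680300966348132) (.br (nat_lit 3) (.cons (.br (nat_lit 6) (.cons (.rel (nat_lit 17449362432)) .nil)) .nil)) .leaf)))) (nat_lit 13680300968600932) (.br (nat_lit 3) (.cons (.br (nat_lit 5) (.cons (.rel (nat_lit 4563411264)) .nil)) .nil)) (.node (.node (.node (.node (.node .leaf (nat_lit 13680300968683782) (.br (nat_lit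 2) (.cons (.br (nat_lit 3) (.cons (.rel (nat_lit 671351808)) (.cons (.rel (nat_lit 402784257)) .nil))) .nil)) .leaf) (nat_lit 13680300968839319) (.br (nat_lit 3) (.cons (.br (nat_lit 6) (.cons (.rel (nat_lit 17449419024)) .nil)) .nil)) .leaf) (nat_lit 13680300969104890) (.br (nat_lit 0) (.cons (.br (nat_lit 2) (.cons (.rel (nat_lit 71303256)) .nil)) .nil)) (.node .leaf (nat_lit 13680300969215464) (.br (nat_lit 1) (.cons (.br (nat_lit 2) (.cons (.rel (nat_lit 83890452)) .nil)) .nil)) .leaf)) (nat_lit 13680301238722017) (.br (nat_lit 1) (.cons (.br (nat_lit 2) (.cons (.rel (nat_lit 83920896)) .nil)) .nil)) (.node (.node (.node .leaf (nat_lit 13680301238910329) (.br (nat_lit 1) (.cons (.br (nat_lit 2) (.cons (.rel (nat_lit 83920896)) .nil)) .nil)) .leaf) (nat_lit 13680301239943430) (.br (nat_lit 1) (.cons (.br (nat_lit 4) (.cons (.rel (nat_lit 1090525440)) .nil)) .nil)) .leaf) (nat_lit 13680301239944079) (.br (nat_lit 1) (.cons (.br (nat_lit 2) (.cons (.rel (nat_lit 151322640)) (.cons (.rel (nat_lit 100663620)) .nil)))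 .nil)) (.node .leaf (nat_lit 13680301240044457) (.br (nat_lit 2) (.cons (.br (nat_lit 6) (.cons (.rel (nat_lit 17248059648)) .nil)) .nil)) .leaf))) (nat_lit 13680301240189704) (.br (nat_lit 5) (.cons (.br (nat_lit 1) (.cons (.rel (nat_lit 4311744546)) (.cons (.rel (nat_lit 4329047040)) .nil))) .nil)) (.node (.node (.node (.node .leaf (nat_lit 13680301241272582) (.br (nat_lit 2) (.cons (.br (nat_lit 4) (.cons (.rel (nat_lit 1141440528)) (.cons (.rel (nat_lit 1207980288)) (.cons (.rel (nat_lit 2214592521)) (.cons (.rel (nat_lit 1140850785)) .nil))))) .nil)) .leaf) (nat_lit 13680301241313542) (.br (nat_lit 5) (.cons (.br (nat_lit 2) (.cons (.rel (nat_lit 4362633216)) (.cons (.rel (nat_lit 4429190148)) .nil))) .nil)) .leaf) (nat_lit 13680301889026310) (.br (nat_lit 1) (.cons (.br (nat_lit 2) (.cons (.rel (nat_lit 84018180)) .nil)) .nil)) (.node .leaf (nat_lit 13680301890306824) (.br (nat_lit 2) (.cons (.br (nat_lit 3) (.cons (.rel (nat_lit 335552580)) .nil)) .nil)) .leaf)) (nat_lit 13681197971346184) (.br (nat_lit 0) (.cons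 (.br (nat_lit 2) (.cons (.rel (nat_lit 75502080)) .nil)) .nil)) (.node (.node (.node .leaf (nat_lit 13681203296568072) (.br (nat_lit 4) (.cons (.br (nat_lit 5) (.cons (.rel (nat_lit 6442451205)) (.cons (.rel (nat_lit 5368710468)) (.cons (.rel (nat_lit 5368715328)) (.cons (.rel (nat_lit 6442451205)) (.cons (.rel (nat_lit 5368715328)) .nil)))))) .nil)) .leaf) (nat_lit 13681429896877464) (.br (nat_lit 1) (.cons (.br (nat_lit 4) (.cons (.rel (nat_lit 1090650144)) (.cons (.rel (nat_lit 2181103632)) .nil))) (.cons (.br (nat_lit 4) (.cons (.rel (nat_lit 2181103632)) (.cons (.br (nat_lit 3) (.cons (.rel (nat_lit 285280272)) (.cons (.rel (nat_lit 285315072)) (.cons (.rel (nat_lit 2701132800)) .nil)))) .nil))) .nil))) .leaf) (nat_lit 13681429896877538) (.br (nat_lit 1) (.cons (.br (nat_lit 3) (.cons (.rel (nat_lit 285315072)) .nil)) .nil)) (.node .leaf (nat_lit 13681432636916488) (.br (nat_lit 2) (.cons (.br (nat_lit 4) (.cons (.rel (nat_lit 1140859200)) .nil)) .nil)) .leaf)))))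

/-- refutations 100 -/
def e100 : EX := (.node (.node .leaf (nat_lit 13682100668991750) (.br (nat_lit 2) (.cons (.br (nat_lit 4) (.cons (.rel (nat_lit 1141915653)) .nil)) .nil)) .leaf) (nat_lit 13682104855478327) (.br (nat_lit 1) (.cons (.br (nat_lit 2) (.cons (.rel (nat_lit 84050193)) .nil)) .nil)) .leaf)

/-- refutations 101 -/
def e101 : EX := (.node (.node (.node .leaf (nat_lit 13740799653671849) (.br (nat_lit 1) (.cons (.br (nat_lit 2) (.cons (.rel (nat_lit 83894277)) .nil)) .nil)) .leaf) (nat_lit 13740799654601491) (.br (nat_lit 0) (.cons (.br (nat_lit 1) (.cons (.rel (nat_lit 42009600)) .nil)) .nil)) .leaf) (nat_lit 13742077954168868) (.br (nat_lit 0) (.cons (.br (nat_lit 2) (.cons (.rel (nat_lit 72368160)) .nil)) .nil)) (.node (.node .leaf (nat_lit 13745129181466681) (.br (nat_lit 0) (.cons (.br (nat_lit 3) (.cons (.rel (nat_lit 545260932)) .nil)) .nil)) .leaf) (nat_lit 13746375148177670) (.br (nat_lit 2) (.cons (.br (nat_lit 3) (.cons (.rel (nat_lit 335545920)) .nil)) .nil)) .leaf))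

/-- refutations 102 -/
def e102 : EX := (.node (.node (.node .leaf (nat_lit 13746469654235398) (.br (nat_lit 2) (.cons (.br (nat_lit 3) (.cons (.rel (nat_lit 335561025)) .nil)) .nil)) .leaf) (nat_lit 13747123076458751) (.br (nat_lit 3) (.cons (.br (nat_lit 4) (.cons (.rel (nat_lit 1342198848)) .nil)) .nil)) (.node .leaf (nat_lit 13747123122604294) (.br (nat_lit 1) (.cons (.br (nat_lit 2) (.cons (.rel (nat_lit 83920896)) (.cons (.rel (nat_lit 83887617)) .nil))) .nil)) .leaf)) (nat_lit 13750669488011275) (.br (nat_lit 0) (.cons (.br (nat_lit 1) (.cons (.rel (nat_lit 41959428)) .nil)) .nil)) (.node (.node .leaf (nat_lit 13750670013786374) (.br (nat_lit 0) (.cons (.br (nat_lit 1) (.cons (.rel (nat_lit 20980737)) .nil)) .nil)) .leaf) (nat_lit 13750670014851334) (.br (nat_lit 0) (.cons (.br (nat_lit 1) (.cons (.rel (nat_lit 20975877)) .nil)) .nil)) (.node .leaf (nat_lit 13750670617707276) (.br (nat_lit 0) (.cons (.br (nat_lit 1) (.cons (.rel (nat_lit 20972052)) .nil)) .nil)) .leaf)))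

/-- refutations 104 -/
def e104 : EX := (.node (.node .leaf (nat_lit 13372681324383470) (.br (nat_lit 3) (.cons (.br (nat_lit 4) (.cons (.rel (nat_lit 1342210128)) .nil)) .nil)) .leaf) (nat_lit 13377670030800234) (.br (nat_lit 0) (.cons (.br (nat_lit 1) (.cons (.rel (nat_lit 20988192)) .nil)) .nil)) .leaf)

/-- refutations 105 -/
def e105 : EX := (.node (.node (.node .leaf (nat_lit 14092649886433542) (.br (nat_lit 0) (.cons (.br (nat_lit 3) (.cons (.rel (nat_lit 272634180)) .nil)) .nil)) .leaf) (nat_lit 14092650058091753) (.br (nat_lit 1) (.cons (.br (nat_lit 4) (.cons (.rel (nat_lit 1090535685)) .nil)) .nil)) (.node .leaf (nat_lit 14092856145676550) (.br (nat_lit 1) (.cons (.br (nat_lit 3) (.cons (.rel (nat_lit 285360384)) .nil)) .nil)) .leaf)) (nat_lit 14097139783698694) (.br (nat_lit 3) (.cons (.br (nat_lit 2) (.cons (.rel (nat_lit 671351808)) (.cons (.rel (nat_lit 335552580)) .nil))) .nil)) (.node (.node .leaf (nat_lit 14098307720390918) (.br (nat_lit 0) (.cons (.br (nat_lit 3) (.cons (.rel (nat_lit 272695632))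 .nil)) .nil)) .leaf) (nat_lit 14098307721201926) (.br (nat_lit 2) (.cons (.br (nat_lit 6) (.cons (.rel (nat_lit 17246978640)) .nil)) .nil)) .leaf))

/-- refutations 106 -/
def e106 : EX := (.node (.node (.node (.node .leaf (nat_lit 14098872308533510) (.br (nat_lit 2) (.cons (.br (nat_lit 4) (.cons (.rel (nat_lit 1141379076)) .nil)) .nil)) .leaf) (nat_lit 14099378946443526) (.br (nat_lit 0) (.cons (.br (nat_lit 2) (.cons (.rel (nat_lit 72368160)) .nil)) .nil)) .leaf) (nat_lit 14099379159645720) (.br (nat_lit 1) (.cons (.br (nat_lit 3) (.cons (.rel (nat_lit 286528512)) .nil)) .nil)) (.node (.node .leaf (nat_lit 14099379160312070) (.br (nat_lit 2) (.cons (.br (nat_lit 3) (.cons (.rel (nat_lit 336740352)) .nil)) .nil)) .leaf) (nat_lit 14102507937082279) (.br (nat_lit 0) (.cons (.br (nat_lit 3) (.cons (.rel (nat_lit 272639040)) .nil)) .nil)) .leaf)) (nat_lit 14102507938147110) (.br (nat_lit 0) (.cons (.br (nat_lit 1) (.cons (.rel (nat_lit 20975877)) .nil)) .nil)) (.node (.node (.node .leaf (nat_lit 14102511319721236) (.br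 (nat_lit 0) (.cons (.br (nat_lit 3) (.cons (.rel (nat_lit 276841728)) .nil)) .nil)) .leaf) (nat_lit 14102513819585769) (.br (nat_lit 3) (.cons (.br (nat_lit 4) (.cons (.rel (nat_lit 1342198848)) .nil)) .nil)) .leaf) (nat_lit 14103642364495229) (.br (nat_lit 3) (.cons (.br (nat_lit 6) (.cons (.rel (nat_lit 17716742160)) .nil)) .nil)) (.node .leaf (nat_lit 14104489505052934) (.br (nat_lit 1) (.cons (.br (nat_lit 3) (.cons (.rel (nat_lit 285218820)) .nil)) .nil)) .leaf)))

/-- refutations 107 -/
def e107 : EX := (.node (.node .leaf (nat_lit 13852576488644870) (.br (nat_lit 0) (.cons (.br (nat_lit 2) (.cons (.rel (nat_lit 71336256)) .nil)) .nil)) .leaf) (nat_lit 13856220713839248) (.br (nat_lit 0) (.cons (.br (nat_lit 2) (.cons (.rel (nat_lit 71305281)) .nil)) .nil)) .leaf)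

/-- refutations 108 -/
def e108 : EX := (.node (.node (.node (.node .leaf (nat_lit 14286250045868294) (.br (nat_lit 0) (.cons (.br (nat_lit 2) (.cons (.rel (nat_lit 71827713)) .nil)) .nil)) .leaf) (nat_lit 14287435979122950) (.br (nat_lit 4) (.cons (.br (nat_lit 6) (.cons (.rel (nat_lit 18253615428)) (.cons (.rel (nat_lit 18254135304)) .nil))) .nil)) .leaf) (nat_lit 14287435981170950) (.br (nat_lit 2) (.cons (.br (nat_lit 1) (.cons (.rel (nat_lit 83920896)) (.cons (.rel (nat_lit 83890452)) .nil))) .nil)) (.node .leaf (nat_lit 14290530928691462) (.br (nat_lit 2) (.cons (.br (nat_lit 4) (.cons (.rel (nat_lit 1140998208)) .nil)) .nil)) .leaf)) (nat_lit 14291389332594200) (.br (nat_lit 0) (.cons (.br (nat_lit 1) (.cons (.rel (nat_lit 21104640)) .nil)) .nil)) (.node (.node .leaf (nat_lit 14291389333883142) (.br (nat_lit 1) (.cons (.br (nat_lit 0) (.cons (.rel (nat_lit 37765185)) (.cons (.rel (nat_lit 25690176)) .nil))) .nil)) .leaf) (nat_lit 14291389333965062) (.br (nat_lit 0) (.cons (.br (nat_lit 2) (.cons (.rel (nat_lit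 71336256)) .nil)) .nil)) (.node .leaf (nat_lit 14291389334907142) (.br (nat_lit 4) (.cons (.br (nat_lit 5) (.cons (.rel (nat_lit 5368725573)) .nil)) .nil)) .leaf)))

/-- refutations 109 -/
def e109 : EX := (.node (.node (.node (.node .leaf (nat_lit 14291826771495174) (.br (nat_lit 1) (.cons (.br (nat_lit 2) (.cons (.rel (nat_lit 100679760)) .nil)) .nil)) .leaf) (nat_lit 14292687048452358) (.br (nat_lit 0) (.cons (.br (nat_lit 2) (.cons (.rel (nat_lit 75595776)) .nil)) .nil)) .leaf) (nat_lit 14296023294323950) (.br (nat_lit 0) (.cons (.br (nat_lit 2) (.cons (.rel (nat_lit 71438400)) .nil)) .nil)) (.node (.node .leaf (nat_lit 14296025261451526) (.br (nat_lit 0) (.cons (.br (nat_lit 1) (.cons (.rel (nat_lit 20976912)) (.cons (.rel (nat_lit 21004296)) .nil))) .nil)) .leaf) (nat_lit 14296025783199774) (.br (nat_lit 1) (.cons (.br (nat_lit 2) (.cons (.rel (nat_lit 100668480)) .nil)) .nil)) .leaf)) (nat_lit 14296027249469702) (.br (nat_lit 0) (.cons (.br (nat_lit 5) (.cons (.rel (nat_lit 4299165765)) (.cons (.rel (nat_lit 4300293120))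 .nil))) (.cons (.br (nat_lit 2) (.cons (.br (nat_lit 5) (.cons (.rel (nat_lit 8594137092)) (.cons (.rel (nat_lit 4362077505)) .nil))) (.cons (.rel (nat_lit 138412065)) .nil))) .nil))) (.node (.node (.node .leaf (nat_lit 14296027249510662) (.br (nat_lit 4) (.cons (.br (nat_lit 2) (.cons (.rel (nat_lit 1140850785)) (.cons (.rel (nat_lit 1141965825)) .nil))) .nil)) .leaf) (nat_lit 14296027898644742) (.br (nat_lit 1) (.cons (.br (nat_lit 4) (.cons (.rel (nat_lit 1090527240)) .nil)) .nil)) .leaf) (nat_lit 14296027898810630) (.br (nat_lit 0) (.cons (.br (nat_lit 2) (.cons (.rel (nat_lit 71305281)) .nil)) .nil)) (.node (.node .leaf (nat_lit 14296027899668742) (.br (nat_lit 2) (.cons (.br (nat_lit 4) (.cons (.rel (nat_lit 2214723840)) (.cons (.rel (nat_lit 1208025600)) (.cons (.rel (nat_lit 1141965825)) .nil)))) .nil)) .leaf) (nat_lit 14296028486789382) (.br (nat_lit 0) (.cons (.br (nat_lit 1) (.cons (.rel (nat_lit 38805504)) (.cons (.rel (nat_lit 20980737)) (.cons (.rel (nat_lit 20980737)) .nil)))) .nil)) .leaf)))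

/-- refutations 111 -/
def e111 : EX := (.node (.node .leaf (nat_lit 14275094627485958) (.br (nat_lit 0) (.cons (.br (nat_lit 1) (.cons (.rel (nat_lit 41959428)) .nil)) .nil)) .leaf) (nat_lit 14279135243799463) (.br (nat_lit 0) (.cons (.br (nat_lit 1) (.cons (.rel (nat_lit 20975877)) .nil)) .nil)) .leaf)

/-- refutations 112 -/
def e112 : EX := (.node (.node (.node .leaf (nat_lit 15395398839971172) (.br (nat_lit 1) (.cons (.br (nat_lit 6) (.cons (.br (nat_lit 5) (.cons (.rel (nat_lit 21474836568)) (.cons (.rel (nat_lit 4311746580)) .nil))) .nil)) .nil)) .leaf) (nat_lit 15395402169972188) (.br (nat_lit 0) (.cons (.br (nat_lit 2) (.cons (.rel (nat_lit 71438400)) .nil)) .nil)) (.node .leaf (nat_lit 15399862939446183) (.br (nat_lit 1) (.cons (.br (nat_lit 3) (.cons (.rel (nat_lit 285280272)) .nil)) .nil)) .leaf)) (nat_lit 15399862940470183) (.br (nat_lit 0) (.cons (.br (nat_lit 1) (.cons (.rel (nat_lit 20972052)) .nil)) .nil)) (.node (.node .leaf (nat_lit 15399868935704703) (.br (nat_lit 0) (.cons (.br (nat_lit 1) (.cons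 (.rel (nat_lit 21054468)) .nil)) .nil)) .leaf) (nat_lit 15404340964013313) (.br (nat_lit 1) (.cons (.br (nat_lit 2) (.cons (.rel (nat_lit 83887617)) .nil)) .nil)) (.node .leaf (nat_lit 15406479832970468) (.br (nat_lit 0) (.cons (.br (nat_lit 5) (.cons (.rel (nat_lit 8598650880)) (.cons (.rel (nat_lit 4299227217)) (.cons (.rel (nat_lit 4299165765)) .nil)))) .nil)) .leaf)))

/-- refutations 113 -/
def e113 : EX := (.node (.node (.node (.node (.node .leaf (nat_lit 15569133598751400) (.br (nat_lit 2) (.cons (.br (nat_lit 5) (.cons (.rel (nat_lit 4362092610)) .nil)) .nil)) .leaf) (nat_lit 15569517333969158) (.br (nat_lit 6) (.cons (.br (nat_lit 3) (.cons (.rel (nat_lit 17449362432)) (.cons (.rel (nat_lit 17448307008)) (.cons (.rel (nat_lit 34628174880)) .nil)))) (.cons (.br (nat_lit 3) (.cons (.rel (nat_lit 17448829440)) (.cons (.rel (nat_lit 17448308808)) (.cons (.rel (nat_lit 17448567936)) .nil)))) .nil))) .leaf) (nat_lit 15569519410149638) (.br (nat_lit 3) (.cons (.br (nat_lit 5) (.cons (.rel (nat_lit 4564457472)) .nil))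 .nil)) (.node (.node .leaf (nat_lit 15569519412513448) (.br (nat_lit 0) (.cons (.br (nat_lit 1) (.cons (.rel (nat_lit 20975877)) .nil)) .nil)) .leaf) (nat_lit 15569557620063720) (.br (nat_lit 1) (.cons (.br (nat_lit 3) (.cons (.rel (nat_lit 570429696)) .nil)) .nil)) .leaf)) (nat_lit 15569602709027078) (.br (nat_lit 6) (.cons (.br (nat_lit 0) (.cons (.rel (nat_lit 17184194628)) (.cons (.rel (nat_lit 17184194628)) .nil))) .nil)) (.node (.node (.node .leaf (nat_lit 15569602711390470) (.br (nat_lit 0) (.cons (.br (nat_lit 4) (.cons (.rel (nat_lit 1078988808)) (.cons (.rel (nat_lit 1078465536)) .nil))) .nil)) .leaf) (nat_lit 15569602711431430) (.br (nat_lit 3) (.cons (.br (nat_lit 4) (.cons (.rel (nat_lit 1342832916)) .nil)) .nil)) .leaf) (nat_lit 15569606380698280) (.br (nat_lit 3) (.cons (.br (nat_lit 6) (.cons (.rel (nat_lit 17716742160)) .nil)) .nil)) (.node .leaf (nat_lit 15569606381407470) (.br (nat_lit 0) (.cons (.br (nat_lit 6) (.cons (.rel (nat_lit 17188263168)) .nil)) .nil)) .leaf))) (nat_lit 15570633480206598)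 (.br (nat_lit 6) (.cons (.br (nat_lit 0) (.cons (.rel (nat_lit 34363932936)) (.cons (.rel (nat_lit 34363998213)) .nil))) .nil)) (.node (.node (.node (.node .leaf (nat_lit 15570633483033828) (.br (nat_lit 0) (.cons (.br (nat_lit 1) (.cons (.rel (nat_lit 20980737)) .nil)) .nil)) .leaf) (nat_lit 15570633501178118) (.br (nat_lit 0) (.cons (.br (nat_lit 1) (.cons (.rel (nat_lit 20988192)) (.cons (.rel (nat_lit 21037329)) .nil))) .nil)) .leaf) (nat_lit 15570633503541510) (.br (nat_lit 0) (.cons (.br (nat_lit 3) (.cons (.rel (nat_lit 541130784)) .nil)) .nil)) (.node .leaf (nat_lit 15570633503542510) (.br (nat_lit 4) (.cons (.br (nat_lit 5) (.cons (.rel (nat_lit 6442456065)) .nil)) .nil)) .leaf)) (nat_lit 15570634218512684) (.br (nat_lit 0) (.cons (.br (nat_lit 1) (.cons (.rel (nat_lit 20988192)) .nil)) .nil)) (.node (.node (.node .leaf (nat_lit 15570636101646598) (.br (nat_lit 0) (.cons (.br (nat_lit 3) (.cons (.rel (nat_lit 274990080)) (.cons (.rel (nat_lit 541069332)) (.cons (.rel (nat_lit 273154056)) .nil)))) (.cons (.br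 (nat_lit 6) (.cons (.rel (nat_lit 17188258308)) (.cons (.rel (nat_lit 17188263168)) .nil))) .nil))) .leaf) (nat_lit 15571324032072360) (.br (nat_lit 3) (.cons (.br (nat_lit 2) (.cons (.rel (nat_lit 603996177)) (.cons (.rel (nat_lit 335561025)) .nil))) .nil)) .leaf) (nat_lit 15571449658515732) (.br (nat_lit 0) (.cons (.br (nat_lit 3) (.cons (.rel (nat_lit 272699457)) .nil)) .nil)) (.node .leaf (nat_lit 15571450762847084) (.br (nat_lit 1) (.cons (.br (nat_lit 2) (.cons (.rel (nat_lit 83968008)) .nil)) .nil)) .leaf))))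

/-- refutations 114 -/
def e114 : EX := (.node (.node (.node (.node (.node .leaf (nat_lit 15574553747564806) (.br (nat_lit 0) (.cons (.br (nat_lit 1) (.cons (.rel (nat_lit 20976912)) .nil)) .nil)) .leaf) (nat_lit 15574759503300870) (.br (nat_lit 3) (.cons (.br (nat_lit 4) (.cons (.rel (nat_lit 1342193988)) (.cons (.rel (nat_lit 1342701585)) .nil))) .nil)) (.node .leaf (nat_lit 15574760006617350) (.br (nat_lit 3) (.cons (.br (nat_lit 4) (.cons (.rel (nat_lit 1343299584)) .nil)) .nil)) .leaf)) (nat_lit 15574760006658310) (.br (nat_lit 3) (.cons (.br (nat_lit 4) (.cons (.rel (nat_lit 1342210128)) .nil)) .nil)) (.node (.node .leaf (nat_lit 15574974039332342) (.br (nat_lit 0) (.cons (.br (nat_lit 1) (.cons (.rel (nat_lit 41959428)) .nil)) .nil)) .leaf) (nat_lit 15574974041950470) (.br (nat_lit 0) (.cons (.br (nat_lit 3) (.cons (.rel (nat_lit 545521668)) .nil)) .nil)) (.node .leaf (nat_lit 15575790295451910) (.br (nat_lit 6) (.cons (.br (nat_lit 3) (.cons (.rel (nat_lit 17716822272)) (.cons (.rel (nat_lit 17716822272)) .nil)))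 .nil)) .leaf))) (nat_lit 15575790295655900) (.br (nat_lit 1) (.cons (.br (nat_lit 3) (.cons (.rel (nat_lit 285216786)) .nil)) .nil)) (.node (.node (.node .leaf (nat_lit 15575790796404998) (.br (nat_lit 6) (.cons (.br (nat_lit 0) (.cons (.rel (nat_lit 34363973634)) (.cons (.rel (nat_lit 17184194628)) (.cons (.rel (nat_lit 17184194628)) (.cons (.rel (nat_lit 17185198080)) .nil))))) .nil)) .leaf) (nat_lit 15575790798060200) (.br (nat_lit 3) (.cons (.br (nat_lit 4) (.cons (.br (nat_lit 0) (.cons (.rel (nat_lit 1078987008)) (.cons (.rel (nat_lit 272639040)) .nil))) .nil)) .nil)) (.node .leaf (nat_lit 15575790798768390) (.br (nat_lit 3) (.cons (.br (nat_lit 4) (.cons (.rel (nat_lit 2684764161)) .nil)) .nil)) .leaf)) (nat_lit 15575790798809350) (.br (nat_lit 4) (.cons (.br (nat_lit 3) (.cons (.rel (nat_lit 1342210128)) (.cons (.rel (nat_lit 1342193988)) .nil))) .nil)) (.node (.node .leaf (nat_lit 15576709820398248) (.br (nat_lit 0) (.cons (.br (nat_lit 3) (.cons (.rel (nat_lit 276955152)) .nil)) .nil)) .leaf) (nat_lit 15576710256605864)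 (.br (nat_lit 3) (.cons (.br (nat_lit 0) (.cons (.rel (nat_lit 272634180)) (.cons (.rel (nat_lit 272639040)) .nil))) .nil)) .leaf))) (nat_lit 15576710257314054) (.br (nat_lit 0) (.cons (.br (nat_lit 2) (.cons (.rel (nat_lit 71336256)) .nil)) .nil)) (.node (.node (.node (.node .leaf (nat_lit 15576910295546536) (.br (nat_lit 0) (.cons (.br (nat_lit 3) (.cons (.rel (nat_lit 276841728)) .nil)) .nil)) .leaf) (nat_lit 15576912745728262) (.br (nat_lit 1) (.cons (.br (nat_lit 2) (.cons (.rel (nat_lit 100663620)) .nil)) .nil)) (.node .leaf (nat_lit 15576913267398134) (.br (nat_lit 2) (.cons (.br (nat_lit 3) (.cons (.rel (nat_lit 335552580)) .nil)) .nil)) .leaf)) (nat_lit 15576913269308072) (.br (nat_lit 3) (.cons (.br (nat_lit 6) (.cons (.rel (nat_lit 34896871680)) .nil)) .nil)) (.node (.node .leaf (nat_lit 15576913270016262) (.br (nat_lit 1) (.cons (.br (nat_lit 2) (.cons (.rel (nat_lit 83902722)) .nil)) .nil)) .leaf) (nat_lit 15577118904158470) (.br (nat_lit 0) (.cons (.br (nat_lit 1) (.cons (.rel (nat_lit 41959428)) .nil))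 .nil)) (.node .leaf (nat_lit 15577121502263558) (.br (nat_lit 6) (.cons (.br (nat_lit 2) (.cons (.rel (nat_lit 34426880514)) (.cons (.rel (nat_lit 17247061056)) .nil))) .nil)) .leaf))) (nat_lit 15577121504626950) (.br (nat_lit 3) (.cons (.br (nat_lit 4) (.cons (.rel (nat_lit 1343299584)) .nil)) .nil)) (.node (.node (.node .leaf (nat_lit 15577122571812217) (.br (nat_lit 0) (.cons (.br (nat_lit 1) (.cons (.rel (nat_lit 20988192)) .nil)) .nil)) .leaf) (nat_lit 15577122573465862) (.br (nat_lit 3) (.cons (.br (nat_lit 4) (.cons (.rel (nat_lit 1342244160)) .nil)) .nil)) (.node .leaf (nat_lit 15577122573466280) (.br (nat_lit 4) (.cons (.br (nat_lit 0) (.cons (.rel (nat_lit 2151680016)) (.cons (.rel (nat_lit 2151680016)) (.cons (.rel (nat_lit 1082131488)) .nil)))) .nil)) .leaf)) (nat_lit 15577122574174470) (.br (nat_lit 0) (.cons (.br (nat_lit 3) (.cons (.rel (nat_lit 272634180)) (.cons (.rel (nat_lit 272650320)) .nil))) (.cons (.br (nat_lit 4) (.cons (.rel (nat_lit 1078034496)) (.cons (.rel (nat_lit 1077938244)) .nil))) .nil)))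 (.node (.node .leaf (nat_lit 15577122574175470) (.br (nat_lit 0) (.cons (.br (nat_lit 3) (.cons (.rel (nat_lit 545521668)) .nil)) .nil)) .leaf) (nat_lit 15577122574633222) (.br (nat_lit 0) (.cons (.br (nat_lit 1) (.cons (.rel (nat_lit 22364160)) .nil)) .nil)) .leaf))))

/-- refutations 115 -/
def e115 : EX := (.node (.node (.node (.node .leaf (nat_lit 15580254206949638) (.br (nat_lit 3) (.cons (.br (nat_lit 4) (.cons (.rel (nat_lit 1342316865)) .nil)) .nil)) .leaf) (nat_lit 15580254209509527) (.br (nat_lit 1) (.cons (.br (nat_lit 5) (.cons (.rel (nat_lit 4311744546)) .nil)) .nil)) (.node .leaf (nat_lit 15580255236878617) (.br (nat_lit 1) (.cons (.br (nat_lit 4) (.cons (.rel (nat_lit 1090527240)) .nil)) .nil)) .leaf)) (nat_lit 15580255237488695) (.br (nat_lit 0) (.cons (.br (nat_lit 1) (.cons (.rel (nat_lit 25690176)) .nil)) .nil)) (.node (.node .leaf (nat_lit 15580256828389638) (.br (nat_lit 6) (.cons (.br (nat_lit 0) (.cons (.rel (nat_lit 17184071760)) (.cons (.rel (nat_lit 17184064065)) (.cons (.rel (nat_lit 34363937796))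 .nil)))) (.cons (.br (nat_lit 0) (.cons (.rel (nat_lit 34368407040)) (.cons (.rel (nat_lit 17184064065)) (.cons (.rel (nat_lit 34363932936)) .nil)))) .nil))) .leaf) (nat_lit 15580256829466107) (.br (nat_lit 2) (.cons (.br (nat_lit 3) (.cons (.rel (nat_lit 336740352)) .nil)) .nil)) .leaf)) (nat_lit 15580256831062278) (.br (nat_lit 4) (.cons (.br (nat_lit 0) (.cons (.rel (nat_lit 1078525953)) (.cons (.rel (nat_lit 1077936210)) (.cons (.rel (nat_lit 1082130453)) .nil)))) .nil)) (.node (.node (.node .leaf (nat_lit 15580257562392838) (.br (nat_lit 0) (.cons (.br (nat_lit 6) (.cons (.rel (nat_lit 17188323585)) .nil)) .nil)) .leaf) (nat_lit 15580257563527430) (.br (nat_lit 0) (.cons (.br (nat_lit 3) (.cons (.rel (nat_lit 272695632)) .nil)) .nil)) (.node .leaf (nat_lit 15580257564756230) (.br (nat_lit 3) (.cons (.br (nat_lit 4) (.cons (.rel (nat_lit 1342244160)) .nil)) .nil)) .leaf)) (nat_lit 15580257564757369) (.br (nat_lit 0) (.cons (.br (nat_lit 1) (.cons (.rel (nat_lit 22364160)) .nil)) .nil)) (.node (.node .leaf (nat_lit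 15582488137566470) (.br (nat_lit 2) (.cons (.br (nat_lit 5) (.cons (.rel (nat_lit 4362080340)) .nil)) .nil)) .leaf) (nat_lit 15582488138137655) (.br (nat_lit 0) (.cons (.br (nat_lit 3) (.cons (.rel (nat_lit 272639040)) .nil)) .nil)) .leaf)))

/-- refutations 116 -/
def e116 : EX := (.node (.node (.node (.node (.node .leaf (nat_lit 15429659332438268) (.br (nat_lit 0) (.cons (.br (nat_lit 2) (.cons (.rel (nat_lit 75502080)) .nil)) .nil)) .leaf) (nat_lit 15429659332438892) (.br (nat_lit 0) (.cons (.br (nat_lit 1) (.cons (.rel (nat_lit 21104640)) .nil)) .nil)) .leaf) (nat_lit 15433721786665222) (.br (nat_lit 2) (.cons (.br (nat_lit 3) (.cons (.rel (nat_lit 671106177)) .nil)) .nil)) (.node .leaf (nat_lit 15435225612730630) (.br (nat_lit 3) (.cons (.br (nat_lit 5) (.cons (.rel (nat_lit 8858374176)) .nil)) .nil)) .leaf)) (nat_lit 15435225612880134) (.br (nat_lit 0) (.cons (.br (nat_lit 2) (.cons (.rel (nat_lit 71305281)) .nil)) .nil)) (.node (.node .leaf (nat_lit 15435225612943367) (.br (nat_lit 2) (.cons (.br (nat_lit 3) (.cons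 (.rel (nat_lit 336601344)) .nil)) .nil)) .leaf) (nat_lit 15435878447450374) (.br (nat_lit 4) (.cons (.br (nat_lit 3) (.cons (.rel (nat_lit 1342210128)) (.cons (.rel (nat_lit 1342193988)) .nil))) .nil)) (.node .leaf (nat_lit 15435878447909126) (.br (nat_lit 2) (.cons (.br (nat_lit 4) (.cons (.rel (nat_lit 1141915653)) .nil)) .nil)) .leaf))) (nat_lit 15439517794740231) (.br (nat_lit 0) (.cons (.br (nat_lit 1) (.cons (.rel (nat_lit 42009600)) .nil)) .nil)) (.node (.node (.node .leaf (nat_lit 15439519341168902) (.br (nat_lit 0) (.cons (.br (nat_lit 1) (.cons (.rel (nat_lit 21104640)) .nil)) .nil)) .leaf) (nat_lit 15439519342438407) (.br (nat_lit 0) (.cons (.br (nat_lit 1) (.cons (.br (nat_lit 2) (.cons (.rel (nat_lit 71305281)) (.cons (.rel (nat_lit 83894277)) .nil))) (.cons (.rel (nat_lit 20980737)) .nil))) .nil)) (.node .leaf (nat_lit 15439519990147948) (.br (nat_lit 0) (.cons (.br (nat_lit 5) (.cons (.rel (nat_lit 4299161940)) .nil)) .nil)) .leaf)) (nat_lit 15439519992555527) (.br (nat_lit 2) (.cons (.br (nat_lit 5) (.cons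 (.rel (nat_lit 8657109249)) (.cons (.rel (nat_lit 4429190148)) .nil))) .nil)) (.node (.node .leaf (nat_lit 15439520579717382) (.br (nat_lit 0) (.cons (.br (nat_lit 4) (.cons (.br (nat_lit 1) (.cons (.rel (nat_lit 1090525440)) (.cons (.rel (nat_lit 1090650144)) .nil))) .nil)) .nil)) .leaf) (nat_lit 15439520579758087) (.br (nat_lit 2) (.cons (.br (nat_lit 3) (.cons (.rel (nat_lit 335614032)) (.cons (.rel (nat_lit 402723840)) .nil))) .nil)) (.node .leaf (nat_lit 15440645384932754) (.br (nat_lit 0) (.cons (.br (nat_lit 1) (.cons (.rel (nat_lit 20976912)) .nil)) .nil)) .leaf))))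

/-- refutations 117 -/
def e117 : EX := (.node (.node .leaf (nat_lit 15592572201146630) (.br (nat_lit 0) (.cons (.br (nat_lit 2) (.cons (.rel (nat_lit 139722756)) .nil)) .nil)) .leaf) (nat_lit 15599619276110086) (.br (nat_lit 0) (.cons (.br (nat_lit 1) (.cons (.rel (nat_lit 20988192)) .nil)) .nil)) (.node .leaf (nat_lit 15599619277326598) (.br (nat_lit 0) (.cons (.br (nat_lit 1) (.cons (.rel (nat_lit 20988192)) .nil)) .nil)) .leaf))

/-- refutations 118 -/
def e118 : EX := (.node (.node (.node .leaf (nat_lit 15858090283371928) (.br (nat_lit 1) (.cons (.br (nat_lit 2) (.cons (.rel (nat_lit 83902722)) .nil)) .nil)) .leaf) (nat_lit 15861727298587524) (.br (nat_lit 1) (.cons (.br (nat_lit 5) (.cons (.rel (nat_lit 8623624197)) .nil)) .nil)) (.node .leaf (nat_lit 15861732842373131) (.br (nat_lit 1) (.cons (.br (nat_lit 3) (.cons (.rel (nat_lit 553943040)) .nil)) .nil)) .leaf)) (nat_lit 15861732843457944) (.br (nat_lit 5) (.cons (.br (nat_lit 4) (.cons (.rel (nat_lit 6442451205)) (.cons (.rel (nat_lit 9663742212)) .nil)))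 .nil)) (.node (.node .leaf (nat_lit 15861732943036427) (.br (nat_lit 1) (.cons (.br (nat_lit 3) (.cons (.rel (nat_lit 285212961)) .nil)) .nil)) .leaf) (nat_lit 15861732944121240) (.br (nat_lit 1) (.cons (.br (nat_lit 3) (.cons (.br (nat_lit 4) (.cons (.rel (nat_lit 1342244160)) .nil)) .nil)) .nil)) .leaf))

/-- refutations 119 -/
def e119 : EX := (.node (.node (.node .leaf (nat_lit 16044289473696999) (.br (nat_lit 1) (.cons (.br (nat_lit 3) (.cons (.rel (nat_lit 553943040)) .nil)) .nil)) .leaf) (nat_lit 16049447729942790) (.br (nat_lit 1) (.cons (.br (nat_lit 2) (.cons (.rel (nat_lit 83902722)) .nil)) .nil)) .leaf) (nat_lit 16049447732234367) (.br (nat_lit 0) (.cons (.br (nat_lit 4) (.cons (.rel (nat_lit 1078034496)) .nil)) .nil)) (.node .leaf (nat_lit 16049749029816582) (.br (nat_lit 0) (.cons (.br (nat_lit 4) (.cons (.rel (nat_lit 1077940800)) (.cons (.rel (nat_lit 1078988808)) .nil))) .nil)) .leaf))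

/-- refutations 120 -/
def e120 : EX := (.node (.node (.node (.node .leaf (nat_lit 16050608359065727) (.br (nat_lit 2) (.cons (.br (nat_lit 3) (.cons (.rel (nat_lit 603981072)) .nil)) .nil)) .leaf) (nat_lit 16051699491874275) (.br (nat_lit 1) (.cons (.br (nat_lit 2) (.cons (.rel (nat_lit 83894277)) .nil)) .nil)) (.node .leaf (nat_lit 16051699493616272) (.br (nat_lit 3) (.cons (.br (nat_lit 4) (.cons (.rel (nat_lit 1610634768)) .nil)) .nil)) .leaf)) (nat_lit 16051899104737936) (.br (nat_lit 2) (.cons (.br (nat_lit 0) (.cons (.rel (nat_lit 75502080)) (.cons (.rel (nat_lit 71336256)) .nil))) .nil)) (.node (.node .leaf (nat_lit 16051905438136976) (.br (nat_lit 4) (.cons (.br (nat_lit 0) (.cons (.rel (nat_lit 2151680016)) (.cons (.rel (nat_lit 1078987008)) .nil))) .nil)) .leaf) (nat_lit 16051905438137200) (.br (nat_lit 0) (.cons (.br (nat_lit 3) (.cons (.rel (nat_lit 274731144)) .nil)) .nil)) (.node .leaf (nat_lit 16051905652046704) (.br (nat_lit 0) (.cons (.br (nat_lit 1) (.cons (.rel (nat_lit 25429248)) .nil)) .nil)) .leaf)))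 (nat_lit 16051905652852998) (.br (nat_lit 0) (.cons (.br (nat_lit 2) (.cons (.rel (nat_lit 75502080)) .nil)) .nil)) (.node (.node (.node .leaf (nat_lit 16052111597373702) (.br (nat_lit 2) (.cons (.br (nat_lit 4) (.cons (.rel (nat_lit 1141379076)) (.cons (.rel (nat_lit 1140851784)) .nil))) (.cons (.br (nat_lit 4) (.cons (.rel (nat_lit 1140859200)) (.cons (.rel (nat_lit 1141905408)) .nil))) .nil))) .leaf) (nat_lit 16052111597619327) (.br (nat_lit 2) (.cons (.br (nat_lit 4) (.cons (.rel (nat_lit 1141379076)) (.cons (.rel (nat_lit 1140859200)) .nil))) .nil)) (.node .leaf (nat_lit 16052111597895687) (.br (nat_lit 4) (.cons (.br (nat_lit 2) (.cons (.rel (nat_lit 1140859200)) (.cons (.rel (nat_lit 1140859200)) .nil))) .nil)) .leaf)) (nat_lit 16052111597896942) (.br (nat_lit 1) (.cons (.br (nat_lit 3) (.cons (.rel (nat_lit 285213960)) .nil)) .nil)) (.node (.node .leaf (nat_lit 16056314855406448) (.br (nat_lit 1) (.cons (.br (nat_lit 2) (.cons (.rel (nat_lit 100668480)) .nil)) .nil)) .leaf) (nat_lit 16057431022615184) (.br (nat_lit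 1) (.cons (.br (nat_lit 3) (.cons (.rel (nat_lit 285218820)) .nil)) .nil)) (.node .leaf (nat_lit 16057432092162704) (.br (nat_lit 3) (.cons (.br (nat_lit 4) (.cons (.rel (nat_lit 1342244160)) .nil)) .nil)) .leaf))))

/-- refutations 121 -/
def e121 : EX := (.node (.node .leaf (nat_lit 15878952550140166) (.br (nat_lit 1) (.cons (.br (nat_lit 2) (.cons (.rel (nat_lit 83895312)) .nil)) .nil)) .leaf) (nat_lit 15881300818487947) (.br (nat_lit 1) (.cons (.br (nat_lit 2) (.cons (.rel (nat_lit 83887617)) .nil)) .nil)) (.node .leaf (nat_lit 15881558404056445) (.br (nat_lit 0) (.cons (.br (nat_lit 5) (.cons (.rel (nat_lit 4299161940)) .nil)) .nil)) .leaf))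

/-- refutations 122 -/
def e122 : EX := (.node (.node (.node .leaf (nat_lit 16363095256509703) (.br (nat_lit 1) (.cons (.br (nat_lit 2) (.cons (.rel (nat_lit 83887617)) .nil)) .nil)) .leaf) (nat_lit 16363138203569028) (.br (nat_lit 0) (.cons (.br (nat_lit 3) (.cons (.rel (nat_lit 541069332)) .nil)) .nil)) .leaf) (nat_lit 16363138205616188) (.br (nat_lit 0) (.cons (.br (nat_lit 4) (.cons (.rel (nat_lit 1082131488)) .nil)) .nil)) (.node .leaf (nat_lit 16368300753733762) (.br (nat_lit 2) (.cons (.br (nat_lit 5) (.cons (.rel (nat_lit 4362092610)) .nil)) .nil)) .leaf))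

/-- refutations 123 -/
def e123 : EX := (.node (.node (.node (.node .leaf (nat_lit 16368728185243910) (.br (nat_lit 1) (.cons (.br (nat_lit 2) (.cons (.rel (nat_lit 83902722)) .nil)) .nil)) .leaf) (nat_lit 16371694434782570) (.br (nat_lit 1) (.cons (.br (nat_lit 2) (.cons (.rel (nat_lit 153092352)) .nil)) .nil)) .leaf) (nat_lit 16371694434782740) (.br (nat_lit 1) (.cons (.br (nat_lit 2) (.cons (.rel (nat_lit 83887617)) .nil)) .nil)) (.node .leaf (nat_lit 16371737296374022) (.br (nat_lit 0) (.cons (.br (nat_lit 2) (.cons (.rel (nat_lit 72368160)) .nil)) .nil)) .leaf)) (nat_lit 16371737405425926) (.br (nat_lit 3) (.cons (.br (nat_lit 2) (.cons (.rel (nat_lit 335614032)) (.cons (.rel (nat_lit 603984897)) .nil))) .nil)) (.node (.node (.node .leaf (nat_lit 16371906360420482) (.br (nat_lit 0) (.cons (.br (nat_lit 1) (.cons (.rel (nat_lit 37765185)) .nil)) .nil)) .leaf) (nat_lit 16372639726045446) (.br (nat_lit 2) (.cons (.br (nat_lit 5) (.cons (.rel (nat_lit 4429190148)) (.cons (.rel (nat_lit 4429201428)) .nil))) .nil)) .leaf)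 (nat_lit 16373703823106848) (.br (nat_lit 3) (.cons (.br (nat_lit 4) (.cons (.rel (nat_lit 1342193988)) .nil)) .nil)) (.node .leaf (nat_lit 16373703825164418) (.br (nat_lit 0) (.cons (.br (nat_lit 4) (.cons (.rel (nat_lit 1078987008)) .nil)) .nil)) .leaf)))

/-- refutations 124 -/
def e124 : EX := (.node (.node (.node .leaf (nat_lit 16302665277733140) (.br (nat_lit 1) (.cons (.br (nat_lit 4) (.cons (.rel (nat_lit 1090525440)) .nil)) .nil)) .leaf) (nat_lit 16302670833256710) (.br (nat_lit 0) (.cons (.br (nat_lit 6) (.cons (.rel (nat_lit 17188323585)) .nil)) .nil)) (.node .leaf (nat_lit 16303306488416518) (.br (nat_lit 0) (.cons (.br (nat_lit 4) (.cons (.rel (nat_lit 2151680016)) .nil)) .nil)) .leaf)) (nat_lit 16321366447633010) (.br (nat_lit 0) (.cons (.br (nat_lit 2) (.cons (.rel (nat_lit 72368160)) .nil)) .nil)) (.node (.node .leaf (nat_lit 16321366546470394) (.br (nat_lit 2) (.cons (.br (nat_lit 3) (.cons (.rel (nat_lit 335561025)) .nil)) .nil)) .leaf) (nat_lit 16321366548296306) (.br (nat_lit 2) (.cons (.br (nat_lit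 6) (.cons (.rel (nat_lit 17246982465)) .nil)) .nil)) .leaf))

/-- refutations 125 -/
def e125 : EX := (.node (.node (.node .leaf (nat_lit 21990338411389228) (.br (nat_lit 0) (.cons (.br (nat_lit 1) (.cons (.rel (nat_lit 20972052)) .nil)) .nil)) .leaf) (nat_lit 21990668343810674) (.br (nat_lit 1) (.cons (.br (nat_lit 2) (.cons (.rel (nat_lit 100668480)) .nil)) .nil)) .leaf) (nat_lit 21990668346368300) (.br (nat_lit 3) (.cons (.br (nat_lit 0) (.cons (.rel (nat_lit 272650320)) (.cons (.rel (nat_lit 272650320)) .nil))) .nil)) (.node (.node .leaf (nat_lit 21991544519696684) (.br (nat_lit 1) (.cons (.br (nat_lit 3) (.cons (.rel (nat_lit 285229065)) .nil)) .nil)) .leaf) (nat_lit 21991781913070195) (.br (nat_lit 0) (.cons (.br (nat_lit 4) (.cons (.rel (nat_lit 1078034496)) .nil)) .nil)) .leaf))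

/-- refutations 126 -/
def e126 : EX := (.node (.node (.node (.node .leaf (nat_lit 21995858965340460) (.br (nat_lit 0) (.cons (.br (nat_lit 4) (.cons (.rel (nat_lit 1082131488)) (.cons (.rel (nat_lit 1082131488)) .nil))) (.cons (.br (nat_lit 1) (.cons (.rel (nat_lit 20988192)) (.cons (.rel (nat_lit 25690176)) .nil))) .nil))) .leaf) (nat_lit 21996116662067857) (.br (nat_lit 4) (.cons (.br (nat_lit 6) (.cons (.rel (nat_lit 18253631568)) .nil)) .nil)) .leaf) (nat_lit 21996116663378220) (.br (nat_lit 0) (.cons (.br (nat_lit 5) (.cons (.rel (nat_lit 4303358208)) (.cons (.rel (nat_lit 4299166800)) (.cons (.br (nat_lit 4) (.cons (.rel (nat_lit 1078987008)) (.cons (.rel (nat_lit 5368971396)) (.cons (.rel (nat_lit 2151680016)) (.cons (.rel (nat_lit 1082131488)) (.cons (.rel (nat_lit 1078476816)) .nil)))))) .nil)))) (.cons (.br (nat_lit 3) (.cons (.rel (nat_lit 272639040)) (.cons (.rel (nat_lit 273682944)) (.cons (.rel (nat_lit 272650320)) .nil)))) .nil))) (.node .leaf (nat_lit 21997104503555475) (.br (nat_lit 0) (.cons (.br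 (nat_lit 2) (.cons (.rel (nat_lit 72352020)) .nil)) .nil)) .leaf)) (nat_lit 21997104504834948) (.br (nat_lit 0) (.cons (.br (nat_lit 2) (.cons (.rel (nat_lit 71305281)) .nil)) .nil)) (.node (.node (.node .leaf (nat_lit 21997104505856300) (.br (nat_lit 1) (.cons (.br (nat_lit 3) (.cons (.br (nat_lit 5) (.cons (.rel (nat_lit 4311749136)) (.cons (.rel (nat_lit 4580459520)) (.cons (.rel (nat_lit 4831872000)) (.cons (.br (nat_lit 4) (.cons (.rel (nat_lit 1090525440)) (.cons (.rel (nat_lit 1090797648)) (.cons (.rel (nat_lit 10754211840)) (.cons (.br (nat_lit 0) (.cons (.rel (nat_lit 1082131488)) (.cons (.rel (nat_lit 1078987008)) (.cons (.rel (nat_lit 25690176)) (.cons (.rel (nat_lit 41959428)) (.cons (.rel (nat_lit 289669122)) .nil)))))) .nil))))) (.cons (.rel (nat_lit 4564452612)) (.cons (.rel (nat_lit 8623489041)) (.cons (.rel (nat_lit 4329047040)) (.cons (.rel (nat_lit 4563403848)) (.cons (.rel (nat_lit 4580459520)) .nil)))))))))) (.cons (.rel (nat_lit 302530560)) (.cons (.rel (nat_lit 302530560)) .nil)))) .nil)) .leaf)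 (nat_lit 21997104506064273) (.br (nat_lit 1) (.cons (.br (nat_lit 5) (.cons (.rel (nat_lit 4329047040)) .nil)) .nil)) .leaf) (nat_lit 21998264710620023) (.br (nat_lit 1) (.cons (.br (nat_lit 6) (.cons (.rel (nat_lit 34393309440)) .nil)) .nil)) (.node .leaf (nat_lit 21998269408475763) (.br (nat_lit 0) (.cons (.br (nat_lit 1) (.cons (.rel (nat_lit 38805504)) .nil)) .nil)) .leaf)))

/-- refutations 127 -/
def e127 : EX := (.node (.node (.node (.node (.node .leaf (nat_lit 22001193528631596) (.br (nat_lit 1) (.cons (.br (nat_lit 4) (.cons (.rel (nat_lit 2164523280)) (.cons (.rel (nat_lit 1090551825)) (.cons (.rel (nat_lit 1090525440)) .nil)))) .nil)) .leaf) (nat_lit 22001196462342444) (.br (nat_lit 0) (.cons (.br (nat_lit 1) (.cons (.rel (nat_lit 20976912)) .nil)) .nil)) .leaf) (nat_lit 22001287802673178) (.br (nat_lit 0) (.cons (.br (nat_lit 3) (.cons (.rel (nat_lit 272650320)) .nil)) .nil)) (.node .leaf (nat_lit 22001399471834619) (.br (nat_lit 0) (.cons (.br (nat_lit 1) (.cons (.rel (nat_lit 27267072)) (.cons (.rel (nat_lit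 21237840)) .nil))) .nil)) .leaf)) (nat_lit 22001399471845377) (.br (nat_lit 0) (.cons (.br (nat_lit 2) (.cons (.rel (nat_lit 71336256)) .nil)) .nil)) (.node (.node .leaf (nat_lit 22001399471846257) (.br (nat_lit 1) (.cons (.br (nat_lit 3) (.cons (.rel (nat_lit 285212961)) .nil)) .nil)) .leaf) (nat_lit 22001399473152152) (.br (nat_lit 3) (.cons (.br (nat_lit 4) (.cons (.br (nat_lit 6) (.cons (.rel (nat_lit 18254664192)) .nil)) .nil)) .nil)) (.node .leaf (nat_lit 22001399473152300) (.br (nat_lit 1) (.cons (.br (nat_lit 0) (.cons (.rel (nat_lit 20976912)) (.cons (.rel (nat_lit 42009600)) (.cons (.rel (nat_lit 20972052)) .nil)))) (.cons (.br (nat_lit 6) (.cons (.rel (nat_lit 17196648705)) (.cons (.br (nat_lit 3) (.cons (.br (nat_lit 4) (.cons (.rel (nat_lit 1375733760)) (.cons (.rel (nat_lit 1090525440)) (.cons (.rel (nat_lit 1090525440)) (.cons (.rel (nat_lit 19327434756)) (.cons (.rel (nat_lit 1342244160)) (.cons (.br (nat_lit 0) (.cons (.rel (nat_lit 2151680016)) (.cons (.rel (nat_lit 2151760128)) (.cons (.rel (nat_lit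 1078034496)) .nil)))) .nil))))))) (.cons (.rel (nat_lit 17716822272)) (.cons (.rel (nat_lit 17448829440)) (.cons (.rel (nat_lit 34628174880)) (.cons (.rel (nat_lit 553943040)) (.cons (.br (nat_lit 0) (.cons (.rel (nat_lit 272639040)) (.cons (.rel (nat_lit 273680388)) (.cons (.rel (nat_lit 272695632)) .nil)))) .nil))))))) (.cons (.rel (nat_lit 34393309440)) .nil)))) .nil))) .leaf))) (nat_lit 22001399685701657) (.br (nat_lit 0) (.cons (.br (nat_lit 1) (.cons (.rel (nat_lit 20972052)) .nil)) .nil)) (.node (.node (.node (.node .leaf (nat_lit 22001399685743479) (.br (nat_lit 1) (.cons (.br (nat_lit 3) (.cons (.rel (nat_lit 285280272)) .nil)) .nil)) .leaf) (nat_lit 22001399687061804) (.br (nat_lit 1) (.cons (.br (nat_lit 2) (.cons (.rel (nat_lit 100663620)) (.cons (.rel (nat_lit 83890452)) (.cons (.rel (nat_lit 83920896)) .nil)))) (.cons (.br (nat_lit 3) (.cons (.rel (nat_lit 285360384)) (.cons (.rel (nat_lit 553648257)) (.cons (.rel (nat_lit 285315072)) .nil)))) (.cons (.br (nat_lit 3) (.cons (.rel (nat_lit 570429696)) (.cons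 (.rel (nat_lit 285212961)) (.cons (.rel (nat_lit 285218820)) .nil)))) .nil)))) .leaf) (nat_lit 22001400037089960) (.br (nat_lit 0) (.cons (.br (nat_lit 1) (.cons (.rel (nat_lit 20976912)) .nil)) .nil)) (.node .leaf (nat_lit 22001400038065659) (.br (nat_lit 0) (.cons (.br (nat_lit 1) (.cons (.rel (nat_lit 21054468)) .nil)) .nil)) .leaf)) (nat_lit 22001402639812668) (.br (nat_lit 1) (.cons (.br (nat_lit 3) (.cons (.rel (nat_lit 285213960)) .nil)) .nil)) (.node (.node .leaf (nat_lit 22001402662684004) (.br (nat_lit 0) (.cons (.br (nat_lit 1) (.cons (.rel (nat_lit 20975877)) .nil)) .nil)) .leaf) (nat_lit 22001404735686139) (.br (nat_lit 5) (.cons (.br (nat_lit 6) (.cons (.rel (nat_lit 21474971712)) (.cons (.rel (nat_lit 21474836568)) .nil))) .nil)) (.node .leaf (nat_lit 22001404736965514) (.br (nat_lit 1) (.cons (.br (nat_lit 4) (.cons (.rel (nat_lit 1091568768)) .nil)) .nil)) .leaf))))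

/-- refutations 130 -/
def e130 : EX := (.node .leaf (nat_lit 22189593024006406) (.br (nat_lit 1) (.cons (.br (nat_lit 2) (.cons (.rel (nat_lit 83920896)) .nil)) .nil)) .leaf)

/-- refutations 131 -/
def e131 : EX := (.node (.node .leaf (nat_lit 22190450681412270) (.br (nat_lit 3) (.cons (.br (nat_lit 0) (.cons (.rel (nat_lit 276955152)) (.cons (.rel (nat_lit 272699457)) .nil))) .nil)) .leaf) (nat_lit 22190719039441158) (.br (nat_lit 1) (.cons (.br (nat_lit 2) (.cons (.rel (nat_lit 83955729)) .nil)) .nil)) (.node .leaf (nat_lit 22194711288632177) (.br (nat_lit 1) (.cons (.br (nat_lit 2) (.cons (.rel (nat_lit 167789568)) .nil)) .nil)) .leaf))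

/-- refutations 132 -/
def e132 : EX := (.node (.node .leaf (nat_lit 22194914825622385) (.br (nat_lit 4) (.cons (.br (nat_lit 5) (.cons (.rel (nat_lit 5368725573)) .nil)) .nil)) .leaf) (nat_lit 22196718598978222) (.br (nat_lit 4) (.cons (.br (nat_lit 1) (.cons (.rel (nat_lit 1090535685)) (.cons (.rel (nat_lit 2181042180)) .nil))) .nil)) (.node .leaf (nat_lit 22196718599132047) (.br (nat_lit 0) (.cons (.br (nat_lit 1) (.cons (.rel (nat_lit 20975877)) .nil)) .nil)) .leaf))

/-- refutations 134 -/
def e134 : EX := (.node (.node (.node .leaf (nat_lit 22431159164911878) (.br (nat_lit 2) (.cons (.br (nat_lit 3) (.cons (.rel (nat_lit 336740352)) .nil)) .nil)) .leaf) (nat_lit 22435411266357375) (.br (nat_lit 1) (.cons (.br (nat_lit 2) (.cons (.rel (nat_lit 167789568)) .nil)) .nil)) (.node .leaf (nat_lit 22435411266380038) (.br (nat_lit 2) (.cons (.br (nat_lit 3) (.cons (.rel (nat_lit 603984897)) .nil)) .nil)) .leaf)) (nat_lit 22435712058063123) (.br (nat_lit 0) (.cons (.br (nat_lit 1) (.cons (.rel (nat_lit 20976912)) .nil))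 .nil)) (.node (.node .leaf (nat_lit 22435712059354623) (.br (nat_lit 2) (.cons (.br (nat_lit 3) (.cons (.rel (nat_lit 335552580)) (.cons (.rel (nat_lit 336593928)) .nil))) .nil)) .leaf) (nat_lit 22435712898268648) (.br (nat_lit 3) (.cons (.br (nat_lit 6) (.cons (.rel (nat_lit 17448308808)) (.cons (.rel (nat_lit 17448308808)) .nil))) .nil)) .leaf))

/-- refutations 135 -/
def e135 : EX := (.node (.node (.node .leaf (nat_lit 22435883838343430) (.br (nat_lit 1) (.cons (.br (nat_lit 3) (.cons (.rel (nat_lit 285212961)) .nil)) .nil)) .leaf) (nat_lit 22435884698175750) (.br (nat_lit 6) (.cons (.br (nat_lit 1) (.cons (.rel (nat_lit 17196646680)) (.cons (.rel (nat_lit 17196651540)) .nil))) .nil)) .leaf) (nat_lit 22437602767709445) (.br (nat_lit 0) (.cons (.br (nat_lit 1) (.cons (.rel (nat_lit 20975877)) .nil)) .nil)) (.node (.node .leaf (nat_lit 22440989374899438) (.br (nat_lit 0) (.cons (.br (nat_lit 1) (.cons (.rel (nat_lit 21004296)) .nil)) .nil)) .leaf) (nat_lit 22442106822587745) (.br (nat_lit 0) (.cons (.br (nat_lit 1)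 (.cons (.rel (nat_lit 20976912)) .nil)) .nil)) .leaf))

/-- refutations 136 -/
def e136 : EX := (.node .leaf (nat_lit 22443399821959295) (.br (nat_lit 0) (.cons (.br (nat_lit 3) (.cons (.rel (nat_lit 273154056)) .nil)) .nil)) .leaf)

/-- refutations 137 -/
def e137 : EX := (.node (.node (.node (.node .leaf (nat_lit 22465742743317362) (.br (nat_lit 1) (.cons (.br (nat_lit 2) (.cons (.rel (nat_lit 83906592)) .nil)) .nil)) .leaf) (nat_lit 22466298573752582) (.br (nat_lit 0) (.cons (.br (nat_lit 6) (.cons (.rel (nat_lit 17184194628)) .nil)) .nil)) .leaf) (nat_lit 22467592403230996) (.br (nat_lit 4) (.cons (.br (nat_lit 3) (.cons (.rel (nat_lit 1342210128)) (.cons (.rel (nat_lit 1342198848)) .nil))) .nil)) (.node (.node .leaf (nat_lit 22467626760777117) (.br (nat_lit 0) (.cons (.br (nat_lit 1) (.cons (.rel (nat_lit 20976912)) (.cons (.rel (nat_lit 20988192)) .nil))) .nil)) .leaf) (nat_lit 22467802231736982) (.br (nat_lit 0) (.cons (.br (nat_lit 2) (.cons (.rel (nat_lit 71438400)) .nil)) .nil)) .leaf)) (nat_lit 22471122866348308)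 (.br (nat_lit 0) (.cons (.br (nat_lit 1) (.cons (.rel (nat_lit 20988192)) .nil)) .nil)) (.node (.node (.node .leaf (nat_lit 22471749930878364) (.br (nat_lit 0) (.cons (.br (nat_lit 1) (.cons (.rel (nat_lit 20980737)) .nil)) .nil)) .leaf) (nat_lit 22471755844536582) (.br (nat_lit 2) (.cons (.br (nat_lit 1) (.cons (.rel (nat_lit 83968008)) (.cons (.rel (nat_lit 83920896)) .nil))) .nil)) .leaf) (nat_lit 22471755844618502) (.br (nat_lit 2) (.cons (.br (nat_lit 4) (.cons (.rel (nat_lit 1140851784)) .nil)) .nil)) (.node .leaf (nat_lit 22471755845804064) (.br (nat_lit 1) (.cons (.br (nat_lit 3) (.cons (.rel (nat_lit 285230100)) .nil)) .nil)) .leaf)))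

/-- refutations 138 -/
def e138 : EX := (.node (.node (.node (.node (.node (.node .leaf (nat_lit 22471988264509716) (.br (nat_lit 0) (.cons (.br (nat_lit 4) (.cons (.rel (nat_lit 1078034496)) .nil)) .nil)) .leaf) (nat_lit 22472093529017825) (.br (nat_lit 0) (.cons (.br (nat_lit 1) (.cons (.rel (nat_lit 22020240)) .nil)) .nil)) .leaf) (nat_lit 22472099293932457) (.br (nat_lit 0) (.cons (.br (nat_lit 2) (.cons (.rel (nat_lit 75502080)) .nil)) .nil)) (.node .leaf (nat_lit 22472099295160582) (.br (nat_lit 0) (.cons (.br (nat_lit 6) (.cons (.rel (nat_lit 17184064065)) .nil)) .nil)) .leaf)) (nat_lit 22472099295201542) (.br (nat_lit 2) (.cons (.br (nat_lit 4) (.cons (.rel (nat_lit 1140850785)) (.cons (.rel (nat_lit 1140859200)) .nil))) (.cons (.br (nat_lit 3) (.cons (.rel (nat_lit 335545920)) (.cons (.rel (nat_lit 402735120)) .nil))) .nil))) (.node (.node (.node .leaf (nat_lit 22473047010536354) (.br (nat_lit 1) (.cons (.br (nat_lit 6) (.cons (.rel (nat_lit 17196679680)) .nil)) .nil)) .leaf) (nat_lit 22476182337822996) (.br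 (nat_lit 1) (.cons (.br (nat_lit 2) (.cons (.rel (nat_lit 167789568)) (.cons (.rel (nat_lit 83895312)) (.cons (.rel (nat_lit 83902722)) .nil)))) (.cons (.br (nat_lit 3) (.cons (.br (nat_lit 4) (.cons (.rel (nat_lit 1342244160)) (.cons (.rel (nat_lit 1090525440)) (.cons (.br (nat_lit 2) (.cons (.rel (nat_lit 1141905408)) (.cons (.rel (nat_lit 83902722)) (.cons (.rel (nat_lit 1241776128)) .nil)))) .nil)))) (.cons (.rel (nat_lit 553648257)) (.cons (.rel (nat_lit 285212961)) (.cons (.rel (nat_lit 285212961)) .nil))))) .nil))) .leaf) (nat_lit 22476182550573988) (.br (nat_lit 2) (.cons (.br (nat_lit 3) (.cons (.rel (nat_lit 335545920)) .nil)) .nil)) (.node .leaf (nat_lit 22476182551732500) (.br (nat_lit 1) (.cons (.br (nat_lit 4) (.cons (.rel (nat_lit 1090535685)) (.cons (.rel (nat_lit 2164523280)) .nil))) (.cons (.br (nat_lit 3) (.cons (.rel (nat_lit 553648257)) (.cons (.rel (nat_lit 285280272)) .nil))) .nil))) .leaf))) (nat_lit 22476388493743582) (.br (nat_lit 1) (.cons (.br (nat_lit 4) (.cons (.rel (nat_lit 1090525440))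 .nil)) .nil)) (.node (.node (.node (.node .leaf (nat_lit 22476388493750958) (.br (nat_lit 1) (.cons (.br (nat_lit 3) (.cons (.rel (nat_lit 285360384)) .nil)) .nil)) .leaf) (nat_lit 22476388493751558) (.br (nat_lit 3) (.cons (.br (nat_lit 4) (.cons (.rel (nat_lit 1342198848)) .nil)) .nil)) .leaf) (nat_lit 22476388493814645) (.br (nat_lit 2) (.cons (.br (nat_lit 5) (.cons (.rel (nat_lit 4362080340)) .nil)) .nil)) (.node .leaf (nat_lit 22476388493945484) (.br (nat_lit 4) (.cons (.br (nat_lit 6) (.cons (.rel (nat_lit 18254135304)) .nil)) .nil)) .leaf)) (nat_lit 22476388493945708) (.br (nat_lit 0) (.cons (.br (nat_lit 2) (.cons (.rel (nat_lit 71827713)) .nil)) .nil)) (.node (.node .leaf (nat_lit 22476388494265582) (.br (nat_lit 6) (.cons (.br (nat_lit 3) (.cons (.rel (nat_lit 17716742160)) (.cons (.rel (nat_lit 34628243712)) (.cons (.rel (nat_lit 17448307008)) .nil)))) .nil)) .leaf) (nat_lit 22476388494994790) (.br (nat_lit 1) (.cons (.br (nat_lit 2) (.cons (.rel (nat_lit 83920896)) .nil)) .nil)) (.node .leaf (nat_lit 22476388495045265)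 (.br (nat_lit 2) (.cons (.br (nat_lit 3) (.cons (.rel (nat_lit 336070656)) (.cons (.rel (nat_lit 337903620)) .nil))) .nil)) .leaf)))) (nat_lit 22476388495094692) (.br (nat_lit 2) (.cons (.br (nat_lit 4) (.cons (.br (nat_lit 6) (.cons (.rel (nat_lit 19327357200)) .nil)) .nil)) .nil)) (.node (.node (.node (.node (.node .leaf (nat_lit 22476388495095020) (.br (nat_lit 0) (.cons (.br (nat_lit 6) (.cons (.rel (nat_lit 17189306496)) .nil)) .nil)) .leaf) (nat_lit 22476388495096743) (.br (nat_lit 1) (.cons (.br (nat_lit 2) (.cons (.rel (nat_lit 83920896)) .nil)) .nil)) .leaf) (nat_lit 22476388496253204) (.br (nat_lit 1) (.cons (.br (nat_lit 3) (.cons (.rel (nat_lit 285212961)) .nil)) .nil)) (.node .leaf (nat_lit 22476388496254358) (.br (nat_lit 1) (.cons (.br (nat_lit 3) (.cons (.rel (nat_lit 285221376)) .nil)) .nil)) .leaf)) (nat_lit 22476388496269599) (.br (nat_lit 3) (.cons (.br (nat_lit 6) (.cons (.rel (nat_lit 17448829440)) .nil)) .nil)) (.node (.node .leaf (nat_lit 22476388496269974) (.br (nat_lit 0) (.cons (.br (nat_lit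 2) (.cons (.rel (nat_lit 71438400)) .nil)) .nil)) .leaf) (nat_lit 22476388496313582) (.br (nat_lit 0) (.cons (.br (nat_lit 6) (.cons (.rel (nat_lit 17184097344)) .nil)) .nil)) (.node .leaf (nat_lit 22476388496313747) (.br (nat_lit 1) (.cons (.br (nat_lit 2) (.cons (.rel (nat_lit 83894277)) .nil)) .nil)) .leaf))) (nat_lit 22476388496313822) (.br (nat_lit 0) (.cons (.br (nat_lit 6) (.cons (.rel (nat_lit 17184071760)) .nil)) .nil)) (.node (.node (.node (.node .leaf (nat_lit 22476388496353431) (.br (nat_lit 0) (.cons (.br (nat_lit 4) (.cons (.rel (nat_lit 1082131488)) .nil)) .nil)) .leaf) (nat_lit 22476389049960710) (.br (nat_lit 1) (.cons (.br (nat_lit 3) (.cons (.rel (nat_lit 303104004)) .nil)) .nil)) .leaf) (nat_lit 22476391662952724) (.br (nat_lit 1) (.cons (.br (nat_lit 4) (.cons (.rel (nat_lit 1090540545)) .nil)) .nil)) (.node .leaf (nat_lit 22476391663013342) (.br (nat_lit 0) (.cons (.br (nat_lit 1) (.cons (.rel (nat_lit 20980737)) .nil)) .nil)) .leaf)) (nat_lit 22476392296822816) (.br (nat_lit 2) (.cons (.br (nat_lit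 4) (.cons (.rel (nat_lit 1141379076)) .nil)) .nil)) (.node (.node .leaf (nat_lit 22476394376923287) (.br (nat_lit 0) (.cons (.br (nat_lit 2) (.cons (.rel (nat_lit 138420480)) .nil)) .nil)) .leaf) (nat_lit 22476394900955412) (.br (nat_lit 3) (.cons (.br (nat_lit 6) (.cons (.rel (nat_lit 17716822272)) (.cons (.rel (nat_lit 34896871680)) .nil))) .nil)) (.node .leaf (nat_lit 22478642309701792) (.br (nat_lit 0) (.cons (.br (nat_lit 1) (.cons (.rel (nat_lit 41945361)) .nil)) .nil)) .leaf)))))

/-- refutations 139 -/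
def e139 : EX := (.node (.node (.node .leaf (nat_lit 22535806124086503) (.br (nat_lit 2) (.cons (.br (nat_lit 4) (.cons (.rel (nat_lit 2214592521)) (.cons (.rel (nat_lit 1142949504)) .nil))) (.cons (.br (nat_lit 4) (.cons (.rel (nat_lit 1141916688)) (.cons (.rel (nat_lit 1140998208)) .nil))) .nil))) .leaf) (nat_lit 22535806125386983) (.br (nat_lit 0) (.cons (.br (nat_lit 4) (.cons (.rel (nat_lit 2151680016)) (.cons (.rel (nat_lit 1078988808)) .nil))) (.cons (.br (nat_lit 4) (.cons (.rel (nat_lit 1082130453)) (.cons (.rel (nat_lit 1078476816)) .nil))) .nil))) (.node .leaf (nat_lit 22535806126656743) (.br (nat_lit 3) (.cons (.br (nat_lit 4) (.cons (.rel (nat_lit 1610679312)) .nil)) .nil)) .leaf)) (nat_lit 22541260732551803) (.br (nat_lit 2) (.cons (.br (nat_lit 5) (.cons (.rel (nat_lit 4431282240)) .nil)) .nil)) (.node (.node .leaf (nat_lit 22541260733852283) (.br (nat_lit 2) (.cons (.br (nat_lit 5) (.cons (.rel (nat_lit 4362141792)) .nil)) .nil)) .leaf) (nat_lit 22541260735122043) (.br (nat_lit 2) (.cons (.br (nat_lit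 5) (.cons (.rel (nat_lit 8658092160)) .nil)) .nil)) .leaf))

/-- refutations 140 -/
def e140 : EX := (.node (.node .leaf (nat_lit 22543419052605727) (.br (nat_lit 0) (.cons (.br (nat_lit 1) (.cons (.rel (nat_lit 41959428)) .nil)) .nil)) .leaf) (nat_lit 22546757269810427) (.br (nat_lit 1) (.cons (.br (nat_lit 6) (.cons (.rel (nat_lit 17196679680)) .nil)) .nil)) (.node .leaf (nat_lit 22546757269892347) (.br (nat_lit 1) (.cons (.br (nat_lit 2) (.cons (.rel (nat_lit 83951904)) .nil)) .nil)) .leaf))

/-- refutations 141 -/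
def e141 : EX := (.node (.node .leaf (nat_lit 22607036062107910) (.br (nat_lit 0) (.cons (.br (nat_lit 1) (.cons (.rel (nat_lit 37750080)) .nil)) .nil)) .leaf) (nat_lit 22607038304011040) (.br (nat_lit 2) (.cons (.br (nat_lit 3) (.cons (.rel (nat_lit 671351808)) .nil)) .nil)) (.node .leaf (nat_lit 22607038306263302) (.br (nat_lit 3) (.cons (.br (nat_lit 4) (.cons (.rel (nat_lit 2415939585)) .nil)) .nil)) .leaf))

/-- refutations 142 -/
def e142 : EX := (.node (.node (.node .leaf (nat_lit 22612660288184600) (.br (nat_lit 2) (.cons (.br (nat_lit 5) (.cons (.rel (nat_lit 4363129104)) .nil)) .nil)) .leaf) (nat_lit 22612660313350424) (.br (nat_lit 0) (.cons (.br (nat_lit 3) (.cons (.rel (nat_lit 276955152)) .nil)) .nil)) (.node .leaf (nat_lit 22612662467985433) (.br (nat_lit 0) (.cons (.br (nat_lit 3) (.cons (.rel (nat_lit 272639040)) .nil)) .nil)) .leaf)) (nat_lit 22612662469222680) (.br (nat_lit 4) (.cons (.br (nat_lit 0) (.cons (.rel (nat_lit 1078476816)) (.cons (.rel (nat_lit 1077936210)) .nil))) .nil)) (.node (.node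 .leaf (nat_lit 22612665014184198) (.br (nat_lit 1) (.cons (.br (nat_lit 2) (.cons (.rel (nat_lit 83968008)) .nil)) .nil)) .leaf) (nat_lit 22612665015165208) (.br (nat_lit 3) (.cons (.br (nat_lit 4) (.cons (.rel (nat_lit 1342244160)) .nil)) .nil)) (.node .leaf (nat_lit 22612925766699270) (.br (nat_lit 1) (.cons (.br (nat_lit 3) (.cons (.rel (nat_lit 285315072)) .nil)) .nil)) .leaf)))

/-- refutations 143 -/
def e143 : EX := (.node (.node (.node .leaf (nat_lit 22617127054172440) (.br (nat_lit 3) (.cons (.br (nat_lit 4) (.cons (.rel (nat_lit 1342193988)) .nil)) .nil)) .leaf) (nat_lit 22617127054256755) (.br (nat_lit 1) (.cons (.br (nat_lit 4) (.cons (.rel (nat_lit 1090535685)) .nil)) .nil)) (.node .leaf (nat_lit 22617127079338264) (.br (nat_lit 3) (.cons (.br (nat_lit 5) (.cons (.rel (nat_lit 4831872000)) .nil)) .nil)) .leaf)) (nat_lit 22617129235210520) (.br (nat_lit 1) (.cons (.br (nat_lit 4) (.cons (.rel (nat_lit 2164523280)) .nil)) .nil)) (.node (.node .leaf (nat_lit 22617129235807495) (.br (nat_lit 3) (.cons (.br (nat_lit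 4) (.cons (.rel (nat_lit 1342198848)) .nil)) .nil)) .leaf) (nat_lit 22617131477156640) (.br (nat_lit 2) (.cons (.br (nat_lit 4) (.cons (.rel (nat_lit 1140850785)) .nil)) .nil)) .leaf))

/-- refutations 144 -/
def e144 : EX := (.node .leaf (nat_lit 22619319668531480) (.br (nat_lit 4) (.cons (.br (nat_lit 3) (.cons (.rel (nat_lit 1342198848)) (.cons (.rel (nat_lit 1342210128)) .nil))) .nil)) .leaf)

/-- refutations 145 -/
def e145 : EX := (.node (.node (.node (.node .leaf (nat_lit 22887952219103484) (.br (nat_lit 3) (.cons (.br (nat_lit 2) (.cons (.rel (nat_lit 671351808)) (.cons (.rel (nat_lit 335552580)) .nil))) .nil)) .leaf) (nat_lit 22889839226047270) (.br (nat_lit 1) (.cons (.br (nat_lit 2) (.cons (.rel (nat_lit 167789568)) .nil)) .nil)) .leaf) (nat_lit 22889839227031009) (.br (nat_lit 0) (.cons (.br (nat_lit 1) (.cons (.rel (nat_lit 21104640)) .nil)) .nil)) (.node .leaf (nat_lit 22889845253262118) (.br (nat_lit 1) (.cons (.br (nat_lit 0) (.cons (.rel (nat_lit 20976912)) (.cons (.rel (nat_lit 21037329)) .nil))) .nil))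 .leaf)) (nat_lit 22893326741528828) (.br (nat_lit 3) (.cons (.br (nat_lit 6) (.cons (.rel (nat_lit 17449419024)) (.cons (.rel (nat_lit 17448829440)) .nil))) .nil)) (.node (.node .leaf (nat_lit 22894406397321468) (.br (nat_lit 0) (.cons (.br (nat_lit 3) (.cons (.rel (nat_lit 272650320)) .nil)) .nil)) .leaf) (nat_lit 22895001778987168) (.br (nat_lit 0) (.cons (.br (nat_lit 1) (.cons (.rel (nat_lit 20976912)) .nil)) .nil)) (.node .leaf (nat_lit 22895001991878168) (.br (nat_lit 0) (.cons (.br (nat_lit 2) (.cons (.rel (nat_lit 75502080)) .nil)) .nil)) .leaf)))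

/-- refutations 146 -/
def e146 : EX := (.node (.node (.node (.node .leaf (nat_lit 22898394800704918) (.br (nat_lit 0) (.cons (.br (nat_lit 2) (.cons (.rel (nat_lit 75595776)) .nil)) .nil)) .leaf) (nat_lit 22898398082883836) (.br (nat_lit 1) (.cons (.br (nat_lit 2) (.cons (.br (nat_lit 4) (.cons (.rel (nat_lit 1140998208)) .nil)) .nil)) .nil)) .leaf) (nat_lit 22898601174205716) (.br (nat_lit 1) (.cons (.br (nat_lit 3) (.cons (.rel (nat_lit 285315072)) .nil)) .nil)) (.node .leaf (nat_lit 22898601175277820) (.br (nat_lit 1) (.cons (.br (nat_lit 4) (.cons (.rel (nat_lit 1090525440)) (.cons (.rel (nat_lit 1090525440)) .nil))) (.cons (.br (nat_lit 3) (.cons (.rel (nat_lit 285315072)) (.cons (.rel (nat_lit 285221376)) .nil))) .nil))) .leaf)) (nat_lit 22898601175484466) (.br (nat_lit 0) (.cons (.br (nat_lit 6) (.cons (.rel (nat_lit 34363932936)) .nil)) .nil)) (.node (.node (.node .leaf (nat_lit 22898604341977340) (.br (nat_lit 0) (.cons (.br (nat_lit 1) (.cons (.rel (nat_lit 20976912)) .nil)) .nil)) .leaf) (nat_lit 22898606875347750)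 (.br (nat_lit 0) (.cons (.br (nat_lit 2) (.cons (.rel (nat_lit 138420480)) .nil)) .nil)) .leaf) (nat_lit 22900751802399371) (.br (nat_lit 0) (.cons (.br (nat_lit 6) (.cons (.rel (nat_lit 17184071760)) .nil)) .nil)) (.node .leaf (nat_lit 22900751802400020) (.br (nat_lit 0) (.cons (.br (nat_lit 3) (.cons (.rel (nat_lit 272639040)) (.cons (.rel (nat_lit 272898180)) .nil))) .nil)) .leaf)))

/-- refutations 148 -/
def e148 : EX := (.node .leaf (nat_lit 22958238806939673) (.br (nat_lit 0) (.cons (.br (nat_lit 1) (.cons (.rel (nat_lit 20988192)) .nil)) .nil)) .leaf)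

/-- refutations 149 -/
def e149 : EX := (.node (.node .leaf (nat_lit 22968969835777426) (.br (nat_lit 0) (.cons (.br (nat_lit 3) (.cons (.rel (nat_lit 272695632)) .nil)) .nil)) .leaf) (nat_lit 22968969965642008) (.br (nat_lit 1) (.cons (.br (nat_lit 3) (.cons (.rel (nat_lit 285212961)) .nil)) .nil)) .leaf)

/-- refutations 151 -/
def e151 : EX := (.node (.node (.node (.node .leaf (nat_lit 23046193783769350) (.br (nat_lit 2) (.cons (.br (nat_lit 5) (.cons (.rel (nat_lit 4362092610)) .nil)) .nil)) .leaf) (nat_lit 23051433287354630) (.br (nat_lit 2) (.cons (.br (nat_lit 3) (.cons (.rel (nat_lit 335552580)) .nil)) .nil)) .leaf) (nat_lit 23051433643870470) (.br (nat_lit 2) (.cons (.br (nat_lit 3) (.cons (.rel (nat_lit 335552580)) .nil)) .nil)) (.node .leaf (nat_lit 23051567923805565) (.br (nat_lit 0) (.cons (.br (nat_lit 1) (.cons (.rel (nat_lit 20988192)) .nil)) .nil)) .leaf)) (nat_lit 23051610139116300) (.br (nat_lit 0) (.cons (.br (nat_lit 3) (.cons (.rel (nat_lit 273154056)) .nil)) .nil)) (.node (.node .leaf (nat_lit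 23051653108822278) (.br (nat_lit 4) (.cons (.br (nat_lit 6) (.cons (.rel (nat_lit 18253676880)) .nil)) .nil)) .leaf) (nat_lit 23052469865281798) (.br (nat_lit 0) (.cons (.br (nat_lit 4) (.cons (.rel (nat_lit 1082130453)) .nil)) .nil)) (.node .leaf (nat_lit 23056936631583980) (.br (nat_lit 0) (.cons (.br (nat_lit 1) (.cons (.rel (nat_lit 20975877)) .nil)) .nil)) .leaf)))

/-- refutations 152 -/
def e152 : EX := (.node (.node (.node .leaf (nat_lit 24366257329932550) (.br (nat_lit 2) (.cons (.br (nat_lit 3) (.cons (.rel (nat_lit 335552580)) .nil)) .nil)) .leaf) (nat_lit 24366300236433670) (.br (nat_lit 0) (.cons (.br (nat_lit 1) (.cons (.rel (nat_lit 21004296)) .nil)) .nil)) .leaf) (nat_lit 24366300237662470) (.br (nat_lit 1) (.cons (.br (nat_lit 2) (.cons (.rel (nat_lit 83890452)) .nil)) .nil)) (.node (.node .leaf (nat_lit 24367758324572460) (.br (nat_lit 0) (.cons (.br (nat_lit 4) (.cons (.rel (nat_lit 2156139780)) .nil)) .nil)) .leaf) (nat_lit 24371019897871598) (.br (nat_lit 0) (.cons (.br (nat_lit 5) (.cons (.rel (nat_lit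 4300210704)) (.cons (.rel (nat_lit 4303421460)) .nil))) .nil)) .leaf))

/-- refutations 154 -/
def e154 : EX := (.node (.node .leaf (nat_lit 24220043208824085) (.br (nat_lit 0) (.cons (.br (nat_lit 2) (.cons (.rel (nat_lit 72356880)) .nil)) .nil)) .leaf) (nat_lit 24648262160484409) (.br (nat_lit 0) (.cons (.br (nat_lit 1) (.cons (.rel (nat_lit 21041154)) .nil)) .nil)) .leaf)

/-- refutations 155 -/
def e155 : EX := (.node (.node (.node (.node .leaf (nat_lit 24734883273603334) (.br (nat_lit 1) (.cons (.br (nat_lit 2) (.cons (.rel (nat_lit 83902722)) .nil)) .nil)) .leaf) (nat_lit 24735109087758598) (.br (nat_lit 5) (.cons (.br (nat_lit 6) (.cons (.rel (nat_lit 25769820165)) .nil)) .nil)) .leaf) (nat_lit 24736010917644550) (.br (nat_lit 3) (.cons (.br (nat_lit 4) (.cons (.br (nat_lit 0) (.cons (.rel (nat_lit 1346503680)) (.cons (.rel (nat_lit 276856833)) (.cons (.rel (nat_lit 273776640)) .nil)))) (.cons (.rel (nat_lit 1342210128)) .nil))) .nil)) (.node .leaf (nat_lit 24736821946636940) (.br (nat_lit 0) (.cons (.br (nat_lit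 1) (.cons (.rel (nat_lit 20972052)) .nil)) .nil)) .leaf)) (nat_lit 24736990723835905) (.br (nat_lit 1) (.cons (.br (nat_lit 2) (.cons (.rel (nat_lit 83906592)) .nil)) .nil)) (.node (.node .leaf (nat_lit 24740509468068102) (.br (nat_lit 0) (.cons (.br (nat_lit 1) (.cons (.rel (nat_lit 38805504)) .nil)) .nil)) .leaf) (nat_lit 24740509468069345) (.br (nat_lit 0) (.cons (.br (nat_lit 1) (.cons (.rel (nat_lit 42009600)) (.cons (.rel (nat_lit 41959428)) .nil))) .nil)) (.node .leaf (nat_lit 24740512798345478) (.br (nat_lit 0) (.cons (.br (nat_lit 1) (.cons (.rel (nat_lit 42009600)) .nil)) .nil)) .leaf)))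

/-- refutations 156 -/
def e156 : EX := (.node (.node (.node .leaf (nat_lit 24746685631296868) (.br (nat_lit 0) (.cons (.br (nat_lit 2) (.cons (.rel (nat_lit 71438400)) .nil)) .nil)) .leaf) (nat_lit 24746688961317670) (.br (nat_lit 0) (.cons (.br (nat_lit 1) (.cons (.rel (nat_lit 27267072)) .nil)) .nil)) (.node .leaf (nat_lit 24746914365041550) (.br (nat_lit 2) (.cons (.br (nat_lit 3) (.cons (.rel (nat_lit 335545920)) .nil)) .nil)) .leaf)) (nat_lit 24746914366580220) (.br (nat_lit 1) (.cons (.br (nat_lit 4) (.cons (.rel (nat_lit 1090588692)) .nil)) .nil)) (.node (.node .leaf (nat_lit 24746917559273734) (.br (nat_lit 0) (.cons (.br (nat_lit 2) (.cons (.rel (nat_lit 138420480)) .nil)) .nil)) .leaf) (nat_lit 24748023022618886) (.br (nat_lit 0) (.cons (.br (nat_lit 3) (.cons (.rel (nat_lit 273678354)) .nil)) .nil)) .leaf))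

/-- refutations 157 -/
def e157 : EX := (.node (.node (.node .leaf (nat_lit 24807392770787955) (.br (nat_lit 0) (.cons (.br (nat_lit 2) (.cons (.rel (nat_lit 76809216)) .nil)) .nil)) .leaf) (nat_lit 24807565743884550) (.br (nat_lit 1) (.cons (.br (nat_lit 6) (.cons (.rel (nat_lit 17196711957)) .nil)) .nil)) (.node .leaf (nat_lit 24811860040091910) (.br (nat_lit 3) (.cons (.br (nat_lit 2) (.cons (.rel (nat_lit 335552580)) (.cons (.rel (nat_lit 671351808)) .nil))) .nil)) .leaf)) (nat_lit 24811860040093153) (.br (nat_lit 1) (.cons (.br (nat_lit 2) (.cons (.rel (nat_lit 83894277)) .nil)) .nil)) (.node (.node .leaf (nat_lit 24812547882409437) (.br (nat_lit 1) (.cons (.br (nat_lit 2) (.cons (.rel (nat_lit 83902722)) .nil)) .nil)) .leaf) (nat_lit 24812547884976390) (.br (nat_lit 2) (.cons (.br (nat_lit 6) (.cons (.rel (nat_lit 34426912788)) .nil)) .nil)) (.node .leaf (nat_lit 24812547885499028) (.br (nat_lit 1) (.cons (.br (nat_lit 2) (.cons (.rel (nat_lit 83894277)) .nil)) .nil)) .leaf)))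

/-- refutations 158 -/
def e158 : EX := (.node (.node (.node .leaf (nat_lit 24816151907798372) (.br (nat_lit 0) (.cons (.br (nat_lit 1) (.cons (.rel (nat_lit 21004296)) .nil)) .nil)) .leaf) (nat_lit 24816154504071219) (.br (nat_lit 0) (.cons (.br (nat_lit 1) (.cons (.rel (nat_lit 20972052)) .nil)) .nil)) .leaf) (nat_lit 24817226272322288) (.br (nat_lit 3) (.cons (.br (nat_lit 4) (.cons (.rel (nat_lit 1342193988)) .nil)) .nil)) (.node .leaf (nat_lit 24817890404862214) (.br (nat_lit 1) (.cons (.br (nat_lit 3) (.cons (.rel (nat_lit 285216786)) .nil)) .nil)) .leaf))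

/-- refutations 159 -/
def e159 : EX := (.node (.node (.node (.node .leaf (nat_lit 24664719925905559) (.br (nat_lit 1) (.cons (.br (nat_lit 3) (.cons (.rel (nat_lit 570429696)) (.cons (.rel (nat_lit 285218820)) .nil))) (.cons (.br (nat_lit 3) (.cons (.br (nat_lit 0) (.cons (.rel (nat_lit 20975877)) (.cons (.rel (nat_lit 21104640)) (.cons (.rel (nat_lit 541066497)) .nil)))) (.cons (.rel (nat_lit 285229065)) .nil))) .nil))) .leaf) (nat_lit 24665814085404934) (.br (nat_lit 0) (.cons (.br (nat_lit 2) (.cons (.rel (nat_lit 71827713)) .nil)) .nil)) .leaf) (nat_lit 24676486016697625) (.br (nat_lit 0) (.cons (.br (nat_lit 1) (.cons (.rel (nat_lit 20972052)) .nil)) .nil)) (.node .leaf (nat_lit 24676486017977856) (.br (nat_lit 3) (.cons (.br (nat_lit 4) (.cons (.rel (nat_lit 1610613000)) .nil)) .nil)) .leaf)) (nat_lit 24676489293668378) (.br (nat_lit 0) (.cons (.br (nat_lit 1) (.cons (.rel (nat_lit 21104640)) .nil)) .nil)) (.node (.node .leaf (nat_lit 24676548810193576) (.br (nat_lit 2) (.cons (.br (nat_lit 3) (.cons (.rel (nat_lit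 603980037)) .nil)) .nil)) .leaf) (nat_lit 24676548810901766) (.br (nat_lit 2) (.cons (.br (nat_lit 0) (.cons (.rel (nat_lit 71303256)) (.cons (.rel (nat_lit 138412065)) .nil))) .nil)) (.node .leaf (nat_lit 24676548811098263) (.br (nat_lit 1) (.cons (.br (nat_lit 2) (.cons (.rel (nat_lit 167789568)) .nil)) .nil)) .leaf)))

/-- refutations 160 -/
def e160 : EX := (.node (.node (.node (.node .leaf (nat_lit 25086953331644716) (.br (nat_lit 0) (.cons (.br (nat_lit 4) (.cons (.rel (nat_lit 1082155008)) .nil)) .nil)) .leaf) (nat_lit 25088021193278876) (.br (nat_lit 3) (.cons (.br (nat_lit 4) (.cons (.rel (nat_lit 2415935760)) .nil)) .nil)) .leaf) (nat_lit 25088021194590335) (.br (nat_lit 1) (.cons (.br (nat_lit 4) (.cons (.rel (nat_lit 1090527240)) .nil)) .nil)) (.node (.node .leaf (nat_lit 25088021194590984) (.br (nat_lit 3) (.cons (.br (nat_lit 4) (.cons (.rel (nat_lit 1343226882)) .nil)) .nil)) .leaf) (nat_lit 25088021194591633) (.br (nat_lit 0) (.cons (.br (nat_lit 3) (.cons (.rel (nat_lit 272634180)) .nil)) .nil)) .leaf))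 (nat_lit 25088024028611985) (.br (nat_lit 0) (.cons (.br (nat_lit 3) (.cons (.rel (nat_lit 276955152)) .nil)) .nil)) (.node (.node (.node .leaf (nat_lit 25088026478084872) (.br (nat_lit 1) (.cons (.br (nat_lit 2) (.cons (.rel (nat_lit 83951904)) .nil)) .nil)) .leaf) (nat_lit 25088026478085521) (.br (nat_lit 4) (.cons (.br (nat_lit 3) (.cons (.rel (nat_lit 1343226882)) (.cons (.rel (nat_lit 1342259265)) .nil))) .nil)) .leaf) (nat_lit 25088026549388689) (.br (nat_lit 1) (.cons (.br (nat_lit 6) (.cons (.rel (nat_lit 17196650505)) .nil)) .nil)) (.node (.node .leaf (nat_lit 25088049796987142) (.br (nat_lit 1) (.cons (.br (nat_lit 4) (.cons (.rel (nat_lit 1090527240)) .nil)) .nil)) .leaf) (nat_lit 25088049799499288) (.br (nat_lit 0) (.cons (.br (nat_lit 2) (.cons (.rel (nat_lit 75595776)) .nil)) .nil)) .leaf)))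

/-- refutations 161 -/
def e161 : EX := (.node (.node (.node .leaf (nat_lit 25094503919241343) (.br (nat_lit 2) (.cons (.br (nat_lit 5) (.cons (.rel (nat_lit 4362092610)) .nil)) .nil)) .leaf) (nat_lit 25097630764239110) (.br (nat_lit 1) (.cons (.br (nat_lit 2) (.cons (.rel (nat_lit 83894277)) .nil)) .nil)) .leaf) (nat_lit 25098532472491544) (.br (nat_lit 2) (.cons (.br (nat_lit 3) (.cons (.rel (nat_lit 336070656)) .nil)) .nil)) (.node .leaf (nat_lit 25099434413511931) (.br (nat_lit 2) (.cons (.br (nat_lit 3) (.cons (.rel (nat_lit 336740352)) .nil)) .nil)) .leaf))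

/-- refutations 163 -/
def e163 : EX := (.node (.node (.node .leaf (nat_lit 25159406216140184) (.br (nat_lit 1) (.cons (.br (nat_lit 2) (.cons (.rel (nat_lit 83920896)) .nil)) .nil)) .leaf) (nat_lit 25162500898029575) (.br (nat_lit 3) (.cons (.br (nat_lit 4) (.cons (.rel (nat_lit 1343226882)) .nil)) .nil)) (.node .leaf (nat_lit 25163532192966663) (.br (nat_lit 0) (.cons (.br (nat_lit 1) (.cons (.rel (nat_lit 20976912)) .nil)) .nil)) .leaf)) (nat_lit 25163698545218968) (.br (nat_lit 2) (.cons (.br (nat_lit 4) (.cons (.rel (nat_lit 2214678528)) .nil)) .nil)) (.node (.node .leaf (nat_lit 25163698546378136) (.br (nat_lit 2) (.cons (.br (nat_lit 4) (.cons (.rel (nat_lit 2214678528)) .nil)) .nil)) .leaf) (nat_lit 25163698648124292) (.br (nat_lit 2) (.cons (.br (nat_lit 0) (.cons (.rel (nat_lit 71303256)) (.cons (.rel (nat_lit 71303256)) .nil))) .nil)) .leaf))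

/-- refutations 164 -/
def e164 : EX := (.node (.node (.node (.node .leaf (nat_lit 25164399543439495) (.br (nat_lit 0) (.cons (.br (nat_lit 3) (.cons (.rel (nat_lit 272650320)) .nil)) .nil)) .leaf) (nat_lit 25164399543440792) (.br (nat_lit 0) (.cons (.br (nat_lit 1) (.cons (.rel (nat_lit 20988192)) .nil)) .nil)) .leaf) (nat_lit 25164399544599960) (.br (nat_lit 6) (.cons (.br (nat_lit 0) (.cons (.rel (nat_lit 17185113108)) (.cons (.rel (nat_lit 17184588801)) .nil))) .nil)) (.node (.node .leaf (nat_lit 25168895656973720) (.br (nat_lit 1) (.cons (.br (nat_lit 3) (.cons (.rel (nat_lit 285315072)) .nil)) .nil)) .leaf) (nat_lit 25168898093864344) (.br (nat_lit 3) (.cons (.br (nat_lit 4) (.cons (.rel (nat_lit 1342210128)) .nil)) .nil)) .leaf)) (nat_lit 25168898095023512) (.br (nat_lit 4) (.cons (.br (nat_lit 6) (.cons (.rel (nat_lit 18254664192)) .nil)) .nil)) (.node (.node (.node .leaf (nat_lit 25169127383881112) (.br (nat_lit 1) (.cons (.br (nat_lit 2) (.cons (.rel (nat_lit 101712384)) .nil)) .nil)) .leaf) (nat_lit 25169127386122892)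 (.br (nat_lit 1) (.cons (.br (nat_lit 3) (.cons (.rel (nat_lit 285280272)) .nil)) .nil)) .leaf) (nat_lit 25169130122761624) (.br (nat_lit 1) (.cons (.br (nat_lit 4) (.cons (.rel (nat_lit 2181039393)) .nil)) .nil)) (.node .leaf (nat_lit 25169800036996504) (.br (nat_lit 1) (.cons (.br (nat_lit 4) (.cons (.rel (nat_lit 1090525440)) .nil)) .nil)) .leaf)))

/-- refutations 165 -/
def e165 : EX := (.node .leaf (nat_lit 25170232886134168) (.br (nat_lit 1) (.cons (.br (nat_lit 0) (.cons (.rel (nat_lit 41959428)) (.cons (.rel (nat_lit 21054468)) (.cons (.rel (nat_lit 20975877)) .nil)))) (.cons (.br (nat_lit 2) (.cons (.rel (nat_lit 83920896)) (.cons (.rel (nat_lit 83920896)) (.cons (.rel (nat_lit 83920896)) .nil)))) .nil))) .leaf)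

/-- refutations 167 -/
def e167 : EX := (.node .leaf (nat_lit 26394982575248620) (.br (nat_lit 0) (.cons (.br (nat_lit 1) (.cons (.rel (nat_lit 21041154)) .nil)) .nil)) .leaf)

/-- refutations 168 -/
def e168 : EX := (.node (.node (.node .leaf (nat_lit 26399122926380308) (.br (nat_lit 0) (.cons (.br (nat_lit 2) (.cons (.rel (nat_lit 72352020)) .nil)) .nil)) .leaf) (nat_lit 26399446739132543) (.br (nat_lit 2) (.cons (.br (nat_lit 4) (.cons (.rel (nat_lit 1140850785)) .nil)) .nil)) .leaf) (nat_lit 26399449783502087) (.br (nat_lit 0) (.cons (.br (nat_lit 2) (.cons (.rel (nat_lit 71303256)) .nil)) .nil)) (.node .leaf (nat_lit 26399449784198407) (.br (nat_lit 3) (.cons (.br (nat_lit 5) (.cons (.rel (nat_lit 4831838721)) .nil)) .nil)) .leaf))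

/-- refutations 169 -/
def e169 : EX := (.node (.node .leaf (nat_lit 25192053365328672) (.br (nat_lit 2) (.cons (.br (nat_lit 3) (.cons (.rel (nat_lit 335552580)) .nil)) .nil)) .leaf) (nat_lit 25194376527912992) (.br (nat_lit 1) (.cons (.br (nat_lit 2) (.cons (.rel (nat_lit 85067136)) .nil)) .nil)) (.node .leaf (nat_lit 25205367765238060) (.br (nat_lit 1) (.cons (.br (nat_lit 3) (.cons (.rel (nat_lit 285218820)) .nil)) .nil)) .leaf))

/-- refutations 170 -/
def e170 : EX := (.node (.node .leaf (nat_lit 26582283937694331) (.br (nat_lit 0) (.cons (.br (nat_lit 2) (.cons (.rel (nat_lit 138413064)) .nil)) .nil)) .leaf) (nat_lit 26583102147363753) (.br (nat_lit 1) (.cons (.br (nat_lit 2) (.cons (.rel (nat_lit 83920896)) .nil)) .nil)) (.node .leaf (nat_lit 26583102148542521) (.br (nat_lit 0) (.cons (.br (nat_lit 1) (.cons (.rel (nat_lit 25429248)) .nil)) .nil)) .leaf))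

/-- refutations 171 -/
def e171 : EX := (.node (.node (.node (.node .leaf (nat_lit 26592633848072454) (.br (nat_lit 0) (.cons (.br (nat_lit 6) (.cons (.rel (nat_lit 34363999248)) .nil)) .nil)) .leaf) (nat_lit 26592754086186516) (.br (nat_lit 0) (.cons (.br (nat_lit 1) (.cons (.rel (nat_lit 25444353)) .nil)) .nil)) (.node .leaf (nat_lit 26592796821987628) (.br (nat_lit 0) (.cons (.br (nat_lit 4) (.cons (.rel (nat_lit 1078987008)) .nil)) .nil)) .leaf)) (nat_lit 26592797056010502) (.br (nat_lit 0) (.cons (.br (nat_lit 1) (.cons (.rel (nat_lit 21104640)) .nil)) .nil)) (.node (.node .leaf (nat_lit 26592797056868652) (.br (nat_lit 0) (.cons (.br (nat_lit 5) (.cons (.rel (nat_lit 4303619136)) .nil)) .nil)) .leaf) (nat_lit 26592960030647809) (.br (nat_lit 0) (.cons (.br (nat_lit 1) (.cons (.rel (nat_lit 20975877)) .nil)) .nil)) .leaf)) (nat_lit 26592962695732475) (.br (nat_lit 0) (.cons (.br (nat_lit 1) (.cons (.rel (nat_lit 20980737)) .nil)) .nil)) (.node (.node (.node .leaf (nat_lit 26592965300395489) (.br (nat_lit 1) (.cons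 (.br (nat_lit 3) (.cons (.rel (nat_lit 570429696)) .nil)) .nil)) .leaf) (nat_lit 26594765111528200) (.br (nat_lit 0) (.cons (.br (nat_lit 1) (.cons (.rel (nat_lit 21104640)) .nil)) .nil)) (.node .leaf (nat_lit 26594765112656172) (.br (nat_lit 5) (.cons (.br (nat_lit 1) (.cons (.rel (nat_lit 4311745545)) (.cons (.rel (nat_lit 8606976000)) .nil))) .nil)) .leaf)) (nat_lit 26594765112818575) (.br (nat_lit 1) (.cons (.br (nat_lit 2) (.cons (.rel (nat_lit 83887617)) .nil)) .nil)) (.node (.node .leaf (nat_lit 26594765226065252) (.br (nat_lit 0) (.cons (.br (nat_lit 1) (.cons (.rel (nat_lit 20972052)) .nil)) .nil)) .leaf) (nat_lit 26594765226166329) (.br (nat_lit 2) (.cons (.br (nat_lit 3) (.cons (.rel (nat_lit 335806848)) .nil)) .nil)) .leaf)))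

/-- refutations 172 -/
def e172 : EX := (.node (.node .leaf (nat_lit 26599903360010867) (.br (nat_lit 1) (.cons (.br (nat_lit 3) (.cons (.rel (nat_lit 570429696)) .nil)) .nil)) .leaf) (nat_lit 26599903360420102) (.br (nat_lit 0) (.cons (.br (nat_lit 2) (.cons (.rel (nat_lit 75502080)) .nil)) .nil)) (.node .leaf (nat_lit 26600937821153542) (.br (nat_lit 0) (.cons (.br (nat_lit 1) (.cons (.rel (nat_lit 20980737)) .nil)) .nil)) .leaf))

/-- refutations 173 -/
def e173 : EX := (.node (.node .leaf (nat_lit 26607423224023302) (.br (nat_lit 0) (.cons (.br (nat_lit 2) (.cons (.rel (nat_lit 71305281)) .nil)) .nil)) .leaf) (nat_lit 26610552216791940) (.br (nat_lit 0) (.cons (.br (nat_lit 1) (.cons (.rel (nat_lit 22020240)) .nil)) .nil)) .leaf)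

/-- refutations 174 -/
def e174 : EX := (.node (.node (.node .leaf (nat_lit 26829601948272119) (.br (nat_lit 0) (.cons (.br (nat_lit 6) (.cons (.rel (nat_lit 17184588801)) .nil)) .nil)) .leaf) (nat_lit 26829601948536194) (.br (nat_lit 1) (.cons (.br (nat_lit 3) (.cons (.rel (nat_lit 285213960)) .nil)) .nil)) (.node .leaf (nat_lit 26833753642150150) (.br (nat_lit 2) (.cons (.br (nat_lit 6) (.cons (.rel (nat_lit 17247061056)) .nil)) .nil)) .leaf)) (nat_lit 26833753643868185) (.br (nat_lit 6) (.cons (.br (nat_lit 4) (.cons (.rel (nat_lit 18253620288)) (.cons (.rel (nat_lit 18253615428)) .nil))) .nil)) (.node (.node .leaf (nat_lit 26833755824906265) (.br (nat_lit 4) (.cons (.br (nat_lit 6) (.cons (.rel (nat_lit 18253620288)) .nil)) .nil)) .leaf) (nat_lit 26833758949214470) (.br (nat_lit 2) (.cons (.br (nat_lit 3) (.cons (.rel (nat_lit 335561025)) .nil)) .nil)) (.node .leaf (nat_lit 26835614902486519) (.br (nat_lit 0) (.cons (.br (nat_lit 4) (.cons (.rel (nat_lit 1078465536)) .nil)) .nil)) .leaf)))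

/-- refutations 175 -/
def e175 : EX := (.node (.node (.node .leaf (nat_lit 26838884652943622) (.br (nat_lit 1) (.cons (.br (nat_lit 2) (.cons (.rel (nat_lit 83906592)) .nil)) .nil)) .leaf) (nat_lit 26839250634624238) (.br (nat_lit 1) (.cons (.br (nat_lit 4) (.cons (.rel (nat_lit 1090525440)) .nil)) .nil)) (.node .leaf (nat_lit 26839250635317500) (.br (nat_lit 2) (.cons (.br (nat_lit 3) (.cons (.rel (nat_lit 335614032)) .nil)) .nil)) .leaf)) (nat_lit 26839250635366700) (.br (nat_lit 3) (.cons (.br (nat_lit 0) (.cons (.rel (nat_lit 273682944)) (.cons (.rel (nat_lit 273776640)) .nil))) .nil)) (.node (.node .leaf (nat_lit 26839251199060230) (.br (nat_lit 3) (.cons (.br (nat_lit 4) (.cons (.rel (nat_lit 1342701585)) .nil)) .nil)) .leaf) (nat_lit 26841441635328025) (.br (nat_lit 5) (.cons (.br (nat_lit 6) (.cons (.rel (nat_lit 21474836568)) .nil)) .nil)) (.node .leaf (nat_lit 26841443816366105) (.br (nat_lit 4) (.cons (.br (nat_lit 5) (.cons (.rel (nat_lit 5369774337)) (.cons (.rel (nat_lit 6442451205)) .nil))) (.cons (.br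 (nat_lit 0) (.cons (.rel (nat_lit 1078034496)) (.cons (.rel (nat_lit 1077936210)) (.cons (.rel (nat_lit 1077936210)) .nil)))) .nil))) .leaf)))

/-- refutations 176 -/
def e176 : EX := (.node (.node .leaf (nat_lit 26406950490848732) (.br (nat_lit 0) (.cons (.br (nat_lit 1) (.cons (.rel (nat_lit 20972052)) .nil)) .nil)) .leaf) (nat_lit 26417041445238011) (.br (nat_lit 0) (.cons (.br (nat_lit 2) (.cons (.rel (nat_lit 75497490)) .nil)) .nil)) .leaf)

/-- refutations 177 -/
def e177 : EX := (.node .leaf (nat_lit 26935849944353030) (.br (nat_lit 3) (.cons (.br (nat_lit 0) (.cons (.rel (nat_lit 276856833)) (.cons (.rel (nat_lit 272650320)) .nil))) .nil)) .leaf)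

/-- refutations 178 -/
def e178 : EX := (.node (.node (.node .leaf (nat_lit 26941470854922926) (.br (nat_lit 3) (.cons (.br (nat_lit 4) (.cons (.rel (nat_lit 2415935760)) .nil)) .nil)) .leaf) (nat_lit 26941471408257286) (.br (nat_lit 3) (.cons (.br (nat_lit 0) (.cons (.rel (nat_lit 272761956)) (.cons (.rel (nat_lit 272639040)) .nil))) .nil)) (.node .leaf (nat_lit 26944803751551127) (.br (nat_lit 4) (.cons (.br (nat_lit 2) (.cons (.rel (nat_lit 1141905408)) (.cons (.rel (nat_lit 1140998208)) .nil))) .nil)) .leaf)) (nat_lit 26945709409919782) (.br (nat_lit 1) (.cons (.br (nat_lit 2) (.cons (.rel (nat_lit 167789568)) .nil)) .nil)) (.node (.node .leaf (nat_lit 26946608191506694) (.br (nat_lit 0) (.cons (.br (nat_lit 1) (.cons (.rel (nat_lit 20988192)) .nil)) .nil)) .leaf) (nat_lit 26946780715036934) (.br (nat_lit 6) (.cons (.br (nat_lit 2) (.cons (.rel (nat_lit 17246978640)) (.cons (.rel (nat_lit 17246978640)) .nil))) .nil)) .leaf))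

/-- refutations 181 -/
def e181 : EX := (.node (.node (.node .leaf (nat_lit 27010878622206214) (.br (nat_lit 0) (.cons (.br (nat_lit 1) (.cons (.rel (nat_lit 20972052)) .nil)) .nil)) .leaf) (nat_lit 27010878721794734) (.br (nat_lit 6) (.cons (.br (nat_lit 5) (.cons (.rel (nat_lit 25769820165)) (.cons (.rel (nat_lit 21475361025)) (.cons (.rel (nat_lit 25769870337)) .nil)))) .nil)) .leaf) (nat_lit 27010878722828550) (.br (nat_lit 0) (.cons (.br (nat_lit 3) (.cons (.rel (nat_lit 272639040)) .nil)) .nil)) (.node (.node .leaf (nat_lit 27010878723852550) (.br (nat_lit 0) (.cons (.br (nat_lit 1) (.cons (.rel (nat_lit 37765185)) .nil)) .nil)) .leaf) (nat_lit 27011564931722603) (.br (nat_lit 0) (.cons (.br (nat_lit 1) (.cons (.rel (nat_lit 38805504)) .nil)) .nil)) .leaf))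

/-- refutations 182 -/
def e182 : EX := (.node (.node (.node .leaf (nat_lit 27012000529781523) (.br (nat_lit 0) (.cons (.br (nat_lit 2) (.cons (.rel (nat_lit 72356880)) .nil)) .nil)) .leaf) (nat_lit 27015172495812793) (.br (nat_lit 0) (.cons (.br (nat_lit 3) (.cons (.rel (nat_lit 541066497)) .nil)) .nil)) .leaf) (nat_lit 27015172495969633) (.br (nat_lit 1) (.cons (.br (nat_lit 3) (.cons (.rel (nat_lit 287310912)) .nil)) .nil)) (.node .leaf (nat_lit 27015173589156102) (.br (nat_lit 0) (.cons (.br (nat_lit 2) (.cons (.rel (nat_lit 138420480)) .nil)) .nil)) .leaf))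

/-- refutations 183 -/
def e183 : EX := (.node (.node (.node .leaf (nat_lit 26956898911101715) (.br (nat_lit 0) (.cons (.br (nat_lit 1) (.cons (.rel (nat_lit 20976912)) .nil)) .nil)) .leaf) (nat_lit 26959060784434414) (.br (nat_lit 0) (.cons (.br (nat_lit 1) (.cons (.rel (nat_lit 21104640)) .nil)) .nil)) (.node .leaf (nat_lit 26962235913954056) (.br (nat_lit 1) (.cons (.br (nat_lit 2) (.cons (.rel (nat_lit 83902722)) .nil)) .nil)) .leaf)) (nat_lit 26962397005916287) (.br (nat_lit 0) (.cons (.br (nat_lit 1) (.cons (.rel (nat_lit 20975877)) .nil)) .nil)) (.node (.node .leaf (nat_lit 26962397007384030) (.br (nat_lit 0) (.cons (.br (nat_lit 1) (.cons (.rel (nat_lit 21041154)) .nil)) .nil)) .leaf) (nat_lit 26962399318563068) (.br (nat_lit 1) (.cons (.br (nat_lit 4) (.cons (.rel (nat_lit 2181042180)) .nil)) .nil)) .leaf))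

/-- refutations 184 -/
def e184 : EX := (.node .leaf (nat_lit 27274593784301830) (.br (nat_lit 1) (.cons (.br (nat_lit 5) (.cons (.rel (nat_lit 8623526913)) .nil)) .nil)) .leaf)

/-- refutations 185 -/
def e185 : EX := (.node (.node (.node .leaf (nat_lit 27279060781017350) (.br (nat_lit 1) (.cons (.br (nat_lit 2) (.cons (.rel (nat_lit 83890452)) .nil)) .nil)) .leaf) (nat_lit 27279060781244678) (.br (nat_lit 3) (.cons (.br (nat_lit 4) (.cons (.rel (nat_lit 1342193988)) .nil)) .nil)) .leaf) (nat_lit 27279061284292870) (.br (nat_lit 3) (.cons (.br (nat_lit 1) (.cons (.rel (nat_lit 285213960)) (.cons (.rel (nat_lit 570429696)) .nil))) .nil)) (.node (.node .leaf (nat_lit 27279061284561158) (.br (nat_lit 0) (.cons (.br (nat_lit 1) (.cons (.rel (nat_lit 21004296)) .nil)) .nil)) .leaf) (nat_lit 27279061703723270) (.br (nat_lit 1) (.cons (.br (nat_lit 3) (.cons (.rel (nat_lit 285212961)) .nil)) .nil)) .leaf))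

/-- refutations 187 -/
def e187 : EX := (.node (.node .leaf (nat_lit 27303347834107242) (.br (nat_lit 0) (.cons (.br (nat_lit 4) (.cons (.rel (nat_lit 1077936210)) .nil)) .nil)) .leaf) (nat_lit 27304619495762182) (.br (nat_lit 0) (.cons (.br (nat_lit 1) (.cons (.rel (nat_lit 20976912)) .nil)) .nil)) (.node .leaf (nat_lit 27304619498014982) (.br (nat_lit 0) (.cons (.br (nat_lit 1) (.cons (.rel (nat_lit 42009600)) (.cons (.rel (nat_lit 20980737)) .nil))) .nil)) .leaf))

/-- refutations 188 -/
def e188 : EX := (.node (.node (.node (.node .leaf (nat_lit 27313913396201734) (.br (nat_lit 0) (.cons (.br (nat_lit 5) (.cons (.rel (nat_lit 4303358208)) (.cons (.rel (nat_lit 4303373313)) .nil))) .nil)) .leaf) (nat_lit 27314076682645766) (.br (nat_lit 0) (.cons (.br (nat_lit 6) (.cons (.rel (nat_lit 17186422800)) .nil)) .nil)) .leaf) (nat_lit 27314076684650758) (.br (nat_lit 1) (.cons (.br (nat_lit 3) (.cons (.rel (nat_lit 302530560)) (.cons (.rel (nat_lit 285221376)) (.cons (.rel (nat_lit 285315072)) .nil)))) .nil)) (.node .leaf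 (nat_lit 27314239892588806) (.br (nat_lit 0) (.cons (.br (nat_lit 1) (.cons (.rel (nat_lit 21104640)) .nil)) .nil)) .leaf)) (nat_lit 27314239893407874) (.br (nat_lit 0) (.cons (.br (nat_lit 2) (.cons (.rel (nat_lit 138412065)) .nil)) .nil)) (.node (.node (.node .leaf (nat_lit 27314239893408006) (.br (nat_lit 5) (.cons (.br (nat_lit 3) (.cons (.rel (nat_lit 4831846416)) (.cons (.rel (nat_lit 4563411264)) (.cons (.rel (nat_lit 4831846416)) .nil)))) .nil)) .leaf) (nat_lit 27314239893446956) (.br (nat_lit 1) (.cons (.br (nat_lit 6) (.cons (.rel (nat_lit 34376785920)) .nil)) .nil)) .leaf) (nat_lit 27314242906540192) (.br (nat_lit 0) (.cons (.br (nat_lit 3) (.cons (.rel (nat_lit 272695632)) .nil)) .nil)) (.node .leaf (nat_lit 27314243458508039) (.br (nat_lit 2) (.cons (.br (nat_lit 4) (.cons (.rel (nat_lit 1141965825)) .nil)) .nil)) .leaf)))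

/-- refutations 190 -/
def e190 : EX := (.node (.node (.node .leaf (nat_lit 27357146381813796) (.br (nat_lit 0) (.cons (.br (nat_lit 2) (.cons (.rel (nat_lit 75595776)) .nil)) .nil)) .leaf) (nat_lit 27358083336448752) (.br (nat_lit 0) (.cons (.br (nat_lit 4) (.cons (.rel (nat_lit 1077938244)) .nil)) .nil)) .leaf) (nat_lit 27358426282107180) (.br (nat_lit 2) (.cons (.br (nat_lit 3) (.cons (.rel (nat_lit 335545920)) .nil)) .nil)) (.node .leaf (nat_lit 27361742550468870) (.br (nat_lit 1) (.cons (.br (nat_lit 2) (.cons (.rel (nat_lit 83920896)) .nil)) .nil)) .leaf))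

/-- refutations 191 -/
def e191 : EX := (.node (.node .leaf (nat_lit 27366635979766665) (.br (nat_lit 2) (.cons (.br (nat_lit 3) (.cons (.rel (nat_lit 671351808)) .nil)) .nil)) .leaf) (nat_lit 27368150639127280) (.br (nat_lit 0) (.cons (.br (nat_lit 1) (.cons (.rel (nat_lit 20975877)) .nil)) .nil)) .leaf)

/-- refutations 192 -/
def e192 : EX := (.node (.node .leaf (nat_lit 27050193891621126) (.br (nat_lit 0) (.cons (.br (nat_lit 1) (.cons (.rel (nat_lit 27267072)) .nil)) .nil)) .leaf) (nat_lit 27051490736864143) (.br (nat_lit 3) (.cons (.br (nat_lit 1) (.cons (.rel (nat_lit 285216786)) (.cons (.rel (nat_lit 285212961)) .nil))) .nil)) .leaf)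

/-- refutations 194 -/
def e194 : EX := (.node (.node (.node .leaf (nat_lit 27463612673558713) (.br (nat_lit 0) (.cons (.br (nat_lit 3) (.cons (.rel (nat_lit 541081602)) .nil)) .nil)) .leaf) (nat_lit 27463612673618076) (.br (nat_lit 1) (.cons (.br (nat_lit 4) (.cons (.rel (nat_lit 2181108225)) .nil)) .nil)) .leaf) (nat_lit 27468274495654150) (.br (nat_lit 0) (.cons (.br (nat_lit 4) (.cons (.rel (nat_lit 1078476816)) .nil)) .nil)) (.node (.node .leaf (nat_lit 27468280132798726) (.br (nat_lit 3) (.cons (.br (nat_lit 6) (.cons (.rel (nat_lit 34628198400)) (.cons (.rel (nat_lit 34628198400)) (.cons (.rel (nat_lit 17449373712)) (.cons (.rel (nat_lit 17449373712)) .nil))))) .nil)) .leaf) (nat_lit 27468280133320711) (.br (nat_lit 3) (.cons (.br (nat_lit 1) (.cons (.rel (nat_lit 285360384)) (.cons (.rel (nat_lit 302530560)) .nil))) .nil)) .leaf))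

/-- list of the parts -/
def L1 : List (ℕ × List ℕ) := [(nat_lit 0x200000000000000000000000000000000000000000000000000000000000000000000000000000000000000000000000000000000000000000000000000000000000000000000000000000000000000000000000000000000000000000000000, [Nat.sub (Nat.pow 2 880) (Nat.pow 2 0), Nat.sub (Nat.pow 2 3136) (Nat.pow 2 880)]),
  (nat_lit 0x2000000000000000000000000000000000000000000000000000000000000000000000000000000000000000000000000000000000000000000000000000000000000000000000000000000000000000000000000000000000000000000000000000, [Nat.sub (Nat.pow 2 304) (Nat.pow 2 0), Nat.sub (Nat.pow 2 1280) (Nat.pow 2 304), Nat.sub (Nat.pow 2 1514) (Nat.pow 2 1280), Nat.sub (Nat.pow 2 3136) (Nat.pow 2 1514)]),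
  (nat_lit 0x20000000000000000000000000000000000000000000000000000000000000000000000000000000000000000000000000000000000000000000000000000000000000000000000000000000000000000000000000000000000000000000000000000, [Nat.sub (Nat.pow 2 815) (Nat.pow 2 0), Nat.sub (Nat.pow 2 1559) (Nat.pow 2 815), Nat.sub (Nat.pow 2 3136) (Nat.pow 2 1559)]),
  (nat_lit 0x100000000000000000000000000000000000000000000000000000000000000000000000000000000000000000000000000000000000000000000000000000000000000000000000000000000000000000000000000000000000000000000000, [cP]),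
  (nat_lit 0x2000000000000000000000000000000000000000000000000000000000000000000000000000000000000000000000000000000000000000000000000000000000000000000000000000000000000000000000000000000000000000000000000000000000, [Nat.sub (Nat.pow 2 880) (Nat.pow 2 0), Nat.sub (Nat.pow 2 3136) (Nat.pow 2 880)]),
  (nat_lit 0x800000000000000000000000000000000000000000000000000000000000000000000000000000000000000000000000000000000000000000000000000000000000000000000000000000000000000000000000000000000000000000000000000000, [cP]),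
  (nat_lit 0x1000000000000000000000000000000000000000000000000000000000000000000000000000000000000000000000000000000000000000000000000000000000000000000000000000000000000000000000000000000000000000000000000000000000000, [Nat.sub (Nat.pow 2 815) (Nat.pow 2 0), Nat.sub (Nat.pow 2 1506) (Nat.pow 2 815), Nat.sub (Nat.pow 2 3136) (Nat.pow 2 1506)]),
  (nat_lit 0x800000000000000000000000000000000000000000000000000000000000000000000000000000000000000000000000000000000000000000000000000000000000000000000000000000000000000000000000000000000000000000000000000000000000, [cP]),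
  (nat_lit 0x8000000000000000000000000000000000000000000000000000000000000000000000000000000000000000000000000000000000000000000000000000000000000000000000000000000000000000000000000000000000000000000000000000000000000000000000000000, [cP]),
  (nat_lit 0x2000000000000000000000000000000000000000000000000000000000000000000000000000000000000000000000000000000000000000000000000000000000000000000000000000000000000000000000000000000000000000000000000000000000000000000000000000000, [Nat.sub (Nat.pow 2 284) (Nat.pow 2 0), Nat.sub (Nat.pow 2 1304) (Nat.pow 2 284), Nat.sub (Nat.pow 2 3136) (Nat.pow 2 1304)]),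
  (nat_lit 0x20000000000000000000000000000000000000000000000000000000000000000000000000000000000000000000000000000000000000000000000000000000000000000000000000000000000000000000000000000000000000000000000000000000000000000000000000000, [cP]),
  (nat_lit 0x4000000000000000000000000000000000000000000000000000000000000000000000000000000000000000000000000000000000000000000000000000000000000000000000000000000000000000000000000000000000000000000000000000000000000000000000000000000, [cP]),
  (nat_lit 0x20000000000000000000000000000000000000000000000000000000000000000000000000000000000000000000000000000000000000000000000000000000000000000000000000000000000000000000000000000000000000000000000000000000000000000000000000000000000, [cP]),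
  (nat_lit 0x10000000000000000000000000000000000000000000000000000000000000000000000000000000000000000000000000000000000000000000000000000000000000000000000000000000000000000000000000000000000000000000000000000000000000000000000000000000000000, [Nat.sub (Nat.pow 2 684) (Nat.pow 2 0), Nat.sub (Nat.pow 2 3136) (Nat.pow 2 684)]),
  (nat_lit 0x8040000000000000000000000000000000000000000000000000000000000000000000000000000000000000000000000000000000000000000000000000000000000000000000000000000000000000000000000000000000000000000000000000000000000000000000000000000000000, [cP]),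
  (nat_lit 0x400000000000000000000000000000000000000000000000000000000000000000000000000000000000000000000000000000000000000000000000000000000000000000000000000000000000000000000000000000000000000000000000000000000000000000000000000000000000000000, [Nat.sub (Nat.pow 2 889) (Nat.pow 2 0), Nat.sub (Nat.pow 2 3136) (Nat.pow 2 889)]),
  (nat_lit 0xc0000000000000000000000000000000000000000000000000000000000000000000000000000000000000000000000000000000000000000000000000000000000000000000000000000000000000000000000000000000000000000000000000000000000000000000000000000000000000000, [cP]),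
  (nat_lit 0x40000000000000000000000000000000000000000000000000000000000000000000000000000000000000000000000000000000000000000000000000000000000000000000000000000000000000000000000000000000000000000000000000000000000000000000000000000000000000000000000000000000000000000000000000000000000000000000000000000000000000000000000000, [Nat.sub (Nat.pow 2 659) (Nat.pow 2 0), Nat.sub (Nat.pow 2 1280) (Nat.pow 2 659), Nat.sub (Nat.pow 2 1534) (Nat.pow 2 1280), Nat.sub (Nat.pow 2 3136) (Nat.pow 2 1534)]),
  (nat_lit 0x100000000000000000000000000000000000000000000000000000000000000000000000000000000800000000000000000000000000000000000000000000000000000000000000000000000000000000000000000000000000000000000000000000000000000000000000000000000000000000000000000000000000000000000000000000000000000000000000000000000000000000000000000, [cP]),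
  (nat_lit 0x20000000000000000000000000000000000000000000000000000000000000000000000000000000000000000000000000000000000000000000000000000000000000000000000000000000000000000000000000000000000000000000000000000000000000000000000000000000000000000000000000000000000000000000000000000000000000000000000000000000000000000000000000000, [Nat.sub (Nat.pow 2 691) (Nat.pow 2 0), Nat.sub (Nat.pow 2 1304) (Nat.pow 2 691), Nat.sub (Nat.pow 2 1566) (Nat.pow 2 1304), Nat.sub (Nat.pow 2 3136) (Nat.pow 2 1566)]),
  (nat_lit 0x80000000000000000000000000000000000000000000000000000000000000000000000000000000000000000000000000000000000000000000000000000000000000000000000000000000000000000000000000000000000000000000000000000000000000000000000000000000000000000000000000000000000000000000000000000000000000000000000000000000000000000000000000000000, [Nat.sub (Nat.pow 2 684) (Nat.pow 2 0), Nat.sub (Nat.pow 2 1559) (Nat.pow 2 684), Nat.sub (Nat.pow 2 3136) (Nat.pow 2 1559)]),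
  (nat_lit 0x200000000000000000000000000000000000000000000000000000000000000000000000000000000000000000000000000000000000000000000000000000000000000000000000000000000000000000000000000000000000000000000000000000000000000000000000000000000000000000000000000000000000000000000000000000000000000000000000000000000000000000000000000000000, [Nat.sub (Nat.pow 2 791) (Nat.pow 2 0), Nat.sub (Nat.pow 2 3136) (Nat.pow 2 791)]),
  (nat_lit 0x2000000000000000000000000000000000000000000000000000000000000000000000000000000000000000000000000000000000000000000000000000000000000000000000000000000000000000000000000000000000000000000000000000000000000000000000000000000000000000000000000000000000000000000000000000000000000000000000000000000000000000000000000000000000, [Nat.sub (Nat.pow 2 915) (Nat.pow 2 0), Nat.sub (Nat.pow 2 3136) (Nat.pow 2 915)]),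
  (nat_lit 0x20000000000000000000000000000000000000000000000000000000000000000000000000000000000000000000000000000000000000000000000000000000000000000000000000000000000000000000000000000000000000000000000000000000000000000000000000000000000000000000000000000000000000000000000000000000000000000000000000000000000000000000000000000000000, [Nat.sub (Nat.pow 2 689) (Nat.pow 2 0), Nat.sub (Nat.pow 2 1304) (Nat.pow 2 689), Nat.sub (Nat.pow 2 1559) (Nat.pow 2 1304), Nat.sub (Nat.pow 2 3136) (Nat.pow 2 1559)]),
  (nat_lit 0x200000000000000000000000000000000000000000000000000000000000000000000000000000000000000000000000000000000000000000000000000000000000000000000000000000000000000000000000000000000000000000000000000000000000000000000000000000000000000000000000000000000000000000000000000000000000000000000000000000000000000000000000000000000000000, [Nat.sub (Nat.pow 2 934) (Nat.pow 2 0), Nat.sub (Nat.pow 2 3136) (Nat.pow 2 934)]),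
  (nat_lit 0x10000000000000000000000000000000000000000000000000000000000000000000000000000000000000000000000000000000000000000000000000000000000000000000000000000000000000000000000000000000000000000000000000000000000000000000000000000000000000000000000000000000000000000000000000000000000000000000000000000000000000000000000000000, [cP]),
  (nat_lit 0x2000000000000000000000000000000000000000000000000000000000000000000000000000000000000000000000000000000000000000000000000000000000000000000000000000000000000000000000000000000000000000000000000000000000000000000000000000000000000000000000000000000000000000000000000000000000000000000000000000000000000000000000000000000000000000, [Nat.sub (Nat.pow 2 789) (Nat.pow 2 0), Nat.sub (Nat.pow 2 3136) (Nat.pow 2 789)]),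
  (nat_lit 0x400000000000000000000000000000000000000000000000000000000000000000000000000000000000000000000000000000000000000000000000000000000000000000000000000000000000000000000000000000000000000000000000000000000000000000000000000000000000000000000000000000000000000000000000000000000000000000000000000000000000000000000000000000000000000, [cP]),
  (nat_lit 0x40000000000000000000000000000000000000000000000000000000000000000000000000000000000000000000000000000000000000000000000000000000000000000000000000000000000000000000000000000000000000000000000000000000000000000000000000000000000000000000000000000000000000000000000000000000000000000000000000000000000000000000000000000000000000000, [cP]),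
  (nat_lit 0x200000000000000000000000000000000000000000000000000000000000000000000000000000000000000000000000000000000000000000000000000000000000000000000000000000000000000000000000000000000000000000000000000000000000000000000000000000000000000000000000000000000000000000000000000000000000000000000000000000000000000000000000000000000000000000000000000000000000, [Nat.sub (Nat.pow 2 884) (Nat.pow 2 0), Nat.sub (Nat.pow 2 3136) (Nat.pow 2 884)]),
  (nat_lit 0x2000001000000000000000000000000000000000000000000000000000000000000000000000000000000000000000000000000000000000000000000000000000000000000000000000000000000000000000000000000000000000000000000000000000000000000000000000000000000000000000000000000000000000000000000000000000000000000000000000000000000000000000000000000000000000000000000000000000000000, [cP]),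
  (nat_lit 0x40000000000000000000000000000000000000000000000000000000000000000000000000000000000000000000000000000000000000000000000000000000000000000000000000000000000000000000000000000000000000000000000000000000000000000000000000000000000000000000000000000000000000000000000000000000000000000000000000000000000000000000000000000000000000000000000000000000000000000, [Nat.sub (Nat.pow 2 885) (Nat.pow 2 0), Nat.sub (Nat.pow 2 3136) (Nat.pow 2 885)]),
  (nat_lit 0x400000000000000000000000000000000000000000000000000000000000000000000000000000000000000000000000000000000000000000000000000000000000000000000000000000000000000000000000000000000000000000000000000000000000000000000000000000000000000000000000000000000000000000000000000000000000000000000000000000000000000000000000000000000000000000000000000000000000000000, [Nat.sub (Nat.pow 2 940) (Nat.pow 2 0), Nat.sub (Nat.pow 2 3136) (Nat.pow 2 940)]),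
  (nat_lit 0x4000000000000000000000000000000000000000000000000000000000000000000000000000000000000000000000000000000000000000000000000000000000000000000000000000000000000000000000000000000000000000000000000000000000000000000000000000000000000000000000000000000000000000000000000000000000000000000000000000000000000000000000000000000000000000000000000000000000000000, [cP]),
  (nat_lit 0x4000000000000000000000000000000000000000000000000000000000000000000000000000000000000000000000000000000000000000000000000000000000000000000000000000000000000000000000000000000000000000000000000000000000000000000000000000000000000000000000000000000000000000000000000000000000000000000000000000000000000000000000000000000000000000000000000000000000000000000000, [Nat.sub (Nat.pow 2 940) (Nat.pow 2 0), Nat.sub (Nat.pow 2 1564) (Nat.pow 2 940), Nat.sub (Nat.pow 2 3136) (Nat.pow 2 1564)]),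
  (nat_lit 0x40000000000000000000000000000000000000000000000000000000000000000000000000000000000000000000000000000000000000000000000000000000000000000000000000000000000000000000000000000000000000000000000000000000000000000000000000000000000000000000000000000000000000000000000000000000000000000000000000000000000000000000000000000000000000000000000000000000000000000000000, [Nat.sub (Nat.pow 2 885) (Nat.pow 2 0), Nat.sub (Nat.pow 2 1564) (Nat.pow 2 885), Nat.sub (Nat.pow 2 3136) (Nat.pow 2 1564)]),
  (nat_lit 0x2000000000000000000000000000000000000000000000000000000000000000000000000000000000000000000000000000000000000000000000000000000000000000000000000000000000000000000000000000000000000000000000000000000000000000000000000000000000000000000000000000000000000000000000000000000000000000000000000000000000000000000000000000000000000000000000000000000000000000000000, [cP]),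
  (nat_lit 0x10000000000000000000000000000000000000000000000000000000000000000000000000000000000000000000000000000000000000000000000000000000000000000000000000000000000000000000000000000000000000000000000000000000000000000000000000000000000000000000000000000000000000000000000000000000000000000000000000000000000000000000000000000000000000000000000000000000000000000000000000000000000000000, [Nat.sub (Nat.pow 2 885) (Nat.pow 2 0), Nat.sub (Nat.pow 2 3136) (Nat.pow 2 885)]),
  (nat_lit 0x100000000000000000000000000000000000000000000000000000000000000000000000000000000000000000000000000000000000000000000000000000000000000000000000000000000000000000000000000000000000000000000000000000000000000000000000000000000000000000000000000000000000000000000000000000000000000000000000000000000000000000000000000000000000000000000000000000000000000000000000, [cP]),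
  (nat_lit 0x8000000000000000000000000000000000000000000000000000000000000000000000000000000000000000000000000000000000000000000000000000000000000000000000000000000000000000000000000000000000000000000000000000000000000000000000000000000000000000000000000000000000000000000000000000000000000000000000000000000000000000000000000000000000000000000000000000000000000000000000000000000000000000000, [Nat.sub (Nat.pow 2 940) (Nat.pow 2 0), Nat.sub (Nat.pow 2 3136) (Nat.pow 2 940)]),
  (nat_lit 0x10000000000000000000000000000000000000000000000000000000000000000000000000000000000000000000000000000000000000000000000000000000000000000000000000000000000000000000000000000000000000000000000000000000000000000000000000000000000000000000000000000000000000000000000000000000000000000000000000000000000000000000000000000000000000000000000000000000000000000000000000000000000000000000, [Nat.sub (Nat.pow 2 916) (Nat.pow 2 0), Nat.sub (Nat.pow 2 3136) (Nat.pow 2 916)]),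
  (nat_lit 0x20000000000000000000000000000000000000000000000000000000000000000000000000000000000000000000000000000000000000000000000000000000000000000000000000000000000000000000000000000000000000000000000000000000000000000000000000000000000000000000000000000000000000000000000000000000000000000000000000000000000000000000000000000000000000000000000000000000000000000000000000000000000000000000000, [Nat.sub (Nat.pow 2 889) (Nat.pow 2 0), Nat.sub (Nat.pow 2 3136) (Nat.pow 2 889)]),
  (nat_lit 0x20000000000000000000000000000000000000000000000000000000000000000000000000000000000000000000000000000000000000000000000000000000000000000000000000000000000000000000000000000000000000000000000000000000000000000000000000000000000000000000000000000000000000000000000000000000000000000000000000000000000000000000000000000000000000000000000000000000000000000000000000000000000000000, [cP]),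
  (nat_lit 0x800000000000000000000000000000000000000000000000000000000000000000000000000000000000000000000000000000000000000000000000000000000000000000000000000000000000000000000000000000000000000000000000000000000000000000000000000000000000000000000000000000000000000000000000000000000000000000000000000000000000000000000000000000000000000000000000000000000000000000000000000000000000000000000000, [Nat.sub (Nat.pow 2 916) (Nat.pow 2 0), Nat.sub (Nat.pow 2 1540) (Nat.pow 2 916), Nat.sub (Nat.pow 2 3136) (Nat.pow 2 1540)]),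
  (nat_lit 0x80000000000000000000000000000000000000000000000000000000000000000000000000000000000000000000000000000000000000000000000000000000000000000000000000000000000000000000000000000000000000000000000000000000000000000000000000000000000000000000000000000000000000000000000000000000000000000000000000000000000000000000000000000000000000000000000000000000000000000000000000000000000000000000000, [cP]),
  (nat_lit 0x8000000000000000000000000000000000000000000000000000000000000000000000000000000000000000000000000000000000000000000000000000000000000000000000000000000000000000000000000000000000000000000000000000000000000000000000000000000000000000000000000000000000000000000000000000000000000000000000000000000000000000000000000000000000000000000000000000000000000000000000000000000000000000000000000, [Nat.sub (Nat.pow 2 934) (Nat.pow 2 0), Nat.sub (Nat.pow 2 3136) (Nat.pow 2 934)]),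
  (nat_lit 0x1000000000000000000000000000000000000000000000000000000000000000000000000000000000000000000000000000000000000000000000000000000000000000000000000000000000000000000000000000000000000000000000000000000000000000000000000000000000000000000000000000000000000000000000000000000000000000000000000000000000000000000000000000000000000000000000000000000000000000000000000000000000000000000000000, [cP]),
  (nat_lit 0x40000000000000000000000000000000000000000000000000000000000000000000000000000000000000000000000000000000000000000000000000000000000000000000000000000000000000000000000000000000000000000000000000000000000000000000000000000000000000000000000000000000000000000000000000000000000000000000000000000000000000000000000000000000000000000000000000000000000000000000000000000000000000000000000000000, [Nat.sub (Nat.pow 2 939) (Nat.pow 2 0), Nat.sub (Nat.pow 2 1564) (Nat.pow 2 939), Nat.sub (Nat.pow 2 3136) (Nat.pow 2 1564)]),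
  (nat_lit 0x100000000000000000000000000000000000000000000000000000000000000000000000000000000000000000000000000000000000000000000000000000000000000000000000000000000000000000000000000000000000000000000000000000000000000000000000000000000000000000000000000000000000000000000000000000000000000000000000000000000000000000000000000000000000000000000000000000000000000000000000000000000000000000000000000000, [Nat.sub (Nat.pow 2 880) (Nat.pow 2 0), Nat.sub (Nat.pow 2 1386) (Nat.pow 2 880), Nat.sub (Nat.pow 2 3136) (Nat.pow 2 1386)]),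
  (nat_lit 0x800000000000000000000000000000000000000000000000000000000000000000000000000000000000000000000000000000000000000000000000000000000000000000000000000000000000000000000000000000000000000000000000000000000000000000000000000000000000000000000000000000000000000000000000000000000000000000000000000000000000000000000000000000000000000000000000000000000000000000000000000000000000000000000000000000, [Nat.sub (Nat.pow 2 814) (Nat.pow 2 0), Nat.sub (Nat.pow 2 3136) (Nat.pow 2 814)]),
  (nat_lit 0x20000000000000000000000000000000000000000000000000000000000000000000000000000000000000000000000000000000000000000000000000000000000000000000000000000000000000000000000000000000000000000000000000000000000000000000000000000000000000000000000000000000000000000000000000000000000000000000000000000000000000000000000000000000000000000000000000000000000000000000000000000000000000000000000000, [cP]),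
  (nat_lit 0x1000000000000000000000000000000000000000000000000000000000000000000000000000000000000000000000000000000000000000000000000000000000000000000000000000000000000000000000000000000000000000000000000000000000000000000000000000000000000000000000000000000000000000000000000000000000000000000000000000000000000000000000000000000000000000000000000000000000000000000000000000000000000000000000000000000, [cP]),
  (nat_lit 0x20000000000000000000000000000000000000000000000000000000000000000000000000000000000000000000000000000000000000000000000000000000000000000000000000000000000000000000000000000000000000000000000000000000000000000000000000000000000000000000000000000000000000000000000000000000000000000000000000000000000000000000000000000000000000000000000000000000000000000000000000000000000000000000000000000000, [cP])]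

theorem hp1 : ∀ p ∈ L1, ∀ D2 ∈ p.2, ∃ e,
    search ext94 (Pool.Agent.H74.EGZ.vio sb) G Uc A0 p.1 D2 e = true :=
  (List.forall_mem_cons.2 ⟨(List.forall_mem_cons.2 ⟨⟨e95, by decide +kernel⟩,
  (List.forall_mem_singleton.2 ⟨e96, by decide +kernel⟩)⟩),
  (List.forall_mem_cons.2 ⟨(List.forall_mem_cons.2 ⟨⟨e97, by decide +kernel⟩,
  (List.forall_mem_cons.2 ⟨⟨e98, by decide +kernel⟩,
  (List.forall_mem_cons.2 ⟨⟨e99, by decide +kernel⟩,
  (List.forall_mem_singleton.2 ⟨e100, by decide +kernel⟩)⟩)⟩)⟩),
  (List.forall_mem_cons.2 ⟨(List.forall_mem_cons.2 ⟨⟨e101, by decide +kernel⟩,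
  (List.forall_mem_cons.2 ⟨⟨e102, by decide +kernel⟩,
  (List.forall_mem_singleton.2 ⟨.leaf, by decide +kernel⟩)⟩)⟩),
  (List.forall_mem_cons.2 ⟨(List.forall_mem_singleton.2 ⟨e104, by decide +kernel⟩),
  (List.forall_mem_cons.2 ⟨(List.forall_mem_cons.2 ⟨⟨e105, by decide +kernel⟩,
  (List.forall_mem_singleton.2 ⟨e106, by decide +kernel⟩)⟩),
  (List.forall_mem_cons.2 ⟨(List.forall_mem_singleton.2 ⟨e107, by decide +kernel⟩),
  (List.forall_mem_cons.2 ⟨(List.forall_mem_cons.2 ⟨⟨e108, by decide +kernel⟩,
  (List.forall_mem_cons.2 ⟨⟨e109, by decide +kernel⟩,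
  (List.forall_mem_singleton.2 ⟨.leaf, by decide +kernel⟩)⟩)⟩),
  (List.forall_mem_cons.2 ⟨(List.forall_mem_singleton.2 ⟨e111, by decide +kernel⟩),
  (List.forall_mem_cons.2 ⟨(List.forall_mem_singleton.2 ⟨e112, by decide +kernel⟩),
  (List.forall_mem_cons.2 ⟨(List.forall_mem_cons.2 ⟨⟨e113, by decide +kernel⟩,
  (List.forall_mem_cons.2 ⟨⟨e114, by decide +kernel⟩,
  (List.forall_mem_singleton.2 ⟨e115, by decide +kernel⟩)⟩)⟩),
  (List.forall_mem_cons.2 ⟨(List.forall_mem_singleton.2 ⟨e116, by decide +kernel⟩),
  (List.forall_mem_cons.2 ⟨(List.forall_mem_singleton.2 ⟨e117, by decide +kernel⟩),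
  (List.forall_mem_cons.2 ⟨(List.forall_mem_singleton.2 ⟨e118, by decide +kernel⟩),
  (List.forall_mem_cons.2 ⟨(List.forall_mem_cons.2 ⟨⟨e119, by decide +kernel⟩,
  (List.forall_mem_singleton.2 ⟨e120, by decide +kernel⟩)⟩),
  (List.forall_mem_cons.2 ⟨(List.forall_mem_singleton.2 ⟨e121, by decide +kernel⟩),
  (List.forall_mem_cons.2 ⟨(List.forall_mem_cons.2 ⟨⟨e122, by decide +kernel⟩,
  (List.forall_mem_singleton.2 ⟨e123, by decide +kernel⟩)⟩),
  (List.forall_mem_cons.2 ⟨(List.forall_mem_singleton.2 ⟨e124, by decide +kernel⟩),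
  (List.forall_mem_cons.2 ⟨(List.forall_mem_cons.2 ⟨⟨e125, by decide +kernel⟩,
  (List.forall_mem_cons.2 ⟨⟨e126, by decide +kernel⟩,
  (List.forall_mem_cons.2 ⟨⟨e127, by decide +kernel⟩,
  (List.forall_mem_singleton.2 ⟨.leaf, by decide +kernel⟩)⟩)⟩)⟩),
  (List.forall_mem_cons.2 ⟨(List.forall_mem_singleton.2 ⟨.leaf, by decide +kernel⟩),
  (List.forall_mem_cons.2 ⟨(List.forall_mem_cons.2 ⟨⟨e130, by decide +kernel⟩,
  (List.forall_mem_cons.2 ⟨⟨e131, by decide +kernel⟩,
  (List.forall_mem_cons.2 ⟨⟨e132, by decide +kernel⟩,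
  (List.forall_mem_singleton.2 ⟨.leaf, by decide +kernel⟩)⟩)⟩)⟩),
  (List.forall_mem_cons.2 ⟨(List.forall_mem_cons.2 ⟨⟨e134, by decide +kernel⟩,
  (List.forall_mem_cons.2 ⟨⟨e135, by decide +kernel⟩,
  (List.forall_mem_singleton.2 ⟨e136, by decide +kernel⟩)⟩)⟩),
  (List.forall_mem_cons.2 ⟨(List.forall_mem_cons.2 ⟨⟨e137, by decide +kernel⟩,
  (List.forall_mem_singleton.2 ⟨e138, by decide +kernel⟩)⟩),
  (List.forall_mem_cons.2 ⟨(List.forall_mem_cons.2 ⟨⟨e139, by decide +kernel⟩,
  (List.forall_mem_singleton.2 ⟨e140, by decide +kernel⟩)⟩),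
  (List.forall_mem_cons.2 ⟨(List.forall_mem_cons.2 ⟨⟨e141, by decide +kernel⟩,
  (List.forall_mem_cons.2 ⟨⟨e142, by decide +kernel⟩,
  (List.forall_mem_cons.2 ⟨⟨e143, by decide +kernel⟩,
  (List.forall_mem_singleton.2 ⟨e144, by decide +kernel⟩)⟩)⟩)⟩),
  (List.forall_mem_cons.2 ⟨(List.forall_mem_cons.2 ⟨⟨e145, by decide +kernel⟩,
  (List.forall_mem_singleton.2 ⟨e146, by decide +kernel⟩)⟩),
  (List.forall_mem_cons.2 ⟨(List.forall_mem_singleton.2 ⟨.leaf, by decide +kernel⟩),
  (List.forall_mem_cons.2 ⟨(List.forall_mem_cons.2 ⟨⟨e148, by decide +kernel⟩,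
  (List.forall_mem_singleton.2 ⟨e149, by decide +kernel⟩)⟩),
  (List.forall_mem_cons.2 ⟨(List.forall_mem_singleton.2 ⟨.leaf, by decide +kernel⟩),
  (List.forall_mem_cons.2 ⟨(List.forall_mem_singleton.2 ⟨e151, by decide +kernel⟩),
  (List.forall_mem_cons.2 ⟨(List.forall_mem_cons.2 ⟨⟨e152, by decide +kernel⟩,
  (List.forall_mem_singleton.2 ⟨.leaf, by decide +kernel⟩)⟩),
  (List.forall_mem_cons.2 ⟨(List.forall_mem_singleton.2 ⟨e154, by decide +kernel⟩),
  (List.forall_mem_cons.2 ⟨(List.forall_mem_cons.2 ⟨⟨e155, by decide +kernel⟩,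
  (List.forall_mem_singleton.2 ⟨e156, by decide +kernel⟩)⟩),
  (List.forall_mem_cons.2 ⟨(List.forall_mem_cons.2 ⟨⟨e157, by decide +kernel⟩,
  (List.forall_mem_singleton.2 ⟨e158, by decide +kernel⟩)⟩),
  (List.forall_mem_cons.2 ⟨(List.forall_mem_singleton.2 ⟨e159, by decide +kernel⟩),
  (List.forall_mem_cons.2 ⟨(List.forall_mem_cons.2 ⟨⟨e160, by decide +kernel⟩,
  (List.forall_mem_cons.2 ⟨⟨e161, by decide +kernel⟩,
  (List.forall_mem_singleton.2 ⟨.leaf, by decide +kernel⟩)⟩)⟩),
  (List.forall_mem_cons.2 ⟨(List.forall_mem_cons.2 ⟨⟨e163, by decide +kernel⟩,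
  (List.forall_mem_cons.2 ⟨⟨e164, by decide +kernel⟩,
  (List.forall_mem_singleton.2 ⟨e165, by decide +kernel⟩)⟩)⟩),
  (List.forall_mem_cons.2 ⟨(List.forall_mem_singleton.2 ⟨.leaf, by decide +kernel⟩),
  (List.forall_mem_cons.2 ⟨(List.forall_mem_cons.2 ⟨⟨e167, by decide +kernel⟩,
  (List.forall_mem_singleton.2 ⟨e168, by decide +kernel⟩)⟩),
  (List.forall_mem_cons.2 ⟨(List.forall_mem_singleton.2 ⟨e169, by decide +kernel⟩),
  (List.forall_mem_cons.2 ⟨(List.forall_mem_cons.2 ⟨⟨e170, by decide +kernel⟩,
  (List.forall_mem_singleton.2 ⟨e171, by decide +kernel⟩)⟩),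
  (List.forall_mem_cons.2 ⟨(List.forall_mem_cons.2 ⟨⟨e172, by decide +kernel⟩,
  (List.forall_mem_singleton.2 ⟨e173, by decide +kernel⟩)⟩),
  (List.forall_mem_cons.2 ⟨(List.forall_mem_cons.2 ⟨⟨e174, by decide +kernel⟩,
  (List.forall_mem_singleton.2 ⟨e175, by decide +kernel⟩)⟩),
  (List.forall_mem_cons.2 ⟨(List.forall_mem_singleton.2 ⟨e176, by decide +kernel⟩),
  (List.forall_mem_cons.2 ⟨(List.forall_mem_cons.2 ⟨⟨e177, by decide +kernel⟩,
  (List.forall_mem_cons.2 ⟨⟨e178, by decide +kernel⟩,
  (List.forall_mem_singleton.2 ⟨.leaf, by decide +kernel⟩)⟩)⟩),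
  (List.forall_mem_cons.2 ⟨(List.forall_mem_singleton.2 ⟨.leaf, by decide +kernel⟩),
  (List.forall_mem_cons.2 ⟨(List.forall_mem_cons.2 ⟨⟨e181, by decide +kernel⟩,
  (List.forall_mem_singleton.2 ⟨e182, by decide +kernel⟩)⟩),
  (List.forall_mem_cons.2 ⟨(List.forall_mem_singleton.2 ⟨e183, by decide +kernel⟩),
  (List.forall_mem_cons.2 ⟨(List.forall_mem_cons.2 ⟨⟨e184, by decide +kernel⟩,
  (List.forall_mem_cons.2 ⟨⟨e185, by decide +kernel⟩,
  (List.forall_mem_singleton.2 ⟨.leaf, by decide +kernel⟩)⟩)⟩),
  (List.forall_mem_cons.2 ⟨(List.forall_mem_cons.2 ⟨⟨e187, by decide +kernel⟩,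
  (List.forall_mem_cons.2 ⟨⟨e188, by decide +kernel⟩,
  (List.forall_mem_singleton.2 ⟨.leaf, by decide +kernel⟩)⟩)⟩),
  (List.forall_mem_cons.2 ⟨(List.forall_mem_cons.2 ⟨⟨e190, by decide +kernel⟩,
  (List.forall_mem_singleton.2 ⟨e191, by decide +kernel⟩)⟩),
  (List.forall_mem_cons.2 ⟨(List.forall_mem_singleton.2 ⟨e192, by decide +kernel⟩),
  (List.forall_mem_cons.2 ⟨(List.forall_mem_singleton.2 ⟨.leaf, by decide +kernel⟩),
  (List.forall_mem_singleton.2 (List.forall_mem_singleton.2 ⟨e194, by decide +kernel⟩))⟩)⟩)⟩)⟩)⟩)⟩)⟩)⟩)⟩)⟩)⟩)⟩)⟩)⟩)⟩)⟩)⟩)⟩)⟩)⟩)⟩)⟩)⟩)⟩)⟩)⟩)⟩)⟩)⟩)⟩)⟩)⟩)⟩)⟩)⟩)⟩)⟩)⟩)⟩)⟩)⟩)⟩)⟩)⟩)⟩)⟩)⟩)⟩)⟩)⟩)⟩)⟩)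

end

end Pool.Agent.H21.EGZ.S8
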