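import Pool.Agent.H21.EGZ.D9

/-!
# Stage 9 : search, part 0
-/

set_option autoImplicit false
set_option maxRecDepth 100000

namespace Pool.Agent.H21.EGZ.S9

noncomputable section

open Pool.Agent.H74.EGZ Pool.Agent.H94.Lift

/-- refutations 2 -/
def e2 : EX := (.node .leaf (nat_lit 458703041479316) (.br (nat_lit 0) (.cons (.br (nat_lit 1) (.cons (.rel (nat_lit 22040580)) .nil)) .nil)) .leaf)

/-- refutations 3 -/
def e3 : EX := (.node (.node (.node .leaf (nat_lit 556611637125155) (.br (nat_lit 0) (.cons (.br (nat_lit 1) (.cons (.rel (nat_lit 25235460)) .nil)) .nil)) .leaf) (nat_lit 557169075533311) (.br (nat_lit 0) (.cons (.br (nat_lit 1) (.cons (.rel (nat_lit 20992320)) .nil)) .nil)) (.node .leaf (nat_lit 557170083560229) (.br (nat_lit 0) (.cons (.br (nat_lit 1) (.cons (.rel (nat_lit 21631044)) .nil)) .nil)) .leaf)) (nat_lit 557229204370209) (.br (nat_lit 0) (.cons (.br (nat_lit 2) (.cons (.rel (nat_lit 71303202)) .nil)) .nil)) (.node (.node .leaf (nat_lit 558260502174497) (.br (nat_lit 0) (.cons (.br (nat_lit 2) (.cons (.rel (nat_lit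 142606353)) .nil)) .nil)) .leaf) (nat_lit 558501148028963) (.br (nat_lit 0) (.cons (.br (nat_lit 1) (.cons (.rel (nat_lit 20973828)) .nil)) .nil)) (.node .leaf (nat_lit 558501150269695) (.br (nat_lit 0) (.cons (.br (nat_lit 2) (.cons (.rel (nat_lit 71307396)) .nil)) .nil)) .leaf)))

/-- refutations 4 -/
def e4 : EX := (.node .leaf (nat_lit 903109066140285) (.br (nat_lit 0) (.cons (.br (nat_lit 1) (.cons (.rel (nat_lit 20973828)) .nil)) .nil)) .leaf)

/-- refutations 5 -/
def e5 : EX := (.node (.node .leaf (nat_lit 907983058309120) (.br (nat_lit 0) (.cons (.br (nat_lit 1) (.cons (.rel (nat_lit 20973828)) .nil)) .nil)) .leaf) (nat_lit 910519085503226) (.br (nat_lit 0) (.cons (.br (nat_lit 1) (.cons (.rel (nat_lit 37765122)) .nil)) .nil)) .leaf)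

/-- refutations 6 -/
def e6 : EX := (.node (.node .leaf (nat_lit 644362248065024) (.br (nat_lit 1) (.cons (.br (nat_lit 2) (.cons (.rel (nat_lit 152113152)) .nil)) .nil)) .leaf) (nat_lit 644537202507788) (.br (nat_lit 0) (.cons (.br (nat_lit 4) (.cons (.rel (nat_lit 1077937281)) .nil)) .nil)) .leaf)

/-- refutations 8 -/
def e8 : EX := (.node (.node (.node .leaf (nat_lit 1073561461054221) (.br (nat_lit 0) (.cons (.br (nat_lit 4) (.cons (.rel (nat_lit 1077944322)) .nil)) .nil)) .leaf) (nat_lit 1073561461872646) (.br (nat_lit 1) (.cons (.br (nat_lit 2) (.cons (.rel (nat_lit 83890242)) .nil)) .nil)) (.node .leaf (nat_lit 1073565137671700) (.br (nat_lit 1) (.cons (.br (nat_lit 2) (.cons (.rel (nat_lit 84148548)) .nil)) .nil)) .leaf)) (nat_lit 1075374676494518) (.br (nat_lit 3) (.cons (.br (nat_lit 4) (.cons (.rel (nat_lit 1342455936)) .nil)) .nil)) (.node (.node .leaf (nat_lit 1078726846703616) (.br (nat_lit 0) (.cons (.br (nat_lit 1) (.cons (.rel (nat_lit 20973828)) .nil)) .nil)) .leaf) (nat_lit 1078726847093517) (.br (nat_lit 0) (.cons (.br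 (nat_lit 1) (.cons (.rel (nat_lit 20973828)) .nil)) .nil)) .leaf))

/-- refutations 9 -/
def e9 : EX := (.node (.node .leaf (nat_lit 1081083427589651) (.br (nat_lit 0) (.cons (.br (nat_lit 2) (.cons (.rel (nat_lit 71323713)) .nil)) .nil)) .leaf) (nat_lit 1083906577262592) (.br (nat_lit 1) (.cons (.br (nat_lit 3) (.cons (.rel (nat_lit 302383104)) .nil)) .nil)) (.node .leaf (nat_lit 1085364030771880) (.br (nat_lit 0) (.cons (.br (nat_lit 1) (.cons (.rel (nat_lit 22028304)) .nil)) .nil)) .leaf))

/-- refutations 11 -/
def e11 : EX := (.node .leaf (nat_lit 2246502595431060) (.br (nat_lit 0) (.cons (.br (nat_lit 1) (.cons (.rel (nat_lit 22151169)) .nil)) .nil)) .leaf)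

/-- refutations 12 -/
def e12 : EX := (.node (.node .leaf (nat_lit 985647175297199) (.br (nat_lit 1) (.cons (.br (nat_lit 4) (.cons (.rel (nat_lit 1093140480)) .nil)) .nil)) .leaf) (nat_lit 997454665322678) (.br (nat_lit 1) (.cons (.br (nat_lit 4) (.cons (.rel (nat_lit 1090560000)) .nil)) .nil)) .leaf)

/-- refutations 14 -/
def e14 : EX := (.node (.node .leaf (nat_lit 2664420583921850) (.br (nat_lit 1) (.cons (.br (nat_lit 4) (.cons (.rel (nat_lit 1090654272)) .nil)) .nil)) .leaf) (nat_lit 2667261240596480) (.br (nat_lit 0) (.cons (.br (nat_lit 5) (.cons (.rel (nat_lit 4299162897)) .nil)) .nil)) (.node .leaf (nat_lit 2667261746280448) (.br (nat_lit 0) (.cons (.br (nat_lit 1) (.cons (.rel (nat_lit 20971809)) .nil)) .nil)) .leaf))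

/-- refutations 15 -/
def e15 : EX := (.node (.node (.node (.node (.node .leaf (nat_lit 2745686743625740) (.br (nat_lit 1) (.cons (.br (nat_lit 2) (.cons (.rel (nat_lit 100991040)) .nil)) .nil)) .leaf) (nat_lit 2745686745225228) (.br (nat_lit 2) (.cons (.br (nat_lit 0) (.cons (.rel (nat_lit 77594628)) (.cons (.rel (nat_lit 75760704)) .nil))) .nil)) .leaf) (nat_lit 2745689943880455) (.br (nat_lit 1) (.cons (.br (nat_lit 2) (.cons (.rel (nat_lit 83903568)) .nil)) .nil)) (.node .leaf (nat_lit 2745689943881236) (.br (nat_lit 0) (.cons (.br (nat_lit 1) (.cons (.rel (nat_lit 22151169)) .nil)) .nil)) .leaf)) (nat_lit 2749985380950016) (.br (nat_lit 3) (.cons (.br (nat_lit 4) (.cons (.rel (nat_lit 2415920208)) .nil)) .nil)) (.node (.node .leaf (nat_lit 2749985383548928) (.br (nat_lit 1) (.cons (.br (nat_lit 3) (.cons (.rel (nat_lit 570429456)) .nil)) .nil)) .leaf) (nat_lit 2752369712739860) (.br (nat_lit 0) (.cons (.br (nat_lit 1) (.cons (.rel (nat_lit 25167012)) .nil)) .nil)) (.node .leaf (nat_lit 2752369714339348) (.br (nat_lit 0) (.cons (.br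 (nat_lit 1) (.cons (.rel (nat_lit 20973828)) .nil)) .nil)) .leaf))) (nat_lit 2752369715015692) (.br (nat_lit 1) (.cons (.br (nat_lit 2) (.cons (.rel (nat_lit 152113152)) .nil)) .nil)) (.node (.node (.node (.node .leaf (nat_lit 2752372912993031) (.br (nat_lit 1) (.cons (.br (nat_lit 3) (.cons (.rel (nat_lit 285475152)) .nil)) .nil)) .leaf) (nat_lit 2752372913208071) (.br (nat_lit 0) (.cons (.br (nat_lit 1) (.cons (.rel (nat_lit 25182276)) .nil)) .nil)) .leaf) (nat_lit 2752372914243766) (.br (nat_lit 0) (.cons (.br (nat_lit 2) (.cons (.rel (nat_lit 71369856)) .nil)) .nil)) (.node .leaf (nat_lit 2752372915270407) (.br (nat_lit 1) (.cons (.br (nat_lit 3) (.cons (.rel (nat_lit 285245448)) .nil)) .nil)) .leaf)) (nat_lit 2752376169024764) (.br (nat_lit 1) (.cons (.br (nat_lit 2) (.cons (.rel (nat_lit 84017157)) .nil)) .nil)) (.node (.node .leaf (nat_lit 2755212982340860) (.br (nat_lit 0) (.cons (.br (nat_lit 3) (.cons (.rel (nat_lit 272631825)) .nil)) .nil)) .leaf) (nat_lit 2755216181366784) (.br (nat_lit 1) (.cons (.br (nat_lit 3) (.cons (.rel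 (nat_lit 285234177)) .nil)) .nil)) (.node .leaf (nat_lit 2755216183620359) (.br (nat_lit 3) (.cons (.br (nat_lit 0) (.cons (.rel (nat_lit 545259525)) (.cons (.rel (nat_lit 272630820)) .nil))) .nil)) .leaf))))

/-- refutations 17 -/
def e17 : EX := (.node (.node (.node .leaf (nat_lit 2840376794119425) (.br (nat_lit 0) (.cons (.br (nat_lit 1) (.cons (.rel (nat_lit 25170000)) .nil)) .nil)) .leaf) (nat_lit 2840379313664680) (.br (nat_lit 0) (.cons (.br (nat_lit 6) (.cons (.rel (nat_lit 17184064656)) .nil)) .nil)) .leaf) (nat_lit 2844637841894927) (.br (nat_lit 0) (.cons (.br (nat_lit 2) (.cons (.rel (nat_lit 71303202)) .nil)) .nil)) (.node .leaf (nat_lit 2844639544782351) (.br (nat_lit 2) (.cons (.br (nat_lit 3) (.cons (.rel (nat_lit 603980817)) .nil)) .nil)) .leaf))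

/-- refutations 18 -/
def e18 : EX := (.node .leaf (nat_lit 3274827198172392) (.br (nat_lit 0) (.cons (.br (nat_lit 1) (.cons (.rel (nat_lit 22040580)) .nil)) .nil)) .leaf)

/-- refutations 19 -/
def e19 : EX := (.node (.node .leaf (nat_lit 3280184698830351) (.br (nat_lit 0) (.cons (.br (nat_lit 3) (.cons (.rel (nat_lit 272629770)) .nil)) .nil)) .leaf) (nat_lit 3282893798119424) (.br (nat_lit 1) (.cons (.br (nat_lit 2) (.cons (.rel (nat_lit 167773248)) .nil)) .nil)) .leaf)

/-- refutations 21 -/
def e21 : EX := (.node .leaf (nat_lit 4433664077664256) (.br (nat_lit 0) (.cons (.br (nat_lit 1) (.cons (.rel (nat_lit 25170000)) .nil)) .nil)) .leaf)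

/-- refutations 23 -/
def e23 : EX := (.node (.node .leaf (nat_lit 4504084363209590) (.br (nat_lit 0) (.cons (.br (nat_lit 3) (.cons (.rel (nat_lit 545259525)) .nil)) .nil)) .leaf) (nat_lit 4504943337133309) (.br (nat_lit 0) (.cons (.br (nat_lit 1) (.cons (.rel (nat_lit 20992320)) .nil)) .nil)) (.node .leaf (nat_lit 4509231806423815) (.br (nat_lit 0) (.cons (.br (nat_lit 1) (.cons (.rel (nat_lit 25235460)) .nil)) .nil)) .leaf))

/-- refutations 24 -/
def e24 : EX := (.node (.node (.node .leaf (nat_lit 4511636988109075) (.br (nat_lit 0) (.cons (.br (nat_lit 1) (.cons (.rel (nat_lit 25182276)) .nil)) .nil)) .leaf) (nat_lit 4514767113044619) (.br (nat_lit 0) (.cons (.br (nat_lit 2) (.cons (.rel (nat_lit 71304216)) .nil)) .nil)) .leaf) (nat_lit 4516702993902454) (.br (nat_lit 1) (.cons (.br (nat_lit 2) (.cons (.rel (nat_lit 83903568)) (.cons (.rel (nat_lit 83956752)) .nil))) .nil)) (.node .leaf (nat_lit 4516702996910966) (.br (nat_lit 2) (.cons (.br (nat_lit 0) (.cons (.rel (nat_lit 139460616)) (.cons (.rel (nat_lit 71304216)) .nil))) .nil))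 .leaf))

/-- refutations 25 -/
def e25 : EX := (.node (.node .leaf (nat_lit 3103205565722874) (.br (nat_lit 0) (.cons (.br (nat_lit 1) (.cons (.rel (nat_lit 25165962)) .nil)) .nil)) .leaf) (nat_lit 3109596476016640) (.br (nat_lit 1) (.cons (.br (nat_lit 6) (.cons (.rel (nat_lit 34377564162)) .nil)) .nil)) .leaf)

/-- refutations 26 -/
def e26 : EX := (.node .leaf (nat_lit 4532020928065536) (.br (nat_lit 0) (.cons (.br (nat_lit 1) (.cons (.rel (nat_lit 20971809)) .nil)) .nil)) .leaf)

/-- refutations 27 -/
def e27 : EX := (.node (.node .leaf (nat_lit 4599555010581155) (.br (nat_lit 0) (.cons (.br (nat_lit 2) (.cons (.rel (nat_lit 71304216)) .nil)) .nil)) .leaf) (nat_lit 4602393230384390) (.br (nat_lit 0) (.cons (.br (nat_lit 1) (.cons (.rel (nat_lit 21496896)) .nil)) .nil)) .leaf)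

/-- refutations 28 -/
def e28 : EX := (.node (.node (.node .leaf (nat_lit 4609199390028657) (.br (nat_lit 0) (.cons (.br (nat_lit 1) (.cons (.rel (nat_lit 22040580)) .nil)) .nil)) .leaf) (nat_lit 4614527371457772) (.br (nat_lit 0) (.cons (.br (nat_lit 2) (.cons (.rel (nat_lit 75760704)) .nil)) .nil)) .leaf) (nat_lit 4619934311657472) (.br (nat_lit 0) (.cons (.br (nat_lit 1) (.cons (.rel (nat_lit 37748805)) .nil)) .nil)) (.node .leaf (nat_lit 4619934312463893) (.br (nat_lit 0) (.cons (.br (nat_lit 1) (.cons (.rel (nat_lit 20971809)) .nil)) .nil)) .leaf))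

/-- refutations 33 -/
def e33 : EX := (.node .leaf (nat_lit 5042146227318784) (.br (nat_lit 0) (.cons (.br (nat_lit 1) (.cons (.rel (nat_lit 25297920)) .nil)) .nil)) .leaf)

/-- refutations 34 -/
def e34 : EX := (.node .leaf (nat_lit 4943897617244935) (.br (nat_lit 0) (.cons (.br (nat_lit 4) (.cons (.rel (nat_lit 1077937281)) .nil)) .nil)) .leaf)

/-- refutations 36 -/
def e36 : EX := (.node (.node .leaf (nat_lit 5383699089175839) (.br (nat_lit 0) (.cons (.br (nat_lit 3) (.cons (.rel (nat_lit 272667648)) .nil)) .nil)) .leaf) (nat_lit 5383699091611803) (.br (nat_lit 0) (.cons (.br (nat_lit 1) (.cons (.rel (nat_lit 25170000)) .nil)) .nil)) (.node .leaf (nat_lit 5389056423066230) (.br (nat_lit 0) (.cons (.br (nat_lit 4) (.cons (.rel (nat_lit 1077969924)) .nil)) .nil)) .leaf))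

/-- refutations 37 -/
def e37 : EX := (.node (.node (.node .leaf (nat_lit 5394462480572671) (.br (nat_lit 0) (.cons (.br (nat_lit 1) (.cons (.rel (nat_lit 37753860)) .nil)) .nil)) .leaf) (nat_lit 5394462799339702) (.br (nat_lit 0) (.cons (.br (nat_lit 1) (.cons (.rel (nat_lit 37765122)) .nil)) .nil)) .leaf) (nat_lit 5396584758302720) (.br (nat_lit 0) (.cons (.br (nat_lit 4) (.cons (.rel (nat_lit 2155937808)) .nil)) .nil)) (.node .leaf (nat_lit 5396588709337993) (.br (nat_lit 0) (.cons (.br (nat_lit 1) (.cons (.rel (nat_lit 37748805)) .nil)) .nil)) .leaf))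

/-- refutations 39 -/
def e39 : EX := (.node .leaf (nat_lit 5460339054336186) (.br (nat_lit 1) (.cons (.br (nat_lit 2) (.cons (.rel (nat_lit 167773248)) .nil)) .nil)) .leaf)

/-- refutations 43 -/
def e43 : EX := (.node (.node .leaf (nat_lit 11091111469175596) (.br (nat_lit 1) (.cons (.br (nat_lit 2) (.cons (.rel (nat_lit 83910801)) .nil)) .nil)) .leaf) (nat_lit 11095983002276652) (.br (nat_lit 0) (.cons (.br (nat_lit 2) (.cons (.rel (nat_lit 71307396)) .nil)) .nil)) .leaf)

/-- refutations 44 -/
def e44 : EX := (.node (.node .leaf (nat_lit 11001787550304256) (.br (nat_lit 1) (.cons (.br (nat_lit 2) (.cons (.rel (nat_lit 167773248)) .nil)) .nil)) .leaf) (nat_lit 11003067762511381) (.br (nat_lit 0) (.cons (.br (nat_lit 2) (.cons (.rel (nat_lit 142606353)) .nil)) .nil)) (.node .leaf (nat_lit 11006285965226044) (.br (nat_lit 0) (.cons (.br (nat_lit 4) (.cons (.rel (nat_lit 1077942336)) .nil)) .nil)) .leaf))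

/-- refutations 46 -/
def e46 : EX := (.node (.node (.node .leaf (nat_lit 11217065634664448) (.br (nat_lit 0) (.cons (.br (nat_lit 2) (.cons (.rel (nat_lit 142639188)) .nil)) .nil)) .leaf) (nat_lit 11217179929569466) (.br (nat_lit 0) (.cons (.br (nat_lit 4) (.cons (.rel (nat_lit 1078018053)) .nil)) .nil)) .leaf) (nat_lit 11217392285778602) (.br (nat_lit 0) (.cons (.br (nat_lit 1) (.cons (.rel (nat_lit 37753860)) .nil)) .nil)) (.node .leaf (nat_lit 11219382941753499) (.br (nat_lit 0) (.cons (.br (nat_lit 2) (.cons (.rel (nat_lit 71307396)) .nil)) .nil)) .leaf))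

/-- refutations 47 -/
def e47 : EX := (.node (.node .leaf (nat_lit 11470634662996148) (.br (nat_lit 0) (.cons (.br (nat_lit 1) (.cons (.rel (nat_lit 21045504)) .nil)) .nil)) .leaf) (nat_lit 11471459716152577) (.br (nat_lit 0) (.cons (.br (nat_lit 1) (.cons (.rel (nat_lit 37765122)) .nil)) .nil)) (.node .leaf (nat_lit 11475748914494726) (.br (nat_lit 0) (.cons (.br (nat_lit 1) (.cons (.rel (nat_lit 25170000)) .nil)) .nil)) .leaf))

/-- refutations 48 -/
def e48 : EX := (.node .leaf (nat_lit 11483208667470710) (.br (nat_lit 1) (.cons (.br (nat_lit 0) (.cons (.rel (nat_lit 22103040)) (.cons (.rel (nat_lit 25297920)) (.cons (.rel (nat_lit 25235460)) .nil)))) .nil)) .leaf)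

/-- refutations 49 -/
def e49 : EX := (.node .leaf (nat_lit 11540563638606010) (.br (nat_lit 1) (.cons (.br (nat_lit 2) (.cons (.rel (nat_lit 167788560)) .nil)) .nil)) .leaf)

/-- refutations 50 -/
def e50 : EX := (.node (.node .leaf (nat_lit 11553422966274975) (.br (nat_lit 0) (.cons (.br (nat_lit 1) (.cons (.rel (nat_lit 20973828)) .nil)) .nil)) .leaf) (nat_lit 11553422967887135) (.br (nat_lit 0) (.cons (.br (nat_lit 2) (.cons (.rel (nat_lit 71305221)) .nil)) .nil)) (.node .leaf (nat_lit 11553668960742252) (.br (nat_lit 0) (.cons (.br (nat_lit 2) (.cons (.rel (nat_lit 77594628)) .nil)) .nil)) .leaf))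

/-- refutations 51 -/
def e51 : EX := (.node .leaf (nat_lit 11465676594211698) (.br (nat_lit 0) (.cons (.br (nat_lit 1) (.cons (.rel (nat_lit 20973828)) .nil)) .nil)) .leaf)

/-- refutations 52 -/
def e52 : EX := (.node (.node .leaf (nat_lit 11628868167394560) (.br (nat_lit 0) (.cons (.br (nat_lit 1) (.cons (.rel (nat_lit 20973828)) .nil)) .nil)) .leaf) (nat_lit 11639216542965760) (.br (nat_lit 0) (.cons (.br (nat_lit 1) (.cons (.rel (nat_lit 20973828)) .nil)) .nil)) (.node .leaf (nat_lit 11639453060999195) (.br (nat_lit 3) (.cons (.br (nat_lit 4) (.cons (.rel (nat_lit 1344405504)) .nil)) .nil)) .leaf))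

/-- refutations 55 -/
def e55 : EX := (.node (.node (.node .leaf (nat_lit 11646511060836352) (.br (nat_lit 0) (.cons (.br (nat_lit 1) (.cons (.rel (nat_lit 20971809)) .nil)) .nil)) .leaf) (nat_lit 11651630661172582) (.br (nat_lit 0) (.cons (.br (nat_lit 1) (.cons (.rel (nat_lit 21512208)) .nil)) .nil)) (.node .leaf (nat_lit 11656764605324045) (.br (nat_lit 0) (.cons (.br (nat_lit 2) (.cons (.rel (nat_lit 71303202)) .nil)) .nil)) .leaf)) (nat_lit 11656778542994188) (.br (nat_lit 0) (.cons (.br (nat_lit 1) (.cons (.rel (nat_lit 21512208)) .nil)) .nil)) (.node (.node .leaf (nat_lit 11659130527913221) (.br (nat_lit 0) (.cons (.br (nat_lit 6) (.cons (.rel (nat_lit 17184083973)) (.cons (.rel (nat_lit 34368144384)) .nil))) .nil)) .leaf) (nat_lit 11659130527935350) (.br (nat_lit 0) (.cons (.br (nat_lit 1) (.cons (.rel (nat_lit 37753860)) .nil)) .nil)) (.node .leaf (nat_lit 11659130530943862) (.br (nat_lit 0) (.cons (.br (nat_lit 3) (.cons (.rel (nat_lit 272630820)) .nil)) .nil)) .leaf)))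

/-- refutations 59 -/
def e59 : EX := (.node .leaf (nat_lit 13241618870104974) (.br (nat_lit 0) (.cons (.br (nat_lit 1) (.cons (.rel (nat_lit 21496896)) .nil)) .nil)) .leaf)

/-- refutations 64 -/
def e64 : EX := (.node (.node (.node .leaf (nat_lit 13405695695951879) (.br (nat_lit 0) (.cons (.br (nat_lit 1) (.cons (.rel (nat_lit 20971809)) .nil)) .nil)) .leaf) (nat_lit 13411706597565973) (.br (nat_lit 3) (.cons (.br (nat_lit 5) (.cons (.rel (nat_lit 4563435522)) .nil)) .nil)) .leaf) (nat_lit 13413280608196615) (.br (nat_lit 3) (.cons (.br (nat_lit 4) (.cons (.rel (nat_lit 2415923208)) .nil)) .nil)) (.node .leaf (nat_lit 13413283128973992) (.br (nat_lit 0) (.cons (.br (nat_lit 1) (.cons (.rel (nat_lit 23330820)) .nil)) .nil)) .leaf))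

/-- refutations 65 -/
def e65 : EX := (.node .leaf (nat_lit 13827897517477151) (.br (nat_lit 0) (.cons (.br (nat_lit 2) (.cons (.rel (nat_lit 71328768)) .nil)) .nil)) .leaf)

/-- refutations 70 -/
def e70 : EX := (.node (.node .leaf (nat_lit 15439094352252928) (.br (nat_lit 0) (.cons (.br (nat_lit 1) (.cons (.rel (nat_lit 22028304)) .nil)) .nil)) .leaf) (nat_lit 15439094353480956) (.br (nat_lit 0) (.cons (.br (nat_lit 1) (.cons (.rel (nat_lit 25198593)) .nil)) .nil)) .leaf)

/-- refutations 72 -/
def e72 : EX := (.node .leaf (nat_lit 15861572658014235) (.br (nat_lit 0) (.cons (.br (nat_lit 1) (.cons (.rel (nat_lit 21512208)) .nil)) .nil)) .leaf)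

/-- refutations 75 -/
def e75 : EX := (.node (.node (.node .leaf (nat_lit 16308408914058767) (.br (nat_lit 1) (.cons (.br (nat_lit 3) (.cons (.rel (nat_lit 285245448)) .nil)) .nil)) .leaf) (nat_lit 16310210719946759) (.br (nat_lit 0) (.cons (.br (nat_lit 1) (.cons (.rel (nat_lit 22103040)) .nil)) .nil)) (.node .leaf (nat_lit 16310212421471484) (.br (nat_lit 2) (.cons (.br (nat_lit 3) (.cons (.rel (nat_lit 402718848)) .nil)) .nil)) .leaf)) (nat_lit 16314417295478113) (.br (nat_lit 1) (.cons (.br (nat_lit 2) (.cons (.rel (nat_lit 167773248)) .nil)) .nil)) (.node (.node .leaf (nat_lit 16314421905018209) (.br (nat_lit 0) (.cons (.br (nat_lit 1) (.cons (.rel (nat_lit 22103040)) .nil)) .nil)) .leaf) (nat_lit 16315988105271976) (.br (nat_lit 1) (.cons (.br (nat_lit 2) (.cons (.rel (nat_lit 83888256)) .nil)) .nil)) .leaf))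

/-- refutations 76 -/
def e76 : EX := (.node (.node .leaf (nat_lit 16397263924642678) (.br (nat_lit 0) (.cons (.br (nat_lit 2) (.cons (.rel (nat_lit 142606353)) .nil)) .nil)) .leaf) (nat_lit 16397263924643342) (.br (nat_lit 2) (.cons (.br (nat_lit 6) (.cons (.rel (nat_lit 17314108416)) .nil)) .nil)) (.node .leaf (nat_lit 16398542576118572) (.br (nat_lit 1) (.cons (.br (nat_lit 3) (.cons (.rel (nat_lit 285245448)) .nil)) .nil)) .leaf))

/-- refutations 77 -/
def e77 : EX := (.node (.node (.node .leaf (nat_lit 16403866229250048) (.br (nat_lit 2) (.cons (.br (nat_lit 3) (.cons (.rel (nat_lit 402677760)) .nil)) .nil)) .leaf) (nat_lit 16406872707645471) (.br (nat_lit 0) (.cons (.br (nat_lit 3) (.cons (.rel (nat_lit 272631825)) .nil)) .nil)) .leaf) (nat_lit 16406872967571456) (.br (nat_lit 2) (.cons (.br (nat_lit 4) (.cons (.rel (nat_lit 1140916740)) .nil)) .nil)) (.node (.node .leaf (nat_lit 16407138994330276) (.br (nat_lit 0) (.cons (.br (nat_lit 2) (.cons (.rel (nat_lit 71305221)) .nil)) .nil)) .leaf) (nat_lit 16407138995301663) (.br (nat_lit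 0) (.cons (.br (nat_lit 2) (.cons (.rel (nat_lit 71304216)) .nil)) .nil)) .leaf))

/-- refutations 78 -/
def e78 : EX := (.node (.node (.node .leaf (nat_lit 16484320109766164) (.br (nat_lit 0) (.cons (.br (nat_lit 1) (.cons (.rel (nat_lit 20973828)) .nil)) .nil)) .leaf) (nat_lit 16484320111556116) (.br (nat_lit 0) (.cons (.br (nat_lit 1) (.cons (.rel (nat_lit 25232472)) .nil)) .nil)) (.node .leaf (nat_lit 16484328693111464) (.br (nat_lit 1) (.cons (.br (nat_lit 3) (.cons (.rel (nat_lit 287310081)) .nil)) .nil)) .leaf)) (nat_lit 16484373765102248) (.br (nat_lit 1) (.cons (.br (nat_lit 2) (.cons (.rel (nat_lit 83890242)) .nil)) .nil)) (.node (.node .leaf (nat_lit 16485187246846727) (.br (nat_lit 0) (.cons (.br (nat_lit 1) (.cons (.rel (nat_lit 21045504)) .nil)) .nil)) .leaf) (nat_lit 16485187247388854) (.br (nat_lit 1) (.cons (.br (nat_lit 3) (.cons (.rel (nat_lit 285245448)) .nil)) .nil)) .leaf))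

/-- refutations 79 -/
def e79 : EX := (.node (.node (.node (.node .leaf (nat_lit 16491846983034219) (.br (nat_lit 0) (.cons (.br (nat_lit 1) (.cons (.rel (nat_lit 22040580)) .nil)) .nil)) .leaf) (nat_lit 16494710281777927) (.br (nat_lit 1) (.cons (.br (nat_lit 2) (.cons (.rel (nat_lit 83888256)) .nil)) .nil)) .leaf) (nat_lit 16494710281778708) (.br (nat_lit 0) (.cons (.br (nat_lit 1) (.cons (.rel (nat_lit 20973828)) .nil)) .nil)) (.node .leaf (nat_lit 16494710283376652) (.br (nat_lit 1) (.cons (.br (nat_lit 3) (.cons (.rel (nat_lit 285229122)) .nil)) .nil)) .leaf)) (nat_lit 16494713482031879) (.br (nat_lit 2) (.cons (.br (nat_lit 0) (.cons (.rel (nat_lit 138412356)) (.cons (.rel (nat_lit 142606353)) .nil))) .nil)) (.node (.node .leaf (nat_lit 16494713483274426) (.br (nat_lit 0) (.cons (.br (nat_lit 2) (.cons (.rel (nat_lit 142606353)) .nil)) .nil)) .leaf) (nat_lit 16494713483630604) (.br (nat_lit 1) (.cons (.br (nat_lit 4) (.cons (.rel (nat_lit 2181058560)) .nil)) .nil)) (.node .leaf (nat_lit 16494713484309255) (.br (nat_lit 0) (.cons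 (.br (nat_lit 1) (.cons (.rel (nat_lit 22151169)) .nil)) .nil)) .leaf)))

/-- refutations 80 -/
def e80 : EX := (.node .leaf (nat_lit 21991538276216844) (.br (nat_lit 1) (.cons (.br (nat_lit 0) (.cons (.rel (nat_lit 25235460)) (.cons (.rel (nat_lit 20973828)) .nil))) .nil)) .leaf)

/-- refutations 81 -/
def e81 : EX := (.node (.node (.node (.node .leaf (nat_lit 21998224445584135) (.br (nat_lit 4) (.cons (.br (nat_lit 1) (.cons (.rel (nat_lit 1090524177)) (.cons (.rel (nat_lit 1090536453)) .nil))) .nil)) .leaf) (nat_lit 21998224447861511) (.br (nat_lit 1) (.cons (.br (nat_lit 2) (.cons (.rel (nat_lit 83888256)) .nil)) .nil)) .leaf) (nat_lit 21998227008303879) (.br (nat_lit 0) (.cons (.br (nat_lit 4) (.cons (.rel (nat_lit 1078067232)) .nil)) .nil)) (.node .leaf (nat_lit 22001014125565184) (.br (nat_lit 0) (.cons (.br (nat_lit 1) (.cons (.rel (nat_lit 20976006)) .nil)) .nil)) .leaf)) (nat_lit 22001064515280404) (.br (nat_lit 1) (.cons (.br (nat_lit 2) (.cons (.rel (nat_lit 100663809)) .nil)) .nil)) (.node (.node (.node .leaf (nat_lit 22001064515956748)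 (.br (nat_lit 1) (.cons (.br (nat_lit 3) (.cons (.rel (nat_lit 285280320)) (.cons (.rel (nat_lit 285245448)) .nil))) .nil)) .leaf) (nat_lit 22001067713933324) (.br (nat_lit 0) (.cons (.br (nat_lit 1) (.cons (.rel (nat_lit 25235460)) .nil)) .nil)) .leaf) (nat_lit 22001067715534356) (.br (nat_lit 0) (.cons (.br (nat_lit 1) (.cons (.rel (nat_lit 23330820)) .nil)) .nil)) (.node .leaf (nat_lit 22001067716211463) (.br (nat_lit 0) (.cons (.br (nat_lit 1) (.cons (.rel (nat_lit 22040580)) .nil)) .nil)) .leaf)))

/-- refutations 82 -/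
def e82 : EX := (.node .leaf (nat_lit 16389160365789959) (.br (nat_lit 1) (.cons (.br (nat_lit 2) (.cons (.rel (nat_lit 83888256)) .nil)) .nil)) .leaf)

/-- refutations 83 -/
def e83 : EX := (.node (.node .leaf (nat_lit 22103754331866650) (.br (nat_lit 0) (.cons (.br (nat_lit 4) (.cons (.rel (nat_lit 1078001736)) .nil)) .nil)) .leaf) (nat_lit 22106541446860800) (.br (nat_lit 1) (.cons (.br (nat_lit 3) (.cons (.rel (nat_lit 285233172)) .nil)) .nil)) (.node .leaf (nat_lit 22108946227652608) (.br (nat_lit 0) (.cons (.br (nat_lit 1) (.cons (.rel (nat_lit 20973828)) .nil)) .nil)) .leaf))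

/-- refutations 86 -/
def e86 : EX := (.node .leaf (nat_lit 22542356416324894) (.br (nat_lit 0) (.cons (.br (nat_lit 3) (.cons (.rel (nat_lit 545259525)) .nil)) .nil)) .leaf)

/-- refutations 88 -/
def e88 : EX := (.node .leaf (nat_lit 22612707641912557) (.br (nat_lit 0) (.cons (.br (nat_lit 1) (.cons (.rel (nat_lit 22103040)) .nil)) .nil)) .leaf)

/-- refutations 89 -/
def e89 : EX := (.node (.node .leaf (nat_lit 22876513129257095) (.br (nat_lit 2) (.cons (.br (nat_lit 3) (.cons (.rel (nat_lit 335614464)) .nil)) .nil)) .leaf) (nat_lit 22876719578425399) (.br (nat_lit 0) (.cons (.br (nat_lit 1) (.cons (.rel (nat_lit 21496896)) .nil)) .nil)) (.node .leaf (nat_lit 22876719682018681) (.br (nat_lit 0) (.cons (.br (nat_lit 1) (.cons (.rel (nat_lit 21106962)) .nil)) .nil)) .leaf))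

/-- refutations 91 -/
def e91 : EX := (.node (.node (.node .leaf (nat_lit 22647814711653887) (.br (nat_lit 0) (.cons (.br (nat_lit 3) (.cons (.rel (nat_lit 277090308)) .nil)) .nil)) .leaf) (nat_lit 22647815651487231) (.br (nat_lit 0) (.cons (.br (nat_lit 2) (.cons (.rel (nat_lit 71369856)) .nil)) .nil)) .leaf) (nat_lit 22647815651796331) (.br (nat_lit 0) (.cons (.br (nat_lit 4) (.cons (.rel (nat_lit 1077936276)) .nil)) .nil)) (.node (.node .leaf (nat_lit 22648975164161276) (.br (nat_lit 0) (.cons (.br (nat_lit 1) (.cons (.rel (nat_lit 37816320)) .nil)) .nil)) .leaf) (nat_lit 22649111792395627) (.br (nat_lit 0) (.cons (.br (nat_lit 4) (.cons (.rel (nat_lit 1077942336)) .nil)) .nil)) .leaf))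

/-- refutations 96 -/
def e96 : EX := (.node (.node .leaf (nat_lit 24282892521245357) (.br (nat_lit 1) (.cons (.br (nat_lit 2) (.cons (.rel (nat_lit 83888256)) .nil)) .nil)) .leaf) (nat_lit 24284094190772379) (.br (nat_lit 0) (.cons (.br (nat_lit 3) (.cons (.rel (nat_lit 272646276)) .nil)) .nil)) .leaf)

/-- refutations 98 -/
def e98 : EX := (.node .leaf (nat_lit 24629072941837599) (.br (nat_lit 2) (.cons (.br (nat_lit 3) (.cons (.rel (nat_lit 402677760)) .nil)) .nil)) .leaf)

/-- refutations 99 -/
def e99 : EX := (.node (.node .leaf (nat_lit 24747991508508672) (.br (nat_lit 0) (.cons (.br (nat_lit 6) (.cons (.rel (nat_lit 17184194562)) (.cons (.rel (nat_lit 17184071697)) .nil))) .nil)) .leaf) (nat_lit 24747994448676328) (.br (nat_lit 0) (.cons (.br (nat_lit 3) (.cons (.rel (nat_lit 272631825)) .nil)) .nil)) .leaf)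

/-- refutations 100 -/
def e100 : EX := (.node .leaf (nat_lit 25069392779269373) (.br (nat_lit 0) (.cons (.br (nat_lit 3) (.cons (.rel (nat_lit 272630820)) .nil)) .nil)) .leaf)

/-- refutations 101 -/
def e101 : EX := (.node (.node .leaf (nat_lit 25079612305800444) (.br (nat_lit 1) (.cons (.br (nat_lit 2) (.cons (.rel (nat_lit 101974608)) .nil)) .nil)) .leaf) (nat_lit 25079646261656829) (.br (nat_lit 0) (.cons (.br (nat_lit 2) (.cons (.rel (nat_lit 142623876)) .nil)) .nil)) (.node .leaf (nat_lit 25079646666917888) (.br (nat_lit 1) (.cons (.br (nat_lit 4) (.cons (.rel (nat_lit 1090519122)) .nil)) .nil)) .leaf))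

/-- refutations 104 -/
def e104 : EX := (.node (.node .leaf (nat_lit 25104482678832385) (.br (nat_lit 0) (.cons (.br (nat_lit 4) (.cons (.rel (nat_lit 1077936276)) .nil)) .nil)) .leaf) (nat_lit 25104482678832390) (.br (nat_lit 1) (.cons (.br (nat_lit 6) (.cons (.rel (nat_lit 17196664833)) .nil)) .nil)) .leaf)

/-- refutations 105 -/
def e105 : EX := (.node (.node (.node (.node .leaf (nat_lit 25111781626671905) (.br (nat_lit 0) (.cons (.br (nat_lit 1) (.cons (.rel (nat_lit 20976006)) .nil)) .nil)) .leaf) (nat_lit 25112018126627603) (.br (nat_lit 0) (.cons (.br (nat_lit 1) (.cons (.rel (nat_lit 37765122)) .nil)) .nil)) (.node .leaf (nat_lit 25112018144796854) (.br (nat_lit 1) (.cons (.br (nat_lit 4) (.cons (.rel (nat_lit 1090535448)) .nil)) .nil)) .leaf)) (nat_lit 25112018144798059) (.br (nat_lit 1) (.cons (.br (nat_lit 4) (.cons (.br (nat_lit 0) (.cons (.rel (nat_lit 22028304)) (.cons (.rel (nat_lit 1077936276)) (.cons (.rel (nat_lit 25170000)) .nil)))) .nil)) .nil)) (.node (.node .leaf (nat_lit 25112018174156982) (.br (nat_lit 0) (.cons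 (.br (nat_lit 4) (.cons (.rel (nat_lit 1077969924)) .nil)) .nil)) .leaf) (nat_lit 25112052487766322) (.br (nat_lit 0) (.cons (.br (nat_lit 1) (.cons (.rel (nat_lit 20973828)) .nil)) .nil)) .leaf)) (nat_lit 25112086846105107) (.br (nat_lit 0) (.cons (.br (nat_lit 1) (.cons (.rel (nat_lit 22028304)) .nil)) .nil)) (.node (.node (.node .leaf (nat_lit 25112086848224492) (.br (nat_lit 1) (.cons (.br (nat_lit 5) (.cons (.rel (nat_lit 4312268820)) .nil)) .nil)) .leaf) (nat_lit 25112086862882323) (.br (nat_lit 0) (.cons (.br (nat_lit 1) (.cons (.rel (nat_lit 22028304)) .nil)) .nil)) (.node .leaf (nat_lit 25112086865288723) (.br (nat_lit 1) (.cons (.br (nat_lit 6) (.cons (.rel (nat_lit 17196712962)) .nil)) .nil)) .leaf)) (nat_lit 25112086892258061) (.br (nat_lit 0) (.cons (.br (nat_lit 1) (.cons (.rel (nat_lit 25297920)) .nil)) .nil)) (.node (.node .leaf (nat_lit 25117149913127794) (.br (nat_lit 0) (.cons (.br (nat_lit 1) (.cons (.rel (nat_lit 20971809)) .nil)) .nil)) .leaf) (nat_lit 25117244402407610) (.br (nat_lit 0) (.cons (.br (nat_lit 1) (.cons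 (.rel (nat_lit 20992320)) .nil)) .nil)) .leaf)))

/-- refutations 107 -/
def e107 : EX := (.node (.node .leaf (nat_lit 25157267832494761) (.br (nat_lit 0) (.cons (.br (nat_lit 3) (.cons (.rel (nat_lit 272630820)) .nil)) .nil)) .leaf) (nat_lit 25157353729017085) (.br (nat_lit 0) (.cons (.br (nat_lit 1) (.cons (.rel (nat_lit 22028304)) .nil)) .nil)) .leaf)

/-- refutations 108 -/
def e108 : EX := (.node (.node .leaf (nat_lit 25164820455942324) (.br (nat_lit 1) (.cons (.br (nat_lit 4) (.cons (.rel (nat_lit 1090536453)) .nil)) .nil)) .leaf) (nat_lit 25164820498910739) (.br (nat_lit 0) (.cons (.br (nat_lit 1) (.cons (.rel (nat_lit 20973828)) .nil)) .nil)) (.node .leaf (nat_lit 25164863406644761) (.br (nat_lit 0) (.cons (.br (nat_lit 1) (.cons (.rel (nat_lit 22028304)) .nil)) .nil)) .leaf))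

/-- refutations 109 -/
def e109 : EX := (.node (.node .leaf (nat_lit 25174851441432711) (.br (nat_lit 0) (.cons (.br (nat_lit 1) (.cons (.rel (nat_lit 20973828)) .nil)) .nil)) .leaf) (nat_lit 25174911552574726) (.br (nat_lit 0) (.cons (.br (nat_lit 1) (.cons (.rel (nat_lit 21496896)) .nil)) .nil)) (.node .leaf (nat_lit 25181135610354966) (.br (nat_lit 0) (.cons (.br (nat_lit 1) (.cons (.rel (nat_lit 25182276)) .nil)) .nil)) .leaf))

/-- refutations 110 -/
def e110 : EX := (.node (.node (.node (.node .leaf (nat_lit 25182155192180991) (.br (nat_lit 3) (.cons (.br (nat_lit 4) (.cons (.rel (nat_lit 1342439430)) .nil)) .nil)) .leaf) (nat_lit 25182386916951578) (.br (nat_lit 4) (.cons (.br (nat_lit 6) (.cons (.rel (nat_lit 18255773700)) .nil)) .nil)) .leaf) (nat_lit 25182421230560019) (.br (nat_lit 0) (.cons (.br (nat_lit 4) (.cons (.rel (nat_lit 1078265088)) .nil)) .nil)) (.node .leaf (nat_lit 25182421231943866) (.br (nat_lit 4) (.cons (.br (nat_lit 6) (.cons (.rel (nat_lit 19327434816)) .nil)) .nil)) .leaf)) (nat_lit 25182421278081210) (.br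 (nat_lit 0) (.cons (.br (nat_lit 1) (.cons (.rel (nat_lit 20971809)) .nil)) .nil)) (.node (.node .leaf (nat_lit 25182455592379628) (.br (nat_lit 0) (.cons (.br (nat_lit 1) (.cons (.rel (nat_lit 22040580)) .nil)) .nil)) .leaf) (nat_lit 25182455608436911) (.br (nat_lit 0) (.cons (.br (nat_lit 4) (.cons (.rel (nat_lit 1077937281)) .nil)) .nil)) (.node .leaf (nat_lit 25182455638525160) (.br (nat_lit 0) (.cons (.br (nat_lit 1) (.cons (.rel (nat_lit 37748805)) .nil)) .nil)) .leaf)))

/-- refutations 112 -/
def e112 : EX := (.node (.node (.node (.node (.node (.node .leaf (nat_lit 25245217122182430) (.br (nat_lit 0) (.cons (.br (nat_lit 2) (.cons (.rel (nat_lit 71376897)) .nil)) .nil)) .leaf) (nat_lit 25245220165659534) (.br (nat_lit 2) (.cons (.br (nat_lit 3) (.cons (.rel (nat_lit 335806545)) (.cons (.rel (nat_lit 335806545)) .nil))) .nil)) .leaf) (nat_lit 25245220165659934) (.br (nat_lit 2) (.cons (.br (nat_lit 3) (.cons (.rel (nat_lit 336609540)) .nil)) .nil)) (.node .leaf (nat_lit 25245220165660136) (.br (nat_lit 0) (.cons (.br (nat_lit 1)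 (.cons (.rel (nat_lit 20973828)) .nil)) .nil)) .leaf)) (nat_lit 25245220165704362) (.br (nat_lit 1) (.cons (.br (nat_lit 3) (.cons (.rel (nat_lit 285245448)) .nil)) .nil)) (.node (.node .leaf (nat_lit 25245220165753612) (.br (nat_lit 2) (.cons (.br (nat_lit 5) (.cons (.rel (nat_lit 8724152400)) .nil)) .nil)) .leaf) (nat_lit 25245220165924915) (.br (nat_lit 1) (.cons (.br (nat_lit 2) (.cons (.rel (nat_lit 83894292)) .nil)) .nil)) (.node .leaf (nat_lit 25245220165926299) (.br (nat_lit 1) (.cons (.br (nat_lit 3) (.cons (.rel (nat_lit 570441732)) .nil)) .nil)) .leaf))) (nat_lit 25245220166211839) (.br (nat_lit 1) (.cons (.br (nat_lit 0) (.cons (.rel (nat_lit 20971809)) (.cons (.rel (nat_lit 25182276)) .nil))) .nil)) (.node (.node (.node .leaf (nat_lit 25245220166226170) (.br (nat_lit 4) (.cons (.br (nat_lit 5) (.cons (.rel (nat_lit 5368710210)) .nil)) .nil)) .leaf) (nat_lit 25245220166226732) (.br (nat_lit 4) (.cons (.br (nat_lit 0) (.cons (.rel (nat_lit 1077936276)) (.cons (.rel (nat_lit 1077936276)) .nil))) .nil)) (.node .leaf (nat_lit 25245220166227230)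 (.br (nat_lit 2) (.cons (.br (nat_lit 3) (.cons (.rel (nat_lit 336597264)) .nil)) .nil)) .leaf)) (nat_lit 25245220166944121) (.br (nat_lit 0) (.cons (.br (nat_lit 2) (.cons (.rel (nat_lit 71304216)) .nil)) .nil)) (.node (.node .leaf (nat_lit 25245220167187713) (.br (nat_lit 4) (.cons (.br (nat_lit 6) (.cons (.rel (nat_lit 36507259140)) .nil)) .nil)) .leaf) (nat_lit 25245220167187718) (.br (nat_lit 4) (.cons (.br (nat_lit 0) (.cons (.rel (nat_lit 1079247888)) (.cons (.rel (nat_lit 1077936276)) (.cons (.rel (nat_lit 2155937808)) (.cons (.rel (nat_lit 1077944322)) .nil))))) .nil)) (.node .leaf (nat_lit 25245220167206924) (.br (nat_lit 1) (.cons (.br (nat_lit 2) (.cons (.rel (nat_lit 84148548)) .nil)) .nil)) .leaf)))) (nat_lit 25245220167207668) (.br (nat_lit 2) (.cons (.br (nat_lit 4) (.cons (.rel (nat_lit 1143013440)) .nil)) .nil)) (.node (.node (.node (.node .leaf (nat_lit 25245220167209637) (.br (nat_lit 0) (.cons (.br (nat_lit 4) (.cons (.rel (nat_lit 1077936276)) .nil)) .nil)) .leaf) (nat_lit 25245220167246636) (.br (nat_lit 2) (.cons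 (.br (nat_lit 3) (.cons (.rel (nat_lit 402677760)) .nil)) .nil)) (.node .leaf (nat_lit 25245220167247134) (.br (nat_lit 3) (.cons (.br (nat_lit 6) (.cons (.rel (nat_lit 17448309264)) (.cons (.rel (nat_lit 17448309264)) .nil))) .nil)) .leaf)) (nat_lit 25245220167302430) (.br (nat_lit 0) (.cons (.br (nat_lit 2) (.cons (.rel (nat_lit 71369856)) .nil)) .nil)) (.node (.node .leaf (nat_lit 25245220167501856) (.br (nat_lit 0) (.cons (.br (nat_lit 2) (.cons (.rel (nat_lit 142606353)) .nil)) .nil)) .leaf) (nat_lit 25245220167542919) (.br (nat_lit 0) (.cons (.br (nat_lit 1) (.cons (.rel (nat_lit 22028304)) .nil)) .nil)) (.node .leaf (nat_lit 25245220168312094) (.br (nat_lit 2) (.cons (.br (nat_lit 3) (.cons (.rel (nat_lit 336597264)) .nil)) .nil)) .leaf))) (nat_lit 25245220168332550) (.br (nat_lit 1) (.cons (.br (nat_lit 2) (.cons (.rel (nat_lit 85196808)) .nil)) .nil)) (.node (.node (.node .leaf (nat_lit 25245220168567464) (.br (nat_lit 1) (.cons (.br (nat_lit 5) (.cons (.rel (nat_lit 4311811392)) .nil)) .nil)) .leaf) (nat_lit 25245220168568064)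 (.br (nat_lit 2) (.cons (.br (nat_lit 0) (.cons (.rel (nat_lit 71307396)) (.cons (.rel (nat_lit 142606353)) .nil))) .nil)) (.node .leaf (nat_lit 25245220168568344) (.br (nat_lit 0) (.cons (.br (nat_lit 4) (.cons (.rel (nat_lit 1078001736)) .nil)) .nil)) .leaf)) (nat_lit 25245220168587315) (.br (nat_lit 1) (.cons (.br (nat_lit 3) (.cons (.rel (nat_lit 285475152)) .nil)) .nil)) (.node (.node .leaf (nat_lit 25245220168589999) (.br (nat_lit 0) (.cons (.br (nat_lit 4) (.cons (.rel (nat_lit 2155937808)) .nil)) .nil)) .leaf) (nat_lit 25245220168833159) (.br (nat_lit 0) (.cons (.br (nat_lit 2) (.cons (.rel (nat_lit 77594628)) .nil)) .nil)) (.node .leaf (nat_lit 25245220168833706) (.br (nat_lit 2) (.cons (.br (nat_lit 6) (.cons (.rel (nat_lit 17314218000)) .nil)) .nil)) .leaf)))))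

/-- refutations 113 -/
def e113 : EX := (.node (.node (.node (.node .leaf (nat_lit 25245228741929836) (.br (nat_lit 0) (.cons (.br (nat_lit 1) (.cons (.rel (nat_lit 25198593)) .nil)) .nil)) .leaf) (nat_lit 25245228760089856) (.br (nat_lit 0) (.cons (.br (nat_lit 1) (.cons (.rel (nat_lit 25182276)) .nil)) .nil)) (.node .leaf (nat_lit 25245228761324796) (.br (nat_lit 1) (.cons (.br (nat_lit 2) (.cons (.rel (nat_lit 83894292)) .nil)) .nil)) .leaf)) (nat_lit 25245228761339133) (.br (nat_lit 0) (.cons (.br (nat_lit 1) (.cons (.rel (nat_lit 22103040)) .nil)) .nil)) (.node (.node .leaf (nat_lit 25245228761675284) (.br (nat_lit 0) (.cons (.br (nat_lit 2) (.cons (.rel (nat_lit 71323713)) .nil)) .nil)) .leaf) (nat_lit 25245228762697734) (.br (nat_lit 0) (.cons (.br (nat_lit 3) (.cons (.rel (nat_lit 545259525)) .nil)) .nil)) (.node .leaf (nat_lit 25245263116920094) (.br (nat_lit 2) (.cons (.br (nat_lit 3) (.cons (.rel (nat_lit 402677760)) .nil)) .nil)) .leaf))) (nat_lit 25245263136398193) (.br (nat_lit 3) (.cons (.br (nat_lit 6) (.cons (.rel (nat_lit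 17716871172)) (.cons (.rel (nat_lit 34628190225)) .nil))) .nil)) (.node (.node (.node .leaf (nat_lit 25245263137832193) (.br (nat_lit 2) (.cons (.br (nat_lit 3) (.cons (.rel (nat_lit 402653208)) .nil)) .nil)) .leaf) (nat_lit 25245263137881369) (.br (nat_lit 2) (.cons (.br (nat_lit 3) (.cons (.rel (nat_lit 335806545)) .nil)) .nil)) (.node .leaf (nat_lit 25245268035365039) (.br (nat_lit 0) (.cons (.br (nat_lit 1) (.cons (.rel (nat_lit 20971809)) .nil)) .nil)) .leaf)) (nat_lit 25245271730546863) (.br (nat_lit 1) (.cons (.br (nat_lit 3) (.cons (.rel (nat_lit 285212805)) (.cons (.rel (nat_lit 285475152)) .nil))) .nil)) (.node (.node .leaf (nat_lit 25245271731970700) (.br (nat_lit 0) (.cons (.br (nat_lit 1) (.cons (.rel (nat_lit 37748805)) .nil)) .nil)) .leaf) (nat_lit 25245273801152692) (.br (nat_lit 1) (.cons (.br (nat_lit 3) (.cons (.rel (nat_lit 570429456)) .nil)) .nil)) .leaf)))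

/-- refutations 114 -/
def e114 : EX := (.node (.node (.node (.node .leaf (nat_lit 25245280313519457) (.br (nat_lit 0) (.cons (.br (nat_lit 1) (.cons (.rel (nat_lit 20973828)) .nil)) .nil)) .leaf) (nat_lit 25245280313576684) (.br (nat_lit 0) (.cons (.br (nat_lit 1) (.cons (.rel (nat_lit 20973828)) .nil)) .nil)) (.node .leaf (nat_lit 25245280313609448) (.br (nat_lit 0) (.cons (.br (nat_lit 4) (.cons (.rel (nat_lit 1077952593)) .nil)) .nil)) .leaf)) (nat_lit 25245280314890247) (.br (nat_lit 0) (.cons (.br (nat_lit 4) (.cons (.rel (nat_lit 1077936276)) (.cons (.rel (nat_lit 1077936276)) .nil))) (.cons (.br (nat_lit 4) (.cons (.rel (nat_lit 1077969924)) (.cons (.rel (nat_lit 1079247888)) .nil))) .nil))) (.node (.node .leaf (nat_lit 25245280314890252) (.br (nat_lit 0) (.cons (.br (nat_lit 1) (.cons (.rel (nat_lit 22040580)) .nil)) .nil)) .leaf) (nat_lit 25245280314890917) (.br (nat_lit 1) (.cons (.br (nat_lit 5) (.cons (.rel (nat_lit 4328538240)) .nil)) .nil)) .leaf)) (nat_lit 25245280314891052) (.br (nat_lit 0) (.cons (.br (nat_lit 5) (.cons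 (.rel (nat_lit 4299198720)) .nil)) .nil)) (.node (.node (.node .leaf (nat_lit 25245312143104255) (.br (nat_lit 0) (.cons (.br (nat_lit 2) (.cons (.rel (nat_lit 142934352)) .nil)) .nil)) .leaf) (nat_lit 25245314638256303) (.br (nat_lit 0) (.cons (.br (nat_lit 5) (.cons (.rel (nat_lit 4299292992)) (.cons (.rel (nat_lit 4300275792)) (.cons (.rel (nat_lit 4299161892)) (.cons (.rel (nat_lit 4299186456)) (.cons (.rel (nat_lit 8596242756)) .nil)))))) .nil)) (.node .leaf (nat_lit 25245314638256910) (.br (nat_lit 0) (.cons (.br (nat_lit 4) (.cons (.rel (nat_lit 1077936276)) .nil)) .nil)) .leaf)) (nat_lit 25245314638257009) (.br (nat_lit 0) (.cons (.br (nat_lit 1) (.cons (.rel (nat_lit 22040580)) .nil)) .nil)) (.node (.node .leaf (nat_lit 25245314639764257) (.br (nat_lit 0) (.cons (.br (nat_lit 2) (.cons (.rel (nat_lit 71305221)) .nil)) .nil)) .leaf) (nat_lit 25245314641071360) (.br (nat_lit 0) (.cons (.br (nat_lit 1) (.cons (.rel (nat_lit 23461968)) .nil)) .nil)) .leaf)))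

/-- refutations 115 -/
def e115 : EX := (.node (.node (.node (.node .leaf (nat_lit 25245872062766358) (.br (nat_lit 0) (.cons (.br (nat_lit 4) (.cons (.rel (nat_lit 1079247888)) .nil)) .nil)) .leaf) (nat_lit 25245872063047866) (.br (nat_lit 0) (.cons (.br (nat_lit 1) (.cons (.rel (nat_lit 22028304)) .nil)) .nil)) .leaf) (nat_lit 25246096358676487) (.br (nat_lit 1) (.cons (.br (nat_lit 5) (.cons (.rel (nat_lit 4312794192)) .nil)) .nil)) (.node .leaf (nat_lit 25246344424050719) (.br (nat_lit 3) (.cons (.br (nat_lit 4) (.cons (.rel (nat_lit 1343226144)) .nil)) .nil)) .leaf)) (nat_lit 25246344425005937) (.br (nat_lit 1) (.cons (.br (nat_lit 3) (.cons (.rel (nat_lit 285233172)) .nil)) .nil)) (.node (.node .leaf (nat_lit 25246344425483041) (.br (nat_lit 0) (.cons (.br (nat_lit 1) (.cons (.rel (nat_lit 21266946)) .nil)) .nil)) .leaf) (nat_lit 25246344426608700) (.br (nat_lit 0) (.cons (.br (nat_lit 2) (.cons (.rel (nat_lit 71304216)) .nil)) .nil)) (.node .leaf (nat_lit 25246347540664375) (.br (nat_lit 0) (.cons (.br (nat_lit 3) (.cons (.rel (nat_lit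 272699460)) .nil)) .nil)) .leaf)))

/-- refutations 116 -/
def e116 : EX := (.node (.node (.node (.node (.node .leaf (nat_lit 25246378739933439) (.br (nat_lit 2) (.cons (.br (nat_lit 3) (.cons (.rel (nat_lit 603979812)) .nil)) .nil)) .leaf) (nat_lit 25246378739934109) (.br (nat_lit 1) (.cons (.br (nat_lit 4) (.cons (.rel (nat_lit 1090535448)) .nil)) .nil)) (.node .leaf (nat_lit 25246378740455559) (.br (nat_lit 0) (.cons (.br (nat_lit 6) (.cons (.rel (nat_lit 34368144384)) .nil)) .nil)) .leaf)) (nat_lit 25247038722312872) (.br (nat_lit 0) (.cons (.br (nat_lit 1) (.cons (.rel (nat_lit 22040580)) .nil)) .nil)) (.node (.node .leaf (nat_lit 25247040787290993) (.br (nat_lit 0) (.cons (.br (nat_lit 4) (.cons (.rel (nat_lit 1077936276)) .nil)) .nil)) .leaf) (nat_lit 25247040787507877) (.br (nat_lit 1) (.cons (.br (nat_lit 4) (.cons (.rel (nat_lit 1090560000)) .nil)) .nil)) .leaf)) (nat_lit 25247040787507887) (.br (nat_lit 4) (.cons (.br (nat_lit 0) (.cons (.rel (nat_lit 1079247888)) (.cons (.rel (nat_lit 1078265088)) .nil))) .nil)) (.node (.node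 (.node .leaf (nat_lit 25247040787508582) (.br (nat_lit 0) (.cons (.br (nat_lit 3) (.cons (.rel (nat_lit 541131024)) .nil)) .nil)) .leaf) (nat_lit 25247040787518117) (.br (nat_lit 2) (.cons (.br (nat_lit 5) (.cons (.rel (nat_lit 4362076320)) .nil)) .nil)) (.node .leaf (nat_lit 25247040787698444) (.br (nat_lit 0) (.cons (.br (nat_lit 1) (.cons (.rel (nat_lit 23330820)) .nil)) .nil)) .leaf)) (nat_lit 25247040788724993) (.br (nat_lit 0) (.cons (.br (nat_lit 4) (.cons (.rel (nat_lit 1078067232)) (.cons (.rel (nat_lit 1078001736)) .nil))) .nil)) (.node (.node .leaf (nat_lit 25247040788745468) (.br (nat_lit 3) (.cons (.br (nat_lit 5) (.cons (.rel (nat_lit 4563533844)) .nil)) .nil)) .leaf) (nat_lit 25247040788745748) (.br (nat_lit 0) (.cons (.br (nat_lit 2) (.cons (.rel (nat_lit 71385168)) .nil)) .nil)) .leaf))) (nat_lit 25247040789105317) (.br (nat_lit 0) (.cons (.br (nat_lit 1) (.cons (.rel (nat_lit 21496896)) .nil)) .nil)) (.node (.node (.node (.node .leaf (nat_lit 25247040789106017) (.br (nat_lit 5) (.cons (.br (nat_lit 6) (.cons (.rel (nat_lit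 21476163648)) .nil)) .nil)) .leaf) (nat_lit 25247040789760677) (.br (nat_lit 0) (.cons (.br (nat_lit 1) (.cons (.rel (nat_lit 37816320)) .nil)) .nil)) (.node .leaf (nat_lit 25247040789761382) (.br (nat_lit 0) (.cons (.br (nat_lit 6) (.cons (.rel (nat_lit 17184083973)) .nil)) .nil)) .leaf)) (nat_lit 25247040790108167) (.br (nat_lit 0) (.cons (.br (nat_lit 5) (.cons (.rel (nat_lit 4299161892)) .nil)) .nil)) (.node (.node .leaf (nat_lit 25247040790321338) (.br (nat_lit 2) (.cons (.br (nat_lit 3) (.cons (.rel (nat_lit 402653208)) .nil)) .nil)) .leaf) (nat_lit 25247040790322028) (.br (nat_lit 0) (.cons (.br (nat_lit 1) (.cons (.rel (nat_lit 20992320)) .nil)) .nil)) .leaf)) (nat_lit 25247043309856954) (.br (nat_lit 1) (.cons (.br (nat_lit 6) (.cons (.rel (nat_lit 17196810240)) .nil)) .nil)) (.node (.node (.node .leaf (nat_lit 25247367125286299) (.br (nat_lit 0) (.cons (.br (nat_lit 1) (.cons (.rel (nat_lit 22028304)) .nil)) .nil)) .leaf) (nat_lit 25247367127692574) (.br (nat_lit 0) (.cons (.br (nat_lit 1) (.cons (.rel (nat_lit 22282560)) .nil))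 .nil)) .leaf) (nat_lit 25247470179336243) (.br (nat_lit 0) (.cons (.br (nat_lit 1) (.cons (.rel (nat_lit 21512208)) .nil)) .nil)) (.node (.node .leaf (nat_lit 25247470179368223) (.br (nat_lit 0) (.cons (.br (nat_lit 1) (.cons (.rel (nat_lit 37748805)) .nil)) .nil)) .leaf) (nat_lit 25247470180699368) (.br (nat_lit 0) (.cons (.br (nat_lit 1) (.cons (.rel (nat_lit 20971809)) .nil)) .nil)) .leaf))))

/-- refutations 117 -/
def e117 : EX := (.node (.node (.node (.node (.node .leaf (nat_lit 25250156986031340) (.br (nat_lit 0) (.cons (.br (nat_lit 2) (.cons (.rel (nat_lit 71438352)) .nil)) .nil)) .leaf) (nat_lit 25250161166722335) (.br (nat_lit 0) (.cons (.br (nat_lit 2) (.cons (.rel (nat_lit 71369856)) .nil)) .nil)) .leaf) (nat_lit 25250161166722411) (.br (nat_lit 0) (.cons (.br (nat_lit 2) (.cons (.rel (nat_lit 71369856)) .nil)) .nil)) (.node .leaf (nat_lit 25250161472597279) (.br (nat_lit 0) (.cons (.br (nat_lit 3) (.cons (.rel (nat_lit 272699460)) .nil)) .nil)) .leaf)) (nat_lit 25250161472597355) (.br (nat_lit 0) (.cons (.br (nat_lit 4) (.cons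 (.rel (nat_lit 1078067232)) .nil)) .nil)) (.node (.node (.node .leaf (nat_lit 25250162104593034) (.br (nat_lit 0) (.cons (.br (nat_lit 3) (.cons (.rel (nat_lit 545259525)) .nil)) .nil)) .leaf) (nat_lit 25250162104613514) (.br (nat_lit 2) (.cons (.br (nat_lit 6) (.cons (.rel (nat_lit 34426863621)) .nil)) .nil)) .leaf) (nat_lit 25250162104614299) (.br (nat_lit 2) (.cons (.br (nat_lit 4) (.cons (.rel (nat_lit 1207980036)) .nil)) .nil)) (.node .leaf (nat_lit 25250162104658551) (.br (nat_lit 0) (.cons (.br (nat_lit 2) (.cons (.rel (nat_lit 71304216)) .nil)) .nil)) .leaf))) (nat_lit 25250162105627935) (.br (nat_lit 0) (.cons (.br (nat_lit 4) (.cons (.rel (nat_lit 1077936276)) .nil)) .nil)) (.node (.node (.node (.node .leaf (nat_lit 25250162105628159) (.br (nat_lit 0) (.cons (.br (nat_lit 4) (.cons (.rel (nat_lit 1077936276)) (.cons (.rel (nat_lit 1077936276)) .nil))) .nil)) .leaf) (nat_lit 25250162106142107) (.br (nat_lit 0) (.cons (.br (nat_lit 1) (.cons (.rel (nat_lit 21512208)) .nil)) .nil)) .leaf) (nat_lit 25250162106901157) (.br (nat_lit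 1) (.cons (.br (nat_lit 2) (.cons (.rel (nat_lit 167773248)) .nil)) .nil)) (.node .leaf (nat_lit 25250162107176987) (.br (nat_lit 0) (.cons (.br (nat_lit 3) (.cons (.rel (nat_lit 545259525)) .nil)) .nil)) .leaf)) (nat_lit 25250162107265051) (.br (nat_lit 1) (.cons (.br (nat_lit 4) (.cons (.rel (nat_lit 1090783488)) .nil)) .nil)) (.node (.node .leaf (nat_lit 25250162107521905) (.br (nat_lit 0) (.cons (.br (nat_lit 1) (.cons (.rel (nat_lit 21512208)) .nil)) .nil)) .leaf) (nat_lit 25250371195918518) (.br (nat_lit 2) (.cons (.br (nat_lit 4) (.cons (.rel (nat_lit 1141114881)) .nil)) .nil)) (.node .leaf (nat_lit 25250634468247734) (.br (nat_lit 1) (.cons (.br (nat_lit 2) (.cons (.rel (nat_lit 83888256)) .nil)) .nil)) .leaf))))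

/-- refutations 118 -/
def e118 : EX := (.node (.node (.node .leaf (nat_lit 25250643061086259) (.br (nat_lit 1) (.cons (.br (nat_lit 2) (.cons (.rel (nat_lit 83903568)) .nil)) .nil)) .leaf) (nat_lit 25250643063546138) (.br (nat_lit 1) (.cons (.br (nat_lit 2) (.cons (.rel (nat_lit 167788560)) .nil)) .nil)) (.node .leaf (nat_lit 25250643063616119) (.br (nat_lit 1) (.cons (.br (nat_lit 6) (.cons (.rel (nat_lit 17213685840)) .nil)) .nil)) .leaf)) (nat_lit 25250643063801888) (.br (nat_lit 0) (.cons (.br (nat_lit 1) (.cons (.rel (nat_lit 21496896)) .nil)) .nil)) (.node (.node .leaf (nat_lit 25250694553177366) (.br (nat_lit 2) (.cons (.br (nat_lit 3) (.cons (.rel (nat_lit 335561280)) .nil)) .nil)) .leaf) (nat_lit 25251247156830243) (.br (nat_lit 1) (.cons (.br (nat_lit 3) (.cons (.rel (nat_lit 285280320)) .nil)) .nil)) .leaf))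

/-- refutations 119 -/
def e119 : EX := (.node (.node .leaf (nat_lit 25251490837862535) (.br (nat_lit 1) (.cons (.br (nat_lit 3) (.cons (.rel (nat_lit 301991430)) .nil)) .nil)) .leaf) (nat_lit 25251492623347199) (.br (nat_lit 0) (.cons (.br (nat_lit 4) (.cons (.rel (nat_lit 1078001736)) .nil)) .nil)) (.node .leaf (nat_lit 25251664695696040) (.br (nat_lit 0) (.cons (.br (nat_lit 3) (.cons (.rel (nat_lit 278921232)) .nil)) .nil)) .leaf))

/-- refutations 120 -/
def e120 : EX := (.node (.node (.node (.node (.node .leaf (nat_lit 25251758662064290) (.br (nat_lit 1) (.cons (.br (nat_lit 3) (.cons (.rel (nat_lit 570429456)) .nil)) .nil)) .leaf) (nat_lit 25251758662065009) (.br (nat_lit 0) (.cons (.br (nat_lit 6) (.cons (.rel (nat_lit 17184064656)) .nil)) .nil)) .leaf) (nat_lit 25251758662065404) (.br (nat_lit 0) (.cons (.br (nat_lit 3) (.cons (.rel (nat_lit 545259525)) .nil)) .nil)) (.node .leaf (nat_lit 25251758663519484) (.br (nat_lit 0) (.cons (.br (nat_lit 4) (.cons (.rel (nat_lit 1078001736)) .nil)) .nil)) .leaf)) (nat_lit 25251758663622791)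 (.br (nat_lit 0) (.cons (.br (nat_lit 6) (.cons (.rel (nat_lit 17184083973)) .nil)) .nil)) (.node (.node .leaf (nat_lit 25251758665144455) (.br (nat_lit 1) (.cons (.br (nat_lit 3) (.cons (.rel (nat_lit 570429456)) .nil)) .nil)) .leaf) (nat_lit 25251758665144482) (.br (nat_lit 0) (.cons (.br (nat_lit 4) (.cons (.rel (nat_lit 1077969924)) .nil)) .nil)) (.node .leaf (nat_lit 25252738457462964) (.br (nat_lit 0) (.cons (.br (nat_lit 1) (.cons (.rel (nat_lit 20971809)) .nil)) .nil)) .leaf))) (nat_lit 25252738457485498) (.br (nat_lit 0) (.cons (.br (nat_lit 1) (.cons (.rel (nat_lit 22040580)) .nil)) .nil)) (.node (.node (.node .leaf (nat_lit 25252738458492436) (.br (nat_lit 1) (.cons (.br (nat_lit 3) (.cons (.rel (nat_lit 285212805)) (.cons (.rel (nat_lit 570429456)) .nil))) .nil)) .leaf) (nat_lit 25252738458502677) (.br (nat_lit 0) (.cons (.br (nat_lit 6) (.cons (.rel (nat_lit 17185116672)) .nil)) .nil)) (.node .leaf (nat_lit 25252744965706540) (.br (nat_lit 0) (.cons (.br (nat_lit 3) (.cons (.rel (nat_lit 545259525)) (.cons (.rel (nat_lit 272777232))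 .nil))) .nil)) .leaf)) (nat_lit 25252747049823084) (.br (nat_lit 0) (.cons (.br (nat_lit 2) (.cons (.rel (nat_lit 71305221)) .nil)) .nil)) (.node (.node .leaf (nat_lit 25252747050275628) (.br (nat_lit 2) (.cons (.br (nat_lit 6) (.cons (.rel (nat_lit 17247045120)) .nil)) .nil)) .leaf) (nat_lit 25252747052617236) (.br (nat_lit 4) (.cons (.br (nat_lit 1) (.cons (.rel (nat_lit 1090519122)) (.cons (.rel (nat_lit 1091569152)) .nil))) .nil)) (.node .leaf (nat_lit 25252747052619284) (.br (nat_lit 3) (.cons (.br (nat_lit 4) (.cons (.rel (nat_lit 1344405504)) .nil)) .nil)) .leaf))))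

/-- refutations 121 -/
def e121 : EX := (.node (.node (.node (.node (.node (.node .leaf (nat_lit 25252751145975020) (.br (nat_lit 0) (.cons (.br (nat_lit 1) (.cons (.rel (nat_lit 25198593)) .nil)) .nil)) .leaf) (nat_lit 25252752516166943) (.br (nat_lit 0) (.cons (.br (nat_lit 1) (.cons (.rel (nat_lit 22040580)) .nil)) .nil)) (.node .leaf (nat_lit 25252755326350623) (.br (nat_lit 0) (.cons (.br (nat_lit 4) (.cons (.rel (nat_lit 1077936276)) .nil)) .nil)) .leaf)) (nat_lit 25252755326350699) (.br (nat_lit 0) (.cons (.br (nat_lit 2) (.cons (.rel (nat_lit 71450628)) .nil)) .nil)) (.node (.node .leaf (nat_lit 25252755326350847) (.br (nat_lit 0) (.cons (.br (nat_lit 2) (.cons (.rel (nat_lit 139460616)) .nil)) .nil)) .leaf) (nat_lit 25252755326969119) (.br (nat_lit 0) (.cons (.br (nat_lit 2) (.cons (.rel (nat_lit 71304216)) .nil)) .nil)) (.node .leaf (nat_lit 25252755326969195) (.br (nat_lit 0) (.cons (.br (nat_lit 2) (.cons (.rel (nat_lit 71304216)) .nil)) .nil)) .leaf))) (nat_lit 25252755616360630) (.br (nat_lit 0) (.cons (.br (nat_lit 1) (.cons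 (.rel (nat_lit 21045504)) (.cons (.rel (nat_lit 20973828)) .nil))) .nil)) (.node (.node (.node .leaf (nat_lit 25252755616361330) (.br (nat_lit 0) (.cons (.br (nat_lit 2) (.cons (.rel (nat_lit 77594628)) .nil)) .nil)) .leaf) (nat_lit 25252755617388726) (.br (nat_lit 4) (.cons (.br (nat_lit 5) (.cons (.rel (nat_lit 6442516740)) .nil)) .nil)) (.node .leaf (nat_lit 25252755631760142) (.br (nat_lit 2) (.cons (.br (nat_lit 4) (.cons (.rel (nat_lit 1141117056)) .nil)) .nil)) .leaf)) (nat_lit 25252755632805117) (.br (nat_lit 0) (.cons (.br (nat_lit 4) (.cons (.rel (nat_lit 1077936276)) .nil)) .nil)) (.node (.node .leaf (nat_lit 25252755632844063) (.br (nat_lit 0) (.cons (.br (nat_lit 3) (.cons (.rel (nat_lit 272646276)) .nil)) .nil)) .leaf) (nat_lit 25252755632844139) (.br (nat_lit 4) (.cons (.br (nat_lit 5) (.cons (.rel (nat_lit 6442516740)) .nil)) .nil)) .leaf))) (nat_lit 25252755633152012) (.br (nat_lit 1) (.cons (.br (nat_lit 6) (.cons (.rel (nat_lit 17196667008)) .nil)) .nil)) (.node (.node (.node (.node .leaf (nat_lit 25252755633152182) (.br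 (nat_lit 0) (.cons (.br (nat_lit 1) (.cons (.rel (nat_lit 25182276)) .nil)) .nil)) .leaf) (nat_lit 25252755633153311) (.br (nat_lit 0) (.cons (.br (nat_lit 3) (.cons (.rel (nat_lit 272761920)) (.cons (.rel (nat_lit 545259525)) .nil))) .nil)) (.node .leaf (nat_lit 25252755633153387) (.br (nat_lit 0) (.cons (.br (nat_lit 5) (.cons (.rel (nat_lit 4303356033)) (.cons (.rel (nat_lit 4299162897)) (.cons (.rel (nat_lit 4300341252)) .nil)))) (.cons (.br (nat_lit 1) (.cons (.rel (nat_lit 20971809)) (.cons (.rel (nat_lit 37748805)) (.cons (.rel (nat_lit 22028304)) (.cons (.rel (nat_lit 25198593)) .nil))))) .nil))) .leaf)) (nat_lit 25252755633153535) (.br (nat_lit 3) (.cons (.br (nat_lit 0) (.cons (.rel (nat_lit 545259525)) (.cons (.rel (nat_lit 272634000)) .nil))) .nil)) (.node (.node .leaf (nat_lit 25252755633153557) (.br (nat_lit 1) (.cons (.br (nat_lit 5) (.cons (.rel (nat_lit 4311826704)) .nil)) .nil)) .leaf) (nat_lit 25252755633803446) (.br (nat_lit 0) (.cons (.br (nat_lit 1) (.cons (.rel (nat_lit 20973828)) .nil)) .nil)) .leaf)) (nat_lit 25252755634165268)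 (.br (nat_lit 1) (.cons (.br (nat_lit 5) (.cons (.rel (nat_lit 4328521734)) .nil)) .nil)) (.node (.node (.node .leaf (nat_lit 25252755634165942) (.br (nat_lit 0) (.cons (.br (nat_lit 1) (.cons (.rel (nat_lit 22028304)) (.cons (.rel (nat_lit 37748805)) .nil))) (.cons (.br (nat_lit 1) (.cons (.rel (nat_lit 20973828)) (.cons (.rel (nat_lit 21512208)) .nil))) .nil))) .leaf) (nat_lit 25252755634177387) (.br (nat_lit 5) (.cons (.br (nat_lit 1) (.cons (.rel (nat_lit 4312268820)) (.cons (.rel (nat_lit 4311765249)) .nil))) .nil)) (.node .leaf (nat_lit 25252755662512310) (.br (nat_lit 0) (.cons (.br (nat_lit 2) (.cons (.rel (nat_lit 77594628)) (.cons (.rel (nat_lit 77594628)) .nil))) .nil)) .leaf)) (nat_lit 25252755663216946) (.br (nat_lit 0) (.cons (.br (nat_lit 4) (.cons (.rel (nat_lit 1079247888)) .nil)) .nil)) (.node (.node .leaf (nat_lit 25252756265874719) (.br (nat_lit 0) (.cons (.br (nat_lit 4) (.cons (.rel (nat_lit 1077936276)) .nil)) .nil)) .leaf) (nat_lit 25252756265874943) (.br (nat_lit 0) (.cons (.br (nat_lit 4) (.cons (.rel (nat_lit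 1077936276)) .nil)) .nil)) .leaf)))) (nat_lit 25252756266184043) (.br (nat_lit 0) (.cons (.br (nat_lit 2) (.cons (.rel (nat_lit 71304216)) .nil)) .nil)) (.node (.node (.node (.node (.node .leaf (nat_lit 25252756266184191) (.br (nat_lit 0) (.cons (.br (nat_lit 3) (.cons (.rel (nat_lit 272634000)) .nil)) .nil)) .leaf) (nat_lit 25252781407135924) (.br (nat_lit 0) (.cons (.br (nat_lit 1) (.cons (.rel (nat_lit 20973828)) .nil)) .nil)) (.node .leaf (nat_lit 25252781427811614) (.br (nat_lit 0) (.cons (.br (nat_lit 5) (.cons (.rel (nat_lit 4299161892)) .nil)) .nil)) .leaf)) (nat_lit 25252781429132824) (.br (nat_lit 0) (.cons (.br (nat_lit 1) (.cons (.rel (nat_lit 20973828)) .nil)) .nil)) (.node (.node .leaf (nat_lit 25252781429136921) (.br (nat_lit 0) (.cons (.br (nat_lit 1) (.cons (.rel (nat_lit 20973828)) .nil)) .nil)) .leaf) (nat_lit 25252789976121530) (.br (nat_lit 6) (.cons (.br (nat_lit 0) (.cons (.rel (nat_lit 17184064656)) (.cons (.rel (nat_lit 17184130116)) .nil))) .nil)) .leaf)) (nat_lit 25252790020456634) (.br (nat_lit 2) (.cons (.br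 (nat_lit 4) (.cons (.rel (nat_lit 1207967760)) (.cons (.rel (nat_lit 2214596640)) .nil))) .nil)) (.node (.node (.node .leaf (nat_lit 25252790020919323) (.br (nat_lit 1) (.cons (.br (nat_lit 4) (.cons (.rel (nat_lit 1090523172)) .nil)) .nil)) .leaf) (nat_lit 25252790020920108) (.br (nat_lit 4) (.cons (.br (nat_lit 6) (.cons (.rel (nat_lit 18253939776)) .nil)) .nil)) (.node .leaf (nat_lit 25252790021636282) (.br (nat_lit 0) (.cons (.br (nat_lit 4) (.cons (.rel (nat_lit 1077936276)) .nil)) .nil)) .leaf)) (nat_lit 25252790021744691) (.br (nat_lit 1) (.cons (.br (nat_lit 5) (.cons (.rel (nat_lit 4311811392)) .nil)) .nil)) (.node (.node .leaf (nat_lit 25252790021744695) (.br (nat_lit 0) (.cons (.br (nat_lit 4) (.cons (.rel (nat_lit 1077937281)) .nil)) .nil)) .leaf) (nat_lit 25252790021745577) (.br (nat_lit 1) (.cons (.br (nat_lit 5) (.cons (.rel (nat_lit 4311811392)) .nil)) .nil)) .leaf))) (nat_lit 25252790021929146) (.br (nat_lit 3) (.cons (.br (nat_lit 5) (.cons (.rel (nat_lit 4832907264)) .nil)) .nil)) (.node (.node (.node (.node .leaf (nat_lit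 25252790021940105) (.br (nat_lit 2) (.cons (.br (nat_lit 3) (.cons (.rel (nat_lit 335823876)) .nil)) .nil)) .leaf) (nat_lit 25252790022246586) (.br (nat_lit 0) (.cons (.br (nat_lit 1) (.cons (.rel (nat_lit 20992320)) .nil)) .nil)) (.node .leaf (nat_lit 25252790022250528) (.br (nat_lit 1) (.cons (.br (nat_lit 4) (.cons (.rel (nat_lit 1090560000)) .nil)) .nil)) .leaf)) (nat_lit 25252790022250682) (.br (nat_lit 0) (.cons (.br (nat_lit 1) (.cons (.rel (nat_lit 20971809)) .nil)) .nil)) (.node (.node .leaf (nat_lit 25252790022258874) (.br (nat_lit 0) (.cons (.br (nat_lit 4) (.cons (.rel (nat_lit 1077944322)) (.cons (.rel (nat_lit 1078202628)) .nil))) (.cons (.br (nat_lit 4) (.cons (.rel (nat_lit 1077969924)) (.cons (.rel (nat_lit 2155876353)) .nil))) .nil))) .leaf) (nat_lit 25252790022917382) (.br (nat_lit 0) (.cons (.br (nat_lit 1) (.cons (.rel (nat_lit 20971809)) .nil)) .nil)) .leaf)) (nat_lit 25252790023027613) (.br (nat_lit 1) (.cons (.br (nat_lit 4) (.cons (.rel (nat_lit 1090519122)) .nil)) .nil)) (.node (.node (.node .leaf (nat_lit 25252790023263764)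 (.br (nat_lit 1) (.cons (.br (nat_lit 4) (.cons (.rel (nat_lit 1090523172)) .nil)) .nil)) .leaf) (nat_lit 25252790023263768) (.br (nat_lit 0) (.cons (.br (nat_lit 1) (.cons (.rel (nat_lit 25170000)) .nil)) .nil)) (.node .leaf (nat_lit 25252790023265068) (.br (nat_lit 0) (.cons (.br (nat_lit 1) (.cons (.rel (nat_lit 22282560)) .nil)) .nil)) .leaf)) (nat_lit 25252790023280890) (.br (nat_lit 0) (.cons (.br (nat_lit 4) (.cons (.rel (nat_lit 2152202244)) .nil)) .nil)) (.node (.node .leaf (nat_lit 25252790023282200) (.br (nat_lit 1) (.cons (.br (nat_lit 4) (.cons (.rel (nat_lit 1090523172)) .nil)) .nil)) .leaf) (nat_lit 25252790023435641) (.br (nat_lit 0) (.cons (.br (nat_lit 2) (.cons (.rel (nat_lit 71305221)) (.cons (.rel (nat_lit 142606353)) .nil))) .nil)) .leaf)))))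

/-- refutations 122 -/
def e122 : EX := (.node (.node (.node (.node (.node .leaf (nat_lit 25252818615836175) (.br (nat_lit 0) (.cons (.br (nat_lit 1) (.cons (.rel (nat_lit 25182276)) .nil)) .nil)) .leaf) (nat_lit 25252824335481113) (.br (nat_lit 1) (.cons (.br (nat_lit 6) (.cons (.rel (nat_lit 34377564162)) .nil)) .nil)) .leaf) (nat_lit 25252824335837359) (.br (nat_lit 1) (.cons (.br (nat_lit 4) (.cons (.rel (nat_lit 1090523172)) .nil)) .nil)) (.node .leaf (nat_lit 25252824335837864) (.br (nat_lit 2) (.cons (.br (nat_lit 5) (.cons (.rel (nat_lit 4362109968)) .nil)) .nil)) .leaf)) (nat_lit 25252824336865287) (.br (nat_lit 0) (.cons (.br (nat_lit 6) (.cons (.rel (nat_lit 17184083973)) (.cons (.rel (nat_lit 34364981316)) (.cons (.rel (nat_lit 17184071697)) .nil)))) .nil)) (.node (.node .leaf (nat_lit 25252824336865960) (.br (nat_lit 2) (.cons (.br (nat_lit 1) (.cons (.rel (nat_lit 83918880)) (.cons (.rel (nat_lit 83918880)) .nil))) .nil)) .leaf) (nat_lit 25252824336866162) (.br (nat_lit 2) (.cons (.br (nat_lit 4) (.cons (.rel (nat_lit 1141260288))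 .nil)) .nil)) (.node .leaf (nat_lit 25252824336866831) (.br (nat_lit 0) (.cons (.br (nat_lit 1) (.cons (.rel (nat_lit 37765122)) .nil)) .nil)) .leaf))) (nat_lit 25252824350836239) (.br (nat_lit 0) (.cons (.br (nat_lit 1) (.cons (.rel (nat_lit 22028304)) .nil)) .nil)) (.node (.node (.node (.node .leaf (nat_lit 25252824383003406) (.br (nat_lit 0) (.cons (.br (nat_lit 1) (.cons (.rel (nat_lit 22028304)) .nil)) .nil)) .leaf) (nat_lit 25255542746563347) (.br (nat_lit 0) (.cons (.br (nat_lit 1) (.cons (.rel (nat_lit 20971809)) .nil)) .nil)) .leaf) (nat_lit 25255542746768917) (.br (nat_lit 1) (.cons (.br (nat_lit 0) (.cons (.rel (nat_lit 25182276)) (.cons (.rel (nat_lit 25247784)) .nil))) .nil)) (.node .leaf (nat_lit 25255542748146546) (.br (nat_lit 0) (.cons (.br (nat_lit 1) (.cons (.rel (nat_lit 22054914)) .nil)) .nil)) .leaf)) (nat_lit 25255545268923250) (.br (nat_lit 0) (.cons (.br (nat_lit 1) (.cons (.rel (nat_lit 37765122)) .nil)) .nil)) (.node (.node .leaf (nat_lit 25255547345103730) (.br (nat_lit 0) (.cons (.br (nat_lit 1) (.cons (.rel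 (nat_lit 22103040)) .nil)) .nil)) .leaf) (nat_lit 25255610316810246) (.br (nat_lit 0) (.cons (.br (nat_lit 1) (.cons (.rel (nat_lit 25167012)) .nil)) .nil)) (.node .leaf (nat_lit 25255616082386453) (.br (nat_lit 0) (.cons (.br (nat_lit 1) (.cons (.rel (nat_lit 37748805)) .nil)) .nil)) .leaf))))

/-- refutations 123 -/
def e123 : EX := (.node (.node .leaf (nat_lit 25255741896577836) (.br (nat_lit 0) (.cons (.br (nat_lit 3) (.cons (.rel (nat_lit 272777232)) .nil)) .nil)) .leaf) (nat_lit 25255744931420195) (.br (nat_lit 0) (.cons (.br (nat_lit 1) (.cons (.rel (nat_lit 20992320)) .nil)) .nil)) .leaf)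

/-- refutations 124 -/
def e124 : EX := (.node (.node (.node (.node .leaf (nat_lit 25256006528862259) (.br (nat_lit 0) (.cons (.br (nat_lit 1) (.cons (.rel (nat_lit 23330820)) .nil)) .nil)) .leaf) (nat_lit 25256006528863464) (.br (nat_lit 1) (.cons (.br (nat_lit 4) (.cons (.rel (nat_lit 1090560000)) .nil)) .nil)) (.node .leaf (nat_lit 25256006603236885) (.br (nat_lit 0) (.cons (.br (nat_lit 1) (.cons (.rel (nat_lit 25182276)) .nil)) .nil)) .leaf)) (nat_lit 25256040842422909) (.br (nat_lit 0) (.cons (.br (nat_lit 1) (.cons (.rel (nat_lit 20992320)) .nil)) .nil)) (.node (.node .leaf (nat_lit 25256040843485439) (.br (nat_lit 0) (.cons (.br (nat_lit 1) (.cons (.rel (nat_lit 20971809)) .nil)) .nil)) .leaf) (nat_lit 25256040843746205) (.br (nat_lit 1) (.cons (.br (nat_lit 3) (.cons (.rel (nat_lit 285220896)) .nil)) .nil)) .leaf)) (nat_lit 25257027655803060) (.br (nat_lit 0) (.cons (.br (nat_lit 1) (.cons (.rel (nat_lit 25170000)) .nil)) .nil)) (.node (.node (.node .leaf (nat_lit 25257027657592341) (.br (nat_lit 0) (.cons (.br (nat_lit 2) (.cons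 (.rel (nat_lit 71450628)) .nil)) .nil)) .leaf) (nat_lit 25257027658614964) (.br (nat_lit 1) (.cons (.br (nat_lit 3) (.cons (.rel (nat_lit 285220896)) .nil)) .nil)) .leaf) (nat_lit 25257027658625199) (.br (nat_lit 1) (.cons (.br (nat_lit 4) (.cons (.rel (nat_lit 1090520136)) (.cons (.rel (nat_lit 1090535448)) .nil))) (.cons (.br (nat_lit 4) (.cons (.rel (nat_lit 1090519122)) (.cons (.rel (nat_lit 1090560000)) .nil))) .nil))) (.node (.node .leaf (nat_lit 25257028930870130) (.br (nat_lit 0) (.cons (.br (nat_lit 1) (.cons (.rel (nat_lit 21038466)) .nil)) .nil)) .leaf) (nat_lit 25257033421588660) (.br (nat_lit 0) (.cons (.br (nat_lit 1) (.cons (.rel (nat_lit 25170000)) .nil)) .nil)) .leaf)))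

/-- refutations 125 -/
def e125 : EX := (.node (.node (.node (.node .leaf (nat_lit 25257079220572342) (.br (nat_lit 0) (.cons (.br (nat_lit 1) (.cons (.rel (nat_lit 20973828)) .nil)) .nil)) .leaf) (nat_lit 25257079220572916) (.br (nat_lit 0) (.cons (.br (nat_lit 1) (.cons (.rel (nat_lit 20971809)) .nil)) .nil)) .leaf) (nat_lit 25257079221865198) (.br (nat_lit 0) (.cons (.br (nat_lit 1) (.cons (.rel (nat_lit 20971809)) .nil)) .nil)) (.node (.node .leaf (nat_lit 25257079223308913) (.br (nat_lit 0) (.cons (.br (nat_lit 1) (.cons (.rel (nat_lit 21496896)) .nil)) .nil)) .leaf) (nat_lit 25257079223392936) (.br (nat_lit 0) (.cons (.br (nat_lit 1) (.cons (.rel (nat_lit 25170000)) .nil)) .nil)) .leaf)) (nat_lit 25257079223402678) (.br (nat_lit 0) (.cons (.br (nat_lit 1) (.cons (.rel (nat_lit 20973828)) (.cons (.rel (nat_lit 20971809)) .nil))) (.cons (.br (nat_lit 1) (.cons (.rel (nat_lit 20971809)) (.cons (.rel (nat_lit 20971809)) .nil))) .nil))) (.node (.node (.node .leaf (nat_lit 25257079936434358) (.br (nat_lit 1) (.cons (.br (nat_lit 3) (.cons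 (.rel (nat_lit 285475152)) .nil)) .nil)) .leaf) (nat_lit 25257114312935599) (.br (nat_lit 0) (.cons (.br (nat_lit 6) (.cons (.rel (nat_lit 17184064656)) .nil)) .nil)) .leaf) (nat_lit 25257114312936726) (.br (nat_lit 0) (.cons (.br (nat_lit 1) (.cons (.rel (nat_lit 25182276)) .nil)) .nil)) (.node .leaf (nat_lit 25257119320934580) (.br (nat_lit 0) (.cons (.br (nat_lit 1) (.cons (.rel (nat_lit 23330820)) .nil)) .nil)) .leaf)))

/-- refutations 126 -/
def e126 : EX := (.node (.node .leaf (nat_lit 25257767129663670) (.br (nat_lit 1) (.cons (.br (nat_lit 2) (.cons (.rel (nat_lit 83888256)) .nil)) .nil)) .leaf) (nat_lit 25257947529800562) (.br (nat_lit 0) (.cons (.br (nat_lit 2) (.cons (.rel (nat_lit 139460616)) .nil)) .nil)) (.node .leaf (nat_lit 25257952126551297) (.br (nat_lit 1) (.cons (.br (nat_lit 2) (.cons (.rel (nat_lit 83894292)) .nil)) .nil)) .leaf))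

/-- refutations 127 -/
def e127 : EX := (.node (.node (.node .leaf (nat_lit 25257984365395201) (.br (nat_lit 0) (.cons (.br (nat_lit 1) (.cons (.rel (nat_lit 20992320)) .nil)) .nil)) .leaf) (nat_lit 25258101921831094) (.br (nat_lit 0) (.cons (.br (nat_lit 1) (.cons (.rel (nat_lit 22040580)) .nil)) .nil)) .leaf) (nat_lit 25258101924993159) (.br (nat_lit 0) (.cons (.br (nat_lit 5) (.cons (.rel (nat_lit 4299292992)) (.cons (.rel (nat_lit 4300214337)) (.cons (.rel (nat_lit 8594133012)) (.cons (.rel (nat_lit 8594133012)) .nil))))) .nil)) (.node .leaf (nat_lit 25258101924993905) (.br (nat_lit 0) (.cons (.br (nat_lit 1) (.cons (.rel (nat_lit 20971809)) .nil)) .nil)) .leaf))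

/-- refutations 128 -/
def e128 : EX := (.node (.node (.node .leaf (nat_lit 25192443609076389) (.br (nat_lit 0) (.cons (.br (nat_lit 2) (.cons (.rel (nat_lit 142606353)) .nil)) .nil)) .leaf) (nat_lit 25192443609076998) (.br (nat_lit 0) (.cons (.br (nat_lit 1) (.cons (.rel (nat_lit 37753860)) .nil)) .nil)) .leaf) (nat_lit 25192443630046460) (.br (nat_lit 0) (.cons (.br (nat_lit 1) (.cons (.rel (nat_lit 23330820)) .nil)) .nil)) (.node .leaf (nat_lit 25192486579709190) (.br (nat_lit 0) (.cons (.br (nat_lit 2) (.cons (.rel (nat_lit 142606353)) .nil)) .nil)) .leaf))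

/-- refutations 131 -/
def e131 : EX := (.node .leaf (nat_lit 26517271443966227) (.br (nat_lit 0) (.cons (.br (nat_lit 1) (.cons (.rel (nat_lit 22028304)) .nil)) .nil)) .leaf)

/-- refutations 133 -/
def e133 : EX := (.node (.node (.node .leaf (nat_lit 26584414227759386) (.br (nat_lit 0) (.cons (.br (nat_lit 4) (.cons (.rel (nat_lit 1078202628)) .nil)) .nil)) .leaf) (nat_lit 26587167611663723) (.br (nat_lit 0) (.cons (.br (nat_lit 2) (.cons (.rel (nat_lit 71304216)) .nil)) .nil)) .leaf) (nat_lit 26587167611971759) (.br (nat_lit 0) (.cons (.br (nat_lit 1) (.cons (.rel (nat_lit 20973828)) .nil)) .nil)) (.node (.node .leaf (nat_lit 26587694630218010) (.br (nat_lit 0) (.cons (.br (nat_lit 1) (.cons (.rel (nat_lit 21501954)) .nil)) .nil)) .leaf) (nat_lit 26588465325436267) (.br (nat_lit 2) (.cons (.br (nat_lit 4) (.cons (.rel (nat_lit 2214608916)) .nil)) .nil)) .leaf))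

/-- refutations 135 -/
def e135 : EX := (.node (.node .leaf (nat_lit 26918298461938344) (.br (nat_lit 1) (.cons (.br (nat_lit 3) (.cons (.rel (nat_lit 285295632)) .nil)) .nil)) .leaf) (nat_lit 26918298464327687) (.br (nat_lit 1) (.cons (.br (nat_lit 3) (.cons (.rel (nat_lit 285212805)) .nil)) .nil)) .leaf)

/-- refutations 136 -/
def e136 : EX := (.node .leaf (nat_lit 27029587587745792) (.br (nat_lit 2) (.cons (.br (nat_lit 3) (.cons (.rel (nat_lit 672137217)) .nil)) .nil)) .leaf)

/-- refutations 137 -/
def e137 : EX := (.node (.node (.node (.node .leaf (nat_lit 27356376463350441) (.br (nat_lit 0) (.cons (.br (nat_lit 2) (.cons (.rel (nat_lit 138412356)) .nil)) .nil)) .leaf) (nat_lit 27358471856156059) (.br (nat_lit 3) (.cons (.br (nat_lit 5) (.cons (.rel (nat_lit 9126805572)) .nil)) .nil)) .leaf) (nat_lit 27361455955302400) (.br (nat_lit 0) (.cons (.br (nat_lit 3) (.cons (.rel (nat_lit 272629770)) .nil)) .nil)) (.node (.node .leaf (nat_lit 27361455956529152) (.br (nat_lit 2) (.cons (.br (nat_lit 6) (.cons (.rel (nat_lit 17247045120))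 .nil)) .nil)) .leaf) (nat_lit 27361455957051392) (.br (nat_lit 1) (.cons (.br (nat_lit 3) (.cons (.rel (nat_lit 285220896)) .nil)) .nil)) .leaf)) (nat_lit 27361455957932032) (.br (nat_lit 3) (.cons (.br (nat_lit 1) (.cons (.rel (nat_lit 287310081)) (.cons (.rel (nat_lit 285220896)) .nil))) .nil)) (.node (.node (.node .leaf (nat_lit 27361487474432681) (.br (nat_lit 1) (.cons (.br (nat_lit 2) (.cons (.rel (nat_lit 83918880)) .nil)) .nil)) .leaf) (nat_lit 27361696795065101) (.br (nat_lit 0) (.cons (.br (nat_lit 5) (.cons (.rel (nat_lit 4299161892)) .nil)) .nil)) .leaf) (nat_lit 27363847830323510) (.br (nat_lit 0) (.cons (.br (nat_lit 4) (.cons (.rel (nat_lit 1077942336)) .nil)) .nil)) (.node (.node .leaf (nat_lit 27363849155209402) (.br (nat_lit 4) (.cons (.br (nat_lit 2) (.cons (.rel (nat_lit 1141899540)) (.cons (.rel (nat_lit 1140851280)) .nil))) .nil)) .leaf) (nat_lit 27363851780843706) (.br (nat_lit 1) (.cons (.br (nat_lit 4) (.cons (.rel (nat_lit 1090584582)) .nil)) .nil)) .leaf)))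

/-- list of the parts -/
def L0 : List (ℕ × List ℕ) := [(nat_lit 0xc00, [cP]),
  (nat_lit 0x10000, [cP]),
  (nat_lit 0x440000000, [cP]),
  (nat_lit 0x800000000, [cP]),
  (nat_lit 0x80000000000000, [Nat.sub (Nat.pow 2 810) (Nat.pow 2 0), Nat.sub (Nat.pow 2 3136) (Nat.pow 2 810)]),
  (nat_lit 0x10000000000, [cP]),
  (nat_lit 0x100000000000000, [cP]),
  (nat_lit 0x20000000000000000, [Nat.sub (Nat.pow 2 915) (Nat.pow 2 0), Nat.sub (Nat.pow 2 3136) (Nat.pow 2 915)]),
  (nat_lit 0x800000000000000000000000000000000, [Nat.sub (Nat.pow 2 815) (Nat.pow 2 0), Nat.sub (Nat.pow 2 3136) (Nat.pow 2 815)]),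
  (nat_lit 0x1000000000000000, [cP]),
  (nat_lit 0x200000000000000000000000000000000000, [cP]),
  (nat_lit 0x800000000000000000000000000000000000000, [cP]),
  (nat_lit 0x10000000000000000000000000000000000000000, [cP]),
  (nat_lit 0x100000000000000000000000000000000000000000, [cP]),
  (nat_lit 0x200000000000000000000000000000000000000000, [cP]),
  (nat_lit 0x400000000000000000000000000000000000000000000000, [Nat.sub (Nat.pow 2 691) (Nat.pow 2 0), Nat.sub (Nat.pow 2 1560) (Nat.pow 2 691), Nat.sub (Nat.pow 2 3136) (Nat.pow 2 1560)]),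
  (nat_lit 0x10000000000000000000000000000000000000000000000000000000000000000, [Nat.sub (Nat.pow 2 906) (Nat.pow 2 0), Nat.sub (Nat.pow 2 3136) (Nat.pow 2 906)]),
  (nat_lit 0x100000000000000000000000000000000000000000000000000000000000000000, [Nat.sub (Nat.pow 2 789) (Nat.pow 2 0), Nat.sub (Nat.pow 2 3136) (Nat.pow 2 789)]),
  (nat_lit 0x1000000000000000000000000000000000000000000000, [cP]),
  (nat_lit 0x200000000000000000000000000000000000000000000000000000000000000000, [cP]),
  (nat_lit 0x2000000000000000000000000000000000000000000000000000000000000000000, [cP]),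
  (nat_lit 0x4000000000000000000000000000000000000000000000000000000000000000000, [cP]),
  (nat_lit 0x8000000000000000000000000000000000000000000000000000000000000000000000, [cP]),
  (nat_lit 0x10000000000000000000000000000000000000000000000000000000000000000000000, [cP]),
  (nat_lit 0x100000000000000000000000000000000000000000000000000000000000000000000000, [cP]),
  (nat_lit 0x4000000000000000000000000000000000000000000000000000000000000000000000000, [Nat.sub (Nat.pow 2 815) (Nat.pow 2 0), Nat.sub (Nat.pow 2 3136) (Nat.pow 2 815)]),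
  (nat_lit 0x200000000000000000000000000000000000000000000000000000000000000000000000, [cP]),
  (nat_lit 0x10000000000000000000000000000000000000000000000000000000000000000000000000000, [cP]),
  (nat_lit 0x400000000000000000000000000000000000000000000000000000000000000000000000000000, [Nat.sub (Nat.pow 2 790) (Nat.pow 2 0), Nat.sub (Nat.pow 2 3136) (Nat.pow 2 790)]),
  (nat_lit 0x20000000000000000000000000000000000000000000000000000000000000000000000000000, [cP]),
  (nat_lit 0x4000000000000000000000000000000000000000000000000000000000000000000000000000000, [cP]),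
  (nat_lit 0x80000000000000000000000000000000000000000000000000000000000000000000000000000000000000000000000000000000000000000000000000000000000000000000000000000000000000, [Nat.sub (Nat.pow 2 804) (Nat.pow 2 0), Nat.sub (Nat.pow 2 3136) (Nat.pow 2 804)]),
  (nat_lit 0x400000000000000000000000000000000000000000000000000000000000000000000000000000000000000000000000000000000000000000000000000000000000000000000000000000000000000, [Nat.sub (Nat.pow 2 939) (Nat.pow 2 0), Nat.sub (Nat.pow 2 3136) (Nat.pow 2 939)]),
  (nat_lit 0x20000000000000000000000000000000000000000000000000000000000000000000000000000000000000000000000000000000000000000000000000000000000000000000000000000000000000, [cP]),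
  (nat_lit 0x20000000000000000000000000000000000000000000000000000000000000000000000000000000000000000000000000000000000000000000000000000000000000000000000000000000000000000, [Nat.sub (Nat.pow 2 929) (Nat.pow 2 0), Nat.sub (Nat.pow 2 3136) (Nat.pow 2 929)]),
  (nat_lit 0x100000000000000000000000000000000000000000000000000000000000000000000000000000000000000000000000000000000000000000000000000000000000000000000000000000000000000000000, [Nat.sub (Nat.pow 2 789) (Nat.pow 2 0), Nat.sub (Nat.pow 2 3136) (Nat.pow 2 789)]),
  (nat_lit 0x1000000000000000000000000000000000000000000000000000000000000000000000000000000000000000000000000000000000000000000000000000000000000000000000000000000000000000000000, [Nat.sub (Nat.pow 2 791) (Nat.pow 2 0), Nat.sub (Nat.pow 2 3136) (Nat.pow 2 791)]),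
  (nat_lit 0x80001000000000000000000000000000000000000000000000000000000000000000000000000000000000000000000000000000000000000000000000000000000000000000000000000000000000000000, [cP]),
  (nat_lit 0x20000000000000000000000000000000000000000000000000000000000000000000000000000000000000000000000000000000000000000000000000000000000000000000000000000000000000000000000, [cP]),
  (nat_lit 0x200000000000000000000000000000000000000000000000000000000000000000000000000000000000000000000000000000000000000000000000000000000000000000000000000000000000000000000000000, [Nat.sub (Nat.pow 2 779) (Nat.pow 2 0), Nat.sub (Nat.pow 2 3136) (Nat.pow 2 779)]),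
  (nat_lit 0x40000000000000000000000000000000000000000000000000000000000000000000000000000000000000000000000000000000000000000000000000000000000000000000000000000000000000000000000, [cP]),
  (nat_lit 0x1000000000000000000000000000000000000000000000000000000000000000000000000000000000000000000000000000000000000000000000000000000000000000000000000000000000000000000000000000, [cP]),
  (nat_lit 0x4000000000000000000000000000000000000000000000000000000000000000000000000000000000000000000000000000000000000000000000000000000000000000000000000000000000000000000000000000, [cP]),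
  (nat_lit 0x20000000000000000000000000000000000000000000000000000000000000000000000000000000000000000000000000000000000000000000000000000000000000000000000000000000000000000000000000000, [cP]),
  (nat_lit 0x1000000000000000000000000000000000000000000000000000000000000000000000000000000000000000000000000000000000000000000000000000000000000000000000000000000000000000000000000000000000000000000000, [cP]),
  (nat_lit 0x20000000000000000000000000000000000000000000000000000000000000000000000000000000000000000000000000000000000000000000000000000000000000000000000000000000000000000000000000000000000000000000000, [cP]),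
  (nat_lit 0x100000000000000000000000000000000000000000000000000000000000000000000000000000000000000000000000000000000000000000000000000000000000000000000000000000000000000000000000000000000000000000000000, [cP]),
  (nat_lit 0x20000000000000000000000000000000000000000000000000000000000000000000000000000000000000000000000000000000000000000000000000000000000000000000000000000000000000000000000000000000000000000000000000000, [Nat.sub (Nat.pow 2 756) (Nat.pow 2 0), Nat.sub (Nat.pow 2 3136) (Nat.pow 2 756)]),
  (nat_lit 0x400000000000000000000000000000000000000000000000000000000000000000000000000000000000000000000000000000000000000000000000000000000000000000000000000000000000000000000000000000000000000000000000, [cP]),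
  (nat_lit 0x400000000000000000000000000000000000000000000000000000000000000000000000000000000000000000000000000000000000000000000000000000000000000000000000000000000000000000000000000000000000000000000000000000, [cP]),
  (nat_lit 0x1000000000000000000000000000000000000000000000000000000000000000000000000000000000000000000000000000000000000000000000000000000000000000000000000000000000000000000000000000000000000000000000000000000000000, [Nat.sub (Nat.pow 2 756) (Nat.pow 2 0), Nat.sub (Nat.pow 2 3136) (Nat.pow 2 756)]),
  (nat_lit 0x80000000000000000000000000000000000000000000000000000000000000000000000000000000000000000000000000000000000000000000000000000000000000000000000000000000000000000000000000000000000000000000000000000000000, [cP]),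
  (nat_lit 0x8000000000000000000000000000000000000000000000000000000000000000000000000000000000000000000000000000000000000000000000000000000000000000000000000000000000000000000000000000000000000000000000000000000000000000000000000000, [cP]),
  (nat_lit 0x20000000000000000000000000000000000000000000000000000000000000000000000000000000000000000000000000000000000000000000000000000000000000000000000000000000000000000000000000000000000000000000000000000000000000000000000000000, [cP]),
  (nat_lit 0x8400000000000000000000000000000000000000000000000000000000000000000000000000000000000000000000000000000000000000000000000000000000000000000000000000000000000000000000000000000000000000000000000000000000000000000000000000000, [cP]),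
  (nat_lit 0x20000000000000000000000000000000000000000000000000000000000000000000000000000000000000000000000000000000000000000000000000000000000000000000000000000000000000000000000000000000000000000000000000000000000000000000000000000000000, [cP]),
  (nat_lit 0x40000000000000000000000000000000000000000000000000000000000000000000000000000000000000000000000000000000000000000000000000000000000000000000000000000000000000000000000000000000000000000000000000000000000000000000000000000000000, [cP]),
  (nat_lit 0x8000000000000000000000000000000000000000000000000000000000000000000000000000000000000000000000000000000000000000000000000000000000000000000000000000000000000000000000000000000000000000000000000000000000000000000000000000000000000, [cP]),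
  (nat_lit 0x80000000000000000000000000000000000000000000000000000000000000000000000000000000000000000000000000000000000000000000000000000000000000000000000000000000000000000000000000000000000000000000000000000000000000000000000000000000000000000, [cP]),
  (nat_lit 0x1000000000000000000000000000000000000000000000000000000000000000000000000000000000000000000000000000000000000000000000000000000000000000000000000000000000000000000000000000000000000000000000000000000000000000000000000000000000000000000, [Nat.sub (Nat.pow 2 791) (Nat.pow 2 0), Nat.sub (Nat.pow 2 3136) (Nat.pow 2 791)]),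
  (nat_lit 0x20000000000000000000000000000000000000000000000000000000000000000000000000000000000000000000000000000000000000000000000000000000000000000000000000000000000000000000000000000000000000000000000000000000000000000000000000000000000000000000, [Nat.sub (Nat.pow 2 804) (Nat.pow 2 0), Nat.sub (Nat.pow 2 3136) (Nat.pow 2 804)]),
  (nat_lit 0x40000000000000000000000000000000000000000000000000000000000000000000000000000000000000000000000000000000000000000000000000000000000000000000000000000000000000000000000000000000000000000000000000000000000000000000000000000000000000000000000000000000000000000000000000000000000000000000000000000000000000000000000000, [Nat.sub (Nat.pow 2 810) (Nat.pow 2 0), Nat.sub (Nat.pow 2 3136) (Nat.pow 2 810)]),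
  (nat_lit 0x800000000000000000000000000000000000000000000000000000000000000000000000000000000000000000000000000000000000000000000000000000000000000000000000000000000000000000000000000000000000000000000000000000000000000000000000000000000000000000, [cP]),
  (nat_lit 0x1000000000000000000000000000000000000000000000000000000000000000000000000000000000000000000000000000000000000000000000000000000000000000000000000000000000000000000000000000000000000000000000000000000000000000000000000000000000000000000000000000000000000000000000000000000000000000000000000000000000000000000000000000, [cP]),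
  (nat_lit 0x40000000000000000000000000000000000000000000000000000000000000000000000000000000000000000000000000000000000000000000000000000000000000000000000000000000000000000000000000000000000000000000000000000000000000000000000000000000000000000000000000000000000000000000000000000000000000000000000000000000000000000000000000000, [cP]),
  (nat_lit 0x100000000000000000000000000000000000000000000000000000000000000000000000000000000000000000000000000000000000000000000000000000000000000000000000000000000000000000000000000000000000000000000000000000000000000000000000000000000000000000000000000000000000000000000000000000000000000000000000000000000000000000000000000000000, [cP]),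
  (nat_lit 0x2000000000000000000000000000000000000000000000000000000000000000000000000000000000000000000000000000000000000000000000000000000000000000000000000000000000000000000000000000000000000000000000000000000000000000000000000000000000000000000000000000000000000000000000000000000000000000000000000000000000000000000000000000000000, [cP]),
  (nat_lit 0x4000000000000000000000000000000000000000000000000000000000000000000000000000000000000000000000000000000000000000000000000000000000000000000000000000000000000000000000000000000000000000000000000000000000000000000000000000000000000000000000000000000000000000000000000000000000000000000000000000000000000000000000000000000000, [cP]),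
  (nat_lit 0x20000000000000000000000000000000000000000000000000000000000000000000000000000000000000000000000000000000000000000000000000000000000000000000000000000000000000000000000000000000000000000000000000000000000000000000000000000000000000000000000000000000000000000000000000000000000000000000000000000000000000000000000000000000000, [cP]),
  (nat_lit 0x100000000000000000000000000000000000000000000000000000000000000000000000000000000000000000000000000000000000000000000000000000000000000000000000000000000000000000000000000000000000000000000000000000000000000000000000000000000000000000000000000000000000000000000000000000000000000000000000000000000000000000000000000000000000000, [Nat.sub (Nat.pow 2 815) (Nat.pow 2 0), Nat.sub (Nat.pow 2 3136) (Nat.pow 2 815)]),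
  (nat_lit 0x80000000000000000000000000000000000000000000000000000000000000000000000000000000000000000000000000000000000000000000000000000000000000000000000000000000000000000000000000000000000000000000000000000000000000000000000000000000000000000000000000000000000000000000000000000000000000000000000000000000000000000000000000000000000, [cP]),
  (nat_lit 0x400000000000000000000000000000000000000000000000000000000000000000000000000000000000000000000000000000000000000000000000000000000000000000000000000000000000000000000000000000000000000000000000000000000000000000000000000000000000000000000000000000000000000000000000000000000000000000000000000000000000000000000000000000000000000, [cP]),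
  (nat_lit 0x40000000000000000000000000000000000000000000000000000000000000000000000000000000000000000000000000000000000000000000000000000000000000000000000000000000000000000000000000000000000000000000000000000000000000000000000000000000000000000000000000000000000000000000000000000000000000000000000000000000000000000000000000000000000000000, [cP]),
  (nat_lit 0x80000000000000000000000000000000000000000000000000000000000000000000000000000000000000000000000000000000000000000000000000000000000000000000000000000000000000000000000000000000000000000000000000000000000000000000000000000000000000000000000000000000000000000000000000000000000000000000000000000000000000000000000000000000000000000, [cP]),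
  (nat_lit 0x2000000000000000000000000000000000000000000000000000000000000000000000000000000000000000000000000000000000000000000000000000000000000000000000000000000000000000000000000000000000000000000000000000000000000000000000000000000000000000000000000000000000000000000000000000000000000000000000000000000000000000000000000000000000000000000000000000000000, [cP]),
  (nat_lit 0x10000000000000000000000000000000000000000000000000000000000000000000000000000000000000000000000000000000000000000000000000000000000000000000000000000000000000000000000000000000000000000000000000000000000000000000000000000000000000000000000000000000000000000000000000000000000000000000000000000000000000000000000000000000000000000000000000000000000, [cP]),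
  (nat_lit 0x400000000000000000000000000000000000000000000000000000000000000000000000000000000000000000000000000000000000000000000000000000000000000000000000000000000000000000000000000000000000000000000000000000000000000000000000000000000000000000000000000000000000000000000000000000000000000000000000000000000000000000000000000000000000000000000000000000000000, [cP]),
  (nat_lit 0x1000000000000000000000000000000000000000000000000000000000000000000000000000000000000000000000000000000000000000000000000000000000000000000000000000000000000000000000000000000000000000000000000000000000000000000000000000000000000000000000000000000000000000000000000000000000000000000000000000000000000000000000000000000000000000000000000000000000000000, [cP]),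
  (nat_lit 0x40000000000000000000000000000000000000000000000000000000000000000000000000000000000000000000000000000000000000000000000000000000000000000000000000000000000000000000000000000000000000000000000000000000000000000000000000000000000000000000000000000000000000000000000000000000000000000000000000000000000000000000000000000000000000000000000000000000000000000, [cP]),
  (nat_lit 0x2000000000000000000000000000000000000000000000000000000000000000000000000000000000000000000000000000000000000000000000000000000000000000000000000000000000000000000000000000000000000000000000000000000000000000000000000000000000000000000000000000000000000000000000000000000000000000000000000000000000000000000000000000000000000000000000000000000000000000000000, [Nat.sub (Nat.pow 2 929) (Nat.pow 2 0), Nat.sub (Nat.pow 2 1560) (Nat.pow 2 929), Nat.sub (Nat.pow 2 3136) (Nat.pow 2 1560)]),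
  (nat_lit 0x1000000000000000000000000000000000000000000000000000000000000000000000000000000000000000000000000000000000000000000000000000000000000000000000000000000000000000000000000000000000000000000000000000000000000000000000000000000000000000000000000000000000000000000000000000000000000000000000000000000000000000000000000000000000000000000000000000000000000000000, [cP]),
  (nat_lit 0x8000000000000000000000000000000000000000000000000000000000000000000000000000000000000000000000000000000000000000000000000000000000000000000000000000000000000000000000000000000000000000000000000000000000000000000000000000000000000000000000000000000000000000000000000000000000000000000000000000000000000000000000000000000000000000000000000000000000000000000000, [Nat.sub (Nat.pow 2 881) (Nat.pow 2 0), Nat.sub (Nat.pow 2 1561) (Nat.pow 2 881), Nat.sub (Nat.pow 2 3136) (Nat.pow 2 1561)]),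
  (nat_lit 0x40000000000000000000000000000000000000000000000000000000000000000000000000000000000000000000000000000000000000000000000000000000000000000000000000000000000000000000000000000000000000000000000000000000000000000000000000000000000000000000000000000000000000000000000000000000000000000000000000000000000000000000000000000000000000000000000000000000000000000000000, [Nat.sub (Nat.pow 2 779) (Nat.pow 2 0), Nat.sub (Nat.pow 2 3136) (Nat.pow 2 779)]),
  (nat_lit 0x80000000000000000000000000000000000000000000000000000000000000000000000000000000000000000000000000000000000000000000000000000000000000000000000000000000000000000000000000000000000000000000000000000000000000000000000000000000000000000000000000000000000000000000000000000000000000000000000000000000000000000000000000000000000000000000000000000000000000000000000, [Nat.sub (Nat.pow 2 789) (Nat.pow 2 0), Nat.sub (Nat.pow 2 3136) (Nat.pow 2 789)]),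
  (nat_lit 0x4000000000000000000000000000000000000000000000000000000000000000000000000000000000000000000000000000000000000000000000000000000000000000000000000000000000000000000000000000000000000000000000000000000000000000000000000000000000000000000000000000000000000000000000000000000000000000000000000000000000000000000000000000000000000000000000000000000000000000000000, [cP]),
  (nat_lit 0x800000000000000000000000000000000000000000000000000000000000000000000000000000000000000000000000000000000000000000000000000000000000000000000000000000000000000000000000000000000000000000000000000000000000000000000000000000000000000000000000000000000000000000000000000000000000000000000000000000000000000000000000000000000000000000000000000000000000000000000000, [Nat.sub (Nat.pow 2 55) (Nat.pow 2 0), Nat.sub (Nat.pow 2 61) (Nat.pow 2 55), Nat.sub (Nat.pow 2 130) (Nat.pow 2 61), Nat.sub (Nat.pow 2 189) (Nat.pow 2 130), Nat.sub (Nat.pow 2 629) (Nat.pow 2 189), Nat.sub (Nat.pow 2 685) (Nat.pow 2 629), Nat.sub (Nat.pow 2 784) (Nat.pow 2 685), Nat.sub (Nat.pow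 2 815) (Nat.pow 2 784), Nat.sub (Nat.pow 2 931) (Nat.pow 2 815), Nat.sub (Nat.pow 2 939) (Nat.pow 2 931), Nat.sub (Nat.pow 2 1265) (Nat.pow 2 939), Nat.sub (Nat.pow 2 1310) (Nat.pow 2 1265), Nat.sub (Nat.pow 2 1435) (Nat.pow 2 1310), Nat.sub (Nat.pow 2 1511) (Nat.pow 2 1435), Nat.sub (Nat.pow 2 1540) (Nat.pow 2 1511), Nat.sub (Nat.pow 2 3136) (Nat.pow 2 1540)]),
  (nat_lit 0x100000000000000000000000000000000000000000000000000000000000000000000000000000000000000000000000000000000000000000000000000000000000000000000000000000000000000000000000000000000000000000000000000000000000000000000000000000000000000000000000000000000000000000000000000000000000000000000000000000000000000000000000000000000000000000000000000000000000000000000000, [cP]),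
  (nat_lit 0x20000000000000000000000000000000000000000000000000000000000000000000000000000000000000000000000000000000000000000000000000000000000000000000000000000000000000000000000000000000000000000000000000000000000000000000000000000000000000000000000000000000000000000000000000000000000000000000000000000000000000000000000000000000000000000000000000000000000000000000000000000000000000000, [cP]),
  (nat_lit 0x40000000000000000000000000000000000000000000000000000000000000000000000000000000000000000000000000000000000000000000000000000000000000000000000000000000000000000000000000000000000000000000000000000000000000000000000000000000000000000000000000000000000000000000000000000000000000000000000000000000000000000000000000000000000000000000000000000000000000000000000000000000000000000, [cP]),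
  (nat_lit 0x800000000000000000000000000000000000000000000000000000000000000000000000000000000000000000000000000000000000000000000000000000000000000000000000000000000000000000000000000000000000000000000000000000000000000000000000000000000000000000000000000000000000000000000000000000000000000000000000000000000000000000000000000000000000000000000000000000000000000000000000000000000000000000, [cP]),
  (nat_lit 0x4000000000000000000000000000000000000000000000000000000000000000000000000000000000000000000000000000000000000000000000000000000000000000000000000000000000000000000000000000000000000000000000000000000000000000000000000000000000000000000000000000000000000000000000000000000000000000000000000000000000000000000000000000000000000000000000000000000000000000000000000000000000000000000, [cP]),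
  (nat_lit 0x8000000000000000000000000000000000000000000000000000000000000000000000000000000000000000000000000000000000000000000000000000000000000000000000000000000000000000000000000000000000000000000000000000000000000000000000000000000000000000000000000000000000000000000000000000000000000000000000000000000000000000000000000000000000000000000000000000000000000000000000000000000000000000000, [cP]),
  (nat_lit 0x80000000000000000000000000000000000000000000000000000000000000000000000000000000000000000000000000000000000000000000000000000000000000000000000000000000000000000000000000000000000000000000000000000000000000000000000000000000000000000000000000000000000000000000000000000000000000000000000000000000000000000000000000000000000000000000000000000000000000000000000000000000000000000000000, [cP]),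
  (nat_lit 0x400000000000000000000000000000000000000000000000000000000000000000000000000000000000000000000000000000000000000000000000000000000000000000000000000000000000000000000000000000000000000000000000000000000000000000000000000000000000000000000000000000000000000000000000000000000000000000000000000000000000000000000000000000000000000000000000000000000000000000000000000000000000000000000000, [cP]),
  (nat_lit 0x10000000000000000000000000000000000000000000000000000000000000000000000000000000000000000000000000000000000000000000000000000000000000000000000000000000000000000000000000000000000000000000000000000000000000000000000000000000000000000000000000000000000000000000000000000000000000000000000000000000000000000000000000000000000000000000000000000000000000000000000000000000000000000000000000, [cP]),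
  (nat_lit 0x800000000000000000000000000000000000000000000000000000000000000000000000000000000000000000000000000000000000000000000000000000000000000000000000000000000000000000000000000000000000000000000000000000000000000000000000000000000000000000000000000000000000000000000000000000000000000000000000000000000000000000000000000000000000000000000000000000000000000000000000000000000000000000000000000000, [cP]),
  (nat_lit 0x1000000000000000000000000000000000000000000000000000000000000000000000000000000000000000000000000000000000000000000000000000000000000000000000000000000000000000000000000000000000000000000000000000000000000000000000000000000000000000000000000000000000000000000000000000000000000000000000000000000000000000000000000000000000000000000000000000000000000000000000000000000000000000000000000000000, [cP]),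
  (nat_lit 0x10000000000000000000000000000000000000000000000000000000000000000000000000000000000000000000000000000000000000000000000000000000000000000000000000000000000000000000000000000000000000000000000000000000000000000000000000000000000000000000000000000000000000000000000000000000000000000000000000000000000000000000000000000000000000000000000000000000000000000000000000000000000000000000000000000000, [cP]),
  (nat_lit 0x40000000000000000000000000000000000000000000000000000000000000000000000000000000000000000000000000000000000000000000000000000000000000000000000000000000000000000000000000000000000000000000000000000000000000000000000000000000000000000000000000000000000000000000000000000000000000000000000000000000000000000000000000000000000000000000000000000000000000000000000000000000000000000000000000000000, [cP])]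

theorem hp0 : ∀ p ∈ L0, ∀ D2 ∈ p.2, ∃ e,
    search ext94 (Pool.Agent.H74.EGZ.vio sb) G Uc A0 p.1 D2 e = true :=
  (List.forall_mem_cons.2 ⟨(List.forall_mem_singleton.2 ⟨.leaf, by decide +kernel⟩),
  (List.forall_mem_cons.2 ⟨(List.forall_mem_singleton.2 ⟨.leaf, by decide +kernel⟩),
  (List.forall_mem_cons.2 ⟨(List.forall_mem_singleton.2 ⟨e2, by decide +kernel⟩),
  (List.forall_mem_cons.2 ⟨(List.forall_mem_singleton.2 ⟨e3, by decide +kernel⟩),
  (List.forall_mem_cons.2 ⟨(List.forall_mem_cons.2 ⟨⟨e4, by decide +kernel⟩,
  (List.forall_mem_singleton.2 ⟨e5, by decide +kernel⟩)⟩),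
  (List.forall_mem_cons.2 ⟨(List.forall_mem_singleton.2 ⟨e6, by decide +kernel⟩),
  (List.forall_mem_cons.2 ⟨(List.forall_mem_singleton.2 ⟨.leaf, by decide +kernel⟩),
  (List.forall_mem_cons.2 ⟨(List.forall_mem_cons.2 ⟨⟨e8, by decide +kernel⟩,
  (List.forall_mem_singleton.2 ⟨e9, by decide +kernel⟩)⟩),
  (List.forall_mem_cons.2 ⟨(List.forall_mem_cons.2 ⟨⟨.leaf, by decide +kernel⟩,
  (List.forall_mem_singleton.2 ⟨e11, by decide +kernel⟩)⟩),
  (List.forall_mem_cons.2 ⟨(List.forall_mem_singleton.2 ⟨e12, by decide +kernel⟩),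
  (List.forall_mem_cons.2 ⟨(List.forall_mem_singleton.2 ⟨.leaf, by decide +kernel⟩),
  (List.forall_mem_cons.2 ⟨(List.forall_mem_singleton.2 ⟨e14, by decide +kernel⟩),
  (List.forall_mem_cons.2 ⟨(List.forall_mem_singleton.2 ⟨e15, by decide +kernel⟩),
  (List.forall_mem_cons.2 ⟨(List.forall_mem_singleton.2 ⟨.leaf, by decide +kernel⟩),
  (List.forall_mem_cons.2 ⟨(List.forall_mem_singleton.2 ⟨e17, by decide +kernel⟩),
  (List.forall_mem_cons.2 ⟨(List.forall_mem_cons.2 ⟨⟨e18, by decide +kernel⟩,
  (List.forall_mem_cons.2 ⟨⟨e19, by decide +kernel⟩,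
  (List.forall_mem_singleton.2 ⟨.leaf, by decide +kernel⟩)⟩)⟩),
  (List.forall_mem_cons.2 ⟨(List.forall_mem_cons.2 ⟨⟨e21, by decide +kernel⟩,
  (List.forall_mem_singleton.2 ⟨.leaf, by decide +kernel⟩)⟩),
  (List.forall_mem_cons.2 ⟨(List.forall_mem_cons.2 ⟨⟨e23, by decide +kernel⟩,
  (List.forall_mem_singleton.2 ⟨e24, by decide +kernel⟩)⟩),
  (List.forall_mem_cons.2 ⟨(List.forall_mem_singleton.2 ⟨e25, by decide +kernel⟩),
  (List.forall_mem_cons.2 ⟨(List.forall_mem_singleton.2 ⟨e26, by decide +kernel⟩),
  (List.forall_mem_cons.2 ⟨(List.forall_mem_singleton.2 ⟨e27, by decide +kernel⟩),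
  (List.forall_mem_cons.2 ⟨(List.forall_mem_singleton.2 ⟨e28, by decide +kernel⟩),
  (List.forall_mem_cons.2 ⟨(List.forall_mem_singleton.2 ⟨.leaf, by decide +kernel⟩),
  (List.forall_mem_cons.2 ⟨(List.forall_mem_singleton.2 ⟨.leaf, by decide +kernel⟩),
  (List.forall_mem_cons.2 ⟨(List.forall_mem_singleton.2 ⟨.leaf, by decide +kernel⟩),
  (List.forall_mem_cons.2 ⟨(List.forall_mem_cons.2 ⟨⟨.leaf, by decide +kernel⟩,
  (List.forall_mem_singleton.2 ⟨e33, by decide +kernel⟩)⟩),
  (List.forall_mem_cons.2 ⟨(List.forall_mem_singleton.2 ⟨e34, by decide +kernel⟩),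
  (List.forall_mem_cons.2 ⟨(List.forall_mem_singleton.2 ⟨.leaf, by decide +kernel⟩),
  (List.forall_mem_cons.2 ⟨(List.forall_mem_cons.2 ⟨⟨e36, by decide +kernel⟩,
  (List.forall_mem_singleton.2 ⟨e37, by decide +kernel⟩)⟩),
  (List.forall_mem_cons.2 ⟨(List.forall_mem_singleton.2 ⟨.leaf, by decide +kernel⟩),
  (List.forall_mem_cons.2 ⟨(List.forall_mem_singleton.2 ⟨e39, by decide +kernel⟩),
  (List.forall_mem_cons.2 ⟨(List.forall_mem_cons.2 ⟨⟨.leaf, by decide +kernel⟩,
  (List.forall_mem_singleton.2 ⟨.leaf, by decide +kernel⟩)⟩),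
  (List.forall_mem_cons.2 ⟨(List.forall_mem_cons.2 ⟨⟨.leaf, by decide +kernel⟩,
  (List.forall_mem_singleton.2 ⟨e43, by decide +kernel⟩)⟩),
  (List.forall_mem_cons.2 ⟨(List.forall_mem_singleton.2 ⟨e44, by decide +kernel⟩),
  (List.forall_mem_cons.2 ⟨(List.forall_mem_cons.2 ⟨⟨.leaf, by decide +kernel⟩,
  (List.forall_mem_singleton.2 ⟨e46, by decide +kernel⟩)⟩),
  (List.forall_mem_cons.2 ⟨(List.forall_mem_cons.2 ⟨⟨e47, by decide +kernel⟩,
  (List.forall_mem_singleton.2 ⟨e48, by decide +kernel⟩)⟩),
  (List.forall_mem_cons.2 ⟨(List.forall_mem_cons.2 ⟨⟨e49, by decide +kernel⟩,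
  (List.forall_mem_singleton.2 ⟨e50, by decide +kernel⟩)⟩),
  (List.forall_mem_cons.2 ⟨(List.forall_mem_singleton.2 ⟨e51, by decide +kernel⟩),
  (List.forall_mem_cons.2 ⟨(List.forall_mem_singleton.2 ⟨e52, by decide +kernel⟩),
  (List.forall_mem_cons.2 ⟨(List.forall_mem_cons.2 ⟨⟨.leaf, by decide +kernel⟩,
  (List.forall_mem_singleton.2 ⟨.leaf, by decide +kernel⟩)⟩),
  (List.forall_mem_cons.2 ⟨(List.forall_mem_singleton.2 ⟨e55, by decide +kernel⟩),
  (List.forall_mem_cons.2 ⟨(List.forall_mem_singleton.2 ⟨.leaf, by decide +kernel⟩),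
  (List.forall_mem_cons.2 ⟨(List.forall_mem_singleton.2 ⟨.leaf, by decide +kernel⟩),
  (List.forall_mem_cons.2 ⟨(List.forall_mem_singleton.2 ⟨.leaf, by decide +kernel⟩),
  (List.forall_mem_cons.2 ⟨(List.forall_mem_singleton.2 ⟨e59, by decide +kernel⟩),
  (List.forall_mem_cons.2 ⟨(List.forall_mem_singleton.2 ⟨.leaf, by decide +kernel⟩),
  (List.forall_mem_cons.2 ⟨(List.forall_mem_singleton.2 ⟨.leaf, by decide +kernel⟩),
  (List.forall_mem_cons.2 ⟨(List.forall_mem_cons.2 ⟨⟨.leaf, by decide +kernel⟩,
  (List.forall_mem_singleton.2 ⟨.leaf, by decide +kernel⟩)⟩),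
  (List.forall_mem_cons.2 ⟨(List.forall_mem_singleton.2 ⟨e64, by decide +kernel⟩),
  (List.forall_mem_cons.2 ⟨(List.forall_mem_singleton.2 ⟨e65, by decide +kernel⟩),
  (List.forall_mem_cons.2 ⟨(List.forall_mem_cons.2 ⟨⟨.leaf, by decide +kernel⟩,
  (List.forall_mem_singleton.2 ⟨.leaf, by decide +kernel⟩)⟩),
  (List.forall_mem_cons.2 ⟨(List.forall_mem_singleton.2 ⟨.leaf, by decide +kernel⟩),
  (List.forall_mem_cons.2 ⟨(List.forall_mem_singleton.2 ⟨.leaf, by decide +kernel⟩),
  (List.forall_mem_cons.2 ⟨(List.forall_mem_singleton.2 ⟨e70, by decide +kernel⟩),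
  (List.forall_mem_cons.2 ⟨(List.forall_mem_singleton.2 ⟨.leaf, by decide +kernel⟩),
  (List.forall_mem_cons.2 ⟨(List.forall_mem_singleton.2 ⟨e72, by decide +kernel⟩),
  (List.forall_mem_cons.2 ⟨(List.forall_mem_singleton.2 ⟨.leaf, by decide +kernel⟩),
  (List.forall_mem_cons.2 ⟨(List.forall_mem_singleton.2 ⟨.leaf, by decide +kernel⟩),
  (List.forall_mem_cons.2 ⟨(List.forall_mem_singleton.2 ⟨e75, by decide +kernel⟩),
  (List.forall_mem_cons.2 ⟨(List.forall_mem_cons.2 ⟨⟨e76, by decide +kernel⟩,
  (List.forall_mem_singleton.2 ⟨e77, by decide +kernel⟩)⟩),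
  (List.forall_mem_cons.2 ⟨(List.forall_mem_cons.2 ⟨⟨e78, by decide +kernel⟩,
  (List.forall_mem_singleton.2 ⟨e79, by decide +kernel⟩)⟩),
  (List.forall_mem_cons.2 ⟨(List.forall_mem_cons.2 ⟨⟨e80, by decide +kernel⟩,
  (List.forall_mem_singleton.2 ⟨e81, by decide +kernel⟩)⟩),
  (List.forall_mem_cons.2 ⟨(List.forall_mem_singleton.2 ⟨e82, by decide +kernel⟩),
  (List.forall_mem_cons.2 ⟨(List.forall_mem_singleton.2 ⟨e83, by decide +kernel⟩),
  (List.forall_mem_cons.2 ⟨(List.forall_mem_singleton.2 ⟨.leaf, by decide +kernel⟩),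
  (List.forall_mem_cons.2 ⟨(List.forall_mem_singleton.2 ⟨.leaf, by decide +kernel⟩),
  (List.forall_mem_cons.2 ⟨(List.forall_mem_singleton.2 ⟨e86, by decide +kernel⟩),
  (List.forall_mem_cons.2 ⟨(List.forall_mem_singleton.2 ⟨.leaf, by decide +kernel⟩),
  (List.forall_mem_cons.2 ⟨(List.forall_mem_singleton.2 ⟨e88, by decide +kernel⟩),
  (List.forall_mem_cons.2 ⟨(List.forall_mem_cons.2 ⟨⟨e89, by decide +kernel⟩,
  (List.forall_mem_singleton.2 ⟨.leaf, by decide +kernel⟩)⟩),
  (List.forall_mem_cons.2 ⟨(List.forall_mem_singleton.2 ⟨e91, by decide +kernel⟩),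
  (List.forall_mem_cons.2 ⟨(List.forall_mem_singleton.2 ⟨.leaf, by decide +kernel⟩),
  (List.forall_mem_cons.2 ⟨(List.forall_mem_singleton.2 ⟨.leaf, by decide +kernel⟩),
  (List.forall_mem_cons.2 ⟨(List.forall_mem_singleton.2 ⟨.leaf, by decide +kernel⟩),
  (List.forall_mem_cons.2 ⟨(List.forall_mem_singleton.2 ⟨.leaf, by decide +kernel⟩),
  (List.forall_mem_cons.2 ⟨(List.forall_mem_singleton.2 ⟨e96, by decide +kernel⟩),
  (List.forall_mem_cons.2 ⟨(List.forall_mem_singleton.2 ⟨.leaf, by decide +kernel⟩),
  (List.forall_mem_cons.2 ⟨(List.forall_mem_singleton.2 ⟨e98, by decide +kernel⟩),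
  (List.forall_mem_cons.2 ⟨(List.forall_mem_singleton.2 ⟨e99, by decide +kernel⟩),
  (List.forall_mem_cons.2 ⟨(List.forall_mem_cons.2 ⟨⟨e100, by decide +kernel⟩,
  (List.forall_mem_cons.2 ⟨⟨e101, by decide +kernel⟩,
  (List.forall_mem_singleton.2 ⟨.leaf, by decide +kernel⟩)⟩)⟩),
  (List.forall_mem_cons.2 ⟨(List.forall_mem_singleton.2 ⟨.leaf, by decide +kernel⟩),
  (List.forall_mem_cons.2 ⟨(List.forall_mem_cons.2 ⟨⟨e104, by decide +kernel⟩,
  (List.forall_mem_cons.2 ⟨⟨e105, by decide +kernel⟩,
  (List.forall_mem_singleton.2 ⟨.leaf, by decide +kernel⟩)⟩)⟩),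
  (List.forall_mem_cons.2 ⟨(List.forall_mem_cons.2 ⟨⟨e107, by decide +kernel⟩,
  (List.forall_mem_singleton.2 ⟨e108, by decide +kernel⟩)⟩),
  (List.forall_mem_cons.2 ⟨(List.forall_mem_cons.2 ⟨⟨e109, by decide +kernel⟩,
  (List.forall_mem_singleton.2 ⟨e110, by decide +kernel⟩)⟩),
  (List.forall_mem_cons.2 ⟨(List.forall_mem_singleton.2 ⟨.leaf, by decide +kernel⟩),
  (List.forall_mem_cons.2 ⟨(List.forall_mem_cons.2 ⟨⟨e112, by decide +kernel⟩,
  (List.forall_mem_cons.2 ⟨⟨e113, by decide +kernel⟩,
  (List.forall_mem_cons.2 ⟨⟨e114, by decide +kernel⟩,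
  (List.forall_mem_cons.2 ⟨⟨e115, by decide +kernel⟩,
  (List.forall_mem_cons.2 ⟨⟨e116, by decide +kernel⟩,
  (List.forall_mem_cons.2 ⟨⟨e117, by decide +kernel⟩,
  (List.forall_mem_cons.2 ⟨⟨e118, by decide +kernel⟩,
  (List.forall_mem_cons.2 ⟨⟨e119, by decide +kernel⟩,
  (List.forall_mem_cons.2 ⟨⟨e120, by decide +kernel⟩,
  (List.forall_mem_cons.2 ⟨⟨e121, by decide +kernel⟩,
  (List.forall_mem_cons.2 ⟨⟨e122, by decide +kernel⟩,
  (List.forall_mem_cons.2 ⟨⟨e123, by decide +kernel⟩,
  (List.forall_mem_cons.2 ⟨⟨e124, by decide +kernel⟩,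
  (List.forall_mem_cons.2 ⟨⟨e125, by decide +kernel⟩,
  (List.forall_mem_cons.2 ⟨⟨e126, by decide +kernel⟩,
  (List.forall_mem_singleton.2 ⟨e127, by decide +kernel⟩)⟩)⟩)⟩)⟩)⟩)⟩)⟩)⟩)⟩)⟩)⟩)⟩)⟩)⟩)⟩),
  (List.forall_mem_cons.2 ⟨(List.forall_mem_singleton.2 ⟨e128, by decide +kernel⟩),
  (List.forall_mem_cons.2 ⟨(List.forall_mem_singleton.2 ⟨.leaf, by decide +kernel⟩),
  (List.forall_mem_cons.2 ⟨(List.forall_mem_singleton.2 ⟨.leaf, by decide +kernel⟩),
  (List.forall_mem_cons.2 ⟨(List.forall_mem_singleton.2 ⟨e131, by decide +kernel⟩),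
  (List.forall_mem_cons.2 ⟨(List.forall_mem_singleton.2 ⟨.leaf, by decide +kernel⟩),
  (List.forall_mem_cons.2 ⟨(List.forall_mem_singleton.2 ⟨e133, by decide +kernel⟩),
  (List.forall_mem_cons.2 ⟨(List.forall_mem_singleton.2 ⟨.leaf, by decide +kernel⟩),
  (List.forall_mem_cons.2 ⟨(List.forall_mem_singleton.2 ⟨e135, by decide +kernel⟩),
  (List.forall_mem_cons.2 ⟨(List.forall_mem_singleton.2 ⟨e136, by decide +kernel⟩),
  (List.forall_mem_cons.2 ⟨(List.forall_mem_singleton.2 ⟨e137, by decide +kernel⟩),
  (List.forall_mem_cons.2 ⟨(List.forall_mem_singleton.2 ⟨.leaf, by decide +kernel⟩),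
  (List.forall_mem_cons.2 ⟨(List.forall_mem_singleton.2 ⟨.leaf, by decide +kernel⟩),
  (List.forall_mem_singleton.2 (List.forall_mem_singleton.2 ⟨.leaf, by decide +kernel⟩))⟩)⟩)⟩)⟩)⟩)⟩)⟩)⟩)⟩)⟩)⟩)⟩)⟩)⟩)⟩)⟩)⟩)⟩)⟩)⟩)⟩)⟩)⟩)⟩)⟩)⟩)⟩)⟩)⟩)⟩)⟩)⟩)⟩)⟩)⟩)⟩)⟩)⟩)⟩)⟩)⟩)⟩)⟩)⟩)⟩)⟩)⟩)⟩)⟩)⟩)⟩)⟩)⟩)⟩)⟩)⟩)⟩)⟩)⟩)⟩)⟩)⟩)⟩)⟩)⟩)⟩)⟩)⟩)⟩)⟩)⟩)⟩)⟩)⟩)⟩)⟩)⟩)⟩)⟩)⟩)⟩)⟩)⟩)⟩)⟩)⟩)⟩)⟩)⟩)⟩)⟩)⟩)⟩)⟩)⟩)⟩)⟩)⟩)

end

end Pool.Agent.H21.EGZ.S9
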