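import Pool.Agent.H21.EGZ.Fin
import Pool.Agent.H29.EGZ.S.QS

/-!
# Stage 41 : data, search, conclusion
-/

set_option autoImplicit false
set_option maxRecDepth 100000

namespace Pool.Agent.H21.EGZ.S41

noncomputable section

open Pool.Agent.H74.EGZ Pool.Agent.H94.Lift Pool.Agent.H29.EGZ

/-- codes of the 18 points of the section -/
def pts : List ℕ := [10, 154, 212, 145, 124, 5, 140, 208, 23, 164, 110, 53, 169, 111, 178, 119, 174, 238]

/-- packed vectors -/
def X : ℕ := nat_lit 0x100000100010020020000010002001002001002000100200100000100010010010020010003003003007005000100200000100200020010020000010000000002001002000200000000000200010010000000020000001002002002000200000000200100010010000010000002000001002001000100100100000200020000010010000002002002001001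

/-- initial state -/
def A0 : ℕ := nat_lit 0xfff000000000100000100010020020000010002001002001002000100200100000100010010010020010003003003007005000100200000100200020010020000010000000002001002000200000000000200010010000000020000001002002002000200000000200100010010000010000002000001002001000100100100000200020000010010000002002002001001

/-- values excluded by earlier stages, both orientations -/
def sb : List (ℕ × ℕ) := [(1065, 0x5bf8c6baa6f39af592de9a9d9cbbecd7f0afb9d347df7b78bf75fd864ca5a),
  (2070, 0x5bf8c6baa6f39afd92de9a9d9cbbecd7f0af39d347df7b78bf75fd834ca5a),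
  (270533760, 0x53bde1fce5bbdf6d828e9d9b966ba8d7f1af7b1f7727fb78bc477fb6f8813),
  (537921600, 0x53bde0fce5bbdf6d828e9d9b966ba8d7f1af7b5f5727fb78bd477fb6f8813),
  (9282, 0x73dce1eca7e38ff81ade8383dec1f4d6f0eddf7f7fdf7b7cbf46358578a1f),
  (6273, 0x71dce1eca7e38ff91ade8383dec1f4d6f0efdf7f7edf7b7cbf46358578a1f),
  (270849, 0x53bde1fce5bbdf6d828e9d9b966ba8d7f1af7b5d7727fb78bd477f36f8813),
  (528642, 0x53bdc1fce5bbdf6d828e9d9b966ba8d7f1af3b5f7727fb78bd477fb6f8813),
  (90240, 0x5befb7fa6173147d1a9e829fdefbf4d6f1af538d6fb7fb7cbe670f3574255),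
  (168000, 0x5befb7fae173147d1a9e829fdefbd4d6f1afd38d6fb7fb7cbe670f3474255),
  (98340, 0x73dce1eca7e38ff91ade8383dec1f4d6e0efdf7f7fdf7b7cbf46318578a1f),
  (147480, 0x73dce1eca7e38ff91ade8383dec1f4d4f0efdf7f7fdf7b7cbf42358578a1f),
  (169082880, 0x73bb87fee3f3d7918ac41f9bdeb998d460eebf377ffff94c3c576b95d8a5f),
  (86507520, 0x7bbb87fee3fbd7918ac41f8bdeb998d460ee3f377ffff94c3c576b95d8a5f),
  (270008832, 0x2b7de7fe65fbdf701ad61b9f9ef9cc56f047f7f7753b6b6c9b616bb27ca53),
  (539230464, 0x2b7de7fe65fbdf711ad61b9f9ef8cc56f047f7f7763b6b6c9b616bb27ca53),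
  (6543114240, 0x2b7de7fe65fbde711ad61b9f9ef9cc56f047f7f7771b6b6c9b616bb27ca53),
  (9814671360, 0x2b7de7fe65fbdf711ad61b9f9ef9c456f047f7f7673b6b6c9b616bb27ca53),
  (5905580544, 0x7bbdf0fea7fbdde108ce8f9fdee15c45e1ee77f95beb0b7c3d61df37ec21e),
  (11005853952, 0x73bdf0fea7fb9de108ce8f9fdee95c45e1eef7f95beb0b7c3d61df37ec21e)]

/-- unary leaves -/
def Uc : ℕ := nat_lit 0x15e3cd7ffdddac8cdf9fbd5da7fdeb27db53f6bb0f0b12bb7f396e7dfbebf000567fa777faf7dffff7dff7eafeffffbffb792be77f3f4ffffffff6b5fdbe90006b3fd1fbf9fbeffffbefdfe77f7fffdffdacdfd7bddfa7ffffebfb53fedf40007fb4bf372e3661e1ff7bffcb97f9cd779059ffb7a23f5d9af7ddffbf50a9e0007fb7ffffbe3e6be3ff7bffeebffbed77f45dfff7ae7fdfdff7dfffbffaa9e0007fb7ffffba1e6be3ff7bffefbffbed77f45dfff7ae7fdfdff7dfffbffaa9e0007eff6ff0d64d8ef7ea763e366be66afa7c7b1f77ed78b377ff756392effce000201250a19171efff58aa5a860143f61ff5a018163546a7fdefa1614292410000153d6287ed7fff5f70fd7bcf7ffbdf43ebc56ec30b159c2d67ffffffd62ad00076e238b60278278353a1d1235e2b421ae111ba1f4a35a0a51da808967f8750000a5a8294f6a04622cf7c6ac96dcb153c978524d0f830ad42f1cc708ac69d80000000000000000080400200000000210004000080004402000000000000200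

/-- leaves 0 -/
def g0 : ℕ := nat_lit 0x5ddadffdf9f9191e6b95f27dbbd76bb0a7ed3ffd5396e6ffbebffbd895cf00005d58fffbff3897166eb5f26c70d753b0f7fdbfff77d3e668fbbf7b59af9f10007dc254a003f6550344c3e72cdd2957432070e80ce7d584a3bfaf3e50120700007ddf966f8efffbbfff7ff737ffddffdffffefa99ba7ffbbfffb7ffedf4e7d0007fffffffffffebfffffffffffffffffffffffffffffffffffffffffff5fff0007fe5f9f97dbfad6ffffffefeafdee7fc9edffdfffdcbfcd7fbeffffbef5fe0007ffffffffffffffffffffffffff7ffffffffffffffffeffffffffffff77ff000796fe7edff97e705d66ebebfef7af0327f33afc27f455efe614fb35ffbbf40003caaffefffdf7fdfdff3af7ffdd17f75beffefbffef7fe3eb3e3efffff6ff0007fefdffffffffffffffffffffffffffffffffffffffffeaffffffffffffff0005f972b933efe27e2667f676ef934dffbffd28b76efcb27cf4bedd87b3ffbf0007fffffffffffffffffffffdfffffffffefffffffffffefffffffffffffffb0007fbdf7a9af72fffffefbfff6ff5e7fff2feb4bedfffdffdff7f7f527b73fe00046b01de7bdf8b9bbffbdf5efd3a7d7ffaf58d02fdffaab51adffffb521cd6000797e5bf92ecb0befd1fb17aff7d6d12633de2efefe7334effbfbafa397fd50007ffd6fd0c57d4af72afafffffba5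2ae8746e1d3ff5f2b7d7fff5d7882fd0e0007ff5ffffffffffffffffffffffffffffffffffffffffeffff7fffffffffff0000ed57641dff77bfd55efff7c5f9b978a9a72fefeff6468d4c7bec1fdb7dff0007bf1ffeffffbef35dff8ffffdbf9afdf57eff3bfbff7eefbd3be9f5ee7dff000728fa757e1f7debdacdf7ffddf218affceea51fe81ec639bef553d6fff6f70007ffffffffffffffffffffffffffffffffffffffff5ffffffffffffffdefff0007fffffffffffffffffffffeffffffffffffffdffffffffffffffffd7fffff0000e3345ddf3f8fb7ddd5efc7dfacf28d77f7ee3e8ee74f77f77c6ea95ffcf20007fffffffffffffffffffffffbfffffffffffdfbfffffffffffffeffffffff00072fb77cedfffffffe5fb95f7fb37bffbfffecef7efffdffff71fbf9fbbecd0007ff354b956f8bf0e5ddbd7289f7d8fb748fcbfefe57ff1cbafbf7fe7305db0007fffffffffffffffffffffffffffffd7fffffffffffffffffffffffffff5e0005efffba2feeb7dffdf7ffdeffc7d67c7dffffedfef2abffbfff7dff7f7fce0007fffffffffffffffd7fffffffffffffff5fffffffffffffffffffffffffff0007fbfffffffffffffffffffffdfffffffffffffffffffffffffffbfffffeff0007fedfffcfffe5fd697dbfffbffbfefefea4f6e7fdfef7dea6bdc3bffffbef0000000800000000110800040002004042100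0000001000084000000000000000007ffabf4d26fcfd7487fda3faced69eb65ad776befaf1d95ffbdf77ac2b22f0003dd4bebfffaebe087e957ffdedd8c1ef0bd7a8fbdffffba5a8e954ec553ff00073e09d5bfff7da63bbd39fffb6fa0b9ee7f9d4716fb979e7b57d3cbe07bff0007ffffffffffffffffffffffaffffffffffffeffffffffffffffffffdfffff000567fa777faf7dffff7dff7eafeffffbffb792be77f3f4ffffffff6b5fdbe90007d91a3531efb07f6df7fc76abb20effbbdfeaaf7ffbe2fcdcbc54d397f7f700046b01de7bdf8b9bbffbdf5efd3a7d7ffaf58d02fdffaab51adffffb521cd600057ffffffffffffffffffffffffffffd7fffffffffffffffffffffffffffff0007fffffffffefff5ffffffffffffffffdfffffffffffffffffffffffffffff0003500cf7ddfd5c3deffeeefdebd0ebfff7ec5017ebff56a8d67ffffa8ce8b30007fffffffefffffffffffffff3ffffffffffffffffffffffffffffffffffbf0005efffba2feeb7dffdf7ffdeffc7d67c7dffffedfef2abffbfff7dff7f7fce0007fffbefff7bef535ee5ffad2fb7ffedfffcfffe5e9edcffbffbffbfefefea0000f1b6433bb5fffdff8b77fcf7fde4f337af56713c26db6076afcdfffd6ee70007fffffffffffffdefffffffffffffffffbff7ffffffffffffffffffffffff0007ffffffffffffffffffffffffffffffffbff7fff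fafffffffffffffffffff0007ffffffffffffffffffffffffffffffffffffef7fffffffffbf7fffffffff0006bffdfdb93f2cd719af72dbc206ee6ff6b97e3fffb6430e74fff57fab67f700000000000000000044420040000001010800000000040620200000000000000001171561dcbf01821f1d5e11121af30d7365486a2c250740c5707ea1becd330000465f838541da54fa470b8d8a9cae1e01615b8aa7589f4d07128df680351a0000a2fd0eaf95bebfffaebdee55f5fffd6fd0c57d4adc3a7ffffffba52ae8740007fb7ffffba1e6be3ff7bffefbffbed77f45dfff7ae7fdfdff7dfffbffaa9e0007edffffefb9d3dd5fdfdfff75ffdf4fbda3effdfd57fef7ffbefffdff9c6b0006afffffffffffffffffffffffffffffefdfffffffffffffffffffffffffff00068fd9eff96ffcbb2c2c9577f7de3fdf4bd498cf68bfeaa38cd3bf3feebffd000482f5f9bfdf7dfeed4b31ffdbeffe7b890353c5fde527b7ede4f5dd1ffe1f0003dcabebfffadfa18afa95b874fffffff74a55d0e828bf43abe56fafffebaf0007fffffffffffffffffffffffffaffffffffffffffffffd7ffffffffffffff0007fa3fac3f7defff7dfffcefef7ffbffbffbfaf6b3f4fff77fff6fffdbe94f0006ed535fffd7fd6c07eca9c7a1fffffffa52ae974340fa9d1fab1d7fff5f7e000503ea747eac75fffd7dfb76a9afffebfeb603f654e3d0fffffffd29574ba1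

/-- leaves 1 -/
def g1 : ℕ := nat_lit 0x7fffffffffffffffffffffffbffffffffffffffffffffffffffffffffffff0007f7bef8303c577bd5df7feec5fdddff65f4217dabffbf6be69e7c6496c5fc00059beefcfefc77fffdfffbf7b9bfffeffef66ff7d4efd3fffffffdb9f76fa70007fffffffffffff5ffffffffffffffffffffffffffffffffffffffffffffff00077ff7ff7fcede4afefeffffedfffb7d2d7f4fffe6bdf7bffdf7fffff4ef590005fcfdf7fffdf7facff47fffeffed66febd7f9dfdffffffda9ff6fa777e9ff0005fbffffffffffffffffffffffffffffffffffffffffffffffffffffffffff0005fffffffffffffffffffffffffffffffffffffffffffffffffffeffffffff0007fd77fffffffffffffffffffffffffffff7ffffffffffffffffffffffffff00077ff7ff7fcede4afefeffffedfffb7d2d7f4fffe6bdf7bffdf7fffff4ef590003dfffffffffffffff7fffffffffffffffffffffbfffffffffffffffffffff0007ffffffffff7fffffffffffffffffffffffffffffffffffffdfffffffffff0007ffffffffffbfffffffffffffffffffffffffffffffffffff7fffffffffff0007fffffffffd7ffffef7ffffffffffffffffffffffffffffffffffffffffff0007ffffffffffffffffffffffffffffffffdfffffffffffffffffffffffffff0007ffffffffffffffffff7ffffffff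fffffffffffffffffffffffffffffffff0007ffffffffffffffffff7fffffffdfbfffffffffffffffffffffffffffdfff0007fffffffffffffffffffffffffffbffffffffffffffffffffffffffdfffff0007fffffffffffffffffffffbffffffffffffffffffffffffffffffffffffff0007fffffffffffffffffffffffffffffffffffffffffffffffffffffbffffff0005440210000000000000000000000000000888000000000022a000000000000007fffffffffffffffffffffffffefffffffffffffffffbffffffffffffffff0007fffffffffffffffffffffffffefffffffffffffffffbffffffffffffffff0005fffffffffffffffffffffdffffffffffffffffffffffffffffffffffffff0007bffffffffffffffffffffffffffffffffffffffff7fffffff5ffffffffff0007ffffffffffffffffffffebfffffd7fffffffffffffffffffffffffffffff0007ffffffffffffffffffffbdfffffffffffffffffefdffffffffffffffffff0007fffffffffffffffffff7ffffffffffffffffffffffffffffff7fffffffff0007fffffffffffffffffff7fffffffdfffff7ffffffffffffffff7fffffffff0007fbfffffffffffffffff7fffffffffffffffffffffbffffffff7fffffffff0007ffffffbfffffffefffffffffffffebffffffffffffffffffffffffffffff00055ffbdffefbfff7fe71aff6fffff7dce9e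eafefefffbeffefa7ded1f7fefe0006b477fffe9dcb2b475aed3c3b6829d8fbbeffefbfedf0b5bd3fed9cd7cb8f0003f8bbfffdf72235a3e9f0d76fe753e8eb9a7ff71fe2aafeefff97fa3b32c50002c75efdd7dfbfff53a502bfebffbf654c054d7f77ffd2fff4ba12ae87fee30002c75efdd7dfbfff53a502bfebffbf654c054d7f77ffd2fff4ba12ae87fee30002c75efdd7dfbfff53a502bfebffbf654c054d7f77ffd2fff4ba12ae87fee30007edffffefb9d3dd5fdfdfff7dffdf4fbda3effdfd57fef7ffbefffdff9c6b0007f7fffffffffffffffffffeffffffffffffffdffffffffffffffffffffff70001ae7cb7e5adf6de9db4fa6b9ff09ad11faffbfbae9ee56f7fffcbb9afcf110007feefbdd67f01f661d79e316556bfccbeff9fbfcb033b6d3bbf4ff3fffcb4000000000006200080008001108002000000000000000000000000200021000400069fb7daf776bffbbfff6fffdf7fbcbf6afdfcefbfacdf9faff1ffbfffeffe00069fb7daf776bfffffff6fffdf7fbcbf6afdfcefbfa4df9faff1ffbfffeffe0007ffffffffffffffffffffffffffffff7fffffffeffdffffffffefffffffff000503ea747eac75fffd7dfb76a9afffebfeb603f654e3d0fffffffd29574ba10007dffdffdf9fb591ffbdffffdbfff6fb5a7ed7ffdd3befeffbefffffed5ef200077ff7ff7fcede4afefeffffedfffb7d2d7f4fffe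6bdf7bffdf7fffff4ef5900057bfffffffffffffffffffffffffffffffffffdfbffffffffffffffffffff00047bef7ffbffbffbf3f6b3b5fff77ffb7ffedf6b4ffb57bca77dfdff7dffff00055bfbdffefbfff7fe71aff6fffff7dce9eeafefefffbeffefa7ded1f7fefe0006ed535fffd7fd6c07eca9c7a1fffffffa52ae974340fa9d1fab1d7fff5f7e0007fffffffffffffffffffffbffffffdfbffffffffffffffdffffffffffffff0007ff6fff77ffd6fcb5bedffeffefff7bff135bf3f7fbfbee53daadfffffdf700059a77efffdfffbbffeabfe7fff2eebcbedfffb7feffff2f72675dffffeffe0007acb91a80260014a857fd4203016efbcf7080c143ff2a55000862015a1df50006ebcbedfffb7fff3fff970677dffffeffe7fff97bffbfff77ffd57d9a77ef0007fbdfdc9adebfbffbffbc57f17fffff7dffef7df977ff97fca5f6fffdbfff0007f7fffffffffffffffffffffffbffffffffffffffffffffffffffffffbdff0001bacd3bfaefefeae8feb3cbf1ffdb571413bfbddabd7b7fb6c9023fd3ffd50002e560a3dfa305440fa9d3bf5fd1a01182ad9a040f8f9aa94a1a5c0a8c42fc0006fcfda487fdae9d5fa7feb65ad3f6befaed676a3fdf77ff6b22f580ecafaf00019a66f056f477fdfddffbd3a92bfa6ffe366fb7d4ef93ffffa77888f74ea70005ddafffffffdbf1e6fb5f27dfbd7fbb8ffffbfff7fd7e6ffffbffbd9bfdf1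

/-- leaves 2 -/
def g2 : ℕ := nat_lit 0x7efefb94f7ab7fffff7dfffb7ffbbffeb7e5adf6fff7ff7ffbdff89adf9fb00006f7ffd2bc991ffdbbb1dbecc2e7effeff8d44fb7c3f76ffa364c56fffad80007bdffe3ace3ff7ffefbfffefbf5ef7fef997be5f7fffedffef7f73eb3abef0007ffffffddffffffffffffffffffffffffffffffffffffbf7fffffffffffff0007f6eec705efffa579323e3513edb7d985cfdffdffbffeb6387eedff46c9ca0007d7ff7e54eefebaf034ab4b8a52fffffa552b8fffbb019d3bdff7bac5fbde0007ffffffffffffffffffffffffafffffef5fffffffffffffffffffffffffff0007affffffffffffffffffffffbfffffffffffeffffffffffffffffffffffff00078e6bbfff7bf1ff7ffffbfbdfe75fffffdab9afdfffbdcfb7dffffcfbd3be0007ffffffffffffffffafffffffffffffffffffffffffffffffffffffffffff0007fffffffffffffffff7fffffffffffff7ffffffffffffffffffffffffffff0007fffbfffffffffffffffffffffffffffffffffffffffffff7ffffffffffff0007ffebffffffffffffffffffffffffffffffffffffffffffffffffffffffff0007f7e3bfffefffd66fbbf3ff7ff7b37fbeafdee6ffffffedcfbb7d3bbf4fff0007ffff4affffffffffffffffffffffffffffffffffffffffffffffffffffff0007fffffffffffffffef7fffffffff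ffff7fffffffffbffffffffffffffffff0007fffffffffffffffffffffffffffffffffffffffffffffffffebfffffffff0007ffffffffffffffffffffffffffffffffffffffffffffffffffffffffffff0007fffffffffffffffffffff7ffffffffffffffffffffffffffffffffffffff0007ffffffffffffffffffffffffffffffffffffffffffffffffffffffffffff0007ffffffffffffffffffffffffffffffffffffffffffffffffffffffffffff0007fffffffffffffffffffffffffffffffffffffffeffffffffffffffffffff0007ffffffffffffffffffffffffffffff7fffffffffffffffffdfffffffffff0007fffffffffffffffffffffffffffffffffffffffffffffffff7ffffffffff0007ffffffffffffffffffffffffffffffffffffffffffffffffffffffffffff0007ffffffffffffffffffffbfffffffffffffffffffffffffffffffffffffff0007ffffffffffffffffffffffffffffffffffffffffffffffffffffffffffff0007fffffffffffffffffff7ffffffffffffffffffffffffffffffffffffffff0007ffffffffffffffffffffffffffffffffffffffffffffffffffffffffffff0007ffffffffffffffefffffffffffffffffffffffffffffffffffffffffffff0007ffffffffffffffffffffffffffffffffffffffffffffffffffffffffffff0007fffffffffffffffffffffffffffffffff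fffffffffffffffffffffffffff0007ffffffffffffffffffffffffffffffffffffffffffffffffffffffffffff0007fffffffffffffffffffffffffffffffffdfffffffffffffffffffdffffff0007fffffdfffdffffffffffffffffffffffffffffffffffffffffffffffffff0007ffffffffffffffffffffffffffffffffffffffffffffffffffffffffffff0007fbffffffffffffffffffffffffffffffffffffffffffffffffffffffffff0007ffffffffffffffffffffffffffffffffffffffffffffffffffffffffffdf0007f7fffffffffffffffffffffffffffffffffffffffffffffffff7ffffffff00077bffffffffffffffffffffffffffffffffffffffffffffffffffffffffff0003fe76f257f7f7fdffdfffdbe96bfa7fff3fffb7ffefbfffffa77acaf7deff0007fffffffffffffffffffffffffffffffffffffffffffffffffffffffffefd0007fffffffffffffffffffff7fffffffffffffffffffffffffffffffffffeff0007ffffffffffffffffffffffffffffffffffffffffffffffffffffffffffff00019beaacf6dc77f7fcafdbf7383f5f2faa726ff7d4af83f7f9df7591f36fa70007bf1ffeffffbef35dff8ffffdbf9afdf57eff3bfbff7eefbd3be9f5ee7dff000294eb93dfbbb4fb63bbfffdd6ceb52ccf1db7f7e3ea265f63efb44f3ff77f0004d77fe3f7e3ffdffff7dfbfcefeffffb7f35fbea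f7b9f7ffffffdf7a77d3e0000c376a1d7c2fbdffef3debf0efafffeb7e146bcad6a8d7ffffffcd687351a0004d67fc1d621ff9fff75dfbf4cfebfbfb7c11db2ab7b9f6ffbfbf8b3831d360007ff77ffffffffffffffffff5fffffffffffffffffffffffffffffffffffff0007febfeb603f655bb54d7fffffd29574ba171e87fefd58ebfffafbf503ea740005fcfdf7fffdf7facff47fffeffed66febd7f9dfdffffffda9ff6fa777e9ff0007b752d7f4fffe7fff6fffdf7fffff4ef595efbdfeff9dbc95fdfdff7ff7ff0007fffffffffffffffffffffefffffffffffffffffffffffffffffffd7fffff00064fbf7aff771ffff7ffeffafcdffff7ff7b37fbe3776bfffffff6fc79bed700077dce9eeafefeffb7fffefa7ded1f7fefeffdf7fffdf7ffeffce35d5ffbdf0006e59bed2bfa7d1f1f4dfdfebcb577fde7fac644e7ffcfd2cc4ff9dc3d574f0007fffff7ffffffffdfffffffffffffffffffffffffffffffffffffffffffff0007ffffbef4efa7d7b9f7ffdf8fff7fffdf79aeffc7fffedfcd7efabf7f9dfd0007fffefdfffffffffffffffef5ffffffffffffffffffffffffffffffffffff0007fffffffffffefefffffffffeffffffffffffffffffefffffffffffffffff0007bbb5fffffffb7a7edf69e5fb57efe77dffff7dff7f8ffdffff7ff6b37e7e0007fffffffbfffffeffffffffffffffffffffffffffffafffffffffffffffff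

/-- leaves 3 -/
def g3 : ℕ := nat_lit 0x7fffffffffffffffffffeffffffffffffffffffffffffffffffffffffffbf0007fffffffffffffffffffefdffffffffffffffffffffffffffffffffffffff00059beefcfefc77fffdfffbf7b9bfffeffef66ff7d4efd3fffffffdb9f76fa70002f7defff7dfffffd3bd67bffbffbfe76f257f7f7ffff6fffdbe96bfa7fff30007fffff5ffffffffffffffffffffffffffffffffffffffffffffffffffffff0007ffffffffffffffffffffffffff7fffffffffffffffffffffffffffffffff0007fffffefffffffffffffffffffffffffffffffffffffffffffffffffffbff0007ffffffffffffffffffffffefffffffffffffffffffffffffffffffffffff0007fffffffffffffffffffffffffffffffdfffffffffffffffffffffffffffe0007fffffffffffffffbffffffffffffffffffffffffffffffffffffffffffff0007fffffffffffffffffffffffffffbffffffffffffffffff7fffffffffffff0007fffffefffffffffffffffffffdfffffffffefffffffffffffffffffffbff0007fffbffffffffffffffffffffffffffffffffffffffffffbfffffffffffff0007febfffffffffffffffffffffffffffffffffffffffffffffffffffffffff0007ffffffffffffffffffffffffffffffffffffffffffffffffffffffdfffff0007fffffffffffffffffffffffffff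fffffffffffffffffffffffffff7fffff0007fffffffffffffffd5ffdfbffffffffffffffffffffffffffffffffffffff0007fffffffffffffffffffffffffffffffffffffffff7ffffffffffffff7fff0007ffffffffffffffbffffffffdffffffffffffffffffffffffffffffffffff0007ffffffffffffffffffffffffffffffffffffffffffafffffffffffffffff0007fffffffffffffffffffffffffffffffffffffffffffffffffffffd7fffff0005fcfdf7fffdf7facff47fffeffed66febd7f9dfdffffffda9ff6fa777e9ff0007fffffffafffffffffffffffffffffffffffffffffffffffffffbffffdfff0007fffffffffff7ffffbfffffffffffffffffffffffffffffffffffffffffff0007ffffffffffffffffffffffffffffffffffffffffffffbfffffffffffffff0007ffffffffffffffffffffffffffffffffffffffffffffffffffffffffffff0007fffffffffffffffffffffffffffffffffffffdffffffffffffffffffffff0007fffffffffffffffffffffffffffffffffffffffffff7ffffbfffffffffff0005f56f7cffffefb7c7f7ffeef2e76fffffeabf7f7f7ffffbfabf7bfff758e70007ffffffffffffffffffffffffffffffffffffffffffffffffffffefffffff0007fffffffffffffffddfffffffffffffffffffffffffffffffffffffffffff0007fffffffffffffffffffffefffffff7fff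fffffffffffffffffffffffffff0007ffffffffffffffffffffffffffffffffffffffffffffffffffffffffffff0007fffffffffffffffffffffffffffffffffffffff7ffffffffffffffffffff0007ffffffffffffffffffffffffffffffffffffffffffbfffffefffffffffff0007fffffffffffffff7ffffffffffffffffffffffffffffffffffffffffefff0007ffffffffffffffffffffffffffffffffffffffffffffffffffffffffffff0007ffffffffffffffffffffffffffffffffffffffffffffffffffffffffffff0007ffffffffffffffffffffffffffffffffffffffffffffffffffffffffffff0007ffffffffffffffffffffffffffffffffffffffffffffffffffffffffffff0007ffffffffffffffffffffffffffffffffffffffffffffffffffffffffffff0007ffffffffffffffffffffffffffffffffffffffffffffffffffffffffffff0007fdffffffffffffffffffffffffffffffffffffffffffffffffffffffffff0007ffffffffffffffffffffffffffffffffffffffffffffffffffffffffffff0007bf1ffeffffbef35dff8ffffdbf9afdf57eff3bfbffffefbd3be9f5ee7dff0007fdefffffffffffffffffffffffffffffffffffffffffffffffffffffffff0007ffffffffffffffffffffffdfffffffffffffffffffffffffffffffffffff0007ffffffffffffffffffffffdffffffffffffffff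fffffffffffffffbfffff0007ffffffffffffffffffffff5fffffffffffffffffffffffffffffffffffff0007fff7ffffffffffffffffffffffffffffffffffffffffffffffffffffffff0007fffffffffffffffffefffffffffeffffffffffffffffffffffffffffffff0005feccaffefffdf3bdfff7f7ff7fc7efffbefb34fddbbe72fffffedf2fddff0007ffffffffffffffffffefffffffebffffffffffdfffffffffffffffffffff0006fffaafb34efdfffbfff7ffed7efcfffe5dd797dbfffbff9fffe5ee4cefbf0006bfffffffffbffffffffffffffffffffffffffffffffffffff7ffffffffff0002bf7ffdf7d9a77fdffdfffffff6f97e7fff6eebcbfefffdd7affff6ff26770007ffffffffffffffffffffffff7effffffffffffffffffffffffffffffffff0007fffffffffffffffffffbfffffffff7fdfffffffffff7ffffffffffffffff0007ffebffffffffffffffffffffffffffffffffffffffffffffffffffffffff0007bffdffffffffffffffffffffffffffffffffffffffffffffffffffffffff0007ffffffdffffffffffffffffff5fffffffffffffffffffffffffffffffbff0007fffffffffdffffffffffffffffffffffffffffffffffffffffffffffffff0007ffffffffeffffffffffffffffffffffffffffffffffffffffffffff7ffff0007ffffffffffebfffffffffffff5ffffffffffffffffffffffffffffffffff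

/-- leaves 4 -/
def g4 : ℕ := nat_lit 0x7ffffffffdffffffffffffffffffffffffffeffffffffffffffffffffffff0007ffffffffffffffffffffffffffffffffffffffffffffbfffffdfffffffff0003fd7beffffbeff59fe9dfffdffdbc9ff3bdfabfbffffffb5afedf4fcfd3ff0007ffffffeffffffffffffffffeffffffffffffffffffffffffffffffffffff0007fffffffffffffffffffffffbfffffffffffffffffffffffffffffbffffff0007fffffffffffff5ffffffffffffffffffffffffffffffffffffffffffffff0007fffffffffffff5ffffffffffffffffffffffffffffffffffffffffffffff0007fffffffffffff5ffffffffffffffffffffffffffffffffffffffffffffff0007ffbffb793fe77bf57f7ffffff6b5fdbe9f9fa7feff5efbfffefbfd67fa770003fe76f257f7f7fdffdfffdbe96bfa7fff3fffb7ffefbfffffa77acaf7deff0007fffffffffefffffffffffffffffffffffffffffeffffffffffffffffffff0007fffffffffffffffffffffffffffffffffffffffffeffffffffffffffffff0007ffffffffffffffffffffffffffffffffffffffffffffffffffffffffffff0007ffffffffffffffffffffffffffffffffffffffffffffffffffffffffffff0007ffffffffffffffffffffffffffffffffffffffffffffffffdfffffffffff0007fffffffffffffffffffffffffff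fffffffffffffffffffffffffffffffff0007fffffffffffffffffffffffffffffffffffffffffffffffffebfffffffff0007ffffffffffffffffffffdfffffffffffffffffffffffffffffffffffffff0007fffffffffffffffffffffffffffffffffffffffff7ffffffffffffffffff0007ffffffffffffffffffffffffffffffffffffffffffffffffffffffffffff0007ffffffffffffffffffffffffffffffffffffffffffffffffffffffffffff0007ffffffffffffffffffffffffffffffffffffffffffffffffffffffffffff0007fffffffffffffffffffffffffffffffffffffffbffffffffffffffffffff0007fffffffffffffffffffffffffffffffffffffffffffffffff7ffffffffff0007fffffffffffffffffffffffffffbffffffffffffffffffffffffffffffff0007ffffffffffffffffffffffffffffffffffffffffffffffffffffffffffff0007ffffffffffffffffffffffffffffffffffffffffffffffffffffffffffff0007fffffffffffffffffffffbfffffdffffffffffffffffffffffffffffffff0007ffffffffffffffffffffffffffffffffffffffffffffffffffffffffffff0007fffffffffffffffffffffffffefffeffffffffffffffffffffffffffffff0007ffffffffffffffffffffffffffffffffffffffffffffffffffffffffffff0007fffffffffffffffffffffffffffffffff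fffffffffffffffffffffffffff0007ffffffffffffffffffffebffffffffffffffffffffffffffffffffffffff0007fffffffffffffffffffffdfffffffffffffffffffffffffffffffffffffb0007befffffe9deb2bdf7bfdff3b792bfbfbfeffefffedf4b5fd3fff9fffdbff0007fffffffffffffffffbfffffffffdffffffffffffffffffffffffffffffff0007fffffffffffffffffbf7ffffffffffffffffffffffffffffffffffffffff0007ffffffffffffffffffffffffffffffffffffffffffffffffffffffffffdf0007fffffffffffffffffffffffffffffebfffffd7ffffffffffffffffffffff00077122fb3befa25d7ff3fe16abb35ff3b4fb6abf7ffdf2dcf42cdd55b7f7ea0006b3fd1fbf9fbeffffbefdfe77f7fffdffdac9dd7bddfa7fffffffb53fedf40005ee7dfffffff7de9df4fa6bbff1fbf1ffeffffbefdfe77f7fffdbf9afdf570001ae7cb7e5adf6de9db4fa6b9ff09ad11faffbfbae9ee56f7fffcbb9afcf110005aa35fffffff35a1cd46861bb50ebe17defff79ef5f877d7fff5bf0a35e5600019beaacf6dc77f7fcafdbf7383f5f2faa726ff7d4af83f7f9df7591f36fa70002ed68ebffeb47659fe9dfbfdffdb413c3bdda9d8f8f9af95adedf0ecfd3fe0006fcfdac8ffdefff7ff7ffb75ad3f6bffeefff6fffdf7fffff6af794efbfbf00059beefcfefc77fffdfffbf7b9bfffeffef66ff7d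4efd3fffffffdb9f76fa70007fffffffffffff5ffffffffffffffffdfffffffffffffffffffffffffffff0007dffdffdf9fb591ffbdffffdbfff6fb5a7ed7ffdd3befeffbefffffed5ef20005ddafffffffdbf1e6fb5f27dfbd7fbb8ffffbfff7fd7e6ffffbffbd9bfdf10007febfeb603f655bb54d7fffffd29574ba171e87fefd58ebfffafbf503ea740007ffffffffffffffffffffffffffffffffffffffffffffffffff7fffffffff0007ffffffffffffffffffffffffddffffffffffffffffd5ffffffffffffffff000777e9fffffffed4ffb7d359fe8fdfcfdf7fffdf7eff3bfbfffeffed66febd0007fffffffffffffff7ffffffffffffffff7f7ffffffffffffffbffffffffff0007ffffffffffffffffffffffffffffffffff7ffffffbfffffffbbfffffffff0005fe3ff7fffdffdacdf9fbdddafffffffdbd3f6fb4f2fdabf7f3beffffbeff0007fffff7ffffffffdfffffffffffffffffffffffffffffffffffffffffffff000747e9e5dd797c94ff27d159fe0ec4cedb7fffdf7c6618fbfff6ffec66faad0007ffffffffffffefff7ffffffffffffebfffffffffffffffffffffffffffff0004efbfbfefbfffffb57bcbeffeffefcfdac8ffdeffffedfffb7dad3f6bffee0003f7ffffffffffffffffffffffffffffffffffffffffffffffffffffffffff0007fffff6a7fdbe9ddfa7fefe7efbfffefbfd67fa3ffff7ff6b37f5ebfcefef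

/-- leaves 5 -/
def g5 : ℕ := nat_lit 0x7ffffffffffffffffffffffffffffffffffffffffffffefffffffffffffff0007fffffffffffff7ffffffffffffffffffffffffffffffffffffffffffffff0007fffffffffffffffffffffffffffffffffffffffffffffeffffff7fffffff0007effffffbfffffffffffffffffffffffffffffffffffffffffffdfffffeff0007fffffffffffffffffffffffefffffffffffdffffffffffffffffffffffff0007fffffffffffffffffffffffffffffffffffffffffffffff7ffffffffffff0007ffffffffffffffffffffffffffffffffffffffffffffffffffffffffffff0007ffffffffffffffffffffffffffffffffffffffffffffffffffff7fffffff0007fbdf8ffbffffde39aefefffffed5cd7effef7f9dbeffffe7de9df7fef73e0007ffffffffff7ffffffffffffffbffffffffffffffffffffffffffffffffff0007ffffffffffffffffffffffffafffffffffffffffffffffffffffffffffff0007ffffffffffffffffefffffffffffffffffffffffffffffffffffffffffff0007ffffffffffffffffafffffffffffffffffffffffffffffffffffffffffff0007ffffffffffffffffeffffffffffffffffffffffffffffbffffffffffffff0007ffffffffffffffffff7bffffffdffffffffffffffffdffffffffffffffff0007fffffffffffffffffffffffffff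fffffffffffffffffffffffffffffffff0007fffffffffffffffffffffffffffffffffffffffffffdffffffffffffffff0007ffffffffffffffffffffffffffffffffffffffffffffffffffffffffffff0007ffffffffffffffffffffffffffffffffffffffffffffffffffffffffffff0007ffffffffffffffffffffffffffffffffffffffffffffffffffffffffffff0007ffffffffffffffffffffffffffffffffffffffffffffffffffffffffffff0007ffffffffffffffffffffffffffffffffffffffffffffffffffffffffffff0007fffffffffffffffffffffffbffffffffffffffffffffffffffffffffffff0007ffffffffffffffffffffffffffffffffffffffffffefffffffffffffffff0007ffffffffffffffffffffffffffffffffffefffffffffffffffffffffffff0007fffffffffffffffffffffffffffffffffff7ffffffffffffffffffffffff0007ffffffffffffffffffffffffffffffffffffffffffffffffffffffffffff0007ffffffffffffffffffffffffffffffffffffffffffffffffffffffffffff0007ffffffffffffffffffffffffffffffffffffffffffffffffffffffffffff0007ffffffffffffffffffffffdfffffffffffffffffffffffffffffffffffff0007ffffffffffffffffffffffffffffffffffffffffffffffffffffffffffff0007fffffffffffffffffffffffffffffffff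fffffffffffffffffffffffffff0007ffffffffffffffffffffffffffffffffffffffffffffffffffffffffffff0007ffffffffffffffffffffffffffffffffffffffffffffffffffffffffffff0007ffffffffffffffffffffffffffffffffffffffffffffffffffffffffffff0007ffffffffffffffffffffffffffffffffffffffffffffffffffffffffffff0007ffffffffffffffffffffffffffffffffffffffffffffffffffffffffffff0007ffffffffffffffffffffffffffffffffffffffffffffffffffffffffffff0007ffffffffffffefdfffffffffffffffffffffffffffffffffffffffffffff0007fffffffffffff7efffffffffffffffffffffffffffffffffffffffffffff0007fffffffffffffffffffffffffffffffffffffffffffffffffff7ffffffff0007f7fffffffffffffffffffffffffffffffffffffffffffffffff7ffffffff0007fffffffffffffffffffffffffffffffffdfffffffffffffffff7ffffffff0007ffffffffffffffffffffffffffffffffffffffffffffffffffffffffffff0007ffffffffffffffffffffffffffffffffffffffffffffffffffffffffffff0007fffffffffffffffffffffffffffff7ffffffffffffffffffffffffffffff0007ffffffffffffffffffffffffffffdfffffffffffffffffffffffffffffff0007bf1ffeffffbef35dff8ffffdbf9afdf57eff3bf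bffffefbd3be9f5ee7dff0007bfffffffffffffffffffffffffffffffffffffffffffffffffffffffffff0007bfffffffffffffffffffffffffffffffffffffffffffffffffffffffffff0007ffffffffffffffffffffffffffffffffffffffffffffffffffffffffffff0007ffffffffff7ffffffffffffffffffffffffffffffffffffffffffbffffff0007fffffffffffffdffffffffffffffffffffffffffffffffffffffffffffff0007fffffffffffffffffffffffffffffffffffffffeffffffffffffffffffff0005fcfdf7fffdf7facff47fffeffed66febd7f9dfdffffffda9ff6fa777e9ff0005ffffffffffffffffffffffffffffffffffffffffffffffffffffffffffff0005ffffffffffffffffffffffffffffffffffffffffffffffffffffffffffff0007ff7ffffffffffffffffffffffffffffff7ffffffffffffffffffffffffff0007fffffffffffffffffffffffdfffffffffffffffffffbffffffffffffffff0007ffff7fffffffffffffffffffffffffbffffebfffffffffffffffffffffff0007fffffffffffffffffffffffffffffffffffbdfffff7fffffffffefffffff0007ffffbef4efa7d7b9f7ffdf8fff7fffdf79aeffc7fffedfcd7efabf7f9dfd0007ffffbef4efa7d7b9f7ffdf8fff7fffdf79aeffc7fffedfcd7efabf7f9dfd0007ffffbef4efa7d7b9f7ffdf8fff7fffdf79aeffc7fffedfcd7efabf7f9dfd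

/-- leaves 6 -/
def g6 : ℕ := nat_lit 0x3f8fbffffffefbdabe9f4d77fe777eaffdffff7dff7eafeffffb7fa7bbee70007fffffffffffffffffffffffffffffffffffffffffffaffffffffffffffff0007fef73edf7ffff3ef4efbc735dfffbdf8ffbffffdfdeff3afffffed5cd7ef0007ffffffffffeffffffffff7afffffffffffffffffffffffffffffffffffff0007fffffffffffbffffffff7ffffffffffffffffffffffffffffffffffef7ff0007fff7dffef7df86bf8bffca5f6fffdbfffbbffcbf35bd7f7ff7ff7ffbdfdc0007ffbffbbffecfccd8fbfdfffe3be4d7bf7ffefffdfffb7ffbbffeb3e7adf60007ffffffffffffffffffffffffffffffffffffffffffffdfdfffffffffffff0007ffffffffffffffffffffffffffbf7fffffffffffffffdfdfffffffffffff0007fffffffffffffdefffffffffffffffffffffffffffffdfdfffffffffffff0006fff7fffffffffffffffffffffffffffffffffffffffffffff7feffffffff0007efffdf3f5fff6ff66c7ceeffff7df26bdff7ff7ffffffdbadddfffd9f3d60007ffffffffffffffffffffffffdffffffffffbffffffffffffffffffffffff0007fffffffffffffffffffffffffefffffffffffffffffffffffffffbffffff0007fffffffffffbffffdfffffffffffffffffffffffffffffffffffffffffff0007fffffffffffffffffffffffffff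fffff7fffffffffffffffffffffffffff0007fffffffffffffffffffffffffffffffffffffffffff7ffffffffffffffff0007fff7ffffffffffffffffffffffffffffffffffffffffffffffffffffffff0007fffffffffffffffffffffffffffffffffffffffffffffbfffffeffffffff0007fffff5ffffffffffffffffffffffffffffffffffffffffffffffffffffff0007fffffffffffdffffefffffffffffffff7fffffffffffffffffffffff7fff0007fffffffffffffffffffffffdffffffffffffffffffffffffffff7fffffff0007ffffffffffffffffffffffffffffffffffffbfffffffffffffffffffffff0007ffffffffffffffffffffffffffffffffffffffffffffffffffffffffffff0007ffffffffffffffffffffffffffffffffffffffffffffffffffffffffffff0007ffffffffffffffffffffffffffffffffffffffffffffffffffffffffffff0007ffffffffffffffffffffffffffffffffffffffffffffffffffffffffffff0007ffffffffffffffffffffffffffffffffffffffffffffffffffffffffffff0007ffffffffffffffffffffffffffffffffffffffffffffffffffffffffffff0007ffffffffffffffffffffffffffffffffffffffffffffffffffffffffffff0007ffffffffffffffffffffffffffffffffffffffffffffffffffffffffffff0007fffffffffffffffffffffffffffffffff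fffffffffffffffffffffffffff0007ffffffffffffffffffffffffffffffffffffffffffffffffffffffffffff0007ffffffffffffffffffffffffffffffffffffffffffffffffffffffffffff0007ffffffffffffffffffffffffffffffffffffffffffffffffffffffffffff0007ffffffffffffffffffffffffffffffffffffffffffffffffffffffffffff0007ffffffffffffffffffffffffffffffffffffffffffffffffffffefffffff0007ffffffffffffffffffffffffffffffffffffffffffffffffffffffffffff0007fffffffffffffffdfffffeffffffffffffffffffffffffffffffffffffff0007ffffffffffffffffffffffffffffffffffffffffffffffffffffffffffff0007ffffffffffffffffffffffffffffffffffffffffffffffffffffffffffff0007ffffffffffffffffffffffffffffffffffffffffffffffffffffffffffff0007ffffffffffffffffffffffffffffffffffffffffffffffffffffffffffff0007ffffffffffffffffffffffffffffffffffffffffffffffffffffffffffff0007ffffffffffffffff7fffffffffffffffffffffffffffdfffffffffffffff0007fffffffffffffff7bfffffffffffffffffffffffffffffffffffffffffff0007fffffffffffffffffffffffffffffffffffffbffffffffffffffffffffff0007bf1ffeffffbef35dff8ffffdbf9afdf57eff3bf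bffffefbd3be9f5ee7dff0007ffffffffffffffffffffffffffffffffffff7bffffffffffffffffffffff0007fffffffffffffffdffffffffffffffffffffffffffffffffffffffffffff0007ffffffffffffffffffffffffffffffffffffffffffffffffffffffffffff0007ffffffbfffffffffffffffffffffffffefffffffffffffffffffffffffff0007fffffffffffffffffffffffffffffffebfffffffffffffffffffffffffff0007ffffffffffffffbfffffffffffffffffffffffffffffffffffffffffffff0007fffdffffffffffffffffffffffffefffffffffffffffffffffffffffffff0007ffffffffffffffffffffffffffffffffffffffffffffffffffffefffffff0007ffffffffffffffffffffffffffffffffffffffffffffffffffffffffffff00078e6bbfff7bf1ff7ffffbfbdfe75fffffdab9afdfffbdcfb7dffffcfbd3be0007ffffffffffffffffefffffffffffffffffffffffffffffffffffffffffff0007fffffffffffffffffffffffffffffff7ffffffffffffffffffffffffffff0007fffbffffffffffffffffffffffffffffffffffffffffffffffffffffffff0007ffebffffffffffffffffffffffffffffffffffffffffffffffffffffffff0007fffbffffffffffffffffffffffffffffffffffffffffffffffffffffffff0007ffffdeffffffffffffffffffffffffffffffffffffffffffffffffffffff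

/-- leaves 7 -/
def g7 : ℕ := nat_lit 0x7ffffffffffffffffffffffffffffffffdfffffffffffffffffffffffffff0007fffffffffffdffffffffffffffffffffffffffffffffffffffffffffffff0007ffffffbffffffffffffffffbd7ffffffffffffffffffffffffffffffffff0007ffffffffffffffffffffffffffffffffffffffffffffbdffffffffffffff0007ffffffffffffffff7ffffffffffffffffffffffffffff7ffffffffffffff0007fffffffffffffffffffffffffffffffffffff7ffffffffffffffffffffff0007fffffffffffffffffffffffffffffffffffff7fffffffffffff7ffffffff0007ffffffffffffffffffffffffffffffffffffd7ffffffffffffffffffffff0007fbdf8ffbffffde39aefefffffed5cd7effef7f9dbeffffe7de9df7fef73e0007ffffffffffffffffffffffffffffffffffffffffffffffffffffffffffff0006e7f7f7dfa7bd5f7ffffbffffdbadddfffdbf2d6fdfffbffe3fdeffecd6fc0007ffffffffffffffffffffffffdfffffffffffffffffffffffffffffffffff0007ffffffffff7ffffffffffffffffffffffffffffdffffffffffffffffffff0007ffffffffffffffffffffffffffffffffffffffffffffffffffffffffffff0007ffffffffbfffffffffffffffffffffffffffffffbfffffffffffffffffff0007fffffffffffffffffbfffffffff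fffffffffffffffffffffffffffffffff0007ffffffffffeffffffffffffffffd7fffffffffffff7fffffffffffffffff0007fffffffffeffffffffffffffffffffffffffffffffff7fffffffffffffff0007ff7ffffffffffffffffffffffffffffffffffffffffffffffffffffff7ff0007ffffffffebffffffffffffffffffffffffffffffffffffffffffffffffff0007ffffffffffffffffffffffffffffffffffffffffffffffffffffffffffff0007fffffffffefffffffffffffffffffffffffffffffff7ffffffffffffffff0007ffffffffffffffffffefffffffffffffffffffffffffffffffffffffffff0007ffffffffffffbfffffffffffffffffffffffffffffffffffffffffffffff0007ffffffffffffffffffffffffffffffffffffffffffffffffffefffffffff0007ffffffffffffffffffffffffffffffffffffffffffffffffffffffffffff0007ffffffffffffffffffffffffffffffffffffffffffffffffffffffffffff0007ffffffffffffffffffffffffffffffffffffffffffffffffffffffffffff0007ffffffffffffffffffffffffffffffffffffffffffffffffffffffffffff0007ffffffffffffffffffffffffffffffffffffffffffffffffffffffffffff0007ffffffffffffffffffffffffffffffffffffffffffffffffffffffffffff0007fffffffffffffffffffffffffffffffff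fffffffffffffffff7fffffffff0007ffffffffffffffffffffffffffffffffffffffffffd7ffffffffffffffff000777e9fffffffed4ffb7d359fe8fdfcfdf7fffdf7eff3bfbfffeffed66febd0007fffffffffffffffffffffffffffffffffffffffffffffffffbffffffffff0007fffffffffffffffffffffffffffffffffffffffffffffffffbbfffffffff0007ffffffffffffffffffffffffffffffffff7ffffffffffffffbffffffffff0007ffffffffffffffffffffffffffffffffffffffffffffffffffffffffffff0007ffffffffffffffffffffffffffffffffffffffffffffffffffffffffffaf0007ffffffafffffffffff7ffffff7ffffffffffffffffffffffffffffffffff0003fffffbc7fbdffdfacf8f9ddfdfff9e557dffffefffffefb757bffef8bfba0007ffdbfff9fffcbbaf2fb7fff7ff3fffcbdc99df7fbffeabecd3be77fefffd0007f9e557dffffefceefeff757bffef8bfbafffff7d8ff7bffbf59f1bfffffb0007ffffffffffffffffdfffffffffffffffffffffffafffffffffefffffffff0007fffffdffffffffffffffffffffffffffffffffffffffffff7fffffffffff0007ffffffffffffffffffffffffffffffffffffffffffffffffffffffffff3a0007fffffffffffffffffffffffffffffbffffffffffdfffffffffffffffffff0007fffffffffffffffffffffffffffff5fffffffff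fffffffffffffffffffff0007fffffffffffffffffffffffffffffffffffff7fffffffff7fff7bfffffff00077fbfffffffffffffffffffffffffffffffffffffffffffffffffffffffff0007ffffffffffffffffffffffffffffffffffffffffffffffffff7fffffffff0007ffdfefffffffffffffffffffffffffffffffff7ffffffffffbffffffffff0007fffffffffff77fffffffffffffffffffffffffffffffeaffffffffffffff0007ff7ddebdfff745fdd6fbfffb7ffbdff8facf8fbfdfdff39e557ff7ffefbf00077a93e35fffff58f92bdf7fbd59b2bbfbf5d3c0a7940f2abf7f75366af7fb0007fffffffffffbdffffffffffffffffffffffffffffffffff77fffffffffff00043abfbbef300adbbffbdfffffcd62ad5ffcd17314fdfffae17af7ed7e80a30004cb06977fffb28b377bff76697e75ffebff8d93bdf7bbb5913fbfba5c3cca0007fdffdffef7fe26b7e7eff7f7dca7bd5bfffffbefffdbffddfff5bf2d6fb70007fffffffffffffffffffffffffffffbffffffffffebffffffff7fffffffff0007fffffffffffffffffffffffffffffffffffffefdfffffffffffd5fffffff0007ffffffffffdfffffffffffdfffffffffffffffffffffffffffffffffffff0007ffffffffffffffffffffffafffffffffffffffffffffffffffffffffffff0007ffffffffffffffffffffffffffeffffffffffffffffeffffffffffffffff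

/-- leaves 8 -/
def g8 : ℕ := nat_lit 0x7ffffffffffffffffffffffffffffffffffffffffffffffffffffffffffff0007ffffff7fffffffffffffffffffffffffffffdfffffffffffffffffffffff0007ffffffbfffffffffffffffffffffffffffff7fffffffffffffffffffffff0007ffffffffffffffffffffff5fffffffffffffffffffffffffffffffffffff0007fffffffffffffffffffffffffffffffffffffffffffffffffffffffffff70007ffffffffffffffffffffffffbfffffffffffffffffffffffffffffffffff0007ffffffffffffffffffffffffffffffffffffffffffffffffffffffffffff0007ffffffbf7ffffffffffffffffffffffffffd7bffffffffffffffffffffff0007ffffff7fffffffffffffffffffffffffffffffffffffffffffffffffffff0007ffffffffffffffffffffffffffffffffffffffffffffffffffffffffffff0007ffffffffffffffffffffffffffffffffffffffffffffffffffffffffffff0007ffbfffffffffffffffffffffffffffffffffff7fffffffffffffffffffff0007ffffffffffffffffffffffffffffffffffffffffffffffffffffffffffff0007ffffffffffffffffffffffffffffffffffffffffffffffffffffffffffff0007fffffffffffffffffffffffffffffffffff7ffffffffffffffffffffffff0007fffffffffffffffffffffffffff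fffffffffffffffffffffffffffffffff0007ffffffffffffffffffffffffffffffffffffffffffffffffffffffffffff0007ffffffffffffffffffffffffffffffffffffffffffffffffffffffffffff0007ffffffffffffffffffffffffffffffffffffffffffffffffffffffffffff0007ffffffffffffffffffffffffffffffffffffffffffffffffffffffffffff0007ffffffffffffffffffffffffffffffffffffffffffffffffffffffffffff0007ffffffffffffffffffffffffffffffffffffffffffffffffffffffffffff0007fdffffffffffffffffffffffffffffffffffffffffffffffffffffffffff0007ffffffffffffffffffffffffffffffffffffffffffffffffffffffffffff0007ffffffffffffffffffffffffffffffffffffffffffffffffffffffffffff0007ffffffffffffffffffffffffffffffffffffffffffffffffffffffffffff0007ffffffffffffffffffffffffffffffffffffffffffffffffffffffffffff0007ffffffffffffffffffffffffffffffffffffffffffffffffffffffffffff0007ffffffffffffffffffffffffffffffffffffffffffffffffffffffffffff0007ffffffffffffffffffffffffffffffffffffffffffffffffffffffffffff0007ffffffffffffffffffffffffffffffffffffffffffffffffffffffffffff0007fff7fffffffffffffffffffffffffffff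fffffffffdfffffffffffffffff0007ffffffffffffffffffffffffffffffffffffffffffffffffffffffffffff0007ffffffffffffffffffffffffffffffffffffffffffffffffffffffffffff0007ffffffffffffffffffffffffffffffffffffffffffffffffffffffffffff0007ffffffffffffffffffffffffffffffffffffffffffffffffffffffffffff0007ffffffffffffffffffffffffffffffffffffffffffffffffffffefffffff0007fffffffffffffffffffffffdffffffffffffffffffffffffffffffffffff0007fffffffffffffffffffffffffffffffffffebfffffffffffffffffffffff0007ffffffffffffffffffffffffffffffffffffdfffffffffffffffefffffff0007ffffffffffffffffffffffefffffffffffffffffffffffffffffffffffff0007ffffffffffffffffffffffafffffffffffffffffffffffffffffffffffff0007ffffbef4efa7d7b9f7ffdf8fff7fffdf79aeffc7fffedfcd7efabf7f9dfd0007ffffffffffffffffffffffffffffffffffffffffffffffffffffffffffff0007ffffffffffffffffffffffffffffffffffffffffffffffffffffffffffff0007fffffffffffffffffffffffffffffffffffffffffffffffffffef7ffffff0007ffffffffffffffffffffffffffefffffffffffffffffffffffffdfffffff0007ffffffffffffffffffffffffffffffffffdffff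fffffffffffffffffffff0007ffffffffffffffffffffffffffffffffffffffffffffffffffffffffffdf0007fffffffffffffffffffffffeffffffffffffefffffffffffffffffffffff0007ffffffffffffffffffffffffffffffffffffffffffffffffffffffffffff0007fffffffffffffffffffffffffffffffaffffffffffffffffffffffffffff0007fffffffffffffffffffffffffffffffffffffffffffffffffff7ffffffff0007ffdfffffffffffffffffffffffffffffffffffffffffffffffffffffffff0007fffffffffffffffffffffffdffffffffffffffffffffffffffffffffffff0007fffffffffffffffffffffffdffffffffffffffffffffffffffffffffffff0007fffffffffffffffffffffff5ffffffffffffffffffffffffffffffffffff00078e6bbfff7bf1ff7ffffbfbdfe75fffffdab9afdfffbdcfb7dffffcfbd3be0007ffffffffffffffffffffffffffffffffffffffffffffffffffffffffffff0007fffffffffffbffffffffffffffffffffffffffffffffffffffff7fffffff0007fffffffffffffffffffffffffffffffffdffffffffffffffffffffffffff0007fffffffffffffffffffff7fffffdffffffffffffffffffbffffffffffffd0007ffffffdfffffffffffffffffffffffffffffffffffffffffffffffffffff0007fffffffffffffffffffffffbffffffffffffffffffff7fffffffffffffff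

/-- leaves 9 -/
def g9 : ℕ := nat_lit 0x7dfffffffffffffffffffffffffffffffffffffbfffffffffffffffffffff0007edffffefb9d3dd5fdfdfff7dffdf4fbda3effdfd57fef7ffbefffdff9c6b0007fffffffffffffffffffffffffffffffffffffffffffffffffffffffffef70007ffffffffffffffffffffffffffffff7fffffffffffffffffffffff7fffff0007fffffffffffffffffffffffffffffebfffffffffffffffffffffffffffff0007ffffffffffffffffffffffffffffffffffffffffbfffffffffffffffffff0007effffffffffffffeffffffffffffffffffffffffffffffffffffffffffff0007ffffffffffffffffffffffffffffffffffffffffffffffffffefffffffff0007fffbffffffffffffffffffffffffffffffffffefffffffffffffffffffff0007fffffffffffffffffffffffffffffebfffffffffffffffffffffffafffff0007ffffffffffffffffffffffffffffffffffdfffffffffffffffffffffffff0007ffdfefffffffffffffffffffffffffffffffff7ffffffffffbffffffffff00077ffffffffffffffffffffffffffffffffffffbffffffffffffffffffffff0007ffffffffffffffffffffffffffffffffffffff7ffffffffffffffffffff70007ffffffbfffffffffffffffffffffffffffffffffffffffffffffffffffff0007ffffffffbffffebffffffffffff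ff7ffffffffffffffffffffffffffffff0007fffffffffffffffffffffffffffffffffffffffffffffdffffffffffffff0007ffffffffffdfffffffffffffffefffffffffffffffffffffffffffffffff0007ffffffffffffffffffffffffffffffffffffffff5fffffffffffffffffff0007ffffffbfffffffffffffffffffffffffffffffffffffffffffffffffffdf00055ffbdffefbfff7fe71aff6fffff7dce9eeafefefffbeffefa7ded1f7fefe0007febfeb603f655bb54d7fffffd29574ba171e87fefd58ebfffafbf503ea740007fffffffffffffffffffffffffffffffffffffffffffffffffffffffffffe0007ffffffffffffffffffffffffffffffffffffffffffffffffffffffffffff0007ffffffffffffffffffffffffffffffffffffffffffffffffffffffffffff0007fffffffffffffffffffffffffffffffffffffffffffffff7ffffffffffff0007ffffffffffffffffffffffffffffffffffffffffffffffffffffffffffff0007ffffffffffffffffffffffffffffffffffffffffffffffffffffffffffff0007ffffefffffffffffffffffffffffffffffffffffffffffffffffffffffff0007ffffffffffffffffffffffffffffffffffffffffffffffffffffffffffff0007ffffffffffffffffffffffffffffffffffffffffffffffffffffffffffff0007fffffffffffffffffffffffffffffffff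fffffffffffffffffffffffffff0007ffffffffffffffffffffffffffffffffffffffffffffffffffffffffffff0007ffffffffffffffffffffffffffffffffffffffffffffffffffffffffffff0007ffffffffffffffffffffffffffffffffffffffffffffffffffffffffffff0007ffffffffffffffffffffffffffffffffffffffffffffffffffffffffffff0007ffffffffffffffffffffffffffffffffffffffffffffffffffffffffffff0007ffffffffffffffffffffffffffffffffffffffffffffffffffffffffffff0007ffffffffffffffffffffffffffffffffffffffffffffffffffffffffffff0007ffffffffffffffffffffffffffffffffffffffffffffffffffffffffffff0007ffffffffffffffffffffffffffffffffffffffffffffffffffffffffffff0007ffffffffffffffffffffffffffffffffffffffffffffffffffffffffffff0007ffffffffffffffffffffffffffffffffffffffffffffffffffffffffffff0007ffffffffffffffffffffffffffffffffffffffffffffffffffffffffffff0007ffffffffffffffffffffffffffffffffffffffffffffffffffffffffffff0007ffffffffffffffffffffffffffffffffffffffffffffffffffffffffffff0007fffffffbfffffffffffffffffffffffffffffffffffffffffffffffeffff0007fffffffffffffffffffffffffffffffffffffff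fffffffffffffffffffff0007ffffffffffffffffffffffffffffffffffffffffffffffffffffffffffff0007ffffffffffffffffffffffffffffffffffffffffffffffffffffffffffff0007ffffffffffffffffffffffffffd7ffffffffffffffffffffffffffffffff0007fffffffffffffdeffffffffffffffffffffffffffffbffdfffffffffffff0007ffffffffffffffffffffffffffdfbfffffffffffffefffefffffffffffff0007fffffffffffffffffffffffffffffffffffd7fffffffffffffffffffffff0005f2fab7befffffffbe3fb9df7797fb7fffdfd5fbfefbfffeffd5fbb9ffbac0007f677bf57dfecdeffeffcfddf66bfff7fffdc7effffe5fbb97dbbe76fffff0007fffffffffffffffffffffffffffffffffffffffffffffffffffffeefffff0007ffffffffffffffffbfffffffffbfbfffffffffffffffdfffffffffffffff0007ffffffffffffffffffffffffffffffffffffffffffffffff7fffffffffff0007ffffffffffffffffffffffffffffffffffffffffffffffffbfffffffffff0007ffffffffffffffffffffffffdfffffffffffffffffffffffffffffffffff0007ffffffffffffffffffffffffdfffffffffffffffffffffffffffffffffff0007ffffffffffffffffffffffffdfffffffffffffffffffffffffffffffffff0007fffffffffffffffffffdffffbffffffffffffffffffffffffffffffbefff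

/-- leaves 10 -/
def g10 : ℕ := nat_lit 0x7ffffffffffffffffffffffffffffffffffffffffffffffffffffffffffff0007ffffffffffffffffffffffffffffffffffffffffffffffffffffffffffff0007ffffffffffffffffffffffffffffffffffffffffffffffffffffffffffff0007fffffffffffffffffffffffffff7ffffffffffffffffffffffffffffffff0007ffffffffffffffffffffffffffffffffffffffffffffffffffffffffffff0007ffffffffffffffffffffffffffffffffffffffffffffffffffffffffffff0007ffffffffffffffffffffffffffffffffffffffffffffffffffffffffffff0007ffffffffffffffffffffffdffffffffffffffffffffffffdffffffffffff0007ffffffffffffffffffffffffffffffffffffffffffffffffffffffffffff0007ffffffffffffffffffffffffffffffffffffffffffffffffffffffffffff0007ffffffffffffffffffffffffffffffffffffffffffffffffffffffffffff0007ffffffffffffffffffffffffffffffffffffffffffffffffffffffffffff0007fffefdffffffffffffffffffffffffffffffffffffffffffffffffffffff0007ffff7effffffffffffffffffffffffffffffffffffffffffffffffffffff0004ede4ffefefd5ffbfff7f52d7f6fffe7e9f6fffff7ffffbcef59fefbdfebd0007ffffffffffffbffffffffffff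ffffffffffffffffffffffffffffffdffff0007ffffffffffffffffffffffffdffffffffffffffffffffffffffffffdffff0007ffffffffffffffffffffffffffffffffffffffffffffffffffffffffffff0007fffffffeffffff7ffffffffffffffffdffffffffffffffffffffffffdfff00069fb7daf776bfffffff6fffdf7fbcbf6afdfcefbfa4df9faff1ffbfffeffe00035fdbe9f9fa7fefdfffb7ffefbfd67fa777faf7def27fcef7eafeffffbffb0006ffc735c7ffbdffefbfff9dfdefff6fffff7d5cd73effdefffbeffefa7de90006ffc735c7ffbdffefbfff9dfdefff6fffff7d5cd73effdedfbbeffefa7de90006ffc735c7ffbdffefbfff9dfdefff6ffffe755cd73effdefffbeffefa7de90006fffffffffffbfffffffeffffffffffffffffbfffffffffffffffffffffff00077f77fe334cde0ade8efd9bedf57a75257f4dffc63dd3a9ddf27ffff4ef1100055bfbdffefbfff7fe71aff6fffff7dce9eeafefefffbeffefa7ded1f7fefe0002afbfbfeffeffeff9dbcbd3fff9fffdbfff6fa5affd3bd657bef7ffbeffff0007fa3fac3f7defff7dfffcefef7ffbffbffbfaf6b3f4fff77fff6fffdbe94f0007fa3fac3f7defff7dfffcefef7ffbffbffbfaf6b3f4fff77fff6fffdbe94f0007fa3fac3f7defff7dfffcefef7ffbffbffbfaf6b3f4fff77fff6fffdbe94f0003cbd2afd6ca5afe9efbcc7b0f7bfbeef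fed60dcb1ceed7fdff3b6929fb79a0007ffffffffffffffffffffffffffff7ffffffffffffffffffeffffffffffff0007ffffffffdfffffffffff5fffffffffffffefffffffffffffffffffffffff0007fffffffffffffffffffdefffffffffffffffffffffffffdffffffffffbff0004f1fd7bbeadaf9be9f5a62fc39ae1de5cedf7dffdccd631efb7ff7f16ae6b0004fbff7bffefbffbe9f7a77fe39ae3ffdefff7dfffcefef7ffb7ffffbeae6b0004fbff7bffefbffbe9f7a77fe39ae3ffdefff7dfffcefef7ffb7ffffbeae6b0007fffffffffffff7ffffff7fffffffffffffffffffffffffffffffffffffff000311f3c2fdee6edd6aefbcea8583baf4fdf3f5ff67fedfef8ccf77e7d722bd0007f4ef595efbdffefbfffd5fdfdff7ff7ff7fcede5e9fffcfffedfffb7d2d70007ffffffffffffffffff7fffffffffbfffffffffffffffffffffffffffffff0007fffffffffffffffffffffffffffeffffffffffffffffbfffffffffffffff00015beb5ffaebfff7e870a3d6fdffd7d4a182afadefffba7fee874a51d3fedc0007ffff5fffffffffffffffffffffffffffffffffffffffffffffffffffffff0007ffff5fffffffffffffffffffffffffffffffffffffffffffffffffffffff0002bfbfbfeffeffeff9dbcbd3fff9fffdbfff6fa5affd3bd657bef7ffbeffff0007efffdf9dbc9ffdfdfabfdbfffffa5afedfffc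fd3ef7faf6fffff79deb3fd0007ffffffffffffffffffffffffffffffffbffffffffffeffffffffffffffff0007fefdffffffffffffffffffffffffffffffffffffffffffffffffffffffff0007ff7ffffffffffeffffffffffffffffffffffffffffffffffffffffffffff0006ffffffffffffffffffffffffffffffffffffffffffffffffffffffffffff0007ffffffffffbfffffffffffffffffffffffffffffffffffffffffffffffff0007ff7ffffffffffffffffffffffffffffffffffffffffffffffffffdffffff0007fffffffffffd7fffffffffffffffffffffffffffffffffffffffffffffff0007ff77fffffffffebfffffffffffffffffffffffffffffffffffffffffffff0007ffffffffffffffffffffffffffffffffffffffffffffffffffffffefffff0007ffffffffffffffffffffffffffffffffffffffff5fffffffffffffffffff0007bfffffffffffffffffffffffffffffffffffffffffffffffffffffffffff0007fffffffffffffffffbffffffffffffffffffffbfffffffffffffffffffff0007ffffffffffffffffffffffdffffffffffffffbffffffffffffffffafffff0007ffffffdffffffffffffffffffffffffffffffffffffffffffff7ffffffff0007fffffffffffffffffffffffffffffffffffffffffffffffffffffffffffb0007ffffffffbfffffffffffbfffffffffffffffffffffffffffffffffffffff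

/-- leaves 11 -/
def g11 : ℕ := nat_lit 0x7ffffffffffffffffffffffffffffffffffffffffffffffffbfffffffffff0007ffffffffffffffffffffffffffffffffffffffffffffffffffffffffffff0007ffffffffffffffffffffffffffffffffffffffffffffffffffefffffffff0007ffffffffffffffffffffbdffffffffffffffffffffffffffffffffffffff0007ffffffffffffffffffffffffffffffffffffffffffffffffffffffffffff0007fffffffffffffffffffbffffffffffffffffffffffffffffffffffffffff0007ffffffffffffffffffffffffffffffffffffffffffffffffffffffffffff0007ffffffffffffffffffffffffffffffffffffffffffffffffffffffffffff0007ffffffffffffffffffffffffffffffffffffff7fffffffffffffffffffff0007fbffffffffffffffffffffffffffffffffffffffffffffffffffffffffff0007fffffffffffffffffffffffffff7ffffffffffffffffffffffffffffffff0007ffffffffffffffffffffffffffffffffffffffffffffffffffffffffffff0007fffffeffffffffffffffffffffffffffffffffffffffffffffffffffffff0007ffffffffffffffffffffffffffffffffffffffffffffffffffffffffffff0007ffffffffffffffffffffffffffffffffffffffffffffffffffffffffffff0007fffffffffffffffffffffffff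fffffffffffffffffffffffffffffffffff0007ffffffffffffffffffffffffffffffffffffffffffffffffffffffffffff0007ffffffffffffffffffffffffffffffffffffffffffffffffffffffffffff0007fffffffffffffffffffff7fffffffffffffffffffffffffffffffffffeff0007ffffffffffffffffffffffffffffffffffffffffffffffffffffffffff7e0007ffffffffffffffffffbfffffffffffffffffffffffffffffffffffffffff0007efffdf9dbc9ffdfdfabfdbfffffa5afedfffcfd3ef7faf6fffff79deb3fd0007fffffffffffffffffebfffffffffffffffffffffffffffffffffffffffff0007fffffffffffffffffffffffffffffffffffffffffffffffffffffffffffd0007ffffffffffffffffffffffffffffffffffffffffffffffffffffffffffff0007dffffff7ffffffffffffffffffffffffffffffffffffffffffffffffffff0007ffffff7bffffffffffffffffffffffffffffffffffffffffffffffffffff0007ffffffbfffffffefffffffffffffebffffffffffffffffffffffffffffff0007fffffffffffffffffffffff7fffffffffffffffffffffbffffffffffffff0007fffffffffffffffffffffffffff7ffffffffffffffffffffffffffffffff0007ffffffffffffffffffffffffffffffffffffffffffffffffffffffffffff0002bfbfbfeffeffeff9dbcbd3fff9fffdb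fff6fa5affd3bd657bef7ffbeffff0007ffffffffffffffffffffffffffffffffffffffffffffffffffffffffffdf0007fffffffdffffffffffffffffffffffffffffffffffffffffffffffffffff0007edffffefb9d3dd5fdfdfff7dffdf4fbda3effdfd57fef7ffbefffdff9c6b0007ffffffffffffffffffffffffffffffffffffffffffffd7ffffffffffffff0007fffffffffffffffffffffffffffffffffffffffffffff7ffffffffffffff0007ffffffffffffffffffffffffffffffffffffffffafffffffffffffffffff0007fffffffffffffffffffffffffffffffffffffffffffffffffeffffffffdf0007fffffffbfffffeffffffffffffffffffffffffffffafffffffffffffffff0007cfd3fffffffdad7f6fa6b3fd3bbfd7beffffbeffbf57f7fffdffdbc9ff3b0007fffffffffffffffffffffffffffffffffff7fffffffffffff7ffffffffff00063ffdefff7dfffbff1cd7fb7ffffbeae6be77f7bfffdf7ff7d3ef4cfbff7b0007fffffffffffffffffffffffffffffffffef7ffffdffffffff7ffffffffff0007fffffffffffffbffffffffffffffffffffffffffffffffffffffffffffff0007ffffffffffffffffffffffffffbfffffffffffffffffffffffffffffffff00077ff7ff7fcede4afefeffffedfffb7d2d7f4fffe6bdf7bffdf7fffff4ef590005fffffffffffffffffffffffffffffffffffff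ffffffffffffffeffffffff0006efffffffffffffffffffffffffffffffffffffffffffffffffffffffffff0007ffffffffffffffffffffffffffffffffffffffffffffffffffffffffffdf0007ffffffffffffffffffffffffffffffffffffffffffffffffffffffffff5f0007fffffffffffffffffffdffffffffffffffffffffffffffffffffffffffdf0007fffffffffefffffffffffffffffffffffffffffffffffffffffffebfffff0006efffffffffffffffffffffffffffffffffffffffffffffffffff7fffffff0007ffffffffffffffffffffffffffffffffffffffffffffffff7fffffffffff0007ffffffffffffffffffffffffffffffffffffffffffffffffffffffffffff0007ffffffffffffffffffffffffffffffffffffffffffffffffffffffffffff0007ffffffffffffffffffffffffffffffffffffffffffffffffffffffffffff0007ffffffffffffffffffffffffffffffffffffffffffffffffffffffffffff0007ffffffffffffffffffffffffffffffffffffffffffffffffffffffffffff0007fffffffffffffffffffffffffffeffffffffffffffffffffffffffffffff0007fffffffffffffffffffffffffffffffffffffffffffffffbffffffffffff0007fffffffffffffffffffffffffeffffffffffffffffffffffffffffffffff0007ffffffffffffffffffffffffff7fffffffffffffffffffffffffffffffff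

/-- leaves 12 -/
def g12 : ℕ := nat_lit 0x7edffffefb9d3dd5fdfdfff7dffdf4fbda3effdfd57fef7ffbefffdff9c6b0007ffffffffffffffffffffffffffffffffffffffffffffffffffffffffffdf0007ffffffffffffffffffffffffffffffefffffffffffffffffffffffffffff0007ffffffffffffffffffffffffffffffffffffffffffffffffffffffffffff0007ffffffffffffffffffffffffffffffffffffffffffffffffffffffffffff0007ffffffffffffffffffffffffffffffffffffffffffffffffffffffffffff0007ffffffffffffffffffffffffffffffffffffffffffffffffffffffffffff0007ffffffffffffffffffffffffffffffffffffffffffffffffffffffffffff0007ffffffffffffffffffffffffffffffffffffffffffffffffffffffffffff0007ffffffffffffffffffffffffffffffffffffffffffffffffffffffffffff0007ffffffffffffffffffffffffffffffffffffffffffffffffffffffffffff0007ffffffffffffffffffffffffffffffffffffffffffffffffffffffffffff0007ffffffffffffffffffffffffffffffffffffffffffffffffffffffffffff0007ffffffffffffffffffffffffffffffffffffffffffffffffffffffffffff0007ffffffffffffffffffffffffffffffffffffffffffffffffffffffffffff0007fffffffffffffffffffffffff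fffffffffffffffffffffffffffffffffff0007ffffffffffffffffffffffffffffdfffffffffffffffffffffffffffffff0007ffffffffffffffffffffffffffffffffffffffffffffffffffffffffffff0007ffffffffffffffffffffffffffffffffffffffffffffffffffffffffffff0007ffffffffffffffffffffffffffffffffffffffffffffffffffffffffffff0007ffffffffffffffffffffffffffffffffffffffffffffffffffffffffffff0007ffffffffffffff7fffffbfffffffffffffffffffffffffffffffffffffff0007ffffffffffffffffffffffffffffffffffffffffffffffffffffffffffff0007ffffffffffffffffffffffffffffffffffffffffffffffffffffffffffff0007ffffffffffffffffffffff5fffffffffffffffffffffffffffffffffffff0007ffffffffffffffffffffffefffffffffffffffffffffffffffffffdfffff0007ffffffffffffffefffffffffffffffffffffffffffffffffffffffffffff0007ffffffffffffffefffffffffffffefffffffffffffffffffffffffffffff0007fffffffffffffdefffffffffffffffffffffffffffffffffffffffffffff0007fffffffffffffffffffffffffffffffffffffffffffffffffffffeffffff0007ffffffffffffffffffffffffffffffffffffffffffffffffffffffffffff0007ff7ffffffffffffffffffffffffffff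ffffffffffffffffffffffffffff70007fffffffffeffffffffffffffffffffffffffffffffffffffffffffffffff0007fffffffffdffffffffffffffffffdfffffffffffffffffffffffffffffff0007fffffffffffffffffffffffffdffdfffffffffffffffffffffffffffffff0007ffffffffffffffffffffffffffffdfbfffffffffffffffffffffffffffff0007fffffffff7fffffffffffffffffffffffffffffffffbffffffffffffffff0007fffdfffffffffffffffffffffffffffffffffeffffffffffffffffffffff0007fffffffffffffffffffffffffffffffffffffffffffffffffffffff7ffff0007fffffffff7ffffffffffffffffffffffffffffffffffffffffffffffffff0007ffffffffffffffffffffffffffffffffffffffffffffffffffffffffffff0007fffffffffffffffffffffffffffffffffffffffffdffffffffffffffffff0007fffffffffffffffffffffffffffffdffffffffffffffffffffffffffffff0007ffffffffffffffffffffffffffffffffffffffffffef7fffffffffffffff0007ffffffffffffffffffffffffffffffffffffffffffffffffffffffffffff0007ffffffffeeffffffffffffffffffffffffffffffffffffffffffffffffff0007ffffffffffffffffffffffbfffffff7fffffffffffffffffffffffffffff0007ffffffffffffffffbffffffffffffffffffbf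ffeffffffffffffefffffff0007ffffffffffffffffffffffffffffffffbfffffffffffffffffffffffffff0007ffffffffffffffffffffffffffffffffffffffffff7fffffffdfffffffff0007ffffffffffffffffffffffffffffffffffffffffffffffffff7fffffffff0007ffffffffffffffffffffffffdfffff7fffffffffffffffffffffffffffff0007fffffffffffffffff7fffffffffffff5ffffffffefffffffffffffffffff0007f7e3bfffefffd66fbbf3ff7ff7b37fbeafdee6ffffffedcfbb7d3bbf4fff0007ffbdffffffffffffffffffffffffffffffffffffffffffffffffffffffff0007fffffffffffffffffffffffbffffffffffffffffffffffffffffffffffff0007fffffffffffffffffffffffbfffffffffffffffffffffffffffffff7ffff0007ffffffffffffffffffffffebffffffffffffffffffffffffffffffffffff000738d77ffef7eafefffff7f7f7eabfffffb73a7bbfff7f1f6fbffff9f7b57d0007fbffffffffffffffffffffffffffffffffffffffffffffffffffffffffff0007fffffffffffffffffffff7ffffffffdfffffffffffffffffffffffffffff0007fffffffffffffffffffffffffffffffffffffffeffffffffffffffffffff0007ffffffffffffffffffffffffffffffffffffffffffffffffffffffffffff0007ffffffffffffffffffffffffffffffffffffffffffffffffffffffffffff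

/-- leaves 13 -/
def g13 : ℕ := nat_lit 0x7ffffffffffffffffffffffffffffffffffffffffffffffffffffffffffff0007fffffffffffffffffffffffffeffffffffffffffffffffffffffffffffff0007ffffffffffffffffffffffffffffffffffffffffffffffffffffffffffff0007ffffffffffffffffffffbdffffffffffffffffffffffffffffffffffffff0007ffffffffffffffffffffffffffffffffffffffffffffffffffffffffffff0007fffffffffffffffffffffffffeffffffffffffffffffffffffffffffffff0007ffffffffffffffffffffffffffffffffffffffffffffffffffffffffffff0007ffffffffffffffffffffffffffffffffffffffffffffffffffffffffffff0007ffffffffffffffffffffffffffffffffffffffffffffffffffffffffffff0007ffffffffffffffffffffffffffffffffffffffffffffffffffffffffffff0007fffffffffffffffffffffffffff7ffffffffffffffffffffffffffffffff0007ffffdfffffffffffffffffffffffffffffffffffffffffffffffffffffff0007fffffffffffffffffbf7ffffffffffffffffffffffffffffffffffffffff0007fffffffffffffffffdfffffffff7ffffffffffffffffffffffffffffffff0007fffeffffffffffffffffffffffffffffffffffffffffffffffffffffffff0007fffefdfffffffffffffffffff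fffffffffffffffffffffffffffffffffff0007bdfebdbffffde77acff7f7ffefcede4ffefefd5fedfffffd2d7f6fffe7e90007ffffffffffffffffffffffffffffffffffffffffffffffffffffffffffff0007ffffffffffffffffffffffffffffffffffffffffffffffffffffffffffff0007ffffffffffffffffffffffffffebffffffffffffffffffffffffffffffff0007fffffffffffffffffffffffffffdfffffffffffffffffffffffffff7ffff0007bffffffffffffffffffffffffffffffffffffffff7fffffff5ffffffffff0007fffffffffffffffffffffffffffffffffdffffffffffffffffffffffffff0007ffffeffffffffffffffffffffffffffffffffffffffbffffffffffffffff0007ffffffffffffffffffffffffffffffffffffffffffffffffffffffffffff0007ffffff7effffffffffffffffffffffffffffffffffffffffffffffffffff0007ffffffffffffffffffffffffffffbfffffffffffffffffffffffffffffff0007ffffffffffffffffffffffffffffffffffffffffffffbfffffffffffffff00055ffbdffefbfff7fe71aff6fffff7dce9eeafefefffbeffefa7ded1f7fefe0007ffffdfffffffffffffffffffffffffffffffffffffffffffffffffffffff0007ffff5fffffffffffffffffffffffffffffffffffffffffffffffffffffff0002bfbfbfeffeffeff9dbcbd3fff9fffdb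fff6fa5affd3bd657bef7ffbeffff0007fffffffffffffffffffffbffffffffffffffffffffffffffffffffffffff0005fe3ff7fffdffdacdf9fbdddafffffffdbd3f6fb4f2fdabf7f3beffffbeff0007ffffffffffffffffffffffffffffffffffbffffffdffffffefdfffffffff0007ffffffffdfffffffffffdfffffffffffffffffffffffffffffffffffffff0007ffffffffdfffffffffff5fffffffffffffefffffffffffffffffffffffff0007ff7dffdf4fbd33effdef1ffef7ffbefffdff8e6bfdbffffdf5735f3bfbdf0007fffffffffffffffffffffffffffffffffffffffffffffffffeffffffffdf0007ffffffffffffffffffffffffffffffffffffffffffffffdfffffffffffff0003f7ffffffffffffffffffffffffffffffffffffffffffffffffbfffffffff0007fffffffffffffffffffefdffffffffffffffffffffffffffffffffffffff0007ffffffffffffffffffff7ffffffffffffffffffffffffffffffffffffeff0007ffffffffffffffffff7fffffffffffffffffffffffffffffffffffffffff0007ffffffffffffffffff7fffffffffbfffffffffffffffffffffffffffffff0007fffffffffffffffffd7fffffffffffffffffffffffffffffffffffffffff00077ff7ff7fcede4afefeffffedfffb7d2d7f4fffe6bdf7bffdf7fffff4ef590007ffffffffffffffffffff77fffffffffffffff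ffffffffffffffffffffeff0003f2cdf7dfff7e3feffefefffbdcfbfff7ff5337fbff77e9f6fffffe9cfbb70007fffffffffffffffbffffffffffffffffffffffffffffffffffffffffffff0007fffffffffffffffffffffffffffffffefffffffffffffffffffffffffffb0007feffffffffffffffffffffffffffffffffffffffffffffffffffffffffff0007fefdffffffffffffffffffffffffffffffffffffffffffffffffffffffff0007feffffffffffffffffffffffffffffffffffffffbfffffffffffffffffff0007ffffbbffffffffffffffffffffffffffffffffffffffffffffffffffffff0007ffffffffffffffffffffffffffffffffffffffffffffffffffffffffffff0007ffffffffffffffffffffffffffffffffffffffffffffffffffffffffffff0007ffffffffdfffffffffffffffffffffffffffffffffffffffffffff7fffff0007ffffffffffffffbfffffffffffffffffffffffffffffffffffffffffffff0007ffffffffffffffffffffffffffffffffffffffffdfffffffffffffffffff0007bfffffffffffffffffffffffffffffffffffffffffffffffffffffffffff0007bfffffffffffffffffffffffffffffffffffffffffffffffffffffffffff0007bfffffffffffffffffffffffffffffffffffffffffffffffffffffffffff0007ffeffffffffffffffffffffffffffffffeffffffffffffffffffffffffff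

/-- leaves 14 -/
def g14 : ℕ := nat_lit 0x7ffffffffffffffffffffffffffffffffffffffffffffffffffffffffffff0007ffffffffffffffffffffffffffffffffffffffffffffffffffffffffffff0007ffffffffffffffffffffffffffffffffffffffffffffffffffffffffffff0007ffffffffffffffffffffffffffffffffffffffffffffffffffffffffffff0007ffffffffffffffffffffffffffffffffffffffffffffffffffffffffffff0007ffffffffffffffffffffffffffffffffffffffffffffffffffffffffffff0007ffffffffffffffffffffffffffffffffffffffffffffffffffffffffffff0007ffffffffffffffffffffffffffffffffffffffffffffffffffffffffffff0007ffffffffffffffffffffffffffffffffffffffffffffffffffffffffffff0007ffffffffffffffffffffffffffffffffffffffffffffffffffffffffffff0007fffffffffffffffffffffdffffffffffffffffffffffffffffffffffffff0007ffffffffffffffffffffffffffffffffffffffffffffffffffffffffffff0007ffffffffffffffffffffffffffffffffffffffffffffffffffffffffffff0007ffffffffffffffffffffffffffffffffffffffffffffffffffffffffffff0007ffffffffffffffffffffffffffffffffffffffffffffffffffffffffffff0007fffffffffffffffffffffffff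fffffffffffffffffffffffffffffffffff0007fbffffffffffffffffffffffffffffffffffffffffffffffffffffffffff0007ffffffffffffffffffffffffffffffffffffffffffffffffffffffffffff0007fffffffffffffffffffffffffffffffffdfffffffffffffffff7ffffffff0007fbfffffffffffffffffffffffffffffffffffffffffffffffffbffffffff0007fffffffffffffffffffff7ffffffffffffffffffffffffffffffffffffff0007fffffffffffffffffffff7fffffffffffffffffffffffffffffffffffeff0007fffffffffffdfffffffff7ffffffffffffffffffffffffffffffffffffff0007ffffffffffffffffffffffffffffffffffffffffffffffffffffffffffff0007ffffffffffffffffffffffffffffffffffffffffffffffffffffffffffff0007bfffffffffffffffffffffffffffffffffffffffffffffffffffffffffff0007dfffffffffffffffffffffffffffffffffffffffffffffffffffffffffff0007ffffffffffffffffffffffffffffffffffffffffffffffffffffffffffff0007fffffff7ffffffffffffffffffffffffffffffffffffffffffffffffffff0007fffffffffffffffffffffdffffffffffffffffffffffffffffffffffffff0007ffffffffffffffffffffffffffffffffffffffffffffffffffffffffffff0007ffffffffffffffffffffffffffffff7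ffffffffeffffffffffffffffffff0005ffffffffffffffffffffffffffffffffffffffffffffffffffffffffffff0006ffffffffffffffffffffffffffffffffffffffffffffffffffffffffffff0007ffffffffffffffffffffffffffffffffffffffffffffffffffffffffffdf0007ffffffffffffffffffffffffffffffffffffffffffffffffffffffffffdf0007ffffffffffffffffffffffffffffffffffffffffffffffffffffffffffdf0007fffffffffeffffffffffffffffffffffffffffffffffffffffffffbfffff0007ffffffffffffffffffffffffffffffffffffffffffffffffffffffffffff0007ffffffffffffffffffffdfffffffffffffffffffffffffffffffffffffff0007ffffffffffffffffffffefffffffffffffffffffffffffffffffffffffff0007ffffffffffffffffffffffffffffffffffffffffffafffffffffffffffff0007ffffffffffffffffffffffffffffffffffffffffffffffffffffffffffff0007ffffffffffffffffffffffffffffffffffffffffffffffffffffffffffff0007ffffffffffffffffffffffffffffffffffffffffffffffffffffffffffff0007fffffffffffffffffffdefffffffffffffffffffffffffffffffffffffff0007ffffffffffffffffffffffbbfffffffffffffffffffffffffffffbffffff0007fffffffffffff5fffffffffffffffffffffff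fffffffffffffffffffffff0007fffffffffffffaffffffffffffffffffffffffffffffffffffffffffffff0007fffffffffffffffffffffffffffffffffffffffffffffffffffeffffffff0005fffffffffffffffffffffffffffffffffffffffffffffffffffeffffffff0007ffffffffffffffffffffffffffffffffffbffffffffffffffffeffffffff0007ff77fffffffffffffffffffffffffffffffffffffffffffdffffffffffff0007ffffffffffffffffffffffffffffffffffffffffffffffffffffffffffff0007ffffffffffffffff7fffffffffffffffffffffffffffffffffffffffffff0007ffffffffffffffffffffffffffffffffffffffffffffffffffffffffffff0007ffffffffffffffffffffffffffffffffffffffffffffffff7fffffffffff0007ffffffffffffffffffffffffffffffffffffffffffffffffffffffffffff0007ffffffffffffffffffffffffffffffffffffffffffffffffffffffffffff0007fffffffeffffffffffffffffffffffffffffffffffffffffffffffffffff0007fffffffffffffffffffff7ffffffffdfffffffffffffffffffffffffffff0007fffffffffffffffffffffffffffffffffffffffffeffffffffffffffffff0007fffffffffffffffffffffffffffffffffffffffbffffffffffffffffffff0007ffffffffffffffffffffffffffffffffffffffffffffffffffffffffffff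

/-- leaves 15 -/
def g15 : ℕ := nat_lit 0x7ffffffffffffffffffffffffffffffffffffffffffffffffffffffffffff0007ffffffffffffffffffffffffffffffffffffffffffffffffffffffffffff0007ffffffffffffffffffffffffffffffffffffffffffffffffffffffffffff0007ffffffffffffffffffffffffffffffffffffffffffffffffffffffffffff0007ffffffffffffffffffffffffffffffffffffffffffffffffffffffffffff0007ffffffffffffffffffffffffffffffffffffffffffffffffffffffffffff0007ffffffffffffffffffffffffffffffffffffffffffffffffffffffffffff0007ffffffffffffffffffffffffffffffffffffffffffffffffffffffffffff0007ffffffffffffffffffffffffffffffffffffffffffffffffffffffffffff0007ffffffffffffffffffffffffffffffffffffffffffffffffffffffffffff0007ffffffffffffffffffffffffffffffffffffffffffffffffffffffffffff0007ffffffffffffffffffffffffffffffffffffffffffffffffffffffffffff0007ffffffffffffffffffffffffffffffffffffffffffffffffffffffffffff0007ffffffffffffffffffffffffffffffffffffffffffffffffffffffffffff0007ffffffffffffffffffffffffffffffffffffffffffffffffffffffffffff0007fffffffffffffffffffffffff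fffffffffffffffffffffffffffffffffff0007ffffffffffffffffffffffffffffffffffffffffffffffffffffffffffff0007ffffffffffffffffffffffffffffffffffffffffffffffffffffffffffff0007ffffffffffffffffffffffffffffffffffffffffffffffffffffffffffff0007ffffffffffffffffffffffffffffffffffffffffffffffffffffffffffff0007ffffffffffffffffffffffffffffffffffffffffffffffffffffffffffff0007ffffffffffffffffffffffffffffffffffffffffffffffffffffffffffff0007ffffffffffffffffffffffffffffffffffffffffffffffffffffffffffff0007ffffffffffffffffffffffffffffffffffffffffffffffffffffffffffff0007ffffffffffffffffffffffffffffffffffffffffffffffffffffffffffff0007dfffffffffffffffffffffffffffffffffffffffffffffffffffffffffff0007ffffffffffffffffffffffdfffffffffffffffffffffffffffffffffffff0007ffffffffffffffffffffffffffffffffffffffffffffffffffffffffffff0007ffffffffffffffffffffffffffffffffffffffffffffffffffffffffffff0007ffffffffffffffffffffffffffffffffffffffffffffffffffffffffffff0007ffffffffffffffffffffffffffffffffffffffffffffffffffffffffffff0007fffffffffffffffffffffffffffffff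fffffffffffffffffffffefffffff0007fff7fffffffffffffffffffffffff7ffffffffffffffffffffffffffffff0007ffffffffffffffffffffffffffffffffffffffffffffffffffffffffffff0007ff7ffffffffffffffffffffffffffffffffffffffffffffffffffffffff70007fffffffffffffffffffffeffffffffffffffffffffffffffffffffffffff0007ffffffffffffffffffffffffffffffffffffffffffffffffffffffffffff0007fffffffffffffffffffffffffffffff5ffffffffffffffffffffffffffff0007fffbffffffffffffffffffffffffffffffffffffffffffffffffffffffff0007ffbdffffffffffffffffffffffffffffffffffffffffffffffffffffffff0007ffffffffffffffffffffffffffffffffffffffffffffffffffffffffffff0007fffffffffffffffffffffffffffffffffffffffffffffffffffffff7ffff0007fffffffffffffffffffffffbffffffffffffffffffffffffffffffffffff0007fffffffffffbfffffffffffffffffffffffffffffffffffffffffffffdff0007ffffffffffffffffffffffffffffffffffffffffffffffffffffffffffff0007ffffffffffffffffffffffffffffffffffffffffffffffffffffffffffff0007fffffffffffffffffffffffbffffffffffffffffffffffffffffffffffff0007fffffffffffffffffffffffffffffffffffff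fffffffffffffffffffffff0007ffffffffffffffffffffffffffffffffffffffffffffffffffffffffffff0007ffffffffffffffffffffffffffffffffffffffffff7fffffffffffffffff0007ffffffffffffffffffffffffffffffffffffffffffffffffffffffffffff0007fffffffffffffffffffffffbffffffffffffffffffffffffffffffffffff0007ffffffffffffffffffffffffffffffffffffffffffffffffffffffffffff0007ffffffffffffffffffffffffffffffffffffffffffffffffffffffffffff0007ffffffffffffffffffffffffffffffffffffffffffffffffffffffffffff0007fffffffffffffffffffffffffffffffffffeffffffffffffffffffffffff0007f7ffffffffffffffffffffffffffffffffffffffffffffffffffffffffff0007ffffffffffffffffffffffffffffffffffffffffffffffffffffffffffff0007fffdffffffffffffffffffffffffffffffffffffffffffffffffffffffff0007ffffffffffffffffffffffffffffffffffffffffffffffffffffffffffff0007ffffffffffffffffffffffffffffffffffffffffffffffffffffffffffff0007ffffffffffffffffffffffffffffffffffffffffffffffffffffffffffff0007ffffffffffffffffffffffffffffffffffffffffffffffffffffffffffff0007fffffffffffffffffffffffffffffffffffffffeffffffffffffffffffff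

/-- leaves 16 -/
def g16 : ℕ := nat_lit 0x7ffffffffffffffffffffffffffffffffffffffffffffffffffffffffffff0007ffffffffffffffffffffffffffffffffffffffffffffffffffffffffffff0007ffffffffffffffffffffffffffffffffffffffffffffffffffffffffffff0007ffffffffffffffffffffffffffffffffffffffffffffffffffffffffffff0007ffffffffffffffffffffffffffffffffffffffffffffffffffffffffffff0007ffffffffffffffffffffffffffffffffffffffffffffffffffffffffffff0007ffffffffffffffffffffffffffffffffffffffffffffffffffffffffffff0007ffffffffffffffffffffffffffffffffffffffffffffffffffffffffffff0007fffffffdfffffffffffffffffffffffffffffffffffffff7ffffffffffff0007ffffffffffffffffffffffffffffffffffffffffffffffffffffffffffff0007ffffffffffffffffffffffffffffffffffffffffffffffffefffffffffff0007fffffffffffffffffffffbffffffffffffffffffffffffffffffffffffff0007ffffffffffffffffffffffffffffffffff7ffffffffffffffbffffffffff0007ffffffffffffffffffffffffffffffffffffffffffffffffefdfffffffff0007ffffffffffffffffffffdfffffffffffffffffffffffffffffffffffffff0007ffffffffffffffffffff5ffff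fffffffffffffffffffffffffffffffffff0007ffffffffdfffffffffffdfffffffffffffffffffffffffffffffffffffff0007ffffffffffffffffffffffffffffffffffffffffffffffffffffffffffff0007ffffffffffffffffdfffffffffffffffffffffffffffffffffffffff7fff0007ffffffffffffffffffffffffffffffffffffffffffffffffffefffffffff0007ffffbfffffffffff7fffffffffffffffffffffffffffffffffffffffffff0007fff7fffffffffffffffffffffffffffffffffffffffffffffffffffffdff0007ffffffffffffffffffffffffffffffffffffffffffffffffffffffffbdff0007fffffbfffffffffffffffffffffffffffffffffffffffffffffffffffdff0007ffffffffffffffffffffffffffffffffffffffffffffffffffffffffffff0007fffffffffffffffffffffffffffff5ffffffffffffffffffffffffffffff0007ffffffffffffffffffffffffffffffffffffffffffffffffff7fffffffff0007bfffffffffffffffffffffffffffffffffffffffffffffffffffffffffff0007ffffffffffffffffffffffffffffffffffffffffffffffffffffffffffff0007fffffffffffffffffffffffffffffffffffffffffffffffffffffffdffff0007fffffffffffffffffffffbffffffffffffffffffffffffffffffffffffff0007fffffffffbfffffffffffffffffffff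fffffffffffffffffffffffffff7f0007fff7ffffffffffffffffffffffffffffffffffffffffffffffffffffffff0007ffffffffffbfffffffffffffffffffffffffffffffffffffffbfffffffff0007ff5fffffffffffffffffffffffffffffffffffffffffffffffffffffffff0007fffffffffefffffffffdffffffffffffdfffffffffff7fffffffffffffff0007fffffffffffffffeffffffffffffffffffffffffffffffffffffffffdfff0007ffffffffffff7fffffffffffffffffffffffffffffffffffffffffffffff0007ffffffffffffffffffffffffffffffffffffffffffffffffffffffffffff0007ffffbffffeffffffffffffffffffffffffffffffffffffffffffffffffff0001fb59bffbdfe3ffefffdfb5a7edfffdddaedffffefffff7d5ef2fdf7f7f3b0007fffffffffffffffffffffffffffffffffffffffffffaffffffffffffffff0005ee7dfffffff7de9df4fa6bbff1fbf1ffeffffbefdfe77f7fffdbf9afdf570007ffffffffffffffffffffffffffffffffffffffffffffffffff7fffffffff0007ffffffffffffffffffffffffffffffffffffffffffffffffef7fffffffff0007ffffffffffffffffffffffffffffffffffefffffffffffffff7fffffffff0007bfdffffffffffffffffffffffffffffffffffffffffffffffffaffffffff0007fffffffffffffffffffffffffffbfffffffff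fffffffffffffffffffffff0007ffffffffffffffffffffffffffffffffffffffffffffffffffffffffffff0007ffffffffffffffffffffffffffffffffffffffffffffffffffffffffffff0007ffffffffffffffffffffffffffffffffffffffffffffffffffffffffffff0007fffffffffffffffffffffffffbffffffffff7fffffffffffffffffffffff0007ffffffffffffffffffffffffffffffffffffffffffffffffffffffffffff0007ffffffffffffffffffffffffffffffffffffffffffffffffffffffffffff0007ffffffffffffffffffffffffffffffffffffffffffffffffffffffffffff0007ffffffffffffffffffffffffffffffffffffffffffffffffffffffffffff0007ffffffffdfbfffffffffffffffffffffffffffffffffffffffffffffffff0007ffffffffffffffffffffffffffffffff5fffffffffffffffffffffffffff0007fffffffffffffffffffffffffffffffffffffffffffffbfffffeffffffff0007fffbffffffffffffffffffffffffffffffffffffffffffffffffffffffff0007ffffffffffffffffffffff7fffffffffffffffffffffffffffffffffffff0006ffffffffffffffffffffff7fffffffffffffffffffffffffffffffffffff0007ffffffffffffffffffffff7effffffffffffffffffffffffffffffffffff0003f2cdf7dfff7e3feffefefffbdcfbfff7ff5337fbff77e9f6fffffe9cfbb7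

/-- leaves 17 -/
def g17 : ℕ := nat_lit 0x7ffffffffffffffffffffffffffffffffffffffffffffffffffffffffffff0007ffffffffffffffffffffffffffffffffffffffffffffffffffffffffffff0007ffffffffffffffffffffffffffffffffffffffffffffffffffffffffffff0007ffffffffffffffffffffffffffffffffffffffffffffffffffffffffffff0007ffffffffffffffffffffffffffffffffffffffffffffffffffffffffffff0007ffffffffffffffffffffffffffffffffffffffffffffffffffffffffffff0007ffffffffffffffffffffffffffffffffffffffffffffffffffffffffffff0007ffffffffffffffffffffffffffffffffffffffffffffffffffffffffffff0007ffffffffffffffffffffffffffffffffffffffffffffffffffffffffffff0007ffffffffffffffffffffffffffffffffffffffffffffffffffffffffffff0007ffffffffffffffffffffffffffffffffffffffffffffffffffffffffffff0007ffffffffffffffffffffffffffffffffffffffffffffffffffffffffffff0007ffffffffffffffffffffffffffffffffffffffffffffffffffffffffffff0007ffffffffffffffffffffffffffffffffffffffffffffffffffffffffffff0007ffffffffffffffffffffffffffffffffffffffffffffffffffffffffffff0007fffffffffffffffffffffffff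fffffffffffffffffffffffffffffffffff0007ffffffffffffffffffffffffffffffffffffffffffffffffffffffffffff0007ffffffffffffffffffffffffffffffffffffffffffffffffffffffffffff0007ffffffffffffffffffffdfffffffffffffffffffffffffffffffffffffff0007ffffffffffffffffffffffffffffffffffffffffffffffffffffffffffff0007ffffffffffffffffffffffffffffffffffffffffffefffffffffffffffff0007ffffffffffffffffffffffffffffffffffffffffffffffffffffffffffff0007ffffffffffffffffffffffffffffffffffffffffffffffffffffffffffff0007ffffffffffffffffffffffffffffffffffffffffffffffffffffffffffff0007ffffffffffffffffffffffffffffffffffffffffffffffffffffffffffff0007fffffffffffffffffffffffeffffffffffffefffffffffffffffffffffff0007ffffffffffffffffffffffffffffffffffffffffffffffffffffffffffef0007ffffffffffffffffffffffffffffffffffffffffffffffffffffffffffff0007ffffffffffffffffffffffffffffffdfffffffffffffffffffffffffffff0007ffffffffff7fffffffdfffffffffffffffffffffffffffffffffffffffff0007ffffffffffffffffffffffffffffffffffffffffffffffffffffffffffff0007ffdffffffffffffffffffffffffffff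ffffffffffffffffffffeffffffff0007fffffffffffffffffffffff5ffffffffffffffffffffffffffffffffffff0007fffffffffffffffffffffffeffffffffffffffffffffffffffffffffffff0007ffffffffffffffffffffffffffffffffffffffffffffffffffffffffffff0007fffffffffffffffffffffffffffffeffffffffffffffffffffffffffffff0007ffffffffffffffdfffffffffffffffffffffffffffffffffffffffffffff0007fffffffffffffffffffffffffffffff5ffffffffffffffffffffffffffff0007ffffffffffffffffffffffffffffffffffffffffffffffffffffffffffff0007ffffffffffffffffffffffffffffffffffffffffffff7fffffffffffffff0007ffffffffffffffffffffffffffffffffffffffffffffffffffffffffffff0007ffffffffffffffffffffffffffffffffffffffffffffffffffffffffffff0007ffffffffffffffffffffffffffffffffffffffffffffffffffefffffffff0007ffffffffffffffffffffffffffffffffffffffffffffffffffffffffffff0007ffffffffffffffffffffffffffffffffffffffffffffffffffffffffffff0007fffffffffffffffffffffffffffffffffffffffffffdffffffffffffffff0007fffffffffffffffffffffffffffffdffffffffffffffffffffffffffffff0007fffffffffffffffffffffffffffffffffffff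fffffffffffffffffffffff0007ffffffffffffffffffffffffffffffffffffffffffffffffffffffffffff0007fffffffffffffffffffffffdffffffffffffffffffffffffffffffffffff0007ffffffffffffffffffffffffffffffffffffffffffffffffffffffffffff0007fffffffffffffffffffffbffffffffffffffffffffffffffffffffffffff0007ffffffffffffffffffffffffffffffffffffffffffffffffffffffffffff0007ffffffffffffffffffffffffffffffffffffffffffffffffffffffffffff0007ffffffffffffffffffffffffffffffffffffffffffffffffffffffffffff0007ffffffffffffffffffffffffffffffffffffffffffffffffffffffffffff0007ffffffffffffffffffffffffffffffffffffffffffffffffffffffffffff0007ffffffffffffffffffffffffffffffffffffffffffffffffffffffffffff0007ffffffffffffffffffffffffffffffffffffffffffffffffffffffffffff0007ffffffffffffffffffffffffffffffffffffffffffffffffffffffffffff0007fffffffffffffffffffffffffffffffffffffffffffffffffff7ffffffff0007ffffffffffffffffffffffffffffffffffffffffffffffffffffffffffff0007ffffffffffffffffffffffffffffffffffffffffffffffffffffffffffff0007ffffffffffffffffffffffffffffffffffffffffffffffffffffffffffff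

/-- leaves 18 -/
def g18 : ℕ := nat_lit 0x7fffffffffffffffffffffffffffffffffffffffffeffffffffffffffffff00020040000000080008000080000000405000020001000004000004000080000007ffffffffffffffffffffffffffffffffffffffffffffffffffffffffffff0007ffffffffffffffffffffffffffffffffffffffffffffffffffffffffffff0007ffffffffffffffffffffffffffffffffffffffffffffffffffffffffffff0007ffffffffffffffffffffffffffffffffffffffffffffffffffffffffffff0007ffffffffffffffffffffffffffffffffffffffffffffffffffffffffffff0007ffffffffffffffffffffffffffffffffffffffffffffffffffffffffffff0007ffffffffffffffffffffffffffffffffffffffffffffffffffffffffffff0007ffffffffffffffffffffffffffffffffffffffffffffffffffffffffffff0007ffffffffffffffffffffffffffffffffffffffffffffffffffffffffffff0007ffffffffffffffffffffffffffffffffffffffffffffffffffffffffffff0007ffffffffffffffffffffffffffffffffffffffffffffffffffffffffffff0007ffffffffffffffffffffffffffffffffffffffffffffffffffffffffffff0007ffffffffffffffffffffffffffffffffffffffffffffffffffffffffffff0007fffffffffffffffffffffffff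fffffffffffffffffffffffffffffffffff0007ffffffffffffffffffffffffffffffffffffffffffffffffffffffffffff0007ffffffffffffffffffffffffffffffffffffffffffffffffffffffffffff0007ffffffffffffffffffffffffffffffffffffffffffffffffffffffffffff0007ffffffffffffffffffffffffffffffffffffffffffffffffffffffffffff0007ffffffffffffffffffffffffffffffffffffffffffffffffffffffffffff0007ffffffffffffffffffffffffffffffffffffffffffffffffffffffffffff0007ffffffffffffffffffffffffffffffffffffffffffffffffffffffffffff0007ffffffffffffffffffffffffffffffffffffffffffffffffffffffffffff0007ffffffffffffffffffffffffffffffffffffffffffffffffffffffffffff0007ffffffffffffffffffffffffffffffffffffffffffffffffffffffffffff0007ffffffffffffffffffffffffffffffffffffffffffffffffffffffffffff0007ffffffffffffffffffffffffffffffffffffffffffffffffffffffffffff0007ffffffffffffffffffffffffffffffffffffffffffffffffffffffffffff0007ffffffffffffffffffffffffffffffffffffffffffffffffffffffffffff0007ffffffffffffffffffffffffffffffffffffffffffffffffffffffffffff0007fffffffffffffffffffffffffffffff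ffffffeffffffffffffffffffffff0007fffffffffffffffffffffffffffffffffffffffffffffffffffeffffffff0007fffffffffbfffbffffffffffffffffffffffffffffffffffffffffffffff0007ffffffffffffffffffffffffffffffffffffffffffffffffffffffffffff0007ffffffffffffffffffffffffffffffffffffffffffffffffffffffffffff0007ffffffffffffffffffffffffffffffffffffffffffffffffffffffffffff0007ffffffffffffffffffffffffffffffffffffffffffffffffffffffffffff0007ffffffffffffffffffffffffffffffffffffffffffffffffffffffffffff0007ffffffffffffffffffffffffffffffffffffffffffffffffffffffffffff0007ffffffffffffffffffffffffffffffffffffffffffffffffffffffffffff0007ffffffffffffffffffffffffffffffffffffffffffffffffffffffffffff0007ffffffffffffffffffffffffffffffffffffffffffffffffffffffffffff0007ffffffffffffffffffffffffffffffffffffffffffffffffffffffffffff0007ffffffffffffffffffffffffffffffffffffffffffffffffffffffffffff0007ffffffffffffffffffffffffbfffffffffffffffffffffffffffffffffff0007ffffffffffffffffffffffffffffffffffffffffffffffffffffffffffdf0007fffffffffffffffffffffffffffffffffffff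fffffffffffffffffffffff0007fffffffffffffffffffffffffffffffdffffffffffffffffffffffffffff0007fffffffffffffffffeffffffffffffffffffffffffffffffffffffffffff0007ffffffffffffffffffffffffffffffffffffffffffffffffffffffffffff0007ffffffffffffffffffffffffffffffffffffffffffffffffffffff7fffff0007ffffffffffffffffffffffffffffffffffffffffffffffffffffffffffff0007ffffffffffffffffffffffffffffffffffffffffffffffffffffffffffff0007ffffffffffffffffffffffffffffffffffffffffffffffffffffffffffff0007ffffffffffffffffffffffffffffffffffffffffffffffffffffffffffff0007ffffffffffffffffffffffffffffffffffffffffffffffffffffffffffff0007ffffffffffffffffffffffffffffffffffffffffffffffffffffffffffff0007ffffffffffffffffffffffffffffffffffffffffffffffffffffffffffff0007ffffffffffffffffffffffffffffffffffffffffffffffffffffefffffff0007ffffffffffffffffffffffffffffffffffffffffffffffffffffffffffff0007ffffffffffffffffffffffffffffffffffffffffffffffffffffffffffff0007ffffffffffffffffffffffffffffffffffffffffffffffffffffffffffff0007ffffffffffffffffffffffffffffffffffffffffffffffffffffffffffff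

/-- leaves 19 -/
def g19 : ℕ := nat_lit 0x7fffffffffffffebffffffffffffff7ffffdfffffffffffffffffffffffff0002a777f5d781a55f5ffdfbffffd2a95c7ffd2e294bdeffbdd62fdef6ec02740007f677bf57dfecdeffeffcfddf66bfff7fffdc7effffe5fbb97dbbe76fffff0007df73fbf56fd3dfefbfff6fffffffd6eef5bedf96ffeffffbff1febf3f66b0007ffffffffffffffffffffebffffffffffffffffffffffffffffffffffffff0007fffffffffffffeefffffffffffffffffbfffffffffbfffffffffffffffff0007ffffffffffffffffffffffffffffffffffbfffffffffffffffffffffffff0007fffffffffffffffffffffffffffffffffeffffffffffffffffffffffffff0007ddf966f8efffbbfff7ff737ffddffdffffefa99ba7ffbbfffb7ffedf4e7d0007ffffffffffffbfffffffffffffffffffffffffffffffffffffffffffffff0007ffffffffffffbfffffffffffffffffffffffffffffffffffffffffffffff0007ffffffff7fff7fffffffdf7fffffffffffffffffffffffffffffffffffff0006effffffffffffffbfffffffffffffffffffffdffffffffffffffffffffff00041afdf1eeb307dfbdfbde7cdf69d0d8dffeddf197fd7ffae079fbc5fa88af00020f77dcf758877fd7fd7d776fa6e1687fff6eeacbfebffd51aefdc6ef04770007ffffffffeeffffffaffffffff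fffffffffffffffffffffffffffffffffff0007bffbfffecef7eafbad9bf71fbf9fbbecd7ffefffdbfffffffcbf772fb77c0007fbeffffbee7f7eadaa796fb7e5edfffffffadddefcfd9adffdffff7fe3fd0007fffffffffffffffffbfffffffffd7ffffffffffffffffffffffffffeffff0007ff57ffffffffffffffffffffffffffffffffffffffffffffffffffafffff0007fffffff7fffffffffffffffffffffffffffffffffffffffffffffffabfff0007fffffffffffffffffffffffffffd7fffffffffffffffffffffffffffffff0007fffffffffffffffffffffffffff7bfffffffffffffffffffffffffffffff0007fffffdfffffffffffffffffffffffffffffffffffffffffffbffffffffff0007fffffdffffffffffffffffffffffffffffbfffffffffffffffffffffffff0007fffffdffffffffffffffffffffffffffffffffffffffffff7fffffffffff0007bbfffffffffffffffffffffffffffffffffd7fffffffffffffffffffffff0007ffffffffffffffffffffffffffd7bffffffffffffff5ffffffffffffffff0007fffffffffffffffffffbfffffff7fffdfffffffffeffffffffffffffffff0007f66b7af7ffeffdcff7bfbffffdbf3fbdf7f9afe2dff297fffff6f97eefff0007ffffffffffffffffff7fffffffdfbffffffffeffffffffffffffffffffff0007fbfffffffffffffffffffffffffffff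fffffffffffffffffffffffffffff0005fbfffffffdffffffffffffffffffffffffffffffffffffffffdfffffffff0005ebfdefbfcd7b9efffff7ffffb7cbf3fffb7f5a5ff7ffeffd5fbfbff93db90007ffffffffffebfffffffffffff5ffffffffffffffffffffffffffffffffff0007fffffffffffffdffffffffffffffffdfffffffffffffffffffffffffffff0007ffffffffffbffffffffffffffffffbffffffffffffffffffffffffffffff0007ff7ffeb37ddf9fdf8efd9bfdf57ef737fffdffde7ddbe9ddfa7fffffffb70005ffffffffffffffffffffffffffffffffffffffffffffffffffffffffffff0007ffffffffffffffffffefffffffffffffffffbfffffffffffffffffffffff0007ffffbfbfffffffffffffffffffffffffffffffffffffffffffffffffffff0007ffffffbf7fffffffffffffffffffffffffffffffffffffffffffffffffff0006ffffffbfffffffffffffffffffffffffffffffffffffffffffffffffffff0007ffffffffeeffffffffffffffffffffffffffffffffffffffffffffffffff0006ffffffffffffffffffeffffffffbffffffffbfffffffffffffffffffffff0007fffffff7ffffffffffffffffffffffffffffffffffffffffffffffffffff0007ffffffffffffffffffffffffffffffffffffffffffffffffffffffffff3a0007ffffff7efffffffffbffffffbffffffffffff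fffffffffffffffffffffff0007efffdf3f5fff6ff66c7ceeffff7df26bdff7ff7ffffffdbadddfffd9f3d60007fffffffffffffffffffffffffffffffffffffffffeffffffffffffffffff0007df26bdff7ff7e777fffbadddfffd9f3d6fffffec7ebffedfecd8ffefffdf0007fffffffffffffffeffffffffffffffffffffffff7effffffff7fffffffff0007fbffefffffffffffffffffffffffffffffffff7ffffffffbffffffffffff0007fffffffffffffffffffffeffffffffffffffffffffffffffffffff7fffff0007fdffffffffffffffffffffffffffffffffffffffffffffffffffffff7fff0007dfff7ffffffffffffffffffffffffffffffffffdffffffdfffffffffffff0007ffffffffffffffffffffffffffffffffffffd7ffffffffffffffffffffff0007fffffffffffffffffffffffffffffffffffffffdffffffffffffffffbfff0007fffffffeffffffffffffffffffffffffffffffffffffffffffffffffffff0007ffffffffffffffffffffffffdfdfffffffffffffffffffffffffffffffff0007ffffffffffffffffffffffffffdfffffffffffffffffffffffffff7fffff0007ffffffffffffffffffffffffffdfbfffffffffffffffffffffffffffffff0007ff7ffeb37ddf9fdf8efd9bfdf57ef737fffdffde7ddbe9ddfa7fffffffb70007fbfffffefffffffffffffffffffffffffffffff7ffffffffffffffffdfff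

/-- leaves 20 -/
def g20 : ℕ := nat_lit 0x7fffffffffffffffffffffffffff7ffffffffffffffffffffffffffffffff0007ffffffffffffffffffffffffffd7ffffffffffffffffffffffffffffffff0007fffffffffffffffffffbfffffff7ffffffffffffffffffffffffffffffff0007ffffffffffffffffffffffffffffffffffffffffffffffffffffffffffff0007ffffffffffffffffffffffffffffffffffffffffffffffffffffffffffff0007fffffffffffffffffffffffffffffffffffffffffffffffffffffffffbff0007fffffffdfffffffffffffffffffffffffffffffffffffffffbffffffffff0007fffffffeffffffffffffffffffffffffffffffffffffffffffffffffffff0007ffffffffffffffffffffffbffffffffffffffffffffbffffffffffffffff0007ffffffffffffffffffffffffffbfffffffffffffffffffffffffffffffff0007ffffffffffffffffffffffffffffffffffffffffffffffffffffffffffff0007fffffffffffffffffffffffffffffffffffd7fffffffffffffffffffffff0007fffffffeffffffffffffffffffffffffffffffffffffffffffffffffffff0007ffffffef7fffffffffffffffffffffffffffffffffffffffffffffffffff0007ffffffffffffffffffffffffffffffffffffffffffffffffffffffffffff0007fffffffffffffffffffffffff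fffffffffffffffffffff7fffffffffffff0007fffffffffffffffffffffffffffeffffffffffffffffffffffffffffffff0007fffffffffffffffefffffffffffffffffffffffffeffffffffffffffffff0007ffffffffffffffffffffffffffffffffffffffffffffffffffffffffffff0007ffffffdfffffffffffffffffffffffffffffffffffffffffffffffffffff0007fffffffffffffffffffffffffffeffffffffffffffffffffffffffff7fff0007ffffffffffffff5fffffffffffffffffffffffffffffffffefdfffffffff0007fffffffffffffffffffffffffffff77fffffffffffffffffffffffffffff0007ffffffffffffffffbfffffffffffffffffffffffffffffdfffffffffffff0007fffffffffffffffffffffffffffffffffffffffffffffffeffffffffffff0007fffffffffffffffffffffffffffeffffffffffffffffffffffffffffffff0007ffffffffffffffffffffffffffffebdffffffffffffffaffffffffffffff0007f7fffffffffffffffffffffffffffffffffffffffffffffffeffffffffff00077bffffffffffffffffffffffffffffffffffffffffffffffffffffffffff0007ffffffffffffffffffff7fffffffffffffffffffffffffffffffffffffff0007ddf966f8efffbbfff7ff737ffddffdffffefa99ba7ffbbfffb7ffedf4e7d0007ffffffffffffffffffff77fffffffff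fffffffffffffffffffffffffffff00064fbf7aff771ffff7ffeffafcdffff7ff7b37fbe3776bfffffff6fcf9bed70007ffffffffffffffffffffffffffffffffffffffffffffffffffffffffffff0007f6ffffbfb9fefd5f7eb1ffe3f7e3ff759efbfffefbffffffef9debe5f72f0007fffffffffffffffffbffffffffffffffffffffffffffffffffffffffffff0007ffffffffffffffffffffffffffffffff7fffffffffffffffffffffffffff0007fffffffffffffeffffffffffffffffffffefffffffffffffffffffffffff0007fffffffffffffeffffffffffffffffffffefffffffffffffffffffffffff0007fffffffffffffeffffffffffffffffffffefffffffffffffffffffffffff00075becf9fb7ffffffeb7763eff66f7ff7fffd9faffbfff7fffc777faf7ef930007ffffffffffffffffffffffffffffffffffffffffffffffdfffffffffffff0007ffffffffffffffffffefffffffffffffffffffffffffffffffffffffffff0007fffffffffffffffffffffffffffffffbffffffffffffffffffffffffffff0007ffffffffffffffffffffffffffffffffffffffffffffffffffffffffffff0007ffffbfffffffffffffffffffffffffffffffffffffffffffffffffffffff0007ffffffffffffffffffffffffffffffffffffffffffffffffffffefffffff0007ffffffffffffffffffffffffffbffffffffff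fffffffffffffffffffffff0007fffffffffffffffffffffffffffffffffffffffffffffffffffffbffffff0007ffffffffffffffffffffffffffffffffffffffffffffffffffffffffffff0007ffffffffffffffffffffffffffffffffffffffffffffffffffffffffffff0007ffffffffffffffffffffffffffffffffffffffffffffffffffffffffffff0007ffffffffffffffffffffffffffffffffffffffffffffffffffffffffffff0007ffffffffffffffffffffffffffffffffffffffffffffffffffffffffffff0007fffffffffffffffffffffffffffffffff7ffffffffffffffffffffffffff0007ffffffffffffffffffffffffffffffffffffffffffffffffffffffffffff0007ffffeffffffffffffffffffffffffffffffffffffffffffbffffffffffff0007fffff7fffffffffffffffffffffffffff7ffffffffffffffffffffffffff0007fffffffffffffffffffffffbfffffffffffffffffffffffffffffdffffff0007fffffffffffdfffffffffffffffffffffffffffffffffffffffffdffffff0007ffffffffffffffffffffffffff7ffffffffffffffffffffffffffdffffff0007ffffffffffffffffffffffffffffffffffffffffffffffffffffffffffff0007fffffffffffffbbfffffffffffffffffffffffffffffffffffffffffffff0007ffffffffffffffffffffffffffffeffffff7ffffafffffffffffffffffff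

/-- leaves 21 -/
def g21 : ℕ := nat_lit 0x7ffffffffffffffffffffffffffffffffffffffffffffffffffffffffffff0007ffffffffffffffffffffffffffffffffffffffffffffffffffffffffffff0007ffffffffffffffffffffffffffffffffffffffffffffffffffffffffffff0007ffffffffffffffffffffffffffffffffffffffffffffffffffffffffffff0007ffffffffffffffffffffffffffffffffffffffffffffffffffffffffffff0007ffffffffffffffffffffffffffffffffffffffffffffffffffffffffffff0007fffffffffffffffffffbffffffffdfffffffffffffffffffffffffffffff0007ffffffffffffffffffffffffffffffffffffffffffffffffffffffffffff0007ffffffffffffffefffffffffffbfffffffffffffffffffffffffffffffff0007ffffffffffffffffffffffffffffffffffffffffffffffffffffffffffff0007bffffffffffffffffffffffffffffffffffffffffffffffff7ffffffffff0007fffffffffffffffffffffffffffffffffffd7bffffffffffffffffffffaf0006eb7c5fdf7ffffffdd5efc7dfacfedffff7fe3fdff7dffff7fceefd5ffcf20007ffffffffffffffffffffffffffffffffffffffffffffffffffffffffff7f0007fffffffffffffffffffffffeffffffffffffffffffffefffffffffffff5f0007bbffcbbe72fb7ffedfff7ffd9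dd995f7ffffbffacd3f77ffefffddfff71f0007fffffffffffffffddfffffffffffffffffffffffffffffffffffffffffff0005fbfffffffffffffffffffffffffffffffffffdfbffffffffffffffffffff0007ffffffffffbffffffffffffffffffffffffffffffffffffffffffffffffe0007ffffffffbfffffffffffffffffffffffffffffffffffffffffffffffffff0007fffffffffffffffffffffffffffffbffffffffffffffffffffffffffffff0007fffffffffffffffffffffffffffffbfdffffffffffffffffffffffffffff0007ffffffffffffffffffffffffffffebffffffffffffffffffffffffffffff0005ffff6f13c67fb6f6b0b666f25ff2b76a7fd27b33686b7b6ff31e47b7fffd0007ffffffffffffffffffffffffffffffffffffffffffffffffffffffffffff0007ffffffffffbffffffeffffffffffffffffffffffffffffffffffffffffff0007ffffffffffffffffffffffffffffffffffffffffffffffffffffffffffdf0007fffffffffffffffdffffffffffffffffffffffffffffdfffffffffffffff0007fffffffffffffffffffffffffffffffdffffffffffffffffffffffffffff0007ffffffffffffffffffffffffffffffffffffffff7ffffffffeffffffffff0007fffffffffffffffffffffffffffffffffffffffffffffffffbffffffffff0007fffffffffefffffffbfffffffffffff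fffffffffffffffffffffffffffde0007ffffffffffffffffffffffffffffffffffffffff7fffffffffffffffffff0007ffffffffffffffffffffffffffffffffffffffffffffffffffffffffffff0007ffffffffffffffffffffffffffffffffffffffffffffffffffffffffffff0007ffffffffffffffffffffffdfffffffffffffffffffffffffffffffffffff0007ffffffffffffffffffffffffffffffffffffffffffffffffffffffffffff0007ffffffffffffffffffffffffffffffffffffffffffffffffffffffffffff0007ffffffffbffffffffffffffffffffffffffffffffffffffffffffffffdff0007ffffffffffffffffffffffffffffffffffffffffffffffffffffffffffff0007fffffffffffffffffffffffffffffeffffffffffffffffffffffffffffff0007ffffffffffffffffffffffffffffffffffffffffffffffffffffffffffff0007ffffffffffffffffffffffffffffffffffffffffffffffffffffffffffff0007ffffffffffffffffffffffffffffffffffffffffffffffffffffffffffff0007ffffffffffffffffffffffffffffffffffffffffffffffffffffffffffff0007ffffffffffffffffffffffffffffffffffffffffffffffffffffffffffff0007ffffffffffffffffffffffffffffffffffffffffffffffffffffffffffff0007fffffffffffffffffffffffffffffffffffff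fffffffffffffffffffffff0007ffffffffffffffffffffffffffffffffffffffffffffffffffffffffffff0007ffffffffffffffffffffffffffffffffffffffffffffffffffffffffffff0007ffffffffffffffffffffffffffffffffffffffffffffffffffffffffffff0007ffffffffffffffffffffffffffffffffffffffffffffffffffffffffffff0007ffffffffffffffffffffffffffffffffffffffffffffffffffffffffffff0007ffffffffffffffffffffffffffffffffffffffffffffffffffffffffffff0007ffffffffffffffffffffffffffbfffffffffffffffffffffffffffffffff0007ffffffffffffffffffffffffffffffffffffffffffffffffffffffffffff0007ffffffffffffffffffffffffffffffffffffffffffffffffffffffffffff0007ffffffffffffffffffffffffffffffffffffffffffffffffffffffffffff0007ffffffffffffffffffffffffffffffffffffffffffffffffffffffffffff0007ffffffffffffffffffffffffffffffffffffffffffffffffffffffffffff0007ffffffffffffffffffffffffffffffffffffffffffffffffffffffffffff0007fffffffffffffffffffffffffffeffffffffffffffffffffffffffffffff0007ffffffffffffffffffffbdffffffffffffffffffffffffffffffffffffff0003ffaa9e73fefeffbeffffc7fef7ffb7ffffbe3e6abbffef7fefbffbed77f4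

/-- leaves 22 -/
def g22 : ℕ := nat_lit 0x7fffffffffffffffffffffffffffffffffffffffffff7ffffffffffffffff0007ffffffffffffffffffffffffffffffffffffffffbfffffffffffffffffff0007fffffffffffffffffffffffffffffffffff7ffffffffffffffffffffffff0007ffefffffffffffffffffffffffffffffffffffffffdfffffffffffffffff0007ffffffffffffffffffffffffffffffffffffffffffffffffffffffffffff0007fffffff7ffffffffffffffffffffffffffffffffffffffffffffffffbfff0007fffffffffffffffffffffffffffd7fffffffffffffffffffffffffffffff0007ffffffffffffffffffffffffffffbfffffffffffffffffffffffffffffff0007ffffffffffffffffffffffffffffffffffffffffffffffffffffffffffff0007ffffffffffffffffffffffffffffffffffbfffffffffffffffffffffffff0007fffffdffffffffffffffffffffffffffffffffffffffffffffffffffffff0007fffffffffffffffffffffffffffffffffffd7fffffffffffffffffffffff0007fffffffffffffffffffffffffffffffffffffffffbffffffffffffffffff0007fffffffffffffffbffffffffffffffffffffffffffffffffdfffffffffff0007ffffffffffffffffffffffffffffffffffffffffefffffffffffffffffff0007ffffffffbf7ffffffffffffff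ffffffffffffffffffffff77fffffffffff0007fefffffffffffffffffffffffffffffffffffffffffffffffffffffbffff0007fffffffffffffffffffffffffffffffffffffffffffffffffbbfffffffff0007ffffffffffffffffffffffffffffffffffffffffffffffffffffffffffff0007ffffffffffffffffffffffffffffffffffffffffffffffff7fffffffffff0007a77d3ebdcfbffffffefbfffefbcd77fe3f7e3ffc6bf7d5fbfcefeffffb7f0007ffffffffffffffffffffebffffffffffffffffffffffffffffffffffffff0007fffffffffffffffffffffdfffffffffffffffffffffffffffffffffeffff0007ffffffffffffffffffffffffffff7fffffffffffffffffffffffffffffff0007fffffffffffffffffffffffffffd7fffffffffffffffffffffffffffffff00069ffeefffedfffb7d39f7eefcb37c77ffddfffbffb9bffeeffefffff7d4cd0007ffffffffffffffffffffffffffffebdffffffffffffffaffffffffffffff0007ffffffffffffffffffffffffffffffffffffffffffffffffffffffffffff0007ffffffffffffffffffffffffffffffffffffffffffffffffffffffffffff0007fffffffeffffffffffffffffffffffffffffffffffffffffffffffffffff0007ffffffffffffffffffffffffffffffffffffffffffffffffffffffffffff0007fffffffffffffdfffffffffffffffff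fffffffffffffffffffffffffffff0007ffffffffffffffffffffffffffffffbfffffffffffffffffffffffffffff0007ffffffffffffffffffffffffffffffffffffffffffffffffffffffffffff0007ffffffffffffffffffffffffffffffffffffffffffffffffffffffffffff0007ffffffffffffffffffffffffffffffffffffffffffffffffffffffffffff0007ffffffffffffffffffffffffffffffffffffffffffffffefffffffffffff0007ffffffffff7fffffffffffffffffffffffffffffffffffffffffffffffef0007ffffffffffffffffffffffffffffffdfffffffffffffffffffffffffffff0007ffffffffffffffffffffffffffffff7fffffffffffffffffffffffffffff0005ffffffffffffffffffffffffffffffffffffffffffffffffffffffffffff0005ffffffffffffffffffffffffffffffffffffffffffffffffffffffffffff0005ffffffffffffffffffffffffffffffffffffffffffffffffffffffffffff0007ff7fffffffffffffffffffffffffffffffffffdfffffffffffffffffffff0007ffffffffffffffffffffffffffffffffffffffffffffffffffffffffffff0007ffffffffffffffffffffffffffffffffffffffffffffffffffffffffffff0007ffffffffffffffffffffffffffffffffffffffffffffffffffffffffffff0007fffffffffffffffffffffffffffffffffffff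fffffffffffffffffffffff0007ffffffffffffffffffffffffffffffffffffffffffffffffffffffffffff0007ffffffffffffffffffffffffffffffffffffffffffffffffffffffffffff0007ffffffffffffffffffffffffffffffffffffffffffffffffffffffffffff0007ffffffffffffffffffffffffffffffffffffffffffffffffffffffffffff0007ffffffffffffffffffffdfffffffffffffffffffffffffffffffffffffff0007ffffffffffffffffffffffffffffffffffffffffffffffffffffffffffff0007ffffffffffffffffffffffffffffffffffffffffffffffffffffffffffff0007ffffffffffffffffffffffffffffffffffffffffffffffffffffffffffff0007ffffffffffffffffffffffffffffffffffffffffffffffffffffffffffff0007ffffffffffffffffffffffffffffffffffffffffffffffffffffffffffff0007ffffffffffffffffffffffffffffffffffffffffffffffffffffffffffff0007ffffffffffffffffffffffffffffffffffffffffffffffffffffffffffff0007ffffffffffffffffffffffffffffffffffffffffffffffffffffffffffff0007fffffffffffffffffffeffffffffffffffffffffffffffffffffffffffff0007ffffffffffffffffffffffffffffffffffffffffffffffffffffffffffff0007ffffffffffffffffffffffffffffffffffffffffffffffffffffffffffff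

/-- leaves 23 -/
def g23 : ℕ := nat_lit 0x7ffffffffffffffffffffbdffffffffffffffffffffffffffffffffffffff0007ffffffffffffffffffffffffffffffffffffffffffffffffffffffffffff0007ffffffffffffffffffffffffffffffffffffffffffffffffffffffffffff0007ffffffffffffffffffffffffffffffffffffffffffffffffffffffffffff0007ffffffffffffffffffffffffffffffffffffffffffffffffffffffffffff0007ffffffffffffffbfffffffffffffffffffffffffffffffffefffffffffff0007ffffffffffffffffffffffffffefffffffffefffffffffffffffffffffff0007fffffffffffffffffffffffffffffffffffffffffffffffffffffffffbff0007fffffffffffffffffffffffffffffffffffffffffffffffffffffffffbff0007fffffffffffffffffffffffffffffffffffffffffffffffffffffffffbff0007ffffffffffffffffffffffffffffffffffffffffffffffffffffffffffff0007fffffffffffffffffffffffffffffbdfffffffffffffffffffffffffffff0007f7ffffffffffffffffffffffffffffffffffffffffffffffffffffffffff0007fbffffffffffffffffffffffffffffffffffffffffffffffffffffffffff0007ffffffffffffffffffffffffffffffffffffffffffffffffffffffffffff0007fffffffefffffffffffffffff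fffffffffffffffffffffffffffffffffff0007ffffffffffffffffffff7fffffffffffffffffffffffffffffffffffffff0007fffffffff7bfffffffffffffffffffffffffffffffffffffffffffffffff0007ffffffffffffffffffffffffffffffffffffffffffffffffffffffffffff0007ffffffffffffffffffffffffffffffffffffffffffffffffffffffffffff0007ffffffffffffffffffffffffffffffffffffffffffffffffffffffffffff0007ffffffffffffffffffffffffffffffffffffffffffffffffffffffffffff0007ffffffffffffffffffffffffffffffffffffffffffffffffffffffffffff0007ffffffffffffffffffffffffffffffffffffffffffffffffffffffffffff0007ffffffffffffffffffffffffffffffffffffffffffffffffffffffffffff0007fffffffffffffffffffff7fffffffffffffeffffffffffffffffffffffff0007ffffffffffffffffffffffffffffffffffffffffffffffffffffffffffff0007ffffffffffffffffffffffffffffffffffffffffffffffffffffffffffff0007ffffffffffffffffffffffffffffffffffffffffffffffffffffffffffff0007fffffffffffffffffffffffffffffffffffffffffffffffffeffffffffff0007ffffffffffffffffffffffffffffffffffffffffffffffffffffffffffff0007fffffffffffffffffffffffffffffff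fffffffffffffffffffffffffffff0007ffffffffffffffffffffffffffffffffffffffffffffffffffffffffffff0007fffffffffffffffffffffffffff7ffffffffffffffffffffffffffffffff0007ffffffffffffffffffffffffffffffffffffffffffffffffffffffffffff0007ffffffffffffffffffffffffffffffffffffffffffffffffffffffffffff0007ffffffffffffffffffffffffffffffffffffffffffffffffffffffffffff0007ffffffffffffffffffffffffffffffffffffffffffffffffffffffffffff0007ffffffffffffffffffffffffffffffffffffffffffffffffffffffffffff0007ffffffffffffffffffffffffffffffffffffffffffffffffffffffffffff0007fffffffffffffffffffffffffffffeffffffffffffffffffffffffffffff0007ffffffffffffffffffffffffffffffffffffffffffffffffffffffffffff0007ffffffffffffffffffffffffffffffffffffffffffffffffffffffffffff0007ffffffffffffffffffffffffffffffffffffffffffffffffffffffffffff0007ffffffffffffffffffffffffffffffffffffffffffffffffffffffffffff0007ffffffffffffffffffffffffffffffffffffffffffffffffffffffffffff0007ffffffffffffffffffffffffffffffffffffffffffffffffffffffffffff0007fffffffffffffffffffffffffffffffffffff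fffffffffffffffffffffff0007ffffffffffffffffffffffffffffffffffffffffffffffffffffffffffff0007ffffffffffffffffffffffffffffffffffffffffffffffffffffffffffff0007ffffffffffffffffffffffffffffffffffffffffffffffffffffffffffff0007ffffffffffffffffffffffffffffffffffffffffffffffffffffffffffff0007ffffffffffffffffffffffffffffffffffffffffffffffffffffffffffff0007ffffffffffffffffffffffffffffffffffffffffffffffffffffffffffff0007ffffffffffffffffffffffffffbfffffffffffffffffffffffffffffffff0007ffffffffffffffffffffffffffffffffffffffffffffffffffffffffffff0004fbff7bffefbffbe9f7a77fe39ae3ffdefff7dfffcefef7ffb7ffffbeae6b0007ffffffffffffffffffffffffffbdffffffffffffffffffffffffffffffff0007fffffffffffffffffffffffffffffffffffffffffffffffbffffffffffff0007ffffeffffffffffffffffffffffffffffffffffffffffffbffffffffffff0007ffffffffffffffffffffffffffffffffffffffffffffffebffffffffffff0007fffffffffffffffffffffffffffeffffffffffffffffffffffffffffffff0007ffffffffffffffffffffffffffffffffffffffffffffffffffffffffffff0007ffffffffdfffffffffffffffffffbfffffffffffffffffffffffffffffff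

/-- leaves 24 -/
def g24 : ℕ := nat_lit 0x7ffffffffffffffffffffffffffffffffffffffffffffffffffffffffffff0007ffffffffffffffffffffffffffffffffffffffffffffffffffffffffffff0007ffffffffffffffffffffffffffffffffffffffffffffffffffffffffffff0007ffffffffffffffffffffffffffffffffffffffffffffffffffffffffffff0007ffffffffffffffffffffffffffffffffffffffffffffffffffffffffffff0007ffffffffffffffffffffffffffffffffffffffffffffffffffffffffffff0007ffffffffffffffffffffffffffffffffffffffffffffffffffffffffffff0007ffffffffffffffffffffffffffffffffffffffffffffffffffffffffffff0007ffffffffffffffffffffffffffffffffffffffffffffffffffffffffffff0007ffffffffffffffffffffffffffffffffffffffffffffffffffffffffffff0007ffffffffffffffffffffffffffffefffffffffffffffffffffffffffffff0007ffffffffffffffffffffffffffffffffffffffffffffffffffffffffffff0007ffffffffffffffffffffffffffffffdfffffffffffffffffffffffffffff0007fffffffffffffffffffffffffffffffffffdffffffffffffffffffffffef0007ffffffffffffffffffffffffffffffffffffffffffffffffffffffffffff0007fffffffffffffffffffffffff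ffffffffffffeffffffffffffffffffffff0007ffffffffffffffffffffffffffffffffffffffffffffffffffffffffffff0007ffffffffffffffffffffffffffffffffffffffffffffffffffffffffffff0007ffffffffffffffffffffffffffffffffffffffffffffffffffffffffffff0007ffffffffffffffffffffffffffffffffffffffffffffffffffffffffffff0007ffffffffffffffffffffffffffffffffffffffffffffffffffffffffffff0007ffffffffffffffffffffffffffffffffffffffffffffffffffffffffffff0007ffffffffffffffffffffffffffffffffffffffffffffffffffffffffffff0007ffffffffffffffffffffffffffffffffffffffffffffffffffffffffffff0007fffffffffffffffffffffffffffffffffffdffffffffffffffffffffffff0007fefffffffffdffffffffffffffffffffffffffffffffffffffffffffffff0007ffffffffffffffffffffffffffffffffffff7bffffffffffffffffffffff0007ffffffffffffffffffffffffffffffffffffffffffffffffffffffffffff0007ffffffffffbffffffeffffffffffffffffffffffffffffffffffffffffff0007ffffffffffffffffffffffffbfffffffffffffffffffffffffffffffffff0007ffffffffffffffffffffffffffffffffffffffffffffffffffffffffffff0007fffffffffffffffffffffffffffffff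fffffffbfffffffffffffffffffff0007fffffffffffffffffffffffffffffffffffffffffffffffffffffffffffd0007ffffffffffffffffffffffffffffffffffffffffffffffffffffffffffff0007ffffffffffffffffffffffffffffdfffffffffffffffffffffffffffffff0007ffffffffffffffffffffffffffffffffffffffffffffffffffffffffffff0007ffffffffffffffffffffffffffffffffffffffffffffffffffffffffffff0007ffffffffffffffffffffffffffffffffffffffffffffffffffffffffffff0007ffffffffffffffffffffffffffffffffffffffffffffffffffffffffffff0007ffffffffffffffffffffffffffffdfffffffffffffffffffffffffffffff0007ffffffffffffffffffffffffffffffffffffffffffffffffffffffffffff0007ffffffffffffffffffffffffffffffffffffffffffffffffffffffffffff0007ffffffffffffffffffffffffffffffffffffffffffffffffffffffffffff0007ffffffffffffffffffffffffffffffffffffffffffffffffffffffffffff0007ffffffffffffffffffffffffffffffffffffffffffffffffffffffffffff0007ffffffffffffffffffffffffffffffffffffffffffffffffffffffffffff0007ffffffffffffffffffffffffffffffffffffffffffffffffffffffffffff0007fffffffffffffffffffffffffffffffffffff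fffffffffffffffffffffff0007ffffffffffffffffffffffffffffffffffffffffffffffffffffffffffff0007ffffffffffffffffffffffffffffffffffffffffffffffffffffffffffff0007ffffffffffffffffffffffffffffffffffffffffffffffffffffffffffff0007ffffffffffffffffffffffffffffffffffffffffffffffffffffffffffff0007ffffffffffffffffffffffffffffffffffffffffffffffffffffffffffff0007ffffffffffffffffffffffffffffffffffffffffffffffffffffffffffff0007ffffffffffffffffffffffffffffffffffffffffffffffffffffffffffff0007ffffffffffffffffffffffffffffffffffffffffffffffffffffffffffff0007ffffffffffffffffffffffffffffffffffffffffffffffffffffffffffff0007ffffffffffffffffffffffffffffffffffffffffffffffffffffffffffff0007ffffffffffffffffffffffffffffffffffffffffffffffffffffffffffff0007ffffffffffffffffffffffffffffffffffffffffffffffffffffffffffff0007ffffffffffffffffffffffffffffffffffffffffffffffffffffffffffff0007ffffffffffffffffffffffffffffffffffffffffffffffffffffffffffff0007ffffffffffffffffffffffffffffffffffffffffffffffffffffffffffff0007ffffffffffffffffffffffffffffffffffffffffffffffffffffffffffff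

/-- leaves 25 -/
def g25 : ℕ := nat_lit 0x7ffff7effffffffffffffffffffffebdfffffffffffffffffffffffffffff0007fffffffffffffffffffffffffffffffffffffeffffffffffffffffffffff0002def97dffdf7fefeffdf1e5cefbffffdbfefefeaffff7dffef7feaeb1cffd0007ffffffffffffffffffffffffdffffffffffffebffffffffffeffffffffff0007ffffffffffffffffffffdffffffffffffffffffffffffffffffffffff7ff0007df26bdf859b7c377ebf1adddffb5870d6ffdddac7ebf761f6cd0fdeb27df0007fffffffffffffffffffffffffffffffffffffffffffffffffbffffffffff0007fefff7ffffffffffffffffffffffffffffffffffffffffffffffffffffff0007ffffffffffffffffffffffffffffffffffffffffffffffffffffffff7fff0007ffffffffffffffffffffffffffffffffffffffffffffffffffffffff77ff0007fffffffffffbffffffffffffffffffffffffffffffffffffffffffff7fff0007fffffffffffffffffffefdfffffffffffffffffffffffffffffffffffefd0007ffbfffffffffffffffffffffffffffffffffffffffffffffffffffffffff0007ffffffffffffffffffffffffffffffffffffffefffffffffffffffffffff0007feffffffffffffffffffffffff7fffffffffffffffffffffffffffffffff0007fffffffff7ffffffffffffffb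fffffffffffffffffffffffffffffffffff0007fffffffffffffff7ffffffffffffffffffffffffffffffffffffffdfffff0007fffffffffffbffffffffffffffffffffffffffffffffffffffffffffffff0007ffffffffffffffffffffffffffffffffffffffffffffffffffffffffffff0007feffffffffffffffffffffffff7fffffffffffbdffffffffffffffffffff0007ffffffffbffffffffffffffffffffffffffffffffffffffffffffffffdff0007ffffffffffffffffffffffffffffffffffffffffffffffffffffffffffff0007ffffffffffffffffffffffffffffffffffffffffffffffffffffffffffff0007fffffffffffffffffffffffffffffffffffffffffffffffffbffffffffff0007ffffffffffffffffffffffffffffffffffffffffffffffffffffffffffff0007ffffffffffffffffffffffffffffffffffffffffffffffffffffffffffff0005ffffffffffffffffffffffffffffffffffffffffffffffffffffffffffff0007ffffffffffffffffffffffffffffffffffffffffffffffffffffffffffff0007ffffffffffffffffffffffffffffffffffffffffffffffffffffffffffff0007ffffffffffffffffffffffffffffffffffffffffffffffffffffffffffff0007ffffffffffffffffffffffffffffffffffffffffffffffffffffffffffff0007fffffffffffffffffffffffffffffff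ffffbf7ffffffffffffffffffffff0007fffffffffffffffffffffffffffffffffffffffffffffffffffdffffffff0007fffffffffffffffffffffffffffffffffffffffbffffffffffffffffffff0007ffffffffffffffffffffffffffffffffffffffffffffffffffffffffffff0007fffffffffffffffffffffffffffffebfffffffffffffffffffffffffffff0007ffffffffff7fffffffffffffffffffffffffffffffffffffffffffffffff0007ffffffffffffffffffffffffffffffffffffffffffffffffffffffffffff0007ffffffffffffffffffffffffffffffffffffffffffffffffffffffffffff0007ffffffffffffffffffffffffffffbfffffffffffffffffffffffffffffff0007fffffffffffffffffffffffffffffffffeffffffffffffffffffffffffff0007ffffffffffffffffffffffffffffffffffffffffffffffffffffffffffff0007ffffffffffffffffffffffffffffffffffff7fffffffffffffffffffffff0007ffffffffffffffffffffffffffffffffffffffffffffffffffffffffffff0007ffffffffffffffffffffffffffffffffffffffffffffffffffffffffffff0007ffffffbfffffffffffffffffffffffffffffffffffffffffffffffffffff0007ffffffffffffffffffffffffffffffffffffffffffffffffffffffffffff0007fffffffffffffffffffffffffffffffffffff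fffffffffffffffffffffff0007ffffffffffffffffffffffffffffffffffffffffffffffffffffffffffff0007ffffffffffffffffffffffffffffffffffffffffffffffffffffffffffff0007ffffffffffffffffffffffffffffffffffffffffffffffffffffffffffff0007ffffffffffffffffffffffffffffffffffffffffffffffffffffffffffff0007ffffefffffffffffffffffffffffffffffffffffffffffffffffffffffff0007ffffffffffffffffffffffffffffffffffffffffffffffffffffffffffff0007ffffffffffffffffffffffffffffffffffffffffffffffffffffffffffff0007ffffffffffffffffffffffffffffffffffffffffffffffffffffffffffff0007ffffffffffffffffffffffffffffffffffffffffffffffffffffffffffff0007ffffffffffffffffffffffffffffffffffffffffffffffffffffffffffff0007ffffffffffffffffffffffffffffffffffffffffffffffffffffffffffff0007ffffffffffffffffffffffffffffffffffffffffffffffffffffffffffff0007ffffffffffffffffffffffffffffffffffffffffffffffffffffffffffff0007ffffffffffffffffffffffffffffffffffffffffffffffffffffffffffff0007ffffffffffffffffffffffffffffffffffffffffffffffffffffffffffff0007ffffffffffffffffffffffffffffffffffffffffffffffffffffffffffff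

/-- leaves 26 -/
def g26 : ℕ := nat_lit 0x7ffffffffffffffffffffffffffffffffffffffffffffffffffffffffffff0007ffffffffffffffffffffffffffffffffffffffffffffffffffffffffffff0007ffffffffffffffffffffffffffffffffffffffffffffffffffffffffffff0007ffffffffffffffffffffffffffffffffffffffffffffffffffffffffffff0007ffffffffffffffffffffffffffffffffffffffffffffffffffffffffffff0007ffffffffffffffffffffffffffffffffffff7fffffffffffffffffffffff0007ffffffffffffffffffffffffffffffffffffffffffffffffffffffffffff0007ffffffffffffffffffbffffbffffffffffffffffffffffffffffffffffff0007ffffffffffffffffffffffffffffffffffffffffffffffffffffffffff7f0007ffffffffffffffffffffffffffffffffffffffffffffffffffffffffffff0007ffffffffffffffffdfffffffffffffffffffffffffffffffffffffffffff0007ffffffffffffffffffffffffffffffffffffffffffffffffffffffffffff0007ffffffffffffffffffffffffffffffffffffffffffffffffffffffffffff0007ffffffffffffffffffffffffffffffffffffffffffffffffffffffffffff0007ffffffffffffffffffffffffffffffffffffffffffffffffffffffffffff0007fffffffffffffffffffffffff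fffffffffffffffffffffffffffffffffff0007ffffffffffffffffffffffffffffffffffffffffffffffffffffffffffff0007ffffffffffffffffffffffffffffffffffffffffffffffffffffffffffff0007ffffffffffffffffffffffffffffffffffffffffffffffffffffffffffff0007ffffffffffffffffffffff5fffffffffffffffffffffffffffffffffffff0007fffffffffffffffffdffffffffffffffffffffffffffffffffffffffbfff0007ffffffffffffffffffffffffffffffffffffffffffffffffffffffffffff0007ffffffffffffffffffffffffffffffffffffffffffffdfffffffffffffff0007ffffffffffffffff7fffffffffffffffffffff7fffffffffffffffffffff0007fff7ffffffffffffffffffffffffffffffffffffffffffffffffffffffff0007ffffffffffffffffffffffffffffffffffffffffffffffffffffffffffdf0007ffffffffffffffffffffffffffffffffffffffffffffffffffffffffffff0007fffffffffffffffffffffffffffffffffffffffffffffffffbffffffffff0007ffffffffffffffffffffffffffffffffffffffffffffffffffffffffffff0007ffffffffffffffffffffffffffffffffffffffffffffffffffffffffffff0007ffffffffffffffffffffffffffffffffffffffffffffffffffffffffffff0007fffffffffffffffffffffffffffffff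fffffffffffffffffffffffffffff0007fffffffffffffffffffffffffffffffffffffffffffffffffffffffffffd0007ffffffffffffffffffffffffffffffffffffffffffffffffefffffffffff0007fffffffffffffffffffffffffffffffffffffffffffffffffffffffbffff0007ffffffffffffffffffffffffffffffffffffffffffffffffffffffffffff0007ffffffffffffffffffffffffffffffffffffffffffffffffffffffffffff0007ffffffffffffffffffffffffffffffffffffffffffffffffffffffffffff0007ffffffffffffffffffffffffffffffffffffffffffffffffffffffffffff0007ffffffffffffffffffffffffffffffffffffffffffffffffffffffffffff0007ffffffffffffffffffffffffffffffffffffffffffffffffffffffffffff0007ffffffffffffffffffffffffffffffffffffffffffffffffffffffffffff0007ffffffffffffffffffffffffffffffffffffffffffffffffffffffffffff0007ffffffffffffffffffffffffffffffffffffffffffffffffffffffffffff0007ffffffffffffffffffffffffffffffffffffffffffffffffffffffffffff0007ffffffffffffffffffffffffffffffffffffffffffffffffffffffffffff0007ffffffffffffffffffffffffffffffffffffffffffffffffffffffffffff0007fffffffffffffffffffffffffffffffffffff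fffffffffffffffffffffff0007ffffffffffffffffffffffffffffffffffffffffffffffffffffffffffff0007ffffffffffffffffffffffffffffffffffffffffffffffffffffffffffff0007fffffffffffffffffffffffffffffffffeffffffffffffffffffffffffff0007ffffffffffffffffffffffffffffffffffffffffffffffffffffffffffff0007ffffffffffffffffffffffffffffffffffffffffffffffffffffffffffff0007ffffffffffffffffffffffffffffffffffffffffffffffffffffffffffff0007ffffffffffffffffffffffffffffffffffffffffffffffffffffffffffff0007ffffffffffffffffffffffffffffffffffffffffffffffffffffffffffff0007ffffffffffffffffffffffffffffffffffffffffffffffffffffffffffff0007ffffffffffffffffffffffffffffffffffffffffffffffffffffffffffff0007ffffffffbffffffffffffffffffffffffffffffffffffffffffffffffffe0007ffffff7ffffffffffffffffffffffffffffffffffffffffffffffffbffff0007ffffffffffffffffffffffffffffffffffffffffffffffffffffffffffff0007ffffffffffffffffffffffffffffffffffffffffffffffffffffffffffff0007ffffffffffffffffffffffffffffebffffffffffffffffffffffffffffff00073beef2ff6ffffbfabf7fdf7fffdffabf773ff7597cbeadefbffffffef8fe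

/-- leaves 27 -/
def g27 : ℕ := nat_lit 0x7ffffffffffffffffffffffffffffffffffffffffffffffffffffffffffff0007ffffffffffffffffffffffffffffffffffffffffffffffffffffffffffff0007ffffffffffffffffffffffffffffffffffffffffffffffffffffffffffff0007ffffffffffffffffffffffffffffffffffffffffffffffffffffffffffff0007ffffffffffffffffffffffffffffffffffffffffffffffffffffffffffff0007ffffffffffffffffffffffffffffffffffffffffffffffffffffffffffff0007ffffffffffffffffffffffffffffffffffffffffffffffffffffffffffff0007ffffffffffffffffffffffffffffffffffffffffffffffffffffffffffff0007ffffffffffffffffffffffffffffffffffffffffffffffffffffffffffff0007ffffffffffffffffffffffffffffffffffffffffffffffffffffffffffff0007ffffffffffffffffffffffffffffffffffffffffffffffffffffffffffff0007ffffffffffffffffffffffffffffffffffffffffffffffffffffffffffff0007ffffffffffffffffffffffffffffffffffffffffffffffffffffffffffff0007fffffffbffffffffffffffffffffffffffffffffffffffffffffffffffff0007ffffffffffffffffffffffffffffffffffffffffffffffffffffffffffff0007fffffffffffffffffffffffff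fffffffffffffffffffffffffffffffffff0007ffffffffffffffffffffffffffffffffffffffffffffffffffffffffffff0007ffffffffffffffffffffffffffffffffffffffffffffffffffffffffffff0007ffffffffffffffffffffffffffffffffffffffffffffffffffffffffffff0007ffffffffffffffffffffffffffffffffffffffffffffffffffffffffffff0007ffffffffffffffffffffffffffffffffffffffffffffffffffffffffffff0007ffffffffffffffffffffffffffffffffffffffffffffffffffffffffffff0007ffffffffffffffffffffffffffffffffffffffffffffffffffffffffffff0007ffffffffffffffffffffffffffffffffffffffffffffffffffffffffffff0007fffffffffffffffffffffffffffffffffffffffffffffffffffffffffff70007fffffffffffffffffffffffffeffffffffffffffffffffffffffffffffff0007fffffffffffffffffffffffffffffffffffffffffffffffffffffffffeff0007fefbff7f7fef8b7be5f7fffedff7f7f577973beff7bff5758e7fefffdf7f0007fffffffffffffffffffffffffffffffffffffffff7ffffffffffffffffff0007fffffffffffffffffffffffffffffffffffffffff7ffffffffffffffffff0007ffff7fffffffffffffffffffffffffffffffffffffffffffffffffffffff0007fffffffffffffffffffffffffffffff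ffffffffffffffffffffffbffffff0007fffffffffffffef7ffffffffffffffffffffffffffffffffffffffffffff0007ffffffffffffffffffffffffffffffffffffffffffffffffffffffffffff0007ffffffffffffffffffffffffffffffffffffffffffffffffffffffffffff0007ffffffffffffffffffffffffffffffffffffffffffffffffffffffffffff0007ffffffffffffffffffffffffffffffffffffffffffffffffffffffffffff0007ffffffffffffffffffffffffffffffffffffffffffffffffffffffffffff0007ffffffffffffffffffffffffffffffffffffffffffffffffffffffbdffff0007ffffffffffffffffffffffffffffffffffffffffffffffffffffffffffff0007fffffffffffffffffffffffffffffffffffffffffffffbffffffffffffff0007ffffffffffffffffffffffffffffffffffffffffffffffffffffffffffff0007ffffffffffffffffffffffffffffffffffffffffffffffffffffffffffff0007ffffffffffffffffffffffffffffffffffffffffffffffffffffffffffff0007ffffffffffffffffffffffffffffffffffffffffffffffffffffffffffff0007ffffffffffffffffffffffffffffffffffffffffffffffffffffffffffff0007ffffffffffffffffffffffffffffffffffffffffffffffffffffffffffff0007fffffffffffffffffffffffffffffffffffff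fffffffffffffffffffffff0007ffffffffffffffffffffffffffffffffffffffffffffffffffffffffffff0007ffffffffffffffffffffffffffffffffffffffffffffffffffffffffffff0007ffffffffffffffffffffffffffffffffffffffffffffffffffffffffffff0007ffffffffffffffffffffffffffffffffffffffffffffffffffffffffffff0007ffffffffffffffffffffffffffffffffffffffffffffffffffffffffffff0007ffffffffffffffffffffffffffffffffffffffffffffffffffffffffffff0007ffffffffffffffffffffffffffffffffffffffffffffffffffffffffffff0007ffffffffffffffffffffffffffffffffffffffffffffffffffffffffffff0007ffffffffffffffffffffffffffffffffffffffffffffffffffffffffffff0007ffffffffffffffffffffffffffffffffffffffffffffffffffffffffffff0007ffffffffffffffffffffffffffffffffffffffffffffffffffffffffffff0007ffffffffffffffffffffffffffffffffffffffffffffffffffffffffffff0007ffffffffffffffffffffffffffffffffffffffffffffffffffffffffffff0007ffffffffffffffffffffffffffffffffffffffffffffffffffffffffffff0007ffffffffffffffffffffffffffffffffffffffffffffffffffffffffffff0007ffffffffffffffffffffffffffffffffffffffffffffffffffffffffffff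

/-- leaves 28 -/
def g28 : ℕ := nat_lit 0x7ffffffffffffffffffffffffffffffffffffffffffffffffffffffffffff0007ffffffffffffffffffffffffffffffffffffffffffffffffffffffffffff0007ffffffffffffffffffffffffffffffffffffffffffffffffffffffffffff0007ffffffffffffffffffffffffffffffffffffffffffffffffffffffffffff0007ffffffffffffffffffffffffffffffffffffffffffffffffffffffffffff0007ffffffffffffffffffffffffffffffffffffffffffffffffffffffffffff0007ffffffffffffffffffffffffffffffffffffffffffffffffffffffffffff0007ffffffffffffffffffffffffffffffffffffffffffffffffffffffffffff0007ffffffffffffffffffffffffffffffffffffffffffffffffffffffffffff0007ffffffffffffffffffffffffffffffffffffffffffffffffffffffffffff0007ffffffffffffffffffffffffffffffffffffffffffffffffffffffffffff0007ffffffffffffffffffffffffffffffffffffffffffffffffffffffffffff0007ffffffffffffffffffffffffffffffffffffffffffffffffffffffffffff0007ffffffffffffffffffffffffffffffffffffffffffffffffffffffffffff0007ffffffffffffffffffffffffffffffffffffffffffffffffffffffffffff0007ffffffffffffffffffffffffffffffffffffffffffffffffffffffffffff0007ffffffffffffffffffffffffffffffffffffffffffffffffffffffffffff0007ffffffffffffffffffffffffffffffffffffffffffffffffffffffffffff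

/-- leaves -/
def G : List ℕ := [g0, g1, g2, g3, g4, g5, g6, g7, g8, g9, g10, g11, g12, g13, g14, g15, g16, g17, g18, g19, g20, g21, g22, g23, g24, g25, g26, g27, g28]

theorem pts_ok : ptsOK pts := by decide +kernel

theorem X_eq : X = pr 64 (xv (ptf pts) (kn (dec 124))) 18 := by decide +kernel

theorem A0_eq : A0 = Nat.add (Nat.mul 4095 P1152) X := by decide +kernel

theorem sb_ok : sbOK pts Qs41 sb = true := by decide +kernel

/-- relations of the unary leaves -/
def RU : List (List ℕ) := [[9282, 6273, 8277], [16521, 18576, 32838, 33888], [65697, 67716, 131154, 132168], [524628, 525633, 263829], [2097429, 2098434, 1051137, 1050132], [4194657, 4196676], [16777797, 33555876, 33556881], [67109457, 134219160], [268436097, 536871234, 536872296], [1073743440, 2147484057, 2147485062], [4294968900, 8589935013, 8589936018], [17179869513, 17179871568]]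

/-- relations 0 -/
def RN0 : List (List ℕ) := [[20580, 21585], [69720, 70725], [267840], [1053333, 1054338, 2106708, 2107713], [4198680, 4199685], [16781856, 33562896], [67113480, 134226180, 67115538], [268440168, 536879508, 268441173, 536880513, 268442178], [1073746449, 2147493144], [4294971909, 8589944100, 8589945105], [17179873572, 17179874577], [24594, 25608, 38916, 36897], [73734, 74784, 137232, 135177], [270849, 528642], [1057344, 2101632], [4202886, 8393289, 4203936, 8395344], [33558885, 16787076, 33559890, 33560904], [134222169, 67118736, 134223174, 134224224], [268445184, 536877312, 536875305], [2147488068], [8589939024], [17179877778, 34359743073, 17179878792, 34359745092], [83028, 84033], [279141, 280146, 558468, 281160], [1065636, 2130264, 1066641, 2131269], [4211988, 4212993], [16794114, 33587457], [67126788, 134250789, 134251794], [268452426, 536904069, 268453476, 268454481], [1073758752, 2147516688], [4294984212, 4294985217, 8589968661], [17179885830, 17179886880], [98340, 147480], [540945, 296472,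 297477], [1081953, 2113938, 2114952, 1083972], [4227492, 8405592, 4228497, 8406597], [33571140], [67142292, 134234472, 67143297, 134235477, 134236482], [268468740, 536887560, 536889618], [2147501376], [4295000721, 8589951330, 8589952344, 8589953349], [17179902336, 34359755328], [328281, 329286, 656784, 330336], [1114776, 2228580, 1115781, 2229585], [4260114, 4261128], [16844304, 33685785, 33686790], [67174914, 134349057], [268501602, 537002385, 268502616, 268503621], [1073807892, 1073808897, 2147616021], [4295033352, 8590065924, 4295035410], [17179936020, 17179937025], [590085, 394788, 395793], [1180233, 2163078, 2164128, 1182288], [4325760, 8454720], [16908948, 33620328, 16909953, 33621333, 33622338], [134283600], [268567056, 536936736, 536938758], [1073873541, 2147549514, 2147550564, 2147551569], [8590001472], [17180000664, 34359804516, 17180001669, 34359805521], [1312128], [4456473, 4457478, 4458528, 8913936], [17039649, 17041668], [67371273, 67373328], [268699968, 268697961], [1074004242, 1074005256], [4295229702,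 4295230752], [17180131365, 17180132370, 17180133384, 34360263684], [1572930, 2359425, 1573992], [4719237, 8651082, 8652132, 8653137], [33817680, 17302662], [134480964, 67633317], [268959765, 537135105, 268960770, 537134100], [2147745861, 1074268305], [8590196817, 4295492760], [17180394129, 34360000866, 34360001880, 34360002885], [5242968, 5243973], [17826144, 17828166], [68157768, 68159826], [269484456, 538968660, 269485461, 538969665, 269486466], [1074790737], [4296016197], [17180917860, 17180918865], [6292038, 9437577, 6293088, 9439632], [18875460, 34603173], [69207120, 135266457, 135267462], [270533760, 537921600], [1075839048, 2148532356], [4297064544, 8590983312, 4297066566], [17181966930, 34360787361, 17181967944, 34360789380], [5505540], [18087960, 18088965], [68419620, 68420625], [269746260, 269747265], [1075052553, 1075054608], [4296278049, 4296280068], [17181180432], [6553890, 9962001, 6554904, 6555909], [19137030, 35127561, 19138080, 35129616], [69468690, 135790881, 69469704, 135792900]]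

/-- relations 1 -/
def RN1 : List (List ℕ) := [[270795330, 538444161], [1076101668, 2149056792, 1076102673, 2149057797], [4297327128, 8591507748, 4297328133, 8591508753], [17182228746, 34361311749, 17182229796, 17182230801], [5767584, 10748496], [18350724, 35914056], [68682384, 136577376], [270008832, 539230464], [2149844292], [8592295248], [17181442440, 34362098244], [9699429, 6816900, 9700434, 9701448], [34865745], [135529029], [538182165, 271058196, 538183170, 271059201], [1076363664, 2148794976], [4297589124, 8591245896], [34361049177, 17182491792, 34361050182, 34361051232], [1376580], [4522122, 9044037, 4523172, 4524177], [17105298, 17106312], [67437972, 67438977], [268764420], [1074069888], [4295295396, 4295296401], [17180198016], [1638432, 2490384, 1640454], [4785744], [17367114, 33947781, 17368164, 17369169], [67699776], [269025414, 537264201, 269026464, 537266256], [1074331752, 2147877012, 1074332757, 2147878017, 1074333762], [4295557200], [17180459586, 34360131969], [5308425, 5310480], [17891601], [68225280,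 68223273], [269549913, 269550918, 269551968], [1074856194, 1074857256], [4296082704], [17180983317, 17180984322], [6357540, 9568536, 6358545, 9569541], [18939912, 34734084], [69271572, 69272577, 135398421], [270598212], [2148664320, 1075906560], [4297130001, 8591115288, 8591116293], [17182032384, 34360918272], [], [18153609, 18155664], [68485269, 68486274], [269811717], [1075119252, 1075120257], [4296343698, 4296344712], [17181246081], [6619536], [], [69534336, 135921984], [270860832, 538575120], [], [], [], [5833041], [], [68747841], [], [1075381824], [], [17181509952], [6881352, 9830532], [19464528], [], [], [1076429121], [], [17182556244, 17182557249], [1442085, 1443090, 2688516, 1444104], [4587624, 8978580, 4588629, 8979585, 4589634], [17170752], [67502424, 67503429], [268829064, 537461316], [1074135393, 1074137412], [4295360853, 4295361858], [17180262468], [1704081, 2424930, 2425944, 2426949], [4850196, 8716584, 4851201, 8717589, 8718594], [33882132, 33883137], [67764228, 134545416, 134547474], [269090916, 537198744,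 269091921, 537199749], [2147812368, 1074397209, 1074398214], [4295622657, 8590262274, 8590263336], [34360066320], [10551381, 5375124, 10552386, 5376129], [17957250, 35717697], [68289924], [269615370, 539034117, 269616420, 269617425], [1074921888, 2149646928], [4296147348, 4296148353], [17181048966, 34361901129, 17181050016, 34361903184], [9504084, 9505089]]

/-- relations 2 -/
def RN2 : List (List ℕ) := [[34669632], [69337221, 135331914, 135332964, 135333969], [537986052, 270663717, 270664722], [2148597861, 1075971204, 2148598866, 2148599880], [8591048769], [34360852818, 34360853832], [5637696], [18220116, 18221121], [68550726, 68551776], [269878416], [1075183704, 1075184709], [4296409152], [], [6684993], [], [], [], [], [], [], [5898498, 10813953], [18482688, 35981568], [136642833], [], [1075446276, 2149908744], [8592359700, 8592360705], [17181574404], [9765888], [19529985, 34931202], [135595536], [], [2148860433], [4297721088, 8591313408], [17182621701, 34361114634, 34361115684, 34361116689], [345600], [1131093,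 1132098], [4276632, 4277637], [16859808, 33718608], [67191432, 134381892], [268517928, 537035028, 268518933, 537036033, 268519938], [1073824401], [4295049861], [17179951524, 17179952529], [410244, 622920], [1196550, 2195721, 1197600, 2197776], [4342089, 4344144], [16925265], [134317440, 67258944], [536970576], [1073889858, 2147582337], [4295116368], [17180016981, 17180017986], [1327440], [4473984], [17057172, 17058177], [67387782, 67388832], [268715280], [1074020760, 1074021765], [4295246208], [17180147874, 34360295505, 17180148888, 17180149893], [1589256, 2392068, 1591314], [4735554, 8683905], [17318976], [67649634, 134512785, 67650648, 67651653], [268976274, 537165921, 268977288, 537167940], [1074282564], [4295508072, 8590229652, 4295509077, 8590230657, 4295510082], [17180411460], [5259285, 5260290], [17844480, 17842473], [68174085], [269500773, 269501778, 269502792], [1074808068], [4296032514, 4296033576], [17180934177, 17180936196], [6308352, 9470208], [18890772, 18891777, 34636821], [69222432, 135299088, 69224454],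 [270549072], [1075855365, 2148566052, 2148567057], [8591016960, 4297082880], [17181983256, 34360820004, 17181984261, 34360821009], [5522049], [18104469, 18105474], [68436129, 68438148], [269762577], [1075069062, 1075070112], [4296295572, 4296296577], [], [], [19153536, 35160384], [], [270811656, 538476804], [], [], [17182245252], [5785920], [18367041], [], []]

/-- relations 3 -/
def RN3 : List (List ℕ) := [[], [4296558144], [17181458757], [6832212, 6833217], [], [69747012], [], [], [4297605441], [17182507104, 34361082000], [1392897], [4538436], [17121624, 17122629], [67453284, 67454289], [268779924, 268780929], [1074086217, 1074088272], [4295311713, 4295313732], [17180213328], [2524224, 1656960], [4801056, 8814864], [17383428], [67715088], [269041728], [1074348069, 1074349074, 2147910660, 1074350088], [4295573529, 4295574534, 8590361616, 4295575584], [17180475912, 34360164612], [5324934, 5325984], [17909124], [68240784], [269567232], [1074872712], [4296098208], [17180999826, 17181000840], [], [18956421], [69288081],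 [270614529], [1075922064], [4297147524], [], [], [18169926, 18170976], [68501586, 68502600], [269828226], [1075134564, 1075135569], [4296360024, 4296361029], [], [], [], [], [], [], [], [], [5850372], [], [], [], [1075397136], [4296622596], [17181525264], [6897669], [], [], [], [], [], [17182572561], [], [4603941, 4604946, 9012228, 4605960], [17187081, 17189136], [67518741, 67519746], [268845381], [1074152724, 1074153729], [4295377170, 4295378184], [17180278785], [1721412], [], [33915972], [67780737, 134578242], [269107233, 537231378, 537232392, 269109252], [1074414720, 2147846208], [8590295109], [34360100160], [5390436, 5391441], [17973576], [68305236, 68306241], [269631876], [1074940224], [4296163665], [17181065280], [], [19022928], [69353538, 135364737], [538017873], [1075986516, 1075987521], [4297211976, 8591081604], [], [5653008], [18235428, 18236433]]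

/-- relations 4 -/
def RN4 : List (List ℕ) := [[68567040], [269893728], [1075200021, 1075201026], [4296425481, 4296427536], [], [], [], [], [], [1076249088, 2149155072], [], [17182377216], [], [], [], [], [], [], [], [], [], [], [], [], [], [34361147457], [361104, 672096], [1147410, 2244897, 1148424, 2246916], [4292949, 4293954], [33703296, 16878144], [67207749], [537019716], [1073841732], [4295066178, 8590082433], [17179967841, 17179969860], [426561, 606594], [2179392], [4358406, 8471049, 4359456, 8473104], [33636645, 16942596, 33637650, 33638664], [134299929, 67274256, 134300934, 134301984], [268600896, 536955264], [2147565828], [8590016784], [17180033298, 34359820833, 17180034312, 34359822852], [1343769, 1344774, 2639376, 1345824], [4489296], [17072484, 17073489], [67404096], [268730784, 537412176], [1074037077, 1074038082], [4295262537, 4295264592], [17180164200, 34360279188, 17180165205, 34360280193, 17180166210], [1605765, 2375754, 2376804, 2377809], [8667396], [17334288, 33832992, 33835014], [134496276, 134497281],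 [268992600, 537149604, 268993605, 537150609], [1074298881, 2147762178, 2147763240], [8590214148, 4295524389, 4295525394], [17180426772, 34360017192, 17180427777, 34360018197, 34360019202], [5275794, 10502241, 5276808, 10504260], [17859984], [68190594, 136331841], [269517090, 538984977, 269518104, 269519109], [1074823572, 1074824577], [4296049032, 8592048708], [34361851989, 17180951700, 34361852994, 17180952705], [9453894, 9454944], [18907281, 34619490, 34620504, 34621509], [135283776], [537936912, 270565401, 270566406], [2148548673], [8590999641, 4297098384, 8591000646, 8591001696], [34360804692, 34360805697], [], [18120786, 18121800], [68453460, 68454465], [269780100], [1075085376], [4296310884, 4296311889], [17181214272], [], [], [], [], [], [], [17182261569], [5801232], [35930373], [68716032, 136595712], [], [2149859604, 2149860609], [4296573456, 8592310560], [17181475074, 34362114561], [6848529, 9715746, 9716760, 9717765], [34883076], [69763329, 135545346], [], [1076397312, 2148813312]]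

/-- relations 5 -/
def RN5 : List (List ℕ) := [[8591262213], [34361066496], [], [4554753], [17137941, 17138946], [67469601, 67471620], [268796241], [1074102534, 1074103584], [4295329044, 4295330049], [17180229657, 17180230662, 34360411152, 17180231712], [1672272], [8799552], [17399937, 33964098], [134628432], [269058057, 537280518, 537281568, 269060112], [2147893329], [4295591040, 8590346304], [], [5341248], [17924436, 17925441], [68256096], [269582736], [1074889029], [4296116544], [17181016152, 17181017157], [], [18972738, 34750593], [69305412], [538067013], [1075937376, 2148679824], [4297162836, 4297163841], [], [], [18186240], [68517912, 68518917], [269844552], [1075150881, 1075152900], [4296376341, 4296377346], [17181278724], [6653184], [], [], [], [], [4297425408, 8591655168], [], [], [], [], [], [], [], [], [9846849], [], [], [], [], [], [], [], [8994897], [], [], [268861698, 537477633], [], [], [34360344645], [1736724, 2441256, 1737729, 2442261, 2443266], [], [33898641], [134561925], [537215061, 537216066],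 [1074430032, 2147827872], [4295655492, 8590278792], [], [5406753, 10567698, 10568712, 5408772], [17989893], [68321553], [269648193], [1074955536], [4296180996], [17181081609, 34361917446, 34361918496, 17181083664], [9519396, 9520401], [34684944], [135348228], [538001556, 538002561], [1076002833, 2148614178, 2148615192, 2148616197], [4297228293, 8591065098, 8591066148, 8591067153], [34360869144, 34360870149], [], [], [], [539575296, 269912064], [], [], [], [], [], []]

/-- relations 6 -/
def RN6 : List (List ℕ) := [[], [], [], [], [], [], [], [], [], [], [], [9781392], [], [], [538264128], [], [], [34361131140], [86037, 87042], [283152], [1069650, 1070664], [4215189, 4216194], [33596736, 16800384], [67129989], [268456485, 268457490, 536913156, 268458504], [1073763972], [4294988418, 8589975873], [17179890081, 17179892100], [102546, 155745, 103560, 157764], [550224], [1085976, 2122020, 1086981, 2123025], [4231506, 4232520], [16815696], [67146306, 134242689], [536895825], [1073779284, 1073780289], [4295004744, 8589959556],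 [17179907412, 17179908417], [332292], [1118790, 1119840], [4264329, 4266384], [16847505], [134358336, 67181184], [268505625, 268506630, 537011472, 268507680], [1073812098, 2147623233], [4295038608], [17179939221, 17179940226], [599364], [1184292, 2171160, 1185297, 2172165], [4330836, 4331841], [16912962, 33628545], [67245636], [536944965], [1073877600, 2147557776], [4295103060, 4295104065], [17180004678, 17180005728], [1315137], [4460676], [17043864, 17044869], [67375524, 67376529], [268701972, 268702977], [1074008457, 1074010512], [4295233953, 4295235972], [17180135568], [2368512, 1579008, 1577001], [4723296, 8659344], [17305668], [67637328], [268963968, 537141312], [1074270309, 1074271314, 2147755140, 1074272328], [4295495769, 4295496774, 8590206096, 4295497824], [17180398152, 34360009092], [5246982, 5248032], [17831172], [68162832], [269489472], [1074794760, 1074796818], [4296020256, 4296022278], [17180921874, 17180922888], [6296097, 9445650, 9446664, 6298116], [18878469, 34612260, 34613265], [69210129, 135275544,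 135276549], [270536769], [1075844112, 2148540441, 2148541446], [4297069572, 8590991397], [17181970953, 34360795398, 34360796448, 17181973008], [], [18092166, 18093216], [68423826, 68424840], [269750274, 269751336], [1075056804, 1075057809], [4296282264, 4296283269], [], [], [], [], [538453248, 270801408], [], [], []]

/-- relations 7 -/
def RN7 : List (List ℕ) := [[5772612], [], [], [], [1075319376], [4296544836], [17181447504], [6819909], [], [], [], [], [], [17182494801], [1380642, 1381656, 1382661], [4526181, 4527186, 4528200], [17109321, 17111376], [67440981, 67441986], [268767621], [1074074964, 1074075969], [4295299410, 4295300424], [17180201025], [1643652], [4788753], [17371173, 17372178, 33956868, 17373192], [67702785], [269029473, 269031492], [1074336768], [4295561226, 8590336005, 4295562276, 4295563281], [34360141056, 17180465664], [5312676, 5313681], [17895816], [68227476, 68228481], [269553924], [1074862464], [4296085905], [17180987520], [], [18945168], [69275778, 135405633], [270602274, 538058769, 270603288,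 270604293], [1075908756, 1075909761], [4297134216, 8591122500], [], [5575248], [18157668, 18158673], [68489280], [269815968], [1075122261, 1075123266], [4296347721, 4296349776], [], [], [], [], [], [1076171328], [], [17182299456], [5837064], [18420240], [], [], [1075384833], [], [17181511956, 17181512961], [6886416], [], [69801216], [], [], [4297658640], [17182560258, 34361188353], [1446288], [4592640], [17175828, 17176833], [67506438, 67507488], [268834128], [1074139416, 1074140421], [4295364864], [17180266530, 34360336401, 17180267544, 17180268549], [1708104, 2433156], [8724801], [17437824, 33892416], [134553681], [269094930, 537206817, 269095944, 537208836], [1074401412, 2147819592], [8590270548, 8590271553], [], [5378133, 5379138], [17963328], [68292933], [], [1074926916], [4296151362], [17181053025, 17181055044], [6427200, 9511296], [19009620, 19010625], [69341280, 135340176], [270667920, 537993312], [1075974213]]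

/-- relations 8 -/
def RN8 : List (List ℕ) := [[8591058048, 4297201728], [], [5640705], [18223125, 18224130], [68554785, 68556804], [269881425], [1075187718, 1075188768], [4296414228, 4296415233], [], [], [19272192, 35201280], [], [], [], [], [17182363908], [], [], [], [], [], [], [], [], [], [], [], [], [], [34361122896], [348801], [1135104], [4280646, 4281696], [16864836], [67196496], [268523136], [1073828424], [4295053920], [17179955538, 17179956552], [], [], [4346148, 4347153], [16929288, 33661188], [67260948, 67261953], [268587588], [2147591424, 1073895936], [4295119377], [17180020992], [1331466, 1332516, 1333521], [4476993], [17060181, 17061186], [67391841, 67393860], [268718481], [1074024774, 1074025824], [4295251284, 4295252289], [17180151897, 17180152902, 17180153952], [1594512], [8692992, 4741632], [17321985], [67653657, 67654662, 134521872, 67655712], [268980297, 268982352], [1074286626, 2147786769, 1074287640, 1074288645], [4295513088], [17180414469], [5263488], [17846676, 17847681], [68178336], [269504784],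 [1074811269], [4296038784], [17180938392, 17180939397], [], [18894978, 34644033], [69227652], [270553098, 537960453, 270554148, 270555153], [1075859616, 2148573264], [4297085076, 4297086081], [], [], [18108480], [68440152, 68441157], [269766792], [1075073121, 1075075140], [4296298581, 4296299586], [17181200964], [6575424], [], [], [], [], [4297347648], [], [5787924, 5788929], [], [68702724], [], [], [4296561153], [17181462816], [6836226, 9740289]]

/-- relations 9 -/
def RN9 : List (List ℕ) := [[19420416], [], [], [1076384004], [], [17182512132], [], [4542498, 4543512, 4544517], [17125638, 17126688], [67457298, 67458312], [268783938], [1074090276, 1074091281], [4295315736, 4295316741], [17180217354, 17180218404, 17180219409], [1658964, 1659969], [], [], [], [269046804, 269047809], [1074352272], [4295577732], [], [5328993, 5331012], [17912133], [68243793], [269570433], [1074877776], [4296103236], [17181003849, 17181005904], [], [18960480], [69292104], [], [1075925073], [4297150533], [], [], [18173985, 18176004], [68505609,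 68507664], [269834304], [1075138578, 1075139592], [4296364038, 4296365088], [], [6639876], [], [], [], [], [], [17182314768], [], [], [], [], [], [], [], [], [], [], [271143168], [], [], [], [], [4608144], [], [67522944], [268849440], [], [], [], [1724421], [], [17453136], [], [], [1074417729], [], [], [5394450, 5395464], [17978640], [68309250], [], [1074942228, 1074943233], [4296167688], [17181070356, 17181071361], [], [19025937], [135373824, 69359616], [], [1075990530, 2148638721], [4297217040], [], [], [], [], [269898756], [1075204224], []]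

/-- relations 10 -/
def RN10 : List (List ℕ) := [[], [], [], [], [], [], [], [], [], [], [], [], [], [], [], [], [], [], [], [], [], [], [], [], [4296960], [16880148, 16881153], [67211808, 134373648], [268538448], [1073844741], [8590091520, 4295072256], [17179971864, 17179972869], [614676, 615681], [], [], [], [], [268603905, 536961282], [], [], [], [1347972], [4493322, 8937477, 4494372, 4495377], [17076498, 17077512], [67409172, 67410177], [268735812], [1074041088], [4295266596, 4295267601], [17180169216], [1609824, 2384016], [], [33841221], [67671168, 134506560], [268996614, 537157641, 268997664, 537159696], [2147770452, 2147771457], [4295528592, 8590221408], [34360025409], [5279817, 5281872], [17862993], [68196672], [], [1074827586], [4296054096], [17180954709, 17180955714], [], [18911304, 34627716], [69242964, 69243969], [270569604, 537944136], [2148557952, 1075877952], [4297101393], [17182003776, 34360811904], [], [18124809, 18126864], [68456469, 68457474], [269783109], [1075090452, 1075091457], [4296314898,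 4296315912], [17181217281], [6590736], [], [69505536, 135815424], [], [], [], [], [], [], [], [], [], [], [], [9723972], [], [], [], [], [], [], [], []]

/-- relations 11 -/
def RN11 : List (List ℕ) := [[17142144], [], [268800264], [], [], [17180233860], [1675281], [], [], [67735620], [], [], [4295594049], [], [5346324, 5347329], [17928450], [68261124], [], [1074893088], [4296118548, 4296119553], [17181020166, 17181021216], [], [34759680, 18978816], [69308421], [], [1075942404], [4297166850, 8591138817], [], [], [], [], [269849616], [], [4296380544], [], [], [], [], [], [], [], [], [], [], [], [], [], [], [], [], [], [], [], [], [], [], [1479936], [], [], [], [], [], [], [], [2449473], [], [33907728], [134571012], [], [2147835909], [8590286865], [], [], [], [], [], [], [], [], [], [], [], [270701568, 538011648], [2148622404], [8591073360], [], [], [], [], [], [], [], [], [], [], [], [], [], [], []]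

/-- relations 12 -/
def RN12 : List (List ℕ) := [[], [], [], [], [], [], [], [], [], [], [], [], [], [], [90240, 168000], [561477], [1073673, 2134278, 2135328, 1075728], [4219200], [16802388, 16803393], [67134048, 134254992], [268460688, 536908128], [1073766981], [8589972864, 4294994496], [17179894104, 17179895109], [106569, 151686, 152736, 108624], [303684, 545160], [2117961, 2120016], [4235529, 8409606, 8410656, 4237584], [16818705, 33575202, 33576216, 33577221], [134239488], [536892816], [2147504385], [8589955353, 4295009808, 8589956358, 8589957408], [17179910421, 17179911426, 34359760404, 34359761409], [659793], [1122849, 2232594, 2233608, 1124868], [4268388, 4269393], [16851528, 33689988], [67183188, 67184193], [268509828, 537006408], [2147620224, 1073818176], [4295041617], [17179943232], [402000, 594336], [2167137, 2169156], [4333845, 4334850, 8459796, 8460801], [33625344], [67248645, 134287626, 134288676, 134289681], [536941956], [2147553573, 1073882628, 2147554578, 2147555592], [8590004481], [17180008737,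 34359808530, 34359809544, 17180010756], [1319208, 2626068, 1320213, 2627073, 1321218], [4464738, 8917137, 4465752, 4466757], [17047878, 17048928], [67379538, 67380552], [268706178, 537399873], [1074012516, 1074013521], [4295237976, 4295238981], [17180139594, 34360266885, 17180140644, 17180141649], [1581204, 2363496, 1582209, 2364501, 2365506], [8655141, 4728324, 8656146, 8657160], [33820689, 17310744, 17311749], [134483973, 67642404, 67643409], [537137301, 268969044, 537138306, 268970049], [1074274320, 2147749920], [4295499780, 8590200840, 8590202898], [34360004889, 17180403216, 34360005894, 34360006944], [5251233, 10489938, 10490952, 5253252], [17834373], [68166033], [269492481], [1074800016], [4296025476], [17180926089, 34361839686, 34361840736, 17180928144], [9441636, 9442641], [34607184], [135270468], [537923604, 537924609, 270541845], [1075847313, 2148536418, 2148537432, 2148538437], [4297072773, 8590987338, 8590988388, 8590989393], [34360791384, 34360792389], [], [18096225, 18098244], [68427849, 68429904], [539497536,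 269756544], [1075060818, 1075061832], [4296286278, 4296287328], [], [6562116], [], [], [], [], [], [17182237008], [5775621], [35919120], [136582404], []]

/-- relations 13 -/
def RN13 : List (List ℕ) := [[2149847301], [8592298257], [17181450513], [9703440], [19407108, 34869768], [69738768, 135533088], [271065408, 538186368], [2148800004], [8591250960], [34361053188], [], [4530192], [17113380, 17114385], [67444992], [268771680], [1074077973, 1074078978], [4295303433, 4295305488], [17180205096, 34360397844, 17180206101, 34360398849, 17180207106], [1646661], [8786244], [17375376, 33951840], [134615124, 134616129], [269033496, 537268260, 269034501, 537269265], [1074339969, 2147881026], [8590332996], [], [5316690, 5317704], [17900880], [68231490], [], [1074864468, 1074865473], [4296089928], [17180992596, 17180993601], [], [18948177], [135402624, 69281856], [538055760], [1075912770, 2148667521], [4297139280], [], [], [18161682, 18162696], [68494356, 68495361], [269820996], [1075126272], [4296351780, 4296352785], [17181255168],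 [], [], [], [], [], [], [17182302465], [], [], [], [], [], [], [], [], [], [], [], [], [], [34361185344], [], [4595841, 8982594], [], [], [268837137], [], [], [34360333392], [2428953, 1713168, 2429958, 2431008], [8721792], [17440833, 33886338], [134550672], [537202758, 537203808], [2147815569], [4295631936, 8590268544], [], [5382144, 10555392], [17965332, 17966337], [68296992, 136385040], [269623632], [1074929925], [8592102912, 4296157440], [17181057048, 34361905188, 17181058053, 34361906193], [9507093, 9508098], [34672641], [135335973, 69346308, 135336978, 135337992], [537989253], [2148601872], [4297203732, 8591052840, 4297204737, 8591053845, 8591054850], [34360856841, 34360858896], [], [18227328, 36245568]]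

/-- relations 14 -/
def RN14 : List (List ℕ) := [[], [269885448, 539561988], [], [], [], [], [], [], [], [], [8591577408], [], [], [], [], [], [], [], [], [9769089], [], [], [], [], [], [], [], [], [4284705, 4286724], [16867845], [67199505], [268526145], [1073833488], [4295058948], [17179959561, 17179961616], [627984], [], [], [], [134320449], [536973585], [], [8590037316], [], [], [4481064, 8949780, 4482069, 8950785, 4483074], [17064192], [67395864, 67396869], [268722504], [1074028833, 1074030852], [4295254293, 4295255298], [17180155908], [1597521], [], [33853524, 33854529], [67657860, 134516808], [268984356, 537169944, 268985361, 537170949], [2147783760], [4295516289, 8590233666], [34360037712], [5268564, 5269569], [17850690], [68183364], [], [1074815328], [4296040788, 4296041793], [17180942406, 17180943456], [], [34641024, 18901056], [69230661], [537957444], [1075864644], [4297089090, 8591020161], [], [5531136], [18113556, 18114561], [68444166, 68445216], [269771856], [1075077144, 1075078149], [4296302592], [],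 [6578433], [], [], [], [], [], [], [], [], [], [], [], [], [], [9737280], [], [], [], []]

/-- relations 15 -/
def RN15 : List (List ℕ) := [[], [], [1402176], [], [], [], [268790016], [], [], [], [1662978, 2527233], [], [], [], [], [], [], [], [5333016, 5334021], [17916192], [68247816], [], [1074880785], [4296106245], [17181007908, 17181008913], [], [18965508], [69297168], [270623808], [1075929096, 2148700164], [4297154592, 8591151120], [], [], [], [], [269836308, 269837313], [], [], [], [], [], [], [], [], [], [], [], [], [], [], [], [], [], [], [], [], [], [], [], [], [1466628], [], [], [], [], [1074159936], [], [17180288064], [2461776], [], [33918981], [67789824, 134584320], [], [2147848212, 2147849217], [4295647248, 8590299168], [34360103169], [], [], [], [], [], [], [], [], [34705476], [], [270688260, 538021896], [2148635712], [], [34360889664], [], [], [], [], [], [], [], [], [], []]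

/-- relations 16 -/
def RN16 : List (List ℕ) := [[], [], [], [], [], [], [], [], [], [], [], [9801732], [], [], [], [], [], [], [677124], [], [], [33706305], [], [537022725], [2147635536], [], [], [612672], [2184468, 2185473], [], [33640848], [134304132], [536957268, 536958273], [], [], [], [], [8934468], [], [], [268738821], [], [], [17180172417, 34360283202], [2379813, 1614852, 2380818, 2381832], [], [33838212], [67674177, 134500482], [537153618, 537154632], [1074308160, 2147768448], [8590217349], [34360022400], [5283876, 10506264, 5284881, 10507269], [17867016, 35672580], [68198676, 68199681], [269525316], [2149602816, 1074833664], [4296057105], [17180958720, 34361856000], [9457953, 9459972], [34623513, 18916368, 34624518, 34625568], [135286785], [537940113], [1075879956, 2148552744, 1075880961, 2148553749, 2148554754], [8591003652], [34360807701, 34360808706], [], [], [68460672, 136859712], [269787168, 539512848], [], [], [], [], [], [], [], [2149077312], [], [], [], [], [], [], [], [], [], [], [], [], [], [],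 [], [34361069697], [1417488], [4564032], [], [], [], []]

/-- relations 17 -/
def RN17 : List (List ℕ) := [[4295336256], [], [2510916], [8802561], [17409024, 33970176], [134631441], [], [1074372612, 2147897352], [8590348308, 8590349313], [], [], [], [], [], [], [], [], [9589056], [], [135417936], [270639120, 538071072], [], [8591135808], [], [], [], [], [], [], [], [], [], [], [], [], [], [], [], [], [], [], [], [], [], [], [], [], [], [], [], [], [34361200656], [], [4628484, 8998920], [], [], [], [], [], [17180303376, 34360348704], [2446464], [8737104], [33902664], [134565984], [537219072], [2147832900], [8590283856], [34360086852], [], [], [], [], [], [], [], [], [], [], [538005570], [], [], [], [], [], [], [], [], [], [], [], [], [], [], [], [], [], [], [], [], []]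

/-- relations 18 -/
def RN18 : List (List ℕ) := [[], [], [], [], [], [], [], [], [], []]

/-- relations -/
def RN : List (List ℕ) := RN0 ++ (RN1 ++ (RN2 ++ (RN3 ++ (RN4 ++ (RN5 ++ (RN6 ++ (RN7 ++ (RN8 ++ (RN9 ++ (RN10 ++ (RN11 ++ (RN12 ++ (RN13 ++ (RN14 ++ (RN15 ++ (RN16 ++ (RN17 ++ (RN18))))))))))))))))))

theorem root_ok : rootOK X sb ((leaves [Uc]).take 12) ((leaves G).take 1810) RU RN = true := by
  decide +kernel

/-- refutations 0 -/
def e0 : EX := (.node (.node (.node (.node (.node (.node (.node (.node (.node .leaf (nat_lit 4592695716733738) (.br (nat_lit 2) (.cons (.br (nat_lit 3) (.cons (.rel (nat_lit 335545608)) .nil)) .nil)) .leaf) (nat_lit 4592695718506747) (.br (nat_lit 3) (.cons (.br (nat_lit 4) (.cons (.rel (nat_lit 1342439568)) (.cons (.rel (nat_lit 1342178577)) .nil))) .nil)) .leaf) (nat_lit 4592695719499029) (.br (nat_lit 3) (.cons (.br (nat_lit 2) (.cons (.rel (nat_lit 402658308)) (.cons (.rel (nat_lit 336594960)) .nil))) .nil)) (.node .leaf (nat_lit 4592695719543035) (.br (nat_lit 2) (.cons (.br (nat_lit 3) (.cons (.rel (nat_lit 335814672)) .nil)) .nil)) .leaf)) (nat_lit 4592695719543560) (.br (nat_lit 0) (.cons (.br (nat_lit 3) (.cons (.rel (nat_lit 545259537)) .nil)) .nil)) (.node (.node (.node .leaf (nat_lit 4592697605943547) (.br (nat_lit 3) (.cons (.br (nat_lit 6) (.cons (.rel (nat_lit 17448305700)) .nil)) .nil)) .leaf) (nat_lit 4592697605944597) (.br (nat_lit 0) (.cons (.br (nat_lit 1) (.cons (.rel (nat_lit 41947140)) .nil)) .nil)) .leaf) (nat_lit 4592697606865147) (.br (nat_lit 0) (.cons (.br (nat_lit 3) (.cons (.rel (nat_lit 541589508)) (.cons (.rel (nat_lit 272631813)) .nil))) .nil)) (.node .leaf (nat_lit 4604936373526779) (.br (nat_lit 3) (.cons (.br (nat_lit 0) (.cons (.rel (nat_lit 276824400)) (.cons (.rel (nat_lit 273170688)) .nil))) .nil)) .leaf))) (nat_lit 4604936373527304) (.br (nat_lit 3) (.cons (.br (nat_lit 6) (.cons (.rel (nat_lit 17448375360)) (.cons (.rel (nat_lit 17450402064)) .nil))) .nil)) (.node (.node (.node (.node .leaf (nat_lit 4604936375300347) (.br (nat_lit 3) (.cons (.br (nat_lit 5) (.cons (.rel (nat_lit 4564451334)) (.cons (.rel (nat_lit 4563734544)) (.cons (.rel (nat_lit 4563796992)) (.cons (.rel (nat_lit 8858371152)) .nil))))) .nil)) .leaf) (nat_lit 4604936376292629) (.br (nat_lit 2) (.cons (.br (nat_lit 3) (.cons (.rel (nat_lit 336594960)) .nil)) .nil)) .leaf) (nat_lit 4604936376336635) (.br (nat_lit 0) (.cons (.br (nat_lit 3) (.cons (.rel (nat_lit 273170688)) (.cons (.rel (nat_lit 277086216)) .nil))) (.cons (.br (nat_lit 3) (.cons (.rel (nat_lit 276824400)) (.cons (.rel (nat_lit 272631813)) .nil))) .nil))) (.node .leaf (nat_lit 4604936376337160) (.br (nat_lit 0) (.cons (.br (nat_lit 3) (.cons (.rel (nat_lit 545259537)) .nil)) .nil)) .leaf)) (nat_lit 4604938262737147) (.br (nat_lit 2) (.cons (.br (nat_lit 0) (.cons (.rel (nat_lit 142606401)) (.cons (.rel (nat_lit 71311380)) (.cons (.rel (nat_lit 71311380)) .nil)))) .nil)) (.node (.node .leaf (nat_lit 4604938262737672) (.br (nat_lit 1) (.cons (.br (nat_lit 2) (.cons (.rel (nat_lit 83887488)) (.cons (.rel (nat_lit 83951940)) (.cons (.rel (nat_lit 86507520)) (.cons (.rel (nat_lit 86507520)) (.cons (.rel (nat_lit 86507520)) .nil)))))) .nil)) .leaf) (nat_lit 4604938263773435) (.br (nat_lit 2) (.cons (.br (nat_lit 3) (.cons (.rel (nat_lit 335581440)) .nil)) .nil)) (.node .leaf (nat_lit 5032444193421569) (.br (nat_lit 3) (.cons (.br (nat_lit 2) (.cons (.rel (nat_lit 402653280)) (.cons (.rel (nat_lit 402671616)) (.cons (.rel (nat_lit 402671616)) (.cons (.br (nat_lit 5) (.cons (.rel (nat_lit 8858386464)) (.cons (.rel (nat_lit 8657043462)) (.cons (.rel (nat_lit 4362338388)) (.cons (.rel (nat_lit 4362338388)) (.cons (.rel (nat_lit 4563501312)) .nil)))))) .nil))))) (.cons (.br (nat_lit 1) (.cons (.rel (nat_lit 301989960)) (.cons (.rel (nat_lit 285348096)) (.cons (.rel (nat_lit 302057472)) (.cons (.rel (nat_lit 285496320)) (.cons (.rel (nat_lit 302057472)) (.cons (.br (nat_lit 2) (.cons (.rel (nat_lit 86507520)) (.cons (.rel (nat_lit 402658308)) (.cons (.rel (nat_lit 402658308)) (.cons (.rel (nat_lit 86507520)) .nil))))) .nil))))))) (.cons (.br (nat_lit 2) (.cons (.rel (nat_lit 402718737)) (.cons (.br (nat_lit 5) (.cons (.rel (nat_lit 8858435604)) (.cons (.rel (nat_lit 4362339393)) (.cons (.rel (nat_lit 4362600960)) (.cons (.rel (nat_lit 4429187088)) (.cons (.rel (nat_lit 4563403032)) .nil)))))) (.cons (.br (nat_lit 5) (.cons (.rel (nat_lit 8858435604)) (.cons (.rel (nat_lit 4362339393)) (.cons (.rel (nat_lit 8657043462)) (.cons (.rel (nat_lit 4362084609)) (.cons (.rel (nat_lit 4563403032)) .nil)))))) (.cons (.br (nat_lit 5) (.cons (.rel (nat_lit 8858435604)) (.cons (.rel (nat_lit 8657043462)) (.cons (.rel (nat_lit 4362338388)) (.cons (.rel (nat_lit 4362338388)) (.cons (.rel (nat_lit 4563403032)) .nil)))))) .nil))))) .nil)))) .leaf)))) (nat_lit 5032444193422069) (.br (nat_lit 5) (.cons (.br (nat_lit 3) (.cons (.rel (nat_lit 8858386464)) (.cons (.br (nat_lit 1) (.cons (.rel (nat_lit 301989960)) (.cons (.rel (nat_lit 4580197380)) (.cons (.rel (nat_lit 4311778560)) (.cons (.rel (nat_lit 8608809216)) .nil))))) (.cons (.rel (nat_lit 8858435604)) .nil)))) (.cons (.br (nat_lit 2) (.cons (.rel (nat_lit 4362084609)) (.cons (.rel (nat_lit 4362081600)) (.cons (.rel (nat_lit 4362146052)) (.cons (.rel (nat_lit 4362081600)) .nil))))) .nil))) (.node (.node (.node (.node (.node .leaf (nat_lit 5032444193422569) (.br (nat_lit 5) (.cons (.br (nat_lit 2) (.cons (.br (nat_lit 0) (.cons (.rel (nat_lit 8595177729)) (.cons (.rel (nat_lit 142606401)) (.cons (.rel (nat_lit 4299686160)) (.cons (.rel (nat_lit 71309376)) (.cons (.rel (nat_lit 142606401)) (.cons (.rel (nat_lit 8594130432)) .nil))))))) (.cons (.rel (nat_lit 4362159360)) (.cons (.rel (nat_lit 4362096912)) .nil)))) (.cons (.br (nat_lit 2) (.cons (.rel (nat_lit 4362081600)) (.cons (.rel (nat_lit 4362146052)) (.cons (.rel (nat_lit 4362081600)) .nil)))) .nil))) .leaf) (nat_lit 5032444193530166) (.br (nat_lit 2) (.cons (.br (nat_lit 6) (.cons (.rel (nat_lit 17246994516)) (.cons (.rel (nat_lit 17315136768)) (.cons (.rel (nat_lit 17247043656)) .nil)))) (.cons (.br (nat_lit 6) (.cons (.rel (nat_lit 17247048720)) (.cons (.rel (nat_lit 34493960208)) (.cons (.rel (nat_lit 17246986272)) .nil)))) (.cons (.br (nat_lit 6) (.cons (.rel (nat_lit 17246982213)) (.cons (.rel (nat_lit 17315136768)) (.cons (.rel (nat_lit 17246979204)) .nil)))) .nil)))) .leaf) (nat_lit 5032444193530666) (.br (nat_lit 2) (.cons (.br (nat_lit 5) (.cons (.rel (nat_lit 4362084609)) (.cons (.rel (nat_lit 4429187088)) .nil))) (.cons (.br (nat_lit 5) (.cons (.rel (nat_lit 4362159360)) (.cons (.rel (nat_lit 4362159360)) .nil))) .nil))) (.node .leaf (nat_lit 5032444193531166) (.br (nat_lit 5) (.cons (.br (nat_lit 2) (.cons (.rel (nat_lit 4429187088)) (.cons (.rel (nat_lit 4362159360)) .nil))) .nil)) .leaf)) (nat_lit 5032444195213569) (.br (nat_lit 5) (.cons (.br (nat_lit 2) (.cons (.br (nat_lit 0) (.cons (.rel (nat_lit 142606401)) (.cons (.rel (nat_lit 142606401)) (.cons (.rel (nat_lit 4303358208)) (.cons (.rel (nat_lit 71309376)) (.cons (.rel (nat_lit 4299686160)) (.cons (.rel (nat_lit 8594130432)) .nil))))))) (.cons (.rel (nat_lit 4362159360)) (.cons (.rel (nat_lit 4362096912)) .nil)))) (.cons (.br (nat_lit 2) (.cons (.rel (nat_lit 4362081600)) (.cons (.rel (nat_lit 4362146052)) (.cons (.rel (nat_lit 4362081600)) .nil)))) .nil))) (.node (.node .leaf (nat_lit 5032444195214069) (.br (nat_lit 3) (.cons (.br (nat_lit 2) (.cons (.rel (nat_lit 402653280)) (.cons (.br (nat_lit 5) (.cons (.rel (nat_lit 8858386464)) (.cons (.rel (nat_lit 4831855680)) (.cons (.rel (nat_lit 8657043462)) (.cons (.rel (nat_lit 4563501312)) (.cons (.rel (nat_lit 4362338388)) (.cons (.rel (nat_lit 4563501312)) (.cons (.rel (nat_lit 4362338388)) .nil)))))))) (.cons (.rel (nat_lit 604013568)) (.cons (.rel (nat_lit 402671616)) (.cons (.rel (nat_lit 402671616)) (.cons (.rel (nat_lit 402671616)) (.cons (.rel (nat_lit 604013568)) .nil)))))))) (.cons (.br (nat_lit 1) (.cons (.rel (nat_lit 285348096)) (.cons (.rel (nat_lit 285496320)) (.cons (.rel (nat_lit 301989960)) (.cons (.rel (nat_lit 302057472)) (.cons (.rel (nat_lit 302057472)) (.cons (.br (nat_lit 5) (.cons (.rel (nat_lit 8608809216)) (.cons (.rel (nat_lit 4563404037)) (.cons (.rel (nat_lit 4311765252)) (.cons (.rel (nat_lit 4329570816)) (.cons (.rel (nat_lit 8606720064)) (.cons (.rel (nat_lit 4580197380)) (.cons (.rel (nat_lit 4311765252)) .nil)))))))) .nil))))))) (.cons (.br (nat_lit 1) (.cons (.rel (nat_lit 285605889)) (.cons (.rel (nat_lit 285483012)) (.cons (.br (nat_lit 5) (.cons (.rel (nat_lit 8858435604)) (.cons (.rel (nat_lit 4831842372)) (.cons (.rel (nat_lit 4311778560)) (.cons (.rel (nat_lit 4563403032)) (.cons (.rel (nat_lit 8606713857)) (.cons (.rel (nat_lit 4563403032)) (.cons (.rel (nat_lit 4311778560)) .nil)))))))) (.cons (.br (nat_lit 2) (.cons (.rel (nat_lit 402718737)) (.cons (.rel (nat_lit 169082880)) (.cons (.rel (nat_lit 336592905)) (.cons (.rel (nat_lit 83887488)) (.cons (.rel (nat_lit 83887488)) (.cons (.rel (nat_lit 84154368)) (.cons (.rel (nat_lit 604000260)) .nil)))))))) (.cons (.br (nat_lit 2) (.cons (.rel (nat_lit 402718737)) (.cons (.rel (nat_lit 85065744)) (.cons (.rel (nat_lit 336592905)) (.cons (.rel (nat_lit 83890497)) (.cons (.rel (nat_lit 83902800)) (.cons (.rel (nat_lit 83890497)) (.cons (.rel (nat_lit 604000260)) .nil)))))))) (.cons (.rel (nat_lit 301989960)) .nil))))))) .nil)))) .leaf) (nat_lit 5032444195214569) (.br (nat_lit 5) (.cons (.br (nat_lit 3) (.cons (.rel (nat_lit 8858386464)) (.cons (.br (nat_lit 6) (.cons (.rel (nat_lit 42949678080)) (.cons (.rel (nat_lit 42949678080)) (.cons (.rel (nat_lit 25770344448)) (.cons (.rel (nat_lit 21743276544)) (.cons (.rel (nat_lit 42949678080)) (.cons (.rel (nat_lit 22011708672)) .nil))))))) (.cons (.rel (nat_lit 8858435604)) .nil)))) (.cons (.br (nat_lit 2) (.cons (.rel (nat_lit 4362081600)) (.cons (.rel (nat_lit 4362342402)) (.cons (.rel (nat_lit 4362146052)) (.cons (.rel (nat_lit 4362081600)) .nil))))) .nil))) (.node .leaf (nat_lit 5032444195322166) (.br (nat_lit 5) (.cons (.br (nat_lit 2) (.cons (.rel (nat_lit 4429187088)) (.cons (.rel (nat_lit 4362159360)) .nil))) .nil)) .leaf))) (nat_lit 5032444195322666) (.br (nat_lit 2) (.cons (.br (nat_lit 3) (.cons (.rel (nat_lit 402653280)) (.cons (.br (nat_lit 6) (.cons (.rel (nat_lit 17247048720)) (.cons (.rel (nat_lit 34896609285)) (.cons (.rel (nat_lit 34493960208)) (.cons (.rel (nat_lit 17246986272)) .nil))))) (.cons (.rel (nat_lit 402718737)) .nil)))) (.cons (.br (nat_lit 1) (.cons (.rel (nat_lit 86507520)) (.cons (.rel (nat_lit 86507520)) (.cons (.rel (nat_lit 84164616)) (.cons (.rel (nat_lit 84148290)) .nil))))) (.cons (.br (nat_lit 1) (.cons (.rel (nat_lit 83887488)) (.cons (.rel (nat_lit 83887488)) (.cons (.rel (nat_lit 83887488)) (.cons (.rel (nat_lit 83890497)) .nil))))) .nil)))) (.node (.node (.node (.node .leaf (nat_lit 5032444195323166) (.br (nat_lit 2) (.cons (.br (nat_lit 5) (.cons (.rel (nat_lit 4429187088)) (.cons (.rel (nat_lit 4362159360)) .nil))) (.cons (.br (nat_lit 5) (.cons (.rel (nat_lit 4362159360)) (.cons (.rel (nat_lit 4363125888)) .nil))) .nil))) .leaf) (nat_lit 5032444196237569) (.br (nat_lit 5) (.cons (.br (nat_lit 4) (.cons (.rel (nat_lit 5368742148)) (.cons (.rel (nat_lit 5368718592)) (.cons (.rel (nat_lit 5368718592)) (.cons (.rel (nat_lit 5368840464)) (.cons (.rel (nat_lit 5370282240)) .nil)))))) (.cons (.br (nat_lit 2) (.cons (.rel (nat_lit 8657043462)) (.cons (.rel (nat_lit 4362081600)) (.cons (.rel (nat_lit 4362146052)) (.cons (.rel (nat_lit 4362081600)) .nil))))) .nil))) .leaf) (nat_lit 5032444196238069) (.br (nat_lit 5) (.cons (.br (nat_lit 2) (.cons (.br (nat_lit 0) (.cons (.rel (nat_lit 4299686160)) (.cons (.rel (nat_lit 142606401)) (.cons (.rel (nat_lit 4303358208)) (.cons (.rel (nat_lit 71309376)) (.cons (.rel (nat_lit 142606401)) (.cons (.rel (nat_lit 8594130432)) .nil))))))) (.cons (.rel (nat_lit 4362159360)) (.cons (.rel (nat_lit 4362096912)) .nil)))) (.cons (.br (nat_lit 2) (.cons (.rel (nat_lit 4362081600)) (.cons (.rel (nat_lit 4362146052)) (.cons (.rel (nat_lit 4362081600)) .nil)))) .nil))) (.node .leaf (nat_lit 5032444196238569) (.br (nat_lit 3) (.cons (.br (nat_lit 2) (.cons (.rel (nat_lit 402653280)) (.cons (.rel (nat_lit 402653280)) (.cons (.br (nat_lit 5) (.cons (.rel (nat_lit 4362338388)) (.cons (.rel (nat_lit 8657043462)) (.cons (.rel (nat_lit 8858386464)) (.cons (.rel (nat_lit 4362338388)) (.cons (.rel (nat_lit 4563501312)) .nil)))))) (.cons (.rel (nat_lit 402671616)) (.cons (.rel (nat_lit 402671616)) .nil)))))) (.cons (.br (nat_lit 1) (.cons (.rel (nat_lit 301989960)) (.cons (.rel (nat_lit 302057472)) (.cons (.rel (nat_lit 302057472)) (.cons (.br (nat_lit 0) (.cons (.rel (nat_lit 20979720)) (.cons (.rel (nat_lit 293605440)) (.cons (.rel (nat_lit 274727172)) (.cons (.rel (nat_lit 277086216)) (.cons (.rel (nat_lit 41947140)) (.cons (.rel (nat_lit 38273088)) (.cons (.rel (nat_lit 20993028)) (.cons (.rel (nat_lit 25167105)) .nil))))))))) (.cons (.rel (nat_lit 285496320)) .nil)))))) (.cons (.br (nat_lit 1) (.cons (.br (nat_lit 2) (.cons (.rel (nat_lit 336592905)) (.cons (.rel (nat_lit 402718737)) (.cons (.rel (nat_lit 86507520)) (.cons (.rel (nat_lit 83887488)) (.cons (.rel (nat_lit 83887488)) .nil)))))) (.cons (.br (nat_lit 2) (.cons (.rel (nat_lit 336592905)) (.cons (.rel (nat_lit 402718737)) (.cons (.rel (nat_lit 169082880)) (.cons (.rel (nat_lit 83887488)) (.cons (.rel (nat_lit 83887488)) .nil)))))) (.cons (.br (nat_lit 2) (.cons (.rel (nat_lit 336592905)) (.cons (.rel (nat_lit 402718737)) (.cons (.rel (nat_lit 169082880)) (.cons (.rel (nat_lit 83890497)) (.cons (.rel (nat_lit 83902800)) .nil)))))) (.cons (.rel (nat_lit 301989960)) (.cons (.rel (nat_lit 285483012)) .nil)))))) .nil)))) .leaf)) (nat_lit 5032444196346166) (.br (nat_lit 2) (.cons (.br (nat_lit 5) (.cons (.rel (nat_lit 4429187088)) (.cons (.rel (nat_lit 4362081600)) .nil))) (.cons (.br (nat_lit 5) (.cons (.rel (nat_lit 4362159360)) (.cons (.rel (nat_lit 4362159360)) .nil))) .nil))) (.node (.node .leaf (nat_lit 5032444196346666) (.br (nat_lit 5) (.cons (.br (nat_lit 2) (.cons (.rel (nat_lit 4429187088)) (.cons (.rel (nat_lit 4362159360)) .nil))) .nil)) .leaf) (nat_lit 5032444196347166) (.br (nat_lit 3) (.cons (.br (nat_lit 1) (.cons (.rel (nat_lit 301995024)) (.cons (.br (nat_lit 0) (.cons (.rel (nat_lit 25166100)) (.cons (.rel (nat_lit 20993028)) (.cons (.rel (nat_lit 20979720)) (.cons (.rel (nat_lit 20979720)) (.cons (.rel (nat_lit 41947140)) .nil)))))) (.cons (.rel (nat_lit 301995024)) (.cons (.br (nat_lit 0) (.cons (.rel (nat_lit 25166100)) (.cons (.rel (nat_lit 20979720)) (.cons (.rel (nat_lit 20979720)) (.cons (.rel (nat_lit 41947140)) (.cons (.rel (nat_lit 20993028)) .nil)))))) .nil))))) (.cons (.br (nat_lit 1) (.cons (.rel (nat_lit 302057472)) (.cons (.rel (nat_lit 301989960)) (.cons (.rel (nat_lit 301989960)) (.cons (.br (nat_lit 0) (.cons (.rel (nat_lit 277086216)) (.cons (.rel (nat_lit 20979720)) (.cons (.rel (nat_lit 277086216)) (.cons (.rel (nat_lit 41947140)) (.cons (.rel (nat_lit 20993028)) .nil)))))) .nil))))) (.cons (.br (nat_lit 4) (.cons (.br (nat_lit 1) (.cons (.rel (nat_lit 1629487104)) (.cons (.rel (nat_lit 2181300480)) (.cons (.rel (nat_lit 1090524480)) (.cons (.rel (nat_lit 301989960)) .nil))))) (.cons (.rel (nat_lit 1342177572)) (.cons (.rel (nat_lit 1342177572)) (.cons (.rel (nat_lit 2415923205)) (.cons (.br (nat_lit 1) (.cons (.rel (nat_lit 1360265472)) (.cons (.rel (nat_lit 1090785282)) (.cons (.rel (nat_lit 1090785282)) (.cons (.rel (nat_lit 301989960)) .nil))))) .nil)))))) .nil)))) (.node .leaf (nat_lit 5036737063565569) (.br (nat_lit 3) (.cons (.br (nat_lit 1) (.cons (.rel (nat_lit 301989960)) (.cons (.br (nat_lit 4) (.cons (.rel (nat_lit 2164326528)) (.cons (.rel (nat_lit 1342324992)) (.cons (.rel (nat_lit 2415984648)) (.cons (.rel (nat_lit 2415984648)) (.cons (.rel (nat_lit 1090781268)) (.cons (.rel (nat_lit 1090797585)) .nil))))))) (.cons (.rel (nat_lit 302057472)) (.cons (.rel (nat_lit 302057472)) .nil))))) (.cons (.br (nat_lit 2) (.cons (.rel (nat_lit 402671616)) (.cons (.rel (nat_lit 402653280)) (.cons (.rel (nat_lit 402671616)) (.cons (.br (nat_lit 5) (.cons (.rel (nat_lit 4362078594)) (.cons (.rel (nat_lit 4362600960)) (.cons (.rel (nat_lit 8858371152)) (.cons (.rel (nat_lit 4362081600)) (.cons (.rel (nat_lit 4362081600)) (.cons (.rel (nat_lit 8858386464)) (.cons (.rel (nat_lit 4831870992)) .nil)))))))) (.cons (.rel (nat_lit 335581440)) .nil)))))) (.cons (.br (nat_lit 1) (.cons (.rel (nat_lit 302006277)) (.cons (.br (nat_lit 2) (.cons (.rel (nat_lit 86507520)) (.cons (.rel (nat_lit 86507520)) (.cons (.rel (nat_lit 84967428)) (.cons (.rel (nat_lit 402653280)) (.cons (.rel (nat_lit 335839233)) .nil)))))) (.cons (.br (nat_lit 2) (.cons (.rel (nat_lit 83890497)) (.cons (.rel (nat_lit 83890497)) (.cons (.rel (nat_lit 83951940)) (.cons (.rel (nat_lit 402653280)) (.cons (.rel (nat_lit 335839233)) .nil)))))) (.cons (.br (nat_lit 2) (.cons (.rel (nat_lit 83887488)) (.cons (.rel (nat_lit 86507520)) (.cons (.rel (nat_lit 83887488)) (.cons (.rel (nat_lit 402653280)) (.cons (.rel (nat_lit 335839233)) .nil)))))) .nil))))) .nil)))) .leaf))))) (nat_lit 5036737063566069) (.br (nat_lit 4) (.cons (.br (nat_lit 1) (.cons (.rel (nat_lit 1090782273)) (.cons (.rel (nat_lit 1090524480)) (.cons (.rel (nat_lit 1091043840)) (.cons (.rel (nat_lit 1090539792)) .nil))))) (.cons (.br (nat_lit 3) (.cons (.rel (nat_lit 2415984648)) (.cons (.br (nat_lit 5) (.cons (.rel (nat_lit 5639503872)) (.cons (.rel (nat_lit 9663676440)) (.cons (.rel (nat_lit 5368840464)) (.cons (.rel (nat_lit 5368718592)) (.cons (.rel (nat_lit 5369037828)) .nil)))))) (.cons (.rel (nat_lit 2415935508)) .nil)))) .nil))) (.node (.node (.node (.node (.node (.node .leaf (nat_lit 5036737063566569) (.br (nat_lit 4) (.cons (.br (nat_lit 1) (.cons (.rel (nat_lit 1090782273)) (.cons (.rel (nat_lit 1090524480)) (.cons (.rel (nat_lit 1090539792)) .nil)))) (.cons (.br (nat_lit 1) (.cons (.br (nat_lit 6) (.cons (.rel (nat_lit 19327354368)) (.cons (.rel (nat_lit 18254135556)) (.cons (.rel (nat_lit 35433482496)) (.cons (.rel (nat_lit 19328401665)) (.cons (.rel (nat_lit 17196655617)) (.cons (.rel (nat_lit 34393292865)) .nil))))))) (.cons (.rel (nat_lit 1090588932)) (.cons (.rel (nat_lit 1090588932)) .nil)))) .nil))) .leaf) (nat_lit 5036737063674166) (.br (nat_lit 3) (.cons (.br (nat_lit 1) (.cons (.rel (nat_lit 302057472)) (.cons (.rel (nat_lit 553780224)) (.cons (.rel (nat_lit 301989960)) (.cons (.br (nat_lit 2) (.cons (.rel (nat_lit 83890497)) (.cons (.rel (nat_lit 402658308)) (.cons (.rel (nat_lit 402658308)) (.cons (.rel (nat_lit 83887488)) .nil))))) .nil))))) (.cons (.br (nat_lit 2) (.cons (.br (nat_lit 1) (.cons (.rel (nat_lit 301995024)) (.cons (.rel (nat_lit 285213984)) (.cons (.rel (nat_lit 86507520)) (.cons (.rel (nat_lit 83890497)) .nil))))) (.cons (.rel (nat_lit 402653280)) (.cons (.rel (nat_lit 402671616)) (.cons (.rel (nat_lit 402653280)) .nil))))) (.cons (.br (nat_lit 1) (.cons (.br (nat_lit 2) (.cons (.rel (nat_lit 402653280)) (.cons (.rel (nat_lit 83887488)) (.cons (.rel (nat_lit 169082880)) (.cons (.rel (nat_lit 86507520)) .nil))))) (.cons (.rel (nat_lit 553717776)) (.cons (.rel (nat_lit 302006277)) (.cons (.br (nat_lit 2) (.cons (.rel (nat_lit 402653280)) (.cons (.rel (nat_lit 83887488)) (.cons (.rel (nat_lit 83887488)) (.cons (.rel (nat_lit 83887488)) .nil))))) .nil))))) .nil)))) .leaf) (nat_lit 5036737063674666) (.br (nat_lit 1) (.cons (.br (nat_lit 4) (.cons (.rel (nat_lit 1090588932)) (.cons (.rel (nat_lit 1090588932)) .nil))) (.cons (.br (nat_lit 4) (.cons (.rel (nat_lit 1090527489)) (.cons (.rel (nat_lit 1107298308)) .nil))) .nil))) (.node .leaf (nat_lit 5036737063675166) (.br (nat_lit 4) (.cons (.br (nat_lit 1) (.cons (.rel (nat_lit 1090588932)) (.cons (.rel (nat_lit 1107298308)) .nil))) .nil)) .leaf)) (nat_lit 5036737065357569) (.br (nat_lit 4) (.cons (.br (nat_lit 1) (.cons (.rel (nat_lit 1090785282)) (.cons (.rel (nat_lit 1090524480)) (.cons (.rel (nat_lit 1090539792)) .nil)))) (.cons (.br (nat_lit 5) (.cons (.rel (nat_lit 9663696960)) (.cons (.rel (nat_lit 5370282240)) (.cons (.rel (nat_lit 5368840464)) (.cons (.rel (nat_lit 5368718592)) (.cons (.rel (nat_lit 5368975380)) .nil)))))) .nil))) (.node (.node (.node .leaf (nat_lit 5036737065358069) (.br (nat_lit 3) (.cons (.br (nat_lit 1) (.cons (.rel (nat_lit 301989960)) (.cons (.rel (nat_lit 301989960)) (.cons (.rel (nat_lit 302057472)) (.cons (.br (nat_lit 2) (.cons (.rel (nat_lit 402658308)) (.cons (.rel (nat_lit 335545608)) (.cons (.rel (nat_lit 86507520)) (.cons (.rel (nat_lit 402658308)) (.cons (.rel (nat_lit 335822916)) (.cons (.rel (nat_lit 86507520)) .nil))))))) (.cons (.rel (nat_lit 553780224)) (.cons (.rel (nat_lit 302057472)) .nil))))))) (.cons (.br (nat_lit 2) (.cons (.rel (nat_lit 402671616)) (.cons (.rel (nat_lit 335581440)) (.cons (.rel (nat_lit 402653280)) (.cons (.rel (nat_lit 402671616)) (.cons (.rel (nat_lit 335877120)) (.cons (.br (nat_lit 5) (.cons (.rel (nat_lit 8858371152)) (.cons (.rel (nat_lit 4362081600)) (.cons (.rel (nat_lit 4362081600)) (.cons (.rel (nat_lit 8858386464)) (.cons (.rel (nat_lit 4831870992)) (.cons (.rel (nat_lit 4362084609)) (.cons (.rel (nat_lit 4362084609)) .nil)))))))) .nil))))))) (.cons (.br (nat_lit 1) (.cons (.rel (nat_lit 302006277)) (.cons (.rel (nat_lit 286261281)) (.cons (.br (nat_lit 2) (.cons (.rel (nat_lit 83890497)) (.cons (.rel (nat_lit 335839233)) (.cons (.rel (nat_lit 83890497)) (.cons (.rel (nat_lit 83951940)) (.cons (.rel (nat_lit 335814672)) (.cons (.rel (nat_lit 402653280)) .nil))))))) (.cons (.br (nat_lit 2) (.cons (.rel (nat_lit 169082880)) (.cons (.rel (nat_lit 335839233)) (.cons (.rel (nat_lit 86507520)) (.cons (.rel (nat_lit 169082880)) (.cons (.rel (nat_lit 335814672)) (.cons (.rel (nat_lit 402653280)) .nil))))))) (.cons (.rel (nat_lit 553717776)) (.cons (.br (nat_lit 2) (.cons (.rel (nat_lit 83887488)) (.cons (.rel (nat_lit 335839233)) (.cons (.rel (nat_lit 84148290)) (.cons (.rel (nat_lit 83887488)) (.cons (.rel (nat_lit 335814672)) (.cons (.rel (nat_lit 402653280)) .nil))))))) .nil))))))) .nil)))) .leaf) (nat_lit 5036737065358569) (.br (nat_lit 4) (.cons (.br (nat_lit 1) (.cons (.rel (nat_lit 1090785282)) (.cons (.rel (nat_lit 2164326528)) (.cons (.rel (nat_lit 1091043840)) (.cons (.rel (nat_lit 1090524480)) (.cons (.rel (nat_lit 1090539792)) .nil)))))) (.cons (.br (nat_lit 5) (.cons (.rel (nat_lit 5368975380)) (.cons (.rel (nat_lit 5368718592)) (.cons (.rel (nat_lit 5368975380)) (.cons (.rel (nat_lit 5370282240)) (.cons (.rel (nat_lit 6442598400)) .nil)))))) .nil))) .leaf) (nat_lit 5036737065466166) (.br (nat_lit 4) (.cons (.br (nat_lit 1) (.cons (.rel (nat_lit 1090588932)) (.cons (.rel (nat_lit 1107298308)) .nil))) .nil)) (.node .leaf (nat_lit 5036737065466666) (.br (nat_lit 0) (.cons (.br (nat_lit 1) (.cons (.rel (nat_lit 25166100)) (.cons (.rel (nat_lit 20975697)) (.cons (.rel (nat_lit 41947140)) .nil)))) (.cons (.br (nat_lit 1) (.cons (.rel (nat_lit 20988000)) (.cons (.rel (nat_lit 39845889)) (.cons (.rel (nat_lit 21006336)) .nil)))) (.cons (.br (nat_lit 1) (.cons (.rel (nat_lit 21037140)) (.cons (.rel (nat_lit 20972688)) (.cons (.rel (nat_lit 20979720)) .nil)))) .nil)))) .leaf))) (nat_lit 5036737065467166) (.br (nat_lit 1) (.cons (.br (nat_lit 4) (.cons (.rel (nat_lit 1090527489)) (.cons (.rel (nat_lit 1090588932)) .nil))) (.cons (.br (nat_lit 4) (.cons (.rel (nat_lit 1090588932)) (.cons (.rel (nat_lit 1107298308)) .nil))) .nil))) (.node (.node (.node (.node .leaf (nat_lit 5036737066381569) (.br (nat_lit 4) (.cons (.br (nat_lit 1) (.cons (.rel (nat_lit 1091568768)) (.cons (.rel (nat_lit 1090524480)) (.cons (.rel (nat_lit 1090524480)) (.cons (.rel (nat_lit 1090539792)) (.cons (.rel (nat_lit 1091584080)) .nil)))))) (.cons (.br (nat_lit 3) (.cons (.rel (nat_lit 2415984648)) (.cons (.br (nat_lit 0) (.cons (.rel (nat_lit 2155877376)) (.cons (.rel (nat_lit 2155877376)) (.cons (.rel (nat_lit 1346376192)) (.cons (.rel (nat_lit 2152267776)) (.cons (.rel (nat_lit 1614808320)) (.cons (.rel (nat_lit 2155877376)) .nil))))))) (.cons (.rel (nat_lit 2415935508)) .nil)))) .nil))) .leaf) (nat_lit 5036737066382069) (.br (nat_lit 4) (.cons (.br (nat_lit 1) (.cons (.rel (nat_lit 1091571777)) (.cons (.rel (nat_lit 1090524480)) (.cons (.rel (nat_lit 1090539792)) .nil)))) (.cons (.br (nat_lit 1) (.cons (.br (nat_lit 6) (.cons (.rel (nat_lit 19327354368)) (.cons (.rel (nat_lit 35433482496)) (.cons (.rel (nat_lit 35433482496)) (.cons (.rel (nat_lit 34393292865)) (.cons (.rel (nat_lit 17196655617)) (.cons (.rel (nat_lit 18254135556)) .nil))))))) (.cons (.rel (nat_lit 1090588932)) (.cons (.rel (nat_lit 1090588932)) .nil)))) .nil))) .leaf) (nat_lit 5036737066382569) (.br (nat_lit 3) (.cons (.br (nat_lit 1) (.cons (.rel (nat_lit 301989960)) (.cons (.rel (nat_lit 302057472)) (.cons (.rel (nat_lit 302057472)) (.cons (.br (nat_lit 4) (.cons (.rel (nat_lit 1090781268)) (.cons (.rel (nat_lit 1342324992)) (.cons (.rel (nat_lit 2415984648)) (.cons (.rel (nat_lit 1090797585)) (.cons (.rel (nat_lit 2164326528)) .nil)))))) (.cons (.rel (nat_lit 553780224)) (.cons (.rel (nat_lit 302057472)) .nil))))))) (.cons (.br (nat_lit 2) (.cons (.rel (nat_lit 402671616)) (.cons (.rel (nat_lit 402653280)) (.cons (.rel (nat_lit 402671616)) (.cons (.rel (nat_lit 335877120)) (.cons (.br (nat_lit 1) (.cons (.rel (nat_lit 86507520)) (.cons (.rel (nat_lit 301995024)) (.cons (.rel (nat_lit 301995024)) (.cons (.rel (nat_lit 86507520)) (.cons (.rel (nat_lit 285213984)) (.cons (.rel (nat_lit 301995024)) .nil))))))) .nil)))))) (.cons (.br (nat_lit 2) (.cons (.br (nat_lit 4) (.cons (.rel (nat_lit 1140851076)) (.cons (.rel (nat_lit 1342177572)) (.cons (.rel (nat_lit 2415935508)) (.cons (.rel (nat_lit 1140851076)) (.cons (.rel (nat_lit 2216689920)) .nil)))))) (.cons (.br (nat_lit 4) (.cons (.rel (nat_lit 1409290272)) (.cons (.rel (nat_lit 1342177572)) (.cons (.rel (nat_lit 2415935508)) (.cons (.rel (nat_lit 2214594561)) (.cons (.rel (nat_lit 1409290272)) .nil)))))) (.cons (.br (nat_lit 4) (.cons (.rel (nat_lit 1141117956)) (.cons (.rel (nat_lit 1342177572)) (.cons (.rel (nat_lit 2415935508)) (.cons (.rel (nat_lit 1140867393)) (.cons (.rel (nat_lit 1140983040)) .nil)))))) (.cons (.rel (nat_lit 335814672)) (.cons (.rel (nat_lit 402653280)) .nil)))))) .nil)))) (.node .leaf (nat_lit 5036737066490166) (.br (nat_lit 1) (.cons (.br (nat_lit 4) (.cons (.rel (nat_lit 1090588932)) (.cons (.rel (nat_lit 1090785282)) .nil))) (.cons (.br (nat_lit 4) (.cons (.rel (nat_lit 1107298308)) (.cons (.rel (nat_lit 1090539792)) .nil))) .nil))) .leaf)) (nat_lit 5036737066490666) (.br (nat_lit 4) (.cons (.br (nat_lit 1) (.cons (.rel (nat_lit 1090588932)) (.cons (.rel (nat_lit 1107298308)) .nil))) .nil)) (.node (.node .leaf (nat_lit 5036737066491166) (.br (nat_lit 3) (.cons (.br (nat_lit 1) (.cons (.br (nat_lit 5) (.cons (.rel (nat_lit 4329570816)) (.cons (.rel (nat_lit 4312006728)) (.cons (.rel (nat_lit 4328521749)) .nil)))) (.cons (.rel (nat_lit 302057472)) (.cons (.br (nat_lit 0) (.cons (.rel (nat_lit 20988000)) (.cons (.rel (nat_lit 20972688)) (.cons (.rel (nat_lit 21037140)) (.cons (.rel (nat_lit 25167105)) .nil))))) (.cons (.rel (nat_lit 301989960)) .nil))))) (.cons (.br (nat_lit 2) (.cons (.br (nat_lit 5) (.cons (.rel (nat_lit 8724414720)) (.cons (.rel (nat_lit 8858371152)) (.cons (.rel (nat_lit 4362339393)) .nil)))) (.cons (.rel (nat_lit 402653280)) (.cons (.rel (nat_lit 402671616)) (.cons (.rel (nat_lit 335581440)) (.cons (.rel (nat_lit 402653280)) .nil)))))) (.cons (.br (nat_lit 5) (.cons (.br (nat_lit 0) (.cons (.rel (nat_lit 4299166800)) (.cons (.rel (nat_lit 276824400)) (.cons (.rel (nat_lit 4299169809)) (.cons (.rel (nat_lit 4299229248)) .nil))))) (.cons (.rel (nat_lit 8858374161)) (.cons (.br (nat_lit 0) (.cons (.rel (nat_lit 4299169809)) (.cons (.rel (nat_lit 276824400)) (.cons (.rel (nat_lit 4299229248)) (.cons (.rel (nat_lit 4299166800)) .nil))))) .nil)))) .nil)))) .leaf) (nat_lit 5044251159181569) (.br (nat_lit 3) (.cons (.br (nat_lit 1) (.cons (.rel (nat_lit 301989960)) (.cons (.br (nat_lit 0) (.cons (.rel (nat_lit 20979720)) (.cons (.rel (nat_lit 20972688)) (.cons (.rel (nat_lit 20979720)) (.cons (.rel (nat_lit 20975697)) (.cons (.rel (nat_lit 41947140)) (.cons (.rel (nat_lit 20972688)) .nil))))))) (.cons (.br (nat_lit 0) (.cons (.rel (nat_lit 289669392)) (.cons (.rel (nat_lit 26214402)) (.cons (.rel (nat_lit 21299712)) (.cons (.rel (nat_lit 38273088)) (.cons (.rel (nat_lit 25428096)) (.cons (.rel (nat_lit 39845889)) .nil))))))) (.cons (.rel (nat_lit 285348096)) (.cons (.rel (nat_lit 301995024)) (.cons (.rel (nat_lit 301995024)) (.cons (.rel (nat_lit 285348096)) (.cons (.br (nat_lit 0) (.cons (.rel (nat_lit 41947140)) (.cons (.rel (nat_lit 20975697)) (.cons (.rel (nat_lit 21299712)) (.cons (.rel (nat_lit 41947140)) (.cons (.rel (nat_lit 43254048)) (.cons (.rel (nat_lit 20972688)) .nil))))))) .nil))))))))) (.cons (.br (nat_lit 1) (.cons (.rel (nat_lit 302006277)) (.cons (.rel (nat_lit 301995024)) (.cons (.br (nat_lit 0) (.cons (.rel (nat_lit 290521344)) (.cons (.rel (nat_lit 26214402)) (.cons (.rel (nat_lit 21299712)) (.cons (.rel (nat_lit 38273088)) (.cons (.rel (nat_lit 289669392)) (.cons (.rel (nat_lit 39845889)) .nil))))))) (.cons (.rel (nat_lit 285213984)) (.cons (.br (nat_lit 0) (.cons (.rel (nat_lit 43254048)) (.cons (.rel (nat_lit 20972688)) (.cons (.rel (nat_lit 41947140)) (.cons (.rel (nat_lit 20975697)) (.cons (.rel (nat_lit 21299712)) (.cons (.rel (nat_lit 41947140)) .nil))))))) (.cons (.br (nat_lit 0) (.cons (.rel (nat_lit 41947140)) (.cons (.rel (nat_lit 20972688)) (.cons (.rel (nat_lit 20979720)) (.cons (.rel (nat_lit 20972688)) (.cons (.rel (nat_lit 20979720)) (.cons (.rel (nat_lit 20975697)) .nil))))))) (.cons (.rel (nat_lit 285213984)) (.cons (.rel (nat_lit 301995024)) .nil))))))))) (.cons (.br (nat_lit 0) (.cons (.br (nat_lit 1) (.cons (.rel (nat_lit 41947140)) (.cons (.rel (nat_lit 20979720)) (.cons (.rel (nat_lit 306450432)) (.cons (.rel (nat_lit 290521344)) (.cons (.rel (nat_lit 43254048)) (.cons (.rel (nat_lit 41947140)) (.cons (.rel (nat_lit 285605889)) (.cons (.rel (nat_lit 41947140)) .nil))))))))) (.cons (.br (nat_lit 1) (.cons (.rel (nat_lit 25167105)) (.cons (.rel (nat_lit 20972688)) (.cons (.rel (nat_lit 26214402)) (.cons (.rel (nat_lit 43254048)) (.cons (.rel (nat_lit 20972688)) (.cons (.rel (nat_lit 20972688)) (.cons (.rel (nat_lit 285605889)) (.cons (.rel (nat_lit 20975697)) .nil))))))))) (.cons (.br (nat_lit 5) (.cons (.rel (nat_lit 4299161736)) (.cons (.rel (nat_lit 4299161736)) (.cons (.rel (nat_lit 4299161736)) (.cons (.rel (nat_lit 4299686160)) (.cons (.rel (nat_lit 4303622208)) (.cons (.rel (nat_lit 8598323268)) (.cons (.rel (nat_lit 4563501312)) (.cons (.rel (nat_lit 4569759744)) (.cons (.rel (nat_lit 8598339585)) .nil)))))))))) (.cons (.br (nat_lit 1) (.cons (.rel (nat_lit 39845889)) (.cons (.rel (nat_lit 20975697)) (.cons (.rel (nat_lit 25428096)) (.cons (.rel (nat_lit 41947140)) (.cons (.rel (nat_lit 20975697)) (.cons (.rel (nat_lit 20972688)) (.cons (.rel (nat_lit 285605889)) (.cons (.rel (nat_lit 41947140)) .nil))))))))) (.cons (.br (nat_lit 1) (.cons (.rel (nat_lit 20979720)) (.cons (.rel (nat_lit 41947140)) (.cons (.rel (nat_lit 290521344)) (.cons (.rel (nat_lit 21299712)) (.cons (.rel (nat_lit 21299712)) (.cons (.rel (nat_lit 20979720)) (.cons (.rel (nat_lit 285605889)) (.cons (.rel (nat_lit 43254048)) .nil))))))))) (.cons (.br (nat_lit 1) (.cons (.rel (nat_lit 293605440)) (.cons (.rel (nat_lit 20972688)) (.cons (.rel (nat_lit 39845889)) (.cons (.rel (nat_lit 21299712)) (.cons (.rel (nat_lit 41947140)) (.cons (.rel (nat_lit 20975697)) (.cons (.rel (nat_lit 285605889)) (.cons (.rel (nat_lit 20972688)) .nil))))))))) .nil))))))) .nil)))) (.node .leaf (nat_lit 5044251159182069) (.br (nat_lit 3) (.cons (.br (nat_lit 5) (.cons (.rel (nat_lit 4563501312)) (.cons (.br (nat_lit 6) (.cons (.rel (nat_lit 21474837633)) (.cons (.rel (nat_lit 42949678080)) (.cons (.rel (nat_lit 34628436000)) (.cons (.rel (nat_lit 21474840642)) (.cons (.rel (nat_lit 21743276544)) (.cons (.rel (nat_lit 42949678080)) (.cons (.rel (nat_lit 17450402064)) (.cons (.rel (nat_lit 42949678080)) .nil))))))))) (.cons (.br (nat_lit 6) (.cons (.rel (nat_lit 42949678080)) (.cons (.rel (nat_lit 42949678080)) (.cons (.rel (nat_lit 34628436000)) (.cons (.rel (nat_lit 21743276544)) (.cons (.rel (nat_lit 22011708672)) (.cons (.rel (nat_lit 42949678080)) (.cons (.rel (nat_lit 17450402064)) (.cons (.rel (nat_lit 21743276544)) .nil))))))))) (.cons (.rel (nat_lit 4563501312)) (.cons (.rel (nat_lit 4563734544)) (.cons (.br (nat_lit 6) (.cons (.rel (nat_lit 21474840642)) (.cons (.rel (nat_lit 21743276544)) (.cons (.rel (nat_lit 34628436000)) (.cons (.rel (nat_lit 42949678080)) (.cons (.rel (nat_lit 42949678080)) (.cons (.rel (nat_lit 21474837633)) (.cons (.rel (nat_lit 17450402064)) (.cons (.rel (nat_lit 42949678080)) .nil))))))))) (.cons (.rel (nat_lit 4563403032)) (.cons (.rel (nat_lit 4563403032)) (.cons (.rel (nat_lit 8858386464)) .nil)))))))))) (.cons (.br (nat_lit 5) (.cons (.rel (nat_lit 4563403032)) (.cons (.br (nat_lit 0) (.cons (.rel (nat_lit 8598323268)) (.cons (.rel (nat_lit 4303622208)) (.cons (.rel (nat_lit 9131003904)) (.cons (.rel (nat_lit 277086216)) (.cons (.rel (nat_lit 4299161736)) (.cons (.rel (nat_lit 8594130432)) (.cons (.rel (nat_lit 4299178053)) (.cons (.rel (nat_lit 9131003904)) .nil))))))))) (.cons (.rel (nat_lit 8858386464)) (.cons (.rel (nat_lit 4563403032)) (.cons (.rel (nat_lit 4563665028)) (.cons (.br (nat_lit 0) (.cons (.rel (nat_lit 4299161736)) (.cons (.rel (nat_lit 9131003904)) (.cons (.rel (nat_lit 4299686160)) (.cons (.rel (nat_lit 277086216)) (.cons (.rel (nat_lit 4299178053)) (.cons (.rel (nat_lit 4303622208)) (.cons (.rel (nat_lit 8598323268)) (.cons (.rel (nat_lit 8594130432)) .nil))))))))) (.cons (.br (nat_lit 0) (.cons (.rel (nat_lit 8594130432)) (.cons (.rel (nat_lit 8594130432)) (.cons (.rel (nat_lit 4299161736)) (.cons (.rel (nat_lit 277086216)) (.cons (.rel (nat_lit 4299182112)) (.cons (.rel (nat_lit 4299166800)) (.cons (.rel (nat_lit 4303622208)) (.cons (.rel (nat_lit 4299169809)) .nil))))))))) (.cons (.br (nat_lit 0) (.cons (.rel (nat_lit 4299161736)) (.cons (.rel (nat_lit 4299169809)) (.cons (.rel (nat_lit 4299194370)) (.cons (.rel (nat_lit 277086216)) (.cons (.rel (nat_lit 8598323268)) (.cons (.rel (nat_lit 8594130432)) (.cons (.rel (nat_lit 8598323268)) (.cons (.rel (nat_lit 4299166800)) .nil))))))))) (.cons (.br (nat_lit 6) (.cons (.rel (nat_lit 42949678080)) (.cons (.rel (nat_lit 22011708672)) (.cons (.rel (nat_lit 34628436000)) (.cons (.rel (nat_lit 42949678080)) (.cons (.rel (nat_lit 42949678080)) (.cons (.rel (nat_lit 21743276544)) (.cons (.rel (nat_lit 21474906144)) (.cons (.rel (nat_lit 21743276544)) .nil))))))))) .nil)))))))))) (.cons (.br (nat_lit 5) (.cons (.br (nat_lit 0) (.cons (.rel (nat_lit 8598323268)) (.cons (.rel (nat_lit 4299166800)) (.cons (.rel (nat_lit 273170688)) (.cons (.rel (nat_lit 4299169809)) (.cons (.rel (nat_lit 4299161736)) (.cons (.rel (nat_lit 4299169809)) (.cons (.rel (nat_lit 8598323268)) (.cons (.rel (nat_lit 8594130432)) .nil))))))))) (.cons (.br (nat_lit 6) (.cons (.rel (nat_lit 21474837633)) (.cons (.rel (nat_lit 42949678080)) (.cons (.rel (nat_lit 21474837633)) (.cons (.rel (nat_lit 21474840642)) (.cons (.rel (nat_lit 38655000576)) (.cons (.rel (nat_lit 42949678080)) (.cons (.rel (nat_lit 17448894720)) (.cons (.rel (nat_lit 42949678080)) .nil))))))))) (.cons (.br (nat_lit 0) (.cons (.br (nat_lit 6) (.cons (.rel (nat_lit 42949678080)) (.cons (.rel (nat_lit 42949678080)) (.cons (.rel (nat_lit 38655000576)) (.cons (.rel (nat_lit 25770344448)) (.cons (.rel (nat_lit 17185374273)) (.cons (.rel (nat_lit 42949678080)) (.cons (.rel (nat_lit 17448894720)) (.cons (.rel (nat_lit 17184072192)) .nil))))))))) (.cons (.rel (nat_lit 4571799552)) (.cons (.rel (nat_lit 273170688)) (.cons (.rel (nat_lit 8598339585)) (.cons (.rel (nat_lit 4299686160)) (.cons (.rel (nat_lit 9131003904)) (.cons (.rel (nat_lit 8862826560)) (.cons (.rel (nat_lit 8594130432)) .nil))))))))) (.cons (.br (nat_lit 1) (.cons (.rel (nat_lit 4329570816)) (.cons (.rel (nat_lit 4328521749)) (.cons (.rel (nat_lit 8623849728)) (.cons (.rel (nat_lit 4312006728)) (.cons (.rel (nat_lit 4312023045)) (.cons (.rel (nat_lit 4311765252)) (.cons (.rel (nat_lit 4580245506)) (.cons (.rel (nat_lit 8606712852)) (.cons (.rel (nat_lit 4311765252)) (.cons (.rel (nat_lit 285348096)) (.cons (.rel (nat_lit 4311744912)) .nil)))))))))))) (.cons (.rel (nat_lit 4563681345)) (.cons (.br (nat_lit 4) (.cons (.rel (nat_lit 1342324992)) (.cons (.rel (nat_lit 1342247232)) (.cons (.rel (nat_lit 5905580544)) (.cons (.rel (nat_lit 5905580544)) (.cons (.rel (nat_lit 1342324992)) (.cons (.rel (nat_lit 5637144642)) (.cons (.rel (nat_lit 5905580544)) (.cons (.rel (nat_lit 1342324992)) (.cons (.rel (nat_lit 1342324992)) (.cons (.rel (nat_lit 5905580544)) (.cons (.rel (nat_lit 1342324992)) (.cons (.rel (nat_lit 1342247232)) (.cons (.rel (nat_lit 5368718592)) (.cons (.rel (nat_lit 1342505025)) .nil))))))))))))))) (.cons (.rel (nat_lit 4563501312)) (.cons (.rel (nat_lit 4563501312)) (.cons (.br (nat_lit 0) (.cons (.rel (nat_lit 4303358208)) (.cons (.rel (nat_lit 9131003904)) (.cons (.rel (nat_lit 273170688)) (.cons (.rel (nat_lit 8598323268)) (.cons (.rel (nat_lit 8862826560)) (.cons (.rel (nat_lit 8594130432)) (.cons (.rel (nat_lit 4299686160)) (.cons (.rel (nat_lit 4571799552)) .nil))))))))) .nil)))))))))) .nil)))) .leaf)))) (nat_lit 5044251159182569) (.br (nat_lit 3) (.cons (.br (nat_lit 5) (.cons (.br (nat_lit 6) (.cons (.rel (nat_lit 42949678080)) (.cons (.rel (nat_lit 17450402064)) (.cons (.rel (nat_lit 42949678080)) (.cons (.rel (nat_lit 21743276544)) (.cons (.rel (nat_lit 22011708672)) (.cons (.rel (nat_lit 42949678080)) (.cons (.rel (nat_lit 21743276544)) .nil)))))))) (.cons (.rel (nat_lit 4563501312)) (.cons (.br (nat_lit 0) (.cons (.rel (nat_lit 4299161736)) (.cons (.rel (nat_lit 4304405505)) (.cons (.rel (nat_lit 4299178053)) (.cons (.rel (nat_lit 4303622208)) (.cons (.rel (nat_lit 274727172)) (.cons (.rel (nat_lit 8598323268)) (.cons (.rel (nat_lit 8594130432)) .nil)))))))) (.cons (.rel (nat_lit 4563403032)) (.cons (.rel (nat_lit 4563403032)) (.cons (.rel (nat_lit 8858386464)) .nil))))))) (.cons (.br (nat_lit 5) (.cons (.rel (nat_lit 8858386464)) (.cons (.rel (nat_lit 4563403032)) (.cons (.br (nat_lit 0) (.cons (.rel (nat_lit 4299161736)) (.cons (.rel (nat_lit 4304405505)) (.cons (.rel (nat_lit 4299178053)) (.cons (.rel (nat_lit 4303622208)) (.cons (.rel (nat_lit 273170688)) (.cons (.rel (nat_lit 8598323268)) (.cons (.rel (nat_lit 8594130432)) .nil)))))))) (.cons (.br (nat_lit 0) (.cons (.rel (nat_lit 8594130432)) (.cons (.rel (nat_lit 8594130432)) (.cons (.rel (nat_lit 4299182112)) (.cons (.rel (nat_lit 4299166800)) (.cons (.rel (nat_lit 273170688)) (.cons (.rel (nat_lit 4303622208)) (.cons (.rel (nat_lit 4299169809)) .nil)))))))) (.cons (.br (nat_lit 0) (.cons (.rel (nat_lit 4299161736)) (.cons (.rel (nat_lit 4299169809)) (.cons (.rel (nat_lit 8598323268)) (.cons (.rel (nat_lit 8594130432)) (.cons (.rel (nat_lit 273170688)) (.cons (.rel (nat_lit 8598323268)) (.cons (.rel (nat_lit 4299166800)) .nil)))))))) (.cons (.br (nat_lit 6) (.cons (.rel (nat_lit 42949678080)) (.cons (.rel (nat_lit 17448894720)) (.cons (.rel (nat_lit 22011708672)) (.cons (.rel (nat_lit 42949678080)) (.cons (.rel (nat_lit 42949678080)) (.cons (.rel (nat_lit 21743276544)) (.cons (.rel (nat_lit 21743276544)) .nil)))))))) .nil))))))) (.cons (.br (nat_lit 5) (.cons (.rel (nat_lit 4563423552)) (.cons (.rel (nat_lit 4563404037)) (.cons (.rel (nat_lit 4563501312)) (.cons (.rel (nat_lit 4563423552)) (.cons (.rel (nat_lit 4563403032)) (.cons (.rel (nat_lit 4563403032)) .nil))))))) (.cons (.br (nat_lit 5) (.cons (.br (nat_lit 0) (.cons (.rel (nat_lit 4300538112)) (.cons (.rel (nat_lit 4571799552)) (.cons (.rel (nat_lit 4299686160)) (.cons (.rel (nat_lit 9131003904)) (.cons (.rel (nat_lit 4303358208)) (.cons (.rel (nat_lit 4569759744)) (.cons (.rel (nat_lit 8594130432)) .nil)))))))) (.cons (.br (nat_lit 0) (.cons (.rel (nat_lit 4304405505)) (.cons (.rel (nat_lit 4299169809)) (.cons (.rel (nat_lit 4303622208)) (.cons (.rel (nat_lit 8594130432)) (.cons (.rel (nat_lit 4299161736)) (.cons (.rel (nat_lit 4299182112)) (.cons (.rel (nat_lit 4299166800)) .nil)))))))) (.cons (.br (nat_lit 0) (.cons (.rel (nat_lit 4299161736)) (.cons (.rel (nat_lit 4304405505)) (.cons (.rel (nat_lit 4299178053)) (.cons (.rel (nat_lit 4303622208)) (.cons (.rel (nat_lit 4569759744)) (.cons (.rel (nat_lit 8598323268)) (.cons (.rel (nat_lit 8594130432)) .nil)))))))) (.cons (.rel (nat_lit 4563501312)) (.cons (.rel (nat_lit 4563501312)) (.cons (.br (nat_lit 0) (.cons (.rel (nat_lit 4569759744)) (.cons (.rel (nat_lit 9131003904)) (.cons (.rel (nat_lit 4300538112)) (.cons (.rel (nat_lit 8594130432)) (.cons (.rel (nat_lit 8594130432)) (.cons (.rel (nat_lit 4299686160)) (.cons (.rel (nat_lit 4571799552)) .nil)))))))) .nil))))))) .nil))))) (.node (.node (.node (.node (.node .leaf (nat_lit 5044251159290166) (.br (nat_lit 0) (.cons (.br (nat_lit 6) (.cons (.rel (nat_lit 34368128322)) (.cons (.rel (nat_lit 34368398400)) (.cons (.rel (nat_lit 17184342288)) (.cons (.rel (nat_lit 17184072192)) .nil))))) (.cons (.br (nat_lit 6) (.cons (.rel (nat_lit 34368398400)) (.cons (.rel (nat_lit 17184072192)) (.cons (.rel (nat_lit 17184342288)) (.cons (.rel (nat_lit 34368128322)) .nil))))) (.cons (.br (nat_lit 6) (.cons (.rel (nat_lit 17184072192)) (.cons (.rel (nat_lit 34368128322)) (.cons (.rel (nat_lit 17185194240)) (.cons (.rel (nat_lit 34368398400)) .nil))))) .nil)))) .leaf) (nat_lit 5044251159290666) (.br (nat_lit 3) (.cons (.br (nat_lit 1) (.cons (.rel (nat_lit 301995024)) (.cons (.rel (nat_lit 285213984)) (.cons (.br (nat_lit 2) (.cons (.rel (nat_lit 335814672)) (.cons (.rel (nat_lit 335814672)) (.cons (.rel (nat_lit 86507520)) (.cons (.rel (nat_lit 402658308)) (.cons (.rel (nat_lit 335581440)) (.cons (.rel (nat_lit 83890497)) (.cons (.rel (nat_lit 402653280)) (.cons (.rel (nat_lit 84934785)) .nil))))))))) (.cons (.br (nat_lit 2) (.cons (.rel (nat_lit 335814672)) (.cons (.rel (nat_lit 335814672)) (.cons (.rel (nat_lit 84148290)) (.cons (.rel (nat_lit 402658308)) (.cons (.rel (nat_lit 335581440)) (.cons (.rel (nat_lit 83887488)) (.cons (.rel (nat_lit 402653280)) (.cons (.rel (nat_lit 169082880)) .nil))))))))) (.cons (.rel (nat_lit 285348096)) (.cons (.rel (nat_lit 285483012)) (.cons (.rel (nat_lit 301989960)) (.cons (.br (nat_lit 2) (.cons (.rel (nat_lit 335814672)) (.cons (.rel (nat_lit 335814672)) (.cons (.rel (nat_lit 83887488)) (.cons (.rel (nat_lit 402658308)) (.cons (.rel (nat_lit 335581440)) (.cons (.rel (nat_lit 84148290)) (.cons (.rel (nat_lit 402653280)) (.cons (.rel (nat_lit 83890497)) .nil))))))))) .nil))))))))) (.cons (.br (nat_lit 5) (.cons (.rel (nat_lit 8858374161)) (.cons (.rel (nat_lit 4563403032)) (.cons (.rel (nat_lit 8858374161)) (.cons (.rel (nat_lit 4563404037)) (.cons (.rel (nat_lit 4564452384)) (.cons (.rel (nat_lit 4563665028)) (.cons (.br (nat_lit 2) (.cons (.rel (nat_lit 335544594)) (.cons (.rel (nat_lit 335544594)) (.cons (.rel (nat_lit 8724414720)) (.cons (.rel (nat_lit 4362081600)) (.cons (.rel (nat_lit 335545608)) (.cons (.rel (nat_lit 4362339393)) (.cons (.rel (nat_lit 402718737)) (.cons (.rel (nat_lit 402658308)) .nil))))))))) (.cons (.br (nat_lit 2) (.cons (.rel (nat_lit 335544594)) (.cons (.rel (nat_lit 335544594)) (.cons (.rel (nat_lit 8993636352)) (.cons (.rel (nat_lit 4362084609)) (.cons (.rel (nat_lit 335545608)) (.cons (.rel (nat_lit 4362081600)) (.cons (.rel (nat_lit 402718737)) (.cons (.rel (nat_lit 402658308)) .nil))))))))) (.cons (.rel (nat_lit 4563665028)) (.cons (.rel (nat_lit 4563403032)) .nil))))))))))) (.cons (.br (nat_lit 1) (.cons (.br (nat_lit 2) (.cons (.rel (nat_lit 604045377)) (.cons (.rel (nat_lit 604045377)) (.cons (.rel (nat_lit 84148290)) (.cons (.rel (nat_lit 86507520)) (.cons (.rel (nat_lit 86507520)) (.cons (.rel (nat_lit 83890497)) (.cons (.rel (nat_lit 84148290)) (.cons (.rel (nat_lit 86507520)) .nil))))))))) (.cons (.rel (nat_lit 285348096)) (.cons (.br (nat_lit 2) (.cons (.rel (nat_lit 604045377)) (.cons (.rel (nat_lit 604045377)) (.cons (.rel (nat_lit 86507520)) (.cons (.rel (nat_lit 84148290)) (.cons (.rel (nat_lit 84148290)) (.cons (.rel (nat_lit 83890497)) (.cons (.rel (nat_lit 84164616)) (.cons (.rel (nat_lit 84934785)) .nil))))))))) (.cons (.br (nat_lit 2) (.cons (.rel (nat_lit 604045377)) (.cons (.rel (nat_lit 604045377)) (.cons (.rel (nat_lit 84148290)) (.cons (.rel (nat_lit 86507520)) (.cons (.rel (nat_lit 169082880)) (.cons (.rel (nat_lit 83887488)) (.cons (.rel (nat_lit 84213792)) (.cons (.rel (nat_lit 169082880)) .nil))))))))) (.cons (.rel (nat_lit 553664577)) (.cons (.rel (nat_lit 553664577)) (.cons (.br (nat_lit 2) (.cons (.rel (nat_lit 604045377)) (.cons (.rel (nat_lit 604045377)) (.cons (.rel (nat_lit 86507520)) (.cons (.rel (nat_lit 84934785)) (.cons (.rel (nat_lit 83887488)) (.cons (.rel (nat_lit 83890497)) (.cons (.rel (nat_lit 86507520)) (.cons (.rel (nat_lit 84148290)) .nil))))))))) (.cons (.br (nat_lit 2) (.cons (.rel (nat_lit 604045377)) (.cons (.rel (nat_lit 604045377)) (.cons (.rel (nat_lit 83887488)) (.cons (.rel (nat_lit 83887488)) (.cons (.rel (nat_lit 83887488)) (.cons (.rel (nat_lit 84148290)) (.cons (.rel (nat_lit 84154368)) (.cons (.rel (nat_lit 83890497)) .nil))))))))) .nil))))))))) .nil)))) .leaf) (nat_lit 5044251159291166) (.br (nat_lit 0) (.cons (.br (nat_lit 6) (.cons (.rel (nat_lit 34368128322)) (.cons (.rel (nat_lit 34368398400)) (.cons (.rel (nat_lit 17184072192)) .nil)))) (.cons (.br (nat_lit 6) (.cons (.rel (nat_lit 34368398400)) (.cons (.rel (nat_lit 17184072192)) (.cons (.rel (nat_lit 34368128322)) .nil)))) (.cons (.br (nat_lit 6) (.cons (.rel (nat_lit 17184072192)) (.cons (.rel (nat_lit 34368128322)) (.cons (.rel (nat_lit 34368398400)) .nil)))) .nil)))) (.node .leaf (nat_lit 5044251160973569) (.br (nat_lit 3) (.cons (.br (nat_lit 5) (.cons (.br (nat_lit 1) (.cons (.rel (nat_lit 301989960)) (.cons (.rel (nat_lit 4328521749)) (.cons (.rel (nat_lit 4312023045)) (.cons (.rel (nat_lit 4580184072)) (.cons (.rel (nat_lit 301995024)) (.cons (.rel (nat_lit 301995024)) (.cons (.rel (nat_lit 8606797824)) .nil)))))))) (.cons (.rel (nat_lit 4563501312)) (.cons (.rel (nat_lit 4563403032)) (.cons (.br (nat_lit 1) (.cons (.rel (nat_lit 301989960)) (.cons (.rel (nat_lit 4865654784)) (.cons (.rel (nat_lit 8608809216)) (.cons (.rel (nat_lit 4312809540)) (.cons (.rel (nat_lit 301995024)) (.cons (.rel (nat_lit 301995024)) (.cons (.rel (nat_lit 4328522754)) .nil)))))))) (.cons (.rel (nat_lit 8858386464)) .nil)))))) (.cons (.br (nat_lit 5) (.cons (.rel (nat_lit 8858386464)) (.cons (.rel (nat_lit 4563403032)) (.cons (.br (nat_lit 0) (.cons (.rel (nat_lit 8594130432)) (.cons (.rel (nat_lit 8594130432)) (.cons (.rel (nat_lit 4299182112)) (.cons (.rel (nat_lit 4299166800)) (.cons (.rel (nat_lit 4304405505)) (.cons (.rel (nat_lit 4299169809)) (.cons (.rel (nat_lit 273170688)) .nil)))))))) (.cons (.br (nat_lit 0) (.cons (.rel (nat_lit 4299178053)) (.cons (.rel (nat_lit 8594130432)) (.cons (.rel (nat_lit 8598323268)) (.cons (.rel (nat_lit 9131003904)) (.cons (.rel (nat_lit 4299161736)) (.cons (.rel (nat_lit 4304405505)) (.cons (.rel (nat_lit 273170688)) .nil)))))))) (.cons (.br (nat_lit 2) (.cons (.rel (nat_lit 402718737)) (.cons (.rel (nat_lit 4362338388)) (.cons (.rel (nat_lit 4362600960)) (.cons (.rel (nat_lit 402658308)) (.cons (.rel (nat_lit 4362096912)) (.cons (.rel (nat_lit 402658308)) (.cons (.rel (nat_lit 8657044512)) .nil)))))))) .nil)))))) (.cons (.br (nat_lit 5) (.cons (.br (nat_lit 0) (.cons (.rel (nat_lit 4569759744)) (.cons (.rel (nat_lit 4571799552)) (.cons (.rel (nat_lit 4300538112)) (.cons (.rel (nat_lit 9131003904)) (.cons (.rel (nat_lit 4299686160)) (.cons (.rel (nat_lit 8594130432)) (.cons (.rel (nat_lit 4299182112)) .nil)))))))) (.cons (.br (nat_lit 0) (.cons (.rel (nat_lit 4303699968)) (.cons (.rel (nat_lit 4299169809)) (.cons (.rel (nat_lit 4304405505)) (.cons (.rel (nat_lit 8594130432)) (.cons (.rel (nat_lit 4299182112)) (.cons (.rel (nat_lit 4299166800)) (.cons (.rel (nat_lit 4299178053)) .nil)))))))) (.cons (.rel (nat_lit 4563501312)) (.cons (.br (nat_lit 4) (.cons (.rel (nat_lit 5905580544)) (.cons (.rel (nat_lit 1343262720)) (.cons (.rel (nat_lit 1342324992)) (.cons (.rel (nat_lit 5905580544)) (.cons (.rel (nat_lit 5368840464)) (.cons (.rel (nat_lit 9663696960)) (.cons (.rel (nat_lit 1342324992)) (.cons (.rel (nat_lit 1342247232)) .nil))))))))) (.cons (.br (nat_lit 4) (.cons (.rel (nat_lit 5368840464)) (.cons (.rel (nat_lit 1343262720)) (.cons (.rel (nat_lit 1342324992)) (.cons (.rel (nat_lit 5905580544)) (.cons (.rel (nat_lit 5368718592)) (.cons (.rel (nat_lit 5368718592)) (.cons (.rel (nat_lit 1342324992)) (.cons (.rel (nat_lit 1342247232)) .nil))))))))) .nil)))))) .nil)))) .leaf)) (nat_lit 5044251160974069) (.br (nat_lit 3) (.cons (.br (nat_lit 1) (.cons (.rel (nat_lit 301989960)) (.cons (.br (nat_lit 0) (.cons (.rel (nat_lit 20979720)) (.cons (.rel (nat_lit 20972688)) (.cons (.rel (nat_lit 20979720)) (.cons (.rel (nat_lit 20975697)) (.cons (.rel (nat_lit 41947140)) (.cons (.rel (nat_lit 20972688)) .nil))))))) (.cons (.rel (nat_lit 301995024)) (.cons (.rel (nat_lit 553648260)) (.cons (.rel (nat_lit 301995024)) (.cons (.rel (nat_lit 285348096)) (.cons (.br (nat_lit 0) (.cons (.rel (nat_lit 26214402)) (.cons (.rel (nat_lit 38273088)) (.cons (.rel (nat_lit 289669392)) (.cons (.rel (nat_lit 39845889)) (.cons (.rel (nat_lit 21299712)) (.cons (.rel (nat_lit 26214402)) .nil))))))) (.cons (.rel (nat_lit 285213984)) (.cons (.br (nat_lit 0) (.cons (.rel (nat_lit 41947140)) (.cons (.rel (nat_lit 20975697)) (.cons (.rel (nat_lit 43254048)) (.cons (.rel (nat_lit 41947140)) (.cons (.rel (nat_lit 21299712)) (.cons (.rel (nat_lit 20972688)) .nil))))))) .nil)))))))))) (.cons (.br (nat_lit 1) (.cons (.rel (nat_lit 302006277)) (.cons (.rel (nat_lit 301995024)) (.cons (.br (nat_lit 0) (.cons (.rel (nat_lit 21299712)) (.cons (.rel (nat_lit 20972688)) (.cons (.rel (nat_lit 41947140)) (.cons (.rel (nat_lit 20975697)) (.cons (.rel (nat_lit 43254048)) (.cons (.rel (nat_lit 41947140)) .nil))))))) (.cons (.rel (nat_lit 285212934)) (.cons (.br (nat_lit 0) (.cons (.rel (nat_lit 41947140)) (.cons (.rel (nat_lit 20972688)) (.cons (.rel (nat_lit 20979720)) (.cons (.rel (nat_lit 20972688)) (.cons (.rel (nat_lit 20979720)) (.cons (.rel (nat_lit 20975697)) .nil))))))) (.cons (.rel (nat_lit 285212934)) (.cons (.br (nat_lit 0) (.cons (.rel (nat_lit 289669392)) (.cons (.rel (nat_lit 38273088)) (.cons (.rel (nat_lit 290521344)) (.cons (.rel (nat_lit 39845889)) (.cons (.rel (nat_lit 21299712)) (.cons (.rel (nat_lit 26214402)) .nil))))))) (.cons (.br (nat_lit 0) (.cons (.rel (nat_lit 21299712)) (.cons (.rel (nat_lit 41947140)) (.cons (.rel (nat_lit 289669392)) (.cons (.rel (nat_lit 43254048)) (.cons (.rel (nat_lit 290521344)) (.cons (.rel (nat_lit 21299712)) .nil))))))) (.cons (.rel (nat_lit 301995024)) .nil)))))))))) (.cons (.br (nat_lit 0) (.cons (.br (nat_lit 1) (.cons (.rel (nat_lit 41947140)) (.cons (.rel (nat_lit 20979720)) (.cons (.rel (nat_lit 21299712)) (.cons (.rel (nat_lit 553664577)) (.cons (.rel (nat_lit 41947140)) (.cons (.rel (nat_lit 553664577)) (.cons (.rel (nat_lit 290521344)) (.cons (.rel (nat_lit 285348096)) (.cons (.rel (nat_lit 41947140)) .nil)))))))))) (.cons (.br (nat_lit 1) (.cons (.rel (nat_lit 25167105)) (.cons (.rel (nat_lit 20972688)) (.cons (.rel (nat_lit 20972688)) (.cons (.rel (nat_lit 553664577)) (.cons (.rel (nat_lit 20972688)) (.cons (.rel (nat_lit 553664577)) (.cons (.rel (nat_lit 25428096)) (.cons (.rel (nat_lit 285348096)) (.cons (.rel (nat_lit 20975697)) .nil)))))))))) (.cons (.br (nat_lit 1) (.cons (.rel (nat_lit 25428096)) (.cons (.rel (nat_lit 20979720)) (.cons (.rel (nat_lit 41947140)) (.cons (.rel (nat_lit 553664577)) (.cons (.rel (nat_lit 20979720)) (.cons (.rel (nat_lit 553664577)) (.cons (.rel (nat_lit 25428096)) (.cons (.rel (nat_lit 285348096)) (.cons (.rel (nat_lit 43254048)) .nil)))))))))) (.cons (.br (nat_lit 1) (.cons (.rel (nat_lit 38273088)) (.cons (.rel (nat_lit 20975697)) (.cons (.rel (nat_lit 20975697)) (.cons (.rel (nat_lit 553664577)) (.cons (.rel (nat_lit 20972688)) (.cons (.rel (nat_lit 553664577)) (.cons (.rel (nat_lit 39845889)) (.cons (.rel (nat_lit 285348096)) (.cons (.rel (nat_lit 41947140)) .nil)))))))))) (.cons (.br (nat_lit 1) (.cons (.rel (nat_lit 20979720)) (.cons (.rel (nat_lit 41947140)) (.cons (.rel (nat_lit 43254048)) (.cons (.rel (nat_lit 553664577)) (.cons (.rel (nat_lit 20979720)) (.cons (.rel (nat_lit 553664577)) (.cons (.rel (nat_lit 21299712)) (.cons (.rel (nat_lit 285348096)) (.cons (.rel (nat_lit 21299712)) .nil)))))))))) (.cons (.br (nat_lit 1) (.cons (.rel (nat_lit 39845889)) (.cons (.rel (nat_lit 20972688)) (.cons (.rel (nat_lit 41947140)) (.cons (.rel (nat_lit 553664577)) (.cons (.rel (nat_lit 20975697)) (.cons (.rel (nat_lit 553664577)) (.cons (.rel (nat_lit 26214402)) (.cons (.rel (nat_lit 285348096)) (.cons (.rel (nat_lit 20972688)) .nil)))))))))) .nil))))))) .nil)))) (.node (.node .leaf (nat_lit 5044251160974569) (.br (nat_lit 3) (.cons (.br (nat_lit 5) (.cons (.br (nat_lit 6) (.cons (.rel (nat_lit 42949678080)) (.cons (.rel (nat_lit 17450402064)) (.cons (.rel (nat_lit 42949678080)) (.cons (.rel (nat_lit 34628436000)) (.cons (.rel (nat_lit 17448390672)) (.cons (.rel (nat_lit 21743276544)) (.cons (.rel (nat_lit 22011708672)) (.cons (.rel (nat_lit 42949678080)) (.cons (.rel (nat_lit 21743276544)) .nil)))))))))) (.cons (.rel (nat_lit 4563501312)) (.cons (.br (nat_lit 6) (.cons (.rel (nat_lit 21474840642)) (.cons (.rel (nat_lit 17450402064)) (.cons (.rel (nat_lit 21743276544)) (.cons (.rel (nat_lit 34628436000)) (.cons (.rel (nat_lit 17448390672)) (.cons (.rel (nat_lit 42949678080)) (.cons (.rel (nat_lit 42949678080)) (.cons (.rel (nat_lit 21474837633)) (.cons (.rel (nat_lit 42949678080)) .nil)))))))))) (.cons (.rel (nat_lit 4563403032)) (.cons (.rel (nat_lit 4563403032)) (.cons (.br (nat_lit 6) (.cons (.rel (nat_lit 42949678080)) (.cons (.rel (nat_lit 17450402064)) (.cons (.rel (nat_lit 42949678080)) (.cons (.rel (nat_lit 34628436000)) (.cons (.rel (nat_lit 17448390672)) (.cons (.rel (nat_lit 21474837633)) (.cons (.rel (nat_lit 42949678080)) (.cons (.rel (nat_lit 21474840642)) (.cons (.rel (nat_lit 21743276544)) .nil)))))))))) (.cons (.rel (nat_lit 8858386464)) (.cons (.rel (nat_lit 4563734544)) (.cons (.rel (nat_lit 4563501312)) .nil)))))))))) (.cons (.br (nat_lit 5) (.cons (.rel (nat_lit 8858386464)) (.cons (.rel (nat_lit 4563403032)) (.cons (.br (nat_lit 6) (.cons (.rel (nat_lit 21474840642)) (.cons (.rel (nat_lit 21743276544)) (.cons (.rel (nat_lit 21743276544)) (.cons (.rel (nat_lit 34628436000)) (.cons (.rel (nat_lit 17448304650)) (.cons (.rel (nat_lit 42949678080)) (.cons (.rel (nat_lit 42949678080)) (.cons (.rel (nat_lit 21474837633)) (.cons (.rel (nat_lit 42949678080)) .nil)))))))))) (.cons (.br (nat_lit 6) (.cons (.rel (nat_lit 21743276544)) (.cons (.rel (nat_lit 21474852945)) (.cons (.rel (nat_lit 21474840642)) (.cons (.rel (nat_lit 34628436000)) (.cons (.rel (nat_lit 17448304650)) (.cons (.rel (nat_lit 22011708672)) (.cons (.rel (nat_lit 42949678080)) (.cons (.rel (nat_lit 42949678080)) (.cons (.rel (nat_lit 21474837633)) .nil)))))))))) (.cons (.br (nat_lit 0) (.cons (.rel (nat_lit 4299161736)) (.cons (.rel (nat_lit 4299169809)) (.cons (.rel (nat_lit 8598323268)) (.cons (.rel (nat_lit 8594130432)) (.cons (.rel (nat_lit 4299161736)) (.cons (.rel (nat_lit 277086216)) (.cons (.rel (nat_lit 272630808)) (.cons (.rel (nat_lit 8598323268)) (.cons (.rel (nat_lit 4299166800)) .nil)))))))))) (.cons (.br (nat_lit 6) (.cons (.rel (nat_lit 42949678080)) (.cons (.rel (nat_lit 22011708672)) (.cons (.rel (nat_lit 42949678080)) (.cons (.rel (nat_lit 34628436000)) (.cons (.rel (nat_lit 17448304650)) (.cons (.rel (nat_lit 21474837633)) (.cons (.rel (nat_lit 42949678080)) (.cons (.rel (nat_lit 21474840642)) (.cons (.rel (nat_lit 21743276544)) .nil)))))))))) (.cons (.br (nat_lit 6) (.cons (.rel (nat_lit 42949678080)) (.cons (.rel (nat_lit 21474846720)) (.cons (.rel (nat_lit 22011708672)) (.cons (.rel (nat_lit 34628436000)) (.cons (.rel (nat_lit 17448304650)) (.cons (.rel (nat_lit 42949678080)) (.cons (.rel (nat_lit 42949678080)) (.cons (.rel (nat_lit 21743276544)) (.cons (.rel (nat_lit 21743276544)) .nil)))))))))) (.cons (.rel (nat_lit 4563665028)) (.cons (.rel (nat_lit 4563403032)) .nil)))))))))) (.cons (.br (nat_lit 5) (.cons (.br (nat_lit 0) (.cons (.rel (nat_lit 8595177729)) (.cons (.rel (nat_lit 4571799552)) (.cons (.rel (nat_lit 4303358208)) (.cons (.rel (nat_lit 9131003904)) (.cons (.rel (nat_lit 273170688)) (.cons (.rel (nat_lit 8598323268)) (.cons (.rel (nat_lit 545259537)) (.cons (.rel (nat_lit 4299686160)) (.cons (.rel (nat_lit 8594130432)) .nil)))))))))) (.cons (.br (nat_lit 0) (.cons (.rel (nat_lit 4303699968)) (.cons (.rel (nat_lit 4299169809)) (.cons (.rel (nat_lit 9131003904)) (.cons (.rel (nat_lit 8594130432)) (.cons (.rel (nat_lit 273170688)) (.cons (.rel (nat_lit 4299161736)) (.cons (.rel (nat_lit 545259537)) (.cons (.rel (nat_lit 4299182112)) (.cons (.rel (nat_lit 4299166800)) .nil)))))))))) (.cons (.br (nat_lit 0) (.cons (.rel (nat_lit 4299161736)) (.cons (.rel (nat_lit 4304405505)) (.cons (.rel (nat_lit 4299178053)) (.cons (.rel (nat_lit 9131003904)) (.cons (.rel (nat_lit 273170688)) (.cons (.rel (nat_lit 4299161736)) (.cons (.rel (nat_lit 545259537)) (.cons (.rel (nat_lit 8598323268)) (.cons (.rel (nat_lit 8594130432)) .nil)))))))))) (.cons (.rel (nat_lit 4563501312)) (.cons (.rel (nat_lit 4563501312)) (.cons (.br (nat_lit 0) (.cons (.rel (nat_lit 4299178053)) (.cons (.rel (nat_lit 8594130432)) (.cons (.rel (nat_lit 8598323268)) (.cons (.rel (nat_lit 4304405505)) (.cons (.rel (nat_lit 273170688)) (.cons (.rel (nat_lit 4299178053)) (.cons (.rel (nat_lit 545259537)) (.cons (.rel (nat_lit 4299161736)) (.cons (.rel (nat_lit 9131003904)) .nil)))))))))) (.cons (.br (nat_lit 0) (.cons (.rel (nat_lit 4299686160)) (.cons (.rel (nat_lit 9131003904)) (.cons (.rel (nat_lit 4571799552)) (.cons (.rel (nat_lit 8594130432)) (.cons (.rel (nat_lit 273170688)) (.cons (.rel (nat_lit 8598339585)) (.cons (.rel (nat_lit 545259537)) (.cons (.rel (nat_lit 8595177729)) (.cons (.rel (nat_lit 4571799552)) .nil)))))))))) (.cons (.rel (nat_lit 4563681345)) (.cons (.br (nat_lit 0) (.cons (.rel (nat_lit 4299161736)) (.cons (.rel (nat_lit 8598323268)) (.cons (.rel (nat_lit 4299178053)) (.cons (.rel (nat_lit 4299686160)) (.cons (.rel (nat_lit 273170688)) (.cons (.rel (nat_lit 4299178053)) (.cons (.rel (nat_lit 545259537)) (.cons (.rel (nat_lit 4299182112)) (.cons (.rel (nat_lit 4299182112)) .nil)))))))))) .nil)))))))))) .nil)))) .leaf) (nat_lit 5044251161082166) (.br (nat_lit 0) (.cons (.br (nat_lit 6) (.cons (.rel (nat_lit 34368128322)) (.cons (.rel (nat_lit 17184342288)) (.cons (.rel (nat_lit 17184072192)) .nil)))) (.cons (.br (nat_lit 6) (.cons (.rel (nat_lit 17184342288)) (.cons (.rel (nat_lit 17184072192)) (.cons (.rel (nat_lit 34368128322)) .nil)))) (.cons (.br (nat_lit 6) (.cons (.rel (nat_lit 17184072192)) (.cons (.rel (nat_lit 34368128322)) (.cons (.rel (nat_lit 17184342288)) .nil)))) .nil)))) (.node .leaf (nat_lit 5044251161082666) (.br (nat_lit 3) (.cons (.br (nat_lit 2) (.cons (.br (nat_lit 6) (.cons (.rel (nat_lit 17515675908)) (.cons (.rel (nat_lit 17246986272)) (.cons (.rel (nat_lit 34427109504)) .nil)))) (.cons (.rel (nat_lit 402658308)) (.cons (.rel (nat_lit 335581440)) (.cons (.rel (nat_lit 402653280)) (.cons (.br (nat_lit 6) (.cons (.rel (nat_lit 17246982213)) (.cons (.rel (nat_lit 17246998530)) (.cons (.rel (nat_lit 17246979204)) .nil)))) .nil)))))) (.cons (.br (nat_lit 1) (.cons (.br (nat_lit 6) (.cons (.rel (nat_lit 17196646530)) (.cons (.rel (nat_lit 17196777489)) (.cons (.rel (nat_lit 17196652608)) .nil)))) (.cons (.br (nat_lit 6) (.cons (.rel (nat_lit 17196655617)) (.cons (.rel (nat_lit 17196652608)) (.cons (.rel (nat_lit 17196652608)) .nil)))) (.cons (.rel (nat_lit 301995024)) (.cons (.rel (nat_lit 285540432)) (.cons (.rel (nat_lit 302006277)) .nil)))))) (.cons (.br (nat_lit 6) (.cons (.br (nat_lit 0) (.cons (.rel (nat_lit 34368128322)) (.cons (.rel (nat_lit 17184342288)) (.cons (.rel (nat_lit 545259537)) (.cons (.rel (nat_lit 17184072192)) .nil))))) (.cons (.br (nat_lit 0) (.cons (.rel (nat_lit 17184342288)) (.cons (.rel (nat_lit 17184072192)) (.cons (.rel (nat_lit 545259537)) (.cons (.rel (nat_lit 34368128322)) .nil))))) (.cons (.br (nat_lit 0) (.cons (.rel (nat_lit 17184072192)) (.cons (.rel (nat_lit 34368128322)) (.cons (.rel (nat_lit 545259537)) (.cons (.rel (nat_lit 17184342288)) .nil))))) .nil)))) .nil)))) .leaf))) (nat_lit 5044251161083166) (.br (nat_lit 3) (.cons (.br (nat_lit 6) (.cons (.br (nat_lit 0) (.cons (.rel (nat_lit 34368128322)) (.cons (.rel (nat_lit 17184342288)) (.cons (.rel (nat_lit 545259537)) (.cons (.rel (nat_lit 277086216)) (.cons (.rel (nat_lit 277086216)) (.cons (.rel (nat_lit 17184072192)) (.cons (.rel (nat_lit 17185374273)) .nil)))))))) (.cons (.rel (nat_lit 34628436000)) (.cons (.rel (nat_lit 34628436000)) (.cons (.rel (nat_lit 34896609285)) (.cons (.br (nat_lit 0) (.cons (.rel (nat_lit 17184342288)) (.cons (.rel (nat_lit 17184072192)) (.cons (.rel (nat_lit 545259537)) (.cons (.rel (nat_lit 277086216)) (.cons (.rel (nat_lit 277086216)) (.cons (.rel (nat_lit 34368128322)) (.cons (.rel (nat_lit 17184587778)) .nil)))))))) (.cons (.rel (nat_lit 34896609285)) (.cons (.br (nat_lit 0) (.cons (.rel (nat_lit 17184072192)) (.cons (.rel (nat_lit 34368128322)) (.cons (.rel (nat_lit 545259537)) (.cons (.rel (nat_lit 277086216)) (.cons (.rel (nat_lit 277086216)) (.cons (.rel (nat_lit 17184342288)) (.cons (.rel (nat_lit 17184072192)) .nil)))))))) .nil)))))))) (.cons (.br (nat_lit 4) (.cons (.br (nat_lit 0) (.cons (.rel (nat_lit 2155877376)) (.cons (.rel (nat_lit 1077937281)) (.cons (.rel (nat_lit 276889857)) (.cons (.rel (nat_lit 277086216)) (.cons (.rel (nat_lit 277086216)) (.cons (.rel (nat_lit 1077940290)) (.cons (.rel (nat_lit 276824400)) .nil)))))))) (.cons (.rel (nat_lit 1343226888)) (.cons (.rel (nat_lit 2415923205)) (.cons (.rel (nat_lit 2415923205)) (.cons (.rel (nat_lit 1342178577)) (.cons (.br (nat_lit 0) (.cons (.rel (nat_lit 1077940290)) (.cons (.rel (nat_lit 2155877376)) (.cons (.rel (nat_lit 276889857)) (.cons (.rel (nat_lit 277086216)) (.cons (.rel (nat_lit 277086216)) (.cons (.rel (nat_lit 1077937281)) (.cons (.rel (nat_lit 276824400)) .nil)))))))) (.cons (.rel (nat_lit 1342178577)) (.cons (.rel (nat_lit 1342177572)) (.cons (.rel (nat_lit 1342178577)) .nil)))))))))) (.cons (.br (nat_lit 4) (.cons (.br (nat_lit 6) (.cons (.rel (nat_lit 18253611168)) (.cons (.rel (nat_lit 35433824256)) (.cons (.rel (nat_lit 18253611168)) (.cons (.rel (nat_lit 17448894720)) (.cons (.rel (nat_lit 36507222096)) (.cons (.rel (nat_lit 36507222096)) (.cons (.rel (nat_lit 18253742082)) .nil)))))))) (.cons (.br (nat_lit 0) (.cons (.rel (nat_lit 1082523648)) (.cons (.rel (nat_lit 1077956616)) (.cons (.rel (nat_lit 2156135937)) (.cons (.rel (nat_lit 1082130693)) (.cons (.rel (nat_lit 1082130693)) (.cons (.rel (nat_lit 1077956616)) (.cons (.rel (nat_lit 545259537)) .nil)))))))) (.cons (.rel (nat_lit 1342324992)) (.cons (.br (nat_lit 6) (.cons (.rel (nat_lit 18253631508)) (.cons (.rel (nat_lit 18253611168)) (.cons (.rel (nat_lit 36507222096)) (.cons (.rel (nat_lit 17448894720)) (.cons (.rel (nat_lit 35433746496)) (.cons (.rel (nat_lit 18253616196)) (.cons (.rel (nat_lit 35433824256)) .nil)))))))) (.cons (.rel (nat_lit 1342247232)) (.cons (.br (nat_lit 0) (.cons (.rel (nat_lit 1077940290)) (.cons (.rel (nat_lit 2155877376)) (.cons (.rel (nat_lit 1350582336)) (.cons (.rel (nat_lit 1077946368)) (.cons (.rel (nat_lit 1077946368)) (.cons (.rel (nat_lit 1077937281)) (.cons (.rel (nat_lit 545259537)) .nil)))))))) (.cons (.rel (nat_lit 1342247232)) (.cons (.br (nat_lit 0) (.cons (.rel (nat_lit 1077936276)) (.cons (.rel (nat_lit 1077936276)) (.cons (.rel (nat_lit 1077946368)) (.cons (.rel (nat_lit 1350582336)) (.cons (.rel (nat_lit 1077936276)) (.cons (.rel (nat_lit 1077952593)) (.cons (.rel (nat_lit 545259537)) .nil)))))))) (.cons (.rel (nat_lit 1342247232)) .nil)))))))))) .nil)))) (.node (.node (.node (.node .leaf (nat_lit 5044251161997569) (.br (nat_lit 3) (.cons (.br (nat_lit 5) (.cons (.rel (nat_lit 4563501312)) (.cons (.br (nat_lit 0) (.cons (.rel (nat_lit 8598323268)) (.cons (.rel (nat_lit 4304405505)) (.cons (.rel (nat_lit 545259537)) (.cons (.rel (nat_lit 4299161736)) (.cons (.rel (nat_lit 8594130432)) (.cons (.rel (nat_lit 277086216)) (.cons (.rel (nat_lit 4299178053)) (.cons (.rel (nat_lit 4303622208)) (.cons (.rel (nat_lit 274727172)) .nil)))))))))) (.cons (.br (nat_lit 6) (.cons (.rel (nat_lit 42949678080)) (.cons (.rel (nat_lit 42949678080)) (.cons (.rel (nat_lit 17448390672)) (.cons (.rel (nat_lit 21743276544)) (.cons (.rel (nat_lit 17450402064)) (.cons (.rel (nat_lit 22011708672)) (.cons (.rel (nat_lit 42949678080)) (.cons (.rel (nat_lit 21743276544)) (.cons (.rel (nat_lit 34628436000)) .nil)))))))))) (.cons (.rel (nat_lit 4563501312)) (.cons (.rel (nat_lit 4563403032)) (.cons (.rel (nat_lit 4563734544)) (.cons (.br (nat_lit 0) (.cons (.rel (nat_lit 4299178053)) (.cons (.rel (nat_lit 8594130432)) (.cons (.rel (nat_lit 545259537)) (.cons (.rel (nat_lit 8598323268)) (.cons (.rel (nat_lit 4303622208)) (.cons (.rel (nat_lit 277086216)) (.cons (.rel (nat_lit 4299161736)) (.cons (.rel (nat_lit 4304405505)) (.cons (.rel (nat_lit 274727172)) .nil)))))))))) (.cons (.rel (nat_lit 8858386464)) .nil))))))))) (.cons (.br (nat_lit 5) (.cons (.rel (nat_lit 4563403032)) (.cons (.br (nat_lit 0) (.cons (.rel (nat_lit 8598323268)) (.cons (.rel (nat_lit 4304405505)) (.cons (.rel (nat_lit 272629794)) (.cons (.rel (nat_lit 4299161736)) (.cons (.rel (nat_lit 8594130432)) (.cons (.rel (nat_lit 277086216)) (.cons (.rel (nat_lit 4299178053)) (.cons (.rel (nat_lit 4303622208)) (.cons (.rel (nat_lit 8594130432)) .nil)))))))))) (.cons (.rel (nat_lit 8858386464)) (.cons (.rel (nat_lit 4563403032)) (.cons (.br (nat_lit 0) (.cons (.rel (nat_lit 8594130432)) (.cons (.rel (nat_lit 8594130432)) (.cons (.rel (nat_lit 272629794)) (.cons (.rel (nat_lit 4299182112)) (.cons (.rel (nat_lit 4299166800)) (.cons (.rel (nat_lit 277086216)) (.cons (.rel (nat_lit 4303699968)) (.cons (.rel (nat_lit 4299169809)) (.cons (.rel (nat_lit 8598323268)) .nil)))))))))) (.cons (.rel (nat_lit 4563665028)) (.cons (.br (nat_lit 0) (.cons (.rel (nat_lit 4299178053)) (.cons (.rel (nat_lit 8594130432)) (.cons (.rel (nat_lit 272629794)) (.cons (.rel (nat_lit 8598323268)) (.cons (.rel (nat_lit 4303622208)) (.cons (.rel (nat_lit 277086216)) (.cons (.rel (nat_lit 4299161736)) (.cons (.rel (nat_lit 4304405505)) (.cons (.rel (nat_lit 4568907792)) .nil)))))))))) (.cons (.br (nat_lit 6) (.cons (.rel (nat_lit 42949678080)) (.cons (.rel (nat_lit 22011708672)) (.cons (.rel (nat_lit 17448304650)) (.cons (.rel (nat_lit 42949678080)) (.cons (.rel (nat_lit 21474856968)) (.cons (.rel (nat_lit 42949678080)) (.cons (.rel (nat_lit 21743276544)) (.cons (.rel (nat_lit 21743276544)) (.cons (.rel (nat_lit 34628436000)) .nil)))))))))) .nil))))))))) (.cons (.br (nat_lit 5) (.cons (.br (nat_lit 0) (.cons (.rel (nat_lit 8598323268)) (.cons (.rel (nat_lit 4299166800)) (.cons (.rel (nat_lit 272760897)) (.cons (.rel (nat_lit 4299161736)) (.cons (.rel (nat_lit 4299169809)) (.cons (.rel (nat_lit 4299166800)) (.cons (.rel (nat_lit 8598323268)) (.cons (.rel (nat_lit 8594130432)) (.cons (.rel (nat_lit 273170688)) .nil)))))))))) (.cons (.br (nat_lit 0) (.cons (.rel (nat_lit 8598323268)) (.cons (.rel (nat_lit 4304405505)) (.cons (.rel (nat_lit 272760897)) (.cons (.rel (nat_lit 4299161736)) (.cons (.rel (nat_lit 8594130432)) (.cons (.rel (nat_lit 4299161736)) (.cons (.rel (nat_lit 4299178053)) (.cons (.rel (nat_lit 4303622208)) (.cons (.rel (nat_lit 273170688)) .nil)))))))))) (.cons (.br (nat_lit 0) (.cons (.rel (nat_lit 4299686160)) (.cons (.rel (nat_lit 4571799552)) (.cons (.rel (nat_lit 272760897)) (.cons (.rel (nat_lit 4303358208)) (.cons (.rel (nat_lit 9131003904)) (.cons (.rel (nat_lit 8598323268)) (.cons (.rel (nat_lit 8595177729)) (.cons (.rel (nat_lit 8594130432)) (.cons (.rel (nat_lit 273170688)) .nil)))))))))) (.cons (.br (nat_lit 0) (.cons (.rel (nat_lit 4303622208)) (.cons (.rel (nat_lit 4299169809)) (.cons (.rel (nat_lit 272760897)) (.cons (.rel (nat_lit 4303699968)) (.cons (.rel (nat_lit 8594130432)) (.cons (.rel (nat_lit 8598323268)) (.cons (.rel (nat_lit 4299182112)) (.cons (.rel (nat_lit 4299166800)) (.cons (.rel (nat_lit 273170688)) .nil)))))))))) (.cons (.rel (nat_lit 4563501312)) (.cons (.rel (nat_lit 4563681345)) (.cons (.br (nat_lit 0) (.cons (.rel (nat_lit 4299178053)) (.cons (.rel (nat_lit 8594130432)) (.cons (.rel (nat_lit 272760897)) (.cons (.rel (nat_lit 8598323268)) (.cons (.rel (nat_lit 4303622208)) (.cons (.rel (nat_lit 4299194370)) (.cons (.rel (nat_lit 4299161736)) (.cons (.rel (nat_lit 4304405505)) (.cons (.rel (nat_lit 273170688)) .nil)))))))))) (.cons (.br (nat_lit 0) (.cons (.rel (nat_lit 4303358208)) (.cons (.rel (nat_lit 9131003904)) (.cons (.rel (nat_lit 272760897)) (.cons (.rel (nat_lit 4299686160)) (.cons (.rel (nat_lit 8594130432)) (.cons (.rel (nat_lit 8598323268)) (.cons (.rel (nat_lit 8862826560)) (.cons (.rel (nat_lit 4571799552)) (.cons (.rel (nat_lit 273170688)) .nil)))))))))) .nil))))))))) .nil)))) .leaf) (nat_lit 5044251161998069) (.br (nat_lit 3) (.cons (.br (nat_lit 5) (.cons (.rel (nat_lit 4563501312)) (.cons (.br (nat_lit 4) (.cons (.rel (nat_lit 2415935508)) (.cons (.rel (nat_lit 1342177572)) (.cons (.rel (nat_lit 1342324992)) (.cons (.rel (nat_lit 6442450980)) (.cons (.rel (nat_lit 5905580544)) (.cons (.rel (nat_lit 1342177572)) (.cons (.rel (nat_lit 1342324992)) .nil)))))))) (.cons (.br (nat_lit 4) (.cons (.rel (nat_lit 2415935508)) (.cons (.rel (nat_lit 1342177572)) (.cons (.rel (nat_lit 1342324992)) (.cons (.rel (nat_lit 5368742148)) (.cons (.rel (nat_lit 5905580544)) (.cons (.rel (nat_lit 1342177572)) (.cons (.rel (nat_lit 1342324992)) .nil)))))))) (.cons (.rel (nat_lit 4563501312)) (.cons (.rel (nat_lit 4563403032)) (.cons (.rel (nat_lit 8858386464)) .nil))))))) (.cons (.br (nat_lit 5) (.cons (.rel (nat_lit 4563403032)) (.cons (.br (nat_lit 4) (.cons (.rel (nat_lit 5905580544)) (.cons (.rel (nat_lit 2415923205)) (.cons (.rel (nat_lit 1342177572)) (.cons (.rel (nat_lit 2415935508)) (.cons (.rel (nat_lit 5905580544)) (.cons (.rel (nat_lit 5368976385)) (.cons (.rel (nat_lit 1342177572)) .nil)))))))) (.cons (.rel (nat_lit 8858386464)) (.cons (.rel (nat_lit 4563403032)) (.cons (.br (nat_lit 0) (.cons (.rel (nat_lit 8594130432)) (.cons (.rel (nat_lit 8594130432)) (.cons (.rel (nat_lit 273170688)) (.cons (.rel (nat_lit 4299182112)) (.cons (.rel (nat_lit 4299166800)) (.cons (.rel (nat_lit 4303699968)) (.cons (.rel (nat_lit 4299169809)) .nil)))))))) (.cons (.br (nat_lit 4) (.cons (.rel (nat_lit 5368840464)) (.cons (.rel (nat_lit 2415923205)) (.cons (.rel (nat_lit 1342177572)) (.cons (.rel (nat_lit 2415935508)) (.cons (.rel (nat_lit 9663774720)) (.cons (.rel (nat_lit 5637150720)) (.cons (.rel (nat_lit 1342177572)) .nil)))))))) .nil))))))) (.cons (.br (nat_lit 5) (.cons (.br (nat_lit 0) (.cons (.rel (nat_lit 8598323268)) (.cons (.rel (nat_lit 4299166800)) (.cons (.rel (nat_lit 4299178053)) (.cons (.rel (nat_lit 4299161736)) (.cons (.rel (nat_lit 4299169809)) (.cons (.rel (nat_lit 8598323268)) (.cons (.rel (nat_lit 8594130432)) .nil)))))))) (.cons (.br (nat_lit 0) (.cons (.rel (nat_lit 8598323268)) (.cons (.rel (nat_lit 9131003904)) (.cons (.rel (nat_lit 4299686160)) (.cons (.rel (nat_lit 4299161736)) (.cons (.rel (nat_lit 8594130432)) (.cons (.rel (nat_lit 4299178053)) (.cons (.rel (nat_lit 4303622208)) .nil)))))))) (.cons (.br (nat_lit 2) (.cons (.rel (nat_lit 4429258752)) (.cons (.rel (nat_lit 4362600960)) (.cons (.rel (nat_lit 4362600960)) (.cons (.rel (nat_lit 4362338388)) (.cons (.rel (nat_lit 4362096912)) (.cons (.rel (nat_lit 4362096912)) (.cons (.rel (nat_lit 4429258752)) (.cons (.rel (nat_lit 4362096912)) (.cons (.rel (nat_lit 4362096912)) .nil)))))))))) (.cons (.br (nat_lit 0) (.cons (.rel (nat_lit 4303622208)) (.cons (.rel (nat_lit 4299169809)) (.cons (.rel (nat_lit 8598323268)) (.cons (.rel (nat_lit 4303699968)) (.cons (.rel (nat_lit 8594130432)) (.cons (.rel (nat_lit 4299182112)) (.cons (.rel (nat_lit 4299166800)) .nil)))))))) (.cons (.rel (nat_lit 4563501312)) (.cons (.br (nat_lit 0) (.cons (.rel (nat_lit 4300538112)) (.cons (.rel (nat_lit 9131003904)) (.cons (.rel (nat_lit 4299182112)) (.cons (.rel (nat_lit 4299686160)) (.cons (.rel (nat_lit 8594130432)) (.cons (.rel (nat_lit 4569759744)) (.cons (.rel (nat_lit 4571799552)) .nil)))))))) .nil))))))) .nil)))) .leaf) (nat_lit 5044251161998569) (.br (nat_lit 3) (.cons (.br (nat_lit 2) (.cons (.rel (nat_lit 402653280)) (.cons (.rel (nat_lit 402658308)) (.cons (.rel (nat_lit 335581440)) (.cons (.br (nat_lit 0) (.cons (.rel (nat_lit 71335941)) (.cons (.rel (nat_lit 71312385)) (.cons (.rel (nat_lit 71303298)) (.cons (.rel (nat_lit 71309376)) (.cons (.rel (nat_lit 71319624)) (.cons (.rel (nat_lit 71309376)) .nil))))))) (.cons (.rel (nat_lit 402658308)) (.cons (.br (nat_lit 6) (.cons (.rel (nat_lit 17246979204)) (.cons (.rel (nat_lit 17246986272)) (.cons (.rel (nat_lit 17246979204)) (.cons (.rel (nat_lit 34493960208)) (.cons (.rel (nat_lit 17246982213)) (.cons (.rel (nat_lit 17246986272)) .nil))))))) (.cons (.br (nat_lit 1) (.cons (.rel (nat_lit 301989960)) (.cons (.rel (nat_lit 285348096)) (.cons (.rel (nat_lit 84148290)) (.cons (.rel (nat_lit 285213984)) (.cons (.rel (nat_lit 85065744)) (.cons (.rel (nat_lit 301995024)) (.cons (.rel (nat_lit 301995024)) (.cons (.rel (nat_lit 86507520)) .nil))))))))) .nil)))))))) (.cons (.br (nat_lit 0) (.cons (.rel (nat_lit 272630808)) (.cons (.rel (nat_lit 545259537)) (.cons (.rel (nat_lit 545259537)) (.cons (.rel (nat_lit 273170688)) (.cons (.rel (nat_lit 272666640)) (.cons (.rel (nat_lit 272666640)) .nil))))))) (.cons (.br (nat_lit 2) (.cons (.rel (nat_lit 402718737)) (.cons (.br (nat_lit 0) (.cons (.rel (nat_lit 71319624)) (.cons (.rel (nat_lit 71309376)) (.cons (.rel (nat_lit 71335941)) (.cons (.rel (nat_lit 71312385)) (.cons (.rel (nat_lit 71303298)) (.cons (.rel (nat_lit 71309376)) .nil))))))) (.cons (.rel (nat_lit 335545608)) (.cons (.rel (nat_lit 402658308)) (.cons (.br (nat_lit 6) (.cons (.rel (nat_lit 17246982213)) (.cons (.rel (nat_lit 17246986272)) (.cons (.rel (nat_lit 17246979204)) (.cons (.rel (nat_lit 17246986272)) (.cons (.rel (nat_lit 17246979204)) (.cons (.rel (nat_lit 34493960208)) .nil))))))) (.cons (.rel (nat_lit 402658308)) (.cons (.br (nat_lit 6) (.cons (.rel (nat_lit 17316184065)) (.cons (.rel (nat_lit 17516478720)) (.cons (.rel (nat_lit 34427109504)) (.cons (.rel (nat_lit 17247257088)) (.cons (.rel (nat_lit 17314611264)) (.cons (.rel (nat_lit 17515675908)) .nil))))))) .nil)))))))) (.cons (.br (nat_lit 0) (.cons (.br (nat_lit 2) (.cons (.rel (nat_lit 142606401)) (.cons (.rel (nat_lit 71319624)) (.cons (.rel (nat_lit 335839233)) (.cons (.rel (nat_lit 71335941)) (.cons (.rel (nat_lit 71303298)) (.cons (.rel (nat_lit 71303298)) (.cons (.rel (nat_lit 142606401)) .nil)))))))) (.cons (.br (nat_lit 2) (.cons (.rel (nat_lit 142606401)) (.cons (.rel (nat_lit 71309376)) (.cons (.rel (nat_lit 335839233)) (.cons (.rel (nat_lit 71312385)) (.cons (.rel (nat_lit 71312385)) (.cons (.rel (nat_lit 71309376)) (.cons (.rel (nat_lit 142606401)) .nil)))))))) (.cons (.br (nat_lit 1) (.cons (.rel (nat_lit 38273088)) (.cons (.rel (nat_lit 285605889)) (.cons (.rel (nat_lit 290521344)) (.cons (.rel (nat_lit 285348096)) (.cons (.rel (nat_lit 20979720)) (.cons (.rel (nat_lit 41947140)) (.cons (.rel (nat_lit 20979720)) (.cons (.rel (nat_lit 21299712)) .nil))))))))) (.cons (.br (nat_lit 2) (.cons (.rel (nat_lit 71309376)) (.cons (.rel (nat_lit 71312385)) (.cons (.rel (nat_lit 335839233)) (.cons (.rel (nat_lit 71309376)) (.cons (.rel (nat_lit 71309376)) (.cons (.rel (nat_lit 71303298)) (.cons (.rel (nat_lit 142606401)) .nil)))))))) (.cons (.br (nat_lit 1) (.cons (.rel (nat_lit 20979720)) (.cons (.rel (nat_lit 285605889)) (.cons (.rel (nat_lit 26214402)) (.cons (.rel (nat_lit 285348096)) (.cons (.rel (nat_lit 41947140)) (.cons (.rel (nat_lit 21299712)) (.cons (.rel (nat_lit 20979720)) (.cons (.rel (nat_lit 21299712)) .nil))))))))) (.cons (.br (nat_lit 1) (.cons (.rel (nat_lit 38273088)) (.cons (.rel (nat_lit 285605889)) (.cons (.rel (nat_lit 25428096)) (.cons (.rel (nat_lit 285348096)) (.cons (.rel (nat_lit 20972688)) (.cons (.rel (nat_lit 41947140)) (.cons (.rel (nat_lit 20975697)) (.cons (.rel (nat_lit 20972688)) .nil))))))))) .nil))))))) .nil))))) (.node .leaf (nat_lit 5044251162106166) (.br (nat_lit 3) (.cons (.br (nat_lit 0) (.cons (.br (nat_lit 2) (.cons (.rel (nat_lit 335545608)) (.cons (.rel (nat_lit 71368800)) (.cons (.rel (nat_lit 402658308)) (.cons (.rel (nat_lit 402653280)) (.cons (.rel (nat_lit 71311380)) (.cons (.rel (nat_lit 71319624)) (.cons (.rel (nat_lit 335545608)) .nil)))))))) (.cons (.rel (nat_lit 545259537)) (.cons (.br (nat_lit 2) (.cons (.rel (nat_lit 335545608)) (.cons (.rel (nat_lit 71434257)) (.cons (.rel (nat_lit 402658308)) (.cons (.rel (nat_lit 402653280)) (.cons (.rel (nat_lit 71311380)) (.cons (.rel (nat_lit 71303298)) (.cons (.rel (nat_lit 335545608)) .nil)))))))) (.cons (.rel (nat_lit 545259537)) (.cons (.rel (nat_lit 277086216)) (.cons (.rel (nat_lit 277086216)) (.cons (.br (nat_lit 2) (.cons (.rel (nat_lit 335545608)) (.cons (.rel (nat_lit 71303298)) (.cons (.rel (nat_lit 402658308)) (.cons (.rel (nat_lit 402653280)) (.cons (.rel (nat_lit 142606401)) (.cons (.rel (nat_lit 71312385)) (.cons (.rel (nat_lit 335545608)) .nil)))))))) .nil)))))))) (.cons (.br (nat_lit 5) (.cons (.rel (nat_lit 8858374161)) (.cons (.rel (nat_lit 4563403032)) (.cons (.br (nat_lit 0) (.cons (.rel (nat_lit 8598323268)) (.cons (.rel (nat_lit 276889857)) (.cons (.rel (nat_lit 4299161736)) (.cons (.rel (nat_lit 276889857)) (.cons (.rel (nat_lit 277086216)) (.cons (.rel (nat_lit 277086216)) (.cons (.rel (nat_lit 4299178053)) .nil)))))))) (.cons (.rel (nat_lit 8858374161)) (.cons (.rel (nat_lit 4563404037)) (.cons (.rel (nat_lit 4563403032)) (.cons (.rel (nat_lit 4563404037)) (.cons (.br (nat_lit 0) (.cons (.rel (nat_lit 4299161736)) (.cons (.rel (nat_lit 276889857)) (.cons (.rel (nat_lit 4299178053)) (.cons (.rel (nat_lit 276889857)) (.cons (.rel (nat_lit 277086216)) (.cons (.rel (nat_lit 277086216)) (.cons (.rel (nat_lit 8598323268)) .nil)))))))) (.cons (.rel (nat_lit 4563403032)) .nil)))))))))) (.cons (.br (nat_lit 2) (.cons (.rel (nat_lit 335581440)) (.cons (.br (nat_lit 0) (.cons (.rel (nat_lit 71368800)) (.cons (.rel (nat_lit 273170688)) (.cons (.rel (nat_lit 71434257)) (.cons (.rel (nat_lit 71312385)) (.cons (.rel (nat_lit 71303298)) (.cons (.rel (nat_lit 71311380)) (.cons (.rel (nat_lit 71303298)) .nil)))))))) (.cons (.br (nat_lit 0) (.cons (.rel (nat_lit 71312385)) (.cons (.rel (nat_lit 273170688)) (.cons (.rel (nat_lit 71319624)) (.cons (.rel (nat_lit 76547076)) (.cons (.rel (nat_lit 71309376)) (.cons (.rel (nat_lit 71303298)) (.cons (.rel (nat_lit 71303298)) .nil)))))))) (.cons (.br (nat_lit 6) (.cons (.rel (nat_lit 34896609285)) (.cons (.rel (nat_lit 17315136768)) (.cons (.rel (nat_lit 34426847508)) (.cons (.rel (nat_lit 34493960208)) (.cons (.rel (nat_lit 34896609285)) (.cons (.rel (nat_lit 17246986272)) (.cons (.rel (nat_lit 34493960208)) .nil)))))))) (.cons (.br (nat_lit 6) (.cons (.rel (nat_lit 34896609285)) (.cons (.rel (nat_lit 17246982213)) (.cons (.rel (nat_lit 17246986272)) (.cons (.rel (nat_lit 17246986272)) (.cons (.rel (nat_lit 34896609285)) (.cons (.rel (nat_lit 17246979204)) (.cons (.rel (nat_lit 17314611264)) .nil)))))))) (.cons (.br (nat_lit 0) (.cons (.rel (nat_lit 71319624)) (.cons (.rel (nat_lit 273170688)) (.cons (.rel (nat_lit 71303298)) (.cons (.rel (nat_lit 142606401)) (.cons (.rel (nat_lit 71312385)) (.cons (.rel (nat_lit 71303298)) (.cons (.rel (nat_lit 71312385)) .nil)))))))) (.cons (.rel (nat_lit 335581440)) .nil)))))))) .nil)))) .leaf)) (nat_lit 5044251162106666) (.br (nat_lit 0) (.cons (.br (nat_lit 6) (.cons (.rel (nat_lit 34368128322)) (.cons (.rel (nat_lit 17184587778)) (.cons (.rel (nat_lit 17184072192)) .nil)))) (.cons (.br (nat_lit 6) (.cons (.rel (nat_lit 17184587778)) (.cons (.rel (nat_lit 17184072192)) (.cons (.rel (nat_lit 34368128322)) .nil)))) (.cons (.br (nat_lit 6) (.cons (.rel (nat_lit 17184072192)) (.cons (.rel (nat_lit 34368128322)) (.cons (.rel (nat_lit 17184587778)) .nil)))) .nil)))) (.node (.node .leaf (nat_lit 5044251162107166) (.br (nat_lit 0) (.cons (.br (nat_lit 6) (.cons (.rel (nat_lit 34368128322)) (.cons (.rel (nat_lit 17184587778)) (.cons (.rel (nat_lit 17184072192)) .nil)))) (.cons (.br (nat_lit 6) (.cons (.rel (nat_lit 17184587778)) (.cons (.rel (nat_lit 17184072192)) (.cons (.rel (nat_lit 34368128322)) .nil)))) (.cons (.br (nat_lit 6) (.cons (.rel (nat_lit 17184072192)) (.cons (.rel (nat_lit 34368128322)) (.cons (.rel (nat_lit 17184587778)) .nil)))) .nil)))) .leaf) (nat_lit 5318650156403495) (.br (nat_lit 3) (.cons (.br (nat_lit 5) (.cons (.rel (nat_lit 4563403032)) .nil)) .nil)) (.node .leaf (nat_lit 5318652438105321) (.br (nat_lit 3) (.cons (.br (nat_lit 2) (.cons (.rel (nat_lit 336666624)) (.cons (.rel (nat_lit 604000260)) .nil))) .nil)) .leaf)))))) (nat_lit 5318652440805661) (.br (nat_lit 1) (.cons (.br (nat_lit 3) (.cons (.rel (nat_lit 285212934)) .nil)) .nil)) (.node (.node (.node (.node (.node (.node (.node .leaf (nat_lit 5318652440806658) (.br (nat_lit 3) (.cons (.br (nat_lit 6) (.cons (.rel (nat_lit 34628190465)) .nil)) .nil)) .leaf) (nat_lit 5318652440921346) (.br (nat_lit 3) (.cons (.br (nat_lit 1) (.cons (.rel (nat_lit 285212934)) (.cons (.rel (nat_lit 285483012)) .nil))) .nil)) .leaf) (nat_lit 5326028911958792) (.br (nat_lit 0) (.cons (.br (nat_lit 3) (.cons (.rel (nat_lit 272631813)) .nil)) .nil)) (.node .leaf (nat_lit 5326028912919304) (.br (nat_lit 1) (.cons (.br (nat_lit 3) (.cons (.rel (nat_lit 285213984)) .nil)) .nil)) .leaf)) (nat_lit 5326218111076662) (.br (nat_lit 2) (.cons (.br (nat_lit 3) (.cons (.rel (nat_lit 335610240)) .nil)) .nil)) (.node (.node (.node .leaf (nat_lit 5326218111077114) (.br (nat_lit 1) (.cons (.br (nat_lit 3) (.cons (.rel (nat_lit 285213984)) .nil)) .nil)) .leaf) (nat_lit 5326218111077128) (.br (nat_lit 3) (.cons (.br (nat_lit 1) (.cons (.rel (nat_lit 285483012)) (.cons (.rel (nat_lit 285496320)) (.cons (.rel (nat_lit 285213984)) (.cons (.rel (nat_lit 285496320)) (.cons (.rel (nat_lit 285483012)) .nil)))))) .nil)) .leaf) (nat_lit 5326218111077609) (.br (nat_lit 0) (.cons (.br (nat_lit 1) (.cons (.rel (nat_lit 20979720)) .nil)) .nil)) (.node .leaf (nat_lit 5326218112817928) (.br (nat_lit 0) (.cons (.br (nat_lit 4) (.cons (.rel (nat_lit 1077956616)) (.cons (.rel (nat_lit 2155877376)) .nil))) .nil)) .leaf))) (nat_lit 13230461177086709) (.br (nat_lit 0) (.cons (.br (nat_lit 3) (.cons (.rel (nat_lit 545259537)) .nil)) .nil)) (.node (.node (.node (.node .leaf (nat_lit 13230916220285685) (.br (nat_lit 0) (.cons (.br (nat_lit 3) (.cons (.rel (nat_lit 272630808)) .nil)) .nil)) .leaf) (nat_lit 13242514832111873) (.br (nat_lit 0) (.cons (.br (nat_lit 4) (.cons (.rel (nat_lit 1077969924)) .nil)) .nil)) .leaf) (nat_lit 13242514832112373) (.br (nat_lit 0) (.cons (.br (nat_lit 5) (.cons (.rel (nat_lit 4299293700)) .nil)) .nil)) (.node .leaf (nat_lit 13242514832220936) (.br (nat_lit 0) (.cons (.br (nat_lit 4) (.cons (.rel (nat_lit 2155877376)) (.cons (.rel (nat_lit 1077952593)) .nil))) .nil)) .leaf)) (nat_lit 13242514832220970) (.br (nat_lit 0) (.cons (.br (nat_lit 2) (.cons (.rel (nat_lit 73662528)) (.cons (.rel (nat_lit 71335941)) .nil))) .nil)) (.node (.node .leaf (nat_lit 13242514832221417) (.br (nat_lit 0) (.cons (.br (nat_lit 1) (.cons (.rel (nat_lit 20988000)) .nil)) .nil)) .leaf) (nat_lit 13242514833904373) (.br (nat_lit 0) (.cons (.br (nat_lit 6) (.cons (.rel (nat_lit 17188257816)) (.cons (.rel (nat_lit 17188257816)) .nil))) .nil)) (.node .leaf (nat_lit 13242514833904392) (.br (nat_lit 3) (.cons (.br (nat_lit 6) (.cons (.rel (nat_lit 17448894720)) (.cons (.rel (nat_lit 34628436000)) (.cons (.rel (nat_lit 17717264400)) (.cons (.br (nat_lit 2) (.cons (.rel (nat_lit 17246995521)) (.cons (.rel (nat_lit 336625728)) (.cons (.rel (nat_lit 335822916)) (.cons (.rel (nat_lit 34493960208)) (.cons (.rel (nat_lit 402653280)) (.cons (.rel (nat_lit 17784897540)) .nil))))))) (.cons (.rel (nat_lit 17717264400)) .nil)))))) (.cons (.br (nat_lit 6) (.cons (.rel (nat_lit 17448439812)) (.cons (.rel (nat_lit 17448894720)) (.cons (.rel (nat_lit 17717264400)) (.cons (.rel (nat_lit 17717264400)) (.cons (.rel (nat_lit 34896609285)) .nil)))))) (.cons (.br (nat_lit 0) (.cons (.rel (nat_lit 272638020)) (.cons (.rel (nat_lit 272638020)) (.cons (.rel (nat_lit 272666640)) (.cons (.br (nat_lit 6) (.cons (.rel (nat_lit 17452761108)) (.cons (.rel (nat_lit 17448439812)) (.cons (.br (nat_lit 2) (.cons (.rel (nat_lit 75780096)) (.cons (.rel (nat_lit 71335941)) (.cons (.rel (nat_lit 335814672)) (.cons (.rel (nat_lit 17247111168)) (.cons (.rel (nat_lit 604045377)) (.cons (.rel (nat_lit 34493960208)) .nil))))))) (.cons (.rel (nat_lit 17717264400)) (.cons (.rel (nat_lit 34628174148)) .nil)))))) (.cons (.rel (nat_lit 541589508)) (.cons (.rel (nat_lit 272638020)) (.cons (.rel (nat_lit 541589508)) .nil)))))))) .nil)))) .leaf)))) (nat_lit 13242514833904426) (.br (nat_lit 0) (.cons (.br (nat_lit 6) (.cons (.rel (nat_lit 17188257816)) .nil)) .nil)) (.node (.node (.node (.node (.node .leaf (nat_lit 13242514833942780) (.br (nat_lit 0) (.cons (.br (nat_lit 3) (.cons (.rel (nat_lit 272630808)) .nil)) .nil)) .leaf) (nat_lit 13242514833943285) (.br (nat_lit 2) (.cons (.br (nat_lit 1) (.cons (.rel (nat_lit 85065744)) (.cons (.rel (nat_lit 83951940)) (.cons (.rel (nat_lit 83951940)) (.cons (.rel (nat_lit 86507520)) .nil))))) .nil)) .leaf) (nat_lit 13242514833943304) (.br (nat_lit 3) (.cons (.br (nat_lit 6) (.cons (.br (nat_lit 0) (.cons (.rel (nat_lit 17452761108)) (.cons (.rel (nat_lit 545259537)) (.cons (.br (nat_lit 2) (.cons (.rel (nat_lit 17515675908)) (.cons (.rel (nat_lit 335581440)) (.cons (.rel (nat_lit 17519640576)) (.cons (.rel (nat_lit 17247257088)) .nil))))) (.cons (.rel (nat_lit 541589508)) .nil))))) (.cons (.rel (nat_lit 17717264400)) (.cons (.rel (nat_lit 17717264400)) .nil)))) (.cons (.br (nat_lit 0) (.cons (.rel (nat_lit 277086216)) (.cons (.rel (nat_lit 272631813)) (.cons (.rel (nat_lit 541589508)) (.cons (.rel (nat_lit 541589508)) .nil))))) (.cons (.br (nat_lit 6) (.cons (.rel (nat_lit 17448439812)) (.cons (.rel (nat_lit 17717264400)) (.cons (.br (nat_lit 2) (.cons (.rel (nat_lit 17246995521)) (.cons (.rel (nat_lit 335839233)) (.cons (.rel (nat_lit 34426848513)) (.cons (.rel (nat_lit 17515675908)) .nil))))) .nil)))) .nil)))) (.node .leaf (nat_lit 13242514833943338) (.br (nat_lit 6) (.cons (.br (nat_lit 0) (.cons (.rel (nat_lit 34363932708)) (.cons (.rel (nat_lit 17184391428)) (.cons (.rel (nat_lit 17184072192)) .nil)))) .nil)) .leaf)) (nat_lit 13242514834012917) (.br (nat_lit 0) (.cons (.br (nat_lit 6) (.cons (.rel (nat_lit 17188257816)) .nil)) .nil)) (.node (.node .leaf (nat_lit 13242514834012936) (.br (nat_lit 2) (.cons (.br (nat_lit 0) (.cons (.rel (nat_lit 71324688)) (.cons (.rel (nat_lit 71309376)) (.cons (.rel (nat_lit 142606401)) .nil)))) (.cons (.br (nat_lit 1) (.cons (.rel (nat_lit 83951940)) (.cons (.rel (nat_lit 83951940)) (.cons (.rel (nat_lit 86507520)) .nil)))) .nil))) .leaf) (nat_lit 13242514834012970) (.br (nat_lit 0) (.cons (.br (nat_lit 1) (.cons (.rel (nat_lit 38798592)) (.cons (.rel (nat_lit 41947140)) (.cons (.rel (nat_lit 41960448)) .nil)))) (.cons (.br (nat_lit 6) (.cons (.rel (nat_lit 17188257816)) (.cons (.rel (nat_lit 17184342288)) (.cons (.rel (nat_lit 17188257816)) .nil)))) .nil))) (.node .leaf (nat_lit 13242514834928392) (.br (nat_lit 0) (.cons (.br (nat_lit 5) (.cons (.rel (nat_lit 4299161736)) (.cons (.rel (nat_lit 4299169809)) .nil))) .nil)) .leaf))) (nat_lit 13242514834928426) (.br (nat_lit 0) (.cons (.br (nat_lit 2) (.cons (.rel (nat_lit 71309376)) .nil)) .nil)) (.node (.node (.node (.node .leaf (nat_lit 13242514835036470) (.br (nat_lit 0) (.cons (.br (nat_lit 1) (.cons (.rel (nat_lit 20972688)) .nil)) .nil)) .leaf) (nat_lit 13827566768722677) (.br (nat_lit 0) (.cons (.br (nat_lit 1) (.cons (.rel (nat_lit 20972688)) .nil)) .nil)) .leaf) (nat_lit 13827566768831240) (.br (nat_lit 1) (.cons (.br (nat_lit 3) (.cons (.rel (nat_lit 285212934)) .nil)) .nil)) (.node .leaf (nat_lit 13827930825960200) (.br (nat_lit 3) (.cons (.br (nat_lit 4) (.cons (.rel (nat_lit 1342439568)) (.cons (.br (nat_lit 0) (.cons (.rel (nat_lit 1078005792)) (.cons (.rel (nat_lit 2155877376)) .nil))) (.cons (.rel (nat_lit 1610743812)) (.cons (.rel (nat_lit 1610743812)) (.cons (.rel (nat_lit 2415984648)) .nil)))))) .nil)) .leaf)) (nat_lit 13828533021325569) (.br (nat_lit 3) (.cons (.br (nat_lit 1) (.cons (.br (nat_lit 6) (.cons (.rel (nat_lit 17196652608)) (.cons (.rel (nat_lit 17196777489)) (.cons (.rel (nat_lit 17196652608)) (.cons (.rel (nat_lit 17196646530)) (.cons (.rel (nat_lit 17448312912)) (.cons (.rel (nat_lit 34393292865)) (.cons (.rel (nat_lit 17198219265)) (.cons (.rel (nat_lit 17196712032)) .nil))))))))) (.cons (.br (nat_lit 5) (.cons (.rel (nat_lit 4328521749)) (.cons (.rel (nat_lit 8858386464)) (.cons (.rel (nat_lit 4831870992)) (.cons (.rel (nat_lit 8606713857)) (.cons (.rel (nat_lit 4328521749)) (.cons (.rel (nat_lit 4328522754)) (.cons (.rel (nat_lit 8858386464)) (.cons (.rel (nat_lit 4311765252)) (.cons (.rel (nat_lit 4312006728)) (.cons (.rel (nat_lit 4831870992)) .nil))))))))))) (.cons (.br (nat_lit 0) (.cons (.rel (nat_lit 272666640)) (.cons (.rel (nat_lit 20979720)) (.cons (.rel (nat_lit 21038145)) (.cons (.rel (nat_lit 20979720)) (.cons (.rel (nat_lit 20972688)) (.cons (.rel (nat_lit 273170688)) (.cons (.rel (nat_lit 21037140)) (.cons (.rel (nat_lit 289669392)) (.cons (.rel (nat_lit 41947140)) (.cons (.rel (nat_lit 20972688)) .nil))))))))))) (.cons (.br (nat_lit 5) (.cons (.rel (nat_lit 4312074240)) (.cons (.rel (nat_lit 8858386464)) (.cons (.rel (nat_lit 4831870992)) (.cons (.rel (nat_lit 4312074240)) (.cons (.rel (nat_lit 8606713857)) (.cons (.rel (nat_lit 4311744912)) (.cons (.rel (nat_lit 8858386464)) (.cons (.rel (nat_lit 8606720064)) (.cons (.rel (nat_lit 8606713857)) (.cons (.rel (nat_lit 4831870992)) .nil))))))))))) (.cons (.br (nat_lit 5) (.cons (.rel (nat_lit 4312006728)) (.cons (.rel (nat_lit 8858386464)) (.cons (.rel (nat_lit 4831870992)) (.cons (.rel (nat_lit 8606713857)) (.cons (.rel (nat_lit 4311765252)) (.cons (.rel (nat_lit 4328525952)) (.cons (.rel (nat_lit 8858386464)) (.cons (.rel (nat_lit 4328521749)) (.cons (.rel (nat_lit 4311765252)) (.cons (.rel (nat_lit 4831870992)) .nil))))))))))) (.cons (.br (nat_lit 0) (.cons (.rel (nat_lit 272666640)) (.cons (.rel (nat_lit 289669392)) (.cons (.rel (nat_lit 21102597)) (.cons (.rel (nat_lit 21299712)) (.cons (.rel (nat_lit 20988000)) (.cons (.rel (nat_lit 273170688)) (.cons (.rel (nat_lit 20971686)) (.cons (.rel (nat_lit 21038145)) (.cons (.rel (nat_lit 20979720)) (.cons (.rel (nat_lit 21037140)) .nil))))))))))) .nil))))))) (.cons (.br (nat_lit 1) (.cons (.rel (nat_lit 301995024)) (.cons (.rel (nat_lit 301989960)) (.cons (.rel (nat_lit 301995024)) (.cons (.rel (nat_lit 301995024)) (.cons (.br (nat_lit 5) (.cons (.rel (nat_lit 4312006728)) (.cons (.rel (nat_lit 8858435604)) (.cons (.rel (nat_lit 4563403032)) (.cons (.rel (nat_lit 8606713857)) (.cons (.rel (nat_lit 4311765252)) (.cons (.rel (nat_lit 8858371152)) (.cons (.rel (nat_lit 4563665028)) (.cons (.rel (nat_lit 4328521749)) (.cons (.rel (nat_lit 4563734544)) (.cons (.rel (nat_lit 4563403032)) .nil))))))))))) (.cons (.rel (nat_lit 285213984)) .nil))))))) (.cons (.br (nat_lit 1) (.cons (.rel (nat_lit 302057472)) (.cons (.br (nat_lit 4) (.cons (.rel (nat_lit 1090524480)) (.cons (.rel (nat_lit 2415920196)) (.cons (.rel (nat_lit 1342324992)) (.cons (.rel (nat_lit 1342324992)) (.cons (.rel (nat_lit 1090524480)) (.cons (.rel (nat_lit 1090521474)) (.cons (.rel (nat_lit 2415984648)) (.cons (.rel (nat_lit 1343226888)) (.cons (.rel (nat_lit 1342324992)) (.cons (.rel (nat_lit 1091043840)) .nil))))))))))) (.cons (.rel (nat_lit 302057472)) (.cons (.rel (nat_lit 302057472)) (.cons (.rel (nat_lit 301989960)) (.cons (.rel (nat_lit 285348096)) .nil))))))) .nil)))) (.node (.node .leaf (nat_lit 13828533021326069) (.br (nat_lit 3) (.cons (.br (nat_lit 5) (.cons (.rel (nat_lit 8858386464)) (.cons (.rel (nat_lit 4831870992)) (.cons (.br (nat_lit 2) (.cons (.rel (nat_lit 402653280)) (.cons (.rel (nat_lit 4362339393)) (.cons (.rel (nat_lit 336625728)) (.cons (.rel (nat_lit 4362339393)) (.cons (.rel (nat_lit 4362339393)) (.cons (.rel (nat_lit 4362600960)) .nil))))))) (.cons (.rel (nat_lit 4831870992)) (.cons (.rel (nat_lit 4563423552)) .nil)))))) (.cons (.br (nat_lit 5) (.cons (.rel (nat_lit 8858435604)) (.cons (.rel (nat_lit 4563403032)) (.cons (.br (nat_lit 2) (.cons (.rel (nat_lit 402718737)) (.cons (.rel (nat_lit 4362339393)) (.cons (.rel (nat_lit 335814672)) (.cons (.rel (nat_lit 402658308)) (.cons (.rel (nat_lit 4362339393)) (.cons (.rel (nat_lit 402658308)) .nil))))))) (.cons (.rel (nat_lit 4563403032)) (.cons (.rel (nat_lit 4563404037)) .nil)))))) (.cons (.br (nat_lit 5) (.cons (.br (nat_lit 4) (.cons (.rel (nat_lit 5905580544)) (.cons (.rel (nat_lit 1342324992)) (.cons (.rel (nat_lit 5637160968)) (.cons (.rel (nat_lit 2415984648)) (.cons (.rel (nat_lit 1342324992)) (.cons (.rel (nat_lit 5905580544)) (.cons (.rel (nat_lit 2415920196)) (.cons (.rel (nat_lit 1342505025)) .nil))))))))) (.cons (.rel (nat_lit 4831920132)) (.cons (.br (nat_lit 1) (.cons (.rel (nat_lit 302057472)) (.cons (.rel (nat_lit 302057472)) (.cons (.rel (nat_lit 4311765252)) (.cons (.rel (nat_lit 302057472)) (.cons (.rel (nat_lit 285348096)) (.cons (.rel (nat_lit 301989960)) (.cons (.rel (nat_lit 4329570816)) .nil)))))))) (.cons (.rel (nat_lit 4831920132)) (.cons (.rel (nat_lit 8858436609)) .nil)))))) .nil)))) .leaf) (nat_lit 13828533021326569) (.br (nat_lit 3) (.cons (.br (nat_lit 5) (.cons (.rel (nat_lit 8858386464)) (.cons (.rel (nat_lit 4831870992)) (.cons (.br (nat_lit 1) (.cons (.rel (nat_lit 4328525952)) (.cons (.rel (nat_lit 4328521749)) (.cons (.rel (nat_lit 4311765252)) (.cons (.rel (nat_lit 4311765252)) .nil))))) (.cons (.rel (nat_lit 4831870992)) .nil))))) (.cons (.br (nat_lit 1) (.cons (.rel (nat_lit 301995024)) (.cons (.rel (nat_lit 301989960)) (.cons (.rel (nat_lit 301995024)) (.cons (.br (nat_lit 5) (.cons (.rel (nat_lit 8858435604)) (.cons (.rel (nat_lit 4563403032)) (.cons (.rel (nat_lit 4311765252)) (.cons (.rel (nat_lit 4563403032)) .nil))))) .nil))))) (.cons (.br (nat_lit 1) (.cons (.rel (nat_lit 302057472)) (.cons (.br (nat_lit 5) (.cons (.rel (nat_lit 8875671552)) (.cons (.rel (nat_lit 4831920132)) (.cons (.rel (nat_lit 4328521749)) (.cons (.rel (nat_lit 4831920132)) .nil))))) (.cons (.rel (nat_lit 302057472)) (.cons (.rel (nat_lit 301989960)) .nil))))) .nil)))) (.node .leaf (nat_lit 13828533021434166) (.br (nat_lit 3) (.cons (.br (nat_lit 6) (.cons (.br (nat_lit 2) (.cons (.rel (nat_lit 34493960208)) (.cons (.rel (nat_lit 17247257088)) (.cons (.rel (nat_lit 335581440)) (.cons (.rel (nat_lit 34427109504)) (.cons (.rel (nat_lit 402653280)) (.cons (.rel (nat_lit 402653280)) (.cons (.rel (nat_lit 34493960208)) (.cons (.rel (nat_lit 34494022656)) (.cons (.rel (nat_lit 17314611264)) (.cons (.rel (nat_lit 17246979204)) .nil))))))))))) (.cons (.br (nat_lit 0) (.cons (.rel (nat_lit 34368128322)) (.cons (.rel (nat_lit 17184391428)) (.cons (.rel (nat_lit 17184072192)) (.cons (.rel (nat_lit 17184326976)) (.cons (.rel (nat_lit 17184342288)) (.cons (.rel (nat_lit 17184342288)) (.cons (.rel (nat_lit 17184391428)) (.cons (.rel (nat_lit 17184072192)) .nil))))))))) (.cons (.rel (nat_lit 17448312912)) (.cons (.br (nat_lit 0) (.cons (.rel (nat_lit 17184326976)) (.cons (.rel (nat_lit 34368193824)) (.cons (.rel (nat_lit 34368192774)) (.cons (.rel (nat_lit 34363932708)) (.cons (.rel (nat_lit 17184342288)) (.cons (.rel (nat_lit 17184391428)) (.cons (.rel (nat_lit 34368127317)) (.cons (.rel (nat_lit 17184072192)) .nil))))))))) (.cons (.br (nat_lit 1) (.cons (.rel (nat_lit 17196654612)) (.cons (.rel (nat_lit 17197171968)) (.cons (.rel (nat_lit 285229440)) (.cons (.rel (nat_lit 34393292865)) (.cons (.rel (nat_lit 17198219265)) (.cons (.rel (nat_lit 17196646530)) (.cons (.rel (nat_lit 17196662856)) (.cons (.rel (nat_lit 34376847360)) .nil))))))))) (.cons (.br (nat_lit 1) (.cons (.rel (nat_lit 17196652608)) (.cons (.rel (nat_lit 34393292865)) (.cons (.rel (nat_lit 285229440)) (.cons (.rel (nat_lit 17750310912)) (.cons (.rel (nat_lit 17196652608)) (.cons (.rel (nat_lit 17196652608)) (.cons (.rel (nat_lit 17196646530)) (.cons (.rel (nat_lit 17196646530)) .nil))))))))) .nil))))))) (.cons (.br (nat_lit 6) (.cons (.rel (nat_lit 34628174148)) (.cons (.br (nat_lit 0) (.cons (.rel (nat_lit 34368128322)) (.cons (.rel (nat_lit 272638020)) (.cons (.rel (nat_lit 17184072192)) (.cons (.rel (nat_lit 277086216)) (.cons (.rel (nat_lit 277086216)) (.cons (.rel (nat_lit 273170688)) (.cons (.rel (nat_lit 17184391428)) (.cons (.rel (nat_lit 276824400)) .nil))))))))) (.cons (.rel (nat_lit 17448305700)) (.cons (.rel (nat_lit 17448305700)) (.cons (.br (nat_lit 0) (.cons (.rel (nat_lit 17184072192)) (.cons (.rel (nat_lit 272638020)) (.cons (.rel (nat_lit 17184391428)) (.cons (.rel (nat_lit 277086216)) (.cons (.rel (nat_lit 277086216)) (.cons (.rel (nat_lit 273170688)) (.cons (.rel (nat_lit 34368128322)) (.cons (.rel (nat_lit 276824400)) .nil))))))))) (.cons (.br (nat_lit 0) (.cons (.rel (nat_lit 17184391428)) (.cons (.rel (nat_lit 272638020)) (.cons (.rel (nat_lit 34368128322)) (.cons (.rel (nat_lit 277086216)) (.cons (.rel (nat_lit 277086216)) (.cons (.rel (nat_lit 273170688)) (.cons (.rel (nat_lit 17184072192)) (.cons (.rel (nat_lit 276824400)) .nil))))))))) .nil))))))) (.cons (.br (nat_lit 6) (.cons (.rel (nat_lit 34896609285)) (.cons (.br (nat_lit 0) (.cons (.rel (nat_lit 34368128322)) (.cons (.rel (nat_lit 272631813)) (.cons (.rel (nat_lit 17184072192)) (.cons (.rel (nat_lit 277086216)) (.cons (.rel (nat_lit 277086216)) (.cons (.rel (nat_lit 545259537)) (.cons (.rel (nat_lit 17184391428)) (.cons (.rel (nat_lit 545259537)) .nil))))))))) (.cons (.rel (nat_lit 17448439812)) (.cons (.rel (nat_lit 17448439812)) (.cons (.br (nat_lit 0) (.cons (.rel (nat_lit 17184072192)) (.cons (.rel (nat_lit 272631813)) (.cons (.rel (nat_lit 17184391428)) (.cons (.rel (nat_lit 277086216)) (.cons (.rel (nat_lit 277086216)) (.cons (.rel (nat_lit 545259537)) (.cons (.rel (nat_lit 34368128322)) (.cons (.rel (nat_lit 545259537)) .nil))))))))) (.cons (.br (nat_lit 0) (.cons (.rel (nat_lit 17184391428)) (.cons (.rel (nat_lit 272631813)) (.cons (.rel (nat_lit 34368128322)) (.cons (.rel (nat_lit 277086216)) (.cons (.rel (nat_lit 277086216)) (.cons (.rel (nat_lit 545259537)) (.cons (.rel (nat_lit 17184072192)) (.cons (.rel (nat_lit 545259537)) .nil))))))))) .nil))))))) .nil)))) .leaf))))) (nat_lit 13828533021434631) (.br (nat_lit 0) (.cons (.br (nat_lit 3) (.cons (.rel (nat_lit 273170688)) .nil)) .nil)) (.node (.node (.node (.node (.node (.node .leaf (nat_lit 13828533021434661) (.br (nat_lit 0) (.cons (.br (nat_lit 1) (.cons (.rel (nat_lit 21102597)) .nil)) .nil)) .leaf) (nat_lit 13828533021434666) (.br (nat_lit 3) (.cons (.br (nat_lit 0) (.cons (.br (nat_lit 5) (.cons (.rel (nat_lit 8598323268)) (.cons (.rel (nat_lit 4563423552)) (.cons (.rel (nat_lit 4563423552)) (.cons (.rel (nat_lit 4299293700)) (.cons (.rel (nat_lit 8595177729)) .nil)))))) (.cons (.br (nat_lit 5) (.cons (.rel (nat_lit 4299161736)) (.cons (.rel (nat_lit 4563423552)) (.cons (.rel (nat_lit 4563423552)) (.cons (.rel (nat_lit 4299182112)) (.cons (.rel (nat_lit 4568907792)) .nil)))))) (.cons (.rel (nat_lit 272666640)) (.cons (.br (nat_lit 5) (.cons (.rel (nat_lit 4303358208)) (.cons (.rel (nat_lit 4563423552)) (.cons (.rel (nat_lit 4563423552)) (.cons (.rel (nat_lit 4299231252)) (.cons (.rel (nat_lit 4299161736)) .nil)))))) .nil))))) (.cons (.br (nat_lit 5) (.cons (.br (nat_lit 0) (.cons (.rel (nat_lit 8598323268)) (.cons (.rel (nat_lit 4299161736)) (.cons (.rel (nat_lit 272630808)) (.cons (.rel (nat_lit 4303358208)) .nil))))) (.cons (.rel (nat_lit 4563404037)) (.cons (.rel (nat_lit 4563404037)) (.cons (.rel (nat_lit 8858371152)) (.cons (.rel (nat_lit 4563423552)) .nil)))))) (.cons (.br (nat_lit 0) (.cons (.br (nat_lit 5) (.cons (.rel (nat_lit 8598323268)) (.cons (.rel (nat_lit 4303358208)) (.cons (.rel (nat_lit 8594130432)) (.cons (.rel (nat_lit 8858436609)) (.cons (.rel (nat_lit 4563404037)) .nil)))))) (.cons (.br (nat_lit 5) (.cons (.rel (nat_lit 4299161736)) (.cons (.rel (nat_lit 4299161736)) (.cons (.rel (nat_lit 4299686160)) (.cons (.rel (nat_lit 8858436609)) (.cons (.rel (nat_lit 4563404037)) .nil)))))) (.cons (.rel (nat_lit 272631813)) (.cons (.br (nat_lit 5) (.cons (.rel (nat_lit 4303358208)) (.cons (.rel (nat_lit 8862826560)) (.cons (.rel (nat_lit 4299686160)) (.cons (.rel (nat_lit 8858436609)) (.cons (.rel (nat_lit 4563404037)) .nil)))))) .nil))))) .nil)))) .leaf) (nat_lit 13828533021435142) (.br (nat_lit 3) (.cons (.br (nat_lit 0) (.cons (.rel (nat_lit 273170688)) (.cons (.rel (nat_lit 272631813)) .nil))) .nil)) (.node .leaf (nat_lit 13828533021435166) (.br (nat_lit 1) (.cons (.br (nat_lit 0) (.cons (.rel (nat_lit 41947140)) (.cons (.rel (nat_lit 25428096)) (.cons (.rel (nat_lit 21299712)) (.cons (.rel (nat_lit 20979720)) .nil))))) (.cons (.br (nat_lit 0) (.cons (.rel (nat_lit 38798592)) (.cons (.rel (nat_lit 20979720)) (.cons (.rel (nat_lit 20979720)) (.cons (.rel (nat_lit 41947140)) .nil))))) (.cons (.br (nat_lit 6) (.cons (.rel (nat_lit 17198219265)) (.cons (.rel (nat_lit 17196646530)) (.cons (.rel (nat_lit 17196652608)) .nil)))) .nil)))) .leaf)) (nat_lit 13828533023117569) (.br (nat_lit 3) (.cons (.br (nat_lit 5) (.cons (.rel (nat_lit 8858386464)) (.cons (.rel (nat_lit 4831870992)) (.cons (.br (nat_lit 1) (.cons (.rel (nat_lit 4328522754)) (.cons (.rel (nat_lit 4311765252)) (.cons (.rel (nat_lit 4312006728)) (.cons (.rel (nat_lit 4328521749)) .nil))))) (.cons (.rel (nat_lit 4831870992)) .nil))))) (.cons (.br (nat_lit 1) (.cons (.rel (nat_lit 301995024)) (.cons (.rel (nat_lit 301989960)) (.cons (.rel (nat_lit 301995024)) (.cons (.br (nat_lit 5) (.cons (.rel (nat_lit 8858435604)) (.cons (.rel (nat_lit 4563403032)) (.cons (.rel (nat_lit 4328521749)) (.cons (.rel (nat_lit 4563403032)) .nil))))) .nil))))) (.cons (.br (nat_lit 1) (.cons (.rel (nat_lit 302057472)) (.cons (.br (nat_lit 5) (.cons (.rel (nat_lit 8608809216)) (.cons (.rel (nat_lit 4831920132)) (.cons (.rel (nat_lit 4311765252)) (.cons (.rel (nat_lit 4831920132)) .nil))))) (.cons (.rel (nat_lit 302057472)) (.cons (.rel (nat_lit 301989960)) .nil))))) .nil)))) (.node (.node (.node .leaf (nat_lit 13828533023118068) (.br (nat_lit 1) (.cons (.br (nat_lit 2) (.cons (.rel (nat_lit 84934785)) .nil)) .nil)) .leaf) (nat_lit 13828533023118069) (.br (nat_lit 3) (.cons (.br (nat_lit 1) (.cons (.br (nat_lit 6) (.cons (.rel (nat_lit 17196652608)) (.cons (.rel (nat_lit 17196777489)) (.cons (.rel (nat_lit 17196652608)) (.cons (.rel (nat_lit 17196646530)) (.cons (.rel (nat_lit 17717264400)) (.cons (.rel (nat_lit 17198219265)) (.cons (.rel (nat_lit 17196712032)) .nil)))))))) (.cons (.br (nat_lit 6) (.cons (.rel (nat_lit 17196662856)) (.cons (.rel (nat_lit 17196646530)) (.cons (.rel (nat_lit 17750310912)) (.cons (.rel (nat_lit 17196652608)) (.cons (.rel (nat_lit 17717264400)) (.cons (.rel (nat_lit 17196662856)) (.cons (.rel (nat_lit 34376515848)) .nil)))))))) (.cons (.br (nat_lit 0) (.cons (.rel (nat_lit 41947140)) (.cons (.rel (nat_lit 39845889)) (.cons (.rel (nat_lit 38273088)) (.cons (.rel (nat_lit 25167105)) (.cons (.rel (nat_lit 20979720)) (.cons (.rel (nat_lit 20979720)) (.cons (.rel (nat_lit 20979720)) (.cons (.rel (nat_lit 38273088)) (.cons (.rel (nat_lit 273170688)) .nil)))))))))) (.cons (.br (nat_lit 5) (.cons (.rel (nat_lit 4831870992)) (.cons (.rel (nat_lit 4311765252)) (.cons (.rel (nat_lit 8858386464)) (.cons (.rel (nat_lit 4831870992)) (.cons (.rel (nat_lit 4311744912)) (.cons (.rel (nat_lit 4328525952)) (.cons (.rel (nat_lit 4311744912)) (.cons (.rel (nat_lit 4312006728)) (.cons (.rel (nat_lit 4311810369)) (.cons (.rel (nat_lit 4831870992)) (.cons (.rel (nat_lit 4831870992)) .nil)))))))))))) (.cons (.br (nat_lit 0) (.cons (.rel (nat_lit 25428096)) (.cons (.rel (nat_lit 38273088)) (.cons (.rel (nat_lit 20979720)) (.cons (.rel (nat_lit 39845889)) (.cons (.rel (nat_lit 25166100)) (.cons (.rel (nat_lit 25166100)) (.cons (.rel (nat_lit 41947140)) (.cons (.rel (nat_lit 25167105)) (.cons (.rel (nat_lit 273170688)) .nil)))))))))) (.cons (.br (nat_lit 6) (.cons (.rel (nat_lit 34393292865)) (.cons (.rel (nat_lit 34393292865)) (.cons (.rel (nat_lit 34644983808)) (.cons (.rel (nat_lit 17196717060)) (.cons (.rel (nat_lit 17717264400)) (.cons (.rel (nat_lit 34393292865)) (.cons (.br (nat_lit 0) (.cons (.rel (nat_lit 20979720)) (.cons (.rel (nat_lit 20979720)) (.cons (.rel (nat_lit 17184072192)) (.cons (.rel (nat_lit 41947140)) (.cons (.rel (nat_lit 21037140)) (.cons (.rel (nat_lit 20979720)) (.cons (.rel (nat_lit 25167105)) (.cons (.rel (nat_lit 289669392)) (.cons (.rel (nat_lit 273170688)) .nil)))))))))) .nil)))))))) .nil))))))) (.cons (.br (nat_lit 1) (.cons (.rel (nat_lit 301995024)) (.cons (.rel (nat_lit 285229440)) (.cons (.rel (nat_lit 301989960)) (.cons (.rel (nat_lit 301995024)) (.cons (.br (nat_lit 0) (.cons (.rel (nat_lit 25428096)) (.cons (.rel (nat_lit 38273088)) (.cons (.rel (nat_lit 20979720)) (.cons (.rel (nat_lit 39845889)) (.cons (.rel (nat_lit 277086216)) (.cons (.rel (nat_lit 272629794)) (.cons (.rel (nat_lit 41947140)) (.cons (.rel (nat_lit 25167105)) (.cons (.rel (nat_lit 274727172)) .nil)))))))))) (.cons (.rel (nat_lit 285213984)) .nil))))))) (.cons (.br (nat_lit 1) (.cons (.rel (nat_lit 302057472)) (.cons (.rel (nat_lit 285212934)) (.cons (.br (nat_lit 0) (.cons (.rel (nat_lit 41947140)) (.cons (.rel (nat_lit 39845889)) (.cons (.rel (nat_lit 38273088)) (.cons (.rel (nat_lit 25167105)) (.cons (.rel (nat_lit 277086216)) (.cons (.rel (nat_lit 545259537)) (.cons (.rel (nat_lit 20979720)) (.cons (.rel (nat_lit 38273088)) (.cons (.rel (nat_lit 25167105)) .nil)))))))))) (.cons (.rel (nat_lit 302057472)) (.cons (.rel (nat_lit 301989960)) (.cons (.rel (nat_lit 285348096)) .nil))))))) .nil)))) .leaf) (nat_lit 13828533023118569) (.br (nat_lit 3) (.cons (.br (nat_lit 5) (.cons (.rel (nat_lit 4831870992)) (.cons (.br (nat_lit 0) (.cons (.rel (nat_lit 8598323268)) (.cons (.rel (nat_lit 9131003904)) (.cons (.rel (nat_lit 4303622208)) (.cons (.rel (nat_lit 4299161736)) (.cons (.rel (nat_lit 8594130432)) (.cons (.rel (nat_lit 272666640)) (.cons (.rel (nat_lit 8594130432)) (.cons (.rel (nat_lit 4303622208)) .nil))))))))) (.cons (.rel (nat_lit 8858386464)) (.cons (.rel (nat_lit 4831870992)) (.cons (.rel (nat_lit 4831870992)) .nil)))))) (.cons (.br (nat_lit 5) (.cons (.rel (nat_lit 4563403032)) (.cons (.br (nat_lit 1) (.cons (.rel (nat_lit 4865654784)) (.cons (.rel (nat_lit 301995024)) (.cons (.rel (nat_lit 301989960)) (.cons (.rel (nat_lit 301995024)) (.cons (.rel (nat_lit 4312006728)) .nil)))))) (.cons (.rel (nat_lit 8858435604)) (.cons (.rel (nat_lit 4563403032)) (.cons (.rel (nat_lit 4563403032)) .nil)))))) (.cons (.br (nat_lit 1) (.cons (.br (nat_lit 6) (.cons (.rel (nat_lit 34393292865)) (.cons (.rel (nat_lit 17198219265)) (.cons (.rel (nat_lit 17448894720)) (.cons (.rel (nat_lit 34393292865)) (.cons (.rel (nat_lit 17448304650)) (.cons (.rel (nat_lit 17213424132)) (.cons (.rel (nat_lit 34393292865)) (.cons (.rel (nat_lit 17199005760)) (.cons (.rel (nat_lit 34393292865)) (.cons (.rel (nat_lit 17198219265)) .nil))))))))))) (.cons (.rel (nat_lit 302057472)) (.cons (.br (nat_lit 2) (.cons (.rel (nat_lit 84943872)) (.cons (.rel (nat_lit 86507520)) (.cons (.rel (nat_lit 402658308)) (.cons (.rel (nat_lit 84934785)) (.cons (.rel (nat_lit 84934785)) (.cons (.rel (nat_lit 402658308)) (.cons (.rel (nat_lit 84148290)) (.cons (.rel (nat_lit 335877120)) .nil))))))))) (.cons (.rel (nat_lit 302057472)) (.cons (.rel (nat_lit 301989960)) .nil)))))) .nil)))) (.node .leaf (nat_lit 13828533023156476) (.br (nat_lit 3) (.cons (.br (nat_lit 0) (.cons (.rel (nat_lit 277086216)) (.cons (.br (nat_lit 6) (.cons (.br (nat_lit 4) (.cons (.rel (nat_lit 1343262720)) (.cons (.rel (nat_lit 36507222096)) (.cons (.rel (nat_lit 1342439568)) (.cons (.rel (nat_lit 1077937281)) (.cons (.rel (nat_lit 1342439568)) (.cons (.rel (nat_lit 1342459908)) .nil))))))) (.cons (.rel (nat_lit 17188257816)) (.cons (.rel (nat_lit 17188257816)) (.cons (.rel (nat_lit 34368131328)) .nil))))) (.cons (.rel (nat_lit 272630808)) (.cons (.rel (nat_lit 277889028)) (.cons (.rel (nat_lit 277889028)) (.cons (.rel (nat_lit 272630808)) (.cons (.rel (nat_lit 277889028)) .nil)))))))) .nil)) .leaf))) (nat_lit 13828533023156481) (.br (nat_lit 2) (.cons (.br (nat_lit 3) (.cons (.rel (nat_lit 402658308)) .nil)) .nil)) (.node (.node (.node (.node .leaf (nat_lit 13828533023156510) (.br (nat_lit 3) (.cons (.br (nat_lit 0) (.cons (.rel (nat_lit 272666640)) (.cons (.rel (nat_lit 272666640)) .nil))) .nil)) .leaf) (nat_lit 13828533023156534) (.br (nat_lit 3) (.cons (.br (nat_lit 6) (.cons (.rel (nat_lit 17448306705)) (.cons (.rel (nat_lit 17448306705)) (.cons (.rel (nat_lit 17448306705)) (.cons (.rel (nat_lit 17448305700)) .nil))))) .nil)) .leaf) (nat_lit 13828533023156999) (.br (nat_lit 3) (.cons (.br (nat_lit 0) (.cons (.rel (nat_lit 272666640)) (.cons (.rel (nat_lit 272629794)) .nil))) .nil)) (.node .leaf (nat_lit 13828533023157000) (.br (nat_lit 3) (.cons (.br (nat_lit 6) (.cons (.br (nat_lit 2) (.cons (.rel (nat_lit 34494022656)) (.cons (.rel (nat_lit 603979920)) (.cons (.rel (nat_lit 402653280)) (.cons (.rel (nat_lit 34493960208)) (.cons (.rel (nat_lit 17246979204)) (.cons (.rel (nat_lit 17247048720)) (.cons (.rel (nat_lit 603979920)) (.cons (.rel (nat_lit 17246994516)) (.cons (.rel (nat_lit 17246979204)) (.cons (.rel (nat_lit 17246979204)) (.cons (.rel (nat_lit 402653280)) (.cons (.rel (nat_lit 34494022656)) (.cons (.rel (nat_lit 34426848513)) (.cons (.rel (nat_lit 603979920)) (.cons (.rel (nat_lit 17247111168)) (.cons (.rel (nat_lit 402653280)) (.cons (.rel (nat_lit 17246979204)) (.cons (.rel (nat_lit 603979920)) (.cons (.rel (nat_lit 17247043656)) (.cons (.rel (nat_lit 34494022656)) (.cons (.rel (nat_lit 17246979204)) (.cons (.rel (nat_lit 17246986272)) .nil))))))))))))))))))))))) (.cons (.br (nat_lit 4) (.cons (.rel (nat_lit 18253631508)) (.cons (.rel (nat_lit 1342439568)) (.cons (.rel (nat_lit 18253631508)) (.cons (.rel (nat_lit 18253680648)) (.cons (.br (nat_lit 0) (.cons (.rel (nat_lit 17184342288)) (.cons (.rel (nat_lit 545259537)) (.cons (.rel (nat_lit 17184072192)) (.cons (.rel (nat_lit 545259537)) (.cons (.rel (nat_lit 17188405284)) (.cons (.rel (nat_lit 1077946368)) (.cons (.rel (nat_lit 34368131328)) (.cons (.rel (nat_lit 17184342288)) (.cons (.rel (nat_lit 545259537)) (.cons (.rel (nat_lit 17184072192)) (.cons (.rel (nat_lit 17184391428)) (.cons (.rel (nat_lit 273170688)) (.cons (.rel (nat_lit 34368131328)) (.cons (.rel (nat_lit 1077937281)) (.cons (.rel (nat_lit 17184342288)) (.cons (.rel (nat_lit 17184072192)) (.cons (.rel (nat_lit 17184391428)) (.cons (.rel (nat_lit 17184072192)) (.cons (.rel (nat_lit 17184072192)) (.cons (.rel (nat_lit 18530435328)) (.cons (.rel (nat_lit 34363933713)) .nil)))))))))))))))))))))) (.cons (.rel (nat_lit 18253611168)) (.cons (.rel (nat_lit 18253611168)) (.cons (.rel (nat_lit 1342439568)) (.cons (.rel (nat_lit 36507222096)) (.cons (.rel (nat_lit 36507222096)) (.cons (.rel (nat_lit 18253611168)) (.cons (.rel (nat_lit 18253616196)) (.cons (.rel (nat_lit 1342439568)) (.cons (.rel (nat_lit 19327354368)) (.cons (.rel (nat_lit 18253742082)) (.cons (.rel (nat_lit 18253611168)) (.cons (.rel (nat_lit 18253676625)) (.cons (.rel (nat_lit 19327354368)) .nil))))))))))))))))))) (.cons (.rel (nat_lit 17717264400)) (.cons (.br (nat_lit 4) (.cons (.rel (nat_lit 18253742082)) (.cons (.rel (nat_lit 1342439568)) (.cons (.rel (nat_lit 18253611168)) (.cons (.br (nat_lit 0) (.cons (.rel (nat_lit 17184391428)) (.cons (.rel (nat_lit 545259537)) (.cons (.rel (nat_lit 17184342288)) (.cons (.rel (nat_lit 545259537)) (.cons (.rel (nat_lit 2155877376)) (.cons (.rel (nat_lit 17184072192)) (.cons (.rel (nat_lit 34368128322)) (.cons (.rel (nat_lit 17188257816)) (.cons (.rel (nat_lit 545259537)) (.cons (.rel (nat_lit 17184391428)) (.cons (.rel (nat_lit 17188257816)) (.cons (.rel (nat_lit 273170688)) (.cons (.rel (nat_lit 17184072192)) (.cons (.rel (nat_lit 17184072192)) (.cons (.rel (nat_lit 1078001733)) (.cons (.rel (nat_lit 34363932708)) (.cons (.rel (nat_lit 17184342288)) (.cons (.rel (nat_lit 34363932708)) (.cons (.rel (nat_lit 34364080128)) (.cons (.rel (nat_lit 1082130693)) (.cons (.rel (nat_lit 34368131328)) .nil)))))))))))))))))))))) (.cons (.rel (nat_lit 18253611168)) (.cons (.rel (nat_lit 18253616196)) (.cons (.rel (nat_lit 18254135556)) (.cons (.rel (nat_lit 1342439568)) (.cons (.br (nat_lit 1) (.cons (.rel (nat_lit 34393292865)) (.cons (.rel (nat_lit 285229440)) (.cons (.rel (nat_lit 17465082432)) (.cons (.rel (nat_lit 17196717060)) (.cons (.rel (nat_lit 17196646530)) (.cons (.rel (nat_lit 17196652608)) (.cons (.rel (nat_lit 1090588932)) (.cons (.rel (nat_lit 1090539792)) (.cons (.rel (nat_lit 1090524480)) (.cons (.br (nat_lit 2) (.cons (.rel (nat_lit 34493960208)) (.cons (.rel (nat_lit 603979920)) (.cons (.rel (nat_lit 402653280)) (.cons (.rel (nat_lit 34426847508)) (.cons (.rel (nat_lit 17246986272)) (.cons (.rel (nat_lit 17247111168)) (.cons (.rel (nat_lit 603979920)) (.cons (.rel (nat_lit 17246979204)) (.cons (.rel (nat_lit 17247111168)) (.cons (.rel (nat_lit 1140851076)) (.cons (.rel (nat_lit 402653280)) (.cons (.rel (nat_lit 17247111168)) (.cons (.rel (nat_lit 2214594561)) (.cons (.rel (nat_lit 603979920)) (.cons (.rel (nat_lit 17246979204)) (.cons (.rel (nat_lit 402653280)) (.cons (.rel (nat_lit 17246986272)) (.cons (.rel (nat_lit 603979920)) (.cons (.rel (nat_lit 17247257088)) (.cons (.br (nat_lit 0) (.cons (.rel (nat_lit 17184391428)) (.cons (.rel (nat_lit 545259537)) (.cons (.rel (nat_lit 17184342288)) (.cons (.rel (nat_lit 545259537)) (.cons (.rel (nat_lit 2155877376)) (.cons (.rel (nat_lit 17184072192)) (.cons (.rel (nat_lit 34368128322)) (.cons (.rel (nat_lit 17188257816)) (.cons (.rel (nat_lit 545259537)) (.cons (.rel (nat_lit 17184391428)) (.cons (.rel (nat_lit 17188257816)) (.cons (.rel (nat_lit 273170688)) (.cons (.rel (nat_lit 17184072192)) (.cons (.rel (nat_lit 17184072192)) (.cons (.rel (nat_lit 71311380)) (.cons (.rel (nat_lit 34363932708)) (.cons (.rel (nat_lit 17184342288)) (.cons (.rel (nat_lit 34363932708)) (.cons (.rel (nat_lit 34364080128)) (.cons (.rel (nat_lit 1162085376)) (.cons (.rel (nat_lit 34368131328)) .nil)))))))))))))))))))))) (.cons (.rel (nat_lit 17247043656)) (.cons (.rel (nat_lit 17246979204)) .nil))))))))))))))))))))))) (.cons (.rel (nat_lit 17196654612)) (.cons (.rel (nat_lit 17196646530)) (.cons (.rel (nat_lit 17196646530)) (.cons (.rel (nat_lit 34393292865)) (.cons (.rel (nat_lit 17750310912)) (.cons (.rel (nat_lit 17196646530)) (.cons (.rel (nat_lit 17196654612)) (.cons (.rel (nat_lit 17196717060)) (.cons (.rel (nat_lit 17196712032)) .nil)))))))))))))))))))) (.cons (.rel (nat_lit 18253616196)) (.cons (.rel (nat_lit 36507222096)) (.cons (.rel (nat_lit 35433824256)) (.cons (.rel (nat_lit 1342439568)) (.cons (.rel (nat_lit 36507287553)) (.cons (.rel (nat_lit 18253611168)) (.cons (.rel (nat_lit 18253611168)) (.cons (.rel (nat_lit 18253616196)) (.cons (.br (nat_lit 1) (.cons (.rel (nat_lit 34393292865)) (.cons (.rel (nat_lit 285229440)) (.cons (.rel (nat_lit 17465082432)) (.cons (.rel (nat_lit 17196717060)) (.cons (.rel (nat_lit 17196646530)) (.cons (.rel (nat_lit 17196652608)) (.cons (.rel (nat_lit 18271437072)) (.cons (.rel (nat_lit 35450322960)) (.cons (.rel (nat_lit 1090588932)) (.cons (.rel (nat_lit 2181300480)) (.cons (.rel (nat_lit 17196654612)) (.cons (.rel (nat_lit 17196646530)) (.cons (.rel (nat_lit 17196646530)) (.cons (.rel (nat_lit 34393292865)) (.cons (.rel (nat_lit 17750310912)) (.cons (.rel (nat_lit 17196646530)) (.cons (.rel (nat_lit 17196654612)) (.cons (.rel (nat_lit 17196717060)) (.cons (.rel (nat_lit 17196712032)) .nil)))))))))))))))))))) .nil))))))))))))))))))) (.cons (.br (nat_lit 2) (.cons (.rel (nat_lit 17247257088)) (.cons (.rel (nat_lit 603979920)) (.cons (.rel (nat_lit 402653280)) (.cons (.rel (nat_lit 17246979204)) (.cons (.rel (nat_lit 17246979204)) (.cons (.rel (nat_lit 17246986272)) (.cons (.rel (nat_lit 603979920)) (.cons (.rel (nat_lit 17247111168)) (.cons (.rel (nat_lit 34493960208)) (.cons (.rel (nat_lit 17246994516)) (.cons (.rel (nat_lit 402653280)) (.cons (.rel (nat_lit 34494022656)) (.cons (.rel (nat_lit 17246979204)) (.cons (.rel (nat_lit 603979920)) (.cons (.rel (nat_lit 17247048720)) (.cons (.rel (nat_lit 402653280)) (.cons (.rel (nat_lit 17247048720)) (.cons (.rel (nat_lit 603979920)) (.cons (.rel (nat_lit 17246994516)) (.cons (.rel (nat_lit 17246994516)) (.cons (.rel (nat_lit 17246986272)) (.cons (.rel (nat_lit 17246979204)) .nil))))))))))))))))))))))) (.cons (.br (nat_lit 1) (.cons (.rel (nat_lit 34644983808)) (.cons (.rel (nat_lit 285229440)) (.cons (.rel (nat_lit 17196646530)) (.cons (.rel (nat_lit 17196654612)) (.cons (.rel (nat_lit 17196777489)) (.cons (.rel (nat_lit 17196654612)) (.cons (.rel (nat_lit 17196777489)) (.cons (.rel (nat_lit 17196717060)) (.cons (.rel (nat_lit 17196646530)) (.cons (.rel (nat_lit 17196652608)) (.cons (.rel (nat_lit 34393292865)) (.cons (.rel (nat_lit 17196652608)) (.cons (.rel (nat_lit 17196646530)) (.cons (.rel (nat_lit 17196712032)) (.cons (.rel (nat_lit 17196646530)) (.cons (.rel (nat_lit 34393292865)) (.cons (.rel (nat_lit 17196646530)) (.cons (.rel (nat_lit 17196712032)) (.cons (.rel (nat_lit 17196654612)) .nil)))))))))))))))))))) (.cons (.br (nat_lit 4) (.cons (.rel (nat_lit 18253676625)) (.cons (.rel (nat_lit 1342439568)) (.cons (.rel (nat_lit 35433482496)) (.cons (.rel (nat_lit 36507222096)) (.cons (.rel (nat_lit 36507222096)) (.cons (.rel (nat_lit 18253611168)) (.cons (.rel (nat_lit 18253742082)) (.cons (.rel (nat_lit 1342439568)) (.cons (.rel (nat_lit 18253616196)) (.cons (.rel (nat_lit 18253676625)) (.cons (.rel (nat_lit 18253616196)) (.cons (.rel (nat_lit 36507222096)) (.cons (.rel (nat_lit 1342439568)) (.cons (.rel (nat_lit 36507222096)) (.cons (.rel (nat_lit 18253611168)) (.cons (.rel (nat_lit 18253616196)) (.cons (.rel (nat_lit 18253676625)) (.cons (.rel (nat_lit 35433824256)) .nil))))))))))))))))))) (.cons (.br (nat_lit 5) (.cons (.rel (nat_lit 4831870992)) (.cons (.rel (nat_lit 8858386464)) (.cons (.rel (nat_lit 21474902085)) (.cons (.rel (nat_lit 42949678080)) (.cons (.rel (nat_lit 8858386464)) (.cons (.rel (nat_lit 21474837633)) (.cons (.rel (nat_lit 21474837633)) (.cons (.rel (nat_lit 4831870992)) (.cons (.br (nat_lit 1) (.cons (.rel (nat_lit 17196712032)) (.cons (.rel (nat_lit 285229440)) (.cons (.rel (nat_lit 17197171968)) (.cons (.rel (nat_lit 38671499280)) (.cons (.rel (nat_lit 17196662856)) (.cons (.rel (nat_lit 17196654612)) (.cons (.rel (nat_lit 34393292865)) (.cons (.rel (nat_lit 17196646530)) (.cons (.rel (nat_lit 17196654612)) (.cons (.rel (nat_lit 17196646530)) (.cons (.rel (nat_lit 17196717060)) (.cons (.rel (nat_lit 34376515848)) (.cons (.rel (nat_lit 8606713857)) (.cons (.rel (nat_lit 4311765252)) (.cons (.rel (nat_lit 17196646530)) (.cons (.rel (nat_lit 17196717060)) (.cons (.rel (nat_lit 17196646530)) (.cons (.rel (nat_lit 17196652608)) (.cons (.rel (nat_lit 17196654612)) .nil)))))))))))))))))))) (.cons (.rel (nat_lit 21474837633)) (.cons (.rel (nat_lit 21474837633)) (.cons (.br (nat_lit 1) (.cons (.rel (nat_lit 17196712032)) (.cons (.rel (nat_lit 285229440)) (.cons (.rel (nat_lit 17197171968)) (.cons (.rel (nat_lit 38671483968)) (.cons (.rel (nat_lit 17196662856)) (.cons (.rel (nat_lit 17196654612)) (.cons (.rel (nat_lit 34393292865)) (.cons (.rel (nat_lit 17196646530)) (.cons (.rel (nat_lit 17196654612)) (.cons (.rel (nat_lit 17196646530)) (.cons (.rel (nat_lit 17196717060)) (.cons (.rel (nat_lit 34376515848)) (.cons (.rel (nat_lit 4311744912)) (.cons (.rel (nat_lit 21492662532)) (.cons (.rel (nat_lit 17196646530)) (.cons (.rel (nat_lit 17196717060)) (.cons (.rel (nat_lit 17196646530)) (.cons (.rel (nat_lit 17196652608)) (.cons (.rel (nat_lit 17196654612)) .nil)))))))))))))))))))) (.cons (.rel (nat_lit 21474836628)) (.cons (.rel (nat_lit 8858386464)) (.cons (.rel (nat_lit 8858386464)) (.cons (.rel (nat_lit 21474836628)) (.cons (.rel (nat_lit 21474836628)) (.cons (.rel (nat_lit 8858386464)) (.cons (.rel (nat_lit 21474836628)) (.cons (.rel (nat_lit 21474846720)) (.cons (.rel (nat_lit 4831870992)) (.cons (.rel (nat_lit 25770344448)) (.cons (.rel (nat_lit 4831870992)) (.cons (.rel (nat_lit 21474902085)) (.cons (.rel (nat_lit 4831870992)) (.cons (.rel (nat_lit 42949678080)) (.cons (.rel (nat_lit 4831870992)) (.cons (.rel (nat_lit 21474846720)) (.cons (.rel (nat_lit 21474906144)) .nil)))))))))))))))))))))))))))))) (.cons (.br (nat_lit 4) (.cons (.rel (nat_lit 35433482496)) (.cons (.rel (nat_lit 1342439568)) (.cons (.rel (nat_lit 36507287553)) (.cons (.br (nat_lit 0) (.cons (.rel (nat_lit 17184072192)) (.cons (.rel (nat_lit 545259537)) (.cons (.rel (nat_lit 34636578960)) (.cons (.rel (nat_lit 545259537)) (.cons (.rel (nat_lit 2155877376)) (.cons (.rel (nat_lit 1077936276)) (.cons (.rel (nat_lit 17184072192)) (.cons (.rel (nat_lit 1077936276)) (.cons (.rel (nat_lit 545259537)) (.cons (.rel (nat_lit 34369243140)) (.cons (.rel (nat_lit 18258853896)) (.cons (.rel (nat_lit 273170688)) (.cons (.rel (nat_lit 17184072192)) (.cons (.rel (nat_lit 1079510016)) (.cons (.rel (nat_lit 1078001733)) (.cons (.rel (nat_lit 34368131328)) (.cons (.rel (nat_lit 17184072192)) (.cons (.rel (nat_lit 1077946368)) (.cons (.rel (nat_lit 1077936276)) (.cons (.rel (nat_lit 1082130693)) (.cons (.rel (nat_lit 1077956616)) .nil)))))))))))))))))))))) (.cons (.rel (nat_lit 36507222096)) (.cons (.rel (nat_lit 18253616196)) (.cons (.rel (nat_lit 35433482496)) (.cons (.rel (nat_lit 1342439568)) (.cons (.br (nat_lit 1) (.cons (.rel (nat_lit 1090524480)) (.cons (.rel (nat_lit 285229440)) (.cons (.rel (nat_lit 17750310912)) (.cons (.rel (nat_lit 17196652608)) (.cons (.rel (nat_lit 17750310912)) (.cons (.rel (nat_lit 17196646530)) (.cons (.rel (nat_lit 17196652608)) (.cons (.rel (nat_lit 17196646530)) (.cons (.rel (nat_lit 1090524480)) (.cons (.br (nat_lit 2) (.cons (.rel (nat_lit 18857590848)) (.cons (.rel (nat_lit 603979920)) (.cons (.rel (nat_lit 402653280)) (.cons (.rel (nat_lit 17246979204)) (.cons (.rel (nat_lit 18321248256)) (.cons (.rel (nat_lit 86507520)) (.cons (.rel (nat_lit 603979920)) (.cons (.rel (nat_lit 34493957202)) (.cons (.rel (nat_lit 34426848513)) (.cons (.rel (nat_lit 34427109504)) (.cons (.rel (nat_lit 402653280)) (.cons (.rel (nat_lit 34494022656)) (.cons (.rel (nat_lit 2214594561)) (.cons (.rel (nat_lit 603979920)) (.cons (.rel (nat_lit 34427109504)) (.cons (.rel (nat_lit 402653280)) (.cons (.rel (nat_lit 34427109504)) (.cons (.rel (nat_lit 603979920)) (.cons (.rel (nat_lit 34426848513)) (.cons (.br (nat_lit 0) (.cons (.rel (nat_lit 17184072192)) (.cons (.rel (nat_lit 545259537)) (.cons (.rel (nat_lit 34636578960)) (.cons (.rel (nat_lit 545259537)) (.cons (.rel (nat_lit 2155877376)) (.cons (.rel (nat_lit 1077936276)) (.cons (.rel (nat_lit 17184072192)) (.cons (.rel (nat_lit 1078001733)) (.cons (.rel (nat_lit 545259537)) (.cons (.rel (nat_lit 34369243140)) (.cons (.rel (nat_lit 2155877376)) (.cons (.rel (nat_lit 273170688)) (.cons (.rel (nat_lit 17184072192)) (.cons (.rel (nat_lit 1077936276)) (.cons (.rel (nat_lit 71311380)) (.cons (.rel (nat_lit 34368131328)) (.cons (.rel (nat_lit 17184072192)) (.cons (.rel (nat_lit 18258853896)) (.cons (.rel (nat_lit 1077937281)) (.cons (.rel (nat_lit 1162085376)) (.cons (.rel (nat_lit 1077956616)) .nil)))))))))))))))))))))) (.cons (.rel (nat_lit 34493960208)) (.cons (.rel (nat_lit 17246979204)) .nil))))))))))))))))))))))) (.cons (.rel (nat_lit 17465082432)) (.cons (.rel (nat_lit 17196652608)) (.cons (.rel (nat_lit 17196646530)) (.cons (.rel (nat_lit 17196646530)) (.cons (.rel (nat_lit 2164260882)) (.cons (.rel (nat_lit 17196662856)) (.cons (.br (nat_lit 0) (.cons (.rel (nat_lit 17184072192)) (.cons (.rel (nat_lit 545259537)) (.cons (.rel (nat_lit 34636578960)) (.cons (.rel (nat_lit 545259537)) (.cons (.rel (nat_lit 2155877376)) (.cons (.rel (nat_lit 1077936276)) (.cons (.rel (nat_lit 17184072192)) (.cons (.rel (nat_lit 1078001733)) (.cons (.rel (nat_lit 545259537)) (.cons (.rel (nat_lit 34369243140)) (.cons (.rel (nat_lit 2155877376)) (.cons (.rel (nat_lit 273170688)) (.cons (.rel (nat_lit 17184072192)) (.cons (.rel (nat_lit 1077936276)) (.cons (.rel (nat_lit 20979720)) (.cons (.rel (nat_lit 34368131328)) (.cons (.rel (nat_lit 17184072192)) (.cons (.rel (nat_lit 18258853896)) (.cons (.rel (nat_lit 1077937281)) (.cons (.rel (nat_lit 21038145)) (.cons (.rel (nat_lit 1077956616)) .nil)))))))))))))))))))))) (.cons (.rel (nat_lit 17196646530)) (.cons (.rel (nat_lit 34644983808)) .nil)))))))))))))))))))) (.cons (.rel (nat_lit 35433482496)) (.cons (.br (nat_lit 0) (.cons (.rel (nat_lit 17184072192)) (.cons (.rel (nat_lit 545259537)) (.cons (.rel (nat_lit 34636578960)) (.cons (.rel (nat_lit 545259537)) (.cons (.rel (nat_lit 1078005792)) (.cons (.rel (nat_lit 1077937281)) (.cons (.rel (nat_lit 17184072192)) (.cons (.rel (nat_lit 18258100224)) (.cons (.rel (nat_lit 545259537)) (.cons (.rel (nat_lit 34369243140)) (.cons (.rel (nat_lit 18258853896)) (.cons (.rel (nat_lit 273170688)) (.cons (.rel (nat_lit 17184072192)) (.cons (.rel (nat_lit 1077946368)) (.cons (.rel (nat_lit 1078001733)) (.cons (.rel (nat_lit 34368131328)) (.cons (.rel (nat_lit 17184072192)) (.cons (.rel (nat_lit 1077956616)) (.cons (.rel (nat_lit 1077956616)) (.cons (.rel (nat_lit 1082130693)) (.cons (.rel (nat_lit 1077956616)) .nil)))))))))))))))))))))) (.cons (.rel (nat_lit 18253616196)) (.cons (.rel (nat_lit 1342439568)) (.cons (.br (nat_lit 5) (.cons (.rel (nat_lit 4831870992)) (.cons (.rel (nat_lit 8858386464)) (.cons (.rel (nat_lit 21474837633)) (.cons (.rel (nat_lit 21474846720)) (.cons (.rel (nat_lit 8858386464)) (.cons (.rel (nat_lit 5905580544)) (.cons (.rel (nat_lit 21474837633)) (.cons (.rel (nat_lit 4831870992)) (.cons (.rel (nat_lit 5905580544)) (.cons (.rel (nat_lit 21476410368)) (.cons (.rel (nat_lit 25771900932)) (.cons (.rel (nat_lit 21474856968)) (.cons (.rel (nat_lit 5905580544)) (.cons (.rel (nat_lit 8858386464)) (.cons (.rel (nat_lit 8858386464)) (.cons (.rel (nat_lit 21474846720)) (.cons (.rel (nat_lit 38655754248)) (.cons (.rel (nat_lit 8858386464)) (.cons (.rel (nat_lit 21474846720)) (.cons (.rel (nat_lit 25771900932)) (.cons (.rel (nat_lit 4831870992)) (.cons (.rel (nat_lit 5905580544)) (.cons (.rel (nat_lit 4831870992)) (.cons (.rel (nat_lit 21474846720)) (.cons (.rel (nat_lit 4831870992)) (.cons (.rel (nat_lit 21474837633)) (.cons (.rel (nat_lit 4831870992)) (.cons (.rel (nat_lit 21474846720)) (.cons (.rel (nat_lit 5905580544)) .nil)))))))))))))))))))))))))))))) (.cons (.br (nat_lit 5) (.cons (.rel (nat_lit 4831870992)) (.cons (.rel (nat_lit 8858386464)) (.cons (.rel (nat_lit 21474837633)) (.cons (.rel (nat_lit 21474846720)) (.cons (.rel (nat_lit 8858386464)) (.cons (.rel (nat_lit 5905580544)) (.cons (.rel (nat_lit 21474837633)) (.cons (.rel (nat_lit 4831870992)) (.cons (.rel (nat_lit 5905580544)) (.cons (.rel (nat_lit 21476410368)) (.cons (.rel (nat_lit 25771900932)) (.cons (.rel (nat_lit 21474856968)) (.cons (.rel (nat_lit 5368742148)) (.cons (.rel (nat_lit 8858386464)) (.cons (.rel (nat_lit 8858386464)) (.cons (.rel (nat_lit 21474846720)) (.cons (.rel (nat_lit 38655754248)) (.cons (.rel (nat_lit 8858386464)) (.cons (.rel (nat_lit 21474846720)) (.cons (.rel (nat_lit 25771900932)) (.cons (.rel (nat_lit 4831870992)) (.cons (.rel (nat_lit 6442450980)) (.cons (.rel (nat_lit 4831870992)) (.cons (.rel (nat_lit 21474846720)) (.cons (.rel (nat_lit 4831870992)) (.cons (.rel (nat_lit 21474837633)) (.cons (.rel (nat_lit 4831870992)) (.cons (.rel (nat_lit 21474846720)) (.cons (.rel (nat_lit 5905580544)) .nil)))))))))))))))))))))))))))))) (.cons (.rel (nat_lit 35433482496)) (.cons (.rel (nat_lit 36507222096)) (.cons (.rel (nat_lit 35433482496)) .nil))))))))))))))))))) (.cons (.br (nat_lit 1) (.cons (.rel (nat_lit 17196777489)) (.cons (.rel (nat_lit 285229440)) (.cons (.rel (nat_lit 17196646530)) (.cons (.rel (nat_lit 17196646530)) (.cons (.rel (nat_lit 17196652608)) (.cons (.rel (nat_lit 17196717060)) (.cons (.rel (nat_lit 34393292865)) (.cons (.rel (nat_lit 17196717060)) (.cons (.rel (nat_lit 17196646530)) (.cons (.rel (nat_lit 17196646530)) (.cons (.rel (nat_lit 17196652608)) (.cons (.rel (nat_lit 17196654612)) (.cons (.rel (nat_lit 17196646530)) (.cons (.rel (nat_lit 34393292865)) (.cons (.rel (nat_lit 17213424132)) (.cons (.br (nat_lit 5) (.cons (.rel (nat_lit 4831870992)) (.cons (.rel (nat_lit 8858386464)) (.cons (.rel (nat_lit 38655000576)) (.cons (.rel (nat_lit 21760327680)) (.cons (.rel (nat_lit 8858386464)) (.cons (.rel (nat_lit 21474837633)) (.cons (.rel (nat_lit 38671483968)) (.cons (.rel (nat_lit 4831870992)) (.cons (.rel (nat_lit 21474836628)) (.cons (.rel (nat_lit 21474836628)) (.cons (.rel (nat_lit 21474836628)) (.cons (.rel (nat_lit 21474836628)) (.cons (.rel (nat_lit 21474902085)) (.cons (.rel (nat_lit 8858386464)) (.cons (.rel (nat_lit 8858386464)) (.cons (.rel (nat_lit 21474902085)) (.cons (.rel (nat_lit 21474902085)) (.cons (.rel (nat_lit 8858386464)) (.cons (.rel (nat_lit 21474837633)) (.cons (.rel (nat_lit 21475099200)) (.cons (.rel (nat_lit 4831870992)) (.cons (.rel (nat_lit 21474846720)) (.cons (.rel (nat_lit 4831870992)) (.cons (.rel (nat_lit 21474837633)) (.cons (.rel (nat_lit 4831870992)) (.cons (.rel (nat_lit 42949678080)) (.cons (.rel (nat_lit 4831870992)) (.cons (.rel (nat_lit 4312074240)) (.cons (.rel (nat_lit 21474968592)) .nil)))))))))))))))))))))))))))))) (.cons (.br (nat_lit 4) (.cons (.rel (nat_lit 18253676625)) (.cons (.rel (nat_lit 1342439568)) (.cons (.rel (nat_lit 36507222096)) (.cons (.rel (nat_lit 1090524480)) (.cons (.rel (nat_lit 18253742082)) (.cons (.rel (nat_lit 18253611168)) (.cons (.rel (nat_lit 2164260882)) (.cons (.rel (nat_lit 1342439568)) (.cons (.rel (nat_lit 35433824256)) (.cons (.rel (nat_lit 18253616196)) (.cons (.rel (nat_lit 18253676625)) (.cons (.rel (nat_lit 1107296289)) (.cons (.rel (nat_lit 1342439568)) (.cons (.rel (nat_lit 18253616196)) (.cons (.rel (nat_lit 18253616196)) (.cons (.rel (nat_lit 18253680648)) (.cons (.rel (nat_lit 1090524480)) (.cons (.rel (nat_lit 19327354368)) .nil))))))))))))))))))) (.cons (.rel (nat_lit 17196654612)) (.cons (.rel (nat_lit 34393292865)) .nil)))))))))))))))))))) (.cons (.br (nat_lit 4) (.cons (.rel (nat_lit 36507222096)) (.cons (.rel (nat_lit 1342439568)) (.cons (.rel (nat_lit 18253616196)) (.cons (.rel (nat_lit 36507222096)) (.cons (.rel (nat_lit 36507222096)) (.cons (.rel (nat_lit 18253742082)) (.cons (.rel (nat_lit 18253611168)) (.cons (.rel (nat_lit 1342439568)) (.cons (.rel (nat_lit 35433746496)) (.cons (.rel (nat_lit 18253611168)) (.cons (.rel (nat_lit 18253611168)) (.cons (.rel (nat_lit 36507287553)) (.cons (.rel (nat_lit 1342439568)) (.cons (.rel (nat_lit 36507222096)) (.cons (.rel (nat_lit 18253676625)) (.cons (.rel (nat_lit 36507222096)) (.cons (.rel (nat_lit 18253680648)) (.cons (.rel (nat_lit 36507222096)) .nil))))))))))))))))))) (.cons (.br (nat_lit 4) (.cons (.rel (nat_lit 18253611168)) (.cons (.rel (nat_lit 1342439568)) (.cons (.rel (nat_lit 18253631508)) (.cons (.rel (nat_lit 36507222096)) (.cons (.rel (nat_lit 18253611168)) (.cons (.rel (nat_lit 18254135556)) (.cons (.rel (nat_lit 18253616196)) (.cons (.rel (nat_lit 1342439568)) (.cons (.rel (nat_lit 18253680648)) (.cons (.rel (nat_lit 18254135556)) (.cons (.rel (nat_lit 36507222096)) (.cons (.rel (nat_lit 36507287553)) (.cons (.rel (nat_lit 1342439568)) (.cons (.rel (nat_lit 36507287553)) (.cons (.rel (nat_lit 35433746496)) (.cons (.rel (nat_lit 18253631508)) (.cons (.rel (nat_lit 18253631508)) (.cons (.rel (nat_lit 36507222096)) .nil))))))))))))))))))) (.cons (.rel (nat_lit 17717264400)) (.cons (.br (nat_lit 4) (.cons (.rel (nat_lit 18253676625)) (.cons (.rel (nat_lit 1342439568)) (.cons (.rel (nat_lit 18253611168)) (.cons (.rel (nat_lit 18253631508)) (.cons (.rel (nat_lit 36507222096)) (.cons (.rel (nat_lit 18253611168)) (.cons (.rel (nat_lit 18253680648)) (.cons (.rel (nat_lit 1342439568)) (.cons (.rel (nat_lit 18253616196)) (.cons (.rel (nat_lit 18253611168)) (.cons (.rel (nat_lit 18253616196)) (.cons (.rel (nat_lit 18253616196)) (.cons (.rel (nat_lit 1342439568)) (.cons (.rel (nat_lit 18254135556)) (.cons (.rel (nat_lit 18253676625)) (.cons (.rel (nat_lit 18253676625)) (.cons (.rel (nat_lit 18253611168)) (.cons (.rel (nat_lit 18253680648)) .nil))))))))))))))))))) (.cons (.rel (nat_lit 34628436000)) (.cons (.rel (nat_lit 34628436000)) .nil))))))))))))))))) .nil)) .leaf)) (nat_lit 13828533023226108) (.br (nat_lit 3) (.cons (.br (nat_lit 0) (.cons (.br (nat_lit 1) (.cons (.rel (nat_lit 21038145)) (.cons (.rel (nat_lit 41947140)) .nil))) (.cons (.rel (nat_lit 273973512)) .nil))) .nil)) (.node (.node .leaf (nat_lit 13828533023226142) (.br (nat_lit 3) (.cons (.br (nat_lit 0) (.cons (.rel (nat_lit 274727172)) (.cons (.rel (nat_lit 274727172)) .nil))) .nil)) .leaf) (nat_lit 13828533023226166) (.br (nat_lit 0) (.cons (.br (nat_lit 6) (.cons (.rel (nat_lit 34368128322)) (.cons (.rel (nat_lit 17184072192)) (.cons (.rel (nat_lit 17185194240)) .nil)))) (.cons (.br (nat_lit 1) (.cons (.rel (nat_lit 38798592)) (.cons (.rel (nat_lit 20979720)) (.cons (.rel (nat_lit 20972688)) .nil)))) (.cons (.br (nat_lit 1) (.cons (.rel (nat_lit 20979720)) (.cons (.rel (nat_lit 41947140)) (.cons (.rel (nat_lit 21038145)) .nil)))) .nil)))) (.node .leaf (nat_lit 13828533023226666) (.br (nat_lit 3) (.cons (.br (nat_lit 6) (.cons (.br (nat_lit 4) (.cons (.rel (nat_lit 18253680648)) (.cons (.rel (nat_lit 1610616912)) (.cons (.rel (nat_lit 18254135556)) (.cons (.rel (nat_lit 1610616912)) (.cons (.rel (nat_lit 19327354368)) (.cons (.rel (nat_lit 18253631508)) (.cons (.rel (nat_lit 36507222096)) (.cons (.rel (nat_lit 19864227840)) .nil))))))))) (.cons (.br (nat_lit 1) (.cons (.br (nat_lit 0) (.cons (.rel (nat_lit 17184072192)) (.cons (.rel (nat_lit 545259537)) (.cons (.rel (nat_lit 20988000)) (.cons (.rel (nat_lit 545259537)) (.cons (.rel (nat_lit 17184326976)) (.cons (.rel (nat_lit 17188258821)) (.cons (.rel (nat_lit 20979720)) (.cons (.rel (nat_lit 17184587778)) .nil))))))))) (.cons (.rel (nat_lit 17196646530)) (.cons (.rel (nat_lit 17196652608)) (.cons (.br (nat_lit 2) (.cons (.rel (nat_lit 335814672)) (.cons (.rel (nat_lit 86507520)) (.cons (.rel (nat_lit 335581440)) (.cons (.rel (nat_lit 86507520)) (.cons (.rel (nat_lit 86507520)) (.cons (.rel (nat_lit 335814672)) (.cons (.rel (nat_lit 402653280)) (.cons (.rel (nat_lit 34494022656)) (.cons (.rel (nat_lit 17316184065)) (.cons (.rel (nat_lit 335814672)) (.cons (.rel (nat_lit 402653280)) (.cons (.rel (nat_lit 402653280)) (.cons (.rel (nat_lit 335814672)) (.cons (.rel (nat_lit 34493960208)) .nil))))))))))))))) (.cons (.rel (nat_lit 34376515848)) (.cons (.rel (nat_lit 17196662856)) (.cons (.rel (nat_lit 34644983808)) .nil)))))))) (.cons (.br (nat_lit 1) (.cons (.rel (nat_lit 17196654612)) (.cons (.rel (nat_lit 17750310912)) (.cons (.rel (nat_lit 17196646530)) (.cons (.rel (nat_lit 34393292865)) (.cons (.rel (nat_lit 17196646530)) (.cons (.rel (nat_lit 17196712032)) (.cons (.rel (nat_lit 17196652608)) .nil)))))))) (.cons (.br (nat_lit 0) (.cons (.rel (nat_lit 17188278336)) (.cons (.rel (nat_lit 545259537)) (.cons (.rel (nat_lit 17184072192)) (.cons (.rel (nat_lit 545259537)) (.cons (.rel (nat_lit 17188258821)) (.cons (.rel (nat_lit 17188405284)) (.cons (.rel (nat_lit 17184342288)) (.cons (.rel (nat_lit 17188258821)) .nil))))))))) (.cons (.br (nat_lit 1) (.cons (.rel (nat_lit 17196717060)) (.cons (.rel (nat_lit 34393292865)) (.cons (.rel (nat_lit 34644983808)) (.cons (.rel (nat_lit 17750310912)) (.cons (.rel (nat_lit 17196652608)) (.cons (.rel (nat_lit 17196777489)) (.cons (.rel (nat_lit 17196652608)) .nil)))))))) (.cons (.rel (nat_lit 17717264400)) .nil))))))) (.cons (.br (nat_lit 6) (.cons (.br (nat_lit 1) (.cons (.rel (nat_lit 285213984)) (.cons (.rel (nat_lit 301989960)) (.cons (.rel (nat_lit 17197171968)) (.cons (.rel (nat_lit 17465082432)) (.cons (.rel (nat_lit 301995024)) (.cons (.rel (nat_lit 285540432)) (.cons (.rel (nat_lit 17198219265)) .nil)))))))) (.cons (.rel (nat_lit 34896609285)) (.cons (.br (nat_lit 1) (.cons (.rel (nat_lit 285213984)) (.cons (.rel (nat_lit 301989960)) (.cons (.rel (nat_lit 17196646530)) (.cons (.rel (nat_lit 34393292865)) (.cons (.rel (nat_lit 301995024)) (.cons (.rel (nat_lit 285540432)) (.cons (.rel (nat_lit 17196652608)) .nil)))))))) (.cons (.rel (nat_lit 17448321156)) (.cons (.br (nat_lit 1) (.cons (.rel (nat_lit 285213984)) (.cons (.rel (nat_lit 301989960)) (.cons (.rel (nat_lit 17466393600)) (.cons (.rel (nat_lit 17733517569)) (.cons (.rel (nat_lit 301995024)) (.cons (.rel (nat_lit 285540432)) (.cons (.rel (nat_lit 17196652608)) .nil)))))))) (.cons (.rel (nat_lit 17448894720)) .nil))))))) (.cons (.br (nat_lit 6) (.cons (.br (nat_lit 1) (.cons (.rel (nat_lit 285212934)) (.cons (.rel (nat_lit 17465082432)) (.cons (.rel (nat_lit 17197171968)) (.cons (.rel (nat_lit 301989960)) (.cons (.rel (nat_lit 302057472)) (.cons (.rel (nat_lit 285605889)) (.cons (.rel (nat_lit 17198219265)) .nil)))))))) (.cons (.rel (nat_lit 34628174148)) (.cons (.br (nat_lit 1) (.cons (.rel (nat_lit 285212934)) (.cons (.rel (nat_lit 17733517569)) (.cons (.rel (nat_lit 17196646530)) (.cons (.rel (nat_lit 301989960)) (.cons (.rel (nat_lit 302057472)) (.cons (.rel (nat_lit 285605889)) (.cons (.rel (nat_lit 17196652608)) .nil)))))))) (.cons (.rel (nat_lit 17448304650)) (.cons (.br (nat_lit 1) (.cons (.rel (nat_lit 285212934)) (.cons (.rel (nat_lit 34393292865)) (.cons (.rel (nat_lit 17465082432)) (.cons (.rel (nat_lit 301989960)) (.cons (.rel (nat_lit 302057472)) (.cons (.rel (nat_lit 285605889)) (.cons (.rel (nat_lit 17196652608)) .nil)))))))) (.cons (.rel (nat_lit 17718116352)) .nil))))))) .nil)))) .leaf)))) (nat_lit 13828533023227131) (.br (nat_lit 0) (.cons (.br (nat_lit 3) (.cons (.rel (nat_lit 276889857)) .nil)) .nil)) (.node (.node (.node (.node (.node .leaf (nat_lit 13828533023227166) (.br (nat_lit 3) (.cons (.br (nat_lit 2) (.cons (.br (nat_lit 5) (.cons (.rel (nat_lit 4563423552)) (.cons (.rel (nat_lit 4563423552)) (.cons (.rel (nat_lit 4362081600)) (.cons (.rel (nat_lit 4362339393)) (.cons (.rel (nat_lit 4363125888)) .nil)))))) (.cons (.br (nat_lit 5) (.cons (.rel (nat_lit 4563423552)) (.cons (.rel (nat_lit 4563423552)) (.cons (.rel (nat_lit 4362339393)) (.cons (.rel (nat_lit 4901044224)) (.cons (.rel (nat_lit 4362096912)) .nil)))))) (.cons (.br (nat_lit 5) (.cons (.rel (nat_lit 4563423552)) (.cons (.rel (nat_lit 4563423552)) (.cons (.rel (nat_lit 4362600960)) (.cons (.rel (nat_lit 4362339393)) (.cons (.rel (nat_lit 4362096912)) .nil)))))) (.cons (.rel (nat_lit 402653280)) (.cons (.rel (nat_lit 402653280)) .nil)))))) (.cons (.br (nat_lit 5) (.cons (.rel (nat_lit 4563403032)) (.cons (.rel (nat_lit 4563404037)) (.cons (.br (nat_lit 2) (.cons (.rel (nat_lit 402658308)) (.cons (.rel (nat_lit 4362339393)) (.cons (.rel (nat_lit 4362600960)) (.cons (.rel (nat_lit 402718737)) (.cons (.rel (nat_lit 402658308)) .nil)))))) (.cons (.rel (nat_lit 8858371152)) (.cons (.rel (nat_lit 4563423552)) .nil)))))) (.cons (.br (nat_lit 5) (.cons (.rel (nat_lit 4831920132)) (.cons (.br (nat_lit 2) (.cons (.rel (nat_lit 4362096912)) (.cons (.rel (nat_lit 4362146052)) (.cons (.rel (nat_lit 402658308)) (.cons (.rel (nat_lit 4429187088)) (.cons (.rel (nat_lit 4362338388)) .nil)))))) (.cons (.br (nat_lit 0) (.cons (.rel (nat_lit 4299161736)) (.cons (.rel (nat_lit 8595177729)) (.cons (.rel (nat_lit 545259537)) (.cons (.rel (nat_lit 8598323268)) (.cons (.rel (nat_lit 4299161736)) (.cons (.rel (nat_lit 545259537)) .nil))))))) (.cons (.rel (nat_lit 8858436609)) (.cons (.rel (nat_lit 4563404037)) .nil)))))) .nil)))) .leaf) (nat_lit 13828533024141563) (.br (nat_lit 0) (.cons (.br (nat_lit 3) (.cons (.rel (nat_lit 272666640)) .nil)) .nil)) .leaf) (nat_lit 13828533024141569) (.br (nat_lit 3) (.cons (.br (nat_lit 5) (.cons (.rel (nat_lit 8858386464)) (.cons (.rel (nat_lit 4831870992)) (.cons (.br (nat_lit 1) (.cons (.rel (nat_lit 4328525952)) (.cons (.rel (nat_lit 4311744912)) (.cons (.rel (nat_lit 4328521749)) (.cons (.br (nat_lit 0) (.cons (.rel (nat_lit 4299161736)) (.cons (.rel (nat_lit 38273088)) (.cons (.rel (nat_lit 289669392)) (.cons (.rel (nat_lit 4303622208)) (.cons (.rel (nat_lit 4568907792)) (.cons (.rel (nat_lit 8598323268)) (.cons (.rel (nat_lit 8594130432)) .nil)))))))) (.cons (.rel (nat_lit 4312006728)) (.cons (.rel (nat_lit 4311765252)) (.cons (.rel (nat_lit 286285824)) (.cons (.rel (nat_lit 4311765252)) .nil))))))))) (.cons (.rel (nat_lit 4831870992)) .nil))))) (.cons (.br (nat_lit 5) (.cons (.rel (nat_lit 8858435604)) (.cons (.rel (nat_lit 4563403032)) (.cons (.br (nat_lit 6) (.cons (.rel (nat_lit 22011708672)) (.cons (.rel (nat_lit 42949678080)) (.cons (.rel (nat_lit 17448305700)) (.cons (.rel (nat_lit 21743276544)) (.cons (.rel (nat_lit 22011708672)) (.cons (.rel (nat_lit 21743276544)) (.cons (.rel (nat_lit 17448306705)) (.cons (.rel (nat_lit 21474837633)) (.cons (.rel (nat_lit 42949678080)) (.cons (.rel (nat_lit 34628436000)) .nil))))))))))) (.cons (.rel (nat_lit 4563403032)) .nil))))) (.cons (.br (nat_lit 5) (.cons (.br (nat_lit 6) (.cons (.rel (nat_lit 42949678080)) (.cons (.rel (nat_lit 22011708672)) (.cons (.rel (nat_lit 17448304650)) (.cons (.rel (nat_lit 42949678080)) (.cons (.rel (nat_lit 17448894720)) (.cons (.rel (nat_lit 42949678080)) (.cons (.rel (nat_lit 21474968592)) (.cons (.rel (nat_lit 21743276544)) (.cons (.rel (nat_lit 21743276544)) (.cons (.rel (nat_lit 42949678080)) .nil))))))))))) (.cons (.rel (nat_lit 4831920132)) (.cons (.br (nat_lit 0) (.cons (.rel (nat_lit 4299161736)) (.cons (.rel (nat_lit 9131003904)) (.cons (.rel (nat_lit 9131003904)) (.cons (.rel (nat_lit 4303622208)) (.cons (.rel (nat_lit 273170688)) (.cons (.rel (nat_lit 8598323268)) (.cons (.rel (nat_lit 8594130432)) .nil)))))))) (.cons (.rel (nat_lit 4831920132)) .nil))))) .nil)))) (.node .leaf (nat_lit 13828533024141624) (.br (nat_lit 0) (.cons (.br (nat_lit 1) (.cons (.rel (nat_lit 25167105)) .nil)) .nil)) .leaf)) (nat_lit 13828533024142069) (.br (nat_lit 3) (.cons (.br (nat_lit 5) (.cons (.rel (nat_lit 4831870992)) (.cons (.br (nat_lit 1) (.cons (.rel (nat_lit 4328522754)) (.cons (.rel (nat_lit 4312006728)) (.cons (.rel (nat_lit 4311765252)) (.cons (.rel (nat_lit 4312809540)) .nil))))) (.cons (.rel (nat_lit 8858386464)) (.cons (.rel (nat_lit 4831870992)) (.cons (.rel (nat_lit 4831870992)) .nil)))))) (.cons (.br (nat_lit 1) (.cons (.rel (nat_lit 301995024)) (.cons (.rel (nat_lit 301989960)) (.cons (.rel (nat_lit 301995024)) (.cons (.br (nat_lit 5) (.cons (.rel (nat_lit 4563403032)) (.cons (.rel (nat_lit 4312809540)) (.cons (.rel (nat_lit 8858435604)) (.cons (.rel (nat_lit 4563403032)) (.cons (.rel (nat_lit 4563403032)) .nil)))))) .nil))))) (.cons (.br (nat_lit 1) (.cons (.rel (nat_lit 302057472)) (.cons (.br (nat_lit 2) (.cons (.rel (nat_lit 84154368)) (.cons (.rel (nat_lit 86507520)) (.cons (.rel (nat_lit 402658308)) (.cons (.rel (nat_lit 84148290)) (.cons (.rel (nat_lit 402658308)) (.cons (.rel (nat_lit 84934785)) .nil))))))) (.cons (.rel (nat_lit 302057472)) (.cons (.rel (nat_lit 301989960)) .nil))))) .nil)))) (.node (.node .leaf (nat_lit 13828533024142088) (.br (nat_lit 3) (.cons (.br (nat_lit 0) (.cons (.br (nat_lit 6) (.cons (.rel (nat_lit 17184326976)) (.cons (.rel (nat_lit 17184326976)) (.cons (.rel (nat_lit 17184066177)) .nil)))) (.cons (.rel (nat_lit 276824400)) .nil))) .nil)) .leaf) (nat_lit 13828533024142569) (.br (nat_lit 3) (.cons (.br (nat_lit 1) (.cons (.br (nat_lit 6) (.cons (.rel (nat_lit 17196652608)) (.cons (.rel (nat_lit 17197171968)) (.cons (.rel (nat_lit 17196777489)) (.cons (.rel (nat_lit 17448312912)) (.cons (.rel (nat_lit 17196652608)) (.cons (.rel (nat_lit 17196646530)) (.cons (.rel (nat_lit 17197171968)) (.cons (.rel (nat_lit 17198219265)) (.cons (.rel (nat_lit 17196712032)) .nil)))))))))) (.cons (.br (nat_lit 5) (.cons (.rel (nat_lit 4831870992)) (.cons (.rel (nat_lit 4312006728)) (.cons (.rel (nat_lit 4563423552)) (.cons (.rel (nat_lit 8858386464)) (.cons (.rel (nat_lit 4831870992)) (.cons (.rel (nat_lit 4563423552)) (.cons (.rel (nat_lit 4328521749)) (.cons (.rel (nat_lit 8858386464)) (.cons (.rel (nat_lit 4831870992)) (.cons (.rel (nat_lit 4831870992)) (.cons (.rel (nat_lit 4563423552)) (.cons (.rel (nat_lit 8606713857)) (.cons (.rel (nat_lit 4311765252)) .nil)))))))))))))) (.cons (.br (nat_lit 0) (.cons (.rel (nat_lit 20979720)) (.cons (.rel (nat_lit 20979720)) (.cons (.rel (nat_lit 21038145)) (.cons (.rel (nat_lit 273170688)) (.cons (.rel (nat_lit 20972688)) (.cons (.rel (nat_lit 545259537)) (.cons (.rel (nat_lit 20979720)) (.cons (.rel (nat_lit 20972688)) (.cons (.rel (nat_lit 41947140)) (.cons (.rel (nat_lit 20972688)) .nil))))))))))) (.cons (.rel (nat_lit 285229440)) (.cons (.br (nat_lit 0) (.cons (.rel (nat_lit 26214402)) (.cons (.rel (nat_lit 38273088)) (.cons (.rel (nat_lit 293605440)) (.cons (.rel (nat_lit 273170688)) (.cons (.rel (nat_lit 25167105)) (.cons (.rel (nat_lit 545259537)) (.cons (.rel (nat_lit 20979720)) (.cons (.rel (nat_lit 38273088)) (.cons (.rel (nat_lit 41947140)) (.cons (.rel (nat_lit 25167105)) .nil))))))))))) .nil)))))) (.cons (.br (nat_lit 1) (.cons (.rel (nat_lit 301995024)) (.cons (.rel (nat_lit 301989960)) (.cons (.rel (nat_lit 301995024)) (.cons (.rel (nat_lit 285212934)) (.cons (.br (nat_lit 5) (.cons (.rel (nat_lit 4563403032)) (.cons (.rel (nat_lit 4580184072)) (.cons (.rel (nat_lit 4563404037)) (.cons (.rel (nat_lit 8858435604)) (.cons (.rel (nat_lit 4563403032)) (.cons (.rel (nat_lit 4563404037)) (.cons (.rel (nat_lit 4311765252)) (.cons (.rel (nat_lit 8858435604)) (.cons (.rel (nat_lit 4563403032)) (.cons (.rel (nat_lit 4563403032)) (.cons (.rel (nat_lit 4563404037)) (.cons (.rel (nat_lit 8606720064)) (.cons (.rel (nat_lit 4312006728)) .nil)))))))))))))) .nil)))))) (.cons (.br (nat_lit 1) (.cons (.rel (nat_lit 302057472)) (.cons (.br (nat_lit 4) (.cons (.rel (nat_lit 1090524480)) (.cons (.rel (nat_lit 2415920196)) (.cons (.rel (nat_lit 1342324992)) (.cons (.rel (nat_lit 1343226888)) (.cons (.rel (nat_lit 1629487104)) (.cons (.rel (nat_lit 1342324992)) (.cons (.rel (nat_lit 1343226888)) (.cons (.rel (nat_lit 1090524480)) (.cons (.br (nat_lit 6) (.cons (.rel (nat_lit 19327354368)) (.cons (.rel (nat_lit 34896609285)) (.cons (.rel (nat_lit 34393292865)) (.cons (.rel (nat_lit 17448304650)) (.cons (.rel (nat_lit 19864227840)) (.cons (.rel (nat_lit 34393292865)) (.cons (.rel (nat_lit 17448304650)) (.cons (.rel (nat_lit 34393292865)) (.cons (.rel (nat_lit 35433482496)) .nil)))))))))) (.cons (.rel (nat_lit 2415984648)) (.cons (.rel (nat_lit 1342324992)) (.cons (.rel (nat_lit 1343226888)) (.cons (.rel (nat_lit 2181300480)) .nil)))))))))))))) (.cons (.rel (nat_lit 302057472)) (.cons (.rel (nat_lit 285348096)) (.cons (.rel (nat_lit 301989960)) .nil)))))) .nil)))) (.node .leaf (nat_lit 13828533024250166) (.br (nat_lit 3) (.cons (.br (nat_lit 0) (.cons (.br (nat_lit 1) (.cons (.rel (nat_lit 41947140)) (.cons (.rel (nat_lit 38798592)) (.cons (.rel (nat_lit 289669392)) (.cons (.rel (nat_lit 20979720)) .nil))))) (.cons (.br (nat_lit 1) (.cons (.rel (nat_lit 38798592)) (.cons (.rel (nat_lit 20979720)) (.cons (.rel (nat_lit 20972688)) (.cons (.rel (nat_lit 21299712)) .nil))))) (.cons (.rel (nat_lit 545259537)) (.cons (.br (nat_lit 1) (.cons (.rel (nat_lit 20979720)) (.cons (.rel (nat_lit 41947140)) (.cons (.rel (nat_lit 21038145)) (.cons (.rel (nat_lit 558891024)) .nil))))) .nil))))) (.cons (.br (nat_lit 5) (.cons (.rel (nat_lit 4563404037)) (.cons (.rel (nat_lit 8858371152)) (.cons (.br (nat_lit 0) (.cons (.rel (nat_lit 8862826560)) (.cons (.rel (nat_lit 8598323268)) (.cons (.rel (nat_lit 276889857)) (.cons (.rel (nat_lit 4299161736)) .nil))))) (.cons (.rel (nat_lit 4563423552)) (.cons (.rel (nat_lit 4563423552)) .nil)))))) (.cons (.br (nat_lit 1) (.cons (.br (nat_lit 0) (.cons (.rel (nat_lit 41947140)) (.cons (.rel (nat_lit 38798592)) (.cons (.rel (nat_lit 306450432)) (.cons (.rel (nat_lit 20979720)) .nil))))) (.cons (.rel (nat_lit 301989960)) (.cons (.rel (nat_lit 302057472)) (.cons (.br (nat_lit 2) (.cons (.rel (nat_lit 84943872)) (.cons (.rel (nat_lit 402658308)) (.cons (.rel (nat_lit 84148290)) (.cons (.rel (nat_lit 86507520)) (.cons (.rel (nat_lit 83902800)) .nil)))))) .nil))))) .nil)))) .leaf))) (nat_lit 13828533024250632) (.br (nat_lit 0) (.cons (.br (nat_lit 1) (.cons (.rel (nat_lit 20972688)) (.cons (.rel (nat_lit 21038145)) .nil))) .nil)) (.node (.node (.node (.node .leaf (nat_lit 13828533024250666) (.br (nat_lit 0) (.cons (.br (nat_lit 6) (.cons (.rel (nat_lit 34368128322)) (.cons (.rel (nat_lit 17184072192)) (.cons (.rel (nat_lit 17184342288)) .nil)))) (.cons (.br (nat_lit 1) (.cons (.rel (nat_lit 26214402)) (.cons (.rel (nat_lit 20979720)) (.cons (.rel (nat_lit 20972688)) .nil)))) (.cons (.br (nat_lit 1) (.cons (.rel (nat_lit 20979720)) (.cons (.rel (nat_lit 41947140)) (.cons (.rel (nat_lit 21038145)) .nil)))) .nil)))) .leaf) (nat_lit 13828533024251166) (.br (nat_lit 3) (.cons (.br (nat_lit 0) (.cons (.br (nat_lit 1) (.cons (.rel (nat_lit 25166100)) (.cons (.rel (nat_lit 20988000)) (.cons (.rel (nat_lit 20979720)) (.cons (.rel (nat_lit 25166100)) (.cons (.rel (nat_lit 21038145)) (.cons (.rel (nat_lit 39845889)) .nil))))))) (.cons (.br (nat_lit 1) (.cons (.rel (nat_lit 41947140)) (.cons (.rel (nat_lit 21299712)) (.cons (.rel (nat_lit 21299712)) (.cons (.rel (nat_lit 26214402)) (.cons (.rel (nat_lit 21102597)) (.cons (.rel (nat_lit 289669392)) .nil))))))) (.cons (.br (nat_lit 1) (.cons (.rel (nat_lit 41947140)) (.cons (.rel (nat_lit 26214402)) (.cons (.rel (nat_lit 41947140)) (.cons (.rel (nat_lit 20979720)) (.cons (.rel (nat_lit 21038145)) (.cons (.rel (nat_lit 25428096)) .nil))))))) (.cons (.br (nat_lit 1) (.cons (.rel (nat_lit 306450432)) (.cons (.rel (nat_lit 26214402)) (.cons (.rel (nat_lit 289669392)) (.cons (.rel (nat_lit 20979720)) (.cons (.rel (nat_lit 20988000)) (.cons (.rel (nat_lit 20972688)) .nil))))))) (.cons (.rel (nat_lit 272666640)) (.cons (.rel (nat_lit 272666640)) (.cons (.br (nat_lit 1) (.cons (.rel (nat_lit 20979720)) (.cons (.rel (nat_lit 20979720)) (.cons (.rel (nat_lit 21299712)) (.cons (.rel (nat_lit 41947140)) (.cons (.rel (nat_lit 21037140)) (.cons (.rel (nat_lit 21038145)) .nil))))))) .nil)))))))) (.cons (.br (nat_lit 1) (.cons (.rel (nat_lit 301989960)) (.cons (.br (nat_lit 0) (.cons (.rel (nat_lit 277086216)) (.cons (.rel (nat_lit 21299712)) (.cons (.rel (nat_lit 277086216)) (.cons (.rel (nat_lit 289669392)) (.cons (.rel (nat_lit 272630808)) (.cons (.rel (nat_lit 272630808)) (.cons (.rel (nat_lit 20979720)) .nil)))))))) (.cons (.rel (nat_lit 301989960)) (.cons (.br (nat_lit 0) (.cons (.rel (nat_lit 277086216)) (.cons (.rel (nat_lit 38798592)) (.cons (.rel (nat_lit 277086216)) (.cons (.rel (nat_lit 20979720)) (.cons (.rel (nat_lit 272630808)) (.cons (.rel (nat_lit 272630808)) (.cons (.rel (nat_lit 41947140)) .nil)))))))) (.cons (.br (nat_lit 0) (.cons (.rel (nat_lit 277086216)) (.cons (.rel (nat_lit 21102597)) (.cons (.rel (nat_lit 277086216)) (.cons (.rel (nat_lit 20988000)) (.cons (.rel (nat_lit 272630808)) (.cons (.rel (nat_lit 272630808)) (.cons (.rel (nat_lit 21037140)) .nil)))))))) (.cons (.rel (nat_lit 301995024)) .nil))))))) (.cons (.br (nat_lit 0) (.cons (.rel (nat_lit 277086216)) (.cons (.br (nat_lit 1) (.cons (.rel (nat_lit 41947140)) (.cons (.rel (nat_lit 21299712)) (.cons (.rel (nat_lit 21299712)) (.cons (.rel (nat_lit 301989960)) (.cons (.rel (nat_lit 21102597)) (.cons (.rel (nat_lit 302057472)) .nil))))))) (.cons (.rel (nat_lit 277086216)) (.cons (.br (nat_lit 4) (.cons (.rel (nat_lit 2415920196)) (.cons (.rel (nat_lit 1077946368)) (.cons (.rel (nat_lit 1610679360)) (.cons (.rel (nat_lit 2415984648)) (.cons (.rel (nat_lit 1078005792)) (.cons (.rel (nat_lit 1077956616)) (.cons (.rel (nat_lit 1343226888)) .nil)))))))) (.cons (.rel (nat_lit 272631813)) (.cons (.rel (nat_lit 545259537)) (.cons (.br (nat_lit 1) (.cons (.rel (nat_lit 20979720)) (.cons (.rel (nat_lit 20979720)) (.cons (.rel (nat_lit 21299712)) (.cons (.rel (nat_lit 301989960)) (.cons (.rel (nat_lit 21037140)) (.cons (.rel (nat_lit 302057472)) .nil))))))) .nil)))))))) .nil)))) .leaf) (nat_lit 13828595277379835) (.br (nat_lit 3) (.cons (.br (nat_lit 0) (.cons (.rel (nat_lit 272631813)) (.cons (.rel (nat_lit 541589508)) (.cons (.rel (nat_lit 545259537)) (.cons (.rel (nat_lit 541589508)) (.cons (.rel (nat_lit 277086216)) .nil)))))) (.cons (.br (nat_lit 5) (.cons (.rel (nat_lit 4564452384)) (.cons (.rel (nat_lit 4563681345)) (.cons (.rel (nat_lit 4564452384)) .nil)))) .nil))) (.node .leaf (nat_lit 13828595277380341) (.br (nat_lit 4) (.cons (.br (nat_lit 5) (.cons (.br (nat_lit 3) (.cons (.rel (nat_lit 4564452384)) (.cons (.rel (nat_lit 5637210144)) .nil))) .nil)) .nil)) .leaf)) (nat_lit 13828595277380360) (.br (nat_lit 0) (.cons (.br (nat_lit 3) (.cons (.rel (nat_lit 545259537)) .nil)) .nil)) (.node (.node .leaf (nat_lit 13828595277488904) (.br (nat_lit 0) (.cons (.br (nat_lit 3) (.cons (.rel (nat_lit 272629794)) .nil)) .nil)) .leaf) (nat_lit 13828595279172841) (.br (nat_lit 3) (.cons (.br (nat_lit 5) (.cons (.br (nat_lit 1) (.cons (.rel (nat_lit 4328521749)) (.cons (.rel (nat_lit 4328521749)) (.cons (.rel (nat_lit 4580184072)) .nil)))) .nil)) .nil)) (.node .leaf (nat_lit 13828595279177979) (.br (nat_lit 3) (.cons (.br (nat_lit 0) (.cons (.rel (nat_lit 276824400)) (.cons (.rel (nat_lit 541589508)) (.cons (.rel (nat_lit 272631813)) (.cons (.rel (nat_lit 541589508)) .nil))))) (.cons (.br (nat_lit 5) (.cons (.rel (nat_lit 4563403032)) (.cons (.rel (nat_lit 4564452384)) (.cons (.rel (nat_lit 4563665028)) (.cons (.rel (nat_lit 8858436609)) (.cons (.rel (nat_lit 4563403032)) .nil)))))) (.cons (.br (nat_lit 2) (.cons (.rel (nat_lit 335545608)) (.cons (.br (nat_lit 0) (.cons (.rel (nat_lit 71319624)) (.cons (.rel (nat_lit 72876033)) (.cons (.rel (nat_lit 273170688)) (.cons (.rel (nat_lit 272631813)) .nil))))) (.cons (.rel (nat_lit 402658308)) (.cons (.rel (nat_lit 335545608)) (.cons (.rel (nat_lit 336592905)) .nil)))))) .nil)))) .leaf))))))) (nat_lit 13828595279178485) (.br (nat_lit 0) (.cons (.br (nat_lit 3) (.cons (.rel (nat_lit 272631813)) (.cons (.rel (nat_lit 273170688)) .nil))) (.cons (.br (nat_lit 3) (.cons (.rel (nat_lit 541589508)) (.cons (.rel (nat_lit 272631813)) .nil))) .nil))) (.node (.node (.node (.node (.node (.node (.node (.node .leaf (nat_lit 13828595279178504) (.br (nat_lit 3) (.cons (.br (nat_lit 6) (.cons (.rel (nat_lit 34628436000)) (.cons (.rel (nat_lit 17449746720)) .nil))) .nil)) .leaf) (nat_lit 13828595279178985) (.br (nat_lit 3) (.cons (.br (nat_lit 0) (.cons (.rel (nat_lit 272629794)) (.cons (.rel (nat_lit 274727172)) (.cons (.rel (nat_lit 273170688)) (.cons (.rel (nat_lit 272629794)) .nil))))) .nil)) .leaf) (nat_lit 13828595279281438) (.br (nat_lit 0) (.cons (.br (nat_lit 5) (.cons (.rel (nat_lit 4299161736)) .nil)) .nil)) (.node .leaf (nat_lit 13828595280183547) (.br (nat_lit 3) (.cons (.br (nat_lit 5) (.cons (.rel (nat_lit 4564452384)) (.cons (.br (nat_lit 0) (.cons (.rel (nat_lit 541589508)) (.cons (.rel (nat_lit 8598339585)) (.cons (.rel (nat_lit 272631813)) (.cons (.rel (nat_lit 272629794)) (.cons (.rel (nat_lit 272629794)) .nil)))))) (.cons (.rel (nat_lit 8858386464)) .nil)))) (.cons (.br (nat_lit 0) (.cons (.rel (nat_lit 272638020)) (.cons (.br (nat_lit 5) (.cons (.rel (nat_lit 8598323268)) (.cons (.rel (nat_lit 4563403032)) (.cons (.rel (nat_lit 4303358208)) .nil)))) (.cons (.rel (nat_lit 276889857)) (.cons (.rel (nat_lit 272631813)) (.cons (.rel (nat_lit 272630808)) .nil)))))) (.cons (.br (nat_lit 5) (.cons (.rel (nat_lit 8858386464)) (.cons (.rel (nat_lit 4563734544)) (.cons (.rel (nat_lit 4564452384)) .nil)))) .nil)))) .leaf)) (nat_lit 13828595280183556) (.br (nat_lit 3) (.cons (.br (nat_lit 5) (.cons (.rel (nat_lit 8858386464)) .nil)) .nil)) (.node (.node (.node .leaf (nat_lit 13828595280184053) (.br (nat_lit 3) (.cons (.br (nat_lit 5) (.cons (.rel (nat_lit 4564452384)) (.cons (.rel (nat_lit 4564452384)) .nil))) (.cons (.br (nat_lit 0) (.cons (.rel (nat_lit 272629794)) (.cons (.rel (nat_lit 272631813)) (.cons (.rel (nat_lit 541589508)) .nil)))) .nil))) .leaf) (nat_lit 13828595280184072) (.br (nat_lit 3) (.cons (.br (nat_lit 0) (.cons (.rel (nat_lit 545259537)) (.cons (.rel (nat_lit 273973512)) .nil))) .nil)) .leaf) (nat_lit 13828595280195835) (.br (nat_lit 0) (.cons (.br (nat_lit 2) (.cons (.rel (nat_lit 71303298)) (.cons (.rel (nat_lit 71319624)) (.cons (.rel (nat_lit 72618240)) .nil)))) (.cons (.br (nat_lit 2) (.cons (.rel (nat_lit 138412560)) (.cons (.rel (nat_lit 72876033)) (.cons (.rel (nat_lit 71303298)) .nil)))) (.cons (.br (nat_lit 2) (.cons (.br (nat_lit 3) (.cons (.rel (nat_lit 272630808)) (.cons (.rel (nat_lit 542392320)) (.cons (.rel (nat_lit 341839872)) .nil)))) (.cons (.rel (nat_lit 71828736)) (.cons (.rel (nat_lit 71324688)) .nil)))) .nil)))) (.node .leaf (nat_lit 13828595280195841) (.br (nat_lit 3) (.cons (.br (nat_lit 6) (.cons (.rel (nat_lit 17448304650)) (.cons (.rel (nat_lit 17717264400)) (.cons (.rel (nat_lit 17450402064)) (.cons (.rel (nat_lit 34628436000)) .nil))))) (.cons (.br (nat_lit 2) (.cons (.rel (nat_lit 335545608)) (.cons (.br (nat_lit 6) (.cons (.rel (nat_lit 34493960208)) (.cons (.rel (nat_lit 17246979204)) (.cons (.rel (nat_lit 17448304650)) (.cons (.rel (nat_lit 17246986272)) .nil))))) (.cons (.rel (nat_lit 335839233)) .nil)))) .nil))) .leaf))) (nat_lit 13828595280196344) (.br (nat_lit 2) (.cons (.br (nat_lit 3) (.cons (.rel (nat_lit 336592905)) .nil)) .nil)) (.node (.node (.node (.node .leaf (nat_lit 13828597479498504) (.br (nat_lit 3) (.cons (.br (nat_lit 6) (.cons (.rel (nat_lit 17448304650)) .nil)) .nil)) .leaf) (nat_lit 13828597481187579) (.br (nat_lit 3) (.cons (.br (nat_lit 4) (.cons (.rel (nat_lit 1343225874)) .nil)) .nil)) .leaf) (nat_lit 13828597481291035) (.br (nat_lit 0) (.cons (.br (nat_lit 1) (.cons (.rel (nat_lit 21102597)) .nil)) .nil)) (.node .leaf (nat_lit 13828597482193147) (.br (nat_lit 2) (.cons (.br (nat_lit 0) (.cons (.rel (nat_lit 73662528)) (.cons (.rel (nat_lit 71303298)) (.cons (.rel (nat_lit 71311380)) .nil)))) (.cons (.br (nat_lit 0) (.cons (.rel (nat_lit 71828736)) (.cons (.rel (nat_lit 71311380)) (.cons (.rel (nat_lit 71309376)) .nil)))) .nil))) .leaf)) (nat_lit 13828597482193672) (.br (nat_lit 3) (.cons (.br (nat_lit 0) (.cons (.rel (nat_lit 545259537)) (.cons (.rel (nat_lit 541589508)) (.cons (.rel (nat_lit 272630808)) .nil)))) .nil)) (.node (.node .leaf (nat_lit 13828597482205435) (.br (nat_lit 0) (.cons (.br (nat_lit 6) (.cons (.rel (nat_lit 17184326976)) .nil)) .nil)) .leaf) (nat_lit 13828597560873736) (.br (nat_lit 0) (.cons (.br (nat_lit 6) (.cons (.rel (nat_lit 34368131328)) (.cons (.rel (nat_lit 34364080128)) .nil))) .nil)) (.node .leaf (nat_lit 13828597561885448) (.br (nat_lit 0) (.cons (.br (nat_lit 3) (.cons (.rel (nat_lit 277086216)) .nil)) .nil)) .leaf)))) (nat_lit 13828597562006761) (.br (nat_lit 0) (.cons (.br (nat_lit 1) (.cons (.rel (nat_lit 20979720)) .nil)) .nil)) (.node (.node (.node (.node (.node .leaf (nat_lit 13832832182925569) (.br (nat_lit 3) (.cons (.br (nat_lit 2) (.cons (.rel (nat_lit 402653280)) (.cons (.br (nat_lit 4) (.cons (.rel (nat_lit 1140920592)) (.cons (.rel (nat_lit 1207959573)) (.cons (.rel (nat_lit 1342177572)) (.cons (.rel (nat_lit 1141112928)) (.cons (.rel (nat_lit 1342177572)) (.cons (.rel (nat_lit 2415935508)) (.cons (.rel (nat_lit 1141178385)) .nil)))))))) (.cons (.br (nat_lit 0) (.cons (.rel (nat_lit 71335941)) (.cons (.rel (nat_lit 72876033)) (.cons (.rel (nat_lit 273170688)) (.cons (.rel (nat_lit 71319624)) (.cons (.rel (nat_lit 71309376)) (.cons (.rel (nat_lit 71303298)) (.cons (.rel (nat_lit 71309376)) .nil)))))))) (.cons (.br (nat_lit 1) (.cons (.rel (nat_lit 86507520)) (.cons (.rel (nat_lit 301989960)) (.cons (.rel (nat_lit 83902800)) (.cons (.rel (nat_lit 285540432)) (.cons (.rel (nat_lit 352584192)) (.cons (.rel (nat_lit 169082880)) (.cons (.rel (nat_lit 301989960)) (.cons (.rel (nat_lit 84154368)) .nil))))))))) (.cons (.rel (nat_lit 402653280)) (.cons (.br (nat_lit 4) (.cons (.rel (nat_lit 1141131264)) (.cons (.rel (nat_lit 1140884772)) (.cons (.rel (nat_lit 1342177572)) (.cons (.rel (nat_lit 1140867393)) (.cons (.rel (nat_lit 1342177572)) (.cons (.rel (nat_lit 2415935508)) (.cons (.rel (nat_lit 1140851076)) .nil)))))))) .nil))))))) (.cons (.br (nat_lit 2) (.cons (.br (nat_lit 6) (.cons (.rel (nat_lit 17316184065)) (.cons (.rel (nat_lit 17246986272)) (.cons (.rel (nat_lit 17448453120)) (.cons (.rel (nat_lit 34426848513)) (.cons (.rel (nat_lit 17247111168)) (.cons (.rel (nat_lit 17314611264)) (.cons (.rel (nat_lit 17516478720)) (.cons (.rel (nat_lit 34493960208)) .nil))))))))) (.cons (.br (nat_lit 1) (.cons (.rel (nat_lit 302057472)) (.cons (.rel (nat_lit 86507520)) (.cons (.rel (nat_lit 84148290)) (.cons (.rel (nat_lit 553780224)) (.cons (.rel (nat_lit 83968257)) (.cons (.rel (nat_lit 302057472)) (.cons (.rel (nat_lit 83968257)) (.cons (.rel (nat_lit 302057472)) .nil))))))))) (.cons (.rel (nat_lit 402671616)) (.cons (.br (nat_lit 0) (.cons (.rel (nat_lit 71434257)) (.cons (.rel (nat_lit 344064000)) (.cons (.rel (nat_lit 71311380)) (.cons (.rel (nat_lit 71368800)) (.cons (.rel (nat_lit 142606401)) (.cons (.rel (nat_lit 142606401)) (.cons (.rel (nat_lit 75497760)) .nil)))))))) (.cons (.br (nat_lit 0) (.cons (.rel (nat_lit 71303298)) (.cons (.rel (nat_lit 71434257)) (.cons (.rel (nat_lit 71324688)) (.cons (.rel (nat_lit 71303298)) (.cons (.rel (nat_lit 71368800)) (.cons (.rel (nat_lit 71309376)) (.cons (.rel (nat_lit 142606401)) .nil)))))))) (.cons (.rel (nat_lit 402671616)) .nil))))))) (.cons (.br (nat_lit 2) (.cons (.rel (nat_lit 402718737)) (.cons (.br (nat_lit 1) (.cons (.rel (nat_lit 301995024)) (.cons (.rel (nat_lit 302006277)) (.cons (.rel (nat_lit 84148290)) (.cons (.rel (nat_lit 285213984)) (.cons (.rel (nat_lit 83968257)) (.cons (.rel (nat_lit 301995024)) (.cons (.rel (nat_lit 302006277)) (.cons (.rel (nat_lit 301995024)) .nil))))))))) (.cons (.rel (nat_lit 402658308)) (.cons (.br (nat_lit 4) (.cons (.rel (nat_lit 1342177572)) (.cons (.rel (nat_lit 2415935508)) (.cons (.rel (nat_lit 1342324992)) (.cons (.rel (nat_lit 1140851076)) (.cons (.rel (nat_lit 1342324992)) (.cons (.rel (nat_lit 1140920592)) (.cons (.rel (nat_lit 1141112928)) .nil)))))))) (.cons (.rel (nat_lit 402718737)) (.cons (.rel (nat_lit 402658308)) .nil))))))) .nil)))) .leaf) (nat_lit 13832832182926069) (.br (nat_lit 3) (.cons (.br (nat_lit 4) (.cons (.br (nat_lit 1) (.cons (.rel (nat_lit 301989960)) (.cons (.rel (nat_lit 1090539792)) (.cons (.rel (nat_lit 553717776)) (.cons (.rel (nat_lit 1090539792)) (.cons (.rel (nat_lit 1090524480)) .nil)))))) (.cons (.br (nat_lit 1) (.cons (.rel (nat_lit 301989960)) (.cons (.rel (nat_lit 1091043840)) (.cons (.rel (nat_lit 553717776)) (.cons (.rel (nat_lit 1091043840)) (.cons (.rel (nat_lit 1090602240)) .nil)))))) (.cons (.rel (nat_lit 1342177572)) (.cons (.rel (nat_lit 2415935508)) .nil))))) (.cons (.br (nat_lit 1) (.cons (.br (nat_lit 2) (.cons (.rel (nat_lit 86507520)) (.cons (.rel (nat_lit 402671616)) (.cons (.rel (nat_lit 604013568)) (.cons (.rel (nat_lit 402671616)) (.cons (.rel (nat_lit 86507520)) .nil)))))) (.cons (.br (nat_lit 4) (.cons (.rel (nat_lit 1342324992)) (.cons (.rel (nat_lit 1091043840)) (.cons (.rel (nat_lit 1090602240)) (.cons (.rel (nat_lit 1360265472)) .nil))))) (.cons (.rel (nat_lit 553780224)) (.cons (.rel (nat_lit 302057472)) (.cons (.rel (nat_lit 302057472)) .nil)))))) (.cons (.br (nat_lit 4) (.cons (.rel (nat_lit 1342177572)) (.cons (.rel (nat_lit 2415935508)) (.cons (.rel (nat_lit 1342324992)) (.cons (.br (nat_lit 5) (.cons (.rel (nat_lit 8858386464)) (.cons (.rel (nat_lit 4563501312)) (.cons (.rel (nat_lit 5368742148)) (.cons (.rel (nat_lit 4563501312)) (.cons (.rel (nat_lit 4563403032)) .nil)))))) .nil))))) .nil)))) .leaf) (nat_lit 13832832182926088) (.br (nat_lit 0) (.cons (.br (nat_lit 4) (.cons (.rel (nat_lit 1077946368)) (.cons (.rel (nat_lit 1077946368)) .nil))) .nil)) (.node .leaf (nat_lit 13832832182926569) (.br (nat_lit 3) (.cons (.br (nat_lit 4) (.cons (.rel (nat_lit 1342439568)) (.cons (.br (nat_lit 0) (.cons (.rel (nat_lit 1078005792)) (.cons (.rel (nat_lit 1083179040)) (.cons (.rel (nat_lit 1077937281)) (.cons (.rel (nat_lit 1082523648)) (.cons (.rel (nat_lit 277086216)) (.cons (.rel (nat_lit 1078068240)) (.cons (.rel (nat_lit 2155877376)) (.cons (.rel (nat_lit 1078018050)) .nil))))))))) (.cons (.br (nat_lit 6) (.cons (.rel (nat_lit 35433746496)) (.cons (.rel (nat_lit 36507222096)) (.cons (.rel (nat_lit 35434529793)) (.cons (.rel (nat_lit 18523357188)) (.cons (.rel (nat_lit 18253676625)) (.cons (.rel (nat_lit 19327354368)) (.cons (.rel (nat_lit 18253611168)) (.cons (.rel (nat_lit 34628436000)) .nil))))))))) (.cons (.br (nat_lit 5) (.cons (.rel (nat_lit 5368718592)) (.cons (.rel (nat_lit 4563403032)) (.cons (.rel (nat_lit 8858386464)) (.cons (.rel (nat_lit 4563403032)) (.cons (.rel (nat_lit 4563665028)) (.cons (.rel (nat_lit 5905580544)) (.cons (.rel (nat_lit 5368975380)) (.cons (.rel (nat_lit 5368718592)) .nil))))))))) (.cons (.br (nat_lit 0) (.cons (.rel (nat_lit 1077946368)) (.cons (.rel (nat_lit 1078005792)) (.cons (.rel (nat_lit 1077937281)) (.cons (.rel (nat_lit 2155877376)) (.cons (.rel (nat_lit 277086216)) (.cons (.rel (nat_lit 1077946368)) (.cons (.rel (nat_lit 1078068240)) (.cons (.rel (nat_lit 1077952593)) .nil))))))))) (.cons (.rel (nat_lit 1342177572)) (.cons (.rel (nat_lit 2415935508)) .nil)))))))) (.cons (.br (nat_lit 4) (.cons (.rel (nat_lit 1342473216)) (.cons (.rel (nat_lit 1342324992)) (.cons (.br (nat_lit 0) (.cons (.rel (nat_lit 2155877376)) (.cons (.rel (nat_lit 1077937281)) (.cons (.rel (nat_lit 2155877376)) (.cons (.rel (nat_lit 1078068240)) (.cons (.rel (nat_lit 1077937281)) (.cons (.rel (nat_lit 1346376192)) (.cons (.rel (nat_lit 1078005792)) (.cons (.rel (nat_lit 273170688)) .nil))))))))) (.cons (.br (nat_lit 0) (.cons (.rel (nat_lit 1346376192)) (.cons (.rel (nat_lit 2155877376)) (.cons (.rel (nat_lit 2155877376)) (.cons (.rel (nat_lit 2155877376)) (.cons (.rel (nat_lit 1078068240)) (.cons (.rel (nat_lit 1614808320)) (.cons (.rel (nat_lit 1346376192)) (.cons (.rel (nat_lit 273170688)) .nil))))))))) (.cons (.rel (nat_lit 1342324992)) (.cons (.br (nat_lit 0) (.cons (.rel (nat_lit 1078068240)) (.cons (.rel (nat_lit 2155877376)) (.cons (.rel (nat_lit 1078005792)) (.cons (.rel (nat_lit 1614808320)) (.cons (.rel (nat_lit 1077946368)) (.cons (.rel (nat_lit 1077937281)) (.cons (.rel (nat_lit 1346376192)) (.cons (.rel (nat_lit 273170688)) .nil))))))))) (.cons (.br (nat_lit 0) (.cons (.rel (nat_lit 2155877376)) (.cons (.rel (nat_lit 2155877376)) (.cons (.rel (nat_lit 1614808320)) (.cons (.rel (nat_lit 1346376192)) (.cons (.rel (nat_lit 1078005792)) (.cons (.rel (nat_lit 1346376192)) (.cons (.rel (nat_lit 2155877376)) (.cons (.rel (nat_lit 273170688)) .nil))))))))) .nil)))))))) (.cons (.br (nat_lit 4) (.cons (.rel (nat_lit 1342459908)) (.cons (.rel (nat_lit 1342177572)) (.cons (.br (nat_lit 0) (.cons (.rel (nat_lit 2155877376)) (.cons (.rel (nat_lit 1077937281)) (.cons (.rel (nat_lit 2155877376)) (.cons (.rel (nat_lit 1078068240)) (.cons (.rel (nat_lit 277086216)) (.cons (.rel (nat_lit 1346376192)) (.cons (.rel (nat_lit 1078005792)) (.cons (.rel (nat_lit 274727172)) .nil))))))))) (.cons (.rel (nat_lit 2415935508)) (.cons (.rel (nat_lit 1342177572)) (.cons (.rel (nat_lit 1342324992)) (.cons (.br (nat_lit 0) (.cons (.rel (nat_lit 2155877376)) (.cons (.rel (nat_lit 2155877376)) (.cons (.rel (nat_lit 1346376192)) (.cons (.rel (nat_lit 1346376192)) (.cons (.rel (nat_lit 277086216)) (.cons (.rel (nat_lit 1614808320)) (.cons (.rel (nat_lit 2155877376)) (.cons (.rel (nat_lit 274727172)) .nil))))))))) .nil)))))))) .nil)))) .leaf)) (nat_lit 13832832183034166) (.br (nat_lit 3) (.cons (.br (nat_lit 4) (.cons (.br (nat_lit 0) (.cons (.rel (nat_lit 1078068240)) (.cons (.rel (nat_lit 1077937281)) (.cons (.rel (nat_lit 1078005792)) (.cons (.rel (nat_lit 1077946368)) .nil))))) (.cons (.rel (nat_lit 1342247232)) (.cons (.br (nat_lit 6) (.cons (.rel (nat_lit 36507222096)) (.cons (.rel (nat_lit 18254938368)) (.cons (.rel (nat_lit 18253629504)) (.cons (.rel (nat_lit 18253616196)) .nil))))) (.cons (.rel (nat_lit 2415935508)) .nil))))) (.cons (.br (nat_lit 4) (.cons (.rel (nat_lit 2415936513)) (.cons (.br (nat_lit 6) (.cons (.rel (nat_lit 17448453120)) (.cons (.rel (nat_lit 18253676625)) (.cons (.rel (nat_lit 18253611168)) (.cons (.rel (nat_lit 18253742082)) .nil))))) (.cons (.br (nat_lit 0) (.cons (.rel (nat_lit 1077946368)) (.cons (.rel (nat_lit 545259537)) (.cons (.rel (nat_lit 1077937281)) (.cons (.rel (nat_lit 1614808320)) .nil))))) (.cons (.rel (nat_lit 1342324992)) .nil))))) (.cons (.br (nat_lit 4) (.cons (.rel (nat_lit 2415920196)) (.cons (.rel (nat_lit 1342178577)) (.cons (.br (nat_lit 0) (.cons (.rel (nat_lit 1077946368)) (.cons (.rel (nat_lit 276824400)) (.cons (.rel (nat_lit 1077937281)) (.cons (.rel (nat_lit 1346376192)) .nil))))) (.cons (.rel (nat_lit 1342177572)) .nil))))) .nil)))) (.node (.node .leaf (nat_lit 13832832183034632) (.br (nat_lit 0) (.cons (.br (nat_lit 6) (.cons (.rel (nat_lit 17184072192)) .nil)) .nil)) .leaf) (nat_lit 13832832183034666) (.br (nat_lit 1) (.cons (.br (nat_lit 2) (.cons (.rel (nat_lit 86507520)) (.cons (.rel (nat_lit 84148290)) .nil))) (.cons (.br (nat_lit 2) (.cons (.rel (nat_lit 84164616)) (.cons (.rel (nat_lit 86507520)) .nil))) .nil))) (.node .leaf (nat_lit 13832832183035166) (.br (nat_lit 1) (.cons (.br (nat_lit 2) (.cons (.rel (nat_lit 169082880)) (.cons (.rel (nat_lit 83887488)) (.cons (.rel (nat_lit 169082880)) (.cons (.rel (nat_lit 84148290)) .nil))))) (.cons (.br (nat_lit 0) (.cons (.rel (nat_lit 21006336)) (.cons (.rel (nat_lit 21299712)) (.cons (.rel (nat_lit 20993028)) (.cons (.rel (nat_lit 25428096)) (.cons (.rel (nat_lit 20988000)) (.cons (.rel (nat_lit 20979720)) .nil))))))) (.cons (.br (nat_lit 2) (.cons (.rel (nat_lit 84943872)) (.cons (.rel (nat_lit 86507520)) (.cons (.rel (nat_lit 84164616)) (.cons (.rel (nat_lit 86507520)) .nil))))) .nil)))) .leaf))) (nat_lit 13832832184717569) (.br (nat_lit 3) (.cons (.br (nat_lit 4) (.cons (.br (nat_lit 1) (.cons (.rel (nat_lit 301989960)) (.cons (.rel (nat_lit 1091043840)) (.cons (.rel (nat_lit 1090797585)) (.cons (.rel (nat_lit 553717776)) (.cons (.rel (nat_lit 1090539792)) (.cons (.rel (nat_lit 1090524480)) (.cons (.rel (nat_lit 285483012)) (.cons (.rel (nat_lit 285483012)) (.cons (.rel (nat_lit 1090602240)) .nil)))))))))) (.cons (.br (nat_lit 5) (.cons (.rel (nat_lit 6442450980)) (.cons (.rel (nat_lit 5368718592)) (.cons (.rel (nat_lit 4563403032)) (.cons (.rel (nat_lit 4563665028)) (.cons (.rel (nat_lit 8858386464)) (.cons (.rel (nat_lit 4563403032)) (.cons (.rel (nat_lit 9663676440)) .nil)))))))) (.cons (.rel (nat_lit 1342177572)) (.cons (.br (nat_lit 5) (.cons (.rel (nat_lit 5905580544)) (.cons (.rel (nat_lit 5905580544)) (.cons (.rel (nat_lit 4563403032)) (.cons (.rel (nat_lit 4563665028)) (.cons (.rel (nat_lit 8858386464)) (.cons (.rel (nat_lit 4563403032)) (.cons (.rel (nat_lit 5368709505)) .nil)))))))) (.cons (.rel (nat_lit 1342177572)) (.cons (.rel (nat_lit 2415935508)) .nil))))))) (.cons (.br (nat_lit 4) (.cons (.rel (nat_lit 1342324992)) (.cons (.br (nat_lit 5) (.cons (.rel (nat_lit 5905580544)) (.cons (.rel (nat_lit 5368718592)) (.cons (.rel (nat_lit 8858436609)) (.cons (.rel (nat_lit 4563796992)) (.cons (.rel (nat_lit 5370282240)) (.cons (.rel (nat_lit 5368718592)) (.cons (.rel (nat_lit 4563501312)) .nil)))))))) (.cons (.rel (nat_lit 1342473216)) (.cons (.br (nat_lit 2) (.cons (.rel (nat_lit 1140983040)) (.cons (.rel (nat_lit 2483552256)) (.cons (.rel (nat_lit 1209008640)) (.cons (.rel (nat_lit 402671616)) (.cons (.rel (nat_lit 335839233)) (.cons (.rel (nat_lit 1745092608)) (.cons (.rel (nat_lit 402671616)) .nil)))))))) (.cons (.br (nat_lit 5) (.cons (.rel (nat_lit 5368840464)) (.cons (.rel (nat_lit 5368988688)) (.cons (.rel (nat_lit 8858436609)) (.cons (.rel (nat_lit 4563796992)) (.cons (.rel (nat_lit 5368975380)) (.cons (.rel (nat_lit 5368718592)) (.cons (.rel (nat_lit 4563501312)) .nil)))))))) (.cons (.br (nat_lit 5) (.cons (.rel (nat_lit 9663696960)) (.cons (.rel (nat_lit 5370282240)) (.cons (.rel (nat_lit 8858436609)) (.cons (.rel (nat_lit 4563796992)) (.cons (.rel (nat_lit 5368742148)) (.cons (.rel (nat_lit 5905580544)) (.cons (.rel (nat_lit 4563501312)) .nil)))))))) .nil))))))) (.cons (.br (nat_lit 4) (.cons (.rel (nat_lit 1342177572)) (.cons (.rel (nat_lit 2415935508)) (.cons (.rel (nat_lit 1342324992)) (.cons (.br (nat_lit 0) (.cons (.rel (nat_lit 2155877376)) (.cons (.rel (nat_lit 1078068240)) (.cons (.rel (nat_lit 274727172)) (.cons (.rel (nat_lit 277086216)) (.cons (.rel (nat_lit 1346376192)) (.cons (.rel (nat_lit 1078005792)) (.cons (.rel (nat_lit 2155877376)) (.cons (.rel (nat_lit 1077937281)) .nil))))))))) (.cons (.rel (nat_lit 1342324992)) (.cons (.br (nat_lit 5) (.cons (.rel (nat_lit 5905580544)) (.cons (.rel (nat_lit 8858386464)) (.cons (.rel (nat_lit 4563501312)) (.cons (.rel (nat_lit 4563681345)) (.cons (.rel (nat_lit 5368742148)) (.cons (.rel (nat_lit 4563501312)) (.cons (.rel (nat_lit 4563403032)) .nil)))))))) .nil))))))) .nil)))) (.node (.node (.node (.node .leaf (nat_lit 13832832184718069) (.br (nat_lit 3) (.cons (.br (nat_lit 1) (.cons (.rel (nat_lit 301989960)) (.cons (.br (nat_lit 2) (.cons (.rel (nat_lit 402653280)) (.cons (.rel (nat_lit 169082880)) (.cons (.rel (nat_lit 86507520)) (.cons (.rel (nat_lit 83887488)) (.cons (.rel (nat_lit 86507520)) .nil)))))) (.cons (.br (nat_lit 2) (.cons (.rel (nat_lit 402653280)) (.cons (.rel (nat_lit 83887488)) (.cons (.rel (nat_lit 84213792)) (.cons (.rel (nat_lit 83902800)) (.cons (.rel (nat_lit 83887488)) .nil)))))) (.cons (.br (nat_lit 2) (.cons (.rel (nat_lit 402653280)) (.cons (.rel (nat_lit 86507520)) (.cons (.rel (nat_lit 84148290)) (.cons (.rel (nat_lit 84967428)) (.cons (.rel (nat_lit 83968257)) .nil)))))) (.cons (.br (nat_lit 2) (.cons (.rel (nat_lit 402653280)) (.cons (.rel (nat_lit 86507520)) (.cons (.rel (nat_lit 352321620)) (.cons (.rel (nat_lit 83887488)) (.cons (.rel (nat_lit 352584192)) .nil)))))) .nil)))))) (.cons (.br (nat_lit 1) (.cons (.br (nat_lit 2) (.cons (.rel (nat_lit 86507520)) (.cons (.rel (nat_lit 402671616)) (.cons (.rel (nat_lit 100683840)) (.cons (.rel (nat_lit 402671616)) (.cons (.rel (nat_lit 85065744)) .nil)))))) (.cons (.rel (nat_lit 302057472)) (.cons (.rel (nat_lit 302057472)) (.cons (.br (nat_lit 2) (.cons (.rel (nat_lit 86507520)) (.cons (.rel (nat_lit 402671616)) (.cons (.rel (nat_lit 84148290)) (.cons (.rel (nat_lit 402671616)) (.cons (.rel (nat_lit 83968257)) .nil)))))) (.cons (.br (nat_lit 0) (.cons (.rel (nat_lit 20988000)) (.cons (.rel (nat_lit 21038145)) (.cons (.rel (nat_lit 38273088)) (.cons (.rel (nat_lit 20972688)) (.cons (.rel (nat_lit 20979720)) (.cons (.rel (nat_lit 21053457)) (.cons (.rel (nat_lit 38273088)) .nil)))))))) .nil)))))) (.cons (.br (nat_lit 1) (.cons (.rel (nat_lit 302006277)) (.cons (.rel (nat_lit 301995024)) (.cons (.rel (nat_lit 301995024)) (.cons (.br (nat_lit 2) (.cons (.rel (nat_lit 402718737)) (.cons (.rel (nat_lit 402658308)) (.cons (.rel (nat_lit 84148290)) (.cons (.rel (nat_lit 402658308)) (.cons (.rel (nat_lit 83968257)) .nil)))))) (.cons (.br (nat_lit 0) (.cons (.rel (nat_lit 20988000)) (.cons (.rel (nat_lit 21038145)) (.cons (.rel (nat_lit 38273088)) (.cons (.rel (nat_lit 20972688)) (.cons (.rel (nat_lit 274727172)) (.cons (.rel (nat_lit 21053457)) (.cons (.rel (nat_lit 38273088)) .nil)))))))) .nil)))))) .nil)))) .leaf) (nat_lit 13832832184718088) (.br (nat_lit 3) (.cons (.br (nat_lit 4) (.cons (.rel (nat_lit 1342177572)) .nil)) .nil)) .leaf) (nat_lit 13832832184718569) (.br (nat_lit 3) (.cons (.br (nat_lit 4) (.cons (.br (nat_lit 1) (.cons (.rel (nat_lit 301989960)) (.cons (.rel (nat_lit 1090797585)) (.cons (.rel (nat_lit 1090539792)) (.cons (.rel (nat_lit 1090524480)) .nil))))) (.cons (.br (nat_lit 1) (.cons (.rel (nat_lit 301989960)) (.cons (.rel (nat_lit 1091043840)) (.cons (.rel (nat_lit 1091043840)) (.cons (.rel (nat_lit 1090602240)) .nil))))) (.cons (.rel (nat_lit 1342177572)) (.cons (.rel (nat_lit 2415935508)) .nil))))) (.cons (.br (nat_lit 1) (.cons (.br (nat_lit 0) (.cons (.rel (nat_lit 20979720)) (.cons (.rel (nat_lit 25167105)) (.cons (.rel (nat_lit 41947140)) (.cons (.rel (nat_lit 38273088)) (.cons (.rel (nat_lit 20993028)) (.cons (.rel (nat_lit 293605440)) .nil))))))) (.cons (.br (nat_lit 2) (.cons (.rel (nat_lit 86507520)) (.cons (.rel (nat_lit 84164616)) (.cons (.rel (nat_lit 402671616)) (.cons (.rel (nat_lit 402671616)) .nil))))) (.cons (.rel (nat_lit 302057472)) (.cons (.rel (nat_lit 302057472)) .nil))))) (.cons (.br (nat_lit 1) (.cons (.rel (nat_lit 302006277)) (.cons (.br (nat_lit 2) (.cons (.rel (nat_lit 402718737)) (.cons (.rel (nat_lit 84164616)) (.cons (.rel (nat_lit 402658308)) (.cons (.rel (nat_lit 402658308)) .nil))))) (.cons (.rel (nat_lit 301995024)) (.cons (.rel (nat_lit 301995024)) .nil))))) .nil)))) (.node .leaf (nat_lit 13832832184826166) (.br (nat_lit 3) (.cons (.br (nat_lit 4) (.cons (.br (nat_lit 0) (.cons (.rel (nat_lit 277086216)) (.cons (.rel (nat_lit 1078068240)) (.cons (.rel (nat_lit 277086216)) (.cons (.rel (nat_lit 1078005792)) (.cons (.rel (nat_lit 545259537)) (.cons (.rel (nat_lit 1077946368)) .nil))))))) (.cons (.rel (nat_lit 1342247232)) (.cons (.br (nat_lit 5) (.cons (.rel (nat_lit 5905580544)) (.cons (.rel (nat_lit 5637210144)) (.cons (.rel (nat_lit 4563423552)) (.cons (.rel (nat_lit 5368975380)) .nil))))) (.cons (.rel (nat_lit 2415935508)) .nil))))) (.cons (.br (nat_lit 4) (.cons (.rel (nat_lit 2415936513)) (.cons (.br (nat_lit 6) (.cons (.rel (nat_lit 34896609285)) (.cons (.rel (nat_lit 18253676625)) (.cons (.rel (nat_lit 35701923840)) (.cons (.rel (nat_lit 34896609285)) (.cons (.rel (nat_lit 18253611168)) (.cons (.rel (nat_lit 18253631508)) (.cons (.rel (nat_lit 18253742082)) .nil)))))))) (.cons (.br (nat_lit 5) (.cons (.rel (nat_lit 5905580544)) (.cons (.rel (nat_lit 8858436609)) (.cons (.rel (nat_lit 5905580544)) (.cons (.rel (nat_lit 4563501312)) .nil))))) (.cons (.rel (nat_lit 1342324992)) .nil))))) (.cons (.br (nat_lit 4) (.cons (.rel (nat_lit 2415920196)) (.cons (.rel (nat_lit 1342178577)) (.cons (.br (nat_lit 0) (.cons (.rel (nat_lit 277086216)) (.cons (.rel (nat_lit 1077937281)) (.cons (.rel (nat_lit 277086216)) (.cons (.rel (nat_lit 1079510016)) (.cons (.rel (nat_lit 276889857)) (.cons (.rel (nat_lit 1080299520)) .nil))))))) (.cons (.rel (nat_lit 1342177572)) .nil))))) .nil)))) .leaf)) (nat_lit 13832832184826632) (.br (nat_lit 3) (.cons (.br (nat_lit 5) (.cons (.rel (nat_lit 4831870992)) (.cons (.rel (nat_lit 8858386464)) (.cons (.rel (nat_lit 4563501312)) .nil)))) .nil)) (.node (.node .leaf (nat_lit 13832832184826666) (.br (nat_lit 0) (.cons (.br (nat_lit 1) (.cons (.rel (nat_lit 20972688)) (.cons (.rel (nat_lit 20993028)) (.cons (.rel (nat_lit 20993028)) (.cons (.rel (nat_lit 20988000)) (.cons (.rel (nat_lit 20979720)) .nil)))))) (.cons (.br (nat_lit 2) (.cons (.rel (nat_lit 71368800)) (.cons (.rel (nat_lit 71309376)) (.cons (.rel (nat_lit 142606401)) .nil)))) (.cons (.br (nat_lit 1) (.cons (.rel (nat_lit 21038145)) (.cons (.rel (nat_lit 21006336)) (.cons (.rel (nat_lit 21006336)) (.cons (.rel (nat_lit 21053457)) (.cons (.rel (nat_lit 20993028)) .nil)))))) .nil)))) .leaf) (nat_lit 13832832184827113) (.br (nat_lit 0) (.cons (.br (nat_lit 3) (.cons (.rel (nat_lit 545259537)) .nil)) .nil)) (.node .leaf (nat_lit 13832832184827166) (.br (nat_lit 1) (.cons (.br (nat_lit 5) (.cons (.rel (nat_lit 4311810369)) (.cons (.rel (nat_lit 4311765252)) .nil))) (.cons (.br (nat_lit 6) (.cons (.rel (nat_lit 34393292865)) (.cons (.rel (nat_lit 17213424132)) (.cons (.rel (nat_lit 17197961472)) .nil)))) .nil))) .leaf))))) (nat_lit 13832832185741569) (.br (nat_lit 3) (.cons (.br (nat_lit 4) (.cons (.br (nat_lit 1) (.cons (.rel (nat_lit 301989960)) (.cons (.rel (nat_lit 1090539792)) (.cons (.rel (nat_lit 1090524480)) (.cons (.rel (nat_lit 1090602240)) .nil))))) (.cons (.br (nat_lit 1) (.cons (.rel (nat_lit 301989960)) (.cons (.rel (nat_lit 1358958612)) (.cons (.rel (nat_lit 1090602240)) (.cons (.rel (nat_lit 1091043840)) .nil))))) (.cons (.rel (nat_lit 1342177572)) (.cons (.rel (nat_lit 2415935508)) .nil))))) (.cons (.br (nat_lit 1) (.cons (.br (nat_lit 2) (.cons (.rel (nat_lit 86507520)) (.cons (.rel (nat_lit 402671616)) (.cons (.rel (nat_lit 100683840)) (.cons (.rel (nat_lit 402671616)) .nil))))) (.cons (.rel (nat_lit 302057472)) (.cons (.rel (nat_lit 302057472)) (.cons (.br (nat_lit 2) (.cons (.rel (nat_lit 86507520)) (.cons (.rel (nat_lit 402671616)) (.cons (.rel (nat_lit 84164616)) (.cons (.rel (nat_lit 402671616)) .nil))))) .nil))))) (.cons (.br (nat_lit 1) (.cons (.rel (nat_lit 302006277)) (.cons (.rel (nat_lit 301995024)) (.cons (.rel (nat_lit 301995024)) (.cons (.br (nat_lit 2) (.cons (.rel (nat_lit 402718737)) (.cons (.rel (nat_lit 402658308)) (.cons (.rel (nat_lit 84164616)) (.cons (.rel (nat_lit 402658308)) .nil))))) .nil))))) .nil)))) (.node (.node (.node (.node (.node (.node .leaf (nat_lit 13832832185742068) (.br (nat_lit 3) (.cons (.br (nat_lit 5) (.cons (.rel (nat_lit 4563403032)) .nil)) .nil)) .leaf) (nat_lit 13832832185742069) (.br (nat_lit 3) (.cons (.br (nat_lit 4) (.cons (.rel (nat_lit 1342177572)) (.cons (.br (nat_lit 5) (.cons (.rel (nat_lit 6442520640)) (.cons (.rel (nat_lit 4563403032)) (.cons (.rel (nat_lit 5905580544)) (.cons (.rel (nat_lit 8858386464)) (.cons (.rel (nat_lit 4563403032)) (.cons (.rel (nat_lit 4563403032)) (.cons (.rel (nat_lit 4563403032)) (.cons (.rel (nat_lit 5368742148)) (.cons (.rel (nat_lit 4563665028)) .nil)))))))))) (.cons (.br (nat_lit 1) (.cons (.rel (nat_lit 301989960)) (.cons (.rel (nat_lit 1090539792)) (.cons (.rel (nat_lit 285229440)) (.cons (.rel (nat_lit 553717776)) (.cons (.rel (nat_lit 1091043840)) (.cons (.rel (nat_lit 1090539792)) (.cons (.rel (nat_lit 285229440)) (.cons (.rel (nat_lit 301989960)) (.cons (.rel (nat_lit 1090524480)) (.cons (.rel (nat_lit 1090602240)) .nil))))))))))) (.cons (.br (nat_lit 5) (.cons (.rel (nat_lit 5368718592)) (.cons (.rel (nat_lit 4563403032)) (.cons (.rel (nat_lit 5905580544)) (.cons (.rel (nat_lit 8858386464)) (.cons (.rel (nat_lit 4563403032)) (.cons (.rel (nat_lit 4563403032)) (.cons (.rel (nat_lit 4563403032)) (.cons (.rel (nat_lit 5368988688)) (.cons (.rel (nat_lit 4563665028)) .nil)))))))))) (.cons (.rel (nat_lit 1342247232)) (.cons (.rel (nat_lit 1342177572)) (.cons (.rel (nat_lit 2415935508)) .nil)))))))) (.cons (.br (nat_lit 4) (.cons (.br (nat_lit 0) (.cons (.rel (nat_lit 1077946368)) (.cons (.rel (nat_lit 1078068240)) (.cons (.rel (nat_lit 1077946368)) (.cons (.rel (nat_lit 1078005792)) (.cons (.rel (nat_lit 273170688)) (.cons (.rel (nat_lit 1078005792)) (.cons (.rel (nat_lit 1077936276)) (.cons (.rel (nat_lit 1077937281)) (.cons (.rel (nat_lit 2155877376)) .nil)))))))))) (.cons (.br (nat_lit 0) (.cons (.rel (nat_lit 1346376192)) (.cons (.rel (nat_lit 1078005792)) (.cons (.rel (nat_lit 2155877376)) (.cons (.rel (nat_lit 1077937281)) (.cons (.rel (nat_lit 273170688)) (.cons (.rel (nat_lit 1077937281)) (.cons (.rel (nat_lit 1078018050)) (.cons (.rel (nat_lit 2155877376)) (.cons (.rel (nat_lit 1078068240)) .nil)))))))))) (.cons (.rel (nat_lit 1342324992)) (.cons (.br (nat_lit 0) (.cons (.rel (nat_lit 1346376192)) (.cons (.rel (nat_lit 2155877376)) (.cons (.rel (nat_lit 2155877376)) (.cons (.rel (nat_lit 2155877376)) (.cons (.rel (nat_lit 273170688)) (.cons (.rel (nat_lit 2155877376)) (.cons (.rel (nat_lit 1077946368)) (.cons (.rel (nat_lit 1614808320)) (.cons (.rel (nat_lit 1346376192)) .nil)))))))))) (.cons (.rel (nat_lit 2415936513)) (.cons (.br (nat_lit 0) (.cons (.rel (nat_lit 1078068240)) (.cons (.rel (nat_lit 2155877376)) (.cons (.rel (nat_lit 1078005792)) (.cons (.rel (nat_lit 1614808320)) (.cons (.rel (nat_lit 273170688)) (.cons (.rel (nat_lit 1077946368)) (.cons (.rel (nat_lit 1077969924)) (.cons (.rel (nat_lit 1077937281)) (.cons (.rel (nat_lit 1346376192)) .nil)))))))))) (.cons (.br (nat_lit 0) (.cons (.rel (nat_lit 2155877376)) (.cons (.rel (nat_lit 2155877376)) (.cons (.rel (nat_lit 1614808320)) (.cons (.rel (nat_lit 1346376192)) (.cons (.rel (nat_lit 273170688)) (.cons (.rel (nat_lit 1078068240)) (.cons (.rel (nat_lit 1078005792)) (.cons (.rel (nat_lit 1346376192)) (.cons (.rel (nat_lit 2155877376)) .nil)))))))))) .nil)))))))) (.cons (.br (nat_lit 4) (.cons (.rel (nat_lit 1342324992)) (.cons (.br (nat_lit 0) (.cons (.rel (nat_lit 1346376192)) (.cons (.rel (nat_lit 1078005792)) (.cons (.rel (nat_lit 2155877376)) (.cons (.rel (nat_lit 1077937281)) (.cons (.rel (nat_lit 274727172)) (.cons (.rel (nat_lit 277086216)) (.cons (.rel (nat_lit 272629794)) (.cons (.rel (nat_lit 2155877376)) (.cons (.rel (nat_lit 1078068240)) .nil)))))))))) (.cons (.rel (nat_lit 1342177572)) (.cons (.rel (nat_lit 2415935508)) (.cons (.rel (nat_lit 1342178577)) (.cons (.rel (nat_lit 1342324992)) (.cons (.br (nat_lit 0) (.cons (.rel (nat_lit 2155877376)) (.cons (.rel (nat_lit 2155877376)) (.cons (.rel (nat_lit 1346376192)) (.cons (.rel (nat_lit 1346376192)) (.cons (.rel (nat_lit 274727172)) (.cons (.rel (nat_lit 277086216)) (.cons (.rel (nat_lit 272629794)) (.cons (.rel (nat_lit 1614808320)) (.cons (.rel (nat_lit 2155877376)) .nil)))))))))) .nil)))))))) .nil)))) .leaf) (nat_lit 13832832185742569) (.br (nat_lit 3) (.cons (.br (nat_lit 1) (.cons (.rel (nat_lit 301989960)) (.cons (.br (nat_lit 5) (.cons (.rel (nat_lit 4312023045)) (.cons (.rel (nat_lit 4328521749)) (.cons (.rel (nat_lit 4563403032)) (.cons (.rel (nat_lit 4312023045)) (.cons (.rel (nat_lit 8858386464)) (.cons (.rel (nat_lit 4563403032)) (.cons (.rel (nat_lit 4311765252)) .nil)))))))) (.cons (.br (nat_lit 0) (.cons (.rel (nat_lit 25166100)) (.cons (.rel (nat_lit 20972688)) (.cons (.rel (nat_lit 20972688)) (.cons (.rel (nat_lit 21053457)) (.cons (.rel (nat_lit 38273088)) (.cons (.rel (nat_lit 20988000)) (.cons (.rel (nat_lit 21038145)) (.cons (.rel (nat_lit 273170688)) .nil))))))))) (.cons (.rel (nat_lit 553717776)) (.cons (.br (nat_lit 4) (.cons (.rel (nat_lit 1107298308)) (.cons (.rel (nat_lit 1090524480)) (.cons (.rel (nat_lit 1090539792)) (.cons (.rel (nat_lit 1358958612)) (.cons (.rel (nat_lit 2164260882)) (.cons (.rel (nat_lit 1342177572)) (.cons (.rel (nat_lit 2415935508)) .nil)))))))) (.cons (.br (nat_lit 4) (.cons (.rel (nat_lit 1090782273)) (.cons (.rel (nat_lit 1091043840)) (.cons (.rel (nat_lit 1090524480)) (.cons (.rel (nat_lit 1090602240)) (.cons (.rel (nat_lit 2164326528)) (.cons (.rel (nat_lit 1342177572)) (.cons (.rel (nat_lit 2415935508)) .nil)))))))) .nil))))))) (.cons (.br (nat_lit 1) (.cons (.br (nat_lit 6) (.cons (.rel (nat_lit 34393292865)) (.cons (.rel (nat_lit 34644983808)) (.cons (.rel (nat_lit 17196679173)) (.cons (.rel (nat_lit 34393292865)) (.cons (.rel (nat_lit 34393292865)) (.cons (.rel (nat_lit 17196662856)) (.cons (.rel (nat_lit 34393292865)) .nil)))))))) (.cons (.br (nat_lit 4) (.cons (.rel (nat_lit 1090781268)) (.cons (.rel (nat_lit 2415936513)) (.cons (.rel (nat_lit 1342324992)) (.cons (.rel (nat_lit 1629487104)) (.cons (.rel (nat_lit 1090781268)) (.cons (.rel (nat_lit 1090602240)) (.cons (.rel (nat_lit 1360265472)) .nil)))))))) (.cons (.br (nat_lit 4) (.cons (.rel (nat_lit 1090782273)) (.cons (.rel (nat_lit 2415936513)) (.cons (.rel (nat_lit 1342324992)) (.cons (.rel (nat_lit 1090602240)) (.cons (.rel (nat_lit 1090797585)) (.cons (.rel (nat_lit 1629487104)) (.cons (.rel (nat_lit 1090539792)) .nil)))))))) (.cons (.rel (nat_lit 553780224)) (.cons (.rel (nat_lit 302057472)) (.cons (.rel (nat_lit 302057472)) .nil))))))) (.cons (.br (nat_lit 1) (.cons (.rel (nat_lit 302006277)) (.cons (.br (nat_lit 4) (.cons (.rel (nat_lit 1090781268)) (.cons (.rel (nat_lit 2415920196)) (.cons (.rel (nat_lit 1342177572)) (.cons (.rel (nat_lit 2415935508)) (.cons (.rel (nat_lit 1090781268)) (.cons (.rel (nat_lit 1342324992)) (.cons (.rel (nat_lit 1629487104)) .nil)))))))) (.cons (.br (nat_lit 4) (.cons (.rel (nat_lit 1090782273)) (.cons (.rel (nat_lit 2415920196)) (.cons (.rel (nat_lit 1342177572)) (.cons (.rel (nat_lit 2415935508)) (.cons (.rel (nat_lit 1090797585)) (.cons (.rel (nat_lit 1342324992)) (.cons (.rel (nat_lit 1090539792)) .nil)))))))) (.cons (.rel (nat_lit 285213984)) (.cons (.rel (nat_lit 301995024)) (.cons (.rel (nat_lit 301995024)) .nil))))))) .nil)))) (.node .leaf (nat_lit 13832832185780481) (.br (nat_lit 2) (.cons (.br (nat_lit 3) (.cons (.rel (nat_lit 402658308)) .nil)) .nil)) .leaf)) (nat_lit 13832832185780534) (.br (nat_lit 3) (.cons (.br (nat_lit 4) (.cons (.rel (nat_lit 1342177572)) .nil)) .nil)) (.node (.node (.node .leaf (nat_lit 13832832185781000) (.br (nat_lit 3) (.cons (.br (nat_lit 6) (.cons (.br (nat_lit 1) (.cons (.rel (nat_lit 34393292865)) (.cons (.rel (nat_lit 17196712032)) (.cons (.rel (nat_lit 17196662856)) (.cons (.rel (nat_lit 285605889)) (.cons (.rel (nat_lit 17196654612)) (.cons (.rel (nat_lit 17196646530)) (.cons (.rel (nat_lit 17196777489)) (.cons (.rel (nat_lit 17196652608)) (.cons (.rel (nat_lit 17197171968)) (.cons (.rel (nat_lit 17196652608)) (.cons (.rel (nat_lit 17196679173)) (.cons (.rel (nat_lit 285605889)) (.cons (.rel (nat_lit 17196667920)) (.cons (.rel (nat_lit 17196662856)) (.cons (.rel (nat_lit 17196652608)) (.cons (.rel (nat_lit 17196646530)) (.cons (.rel (nat_lit 17196646530)) (.cons (.rel (nat_lit 17196667920)) .nil))))))))))))))))))) (.cons (.br (nat_lit 0) (.cons (.rel (nat_lit 17184072192)) (.cons (.rel (nat_lit 34368131328)) (.cons (.rel (nat_lit 34363932708)) (.cons (.rel (nat_lit 34363933713)) (.cons (.rel (nat_lit 273170688)) (.cons (.rel (nat_lit 17184326976)) (.cons (.rel (nat_lit 17188278336)) (.cons (.rel (nat_lit 34363933713)) (.cons (.rel (nat_lit 17184587778)) (.cons (.rel (nat_lit 17184072192)) (.cons (.rel (nat_lit 17184326976)) (.cons (.rel (nat_lit 34368131328)) (.cons (.rel (nat_lit 17188278336)) (.cons (.rel (nat_lit 17184072192)) (.cons (.rel (nat_lit 34363932708)) (.cons (.rel (nat_lit 17184326976)) (.cons (.rel (nat_lit 545259537)) (.cons (.rel (nat_lit 17184326976)) (.cons (.rel (nat_lit 545259537)) .nil)))))))))))))))))))) (.cons (.br (nat_lit 1) (.cons (.rel (nat_lit 17196646530)) (.cons (.rel (nat_lit 17196654612)) (.cons (.rel (nat_lit 17196652608)) (.cons (.rel (nat_lit 285605889)) (.cons (.rel (nat_lit 17196712032)) (.cons (.rel (nat_lit 34393292865)) (.cons (.rel (nat_lit 17196652608)) (.cons (.rel (nat_lit 17196777489)) (.cons (.rel (nat_lit 17196646530)) (.cons (.rel (nat_lit 17196917376)) (.cons (.rel (nat_lit 17196667920)) (.cons (.rel (nat_lit 285605889)) (.cons (.rel (nat_lit 17196646530)) (.cons (.rel (nat_lit 34393292865)) (.cons (.rel (nat_lit 34393292865)) (.cons (.rel (nat_lit 17196652608)) (.cons (.rel (nat_lit 17196662856)) (.cons (.rel (nat_lit 17196646530)) .nil))))))))))))))))))) (.cons (.br (nat_lit 1) (.cons (.rel (nat_lit 17196679173)) (.cons (.rel (nat_lit 17196730368)) (.cons (.rel (nat_lit 17196646530)) (.cons (.rel (nat_lit 285605889)) (.cons (.rel (nat_lit 17196652608)) (.cons (.rel (nat_lit 17196679173)) (.cons (.rel (nat_lit 17196667920)) (.cons (.rel (nat_lit 17196654612)) (.cons (.rel (nat_lit 17197171968)) (.cons (.rel (nat_lit 34393292865)) (.cons (.rel (nat_lit 34393292865)) (.cons (.rel (nat_lit 285605889)) (.cons (.rel (nat_lit 17197171968)) (.cons (.rel (nat_lit 34393292865)) (.cons (.rel (nat_lit 17196662856)) (.cons (.rel (nat_lit 17196646530)) (.cons (.rel (nat_lit 17196652608)) (.cons (.rel (nat_lit 17196712032)) .nil))))))))))))))))))) (.cons (.br (nat_lit 1) (.cons (.rel (nat_lit 17196646530)) (.cons (.rel (nat_lit 17196654612)) (.cons (.rel (nat_lit 17196646530)) (.cons (.rel (nat_lit 285605889)) (.cons (.rel (nat_lit 17196646530)) (.cons (.rel (nat_lit 17196777489)) (.cons (.rel (nat_lit 34393292865)) (.cons (.rel (nat_lit 17196667920)) (.cons (.rel (nat_lit 17196652608)) (.cons (.rel (nat_lit 17196654612)) (.cons (.rel (nat_lit 17196654612)) (.cons (.rel (nat_lit 285605889)) (.cons (.rel (nat_lit 17196646530)) (.cons (.rel (nat_lit 17196662856)) (.cons (.rel (nat_lit 17196652608)) (.cons (.rel (nat_lit 17196667920)) (.cons (.rel (nat_lit 17196662856)) (.cons (.rel (nat_lit 17196646530)) .nil))))))))))))))))))) (.cons (.br (nat_lit 1) (.cons (.rel (nat_lit 17196652608)) (.cons (.rel (nat_lit 17196646530)) (.cons (.rel (nat_lit 17196652608)) (.cons (.rel (nat_lit 285605889)) (.cons (.rel (nat_lit 17196646530)) (.cons (.rel (nat_lit 17196646530)) (.cons (.rel (nat_lit 17196777489)) (.cons (.rel (nat_lit 17196917376)) (.cons (.rel (nat_lit 34393292865)) (.cons (.rel (nat_lit 17196712032)) (.cons (.rel (nat_lit 17196679173)) (.cons (.rel (nat_lit 285605889)) (.cons (.rel (nat_lit 34393292865)) (.cons (.rel (nat_lit 17196662856)) (.cons (.rel (nat_lit 17196712032)) (.cons (.rel (nat_lit 17196712032)) (.cons (.rel (nat_lit 17196646530)) (.cons (.rel (nat_lit 17196646530)) .nil))))))))))))))))))) (.cons (.br (nat_lit 0) (.cons (.rel (nat_lit 34368131328)) (.cons (.rel (nat_lit 34363932708)) (.cons (.rel (nat_lit 34363933713)) (.cons (.rel (nat_lit 34363932708)) (.cons (.rel (nat_lit 273170688)) (.cons (.rel (nat_lit 34368131328)) (.cons (.rel (nat_lit 34364002368)) (.cons (.rel (nat_lit 34363932708)) (.cons (.br (nat_lit 1) (.cons (.rel (nat_lit 17196654612)) (.cons (.rel (nat_lit 34393292865)) (.cons (.rel (nat_lit 17196646530)) (.cons (.rel (nat_lit 285605889)) (.cons (.rel (nat_lit 34393292865)) (.cons (.rel (nat_lit 17196646530)) (.cons (.rel (nat_lit 34393292865)) (.cons (.rel (nat_lit 20979720)) (.cons (.rel (nat_lit 17196646530)) (.cons (.rel (nat_lit 34393292865)) (.cons (.rel (nat_lit 41960448)) (.cons (.rel (nat_lit 285605889)) (.cons (.rel (nat_lit 17196646530)) (.cons (.rel (nat_lit 20988000)) (.cons (.rel (nat_lit 17196652608)) (.cons (.rel (nat_lit 20972688)) (.cons (.rel (nat_lit 17196777489)) (.cons (.rel (nat_lit 34393292865)) .nil))))))))))))))))))) (.cons (.rel (nat_lit 34368389121)) (.cons (.rel (nat_lit 17188257816)) (.cons (.rel (nat_lit 17188257816)) (.cons (.br (nat_lit 1) (.cons (.rel (nat_lit 17196654612)) (.cons (.rel (nat_lit 34393292865)) (.cons (.rel (nat_lit 17196646530)) (.cons (.rel (nat_lit 285605889)) (.cons (.rel (nat_lit 34393292865)) (.cons (.rel (nat_lit 17196646530)) (.cons (.rel (nat_lit 34393292865)) (.cons (.br (nat_lit 2) (.cons (.rel (nat_lit 17246979204)) (.cons (.rel (nat_lit 34493957202)) (.cons (.rel (nat_lit 142606401)) (.cons (.rel (nat_lit 17247111168)) (.cons (.rel (nat_lit 335839233)) (.cons (.rel (nat_lit 17246979204)) (.cons (.rel (nat_lit 17247010833)) (.cons (.rel (nat_lit 169082880)) (.cons (.rel (nat_lit 34493960208)) (.cons (.rel (nat_lit 17246986272)) (.cons (.rel (nat_lit 17247010833)) (.cons (.rel (nat_lit 335839233)) (.cons (.rel (nat_lit 17246995521)) (.cons (.rel (nat_lit 17246979204)) (.cons (.rel (nat_lit 17246986272)) (.cons (.rel (nat_lit 17246994516)) (.cons (.rel (nat_lit 17246979204)) (.cons (.rel (nat_lit 142606401)) .nil))))))))))))))))))) (.cons (.rel (nat_lit 17196646530)) (.cons (.rel (nat_lit 34393292865)) (.cons (.rel (nat_lit 41960448)) (.cons (.rel (nat_lit 285605889)) (.cons (.rel (nat_lit 17196646530)) (.cons (.rel (nat_lit 20972688)) (.cons (.rel (nat_lit 17196652608)) (.cons (.rel (nat_lit 20972688)) (.cons (.rel (nat_lit 17196777489)) (.cons (.rel (nat_lit 34393292865)) .nil))))))))))))))))))) (.cons (.rel (nat_lit 34363932708)) (.cons (.rel (nat_lit 34368389121)) (.cons (.rel (nat_lit 34368131328)) (.cons (.rel (nat_lit 545259537)) (.cons (.rel (nat_lit 34364002368)) (.cons (.rel (nat_lit 545259537)) .nil)))))))))))))))))))) (.cons (.br (nat_lit 5) (.cons (.rel (nat_lit 42949678080)) (.cons (.rel (nat_lit 42949678080)) (.cons (.rel (nat_lit 21474837633)) (.cons (.rel (nat_lit 21474837633)) (.cons (.rel (nat_lit 38654705937)) (.cons (.rel (nat_lit 21474852945)) (.cons (.rel (nat_lit 4563501312)) (.cons (.rel (nat_lit 21474837633)) (.cons (.rel (nat_lit 21474836628)) (.cons (.rel (nat_lit 4563501312)) (.cons (.rel (nat_lit 21474837633)) (.cons (.rel (nat_lit 4563501312)) (.cons (.rel (nat_lit 21475099200)) (.cons (.rel (nat_lit 21474836628)) (.cons (.rel (nat_lit 4563501312)) (.cons (.rel (nat_lit 21474918402)) (.cons (.rel (nat_lit 21474846720)) (.cons (.rel (nat_lit 21474856968)) (.cons (.rel (nat_lit 21475099200)) (.cons (.rel (nat_lit 21474906144)) (.cons (.rel (nat_lit 4563501312)) (.cons (.rel (nat_lit 4563501312)) .nil))))))))))))))))))))))) (.cons (.br (nat_lit 1) (.cons (.rel (nat_lit 34393292865)) (.cons (.rel (nat_lit 17196712032)) (.cons (.rel (nat_lit 17196662856)) (.cons (.rel (nat_lit 285605889)) (.cons (.rel (nat_lit 17196667920)) (.cons (.rel (nat_lit 17196679173)) (.cons (.rel (nat_lit 17196777489)) (.cons (.rel (nat_lit 17196646530)) (.cons (.rel (nat_lit 17196652608)) (.cons (.rel (nat_lit 17196667920)) (.cons (.rel (nat_lit 17196652608)) (.cons (.rel (nat_lit 285605889)) (.cons (.rel (nat_lit 17196662856)) (.cons (.rel (nat_lit 17196646530)) (.cons (.rel (nat_lit 17196662856)) (.cons (.rel (nat_lit 17196712032)) (.cons (.rel (nat_lit 17196646530)) (.cons (.rel (nat_lit 17196730368)) .nil))))))))))))))))))) (.cons (.br (nat_lit 1) (.cons (.rel (nat_lit 17196652608)) (.cons (.rel (nat_lit 17196667920)) (.cons (.rel (nat_lit 34393292865)) (.cons (.rel (nat_lit 285605889)) (.cons (.rel (nat_lit 17196652608)) (.cons (.rel (nat_lit 17196667920)) (.cons (.rel (nat_lit 17196646530)) (.cons (.rel (nat_lit 17196667920)) (.cons (.rel (nat_lit 17197961472)) (.cons (.rel (nat_lit 17196652608)) (.cons (.rel (nat_lit 17196654612)) (.cons (.rel (nat_lit 285605889)) (.cons (.rel (nat_lit 17196646530)) (.cons (.rel (nat_lit 17196646530)) (.cons (.rel (nat_lit 17196679173)) (.cons (.rel (nat_lit 17196730368)) (.cons (.rel (nat_lit 17465082432)) (.cons (.rel (nat_lit 17196654612)) .nil))))))))))))))))))) (.cons (.br (nat_lit 1) (.cons (.rel (nat_lit 17196646530)) (.cons (.rel (nat_lit 17196646530)) (.cons (.rel (nat_lit 17196654612)) (.cons (.rel (nat_lit 285605889)) (.cons (.rel (nat_lit 17196712032)) (.cons (.rel (nat_lit 34393292865)) (.cons (.rel (nat_lit 17196730368)) (.cons (.rel (nat_lit 17196652608)) (.cons (.rel (nat_lit 34393292865)) (.cons (.rel (nat_lit 17197171968)) (.cons (.rel (nat_lit 34376847360)) (.cons (.rel (nat_lit 285605889)) (.cons (.rel (nat_lit 17196652608)) (.cons (.rel (nat_lit 34393292865)) (.cons (.rel (nat_lit 17196679173)) (.cons (.rel (nat_lit 17196667920)) (.cons (.rel (nat_lit 17197171968)) (.cons (.rel (nat_lit 17196654612)) .nil))))))))))))))))))) (.cons (.br (nat_lit 1) (.cons (.rel (nat_lit 17196730368)) (.cons (.rel (nat_lit 17197961472)) (.cons (.rel (nat_lit 34376515848)) (.cons (.rel (nat_lit 285605889)) (.cons (.rel (nat_lit 34393292865)) (.cons (.rel (nat_lit 17196777489)) (.cons (.rel (nat_lit 34393292865)) (.cons (.rel (nat_lit 17196667920)) (.cons (.rel (nat_lit 34393292865)) (.cons (.rel (nat_lit 17196667920)) (.cons (.rel (nat_lit 17196662856)) (.cons (.rel (nat_lit 285605889)) (.cons (.rel (nat_lit 17196662856)) (.cons (.rel (nat_lit 17196777489)) (.cons (.rel (nat_lit 17196652608)) (.cons (.rel (nat_lit 17197171968)) (.cons (.rel (nat_lit 17196654612)) (.cons (.rel (nat_lit 34393292865)) .nil))))))))))))))))))) (.cons (.br (nat_lit 0) (.cons (.rel (nat_lit 34368389121)) (.cons (.rel (nat_lit 17184587778)) (.cons (.rel (nat_lit 34363932708)) (.cons (.rel (nat_lit 17184342288)) (.cons (.rel (nat_lit 273170688)) (.cons (.rel (nat_lit 17184072192)) (.cons (.rel (nat_lit 17188257816)) (.cons (.rel (nat_lit 17184072192)) (.cons (.rel (nat_lit 17188257816)) (.cons (.rel (nat_lit 17184342288)) (.cons (.rel (nat_lit 34368389121)) (.cons (.rel (nat_lit 17184146946)) (.cons (.rel (nat_lit 17188258821)) (.cons (.rel (nat_lit 17184326976)) (.cons (.rel (nat_lit 34363932708)) (.cons (.rel (nat_lit 34368131328)) (.cons (.rel (nat_lit 545259537)) (.cons (.rel (nat_lit 17184072192)) (.cons (.rel (nat_lit 545259537)) .nil)))))))))))))))))))) (.cons (.br (nat_lit 1) (.cons (.rel (nat_lit 17196646530)) (.cons (.rel (nat_lit 34393292865)) (.cons (.rel (nat_lit 34644983808)) (.cons (.rel (nat_lit 285605889)) (.cons (.rel (nat_lit 17196662856)) (.cons (.rel (nat_lit 17196646530)) (.cons (.rel (nat_lit 17196730368)) (.cons (.rel (nat_lit 17197171968)) (.cons (.rel (nat_lit 17196662856)) (.cons (.rel (nat_lit 34393292865)) (.cons (.rel (nat_lit 17196654612)) (.cons (.rel (nat_lit 285605889)) (.cons (.rel (nat_lit 17196654612)) (.cons (.rel (nat_lit 17196679173)) (.cons (.rel (nat_lit 17196712032)) (.cons (.rel (nat_lit 17196667920)) (.cons (.rel (nat_lit 17196712032)) (.cons (.rel (nat_lit 17196679173)) .nil))))))))))))))))))) (.cons (.rel (nat_lit 17448894720)) (.cons (.br (nat_lit 1) (.cons (.rel (nat_lit 17196662856)) (.cons (.rel (nat_lit 17196646530)) (.cons (.rel (nat_lit 17196646530)) (.cons (.rel (nat_lit 285605889)) (.cons (.rel (nat_lit 17196646530)) (.cons (.rel (nat_lit 34393292865)) (.cons (.rel (nat_lit 17196667920)) (.cons (.rel (nat_lit 17196652608)) (.cons (.rel (nat_lit 17196646530)) (.cons (.rel (nat_lit 17196646530)) (.cons (.rel (nat_lit 34393292865)) (.cons (.rel (nat_lit 285605889)) (.cons (.rel (nat_lit 17196652608)) (.cons (.rel (nat_lit 17197171968)) (.cons (.rel (nat_lit 34393292865)) (.cons (.rel (nat_lit 17196646530)) (.cons (.rel (nat_lit 17196646530)) (.cons (.rel (nat_lit 17196652608)) .nil))))))))))))))))))) (.cons (.br (nat_lit 2) (.cons (.rel (nat_lit 17246994516)) (.cons (.rel (nat_lit 34427109504)) (.cons (.rel (nat_lit 34426848513)) (.cons (.rel (nat_lit 17246986272)) (.cons (.rel (nat_lit 335839233)) (.cons (.rel (nat_lit 34426848513)) (.cons (.rel (nat_lit 17246986272)) (.cons (.rel (nat_lit 34493960208)) (.cons (.rel (nat_lit 17246994516)) (.cons (.rel (nat_lit 17246986272)) (.cons (.rel (nat_lit 17246986272)) (.cons (.rel (nat_lit 335839233)) (.cons (.rel (nat_lit 17247111168)) (.cons (.rel (nat_lit 17247048720)) (.cons (.rel (nat_lit 17246986272)) (.cons (.rel (nat_lit 17246986272)) (.cons (.rel (nat_lit 34426848513)) (.cons (.rel (nat_lit 34494022656)) .nil))))))))))))))))))) .nil)))))))))))))))))) .nil)) .leaf) (nat_lit 13832832185781481) (.br (nat_lit 3) (.cons (.br (nat_lit 5) (.cons (.rel (nat_lit 4831870992)) .nil)) .nil)) .leaf) (nat_lit 13832832185781534) (.br (nat_lit 3) (.cons (.br (nat_lit 4) (.cons (.rel (nat_lit 1342177572)) .nil)) .nil)) (.node .leaf (nat_lit 13832832185850166) (.br (nat_lit 2) (.cons (.br (nat_lit 5) (.cons (.rel (nat_lit 4362339393)) (.cons (.rel (nat_lit 8657059968)) .nil))) (.cons (.br (nat_lit 1) (.cons (.rel (nat_lit 84213792)) (.cons (.rel (nat_lit 84943872)) (.cons (.rel (nat_lit 86507520)) .nil)))) .nil))) .leaf))) (nat_lit 13832832185850666) (.br (nat_lit 3) (.cons (.br (nat_lit 5) (.cons (.rel (nat_lit 4563403032)) (.cons (.rel (nat_lit 4563665028)) (.cons (.br (nat_lit 6) (.cons (.rel (nat_lit 21476410368)) (.cons (.rel (nat_lit 34628436000)) (.cons (.rel (nat_lit 34628436000)) (.cons (.rel (nat_lit 21475099200)) (.cons (.rel (nat_lit 21474837633)) .nil)))))) (.cons (.br (nat_lit 6) (.cons (.rel (nat_lit 21474846720)) (.cons (.rel (nat_lit 34628436000)) (.cons (.rel (nat_lit 34628436000)) (.cons (.rel (nat_lit 21474870276)) (.cons (.rel (nat_lit 21474856968)) .nil)))))) (.cons (.rel (nat_lit 4563423552)) (.cons (.rel (nat_lit 4563423552)) .nil))))))) (.cons (.br (nat_lit 5) (.cons (.rel (nat_lit 4563796992)) (.cons (.br (nat_lit 6) (.cons (.rel (nat_lit 42949678080)) (.cons (.rel (nat_lit 21474837633)) (.cons (.rel (nat_lit 21474836628)) (.cons (.rel (nat_lit 22011708672)) (.cons (.rel (nat_lit 21743276544)) .nil)))))) (.cons (.br (nat_lit 6) (.cons (.rel (nat_lit 21476410368)) (.cons (.rel (nat_lit 21474870276)) (.cons (.rel (nat_lit 21474846720)) (.cons (.rel (nat_lit 21475099200)) (.cons (.rel (nat_lit 21474837633)) .nil)))))) (.cons (.rel (nat_lit 8858436609)) (.cons (.br (nat_lit 0) (.cons (.rel (nat_lit 4299194370)) (.cons (.rel (nat_lit 545259537)) (.cons (.rel (nat_lit 4299178053)) (.cons (.rel (nat_lit 4299166800)) (.cons (.rel (nat_lit 4299166800)) (.cons (.rel (nat_lit 4299161736)) (.cons (.rel (nat_lit 545259537)) .nil)))))))) (.cons (.br (nat_lit 6) (.cons (.rel (nat_lit 21474870276)) (.cons (.rel (nat_lit 21474837633)) (.cons (.rel (nat_lit 21474837633)) (.cons (.rel (nat_lit 21474846720)) (.cons (.rel (nat_lit 21474906144)) .nil)))))) .nil))))))) (.cons (.br (nat_lit 5) (.cons (.rel (nat_lit 4563501312)) (.cons (.rel (nat_lit 4563681345)) (.cons (.br (nat_lit 6) (.cons (.rel (nat_lit 21476410368)) (.cons (.rel (nat_lit 34628436000)) (.cons (.rel (nat_lit 34628436000)) (.cons (.rel (nat_lit 21475099200)) (.cons (.rel (nat_lit 21474837633)) .nil)))))) (.cons (.rel (nat_lit 8858371152)) (.cons (.rel (nat_lit 4563404037)) (.cons (.rel (nat_lit 4563404037)) .nil))))))) .nil)))) (.node (.node (.node (.node .leaf (nat_lit 13832832185851166) (.br (nat_lit 3) (.cons (.br (nat_lit 1) (.cons (.br (nat_lit 2) (.cons (.rel (nat_lit 335822916)) (.cons (.rel (nat_lit 86507520)) (.cons (.rel (nat_lit 604000260)) (.cons (.rel (nat_lit 84154368)) (.cons (.rel (nat_lit 402653280)) .nil)))))) (.cons (.rel (nat_lit 553717776)) (.cons (.rel (nat_lit 301989960)) (.cons (.br (nat_lit 6) (.cons (.rel (nat_lit 17196679173)) (.cons (.rel (nat_lit 17196652608)) (.cons (.rel (nat_lit 17196662856)) (.cons (.rel (nat_lit 17196646530)) .nil))))) .nil))))) (.cons (.br (nat_lit 1) (.cons (.rel (nat_lit 302057472)) (.cons (.rel (nat_lit 553780224)) (.cons (.br (nat_lit 6) (.cons (.rel (nat_lit 34393292865)) (.cons (.rel (nat_lit 34896609285)) (.cons (.rel (nat_lit 17197171968)) (.cons (.rel (nat_lit 17465082432)) .nil))))) (.cons (.br (nat_lit 6) (.cons (.rel (nat_lit 17196679173)) (.cons (.rel (nat_lit 34896609285)) (.cons (.rel (nat_lit 17196662856)) (.cons (.rel (nat_lit 17196646530)) .nil))))) .nil))))) (.cons (.br (nat_lit 1) (.cons (.rel (nat_lit 301995024)) (.cons (.rel (nat_lit 285213984)) (.cons (.rel (nat_lit 302006277)) (.cons (.br (nat_lit 6) (.cons (.rel (nat_lit 17196679173)) (.cons (.rel (nat_lit 34628174148)) (.cons (.rel (nat_lit 17196662856)) (.cons (.rel (nat_lit 17196646530)) .nil))))) .nil))))) .nil)))) .leaf) (nat_lit 13833900707341064) (.br (nat_lit 3) (.cons (.br (nat_lit 5) (.cons (.br (nat_lit 0) (.cons (.br (nat_lit 2) (.cons (.br (nat_lit 4) (.cons (.rel (nat_lit 1342439568)) (.cons (.rel (nat_lit 1342505025)) (.cons (.br (nat_lit 1) (.cons (.rel (nat_lit 285229440)) (.cons (.rel (nat_lit 301989960)) (.cons (.rel (nat_lit 9814671360)) (.cons (.rel (nat_lit 86507520)) (.cons (.rel (nat_lit 302006277)) (.cons (.rel (nat_lit 553648260)) (.cons (.rel (nat_lit 301989960)) .nil)))))))) (.cons (.rel (nat_lit 5905580544)) .nil))))) (.cons (.rel (nat_lit 402653280)) (.cons (.rel (nat_lit 603979920)) (.cons (.rel (nat_lit 402653280)) .nil))))) (.cons (.rel (nat_lit 272760897)) (.cons (.rel (nat_lit 4299161736)) .nil)))) (.cons (.rel (nat_lit 4831870992)) .nil))) .nil)) .leaf) (nat_lit 13838252957772552) (.br (nat_lit 3) (.cons (.br (nat_lit 2) (.cons (.br (nat_lit 1) (.cons (.rel (nat_lit 553648260)) (.cons (.rel (nat_lit 86507520)) (.cons (.rel (nat_lit 86507520)) (.cons (.rel (nat_lit 100663320)) (.cons (.rel (nat_lit 83887488)) (.cons (.rel (nat_lit 86507520)) (.cons (.rel (nat_lit 84967428)) (.cons (.rel (nat_lit 86507520)) (.cons (.rel (nat_lit 83887488)) .nil)))))))))) (.cons (.br (nat_lit 6) (.cons (.rel (nat_lit 17246994516)) (.cons (.rel (nat_lit 17717264400)) (.cons (.rel (nat_lit 17246986272)) (.cons (.rel (nat_lit 17448321156)) (.cons (.rel (nat_lit 34896609285)) (.cons (.rel (nat_lit 17247010833)) (.cons (.rel (nat_lit 17448894720)) (.cons (.rel (nat_lit 17246979204)) .nil))))))))) (.cons (.br (nat_lit 0) (.cons (.rel (nat_lit 71434257)) (.cons (.rel (nat_lit 273170688)) (.cons (.rel (nat_lit 71387136)) (.cons (.rel (nat_lit 142606401)) (.cons (.rel (nat_lit 541589508)) (.cons (.rel (nat_lit 71303298)) .nil))))))) (.cons (.br (nat_lit 1) (.cons (.rel (nat_lit 553648260)) (.cons (.rel (nat_lit 86507520)) (.cons (.rel (nat_lit 86507520)) (.cons (.rel (nat_lit 169082880)) (.cons (.rel (nat_lit 83968257)) (.cons (.rel (nat_lit 86507520)) (.cons (.rel (nat_lit 86507520)) (.cons (.rel (nat_lit 83968257)) (.cons (.rel (nat_lit 86507520)) .nil)))))))))) .nil))))) .nil)) (.node .leaf (nat_lit 13838688049703688) (.br (nat_lit 3) (.cons (.br (nat_lit 1) (.cons (.rel (nat_lit 285540432)) (.cons (.br (nat_lit 2) (.cons (.rel (nat_lit 83886486)) (.cons (.rel (nat_lit 335610240)) (.cons (.rel (nat_lit 335822916)) .nil)))) .nil))) .nil)) .leaf)) (nat_lit 13840346278541569) (.br (nat_lit 3) (.cons (.br (nat_lit 2) (.cons (.br (nat_lit 4) (.cons (.rel (nat_lit 1140851076)) (.cons (.rel (nat_lit 2415984648)) (.cons (.rel (nat_lit 1140920592)) (.cons (.rel (nat_lit 1610743812)) (.cons (.rel (nat_lit 1140920592)) (.cons (.rel (nat_lit 1610743812)) (.cons (.rel (nat_lit 2415984648)) (.cons (.rel (nat_lit 1140851076)) .nil))))))))) (.cons (.br (nat_lit 6) (.cons (.rel (nat_lit 17314611264)) (.cons (.rel (nat_lit 17448894720)) (.cons (.rel (nat_lit 34427109504)) (.cons (.rel (nat_lit 34426848513)) (.cons (.rel (nat_lit 17448439812)) (.cons (.rel (nat_lit 34427109504)) (.cons (.rel (nat_lit 17316184065)) (.cons (.rel (nat_lit 34493960208)) (.cons (.rel (nat_lit 17448439812)) (.cons (.rel (nat_lit 34426848513)) (.cons (.rel (nat_lit 17246986272)) .nil)))))))))))) (.cons (.br (nat_lit 4) (.cons (.rel (nat_lit 1140920592)) (.cons (.rel (nat_lit 2415984648)) (.cons (.rel (nat_lit 1207959573)) (.cons (.rel (nat_lit 1610743812)) (.cons (.rel (nat_lit 1141112928)) (.cons (.rel (nat_lit 1610743812)) (.cons (.rel (nat_lit 2415984648)) (.cons (.rel (nat_lit 2214600768)) .nil))))))))) (.cons (.br (nat_lit 0) (.cons (.rel (nat_lit 71828736)) (.cons (.rel (nat_lit 71303298)) (.cons (.rel (nat_lit 71309376)) (.cons (.rel (nat_lit 71319624)) (.cons (.rel (nat_lit 72876033)) (.cons (.rel (nat_lit 71335941)) (.cons (.rel (nat_lit 71309376)) (.cons (.rel (nat_lit 71828736)) .nil))))))))) .nil))))) (.cons (.br (nat_lit 2) (.cons (.rel (nat_lit 402658308)) (.cons (.rel (nat_lit 402653280)) (.cons (.br (nat_lit 4) (.cons (.rel (nat_lit 1140920592)) (.cons (.rel (nat_lit 1342439568)) (.cons (.rel (nat_lit 1207959573)) (.cons (.rel (nat_lit 1342177572)) (.cons (.rel (nat_lit 1141112928)) (.cons (.rel (nat_lit 1342177572)) (.cons (.rel (nat_lit 2415935508)) (.cons (.rel (nat_lit 2214600768)) .nil))))))))) (.cons (.rel (nat_lit 402658308)) .nil))))) (.cons (.br (nat_lit 2) (.cons (.rel (nat_lit 402671616)) (.cons (.br (nat_lit 6) (.cons (.rel (nat_lit 17314611264)) (.cons (.rel (nat_lit 34426848513)) (.cons (.rel (nat_lit 34427109504)) (.cons (.rel (nat_lit 34628436000)) (.cons (.rel (nat_lit 17448337473)) (.cons (.rel (nat_lit 17448306705)) (.cons (.rel (nat_lit 17316184065)) (.cons (.rel (nat_lit 34493960208)) (.cons (.rel (nat_lit 17448306705)) (.cons (.rel (nat_lit 34426848513)) (.cons (.rel (nat_lit 17246986272)) .nil)))))))))))) (.cons (.rel (nat_lit 402653280)) (.cons (.rel (nat_lit 402671616)) .nil))))) .nil)))) (.node (.node .leaf (nat_lit 13840346278542069) (.br (nat_lit 3) (.cons (.br (nat_lit 4) (.cons (.br (nat_lit 6) (.cons (.rel (nat_lit 35433746496)) (.cons (.rel (nat_lit 36507222096)) (.cons (.rel (nat_lit 19864227840)) (.cons (.rel (nat_lit 35433746496)) (.cons (.rel (nat_lit 35433482496)) (.cons (.rel (nat_lit 19327354368)) (.cons (.rel (nat_lit 18253611168)) .nil)))))))) (.cons (.rel (nat_lit 1610743812)) (.cons (.rel (nat_lit 2415984648)) .nil)))) (.cons (.br (nat_lit 4) (.cons (.br (nat_lit 0) (.cons (.rel (nat_lit 2155877376)) (.cons (.rel (nat_lit 1077937281)) (.cons (.rel (nat_lit 1346376192)) (.cons (.rel (nat_lit 277086216)) (.cons (.rel (nat_lit 2155877376)) (.cons (.rel (nat_lit 1614808320)) (.cons (.rel (nat_lit 1346376192)) (.cons (.rel (nat_lit 1346376192)) .nil))))))))) (.cons (.rel (nat_lit 1342177572)) (.cons (.rel (nat_lit 2415935508)) .nil)))) (.cons (.br (nat_lit 4) (.cons (.br (nat_lit 2) (.cons (.rel (nat_lit 402671616)) (.cons (.rel (nat_lit 1141964880)) (.cons (.rel (nat_lit 1745092608)) (.cons (.rel (nat_lit 335581440)) (.cons (.rel (nat_lit 402653280)) (.cons (.rel (nat_lit 402671616)) .nil))))))) (.cons (.rel (nat_lit 1610694672)) (.cons (.br (nat_lit 0) (.cons (.rel (nat_lit 1614808320)) (.cons (.rel (nat_lit 2155877376)) (.cons (.rel (nat_lit 273170688)) (.cons (.rel (nat_lit 1082130693)) (.cons (.rel (nat_lit 2155877376)) (.cons (.rel (nat_lit 2155877376)) (.cons (.rel (nat_lit 1346376192)) (.cons (.rel (nat_lit 1346376192)) .nil))))))))) .nil)))) .nil)))) .leaf) (nat_lit 13840346278542569) (.br (nat_lit 3) (.cons (.br (nat_lit 4) (.cons (.br (nat_lit 2) (.cons (.rel (nat_lit 1140920592)) (.cons (.rel (nat_lit 1140920592)) (.cons (.rel (nat_lit 1207959573)) (.cons (.rel (nat_lit 1207960578)) .nil))))) (.cons (.rel (nat_lit 1610743812)) (.cons (.rel (nat_lit 2415984648)) .nil)))) (.cons (.br (nat_lit 4) (.cons (.br (nat_lit 2) (.cons (.rel (nat_lit 402658308)) (.cons (.rel (nat_lit 402653280)) (.cons (.rel (nat_lit 1207959573)) (.cons (.rel (nat_lit 402658308)) .nil))))) (.cons (.rel (nat_lit 1342177572)) (.cons (.rel (nat_lit 2415935508)) .nil)))) (.cons (.br (nat_lit 2) (.cons (.rel (nat_lit 402671616)) (.cons (.br (nat_lit 1) (.cons (.rel (nat_lit 86507520)) (.cons (.rel (nat_lit 83887488)) (.cons (.rel (nat_lit 301995024)) (.cons (.rel (nat_lit 83887488)) (.cons (.rel (nat_lit 301995024)) (.cons (.rel (nat_lit 83887488)) .nil))))))) (.cons (.rel (nat_lit 402653280)) (.cons (.rel (nat_lit 402671616)) .nil))))) .nil)))) (.node .leaf (nat_lit 13840346278650166) (.br (nat_lit 3) (.cons (.br (nat_lit 0) (.cons (.br (nat_lit 5) (.cons (.rel (nat_lit 4831842372)) (.cons (.rel (nat_lit 4303622208)) (.cons (.rel (nat_lit 4299194370)) (.cons (.rel (nat_lit 4299686160)) (.cons (.rel (nat_lit 8598323268)) (.cons (.rel (nat_lit 4299231252)) (.cons (.rel (nat_lit 4299166800)) .nil)))))))) (.cons (.br (nat_lit 2) (.cons (.rel (nat_lit 335610240)) (.cons (.rel (nat_lit 142606401)) (.cons (.rel (nat_lit 75780096)) (.cons (.rel (nat_lit 675348480)) (.cons (.rel (nat_lit 71828736)) (.cons (.rel (nat_lit 71309376)) (.cons (.rel (nat_lit 71303298)) .nil)))))))) (.cons (.br (nat_lit 5) (.cons (.rel (nat_lit 4831842372)) (.cons (.rel (nat_lit 4299231252)) (.cons (.rel (nat_lit 4299161736)) (.cons (.rel (nat_lit 4299166800)) (.cons (.rel (nat_lit 8598339585)) (.cons (.rel (nat_lit 4299182112)) (.cons (.rel (nat_lit 8594130432)) .nil)))))))) (.cons (.br (nat_lit 2) (.cons (.rel (nat_lit 335610240)) (.cons (.rel (nat_lit 71309376)) (.cons (.rel (nat_lit 142606401)) (.cons (.rel (nat_lit 71335941)) (.cons (.rel (nat_lit 72876033)) (.cons (.rel (nat_lit 75780096)) (.cons (.rel (nat_lit 71828736)) .nil)))))))) (.cons (.br (nat_lit 5) (.cons (.rel (nat_lit 4831842372)) (.cons (.rel (nat_lit 8598323268)) (.cons (.rel (nat_lit 8598323268)) (.cons (.rel (nat_lit 8598323268)) (.cons (.rel (nat_lit 4299231252)) (.cons (.rel (nat_lit 8595177729)) (.cons (.rel (nat_lit 4303699968)) .nil)))))))) .nil)))))) (.cons (.br (nat_lit 0) (.cons (.br (nat_lit 2) (.cons (.rel (nat_lit 335544594)) (.cons (.rel (nat_lit 402658308)) (.cons (.rel (nat_lit 341050368)) (.cons (.rel (nat_lit 339739200)) (.cons (.rel (nat_lit 71309376)) (.cons (.rel (nat_lit 339739200)) (.cons (.rel (nat_lit 402653280)) .nil)))))))) (.cons (.rel (nat_lit 545259537)) (.cons (.br (nat_lit 2) (.cons (.rel (nat_lit 335544594)) (.cons (.rel (nat_lit 402658308)) (.cons (.rel (nat_lit 71828736)) (.cons (.rel (nat_lit 71303298)) (.cons (.rel (nat_lit 71309376)) (.cons (.rel (nat_lit 71303298)) (.cons (.rel (nat_lit 402653280)) .nil)))))))) (.cons (.br (nat_lit 2) (.cons (.rel (nat_lit 335544594)) (.cons (.rel (nat_lit 402658308)) (.cons (.rel (nat_lit 142606401)) (.cons (.rel (nat_lit 71335941)) (.cons (.rel (nat_lit 72876033)) (.cons (.rel (nat_lit 608174337)) (.cons (.rel (nat_lit 402653280)) .nil)))))))) (.cons (.rel (nat_lit 276824400)) .nil)))))) (.cons (.br (nat_lit 0) (.cons (.br (nat_lit 2) (.cons (.rel (nat_lit 335581440)) (.cons (.rel (nat_lit 402671616)) (.cons (.rel (nat_lit 402653280)) (.cons (.rel (nat_lit 402653280)) (.cons (.rel (nat_lit 71309376)) (.cons (.rel (nat_lit 608174337)) (.cons (.rel (nat_lit 142606401)) .nil)))))))) (.cons (.rel (nat_lit 276824400)) (.cons (.br (nat_lit 2) (.cons (.rel (nat_lit 335581440)) (.cons (.rel (nat_lit 402671616)) (.cons (.rel (nat_lit 402653280)) (.cons (.rel (nat_lit 402653280)) (.cons (.rel (nat_lit 71309376)) (.cons (.rel (nat_lit 71303298)) (.cons (.rel (nat_lit 339739200)) .nil)))))))) (.cons (.br (nat_lit 2) (.cons (.rel (nat_lit 335581440)) (.cons (.rel (nat_lit 402671616)) (.cons (.rel (nat_lit 402653280)) (.cons (.rel (nat_lit 402653280)) (.cons (.rel (nat_lit 72876033)) (.cons (.rel (nat_lit 339739200)) (.cons (.rel (nat_lit 71828736)) .nil)))))))) (.cons (.rel (nat_lit 545259537)) .nil)))))) .nil)))) .leaf)))) (nat_lit 13840346278650168) (.br (nat_lit 0) (.cons (.br (nat_lit 3) (.cons (.rel (nat_lit 545259537)) .nil)) .nil)) (.node (.node (.node (.node (.node .leaf (nat_lit 13840346278650666) (.br (nat_lit 3) (.cons (.br (nat_lit 4) (.cons (.br (nat_lit 0) (.cons (.rel (nat_lit 277086216)) (.cons (.rel (nat_lit 1079510016)) (.cons (.rel (nat_lit 277086216)) (.cons (.rel (nat_lit 1077937281)) (.cons (.rel (nat_lit 272638020)) (.cons (.rel (nat_lit 273170688)) (.cons (.rel (nat_lit 1078198848)) .nil)))))))) (.cons (.br (nat_lit 0) (.cons (.rel (nat_lit 277086216)) (.cons (.rel (nat_lit 1077937281)) (.cons (.rel (nat_lit 277086216)) (.cons (.rel (nat_lit 1077937281)) (.cons (.rel (nat_lit 272638020)) (.cons (.rel (nat_lit 273170688)) (.cons (.rel (nat_lit 1346376192)) .nil)))))))) (.cons (.rel (nat_lit 1343291520)) (.cons (.rel (nat_lit 1342247232)) (.cons (.br (nat_lit 6) (.cons (.rel (nat_lit 36507222096)) (.cons (.rel (nat_lit 18253680648)) (.cons (.rel (nat_lit 18253631508)) (.cons (.rel (nat_lit 18253644816)) (.cons (.rel (nat_lit 18253644816)) .nil)))))) (.cons (.rel (nat_lit 1342247232)) .nil))))))) (.cons (.br (nat_lit 4) (.cons (.br (nat_lit 6) (.cons (.rel (nat_lit 34628174148)) (.cons (.rel (nat_lit 18253611168)) (.cons (.rel (nat_lit 36507222096)) (.cons (.rel (nat_lit 17450402064)) (.cons (.rel (nat_lit 35433482496)) .nil)))))) (.cons (.rel (nat_lit 1342247232)) (.cons (.rel (nat_lit 1342177572)) (.cons (.rel (nat_lit 1342178577)) (.cons (.rel (nat_lit 2415920196)) (.cons (.rel (nat_lit 1342178577)) .nil))))))) (.cons (.br (nat_lit 6) (.cons (.rel (nat_lit 34896609285)) (.cons (.br (nat_lit 4) (.cons (.rel (nat_lit 18253611168)) (.cons (.rel (nat_lit 1342178577)) (.cons (.rel (nat_lit 2415936513)) (.cons (.rel (nat_lit 18253611168)) (.cons (.rel (nat_lit 2415936513)) (.cons (.rel (nat_lit 18254135556)) .nil))))))) (.cons (.br (nat_lit 4) (.cons (.rel (nat_lit 36507222096)) (.cons (.rel (nat_lit 1342178577)) (.cons (.rel (nat_lit 2415936513)) (.cons (.rel (nat_lit 35433482496)) (.cons (.rel (nat_lit 2415936513)) (.cons (.rel (nat_lit 35434528788)) .nil))))))) (.cons (.rel (nat_lit 34896609285)) (.cons (.br (nat_lit 4) (.cons (.rel (nat_lit 35433482496)) (.cons (.rel (nat_lit 1342178577)) (.cons (.rel (nat_lit 2415936513)) (.cons (.rel (nat_lit 19328401665)) (.cons (.rel (nat_lit 2415936513)) (.cons (.rel (nat_lit 18254135556)) .nil))))))) .nil)))))) .nil)))) .leaf) (nat_lit 13840346278651166) (.br (nat_lit 0) (.cons (.br (nat_lit 2) (.cons (.rel (nat_lit 71303298)) (.cons (.rel (nat_lit 138412560)) (.cons (.rel (nat_lit 142606401)) .nil)))) (.cons (.br (nat_lit 5) (.cons (.rel (nat_lit 4299161736)) (.cons (.rel (nat_lit 4299231252)) (.cons (.rel (nat_lit 4299166800)) (.cons (.rel (nat_lit 4299182112)) .nil))))) (.cons (.br (nat_lit 2) (.cons (.rel (nat_lit 71309376)) (.cons (.rel (nat_lit 142606401)) (.cons (.rel (nat_lit 71828736)) .nil)))) .nil)))) .leaf) (nat_lit 13840346278846495) (.br (nat_lit 3) (.cons (.br (nat_lit 4) (.cons (.rel (nat_lit 1610743812)) (.cons (.rel (nat_lit 2415984648)) .nil))) .nil)) (.node .leaf (nat_lit 13840346280333564) (.br (nat_lit 3) (.cons (.br (nat_lit 4) (.cons (.rel (nat_lit 1343225874)) .nil)) .nil)) .leaf)) (nat_lit 13840346280333569) (.br (nat_lit 3) (.cons (.br (nat_lit 4) (.cons (.br (nat_lit 2) (.cons (.rel (nat_lit 1140920592)) (.cons (.rel (nat_lit 1141112928)) (.cons (.rel (nat_lit 1141964880)) (.cons (.rel (nat_lit 1207963776)) .nil))))) (.cons (.rel (nat_lit 1610743812)) (.cons (.rel (nat_lit 2415984648)) .nil)))) (.cons (.br (nat_lit 4) (.cons (.br (nat_lit 2) (.cons (.rel (nat_lit 402658308)) (.cons (.rel (nat_lit 402653280)) (.cons (.rel (nat_lit 1141964880)) (.cons (.rel (nat_lit 402658308)) .nil))))) (.cons (.rel (nat_lit 1342177572)) (.cons (.rel (nat_lit 2415935508)) .nil)))) (.cons (.br (nat_lit 2) (.cons (.rel (nat_lit 402671616)) (.cons (.br (nat_lit 4) (.cons (.rel (nat_lit 1141112928)) (.cons (.rel (nat_lit 1610694672)) (.cons (.rel (nat_lit 2483552256)) .nil)))) (.cons (.rel (nat_lit 402653280)) (.cons (.rel (nat_lit 402671616)) .nil))))) .nil)))) (.node (.node .leaf (nat_lit 13840346280334068) (.br (nat_lit 2) (.cons (.br (nat_lit 6) (.cons (.rel (nat_lit 34427109504)) (.cons (.rel (nat_lit 17314611264)) .nil))) .nil)) .leaf) (nat_lit 13840346280334069) (.br (nat_lit 3) (.cons (.br (nat_lit 2) (.cons (.br (nat_lit 4) (.cons (.rel (nat_lit 1140920592)) (.cons (.rel (nat_lit 1610743812)) (.cons (.rel (nat_lit 2415984648)) (.cons (.rel (nat_lit 1140851076)) (.cons (.rel (nat_lit 1207960578)) (.cons (.rel (nat_lit 1140867393)) (.cons (.rel (nat_lit 1141112928)) (.cons (.rel (nat_lit 1140867393)) (.cons (.rel (nat_lit 1610743812)) .nil)))))))))) (.cons (.br (nat_lit 4) (.cons (.rel (nat_lit 1141112928)) (.cons (.rel (nat_lit 1610743812)) (.cons (.rel (nat_lit 2415984648)) (.cons (.rel (nat_lit 1140920592)) (.cons (.rel (nat_lit 1140867393)) (.cons (.rel (nat_lit 1140920592)) (.cons (.rel (nat_lit 1207959573)) (.cons (.rel (nat_lit 2214594561)) (.cons (.rel (nat_lit 1610743812)) .nil)))))))))) (.cons (.br (nat_lit 6) (.cons (.rel (nat_lit 34426848513)) (.cons (.rel (nat_lit 34493960208)) (.cons (.rel (nat_lit 17246986272)) (.cons (.rel (nat_lit 17448439812)) (.cons (.rel (nat_lit 34695286848)) (.cons (.rel (nat_lit 17448894720)) (.cons (.rel (nat_lit 17246986272)) (.cons (.rel (nat_lit 17314611264)) (.cons (.rel (nat_lit 34427109504)) (.cons (.rel (nat_lit 17246986272)) .nil))))))))))) (.cons (.br (nat_lit 0) (.cons (.rel (nat_lit 71311380)) (.cons (.rel (nat_lit 142606401)) (.cons (.rel (nat_lit 142606401)) (.cons (.rel (nat_lit 142606401)) (.cons (.rel (nat_lit 541589508)) (.cons (.br (nat_lit 4) (.cons (.rel (nat_lit 1140920592)) (.cons (.rel (nat_lit 1610743812)) (.cons (.rel (nat_lit 2415984648)) (.cons (.rel (nat_lit 1413808128)) (.cons (.rel (nat_lit 1212170496)) (.cons (.rel (nat_lit 2214600768)) (.cons (.rel (nat_lit 1141117956)) (.cons (.rel (nat_lit 2214594561)) (.cons (.rel (nat_lit 1610743812)) .nil)))))))))) (.cons (.rel (nat_lit 75497760)) .nil)))))))) (.cons (.br (nat_lit 0) (.cons (.rel (nat_lit 71303298)) (.cons (.rel (nat_lit 71309376)) (.cons (.rel (nat_lit 71319624)) (.cons (.rel (nat_lit 72876033)) (.cons (.rel (nat_lit 541589508)) (.cons (.rel (nat_lit 71335941)) (.cons (.rel (nat_lit 71309376)) .nil)))))))) (.cons (.br (nat_lit 0) (.cons (.rel (nat_lit 71309376)) (.cons (.rel (nat_lit 71368800)) (.cons (.rel (nat_lit 71303298)) (.cons (.rel (nat_lit 71368800)) (.cons (.rel (nat_lit 541589508)) (.cons (.rel (nat_lit 344064000)) (.cons (.rel (nat_lit 138412560)) .nil)))))))) .nil))))))) (.cons (.br (nat_lit 2) (.cons (.rel (nat_lit 402658308)) (.cons (.rel (nat_lit 402653280)) (.cons (.br (nat_lit 4) (.cons (.rel (nat_lit 1409290272)) (.cons (.rel (nat_lit 1342177572)) (.cons (.rel (nat_lit 2415935508)) (.cons (.rel (nat_lit 1342247232)) (.cons (.rel (nat_lit 1342439568)) (.cons (.rel (nat_lit 1141112928)) (.cons (.rel (nat_lit 1140920592)) (.cons (.rel (nat_lit 2214594561)) (.cons (.rel (nat_lit 1342177572)) .nil)))))))))) (.cons (.rel (nat_lit 335545608)) (.cons (.rel (nat_lit 402658308)) (.cons (.rel (nat_lit 335610240)) .nil))))))) (.cons (.br (nat_lit 2) (.cons (.rel (nat_lit 402671616)) (.cons (.br (nat_lit 4) (.cons (.rel (nat_lit 1141112928)) (.cons (.rel (nat_lit 1610694672)) (.cons (.rel (nat_lit 2216689920)) (.cons (.rel (nat_lit 1342178577)) (.cons (.rel (nat_lit 1343225874)) (.cons (.rel (nat_lit 1140920592)) (.cons (.rel (nat_lit 1207959573)) (.cons (.rel (nat_lit 2214594561)) (.cons (.rel (nat_lit 1610694672)) .nil)))))))))) (.cons (.rel (nat_lit 402653280)) (.cons (.rel (nat_lit 335581440)) (.cons (.rel (nat_lit 402671616)) (.cons (.rel (nat_lit 335544594)) .nil))))))) .nil)))) (.node .leaf (nat_lit 13840346280334087) (.br (nat_lit 3) (.cons (.br (nat_lit 6) (.cons (.rel (nat_lit 17718968352)) (.cons (.rel (nat_lit 34628190465)) (.cons (.rel (nat_lit 17450402064)) .nil)))) .nil)) .leaf))) (nat_lit 13840346280334569) (.br (nat_lit 3) (.cons (.br (nat_lit 4) (.cons (.rel (nat_lit 1610743812)) (.cons (.rel (nat_lit 2415984648)) (.cons (.br (nat_lit 2) (.cons (.rel (nat_lit 1141112928)) (.cons (.rel (nat_lit 1207959573)) (.cons (.rel (nat_lit 1140920592)) (.cons (.rel (nat_lit 1209008640)) (.cons (.rel (nat_lit 1207960578)) .nil)))))) (.cons (.rel (nat_lit 1610743812)) .nil))))) (.cons (.br (nat_lit 4) (.cons (.rel (nat_lit 1342177572)) (.cons (.rel (nat_lit 2415935508)) (.cons (.br (nat_lit 2) (.cons (.rel (nat_lit 402658308)) (.cons (.rel (nat_lit 402653280)) (.cons (.rel (nat_lit 1140920592)) (.cons (.rel (nat_lit 1209008640)) (.cons (.rel (nat_lit 402658308)) .nil)))))) (.cons (.rel (nat_lit 1342177572)) .nil))))) (.cons (.br (nat_lit 4) (.cons (.rel (nat_lit 1610694672)) (.cons (.br (nat_lit 0) (.cons (.rel (nat_lit 1614808320)) (.cons (.rel (nat_lit 2155877376)) (.cons (.rel (nat_lit 1077956616)) (.cons (.rel (nat_lit 2155877376)) (.cons (.rel (nat_lit 2155877376)) (.cons (.rel (nat_lit 273170688)) (.cons (.rel (nat_lit 2155877376)) (.cons (.rel (nat_lit 272666640)) (.cons (.rel (nat_lit 1346376192)) (.cons (.rel (nat_lit 1346376192)) .nil))))))))))) (.cons (.br (nat_lit 2) (.cons (.rel (nat_lit 402671616)) (.cons (.rel (nat_lit 1207959573)) (.cons (.rel (nat_lit 402653280)) (.cons (.rel (nat_lit 1209008640)) (.cons (.rel (nat_lit 402671616)) .nil)))))) (.cons (.rel (nat_lit 1610694672)) .nil))))) .nil)))) (.node (.node (.node (.node .leaf (nat_lit 13840346280372481) (.br (nat_lit 3) (.cons (.br (nat_lit 0) (.cons (.rel (nat_lit 272631813)) (.cons (.rel (nat_lit 272629794)) (.cons (.rel (nat_lit 272630808)) .nil)))) .nil)) .leaf) (nat_lit 13840346280372534) (.br (nat_lit 1) (.cons (.br (nat_lit 3) (.cons (.rel (nat_lit 301995024)) .nil)) .nil)) .leaf) (nat_lit 13840346280372980) (.br (nat_lit 3) (.cons (.br (nat_lit 6) (.cons (.br (nat_lit 2) (.cons (.rel (nat_lit 335545608)) (.cons (.rel (nat_lit 34493960208)) (.cons (.rel (nat_lit 335581440)) (.cons (.rel (nat_lit 17246979204)) (.cons (.rel (nat_lit 336625728)) (.cons (.rel (nat_lit 335814672)) (.cons (.rel (nat_lit 402658308)) .nil)))))))) (.cons (.rel (nat_lit 34629287952)) (.cons (.rel (nat_lit 34896609285)) (.cons (.rel (nat_lit 17448439812)) (.cons (.rel (nat_lit 17449746720)) (.cons (.rel (nat_lit 34629287952)) .nil))))))) .nil)) (.node .leaf (nat_lit 13840346280372999) (.br (nat_lit 3) (.cons (.br (nat_lit 6) (.cons (.rel (nat_lit 17448337473)) .nil)) .nil)) .leaf)) (nat_lit 13840346280373000) (.br (nat_lit 3) (.cons (.br (nat_lit 0) (.cons (.br (nat_lit 6) (.cons (.br (nat_lit 5) (.cons (.rel (nat_lit 8598323268)) (.cons (.rel (nat_lit 4303699968)) (.cons (.rel (nat_lit 4563665028)) (.cons (.rel (nat_lit 4299161736)) (.cons (.rel (nat_lit 4299686160)) (.cons (.rel (nat_lit 4299182112)) (.cons (.br (nat_lit 1) (.cons (.rel (nat_lit 41960448)) (.cons (.rel (nat_lit 553648260)) (.cons (.rel (nat_lit 301989960)) (.cons (.rel (nat_lit 38671483968)) (.cons (.rel (nat_lit 301989960)) (.cons (.rel (nat_lit 301989960)) (.cons (.rel (nat_lit 20979720)) (.cons (.rel (nat_lit 41947140)) (.cons (.rel (nat_lit 20979720)) (.cons (.rel (nat_lit 553648260)) (.cons (.rel (nat_lit 17465082432)) (.cons (.rel (nat_lit 25166100)) (.cons (.rel (nat_lit 20979720)) (.cons (.rel (nat_lit 20972688)) (.cons (.rel (nat_lit 21006336)) (.cons (.rel (nat_lit 20972688)) (.cons (.rel (nat_lit 301989960)) (.cons (.rel (nat_lit 553648260)) (.cons (.rel (nat_lit 553648260)) (.cons (.rel (nat_lit 20979720)) (.cons (.rel (nat_lit 553648260)) (.cons (.rel (nat_lit 21299712)) (.cons (.rel (nat_lit 34377565200)) (.cons (.rel (nat_lit 20972688)) .nil))))))))))))))))))))))))) (.cons (.rel (nat_lit 4299166800)) (.cons (.rel (nat_lit 4299194370)) (.cons (.rel (nat_lit 4299161736)) (.cons (.rel (nat_lit 4299194370)) (.cons (.rel (nat_lit 4299161736)) (.cons (.rel (nat_lit 38923206720)) (.cons (.rel (nat_lit 4563665028)) (.cons (.rel (nat_lit 8598323268)) (.cons (.rel (nat_lit 4563665028)) (.cons (.rel (nat_lit 4563665028)) (.cons (.rel (nat_lit 4299194370)) (.cons (.rel (nat_lit 21476410368)) .nil)))))))))))))))))))) (.cons (.rel (nat_lit 34363932708)) (.cons (.rel (nat_lit 17184342288)) (.cons (.rel (nat_lit 34363932708)) (.cons (.rel (nat_lit 17448894720)) (.cons (.rel (nat_lit 17184072192)) (.cons (.rel (nat_lit 34368128322)) (.cons (.rel (nat_lit 17184342288)) (.cons (.rel (nat_lit 17188257816)) (.cons (.rel (nat_lit 17184072192)) (.cons (.rel (nat_lit 17184072192)) (.cons (.br (nat_lit 5) (.cons (.rel (nat_lit 8598323268)) (.cons (.rel (nat_lit 4303699968)) (.cons (.rel (nat_lit 4563665028)) (.cons (.rel (nat_lit 4299161736)) (.cons (.rel (nat_lit 4299686160)) (.cons (.rel (nat_lit 4299182112)) (.cons (.br (nat_lit 1) (.cons (.rel (nat_lit 41960448)) (.cons (.rel (nat_lit 553648260)) (.cons (.rel (nat_lit 301989960)) (.cons (.rel (nat_lit 38671483968)) (.cons (.rel (nat_lit 301989960)) (.cons (.rel (nat_lit 301989960)) (.cons (.rel (nat_lit 20979720)) (.cons (.rel (nat_lit 41947140)) (.cons (.rel (nat_lit 20979720)) (.cons (.rel (nat_lit 553648260)) (.cons (.rel (nat_lit 4311744912)) (.cons (.rel (nat_lit 25166100)) (.cons (.rel (nat_lit 20979720)) (.cons (.rel (nat_lit 20972688)) (.cons (.rel (nat_lit 21006336)) (.cons (.rel (nat_lit 20972688)) (.cons (.rel (nat_lit 301989960)) (.cons (.rel (nat_lit 553648260)) (.cons (.rel (nat_lit 553648260)) (.cons (.rel (nat_lit 20979720)) (.cons (.rel (nat_lit 553648260)) (.cons (.rel (nat_lit 21299712)) (.cons (.rel (nat_lit 17196667920)) (.cons (.rel (nat_lit 20972688)) .nil))))))))))))))))))))))))) (.cons (.rel (nat_lit 4299166800)) (.cons (.rel (nat_lit 4299194370)) (.cons (.rel (nat_lit 4299161736)) (.cons (.rel (nat_lit 4299194370)) (.cons (.rel (nat_lit 4299161736)) (.cons (.rel (nat_lit 21474836628)) (.cons (.rel (nat_lit 4563665028)) (.cons (.rel (nat_lit 8598323268)) (.cons (.rel (nat_lit 4563665028)) (.cons (.rel (nat_lit 4563665028)) (.cons (.rel (nat_lit 4299194370)) (.cons (.br (nat_lit 2) (.cons (.rel (nat_lit 335610240)) (.cons (.rel (nat_lit 71311380)) (.cons (.rel (nat_lit 71311380)) (.cons (.rel (nat_lit 71303298)) (.cons (.rel (nat_lit 71324688)) (.cons (.rel (nat_lit 71303298)) (.cons (.rel (nat_lit 71324688)) (.cons (.rel (nat_lit 34493960208)) (.cons (.rel (nat_lit 71303298)) (.cons (.rel (nat_lit 142606401)) (.cons (.rel (nat_lit 142606401)) (.cons (.rel (nat_lit 335610240)) (.cons (.rel (nat_lit 339739200)) (.cons (.rel (nat_lit 138412560)) (.cons (.rel (nat_lit 8724414720)) (.cons (.rel (nat_lit 17246995521)) (.cons (.rel (nat_lit 4370470920)) (.cons (.rel (nat_lit 71303298)) (.cons (.rel (nat_lit 71309376)) (.cons (.rel (nat_lit 71335941)) .nil))))))))))))))))))))) .nil)))))))))))))))))))) (.cons (.rel (nat_lit 17188356096)) (.cons (.rel (nat_lit 17188257816)) (.cons (.rel (nat_lit 17184391428)) (.cons (.rel (nat_lit 34368131328)) (.cons (.rel (nat_lit 17184391428)) (.cons (.br (nat_lit 5) (.cons (.rel (nat_lit 8598323268)) (.cons (.rel (nat_lit 4303699968)) (.cons (.rel (nat_lit 4563665028)) (.cons (.rel (nat_lit 4299161736)) (.cons (.rel (nat_lit 4299686160)) (.cons (.rel (nat_lit 4299182112)) (.cons (.rel (nat_lit 42949678080)) (.cons (.rel (nat_lit 4299166800)) (.cons (.rel (nat_lit 4299194370)) (.cons (.rel (nat_lit 4299161736)) (.cons (.rel (nat_lit 4299194370)) (.cons (.rel (nat_lit 4299161736)) (.cons (.rel (nat_lit 42949678080)) (.cons (.rel (nat_lit 4563665028)) (.cons (.rel (nat_lit 8598323268)) (.cons (.rel (nat_lit 4563665028)) (.cons (.rel (nat_lit 4563665028)) (.cons (.rel (nat_lit 4299194370)) (.cons (.rel (nat_lit 21474846720)) .nil)))))))))))))))))))) .nil))))))))))))))))))) (.cons (.br (nat_lit 5) (.cons (.rel (nat_lit 4299195432)) (.cons (.rel (nat_lit 8598323268)) (.cons (.rel (nat_lit 4563665028)) (.cons (.rel (nat_lit 4299194370)) (.cons (.rel (nat_lit 4299182112)) (.cons (.rel (nat_lit 8598323268)) (.cons (.rel (nat_lit 4303358208)) (.cons (.rel (nat_lit 4299161736)) (.cons (.rel (nat_lit 4299166800)) (.cons (.rel (nat_lit 4299166800)) (.cons (.rel (nat_lit 8598339585)) (.cons (.rel (nat_lit 4299166800)) (.cons (.rel (nat_lit 8598339585)) (.cons (.rel (nat_lit 4563665028)) (.cons (.rel (nat_lit 8598339585)) (.cons (.rel (nat_lit 4563665028)) (.cons (.rel (nat_lit 4563665028)) (.cons (.rel (nat_lit 4299178053)) (.cons (.rel (nat_lit 4299166800)) .nil)))))))))))))))))))) (.cons (.br (nat_lit 1) (.cons (.rel (nat_lit 21299712)) (.cons (.rel (nat_lit 553648260)) (.cons (.rel (nat_lit 301989960)) (.cons (.rel (nat_lit 20972688)) (.cons (.rel (nat_lit 301989960)) (.cons (.rel (nat_lit 301989960)) (.cons (.rel (nat_lit 41947140)) (.cons (.rel (nat_lit 20972688)) (.cons (.rel (nat_lit 20993028)) (.cons (.rel (nat_lit 553648260)) (.cons (.rel (nat_lit 20988000)) (.cons (.rel (nat_lit 20972688)) (.cons (.rel (nat_lit 20979720)) (.cons (.rel (nat_lit 20972688)) (.cons (.rel (nat_lit 20993028)) (.cons (.rel (nat_lit 20979720)) (.cons (.rel (nat_lit 301989960)) (.cons (.rel (nat_lit 553648260)) (.cons (.rel (nat_lit 553648260)) (.cons (.rel (nat_lit 20988000)) (.cons (.rel (nat_lit 553648260)) (.cons (.rel (nat_lit 20988000)) (.cons (.rel (nat_lit 20988000)) (.cons (.rel (nat_lit 20979720)) .nil))))))))))))))))))))))))) (.cons (.br (nat_lit 2) (.cons (.rel (nat_lit 335610240)) (.cons (.rel (nat_lit 71324688)) (.cons (.rel (nat_lit 71311380)) (.cons (.rel (nat_lit 71309376)) (.cons (.rel (nat_lit 71303298)) (.cons (.rel (nat_lit 142606401)) (.cons (.rel (nat_lit 142606401)) (.cons (.rel (nat_lit 71319624)) (.cons (.rel (nat_lit 71303298)) (.cons (.rel (nat_lit 75497760)) (.cons (.rel (nat_lit 71335941)) (.cons (.rel (nat_lit 335610240)) (.cons (.rel (nat_lit 71303298)) (.cons (.rel (nat_lit 71303298)) (.cons (.rel (nat_lit 71309376)) (.cons (.rel (nat_lit 71303298)) (.cons (.rel (nat_lit 71311380)) (.cons (.rel (nat_lit 71319624)) (.cons (.rel (nat_lit 71319624)) (.cons (.rel (nat_lit 71311380)) .nil))))))))))))))))))))) (.cons (.br (nat_lit 5) (.cons (.rel (nat_lit 4299178053)) (.cons (.rel (nat_lit 8598323268)) (.cons (.rel (nat_lit 4563665028)) (.cons (.rel (nat_lit 4299161736)) (.cons (.rel (nat_lit 4299161736)) (.cons (.rel (nat_lit 4303622208)) (.cons (.rel (nat_lit 8598323268)) (.cons (.rel (nat_lit 4299178053)) (.cons (.rel (nat_lit 4299166800)) (.cons (.rel (nat_lit 4299178053)) (.cons (.rel (nat_lit 8598323268)) (.cons (.rel (nat_lit 4299166800)) (.cons (.rel (nat_lit 4299166800)) (.cons (.rel (nat_lit 4563665028)) (.cons (.rel (nat_lit 8598323268)) (.cons (.rel (nat_lit 4563665028)) (.cons (.rel (nat_lit 4563665028)) (.cons (.rel (nat_lit 4299161736)) (.cons (.rel (nat_lit 8594130432)) .nil)))))))))))))))))))) (.cons (.rel (nat_lit 541589508)) (.cons (.br (nat_lit 2) (.cons (.rel (nat_lit 335610240)) (.cons (.rel (nat_lit 71303298)) (.cons (.rel (nat_lit 71324688)) (.cons (.rel (nat_lit 71324688)) (.cons (.br (nat_lit 6) (.cons (.rel (nat_lit 17184072192)) (.cons (.rel (nat_lit 34368131328)) (.cons (.rel (nat_lit 34368131328)) (.cons (.rel (nat_lit 17188258821)) (.cons (.rel (nat_lit 17448894720)) (.cons (.rel (nat_lit 17184072192)) (.cons (.rel (nat_lit 17184072192)) (.cons (.rel (nat_lit 17314089474)) (.cons (.rel (nat_lit 17188257816)) (.cons (.rel (nat_lit 17246986272)) (.cons (.rel (nat_lit 17247010833)) (.cons (.rel (nat_lit 17184391428)) (.cons (.rel (nat_lit 34368131328)) (.cons (.rel (nat_lit 17188258821)) (.cons (.rel (nat_lit 17184342288)) (.cons (.rel (nat_lit 34363932708)) (.cons (.rel (nat_lit 17184342288)) (.cons (.rel (nat_lit 34368131328)) .nil))))))))))))))))))) (.cons (.br (nat_lit 4) (.cons (.rel (nat_lit 2155877376)) (.cons (.rel (nat_lit 2415984648)) (.cons (.rel (nat_lit 1077956616)) (.cons (.rel (nat_lit 1610743812)) (.cons (.rel (nat_lit 1077952593)) (.cons (.rel (nat_lit 1077936276)) (.cons (.rel (nat_lit 1077946368)) (.cons (.rel (nat_lit 1077952593)) (.cons (.rel (nat_lit 1141117956)) (.cons (.rel (nat_lit 1149240384)) (.cons (.rel (nat_lit 1077937281)) (.cons (.rel (nat_lit 2415984648)) (.cons (.rel (nat_lit 1077937281)) (.cons (.rel (nat_lit 1078198848)) (.cons (.rel (nat_lit 1077937281)) (.cons (.rel (nat_lit 1077936276)) (.cons (.rel (nat_lit 2415984648)) (.cons (.rel (nat_lit 1077952593)) (.cons (.rel (nat_lit 1077936276)) (.cons (.rel (nat_lit 1610743812)) (.cons (.rel (nat_lit 1077936276)) (.cons (.rel (nat_lit 1610743812)) (.cons (.rel (nat_lit 1610743812)) (.cons (.rel (nat_lit 1146093840)) (.cons (.rel (nat_lit 1083179040)) .nil)))))))))))))))))))))))))) (.cons (.rel (nat_lit 71309376)) (.cons (.rel (nat_lit 142606401)) (.cons (.rel (nat_lit 71303298)) (.cons (.rel (nat_lit 71319624)) (.cons (.rel (nat_lit 142606401)) (.cons (.rel (nat_lit 335610240)) (.cons (.rel (nat_lit 71303298)) (.cons (.rel (nat_lit 675348480)) (.cons (.rel (nat_lit 71303298)) (.cons (.rel (nat_lit 71303298)) (.cons (.rel (nat_lit 71311380)) (.cons (.rel (nat_lit 71309376)) (.cons (.rel (nat_lit 71311380)) (.cons (.rel (nat_lit 142606401)) .nil))))))))))))))))))))) (.cons (.br (nat_lit 5) (.cons (.rel (nat_lit 4299194370)) (.cons (.rel (nat_lit 4299166800)) (.cons (.rel (nat_lit 4563665028)) (.cons (.rel (nat_lit 4299178053)) (.cons (.rel (nat_lit 4299231252)) (.cons (.rel (nat_lit 4299161736)) (.cons (.rel (nat_lit 4299166800)) (.cons (.rel (nat_lit 4299161736)) (.cons (.rel (nat_lit 8598323268)) (.cons (.rel (nat_lit 4299178053)) (.cons (.rel (nat_lit 8598339585)) (.cons (.rel (nat_lit 4299161736)) (.cons (.rel (nat_lit 4299182112)) (.cons (.rel (nat_lit 4563665028)) (.cons (.rel (nat_lit 4299686160)) (.cons (.rel (nat_lit 4563665028)) (.cons (.rel (nat_lit 4563665028)) (.cons (.rel (nat_lit 4299161736)) (.cons (.rel (nat_lit 4299231252)) .nil)))))))))))))))))))) (.cons (.rel (nat_lit 277086216)) (.cons (.rel (nat_lit 277086216)) (.cons (.br (nat_lit 4) (.cons (.rel (nat_lit 2155877376)) (.cons (.rel (nat_lit 2415984648)) (.cons (.rel (nat_lit 1077969924)) (.cons (.rel (nat_lit 1610743812)) (.cons (.br (nat_lit 2) (.cons (.rel (nat_lit 335610240)) (.cons (.rel (nat_lit 1149240384)) (.cons (.rel (nat_lit 71309376)) (.cons (.rel (nat_lit 344064000)) (.cons (.rel (nat_lit 71303298)) (.cons (.rel (nat_lit 71311380)) (.cons (.rel (nat_lit 71311380)) (.cons (.rel (nat_lit 142606401)) (.cons (.rel (nat_lit 1140867393)) (.cons (.rel (nat_lit 71335941)) (.cons (.rel (nat_lit 1413808128)) (.cons (.rel (nat_lit 335610240)) (.cons (.rel (nat_lit 71828736)) (.cons (.rel (nat_lit 71303298)) (.cons (.rel (nat_lit 71303298)) (.cons (.rel (nat_lit 71324688)) (.cons (.rel (nat_lit 71303298)) (.cons (.rel (nat_lit 71311380)) (.cons (.rel (nat_lit 71324688)) (.cons (.rel (nat_lit 71319624)) .nil))))))))))))))))))))) (.cons (.rel (nat_lit 1077937281)) (.cons (.rel (nat_lit 2153775120)) (.cons (.rel (nat_lit 1077937281)) (.cons (.rel (nat_lit 1077946368)) (.cons (.rel (nat_lit 1077936276)) (.cons (.rel (nat_lit 1077937281)) (.cons (.rel (nat_lit 2415984648)) (.cons (.br (nat_lit 6) (.cons (.rel (nat_lit 17184072192)) (.cons (.rel (nat_lit 17188258821)) (.cons (.rel (nat_lit 17184391428)) (.cons (.rel (nat_lit 34368131328)) (.cons (.rel (nat_lit 17448894720)) (.cons (.rel (nat_lit 18253644816)) (.cons (.rel (nat_lit 18253611168)) (.cons (.rel (nat_lit 17184391428)) (.cons (.rel (nat_lit 17188258821)) (.cons (.rel (nat_lit 17184072192)) (.cons (.rel (nat_lit 34368128322)) (.cons (.rel (nat_lit 17184342288)) (.cons (.rel (nat_lit 17188258821)) (.cons (.rel (nat_lit 34368131328)) (.cons (.rel (nat_lit 19327885440)) (.cons (.rel (nat_lit 34363932708)) (.cons (.rel (nat_lit 34368131328)) (.cons (.rel (nat_lit 34368131328)) .nil))))))))))))))))))) (.cons (.rel (nat_lit 1077946368)) (.cons (.rel (nat_lit 1077936276)) (.cons (.rel (nat_lit 1077937281)) (.cons (.rel (nat_lit 2415984648)) (.cons (.rel (nat_lit 1077937281)) (.cons (.rel (nat_lit 1077952593)) (.cons (.rel (nat_lit 1610743812)) (.cons (.rel (nat_lit 1077952593)) (.cons (.rel (nat_lit 1610743812)) (.cons (.rel (nat_lit 1610743812)) (.cons (.rel (nat_lit 2155877376)) (.cons (.rel (nat_lit 1077936276)) .nil)))))))))))))))))))))))))) (.cons (.br (nat_lit 5) (.cons (.rel (nat_lit 4299178053)) (.cons (.rel (nat_lit 8598323268)) (.cons (.rel (nat_lit 4563665028)) (.cons (.rel (nat_lit 4299686160)) (.cons (.rel (nat_lit 4299166800)) (.cons (.rel (nat_lit 4299182112)) (.cons (.rel (nat_lit 4299231252)) (.cons (.rel (nat_lit 4299686160)) (.cons (.rel (nat_lit 4299178053)) (.cons (.rel (nat_lit 4299178053)) (.cons (.rel (nat_lit 4299194370)) (.cons (.rel (nat_lit 8598339585)) (.cons (.rel (nat_lit 4299182112)) (.cons (.rel (nat_lit 4563665028)) (.cons (.rel (nat_lit 8598323268)) (.cons (.rel (nat_lit 4563665028)) (.cons (.rel (nat_lit 4563665028)) (.cons (.rel (nat_lit 4303358208)) (.cons (.rel (nat_lit 8598323268)) .nil)))))))))))))))))))) (.cons (.br (nat_lit 5) (.cons (.rel (nat_lit 8598323268)) (.cons (.rel (nat_lit 4299166800)) (.cons (.rel (nat_lit 4563665028)) (.cons (.rel (nat_lit 4303622208)) (.cons (.rel (nat_lit 4303358208)) (.cons (.rel (nat_lit 8598323268)) (.cons (.br (nat_lit 6) (.cons (.br (nat_lit 1) (.cons (.rel (nat_lit 4315939329)) (.cons (.rel (nat_lit 553648260)) (.cons (.rel (nat_lit 301989960)) (.cons (.rel (nat_lit 4328522754)) (.cons (.rel (nat_lit 301989960)) (.cons (.rel (nat_lit 301989960)) (.cons (.rel (nat_lit 41947140)) (.cons (.rel (nat_lit 4318036992)) (.cons (.rel (nat_lit 25786843152)) (.cons (.rel (nat_lit 553648260)) (.cons (.rel (nat_lit 25167105)) (.cons (.rel (nat_lit 20972688)) (.cons (.rel (nat_lit 41960448)) (.cons (.rel (nat_lit 20972688)) (.cons (.rel (nat_lit 25167105)) (.cons (.rel (nat_lit 41944134)) (.cons (.rel (nat_lit 301989960)) (.cons (.rel (nat_lit 553648260)) (.cons (.rel (nat_lit 553648260)) (.cons (.rel (nat_lit 25167105)) (.cons (.rel (nat_lit 553648260)) (.cons (.rel (nat_lit 25167105)) (.cons (.rel (nat_lit 34377565200)) (.cons (.rel (nat_lit 25167105)) .nil))))))))))))))))))))))))) (.cons (.rel (nat_lit 21474836628)) (.cons (.rel (nat_lit 34368143634)) (.cons (.rel (nat_lit 42949678080)) (.cons (.rel (nat_lit 17448894720)) (.cons (.rel (nat_lit 17184072192)) (.cons (.rel (nat_lit 21474846720)) (.cons (.rel (nat_lit 17184072192)) (.cons (.rel (nat_lit 34368131328)) (.cons (.rel (nat_lit 21474836628)) (.cons (.rel (nat_lit 17184072192)) (.cons (.br (nat_lit 1) (.cons (.rel (nat_lit 4315939329)) (.cons (.rel (nat_lit 553648260)) (.cons (.rel (nat_lit 301989960)) (.cons (.rel (nat_lit 4328522754)) (.cons (.rel (nat_lit 301989960)) (.cons (.rel (nat_lit 301989960)) (.cons (.rel (nat_lit 41947140)) (.cons (.rel (nat_lit 4318036992)) (.cons (.rel (nat_lit 17196654612)) (.cons (.rel (nat_lit 553648260)) (.cons (.rel (nat_lit 25167105)) (.cons (.rel (nat_lit 20972688)) (.cons (.rel (nat_lit 41960448)) (.cons (.rel (nat_lit 20972688)) (.cons (.rel (nat_lit 25167105)) (.cons (.rel (nat_lit 41944134)) (.cons (.rel (nat_lit 301989960)) (.cons (.rel (nat_lit 553648260)) (.cons (.rel (nat_lit 553648260)) (.cons (.rel (nat_lit 25167105)) (.cons (.rel (nat_lit 553648260)) (.cons (.rel (nat_lit 25167105)) (.cons (.rel (nat_lit 17196667920)) (.cons (.rel (nat_lit 25167105)) .nil))))))))))))))))))))))))) (.cons (.rel (nat_lit 21479424000)) (.cons (.rel (nat_lit 21474836628)) (.cons (.rel (nat_lit 17184072192)) (.cons (.rel (nat_lit 21474906144)) (.cons (.rel (nat_lit 34368462852)) (.cons (.rel (nat_lit 42949678080)) .nil))))))))))))))))))) (.cons (.rel (nat_lit 4299166800)) (.cons (.rel (nat_lit 4303358208)) (.cons (.rel (nat_lit 4303622208)) (.cons (.rel (nat_lit 8598339585)) (.cons (.br (nat_lit 6) (.cons (.rel (nat_lit 38923206720)) (.cons (.rel (nat_lit 21480079392)) (.cons (.rel (nat_lit 34368143634)) (.cons (.rel (nat_lit 21479424000)) (.cons (.rel (nat_lit 17448894720)) (.cons (.rel (nat_lit 17184072192)) (.cons (.rel (nat_lit 21474846720)) (.cons (.rel (nat_lit 17184072192)) (.cons (.rel (nat_lit 34368131328)) (.cons (.rel (nat_lit 21474837633)) (.cons (.rel (nat_lit 17184072192)) (.cons (.rel (nat_lit 21474836628)) (.cons (.rel (nat_lit 21474906144)) (.cons (.rel (nat_lit 21474906144)) (.cons (.rel (nat_lit 17184072192)) (.cons (.rel (nat_lit 21474836628)) (.cons (.rel (nat_lit 34368462852)) (.cons (.rel (nat_lit 21474856968)) .nil))))))))))))))))))) (.cons (.br (nat_lit 6) (.cons (.rel (nat_lit 38923206720)) (.cons (.rel (nat_lit 42949678080)) (.cons (.rel (nat_lit 34368143634)) (.cons (.rel (nat_lit 21479424000)) (.cons (.rel (nat_lit 17448894720)) (.cons (.rel (nat_lit 17184072192)) (.cons (.rel (nat_lit 21476410368)) (.cons (.rel (nat_lit 17184072192)) (.cons (.rel (nat_lit 34368131328)) (.cons (.rel (nat_lit 21474837633)) (.cons (.rel (nat_lit 17184072192)) (.cons (.rel (nat_lit 21474836628)) (.cons (.rel (nat_lit 21474846720)) (.cons (.rel (nat_lit 21474852945)) (.cons (.rel (nat_lit 17184072192)) (.cons (.rel (nat_lit 21474906144)) (.cons (.rel (nat_lit 34368462852)) (.cons (.rel (nat_lit 42949678080)) .nil))))))))))))))))))) (.cons (.rel (nat_lit 4563665028)) (.cons (.br (nat_lit 4) (.cons (.rel (nat_lit 1077937281)) (.cons (.rel (nat_lit 2415984648)) (.cons (.rel (nat_lit 5905580544)) (.cons (.rel (nat_lit 1610743812)) (.cons (.rel (nat_lit 1078005792)) (.cons (.rel (nat_lit 5905580544)) (.cons (.rel (nat_lit 5905580544)) (.cons (.rel (nat_lit 1079510016)) (.cons (.rel (nat_lit 1077946368)) (.cons (.rel (nat_lit 1077937281)) (.cons (.rel (nat_lit 5905580544)) (.cons (.rel (nat_lit 2415984648)) (.cons (.rel (nat_lit 5905580544)) (.cons (.rel (nat_lit 2152267776)) (.cons (.rel (nat_lit 1077946368)) (.cons (.rel (nat_lit 1082523648)) (.cons (.rel (nat_lit 2415984648)) (.cons (.rel (nat_lit 2152267776)) (.cons (.rel (nat_lit 1077946368)) (.cons (.rel (nat_lit 1610743812)) (.cons (.rel (nat_lit 1077946368)) (.cons (.rel (nat_lit 1610743812)) (.cons (.rel (nat_lit 1610743812)) (.cons (.rel (nat_lit 1077946368)) (.cons (.rel (nat_lit 1077937281)) .nil)))))))))))))))))))))))))) (.cons (.rel (nat_lit 4563665028)) (.cons (.rel (nat_lit 4563665028)) (.cons (.br (nat_lit 4) (.cons (.rel (nat_lit 1077937281)) (.cons (.rel (nat_lit 2415984648)) (.cons (.rel (nat_lit 5905580544)) (.cons (.rel (nat_lit 1610743812)) (.cons (.rel (nat_lit 1078005792)) (.cons (.rel (nat_lit 5368742148)) (.cons (.rel (nat_lit 9663774720)) (.cons (.rel (nat_lit 1079510016)) (.cons (.rel (nat_lit 1077946368)) (.cons (.rel (nat_lit 1077937281)) (.cons (.rel (nat_lit 5905580544)) (.cons (.rel (nat_lit 2415984648)) (.cons (.rel (nat_lit 5905580544)) (.cons (.rel (nat_lit 2152267776)) (.cons (.rel (nat_lit 1077946368)) (.cons (.rel (nat_lit 1082523648)) (.cons (.rel (nat_lit 2415984648)) (.cons (.rel (nat_lit 2152267776)) (.cons (.rel (nat_lit 1077946368)) (.cons (.rel (nat_lit 1610743812)) (.cons (.rel (nat_lit 1077946368)) (.cons (.rel (nat_lit 1610743812)) (.cons (.rel (nat_lit 1610743812)) (.cons (.rel (nat_lit 1077946368)) (.cons (.rel (nat_lit 1077937281)) .nil)))))))))))))))))))))))))) (.cons (.rel (nat_lit 4303622208)) .nil)))))))))))))))))))) (.cons (.br (nat_lit 5) (.cons (.rel (nat_lit 4299178053)) (.cons (.rel (nat_lit 4299166800)) (.cons (.rel (nat_lit 4563665028)) (.cons (.rel (nat_lit 4299178053)) (.cons (.rel (nat_lit 4299194370)) (.cons (.rel (nat_lit 4299178053)) (.cons (.rel (nat_lit 4299182112)) (.cons (.rel (nat_lit 8598323268)) (.cons (.rel (nat_lit 4299161736)) (.cons (.rel (nat_lit 4299182112)) (.cons (.br (nat_lit 6) (.cons (.rel (nat_lit 38927335680)) (.cons (.rel (nat_lit 17184342288)) (.cons (.rel (nat_lit 17184072192)) (.cons (.rel (nat_lit 17184391428)) (.cons (.rel (nat_lit 17448894720)) (.cons (.rel (nat_lit 34368131328)) (.cons (.rel (nat_lit 21474837633)) (.cons (.rel (nat_lit 17184391428)) (.cons (.rel (nat_lit 17184072192)) (.cons (.rel (nat_lit 21474846720)) (.cons (.rel (nat_lit 34368131328)) (.cons (.rel (nat_lit 17184342288)) (.cons (.rel (nat_lit 17184072192)) (.cons (.rel (nat_lit 17184072192)) (.cons (.rel (nat_lit 17184342288)) (.cons (.rel (nat_lit 17188258821)) (.cons (.rel (nat_lit 17184072192)) (.cons (.rel (nat_lit 34364031000)) .nil))))))))))))))))))) (.cons (.rel (nat_lit 4299194370)) (.cons (.rel (nat_lit 8598323268)) (.cons (.rel (nat_lit 4563665028)) (.cons (.rel (nat_lit 9131003904)) (.cons (.rel (nat_lit 4563665028)) (.cons (.rel (nat_lit 4563665028)) (.cons (.rel (nat_lit 4299161736)) (.cons (.rel (nat_lit 8594130432)) .nil)))))))))))))))))))) (.cons (.br (nat_lit 1) (.cons (.rel (nat_lit 41947140)) (.cons (.rel (nat_lit 553648260)) (.cons (.rel (nat_lit 301989960)) (.cons (.rel (nat_lit 25428096)) (.cons (.rel (nat_lit 301989960)) (.cons (.rel (nat_lit 301989960)) (.cons (.rel (nat_lit 41947140)) (.cons (.rel (nat_lit 20972688)) (.cons (.rel (nat_lit 20993028)) (.cons (.rel (nat_lit 553648260)) (.cons (.rel (nat_lit 20972688)) (.cons (.rel (nat_lit 41960448)) (.cons (.rel (nat_lit 20972688)) (.cons (.rel (nat_lit 21006336)) (.cons (.rel (nat_lit 20972688)) (.cons (.rel (nat_lit 20988000)) (.cons (.rel (nat_lit 301989960)) (.cons (.rel (nat_lit 553648260)) (.cons (.rel (nat_lit 553648260)) (.cons (.rel (nat_lit 20972688)) (.cons (.rel (nat_lit 553648260)) (.cons (.rel (nat_lit 20979720)) (.cons (.rel (nat_lit 41947140)) (.cons (.rel (nat_lit 20979720)) .nil))))))))))))))))))))))))) (.cons (.rel (nat_lit 541589508)) .nil))))))))))))))))) .nil)) (.node (.node .leaf (nat_lit 13840346280373029) (.br (nat_lit 3) (.cons (.br (nat_lit 4) (.cons (.rel (nat_lit 2415984648)) (.cons (.rel (nat_lit 1343225874)) (.cons (.rel (nat_lit 1343225874)) (.cons (.rel (nat_lit 1342459908)) (.cons (.rel (nat_lit 1342473216)) .nil)))))) .nil)) .leaf) (nat_lit 13840346280442166) (.br (nat_lit 2) (.cons (.br (nat_lit 0) (.cons (.rel (nat_lit 71311380)) (.cons (.rel (nat_lit 71303298)) (.cons (.rel (nat_lit 73662528)) (.cons (.rel (nat_lit 71309376)) .nil))))) (.cons (.br (nat_lit 6) (.cons (.rel (nat_lit 34493960208)) (.cons (.rel (nat_lit 17246986272)) (.cons (.rel (nat_lit 34427109504)) .nil)))) (.cons (.br (nat_lit 6) (.cons (.rel (nat_lit 17315136768)) (.cons (.rel (nat_lit 34493960208)) (.cons (.rel (nat_lit 17246986272)) .nil)))) .nil)))) (.node .leaf (nat_lit 13840346280442612) (.br (nat_lit 3) (.cons (.br (nat_lit 6) (.cons (.br (nat_lit 2) (.cons (.rel (nat_lit 335822916)) (.cons (.br (nat_lit 1) (.cons (.rel (nat_lit 17196646530)) (.cons (.rel (nat_lit 86507520)) (.cons (.rel (nat_lit 285483012)) (.cons (.rel (nat_lit 553648260)) (.cons (.rel (nat_lit 285348096)) .nil)))))) (.cons (.rel (nat_lit 34426848513)) (.cons (.rel (nat_lit 34493960208)) .nil))))) .nil)) .nil)) .leaf)))))) (nat_lit 13840346280442666) (.br (nat_lit 3) (.cons (.br (nat_lit 0) (.cons (.br (nat_lit 2) (.cons (.rel (nat_lit 71303298)) (.cons (.rel (nat_lit 138412560)) (.cons (.rel (nat_lit 71324688)) (.cons (.rel (nat_lit 71319624)) (.cons (.rel (nat_lit 71309376)) (.cons (.rel (nat_lit 71303298)) (.cons (.rel (nat_lit 142606401)) .nil)))))))) (.cons (.br (nat_lit 5) (.cons (.rel (nat_lit 4831842372)) (.cons (.rel (nat_lit 8595177729)) (.cons (.rel (nat_lit 4831842372)) (.cons (.rel (nat_lit 4299231252)) (.cons (.rel (nat_lit 4299182112)) (.cons (.rel (nat_lit 8598339585)) (.cons (.rel (nat_lit 4299686160)) (.cons (.rel (nat_lit 8594130432)) .nil))))))))) (.cons (.rel (nat_lit 272638020)) (.cons (.rel (nat_lit 541589508)) (.cons (.br (nat_lit 2) (.cons (.rel (nat_lit 71309376)) (.cons (.rel (nat_lit 142606401)) (.cons (.rel (nat_lit 71311380)) (.cons (.rel (nat_lit 71319624)) (.cons (.rel (nat_lit 71309376)) (.cons (.rel (nat_lit 75497760)) (.cons (.rel (nat_lit 138412560)) .nil)))))))) (.cons (.br (nat_lit 6) (.cons (.rel (nat_lit 17184072192)) (.cons (.rel (nat_lit 17184326976)) (.cons (.br (nat_lit 5) (.cons (.rel (nat_lit 4831842372)) (.cons (.rel (nat_lit 8598339585)) (.cons (.rel (nat_lit 4831842372)) (.cons (.rel (nat_lit 8598323268)) (.cons (.rel (nat_lit 21474906144)) (.cons (.rel (nat_lit 21474906144)) (.cons (.rel (nat_lit 8594130432)) (.cons (.rel (nat_lit 25773998160)) .nil))))))))) (.cons (.rel (nat_lit 17184587778)) (.cons (.br (nat_lit 2) (.cons (.rel (nat_lit 344064000)) (.cons (.rel (nat_lit 71303298)) (.cons (.rel (nat_lit 17247010833)) (.cons (.rel (nat_lit 71368800)) (.cons (.rel (nat_lit 75497760)) (.cons (.rel (nat_lit 71309376)) (.cons (.rel (nat_lit 17246986272)) .nil)))))))) (.cons (.rel (nat_lit 34363933713)) .nil))))))) (.cons (.br (nat_lit 6) (.cons (.rel (nat_lit 34363933713)) (.cons (.rel (nat_lit 34363933713)) (.cons (.rel (nat_lit 17184342288)) (.cons (.rel (nat_lit 34364002368)) (.cons (.rel (nat_lit 17184072192)) (.cons (.rel (nat_lit 34364031000)) .nil))))))) .nil)))))))) (.cons (.br (nat_lit 6) (.cons (.br (nat_lit 0) (.cons (.rel (nat_lit 34368128322)) (.cons (.rel (nat_lit 17184072192)) (.cons (.rel (nat_lit 545259537)) (.cons (.rel (nat_lit 272630808)) (.cons (.rel (nat_lit 17452504320)) (.cons (.rel (nat_lit 276824400)) (.cons (.rel (nat_lit 545259537)) .nil)))))))) (.cons (.rel (nat_lit 17448312912)) (.cons (.rel (nat_lit 34628436000)) (.cons (.br (nat_lit 0) (.cons (.rel (nat_lit 17184072192)) (.cons (.rel (nat_lit 17452504320)) (.cons (.rel (nat_lit 545259537)) (.cons (.rel (nat_lit 272630808)) (.cons (.rel (nat_lit 34368128322)) (.cons (.rel (nat_lit 276824400)) (.cons (.rel (nat_lit 545259537)) .nil)))))))) (.cons (.br (nat_lit 0) (.cons (.rel (nat_lit 17452504320)) (.cons (.rel (nat_lit 34368128322)) (.cons (.rel (nat_lit 545259537)) (.cons (.rel (nat_lit 272630808)) (.cons (.rel (nat_lit 17184072192)) (.cons (.rel (nat_lit 276824400)) (.cons (.rel (nat_lit 545259537)) .nil)))))))) (.cons (.rel (nat_lit 34628436000)) .nil))))))) (.cons (.br (nat_lit 6) (.cons (.br (nat_lit 0) (.cons (.rel (nat_lit 34368128322)) (.cons (.rel (nat_lit 17184072192)) (.cons (.rel (nat_lit 272629794)) (.cons (.rel (nat_lit 545259537)) (.cons (.rel (nat_lit 17452504320)) (.cons (.rel (nat_lit 545259537)) (.cons (.rel (nat_lit 272629794)) .nil)))))))) (.cons (.rel (nat_lit 17448306705)) (.cons (.rel (nat_lit 34628436000)) (.cons (.br (nat_lit 0) (.cons (.rel (nat_lit 17184072192)) (.cons (.rel (nat_lit 17452504320)) (.cons (.rel (nat_lit 272629794)) (.cons (.rel (nat_lit 545259537)) (.cons (.rel (nat_lit 34368128322)) (.cons (.rel (nat_lit 545259537)) (.cons (.rel (nat_lit 272629794)) .nil)))))))) (.cons (.br (nat_lit 0) (.cons (.rel (nat_lit 17452504320)) (.cons (.rel (nat_lit 34368128322)) (.cons (.rel (nat_lit 272629794)) (.cons (.rel (nat_lit 545259537)) (.cons (.rel (nat_lit 17184072192)) (.cons (.rel (nat_lit 545259537)) (.cons (.rel (nat_lit 272629794)) .nil)))))))) (.cons (.rel (nat_lit 34628436000)) .nil))))))) .nil)))) (.node (.node (.node (.node (.node (.node (.node .leaf (nat_lit 13840346280443166) (.br (nat_lit 3) (.cons (.br (nat_lit 6) (.cons (.br (nat_lit 1) (.cons (.rel (nat_lit 17196646530)) (.cons (.rel (nat_lit 17196646530)) (.cons (.rel (nat_lit 301989960)) (.cons (.rel (nat_lit 17196712032)) (.cons (.rel (nat_lit 301989960)) .nil)))))) (.cons (.br (nat_lit 1) (.cons (.rel (nat_lit 17196652608)) (.cons (.rel (nat_lit 17196662856)) (.cons (.rel (nat_lit 301989960)) (.cons (.rel (nat_lit 17196646530)) (.cons (.rel (nat_lit 301989960)) .nil)))))) (.cons (.rel (nat_lit 34896609285)) (.cons (.br (nat_lit 1) (.cons (.rel (nat_lit 17196712032)) (.cons (.rel (nat_lit 17196679173)) (.cons (.rel (nat_lit 301989960)) (.cons (.rel (nat_lit 17196652608)) (.cons (.rel (nat_lit 301989960)) .nil)))))) .nil))))) (.cons (.br (nat_lit 4) (.cons (.rel (nat_lit 1342247232)) (.cons (.rel (nat_lit 1342177572)) (.cons (.br (nat_lit 6) (.cons (.rel (nat_lit 36507222096)) (.cons (.rel (nat_lit 19328401665)) (.cons (.rel (nat_lit 34628190465)) (.cons (.rel (nat_lit 18253611168)) .nil))))) (.cons (.rel (nat_lit 1342178577)) (.cons (.rel (nat_lit 2415920196)) .nil)))))) (.cons (.br (nat_lit 4) (.cons (.rel (nat_lit 1342178577)) (.cons (.rel (nat_lit 1342178577)) (.cons (.br (nat_lit 6) (.cons (.rel (nat_lit 36507222096)) (.cons (.rel (nat_lit 19328401665)) (.cons (.rel (nat_lit 19596050496)) (.cons (.rel (nat_lit 18253611168)) .nil))))) (.cons (.br (nat_lit 1) (.cons (.rel (nat_lit 301995024)) (.cons (.rel (nat_lit 1090588932)) (.cons (.rel (nat_lit 1090781268)) (.cons (.rel (nat_lit 1358971920)) (.cons (.rel (nat_lit 1107298308)) .nil)))))) (.cons (.rel (nat_lit 2415936513)) .nil)))))) .nil)))) .leaf) (nat_lit 13840346281161514) (.br (nat_lit 2) (.cons (.br (nat_lit 4) (.cons (.rel (nat_lit 1140920592)) .nil)) .nil)) .leaf) (nat_lit 13840346281162240) (.br (nat_lit 1) (.cons (.br (nat_lit 2) (.cons (.rel (nat_lit 86507520)) .nil)) .nil)) (.node .leaf (nat_lit 13840346281357569) (.br (nat_lit 3) (.cons (.br (nat_lit 4) (.cons (.br (nat_lit 1) (.cons (.rel (nat_lit 301989960)) (.cons (.rel (nat_lit 1091043840)) (.cons (.rel (nat_lit 2181300480)) (.cons (.rel (nat_lit 1090782273)) (.cons (.rel (nat_lit 2181300480)) (.cons (.br (nat_lit 6) (.cons (.rel (nat_lit 19864227840)) (.cons (.rel (nat_lit 18254135556)) (.cons (.rel (nat_lit 18253611168)) (.cons (.rel (nat_lit 19327354368)) (.cons (.rel (nat_lit 36507222096)) (.cons (.rel (nat_lit 17448439812)) (.cons (.rel (nat_lit 17196646530)) (.cons (.rel (nat_lit 17198219265)) .nil))))))))) (.cons (.rel (nat_lit 285348096)) .nil)))))))) (.cons (.rel (nat_lit 1343291520)) (.cons (.rel (nat_lit 1610743812)) (.cons (.rel (nat_lit 2415984648)) .nil))))) (.cons (.br (nat_lit 4) (.cons (.br (nat_lit 1) (.cons (.rel (nat_lit 302006277)) (.cons (.rel (nat_lit 301995024)) (.cons (.rel (nat_lit 2181300480)) (.cons (.rel (nat_lit 301995024)) (.cons (.rel (nat_lit 2181300480)) (.cons (.rel (nat_lit 301995024)) (.cons (.rel (nat_lit 285213984)) .nil)))))))) (.cons (.rel (nat_lit 1342247232)) (.cons (.rel (nat_lit 1342177572)) (.cons (.rel (nat_lit 2415935508)) .nil))))) (.cons (.br (nat_lit 4) (.cons (.br (nat_lit 5) (.cons (.rel (nat_lit 4563501312)) (.cons (.rel (nat_lit 5368718592)) (.cons (.rel (nat_lit 5905580544)) (.cons (.rel (nat_lit 4563501312)) (.cons (.rel (nat_lit 5368973376)) (.cons (.rel (nat_lit 5368709505)) (.cons (.rel (nat_lit 8858386464)) (.cons (.rel (nat_lit 4563501312)) (.cons (.rel (nat_lit 4563681345)) (.cons (.rel (nat_lit 5368718592)) (.cons (.rel (nat_lit 4563501312)) (.cons (.rel (nat_lit 8858386464)) .nil))))))))))))) (.cons (.rel (nat_lit 1342178577)) (.cons (.rel (nat_lit 1610694672)) (.cons (.br (nat_lit 0) (.cons (.rel (nat_lit 1077937281)) (.cons (.rel (nat_lit 1614808320)) (.cons (.rel (nat_lit 2155877376)) (.cons (.rel (nat_lit 2155877376)) (.cons (.rel (nat_lit 2155877376)) (.cons (.rel (nat_lit 1082130693)) (.cons (.rel (nat_lit 1346376192)) (.cons (.rel (nat_lit 1346376192)) (.cons (.rel (nat_lit 273170688)) .nil)))))))))) .nil))))) .nil)))) .leaf)) (nat_lit 13840346281358069) (.br (nat_lit 3) (.cons (.br (nat_lit 4) (.cons (.rel (nat_lit 1610743812)) (.cons (.rel (nat_lit 2415984648)) (.cons (.br (nat_lit 2) (.cons (.rel (nat_lit 1141964880)) (.cons (.rel (nat_lit 1207959573)) (.cons (.rel (nat_lit 1140920592)) (.cons (.rel (nat_lit 1207960578)) .nil))))) (.cons (.rel (nat_lit 1610743812)) .nil))))) (.cons (.br (nat_lit 2) (.cons (.rel (nat_lit 402658308)) (.cons (.rel (nat_lit 402653280)) (.cons (.br (nat_lit 4) (.cons (.rel (nat_lit 1342177572)) (.cons (.rel (nat_lit 2415935508)) (.cons (.rel (nat_lit 1140920592)) (.cons (.rel (nat_lit 1342177572)) .nil))))) (.cons (.rel (nat_lit 402658308)) .nil))))) (.cons (.br (nat_lit 2) (.cons (.rel (nat_lit 402671616)) (.cons (.br (nat_lit 4) (.cons (.rel (nat_lit 1610694672)) (.cons (.rel (nat_lit 2216689920)) (.cons (.rel (nat_lit 1207959573)) (.cons (.rel (nat_lit 1610694672)) .nil))))) (.cons (.rel (nat_lit 402653280)) (.cons (.rel (nat_lit 402671616)) .nil))))) .nil)))) (.node (.node (.node .leaf (nat_lit 13840346281358088) (.br (nat_lit 3) (.cons (.br (nat_lit 6) (.cons (.rel (nat_lit 17448304650)) (.cons (.br (nat_lit 0) (.cons (.rel (nat_lit 17184066177)) (.cons (.rel (nat_lit 276824400)) (.cons (.rel (nat_lit 545259537)) .nil)))) .nil))) .nil)) .leaf) (nat_lit 13840346281358569) (.br (nat_lit 3) (.cons (.br (nat_lit 2) (.cons (.br (nat_lit 4) (.cons (.rel (nat_lit 2214600768)) (.cons (.rel (nat_lit 1141117956)) (.cons (.rel (nat_lit 1610743812)) (.cons (.rel (nat_lit 2415984648)) (.cons (.rel (nat_lit 1140867393)) (.cons (.rel (nat_lit 2214594561)) (.cons (.rel (nat_lit 2214600768)) (.cons (.rel (nat_lit 1342247232)) (.cons (.rel (nat_lit 2415984648)) (.cons (.rel (nat_lit 1610743812)) (.cons (.rel (nat_lit 1141117956)) .nil)))))))))))) (.cons (.rel (nat_lit 335610240)) (.cons (.br (nat_lit 5) (.cons (.rel (nat_lit 4362081600)) (.cons (.rel (nat_lit 4362081600)) (.cons (.rel (nat_lit 4362081600)) (.cons (.rel (nat_lit 4362081600)) (.cons (.rel (nat_lit 4362096912)) (.cons (.rel (nat_lit 4362338388)) (.cons (.rel (nat_lit 4429258752)) (.cons (.rel (nat_lit 4362339393)) (.cons (.rel (nat_lit 4362339393)) .nil)))))))))) (.cons (.br (nat_lit 4) (.cons (.rel (nat_lit 1140920592)) (.cons (.rel (nat_lit 2214600768)) (.cons (.rel (nat_lit 1610743812)) (.cons (.rel (nat_lit 2415984648)) (.cons (.rel (nat_lit 1207960578)) (.cons (.rel (nat_lit 1207959573)) (.cons (.rel (nat_lit 1140920592)) (.cons (.rel (nat_lit 1342247232)) (.cons (.rel (nat_lit 2415984648)) (.cons (.rel (nat_lit 1610743812)) (.cons (.rel (nat_lit 1141112928)) .nil)))))))))))) (.cons (.br (nat_lit 6) (.cons (.rel (nat_lit 17246994516)) (.cons (.rel (nat_lit 17247257088)) (.cons (.rel (nat_lit 17246994516)) (.cons (.rel (nat_lit 17247010833)) (.cons (.rel (nat_lit 17246986272)) (.cons (.rel (nat_lit 17246979204)) (.cons (.rel (nat_lit 17247043656)) (.cons (.rel (nat_lit 17448894720)) (.cons (.rel (nat_lit 17515675908)) .nil)))))))))) (.cons (.br (nat_lit 4) (.cons (.rel (nat_lit 1207959573)) (.cons (.rel (nat_lit 2214594561)) (.cons (.rel (nat_lit 1610743812)) (.cons (.rel (nat_lit 2415984648)) (.cons (.rel (nat_lit 1207963776)) (.cons (.rel (nat_lit 1140920592)) (.cons (.rel (nat_lit 1141112928)) (.cons (.rel (nat_lit 1342247232)) (.cons (.rel (nat_lit 2415984648)) (.cons (.rel (nat_lit 1610743812)) (.cons (.rel (nat_lit 1207959573)) .nil)))))))))))) (.cons (.br (nat_lit 0) (.cons (.rel (nat_lit 71303298)) (.cons (.rel (nat_lit 71309376)) (.cons (.rel (nat_lit 71319624)) (.cons (.rel (nat_lit 72876033)) (.cons (.rel (nat_lit 142606401)) (.cons (.rel (nat_lit 272638020)) (.cons (.rel (nat_lit 71335941)) (.cons (.rel (nat_lit 71309376)) .nil))))))))) .nil)))))))) (.cons (.br (nat_lit 2) (.cons (.rel (nat_lit 402658308)) (.cons (.rel (nat_lit 335544594)) (.cons (.rel (nat_lit 402658308)) (.cons (.rel (nat_lit 402653280)) (.cons (.rel (nat_lit 335545608)) (.cons (.br (nat_lit 5) (.cons (.rel (nat_lit 4362078594)) (.cons (.rel (nat_lit 4563403032)) (.cons (.rel (nat_lit 4362081600)) (.cons (.rel (nat_lit 8858371152)) (.cons (.rel (nat_lit 8858435604)) (.cons (.rel (nat_lit 4563403032)) (.cons (.rel (nat_lit 4563403032)) (.cons (.rel (nat_lit 4362600960)) (.cons (.rel (nat_lit 4362081600)) .nil)))))))))) (.cons (.rel (nat_lit 402658308)) .nil)))))))) (.cons (.br (nat_lit 2) (.cons (.rel (nat_lit 402671616)) (.cons (.rel (nat_lit 336594960)) (.cons (.rel (nat_lit 402671616)) (.cons (.br (nat_lit 5) (.cons (.rel (nat_lit 4362081600)) (.cons (.rel (nat_lit 4563501312)) (.cons (.rel (nat_lit 4362600960)) (.cons (.br (nat_lit 0) (.cons (.rel (nat_lit 4303358208)) (.cons (.rel (nat_lit 8594130432)) (.cons (.rel (nat_lit 142606401)) (.cons (.rel (nat_lit 9131003904)) (.cons (.rel (nat_lit 272666640)) (.cons (.rel (nat_lit 545259537)) (.cons (.rel (nat_lit 142606401)) (.cons (.rel (nat_lit 142606401)) .nil))))))))) (.cons (.rel (nat_lit 8858386464)) (.cons (.rel (nat_lit 4563501312)) (.cons (.rel (nat_lit 4563501312)) (.cons (.rel (nat_lit 8724414720)) (.cons (.rel (nat_lit 8724414720)) .nil)))))))))) (.cons (.rel (nat_lit 335581440)) (.cons (.rel (nat_lit 402653280)) (.cons (.rel (nat_lit 402671616)) .nil)))))))) .nil)))) .leaf) (nat_lit 13840346281358587) (.br (nat_lit 2) (.cons (.br (nat_lit 3) (.cons (.rel (nat_lit 335544594)) .nil)) .nil)) (.node .leaf (nat_lit 13840346281466166) (.br (nat_lit 3) (.cons (.br (nat_lit 6) (.cons (.br (nat_lit 2) (.cons (.rel (nat_lit 17515675908)) (.cons (.rel (nat_lit 34493960208)) (.cons (.rel (nat_lit 17246986272)) (.cons (.rel (nat_lit 17315136768)) .nil))))) (.cons (.rel (nat_lit 17448439812)) (.cons (.rel (nat_lit 17448439812)) (.cons (.br (nat_lit 2) (.cons (.rel (nat_lit 17246979204)) (.cons (.rel (nat_lit 17246986272)) (.cons (.rel (nat_lit 17247257088)) (.cons (.rel (nat_lit 34493960208)) .nil))))) (.cons (.br (nat_lit 2) (.cons (.rel (nat_lit 17246995521)) (.cons (.rel (nat_lit 17315136768)) (.cons (.rel (nat_lit 17784897540)) (.cons (.rel (nat_lit 17246986272)) .nil))))) .nil)))))) (.cons (.br (nat_lit 4) (.cons (.rel (nat_lit 1342247232)) (.cons (.rel (nat_lit 1342178577)) (.cons (.rel (nat_lit 1342247232)) (.cons (.rel (nat_lit 2415920196)) (.cons (.rel (nat_lit 2415920196)) (.cons (.br (nat_lit 2) (.cons (.rel (nat_lit 402658308)) (.cons (.rel (nat_lit 1140920592)) (.cons (.rel (nat_lit 2216689920)) (.cons (.rel (nat_lit 402653280)) .nil))))) .nil))))))) (.cons (.br (nat_lit 2) (.cons (.rel (nat_lit 402671616)) (.cons (.rel (nat_lit 402653280)) (.cons (.br (nat_lit 6) (.cons (.rel (nat_lit 17246986272)) (.cons (.rel (nat_lit 17448306705)) (.cons (.rel (nat_lit 17582788608)) (.cons (.rel (nat_lit 17247257088)) (.cons (.rel (nat_lit 34427109504)) .nil)))))) (.cons (.br (nat_lit 6) (.cons (.rel (nat_lit 17315136768)) (.cons (.rel (nat_lit 17448306705)) (.cons (.rel (nat_lit 17246986272)) (.cons (.rel (nat_lit 34493960208)) (.cons (.rel (nat_lit 17246986272)) .nil)))))) .nil))))) .nil)))) .leaf))) (nat_lit 13840346281466632) (.br (nat_lit 3) (.cons (.br (nat_lit 6) (.cons (.br (nat_lit 2) (.cons (.rel (nat_lit 34493960208)) (.cons (.rel (nat_lit 335544594)) (.cons (.rel (nat_lit 17246986272)) .nil)))) (.cons (.rel (nat_lit 17448304650)) (.cons (.rel (nat_lit 34628190465)) .nil)))) .nil)) (.node (.node (.node (.node .leaf (nat_lit 13840346281466666) (.br (nat_lit 0) (.cons (.br (nat_lit 2) (.cons (.rel (nat_lit 71303298)) (.cons (.rel (nat_lit 71828736)) (.cons (.rel (nat_lit 142606401)) .nil)))) (.cons (.br (nat_lit 2) (.cons (.rel (nat_lit 73662528)) (.cons (.rel (nat_lit 72618240)) (.cons (.rel (nat_lit 71828736)) .nil)))) (.cons (.br (nat_lit 2) (.cons (.rel (nat_lit 71309376)) (.cons (.rel (nat_lit 142606401)) (.cons (.rel (nat_lit 72618240)) .nil)))) .nil)))) .leaf) (nat_lit 13840346281467166) (.br (nat_lit 3) (.cons (.br (nat_lit 0) (.cons (.rel (nat_lit 272638020)) (.cons (.br (nat_lit 2) (.cons (.rel (nat_lit 71303298)) (.cons (.rel (nat_lit 71335941)) (.cons (.rel (nat_lit 72876033)) (.cons (.rel (nat_lit 75497760)) (.cons (.rel (nat_lit 71828736)) (.cons (.rel (nat_lit 71324688)) (.cons (.rel (nat_lit 142606401)) .nil)))))))) (.cons (.br (nat_lit 5) (.cons (.rel (nat_lit 4831842372)) (.cons (.rel (nat_lit 8598339585)) (.cons (.rel (nat_lit 8598323268)) (.cons (.rel (nat_lit 4571799552)) (.cons (.rel (nat_lit 4299686160)) (.cons (.rel (nat_lit 4299166800)) (.cons (.rel (nat_lit 9131003904)) (.cons (.rel (nat_lit 8598323268)) .nil))))))))) (.cons (.br (nat_lit 5) (.cons (.rel (nat_lit 4831842372)) (.cons (.rel (nat_lit 4299161736)) (.cons (.rel (nat_lit 9131003904)) (.cons (.rel (nat_lit 4299231252)) (.cons (.rel (nat_lit 4299166800)) (.cons (.rel (nat_lit 4299182112)) (.cons (.rel (nat_lit 8598339585)) (.cons (.rel (nat_lit 8598323268)) .nil))))))))) (.cons (.br (nat_lit 2) (.cons (.rel (nat_lit 71309376)) (.cons (.rel (nat_lit 71303298)) (.cons (.rel (nat_lit 71309376)) (.cons (.rel (nat_lit 71303298)) (.cons (.rel (nat_lit 142606401)) (.cons (.rel (nat_lit 71309376)) (.cons (.rel (nat_lit 138412560)) .nil)))))))) (.cons (.br (nat_lit 2) (.cons (.rel (nat_lit 71319624)) (.cons (.rel (nat_lit 71303298)) (.cons (.rel (nat_lit 142606401)) (.cons (.rel (nat_lit 71828736)) (.cons (.rel (nat_lit 71303298)) (.cons (.rel (nat_lit 71309376)) (.cons (.rel (nat_lit 71335941)) .nil)))))))) .nil))))))) (.cons (.br (nat_lit 0) (.cons (.rel (nat_lit 272630808)) (.cons (.br (nat_lit 2) (.cons (.rel (nat_lit 402658308)) (.cons (.rel (nat_lit 402653280)) (.cons (.rel (nat_lit 72876033)) (.cons (.rel (nat_lit 341050368)) (.cons (.rel (nat_lit 71828736)) (.cons (.rel (nat_lit 335822916)) (.cons (.rel (nat_lit 402653280)) .nil)))))))) (.cons (.rel (nat_lit 545259537)) (.cons (.br (nat_lit 2) (.cons (.rel (nat_lit 402658308)) (.cons (.rel (nat_lit 402653280)) (.cons (.rel (nat_lit 71309376)) (.cons (.rel (nat_lit 71828736)) (.cons (.rel (nat_lit 339739200)) (.cons (.rel (nat_lit 335822916)) (.cons (.rel (nat_lit 402653280)) .nil)))))))) (.cons (.br (nat_lit 2) (.cons (.rel (nat_lit 402658308)) (.cons (.rel (nat_lit 402653280)) (.cons (.rel (nat_lit 71309376)) (.cons (.rel (nat_lit 71303298)) (.cons (.rel (nat_lit 142606401)) (.cons (.rel (nat_lit 335822916)) (.cons (.rel (nat_lit 402653280)) .nil)))))))) (.cons (.rel (nat_lit 272630808)) .nil))))))) (.cons (.br (nat_lit 0) (.cons (.rel (nat_lit 272666640)) (.cons (.br (nat_lit 2) (.cons (.rel (nat_lit 402671616)) (.cons (.rel (nat_lit 71335941)) (.cons (.rel (nat_lit 72876033)) (.cons (.rel (nat_lit 339739200)) (.cons (.rel (nat_lit 402653280)) (.cons (.rel (nat_lit 335839233)) (.cons (.rel (nat_lit 142606401)) .nil)))))))) (.cons (.rel (nat_lit 276824400)) (.cons (.br (nat_lit 2) (.cons (.rel (nat_lit 402671616)) (.cons (.rel (nat_lit 608174337)) (.cons (.rel (nat_lit 71309376)) (.cons (.rel (nat_lit 71828736)) (.cons (.rel (nat_lit 402653280)) (.cons (.rel (nat_lit 335839233)) (.cons (.rel (nat_lit 71828736)) .nil)))))))) (.cons (.br (nat_lit 2) (.cons (.rel (nat_lit 402671616)) (.cons (.rel (nat_lit 71303298)) (.cons (.rel (nat_lit 71309376)) (.cons (.rel (nat_lit 71303298)) (.cons (.rel (nat_lit 402653280)) (.cons (.rel (nat_lit 335839233)) (.cons (.rel (nat_lit 341050368)) .nil)))))))) (.cons (.rel (nat_lit 272666640)) .nil))))))) .nil)))) .leaf) (nat_lit 13840646955612417) (.br (nat_lit 0) (.cons (.br (nat_lit 1) (.cons (.rel (nat_lit 26214402)) .nil)) .nil)) (.node .leaf (nat_lit 13840646955721480) (.br (nat_lit 0) (.cons (.br (nat_lit 3) (.cons (.rel (nat_lit 272629794)) .nil)) .nil)) .leaf)) (nat_lit 13840646957411080) (.br (nat_lit 3) (.cons (.br (nat_lit 6) (.cons (.rel (nat_lit 34628436000)) (.cons (.rel (nat_lit 17717264400)) (.cons (.rel (nat_lit 17448305700)) .nil)))) .nil)) (.node (.node .leaf (nat_lit 13840646957513480) (.br (nat_lit 3) (.cons (.br (nat_lit 4) (.cons (.rel (nat_lit 1342505025)) (.cons (.rel (nat_lit 1342505025)) (.cons (.rel (nat_lit 1342505025)) .nil)))) .nil)) .leaf) (nat_lit 13840649237313793) (.br (nat_lit 0) (.cons (.br (nat_lit 5) (.cons (.rel (nat_lit 4299686160)) (.cons (.rel (nat_lit 4300538112)) .nil))) .nil)) (.node .leaf (nat_lit 13840649237314346) (.br (nat_lit 0) (.cons (.br (nat_lit 2) (.cons (.rel (nat_lit 71828736)) .nil)) .nil)) .leaf)))) (nat_lit 13840649237314793) (.br (nat_lit 0) (.cons (.br (nat_lit 2) (.cons (.rel (nat_lit 71303298)) (.cons (.rel (nat_lit 71309376)) .nil))) .nil)) (.node (.node (.node (.node (.node .leaf (nat_lit 13840649237422855) (.br (nat_lit 3) (.cons (.br (nat_lit 0) (.cons (.rel (nat_lit 272695440)) (.cons (.rel (nat_lit 272629794)) (.cons (.rel (nat_lit 272631813)) (.cons (.rel (nat_lit 272630808)) .nil))))) .nil)) .leaf) (nat_lit 13840649237423337) (.br (nat_lit 0) (.cons (.br (nat_lit 3) (.cons (.rel (nat_lit 545259537)) .nil)) .nil)) .leaf) (nat_lit 13840649239106293) (.br (nat_lit 0) (.cons (.br (nat_lit 5) (.cons (.rel (nat_lit 8598323268)) (.cons (.rel (nat_lit 4299161736)) (.cons (.rel (nat_lit 4299194370)) (.cons (.rel (nat_lit 8598339585)) (.cons (.rel (nat_lit 4303622208)) (.cons (.rel (nat_lit 8598339585)) .nil))))))) (.cons (.br (nat_lit 3) (.cons (.rel (nat_lit 272638020)) (.cons (.rel (nat_lit 276889857)) (.cons (.rel (nat_lit 272695440)) (.cons (.rel (nat_lit 545259537)) .nil))))) (.cons (.br (nat_lit 6) (.cons (.rel (nat_lit 34368131328)) (.cons (.rel (nat_lit 34368131328)) (.cons (.rel (nat_lit 34368131328)) (.cons (.rel (nat_lit 17184072192)) .nil))))) .nil)))) (.node .leaf (nat_lit 13840649239106312) (.br (nat_lit 3) (.cons (.br (nat_lit 6) (.cons (.rel (nat_lit 17448439812)) (.cons (.rel (nat_lit 17717264400)) (.cons (.rel (nat_lit 17717264400)) .nil)))) (.cons (.br (nat_lit 6) (.cons (.rel (nat_lit 17448894720)) (.cons (.br (nat_lit 2) (.cons (.rel (nat_lit 335839233)) (.cons (.rel (nat_lit 335581440)) (.cons (.rel (nat_lit 604000260)) (.cons (.rel (nat_lit 335814672)) (.cons (.rel (nat_lit 17247111168)) (.cons (.rel (nat_lit 17515675908)) .nil))))))) (.cons (.rel (nat_lit 17717264400)) .nil)))) (.cons (.br (nat_lit 6) (.cons (.rel (nat_lit 34628436000)) (.cons (.rel (nat_lit 17717264400)) (.cons (.br (nat_lit 4) (.cons (.rel (nat_lit 18254938368)) (.cons (.rel (nat_lit 1610743812)) (.cons (.rel (nat_lit 1342177572)) (.cons (.rel (nat_lit 19327354368)) (.cons (.rel (nat_lit 2415984648)) (.cons (.rel (nat_lit 1610743812)) (.cons (.rel (nat_lit 1342439568)) (.cons (.rel (nat_lit 36507222096)) (.cons (.rel (nat_lit 1342177572)) (.cons (.rel (nat_lit 1610743812)) .nil))))))))))) .nil)))) .nil)))) .leaf)) (nat_lit 13840649239106346) (.br (nat_lit 0) (.cons (.br (nat_lit 6) (.cons (.rel (nat_lit 17188257816)) .nil)) .nil)) (.node (.node .leaf (nat_lit 13840649239144700) (.br (nat_lit 3) (.cons (.br (nat_lit 5) (.cons (.rel (nat_lit 4564586496)) (.cons (.rel (nat_lit 4563403032)) (.cons (.rel (nat_lit 8858386464)) (.cons (.rel (nat_lit 4563665028)) (.cons (.rel (nat_lit 4564467840)) (.cons (.rel (nat_lit 4564467840)) .nil))))))) .nil)) .leaf) (nat_lit 13840649239144705) (.br (nat_lit 2) (.cons (.br (nat_lit 0) (.cons (.rel (nat_lit 71311380)) (.cons (.rel (nat_lit 75780096)) .nil))) .nil)) (.node .leaf (nat_lit 13840649239144734) (.br (nat_lit 3) (.cons (.br (nat_lit 6) (.cons (.rel (nat_lit 17717264400)) (.cons (.rel (nat_lit 17448337473)) .nil))) .nil)) .leaf))) (nat_lit 13840649239144758) (.br (nat_lit 0) (.cons (.br (nat_lit 3) (.cons (.rel (nat_lit 272666640)) (.cons (.rel (nat_lit 272695440)) .nil))) .nil)) (.node (.node (.node (.node .leaf (nat_lit 13840649239145205) (.br (nat_lit 6) (.cons (.br (nat_lit 2) (.cons (.rel (nat_lit 17246986272)) (.cons (.rel (nat_lit 17247111168)) (.cons (.rel (nat_lit 34494022656)) .nil)))) .nil)) .leaf) (nat_lit 13840649239145224) (.br (nat_lit 3) (.cons (.br (nat_lit 6) (.cons (.br (nat_lit 2) (.cons (.rel (nat_lit 335610240)) (.cons (.rel (nat_lit 17246979204)) (.cons (.rel (nat_lit 17246986272)) (.cons (.rel (nat_lit 17246979204)) (.cons (.rel (nat_lit 17515675908)) (.cons (.rel (nat_lit 17246995521)) (.cons (.rel (nat_lit 34493960208)) (.cons (.rel (nat_lit 34494022656)) .nil))))))))) (.cons (.br (nat_lit 2) (.cons (.rel (nat_lit 335610240)) (.cons (.rel (nat_lit 17246979204)) (.cons (.rel (nat_lit 34426848513)) (.cons (.rel (nat_lit 17246995521)) (.cons (.rel (nat_lit 34494022656)) (.cons (.rel (nat_lit 17247043656)) (.cons (.br (nat_lit 0) (.cons (.rel (nat_lit 272695440)) (.cons (.rel (nat_lit 17188257816)) (.cons (.rel (nat_lit 17452761108)) (.cons (.rel (nat_lit 17188332552)) (.cons (.rel (nat_lit 277086216)) (.cons (.rel (nat_lit 34363932708)) (.cons (.rel (nat_lit 75497760)) (.cons (.rel (nat_lit 34363932708)) (.cons (.rel (nat_lit 541589508)) .nil)))))))))) (.cons (.rel (nat_lit 34493960208)) .nil))))))))) (.cons (.br (nat_lit 2) (.cons (.rel (nat_lit 335610240)) (.cons (.rel (nat_lit 17246979204)) (.cons (.rel (nat_lit 17247010833)) (.cons (.rel (nat_lit 17246986272)) (.cons (.rel (nat_lit 17316184065)) (.cons (.rel (nat_lit 17246986272)) (.cons (.rel (nat_lit 17246986272)) (.cons (.rel (nat_lit 17246986272)) .nil))))))))) (.cons (.br (nat_lit 5) (.cons (.rel (nat_lit 8858435604)) (.cons (.rel (nat_lit 21474836628)) (.cons (.rel (nat_lit 21474836628)) (.cons (.rel (nat_lit 21474846720)) (.cons (.rel (nat_lit 4563403032)) (.cons (.rel (nat_lit 4563403032)) (.cons (.rel (nat_lit 42949678080)) (.cons (.rel (nat_lit 8858435604)) (.cons (.rel (nat_lit 21474836628)) (.cons (.rel (nat_lit 4831870992)) (.cons (.rel (nat_lit 8858386464)) (.cons (.rel (nat_lit 8858435604)) (.cons (.rel (nat_lit 21474836628)) (.cons (.rel (nat_lit 21474902085)) .nil))))))))))))))) (.cons (.br (nat_lit 2) (.cons (.rel (nat_lit 335610240)) (.cons (.rel (nat_lit 17246995521)) (.cons (.rel (nat_lit 34493960208)) (.cons (.rel (nat_lit 17316184065)) (.cons (.rel (nat_lit 34493960208)) (.cons (.rel (nat_lit 34427109504)) (.cons (.rel (nat_lit 17247111168)) (.cons (.rel (nat_lit 34495267080)) .nil))))))))) (.cons (.rel (nat_lit 17717264400)) (.cons (.br (nat_lit 2) (.cons (.rel (nat_lit 335610240)) (.cons (.rel (nat_lit 17246986272)) (.cons (.rel (nat_lit 17246986272)) (.cons (.rel (nat_lit 17246986272)) (.cons (.rel (nat_lit 34493960208)) (.cons (.rel (nat_lit 17247010833)) (.cons (.rel (nat_lit 17246986272)) (.cons (.rel (nat_lit 17247010833)) .nil))))))))) (.cons (.rel (nat_lit 34628436000)) .nil))))))))) (.cons (.br (nat_lit 0) (.cons (.rel (nat_lit 272638020)) (.cons (.rel (nat_lit 272629794)) (.cons (.rel (nat_lit 272666640)) (.cons (.rel (nat_lit 272630808)) (.cons (.rel (nat_lit 272651328)) (.cons (.rel (nat_lit 272666640)) (.cons (.rel (nat_lit 541589508)) (.cons (.rel (nat_lit 272651328)) (.cons (.rel (nat_lit 541589508)) .nil)))))))))) (.cons (.br (nat_lit 6) (.cons (.rel (nat_lit 17448375360)) (.cons (.rel (nat_lit 17448439812)) (.cons (.rel (nat_lit 17448305700)) (.cons (.rel (nat_lit 17448439812)) (.cons (.rel (nat_lit 17717264400)) (.cons (.rel (nat_lit 17717264400)) (.cons (.rel (nat_lit 34896609285)) (.cons (.rel (nat_lit 34896741441)) .nil))))))))) .nil)))) .leaf) (nat_lit 13840649239145258) (.br (nat_lit 0) (.cons (.br (nat_lit 3) (.cons (.rel (nat_lit 273170688)) (.cons (.rel (nat_lit 542392320)) (.cons (.rel (nat_lit 272666640)) (.cons (.rel (nat_lit 276889857)) .nil))))) (.cons (.br (nat_lit 6) (.cons (.rel (nat_lit 17184391428)) (.cons (.rel (nat_lit 34364080128)) .nil))) .nil))) (.node .leaf (nat_lit 13840649239214836) (.br (nat_lit 1) (.cons (.br (nat_lit 2) (.cons (.rel (nat_lit 83951940)) (.cons (.rel (nat_lit 84213792)) .nil))) .nil)) .leaf)) (nat_lit 13840649239214837) (.br (nat_lit 6) (.cons (.br (nat_lit 0) (.cons (.rel (nat_lit 34363932708)) (.cons (.rel (nat_lit 17184391428)) (.cons (.rel (nat_lit 34368131328)) .nil)))) (.cons (.br (nat_lit 0) (.cons (.rel (nat_lit 17184342288)) (.cons (.rel (nat_lit 17184072192)) (.cons (.rel (nat_lit 17184072192)) .nil)))) .nil))) (.node (.node .leaf (nat_lit 13840649239214856) (.br (nat_lit 3) (.cons (.br (nat_lit 0) (.cons (.rel (nat_lit 272666640)) (.cons (.rel (nat_lit 541589508)) (.cons (.rel (nat_lit 272638020)) (.cons (.rel (nat_lit 541589508)) .nil))))) (.cons (.br (nat_lit 0) (.cons (.rel (nat_lit 277086216)) (.cons (.rel (nat_lit 541589508)) (.cons (.rel (nat_lit 276889857)) (.cons (.br (nat_lit 1) (.cons (.rel (nat_lit 21299712)) (.cons (.rel (nat_lit 285212934)) (.cons (.rel (nat_lit 39845889)) (.cons (.rel (nat_lit 41947140)) .nil))))) .nil))))) (.cons (.br (nat_lit 0) (.cons (.rel (nat_lit 273170688)) (.cons (.br (nat_lit 1) (.cons (.rel (nat_lit 285605889)) (.cons (.rel (nat_lit 286263300)) (.cons (.rel (nat_lit 285540432)) (.cons (.rel (nat_lit 41960448)) .nil))))) (.cons (.rel (nat_lit 272695440)) (.cons (.rel (nat_lit 541589508)) .nil))))) .nil)))) .leaf) (nat_lit 13840649239214890) (.br (nat_lit 6) (.cons (.br (nat_lit 0) (.cons (.rel (nat_lit 17184342288)) (.cons (.rel (nat_lit 17184342288)) (.cons (.rel (nat_lit 17184342288)) .nil)))) (.cons (.br (nat_lit 2) (.cons (.rel (nat_lit 34427109504)) (.cons (.rel (nat_lit 17247043656)) (.cons (.rel (nat_lit 34426848513)) (.cons (.rel (nat_lit 17247043656)) (.cons (.rel (nat_lit 34494022656)) .nil)))))) .nil))) (.node .leaf (nat_lit 13840649240129848) (.br (nat_lit 0) (.cons (.br (nat_lit 3) (.cons (.rel (nat_lit 274727172)) .nil)) .nil)) .leaf))))) (nat_lit 13840649240130793) (.br (nat_lit 3) (.cons (.br (nat_lit 0) (.cons (.rel (nat_lit 545259537)) (.cons (.rel (nat_lit 545259537)) (.cons (.rel (nat_lit 272666640)) .nil)))) (.cons (.br (nat_lit 6) (.cons (.rel (nat_lit 17448439812)) (.cons (.rel (nat_lit 17448375360)) .nil))) .nil))) (.node (.node (.node (.node (.node (.node .leaf (nat_lit 13840649240168705) (.br (nat_lit 6) (.cons (.br (nat_lit 1) (.cons (.rel (nat_lit 17197171968)) (.cons (.rel (nat_lit 17196646530)) .nil))) .nil)) .leaf) (nat_lit 13840649240169224) (.br (nat_lit 3) (.cons (.br (nat_lit 0) (.cons (.rel (nat_lit 272629794)) (.cons (.rel (nat_lit 277086216)) (.cons (.br (nat_lit 2) (.cons (.rel (nat_lit 335610240)) (.cons (.rel (nat_lit 71309376)) (.cons (.rel (nat_lit 76547076)) (.cons (.rel (nat_lit 71311380)) (.cons (.rel (nat_lit 335839233)) .nil)))))) (.cons (.br (nat_lit 2) (.cons (.rel (nat_lit 335610240)) (.cons (.rel (nat_lit 142606401)) (.cons (.rel (nat_lit 71309376)) (.cons (.rel (nat_lit 71311380)) (.cons (.rel (nat_lit 335839233)) .nil)))))) .nil))))) (.cons (.br (nat_lit 0) (.cons (.rel (nat_lit 272695440)) (.cons (.rel (nat_lit 272651328)) (.cons (.rel (nat_lit 272629794)) (.cons (.rel (nat_lit 272630808)) .nil))))) (.cons (.br (nat_lit 0) (.cons (.rel (nat_lit 272630808)) (.cons (.rel (nat_lit 545293377)) (.cons (.rel (nat_lit 545259537)) (.cons (.rel (nat_lit 272651328)) .nil))))) .nil)))) .leaf) (nat_lit 13840649240238856) (.br (nat_lit 0) (.cons (.br (nat_lit 4) (.cons (.rel (nat_lit 2155877376)) .nil)) .nil)) (.node .leaf (nat_lit 13840649240239337) (.br (nat_lit 0) (.cons (.br (nat_lit 1) (.cons (.rel (nat_lit 41947140)) .nil)) .nil)) .leaf)) (nat_lit 13840650073811196) (.br (nat_lit 3) (.cons (.br (nat_lit 6) (.cons (.rel (nat_lit 34896609285)) .nil)) .nil)) (.node (.node .leaf (nat_lit 13840835934173960) (.br (nat_lit 0) (.cons (.br (nat_lit 2) (.cons (.rel (nat_lit 71303298)) .nil)) .nil)) .leaf) (nat_lit 13840835935971579) (.br (nat_lit 5) (.cons (.br (nat_lit 6) (.cons (.rel (nat_lit 21475099200)) .nil)) .nil)) (.node .leaf (nat_lit 13840835935972088) (.br (nat_lit 2) (.cons (.br (nat_lit 3) (.cons (.rel (nat_lit 335877120)) .nil)) .nil)) .leaf))) (nat_lit 13840835935972104) (.br (nat_lit 3) (.cons (.br (nat_lit 6) (.cons (.rel (nat_lit 17448312912)) (.cons (.rel (nat_lit 17717264400)) (.cons (.rel (nat_lit 34896609285)) .nil)))) .nil)) (.node (.node (.node (.node .leaf (nat_lit 13840835936989435) (.br (nat_lit 0) (.cons (.br (nat_lit 2) (.cons (.rel (nat_lit 71303298)) .nil)) .nil)) .leaf) (nat_lit 13840835937099038) (.br (nat_lit 0) (.cons (.br (nat_lit 3) (.cons (.rel (nat_lit 274727172)) .nil)) .nil)) .leaf) (nat_lit 13840838136183041) (.br (nat_lit 6) (.cons (.br (nat_lit 0) (.cons (.rel (nat_lit 17184391428)) (.cons (.rel (nat_lit 34363933713)) (.cons (.rel (nat_lit 34368131328)) .nil)))) (.cons (.br (nat_lit 0) (.cons (.rel (nat_lit 34363932708)) (.cons (.rel (nat_lit 34368127317)) (.cons (.rel (nat_lit 17188257816)) .nil)))) .nil))) (.node .leaf (nat_lit 13840838136184041) (.br (nat_lit 0) (.cons (.br (nat_lit 2) (.cons (.rel (nat_lit 75780096)) (.cons (.rel (nat_lit 71309376)) .nil))) (.cons (.br (nat_lit 2) (.cons (.rel (nat_lit 71324688)) (.cons (.rel (nat_lit 71303298)) .nil))) .nil))) .leaf)) (nat_lit 13840838137975541) (.br (nat_lit 6) (.cons (.br (nat_lit 0) (.cons (.rel (nat_lit 17184342288)) (.cons (.rel (nat_lit 17184342288)) (.cons (.rel (nat_lit 17184587778)) .nil)))) (.cons (.br (nat_lit 3) (.cons (.rel (nat_lit 34628436000)) (.cons (.rel (nat_lit 17448439812)) (.cons (.rel (nat_lit 17718116352)) (.cons (.rel (nat_lit 17448321156)) .nil))))) .nil))) (.node (.node .leaf (nat_lit 13840838137975560) (.br (nat_lit 3) (.cons (.br (nat_lit 0) (.cons (.rel (nat_lit 277086216)) (.cons (.rel (nat_lit 272666640)) (.cons (.rel (nat_lit 541589508)) (.cons (.br (nat_lit 1) (.cons (.rel (nat_lit 21038145)) (.cons (.rel (nat_lit 285348096)) (.cons (.rel (nat_lit 41960448)) (.cons (.rel (nat_lit 20988000)) (.cons (.rel (nat_lit 285483012)) (.cons (.rel (nat_lit 20988000)) .nil))))))) .nil))))) (.cons (.br (nat_lit 0) (.cons (.rel (nat_lit 272631813)) (.cons (.rel (nat_lit 273170688)) (.cons (.rel (nat_lit 541589508)) (.cons (.rel (nat_lit 541589508)) .nil))))) (.cons (.br (nat_lit 2) (.cons (.rel (nat_lit 335839233)) (.cons (.rel (nat_lit 335822916)) (.cons (.br (nat_lit 0) (.cons (.rel (nat_lit 71303298)) (.cons (.br (nat_lit 1) (.cons (.rel (nat_lit 41947140)) (.cons (.rel (nat_lit 301989960)) (.cons (.rel (nat_lit 86507520)) (.cons (.rel (nat_lit 86507520)) (.cons (.rel (nat_lit 553648260)) (.cons (.rel (nat_lit 86507520)) .nil))))))) (.cons (.rel (nat_lit 75497760)) (.cons (.rel (nat_lit 541589508)) .nil))))) (.cons (.br (nat_lit 1) (.cons (.rel (nat_lit 86507520)) (.cons (.rel (nat_lit 301989960)) (.cons (.rel (nat_lit 83951940)) (.cons (.rel (nat_lit 86507520)) (.cons (.rel (nat_lit 553648260)) (.cons (.rel (nat_lit 86507520)) .nil))))))) .nil))))) .nil)))) .leaf) (nat_lit 13840838137975594) (.br (nat_lit 0) (.cons (.br (nat_lit 6) (.cons (.rel (nat_lit 17188257816)) .nil)) .nil)) (.node .leaf (nat_lit 13840838137981179) (.br (nat_lit 3) (.cons (.br (nat_lit 0) (.cons (.rel (nat_lit 545259537)) (.cons (.rel (nat_lit 277889028)) .nil))) .nil)) .leaf)))) (nat_lit 13840838137981738) (.br (nat_lit 0) (.cons (.br (nat_lit 3) (.cons (.rel (nat_lit 272760897)) .nil)) .nil)) (.node (.node (.node (.node (.node .leaf (nat_lit 13840838138014452) (.br (nat_lit 3) (.cons (.br (nat_lit 6) (.cons (.rel (nat_lit 34896609285)) .nil)) .nil)) .leaf) (nat_lit 13840838138014453) (.br (nat_lit 0) (.cons (.br (nat_lit 3) (.cons (.rel (nat_lit 273170688)) (.cons (.rel (nat_lit 272666640)) (.cons (.rel (nat_lit 277086216)) .nil)))) .nil)) .leaf) (nat_lit 13840838138014472) (.br (nat_lit 3) (.cons (.br (nat_lit 0) (.cons (.br (nat_lit 1) (.cons (.rel (nat_lit 285229440)) (.cons (.rel (nat_lit 21102597)) (.cons (.rel (nat_lit 21299712)) (.cons (.rel (nat_lit 20972688)) (.cons (.rel (nat_lit 41960448)) (.cons (.rel (nat_lit 21006336)) (.cons (.rel (nat_lit 20972688)) (.cons (.rel (nat_lit 20979720)) (.cons (.rel (nat_lit 41947140)) (.cons (.rel (nat_lit 301989960)) (.cons (.rel (nat_lit 21102597)) .nil)))))))))))) (.cons (.br (nat_lit 2) (.cons (.rel (nat_lit 71319624)) (.cons (.rel (nat_lit 71324688)) (.cons (.rel (nat_lit 335822916)) (.cons (.rel (nat_lit 142606401)) (.cons (.rel (nat_lit 71311380)) (.cons (.br (nat_lit 4) (.cons (.rel (nat_lit 1409843472)) (.cons (.rel (nat_lit 1077936276)) (.cons (.rel (nat_lit 1077937281)) (.cons (.rel (nat_lit 1610743812)) (.cons (.rel (nat_lit 1342177572)) (.cons (.rel (nat_lit 2155877376)) (.cons (.rel (nat_lit 1077936276)) (.cons (.rel (nat_lit 1342177572)) (.cons (.rel (nat_lit 1077936276)) (.cons (.rel (nat_lit 1077952593)) (.cons (.rel (nat_lit 1610743812)) (.cons (.rel (nat_lit 1078001733)) (.cons (.rel (nat_lit 1083179040)) .nil)))))))))))))) (.cons (.rel (nat_lit 142606401)) (.cons (.rel (nat_lit 71304360)) (.cons (.rel (nat_lit 142606401)) (.cons (.rel (nat_lit 335822916)) .nil))))))))))) (.cons (.br (nat_lit 6) (.cons (.rel (nat_lit 17452761108)) (.cons (.rel (nat_lit 17452761108)) (.cons (.rel (nat_lit 17452761108)) (.cons (.rel (nat_lit 17448894720)) (.cons (.rel (nat_lit 17184342288)) (.cons (.rel (nat_lit 17717264400)) (.cons (.rel (nat_lit 17717264400)) (.cons (.rel (nat_lit 17452761108)) (.cons (.rel (nat_lit 34896609285)) (.cons (.rel (nat_lit 17184342288)) (.cons (.rel (nat_lit 34363932708)) (.cons (.rel (nat_lit 34628436000)) .nil))))))))))))) (.cons (.br (nat_lit 1) (.cons (.rel (nat_lit 285229440)) (.cons (.rel (nat_lit 21006336)) (.cons (.rel (nat_lit 25166100)) (.cons (.rel (nat_lit 41947140)) (.cons (.rel (nat_lit 20979720)) (.cons (.rel (nat_lit 20979720)) (.cons (.rel (nat_lit 20988000)) (.cons (.rel (nat_lit 20972688)) (.cons (.rel (nat_lit 41947140)) (.cons (.rel (nat_lit 301989960)) (.cons (.rel (nat_lit 20979720)) .nil)))))))))))) (.cons (.rel (nat_lit 277086216)) (.cons (.rel (nat_lit 273170688)) (.cons (.br (nat_lit 2) (.cons (.rel (nat_lit 675348480)) (.cons (.rel (nat_lit 71309376)) (.cons (.rel (nat_lit 335822916)) (.cons (.rel (nat_lit 71303298)) (.cons (.rel (nat_lit 75780096)) (.cons (.rel (nat_lit 71373828)) (.cons (.rel (nat_lit 71311380)) (.cons (.rel (nat_lit 71828736)) (.cons (.rel (nat_lit 71311380)) (.cons (.rel (nat_lit 335822916)) .nil))))))))))) (.cons (.br (nat_lit 6) (.cons (.rel (nat_lit 17184342288)) (.cons (.rel (nat_lit 17184342288)) (.cons (.rel (nat_lit 17452761108)) (.cons (.rel (nat_lit 17448894720)) (.cons (.rel (nat_lit 34368131328)) (.cons (.rel (nat_lit 17717264400)) (.cons (.rel (nat_lit 17717264400)) (.cons (.rel (nat_lit 34368131328)) (.cons (.rel (nat_lit 34896609285)) (.cons (.rel (nat_lit 34369243140)) (.cons (.rel (nat_lit 34364080128)) (.cons (.rel (nat_lit 34628436000)) .nil))))))))))))) (.cons (.rel (nat_lit 541589508)) (.cons (.br (nat_lit 2) (.cons (.rel (nat_lit 75497760)) (.cons (.rel (nat_lit 142606401)) (.cons (.rel (nat_lit 335822916)) (.cons (.rel (nat_lit 76547076)) (.cons (.rel (nat_lit 675348480)) (.cons (.rel (nat_lit 675348480)) (.cons (.rel (nat_lit 608567304)) (.cons (.br (nat_lit 1) (.cons (.rel (nat_lit 285229440)) (.cons (.rel (nat_lit 21299712)) (.cons (.rel (nat_lit 83951940)) (.cons (.rel (nat_lit 21102597)) (.cons (.rel (nat_lit 41960448)) (.cons (.rel (nat_lit 41960448)) (.cons (.rel (nat_lit 86507520)) (.cons (.rel (nat_lit 41947140)) (.cons (.rel (nat_lit 86507520)) (.cons (.rel (nat_lit 301989960)) (.cons (.rel (nat_lit 21102597)) .nil)))))))))))) (.cons (.rel (nat_lit 138412560)) (.cons (.rel (nat_lit 335822916)) .nil))))))))))) (.cons (.rel (nat_lit 541589508)) .nil)))))))))))) (.cons (.br (nat_lit 0) (.cons (.rel (nat_lit 272631813)) (.cons (.rel (nat_lit 272629794)) (.cons (.rel (nat_lit 273170688)) (.cons (.rel (nat_lit 276889857)) (.cons (.rel (nat_lit 272651328)) (.cons (.rel (nat_lit 272630808)) (.cons (.rel (nat_lit 272760897)) (.cons (.rel (nat_lit 272638020)) (.cons (.br (nat_lit 1) (.cons (.rel (nat_lit 285212934)) (.cons (.rel (nat_lit 301989960)) (.cons (.rel (nat_lit 285348096)) (.cons (.rel (nat_lit 302057472)) (.cons (.rel (nat_lit 285212934)) (.cons (.rel (nat_lit 41947140)) (.cons (.rel (nat_lit 20988000)) (.cons (.rel (nat_lit 285212934)) (.cons (.rel (nat_lit 21006336)) (.cons (.rel (nat_lit 21006336)) (.cons (.rel (nat_lit 20988000)) .nil)))))))))))) (.cons (.rel (nat_lit 272760897)) (.cons (.rel (nat_lit 541589508)) .nil)))))))))))) (.cons (.br (nat_lit 0) (.cons (.rel (nat_lit 277086216)) (.cons (.rel (nat_lit 545259537)) (.cons (.rel (nat_lit 272666640)) (.cons (.rel (nat_lit 272630808)) (.cons (.rel (nat_lit 545293377)) (.cons (.rel (nat_lit 272651328)) (.cons (.rel (nat_lit 545259537)) (.cons (.rel (nat_lit 541589508)) (.cons (.rel (nat_lit 541589508)) (.cons (.rel (nat_lit 541589508)) (.cons (.br (nat_lit 2) (.cons (.rel (nat_lit 335581440)) (.cons (.rel (nat_lit 335581440)) (.cons (.rel (nat_lit 335581440)) (.cons (.rel (nat_lit 335581440)) (.cons (.rel (nat_lit 402653280)) (.cons (.rel (nat_lit 335581440)) (.cons (.rel (nat_lit 336594960)) (.cons (.rel (nat_lit 75497760)) (.cons (.rel (nat_lit 675348480)) (.cons (.rel (nat_lit 402671616)) .nil))))))))))) .nil)))))))))))) .nil)))) (.node .leaf (nat_lit 13840838138014506) (.br (nat_lit 0) (.cons (.br (nat_lit 5) (.cons (.rel (nat_lit 4299161736)) (.cons (.rel (nat_lit 4299194370)) (.cons (.rel (nat_lit 4299161736)) (.cons (.rel (nat_lit 4299231252)) (.cons (.rel (nat_lit 4299194370)) (.cons (.rel (nat_lit 8598339585)) (.cons (.rel (nat_lit 4299194370)) (.cons (.rel (nat_lit 4299686160)) (.cons (.rel (nat_lit 4299194370)) .nil)))))))))) (.cons (.br (nat_lit 6) (.cons (.rel (nat_lit 17188257816)) (.cons (.rel (nat_lit 17184342288)) .nil))) .nil))) .leaf)) (nat_lit 13840838138014953) (.br (nat_lit 0) (.cons (.br (nat_lit 2) (.cons (.rel (nat_lit 71335941)) (.cons (.rel (nat_lit 71319624)) .nil))) .nil)) (.node (.node .leaf (nat_lit 13840838138083580) (.br (nat_lit 3) (.cons (.br (nat_lit 0) (.cons (.rel (nat_lit 272760897)) (.cons (.rel (nat_lit 545259537)) (.cons (.rel (nat_lit 545259537)) .nil)))) .nil)) .leaf) (nat_lit 13840838138083585) (.br (nat_lit 2) (.cons (.br (nat_lit 6) (.cons (.rel (nat_lit 17246979204)) .nil)) .nil)) (.node .leaf (nat_lit 13840838138083614) (.br (nat_lit 3) (.cons (.br (nat_lit 4) (.cons (.rel (nat_lit 2415935508)) .nil)) .nil)) .leaf))) (nat_lit 13840838138084085) (.br (nat_lit 0) (.cons (.br (nat_lit 6) (.cons (.rel (nat_lit 17188257816)) .nil)) .nil)) (.node (.node (.node (.node .leaf (nat_lit 13840838138084104) (.br (nat_lit 3) (.cons (.br (nat_lit 6) (.cons (.rel (nat_lit 34628436000)) (.cons (.rel (nat_lit 17448439812)) (.cons (.rel (nat_lit 17717264400)) (.cons (.br (nat_lit 2) (.cons (.rel (nat_lit 17247111168)) (.cons (.rel (nat_lit 17247111168)) (.cons (.rel (nat_lit 17247257088)) (.cons (.rel (nat_lit 335814672)) (.cons (.rel (nat_lit 336666624)) (.cons (.rel (nat_lit 17247111168)) (.cons (.rel (nat_lit 335814672)) .nil)))))))) (.cons (.rel (nat_lit 17717264400)) (.cons (.rel (nat_lit 17717264400)) .nil))))))) (.cons (.br (nat_lit 5) (.cons (.rel (nat_lit 4563681345)) (.cons (.rel (nat_lit 4563403032)) (.cons (.rel (nat_lit 4563681345)) (.cons (.rel (nat_lit 4563403032)) (.cons (.rel (nat_lit 4563403032)) (.cons (.br (nat_lit 4) (.cons (.rel (nat_lit 1342177572)) (.cons (.rel (nat_lit 5905580544)) (.cons (.rel (nat_lit 2415984648)) (.cons (.rel (nat_lit 1610743812)) (.cons (.rel (nat_lit 5368975380)) (.cons (.rel (nat_lit 5905580544)) (.cons (.rel (nat_lit 5905580544)) .nil)))))))) (.cons (.br (nat_lit 6) (.cons (.rel (nat_lit 21474846720)) (.cons (.br (nat_lit 2) (.cons (.rel (nat_lit 335839233)) (.cons (.rel (nat_lit 335544594)) (.cons (.rel (nat_lit 335544594)) (.cons (.rel (nat_lit 4429185033)) (.cons (.rel (nat_lit 604045377)) (.cons (.rel (nat_lit 8657043462)) (.cons (.rel (nat_lit 17247111168)) .nil)))))))) (.cons (.rel (nat_lit 17448321156)) (.cons (.rel (nat_lit 17717264400)) (.cons (.rel (nat_lit 38655754248)) (.cons (.rel (nat_lit 17448337473)) .nil))))))) (.cons (.rel (nat_lit 4831870992)) (.cons (.rel (nat_lit 8858386464)) .nil)))))))))) (.cons (.br (nat_lit 6) (.cons (.rel (nat_lit 17448306705)) (.cons (.rel (nat_lit 17448894720)) (.cons (.rel (nat_lit 17448312912)) (.cons (.rel (nat_lit 17717264400)) (.cons (.rel (nat_lit 17717264400)) (.cons (.br (nat_lit 2) (.cons (.rel (nat_lit 335581440)) (.cons (.rel (nat_lit 336594960)) (.cons (.rel (nat_lit 336594960)) (.cons (.rel (nat_lit 335822916)) (.cons (.rel (nat_lit 335610240)) (.cons (.rel (nat_lit 17247010833)) (.cons (.rel (nat_lit 335822916)) .nil)))))))) .nil))))))) .nil)))) .leaf) (nat_lit 13840838138084138) (.br (nat_lit 0) (.cons (.br (nat_lit 3) (.cons (.rel (nat_lit 277086216)) (.cons (.rel (nat_lit 542392320)) (.cons (.rel (nat_lit 272666640)) (.cons (.rel (nat_lit 272629794)) .nil))))) .nil)) .leaf) (nat_lit 13840838138802952) (.br (nat_lit 1) (.cons (.br (nat_lit 2) (.cons (.rel (nat_lit 84213792)) .nil)) .nil)) (.node .leaf (nat_lit 13840838138803712) (.br (nat_lit 1) (.cons (.br (nat_lit 3) (.cons (.rel (nat_lit 285348096)) .nil)) .nil)) .leaf)) (nat_lit 13840838138999560) (.br (nat_lit 6) (.cons (.br (nat_lit 0) (.cons (.rel (nat_lit 17184587778)) (.cons (.rel (nat_lit 17184587778)) (.cons (.rel (nat_lit 17184072192)) .nil)))) .nil)) (.node (.node .leaf (nat_lit 13840838139000041) (.br (nat_lit 6) (.cons (.br (nat_lit 3) (.cons (.rel (nat_lit 17448321156)) (.cons (.rel (nat_lit 17448305700)) .nil))) .nil)) .leaf) (nat_lit 13840838139038472) (.br (nat_lit 0) (.cons (.br (nat_lit 3) (.cons (.rel (nat_lit 277086216)) (.cons (.rel (nat_lit 272651328)) (.cons (.rel (nat_lit 545293377)) .nil)))) (.cons (.br (nat_lit 4) (.cons (.rel (nat_lit 2155877376)) (.cons (.rel (nat_lit 1077937281)) (.cons (.rel (nat_lit 1078005792)) (.cons (.rel (nat_lit 2155877376)) (.cons (.rel (nat_lit 1077937281)) .nil)))))) (.cons (.br (nat_lit 1) (.cons (.rel (nat_lit 20972688)) (.cons (.rel (nat_lit 20979720)) (.cons (.rel (nat_lit 21038145)) (.cons (.rel (nat_lit 41943129)) (.cons (.rel (nat_lit 20988000)) (.cons (.rel (nat_lit 20972688)) (.cons (.rel (nat_lit 20979720)) .nil)))))))) .nil)))) (.node .leaf (nat_lit 13840838139108638) (.br (nat_lit 6) (.cons (.br (nat_lit 0) (.cons (.rel (nat_lit 17184326976)) (.cons (.rel (nat_lit 34368389121)) .nil))) .nil)) .leaf))))))))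

/-- refutations 1 -/
def e1 : EX := (.node (.node (.node (.node (.node (.node (.node .leaf (nat_lit 14163302302898986) (.br (nat_lit 3) (.cons (.br (nat_lit 0) (.cons (.rel (nat_lit 276824400)) (.cons (.rel (nat_lit 277086216)) .nil))) .nil)) .leaf) (nat_lit 14163302302899458) (.br (nat_lit 0) (.cons (.br (nat_lit 5) (.cons (.rel (nat_lit 4299194370)) (.cons (.rel (nat_lit 4299161736)) (.cons (.rel (nat_lit 4299182112)) .nil)))) .nil)) (.node .leaf (nat_lit 14163302303929130) (.br (nat_lit 3) (.cons (.br (nat_lit 6) (.cons (.rel (nat_lit 34628436000)) .nil)) .nil)) .leaf)) (nat_lit 14167517849205512) (.br (nat_lit 1) (.cons (.br (nat_lit 3) (.cons (.rel (nat_lit 302006277)) .nil)) .nil)) (.node (.node .leaf (nat_lit 14167517849314056) (.br (nat_lit 0) (.cons (.br (nat_lit 3) (.cons (.rel (nat_lit 273170688)) .nil)) .nil)) .leaf) (nat_lit 14167517851036424) (.br (nat_lit 0) (.cons (.br (nat_lit 3) (.cons (.rel (nat_lit 276889857)) .nil)) .nil)) .leaf)) (nat_lit 14167517851048746) (.br (nat_lit 0) (.cons (.br (nat_lit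 4) (.cons (.rel (nat_lit 2155877376)) (.cons (.rel (nat_lit 1079510016)) .nil))) .nil)) (.node (.node (.node .leaf (nat_lit 14167517852060424) (.br (nat_lit 3) (.cons (.br (nat_lit 1) (.cons (.rel (nat_lit 302006277)) (.cons (.rel (nat_lit 285213984)) .nil))) .nil)) .leaf) (nat_lit 14167517852078890) (.br (nat_lit 2) (.cons (.br (nat_lit 3) (.cons (.rel (nat_lit 402653280)) .nil)) .nil)) (.node .leaf (nat_lit 14175089750718721) (.br (nat_lit 0) (.cons (.br (nat_lit 2) (.cons (.rel (nat_lit 71303298)) .nil)) .nil)) .leaf)) (nat_lit 14175089750718774) (.br (nat_lit 3) (.cons (.br (nat_lit 2) (.cons (.rel (nat_lit 604000260)) (.cons (.rel (nat_lit 335544594)) (.cons (.rel (nat_lit 335544594)) .nil)))) (.cons (.br (nat_lit 5) (.cons (.rel (nat_lit 4564451334)) (.cons (.rel (nat_lit 4563796992)) .nil))) .nil))) (.node (.node .leaf (nat_lit 14175089750719240) (.br (nat_lit 3) (.cons (.br (nat_lit 6) (.cons (.br (nat_lit 1) (.cons (.rel (nat_lit 17213424132)) (.cons (.rel (nat_lit 17213424132)) (.cons (.br (nat_lit 5) (.cons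 (.rel (nat_lit 42949678080)) (.cons (.rel (nat_lit 21474836628)) (.cons (.rel (nat_lit 38655754248)) (.cons (.rel (nat_lit 38671483968)) (.cons (.rel (nat_lit 21474856968)) .nil)))))) (.cons (.rel (nat_lit 34376515848)) .nil))))) (.cons (.br (nat_lit 5) (.cons (.rel (nat_lit 21474840642)) (.cons (.rel (nat_lit 21477064968)) (.cons (.rel (nat_lit 25771900932)) (.cons (.rel (nat_lit 21474836628)) (.cons (.rel (nat_lit 21474837633)) .nil)))))) (.cons (.rel (nat_lit 34896609285)) (.cons (.rel (nat_lit 34896609285)) (.cons (.br (nat_lit 1) (.cons (.rel (nat_lit 17196654612)) (.cons (.rel (nat_lit 34377565200)) (.cons (.rel (nat_lit 34393292865)) (.cons (.rel (nat_lit 17733517569)) .nil))))) (.cons (.rel (nat_lit 17448304650)) .nil))))))) .nil)) .leaf) (nat_lit 14175089750719274) (.br (nat_lit 0) (.cons (.br (nat_lit 2) (.cons (.rel (nat_lit 142606401)) (.cons (.rel (nat_lit 71828736)) .nil))) (.cons (.br (nat_lit 3) (.cons (.rel (nat_lit 545293377)) (.cons (.rel (nat_lit 272630808)) .nil))) .nil))) .leaf))) (nat_lit 14175089750719721)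 (.br (nat_lit 1) (.cons (.br (nat_lit 5) (.cons (.rel (nat_lit 8606712852)) .nil)) .nil)) (.node (.node (.node (.node .leaf (nat_lit 14175089752511221) (.br (nat_lit 6) (.cons (.br (nat_lit 3) (.cons (.rel (nat_lit 17448439812)) (.cons (.rel (nat_lit 17448312912)) (.cons (.rel (nat_lit 34628436000)) (.cons (.rel (nat_lit 17448894720)) .nil))))) (.cons (.br (nat_lit 0) (.cons (.rel (nat_lit 34363932708)) (.cons (.rel (nat_lit 34363932708)) (.cons (.rel (nat_lit 17184391428)) .nil)))) .nil))) .leaf) (nat_lit 14175089752511240) (.br (nat_lit 2) (.cons (.br (nat_lit 3) (.cons (.rel (nat_lit 335581440)) (.cons (.rel (nat_lit 336625728)) (.cons (.rel (nat_lit 335839233)) .nil)))) (.cons (.br (nat_lit 1) (.cons (.rel (nat_lit 86507520)) (.cons (.rel (nat_lit 86507520)) (.cons (.rel (nat_lit 86507520)) .nil)))) .nil))) (.node .leaf (nat_lit 14175089752511274) (.br (nat_lit 0) (.cons (.br (nat_lit 6) (.cons (.rel (nat_lit 17188257816)) (.cons (.rel (nat_lit 17188257816)) .nil))) .nil)) .leaf)) (nat_lit 14175089752550133) (.br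 (nat_lit 0) (.cons (.br (nat_lit 6) (.cons (.rel (nat_lit 17188257816)) .nil)) .nil)) (.node (.node .leaf (nat_lit 14175089752550152) (.br (nat_lit 3) (.cons (.br (nat_lit 6) (.cons (.br (nat_lit 0) (.cons (.rel (nat_lit 17452761108)) (.cons (.rel (nat_lit 17184072192)) (.cons (.rel (nat_lit 541589508)) (.cons (.rel (nat_lit 541589508)) (.cons (.rel (nat_lit 34368131328)) (.cons (.rel (nat_lit 541589508)) .nil))))))) (.cons (.br (nat_lit 2) (.cons (.rel (nat_lit 34494022656)) (.cons (.rel (nat_lit 34493960208)) (.cons (.rel (nat_lit 17316184065)) (.cons (.rel (nat_lit 17247111168)) (.cons (.rel (nat_lit 34494022656)) (.cons (.rel (nat_lit 17247111168)) .nil))))))) (.cons (.rel (nat_lit 17717264400)) (.cons (.rel (nat_lit 17717264400)) (.cons (.br (nat_lit 2) (.cons (.rel (nat_lit 34426848513)) (.cons (.rel (nat_lit 34494022656)) (.cons (.rel (nat_lit 17247111168)) (.cons (.rel (nat_lit 17247010833)) (.cons (.rel (nat_lit 17246998530)) (.cons (.rel (nat_lit 34494022656)) .nil))))))) .nil)))))) (.cons (.br (nat_lit 6)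 (.cons (.rel (nat_lit 17448439812)) (.cons (.rel (nat_lit 17717264400)) (.cons (.br (nat_lit 2) (.cons (.rel (nat_lit 17246998530)) (.cons (.rel (nat_lit 335581440)) (.cons (.rel (nat_lit 335544594)) (.cons (.rel (nat_lit 335814672)) (.cons (.rel (nat_lit 34493960208)) (.cons (.rel (nat_lit 34494022656)) .nil))))))) (.cons (.br (nat_lit 0) (.cons (.rel (nat_lit 272666640)) (.cons (.rel (nat_lit 274727172)) (.cons (.rel (nat_lit 17184326976)) (.cons (.rel (nat_lit 272638020)) (.cons (.rel (nat_lit 17184072192)) (.cons (.rel (nat_lit 541589508)) .nil))))))) (.cons (.rel (nat_lit 34628174148)) .nil)))))) (.cons (.br (nat_lit 6) (.cons (.rel (nat_lit 34628436000)) (.cons (.rel (nat_lit 17717264400)) (.cons (.rel (nat_lit 17717264400)) (.cons (.rel (nat_lit 17448337473)) (.cons (.rel (nat_lit 34896609285)) .nil)))))) .nil)))) .leaf) (nat_lit 14175089752550186) (.br (nat_lit 2) (.cons (.br (nat_lit 6) (.cons (.rel (nat_lit 17247111168)) (.cons (.rel (nat_lit 34494022656)) .nil))) (.cons (.br (nat_lit 1) (.cons (.rel (nat_lit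 85065744)) (.cons (.rel (nat_lit 83951940)) (.cons (.rel (nat_lit 83951940)) (.cons (.rel (nat_lit 86507520)) (.cons (.rel (nat_lit 86507520)) .nil)))))) .nil))) .leaf)) (nat_lit 14175089752562440) (.br (nat_lit 0) (.cons (.br (nat_lit 3) (.cons (.rel (nat_lit 545259537)) .nil)) .nil)) (.node (.node (.node .leaf (nat_lit 14175089752619268) (.br (nat_lit 3) (.cons (.br (nat_lit 0) (.cons (.rel (nat_lit 272695440)) (.cons (.rel (nat_lit 272654337)) .nil))) .nil)) .leaf) (nat_lit 14175089752619318) (.br (nat_lit 1) (.cons (.br (nat_lit 2) (.cons (.rel (nat_lit 83890497)) .nil)) .nil)) (.node .leaf (nat_lit 14175089752619765) (.br (nat_lit 0) (.cons (.br (nat_lit 6) (.cons (.rel (nat_lit 17188257816)) .nil)) .nil)) .leaf)) (nat_lit 14175089752619784) (.br (nat_lit 3) (.cons (.br (nat_lit 0) (.cons (.rel (nat_lit 277086216)) (.cons (.rel (nat_lit 545259537)) (.cons (.rel (nat_lit 272695440)) (.cons (.rel (nat_lit 273170688)) (.cons (.rel (nat_lit 277086216)) (.cons (.rel (nat_lit 541589508)) (.cons (.rel (nat_lit 541589508))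 (.cons (.rel (nat_lit 277086216)) (.cons (.rel (nat_lit 274727172)) (.cons (.br (nat_lit 2) (.cons (.rel (nat_lit 71312385)) (.cons (.rel (nat_lit 142606401)) (.cons (.rel (nat_lit 75780096)) (.cons (.rel (nat_lit 335822916)) (.cons (.rel (nat_lit 75497760)) (.cons (.rel (nat_lit 344064000)) .nil))))))) (.cons (.br (nat_lit 6) (.cons (.rel (nat_lit 17448894720)) (.cons (.rel (nat_lit 17448321156)) (.cons (.rel (nat_lit 17718116352)) (.cons (.rel (nat_lit 17717264400)) (.cons (.rel (nat_lit 34628436000)) (.cons (.rel (nat_lit 17450402064)) (.cons (.rel (nat_lit 17717264400)) (.cons (.rel (nat_lit 17717264400)) (.cons (.rel (nat_lit 34896609285)) (.cons (.rel (nat_lit 17184072192)) (.cons (.rel (nat_lit 34896609285)) (.cons (.rel (nat_lit 34628436000)) (.cons (.rel (nat_lit 17184072192)) .nil)))))))))))))) (.cons (.rel (nat_lit 541589508)) .nil))))))))))))) (.cons (.br (nat_lit 0) (.cons (.rel (nat_lit 272666640)) (.cons (.br (nat_lit 2) (.cons (.rel (nat_lit 75497760)) (.cons (.rel (nat_lit 335581440)) (.cons (.rel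 (nat_lit 335544594)) (.cons (.rel (nat_lit 138412560)) (.cons (.rel (nat_lit 71312385)) (.cons (.rel (nat_lit 71311380)) .nil))))))) (.cons (.rel (nat_lit 272654337)) (.cons (.br (nat_lit 6) (.cons (.rel (nat_lit 17452761108)) (.cons (.rel (nat_lit 17717264400)) (.cons (.rel (nat_lit 17448439812)) (.cons (.rel (nat_lit 34896609285)) (.cons (.rel (nat_lit 34896609285)) (.cons (.rel (nat_lit 17448304650)) (.cons (.rel (nat_lit 17448304650)) (.cons (.rel (nat_lit 17717264400)) (.cons (.rel (nat_lit 17448304650)) (.cons (.rel (nat_lit 17717264400)) (.cons (.rel (nat_lit 17186160768)) (.cons (.rel (nat_lit 17448304650)) (.cons (.rel (nat_lit 34369175616)) .nil)))))))))))))) (.cons (.rel (nat_lit 272666640)) (.cons (.rel (nat_lit 272629794)) (.cons (.rel (nat_lit 545259537)) (.cons (.rel (nat_lit 545259537)) (.cons (.rel (nat_lit 272629794)) (.cons (.rel (nat_lit 541589508)) (.cons (.rel (nat_lit 541589508)) (.cons (.br (nat_lit 1) (.cons (.rel (nat_lit 285348096)) (.cons (.rel (nat_lit 41947140)) (.cons (.rel (nat_lit 25167105))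 (.cons (.rel (nat_lit 289669392)) (.cons (.rel (nat_lit 43254048)) (.cons (.rel (nat_lit 21006336)) (.cons (.rel (nat_lit 285212934)) (.cons (.rel (nat_lit 25167105)) .nil))))))))) .nil))))))))))))) (.cons (.br (nat_lit 5) (.cons (.rel (nat_lit 4563403032)) (.cons (.rel (nat_lit 4563403032)) (.cons (.rel (nat_lit 4563404037)) (.cons (.rel (nat_lit 4563403032)) (.cons (.rel (nat_lit 4563403032)) (.cons (.rel (nat_lit 4831870992)) (.cons (.br (nat_lit 2) (.cons (.rel (nat_lit 402671616)) (.cons (.rel (nat_lit 336625728)) (.cons (.rel (nat_lit 336594960)) (.cons (.rel (nat_lit 335581440)) (.cons (.rel (nat_lit 8657043462)) (.cons (.rel (nat_lit 4362096912)) .nil))))))) (.cons (.rel (nat_lit 4831870992)) (.cons (.rel (nat_lit 8858436609)) (.cons (.rel (nat_lit 4563796992)) (.cons (.rel (nat_lit 4564452384)) .nil)))))))))))) (.cons (.br (nat_lit 6) (.cons (.rel (nat_lit 17448312912)) (.cons (.rel (nat_lit 17448321156)) (.cons (.rel (nat_lit 34896609285)) (.cons (.rel (nat_lit 17448304650)) (.cons (.rel (nat_lit 17448306705))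 (.cons (.rel (nat_lit 17448321156)) (.cons (.rel (nat_lit 17448305700)) (.cons (.rel (nat_lit 34896609285)) (.cons (.rel (nat_lit 17448305700)) (.cons (.rel (nat_lit 17448321156)) (.cons (.rel (nat_lit 17448305700)) (.cons (.rel (nat_lit 17448312912)) (.cons (.rel (nat_lit 34628190465)) .nil)))))))))))))) .nil))))) (.node (.node .leaf (nat_lit 14175089752619818) (.br (nat_lit 0) (.cons (.br (nat_lit 6) (.cons (.rel (nat_lit 17188257816)) .nil)) .nil)) .leaf) (nat_lit 14175089752620265) (.br (nat_lit 4) (.cons (.br (nat_lit 0) (.cons (.rel (nat_lit 1083179040)) (.cons (.rel (nat_lit 2153775120)) (.cons (.rel (nat_lit 2153775120)) (.cons (.rel (nat_lit 1077936276)) (.cons (.br (nat_lit 5) (.cons (.rel (nat_lit 8594130432)) (.cons (.rel (nat_lit 5370282240)) (.cons (.rel (nat_lit 4300538112)) .nil)))) .nil)))))) (.cons (.br (nat_lit 0) (.cons (.rel (nat_lit 1077952593)) (.cons (.rel (nat_lit 2155877376)) (.cons (.rel (nat_lit 1077952593)) (.cons (.rel (nat_lit 1082130693)) (.cons (.rel (nat_lit 1077940290)) .nil))))))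 (.cons (.br (nat_lit 6) (.cons (.rel (nat_lit 18254135556)) (.cons (.rel (nat_lit 18253619205)) (.cons (.rel (nat_lit 36507222096)) (.cons (.rel (nat_lit 18253631508)) (.cons (.rel (nat_lit 36507222096)) .nil)))))) .nil)))) .leaf)))) (nat_lit 14175089752620315) (.br (nat_lit 3) (.cons (.br (nat_lit 0) (.cons (.rel (nat_lit 272654337)) (.cons (.rel (nat_lit 272651328)) .nil))) .nil)) (.node (.node (.node (.node (.node .leaf (nat_lit 14175089753535240) (.br (nat_lit 2) (.cons (.br (nat_lit 1) (.cons (.rel (nat_lit 83951940)) (.cons (.rel (nat_lit 83890497)) .nil))) .nil)) .leaf) (nat_lit 14175089753574152) (.br (nat_lit 4) (.cons (.br (nat_lit 0) (.cons (.rel (nat_lit 1079510016)) (.cons (.rel (nat_lit 2153775120)) (.cons (.rel (nat_lit 2153775120)) .nil)))) (.cons (.br (nat_lit 1) (.cons (.rel (nat_lit 1090524480)) (.cons (.rel (nat_lit 1107296289)) (.cons (.rel (nat_lit 1090781268)) .nil)))) .nil))) (.node .leaf (nat_lit 14175089753574633) (.br (nat_lit 1) (.cons (.br (nat_lit 2) (.cons (.rel (nat_lit 86507520)) .nil))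 .nil)) .leaf)) (nat_lit 14175089753643265) (.br (nat_lit 0) (.cons (.br (nat_lit 1) (.cons (.rel (nat_lit 41947140)) .nil)) .nil)) (.node (.node .leaf (nat_lit 14175089753643784) (.br (nat_lit 0) (.cons (.br (nat_lit 1) (.cons (.rel (nat_lit 41947140)) (.cons (.rel (nat_lit 20979720)) .nil))) .nil)) .leaf) (nat_lit 14175089753643818) (.br (nat_lit 0) (.cons (.br (nat_lit 6) (.cons (.rel (nat_lit 34368131328)) .nil)) .nil)) .leaf)) (nat_lit 14175089753644265) (.br (nat_lit 0) (.cons (.br (nat_lit 1) (.cons (.rel (nat_lit 41947140)) .nil)) .nil)) (.node (.node (.node .leaf (nat_lit 14175089753644318) (.br (nat_lit 6) (.cons (.br (nat_lit 1) (.cons (.rel (nat_lit 17196654612)) (.cons (.rel (nat_lit 34376515848)) .nil))) .nil)) .leaf) (nat_lit 22079330532301576) (.br (nat_lit 1) (.cons (.br (nat_lit 3) (.cons (.rel (nat_lit 285212934)) .nil)) .nil)) (.node .leaf (nat_lit 22079330532320008) (.br (nat_lit 0) (.cons (.br (nat_lit 3) (.cons (.rel (nat_lit 545259537)) .nil)) .nil)) .leaf)) (nat_lit 22079330534009608) (.br (nat_lit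 1) (.cons (.br (nat_lit 3) (.cons (.rel (nat_lit 285483012)) .nil)) .nil)) (.node (.node .leaf (nat_lit 22079330535033092) (.br (nat_lit 3) (.cons (.br (nat_lit 6) (.cons (.rel (nat_lit 17448304650)) .nil)) .nil)) .leaf) (nat_lit 22079330535034089) (.br (nat_lit 1) (.cons (.br (nat_lit 2) (.cons (.rel (nat_lit 86507520)) .nil)) .nil)) .leaf))) (nat_lit 22079332815756565) (.br (nat_lit 0) (.cons (.br (nat_lit 3) (.cons (.rel (nat_lit 272631813)) .nil)) .nil)) (.node (.node (.node (.node .leaf (nat_lit 22079332816831240) (.br (nat_lit 3) (.cons (.br (nat_lit 6) (.cons (.rel (nat_lit 17717264400)) (.cons (.br (nat_lit 4) (.cons (.rel (nat_lit 36507287553)) (.cons (.rel (nat_lit 1342177572)) (.cons (.rel (nat_lit 36507222096)) (.cons (.rel (nat_lit 2415923205)) .nil))))) .nil))) .nil)) .leaf) (nat_lit 22079332816831274) (.br (nat_lit 3) (.cons (.br (nat_lit 6) (.cons (.rel (nat_lit 17448378369)) .nil)) .nil)) (.node .leaf (nat_lit 22084003458472746) (.br (nat_lit 3) (.cons (.br (nat_lit 6) (.cons (.rel (nat_lit 34898198529))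 .nil)) .nil)) .leaf)) (nat_lit 22084003458511624) (.br (nat_lit 0) (.cons (.br (nat_lit 4) (.cons (.rel (nat_lit 1083179040)) .nil)) .nil)) (.node (.node .leaf (nat_lit 22624628140685569) (.br (nat_lit 3) (.cons (.br (nat_lit 1) (.cons (.br (nat_lit 0) (.cons (.rel (nat_lit 26214402)) (.cons (.rel (nat_lit 38273088)) (.cons (.rel (nat_lit 21299712)) (.cons (.rel (nat_lit 39845889)) (.cons (.rel (nat_lit 273170688)) (.cons (.rel (nat_lit 41947140)) (.cons (.rel (nat_lit 306450432)) (.cons (.rel (nat_lit 26214402)) .nil))))))))) (.cons (.rel (nat_lit 285348096)) (.cons (.rel (nat_lit 302057472)) (.cons (.br (nat_lit 0) (.cons (.rel (nat_lit 20979720)) (.cons (.rel (nat_lit 293605440)) (.cons (.rel (nat_lit 41947140)) (.cons (.rel (nat_lit 25167105)) (.cons (.rel (nat_lit 273170688)) (.cons (.rel (nat_lit 20993028)) (.cons (.rel (nat_lit 21006336)) (.cons (.rel (nat_lit 39845889)) .nil))))))))) (.cons (.rel (nat_lit 285348096)) (.cons (.br (nat_lit 0) (.cons (.rel (nat_lit 39845889)) (.cons (.rel (nat_lit 38273088)) (.cons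 (.rel (nat_lit 25166100)) (.cons (.rel (nat_lit 20975697)) (.cons (.rel (nat_lit 273170688)) (.cons (.rel (nat_lit 41947140)) (.cons (.rel (nat_lit 20988000)) (.cons (.rel (nat_lit 20972688)) .nil))))))))) (.cons (.br (nat_lit 0) (.cons (.rel (nat_lit 20993028)) (.cons (.rel (nat_lit 21299712)) (.cons (.rel (nat_lit 21006336)) (.cons (.rel (nat_lit 41960448)) (.cons (.rel (nat_lit 273170688)) (.cons (.rel (nat_lit 20993028)) (.cons (.rel (nat_lit 20979720)) (.cons (.rel (nat_lit 41947140)) .nil))))))))) (.cons (.rel (nat_lit 302057472)) (.cons (.rel (nat_lit 285348096)) (.cons (.br (nat_lit 0) (.cons (.rel (nat_lit 41947140)) (.cons (.rel (nat_lit 39845889)) (.cons (.rel (nat_lit 21006336)) (.cons (.rel (nat_lit 293605440)) (.cons (.rel (nat_lit 273170688)) (.cons (.rel (nat_lit 21006336)) (.cons (.rel (nat_lit 20979720)) (.cons (.rel (nat_lit 25167105)) .nil))))))))) (.cons (.br (nat_lit 0) (.cons (.rel (nat_lit 25428096)) (.cons (.rel (nat_lit 39845889)) (.cons (.rel (nat_lit 306450432)) (.cons (.rel (nat_lit 26214402))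 (.cons (.rel (nat_lit 273170688)) (.cons (.rel (nat_lit 41947140)) (.cons (.rel (nat_lit 21299712)) (.cons (.rel (nat_lit 38273088)) .nil))))))))) (.cons (.rel (nat_lit 302057472)) .nil))))))))))))) (.cons (.br (nat_lit 0) (.cons (.br (nat_lit 1) (.cons (.rel (nat_lit 289669392)) (.cons (.rel (nat_lit 558891024)) (.cons (.rel (nat_lit 20979720)) (.cons (.rel (nat_lit 301989960)) (.cons (.rel (nat_lit 285540432)) (.cons (.rel (nat_lit 39845889)) (.cons (.rel (nat_lit 285540432)) (.cons (.rel (nat_lit 20979720)) (.cons (.rel (nat_lit 293683200)) (.cons (.rel (nat_lit 41947140)) (.cons (.rel (nat_lit 558891024)) (.cons (.rel (nat_lit 21299712)) .nil))))))))))))) (.cons (.br (nat_lit 1) (.cons (.rel (nat_lit 25428096)) (.cons (.rel (nat_lit 41960448)) (.cons (.rel (nat_lit 20972688)) (.cons (.rel (nat_lit 301989960)) (.cons (.rel (nat_lit 285540432)) (.cons (.rel (nat_lit 38273088)) (.cons (.rel (nat_lit 285540432)) (.cons (.rel (nat_lit 20975697)) (.cons (.rel (nat_lit 20979720)) (.cons (.rel (nat_lit 39845889)) (.cons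 (.rel (nat_lit 39845889)) (.cons (.rel (nat_lit 41947140)) .nil))))))))))))) (.cons (.br (nat_lit 1) (.cons (.rel (nat_lit 21299712)) (.cons (.rel (nat_lit 289669392)) (.cons (.rel (nat_lit 41947140)) (.cons (.rel (nat_lit 301989960)) (.cons (.rel (nat_lit 285540432)) (.cons (.rel (nat_lit 25166100)) (.cons (.rel (nat_lit 285540432)) (.cons (.rel (nat_lit 20993028)) (.cons (.rel (nat_lit 41960448)) (.cons (.rel (nat_lit 21006336)) (.cons (.rel (nat_lit 289669392)) (.cons (.rel (nat_lit 41960448)) .nil))))))))))))) (.cons (.br (nat_lit 5) (.cons (.rel (nat_lit 4299166800)) (.cons (.rel (nat_lit 4563403032)) (.cons (.rel (nat_lit 4299166800)) (.cons (.rel (nat_lit 8858386464)) (.cons (.rel (nat_lit 4563403032)) (.cons (.rel (nat_lit 4299229248)) (.cons (.rel (nat_lit 8598323268)) (.cons (.rel (nat_lit 4303622208)) (.cons (.rel (nat_lit 8858374161)) (.cons (.rel (nat_lit 4303358208)) (.cons (.rel (nat_lit 4563501312)) (.cons (.rel (nat_lit 4563501312)) .nil))))))))))))) (.cons (.rel (nat_lit 274727172)) (.cons (.rel (nat_lit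 277086216)) (.cons (.br (nat_lit 1) (.cons (.rel (nat_lit 558891024)) (.cons (.rel (nat_lit 21299712)) (.cons (.rel (nat_lit 20979720)) (.cons (.rel (nat_lit 301989960)) (.cons (.rel (nat_lit 285540432)) (.cons (.rel (nat_lit 20988000)) (.cons (.rel (nat_lit 285540432)) (.cons (.rel (nat_lit 21006336)) (.cons (.rel (nat_lit 41947140)) (.cons (.rel (nat_lit 20979720)) (.cons (.rel (nat_lit 21299712)) (.cons (.rel (nat_lit 41947140)) .nil))))))))))))) (.cons (.br (nat_lit 1) (.cons (.rel (nat_lit 26214402)) (.cons (.rel (nat_lit 21299712)) (.cons (.rel (nat_lit 20972688)) (.cons (.rel (nat_lit 301989960)) (.cons (.rel (nat_lit 285540432)) (.cons (.rel (nat_lit 20972688)) (.cons (.rel (nat_lit 285540432)) (.cons (.rel (nat_lit 20972688)) (.cons (.rel (nat_lit 21006336)) (.cons (.rel (nat_lit 25167105)) (.cons (.rel (nat_lit 25428096)) (.cons (.rel (nat_lit 20972688)) .nil))))))))))))) .nil))))))))) (.cons (.br (nat_lit 1) (.cons (.br (nat_lit 2) (.cons (.rel (nat_lit 335814672)) (.cons (.rel (nat_lit 335814672)) (.cons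 (.rel (nat_lit 86507520)) (.cons (.rel (nat_lit 84148290)) (.cons (.rel (nat_lit 84148290)) (.cons (.rel (nat_lit 335545608)) (.cons (.rel (nat_lit 402658308)) (.cons (.rel (nat_lit 402658308)) (.cons (.rel (nat_lit 402658308)) (.cons (.rel (nat_lit 335545608)) (.cons (.rel (nat_lit 402653280)) (.cons (.rel (nat_lit 84213792)) (.cons (.rel (nat_lit 336592905)) .nil)))))))))))))) (.cons (.rel (nat_lit 285213984)) (.cons (.rel (nat_lit 301995024)) (.cons (.br (nat_lit 2) (.cons (.rel (nat_lit 335814672)) (.cons (.rel (nat_lit 335814672)) (.cons (.rel (nat_lit 86507520)) (.cons (.rel (nat_lit 83890497)) (.cons (.rel (nat_lit 150994980)) (.cons (.rel (nat_lit 335545608)) (.cons (.rel (nat_lit 402658308)) (.cons (.rel (nat_lit 402658308)) (.cons (.rel (nat_lit 402658308)) (.cons (.rel (nat_lit 335545608)) (.cons (.rel (nat_lit 402653280)) (.cons (.rel (nat_lit 86507520)) (.cons (.rel (nat_lit 336592905)) .nil)))))))))))))) (.cons (.rel (nat_lit 285213984)) (.cons (.br (nat_lit 0) (.cons (.rel (nat_lit 39845889)) (.cons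 (.rel (nat_lit 38273088)) (.cons (.rel (nat_lit 25166100)) (.cons (.rel (nat_lit 20975697)) (.cons (.rel (nat_lit 41947140)) (.cons (.rel (nat_lit 277086216)) (.cons (.rel (nat_lit 20988000)) (.cons (.rel (nat_lit 20972688)) .nil))))))))) (.cons (.rel (nat_lit 286261281)) (.cons (.rel (nat_lit 301989960)) (.cons (.rel (nat_lit 285213984)) (.cons (.rel (nat_lit 301989960)) (.cons (.br (nat_lit 0) (.cons (.rel (nat_lit 289669392)) (.cons (.rel (nat_lit 39845889)) (.cons (.rel (nat_lit 558891024)) (.cons (.rel (nat_lit 26214402)) (.cons (.rel (nat_lit 20988000)) (.cons (.rel (nat_lit 277086216)) (.cons (.rel (nat_lit 21299712)) (.cons (.rel (nat_lit 38273088)) .nil))))))))) (.cons (.rel (nat_lit 301995024)) .nil))))))))))))) .nil)))) .leaf) (nat_lit 22624628140686069) (.br (nat_lit 3) (.cons (.br (nat_lit 1) (.cons (.br (nat_lit 6) (.cons (.rel (nat_lit 17198219265)) (.cons (.rel (nat_lit 34393292865)) (.cons (.rel (nat_lit 34393292865)) (.cons (.rel (nat_lit 17196646530)) (.cons (.rel (nat_lit 17199005760)) (.cons (.rel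 (nat_lit 34393292865)) (.cons (.rel (nat_lit 17198219265)) .nil)))))))) (.cons (.br (nat_lit 6) (.cons (.rel (nat_lit 34393292865)) (.cons (.rel (nat_lit 34393292865)) (.cons (.rel (nat_lit 17199005760)) (.cons (.rel (nat_lit 17196667920)) (.cons (.rel (nat_lit 17196655617)) (.cons (.rel (nat_lit 17198219265)) (.cons (.rel (nat_lit 17196652608)) .nil)))))))) (.cons (.rel (nat_lit 285348096)) (.cons (.rel (nat_lit 302057472)) (.cons (.br (nat_lit 6) (.cons (.rel (nat_lit 17196655617)) (.cons (.rel (nat_lit 34393292865)) (.cons (.rel (nat_lit 17196652608)) (.cons (.rel (nat_lit 17199005760)) (.cons (.rel (nat_lit 34393292865)) (.cons (.rel (nat_lit 34393292865)) (.cons (.rel (nat_lit 17198219265)) .nil)))))))) (.cons (.rel (nat_lit 285348096)) (.cons (.br (nat_lit 0) (.cons (.rel (nat_lit 41947140)) (.cons (.rel (nat_lit 37751298)) (.cons (.rel (nat_lit 41947140)) (.cons (.rel (nat_lit 20975697)) (.cons (.rel (nat_lit 20979720)) (.cons (.rel (nat_lit 20972688)) (.cons (.rel (nat_lit 21006336)) .nil)))))))) (.cons (.br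 (nat_lit 6) (.cons (.rel (nat_lit 17196652608)) (.cons (.rel (nat_lit 34393292865)) (.cons (.rel (nat_lit 34393292865)) (.cons (.rel (nat_lit 17198219265)) (.cons (.rel (nat_lit 17198219265)) (.cons (.rel (nat_lit 17196655617)) (.cons (.rel (nat_lit 34393292865)) .nil)))))))) (.cons (.rel (nat_lit 302057472)) .nil)))))))))) (.cons (.br (nat_lit 4) (.cons (.rel (nat_lit 1342324992)) (.cons (.br (nat_lit 6) (.cons (.rel (nat_lit 35433482496)) (.cons (.rel (nat_lit 18254938368)) (.cons (.rel (nat_lit 19864227840)) (.cons (.rel (nat_lit 17450402064)) (.cons (.rel (nat_lit 18254135556)) (.cons (.rel (nat_lit 19327354368)) (.cons (.rel (nat_lit 18523357188)) .nil)))))))) (.cons (.rel (nat_lit 1342177572)) (.cons (.br (nat_lit 0) (.cons (.rel (nat_lit 1077936276)) (.cons (.rel (nat_lit 1078005792)) (.cons (.rel (nat_lit 2155877376)) (.cons (.rel (nat_lit 1078068240)) (.cons (.rel (nat_lit 2155877376)) (.cons (.rel (nat_lit 1077946368)) (.cons (.rel (nat_lit 274727172)) .nil)))))))) (.cons (.br (nat_lit 6) (.cons (.rel (nat_lit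 18253616196)) (.cons (.rel (nat_lit 18253611168)) (.cons (.rel (nat_lit 36507222096)) (.cons (.rel (nat_lit 17450402064)) (.cons (.rel (nat_lit 18253611168)) (.cons (.rel (nat_lit 18253616196)) (.cons (.rel (nat_lit 36507222096)) .nil)))))))) (.cons (.rel (nat_lit 2415935508)) (.cons (.rel (nat_lit 1342177572)) (.cons (.br (nat_lit 0) (.cons (.rel (nat_lit 1077956616)) (.cons (.rel (nat_lit 1077940290)) (.cons (.rel (nat_lit 1077969924)) (.cons (.rel (nat_lit 1077937281)) (.cons (.rel (nat_lit 1077946368)) (.cons (.rel (nat_lit 1077937281)) (.cons (.rel (nat_lit 274727172)) .nil)))))))) .nil))))))))) (.cons (.br (nat_lit 1) (.cons (.br (nat_lit 6) (.cons (.rel (nat_lit 17198219265)) (.cons (.rel (nat_lit 34393292865)) (.cons (.rel (nat_lit 34393292865)) (.cons (.rel (nat_lit 17448894720)) (.cons (.rel (nat_lit 17199005760)) (.cons (.rel (nat_lit 34393292865)) (.cons (.rel (nat_lit 17198219265)) .nil)))))))) (.cons (.br (nat_lit 0) (.cons (.rel (nat_lit 20988000)) (.cons (.rel (nat_lit 20972688)) (.cons (.rel (nat_lit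 25167105)) (.cons (.rel (nat_lit 38273088)) (.cons (.rel (nat_lit 293605440)) (.cons (.rel (nat_lit 20975697)) (.cons (.rel (nat_lit 273170688)) .nil)))))))) (.cons (.rel (nat_lit 285213984)) (.cons (.rel (nat_lit 301995024)) (.cons (.br (nat_lit 0) (.cons (.rel (nat_lit 20979720)) (.cons (.rel (nat_lit 39845889)) (.cons (.rel (nat_lit 41947140)) (.cons (.rel (nat_lit 25167105)) (.cons (.rel (nat_lit 21006336)) (.cons (.rel (nat_lit 293605440)) (.cons (.rel (nat_lit 273170688)) .nil)))))))) (.cons (.rel (nat_lit 285213984)) (.cons (.rel (nat_lit 301989960)) (.cons (.rel (nat_lit 301989960)) (.cons (.rel (nat_lit 301995024)) .nil)))))))))) .nil)))) .leaf)) (nat_lit 22624628140686569) (.br (nat_lit 3) (.cons (.br (nat_lit 1) (.cons (.rel (nat_lit 302057472)) (.cons (.br (nat_lit 6) (.cons (.rel (nat_lit 17196655617)) (.cons (.rel (nat_lit 34393292865)) (.cons (.rel (nat_lit 17196652608)) (.cons (.rel (nat_lit 34393292865)) (.cons (.rel (nat_lit 34393292865)) (.cons (.rel (nat_lit 17198219265)) .nil))))))) (.cons (.br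 (nat_lit 6) (.cons (.rel (nat_lit 17196652608)) (.cons (.rel (nat_lit 34393292865)) (.cons (.rel (nat_lit 34393292865)) (.cons (.rel (nat_lit 17198219265)) (.cons (.rel (nat_lit 17196655617)) (.cons (.rel (nat_lit 34393292865)) .nil))))))) (.cons (.br (nat_lit 6) (.cons (.rel (nat_lit 34393292865)) (.cons (.rel (nat_lit 17199005760)) (.cons (.rel (nat_lit 17198219265)) (.cons (.rel (nat_lit 34393292865)) (.cons (.rel (nat_lit 34393292865)) (.cons (.rel (nat_lit 17198219265)) .nil))))))) (.cons (.rel (nat_lit 302057472)) .nil)))))) (.cons (.br (nat_lit 5) (.cons (.br (nat_lit 1) (.cons (.rel (nat_lit 4311765252)) (.cons (.rel (nat_lit 301989960)) (.cons (.rel (nat_lit 4311765252)) (.cons (.rel (nat_lit 4312809540)) (.cons (.rel (nat_lit 4311744912)) .nil)))))) (.cons (.rel (nat_lit 4563403032)) (.cons (.br (nat_lit 1) (.cons (.rel (nat_lit 4311744912)) (.cons (.rel (nat_lit 301989960)) (.cons (.rel (nat_lit 8606713857)) (.cons (.rel (nat_lit 4328521749)) (.cons (.rel (nat_lit 4312074240)) .nil)))))) (.cons (.rel (nat_lit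 8858386464)) (.cons (.rel (nat_lit 4563403032)) (.cons (.br (nat_lit 1) (.cons (.rel (nat_lit 4311765252)) (.cons (.rel (nat_lit 301989960)) (.cons (.rel (nat_lit 8608809216)) (.cons (.rel (nat_lit 4328521749)) (.cons (.rel (nat_lit 4311765252)) .nil)))))) (.cons (.rel (nat_lit 4563501312)) .nil)))))))) (.cons (.br (nat_lit 1) (.cons (.rel (nat_lit 301995024)) (.cons (.br (nat_lit 6) (.cons (.rel (nat_lit 17196655617)) (.cons (.rel (nat_lit 34393292865)) (.cons (.rel (nat_lit 17196652608)) (.cons (.rel (nat_lit 34393292865)) (.cons (.rel (nat_lit 34393292865)) (.cons (.rel (nat_lit 17198219265)) .nil))))))) (.cons (.rel (nat_lit 301989960)) (.cons (.br (nat_lit 6) (.cons (.rel (nat_lit 34393292865)) (.cons (.rel (nat_lit 17199005760)) (.cons (.rel (nat_lit 17198219265)) (.cons (.rel (nat_lit 34393292865)) (.cons (.rel (nat_lit 34393292865)) (.cons (.rel (nat_lit 17198219265)) .nil))))))) (.cons (.rel (nat_lit 301995024)) .nil)))))) .nil)))) (.node (.node (.node .leaf (nat_lit 22624628140794166) (.br (nat_lit 3) (.cons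 (.br (nat_lit 1) (.cons (.br (nat_lit 6) (.cons (.rel (nat_lit 34376847360)) (.cons (.rel (nat_lit 17196655617)) (.cons (.rel (nat_lit 17196646530)) (.cons (.rel (nat_lit 17196646530)) (.cons (.rel (nat_lit 17196652608)) (.cons (.rel (nat_lit 34393292865)) .nil))))))) (.cons (.br (nat_lit 0) (.cons (.rel (nat_lit 25166100)) (.cons (.rel (nat_lit 20975697)) (.cons (.rel (nat_lit 25167105)) (.cons (.rel (nat_lit 20975697)) (.cons (.rel (nat_lit 20979720)) (.cons (.rel (nat_lit 20988000)) (.cons (.rel (nat_lit 273170688)) .nil)))))))) (.cons (.rel (nat_lit 302057472)) (.cons (.rel (nat_lit 285348096)) (.cons (.br (nat_lit 0) (.cons (.rel (nat_lit 41947140)) (.cons (.rel (nat_lit 41947140)) (.cons (.rel (nat_lit 21006336)) (.cons (.rel (nat_lit 20979720)) (.cons (.rel (nat_lit 25166100)) (.cons (.rel (nat_lit 20979720)) (.cons (.rel (nat_lit 273170688)) .nil)))))))) (.cons (.rel (nat_lit 302057472)) (.cons (.br (nat_lit 6) (.cons (.rel (nat_lit 17196646530)) (.cons (.rel (nat_lit 17196667920)) (.cons (.rel (nat_lit 17196654612))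 (.cons (.rel (nat_lit 34376847360)) (.cons (.rel (nat_lit 34393292865)) (.cons (.rel (nat_lit 17196654612)) .nil))))))) (.cons (.br (nat_lit 6) (.cons (.rel (nat_lit 34395391296)) (.cons (.rel (nat_lit 17196712032)) (.cons (.rel (nat_lit 34376847360)) (.cons (.rel (nat_lit 34376847360)) (.cons (.rel (nat_lit 34376515848)) (.cons (.rel (nat_lit 17196712032)) .nil))))))) .nil))))))))) (.cons (.br (nat_lit 6) (.cons (.rel (nat_lit 34628174148)) (.cons (.br (nat_lit 0) (.cons (.rel (nat_lit 34368128322)) (.cons (.rel (nat_lit 545259537)) (.cons (.rel (nat_lit 17184072192)) (.cons (.rel (nat_lit 277086216)) (.cons (.rel (nat_lit 277086216)) (.cons (.rel (nat_lit 17184072192)) (.cons (.rel (nat_lit 545259537)) .nil)))))))) (.cons (.rel (nat_lit 34628436000)) (.cons (.rel (nat_lit 34628436000)) (.cons (.br (nat_lit 0) (.cons (.rel (nat_lit 17184072192)) (.cons (.rel (nat_lit 545259537)) (.cons (.rel (nat_lit 17184072192)) (.cons (.rel (nat_lit 277086216)) (.cons (.rel (nat_lit 277086216)) (.cons (.rel (nat_lit 34368128322))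 (.cons (.rel (nat_lit 545259537)) .nil)))))))) (.cons (.br (nat_lit 0) (.cons (.rel (nat_lit 17184072192)) (.cons (.rel (nat_lit 545259537)) (.cons (.rel (nat_lit 34368128322)) (.cons (.rel (nat_lit 277086216)) (.cons (.rel (nat_lit 277086216)) (.cons (.rel (nat_lit 17184072192)) (.cons (.rel (nat_lit 545259537)) .nil)))))))) .nil))))))) (.cons (.br (nat_lit 6) (.cons (.rel (nat_lit 34896609285)) (.cons (.br (nat_lit 0) (.cons (.rel (nat_lit 34368128322)) (.cons (.rel (nat_lit 276824400)) (.cons (.rel (nat_lit 17184072192)) (.cons (.rel (nat_lit 277086216)) (.cons (.rel (nat_lit 277086216)) (.cons (.rel (nat_lit 17184072192)) (.cons (.rel (nat_lit 276824400)) .nil)))))))) (.cons (.rel (nat_lit 34628436000)) (.cons (.rel (nat_lit 34628436000)) (.cons (.br (nat_lit 0) (.cons (.rel (nat_lit 17184072192)) (.cons (.rel (nat_lit 276824400)) (.cons (.rel (nat_lit 17184072192)) (.cons (.rel (nat_lit 277086216)) (.cons (.rel (nat_lit 277086216)) (.cons (.rel (nat_lit 34368128322)) (.cons (.rel (nat_lit 276824400)) .nil))))))))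 (.cons (.br (nat_lit 0) (.cons (.rel (nat_lit 17184072192)) (.cons (.rel (nat_lit 276824400)) (.cons (.rel (nat_lit 34368128322)) (.cons (.rel (nat_lit 277086216)) (.cons (.rel (nat_lit 277086216)) (.cons (.rel (nat_lit 17184072192)) (.cons (.rel (nat_lit 276824400)) .nil)))))))) .nil))))))) .nil)))) .leaf) (nat_lit 22624628140794666) (.br (nat_lit 0) (.cons (.br (nat_lit 6) (.cons (.rel (nat_lit 34368128322)) (.cons (.rel (nat_lit 17184072192)) (.cons (.rel (nat_lit 17184072192)) .nil)))) (.cons (.br (nat_lit 6) (.cons (.rel (nat_lit 17184072192)) (.cons (.rel (nat_lit 17184072192)) (.cons (.rel (nat_lit 34368128322)) .nil)))) (.cons (.br (nat_lit 6) (.cons (.rel (nat_lit 17184072192)) (.cons (.rel (nat_lit 34368128322)) (.cons (.rel (nat_lit 17184072192)) .nil)))) .nil)))) (.node .leaf (nat_lit 22624628140795166) (.br (nat_lit 3) (.cons (.br (nat_lit 6) (.cons (.br (nat_lit 0) (.cons (.rel (nat_lit 34368128322)) (.cons (.rel (nat_lit 17184072192)) (.cons (.rel (nat_lit 17184072192)) (.cons (.rel (nat_lit 17184587778))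 .nil))))) (.cons (.br (nat_lit 0) (.cons (.rel (nat_lit 17184072192)) (.cons (.rel (nat_lit 17184072192)) (.cons (.rel (nat_lit 34368128322)) (.cons (.rel (nat_lit 17184072192)) .nil))))) (.cons (.br (nat_lit 0) (.cons (.rel (nat_lit 17184072192)) (.cons (.rel (nat_lit 34368128322)) (.cons (.rel (nat_lit 17184072192)) (.cons (.rel (nat_lit 17186160768)) .nil))))) .nil)))) (.cons (.br (nat_lit 4) (.cons (.rel (nat_lit 1342177572)) (.cons (.rel (nat_lit 2415923205)) (.cons (.br (nat_lit 6) (.cons (.rel (nat_lit 35433482496)) (.cons (.rel (nat_lit 18253611168)) (.cons (.rel (nat_lit 18254938368)) .nil)))) (.cons (.br (nat_lit 6) (.cons (.rel (nat_lit 18253629504)) (.cons (.rel (nat_lit 18253619205)) (.cons (.rel (nat_lit 18253616196)) .nil)))) (.cons (.rel (nat_lit 1342324992)) (.cons (.rel (nat_lit 2415923205)) (.cons (.rel (nat_lit 1342177572)) .nil)))))))) (.cons (.br (nat_lit 4) (.cons (.rel (nat_lit 1342177572)) (.cons (.rel (nat_lit 2415920196)) (.cons (.rel (nat_lit 1342178577)) (.cons (.br (nat_lit 6) (.cons (.rel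 (nat_lit 18253629504)) (.cons (.rel (nat_lit 18253619205)) (.cons (.rel (nat_lit 18253616196)) .nil)))) (.cons (.rel (nat_lit 1342177572)) (.cons (.rel (nat_lit 1342459908)) (.cons (.rel (nat_lit 2415920196)) .nil)))))))) .nil)))) .leaf)) (nat_lit 22624628142477569) (.br (nat_lit 3) (.cons (.br (nat_lit 1) (.cons (.br (nat_lit 2) (.cons (.rel (nat_lit 86507520)) (.cons (.rel (nat_lit 335581440)) (.cons (.rel (nat_lit 402671616)) (.cons (.rel (nat_lit 402671616)) (.cons (.rel (nat_lit 86507520)) (.cons (.rel (nat_lit 84164616)) .nil))))))) (.cons (.rel (nat_lit 285348096)) (.cons (.rel (nat_lit 302057472)) (.cons (.br (nat_lit 0) (.cons (.rel (nat_lit 20979720)) (.cons (.rel (nat_lit 293605440)) (.cons (.rel (nat_lit 41947140)) (.cons (.rel (nat_lit 25167105)) (.cons (.rel (nat_lit 21006336)) (.cons (.rel (nat_lit 38273088)) .nil))))))) (.cons (.br (nat_lit 0) (.cons (.rel (nat_lit 41947140)) (.cons (.rel (nat_lit 38273088)) (.cons (.rel (nat_lit 21006336)) (.cons (.rel (nat_lit 293605440)) (.cons (.rel (nat_lit 20979720))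 (.cons (.rel (nat_lit 25167105)) .nil))))))) (.cons (.rel (nat_lit 302057472)) .nil))))))) (.cons (.br (nat_lit 4) (.cons (.rel (nat_lit 1342324992)) (.cons (.br (nat_lit 2) (.cons (.rel (nat_lit 402653280)) (.cons (.rel (nat_lit 1141131264)) (.cons (.rel (nat_lit 1140920592)) (.cons (.rel (nat_lit 1140920592)) (.cons (.rel (nat_lit 2216689920)) (.cons (.rel (nat_lit 1207959573)) .nil))))))) (.cons (.rel (nat_lit 1342177572)) (.cons (.br (nat_lit 1) (.cons (.rel (nat_lit 1090781268)) (.cons (.rel (nat_lit 2181039681)) (.cons (.rel (nat_lit 1090527489)) (.cons (.rel (nat_lit 301989960)) (.cons (.rel (nat_lit 1090524480)) (.cons (.rel (nat_lit 1090782273)) .nil))))))) (.cons (.rel (nat_lit 2415935508)) (.cons (.rel (nat_lit 1342177572)) (.cons (.br (nat_lit 0) (.cons (.rel (nat_lit 1077956616)) (.cons (.rel (nat_lit 1077940290)) (.cons (.rel (nat_lit 1077969924)) (.cons (.rel (nat_lit 1077937281)) (.cons (.rel (nat_lit 1077946368)) (.cons (.rel (nat_lit 1077937281)) .nil))))))) .nil)))))))) (.cons (.br (nat_lit 1) (.cons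 (.br (nat_lit 2) (.cons (.rel (nat_lit 86507520)) (.cons (.rel (nat_lit 335545608)) (.cons (.rel (nat_lit 402658308)) (.cons (.rel (nat_lit 402658308)) (.cons (.rel (nat_lit 402653280)) (.cons (.rel (nat_lit 84164616)) .nil))))))) (.cons (.rel (nat_lit 285213984)) (.cons (.rel (nat_lit 301995024)) (.cons (.br (nat_lit 2) (.cons (.rel (nat_lit 86507520)) (.cons (.rel (nat_lit 335545608)) (.cons (.rel (nat_lit 402658308)) (.cons (.rel (nat_lit 402658308)) (.cons (.rel (nat_lit 402653280)) (.cons (.rel (nat_lit 100683840)) .nil))))))) (.cons (.rel (nat_lit 301989960)) (.cons (.rel (nat_lit 301995024)) .nil))))))) .nil)))) (.node (.node .leaf (nat_lit 22624628142478069) (.br (nat_lit 3) (.cons (.br (nat_lit 1) (.cons (.br (nat_lit 0) (.cons (.rel (nat_lit 21299712)) (.cons (.rel (nat_lit 26214402)) (.cons (.rel (nat_lit 26214402)) (.cons (.rel (nat_lit 38273088)) (.cons (.rel (nat_lit 41960448)) (.cons (.rel (nat_lit 25428096)) (.cons (.rel (nat_lit 39845889)) (.cons (.rel (nat_lit 273170688)) .nil))))))))) (.cons (.rel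 (nat_lit 285348096)) (.cons (.br (nat_lit 0) (.cons (.rel (nat_lit 20979720)) (.cons (.rel (nat_lit 20972688)) (.cons (.rel (nat_lit 41947140)) (.cons (.rel (nat_lit 38273088)) (.cons (.rel (nat_lit 20972688)) (.cons (.rel (nat_lit 41947140)) (.cons (.rel (nat_lit 20975697)) (.cons (.rel (nat_lit 273170688)) .nil))))))))) (.cons (.rel (nat_lit 302057472)) (.cons (.rel (nat_lit 302057472)) (.cons (.br (nat_lit 0) (.cons (.rel (nat_lit 20979720)) (.cons (.rel (nat_lit 39845889)) (.cons (.rel (nat_lit 41947140)) (.cons (.rel (nat_lit 25167105)) (.cons (.rel (nat_lit 21006336)) (.cons (.rel (nat_lit 21006336)) (.cons (.rel (nat_lit 38273088)) (.cons (.rel (nat_lit 273170688)) .nil))))))))) (.cons (.br (nat_lit 0) (.cons (.rel (nat_lit 25428096)) (.cons (.rel (nat_lit 39845889)) (.cons (.rel (nat_lit 38798592)) (.cons (.rel (nat_lit 26214402)) (.cons (.rel (nat_lit 41947140)) (.cons (.rel (nat_lit 21299712)) (.cons (.rel (nat_lit 38273088)) (.cons (.rel (nat_lit 273170688)) .nil))))))))) (.cons (.rel (nat_lit 285496320))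 (.cons (.rel (nat_lit 285348096)) (.cons (.br (nat_lit 0) (.cons (.rel (nat_lit 41947140)) (.cons (.rel (nat_lit 38273088)) (.cons (.rel (nat_lit 21006336)) (.cons (.rel (nat_lit 39845889)) (.cons (.rel (nat_lit 20979720)) (.cons (.rel (nat_lit 20979720)) (.cons (.rel (nat_lit 25167105)) (.cons (.rel (nat_lit 273170688)) .nil))))))))) (.cons (.br (nat_lit 0) (.cons (.rel (nat_lit 25167105)) (.cons (.rel (nat_lit 20975697)) (.cons (.rel (nat_lit 20988000)) (.cons (.rel (nat_lit 20972688)) (.cons (.rel (nat_lit 41947140)) (.cons (.rel (nat_lit 25166100)) (.cons (.rel (nat_lit 38273088)) (.cons (.rel (nat_lit 273170688)) .nil))))))))) (.cons (.rel (nat_lit 302057472)) (.cons (.rel (nat_lit 285496320)) .nil)))))))))))))) (.cons (.br (nat_lit 0) (.cons (.br (nat_lit 1) (.cons (.rel (nat_lit 21299712)) (.cons (.rel (nat_lit 289669392)) (.cons (.rel (nat_lit 301989960)) (.cons (.rel (nat_lit 20979720)) (.cons (.rel (nat_lit 26214402)) (.cons (.rel (nat_lit 301989960)) (.cons (.rel (nat_lit 558891024)) (.cons (.rel (nat_lit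 285540432)) (.cons (.rel (nat_lit 285540432)) (.cons (.rel (nat_lit 41947140)) (.cons (.rel (nat_lit 25167105)) (.cons (.rel (nat_lit 289669392)) (.cons (.rel (nat_lit 41947140)) .nil)))))))))))))) (.cons (.br (nat_lit 2) (.cons (.rel (nat_lit 71303298)) (.cons (.rel (nat_lit 142606401)) (.cons (.rel (nat_lit 402653280)) (.cons (.rel (nat_lit 72618240)) (.cons (.rel (nat_lit 71309376)) (.cons (.rel (nat_lit 71303298)) (.cons (.rel (nat_lit 402653280)) (.cons (.rel (nat_lit 71312385)) (.cons (.rel (nat_lit 335822916)) (.cons (.rel (nat_lit 71309376)) (.cons (.rel (nat_lit 142606401)) (.cons (.rel (nat_lit 142606401)) (.cons (.rel (nat_lit 335822916)) .nil)))))))))))))) (.cons (.br (nat_lit 1) (.cons (.rel (nat_lit 558891024)) (.cons (.rel (nat_lit 21299712)) (.cons (.rel (nat_lit 301989960)) (.cons (.rel (nat_lit 41947140)) (.cons (.rel (nat_lit 25428096)) (.cons (.rel (nat_lit 301989960)) (.cons (.rel (nat_lit 289669392)) (.cons (.rel (nat_lit 285540432)) (.cons (.rel (nat_lit 285540432)) (.cons (.rel (nat_lit 21006336))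 (.cons (.rel (nat_lit 20988000)) (.cons (.rel (nat_lit 41960448)) (.cons (.rel (nat_lit 41947140)) .nil)))))))))))))) (.cons (.br (nat_lit 1) (.cons (.rel (nat_lit 25428096)) (.cons (.rel (nat_lit 41947140)) (.cons (.rel (nat_lit 301989960)) (.cons (.rel (nat_lit 20975697)) (.cons (.rel (nat_lit 20975697)) (.cons (.rel (nat_lit 301989960)) (.cons (.rel (nat_lit 26214402)) (.cons (.rel (nat_lit 285540432)) (.cons (.rel (nat_lit 285540432)) (.cons (.rel (nat_lit 39845889)) (.cons (.rel (nat_lit 20972688)) (.cons (.rel (nat_lit 20975697)) (.cons (.rel (nat_lit 20972688)) .nil)))))))))))))) (.cons (.rel (nat_lit 277086216)) (.cons (.br (nat_lit 1) (.cons (.rel (nat_lit 289669392)) (.cons (.rel (nat_lit 558891024)) (.cons (.rel (nat_lit 301989960)) (.cons (.rel (nat_lit 20979720)) (.cons (.rel (nat_lit 38798592)) (.cons (.rel (nat_lit 301989960)) (.cons (.rel (nat_lit 21299712)) (.cons (.rel (nat_lit 285540432)) (.cons (.rel (nat_lit 285540432)) (.cons (.rel (nat_lit 20979720)) (.cons (.rel (nat_lit 25166100)) (.cons (.rel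 (nat_lit 41947140)) (.cons (.rel (nat_lit 41960448)) .nil)))))))))))))) (.cons (.br (nat_lit 1) (.cons (.rel (nat_lit 39845889)) (.cons (.rel (nat_lit 289669392)) (.cons (.rel (nat_lit 301989960)) (.cons (.rel (nat_lit 20972688)) (.cons (.rel (nat_lit 20972688)) (.cons (.rel (nat_lit 301989960)) (.cons (.rel (nat_lit 25428096)) (.cons (.rel (nat_lit 285540432)) (.cons (.rel (nat_lit 285540432)) (.cons (.rel (nat_lit 25167105)) (.cons (.rel (nat_lit 38273088)) (.cons (.rel (nat_lit 20972688)) (.cons (.rel (nat_lit 20975697)) .nil)))))))))))))) (.cons (.rel (nat_lit 274727172)) .nil))))))))) (.cons (.br (nat_lit 1) (.cons (.br (nat_lit 4) (.cons (.rel (nat_lit 1342177572)) (.cons (.rel (nat_lit 1342177572)) (.cons (.rel (nat_lit 2415935508)) (.cons (.rel (nat_lit 1091043840)) (.cons (.rel (nat_lit 1090781268)) (.cons (.rel (nat_lit 1090602240)) (.cons (.rel (nat_lit 1342177572)) (.cons (.rel (nat_lit 1090781268)) (.cons (.rel (nat_lit 2164260882)) (.cons (.rel (nat_lit 1091043840)) (.cons (.rel (nat_lit 2415920196))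 (.cons (.rel (nat_lit 1090781268)) (.cons (.rel (nat_lit 1090602240)) (.cons (.rel (nat_lit 2164260882)) .nil))))))))))))))) (.cons (.rel (nat_lit 285213984)) (.cons (.br (nat_lit 0) (.cons (.rel (nat_lit 20979720)) (.cons (.rel (nat_lit 20972688)) (.cons (.rel (nat_lit 41947140)) (.cons (.rel (nat_lit 38273088)) (.cons (.rel (nat_lit 277086216)) (.cons (.rel (nat_lit 41947140)) (.cons (.rel (nat_lit 20975697)) (.cons (.rel (nat_lit 20993028)) .nil))))))))) (.cons (.rel (nat_lit 301995024)) (.cons (.rel (nat_lit 301995024)) (.cons (.br (nat_lit 0) (.cons (.rel (nat_lit 20979720)) (.cons (.rel (nat_lit 39845889)) (.cons (.rel (nat_lit 41947140)) (.cons (.rel (nat_lit 25167105)) (.cons (.rel (nat_lit 277086216)) (.cons (.rel (nat_lit 21006336)) (.cons (.rel (nat_lit 38273088)) (.cons (.rel (nat_lit 21299712)) .nil))))))))) (.cons (.br (nat_lit 0) (.cons (.rel (nat_lit 289669392)) (.cons (.rel (nat_lit 39845889)) (.cons (.rel (nat_lit 558891024)) (.cons (.rel (nat_lit 26214402)) (.cons (.rel (nat_lit 277086216)) (.cons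 (.rel (nat_lit 21299712)) (.cons (.rel (nat_lit 38273088)) (.cons (.rel (nat_lit 20988000)) .nil))))))))) (.cons (.rel (nat_lit 285483012)) (.cons (.rel (nat_lit 285213984)) (.cons (.rel (nat_lit 301989960)) (.cons (.br (nat_lit 0) (.cons (.rel (nat_lit 25167105)) (.cons (.rel (nat_lit 20975697)) (.cons (.rel (nat_lit 20988000)) (.cons (.rel (nat_lit 20972688)) (.cons (.rel (nat_lit 277086216)) (.cons (.rel (nat_lit 25166100)) (.cons (.rel (nat_lit 38273088)) (.cons (.rel (nat_lit 20979720)) .nil))))))))) (.cons (.rel (nat_lit 301995024)) (.cons (.rel (nat_lit 285483012)) .nil)))))))))))))) .nil)))) .leaf) (nat_lit 22624628142478569) (.br (nat_lit 3) (.cons (.br (nat_lit 1) (.cons (.rel (nat_lit 302057472)) (.cons (.br (nat_lit 0) (.cons (.rel (nat_lit 20979720)) (.cons (.rel (nat_lit 293605440)) (.cons (.rel (nat_lit 38273088)) (.cons (.rel (nat_lit 41947140)) (.cons (.rel (nat_lit 25167105)) (.cons (.rel (nat_lit 21006336)) (.cons (.rel (nat_lit 38273088)) .nil)))))))) (.cons (.br (nat_lit 2) (.cons (.rel (nat_lit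 84213792)) (.cons (.rel (nat_lit 100663320)) (.cons (.rel (nat_lit 84934785)) (.cons (.rel (nat_lit 402671616)) (.cons (.rel (nat_lit 402671616)) (.cons (.rel (nat_lit 86507520)) .nil))))))) (.cons (.br (nat_lit 2) (.cons (.rel (nat_lit 84148290)) (.cons (.rel (nat_lit 83890497)) (.cons (.rel (nat_lit 84148290)) (.cons (.rel (nat_lit 402671616)) (.cons (.rel (nat_lit 402671616)) (.cons (.rel (nat_lit 83887488)) .nil))))))) (.cons (.br (nat_lit 0) (.cons (.rel (nat_lit 41947140)) (.cons (.rel (nat_lit 38273088)) (.cons (.rel (nat_lit 290521344)) (.cons (.rel (nat_lit 21006336)) (.cons (.rel (nat_lit 293605440)) (.cons (.rel (nat_lit 20979720)) (.cons (.rel (nat_lit 25167105)) .nil)))))))) (.cons (.rel (nat_lit 302057472)) .nil))))))) (.cons (.br (nat_lit 5) (.cons (.rel (nat_lit 4563403032)) (.cons (.rel (nat_lit 4563665028)) (.cons (.rel (nat_lit 8858386464)) (.cons (.rel (nat_lit 4563501312)) (.cons (.br (nat_lit 0) (.cons (.rel (nat_lit 4299686160)) (.cons (.rel (nat_lit 9131003904)) (.cons (.rel (nat_lit 274727172))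 (.cons (.rel (nat_lit 4568907792)) (.cons (.rel (nat_lit 8594130432)) (.cons (.rel (nat_lit 4300538112)) (.cons (.rel (nat_lit 4571799552)) .nil)))))))) (.cons (.rel (nat_lit 4563501312)) (.cons (.br (nat_lit 2) (.cons (.rel (nat_lit 4362338388)) (.cons (.rel (nat_lit 402653280)) (.cons (.rel (nat_lit 8724414720)) (.cons (.rel (nat_lit 4362600960)) (.cons (.rel (nat_lit 4362084609)) (.cons (.rel (nat_lit 4362081600)) .nil))))))) (.cons (.br (nat_lit 1) (.cons (.rel (nat_lit 4311744912)) (.cons (.rel (nat_lit 301989960)) (.cons (.rel (nat_lit 4312006728)) (.cons (.rel (nat_lit 4580180049)) (.cons (.rel (nat_lit 4312006728)) (.cons (.rel (nat_lit 4312011792)) .nil))))))) .nil))))))))) (.cons (.br (nat_lit 1) (.cons (.rel (nat_lit 301995024)) (.cons (.br (nat_lit 2) (.cons (.rel (nat_lit 86507520)) (.cons (.rel (nat_lit 86507520)) (.cons (.rel (nat_lit 83890497)) (.cons (.rel (nat_lit 402658308)) (.cons (.rel (nat_lit 402658308)) (.cons (.rel (nat_lit 402653280)) .nil))))))) (.cons (.br (nat_lit 2) (.cons (.rel (nat_lit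 84213792)) (.cons (.rel (nat_lit 100663320)) (.cons (.rel (nat_lit 84934785)) (.cons (.rel (nat_lit 402658308)) (.cons (.rel (nat_lit 402658308)) (.cons (.rel (nat_lit 402653280)) .nil))))))) (.cons (.br (nat_lit 2) (.cons (.rel (nat_lit 84148290)) (.cons (.rel (nat_lit 83890497)) (.cons (.rel (nat_lit 84148290)) (.cons (.rel (nat_lit 402658308)) (.cons (.rel (nat_lit 402658308)) (.cons (.rel (nat_lit 402653280)) .nil))))))) (.cons (.rel (nat_lit 301989960)) (.cons (.rel (nat_lit 301995024)) .nil))))))) .nil)))) .leaf))))) (nat_lit 22624628142586166) (.br (nat_lit 0) (.cons (.br (nat_lit 6) (.cons (.rel (nat_lit 34368128322)) (.cons (.rel (nat_lit 17185374273)) (.cons (.rel (nat_lit 17184072192)) (.cons (.rel (nat_lit 17184072192)) .nil))))) (.cons (.br (nat_lit 6) (.cons (.rel (nat_lit 17184072192)) (.cons (.rel (nat_lit 17184072192)) (.cons (.rel (nat_lit 17184072192)) (.cons (.rel (nat_lit 34368128322)) .nil))))) (.cons (.br (nat_lit 6) (.cons (.rel (nat_lit 17184072192)) (.cons (.rel (nat_lit 17184587778)) (.cons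 (.rel (nat_lit 34368128322)) (.cons (.rel (nat_lit 17184072192)) .nil))))) .nil)))) (.node (.node (.node (.node (.node (.node .leaf (nat_lit 22624628142586666) (.br (nat_lit 3) (.cons (.br (nat_lit 6) (.cons (.br (nat_lit 0) (.cons (.rel (nat_lit 34368128322)) (.cons (.rel (nat_lit 17184072192)) (.cons (.rel (nat_lit 17184329985)) (.cons (.rel (nat_lit 17184342288)) (.cons (.rel (nat_lit 17184072192)) (.cons (.rel (nat_lit 17720936448)) .nil))))))) (.cons (.br (nat_lit 1) (.cons (.rel (nat_lit 34393292865)) (.cons (.rel (nat_lit 285348096)) (.cons (.rel (nat_lit 17750310912)) (.cons (.rel (nat_lit 302057472)) (.cons (.rel (nat_lit 285496320)) (.cons (.rel (nat_lit 17213424132)) (.cons (.rel (nat_lit 17196646530)) (.cons (.rel (nat_lit 302057472)) (.cons (.rel (nat_lit 17196652608)) (.cons (.rel (nat_lit 17196667920)) .nil))))))))))) (.cons (.br (nat_lit 0) (.cons (.rel (nat_lit 17184072192)) (.cons (.rel (nat_lit 17184072192)) (.cons (.rel (nat_lit 17184326976)) (.cons (.rel (nat_lit 34368131328)) (.cons (.rel (nat_lit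 34368128322)) (.cons (.rel (nat_lit 17184072192)) .nil))))))) (.cons (.br (nat_lit 0) (.cons (.rel (nat_lit 17184072192)) (.cons (.rel (nat_lit 34368128322)) (.cons (.rel (nat_lit 34363933713)) (.cons (.rel (nat_lit 34368389121)) (.cons (.rel (nat_lit 17184072192)) (.cons (.rel (nat_lit 17452504320)) .nil))))))) (.cons (.br (nat_lit 0) (.cons (.rel (nat_lit 17184326976)) (.cons (.rel (nat_lit 17188258821)) (.cons (.rel (nat_lit 17184587778)) (.cons (.rel (nat_lit 34368131328)) (.cons (.rel (nat_lit 17184329985)) (.cons (.rel (nat_lit 17184072192)) .nil))))))) .nil)))))) (.cons (.br (nat_lit 6) (.cons (.br (nat_lit 0) (.cons (.rel (nat_lit 34368128322)) (.cons (.rel (nat_lit 17184072192)) (.cons (.rel (nat_lit 277086216)) (.cons (.rel (nat_lit 277086216)) (.cons (.rel (nat_lit 17184072192)) (.cons (.rel (nat_lit 276824400)) .nil))))))) (.cons (.rel (nat_lit 34628436000)) (.cons (.br (nat_lit 0) (.cons (.rel (nat_lit 17184072192)) (.cons (.rel (nat_lit 17184072192)) (.cons (.rel (nat_lit 277086216)) (.cons (.rel (nat_lit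 277086216)) (.cons (.rel (nat_lit 34368128322)) (.cons (.rel (nat_lit 276824400)) .nil))))))) (.cons (.br (nat_lit 0) (.cons (.rel (nat_lit 17184072192)) (.cons (.rel (nat_lit 34368128322)) (.cons (.rel (nat_lit 277086216)) (.cons (.rel (nat_lit 277086216)) (.cons (.rel (nat_lit 17184072192)) (.cons (.rel (nat_lit 276824400)) .nil))))))) (.cons (.rel (nat_lit 34628436000)) .nil)))))) (.cons (.br (nat_lit 6) (.cons (.br (nat_lit 0) (.cons (.rel (nat_lit 34368128322)) (.cons (.rel (nat_lit 17184072192)) (.cons (.rel (nat_lit 277086216)) (.cons (.rel (nat_lit 277086216)) (.cons (.rel (nat_lit 17184072192)) (.cons (.rel (nat_lit 545259537)) .nil))))))) (.cons (.rel (nat_lit 34628436000)) (.cons (.br (nat_lit 0) (.cons (.rel (nat_lit 17184072192)) (.cons (.rel (nat_lit 17184072192)) (.cons (.rel (nat_lit 277086216)) (.cons (.rel (nat_lit 277086216)) (.cons (.rel (nat_lit 34368128322)) (.cons (.rel (nat_lit 545259537)) .nil))))))) (.cons (.br (nat_lit 0) (.cons (.rel (nat_lit 17184072192)) (.cons (.rel (nat_lit 34368128322))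 (.cons (.rel (nat_lit 277086216)) (.cons (.rel (nat_lit 277086216)) (.cons (.rel (nat_lit 17184072192)) (.cons (.rel (nat_lit 545259537)) .nil))))))) (.cons (.rel (nat_lit 34628436000)) .nil)))))) .nil)))) .leaf) (nat_lit 22624628142587166) (.br (nat_lit 0) (.cons (.br (nat_lit 6) (.cons (.rel (nat_lit 34368128322)) (.cons (.rel (nat_lit 17184072192)) (.cons (.rel (nat_lit 17184072192)) .nil)))) (.cons (.br (nat_lit 6) (.cons (.rel (nat_lit 17184072192)) (.cons (.rel (nat_lit 17184072192)) (.cons (.rel (nat_lit 34368128322)) .nil)))) (.cons (.br (nat_lit 6) (.cons (.rel (nat_lit 17184072192)) (.cons (.rel (nat_lit 34368128322)) (.cons (.rel (nat_lit 17184072192)) .nil)))) .nil)))) (.node .leaf (nat_lit 22624628143501569) (.br (nat_lit 3) (.cons (.br (nat_lit 1) (.cons (.br (nat_lit 0) (.cons (.rel (nat_lit 20979720)) (.cons (.rel (nat_lit 20972688)) (.cons (.rel (nat_lit 41947140)) (.cons (.rel (nat_lit 38273088)) (.cons (.rel (nat_lit 20979720)) (.cons (.rel (nat_lit 41947140)) (.cons (.rel (nat_lit 20975697)) .nil))))))))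 (.cons (.rel (nat_lit 302057472)) (.cons (.br (nat_lit 0) (.cons (.rel (nat_lit 20979720)) (.cons (.rel (nat_lit 38273088)) (.cons (.rel (nat_lit 41947140)) (.cons (.rel (nat_lit 25167105)) (.cons (.rel (nat_lit 21299712)) (.cons (.rel (nat_lit 21006336)) (.cons (.rel (nat_lit 39845889)) .nil)))))))) (.cons (.br (nat_lit 0) (.cons (.rel (nat_lit 41947140)) (.cons (.rel (nat_lit 39845889)) (.cons (.rel (nat_lit 21006336)) (.cons (.rel (nat_lit 38273088)) (.cons (.rel (nat_lit 39845889)) (.cons (.rel (nat_lit 20979720)) (.cons (.rel (nat_lit 25167105)) .nil)))))))) (.cons (.rel (nat_lit 285348096)) (.cons (.br (nat_lit 6) (.cons (.rel (nat_lit 34393292865)) (.cons (.rel (nat_lit 17196712032)) (.cons (.rel (nat_lit 17198219265)) (.cons (.rel (nat_lit 17198219265)) (.cons (.rel (nat_lit 34393292865)) (.cons (.rel (nat_lit 34393292865)) (.cons (.rel (nat_lit 17199005760)) .nil)))))))) (.cons (.br (nat_lit 0) (.cons (.rel (nat_lit 25167105)) (.cons (.rel (nat_lit 20975697)) (.cons (.rel (nat_lit 20988000)) (.cons (.rel (nat_lit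 20972688)) (.cons (.rel (nat_lit 21006336)) (.cons (.rel (nat_lit 25166100)) (.cons (.rel (nat_lit 38273088)) .nil)))))))) (.cons (.rel (nat_lit 302057472)) .nil))))))))) (.cons (.br (nat_lit 5) (.cons (.br (nat_lit 0) (.cons (.rel (nat_lit 4299161736)) (.cons (.rel (nat_lit 4299166800)) (.cons (.rel (nat_lit 4299161736)) (.cons (.rel (nat_lit 4299166800)) (.cons (.rel (nat_lit 274727172)) (.cons (.rel (nat_lit 8598323268)) (.cons (.rel (nat_lit 8598323268)) .nil)))))))) (.cons (.rel (nat_lit 4563403032)) (.cons (.br (nat_lit 0) (.cons (.rel (nat_lit 4299686160)) (.cons (.rel (nat_lit 8598323268)) (.cons (.rel (nat_lit 8598323268)) (.cons (.rel (nat_lit 4299166800)) (.cons (.rel (nat_lit 274727172)) (.cons (.rel (nat_lit 4300538112)) (.cons (.rel (nat_lit 4299229248)) .nil)))))))) (.cons (.rel (nat_lit 8858386464)) (.cons (.rel (nat_lit 4563403032)) (.cons (.br (nat_lit 0) (.cons (.rel (nat_lit 4300538112)) (.cons (.rel (nat_lit 9131003904)) (.cons (.rel (nat_lit 4299686160)) (.cons (.rel (nat_lit 8594130432)) (.cons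 (.rel (nat_lit 274727172)) (.cons (.rel (nat_lit 4568907792)) (.cons (.rel (nat_lit 4571799552)) .nil)))))))) (.cons (.rel (nat_lit 4563501312)) (.cons (.rel (nat_lit 8858386464)) .nil))))))))) (.cons (.br (nat_lit 1) (.cons (.br (nat_lit 0) (.cons (.rel (nat_lit 20979720)) (.cons (.rel (nat_lit 20972688)) (.cons (.rel (nat_lit 41947140)) (.cons (.rel (nat_lit 38273088)) (.cons (.rel (nat_lit 273170688)) (.cons (.rel (nat_lit 41947140)) (.cons (.rel (nat_lit 20975697)) .nil)))))))) (.cons (.rel (nat_lit 301995024)) (.cons (.br (nat_lit 0) (.cons (.rel (nat_lit 20979720)) (.cons (.rel (nat_lit 38273088)) (.cons (.rel (nat_lit 41947140)) (.cons (.rel (nat_lit 25167105)) (.cons (.rel (nat_lit 273170688)) (.cons (.rel (nat_lit 21006336)) (.cons (.rel (nat_lit 39845889)) .nil)))))))) (.cons (.rel (nat_lit 301989960)) (.cons (.rel (nat_lit 285213984)) (.cons (.br (nat_lit 6) (.cons (.rel (nat_lit 34393292865)) (.cons (.rel (nat_lit 17448894720)) (.cons (.rel (nat_lit 17198219265)) (.cons (.rel (nat_lit 17198219265)) (.cons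 (.rel (nat_lit 34393292865)) (.cons (.rel (nat_lit 34393292865)) (.cons (.rel (nat_lit 17199005760)) .nil)))))))) (.cons (.br (nat_lit 0) (.cons (.rel (nat_lit 25167105)) (.cons (.rel (nat_lit 20975697)) (.cons (.rel (nat_lit 20988000)) (.cons (.rel (nat_lit 20972688)) (.cons (.rel (nat_lit 273170688)) (.cons (.rel (nat_lit 25166100)) (.cons (.rel (nat_lit 38273088)) .nil)))))))) (.cons (.rel (nat_lit 301995024)) .nil))))))))) .nil)))) .leaf)) (nat_lit 22624628143502069) (.br (nat_lit 3) (.cons (.br (nat_lit 2) (.cons (.rel (nat_lit 335581440)) (.cons (.br (nat_lit 0) (.cons (.rel (nat_lit 72876033)) (.cons (.rel (nat_lit 142606401)) (.cons (.rel (nat_lit 73662528)) (.cons (.rel (nat_lit 72876033)) (.cons (.rel (nat_lit 142606401)) (.cons (.rel (nat_lit 142606401)) .nil))))))) (.cons (.br (nat_lit 0) (.cons (.rel (nat_lit 72876033)) (.cons (.rel (nat_lit 71312385)) (.cons (.rel (nat_lit 142606401)) (.cons (.rel (nat_lit 71309376)) (.cons (.rel (nat_lit 142606401)) (.cons (.rel (nat_lit 142606401)) .nil))))))) (.cons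 (.rel (nat_lit 402671616)) (.cons (.rel (nat_lit 402671616)) (.cons (.br (nat_lit 0) (.cons (.rel (nat_lit 142606401)) (.cons (.rel (nat_lit 71309376)) (.cons (.rel (nat_lit 142606401)) (.cons (.rel (nat_lit 142606401)) (.cons (.rel (nat_lit 72876033)) (.cons (.rel (nat_lit 71312385)) .nil))))))) .nil))))))) (.cons (.br (nat_lit 5) (.cons (.rel (nat_lit 4563403032)) (.cons (.rel (nat_lit 8858386464)) (.cons (.rel (nat_lit 4563501312)) (.cons (.br (nat_lit 0) (.cons (.rel (nat_lit 4303358208)) (.cons (.rel (nat_lit 9131003904)) (.cons (.rel (nat_lit 4299686160)) (.cons (.rel (nat_lit 8594130432)) (.cons (.rel (nat_lit 4300538112)) (.cons (.rel (nat_lit 4571799552)) .nil))))))) (.cons (.rel (nat_lit 4563501312)) (.cons (.br (nat_lit 0) (.cons (.rel (nat_lit 4300538112)) (.cons (.rel (nat_lit 4299229248)) (.cons (.rel (nat_lit 4299686160)) (.cons (.rel (nat_lit 8598323268)) (.cons (.rel (nat_lit 8598323268)) (.cons (.rel (nat_lit 4299166800)) .nil))))))) (.cons (.br (nat_lit 0) (.cons (.rel (nat_lit 8598323268)) (.cons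 (.rel (nat_lit 8598323268)) (.cons (.rel (nat_lit 4299161736)) (.cons (.rel (nat_lit 4299166800)) (.cons (.rel (nat_lit 4299161736)) (.cons (.rel (nat_lit 4299166800)) .nil))))))) .nil)))))))) (.cons (.br (nat_lit 2) (.cons (.rel (nat_lit 335545608)) (.cons (.br (nat_lit 0) (.cons (.rel (nat_lit 72876033)) (.cons (.rel (nat_lit 142606401)) (.cons (.rel (nat_lit 73662528)) (.cons (.rel (nat_lit 72876033)) (.cons (.rel (nat_lit 142606401)) (.cons (.rel (nat_lit 142606401)) .nil))))))) (.cons (.br (nat_lit 0) (.cons (.rel (nat_lit 72876033)) (.cons (.rel (nat_lit 71312385)) (.cons (.rel (nat_lit 142606401)) (.cons (.rel (nat_lit 71309376)) (.cons (.rel (nat_lit 142606401)) (.cons (.rel (nat_lit 142606401)) .nil))))))) (.cons (.rel (nat_lit 402658308)) (.cons (.rel (nat_lit 402658308)) (.cons (.rel (nat_lit 402653280)) .nil))))))) .nil)))) (.node (.node .leaf (nat_lit 22624628143502569) (.br (nat_lit 3) (.cons (.br (nat_lit 1) (.cons (.rel (nat_lit 285496320)) (.cons (.br (nat_lit 5) (.cons (.rel (nat_lit 4328521749))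 (.cons (.rel (nat_lit 4563501312)) (.cons (.rel (nat_lit 4312006728)) (.cons (.rel (nat_lit 4312801296)) (.cons (.rel (nat_lit 8875671552)) (.cons (.rel (nat_lit 4312006728)) (.cons (.rel (nat_lit 4563501312)) (.cons (.rel (nat_lit 8623751448)) (.cons (.rel (nat_lit 4311765252)) (.cons (.rel (nat_lit 4328603712)) (.cons (.rel (nat_lit 4312006728)) (.cons (.rel (nat_lit 4311744912)) .nil))))))))))))) (.cons (.rel (nat_lit 302057472)) (.cons (.rel (nat_lit 302057472)) (.cons (.br (nat_lit 2) (.cons (.rel (nat_lit 84943872)) (.cons (.rel (nat_lit 86507520)) (.cons (.rel (nat_lit 335581440)) (.cons (.rel (nat_lit 83887488)) (.cons (.rel (nat_lit 402671616)) (.cons (.rel (nat_lit 86507520)) (.cons (.rel (nat_lit 86507520)) (.cons (.rel (nat_lit 402671616)) (.cons (.rel (nat_lit 335877120)) (.cons (.rel (nat_lit 402671616)) (.cons (.rel (nat_lit 86507520)) .nil)))))))))))) (.cons (.br (nat_lit 0) (.cons (.rel (nat_lit 38798592)) (.cons (.rel (nat_lit 38273088)) (.cons (.rel (nat_lit 273170688)) (.cons (.rel (nat_lit 41947140))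 (.cons (.rel (nat_lit 21299712)) (.cons (.rel (nat_lit 39845889)) (.cons (.br (nat_lit 6) (.cons (.rel (nat_lit 34393292865)) (.cons (.rel (nat_lit 17184072192)) (.cons (.rel (nat_lit 34376515848)) (.cons (.rel (nat_lit 34393292865)) (.cons (.rel (nat_lit 17452504320)) (.cons (.rel (nat_lit 17213424132)) (.cons (.rel (nat_lit 17448894720)) (.cons (.rel (nat_lit 34393292865)) .nil))))))))) (.cons (.rel (nat_lit 26214402)) .nil))))))))) (.cons (.br (nat_lit 0) (.cons (.rel (nat_lit 41947140)) (.cons (.rel (nat_lit 37751298)) (.cons (.rel (nat_lit 273170688)) (.cons (.rel (nat_lit 20975697)) (.cons (.rel (nat_lit 41947140)) (.cons (.rel (nat_lit 20975697)) (.cons (.rel (nat_lit 20979720)) (.cons (.rel (nat_lit 20972688)) .nil))))))))) (.cons (.br (nat_lit 6) (.cons (.rel (nat_lit 17196652608)) (.cons (.rel (nat_lit 34393292865)) (.cons (.rel (nat_lit 17196652608)) (.cons (.rel (nat_lit 34393292865)) (.cons (.rel (nat_lit 34376515848)) (.cons (.rel (nat_lit 17196655617)) (.cons (.rel (nat_lit 17448894720)) (.cons (.rel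 (nat_lit 34393292865)) .nil))))))))) (.cons (.rel (nat_lit 285348096)) (.cons (.br (nat_lit 0) (.cons (.rel (nat_lit 21299712)) (.cons (.rel (nat_lit 26214402)) (.cons (.rel (nat_lit 273170688)) (.cons (.rel (nat_lit 41960448)) (.cons (.rel (nat_lit 38798592)) (.cons (.rel (nat_lit 38273088)) (.cons (.rel (nat_lit 25428096)) (.cons (.rel (nat_lit 39845889)) .nil))))))))) (.cons (.rel (nat_lit 302057472)) .nil)))))))))))) (.cons (.br (nat_lit 0) (.cons (.br (nat_lit 1) (.cons (.rel (nat_lit 285540432)) (.cons (.rel (nat_lit 20988000)) (.cons (.rel (nat_lit 41947140)) (.cons (.rel (nat_lit 20979720)) (.cons (.rel (nat_lit 301989960)) (.cons (.rel (nat_lit 289669392)) (.cons (.rel (nat_lit 41947140)) (.cons (.rel (nat_lit 41947140)) (.cons (.rel (nat_lit 285540432)) (.cons (.rel (nat_lit 21299712)) (.cons (.rel (nat_lit 21299712)) .nil)))))))))))) (.cons (.br (nat_lit 2) (.cons (.rel (nat_lit 344064000)) (.cons (.rel (nat_lit 142606401)) (.cons (.rel (nat_lit 335822916)) (.cons (.rel (nat_lit 142606401)) (.cons (.rel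 (nat_lit 71309376)) (.cons (.rel (nat_lit 402653280)) (.cons (.rel (nat_lit 138412560)) (.cons (.rel (nat_lit 71309376)) (.cons (.rel (nat_lit 335822916)) (.cons (.rel (nat_lit 71312385)) (.cons (.rel (nat_lit 71309376)) .nil)))))))))))) (.cons (.rel (nat_lit 274727172)) (.cons (.rel (nat_lit 277086216)) (.cons (.br (nat_lit 1) (.cons (.rel (nat_lit 285540432)) (.cons (.rel (nat_lit 25167105)) (.cons (.rel (nat_lit 41947140)) (.cons (.rel (nat_lit 41947140)) (.cons (.rel (nat_lit 301989960)) (.cons (.rel (nat_lit 21299712)) (.cons (.rel (nat_lit 41947140)) (.cons (.rel (nat_lit 21006336)) (.cons (.rel (nat_lit 285540432)) (.cons (.rel (nat_lit 558891024)) (.cons (.rel (nat_lit 41960448)) .nil)))))))))))) (.cons (.br (nat_lit 5) (.cons (.rel (nat_lit 4299166800)) (.cons (.rel (nat_lit 4563403032)) (.cons (.rel (nat_lit 8598323268)) (.cons (.rel (nat_lit 4299166800)) (.cons (.rel (nat_lit 9131003904)) (.cons (.rel (nat_lit 8858386464)) (.cons (.rel (nat_lit 4563403032)) (.cons (.rel (nat_lit 4563501312)) (.cons (.rel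 (nat_lit 4303358208)) (.cons (.rel (nat_lit 4563501312)) (.cons (.rel (nat_lit 8598323268)) (.cons (.rel (nat_lit 4299166800)) .nil))))))))))))) (.cons (.br (nat_lit 1) (.cons (.rel (nat_lit 285540432)) (.cons (.rel (nat_lit 293683200)) (.cons (.rel (nat_lit 41960448)) (.cons (.rel (nat_lit 20979720)) (.cons (.rel (nat_lit 301989960)) (.cons (.rel (nat_lit 558891024)) (.cons (.rel (nat_lit 20979720)) (.cons (.rel (nat_lit 20979720)) (.cons (.rel (nat_lit 285540432)) (.cons (.rel (nat_lit 289669392)) (.cons (.rel (nat_lit 41947140)) .nil)))))))))))) (.cons (.br (nat_lit 1) (.cons (.rel (nat_lit 285540432)) (.cons (.rel (nat_lit 20975697)) (.cons (.rel (nat_lit 26214402)) (.cons (.rel (nat_lit 20972688)) (.cons (.rel (nat_lit 301989960)) (.cons (.rel (nat_lit 26214402)) (.cons (.rel (nat_lit 20972688)) (.cons (.rel (nat_lit 25167105)) (.cons (.rel (nat_lit 285540432)) (.cons (.rel (nat_lit 39845889)) (.cons (.rel (nat_lit 20972688)) .nil)))))))))))) .nil))))))))) (.cons (.br (nat_lit 1) (.cons (.rel (nat_lit 285483012))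 (.cons (.br (nat_lit 0) (.cons (.rel (nat_lit 20988000)) (.cons (.rel (nat_lit 20972688)) (.cons (.rel (nat_lit 21006336)) (.cons (.rel (nat_lit 277086216)) (.cons (.rel (nat_lit 25167105)) (.cons (.rel (nat_lit 38273088)) (.cons (.rel (nat_lit 293605440)) (.cons (.rel (nat_lit 20975697)) .nil))))))))) (.cons (.rel (nat_lit 301995024)) (.cons (.rel (nat_lit 301995024)) (.cons (.br (nat_lit 0) (.cons (.rel (nat_lit 20979720)) (.cons (.rel (nat_lit 38273088)) (.cons (.rel (nat_lit 558891024)) (.cons (.rel (nat_lit 277086216)) (.cons (.rel (nat_lit 41947140)) (.cons (.rel (nat_lit 25167105)) (.cons (.rel (nat_lit 21006336)) (.cons (.rel (nat_lit 293605440)) .nil))))))))) (.cons (.br (nat_lit 0) (.cons (.rel (nat_lit 558891024)) (.cons (.rel (nat_lit 38273088)) (.cons (.rel (nat_lit 25428096)) (.cons (.rel (nat_lit 277086216)) (.cons (.rel (nat_lit 21299712)) (.cons (.rel (nat_lit 39845889)) (.cons (.rel (nat_lit 289669392)) (.cons (.rel (nat_lit 26214402)) .nil))))))))) (.cons (.rel (nat_lit 301989960)) (.cons (.rel (nat_lit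 301989960)) (.cons (.rel (nat_lit 285213984)) (.cons (.br (nat_lit 0) (.cons (.rel (nat_lit 21299712)) (.cons (.rel (nat_lit 26214402)) (.cons (.rel (nat_lit 38273088)) (.cons (.rel (nat_lit 277086216)) (.cons (.rel (nat_lit 289669392)) (.cons (.rel (nat_lit 38273088)) (.cons (.rel (nat_lit 558891024)) (.cons (.rel (nat_lit 39845889)) .nil))))))))) (.cons (.rel (nat_lit 301995024)) .nil)))))))))))) .nil)))) .leaf) (nat_lit 22624628143610166) (.br (nat_lit 0) (.cons (.br (nat_lit 6) (.cons (.rel (nat_lit 34368128322)) (.cons (.rel (nat_lit 17184072192)) (.cons (.rel (nat_lit 17184072192)) .nil)))) (.cons (.br (nat_lit 6) (.cons (.rel (nat_lit 17184072192)) (.cons (.rel (nat_lit 17184072192)) (.cons (.rel (nat_lit 34368128322)) .nil)))) (.cons (.br (nat_lit 6) (.cons (.rel (nat_lit 17184072192)) (.cons (.rel (nat_lit 34368128322)) (.cons (.rel (nat_lit 17184072192)) .nil)))) .nil)))) .leaf)) (nat_lit 22624628143610666) (.br (nat_lit 3) (.cons (.br (nat_lit 5) (.cons (.rel (nat_lit 4563423552)) (.cons (.br (nat_lit 0)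 (.cons (.rel (nat_lit 4299169809)) (.cons (.rel (nat_lit 8598323268)) (.cons (.rel (nat_lit 4299166800)) (.cons (.rel (nat_lit 4299229248)) .nil))))) (.cons (.br (nat_lit 0) (.cons (.rel (nat_lit 4299166800)) (.cons (.rel (nat_lit 4303358208)) (.cons (.rel (nat_lit 4299161736)) (.cons (.rel (nat_lit 4299161736)) .nil))))) (.cons (.br (nat_lit 0) (.cons (.rel (nat_lit 4299244560)) (.cons (.rel (nat_lit 4299229248)) (.cons (.rel (nat_lit 4303622208)) (.cons (.rel (nat_lit 4299182112)) .nil))))) (.cons (.rel (nat_lit 4563423552)) .nil)))))) (.cons (.br (nat_lit 5) (.cons (.rel (nat_lit 8858386464)) (.cons (.br (nat_lit 0) (.cons (.rel (nat_lit 4299169809)) (.cons (.rel (nat_lit 545259537)) (.cons (.rel (nat_lit 4299166800)) (.cons (.rel (nat_lit 4299229248)) .nil))))) (.cons (.rel (nat_lit 4563501312)) (.cons (.rel (nat_lit 8858374161)) (.cons (.br (nat_lit 0) (.cons (.rel (nat_lit 8595177729)) (.cons (.rel (nat_lit 545259537)) (.cons (.rel (nat_lit 4299686160)) (.cons (.rel (nat_lit 4299161736)) .nil))))) .nil))))))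 (.cons (.br (nat_lit 5) (.cons (.rel (nat_lit 4563404037)) (.cons (.br (nat_lit 0) (.cons (.rel (nat_lit 4299169809)) (.cons (.rel (nat_lit 276824400)) (.cons (.rel (nat_lit 4299166800)) (.cons (.rel (nat_lit 4299229248)) .nil))))) (.cons (.rel (nat_lit 4563403032)) (.cons (.rel (nat_lit 8858371152)) (.cons (.rel (nat_lit 4563404037)) .nil)))))) .nil)))) (.node (.node (.node .leaf (nat_lit 22624628143611166) (.br (nat_lit 3) (.cons (.br (nat_lit 0) (.cons (.br (nat_lit 5) (.cons (.rel (nat_lit 4563423552)) (.cons (.rel (nat_lit 8595177729)) (.cons (.rel (nat_lit 9131003904)) (.cons (.rel (nat_lit 4299161736)) (.cons (.rel (nat_lit 4304404500)) (.cons (.rel (nat_lit 4299161736)) (.cons (.rel (nat_lit 4563423552)) (.cons (.rel (nat_lit 4563423552)) .nil))))))))) (.cons (.br (nat_lit 6) (.cons (.rel (nat_lit 17448894720)) (.cons (.rel (nat_lit 34368128322)) (.cons (.rel (nat_lit 17184329985)) (.cons (.rel (nat_lit 17184587778)) (.cons (.rel (nat_lit 17184072192)) (.cons (.rel (nat_lit 17184342288)) (.cons (.rel (nat_lit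 17184072192)) .nil)))))))) (.cons (.br (nat_lit 6) (.cons (.rel (nat_lit 17448894720)) (.cons (.rel (nat_lit 34363933713)) (.cons (.rel (nat_lit 17184072192)) (.cons (.rel (nat_lit 17720936448)) (.cons (.rel (nat_lit 17184329985)) (.cons (.rel (nat_lit 17184587778)) (.cons (.rel (nat_lit 17184326976)) .nil)))))))) (.cons (.br (nat_lit 6) (.cons (.rel (nat_lit 17448894720)) (.cons (.rel (nat_lit 17184072192)) (.cons (.rel (nat_lit 17184326976)) (.cons (.rel (nat_lit 17184072192)) (.cons (.rel (nat_lit 17184072192)) (.cons (.rel (nat_lit 34368131328)) (.cons (.rel (nat_lit 34368128322)) .nil)))))))) (.cons (.br (nat_lit 6) (.cons (.rel (nat_lit 17448894720)) (.cons (.rel (nat_lit 17184072192)) (.cons (.rel (nat_lit 17188258821)) (.cons (.rel (nat_lit 17452504320)) (.cons (.rel (nat_lit 34368128322)) (.cons (.rel (nat_lit 34368389121)) (.cons (.rel (nat_lit 17184072192)) .nil)))))))) .nil)))))) (.cons (.br (nat_lit 0) (.cons (.rel (nat_lit 277086216)) (.cons (.br (nat_lit 6) (.cons (.rel (nat_lit 34896609285)) (.cons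 (.rel (nat_lit 34368128322)) (.cons (.rel (nat_lit 34628436000)) (.cons (.rel (nat_lit 34896609285)) (.cons (.rel (nat_lit 17184072192)) (.cons (.rel (nat_lit 34628436000)) (.cons (.rel (nat_lit 17184072192)) .nil)))))))) (.cons (.rel (nat_lit 277086216)) (.cons (.br (nat_lit 6) (.cons (.rel (nat_lit 34896609285)) (.cons (.rel (nat_lit 17184072192)) (.cons (.rel (nat_lit 34628436000)) (.cons (.rel (nat_lit 34896609285)) (.cons (.rel (nat_lit 17184072192)) (.cons (.rel (nat_lit 34628436000)) (.cons (.rel (nat_lit 34368128322)) .nil)))))))) (.cons (.br (nat_lit 6) (.cons (.rel (nat_lit 34896609285)) (.cons (.rel (nat_lit 17184072192)) (.cons (.rel (nat_lit 34628436000)) (.cons (.rel (nat_lit 34896609285)) (.cons (.rel (nat_lit 34368128322)) (.cons (.rel (nat_lit 34628436000)) (.cons (.rel (nat_lit 17184072192)) .nil)))))))) .nil)))))) (.cons (.br (nat_lit 0) (.cons (.rel (nat_lit 277086216)) (.cons (.br (nat_lit 6) (.cons (.rel (nat_lit 34628174148)) (.cons (.rel (nat_lit 34368128322)) (.cons (.rel (nat_lit 34628436000))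 (.cons (.rel (nat_lit 34628174148)) (.cons (.rel (nat_lit 17184072192)) (.cons (.rel (nat_lit 34628436000)) (.cons (.rel (nat_lit 17184072192)) .nil)))))))) (.cons (.rel (nat_lit 277086216)) (.cons (.br (nat_lit 6) (.cons (.rel (nat_lit 34628174148)) (.cons (.rel (nat_lit 17184072192)) (.cons (.rel (nat_lit 34628436000)) (.cons (.rel (nat_lit 34628174148)) (.cons (.rel (nat_lit 17184072192)) (.cons (.rel (nat_lit 34628436000)) (.cons (.rel (nat_lit 34368128322)) .nil)))))))) (.cons (.br (nat_lit 6) (.cons (.rel (nat_lit 34628174148)) (.cons (.rel (nat_lit 17184072192)) (.cons (.rel (nat_lit 34628436000)) (.cons (.rel (nat_lit 34628174148)) (.cons (.rel (nat_lit 34368128322)) (.cons (.rel (nat_lit 34628436000)) (.cons (.rel (nat_lit 17184072192)) .nil)))))))) .nil)))))) .nil)))) .leaf) (nat_lit 22628921010829569) (.br (nat_lit 1) (.cons (.br (nat_lit 5) (.cons (.rel (nat_lit 4312006728)) (.cons (.rel (nat_lit 4312006728)) (.cons (.rel (nat_lit 4329570816)) (.cons (.rel (nat_lit 4329570816)) (.cons (.rel (nat_lit 8608809216))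 .nil)))))) (.cons (.br (nat_lit 5) (.cons (.rel (nat_lit 4311744912)) (.cons (.rel (nat_lit 4328522754)) (.cons (.rel (nat_lit 4311744912)) (.cons (.rel (nat_lit 4311765252)) (.cons (.rel (nat_lit 8606797824)) .nil)))))) (.cons (.br (nat_lit 5) (.cons (.rel (nat_lit 4312006728)) (.cons (.rel (nat_lit 4312006728)) (.cons (.rel (nat_lit 4311810369)) (.cons (.rel (nat_lit 4312011792)) (.cons (.rel (nat_lit 4311765252)) .nil)))))) .nil)))) (.node .leaf (nat_lit 22628921010830069) (.br (nat_lit 3) (.cons (.br (nat_lit 5) (.cons (.rel (nat_lit 4563403032)) (.cons (.br (nat_lit 4) (.cons (.rel (nat_lit 1342177572)) (.cons (.rel (nat_lit 5905580544)) (.cons (.rel (nat_lit 1342177572)) (.cons (.rel (nat_lit 2415935508)) .nil))))) (.cons (.rel (nat_lit 8858435604)) .nil)))) (.cons (.br (nat_lit 5) (.cons (.rel (nat_lit 4563501312)) (.cons (.br (nat_lit 2) (.cons (.rel (nat_lit 402718737)) (.cons (.rel (nat_lit 4362339393)) (.cons (.rel (nat_lit 8724414720)) (.cons (.rel (nat_lit 4362342402)) (.cons (.rel (nat_lit 4362342402))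 .nil)))))) (.cons (.rel (nat_lit 8858386464)) .nil)))) (.cons (.br (nat_lit 4) (.cons (.rel (nat_lit 2415923205)) (.cons (.br (nat_lit 5) (.cons (.rel (nat_lit 5368976385)) (.cons (.rel (nat_lit 5905580544)) (.cons (.rel (nat_lit 5905580544)) .nil)))) (.cons (.rel (nat_lit 1610743812)) (.cons (.rel (nat_lit 2415984648)) .nil))))) .nil)))) .leaf)) (nat_lit 22628921010830569) (.br (nat_lit 1) (.cons (.br (nat_lit 4) (.cons (.rel (nat_lit 2181300480)) (.cons (.rel (nat_lit 1090524480)) (.cons (.rel (nat_lit 1107320832)) .nil)))) (.cons (.br (nat_lit 4) (.cons (.rel (nat_lit 1090782273)) (.cons (.rel (nat_lit 1090588932)) (.cons (.rel (nat_lit 1090588932)) .nil)))) (.cons (.br (nat_lit 4) (.cons (.rel (nat_lit 1090524480)) (.cons (.rel (nat_lit 1090524480)) (.cons (.rel (nat_lit 1090539792)) .nil)))) .nil)))) (.node (.node .leaf (nat_lit 22628921010938166) (.br (nat_lit 4) (.cons (.br (nat_lit 0) (.cons (.rel (nat_lit 1078068240)) (.cons (.rel (nat_lit 1078005792)) (.cons (.rel (nat_lit 1077946368)) .nil)))) (.cons (.br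 (nat_lit 0) (.cons (.rel (nat_lit 1077940290)) (.cons (.rel (nat_lit 1077937281)) (.cons (.rel (nat_lit 1080299520)) .nil)))) .nil))) .leaf) (nat_lit 22628921010938666) (.br (nat_lit 4) (.cons (.br (nat_lit 5) (.cons (.rel (nat_lit 6442450980)) (.cons (.rel (nat_lit 5368709505)) (.cons (.rel (nat_lit 5368718592)) .nil)))) (.cons (.br (nat_lit 0) (.cons (.rel (nat_lit 1077937281)) (.cons (.rel (nat_lit 2155877376)) (.cons (.rel (nat_lit 1077940290)) (.cons (.rel (nat_lit 1077946368)) .nil))))) .nil))) .leaf))) (nat_lit 22628921010939166) (.br (nat_lit 4) (.cons (.br (nat_lit 1) (.cons (.rel (nat_lit 1090527489)) (.cons (.rel (nat_lit 1090782273)) (.cons (.rel (nat_lit 1090527489)) .nil)))) .nil)) (.node (.node (.node (.node .leaf (nat_lit 22628921012621569) (.br (nat_lit 1) (.cons (.br (nat_lit 4) (.cons (.rel (nat_lit 1090785282)) (.cons (.rel (nat_lit 1090524480)) (.cons (.rel (nat_lit 1107320832)) .nil)))) (.cons (.br (nat_lit 4) (.cons (.rel (nat_lit 1090785282)) (.cons (.rel (nat_lit 1090588932)) (.cons (.rel (nat_lit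 1090588932)) .nil)))) (.cons (.br (nat_lit 4) (.cons (.rel (nat_lit 1090524480)) (.cons (.rel (nat_lit 1090524480)) (.cons (.rel (nat_lit 1090539792)) .nil)))) .nil)))) .leaf) (nat_lit 22628921012622069) (.br (nat_lit 1) (.cons (.br (nat_lit 2) (.cons (.rel (nat_lit 86507520)) (.cons (.rel (nat_lit 83887488)) (.cons (.rel (nat_lit 83890497)) (.cons (.rel (nat_lit 83887488)) (.cons (.rel (nat_lit 83887488)) .nil)))))) (.cons (.br (nat_lit 2) (.cons (.rel (nat_lit 83890497)) (.cons (.rel (nat_lit 83887488)) (.cons (.rel (nat_lit 83890497)) (.cons (.rel (nat_lit 83887488)) (.cons (.rel (nat_lit 83887488)) .nil)))))) (.cons (.br (nat_lit 2) (.cons (.rel (nat_lit 83890497)) (.cons (.rel (nat_lit 83968257)) (.cons (.rel (nat_lit 83887488)) (.cons (.rel (nat_lit 83902800)) (.cons (.rel (nat_lit 83890497)) .nil)))))) .nil)))) (.node .leaf (nat_lit 22628921012622569) (.br (nat_lit 3) (.cons (.br (nat_lit 5) (.cons (.br (nat_lit 2) (.cons (.rel (nat_lit 402653280)) (.cons (.rel (nat_lit 402658308)) (.cons (.rel (nat_lit 4362339393))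 (.cons (.rel (nat_lit 4362339393)) (.cons (.rel (nat_lit 402658308)) .nil)))))) (.cons (.rel (nat_lit 4563403032)) (.cons (.rel (nat_lit 8858435604)) .nil)))) (.cons (.br (nat_lit 5) (.cons (.br (nat_lit 2) (.cons (.rel (nat_lit 402718737)) (.cons (.rel (nat_lit 4362342402)) (.cons (.rel (nat_lit 4362339393)) (.cons (.rel (nat_lit 4362339393)) (.cons (.rel (nat_lit 4362600960)) .nil)))))) (.cons (.rel (nat_lit 4563501312)) (.cons (.rel (nat_lit 8858386464)) .nil)))) (.cons (.br (nat_lit 4) (.cons (.rel (nat_lit 1610743812)) (.cons (.br (nat_lit 5) (.cons (.rel (nat_lit 5905580544)) (.cons (.rel (nat_lit 5368709505)) (.cons (.rel (nat_lit 9663676440)) .nil)))) (.cons (.rel (nat_lit 2415923205)) (.cons (.rel (nat_lit 1610743812)) (.cons (.rel (nat_lit 2415984648)) .nil)))))) .nil)))) .leaf)) (nat_lit 22628921012730166) (.br (nat_lit 4) (.cons (.br (nat_lit 1) (.cons (.rel (nat_lit 2181300480)) (.cons (.rel (nat_lit 2164297728)) (.cons (.rel (nat_lit 1090588932)) .nil)))) (.cons (.br (nat_lit 1) (.cons (.rel (nat_lit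 1090527489)) (.cons (.rel (nat_lit 1090785282)) (.cons (.rel (nat_lit 1090527489)) .nil)))) .nil))) (.node (.node .leaf (nat_lit 22628921012730666) (.br (nat_lit 0) (.cons (.br (nat_lit 1) (.cons (.rel (nat_lit 21037140)) (.cons (.rel (nat_lit 20975697)) (.cons (.rel (nat_lit 26214402)) .nil)))) (.cons (.br (nat_lit 1) (.cons (.rel (nat_lit 20988000)) (.cons (.rel (nat_lit 20972688)) (.cons (.rel (nat_lit 20979720)) .nil)))) (.cons (.br (nat_lit 1) (.cons (.rel (nat_lit 20988000)) (.cons (.rel (nat_lit 21038145)) (.cons (.rel (nat_lit 41947140)) .nil)))) .nil)))) .leaf) (nat_lit 22628921012731166) (.br (nat_lit 3) (.cons (.br (nat_lit 1) (.cons (.rel (nat_lit 301989960)) (.cons (.rel (nat_lit 301995024)) (.cons (.rel (nat_lit 285213984)) (.cons (.rel (nat_lit 301989960)) .nil))))) (.cons (.br (nat_lit 5) (.cons (.rel (nat_lit 8858386464)) (.cons (.br (nat_lit 4) (.cons (.rel (nat_lit 5368742148)) (.cons (.rel (nat_lit 1342439568)) (.cons (.rel (nat_lit 5905580544)) .nil)))) (.cons (.rel (nat_lit 4831858689)) (.cons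 (.rel (nat_lit 4563501312)) .nil))))) (.cons (.br (nat_lit 1) (.cons (.rel (nat_lit 302006277)) (.cons (.rel (nat_lit 302057472)) (.cons (.rel (nat_lit 553780224)) (.cons (.rel (nat_lit 302006277)) .nil))))) .nil)))) .leaf)) (nat_lit 22628921013645569) (.br (nat_lit 3) (.cons (.br (nat_lit 4) (.cons (.rel (nat_lit 1342177572)) (.cons (.br (nat_lit 5) (.cons (.rel (nat_lit 5905580544)) (.cons (.rel (nat_lit 4563403032)) (.cons (.rel (nat_lit 4563403032)) (.cons (.rel (nat_lit 8858435604)) .nil))))) (.cons (.rel (nat_lit 1342177572)) (.cons (.rel (nat_lit 2415935508)) .nil))))) (.cons (.br (nat_lit 5) (.cons (.br (nat_lit 4) (.cons (.rel (nat_lit 1610694672)) (.cons (.rel (nat_lit 5905580544)) (.cons (.rel (nat_lit 1610694672)) (.cons (.rel (nat_lit 5905580544)) .nil))))) (.cons (.rel (nat_lit 4563501312)) (.cons (.rel (nat_lit 4563501312)) (.cons (.rel (nat_lit 8858386464)) .nil))))) (.cons (.br (nat_lit 4) (.cons (.rel (nat_lit 2415923205)) (.cons (.br (nat_lit 2) (.cons (.rel (nat_lit 1140920592)) (.cons (.rel (nat_lit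 1140920592)) (.cons (.rel (nat_lit 402658308)) (.cons (.rel (nat_lit 402658308)) (.cons (.rel (nat_lit 1207963776)) .nil)))))) (.cons (.rel (nat_lit 1610743812)) (.cons (.rel (nat_lit 2415984648)) .nil))))) .nil)))) (.node (.node (.node .leaf (nat_lit 22628921013646069) (.br (nat_lit 1) (.cons (.br (nat_lit 4) (.cons (.rel (nat_lit 1090782273)) (.cons (.rel (nat_lit 1090524480)) (.cons (.rel (nat_lit 1107320832)) .nil)))) (.cons (.br (nat_lit 4) (.cons (.rel (nat_lit 1090782273)) (.cons (.rel (nat_lit 1090588932)) (.cons (.rel (nat_lit 1090588932)) .nil)))) (.cons (.br (nat_lit 4) (.cons (.rel (nat_lit 1090524480)) (.cons (.rel (nat_lit 1090524480)) (.cons (.rel (nat_lit 1090539792)) .nil)))) .nil)))) .leaf) (nat_lit 22628921013646569) (.br (nat_lit 3) (.cons (.br (nat_lit 1) (.cons (.rel (nat_lit 301989960)) (.cons (.rel (nat_lit 285213984)) (.cons (.rel (nat_lit 301995024)) (.cons (.rel (nat_lit 301995024)) .nil))))) (.cons (.br (nat_lit 1) (.cons (.br (nat_lit 5) (.cons (.rel (nat_lit 4563501312)) (.cons (.rel (nat_lit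 4312825857)) (.cons (.rel (nat_lit 8858386464)) (.cons (.rel (nat_lit 8606713857)) (.cons (.rel (nat_lit 4312023045)) .nil)))))) (.cons (.rel (nat_lit 285540432)) (.cons (.br (nat_lit 5) (.cons (.rel (nat_lit 4563501312)) (.cons (.rel (nat_lit 4328522754)) (.cons (.rel (nat_lit 8858386464)) (.cons (.rel (nat_lit 4312011792)) (.cons (.rel (nat_lit 4311744912)) .nil)))))) (.cons (.br (nat_lit 5) (.cons (.rel (nat_lit 4563501312)) (.cons (.rel (nat_lit 4311765252)) (.cons (.rel (nat_lit 8858386464)) (.cons (.rel (nat_lit 4311744912)) (.cons (.rel (nat_lit 4311810369)) .nil)))))) .nil))))) (.cons (.br (nat_lit 1) (.cons (.rel (nat_lit 302006277)) (.cons (.rel (nat_lit 285605889)) (.cons (.rel (nat_lit 302057472)) (.cons (.rel (nat_lit 302057472)) .nil))))) .nil)))) (.node .leaf (nat_lit 22628921013754166) (.br (nat_lit 4) (.cons (.br (nat_lit 0) (.cons (.rel (nat_lit 1077940290)) (.cons (.rel (nat_lit 1077937281)) (.cons (.rel (nat_lit 2155877376)) .nil)))) (.cons (.br (nat_lit 0) (.cons (.rel (nat_lit 1078068240)) (.cons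 (.rel (nat_lit 1078005792)) (.cons (.rel (nat_lit 1077946368)) .nil)))) .nil))) .leaf)) (nat_lit 22628921013754666) (.br (nat_lit 4) (.cons (.br (nat_lit 1) (.cons (.rel (nat_lit 1090524480)) (.cons (.rel (nat_lit 1091043840)) (.cons (.rel (nat_lit 1090782273)) .nil)))) (.cons (.br (nat_lit 1) (.cons (.rel (nat_lit 1090527489)) (.cons (.rel (nat_lit 1090782273)) (.cons (.rel (nat_lit 1090527489)) .nil)))) .nil))) (.node (.node .leaf (nat_lit 22628921013755166) (.br (nat_lit 0) (.cons (.br (nat_lit 1) (.cons (.rel (nat_lit 21037140)) (.cons (.rel (nat_lit 20975697)) (.cons (.rel (nat_lit 40374528)) .nil)))) (.cons (.br (nat_lit 1) (.cons (.rel (nat_lit 20988000)) (.cons (.rel (nat_lit 20972688)) (.cons (.rel (nat_lit 20979720)) .nil)))) (.cons (.br (nat_lit 1) (.cons (.rel (nat_lit 20988000)) (.cons (.rel (nat_lit 21038145)) (.cons (.rel (nat_lit 41947140)) .nil)))) .nil)))) .leaf) (nat_lit 22636441397901569) (.br (nat_lit 2) (.cons (.br (nat_lit 0) (.cons (.rel (nat_lit 142606401)) (.cons (.rel (nat_lit 142606401))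 (.cons (.rel (nat_lit 75497760)) (.cons (.rel (nat_lit 71312385)) (.cons (.rel (nat_lit 142606401)) (.cons (.rel (nat_lit 71309376)) .nil))))))) (.cons (.br (nat_lit 4) (.cons (.rel (nat_lit 1140851076)) (.cons (.rel (nat_lit 1140884772)) (.cons (.rel (nat_lit 1140851076)) (.cons (.rel (nat_lit 1140920592)) (.cons (.rel (nat_lit 1141117956)) .nil)))))) (.cons (.br (nat_lit 4) (.cons (.rel (nat_lit 1140867393)) (.cons (.rel (nat_lit 1209008640)) (.cons (.rel (nat_lit 1141117956)) (.cons (.rel (nat_lit 1207960578)) (.cons (.rel (nat_lit 2214593556)) .nil)))))) .nil)))) .leaf)))) (nat_lit 22636441397902069) (.br (nat_lit 3) (.cons (.br (nat_lit 4) (.cons (.rel (nat_lit 2415935508)) (.cons (.br (nat_lit 5) (.cons (.rel (nat_lit 5905580544)) (.cons (.rel (nat_lit 8858435604)) (.cons (.rel (nat_lit 4563403032)) .nil)))) (.cons (.rel (nat_lit 1342177572)) .nil)))) (.cons (.br (nat_lit 4) (.cons (.rel (nat_lit 2415984648)) (.cons (.br (nat_lit 1) (.cons (.rel (nat_lit 302006277)) (.cons (.rel (nat_lit 1090782273)) (.cons (.rel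 (nat_lit 1090785282)) (.cons (.rel (nat_lit 1090782273)) (.cons (.rel (nat_lit 1090785282)) .nil)))))) (.cons (.rel (nat_lit 1342324992)) .nil)))) (.cons (.br (nat_lit 5) (.cons (.br (nat_lit 4) (.cons (.rel (nat_lit 9663696960)) (.cons (.rel (nat_lit 5905580544)) (.cons (.rel (nat_lit 5368840464)) .nil)))) (.cons (.rel (nat_lit 8858386464)) (.cons (.rel (nat_lit 4831870992)) .nil)))) .nil)))) (.node (.node (.node (.node (.node .leaf (nat_lit 22636441397902569) (.br (nat_lit 5) (.cons (.br (nat_lit 2) (.cons (.rel (nat_lit 4429187088)) (.cons (.rel (nat_lit 4362096912)) (.cons (.rel (nat_lit 4362146052)) .nil)))) (.cons (.br (nat_lit 2) (.cons (.rel (nat_lit 4363125888)) (.cons (.rel (nat_lit 4362084609)) (.cons (.rel (nat_lit 4362096912)) .nil)))) .nil))) .leaf) (nat_lit 22636441398010166) (.br (nat_lit 5) (.cons (.br (nat_lit 0) (.cons (.rel (nat_lit 4299231252)) (.cons (.rel (nat_lit 4303699968)) (.cons (.rel (nat_lit 4299182112)) .nil)))) (.cons (.br (nat_lit 2) (.cons (.rel (nat_lit 4362600960)) (.cons (.rel (nat_lit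 4362339393)) (.cons (.rel (nat_lit 4362084609)) .nil)))) .nil))) (.node .leaf (nat_lit 22636441398010666) (.br (nat_lit 5) (.cons (.br (nat_lit 2) (.cons (.rel (nat_lit 4362339393)) (.cons (.rel (nat_lit 4362081600)) (.cons (.rel (nat_lit 4362081600)) .nil)))) (.cons (.br (nat_lit 6) (.cons (.rel (nat_lit 21474837633)) (.cons (.rel (nat_lit 42949678080)) (.cons (.rel (nat_lit 21474846720)) (.cons (.rel (nat_lit 21474840642)) .nil))))) .nil))) .leaf)) (nat_lit 22636441398011166) (.br (nat_lit 5) (.cons (.br (nat_lit 2) (.cons (.rel (nat_lit 4362339393)) (.cons (.rel (nat_lit 4362081600)) (.cons (.rel (nat_lit 4362081600)) .nil)))) .nil)) (.node (.node .leaf (nat_lit 22636441399693569) (.br (nat_lit 5) (.cons (.br (nat_lit 2) (.cons (.rel (nat_lit 4429187088)) (.cons (.rel (nat_lit 4362096912)) (.cons (.rel (nat_lit 4362146052)) .nil)))) (.cons (.br (nat_lit 2) (.cons (.rel (nat_lit 4362342402)) (.cons (.rel (nat_lit 4362084609)) (.cons (.rel (nat_lit 4362096912)) .nil)))) .nil))) .leaf) (nat_lit 22636441399694069) (.br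 (nat_lit 3) (.cons (.br (nat_lit 2) (.cons (.rel (nat_lit 402653280)) (.cons (.rel (nat_lit 402658308)) (.cons (.rel (nat_lit 335545608)) (.cons (.rel (nat_lit 402658308)) .nil))))) (.cons (.br (nat_lit 2) (.cons (.br (nat_lit 0) (.cons (.rel (nat_lit 142606401)) (.cons (.rel (nat_lit 142606401)) (.cons (.rel (nat_lit 75497760)) (.cons (.rel (nat_lit 71312385)) (.cons (.rel (nat_lit 142606401)) (.cons (.rel (nat_lit 71309376)) .nil))))))) (.cons (.br (nat_lit 5) (.cons (.rel (nat_lit 4362081600)) (.cons (.rel (nat_lit 4362096912)) (.cons (.rel (nat_lit 4831920132)) (.cons (.rel (nat_lit 4362081600)) (.cons (.rel (nat_lit 4362081600)) .nil)))))) (.cons (.rel (nat_lit 335822916)) (.cons (.br (nat_lit 5) (.cons (.rel (nat_lit 4362084609)) (.cons (.rel (nat_lit 4362146052)) (.cons (.rel (nat_lit 4831920132)) (.cons (.rel (nat_lit 4901044224)) (.cons (.rel (nat_lit 4362081600)) .nil)))))) .nil))))) (.cons (.br (nat_lit 2) (.cons (.rel (nat_lit 402718737)) (.cons (.rel (nat_lit 402671616)) (.cons (.rel (nat_lit 335839233))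 (.cons (.rel (nat_lit 402671616)) .nil))))) .nil)))) .leaf)) (nat_lit 22636441399694569) (.br (nat_lit 3) (.cons (.br (nat_lit 4) (.cons (.rel (nat_lit 2415935508)) (.cons (.rel (nat_lit 1342177572)) (.cons (.br (nat_lit 1) (.cons (.rel (nat_lit 301989960)) (.cons (.rel (nat_lit 301995024)) (.cons (.rel (nat_lit 1090782273)) (.cons (.rel (nat_lit 301995024)) (.cons (.rel (nat_lit 1091571777)) .nil)))))) (.cons (.rel (nat_lit 1342177572)) .nil))))) (.cons (.br (nat_lit 4) (.cons (.rel (nat_lit 2415984648)) (.cons (.rel (nat_lit 1342324992)) (.cons (.br (nat_lit 5) (.cons (.rel (nat_lit 5905580544)) (.cons (.rel (nat_lit 5905580544)) (.cons (.rel (nat_lit 4831920132)) (.cons (.rel (nat_lit 4831920132)) .nil))))) (.cons (.rel (nat_lit 1342324992)) .nil))))) (.cons (.br (nat_lit 5) (.cons (.br (nat_lit 4) (.cons (.rel (nat_lit 5905580544)) (.cons (.rel (nat_lit 1342473216)) (.cons (.rel (nat_lit 5905580544)) (.cons (.rel (nat_lit 5369762880)) .nil))))) (.cons (.rel (nat_lit 8858386464)) (.cons (.rel (nat_lit 4831870992))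 (.cons (.rel (nat_lit 4831870992)) .nil))))) .nil)))) (.node (.node (.node .leaf (nat_lit 22636441399802166) (.br (nat_lit 3) (.cons (.br (nat_lit 5) (.cons (.rel (nat_lit 8858371152)) (.cons (.rel (nat_lit 4564452384)) (.cons (.rel (nat_lit 4563403032)) .nil)))) (.cons (.br (nat_lit 5) (.cons (.br (nat_lit 2) (.cons (.rel (nat_lit 4362342402)) (.cons (.rel (nat_lit 604000260)) (.cons (.rel (nat_lit 4362081600)) (.cons (.rel (nat_lit 4362081600)) .nil))))) (.cons (.br (nat_lit 2) (.cons (.rel (nat_lit 8657044512)) (.cons (.rel (nat_lit 604000260)) (.cons (.rel (nat_lit 4362146052)) (.cons (.rel (nat_lit 8724414720)) .nil))))) (.cons (.rel (nat_lit 4831920132)) .nil)))) (.cons (.br (nat_lit 5) (.cons (.rel (nat_lit 8858374161)) (.cons (.rel (nat_lit 4563734544)) (.cons (.rel (nat_lit 4563734544)) .nil)))) .nil)))) .leaf) (nat_lit 22636441399802666) (.br (nat_lit 0) (.cons (.br (nat_lit 6) (.cons (.rel (nat_lit 34368128322)) (.cons (.rel (nat_lit 17184072192)) (.cons (.rel (nat_lit 17184072192)) .nil)))) (.cons (.br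 (nat_lit 6) (.cons (.rel (nat_lit 17184072192)) (.cons (.rel (nat_lit 17184072192)) (.cons (.rel (nat_lit 34368128322)) .nil)))) (.cons (.br (nat_lit 6) (.cons (.rel (nat_lit 17184072192)) (.cons (.rel (nat_lit 34368128322)) (.cons (.rel (nat_lit 17184072192)) .nil)))) .nil)))) (.node .leaf (nat_lit 22636441399803166) (.br (nat_lit 5) (.cons (.br (nat_lit 4) (.cons (.rel (nat_lit 5368975380)) (.cons (.rel (nat_lit 5368709505)) (.cons (.rel (nat_lit 5368709505)) .nil)))) (.cons (.br (nat_lit 6) (.cons (.rel (nat_lit 42949678080)) (.cons (.rel (nat_lit 21474840642)) (.cons (.rel (nat_lit 21474837633)) .nil)))) .nil))) .leaf)) (nat_lit 22636441400717569) (.br (nat_lit 3) (.cons (.br (nat_lit 5) (.cons (.rel (nat_lit 8858435604)) (.cons (.rel (nat_lit 4563403032)) (.cons (.br (nat_lit 4) (.cons (.rel (nat_lit 1342177572)) (.cons (.rel (nat_lit 5905580544)) (.cons (.rel (nat_lit 2415935508)) (.cons (.rel (nat_lit 1342177572)) .nil))))) .nil)))) (.cons (.br (nat_lit 4) (.cons (.rel (nat_lit 1342324992)) (.cons (.br (nat_lit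 1) (.cons (.rel (nat_lit 302006277)) (.cons (.rel (nat_lit 1091043840)) (.cons (.rel (nat_lit 1090782273)) (.cons (.rel (nat_lit 1090782273)) (.cons (.rel (nat_lit 1090782273)) .nil)))))) (.cons (.rel (nat_lit 2415984648)) (.cons (.rel (nat_lit 1342324992)) .nil))))) (.cons (.br (nat_lit 5) (.cons (.rel (nat_lit 8858386464)) (.cons (.rel (nat_lit 4831870992)) (.cons (.br (nat_lit 1) (.cons (.rel (nat_lit 4311778560)) (.cons (.rel (nat_lit 4328522754)) (.cons (.rel (nat_lit 301995024)) (.cons (.rel (nat_lit 4311778560)) (.cons (.rel (nat_lit 301995024)) .nil)))))) .nil)))) .nil)))) (.node (.node .leaf (nat_lit 22636441400718069) (.br (nat_lit 5) (.cons (.br (nat_lit 2) (.cons (.rel (nat_lit 4429187088)) (.cons (.rel (nat_lit 4362096912)) (.cons (.rel (nat_lit 4362146052)) .nil)))) (.cons (.br (nat_lit 2) (.cons (.rel (nat_lit 4362339393)) (.cons (.rel (nat_lit 4362084609)) (.cons (.rel (nat_lit 4362096912)) .nil)))) .nil))) .leaf) (nat_lit 22636441400718569) (.br (nat_lit 2) (.cons (.br (nat_lit 5) (.cons (.rel (nat_lit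 4362081600)) (.cons (.rel (nat_lit 4362084609)) (.cons (.rel (nat_lit 4429187088)) (.cons (.rel (nat_lit 4362339393)) .nil))))) (.cons (.br (nat_lit 5) (.cons (.rel (nat_lit 4362081600)) (.cons (.rel (nat_lit 8657043462)) (.cons (.rel (nat_lit 4362096912)) (.cons (.rel (nat_lit 4362084609)) .nil))))) (.cons (.br (nat_lit 5) (.cons (.rel (nat_lit 4429187088)) (.cons (.rel (nat_lit 4429187088)) (.cons (.rel (nat_lit 4362146052)) (.cons (.rel (nat_lit 4362096912)) .nil))))) .nil)))) .leaf))) (nat_lit 22636441400826166) (.br (nat_lit 5) (.cons (.br (nat_lit 0) (.cons (.rel (nat_lit 8598323268)) (.cons (.rel (nat_lit 4299161736)) (.cons (.rel (nat_lit 8598323268)) (.cons (.rel (nat_lit 4303699968)) (.cons (.rel (nat_lit 4299178053)) .nil)))))) (.cons (.br (nat_lit 1) (.cons (.rel (nat_lit 4312011792)) (.cons (.rel (nat_lit 4311744912)) (.cons (.rel (nat_lit 4311810369)) (.cons (.rel (nat_lit 8608809216)) .nil))))) .nil))) (.node (.node (.node (.node .leaf (nat_lit 22636441400826666) (.br (nat_lit 5) (.cons (.br (nat_lit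 2) (.cons (.rel (nat_lit 4362339393)) (.cons (.rel (nat_lit 4362081600)) (.cons (.rel (nat_lit 4362081600)) .nil)))) .nil)) .leaf) (nat_lit 22636441400827166) (.br (nat_lit 5) (.cons (.br (nat_lit 2) (.cons (.rel (nat_lit 4362339393)) (.cons (.rel (nat_lit 4362081600)) (.cons (.rel (nat_lit 4362081600)) .nil)))) (.cons (.br (nat_lit 6) (.cons (.rel (nat_lit 21474840642)) (.cons (.rel (nat_lit 21474837633)) (.cons (.rel (nat_lit 21476410368)) .nil)))) .nil))) (.node .leaf (nat_lit 23064495155581685) (.br (nat_lit 0) (.cons (.br (nat_lit 3) (.cons (.rel (nat_lit 272638020)) .nil)) .nil)) .leaf)) (nat_lit 23064495155581704) (.br (nat_lit 3) (.cons (.br (nat_lit 6) (.cons (.rel (nat_lit 34628174148)) .nil)) .nil)) (.node (.node .leaf (nat_lit 23064950501806856) (.br (nat_lit 3) (.cons (.br (nat_lit 0) (.cons (.rel (nat_lit 272629794)) (.cons (.rel (nat_lit 272654337)) (.cons (.rel (nat_lit 274727172)) (.cons (.rel (nat_lit 273170688)) .nil))))) .nil)) .leaf) (nat_lit 23076731720107285) (.br (nat_lit 0) (.cons (.br (nat_lit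 3) (.cons (.rel (nat_lit 272630808)) .nil)) .nil)) .leaf)) (nat_lit 23076731721853179) (.br (nat_lit 2) (.cons (.br (nat_lit 3) (.cons (.rel (nat_lit 335545608)) .nil)) .nil)) (.node (.node (.node .leaf (nat_lit 23076731721853213) (.br (nat_lit 3) (.cons (.br (nat_lit 1) (.cons (.rel (nat_lit 285212934)) (.cons (.rel (nat_lit 301995024)) .nil))) .nil)) .leaf) (nat_lit 23076731721854210) (.br (nat_lit 0) (.cons (.br (nat_lit 6) (.cons (.rel (nat_lit 17184072192)) .nil)) .nil)) (.node .leaf (nat_lit 23076731721898235) (.br (nat_lit 3) (.cons (.br (nat_lit 2) (.cons (.rel (nat_lit 335544594)) (.cons (.rel (nat_lit 336625728)) .nil))) .nil)) .leaf)) (nat_lit 23076731721898269) (.br (nat_lit 3) (.cons (.br (nat_lit 6) (.cons (.rel (nat_lit 17448304650)) .nil)) .nil)) (.node (.node .leaf (nat_lit 23076731721937147) (.br (nat_lit 0) (.cons (.br (nat_lit 3) (.cons (.rel (nat_lit 272629794)) .nil)) .nil)) .leaf) (nat_lit 23076731721937181) (.br (nat_lit 3) (.cons (.br (nat_lit 4) (.cons (.rel (nat_lit 2415920196)) (.cons (.rel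 (nat_lit 1342178577)) .nil))) .nil)) .leaf))))))

/-- list of the parts -/
def L0 : List (ℕ × List ℕ) := [(nat_lit 0x400000001000000000000000000000000080000000000000000000000000000000000000000000000000000000000000000000000000000000000000040004000002000000000000000000000000000000000000000000000000000000000020000000, [cP]),
  (nat_lit 0x80000040000000800000000000000000000000000000000000000000000000000000000000000000000000000000000000000000000000000000000000000020000000000000000000000000000000000000000000000000000000000000000000000000000000000000000000000000000000000000000000000000000000000000000000000000000000000000000000000000000000000000000000000000000000000, [cP])]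

theorem hp0 : ∀ p ∈ L0, ∀ D2 ∈ p.2, ∃ e,
    search ext94 (Pool.Agent.H74.EGZ.vio sb) G Uc A0 p.1 D2 e = true :=
  (List.forall_mem_cons.2 ⟨(List.forall_mem_singleton.2 ⟨e0, by decide +kernel⟩),
  (List.forall_mem_singleton.2 (List.forall_mem_singleton.2 ⟨e1, by decide +kernel⟩))⟩)

/-- all parts -/
def L : List (ℕ × List ℕ) := L0

theorem cover_ok : cover Uc L = true := by decide +kernel

theorem hp : ∀ p ∈ L, ∀ D2 ∈ p.2, ∃ e,
    search ext94 (Pool.Agent.H74.EGZ.vio sb) G Uc A0 p.1 D2 e = true :=
  hp0

end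

end Pool.Agent.H21.EGZ.S41

namespace Pool.Agent.H21.EGZ

open Pool.Agent.H29.EGZ

/-- stage 41 -/
theorem stage41 : ∀ y : W5 → (Fin 5 → ZMod 9),
    Norm y [10, 154, 212, 145, 124] 5 124 → Forb y Qs41 → False :=
  stage_final S41.pts_ok S41.X_eq S41.A0_eq S41.sb_ok S41.root_ok S41.cover_ok S41.hp rfl

end Pool.Agent.H21.EGZ
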